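import Pool.Agent.Work.MP_7cb3ca_co.P3.Eqs

/-! The checker runs through all possible marks for the list after the next one. -/

namespace Pool.Agent.Work.MP_7cb3ca_co.P3

/-- The mask with the upper marks of the letters of `l` that satisfy `P`. -/
def upm (P : ℕ → Bool) : List ℕ → ℕ → ℕ
  | [], acc => acc
  | a :: l, acc => upm P l (if P a then acc ||| up a else acc)

variable {P : ℕ → Bool} {f : ℕ → Bool}

lemma keep_sound (l : List ℕ) : ∀ k acc, keep f l k acc = true →
    (l.filter fun a => !P a).length = k → f (upm P l acc) = true := by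
  induction l with
  | nil => rintro k acc h rfl; exact h
  | cons a l ih =>
    intro k acc h hk
    rw [upm]
    cases hP : P a with
    | true =>
      simp only [List.filter_cons, hP, Bool.not_true, Bool.false_eq_true, if_false] at hk
      refine ih k _ ?_ hk
      cases k with
      | zero => rwa [keep_zero] at h
      | succ k => rw [keep_succ, Bool.and_eq_true] at h; exact h.1
    | false =>
      simp only [List.filter_cons, hP, Bool.not_false, if_true, List.length_cons] at hk
      subst hk
      rw [keep_succ, Bool.and_eq_true] at h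
      exact ih _ _ h.2 rfl

lemma born_sound (l : List ℕ) : ∀ k acc, born f l k acc = true →
    (l.filter P).length ≤ k → f (upm P l acc) = true := by
  induction l with
  | nil => intro k acc h _; exact h
  | cons a l ih =>
    intro k acc h hk
    rw [upm]
    cases hP : P a with
    | true =>
      simp only [List.filter_cons, hP, if_true, List.length_cons] at hk
      obtain ⟨k, rfl⟩ : ∃ j, k = j + 1 := ⟨k - 1, by omega⟩
      rw [born_succ, Bool.and_eq_true] at h
      exact ih _ _ h.2 (by omega)
    | false =>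
      simp only [List.filter_cons, hP, Bool.false_eq_true, if_false] at hk
      refine ih k _ ?_ hk
      cases k with
      | zero => rwa [born_zero] at h ⊢
      | succ k => rw [born_succ, Bool.and_eq_true] at h; exact h.1

lemma upm_bit (l : List ℕ) (i : ℕ) : ∀ acc, (upm P l acc).testBit i = true ↔
    acc.testBit i = true ∨ ∃ a ∈ l, P a = true ∧ i = a + a + 1 := by
  induction l with
  | nil => simp [upm]
  | cons a l ih =>
    intro acc
    rw [upm, ih]
    have e : (a + a + 1 = i) = (i = a + a + 1) := propext eq_comm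
    cases hP : P a <;> simp [hP, up_eq, Nat.testBit_two_pow, or_assoc, e]

lemma bit_test (m a : ℕ) : bit m a = if m.testBit (a + a) = true then 1 else 0 := by
  rw [bit_eq, Nat.testBit_eq_decide_div_mod_eq]
  simp only [decide_eq_true_eq]
  split_ifs <;> omega

lemma mark2_test (m a : ℕ) : mark2 m a = (if m.testBit (a + a) = true then 1 else 0) +
    2 * if m.testBit (a + a + 1) = true then 1 else 0 := by
  simp only [mark2, Nat.testBit_eq_decide_div_mod_eq, decide_eq_true_eq, pow_succ,
    ← Nat.div_div_eq_div_mul]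
  split_ifs <;> omega

lemma mM_bit {k : ℕ} (hk : k ≤ 3) (a : ℕ) :
    ((mM k).testBit (a + a) = true ↔ a ∈ lM k) ∧ (mM k).testBit (a + a + 1) = false := by
  by_cases ha : a < 6
  · revert k a; decide +kernel
  · have h1 : ∀ k ≤ 3, mM k < 2 ^ 12 ∧ ∀ a ∈ lM k, a < 6 := by decide +kernel
    have h2 : ∀ i, 12 ≤ i → (mM k).testBit i = false := fun i hi =>
      Nat.testBit_lt_two_pow ((h1 k hk).1.trans_le (Nat.pow_le_pow_right (by omega) hi))
    rw [h2 _ (by omega), h2 _ (by omega)]
    simpa using fun h => ha ((h1 k hk).2 a h)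

lemma bit_mM {k : ℕ} (hk : k ≤ 3) (a : ℕ) : bit (mM k) a = if a ∈ lM k then 1 else 0 := by
  rw [bit_test]; simp only [(mM_bit hk a).1]

theorem opt_sound {k : ℕ} (hk : k ≤ 3) {C : List ℕ} {k' : ℕ}
    (h : keep (fun m => born f C k' m) (lM k) k' (mM k) = true)
    (h1 : ((lM k).filter fun a => !P a).length = k') (h2 : (C.filter P).length ≤ k') :
    ∃ m, f m = true ∧ ∀ a, a ∈ lM k ∨ a ∈ C →
      mark2 m a = (if a ∈ lM k then 1 else 0) + 2 * if P a = true then 1 else 0 := by
  refine ⟨_, born_sound C _ _ (keep_sound (P := P) _ _ _ h h1) h2, fun a ha => ?_⟩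
  rw [mark2_test]
  simp only [upm_bit, (mM_bit hk a).1, (mM_bit hk a).2]
  congr 1
  · refine if_congr ⟨?_, fun h => Or.inl (Or.inl h)⟩ rfl rfl
    rintro ((h | ⟨b, -, -, h⟩) | ⟨b, -, -, h⟩)
    exacts [h, by omega, by omega]
  · congr 1
    refine if_congr ⟨?_, fun h => ?_⟩ rfl rfl
    · rintro ((h | ⟨b, -, h3, h⟩) | ⟨b, -, h3, h⟩)
      · simp at h
      · rwa [show a = b by omega]
      · rwa [show a = b by omega]
    · rcases ha with ha | ha
      exacts [Or.inl (Or.inr ⟨a, ha, h, rfl⟩), Or.inr ⟨a, ha, h, rfl⟩]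

end Pool.Agent.Work.MP_7cb3ca_co.P3
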