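import Pool.Agent.Work.MP_7cb3ca_co.P3.Rep
import Pool.Agent.Work.MP_7cb3ca_co.P3.Opt

/-! The value that the checker gives to a letter is justified. -/

namespace Pool.Agent.Work.MP_7cb3ca_co.P3

open Finset

variable {R : ℕ → ℕ} {L : ℕ → Finset ℕ} {ψ : ℕ → ℕ}

theorem lval_spec (hT : Tabs R) (hL : ∀ t, (L t).card = 3) (hψ : Function.Injective ψ)
    {u : List ℕ} (hv : Valid L u) {mk W g d m : ℕ} {pw : PL} {v : QL} {tr : Tr} {P : Pos}
    (hmk : ∀ b, bit mk (ψ b) = mb (L (tm u)) b) (hd : 4 ≤ d) (hu : d + 1 ≤ u.length)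
    (hZ : ∀ i ≤ d, gz (W + ψ (gd u 0) * 2 ^ 24) i = ψ (gd u i)) (hg : GF L u g (d + 1))
    (hq : RepQ ψ u (GF L u) v d) (hP : posM pw m (ψ (gd u 0)) tr = P) (hP4 : 0 < P.h → 4 ≤ P.d)
    {V : ℕ} (hV : V = lval R mk pw v W d (ψ (gd u 0)) tr (cf (ctx L (tm u))) (24 * ctx L (tm u))
      (min (d - 2 + (cf (ctx L (tm u)) - g)) 44) m) :
    (V : ℝ) ≤ capf R L u ∧ (0 < V → (∀ p, Sq u p → d + 1 < 2 * p) ∧
      (V : ℝ) ≤ P.h - ∑ p ∈ fresh u d P.d, cost L (bet R L) (capf R L) u p) := by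
  unfold lval at hV
  cases h0 : evsM v R mk (ψ (gd u 0)) with
  | dead =>
    rw [h0] at hV
    subst hV
    exact ⟨by simpa [capf] using hk_nonneg _, fun h => absurd h (lt_irrefl _)⟩
  | mk o c =>
    rw [h0] at hV
    simp only at hV
    generalize W + ψ (gd u 0) * 2 ^ 24 = Z at hV hZ
    have hw : ∀ i < 5, gt (win Z 0) i = ψ (gd u i) := fun i hi => by
      rw [gt_win Z 0 (by omega), zero_add, hZ i (by omega)]
    have hw' : ∀ i < 4, gt (win Z 0 % 2 ^ 24) i = ψ (gd u i) := fun i hi => by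
      rw [← hw i (by omega), gt_eq, gt_eq, mod_div_mod _ (by omega)]
    rw [iH_eq, am_ok hmk hw', hw' 0 (by omega), hw' 1 (by omega), hw' 2 (by omega),
      hw' 3 (by omega), pat_map hψ, hw 1 (by omega), hw 3 (by omega), hw 4 (by omega)] at hV
    have hb := job_blind hT hL hψ hv hd hu hZ hg
    generalize dig (R (5824 + 64 * cls (win Z 0) (d + 1) +
      min (d - 2 + (cf (ctx L (tm u)) - g)) 44)) (24 * ctx L (tm u)) = bl at hV hb
    obtain ⟨e1, e2⟩ := evs_charge (f := cf (ctx L (tm u))) (sh := 24 * ctx L (tm u))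
      (B := fun p l => if 4 ≤ p ∧ 5 ≤ p + l then pc L (bet R L) (capf R L) (p - l) u p else 0) hψ
      (fun Z g0 p l h1 h2 h3 h4 h5 => by
        simp only
        split_ifs with h6
        · exact job_one hT hL hψ hv hmk h1 h2 h6.1 h6.2 h3 (fun i hi => lm_match u p i (by omega)) h5
        · exact ch_nonneg _ _ _ _)
      (Or.inl le_rfl) (by simp) hq hu h0
    have h1 : V ≤ dig (R (16 * pat4 (gd u) + amk (L (tm u)) (gd u))) (24 * ctx L (tm u)) ∧
        V ≤ P.h - (bl + chg o c d P.d (cf (ctx L (tm u))) (24 * ctx L (tm u))) ∧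
        (0 < V → gd u 0 = gd u 3 ∧ gd u 1 = gd u 4 → 5 ≤ P.d) := by
      simp only [hψ.eq_iff] at hV
      unfold pat4
      split_ifs at hV with h2
      · rw [val5_eq, val_eq, hP] at hV
        split_ifs at hV <;> omega
      · rw [val_eq, hP] at hV
        omega
    refine ⟨by unfold capf hk; exact_mod_cast h1.1, fun h2 => ⟨fun p hp => ?_, ?_⟩⟩
    · by_contra h3
      have := e1 p hp.1 (by omega)
      have := le_lm hp.1 (by have := hp.2.1; omega) hp.2.2
      omega
    · have h3 := hP4 (by omega)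
      have h4 := e2 P.d ((fresh u d P.d).filter fun p => p + lm u p ≤ d + 1) fun p hp => by
        simp only [fresh, mem_filter, mem_Icc] at hp; omega
      have h5 := hb ((fresh u d P.d).filter fun p => ¬ p + lm u p ≤ d + 1) fun p hp => by
        simp only [fresh, mem_filter, mem_Icc] at hp; omega
      rw [sum_congr rfl (g := fun p => cost L (bet R L) (capf R L) u p) fun p hp => by
        simp only [fresh, mem_filter, mem_Icc] at hp
        refine if_pos ⟨?_, by omega⟩
        by_contra h6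
        have h7 : lm u p < p := by
          by_cases h8 : 2 * p ≤ d + 1
          exacts [e1 p hp.1.1.1 h8, by omega]
        obtain rfl : p = 3 := by omega
        have := h1.2.2 h2 ⟨lm_match u 3 0 (by omega), lm_match u 3 1 (by omega)⟩
        omega] at h4
      rw [sum_congr rfl (g := fun p => cost L (bet R L) (capf R L) u p) fun p hp => by
        simp only [fresh, mem_filter, mem_Icc] at hp
        unfold cost
        rw [show lm u p = 0 by omega, tsub_zero]] at h5
      rw [← sum_filter_add_sum_filter_not _ fun p => p + lm u p ≤ d + 1]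
      have h6 : (V : ℝ) + (bl + chg o c d P.d (cf (ctx L (tm u))) (24 * ctx L (tm u))) ≤ P.h := by
        exact_mod_cast (by omega)
      linarith

/-- All checks of the certificate. -/
structure Cert (R : ℕ → ℕ) (TR : ℕ → Tr) : Prop where
  tab : Tabs R
  cov : ∀ c < 90, Cov R TR c 0
  start : ∀ c < 10, 1 ≤ (((((Pos.mk 0 0 (TR c)).step 0).step 0).step 0).step 0).h

variable {TR : ℕ → Tr}

lemma Cert.path (H : Cert R TR) {c : ℕ} (hc : c < 90) {σ : ℕ → ℕ} {n : ℕ} (hf : Found (TR c) σ n)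
    (h : 0 < (walk (TR c) σ n).h) {X : Acc} (hX : X = accs salt (mM (ck c))
      ⟨0, 0, .nil, .nil, 0, 9, lC (ck c), 3 - ck c, 3, 0⟩ σ n) :
    (walk (TR c) σ n).d = n ∧ 4 ≤ n ∧ n ≤ 55 ∧
      state R (mM (ck c)) (lM (ck c)) (edges TR (R (6464 + c)) (nxt c)) n (walk (TR c) σ n).h
        X.w X.v X.W X.g X.C = true := by
  obtain ⟨a, b, h1, h2, h3⟩ := H.cov c hc X.q (by omega) (hX ▸ accs_q_lt rfl σ n)
  subst hX
  exact (path_spec (chkC_eq R TR c a b ▸ h3) rfl hf ⟨h1, h2⟩).resolve_left (by omega)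

/-- The symbols of a word at its time. -/
def symL (L : ℕ → Finset ℕ) (w : List ℕ) : ℕ → ℕ := sym (mk2 (L (tm w)) (L (tm w + 1))) w

/-- The invariant of the construction. -/
def Inv (R : ℕ → ℕ) (TR : ℕ → Tr) (L : ℕ → Finset ℕ) (w : List ℕ) (d : ℕ) : Prop :=
  Free w ∧ Valid L w ∧ d ≤ w.length ∧ Found (TR (ctx L (tm w))) (symL L w) d ∧
    0 < pot L (bet R L) (capf R L) w d (walk (TR (ctx L (tm w))) (symL L w) d).h

theorem Inv.step (H : Cert R TR) (hL : ∀ t, (L t).card = 3) {w : List ℕ} {d : ℕ}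
    (I : Inv R TR L w d) : ∃ x d', Inv R TR L (x :: w) d' := by
  obtain ⟨hf, hv, hd, hF, hΦ⟩ := I
  have hβ := bet_pos H.tab hL
  have hcap : ∀ w, 0 ≤ capf R L w := fun w => hk_nonneg _
  obtain ⟨c1, -, -, c2⟩ := ctx_facts hL (tm w)
  obtain ⟨c3, -, -, c4⟩ := ctx_facts hL (tm w + 1)
  have hh : 0 < (walk (TR (ctx L (tm w))) (symL L w) d).h := by
    have : 0 ≤ ∑ p ∈ pend w d, cost L (bet R L) (capf R L) w p :=
      sum_nonneg fun p _ => cost_nonneg hβ hcap w p
    have : (0 : ℝ) < (walk (TR (ctx L (tm w))) (symL L w) d).h := by unfold pot at hΦ; linarith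
    exact_mod_cast this
  obtain ⟨-, d4, d55, hS⟩ := H.path c1 hF hh rfl
  obtain ⟨ψ, r, N⟩ := exists_names (hL (tm w)) (hL (tm w + 1)) w
  have hk : ck (ctx L (tm w)) ≤ 3 := c2 ▸ sdiff_le (hL _) _
  have hmk : ∀ b, bit (mM (ck (ctx L (tm w)))) (ψ b) = mb (L (tm w + 1)) b := fun b => by
    rw [bit_mM hk, c2, mb]
    exact if_congr (N.mem (hL _) b).2.1.symm rfl rfl
  have A := accs_inv hL N (by omega) c2 hmk d hd d55
  change AccInv L w ψ r d (accs _ _ _ (symL L w) d) at A
  generalize accs _ _ _ (symL L w) d = X at A hS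
  obtain ⟨m, hm1, hm2⟩ := opt_sound (P := fun a => decide (a ∈ (L (tm w + 1 + 1)).image ψ)) hk
    ((state_iff ..).1 hS _ (ctx_next hL (tm w)))
    (by rw [c2, c4]; exact N.count_M (hL _) (hL _) _)
    (by rw [c4]; exact N.count_C (by rw [hL, hL]) A.c1 fun c hc => (A.c2 c hc).2)
  have hm3 : ∀ b, (b ∈ L (tm w) ∨ ∃ i < d, gd w i = b) →
      mark2 m (ψ b) = mk2 (L (tm w + 1)) (L (tm w + 1 + 1)) b := fun b hb => by
    have h1 := (N.mem (hL _) b).2.1
    rw [← c2] at h1
    rw [hm2 _ (by by_cases h : b ∈ L (tm w + 1); exacts [Or.inl (h1.1 h), Or.inr (A.c3 b h hb)])]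
    simp only [mk2, mb, h1, decide_eq_true_eq, N.inj.mem_finset_image]
  have htm : ∀ x, tm (x :: w) = tm w + 1 := tm_cons (by omega)
  choose n hn1 hn2 hn3 hn4 _ using fun x => walk_found (TR (ctx L (tm w + 1))) (symL L (x :: w)) (d + 1)
  have hn5 : ∀ x, 0 < (walk (TR (ctx L (tm w + 1))) (symL L (x :: w)) (d + 1)).h →
      (walk (TR (ctx L (tm w + 1))) (symL L (x :: w)) (d + 1)).d = n x ∧ 4 ≤ n x := fun x h => by
    have := H.path c3 (hn2 x) (hn3 x ▸ h) rfl
    exact ⟨(hn4 x).trans this.1, this.2.1⟩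
  have key := fun x (hx : x ∈ L (tm w)) => lval_spec (u := x :: w) (pw := X.w) (m := m)
    (tr := TR (ctx L (tm w + 1))) (P := walk (TR (ctx L (tm w + 1))) (symL L (x :: w)) (d + 1))
    H.tab hL N.inj (hv.cons hx) (by rw [htm]; exact hmk) d4 (by simp; omega)
    (AccInv.gz (x := x) hL N hd (by omega) (by have := (N.mem (hL _) x).1.1 hx; omega) A.W)
    (GF.of (by omega) x A.g) (A.v x (by have := (N.mem (hL _) x).1.1 hx; omega))
    (by
      unfold symL
      rw [htm]
      exact posM_walk N.inj _ (hm3 x (Or.inl hx)) A.w' fun i hi => hm3 _ (Or.inr ⟨i, hi, rfl⟩))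
    (fun h => by have := hn5 x h; omega) rfl
  simp only [htm, gd_zero] at key
  obtain ⟨x, hx, h1, h2, h3⟩ := pot_step hβ hcap hf hΦ _ _ _ (fun x hx => (key x hx).1)
    (fun x hx h => (key x hx).2 (by exact_mod_cast h)) (by
      rw [← Nat.cast_sum, N.sum_A (hL _) fun y => lval R (mM (ck (ctx L (tm w)))) X.w X.v X.W d y
        (TR (ctx L (tm w + 1))) (cf (ctx L (tm w + 1))) (24 * ctx L (tm w + 1))
        (min (d - 2 + (cf (ctx L (tm w + 1)) - X.g)) 44) m]
      unfold bet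
      rw [div_mul_eq_mul_div, div_le_iff₀ (by norm_num), mul_comm _ (65536 : ℝ)]
      exact_mod_cast of_decide_eq_true hm1)
  have h4 := hn5 x (by
    have := ((key x hx).2 (by exact_mod_cast h1)).2
    have h5 : 0 ≤ ∑ p ∈ fresh (x :: w) d (walk (TR (ctx L (tm w + 1))) (symL L (x :: w)) (d + 1)).d,
      cost L (bet R L) (capf R L) (x :: w) p := sum_nonneg fun p _ => cost_nonneg hβ hcap _ p
    have : (0 : ℝ) < (walk (TR (ctx L (tm w + 1))) (symL L (x :: w)) (d + 1)).h := by linarith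
    exact_mod_cast this)
  refine ⟨x, n x, h2, hv.cons hx, by have := hn1 x; simp; omega, htm x ▸ hn2 x, ?_⟩
  rwa [htm, ← hn3, ← h4.1]

theorem Inv.start (H : Cert R TR) (hL : ∀ t, (L t).card = 3) :
    ∃ w d, w.length = 4 ∧ Inv R TR L w d := by
  set b := (L 0 ∪ L 1).sup id + 1 with hb
  have h1 : ∀ i, mk2 (L 0) (L 1) (b + i) = 0 := fun i => by
    have : b + i ∉ L 0 ∪ L 1 := fun h => by have : b + i ≤ _ := le_sup (f := id) h; omega
    rw [mem_union, not_or] at this
    simp [mk2, mb, this]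
  have h2 : ∀ i < 4, symL L [b, b + 1, b + 2, b + 3] i = 0 := fun i hi => by
    have := h1 0
    interval_cases i <;> simp_all [symL, sym, tm, gd]
  have h3 := H.start _ (ctx_zero hL)
  obtain ⟨n, k1, k2, k3, k4, -⟩ := walk_found (TR (ctx L 0)) (symL L [b, b + 1, b + 2, b + 3]) 4
  have h4 : 1 ≤ (walk (TR (ctx L 0)) (symL L [b, b + 1, b + 2, b + 3]) 4).h := by
    simp only [walk, h2 0 (by omega), h2 1 (by omega), h2 2 (by omega), h2 3 (by omega)]
    exact h3
  obtain rfl : n = 4 := by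
    have := (H.path (ctx_facts hL 0).1 k2 (by omega) rfl).2.1
    omega
  refine ⟨[b, b + 1, b + 2, b + 3], 4, rfl, fun s p hp hl hm => ?_, fun i hi => by simp at hi,
    le_rfl, k2, ?_⟩
  · have := hm 0 hp
    simp only [List.length_cons, List.length_nil] at hl
    have h5 : s ≤ 2 := by omega
    have h6 : p ≤ 2 := by omega
    interval_cases s <;> interval_cases p <;> simp_all [gd]
  · unfold pot
    rw [sum_eq_zero fun p hp => ?_, sub_zero]
    · exact_mod_cast h4
    · simp only [pend, mem_filter, mem_Icc] at hp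
      have := lm_le _ hp.1.2
      simp only [List.length_cons, List.length_nil] at this
      omega

theorem exists_word (H : Cert R TR) (hL : ∀ t, (L t).card = 3) (n : ℕ) :
    ∃ w : List ℕ, w.length = n + 4 ∧ Free w ∧ Valid L w := by
  have : ∃ w d, w.length = n + 4 ∧ Inv R TR L w d := by
    induction n with
    | zero => exact Inv.start H hL
    | succ n ih =>
      obtain ⟨w, d, h1, h2⟩ := ih
      obtain ⟨x, d', h3⟩ := h2.step H hL
      exact ⟨x :: w, d', by simp [h1], h3⟩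
  obtain ⟨w, d, h1, h2⟩ := this
  exact ⟨w, h1, h2.1, h2.2.1⟩

end Pool.Agent.Work.MP_7cb3ca_co.P3
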