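import Pool.Agent.Work.MP_7cb3ca_co.P3.DA

/-! Kernel runs of the checker on parts of the certificate. -/

namespace Pool.Agent.Work.MP_7cb3ca_co.P3.D

set_option maxRecDepth 100000

def p0_3463 : PLift (chkC R TR 0 3463 3574 = true) := ⟨by decide +kernel⟩
def p0_3948 : PLift (chkC R TR 0 3948 4043 = true) := ⟨by decide +kernel⟩
def p2_1976 : PLift (chkC R TR 2 1976 2527 = true) := ⟨by decide +kernel⟩
def p3_3056 : PLift (chkC R TR 3 3056 3406 = true) := ⟨by decide +kernel⟩
def p10_587 : PLift (chkC R TR 10 587 881 = true) := ⟨by decide +kernel⟩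
def p10_1252 : PLift (chkC R TR 10 1252 1454 = true) := ⟨by decide +kernel⟩
def p13_1524 : PLift (chkC R TR 13 1524 2864 = true) := ⟨by decide +kernel⟩
def p19_1994 : PLift (chkC R TR 19 1994 4098 = true) := ⟨by decide +kernel⟩
def p20_0 : PLift (chkC R TR 20 0 467 = true) := ⟨by decide +kernel⟩
def p20_3601 : PLift (chkC R TR 20 3601 4094 = true) := ⟨by decide +kernel⟩
def p21_0 : PLift (chkC R TR 21 0 1724 = true) := ⟨by decide +kernel⟩
def p23_3105 : PLift (chkC R TR 23 3105 4098 = true) := ⟨by decide +kernel⟩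
def p28_0 : PLift (chkC R TR 28 0 4098 = true) := ⟨by decide +kernel⟩
def p30_0 : PLift (chkC R TR 30 0 570 = true) := ⟨by decide +kernel⟩
def p30_2621 : PLift (chkC R TR 30 2621 3625 = true) := ⟨by decide +kernel⟩
def p33_0 : PLift (chkC R TR 33 0 1736 = true) := ⟨by decide +kernel⟩
def p37_0 : PLift (chkC R TR 37 0 4098 = true) := ⟨by decide +kernel⟩
def p43_3104 : PLift (chkC R TR 43 3104 3920 = true) := ⟨by decide +kernel⟩
def p67_0 : PLift (chkC R TR 67 0 4098 = true) := ⟨by decide +kernel⟩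
def p68_0 : PLift (chkC R TR 68 0 4098 = true) := ⟨by decide +kernel⟩
def p80_1758 : PLift (chkC R TR 80 1758 2505 = true) := ⟨by decide +kernel⟩

end Pool.Agent.Work.MP_7cb3ca_co.P3.D
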