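import Pool.Agent.Work.MP_7cb3ca_co.P3.DA

/-! Kernel runs of the checker on parts of the certificate. -/

namespace Pool.Agent.Work.MP_7cb3ca_co.P3.D

set_option maxRecDepth 100000

def p0_212 : PLift (chkC R TR 0 212 292 = true) := ⟨by decide +kernel⟩
def p0_2938 : PLift (chkC R TR 0 2938 3023 = true) := ⟨by decide +kernel⟩
def p1_148 : PLift (chkC R TR 1 148 370 = true) := ⟨by decide +kernel⟩
def p2_0 : PLift (chkC R TR 2 0 583 = true) := ⟨by decide +kernel⟩
def p3_2630 : PLift (chkC R TR 3 2630 3055 = true) := ⟨by decide +kernel⟩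
def p10_0 : PLift (chkC R TR 10 0 206 = true) := ⟨by decide +kernel⟩
def p10_2804 : PLift (chkC R TR 10 2804 3005 = true) := ⟨by decide +kernel⟩
def p13_0 : PLift (chkC R TR 13 0 1523 = true) := ⟨by decide +kernel⟩
def p22_0 : PLift (chkC R TR 22 0 4098 = true) := ⟨by decide +kernel⟩
def p24_0 : PLift (chkC R TR 24 0 4098 = true) := ⟨by decide +kernel⟩
def p30_1215 : PLift (chkC R TR 30 1215 1269 = true) := ⟨by decide +kernel⟩
def p31_0 : PLift (chkC R TR 31 0 4098 = true) := ⟨by decide +kernel⟩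
def p39_2402 : PLift (chkC R TR 39 2402 4048 = true) := ⟨by decide +kernel⟩
def p44_0 : PLift (chkC R TR 44 0 4098 = true) := ⟨by decide +kernel⟩
def p57_0 : PLift (chkC R TR 57 0 4098 = true) := ⟨by decide +kernel⟩
def p60_3309 : PLift (chkC R TR 60 3309 4098 = true) := ⟨by decide +kernel⟩
def p70_1455 : PLift (chkC R TR 70 1455 2493 = true) := ⟨by decide +kernel⟩
def p80_1257 : PLift (chkC R TR 80 1257 1757 = true) := ⟨by decide +kernel⟩
def p81_1968 : PLift (chkC R TR 81 1968 4098 = true) := ⟨by decide +kernel⟩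
def p86_2018 : PLift (chkC R TR 86 2018 4098 = true) := ⟨by decide +kernel⟩
def p88_0 : PLift (chkC R TR 88 0 2017 = true) := ⟨by decide +kernel⟩

end Pool.Agent.Work.MP_7cb3ca_co.P3.D
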