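import Pool.Agent.Work.MP_7cb3ca_co.P3.DA

/-! Kernel runs of the checker on parts of the certificate. -/

namespace Pool.Agent.Work.MP_7cb3ca_co.P3.D

set_option maxRecDepth 100000

def p0_44 : PLift (chkC R TR 0 44 94 = true) := ⟨by decide +kernel⟩
def p0_875 : PLift (chkC R TR 0 875 881 = true) := ⟨by decide +kernel⟩
def p0_1287 : PLift (chkC R TR 0 1287 1319 = true) := ⟨by decide +kernel⟩
def p0_2868 : PLift (chkC R TR 0 2868 2937 = true) := ⟨by decide +kernel⟩
def p0_3834 : PLift (chkC R TR 0 3834 3947 = true) := ⟨by decide +kernel⟩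
def p1_2718 : PLift (chkC R TR 1 2718 2967 = true) := ⟨by decide +kernel⟩
def p1_2968 : PLift (chkC R TR 1 2968 3203 = true) := ⟨by decide +kernel⟩
def p2_1408 : PLift (chkC R TR 2 1408 1975 = true) := ⟨by decide +kernel⟩
def p5_0 : PLift (chkC R TR 5 0 1884 = true) := ⟨by decide +kernel⟩
def p19_0 : PLift (chkC R TR 19 0 1993 = true) := ⟨by decide +kernel⟩
def p26_0 : PLift (chkC R TR 26 0 4098 = true) := ⟨by decide +kernel⟩
def p29_0 : PLift (chkC R TR 29 0 2404 = true) := ⟨by decide +kernel⟩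
def p40_3632 : PLift (chkC R TR 40 3632 4095 = true) := ⟨by decide +kernel⟩
def p50_1451 : PLift (chkC R TR 50 1451 2491 = true) := ⟨by decide +kernel⟩
def p60_937 : PLift (chkC R TR 60 937 1256 = true) := ⟨by decide +kernel⟩
def p76_0 : PLift (chkC R TR 76 0 4098 = true) := ⟨by decide +kernel⟩
def p78_0 : PLift (chkC R TR 78 0 4098 = true) := ⟨by decide +kernel⟩
def p80_218 : PLift (chkC R TR 80 218 940 = true) := ⟨by decide +kernel⟩
def p80_3804 : PLift (chkC R TR 80 3804 4098 = true) := ⟨by decide +kernel⟩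
def p83_2054 : PLift (chkC R TR 83 2054 3290 = true) := ⟨by decide +kernel⟩
def p88_2018 : PLift (chkC R TR 88 2018 3290 = true) := ⟨by decide +kernel⟩

end Pool.Agent.Work.MP_7cb3ca_co.P3.D
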