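import Pool.Agent.Work.MP_7cb3ca_co.P3.DA

/-! Kernel runs of the checker on parts of the certificate. -/

namespace Pool.Agent.Work.MP_7cb3ca_co.P3.D

set_option maxRecDepth 100000

def p0_825 : PLift (chkC R TR 0 825 874 = true) := ⟨by decide +kernel⟩
def p0_1944 : PLift (chkC R TR 0 1944 2027 = true) := ⟨by decide +kernel⟩
def p0_2682 : PLift (chkC R TR 0 2682 2795 = true) := ⟨by decide +kernel⟩
def p0_3136 : PLift (chkC R TR 0 3136 3198 = true) := ⟨by decide +kernel⟩
def p1_371 : PLift (chkC R TR 1 371 658 = true) := ⟨by decide +kernel⟩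
def p3_0 : PLift (chkC R TR 3 0 512 = true) := ⟨by decide +kernel⟩
def p3_4079 : PLift (chkC R TR 3 4079 4098 = true) := ⟨by decide +kernel⟩
def p4_0 : PLift (chkC R TR 4 0 2313 = true) := ⟨by decide +kernel⟩
def p5_4086 : PLift (chkC R TR 5 4086 4098 = true) := ⟨by decide +kernel⟩
def p9_0 : PLift (chkC R TR 9 0 2366 = true) := ⟨by decide +kernel⟩
def p13_2865 : PLift (chkC R TR 13 2865 4098 = true) := ⟨by decide +kernel⟩
def p16_0 : PLift (chkC R TR 16 0 4098 = true) := ⟨by decide +kernel⟩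
def p17_0 : PLift (chkC R TR 17 0 4098 = true) := ⟨by decide +kernel⟩
def p20_468 : PLift (chkC R TR 20 468 998 = true) := ⟨by decide +kernel⟩
def p21_4053 : PLift (chkC R TR 21 4053 4098 = true) := ⟨by decide +kernel⟩
def p39_0 : PLift (chkC R TR 39 0 2401 = true) := ⟨by decide +kernel⟩
def p39_4049 : PLift (chkC R TR 39 4049 4098 = true) := ⟨by decide +kernel⟩
def p40_1215 : PLift (chkC R TR 40 1215 1265 = true) := ⟨by decide +kernel⟩
def p50_2492 : PLift (chkC R TR 50 2492 3762 = true) := ⟨by decide +kernel⟩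
def p53_0 : PLift (chkC R TR 53 0 2017 = true) := ⟨by decide +kernel⟩
def p56_0 : PLift (chkC R TR 56 0 4098 = true) := ⟨by decide +kernel⟩
def p70_3805 : PLift (chkC R TR 70 3805 4098 = true) := ⟨by decide +kernel⟩
def p73_0 : PLift (chkC R TR 73 0 2052 = true) := ⟨by decide +kernel⟩
def p79_0 : PLift (chkC R TR 79 0 2052 = true) := ⟨by decide +kernel⟩
def p80_2506 : PLift (chkC R TR 80 2506 3803 = true) := ⟨by decide +kernel⟩

end Pool.Agent.Work.MP_7cb3ca_co.P3.D
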