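import Pool.Agent.Work.MP_7cb3ca_co.P3.DA

/-! Kernel runs of the checker on parts of the certificate. -/

namespace Pool.Agent.Work.MP_7cb3ca_co.P3.D

set_option maxRecDepth 100000

def p0_511 : PLift (chkC R TR 0 511 551 = true) := ⟨by decide +kernel⟩
def p0_2028 : PLift (chkC R TR 0 2028 2131 = true) := ⟨by decide +kernel⟩
def p1_2367 : PLift (chkC R TR 1 2367 2717 = true) := ⟨by decide +kernel⟩
def p1_3204 : PLift (chkC R TR 1 3204 3450 = true) := ⟨by decide +kernel⟩
def p2_2528 : PLift (chkC R TR 2 2528 3162 = true) := ⟨by decide +kernel⟩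
def p4_2314 : PLift (chkC R TR 4 2314 4098 = true) := ⟨by decide +kernel⟩
def p6_0 : PLift (chkC R TR 6 0 4098 = true) := ⟨by decide +kernel⟩
def p9_2367 : PLift (chkC R TR 9 2367 4075 = true) := ⟨by decide +kernel⟩
def p10_4094 : PLift (chkC R TR 10 4094 4098 = true) := ⟨by decide +kernel⟩
def p20_3094 : PLift (chkC R TR 20 3094 3600 = true) := ⟨by decide +kernel⟩
def p35_0 : PLift (chkC R TR 35 0 4098 = true) := ⟨by decide +kernel⟩
def p45_0 : PLift (chkC R TR 45 0 4098 = true) := ⟨by decide +kernel⟩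
def p50_1217 : PLift (chkC R TR 50 1217 1450 = true) := ⟨by decide +kernel⟩
def p60_2488 : PLift (chkC R TR 60 2488 3308 = true) := ⟨by decide +kernel⟩
def p62_0 : PLift (chkC R TR 62 0 4098 = true) := ⟨by decide +kernel⟩
def p64_0 : PLift (chkC R TR 64 0 4098 = true) := ⟨by decide +kernel⟩
def p72_0 : PLift (chkC R TR 72 0 4098 = true) := ⟨by decide +kernel⟩
def p74_0 : PLift (chkC R TR 74 0 4098 = true) := ⟨by decide +kernel⟩
def p79_2053 : PLift (chkC R TR 79 2053 4098 = true) := ⟨by decide +kernel⟩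
def p80_0 : PLift (chkC R TR 80 0 217 = true) := ⟨by decide +kernel⟩
def p83_1885 : PLift (chkC R TR 83 1885 2053 = true) := ⟨by decide +kernel⟩
def p89_2018 : PLift (chkC R TR 89 2018 2052 = true) := ⟨by decide +kernel⟩
def p89_3289 : PLift (chkC R TR 89 3289 3290 = true) := ⟨by decide +kernel⟩

end Pool.Agent.Work.MP_7cb3ca_co.P3.D
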