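import Pool.Agent.Work.MP_7cb3ca_co.P3.DA

/-! Kernel runs of the checker on parts of the certificate. -/

namespace Pool.Agent.Work.MP_7cb3ca_co.P3.D

set_option maxRecDepth 100000

def p0_377 : PLift (chkC R TR 0 377 510 = true) := ⟨by decide +kernel⟩
def p0_1662 : PLift (chkC R TR 0 1662 1700 = true) := ⟨by decide +kernel⟩
def p0_2282 : PLift (chkC R TR 0 2282 2393 = true) := ⟨by decide +kernel⟩
def p0_2394 : PLift (chkC R TR 0 2394 2513 = true) := ⟨by decide +kernel⟩
def p0_3024 : PLift (chkC R TR 0 3024 3095 = true) := ⟨by decide +kernel⟩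
def p0_3096 : PLift (chkC R TR 0 3096 3135 = true) := ⟨by decide +kernel⟩
def p1_1305 : PLift (chkC R TR 1 1305 1567 = true) := ⟨by decide +kernel⟩
def p1_3771 : PLift (chkC R TR 1 3771 4098 = true) := ⟨by decide +kernel⟩
def p3_1274 : PLift (chkC R TR 3 1274 2011 = true) := ⟨by decide +kernel⟩
def p3_3407 : PLift (chkC R TR 3 3407 4078 = true) := ⟨by decide +kernel⟩
def p9_4076 : PLift (chkC R TR 9 4076 4098 = true) := ⟨by decide +kernel⟩
def p10_2288 : PLift (chkC R TR 10 2288 2620 = true) := ⟨by decide +kernel⟩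
def p27_0 : PLift (chkC R TR 27 0 4098 = true) := ⟨by decide +kernel⟩
def p34_0 : PLift (chkC R TR 34 0 4098 = true) := ⟨by decide +kernel⟩
def p40_1598 : PLift (chkC R TR 40 1598 2536 = true) := ⟨by decide +kernel⟩
def p40_4096 : PLift (chkC R TR 40 4096 4098 = true) := ⟨by decide +kernel⟩
def p48_0 : PLift (chkC R TR 48 0 4098 = true) := ⟨by decide +kernel⟩
def p51_0 : PLift (chkC R TR 51 0 4098 = true) := ⟨by decide +kernel⟩
def p53_2018 : PLift (chkC R TR 53 2018 4098 = true) := ⟨by decide +kernel⟩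
def p73_3291 : PLift (chkC R TR 73 3291 4098 = true) := ⟨by decide +kernel⟩
def p81_0 : PLift (chkC R TR 81 0 1967 = true) := ⟨by decide +kernel⟩
def p84_2053 : PLift (chkC R TR 84 2053 4098 = true) := ⟨by decide +kernel⟩
def p89_2054 : PLift (chkC R TR 89 2054 3288 = true) := ⟨by decide +kernel⟩

end Pool.Agent.Work.MP_7cb3ca_co.P3.D
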