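import Pool.Agent.Work.MP_7cb3ca_co.P3.DA

/-! Kernel runs of the checker on parts of the certificate. -/

namespace Pool.Agent.Work.MP_7cb3ca_co.P3.D

set_option maxRecDepth 100000

def p0_95 : PLift (chkC R TR 0 95 211 = true) := ⟨by decide +kernel⟩
def p0_1321 : PLift (chkC R TR 0 1321 1372 = true) := ⟨by decide +kernel⟩
def p0_2796 : PLift (chkC R TR 0 2796 2867 = true) := ⟨by decide +kernel⟩
def p0_3285 : PLift (chkC R TR 0 3285 3408 = true) := ⟨by decide +kernel⟩
def p0_3575 : PLift (chkC R TR 0 3575 3698 = true) := ⟨by decide +kernel⟩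
def p1_1568 : PLift (chkC R TR 1 1568 1833 = true) := ⟨by decide +kernel⟩
def p2_3163 : PLift (chkC R TR 2 3163 4098 = true) := ⟨by decide +kernel⟩
def p3_2012 : PLift (chkC R TR 3 2012 2629 = true) := ⟨by decide +kernel⟩
def p8_0 : PLift (chkC R TR 8 0 4098 = true) := ⟨by decide +kernel⟩
def p10_3283 : PLift (chkC R TR 10 3283 3676 = true) := ⟨by decide +kernel⟩
def p11_2578 : PLift (chkC R TR 11 2578 4098 = true) := ⟨by decide +kernel⟩
def p12_0 : PLift (chkC R TR 12 0 4098 = true) := ⟨by decide +kernel⟩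
def p20_999 : PLift (chkC R TR 20 999 1473 = true) := ⟨by decide +kernel⟩
def p21_1725 : PLift (chkC R TR 21 1725 4052 = true) := ⟨by decide +kernel⟩
def p33_3104 : PLift (chkC R TR 33 3104 3937 = true) := ⟨by decide +kernel⟩
def p43_3921 : PLift (chkC R TR 43 3921 4098 = true) := ⟨by decide +kernel⟩
def p50_650 : PLift (chkC R TR 50 650 1216 = true) := ⟨by decide +kernel⟩
def p52_0 : PLift (chkC R TR 52 0 4098 = true) := ⟨by decide +kernel⟩
def p59_1885 : PLift (chkC R TR 59 1885 4098 = true) := ⟨by decide +kernel⟩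
def p65_0 : PLift (chkC R TR 65 0 4098 = true) := ⟨by decide +kernel⟩
def p73_2053 : PLift (chkC R TR 73 2053 3290 = true) := ⟨by decide +kernel⟩
def p80_941 : PLift (chkC R TR 80 941 1256 = true) := ⟨by decide +kernel⟩

end Pool.Agent.Work.MP_7cb3ca_co.P3.D
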