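import Pool.Agent.Work.MP_7cb3ca_co.P3.DA

/-! Kernel runs of the checker on parts of the certificate. -/

namespace Pool.Agent.Work.MP_7cb3ca_co.P3.D

set_option maxRecDepth 100000

def p0_0 : PLift (chkC R TR 0 0 43 = true) := ⟨by decide +kernel⟩
def p0_1030 : PLift (chkC R TR 0 1030 1117 = true) := ⟨by decide +kernel⟩
def p0_1219 : PLift (chkC R TR 0 1219 1286 = true) := ⟨by decide +kernel⟩
def p1_3451 : PLift (chkC R TR 1 3451 3770 = true) := ⟨by decide +kernel⟩
def p3_513 : PLift (chkC R TR 3 513 1273 = true) := ⟨by decide +kernel⟩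
def p7_0 : PLift (chkC R TR 7 0 4098 = true) := ⟨by decide +kernel⟩
def p10_882 : PLift (chkC R TR 10 882 1251 = true) := ⟨by decide +kernel⟩
def p10_3677 : PLift (chkC R TR 10 3677 4093 = true) := ⟨by decide +kernel⟩
def p18_0 : PLift (chkC R TR 18 0 4098 = true) := ⟨by decide +kernel⟩
def p20_2071 : PLift (chkC R TR 20 2071 2571 = true) := ⟨by decide +kernel⟩
def p20_2572 : PLift (chkC R TR 20 2572 3093 = true) := ⟨by decide +kernel⟩
def p30_4082 : PLift (chkC R TR 30 4082 4098 = true) := ⟨by decide +kernel⟩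
def p40_2537 : PLift (chkC R TR 40 2537 3631 = true) := ⟨by decide +kernel⟩
def p43_0 : PLift (chkC R TR 43 0 1830 = true) := ⟨by decide +kernel⟩
def p43_1831 : PLift (chkC R TR 43 1831 3103 = true) := ⟨by decide +kernel⟩
def p46_0 : PLift (chkC R TR 46 0 4098 = true) := ⟨by decide +kernel⟩
def p49_1885 : PLift (chkC R TR 49 1885 4098 = true) := ⟨by decide +kernel⟩
def p50_0 : PLift (chkC R TR 50 0 649 = true) := ⟨by decide +kernel⟩
def p70_0 : PLift (chkC R TR 70 0 940 = true) := ⟨by decide +kernel⟩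
def p71_0 : PLift (chkC R TR 71 0 4098 = true) := ⟨by decide +kernel⟩
def p82_0 : PLift (chkC R TR 82 0 4098 = true) := ⟨by decide +kernel⟩
def p89_2053 : PLift (chkC R TR 89 2053 2053 = true) := ⟨by decide +kernel⟩

end Pool.Agent.Work.MP_7cb3ca_co.P3.D
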