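import Pool.Agent.Work.MP_7cb3ca_co.P3.DA

/-! Kernel runs of the checker on parts of the certificate. -/

namespace Pool.Agent.Work.MP_7cb3ca_co.P3.D

set_option maxRecDepth 100000

def p0_693 : PLift (chkC R TR 0 693 824 = true) := ⟨by decide +kernel⟩
def p0_1118 : PLift (chkC R TR 0 1118 1218 = true) := ⟨by decide +kernel⟩
def p0_1581 : PLift (chkC R TR 0 1581 1661 = true) := ⟨by decide +kernel⟩
def p0_2132 : PLift (chkC R TR 0 2132 2281 = true) := ⟨by decide +kernel⟩
def p0_3409 : PLift (chkC R TR 0 3409 3462 = true) := ⟨by decide +kernel⟩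
def p5_1885 : PLift (chkC R TR 5 1885 4085 = true) := ⟨by decide +kernel⟩
def p10_207 : PLift (chkC R TR 10 207 586 = true) := ⟨by decide +kernel⟩
def p11_1377 : PLift (chkC R TR 11 1377 2577 = true) := ⟨by decide +kernel⟩
def p15_0 : PLift (chkC R TR 15 0 4098 = true) := ⟨by decide +kernel⟩
def p30_1933 : PLift (chkC R TR 30 1933 2620 = true) := ⟨by decide +kernel⟩
def p40_0 : PLift (chkC R TR 40 0 645 = true) := ⟨by decide +kernel⟩
def p55_0 : PLift (chkC R TR 55 0 4098 = true) := ⟨by decide +kernel⟩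
def p60_0 : PLift (chkC R TR 60 0 936 = true) := ⟨by decide +kernel⟩
def p63_2053 : PLift (chkC R TR 63 2053 4098 = true) := ⟨by decide +kernel⟩
def p66_0 : PLift (chkC R TR 66 0 4098 = true) := ⟨by decide +kernel⟩
def p69_0 : PLift (chkC R TR 69 0 2017 = true) := ⟨by decide +kernel⟩
def p70_2494 : PLift (chkC R TR 70 2494 3804 = true) := ⟨by decide +kernel⟩
def p83_3291 : PLift (chkC R TR 83 3291 4098 = true) := ⟨by decide +kernel⟩
def p85_0 : PLift (chkC R TR 85 0 2017 = true) := ⟨by decide +kernel⟩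
def p89_0 : PLift (chkC R TR 89 0 1336 = true) := ⟨by decide +kernel⟩
def p89_3291 : PLift (chkC R TR 89 3291 4098 = true) := ⟨by decide +kernel⟩

end Pool.Agent.Work.MP_7cb3ca_co.P3.D
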