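import Pool.Agent.Work.MP_7cb3ca_co.P3.DA

/-! Kernel runs of the checker on parts of the certificate. -/

namespace Pool.Agent.Work.MP_7cb3ca_co.P3.D

set_option maxRecDepth 100000

def p0_293 : PLift (chkC R TR 0 293 376 = true) := ⟨by decide +kernel⟩
def p0_882 : PLift (chkC R TR 0 882 1029 = true) := ⟨by decide +kernel⟩
def p0_1320 : PLift (chkC R TR 0 1320 1320 = true) := ⟨by decide +kernel⟩
def p0_1373 : PLift (chkC R TR 0 1373 1479 = true) := ⟨by decide +kernel⟩
def p0_1701 : PLift (chkC R TR 0 1701 1832 = true) := ⟨by decide +kernel⟩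
def p0_1833 : PLift (chkC R TR 0 1833 1943 = true) := ⟨by decide +kernel⟩
def p0_4044 : PLift (chkC R TR 0 4044 4098 = true) := ⟨by decide +kernel⟩
def p1_0 : PLift (chkC R TR 1 0 147 = true) := ⟨by decide +kernel⟩
def p10_3006 : PLift (chkC R TR 10 3006 3282 = true) := ⟨by decide +kernel⟩
def p11_0 : PLift (chkC R TR 11 0 1376 = true) := ⟨by decide +kernel⟩
def p25_0 : PLift (chkC R TR 25 0 4098 = true) := ⟨by decide +kernel⟩
def p49_0 : PLift (chkC R TR 49 0 1884 = true) := ⟨by decide +kernel⟩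
def p60_1257 : PLift (chkC R TR 60 1257 2487 = true) := ⟨by decide +kernel⟩
def p63_0 : PLift (chkC R TR 63 0 2052 = true) := ⟨by decide +kernel⟩
def p69_2018 : PLift (chkC R TR 69 2018 4098 = true) := ⟨by decide +kernel⟩
def p70_941 : PLift (chkC R TR 70 941 1454 = true) := ⟨by decide +kernel⟩
def p75_0 : PLift (chkC R TR 75 0 4098 = true) := ⟨by decide +kernel⟩
def p77_0 : PLift (chkC R TR 77 0 4098 = true) := ⟨by decide +kernel⟩
def p83_0 : PLift (chkC R TR 83 0 1884 = true) := ⟨by decide +kernel⟩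
def p87_0 : PLift (chkC R TR 87 0 2053 = true) := ⟨by decide +kernel⟩
def p87_2054 : PLift (chkC R TR 87 2054 4098 = true) := ⟨by decide +kernel⟩

end Pool.Agent.Work.MP_7cb3ca_co.P3.D
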