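import Pool.Agent.Work.MP_7cb3ca_co.P3.DA

/-! Kernel runs of the checker on parts of the certificate. -/

namespace Pool.Agent.Work.MP_7cb3ca_co.P3.D

set_option maxRecDepth 100000

def p0_552 : PLift (chkC R TR 0 552 692 = true) := ⟨by decide +kernel⟩
def p0_1480 : PLift (chkC R TR 0 1480 1580 = true) := ⟨by decide +kernel⟩
def p0_2514 : PLift (chkC R TR 0 2514 2616 = true) := ⟨by decide +kernel⟩
def p1_936 : PLift (chkC R TR 1 936 1304 = true) := ⟨by decide +kernel⟩
def p10_1772 : PLift (chkC R TR 10 1772 2287 = true) := ⟨by decide +kernel⟩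
def p10_2621 : PLift (chkC R TR 10 2621 2803 = true) := ⟨by decide +kernel⟩
def p20_1474 : PLift (chkC R TR 20 1474 2070 = true) := ⟨by decide +kernel⟩
def p23_0 : PLift (chkC R TR 23 0 1836 = true) := ⟨by decide +kernel⟩
def p23_1837 : PLift (chkC R TR 23 1837 3104 = true) := ⟨by decide +kernel⟩
def p30_571 : PLift (chkC R TR 30 571 1214 = true) := ⟨by decide +kernel⟩
def p30_3626 : PLift (chkC R TR 30 3626 4081 = true) := ⟨by decide +kernel⟩
def p41_0 : PLift (chkC R TR 41 0 4098 = true) := ⟨by decide +kernel⟩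
def p42_0 : PLift (chkC R TR 42 0 4098 = true) := ⟨by decide +kernel⟩
def p47_0 : PLift (chkC R TR 47 0 4098 = true) := ⟨by decide +kernel⟩
def p50_3763 : PLift (chkC R TR 50 3763 4098 = true) := ⟨by decide +kernel⟩
def p54_0 : PLift (chkC R TR 54 0 4098 = true) := ⟨by decide +kernel⟩
def p61_0 : PLift (chkC R TR 61 0 4098 = true) := ⟨by decide +kernel⟩
def p84_0 : PLift (chkC R TR 84 0 2052 = true) := ⟨by decide +kernel⟩
def p88_3291 : PLift (chkC R TR 88 3291 4098 = true) := ⟨by decide +kernel⟩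
def p89_1337 : PLift (chkC R TR 89 1337 1446 = true) := ⟨by decide +kernel⟩
def p89_1447 : PLift (chkC R TR 89 1447 1884 = true) := ⟨by decide +kernel⟩
def p89_1885 : PLift (chkC R TR 89 1885 2017 = true) := ⟨by decide +kernel⟩

end Pool.Agent.Work.MP_7cb3ca_co.P3.D
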