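import Pool.Agent.Work.MP_7cb3ca_co.P3.DR

/-! Kernel runs of the checker on the tables of the certificate. -/

namespace Pool.Agent.Work.MP_7cb3ca_co.P3.D

set_option maxRecDepth 100000

def tp0_0 : PLift (chkPs R 0 0 = true) := ⟨by decide +kernel⟩
def tw0_0 : PLift (chkW R 0 0 = true) := ⟨by decide +kernel⟩
def tp0_1 : PLift (chkPs R 0 1 = true) := ⟨by decide +kernel⟩
def tw0_1 : PLift (chkW R 0 1 = true) := ⟨by decide +kernel⟩
def tp0_2 : PLift (chkPs R 0 2 = true) := ⟨by decide +kernel⟩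
def tw0_2 : PLift (chkW R 0 2 = true) := ⟨by decide +kernel⟩
def tp0_3 : PLift (chkPs R 0 3 = true) := ⟨by decide +kernel⟩
def tw0_3 : PLift (chkW R 0 3 = true) := ⟨by decide +kernel⟩
def tp0_4 : PLift (chkPs R 0 4 = true) := ⟨by decide +kernel⟩
def tw0_4 : PLift (chkW R 0 4 = true) := ⟨by decide +kernel⟩
def tp0_5 : PLift (chkPs R 0 5 = true) := ⟨by decide +kernel⟩
def tw0_5 : PLift (chkW R 0 5 = true) := ⟨by decide +kernel⟩
def tp0_6 : PLift (chkPs R 0 6 = true) := ⟨by decide +kernel⟩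
def tw0_6 : PLift (chkW R 0 6 = true) := ⟨by decide +kernel⟩
def tp0_7 : PLift (chkPs R 0 7 = true) := ⟨by decide +kernel⟩
def tw0_7 : PLift (chkW R 0 7 = true) := ⟨by decide +kernel⟩
def tp0_8 : PLift (chkPs R 0 8 = true) := ⟨by decide +kernel⟩
def tw0_8 : PLift (chkW R 0 8 = true) := ⟨by decide +kernel⟩
def tp0_9 : PLift (chkPs R 0 9 = true) := ⟨by decide +kernel⟩
def tw0_9 : PLift (chkW R 0 9 = true) := ⟨by decide +kernel⟩

end Pool.Agent.Work.MP_7cb3ca_co.P3.D
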