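import Pool.Agent.Work.MP_7cb3ca_co.P3.DR

/-! Kernel runs of the checker on the tables of the certificate. -/

namespace Pool.Agent.Work.MP_7cb3ca_co.P3.D

set_option maxRecDepth 100000

def tp1_0 : PLift (chkPs R 1 0 = true) := ⟨by decide +kernel⟩
def tw1_0 : PLift (chkW R 1 0 = true) := ⟨by decide +kernel⟩
def tp1_1 : PLift (chkPs R 1 1 = true) := ⟨by decide +kernel⟩
def tw1_1 : PLift (chkW R 1 1 = true) := ⟨by decide +kernel⟩
def tp1_2 : PLift (chkPs R 1 2 = true) := ⟨by decide +kernel⟩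
def tw1_2 : PLift (chkW R 1 2 = true) := ⟨by decide +kernel⟩
def tp1_3 : PLift (chkPs R 1 3 = true) := ⟨by decide +kernel⟩
def tw1_3 : PLift (chkW R 1 3 = true) := ⟨by decide +kernel⟩
def tp1_4 : PLift (chkPs R 1 4 = true) := ⟨by decide +kernel⟩
def tw1_4 : PLift (chkW R 1 4 = true) := ⟨by decide +kernel⟩
def tp1_5 : PLift (chkPs R 1 5 = true) := ⟨by decide +kernel⟩
def tw1_5 : PLift (chkW R 1 5 = true) := ⟨by decide +kernel⟩
def tp1_6 : PLift (chkPs R 1 6 = true) := ⟨by decide +kernel⟩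
def tw1_6 : PLift (chkW R 1 6 = true) := ⟨by decide +kernel⟩
def tp1_7 : PLift (chkPs R 1 7 = true) := ⟨by decide +kernel⟩
def tw1_7 : PLift (chkW R 1 7 = true) := ⟨by decide +kernel⟩
def tp1_8 : PLift (chkPs R 1 8 = true) := ⟨by decide +kernel⟩
def tw1_8 : PLift (chkW R 1 8 = true) := ⟨by decide +kernel⟩
def tp1_9 : PLift (chkPs R 1 9 = true) := ⟨by decide +kernel⟩
def tw1_9 : PLift (chkW R 1 9 = true) := ⟨by decide +kernel⟩

end Pool.Agent.Work.MP_7cb3ca_co.P3.D
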