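import Pool.Agent.Work.MP_7cb3ca_co.P3.Let
import Pool.Agent.Work.MP_7cb3ca_co.P3.K0
import Pool.Agent.Work.MP_7cb3ca_co.P3.K1
import Pool.Agent.Work.MP_7cb3ca_co.P3.K2
import Pool.Agent.Work.MP_7cb3ca_co.P3.K3
import Pool.Agent.Work.MP_7cb3ca_co.P3.K4
import Pool.Agent.Work.MP_7cb3ca_co.P3.K5
import Pool.Agent.Work.MP_7cb3ca_co.P3.K6
import Pool.Agent.Work.MP_7cb3ca_co.P3.K7
import Pool.Agent.Work.MP_7cb3ca_co.P3.K8
import Pool.Agent.Work.MP_7cb3ca_co.P3.K9
import Pool.Agent.Work.MP_7cb3ca_co.P3.K10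
import Pool.Agent.Work.MP_7cb3ca_co.P3.K11
import Pool.Agent.Work.MP_7cb3ca_co.P3.KT0
import Pool.Agent.Work.MP_7cb3ca_co.P3.KT1

/-! The certificate passes all checks. -/

namespace Pool.Agent.Work.MP_7cb3ca_co.P3.D

def t0 : PLift (chk0 R TR = true) := ⟨by decide +kernel⟩

theorem cov0 : Cov R TR 0 0 :=
  Cov.step p0_0.down <|
  Cov.step p0_44.down <|
  Cov.step p0_95.down <|
  Cov.step p0_212.down <|
  Cov.step p0_293.down <|
  Cov.step p0_377.down <|
  Cov.step p0_511.down <|
  Cov.step p0_552.down <|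
  Cov.step p0_693.down <|
  Cov.step p0_825.down <|
  Cov.step p0_875.down <|
  Cov.step p0_882.down <|
  Cov.step p0_1030.down <|
  Cov.step p0_1118.down <|
  Cov.step p0_1219.down <|
  Cov.step p0_1287.down <|
  Cov.step p0_1320.down <|
  Cov.step p0_1321.down <|
  Cov.step p0_1373.down <|
  Cov.step p0_1480.down <|
  Cov.step p0_1581.down <|
  Cov.step p0_1662.down <|
  Cov.step p0_1701.down <|
  Cov.step p0_1833.down <|
  Cov.step p0_1944.down <|
  Cov.step p0_2028.down <|
  Cov.step p0_2132.down <|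
  Cov.step p0_2282.down <|
  Cov.step p0_2394.down <|
  Cov.step p0_2514.down <|
  Cov.step p0_2617.down <|
  Cov.step p0_2682.down <|
  Cov.step p0_2796.down <|
  Cov.step p0_2868.down <|
  Cov.step p0_2938.down <|
  Cov.step p0_3024.down <|
  Cov.step p0_3096.down <|
  Cov.step p0_3136.down <|
  Cov.step p0_3199.down <|
  Cov.step p0_3285.down <|
  Cov.step p0_3409.down <|
  Cov.step p0_3463.down <|
  Cov.step p0_3575.down <|
  Cov.step p0_3699.down <|
  Cov.step p0_3834.down <|
  Cov.step p0_3948.down <|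
  Cov.last p0_4044.down

theorem cov1 : Cov R TR 1 0 :=
  Cov.step p1_0.down <|
  Cov.step p1_148.down <|
  Cov.step p1_371.down <|
  Cov.step p1_659.down <|
  Cov.step p1_936.down <|
  Cov.step p1_1305.down <|
  Cov.step p1_1568.down <|
  Cov.step p1_1834.down <|
  Cov.step p1_2055.down <|
  Cov.step p1_2367.down <|
  Cov.step p1_2718.down <|
  Cov.step p1_2968.down <|
  Cov.step p1_3204.down <|
  Cov.step p1_3451.down <|
  Cov.last p1_3771.down

theorem cov2 : Cov R TR 2 0 :=
  Cov.step p2_0.down <|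
  Cov.step p2_584.down <|
  Cov.step p2_1408.down <|
  Cov.step p2_1976.down <|
  Cov.step p2_2528.down <|
  Cov.last p2_3163.down

theorem cov3 : Cov R TR 3 0 :=
  Cov.step p3_0.down <|
  Cov.step p3_513.down <|
  Cov.step p3_1274.down <|
  Cov.step p3_2012.down <|
  Cov.step p3_2630.down <|
  Cov.step p3_3056.down <|
  Cov.step p3_3407.down <|
  Cov.last p3_4079.down

theorem cov4 : Cov R TR 4 0 :=
  Cov.step p4_0.down <|
  Cov.last p4_2314.down

theorem cov5 : Cov R TR 5 0 :=
  Cov.step p5_0.down <|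
  Cov.step p5_1885.down <|
  Cov.last p5_4086.down

theorem cov6 : Cov R TR 6 0 :=
  Cov.last p6_0.down

theorem cov7 : Cov R TR 7 0 :=
  Cov.last p7_0.down

theorem cov8 : Cov R TR 8 0 :=
  Cov.last p8_0.down

theorem cov9 : Cov R TR 9 0 :=
  Cov.step p9_0.down <|
  Cov.step p9_2367.down <|
  Cov.last p9_4076.down

theorem cov10 : Cov R TR 10 0 :=
  Cov.step p10_0.down <|
  Cov.step p10_207.down <|
  Cov.step p10_587.down <|
  Cov.step p10_882.down <|
  Cov.step p10_1252.down <|
  Cov.step p10_1455.down <|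
  Cov.step p10_1772.down <|
  Cov.step p10_2288.down <|
  Cov.step p10_2621.down <|
  Cov.step p10_2804.down <|
  Cov.step p10_3006.down <|
  Cov.step p10_3283.down <|
  Cov.step p10_3677.down <|
  Cov.last p10_4094.down

theorem cov11 : Cov R TR 11 0 :=
  Cov.step p11_0.down <|
  Cov.step p11_1377.down <|
  Cov.last p11_2578.down

theorem cov12 : Cov R TR 12 0 :=
  Cov.last p12_0.down

theorem cov13 : Cov R TR 13 0 :=
  Cov.step p13_0.down <|
  Cov.step p13_1524.down <|
  Cov.last p13_2865.down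

theorem cov14 : Cov R TR 14 0 :=
  Cov.last p14_0.down

theorem cov15 : Cov R TR 15 0 :=
  Cov.last p15_0.down

theorem cov16 : Cov R TR 16 0 :=
  Cov.last p16_0.down

theorem cov17 : Cov R TR 17 0 :=
  Cov.last p17_0.down

theorem cov18 : Cov R TR 18 0 :=
  Cov.last p18_0.down

theorem cov19 : Cov R TR 19 0 :=
  Cov.step p19_0.down <|
  Cov.last p19_1994.down

theorem cov20 : Cov R TR 20 0 :=
  Cov.step p20_0.down <|
  Cov.step p20_468.down <|
  Cov.step p20_999.down <|
  Cov.step p20_1474.down <|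
  Cov.step p20_2071.down <|
  Cov.step p20_2572.down <|
  Cov.step p20_3094.down <|
  Cov.step p20_3601.down <|
  Cov.last p20_4095.down

theorem cov21 : Cov R TR 21 0 :=
  Cov.step p21_0.down <|
  Cov.step p21_1725.down <|
  Cov.last p21_4053.down

theorem cov22 : Cov R TR 22 0 :=
  Cov.last p22_0.down

theorem cov23 : Cov R TR 23 0 :=
  Cov.step p23_0.down <|
  Cov.step p23_1837.down <|
  Cov.last p23_3105.down

theorem cov24 : Cov R TR 24 0 :=
  Cov.last p24_0.down

theorem cov25 : Cov R TR 25 0 :=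
  Cov.last p25_0.down

theorem cov26 : Cov R TR 26 0 :=
  Cov.last p26_0.down

theorem cov27 : Cov R TR 27 0 :=
  Cov.last p27_0.down

theorem cov28 : Cov R TR 28 0 :=
  Cov.last p28_0.down

theorem cov29 : Cov R TR 29 0 :=
  Cov.step p29_0.down <|
  Cov.last p29_2405.down

theorem cov30 : Cov R TR 30 0 :=
  Cov.step p30_0.down <|
  Cov.step p30_571.down <|
  Cov.step p30_1215.down <|
  Cov.step p30_1270.down <|
  Cov.step p30_1933.down <|
  Cov.step p30_2621.down <|
  Cov.step p30_3626.down <|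
  Cov.last p30_4082.down

theorem cov31 : Cov R TR 31 0 :=
  Cov.last p31_0.down

theorem cov32 : Cov R TR 32 0 :=
  Cov.last p32_0.down

theorem cov33 : Cov R TR 33 0 :=
  Cov.step p33_0.down <|
  Cov.step p33_1737.down <|
  Cov.step p33_3104.down <|
  Cov.last p33_3938.down

theorem cov34 : Cov R TR 34 0 :=
  Cov.last p34_0.down

theorem cov35 : Cov R TR 35 0 :=
  Cov.last p35_0.down

theorem cov36 : Cov R TR 36 0 :=
  Cov.last p36_0.down

theorem cov37 : Cov R TR 37 0 :=
  Cov.last p37_0.down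

theorem cov38 : Cov R TR 38 0 :=
  Cov.last p38_0.down

theorem cov39 : Cov R TR 39 0 :=
  Cov.step p39_0.down <|
  Cov.step p39_2402.down <|
  Cov.last p39_4049.down

theorem cov40 : Cov R TR 40 0 :=
  Cov.step p40_0.down <|
  Cov.step p40_646.down <|
  Cov.step p40_1215.down <|
  Cov.step p40_1266.down <|
  Cov.step p40_1598.down <|
  Cov.step p40_2537.down <|
  Cov.step p40_3632.down <|
  Cov.last p40_4096.down

theorem cov41 : Cov R TR 41 0 :=
  Cov.last p41_0.down

theorem cov42 : Cov R TR 42 0 :=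
  Cov.last p42_0.down

theorem cov43 : Cov R TR 43 0 :=
  Cov.step p43_0.down <|
  Cov.step p43_1831.down <|
  Cov.step p43_3104.down <|
  Cov.last p43_3921.down

theorem cov44 : Cov R TR 44 0 :=
  Cov.last p44_0.down

theorem cov45 : Cov R TR 45 0 :=
  Cov.last p45_0.down

theorem cov46 : Cov R TR 46 0 :=
  Cov.last p46_0.down

theorem cov47 : Cov R TR 47 0 :=
  Cov.last p47_0.down

theorem cov48 : Cov R TR 48 0 :=
  Cov.last p48_0.down

theorem cov49 : Cov R TR 49 0 :=
  Cov.step p49_0.down <|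
  Cov.last p49_1885.down

theorem cov50 : Cov R TR 50 0 :=
  Cov.step p50_0.down <|
  Cov.step p50_650.down <|
  Cov.step p50_1217.down <|
  Cov.step p50_1451.down <|
  Cov.step p50_2492.down <|
  Cov.last p50_3763.down

theorem cov51 : Cov R TR 51 0 :=
  Cov.last p51_0.down

theorem cov52 : Cov R TR 52 0 :=
  Cov.last p52_0.down

theorem cov53 : Cov R TR 53 0 :=
  Cov.step p53_0.down <|
  Cov.last p53_2018.down

theorem cov54 : Cov R TR 54 0 :=
  Cov.last p54_0.down

theorem cov55 : Cov R TR 55 0 :=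
  Cov.last p55_0.down

theorem cov56 : Cov R TR 56 0 :=
  Cov.last p56_0.down

theorem cov57 : Cov R TR 57 0 :=
  Cov.last p57_0.down

theorem cov58 : Cov R TR 58 0 :=
  Cov.last p58_0.down

theorem cov59 : Cov R TR 59 0 :=
  Cov.step p59_0.down <|
  Cov.last p59_1885.down

theorem cov60 : Cov R TR 60 0 :=
  Cov.step p60_0.down <|
  Cov.step p60_937.down <|
  Cov.step p60_1257.down <|
  Cov.step p60_2488.down <|
  Cov.last p60_3309.down

theorem cov61 : Cov R TR 61 0 :=
  Cov.last p61_0.down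

theorem cov62 : Cov R TR 62 0 :=
  Cov.last p62_0.down

theorem cov63 : Cov R TR 63 0 :=
  Cov.step p63_0.down <|
  Cov.last p63_2053.down

theorem cov64 : Cov R TR 64 0 :=
  Cov.last p64_0.down

theorem cov65 : Cov R TR 65 0 :=
  Cov.last p65_0.down

theorem cov66 : Cov R TR 66 0 :=
  Cov.last p66_0.down

theorem cov67 : Cov R TR 67 0 :=
  Cov.last p67_0.down

theorem cov68 : Cov R TR 68 0 :=
  Cov.last p68_0.down

theorem cov69 : Cov R TR 69 0 :=
  Cov.step p69_0.down <|
  Cov.last p69_2018.down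

theorem cov70 : Cov R TR 70 0 :=
  Cov.step p70_0.down <|
  Cov.step p70_941.down <|
  Cov.step p70_1455.down <|
  Cov.step p70_2494.down <|
  Cov.last p70_3805.down

theorem cov71 : Cov R TR 71 0 :=
  Cov.last p71_0.down

theorem cov72 : Cov R TR 72 0 :=
  Cov.last p72_0.down

theorem cov73 : Cov R TR 73 0 :=
  Cov.step p73_0.down <|
  Cov.step p73_2053.down <|
  Cov.last p73_3291.down

theorem cov74 : Cov R TR 74 0 :=
  Cov.last p74_0.down

theorem cov75 : Cov R TR 75 0 :=
  Cov.last p75_0.down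

theorem cov76 : Cov R TR 76 0 :=
  Cov.last p76_0.down

theorem cov77 : Cov R TR 77 0 :=
  Cov.last p77_0.down

theorem cov78 : Cov R TR 78 0 :=
  Cov.last p78_0.down

theorem cov79 : Cov R TR 79 0 :=
  Cov.step p79_0.down <|
  Cov.last p79_2053.down

theorem cov80 : Cov R TR 80 0 :=
  Cov.step p80_0.down <|
  Cov.step p80_218.down <|
  Cov.step p80_941.down <|
  Cov.step p80_1257.down <|
  Cov.step p80_1758.down <|
  Cov.step p80_2506.down <|
  Cov.last p80_3804.down

theorem cov81 : Cov R TR 81 0 :=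
  Cov.step p81_0.down <|
  Cov.last p81_1968.down

theorem cov82 : Cov R TR 82 0 :=
  Cov.last p82_0.down

theorem cov83 : Cov R TR 83 0 :=
  Cov.step p83_0.down <|
  Cov.step p83_1885.down <|
  Cov.step p83_2054.down <|
  Cov.last p83_3291.down

theorem cov84 : Cov R TR 84 0 :=
  Cov.step p84_0.down <|
  Cov.last p84_2053.down

theorem cov85 : Cov R TR 85 0 :=
  Cov.step p85_0.down <|
  Cov.last p85_2018.down

theorem cov86 : Cov R TR 86 0 :=
  Cov.step p86_0.down <|
  Cov.last p86_2018.down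

theorem cov87 : Cov R TR 87 0 :=
  Cov.step p87_0.down <|
  Cov.last p87_2054.down

theorem cov88 : Cov R TR 88 0 :=
  Cov.step p88_0.down <|
  Cov.step p88_2018.down <|
  Cov.last p88_3291.down

theorem cov89 : Cov R TR 89 0 :=
  Cov.step p89_0.down <|
  Cov.step p89_1337.down <|
  Cov.step p89_1447.down <|
  Cov.step p89_1885.down <|
  Cov.step p89_2018.down <|
  Cov.step p89_2053.down <|
  Cov.step p89_2054.down <|
  Cov.step p89_3289.down <|
  Cov.last p89_3291.down

theorem cov : ∀ c < 90, Cov R TR c 0 := by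
  intro c hc
  interval_cases c
  exacts [
    cov0, cov1, cov2, cov3, cov4, cov5, cov6, cov7, cov8, cov9, cov10, cov11, cov12, cov13,
    cov14, cov15, cov16, cov17, cov18, cov19, cov20, cov21, cov22, cov23, cov24, cov25, cov26,
    cov27, cov28, cov29, cov30, cov31, cov32, cov33, cov34, cov35, cov36, cov37, cov38, cov39,
    cov40, cov41, cov42, cov43, cov44, cov45, cov46, cov47, cov48, cov49, cov50, cov51, cov52,
    cov53, cov54, cov55, cov56, cov57, cov58, cov59, cov60, cov61, cov62, cov63, cov64, cov65,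
    cov66, cov67, cov68, cov69, cov70, cov71, cov72, cov73, cov74, cov75, cov76, cov77, cov78,
    cov79, cov80, cov81, cov82, cov83, cov84, cov85, cov86, cov87, cov88, cov89]

theorem tp : ∀ z < 2, ∀ cl < 10, chkPs R z cl = true := by
  intro z hz cl hc
  interval_cases z <;> interval_cases cl
  exacts [
    tp0_0.down, tp0_1.down, tp0_2.down, tp0_3.down, tp0_4.down, tp0_5.down, tp0_6.down,
    tp0_7.down, tp0_8.down, tp0_9.down, tp1_0.down, tp1_1.down, tp1_2.down, tp1_3.down,
    tp1_4.down, tp1_5.down, tp1_6.down, tp1_7.down, tp1_8.down, tp1_9.down]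

theorem tw : ∀ z < 2, ∀ cl < 10, chkW R z cl = true := by
  intro z hz cl hc
  interval_cases z <;> interval_cases cl
  exacts [
    tw0_0.down, tw0_1.down, tw0_2.down, tw0_3.down, tw0_4.down, tw0_5.down, tw0_6.down,
    tw0_7.down, tw0_8.down, tw0_9.down, tw1_0.down, tw1_1.down, tw1_2.down, tw1_3.down,
    tw1_4.down, tw1_5.down, tw1_6.down, tw1_7.down, tw1_8.down, tw1_9.down]

theorem cert : Cert R TR := ⟨⟨tp, tw, (chk0_spec t0.down).1⟩, cov, (chk0_spec t0.down).2⟩

end Pool.Agent.Work.MP_7cb3ca_co.P3.D
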