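import Pool.Agent.Work.MP_7cb3ca_co.P3.Eqs

/-! The context of a time: how the lists behave shortly before and after it. -/

namespace Pool.Agent.Work.MP_7cb3ca_co.P3

open Finset

/-- The number of lists just before time `t` that equal the list at time `t`, at most eight. -/
def el (L : ℕ → Finset ℕ) : ℕ → ℕ
  | 0 => 0
  | t + 1 => if L (t + 1) = L t then min (el L t + 1) 8 else 0

/-- The number of equal lists from time `t` on, at most `n + 1`. -/
def fr (L : ℕ → Finset ℕ) : ℕ → ℕ → ℕ
  | 0, _ => 1
  | n + 1, t => if L (t + 1) = L t then fr L n (t + 1) + 1 else 1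

/-- The context of time `t`. -/
def ctx (L : ℕ → Finset ℕ) (t : ℕ) : ℕ :=
  10 * el L t + if L (t + 1) = L t then fr L 7 t + 1 else (L t \ L (t + 1)).card - 1

variable {L : ℕ → Finset ℕ}

lemma el_le (t : ℕ) : el L t ≤ 8 := by
  cases t with
  | zero => simp [el]
  | succ t => simp only [el]; split_ifs <;> omega

lemma el_le_self (t : ℕ) : el L t ≤ t := by
  induction t with
  | zero => simp [el]
  | succ t ih => simp only [el]; split_ifs <;> omega

lemma el_spec (t : ℕ) : ∀ i ≤ el L t, L (t - i) = L t := by
  induction t with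
  | zero => simp
  | succ t ih =>
    intro i hi
    cases i with
    | zero => rfl
    | succ i =>
      simp only [el] at hi
      split_ifs at hi with h
      · rw [h, show t + 1 - (i + 1) = t - i by omega]; exact ih i (by omega)
      · omega

lemma fr_pos (n t : ℕ) : 1 ≤ fr L n t := by
  cases n with
  | zero => simp [fr]
  | succ n => simp only [fr]; split_ifs <;> omega

lemma fr_le (n t : ℕ) : fr L n t ≤ n + 1 := by
  induction n generalizing t with
  | zero => simp [fr]
  | succ n ih => simp only [fr]; have := ih (t + 1); split_ifs <;> omega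

lemma fr_spec (n t : ℕ) : ∀ i < fr L n t, L (t + i) = L t := by
  induction n generalizing t with
  | zero => intro i hi; simp only [fr] at hi; obtain rfl : i = 0 := by omega
            rfl
  | succ n ih =>
    intro i hi
    cases i with
    | zero => rfl
    | succ i =>
      simp only [fr] at hi
      split_ifs at hi with h
      · rw [← h, show t + (i + 1) = t + 1 + i by omega]; exact ih (t + 1) i (by omega)
      · omega

lemma fr_succ (n t : ℕ) :
    fr L (n + 1) t = fr L n t ∨ (fr L n t = n + 1 ∧ fr L (n + 1) t = n + 2) := by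
  induction n generalizing t with
  | zero => simp only [fr]; split_ifs <;> simp
  | succ n ih =>
    have := ih (t + 1)
    rw [fr, show fr L (n + 1) t = if L (t + 1) = L t then fr L n (t + 1) + 1 else 1 from rfl]
    split_ifs <;> omega

lemma diff_card (hL : ∀ t, (L t).card = 3) (t : ℕ) :
    (L t \ L (t + 1)).card ≤ 3 ∧ (L (t + 1) ≠ L t → 1 ≤ (L t \ L (t + 1)).card) := by
  refine ⟨(card_le_card sdiff_subset).trans (hL t).le, fun h => ?_⟩
  by_contra hc
  have h1 : L t \ L (t + 1) = ∅ := card_eq_zero.1 (by omega)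
  rw [sdiff_eq_empty_iff_subset] at h1
  exact h (eq_of_subset_of_card_le h1 (by rw [hL, hL])).symm

lemma fr_two {t : ℕ} (h : L (t + 1) = L t) : 2 ≤ fr L 7 t ∧ fr L 7 t ≤ 8 := by
  refine ⟨?_, fr_le 7 t⟩
  have := fr_pos (L := L) 6 (t + 1)
  rw [fr, if_pos h]; omega

lemma ctx_facts (hL : ∀ t, (L t).card = 3) (t : ℕ) :
    ctx L t < 90 ∧ ctx L t / 10 = el L t ∧ cf (ctx L t) = fr L 7 t ∧
      ck (ctx L t) = (L t \ L (t + 1)).card := by
  have h1 := el_le (L := L) t
  have h2 := diff_card hL t
  rw [cf_eq, ck_eq]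
  unfold ctx
  by_cases h : L (t + 1) = L t
  · have h3 := fr_two h
    have h4 : (L t \ L (t + 1)).card = 0 := by simp [h]
    simp only [if_pos h]
    refine ⟨by omega, by omega, ?_, ?_⟩ <;> split_ifs <;> omega
  · have h3 := h2.2 h
    have h4 : fr L 7 t = 1 := by rw [fr, if_neg h]
    simp only [if_neg h]
    refine ⟨by omega, by omega, ?_, ?_⟩ <;> split_ifs <;> omega

lemma ctx_zero (hL : ∀ t, (L t).card = 3) : ctx L 0 < 10 := by
  have := (ctx_facts hL 0).2.1
  simp only [el] at this
  omega

lemma ctx_next (hL : ∀ t, (L t).card = 3) (t : ℕ) : ctx L (t + 1) ∈ nxt (ctx L t) := by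
  have h1 := el_le (L := L) t
  have h2 := diff_card hL t
  have h5 := ctx_facts hL (t + 1)
  have h6 := diff_card hL (t + 1)
  rw [nxt_eq]
  by_cases h : L (t + 1) = L t
  · have h3 := fr_two h
    have e1 : ctx L t = 10 * el L t + (fr L 7 t + 1) := by unfold ctx; rw [if_pos h]
    have e2 : el L (t + 1) = min (el L t + 1) 8 := by rw [el, if_pos h]
    have e3 : fr L 7 t = fr L 6 (t + 1) + 1 := by rw [fr, if_pos h]
    have e4 := fr_succ (L := L) 6 (t + 1)
    by_cases h' : L (t + 1 + 1) = L (t + 1)
    · have h7 := fr_two h'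
      have e5 : ctx L (t + 1) = 10 * el L (t + 1) + (fr L 7 (t + 1) + 1) := by
        unfold ctx; rw [if_pos h']
      have e6 : 2 ≤ fr L 6 (t + 1) := by
        have := fr_pos (L := L) 5 (t + 1 + 1)
        rw [fr, if_pos h']; omega
      norm_num at e4
      split_ifs <;> simp <;> omega
    · have h7 := h6.2 h'
      have e5 : ctx L (t + 1) = 10 * el L (t + 1) + ((L (t + 1) \ L (t + 1 + 1)).card - 1) := by
        unfold ctx; rw [if_neg h']
      have e6 : fr L 6 (t + 1) = 1 := by rw [fr, if_neg h']
      split_ifs <;> simp <;> omega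
  · have h3 := h2.2 h
    have e1 : ctx L t = 10 * el L t + ((L t \ L (t + 1)).card - 1) := by unfold ctx; rw [if_neg h]
    have e2 : el L (t + 1) = 0 := by rw [el, if_neg h]
    rw [if_pos (by omega)]
    have : ctx L (t + 1) < 10 := by omega
    generalize ctx L (t + 1) = c at this
    interval_cases c <;> simp

end Pool.Agent.Work.MP_7cb3ca_co.P3
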