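import Pool.Agent.Work.MP_7cb3ca_co.P3.Let
import Mathlib.Combinatorics.SimpleGraph.CycleGraph
import Mathlib.Combinatorics.SimpleGraph.Paths
import Mathlib.Data.Set.Card

/-! From square-free words to colourings of cycles. -/

namespace Pool.Agent.Work.MP_7cb3ca_co.P3

open SimpleGraph

lemma fin_step {n : ℕ} {a b : Fin (n + 2)} (h : a - b = 1) : a.val = (b.val + 1) % (n + 2) := by
  have : a = b + 1 := by rw [← h]; abel
  rw [this, Fin.val_add]; simp

lemma path_up {n : ℕ} {u v : Fin (n + 2)} (p : (cycleGraph (n + 2)).Walk u v) (hp : p.IsPath)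
    (h0 : p.getVert 1 - p.getVert 0 = 1) :
    ∀ i, i < p.length → p.getVert (i + 1) - p.getVert i = 1 := by
  intro i
  induction i with
  | zero => intro _; exact h0
  | succ i ih =>
    intro hi
    have h1 := ih (by omega)
    rcases cycleGraph_adj.1 (p.adj_getVert_succ hi) with h2 | h2
    · exfalso
      have h3 : p.getVert (i + 1 + 1) = p.getVert i := by
        have : p.getVert (i + 1) - p.getVert (i + 1 + 1) = p.getVert (i + 1) - p.getVert i := by
          rw [h1, h2]
        exact sub_right_injective this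
      have := hp.getVert_injOn (show i + 1 + 1 ∈ {i | i ≤ p.length} by simp; omega)
        (show i ∈ {i | i ≤ p.length} by simp; omega) h3
      omega
    · exact h2

lemma path_dir {n : ℕ} {u v : Fin (n + 2)} (p : (cycleGraph (n + 2)).Walk u v) (hp : p.IsPath)
    (hl : 0 < p.length) :
    p.getVert 1 - p.getVert 0 = 1 ∨ p.reverse.getVert 1 - p.reverse.getVert 0 = 1 := by
  by_contra hcon
  push Not at hcon
  obtain ⟨h1, h2⟩ := hcon
  have hdown : ∀ i, i < p.length → p.getVert i - p.getVert (i + 1) = 1 := by
    intro i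
    induction i with
    | zero => intro hi; exact (cycleGraph_adj.1 (p.adj_getVert_succ hi)).resolve_right h1
    | succ i ih =>
      intro hi
      have k1 := ih (by omega)
      rcases cycleGraph_adj.1 (p.adj_getVert_succ hi) with k2 | k2
      · exact k2
      · exfalso
        have h3 : p.getVert (i + 1 + 1) = p.getVert i := by
          have : p.getVert (i + 1 + 1) - p.getVert (i + 1) =
              p.getVert i - p.getVert (i + 1) := by rw [k1, k2]
          exact sub_left_injective this
        have := hp.getVert_injOn (show i + 1 + 1 ∈ {i | i ≤ p.length} by simp; omega)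
          (show i ∈ {i | i ≤ p.length} by simp; omega) h3
        omega
  apply h2
  rw [Walk.getVert_reverse, Walk.getVert_reverse]
  have := hdown (p.length - 1) (by omega)
  rwa [show p.length - 1 + 1 = p.length - 0 by omega] at this

variable {R : ℕ → ℕ} {TR : ℕ → Tr}

theorem exists_seq (H : Cert R TR) {L : ℕ → Finset ℕ} (hL : ∀ t, (L t).card = 3) (n : ℕ) :
    ∃ f : ℕ → ℕ, (∀ i < n, f i ∈ L i) ∧
      ∀ s m, 1 ≤ m → s + 2 * m ≤ n → ¬ ∀ i < m, f (s + i) = f (s + i + m) := by
  obtain ⟨w, h1, h2, h3⟩ := exists_word H hL n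
  refine ⟨fun i => gd w (n - 1 - i), fun i hi => ?_, fun s m hm hs h => ?_⟩
  · have := h3 (n - 1 - i) (by omega)
    rwa [show w.length - 5 - (n - 1 - i) = i by omega] at this
  · refine h2 (n - s - 2 * m) m hm (by omega) fun i hi => ?_
    have := h (m - 1 - i) (by omega)
    simp only at this
    rw [show n - s - 2 * m + i = n - 1 - (s + (m - 1 - i) + m) by omega,
      show n - s - 2 * m + m + i = n - 1 - (s + (m - 1 - i)) by omega, this]

theorem cycle_colouring (H : Cert R TR) (n : ℕ) (hn : 3 ≤ n) (L : Fin n → Set ℕ) (v₀ : Fin n)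
    (a : ℕ) (ha : a ∈ L v₀) (hL : ∀ v, v ≠ v₀ → 3 ≤ (L v \ {a}).encard) :
    ∃ c : Fin n → ℕ, (∀ v, c v ∈ L v) ∧
      ∀ (u v : Fin n) (p : (cycleGraph n).Walk u v) (m : ℕ), p.IsPath → 1 ≤ m →
        p.length + 1 = 2 * m → ¬ ∀ i < m, c (p.getVert i) = c (p.getVert (i + m)) := by
  obtain ⟨n, rfl⟩ : ∃ k, n = k + 2 := ⟨n - 2, by omega⟩
  have h : ∀ v, ∃ A : Finset ℕ, A.card = 3 ∧ (v ≠ v₀ → (A : Set ℕ) ⊆ L v \ {a}) := by
    intro v
    by_cases hv : v = v₀
    · exact ⟨Finset.range 3, rfl, fun h => absurd hv h⟩
    obtain ⟨t, ht1, ht2⟩ := Set.exists_subset_encard_eq (hL v hv)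
    have hfin : t.Finite := Set.finite_of_encard_eq_coe ht2
    refine ⟨hfin.toFinset, ?_, fun _ => by simpa using ht1⟩
    have := hfin.encard_eq_coe_toFinset_card
    rw [ht2] at this
    exact_mod_cast this.symm
  choose A hA1 hA2 using h
  obtain ⟨f, hf1, hf2⟩ := exists_seq H (L := fun i => A (v₀ + Fin.ofNat (n + 2) i))
    (fun _ => hA1 _) (n + 2)
  have hf3 : ∀ v, v ≠ v₀ → f (v - v₀).val ∈ L v \ {a} := fun v hv => by
    have := hf1 _ (v - v₀).2
    simp only [Fin.ofNat_val_eq_self, add_sub_cancel] at this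
    exact hA2 v hv this
  refine ⟨fun v => if v = v₀ then a else f (v - v₀).val, fun v => ?_, ?_⟩
  · simp only
    split_ifs with hv
    exacts [hv ▸ ha, (hf3 v hv).1]
  have key : ∀ (u v : Fin (n + 2)) (p : (cycleGraph (n + 2)).Walk u v) (m : ℕ), p.IsPath →
      1 ≤ m → p.length + 1 = 2 * m → p.getVert 1 - p.getVert 0 = 1 →
      ¬ ∀ i < m, (if p.getVert i = v₀ then a else f (p.getVert i - v₀).val) =
        if p.getVert (i + m) = v₀ then a else f (p.getVert (i + m) - v₀).val := by
    intro u v p m hp hm hlen h0 hrep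
    have h1 : ∀ i < m, p.getVert i ≠ v₀ ∧ p.getVert (i + m) ≠ v₀ := by
      intro i hi
      have h2 := hrep i hi
      have h3 : p.getVert i ≠ p.getVert (i + m) := fun e => by
        have := hp.getVert_injOn (show i ∈ {i | i ≤ p.length} by simp; omega)
          (show i + m ∈ {i | i ≤ p.length} by simp; omega) e
        omega
      split_ifs at h2 with h4 h5 h5
      · exact absurd (h4.trans h5.symm) h3
      · exact absurd h2.symm (hf3 _ h5).2
      · exact absurd h2 (hf3 _ h4).2
      · exact ⟨h4, h5⟩
    have h2 : ∀ i ≤ p.length, (p.getVert i - v₀).val = (u - v₀).val + i := by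
      intro i
      induction i with
      | zero => intro _; simp
      | succ i ih =>
        intro hi
        have h3 := fin_step (a := p.getVert (i + 1) - v₀) (b := p.getVert i - v₀)
          (by rw [sub_sub_sub_cancel_right]; exact path_up p hp h0 i (by omega))
        have h4 : p.getVert (i + 1) ≠ v₀ := by
          by_cases h5 : i + 1 < m
          · exact (h1 _ h5).1
          · have := (h1 (i + 1 - m) (by omega)).2
            rwa [show i + 1 - m + m = i + 1 by omega] at this
        have h5 : (p.getVert (i + 1) - v₀).val ≠ 0 := fun e =>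
          h4 (sub_eq_zero.1 (Fin.ext e))
        have h6 := (p.getVert i - v₀).2
        rw [ih (by omega)] at h3 h6
        rw [h3] at h5 ⊢
        by_cases h7 : (u - v₀).val + i + 1 = n + 2
        · rw [h7, Nat.mod_self] at h5; exact absurd rfl h5
        · rw [Nat.mod_eq_of_lt (by omega), add_assoc]
    have h3 := (p.getVert p.length - v₀).2
    rw [h2 _ le_rfl] at h3
    refine hf2 (u - v₀).val m hm (by omega) fun i hi => ?_
    have := hrep i hi
    rwa [if_neg (h1 i hi).1, if_neg (h1 i hi).2, h2 i (by omega), h2 (i + m) (by omega),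
      ← add_assoc] at this
  intro u v p m hp hm hlen hrep
  rcases path_dir p hp (by omega) with h0 | h0
  · exact key u v p m hp hm hlen h0 hrep
  · refine key v u p.reverse m hp.reverse hm (by simpa using hlen) h0 fun i hi => ?_
    rw [Walk.getVert_reverse, Walk.getVert_reverse]
    have := hrep (m - 1 - i) (by omega)
    rw [show p.length - i = m - 1 - i + m by omega, show p.length - (i + m) = m - 1 - i by omega]
    exact this.symm

end Pool.Agent.Work.MP_7cb3ca_co.P3
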