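import Pool.Agent.Work.MP_7cb3ca_co.P3.Defs

namespace Pool.Agent.Work.MP_7cb3ca_co.P3.D
open Tr
set_option maxRecDepth 100000

noncomputable def t59 : Tr :=
  (node (nat_lit 4) (nat_lit 0) (nat_lit 12) (node (nat_lit 6) (nat_lit 0) (nat_lit 13) (node
  (nat_lit 5) (nat_lit 0) (nat_lit 14) (node (nat_lit 4) (nat_lit 0) (nat_lit 15) (node (nat_lit
  5) (nat_lit 0) (nat_lit 16) (node (nat_lit 6) (nat_lit 0) (nat_lit 17) (node (nat_lit 5)
  (nat_lit 0) (nat_lit 18) (node (nat_lit 4) (nat_lit 0) (nat_lit 19) (node (nat_lit 6) (nat_lit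
  79214) (nat_lit 20) (node (nat_lit 4) (nat_lit 79781) (nat_lit 21) (node (nat_lit 5) (nat_lit
  80223) (nat_lit 22) (node (nat_lit 6) (nat_lit 80048) (nat_lit 23) (node (nat_lit 4) (nat_lit
  78938) (nat_lit 24) (node (nat_lit 6) (nat_lit 78893) (nat_lit 25) (node (nat_lit 5) (nat_lit
  75897) (nat_lit 26) (node (nat_lit 4) (nat_lit 72152) (nat_lit 27) (node (nat_lit 5) (nat_lit
  71129) (nat_lit 28) (node (nat_lit 6) (nat_lit 69943) (nat_lit 29) (node (nat_lit 4) (nat_lit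
  62139) (nat_lit 30) (node (nat_lit 5) (nat_lit 52082) (nat_lit 31) (node (nat_lit 4) (nat_lit
  41532) (nat_lit 32) (node (nat_lit 6) (nat_lit 52529) (nat_lit 33) (node (nat_lit 5) (nat_lit
  34872) (nat_lit 34) (node (nat_lit 4) (nat_lit 16560) (nat_lit 35) nil nil) nil) nil) nil) nil)
  nil) nil) nil) nil) nil) nil) (node (nat_lit 5) (nat_lit 80317) (nat_lit 24) (node (nat_lit 4)
  (nat_lit 80146) (nat_lit 25) (node (nat_lit 5) (nat_lit 80310) (nat_lit 26) (node (nat_lit 6)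
  (nat_lit 80438) (nat_lit 27) (node (nat_lit 4) (nat_lit 80538) (nat_lit 28) (node (nat_lit 6)
  (nat_lit 80616) (nat_lit 29) (node (nat_lit 5) (nat_lit 80677) (nat_lit 30) (node (nat_lit 4)
  (nat_lit 80637) (nat_lit 31) nil nil) nil) nil) nil) nil) nil) nil) nil)) (node (nat_lit 4)
  (nat_lit 79943) (nat_lit 23) nil nil)) nil) (node (nat_lit 5) (nat_lit 79781) (nat_lit 21) (node
  (nat_lit 6) (nat_lit 80223) (nat_lit 22) (node (nat_lit 4) (nat_lit 80568) (nat_lit 23) nil nil)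
  nil) nil)) (node (nat_lit 0) (nat_lit 80536) (nat_lit 20) nil nil)) (node (nat_lit 0) (nat_lit
  80795) (nat_lit 19) nil nil)) (node (nat_lit 4) (nat_lit 0) (nat_lit 18) (node (nat_lit 6)
  (nat_lit 0) (nat_lit 19) (node (nat_lit 5) (nat_lit 79214) (nat_lit 20) (node (nat_lit 4)
  (nat_lit 79781) (nat_lit 21) (node (nat_lit 6) (nat_lit 80223) (nat_lit 22) (node (nat_lit 4)
  (nat_lit 80568) (nat_lit 23) (node (nat_lit 5) (nat_lit 80837) (nat_lit 24) (node (nat_lit 6)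
  (nat_lit 81047) (nat_lit 25) (node (nat_lit 4) (nat_lit 81211) (nat_lit 26) (node (nat_lit 6)
  (nat_lit 81339) (nat_lit 27) (node (nat_lit 5) (nat_lit 81186) (nat_lit 28) (node (nat_lit 4)
  (nat_lit 79080) (nat_lit 29) (node (nat_lit 5) (nat_lit 76843) (nat_lit 30) (node (nat_lit 6)
  (nat_lit 75069) (nat_lit 31) (node (nat_lit 4) (nat_lit 73430) (nat_lit 32) (node (nat_lit 5)
  (nat_lit 68799) (nat_lit 33) (node (nat_lit 4) (nat_lit 62405) (nat_lit 34) (node (nat_lit 6)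
  (nat_lit 56613) (nat_lit 35) (node (nat_lit 5) (nat_lit 41544) (nat_lit 36) (node (nat_lit 4)
  (nat_lit 38350) (nat_lit 37) (node (nat_lit 5) (nat_lit 42046) (nat_lit 38) (node (nat_lit 6)
  (nat_lit 9412) (nat_lit 39) nil nil) nil) nil) nil) nil) nil) nil) nil) nil) nil) nil) nil) nil)
  nil) nil) nil) nil) (node (nat_lit 5) (nat_lit 80223) (nat_lit 22) nil nil)) (node (nat_lit 6)
  (nat_lit 79781) (nat_lit 21) (node (nat_lit 4) (nat_lit 80223) (nat_lit 22) (node (nat_lit 5)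
  (nat_lit 80568) (nat_lit 23) nil nil) nil) nil)) (node (nat_lit 0) (nat_lit 81339) (nat_lit 20)
  nil nil)) (node (nat_lit 0) (nat_lit 80757) (nat_lit 19) nil nil)) (node (nat_lit 0) (nat_lit
  81047) (nat_lit 18) nil nil))) (node (nat_lit 0) (nat_lit 80837) (nat_lit 17) (node (nat_lit 4)
  (nat_lit 80837) (nat_lit 18) nil nil) nil)) (node (nat_lit 0) (nat_lit 80568) (nat_lit 16) nil
  nil)) (node (nat_lit 6) (nat_lit 0) (nat_lit 15) (node (nat_lit 4) (nat_lit 0) (nat_lit 16)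
  (node (nat_lit 5) (nat_lit 0) (nat_lit 17) (node (nat_lit 6) (nat_lit 0) (nat_lit 18) (node
  (nat_lit 5) (nat_lit 0) (nat_lit 19) (node (nat_lit 4) (nat_lit 78677) (nat_lit 20) (node
  (nat_lit 6) (nat_lit 79701) (nat_lit 21) (node (nat_lit 4) (nat_lit 80209) (nat_lit 22) (node
  (nat_lit 5) (nat_lit 80568) (nat_lit 23) (node (nat_lit 6) (nat_lit 80837) (nat_lit 24) (node
  (nat_lit 4) (nat_lit 80287) (nat_lit 25) (node (nat_lit 6) (nat_lit 79811) (nat_lit 26) (node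
  (nat_lit 5) (nat_lit 77581) (nat_lit 27) (node (nat_lit 4) (nat_lit 75812) (nat_lit 28) (node
  (nat_lit 5) (nat_lit 72460) (nat_lit 29) (node (nat_lit 6) (nat_lit 72646) (nat_lit 30) (node
  (nat_lit 4) (nat_lit 67423) (nat_lit 31) (node (nat_lit 5) (nat_lit 61036) (nat_lit 32) (node
  (nat_lit 4) (nat_lit 56022) (nat_lit 33) (node (nat_lit 6) (nat_lit 41507) (nat_lit 34) (node
  (nat_lit 5) (nat_lit 42049) (nat_lit 35) (node (nat_lit 6) (nat_lit 10149) (nat_lit 36) (node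
  (nat_lit 4) (nat_lit 10567) (nat_lit 37) nil nil) nil) nil) nil) nil) nil) nil) nil) nil) nil)
  nil) nil) nil) nil) nil) (node (nat_lit 5) (nat_lit 80223) (nat_lit 22) (node (nat_lit 6)
  (nat_lit 80568) (nat_lit 23) nil nil) nil)) (node (nat_lit 5) (nat_lit 79738) (nat_lit 21) (node
  (nat_lit 6) (nat_lit 80223) (nat_lit 22) (node (nat_lit 4) (nat_lit 80568) (nat_lit 23) (node
  (nat_lit 6) (nat_lit 80837) (nat_lit 24) (node (nat_lit 5) (nat_lit 81047) (nat_lit 25) (node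
  (nat_lit 4) (nat_lit 80913) (nat_lit 26) (node (nat_lit 5) (nat_lit 81041) (nat_lit 27) (node
  (nat_lit 6) (nat_lit 81141) (nat_lit 28) nil nil) nil) nil) nil) nil) nil) nil) nil)) (node
  (nat_lit 0) (nat_lit 81339) (nat_lit 20) nil nil)) (node (nat_lit 0) (nat_lit 80166) (nat_lit
  19) nil nil)) (node (nat_lit 4) (nat_lit 0) (nat_lit 18) (node (nat_lit 0) (nat_lit 81205)
  (nat_lit 19) nil nil) (node (nat_lit 0) (nat_lit 81047) (nat_lit 18) nil nil))) (node (nat_lit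
  6) (nat_lit 0) (nat_lit 17) (node (nat_lit 5) (nat_lit 0) (nat_lit 18) (node (nat_lit 4)
  (nat_lit 0) (nat_lit 19) (node (nat_lit 6) (nat_lit 78256) (nat_lit 20) (node (nat_lit 4)
  (nat_lit 79244) (nat_lit 21) (node (nat_lit 5) (nat_lit 79744) (nat_lit 22) (node (nat_lit 6)
  (nat_lit 79329) (nat_lit 23) (node (nat_lit 4) (nat_lit 74209) (nat_lit 24) (node (nat_lit 6)
  (nat_lit 74152) (nat_lit 25) (node (nat_lit 5) (nat_lit 73519) (nat_lit 26) (node (nat_lit 4)
  (nat_lit 71941) (nat_lit 27) (node (nat_lit 5) (nat_lit 71251) (nat_lit 28) (node (nat_lit 6)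
  (nat_lit 69305) (nat_lit 29) (node (nat_lit 4) (nat_lit 62183) (nat_lit 30) (node (nat_lit 5)
  (nat_lit 51887) (nat_lit 31) (node (nat_lit 4) (nat_lit 47763) (nat_lit 32) (node (nat_lit 6)
  (nat_lit 38074) (nat_lit 33) (node (nat_lit 5) (nat_lit 25748) (nat_lit 34) (node (nat_lit 6)
  (nat_lit 6995) (nat_lit 35) nil nil) nil) nil) nil) nil) nil) nil) nil) nil) nil) nil) (node
  (nat_lit 5) (nat_lit 79598) (nat_lit 24) nil nil)) nil) nil) nil) (node (nat_lit 5) (nat_lit 0)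
  (nat_lit 20) (node (nat_lit 6) (nat_lit 79205) (nat_lit 21) (node (nat_lit 4) (nat_lit 79647)
  (nat_lit 22) (node (nat_lit 6) (nat_lit 79992) (nat_lit 23) (node (nat_lit 5) (nat_lit 80261)
  (nat_lit 24) nil nil) nil) (node (nat_lit 5) (nat_lit 79647) (nat_lit 22) (node (nat_lit 4)
  (nat_lit 79367) (nat_lit 23) nil nil) nil)) (node (nat_lit 0) (nat_lit 80586) (nat_lit 21) nil
  nil)) (node (nat_lit 0) (nat_lit 79856) (nat_lit 20) nil nil))) (node (nat_lit 0) (nat_lit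
  80351) (nat_lit 19) nil nil)) (node (nat_lit 0) (nat_lit 81047) (nat_lit 18) nil nil)) (node
  (nat_lit 0) (nat_lit 80837) (nat_lit 17) nil nil))) (node (nat_lit 0) (nat_lit 80568) (nat_lit
  16) (node (nat_lit 5) (nat_lit 80568) (nat_lit 17) nil (node (nat_lit 6) (nat_lit 80568)
  (nat_lit 17) nil (node (nat_lit 4) (nat_lit 80568) (nat_lit 17) nil nil))) nil)) (node (nat_lit
  0) (nat_lit 80223) (nat_lit 15) (node (nat_lit 5) (nat_lit 80223) (nat_lit 16) nil (node
  (nat_lit 6) (nat_lit 80223) (nat_lit 16) nil (node (nat_lit 4) (nat_lit 80223) (nat_lit 16) nil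
  nil))) nil))) (node (nat_lit 4) (nat_lit 0) (nat_lit 14) (node (nat_lit 5) (nat_lit 0) (nat_lit
  15) (node (nat_lit 6) (nat_lit 0) (nat_lit 16) (node (nat_lit 5) (nat_lit 0) (nat_lit 17) (node
  (nat_lit 4) (nat_lit 0) (nat_lit 18) (node (nat_lit 6) (nat_lit 0) (nat_lit 19) (node (nat_lit
  5) (nat_lit 0) (nat_lit 20) (node (nat_lit 6) (nat_lit 0) (nat_lit 21) (node (nat_lit 4)
  (nat_lit 0) (nat_lit 22) (node (nat_lit 6) (nat_lit 74630) (nat_lit 23) (node (nat_lit 5)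
  (nat_lit 74777) (nat_lit 24) (node (nat_lit 4) (nat_lit 74607) (nat_lit 25) nil nil) nil) (node
  (nat_lit 5) (nat_lit 74403) (nat_lit 23) (node (nat_lit 4) (nat_lit 74184) (nat_lit 24) (node
  (nat_lit 6) (nat_lit 74258) (nat_lit 25) nil nil) nil) (node (nat_lit 0) (nat_lit 75567)
  (nat_lit 23) nil nil))) (node (nat_lit 0) (nat_lit 76261) (nat_lit 22) nil nil)) (node (nat_lit
  0) (nat_lit 75812) (nat_lit 21) nil nil)) (node (nat_lit 4) (nat_lit 0) (nat_lit 20) (node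
  (nat_lit 5) (nat_lit 0) (nat_lit 21) (node (nat_lit 4) (nat_lit 72253) (nat_lit 22) (node
  (nat_lit 6) (nat_lit 72567) (nat_lit 23) (node (nat_lit 5) (nat_lit 72892) (nat_lit 24) nil nil)
  nil) (node (nat_lit 0) (nat_lit 73570) (nat_lit 22) nil nil)) (node (nat_lit 0) (nat_lit 75525)
  (nat_lit 21) nil nil)) (node (nat_lit 0) (nat_lit 77044) (nat_lit 20) nil nil))) (node (nat_lit
  5) (nat_lit 0) (nat_lit 19) (node (nat_lit 6) (nat_lit 72202) (nat_lit 20) (node (nat_lit 4)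
  (nat_lit 73273) (nat_lit 21) (node (nat_lit 5) (nat_lit 74383) (nat_lit 22) (node (nat_lit 4)
  (nat_lit 75040) (nat_lit 23) (node (nat_lit 6) (nat_lit 75551) (nat_lit 24) (node (nat_lit 4)
  (nat_lit 75886) (nat_lit 25) nil nil) nil) nil) (node (nat_lit 6) (nat_lit 73715) (nat_lit 22)
  (node (nat_lit 5) (nat_lit 74059) (nat_lit 23) (node (nat_lit 4) (nat_lit 73841) (nat_lit 24)
  (node (nat_lit 5) (nat_lit 74051) (nat_lit 25) (node (nat_lit 6) (nat_lit 74215) (nat_lit 26)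
  nil nil) nil) nil) nil) nil)) nil) (node (nat_lit 0) (nat_lit 74607) (nat_lit 20) nil nil))
  (node (nat_lit 0) (nat_lit 76559) (nat_lit 19) nil nil))) (node (nat_lit 0) (nat_lit 77113)
  (nat_lit 18) nil nil)) (node (nat_lit 4) (nat_lit 0) (nat_lit 17) (node (nat_lit 6) (nat_lit 0)
  (nat_lit 18) (node (nat_lit 5) (nat_lit 0) (nat_lit 19) (node (nat_lit 6) (nat_lit 57954)
  (nat_lit 20) (node (nat_lit 4) (nat_lit 58639) (nat_lit 21) (node (nat_lit 5) (nat_lit 58883)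
  (nat_lit 22) (node (nat_lit 4) (nat_lit 58604) (nat_lit 23) nil (node (nat_lit 6) (nat_lit
  59228) (nat_lit 23) nil nil)) nil) nil) (node (nat_lit 4) (nat_lit 0) (nat_lit 20) (node
  (nat_lit 6) (nat_lit 43515) (nat_lit 21) (node (nat_lit 4) (nat_lit 43104) (nat_lit 22) (node
  (nat_lit 5) (nat_lit 43319) (nat_lit 23) (node (nat_lit 6) (nat_lit 43192) (nat_lit 24) (node
  (nat_lit 4) (nat_lit 43153) (nat_lit 25) nil nil) (node (nat_lit 4) (nat_lit 43100) (nat_lit 24)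
  (node (nat_lit 6) (nat_lit 43174) (nat_lit 25) nil nil) nil)) nil) nil) (node (nat_lit 5)
  (nat_lit 43513) (nat_lit 21) (node (nat_lit 6) (nat_lit 44129) (nat_lit 22) (node (nat_lit 5)
  (nat_lit 44474) (nat_lit 23) nil nil) nil) (node (nat_lit 0) (nat_lit 45011) (nat_lit 21) nil
  nil))) (node (nat_lit 0) (nat_lit 59446) (nat_lit 20) nil nil))) (node (nat_lit 0) (nat_lit
  66801) (nat_lit 19) nil nil)) (node (nat_lit 0) (nat_lit 69167) (nat_lit 18) nil nil)) (node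
  (nat_lit 0) (nat_lit 74593) (nat_lit 17) nil nil))) (node (nat_lit 0) (nat_lit 76420) (nat_lit
  16) (node (nat_lit 5) (nat_lit 76420) (nat_lit 17) nil nil) nil)) (node (nat_lit 0) (nat_lit
  78485) (nat_lit 15) (node (nat_lit 6) (nat_lit 78485) (nat_lit 16) nil (node (nat_lit 4)
  (nat_lit 78485) (nat_lit 16) nil nil)) nil)) (node (nat_lit 0) (nat_lit 79781) (nat_lit 14)
  (node (nat_lit 6) (nat_lit 79781) (nat_lit 15) (node (nat_lit 4) (nat_lit 79781) (nat_lit 16)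
  (node (nat_lit 5) (nat_lit 79781) (nat_lit 17) nil nil) (node (nat_lit 5) (nat_lit 79781)
  (nat_lit 16) nil nil)) (node (nat_lit 4) (nat_lit 79781) (nat_lit 15) (node (nat_lit 6) (nat_lit
  79781) (nat_lit 16) nil (node (nat_lit 5) (nat_lit 79781) (nat_lit 16) nil nil)) (node (nat_lit
  5) (nat_lit 79781) (nat_lit 15) (node (nat_lit 4) (nat_lit 79781) (nat_lit 16) nil (node
  (nat_lit 6) (nat_lit 79781) (nat_lit 16) nil nil)) nil))) nil))) (node (nat_lit 0) (nat_lit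
  79214) (nat_lit 13) (node (nat_lit 5) (nat_lit 79214) (nat_lit 14) (node (nat_lit 4) (nat_lit
  79214) (nat_lit 15) (node (nat_lit 6) (nat_lit 79214) (nat_lit 16) (node (nat_lit 5) (nat_lit
  79214) (nat_lit 17) nil nil) (node (nat_lit 5) (nat_lit 79214) (nat_lit 16) (node (nat_lit 6)
  (nat_lit 79214) (nat_lit 17) (node (nat_lit 4) (nat_lit 79214) (nat_lit 18) nil nil) nil) nil))
  (node (nat_lit 6) (nat_lit 79214) (nat_lit 15) (node (nat_lit 4) (nat_lit 79214) (nat_lit 16)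
  nil (node (nat_lit 5) (nat_lit 79214) (nat_lit 16) nil nil)) nil)) (node (nat_lit 4) (nat_lit
  79214) (nat_lit 14) (node (nat_lit 5) (nat_lit 79214) (nat_lit 15) (node (nat_lit 6) (nat_lit
  79214) (nat_lit 16) (node (nat_lit 4) (nat_lit 79214) (nat_lit 17) (node (nat_lit 6) (nat_lit
  79214) (nat_lit 18) (node (nat_lit 5) (nat_lit 79214) (nat_lit 19) (node (nat_lit 4) (nat_lit
  79214) (nat_lit 20) (node (nat_lit 5) (nat_lit 79781) (nat_lit 21) (node (nat_lit 6) (nat_lit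
  80223) (nat_lit 22) (node (nat_lit 4) (nat_lit 80568) (nat_lit 23) (node (nat_lit 5) (nat_lit
  80837) (nat_lit 24) (node (nat_lit 4) (nat_lit 80666) (nat_lit 25) nil nil) nil) nil) nil) nil)
  nil) nil) nil) (node (nat_lit 5) (nat_lit 79214) (nat_lit 17) nil nil)) nil) (node (nat_lit 6)
  (nat_lit 79214) (nat_lit 15) (node (nat_lit 5) (nat_lit 79214) (nat_lit 16) (node (nat_lit 4)
  (nat_lit 79214) (nat_lit 17) nil nil) (node (nat_lit 4) (nat_lit 79214) (nat_lit 16) nil nil))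
  nil)) (node (nat_lit 6) (nat_lit 79214) (nat_lit 14) (node (nat_lit 4) (nat_lit 79214) (nat_lit
  15) (node (nat_lit 6) (nat_lit 79214) (nat_lit 16) (node (nat_lit 5) (nat_lit 79214) (nat_lit
  17) nil nil) nil) (node (nat_lit 5) (nat_lit 79214) (nat_lit 15) (node (nat_lit 4) (nat_lit
  79214) (nat_lit 16) nil (node (nat_lit 6) (nat_lit 79214) (nat_lit 16) nil nil)) nil)) (node
  (nat_lit 0) (nat_lit 79781) (nat_lit 14) nil nil)))) nil)) (node (nat_lit 0) (nat_lit 78488)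
  (nat_lit 12) (node (nat_lit 4) (nat_lit 78488) (nat_lit 13) (node (nat_lit 5) (nat_lit 78488)
  (nat_lit 14) (node (nat_lit 6) (nat_lit 78488) (nat_lit 15) (node (nat_lit 4) (nat_lit 78488)
  (nat_lit 16) (node (nat_lit 6) (nat_lit 78488) (nat_lit 17) (node (nat_lit 5) (nat_lit 78488)
  (nat_lit 18) (node (nat_lit 4) (nat_lit 78488) (nat_lit 19) (node (nat_lit 5) (nat_lit 79214)
  (nat_lit 20) (node (nat_lit 6) (nat_lit 79781) (nat_lit 21) (node (nat_lit 4) (nat_lit 80223)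
  (nat_lit 22) nil nil) nil) nil) nil) nil) nil) (node (nat_lit 5) (nat_lit 78488) (nat_lit 16)
  nil nil)) (node (nat_lit 4) (nat_lit 78488) (nat_lit 15) (node (nat_lit 6) (nat_lit 78488)
  (nat_lit 16) (node (nat_lit 5) (nat_lit 78488) (nat_lit 17) nil nil) nil) nil)) (node (nat_lit
  6) (nat_lit 78488) (nat_lit 14) (node (nat_lit 5) (nat_lit 78488) (nat_lit 15) (node (nat_lit 4)
  (nat_lit 78488) (nat_lit 16) nil nil) (node (nat_lit 4) (nat_lit 78488) (nat_lit 15) (node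
  (nat_lit 5) (nat_lit 78488) (nat_lit 16) nil nil) nil)) (node (nat_lit 15) (nat_lit 79781)
  (nat_lit 14) nil nil))) (node (nat_lit 5) (nat_lit 78488) (nat_lit 13) (node (nat_lit 6)
  (nat_lit 78488) (nat_lit 14) (node (nat_lit 4) (nat_lit 78488) (nat_lit 15) (node (nat_lit 6)
  (nat_lit 78488) (nat_lit 16) (node (nat_lit 5) (nat_lit 78488) (nat_lit 17) (node (nat_lit 4)
  (nat_lit 78488) (nat_lit 18) nil nil) nil) (node (nat_lit 5) (nat_lit 78488) (nat_lit 16) nil
  nil)) (node (nat_lit 5) (nat_lit 78488) (nat_lit 15) (node (nat_lit 4) (nat_lit 78488) (nat_lit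
  16) nil nil) nil)) (node (nat_lit 4) (nat_lit 78488) (nat_lit 14) (node (nat_lit 6) (nat_lit
  78488) (nat_lit 15) (node (nat_lit 5) (nat_lit 78488) (nat_lit 16) nil nil) (node (nat_lit 5)
  (nat_lit 78488) (nat_lit 15) (node (nat_lit 6) (nat_lit 78488) (nat_lit 16) (node (nat_lit 4)
  (nat_lit 78488) (nat_lit 17) (node (nat_lit 6) (nat_lit 78488) (nat_lit 18) (node (nat_lit 5)
  (nat_lit 78488) (nat_lit 19) (node (nat_lit 4) (nat_lit 77902) (nat_lit 20) nil nil) nil) nil)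
  nil) nil) nil)) nil)) (node (nat_lit 6) (nat_lit 78488) (nat_lit 13) (node (nat_lit 4) (nat_lit
  78488) (nat_lit 14) (node (nat_lit 5) (nat_lit 78488) (nat_lit 15) (node (nat_lit 6) (nat_lit
  78488) (nat_lit 16) (node (nat_lit 4) (nat_lit 78488) (nat_lit 17) (node (nat_lit 6) (nat_lit
  78488) (nat_lit 18) (node (nat_lit 5) (nat_lit 78488) (nat_lit 19) (node (nat_lit 4) (nat_lit
  79214) (nat_lit 20) (node (nat_lit 5) (nat_lit 79781) (nat_lit 21) (node (nat_lit 6) (nat_lit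
  80223) (nat_lit 22) (node (nat_lit 4) (nat_lit 80568) (nat_lit 23) nil nil) nil) nil) nil) nil)
  nil) nil) (node (nat_lit 4) (nat_lit 78488) (nat_lit 16) (node (nat_lit 6) (nat_lit 78488)
  (nat_lit 17) nil nil) nil)) (node (nat_lit 6) (nat_lit 78488) (nat_lit 15) (node (nat_lit 5)
  (nat_lit 78488) (nat_lit 16) (node (nat_lit 4) (nat_lit 78488) (nat_lit 17) nil nil) nil) nil))
  (node (nat_lit 5) (nat_lit 78488) (nat_lit 14) (node (nat_lit 6) (nat_lit 78488) (nat_lit 15)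
  (node (nat_lit 4) (nat_lit 78488) (nat_lit 16) (node (nat_lit 5) (nat_lit 78488) (nat_lit 17)
  nil nil) nil) (node (nat_lit 4) (nat_lit 78488) (nat_lit 15) nil nil)) nil)) (node (nat_lit 0)
  (nat_lit 79214) (nat_lit 13) nil nil)))) nil))

noncomputable def t60 : Tr :=
  (node (nat_lit 4) (nat_lit 0) (nat_lit 13) (node (nat_lit 5) (nat_lit 0) (nat_lit 14) (node
  (nat_lit 6) (nat_lit 0) (nat_lit 15) (node (nat_lit 4) (nat_lit 0) (nat_lit 16) (node (nat_lit
  6) (nat_lit 0) (nat_lit 17) (node (nat_lit 5) (nat_lit 0) (nat_lit 18) (node (nat_lit 6)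
  (nat_lit 0) (nat_lit 19) (node (nat_lit 4) (nat_lit 0) (nat_lit 20) (node (nat_lit 5) (nat_lit
  100317) (nat_lit 21) (node (nat_lit 4) (nat_lit 102151) (nat_lit 22) (node (nat_lit 6) (nat_lit
  103534) (nat_lit 23) (node (nat_lit 5) (nat_lit 104270) (nat_lit 24) (node (nat_lit 4) (nat_lit
  104722) (nat_lit 25) (node (nat_lit 5) (nat_lit 105110) (nat_lit 26) (node (nat_lit 6) (nat_lit
  105442) (nat_lit 27) (node (nat_lit 4) (nat_lit 105714) (nat_lit 28) (node (nat_lit 6) (nat_lit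
  105928) (nat_lit 29) (node (nat_lit 5) (nat_lit 106086) (nat_lit 30) nil nil) nil) nil) nil)
  nil) nil) (node (nat_lit 4) (nat_lit 104249) (nat_lit 24) (node (nat_lit 5) (nat_lit 104787)
  (nat_lit 25) (node (nat_lit 6) (nat_lit 104488) (nat_lit 26) (node (nat_lit 4) (nat_lit 102109)
  (nat_lit 27) (node (nat_lit 6) (nat_lit 101885) (nat_lit 28) (node (nat_lit 5) (nat_lit 100532)
  (nat_lit 29) (node (nat_lit 4) (nat_lit 100156) (nat_lit 30) (node (nat_lit 5) (nat_lit 97729)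
  (nat_lit 31) (node (nat_lit 6) (nat_lit 95617) (nat_lit 32) (node (nat_lit 5) (nat_lit 94737)
  (nat_lit 33) (node (nat_lit 4) (nat_lit 89445) (nat_lit 34) (node (nat_lit 6) (nat_lit 85082)
  (nat_lit 35) (node (nat_lit 4) (nat_lit 83237) (nat_lit 36) (node (nat_lit 5) (nat_lit 80727)
  (nat_lit 37) (node (nat_lit 6) (nat_lit 66200) (nat_lit 38) (node (nat_lit 4) (nat_lit 79120)
  (nat_lit 39) (node (nat_lit 6) (nat_lit 64449) (nat_lit 40) (node (nat_lit 5) (nat_lit 51050)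
  (nat_lit 41) (node (nat_lit 6) (nat_lit 53294) (nat_lit 42) (node (nat_lit 4) (nat_lit 45979)
  (nat_lit 43) nil nil) nil) nil) nil) nil) nil) nil) nil) nil) nil) nil) nil) nil) nil) nil) nil)
  nil) nil) nil) nil)) nil) (node (nat_lit 6) (nat_lit 101698) (nat_lit 22) (node (nat_lit 5)
  (nat_lit 102423) (nat_lit 23) (node (nat_lit 4) (nat_lit 102430) (nat_lit 24) (node (nat_lit 5)
  (nat_lit 102279) (nat_lit 25) (node (nat_lit 6) (nat_lit 102084) (nat_lit 26) (node (nat_lit 4)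
  (nat_lit 101940) (nat_lit 27) (node (nat_lit 6) (nat_lit 101999) (nat_lit 28) (node (nat_lit 5)
  (nat_lit 100766) (nat_lit 29) (node (nat_lit 4) (nat_lit 100413) (nat_lit 30) (node (nat_lit 5)
  (nat_lit 99734) (nat_lit 31) (node (nat_lit 6) (nat_lit 98151) (nat_lit 32) (node (nat_lit 5)
  (nat_lit 97113) (nat_lit 33) (node (nat_lit 4) (nat_lit 92223) (nat_lit 34) (node (nat_lit 6)
  (nat_lit 86213) (nat_lit 35) (node (nat_lit 4) (nat_lit 79719) (nat_lit 36) (node (nat_lit 5)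
  (nat_lit 80743) (nat_lit 37) (node (nat_lit 6) (nat_lit 66216) (nat_lit 38) (node (nat_lit 4)
  (nat_lit 57133) (nat_lit 39) (node (nat_lit 6) (nat_lit 57125) (nat_lit 40) (node (nat_lit 5)
  (nat_lit 53106) (nat_lit 41) (node (nat_lit 6) (nat_lit 53108) (nat_lit 42) (node (nat_lit 4)
  (nat_lit 53108) (nat_lit 43) (node (nat_lit 5) (nat_lit 53108) (nat_lit 44) nil nil) nil) nil)
  nil) nil) nil) nil) nil) nil) nil) nil) nil) nil) nil) nil) nil) nil) nil) nil) (node (nat_lit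
  6) (nat_lit 102671) (nat_lit 25) nil nil)) nil) nil) nil)) (node (nat_lit 0) (nat_lit 101992)
  (nat_lit 21) nil nil)) (node (nat_lit 0) (nat_lit 101366) (nat_lit 20) nil nil)) (node (nat_lit
  4) (nat_lit 0) (nat_lit 19) (node (nat_lit 6) (nat_lit 97033) (nat_lit 20) (node (nat_lit 4)
  (nat_lit 98782) (nat_lit 21) (node (nat_lit 5) (nat_lit 99798) (nat_lit 22) (node (nat_lit 6)
  (nat_lit 99523) (nat_lit 23) nil nil) nil) nil) (node (nat_lit 5) (nat_lit 73206) (nat_lit 20)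
  (node (nat_lit 6) (nat_lit 44073) (nat_lit 21) (node (nat_lit 4) (nat_lit 44837) (nat_lit 22)
  (node (nat_lit 5) (nat_lit 45331) (nat_lit 23) (node (nat_lit 4) (nat_lit 45546) (nat_lit 24)
  nil nil) (node (nat_lit 6) (nat_lit 45433) (nat_lit 23) nil nil)) (node (nat_lit 5) (nat_lit
  43394) (nat_lit 22) (node (nat_lit 4) (nat_lit 43541) (nat_lit 23) nil nil) nil)) nil) (node
  (nat_lit 0) (nat_lit 99629) (nat_lit 20) nil nil))) (node (nat_lit 0) (nat_lit 102607) (nat_lit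
  19) nil nil))) (node (nat_lit 0) (nat_lit 106778) (nat_lit 18) (node (nat_lit 4) (nat_lit
  106778) (nat_lit 19) nil nil) nil)) (node (nat_lit 0) (nat_lit 106676) (nat_lit 17) (node
  (nat_lit 4) (nat_lit 106676) (nat_lit 18) nil (node (nat_lit 6) (nat_lit 106676) (nat_lit 18)
  nil (node (nat_lit 5) (nat_lit 106676) (nat_lit 18) nil nil))) nil)) (node (nat_lit 5) (nat_lit
  0) (nat_lit 16) (node (nat_lit 4) (nat_lit 0) (nat_lit 17) (node (nat_lit 5) (nat_lit 0)
  (nat_lit 18) (node (nat_lit 6) (nat_lit 0) (nat_lit 19) (node (nat_lit 4) (nat_lit 0) (nat_lit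
  20) (node (nat_lit 5) (nat_lit 109432) (nat_lit 21) (node (nat_lit 4) (nat_lit 111301) (nat_lit
  22) (node (nat_lit 6) (nat_lit 111966) (nat_lit 23) (node (nat_lit 4) (nat_lit 111155) (nat_lit
  24) (node (nat_lit 5) (nat_lit 111405) (nat_lit 25) (node (nat_lit 6) (nat_lit 110717) (nat_lit
  26) (node (nat_lit 4) (nat_lit 110378) (nat_lit 27) (node (nat_lit 6) (nat_lit 110135) (nat_lit
  28) (node (nat_lit 5) (nat_lit 108720) (nat_lit 29) (node (nat_lit 4) (nat_lit 108216) (nat_lit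
  30) (node (nat_lit 5) (nat_lit 105748) (nat_lit 31) (node (nat_lit 6) (nat_lit 103629) (nat_lit
  32) (node (nat_lit 5) (nat_lit 102726) (nat_lit 33) (node (nat_lit 4) (nat_lit 97387) (nat_lit
  34) (node (nat_lit 6) (nat_lit 93278) (nat_lit 35) (node (nat_lit 4) (nat_lit 91342) (nat_lit
  36) (node (nat_lit 5) (nat_lit 80618) (nat_lit 37) (node (nat_lit 6) (nat_lit 87662) (nat_lit
  38) (node (nat_lit 5) (nat_lit 77099) (nat_lit 39) (node (nat_lit 4) (nat_lit 66981) (nat_lit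
  40) (node (nat_lit 5) (nat_lit 57850) (nat_lit 41) (node (nat_lit 6) (nat_lit 58358) (nat_lit
  42) (node (nat_lit 4) (nat_lit 41196) (nat_lit 43) (node (nat_lit 5) (nat_lit 41197) (nat_lit
  44) (node (nat_lit 4) (nat_lit 41198) (nat_lit 45) nil nil) nil) nil) nil) nil) nil) nil) nil)
  nil) nil) nil) nil) nil) nil) nil) nil) nil) nil) nil) nil) nil) (node (nat_lit 5) (nat_lit
  111650) (nat_lit 24) (node (nat_lit 6) (nat_lit 112028) (nat_lit 25) nil nil) nil)) nil) nil)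
  (node (nat_lit 6) (nat_lit 109025) (nat_lit 21) (node (nat_lit 5) (nat_lit 110462) (nat_lit 22)
  (node (nat_lit 4) (nat_lit 101467) (nat_lit 23) (node (nat_lit 5) (nat_lit 70885) (nat_lit 24)
  (node (nat_lit 6) (nat_lit 70970) (nat_lit 25) (node (nat_lit 5) (nat_lit 69454) (nat_lit 26)
  (node (nat_lit 4) (nat_lit 69350) (nat_lit 27) (node (nat_lit 6) (nat_lit 69385) (nat_lit 28)
  (node (nat_lit 4) (nat_lit 69384) (nat_lit 29) (node (nat_lit 5) (nat_lit 69407) (nat_lit 30)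
  (node (nat_lit 6) (nat_lit 69244) (nat_lit 31) nil nil) nil) nil) nil) nil) nil) nil) (node
  (nat_lit 6) (nat_lit 101776) (nat_lit 24) nil nil)) (node (nat_lit 6) (nat_lit 111301) (nat_lit
  23) (node (nat_lit 4) (nat_lit 111785) (nat_lit 24) nil nil) nil)) nil) (node (nat_lit 0)
  (nat_lit 110860) (nat_lit 21) nil nil))) (node (nat_lit 0) (nat_lit 108420) (nat_lit 20) nil
  nil)) (node (nat_lit 0) (nat_lit 110675) (nat_lit 19) nil nil)) (node (nat_lit 0) (nat_lit
  112844) (nat_lit 18) nil nil)) (node (nat_lit 0) (nat_lit 114560) (nat_lit 17) (node (nat_lit 6)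
  (nat_lit 114560) (nat_lit 18) nil nil) nil)) (node (nat_lit 0) (nat_lit 117632) (nat_lit 16)
  (node (nat_lit 5) (nat_lit 117632) (nat_lit 17) nil (node (nat_lit 6) (nat_lit 117632) (nat_lit
  17) nil (node (nat_lit 4) (nat_lit 117632) (nat_lit 17) nil nil))) nil))) (node (nat_lit 4)
  (nat_lit 0) (nat_lit 15) (node (nat_lit 6) (nat_lit 0) (nat_lit 16) (node (nat_lit 5) (nat_lit
  0) (nat_lit 17) (node (nat_lit 6) (nat_lit 0) (nat_lit 18) (node (nat_lit 4) (nat_lit 0)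
  (nat_lit 19) (node (nat_lit 5) (nat_lit 0) (nat_lit 20) (node (nat_lit 6) (nat_lit 0) (nat_lit
  21) (node (nat_lit 5) (nat_lit 0) (nat_lit 22) (node (nat_lit 4) (nat_lit 119969) (nat_lit 23)
  (node (nat_lit 6) (nat_lit 120449) (nat_lit 24) (node (nat_lit 4) (nat_lit 120615) (nat_lit 25)
  (node (nat_lit 5) (nat_lit 120811) (nat_lit 26) nil nil) nil) (node (nat_lit 5) (nat_lit 119510)
  (nat_lit 24) (node (nat_lit 6) (nat_lit 119117) (nat_lit 25) (node (nat_lit 4) (nat_lit 118836)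
  (nat_lit 26) (node (nat_lit 6) (nat_lit 118841) (nat_lit 27) (node (nat_lit 5) (nat_lit 117221)
  (nat_lit 28) (node (nat_lit 4) (nat_lit 116683) (nat_lit 29) (node (nat_lit 5) (nat_lit 113590)
  (nat_lit 30) (node (nat_lit 6) (nat_lit 111198) (nat_lit 31) (node (nat_lit 5) (nat_lit 110077)
  (nat_lit 32) (node (nat_lit 4) (nat_lit 103516) (nat_lit 33) (node (nat_lit 6) (nat_lit 101591)
  (nat_lit 34) (node (nat_lit 4) (nat_lit 95607) (nat_lit 35) (node (nat_lit 5) (nat_lit 91601)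
  (nat_lit 36) (node (nat_lit 4) (nat_lit 94434) (nat_lit 37) (node (nat_lit 6) (nat_lit 79741)
  (nat_lit 38) (node (nat_lit 5) (nat_lit 75325) (nat_lit 39) (node (nat_lit 6) (nat_lit 75331)
  (nat_lit 40) (node (nat_lit 4) (nat_lit 75335) (nat_lit 41) (node (nat_lit 5) (nat_lit 75338)
  (nat_lit 42) (node (nat_lit 6) (nat_lit 75340) (nat_lit 43) nil nil) nil) nil) nil) nil) nil)
  nil) nil) nil) nil) nil) nil) nil) nil) nil) nil) nil) nil) nil) nil)) (node (nat_lit 0)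
  (nat_lit 122390) (nat_lit 23) nil nil)) (node (nat_lit 0) (nat_lit 123330) (nat_lit 22) nil
  nil)) (node (nat_lit 4) (nat_lit 0) (nat_lit 21) (node (nat_lit 6) (nat_lit 0) (nat_lit 22)
  (node (nat_lit 4) (nat_lit 119813) (nat_lit 23) (node (nat_lit 5) (nat_lit 120047) (nat_lit 24)
  (node (nat_lit 6) (nat_lit 119761) (nat_lit 25) (node (nat_lit 4) (nat_lit 119842) (nat_lit 26)
  (node (nat_lit 6) (nat_lit 119718) (nat_lit 27) (node (nat_lit 5) (nat_lit 118953) (nat_lit 28)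
  (node (nat_lit 4) (nat_lit 118495) (nat_lit 29) (node (nat_lit 5) (nat_lit 116638) (nat_lit 30)
  (node (nat_lit 6) (nat_lit 113984) (nat_lit 31) (node (nat_lit 5) (nat_lit 111921) (nat_lit 32)
  (node (nat_lit 4) (nat_lit 106183) (nat_lit 33) (node (nat_lit 6) (nat_lit 100304) (nat_lit 34)
  (node (nat_lit 4) (nat_lit 88567) (nat_lit 35) (node (nat_lit 5) (nat_lit 86091) (nat_lit 36)
  (node (nat_lit 4) (nat_lit 88989) (nat_lit 37) (node (nat_lit 6) (nat_lit 75449) (nat_lit 38)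
  (node (nat_lit 5) (nat_lit 66320) (nat_lit 39) (node (nat_lit 6) (nat_lit 66853) (nat_lit 40)
  (node (nat_lit 4) (nat_lit 45032) (nat_lit 41) nil nil) nil) nil) nil) nil) nil) nil) nil) nil)
  nil) nil) nil) nil) nil) nil) (node (nat_lit 5) (nat_lit 119891) (nat_lit 26) nil nil)) nil)
  nil) (node (nat_lit 0) (nat_lit 121507) (nat_lit 23) nil nil)) (node (nat_lit 0) (nat_lit
  121841) (nat_lit 22) nil nil)) (node (nat_lit 0) (nat_lit 122999) (nat_lit 21) nil nil))) (node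
  (nat_lit 6) (nat_lit 0) (nat_lit 20) (node (nat_lit 5) (nat_lit 0) (nat_lit 21) (node (nat_lit
  4) (nat_lit 0) (nat_lit 22) (node (nat_lit 6) (nat_lit 119818) (nat_lit 23) (node (nat_lit 4)
  (nat_lit 120032) (nat_lit 24) (node (nat_lit 5) (nat_lit 120283) (nat_lit 25) (node (nat_lit 6)
  (nat_lit 119594) (nat_lit 26) (node (nat_lit 4) (nat_lit 119256) (nat_lit 27) (node (nat_lit 6)
  (nat_lit 119012) (nat_lit 28) (node (nat_lit 5) (nat_lit 117598) (nat_lit 29) (node (nat_lit 4)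
  (nat_lit 117094) (nat_lit 30) (node (nat_lit 5) (nat_lit 114625) (nat_lit 31) (node (nat_lit 6)
  (nat_lit 112506) (nat_lit 32) (node (nat_lit 5) (nat_lit 111603) (nat_lit 33) (node (nat_lit 4)
  (nat_lit 106474) (nat_lit 34) (node (nat_lit 6) (nat_lit 104975) (nat_lit 35) (node (nat_lit 4)
  (nat_lit 96261) (nat_lit 36) (node (nat_lit 5) (nat_lit 89495) (nat_lit 37) (node (nat_lit 4)
  (nat_lit 96574) (nat_lit 38) (node (nat_lit 6) (nat_lit 84278) (nat_lit 39) (node (nat_lit 5)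
  (nat_lit 84883) (nat_lit 40) (node (nat_lit 6) (nat_lit 66043) (nat_lit 41) (node (nat_lit 4)
  (nat_lit 55232) (nat_lit 42) (node (nat_lit 6) (nat_lit 46013) (nat_lit 43) (node (nat_lit 5)
  (nat_lit 46012) (nat_lit 44) (node (nat_lit 4) (nat_lit 46011) (nat_lit 45) nil nil) nil) nil)
  nil) nil) nil) nil) nil) nil) nil) nil) nil) nil) nil) nil) nil) nil) nil) nil) nil) nil) nil)
  (node (nat_lit 5) (nat_lit 0) (nat_lit 23) (node (nat_lit 6) (nat_lit 121644) (nat_lit 24) (node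
  (nat_lit 4) (nat_lit 122216) (nat_lit 25) (node (nat_lit 6) (nat_lit 122663) (nat_lit 26) (node
  (nat_lit 5) (nat_lit 123013) (nat_lit 27) nil nil) (node (nat_lit 5) (nat_lit 122511) (nat_lit
  26) nil nil)) (node (nat_lit 5) (nat_lit 121397) (nat_lit 25) (node (nat_lit 4) (nat_lit 121229)
  (nat_lit 26) nil nil) nil)) (node (nat_lit 0) (nat_lit 122794) (nat_lit 24) nil nil)) (node
  (nat_lit 0) (nat_lit 122442) (nat_lit 23) nil nil))) (node (nat_lit 0) (nat_lit 122198) (nat_lit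
  22) nil nil)) (node (nat_lit 0) (nat_lit 123142) (nat_lit 21) nil nil)) (node (nat_lit 0)
  (nat_lit 123844) (nat_lit 20) nil nil))) (node (nat_lit 0) (nat_lit 123244) (nat_lit 19) nil
  nil)) (node (nat_lit 4) (nat_lit 0) (nat_lit 18) (node (nat_lit 5) (nat_lit 0) (nat_lit 19)
  (node (nat_lit 6) (nat_lit 0) (nat_lit 20) (node (nat_lit 4) (nat_lit 118661) (nat_lit 21) (node
  (nat_lit 5) (nat_lit 119736) (nat_lit 22) (node (nat_lit 4) (nat_lit 119574) (nat_lit 23) (node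
  (nat_lit 6) (nat_lit 119469) (nat_lit 24) nil nil) nil) (node (nat_lit 6) (nat_lit 119790)
  (nat_lit 22) (node (nat_lit 5) (nat_lit 120671) (nat_lit 23) (node (nat_lit 4) (nat_lit 120806)
  (nat_lit 24) (node (nat_lit 5) (nat_lit 121312) (nat_lit 25) nil nil) (node (nat_lit 6) (nat_lit
  121156) (nat_lit 24) nil nil)) nil) nil)) (node (nat_lit 5) (nat_lit 117355) (nat_lit 21) (node
  (nat_lit 4) (nat_lit 118176) (nat_lit 22) (node (nat_lit 6) (nat_lit 118766) (nat_lit 23) (node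
  (nat_lit 5) (nat_lit 119251) (nat_lit 24) nil nil) nil) nil) (node (nat_lit 0) (nat_lit 121103)
  (nat_lit 21) nil nil))) (node (nat_lit 0) (nat_lit 122085) (nat_lit 20) nil nil)) (node (nat_lit
  0) (nat_lit 120811) (nat_lit 19) nil nil)) (node (nat_lit 0) (nat_lit 122872) (nat_lit 18) nil
  nil))) (node (nat_lit 0) (nat_lit 121397) (nat_lit 17) nil nil)) (node (nat_lit 0) (nat_lit
  121457) (nat_lit 16) (node (nat_lit 5) (nat_lit 121457) (nat_lit 17) nil (node (nat_lit 4)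
  (nat_lit 121457) (nat_lit 17) nil nil)) nil)) (node (nat_lit 0) (nat_lit 120600) (nat_lit 15)
  (node (nat_lit 5) (nat_lit 120600) (nat_lit 16) (node (nat_lit 6) (nat_lit 120600) (nat_lit 17)
  nil (node (nat_lit 4) (nat_lit 120600) (nat_lit 17) nil nil)) (node (nat_lit 4) (nat_lit 120600)
  (nat_lit 16) (node (nat_lit 5) (nat_lit 120600) (nat_lit 17) nil (node (nat_lit 6) (nat_lit
  120600) (nat_lit 17) nil nil)) (node (nat_lit 6) (nat_lit 120600) (nat_lit 16) (node (nat_lit 5)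
  (nat_lit 120600) (nat_lit 17) nil nil) nil))) nil))) (node (nat_lit 0) (nat_lit 121891) (nat_lit
  14) (node (nat_lit 5) (nat_lit 121891) (nat_lit 15) nil (node (nat_lit 6) (nat_lit 121891)
  (nat_lit 15) (node (nat_lit 4) (nat_lit 121891) (nat_lit 16) (node (nat_lit 6) (nat_lit 121891)
  (nat_lit 17) nil nil) nil) (node (nat_lit 4) (nat_lit 121891) (nat_lit 15) (node (nat_lit 6)
  (nat_lit 121891) (nat_lit 16) nil (node (nat_lit 5) (nat_lit 121891) (nat_lit 16) nil nil))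
  nil))) nil)) (node (nat_lit 5) (nat_lit 0) (nat_lit 13) (node (nat_lit 6) (nat_lit 0) (nat_lit
  14) (node (nat_lit 4) (nat_lit 0) (nat_lit 15) (node (nat_lit 5) (nat_lit 0) (nat_lit 16) (node
  (nat_lit 4) (nat_lit 0) (nat_lit 17) (node (nat_lit 6) (nat_lit 0) (nat_lit 18) (node (nat_lit
  4) (nat_lit 0) (nat_lit 19) (node (nat_lit 5) (nat_lit 116821) (nat_lit 20) (node (nat_lit 6)
  (nat_lit 117919) (nat_lit 21) (node (nat_lit 5) (nat_lit 118751) (nat_lit 22) (node (nat_lit 4)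
  (nat_lit 119112) (nat_lit 23) (node (nat_lit 6) (nat_lit 119421) (nat_lit 24) nil (node (nat_lit
  5) (nat_lit 119707) (nat_lit 24) (node (nat_lit 6) (nat_lit 119882) (nat_lit 25) (node (nat_lit
  4) (nat_lit 120073) (nat_lit 26) (node (nat_lit 6) (nat_lit 119643) (nat_lit 27) (node (nat_lit
  5) (nat_lit 117974) (nat_lit 28) (node (nat_lit 4) (nat_lit 116894) (nat_lit 29) (node (nat_lit
  5) (nat_lit 115410) (nat_lit 30) (node (nat_lit 6) (nat_lit 113831) (nat_lit 31) (node (nat_lit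
  5) (nat_lit 110008) (nat_lit 32) nil nil) nil) nil) nil) nil) nil) nil) nil) nil)) nil) (node
  (nat_lit 4) (nat_lit 118093) (nat_lit 22) (node (nat_lit 6) (nat_lit 118168) (nat_lit 23) (node
  (nat_lit 5) (nat_lit 115938) (nat_lit 24) (node (nat_lit 4) (nat_lit 111816) (nat_lit 25) (node
  (nat_lit 5) (nat_lit 102937) (nat_lit 26) (node (nat_lit 6) (nat_lit 100694) (nat_lit 27) (node
  (nat_lit 5) (nat_lit 66165) (nat_lit 28) (node (nat_lit 4) (nat_lit 69103) (nat_lit 29) (node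
  (nat_lit 6) (nat_lit 55669) (nat_lit 30) (node (nat_lit 5) (nat_lit 46630) (nat_lit 31) (node
  (nat_lit 6) (nat_lit 47224) (nat_lit 32) (node (nat_lit 4) (nat_lit 43334) (nat_lit 33) (node
  (nat_lit 5) (nat_lit 43352) (nat_lit 34) nil nil) nil) nil) nil) nil) nil) nil) nil) nil) nil)
  nil) nil) nil)) nil) (node (nat_lit 0) (nat_lit 118541) (nat_lit 20) nil nil)) (node (nat_lit 5)
  (nat_lit 0) (nat_lit 19) (node (nat_lit 4) (nat_lit 0) (nat_lit 20) (node (nat_lit 5) (nat_lit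
  120824) (nat_lit 21) (node (nat_lit 6) (nat_lit 122185) (nat_lit 22) (node (nat_lit 4) (nat_lit
  123126) (nat_lit 23) (node (nat_lit 6) (nat_lit 123860) (nat_lit 24) (node (nat_lit 5) (nat_lit
  124433) (nat_lit 25) (node (nat_lit 4) (nat_lit 123139) (nat_lit 26) (node (nat_lit 5) (nat_lit
  103757) (nat_lit 27) nil nil) nil) nil) nil) (node (nat_lit 5) (nat_lit 121999) (nat_lit 23)
  (node (nat_lit 4) (nat_lit 120700) (nat_lit 24) (node (nat_lit 6) (nat_lit 120941) (nat_lit 25)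
  nil nil) nil) nil)) nil) (node (nat_lit 0) (nat_lit 123402) (nat_lit 21) nil nil)) (node
  (nat_lit 6) (nat_lit 118041) (nat_lit 20) nil (node (nat_lit 0) (nat_lit 121864) (nat_lit 20)
  nil nil))) (node (nat_lit 0) (nat_lit 120711) (nat_lit 19) nil nil))) (node (nat_lit 0) (nat_lit
  126555) (nat_lit 18) nil nil)) (node (nat_lit 6) (nat_lit 0) (nat_lit 17) (node (nat_lit 5)
  (nat_lit 0) (nat_lit 18) (node (nat_lit 4) (nat_lit 0) (nat_lit 19) (node (nat_lit 6) (nat_lit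
  117752) (nat_lit 20) (node (nat_lit 4) (nat_lit 119850) (nat_lit 21) (node (nat_lit 5) (nat_lit
  121017) (nat_lit 22) (node (nat_lit 6) (nat_lit 120329) (nat_lit 23) (node (nat_lit 4) (nat_lit
  119432) (nat_lit 24) (node (nat_lit 6) (nat_lit 119071) (nat_lit 25) (node (nat_lit 5) (nat_lit
  117751) (nat_lit 26) (node (nat_lit 4) (nat_lit 115197) (nat_lit 27) (node (nat_lit 5) (nat_lit
  109855) (nat_lit 28) (node (nat_lit 6) (nat_lit 109159) (nat_lit 29) (node (nat_lit 5) (nat_lit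
  101726) (nat_lit 30) (node (nat_lit 4) (nat_lit 98654) (nat_lit 31) (node (nat_lit 6) (nat_lit
  90546) (nat_lit 32) (node (nat_lit 5) (nat_lit 76996) (nat_lit 33) (node (nat_lit 6) (nat_lit
  77052) (nat_lit 34) (node (nat_lit 4) (nat_lit 77099) (nat_lit 35) (node (nat_lit 5) (nat_lit
  61118) (nat_lit 36) nil nil) nil) nil) nil) nil) nil) nil) nil) nil) nil) nil) nil) nil) (node
  (nat_lit 4) (nat_lit 121013) (nat_lit 23) nil nil)) nil) (node (nat_lit 0) (nat_lit 121754)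
  (nat_lit 21) nil nil)) (node (nat_lit 5) (nat_lit 114752) (nat_lit 20) (node (nat_lit 6)
  (nat_lit 116482) (nat_lit 21) (node (nat_lit 4) (nat_lit 118178) (nat_lit 22) (node (nat_lit 6)
  (nat_lit 118008) (nat_lit 23) (node (nat_lit 5) (nat_lit 113409) (nat_lit 24) (node (nat_lit 4)
  (nat_lit 110644) (nat_lit 25) (node (nat_lit 5) (nat_lit 102674) (nat_lit 26) (node (nat_lit 6)
  (nat_lit 100272) (nat_lit 27) (node (nat_lit 5) (nat_lit 78837) (nat_lit 28) (node (nat_lit 4)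
  (nat_lit 78773) (nat_lit 29) (node (nat_lit 6) (nat_lit 78794) (nat_lit 30) (node (nat_lit 5)
  (nat_lit 78841) (nat_lit 31) (node (nat_lit 6) (nat_lit 78879) (nat_lit 32) (node (nat_lit 4)
  (nat_lit 78908) (nat_lit 33) (node (nat_lit 5) (nat_lit 78930) (nat_lit 34) nil nil) nil) nil)
  nil) nil) nil) nil) nil) nil) nil) nil) (node (nat_lit 5) (nat_lit 119017) (nat_lit 23) nil
  nil)) nil) nil) (node (nat_lit 0) (nat_lit 120316) (nat_lit 20) nil nil))) (node (nat_lit 0)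
  (nat_lit 121741) (nat_lit 19) nil nil)) (node (nat_lit 0) (nat_lit 119578) (nat_lit 18) nil
  nil)) (node (nat_lit 0) (nat_lit 124633) (nat_lit 17) nil nil))) (node (nat_lit 6) (nat_lit 0)
  (nat_lit 16) (node (nat_lit 5) (nat_lit 0) (nat_lit 17) (node (nat_lit 4) (nat_lit 0) (nat_lit
  18) (node (nat_lit 6) (nat_lit 0) (nat_lit 19) (node (nat_lit 4) (nat_lit 119601) (nat_lit 20)
  (node (nat_lit 5) (nat_lit 120698) (nat_lit 21) (node (nat_lit 6) (nat_lit 120372) (nat_lit 22)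
  (node (nat_lit 5) (nat_lit 120943) (nat_lit 23) (node (nat_lit 4) (nat_lit 120950) (nat_lit 24)
  (node (nat_lit 5) (nat_lit 121395) (nat_lit 25) (node (nat_lit 6) (nat_lit 121506) (nat_lit 26)
  (node (nat_lit 4) (nat_lit 121639) (nat_lit 27) (node (nat_lit 6) (nat_lit 121752) (nat_lit 28)
  (node (nat_lit 5) (nat_lit 121008) (nat_lit 29) (node (nat_lit 4) (nat_lit 120937) (nat_lit 30)
  (node (nat_lit 5) (nat_lit 119771) (nat_lit 31) (node (nat_lit 6) (nat_lit 118076) (nat_lit 32)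
  (node (nat_lit 5) (nat_lit 115965) (nat_lit 33) (node (nat_lit 4) (nat_lit 111871) (nat_lit 34)
  (node (nat_lit 6) (nat_lit 105343) (nat_lit 35) (node (nat_lit 5) (nat_lit 101871) (nat_lit 36)
  (node (nat_lit 6) (nat_lit 94373) (nat_lit 37) (node (nat_lit 4) (nat_lit 89132) (nat_lit 38)
  nil nil) nil) nil) nil) nil) nil) nil) nil) nil) nil) nil) nil) nil) nil) nil) (node (nat_lit 4)
  (nat_lit 120722) (nat_lit 23) (node (nat_lit 6) (nat_lit 118899) (nat_lit 24) (node (nat_lit 5)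
  (nat_lit 115172) (nat_lit 25) (node (nat_lit 4) (nat_lit 105808) (nat_lit 26) (node (nat_lit 5)
  (nat_lit 104478) (nat_lit 27) (node (nat_lit 6) (nat_lit 104146) (nat_lit 28) (node (nat_lit 5)
  (nat_lit 96335) (nat_lit 29) (node (nat_lit 4) (nat_lit 97174) (nat_lit 30) (node (nat_lit 6)
  (nat_lit 87503) (nat_lit 31) (node (nat_lit 5) (nat_lit 91222) (nat_lit 32) (node (nat_lit 6)
  (nat_lit 73141) (nat_lit 33) (node (nat_lit 4) (nat_lit 44524) (nat_lit 34) (node (nat_lit 6)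
  (nat_lit 44509) (nat_lit 35) (node (nat_lit 5) (nat_lit 44507) (nat_lit 36) (node (nat_lit 4)
  (nat_lit 44504) (nat_lit 37) nil nil) nil) nil) nil) nil) nil) nil) nil) nil) nil) nil) nil)
  nil) nil) nil)) (node (nat_lit 4) (nat_lit 120908) (nat_lit 22) (node (nat_lit 6) (nat_lit
  119974) (nat_lit 23) nil nil) nil)) nil) (node (nat_lit 0) (nat_lit 122151) (nat_lit 20) nil
  nil)) (node (nat_lit 5) (nat_lit 0) (nat_lit 19) (node (nat_lit 6) (nat_lit 119295) (nat_lit 20)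
  (node (nat_lit 4) (nat_lit 120960) (nat_lit 21) (node (nat_lit 5) (nat_lit 122035) (nat_lit 22)
  (node (nat_lit 4) (nat_lit 122031) (nat_lit 23) (node (nat_lit 6) (nat_lit 121926) (nat_lit 24)
  nil nil) nil) (node (nat_lit 6) (nat_lit 120561) (nat_lit 22) (node (nat_lit 5) (nat_lit 115638)
  (nat_lit 23) nil nil) nil)) (node (nat_lit 5) (nat_lit 121142) (nat_lit 21) (node (nat_lit 4)
  (nat_lit 122179) (nat_lit 22) nil nil) nil)) (node (nat_lit 0) (nat_lit 122803) (nat_lit 20) nil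
  nil)) (node (nat_lit 0) (nat_lit 119766) (nat_lit 19) nil nil))) (node (nat_lit 0) (nat_lit
  124503) (nat_lit 18) nil nil)) (node (nat_lit 0) (nat_lit 121397) (nat_lit 17) nil nil)) (node
  (nat_lit 0) (nat_lit 126384) (nat_lit 16) nil nil))) (node (nat_lit 0) (nat_lit 125804) (nat_lit
  15) (node (nat_lit 5) (nat_lit 125804) (nat_lit 16) (node (nat_lit 6) (nat_lit 125804) (nat_lit
  17) nil nil) (node (nat_lit 6) (nat_lit 125804) (nat_lit 16) nil (node (nat_lit 4) (nat_lit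
  125804) (nat_lit 16) nil nil))) nil)) (node (nat_lit 0) (nat_lit 124865) (nat_lit 14) (node
  (nat_lit 5) (nat_lit 124865) (nat_lit 15) (node (nat_lit 6) (nat_lit 124865) (nat_lit 16) (node
  (nat_lit 4) (nat_lit 124865) (nat_lit 17) nil nil) (node (nat_lit 4) (nat_lit 124865) (nat_lit
  16) nil nil)) (node (nat_lit 6) (nat_lit 124865) (nat_lit 15) (node (nat_lit 5) (nat_lit 124865)
  (nat_lit 16) nil (node (nat_lit 4) (nat_lit 124865) (nat_lit 16) nil nil)) (node (nat_lit 4)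
  (nat_lit 124865) (nat_lit 15) (node (nat_lit 5) (nat_lit 124865) (nat_lit 16) nil (node (nat_lit
  6) (nat_lit 124865) (nat_lit 16) nil nil)) nil))) nil)) (node (nat_lit 0) (nat_lit 122897)
  (nat_lit 13) (node (nat_lit 5) (nat_lit 122897) (nat_lit 14) (node (nat_lit 6) (nat_lit 122897)
  (nat_lit 15) nil (node (nat_lit 4) (nat_lit 122897) (nat_lit 15) (node (nat_lit 5) (nat_lit
  122897) (nat_lit 16) (node (nat_lit 6) (nat_lit 122897) (nat_lit 17) (node (nat_lit 4) (nat_lit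
  122897) (nat_lit 18) (node (nat_lit 6) (nat_lit 122897) (nat_lit 19) (node (nat_lit 5) (nat_lit
  122897) (nat_lit 20) (node (nat_lit 4) (nat_lit 123250) (nat_lit 21) nil nil) nil) nil) nil)
  nil) nil) nil)) (node (nat_lit 6) (nat_lit 122897) (nat_lit 14) (node (nat_lit 5) (nat_lit
  122897) (nat_lit 15) (node (nat_lit 6) (nat_lit 122897) (nat_lit 16) nil nil) (node (nat_lit 4)
  (nat_lit 122897) (nat_lit 15) (node (nat_lit 6) (nat_lit 122897) (nat_lit 16) nil nil) nil))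
  (node (nat_lit 4) (nat_lit 122897) (nat_lit 14) (node (nat_lit 5) (nat_lit 122897) (nat_lit 15)
  (node (nat_lit 6) (nat_lit 122897) (nat_lit 16) (node (nat_lit 4) (nat_lit 122897) (nat_lit 17)
  (node (nat_lit 6) (nat_lit 122897) (nat_lit 18) (node (nat_lit 5) (nat_lit 122897) (nat_lit 19)
  (node (nat_lit 4) (nat_lit 122897) (nat_lit 20) (node (nat_lit 5) (nat_lit 123916) (nat_lit 21)
  (node (nat_lit 6) (nat_lit 124034) (nat_lit 22) (node (nat_lit 5) (nat_lit 124307) (nat_lit 23)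
  (node (nat_lit 4) (nat_lit 124033) (nat_lit 24) nil nil) nil) nil) nil) nil) nil) nil) nil) nil)
  (node (nat_lit 6) (nat_lit 122897) (nat_lit 15) nil nil)) nil))) nil)))

noncomputable def t61 : Tr :=
  (node (nat_lit 4) (nat_lit 0) (nat_lit 10) (node (nat_lit 5) (nat_lit 0) (nat_lit 11) t59 (node
  (nat_lit 0) (nat_lit 0) (nat_lit 11) (node (nat_lit 4) (nat_lit 77379) (nat_lit 12) (node
  (nat_lit 6) (nat_lit 77379) (nat_lit 13) (node (nat_lit 5) (nat_lit 77379) (nat_lit 14) (node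
  (nat_lit 6) (nat_lit 77379) (nat_lit 15) (node (nat_lit 4) (nat_lit 77379) (nat_lit 16) nil nil)
  (node (nat_lit 4) (nat_lit 77379) (nat_lit 15) (node (nat_lit 5) (nat_lit 77379) (nat_lit 16)
  (node (nat_lit 6) (nat_lit 77379) (nat_lit 17) (node (nat_lit 4) (nat_lit 77379) (nat_lit 18)
  (node (nat_lit 6) (nat_lit 78309) (nat_lit 19) (node (nat_lit 5) (nat_lit 79035) (nat_lit 20)
  (node (nat_lit 4) (nat_lit 78577) (nat_lit 21) nil nil) nil) nil) nil) nil) nil) nil)) (node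
  (nat_lit 4) (nat_lit 77379) (nat_lit 14) (node (nat_lit 5) (nat_lit 77379) (nat_lit 15) (node
  (nat_lit 6) (nat_lit 77379) (nat_lit 16) (node (nat_lit 4) (nat_lit 77379) (nat_lit 17) (node
  (nat_lit 6) (nat_lit 77379) (nat_lit 18) (node (nat_lit 5) (nat_lit 78488) (nat_lit 19) (node
  (nat_lit 4) (nat_lit 79214) (nat_lit 20) nil nil) nil) nil) nil) nil) nil) (node (nat_lit 14)
  (nat_lit 79601) (nat_lit 14) nil nil))) (node (nat_lit 5) (nat_lit 77379) (nat_lit 13) (node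
  (nat_lit 6) (nat_lit 77379) (nat_lit 14) (node (nat_lit 4) (nat_lit 77379) (nat_lit 15) (node
  (nat_lit 6) (nat_lit 77379) (nat_lit 16) (node (nat_lit 5) (nat_lit 77379) (nat_lit 17) (node
  (nat_lit 4) (nat_lit 77379) (nat_lit 18) (node (nat_lit 5) (nat_lit 78309) (nat_lit 19) (node
  (nat_lit 6) (nat_lit 79035) (nat_lit 20) (node (nat_lit 4) (nat_lit 79601) (nat_lit 21) nil nil)
  nil) nil) nil) nil) nil) (node (nat_lit 5) (nat_lit 77379) (nat_lit 15) nil nil)) (node (nat_lit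
  4) (nat_lit 77379) (nat_lit 14) (node (nat_lit 6) (nat_lit 77379) (nat_lit 15) nil nil) nil))
  (node (nat_lit 0) (nat_lit 79035) (nat_lit 13) nil nil))) (node (nat_lit 6) (nat_lit 77379)
  (nat_lit 12) (node (nat_lit 5) (nat_lit 77379) (nat_lit 13) (node (nat_lit 4) (nat_lit 77379)
  (nat_lit 14) (node (nat_lit 6) (nat_lit 77379) (nat_lit 15) nil (node (nat_lit 5) (nat_lit
  77379) (nat_lit 15) (node (nat_lit 6) (nat_lit 77379) (nat_lit 16) (node (nat_lit 4) (nat_lit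
  77379) (nat_lit 17) (node (nat_lit 6) (nat_lit 77379) (nat_lit 18) (node (nat_lit 5) (nat_lit
  78309) (nat_lit 19) (node (nat_lit 4) (nat_lit 77722) (nat_lit 20) nil nil) nil) nil) nil) nil)
  nil)) (node (nat_lit 6) (nat_lit 77379) (nat_lit 14) (node (nat_lit 4) (nat_lit 77379) (nat_lit
  15) nil nil) nil)) (node (nat_lit 4) (nat_lit 77379) (nat_lit 13) (node (nat_lit 5) (nat_lit
  77379) (nat_lit 14) (node (nat_lit 6) (nat_lit 77379) (nat_lit 15) (node (nat_lit 4) (nat_lit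
  77379) (nat_lit 16) (node (nat_lit 6) (nat_lit 77379) (nat_lit 17) (node (nat_lit 5) (nat_lit
  77379) (nat_lit 18) (node (nat_lit 4) (nat_lit 78488) (nat_lit 19) (node (nat_lit 5) (nat_lit
  79214) (nat_lit 20) (node (nat_lit 6) (nat_lit 79781) (nat_lit 21) (node (nat_lit 4) (nat_lit
  80223) (nat_lit 22) nil nil) nil) nil) nil) nil) nil) nil) (node (nat_lit 4) (nat_lit 77379)
  (nat_lit 15) (node (nat_lit 6) (nat_lit 77379) (nat_lit 16) nil nil) nil)) (node (nat_lit 6)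
  (nat_lit 77379) (nat_lit 14) (node (nat_lit 5) (nat_lit 77379) (nat_lit 15) (node (nat_lit 4)
  (nat_lit 77379) (nat_lit 16) nil (node (nat_lit 6) (nat_lit 77379) (nat_lit 16) nil nil)) nil)
  nil)) (node (nat_lit 14) (nat_lit 79214) (nat_lit 13) nil nil))) (node (nat_lit 5) (nat_lit
  77379) (nat_lit 12) (node (nat_lit 4) (nat_lit 77379) (nat_lit 13) (node (nat_lit 5) (nat_lit
  77379) (nat_lit 14) (node (nat_lit 6) (nat_lit 77379) (nat_lit 15) (node (nat_lit 4) (nat_lit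
  77379) (nat_lit 16) (node (nat_lit 6) (nat_lit 77379) (nat_lit 17) (node (nat_lit 5) (nat_lit
  77379) (nat_lit 18) (node (nat_lit 4) (nat_lit 76628) (nat_lit 19) (node (nat_lit 5) (nat_lit
  77354) (nat_lit 20) (node (nat_lit 6) (nat_lit 77920) (nat_lit 21) nil nil) nil) nil) nil) nil)
  (node (nat_lit 5) (nat_lit 77379) (nat_lit 16) nil nil)) nil) (node (nat_lit 6) (nat_lit 77379)
  (nat_lit 14) (node (nat_lit 5) (nat_lit 77379) (nat_lit 15) nil (node (nat_lit 4) (nat_lit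
  77379) (nat_lit 15) nil nil)) nil)) (node (nat_lit 6) (nat_lit 77379) (nat_lit 13) (node
  (nat_lit 4) (nat_lit 77379) (nat_lit 14) (node (nat_lit 6) (nat_lit 77379) (nat_lit 15) (node
  (nat_lit 5) (nat_lit 77379) (nat_lit 16) (node (nat_lit 4) (nat_lit 77379) (nat_lit 17) nil nil)
  nil) (node (nat_lit 5) (nat_lit 77379) (nat_lit 15) nil nil)) (node (nat_lit 5) (nat_lit 77379)
  (nat_lit 14) (node (nat_lit 4) (nat_lit 77379) (nat_lit 15) (node (nat_lit 6) (nat_lit 77379)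
  (nat_lit 16) nil nil) nil) nil)) (node (nat_lit 14) (nat_lit 79035) (nat_lit 13) (node (nat_lit
  4) (nat_lit 79035) (nat_lit 14) (node (nat_lit 5) (nat_lit 79035) (nat_lit 15) (node (nat_lit 6)
  (nat_lit 79035) (nat_lit 16) (node (nat_lit 4) (nat_lit 79035) (nat_lit 17) (node (nat_lit 6)
  (nat_lit 79035) (nat_lit 18) (node (nat_lit 5) (nat_lit 79035) (nat_lit 19) (node (nat_lit 4)
  (nat_lit 79035) (nat_lit 20) (node (nat_lit 5) (nat_lit 79601) (nat_lit 21) (node (nat_lit 6)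
  (nat_lit 80043) (nat_lit 22) nil nil) nil) nil) nil) nil) nil) nil) nil) nil) nil))) (node
  (nat_lit 0) (nat_lit 78488) (nat_lit 12) nil nil)))) (node (nat_lit 6) (nat_lit 0) (nat_lit 11)
  (node (nat_lit 0) (nat_lit 78488) (nat_lit 12) (node (nat_lit 4) (nat_lit 78488) (nat_lit 13)
  (node (nat_lit 6) (nat_lit 78488) (nat_lit 14) (node (nat_lit 4) (nat_lit 78488) (nat_lit 15)
  (node (nat_lit 5) (nat_lit 78488) (nat_lit 16) (node (nat_lit 6) (nat_lit 78488) (nat_lit 17)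
  (node (nat_lit 4) (nat_lit 78488) (nat_lit 18) (node (nat_lit 6) (nat_lit 78488) (nat_lit 19)
  (node (nat_lit 5) (nat_lit 79214) (nat_lit 20) (node (nat_lit 4) (nat_lit 79781) (nat_lit 21)
  (node (nat_lit 5) (nat_lit 80223) (nat_lit 22) nil nil) nil) nil) nil) (node (nat_lit 5)
  (nat_lit 78488) (nat_lit 18) nil nil)) (node (nat_lit 4) (nat_lit 78488) (nat_lit 17) nil nil))
  nil) (node (nat_lit 5) (nat_lit 78488) (nat_lit 15) (node (nat_lit 6) (nat_lit 78488) (nat_lit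
  16) (node (nat_lit 4) (nat_lit 78488) (nat_lit 17) nil nil) (node (nat_lit 4) (nat_lit 78488)
  (nat_lit 16) (node (nat_lit 5) (nat_lit 78488) (nat_lit 17) nil nil) nil)) nil)) (node (nat_lit
  5) (nat_lit 78488) (nat_lit 14) (node (nat_lit 6) (nat_lit 78488) (nat_lit 15) (node (nat_lit 4)
  (nat_lit 78488) (nat_lit 16) (node (nat_lit 6) (nat_lit 78488) (nat_lit 17) (node (nat_lit 5)
  (nat_lit 78488) (nat_lit 18) (node (nat_lit 4) (nat_lit 78488) (nat_lit 19) (node (nat_lit 5)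
  (nat_lit 79214) (nat_lit 20) (node (nat_lit 6) (nat_lit 79781) (nat_lit 21) nil nil) nil) nil)
  nil) nil) nil) (node (nat_lit 4) (nat_lit 78488) (nat_lit 15) nil nil)) nil)) (node (nat_lit 6)
  (nat_lit 78488) (nat_lit 13) (node (nat_lit 5) (nat_lit 78488) (nat_lit 14) (node (nat_lit 4)
  (nat_lit 78488) (nat_lit 15) (node (nat_lit 5) (nat_lit 78488) (nat_lit 16) (node (nat_lit 6)
  (nat_lit 78488) (nat_lit 17) (node (nat_lit 4) (nat_lit 78488) (nat_lit 18) (node (nat_lit 6)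
  (nat_lit 78488) (nat_lit 19) (node (nat_lit 5) (nat_lit 79214) (nat_lit 20) (node (nat_lit 4)
  (nat_lit 78756) (nat_lit 21) nil nil) nil) nil) nil) nil) nil) (node (nat_lit 6) (nat_lit 78488)
  (nat_lit 15) nil nil)) (node (nat_lit 4) (nat_lit 78488) (nat_lit 14) (node (nat_lit 5) (nat_lit
  78488) (nat_lit 15) (node (nat_lit 6) (nat_lit 78488) (nat_lit 16) (node (nat_lit 4) (nat_lit
  78488) (nat_lit 17) (node (nat_lit 6) (nat_lit 78488) (nat_lit 18) (node (nat_lit 5) (nat_lit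
  78488) (nat_lit 19) (node (nat_lit 4) (nat_lit 79214) (nat_lit 20) nil nil) nil) nil) nil) nil)
  (node (nat_lit 6) (nat_lit 78488) (nat_lit 15) (node (nat_lit 5) (nat_lit 78488) (nat_lit 16)
  nil nil) nil)) nil)) (node (nat_lit 5) (nat_lit 78488) (nat_lit 13) (node (nat_lit 6) (nat_lit
  78488) (nat_lit 14) (node (nat_lit 4) (nat_lit 78488) (nat_lit 15) (node (nat_lit 6) (nat_lit
  78488) (nat_lit 16) nil nil) (node (nat_lit 5) (nat_lit 78488) (nat_lit 15) (node (nat_lit 4)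
  (nat_lit 78488) (nat_lit 16) nil nil) nil)) (node (nat_lit 4) (nat_lit 78488) (nat_lit 14) (node
  (nat_lit 5) (nat_lit 78488) (nat_lit 15) (node (nat_lit 6) (nat_lit 78488) (nat_lit 16) (node
  (nat_lit 4) (nat_lit 78488) (nat_lit 17) (node (nat_lit 6) (nat_lit 78488) (nat_lit 18) (node
  (nat_lit 5) (nat_lit 78488) (nat_lit 19) (node (nat_lit 4) (nat_lit 77902) (nat_lit 20) (node
  (nat_lit 5) (nat_lit 78468) (nat_lit 21) (node (nat_lit 6) (nat_lit 78910) (nat_lit 22) nil nil)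
  nil) nil) nil) nil) nil) nil) (node (nat_lit 6) (nat_lit 78488) (nat_lit 15) (node (nat_lit 5)
  (nat_lit 78488) (nat_lit 16) nil nil) nil)) nil)) (node (nat_lit 0) (nat_lit 79214) (nat_lit 13)
  nil nil)))) nil) nil))) (node (nat_lit 5) (nat_lit 0) (nat_lit 10) (node (nat_lit 4) (nat_lit 0)
  (nat_lit 11) (node (nat_lit 6) (nat_lit 0) (nat_lit 12) t60 (node (nat_lit 0) (nat_lit 121080)
  (nat_lit 12) (node (nat_lit 6) (nat_lit 121080) (nat_lit 13) (node (nat_lit 5) (nat_lit 121080)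
  (nat_lit 14) (node (nat_lit 4) (nat_lit 121080) (nat_lit 15) (node (nat_lit 5) (nat_lit 121080)
  (nat_lit 16) (node (nat_lit 6) (nat_lit 121080) (nat_lit 17) (node (nat_lit 4) (nat_lit 121080)
  (nat_lit 18) (node (nat_lit 6) (nat_lit 121080) (nat_lit 19) (node (nat_lit 5) (nat_lit 123060)
  (nat_lit 20) (node (nat_lit 4) (nat_lit 123259) (nat_lit 21) nil nil) nil) nil) nil) nil) nil)
  (node (nat_lit 6) (nat_lit 121080) (nat_lit 15) nil nil)) (node (nat_lit 4) (nat_lit 121080)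
  (nat_lit 14) (node (nat_lit 5) (nat_lit 121080) (nat_lit 15) (node (nat_lit 6) (nat_lit 121080)
  (nat_lit 16) (node (nat_lit 4) (nat_lit 121080) (nat_lit 17) (node (nat_lit 6) (nat_lit 121080)
  (nat_lit 18) (node (nat_lit 5) (nat_lit 121080) (nat_lit 19) (node (nat_lit 4) (nat_lit 122386)
  (nat_lit 20) (node (nat_lit 5) (nat_lit 123405) (nat_lit 21) (node (nat_lit 6) (nat_lit 123523)
  (nat_lit 22) nil nil) nil) nil) nil) nil) nil) nil) (node (nat_lit 6) (nat_lit 121080) (nat_lit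
  15) (node (nat_lit 5) (nat_lit 121080) (nat_lit 16) nil nil) nil)) nil)) (node (nat_lit 4)
  (nat_lit 121080) (nat_lit 13) (node (nat_lit 5) (nat_lit 121080) (nat_lit 14) (node (nat_lit 6)
  (nat_lit 121080) (nat_lit 15) (node (nat_lit 4) (nat_lit 121080) (nat_lit 16) (node (nat_lit 6)
  (nat_lit 121080) (nat_lit 17) (node (nat_lit 5) (nat_lit 121080) (nat_lit 18) (node (nat_lit 4)
  (nat_lit 121080) (nat_lit 19) (node (nat_lit 5) (nat_lit 122386) (nat_lit 20) (node (nat_lit 6)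
  (nat_lit 122538) (nat_lit 21) (node (nat_lit 5) (nat_lit 122888) (nat_lit 22) (node (nat_lit 4)
  (nat_lit 122537) (nat_lit 23) nil nil) nil) nil) nil) nil) nil) nil) nil) nil) (node (nat_lit 6)
  (nat_lit 121080) (nat_lit 14) (node (nat_lit 5) (nat_lit 121080) (nat_lit 15) (node (nat_lit 6)
  (nat_lit 121080) (nat_lit 16) nil nil) (node (nat_lit 4) (nat_lit 121080) (nat_lit 15) nil nil))
  nil)) (node (nat_lit 5) (nat_lit 121080) (nat_lit 13) (node (nat_lit 4) (nat_lit 121080)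
  (nat_lit 14) (node (nat_lit 5) (nat_lit 121080) (nat_lit 15) (node (nat_lit 6) (nat_lit 121080)
  (nat_lit 16) (node (nat_lit 4) (nat_lit 121080) (nat_lit 17) (node (nat_lit 6) (nat_lit 121080)
  (nat_lit 18) (node (nat_lit 5) (nat_lit 121080) (nat_lit 19) (node (nat_lit 4) (nat_lit 121532)
  (nat_lit 20) (node (nat_lit 5) (nat_lit 122293) (nat_lit 21) nil nil) nil) nil) nil) nil) nil)
  nil) (node (nat_lit 6) (nat_lit 121080) (nat_lit 14) (node (nat_lit 4) (nat_lit 121080) (nat_lit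
  15) nil nil) nil)) nil))) nil)) (node (nat_lit 0) (nat_lit 118155) (nat_lit 11) (node (nat_lit
  5) (nat_lit 118155) (nat_lit 12) (node (nat_lit 4) (nat_lit 118155) (nat_lit 13) (node (nat_lit
  5) (nat_lit 118155) (nat_lit 14) (node (nat_lit 6) (nat_lit 118155) (nat_lit 15) (node (nat_lit
  4) (nat_lit 118155) (nat_lit 16) (node (nat_lit 6) (nat_lit 118155) (nat_lit 17) (node (nat_lit
  5) (nat_lit 118155) (nat_lit 18) (node (nat_lit 4) (nat_lit 118735) (nat_lit 19) nil nil) nil)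
  nil) nil) nil) (node (nat_lit 6) (nat_lit 118155) (nat_lit 14) (node (nat_lit 5) (nat_lit
  118155) (nat_lit 15) nil nil) nil)) (node (nat_lit 6) (nat_lit 118155) (nat_lit 13) (node
  (nat_lit 4) (nat_lit 118155) (nat_lit 14) nil nil) nil)) (node (nat_lit 6) (nat_lit 118155)
  (nat_lit 12) (node (nat_lit 5) (nat_lit 118155) (nat_lit 13) (node (nat_lit 6) (nat_lit 118155)
  (nat_lit 14) (node (nat_lit 4) (nat_lit 118155) (nat_lit 15) nil nil) nil) (node (nat_lit 4)
  (nat_lit 118155) (nat_lit 13) (node (nat_lit 5) (nat_lit 118155) (nat_lit 14) (node (nat_lit 6)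
  (nat_lit 118155) (nat_lit 15) (node (nat_lit 4) (nat_lit 118155) (nat_lit 16) (node (nat_lit 6)
  (nat_lit 118155) (nat_lit 17) (node (nat_lit 5) (nat_lit 118155) (nat_lit 18) (node (nat_lit 4)
  (nat_lit 120007) (nat_lit 19) (node (nat_lit 5) (nat_lit 121313) (nat_lit 20) (node (nat_lit 6)
  (nat_lit 121465) (nat_lit 21) nil nil) nil) nil) nil) nil) nil) nil) nil) (node (nat_lit 14)
  (nat_lit 121133) (nat_lit 13) nil nil))) (node (nat_lit 4) (nat_lit 118155) (nat_lit 12) (node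
  (nat_lit 5) (nat_lit 118155) (nat_lit 13) (node (nat_lit 4) (nat_lit 118155) (nat_lit 14) (node
  (nat_lit 6) (nat_lit 118155) (nat_lit 15) nil nil) (node (nat_lit 6) (nat_lit 118155) (nat_lit
  14) (node (nat_lit 4) (nat_lit 118155) (nat_lit 15) (node (nat_lit 6) (nat_lit 118155) (nat_lit
  16) (node (nat_lit 5) (nat_lit 118155) (nat_lit 17) (node (nat_lit 4) (nat_lit 118155) (nat_lit
  18) (node (nat_lit 5) (nat_lit 119828) (nat_lit 19) (node (nat_lit 6) (nat_lit 120023) (nat_lit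
  20) (node (nat_lit 5) (nat_lit 120472) (nat_lit 21) nil nil) nil) nil) nil) nil) nil) nil) nil))
  (node (nat_lit 6) (nat_lit 118155) (nat_lit 13) nil nil)) nil))) nil)) (node (nat_lit 0)
  (nat_lit 0) (nat_lit 10) (node (nat_lit 4) (nat_lit 114045) (nat_lit 11) (node (nat_lit 6)
  (nat_lit 114045) (nat_lit 12) (node (nat_lit 5) (nat_lit 114045) (nat_lit 13) (node (nat_lit 6)
  (nat_lit 114045) (nat_lit 14) (node (nat_lit 4) (nat_lit 114045) (nat_lit 15) (node (nat_lit 6)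
  (nat_lit 114045) (nat_lit 16) nil nil) nil) (node (nat_lit 4) (nat_lit 114045) (nat_lit 14) nil
  nil)) (node (nat_lit 4) (nat_lit 114045) (nat_lit 13) (node (nat_lit 5) (nat_lit 114045)
  (nat_lit 14) (node (nat_lit 6) (nat_lit 114045) (nat_lit 15) (node (nat_lit 4) (nat_lit 114045)
  (nat_lit 16) (node (nat_lit 6) (nat_lit 114045) (nat_lit 17) (node (nat_lit 5) (nat_lit 116769)
  (nat_lit 18) (node (nat_lit 4) (nat_lit 118621) (nat_lit 19) nil nil) nil) nil) (node (nat_lit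
  5) (nat_lit 114045) (nat_lit 16) nil nil)) (node (nat_lit 4) (nat_lit 114045) (nat_lit 15) (node
  (nat_lit 6) (nat_lit 114045) (nat_lit 16) nil nil) nil)) nil) nil)) (node (nat_lit 5) (nat_lit
  114045) (nat_lit 12) (node (nat_lit 6) (nat_lit 114045) (nat_lit 13) (node (nat_lit 4) (nat_lit
  114045) (nat_lit 14) (node (nat_lit 6) (nat_lit 114045) (nat_lit 15) (node (nat_lit 5) (nat_lit
  114045) (nat_lit 16) (node (nat_lit 4) (nat_lit 114045) (nat_lit 17) (node (nat_lit 5) (nat_lit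
  116189) (nat_lit 18) (node (nat_lit 6) (nat_lit 116439) (nat_lit 19) nil nil) nil) nil) nil)
  (node (nat_lit 5) (nat_lit 114045) (nat_lit 15) nil nil)) (node (nat_lit 5) (nat_lit 114045)
  (nat_lit 14) nil nil)) (node (nat_lit 4) (nat_lit 114045) (nat_lit 13) (node (nat_lit 6)
  (nat_lit 114045) (nat_lit 14) (node (nat_lit 5) (nat_lit 114045) (nat_lit 15) nil (node (nat_lit
  4) (nat_lit 114045) (nat_lit 15) nil nil)) nil) nil)) (node (nat_lit 13) (nat_lit 119963)
  (nat_lit 12) nil nil))) (node (nat_lit 5) (nat_lit 114045) (nat_lit 11) (node (nat_lit 4)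
  (nat_lit 114045) (nat_lit 12) (node (nat_lit 6) (nat_lit 114045) (nat_lit 13) (node (nat_lit 5)
  (nat_lit 114045) (nat_lit 14) nil (node (nat_lit 4) (nat_lit 114045) (nat_lit 14) (node (nat_lit
  5) (nat_lit 114045) (nat_lit 15) (node (nat_lit 6) (nat_lit 114045) (nat_lit 16) (node (nat_lit
  4) (nat_lit 114045) (nat_lit 17) (node (nat_lit 6) (nat_lit 114947) (nat_lit 18) nil nil) nil)
  nil) nil) nil)) (node (nat_lit 5) (nat_lit 114045) (nat_lit 13) (node (nat_lit 6) (nat_lit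
  114045) (nat_lit 14) (node (nat_lit 4) (nat_lit 114045) (nat_lit 15) (node (nat_lit 6) (nat_lit
  114045) (nat_lit 16) (node (nat_lit 5) (nat_lit 114045) (nat_lit 17) (node (nat_lit 4) (nat_lit
  114790) (nat_lit 18) (node (nat_lit 5) (nat_lit 116039) (nat_lit 19) (node (nat_lit 6) (nat_lit
  117705) (nat_lit 20) nil nil) nil) nil) nil) nil) (node (nat_lit 5) (nat_lit 114045) (nat_lit
  15) nil nil)) nil) nil)) (node (nat_lit 6) (nat_lit 114045) (nat_lit 12) (node (nat_lit 5)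
  (nat_lit 114045) (nat_lit 13) (node (nat_lit 4) (nat_lit 114045) (nat_lit 14) (node (nat_lit 6)
  (nat_lit 114045) (nat_lit 15) (node (nat_lit 5) (nat_lit 114045) (nat_lit 16) nil (node (nat_lit
  4) (nat_lit 114045) (nat_lit 16) nil nil)) (node (nat_lit 5) (nat_lit 114045) (nat_lit 15) (node
  (nat_lit 6) (nat_lit 114045) (nat_lit 16) (node (nat_lit 4) (nat_lit 114045) (nat_lit 17) (node
  (nat_lit 6) (nat_lit 117575) (nat_lit 18) nil nil) nil) nil) nil)) nil) (node (nat_lit 4)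
  (nat_lit 114045) (nat_lit 13) (node (nat_lit 5) (nat_lit 114045) (nat_lit 14) nil (node (nat_lit
  6) (nat_lit 114045) (nat_lit 14) nil nil)) nil)) (node (nat_lit 13) (nat_lit 119963) (nat_lit
  12) nil nil))) (node (nat_lit 6) (nat_lit 114045) (nat_lit 11) (node (nat_lit 5) (nat_lit
  114045) (nat_lit 12) (node (nat_lit 4) (nat_lit 114045) (nat_lit 13) (node (nat_lit 5) (nat_lit
  114045) (nat_lit 14) (node (nat_lit 6) (nat_lit 114045) (nat_lit 15) (node (nat_lit 4) (nat_lit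
  114045) (nat_lit 16) (node (nat_lit 6) (nat_lit 114045) (nat_lit 17) (node (nat_lit 5) (nat_lit
  117296) (nat_lit 18) (node (nat_lit 4) (nat_lit 117624) (nat_lit 19) nil nil) nil) nil) nil)
  nil) (node (nat_lit 6) (nat_lit 114045) (nat_lit 14) nil nil)) (node (nat_lit 6) (nat_lit
  114045) (nat_lit 13) (node (nat_lit 4) (nat_lit 114045) (nat_lit 14) (node (nat_lit 6) (nat_lit
  114045) (nat_lit 15) nil nil) nil) nil)) (node (nat_lit 4) (nat_lit 114045) (nat_lit 12) (node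
  (nat_lit 5) (nat_lit 114045) (nat_lit 13) (node (nat_lit 6) (nat_lit 114045) (nat_lit 14) (node
  (nat_lit 4) (nat_lit 114045) (nat_lit 15) (node (nat_lit 6) (nat_lit 114045) (nat_lit 16) (node
  (nat_lit 5) (nat_lit 114045) (nat_lit 17) (node (nat_lit 4) (nat_lit 116769) (nat_lit 18) (node
  (nat_lit 5) (nat_lit 118621) (nat_lit 19) (node (nat_lit 6) (nat_lit 118816) (nat_lit 20) nil
  nil) nil) nil) nil) nil) nil) (node (nat_lit 4) (nat_lit 114045) (nat_lit 14) nil nil)) (node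
  (nat_lit 6) (nat_lit 114045) (nat_lit 13) nil nil)) (node (nat_lit 0) (nat_lit 119963) (nat_lit
  12) nil nil))) (node (nat_lit 0) (nat_lit 117876) (nat_lit 11) nil nil)))) nil)))

noncomputable def t62 : Tr :=
  (node (nat_lit 5) (nat_lit 0) (nat_lit 12) (node (nat_lit 4) (nat_lit 0) (nat_lit 13) (node
  (nat_lit 5) (nat_lit 0) (nat_lit 14) (node (nat_lit 6) (nat_lit 0) (nat_lit 15) (node (nat_lit
  4) (nat_lit 0) (nat_lit 16) (node (nat_lit 5) (nat_lit 0) (nat_lit 17) (node (nat_lit 4)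
  (nat_lit 0) (nat_lit 18) (node (nat_lit 6) (nat_lit 0) (nat_lit 19) (node (nat_lit 5) (nat_lit
  125099) (nat_lit 20) (node (nat_lit 4) (nat_lit 124098) (nat_lit 21) (node (nat_lit 5) (nat_lit
  125282) (nat_lit 22) (node (nat_lit 6) (nat_lit 126003) (nat_lit 23) (node (nat_lit 4) (nat_lit
  126088) (nat_lit 24) (node (nat_lit 6) (nat_lit 126411) (nat_lit 25) (node (nat_lit 5) (nat_lit
  125993) (nat_lit 26) (node (nat_lit 4) (nat_lit 122699) (nat_lit 27) (node (nat_lit 6) (nat_lit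
  118049) (nat_lit 28) (node (nat_lit 4) (nat_lit 116206) (nat_lit 29) (node (nat_lit 5) (nat_lit
  111731) (nat_lit 30) (node (nat_lit 6) (nat_lit 104131) (nat_lit 31) (node (nat_lit 5) (nat_lit
  89067) (nat_lit 32) (node (nat_lit 4) (nat_lit 89585) (nat_lit 33) (node (nat_lit 5) (nat_lit
  82953) (nat_lit 34) (node (nat_lit 6) (nat_lit 83690) (nat_lit 35) (node (nat_lit 4) (nat_lit
  62492) (nat_lit 36) nil nil) nil) nil) nil) nil) nil) nil) nil) nil) nil) nil) nil) nil) nil)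
  nil) (node (nat_lit 6) (nat_lit 127094) (nat_lit 21) (node (nat_lit 4) (nat_lit 127688) (nat_lit
  22) (node (nat_lit 6) (nat_lit 127780) (nat_lit 23) nil (node (nat_lit 5) (nat_lit 128309)
  (nat_lit 23) nil nil)) nil) nil)) (node (nat_lit 4) (nat_lit 125082) (nat_lit 20) (node (nat_lit
  5) (nat_lit 126756) (nat_lit 21) (node (nat_lit 6) (nat_lit 127379) (nat_lit 22) (node (nat_lit
  4) (nat_lit 127183) (nat_lit 23) (node (nat_lit 6) (nat_lit 125910) (nat_lit 24) (node (nat_lit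
  5) (nat_lit 123374) (nat_lit 25) (node (nat_lit 4) (nat_lit 118012) (nat_lit 26) (node (nat_lit
  6) (nat_lit 116090) (nat_lit 27) (node (nat_lit 4) (nat_lit 110057) (nat_lit 28) (node (nat_lit
  5) (nat_lit 98836) (nat_lit 29) (node (nat_lit 6) (nat_lit 72682) (nat_lit 30) (node (nat_lit 5)
  (nat_lit 68243) (nat_lit 31) (node (nat_lit 4) (nat_lit 68234) (nat_lit 32) (node (nat_lit 5)
  (nat_lit 68241) (nat_lit 33) (node (nat_lit 6) (nat_lit 68122) (nat_lit 34) (node (nat_lit 4)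
  (nat_lit 68052) (nat_lit 35) (node (nat_lit 5) (nat_lit 68063) (nat_lit 36) (node (nat_lit 4)
  (nat_lit 68072) (nat_lit 37) nil nil) nil) nil) nil) nil) nil) nil) nil) nil) nil) nil) nil)
  nil) nil) (node (nat_lit 5) (nat_lit 128478) (nat_lit 23) (node (nat_lit 4) (nat_lit 128682)
  (nat_lit 24) (node (nat_lit 5) (nat_lit 129075) (nat_lit 25) (node (nat_lit 6) (nat_lit 128974)
  (nat_lit 26) nil nil) nil) nil) nil)) nil) nil) (node (nat_lit 0) (nat_lit 127425) (nat_lit 20)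
  nil nil))) (node (nat_lit 0) (nat_lit 126758) (nat_lit 19) nil nil)) (node (nat_lit 0) (nat_lit
  128506) (nat_lit 18) nil nil)) (node (nat_lit 6) (nat_lit 0) (nat_lit 17) (node (nat_lit 5)
  (nat_lit 0) (nat_lit 18) (node (nat_lit 6) (nat_lit 0) (nat_lit 19) (node (nat_lit 4) (nat_lit
  114217) (nat_lit 20) (node (nat_lit 5) (nat_lit 116338) (nat_lit 21) (node (nat_lit 4) (nat_lit
  118028) (nat_lit 22) (node (nat_lit 6) (nat_lit 118475) (nat_lit 23) (node (nat_lit 5) (nat_lit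
  118689) (nat_lit 24) nil (node (nat_lit 4) (nat_lit 119190) (nat_lit 24) (node (nat_lit 5)
  (nat_lit 119726) (nat_lit 25) (node (nat_lit 6) (nat_lit 119559) (nat_lit 26) nil nil) nil)
  nil)) nil) (node (nat_lit 6) (nat_lit 116736) (nat_lit 22) (node (nat_lit 5) (nat_lit 117226)
  (nat_lit 23) (node (nat_lit 4) (nat_lit 117123) (nat_lit 24) (node (nat_lit 5) (nat_lit 117276)
  (nat_lit 25) (node (nat_lit 6) (nat_lit 116921) (nat_lit 26) (node (nat_lit 4) (nat_lit 116487)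
  (nat_lit 27) nil nil) nil) nil) nil) nil) nil)) nil) (node (nat_lit 0) (nat_lit 116247) (nat_lit
  20) nil nil)) (node (nat_lit 4) (nat_lit 0) (nat_lit 19) (node (nat_lit 6) (nat_lit 0) (nat_lit
  20) (node (nat_lit 4) (nat_lit 0) (nat_lit 21) (node (nat_lit 5) (nat_lit 61977) (nat_lit 22)
  (node (nat_lit 4) (nat_lit 61698) (nat_lit 23) nil (node (nat_lit 6) (nat_lit 61921) (nat_lit
  23) (node (nat_lit 4) (nat_lit 61587) (nat_lit 24) (node (nat_lit 6) (nat_lit 60969) (nat_lit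
  25) (node (nat_lit 5) (nat_lit 60142) (nat_lit 26) (node (nat_lit 4) (nat_lit 57963) (nat_lit
  27) nil nil) nil) nil) nil) nil)) (node (nat_lit 0) (nat_lit 63746) (nat_lit 22) nil nil)) (node
  (nat_lit 0) (nat_lit 64613) (nat_lit 21) nil nil)) (node (nat_lit 5) (nat_lit 0) (nat_lit 20)
  (node (nat_lit 6) (nat_lit 95227) (nat_lit 21) (node (nat_lit 5) (nat_lit 95999) (nat_lit 22)
  (node (nat_lit 4) (nat_lit 95921) (nat_lit 23) (node (nat_lit 6) (nat_lit 96230) (nat_lit 24)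
  nil nil) nil) nil) (node (nat_lit 0) (nat_lit 97694) (nat_lit 21) nil nil)) (node (nat_lit 0)
  (nat_lit 99182) (nat_lit 20) nil nil))) (node (nat_lit 0) (nat_lit 116677) (nat_lit 19) nil
  nil))) (node (nat_lit 0) (nat_lit 121897) (nat_lit 18) nil nil)) (node (nat_lit 0) (nat_lit
  131375) (nat_lit 17) nil nil))) (node (nat_lit 0) (nat_lit 133427) (nat_lit 16) nil nil)) (node
  (nat_lit 0) (nat_lit 133582) (nat_lit 15) (node (nat_lit 4) (nat_lit 133582) (nat_lit 16) nil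
  (node (nat_lit 5) (nat_lit 133582) (nat_lit 16) nil nil)) nil)) (node (nat_lit 6) (nat_lit 0)
  (nat_lit 14) (node (nat_lit 5) (nat_lit 0) (nat_lit 15) (node (nat_lit 6) (nat_lit 0) (nat_lit
  16) (node (nat_lit 4) (nat_lit 0) (nat_lit 17) (node (nat_lit 5) (nat_lit 0) (nat_lit 18) (node
  (nat_lit 6) (nat_lit 0) (nat_lit 19) (node (nat_lit 5) (nat_lit 0) (nat_lit 20) (node (nat_lit
  4) (nat_lit 134402) (nat_lit 21) (node (nat_lit 6) (nat_lit 135725) (nat_lit 22) (node (nat_lit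
  4) (nat_lit 136468) (nat_lit 23) (node (nat_lit 5) (nat_lit 136826) (nat_lit 24) (node (nat_lit
  6) (nat_lit 136539) (nat_lit 25) (node (nat_lit 4) (nat_lit 136602) (nat_lit 26) (node (nat_lit
  6) (nat_lit 136368) (nat_lit 27) (node (nat_lit 5) (nat_lit 136009) (nat_lit 28) (node (nat_lit
  4) (nat_lit 133535) (nat_lit 29) (node (nat_lit 6) (nat_lit 132795) (nat_lit 30) (node (nat_lit
  4) (nat_lit 132123) (nat_lit 31) (node (nat_lit 5) (nat_lit 128217) (nat_lit 32) (node (nat_lit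
  6) (nat_lit 122060) (nat_lit 33) (node (nat_lit 5) (nat_lit 115657) (nat_lit 34) (node (nat_lit
  4) (nat_lit 110629) (nat_lit 35) (node (nat_lit 6) (nat_lit 106001) (nat_lit 36) (node (nat_lit
  5) (nat_lit 106943) (nat_lit 37) (node (nat_lit 6) (nat_lit 99833) (nat_lit 38) (node (nat_lit
  4) (nat_lit 100253) (nat_lit 39) (node (nat_lit 5) (nat_lit 76212) (nat_lit 40) (node (nat_lit
  6) (nat_lit 73255) (nat_lit 41) (node (nat_lit 5) (nat_lit 73253) (nat_lit 42) nil nil) nil)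
  nil) nil) nil) nil) nil) nil) nil) nil) nil) nil) nil) nil) nil) nil) nil) nil) nil) nil) (node
  (nat_lit 5) (nat_lit 135505) (nat_lit 22) (node (nat_lit 6) (nat_lit 136053) (nat_lit 23) (node
  (nat_lit 4) (nat_lit 136399) (nat_lit 24) (node (nat_lit 6) (nat_lit 135273) (nat_lit 25) (node
  (nat_lit 5) (nat_lit 134119) (nat_lit 26) (node (nat_lit 4) (nat_lit 130757) (nat_lit 27) (node
  (nat_lit 6) (nat_lit 126115) (nat_lit 28) (node (nat_lit 4) (nat_lit 124703) (nat_lit 29) (node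
  (nat_lit 5) (nat_lit 115618) (nat_lit 30) (node (nat_lit 6) (nat_lit 104740) (nat_lit 31) (node
  (nat_lit 5) (nat_lit 101368) (nat_lit 32) (node (nat_lit 4) (nat_lit 101395) (nat_lit 33) (node
  (nat_lit 6) (nat_lit 101444) (nat_lit 34) (node (nat_lit 5) (nat_lit 94548) (nat_lit 35) (node
  (nat_lit 6) (nat_lit 84383) (nat_lit 36) (node (nat_lit 4) (nat_lit 64028) (nat_lit 37) (node
  (nat_lit 5) (nat_lit 61592) (nat_lit 38) nil nil) nil) nil) nil) nil) nil) nil) nil) nil) nil)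
  nil) nil) nil) nil) nil) nil) nil)) (node (nat_lit 0) (nat_lit 136638) (nat_lit 21) nil nil))
  (node (nat_lit 0) (nat_lit 134528) (nat_lit 20) nil nil)) (node (nat_lit 4) (nat_lit 0) (nat_lit
  19) (node (nat_lit 6) (nat_lit 131853) (nat_lit 20) (node (nat_lit 5) (nat_lit 133848) (nat_lit
  21) (node (nat_lit 4) (nat_lit 134704) (nat_lit 22) (node (nat_lit 5) (nat_lit 135423) (nat_lit
  23) (node (nat_lit 6) (nat_lit 135161) (nat_lit 24) (node (nat_lit 4) (nat_lit 134971) (nat_lit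
  25) (node (nat_lit 6) (nat_lit 133886) (nat_lit 26) (node (nat_lit 5) (nat_lit 134371) (nat_lit
  27) (node (nat_lit 4) (nat_lit 131958) (nat_lit 28) (node (nat_lit 6) (nat_lit 129113) (nat_lit
  29) (node (nat_lit 4) (nat_lit 126823) (nat_lit 30) (node (nat_lit 5) (nat_lit 120024) (nat_lit
  31) (node (nat_lit 6) (nat_lit 114642) (nat_lit 32) (node (nat_lit 5) (nat_lit 105125) (nat_lit
  33) (node (nat_lit 4) (nat_lit 105314) (nat_lit 34) (node (nat_lit 6) (nat_lit 100358) (nat_lit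
  35) (node (nat_lit 5) (nat_lit 99702) (nat_lit 36) (node (nat_lit 6) (nat_lit 99730) (nat_lit
  37) (node (nat_lit 4) (nat_lit 84215) (nat_lit 38) (node (nat_lit 5) (nat_lit 67875) (nat_lit
  39) nil nil) nil) nil) nil) nil) nil) nil) nil) nil) nil) nil) nil) nil) nil) nil) nil) nil)
  (node (nat_lit 6) (nat_lit 134644) (nat_lit 22) nil nil)) (node (nat_lit 4) (nat_lit 133178)
  (nat_lit 21) (node (nat_lit 5) (nat_lit 133951) (nat_lit 22) (node (nat_lit 6) (nat_lit 133859)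
  (nat_lit 23) (node (nat_lit 4) (nat_lit 133450) (nat_lit 24) (node (nat_lit 6) (nat_lit 132966)
  (nat_lit 25) (node (nat_lit 5) (nat_lit 131704) (nat_lit 26) (node (nat_lit 4) (nat_lit 128462)
  (nat_lit 27) (node (nat_lit 6) (nat_lit 113007) (nat_lit 28) (node (nat_lit 4) (nat_lit 111564)
  (nat_lit 29) (node (nat_lit 5) (nat_lit 108852) (nat_lit 30) (node (nat_lit 6) (nat_lit 103811)
  (nat_lit 31) (node (nat_lit 5) (nat_lit 101336) (nat_lit 32) (node (nat_lit 4) (nat_lit 102546)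
  (nat_lit 33) (node (nat_lit 6) (nat_lit 87934) (nat_lit 34) (node (nat_lit 5) (nat_lit 74651)
  (nat_lit 35) (node (nat_lit 6) (nat_lit 76924) (nat_lit 36) (node (nat_lit 4) (nat_lit 72290)
  (nat_lit 37) nil nil) nil) nil) nil) nil) nil) nil) nil) nil) nil) nil) nil) nil) nil) nil) nil)
  nil)) (node (nat_lit 0) (nat_lit 133727) (nat_lit 20) nil nil)) (node (nat_lit 0) (nat_lit
  133061) (nat_lit 19) nil nil))) (node (nat_lit 6) (nat_lit 0) (nat_lit 18) (node (nat_lit 5)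
  (nat_lit 0) (nat_lit 19) (node (nat_lit 4) (nat_lit 0) (nat_lit 20) (node (nat_lit 5) (nat_lit
  0) (nat_lit 21) (node (nat_lit 6) (nat_lit 0) (nat_lit 22) (node (nat_lit 4) (nat_lit 136159)
  (nat_lit 23) (node (nat_lit 6) (nat_lit 135556) (nat_lit 24) (node (nat_lit 5) (nat_lit 133717)
  (nat_lit 25) nil nil) (node (nat_lit 5) (nat_lit 136812) (nat_lit 24) (node (nat_lit 4) (nat_lit
  136809) (nat_lit 25) nil nil) nil)) (node (nat_lit 5) (nat_lit 135707) (nat_lit 23) (node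
  (nat_lit 4) (nat_lit 135629) (nat_lit 24) nil nil) (node (nat_lit 0) (nat_lit 137424) (nat_lit
  23) nil nil))) (node (nat_lit 0) (nat_lit 137100) (nat_lit 22) nil nil)) (node (nat_lit 6)
  (nat_lit 0) (nat_lit 21) (node (nat_lit 4) (nat_lit 133282) (nat_lit 22) (node (nat_lit 5)
  (nat_lit 133538) (nat_lit 23) (node (nat_lit 6) (nat_lit 132540) (nat_lit 24) (node (nat_lit 4)
  (nat_lit 132026) (nat_lit 25) (node (nat_lit 6) (nat_lit 130952) (nat_lit 26) (node (nat_lit 5)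
  (nat_lit 130432) (nat_lit 27) (node (nat_lit 4) (nat_lit 127262) (nat_lit 28) (node (nat_lit 6)
  (nat_lit 124875) (nat_lit 29) nil nil) nil) nil) nil) nil) nil) nil) (node (nat_lit 0) (nat_lit
  135559) (nat_lit 22) nil nil)) (node (nat_lit 0) (nat_lit 136087) (nat_lit 21) nil nil))) (node
  (nat_lit 0) (nat_lit 138948) (nat_lit 20) nil nil)) (node (nat_lit 0) (nat_lit 139550) (nat_lit
  19) nil nil)) (node (nat_lit 0) (nat_lit 136229) (nat_lit 18) nil nil))) (node (nat_lit 0)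
  (nat_lit 138824) (nat_lit 17) nil nil)) (node (nat_lit 0) (nat_lit 138043) (nat_lit 16) (node
  (nat_lit 6) (nat_lit 138043) (nat_lit 17) nil (node (nat_lit 5) (nat_lit 138043) (nat_lit 17)
  nil nil)) nil)) (node (nat_lit 0) (nat_lit 138408) (nat_lit 15) (node (nat_lit 6) (nat_lit
  138408) (nat_lit 16) nil (node (nat_lit 4) (nat_lit 138408) (nat_lit 16) nil (node (nat_lit 5)
  (nat_lit 138408) (nat_lit 16) nil nil))) (node (nat_lit 4) (nat_lit 0) (nat_lit 15) (node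
  (nat_lit 0) (nat_lit 137384) (nat_lit 16) (node (nat_lit 6) (nat_lit 137384) (nat_lit 17) nil
  (node (nat_lit 5) (nat_lit 137384) (nat_lit 17) nil nil)) nil) nil))) (node (nat_lit 0) (nat_lit
  136875) (nat_lit 14) (node (nat_lit 5) (nat_lit 136875) (nat_lit 15) (node (nat_lit 6) (nat_lit
  136875) (nat_lit 16) nil (node (nat_lit 4) (nat_lit 136875) (nat_lit 16) nil nil)) (node
  (nat_lit 4) (nat_lit 136875) (nat_lit 15) (node (nat_lit 5) (nat_lit 136875) (nat_lit 16) nil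
  (node (nat_lit 6) (nat_lit 136875) (nat_lit 16) nil nil)) (node (nat_lit 6) (nat_lit 136875)
  (nat_lit 15) nil nil))) nil))) (node (nat_lit 0) (nat_lit 135160) (nat_lit 13) (node (nat_lit 6)
  (nat_lit 135160) (nat_lit 14) (node (nat_lit 5) (nat_lit 135160) (nat_lit 15) (node (nat_lit 6)
  (nat_lit 135160) (nat_lit 16) nil (node (nat_lit 4) (nat_lit 135160) (nat_lit 16) nil nil))
  (node (nat_lit 4) (nat_lit 135160) (nat_lit 15) nil nil)) (node (nat_lit 5) (nat_lit 135160)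
  (nat_lit 14) (node (nat_lit 6) (nat_lit 135160) (nat_lit 15) (node (nat_lit 4) (nat_lit 135160)
  (nat_lit 16) nil (node (nat_lit 5) (nat_lit 135160) (nat_lit 16) nil nil)) (node (nat_lit 4)
  (nat_lit 135160) (nat_lit 15) nil nil)) (node (nat_lit 4) (nat_lit 135160) (nat_lit 14) (node
  (nat_lit 5) (nat_lit 135160) (nat_lit 15) nil (node (nat_lit 6) (nat_lit 135160) (nat_lit 15)
  (node (nat_lit 5) (nat_lit 135160) (nat_lit 16) nil nil) nil)) nil))) nil)) (node (nat_lit 4)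
  (nat_lit 0) (nat_lit 12) (node (nat_lit 6) (nat_lit 0) (nat_lit 13) (node (nat_lit 5) (nat_lit
  0) (nat_lit 14) (node (nat_lit 6) (nat_lit 0) (nat_lit 15) (node (nat_lit 4) (nat_lit 0)
  (nat_lit 16) (node (nat_lit 5) (nat_lit 0) (nat_lit 17) (node (nat_lit 4) (nat_lit 0) (nat_lit
  18) (node (nat_lit 6) (nat_lit 0) (nat_lit 19) (node (nat_lit 5) (nat_lit 0) (nat_lit 20) (node
  (nat_lit 4) (nat_lit 0) (nat_lit 21) (node (nat_lit 5) (nat_lit 79852) (nat_lit 22) (node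
  (nat_lit 6) (nat_lit 79280) (nat_lit 23) (node (nat_lit 4) (nat_lit 78065) (nat_lit 24) (node
  (nat_lit 6) (nat_lit 78019) (nat_lit 25) (node (nat_lit 5) (nat_lit 77800) (nat_lit 26) (node
  (nat_lit 4) (nat_lit 74286) (nat_lit 27) (node (nat_lit 6) (nat_lit 69715) (nat_lit 28) (node
  (nat_lit 4) (nat_lit 64818) (nat_lit 29) (node (nat_lit 5) (nat_lit 65647) (nat_lit 30) (node
  (nat_lit 6) (nat_lit 55034) (nat_lit 31) (node (nat_lit 4) (nat_lit 53226) (nat_lit 32) (node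
  (nat_lit 6) (nat_lit 45454) (nat_lit 33) (node (nat_lit 5) (nat_lit 45493) (nat_lit 34) (node
  (nat_lit 6) (nat_lit 45523) (nat_lit 35) (node (nat_lit 4) (nat_lit 23502) (nat_lit 36) (node
  (nat_lit 5) (nat_lit 6231) (nat_lit 37) nil nil) nil) nil) nil) nil) nil) nil) nil) nil) nil)
  nil) nil) nil) (node (nat_lit 5) (nat_lit 79946) (nat_lit 24) (node (nat_lit 4) (nat_lit 80412)
  (nat_lit 25) nil nil) nil)) nil) (node (nat_lit 0) (nat_lit 81266) (nat_lit 22) nil nil)) (node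
  (nat_lit 6) (nat_lit 0) (nat_lit 21) (node (nat_lit 4) (nat_lit 79821) (nat_lit 22) (node
  (nat_lit 6) (nat_lit 80621) (nat_lit 23) (node (nat_lit 5) (nat_lit 81248) (nat_lit 24) (node
  (nat_lit 4) (nat_lit 81616) (nat_lit 25) (node (nat_lit 5) (nat_lit 81939) (nat_lit 26) (node
  (nat_lit 6) (nat_lit 82219) (nat_lit 27) (node (nat_lit 4) (nat_lit 82410) (nat_lit 28) nil nil)
  nil) nil) nil) nil) nil) (node (nat_lit 0) (nat_lit 80613) (nat_lit 22) nil nil)) (node (nat_lit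
  0) (nat_lit 79686) (nat_lit 21) nil nil))) (node (nat_lit 4) (nat_lit 78178) (nat_lit 20) (node
  (nat_lit 5) (nat_lit 79226) (nat_lit 21) (node (nat_lit 6) (nat_lit 80107) (nat_lit 22) (node
  (nat_lit 5) (nat_lit 80790) (nat_lit 23) (node (nat_lit 4) (nat_lit 81300) (nat_lit 24) (node
  (nat_lit 5) (nat_lit 81776) (nat_lit 25) (node (nat_lit 6) (nat_lit 81833) (nat_lit 26) (node
  (nat_lit 4) (nat_lit 81764) (nat_lit 27) (node (nat_lit 6) (nat_lit 81357) (nat_lit 28) (node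
  (nat_lit 5) (nat_lit 80227) (nat_lit 29) (node (nat_lit 4) (nat_lit 78702) (nat_lit 30) (node
  (nat_lit 6) (nat_lit 76393) (nat_lit 31) (node (nat_lit 4) (nat_lit 75928) (nat_lit 32) (node
  (nat_lit 5) (nat_lit 73524) (nat_lit 33) (node (nat_lit 6) (nat_lit 58099) (nat_lit 34) (node
  (nat_lit 4) (nat_lit 61502) (nat_lit 35) (node (nat_lit 6) (nat_lit 56508) (nat_lit 36) (node
  (nat_lit 5) (nat_lit 53128) (nat_lit 37) (node (nat_lit 6) (nat_lit 53329) (nat_lit 38) (node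
  (nat_lit 4) (nat_lit 40749) (nat_lit 39) (node (nat_lit 5) (nat_lit 42116) (nat_lit 40) (node
  (nat_lit 4) (nat_lit 31351) (nat_lit 41) (node (nat_lit 6) (nat_lit 21160) (nat_lit 42) nil nil)
  nil) nil) nil) nil) nil) nil) nil) nil) nil) nil) nil) nil) nil) nil) nil) nil) nil) nil) (node
  (nat_lit 4) (nat_lit 80383) (nat_lit 23) (node (nat_lit 6) (nat_lit 80184) (nat_lit 24) (node
  (nat_lit 5) (nat_lit 80141) (nat_lit 25) (node (nat_lit 4) (nat_lit 80107) (nat_lit 26) (node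
  (nat_lit 6) (nat_lit 80209) (nat_lit 27) (node (nat_lit 4) (nat_lit 80289) (nat_lit 28) (node
  (nat_lit 5) (nat_lit 80351) (nat_lit 29) (node (nat_lit 6) (nat_lit 80306) (nat_lit 30) nil nil)
  nil) nil) nil) nil) nil) nil) nil)) nil) nil) (node (nat_lit 0) (nat_lit 82363) (nat_lit 20) nil
  nil))) (node (nat_lit 0) (nat_lit 81524) (nat_lit 19) nil nil)) (node (nat_lit 6) (nat_lit 0)
  (nat_lit 18) (node (nat_lit 5) (nat_lit 0) (nat_lit 19) (node (nat_lit 4) (nat_lit 76358)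
  (nat_lit 20) (node (nat_lit 6) (nat_lit 77450) (nat_lit 21) (node (nat_lit 5) (nat_lit 78378)
  (nat_lit 22) (node (nat_lit 6) (nat_lit 78872) (nat_lit 23) nil nil) (node (nat_lit 4) (nat_lit
  78127) (nat_lit 22) (node (nat_lit 5) (nat_lit 78403) (nat_lit 23) (node (nat_lit 6) (nat_lit
  78204) (nat_lit 24) (node (nat_lit 4) (nat_lit 78372) (nat_lit 25) nil nil) nil) nil) nil))
  (node (nat_lit 5) (nat_lit 77212) (nat_lit 21) (node (nat_lit 6) (nat_lit 77465) (nat_lit 22)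
  (node (nat_lit 4) (nat_lit 77077) (nat_lit 23) (node (nat_lit 6) (nat_lit 75296) (nat_lit 24)
  (node (nat_lit 5) (nat_lit 73284) (nat_lit 25) (node (nat_lit 4) (nat_lit 67899) (nat_lit 26)
  (node (nat_lit 6) (nat_lit 64734) (nat_lit 27) (node (nat_lit 4) (nat_lit 61960) (nat_lit 28)
  (node (nat_lit 5) (nat_lit 59407) (nat_lit 29) (node (nat_lit 6) (nat_lit 51902) (nat_lit 30)
  (node (nat_lit 4) (nat_lit 37094) (nat_lit 31) (node (nat_lit 6) (nat_lit 37156) (nat_lit 32)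
  (node (nat_lit 5) (nat_lit 31465) (nat_lit 33) nil nil) nil) nil) nil) nil) nil) nil) nil) nil)
  (node (nat_lit 5) (nat_lit 77293) (nat_lit 24) nil nil)) nil) nil) nil)) (node (nat_lit 0)
  (nat_lit 77445) (nat_lit 20) nil nil)) (node (nat_lit 0) (nat_lit 81162) (nat_lit 19) nil nil))
  (node (nat_lit 0) (nat_lit 80242) (nat_lit 18) nil nil))) (node (nat_lit 0) (nat_lit 81126)
  (nat_lit 17) nil nil)) (node (nat_lit 0) (nat_lit 81023) (nat_lit 16) nil nil)) (node (nat_lit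
  4) (nat_lit 0) (nat_lit 15) (node (nat_lit 5) (nat_lit 0) (nat_lit 16) (node (nat_lit 6)
  (nat_lit 0) (nat_lit 17) (node (nat_lit 4) (nat_lit 0) (nat_lit 18) (node (nat_lit 5) (nat_lit
  0) (nat_lit 19) (node (nat_lit 4) (nat_lit 78504) (nat_lit 20) (node (nat_lit 6) (nat_lit 79821)
  (nat_lit 21) (node (nat_lit 5) (nat_lit 80849) (nat_lit 22) (node (nat_lit 4) (nat_lit 81454)
  (nat_lit 23) (node (nat_lit 5) (nat_lit 81984) (nat_lit 24) (node (nat_lit 6) (nat_lit 82324)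
  (nat_lit 25) (node (nat_lit 4) (nat_lit 81666) (nat_lit 26) (node (nat_lit 6) (nat_lit 80871)
  (nat_lit 27) (node (nat_lit 5) (nat_lit 80238) (nat_lit 28) (node (nat_lit 4) (nat_lit 79578)
  (nat_lit 29) (node (nat_lit 6) (nat_lit 77505) (nat_lit 30) (node (nat_lit 4) (nat_lit 74537)
  (nat_lit 31) (node (nat_lit 5) (nat_lit 71849) (nat_lit 32) (node (nat_lit 6) (nat_lit 64743)
  (nat_lit 33) (node (nat_lit 4) (nat_lit 62301) (nat_lit 34) (node (nat_lit 6) (nat_lit 61623)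
  (nat_lit 35) (node (nat_lit 5) (nat_lit 49582) (nat_lit 36) (node (nat_lit 4) (nat_lit 45139)
  (nat_lit 37) (node (nat_lit 5) (nat_lit 45150) (nat_lit 38) (node (nat_lit 6) (nat_lit 45161)
  (nat_lit 39) (node (nat_lit 4) (nat_lit 26972) (nat_lit 40) (node (nat_lit 5) (nat_lit 8104)
  (nat_lit 41) nil nil) nil) nil) nil) nil) nil) nil) nil) nil) nil) nil) nil) nil) nil) nil) nil)
  nil) nil) (node (nat_lit 6) (nat_lit 81125) (nat_lit 23) nil nil)) (node (nat_lit 4) (nat_lit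
  80498) (nat_lit 22) (node (nat_lit 5) (nat_lit 80774) (nat_lit 23) (node (nat_lit 6) (nat_lit
  80575) (nat_lit 24) nil nil) nil) nil)) nil) (node (nat_lit 0) (nat_lit 78926) (nat_lit 20) nil
  nil)) (node (nat_lit 6) (nat_lit 0) (nat_lit 19) (node (nat_lit 0) (nat_lit 78580) (nat_lit 20)
  nil nil) (node (nat_lit 0) (nat_lit 81805) (nat_lit 19) nil nil))) (node (nat_lit 5) (nat_lit 0)
  (nat_lit 18) (node (nat_lit 4) (nat_lit 0) (nat_lit 19) (node (nat_lit 6) (nat_lit 77827)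
  (nat_lit 20) (node (nat_lit 4) (nat_lit 78694) (nat_lit 21) (node (nat_lit 5) (nat_lit 79166)
  (nat_lit 22) (node (nat_lit 6) (nat_lit 78912) (nat_lit 23) (node (nat_lit 4) (nat_lit 79128)
  (nat_lit 24) (node (nat_lit 6) (nat_lit 78972) (nat_lit 25) (node (nat_lit 5) (nat_lit 78939)
  (nat_lit 26) (node (nat_lit 4) (nat_lit 78912) (nat_lit 27) (node (nat_lit 6) (nat_lit 78992)
  (nat_lit 28) (node (nat_lit 4) (nat_lit 79054) (nat_lit 29) (node (nat_lit 5) (nat_lit 79103)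
  (nat_lit 30) (node (nat_lit 6) (nat_lit 79068) (nat_lit 31) nil nil) nil) nil) nil) nil) nil)
  nil) nil) nil) nil) (node (nat_lit 5) (nat_lit 79015) (nat_lit 21) (node (nat_lit 6) (nat_lit
  79369) (nat_lit 22) nil nil) nil)) (node (nat_lit 0) (nat_lit 78541) (nat_lit 20) nil nil))
  (node (nat_lit 0) (nat_lit 79214) (nat_lit 19) nil nil)) (node (nat_lit 0) (nat_lit 80568)
  (nat_lit 18) nil nil))) (node (nat_lit 0) (nat_lit 82571) (nat_lit 17) nil nil)) (node (nat_lit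
  0) (nat_lit 82246) (nat_lit 16) nil nil)) (node (nat_lit 0) (nat_lit 82032) (nat_lit 15) (node
  (nat_lit 5) (nat_lit 82032) (nat_lit 16) nil (node (nat_lit 6) (nat_lit 82032) (nat_lit 16) nil
  (node (nat_lit 4) (nat_lit 82032) (nat_lit 16) nil nil))) nil))) (node (nat_lit 0) (nat_lit
  81605) (nat_lit 14) (node (nat_lit 5) (nat_lit 81605) (nat_lit 15) (node (nat_lit 6) (nat_lit
  81605) (nat_lit 16) nil (node (nat_lit 4) (nat_lit 81605) (nat_lit 16) nil nil)) (node (nat_lit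
  4) (nat_lit 81605) (nat_lit 15) (node (nat_lit 6) (nat_lit 81605) (nat_lit 16) (node (nat_lit 5)
  (nat_lit 81605) (nat_lit 17) nil (node (nat_lit 4) (nat_lit 81605) (nat_lit 17) nil nil)) (node
  (nat_lit 5) (nat_lit 81605) (nat_lit 16) nil nil)) (node (nat_lit 6) (nat_lit 81605) (nat_lit
  15) (node (nat_lit 4) (nat_lit 81605) (nat_lit 16) nil (node (nat_lit 5) (nat_lit 81605)
  (nat_lit 16) nil nil)) nil))) nil)) (node (nat_lit 0) (nat_lit 110094) (nat_lit 13) (node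
  (nat_lit 5) (nat_lit 110094) (nat_lit 14) (node (nat_lit 4) (nat_lit 110094) (nat_lit 15) (node
  (nat_lit 5) (nat_lit 110094) (nat_lit 16) (node (nat_lit 6) (nat_lit 110094) (nat_lit 17) (node
  (nat_lit 4) (nat_lit 110094) (nat_lit 18) (node (nat_lit 6) (nat_lit 110094) (nat_lit 19) (node
  (nat_lit 5) (nat_lit 110094) (nat_lit 20) (node (nat_lit 4) (nat_lit 110447) (nat_lit 21) nil
  nil) nil) nil) nil) nil) nil) nil) (node (nat_lit 6) (nat_lit 110094) (nat_lit 14) (node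
  (nat_lit 4) (nat_lit 110094) (nat_lit 15) nil nil) (node (nat_lit 4) (nat_lit 110094) (nat_lit
  14) (node (nat_lit 5) (nat_lit 110094) (nat_lit 15) (node (nat_lit 6) (nat_lit 110094) (nat_lit
  16) (node (nat_lit 4) (nat_lit 110094) (nat_lit 17) (node (nat_lit 6) (nat_lit 110094) (nat_lit
  18) (node (nat_lit 5) (nat_lit 110094) (nat_lit 19) (node (nat_lit 4) (nat_lit 110094) (nat_lit
  20) (node (nat_lit 6) (nat_lit 111113) (nat_lit 21) (node (nat_lit 4) (nat_lit 111909) (nat_lit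
  22) nil nil) nil) nil) nil) nil) nil) nil) nil) nil))) nil)) (node (nat_lit 0) (nat_lit 138048)
  (nat_lit 12) (node (nat_lit 5) (nat_lit 138048) (nat_lit 13) (node (nat_lit 6) (nat_lit 138048)
  (nat_lit 14) (node (nat_lit 4) (nat_lit 138048) (nat_lit 15) (node (nat_lit 6) (nat_lit 138048)
  (nat_lit 16) (node (nat_lit 5) (nat_lit 138048) (nat_lit 17) nil nil) (node (nat_lit 5) (nat_lit
  138048) (nat_lit 16) nil nil)) (node (nat_lit 5) (nat_lit 138048) (nat_lit 15) (node (nat_lit 4)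
  (nat_lit 138048) (nat_lit 16) nil nil) nil)) (node (nat_lit 4) (nat_lit 138048) (nat_lit 14)
  (node (nat_lit 5) (nat_lit 138048) (nat_lit 15) (node (nat_lit 6) (nat_lit 138048) (nat_lit 16)
  (node (nat_lit 4) (nat_lit 138048) (nat_lit 17) (node (nat_lit 6) (nat_lit 138048) (nat_lit 18)
  (node (nat_lit 5) (nat_lit 138048) (nat_lit 19) (node (nat_lit 4) (nat_lit 138500) (nat_lit 20)
  nil nil) nil) nil) nil) nil) (node (nat_lit 6) (nat_lit 138048) (nat_lit 15) nil nil)) nil))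
  (node (nat_lit 6) (nat_lit 138048) (nat_lit 13) (node (nat_lit 5) (nat_lit 138048) (nat_lit 14)
  (node (nat_lit 4) (nat_lit 138048) (nat_lit 15) (node (nat_lit 5) (nat_lit 138048) (nat_lit 16)
  (node (nat_lit 6) (nat_lit 138048) (nat_lit 17) (node (nat_lit 4) (nat_lit 138048) (nat_lit 18)
  (node (nat_lit 6) (nat_lit 138048) (nat_lit 19) (node (nat_lit 5) (nat_lit 140296) (nat_lit 20)
  (node (nat_lit 4) (nat_lit 140705) (nat_lit 21) (node (nat_lit 6) (nat_lit 141787) (nat_lit 22)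
  (node (nat_lit 4) (nat_lit 142312) (nat_lit 23) nil nil) nil) nil) nil) nil) nil) nil) nil)
  (node (nat_lit 6) (nat_lit 138048) (nat_lit 15) (node (nat_lit 4) (nat_lit 138048) (nat_lit 16)
  nil nil) nil)) (node (nat_lit 4) (nat_lit 138048) (nat_lit 14) (node (nat_lit 5) (nat_lit
  138048) (nat_lit 15) (node (nat_lit 6) (nat_lit 138048) (nat_lit 16) (node (nat_lit 4) (nat_lit
  138048) (nat_lit 17) (node (nat_lit 6) (nat_lit 138048) (nat_lit 18) (node (nat_lit 5) (nat_lit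
  137868) (nat_lit 19) (node (nat_lit 4) (nat_lit 139119) (nat_lit 20) nil nil) nil) nil) nil)
  nil) (node (nat_lit 6) (nat_lit 138048) (nat_lit 15) (node (nat_lit 5) (nat_lit 138048) (nat_lit
  16) nil nil) nil)) nil)) (node (nat_lit 4) (nat_lit 138048) (nat_lit 13) (node (nat_lit 6)
  (nat_lit 138048) (nat_lit 14) (node (nat_lit 5) (nat_lit 138048) (nat_lit 15) nil (node (nat_lit
  4) (nat_lit 138048) (nat_lit 15) (node (nat_lit 5) (nat_lit 138048) (nat_lit 16) (node (nat_lit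
  6) (nat_lit 138048) (nat_lit 17) (node (nat_lit 4) (nat_lit 138048) (nat_lit 18) (node (nat_lit
  6) (nat_lit 138234) (nat_lit 19) (node (nat_lit 5) (nat_lit 139403) (nat_lit 20) nil nil) nil)
  nil) nil) nil) nil)) (node (nat_lit 5) (nat_lit 138048) (nat_lit 14) (node (nat_lit 6) (nat_lit
  138048) (nat_lit 15) (node (nat_lit 4) (nat_lit 138048) (nat_lit 16) (node (nat_lit 6) (nat_lit
  138048) (nat_lit 17) (node (nat_lit 5) (nat_lit 138048) (nat_lit 18) (node (nat_lit 4) (nat_lit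
  138048) (nat_lit 19) (node (nat_lit 6) (nat_lit 139354) (nat_lit 20) (node (nat_lit 4) (nat_lit
  140373) (nat_lit 21) (node (nat_lit 5) (nat_lit 141168) (nat_lit 22) nil nil) nil) nil) nil)
  nil) nil) nil) (node (nat_lit 4) (nat_lit 138048) (nat_lit 15) nil nil)) nil)) nil))) nil)))

noncomputable def t63 : Tr :=
  (node (nat_lit 5) (nat_lit 0) (nat_lit 13) (node (nat_lit 6) (nat_lit 0) (nat_lit 14) (node
  (nat_lit 4) (nat_lit 0) (nat_lit 15) (node (nat_lit 5) (nat_lit 0) (nat_lit 16) (node (nat_lit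
  6) (nat_lit 0) (nat_lit 17) (node (nat_lit 5) (nat_lit 0) (nat_lit 18) (node (nat_lit 4)
  (nat_lit 0) (nat_lit 19) (node (nat_lit 6) (nat_lit 0) (nat_lit 20) (node (nat_lit 4) (nat_lit
  136766) (nat_lit 21) (node (nat_lit 5) (nat_lit 138799) (nat_lit 22) (node (nat_lit 6) (nat_lit
  138327) (nat_lit 23) (node (nat_lit 4) (nat_lit 137336) (nat_lit 24) (node (nat_lit 6) (nat_lit
  135842) (nat_lit 25) (node (nat_lit 5) (nat_lit 136490) (nat_lit 26) (node (nat_lit 4) (nat_lit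
  132818) (nat_lit 27) (node (nat_lit 6) (nat_lit 132420) (nat_lit 28) (node (nat_lit 4) (nat_lit
  126228) (nat_lit 29) (node (nat_lit 5) (nat_lit 119899) (nat_lit 30) (node (nat_lit 4) (nat_lit
  114941) (nat_lit 31) (node (nat_lit 6) (nat_lit 110291) (nat_lit 32) (node (nat_lit 5) (nat_lit
  110291) (nat_lit 33) (node (nat_lit 6) (nat_lit 103216) (nat_lit 34) (node (nat_lit 4) (nat_lit
  103660) (nat_lit 35) (node (nat_lit 5) (nat_lit 80579) (nat_lit 36) (node (nat_lit 6) (nat_lit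
  77603) (nat_lit 37) (node (nat_lit 5) (nat_lit 77602) (nat_lit 38) (node (nat_lit 4) (nat_lit
  77600) (nat_lit 39) nil nil) nil) nil) nil) nil) nil) nil) nil) nil) nil) nil) nil) nil) nil)
  nil) (node (nat_lit 5) (nat_lit 138183) (nat_lit 24) nil nil)) (node (nat_lit 4) (nat_lit
  139251) (nat_lit 23) (node (nat_lit 6) (nat_lit 138693) (nat_lit 24) (node (nat_lit 5) (nat_lit
  138446) (nat_lit 25) nil nil) nil) nil)) nil) (node (nat_lit 5) (nat_lit 137077) (nat_lit 21)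
  (node (nat_lit 6) (nat_lit 138366) (nat_lit 22) (node (nat_lit 4) (nat_lit 138828) (nat_lit 23)
  (node (nat_lit 6) (nat_lit 138899) (nat_lit 24) nil nil) nil) nil) (node (nat_lit 0) (nat_lit
  138467) (nat_lit 21) nil nil))) (node (nat_lit 5) (nat_lit 0) (nat_lit 20) (node (nat_lit 6)
  (nat_lit 0) (nat_lit 21) (node (nat_lit 4) (nat_lit 137520) (nat_lit 22) (node (nat_lit 6)
  (nat_lit 134944) (nat_lit 23) (node (nat_lit 5) (nat_lit 135498) (nat_lit 24) (node (nat_lit 4)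
  (nat_lit 133111) (nat_lit 25) (node (nat_lit 6) (nat_lit 126011) (nat_lit 26) (node (nat_lit 4)
  (nat_lit 119877) (nat_lit 27) (node (nat_lit 5) (nat_lit 115730) (nat_lit 28) (node (nat_lit 4)
  (nat_lit 102120) (nat_lit 29) (node (nat_lit 6) (nat_lit 96737) (nat_lit 30) (node (nat_lit 5)
  (nat_lit 96823) (nat_lit 31) (node (nat_lit 6) (nat_lit 59504) (nat_lit 32) (node (nat_lit 4)
  (nat_lit 59517) (nat_lit 33) (node (nat_lit 5) (nat_lit 59526) (nat_lit 34) (node (nat_lit 6)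
  (nat_lit 59533) (nat_lit 35) nil nil) nil) nil) nil) nil) nil) nil) nil) nil) (node (nat_lit 5)
  (nat_lit 132295) (nat_lit 26) nil nil)) nil) nil) (node (nat_lit 5) (nat_lit 138416) (nat_lit
  23) (node (nat_lit 4) (nat_lit 138702) (nat_lit 24) (node (nat_lit 6) (nat_lit 138753) (nat_lit
  25) nil nil) nil) nil)) (node (nat_lit 0) (nat_lit 138720) (nat_lit 22) nil nil)) (node (nat_lit
  0) (nat_lit 139393) (nat_lit 21) nil nil)) (node (nat_lit 0) (nat_lit 144095) (nat_lit 20) nil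
  nil))) (node (nat_lit 0) (nat_lit 145556) (nat_lit 19) nil nil)) (node (nat_lit 0) (nat_lit
  146928) (nat_lit 18) nil nil)) (node (nat_lit 4) (nat_lit 0) (nat_lit 17) (node (nat_lit 6)
  (nat_lit 0) (nat_lit 18) (node (nat_lit 4) (nat_lit 0) (nat_lit 19) (node (nat_lit 5) (nat_lit
  0) (nat_lit 20) (node (nat_lit 6) (nat_lit 135816) (nat_lit 21) (node (nat_lit 5) (nat_lit
  137967) (nat_lit 22) (node (nat_lit 4) (nat_lit 139578) (nat_lit 23) (node (nat_lit 6) (nat_lit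
  140734) (nat_lit 24) (node (nat_lit 4) (nat_lit 140100) (nat_lit 25) nil nil) (node (nat_lit 5)
  (nat_lit 140351) (nat_lit 24) (node (nat_lit 6) (nat_lit 140461) (nat_lit 25) (node (nat_lit 4)
  (nat_lit 140174) (nat_lit 26) (node (nat_lit 6) (nat_lit 139550) (nat_lit 27) (node (nat_lit 5)
  (nat_lit 138415) (nat_lit 28) (node (nat_lit 4) (nat_lit 135921) (nat_lit 29) (node (nat_lit 6)
  (nat_lit 137315) (nat_lit 30) (node (nat_lit 4) (nat_lit 134997) (nat_lit 31) (node (nat_lit 5)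
  (nat_lit 131155) (nat_lit 32) nil nil) nil) nil) nil) nil) nil) nil) nil) nil)) nil) (node
  (nat_lit 4) (nat_lit 134358) (nat_lit 22) (node (nat_lit 6) (nat_lit 132745) (nat_lit 23) (node
  (nat_lit 5) (nat_lit 130513) (nat_lit 24) (node (nat_lit 4) (nat_lit 126411) (nat_lit 25) (node
  (nat_lit 6) (nat_lit 122775) (nat_lit 26) (node (nat_lit 4) (nat_lit 114558) (nat_lit 27) (node
  (nat_lit 5) (nat_lit 112293) (nat_lit 28) (node (nat_lit 4) (nat_lit 79881) (nat_lit 29) (node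
  (nat_lit 6) (nat_lit 77271) (nat_lit 30) (node (nat_lit 5) (nat_lit 77262) (nat_lit 31) (node
  (nat_lit 6) (nat_lit 77291) (nat_lit 32) (node (nat_lit 4) (nat_lit 77315) (nat_lit 33) (node
  (nat_lit 5) (nat_lit 77333) (nat_lit 34) (node (nat_lit 4) (nat_lit 77347) (nat_lit 35) nil nil)
  nil) nil) nil) nil) nil) nil) nil) nil) nil) nil) nil) nil) nil)) (node (nat_lit 0) (nat_lit
  137381) (nat_lit 21) nil nil)) (node (nat_lit 0) (nat_lit 137683) (nat_lit 20) nil nil)) (node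
  (nat_lit 0) (nat_lit 143518) (nat_lit 19) nil nil)) (node (nat_lit 0) (nat_lit 145934) (nat_lit
  18) nil nil)) (node (nat_lit 0) (nat_lit 145851) (nat_lit 17) (node (nat_lit 4) (nat_lit 145851)
  (nat_lit 18) nil (node (nat_lit 6) (nat_lit 145851) (nat_lit 18) nil nil)) nil))) (node (nat_lit
  6) (nat_lit 0) (nat_lit 16) (node (nat_lit 5) (nat_lit 0) (nat_lit 17) (node (nat_lit 4)
  (nat_lit 0) (nat_lit 18) (node (nat_lit 5) (nat_lit 0) (nat_lit 19) (node (nat_lit 6) (nat_lit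
  0) (nat_lit 20) (node (nat_lit 5) (nat_lit 139188) (nat_lit 21) (node (nat_lit 4) (nat_lit
  141199) (nat_lit 22) (node (nat_lit 6) (nat_lit 142114) (nat_lit 23) (node (nat_lit 4) (nat_lit
  142733) (nat_lit 24) (node (nat_lit 5) (nat_lit 142943) (nat_lit 25) (node (nat_lit 6) (nat_lit
  142629) (nat_lit 26) (node (nat_lit 4) (nat_lit 142166) (nat_lit 27) (node (nat_lit 6) (nat_lit
  142147) (nat_lit 28) (node (nat_lit 5) (nat_lit 141418) (nat_lit 29) (node (nat_lit 4) (nat_lit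
  135822) (nat_lit 30) (node (nat_lit 6) (nat_lit 137213) (nat_lit 31) (node (nat_lit 4) (nat_lit
  135468) (nat_lit 32) (node (nat_lit 5) (nat_lit 134300) (nat_lit 33) (node (nat_lit 4) (nat_lit
  134431) (nat_lit 34) (node (nat_lit 6) (nat_lit 129224) (nat_lit 35) (node (nat_lit 5) (nat_lit
  123362) (nat_lit 36) (node (nat_lit 6) (nat_lit 111617) (nat_lit 37) (node (nat_lit 4) (nat_lit
  109137) (nat_lit 38) (node (nat_lit 6) (nat_lit 112021) (nat_lit 39) (node (nat_lit 5) (nat_lit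
  105118) (nat_lit 40) (node (nat_lit 4) (nat_lit 105531) (nat_lit 41) (node (nat_lit 5) (nat_lit
  82216) (nat_lit 42) nil nil) nil) nil) nil) nil) nil) nil) nil) nil) nil) nil) nil) nil) nil)
  nil) nil) nil) nil) nil) nil) nil) (node (nat_lit 4) (nat_lit 138091) (nat_lit 21) (node
  (nat_lit 5) (nat_lit 139166) (nat_lit 22) nil (node (nat_lit 6) (nat_lit 139561) (nat_lit 22)
  (node (nat_lit 5) (nat_lit 140708) (nat_lit 23) (node (nat_lit 6) (nat_lit 141192) (nat_lit 24)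
  nil nil) nil) nil)) (node (nat_lit 0) (nat_lit 140323) (nat_lit 21) nil nil))) (node (nat_lit 0)
  (nat_lit 139703) (nat_lit 20) nil nil)) (node (nat_lit 6) (nat_lit 132773) (nat_lit 19) (node
  (nat_lit 4) (nat_lit 136437) (nat_lit 20) (node (nat_lit 5) (nat_lit 139337) (nat_lit 21) (node
  (nat_lit 6) (nat_lit 140566) (nat_lit 22) (node (nat_lit 5) (nat_lit 141733) (nat_lit 23) (node
  (nat_lit 4) (nat_lit 142055) (nat_lit 24) (node (nat_lit 5) (nat_lit 142717) (nat_lit 25) (node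
  (nat_lit 6) (nat_lit 142482) (nat_lit 26) (node (nat_lit 4) (nat_lit 142326) (nat_lit 27) (node
  (nat_lit 6) (nat_lit 142416) (nat_lit 28) (node (nat_lit 5) (nat_lit 141494) (nat_lit 29) (node
  (nat_lit 4) (nat_lit 139768) (nat_lit 30) (node (nat_lit 6) (nat_lit 138771) (nat_lit 31) (node
  (nat_lit 4) (nat_lit 137516) (nat_lit 32) (node (nat_lit 5) (nat_lit 136710) (nat_lit 33) (node
  (nat_lit 4) (nat_lit 133127) (nat_lit 34) (node (nat_lit 6) (nat_lit 126269) (nat_lit 35) (node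
  (nat_lit 5) (nat_lit 119113) (nat_lit 36) (node (nat_lit 6) (nat_lit 112149) (nat_lit 37) (node
  (nat_lit 4) (nat_lit 108163) (nat_lit 38) (node (nat_lit 6) (nat_lit 100066) (nat_lit 39) (node
  (nat_lit 5) (nat_lit 101438) (nat_lit 40) (node (nat_lit 4) (nat_lit 96082) (nat_lit 41) nil
  nil) nil) nil) nil) nil) nil) nil) nil) nil) nil) nil) nil) nil) nil) nil) nil) nil) nil) (node
  (nat_lit 4) (nat_lit 140212) (nat_lit 23) (node (nat_lit 6) (nat_lit 139066) (nat_lit 24) (node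
  (nat_lit 5) (nat_lit 137417) (nat_lit 25) (node (nat_lit 4) (nat_lit 134482) (nat_lit 26) (node
  (nat_lit 6) (nat_lit 117974) (nat_lit 27) nil nil) nil) nil) nil) nil)) (node (nat_lit 4)
  (nat_lit 140066) (nat_lit 22) nil nil)) nil) nil) (node (nat_lit 0) (nat_lit 136773) (nat_lit
  19) nil nil))) (node (nat_lit 0) (nat_lit 138076) (nat_lit 18) nil nil)) (node (nat_lit 0)
  (nat_lit 142481) (nat_lit 17) nil nil)) (node (nat_lit 0) (nat_lit 146124) (nat_lit 16) (node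
  (nat_lit 4) (nat_lit 146124) (nat_lit 17) nil (node (nat_lit 6) (nat_lit 146124) (nat_lit 17)
  (node (nat_lit 4) (nat_lit 146124) (nat_lit 18) nil nil) (node (nat_lit 5) (nat_lit 146124)
  (nat_lit 17) nil nil))) nil))) (node (nat_lit 0) (nat_lit 145318) (nat_lit 15) (node (nat_lit 5)
  (nat_lit 145318) (nat_lit 16) (node (nat_lit 6) (nat_lit 145318) (nat_lit 17) nil nil) (node
  (nat_lit 6) (nat_lit 145318) (nat_lit 16) (node (nat_lit 4) (nat_lit 145318) (nat_lit 17) nil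
  nil) (node (nat_lit 4) (nat_lit 145318) (nat_lit 16) nil nil))) nil)) (node (nat_lit 4) (nat_lit
  0) (nat_lit 14) (node (nat_lit 5) (nat_lit 0) (nat_lit 15) (node (nat_lit 6) (nat_lit 0)
  (nat_lit 16) (node (nat_lit 4) (nat_lit 0) (nat_lit 17) (node (nat_lit 5) (nat_lit 0) (nat_lit
  18) (node (nat_lit 4) (nat_lit 0) (nat_lit 19) (node (nat_lit 6) (nat_lit 0) (nat_lit 20) (node
  (nat_lit 4) (nat_lit 123506) (nat_lit 21) (node (nat_lit 5) (nat_lit 125902) (nat_lit 22) (node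
  (nat_lit 6) (nat_lit 125437) (nat_lit 23) (node (nat_lit 4) (nat_lit 123925) (nat_lit 24) (node
  (nat_lit 6) (nat_lit 123386) (nat_lit 25) (node (nat_lit 5) (nat_lit 122390) (nat_lit 26) (node
  (nat_lit 4) (nat_lit 118833) (nat_lit 27) (node (nat_lit 6) (nat_lit 116685) (nat_lit 28) (node
  (nat_lit 4) (nat_lit 111805) (nat_lit 29) (node (nat_lit 5) (nat_lit 107046) (nat_lit 30) (node
  (nat_lit 4) (nat_lit 96957) (nat_lit 31) (node (nat_lit 6) (nat_lit 106723) (nat_lit 32) (node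
  (nat_lit 5) (nat_lit 96949) (nat_lit 33) (node (nat_lit 4) (nat_lit 63663) (nat_lit 34) (node
  (nat_lit 5) (nat_lit 63667) (nat_lit 35) (node (nat_lit 6) (nat_lit 63595) (nat_lit 36) (node
  (nat_lit 4) (nat_lit 63552) (nat_lit 37) nil nil) nil) nil) nil) nil) nil) nil) nil) nil) nil)
  nil) nil) nil) (node (nat_lit 5) (nat_lit 125292) (nat_lit 24) (node (nat_lit 4) (nat_lit
  124278) (nat_lit 25) nil nil) nil)) nil) nil) (node (nat_lit 5) (nat_lit 124203) (nat_lit 21)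
  (node (nat_lit 6) (nat_lit 125491) (nat_lit 22) (node (nat_lit 4) (nat_lit 125954) (nat_lit 23)
  (node (nat_lit 6) (nat_lit 126025) (nat_lit 24) nil (node (nat_lit 5) (nat_lit 126439) (nat_lit
  24) nil nil)) nil) (node (nat_lit 4) (nat_lit 125302) (nat_lit 22) nil nil)) (node (nat_lit 0)
  (nat_lit 125882) (nat_lit 21) nil nil))) (node (nat_lit 0) (nat_lit 125482) (nat_lit 20) nil
  nil)) (node (nat_lit 0) (nat_lit 125022) (nat_lit 19) nil nil)) (node (nat_lit 6) (nat_lit 0)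
  (nat_lit 18) (node (nat_lit 5) (nat_lit 0) (nat_lit 19) (node (nat_lit 6) (nat_lit 121426)
  (nat_lit 20) (node (nat_lit 4) (nat_lit 122519) (nat_lit 21) (node (nat_lit 5) (nat_lit 123113)
  (nat_lit 22) (node (nat_lit 4) (nat_lit 123109) (nat_lit 23) nil (node (nat_lit 6) (nat_lit
  123204) (nat_lit 23) nil nil)) nil) nil) (node (nat_lit 4) (nat_lit 0) (nat_lit 20) (node
  (nat_lit 6) (nat_lit 103481) (nat_lit 21) (node (nat_lit 4) (nat_lit 102310) (nat_lit 22) (node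
  (nat_lit 5) (nat_lit 102918) (nat_lit 23) (node (nat_lit 6) (nat_lit 101789) (nat_lit 24) (node
  (nat_lit 4) (nat_lit 101173) (nat_lit 25) (node (nat_lit 6) (nat_lit 100019) (nat_lit 26) (node
  (nat_lit 5) (nat_lit 99557) (nat_lit 27) (node (nat_lit 4) (nat_lit 96346) (nat_lit 28) nil nil)
  nil) nil) nil) (node (nat_lit 4) (nat_lit 59301) (nat_lit 24) (node (nat_lit 6) (nat_lit 59374)
  (nat_lit 25) nil nil) nil)) nil) nil) (node (nat_lit 5) (nat_lit 102275) (nat_lit 21) nil (node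
  (nat_lit 0) (nat_lit 105348) (nat_lit 21) nil nil))) (node (nat_lit 0) (nat_lit 123632) (nat_lit
  20) nil nil))) (node (nat_lit 0) (nat_lit 124657) (nat_lit 19) nil nil)) (node (nat_lit 0)
  (nat_lit 128161) (nat_lit 18) nil nil))) (node (nat_lit 5) (nat_lit 0) (nat_lit 17) (node
  (nat_lit 4) (nat_lit 0) (nat_lit 18) (node (nat_lit 6) (nat_lit 0) (nat_lit 19) (node (nat_lit
  4) (nat_lit 127836) (nat_lit 20) (node (nat_lit 5) (nat_lit 129383) (nat_lit 21) (node (nat_lit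
  6) (nat_lit 129270) (nat_lit 22) (node (nat_lit 5) (nat_lit 130438) (nat_lit 23) (node (nat_lit
  4) (nat_lit 130769) (nat_lit 24) (node (nat_lit 5) (nat_lit 131424) (nat_lit 25) (node (nat_lit
  6) (nat_lit 131377) (nat_lit 26) (node (nat_lit 4) (nat_lit 130993) (nat_lit 27) (node (nat_lit
  6) (nat_lit 130444) (nat_lit 28) (node (nat_lit 5) (nat_lit 130198) (nat_lit 29) (node (nat_lit
  4) (nat_lit 128473) (nat_lit 30) (node (nat_lit 6) (nat_lit 127476) (nat_lit 31) (node (nat_lit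
  4) (nat_lit 126212) (nat_lit 32) (node (nat_lit 5) (nat_lit 124763) (nat_lit 33) (node (nat_lit
  4) (nat_lit 120880) (nat_lit 34) (node (nat_lit 6) (nat_lit 117262) (nat_lit 35) (node (nat_lit
  5) (nat_lit 108454) (nat_lit 36) (node (nat_lit 4) (nat_lit 107377) (nat_lit 37) (node (nat_lit
  5) (nat_lit 104308) (nat_lit 38) (node (nat_lit 6) (nat_lit 99670) (nat_lit 39) nil nil) nil)
  nil) nil) nil) nil) nil) nil) nil) nil) nil) nil) nil) nil) nil) nil) (node (nat_lit 4) (nat_lit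
  129000) (nat_lit 23) (node (nat_lit 6) (nat_lit 128386) (nat_lit 24) (node (nat_lit 5) (nat_lit
  127874) (nat_lit 25) (node (nat_lit 4) (nat_lit 125430) (nat_lit 26) (node (nat_lit 6) (nat_lit
  120285) (nat_lit 27) (node (nat_lit 4) (nat_lit 113354) (nat_lit 28) (node (nat_lit 5) (nat_lit
  102682) (nat_lit 29) (node (nat_lit 4) (nat_lit 100296) (nat_lit 30) (node (nat_lit 6) (nat_lit
  103186) (nat_lit 31) (node (nat_lit 5) (nat_lit 97243) (nat_lit 32) (node (nat_lit 4) (nat_lit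
  97618) (nat_lit 33) (node (nat_lit 5) (nat_lit 73469) (nat_lit 34) (node (nat_lit 6) (nat_lit
  71367) (nat_lit 35) nil nil) nil) nil) nil) nil) nil) nil) nil) nil) nil) nil) nil) nil)) (node
  (nat_lit 4) (nat_lit 129378) (nat_lit 22) nil nil)) nil) (node (nat_lit 5) (nat_lit 128713)
  (nat_lit 20) (node (nat_lit 6) (nat_lit 130616) (nat_lit 21) (node (nat_lit 4) (nat_lit 131848)
  (nat_lit 22) (node (nat_lit 6) (nat_lit 131939) (nat_lit 23) nil (node (nat_lit 5) (nat_lit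
  132468) (nat_lit 23) (node (nat_lit 4) (nat_lit 132465) (nat_lit 24) nil nil) nil)) nil) nil)
  (node (nat_lit 0) (nat_lit 130331) (nat_lit 20) nil nil))) (node (nat_lit 0) (nat_lit 131781)
  (nat_lit 19) nil nil)) (node (nat_lit 0) (nat_lit 133313) (nat_lit 18) nil nil)) (node (nat_lit
  0) (nat_lit 134782) (nat_lit 17) nil nil))) (node (nat_lit 0) (nat_lit 139301) (nat_lit 16)
  (node (nat_lit 4) (nat_lit 139301) (nat_lit 17) nil nil) nil)) (node (nat_lit 0) (nat_lit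
  140179) (nat_lit 15) (node (nat_lit 4) (nat_lit 140179) (nat_lit 16) nil (node (nat_lit 5)
  (nat_lit 140179) (nat_lit 16) nil (node (nat_lit 6) (nat_lit 140179) (nat_lit 16) nil nil)))
  nil)) (node (nat_lit 0) (nat_lit 141223) (nat_lit 14) (node (nat_lit 5) (nat_lit 141223)
  (nat_lit 15) nil (node (nat_lit 4) (nat_lit 141223) (nat_lit 15) nil (node (nat_lit 6) (nat_lit
  141223) (nat_lit 15) nil nil))) nil))) (node (nat_lit 0) (nat_lit 140139) (nat_lit 13) (node
  (nat_lit 4) (nat_lit 140139) (nat_lit 14) (node (nat_lit 5) (nat_lit 140139) (nat_lit 15) (node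
  (nat_lit 6) (nat_lit 140139) (nat_lit 16) (node (nat_lit 4) (nat_lit 140139) (nat_lit 17) (node
  (nat_lit 6) (nat_lit 140139) (nat_lit 18) (node (nat_lit 5) (nat_lit 140139) (nat_lit 19) (node
  (nat_lit 4) (nat_lit 140139) (nat_lit 20) (node (nat_lit 6) (nat_lit 141159) (nat_lit 21) (node
  (nat_lit 4) (nat_lit 141954) (nat_lit 22) nil nil) nil) nil) nil) nil) nil) nil) (node (nat_lit
  6) (nat_lit 140139) (nat_lit 15) nil nil)) (node (nat_lit 5) (nat_lit 140139) (nat_lit 14) (node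
  (nat_lit 6) (nat_lit 140139) (nat_lit 15) nil nil) (node (nat_lit 6) (nat_lit 140139) (nat_lit
  14) (node (nat_lit 5) (nat_lit 140139) (nat_lit 15) nil (node (nat_lit 4) (nat_lit 140139)
  (nat_lit 15) nil nil)) nil))) nil))

noncomputable def t64 : Tr :=
  (node (nat_lit 4) (nat_lit 0) (nat_lit 9) (node (nat_lit 5) (nat_lit 0) (nat_lit 10) (node
  (nat_lit 6) (nat_lit 0) (nat_lit 11) t62 (node (nat_lit 4) (nat_lit 0) (nat_lit 11) (node
  (nat_lit 6) (nat_lit 0) (nat_lit 12) t63 (node (nat_lit 0) (nat_lit 137512) (nat_lit 12) (node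
  (nat_lit 5) (nat_lit 137512) (nat_lit 13) (node (nat_lit 4) (nat_lit 137512) (nat_lit 14) (node
  (nat_lit 5) (nat_lit 137512) (nat_lit 15) (node (nat_lit 6) (nat_lit 137512) (nat_lit 16) (node
  (nat_lit 4) (nat_lit 137512) (nat_lit 17) (node (nat_lit 6) (nat_lit 137512) (nat_lit 18) (node
  (nat_lit 5) (nat_lit 137512) (nat_lit 19) (node (nat_lit 4) (nat_lit 137964) (nat_lit 20) (node
  (nat_lit 6) (nat_lit 138973) (nat_lit 21) nil nil) nil) nil) nil) nil) nil) (node (nat_lit 6)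
  (nat_lit 137512) (nat_lit 15) nil nil)) (node (nat_lit 6) (nat_lit 137512) (nat_lit 14) nil
  nil)) (node (nat_lit 6) (nat_lit 137512) (nat_lit 13) (node (nat_lit 5) (nat_lit 137512)
  (nat_lit 14) (node (nat_lit 4) (nat_lit 137512) (nat_lit 15) (node (nat_lit 5) (nat_lit 137512)
  (nat_lit 16) (node (nat_lit 6) (nat_lit 137512) (nat_lit 17) (node (nat_lit 4) (nat_lit 137512)
  (nat_lit 18) (node (nat_lit 6) (nat_lit 137512) (nat_lit 19) (node (nat_lit 5) (nat_lit 139761)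
  (nat_lit 20) nil nil) nil) nil) nil) nil) nil) (node (nat_lit 4) (nat_lit 137512) (nat_lit 14)
  (node (nat_lit 5) (nat_lit 137512) (nat_lit 15) (node (nat_lit 6) (nat_lit 137512) (nat_lit 16)
  (node (nat_lit 4) (nat_lit 137512) (nat_lit 17) (node (nat_lit 6) (nat_lit 137512) (nat_lit 18)
  (node (nat_lit 5) (nat_lit 137331) (nat_lit 19) (node (nat_lit 4) (nat_lit 138583) (nat_lit 20)
  nil nil) nil) nil) nil) nil) nil) nil)) (node (nat_lit 4) (nat_lit 137512) (nat_lit 13) (node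
  (nat_lit 5) (nat_lit 137512) (nat_lit 14) (node (nat_lit 6) (nat_lit 137512) (nat_lit 15) (node
  (nat_lit 4) (nat_lit 137512) (nat_lit 16) (node (nat_lit 6) (nat_lit 137512) (nat_lit 17) (node
  (nat_lit 5) (nat_lit 137512) (nat_lit 18) (node (nat_lit 4) (nat_lit 137512) (nat_lit 19) (node
  (nat_lit 6) (nat_lit 138818) (nat_lit 20) (node (nat_lit 4) (nat_lit 139837) (nat_lit 21) (node
  (nat_lit 5) (nat_lit 140633) (nat_lit 22) nil nil) nil) nil) nil) nil) nil) nil) nil) (node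
  (nat_lit 6) (nat_lit 137512) (nat_lit 14) (node (nat_lit 5) (nat_lit 137512) (nat_lit 15) nil
  nil) nil)) nil))) nil)) (node (nat_lit 0) (nat_lit 0) (nat_lit 11) (node (nat_lit 5) (nat_lit
  134064) (nat_lit 12) (node (nat_lit 4) (nat_lit 134064) (nat_lit 13) (node (nat_lit 6) (nat_lit
  134064) (nat_lit 14) (node (nat_lit 5) (nat_lit 134064) (nat_lit 15) (node (nat_lit 6) (nat_lit
  134064) (nat_lit 16) nil nil) (node (nat_lit 4) (nat_lit 134064) (nat_lit 15) nil nil)) (node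
  (nat_lit 5) (nat_lit 134064) (nat_lit 14) (node (nat_lit 6) (nat_lit 134064) (nat_lit 15) (node
  (nat_lit 4) (nat_lit 134064) (nat_lit 16) (node (nat_lit 6) (nat_lit 134064) (nat_lit 17) (node
  (nat_lit 5) (nat_lit 134064) (nat_lit 18) (node (nat_lit 4) (nat_lit 134644) (nat_lit 19) (node
  (nat_lit 6) (nat_lit 135936) (nat_lit 20) (node (nat_lit 4) (nat_lit 136745) (nat_lit 21) (node
  (nat_lit 5) (nat_lit 137151) (nat_lit 22) nil nil) nil) nil) nil) nil) nil) nil) nil) nil))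
  (node (nat_lit 6) (nat_lit 134064) (nat_lit 13) (node (nat_lit 4) (nat_lit 134064) (nat_lit 14)
  (node (nat_lit 6) (nat_lit 134064) (nat_lit 15) (node (nat_lit 5) (nat_lit 134064) (nat_lit 16)
  nil nil) (node (nat_lit 5) (nat_lit 134064) (nat_lit 15) nil nil)) (node (nat_lit 5) (nat_lit
  134064) (nat_lit 14) (node (nat_lit 4) (nat_lit 134064) (nat_lit 15) (node (nat_lit 6) (nat_lit
  134064) (nat_lit 16) nil nil) nil) nil)) nil)) (node (nat_lit 6) (nat_lit 134064) (nat_lit 12)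
  (node (nat_lit 4) (nat_lit 134064) (nat_lit 13) (node (nat_lit 5) (nat_lit 134064) (nat_lit 14)
  (node (nat_lit 6) (nat_lit 134064) (nat_lit 15) (node (nat_lit 4) (nat_lit 134064) (nat_lit 16)
  (node (nat_lit 6) (nat_lit 134064) (nat_lit 17) (node (nat_lit 5) (nat_lit 133823) (nat_lit 18)
  (node (nat_lit 4) (nat_lit 135422) (nat_lit 19) (node (nat_lit 6) (nat_lit 136660) (nat_lit 20)
  nil nil) nil) nil) nil) nil) nil) (node (nat_lit 6) (nat_lit 134064) (nat_lit 14) (node (nat_lit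
  5) (nat_lit 134064) (nat_lit 15) nil nil) nil)) (node (nat_lit 5) (nat_lit 134064) (nat_lit 13)
  (node (nat_lit 6) (nat_lit 134064) (nat_lit 14) (node (nat_lit 4) (nat_lit 134064) (nat_lit 15)
  (node (nat_lit 6) (nat_lit 134064) (nat_lit 16) nil (node (nat_lit 5) (nat_lit 134064) (nat_lit
  16) nil nil)) nil) (node (nat_lit 4) (nat_lit 134064) (nat_lit 14) nil nil)) nil)) (node
  (nat_lit 4) (nat_lit 134064) (nat_lit 12) (node (nat_lit 5) (nat_lit 134064) (nat_lit 13) (node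
  (nat_lit 4) (nat_lit 134064) (nat_lit 14) (node (nat_lit 6) (nat_lit 134064) (nat_lit 15) (node
  (nat_lit 5) (nat_lit 134064) (nat_lit 16) nil (node (nat_lit 4) (nat_lit 134064) (nat_lit 16)
  nil nil)) nil) (node (nat_lit 6) (nat_lit 134064) (nat_lit 14) (node (nat_lit 4) (nat_lit
  134064) (nat_lit 15) (node (nat_lit 6) (nat_lit 134064) (nat_lit 16) (node (nat_lit 5) (nat_lit
  134064) (nat_lit 17) (node (nat_lit 4) (nat_lit 134064) (nat_lit 18) (node (nat_lit 6) (nat_lit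
  135737) (nat_lit 19) (node (nat_lit 4) (nat_lit 137043) (nat_lit 20) (node (nat_lit 5) (nat_lit
  138062) (nat_lit 21) nil nil) nil) nil) nil) nil) nil) nil) nil)) (node (nat_lit 6) (nat_lit
  134064) (nat_lit 13) (node (nat_lit 5) (nat_lit 134064) (nat_lit 14) (node (nat_lit 6) (nat_lit
  134064) (nat_lit 15) nil nil) (node (nat_lit 4) (nat_lit 134064) (nat_lit 14) (node (nat_lit 5)
  (nat_lit 134064) (nat_lit 15) nil nil) nil)) nil)) (node (nat_lit 0) (nat_lit 135737) (nat_lit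
  12) nil nil)))) nil))) (node (nat_lit 0) (nat_lit 128466) (nat_lit 10) (node (nat_lit 6)
  (nat_lit 128484) (nat_lit 11) (node (nat_lit 5) (nat_lit 128484) (nat_lit 12) (node (nat_lit 4)
  (nat_lit 128484) (nat_lit 13) (node (nat_lit 5) (nat_lit 128484) (nat_lit 14) (node (nat_lit 6)
  (nat_lit 128484) (nat_lit 15) (node (nat_lit 4) (nat_lit 128484) (nat_lit 16) (node (nat_lit 6)
  (nat_lit 128484) (nat_lit 17) (node (nat_lit 5) (nat_lit 132177) (nat_lit 18) (node (nat_lit 4)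
  (nat_lit 132849) (nat_lit 19) (node (nat_lit 6) (nat_lit 134626) (nat_lit 20) (node (nat_lit 4)
  (nat_lit 135763) (nat_lit 21) nil nil) nil) nil) nil) nil) nil) nil) (node (nat_lit 6) (nat_lit
  128484) (nat_lit 14) (node (nat_lit 5) (nat_lit 128484) (nat_lit 15) nil (node (nat_lit 4)
  (nat_lit 128484) (nat_lit 15) nil nil)) nil)) (node (nat_lit 6) (nat_lit 128484) (nat_lit 13)
  (node (nat_lit 4) (nat_lit 128484) (nat_lit 14) (node (nat_lit 6) (nat_lit 128484) (nat_lit 15)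
  (node (nat_lit 5) (nat_lit 128484) (nat_lit 16) (node (nat_lit 4) (nat_lit 128484) (nat_lit 17)
  nil nil) nil) (node (nat_lit 5) (nat_lit 128484) (nat_lit 15) nil nil)) nil) nil)) (node
  (nat_lit 4) (nat_lit 128749) (nat_lit 12) (node (nat_lit 5) (nat_lit 129052) (nat_lit 13) (node
  (nat_lit 6) (nat_lit 129200) (nat_lit 14) (node (nat_lit 4) (nat_lit 129200) (nat_lit 15) (node
  (nat_lit 6) (nat_lit 129200) (nat_lit 16) (node (nat_lit 5) (nat_lit 128879) (nat_lit 17) (node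
  (nat_lit 4) (nat_lit 130936) (nat_lit 18) (node (nat_lit 6) (nat_lit 132558) (nat_lit 19) nil
  nil) nil) nil) nil) nil) (node (nat_lit 4) (nat_lit 129052) (nat_lit 14) nil nil)) (node
  (nat_lit 6) (nat_lit 128871) (nat_lit 13) (node (nat_lit 5) (nat_lit 128877) (nat_lit 14) (node
  (nat_lit 4) (nat_lit 128877) (nat_lit 15) (node (nat_lit 5) (nat_lit 128877) (nat_lit 16) nil
  nil) (node (nat_lit 6) (nat_lit 128877) (nat_lit 15) nil nil)) nil) nil)) (node (nat_lit 13)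
  (nat_lit 136159) (nat_lit 12) (node (nat_lit 4) (nat_lit 136159) (nat_lit 13) (node (nat_lit 6)
  (nat_lit 136159) (nat_lit 14) (node (nat_lit 4) (nat_lit 136159) (nat_lit 15) (node (nat_lit 5)
  (nat_lit 136159) (nat_lit 16) (node (nat_lit 6) (nat_lit 136159) (nat_lit 17) (node (nat_lit 4)
  (nat_lit 136159) (nat_lit 18) (node (nat_lit 6) (nat_lit 136346) (nat_lit 19) (node (nat_lit 5)
  (nat_lit 137515) (nat_lit 20) nil nil) nil) nil) nil) nil) nil) nil) nil) nil))) (node (nat_lit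
  5) (nat_lit 128487) (nat_lit 11) (node (nat_lit 4) (nat_lit 128487) (nat_lit 12) (node (nat_lit
  5) (nat_lit 128487) (nat_lit 13) (node (nat_lit 6) (nat_lit 128487) (nat_lit 14) (node (nat_lit
  4) (nat_lit 128487) (nat_lit 15) (node (nat_lit 6) (nat_lit 128487) (nat_lit 16) (node (nat_lit
  5) (nat_lit 128487) (nat_lit 17) (node (nat_lit 4) (nat_lit 129232) (nat_lit 18) (node (nat_lit
  6) (nat_lit 130887) (nat_lit 19) (node (nat_lit 4) (nat_lit 132273) (nat_lit 20) nil nil) nil)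
  nil) nil) nil) (node (nat_lit 5) (nat_lit 128487) (nat_lit 15) nil nil)) nil) (node (nat_lit 6)
  (nat_lit 128487) (nat_lit 13) (node (nat_lit 4) (nat_lit 128487) (nat_lit 14) (node (nat_lit 5)
  (nat_lit 128487) (nat_lit 15) (node (nat_lit 6) (nat_lit 128487) (nat_lit 16) (node (nat_lit 4)
  (nat_lit 128794) (nat_lit 17) (node (nat_lit 6) (nat_lit 129355) (nat_lit 18) nil nil) nil) nil)
  nil) (node (nat_lit 5) (nat_lit 128487) (nat_lit 14) nil nil)) nil)) (node (nat_lit 6) (nat_lit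
  128487) (nat_lit 12) (node (nat_lit 4) (nat_lit 128487) (nat_lit 13) (node (nat_lit 5) (nat_lit
  128487) (nat_lit 14) nil (node (nat_lit 6) (nat_lit 128487) (nat_lit 14) nil nil)) (node
  (nat_lit 5) (nat_lit 128487) (nat_lit 13) (node (nat_lit 4) (nat_lit 128487) (nat_lit 14) (node
  (nat_lit 6) (nat_lit 128487) (nat_lit 15) nil (node (nat_lit 5) (nat_lit 128487) (nat_lit 15)
  nil nil)) nil) nil)) (node (nat_lit 13) (nat_lit 133646) (nat_lit 12) nil nil))) (node (nat_lit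
  4) (nat_lit 128487) (nat_lit 11) (node (nat_lit 6) (nat_lit 128789) (nat_lit 12) (node (nat_lit
  5) (nat_lit 128789) (nat_lit 13) (node (nat_lit 6) (nat_lit 128789) (nat_lit 14) (node (nat_lit
  4) (nat_lit 128789) (nat_lit 15) nil nil) (node (nat_lit 4) (nat_lit 128789) (nat_lit 14) nil
  nil)) (node (nat_lit 4) (nat_lit 128789) (nat_lit 13) (node (nat_lit 5) (nat_lit 128789)
  (nat_lit 14) (node (nat_lit 6) (nat_lit 128789) (nat_lit 15) (node (nat_lit 4) (nat_lit 128789)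
  (nat_lit 16) (node (nat_lit 6) (nat_lit 129096) (nat_lit 17) (node (nat_lit 5) (nat_lit 130998)
  (nat_lit 18) (node (nat_lit 4) (nat_lit 132598) (nat_lit 19) nil nil) nil) nil) nil) nil) nil)
  nil)) (node (nat_lit 5) (nat_lit 128688) (nat_lit 12) (node (nat_lit 6) (nat_lit 128836)
  (nat_lit 13) (node (nat_lit 4) (nat_lit 128836) (nat_lit 14) (node (nat_lit 6) (nat_lit 128836)
  (nat_lit 15) (node (nat_lit 5) (nat_lit 128836) (nat_lit 16) (node (nat_lit 4) (nat_lit 128836)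
  (nat_lit 17) (node (nat_lit 6) (nat_lit 130979) (nat_lit 18) (node (nat_lit 4) (nat_lit 132652)
  (nat_lit 19) nil nil) nil) nil) nil) nil) (node (nat_lit 5) (nat_lit 128836) (nat_lit 14) nil
  nil)) (node (nat_lit 4) (nat_lit 128688) (nat_lit 13) (node (nat_lit 6) (nat_lit 128688)
  (nat_lit 14) nil nil) nil)) nil)) (node (nat_lit 0) (nat_lit 133325) (nat_lit 11) nil nil))))
  nil)) (node (nat_lit 0) (nat_lit 0) (nat_lit 9) (node (nat_lit 4) (nat_lit 126225) (nat_lit 10)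
  (node (nat_lit 6) (nat_lit 126984) (nat_lit 11) (node (nat_lit 5) (nat_lit 126874) (nat_lit 12)
  (node (nat_lit 6) (nat_lit 126874) (nat_lit 13) (node (nat_lit 4) (nat_lit 126874) (nat_lit 14)
  (node (nat_lit 6) (nat_lit 126874) (nat_lit 15) nil (node (nat_lit 5) (nat_lit 126874) (nat_lit
  15) nil nil)) nil) (node (nat_lit 4) (nat_lit 126874) (nat_lit 13) (node (nat_lit 5) (nat_lit
  126874) (nat_lit 14) (node (nat_lit 6) (nat_lit 126874) (nat_lit 15) (node (nat_lit 4) (nat_lit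
  126874) (nat_lit 16) (node (nat_lit 6) (nat_lit 131950) (nat_lit 17) (node (nat_lit 5) (nat_lit
  135913) (nat_lit 18) nil nil) nil) nil) nil) nil) nil)) (node (nat_lit 4) (nat_lit 127502)
  (nat_lit 12) (node (nat_lit 5) (nat_lit 128164) (nat_lit 13) (node (nat_lit 6) (nat_lit 128164)
  (nat_lit 14) (node (nat_lit 4) (nat_lit 128164) (nat_lit 15) (node (nat_lit 6) (nat_lit 128556)
  (nat_lit 16) (node (nat_lit 5) (nat_lit 130983) (nat_lit 17) (node (nat_lit 4) (nat_lit 133039)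
  (nat_lit 18) nil nil) nil) nil) nil) nil) nil) nil)) (node (nat_lit 5) (nat_lit 126771) (nat_lit
  11) (node (nat_lit 6) (nat_lit 126771) (nat_lit 12) (node (nat_lit 4) (nat_lit 126771) (nat_lit
  13) (node (nat_lit 6) (nat_lit 126771) (nat_lit 14) (node (nat_lit 5) (nat_lit 126771) (nat_lit
  15) (node (nat_lit 4) (nat_lit 126771) (nat_lit 16) (node (nat_lit 6) (nat_lit 129518) (nat_lit
  17) nil nil) (node (nat_lit 6) (nat_lit 126771) (nat_lit 16) nil nil)) nil) nil) (node (nat_lit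
  5) (nat_lit 126771) (nat_lit 13) (node (nat_lit 4) (nat_lit 126771) (nat_lit 14) (node (nat_lit
  6) (nat_lit 126771) (nat_lit 15) nil nil) nil) nil)) (node (nat_lit 4) (nat_lit 126771) (nat_lit
  12) (node (nat_lit 6) (nat_lit 126771) (nat_lit 13) (node (nat_lit 4) (nat_lit 126771) (nat_lit
  14) (node (nat_lit 5) (nat_lit 126771) (nat_lit 15) (node (nat_lit 6) (nat_lit 127164) (nat_lit
  16) (node (nat_lit 4) (nat_lit 130218) (nat_lit 17) (node (nat_lit 6) (nat_lit 130778) (nat_lit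
  18) (node (nat_lit 5) (nat_lit 131715) (nat_lit 19) (node (nat_lit 4) (nat_lit 132207) (nat_lit
  20) (node (nat_lit 6) (nat_lit 133264) (nat_lit 21) nil nil) nil) nil) nil) nil) nil) nil) nil)
  nil) nil)) (node (nat_lit 12) (nat_lit 138643) (nat_lit 11) nil nil))) (node (nat_lit 6)
  (nat_lit 125966) (nat_lit 10) (node (nat_lit 5) (nat_lit 126738) (nat_lit 11) (node (nat_lit 4)
  (nat_lit 127680) (nat_lit 12) (node (nat_lit 5) (nat_lit 127918) (nat_lit 13) (node (nat_lit 6)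
  (nat_lit 127976) (nat_lit 14) (node (nat_lit 4) (nat_lit 127976) (nat_lit 15) (node (nat_lit 6)
  (nat_lit 127976) (nat_lit 16) (node (nat_lit 5) (nat_lit 132707) (nat_lit 17) (node (nat_lit 4)
  (nat_lit 133570) (nat_lit 18) (node (nat_lit 6) (nat_lit 136227) (nat_lit 19) nil nil) nil) nil)
  nil) (node (nat_lit 5) (nat_lit 127976) (nat_lit 15) nil nil)) nil) (node (nat_lit 6) (nat_lit
  128121) (nat_lit 13) (node (nat_lit 4) (nat_lit 128661) (nat_lit 14) (node (nat_lit 5) (nat_lit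
  128661) (nat_lit 15) (node (nat_lit 6) (nat_lit 129053) (nat_lit 16) (node (nat_lit 4) (nat_lit
  132108) (nat_lit 17) (node (nat_lit 6) (nat_lit 132668) (nat_lit 18) nil nil) nil) nil) nil)
  nil) nil)) (node (nat_lit 6) (nat_lit 126928) (nat_lit 12) nil nil)) (node (nat_lit 4) (nat_lit
  126589) (nat_lit 11) (node (nat_lit 5) (nat_lit 127585) (nat_lit 12) (node (nat_lit 4) (nat_lit
  127585) (nat_lit 13) (node (nat_lit 6) (nat_lit 127585) (nat_lit 14) nil nil) (node (nat_lit 6)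
  (nat_lit 127965) (nat_lit 13) (node (nat_lit 4) (nat_lit 127965) (nat_lit 14) (node (nat_lit 6)
  (nat_lit 127965) (nat_lit 15) (node (nat_lit 5) (nat_lit 127548) (nat_lit 16) (node (nat_lit 4)
  (nat_lit 130220) (nat_lit 17) nil nil) nil) nil) (node (nat_lit 5) (nat_lit 127965) (nat_lit 14)
  nil nil)) nil)) (node (nat_lit 6) (nat_lit 126773) (nat_lit 12) nil nil)) nil)) (node (nat_lit
  5) (nat_lit 126253) (nat_lit 10) (node (nat_lit 4) (nat_lit 126757) (nat_lit 11) (node (nat_lit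
  6) (nat_lit 126615) (nat_lit 12) (node (nat_lit 5) (nat_lit 126850) (nat_lit 13) (node (nat_lit
  4) (nat_lit 126850) (nat_lit 14) (node (nat_lit 5) (nat_lit 126850) (nat_lit 15) (node (nat_lit
  6) (nat_lit 126850) (nat_lit 16) (node (nat_lit 4) (nat_lit 131926) (nat_lit 17) (node (nat_lit
  6) (nat_lit 135888) (nat_lit 18) nil nil) nil) nil) nil) (node (nat_lit 6) (nat_lit 126850)
  (nat_lit 14) nil nil)) (node (nat_lit 4) (nat_lit 126615) (nat_lit 13) (node (nat_lit 5)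
  (nat_lit 126615) (nat_lit 14) (node (nat_lit 6) (nat_lit 126615) (nat_lit 15) (node (nat_lit 4)
  (nat_lit 127007) (nat_lit 16) (node (nat_lit 6) (nat_lit 127727) (nat_lit 17) (node (nat_lit 5)
  (nat_lit 128917) (nat_lit 18) nil nil) nil) nil) nil) nil) nil)) (node (nat_lit 5) (nat_lit
  126993) (nat_lit 12) (node (nat_lit 6) (nat_lit 126993) (nat_lit 13) (node (nat_lit 4) (nat_lit
  126993) (nat_lit 14) (node (nat_lit 6) (nat_lit 126993) (nat_lit 15) (node (nat_lit 5) (nat_lit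
  126993) (nat_lit 16) (node (nat_lit 4) (nat_lit 127947) (nat_lit 17) (node (nat_lit 6) (nat_lit
  130556) (nat_lit 18) nil nil) nil) nil) nil) nil) nil) nil)) (node (nat_lit 6) (nat_lit 126581)
  (nat_lit 11) (node (nat_lit 4) (nat_lit 126581) (nat_lit 12) (node (nat_lit 6) (nat_lit 126581)
  (nat_lit 13) (node (nat_lit 5) (nat_lit 126581) (nat_lit 14) (node (nat_lit 4) (nat_lit 126581)
  (nat_lit 15) nil nil) nil) (node (nat_lit 5) (nat_lit 126581) (nat_lit 13) nil nil)) (node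
  (nat_lit 5) (nat_lit 126771) (nat_lit 12) nil nil)) (node (nat_lit 12) (nat_lit 137683) (nat_lit
  11) nil nil))) (node (nat_lit 0) (nat_lit 134143) (nat_lit 10) nil nil)))) nil))

noncomputable def t65 : Tr :=
  (node (nat_lit 4) (nat_lit 0) (nat_lit 13) (node (nat_lit 5) (nat_lit 0) (nat_lit 14) (node
  (nat_lit 6) (nat_lit 0) (nat_lit 15) (node (nat_lit 5) (nat_lit 0) (nat_lit 16) (node (nat_lit
  4) (nat_lit 0) (nat_lit 17) (node (nat_lit 6) (nat_lit 0) (nat_lit 18) (node (nat_lit 4)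
  (nat_lit 0) (nat_lit 19) (node (nat_lit 5) (nat_lit 0) (nat_lit 20) (node (nat_lit 6) (nat_lit
  0) (nat_lit 21) (node (nat_lit 4) (nat_lit 0) (nat_lit 22) (node (nat_lit 6) (nat_lit 158977)
  (nat_lit 23) (node (nat_lit 5) (nat_lit 158393) (nat_lit 24) (node (nat_lit 6) (nat_lit 153917)
  (nat_lit 25) (node (nat_lit 4) (nat_lit 150032) (nat_lit 26) (node (nat_lit 5) (nat_lit 150665)
  (nat_lit 27) (node (nat_lit 4) (nat_lit 139206) (nat_lit 28) (node (nat_lit 6) (nat_lit 139252)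
  (nat_lit 29) (node (nat_lit 5) (nat_lit 130531) (nat_lit 30) (node (nat_lit 4) (nat_lit 116981)
  (nat_lit 31) (node (nat_lit 5) (nat_lit 92851) (nat_lit 32) (node (nat_lit 6) (nat_lit 90413)
  (nat_lit 33) (node (nat_lit 5) (nat_lit 90408) (nat_lit 34) nil nil) nil) nil) nil) nil) nil)
  nil) nil) nil) (node (nat_lit 4) (nat_lit 158614) (nat_lit 25) (node (nat_lit 5) (nat_lit
  158982) (nat_lit 26) (node (nat_lit 6) (nat_lit 159039) (nat_lit 27) nil nil) nil) nil)) nil)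
  (node (nat_lit 0) (nat_lit 163854) (nat_lit 23) nil nil)) (node (nat_lit 5) (nat_lit 0) (nat_lit
  22) (node (nat_lit 4) (nat_lit 162307) (nat_lit 23) (node (nat_lit 5) (nat_lit 162943) (nat_lit
  24) (node (nat_lit 6) (nat_lit 163105) (nat_lit 25) (node (nat_lit 4) (nat_lit 163391) (nat_lit
  26) (node (nat_lit 6) (nat_lit 163152) (nat_lit 27) (node (nat_lit 5) (nat_lit 162701) (nat_lit
  28) (node (nat_lit 6) (nat_lit 162142) (nat_lit 29) (node (nat_lit 4) (nat_lit 160490) (nat_lit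
  30) (node (nat_lit 5) (nat_lit 157663) (nat_lit 31) (node (nat_lit 4) (nat_lit 154035) (nat_lit
  32) (node (nat_lit 6) (nat_lit 149260) (nat_lit 33) (node (nat_lit 5) (nat_lit 140475) (nat_lit
  34) (node (nat_lit 4) (nat_lit 144695) (nat_lit 35) (node (nat_lit 5) (nat_lit 140058) (nat_lit
  36) (node (nat_lit 6) (nat_lit 134876) (nat_lit 37) nil nil) nil) nil) nil) nil) nil) nil) nil)
  nil) nil) nil) nil) nil) nil) (node (nat_lit 0) (nat_lit 164507) (nat_lit 23) nil nil)) (node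
  (nat_lit 0) (nat_lit 164781) (nat_lit 22) nil nil))) (node (nat_lit 4) (nat_lit 161426) (nat_lit
  21) (node (nat_lit 6) (nat_lit 163068) (nat_lit 22) (node (nat_lit 5) (nat_lit 163845) (nat_lit
  23) (node (nat_lit 4) (nat_lit 164381) (nat_lit 24) (node (nat_lit 5) (nat_lit 164858) (nat_lit
  25) (node (nat_lit 6) (nat_lit 164961) (nat_lit 26) (node (nat_lit 4) (nat_lit 165249) (nat_lit
  27) (node (nat_lit 6) (nat_lit 165146) (nat_lit 28) (node (nat_lit 5) (nat_lit 164712) (nat_lit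
  29) (node (nat_lit 6) (nat_lit 164483) (nat_lit 30) (node (nat_lit 4) (nat_lit 162086) (nat_lit
  31) (node (nat_lit 5) (nat_lit 160115) (nat_lit 32) (node (nat_lit 4) (nat_lit 159274) (nat_lit
  33) (node (nat_lit 6) (nat_lit 155420) (nat_lit 34) (node (nat_lit 5) (nat_lit 149325) (nat_lit
  35) (node (nat_lit 4) (nat_lit 145418) (nat_lit 36) (node (nat_lit 5) (nat_lit 140768) (nat_lit
  37) (node (nat_lit 6) (nat_lit 137768) (nat_lit 38) (node (nat_lit 5) (nat_lit 138252) (nat_lit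
  39) (node (nat_lit 4) (nat_lit 124105) (nat_lit 40) nil nil) nil) nil) nil) nil) nil) nil) nil)
  nil) nil) nil) nil) nil) nil) nil) nil) nil) nil) nil) (node (nat_lit 0) (nat_lit 166098)
  (nat_lit 21) nil nil))) (node (nat_lit 0) (nat_lit 167024) (nat_lit 20) nil nil)) (node (nat_lit
  5) (nat_lit 0) (nat_lit 19) (node (nat_lit 6) (nat_lit 0) (nat_lit 20) (node (nat_lit 4)
  (nat_lit 162991) (nat_lit 21) (node (nat_lit 6) (nat_lit 164373) (nat_lit 22) (node (nat_lit 5)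
  (nat_lit 165150) (nat_lit 23) (node (nat_lit 4) (nat_lit 165198) (nat_lit 24) (node (nat_lit 5)
  (nat_lit 165675) (nat_lit 25) (node (nat_lit 6) (nat_lit 165778) (nat_lit 26) (node (nat_lit 4)
  (nat_lit 166066) (nat_lit 27) (node (nat_lit 6) (nat_lit 165963) (nat_lit 28) (node (nat_lit 5)
  (nat_lit 165565) (nat_lit 29) (node (nat_lit 6) (nat_lit 165309) (nat_lit 30) (node (nat_lit 4)
  (nat_lit 163560) (nat_lit 31) (node (nat_lit 5) (nat_lit 160806) (nat_lit 32) (node (nat_lit 4)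
  (nat_lit 157754) (nat_lit 33) (node (nat_lit 6) (nat_lit 156238) (nat_lit 34) (node (nat_lit 5)
  (nat_lit 150143) (nat_lit 35) (node (nat_lit 4) (nat_lit 146235) (nat_lit 36) (node (nat_lit 5)
  (nat_lit 141558) (nat_lit 37) (node (nat_lit 6) (nat_lit 141976) (nat_lit 38) (node (nat_lit 5)
  (nat_lit 136799) (nat_lit 39) (node (nat_lit 4) (nat_lit 137398) (nat_lit 40) (node (nat_lit 6)
  (nat_lit 119281) (nat_lit 41) (node (nat_lit 5) (nat_lit 75808) (nat_lit 42) (node (nat_lit 6)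
  (nat_lit 75811) (nat_lit 43) (node (nat_lit 4) (nat_lit 75812) (nat_lit 44) nil nil) nil) nil)
  nil) nil) nil) nil) nil) nil) nil) nil) nil) nil) nil) nil) nil) nil) nil) nil) nil) nil) nil)
  (node (nat_lit 5) (nat_lit 164346) (nat_lit 22) (node (nat_lit 6) (nat_lit 165425) (nat_lit 23)
  (node (nat_lit 5) (nat_lit 165110) (nat_lit 24) (node (nat_lit 4) (nat_lit 164895) (nat_lit 25)
  nil nil) nil) (node (nat_lit 4) (nat_lit 164352) (nat_lit 23) (node (nat_lit 6) (nat_lit 163623)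
  (nat_lit 24) nil nil) nil)) nil)) (node (nat_lit 0) (nat_lit 165278) (nat_lit 21) nil nil))
  (node (nat_lit 0) (nat_lit 165650) (nat_lit 20) nil nil)) (node (nat_lit 0) (nat_lit 166331)
  (nat_lit 19) nil nil))) (node (nat_lit 0) (nat_lit 168434) (nat_lit 18) nil nil)) (node (nat_lit
  0) (nat_lit 167801) (nat_lit 17) nil nil)) (node (nat_lit 4) (nat_lit 0) (nat_lit 16) (node
  (nat_lit 5) (nat_lit 0) (nat_lit 17) (node (nat_lit 4) (nat_lit 0) (nat_lit 18) (node (nat_lit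
  6) (nat_lit 0) (nat_lit 19) (node (nat_lit 4) (nat_lit 157692) (nat_lit 20) (node (nat_lit 5)
  (nat_lit 159026) (nat_lit 21) (node (nat_lit 6) (nat_lit 159514) (nat_lit 22) (node (nat_lit 5)
  (nat_lit 160290) (nat_lit 23) (node (nat_lit 4) (nat_lit 160339) (nat_lit 24) (node (nat_lit 5)
  (nat_lit 160816) (nat_lit 25) (node (nat_lit 6) (nat_lit 160918) (nat_lit 26) (node (nat_lit 4)
  (nat_lit 161207) (nat_lit 27) (node (nat_lit 6) (nat_lit 161104) (nat_lit 28) (node (nat_lit 5)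
  (nat_lit 160706) (nat_lit 29) (node (nat_lit 6) (nat_lit 160450) (nat_lit 30) (node (nat_lit 4)
  (nat_lit 159410) (nat_lit 31) (node (nat_lit 5) (nat_lit 157890) (nat_lit 32) (node (nat_lit 4)
  (nat_lit 155677) (nat_lit 33) (node (nat_lit 6) (nat_lit 151378) (nat_lit 34) (node (nat_lit 5)
  (nat_lit 145801) (nat_lit 35) (node (nat_lit 4) (nat_lit 137418) (nat_lit 36) (node (nat_lit 5)
  (nat_lit 135495) (nat_lit 37) (node (nat_lit 6) (nat_lit 129105) (nat_lit 38) nil nil) nil) nil)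
  nil) nil) nil) nil) nil) nil) nil) nil) nil) nil) nil) nil) (node (nat_lit 4) (nat_lit 159041)
  (nat_lit 23) (node (nat_lit 6) (nat_lit 156148) (nat_lit 24) (node (nat_lit 5) (nat_lit 153505)
  (nat_lit 25) (node (nat_lit 6) (nat_lit 151623) (nat_lit 26) (node (nat_lit 4) (nat_lit 149747)
  (nat_lit 27) (node (nat_lit 5) (nat_lit 145737) (nat_lit 28) (node (nat_lit 4) (nat_lit 137409)
  (nat_lit 29) (node (nat_lit 6) (nat_lit 131041) (nat_lit 30) (node (nat_lit 5) (nat_lit 125098)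
  (nat_lit 31) (node (nat_lit 4) (nat_lit 123906) (nat_lit 32) (node (nat_lit 5) (nat_lit 114814)
  (nat_lit 33) (node (nat_lit 6) (nat_lit 115247) (nat_lit 34) (node (nat_lit 4) (nat_lit 83995)
  (nat_lit 35) nil nil) nil) nil) nil) nil) nil) nil) nil) nil) nil) nil) nil) nil)) nil) nil)
  (node (nat_lit 5) (nat_lit 0) (nat_lit 20) (node (nat_lit 6) (nat_lit 159848) (nat_lit 21) (node
  (nat_lit 4) (nat_lit 160643) (nat_lit 22) (node (nat_lit 5) (nat_lit 161264) (nat_lit 23) nil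
  (node (nat_lit 6) (nat_lit 160735) (nat_lit 23) nil nil)) nil) (node (nat_lit 0) (nat_lit
  161981) (nat_lit 21) nil nil)) (node (nat_lit 0) (nat_lit 163704) (nat_lit 20) nil nil))) (node
  (nat_lit 0) (nat_lit 166351) (nat_lit 19) nil nil)) (node (nat_lit 0) (nat_lit 160868) (nat_lit
  18) nil nil)) (node (nat_lit 6) (nat_lit 0) (nat_lit 17) (node (nat_lit 5) (nat_lit 0) (nat_lit
  18) (node (nat_lit 4) (nat_lit 0) (nat_lit 19) (node (nat_lit 6) (nat_lit 0) (nat_lit 20) (node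
  (nat_lit 4) (nat_lit 134986) (nat_lit 21) (node (nat_lit 5) (nat_lit 136346) (nat_lit 22) (node
  (nat_lit 6) (nat_lit 135735) (nat_lit 23) (node (nat_lit 4) (nat_lit 136417) (nat_lit 24) (node
  (nat_lit 6) (nat_lit 134442) (nat_lit 25) (node (nat_lit 5) (nat_lit 132435) (nat_lit 26) (node
  (nat_lit 6) (nat_lit 130944) (nat_lit 27) (node (nat_lit 4) (nat_lit 129504) (nat_lit 28) (node
  (nat_lit 5) (nat_lit 127680) (nat_lit 29) (node (nat_lit 4) (nat_lit 121375) (nat_lit 30) (node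
  (nat_lit 6) (nat_lit 116343) (nat_lit 31) (node (nat_lit 5) (nat_lit 110052) (nat_lit 32) (node
  (nat_lit 4) (nat_lit 106567) (nat_lit 33) (node (nat_lit 5) (nat_lit 107200) (nat_lit 34) (node
  (nat_lit 6) (nat_lit 88284) (nat_lit 35) nil nil) nil) nil) nil) nil) nil) nil) nil) nil) nil)
  nil) (node (nat_lit 5) (nat_lit 135298) (nat_lit 24) nil nil)) (node (nat_lit 4) (nat_lit
  136486) (nat_lit 23) (node (nat_lit 6) (nat_lit 135757) (nat_lit 24) nil nil) nil)) nil) (node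
  (nat_lit 0) (nat_lit 137274) (nat_lit 21) nil nil)) (node (nat_lit 5) (nat_lit 0) (nat_lit 20)
  (node (nat_lit 0) (nat_lit 137104) (nat_lit 21) nil nil) (node (nat_lit 0) (nat_lit 141821)
  (nat_lit 20) nil nil))) (node (nat_lit 6) (nat_lit 0) (nat_lit 19) (node (nat_lit 4) (nat_lit 0)
  (nat_lit 20) (node (nat_lit 5) (nat_lit 116232) (nat_lit 21) (node (nat_lit 6) (nat_lit 117749)
  (nat_lit 22) (node (nat_lit 5) (nat_lit 118701) (nat_lit 23) (node (nat_lit 4) (nat_lit 118977)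
  (nat_lit 24) (node (nat_lit 5) (nat_lit 119560) (nat_lit 25) (node (nat_lit 6) (nat_lit 119771)
  (nat_lit 26) (node (nat_lit 4) (nat_lit 119907) (nat_lit 27) (node (nat_lit 6) (nat_lit 119565)
  (nat_lit 28) (node (nat_lit 5) (nat_lit 118727) (nat_lit 29) (node (nat_lit 6) (nat_lit 117565)
  (nat_lit 30) (node (nat_lit 4) (nat_lit 115634) (nat_lit 31) nil nil) nil) nil) nil) nil) nil)
  nil) nil) nil) (node (nat_lit 4) (nat_lit 75181) (nat_lit 22) (node (nat_lit 6) (nat_lit 75882)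
  (nat_lit 23) (node (nat_lit 4) (nat_lit 76381) (nat_lit 24) (node (nat_lit 5) (nat_lit 76750)
  (nat_lit 25) (node (nat_lit 6) (nat_lit 76867) (nat_lit 26) nil nil) nil) nil) nil) nil)) (node
  (nat_lit 0) (nat_lit 120948) (nat_lit 21) nil nil)) (node (nat_lit 0) (nat_lit 123987) (nat_lit
  20) nil nil)) (node (nat_lit 0) (nat_lit 141967) (nat_lit 19) nil nil))) (node (nat_lit 0)
  (nat_lit 151681) (nat_lit 18) nil nil)) (node (nat_lit 0) (nat_lit 166561) (nat_lit 17) nil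
  nil))) (node (nat_lit 0) (nat_lit 169546) (nat_lit 16) (node (nat_lit 6) (nat_lit 169546)
  (nat_lit 17) nil (node (nat_lit 5) (nat_lit 169546) (nat_lit 17) nil (node (nat_lit 4) (nat_lit
  169546) (nat_lit 17) nil nil))) nil))) (node (nat_lit 0) (nat_lit 172371) (nat_lit 15) (node
  (nat_lit 4) (nat_lit 172371) (nat_lit 16) (node (nat_lit 5) (nat_lit 172371) (nat_lit 17) (node
  (nat_lit 6) (nat_lit 172371) (nat_lit 18) (node (nat_lit 4) (nat_lit 172371) (nat_lit 19) (node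
  (nat_lit 6) (nat_lit 172371) (nat_lit 20) (node (nat_lit 5) (nat_lit 172371) (nat_lit 21) (node
  (nat_lit 6) (nat_lit 172371) (nat_lit 22) (node (nat_lit 4) (nat_lit 172991) (nat_lit 23) (node
  (nat_lit 5) (nat_lit 173476) (nat_lit 24) nil nil) nil) nil) nil) nil) nil) nil) (node (nat_lit
  6) (nat_lit 172371) (nat_lit 17) nil nil)) (node (nat_lit 5) (nat_lit 172371) (nat_lit 16) (node
  (nat_lit 4) (nat_lit 172371) (nat_lit 17) nil (node (nat_lit 6) (nat_lit 172371) (nat_lit 17)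
  nil nil)) (node (nat_lit 6) (nat_lit 172371) (nat_lit 16) (node (nat_lit 5) (nat_lit 172371)
  (nat_lit 17) nil (node (nat_lit 4) (nat_lit 172371) (nat_lit 17) nil nil)) nil))) nil)) (node
  (nat_lit 0) (nat_lit 171199) (nat_lit 14) (node (nat_lit 5) (nat_lit 171199) (nat_lit 15) (node
  (nat_lit 6) (nat_lit 171199) (nat_lit 16) (node (nat_lit 4) (nat_lit 171199) (nat_lit 17) nil
  nil) (node (nat_lit 4) (nat_lit 171199) (nat_lit 16) (node (nat_lit 6) (nat_lit 171199) (nat_lit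
  17) nil (node (nat_lit 5) (nat_lit 171199) (nat_lit 17) nil nil)) nil)) (node (nat_lit 4)
  (nat_lit 171199) (nat_lit 15) (node (nat_lit 6) (nat_lit 171199) (nat_lit 16) (node (nat_lit 5)
  (nat_lit 171199) (nat_lit 17) nil nil) (node (nat_lit 5) (nat_lit 171199) (nat_lit 16) (node
  (nat_lit 6) (nat_lit 171199) (nat_lit 17) nil nil) nil)) (node (nat_lit 6) (nat_lit 171199)
  (nat_lit 15) (node (nat_lit 5) (nat_lit 171199) (nat_lit 16) (node (nat_lit 4) (nat_lit 171199)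
  (nat_lit 17) nil nil) (node (nat_lit 4) (nat_lit 171199) (nat_lit 16) nil nil)) (node (nat_lit
  0) (nat_lit 171994) (nat_lit 15) nil nil)))) nil)) (node (nat_lit 6) (nat_lit 0) (nat_lit 13)
  (node (nat_lit 4) (nat_lit 0) (nat_lit 14) (node (nat_lit 6) (nat_lit 0) (nat_lit 15) (node
  (nat_lit 5) (nat_lit 0) (nat_lit 16) (node (nat_lit 4) (nat_lit 0) (nat_lit 17) (node (nat_lit
  6) (nat_lit 0) (nat_lit 18) (node (nat_lit 4) (nat_lit 0) (nat_lit 19) (node (nat_lit 5)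
  (nat_lit 0) (nat_lit 20) (node (nat_lit 6) (nat_lit 164660) (nat_lit 21) (node (nat_lit 5)
  (nat_lit 166207) (nat_lit 22) (node (nat_lit 4) (nat_lit 166504) (nat_lit 23) (node (nat_lit 5)
  (nat_lit 167225) (nat_lit 24) (node (nat_lit 6) (nat_lit 167068) (nat_lit 25) (node (nat_lit 4)
  (nat_lit 166828) (nat_lit 26) (node (nat_lit 6) (nat_lit 165653) (nat_lit 27) (node (nat_lit 5)
  (nat_lit 165579) (nat_lit 28) (node (nat_lit 6) (nat_lit 166034) (nat_lit 29) (node (nat_lit 4)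
  (nat_lit 164551) (nat_lit 30) (node (nat_lit 5) (nat_lit 162666) (nat_lit 31) (node (nat_lit 4)
  (nat_lit 158938) (nat_lit 32) (node (nat_lit 6) (nat_lit 152104) (nat_lit 33) (node (nat_lit 5)
  (nat_lit 148026) (nat_lit 34) (node (nat_lit 6) (nat_lit 142248) (nat_lit 35) (node (nat_lit 4)
  (nat_lit 142293) (nat_lit 36) (node (nat_lit 6) (nat_lit 138415) (nat_lit 37) nil nil) nil) nil)
  nil) nil) nil) nil) nil) nil) nil) nil) nil) nil) (node (nat_lit 6) (nat_lit 166813) (nat_lit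
  24) nil nil)) nil) (node (nat_lit 4) (nat_lit 164869) (nat_lit 22) (node (nat_lit 6) (nat_lit
  162572) (nat_lit 23) (node (nat_lit 5) (nat_lit 161761) (nat_lit 24) (node (nat_lit 6) (nat_lit
  150309) (nat_lit 25) (node (nat_lit 4) (nat_lit 149809) (nat_lit 26) (node (nat_lit 5) (nat_lit
  150188) (nat_lit 27) (node (nat_lit 4) (nat_lit 150447) (nat_lit 28) (node (nat_lit 6) (nat_lit
  145512) (nat_lit 29) (node (nat_lit 5) (nat_lit 116660) (nat_lit 30) (node (nat_lit 6) (nat_lit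
  97909) (nat_lit 31) (node (nat_lit 4) (nat_lit 95071) (nat_lit 32) nil nil) nil) nil) nil) nil)
  nil) nil) nil) nil) nil) nil)) (node (nat_lit 4) (nat_lit 165604) (nat_lit 21) (node (nat_lit 6)
  (nat_lit 167566) (nat_lit 22) (node (nat_lit 5) (nat_lit 168308) (nat_lit 23) (node (nat_lit 4)
  (nat_lit 168828) (nat_lit 24) (node (nat_lit 5) (nat_lit 169288) (nat_lit 25) (node (nat_lit 6)
  (nat_lit 169101) (nat_lit 26) (node (nat_lit 4) (nat_lit 169258) (nat_lit 27) (node (nat_lit 6)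
  (nat_lit 168395) (nat_lit 28) (node (nat_lit 5) (nat_lit 167629) (nat_lit 29) (node (nat_lit 6)
  (nat_lit 167389) (nat_lit 30) (node (nat_lit 4) (nat_lit 164971) (nat_lit 31) (node (nat_lit 5)
  (nat_lit 163120) (nat_lit 32) (node (nat_lit 4) (nat_lit 162236) (nat_lit 33) (node (nat_lit 6)
  (nat_lit 157193) (nat_lit 34) (node (nat_lit 5) (nat_lit 160596) (nat_lit 35) (node (nat_lit 6)
  (nat_lit 152139) (nat_lit 36) (node (nat_lit 4) (nat_lit 145887) (nat_lit 37) (node (nat_lit 6)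
  (nat_lit 143407) (nat_lit 38) (node (nat_lit 5) (nat_lit 146299) (nat_lit 39) (node (nat_lit 4)
  (nat_lit 134800) (nat_lit 40) (node (nat_lit 6) (nat_lit 135214) (nat_lit 41) (node (nat_lit 4)
  (nat_lit 116492) (nat_lit 42) (node (nat_lit 5) (nat_lit 97462) (nat_lit 43) nil nil) nil) nil)
  nil) nil) nil) nil) nil) nil) nil) nil) nil) nil) nil) nil) nil) nil) nil) nil) nil) nil) nil)
  (node (nat_lit 0) (nat_lit 167561) (nat_lit 21) nil nil))) (node (nat_lit 0) (nat_lit 168855)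
  (nat_lit 20) nil nil)) (node (nat_lit 0) (nat_lit 170349) (nat_lit 19) nil nil)) (node (nat_lit
  5) (nat_lit 0) (nat_lit 18) (node (nat_lit 6) (nat_lit 0) (nat_lit 19) (node (nat_lit 4)
  (nat_lit 0) (nat_lit 20) (node (nat_lit 5) (nat_lit 0) (nat_lit 21) (node (nat_lit 4) (nat_lit
  166505) (nat_lit 22) (node (nat_lit 6) (nat_lit 167170) (nat_lit 23) (node (nat_lit 4) (nat_lit
  167885) (nat_lit 24) (node (nat_lit 5) (nat_lit 168423) (nat_lit 25) (node (nat_lit 6) (nat_lit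
  168416) (nat_lit 26) (node (nat_lit 4) (nat_lit 168594) (nat_lit 27) (node (nat_lit 6) (nat_lit
  168197) (nat_lit 28) (node (nat_lit 5) (nat_lit 167745) (nat_lit 29) (node (nat_lit 6) (nat_lit
  163001) (nat_lit 30) (node (nat_lit 4) (nat_lit 160570) (nat_lit 31) (node (nat_lit 5) (nat_lit
  158703) (nat_lit 32) (node (nat_lit 4) (nat_lit 157838) (nat_lit 33) (node (nat_lit 6) (nat_lit
  152742) (nat_lit 34) (node (nat_lit 5) (nat_lit 151252) (nat_lit 35) (node (nat_lit 6) (nat_lit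
  148400) (nat_lit 36) (node (nat_lit 4) (nat_lit 142532) (nat_lit 37) (node (nat_lit 6) (nat_lit
  145684) (nat_lit 38) (node (nat_lit 5) (nat_lit 134214) (nat_lit 39) (node (nat_lit 4) (nat_lit
  127631) (nat_lit 40) (node (nat_lit 5) (nat_lit 114308) (nat_lit 41) (node (nat_lit 6) (nat_lit
  116530) (nat_lit 42) (node (nat_lit 4) (nat_lit 90614) (nat_lit 43) nil nil) nil) nil) nil) nil)
  nil) nil) nil) nil) nil) nil) nil) nil) nil) nil) nil) nil) nil) nil) (node (nat_lit 5) (nat_lit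
  166855) (nat_lit 24) nil nil)) nil) (node (nat_lit 0) (nat_lit 168319) (nat_lit 22) nil nil))
  (node (nat_lit 6) (nat_lit 0) (nat_lit 21) (node (nat_lit 5) (nat_lit 151908) (nat_lit 22) (node
  (nat_lit 6) (nat_lit 152558) (nat_lit 23) (node (nat_lit 4) (nat_lit 153189) (nat_lit 24) (node
  (nat_lit 5) (nat_lit 153782) (nat_lit 25) (node (nat_lit 4) (nat_lit 153992) (nat_lit 26) (node
  (nat_lit 6) (nat_lit 154316) (nat_lit 27) (node (nat_lit 5) (nat_lit 121714) (nat_lit 28) (node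
  (nat_lit 6) (nat_lit 79964) (nat_lit 29) (node (nat_lit 4) (nat_lit 77001) (nat_lit 30) nil nil)
  nil) nil) nil) (node (nat_lit 6) (nat_lit 153824) (nat_lit 26) nil nil)) nil) nil) nil) (node
  (nat_lit 0) (nat_lit 155412) (nat_lit 22) nil nil)) (node (nat_lit 0) (nat_lit 167837) (nat_lit
  21) nil nil))) (node (nat_lit 5) (nat_lit 0) (nat_lit 20) (node (nat_lit 4) (nat_lit 169697)
  (nat_lit 21) (node (nat_lit 6) (nat_lit 171371) (nat_lit 22) (node (nat_lit 4) (nat_lit 172126)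
  (nat_lit 23) (node (nat_lit 5) (nat_lit 172511) (nat_lit 24) (node (nat_lit 6) (nat_lit 171909)
  (nat_lit 25) (node (nat_lit 4) (nat_lit 172930) (nat_lit 26) (node (nat_lit 6) (nat_lit 172267)
  (nat_lit 27) (node (nat_lit 5) (nat_lit 171050) (nat_lit 28) nil nil) nil) nil) nil) nil) (node
  (nat_lit 5) (nat_lit 171992) (nat_lit 23) nil nil)) nil) (node (nat_lit 0) (nat_lit 170879)
  (nat_lit 21) nil nil)) (node (nat_lit 0) (nat_lit 169674) (nat_lit 20) nil nil))) (node (nat_lit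
  0) (nat_lit 171395) (nat_lit 19) nil nil)) (node (nat_lit 0) (nat_lit 169615) (nat_lit 18) nil
  nil))) (node (nat_lit 0) (nat_lit 171112) (nat_lit 17) nil nil)) (node (nat_lit 0) (nat_lit
  171768) (nat_lit 16) (node (nat_lit 4) (nat_lit 171768) (nat_lit 17) nil nil) nil)) (node
  (nat_lit 0) (nat_lit 174153) (nat_lit 15) (node (nat_lit 6) (nat_lit 174153) (nat_lit 16) (node
  (nat_lit 4) (nat_lit 174153) (nat_lit 17) nil nil) (node (nat_lit 4) (nat_lit 174153) (nat_lit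
  16) nil (node (nat_lit 5) (nat_lit 174153) (nat_lit 16) nil nil))) nil)) (node (nat_lit 0)
  (nat_lit 174107) (nat_lit 14) (node (nat_lit 5) (nat_lit 174107) (nat_lit 15) (node (nat_lit 6)
  (nat_lit 174107) (nat_lit 16) nil (node (nat_lit 4) (nat_lit 174107) (nat_lit 16) nil nil))
  (node (nat_lit 4) (nat_lit 174107) (nat_lit 15) (node (nat_lit 6) (nat_lit 174107) (nat_lit 16)
  nil (node (nat_lit 5) (nat_lit 174107) (nat_lit 16) nil nil)) (node (nat_lit 6) (nat_lit 174107)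
  (nat_lit 15) (node (nat_lit 5) (nat_lit 174107) (nat_lit 16) nil (node (nat_lit 4) (nat_lit
  174107) (nat_lit 16) nil nil)) nil))) nil)) (node (nat_lit 0) (nat_lit 172942) (nat_lit 13)
  (node (nat_lit 6) (nat_lit 172942) (nat_lit 14) (node (nat_lit 4) (nat_lit 172942) (nat_lit 15)
  (node (nat_lit 5) (nat_lit 172942) (nat_lit 16) (node (nat_lit 6) (nat_lit 172942) (nat_lit 17)
  (node (nat_lit 4) (nat_lit 172942) (nat_lit 18) (node (nat_lit 6) (nat_lit 172942) (nat_lit 19)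
  (node (nat_lit 5) (nat_lit 172942) (nat_lit 20) (node (nat_lit 6) (nat_lit 174238) (nat_lit 21)
  (node (nat_lit 4) (nat_lit 175248) (nat_lit 22) (node (nat_lit 5) (nat_lit 175714) (nat_lit 23)
  (node (nat_lit 4) (nat_lit 176165) (nat_lit 24) (node (nat_lit 6) (nat_lit 176185) (nat_lit 25)
  nil nil) nil) nil) nil) nil) nil) nil) nil) nil) (node (nat_lit 6) (nat_lit 172942) (nat_lit 16)
  nil nil)) (node (nat_lit 5) (nat_lit 172942) (nat_lit 15) (node (nat_lit 4) (nat_lit 172942)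
  (nat_lit 16) (node (nat_lit 6) (nat_lit 172942) (nat_lit 17) nil nil) (node (nat_lit 6) (nat_lit
  172942) (nat_lit 16) nil nil)) nil)) (node (nat_lit 5) (nat_lit 172942) (nat_lit 14) (node
  (nat_lit 6) (nat_lit 172942) (nat_lit 15) (node (nat_lit 4) (nat_lit 172942) (nat_lit 16) nil
  (node (nat_lit 5) (nat_lit 172942) (nat_lit 16) nil nil)) (node (nat_lit 4) (nat_lit 172942)
  (nat_lit 15) (node (nat_lit 6) (nat_lit 172942) (nat_lit 16) nil nil) nil)) (node (nat_lit 4)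
  (nat_lit 172942) (nat_lit 14) (node (nat_lit 5) (nat_lit 172942) (nat_lit 15) (node (nat_lit 6)
  (nat_lit 172942) (nat_lit 16) (node (nat_lit 4) (nat_lit 172942) (nat_lit 17) (node (nat_lit 6)
  (nat_lit 172942) (nat_lit 18) (node (nat_lit 5) (nat_lit 172942) (nat_lit 19) (node (nat_lit 6)
  (nat_lit 172942) (nat_lit 20) (node (nat_lit 4) (nat_lit 173961) (nat_lit 21) nil nil) nil) nil)
  nil) nil) (node (nat_lit 4) (nat_lit 172942) (nat_lit 16) nil nil)) (node (nat_lit 6) (nat_lit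
  172942) (nat_lit 15) (node (nat_lit 5) (nat_lit 172942) (nat_lit 16) nil (node (nat_lit 4)
  (nat_lit 172942) (nat_lit 16) nil nil)) nil)) (node (nat_lit 0) (nat_lit 173961) (nat_lit 14)
  nil nil)))) nil)))

noncomputable def t66 : Tr :=
  (node (nat_lit 5) (nat_lit 0) (nat_lit 13) (node (nat_lit 6) (nat_lit 0) (nat_lit 14) (node
  (nat_lit 5) (nat_lit 0) (nat_lit 15) (node (nat_lit 4) (nat_lit 0) (nat_lit 16) (node (nat_lit
  6) (nat_lit 0) (nat_lit 17) (node (nat_lit 5) (nat_lit 0) (nat_lit 18) (node (nat_lit 6)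
  (nat_lit 0) (nat_lit 19) (node (nat_lit 4) (nat_lit 0) (nat_lit 20) (node (nat_lit 5) (nat_lit
  156563) (nat_lit 21) (node (nat_lit 6) (nat_lit 158153) (nat_lit 22) (node (nat_lit 5) (nat_lit
  159233) (nat_lit 23) (node (nat_lit 4) (nat_lit 159609) (nat_lit 24) (node (nat_lit 5) (nat_lit
  160269) (nat_lit 25) (node (nat_lit 6) (nat_lit 160430) (nat_lit 26) (node (nat_lit 4) (nat_lit
  160584) (nat_lit 27) (node (nat_lit 6) (nat_lit 160265) (nat_lit 28) (node (nat_lit 5) (nat_lit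
  159631) (nat_lit 29) (node (nat_lit 6) (nat_lit 158198) (nat_lit 30) (node (nat_lit 4) (nat_lit
  156082) (nat_lit 31) (node (nat_lit 5) (nat_lit 154721) (nat_lit 32) (node (nat_lit 4) (nat_lit
  153415) (nat_lit 33) (node (nat_lit 6) (nat_lit 149322) (nat_lit 34) (node (nat_lit 4) (nat_lit
  149368) (nat_lit 35) (node (nat_lit 5) (nat_lit 141981) (nat_lit 36) (node (nat_lit 6) (nat_lit
  142133) (nat_lit 37) (node (nat_lit 5) (nat_lit 138255) (nat_lit 38) (node (nat_lit 4) (nat_lit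
  138723) (nat_lit 39) (node (nat_lit 6) (nat_lit 118653) (nat_lit 40) (node (nat_lit 5) (nat_lit
  118664) (nat_lit 41) (node (nat_lit 6) (nat_lit 108958) (nat_lit 42) (node (nat_lit 4) (nat_lit
  109655) (nat_lit 43) nil nil) nil) nil) nil) nil) nil) nil) nil) nil) nil) nil) nil) nil) nil)
  nil) nil) nil) nil) nil) nil) nil) (node (nat_lit 4) (nat_lit 157823) (nat_lit 22) (node
  (nat_lit 6) (nat_lit 158955) (nat_lit 23) (node (nat_lit 4) (nat_lit 159366) (nat_lit 24) (node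
  (nat_lit 5) (nat_lit 159636) (nat_lit 25) (node (nat_lit 6) (nat_lit 159398) (nat_lit 26) (node
  (nat_lit 4) (nat_lit 159587) (nat_lit 27) (node (nat_lit 6) (nat_lit 159181) (nat_lit 28) (node
  (nat_lit 5) (nat_lit 158936) (nat_lit 29) (node (nat_lit 6) (nat_lit 158700) (nat_lit 30) (node
  (nat_lit 4) (nat_lit 157672) (nat_lit 31) (node (nat_lit 5) (nat_lit 156770) (nat_lit 32) (node
  (nat_lit 4) (nat_lit 154520) (nat_lit 33) (node (nat_lit 6) (nat_lit 150792) (nat_lit 34) (node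
  (nat_lit 4) (nat_lit 146122) (nat_lit 35) (node (nat_lit 5) (nat_lit 138943) (nat_lit 36) nil
  nil) nil) nil) nil) nil) nil) nil) nil) nil) nil) nil) nil) (node (nat_lit 5) (nat_lit 158810)
  (nat_lit 24) nil nil)) nil) nil)) (node (nat_lit 6) (nat_lit 156249) (nat_lit 21) (node (nat_lit
  5) (nat_lit 157358) (nat_lit 22) (node (nat_lit 4) (nat_lit 157471) (nat_lit 23) (node (nat_lit
  5) (nat_lit 158212) (nat_lit 24) (node (nat_lit 6) (nat_lit 158064) (nat_lit 25) (node (nat_lit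
  4) (nat_lit 158317) (nat_lit 26) (node (nat_lit 6) (nat_lit 157243) (nat_lit 27) (node (nat_lit
  5) (nat_lit 156416) (nat_lit 28) (node (nat_lit 6) (nat_lit 156125) (nat_lit 29) (node (nat_lit
  4) (nat_lit 153160) (nat_lit 30) (node (nat_lit 5) (nat_lit 152374) (nat_lit 31) (node (nat_lit
  4) (nat_lit 149577) (nat_lit 32) (node (nat_lit 6) (nat_lit 147744) (nat_lit 33) (node (nat_lit
  4) (nat_lit 146017) (nat_lit 34) (node (nat_lit 5) (nat_lit 142177) (nat_lit 35) (node (nat_lit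
  6) (nat_lit 140060) (nat_lit 36) (node (nat_lit 5) (nat_lit 136989) (nat_lit 37) (node (nat_lit
  4) (nat_lit 137985) (nat_lit 38) (node (nat_lit 6) (nat_lit 116180) (nat_lit 39) (node (nat_lit
  5) (nat_lit 116739) (nat_lit 40) (node (nat_lit 6) (nat_lit 61661) (nat_lit 41) (node (nat_lit
  4) (nat_lit 61665) (nat_lit 42) nil nil) nil) nil) nil) nil) nil) nil) nil) nil) nil) nil) nil)
  nil) nil) nil) nil) nil) nil) (node (nat_lit 6) (nat_lit 157951) (nat_lit 24) (node (nat_lit 4)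
  (nat_lit 158117) (nat_lit 25) nil nil) nil)) nil) nil) (node (nat_lit 0) (nat_lit 159866)
  (nat_lit 21) nil nil))) (node (nat_lit 0) (nat_lit 163311) (nat_lit 20) nil nil)) (node (nat_lit
  0) (nat_lit 164481) (nat_lit 19) nil nil)) (node (nat_lit 4) (nat_lit 0) (nat_lit 18) (node
  (nat_lit 5) (nat_lit 0) (nat_lit 19) (node (nat_lit 4) (nat_lit 0) (nat_lit 20) (node (nat_lit
  6) (nat_lit 157404) (nat_lit 21) (node (nat_lit 5) (nat_lit 158721) (nat_lit 22) (node (nat_lit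
  4) (nat_lit 159632) (nat_lit 23) (node (nat_lit 5) (nat_lit 160311) (nat_lit 24) (node (nat_lit
  6) (nat_lit 160569) (nat_lit 25) (node (nat_lit 4) (nat_lit 160859) (nat_lit 26) (node (nat_lit
  6) (nat_lit 160373) (nat_lit 27) (node (nat_lit 5) (nat_lit 159422) (nat_lit 28) (node (nat_lit
  6) (nat_lit 158683) (nat_lit 29) (node (nat_lit 4) (nat_lit 156110) (nat_lit 30) (node (nat_lit
  5) (nat_lit 153445) (nat_lit 31) (node (nat_lit 4) (nat_lit 147913) (nat_lit 32) (node (nat_lit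
  6) (nat_lit 146807) (nat_lit 33) (node (nat_lit 4) (nat_lit 147625) (nat_lit 34) (node (nat_lit
  5) (nat_lit 141818) (nat_lit 35) (node (nat_lit 6) (nat_lit 137460) (nat_lit 36) (node (nat_lit
  5) (nat_lit 137736) (nat_lit 37) (node (nat_lit 4) (nat_lit 126293) (nat_lit 38) (node (nat_lit
  6) (nat_lit 83645) (nat_lit 39) (node (nat_lit 4) (nat_lit 63526) (nat_lit 40) (node (nat_lit 5)
  (nat_lit 63527) (nat_lit 41) (node (nat_lit 4) (nat_lit 63523) (nat_lit 42) nil nil) nil) nil)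
  nil) nil) nil) nil) nil) nil) nil) nil) nil) nil) nil) nil) nil) nil) nil) nil) (node (nat_lit
  6) (nat_lit 159851) (nat_lit 23) (node (nat_lit 4) (nat_lit 160239) (nat_lit 24) (node (nat_lit
  5) (nat_lit 160617) (nat_lit 25) nil nil) nil) nil)) nil) (node (nat_lit 0) (nat_lit 159245)
  (nat_lit 21) nil nil)) (node (nat_lit 0) (nat_lit 163084) (nat_lit 20) nil nil)) (node (nat_lit
  0) (nat_lit 162832) (nat_lit 19) nil nil)) (node (nat_lit 0) (nat_lit 163499) (nat_lit 18) nil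
  nil))) (node (nat_lit 5) (nat_lit 0) (nat_lit 17) (node (nat_lit 6) (nat_lit 0) (nat_lit 18)
  (node (nat_lit 4) (nat_lit 0) (nat_lit 19) (node (nat_lit 5) (nat_lit 0) (nat_lit 20) (node
  (nat_lit 4) (nat_lit 0) (nat_lit 21) (node (nat_lit 6) (nat_lit 152611) (nat_lit 22) (node
  (nat_lit 5) (nat_lit 153352) (nat_lit 23) (node (nat_lit 4) (nat_lit 153872) (nat_lit 24) (node
  (nat_lit 5) (nat_lit 154332) (nat_lit 25) (node (nat_lit 6) (nat_lit 154144) (nat_lit 26) (node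
  (nat_lit 4) (nat_lit 154302) (nat_lit 27) (node (nat_lit 6) (nat_lit 153438) (nat_lit 28) (node
  (nat_lit 5) (nat_lit 152673) (nat_lit 29) (node (nat_lit 6) (nat_lit 152433) (nat_lit 30) (node
  (nat_lit 4) (nat_lit 150115) (nat_lit 31) (node (nat_lit 5) (nat_lit 149504) (nat_lit 32) (node
  (nat_lit 4) (nat_lit 145398) (nat_lit 33) (node (nat_lit 6) (nat_lit 142236) (nat_lit 34) (node
  (nat_lit 4) (nat_lit 143555) (nat_lit 35) (node (nat_lit 5) (nat_lit 134740) (nat_lit 36) (node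
  (nat_lit 6) (nat_lit 140085) (nat_lit 37) (node (nat_lit 5) (nat_lit 131147) (nat_lit 38) (node
  (nat_lit 4) (nat_lit 124122) (nat_lit 39) (node (nat_lit 5) (nat_lit 117006) (nat_lit 40) (node
  (nat_lit 6) (nat_lit 117411) (nat_lit 41) (node (nat_lit 4) (nat_lit 100448) (nat_lit 42) nil
  nil) nil) nil) nil) nil) nil) nil) nil) nil) nil) nil) nil) nil) nil) nil) nil) nil) nil) (node
  (nat_lit 6) (nat_lit 154007) (nat_lit 24) (node (nat_lit 4) (nat_lit 154385) (nat_lit 25) nil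
  nil) nil)) (node (nat_lit 4) (nat_lit 151572) (nat_lit 23) nil nil)) (node (nat_lit 0) (nat_lit
  154724) (nat_lit 22) nil nil)) (node (nat_lit 0) (nat_lit 153842) (nat_lit 21) nil nil)) (node
  (nat_lit 6) (nat_lit 0) (nat_lit 20) (node (nat_lit 5) (nat_lit 0) (nat_lit 21) (node (nat_lit
  4) (nat_lit 0) (nat_lit 22) (node (nat_lit 6) (nat_lit 0) (nat_lit 23) (node (nat_lit 4)
  (nat_lit 151578) (nat_lit 24) (node (nat_lit 5) (nat_lit 151751) (nat_lit 25) (node (nat_lit 6)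
  (nat_lit 151513) (nat_lit 26) (node (nat_lit 4) (nat_lit 151702) (nat_lit 27) (node (nat_lit 6)
  (nat_lit 151297) (nat_lit 28) (node (nat_lit 5) (nat_lit 151051) (nat_lit 29) (node (nat_lit 6)
  (nat_lit 150815) (nat_lit 30) (node (nat_lit 4) (nat_lit 149787) (nat_lit 31) (node (nat_lit 5)
  (nat_lit 148885) (nat_lit 32) (node (nat_lit 4) (nat_lit 146635) (nat_lit 33) (node (nat_lit 6)
  (nat_lit 143777) (nat_lit 34) (node (nat_lit 4) (nat_lit 138237) (nat_lit 35) (node (nat_lit 5)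
  (nat_lit 130396) (nat_lit 36) (node (nat_lit 6) (nat_lit 125339) (nat_lit 37) (node (nat_lit 5)
  (nat_lit 120688) (nat_lit 38) (node (nat_lit 4) (nat_lit 106344) (nat_lit 39) (node (nat_lit 5)
  (nat_lit 106356) (nat_lit 40) (node (nat_lit 6) (nat_lit 97252) (nat_lit 41) (node (nat_lit 4)
  (nat_lit 90840) (nat_lit 42) (node (nat_lit 6) (nat_lit 89852) (nat_lit 43) (node (nat_lit 5)
  (nat_lit 89828) (nat_lit 44) nil nil) nil) nil) nil) nil) nil) nil) nil) nil) nil) nil) nil)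
  nil) nil) nil) nil) nil) nil) nil) nil) (node (nat_lit 0) (nat_lit 152875) (nat_lit 24) nil
  nil)) (node (nat_lit 5) (nat_lit 151031) (nat_lit 23) (node (nat_lit 6) (nat_lit 151995)
  (nat_lit 24) (node (nat_lit 5) (nat_lit 151881) (nat_lit 25) (node (nat_lit 4) (nat_lit 151089)
  (nat_lit 26) nil nil) nil) nil) (node (nat_lit 0) (nat_lit 153420) (nat_lit 23) nil nil))) (node
  (nat_lit 6) (nat_lit 0) (nat_lit 22) (node (nat_lit 4) (nat_lit 134935) (nat_lit 23) (node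
  (nat_lit 5) (nat_lit 135614) (nat_lit 24) (node (nat_lit 4) (nat_lit 118409) (nat_lit 25) (node
  (nat_lit 6) (nat_lit 118738) (nat_lit 26) (node (nat_lit 4) (nat_lit 62419) (nat_lit 27) (node
  (nat_lit 5) (nat_lit 62458) (nat_lit 28) (node (nat_lit 6) (nat_lit 62202) (nat_lit 29) nil nil)
  nil) (node (nat_lit 5) (nat_lit 118588) (nat_lit 27) nil nil)) nil) (node (nat_lit 6) (nat_lit
  135669) (nat_lit 25) nil nil)) nil) (node (nat_lit 0) (nat_lit 136245) (nat_lit 23) nil nil))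
  (node (nat_lit 0) (nat_lit 153918) (nat_lit 22) nil nil))) (node (nat_lit 0) (nat_lit 153981)
  (nat_lit 21) nil nil)) (node (nat_lit 0) (nat_lit 157829) (nat_lit 20) nil nil))) (node (nat_lit
  0) (nat_lit 157084) (nat_lit 19) nil nil)) (node (nat_lit 0) (nat_lit 158421) (nat_lit 18) nil
  nil)) (node (nat_lit 0) (nat_lit 163308) (nat_lit 17) (node (nat_lit 5) (nat_lit 163308)
  (nat_lit 18) nil (node (nat_lit 4) (nat_lit 163308) (nat_lit 18) nil (node (nat_lit 6) (nat_lit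
  163308) (nat_lit 18) nil nil))) nil))) (node (nat_lit 0) (nat_lit 161943) (nat_lit 16) (node
  (nat_lit 6) (nat_lit 161943) (nat_lit 17) nil (node (nat_lit 5) (nat_lit 161943) (nat_lit 17)
  nil nil)) nil)) (node (nat_lit 4) (nat_lit 0) (nat_lit 15) (node (nat_lit 6) (nat_lit 0)
  (nat_lit 16) (node (nat_lit 5) (nat_lit 0) (nat_lit 17) (node (nat_lit 4) (nat_lit 0) (nat_lit
  18) (node (nat_lit 5) (nat_lit 0) (nat_lit 19) (node (nat_lit 6) (nat_lit 141155) (nat_lit 20)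
  (node (nat_lit 5) (nat_lit 143244) (nat_lit 21) (node (nat_lit 4) (nat_lit 144643) (nat_lit 22)
  (node (nat_lit 6) (nat_lit 145453) (nat_lit 23) (node (nat_lit 4) (nat_lit 145863) (nat_lit 24)
  (node (nat_lit 5) (nat_lit 146133) (nat_lit 25) (node (nat_lit 6) (nat_lit 145894) (nat_lit 26)
  (node (nat_lit 4) (nat_lit 146085) (nat_lit 27) (node (nat_lit 6) (nat_lit 145679) (nat_lit 28)
  (node (nat_lit 5) (nat_lit 145433) (nat_lit 29) (node (nat_lit 6) (nat_lit 145197) (nat_lit 30)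
  (node (nat_lit 4) (nat_lit 144170) (nat_lit 31) (node (nat_lit 5) (nat_lit 143080) (nat_lit 32)
  (node (nat_lit 4) (nat_lit 140580) (nat_lit 33) (node (nat_lit 6) (nat_lit 137022) (nat_lit 34)
  (node (nat_lit 4) (nat_lit 132045) (nat_lit 35) (node (nat_lit 5) (nat_lit 126432) (nat_lit 36)
  (node (nat_lit 6) (nat_lit 114649) (nat_lit 37) nil nil) nil) nil) nil) nil) nil) nil) nil) nil)
  nil) nil) nil) nil) nil) nil) nil) (node (nat_lit 4) (nat_lit 143087) (nat_lit 21) (node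
  (nat_lit 5) (nat_lit 144160) (nat_lit 22) (node (nat_lit 4) (nat_lit 144156) (nat_lit 23) nil
  nil) (node (nat_lit 6) (nat_lit 139243) (nat_lit 22) nil nil)) nil)) (node (nat_lit 0) (nat_lit
  144892) (nat_lit 20) nil nil)) (node (nat_lit 6) (nat_lit 0) (nat_lit 19) (node (nat_lit 4)
  (nat_lit 0) (nat_lit 20) (node (nat_lit 5) (nat_lit 143122) (nat_lit 21) (node (nat_lit 6)
  (nat_lit 142308) (nat_lit 22) (node (nat_lit 5) (nat_lit 143255) (nat_lit 23) (node (nat_lit 4)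
  (nat_lit 143480) (nat_lit 24) (node (nat_lit 5) (nat_lit 144140) (nat_lit 25) (node (nat_lit 6)
  (nat_lit 143927) (nat_lit 26) (node (nat_lit 4) (nat_lit 144165) (nat_lit 27) (node (nat_lit 6)
  (nat_lit 143310) (nat_lit 28) (node (nat_lit 5) (nat_lit 142587) (nat_lit 29) (node (nat_lit 6)
  (nat_lit 143140) (nat_lit 30) (node (nat_lit 4) (nat_lit 140742) (nat_lit 31) (node (nat_lit 5)
  (nat_lit 142393) (nat_lit 32) (node (nat_lit 4) (nat_lit 139845) (nat_lit 33) (node (nat_lit 6)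
  (nat_lit 137596) (nat_lit 34) (node (nat_lit 4) (nat_lit 131342) (nat_lit 35) (node (nat_lit 5)
  (nat_lit 131773) (nat_lit 36) (node (nat_lit 6) (nat_lit 122039) (nat_lit 37) nil nil) nil) nil)
  nil) nil) nil) nil) nil) nil) nil) nil) nil) nil) nil) (node (nat_lit 4) (nat_lit 138739)
  (nat_lit 23) nil nil)) (node (nat_lit 4) (nat_lit 144129) (nat_lit 22) (node (nat_lit 6)
  (nat_lit 144408) (nat_lit 23) (node (nat_lit 5) (nat_lit 144093) (nat_lit 24) nil nil) nil)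
  nil)) (node (nat_lit 0) (nat_lit 145196) (nat_lit 21) nil nil)) (node (nat_lit 0) (nat_lit
  143350) (nat_lit 20) nil nil)) (node (nat_lit 0) (nat_lit 144905) (nat_lit 19) nil nil))) (node
  (nat_lit 6) (nat_lit 0) (nat_lit 18) (node (nat_lit 4) (nat_lit 91355) (nat_lit 19) (node
  (nat_lit 5) (nat_lit 93168) (nat_lit 20) (node (nat_lit 6) (nat_lit 94720) (nat_lit 21) (node
  (nat_lit 5) (nat_lit 95368) (nat_lit 22) (node (nat_lit 4) (nat_lit 95788) (nat_lit 23) (node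
  (nat_lit 5) (nat_lit 96290) (nat_lit 24) (node (nat_lit 6) (nat_lit 95767) (nat_lit 25) (node
  (nat_lit 4) (nat_lit 95867) (nat_lit 26) (node (nat_lit 6) (nat_lit 94627) (nat_lit 27) (node
  (nat_lit 5) (nat_lit 93553) (nat_lit 28) (node (nat_lit 6) (nat_lit 93123) (nat_lit 29) (node
  (nat_lit 4) (nat_lit 90147) (nat_lit 30) (node (nat_lit 5) (nat_lit 89290) (nat_lit 31) (node
  (nat_lit 4) (nat_lit 87636) (nat_lit 32) (node (nat_lit 6) (nat_lit 85115) (nat_lit 33) (node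
  (nat_lit 4) (nat_lit 81693) (nat_lit 34) (node (nat_lit 5) (nat_lit 80274) (nat_lit 35) (node
  (nat_lit 6) (nat_lit 65759) (nat_lit 36) (node (nat_lit 4) (nat_lit 75281) (nat_lit 37) (node
  (nat_lit 6) (nat_lit 59255) (nat_lit 38) (node (nat_lit 5) (nat_lit 48333) (nat_lit 39) nil nil)
  nil) nil) nil) nil) nil) nil) nil) nil) nil) nil) nil) nil) nil) nil) (node (nat_lit 6) (nat_lit
  96003) (nat_lit 24) (node (nat_lit 4) (nat_lit 96171) (nat_lit 25) (node (nat_lit 5) (nat_lit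
  96302) (nat_lit 26) (node (nat_lit 6) (nat_lit 96207) (nat_lit 27) (node (nat_lit 4) (nat_lit
  96286) (nat_lit 28) (node (nat_lit 6) (nat_lit 96228) (nat_lit 29) (node (nat_lit 5) (nat_lit
  96216) (nat_lit 30) (node (nat_lit 6) (nat_lit 96254) (nat_lit 31) (node (nat_lit 4) (nat_lit
  96284) (nat_lit 32) (node (nat_lit 5) (nat_lit 96308) (nat_lit 33) (node (nat_lit 4) (nat_lit
  96325) (nat_lit 34) nil nil) nil) nil) nil) nil) nil) nil) nil) nil) nil) nil)) nil) nil) nil)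
  nil) (node (nat_lit 0) (nat_lit 141145) (nat_lit 19) nil nil)) (node (nat_lit 0) (nat_lit
  146409) (nat_lit 18) nil nil))) (node (nat_lit 0) (nat_lit 147561) (nat_lit 17) (node (nat_lit
  4) (nat_lit 147561) (nat_lit 18) nil nil) nil)) (node (nat_lit 0) (nat_lit 159195) (nat_lit 16)
  nil nil)) (node (nat_lit 0) (nat_lit 160493) (nat_lit 15) (node (nat_lit 6) (nat_lit 160493)
  (nat_lit 16) (node (nat_lit 4) (nat_lit 160493) (nat_lit 17) nil nil) (node (nat_lit 4) (nat_lit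
  160493) (nat_lit 16) nil (node (nat_lit 5) (nat_lit 160493) (nat_lit 16) nil nil))) nil))) (node
  (nat_lit 0) (nat_lit 169225) (nat_lit 14) (node (nat_lit 5) (nat_lit 169225) (nat_lit 15) (node
  (nat_lit 6) (nat_lit 169225) (nat_lit 16) nil nil) (node (nat_lit 6) (nat_lit 169225) (nat_lit
  15) nil (node (nat_lit 4) (nat_lit 169225) (nat_lit 15) nil nil))) nil)) (node (nat_lit 0)
  (nat_lit 171201) (nat_lit 13) (node (nat_lit 4) (nat_lit 171201) (nat_lit 14) (node (nat_lit 6)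
  (nat_lit 171201) (nat_lit 15) (node (nat_lit 4) (nat_lit 171201) (nat_lit 16) (node (nat_lit 5)
  (nat_lit 171201) (nat_lit 17) (node (nat_lit 6) (nat_lit 171201) (nat_lit 18) (node (nat_lit 4)
  (nat_lit 171201) (nat_lit 19) (node (nat_lit 6) (nat_lit 171201) (nat_lit 20) (node (nat_lit 5)
  (nat_lit 172714) (nat_lit 21) (node (nat_lit 6) (nat_lit 173894) (nat_lit 22) (node (nat_lit 4)
  (nat_lit 174587) (nat_lit 23) (node (nat_lit 5) (nat_lit 175284) (nat_lit 24) (node (nat_lit 4)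
  (nat_lit 175716) (nat_lit 25) (node (nat_lit 6) (nat_lit 175794) (nat_lit 26) (node (nat_lit 4)
  (nat_lit 175921) (nat_lit 27) nil nil) nil) nil) nil) nil) nil) nil) nil) nil) nil) nil) nil)
  (node (nat_lit 5) (nat_lit 171201) (nat_lit 15) (node (nat_lit 6) (nat_lit 171201) (nat_lit 16)
  (node (nat_lit 4) (nat_lit 171201) (nat_lit 17) (node (nat_lit 6) (nat_lit 171201) (nat_lit 18)
  (node (nat_lit 5) (nat_lit 171201) (nat_lit 19) (node (nat_lit 6) (nat_lit 171201) (nat_lit 20)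
  (node (nat_lit 4) (nat_lit 172220) (nat_lit 21) nil nil) nil) nil) nil) nil) nil) nil)) (node
  (nat_lit 5) (nat_lit 171201) (nat_lit 14) (node (nat_lit 4) (nat_lit 171201) (nat_lit 15) (node
  (nat_lit 5) (nat_lit 171201) (nat_lit 16) (node (nat_lit 6) (nat_lit 171201) (nat_lit 17) (node
  (nat_lit 4) (nat_lit 171201) (nat_lit 18) (node (nat_lit 6) (nat_lit 171201) (nat_lit 19) (node
  (nat_lit 5) (nat_lit 171201) (nat_lit 20) (node (nat_lit 6) (nat_lit 172578) (nat_lit 21) (node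
  (nat_lit 4) (nat_lit 173172) (nat_lit 22) (node (nat_lit 5) (nat_lit 173634) (nat_lit 23) (node
  (nat_lit 4) (nat_lit 173508) (nat_lit 24) (node (nat_lit 6) (nat_lit 173853) (nat_lit 25) (node
  (nat_lit 4) (nat_lit 174086) (nat_lit 26) nil nil) nil) nil) nil) nil) nil) nil) nil) nil) nil)
  nil) (node (nat_lit 6) (nat_lit 171201) (nat_lit 15) nil nil)) (node (nat_lit 6) (nat_lit
  171201) (nat_lit 14) (node (nat_lit 4) (nat_lit 171201) (nat_lit 15) (node (nat_lit 5) (nat_lit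
  171201) (nat_lit 16) (node (nat_lit 6) (nat_lit 171201) (nat_lit 17) (node (nat_lit 4) (nat_lit
  171201) (nat_lit 18) (node (nat_lit 6) (nat_lit 171201) (nat_lit 19) (node (nat_lit 5) (nat_lit
  171201) (nat_lit 20) (node (nat_lit 6) (nat_lit 172496) (nat_lit 21) (node (nat_lit 4) (nat_lit
  173506) (nat_lit 22) (node (nat_lit 5) (nat_lit 173972) (nat_lit 23) (node (nat_lit 4) (nat_lit
  174423) (nat_lit 24) (node (nat_lit 6) (nat_lit 174443) (nat_lit 25) nil nil) nil) nil) nil)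
  nil) nil) nil) nil) nil) (node (nat_lit 6) (nat_lit 171201) (nat_lit 16) nil nil)) nil) nil)))
  nil))

noncomputable def t67 : Tr :=
  (node (nat_lit 6) (nat_lit 0) (nat_lit 13) (node (nat_lit 5) (nat_lit 0) (nat_lit 14) (node
  (nat_lit 6) (nat_lit 0) (nat_lit 15) (node (nat_lit 4) (nat_lit 0) (nat_lit 16) (node (nat_lit
  5) (nat_lit 0) (nat_lit 17) (node (nat_lit 4) (nat_lit 0) (nat_lit 18) (node (nat_lit 6)
  (nat_lit 0) (nat_lit 19) (node (nat_lit 4) (nat_lit 166443) (nat_lit 20) (node (nat_lit 5)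
  (nat_lit 167565) (nat_lit 21) (node (nat_lit 6) (nat_lit 167530) (nat_lit 22) (node (nat_lit 4)
  (nat_lit 168814) (nat_lit 23) (node (nat_lit 6) (nat_lit 165921) (nat_lit 24) (node (nat_lit 5)
  (nat_lit 163593) (nat_lit 25) (node (nat_lit 6) (nat_lit 159194) (nat_lit 26) (node (nat_lit 4)
  (nat_lit 163301) (nat_lit 27) (node (nat_lit 5) (nat_lit 154361) (nat_lit 28) (node (nat_lit 6)
  (nat_lit 146881) (nat_lit 29) (node (nat_lit 5) (nat_lit 144423) (nat_lit 30) (node (nat_lit 4)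
  (nat_lit 147340) (nat_lit 31) (node (nat_lit 6) (nat_lit 133861) (nat_lit 32) (node (nat_lit 5)
  (nat_lit 95015) (nat_lit 33) (node (nat_lit 6) (nat_lit 95033) (nat_lit 34) (node (nat_lit 4)
  (nat_lit 95047) (nat_lit 35) nil nil) nil) nil) nil) nil) nil) nil) nil) nil) nil) nil) nil)
  (node (nat_lit 5) (nat_lit 168479) (nat_lit 23) (node (nat_lit 4) (nat_lit 168717) (nat_lit 24)
  (node (nat_lit 5) (nat_lit 169422) (nat_lit 25) (node (nat_lit 6) (nat_lit 169370) (nat_lit 26)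
  (node (nat_lit 4) (nat_lit 169813) (nat_lit 27) (node (nat_lit 6) (nat_lit 169710) (nat_lit 28)
  (node (nat_lit 5) (nat_lit 169376) (nat_lit 29) (node (nat_lit 6) (nat_lit 167760) (nat_lit 30)
  (node (nat_lit 4) (nat_lit 168039) (nat_lit 31) (node (nat_lit 5) (nat_lit 165325) (nat_lit 32)
  nil nil) nil) nil) nil) nil) nil) nil) nil) nil) nil)) nil) nil) (node (nat_lit 5) (nat_lit
  166261) (nat_lit 20) (node (nat_lit 4) (nat_lit 167543) (nat_lit 21) (node (nat_lit 5) (nat_lit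
  168583) (nat_lit 22) (node (nat_lit 6) (nat_lit 168977) (nat_lit 23) (node (nat_lit 4) (nat_lit
  168597) (nat_lit 24) (node (nat_lit 6) (nat_lit 166709) (nat_lit 25) (node (nat_lit 5) (nat_lit
  166886) (nat_lit 26) (node (nat_lit 6) (nat_lit 163749) (nat_lit 27) (node (nat_lit 4) (nat_lit
  162541) (nat_lit 28) (node (nat_lit 5) (nat_lit 157777) (nat_lit 29) (node (nat_lit 6) (nat_lit
  149530) (nat_lit 30) (node (nat_lit 5) (nat_lit 147690) (nat_lit 31) (node (nat_lit 4) (nat_lit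
  149946) (nat_lit 32) (node (nat_lit 6) (nat_lit 139437) (nat_lit 33) nil nil) nil) nil) nil)
  nil) nil) nil) nil) nil) nil) nil) nil) (node (nat_lit 6) (nat_lit 167280) (nat_lit 21) nil
  nil)) (node (nat_lit 0) (nat_lit 168482) (nat_lit 20) nil nil))) (node (nat_lit 0) (nat_lit
  172689) (nat_lit 19) nil nil)) (node (nat_lit 6) (nat_lit 0) (nat_lit 18) (node (nat_lit 0)
  (nat_lit 166153) (nat_lit 19) nil nil) (node (nat_lit 0) (nat_lit 172849) (nat_lit 18) nil
  nil))) (node (nat_lit 6) (nat_lit 0) (nat_lit 17) (node (nat_lit 5) (nat_lit 0) (nat_lit 18)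
  (node (nat_lit 4) (nat_lit 0) (nat_lit 19) (node (nat_lit 6) (nat_lit 0) (nat_lit 20) (node
  (nat_lit 4) (nat_lit 166969) (nat_lit 21) (node (nat_lit 5) (nat_lit 168041) (nat_lit 22) (node
  (nat_lit 6) (nat_lit 167254) (nat_lit 23) (node (nat_lit 4) (nat_lit 167286) (nat_lit 24) (node
  (nat_lit 6) (nat_lit 165799) (nat_lit 25) (node (nat_lit 5) (nat_lit 164374) (nat_lit 26) (node
  (nat_lit 6) (nat_lit 160980) (nat_lit 27) (node (nat_lit 4) (nat_lit 164888) (nat_lit 28) (node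
  (nat_lit 5) (nat_lit 159376) (nat_lit 29) (node (nat_lit 6) (nat_lit 149241) (nat_lit 30) (node
  (nat_lit 5) (nat_lit 145344) (nat_lit 31) (node (nat_lit 4) (nat_lit 149392) (nat_lit 32) (node
  (nat_lit 6) (nat_lit 140210) (nat_lit 33) (node (nat_lit 5) (nat_lit 125965) (nat_lit 34) (node
  (nat_lit 6) (nat_lit 122044) (nat_lit 35) (node (nat_lit 4) (nat_lit 114375) (nat_lit 36) (node
  (nat_lit 6) (nat_lit 92867) (nat_lit 37) (node (nat_lit 5) (nat_lit 92866) (nat_lit 38) (node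
  (nat_lit 4) (nat_lit 92864) (nat_lit 39) nil nil) nil) nil) nil) nil) nil) nil) nil) nil) nil)
  nil) nil) nil) nil) nil) (node (nat_lit 5) (nat_lit 167468) (nat_lit 24) nil nil)) (node
  (nat_lit 4) (nat_lit 168037) (nat_lit 23) nil nil)) nil) (node (nat_lit 0) (nat_lit 169137)
  (nat_lit 21) nil nil)) (node (nat_lit 5) (nat_lit 0) (nat_lit 20) (node (nat_lit 6) (nat_lit
  164660) (nat_lit 21) (node (nat_lit 4) (nat_lit 164808) (nat_lit 22) (node (nat_lit 6) (nat_lit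
  162088) (nat_lit 23) (node (nat_lit 5) (nat_lit 160167) (nat_lit 24) (node (nat_lit 6) (nat_lit
  152243) (nat_lit 25) (node (nat_lit 4) (nat_lit 152125) (nat_lit 26) (node (nat_lit 5) (nat_lit
  148784) (nat_lit 27) (node (nat_lit 6) (nat_lit 144674) (nat_lit 28) (node (nat_lit 5) (nat_lit
  141502) (nat_lit 29) (node (nat_lit 4) (nat_lit 144817) (nat_lit 30) (node (nat_lit 6) (nat_lit
  123093) (nat_lit 31) (node (nat_lit 5) (nat_lit 76925) (nat_lit 32) (node (nat_lit 6) (nat_lit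
  76954) (nat_lit 33) (node (nat_lit 4) (nat_lit 76977) (nat_lit 34) (node (nat_lit 6) (nat_lit
  76995) (nat_lit 35) nil nil) nil) nil) nil) nil) nil) nil) nil) nil) nil) nil) nil) (node
  (nat_lit 5) (nat_lit 165644) (nat_lit 23) (node (nat_lit 4) (nat_lit 165518) (nat_lit 24) (node
  (nat_lit 6) (nat_lit 165436) (nat_lit 25) nil nil) nil) nil)) (node (nat_lit 5) (nat_lit 165585)
  (nat_lit 22) (node (nat_lit 4) (nat_lit 165487) (nat_lit 23) nil nil) nil)) (node (nat_lit 0)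
  (nat_lit 169808) (nat_lit 21) nil nil)) (node (nat_lit 0) (nat_lit 167623) (nat_lit 20) nil
  nil))) (node (nat_lit 0) (nat_lit 168124) (nat_lit 19) nil nil)) (node (nat_lit 0) (nat_lit
  168621) (nat_lit 18) nil nil)) (node (nat_lit 0) (nat_lit 173155) (nat_lit 17) nil nil))) (node
  (nat_lit 0) (nat_lit 174398) (nat_lit 16) (node (nat_lit 5) (nat_lit 174398) (nat_lit 17) nil
  nil) nil)) (node (nat_lit 0) (nat_lit 170392) (nat_lit 15) nil nil)) (node (nat_lit 4) (nat_lit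
  0) (nat_lit 14) (node (nat_lit 5) (nat_lit 0) (nat_lit 15) (node (nat_lit 4) (nat_lit 0)
  (nat_lit 16) (node (nat_lit 6) (nat_lit 0) (nat_lit 17) (node (nat_lit 5) (nat_lit 0) (nat_lit
  18) (node (nat_lit 6) (nat_lit 0) (nat_lit 19) (node (nat_lit 4) (nat_lit 166934) (nat_lit 20)
  (node (nat_lit 5) (nat_lit 169500) (nat_lit 21) (node (nat_lit 6) (nat_lit 0) (nat_lit 22) (node
  (nat_lit 5) (nat_lit 171766) (nat_lit 23) (node (nat_lit 4) (nat_lit 171968) (nat_lit 24) (node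
  (nat_lit 5) (nat_lit 172446) (nat_lit 25) (node (nat_lit 6) (nat_lit 172548) (nat_lit 26) (node
  (nat_lit 4) (nat_lit 172837) (nat_lit 27) (node (nat_lit 6) (nat_lit 172734) (nat_lit 28) (node
  (nat_lit 5) (nat_lit 172276) (nat_lit 29) (node (nat_lit 6) (nat_lit 171005) (nat_lit 30) (node
  (nat_lit 4) (nat_lit 169534) (nat_lit 31) (node (nat_lit 5) (nat_lit 166226) (nat_lit 32) nil
  nil) nil) nil) nil) nil) nil) nil) nil) nil) (node (nat_lit 0) (nat_lit 173318) (nat_lit 23) nil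
  nil)) (node (nat_lit 4) (nat_lit 170810) (nat_lit 22) (node (nat_lit 6) (nat_lit 171257)
  (nat_lit 23) (node (nat_lit 4) (nat_lit 171972) (nat_lit 24) (node (nat_lit 5) (nat_lit 172509)
  (nat_lit 25) (node (nat_lit 6) (nat_lit 172504) (nat_lit 26) (node (nat_lit 4) (nat_lit 172670)
  (nat_lit 27) (node (nat_lit 6) (nat_lit 171624) (nat_lit 28) (node (nat_lit 5) (nat_lit 170783)
  (nat_lit 29) nil nil) nil) nil) nil) nil) nil) nil) nil)) (node (nat_lit 6) (nat_lit 168971)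
  (nat_lit 21) (node (nat_lit 5) (nat_lit 170424) (nat_lit 22) (node (nat_lit 4) (nat_lit 170680)
  (nat_lit 23) (node (nat_lit 5) (nat_lit 171297) (nat_lit 24) (node (nat_lit 6) (nat_lit 171125)
  (nat_lit 25) (node (nat_lit 4) (nat_lit 171120) (nat_lit 26) (node (nat_lit 6) (nat_lit 170812)
  (nat_lit 27) (node (nat_lit 5) (nat_lit 170370) (nat_lit 28) (node (nat_lit 6) (nat_lit 168796)
  (nat_lit 29) nil nil) nil) nil) nil) nil) nil) nil) nil) nil)) (node (nat_lit 0) (nat_lit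
  168475) (nat_lit 20) nil nil)) (node (nat_lit 4) (nat_lit 0) (nat_lit 19) (node (nat_lit 5)
  (nat_lit 164930) (nat_lit 20) (node (nat_lit 6) (nat_lit 165035) (nat_lit 21) (node (nat_lit 4)
  (nat_lit 164446) (nat_lit 22) (node (nat_lit 6) (nat_lit 161293) (nat_lit 23) (node (nat_lit 5)
  (nat_lit 160674) (nat_lit 24) (node (nat_lit 6) (nat_lit 145299) (nat_lit 25) (node (nat_lit 4)
  (nat_lit 147110) (nat_lit 26) (node (nat_lit 5) (nat_lit 141074) (nat_lit 27) (node (nat_lit 6)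
  (nat_lit 137074) (nat_lit 28) (node (nat_lit 5) (nat_lit 137520) (nat_lit 29) (node (nat_lit 4)
  (nat_lit 132022) (nat_lit 30) (node (nat_lit 6) (nat_lit 132527) (nat_lit 31) (node (nat_lit 4)
  (nat_lit 111888) (nat_lit 32) (node (nat_lit 5) (nat_lit 99334) (nat_lit 33) (node (nat_lit 4)
  (nat_lit 76454) (nat_lit 34) nil nil) nil) nil) nil) nil) nil) nil) nil) nil) nil) nil) nil)
  (node (nat_lit 5) (nat_lit 165960) (nat_lit 22) (node (nat_lit 4) (nat_lit 164296) (nat_lit 23)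
  nil nil) nil)) nil) (node (nat_lit 0) (nat_lit 167759) (nat_lit 20) nil nil)) (node (nat_lit 0)
  (nat_lit 168757) (nat_lit 19) nil nil))) (node (nat_lit 0) (nat_lit 167962) (nat_lit 18) nil
  nil)) (node (nat_lit 0) (nat_lit 171072) (nat_lit 17) nil nil)) (node (nat_lit 6) (nat_lit 0)
  (nat_lit 16) (node (nat_lit 4) (nat_lit 0) (nat_lit 17) (node (nat_lit 6) (nat_lit 0) (nat_lit
  18) (node (nat_lit 5) (nat_lit 0) (nat_lit 19) (node (nat_lit 6) (nat_lit 143815) (nat_lit 20)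
  (node (nat_lit 4) (nat_lit 123708) (nat_lit 21) (node (nat_lit 5) (nat_lit 125436) (nat_lit 22)
  (node (nat_lit 4) (nat_lit 126365) (nat_lit 23) (node (nat_lit 6) (nat_lit 125938) (nat_lit 24)
  (node (nat_lit 4) (nat_lit 125304) (nat_lit 25) (node (nat_lit 5) (nat_lit 125500) (nat_lit 26)
  (node (nat_lit 6) (nat_lit 124984) (nat_lit 27) (node (nat_lit 4) (nat_lit 125000) (nat_lit 28)
  (node (nat_lit 6) (nat_lit 124083) (nat_lit 29) (node (nat_lit 5) (nat_lit 123357) (nat_lit 30)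
  (node (nat_lit 6) (nat_lit 122510) (nat_lit 31) nil nil) nil) nil) nil) nil) nil) (node (nat_lit
  5) (nat_lit 125691) (nat_lit 25) nil nil)) nil) (node (nat_lit 6) (nat_lit 93601) (nat_lit 23)
  (node (nat_lit 5) (nat_lit 93546) (nat_lit 24) (node (nat_lit 4) (nat_lit 93502) (nat_lit 25)
  nil nil) nil) nil)) nil) nil) (node (nat_lit 4) (nat_lit 159576) (nat_lit 20) (node (nat_lit 5)
  (nat_lit 161352) (nat_lit 21) (node (nat_lit 6) (nat_lit 161519) (nat_lit 22) (node (nat_lit 4)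
  (nat_lit 161671) (nat_lit 23) (node (nat_lit 6) (nat_lit 155628) (nat_lit 24) nil nil) nil) nil)
  (node (nat_lit 6) (nat_lit 160895) (nat_lit 21) (node (nat_lit 4) (nat_lit 161731) (nat_lit 22)
  (node (nat_lit 5) (nat_lit 162592) (nat_lit 23) (node (nat_lit 6) (nat_lit 161815) (nat_lit 24)
  nil nil) nil) nil) nil)) (node (nat_lit 0) (nat_lit 161912) (nat_lit 20) nil nil))) (node
  (nat_lit 0) (nat_lit 162165) (nat_lit 19) nil nil)) (node (nat_lit 0) (nat_lit 167586) (nat_lit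
  18) nil nil)) (node (nat_lit 5) (nat_lit 0) (nat_lit 17) (node (nat_lit 0) (nat_lit 162833)
  (nat_lit 18) nil nil) (node (nat_lit 0) (nat_lit 167462) (nat_lit 17) nil nil))) (node (nat_lit
  0) (nat_lit 171155) (nat_lit 16) nil nil))) (node (nat_lit 0) (nat_lit 174278) (nat_lit 15)
  (node (nat_lit 4) (nat_lit 174278) (nat_lit 16) nil (node (nat_lit 6) (nat_lit 174278) (nat_lit
  16) nil (node (nat_lit 5) (nat_lit 174278) (nat_lit 16) nil nil))) nil)) (node (nat_lit 0)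
  (nat_lit 173889) (nat_lit 14) (node (nat_lit 5) (nat_lit 173889) (nat_lit 15) nil (node (nat_lit
  4) (nat_lit 173889) (nat_lit 15) nil (node (nat_lit 6) (nat_lit 173889) (nat_lit 15) nil nil)))
  nil))) (node (nat_lit 5) (nat_lit 0) (nat_lit 13) (node (nat_lit 6) (nat_lit 0) (nat_lit 14)
  (node (nat_lit 4) (nat_lit 0) (nat_lit 15) (node (nat_lit 6) (nat_lit 0) (nat_lit 16) (node
  (nat_lit 5) (nat_lit 0) (nat_lit 17) (node (nat_lit 4) (nat_lit 0) (nat_lit 18) (node (nat_lit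
  6) (nat_lit 0) (nat_lit 19) (node (nat_lit 4) (nat_lit 0) (nat_lit 20) (node (nat_lit 5)
  (nat_lit 128220) (nat_lit 21) (node (nat_lit 6) (nat_lit 128897) (nat_lit 22) (node (nat_lit 4)
  (nat_lit 128050) (nat_lit 23) (node (nat_lit 6) (nat_lit 125894) (nat_lit 24) (node (nat_lit 5)
  (nat_lit 122370) (nat_lit 25) (node (nat_lit 6) (nat_lit 121933) (nat_lit 26) (node (nat_lit 4)
  (nat_lit 123264) (nat_lit 27) (node (nat_lit 5) (nat_lit 114852) (nat_lit 28) (node (nat_lit 6)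
  (nat_lit 110558) (nat_lit 29) (node (nat_lit 5) (nat_lit 99066) (nat_lit 30) (node (nat_lit 4)
  (nat_lit 95849) (nat_lit 31) (node (nat_lit 5) (nat_lit 85857) (nat_lit 32) (node (nat_lit 6)
  (nat_lit 82157) (nat_lit 33) (node (nat_lit 4) (nat_lit 69529) (nat_lit 34) nil nil) nil) nil)
  nil) nil) nil) nil) nil) nil) nil) nil) (node (nat_lit 5) (nat_lit 129787) (nat_lit 23) (node
  (nat_lit 4) (nat_lit 129995) (nat_lit 24) (node (nat_lit 5) (nat_lit 130538) (nat_lit 25) (node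
  (nat_lit 6) (nat_lit 130915) (nat_lit 26) (node (nat_lit 4) (nat_lit 131235) (nat_lit 27) (node
  (nat_lit 6) (nat_lit 131486) (nat_lit 28) (node (nat_lit 5) (nat_lit 131656) (nat_lit 29) (node
  (nat_lit 6) (nat_lit 131794) (nat_lit 30) (node (nat_lit 4) (nat_lit 131914) (nat_lit 31) (node
  (nat_lit 5) (nat_lit 131476) (nat_lit 32) nil nil) nil) nil) nil) nil) nil) nil) nil) nil) nil))
  (node (nat_lit 4) (nat_lit 128399) (nat_lit 22) (node (nat_lit 6) (nat_lit 127466) (nat_lit 23)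
  (node (nat_lit 5) (nat_lit 127680) (nat_lit 24) nil nil) nil) nil)) (node (nat_lit 0) (nat_lit
  130428) (nat_lit 21) nil nil)) (node (nat_lit 0) (nat_lit 129459) (nat_lit 20) nil nil)) (node
  (nat_lit 5) (nat_lit 0) (nat_lit 19) (node (nat_lit 6) (nat_lit 124991) (nat_lit 20) (node
  (nat_lit 5) (nat_lit 127423) (nat_lit 21) (node (nat_lit 4) (nat_lit 129114) (nat_lit 22) (node
  (nat_lit 6) (nat_lit 129913) (nat_lit 23) (node (nat_lit 4) (nat_lit 130480) (nat_lit 24) (node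
  (nat_lit 5) (nat_lit 131017) (nat_lit 25) (node (nat_lit 6) (nat_lit 130628) (nat_lit 26) (node
  (nat_lit 4) (nat_lit 130653) (nat_lit 27) (node (nat_lit 6) (nat_lit 130337) (nat_lit 28) (node
  (nat_lit 5) (nat_lit 129962) (nat_lit 29) (node (nat_lit 6) (nat_lit 128687) (nat_lit 30) (node
  (nat_lit 4) (nat_lit 127482) (nat_lit 31) (node (nat_lit 5) (nat_lit 124326) (nat_lit 32) (node
  (nat_lit 6) (nat_lit 123969) (nat_lit 33) (node (nat_lit 5) (nat_lit 122878) (nat_lit 34) (node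
  (nat_lit 4) (nat_lit 120062) (nat_lit 35) nil nil) nil) nil) nil) nil) nil) nil) nil) nil) nil)
  nil) nil) nil) nil) nil) (node (nat_lit 0) (nat_lit 129433) (nat_lit 20) nil nil)) (node
  (nat_lit 0) (nat_lit 131686) (nat_lit 19) nil nil))) (node (nat_lit 6) (nat_lit 0) (nat_lit 18)
  (node (nat_lit 4) (nat_lit 125883) (nat_lit 19) (node (nat_lit 5) (nat_lit 75354) (nat_lit 20)
  (node (nat_lit 4) (nat_lit 76720) (nat_lit 21) (node (nat_lit 6) (nat_lit 77721) (nat_lit 22)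
  (node (nat_lit 5) (nat_lit 78066) (nat_lit 23) nil (node (nat_lit 4) (nat_lit 78405) (nat_lit
  23) (node (nat_lit 5) (nat_lit 78688) (nat_lit 24) (node (nat_lit 6) (nat_lit 78630) (nat_lit
  25) (node (nat_lit 4) (nat_lit 78053) (nat_lit 26) (node (nat_lit 6) (nat_lit 77102) (nat_lit
  27) (node (nat_lit 5) (nat_lit 76575) (nat_lit 28) nil nil) nil) nil) nil) nil) nil)) nil) (node
  (nat_lit 6) (nat_lit 75921) (nat_lit 21) nil nil)) nil) (node (nat_lit 0) (nat_lit 128299)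
  (nat_lit 19) nil nil)) (node (nat_lit 0) (nat_lit 132771) (nat_lit 18) nil nil))) (node (nat_lit
  0) (nat_lit 134548) (nat_lit 17) nil nil)) (node (nat_lit 5) (nat_lit 0) (nat_lit 16) (node
  (nat_lit 4) (nat_lit 0) (nat_lit 17) (node (nat_lit 6) (nat_lit 0) (nat_lit 18) (node (nat_lit
  5) (nat_lit 0) (nat_lit 19) (node (nat_lit 6) (nat_lit 153002) (nat_lit 20) (node (nat_lit 4)
  (nat_lit 154466) (nat_lit 21) (node (nat_lit 6) (nat_lit 155634) (nat_lit 22) (node (nat_lit 5)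
  (nat_lit 156411) (nat_lit 23) (node (nat_lit 4) (nat_lit 156458) (nat_lit 24) (node (nat_lit 5)
  (nat_lit 156936) (nat_lit 25) (node (nat_lit 6) (nat_lit 157038) (nat_lit 26) (node (nat_lit 4)
  (nat_lit 157327) (nat_lit 27) (node (nat_lit 6) (nat_lit 157224) (nat_lit 28) (node (nat_lit 5)
  (nat_lit 156891) (nat_lit 29) (node (nat_lit 6) (nat_lit 156357) (nat_lit 30) (node (nat_lit 4)
  (nat_lit 155720) (nat_lit 31) (node (nat_lit 5) (nat_lit 154020) (nat_lit 32) (node (nat_lit 6)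
  (nat_lit 151776) (nat_lit 33) (node (nat_lit 5) (nat_lit 146431) (nat_lit 34) (node (nat_lit 4)
  (nat_lit 141943) (nat_lit 35) nil nil) nil) nil) nil) nil) nil) nil) nil) nil) nil) nil) nil)
  nil) (node (nat_lit 5) (nat_lit 155473) (nat_lit 22) (node (nat_lit 6) (nat_lit 156385) (nat_lit
  23) (node (nat_lit 5) (nat_lit 156997) (nat_lit 24) (node (nat_lit 4) (nat_lit 157034) (nat_lit
  25) (node (nat_lit 5) (nat_lit 157401) (nat_lit 26) (node (nat_lit 6) (nat_lit 157458) (nat_lit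
  27) (node (nat_lit 4) (nat_lit 157667) (nat_lit 28) (node (nat_lit 6) (nat_lit 157525) (nat_lit
  29) nil nil) nil) nil) nil) nil) nil) nil) nil)) nil) (node (nat_lit 4) (nat_lit 151920)
  (nat_lit 20) (node (nat_lit 5) (nat_lit 153583) (nat_lit 21) (node (nat_lit 6) (nat_lit 153964)
  (nat_lit 22) (node (nat_lit 4) (nat_lit 151492) (nat_lit 23) (node (nat_lit 6) (nat_lit 151695)
  (nat_lit 24) (node (nat_lit 5) (nat_lit 150583) (nat_lit 25) (node (nat_lit 6) (nat_lit 147322)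
  (nat_lit 26) (node (nat_lit 4) (nat_lit 142794) (nat_lit 27) (node (nat_lit 5) (nat_lit 134181)
  (nat_lit 28) (node (nat_lit 6) (nat_lit 142678) (nat_lit 29) (node (nat_lit 5) (nat_lit 136415)
  (nat_lit 30) (node (nat_lit 4) (nat_lit 123926) (nat_lit 31) (node (nat_lit 5) (nat_lit 116883)
  (nat_lit 32) (node (nat_lit 6) (nat_lit 117306) (nat_lit 33) (node (nat_lit 4) (nat_lit 99208)
  (nat_lit 34) (node (nat_lit 5) (nat_lit 78967) (nat_lit 35) (node (nat_lit 4) (nat_lit 78954)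
  (nat_lit 36) (node (nat_lit 6) (nat_lit 78958) (nat_lit 37) nil nil) nil) nil) nil) nil) nil)
  nil) nil) nil) nil) nil) nil) nil) nil) (node (nat_lit 5) (nat_lit 154742) (nat_lit 23) (node
  (nat_lit 4) (nat_lit 153443) (nat_lit 24) nil nil) nil)) nil) nil) (node (nat_lit 0) (nat_lit
  155695) (nat_lit 20) nil nil))) (node (nat_lit 4) (nat_lit 0) (nat_lit 19) (node (nat_lit 5)
  (nat_lit 150668) (nat_lit 20) (node (nat_lit 6) (nat_lit 150757) (nat_lit 21) (node (nat_lit 4)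
  (nat_lit 151585) (nat_lit 22) (node (nat_lit 6) (nat_lit 147744) (nat_lit 23) (node (nat_lit 5)
  (nat_lit 148477) (nat_lit 24) (node (nat_lit 6) (nat_lit 137246) (nat_lit 25) (node (nat_lit 4)
  (nat_lit 139048) (nat_lit 26) (node (nat_lit 5) (nat_lit 130112) (nat_lit 27) (node (nat_lit 6)
  (nat_lit 136859) (nat_lit 28) (node (nat_lit 5) (nat_lit 125583) (nat_lit 29) (node (nat_lit 4)
  (nat_lit 116651) (nat_lit 30) (node (nat_lit 5) (nat_lit 77988) (nat_lit 31) (node (nat_lit 6)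
  (nat_lit 77801) (nat_lit 32) (node (nat_lit 4) (nat_lit 77777) (nat_lit 33) (node (nat_lit 5)
  (nat_lit 77795) (nat_lit 34) nil nil) nil) nil) nil) nil) nil) nil) nil) nil) nil) nil) nil)
  (node (nat_lit 5) (nat_lit 151554) (nat_lit 22) (node (nat_lit 4) (nat_lit 151624) (nat_lit 23)
  (node (nat_lit 5) (nat_lit 152260) (nat_lit 24) (node (nat_lit 6) (nat_lit 152422) (nat_lit 25)
  (node (nat_lit 4) (nat_lit 152708) (nat_lit 26) (node (nat_lit 6) (nat_lit 152469) (nat_lit 27)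
  (node (nat_lit 5) (nat_lit 152004) (nat_lit 28) (node (nat_lit 6) (nat_lit 151202) (nat_lit 29)
  (node (nat_lit 4) (nat_lit 149961) (nat_lit 30) (node (nat_lit 5) (nat_lit 147508) (nat_lit 31)
  (node (nat_lit 6) (nat_lit 143434) (nat_lit 32) (node (nat_lit 5) (nat_lit 137883) (nat_lit 33)
  (node (nat_lit 4) (nat_lit 134479) (nat_lit 34) nil nil) nil) nil) nil) nil) nil) nil) nil) nil)
  nil) (node (nat_lit 6) (nat_lit 151933) (nat_lit 24) nil nil)) nil) nil)) nil) (node (nat_lit 0)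
  (nat_lit 152946) (nat_lit 20) nil nil)) (node (nat_lit 0) (nat_lit 155357) (nat_lit 19) nil
  nil))) (node (nat_lit 0) (nat_lit 157559) (nat_lit 18) nil nil)) (node (nat_lit 0) (nat_lit
  158000) (nat_lit 17) nil nil)) (node (nat_lit 0) (nat_lit 157176) (nat_lit 16) nil nil))) (node
  (nat_lit 0) (nat_lit 158068) (nat_lit 15) (node (nat_lit 6) (nat_lit 158068) (nat_lit 16) nil
  nil) nil)) (node (nat_lit 0) (nat_lit 171813) (nat_lit 14) (node (nat_lit 4) (nat_lit 171813)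
  (nat_lit 15) (node (nat_lit 5) (nat_lit 171813) (nat_lit 16) (node (nat_lit 6) (nat_lit 171813)
  (nat_lit 17) (node (nat_lit 4) (nat_lit 171813) (nat_lit 18) (node (nat_lit 6) (nat_lit 171813)
  (nat_lit 19) (node (nat_lit 5) (nat_lit 171813) (nat_lit 20) (node (nat_lit 6) (nat_lit 171813)
  (nat_lit 21) (node (nat_lit 4) (nat_lit 172608) (nat_lit 22) (node (nat_lit 5) (nat_lit 173229)
  (nat_lit 23) (node (nat_lit 6) (nat_lit 173300) (nat_lit 24) nil nil) nil) nil) nil) nil) nil)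
  nil) nil) nil) (node (nat_lit 5) (nat_lit 171813) (nat_lit 15) nil nil)) nil)) (node (nat_lit 0)
  (nat_lit 174474) (nat_lit 13) (node (nat_lit 5) (nat_lit 174474) (nat_lit 14) (node (nat_lit 4)
  (nat_lit 174474) (nat_lit 15) (node (nat_lit 5) (nat_lit 174474) (nat_lit 16) (node (nat_lit 6)
  (nat_lit 174474) (nat_lit 17) (node (nat_lit 4) (nat_lit 174474) (nat_lit 18) (node (nat_lit 6)
  (nat_lit 174474) (nat_lit 19) (node (nat_lit 5) (nat_lit 174474) (nat_lit 20) (node (nat_lit 6)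
  (nat_lit 175852) (nat_lit 21) (node (nat_lit 4) (nat_lit 176446) (nat_lit 22) (node (nat_lit 5)
  (nat_lit 176908) (nat_lit 23) nil nil) nil) nil) nil) nil) nil) nil) (node (nat_lit 6) (nat_lit
  174474) (nat_lit 16) nil nil)) nil) (node (nat_lit 4) (nat_lit 174474) (nat_lit 14) (node
  (nat_lit 5) (nat_lit 174474) (nat_lit 15) (node (nat_lit 6) (nat_lit 174474) (nat_lit 16) (node
  (nat_lit 4) (nat_lit 174474) (nat_lit 17) (node (nat_lit 6) (nat_lit 174474) (nat_lit 18) (node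
  (nat_lit 5) (nat_lit 174474) (nat_lit 19) (node (nat_lit 6) (nat_lit 174474) (nat_lit 20) (node
  (nat_lit 4) (nat_lit 175493) (nat_lit 21) nil nil) nil) nil) nil) nil) nil) (node (nat_lit 6)
  (nat_lit 174474) (nat_lit 15) nil nil)) (node (nat_lit 6) (nat_lit 174474) (nat_lit 14) (node
  (nat_lit 4) (nat_lit 174474) (nat_lit 15) nil nil) nil))) nil)))

noncomputable def t68 : Tr :=
  (node (nat_lit 4) (nat_lit 0) (nat_lit 10) (node (nat_lit 6) (nat_lit 0) (nat_lit 11) (node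
  (nat_lit 5) (nat_lit 0) (nat_lit 12) t65 (node (nat_lit 4) (nat_lit 0) (nat_lit 12) t66 (node
  (nat_lit 0) (nat_lit 170837) (nat_lit 12) (node (nat_lit 4) (nat_lit 170837) (nat_lit 13) (node
  (nat_lit 6) (nat_lit 170837) (nat_lit 14) (node (nat_lit 4) (nat_lit 170837) (nat_lit 15) (node
  (nat_lit 5) (nat_lit 170837) (nat_lit 16) (node (nat_lit 6) (nat_lit 170837) (nat_lit 17) (node
  (nat_lit 4) (nat_lit 170837) (nat_lit 18) (node (nat_lit 6) (nat_lit 170837) (nat_lit 19) (node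
  (nat_lit 5) (nat_lit 172776) (nat_lit 20) (node (nat_lit 6) (nat_lit 174288) (nat_lit 21) (node
  (nat_lit 4) (nat_lit 175176) (nat_lit 22) (node (nat_lit 5) (nat_lit 176069) (nat_lit 23) (node
  (nat_lit 4) (nat_lit 176623) (nat_lit 24) (node (nat_lit 6) (nat_lit 176723) (nat_lit 25) nil
  nil) nil) nil) nil) nil) nil) nil) nil) nil) nil) (node (nat_lit 5) (nat_lit 170837) (nat_lit
  15) nil nil)) (node (nat_lit 5) (nat_lit 170837) (nat_lit 14) (node (nat_lit 6) (nat_lit 170837)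
  (nat_lit 15) (node (nat_lit 4) (nat_lit 170837) (nat_lit 16) (node (nat_lit 6) (nat_lit 170837)
  (nat_lit 17) (node (nat_lit 5) (nat_lit 170837) (nat_lit 18) (node (nat_lit 6) (nat_lit 170837)
  (nat_lit 19) (node (nat_lit 4) (nat_lit 172143) (nat_lit 20) nil nil) nil) nil) nil) nil) (node
  (nat_lit 4) (nat_lit 170837) (nat_lit 15) nil nil)) nil)) (node (nat_lit 6) (nat_lit 170837)
  (nat_lit 13) (node (nat_lit 4) (nat_lit 170837) (nat_lit 14) (node (nat_lit 5) (nat_lit 170837)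
  (nat_lit 15) (node (nat_lit 6) (nat_lit 170837) (nat_lit 16) (node (nat_lit 4) (nat_lit 170837)
  (nat_lit 17) (node (nat_lit 6) (nat_lit 170837) (nat_lit 18) (node (nat_lit 5) (nat_lit 170837)
  (nat_lit 19) (node (nat_lit 6) (nat_lit 172496) (nat_lit 20) (node (nat_lit 4) (nat_lit 173791)
  (nat_lit 21) (node (nat_lit 5) (nat_lit 174388) (nat_lit 22) nil nil) nil) nil) nil) nil) nil)
  nil) (node (nat_lit 6) (nat_lit 170837) (nat_lit 15) (node (nat_lit 5) (nat_lit 170837) (nat_lit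
  16) nil nil) nil)) (node (nat_lit 5) (nat_lit 170837) (nat_lit 14) (node (nat_lit 4) (nat_lit
  170837) (nat_lit 15) (node (nat_lit 5) (nat_lit 170837) (nat_lit 16) (node (nat_lit 6) (nat_lit
  170837) (nat_lit 17) (node (nat_lit 4) (nat_lit 170837) (nat_lit 18) (node (nat_lit 6) (nat_lit
  170837) (nat_lit 19) (node (nat_lit 5) (nat_lit 173086) (nat_lit 20) nil nil) nil) nil) nil)
  nil) (node (nat_lit 6) (nat_lit 170837) (nat_lit 15) nil nil)) nil)) (node (nat_lit 5) (nat_lit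
  170837) (nat_lit 13) (node (nat_lit 4) (nat_lit 170837) (nat_lit 14) (node (nat_lit 5) (nat_lit
  170837) (nat_lit 15) (node (nat_lit 6) (nat_lit 170837) (nat_lit 16) (node (nat_lit 4) (nat_lit
  170837) (nat_lit 17) (node (nat_lit 6) (nat_lit 170837) (nat_lit 18) (node (nat_lit 5) (nat_lit
  170837) (nat_lit 19) (node (nat_lit 6) (nat_lit 172601) (nat_lit 20) (node (nat_lit 4) (nat_lit
  173363) (nat_lit 21) (node (nat_lit 5) (nat_lit 173956) (nat_lit 22) (node (nat_lit 4) (nat_lit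
  173794) (nat_lit 23) (node (nat_lit 6) (nat_lit 174237) (nat_lit 24) nil nil) nil) nil) nil)
  nil) nil) nil) nil) nil) (node (nat_lit 6) (nat_lit 170837) (nat_lit 15) (node (nat_lit 5)
  (nat_lit 170837) (nat_lit 16) nil nil) nil)) (node (nat_lit 6) (nat_lit 170837) (nat_lit 14)
  (node (nat_lit 4) (nat_lit 170837) (nat_lit 15) (node (nat_lit 6) (nat_lit 170837) (nat_lit 16)
  nil nil) (node (nat_lit 5) (nat_lit 170837) (nat_lit 15) (node (nat_lit 4) (nat_lit 170837)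
  (nat_lit 16) nil nil) nil)) nil)) (node (nat_lit 0) (nat_lit 172143) (nat_lit 13) nil nil))))
  nil))) (node (nat_lit 0) (nat_lit 166013) (nat_lit 11) (node (nat_lit 4) (nat_lit 166013)
  (nat_lit 12) (node (nat_lit 5) (nat_lit 166013) (nat_lit 13) (node (nat_lit 6) (nat_lit 166013)
  (nat_lit 14) (node (nat_lit 4) (nat_lit 166013) (nat_lit 15) (node (nat_lit 6) (nat_lit 166013)
  (nat_lit 16) (node (nat_lit 5) (nat_lit 166013) (nat_lit 17) (node (nat_lit 6) (nat_lit 166013)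
  (nat_lit 18) (node (nat_lit 4) (nat_lit 167686) (nat_lit 19) (node (nat_lit 5) (nat_lit 168992)
  (nat_lit 20) nil nil) nil) nil) nil) nil) (node (nat_lit 5) (nat_lit 166013) (nat_lit 15) nil
  nil)) (node (nat_lit 4) (nat_lit 166013) (nat_lit 14) (node (nat_lit 6) (nat_lit 166013)
  (nat_lit 15) nil nil) nil)) (node (nat_lit 6) (nat_lit 166013) (nat_lit 13) (node (nat_lit 4)
  (nat_lit 166013) (nat_lit 14) (node (nat_lit 5) (nat_lit 166013) (nat_lit 15) (node (nat_lit 6)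
  (nat_lit 166013) (nat_lit 16) (node (nat_lit 4) (nat_lit 166013) (nat_lit 17) (node (nat_lit 6)
  (nat_lit 166013) (nat_lit 18) (node (nat_lit 5) (nat_lit 168496) (nat_lit 19) (node (nat_lit 6)
  (nat_lit 170435) (nat_lit 20) (node (nat_lit 4) (nat_lit 171573) (nat_lit 21) (node (nat_lit 5)
  (nat_lit 172716) (nat_lit 22) (node (nat_lit 4) (nat_lit 173426) (nat_lit 23) nil nil) nil) nil)
  nil) nil) nil) nil) nil) nil) (node (nat_lit 5) (nat_lit 166013) (nat_lit 14) (node (nat_lit 4)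
  (nat_lit 166013) (nat_lit 15) nil (node (nat_lit 6) (nat_lit 166013) (nat_lit 15) nil nil))
  nil)) nil)) (node (nat_lit 5) (nat_lit 166013) (nat_lit 12) (node (nat_lit 4) (nat_lit 166013)
  (nat_lit 13) (node (nat_lit 5) (nat_lit 166013) (nat_lit 14) (node (nat_lit 6) (nat_lit 166013)
  (nat_lit 15) (node (nat_lit 4) (nat_lit 166013) (nat_lit 16) (node (nat_lit 6) (nat_lit 166013)
  (nat_lit 17) (node (nat_lit 5) (nat_lit 166013) (nat_lit 18) (node (nat_lit 6) (nat_lit 168274)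
  (nat_lit 19) (node (nat_lit 4) (nat_lit 169249) (nat_lit 20) (node (nat_lit 5) (nat_lit 170010)
  (nat_lit 21) (node (nat_lit 4) (nat_lit 169804) (nat_lit 22) nil nil) nil) nil) nil) nil) nil)
  (node (nat_lit 5) (nat_lit 166013) (nat_lit 16) nil nil)) nil) (node (nat_lit 6) (nat_lit
  166013) (nat_lit 14) nil nil)) (node (nat_lit 6) (nat_lit 166013) (nat_lit 13) (node (nat_lit 4)
  (nat_lit 166013) (nat_lit 14) (node (nat_lit 6) (nat_lit 166013) (nat_lit 15) nil (node (nat_lit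
  5) (nat_lit 166013) (nat_lit 15) nil nil)) (node (nat_lit 5) (nat_lit 166013) (nat_lit 14) nil
  nil)) (node (nat_lit 14) (nat_lit 168992) (nat_lit 13) (node (nat_lit 4) (nat_lit 168992)
  (nat_lit 14) (node (nat_lit 5) (nat_lit 168992) (nat_lit 15) (node (nat_lit 6) (nat_lit 168992)
  (nat_lit 16) (node (nat_lit 4) (nat_lit 168992) (nat_lit 17) (node (nat_lit 6) (nat_lit 168992)
  (nat_lit 18) (node (nat_lit 5) (nat_lit 168992) (nat_lit 19) (node (nat_lit 6) (nat_lit 168992)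
  (nat_lit 20) (node (nat_lit 4) (nat_lit 170011) (nat_lit 21) (node (nat_lit 5) (nat_lit 170806)
  (nat_lit 22) nil nil) nil) nil) nil) nil) nil) nil) nil) nil) nil))) (node (nat_lit 6) (nat_lit
  166013) (nat_lit 12) (node (nat_lit 4) (nat_lit 166013) (nat_lit 13) (node (nat_lit 5) (nat_lit
  166013) (nat_lit 14) (node (nat_lit 6) (nat_lit 166013) (nat_lit 15) (node (nat_lit 4) (nat_lit
  166013) (nat_lit 16) (node (nat_lit 6) (nat_lit 166013) (nat_lit 17) (node (nat_lit 5) (nat_lit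
  166013) (nat_lit 18) (node (nat_lit 6) (nat_lit 168139) (nat_lit 19) (node (nat_lit 4) (nat_lit
  169797) (nat_lit 20) (node (nat_lit 5) (nat_lit 170563) (nat_lit 21) (node (nat_lit 4) (nat_lit
  171303) (nat_lit 22) nil nil) nil) nil) nil) nil) nil) nil) nil) (node (nat_lit 6) (nat_lit
  166013) (nat_lit 14) (node (nat_lit 5) (nat_lit 166013) (nat_lit 15) nil nil) nil)) (node
  (nat_lit 5) (nat_lit 166013) (nat_lit 13) (node (nat_lit 4) (nat_lit 166013) (nat_lit 14) (node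
  (nat_lit 5) (nat_lit 166013) (nat_lit 15) (node (nat_lit 6) (nat_lit 166013) (nat_lit 16) (node
  (nat_lit 4) (nat_lit 166013) (nat_lit 17) (node (nat_lit 6) (nat_lit 166013) (nat_lit 18) (node
  (nat_lit 5) (nat_lit 168895) (nat_lit 19) (node (nat_lit 6) (nat_lit 170656) (nat_lit 20) (node
  (nat_lit 4) (nat_lit 171960) (nat_lit 21) (node (nat_lit 5) (nat_lit 172874) (nat_lit 22) nil
  nil) nil) nil) nil) nil) nil) nil) nil) (node (nat_lit 6) (nat_lit 166013) (nat_lit 14) nil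
  nil)) (node (nat_lit 14) (nat_lit 170435) (nat_lit 13) (node (nat_lit 4) (nat_lit 170435)
  (nat_lit 14) (node (nat_lit 6) (nat_lit 170435) (nat_lit 15) (node (nat_lit 4) (nat_lit 170435)
  (nat_lit 16) (node (nat_lit 5) (nat_lit 170435) (nat_lit 17) (node (nat_lit 6) (nat_lit 170435)
  (nat_lit 18) (node (nat_lit 4) (nat_lit 170435) (nat_lit 19) (node (nat_lit 6) (nat_lit 170435)
  (nat_lit 20) (node (nat_lit 5) (nat_lit 171948) (nat_lit 21) (node (nat_lit 6) (nat_lit 173129)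
  (nat_lit 22) (node (nat_lit 4) (nat_lit 173821) (nat_lit 23) nil nil) nil) nil) nil) nil) nil)
  nil) nil) nil) nil) nil))) (node (nat_lit 0) (nat_lit 167686) (nat_lit 12) nil nil)))) nil))
  (node (nat_lit 6) (nat_lit 0) (nat_lit 10) (node (nat_lit 5) (nat_lit 0) (nat_lit 11) (node
  (nat_lit 4) (nat_lit 0) (nat_lit 12) t67 (node (nat_lit 0) (nat_lit 172837) (nat_lit 12) (node
  (nat_lit 6) (nat_lit 172837) (nat_lit 13) (node (nat_lit 5) (nat_lit 172837) (nat_lit 14) (node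
  (nat_lit 4) (nat_lit 172837) (nat_lit 15) (node (nat_lit 5) (nat_lit 172837) (nat_lit 16) (node
  (nat_lit 6) (nat_lit 172837) (nat_lit 17) (node (nat_lit 4) (nat_lit 172837) (nat_lit 18) (node
  (nat_lit 6) (nat_lit 172837) (nat_lit 19) (node (nat_lit 5) (nat_lit 175085) (nat_lit 20) nil
  nil) nil) nil) nil) (node (nat_lit 6) (nat_lit 172837) (nat_lit 16) nil nil)) (node (nat_lit 6)
  (nat_lit 172837) (nat_lit 15) (node (nat_lit 4) (nat_lit 172837) (nat_lit 16) nil nil) nil))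
  (node (nat_lit 4) (nat_lit 172837) (nat_lit 14) (node (nat_lit 5) (nat_lit 172837) (nat_lit 15)
  (node (nat_lit 6) (nat_lit 172837) (nat_lit 16) (node (nat_lit 4) (nat_lit 172837) (nat_lit 17)
  (node (nat_lit 6) (nat_lit 172837) (nat_lit 18) (node (nat_lit 5) (nat_lit 172837) (nat_lit 19)
  (node (nat_lit 6) (nat_lit 174142) (nat_lit 20) (node (nat_lit 4) (nat_lit 175162) (nat_lit 21)
  (node (nat_lit 5) (nat_lit 175957) (nat_lit 22) nil nil) nil) nil) nil) nil) nil) nil) (node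
  (nat_lit 6) (nat_lit 172837) (nat_lit 15) nil nil)) nil)) (node (nat_lit 5) (nat_lit 172837)
  (nat_lit 13) (node (nat_lit 6) (nat_lit 172837) (nat_lit 14) (node (nat_lit 4) (nat_lit 172837)
  (nat_lit 15) (node (nat_lit 6) (nat_lit 172837) (nat_lit 16) nil nil) nil) (node (nat_lit 4)
  (nat_lit 172837) (nat_lit 14) (node (nat_lit 6) (nat_lit 172837) (nat_lit 15) nil (node (nat_lit
  5) (nat_lit 172837) (nat_lit 15) nil nil)) nil)) (node (nat_lit 4) (nat_lit 172837) (nat_lit 13)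
  (node (nat_lit 5) (nat_lit 172837) (nat_lit 14) (node (nat_lit 6) (nat_lit 172837) (nat_lit 15)
  (node (nat_lit 4) (nat_lit 172837) (nat_lit 16) (node (nat_lit 6) (nat_lit 172837) (nat_lit 17)
  (node (nat_lit 5) (nat_lit 172837) (nat_lit 18) (node (nat_lit 6) (nat_lit 172837) (nat_lit 19)
  (node (nat_lit 4) (nat_lit 174142) (nat_lit 20) nil nil) nil) nil) nil) nil) (node (nat_lit 4)
  (nat_lit 172837) (nat_lit 15) nil nil)) (node (nat_lit 6) (nat_lit 172837) (nat_lit 14) (node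
  (nat_lit 5) (nat_lit 172837) (nat_lit 15) nil nil) nil)) (node (nat_lit 0) (nat_lit 174142)
  (nat_lit 13) nil nil)))) nil)) (node (nat_lit 0) (nat_lit 0) (nat_lit 11) (node (nat_lit 6)
  (nat_lit 170320) (nat_lit 12) (node (nat_lit 4) (nat_lit 170320) (nat_lit 13) (node (nat_lit 5)
  (nat_lit 170320) (nat_lit 14) (node (nat_lit 6) (nat_lit 170320) (nat_lit 15) (node (nat_lit 4)
  (nat_lit 170320) (nat_lit 16) (node (nat_lit 6) (nat_lit 170320) (nat_lit 17) (node (nat_lit 5)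
  (nat_lit 170320) (nat_lit 18) (node (nat_lit 6) (nat_lit 172445) (nat_lit 19) (node (nat_lit 4)
  (nat_lit 173770) (nat_lit 20) (node (nat_lit 5) (nat_lit 174789) (nat_lit 21) nil nil) nil) nil)
  nil) nil) nil) (node (nat_lit 4) (nat_lit 170320) (nat_lit 15) nil nil)) (node (nat_lit 6)
  (nat_lit 170320) (nat_lit 14) (node (nat_lit 5) (nat_lit 170320) (nat_lit 15) nil nil) nil))
  (node (nat_lit 5) (nat_lit 170320) (nat_lit 13) (node (nat_lit 4) (nat_lit 170320) (nat_lit 14)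
  (node (nat_lit 5) (nat_lit 170320) (nat_lit 15) (node (nat_lit 6) (nat_lit 170320) (nat_lit 16)
  (node (nat_lit 4) (nat_lit 170320) (nat_lit 17) (node (nat_lit 6) (nat_lit 170320) (nat_lit 18)
  (node (nat_lit 5) (nat_lit 173202) (nat_lit 19) (node (nat_lit 6) (nat_lit 174964) (nat_lit 20)
  (node (nat_lit 4) (nat_lit 176268) (nat_lit 21) (node (nat_lit 5) (nat_lit 177182) (nat_lit 22)
  nil nil) nil) nil) nil) nil) nil) nil) (node (nat_lit 6) (nat_lit 170320) (nat_lit 15) (node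
  (nat_lit 4) (nat_lit 170320) (nat_lit 16) nil nil) nil)) (node (nat_lit 6) (nat_lit 170320)
  (nat_lit 14) (node (nat_lit 4) (nat_lit 170320) (nat_lit 15) nil nil) nil)) nil)) (node (nat_lit
  5) (nat_lit 170320) (nat_lit 12) (node (nat_lit 4) (nat_lit 170320) (nat_lit 13) (node (nat_lit
  5) (nat_lit 170320) (nat_lit 14) (node (nat_lit 6) (nat_lit 170320) (nat_lit 15) (node (nat_lit
  4) (nat_lit 170320) (nat_lit 16) (node (nat_lit 6) (nat_lit 170320) (nat_lit 17) (node (nat_lit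
  5) (nat_lit 170320) (nat_lit 18) (node (nat_lit 6) (nat_lit 172581) (nat_lit 19) (node (nat_lit
  4) (nat_lit 173556) (nat_lit 20) (node (nat_lit 5) (nat_lit 174317) (nat_lit 21) (node (nat_lit
  6) (nat_lit 175332) (nat_lit 22) nil nil) nil) nil) nil) nil) nil) nil) nil) (node (nat_lit 6)
  (nat_lit 170320) (nat_lit 14) (node (nat_lit 5) (nat_lit 170320) (nat_lit 15) nil nil) nil))
  (node (nat_lit 6) (nat_lit 170320) (nat_lit 13) (node (nat_lit 4) (nat_lit 170320) (nat_lit 14)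
  (node (nat_lit 6) (nat_lit 170320) (nat_lit 15) (node (nat_lit 5) (nat_lit 170320) (nat_lit 16)
  nil nil) nil) (node (nat_lit 5) (nat_lit 170320) (nat_lit 14) (node (nat_lit 4) (nat_lit 170320)
  (nat_lit 15) (node (nat_lit 5) (nat_lit 170320) (nat_lit 16) (node (nat_lit 6) (nat_lit 170320)
  (nat_lit 17) (node (nat_lit 4) (nat_lit 170436) (nat_lit 18) (node (nat_lit 6) (nat_lit 173407)
  (nat_lit 19) nil nil) nil) nil) (node (nat_lit 6) (nat_lit 170320) (nat_lit 16) nil nil)) nil)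
  nil)) nil)) (node (nat_lit 4) (nat_lit 170320) (nat_lit 12) (node (nat_lit 5) (nat_lit 170320)
  (nat_lit 13) (node (nat_lit 6) (nat_lit 170320) (nat_lit 14) (node (nat_lit 4) (nat_lit 170320)
  (nat_lit 15) (node (nat_lit 6) (nat_lit 170320) (nat_lit 16) (node (nat_lit 5) (nat_lit 170320)
  (nat_lit 17) (node (nat_lit 6) (nat_lit 170320) (nat_lit 18) (node (nat_lit 4) (nat_lit 171992)
  (nat_lit 19) (node (nat_lit 5) (nat_lit 173298) (nat_lit 20) (node (nat_lit 6) (nat_lit 173450)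
  (nat_lit 21) nil nil) nil) nil) nil) nil) nil) nil) (node (nat_lit 4) (nat_lit 170320) (nat_lit
  14) (node (nat_lit 6) (nat_lit 170320) (nat_lit 15) nil nil) nil)) (node (nat_lit 6) (nat_lit
  170320) (nat_lit 13) (node (nat_lit 4) (nat_lit 170320) (nat_lit 14) (node (nat_lit 5) (nat_lit
  170320) (nat_lit 15) (node (nat_lit 6) (nat_lit 170320) (nat_lit 16) nil nil) nil) (node
  (nat_lit 5) (nat_lit 170320) (nat_lit 14) nil nil)) nil)) (node (nat_lit 0) (nat_lit 171992)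
  (nat_lit 12) nil nil)))) nil)) (node (nat_lit 0) (nat_lit 165771) (nat_lit 10) (node (nat_lit 4)
  (nat_lit 165771) (nat_lit 11) (node (nat_lit 5) (nat_lit 165771) (nat_lit 12) (node (nat_lit 6)
  (nat_lit 165771) (nat_lit 13) (node (nat_lit 4) (nat_lit 165771) (nat_lit 14) (node (nat_lit 6)
  (nat_lit 165771) (nat_lit 15) (node (nat_lit 5) (nat_lit 165771) (nat_lit 16) (node (nat_lit 6)
  (nat_lit 165771) (nat_lit 17) (node (nat_lit 4) (nat_lit 167915) (nat_lit 18) (node (nat_lit 5)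
  (nat_lit 169588) (nat_lit 19) nil nil) nil) nil) nil) nil) (node (nat_lit 5) (nat_lit 165771)
  (nat_lit 14) nil nil)) (node (nat_lit 4) (nat_lit 165771) (nat_lit 13) (node (nat_lit 6)
  (nat_lit 165771) (nat_lit 14) (node (nat_lit 5) (nat_lit 165771) (nat_lit 15) nil nil) nil)
  nil)) (node (nat_lit 6) (nat_lit 165771) (nat_lit 12) (node (nat_lit 4) (nat_lit 165771)
  (nat_lit 13) (node (nat_lit 5) (nat_lit 165771) (nat_lit 14) (node (nat_lit 6) (nat_lit 165771)
  (nat_lit 15) (node (nat_lit 4) (nat_lit 165771) (nat_lit 16) (node (nat_lit 6) (nat_lit 165771)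
  (nat_lit 17) (node (nat_lit 5) (nat_lit 168954) (nat_lit 18) (node (nat_lit 6) (nat_lit 171437)
  (nat_lit 19) (node (nat_lit 4) (nat_lit 172895) (nat_lit 20) (node (nat_lit 5) (nat_lit 173977)
  (nat_lit 21) nil nil) nil) nil) nil) nil) nil) nil) nil) (node (nat_lit 5) (nat_lit 165771)
  (nat_lit 13) (node (nat_lit 4) (nat_lit 165771) (nat_lit 14) (node (nat_lit 5) (nat_lit 165771)
  (nat_lit 15) (node (nat_lit 6) (nat_lit 165771) (nat_lit 16) (node (nat_lit 4) (nat_lit 165771)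
  (nat_lit 17) (node (nat_lit 6) (nat_lit 169948) (nat_lit 18) (node (nat_lit 5) (nat_lit 172886)
  (nat_lit 19) (node (nat_lit 6) (nat_lit 175264) (nat_lit 20) (node (nat_lit 4) (nat_lit 176567)
  (nat_lit 21) nil nil) nil) nil) nil) nil) nil) nil) nil) nil)) (node (nat_lit 13) (nat_lit
  170929) (nat_lit 12) (node (nat_lit 5) (nat_lit 170929) (nat_lit 13) (node (nat_lit 4) (nat_lit
  170929) (nat_lit 14) (node (nat_lit 5) (nat_lit 170929) (nat_lit 15) (node (nat_lit 6) (nat_lit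
  170929) (nat_lit 16) (node (nat_lit 4) (nat_lit 170929) (nat_lit 17) (node (nat_lit 6) (nat_lit
  170929) (nat_lit 18) (node (nat_lit 5) (nat_lit 170929) (nat_lit 19) (node (nat_lit 6) (nat_lit
  172694) (nat_lit 20) (node (nat_lit 4) (nat_lit 173455) (nat_lit 21) (node (nat_lit 5) (nat_lit
  174048) (nat_lit 22) nil nil) nil) nil) nil) nil) nil) nil) nil) nil) nil) nil))) (node (nat_lit
  6) (nat_lit 165771) (nat_lit 11) (node (nat_lit 4) (nat_lit 165771) (nat_lit 12) (node (nat_lit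
  5) (nat_lit 165771) (nat_lit 13) (node (nat_lit 6) (nat_lit 165771) (nat_lit 14) (node (nat_lit
  4) (nat_lit 165771) (nat_lit 15) (node (nat_lit 6) (nat_lit 165771) (nat_lit 16) (node (nat_lit
  5) (nat_lit 165771) (nat_lit 17) (node (nat_lit 6) (nat_lit 168495) (nat_lit 18) (node (nat_lit
  4) (nat_lit 170620) (nat_lit 19) (node (nat_lit 5) (nat_lit 171603) (nat_lit 20) nil nil) nil)
  nil) nil) nil) nil) nil) (node (nat_lit 6) (nat_lit 165771) (nat_lit 13) (node (nat_lit 5)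
  (nat_lit 165771) (nat_lit 14) (node (nat_lit 4) (nat_lit 165771) (nat_lit 15) (node (nat_lit 5)
  (nat_lit 165771) (nat_lit 16) (node (nat_lit 6) (nat_lit 165771) (nat_lit 17) (node (nat_lit 4)
  (nat_lit 169632) (nat_lit 18) nil nil) nil) nil) nil) nil) nil)) (node (nat_lit 5) (nat_lit
  165771) (nat_lit 12) (node (nat_lit 4) (nat_lit 165771) (nat_lit 13) (node (nat_lit 5) (nat_lit
  165771) (nat_lit 14) (node (nat_lit 6) (nat_lit 165771) (nat_lit 15) (node (nat_lit 4) (nat_lit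
  165771) (nat_lit 16) (node (nat_lit 6) (nat_lit 165771) (nat_lit 17) (node (nat_lit 5) (nat_lit
  169463) (nat_lit 18) (node (nat_lit 6) (nat_lit 171721) (nat_lit 19) (node (nat_lit 4) (nat_lit
  173392) (nat_lit 20) (node (nat_lit 5) (nat_lit 174564) (nat_lit 21) nil nil) nil) nil) nil)
  nil) nil) nil) nil) (node (nat_lit 6) (nat_lit 165771) (nat_lit 13) (node (nat_lit 4) (nat_lit
  165771) (nat_lit 14) nil nil) nil)) (node (nat_lit 13) (nat_lit 169588) (nat_lit 12) nil nil)))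
  (node (nat_lit 5) (nat_lit 165771) (nat_lit 11) (node (nat_lit 4) (nat_lit 165771) (nat_lit 12)
  (node (nat_lit 5) (nat_lit 165771) (nat_lit 13) (node (nat_lit 6) (nat_lit 165771) (nat_lit 14)
  (node (nat_lit 4) (nat_lit 165771) (nat_lit 15) (node (nat_lit 6) (nat_lit 165771) (nat_lit 16)
  (node (nat_lit 5) (nat_lit 165771) (nat_lit 17) (node (nat_lit 6) (nat_lit 168668) (nat_lit 18)
  (node (nat_lit 4) (nat_lit 169918) (nat_lit 19) (node (nat_lit 5) (nat_lit 170894) (nat_lit 20)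
  nil nil) nil) nil) nil) nil) nil) nil) (node (nat_lit 6) (nat_lit 165771) (nat_lit 13) (node
  (nat_lit 4) (nat_lit 165771) (nat_lit 14) (node (nat_lit 5) (nat_lit 165771) (nat_lit 15) (node
  (nat_lit 6) (nat_lit 165771) (nat_lit 16) (node (nat_lit 4) (nat_lit 165771) (nat_lit 17) (node
  (nat_lit 6) (nat_lit 167616) (nat_lit 18) nil nil) nil) nil) nil) nil) nil)) (node (nat_lit 6)
  (nat_lit 165771) (nat_lit 12) (node (nat_lit 4) (nat_lit 165771) (nat_lit 13) (node (nat_lit 6)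
  (nat_lit 165771) (nat_lit 14) nil nil) (node (nat_lit 5) (nat_lit 165771) (nat_lit 13) (node
  (nat_lit 4) (nat_lit 165771) (nat_lit 14) nil nil) nil)) nil)) (node (nat_lit 0) (nat_lit
  169248) (nat_lit 11) nil nil)))) nil)))

noncomputable def t69 : Tr :=
  (node (nat_lit 5) (nat_lit 0) (nat_lit 11) (node (nat_lit 6) (nat_lit 0) (nat_lit 12) (node
  (nat_lit 5) (nat_lit 0) (nat_lit 13) (node (nat_lit 4) (nat_lit 0) (nat_lit 14) (node (nat_lit
  6) (nat_lit 0) (nat_lit 15) (node (nat_lit 4) (nat_lit 0) (nat_lit 16) (node (nat_lit 5)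
  (nat_lit 0) (nat_lit 17) (node (nat_lit 6) (nat_lit 0) (nat_lit 18) (node (nat_lit 4) (nat_lit
  0) (nat_lit 19) (node (nat_lit 6) (nat_lit 0) (nat_lit 20) (node (nat_lit 5) (nat_lit 104120)
  (nat_lit 21) (node (nat_lit 4) (nat_lit 104706) (nat_lit 22) (node (nat_lit 5) (nat_lit 104790)
  (nat_lit 23) (node (nat_lit 6) (nat_lit 104808) (nat_lit 24) (node (nat_lit 4) (nat_lit 104808)
  (nat_lit 25) (node (nat_lit 5) (nat_lit 103834) (nat_lit 26) (node (nat_lit 4) (nat_lit 103015)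
  (nat_lit 27) (node (nat_lit 6) (nat_lit 99993) (nat_lit 28) (node (nat_lit 5) (nat_lit 97598)
  (nat_lit 29) (node (nat_lit 6) (nat_lit 93203) (nat_lit 30) (node (nat_lit 4) (nat_lit 93364)
  (nat_lit 31) (node (nat_lit 5) (nat_lit 86611) (nat_lit 32) (node (nat_lit 6) (nat_lit 78379)
  (nat_lit 33) (node (nat_lit 5) (nat_lit 71917) (nat_lit 34) (node (nat_lit 4) (nat_lit 65953)
  (nat_lit 35) (node (nat_lit 6) (nat_lit 68253) (nat_lit 36) nil nil) nil) nil) nil) nil) nil)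
  nil) nil) nil) nil) nil) nil) nil) (node (nat_lit 6) (nat_lit 104808) (nat_lit 23) nil nil))
  (node (nat_lit 6) (nat_lit 104753) (nat_lit 22) (node (nat_lit 4) (nat_lit 104808) (nat_lit 23)
  nil nil) nil)) (node (nat_lit 0) (nat_lit 104808) (nat_lit 21) nil nil)) (node (nat_lit 0)
  (nat_lit 103469) (nat_lit 20) nil nil)) (node (nat_lit 5) (nat_lit 0) (nat_lit 19) (node
  (nat_lit 0) (nat_lit 104801) (nat_lit 20) nil nil) (node (nat_lit 0) (nat_lit 104808) (nat_lit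
  19) nil nil))) (node (nat_lit 4) (nat_lit 0) (nat_lit 18) (node (nat_lit 6) (nat_lit 0) (nat_lit
  19) (node (nat_lit 5) (nat_lit 102908) (nat_lit 20) (node (nat_lit 4) (nat_lit 103580) (nat_lit
  21) (node (nat_lit 5) (nat_lit 104120) (nat_lit 22) (node (nat_lit 6) (nat_lit 104195) (nat_lit
  23) (node (nat_lit 4) (nat_lit 103221) (nat_lit 24) (node (nat_lit 5) (nat_lit 96315) (nat_lit
  25) (node (nat_lit 4) (nat_lit 95973) (nat_lit 26) (node (nat_lit 6) (nat_lit 94953) (nat_lit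
  27) (node (nat_lit 5) (nat_lit 92766) (nat_lit 28) (node (nat_lit 6) (nat_lit 91754) (nat_lit
  29) (node (nat_lit 4) (nat_lit 89161) (nat_lit 30) (node (nat_lit 5) (nat_lit 79957) (nat_lit
  31) (node (nat_lit 6) (nat_lit 66704) (nat_lit 32) (node (nat_lit 5) (nat_lit 80430) (nat_lit
  33) (node (nat_lit 4) (nat_lit 60021) (nat_lit 34) (node (nat_lit 6) (nat_lit 33097) (nat_lit
  35) (node (nat_lit 4) (nat_lit 9045) (nat_lit 36) nil nil) nil) nil) nil) nil) nil) nil) nil)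
  nil) nil) nil) nil) nil) nil) nil) (node (nat_lit 6) (nat_lit 103716) (nat_lit 21) (node
  (nat_lit 4) (nat_lit 104070) (nat_lit 22) nil nil) nil)) (node (nat_lit 0) (nat_lit 103707)
  (nat_lit 20) nil nil)) (node (nat_lit 0) (nat_lit 104808) (nat_lit 19) nil nil)) (node (nat_lit
  0) (nat_lit 104808) (nat_lit 18) nil nil))) (node (nat_lit 0) (nat_lit 104808) (nat_lit 17) nil
  nil)) (node (nat_lit 5) (nat_lit 0) (nat_lit 16) (node (nat_lit 6) (nat_lit 0) (nat_lit 17)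
  (node (nat_lit 4) (nat_lit 0) (nat_lit 18) (node (nat_lit 6) (nat_lit 0) (nat_lit 19) (node
  (nat_lit 5) (nat_lit 103780) (nat_lit 20) (node (nat_lit 4) (nat_lit 104808) (nat_lit 21) (node
  (nat_lit 5) (nat_lit 104808) (nat_lit 22) (node (nat_lit 6) (nat_lit 104808) (nat_lit 23) (node
  (nat_lit 4) (nat_lit 104142) (nat_lit 24) (node (nat_lit 5) (nat_lit 102375) (nat_lit 25) (node
  (nat_lit 4) (nat_lit 102048) (nat_lit 26) (node (nat_lit 6) (nat_lit 97999) (nat_lit 27) (node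
  (nat_lit 5) (nat_lit 93037) (nat_lit 28) (node (nat_lit 6) (nat_lit 91598) (nat_lit 29) (node
  (nat_lit 4) (nat_lit 89978) (nat_lit 30) (node (nat_lit 5) (nat_lit 80774) (nat_lit 31) (node
  (nat_lit 6) (nat_lit 66954) (nat_lit 32) (node (nat_lit 5) (nat_lit 63751) (nat_lit 33) (node
  (nat_lit 4) (nat_lit 67442) (nat_lit 34) (node (nat_lit 6) (nat_lit 59788) (nat_lit 35) (node
  (nat_lit 5) (nat_lit 21302) (nat_lit 36) nil nil) nil) nil) nil) nil) nil) nil) nil) nil) nil)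
  nil) nil) nil) nil) (node (nat_lit 6) (nat_lit 104808) (nat_lit 22) (node (nat_lit 4) (nat_lit
  104808) (nat_lit 23) nil nil) nil)) nil) (node (nat_lit 0) (nat_lit 104275) (nat_lit 20) nil
  nil)) (node (nat_lit 5) (nat_lit 0) (nat_lit 19) (node (nat_lit 4) (nat_lit 0) (nat_lit 20)
  (node (nat_lit 6) (nat_lit 104808) (nat_lit 21) (node (nat_lit 5) (nat_lit 104808) (nat_lit 22)
  (node (nat_lit 4) (nat_lit 104808) (nat_lit 23) (node (nat_lit 5) (nat_lit 104808) (nat_lit 24)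
  (node (nat_lit 6) (nat_lit 104808) (nat_lit 25) (node (nat_lit 4) (nat_lit 104808) (nat_lit 26)
  (node (nat_lit 5) (nat_lit 104808) (nat_lit 27) (node (nat_lit 4) (nat_lit 104808) (nat_lit 28)
  (node (nat_lit 6) (nat_lit 104485) (nat_lit 29) (node (nat_lit 5) (nat_lit 101686) (nat_lit 30)
  (node (nat_lit 6) (nat_lit 98742) (nat_lit 31) (node (nat_lit 4) (nat_lit 96408) (nat_lit 32)
  (node (nat_lit 5) (nat_lit 94260) (nat_lit 33) (node (nat_lit 6) (nat_lit 88288) (nat_lit 34)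
  (node (nat_lit 5) (nat_lit 80067) (nat_lit 35) (node (nat_lit 4) (nat_lit 73606) (nat_lit 36)
  (node (nat_lit 6) (nat_lit 67648) (nat_lit 37) (node (nat_lit 5) (nat_lit 61003) (nat_lit 38)
  (node (nat_lit 6) (nat_lit 61775) (nat_lit 39) (node (nat_lit 4) (nat_lit 12092) (nat_lit 40)
  nil nil) nil) nil) nil) nil) nil) nil) nil) nil) nil) nil) nil) nil) nil) nil) nil) nil) nil)
  (node (nat_lit 4) (nat_lit 104808) (nat_lit 22) nil nil)) (node (nat_lit 0) (nat_lit 104808)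
  (nat_lit 21) nil nil)) (node (nat_lit 0) (nat_lit 104227) (nat_lit 20) nil nil)) (node (nat_lit
  0) (nat_lit 104808) (nat_lit 19) nil nil))) (node (nat_lit 0) (nat_lit 104808) (nat_lit 18) nil
  nil)) (node (nat_lit 0) (nat_lit 104808) (nat_lit 17) nil nil)) (node (nat_lit 0) (nat_lit
  104808) (nat_lit 16) (node (nat_lit 6) (nat_lit 104808) (nat_lit 17) nil (node (nat_lit 4)
  (nat_lit 104808) (nat_lit 17) nil nil)) nil))) (node (nat_lit 5) (nat_lit 0) (nat_lit 15) (node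
  (nat_lit 6) (nat_lit 0) (nat_lit 16) (node (nat_lit 4) (nat_lit 0) (nat_lit 17) (node (nat_lit
  6) (nat_lit 0) (nat_lit 18) (node (nat_lit 5) (nat_lit 0) (nat_lit 19) (node (nat_lit 4)
  (nat_lit 0) (nat_lit 20) (node (nat_lit 6) (nat_lit 0) (nat_lit 21) (node (nat_lit 4) (nat_lit
  0) (nat_lit 22) (node (nat_lit 5) (nat_lit 97107) (nat_lit 23) (node (nat_lit 4) (nat_lit 97200)
  (nat_lit 24) (node (nat_lit 6) (nat_lit 97044) (nat_lit 25) nil nil) (node (nat_lit 6) (nat_lit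
  96909) (nat_lit 24) nil nil)) (node (nat_lit 0) (nat_lit 98074) (nat_lit 23) nil nil)) (node
  (nat_lit 0) (nat_lit 97599) (nat_lit 22) nil nil)) (node (nat_lit 5) (nat_lit 0) (nat_lit 21)
  (node (nat_lit 6) (nat_lit 94626) (nat_lit 22) (node (nat_lit 5) (nat_lit 94596) (nat_lit 23)
  (node (nat_lit 4) (nat_lit 94557) (nat_lit 24) (node (nat_lit 6) (nat_lit 94628) (nat_lit 25)
  nil nil) nil) nil) (node (nat_lit 0) (nat_lit 97231) (nat_lit 22) nil nil)) (node (nat_lit 0)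
  (nat_lit 99305) (nat_lit 21) nil nil))) (node (nat_lit 6) (nat_lit 0) (nat_lit 20) (node
  (nat_lit 4) (nat_lit 95823) (nat_lit 21) (node (nat_lit 5) (nat_lit 96469) (nat_lit 22) (node
  (nat_lit 6) (nat_lit 97326) (nat_lit 23) (node (nat_lit 5) (nat_lit 97726) (nat_lit 24) (node
  (nat_lit 4) (nat_lit 98035) (nat_lit 25) (node (nat_lit 5) (nat_lit 98195) (nat_lit 26) nil nil)
  nil) nil) nil) nil) (node (nat_lit 0) (nat_lit 96182) (nat_lit 21) nil nil)) (node (nat_lit 0)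
  (nat_lit 98848) (nat_lit 20) nil nil))) (node (nat_lit 0) (nat_lit 99767) (nat_lit 19) nil nil))
  (node (nat_lit 5) (nat_lit 0) (nat_lit 18) (node (nat_lit 4) (nat_lit 0) (nat_lit 19) (node
  (nat_lit 6) (nat_lit 76756) (nat_lit 20) (node (nat_lit 5) (nat_lit 58133) (nat_lit 21) (node
  (nat_lit 4) (nat_lit 58340) (nat_lit 22) (node (nat_lit 5) (nat_lit 57247) (nat_lit 23) (node
  (nat_lit 6) (nat_lit 57080) (nat_lit 24) (node (nat_lit 4) (nat_lit 56573) (nat_lit 25) (node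
  (nat_lit 5) (nat_lit 56254) (nat_lit 26) nil nil) nil) nil) nil) (node (nat_lit 6) (nat_lit
  58337) (nat_lit 22) (node (nat_lit 4) (nat_lit 58560) (nat_lit 23) nil nil) nil)) (node (nat_lit
  4) (nat_lit 77567) (nat_lit 21) (node (nat_lit 5) (nat_lit 77718) (nat_lit 22) (node (nat_lit 6)
  (nat_lit 77465) (nat_lit 23) nil nil) nil) nil)) (node (nat_lit 0) (nat_lit 86344) (nat_lit 20)
  nil nil)) (node (nat_lit 0) (nat_lit 89586) (nat_lit 19) nil nil)) (node (nat_lit 0) (nat_lit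
  96808) (nat_lit 18) nil nil))) (node (nat_lit 0) (nat_lit 99493) (nat_lit 17) nil nil)) (node
  (nat_lit 0) (nat_lit 102581) (nat_lit 16) (node (nat_lit 4) (nat_lit 102581) (nat_lit 17) nil
  nil) nil)) (node (nat_lit 0) (nat_lit 104808) (nat_lit 15) (node (nat_lit 4) (nat_lit 104808)
  (nat_lit 16) nil (node (nat_lit 5) (nat_lit 104808) (nat_lit 16) nil (node (nat_lit 6) (nat_lit
  104808) (nat_lit 16) nil nil))) nil))) (node (nat_lit 0) (nat_lit 104808) (nat_lit 14) (node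
  (nat_lit 5) (nat_lit 104808) (nat_lit 15) (node (nat_lit 6) (nat_lit 104808) (nat_lit 16) nil
  (node (nat_lit 4) (nat_lit 104808) (nat_lit 16) nil nil)) (node (nat_lit 6) (nat_lit 104808)
  (nat_lit 15) (node (nat_lit 5) (nat_lit 104808) (nat_lit 16) (node (nat_lit 6) (nat_lit 104808)
  (nat_lit 17) nil (node (nat_lit 4) (nat_lit 104808) (nat_lit 17) nil nil)) (node (nat_lit 4)
  (nat_lit 104808) (nat_lit 16) nil nil)) (node (nat_lit 4) (nat_lit 104808) (nat_lit 15) (node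
  (nat_lit 5) (nat_lit 104808) (nat_lit 16) nil (node (nat_lit 6) (nat_lit 104808) (nat_lit 16)
  nil nil)) nil))) nil)) (node (nat_lit 0) (nat_lit 104808) (nat_lit 13) (node (nat_lit 4)
  (nat_lit 104808) (nat_lit 14) (node (nat_lit 5) (nat_lit 104808) (nat_lit 15) (node (nat_lit 6)
  (nat_lit 104808) (nat_lit 16) (node (nat_lit 4) (nat_lit 104808) (nat_lit 17) (node (nat_lit 5)
  (nat_lit 104808) (nat_lit 18) (node (nat_lit 4) (nat_lit 104808) (nat_lit 19) (node (nat_lit 6)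
  (nat_lit 104808) (nat_lit 20) (node (nat_lit 5) (nat_lit 104808) (nat_lit 21) (node (nat_lit 6)
  (nat_lit 104808) (nat_lit 22) (node (nat_lit 4) (nat_lit 104808) (nat_lit 23) (node (nat_lit 5)
  (nat_lit 104808) (nat_lit 24) nil nil) nil) nil) nil) nil) nil) nil) nil) nil) (node (nat_lit 6)
  (nat_lit 104808) (nat_lit 15) (node (nat_lit 4) (nat_lit 104808) (nat_lit 16) nil nil) nil))
  (node (nat_lit 5) (nat_lit 104808) (nat_lit 14) (node (nat_lit 6) (nat_lit 104808) (nat_lit 15)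
  (node (nat_lit 4) (nat_lit 104808) (nat_lit 16) (node (nat_lit 5) (nat_lit 104808) (nat_lit 17)
  nil nil) (node (nat_lit 5) (nat_lit 104808) (nat_lit 16) (node (nat_lit 4) (nat_lit 104808)
  (nat_lit 17) nil nil) nil)) (node (nat_lit 4) (nat_lit 104808) (nat_lit 15) (node (nat_lit 6)
  (nat_lit 104808) (nat_lit 16) nil nil) nil)) (node (nat_lit 6) (nat_lit 104808) (nat_lit 14)
  (node (nat_lit 5) (nat_lit 104808) (nat_lit 15) (node (nat_lit 6) (nat_lit 104808) (nat_lit 16)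
  nil (node (nat_lit 4) (nat_lit 104808) (nat_lit 16) nil nil)) (node (nat_lit 4) (nat_lit 104808)
  (nat_lit 15) (node (nat_lit 5) (nat_lit 104808) (nat_lit 16) nil (node (nat_lit 6) (nat_lit
  104808) (nat_lit 16) nil nil)) nil)) (node (nat_lit 0) (nat_lit 104808) (nat_lit 14) nil nil))))
  nil)) (node (nat_lit 0) (nat_lit 104578) (nat_lit 12) (node (nat_lit 4) (nat_lit 104578)
  (nat_lit 13) (node (nat_lit 5) (nat_lit 104578) (nat_lit 14) (node (nat_lit 6) (nat_lit 104578)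
  (nat_lit 15) (node (nat_lit 4) (nat_lit 104578) (nat_lit 16) (node (nat_lit 5) (nat_lit 104578)
  (nat_lit 17) (node (nat_lit 4) (nat_lit 104578) (nat_lit 18) (node (nat_lit 6) (nat_lit 104578)
  (nat_lit 19) (node (nat_lit 5) (nat_lit 104808) (nat_lit 20) (node (nat_lit 6) (nat_lit 104808)
  (nat_lit 21) (node (nat_lit 4) (nat_lit 104808) (nat_lit 22) (node (nat_lit 5) (nat_lit 104808)
  (nat_lit 23) nil nil) nil) nil) nil) nil) nil) nil) (node (nat_lit 5) (nat_lit 104578) (nat_lit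
  16) nil nil)) (node (nat_lit 4) (nat_lit 104578) (nat_lit 15) (node (nat_lit 6) (nat_lit 104578)
  (nat_lit 16) (node (nat_lit 5) (nat_lit 104578) (nat_lit 17) nil nil) nil) nil)) (node (nat_lit
  6) (nat_lit 104578) (nat_lit 14) (node (nat_lit 5) (nat_lit 104578) (nat_lit 15) (node (nat_lit
  6) (nat_lit 104578) (nat_lit 16) nil (node (nat_lit 4) (nat_lit 104578) (nat_lit 16) nil nil))
  (node (nat_lit 4) (nat_lit 104578) (nat_lit 15) nil nil)) (node (nat_lit 15) (nat_lit 104808)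
  (nat_lit 14) nil nil))) (node (nat_lit 5) (nat_lit 104578) (nat_lit 13) (node (nat_lit 4)
  (nat_lit 104578) (nat_lit 14) (node (nat_lit 6) (nat_lit 104578) (nat_lit 15) (node (nat_lit 5)
  (nat_lit 104578) (nat_lit 16) nil (node (nat_lit 4) (nat_lit 104578) (nat_lit 16) nil nil))
  (node (nat_lit 5) (nat_lit 104578) (nat_lit 15) (node (nat_lit 6) (nat_lit 104578) (nat_lit 16)
  (node (nat_lit 4) (nat_lit 104578) (nat_lit 17) (node (nat_lit 5) (nat_lit 104578) (nat_lit 18)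
  (node (nat_lit 4) (nat_lit 104578) (nat_lit 19) (node (nat_lit 6) (nat_lit 104808) (nat_lit 20)
  (node (nat_lit 5) (nat_lit 104808) (nat_lit 21) nil nil) nil) nil) nil) nil) nil) nil)) (node
  (nat_lit 6) (nat_lit 104578) (nat_lit 14) (node (nat_lit 4) (nat_lit 104578) (nat_lit 15) (node
  (nat_lit 5) (nat_lit 104578) (nat_lit 16) nil (node (nat_lit 6) (nat_lit 104578) (nat_lit 16)
  nil nil)) (node (nat_lit 5) (nat_lit 104578) (nat_lit 15) nil nil)) nil)) (node (nat_lit 6)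
  (nat_lit 104578) (nat_lit 13) (node (nat_lit 5) (nat_lit 104578) (nat_lit 14) (node (nat_lit 6)
  (nat_lit 104578) (nat_lit 15) (node (nat_lit 4) (nat_lit 104578) (nat_lit 16) nil nil) (node
  (nat_lit 4) (nat_lit 104578) (nat_lit 15) nil nil)) (node (nat_lit 4) (nat_lit 104578) (nat_lit
  14) (node (nat_lit 5) (nat_lit 104578) (nat_lit 15) (node (nat_lit 4) (nat_lit 104578) (nat_lit
  16) (node (nat_lit 6) (nat_lit 104578) (nat_lit 17) nil nil) (node (nat_lit 6) (nat_lit 104578)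
  (nat_lit 16) nil nil)) (node (nat_lit 6) (nat_lit 104578) (nat_lit 15) nil nil)) nil)) (node
  (nat_lit 0) (nat_lit 104808) (nat_lit 13) nil nil)))) (node (nat_lit 4) (nat_lit 0) (nat_lit 12)
  (node (nat_lit 0) (nat_lit 104808) (nat_lit 13) (node (nat_lit 5) (nat_lit 104808) (nat_lit 14)
  (node (nat_lit 4) (nat_lit 104808) (nat_lit 15) (node (nat_lit 5) (nat_lit 104808) (nat_lit 16)
  (node (nat_lit 6) (nat_lit 104808) (nat_lit 17) (node (nat_lit 4) (nat_lit 104808) (nat_lit 18)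
  (node (nat_lit 5) (nat_lit 104808) (nat_lit 19) (node (nat_lit 4) (nat_lit 104808) (nat_lit 20)
  (node (nat_lit 6) (nat_lit 104808) (nat_lit 21) (node (nat_lit 5) (nat_lit 104808) (nat_lit 22)
  (node (nat_lit 6) (nat_lit 104808) (nat_lit 23) nil nil) nil) nil) nil) nil) nil) nil) (node
  (nat_lit 6) (nat_lit 104808) (nat_lit 16) nil nil)) (node (nat_lit 6) (nat_lit 104808) (nat_lit
  15) nil nil)) (node (nat_lit 4) (nat_lit 104808) (nat_lit 14) (node (nat_lit 5) (nat_lit 104808)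
  (nat_lit 15) (node (nat_lit 6) (nat_lit 104808) (nat_lit 16) (node (nat_lit 4) (nat_lit 104808)
  (nat_lit 17) (node (nat_lit 5) (nat_lit 104808) (nat_lit 18) (node (nat_lit 4) (nat_lit 104808)
  (nat_lit 19) (node (nat_lit 6) (nat_lit 104808) (nat_lit 20) (node (nat_lit 5) (nat_lit 104808)
  (nat_lit 21) nil nil) nil) nil) nil) nil) nil) (node (nat_lit 6) (nat_lit 104808) (nat_lit 15)
  nil nil)) (node (nat_lit 6) (nat_lit 104808) (nat_lit 14) (node (nat_lit 5) (nat_lit 104808)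
  (nat_lit 15) (node (nat_lit 4) (nat_lit 104808) (nat_lit 16) nil nil) (node (nat_lit 4) (nat_lit
  104808) (nat_lit 15) (node (nat_lit 6) (nat_lit 104808) (nat_lit 16) nil nil) nil)) nil))) nil)
  nil))) (node (nat_lit 0) (nat_lit 0) (nat_lit 11) (node (nat_lit 4) (nat_lit 103835) (nat_lit
  12) (node (nat_lit 5) (nat_lit 103835) (nat_lit 13) (node (nat_lit 6) (nat_lit 103835) (nat_lit
  14) (node (nat_lit 4) (nat_lit 103835) (nat_lit 15) (node (nat_lit 5) (nat_lit 103835) (nat_lit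
  16) (node (nat_lit 4) (nat_lit 103835) (nat_lit 17) (node (nat_lit 6) (nat_lit 103835) (nat_lit
  18) (node (nat_lit 5) (nat_lit 104578) (nat_lit 19) (node (nat_lit 6) (nat_lit 104808) (nat_lit
  20) (node (nat_lit 4) (nat_lit 104808) (nat_lit 21) nil nil) nil) nil) nil) nil) nil) nil) (node
  (nat_lit 4) (nat_lit 103835) (nat_lit 14) (node (nat_lit 6) (nat_lit 103835) (nat_lit 15) nil
  nil) nil)) (node (nat_lit 6) (nat_lit 103835) (nat_lit 13) (node (nat_lit 5) (nat_lit 103835)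
  (nat_lit 14) (node (nat_lit 6) (nat_lit 103835) (nat_lit 15) nil (node (nat_lit 4) (nat_lit
  103835) (nat_lit 15) nil nil)) (node (nat_lit 4) (nat_lit 103835) (nat_lit 14) (node (nat_lit 5)
  (nat_lit 103835) (nat_lit 15) nil nil) nil)) (node (nat_lit 0) (nat_lit 104808) (nat_lit 13) nil
  nil))) (node (nat_lit 6) (nat_lit 103835) (nat_lit 12) (node (nat_lit 5) (nat_lit 103835)
  (nat_lit 13) (node (nat_lit 6) (nat_lit 103835) (nat_lit 14) (node (nat_lit 4) (nat_lit 103835)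
  (nat_lit 15) nil nil) (node (nat_lit 4) (nat_lit 103835) (nat_lit 14) (node (nat_lit 5) (nat_lit
  103835) (nat_lit 15) (node (nat_lit 6) (nat_lit 103835) (nat_lit 16) (node (nat_lit 4) (nat_lit
  103835) (nat_lit 17) (node (nat_lit 5) (nat_lit 103835) (nat_lit 18) (node (nat_lit 4) (nat_lit
  104578) (nat_lit 19) nil nil) nil) nil) nil) nil) nil)) (node (nat_lit 4) (nat_lit 103835)
  (nat_lit 13) (node (nat_lit 6) (nat_lit 103835) (nat_lit 14) (node (nat_lit 5) (nat_lit 103835)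
  (nat_lit 15) (node (nat_lit 6) (nat_lit 103835) (nat_lit 16) nil (node (nat_lit 4) (nat_lit
  103835) (nat_lit 16) nil nil)) nil) (node (nat_lit 5) (nat_lit 103835) (nat_lit 14) (node
  (nat_lit 6) (nat_lit 103835) (nat_lit 15) nil nil) nil)) (node (nat_lit 14) (nat_lit 104808)
  (nat_lit 13) nil nil))) (node (nat_lit 5) (nat_lit 103835) (nat_lit 12) (node (nat_lit 4)
  (nat_lit 103835) (nat_lit 13) (node (nat_lit 5) (nat_lit 103835) (nat_lit 14) (node (nat_lit 6)
  (nat_lit 103835) (nat_lit 15) (node (nat_lit 4) (nat_lit 103835) (nat_lit 16) (node (nat_lit 5)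
  (nat_lit 103835) (nat_lit 17) (node (nat_lit 4) (nat_lit 103835) (nat_lit 18) (node (nat_lit 6)
  (nat_lit 104578) (nat_lit 19) (node (nat_lit 5) (nat_lit 104808) (nat_lit 20) nil nil) nil) nil)
  nil) (node (nat_lit 5) (nat_lit 103835) (nat_lit 16) nil nil)) nil) (node (nat_lit 6) (nat_lit
  103835) (nat_lit 14) (node (nat_lit 4) (nat_lit 103835) (nat_lit 15) (node (nat_lit 5) (nat_lit
  103835) (nat_lit 16) nil nil) nil) nil)) (node (nat_lit 6) (nat_lit 103835) (nat_lit 13) (node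
  (nat_lit 4) (nat_lit 103835) (nat_lit 14) (node (nat_lit 5) (nat_lit 103835) (nat_lit 15) (node
  (nat_lit 4) (nat_lit 103835) (nat_lit 16) nil nil) nil) (node (nat_lit 5) (nat_lit 103835)
  (nat_lit 14) nil nil)) (node (nat_lit 14) (nat_lit 104808) (nat_lit 13) nil nil))) (node
  (nat_lit 0) (nat_lit 104578) (nat_lit 12) nil nil)))) nil))

noncomputable def t70 : Tr :=
  (node (nat_lit 4) (nat_lit 0) (nat_lit 10) (node (nat_lit 6) (nat_lit 0) (nat_lit 11) (node
  (nat_lit 5) (nat_lit 0) (nat_lit 12) (node (nat_lit 4) (nat_lit 0) (nat_lit 13) (node (nat_lit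
  5) (nat_lit 0) (nat_lit 14) (node (nat_lit 6) (nat_lit 0) (nat_lit 15) (node (nat_lit 4)
  (nat_lit 0) (nat_lit 16) (node (nat_lit 5) (nat_lit 0) (nat_lit 17) (node (nat_lit 4) (nat_lit
  0) (nat_lit 18) (node (nat_lit 6) (nat_lit 0) (nat_lit 19) (node (nat_lit 4) (nat_lit 0)
  (nat_lit 20) (node (nat_lit 5) (nat_lit 73336) (nat_lit 21) (node (nat_lit 6) (nat_lit 74070)
  (nat_lit 22) (node (nat_lit 5) (nat_lit 74876) (nat_lit 23) (node (nat_lit 4) (nat_lit 75442)
  (nat_lit 24) (node (nat_lit 5) (nat_lit 75737) (nat_lit 25) (node (nat_lit 6) (nat_lit 75942)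
  (nat_lit 26) (node (nat_lit 4) (nat_lit 75505) (nat_lit 27) (node (nat_lit 5) (nat_lit 72161)
  (nat_lit 28) (node (nat_lit 4) (nat_lit 71842) (nat_lit 29) (node (nat_lit 6) (nat_lit 70029)
  (nat_lit 30) (node (nat_lit 5) (nat_lit 69485) (nat_lit 31) (node (nat_lit 6) (nat_lit 66303)
  (nat_lit 32) (node (nat_lit 4) (nat_lit 63796) (nat_lit 33) (node (nat_lit 6) (nat_lit 62639)
  (nat_lit 34) (node (nat_lit 5) (nat_lit 55836) (nat_lit 35) (node (nat_lit 4) (nat_lit 50205)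
  (nat_lit 36) (node (nat_lit 5) (nat_lit 47809) (nat_lit 37) (node (nat_lit 6) (nat_lit 50494)
  (nat_lit 38) (node (nat_lit 4) (nat_lit 42205) (nat_lit 39) (node (nat_lit 5) (nat_lit 42492)
  (nat_lit 40) (node (nat_lit 4) (nat_lit 23694) (nat_lit 41) (node (nat_lit 6) (nat_lit 6522)
  (nat_lit 42) (node (nat_lit 4) (nat_lit 9391) (nat_lit 43) nil nil) nil) nil) nil) nil) nil)
  nil) nil) nil) nil) nil) nil) nil) nil) nil) nil) nil) nil) nil) nil) (node (nat_lit 4) (nat_lit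
  74188) (nat_lit 23) nil nil)) nil) (node (nat_lit 0) (nat_lit 74173) (nat_lit 21) nil nil))
  (node (nat_lit 5) (nat_lit 72330) (nat_lit 20) (node (nat_lit 6) (nat_lit 42161) (nat_lit 21)
  nil (node (nat_lit 4) (nat_lit 73038) (nat_lit 21) (node (nat_lit 5) (nat_lit 73514) (nat_lit
  22) (node (nat_lit 6) (nat_lit 73797) (nat_lit 23) (node (nat_lit 4) (nat_lit 73327) (nat_lit
  24) nil nil) nil) nil) nil)) (node (nat_lit 0) (nat_lit 74915) (nat_lit 20) nil nil))) (node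
  (nat_lit 0) (nat_lit 78028) (nat_lit 19) nil nil)) (node (nat_lit 0) (nat_lit 78058) (nat_lit
  18) (node (nat_lit 4) (nat_lit 78058) (nat_lit 19) nil (node (nat_lit 5) (nat_lit 78058)
  (nat_lit 19) nil nil)) nil)) (node (nat_lit 6) (nat_lit 0) (nat_lit 17) (node (nat_lit 5)
  (nat_lit 0) (nat_lit 18) (node (nat_lit 6) (nat_lit 0) (nat_lit 19) (node (nat_lit 4) (nat_lit
  88663) (nat_lit 20) (node (nat_lit 5) (nat_lit 90131) (nat_lit 21) (node (nat_lit 6) (nat_lit
  91164) (nat_lit 22) (node (nat_lit 5) (nat_lit 91879) (nat_lit 23) (node (nat_lit 4) (nat_lit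
  92334) (nat_lit 24) nil nil) nil) (node (nat_lit 4) (nat_lit 90579) (nat_lit 22) (node (nat_lit
  6) (nat_lit 90544) (nat_lit 23) nil nil) nil)) nil) (node (nat_lit 0) (nat_lit 89285) (nat_lit
  20) nil nil)) (node (nat_lit 0) (nat_lit 92041) (nat_lit 19) nil nil)) (node (nat_lit 0)
  (nat_lit 92949) (nat_lit 18) nil nil)) (node (nat_lit 0) (nat_lit 93344) (nat_lit 17) nil nil)))
  (node (nat_lit 5) (nat_lit 0) (nat_lit 16) (node (nat_lit 4) (nat_lit 0) (nat_lit 17) (node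
  (nat_lit 6) (nat_lit 0) (nat_lit 18) (node (nat_lit 4) (nat_lit 0) (nat_lit 19) (node (nat_lit
  5) (nat_lit 0) (nat_lit 20) (node (nat_lit 6) (nat_lit 97647) (nat_lit 21) (node (nat_lit 4)
  (nat_lit 97792) (nat_lit 22) (node (nat_lit 6) (nat_lit 97686) (nat_lit 23) nil nil) (node
  (nat_lit 5) (nat_lit 97238) (nat_lit 22) (node (nat_lit 4) (nat_lit 97178) (nat_lit 23) (node
  (nat_lit 5) (nat_lit 97056) (nat_lit 24) (node (nat_lit 6) (nat_lit 96893) (nat_lit 25) (node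
  (nat_lit 4) (nat_lit 96456) (nat_lit 26) (node (nat_lit 5) (nat_lit 96182) (nat_lit 27) (node
  (nat_lit 4) (nat_lit 95981) (nat_lit 28) (node (nat_lit 6) (nat_lit 94899) (nat_lit 29) (node
  (nat_lit 5) (nat_lit 94233) (nat_lit 30) (node (nat_lit 6) (nat_lit 91761) (nat_lit 31) (node
  (nat_lit 4) (nat_lit 88615) (nat_lit 32) (node (nat_lit 6) (nat_lit 85934) (nat_lit 33) (node
  (nat_lit 5) (nat_lit 78553) (nat_lit 34) (node (nat_lit 4) (nat_lit 70968) (nat_lit 35) (node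
  (nat_lit 5) (nat_lit 55888) (nat_lit 36) (node (nat_lit 6) (nat_lit 52683) (nat_lit 37) (node
  (nat_lit 5) (nat_lit 56372) (nat_lit 38) (node (nat_lit 4) (nat_lit 39021) (nat_lit 39) (node
  (nat_lit 6) (nat_lit 27318) (nat_lit 40) (node (nat_lit 4) (nat_lit 27989) (nat_lit 41) nil nil)
  nil) nil) nil) nil) nil) nil) nil) nil) nil) nil) nil) nil) nil) nil) nil) nil) nil) nil) nil))
  (node (nat_lit 4) (nat_lit 97753) (nat_lit 21) (node (nat_lit 6) (nat_lit 97615) (nat_lit 22)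
  (node (nat_lit 5) (nat_lit 97584) (nat_lit 23) (node (nat_lit 6) (nat_lit 97673) (nat_lit 24)
  (node (nat_lit 4) (nat_lit 97743) (nat_lit 25) nil nil) nil) nil) nil) (node (nat_lit 0)
  (nat_lit 98374) (nat_lit 21) nil nil))) (node (nat_lit 0) (nat_lit 98072) (nat_lit 20) nil nil))
  (node (nat_lit 5) (nat_lit 96603) (nat_lit 19) (node (nat_lit 6) (nat_lit 97515) (nat_lit 20)
  (node (nat_lit 4) (nat_lit 97703) (nat_lit 21) (node (nat_lit 5) (nat_lit 97848) (nat_lit 22)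
  nil (node (nat_lit 6) (nat_lit 97565) (nat_lit 22) (node (nat_lit 5) (nat_lit 97535) (nat_lit
  23) (node (nat_lit 4) (nat_lit 97496) (nat_lit 24) nil nil) nil) nil)) nil) nil) (node (nat_lit
  0) (nat_lit 98287) (nat_lit 19) nil nil))) (node (nat_lit 0) (nat_lit 97467) (nat_lit 18) nil
  nil)) (node (nat_lit 0) (nat_lit 97641) (nat_lit 17) nil nil)) (node (nat_lit 0) (nat_lit 97836)
  (nat_lit 16) (node (nat_lit 5) (nat_lit 97836) (nat_lit 17) nil (node (nat_lit 6) (nat_lit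
  97836) (nat_lit 17) nil (node (nat_lit 4) (nat_lit 97836) (nat_lit 17) nil nil))) nil))) (node
  (nat_lit 0) (nat_lit 100966) (nat_lit 15) (node (nat_lit 4) (nat_lit 100966) (nat_lit 16) (node
  (nat_lit 5) (nat_lit 100966) (nat_lit 17) nil nil) (node (nat_lit 5) (nat_lit 100966) (nat_lit
  16) nil nil)) nil)) (node (nat_lit 6) (nat_lit 0) (nat_lit 14) (node (nat_lit 4) (nat_lit 0)
  (nat_lit 15) (node (nat_lit 5) (nat_lit 0) (nat_lit 16) (node (nat_lit 6) (nat_lit 0) (nat_lit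
  17) (node (nat_lit 5) (nat_lit 0) (nat_lit 18) (node (nat_lit 4) (nat_lit 0) (nat_lit 19) (node
  (nat_lit 5) (nat_lit 96425) (nat_lit 20) (node (nat_lit 6) (nat_lit 97968) (nat_lit 21) (node
  (nat_lit 4) (nat_lit 97213) (nat_lit 22) (node (nat_lit 5) (nat_lit 96675) (nat_lit 23) (node
  (nat_lit 4) (nat_lit 96655) (nat_lit 24) (node (nat_lit 6) (nat_lit 93523) (nat_lit 25) (node
  (nat_lit 5) (nat_lit 88029) (nat_lit 26) (node (nat_lit 6) (nat_lit 76400) (nat_lit 27) (node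
  (nat_lit 4) (nat_lit 74215) (nat_lit 28) (node (nat_lit 6) (nat_lit 29870) (nat_lit 29) (node
  (nat_lit 5) (nat_lit 33556) (nat_lit 30) (node (nat_lit 4) (nat_lit 16202) (nat_lit 31) (node
  (nat_lit 6) (nat_lit 4510) (nat_lit 32) (node (nat_lit 4) (nat_lit 5185) (nat_lit 33) nil nil)
  nil) nil) nil) nil) nil) nil) nil) nil) nil) (node (nat_lit 6) (nat_lit 96959) (nat_lit 23) nil
  nil)) nil) nil) (node (nat_lit 6) (nat_lit 100835) (nat_lit 20) (node (nat_lit 5) (nat_lit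
  102023) (nat_lit 21) (node (nat_lit 6) (nat_lit 102656) (nat_lit 22) (node (nat_lit 4) (nat_lit
  102932) (nat_lit 23) nil nil) nil) nil) (node (nat_lit 0) (nat_lit 101318) (nat_lit 20) nil
  nil))) (node (nat_lit 0) (nat_lit 104305) (nat_lit 19) nil nil)) (node (nat_lit 4) (nat_lit 0)
  (nat_lit 18) (node (nat_lit 6) (nat_lit 0) (nat_lit 19) (node (nat_lit 5) (nat_lit 100726)
  (nat_lit 20) (node (nat_lit 4) (nat_lit 101633) (nat_lit 21) (node (nat_lit 5) (nat_lit 102556)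
  (nat_lit 22) (node (nat_lit 6) (nat_lit 103033) (nat_lit 23) (node (nat_lit 4) (nat_lit 102034)
  (nat_lit 24) (node (nat_lit 5) (nat_lit 100264) (nat_lit 25) (node (nat_lit 4) (nat_lit 99731)
  (nat_lit 26) (node (nat_lit 6) (nat_lit 97873) (nat_lit 27) (node (nat_lit 5) (nat_lit 94470)
  (nat_lit 28) (node (nat_lit 6) (nat_lit 87474) (nat_lit 29) (node (nat_lit 4) (nat_lit 87002)
  (nat_lit 30) (node (nat_lit 6) (nat_lit 77415) (nat_lit 31) (node (nat_lit 5) (nat_lit 73431)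
  (nat_lit 32) (node (nat_lit 4) (nat_lit 67462) (nat_lit 33) (node (nat_lit 6) (nat_lit 45527)
  (nat_lit 34) (node (nat_lit 4) (nat_lit 45546) (nat_lit 35) (node (nat_lit 5) (nat_lit 45565)
  (nat_lit 36) (node (nat_lit 6) (nat_lit 28621) (nat_lit 37) nil nil) nil) nil) nil) nil) nil)
  nil) nil) nil) nil) nil) nil) nil) nil) nil) nil) (node (nat_lit 6) (nat_lit 101534) (nat_lit
  21) (node (nat_lit 4) (nat_lit 101686) (nat_lit 22) (node (nat_lit 5) (nat_lit 101962) (nat_lit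
  23) nil nil) nil) nil)) (node (nat_lit 0) (nat_lit 101138) (nat_lit 20) nil nil)) (node (nat_lit
  0) (nat_lit 99045) (nat_lit 19) nil nil)) (node (nat_lit 0) (nat_lit 103482) (nat_lit 18) nil
  nil))) (node (nat_lit 4) (nat_lit 0) (nat_lit 17) (node (nat_lit 6) (nat_lit 0) (nat_lit 18)
  (node (nat_lit 5) (nat_lit 99438) (nat_lit 19) (node (nat_lit 4) (nat_lit 100456) (nat_lit 20)
  (node (nat_lit 5) (nat_lit 100836) (nat_lit 21) (node (nat_lit 6) (nat_lit 100498) (nat_lit 22)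
  (node (nat_lit 4) (nat_lit 98672) (nat_lit 23) (node (nat_lit 6) (nat_lit 98474) (nat_lit 24)
  nil (node (nat_lit 5) (nat_lit 98325) (nat_lit 24) (node (nat_lit 4) (nat_lit 95898) (nat_lit
  25) (node (nat_lit 6) (nat_lit 90908) (nat_lit 26) (node (nat_lit 5) (nat_lit 78744) (nat_lit
  27) (node (nat_lit 6) (nat_lit 76844) (nat_lit 28) (node (nat_lit 4) (nat_lit 76958) (nat_lit
  29) (node (nat_lit 6) (nat_lit 66869) (nat_lit 30) (node (nat_lit 5) (nat_lit 77134) (nat_lit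
  31) (node (nat_lit 4) (nat_lit 60188) (nat_lit 32) (node (nat_lit 6) (nat_lit 60964) (nat_lit
  33) (node (nat_lit 4) (nat_lit 36825) (nat_lit 34) nil nil) nil) nil) nil) nil) nil) nil) nil)
  nil) nil) nil)) (node (nat_lit 5) (nat_lit 99748) (nat_lit 23) nil nil)) nil) nil) (node
  (nat_lit 6) (nat_lit 101483) (nat_lit 20) (node (nat_lit 4) (nat_lit 102446) (nat_lit 21) (node
  (nat_lit 5) (nat_lit 102599) (nat_lit 22) nil (node (nat_lit 6) (nat_lit 103563) (nat_lit 22)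
  (node (nat_lit 5) (nat_lit 104238) (nat_lit 23) nil nil) nil)) nil) nil)) (node (nat_lit 0)
  (nat_lit 102576) (nat_lit 19) nil nil)) (node (nat_lit 0) (nat_lit 100788) (nat_lit 18) nil
  nil)) (node (nat_lit 0) (nat_lit 104808) (nat_lit 17) nil nil))) (node (nat_lit 0) (nat_lit
  104808) (nat_lit 16) (node (nat_lit 6) (nat_lit 104808) (nat_lit 17) nil nil) nil)) (node
  (nat_lit 0) (nat_lit 104808) (nat_lit 15) (node (nat_lit 6) (nat_lit 104808) (nat_lit 16) nil
  (node (nat_lit 4) (nat_lit 104808) (nat_lit 16) nil (node (nat_lit 5) (nat_lit 104808) (nat_lit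
  16) nil nil))) nil)) (node (nat_lit 0) (nat_lit 104808) (nat_lit 14) (node (nat_lit 5) (nat_lit
  104808) (nat_lit 15) (node (nat_lit 4) (nat_lit 104808) (nat_lit 16) nil nil) (node (nat_lit 6)
  (nat_lit 104808) (nat_lit 15) nil (node (nat_lit 4) (nat_lit 104808) (nat_lit 15) nil nil)))
  nil))) (node (nat_lit 0) (nat_lit 104808) (nat_lit 13) (node (nat_lit 4) (nat_lit 104808)
  (nat_lit 14) (node (nat_lit 5) (nat_lit 104808) (nat_lit 15) (node (nat_lit 6) (nat_lit 104808)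
  (nat_lit 16) (node (nat_lit 4) (nat_lit 104808) (nat_lit 17) (node (nat_lit 5) (nat_lit 104808)
  (nat_lit 18) (node (nat_lit 4) (nat_lit 104808) (nat_lit 19) (node (nat_lit 6) (nat_lit 104808)
  (nat_lit 20) (node (nat_lit 5) (nat_lit 104808) (nat_lit 21) (node (nat_lit 6) (nat_lit 104808)
  (nat_lit 22) (node (nat_lit 4) (nat_lit 104808) (nat_lit 23) nil nil) nil) nil) nil) nil) nil)
  nil) nil) nil) (node (nat_lit 5) (nat_lit 104808) (nat_lit 14) (node (nat_lit 6) (nat_lit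
  104808) (nat_lit 15) nil (node (nat_lit 4) (nat_lit 104808) (nat_lit 15) nil nil)) (node
  (nat_lit 6) (nat_lit 104808) (nat_lit 14) (node (nat_lit 5) (nat_lit 104808) (nat_lit 15) nil
  nil) nil))) nil)) (node (nat_lit 0) (nat_lit 104578) (nat_lit 12) (node (nat_lit 4) (nat_lit
  104578) (nat_lit 13) (node (nat_lit 6) (nat_lit 104578) (nat_lit 14) (node (nat_lit 5) (nat_lit
  104578) (nat_lit 15) nil (node (nat_lit 4) (nat_lit 104578) (nat_lit 15) (node (nat_lit 5)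
  (nat_lit 104578) (nat_lit 16) nil nil) nil)) (node (nat_lit 5) (nat_lit 104578) (nat_lit 14)
  (node (nat_lit 6) (nat_lit 104578) (nat_lit 15) (node (nat_lit 4) (nat_lit 104578) (nat_lit 16)
  (node (nat_lit 5) (nat_lit 104578) (nat_lit 17) (node (nat_lit 4) (nat_lit 104578) (nat_lit 18)
  (node (nat_lit 6) (nat_lit 104578) (nat_lit 19) (node (nat_lit 5) (nat_lit 104808) (nat_lit 20)
  (node (nat_lit 6) (nat_lit 104808) (nat_lit 21) (node (nat_lit 4) (nat_lit 104808) (nat_lit 22)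
  nil nil) nil) nil) nil) nil) nil) nil) nil) nil)) (node (nat_lit 6) (nat_lit 104578) (nat_lit
  13) (node (nat_lit 5) (nat_lit 104578) (nat_lit 14) nil (node (nat_lit 4) (nat_lit 104578)
  (nat_lit 14) (node (nat_lit 5) (nat_lit 104578) (nat_lit 15) nil nil) nil)) (node (nat_lit 5)
  (nat_lit 104578) (nat_lit 13) (node (nat_lit 6) (nat_lit 104578) (nat_lit 14) nil (node (nat_lit
  4) (nat_lit 104578) (nat_lit 14) nil nil)) nil))) nil)) t69) (node (nat_lit 0) (nat_lit 100672)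
  (nat_lit 10) (node (nat_lit 4) (nat_lit 100672) (nat_lit 11) (node (nat_lit 5) (nat_lit 100672)
  (nat_lit 12) (node (nat_lit 6) (nat_lit 100672) (nat_lit 13) (node (nat_lit 4) (nat_lit 100672)
  (nat_lit 14) (node (nat_lit 5) (nat_lit 100672) (nat_lit 15) (node (nat_lit 4) (nat_lit 100672)
  (nat_lit 16) (node (nat_lit 6) (nat_lit 100672) (nat_lit 17) (node (nat_lit 5) (nat_lit 101624)
  (nat_lit 18) (node (nat_lit 6) (nat_lit 102337) (nat_lit 19) nil nil) nil) nil) nil) nil) (node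
  (nat_lit 5) (nat_lit 100672) (nat_lit 14) nil nil)) (node (nat_lit 4) (nat_lit 100672) (nat_lit
  13) (node (nat_lit 6) (nat_lit 100672) (nat_lit 14) nil nil) nil)) (node (nat_lit 6) (nat_lit
  100672) (nat_lit 12) (node (nat_lit 5) (nat_lit 100672) (nat_lit 13) (node (nat_lit 6) (nat_lit
  100672) (nat_lit 14) nil (node (nat_lit 4) (nat_lit 100672) (nat_lit 14) nil nil)) (node
  (nat_lit 4) (nat_lit 100672) (nat_lit 13) (node (nat_lit 5) (nat_lit 100672) (nat_lit 14) (node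
  (nat_lit 6) (nat_lit 100672) (nat_lit 15) nil (node (nat_lit 4) (nat_lit 100672) (nat_lit 15)
  nil nil)) nil) nil)) nil)) (node (nat_lit 5) (nat_lit 100672) (nat_lit 11) (node (nat_lit 4)
  (nat_lit 100672) (nat_lit 12) (node (nat_lit 6) (nat_lit 100672) (nat_lit 13) (node (nat_lit 5)
  (nat_lit 100672) (nat_lit 14) nil (node (nat_lit 4) (nat_lit 100672) (nat_lit 14) nil nil))
  (node (nat_lit 5) (nat_lit 100672) (nat_lit 13) (node (nat_lit 6) (nat_lit 100672) (nat_lit 14)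
  (node (nat_lit 4) (nat_lit 100672) (nat_lit 15) (node (nat_lit 5) (nat_lit 100672) (nat_lit 16)
  (node (nat_lit 4) (nat_lit 100672) (nat_lit 17) (node (nat_lit 6) (nat_lit 102377) (nat_lit 18)
  (node (nat_lit 5) (nat_lit 102640) (nat_lit 19) nil nil) nil) nil) nil) nil) nil) nil)) (node
  (nat_lit 6) (nat_lit 100672) (nat_lit 12) (node (nat_lit 4) (nat_lit 100672) (nat_lit 13) (node
  (nat_lit 6) (nat_lit 100672) (nat_lit 14) nil (node (nat_lit 5) (nat_lit 100672) (nat_lit 14)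
  nil nil)) (node (nat_lit 5) (nat_lit 100672) (nat_lit 13) (node (nat_lit 4) (nat_lit 100672)
  (nat_lit 14) (node (nat_lit 6) (nat_lit 100672) (nat_lit 15) nil (node (nat_lit 5) (nat_lit
  100672) (nat_lit 15) nil nil)) nil) nil)) nil)) (node (nat_lit 6) (nat_lit 100672) (nat_lit 11)
  (node (nat_lit 5) (nat_lit 100672) (nat_lit 12) (node (nat_lit 4) (nat_lit 100672) (nat_lit 13)
  (node (nat_lit 5) (nat_lit 100672) (nat_lit 14) (node (nat_lit 6) (nat_lit 100672) (nat_lit 15)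
  (node (nat_lit 4) (nat_lit 100672) (nat_lit 16) (node (nat_lit 5) (nat_lit 100672) (nat_lit 17)
  (node (nat_lit 4) (nat_lit 103172) (nat_lit 18) nil nil) nil) nil) nil) (node (nat_lit 6)
  (nat_lit 100672) (nat_lit 14) nil nil)) (node (nat_lit 6) (nat_lit 100672) (nat_lit 13) (node
  (nat_lit 4) (nat_lit 100672) (nat_lit 14) (node (nat_lit 5) (nat_lit 100672) (nat_lit 15) nil
  nil) nil) nil)) (node (nat_lit 4) (nat_lit 100672) (nat_lit 12) (node (nat_lit 5) (nat_lit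
  100672) (nat_lit 13) nil (node (nat_lit 6) (nat_lit 100672) (nat_lit 13) nil nil)) nil)) (node
  (nat_lit 0) (nat_lit 102377) (nat_lit 11) nil nil)))) nil))

noncomputable def t71 : Tr :=
  (node (nat_lit 4) (nat_lit 0) (nat_lit 12) (node (nat_lit 6) (nat_lit 0) (nat_lit 13) (node
  (nat_lit 5) (nat_lit 0) (nat_lit 14) (node (nat_lit 4) (nat_lit 0) (nat_lit 15) (node (nat_lit
  6) (nat_lit 0) (nat_lit 16) (node (nat_lit 4) (nat_lit 0) (nat_lit 17) (node (nat_lit 5)
  (nat_lit 0) (nat_lit 18) (node (nat_lit 6) (nat_lit 79068) (nat_lit 19) (node (nat_lit 4)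
  (nat_lit 81049) (nat_lit 20) (node (nat_lit 6) (nat_lit 82490) (nat_lit 21) (node (nat_lit 5)
  (nat_lit 82979) (nat_lit 22) (node (nat_lit 4) (nat_lit 82919) (nat_lit 23) (node (nat_lit 5)
  (nat_lit 82797) (nat_lit 24) (node (nat_lit 6) (nat_lit 82634) (nat_lit 25) (node (nat_lit 4)
  (nat_lit 82197) (nat_lit 26) (node (nat_lit 5) (nat_lit 81899) (nat_lit 27) (node (nat_lit 4)
  (nat_lit 81558) (nat_lit 28) (node (nat_lit 6) (nat_lit 80995) (nat_lit 29) (node (nat_lit 5)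
  (nat_lit 77746) (nat_lit 30) (node (nat_lit 4) (nat_lit 76657) (nat_lit 31) (node (nat_lit 5)
  (nat_lit 75686) (nat_lit 32) (node (nat_lit 6) (nat_lit 70596) (nat_lit 33) (node (nat_lit 4)
  (nat_lit 62698) (nat_lit 34) (node (nat_lit 6) (nat_lit 54471) (nat_lit 35) (node (nat_lit 5)
  (nat_lit 48010) (nat_lit 36) (node (nat_lit 4) (nat_lit 42048) (nat_lit 37) (node (nat_lit 6)
  (nat_lit 43230) (nat_lit 38) (node (nat_lit 4) (nat_lit 34101) (nat_lit 39) (node (nat_lit 5)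
  (nat_lit 34625) (nat_lit 40) (node (nat_lit 6) (nat_lit 3808) (nat_lit 41) nil nil) nil) nil)
  nil) nil) nil) nil) nil) nil) nil) nil) nil) nil) nil) nil) nil) nil) nil) nil) nil) nil) (node
  (nat_lit 5) (nat_lit 80447) (nat_lit 20) (node (nat_lit 4) (nat_lit 81544) (nat_lit 21) (node
  (nat_lit 6) (nat_lit 81688) (nat_lit 22) nil (node (nat_lit 5) (nat_lit 81406) (nat_lit 22)
  (node (nat_lit 6) (nat_lit 81225) (nat_lit 23) (node (nat_lit 4) (nat_lit 80711) (nat_lit 24)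
  (node (nat_lit 5) (nat_lit 79566) (nat_lit 25) (node (nat_lit 4) (nat_lit 78876) (nat_lit 26)
  (node (nat_lit 6) (nat_lit 77092) (nat_lit 27) (node (nat_lit 5) (nat_lit 72808) (nat_lit 28)
  (node (nat_lit 4) (nat_lit 52774) (nat_lit 29) (node (nat_lit 5) (nat_lit 50746) (nat_lit 30)
  (node (nat_lit 6) (nat_lit 47129) (nat_lit 31) (node (nat_lit 4) (nat_lit 40656) (nat_lit 32)
  (node (nat_lit 6) (nat_lit 37446) (nat_lit 33) (node (nat_lit 5) (nat_lit 38967) (nat_lit 34)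
  (node (nat_lit 4) (nat_lit 20193) (nat_lit 35) (node (nat_lit 6) (nat_lit 3132) (nat_lit 36)
  (node (nat_lit 4) (nat_lit 6013) (nat_lit 37) nil nil) nil) nil) nil) nil) nil) nil) nil) nil)
  nil) nil) nil) nil) nil) nil) nil)) nil) nil)) (node (nat_lit 4) (nat_lit 0) (nat_lit 19) (node
  (nat_lit 6) (nat_lit 0) (nat_lit 20) (node (nat_lit 5) (nat_lit 81528) (nat_lit 21) (node
  (nat_lit 6) (nat_lit 82159) (nat_lit 22) (node (nat_lit 4) (nat_lit 82434) (nat_lit 23) (node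
  (nat_lit 5) (nat_lit 82650) (nat_lit 24) nil nil) nil) (node (nat_lit 4) (nat_lit 79729)
  (nat_lit 22) (node (nat_lit 5) (nat_lit 79435) (nat_lit 23) (node (nat_lit 6) (nat_lit 78968)
  (nat_lit 24) (node (nat_lit 4) (nat_lit 77599) (nat_lit 25) (node (nat_lit 5) (nat_lit 76456)
  (nat_lit 26) (node (nat_lit 4) (nat_lit 75026) (nat_lit 27) (node (nat_lit 6) (nat_lit 74229)
  (nat_lit 28) (node (nat_lit 5) (nat_lit 70066) (nat_lit 29) (node (nat_lit 4) (nat_lit 66827)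
  (nat_lit 30) nil nil) nil) nil) nil) nil) nil) nil) nil) nil)) (node (nat_lit 0) (nat_lit 82211)
  (nat_lit 21) nil nil)) (node (nat_lit 0) (nat_lit 82861) (nat_lit 20) nil nil)) (node (nat_lit
  0) (nat_lit 81620) (nat_lit 19) nil nil))) (node (nat_lit 0) (nat_lit 82530) (nat_lit 18) nil
  nil)) (node (nat_lit 0) (nat_lit 82594) (nat_lit 17) nil nil)) (node (nat_lit 0) (nat_lit 82942)
  (nat_lit 16) nil (node (nat_lit 5) (nat_lit 0) (nat_lit 16) (node (nat_lit 0) (nat_lit 81180)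
  (nat_lit 17) nil nil) nil))) (node (nat_lit 6) (nat_lit 0) (nat_lit 15) (node (nat_lit 4)
  (nat_lit 0) (nat_lit 16) (node (nat_lit 5) (nat_lit 0) (nat_lit 17) (node (nat_lit 6) (nat_lit
  0) (nat_lit 18) (node (nat_lit 5) (nat_lit 77590) (nat_lit 19) (node (nat_lit 4) (nat_lit 78709)
  (nat_lit 20) (node (nat_lit 5) (nat_lit 78835) (nat_lit 21) (node (nat_lit 6) (nat_lit 78868)
  (nat_lit 22) (node (nat_lit 4) (nat_lit 78032) (nat_lit 23) (node (nat_lit 5) (nat_lit 76986)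
  (nat_lit 24) (node (nat_lit 4) (nat_lit 75264) (nat_lit 25) (node (nat_lit 6) (nat_lit 71800)
  (nat_lit 26) (node (nat_lit 5) (nat_lit 64764) (nat_lit 27) (node (nat_lit 4) (nat_lit 62006)
  (nat_lit 28) (node (nat_lit 5) (nat_lit 54045) (nat_lit 29) (node (nat_lit 6) (nat_lit 39488)
  (nat_lit 30) nil nil) nil) nil) nil) nil) nil) nil) nil) nil) (node (nat_lit 6) (nat_lit 79557)
  (nat_lit 21) (node (nat_lit 4) (nat_lit 79701) (nat_lit 22) nil nil) nil)) nil) (node (nat_lit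
  0) (nat_lit 78880) (nat_lit 19) nil nil)) (node (nat_lit 4) (nat_lit 0) (nat_lit 18) (node
  (nat_lit 6) (nat_lit 0) (nat_lit 19) (node (nat_lit 5) (nat_lit 0) (nat_lit 20) (node (nat_lit
  4) (nat_lit 0) (nat_lit 21) (node (nat_lit 5) (nat_lit 0) (nat_lit 22) (node (nat_lit 6)
  (nat_lit 81430) (nat_lit 23) (node (nat_lit 4) (nat_lit 80916) (nat_lit 24) (node (nat_lit 5)
  (nat_lit 80143) (nat_lit 25) (node (nat_lit 4) (nat_lit 79082) (nat_lit 26) (node (nat_lit 6)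
  (nat_lit 77812) (nat_lit 27) (node (nat_lit 5) (nat_lit 74856) (nat_lit 28) nil nil) nil) nil)
  nil) nil) (node (nat_lit 0) (nat_lit 82038) (nat_lit 23) nil nil)) (node (nat_lit 0) (nat_lit
  83249) (nat_lit 22) nil nil)) (node (nat_lit 6) (nat_lit 80603) (nat_lit 21) (node (nat_lit 4)
  (nat_lit 80755) (nat_lit 22) (node (nat_lit 6) (nat_lit 80501) (nat_lit 23) nil nil) nil) (node
  (nat_lit 0) (nat_lit 81572) (nat_lit 21) nil nil))) (node (nat_lit 4) (nat_lit 80248) (nat_lit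
  20) (node (nat_lit 5) (nat_lit 81024) (nat_lit 21) (node (nat_lit 6) (nat_lit 81666) (nat_lit
  22) (node (nat_lit 5) (nat_lit 82206) (nat_lit 23) (node (nat_lit 4) (nat_lit 82662) (nat_lit
  24) (node (nat_lit 5) (nat_lit 82957) (nat_lit 25) (node (nat_lit 6) (nat_lit 83160) (nat_lit
  26) (node (nat_lit 4) (nat_lit 82892) (nat_lit 27) nil nil) nil) nil) nil) nil) nil) nil) (node
  (nat_lit 0) (nat_lit 80582) (nat_lit 20) nil nil))) (node (nat_lit 0) (nat_lit 83377) (nat_lit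
  19) nil nil)) (node (nat_lit 0) (nat_lit 81904) (nat_lit 18) nil nil))) (node (nat_lit 0)
  (nat_lit 82622) (nat_lit 17) nil nil)) (node (nat_lit 0) (nat_lit 82804) (nat_lit 16) nil nil))
  (node (nat_lit 0) (nat_lit 83187) (nat_lit 15) (node (nat_lit 6) (nat_lit 83187) (nat_lit 16)
  nil (node (nat_lit 5) (nat_lit 83187) (nat_lit 16) nil nil)) nil))) (node (nat_lit 0) (nat_lit
  82377) (nat_lit 14) (node (nat_lit 4) (nat_lit 82377) (nat_lit 15) (node (nat_lit 6) (nat_lit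
  82377) (nat_lit 16) nil nil) (node (nat_lit 6) (nat_lit 82377) (nat_lit 15) (node (nat_lit 4)
  (nat_lit 82377) (nat_lit 16) nil nil) (node (nat_lit 5) (nat_lit 82377) (nat_lit 15) nil nil)))
  nil)) (node (nat_lit 5) (nat_lit 0) (nat_lit 13) (node (nat_lit 0) (nat_lit 43803) (nat_lit 14)
  nil nil) (node (nat_lit 0) (nat_lit 80947) (nat_lit 13) (node (nat_lit 4) (nat_lit 80947)
  (nat_lit 14) (node (nat_lit 6) (nat_lit 80947) (nat_lit 15) nil (node (nat_lit 5) (nat_lit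
  80947) (nat_lit 15) (node (nat_lit 6) (nat_lit 80947) (nat_lit 16) (node (nat_lit 4) (nat_lit
  80947) (nat_lit 17) (node (nat_lit 5) (nat_lit 80947) (nat_lit 18) (node (nat_lit 4) (nat_lit
  80947) (nat_lit 19) (node (nat_lit 6) (nat_lit 80716) (nat_lit 20) (node (nat_lit 5) (nat_lit
  80647) (nat_lit 21) nil nil) nil) nil) nil) nil) nil) nil)) (node (nat_lit 5) (nat_lit 80947)
  (nat_lit 14) (node (nat_lit 6) (nat_lit 80947) (nat_lit 15) nil (node (nat_lit 4) (nat_lit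
  80947) (nat_lit 15) (node (nat_lit 5) (nat_lit 80947) (nat_lit 16) (node (nat_lit 6) (nat_lit
  80947) (nat_lit 17) (node (nat_lit 4) (nat_lit 80947) (nat_lit 18) (node (nat_lit 5) (nat_lit
  80947) (nat_lit 19) (node (nat_lit 4) (nat_lit 81186) (nat_lit 20) (node (nat_lit 6) (nat_lit
  81011) (nat_lit 21) nil nil) nil) nil) nil) nil) nil) nil)) (node (nat_lit 6) (nat_lit 80947)
  (nat_lit 14) (node (nat_lit 5) (nat_lit 80947) (nat_lit 15) nil (node (nat_lit 4) (nat_lit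
  80947) (nat_lit 15) nil nil)) nil))) nil))) (node (nat_lit 5) (nat_lit 0) (nat_lit 12) (node
  (nat_lit 4) (nat_lit 0) (nat_lit 13) (node (nat_lit 6) (nat_lit 0) (nat_lit 14) (node (nat_lit
  4) (nat_lit 0) (nat_lit 15) (node (nat_lit 5) (nat_lit 0) (nat_lit 16) (node (nat_lit 6)
  (nat_lit 0) (nat_lit 17) (node (nat_lit 4) (nat_lit 0) (nat_lit 18) (node (nat_lit 6) (nat_lit
  0) (nat_lit 19) (node (nat_lit 5) (nat_lit 0) (nat_lit 20) (node (nat_lit 4) (nat_lit 79622)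
  (nat_lit 21) (node (nat_lit 5) (nat_lit 80048) (nat_lit 22) (node (nat_lit 6) (nat_lit 80620)
  (nat_lit 23) (node (nat_lit 4) (nat_lit 79516) (nat_lit 24) (node (nat_lit 5) (nat_lit 77783)
  (nat_lit 25) (node (nat_lit 4) (nat_lit 75799) (nat_lit 26) (node (nat_lit 6) (nat_lit 76462)
  (nat_lit 27) (node (nat_lit 5) (nat_lit 71627) (nat_lit 28) (node (nat_lit 4) (nat_lit 70887)
  (nat_lit 29) (node (nat_lit 5) (nat_lit 62773) (nat_lit 30) (node (nat_lit 6) (nat_lit 54522)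
  (nat_lit 31) (node (nat_lit 5) (nat_lit 48060) (nat_lit 32) (node (nat_lit 4) (nat_lit 42091)
  (nat_lit 33) (node (nat_lit 6) (nat_lit 42061) (nat_lit 34) (node (nat_lit 4) (nat_lit 32943)
  (nat_lit 35) (node (nat_lit 5) (nat_lit 33471) (nat_lit 36) (node (nat_lit 6) (nat_lit 3864)
  (nat_lit 37) nil nil) nil) nil) nil) nil) nil) nil) nil) nil) nil) nil) nil) nil) (node (nat_lit
  5) (nat_lit 80206) (nat_lit 24) nil nil)) nil) (node (nat_lit 6) (nat_lit 80550) (nat_lit 22)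
  (node (nat_lit 4) (nat_lit 80826) (nat_lit 23) nil nil) nil)) (node (nat_lit 6) (nat_lit 80610)
  (nat_lit 21) (node (nat_lit 4) (nat_lit 81508) (nat_lit 22) (node (nat_lit 5) (nat_lit 81875)
  (nat_lit 23) (node (nat_lit 4) (nat_lit 81968) (nat_lit 24) (node (nat_lit 6) (nat_lit 81812)
  (nat_lit 25) nil nil) (node (nat_lit 6) (nat_lit 81848) (nat_lit 24) nil nil)) nil) nil) (node
  (nat_lit 0) (nat_lit 82385) (nat_lit 21) nil nil))) (node (nat_lit 0) (nat_lit 83685) (nat_lit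
  20) nil nil)) (node (nat_lit 0) (nat_lit 84637) (nat_lit 19) nil nil)) (node (nat_lit 5)
  (nat_lit 0) (nat_lit 18) (node (nat_lit 4) (nat_lit 0) (nat_lit 19) (node (nat_lit 5) (nat_lit
  0) (nat_lit 20) (node (nat_lit 6) (nat_lit 77681) (nat_lit 21) (node (nat_lit 4) (nat_lit 77982)
  (nat_lit 22) (node (nat_lit 5) (nat_lit 74842) (nat_lit 23) (node (nat_lit 4) (nat_lit 71465)
  (nat_lit 24) (node (nat_lit 6) (nat_lit 68792) (nat_lit 25) (node (nat_lit 5) (nat_lit 64348)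
  (nat_lit 26) (node (nat_lit 4) (nat_lit 59311) (nat_lit 27) (node (nat_lit 5) (nat_lit 48487)
  (nat_lit 28) (node (nat_lit 6) (nat_lit 45354) (nat_lit 29) (node (nat_lit 5) (nat_lit 3644)
  (nat_lit 30) nil nil) nil) nil) nil) nil) nil) nil) (node (nat_lit 6) (nat_lit 78859) (nat_lit
  23) (node (nat_lit 5) (nat_lit 79558) (nat_lit 24) (node (nat_lit 4) (nat_lit 79969) (nat_lit
  25) nil nil) nil) nil)) nil) (node (nat_lit 0) (nat_lit 77796) (nat_lit 21) nil nil)) (node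
  (nat_lit 0) (nat_lit 82122) (nat_lit 20) nil nil)) (node (nat_lit 0) (nat_lit 83296) (nat_lit
  19) nil nil)) (node (nat_lit 0) (nat_lit 83096) (nat_lit 18) nil nil))) (node (nat_lit 4)
  (nat_lit 0) (nat_lit 17) (node (nat_lit 6) (nat_lit 0) (nat_lit 18) (node (nat_lit 5) (nat_lit
  77312) (nat_lit 19) (node (nat_lit 4) (nat_lit 78553) (nat_lit 20) (node (nat_lit 5) (nat_lit
  79444) (nat_lit 21) (node (nat_lit 6) (nat_lit 80291) (nat_lit 22) (node (nat_lit 4) (nat_lit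
  80173) (nat_lit 23) (node (nat_lit 5) (nat_lit 79127) (nat_lit 24) (node (nat_lit 4) (nat_lit
  77568) (nat_lit 25) (node (nat_lit 6) (nat_lit 75241) (nat_lit 26) (node (nat_lit 5) (nat_lit
  71314) (nat_lit 27) (node (nat_lit 4) (nat_lit 49867) (nat_lit 28) nil nil) nil) nil) nil) nil)
  nil) nil) nil) (node (nat_lit 6) (nat_lit 79159) (nat_lit 20) (node (nat_lit 4) (nat_lit 80268)
  (nat_lit 21) (node (nat_lit 6) (nat_lit 81423) (nat_lit 22) (node (nat_lit 5) (nat_lit 82174)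
  (nat_lit 23) (node (nat_lit 4) (nat_lit 82552) (nat_lit 24) (node (nat_lit 5) (nat_lit 82724)
  (nat_lit 25) (node (nat_lit 6) (nat_lit 82509) (nat_lit 26) (node (nat_lit 4) (nat_lit 82053)
  (nat_lit 27) (node (nat_lit 5) (nat_lit 81165) (nat_lit 28) (node (nat_lit 4) (nat_lit 81108)
  (nat_lit 29) (node (nat_lit 6) (nat_lit 80094) (nat_lit 30) (node (nat_lit 5) (nat_lit 72862)
  (nat_lit 31) (node (nat_lit 4) (nat_lit 74534) (nat_lit 32) (node (nat_lit 5) (nat_lit 72212)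
  (nat_lit 33) (node (nat_lit 6) (nat_lit 70649) (nat_lit 34) (node (nat_lit 5) (nat_lit 70764)
  (nat_lit 35) (node (nat_lit 4) (nat_lit 64089) (nat_lit 36) (node (nat_lit 6) (nat_lit 56562)
  (nat_lit 37) (node (nat_lit 4) (nat_lit 41488) (nat_lit 38) (node (nat_lit 5) (nat_lit 38292)
  (nat_lit 39) (node (nat_lit 4) (nat_lit 41987) (nat_lit 40) (node (nat_lit 6) (nat_lit 33137)
  (nat_lit 41) (node (nat_lit 5) (nat_lit 33662) (nat_lit 42) (node (nat_lit 6) (nat_lit 3783)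
  (nat_lit 43) nil nil) nil) nil) nil) nil) nil) nil) nil) nil) nil) nil) nil) nil) nil) nil) nil)
  nil) nil) nil) nil) nil) (node (nat_lit 5) (nat_lit 80420) (nat_lit 22) nil nil)) nil) nil))
  (node (nat_lit 0) (nat_lit 78017) (nat_lit 19) nil nil)) (node (nat_lit 0) (nat_lit 81507)
  (nat_lit 18) nil nil)) (node (nat_lit 0) (nat_lit 84452) (nat_lit 17) (node (nat_lit 4) (nat_lit
  84452) (nat_lit 18) nil nil) nil))) (node (nat_lit 0) (nat_lit 84272) (nat_lit 16) (node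
  (nat_lit 6) (nat_lit 84272) (nat_lit 17) nil (node (nat_lit 4) (nat_lit 84272) (nat_lit 17) nil
  nil)) nil)) (node (nat_lit 5) (nat_lit 0) (nat_lit 15) (node (nat_lit 6) (nat_lit 0) (nat_lit
  16) (node (nat_lit 4) (nat_lit 0) (nat_lit 17) (node (nat_lit 5) (nat_lit 0) (nat_lit 18) (node
  (nat_lit 6) (nat_lit 0) (nat_lit 19) (node (nat_lit 5) (nat_lit 79112) (nat_lit 20) (node
  (nat_lit 4) (nat_lit 80099) (nat_lit 21) (node (nat_lit 5) (nat_lit 80209) (nat_lit 22) (node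
  (nat_lit 6) (nat_lit 81961) (nat_lit 23) (node (nat_lit 4) (nat_lit 80969) (nat_lit 24) (node
  (nat_lit 5) (nat_lit 78411) (nat_lit 25) (node (nat_lit 4) (nat_lit 77651) (nat_lit 26) (node
  (nat_lit 6) (nat_lit 76207) (nat_lit 27) (node (nat_lit 5) (nat_lit 71520) (nat_lit 28) (node
  (nat_lit 4) (nat_lit 68537) (nat_lit 29) (node (nat_lit 5) (nat_lit 62104) (nat_lit 30) (node
  (nat_lit 6) (nat_lit 55865) (nat_lit 31) (node (nat_lit 5) (nat_lit 42828) (nat_lit 32) (node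
  (nat_lit 4) (nat_lit 56292) (nat_lit 33) (node (nat_lit 6) (nat_lit 42777) (nat_lit 34) nil nil)
  nil) nil) nil) nil) nil) nil) nil) nil) nil) nil) nil) (node (nat_lit 6) (nat_lit 81026)
  (nat_lit 22) (node (nat_lit 4) (nat_lit 81302) (nat_lit 23) nil nil) nil)) nil) (node (nat_lit
  0) (nat_lit 79792) (nat_lit 20) nil nil)) (node (nat_lit 4) (nat_lit 0) (nat_lit 19) (node
  (nat_lit 6) (nat_lit 78979) (nat_lit 20) (node (nat_lit 5) (nat_lit 80073) (nat_lit 21) (node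
  (nat_lit 4) (nat_lit 80829) (nat_lit 22) nil nil) (node (nat_lit 4) (nat_lit 79789) (nat_lit 21)
  (node (nat_lit 5) (nat_lit 80143) (nat_lit 22) nil nil) nil)) (node (nat_lit 0) (nat_lit 79725)
  (nat_lit 20) nil nil)) (node (nat_lit 0) (nat_lit 79994) (nat_lit 19) nil nil))) (node (nat_lit
  6) (nat_lit 0) (nat_lit 18) (node (nat_lit 5) (nat_lit 0) (nat_lit 19) (node (nat_lit 4)
  (nat_lit 77991) (nat_lit 20) (node (nat_lit 5) (nat_lit 78130) (nat_lit 21) (node (nat_lit 6)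
  (nat_lit 78042) (nat_lit 22) (node (nat_lit 4) (nat_lit 76206) (nat_lit 23) (node (nat_lit 5)
  (nat_lit 75267) (nat_lit 24) (node (nat_lit 4) (nat_lit 74389) (nat_lit 25) (node (nat_lit 6)
  (nat_lit 73519) (nat_lit 26) (node (nat_lit 5) (nat_lit 70221) (nat_lit 27) (node (nat_lit 4)
  (nat_lit 63334) (nat_lit 28) (node (nat_lit 5) (nat_lit 54223) (nat_lit 29) (node (nat_lit 6)
  (nat_lit 40369) (nat_lit 30) (node (nat_lit 5) (nat_lit 37170) (nat_lit 31) (node (nat_lit 4)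
  (nat_lit 40858) (nat_lit 32) (node (nat_lit 6) (nat_lit 33206) (nat_lit 33) (node (nat_lit 5)
  (nat_lit 33657) (nat_lit 34) (node (nat_lit 6) (nat_lit 2680) (nat_lit 35) nil nil) nil) nil)
  nil) nil) nil) nil) nil) nil) nil) nil) nil) nil) nil) (node (nat_lit 6) (nat_lit 79283)
  (nat_lit 21) (node (nat_lit 4) (nat_lit 79960) (nat_lit 22) (node (nat_lit 5) (nat_lit 80235)
  (nat_lit 23) nil nil) nil) nil)) (node (nat_lit 0) (nat_lit 79344) (nat_lit 20) nil nil)) (node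
  (nat_lit 0) (nat_lit 80108) (nat_lit 19) nil nil)) (node (nat_lit 0) (nat_lit 81353) (nat_lit
  18) nil nil))) (node (nat_lit 0) (nat_lit 81957) (nat_lit 17) nil nil)) (node (nat_lit 0)
  (nat_lit 83037) (nat_lit 16) nil nil)) (node (nat_lit 0) (nat_lit 82783) (nat_lit 15) (node
  (nat_lit 6) (nat_lit 82783) (nat_lit 16) nil (node (nat_lit 4) (nat_lit 82783) (nat_lit 16) nil
  nil)) nil))) (node (nat_lit 0) (nat_lit 82021) (nat_lit 14) (node (nat_lit 5) (nat_lit 82021)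
  (nat_lit 15) nil (node (nat_lit 4) (nat_lit 82021) (nat_lit 15) nil (node (nat_lit 6) (nat_lit
  82021) (nat_lit 15) nil nil))) nil)) (node (nat_lit 0) (nat_lit 80859) (nat_lit 13) (node
  (nat_lit 4) (nat_lit 80859) (nat_lit 14) (node (nat_lit 5) (nat_lit 80859) (nat_lit 15) (node
  (nat_lit 6) (nat_lit 80859) (nat_lit 16) (node (nat_lit 4) (nat_lit 80859) (nat_lit 17) (node
  (nat_lit 5) (nat_lit 80859) (nat_lit 18) (node (nat_lit 4) (nat_lit 80859) (nat_lit 19) (node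
  (nat_lit 6) (nat_lit 80627) (nat_lit 20) (node (nat_lit 5) (nat_lit 80558) (nat_lit 21) nil nil)
  nil) nil) nil) nil) nil) nil) (node (nat_lit 5) (nat_lit 80859) (nat_lit 14) nil (node (nat_lit
  6) (nat_lit 80859) (nat_lit 14) (node (nat_lit 5) (nat_lit 80859) (nat_lit 15) nil nil) nil)))
  nil)) (node (nat_lit 0) (nat_lit 79140) (nat_lit 12) (node (nat_lit 5) (nat_lit 79140) (nat_lit
  13) (node (nat_lit 6) (nat_lit 79140) (nat_lit 14) (node (nat_lit 4) (nat_lit 79140) (nat_lit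
  15) (node (nat_lit 5) (nat_lit 79140) (nat_lit 16) nil nil) (node (nat_lit 5) (nat_lit 79140)
  (nat_lit 15) nil nil)) (node (nat_lit 4) (nat_lit 79140) (nat_lit 14) (node (nat_lit 6) (nat_lit
  79140) (nat_lit 15) nil nil) nil)) (node (nat_lit 6) (nat_lit 79140) (nat_lit 13) (node (nat_lit
  5) (nat_lit 79140) (nat_lit 14) (node (nat_lit 6) (nat_lit 79140) (nat_lit 15) nil (node
  (nat_lit 4) (nat_lit 79140) (nat_lit 15) nil nil)) (node (nat_lit 4) (nat_lit 79140) (nat_lit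
  14) (node (nat_lit 5) (nat_lit 79140) (nat_lit 15) nil (node (nat_lit 6) (nat_lit 79140)
  (nat_lit 15) nil nil)) nil)) (node (nat_lit 4) (nat_lit 79140) (nat_lit 13) (node (nat_lit 5)
  (nat_lit 79140) (nat_lit 14) (node (nat_lit 6) (nat_lit 79140) (nat_lit 15) (node (nat_lit 4)
  (nat_lit 79140) (nat_lit 16) (node (nat_lit 5) (nat_lit 79140) (nat_lit 17) (node (nat_lit 4)
  (nat_lit 79140) (nat_lit 18) (node (nat_lit 6) (nat_lit 78830) (nat_lit 19) (node (nat_lit 5)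
  (nat_lit 78737) (nat_lit 20) (node (nat_lit 4) (nat_lit 78650) (nat_lit 21) nil nil) nil) nil)
  nil) nil) nil) nil) (node (nat_lit 6) (nat_lit 79140) (nat_lit 14) (node (nat_lit 4) (nat_lit
  79140) (nat_lit 15) nil (node (nat_lit 5) (nat_lit 79140) (nat_lit 15) nil nil)) nil)) nil)))
  nil)))

noncomputable def t72 : Tr :=
  (node (nat_lit 6) (nat_lit 0) (nat_lit 13) (node (nat_lit 5) (nat_lit 0) (nat_lit 14) (node
  (nat_lit 6) (nat_lit 0) (nat_lit 15) (node (nat_lit 4) (nat_lit 0) (nat_lit 16) (node (nat_lit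
  6) (nat_lit 0) (nat_lit 17) (node (nat_lit 5) (nat_lit 0) (nat_lit 18) (node (nat_lit 4)
  (nat_lit 0) (nat_lit 19) (node (nat_lit 5) (nat_lit 0) (nat_lit 20) (node (nat_lit 6) (nat_lit
  0) (nat_lit 21) (node (nat_lit 4) (nat_lit 0) (nat_lit 22) (node (nat_lit 5) (nat_lit 0)
  (nat_lit 23) (node (nat_lit 4) (nat_lit 90201) (nat_lit 24) (node (nat_lit 6) (nat_lit 88669)
  (nat_lit 25) (node (nat_lit 4) (nat_lit 82450) (nat_lit 26) (node (nat_lit 5) (nat_lit 77094)
  (nat_lit 27) (node (nat_lit 6) (nat_lit 77610) (nat_lit 28) (node (nat_lit 5) (nat_lit 62697)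
  (nat_lit 29) (node (nat_lit 4) (nat_lit 62731) (nat_lit 30) (node (nat_lit 6) (nat_lit 55042)
  (nat_lit 31) (node (nat_lit 5) (nat_lit 34084) (nat_lit 32) (node (nat_lit 6) (nat_lit 3108)
  (nat_lit 33) nil nil) nil) nil) nil) nil) nil) nil) (node (nat_lit 5) (nat_lit 88417) (nat_lit
  26) nil nil)) nil) (node (nat_lit 0) (nat_lit 93396) (nat_lit 24) nil nil)) (node (nat_lit 6)
  (nat_lit 95537) (nat_lit 23) (node (nat_lit 5) (nat_lit 94953) (nat_lit 24) nil nil) (node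
  (nat_lit 0) (nat_lit 96285) (nat_lit 23) nil nil))) (node (nat_lit 5) (nat_lit 96062) (nat_lit
  22) (node (nat_lit 4) (nat_lit 96669) (nat_lit 23) nil nil) (node (nat_lit 0) (nat_lit 96753)
  (nat_lit 22) nil nil))) (node (nat_lit 0) (nat_lit 97083) (nat_lit 21) nil nil)) (node (nat_lit
  6) (nat_lit 0) (nat_lit 20) (node (nat_lit 4) (nat_lit 97136) (nat_lit 21) (node (nat_lit 5)
  (nat_lit 97608) (nat_lit 22) (node (nat_lit 4) (nat_lit 97883) (nat_lit 23) nil (node (nat_lit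
  6) (nat_lit 98053) (nat_lit 23) (node (nat_lit 4) (nat_lit 98268) (nat_lit 24) nil (node
  (nat_lit 5) (nat_lit 97468) (nat_lit 24) nil nil)) nil)) nil) (node (nat_lit 0) (nat_lit 97547)
  (nat_lit 21) nil nil)) (node (nat_lit 0) (nat_lit 97953) (nat_lit 20) nil nil))) (node (nat_lit
  0) (nat_lit 100037) (nat_lit 19) nil nil)) (node (nat_lit 0) (nat_lit 100448) (nat_lit 18) nil
  nil)) (node (nat_lit 5) (nat_lit 0) (nat_lit 17) (node (nat_lit 4) (nat_lit 0) (nat_lit 18)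
  (node (nat_lit 6) (nat_lit 0) (nat_lit 19) (node (nat_lit 5) (nat_lit 0) (nat_lit 20) (node
  (nat_lit 4) (nat_lit 96103) (nat_lit 21) (node (nat_lit 5) (nat_lit 96162) (nat_lit 22) (node
  (nat_lit 6) (nat_lit 97146) (nat_lit 23) (node (nat_lit 4) (nat_lit 95966) (nat_lit 24) (node
  (nat_lit 5) (nat_lit 96219) (nat_lit 25) (node (nat_lit 4) (nat_lit 93619) (nat_lit 26) (node
  (nat_lit 6) (nat_lit 90880) (nat_lit 27) (node (nat_lit 4) (nat_lit 88675) (nat_lit 28) (node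
  (nat_lit 5) (nat_lit 86600) (nat_lit 29) (node (nat_lit 6) (nat_lit 84083) (nat_lit 30) (node
  (nat_lit 5) (nat_lit 75862) (nat_lit 31) (node (nat_lit 4) (nat_lit 69400) (nat_lit 32) (node
  (nat_lit 6) (nat_lit 63444) (nat_lit 33) (node (nat_lit 5) (nat_lit 56807) (nat_lit 34) (node
  (nat_lit 6) (nat_lit 57583) (nat_lit 35) (node (nat_lit 4) (nat_lit 33438) (nat_lit 36) nil nil)
  nil) nil) nil) nil) nil) nil) nil) nil) nil) nil) (node (nat_lit 6) (nat_lit 95811) (nat_lit 25)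
  nil nil)) (node (nat_lit 5) (nat_lit 96733) (nat_lit 24) nil nil)) nil) nil) (node (nat_lit 6)
  (nat_lit 96828) (nat_lit 21) nil (node (nat_lit 0) (nat_lit 98892) (nat_lit 21) nil nil))) (node
  (nat_lit 4) (nat_lit 0) (nat_lit 20) (node (nat_lit 5) (nat_lit 96987) (nat_lit 21) (node
  (nat_lit 6) (nat_lit 97808) (nat_lit 22) (node (nat_lit 4) (nat_lit 97926) (nat_lit 23) nil
  (node (nat_lit 5) (nat_lit 98348) (nat_lit 23) (node (nat_lit 4) (nat_lit 98804) (nat_lit 24)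
  (node (nat_lit 5) (nat_lit 99099) (nat_lit 25) (node (nat_lit 6) (nat_lit 99303) (nat_lit 26)
  (node (nat_lit 4) (nat_lit 99242) (nat_lit 27) nil nil) nil) nil) nil) nil)) nil) (node (nat_lit
  0) (nat_lit 99281) (nat_lit 21) nil nil)) (node (nat_lit 0) (nat_lit 100443) (nat_lit 20) nil
  nil))) (node (nat_lit 0) (nat_lit 96784) (nat_lit 19) nil nil)) (node (nat_lit 6) (nat_lit 0)
  (nat_lit 18) (node (nat_lit 5) (nat_lit 0) (nat_lit 19) (node (nat_lit 4) (nat_lit 0) (nat_lit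
  20) (node (nat_lit 5) (nat_lit 94517) (nat_lit 21) (node (nat_lit 6) (nat_lit 94573) (nat_lit
  22) (node (nat_lit 4) (nat_lit 93860) (nat_lit 23) (node (nat_lit 5) (nat_lit 92459) (nat_lit
  24) (node (nat_lit 4) (nat_lit 88661) (nat_lit 25) (node (nat_lit 6) (nat_lit 85061) (nat_lit
  26) (node (nat_lit 4) (nat_lit 82271) (nat_lit 27) (node (nat_lit 5) (nat_lit 79573) (nat_lit
  28) (node (nat_lit 6) (nat_lit 76599) (nat_lit 29) (node (nat_lit 5) (nat_lit 63353) (nat_lit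
  30) (node (nat_lit 4) (nat_lit 64968) (nat_lit 31) (node (nat_lit 6) (nat_lit 64398) (nat_lit
  32) (node (nat_lit 5) (nat_lit 45946) (nat_lit 33) (node (nat_lit 6) (nat_lit 34251) (nat_lit
  34) (node (nat_lit 4) (nat_lit 34925) (nat_lit 35) nil nil) nil) nil) nil) nil) nil) nil) nil)
  nil) nil) nil) nil) nil) nil) (node (nat_lit 6) (nat_lit 95046) (nat_lit 21) (node (nat_lit 4)
  (nat_lit 95678) (nat_lit 22) nil nil) (node (nat_lit 0) (nat_lit 95635) (nat_lit 21) nil nil)))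
  (node (nat_lit 0) (nat_lit 98445) (nat_lit 20) nil nil)) (node (nat_lit 0) (nat_lit 93919)
  (nat_lit 19) nil nil)) (node (nat_lit 0) (nat_lit 99984) (nat_lit 18) nil nil))) (node (nat_lit
  0) (nat_lit 102364) (nat_lit 17) (node (nat_lit 4) (nat_lit 102364) (nat_lit 18) nil (node
  (nat_lit 6) (nat_lit 102364) (nat_lit 18) nil nil)) nil))) (node (nat_lit 0) (nat_lit 102243)
  (nat_lit 16) (node (nat_lit 5) (nat_lit 102243) (nat_lit 17) nil (node (nat_lit 4) (nat_lit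
  102243) (nat_lit 17) nil (node (nat_lit 6) (nat_lit 102243) (nat_lit 17) nil nil))) nil)) (node
  (nat_lit 0) (nat_lit 102336) (nat_lit 15) (node (nat_lit 6) (nat_lit 102336) (nat_lit 16) (node
  (nat_lit 5) (nat_lit 102336) (nat_lit 17) nil nil) (node (nat_lit 5) (nat_lit 102336) (nat_lit
  16) (node (nat_lit 6) (nat_lit 102336) (nat_lit 17) nil (node (nat_lit 4) (nat_lit 102336)
  (nat_lit 17) nil nil)) (node (nat_lit 4) (nat_lit 102336) (nat_lit 16) (node (nat_lit 6)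
  (nat_lit 102336) (nat_lit 17) nil (node (nat_lit 5) (nat_lit 102336) (nat_lit 17) nil nil))
  nil))) nil)) (node (nat_lit 4) (nat_lit 0) (nat_lit 14) (node (nat_lit 5) (nat_lit 0) (nat_lit
  15) (node (nat_lit 4) (nat_lit 0) (nat_lit 16) (node (nat_lit 6) (nat_lit 0) (nat_lit 17) (node
  (nat_lit 5) (nat_lit 0) (nat_lit 18) (node (nat_lit 4) (nat_lit 0) (nat_lit 19) (node (nat_lit
  5) (nat_lit 0) (nat_lit 20) (node (nat_lit 6) (nat_lit 93295) (nat_lit 21) (node (nat_lit 4)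
  (nat_lit 92273) (nat_lit 22) (node (nat_lit 6) (nat_lit 92238) (nat_lit 23) nil (node (nat_lit
  5) (nat_lit 91268) (nat_lit 23) (node (nat_lit 4) (nat_lit 87928) (nat_lit 24) (node (nat_lit 6)
  (nat_lit 87293) (nat_lit 25) (node (nat_lit 4) (nat_lit 72135) (nat_lit 26) (node (nat_lit 5)
  (nat_lit 71117) (nat_lit 27) (node (nat_lit 6) (nat_lit 71308) (nat_lit 28) (node (nat_lit 5)
  (nat_lit 71409) (nat_lit 29) (node (nat_lit 4) (nat_lit 67962) (nat_lit 30) (node (nat_lit 6)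
  (nat_lit 28029) (nat_lit 31) (node (nat_lit 4) (nat_lit 3893) (nat_lit 32) nil nil) nil) nil)
  nil) nil) nil) nil) nil) nil) nil)) (node (nat_lit 5) (nat_lit 93991) (nat_lit 22) (node
  (nat_lit 4) (nat_lit 94598) (nat_lit 23) nil nil) nil)) (node (nat_lit 0) (nat_lit 94930)
  (nat_lit 21) nil nil)) (node (nat_lit 0) (nat_lit 96748) (nat_lit 20) nil nil)) (node (nat_lit
  6) (nat_lit 0) (nat_lit 19) (node (nat_lit 4) (nat_lit 96517) (nat_lit 20) (node (nat_lit 5)
  (nat_lit 98223) (nat_lit 21) (node (nat_lit 6) (nat_lit 99162) (nat_lit 22) (node (nat_lit 5)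
  (nat_lit 99702) (nat_lit 23) (node (nat_lit 4) (nat_lit 100157) (nat_lit 24) (node (nat_lit 5)
  (nat_lit 100452) (nat_lit 25) (node (nat_lit 6) (nat_lit 100657) (nat_lit 26) (node (nat_lit 4)
  (nat_lit 100595) (nat_lit 27) (node (nat_lit 5) (nat_lit 100528) (nat_lit 28) (node (nat_lit 4)
  (nat_lit 99987) (nat_lit 29) (node (nat_lit 6) (nat_lit 99328) (nat_lit 30) (node (nat_lit 4)
  (nat_lit 93108) (nat_lit 31) (node (nat_lit 5) (nat_lit 89883) (nat_lit 32) (node (nat_lit 6)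
  (nat_lit 87405) (nat_lit 33) (node (nat_lit 5) (nat_lit 86229) (nat_lit 34) (node (nat_lit 4)
  (nat_lit 79695) (nat_lit 35) (node (nat_lit 6) (nat_lit 77767) (nat_lit 36) (node (nat_lit 4)
  (nat_lit 74080) (nat_lit 37) (node (nat_lit 5) (nat_lit 66537) (nat_lit 38) (node (nat_lit 4)
  (nat_lit 70574) (nat_lit 39) (node (nat_lit 6) (nat_lit 55871) (nat_lit 40) (node (nat_lit 5)
  (nat_lit 47432) (nat_lit 41) (node (nat_lit 6) (nat_lit 30355) (nat_lit 42) (node (nat_lit 4)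
  (nat_lit 33220) (nat_lit 43) nil nil) nil) nil) nil) nil) nil) nil) nil) nil) nil) nil) nil)
  nil) nil) nil) nil) nil) nil) nil) nil) nil) (node (nat_lit 4) (nat_lit 0) (nat_lit 22) (node
  (nat_lit 6) (nat_lit 99045) (nat_lit 23) (node (nat_lit 4) (nat_lit 99432) (nat_lit 24) nil nil)
  (node (nat_lit 0) (nat_lit 99933) (nat_lit 23) nil nil)) nil)) (node (nat_lit 6) (nat_lit 98074)
  (nat_lit 21) (node (nat_lit 5) (nat_lit 99055) (nat_lit 22) (node (nat_lit 4) (nat_lit 99445)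
  (nat_lit 23) (node (nat_lit 5) (nat_lit 99617) (nat_lit 24) (node (nat_lit 6) (nat_lit 99489)
  (nat_lit 25) (node (nat_lit 4) (nat_lit 98648) (nat_lit 26) (node (nat_lit 5) (nat_lit 99579)
  (nat_lit 27) (node (nat_lit 4) (nat_lit 98687) (nat_lit 28) (node (nat_lit 6) (nat_lit 97026)
  (nat_lit 29) nil nil) nil) nil) nil) nil) nil) nil) nil) nil)) (node (nat_lit 0) (nat_lit 98256)
  (nat_lit 20) nil nil)) (node (nat_lit 0) (nat_lit 96495) (nat_lit 19) nil nil))) (node (nat_lit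
  0) (nat_lit 99090) (nat_lit 18) nil nil)) (node (nat_lit 0) (nat_lit 99073) (nat_lit 17) nil
  nil)) (node (nat_lit 0) (nat_lit 100917) (nat_lit 16) (node (nat_lit 4) (nat_lit 100917)
  (nat_lit 17) nil (node (nat_lit 5) (nat_lit 100917) (nat_lit 17) nil nil)) nil)) (node (nat_lit
  0) (nat_lit 101873) (nat_lit 15) (node (nat_lit 6) (nat_lit 101873) (nat_lit 16) nil (node
  (nat_lit 4) (nat_lit 101873) (nat_lit 16) nil (node (nat_lit 5) (nat_lit 101873) (nat_lit 16)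
  nil nil))) nil)) (node (nat_lit 0) (nat_lit 100780) (nat_lit 14) (node (nat_lit 4) (nat_lit
  100780) (nat_lit 15) (node (nat_lit 5) (nat_lit 100780) (nat_lit 16) (node (nat_lit 6) (nat_lit
  100780) (nat_lit 17) (node (nat_lit 4) (nat_lit 100780) (nat_lit 18) (node (nat_lit 5) (nat_lit
  100780) (nat_lit 19) (node (nat_lit 4) (nat_lit 100780) (nat_lit 20) (node (nat_lit 6) (nat_lit
  100780) (nat_lit 21) (node (nat_lit 4) (nat_lit 101134) (nat_lit 22) (node (nat_lit 5) (nat_lit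
  101409) (nat_lit 23) (node (nat_lit 6) (nat_lit 101211) (nat_lit 24) (node (nat_lit 5) (nat_lit
  101168) (nat_lit 25) (node (nat_lit 4) (nat_lit 101124) (nat_lit 26) nil nil) nil) nil) nil)
  nil) nil) nil) nil) nil) nil) (node (nat_lit 6) (nat_lit 100780) (nat_lit 16) nil nil)) (node
  (nat_lit 5) (nat_lit 100780) (nat_lit 15) (node (nat_lit 6) (nat_lit 100780) (nat_lit 16) nil
  (node (nat_lit 4) (nat_lit 100780) (nat_lit 16) nil nil)) (node (nat_lit 6) (nat_lit 100780)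
  (nat_lit 15) (node (nat_lit 4) (nat_lit 100780) (nat_lit 16) nil (node (nat_lit 5) (nat_lit
  100780) (nat_lit 16) nil nil)) nil))) nil))) (node (nat_lit 5) (nat_lit 0) (nat_lit 13) (node
  (nat_lit 6) (nat_lit 0) (nat_lit 14) (node (nat_lit 4) (nat_lit 0) (nat_lit 15) (node (nat_lit
  6) (nat_lit 0) (nat_lit 16) (node (nat_lit 5) (nat_lit 0) (nat_lit 17) (node (nat_lit 4)
  (nat_lit 0) (nat_lit 18) (node (nat_lit 6) (nat_lit 0) (nat_lit 19) (node (nat_lit 4) (nat_lit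
  0) (nat_lit 20) (node (nat_lit 5) (nat_lit 80029) (nat_lit 21) (node (nat_lit 6) (nat_lit 80006)
  (nat_lit 22) (node (nat_lit 5) (nat_lit 79693) (nat_lit 23) (node (nat_lit 4) (nat_lit 79655)
  (nat_lit 24) (node (nat_lit 5) (nat_lit 79560) (nat_lit 25) (node (nat_lit 6) (nat_lit 79422)
  (nat_lit 26) (node (nat_lit 4) (nat_lit 79063) (nat_lit 27) (node (nat_lit 5) (nat_lit 79011)
  (nat_lit 28) (node (nat_lit 4) (nat_lit 78459) (nat_lit 29) (node (nat_lit 6) (nat_lit 78064)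
  (nat_lit 30) (node (nat_lit 4) (nat_lit 77621) (nat_lit 31) (node (nat_lit 5) (nat_lit 76194)
  (nat_lit 32) (node (nat_lit 6) (nat_lit 74952) (nat_lit 33) (node (nat_lit 5) (nat_lit 72002)
  (nat_lit 34) (node (nat_lit 4) (nat_lit 67221) (nat_lit 35) (node (nat_lit 5) (nat_lit 61196)
  (nat_lit 36) (node (nat_lit 6) (nat_lit 51965) (nat_lit 37) nil nil) nil) nil) nil) nil) nil)
  nil) nil) nil) nil) nil) nil) nil) nil) nil) (node (nat_lit 4) (nat_lit 80087) (nat_lit 22) nil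
  nil)) (node (nat_lit 0) (nat_lit 80514) (nat_lit 21) nil nil)) (node (nat_lit 0) (nat_lit 81529)
  (nat_lit 20) nil nil)) (node (nat_lit 5) (nat_lit 0) (nat_lit 19) (node (nat_lit 6) (nat_lit 0)
  (nat_lit 20) (node (nat_lit 5) (nat_lit 81083) (nat_lit 21) (node (nat_lit 4) (nat_lit 81485)
  (nat_lit 22) (node (nat_lit 6) (nat_lit 81688) (nat_lit 23) nil nil) nil) (node (nat_lit 0)
  (nat_lit 81109) (nat_lit 21) nil nil)) (node (nat_lit 0) (nat_lit 81008) (nat_lit 20) nil nil))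
  (node (nat_lit 0) (nat_lit 81000) (nat_lit 19) nil nil))) (node (nat_lit 6) (nat_lit 0) (nat_lit
  18) (node (nat_lit 4) (nat_lit 0) (nat_lit 19) (node (nat_lit 5) (nat_lit 0) (nat_lit 20) (node
  (nat_lit 4) (nat_lit 0) (nat_lit 21) (node (nat_lit 6) (nat_lit 81154) (nat_lit 22) (node
  (nat_lit 5) (nat_lit 80929) (nat_lit 23) (node (nat_lit 4) (nat_lit 80464) (nat_lit 24) (node
  (nat_lit 5) (nat_lit 80369) (nat_lit 25) (node (nat_lit 6) (nat_lit 80231) (nat_lit 26) (node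
  (nat_lit 4) (nat_lit 79872) (nat_lit 27) (node (nat_lit 5) (nat_lit 79820) (nat_lit 28) (node
  (nat_lit 4) (nat_lit 79268) (nat_lit 29) (node (nat_lit 6) (nat_lit 78873) (nat_lit 30) (node
  (nat_lit 4) (nat_lit 78430) (nat_lit 31) (node (nat_lit 5) (nat_lit 77003) (nat_lit 32) (node
  (nat_lit 6) (nat_lit 75761) (nat_lit 33) (node (nat_lit 5) (nat_lit 72811) (nat_lit 34) (node
  (nat_lit 4) (nat_lit 69144) (nat_lit 35) (node (nat_lit 5) (nat_lit 62004) (nat_lit 36) (node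
  (nat_lit 6) (nat_lit 51925) (nat_lit 37) (node (nat_lit 4) (nat_lit 45444) (nat_lit 38) (node
  (nat_lit 6) (nat_lit 39476) (nat_lit 39) (node (nat_lit 5) (nat_lit 21091) (nat_lit 40) (node
  (nat_lit 6) (nat_lit 21098) (nat_lit 41) (node (nat_lit 4) (nat_lit 9455) (nat_lit 42) (node
  (nat_lit 5) (nat_lit 1239) (nat_lit 43) nil nil) nil) nil) nil) nil) nil) nil) nil) nil) nil)
  nil) nil) nil) nil) nil) nil) nil) nil) nil) nil) (node (nat_lit 4) (nat_lit 81356) (nat_lit 23)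
  nil nil)) (node (nat_lit 0) (nat_lit 81236) (nat_lit 22) nil nil)) (node (nat_lit 6) (nat_lit
  80172) (nat_lit 21) (node (nat_lit 5) (nat_lit 79878) (nat_lit 22) (node (nat_lit 4) (nat_lit
  79265) (nat_lit 23) nil nil) nil) (node (nat_lit 0) (nat_lit 80741) (nat_lit 21) nil nil)))
  (node (nat_lit 0) (nat_lit 80040) (nat_lit 20) nil nil)) (node (nat_lit 0) (nat_lit 80778)
  (nat_lit 19) nil nil)) (node (nat_lit 0) (nat_lit 80989) (nat_lit 18) nil nil))) (node (nat_lit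
  0) (nat_lit 80780) (nat_lit 17) (node (nat_lit 4) (nat_lit 80780) (nat_lit 18) nil nil) nil))
  (node (nat_lit 5) (nat_lit 0) (nat_lit 16) (node (nat_lit 4) (nat_lit 0) (nat_lit 17) (node
  (nat_lit 6) (nat_lit 0) (nat_lit 18) (node (nat_lit 5) (nat_lit 60855) (nat_lit 19) (node
  (nat_lit 4) (nat_lit 61810) (nat_lit 20) (node (nat_lit 5) (nat_lit 62319) (nat_lit 21) (node
  (nat_lit 6) (nat_lit 62404) (nat_lit 22) (node (nat_lit 4) (nat_lit 59716) (nat_lit 23) (node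
  (nat_lit 5) (nat_lit 54349) (nat_lit 24) nil nil) (node (nat_lit 5) (nat_lit 62422) (nat_lit 23)
  (node (nat_lit 4) (nat_lit 62383) (nat_lit 24) nil nil) nil)) nil) nil) (node (nat_lit 6)
  (nat_lit 61393) (nat_lit 20) (node (nat_lit 4) (nat_lit 61581) (nat_lit 21) (node (nat_lit 6)
  (nat_lit 61443) (nat_lit 22) (node (nat_lit 5) (nat_lit 61412) (nat_lit 23) (node (nat_lit 4)
  (nat_lit 61374) (nat_lit 24) (node (nat_lit 5) (nat_lit 61279) (nat_lit 25) (node (nat_lit 6)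
  (nat_lit 61141) (nat_lit 26) (node (nat_lit 4) (nat_lit 60781) (nat_lit 27) (node (nat_lit 5)
  (nat_lit 60730) (nat_lit 28) (node (nat_lit 4) (nat_lit 60178) (nat_lit 29) (node (nat_lit 6)
  (nat_lit 59783) (nat_lit 30) (node (nat_lit 4) (nat_lit 59340) (nat_lit 31) (node (nat_lit 5)
  (nat_lit 57913) (nat_lit 32) (node (nat_lit 6) (nat_lit 56431) (nat_lit 33) (node (nat_lit 5)
  (nat_lit 53161) (nat_lit 34) (node (nat_lit 4) (nat_lit 48597) (nat_lit 35) (node (nat_lit 5)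
  (nat_lit 42178) (nat_lit 36) (node (nat_lit 6) (nat_lit 34954) (nat_lit 37) (node (nat_lit 4)
  (nat_lit 19855) (nat_lit 38) nil nil) nil) nil) nil) nil) nil) nil) nil) nil) nil) nil) nil)
  nil) nil) nil) nil) (node (nat_lit 5) (nat_lit 61725) (nat_lit 22) nil nil)) nil) nil)) (node
  (nat_lit 4) (nat_lit 60617) (nat_lit 19) nil (node (nat_lit 0) (nat_lit 61382) (nat_lit 19) nil
  nil))) (node (nat_lit 0) (nat_lit 61586) (nat_lit 18) nil nil)) (node (nat_lit 0) (nat_lit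
  78793) (nat_lit 17) nil nil)) (node (nat_lit 0) (nat_lit 79257) (nat_lit 16) (node (nat_lit 4)
  (nat_lit 79257) (nat_lit 17) nil (node (nat_lit 6) (nat_lit 79257) (nat_lit 17) nil nil)) nil)))
  (node (nat_lit 0) (nat_lit 93585) (nat_lit 15) (node (nat_lit 6) (nat_lit 93585) (nat_lit 16)
  nil nil) nil)) (node (nat_lit 0) (nat_lit 98103) (nat_lit 14) (node (nat_lit 5) (nat_lit 98103)
  (nat_lit 15) (node (nat_lit 4) (nat_lit 98103) (nat_lit 16) (node (nat_lit 5) (nat_lit 98103)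
  (nat_lit 17) (node (nat_lit 6) (nat_lit 98103) (nat_lit 18) (node (nat_lit 4) (nat_lit 98103)
  (nat_lit 19) (node (nat_lit 5) (nat_lit 98103) (nat_lit 20) (node (nat_lit 4) (nat_lit 98103)
  (nat_lit 21) (node (nat_lit 6) (nat_lit 98735) (nat_lit 22) (node (nat_lit 4) (nat_lit 99229)
  (nat_lit 23) (node (nat_lit 5) (nat_lit 99322) (nat_lit 24) (node (nat_lit 6) (nat_lit 99593)
  (nat_lit 25) (node (nat_lit 5) (nat_lit 99663) (nat_lit 26) (node (nat_lit 4) (nat_lit 99709)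
  (nat_lit 27) (node (nat_lit 5) (nat_lit 99577) (nat_lit 28) nil nil) nil) nil) nil) nil) nil)
  nil) nil) nil) nil) nil) nil) nil) (node (nat_lit 6) (nat_lit 98103) (nat_lit 15) nil (node
  (nat_lit 4) (nat_lit 98103) (nat_lit 15) (node (nat_lit 5) (nat_lit 98103) (nat_lit 16) (node
  (nat_lit 6) (nat_lit 98103) (nat_lit 17) (node (nat_lit 4) (nat_lit 98103) (nat_lit 18) (node
  (nat_lit 5) (nat_lit 98103) (nat_lit 19) (node (nat_lit 4) (nat_lit 98103) (nat_lit 20) (node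
  (nat_lit 6) (nat_lit 98103) (nat_lit 21) (node (nat_lit 4) (nat_lit 98456) (nat_lit 22) (node
  (nat_lit 5) (nat_lit 98732) (nat_lit 23) (node (nat_lit 6) (nat_lit 98533) (nat_lit 24) (node
  (nat_lit 5) (nat_lit 98490) (nat_lit 25) (node (nat_lit 4) (nat_lit 98446) (nat_lit 26) nil nil)
  nil) nil) nil) nil) nil) nil) nil) nil) nil) nil) nil))) nil)) (node (nat_lit 0) (nat_lit 99574)
  (nat_lit 13) (node (nat_lit 5) (nat_lit 99574) (nat_lit 14) (node (nat_lit 4) (nat_lit 99574)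
  (nat_lit 15) (node (nat_lit 5) (nat_lit 99574) (nat_lit 16) (node (nat_lit 6) (nat_lit 99574)
  (nat_lit 17) (node (nat_lit 4) (nat_lit 99574) (nat_lit 18) (node (nat_lit 5) (nat_lit 99574)
  (nat_lit 19) (node (nat_lit 4) (nat_lit 99574) (nat_lit 20) (node (nat_lit 6) (nat_lit 100385)
  (nat_lit 21) (node (nat_lit 4) (nat_lit 101017) (nat_lit 22) (node (nat_lit 5) (nat_lit 101135)
  (nat_lit 23) (node (nat_lit 6) (nat_lit 101484) (nat_lit 24) (node (nat_lit 5) (nat_lit 101573)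
  (nat_lit 25) (node (nat_lit 4) (nat_lit 101632) (nat_lit 26) nil nil) nil) nil) nil) nil) nil)
  nil) nil) nil) nil) (node (nat_lit 6) (nat_lit 99574) (nat_lit 16) nil nil)) (node (nat_lit 6)
  (nat_lit 99574) (nat_lit 15) nil nil)) (node (nat_lit 4) (nat_lit 99574) (nat_lit 14) (node
  (nat_lit 5) (nat_lit 99574) (nat_lit 15) (node (nat_lit 6) (nat_lit 99574) (nat_lit 16) (node
  (nat_lit 4) (nat_lit 99574) (nat_lit 17) (node (nat_lit 5) (nat_lit 99574) (nat_lit 18) (node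
  (nat_lit 4) (nat_lit 99574) (nat_lit 19) (node (nat_lit 6) (nat_lit 99574) (nat_lit 20) (node
  (nat_lit 4) (nat_lit 100026) (nat_lit 21) (node (nat_lit 5) (nat_lit 100380) (nat_lit 22) (node
  (nat_lit 6) (nat_lit 100126) (nat_lit 23) nil nil) nil) nil) nil) nil) nil) nil) (node (nat_lit
  4) (nat_lit 99574) (nat_lit 16) nil nil)) (node (nat_lit 6) (nat_lit 99574) (nat_lit 15) (node
  (nat_lit 5) (nat_lit 99574) (nat_lit 16) nil nil) nil)) (node (nat_lit 6) (nat_lit 99574)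
  (nat_lit 14) (node (nat_lit 5) (nat_lit 99574) (nat_lit 15) nil (node (nat_lit 4) (nat_lit
  99574) (nat_lit 15) nil nil)) nil))) nil)))

noncomputable def t73 : Tr :=
  (node (nat_lit 5) (nat_lit 0) (nat_lit 11) (node (nat_lit 4) (nat_lit 0) (nat_lit 12) t72 (node
  (nat_lit 0) (nat_lit 97249) (nat_lit 12) (node (nat_lit 6) (nat_lit 97249) (nat_lit 13) (node
  (nat_lit 5) (nat_lit 97249) (nat_lit 14) (node (nat_lit 6) (nat_lit 97249) (nat_lit 15) (node
  (nat_lit 4) (nat_lit 97249) (nat_lit 16) nil nil) (node (nat_lit 4) (nat_lit 97249) (nat_lit 15)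
  (node (nat_lit 5) (nat_lit 97249) (nat_lit 16) (node (nat_lit 6) (nat_lit 97249) (nat_lit 17)
  (node (nat_lit 4) (nat_lit 97249) (nat_lit 18) (node (nat_lit 5) (nat_lit 97249) (nat_lit 19)
  (node (nat_lit 4) (nat_lit 98772) (nat_lit 20) (node (nat_lit 6) (nat_lit 99960) (nat_lit 21)
  nil nil) nil) nil) nil) nil) (node (nat_lit 6) (nat_lit 97249) (nat_lit 16) nil nil)) nil))
  (node (nat_lit 4) (nat_lit 97249) (nat_lit 14) nil nil)) (node (nat_lit 4) (nat_lit 97249)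
  (nat_lit 13) (node (nat_lit 5) (nat_lit 97249) (nat_lit 14) (node (nat_lit 6) (nat_lit 97249)
  (nat_lit 15) (node (nat_lit 4) (nat_lit 97249) (nat_lit 16) (node (nat_lit 5) (nat_lit 97249)
  (nat_lit 17) (node (nat_lit 4) (nat_lit 97249) (nat_lit 18) (node (nat_lit 6) (nat_lit 97249)
  (nat_lit 19) (node (nat_lit 4) (nat_lit 97829) (nat_lit 20) (node (nat_lit 5) (nat_lit 98281)
  (nat_lit 21) (node (nat_lit 6) (nat_lit 97957) (nat_lit 22) (node (nat_lit 5) (nat_lit 97886)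
  (nat_lit 23) nil nil) nil) nil) nil) nil) nil) nil) nil) (node (nat_lit 4) (nat_lit 97249)
  (nat_lit 15) nil nil)) (node (nat_lit 15) (nat_lit 99098) (nat_lit 14) (node (nat_lit 5)
  (nat_lit 99098) (nat_lit 15) (node (nat_lit 4) (nat_lit 99098) (nat_lit 16) (node (nat_lit 5)
  (nat_lit 99098) (nat_lit 17) (node (nat_lit 6) (nat_lit 99098) (nat_lit 18) (node (nat_lit 4)
  (nat_lit 99098) (nat_lit 19) (node (nat_lit 5) (nat_lit 99098) (nat_lit 20) (node (nat_lit 4)
  (nat_lit 99098) (nat_lit 21) (node (nat_lit 6) (nat_lit 99731) (nat_lit 22) (node (nat_lit 4)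
  (nat_lit 100225) (nat_lit 23) (node (nat_lit 5) (nat_lit 100317) (nat_lit 24) nil nil) nil) nil)
  nil) nil) nil) nil) nil) nil) nil) (node (nat_lit 6) (nat_lit 97249) (nat_lit 14) (node (nat_lit
  5) (nat_lit 97249) (nat_lit 15) nil nil) nil))) (node (nat_lit 5) (nat_lit 97249) (nat_lit 13)
  (node (nat_lit 4) (nat_lit 97249) (nat_lit 14) (node (nat_lit 5) (nat_lit 97249) (nat_lit 15)
  (node (nat_lit 6) (nat_lit 97249) (nat_lit 16) (node (nat_lit 4) (nat_lit 97249) (nat_lit 17)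
  (node (nat_lit 5) (nat_lit 97249) (nat_lit 18) (node (nat_lit 4) (nat_lit 97249) (nat_lit 19)
  (node (nat_lit 6) (nat_lit 98287) (nat_lit 20) (node (nat_lit 4) (nat_lit 99098) (nat_lit 21)
  (node (nat_lit 5) (nat_lit 99250) (nat_lit 22) (node (nat_lit 6) (nat_lit 99696) (nat_lit 23)
  (node (nat_lit 5) (nat_lit 99811) (nat_lit 24) nil nil) nil) nil) nil) nil) nil) nil) nil) nil)
  (node (nat_lit 6) (nat_lit 97249) (nat_lit 15) nil nil)) (node (nat_lit 6) (nat_lit 97249)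
  (nat_lit 14) (node (nat_lit 4) (nat_lit 97249) (nat_lit 15) nil (node (nat_lit 5) (nat_lit
  97249) (nat_lit 15) nil nil)) nil)) nil))) nil)) (node (nat_lit 4) (nat_lit 0) (nat_lit 11)
  (node (nat_lit 6) (nat_lit 0) (nat_lit 12) (node (nat_lit 5) (nat_lit 0) (nat_lit 13) (node
  (nat_lit 4) (nat_lit 0) (nat_lit 14) (node (nat_lit 6) (nat_lit 0) (nat_lit 15) (node (nat_lit
  4) (nat_lit 0) (nat_lit 16) (node (nat_lit 5) (nat_lit 0) (nat_lit 17) (node (nat_lit 6)
  (nat_lit 0) (nat_lit 18) (node (nat_lit 5) (nat_lit 0) (nat_lit 19) (node (nat_lit 4) (nat_lit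
  97087) (nat_lit 20) (node (nat_lit 5) (nat_lit 97576) (nat_lit 21) (node (nat_lit 6) (nat_lit
  97061) (nat_lit 22) (node (nat_lit 4) (nat_lit 95341) (nat_lit 23) (node (nat_lit 5) (nat_lit
  96191) (nat_lit 24) (node (nat_lit 4) (nat_lit 92393) (nat_lit 25) (node (nat_lit 6) (nat_lit
  89197) (nat_lit 26) (node (nat_lit 4) (nat_lit 83182) (nat_lit 27) (node (nat_lit 5) (nat_lit
  88150) (nat_lit 28) (node (nat_lit 6) (nat_lit 76464) (nat_lit 29) (node (nat_lit 4) (nat_lit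
  66855) (nat_lit 30) (node (nat_lit 6) (nat_lit 63643) (nat_lit 31) (node (nat_lit 5) (nat_lit
  67332) (nat_lit 32) (node (nat_lit 4) (nat_lit 49975) (nat_lit 33) nil nil) nil) nil) nil) nil)
  nil) nil) nil) nil) nil) nil) nil) (node (nat_lit 6) (nat_lit 98507) (nat_lit 21) (node (nat_lit
  5) (nat_lit 98860) (nat_lit 22) nil nil) nil)) (node (nat_lit 0) (nat_lit 99476) (nat_lit 20)
  nil nil)) (node (nat_lit 4) (nat_lit 0) (nat_lit 19) (node (nat_lit 0) (nat_lit 97179) (nat_lit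
  20) nil nil) (node (nat_lit 0) (nat_lit 100093) (nat_lit 19) nil nil))) (node (nat_lit 4)
  (nat_lit 0) (nat_lit 18) (node (nat_lit 6) (nat_lit 0) (nat_lit 19) (node (nat_lit 5) (nat_lit
  97488) (nat_lit 20) (node (nat_lit 4) (nat_lit 97636) (nat_lit 21) (node (nat_lit 5) (nat_lit
  98149) (nat_lit 22) (node (nat_lit 6) (nat_lit 98352) (nat_lit 23) (node (nat_lit 4) (nat_lit
  97227) (nat_lit 24) (node (nat_lit 5) (nat_lit 96647) (nat_lit 25) (node (nat_lit 4) (nat_lit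
  94671) (nat_lit 26) (node (nat_lit 6) (nat_lit 92678) (nat_lit 27) (node (nat_lit 4) (nat_lit
  88034) (nat_lit 28) (node (nat_lit 5) (nat_lit 92812) (nat_lit 29) (node (nat_lit 6) (nat_lit
  85569) (nat_lit 30) (node (nat_lit 4) (nat_lit 72563) (nat_lit 31) (node (nat_lit 6) (nat_lit
  67521) (nat_lit 32) (node (nat_lit 5) (nat_lit 72670) (nat_lit 33) (node (nat_lit 4) (nat_lit
  60838) (nat_lit 34) (node (nat_lit 6) (nat_lit 42534) (nat_lit 35) (node (nat_lit 4) (nat_lit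
  37469) (nat_lit 36) (node (nat_lit 5) (nat_lit 27610) (nat_lit 37) nil nil) nil) nil) nil) nil)
  nil) nil) nil) nil) nil) nil) nil) nil) nil) nil) nil) (node (nat_lit 6) (nat_lit 98608)
  (nat_lit 21) (node (nat_lit 4) (nat_lit 98802) (nat_lit 22) (node (nat_lit 5) (nat_lit 98920)
  (nat_lit 23) nil nil) nil) nil)) (node (nat_lit 0) (nat_lit 98375) (nat_lit 20) nil nil)) (node
  (nat_lit 0) (nat_lit 98264) (nat_lit 19) nil nil)) (node (nat_lit 0) (nat_lit 100819) (nat_lit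
  18) nil nil))) (node (nat_lit 0) (nat_lit 100915) (nat_lit 17) nil nil)) (node (nat_lit 0)
  (nat_lit 99318) (nat_lit 16) nil nil)) (node (nat_lit 5) (nat_lit 0) (nat_lit 15) (node (nat_lit
  6) (nat_lit 0) (nat_lit 16) (node (nat_lit 5) (nat_lit 0) (nat_lit 17) (node (nat_lit 4)
  (nat_lit 0) (nat_lit 18) (node (nat_lit 6) (nat_lit 0) (nat_lit 19) (node (nat_lit 4) (nat_lit
  97574) (nat_lit 20) (node (nat_lit 5) (nat_lit 98622) (nat_lit 21) (node (nat_lit 6) (nat_lit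
  99340) (nat_lit 22) (node (nat_lit 5) (nat_lit 99880) (nat_lit 23) (node (nat_lit 4) (nat_lit
  100336) (nat_lit 24) (node (nat_lit 5) (nat_lit 100631) (nat_lit 25) (node (nat_lit 6) (nat_lit
  100835) (nat_lit 26) (node (nat_lit 4) (nat_lit 100774) (nat_lit 27) (node (nat_lit 5) (nat_lit
  100692) (nat_lit 28) (node (nat_lit 4) (nat_lit 99320) (nat_lit 29) (node (nat_lit 6) (nat_lit
  98163) (nat_lit 30) nil nil) nil) nil) nil) nil) nil) nil) nil) nil) nil) (node (nat_lit 5)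
  (nat_lit 97210) (nat_lit 20) (node (nat_lit 6) (nat_lit 98021) (nat_lit 21) (node (nat_lit 4)
  (nat_lit 98375) (nat_lit 22) nil nil) nil) (node (nat_lit 0) (nat_lit 97922) (nat_lit 20) nil
  nil))) (node (nat_lit 0) (nat_lit 95969) (nat_lit 19) nil nil)) (node (nat_lit 0) (nat_lit
  99185) (nat_lit 18) nil nil)) (node (nat_lit 4) (nat_lit 0) (nat_lit 17) (node (nat_lit 5)
  (nat_lit 0) (nat_lit 18) (node (nat_lit 4) (nat_lit 0) (nat_lit 19) (node (nat_lit 6) (nat_lit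
  88004) (nat_lit 20) (node (nat_lit 4) (nat_lit 68776) (nat_lit 21) (node (nat_lit 5) (nat_lit
  41967) (nat_lit 22) (node (nat_lit 6) (nat_lit 42482) (nat_lit 23) (node (nat_lit 5) (nat_lit
  42784) (nat_lit 24) (node (nat_lit 4) (nat_lit 41927) (nat_lit 25) nil nil) nil) nil) nil) (node
  (nat_lit 5) (nat_lit 88656) (nat_lit 21) (node (nat_lit 4) (nat_lit 89039) (nat_lit 22) (node
  (nat_lit 5) (nat_lit 89092) (nat_lit 23) (node (nat_lit 6) (nat_lit 89400) (nat_lit 24) (node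
  (nat_lit 4) (nat_lit 88314) (nat_lit 25) nil nil) nil) nil) (node (nat_lit 6) (nat_lit 89289)
  (nat_lit 22) nil nil)) nil)) (node (nat_lit 0) (nat_lit 88189) (nat_lit 20) nil nil)) (node
  (nat_lit 0) (nat_lit 91658) (nat_lit 19) nil nil)) (node (nat_lit 6) (nat_lit 0) (nat_lit 18)
  (node (nat_lit 0) (nat_lit 90658) (nat_lit 19) nil nil) (node (nat_lit 0) (nat_lit 92593)
  (nat_lit 18) nil nil))) (node (nat_lit 0) (nat_lit 98885) (nat_lit 17) nil nil))) (node (nat_lit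
  0) (nat_lit 100515) (nat_lit 16) nil nil)) (node (nat_lit 0) (nat_lit 102109) (nat_lit 15) nil
  nil))) (node (nat_lit 6) (nat_lit 0) (nat_lit 14) (node (nat_lit 4) (nat_lit 0) (nat_lit 15)
  (node (nat_lit 5) (nat_lit 0) (nat_lit 16) (node (nat_lit 6) (nat_lit 0) (nat_lit 17) (node
  (nat_lit 5) (nat_lit 0) (nat_lit 18) (node (nat_lit 4) (nat_lit 97486) (nat_lit 19) (node
  (nat_lit 6) (nat_lit 99280) (nat_lit 20) (node (nat_lit 4) (nat_lit 100146) (nat_lit 21) (node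
  (nat_lit 5) (nat_lit 100297) (nat_lit 22) nil nil) (node (nat_lit 5) (nat_lit 100469) (nat_lit
  21) (node (nat_lit 6) (nat_lit 101102) (nat_lit 22) (node (nat_lit 4) (nat_lit 101377) (nat_lit
  23) nil nil) nil) nil)) (node (nat_lit 5) (nat_lit 96070) (nat_lit 20) (node (nat_lit 6)
  (nat_lit 97611) (nat_lit 21) (node (nat_lit 4) (nat_lit 96016) (nat_lit 22) (node (nat_lit 6)
  (nat_lit 95763) (nat_lit 23) nil (node (nat_lit 5) (nat_lit 96315) (nat_lit 23) (node (nat_lit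
  4) (nat_lit 91277) (nat_lit 24) (node (nat_lit 6) (nat_lit 91942) (nat_lit 25) (node (nat_lit 4)
  (nat_lit 77068) (nat_lit 26) (node (nat_lit 5) (nat_lit 78999) (nat_lit 27) (node (nat_lit 6)
  (nat_lit 67253) (nat_lit 28) (node (nat_lit 4) (nat_lit 75867) (nat_lit 29) (node (nat_lit 6)
  (nat_lit 61338) (nat_lit 30) (node (nat_lit 5) (nat_lit 49832) (nat_lit 31) nil nil) nil) nil)
  nil) nil) nil) nil) nil) nil)) nil) nil) nil)) (node (nat_lit 0) (nat_lit 99618) (nat_lit 19)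
  nil nil)) (node (nat_lit 0) (nat_lit 101476) (nat_lit 18) nil nil)) (node (nat_lit 4) (nat_lit
  0) (nat_lit 17) (node (nat_lit 6) (nat_lit 0) (nat_lit 18) (node (nat_lit 5) (nat_lit 0)
  (nat_lit 19) (node (nat_lit 4) (nat_lit 98414) (nat_lit 20) (node (nat_lit 5) (nat_lit 98695)
  (nat_lit 21) (node (nat_lit 6) (nat_lit 99319) (nat_lit 22) (node (nat_lit 4) (nat_lit 98881)
  (nat_lit 23) (node (nat_lit 5) (nat_lit 97001) (nat_lit 24) (node (nat_lit 4) (nat_lit 94147)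
  (nat_lit 25) (node (nat_lit 6) (nat_lit 89418) (nat_lit 26) (node (nat_lit 4) (nat_lit 88479)
  (nat_lit 27) (node (nat_lit 5) (nat_lit 89890) (nat_lit 28) (node (nat_lit 6) (nat_lit 78882)
  (nat_lit 29) (node (nat_lit 4) (nat_lit 73354) (nat_lit 30) (node (nat_lit 6) (nat_lit 67376)
  (nat_lit 31) (node (nat_lit 5) (nat_lit 60727) (nat_lit 32) (node (nat_lit 6) (nat_lit 41536)
  (nat_lit 33) (node (nat_lit 4) (nat_lit 37364) (nat_lit 34) (node (nat_lit 5) (nat_lit 29153)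
  (nat_lit 35) nil nil) nil) nil) nil) nil) nil) nil) nil) nil) nil) nil) nil) (node (nat_lit 5)
  (nat_lit 98789) (nat_lit 23) nil nil)) nil) nil) (node (nat_lit 6) (nat_lit 99339) (nat_lit 20)
  (node (nat_lit 4) (nat_lit 100363) (nat_lit 21) (node (nat_lit 6) (nat_lit 101603) (nat_lit 22)
  (node (nat_lit 5) (nat_lit 102304) (nat_lit 23) (node (nat_lit 4) (nat_lit 102533) (nat_lit 24)
  (node (nat_lit 5) (nat_lit 102638) (nat_lit 25) (node (nat_lit 6) (nat_lit 102842) (nat_lit 26)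
  (node (nat_lit 4) (nat_lit 102290) (nat_lit 27) (node (nat_lit 5) (nat_lit 102027) (nat_lit 28)
  (node (nat_lit 4) (nat_lit 101590) (nat_lit 29) (node (nat_lit 6) (nat_lit 101030) (nat_lit 30)
  (node (nat_lit 4) (nat_lit 99255) (nat_lit 31) (node (nat_lit 5) (nat_lit 97601) (nat_lit 32)
  (node (nat_lit 6) (nat_lit 93471) (nat_lit 33) (node (nat_lit 4) (nat_lit 93006) (nat_lit 34)
  (node (nat_lit 6) (nat_lit 91584) (nat_lit 35) (node (nat_lit 5) (nat_lit 87958) (nat_lit 36)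
  nil nil) nil) nil) nil) nil) nil) nil) nil) nil) nil) nil) nil) nil) nil) nil) nil) (node
  (nat_lit 0) (nat_lit 99539) (nat_lit 20) nil nil))) (node (nat_lit 4) (nat_lit 97407) (nat_lit
  19) (node (nat_lit 5) (nat_lit 98760) (nat_lit 20) (node (nat_lit 6) (nat_lit 99862) (nat_lit
  21) (node (nat_lit 5) (nat_lit 100886) (nat_lit 22) (node (nat_lit 4) (nat_lit 101603) (nat_lit
  23) (node (nat_lit 5) (nat_lit 102037) (nat_lit 24) (node (nat_lit 6) (nat_lit 102055) (nat_lit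
  25) (node (nat_lit 4) (nat_lit 101711) (nat_lit 26) (node (nat_lit 5) (nat_lit 100762) (nat_lit
  27) (node (nat_lit 4) (nat_lit 99379) (nat_lit 28) (node (nat_lit 6) (nat_lit 98576) (nat_lit
  29) nil nil) nil) nil) nil) nil) nil) nil) nil) nil) nil) (node (nat_lit 0) (nat_lit 100155)
  (nat_lit 19) nil nil))) (node (nat_lit 0) (nat_lit 101050) (nat_lit 18) nil nil)) (node (nat_lit
  0) (nat_lit 102403) (nat_lit 17) nil nil))) (node (nat_lit 0) (nat_lit 103225) (nat_lit 16) nil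
  nil)) (node (nat_lit 0) (nat_lit 103762) (nat_lit 15) (node (nat_lit 5) (nat_lit 103762)
  (nat_lit 16) nil nil) nil)) (node (nat_lit 0) (nat_lit 103753) (nat_lit 14) (node (nat_lit 6)
  (nat_lit 103753) (nat_lit 15) nil (node (nat_lit 5) (nat_lit 103753) (nat_lit 15) nil (node
  (nat_lit 4) (nat_lit 103753) (nat_lit 15) nil nil))) nil))) (node (nat_lit 0) (nat_lit 104808)
  (nat_lit 13) (node (nat_lit 4) (nat_lit 104808) (nat_lit 14) (node (nat_lit 6) (nat_lit 104808)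
  (nat_lit 15) (node (nat_lit 4) (nat_lit 104808) (nat_lit 16) nil nil) (node (nat_lit 5) (nat_lit
  104808) (nat_lit 15) (node (nat_lit 6) (nat_lit 104808) (nat_lit 16) (node (nat_lit 4) (nat_lit
  104808) (nat_lit 17) (node (nat_lit 5) (nat_lit 104808) (nat_lit 18) (node (nat_lit 4) (nat_lit
  104808) (nat_lit 19) (node (nat_lit 6) (nat_lit 104808) (nat_lit 20) (node (nat_lit 4) (nat_lit
  104808) (nat_lit 21) (node (nat_lit 5) (nat_lit 104808) (nat_lit 22) (node (nat_lit 6) (nat_lit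
  104808) (nat_lit 23) nil nil) nil) nil) nil) nil) nil) nil) nil) nil)) (node (nat_lit 5)
  (nat_lit 104808) (nat_lit 14) (node (nat_lit 6) (nat_lit 104808) (nat_lit 15) nil nil) (node
  (nat_lit 6) (nat_lit 104808) (nat_lit 14) (node (nat_lit 4) (nat_lit 104808) (nat_lit 15) nil
  (node (nat_lit 5) (nat_lit 104808) (nat_lit 15) nil nil)) nil))) nil)) (node (nat_lit 0)
  (nat_lit 104203) (nat_lit 12) (node (nat_lit 6) (nat_lit 104203) (nat_lit 13) (node (nat_lit 4)
  (nat_lit 104203) (nat_lit 14) (node (nat_lit 6) (nat_lit 104203) (nat_lit 15) nil (node (nat_lit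
  5) (nat_lit 104203) (nat_lit 15) nil nil)) (node (nat_lit 5) (nat_lit 104203) (nat_lit 14) (node
  (nat_lit 4) (nat_lit 104203) (nat_lit 15) nil nil) nil)) (node (nat_lit 4) (nat_lit 104203)
  (nat_lit 13) (node (nat_lit 6) (nat_lit 104203) (nat_lit 14) (node (nat_lit 5) (nat_lit 104203)
  (nat_lit 15) nil (node (nat_lit 4) (nat_lit 104203) (nat_lit 15) nil nil)) (node (nat_lit 5)
  (nat_lit 104203) (nat_lit 14) (node (nat_lit 6) (nat_lit 104203) (nat_lit 15) (node (nat_lit 4)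
  (nat_lit 104203) (nat_lit 16) (node (nat_lit 5) (nat_lit 104203) (nat_lit 17) (node (nat_lit 4)
  (nat_lit 104203) (nat_lit 18) (node (nat_lit 6) (nat_lit 104203) (nat_lit 19) (node (nat_lit 4)
  (nat_lit 104783) (nat_lit 20) (node (nat_lit 5) (nat_lit 104808) (nat_lit 21) (node (nat_lit 6)
  (nat_lit 104808) (nat_lit 22) nil nil) nil) nil) nil) nil) nil) nil) (node (nat_lit 4) (nat_lit
  104203) (nat_lit 15) nil nil)) nil)) (node (nat_lit 5) (nat_lit 104203) (nat_lit 13) (node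
  (nat_lit 6) (nat_lit 104203) (nat_lit 14) nil (node (nat_lit 4) (nat_lit 104203) (nat_lit 14)
  nil nil)) nil))) nil)) (node (nat_lit 0) (nat_lit 102163) (nat_lit 11) (node (nat_lit 6)
  (nat_lit 102163) (nat_lit 12) (node (nat_lit 5) (nat_lit 102163) (nat_lit 13) (node (nat_lit 4)
  (nat_lit 102163) (nat_lit 14) (node (nat_lit 5) (nat_lit 102163) (nat_lit 15) (node (nat_lit 6)
  (nat_lit 102163) (nat_lit 16) (node (nat_lit 4) (nat_lit 102163) (nat_lit 17) (node (nat_lit 5)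
  (nat_lit 102163) (nat_lit 18) (node (nat_lit 4) (nat_lit 104115) (nat_lit 19) (node (nat_lit 6)
  (nat_lit 104808) (nat_lit 20) nil nil) nil) nil) nil) nil) nil) (node (nat_lit 6) (nat_lit
  102163) (nat_lit 14) nil nil)) (node (nat_lit 4) (nat_lit 102163) (nat_lit 13) (node (nat_lit 6)
  (nat_lit 102163) (nat_lit 14) nil (node (nat_lit 5) (nat_lit 102163) (nat_lit 14) nil nil))
  nil)) (node (nat_lit 5) (nat_lit 102163) (nat_lit 12) (node (nat_lit 4) (nat_lit 102163)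
  (nat_lit 13) (node (nat_lit 5) (nat_lit 102163) (nat_lit 14) (node (nat_lit 6) (nat_lit 102163)
  (nat_lit 15) (node (nat_lit 4) (nat_lit 102163) (nat_lit 16) (node (nat_lit 5) (nat_lit 102163)
  (nat_lit 17) (node (nat_lit 4) (nat_lit 102163) (nat_lit 18) (node (nat_lit 6) (nat_lit 103494)
  (nat_lit 19) (node (nat_lit 4) (nat_lit 104533) (nat_lit 20) (node (nat_lit 5) (nat_lit 104727)
  (nat_lit 21) (node (nat_lit 6) (nat_lit 104808) (nat_lit 22) nil nil) nil) nil) nil) nil) nil)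
  nil) nil) (node (nat_lit 6) (nat_lit 102163) (nat_lit 14) nil nil)) (node (nat_lit 6) (nat_lit
  102163) (nat_lit 13) (node (nat_lit 5) (nat_lit 102163) (nat_lit 14) nil nil) nil)) (node
  (nat_lit 4) (nat_lit 102163) (nat_lit 12) (node (nat_lit 5) (nat_lit 102163) (nat_lit 13) (node
  (nat_lit 6) (nat_lit 102163) (nat_lit 14) (node (nat_lit 4) (nat_lit 102163) (nat_lit 15) (node
  (nat_lit 5) (nat_lit 102163) (nat_lit 16) (node (nat_lit 4) (nat_lit 102163) (nat_lit 17) (node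
  (nat_lit 6) (nat_lit 102163) (nat_lit 18) (node (nat_lit 4) (nat_lit 102906) (nat_lit 19) (node
  (nat_lit 5) (nat_lit 103486) (nat_lit 20) (node (nat_lit 6) (nat_lit 103072) (nat_lit 21) nil
  nil) nil) nil) nil) nil) nil) nil) (node (nat_lit 4) (nat_lit 102163) (nat_lit 14) nil nil))
  (node (nat_lit 6) (nat_lit 102163) (nat_lit 13) (node (nat_lit 5) (nat_lit 102163) (nat_lit 14)
  nil (node (nat_lit 4) (nat_lit 102163) (nat_lit 14) nil nil)) nil)) (node (nat_lit 0) (nat_lit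
  102906) (nat_lit 12) nil nil)))) nil)))

noncomputable def t74 : Tr :=
  (node (nat_lit 5) (nat_lit 0) (nat_lit 8) (node (nat_lit 6) (nat_lit 0) (nat_lit 9) t70 (node
  (nat_lit 4) (nat_lit 0) (nat_lit 9) (node (nat_lit 5) (nat_lit 0) (nat_lit 10) (node (nat_lit 6)
  (nat_lit 0) (nat_lit 11) t71 (node (nat_lit 0) (nat_lit 76645) (nat_lit 11) (node (nat_lit 5)
  (nat_lit 76673) (nat_lit 12) (node (nat_lit 4) (nat_lit 77060) (nat_lit 13) (node (nat_lit 6)
  (nat_lit 77060) (nat_lit 14) (node (nat_lit 5) (nat_lit 77060) (nat_lit 15) nil (node (nat_lit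
  4) (nat_lit 77060) (nat_lit 15) nil nil)) (node (nat_lit 5) (nat_lit 77060) (nat_lit 14) (node
  (nat_lit 6) (nat_lit 77060) (nat_lit 15) (node (nat_lit 4) (nat_lit 77060) (nat_lit 16) (node
  (nat_lit 5) (nat_lit 77060) (nat_lit 17) (node (nat_lit 4) (nat_lit 77453) (nat_lit 18) (node
  (nat_lit 6) (nat_lit 77143) (nat_lit 19) (node (nat_lit 5) (nat_lit 77050) (nat_lit 20) nil nil)
  nil) nil) nil) nil) nil) nil)) (node (nat_lit 6) (nat_lit 76930) (nat_lit 13) (node (nat_lit 4)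
  (nat_lit 77119) (nat_lit 14) (node (nat_lit 5) (nat_lit 77119) (nat_lit 15) (node (nat_lit 4)
  (nat_lit 77119) (nat_lit 16) nil nil) (node (nat_lit 6) (nat_lit 77119) (nat_lit 15) nil nil))
  (node (nat_lit 5) (nat_lit 76930) (nat_lit 14) nil nil)) (node (nat_lit 0) (nat_lit 77372)
  (nat_lit 13) nil nil))) (node (nat_lit 4) (nat_lit 76669) (nat_lit 12) (node (nat_lit 6)
  (nat_lit 76669) (nat_lit 13) (node (nat_lit 5) (nat_lit 76669) (nat_lit 14) (node (nat_lit 6)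
  (nat_lit 76669) (nat_lit 15) nil (node (nat_lit 4) (nat_lit 76669) (nat_lit 15) nil nil)) (node
  (nat_lit 4) (nat_lit 76669) (nat_lit 14) (node (nat_lit 5) (nat_lit 76669) (nat_lit 15) nil nil)
  nil)) (node (nat_lit 5) (nat_lit 77008) (nat_lit 13) (node (nat_lit 6) (nat_lit 77397) (nat_lit
  14) (node (nat_lit 4) (nat_lit 77586) (nat_lit 15) (node (nat_lit 5) (nat_lit 77586) (nat_lit
  16) (node (nat_lit 4) (nat_lit 77586) (nat_lit 17) (node (nat_lit 6) (nat_lit 77175) (nat_lit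
  18) (node (nat_lit 5) (nat_lit 77063) (nat_lit 19) (node (nat_lit 4) (nat_lit 76999) (nat_lit
  20) nil nil) nil) nil) nil) nil) nil) (node (nat_lit 4) (nat_lit 77164) (nat_lit 14) (node
  (nat_lit 6) (nat_lit 77172) (nat_lit 15) (node (nat_lit 5) (nat_lit 77172) (nat_lit 16) nil
  (node (nat_lit 4) (nat_lit 77172) (nat_lit 16) nil nil)) nil) nil)) (node (nat_lit 14) (nat_lit
  78079) (nat_lit 13) (node (nat_lit 5) (nat_lit 78079) (nat_lit 14) (node (nat_lit 4) (nat_lit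
  78079) (nat_lit 15) (node (nat_lit 5) (nat_lit 78079) (nat_lit 16) (node (nat_lit 6) (nat_lit
  78079) (nat_lit 17) (node (nat_lit 4) (nat_lit 78079) (nat_lit 18) (node (nat_lit 5) (nat_lit
  78079) (nat_lit 19) (node (nat_lit 4) (nat_lit 78318) (nat_lit 20) (node (nat_lit 6) (nat_lit
  78143) (nat_lit 21) nil nil) nil) nil) nil) nil) nil) nil) nil) nil))) (node (nat_lit 6)
  (nat_lit 76673) (nat_lit 12) (node (nat_lit 5) (nat_lit 76673) (nat_lit 13) (node (nat_lit 6)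
  (nat_lit 76673) (nat_lit 14) (node (nat_lit 4) (nat_lit 76673) (nat_lit 15) (node (nat_lit 5)
  (nat_lit 76673) (nat_lit 16) nil nil) nil) (node (nat_lit 4) (nat_lit 76673) (nat_lit 14) (node
  (nat_lit 5) (nat_lit 76673) (nat_lit 15) (node (nat_lit 6) (nat_lit 76673) (nat_lit 16) (node
  (nat_lit 4) (nat_lit 76673) (nat_lit 17) (node (nat_lit 5) (nat_lit 77066) (nat_lit 18) (node
  (nat_lit 4) (nat_lit 77372) (nat_lit 19) nil nil) nil) nil) nil) nil) nil)) (node (nat_lit 4)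
  (nat_lit 76673) (nat_lit 13) (node (nat_lit 6) (nat_lit 76673) (nat_lit 14) (node (nat_lit 5)
  (nat_lit 76673) (nat_lit 15) nil nil) (node (nat_lit 5) (nat_lit 76673) (nat_lit 14) (node
  (nat_lit 6) (nat_lit 76673) (nat_lit 15) nil nil) nil)) nil)) (node (nat_lit 0) (nat_lit 77438)
  (nat_lit 12) nil nil)))) nil)) (node (nat_lit 0) (nat_lit 0) (nat_lit 10) (node (nat_lit 5)
  (nat_lit 81359) (nat_lit 11) (node (nat_lit 4) (nat_lit 82332) (nat_lit 12) (node (nat_lit 6)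
  (nat_lit 82191) (nat_lit 13) (node (nat_lit 5) (nat_lit 82191) (nat_lit 14) nil (node (nat_lit
  4) (nat_lit 82191) (nat_lit 14) (node (nat_lit 5) (nat_lit 82191) (nat_lit 15) nil nil) nil))
  (node (nat_lit 5) (nat_lit 82995) (nat_lit 13) (node (nat_lit 6) (nat_lit 83844) (nat_lit 14)
  (node (nat_lit 4) (nat_lit 83844) (nat_lit 15) (node (nat_lit 5) (nat_lit 83844) (nat_lit 16)
  (node (nat_lit 4) (nat_lit 84346) (nat_lit 17) (node (nat_lit 6) (nat_lit 83935) (nat_lit 18)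
  (node (nat_lit 5) (nat_lit 83823) (nat_lit 19) nil nil) nil) nil) nil) (node (nat_lit 5)
  (nat_lit 83844) (nat_lit 15) nil nil)) nil) nil)) (node (nat_lit 6) (nat_lit 82059) (nat_lit 12)
  (node (nat_lit 4) (nat_lit 82059) (nat_lit 13) (node (nat_lit 5) (nat_lit 82059) (nat_lit 14)
  nil (node (nat_lit 6) (nat_lit 82059) (nat_lit 14) (node (nat_lit 5) (nat_lit 82059) (nat_lit
  15) nil nil) nil)) (node (nat_lit 5) (nat_lit 82059) (nat_lit 13) (node (nat_lit 4) (nat_lit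
  82059) (nat_lit 14) (node (nat_lit 5) (nat_lit 82059) (nat_lit 15) (node (nat_lit 6) (nat_lit
  82059) (nat_lit 16) (node (nat_lit 4) (nat_lit 82562) (nat_lit 17) (node (nat_lit 5) (nat_lit
  82955) (nat_lit 18) (node (nat_lit 4) (nat_lit 83261) (nat_lit 19) (node (nat_lit 6) (nat_lit
  83030) (nat_lit 20) (node (nat_lit 5) (nat_lit 82961) (nat_lit 21) (node (nat_lit 4) (nat_lit
  83009) (nat_lit 22) nil nil) nil) nil) nil) nil) nil) nil) nil) nil) nil)) (node (nat_lit 13)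
  (nat_lit 84393) (nat_lit 12) nil nil))) (node (nat_lit 6) (nat_lit 81395) (nat_lit 11) (node
  (nat_lit 5) (nat_lit 82041) (nat_lit 12) (node (nat_lit 4) (nat_lit 81859) (nat_lit 13) (node
  (nat_lit 6) (nat_lit 82160) (nat_lit 14) (node (nat_lit 5) (nat_lit 82160) (nat_lit 15) nil nil)
  (node (nat_lit 5) (nat_lit 81859) (nat_lit 14) (node (nat_lit 6) (nat_lit 81859) (nat_lit 15)
  (node (nat_lit 4) (nat_lit 81859) (nat_lit 16) (node (nat_lit 5) (nat_lit 82361) (nat_lit 17)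
  (node (nat_lit 4) (nat_lit 82754) (nat_lit 18) (node (nat_lit 6) (nat_lit 82444) (nat_lit 19)
  (node (nat_lit 5) (nat_lit 82351) (nat_lit 20) (node (nat_lit 4) (nat_lit 82460) (nat_lit 21)
  nil nil) nil) nil) nil) nil) nil) nil) nil)) (node (nat_lit 6) (nat_lit 82343) (nat_lit 13)
  (node (nat_lit 4) (nat_lit 82343) (nat_lit 14) (node (nat_lit 5) (nat_lit 82343) (nat_lit 15)
  nil nil) nil) nil)) (node (nat_lit 4) (nat_lit 81815) (nat_lit 12) (node (nat_lit 6) (nat_lit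
  82059) (nat_lit 13) (node (nat_lit 5) (nat_lit 81894) (nat_lit 14) (node (nat_lit 4) (nat_lit
  81894) (nat_lit 15) (node (nat_lit 5) (nat_lit 81894) (nat_lit 16) (node (nat_lit 6) (nat_lit
  81359) (nat_lit 17) (node (nat_lit 4) (nat_lit 81753) (nat_lit 18) nil nil) nil) nil) (node
  (nat_lit 6) (nat_lit 81894) (nat_lit 15) nil nil)) nil) (node (nat_lit 5) (nat_lit 81815)
  (nat_lit 13) (node (nat_lit 4) (nat_lit 81815) (nat_lit 14) (node (nat_lit 6) (nat_lit 81815)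
  (nat_lit 15) nil nil) (node (nat_lit 6) (nat_lit 81815) (nat_lit 14) nil nil)) nil)) (node
  (nat_lit 13) (nat_lit 84430) (nat_lit 12) nil nil))) (node (nat_lit 4) (nat_lit 81027) (nat_lit
  11) (node (nat_lit 6) (nat_lit 82016) (nat_lit 12) (node (nat_lit 5) (nat_lit 83224) (nat_lit
  13) (node (nat_lit 6) (nat_lit 83528) (nat_lit 14) (node (nat_lit 4) (nat_lit 83603) (nat_lit
  15) (node (nat_lit 5) (nat_lit 83603) (nat_lit 16) nil nil) nil) (node (nat_lit 4) (nat_lit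
  83789) (nat_lit 14) (node (nat_lit 5) (nat_lit 84481) (nat_lit 15) (node (nat_lit 6) (nat_lit
  84481) (nat_lit 16) (node (nat_lit 4) (nat_lit 84983) (nat_lit 17) (node (nat_lit 5) (nat_lit
  85377) (nat_lit 18) (node (nat_lit 4) (nat_lit 85683) (nat_lit 19) nil nil) nil) nil) nil) nil)
  nil)) (node (nat_lit 4) (nat_lit 82260) (nat_lit 13) nil nil)) (node (nat_lit 5) (nat_lit 81825)
  (nat_lit 12) (node (nat_lit 6) (nat_lit 83102) (nat_lit 13) (node (nat_lit 4) (nat_lit 83589)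
  (nat_lit 14) (node (nat_lit 5) (nat_lit 83589) (nat_lit 15) (node (nat_lit 4) (nat_lit 83589)
  (nat_lit 16) (node (nat_lit 6) (nat_lit 83054) (nat_lit 17) (node (nat_lit 5) (nat_lit 82958)
  (nat_lit 18) (node (nat_lit 4) (nat_lit 83183) (nat_lit 19) nil nil) nil) nil) nil) nil) (node
  (nat_lit 5) (nat_lit 83102) (nat_lit 14) nil nil)) (node (nat_lit 4) (nat_lit 82061) (nat_lit
  13) (node (nat_lit 6) (nat_lit 82061) (nat_lit 14) nil nil) nil)) nil)) (node (nat_lit 0)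
  (nat_lit 83977) (nat_lit 11) (node (nat_lit 4) (nat_lit 83977) (nat_lit 12) nil (node (nat_lit
  13) (nat_lit 84370) (nat_lit 12) nil nil)) nil)))) nil)) (node (nat_lit 0) (nat_lit 0) (nat_lit
  9) (node (nat_lit 5) (nat_lit 97629) (nat_lit 10) (node (nat_lit 4) (nat_lit 98098) (nat_lit 11)
  (node (nat_lit 6) (nat_lit 97933) (nat_lit 12) (node (nat_lit 5) (nat_lit 97933) (nat_lit 13)
  (node (nat_lit 6) (nat_lit 97933) (nat_lit 14) (node (nat_lit 4) (nat_lit 97933) (nat_lit 15)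
  nil nil) nil) (node (nat_lit 4) (nat_lit 97933) (nat_lit 13) (node (nat_lit 5) (nat_lit 97933)
  (nat_lit 14) (node (nat_lit 6) (nat_lit 97933) (nat_lit 15) nil nil) nil) nil)) (node (nat_lit
  5) (nat_lit 98481) (nat_lit 12) (node (nat_lit 6) (nat_lit 98481) (nat_lit 13) (node (nat_lit 4)
  (nat_lit 98481) (nat_lit 14) (node (nat_lit 5) (nat_lit 98481) (nat_lit 15) (node (nat_lit 4)
  (nat_lit 98481) (nat_lit 16) (node (nat_lit 6) (nat_lit 99059) (nat_lit 17) (node (nat_lit 5)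
  (nat_lit 99233) (nat_lit 18) nil nil) nil) nil) nil) nil) nil) nil)) (node (nat_lit 6) (nat_lit
  98481) (nat_lit 11) (node (nat_lit 4) (nat_lit 98481) (nat_lit 12) (node (nat_lit 6) (nat_lit
  98481) (nat_lit 13) (node (nat_lit 5) (nat_lit 98481) (nat_lit 14) (node (nat_lit 4) (nat_lit
  98481) (nat_lit 15) (node (nat_lit 5) (nat_lit 98481) (nat_lit 16) (node (nat_lit 6) (nat_lit
  98652) (nat_lit 17) nil nil) nil) nil) nil) (node (nat_lit 5) (nat_lit 98481) (nat_lit 13) (node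
  (nat_lit 4) (nat_lit 98481) (nat_lit 14) (node (nat_lit 6) (nat_lit 98481) (nat_lit 15) nil nil)
  nil) nil)) (node (nat_lit 5) (nat_lit 98481) (nat_lit 12) (node (nat_lit 4) (nat_lit 98481)
  (nat_lit 13) (node (nat_lit 5) (nat_lit 98481) (nat_lit 14) (node (nat_lit 6) (nat_lit 98481)
  (nat_lit 15) (node (nat_lit 4) (nat_lit 98481) (nat_lit 16) (node (nat_lit 5) (nat_lit 99689)
  (nat_lit 17) (node (nat_lit 4) (nat_lit 100082) (nat_lit 18) (node (nat_lit 6) (nat_lit 99772)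
  (nat_lit 19) (node (nat_lit 5) (nat_lit 99804) (nat_lit 20) nil nil) nil) nil) nil) nil) nil)
  nil) nil) nil)) nil)) (node (nat_lit 6) (nat_lit 97629) (nat_lit 10) (node (nat_lit 5) (nat_lit
  98414) (nat_lit 11) (node (nat_lit 4) (nat_lit 98162) (nat_lit 12) (node (nat_lit 6) (nat_lit
  98162) (nat_lit 13) (node (nat_lit 5) (nat_lit 98162) (nat_lit 14) nil (node (nat_lit 4)
  (nat_lit 98162) (nat_lit 14) (node (nat_lit 5) (nat_lit 98162) (nat_lit 15) nil nil) nil)) (node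
  (nat_lit 5) (nat_lit 98162) (nat_lit 13) (node (nat_lit 6) (nat_lit 98162) (nat_lit 14) (node
  (nat_lit 4) (nat_lit 98162) (nat_lit 15) (node (nat_lit 5) (nat_lit 98481) (nat_lit 16) (node
  (nat_lit 4) (nat_lit 99310) (nat_lit 17) (node (nat_lit 6) (nat_lit 98899) (nat_lit 18) (node
  (nat_lit 5) (nat_lit 98982) (nat_lit 19) nil nil) nil) nil) nil) (node (nat_lit 5) (nat_lit
  98162) (nat_lit 15) nil nil)) nil) nil)) (node (nat_lit 6) (nat_lit 98481) (nat_lit 12) nil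
  nil)) (node (nat_lit 4) (nat_lit 98481) (nat_lit 11) (node (nat_lit 5) (nat_lit 98481) (nat_lit
  12) (node (nat_lit 6) (nat_lit 98481) (nat_lit 13) (node (nat_lit 5) (nat_lit 98481) (nat_lit
  14) (node (nat_lit 4) (nat_lit 98481) (nat_lit 15) nil nil) nil) (node (nat_lit 4) (nat_lit
  98481) (nat_lit 13) (node (nat_lit 6) (nat_lit 98481) (nat_lit 14) (node (nat_lit 5) (nat_lit
  98481) (nat_lit 15) nil nil) nil) nil)) (node (nat_lit 6) (nat_lit 98481) (nat_lit 12) (node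
  (nat_lit 5) (nat_lit 98481) (nat_lit 13) nil nil) nil)) nil)) (node (nat_lit 4) (nat_lit 97445)
  (nat_lit 10) (node (nat_lit 6) (nat_lit 98072) (nat_lit 11) (node (nat_lit 5) (nat_lit 98369)
  (nat_lit 12) (node (nat_lit 4) (nat_lit 98481) (nat_lit 13) (node (nat_lit 5) (nat_lit 98481)
  (nat_lit 14) (node (nat_lit 6) (nat_lit 98481) (nat_lit 15) (node (nat_lit 4) (nat_lit 98481)
  (nat_lit 16) (node (nat_lit 5) (nat_lit 100605) (nat_lit 17) (node (nat_lit 4) (nat_lit 100998)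
  (nat_lit 18) (node (nat_lit 6) (nat_lit 100689) (nat_lit 19) nil nil) nil) nil) nil) nil) nil)
  (node (nat_lit 6) (nat_lit 98369) (nat_lit 13) (node (nat_lit 4) (nat_lit 98369) (nat_lit 14)
  (node (nat_lit 5) (nat_lit 98369) (nat_lit 15) nil nil) nil) nil)) (node (nat_lit 4) (nat_lit
  98077) (nat_lit 12) nil nil)) (node (nat_lit 5) (nat_lit 97931) (nat_lit 11) (node (nat_lit 6)
  (nat_lit 97931) (nat_lit 12) (node (nat_lit 4) (nat_lit 97931) (nat_lit 13) (node (nat_lit 5)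
  (nat_lit 97931) (nat_lit 14) (node (nat_lit 4) (nat_lit 97931) (nat_lit 15) (node (nat_lit 6)
  (nat_lit 97286) (nat_lit 16) (node (nat_lit 5) (nat_lit 97470) (nat_lit 17) nil nil) nil) nil)
  (node (nat_lit 6) (nat_lit 97931) (nat_lit 14) nil nil)) (node (nat_lit 5) (nat_lit 97931)
  (nat_lit 13) (node (nat_lit 4) (nat_lit 97931) (nat_lit 14) (node (nat_lit 6) (nat_lit 97931)
  (nat_lit 15) nil nil) nil) nil)) (node (nat_lit 4) (nat_lit 98226) (nat_lit 12) nil nil)) (node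
  (nat_lit 12) (nat_lit 101332) (nat_lit 11) nil nil))) (node (nat_lit 0) (nat_lit 100204)
  (nat_lit 10) nil nil)))) nil))) (node (nat_lit 4) (nat_lit 0) (nat_lit 8) (node (nat_lit 5)
  (nat_lit 0) (nat_lit 9) (node (nat_lit 6) (nat_lit 0) (nat_lit 10) t73 (node (nat_lit 0)
  (nat_lit 98961) (nat_lit 10) (node (nat_lit 4) (nat_lit 98961) (nat_lit 11) (node (nat_lit 6)
  (nat_lit 98961) (nat_lit 12) (node (nat_lit 5) (nat_lit 98961) (nat_lit 13) (node (nat_lit 6)
  (nat_lit 98961) (nat_lit 14) nil (node (nat_lit 4) (nat_lit 98961) (nat_lit 14) (node (nat_lit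
  5) (nat_lit 98961) (nat_lit 15) (node (nat_lit 6) (nat_lit 98961) (nat_lit 16) (node (nat_lit 4)
  (nat_lit 98961) (nat_lit 17) (node (nat_lit 5) (nat_lit 101947) (nat_lit 18) (node (nat_lit 4)
  (nat_lit 104277) (nat_lit 19) nil nil) nil) nil) nil) nil) nil)) (node (nat_lit 4) (nat_lit
  98961) (nat_lit 13) nil nil)) (node (nat_lit 5) (nat_lit 98961) (nat_lit 12) (node (nat_lit 6)
  (nat_lit 98961) (nat_lit 13) (node (nat_lit 4) (nat_lit 98961) (nat_lit 14) (node (nat_lit 5)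
  (nat_lit 98961) (nat_lit 15) (node (nat_lit 4) (nat_lit 98961) (nat_lit 16) (node (nat_lit 6)
  (nat_lit 98961) (nat_lit 17) (node (nat_lit 4) (nat_lit 99913) (nat_lit 18) (node (nat_lit 5)
  (nat_lit 100656) (nat_lit 19) nil nil) nil) nil) nil) nil) nil) (node (nat_lit 4) (nat_lit
  98961) (nat_lit 13) (node (nat_lit 6) (nat_lit 98961) (nat_lit 14) nil nil) nil)) (node (nat_lit
  13) (nat_lit 101998) (nat_lit 12) (node (nat_lit 5) (nat_lit 101998) (nat_lit 13) (node (nat_lit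
  4) (nat_lit 101998) (nat_lit 14) (node (nat_lit 5) (nat_lit 101998) (nat_lit 15) (node (nat_lit
  6) (nat_lit 101998) (nat_lit 16) (node (nat_lit 4) (nat_lit 101998) (nat_lit 17) (node (nat_lit
  5) (nat_lit 101998) (nat_lit 18) (node (nat_lit 4) (nat_lit 101998) (nat_lit 19) (node (nat_lit
  6) (nat_lit 103036) (nat_lit 20) (node (nat_lit 4) (nat_lit 103847) (nat_lit 21) (node (nat_lit
  5) (nat_lit 104000) (nat_lit 22) (node (nat_lit 13) (nat_lit 104808) (nat_lit 23) nil nil) nil)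
  nil) nil) nil) nil) nil) nil) nil) nil) nil) nil))) (node (nat_lit 6) (nat_lit 98961) (nat_lit
  11) (node (nat_lit 5) (nat_lit 98961) (nat_lit 12) (node (nat_lit 4) (nat_lit 98961) (nat_lit
  13) (node (nat_lit 6) (nat_lit 98961) (nat_lit 14) nil (node (nat_lit 5) (nat_lit 98961)
  (nat_lit 14) (node (nat_lit 6) (nat_lit 98961) (nat_lit 15) (node (nat_lit 4) (nat_lit 98961)
  (nat_lit 16) (node (nat_lit 5) (nat_lit 98961) (nat_lit 17) (node (nat_lit 4) (nat_lit 101462)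
  (nat_lit 18) (node (nat_lit 6) (nat_lit 103414) (nat_lit 19) nil nil) nil) nil) nil) nil) nil))
  (node (nat_lit 6) (nat_lit 98961) (nat_lit 13) (node (nat_lit 4) (nat_lit 98961) (nat_lit 14)
  nil nil) nil)) (node (nat_lit 4) (nat_lit 98961) (nat_lit 12) (node (nat_lit 6) (nat_lit 98961)
  (nat_lit 13) nil nil) nil)) (node (nat_lit 5) (nat_lit 98961) (nat_lit 11) (node (nat_lit 4)
  (nat_lit 98961) (nat_lit 12) (node (nat_lit 6) (nat_lit 98961) (nat_lit 13) nil (node (nat_lit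
  5) (nat_lit 98961) (nat_lit 13) (node (nat_lit 6) (nat_lit 98961) (nat_lit 14) (node (nat_lit 4)
  (nat_lit 98961) (nat_lit 15) (node (nat_lit 5) (nat_lit 98961) (nat_lit 16) (node (nat_lit 4)
  (nat_lit 98961) (nat_lit 17) (node (nat_lit 6) (nat_lit 100667) (nat_lit 18) (node (nat_lit 4)
  (nat_lit 101998) (nat_lit 19) (node (nat_lit 5) (nat_lit 102247) (nat_lit 20) nil nil) nil) nil)
  nil) nil) nil) nil) nil)) (node (nat_lit 6) (nat_lit 98961) (nat_lit 12) (node (nat_lit 4)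
  (nat_lit 98961) (nat_lit 13) nil nil) nil)) (node (nat_lit 0) (nat_lit 99913) (nat_lit 11) nil
  nil)))) nil)) (node (nat_lit 0) (nat_lit 96670) (nat_lit 9) (node (nat_lit 4) (nat_lit 96670)
  (nat_lit 10) (node (nat_lit 6) (nat_lit 96670) (nat_lit 11) (node (nat_lit 5) (nat_lit 96670)
  (nat_lit 12) (node (nat_lit 4) (nat_lit 96670) (nat_lit 13) (node (nat_lit 5) (nat_lit 96670)
  (nat_lit 14) (node (nat_lit 6) (nat_lit 96670) (nat_lit 15) (node (nat_lit 4) (nat_lit 96670)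
  (nat_lit 16) (node (nat_lit 5) (nat_lit 100077) (nat_lit 17) (node (nat_lit 4) (nat_lit 100470)
  (nat_lit 18) (node (nat_lit 6) (nat_lit 100161) (nat_lit 19) nil nil) nil) nil) nil) nil) nil)
  nil) nil) (node (nat_lit 5) (nat_lit 96670) (nat_lit 11) (node (nat_lit 6) (nat_lit 96670)
  (nat_lit 12) (node (nat_lit 5) (nat_lit 96670) (nat_lit 13) (node (nat_lit 4) (nat_lit 96670)
  (nat_lit 14) (node (nat_lit 5) (nat_lit 96670) (nat_lit 15) (node (nat_lit 6) (nat_lit 96860)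
  (nat_lit 16) (node (nat_lit 4) (nat_lit 98787) (nat_lit 17) nil nil) nil) nil) nil) nil) nil)
  nil)) (node (nat_lit 6) (nat_lit 96670) (nat_lit 10) (node (nat_lit 5) (nat_lit 96670) (nat_lit
  11) (node (nat_lit 4) (nat_lit 96670) (nat_lit 12) (node (nat_lit 6) (nat_lit 96670) (nat_lit
  13) nil (node (nat_lit 5) (nat_lit 96670) (nat_lit 13) (node (nat_lit 6) (nat_lit 96670)
  (nat_lit 14) (node (nat_lit 4) (nat_lit 96670) (nat_lit 15) (node (nat_lit 5) (nat_lit 96670)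
  (nat_lit 16) (node (nat_lit 4) (nat_lit 99875) (nat_lit 17) (node (nat_lit 6) (nat_lit 99666)
  (nat_lit 18) nil nil) nil) nil) nil) nil) nil)) nil) (node (nat_lit 4) (nat_lit 96670) (nat_lit
  11) nil nil)) (node (nat_lit 5) (nat_lit 96670) (nat_lit 10) (node (nat_lit 4) (nat_lit 96670)
  (nat_lit 11) (node (nat_lit 6) (nat_lit 96670) (nat_lit 12) nil (node (nat_lit 5) (nat_lit
  96670) (nat_lit 12) (node (nat_lit 6) (nat_lit 96670) (nat_lit 13) (node (nat_lit 4) (nat_lit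
  96670) (nat_lit 14) (node (nat_lit 5) (nat_lit 96670) (nat_lit 15) (node (nat_lit 4) (nat_lit
  96670) (nat_lit 16) (node (nat_lit 6) (nat_lit 98856) (nat_lit 17) (node (nat_lit 4) (nat_lit
  99433) (nat_lit 18) nil nil) nil) nil) nil) nil) nil) nil)) (node (nat_lit 6) (nat_lit 96670)
  (nat_lit 11) (node (nat_lit 4) (nat_lit 96670) (nat_lit 12) (node (nat_lit 6) (nat_lit 96670)
  (nat_lit 13) (node (nat_lit 5) (nat_lit 96670) (nat_lit 14) (node (nat_lit 4) (nat_lit 96670)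
  (nat_lit 15) (node (nat_lit 5) (nat_lit 96670) (nat_lit 16) (node (nat_lit 6) (nat_lit 99040)
  (nat_lit 17) nil nil) nil) nil) nil) nil) nil) nil)) nil))) nil)) nil))

noncomputable def t75 : Tr :=
  (node (nat_lit 4) (nat_lit 0) (nat_lit 13) (node (nat_lit 6) (nat_lit 0) (nat_lit 14) (node
  (nat_lit 4) (nat_lit 0) (nat_lit 15) (node (nat_lit 5) (nat_lit 0) (nat_lit 16) (node (nat_lit
  4) (nat_lit 0) (nat_lit 17) (node (nat_lit 6) (nat_lit 0) (nat_lit 18) (node (nat_lit 5)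
  (nat_lit 0) (nat_lit 19) (node (nat_lit 6) (nat_lit 0) (nat_lit 20) (node (nat_lit 4) (nat_lit
  0) (nat_lit 21) (node (nat_lit 5) (nat_lit 133982) (nat_lit 22) (node (nat_lit 6) (nat_lit
  134082) (nat_lit 23) (node (nat_lit 5) (nat_lit 134802) (nat_lit 24) (node (nat_lit 4) (nat_lit
  133052) (nat_lit 25) (node (nat_lit 6) (nat_lit 130425) (nat_lit 26) (node (nat_lit 4) (nat_lit
  129856) (nat_lit 27) (node (nat_lit 5) (nat_lit 129110) (nat_lit 28) (node (nat_lit 6) (nat_lit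
  123039) (nat_lit 29) (node (nat_lit 4) (nat_lit 115300) (nat_lit 30) (node (nat_lit 6) (nat_lit
  107078) (nat_lit 31) (node (nat_lit 5) (nat_lit 108295) (nat_lit 32) (node (nat_lit 4) (nat_lit
  98591) (nat_lit 33) (node (nat_lit 6) (nat_lit 87702) (nat_lit 34) (node (nat_lit 4) (nat_lit
  74874) (nat_lit 35) (node (nat_lit 5) (nat_lit 74885) (nat_lit 36) (node (nat_lit 4) (nat_lit
  74894) (nat_lit 37) (node (nat_lit 6) (nat_lit 74887) (nat_lit 38) (node (nat_lit 5) (nat_lit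
  74885) (nat_lit 39) nil nil) nil) nil) nil) nil) nil) nil) nil) nil) nil) nil) nil) nil) (node
  (nat_lit 5) (nat_lit 133511) (nat_lit 26) (node (nat_lit 6) (nat_lit 133784) (nat_lit 27) nil
  nil) nil)) nil) nil) (node (nat_lit 4) (nat_lit 134812) (nat_lit 23) (node (nat_lit 6) (nat_lit
  134750) (nat_lit 24) (node (nat_lit 4) (nat_lit 135255) (nat_lit 25) (node (nat_lit 5) (nat_lit
  135650) (nat_lit 26) (node (nat_lit 6) (nat_lit 135761) (nat_lit 27) (node (nat_lit 5) (nat_lit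
  135905) (nat_lit 28) (node (nat_lit 4) (nat_lit 136064) (nat_lit 29) (node (nat_lit 6) (nat_lit
  136143) (nat_lit 30) nil nil) nil) nil) nil) nil) nil) nil) nil)) (node (nat_lit 6) (nat_lit
  134424) (nat_lit 22) (node (nat_lit 5) (nat_lit 134814) (nat_lit 23) (node (nat_lit 4) (nat_lit
  135220) (nat_lit 24) (node (nat_lit 5) (nat_lit 135532) (nat_lit 25) (node (nat_lit 6) (nat_lit
  135736) (nat_lit 26) (node (nat_lit 5) (nat_lit 136022) (nat_lit 27) (node (nat_lit 4) (nat_lit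
  135731) (nat_lit 28) (node (nat_lit 6) (nat_lit 135317) (nat_lit 29) (node (nat_lit 4) (nat_lit
  134414) (nat_lit 30) (node (nat_lit 5) (nat_lit 132376) (nat_lit 31) (node (nat_lit 6) (nat_lit
  129729) (nat_lit 32) (node (nat_lit 4) (nat_lit 125825) (nat_lit 33) (node (nat_lit 6) (nat_lit
  124974) (nat_lit 34) (node (nat_lit 5) (nat_lit 120959) (nat_lit 35) (node (nat_lit 4) (nat_lit
  95582) (nat_lit 36) (node (nat_lit 6) (nat_lit 101128) (nat_lit 37) (node (nat_lit 4) (nat_lit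
  92897) (nat_lit 38) (node (nat_lit 5) (nat_lit 87322) (nat_lit 39) (node (nat_lit 4) (nat_lit
  87633) (nat_lit 40) (node (nat_lit 6) (nat_lit 66963) (nat_lit 41) (node (nat_lit 5) (nat_lit
  69195) (nat_lit 42) (node (nat_lit 6) (nat_lit 60676) (nat_lit 43) (node (nat_lit 4) (nat_lit
  60677) (nat_lit 44) nil nil) nil) nil) nil) nil) nil) nil) nil) nil) nil) nil) nil) nil) nil)
  nil) nil) nil) nil) nil) nil) nil) nil) (node (nat_lit 0) (nat_lit 136300) (nat_lit 22) nil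
  nil))) (node (nat_lit 0) (nat_lit 135223) (nat_lit 21) nil nil)) (node (nat_lit 4) (nat_lit 0)
  (nat_lit 20) (node (nat_lit 5) (nat_lit 131185) (nat_lit 21) (node (nat_lit 6) (nat_lit 131436)
  (nat_lit 22) (node (nat_lit 5) (nat_lit 131508) (nat_lit 23) (node (nat_lit 4) (nat_lit 130883)
  (nat_lit 24) (node (nat_lit 6) (nat_lit 129436) (nat_lit 25) (node (nat_lit 4) (nat_lit 125877)
  (nat_lit 26) (node (nat_lit 5) (nat_lit 122080) (nat_lit 27) (node (nat_lit 6) (nat_lit 112855)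
  (nat_lit 28) (node (nat_lit 4) (nat_lit 107357) (nat_lit 29) (node (nat_lit 6) (nat_lit 102568)
  (nat_lit 30) (node (nat_lit 5) (nat_lit 107857) (nat_lit 31) (node (nat_lit 4) (nat_lit 95848)
  (nat_lit 32) (node (nat_lit 6) (nat_lit 61304) (nat_lit 33) (node (nat_lit 4) (nat_lit 61319)
  (nat_lit 34) (node (nat_lit 5) (nat_lit 61289) (nat_lit 35) nil nil) nil) nil) nil) nil) nil)
  nil) nil) nil) nil) nil) nil) (node (nat_lit 4) (nat_lit 131899) (nat_lit 23) (node (nat_lit 5)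
  (nat_lit 132383) (nat_lit 24) nil (node (nat_lit 6) (nat_lit 131970) (nat_lit 24) nil nil))
  nil)) nil) (node (nat_lit 0) (nat_lit 134630) (nat_lit 21) nil nil)) (node (nat_lit 0) (nat_lit
  133505) (nat_lit 20) nil nil))) (node (nat_lit 0) (nat_lit 135450) (nat_lit 19) nil nil)) (node
  (nat_lit 0) (nat_lit 135914) (nat_lit 18) nil nil)) (node (nat_lit 6) (nat_lit 0) (nat_lit 17)
  (node (nat_lit 5) (nat_lit 0) (nat_lit 18) (node (nat_lit 4) (nat_lit 0) (nat_lit 19) (node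
  (nat_lit 6) (nat_lit 0) (nat_lit 20) (node (nat_lit 5) (nat_lit 133617) (nat_lit 21) (node
  (nat_lit 6) (nat_lit 134960) (nat_lit 22) (node (nat_lit 4) (nat_lit 135791) (nat_lit 23) (node
  (nat_lit 5) (nat_lit 136439) (nat_lit 24) (node (nat_lit 6) (nat_lit 136622) (nat_lit 25) (node
  (nat_lit 5) (nat_lit 136858) (nat_lit 26) (node (nat_lit 4) (nat_lit 136922) (nat_lit 27) (node
  (nat_lit 6) (nat_lit 135458) (nat_lit 28) (node (nat_lit 4) (nat_lit 133852) (nat_lit 29) (node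
  (nat_lit 5) (nat_lit 132578) (nat_lit 30) (node (nat_lit 6) (nat_lit 131310) (nat_lit 31) (node
  (nat_lit 4) (nat_lit 127763) (nat_lit 32) (node (nat_lit 6) (nat_lit 122779) (nat_lit 33) (node
  (nat_lit 5) (nat_lit 118278) (nat_lit 34) (node (nat_lit 4) (nat_lit 106543) (nat_lit 35) (node
  (nat_lit 6) (nat_lit 102481) (nat_lit 36) (node (nat_lit 4) (nat_lit 106979) (nat_lit 37) (node
  (nat_lit 5) (nat_lit 81525) (nat_lit 38) (node (nat_lit 6) (nat_lit 74205) (nat_lit 39) (node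
  (nat_lit 5) (nat_lit 74203) (nat_lit 40) (node (nat_lit 4) (nat_lit 74205) (nat_lit 41) (node
  (nat_lit 6) (nat_lit 74208) (nat_lit 42) (node (nat_lit 5) (nat_lit 74209) (nat_lit 43) nil nil)
  nil) nil) nil) nil) nil) nil) nil) nil) nil) nil) nil) nil) nil) nil) nil) nil) nil) nil) (node
  (nat_lit 6) (nat_lit 135862) (nat_lit 24) nil nil)) nil) nil) (node (nat_lit 4) (nat_lit 133048)
  (nat_lit 21) nil (node (nat_lit 0) (nat_lit 135686) (nat_lit 21) nil nil))) (node (nat_lit 5)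
  (nat_lit 131432) (nat_lit 20) (node (nat_lit 6) (nat_lit 132985) (nat_lit 21) (node (nat_lit 4)
  (nat_lit 133848) (nat_lit 22) (node (nat_lit 6) (nat_lit 133939) (nat_lit 23) (node (nat_lit 5)
  (nat_lit 133675) (nat_lit 24) nil nil) (node (nat_lit 5) (nat_lit 134468) (nat_lit 23) nil nil))
  nil) nil) (node (nat_lit 0) (nat_lit 134041) (nat_lit 20) nil nil))) (node (nat_lit 0) (nat_lit
  137822) (nat_lit 19) nil nil)) (node (nat_lit 0) (nat_lit 137923) (nat_lit 18) nil nil)) (node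
  (nat_lit 0) (nat_lit 138380) (nat_lit 17) (node (nat_lit 5) (nat_lit 138380) (nat_lit 18) nil
  nil) nil))) (node (nat_lit 0) (nat_lit 138719) (nat_lit 16) (node (nat_lit 6) (nat_lit 138719)
  (nat_lit 17) (node (nat_lit 4) (nat_lit 138719) (nat_lit 18) nil nil) (node (nat_lit 4) (nat_lit
  138719) (nat_lit 17) nil (node (nat_lit 5) (nat_lit 138719) (nat_lit 17) nil nil))) nil)) (node
  (nat_lit 0) (nat_lit 134936) (nat_lit 15) (node (nat_lit 6) (nat_lit 134936) (nat_lit 16) nil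
  nil) nil)) (node (nat_lit 5) (nat_lit 0) (nat_lit 14) (node (nat_lit 6) (nat_lit 0) (nat_lit 15)
  (node (nat_lit 4) (nat_lit 0) (nat_lit 16) (node (nat_lit 5) (nat_lit 0) (nat_lit 17) (node
  (nat_lit 4) (nat_lit 0) (nat_lit 18) (node (nat_lit 6) (nat_lit 0) (nat_lit 19) (node (nat_lit
  5) (nat_lit 119486) (nat_lit 20) (node (nat_lit 6) (nat_lit 121262) (nat_lit 21) (node (nat_lit
  4) (nat_lit 122301) (nat_lit 22) (node (nat_lit 5) (nat_lit 123131) (nat_lit 23) (node (nat_lit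
  6) (nat_lit 122773) (nat_lit 24) (node (nat_lit 5) (nat_lit 122576) (nat_lit 25) (node (nat_lit
  4) (nat_lit 121070) (nat_lit 26) (node (nat_lit 6) (nat_lit 119920) (nat_lit 27) (node (nat_lit
  4) (nat_lit 117483) (nat_lit 28) (node (nat_lit 5) (nat_lit 117769) (nat_lit 29) (node (nat_lit
  6) (nat_lit 113708) (nat_lit 30) (node (nat_lit 4) (nat_lit 108809) (nat_lit 31) (node (nat_lit
  6) (nat_lit 104905) (nat_lit 32) (node (nat_lit 5) (nat_lit 93601) (nat_lit 33) (node (nat_lit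
  4) (nat_lit 84887) (nat_lit 34) (node (nat_lit 5) (nat_lit 69145) (nat_lit 35) (node (nat_lit 6)
  (nat_lit 69435) (nat_lit 36) (node (nat_lit 4) (nat_lit 61247) (nat_lit 37) (node (nat_lit 5)
  (nat_lit 60115) (nat_lit 38) (node (nat_lit 4) (nat_lit 60117) (nat_lit 39) (node (nat_lit 6)
  (nat_lit 60114) (nat_lit 40) (node (nat_lit 5) (nat_lit 60115) (nat_lit 41) nil nil) nil) nil)
  nil) nil) nil) nil) nil) nil) nil) nil) nil) nil) nil) nil) nil) nil) nil) (node (nat_lit 6)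
  (nat_lit 122392) (nat_lit 23) (node (nat_lit 5) (nat_lit 122128) (nat_lit 24) nil nil) nil))
  nil) (node (nat_lit 4) (nat_lit 121805) (nat_lit 21) (node (nat_lit 5) (nat_lit 122374) (nat_lit
  22) (node (nat_lit 6) (nat_lit 122387) (nat_lit 23) (node (nat_lit 5) (nat_lit 122433) (nat_lit
  24) (node (nat_lit 4) (nat_lit 121956) (nat_lit 25) (node (nat_lit 6) (nat_lit 121448) (nat_lit
  26) (node (nat_lit 4) (nat_lit 118762) (nat_lit 27) (node (nat_lit 5) (nat_lit 116213) (nat_lit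
  28) (node (nat_lit 6) (nat_lit 110563) (nat_lit 29) (node (nat_lit 4) (nat_lit 102650) (nat_lit
  30) (node (nat_lit 6) (nat_lit 100149) (nat_lit 31) (node (nat_lit 5) (nat_lit 85052) (nat_lit
  32) (node (nat_lit 4) (nat_lit 67348) (nat_lit 33) (node (nat_lit 5) (nat_lit 61662) (nat_lit
  34) (node (nat_lit 6) (nat_lit 61680) (nat_lit 35) (node (nat_lit 4) (nat_lit 61694) (nat_lit
  36) (node (nat_lit 5) (nat_lit 61705) (nat_lit 37) (node (nat_lit 4) (nat_lit 61696) (nat_lit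
  38) nil nil) nil) nil) nil) nil) nil) nil) nil) nil) nil) nil) nil) nil) nil) (node (nat_lit 4)
  (nat_lit 122871) (nat_lit 24) nil nil)) nil) nil) nil)) (node (nat_lit 4) (nat_lit 0) (nat_lit
  20) (node (nat_lit 5) (nat_lit 0) (nat_lit 21) (node (nat_lit 6) (nat_lit 122703) (nat_lit 22)
  (node (nat_lit 5) (nat_lit 122740) (nat_lit 23) (node (nat_lit 4) (nat_lit 122278) (nat_lit 24)
  (node (nat_lit 6) (nat_lit 122551) (nat_lit 25) (node (nat_lit 4) (nat_lit 120486) (nat_lit 26)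
  (node (nat_lit 5) (nat_lit 116628) (nat_lit 27) nil nil) (node (nat_lit 5) (nat_lit 122549)
  (nat_lit 26) nil nil)) (node (nat_lit 5) (nat_lit 122085) (nat_lit 25) (node (nat_lit 6)
  (nat_lit 121684) (nat_lit 26) nil nil) nil)) nil) (node (nat_lit 4) (nat_lit 123323) (nat_lit
  23) nil nil)) (node (nat_lit 0) (nat_lit 124615) (nat_lit 22) nil nil)) (node (nat_lit 0)
  (nat_lit 125281) (nat_lit 21) nil nil)) (node (nat_lit 0) (nat_lit 122072) (nat_lit 20) nil
  nil))) (node (nat_lit 0) (nat_lit 126004) (nat_lit 19) nil nil)) (node (nat_lit 0) (nat_lit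
  125717) (nat_lit 18) nil nil)) (node (nat_lit 6) (nat_lit 0) (nat_lit 17) (node (nat_lit 0)
  (nat_lit 126447) (nat_lit 18) nil nil) (node (nat_lit 0) (nat_lit 127247) (nat_lit 17) nil
  nil))) (node (nat_lit 5) (nat_lit 0) (nat_lit 16) (node (nat_lit 4) (nat_lit 0) (nat_lit 17)
  (node (nat_lit 6) (nat_lit 0) (nat_lit 18) (node (nat_lit 5) (nat_lit 0) (nat_lit 19) (node
  (nat_lit 6) (nat_lit 111032) (nat_lit 20) (node (nat_lit 4) (nat_lit 113142) (nat_lit 21) (node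
  (nat_lit 5) (nat_lit 113759) (nat_lit 22) (node (nat_lit 6) (nat_lit 109854) (nat_lit 23) (node
  (nat_lit 5) (nat_lit 110034) (nat_lit 24) (node (nat_lit 4) (nat_lit 109840) (nat_lit 25) (node
  (nat_lit 6) (nat_lit 108904) (nat_lit 26) (node (nat_lit 4) (nat_lit 108596) (nat_lit 27) (node
  (nat_lit 5) (nat_lit 107256) (nat_lit 28) (node (nat_lit 6) (nat_lit 101718) (nat_lit 29) (node
  (nat_lit 4) (nat_lit 93792) (nat_lit 30) (node (nat_lit 6) (nat_lit 90585) (nat_lit 31) (node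
  (nat_lit 5) (nat_lit 83054) (nat_lit 32) (node (nat_lit 4) (nat_lit 73476) (nat_lit 33) (node
  (nat_lit 5) (nat_lit 58821) (nat_lit 34) (node (nat_lit 6) (nat_lit 53380) (nat_lit 35) (node
  (nat_lit 5) (nat_lit 53355) (nat_lit 36) (node (nat_lit 4) (nat_lit 53232) (nat_lit 37) (node
  (nat_lit 6) (nat_lit 53132) (nat_lit 38) nil nil) nil) nil) nil) nil) nil) nil) nil) nil) nil)
  nil) nil) nil) nil) nil) (node (nat_lit 4) (nat_lit 114589) (nat_lit 23) nil nil)) (node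
  (nat_lit 6) (nat_lit 114657) (nat_lit 22) (node (nat_lit 5) (nat_lit 115100) (nat_lit 23) (node
  (nat_lit 4) (nat_lit 115431) (nat_lit 24) (node (nat_lit 5) (nat_lit 115858) (nat_lit 25) (node
  (nat_lit 6) (nat_lit 115918) (nat_lit 26) (node (nat_lit 5) (nat_lit 115725) (nat_lit 27) (node
  (nat_lit 4) (nat_lit 114905) (nat_lit 28) nil nil) nil) nil) nil) nil) nil) nil)) nil) (node
  (nat_lit 0) (nat_lit 112904) (nat_lit 20) nil nil)) (node (nat_lit 4) (nat_lit 0) (nat_lit 19)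
  (node (nat_lit 5) (nat_lit 90648) (nat_lit 20) (node (nat_lit 4) (nat_lit 92817) (nat_lit 21)
  (node (nat_lit 6) (nat_lit 94013) (nat_lit 22) (node (nat_lit 5) (nat_lit 94410) (nat_lit 23)
  (node (nat_lit 6) (nat_lit 94729) (nat_lit 24) nil nil) nil) nil) (node (nat_lit 6) (nat_lit
  60144) (nat_lit 21) (node (nat_lit 5) (nat_lit 60855) (nat_lit 22) (node (nat_lit 4) (nat_lit
  60919) (nat_lit 23) (node (nat_lit 5) (nat_lit 61032) (nat_lit 24) (node (nat_lit 6) (nat_lit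
  61117) (nat_lit 25) nil nil) nil) nil) nil) nil)) (node (nat_lit 0) (nat_lit 96290) (nat_lit 20)
  nil nil)) (node (nat_lit 0) (nat_lit 114577) (nat_lit 19) nil nil))) (node (nat_lit 0) (nat_lit
  118101) (nat_lit 18) nil nil)) (node (nat_lit 0) (nat_lit 119500) (nat_lit 17) nil nil)) (node
  (nat_lit 0) (nat_lit 126180) (nat_lit 16) (node (nat_lit 5) (nat_lit 126180) (nat_lit 17) nil
  (node (nat_lit 6) (nat_lit 126180) (nat_lit 17) nil (node (nat_lit 4) (nat_lit 126180) (nat_lit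
  17) nil nil))) nil))) (node (nat_lit 0) (nat_lit 126664) (nat_lit 15) (node (nat_lit 4) (nat_lit
  126664) (nat_lit 16) (node (nat_lit 5) (nat_lit 126664) (nat_lit 17) nil nil) (node (nat_lit 5)
  (nat_lit 126664) (nat_lit 16) (node (nat_lit 4) (nat_lit 126664) (nat_lit 17) nil nil) (node
  (nat_lit 6) (nat_lit 126664) (nat_lit 16) nil nil))) nil)) (node (nat_lit 0) (nat_lit 136134)
  (nat_lit 14) (node (nat_lit 4) (nat_lit 136134) (nat_lit 15) (node (nat_lit 5) (nat_lit 136134)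
  (nat_lit 16) (node (nat_lit 6) (nat_lit 136134) (nat_lit 17) (node (nat_lit 5) (nat_lit 136134)
  (nat_lit 18) (node (nat_lit 4) (nat_lit 136134) (nat_lit 19) (node (nat_lit 6) (nat_lit 136134)
  (nat_lit 20) (node (nat_lit 4) (nat_lit 136134) (nat_lit 21) (node (nat_lit 5) (nat_lit 136929)
  (nat_lit 22) (node (nat_lit 6) (nat_lit 137021) (nat_lit 23) (node (nat_lit 4) (nat_lit 137505)
  (nat_lit 24) (node (nat_lit 6) (nat_lit 137560) (nat_lit 25) nil nil) nil) nil) nil) nil) nil)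
  nil) nil) nil) (node (nat_lit 6) (nat_lit 136134) (nat_lit 16) nil nil)) (node (nat_lit 5)
  (nat_lit 136134) (nat_lit 15) (node (nat_lit 6) (nat_lit 136134) (nat_lit 16) nil (node (nat_lit
  4) (nat_lit 136134) (nat_lit 16) (node (nat_lit 6) (nat_lit 136134) (nat_lit 17) nil nil) nil))
  (node (nat_lit 6) (nat_lit 136134) (nat_lit 15) (node (nat_lit 4) (nat_lit 136134) (nat_lit 16)
  nil (node (nat_lit 5) (nat_lit 136134) (nat_lit 16) nil nil)) nil))) nil))) (node (nat_lit 6)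
  (nat_lit 0) (nat_lit 13) (node (nat_lit 4) (nat_lit 0) (nat_lit 14) (node (nat_lit 5) (nat_lit
  0) (nat_lit 15) (node (nat_lit 4) (nat_lit 0) (nat_lit 16) (node (nat_lit 6) (nat_lit 0)
  (nat_lit 17) (node (nat_lit 5) (nat_lit 0) (nat_lit 18) (node (nat_lit 4) (nat_lit 0) (nat_lit
  19) (node (nat_lit 5) (nat_lit 0) (nat_lit 20) (node (nat_lit 6) (nat_lit 0) (nat_lit 21) (node
  (nat_lit 5) (nat_lit 126998) (nat_lit 22) (node (nat_lit 4) (nat_lit 126232) (nat_lit 23) (node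
  (nat_lit 6) (nat_lit 127155) (nat_lit 24) (node (nat_lit 4) (nat_lit 121430) (nat_lit 25) (node
  (nat_lit 5) (nat_lit 121465) (nat_lit 26) (node (nat_lit 6) (nat_lit 117332) (nat_lit 27) (node
  (nat_lit 4) (nat_lit 105197) (nat_lit 28) (node (nat_lit 6) (nat_lit 94826) (nat_lit 29) (node
  (nat_lit 5) (nat_lit 87718) (nat_lit 30) (node (nat_lit 6) (nat_lit 65296) (nat_lit 31) (node
  (nat_lit 4) (nat_lit 56279) (nat_lit 32) (node (nat_lit 5) (nat_lit 56230) (nat_lit 33) nil nil)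
  nil) nil) nil) nil) nil) nil) nil) (node (nat_lit 5) (nat_lit 127285) (nat_lit 25) (node
  (nat_lit 6) (nat_lit 127479) (nat_lit 26) nil nil) nil)) nil) nil) (node (nat_lit 4) (nat_lit
  129053) (nat_lit 22) (node (nat_lit 6) (nat_lit 130023) (nat_lit 23) (node (nat_lit 5) (nat_lit
  130864) (nat_lit 24) (node (nat_lit 4) (nat_lit 130127) (nat_lit 25) nil (node (nat_lit 6)
  (nat_lit 130758) (nat_lit 25) nil nil)) nil) (node (nat_lit 5) (nat_lit 129891) (nat_lit 23)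
  (node (nat_lit 4) (nat_lit 129888) (nat_lit 24) nil nil) nil)) (node (nat_lit 0) (nat_lit
  132840) (nat_lit 22) nil nil))) (node (nat_lit 0) (nat_lit 134084) (nat_lit 21) nil nil)) (node
  (nat_lit 0) (nat_lit 135772) (nat_lit 20) nil nil)) (node (nat_lit 6) (nat_lit 0) (nat_lit 19)
  (node (nat_lit 4) (nat_lit 0) (nat_lit 20) (node (nat_lit 6) (nat_lit 128195) (nat_lit 21) (node
  (nat_lit 5) (nat_lit 129756) (nat_lit 22) (node (nat_lit 4) (nat_lit 131111) (nat_lit 23) (node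
  (nat_lit 5) (nat_lit 131753) (nat_lit 24) (node (nat_lit 6) (nat_lit 132127) (nat_lit 25) (node
  (nat_lit 5) (nat_lit 132320) (nat_lit 26) (node (nat_lit 4) (nat_lit 131662) (nat_lit 27) (node
  (nat_lit 6) (nat_lit 130536) (nat_lit 28) (node (nat_lit 4) (nat_lit 129001) (nat_lit 29) (node
  (nat_lit 5) (nat_lit 126738) (nat_lit 30) (node (nat_lit 6) (nat_lit 122566) (nat_lit 31) (node
  (nat_lit 4) (nat_lit 124677) (nat_lit 32) (node (nat_lit 6) (nat_lit 120760) (nat_lit 33) (node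
  (nat_lit 5) (nat_lit 114341) (nat_lit 34) nil nil) nil) nil) nil) nil) nil) nil) nil) (node
  (nat_lit 4) (nat_lit 132422) (nat_lit 26) nil nil)) nil) (node (nat_lit 6) (nat_lit 130976)
  (nat_lit 24) (node (nat_lit 4) (nat_lit 131277) (nat_lit 25) nil nil) nil)) nil) nil) (node
  (nat_lit 0) (nat_lit 132742) (nat_lit 21) nil nil)) (node (nat_lit 0) (nat_lit 135859) (nat_lit
  20) nil nil)) (node (nat_lit 0) (nat_lit 136816) (nat_lit 19) nil nil))) (node (nat_lit 4)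
  (nat_lit 0) (nat_lit 18) (node (nat_lit 5) (nat_lit 0) (nat_lit 19) (node (nat_lit 6) (nat_lit
  127832) (nat_lit 20) (node (nat_lit 4) (nat_lit 130541) (nat_lit 21) (node (nat_lit 6) (nat_lit
  132518) (nat_lit 22) (node (nat_lit 5) (nat_lit 133933) (nat_lit 23) (node (nat_lit 4) (nat_lit
  134337) (nat_lit 24) (node (nat_lit 5) (nat_lit 134877) (nat_lit 25) (node (nat_lit 6) (nat_lit
  135130) (nat_lit 26) (node (nat_lit 5) (nat_lit 135380) (nat_lit 27) (node (nat_lit 4) (nat_lit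
  134338) (nat_lit 28) (node (nat_lit 6) (nat_lit 133572) (nat_lit 29) (node (nat_lit 4) (nat_lit
  133321) (nat_lit 30) (node (nat_lit 5) (nat_lit 131494) (nat_lit 31) (node (nat_lit 6) (nat_lit
  128601) (nat_lit 32) (node (nat_lit 4) (nat_lit 126825) (nat_lit 33) (node (nat_lit 6) (nat_lit
  124677) (nat_lit 34) (node (nat_lit 5) (nat_lit 123267) (nat_lit 35) (node (nat_lit 6) (nat_lit
  117364) (nat_lit 36) (node (nat_lit 4) (nat_lit 106053) (nat_lit 37) (node (nat_lit 5) (nat_lit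
  94249) (nat_lit 38) (node (nat_lit 4) (nat_lit 82772) (nat_lit 39) (node (nat_lit 6) (nat_lit
  76196) (nat_lit 40) (node (nat_lit 4) (nat_lit 62875) (nat_lit 41) (node (nat_lit 5) (nat_lit
  65108) (nat_lit 42) (node (nat_lit 6) (nat_lit 57881) (nat_lit 43) nil nil) nil) nil) nil) nil)
  nil) nil) nil) nil) nil) nil) nil) nil) nil) nil) nil) nil) nil) nil) (node (nat_lit 6) (nat_lit
  134679) (nat_lit 24) nil nil)) nil) nil) (node (nat_lit 5) (nat_lit 129764) (nat_lit 21) (node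
  (nat_lit 4) (nat_lit 131272) (nat_lit 22) (node (nat_lit 6) (nat_lit 131722) (nat_lit 23) (node
  (nat_lit 4) (nat_lit 132371) (nat_lit 24) (node (nat_lit 5) (nat_lit 132877) (nat_lit 25) nil
  nil) nil) (node (nat_lit 5) (nat_lit 132238) (nat_lit 23) (node (nat_lit 6) (nat_lit 132812)
  (nat_lit 24) nil nil) nil)) nil) nil)) (node (nat_lit 0) (nat_lit 129721) (nat_lit 20) nil nil))
  (node (nat_lit 0) (nat_lit 133319) (nat_lit 19) nil nil)) (node (nat_lit 0) (nat_lit 136603)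
  (nat_lit 18) (node (nat_lit 6) (nat_lit 136603) (nat_lit 19) nil nil) nil))) (node (nat_lit 0)
  (nat_lit 136888) (nat_lit 17) (node (nat_lit 5) (nat_lit 136888) (nat_lit 18) nil nil) nil))
  (node (nat_lit 6) (nat_lit 0) (nat_lit 16) (node (nat_lit 5) (nat_lit 0) (nat_lit 17) (node
  (nat_lit 4) (nat_lit 0) (nat_lit 18) (node (nat_lit 5) (nat_lit 0) (nat_lit 19) (node (nat_lit
  6) (nat_lit 117031) (nat_lit 20) (node (nat_lit 4) (nat_lit 118832) (nat_lit 21) (node (nat_lit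
  6) (nat_lit 120080) (nat_lit 22) (node (nat_lit 5) (nat_lit 120471) (nat_lit 23) (node (nat_lit
  4) (nat_lit 120875) (nat_lit 24) (node (nat_lit 5) (nat_lit 121415) (nat_lit 25) (node (nat_lit
  6) (nat_lit 121685) (nat_lit 26) (node (nat_lit 5) (nat_lit 121922) (nat_lit 27) (node (nat_lit
  4) (nat_lit 121189) (nat_lit 28) (node (nat_lit 6) (nat_lit 120049) (nat_lit 29) (node (nat_lit
  4) (nat_lit 118748) (nat_lit 30) (node (nat_lit 5) (nat_lit 118033) (nat_lit 31) (node (nat_lit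
  6) (nat_lit 115139) (nat_lit 32) (node (nat_lit 4) (nat_lit 113363) (nat_lit 33) (node (nat_lit
  6) (nat_lit 111202) (nat_lit 34) (node (nat_lit 5) (nat_lit 108735) (nat_lit 35) (node (nat_lit
  6) (nat_lit 102340) (nat_lit 36) (node (nat_lit 4) (nat_lit 96349) (nat_lit 37) (node (nat_lit
  5) (nat_lit 81833) (nat_lit 38) (node (nat_lit 6) (nat_lit 80021) (nat_lit 39) (node (nat_lit 5)
  (nat_lit 79070) (nat_lit 40) (node (nat_lit 4) (nat_lit 69886) (nat_lit 41) nil nil) nil) nil)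
  nil) nil) nil) nil) nil) nil) nil) nil) nil) nil) nil) nil) nil) nil) nil) nil) (node (nat_lit
  5) (nat_lit 120043) (nat_lit 22) (node (nat_lit 4) (nat_lit 120039) (nat_lit 23) (node (nat_lit
  6) (nat_lit 119945) (nat_lit 24) nil nil) nil) nil)) nil) (node (nat_lit 0) (nat_lit 119222)
  (nat_lit 20) nil nil)) (node (nat_lit 6) (nat_lit 0) (nat_lit 19) (node (nat_lit 5) (nat_lit
  105359) (nat_lit 20) (node (nat_lit 6) (nat_lit 106476) (nat_lit 21) (node (nat_lit 4) (nat_lit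
  107780) (nat_lit 22) (node (nat_lit 5) (nat_lit 108144) (nat_lit 23) (node (nat_lit 4) (nat_lit
  108141) (nat_lit 24) nil (node (nat_lit 6) (nat_lit 108184) (nat_lit 24) nil nil)) (node
  (nat_lit 6) (nat_lit 108047) (nat_lit 23) (node (nat_lit 5) (nat_lit 107971) (nat_lit 24) (node
  (nat_lit 4) (nat_lit 107101) (nat_lit 25) nil nil) nil) nil)) nil) nil) (node (nat_lit 4)
  (nat_lit 104847) (nat_lit 20) (node (nat_lit 5) (nat_lit 106569) (nat_lit 21) (node (nat_lit 6)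
  (nat_lit 74100) (nat_lit 22) (node (nat_lit 4) (nat_lit 74376) (nat_lit 23) (node (nat_lit 6)
  (nat_lit 74177) (nat_lit 24) (node (nat_lit 5) (nat_lit 74142) (nat_lit 25) nil nil) nil) (node
  (nat_lit 5) (nat_lit 73364) (nat_lit 23) nil nil)) (node (nat_lit 4) (nat_lit 107431) (nat_lit
  22) (node (nat_lit 6) (nat_lit 106511) (nat_lit 23) nil nil) nil)) nil) (node (nat_lit 0)
  (nat_lit 110910) (nat_lit 20) nil nil))) (node (nat_lit 0) (nat_lit 120876) (nat_lit 19) nil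
  nil))) (node (nat_lit 0) (nat_lit 128598) (nat_lit 18) nil nil)) (node (nat_lit 0) (nat_lit
  130033) (nat_lit 17) nil nil)) (node (nat_lit 0) (nat_lit 133837) (nat_lit 16) (node (nat_lit 5)
  (nat_lit 133837) (nat_lit 17) nil nil) nil))) (node (nat_lit 0) (nat_lit 135295) (nat_lit 15)
  (node (nat_lit 4) (nat_lit 135295) (nat_lit 16) nil (node (nat_lit 6) (nat_lit 135295) (nat_lit
  16) nil (node (nat_lit 5) (nat_lit 135295) (nat_lit 16) nil nil))) nil)) (node (nat_lit 0)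
  (nat_lit 135368) (nat_lit 14) (node (nat_lit 5) (nat_lit 135368) (nat_lit 15) (node (nat_lit 6)
  (nat_lit 135368) (nat_lit 16) (node (nat_lit 5) (nat_lit 135368) (nat_lit 17) nil nil) nil)
  (node (nat_lit 4) (nat_lit 135368) (nat_lit 15) (node (nat_lit 5) (nat_lit 135368) (nat_lit 16)
  (node (nat_lit 6) (nat_lit 135368) (nat_lit 17) (node (nat_lit 5) (nat_lit 135368) (nat_lit 18)
  (node (nat_lit 4) (nat_lit 135368) (nat_lit 19) (node (nat_lit 6) (nat_lit 135368) (nat_lit 20)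
  (node (nat_lit 4) (nat_lit 135368) (nat_lit 21) (node (nat_lit 5) (nat_lit 136163) (nat_lit 22)
  nil nil) nil) nil) nil) nil) nil) nil) (node (nat_lit 6) (nat_lit 135368) (nat_lit 15) nil
  nil))) nil)) (node (nat_lit 0) (nat_lit 135621) (nat_lit 13) (node (nat_lit 5) (nat_lit 135621)
  (nat_lit 14) (node (nat_lit 6) (nat_lit 135621) (nat_lit 15) (node (nat_lit 5) (nat_lit 135621)
  (nat_lit 16) (node (nat_lit 4) (nat_lit 135621) (nat_lit 17) nil nil) (node (nat_lit 4) (nat_lit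
  135621) (nat_lit 16) nil nil)) (node (nat_lit 4) (nat_lit 135621) (nat_lit 15) (node (nat_lit 6)
  (nat_lit 135621) (nat_lit 16) nil (node (nat_lit 5) (nat_lit 135621) (nat_lit 16) nil nil))
  nil)) (node (nat_lit 6) (nat_lit 135621) (nat_lit 14) (node (nat_lit 5) (nat_lit 135621)
  (nat_lit 15) (node (nat_lit 6) (nat_lit 135621) (nat_lit 16) nil (node (nat_lit 4) (nat_lit
  135621) (nat_lit 16) nil nil)) (node (nat_lit 4) (nat_lit 135621) (nat_lit 15) nil nil)) (node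
  (nat_lit 4) (nat_lit 135621) (nat_lit 14) (node (nat_lit 5) (nat_lit 135621) (nat_lit 15) nil
  (node (nat_lit 6) (nat_lit 135621) (nat_lit 15) (node (nat_lit 5) (nat_lit 135621) (nat_lit 16)
  nil nil) nil)) nil))) nil)))

noncomputable def t76 : Tr :=
  (node (nat_lit 4) (nat_lit 0) (nat_lit 11) (node (nat_lit 5) (nat_lit 0) (nat_lit 12) (node
  (nat_lit 6) (nat_lit 0) (nat_lit 13) (node (nat_lit 4) (nat_lit 0) (nat_lit 14) (node (nat_lit
  6) (nat_lit 0) (nat_lit 15) (node (nat_lit 5) (nat_lit 0) (nat_lit 16) (node (nat_lit 4)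
  (nat_lit 0) (nat_lit 17) (node (nat_lit 6) (nat_lit 0) (nat_lit 18) (node (nat_lit 4) (nat_lit
  0) (nat_lit 19) (node (nat_lit 5) (nat_lit 74809) (nat_lit 20) (node (nat_lit 4) (nat_lit 76169)
  (nat_lit 21) (node (nat_lit 6) (nat_lit 77223) (nat_lit 22) (node (nat_lit 5) (nat_lit 77841)
  (nat_lit 23) (node (nat_lit 4) (nat_lit 78193) (nat_lit 24) (node (nat_lit 5) (nat_lit 78006)
  (nat_lit 25) (node (nat_lit 6) (nat_lit 77743) (nat_lit 26) (node (nat_lit 5) (nat_lit 76658)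
  (nat_lit 27) (node (nat_lit 4) (nat_lit 75681) (nat_lit 28) (node (nat_lit 6) (nat_lit 74935)
  (nat_lit 29) (node (nat_lit 4) (nat_lit 74634) (nat_lit 30) (node (nat_lit 5) (nat_lit 72297)
  (nat_lit 31) (node (nat_lit 6) (nat_lit 71657) (nat_lit 32) (node (nat_lit 5) (nat_lit 70353)
  (nat_lit 33) (node (nat_lit 4) (nat_lit 67604) (nat_lit 34) (node (nat_lit 5) (nat_lit 65784)
  (nat_lit 35) (node (nat_lit 6) (nat_lit 57735) (nat_lit 36) (node (nat_lit 4) (nat_lit 47817)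
  (nat_lit 37) (node (nat_lit 6) (nat_lit 37124) (nat_lit 38) (node (nat_lit 5) (nat_lit 48214)
  (nat_lit 39) (node (nat_lit 4) (nat_lit 30448) (nat_lit 40) nil nil) nil) nil) nil) nil) nil)
  nil) nil) nil) nil) nil) nil) nil) nil) nil) nil) (node (nat_lit 6) (nat_lit 78056) (nat_lit 24)
  (node (nat_lit 4) (nat_lit 78224) (nat_lit 25) (node (nat_lit 5) (nat_lit 78355) (nat_lit 26)
  (node (nat_lit 6) (nat_lit 78260) (nat_lit 27) (node (nat_lit 5) (nat_lit 78243) (nat_lit 28)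
  (node (nat_lit 4) (nat_lit 78276) (nat_lit 29) (node (nat_lit 6) (nat_lit 78325) (nat_lit 30)
  (node (nat_lit 4) (nat_lit 78364) (nat_lit 31) (node (nat_lit 5) (nat_lit 78380) (nat_lit 32)
  nil nil) nil) nil) nil) nil) nil) nil) nil) nil)) nil) nil) (node (nat_lit 6) (nat_lit 75680)
  (nat_lit 21) (node (nat_lit 5) (nat_lit 76477) (nat_lit 22) (node (nat_lit 4) (nat_lit 77099)
  (nat_lit 23) (node (nat_lit 6) (nat_lit 77314) (nat_lit 24) (node (nat_lit 4) (nat_lit 77482)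
  (nat_lit 25) nil nil) nil) nil) (node (nat_lit 4) (nat_lit 76034) (nat_lit 22) nil nil)) nil))
  (node (nat_lit 0) (nat_lit 78322) (nat_lit 20) nil nil)) (node (nat_lit 0) (nat_lit 78954)
  (nat_lit 19) nil nil)) (node (nat_lit 5) (nat_lit 0) (nat_lit 18) (node (nat_lit 6) (nat_lit 0)
  (nat_lit 19) (node (nat_lit 5) (nat_lit 0) (nat_lit 20) (node (nat_lit 4) (nat_lit 69184)
  (nat_lit 21) (node (nat_lit 6) (nat_lit 70263) (nat_lit 22) (node (nat_lit 4) (nat_lit 70984)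
  (nat_lit 23) (node (nat_lit 5) (nat_lit 71624) (nat_lit 24) (node (nat_lit 6) (nat_lit 56505)
  (nat_lit 25) (node (nat_lit 5) (nat_lit 31504) (nat_lit 26) (node (nat_lit 4) (nat_lit 22485)
  (nat_lit 27) nil nil) nil) nil) nil) (node (nat_lit 5) (nat_lit 70904) (nat_lit 23) (node
  (nat_lit 6) (nat_lit 71290) (nat_lit 24) nil nil) nil)) nil) (node (nat_lit 0) (nat_lit 69641)
  (nat_lit 21) nil nil)) (node (nat_lit 0) (nat_lit 70327) (nat_lit 20) nil nil)) (node (nat_lit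
  0) (nat_lit 72819) (nat_lit 19) nil nil)) (node (nat_lit 0) (nat_lit 78430) (nat_lit 18) nil
  nil))) (node (nat_lit 6) (nat_lit 0) (nat_lit 17) (node (nat_lit 4) (nat_lit 0) (nat_lit 18)
  (node (nat_lit 5) (nat_lit 0) (nat_lit 19) (node (nat_lit 4) (nat_lit 0) (nat_lit 20) (node
  (nat_lit 6) (nat_lit 0) (nat_lit 21) (node (nat_lit 5) (nat_lit 78252) (nat_lit 22) (node
  (nat_lit 4) (nat_lit 78297) (nat_lit 23) (node (nat_lit 5) (nat_lit 78053) (nat_lit 24) (node
  (nat_lit 6) (nat_lit 77730) (nat_lit 25) (node (nat_lit 5) (nat_lit 75900) (nat_lit 26) (node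
  (nat_lit 4) (nat_lit 74417) (nat_lit 27) (node (nat_lit 6) (nat_lit 73301) (nat_lit 28) (node
  (nat_lit 4) (nat_lit 72799) (nat_lit 29) (node (nat_lit 5) (nat_lit 69740) (nat_lit 30) (node
  (nat_lit 6) (nat_lit 68777) (nat_lit 31) (node (nat_lit 5) (nat_lit 63456) (nat_lit 32) (node
  (nat_lit 4) (nat_lit 59340) (nat_lit 33) (node (nat_lit 5) (nat_lit 57350) (nat_lit 34) (node
  (nat_lit 6) (nat_lit 46550) (nat_lit 35) (node (nat_lit 4) (nat_lit 43325) (nat_lit 36) (node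
  (nat_lit 6) (nat_lit 37358) (nat_lit 37) (node (nat_lit 5) (nat_lit 30710) (nat_lit 38) (node
  (nat_lit 6) (nat_lit 31482) (nat_lit 39) (node (nat_lit 4) (nat_lit 7336) (nat_lit 40) nil nil)
  nil) nil) nil) nil) nil) nil) nil) nil) nil) nil) nil) nil) nil) nil) nil) nil) (node (nat_lit
  6) (nat_lit 78366) (nat_lit 23) nil nil)) (node (nat_lit 4) (nat_lit 78351) (nat_lit 22) (node
  (nat_lit 5) (nat_lit 78468) (nat_lit 23) (node (nat_lit 6) (nat_lit 78270) (nat_lit 24) (node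
  (nat_lit 5) (nat_lit 78235) (nat_lit 25) (node (nat_lit 4) (nat_lit 78305) (nat_lit 26) (node
  (nat_lit 6) (nat_lit 78407) (nat_lit 27) (node (nat_lit 4) (nat_lit 78487) (nat_lit 28) (node
  (nat_lit 5) (nat_lit 78549) (nat_lit 29) nil nil) nil) nil) nil) nil) nil) nil) (node (nat_lit
  0) (nat_lit 79105) (nat_lit 22) nil nil))) (node (nat_lit 0) (nat_lit 79019) (nat_lit 21) nil
  nil)) (node (nat_lit 6) (nat_lit 76907) (nat_lit 20) (node (nat_lit 5) (nat_lit 77318) (nat_lit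
  21) (node (nat_lit 4) (nat_lit 77377) (nat_lit 22) (node (nat_lit 6) (nat_lit 77491) (nat_lit
  23) (node (nat_lit 4) (nat_lit 77580) (nat_lit 24) (node (nat_lit 5) (nat_lit 77650) (nat_lit
  25) (node (nat_lit 6) (nat_lit 77597) (nat_lit 26) (node (nat_lit 5) (nat_lit 77589) (nat_lit
  27) nil nil) nil) nil) nil) (node (nat_lit 5) (nat_lit 75710) (nat_lit 23) (node (nat_lit 6)
  (nat_lit 75331) (nat_lit 24) nil nil) nil)) nil) nil) (node (nat_lit 0) (nat_lit 78787) (nat_lit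
  20) nil nil))) (node (nat_lit 0) (nat_lit 78254) (nat_lit 19) nil nil)) (node (nat_lit 0)
  (nat_lit 79205) (nat_lit 18) nil nil)) (node (nat_lit 0) (nat_lit 78925) (nat_lit 17) nil nil)))
  (node (nat_lit 0) (nat_lit 78799) (nat_lit 16) (node (nat_lit 4) (nat_lit 78799) (nat_lit 17)
  nil (node (nat_lit 6) (nat_lit 78799) (nat_lit 17) nil nil)) nil)) (node (nat_lit 5) (nat_lit 0)
  (nat_lit 15) (node (nat_lit 4) (nat_lit 0) (nat_lit 16) (node (nat_lit 6) (nat_lit 0) (nat_lit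
  17) (node (nat_lit 5) (nat_lit 0) (nat_lit 18) (node (nat_lit 6) (nat_lit 0) (nat_lit 19) (node
  (nat_lit 4) (nat_lit 74493) (nat_lit 20) (node (nat_lit 6) (nat_lit 75855) (nat_lit 21) (node
  (nat_lit 5) (nat_lit 76578) (nat_lit 22) (node (nat_lit 4) (nat_lit 77086) (nat_lit 23) (node
  (nat_lit 5) (nat_lit 77013) (nat_lit 24) (node (nat_lit 6) (nat_lit 77254) (nat_lit 25) (node
  (nat_lit 5) (nat_lit 77156) (nat_lit 26) (node (nat_lit 4) (nat_lit 76604) (nat_lit 27) (node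
  (nat_lit 6) (nat_lit 76263) (nat_lit 28) (node (nat_lit 4) (nat_lit 75046) (nat_lit 29) (node
  (nat_lit 5) (nat_lit 71908) (nat_lit 30) (node (nat_lit 6) (nat_lit 70056) (nat_lit 31) (node
  (nat_lit 5) (nat_lit 67376) (nat_lit 32) (node (nat_lit 4) (nat_lit 64594) (nat_lit 33) (node
  (nat_lit 5) (nat_lit 58168) (nat_lit 34) nil nil) nil) nil) nil) nil) nil) nil) nil) nil) nil)
  nil) nil) nil) (node (nat_lit 5) (nat_lit 75660) (nat_lit 21) (node (nat_lit 6) (nat_lit 75616)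
  (nat_lit 22) (node (nat_lit 5) (nat_lit 74881) (nat_lit 23) (node (nat_lit 4) (nat_lit 74997)
  (nat_lit 24) (node (nat_lit 6) (nat_lit 75165) (nat_lit 25) (node (nat_lit 4) (nat_lit 75296)
  (nat_lit 26) (node (nat_lit 5) (nat_lit 75398) (nat_lit 27) (node (nat_lit 6) (nat_lit 75323)
  (nat_lit 28) nil nil) nil) nil) nil) nil) nil) nil) nil)) (node (nat_lit 0) (nat_lit 77123)
  (nat_lit 20) nil nil)) (node (nat_lit 4) (nat_lit 72407) (nat_lit 19) (node (nat_lit 5) (nat_lit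
  72623) (nat_lit 20) (node (nat_lit 6) (nat_lit 73259) (nat_lit 21) (node (nat_lit 5) (nat_lit
  68612) (nat_lit 22) (node (nat_lit 4) (nat_lit 68995) (nat_lit 23) (node (nat_lit 6) (nat_lit
  69662) (nat_lit 24) (node (nat_lit 4) (nat_lit 68005) (nat_lit 25) (node (nat_lit 5) (nat_lit
  59380) (nat_lit 26) (node (nat_lit 6) (nat_lit 54628) (nat_lit 27) (node (nat_lit 5) (nat_lit
  40888) (nat_lit 28) (node (nat_lit 4) (nat_lit 44687) (nat_lit 29) nil nil) nil) nil) nil) nil)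
  nil) nil) (node (nat_lit 4) (nat_lit 73410) (nat_lit 22) nil nil)) nil) nil) (node (nat_lit 0)
  (nat_lit 75860) (nat_lit 19) nil nil))) (node (nat_lit 4) (nat_lit 0) (nat_lit 18) (node
  (nat_lit 5) (nat_lit 0) (nat_lit 19) (node (nat_lit 6) (nat_lit 75350) (nat_lit 20) (node
  (nat_lit 4) (nat_lit 76618) (nat_lit 21) (node (nat_lit 6) (nat_lit 77466) (nat_lit 22) (node
  (nat_lit 5) (nat_lit 77440) (nat_lit 23) (node (nat_lit 4) (nat_lit 77480) (nat_lit 24) (node
  (nat_lit 5) (nat_lit 77294) (nat_lit 25) (node (nat_lit 6) (nat_lit 77031) (nat_lit 26) (node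
  (nat_lit 5) (nat_lit 76923) (nat_lit 27) (node (nat_lit 4) (nat_lit 76451) (nat_lit 28) (node
  (nat_lit 6) (nat_lit 76159) (nat_lit 29) (node (nat_lit 4) (nat_lit 75946) (nat_lit 30) (node
  (nat_lit 5) (nat_lit 74413) (nat_lit 31) (node (nat_lit 6) (nat_lit 74235) (nat_lit 32) (node
  (nat_lit 5) (nat_lit 72130) (nat_lit 33) (node (nat_lit 4) (nat_lit 69199) (nat_lit 34) (node
  (nat_lit 5) (nat_lit 65617) (nat_lit 35) (node (nat_lit 6) (nat_lit 58875) (nat_lit 36) (node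
  (nat_lit 4) (nat_lit 48107) (nat_lit 37) (node (nat_lit 5) (nat_lit 42351) (nat_lit 38) (node
  (nat_lit 4) (nat_lit 36390) (nat_lit 39) (node (nat_lit 6) (nat_lit 34527) (nat_lit 40) nil nil)
  nil) nil) nil) nil) nil) nil) nil) nil) nil) nil) nil) nil) nil) nil) nil) nil) nil) nil) (node
  (nat_lit 5) (nat_lit 76371) (nat_lit 21) (node (nat_lit 4) (nat_lit 74902) (nat_lit 22) (node
  (nat_lit 6) (nat_lit 75178) (nat_lit 23) (node (nat_lit 4) (nat_lit 75393) (nat_lit 24) (node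
  (nat_lit 5) (nat_lit 75561) (nat_lit 25) nil nil) nil) (node (nat_lit 5) (nat_lit 74241)
  (nat_lit 23) (node (nat_lit 6) (nat_lit 73315) (nat_lit 24) nil nil) nil)) nil) nil)) (node
  (nat_lit 0) (nat_lit 75968) (nat_lit 20) nil nil)) (node (nat_lit 0) (nat_lit 73999) (nat_lit
  19) nil nil)) (node (nat_lit 0) (nat_lit 78111) (nat_lit 18) nil nil))) (node (nat_lit 0)
  (nat_lit 78535) (nat_lit 17) nil nil)) (node (nat_lit 0) (nat_lit 78759) (nat_lit 16) (node
  (nat_lit 5) (nat_lit 78759) (nat_lit 17) nil (node (nat_lit 4) (nat_lit 78759) (nat_lit 17) nil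
  nil)) nil)) (node (nat_lit 0) (nat_lit 77789) (nat_lit 15) (node (nat_lit 5) (nat_lit 77789)
  (nat_lit 16) nil (node (nat_lit 4) (nat_lit 77789) (nat_lit 16) nil (node (nat_lit 6) (nat_lit
  77789) (nat_lit 16) nil nil))) nil))) (node (nat_lit 0) (nat_lit 77703) (nat_lit 14) (node
  (nat_lit 5) (nat_lit 77703) (nat_lit 15) nil (node (nat_lit 4) (nat_lit 77703) (nat_lit 15)
  (node (nat_lit 5) (nat_lit 77703) (nat_lit 16) (node (nat_lit 6) (nat_lit 77703) (nat_lit 17)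
  (node (nat_lit 5) (nat_lit 77703) (nat_lit 18) (node (nat_lit 4) (nat_lit 77703) (nat_lit 19)
  (node (nat_lit 6) (nat_lit 77703) (nat_lit 20) (node (nat_lit 4) (nat_lit 77703) (nat_lit 21)
  (node (nat_lit 5) (nat_lit 78057) (nat_lit 22) (node (nat_lit 6) (nat_lit 77803) (nat_lit 23)
  nil nil) nil) nil) nil) nil) nil) nil) nil) (node (nat_lit 6) (nat_lit 77703) (nat_lit 15) nil
  nil))) nil)) (node (nat_lit 0) (nat_lit 76907) (nat_lit 13) (node (nat_lit 4) (nat_lit 76907)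
  (nat_lit 14) (node (nat_lit 5) (nat_lit 76907) (nat_lit 15) (node (nat_lit 6) (nat_lit 76907)
  (nat_lit 16) (node (nat_lit 5) (nat_lit 76907) (nat_lit 17) (node (nat_lit 4) (nat_lit 76907)
  (nat_lit 18) (node (nat_lit 6) (nat_lit 76907) (nat_lit 19) (node (nat_lit 4) (nat_lit 76907)
  (nat_lit 20) (node (nat_lit 5) (nat_lit 77359) (nat_lit 21) nil nil) nil) nil) nil) nil) (node
  (nat_lit 4) (nat_lit 76907) (nat_lit 16) nil nil)) (node (nat_lit 6) (nat_lit 76907) (nat_lit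
  15) nil nil)) (node (nat_lit 5) (nat_lit 76907) (nat_lit 14) (node (nat_lit 6) (nat_lit 76907)
  (nat_lit 15) nil (node (nat_lit 4) (nat_lit 76907) (nat_lit 15) nil nil)) (node (nat_lit 6)
  (nat_lit 76907) (nat_lit 14) nil nil))) nil)) (node (nat_lit 0) (nat_lit 75869) (nat_lit 12)
  (node (nat_lit 5) (nat_lit 75869) (nat_lit 13) (node (nat_lit 4) (nat_lit 75869) (nat_lit 14)
  (node (nat_lit 5) (nat_lit 75869) (nat_lit 15) (node (nat_lit 6) (nat_lit 75869) (nat_lit 16)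
  (node (nat_lit 5) (nat_lit 75869) (nat_lit 17) (node (nat_lit 4) (nat_lit 75869) (nat_lit 18)
  (node (nat_lit 6) (nat_lit 75869) (nat_lit 19) (node (nat_lit 4) (nat_lit 76907) (nat_lit 20)
  nil nil) nil) nil) nil) nil) (node (nat_lit 6) (nat_lit 75869) (nat_lit 15) nil nil)) (node
  (nat_lit 6) (nat_lit 75869) (nat_lit 14) (node (nat_lit 5) (nat_lit 75869) (nat_lit 15) nil
  (node (nat_lit 4) (nat_lit 75869) (nat_lit 15) nil nil)) nil)) (node (nat_lit 4) (nat_lit 75869)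
  (nat_lit 13) (node (nat_lit 5) (nat_lit 75869) (nat_lit 14) (node (nat_lit 6) (nat_lit 75869)
  (nat_lit 15) (node (nat_lit 5) (nat_lit 75869) (nat_lit 16) (node (nat_lit 4) (nat_lit 75869)
  (nat_lit 17) (node (nat_lit 6) (nat_lit 75869) (nat_lit 18) (node (nat_lit 4) (nat_lit 75869)
  (nat_lit 19) (node (nat_lit 5) (nat_lit 76448) (nat_lit 20) (node (nat_lit 6) (nat_lit 76034)
  (nat_lit 21) (node (nat_lit 5) (nat_lit 75959) (nat_lit 22) nil nil) nil) nil) nil) nil) nil)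
  nil) (node (nat_lit 4) (nat_lit 75869) (nat_lit 15) nil nil)) (node (nat_lit 6) (nat_lit 75869)
  (nat_lit 14) (node (nat_lit 5) (nat_lit 75869) (nat_lit 15) (node (nat_lit 4) (nat_lit 75869)
  (nat_lit 16) nil nil) (node (nat_lit 4) (nat_lit 75869) (nat_lit 15) nil nil)) nil)) (node
  (nat_lit 6) (nat_lit 75869) (nat_lit 13) (node (nat_lit 4) (nat_lit 75869) (nat_lit 14) (node
  (nat_lit 6) (nat_lit 75869) (nat_lit 15) (node (nat_lit 5) (nat_lit 75869) (nat_lit 16) nil nil)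
  (node (nat_lit 5) (nat_lit 75869) (nat_lit 15) (node (nat_lit 4) (nat_lit 75869) (nat_lit 16)
  nil nil) nil)) (node (nat_lit 5) (nat_lit 75869) (nat_lit 14) (node (nat_lit 4) (nat_lit 75869)
  (nat_lit 15) (node (nat_lit 6) (nat_lit 75869) (nat_lit 16) nil nil) (node (nat_lit 6) (nat_lit
  75869) (nat_lit 15) nil nil)) nil)) (node (nat_lit 0) (nat_lit 76448) (nat_lit 13) nil nil))))
  nil)) (node (nat_lit 0) (nat_lit 131555) (nat_lit 11) (node (nat_lit 5) (nat_lit 131555)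
  (nat_lit 12) (node (nat_lit 4) (nat_lit 131555) (nat_lit 13) (node (nat_lit 6) (nat_lit 131555)
  (nat_lit 14) (node (nat_lit 4) (nat_lit 131555) (nat_lit 15) (node (nat_lit 5) (nat_lit 131555)
  (nat_lit 16) (node (nat_lit 6) (nat_lit 131555) (nat_lit 17) (node (nat_lit 5) (nat_lit 131555)
  (nat_lit 18) (node (nat_lit 4) (nat_lit 133794) (nat_lit 19) (node (nat_lit 6) (nat_lit 134743)
  (nat_lit 20) nil nil) nil) nil) nil) nil) (node (nat_lit 5) (nat_lit 131555) (nat_lit 15) (node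
  (nat_lit 6) (nat_lit 131555) (nat_lit 16) (node (nat_lit 4) (nat_lit 131555) (nat_lit 17) nil
  nil) (node (nat_lit 4) (nat_lit 131555) (nat_lit 16) nil nil)) nil)) (node (nat_lit 5) (nat_lit
  131555) (nat_lit 14) (node (nat_lit 6) (nat_lit 131555) (nat_lit 15) (node (nat_lit 5) (nat_lit
  131555) (nat_lit 16) (node (nat_lit 4) (nat_lit 131555) (nat_lit 17) (node (nat_lit 6) (nat_lit
  131555) (nat_lit 18) (node (nat_lit 4) (nat_lit 133816) (nat_lit 19) (node (nat_lit 5) (nat_lit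
  134791) (nat_lit 20) (node (nat_lit 6) (nat_lit 136091) (nat_lit 21) nil nil) nil) nil) nil)
  nil) (node (nat_lit 4) (nat_lit 131555) (nat_lit 16) nil nil)) nil) nil)) (node (nat_lit 6)
  (nat_lit 131555) (nat_lit 13) (node (nat_lit 4) (nat_lit 131555) (nat_lit 14) (node (nat_lit 5)
  (nat_lit 131555) (nat_lit 15) (node (nat_lit 6) (nat_lit 131555) (nat_lit 16) (node (nat_lit 5)
  (nat_lit 131555) (nat_lit 17) (node (nat_lit 4) (nat_lit 131555) (nat_lit 18) (node (nat_lit 6)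
  (nat_lit 133794) (nat_lit 19) nil nil) nil) nil) (node (nat_lit 4) (nat_lit 131555) (nat_lit 16)
  (node (nat_lit 6) (nat_lit 131555) (nat_lit 17) nil nil) nil)) (node (nat_lit 6) (nat_lit
  131555) (nat_lit 15) (node (nat_lit 5) (nat_lit 131555) (nat_lit 16) nil nil) nil)) (node
  (nat_lit 5) (nat_lit 131555) (nat_lit 14) (node (nat_lit 4) (nat_lit 131555) (nat_lit 15) (node
  (nat_lit 6) (nat_lit 131555) (nat_lit 16) nil nil) nil) nil)) (node (nat_lit 0) (nat_lit 134534)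
  (nat_lit 13) nil nil))) (node (nat_lit 6) (nat_lit 131555) (nat_lit 12) (node (nat_lit 5)
  (nat_lit 131555) (nat_lit 13) (node (nat_lit 6) (nat_lit 131555) (nat_lit 14) (node (nat_lit 4)
  (nat_lit 131555) (nat_lit 15) (node (nat_lit 5) (nat_lit 131555) (nat_lit 16) (node (nat_lit 6)
  (nat_lit 131555) (nat_lit 17) (node (nat_lit 5) (nat_lit 131555) (nat_lit 18) (node (nat_lit 4)
  (nat_lit 133794) (nat_lit 19) nil nil) nil) (node (nat_lit 4) (nat_lit 131555) (nat_lit 17) nil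
  nil)) (node (nat_lit 6) (nat_lit 131555) (nat_lit 16) nil nil)) nil) (node (nat_lit 4) (nat_lit
  131555) (nat_lit 14) (node (nat_lit 5) (nat_lit 131555) (nat_lit 15) (node (nat_lit 6) (nat_lit
  131555) (nat_lit 16) (node (nat_lit 5) (nat_lit 131555) (nat_lit 17) (node (nat_lit 4) (nat_lit
  131555) (nat_lit 18) (node (nat_lit 6) (nat_lit 133816) (nat_lit 19) nil nil) nil) nil) nil)
  nil) nil)) (node (nat_lit 4) (nat_lit 131555) (nat_lit 13) (node (nat_lit 5) (nat_lit 131555)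
  (nat_lit 14) (node (nat_lit 6) (nat_lit 131555) (nat_lit 15) (node (nat_lit 5) (nat_lit 131555)
  (nat_lit 16) (node (nat_lit 4) (nat_lit 131555) (nat_lit 17) (node (nat_lit 6) (nat_lit 131555)
  (nat_lit 18) (node (nat_lit 4) (nat_lit 133794) (nat_lit 19) (node (nat_lit 5) (nat_lit 135543)
  (nat_lit 20) nil nil) nil) nil) nil) nil) (node (nat_lit 4) (nat_lit 131555) (nat_lit 15) nil
  nil)) (node (nat_lit 6) (nat_lit 131555) (nat_lit 14) (node (nat_lit 5) (nat_lit 131555)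
  (nat_lit 15) nil nil) nil)) nil)) (node (nat_lit 4) (nat_lit 131555) (nat_lit 12) (node (nat_lit
  5) (nat_lit 131555) (nat_lit 13) (node (nat_lit 6) (nat_lit 131555) (nat_lit 14) (node (nat_lit
  5) (nat_lit 131555) (nat_lit 15) (node (nat_lit 4) (nat_lit 131555) (nat_lit 16) (node (nat_lit
  6) (nat_lit 131555) (nat_lit 17) (node (nat_lit 4) (nat_lit 131555) (nat_lit 18) (node (nat_lit
  5) (nat_lit 133228) (nat_lit 19) (node (nat_lit 6) (nat_lit 133423) (nat_lit 20) nil nil) nil)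
  nil) nil) nil) (node (nat_lit 4) (nat_lit 131555) (nat_lit 15) nil nil)) (node (nat_lit 4)
  (nat_lit 131555) (nat_lit 14) (node (nat_lit 6) (nat_lit 131555) (nat_lit 15) (node (nat_lit 5)
  (nat_lit 131555) (nat_lit 16) nil (node (nat_lit 4) (nat_lit 131555) (nat_lit 16) nil nil)) nil)
  nil)) (node (nat_lit 6) (nat_lit 131555) (nat_lit 13) (node (nat_lit 4) (nat_lit 131555)
  (nat_lit 14) (node (nat_lit 5) (nat_lit 131555) (nat_lit 15) (node (nat_lit 6) (nat_lit 131555)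
  (nat_lit 16) (node (nat_lit 5) (nat_lit 131555) (nat_lit 17) (node (nat_lit 4) (nat_lit 131555)
  (nat_lit 18) (node (nat_lit 6) (nat_lit 132771) (nat_lit 19) (node (nat_lit 4) (nat_lit 134518)
  (nat_lit 20) (node (nat_lit 5) (nat_lit 135882) (nat_lit 21) nil nil) nil) nil) nil) nil) nil)
  nil) (node (nat_lit 5) (nat_lit 131555) (nat_lit 14) (node (nat_lit 4) (nat_lit 131555) (nat_lit
  15) (node (nat_lit 6) (nat_lit 131555) (nat_lit 16) nil nil) nil) nil)) nil)) (node (nat_lit 0)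
  (nat_lit 134383) (nat_lit 12) nil nil)))) nil))

noncomputable def t77 : Tr :=
  (node (nat_lit 4) (nat_lit 0) (nat_lit 10) (node (nat_lit 6) (nat_lit 0) (nat_lit 11) (node
  (nat_lit 5) (nat_lit 0) (nat_lit 12) t75 (node (nat_lit 0) (nat_lit 134383) (nat_lit 12) (node
  (nat_lit 4) (nat_lit 134383) (nat_lit 13) (node (nat_lit 6) (nat_lit 134383) (nat_lit 14) (node
  (nat_lit 4) (nat_lit 134383) (nat_lit 15) (node (nat_lit 5) (nat_lit 134383) (nat_lit 16) (node
  (nat_lit 6) (nat_lit 134383) (nat_lit 17) (node (nat_lit 5) (nat_lit 134383) (nat_lit 18) nil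
  nil) (node (nat_lit 4) (nat_lit 134383) (nat_lit 17) (node (nat_lit 6) (nat_lit 134383) (nat_lit
  18) nil nil) nil)) nil) (node (nat_lit 5) (nat_lit 134383) (nat_lit 15) (node (nat_lit 4)
  (nat_lit 134383) (nat_lit 16) (node (nat_lit 5) (nat_lit 134383) (nat_lit 17) (node (nat_lit 6)
  (nat_lit 134383) (nat_lit 18) (node (nat_lit 5) (nat_lit 134383) (nat_lit 19) (node (nat_lit 4)
  (nat_lit 134834) (nat_lit 20) (node (nat_lit 6) (nat_lit 135865) (nat_lit 21) nil nil) nil) nil)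
  nil) (node (nat_lit 6) (nat_lit 134383) (nat_lit 17) nil nil)) (node (nat_lit 6) (nat_lit
  134383) (nat_lit 16) (node (nat_lit 4) (nat_lit 134383) (nat_lit 17) nil nil) nil)) nil)) (node
  (nat_lit 5) (nat_lit 134383) (nat_lit 14) (node (nat_lit 6) (nat_lit 134383) (nat_lit 15) (node
  (nat_lit 5) (nat_lit 134383) (nat_lit 16) (node (nat_lit 4) (nat_lit 134383) (nat_lit 17) (node
  (nat_lit 6) (nat_lit 134383) (nat_lit 18) (node (nat_lit 4) (nat_lit 134383) (nat_lit 19) (node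
  (nat_lit 5) (nat_lit 135689) (nat_lit 20) (node (nat_lit 6) (nat_lit 135841) (nat_lit 21) (node
  (nat_lit 4) (nat_lit 136636) (nat_lit 22) (node (nat_lit 6) (nat_lit 136727) (nat_lit 23) nil
  nil) nil) nil) nil) nil) nil) nil) (node (nat_lit 4) (nat_lit 134383) (nat_lit 16) nil nil))
  (node (nat_lit 4) (nat_lit 134383) (nat_lit 15) (node (nat_lit 6) (nat_lit 134383) (nat_lit 16)
  nil nil) nil)) (node (nat_lit 15) (nat_lit 136708) (nat_lit 14) nil nil))) (node (nat_lit 6)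
  (nat_lit 134383) (nat_lit 13) (node (nat_lit 4) (nat_lit 134383) (nat_lit 14) (node (nat_lit 5)
  (nat_lit 134383) (nat_lit 15) (node (nat_lit 6) (nat_lit 134383) (nat_lit 16) (node (nat_lit 5)
  (nat_lit 134383) (nat_lit 17) (node (nat_lit 4) (nat_lit 134383) (nat_lit 18) (node (nat_lit 6)
  (nat_lit 134383) (nat_lit 19) (node (nat_lit 4) (nat_lit 136131) (nat_lit 20) (node (nat_lit 5)
  (nat_lit 137495) (nat_lit 21) (node (nat_lit 6) (nat_lit 137882) (nat_lit 22) (node (nat_lit 4)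
  (nat_lit 138713) (nat_lit 23) (node (nat_lit 6) (nat_lit 138650) (nat_lit 24) nil nil) nil) nil)
  nil) nil) nil) nil) nil) (node (nat_lit 4) (nat_lit 134383) (nat_lit 16) nil nil)) (node
  (nat_lit 6) (nat_lit 134383) (nat_lit 15) nil (node (nat_lit 15) (nat_lit 137503) (nat_lit 15)
  nil nil))) (node (nat_lit 5) (nat_lit 134383) (nat_lit 14) (node (nat_lit 4) (nat_lit 134383)
  (nat_lit 15) (node (nat_lit 6) (nat_lit 134383) (nat_lit 16) (node (nat_lit 4) (nat_lit 134383)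
  (nat_lit 17) nil nil) (node (nat_lit 5) (nat_lit 134383) (nat_lit 16) nil nil)) (node (nat_lit
  6) (nat_lit 134383) (nat_lit 15) (node (nat_lit 4) (nat_lit 134383) (nat_lit 16) nil nil) nil))
  nil)) (node (nat_lit 5) (nat_lit 134383) (nat_lit 13) (node (nat_lit 6) (nat_lit 134383)
  (nat_lit 14) (node (nat_lit 5) (nat_lit 134383) (nat_lit 15) (node (nat_lit 4) (nat_lit 134383)
  (nat_lit 16) (node (nat_lit 6) (nat_lit 134383) (nat_lit 17) (node (nat_lit 4) (nat_lit 134383)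
  (nat_lit 18) (node (nat_lit 5) (nat_lit 134383) (nat_lit 19) nil nil) nil) nil) nil) (node
  (nat_lit 4) (nat_lit 134383) (nat_lit 15) nil nil)) (node (nat_lit 4) (nat_lit 134383) (nat_lit
  14) (node (nat_lit 6) (nat_lit 134383) (nat_lit 15) nil (node (nat_lit 5) (nat_lit 134383)
  (nat_lit 15) nil nil)) nil)) (node (nat_lit 0) (nat_lit 136589) (nat_lit 13) nil nil)))) nil))
  (node (nat_lit 0) (nat_lit 0) (nat_lit 11) (node (nat_lit 4) (nat_lit 130759) (nat_lit 12) (node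
  (nat_lit 5) (nat_lit 130759) (nat_lit 13) (node (nat_lit 6) (nat_lit 130759) (nat_lit 14) (node
  (nat_lit 5) (nat_lit 130759) (nat_lit 15) (node (nat_lit 4) (nat_lit 130759) (nat_lit 16) (node
  (nat_lit 6) (nat_lit 130759) (nat_lit 17) (node (nat_lit 4) (nat_lit 130759) (nat_lit 18) (node
  (nat_lit 5) (nat_lit 132431) (nat_lit 19) (node (nat_lit 6) (nat_lit 132626) (nat_lit 20) (node
  (nat_lit 4) (nat_lit 133645) (nat_lit 21) nil nil) nil) nil) nil) nil) nil) (node (nat_lit 4)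
  (nat_lit 130759) (nat_lit 15) (node (nat_lit 6) (nat_lit 130759) (nat_lit 16) (node (nat_lit 5)
  (nat_lit 130759) (nat_lit 17) nil nil) (node (nat_lit 5) (nat_lit 130759) (nat_lit 16) nil nil))
  nil)) (node (nat_lit 4) (nat_lit 130759) (nat_lit 14) (node (nat_lit 6) (nat_lit 130759)
  (nat_lit 15) (node (nat_lit 5) (nat_lit 130759) (nat_lit 16) nil nil) nil) nil)) (node (nat_lit
  6) (nat_lit 130759) (nat_lit 13) (node (nat_lit 5) (nat_lit 130759) (nat_lit 14) (node (nat_lit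
  4) (nat_lit 130759) (nat_lit 15) (node (nat_lit 6) (nat_lit 130759) (nat_lit 16) nil (node
  (nat_lit 5) (nat_lit 130759) (nat_lit 16) (node (nat_lit 6) (nat_lit 130759) (nat_lit 17) nil
  nil) nil)) (node (nat_lit 6) (nat_lit 130759) (nat_lit 15) (node (nat_lit 4) (nat_lit 130759)
  (nat_lit 16) nil nil) nil)) (node (nat_lit 4) (nat_lit 130759) (nat_lit 14) (node (nat_lit 5)
  (nat_lit 130759) (nat_lit 15) (node (nat_lit 6) (nat_lit 130759) (nat_lit 16) (node (nat_lit 5)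
  (nat_lit 130759) (nat_lit 17) (node (nat_lit 4) (nat_lit 130759) (nat_lit 18) (node (nat_lit 6)
  (nat_lit 131974) (nat_lit 19) nil nil) nil) nil) nil) nil) (node (nat_lit 14) (nat_lit 134756)
  (nat_lit 14) nil nil))) (node (nat_lit 0) (nat_lit 134784) (nat_lit 13) nil nil))) (node
  (nat_lit 6) (nat_lit 130759) (nat_lit 12) (node (nat_lit 4) (nat_lit 130759) (nat_lit 13) (node
  (nat_lit 5) (nat_lit 130759) (nat_lit 14) (node (nat_lit 6) (nat_lit 130759) (nat_lit 15) (node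
  (nat_lit 5) (nat_lit 130759) (nat_lit 16) (node (nat_lit 4) (nat_lit 130759) (nat_lit 17) (node
  (nat_lit 6) (nat_lit 130759) (nat_lit 18) (node (nat_lit 4) (nat_lit 132998) (nat_lit 19) (node
  (nat_lit 5) (nat_lit 134746) (nat_lit 20) (node (nat_lit 6) (nat_lit 135243) (nat_lit 21) nil
  nil) nil) nil) nil) nil) nil) (node (nat_lit 4) (nat_lit 130759) (nat_lit 15) nil nil)) (node
  (nat_lit 6) (nat_lit 130759) (nat_lit 14) (node (nat_lit 5) (nat_lit 130759) (nat_lit 15) (node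
  (nat_lit 4) (nat_lit 130759) (nat_lit 16) (node (nat_lit 5) (nat_lit 130759) (nat_lit 17) nil
  nil) (node (nat_lit 6) (nat_lit 130759) (nat_lit 16) nil nil)) nil) nil)) (node (nat_lit 5)
  (nat_lit 130759) (nat_lit 13) (node (nat_lit 4) (nat_lit 130759) (nat_lit 14) (node (nat_lit 5)
  (nat_lit 130759) (nat_lit 15) (node (nat_lit 6) (nat_lit 130759) (nat_lit 16) (node (nat_lit 5)
  (nat_lit 130759) (nat_lit 17) (node (nat_lit 4) (nat_lit 130759) (nat_lit 18) (node (nat_lit 6)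
  (nat_lit 133364) (nat_lit 19) nil nil) nil) nil) nil) (node (nat_lit 6) (nat_lit 130759)
  (nat_lit 15) (node (nat_lit 4) (nat_lit 130759) (nat_lit 16) (node (nat_lit 5) (nat_lit 130759)
  (nat_lit 17) nil nil) nil) nil)) (node (nat_lit 6) (nat_lit 130759) (nat_lit 14) (node (nat_lit
  4) (nat_lit 130759) (nat_lit 15) (node (nat_lit 5) (nat_lit 130759) (nat_lit 16) nil nil) nil)
  nil)) (node (nat_lit 14) (nat_lit 136407) (nat_lit 13) (node (nat_lit 4) (nat_lit 136407)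
  (nat_lit 14) nil nil) nil))) (node (nat_lit 5) (nat_lit 130759) (nat_lit 12) (node (nat_lit 6)
  (nat_lit 130759) (nat_lit 13) (node (nat_lit 4) (nat_lit 130759) (nat_lit 14) (node (nat_lit 5)
  (nat_lit 130759) (nat_lit 15) (node (nat_lit 6) (nat_lit 130759) (nat_lit 16) (node (nat_lit 5)
  (nat_lit 130759) (nat_lit 17) (node (nat_lit 4) (nat_lit 130759) (nat_lit 18) (node (nat_lit 6)
  (nat_lit 132998) (nat_lit 19) (node (nat_lit 4) (nat_lit 134746) (nat_lit 20) (node (nat_lit 5)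
  (nat_lit 136110) (nat_lit 21) (node (nat_lit 6) (nat_lit 136497) (nat_lit 22) nil nil) nil) nil)
  nil) nil) nil) nil) (node (nat_lit 6) (nat_lit 130759) (nat_lit 15) (node (nat_lit 5) (nat_lit
  130759) (nat_lit 16) (node (nat_lit 4) (nat_lit 130759) (nat_lit 17) nil nil) nil) nil)) (node
  (nat_lit 5) (nat_lit 130759) (nat_lit 14) (node (nat_lit 4) (nat_lit 130759) (nat_lit 15) (node
  (nat_lit 6) (nat_lit 130759) (nat_lit 16) (node (nat_lit 4) (nat_lit 130759) (nat_lit 17) (node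
  (nat_lit 5) (nat_lit 130759) (nat_lit 18) nil nil) nil) nil) nil) nil)) (node (nat_lit 4)
  (nat_lit 130759) (nat_lit 13) (node (nat_lit 5) (nat_lit 130759) (nat_lit 14) (node (nat_lit 6)
  (nat_lit 130759) (nat_lit 15) (node (nat_lit 5) (nat_lit 130759) (nat_lit 16) (node (nat_lit 4)
  (nat_lit 130759) (nat_lit 17) (node (nat_lit 6) (nat_lit 130759) (nat_lit 18) (node (nat_lit 4)
  (nat_lit 133019) (nat_lit 19) (node (nat_lit 5) (nat_lit 133994) (nat_lit 20) nil nil) nil) nil)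
  nil) (node (nat_lit 4) (nat_lit 130759) (nat_lit 16) (node (nat_lit 6) (nat_lit 130759) (nat_lit
  17) nil nil) nil)) nil) (node (nat_lit 6) (nat_lit 130759) (nat_lit 14) (node (nat_lit 4)
  (nat_lit 130759) (nat_lit 15) nil nil) nil)) (node (nat_lit 14) (nat_lit 134784) (nat_lit 13)
  nil nil))) (node (nat_lit 0) (nat_lit 134309) (nat_lit 12) nil nil)))) nil)) (node (nat_lit 5)
  (nat_lit 0) (nat_lit 10) t76 (node (nat_lit 0) (nat_lit 0) (nat_lit 10) (node (nat_lit 5)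
  (nat_lit 127382) (nat_lit 11) (node (nat_lit 4) (nat_lit 127382) (nat_lit 12) (node (nat_lit 6)
  (nat_lit 127382) (nat_lit 13) (node (nat_lit 5) (nat_lit 127382) (nat_lit 14) (node (nat_lit 4)
  (nat_lit 127382) (nat_lit 15) (node (nat_lit 5) (nat_lit 127382) (nat_lit 16) (node (nat_lit 6)
  (nat_lit 127382) (nat_lit 17) (node (nat_lit 5) (nat_lit 130690) (nat_lit 18) (node (nat_lit 4)
  (nat_lit 131270) (nat_lit 19) (node (nat_lit 6) (nat_lit 132394) (nat_lit 20) (node (nat_lit 4)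
  (nat_lit 133415) (nat_lit 21) (node (nat_lit 5) (nat_lit 133350) (nat_lit 22) nil nil) nil) nil)
  nil) nil) nil) nil) (node (nat_lit 6) (nat_lit 127382) (nat_lit 15) nil nil)) (node (nat_lit 4)
  (nat_lit 127382) (nat_lit 14) (node (nat_lit 5) (nat_lit 127382) (nat_lit 15) (node (nat_lit 6)
  (nat_lit 127382) (nat_lit 16) (node (nat_lit 5) (nat_lit 127382) (nat_lit 17) (node (nat_lit 4)
  (nat_lit 130251) (nat_lit 18) (node (nat_lit 6) (nat_lit 131466) (nat_lit 19) nil nil) nil) nil)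
  nil) nil) nil)) (node (nat_lit 5) (nat_lit 127382) (nat_lit 13) (node (nat_lit 6) (nat_lit
  127382) (nat_lit 14) (node (nat_lit 5) (nat_lit 127382) (nat_lit 15) (node (nat_lit 4) (nat_lit
  127382) (nat_lit 16) (node (nat_lit 6) (nat_lit 127382) (nat_lit 17) (node (nat_lit 4) (nat_lit
  130279) (nat_lit 18) (node (nat_lit 5) (nat_lit 131529) (nat_lit 19) (node (nat_lit 6) (nat_lit
  133194) (nat_lit 20) nil nil) nil) nil) nil) nil) (node (nat_lit 4) (nat_lit 127382) (nat_lit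
  15) (node (nat_lit 6) (nat_lit 127382) (nat_lit 16) nil nil) nil)) nil) nil)) (node (nat_lit 6)
  (nat_lit 127382) (nat_lit 12) (node (nat_lit 4) (nat_lit 127382) (nat_lit 13) (node (nat_lit 5)
  (nat_lit 127382) (nat_lit 14) (node (nat_lit 6) (nat_lit 127382) (nat_lit 15) (node (nat_lit 5)
  (nat_lit 127382) (nat_lit 16) (node (nat_lit 4) (nat_lit 127382) (nat_lit 17) (node (nat_lit 6)
  (nat_lit 130391) (nat_lit 18) (node (nat_lit 4) (nat_lit 132630) (nat_lit 19) (node (nat_lit 5)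
  (nat_lit 134378) (nat_lit 20) (node (nat_lit 6) (nat_lit 134875) (nat_lit 21) nil nil) nil) nil)
  nil) nil) nil) (node (nat_lit 4) (nat_lit 127382) (nat_lit 15) nil nil)) (node (nat_lit 6)
  (nat_lit 127382) (nat_lit 14) (node (nat_lit 5) (nat_lit 127382) (nat_lit 15) (node (nat_lit 4)
  (nat_lit 127382) (nat_lit 16) nil nil) nil) nil)) (node (nat_lit 5) (nat_lit 127382) (nat_lit
  13) (node (nat_lit 4) (nat_lit 127382) (nat_lit 14) (node (nat_lit 6) (nat_lit 127382) (nat_lit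
  15) (node (nat_lit 4) (nat_lit 127382) (nat_lit 16) (node (nat_lit 5) (nat_lit 127382) (nat_lit
  17) nil nil) nil) (node (nat_lit 5) (nat_lit 127382) (nat_lit 15) nil nil)) nil) nil)) (node
  (nat_lit 13) (nat_lit 134383) (nat_lit 12) nil nil))) (node (nat_lit 4) (nat_lit 127382)
  (nat_lit 11) (node (nat_lit 5) (nat_lit 127382) (nat_lit 12) (node (nat_lit 6) (nat_lit 127382)
  (nat_lit 13) (node (nat_lit 5) (nat_lit 127382) (nat_lit 14) (node (nat_lit 4) (nat_lit 127382)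
  (nat_lit 15) (node (nat_lit 6) (nat_lit 127382) (nat_lit 16) (node (nat_lit 4) (nat_lit 127382)
  (nat_lit 17) (node (nat_lit 5) (nat_lit 129525) (nat_lit 18) (node (nat_lit 6) (nat_lit 129775)
  (nat_lit 19) nil nil) nil) nil) nil) nil) (node (nat_lit 4) (nat_lit 127382) (nat_lit 14) (node
  (nat_lit 6) (nat_lit 127382) (nat_lit 15) nil (node (nat_lit 5) (nat_lit 127382) (nat_lit 15)
  (node (nat_lit 4) (nat_lit 127382) (nat_lit 16) nil nil) nil)) nil)) (node (nat_lit 4) (nat_lit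
  127382) (nat_lit 13) (node (nat_lit 6) (nat_lit 127382) (nat_lit 14) (node (nat_lit 5) (nat_lit
  127382) (nat_lit 15) (node (nat_lit 6) (nat_lit 127382) (nat_lit 16) (node (nat_lit 4) (nat_lit
  127382) (nat_lit 17) nil nil) nil) (node (nat_lit 4) (nat_lit 127382) (nat_lit 15) nil nil))
  nil) nil)) (node (nat_lit 6) (nat_lit 127382) (nat_lit 12) (node (nat_lit 5) (nat_lit 127382)
  (nat_lit 13) (node (nat_lit 4) (nat_lit 127382) (nat_lit 14) (node (nat_lit 5) (nat_lit 127382)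
  (nat_lit 15) (node (nat_lit 6) (nat_lit 127382) (nat_lit 16) (node (nat_lit 5) (nat_lit 127382)
  (nat_lit 17) (node (nat_lit 4) (nat_lit 128537) (nat_lit 18) nil nil) nil) nil) (node (nat_lit
  6) (nat_lit 127382) (nat_lit 15) nil nil)) (node (nat_lit 6) (nat_lit 127382) (nat_lit 14) (node
  (nat_lit 4) (nat_lit 127382) (nat_lit 15) nil nil) nil)) (node (nat_lit 4) (nat_lit 127382)
  (nat_lit 13) (node (nat_lit 5) (nat_lit 127382) (nat_lit 14) (node (nat_lit 6) (nat_lit 127382)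
  (nat_lit 15) (node (nat_lit 5) (nat_lit 127382) (nat_lit 16) (node (nat_lit 4) (nat_lit 127382)
  (nat_lit 17) (node (nat_lit 6) (nat_lit 128939) (nat_lit 18) (node (nat_lit 4) (nat_lit 131178)
  (nat_lit 19) (node (nat_lit 5) (nat_lit 132926) (nat_lit 20) nil nil) nil) nil) nil) nil) (node
  (nat_lit 4) (nat_lit 127382) (nat_lit 15) nil nil)) nil) nil)) (node (nat_lit 13) (nat_lit
  133833) (nat_lit 12) (node (nat_lit 6) (nat_lit 133833) (nat_lit 13) (node (nat_lit 4) (nat_lit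
  133833) (nat_lit 14) (node (nat_lit 5) (nat_lit 133833) (nat_lit 15) (node (nat_lit 6) (nat_lit
  133833) (nat_lit 16) (node (nat_lit 5) (nat_lit 133833) (nat_lit 17) (node (nat_lit 4) (nat_lit
  133833) (nat_lit 18) (node (nat_lit 6) (nat_lit 133833) (nat_lit 19) (node (nat_lit 4) (nat_lit
  135580) (nat_lit 20) (node (nat_lit 5) (nat_lit 136944) (nat_lit 21) nil nil) nil) nil) nil)
  nil) nil) nil) nil) nil) nil))) (node (nat_lit 6) (nat_lit 127382) (nat_lit 11) (node (nat_lit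
  5) (nat_lit 127382) (nat_lit 12) (node (nat_lit 4) (nat_lit 127382) (nat_lit 13) (node (nat_lit
  5) (nat_lit 127382) (nat_lit 14) (node (nat_lit 6) (nat_lit 127382) (nat_lit 15) (node (nat_lit
  5) (nat_lit 127382) (nat_lit 16) (node (nat_lit 4) (nat_lit 127382) (nat_lit 17) (node (nat_lit
  6) (nat_lit 130690) (nat_lit 18) (node (nat_lit 4) (nat_lit 132951) (nat_lit 19) (node (nat_lit
  5) (nat_lit 134189) (nat_lit 20) (node (nat_lit 6) (nat_lit 135318) (nat_lit 21) nil nil) nil)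
  nil) nil) nil) nil) nil) (node (nat_lit 6) (nat_lit 127382) (nat_lit 14) (node (nat_lit 4)
  (nat_lit 127382) (nat_lit 15) nil nil) nil)) (node (nat_lit 6) (nat_lit 127382) (nat_lit 13)
  (node (nat_lit 4) (nat_lit 127382) (nat_lit 14) (node (nat_lit 5) (nat_lit 127382) (nat_lit 15)
  (node (nat_lit 6) (nat_lit 127382) (nat_lit 16) (node (nat_lit 5) (nat_lit 127382) (nat_lit 17)
  (node (nat_lit 4) (nat_lit 130391) (nat_lit 18) (node (nat_lit 6) (nat_lit 132630) (nat_lit 19)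
  nil nil) nil) nil) nil) nil) nil) nil)) (node (nat_lit 4) (nat_lit 127382) (nat_lit 12) (node
  (nat_lit 5) (nat_lit 127382) (nat_lit 13) (node (nat_lit 6) (nat_lit 127382) (nat_lit 14) (node
  (nat_lit 5) (nat_lit 127382) (nat_lit 15) (node (nat_lit 4) (nat_lit 127382) (nat_lit 16) (node
  (nat_lit 6) (nat_lit 127382) (nat_lit 17) (node (nat_lit 4) (nat_lit 130251) (nat_lit 18) (node
  (nat_lit 5) (nat_lit 132490) (nat_lit 19) (node (nat_lit 6) (nat_lit 133127) (nat_lit 20) nil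
  nil) nil) nil) nil) nil) nil) (node (nat_lit 4) (nat_lit 127382) (nat_lit 14) (node (nat_lit 6)
  (nat_lit 127382) (nat_lit 15) nil nil) nil)) (node (nat_lit 6) (nat_lit 127382) (nat_lit 13)
  (node (nat_lit 5) (nat_lit 127382) (nat_lit 14) nil nil) nil)) nil)) (node (nat_lit 0) (nat_lit
  131555) (nat_lit 11) nil nil)))) nil)))

noncomputable def t78 : Tr :=
  (node (nat_lit 5) (nat_lit 0) (nat_lit 14) (node (nat_lit 6) (nat_lit 0) (nat_lit 15) (node
  (nat_lit 5) (nat_lit 0) (nat_lit 16) (node (nat_lit 4) (nat_lit 0) (nat_lit 17) (node (nat_lit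
  5) (nat_lit 0) (nat_lit 18) (node (nat_lit 6) (nat_lit 0) (nat_lit 19) (node (nat_lit 4)
  (nat_lit 0) (nat_lit 20) (node (nat_lit 6) (nat_lit 0) (nat_lit 21) (node (nat_lit 5) (nat_lit
  150157) (nat_lit 22) (node (nat_lit 4) (nat_lit 150086) (nat_lit 23) (node (nat_lit 5) (nat_lit
  149955) (nat_lit 24) (node (nat_lit 6) (nat_lit 149717) (nat_lit 25) (node (nat_lit 5) (nat_lit
  149686) (nat_lit 26) (node (nat_lit 4) (nat_lit 149113) (nat_lit 27) (node (nat_lit 6) (nat_lit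
  148929) (nat_lit 28) (node (nat_lit 4) (nat_lit 148025) (nat_lit 29) (node (nat_lit 5) (nat_lit
  146886) (nat_lit 30) (node (nat_lit 4) (nat_lit 145656) (nat_lit 31) (node (nat_lit 6) (nat_lit
  142701) (nat_lit 32) (node (nat_lit 5) (nat_lit 137870) (nat_lit 33) (node (nat_lit 6) (nat_lit
  131877) (nat_lit 34) (node (nat_lit 4) (nat_lit 123953) (nat_lit 35) (node (nat_lit 5) (nat_lit
  109439) (nat_lit 36) (node (nat_lit 6) (nat_lit 126557) (nat_lit 37) (node (nat_lit 5) (nat_lit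
  109845) (nat_lit 38) (node (nat_lit 4) (nat_lit 101658) (nat_lit 39) nil nil) nil) nil) nil)
  nil) nil) nil) nil) nil) nil) nil) nil) nil) nil) nil) (node (nat_lit 6) (nat_lit 150218)
  (nat_lit 24) (node (nat_lit 4) (nat_lit 150338) (nat_lit 25) (node (nat_lit 5) (nat_lit 150267)
  (nat_lit 26) (node (nat_lit 6) (nat_lit 150115) (nat_lit 27) (node (nat_lit 5) (nat_lit 150064)
  (nat_lit 28) (node (nat_lit 4) (nat_lit 149646) (nat_lit 29) nil nil) nil) nil) nil) nil) nil))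
  (node (nat_lit 6) (nat_lit 149991) (nat_lit 23) (node (nat_lit 4) (nat_lit 150144) (nat_lit 24)
  (node (nat_lit 5) (nat_lit 150043) (nat_lit 25) (node (nat_lit 6) (nat_lit 149847) (nat_lit 26)
  (node (nat_lit 5) (nat_lit 149792) (nat_lit 27) (node (nat_lit 4) (nat_lit 149306) (nat_lit 28)
  (node (nat_lit 6) (nat_lit 149269) (nat_lit 29) (node (nat_lit 4) (nat_lit 148701) (nat_lit 30)
  (node (nat_lit 5) (nat_lit 147677) (nat_lit 31) (node (nat_lit 4) (nat_lit 147057) (nat_lit 32)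
  (node (nat_lit 6) (nat_lit 142933) (nat_lit 33) (node (nat_lit 5) (nat_lit 139547) (nat_lit 34)
  (node (nat_lit 6) (nat_lit 138139) (nat_lit 35) (node (nat_lit 4) (nat_lit 131746) (nat_lit 36)
  (node (nat_lit 5) (nat_lit 121669) (nat_lit 37) (node (nat_lit 6) (nat_lit 115200) (nat_lit 38)
  (node (nat_lit 5) (nat_lit 109234) (nat_lit 39) (node (nat_lit 4) (nat_lit 102562) (nat_lit 40)
  (node (nat_lit 5) (nat_lit 103332) (nat_lit 41) (node (nat_lit 6) (nat_lit 80103) (nat_lit 42)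
  nil nil) nil) nil) nil) nil) nil) nil) nil) nil) nil) nil) nil) nil) nil) nil) nil) nil) nil)
  nil) nil)) (node (nat_lit 0) (nat_lit 151653) (nat_lit 22) nil nil)) (node (nat_lit 5) (nat_lit
  148802) (nat_lit 21) (node (nat_lit 4) (nat_lit 150630) (nat_lit 22) (node (nat_lit 6) (nat_lit
  150579) (nat_lit 23) (node (nat_lit 4) (nat_lit 150731) (nat_lit 24) (node (nat_lit 5) (nat_lit
  150630) (nat_lit 25) (node (nat_lit 6) (nat_lit 150434) (nat_lit 26) (node (nat_lit 5) (nat_lit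
  150380) (nat_lit 27) (node (nat_lit 4) (nat_lit 149894) (nat_lit 28) (node (nat_lit 6) (nat_lit
  149857) (nat_lit 29) (node (nat_lit 4) (nat_lit 149288) (nat_lit 30) (node (nat_lit 5) (nat_lit
  148324) (nat_lit 31) (node (nat_lit 4) (nat_lit 147659) (nat_lit 32) (node (nat_lit 6) (nat_lit
  144597) (nat_lit 33) (node (nat_lit 5) (nat_lit 139926) (nat_lit 34) (node (nat_lit 6) (nat_lit
  134889) (nat_lit 35) (node (nat_lit 4) (nat_lit 132333) (nat_lit 36) (node (nat_lit 5) (nat_lit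
  122257) (nat_lit 37) (node (nat_lit 6) (nat_lit 115787) (nat_lit 38) (node (nat_lit 5) (nat_lit
  109821) (nat_lit 39) (node (nat_lit 4) (nat_lit 114177) (nat_lit 40) (node (nat_lit 5) (nat_lit
  102095) (nat_lit 41) (node (nat_lit 6) (nat_lit 102528) (nat_lit 42) (node (nat_lit 4) (nat_lit
  78717) (nat_lit 43) nil nil) nil) nil) nil) nil) nil) nil) nil) nil) nil) nil) nil) nil) nil)
  nil) nil) nil) nil) nil) (node (nat_lit 5) (nat_lit 150468) (nat_lit 24) (node (nat_lit 4)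
  (nat_lit 150588) (nat_lit 25) nil nil) nil)) nil) nil) (node (nat_lit 0) (nat_lit 149911)
  (nat_lit 21) nil nil))) (node (nat_lit 0) (nat_lit 151349) (nat_lit 20) nil nil)) (node (nat_lit
  0) (nat_lit 150621) (nat_lit 19) nil nil)) (node (nat_lit 6) (nat_lit 0) (nat_lit 18) (node
  (nat_lit 5) (nat_lit 0) (nat_lit 19) (node (nat_lit 6) (nat_lit 0) (nat_lit 20) (node (nat_lit
  4) (nat_lit 148057) (nat_lit 21) (node (nat_lit 6) (nat_lit 148101) (nat_lit 22) (node (nat_lit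
  5) (nat_lit 147959) (nat_lit 23) (node (nat_lit 4) (nat_lit 147908) (nat_lit 24) (node (nat_lit
  5) (nat_lit 147807) (nat_lit 25) (node (nat_lit 6) (nat_lit 147611) (nat_lit 26) (node (nat_lit
  5) (nat_lit 147557) (nat_lit 27) (node (nat_lit 4) (nat_lit 147070) (nat_lit 28) (node (nat_lit
  6) (nat_lit 147033) (nat_lit 29) (node (nat_lit 4) (nat_lit 146465) (nat_lit 30) (node (nat_lit
  5) (nat_lit 145501) (nat_lit 31) (node (nat_lit 4) (nat_lit 144836) (nat_lit 32) (node (nat_lit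
  6) (nat_lit 142939) (nat_lit 33) (node (nat_lit 5) (nat_lit 140294) (nat_lit 34) (node (nat_lit
  6) (nat_lit 136634) (nat_lit 35) (node (nat_lit 4) (nat_lit 129510) (nat_lit 36) (node (nat_lit
  5) (nat_lit 120283) (nat_lit 37) (node (nat_lit 6) (nat_lit 106465) (nat_lit 38) (node (nat_lit
  5) (nat_lit 103265) (nat_lit 39) (node (nat_lit 4) (nat_lit 106930) (nat_lit 40) nil nil) nil)
  nil) nil) nil) nil) nil) nil) nil) nil) nil) nil) nil) nil) nil) nil) nil) nil) (node (nat_lit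
  5) (nat_lit 147894) (nat_lit 22) (node (nat_lit 4) (nat_lit 147892) (nat_lit 23) nil nil) nil))
  (node (nat_lit 0) (nat_lit 149313) (nat_lit 21) nil nil)) (node (nat_lit 0) (nat_lit 146765)
  (nat_lit 20) nil nil)) (node (nat_lit 4) (nat_lit 0) (nat_lit 19) (node (nat_lit 5) (nat_lit 0)
  (nat_lit 20) (node (nat_lit 4) (nat_lit 78178) (nat_lit 21) (node (nat_lit 6) (nat_lit 78040)
  (nat_lit 22) (node (nat_lit 5) (nat_lit 73554) (nat_lit 23) (node (nat_lit 4) (nat_lit 74129)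
  (nat_lit 24) (node (nat_lit 5) (nat_lit 74315) (nat_lit 25) (node (nat_lit 6) (nat_lit 74494)
  (nat_lit 26) (node (nat_lit 5) (nat_lit 74613) (nat_lit 27) (node (nat_lit 4) (nat_lit 74304)
  (nat_lit 28) (node (nat_lit 6) (nat_lit 74016) (nat_lit 29) (node (nat_lit 4) (nat_lit 73057)
  (nat_lit 30) (node (nat_lit 5) (nat_lit 71370) (nat_lit 31) (node (nat_lit 4) (nat_lit 69218)
  (nat_lit 32) (node (nat_lit 6) (nat_lit 65857) (nat_lit 33) nil nil) nil) nil) nil) nil) nil)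
  nil) nil) nil) nil) nil) nil) (node (nat_lit 6) (nat_lit 0) (nat_lit 21) (node (nat_lit 4)
  (nat_lit 105976) (nat_lit 22) (node (nat_lit 6) (nat_lit 106454) (nat_lit 23) (node (nat_lit 5)
  (nat_lit 105661) (nat_lit 24) nil nil) nil) (node (nat_lit 5) (nat_lit 104767) (nat_lit 22) nil
  (node (nat_lit 0) (nat_lit 107956) (nat_lit 22) nil nil))) (node (nat_lit 0) (nat_lit 106720)
  (nat_lit 21) nil nil))) (node (nat_lit 0) (nat_lit 128012) (nat_lit 20) nil nil)) (node (nat_lit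
  0) (nat_lit 149180) (nat_lit 19) nil nil))) (node (nat_lit 0) (nat_lit 152105) (nat_lit 18) nil
  nil))) (node (nat_lit 0) (nat_lit 158275) (nat_lit 17) (node (nat_lit 6) (nat_lit 158275)
  (nat_lit 18) nil (node (nat_lit 4) (nat_lit 158275) (nat_lit 18) nil (node (nat_lit 5) (nat_lit
  158275) (nat_lit 18) nil nil))) nil)) (node (nat_lit 0) (nat_lit 157996) (nat_lit 16) (node
  (nat_lit 6) (nat_lit 157996) (nat_lit 17) (node (nat_lit 5) (nat_lit 157996) (nat_lit 18) nil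
  (node (nat_lit 4) (nat_lit 157996) (nat_lit 18) nil nil)) (node (nat_lit 5) (nat_lit 157996)
  (nat_lit 17) (node (nat_lit 6) (nat_lit 157996) (nat_lit 18) nil nil) (node (nat_lit 4) (nat_lit
  157996) (nat_lit 17) nil nil))) nil)) (node (nat_lit 4) (nat_lit 0) (nat_lit 15) (node (nat_lit
  6) (nat_lit 0) (nat_lit 16) (node (nat_lit 4) (nat_lit 0) (nat_lit 17) (node (nat_lit 5)
  (nat_lit 0) (nat_lit 18) (node (nat_lit 6) (nat_lit 0) (nat_lit 19) (node (nat_lit 4) (nat_lit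
  0) (nat_lit 20) (node (nat_lit 6) (nat_lit 157418) (nat_lit 21) (node (nat_lit 5) (nat_lit
  159299) (nat_lit 22) (node (nat_lit 6) (nat_lit 159504) (nat_lit 23) (node (nat_lit 4) (nat_lit
  160184) (nat_lit 24) (node (nat_lit 5) (nat_lit 160024) (nat_lit 25) (node (nat_lit 6) (nat_lit
  159802) (nat_lit 26) (node (nat_lit 5) (nat_lit 159719) (nat_lit 27) (node (nat_lit 4) (nat_lit
  158757) (nat_lit 28) (node (nat_lit 6) (nat_lit 158504) (nat_lit 29) (node (nat_lit 4) (nat_lit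
  156688) (nat_lit 30) (node (nat_lit 5) (nat_lit 155120) (nat_lit 31) (node (nat_lit 4) (nat_lit
  154482) (nat_lit 32) (node (nat_lit 6) (nat_lit 150322) (nat_lit 33) (node (nat_lit 5) (nat_lit
  147134) (nat_lit 34) (node (nat_lit 6) (nat_lit 145655) (nat_lit 35) (node (nat_lit 4) (nat_lit
  137310) (nat_lit 36) (node (nat_lit 5) (nat_lit 142827) (nat_lit 37) (node (nat_lit 4) (nat_lit
  128887) (nat_lit 38) (node (nat_lit 6) (nat_lit 126702) (nat_lit 39) (node (nat_lit 4) (nat_lit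
  119585) (nat_lit 40) (node (nat_lit 5) (nat_lit 119988) (nat_lit 41) (node (nat_lit 6) (nat_lit
  100316) (nat_lit 42) (node (nat_lit 4) (nat_lit 100985) (nat_lit 43) (node (nat_lit 6) (nat_lit
  74358) (nat_lit 44) (node (nat_lit 5) (nat_lit 74358) (nat_lit 45) nil nil) nil) nil) nil) nil)
  nil) nil) nil) nil) nil) nil) nil) nil) nil) nil) nil) nil) nil) nil) nil) nil) nil) (node
  (nat_lit 4) (nat_lit 160156) (nat_lit 23) (node (nat_lit 5) (nat_lit 160975) (nat_lit 24) (node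
  (nat_lit 6) (nat_lit 161111) (nat_lit 25) (node (nat_lit 5) (nat_lit 161220) (nat_lit 26) (node
  (nat_lit 4) (nat_lit 160123) (nat_lit 27) (node (nat_lit 6) (nat_lit 159075) (nat_lit 28) (node
  (nat_lit 4) (nat_lit 156635) (nat_lit 29) (node (nat_lit 5) (nat_lit 156115) (nat_lit 30) (node
  (nat_lit 4) (nat_lit 156551) (nat_lit 31) (node (nat_lit 6) (nat_lit 153871) (nat_lit 32) (node
  (nat_lit 5) (nat_lit 150587) (nat_lit 33) (node (nat_lit 6) (nat_lit 144430) (nat_lit 34) (node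
  (nat_lit 4) (nat_lit 133126) (nat_lit 35) (node (nat_lit 5) (nat_lit 126339) (nat_lit 36) (node
  (nat_lit 4) (nat_lit 116784) (nat_lit 37) (node (nat_lit 6) (nat_lit 116803) (nat_lit 38) (node
  (nat_lit 4) (nat_lit 110391) (nat_lit 39) nil nil) nil) nil) nil) nil) nil) nil) nil) nil) nil)
  nil) nil) nil) nil) nil) (node (nat_lit 6) (nat_lit 160021) (nat_lit 24) nil nil)) nil)) nil)
  (node (nat_lit 0) (nat_lit 158051) (nat_lit 21) nil nil)) (node (nat_lit 5) (nat_lit 0) (nat_lit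
  20) (node (nat_lit 4) (nat_lit 156729) (nat_lit 21) (node (nat_lit 6) (nat_lit 151127) (nat_lit
  22) (node (nat_lit 4) (nat_lit 128226) (nat_lit 23) (node (nat_lit 5) (nat_lit 128777) (nat_lit
  24) (node (nat_lit 4) (nat_lit 127972) (nat_lit 25) (node (nat_lit 6) (nat_lit 127933) (nat_lit
  26) (node (nat_lit 5) (nat_lit 128067) (nat_lit 27) (node (nat_lit 6) (nat_lit 128246) (nat_lit
  28) (node (nat_lit 4) (nat_lit 128404) (nat_lit 29) (node (nat_lit 5) (nat_lit 74480) (nat_lit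
  30) (node (nat_lit 4) (nat_lit 74498) (nat_lit 31) nil nil) nil) nil) nil) nil) nil) nil) nil)
  (node (nat_lit 5) (nat_lit 152207) (nat_lit 23) (node (nat_lit 6) (nat_lit 151901) (nat_lit 24)
  nil nil) nil)) (node (nat_lit 5) (nat_lit 158623) (nat_lit 22) (node (nat_lit 6) (nat_lit
  159735) (nat_lit 23) (node (nat_lit 4) (nat_lit 160219) (nat_lit 24) nil nil) nil) nil)) (node
  (nat_lit 0) (nat_lit 157838) (nat_lit 21) nil nil)) (node (nat_lit 0) (nat_lit 157826) (nat_lit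
  20) nil nil))) (node (nat_lit 0) (nat_lit 157796) (nat_lit 19) nil nil)) (node (nat_lit 0)
  (nat_lit 159972) (nat_lit 18) nil nil)) (node (nat_lit 0) (nat_lit 162901) (nat_lit 17) (node
  (nat_lit 4) (nat_lit 162901) (nat_lit 18) nil (node (nat_lit 6) (nat_lit 162901) (nat_lit 18)
  nil nil)) nil)) (node (nat_lit 0) (nat_lit 163365) (nat_lit 16) (node (nat_lit 5) (nat_lit
  163365) (nat_lit 17) nil (node (nat_lit 6) (nat_lit 163365) (nat_lit 17) nil (node (nat_lit 4)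
  (nat_lit 163365) (nat_lit 17) nil nil))) nil)) (node (nat_lit 0) (nat_lit 165114) (nat_lit 15)
  (node (nat_lit 5) (nat_lit 165114) (nat_lit 16) (node (nat_lit 4) (nat_lit 165114) (nat_lit 17)
  nil (node (nat_lit 6) (nat_lit 165114) (nat_lit 17) nil nil)) (node (nat_lit 4) (nat_lit 165114)
  (nat_lit 16) (node (nat_lit 5) (nat_lit 165114) (nat_lit 17) nil (node (nat_lit 6) (nat_lit
  165114) (nat_lit 17) nil nil)) (node (nat_lit 6) (nat_lit 165114) (nat_lit 16) (node (nat_lit 5)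
  (nat_lit 165114) (nat_lit 17) nil (node (nat_lit 4) (nat_lit 165114) (nat_lit 17) nil nil))
  nil))) nil))) (node (nat_lit 6) (nat_lit 0) (nat_lit 14) (node (nat_lit 5) (nat_lit 0) (nat_lit
  15) (node (nat_lit 4) (nat_lit 0) (nat_lit 16) (node (nat_lit 5) (nat_lit 0) (nat_lit 17) (node
  (nat_lit 6) (nat_lit 0) (nat_lit 18) (node (nat_lit 4) (nat_lit 0) (nat_lit 19) (node (nat_lit
  5) (nat_lit 0) (nat_lit 20) (node (nat_lit 4) (nat_lit 0) (nat_lit 21) (node (nat_lit 6)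
  (nat_lit 161353) (nat_lit 22) (node (nat_lit 5) (nat_lit 162580) (nat_lit 23) (node (nat_lit 4)
  (nat_lit 163425) (nat_lit 24) (node (nat_lit 5) (nat_lit 163822) (nat_lit 25) (node (nat_lit 6)
  (nat_lit 164164) (nat_lit 26) (node (nat_lit 5) (nat_lit 164410) (nat_lit 27) (node (nat_lit 4)
  (nat_lit 164020) (nat_lit 28) (node (nat_lit 6) (nat_lit 163762) (nat_lit 29) (node (nat_lit 4)
  (nat_lit 162840) (nat_lit 30) (node (nat_lit 5) (nat_lit 161487) (nat_lit 31) (node (nat_lit 4)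
  (nat_lit 158890) (nat_lit 32) (node (nat_lit 6) (nat_lit 155226) (nat_lit 33) (node (nat_lit 5)
  (nat_lit 152843) (nat_lit 34) (node (nat_lit 6) (nat_lit 150671) (nat_lit 35) (node (nat_lit 4)
  (nat_lit 143886) (nat_lit 36) (node (nat_lit 6) (nat_lit 143921) (nat_lit 37) (node (nat_lit 5)
  (nat_lit 131749) (nat_lit 38) (node (nat_lit 4) (nat_lit 132282) (nat_lit 39) (node (nat_lit 5)
  (nat_lit 125634) (nat_lit 40) (node (nat_lit 6) (nat_lit 126398) (nat_lit 41) (node (nat_lit 4)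
  (nat_lit 93433) (nat_lit 42) (node (nat_lit 5) (nat_lit 93435) (nat_lit 43) (node (nat_lit 4)
  (nat_lit 93432) (nat_lit 44) (node (nat_lit 6) (nat_lit 93432) (nat_lit 45) nil nil) nil) nil)
  nil) nil) nil) nil) nil) nil) nil) nil) nil) nil) nil) nil) nil) nil) nil) nil) nil) nil) (node
  (nat_lit 6) (nat_lit 163284) (nat_lit 24) (node (nat_lit 4) (nat_lit 163815) (nat_lit 25) nil
  nil) nil)) (node (nat_lit 4) (nat_lit 161961) (nat_lit 23) (node (nat_lit 5) (nat_lit 162016)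
  (nat_lit 24) (node (nat_lit 6) (nat_lit 161851) (nat_lit 25) (node (nat_lit 5) (nat_lit 161992)
  (nat_lit 26) (node (nat_lit 4) (nat_lit 160910) (nat_lit 27) (node (nat_lit 6) (nat_lit 160670)
  (nat_lit 28) (node (nat_lit 4) (nat_lit 158396) (nat_lit 29) (node (nat_lit 5) (nat_lit 156640)
  (nat_lit 30) (node (nat_lit 4) (nat_lit 155851) (nat_lit 31) (node (nat_lit 6) (nat_lit 150739)
  (nat_lit 32) (node (nat_lit 5) (nat_lit 149260) (nat_lit 33) (node (nat_lit 6) (nat_lit 144631)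
  (nat_lit 34) (node (nat_lit 4) (nat_lit 141536) (nat_lit 35) (node (nat_lit 6) (nat_lit 138649)
  (nat_lit 36) (node (nat_lit 5) (nat_lit 132291) (nat_lit 37) (node (nat_lit 4) (nat_lit 128857)
  (nat_lit 38) (node (nat_lit 5) (nat_lit 124971) (nat_lit 39) (node (nat_lit 6) (nat_lit 125404)
  (nat_lit 40) (node (nat_lit 4) (nat_lit 89583) (nat_lit 41) (node (nat_lit 5) (nat_lit 90481)
  (nat_lit 42) nil nil) nil) nil) nil) nil) nil) nil) nil) nil) nil) nil) nil) nil) nil) nil) nil)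
  nil) nil) nil) nil)) (node (nat_lit 0) (nat_lit 166787) (nat_lit 22) nil nil)) (node (nat_lit 0)
  (nat_lit 167918) (nat_lit 21) nil nil)) (node (nat_lit 6) (nat_lit 0) (nat_lit 20) (node
  (nat_lit 5) (nat_lit 0) (nat_lit 21) (node (nat_lit 6) (nat_lit 161293) (nat_lit 22) (node
  (nat_lit 4) (nat_lit 162065) (nat_lit 23) (node (nat_lit 5) (nat_lit 162203) (nat_lit 24) (node
  (nat_lit 6) (nat_lit 162321) (nat_lit 25) (node (nat_lit 5) (nat_lit 162361) (nat_lit 26) (node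
  (nat_lit 4) (nat_lit 161947) (nat_lit 27) (node (nat_lit 6) (nat_lit 161769) (nat_lit 28) (node
  (nat_lit 4) (nat_lit 160460) (nat_lit 29) (node (nat_lit 5) (nat_lit 158499) (nat_lit 30) (node
  (nat_lit 4) (nat_lit 156974) (nat_lit 31) (node (nat_lit 6) (nat_lit 152505) (nat_lit 32) (node
  (nat_lit 5) (nat_lit 147941) (nat_lit 33) (node (nat_lit 6) (nat_lit 138821) (nat_lit 34) (node
  (nat_lit 4) (nat_lit 136921) (nat_lit 35) (node (nat_lit 6) (nat_lit 138212) (nat_lit 36) (node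
  (nat_lit 5) (nat_lit 128626) (nat_lit 37) (node (nat_lit 4) (nat_lit 121513) (nat_lit 38) (node
  (nat_lit 5) (nat_lit 121924) (nat_lit 39) (node (nat_lit 6) (nat_lit 103130) (nat_lit 40) nil
  nil) nil) nil) nil) nil) nil) nil) nil) nil) nil) nil) nil) nil) nil) nil) (node (nat_lit 4)
  (nat_lit 162682) (nat_lit 25) (node (nat_lit 6) (nat_lit 162243) (nat_lit 26) nil nil) nil))
  nil) nil) (node (nat_lit 0) (nat_lit 165651) (nat_lit 22) nil nil)) (node (nat_lit 0) (nat_lit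
  165879) (nat_lit 21) nil nil)) (node (nat_lit 0) (nat_lit 167638) (nat_lit 20) nil nil))) (node
  (nat_lit 5) (nat_lit 0) (nat_lit 19) (node (nat_lit 4) (nat_lit 0) (nat_lit 20) (node (nat_lit
  6) (nat_lit 0) (nat_lit 21) (node (nat_lit 5) (nat_lit 153590) (nat_lit 22) (node (nat_lit 6)
  (nat_lit 154596) (nat_lit 23) (node (nat_lit 4) (nat_lit 155276) (nat_lit 24) (node (nat_lit 5)
  (nat_lit 155116) (nat_lit 25) (node (nat_lit 6) (nat_lit 154894) (nat_lit 26) (node (nat_lit 5)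
  (nat_lit 154811) (nat_lit 27) (node (nat_lit 4) (nat_lit 153849) (nat_lit 28) (node (nat_lit 6)
  (nat_lit 153597) (nat_lit 29) (node (nat_lit 4) (nat_lit 151780) (nat_lit 30) (node (nat_lit 5)
  (nat_lit 150212) (nat_lit 31) (node (nat_lit 4) (nat_lit 149574) (nat_lit 32) (node (nat_lit 6)
  (nat_lit 145578) (nat_lit 33) (node (nat_lit 5) (nat_lit 144426) (nat_lit 34) (node (nat_lit 6)
  (nat_lit 137658) (nat_lit 35) (node (nat_lit 4) (nat_lit 132402) (nat_lit 36) (node (nat_lit 6)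
  (nat_lit 134524) (nat_lit 37) (node (nat_lit 5) (nat_lit 120010) (nat_lit 38) (node (nat_lit 4)
  (nat_lit 128820) (nat_lit 39) (node (nat_lit 5) (nat_lit 114113) (nat_lit 40) (node (nat_lit 6)
  (nat_lit 102576) (nat_lit 41) (node (nat_lit 5) (nat_lit 90871) (nat_lit 42) (node (nat_lit 4)
  (nat_lit 91521) (nat_lit 43) (node (nat_lit 6) (nat_lit 63659) (nat_lit 44) nil nil) nil) nil)
  nil) nil) nil) nil) nil) nil) nil) nil) nil) nil) nil) nil) nil) nil) nil) nil) nil) nil) nil)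
  (node (nat_lit 4) (nat_lit 0) (nat_lit 22) (node (nat_lit 5) (nat_lit 0) (nat_lit 23) (node
  (nat_lit 6) (nat_lit 149063) (nat_lit 24) (node (nat_lit 5) (nat_lit 149173) (nat_lit 25) (node
  (nat_lit 4) (nat_lit 149680) (nat_lit 26) nil nil) (node (nat_lit 4) (nat_lit 149671) (nat_lit
  25) (node (nat_lit 6) (nat_lit 149713) (nat_lit 26) nil nil) nil)) (node (nat_lit 4) (nat_lit
  121724) (nat_lit 24) (node (nat_lit 6) (nat_lit 122199) (nat_lit 25) (node (nat_lit 5) (nat_lit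
  122240) (nat_lit 26) (node (nat_lit 6) (nat_lit 93778) (nat_lit 27) (node (nat_lit 4) (nat_lit
  93841) (nat_lit 28) nil nil) nil) nil) nil) (node (nat_lit 0) (nat_lit 149836) (nat_lit 24) nil
  nil))) (node (nat_lit 0) (nat_lit 150146) (nat_lit 23) nil nil)) (node (nat_lit 0) (nat_lit
  157496) (nat_lit 22) nil nil))) (node (nat_lit 0) (nat_lit 157681) (nat_lit 21) nil nil)) (node
  (nat_lit 0) (nat_lit 159586) (nat_lit 20) nil nil)) (node (nat_lit 0) (nat_lit 168176) (nat_lit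
  19) nil nil))) (node (nat_lit 0) (nat_lit 167279) (nat_lit 18) (node (nat_lit 4) (nat_lit
  167279) (nat_lit 19) nil nil) nil)) (node (nat_lit 6) (nat_lit 0) (nat_lit 17) (node (nat_lit 4)
  (nat_lit 0) (nat_lit 18) (node (nat_lit 5) (nat_lit 0) (nat_lit 19) (node (nat_lit 6) (nat_lit
  0) (nat_lit 20) (node (nat_lit 4) (nat_lit 160941) (nat_lit 21) (node (nat_lit 6) (nat_lit
  162271) (nat_lit 22) (node (nat_lit 5) (nat_lit 163066) (nat_lit 23) (node (nat_lit 4) (nat_lit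
  163409) (nat_lit 24) (node (nat_lit 5) (nat_lit 163587) (nat_lit 25) (node (nat_lit 6) (nat_lit
  163682) (nat_lit 26) (node (nat_lit 5) (nat_lit 163927) (nat_lit 27) (node (nat_lit 4) (nat_lit
  162923) (nat_lit 28) (node (nat_lit 6) (nat_lit 162803) (nat_lit 29) (node (nat_lit 4) (nat_lit
  161000) (nat_lit 30) (node (nat_lit 5) (nat_lit 159502) (nat_lit 31) (node (nat_lit 4) (nat_lit
  160166) (nat_lit 32) (node (nat_lit 6) (nat_lit 156039) (nat_lit 33) (node (nat_lit 5) (nat_lit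
  158600) (nat_lit 34) (node (nat_lit 6) (nat_lit 154390) (nat_lit 35) (node (nat_lit 4) (nat_lit
  150632) (nat_lit 36) (node (nat_lit 6) (nat_lit 140322) (nat_lit 37) (node (nat_lit 5) (nat_lit
  140989) (nat_lit 38) (node (nat_lit 4) (nat_lit 135023) (nat_lit 39) nil nil) nil) nil) nil)
  nil) nil) nil) nil) nil) nil) nil) nil) nil) nil) nil) (node (nat_lit 6) (nat_lit 162932)
  (nat_lit 24) nil nil)) nil) nil) (node (nat_lit 5) (nat_lit 161047) (nat_lit 21) (node (nat_lit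
  4) (nat_lit 163153) (nat_lit 22) (node (nat_lit 6) (nat_lit 163879) (nat_lit 23) (node (nat_lit
  4) (nat_lit 155802) (nat_lit 24) nil (node (nat_lit 5) (nat_lit 163876) (nat_lit 24) nil nil))
  (node (nat_lit 5) (nat_lit 164498) (nat_lit 23) (node (nat_lit 6) (nat_lit 165071) (nat_lit 24)
  nil nil) nil)) nil) (node (nat_lit 0) (nat_lit 162269) (nat_lit 21) nil nil))) (node (nat_lit 4)
  (nat_lit 156401) (nat_lit 20) (node (nat_lit 6) (nat_lit 157763) (nat_lit 21) (node (nat_lit 5)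
  (nat_lit 159034) (nat_lit 22) (node (nat_lit 4) (nat_lit 160252) (nat_lit 23) (node (nat_lit 5)
  (nat_lit 160276) (nat_lit 24) (node (nat_lit 6) (nat_lit 160155) (nat_lit 25) (node (nat_lit 5)
  (nat_lit 160345) (nat_lit 26) (node (nat_lit 4) (nat_lit 158994) (nat_lit 27) (node (nat_lit 6)
  (nat_lit 158772) (nat_lit 28) (node (nat_lit 4) (nat_lit 156436) (nat_lit 29) (node (nat_lit 5)
  (nat_lit 154438) (nat_lit 30) (node (nat_lit 4) (nat_lit 153547) (nat_lit 31) (node (nat_lit 6)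
  (nat_lit 148520) (nat_lit 32) (node (nat_lit 5) (nat_lit 147000) (nat_lit 33) (node (nat_lit 6)
  (nat_lit 144197) (nat_lit 34) (node (nat_lit 4) (nat_lit 139989) (nat_lit 35) (node (nat_lit 6)
  (nat_lit 134318) (nat_lit 36) (node (nat_lit 5) (nat_lit 138068) (nat_lit 37) (node (nat_lit 4)
  (nat_lit 121934) (nat_lit 38) (node (nat_lit 6) (nat_lit 123693) (nat_lit 39) (node (nat_lit 4)
  (nat_lit 97360) (nat_lit 40) (node (nat_lit 5) (nat_lit 92325) (nat_lit 41) nil nil) nil) nil)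
  nil) nil) nil) nil) nil) nil) nil) nil) nil) nil) nil) nil) nil) nil) nil) nil) nil) nil) (node
  (nat_lit 0) (nat_lit 164717) (nat_lit 20) nil nil))) (node (nat_lit 0) (nat_lit 167186) (nat_lit
  19) nil nil)) (node (nat_lit 0) (nat_lit 165314) (nat_lit 18) nil nil)) (node (nat_lit 0)
  (nat_lit 168228) (nat_lit 17) (node (nat_lit 4) (nat_lit 168228) (nat_lit 18) nil nil) nil)))
  (node (nat_lit 0) (nat_lit 165969) (nat_lit 16) nil nil)) (node (nat_lit 0) (nat_lit 165685)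
  (nat_lit 15) (node (nat_lit 5) (nat_lit 165685) (nat_lit 16) nil (node (nat_lit 4) (nat_lit
  165685) (nat_lit 16) nil (node (nat_lit 6) (nat_lit 165685) (nat_lit 16) nil nil))) nil)) (node
  (nat_lit 0) (nat_lit 166100) (nat_lit 14) (node (nat_lit 5) (nat_lit 166100) (nat_lit 15) (node
  (nat_lit 6) (nat_lit 166100) (nat_lit 16) nil (node (nat_lit 4) (nat_lit 166100) (nat_lit 16)
  nil nil)) (node (nat_lit 4) (nat_lit 166100) (nat_lit 15) (node (nat_lit 5) (nat_lit 166100)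
  (nat_lit 16) (node (nat_lit 6) (nat_lit 166100) (nat_lit 17) (node (nat_lit 5) (nat_lit 166100)
  (nat_lit 18) (node (nat_lit 4) (nat_lit 166100) (nat_lit 19) (node (nat_lit 6) (nat_lit 166100)
  (nat_lit 20) (node (nat_lit 4) (nat_lit 166100) (nat_lit 21) (node (nat_lit 5) (nat_lit 166895)
  (nat_lit 22) nil nil) nil) nil) nil) nil) nil) (node (nat_lit 6) (nat_lit 166100) (nat_lit 16)
  nil nil)) (node (nat_lit 6) (nat_lit 166100) (nat_lit 15) (node (nat_lit 4) (nat_lit 166100)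
  (nat_lit 16) nil (node (nat_lit 5) (nat_lit 166100) (nat_lit 16) nil nil)) nil))) nil)))

noncomputable def t79 : Tr :=
  (node (nat_lit 4) (nat_lit 0) (nat_lit 12) (node (nat_lit 5) (nat_lit 0) (nat_lit 13) (node
  (nat_lit 6) (nat_lit 0) (nat_lit 14) (node (nat_lit 4) (nat_lit 0) (nat_lit 15) (node (nat_lit
  6) (nat_lit 0) (nat_lit 16) (node (nat_lit 5) (nat_lit 0) (nat_lit 17) (node (nat_lit 6)
  (nat_lit 0) (nat_lit 18) (node (nat_lit 4) (nat_lit 0) (nat_lit 19) (node (nat_lit 5) (nat_lit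
  153933) (nat_lit 20) (node (nat_lit 4) (nat_lit 156365) (nat_lit 21) (node (nat_lit 6) (nat_lit
  158014) (nat_lit 22) (node (nat_lit 5) (nat_lit 159046) (nat_lit 23) (node (nat_lit 4) (nat_lit
  159547) (nat_lit 24) (node (nat_lit 5) (nat_lit 159625) (nat_lit 25) (node (nat_lit 6) (nat_lit
  159683) (nat_lit 26) (node (nat_lit 5) (nat_lit 159628) (nat_lit 27) (node (nat_lit 4) (nat_lit
  159142) (nat_lit 28) (node (nat_lit 6) (nat_lit 159105) (nat_lit 29) (node (nat_lit 4) (nat_lit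
  158537) (nat_lit 30) (node (nat_lit 5) (nat_lit 157474) (nat_lit 31) (node (nat_lit 4) (nat_lit
  155144) (nat_lit 32) (node (nat_lit 6) (nat_lit 152539) (nat_lit 33) (node (nat_lit 5) (nat_lit
  146959) (nat_lit 34) nil nil) nil) nil) nil) nil) nil) nil) nil) nil) nil) (node (nat_lit 6)
  (nat_lit 158741) (nat_lit 24) nil nil)) (node (nat_lit 4) (nat_lit 159099) (nat_lit 23) (node
  (nat_lit 5) (nat_lit 159720) (nat_lit 24) (node (nat_lit 6) (nat_lit 159787) (nat_lit 25) (node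
  (nat_lit 5) (nat_lit 159725) (nat_lit 26) (node (nat_lit 4) (nat_lit 158605) (nat_lit 27) (node
  (nat_lit 6) (nat_lit 157941) (nat_lit 28) (node (nat_lit 4) (nat_lit 156924) (nat_lit 29) (node
  (nat_lit 5) (nat_lit 155801) (nat_lit 30) (node (nat_lit 4) (nat_lit 152904) (nat_lit 31) nil
  nil) nil) nil) nil) nil) nil) nil) nil) nil)) nil) (node (nat_lit 6) (nat_lit 155656) (nat_lit
  21) (node (nat_lit 5) (nat_lit 155495) (nat_lit 22) (node (nat_lit 4) (nat_lit 152952) (nat_lit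
  23) (node (nat_lit 6) (nat_lit 150220) (nat_lit 24) (node (nat_lit 4) (nat_lit 143668) (nat_lit
  25) (node (nat_lit 5) (nat_lit 141575) (nat_lit 26) (node (nat_lit 4) (nat_lit 115495) (nat_lit
  27) (node (nat_lit 6) (nat_lit 117813) (nat_lit 28) (node (nat_lit 5) (nat_lit 107393) (nat_lit
  29) (node (nat_lit 4) (nat_lit 100426) (nat_lit 30) (node (nat_lit 5) (nat_lit 100847) (nat_lit
  31) (node (nat_lit 6) (nat_lit 91761) (nat_lit 32) (node (nat_lit 4) (nat_lit 92450) (nat_lit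
  33) (node (nat_lit 6) (nat_lit 64038) (nat_lit 34) (node (nat_lit 5) (nat_lit 64035) (nat_lit
  35) nil nil) nil) nil) nil) nil) nil) nil) nil) nil) nil) nil) (node (nat_lit 5) (nat_lit
  152706) (nat_lit 24) nil nil)) nil) nil) nil)) (node (nat_lit 0) (nat_lit 155786) (nat_lit 20)
  nil nil)) (node (nat_lit 0) (nat_lit 157609) (nat_lit 19) nil nil)) (node (nat_lit 4) (nat_lit
  0) (nat_lit 18) (node (nat_lit 6) (nat_lit 0) (nat_lit 19) (node (nat_lit 4) (nat_lit 155583)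
  (nat_lit 20) (node (nat_lit 5) (nat_lit 157852) (nat_lit 21) (node (nat_lit 6) (nat_lit 158705)
  (nat_lit 22) (node (nat_lit 5) (nat_lit 158548) (nat_lit 23) (node (nat_lit 4) (nat_lit 157057)
  (nat_lit 24) (node (nat_lit 6) (nat_lit 155930) (nat_lit 25) (node (nat_lit 4) (nat_lit 144933)
  (nat_lit 26) nil nil) nil) nil) nil) (node (nat_lit 4) (nat_lit 158301) (nat_lit 22) (node
  (nat_lit 6) (nat_lit 157379) (nat_lit 23) (node (nat_lit 5) (nat_lit 157791) (nat_lit 24) (node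
  (nat_lit 6) (nat_lit 157552) (nat_lit 25) nil nil) nil) nil) nil)) nil) (node (nat_lit 0)
  (nat_lit 160692) (nat_lit 20) nil nil)) (node (nat_lit 5) (nat_lit 0) (nat_lit 19) (node
  (nat_lit 0) (nat_lit 154170) (nat_lit 20) nil nil) (node (nat_lit 0) (nat_lit 160128) (nat_lit
  19) nil nil))) (node (nat_lit 0) (nat_lit 159205) (nat_lit 18) nil nil))) (node (nat_lit 0)
  (nat_lit 163621) (nat_lit 17) nil nil)) (node (nat_lit 5) (nat_lit 0) (nat_lit 16) (node
  (nat_lit 4) (nat_lit 0) (nat_lit 17) (node (nat_lit 6) (nat_lit 0) (nat_lit 18) (node (nat_lit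
  5) (nat_lit 0) (nat_lit 19) (node (nat_lit 6) (nat_lit 0) (nat_lit 20) (node (nat_lit 4)
  (nat_lit 157000) (nat_lit 21) (node (nat_lit 5) (nat_lit 157057) (nat_lit 22) (node (nat_lit 6)
  (nat_lit 156448) (nat_lit 23) (node (nat_lit 5) (nat_lit 156391) (nat_lit 24) (node (nat_lit 4)
  (nat_lit 155661) (nat_lit 25) (node (nat_lit 6) (nat_lit 153963) (nat_lit 26) (node (nat_lit 4)
  (nat_lit 150024) (nat_lit 27) (node (nat_lit 5) (nat_lit 149660) (nat_lit 28) (node (nat_lit 4)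
  (nat_lit 144000) (nat_lit 29) (node (nat_lit 6) (nat_lit 141618) (nat_lit 30) (node (nat_lit 5)
  (nat_lit 133484) (nat_lit 31) (node (nat_lit 4) (nat_lit 119700) (nat_lit 32) (node (nat_lit 5)
  (nat_lit 116490) (nat_lit 33) (node (nat_lit 6) (nat_lit 120157) (nat_lit 34) (node (nat_lit 4)
  (nat_lit 102818) (nat_lit 35) nil nil) nil) nil) nil) nil) nil) nil) nil) nil) nil) nil) nil)
  nil) (node (nat_lit 6) (nat_lit 158549) (nat_lit 22) (node (nat_lit 5) (nat_lit 158790) (nat_lit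
  23) (node (nat_lit 4) (nat_lit 159171) (nat_lit 24) (node (nat_lit 5) (nat_lit 159352) (nat_lit
  25) (node (nat_lit 6) (nat_lit 159469) (nat_lit 26) (node (nat_lit 5) (nat_lit 159788) (nat_lit
  27) (node (nat_lit 4) (nat_lit 159048) (nat_lit 28) (node (nat_lit 6) (nat_lit 159265) (nat_lit
  29) (node (nat_lit 4) (nat_lit 158697) (nat_lit 30) (node (nat_lit 5) (nat_lit 157838) (nat_lit
  31) (node (nat_lit 4) (nat_lit 154940) (nat_lit 32) (node (nat_lit 6) (nat_lit 155207) (nat_lit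
  33) (node (nat_lit 5) (nat_lit 150603) (nat_lit 34) nil nil) nil) nil) nil) nil) nil) nil) nil)
  nil) nil) nil) nil) nil)) (node (nat_lit 0) (nat_lit 158397) (nat_lit 21) nil nil)) (node
  (nat_lit 4) (nat_lit 150611) (nat_lit 20) nil (node (nat_lit 0) (nat_lit 158525) (nat_lit 20)
  nil nil))) (node (nat_lit 4) (nat_lit 0) (nat_lit 19) (node (nat_lit 5) (nat_lit 152314)
  (nat_lit 20) (node (nat_lit 6) (nat_lit 155076) (nat_lit 21) (node (nat_lit 5) (nat_lit 156181)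
  (nat_lit 22) (node (nat_lit 4) (nat_lit 151790) (nat_lit 23) (node (nat_lit 6) (nat_lit 150117)
  (nat_lit 24) (node (nat_lit 4) (nat_lit 144274) (nat_lit 25) (node (nat_lit 5) (nat_lit 140045)
  (nat_lit 26) (node (nat_lit 4) (nat_lit 126196) (nat_lit 27) (node (nat_lit 6) (nat_lit 125348)
  (nat_lit 28) (node (nat_lit 5) (nat_lit 119352) (nat_lit 29) (node (nat_lit 4) (nat_lit 126376)
  (nat_lit 30) (node (nat_lit 5) (nat_lit 111670) (nat_lit 31) (node (nat_lit 6) (nat_lit 112070)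
  (nat_lit 32) (node (nat_lit 4) (nat_lit 76263) (nat_lit 33) nil nil) nil) nil) nil) nil) nil)
  nil) nil) (node (nat_lit 5) (nat_lit 150113) (nat_lit 25) nil nil)) (node (nat_lit 5) (nat_lit
  151544) (nat_lit 24) (node (nat_lit 6) (nat_lit 151030) (nat_lit 25) nil nil) nil)) nil) (node
  (nat_lit 4) (nat_lit 156324) (nat_lit 22) (node (nat_lit 6) (nat_lit 156416) (nat_lit 23) (node
  (nat_lit 5) (nat_lit 156152) (nat_lit 24) nil nil) nil) nil)) nil) (node (nat_lit 0) (nat_lit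
  153927) (nat_lit 20) nil nil)) (node (nat_lit 0) (nat_lit 158936) (nat_lit 19) nil nil))) (node
  (nat_lit 0) (nat_lit 161929) (nat_lit 18) nil nil)) (node (nat_lit 0) (nat_lit 158775) (nat_lit
  17) nil nil)) (node (nat_lit 0) (nat_lit 162704) (nat_lit 16) nil nil))) (node (nat_lit 5)
  (nat_lit 0) (nat_lit 15) (node (nat_lit 4) (nat_lit 0) (nat_lit 16) (node (nat_lit 6) (nat_lit
  0) (nat_lit 17) (node (nat_lit 5) (nat_lit 0) (nat_lit 18) (node (nat_lit 6) (nat_lit 0)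
  (nat_lit 19) (node (nat_lit 4) (nat_lit 132493) (nat_lit 20) (node (nat_lit 5) (nat_lit 133197)
  (nat_lit 21) (node (nat_lit 4) (nat_lit 133189) (nat_lit 22) (node (nat_lit 6) (nat_lit 133137)
  (nat_lit 23) (node (nat_lit 4) (nat_lit 133290) (nat_lit 24) (node (nat_lit 5) (nat_lit 133189)
  (nat_lit 25) (node (nat_lit 6) (nat_lit 132993) (nat_lit 26) (node (nat_lit 5) (nat_lit 132938)
  (nat_lit 27) (node (nat_lit 4) (nat_lit 132452) (nat_lit 28) (node (nat_lit 6) (nat_lit 132415)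
  (nat_lit 29) (node (nat_lit 4) (nat_lit 131847) (nat_lit 30) (node (nat_lit 5) (nat_lit 130988)
  (nat_lit 31) (node (nat_lit 4) (nat_lit 129869) (nat_lit 32) (node (nat_lit 6) (nat_lit 128633)
  (nat_lit 33) (node (nat_lit 5) (nat_lit 125693) (nat_lit 34) (node (nat_lit 4) (nat_lit 121892)
  (nat_lit 35) (node (nat_lit 5) (nat_lit 113028) (nat_lit 36) (node (nat_lit 6) (nat_lit 105643)
  (nat_lit 37) nil nil) nil) nil) nil) nil) nil) nil) nil) nil) nil) nil) nil) nil) (node (nat_lit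
  5) (nat_lit 133026) (nat_lit 24) (node (nat_lit 4) (nat_lit 133147) (nat_lit 25) (node (nat_lit
  5) (nat_lit 133076) (nat_lit 26) (node (nat_lit 6) (nat_lit 132924) (nat_lit 27) (node (nat_lit
  5) (nat_lit 132872) (nat_lit 28) (node (nat_lit 4) (nat_lit 132455) (nat_lit 29) (node (nat_lit
  6) (nat_lit 132400) (nat_lit 30) (node (nat_lit 4) (nat_lit 131853) (nat_lit 31) nil nil) nil)
  nil) nil) nil) nil) nil) nil)) nil) (node (nat_lit 6) (nat_lit 130999) (nat_lit 22) (node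
  (nat_lit 5) (nat_lit 130656) (nat_lit 23) (node (nat_lit 4) (nat_lit 129165) (nat_lit 24) (node
  (nat_lit 6) (nat_lit 123729) (nat_lit 25) (node (nat_lit 4) (nat_lit 122986) (nat_lit 26) (node
  (nat_lit 5) (nat_lit 120324) (nat_lit 27) (node (nat_lit 4) (nat_lit 114315) (nat_lit 28) (node
  (nat_lit 6) (nat_lit 106369) (nat_lit 29) (node (nat_lit 5) (nat_lit 91830) (nat_lit 30) (node
  (nat_lit 4) (nat_lit 108993) (nat_lit 31) (node (nat_lit 5) (nat_lit 99045) (nat_lit 32) (node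
  (nat_lit 6) (nat_lit 74392) (nat_lit 33) (node (nat_lit 5) (nat_lit 62680) (nat_lit 34) (node
  (nat_lit 4) (nat_lit 63258) (nat_lit 35) (node (nat_lit 6) (nat_lit 33456) (nat_lit 36) nil nil)
  nil) nil) nil) nil) nil) nil) nil) nil) nil) nil) (node (nat_lit 5) (nat_lit 129064) (nat_lit
  25) nil nil)) nil) nil) nil)) (node (nat_lit 6) (nat_lit 132797) (nat_lit 21) (node (nat_lit 5)
  (nat_lit 132604) (nat_lit 22) (node (nat_lit 4) (nat_lit 132534) (nat_lit 23) (node (nat_lit 5)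
  (nat_lit 132402) (nat_lit 24) (node (nat_lit 6) (nat_lit 132165) (nat_lit 25) (node (nat_lit 5)
  (nat_lit 132134) (nat_lit 26) (node (nat_lit 4) (nat_lit 131561) (nat_lit 27) (node (nat_lit 6)
  (nat_lit 131376) (nat_lit 28) (node (nat_lit 4) (nat_lit 130473) (nat_lit 29) (node (nat_lit 5)
  (nat_lit 129312) (nat_lit 30) (node (nat_lit 4) (nat_lit 127683) (nat_lit 31) (node (nat_lit 6)
  (nat_lit 125401) (nat_lit 32) (node (nat_lit 5) (nat_lit 121185) (nat_lit 33) (node (nat_lit 4)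
  (nat_lit 114347) (nat_lit 34) (node (nat_lit 5) (nat_lit 105117) (nat_lit 35) (node (nat_lit 6)
  (nat_lit 99507) (nat_lit 36) nil nil) nil) nil) nil) nil) nil) nil) nil) nil) nil) nil) nil)
  nil) nil) nil) nil)) (node (nat_lit 0) (nat_lit 134030) (nat_lit 20) nil nil)) (node (nat_lit 0)
  (nat_lit 133211) (nat_lit 19) nil nil)) (node (nat_lit 4) (nat_lit 0) (nat_lit 18) (node
  (nat_lit 5) (nat_lit 0) (nat_lit 19) (node (nat_lit 6) (nat_lit 90999) (nat_lit 20) (node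
  (nat_lit 4) (nat_lit 91233) (nat_lit 21) (node (nat_lit 6) (nat_lit 91415) (nat_lit 22) (node
  (nat_lit 5) (nat_lit 91299) (nat_lit 23) (node (nat_lit 4) (nat_lit 91208) (nat_lit 24) (node
  (nat_lit 5) (nat_lit 91293) (nat_lit 25) (node (nat_lit 6) (nat_lit 91360) (nat_lit 26) (node
  (nat_lit 5) (nat_lit 91413) (nat_lit 27) (node (nat_lit 4) (nat_lit 91378) (nat_lit 28) (node
  (nat_lit 6) (nat_lit 91391) (nat_lit 29) (node (nat_lit 4) (nat_lit 91405) (nat_lit 30) (node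
  (nat_lit 5) (nat_lit 91373) (nat_lit 31) (node (nat_lit 4) (nat_lit 91355) (nat_lit 32) (node
  (nat_lit 6) (nat_lit 91362) (nat_lit 33) (node (nat_lit 5) (nat_lit 91352) (nat_lit 34) nil nil)
  nil) nil) nil) nil) nil) nil) nil) nil) nil) nil) nil) nil) (node (nat_lit 5) (nat_lit 90004)
  (nat_lit 21) (node (nat_lit 4) (nat_lit 86922) (nat_lit 22) (node (nat_lit 5) (nat_lit 87065)
  (nat_lit 23) (node (nat_lit 6) (nat_lit 87178) (nat_lit 24) nil nil) nil) nil) nil)) (node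
  (nat_lit 4) (nat_lit 91962) (nat_lit 20) (node (nat_lit 6) (nat_lit 93338) (nat_lit 21) nil nil)
  (node (nat_lit 0) (nat_lit 92645) (nat_lit 20) nil nil))) (node (nat_lit 0) (nat_lit 95255)
  (nat_lit 19) nil nil)) (node (nat_lit 0) (nat_lit 131746) (nat_lit 18) nil nil))) (node (nat_lit
  0) (nat_lit 133534) (nat_lit 17) nil nil)) (node (nat_lit 0) (nat_lit 157899) (nat_lit 16) nil
  nil)) (node (nat_lit 0) (nat_lit 163820) (nat_lit 15) (node (nat_lit 5) (nat_lit 163820)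
  (nat_lit 16) nil (node (nat_lit 6) (nat_lit 163820) (nat_lit 16) nil (node (nat_lit 4) (nat_lit
  163820) (nat_lit 16) nil nil))) nil))) (node (nat_lit 0) (nat_lit 162676) (nat_lit 14) (node
  (nat_lit 4) (nat_lit 162676) (nat_lit 15) (node (nat_lit 5) (nat_lit 162676) (nat_lit 16) (node
  (nat_lit 6) (nat_lit 162676) (nat_lit 17) (node (nat_lit 5) (nat_lit 162676) (nat_lit 18) (node
  (nat_lit 4) (nat_lit 162676) (nat_lit 19) (node (nat_lit 6) (nat_lit 162676) (nat_lit 20) (node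
  (nat_lit 4) (nat_lit 162676) (nat_lit 21) (node (nat_lit 5) (nat_lit 163472) (nat_lit 22) nil
  nil) nil) nil) nil) nil) (node (nat_lit 4) (nat_lit 162676) (nat_lit 17) nil nil)) (node
  (nat_lit 6) (nat_lit 162676) (nat_lit 16) nil nil)) (node (nat_lit 5) (nat_lit 162676) (nat_lit
  15) (node (nat_lit 4) (nat_lit 162676) (nat_lit 16) nil (node (nat_lit 6) (nat_lit 162676)
  (nat_lit 16) nil nil)) (node (nat_lit 6) (nat_lit 162676) (nat_lit 15) (node (nat_lit 5)
  (nat_lit 162676) (nat_lit 16) nil (node (nat_lit 4) (nat_lit 162676) (nat_lit 16) nil nil))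
  nil))) nil)) (node (nat_lit 0) (nat_lit 163032) (nat_lit 13) (node (nat_lit 5) (nat_lit 163032)
  (nat_lit 14) (node (nat_lit 6) (nat_lit 163032) (nat_lit 15) (node (nat_lit 5) (nat_lit 163032)
  (nat_lit 16) nil nil) (node (nat_lit 4) (nat_lit 163032) (nat_lit 15) (node (nat_lit 5) (nat_lit
  163032) (nat_lit 16) (node (nat_lit 6) (nat_lit 163032) (nat_lit 17) (node (nat_lit 5) (nat_lit
  163032) (nat_lit 18) (node (nat_lit 4) (nat_lit 163032) (nat_lit 19) (node (nat_lit 6) (nat_lit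
  163222) (nat_lit 20) (node (nat_lit 4) (nat_lit 164389) (nat_lit 21) nil nil) nil) nil) nil)
  nil) (node (nat_lit 6) (nat_lit 163032) (nat_lit 16) nil nil)) nil)) (node (nat_lit 4) (nat_lit
  163032) (nat_lit 14) (node (nat_lit 5) (nat_lit 163032) (nat_lit 15) (node (nat_lit 6) (nat_lit
  163032) (nat_lit 16) (node (nat_lit 5) (nat_lit 163032) (nat_lit 17) (node (nat_lit 4) (nat_lit
  163032) (nat_lit 18) (node (nat_lit 6) (nat_lit 163032) (nat_lit 19) (node (nat_lit 4) (nat_lit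
  163032) (nat_lit 20) (node (nat_lit 5) (nat_lit 164051) (nat_lit 21) (node (nat_lit 4) (nat_lit
  164047) (nat_lit 22) (node (nat_lit 6) (nat_lit 163927) (nat_lit 23) (node (nat_lit 5) (nat_lit
  163663) (nat_lit 24) nil nil) nil) nil) nil) nil) nil) nil) nil) nil) (node (nat_lit 6) (nat_lit
  163032) (nat_lit 15) (node (nat_lit 5) (nat_lit 163032) (nat_lit 16) nil nil) nil)) (node
  (nat_lit 6) (nat_lit 163032) (nat_lit 14) (node (nat_lit 4) (nat_lit 163032) (nat_lit 15) nil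
  (node (nat_lit 5) (nat_lit 163032) (nat_lit 15) nil nil)) nil))) nil)) (node (nat_lit 0)
  (nat_lit 162934) (nat_lit 12) (node (nat_lit 6) (nat_lit 162934) (nat_lit 13) (node (nat_lit 4)
  (nat_lit 162934) (nat_lit 14) (node (nat_lit 5) (nat_lit 162934) (nat_lit 15) (node (nat_lit 6)
  (nat_lit 162934) (nat_lit 16) (node (nat_lit 5) (nat_lit 162934) (nat_lit 17) (node (nat_lit 4)
  (nat_lit 162934) (nat_lit 18) (node (nat_lit 6) (nat_lit 162934) (nat_lit 19) (node (nat_lit 4)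
  (nat_lit 165035) (nat_lit 20) (node (nat_lit 5) (nat_lit 166146) (nat_lit 21) (node (nat_lit 4)
  (nat_lit 167154) (nat_lit 22) (node (nat_lit 6) (nat_lit 167032) (nat_lit 23) nil nil) nil) nil)
  nil) nil) nil) nil) nil) nil) (node (nat_lit 5) (nat_lit 162934) (nat_lit 14) (node (nat_lit 6)
  (nat_lit 162934) (nat_lit 15) nil (node (nat_lit 4) (nat_lit 162934) (nat_lit 15) nil nil))
  nil)) (node (nat_lit 5) (nat_lit 162934) (nat_lit 13) (node (nat_lit 6) (nat_lit 162934)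
  (nat_lit 14) (node (nat_lit 5) (nat_lit 162934) (nat_lit 15) (node (nat_lit 4) (nat_lit 162934)
  (nat_lit 16) nil nil) (node (nat_lit 4) (nat_lit 162934) (nat_lit 15) nil nil)) (node (nat_lit
  4) (nat_lit 162934) (nat_lit 14) (node (nat_lit 5) (nat_lit 162934) (nat_lit 15) (node (nat_lit
  6) (nat_lit 162934) (nat_lit 16) (node (nat_lit 5) (nat_lit 162934) (nat_lit 17) (node (nat_lit
  4) (nat_lit 162934) (nat_lit 18) (node (nat_lit 6) (nat_lit 162934) (nat_lit 19) (node (nat_lit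
  4) (nat_lit 164698) (nat_lit 20) (node (nat_lit 5) (nat_lit 165459) (nat_lit 21) nil nil) nil)
  nil) nil) nil) nil) (node (nat_lit 6) (nat_lit 162934) (nat_lit 15) nil nil)) nil)) (node
  (nat_lit 4) (nat_lit 162934) (nat_lit 13) (node (nat_lit 5) (nat_lit 162934) (nat_lit 14) (node
  (nat_lit 6) (nat_lit 162934) (nat_lit 15) (node (nat_lit 5) (nat_lit 162934) (nat_lit 16) (node
  (nat_lit 4) (nat_lit 162934) (nat_lit 17) (node (nat_lit 6) (nat_lit 162934) (nat_lit 18) (node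
  (nat_lit 4) (nat_lit 162934) (nat_lit 19) (node (nat_lit 5) (nat_lit 164239) (nat_lit 20) (node
  (nat_lit 4) (nat_lit 164234) (nat_lit 21) (node (nat_lit 6) (nat_lit 164081) (nat_lit 22) (node
  (nat_lit 5) (nat_lit 163743) (nat_lit 23) nil nil) nil) nil) nil) nil) nil) nil) nil) nil) (node
  (nat_lit 6) (nat_lit 162934) (nat_lit 14) (node (nat_lit 4) (nat_lit 162934) (nat_lit 15) (node
  (nat_lit 5) (nat_lit 162934) (nat_lit 16) (node (nat_lit 6) (nat_lit 162934) (nat_lit 17) (node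
  (nat_lit 5) (nat_lit 162934) (nat_lit 18) (node (nat_lit 4) (nat_lit 162934) (nat_lit 19) (node
  (nat_lit 6) (nat_lit 164515) (nat_lit 20) nil nil) nil) nil) nil) nil) (node (nat_lit 5)
  (nat_lit 162934) (nat_lit 15) nil nil)) nil)) nil))) nil))

noncomputable def t80 : Tr :=
  (node (nat_lit 5) (nat_lit 0) (nat_lit 13) (node (nat_lit 4) (nat_lit 0) (nat_lit 14) (node
  (nat_lit 5) (nat_lit 0) (nat_lit 15) (node (nat_lit 6) (nat_lit 0) (nat_lit 16) (node (nat_lit
  4) (nat_lit 0) (nat_lit 17) (node (nat_lit 5) (nat_lit 0) (nat_lit 18) (node (nat_lit 4)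
  (nat_lit 0) (nat_lit 19) (node (nat_lit 6) (nat_lit 0) (nat_lit 20) (node (nat_lit 5) (nat_lit
  175156) (nat_lit 21) (node (nat_lit 6) (nat_lit 176647) (nat_lit 22) (node (nat_lit 4) (nat_lit
  177547) (nat_lit 23) (node (nat_lit 5) (nat_lit 177807) (nat_lit 24) (node (nat_lit 6) (nat_lit
  177911) (nat_lit 25) (node (nat_lit 5) (nat_lit 177865) (nat_lit 26) (node (nat_lit 4) (nat_lit
  177768) (nat_lit 27) (node (nat_lit 6) (nat_lit 176016) (nat_lit 28) (node (nat_lit 5) (nat_lit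
  175579) (nat_lit 29) (node (nat_lit 6) (nat_lit 175165) (nat_lit 30) (node (nat_lit 4) (nat_lit
  172202) (nat_lit 31) (node (nat_lit 5) (nat_lit 167464) (nat_lit 32) (node (nat_lit 4) (nat_lit
  162519) (nat_lit 33) (node (nat_lit 6) (nat_lit 158599) (nat_lit 34) (node (nat_lit 5) (nat_lit
  155003) (nat_lit 35) (node (nat_lit 4) (nat_lit 155758) (nat_lit 36) (node (nat_lit 5) (nat_lit
  150199) (nat_lit 37) (node (nat_lit 6) (nat_lit 150504) (nat_lit 38) (node (nat_lit 4) (nat_lit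
  131753) (nat_lit 39) (node (nat_lit 5) (nat_lit 129454) (nat_lit 40) (node (nat_lit 4) (nat_lit
  129460) (nat_lit 41) nil nil) nil) nil) nil) nil) nil) nil) nil) nil) nil) nil) nil) nil) nil)
  nil) nil) nil) nil) nil) nil) (node (nat_lit 4) (nat_lit 175235) (nat_lit 21) (node (nat_lit 5)
  (nat_lit 176458) (nat_lit 22) (node (nat_lit 6) (nat_lit 176819) (nat_lit 23) (node (nat_lit 5)
  (nat_lit 176165) (nat_lit 24) (node (nat_lit 4) (nat_lit 175564) (nat_lit 25) (node (nat_lit 6)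
  (nat_lit 173236) (nat_lit 26) (node (nat_lit 5) (nat_lit 169843) (nat_lit 27) (node (nat_lit 6)
  (nat_lit 168921) (nat_lit 28) (node (nat_lit 4) (nat_lit 161971) (nat_lit 29) (node (nat_lit 5)
  (nat_lit 153591) (nat_lit 30) (node (nat_lit 4) (nat_lit 151045) (nat_lit 31) (node (nat_lit 6)
  (nat_lit 151075) (nat_lit 32) (node (nat_lit 5) (nat_lit 151137) (nat_lit 33) (node (nat_lit 4)
  (nat_lit 145788) (nat_lit 34) (node (nat_lit 5) (nat_lit 137839) (nat_lit 35) (node (nat_lit 6)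
  (nat_lit 121916) (nat_lit 36) (node (nat_lit 4) (nat_lit 120034) (nat_lit 37) nil nil) nil) nil)
  nil) nil) nil) nil) nil) nil) nil) nil) nil) nil) nil) nil) nil) (node (nat_lit 0) (nat_lit
  177210) (nat_lit 21) nil nil))) (node (nat_lit 0) (nat_lit 179067) (nat_lit 20) nil nil)) (node
  (nat_lit 0) (nat_lit 176167) (nat_lit 19) nil nil)) (node (nat_lit 6) (nat_lit 0) (nat_lit 18)
  (node (nat_lit 5) (nat_lit 0) (nat_lit 19) (node (nat_lit 4) (nat_lit 0) (nat_lit 20) (node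
  (nat_lit 6) (nat_lit 173911) (nat_lit 21) (node (nat_lit 4) (nat_lit 175268) (nat_lit 22) (node
  (nat_lit 5) (nat_lit 175684) (nat_lit 23) (node (nat_lit 6) (nat_lit 175607) (nat_lit 24) (node
  (nat_lit 5) (nat_lit 174935) (nat_lit 25) (node (nat_lit 4) (nat_lit 175547) (nat_lit 26) (node
  (nat_lit 6) (nat_lit 173894) (nat_lit 27) (node (nat_lit 5) (nat_lit 171853) (nat_lit 28) (node
  (nat_lit 6) (nat_lit 170207) (nat_lit 29) (node (nat_lit 4) (nat_lit 165011) (nat_lit 30) (node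
  (nat_lit 5) (nat_lit 160896) (nat_lit 31) (node (nat_lit 4) (nat_lit 153536) (nat_lit 32) (node
  (nat_lit 6) (nat_lit 153689) (nat_lit 33) (node (nat_lit 5) (nat_lit 149840) (nat_lit 34) (node
  (nat_lit 4) (nat_lit 149354) (nat_lit 35) (node (nat_lit 5) (nat_lit 149363) (nat_lit 36) (node
  (nat_lit 6) (nat_lit 137226) (nat_lit 37) (node (nat_lit 4) (nat_lit 124488) (nat_lit 38) nil
  nil) nil) nil) nil) nil) nil) nil) nil) nil) nil) nil) nil) nil) nil) nil) nil) nil) (node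
  (nat_lit 5) (nat_lit 173139) (nat_lit 21) nil (node (nat_lit 0) (nat_lit 176078) (nat_lit 21)
  nil nil))) (node (nat_lit 6) (nat_lit 0) (nat_lit 20) (node (nat_lit 4) (nat_lit 174302)
  (nat_lit 21) (node (nat_lit 5) (nat_lit 175025) (nat_lit 22) (node (nat_lit 6) (nat_lit 174797)
  (nat_lit 23) (node (nat_lit 5) (nat_lit 174644) (nat_lit 24) (node (nat_lit 4) (nat_lit 173959)
  (nat_lit 25) (node (nat_lit 6) (nat_lit 171724) (nat_lit 26) (node (nat_lit 5) (nat_lit 159892)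
  (nat_lit 27) (node (nat_lit 6) (nat_lit 158946) (nat_lit 28) (node (nat_lit 4) (nat_lit 156970)
  (nat_lit 29) (node (nat_lit 5) (nat_lit 153146) (nat_lit 30) (node (nat_lit 4) (nat_lit 151300)
  (nat_lit 31) (node (nat_lit 6) (nat_lit 152253) (nat_lit 32) (node (nat_lit 5) (nat_lit 140873)
  (nat_lit 33) (node (nat_lit 4) (nat_lit 130539) (nat_lit 34) (node (nat_lit 5) (nat_lit 132298)
  (nat_lit 35) (node (nat_lit 6) (nat_lit 128644) (nat_lit 36) nil nil) nil) nil) nil) nil) nil)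
  nil) nil) nil) nil) nil) nil) nil) (node (nat_lit 4) (nat_lit 175021) (nat_lit 23) nil nil))
  nil) (node (nat_lit 0) (nat_lit 176789) (nat_lit 21) nil nil)) (node (nat_lit 0) (nat_lit
  175387) (nat_lit 20) nil nil))) (node (nat_lit 0) (nat_lit 175759) (nat_lit 19) nil nil)) (node
  (nat_lit 0) (nat_lit 175864) (nat_lit 18) nil nil))) (node (nat_lit 5) (nat_lit 0) (nat_lit 17)
  (node (nat_lit 4) (nat_lit 0) (nat_lit 18) (node (nat_lit 6) (nat_lit 0) (nat_lit 19) (node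
  (nat_lit 4) (nat_lit 0) (nat_lit 20) (node (nat_lit 5) (nat_lit 0) (nat_lit 21) (node (nat_lit
  6) (nat_lit 0) (nat_lit 22) (node (nat_lit 5) (nat_lit 162096) (nat_lit 23) (node (nat_lit 4)
  (nat_lit 161416) (nat_lit 24) (node (nat_lit 5) (nat_lit 162004) (nat_lit 25) (node (nat_lit 6)
  (nat_lit 162353) (nat_lit 26) nil nil) nil) nil) (node (nat_lit 4) (nat_lit 162700) (nat_lit 23)
  (node (nat_lit 6) (nat_lit 162941) (nat_lit 24) (node (nat_lit 5) (nat_lit 162321) (nat_lit 25)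
  nil nil) nil) (node (nat_lit 0) (nat_lit 164038) (nat_lit 23) nil nil))) (node (nat_lit 4)
  (nat_lit 161064) (nat_lit 22) (node (nat_lit 6) (nat_lit 162062) (nat_lit 23) (node (nat_lit 5)
  (nat_lit 162084) (nat_lit 24) (node (nat_lit 4) (nat_lit 162680) (nat_lit 25) (node (nat_lit 5)
  (nat_lit 162704) (nat_lit 26) (node (nat_lit 6) (nat_lit 162718) (nat_lit 27) (node (nat_lit 5)
  (nat_lit 162595) (nat_lit 28) nil nil) nil) nil) nil) nil) nil) (node (nat_lit 0) (nat_lit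
  164589) (nat_lit 22) nil nil))) (node (nat_lit 0) (nat_lit 165238) (nat_lit 21) nil nil)) (node
  (nat_lit 5) (nat_lit 0) (nat_lit 20) (node (nat_lit 6) (nat_lit 142836) (nat_lit 21) (node
  (nat_lit 4) (nat_lit 132089) (nat_lit 22) (node (nat_lit 5) (nat_lit 102211) (nat_lit 23) (node
  (nat_lit 6) (nat_lit 102079) (nat_lit 24) (node (nat_lit 5) (nat_lit 101451) (nat_lit 25) (node
  (nat_lit 4) (nat_lit 101209) (nat_lit 26) (node (nat_lit 6) (nat_lit 98863) (nat_lit 27) (node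
  (nat_lit 5) (nat_lit 97100) (nat_lit 28) nil nil) nil) nil) nil) (node (nat_lit 4) (nat_lit
  101992) (nat_lit 24) (node (nat_lit 6) (nat_lit 102073) (nat_lit 25) nil nil) nil)) nil) nil)
  (node (nat_lit 0) (nat_lit 148461) (nat_lit 21) nil nil)) (node (nat_lit 0) (nat_lit 163494)
  (nat_lit 20) nil nil))) (node (nat_lit 0) (nat_lit 165604) (nat_lit 19) nil nil)) (node (nat_lit
  0) (nat_lit 171307) (nat_lit 18) nil nil)) (node (nat_lit 0) (nat_lit 178675) (nat_lit 17) nil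
  nil))) (node (nat_lit 0) (nat_lit 181698) (nat_lit 16) (node (nat_lit 4) (nat_lit 181698)
  (nat_lit 17) nil (node (nat_lit 5) (nat_lit 181698) (nat_lit 17) nil (node (nat_lit 6) (nat_lit
  181698) (nat_lit 17) nil nil))) nil)) (node (nat_lit 0) (nat_lit 182986) (nat_lit 15) (node
  (nat_lit 5) (nat_lit 182986) (nat_lit 16) nil (node (nat_lit 4) (nat_lit 182986) (nat_lit 16)
  nil (node (nat_lit 6) (nat_lit 182986) (nat_lit 16) nil nil))) nil)) (node (nat_lit 0) (nat_lit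
  181973) (nat_lit 14) (node (nat_lit 5) (nat_lit 181973) (nat_lit 15) (node (nat_lit 6) (nat_lit
  181973) (nat_lit 16) nil (node (nat_lit 4) (nat_lit 181973) (nat_lit 16) nil nil)) (node
  (nat_lit 6) (nat_lit 181973) (nat_lit 15) (node (nat_lit 5) (nat_lit 181973) (nat_lit 16) nil
  nil) (node (nat_lit 4) (nat_lit 181973) (nat_lit 15) nil nil))) (node (nat_lit 6) (nat_lit 0)
  (nat_lit 14) (node (nat_lit 0) (nat_lit 180212) (nat_lit 15) (node (nat_lit 5) (nat_lit 180212)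
  (nat_lit 16) (node (nat_lit 6) (nat_lit 180212) (nat_lit 17) nil nil) (node (nat_lit 6) (nat_lit
  180212) (nat_lit 16) nil (node (nat_lit 4) (nat_lit 180212) (nat_lit 16) nil nil))) nil) nil)))
  (node (nat_lit 4) (nat_lit 0) (nat_lit 13) (node (nat_lit 5) (nat_lit 0) (nat_lit 14) (node
  (nat_lit 6) (nat_lit 0) (nat_lit 15) (node (nat_lit 5) (nat_lit 0) (nat_lit 16) (node (nat_lit
  4) (nat_lit 0) (nat_lit 17) (node (nat_lit 6) (nat_lit 0) (nat_lit 18) (node (nat_lit 5)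
  (nat_lit 0) (nat_lit 19) (node (nat_lit 6) (nat_lit 0) (nat_lit 20) (node (nat_lit 4) (nat_lit
  124072) (nat_lit 21) (node (nat_lit 6) (nat_lit 124929) (nat_lit 22) (node (nat_lit 5) (nat_lit
  125143) (nat_lit 23) (node (nat_lit 4) (nat_lit 125310) (nat_lit 24) (node (nat_lit 5) (nat_lit
  125821) (nat_lit 25) (node (nat_lit 6) (nat_lit 126118) (nat_lit 26) (node (nat_lit 5) (nat_lit
  126109) (nat_lit 27) (node (nat_lit 4) (nat_lit 126059) (nat_lit 28) (node (nat_lit 6) (nat_lit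
  125041) (nat_lit 29) nil nil) nil) nil) nil) nil) nil) nil) (node (nat_lit 5) (nat_lit 124823)
  (nat_lit 22) (node (nat_lit 6) (nat_lit 124654) (nat_lit 23) (node (nat_lit 5) (nat_lit 124396)
  (nat_lit 24) (node (nat_lit 4) (nat_lit 124051) (nat_lit 25) (node (nat_lit 6) (nat_lit 122645)
  (nat_lit 26) nil nil) nil) nil) (node (nat_lit 4) (nat_lit 73960) (nat_lit 23) nil nil)) nil))
  (node (nat_lit 0) (nat_lit 129484) (nat_lit 21) nil nil)) (node (nat_lit 0) (nat_lit 129918)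
  (nat_lit 20) nil nil)) (node (nat_lit 4) (nat_lit 0) (nat_lit 19) (node (nat_lit 5) (nat_lit 0)
  (nat_lit 20) (node (nat_lit 4) (nat_lit 150624) (nat_lit 21) (node (nat_lit 6) (nat_lit 151638)
  (nat_lit 22) (node (nat_lit 5) (nat_lit 152718) (nat_lit 23) (node (nat_lit 4) (nat_lit 153373)
  (nat_lit 24) (node (nat_lit 5) (nat_lit 153736) (nat_lit 25) (node (nat_lit 6) (nat_lit 153850)
  (nat_lit 26) nil nil) nil) (node (nat_lit 6) (nat_lit 152413) (nat_lit 24) nil nil)) nil) nil)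
  (node (nat_lit 0) (nat_lit 152491) (nat_lit 21) nil nil)) (node (nat_lit 0) (nat_lit 155099)
  (nat_lit 20) nil nil)) (node (nat_lit 0) (nat_lit 156336) (nat_lit 19) nil nil))) (node (nat_lit
  5) (nat_lit 0) (nat_lit 18) (node (nat_lit 6) (nat_lit 0) (nat_lit 19) (node (nat_lit 4)
  (nat_lit 0) (nat_lit 20) (node (nat_lit 6) (nat_lit 167816) (nat_lit 21) (node (nat_lit 5)
  (nat_lit 169241) (nat_lit 22) (node (nat_lit 4) (nat_lit 170246) (nat_lit 23) (node (nat_lit 5)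
  (nat_lit 170901) (nat_lit 24) (node (nat_lit 6) (nat_lit 171105) (nat_lit 25) (node (nat_lit 5)
  (nat_lit 171128) (nat_lit 26) (node (nat_lit 4) (nat_lit 166944) (nat_lit 27) (node (nat_lit 6)
  (nat_lit 165155) (nat_lit 28) (node (nat_lit 5) (nat_lit 163671) (nat_lit 29) (node (nat_lit 6)
  (nat_lit 163058) (nat_lit 30) (node (nat_lit 4) (nat_lit 159120) (nat_lit 31) (node (nat_lit 5)
  (nat_lit 157884) (nat_lit 32) (node (nat_lit 4) (nat_lit 151058) (nat_lit 33) (node (nat_lit 6)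
  (nat_lit 145805) (nat_lit 34) (node (nat_lit 4) (nat_lit 145077) (nat_lit 35) (node (nat_lit 5)
  (nat_lit 137424) (nat_lit 36) (node (nat_lit 6) (nat_lit 140366) (nat_lit 37) (node (nat_lit 5)
  (nat_lit 126799) (nat_lit 38) (node (nat_lit 4) (nat_lit 117126) (nat_lit 39) (node (nat_lit 5)
  (nat_lit 118168) (nat_lit 40) (node (nat_lit 6) (nat_lit 91811) (nat_lit 41) (node (nat_lit 4)
  (nat_lit 91814) (nat_lit 42) (node (nat_lit 6) (nat_lit 91816) (nat_lit 43) nil nil) nil) nil)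
  nil) nil) nil) nil) nil) nil) nil) nil) nil) nil) nil) nil) nil) nil) nil) nil) nil) (node
  (nat_lit 6) (nat_lit 170419) (nat_lit 23) (node (nat_lit 4) (nat_lit 171322) (nat_lit 24) (node
  (nat_lit 5) (nat_lit 171569) (nat_lit 25) nil nil) nil) nil)) nil) (node (nat_lit 5) (nat_lit
  166379) (nat_lit 21) (node (nat_lit 4) (nat_lit 167556) (nat_lit 22) (node (nat_lit 6) (nat_lit
  167567) (nat_lit 23) (node (nat_lit 4) (nat_lit 168171) (nat_lit 24) (node (nat_lit 5) (nat_lit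
  168272) (nat_lit 25) (node (nat_lit 6) (nat_lit 167975) (nat_lit 26) nil nil) nil) nil) nil)
  nil) (node (nat_lit 0) (nat_lit 168693) (nat_lit 21) nil nil))) (node (nat_lit 0) (nat_lit
  166008) (nat_lit 20) nil nil)) (node (nat_lit 0) (nat_lit 165739) (nat_lit 19) nil nil)) (node
  (nat_lit 0) (nat_lit 168310) (nat_lit 18) nil nil))) (node (nat_lit 0) (nat_lit 172529) (nat_lit
  17) nil nil)) (node (nat_lit 4) (nat_lit 0) (nat_lit 16) (node (nat_lit 6) (nat_lit 0) (nat_lit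
  17) (node (nat_lit 5) (nat_lit 0) (nat_lit 18) (node (nat_lit 4) (nat_lit 0) (nat_lit 19) (node
  (nat_lit 6) (nat_lit 167783) (nat_lit 20) (node (nat_lit 4) (nat_lit 170085) (nat_lit 21) (node
  (nat_lit 5) (nat_lit 171443) (nat_lit 22) (node (nat_lit 6) (nat_lit 171601) (nat_lit 23) (node
  (nat_lit 5) (nat_lit 172077) (nat_lit 24) (node (nat_lit 4) (nat_lit 172051) (nat_lit 25) (node
  (nat_lit 6) (nat_lit 169775) (nat_lit 26) (node (nat_lit 5) (nat_lit 166376) (nat_lit 27) (node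
  (nat_lit 6) (nat_lit 165117) (nat_lit 28) (node (nat_lit 4) (nat_lit 161765) (nat_lit 29) (node
  (nat_lit 5) (nat_lit 155944) (nat_lit 30) (node (nat_lit 4) (nat_lit 144273) (nat_lit 31) (node
  (nat_lit 6) (nat_lit 143355) (nat_lit 32) (node (nat_lit 4) (nat_lit 139563) (nat_lit 33) (node
  (nat_lit 5) (nat_lit 140178) (nat_lit 34) (node (nat_lit 6) (nat_lit 123638) (nat_lit 35) (node
  (nat_lit 4) (nat_lit 74941) (nat_lit 36) (node (nat_lit 6) (nat_lit 74932) (nat_lit 37) (node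
  (nat_lit 5) (nat_lit 74930) (nat_lit 38) (node (nat_lit 4) (nat_lit 73825) (nat_lit 39) nil nil)
  nil) nil) nil) nil) nil) nil) nil) nil) nil) nil) nil) nil) nil) nil) nil) (node (nat_lit 4)
  (nat_lit 171439) (nat_lit 23) nil nil)) nil) nil) (node (nat_lit 5) (nat_lit 0) (nat_lit 20)
  (node (nat_lit 6) (nat_lit 170380) (nat_lit 21) (node (nat_lit 5) (nat_lit 164382) (nat_lit 22)
  (node (nat_lit 4) (nat_lit 165585) (nat_lit 23) (node (nat_lit 6) (nat_lit 163305) (nat_lit 24)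
  (node (nat_lit 5) (nat_lit 161611) (nat_lit 25) (node (nat_lit 6) (nat_lit 160944) (nat_lit 26)
  (node (nat_lit 4) (nat_lit 155309) (nat_lit 27) (node (nat_lit 5) (nat_lit 149589) (nat_lit 28)
  (node (nat_lit 4) (nat_lit 142959) (nat_lit 29) (node (nat_lit 6) (nat_lit 122688) (nat_lit 30)
  (node (nat_lit 4) (nat_lit 113634) (nat_lit 31) (node (nat_lit 5) (nat_lit 97704) (nat_lit 32)
  (node (nat_lit 6) (nat_lit 97649) (nat_lit 33) (node (nat_lit 4) (nat_lit 97672) (nat_lit 34)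
  (node (nat_lit 6) (nat_lit 97690) (nat_lit 35) nil nil) nil) nil) nil) nil) nil) nil) nil) nil)
  nil) nil) nil) nil) (node (nat_lit 4) (nat_lit 171622) (nat_lit 22) (node (nat_lit 5) (nat_lit
  172242) (nat_lit 23) nil nil) nil)) (node (nat_lit 0) (nat_lit 172625) (nat_lit 21) nil nil))
  (node (nat_lit 0) (nat_lit 171660) (nat_lit 20) nil nil))) (node (nat_lit 6) (nat_lit 167237)
  (nat_lit 19) (node (nat_lit 4) (nat_lit 169787) (nat_lit 20) (node (nat_lit 5) (nat_lit 171034)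
  (nat_lit 21) (node (nat_lit 6) (nat_lit 170999) (nat_lit 22) (node (nat_lit 5) (nat_lit 170292)
  (nat_lit 23) (node (nat_lit 4) (nat_lit 168698) (nat_lit 24) (node (nat_lit 6) (nat_lit 164891)
  (nat_lit 25) (node (nat_lit 5) (nat_lit 163686) (nat_lit 26) (node (nat_lit 6) (nat_lit 159208)
  (nat_lit 27) (node (nat_lit 4) (nat_lit 150630) (nat_lit 28) (node (nat_lit 5) (nat_lit 130359)
  (nat_lit 29) (node (nat_lit 4) (nat_lit 127005) (nat_lit 30) (node (nat_lit 6) (nat_lit 127009)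
  (nat_lit 31) (node (nat_lit 4) (nat_lit 127082) (nat_lit 32) (node (nat_lit 5) (nat_lit 127041)
  (nat_lit 33) (node (nat_lit 6) (nat_lit 115538) (nat_lit 34) (node (nat_lit 4) (nat_lit 116219)
  (nat_lit 35) (node (nat_lit 6) (nat_lit 82024) (nat_lit 36) nil nil) nil) nil) nil) nil) nil)
  nil) nil) nil) nil) nil) nil) nil) nil) (node (nat_lit 4) (nat_lit 172687) (nat_lit 22) (node
  (nat_lit 6) (nat_lit 172937) (nat_lit 23) (node (nat_lit 4) (nat_lit 173729) (nat_lit 24) (node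
  (nat_lit 5) (nat_lit 174028) (nat_lit 25) nil nil) nil) nil) nil)) nil) nil) (node (nat_lit 0)
  (nat_lit 174901) (nat_lit 19) nil nil))) (node (nat_lit 0) (nat_lit 175226) (nat_lit 18) nil
  nil)) (node (nat_lit 0) (nat_lit 177346) (nat_lit 17) nil nil)) (node (nat_lit 0) (nat_lit
  179304) (nat_lit 16) nil nil))) (node (nat_lit 0) (nat_lit 179562) (nat_lit 15) (node (nat_lit
  5) (nat_lit 179562) (nat_lit 16) nil (node (nat_lit 4) (nat_lit 179562) (nat_lit 16) nil (node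
  (nat_lit 6) (nat_lit 179562) (nat_lit 16) nil nil))) nil)) (node (nat_lit 0) (nat_lit 179922)
  (nat_lit 14) (node (nat_lit 6) (nat_lit 179922) (nat_lit 15) (node (nat_lit 4) (nat_lit 179922)
  (nat_lit 16) nil nil) (node (nat_lit 4) (nat_lit 179922) (nat_lit 15) nil (node (nat_lit 5)
  (nat_lit 179922) (nat_lit 15) nil nil))) nil)) (node (nat_lit 0) (nat_lit 180945) (nat_lit 13)
  (node (nat_lit 5) (nat_lit 180945) (nat_lit 14) (node (nat_lit 6) (nat_lit 180945) (nat_lit 15)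
  nil (node (nat_lit 4) (nat_lit 180945) (nat_lit 15) nil nil)) (node (nat_lit 4) (nat_lit 180945)
  (nat_lit 14) (node (nat_lit 5) (nat_lit 180945) (nat_lit 15) (node (nat_lit 6) (nat_lit 180945)
  (nat_lit 16) (node (nat_lit 5) (nat_lit 180945) (nat_lit 17) (node (nat_lit 4) (nat_lit 180945)
  (nat_lit 18) (node (nat_lit 6) (nat_lit 180945) (nat_lit 19) (node (nat_lit 5) (nat_lit 180945)
  (nat_lit 20) (node (nat_lit 6) (nat_lit 181964) (nat_lit 21) nil nil) nil) nil) nil) nil) nil)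
  (node (nat_lit 6) (nat_lit 180945) (nat_lit 15) (node (nat_lit 4) (nat_lit 180945) (nat_lit 16)
  nil (node (nat_lit 5) (nat_lit 180945) (nat_lit 16) nil nil)) nil)) (node (nat_lit 6) (nat_lit
  180945) (nat_lit 14) (node (nat_lit 4) (nat_lit 180945) (nat_lit 15) nil (node (nat_lit 5)
  (nat_lit 180945) (nat_lit 15) nil nil)) nil))) nil)))

noncomputable def t81 : Tr :=
  (node (nat_lit 5) (nat_lit 0) (nat_lit 12) (node (nat_lit 4) (nat_lit 0) (nat_lit 13) (node
  (nat_lit 5) (nat_lit 0) (nat_lit 14) (node (nat_lit 6) (nat_lit 0) (nat_lit 15) (node (nat_lit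
  4) (nat_lit 0) (nat_lit 16) (node (nat_lit 6) (nat_lit 0) (nat_lit 17) (node (nat_lit 5)
  (nat_lit 0) (nat_lit 18) (node (nat_lit 4) (nat_lit 0) (nat_lit 19) (node (nat_lit 6) (nat_lit
  0) (nat_lit 20) (node (nat_lit 4) (nat_lit 0) (nat_lit 21) (node (nat_lit 5) (nat_lit 136102)
  (nat_lit 22) (node (nat_lit 6) (nat_lit 135464) (nat_lit 23) (node (nat_lit 5) (nat_lit 135123)
  (nat_lit 24) (node (nat_lit 4) (nat_lit 135252) (nat_lit 25) (node (nat_lit 6) (nat_lit 132805)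
  (nat_lit 26) (node (nat_lit 5) (nat_lit 129468) (nat_lit 27) (node (nat_lit 6) (nat_lit 125825)
  (nat_lit 28) (node (nat_lit 4) (nat_lit 126613) (nat_lit 29) (node (nat_lit 5) (nat_lit 118440)
  (nat_lit 30) (node (nat_lit 6) (nat_lit 117041) (nat_lit 31) (node (nat_lit 5) (nat_lit 106062)
  (nat_lit 32) (node (nat_lit 4) (nat_lit 102822) (nat_lit 33) (node (nat_lit 5) (nat_lit 106507)
  (nat_lit 34) (node (nat_lit 6) (nat_lit 89134) (nat_lit 35) (node (nat_lit 4) (nat_lit 78490)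
  (nat_lit 36) (node (nat_lit 6) (nat_lit 75571) (nat_lit 37) (node (nat_lit 5) (nat_lit 75570)
  (nat_lit 38) (node (nat_lit 4) (nat_lit 75573) (nat_lit 39) nil nil) nil) nil) nil) nil) nil)
  nil) nil) nil) nil) nil) nil) nil) nil) nil) (node (nat_lit 4) (nat_lit 135948) (nat_lit 24) nil
  nil)) (node (nat_lit 4) (nat_lit 137085) (nat_lit 23) (node (nat_lit 6) (nat_lit 137520)
  (nat_lit 24) (node (nat_lit 5) (nat_lit 137313) (nat_lit 25) nil nil) nil) nil)) (node (nat_lit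
  0) (nat_lit 138472) (nat_lit 22) nil nil)) (node (nat_lit 0) (nat_lit 140335) (nat_lit 21) nil
  nil)) (node (nat_lit 5) (nat_lit 0) (nat_lit 20) (node (nat_lit 6) (nat_lit 0) (nat_lit 21)
  (node (nat_lit 5) (nat_lit 130878) (nat_lit 22) (node (nat_lit 4) (nat_lit 132277) (nat_lit 23)
  (node (nat_lit 6) (nat_lit 131731) (nat_lit 24) (node (nat_lit 5) (nat_lit 125766) (nat_lit 25)
  (node (nat_lit 6) (nat_lit 119588) (nat_lit 26) (node (nat_lit 4) (nat_lit 114705) (nat_lit 27)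
  (node (nat_lit 5) (nat_lit 107025) (nat_lit 28) (node (nat_lit 6) (nat_lit 98454) (nat_lit 29)
  (node (nat_lit 5) (nat_lit 96128) (nat_lit 30) (node (nat_lit 4) (nat_lit 86869) (nat_lit 31)
  (node (nat_lit 5) (nat_lit 87408) (nat_lit 32) nil nil) nil) nil) nil) nil) nil) nil) (node
  (nat_lit 4) (nat_lit 132361) (nat_lit 25) (node (nat_lit 5) (nat_lit 132874) (nat_lit 26) (node
  (nat_lit 6) (nat_lit 133056) (nat_lit 27) nil nil) nil) nil)) nil) nil) (node (nat_lit 0)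
  (nat_lit 135905) (nat_lit 22) nil nil)) (node (nat_lit 0) (nat_lit 138134) (nat_lit 21) nil
  nil)) (node (nat_lit 0) (nat_lit 138191) (nat_lit 20) nil nil))) (node (nat_lit 6) (nat_lit 0)
  (nat_lit 19) (node (nat_lit 4) (nat_lit 133258) (nat_lit 20) (node (nat_lit 5) (nat_lit 134707)
  (nat_lit 21) (node (nat_lit 4) (nat_lit 136035) (nat_lit 22) (node (nat_lit 6) (nat_lit 136524)
  (nat_lit 23) (node (nat_lit 4) (nat_lit 137381) (nat_lit 24) (node (nat_lit 5) (nat_lit 137803)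
  (nat_lit 25) (node (nat_lit 6) (nat_lit 137791) (nat_lit 26) (node (nat_lit 5) (nat_lit 137580)
  (nat_lit 27) (node (nat_lit 4) (nat_lit 136841) (nat_lit 28) (node (nat_lit 6) (nat_lit 135791)
  (nat_lit 29) (node (nat_lit 5) (nat_lit 134099) (nat_lit 30) (node (nat_lit 6) (nat_lit 133822)
  (nat_lit 31) (node (nat_lit 4) (nat_lit 132013) (nat_lit 32) (node (nat_lit 5) (nat_lit 120027)
  (nat_lit 33) (node (nat_lit 6) (nat_lit 122686) (nat_lit 34) (node (nat_lit 5) (nat_lit 118805)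
  (nat_lit 35) (node (nat_lit 4) (nat_lit 116186) (nat_lit 36) (node (nat_lit 5) (nat_lit 116334)
  (nat_lit 37) (node (nat_lit 6) (nat_lit 105343) (nat_lit 38) (node (nat_lit 4) (nat_lit 107571)
  (nat_lit 39) (node (nat_lit 6) (nat_lit 99169) (nat_lit 40) (node (nat_lit 5) (nat_lit 91218)
  (nat_lit 41) (node (nat_lit 6) (nat_lit 74722) (nat_lit 42) (node (nat_lit 4) (nat_lit 74724)
  (nat_lit 43) (node (nat_lit 5) (nat_lit 74725) (nat_lit 44) (node (nat_lit 4) (nat_lit 74726)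
  (nat_lit 45) nil nil) nil) nil) nil) nil) nil) nil) nil) nil) nil) nil) nil) nil) nil) nil) nil)
  nil) nil) nil) nil) nil) nil) nil) (node (nat_lit 6) (nat_lit 135040) (nat_lit 22) (node
  (nat_lit 5) (nat_lit 135171) (nat_lit 23) (node (nat_lit 4) (nat_lit 135523) (nat_lit 24) (node
  (nat_lit 6) (nat_lit 135874) (nat_lit 25) (node (nat_lit 5) (nat_lit 136249) (nat_lit 26) (node
  (nat_lit 6) (nat_lit 136336) (nat_lit 27) (node (nat_lit 4) (nat_lit 129261) (nat_lit 28) (node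
  (nat_lit 5) (nat_lit 119161) (nat_lit 29) nil nil) nil) nil) nil) nil) nil) nil) nil)) nil)
  (node (nat_lit 0) (nat_lit 135582) (nat_lit 20) nil nil)) (node (nat_lit 0) (nat_lit 140910)
  (nat_lit 19) nil nil))) (node (nat_lit 0) (nat_lit 142242) (nat_lit 18) nil nil)) (node (nat_lit
  5) (nat_lit 0) (nat_lit 17) (node (nat_lit 4) (nat_lit 0) (nat_lit 18) (node (nat_lit 6)
  (nat_lit 0) (nat_lit 19) (node (nat_lit 5) (nat_lit 132712) (nat_lit 20) (node (nat_lit 4)
  (nat_lit 135039) (nat_lit 21) (node (nat_lit 5) (nat_lit 135957) (nat_lit 22) (node (nat_lit 6)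
  (nat_lit 136246) (nat_lit 23) (node (nat_lit 5) (nat_lit 135387) (nat_lit 24) (node (nat_lit 4)
  (nat_lit 137453) (nat_lit 25) (node (nat_lit 6) (nat_lit 135191) (nat_lit 26) (node (nat_lit 5)
  (nat_lit 130499) (nat_lit 27) (node (nat_lit 6) (nat_lit 128865) (nat_lit 28) (node (nat_lit 4)
  (nat_lit 126194) (nat_lit 29) (node (nat_lit 5) (nat_lit 118264) (nat_lit 30) (node (nat_lit 6)
  (nat_lit 113183) (nat_lit 31) (node (nat_lit 5) (nat_lit 102477) (nat_lit 32) (node (nat_lit 4)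
  (nat_lit 102969) (nat_lit 33) (node (nat_lit 5) (nat_lit 96316) (nat_lit 34) (node (nat_lit 6)
  (nat_lit 97064) (nat_lit 35) (node (nat_lit 4) (nat_lit 72927) (nat_lit 36) nil nil) nil) nil)
  nil) nil) nil) nil) nil) nil) nil) nil) nil) (node (nat_lit 4) (nat_lit 136730) (nat_lit 24) nil
  nil)) nil) nil) (node (nat_lit 6) (nat_lit 134930) (nat_lit 21) (node (nat_lit 4) (nat_lit
  135739) (nat_lit 22) (node (nat_lit 5) (nat_lit 136204) (nat_lit 23) (node (nat_lit 6) (nat_lit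
  136406) (nat_lit 24) nil nil) nil) nil) nil)) (node (nat_lit 4) (nat_lit 132899) (nat_lit 20)
  (node (nat_lit 5) (nat_lit 134303) (nat_lit 21) (node (nat_lit 6) (nat_lit 134118) (nat_lit 22)
  (node (nat_lit 5) (nat_lit 133015) (nat_lit 23) (node (nat_lit 4) (nat_lit 131830) (nat_lit 24)
  (node (nat_lit 6) (nat_lit 128005) (nat_lit 25) (node (nat_lit 5) (nat_lit 125830) (nat_lit 26)
  (node (nat_lit 6) (nat_lit 123895) (nat_lit 27) (node (nat_lit 4) (nat_lit 122082) (nat_lit 28)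
  (node (nat_lit 5) (nat_lit 116366) (nat_lit 29) (node (nat_lit 6) (nat_lit 104824) (nat_lit 30)
  (node (nat_lit 5) (nat_lit 103860) (nat_lit 31) (node (nat_lit 4) (nat_lit 100524) (nat_lit 32)
  (node (nat_lit 5) (nat_lit 76046) (nat_lit 33) (node (nat_lit 6) (nat_lit 75963) (nat_lit 34)
  (node (nat_lit 4) (nat_lit 75977) (nat_lit 35) (node (nat_lit 5) (nat_lit 75988) (nat_lit 36)
  (node (nat_lit 4) (nat_lit 75997) (nat_lit 37) nil nil) nil) nil) nil) nil) nil) nil) nil) nil)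
  nil) nil) nil) nil) nil) (node (nat_lit 4) (nat_lit 134907) (nat_lit 23) (node (nat_lit 6)
  (nat_lit 134978) (nat_lit 24) nil nil) nil)) nil) nil) (node (nat_lit 0) (nat_lit 135330)
  (nat_lit 20) nil nil))) (node (nat_lit 0) (nat_lit 136813) (nat_lit 19) nil nil)) (node (nat_lit
  0) (nat_lit 141641) (nat_lit 18) nil nil)) (node (nat_lit 0) (nat_lit 139614) (nat_lit 17) nil
  nil))) (node (nat_lit 0) (nat_lit 139787) (nat_lit 16) nil nil)) (node (nat_lit 0) (nat_lit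
  138977) (nat_lit 15) (node (nat_lit 4) (nat_lit 138977) (nat_lit 16) nil nil) nil)) (node
  (nat_lit 6) (nat_lit 0) (nat_lit 14) (node (nat_lit 4) (nat_lit 0) (nat_lit 15) (node (nat_lit
  5) (nat_lit 0) (nat_lit 16) (node (nat_lit 6) (nat_lit 0) (nat_lit 17) (node (nat_lit 4)
  (nat_lit 0) (nat_lit 18) (node (nat_lit 6) (nat_lit 0) (nat_lit 19) (node (nat_lit 5) (nat_lit
  135382) (nat_lit 20) (node (nat_lit 4) (nat_lit 137591) (nat_lit 21) (node (nat_lit 6) (nat_lit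
  139138) (nat_lit 22) (node (nat_lit 4) (nat_lit 140172) (nat_lit 23) (node (nat_lit 5) (nat_lit
  140922) (nat_lit 24) (node (nat_lit 6) (nat_lit 140463) (nat_lit 25) (node (nat_lit 5) (nat_lit
  139979) (nat_lit 26) (node (nat_lit 4) (nat_lit 139668) (nat_lit 27) (node (nat_lit 6) (nat_lit
  139332) (nat_lit 28) (node (nat_lit 5) (nat_lit 137855) (nat_lit 29) (node (nat_lit 6) (nat_lit
  135649) (nat_lit 30) (node (nat_lit 4) (nat_lit 133637) (nat_lit 31) (node (nat_lit 5) (nat_lit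
  128158) (nat_lit 32) (node (nat_lit 6) (nat_lit 126259) (nat_lit 33) (node (nat_lit 5) (nat_lit
  125748) (nat_lit 34) (node (nat_lit 4) (nat_lit 116377) (nat_lit 35) (node (nat_lit 6) (nat_lit
  104552) (nat_lit 36) (node (nat_lit 4) (nat_lit 101363) (nat_lit 37) (node (nat_lit 5) (nat_lit
  105048) (nat_lit 38) (node (nat_lit 6) (nat_lit 87688) (nat_lit 39) (node (nat_lit 4) (nat_lit
  76700) (nat_lit 40) (node (nat_lit 6) (nat_lit 76695) (nat_lit 41) (node (nat_lit 5) (nat_lit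
  76695) (nat_lit 42) (node (nat_lit 4) (nat_lit 76695) (nat_lit 43) nil nil) nil) nil) nil) nil)
  nil) nil) nil) nil) nil) nil) nil) nil) nil) nil) nil) nil) nil) nil) nil) nil) (node (nat_lit
  5) (nat_lit 138148) (nat_lit 22) (node (nat_lit 6) (nat_lit 139198) (nat_lit 23) (node (nat_lit
  5) (nat_lit 138462) (nat_lit 24) (node (nat_lit 4) (nat_lit 138095) (nat_lit 25) (node (nat_lit
  6) (nat_lit 136190) (nat_lit 26) (node (nat_lit 5) (nat_lit 132395) (nat_lit 27) (node (nat_lit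
  6) (nat_lit 131739) (nat_lit 28) (node (nat_lit 4) (nat_lit 127647) (nat_lit 29) (node (nat_lit
  5) (nat_lit 120379) (nat_lit 30) nil nil) nil) nil) nil) nil) nil) nil) nil) nil)) (node
  (nat_lit 6) (nat_lit 137117) (nat_lit 21) (node (nat_lit 4) (nat_lit 138127) (nat_lit 22) (node
  (nat_lit 5) (nat_lit 138593) (nat_lit 23) (node (nat_lit 4) (nat_lit 138589) (nat_lit 24) nil
  nil) nil) nil) nil)) (node (nat_lit 0) (nat_lit 137262) (nat_lit 20) nil nil)) (node (nat_lit 0)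
  (nat_lit 138242) (nat_lit 19) nil nil)) (node (nat_lit 5) (nat_lit 0) (nat_lit 18) (node
  (nat_lit 0) (nat_lit 135538) (nat_lit 19) nil nil) (node (nat_lit 0) (nat_lit 140776) (nat_lit
  18) nil nil))) (node (nat_lit 4) (nat_lit 0) (nat_lit 17) (node (nat_lit 6) (nat_lit 0) (nat_lit
  18) (node (nat_lit 5) (nat_lit 0) (nat_lit 19) (node (nat_lit 6) (nat_lit 0) (nat_lit 20) (node
  (nat_lit 4) (nat_lit 136335) (nat_lit 21) (node (nat_lit 5) (nat_lit 137078) (nat_lit 22) (node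
  (nat_lit 6) (nat_lit 137338) (nat_lit 23) (node (nat_lit 5) (nat_lit 137440) (nat_lit 24) (node
  (nat_lit 4) (nat_lit 137715) (nat_lit 25) (node (nat_lit 6) (nat_lit 137989) (nat_lit 26) (node
  (nat_lit 5) (nat_lit 138281) (nat_lit 27) (node (nat_lit 6) (nat_lit 136960) (nat_lit 28) (node
  (nat_lit 4) (nat_lit 133197) (nat_lit 29) (node (nat_lit 5) (nat_lit 124311) (nat_lit 30) nil
  nil) nil) nil) nil) nil) nil) nil) (node (nat_lit 4) (nat_lit 137074) (nat_lit 23) nil nil))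
  (node (nat_lit 6) (nat_lit 137823) (nat_lit 22) (node (nat_lit 5) (nat_lit 137765) (nat_lit 23)
  (node (nat_lit 4) (nat_lit 137779) (nat_lit 24) (node (nat_lit 5) (nat_lit 137856) (nat_lit 25)
  (node (nat_lit 6) (nat_lit 137971) (nat_lit 26) (node (nat_lit 5) (nat_lit 137961) (nat_lit 27)
  (node (nat_lit 4) (nat_lit 137911) (nat_lit 28) (node (nat_lit 6) (nat_lit 137555) (nat_lit 29)
  nil nil) nil) nil) nil) nil) nil) nil) nil)) (node (nat_lit 0) (nat_lit 138267) (nat_lit 21) nil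
  nil)) (node (nat_lit 4) (nat_lit 134676) (nat_lit 20) (node (nat_lit 5) (nat_lit 135164)
  (nat_lit 21) (node (nat_lit 6) (nat_lit 135296) (nat_lit 22) (node (nat_lit 5) (nat_lit 134171)
  (nat_lit 23) (node (nat_lit 4) (nat_lit 135545) (nat_lit 24) (node (nat_lit 6) (nat_lit 132601)
  (nat_lit 25) (node (nat_lit 5) (nat_lit 129207) (nat_lit 26) (node (nat_lit 6) (nat_lit 125331)
  (nat_lit 27) (node (nat_lit 4) (nat_lit 119259) (nat_lit 28) (node (nat_lit 5) (nat_lit 107406)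
  (nat_lit 29) (node (nat_lit 6) (nat_lit 103847) (nat_lit 30) (node (nat_lit 5) (nat_lit 105009)
  (nat_lit 31) (node (nat_lit 4) (nat_lit 97044) (nat_lit 32) nil nil) nil) nil) nil) nil) nil)
  nil) nil) nil) (node (nat_lit 4) (nat_lit 135916) (nat_lit 23) nil nil)) nil) nil) (node
  (nat_lit 0) (nat_lit 136233) (nat_lit 20) nil nil))) (node (nat_lit 0) (nat_lit 137952) (nat_lit
  19) nil nil)) (node (nat_lit 0) (nat_lit 138839) (nat_lit 18) nil nil)) (node (nat_lit 0)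
  (nat_lit 140277) (nat_lit 17) nil nil))) (node (nat_lit 0) (nat_lit 142058) (nat_lit 16) (node
  (nat_lit 6) (nat_lit 142058) (nat_lit 17) nil (node (nat_lit 5) (nat_lit 142058) (nat_lit 17)
  nil (node (nat_lit 4) (nat_lit 142058) (nat_lit 17) nil nil))) nil)) (node (nat_lit 0) (nat_lit
  140966) (nat_lit 15) (node (nat_lit 5) (nat_lit 140966) (nat_lit 16) nil (node (nat_lit 6)
  (nat_lit 140966) (nat_lit 16) nil (node (nat_lit 4) (nat_lit 140966) (nat_lit 16) nil nil)))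
  (node (nat_lit 5) (nat_lit 0) (nat_lit 15) (node (nat_lit 0) (nat_lit 76657) (nat_lit 16) nil
  nil) nil))) (node (nat_lit 0) (nat_lit 139723) (nat_lit 14) (node (nat_lit 4) (nat_lit 139723)
  (nat_lit 15) (node (nat_lit 6) (nat_lit 139723) (nat_lit 16) nil (node (nat_lit 5) (nat_lit
  139723) (nat_lit 16) nil nil)) (node (nat_lit 5) (nat_lit 139723) (nat_lit 15) (node (nat_lit 4)
  (nat_lit 139723) (nat_lit 16) nil (node (nat_lit 6) (nat_lit 139723) (nat_lit 16) nil nil))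
  (node (nat_lit 6) (nat_lit 139723) (nat_lit 15) (node (nat_lit 4) (nat_lit 139723) (nat_lit 16)
  nil nil) nil))) nil))) (node (nat_lit 0) (nat_lit 138013) (nat_lit 13) (node (nat_lit 6)
  (nat_lit 138013) (nat_lit 14) (node (nat_lit 5) (nat_lit 138013) (nat_lit 15) (node (nat_lit 4)
  (nat_lit 138013) (nat_lit 16) (node (nat_lit 6) (nat_lit 138013) (nat_lit 17) nil (node (nat_lit
  5) (nat_lit 138013) (nat_lit 17) nil nil)) (node (nat_lit 6) (nat_lit 138013) (nat_lit 16) (node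
  (nat_lit 4) (nat_lit 138013) (nat_lit 17) nil nil) nil)) (node (nat_lit 4) (nat_lit 138013)
  (nat_lit 15) (node (nat_lit 5) (nat_lit 138013) (nat_lit 16) nil nil) nil)) (node (nat_lit 5)
  (nat_lit 138013) (nat_lit 14) (node (nat_lit 6) (nat_lit 138013) (nat_lit 15) (node (nat_lit 4)
  (nat_lit 138013) (nat_lit 16) nil nil) (node (nat_lit 4) (nat_lit 138013) (nat_lit 15) (node
  (nat_lit 6) (nat_lit 138013) (nat_lit 16) nil nil) nil)) (node (nat_lit 4) (nat_lit 138013)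
  (nat_lit 14) (node (nat_lit 5) (nat_lit 138013) (nat_lit 15) (node (nat_lit 6) (nat_lit 138013)
  (nat_lit 16) (node (nat_lit 5) (nat_lit 138013) (nat_lit 17) (node (nat_lit 4) (nat_lit 138013)
  (nat_lit 18) (node (nat_lit 6) (nat_lit 138013) (nat_lit 19) (node (nat_lit 5) (nat_lit 138013)
  (nat_lit 20) (node (nat_lit 6) (nat_lit 139032) (nat_lit 21) nil nil) nil) nil) nil) nil) (node
  (nat_lit 4) (nat_lit 138013) (nat_lit 16) nil nil)) (node (nat_lit 6) (nat_lit 138013) (nat_lit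
  15) (node (nat_lit 5) (nat_lit 138013) (nat_lit 16) nil nil) nil)) nil))) nil)) (node (nat_lit
  0) (nat_lit 157647) (nat_lit 12) (node (nat_lit 5) (nat_lit 157647) (nat_lit 13) (node (nat_lit
  6) (nat_lit 157647) (nat_lit 14) nil (node (nat_lit 4) (nat_lit 157647) (nat_lit 14) (node
  (nat_lit 5) (nat_lit 157647) (nat_lit 15) (node (nat_lit 6) (nat_lit 157647) (nat_lit 16) (node
  (nat_lit 5) (nat_lit 157647) (nat_lit 17) (node (nat_lit 4) (nat_lit 157647) (nat_lit 18) (node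
  (nat_lit 6) (nat_lit 157647) (nat_lit 19) (node (nat_lit 5) (nat_lit 158099) (nat_lit 20) (node
  (nat_lit 6) (nat_lit 159130) (nat_lit 21) (node (nat_lit 4) (nat_lit 159560) (nat_lit 22) (node
  (nat_lit 5) (nat_lit 159086) (nat_lit 23) (node (nat_lit 6) (nat_lit 159417) (nat_lit 24) nil
  nil) nil) nil) nil) nil) nil) nil) nil) nil) nil) nil)) (node (nat_lit 4) (nat_lit 157647)
  (nat_lit 13) (node (nat_lit 5) (nat_lit 157647) (nat_lit 14) (node (nat_lit 6) (nat_lit 157647)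
  (nat_lit 15) (node (nat_lit 5) (nat_lit 157647) (nat_lit 16) (node (nat_lit 4) (nat_lit 157647)
  (nat_lit 17) (node (nat_lit 6) (nat_lit 157647) (nat_lit 18) (node (nat_lit 5) (nat_lit 157647)
  (nat_lit 19) (node (nat_lit 6) (nat_lit 158953) (nat_lit 20) (node (nat_lit 4) (nat_lit 159972)
  (nat_lit 21) (node (nat_lit 5) (nat_lit 160767) (nat_lit 22) (node (nat_lit 6) (nat_lit 160859)
  (nat_lit 23) nil nil) nil) nil) nil) nil) nil) nil) nil) nil) (node (nat_lit 6) (nat_lit 157647)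
  (nat_lit 14) (node (nat_lit 4) (nat_lit 157647) (nat_lit 15) (node (nat_lit 5) (nat_lit 157647)
  (nat_lit 16) (node (nat_lit 6) (nat_lit 157647) (nat_lit 17) (node (nat_lit 5) (nat_lit 157647)
  (nat_lit 18) (node (nat_lit 4) (nat_lit 157647) (nat_lit 19) (node (nat_lit 6) (nat_lit 159228)
  (nat_lit 20) nil nil) nil) nil) nil) nil) nil) nil)) (node (nat_lit 6) (nat_lit 157647) (nat_lit
  13) (node (nat_lit 4) (nat_lit 157647) (nat_lit 14) (node (nat_lit 5) (nat_lit 157647) (nat_lit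
  15) (node (nat_lit 6) (nat_lit 157647) (nat_lit 16) (node (nat_lit 5) (nat_lit 157647) (nat_lit
  17) (node (nat_lit 4) (nat_lit 157647) (nat_lit 18) (node (nat_lit 6) (nat_lit 157647) (nat_lit
  19) (node (nat_lit 5) (nat_lit 159748) (nat_lit 20) (node (nat_lit 6) (nat_lit 161389) (nat_lit
  21) nil nil) nil) nil) nil) nil) nil) nil) (node (nat_lit 5) (nat_lit 157647) (nat_lit 14) nil
  nil)) nil))) nil))

noncomputable def t82 : Tr :=
  (node (nat_lit 5) (nat_lit 0) (nat_lit 13) (node (nat_lit 6) (nat_lit 0) (nat_lit 14) (node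
  (nat_lit 4) (nat_lit 0) (nat_lit 15) (node (nat_lit 5) (nat_lit 0) (nat_lit 16) (node (nat_lit
  4) (nat_lit 0) (nat_lit 17) (node (nat_lit 6) (nat_lit 0) (nat_lit 18) (node (nat_lit 5)
  (nat_lit 0) (nat_lit 19) (node (nat_lit 6) (nat_lit 160278) (nat_lit 20) (node (nat_lit 4)
  (nat_lit 0) (nat_lit 21) (node (nat_lit 5) (nat_lit 163204) (nat_lit 22) (node (nat_lit 6)
  (nat_lit 162522) (nat_lit 23) (node (nat_lit 5) (nat_lit 161580) (nat_lit 24) (node (nat_lit 4)
  (nat_lit 162386) (nat_lit 25) (node (nat_lit 6) (nat_lit 159815) (nat_lit 26) (node (nat_lit 5)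
  (nat_lit 159735) (nat_lit 27) (node (nat_lit 6) (nat_lit 155082) (nat_lit 28) (node (nat_lit 4)
  (nat_lit 150283) (nat_lit 29) (node (nat_lit 6) (nat_lit 146429) (nat_lit 30) (node (nat_lit 5)
  (nat_lit 142839) (nat_lit 31) (node (nat_lit 4) (nat_lit 141846) (nat_lit 32) (node (nat_lit 5)
  (nat_lit 137345) (nat_lit 33) (node (nat_lit 6) (nat_lit 137631) (nat_lit 34) (node (nat_lit 4)
  (nat_lit 119650) (nat_lit 35) (node (nat_lit 5) (nat_lit 113269) (nat_lit 36) (node (nat_lit 4)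
  (nat_lit 113935) (nat_lit 37) (node (nat_lit 6) (nat_lit 79737) (nat_lit 38) nil nil) nil) nil)
  nil) nil) nil) nil) nil) nil) nil) nil) nil) nil) nil) nil) (node (nat_lit 4) (nat_lit 163712)
  (nat_lit 23) nil nil)) (node (nat_lit 6) (nat_lit 163842) (nat_lit 22) (node (nat_lit 5)
  (nat_lit 163973) (nat_lit 23) (node (nat_lit 4) (nat_lit 164282) (nat_lit 24) (node (nat_lit 5)
  (nat_lit 164359) (nat_lit 25) (node (nat_lit 6) (nat_lit 164474) (nat_lit 26) (node (nat_lit 5)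
  (nat_lit 164464) (nat_lit 27) (node (nat_lit 4) (nat_lit 164414) (nat_lit 28) (node (nat_lit 6)
  (nat_lit 164013) (nat_lit 29) nil nil) nil) nil) nil) nil) nil) nil) (node (nat_lit 0) (nat_lit
  165985) (nat_lit 22) nil nil))) nil) (node (nat_lit 4) (nat_lit 159366) (nat_lit 20) (node
  (nat_lit 5) (nat_lit 0) (nat_lit 21) (node (nat_lit 6) (nat_lit 160166) (nat_lit 22) (node
  (nat_lit 5) (nat_lit 159918) (nat_lit 23) (node (nat_lit 4) (nat_lit 158971) (nat_lit 24) (node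
  (nat_lit 6) (nat_lit 156990) (nat_lit 25) (node (nat_lit 5) (nat_lit 154056) (nat_lit 26) (node
  (nat_lit 6) (nat_lit 147327) (nat_lit 27) (node (nat_lit 4) (nat_lit 141031) (nat_lit 28) (node
  (nat_lit 6) (nat_lit 136149) (nat_lit 29) (node (nat_lit 5) (nat_lit 131485) (nat_lit 30) (node
  (nat_lit 4) (nat_lit 138270) (nat_lit 31) (node (nat_lit 5) (nat_lit 107039) (nat_lit 32) (node
  (nat_lit 6) (nat_lit 107068) (nat_lit 33) (node (nat_lit 4) (nat_lit 107091) (nat_lit 34) (node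
  (nat_lit 5) (nat_lit 107109) (nat_lit 35) (node (nat_lit 4) (nat_lit 107096) (nat_lit 36) (node
  (nat_lit 6) (nat_lit 107100) (nat_lit 37) nil nil) nil) nil) nil) nil) nil) nil) nil) nil) nil)
  nil) nil) nil) nil) (node (nat_lit 4) (nat_lit 160786) (nat_lit 23) nil nil)) (node (nat_lit 0)
  (nat_lit 162704) (nat_lit 22) nil nil)) nil) (node (nat_lit 0) (nat_lit 165917) (nat_lit 20) nil
  nil))) (node (nat_lit 4) (nat_lit 0) (nat_lit 19) (node (nat_lit 5) (nat_lit 0) (nat_lit 20)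
  (node (nat_lit 6) (nat_lit 161896) (nat_lit 21) (node (nat_lit 5) (nat_lit 160234) (nat_lit 22)
  (node (nat_lit 4) (nat_lit 161311) (nat_lit 23) (node (nat_lit 6) (nat_lit 160003) (nat_lit 24)
  (node (nat_lit 5) (nat_lit 154840) (nat_lit 25) (node (nat_lit 6) (nat_lit 150348) (nat_lit 26)
  (node (nat_lit 4) (nat_lit 147341) (nat_lit 27) (node (nat_lit 6) (nat_lit 136745) (nat_lit 28)
  (node (nat_lit 5) (nat_lit 132608) (nat_lit 29) (node (nat_lit 4) (nat_lit 132763) (nat_lit 30)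
  (node (nat_lit 5) (nat_lit 103595) (nat_lit 31) (node (nat_lit 6) (nat_lit 103507) (nat_lit 32)
  (node (nat_lit 4) (nat_lit 100559) (nat_lit 33) (node (nat_lit 5) (nat_lit 101473) (nat_lit 34)
  (node (nat_lit 4) (nat_lit 57246) (nat_lit 35) nil nil) nil) nil) nil) nil) nil) nil) nil) nil)
  nil) (node (nat_lit 4) (nat_lit 159744) (nat_lit 25) nil nil)) (node (nat_lit 5) (nat_lit
  161416) (nat_lit 24) (node (nat_lit 6) (nat_lit 161601) (nat_lit 25) nil nil) nil)) nil) (node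
  (nat_lit 4) (nat_lit 163305) (nat_lit 22) (node (nat_lit 6) (nat_lit 164218) (nat_lit 23) (node
  (nat_lit 5) (nat_lit 163953) (nat_lit 24) (node (nat_lit 4) (nat_lit 163873) (nat_lit 25) nil
  nil) nil) nil) nil)) (node (nat_lit 0) (nat_lit 165619) (nat_lit 21) nil nil)) (node (nat_lit 0)
  (nat_lit 166678) (nat_lit 20) nil nil)) (node (nat_lit 0) (nat_lit 170317) (nat_lit 19) nil
  nil))) (node (nat_lit 0) (nat_lit 170753) (nat_lit 18) nil nil)) (node (nat_lit 0) (nat_lit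
  171715) (nat_lit 17) (node (nat_lit 4) (nat_lit 171715) (nat_lit 18) nil (node (nat_lit 5)
  (nat_lit 171715) (nat_lit 18) nil (node (nat_lit 6) (nat_lit 171715) (nat_lit 18) nil nil)))
  nil)) (node (nat_lit 6) (nat_lit 0) (nat_lit 16) (node (nat_lit 5) (nat_lit 0) (nat_lit 17)
  (node (nat_lit 6) (nat_lit 0) (nat_lit 18) (node (nat_lit 4) (nat_lit 0) (nat_lit 19) (node
  (nat_lit 5) (nat_lit 159803) (nat_lit 20) (node (nat_lit 4) (nat_lit 162394) (nat_lit 21) (node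
  (nat_lit 6) (nat_lit 164534) (nat_lit 22) (node (nat_lit 5) (nat_lit 166002) (nat_lit 23) (node
  (nat_lit 4) (nat_lit 166504) (nat_lit 24) (node (nat_lit 5) (nat_lit 166581) (nat_lit 25) (node
  (nat_lit 6) (nat_lit 166695) (nat_lit 26) (node (nat_lit 5) (nat_lit 166686) (nat_lit 27) (node
  (nat_lit 4) (nat_lit 166636) (nat_lit 28) (node (nat_lit 6) (nat_lit 166234) (nat_lit 29) (node
  (nat_lit 5) (nat_lit 165889) (nat_lit 30) (node (nat_lit 6) (nat_lit 164818) (nat_lit 31) (node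
  (nat_lit 4) (nat_lit 163591) (nat_lit 32) nil nil) nil) nil) nil) nil) nil) nil) nil) (node
  (nat_lit 6) (nat_lit 165992) (nat_lit 24) (node (nat_lit 4) (nat_lit 165503) (nat_lit 25) nil
  nil) nil)) (node (nat_lit 4) (nat_lit 165757) (nat_lit 23) (node (nat_lit 5) (nat_lit 166328)
  (nat_lit 24) (node (nat_lit 6) (nat_lit 166159) (nat_lit 25) (node (nat_lit 5) (nat_lit 165808)
  (nat_lit 26) (node (nat_lit 4) (nat_lit 165105) (nat_lit 27) (node (nat_lit 6) (nat_lit 163338)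
  (nat_lit 28) (node (nat_lit 5) (nat_lit 164566) (nat_lit 29) (node (nat_lit 6) (nat_lit 162867)
  (nat_lit 30) (node (nat_lit 4) (nat_lit 159955) (nat_lit 31) nil nil) nil) nil) nil) nil) nil)
  nil) nil) nil)) nil) (node (nat_lit 6) (nat_lit 159919) (nat_lit 21) (node (nat_lit 5) (nat_lit
  159009) (nat_lit 22) (node (nat_lit 4) (nat_lit 157912) (nat_lit 23) (node (nat_lit 6) (nat_lit
  155195) (nat_lit 24) (node (nat_lit 5) (nat_lit 152735) (nat_lit 25) (node (nat_lit 6) (nat_lit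
  146617) (nat_lit 26) (node (nat_lit 4) (nat_lit 145080) (nat_lit 27) (node (nat_lit 6) (nat_lit
  119809) (nat_lit 28) (node (nat_lit 5) (nat_lit 117837) (nat_lit 29) (node (nat_lit 4) (nat_lit
  117917) (nat_lit 30) (node (nat_lit 5) (nat_lit 117898) (nat_lit 31) (node (nat_lit 6) (nat_lit
  112095) (nat_lit 32) (node (nat_lit 4) (nat_lit 112784) (nat_lit 33) (node (nat_lit 6) (nat_lit
  78591) (nat_lit 34) nil nil) nil) nil) nil) nil) nil) nil) nil) nil) nil) (node (nat_lit 5)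
  (nat_lit 158016) (nat_lit 24) (node (nat_lit 6) (nat_lit 158201) (nat_lit 25) nil nil) nil))
  nil) nil) nil)) (node (nat_lit 0) (nat_lit 164449) (nat_lit 20) nil nil)) (node (nat_lit 0)
  (nat_lit 164914) (nat_lit 19) nil nil)) (node (nat_lit 0) (nat_lit 168576) (nat_lit 18) nil
  nil)) (node (nat_lit 0) (nat_lit 170956) (nat_lit 17) nil nil)) (node (nat_lit 0) (nat_lit
  170201) (nat_lit 16) (node (nat_lit 6) (nat_lit 170201) (nat_lit 17) nil (node (nat_lit 5)
  (nat_lit 170201) (nat_lit 17) nil (node (nat_lit 4) (nat_lit 170201) (nat_lit 17) nil nil)))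
  nil))) (node (nat_lit 5) (nat_lit 0) (nat_lit 15) (node (nat_lit 4) (nat_lit 0) (nat_lit 16)
  (node (nat_lit 6) (nat_lit 0) (nat_lit 17) (node (nat_lit 4) (nat_lit 0) (nat_lit 18) (node
  (nat_lit 5) (nat_lit 0) (nat_lit 19) (node (nat_lit 4) (nat_lit 138661) (nat_lit 20) (node
  (nat_lit 6) (nat_lit 141952) (nat_lit 21) (node (nat_lit 5) (nat_lit 143413) (nat_lit 22) (node
  (nat_lit 6) (nat_lit 144607) (nat_lit 23) (node (nat_lit 4) (nat_lit 145255) (nat_lit 24) (node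
  (nat_lit 5) (nat_lit 145388) (nat_lit 25) (node (nat_lit 6) (nat_lit 145069) (nat_lit 26) (node
  (nat_lit 5) (nat_lit 145161) (nat_lit 27) (node (nat_lit 4) (nat_lit 144734) (nat_lit 28) (node
  (nat_lit 6) (nat_lit 140507) (nat_lit 29) (node (nat_lit 5) (nat_lit 141703) (nat_lit 30) (node
  (nat_lit 6) (nat_lit 140427) (nat_lit 31) (node (nat_lit 4) (nat_lit 139582) (nat_lit 32) (node
  (nat_lit 6) (nat_lit 139691) (nat_lit 33) (node (nat_lit 5) (nat_lit 135646) (nat_lit 34) (node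
  (nat_lit 4) (nat_lit 131096) (nat_lit 35) (node (nat_lit 5) (nat_lit 121918) (nat_lit 36) (node
  (nat_lit 6) (nat_lit 119953) (nat_lit 37) (node (nat_lit 5) (nat_lit 122172) (nat_lit 38) (node
  (nat_lit 4) (nat_lit 116777) (nat_lit 39) (node (nat_lit 6) (nat_lit 117012) (nat_lit 40) (node
  (nat_lit 4) (nat_lit 98823) (nat_lit 41) (node (nat_lit 5) (nat_lit 34676) (nat_lit 42) (node
  (nat_lit 4) (nat_lit 34678) (nat_lit 43) (node (nat_lit 6) (nat_lit 34674) (nat_lit 44) (node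
  (nat_lit 5) (nat_lit 34674) (nat_lit 45) nil nil) nil) nil) nil) nil) nil) nil) nil) nil) nil)
  nil) nil) nil) nil) nil) nil) nil) nil) nil) nil) nil) nil) (node (nat_lit 4) (nat_lit 144057)
  (nat_lit 23) (node (nat_lit 5) (nat_lit 144163) (nat_lit 24) (node (nat_lit 6) (nat_lit 144348)
  (nat_lit 25) nil nil) nil) nil)) nil) nil) (node (nat_lit 6) (nat_lit 0) (nat_lit 20) (node
  (nat_lit 4) (nat_lit 139453) (nat_lit 21) (node (nat_lit 6) (nat_lit 140632) (nat_lit 22) (node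
  (nat_lit 5) (nat_lit 140640) (nat_lit 23) (node (nat_lit 4) (nat_lit 140808) (nat_lit 24) (node
  (nat_lit 5) (nat_lit 140825) (nat_lit 25) (node (nat_lit 6) (nat_lit 140702) (nat_lit 26) (node
  (nat_lit 5) (nat_lit 140492) (nat_lit 27) (node (nat_lit 4) (nat_lit 140322) (nat_lit 28) (node
  (nat_lit 6) (nat_lit 139015) (nat_lit 29) (node (nat_lit 5) (nat_lit 138635) (nat_lit 30) (node
  (nat_lit 6) (nat_lit 136179) (nat_lit 31) (node (nat_lit 4) (nat_lit 134299) (nat_lit 32) (node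
  (nat_lit 6) (nat_lit 133451) (nat_lit 33) (node (nat_lit 5) (nat_lit 128345) (nat_lit 34) (node
  (nat_lit 4) (nat_lit 126835) (nat_lit 35) (node (nat_lit 5) (nat_lit 120840) (nat_lit 36) (node
  (nat_lit 6) (nat_lit 110518) (nat_lit 37) (node (nat_lit 5) (nat_lit 121186) (nat_lit 38) (node
  (nat_lit 4) (nat_lit 109693) (nat_lit 39) nil nil) nil) nil) nil) nil) nil) nil) nil) nil) nil)
  nil) nil) nil) nil) nil) nil) nil) nil) (node (nat_lit 5) (nat_lit 140377) (nat_lit 21) (node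
  (nat_lit 4) (nat_lit 142495) (nat_lit 22) (node (nat_lit 5) (nat_lit 143043) (nat_lit 23) (node
  (nat_lit 6) (nat_lit 143317) (nat_lit 24) nil nil) nil) nil) (node (nat_lit 0) (nat_lit 141645)
  (nat_lit 21) nil nil))) (node (nat_lit 0) (nat_lit 142315) (nat_lit 20) nil nil))) (node
  (nat_lit 0) (nat_lit 142502) (nat_lit 19) nil nil)) (node (nat_lit 5) (nat_lit 0) (nat_lit 18)
  (node (nat_lit 6) (nat_lit 0) (nat_lit 19) (node (nat_lit 4) (nat_lit 106162) (nat_lit 20) (node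
  (nat_lit 5) (nat_lit 107688) (nat_lit 21) (node (nat_lit 4) (nat_lit 109040) (nat_lit 22) (node
  (nat_lit 6) (nat_lit 109637) (nat_lit 23) (node (nat_lit 4) (nat_lit 110423) (nat_lit 24) (node
  (nat_lit 5) (nat_lit 110449) (nat_lit 25) (node (nat_lit 6) (nat_lit 110491) (nat_lit 26) (node
  (nat_lit 5) (nat_lit 110689) (nat_lit 27) (node (nat_lit 4) (nat_lit 110070) (nat_lit 28) (node
  (nat_lit 6) (nat_lit 108801) (nat_lit 29) (node (nat_lit 5) (nat_lit 108084) (nat_lit 30) (node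
  (nat_lit 6) (nat_lit 107152) (nat_lit 31) (node (nat_lit 4) (nat_lit 106560) (nat_lit 32) (node
  (nat_lit 6) (nat_lit 103793) (nat_lit 33) (node (nat_lit 5) (nat_lit 98463) (nat_lit 34) (node
  (nat_lit 4) (nat_lit 92896) (nat_lit 35) (node (nat_lit 5) (nat_lit 87475) (nat_lit 36) (node
  (nat_lit 6) (nat_lit 84375) (nat_lit 37) (node (nat_lit 5) (nat_lit 78064) (nat_lit 38) (node
  (nat_lit 4) (nat_lit 79141) (nat_lit 39) (node (nat_lit 6) (nat_lit 74966) (nat_lit 40) nil nil)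
  nil) nil) nil) nil) nil) nil) nil) nil) nil) nil) nil) nil) nil) nil) nil) nil) nil) (node
  (nat_lit 6) (nat_lit 107853) (nat_lit 22) (node (nat_lit 5) (nat_lit 107304) (nat_lit 23) (node
  (nat_lit 4) (nat_lit 106286) (nat_lit 24) (node (nat_lit 6) (nat_lit 104206) (nat_lit 25) (node
  (nat_lit 5) (nat_lit 91486) (nat_lit 26) nil nil) (node (nat_lit 5) (nat_lit 106496) (nat_lit
  25) (node (nat_lit 6) (nat_lit 106660) (nat_lit 26) nil nil) nil)) nil) nil) nil)) (node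
  (nat_lit 6) (nat_lit 107298) (nat_lit 21) nil nil)) (node (nat_lit 0) (nat_lit 106023) (nat_lit
  20) nil nil)) (node (nat_lit 0) (nat_lit 134404) (nat_lit 19) nil nil)) (node (nat_lit 0)
  (nat_lit 138725) (nat_lit 18) nil nil))) (node (nat_lit 0) (nat_lit 162657) (nat_lit 17) nil
  nil)) (node (nat_lit 0) (nat_lit 165805) (nat_lit 16) (node (nat_lit 5) (nat_lit 165805)
  (nat_lit 17) nil (node (nat_lit 6) (nat_lit 165805) (nat_lit 17) nil nil)) nil)) (node (nat_lit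
  0) (nat_lit 169551) (nat_lit 15) (node (nat_lit 5) (nat_lit 169551) (nat_lit 16) (node (nat_lit
  6) (nat_lit 169551) (nat_lit 17) nil nil) (node (nat_lit 6) (nat_lit 169551) (nat_lit 16) (node
  (nat_lit 5) (nat_lit 169551) (nat_lit 17) nil (node (nat_lit 4) (nat_lit 169551) (nat_lit 17)
  nil nil)) (node (nat_lit 4) (nat_lit 169551) (nat_lit 16) nil nil))) nil))) (node (nat_lit 0)
  (nat_lit 167439) (nat_lit 14) (node (nat_lit 5) (nat_lit 167439) (nat_lit 15) (node (nat_lit 6)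
  (nat_lit 167439) (nat_lit 16) nil (node (nat_lit 4) (nat_lit 167439) (nat_lit 16) nil nil))
  (node (nat_lit 6) (nat_lit 167439) (nat_lit 15) (node (nat_lit 5) (nat_lit 167439) (nat_lit 16)
  nil nil) (node (nat_lit 4) (nat_lit 167439) (nat_lit 15) (node (nat_lit 5) (nat_lit 167439)
  (nat_lit 16) (node (nat_lit 6) (nat_lit 167439) (nat_lit 17) (node (nat_lit 5) (nat_lit 167439)
  (nat_lit 18) (node (nat_lit 4) (nat_lit 167439) (nat_lit 19) (node (nat_lit 6) (nat_lit 167439)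
  (nat_lit 20) (node (nat_lit 5) (nat_lit 167439) (nat_lit 21) (node (nat_lit 6) (nat_lit 168235)
  (nat_lit 22) (node (nat_lit 4) (nat_lit 168855) (nat_lit 23) nil nil) nil) nil) nil) nil) nil)
  nil) nil) nil))) nil)) (node (nat_lit 6) (nat_lit 0) (nat_lit 13) (node (nat_lit 4) (nat_lit 0)
  (nat_lit 14) (node (nat_lit 5) (nat_lit 0) (nat_lit 15) (node (nat_lit 6) (nat_lit 0) (nat_lit
  16) (node (nat_lit 4) (nat_lit 0) (nat_lit 17) (node (nat_lit 6) (nat_lit 0) (nat_lit 18) (node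
  (nat_lit 5) (nat_lit 0) (nat_lit 19) (node (nat_lit 6) (nat_lit 162708) (nat_lit 20) (node
  (nat_lit 4) (nat_lit 165548) (nat_lit 21) (node (nat_lit 5) (nat_lit 166127) (nat_lit 22) (node
  (nat_lit 6) (nat_lit 165039) (nat_lit 23) (node (nat_lit 5) (nat_lit 164842) (nat_lit 24) (node
  (nat_lit 4) (nat_lit 164365) (nat_lit 25) (node (nat_lit 6) (nat_lit 161884) (nat_lit 26) (node
  (nat_lit 5) (nat_lit 160438) (nat_lit 27) (node (nat_lit 6) (nat_lit 156809) (nat_lit 28) (node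
  (nat_lit 4) (nat_lit 153235) (nat_lit 29) (node (nat_lit 6) (nat_lit 145377) (nat_lit 30) (node
  (nat_lit 5) (nat_lit 153038) (nat_lit 31) (node (nat_lit 4) (nat_lit 141002) (nat_lit 32) (node
  (nat_lit 6) (nat_lit 119538) (nat_lit 33) (node (nat_lit 4) (nat_lit 119582) (nat_lit 34) (node
  (nat_lit 5) (nat_lit 119558) (nat_lit 35) (node (nat_lit 6) (nat_lit 112445) (nat_lit 36) (node
  (nat_lit 4) (nat_lit 69986) (nat_lit 37) (node (nat_lit 6) (nat_lit 69979) (nat_lit 38) (node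
  (nat_lit 5) (nat_lit 69978) (nat_lit 39) nil nil) nil) nil) nil) nil) nil) nil) nil) nil) nil)
  nil) nil) nil) nil) nil) nil) (node (nat_lit 4) (nat_lit 166635) (nat_lit 23) (node (nat_lit 6)
  (nat_lit 165914) (nat_lit 24) nil nil) nil)) nil) nil) (node (nat_lit 4) (nat_lit 0) (nat_lit
  20) (node (nat_lit 5) (nat_lit 164397) (nat_lit 21) (node (nat_lit 6) (nat_lit 165469) (nat_lit
  22) (node (nat_lit 5) (nat_lit 164940) (nat_lit 23) (node (nat_lit 4) (nat_lit 163056) (nat_lit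
  24) (node (nat_lit 6) (nat_lit 159420) (nat_lit 25) (node (nat_lit 5) (nat_lit 160183) (nat_lit
  26) (node (nat_lit 6) (nat_lit 153454) (nat_lit 27) (node (nat_lit 4) (nat_lit 147821) (nat_lit
  28) (node (nat_lit 6) (nat_lit 137646) (nat_lit 29) (node (nat_lit 5) (nat_lit 147175) (nat_lit
  30) (node (nat_lit 4) (nat_lit 138344) (nat_lit 31) (node (nat_lit 6) (nat_lit 124096) (nat_lit
  32) (node (nat_lit 4) (nat_lit 115008) (nat_lit 33) (node (nat_lit 5) (nat_lit 115506) (nat_lit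
  34) (node (nat_lit 6) (nat_lit 96916) (nat_lit 35) nil nil) nil) nil) nil) nil) nil) nil) nil)
  nil) nil) nil) nil) (node (nat_lit 4) (nat_lit 166468) (nat_lit 23) nil nil)) nil) (node
  (nat_lit 6) (nat_lit 163585) (nat_lit 21) nil (node (nat_lit 0) (nat_lit 165710) (nat_lit 21)
  nil nil))) (node (nat_lit 0) (nat_lit 167288) (nat_lit 20) nil nil))) (node (nat_lit 0) (nat_lit
  167940) (nat_lit 19) nil nil)) (node (nat_lit 0) (nat_lit 165951) (nat_lit 18) nil nil)) (node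
  (nat_lit 5) (nat_lit 0) (nat_lit 17) (node (nat_lit 4) (nat_lit 0) (nat_lit 18) (node (nat_lit
  5) (nat_lit 0) (nat_lit 19) (node (nat_lit 6) (nat_lit 162732) (nat_lit 20) (node (nat_lit 4)
  (nat_lit 164805) (nat_lit 21) (node (nat_lit 6) (nat_lit 166268) (nat_lit 22) (node (nat_lit 5)
  (nat_lit 166658) (nat_lit 23) (node (nat_lit 4) (nat_lit 166796) (nat_lit 24) (node (nat_lit 5)
  (nat_lit 166873) (nat_lit 25) (node (nat_lit 6) (nat_lit 166988) (nat_lit 26) (node (nat_lit 5)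
  (nat_lit 166979) (nat_lit 27) (node (nat_lit 4) (nat_lit 166929) (nat_lit 28) (node (nat_lit 6)
  (nat_lit 166528) (nat_lit 29) (node (nat_lit 5) (nat_lit 166159) (nat_lit 30) (node (nat_lit 6)
  (nat_lit 163722) (nat_lit 31) (node (nat_lit 4) (nat_lit 161680) (nat_lit 32) nil nil) nil) nil)
  nil) nil) nil) nil) nil) nil) nil) (node (nat_lit 5) (nat_lit 165671) (nat_lit 22) nil nil))
  nil) (node (nat_lit 0) (nat_lit 164605) (nat_lit 20) nil nil)) (node (nat_lit 6) (nat_lit 0)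
  (nat_lit 19) (node (nat_lit 5) (nat_lit 0) (nat_lit 20) (node (nat_lit 6) (nat_lit 148826)
  (nat_lit 21) (node (nat_lit 4) (nat_lit 150557) (nat_lit 22) (node (nat_lit 5) (nat_lit 150296)
  (nat_lit 23) (node (nat_lit 6) (nat_lit 149886) (nat_lit 24) (node (nat_lit 5) (nat_lit 149161)
  (nat_lit 25) (node (nat_lit 4) (nat_lit 149034) (nat_lit 26) (node (nat_lit 6) (nat_lit 146758)
  (nat_lit 27) nil nil) nil) nil) nil) (node (nat_lit 6) (nat_lit 117657) (nat_lit 23) (node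
  (nat_lit 5) (nat_lit 72602) (nat_lit 24) (node (nat_lit 4) (nat_lit 72638) (nat_lit 25) (node
  (nat_lit 5) (nat_lit 72500) (nat_lit 26) nil nil) nil) nil) nil)) nil) (node (nat_lit 0)
  (nat_lit 151863) (nat_lit 21) nil nil)) (node (nat_lit 4) (nat_lit 0) (nat_lit 20) (node
  (nat_lit 0) (nat_lit 150220) (nat_lit 21) nil nil) (node (nat_lit 0) (nat_lit 153782) (nat_lit
  20) nil nil))) (node (nat_lit 0) (nat_lit 164606) (nat_lit 19) nil nil))) (node (nat_lit 0)
  (nat_lit 167916) (nat_lit 18) nil nil)) (node (nat_lit 0) (nat_lit 171342) (nat_lit 17) nil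
  nil))) (node (nat_lit 4) (nat_lit 0) (nat_lit 16) (node (nat_lit 6) (nat_lit 0) (nat_lit 17)
  (node (nat_lit 5) (nat_lit 0) (nat_lit 18) (node (nat_lit 6) (nat_lit 0) (nat_lit 19) (node
  (nat_lit 4) (nat_lit 165813) (nat_lit 20) (node (nat_lit 5) (nat_lit 167460) (nat_lit 21) (node
  (nat_lit 6) (nat_lit 167647) (nat_lit 22) (node (nat_lit 5) (nat_lit 166777) (nat_lit 23) (node
  (nat_lit 4) (nat_lit 166763) (nat_lit 24) (node (nat_lit 6) (nat_lit 165233) (nat_lit 25) (node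
  (nat_lit 5) (nat_lit 161513) (nat_lit 26) (node (nat_lit 6) (nat_lit 156334) (nat_lit 27) (node
  (nat_lit 4) (nat_lit 148184) (nat_lit 28) (node (nat_lit 6) (nat_lit 146342) (nat_lit 29) (node
  (nat_lit 5) (nat_lit 148648) (nat_lit 30) (node (nat_lit 4) (nat_lit 143233) (nat_lit 31) (node
  (nat_lit 6) (nat_lit 144438) (nat_lit 32) (node (nat_lit 4) (nat_lit 125644) (nat_lit 33) (node
  (nat_lit 5) (nat_lit 117896) (nat_lit 34) (node (nat_lit 4) (nat_lit 68442) (nat_lit 35) (node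
  (nat_lit 6) (nat_lit 68430) (nat_lit 36) (node (nat_lit 5) (nat_lit 68428) (nat_lit 37) nil nil)
  nil) nil) nil) nil) nil) nil) nil) nil) nil) nil) nil) nil) nil) nil) (node (nat_lit 4) (nat_lit
  169166) (nat_lit 22) (node (nat_lit 6) (nat_lit 169516) (nat_lit 23) (node (nat_lit 4) (nat_lit
  170512) (nat_lit 24) (node (nat_lit 5) (nat_lit 170853) (nat_lit 25) (node (nat_lit 6) (nat_lit
  170595) (nat_lit 26) (node (nat_lit 5) (nat_lit 170274) (nat_lit 27) (node (nat_lit 4) (nat_lit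
  170224) (nat_lit 28) (node (nat_lit 6) (nat_lit 169018) (nat_lit 29) (node (nat_lit 5) (nat_lit
  168350) (nat_lit 30) (node (nat_lit 6) (nat_lit 167449) (nat_lit 31) (node (nat_lit 4) (nat_lit
  166386) (nat_lit 32) (node (nat_lit 6) (nat_lit 163361) (nat_lit 33) (node (nat_lit 5) (nat_lit
  160557) (nat_lit 34) (node (nat_lit 4) (nat_lit 153708) (nat_lit 35) (node (nat_lit 6) (nat_lit
  152893) (nat_lit 36) (node (nat_lit 4) (nat_lit 150517) (nat_lit 37) (node (nat_lit 5) (nat_lit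
  145663) (nat_lit 38) nil nil) nil) nil) nil) nil) nil) nil) nil) nil) nil) nil) nil) nil) nil)
  nil) nil) nil)) (node (nat_lit 6) (nat_lit 167699) (nat_lit 21) (node (nat_lit 5) (nat_lit
  168215) (nat_lit 22) (node (nat_lit 4) (nat_lit 168693) (nat_lit 23) (node (nat_lit 5) (nat_lit
  169334) (nat_lit 24) (node (nat_lit 6) (nat_lit 169702) (nat_lit 25) (node (nat_lit 5) (nat_lit
  169780) (nat_lit 26) (node (nat_lit 4) (nat_lit 169316) (nat_lit 27) (node (nat_lit 6) (nat_lit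
  168368) (nat_lit 28) (node (nat_lit 5) (nat_lit 166508) (nat_lit 29) (node (nat_lit 6) (nat_lit
  164003) (nat_lit 30) (node (nat_lit 4) (nat_lit 162501) (nat_lit 31) nil nil) nil) nil) nil)
  nil) nil) nil) nil) nil) nil) nil)) (node (nat_lit 0) (nat_lit 167667) (nat_lit 20) nil nil))
  (node (nat_lit 4) (nat_lit 0) (nat_lit 19) (node (nat_lit 5) (nat_lit 164931) (nat_lit 20) (node
  (nat_lit 6) (nat_lit 167829) (nat_lit 21) (node (nat_lit 5) (nat_lit 163799) (nat_lit 22) (node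
  (nat_lit 4) (nat_lit 164998) (nat_lit 23) (node (nat_lit 6) (nat_lit 161340) (nat_lit 24) (node
  (nat_lit 5) (nat_lit 161021) (nat_lit 25) (node (nat_lit 6) (nat_lit 152115) (nat_lit 26) (node
  (nat_lit 4) (nat_lit 152713) (nat_lit 27) (node (nat_lit 6) (nat_lit 127908) (nat_lit 28) (node
  (nat_lit 5) (nat_lit 130778) (nat_lit 29) (node (nat_lit 4) (nat_lit 124805) (nat_lit 30) (node
  (nat_lit 6) (nat_lit 125218) (nat_lit 31) (node (nat_lit 4) (nat_lit 101221) (nat_lit 32) (node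
  (nat_lit 5) (nat_lit 101172) (nat_lit 33) nil nil) nil) nil) nil) nil) nil) nil) nil) nil) nil)
  nil) (node (nat_lit 4) (nat_lit 169070) (nat_lit 22) (node (nat_lit 5) (nat_lit 169690) (nat_lit
  23) nil (node (nat_lit 6) (nat_lit 169159) (nat_lit 23) nil nil)) nil)) nil) (node (nat_lit 0)
  (nat_lit 168366) (nat_lit 20) nil nil)) (node (nat_lit 0) (nat_lit 170382) (nat_lit 19) nil
  nil))) (node (nat_lit 0) (nat_lit 172366) (nat_lit 18) nil nil)) (node (nat_lit 0) (nat_lit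
  174057) (nat_lit 17) nil nil)) (node (nat_lit 0) (nat_lit 175082) (nat_lit 16) nil nil))) (node
  (nat_lit 0) (nat_lit 179201) (nat_lit 15) (node (nat_lit 6) (nat_lit 179201) (nat_lit 16) nil
  (node (nat_lit 4) (nat_lit 179201) (nat_lit 16) nil nil)) nil)) (node (nat_lit 0) (nat_lit
  178857) (nat_lit 14) (node (nat_lit 6) (nat_lit 178857) (nat_lit 15) (node (nat_lit 4) (nat_lit
  178857) (nat_lit 16) nil (node (nat_lit 5) (nat_lit 178857) (nat_lit 16) nil nil)) (node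
  (nat_lit 4) (nat_lit 178857) (nat_lit 15) (node (nat_lit 6) (nat_lit 178857) (nat_lit 16) nil
  nil) (node (nat_lit 5) (nat_lit 178857) (nat_lit 15) nil nil))) nil)) (node (nat_lit 0) (nat_lit
  177693) (nat_lit 13) (node (nat_lit 5) (nat_lit 177693) (nat_lit 14) (node (nat_lit 6) (nat_lit
  177693) (nat_lit 15) nil nil) (node (nat_lit 4) (nat_lit 177693) (nat_lit 14) (node (nat_lit 5)
  (nat_lit 177693) (nat_lit 15) (node (nat_lit 6) (nat_lit 177693) (nat_lit 16) (node (nat_lit 5)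
  (nat_lit 177693) (nat_lit 17) (node (nat_lit 4) (nat_lit 177693) (nat_lit 18) (node (nat_lit 6)
  (nat_lit 177693) (nat_lit 19) (node (nat_lit 5) (nat_lit 177693) (nat_lit 20) (node (nat_lit 6)
  (nat_lit 178712) (nat_lit 21) (node (nat_lit 4) (nat_lit 179507) (nat_lit 22) nil nil) nil) nil)
  nil) nil) nil) nil) (node (nat_lit 6) (nat_lit 177693) (nat_lit 15) nil nil)) (node (nat_lit 6)
  (nat_lit 177693) (nat_lit 14) (node (nat_lit 4) (nat_lit 177693) (nat_lit 15) nil (node (nat_lit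
  5) (nat_lit 177693) (nat_lit 15) nil nil)) nil))) nil)))

noncomputable def t83 : Tr :=
  (node (nat_lit 5) (nat_lit 0) (nat_lit 10) (node (nat_lit 4) (nat_lit 0) (nat_lit 11) (node
  (nat_lit 6) (nat_lit 0) (nat_lit 12) t80 (node (nat_lit 0) (nat_lit 178045) (nat_lit 12) (node
  (nat_lit 5) (nat_lit 178045) (nat_lit 13) (node (nat_lit 4) (nat_lit 178045) (nat_lit 14) (node
  (nat_lit 5) (nat_lit 178045) (nat_lit 15) (node (nat_lit 6) (nat_lit 178045) (nat_lit 16) (node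
  (nat_lit 5) (nat_lit 178045) (nat_lit 17) (node (nat_lit 4) (nat_lit 178045) (nat_lit 18) (node
  (nat_lit 6) (nat_lit 178045) (nat_lit 19) (node (nat_lit 5) (nat_lit 178497) (nat_lit 20) (node
  (nat_lit 6) (nat_lit 179528) (nat_lit 21) (node (nat_lit 4) (nat_lit 179958) (nat_lit 22) nil
  nil) nil) nil) nil) nil) (node (nat_lit 4) (nat_lit 178045) (nat_lit 17) nil nil)) nil) (node
  (nat_lit 6) (nat_lit 178045) (nat_lit 15) (node (nat_lit 5) (nat_lit 178045) (nat_lit 16) nil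
  nil) nil)) (node (nat_lit 6) (nat_lit 178045) (nat_lit 14) (node (nat_lit 5) (nat_lit 178045)
  (nat_lit 15) nil (node (nat_lit 4) (nat_lit 178045) (nat_lit 15) nil nil)) nil)) (node (nat_lit
  4) (nat_lit 178045) (nat_lit 13) (node (nat_lit 5) (nat_lit 178045) (nat_lit 14) (node (nat_lit
  6) (nat_lit 178045) (nat_lit 15) (node (nat_lit 5) (nat_lit 178045) (nat_lit 16) (node (nat_lit
  4) (nat_lit 178045) (nat_lit 17) (node (nat_lit 6) (nat_lit 178045) (nat_lit 18) (node (nat_lit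
  5) (nat_lit 178045) (nat_lit 19) (node (nat_lit 6) (nat_lit 179351) (nat_lit 20) (node (nat_lit
  4) (nat_lit 180370) (nat_lit 21) nil nil) nil) nil) nil) nil) nil) (node (nat_lit 4) (nat_lit
  178045) (nat_lit 15) nil nil)) (node (nat_lit 6) (nat_lit 178045) (nat_lit 14) (node (nat_lit 5)
  (nat_lit 178045) (nat_lit 15) nil (node (nat_lit 4) (nat_lit 178045) (nat_lit 15) nil nil))
  nil)) (node (nat_lit 6) (nat_lit 178045) (nat_lit 13) (node (nat_lit 4) (nat_lit 178045)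
  (nat_lit 14) (node (nat_lit 6) (nat_lit 178045) (nat_lit 15) nil (node (nat_lit 5) (nat_lit
  178045) (nat_lit 15) nil nil)) (node (nat_lit 5) (nat_lit 178045) (nat_lit 14) (node (nat_lit 4)
  (nat_lit 178045) (nat_lit 15) nil nil) nil)) nil))) nil)) (node (nat_lit 6) (nat_lit 0) (nat_lit
  11) t81 (node (nat_lit 0) (nat_lit 0) (nat_lit 11) (node (nat_lit 5) (nat_lit 178038) (nat_lit
  12) (node (nat_lit 4) (nat_lit 178038) (nat_lit 13) (node (nat_lit 6) (nat_lit 178038) (nat_lit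
  14) (node (nat_lit 4) (nat_lit 178038) (nat_lit 15) (node (nat_lit 5) (nat_lit 178038) (nat_lit
  16) (node (nat_lit 6) (nat_lit 178038) (nat_lit 17) (node (nat_lit 5) (nat_lit 178038) (nat_lit
  18) (node (nat_lit 4) (nat_lit 181465) (nat_lit 19) (node (nat_lit 6) (nat_lit 183090) (nat_lit
  20) (node (nat_lit 5) (nat_lit 184954) (nat_lit 21) (node (nat_lit 6) (nat_lit 186159) (nat_lit
  22) nil nil) nil) nil) nil) nil) nil) nil) (node (nat_lit 5) (nat_lit 178038) (nat_lit 15) nil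
  nil)) (node (nat_lit 5) (nat_lit 178038) (nat_lit 14) (node (nat_lit 6) (nat_lit 178038)
  (nat_lit 15) (node (nat_lit 5) (nat_lit 178038) (nat_lit 16) (node (nat_lit 4) (nat_lit 178038)
  (nat_lit 17) (node (nat_lit 6) (nat_lit 178038) (nat_lit 18) (node (nat_lit 5) (nat_lit 178618)
  (nat_lit 19) (node (nat_lit 6) (nat_lit 179938) (nat_lit 20) (node (nat_lit 4) (nat_lit 180490)
  (nat_lit 21) (node (nat_lit 5) (nat_lit 180372) (nat_lit 22) nil nil) nil) nil) nil) nil) nil)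
  nil) nil) nil)) (node (nat_lit 6) (nat_lit 178038) (nat_lit 13) (node (nat_lit 4) (nat_lit
  178038) (nat_lit 14) (node (nat_lit 5) (nat_lit 178038) (nat_lit 15) (node (nat_lit 6) (nat_lit
  178038) (nat_lit 16) (node (nat_lit 5) (nat_lit 178038) (nat_lit 17) (node (nat_lit 4) (nat_lit
  177898) (nat_lit 18) (node (nat_lit 6) (nat_lit 180547) (nat_lit 19) nil nil) nil) nil) nil)
  (node (nat_lit 6) (nat_lit 178038) (nat_lit 15) nil nil)) (node (nat_lit 5) (nat_lit 178038)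
  (nat_lit 14) (node (nat_lit 4) (nat_lit 178038) (nat_lit 15) nil nil) nil)) nil)) (node (nat_lit
  6) (nat_lit 178038) (nat_lit 12) (node (nat_lit 5) (nat_lit 178038) (nat_lit 13) (node (nat_lit
  6) (nat_lit 178038) (nat_lit 14) (node (nat_lit 4) (nat_lit 178038) (nat_lit 15) (node (nat_lit
  5) (nat_lit 178038) (nat_lit 16) (node (nat_lit 6) (nat_lit 178038) (nat_lit 17) (node (nat_lit
  5) (nat_lit 178184) (nat_lit 18) (node (nat_lit 4) (nat_lit 180768) (nat_lit 19) nil nil) nil)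
  nil) nil) nil) (node (nat_lit 4) (nat_lit 178038) (nat_lit 14) (node (nat_lit 5) (nat_lit
  178038) (nat_lit 15) (node (nat_lit 6) (nat_lit 178038) (nat_lit 16) (node (nat_lit 5) (nat_lit
  178038) (nat_lit 17) (node (nat_lit 4) (nat_lit 178038) (nat_lit 18) (node (nat_lit 6) (nat_lit
  180299) (nat_lit 19) nil nil) nil) nil) nil) (node (nat_lit 6) (nat_lit 178038) (nat_lit 15) nil
  nil)) nil)) (node (nat_lit 4) (nat_lit 178038) (nat_lit 13) (node (nat_lit 5) (nat_lit 178038)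
  (nat_lit 14) (node (nat_lit 6) (nat_lit 178038) (nat_lit 15) (node (nat_lit 5) (nat_lit 178038)
  (nat_lit 16) (node (nat_lit 4) (nat_lit 178038) (nat_lit 17) (node (nat_lit 6) (nat_lit 178038)
  (nat_lit 18) (node (nat_lit 5) (nat_lit 180730) (nat_lit 19) (node (nat_lit 6) (nat_lit 182831)
  (nat_lit 20) (node (nat_lit 4) (nat_lit 184471) (nat_lit 21) nil nil) nil) nil) nil) nil) nil)
  (node (nat_lit 4) (nat_lit 178038) (nat_lit 15) nil nil)) (node (nat_lit 6) (nat_lit 178038)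
  (nat_lit 14) nil nil)) nil)) (node (nat_lit 4) (nat_lit 178038) (nat_lit 12) (node (nat_lit 5)
  (nat_lit 178038) (nat_lit 13) (node (nat_lit 6) (nat_lit 178038) (nat_lit 14) (node (nat_lit 5)
  (nat_lit 178038) (nat_lit 15) (node (nat_lit 4) (nat_lit 178038) (nat_lit 16) (node (nat_lit 6)
  (nat_lit 178038) (nat_lit 17) (node (nat_lit 5) (nat_lit 178038) (nat_lit 18) (node (nat_lit 6)
  (nat_lit 179711) (nat_lit 19) (node (nat_lit 4) (nat_lit 181017) (nat_lit 20) (node (nat_lit 5)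
  (nat_lit 182036) (nat_lit 21) nil nil) nil) nil) nil) nil) nil) (node (nat_lit 4) (nat_lit
  178038) (nat_lit 15) nil nil)) (node (nat_lit 4) (nat_lit 178038) (nat_lit 14) (node (nat_lit 6)
  (nat_lit 178038) (nat_lit 15) nil nil) nil)) (node (nat_lit 6) (nat_lit 178038) (nat_lit 13)
  (node (nat_lit 4) (nat_lit 178038) (nat_lit 14) (node (nat_lit 5) (nat_lit 178038) (nat_lit 15)
  (node (nat_lit 6) (nat_lit 178038) (nat_lit 16) (node (nat_lit 5) (nat_lit 178038) (nat_lit 17)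
  (node (nat_lit 4) (nat_lit 178038) (nat_lit 18) (node (nat_lit 6) (nat_lit 180064) (nat_lit 19)
  nil nil) nil) nil) nil) nil) (node (nat_lit 5) (nat_lit 178038) (nat_lit 14) (node (nat_lit 6)
  (nat_lit 178038) (nat_lit 15) nil (node (nat_lit 4) (nat_lit 178038) (nat_lit 15) nil nil))
  nil)) nil)) (node (nat_lit 0) (nat_lit 179711) (nat_lit 12) nil nil)))) nil))) (node (nat_lit 6)
  (nat_lit 0) (nat_lit 10) (node (nat_lit 5) (nat_lit 0) (nat_lit 11) (node (nat_lit 4) (nat_lit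
  0) (nat_lit 12) t82 (node (nat_lit 0) (nat_lit 175237) (nat_lit 12) (node (nat_lit 6) (nat_lit
  175237) (nat_lit 13) (node (nat_lit 4) (nat_lit 175237) (nat_lit 14) (node (nat_lit 5) (nat_lit
  175237) (nat_lit 15) (node (nat_lit 6) (nat_lit 175237) (nat_lit 16) (node (nat_lit 5) (nat_lit
  175237) (nat_lit 17) (node (nat_lit 4) (nat_lit 175237) (nat_lit 18) (node (nat_lit 6) (nat_lit
  175237) (nat_lit 19) (node (nat_lit 5) (nat_lit 177339) (nat_lit 20) (node (nat_lit 6) (nat_lit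
  178979) (nat_lit 21) nil nil) nil) nil) nil) nil) nil) nil) (node (nat_lit 5) (nat_lit 175237)
  (nat_lit 14) nil nil)) (node (nat_lit 5) (nat_lit 175237) (nat_lit 13) (node (nat_lit 6)
  (nat_lit 175237) (nat_lit 14) nil (node (nat_lit 4) (nat_lit 175237) (nat_lit 14) nil nil))
  (node (nat_lit 4) (nat_lit 175237) (nat_lit 13) (node (nat_lit 5) (nat_lit 175237) (nat_lit 14)
  (node (nat_lit 6) (nat_lit 175237) (nat_lit 15) (node (nat_lit 5) (nat_lit 175237) (nat_lit 16)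
  (node (nat_lit 4) (nat_lit 175237) (nat_lit 17) (node (nat_lit 6) (nat_lit 175237) (nat_lit 18)
  (node (nat_lit 5) (nat_lit 175237) (nat_lit 19) (node (nat_lit 6) (nat_lit 176543) (nat_lit 20)
  (node (nat_lit 4) (nat_lit 177562) (nat_lit 21) nil nil) nil) nil) nil) nil) nil) nil) (node
  (nat_lit 6) (nat_lit 175237) (nat_lit 14) nil nil)) nil))) nil)) (node (nat_lit 0) (nat_lit
  175065) (nat_lit 11) (node (nat_lit 6) (nat_lit 175065) (nat_lit 12) (node (nat_lit 5) (nat_lit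
  175065) (nat_lit 13) (node (nat_lit 4) (nat_lit 175065) (nat_lit 14) (node (nat_lit 5) (nat_lit
  175065) (nat_lit 15) (node (nat_lit 6) (nat_lit 175065) (nat_lit 16) (node (nat_lit 5) (nat_lit
  175065) (nat_lit 17) (node (nat_lit 4) (nat_lit 175376) (nat_lit 18) (node (nat_lit 6) (nat_lit
  177292) (nat_lit 19) nil nil) nil) nil) nil) (node (nat_lit 6) (nat_lit 175065) (nat_lit 15) nil
  nil)) (node (nat_lit 6) (nat_lit 175065) (nat_lit 14) nil nil)) (node (nat_lit 4) (nat_lit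
  175065) (nat_lit 13) (node (nat_lit 5) (nat_lit 175065) (nat_lit 14) (node (nat_lit 6) (nat_lit
  175065) (nat_lit 15) (node (nat_lit 5) (nat_lit 175065) (nat_lit 16) (node (nat_lit 4) (nat_lit
  175065) (nat_lit 17) (node (nat_lit 6) (nat_lit 175065) (nat_lit 18) (node (nat_lit 5) (nat_lit
  177757) (nat_lit 19) (node (nat_lit 6) (nat_lit 179858) (nat_lit 20) (node (nat_lit 4) (nat_lit
  181498) (nat_lit 21) nil nil) nil) nil) nil) nil) nil) nil) nil) nil)) (node (nat_lit 5)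
  (nat_lit 175065) (nat_lit 12) (node (nat_lit 6) (nat_lit 175065) (nat_lit 13) (node (nat_lit 5)
  (nat_lit 175065) (nat_lit 14) nil (node (nat_lit 4) (nat_lit 175065) (nat_lit 14) (node (nat_lit
  5) (nat_lit 175065) (nat_lit 15) (node (nat_lit 6) (nat_lit 175065) (nat_lit 16) (node (nat_lit
  5) (nat_lit 175065) (nat_lit 17) (node (nat_lit 4) (nat_lit 174924) (nat_lit 18) (node (nat_lit
  6) (nat_lit 177573) (nat_lit 19) nil nil) nil) nil) nil) nil) nil)) (node (nat_lit 4) (nat_lit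
  175065) (nat_lit 13) (node (nat_lit 5) (nat_lit 175065) (nat_lit 14) (node (nat_lit 6) (nat_lit
  175065) (nat_lit 15) (node (nat_lit 5) (nat_lit 175065) (nat_lit 16) (node (nat_lit 4) (nat_lit
  175065) (nat_lit 17) (node (nat_lit 6) (nat_lit 175376) (nat_lit 18) (node (nat_lit 5) (nat_lit
  175611) (nat_lit 19) (node (nat_lit 6) (nat_lit 176661) (nat_lit 20) nil nil) nil) nil) nil)
  nil) nil) (node (nat_lit 6) (nat_lit 175065) (nat_lit 14) (node (nat_lit 4) (nat_lit 175065)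
  (nat_lit 15) (node (nat_lit 5) (nat_lit 175065) (nat_lit 16) (node (nat_lit 6) (nat_lit 175065)
  (nat_lit 17) (node (nat_lit 5) (nat_lit 175065) (nat_lit 18) (node (nat_lit 4) (nat_lit 178493)
  (nat_lit 19) nil nil) nil) nil) nil) nil) nil)) nil)) (node (nat_lit 4) (nat_lit 175065)
  (nat_lit 12) (node (nat_lit 5) (nat_lit 175065) (nat_lit 13) (node (nat_lit 6) (nat_lit 175065)
  (nat_lit 14) (node (nat_lit 5) (nat_lit 175065) (nat_lit 15) (node (nat_lit 4) (nat_lit 175065)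
  (nat_lit 16) (node (nat_lit 6) (nat_lit 175065) (nat_lit 17) (node (nat_lit 5) (nat_lit 175065)
  (nat_lit 18) (node (nat_lit 6) (nat_lit 176737) (nat_lit 19) (node (nat_lit 4) (nat_lit 178043)
  (nat_lit 20) nil nil) nil) nil) nil) nil) nil) nil) (node (nat_lit 6) (nat_lit 175065) (nat_lit
  13) (node (nat_lit 4) (nat_lit 175065) (nat_lit 14) (node (nat_lit 5) (nat_lit 175065) (nat_lit
  15) (node (nat_lit 6) (nat_lit 175065) (nat_lit 16) (node (nat_lit 5) (nat_lit 175065) (nat_lit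
  17) (node (nat_lit 4) (nat_lit 175065) (nat_lit 18) (node (nat_lit 6) (nat_lit 177090) (nat_lit
  19) nil nil) nil) nil) nil) nil) nil) nil)) nil))) nil)) (node (nat_lit 0) (nat_lit 0) (nat_lit
  10) (node (nat_lit 5) (nat_lit 172031) (nat_lit 11) (node (nat_lit 6) (nat_lit 172031) (nat_lit
  12) (node (nat_lit 4) (nat_lit 172031) (nat_lit 13) (node (nat_lit 5) (nat_lit 172031) (nat_lit
  14) (node (nat_lit 6) (nat_lit 172031) (nat_lit 15) (node (nat_lit 5) (nat_lit 172031) (nat_lit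
  16) (node (nat_lit 4) (nat_lit 171843) (nat_lit 17) (node (nat_lit 6) (nat_lit 175235) (nat_lit
  18) (node (nat_lit 5) (nat_lit 177874) (nat_lit 19) nil nil) nil) nil) nil) (node (nat_lit 4)
  (nat_lit 172031) (nat_lit 15) nil nil)) (node (nat_lit 6) (nat_lit 172031) (nat_lit 14) nil
  nil)) (node (nat_lit 5) (nat_lit 172031) (nat_lit 13) (node (nat_lit 4) (nat_lit 172031)
  (nat_lit 14) (node (nat_lit 6) (nat_lit 172031) (nat_lit 15) nil nil) nil) nil)) (node (nat_lit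
  4) (nat_lit 172031) (nat_lit 12) (node (nat_lit 5) (nat_lit 172031) (nat_lit 13) (node (nat_lit
  6) (nat_lit 172031) (nat_lit 14) (node (nat_lit 5) (nat_lit 172031) (nat_lit 15) (node (nat_lit
  4) (nat_lit 172031) (nat_lit 16) (node (nat_lit 6) (nat_lit 172031) (nat_lit 17) (node (nat_lit
  5) (nat_lit 172776) (nat_lit 18) (node (nat_lit 6) (nat_lit 174468) (nat_lit 19) (node (nat_lit
  4) (nat_lit 175255) (nat_lit 20) nil nil) nil) nil) nil) nil) (node (nat_lit 4) (nat_lit 172031)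
  (nat_lit 15) nil nil)) nil) (node (nat_lit 6) (nat_lit 172031) (nat_lit 13) (node (nat_lit 4)
  (nat_lit 172031) (nat_lit 14) nil (node (nat_lit 5) (nat_lit 172031) (nat_lit 14) nil nil))
  nil)) (node (nat_lit 13) (nat_lit 175848) (nat_lit 12) (node (nat_lit 4) (nat_lit 175848)
  (nat_lit 13) (node (nat_lit 5) (nat_lit 175848) (nat_lit 14) (node (nat_lit 6) (nat_lit 175848)
  (nat_lit 15) (node (nat_lit 5) (nat_lit 175848) (nat_lit 16) (node (nat_lit 4) (nat_lit 175848)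
  (nat_lit 17) (node (nat_lit 6) (nat_lit 175848) (nat_lit 18) (node (nat_lit 5) (nat_lit 175848)
  (nat_lit 19) (node (nat_lit 6) (nat_lit 177153) (nat_lit 20) (node (nat_lit 4) (nat_lit 178173)
  (nat_lit 21) nil nil) nil) nil) nil) nil) nil) nil) nil) nil) nil))) (node (nat_lit 6) (nat_lit
  172031) (nat_lit 11) (node (nat_lit 4) (nat_lit 172031) (nat_lit 12) (node (nat_lit 5) (nat_lit
  172031) (nat_lit 13) (node (nat_lit 6) (nat_lit 172031) (nat_lit 14) (node (nat_lit 5) (nat_lit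
  172031) (nat_lit 15) (node (nat_lit 4) (nat_lit 172031) (nat_lit 16) (node (nat_lit 6) (nat_lit
  172031) (nat_lit 17) (node (nat_lit 5) (nat_lit 175481) (nat_lit 18) (node (nat_lit 6) (nat_lit
  178173) (nat_lit 19) (node (nat_lit 4) (nat_lit 180274) (nat_lit 20) nil nil) nil) nil) nil)
  nil) nil) (node (nat_lit 4) (nat_lit 172031) (nat_lit 14) nil nil)) (node (nat_lit 6) (nat_lit
  172031) (nat_lit 13) (node (nat_lit 5) (nat_lit 172031) (nat_lit 14) (node (nat_lit 4) (nat_lit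
  172031) (nat_lit 15) (node (nat_lit 5) (nat_lit 172031) (nat_lit 16) (node (nat_lit 6) (nat_lit
  172031) (nat_lit 17) (node (nat_lit 5) (nat_lit 174929) (nat_lit 18) (node (nat_lit 4) (nat_lit
  175509) (nat_lit 19) (node (nat_lit 6) (nat_lit 176702) (nat_lit 20) nil nil) nil) nil) nil)
  nil) (node (nat_lit 6) (nat_lit 172031) (nat_lit 15) nil nil)) nil) nil)) (node (nat_lit 5)
  (nat_lit 172031) (nat_lit 12) (node (nat_lit 4) (nat_lit 172031) (nat_lit 13) (node (nat_lit 5)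
  (nat_lit 172031) (nat_lit 14) (node (nat_lit 6) (nat_lit 172031) (nat_lit 15) (node (nat_lit 5)
  (nat_lit 172031) (nat_lit 16) (node (nat_lit 4) (nat_lit 172031) (nat_lit 17) (node (nat_lit 6)
  (nat_lit 174929) (nat_lit 18) nil nil) nil) nil) nil) (node (nat_lit 6) (nat_lit 172031)
  (nat_lit 14) nil nil)) (node (nat_lit 6) (nat_lit 172031) (nat_lit 13) (node (nat_lit 4)
  (nat_lit 172031) (nat_lit 14) nil nil) nil)) nil)) (node (nat_lit 4) (nat_lit 172031) (nat_lit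
  11) (node (nat_lit 6) (nat_lit 172031) (nat_lit 12) (node (nat_lit 4) (nat_lit 172031) (nat_lit
  13) (node (nat_lit 5) (nat_lit 172031) (nat_lit 14) (node (nat_lit 6) (nat_lit 172031) (nat_lit
  15) (node (nat_lit 5) (nat_lit 172031) (nat_lit 16) (node (nat_lit 4) (nat_lit 172031) (nat_lit
  17) (node (nat_lit 6) (nat_lit 174628) (nat_lit 18) (node (nat_lit 5) (nat_lit 177309) (nat_lit
  19) (node (nat_lit 6) (nat_lit 179246) (nat_lit 20) (node (nat_lit 4) (nat_lit 180582) (nat_lit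
  21) nil nil) nil) nil) nil) nil) nil) nil) nil) (node (nat_lit 5) (nat_lit 172031) (nat_lit 13)
  (node (nat_lit 4) (nat_lit 172031) (nat_lit 14) (node (nat_lit 5) (nat_lit 172031) (nat_lit 15)
  (node (nat_lit 6) (nat_lit 172031) (nat_lit 16) (node (nat_lit 5) (nat_lit 172031) (nat_lit 17)
  (node (nat_lit 4) (nat_lit 172776) (nat_lit 18) nil nil) nil) nil) nil) (node (nat_lit 6)
  (nat_lit 172031) (nat_lit 14) nil nil)) nil)) (node (nat_lit 5) (nat_lit 172031) (nat_lit 12)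
  (node (nat_lit 6) (nat_lit 172031) (nat_lit 13) (node (nat_lit 5) (nat_lit 172031) (nat_lit 14)
  (node (nat_lit 4) (nat_lit 172031) (nat_lit 15) (node (nat_lit 6) (nat_lit 172031) (nat_lit 16)
  (node (nat_lit 5) (nat_lit 172031) (nat_lit 17) (node (nat_lit 6) (nat_lit 174175) (nat_lit 18)
  (node (nat_lit 4) (nat_lit 175848) (nat_lit 19) nil nil) nil) nil) nil) nil) (node (nat_lit 4)
  (nat_lit 172031) (nat_lit 14) nil nil)) (node (nat_lit 4) (nat_lit 172031) (nat_lit 13) nil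
  nil)) nil)) (node (nat_lit 0) (nat_lit 176235) (nat_lit 11) nil nil)))) nil)))

noncomputable def t84 : Tr :=
  (node (nat_lit 4) (nat_lit 0) (nat_lit 7) (node (nat_lit 5) (nat_lit 0) (nat_lit 8) (node
  (nat_lit 6) (nat_lit 0) (nat_lit 9) t77 (node (nat_lit 4) (nat_lit 0) (nat_lit 9) (node (nat_lit
  6) (nat_lit 0) (nat_lit 10) (node (nat_lit 5) (nat_lit 0) (nat_lit 11) (node (nat_lit 6)
  (nat_lit 0) (nat_lit 12) (node (nat_lit 4) (nat_lit 0) (nat_lit 13) t78 (node (nat_lit 0)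
  (nat_lit 164871) (nat_lit 13) (node (nat_lit 5) (nat_lit 164871) (nat_lit 14) (node (nat_lit 6)
  (nat_lit 164871) (nat_lit 15) (node (nat_lit 5) (nat_lit 164871) (nat_lit 16) (node (nat_lit 4)
  (nat_lit 164871) (nat_lit 17) nil nil) (node (nat_lit 4) (nat_lit 164871) (nat_lit 16) nil nil))
  (node (nat_lit 4) (nat_lit 164871) (nat_lit 15) nil nil)) (node (nat_lit 4) (nat_lit 164871)
  (nat_lit 14) (node (nat_lit 5) (nat_lit 164871) (nat_lit 15) (node (nat_lit 6) (nat_lit 164871)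
  (nat_lit 16) (node (nat_lit 5) (nat_lit 164871) (nat_lit 17) (node (nat_lit 4) (nat_lit 164871)
  (nat_lit 18) (node (nat_lit 6) (nat_lit 164871) (nat_lit 19) (node (nat_lit 4) (nat_lit 164871)
  (nat_lit 20) (node (nat_lit 5) (nat_lit 165890) (nat_lit 21) (node (nat_lit 4) (nat_lit 165885)
  (nat_lit 22) (node (nat_lit 6) (nat_lit 165765) (nat_lit 23) (node (nat_lit 5) (nat_lit 165501)
  (nat_lit 24) nil nil) nil) nil) nil) nil) nil) nil) nil) nil) (node (nat_lit 6) (nat_lit 164871)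
  (nat_lit 15) nil nil)) (node (nat_lit 6) (nat_lit 164871) (nat_lit 14) (node (nat_lit 5)
  (nat_lit 164871) (nat_lit 15) (node (nat_lit 4) (nat_lit 164871) (nat_lit 16) nil nil) (node
  (nat_lit 4) (nat_lit 164871) (nat_lit 15) nil nil)) nil))) nil)) t79) (node (nat_lit 0) (nat_lit
  163060) (nat_lit 11) (node (nat_lit 6) (nat_lit 163060) (nat_lit 12) (node (nat_lit 4) (nat_lit
  163060) (nat_lit 13) (node (nat_lit 5) (nat_lit 163060) (nat_lit 14) (node (nat_lit 6) (nat_lit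
  163060) (nat_lit 15) (node (nat_lit 5) (nat_lit 163060) (nat_lit 16) (node (nat_lit 4) (nat_lit
  163060) (nat_lit 17) (node (nat_lit 6) (nat_lit 163060) (nat_lit 18) (node (nat_lit 4) (nat_lit
  165752) (nat_lit 19) (node (nat_lit 5) (nat_lit 167176) (nat_lit 20) (node (nat_lit 4) (nat_lit
  168469) (nat_lit 21) (node (nat_lit 6) (nat_lit 168313) (nat_lit 22) nil nil) nil) nil) nil)
  nil) nil) nil) (node (nat_lit 4) (nat_lit 163060) (nat_lit 15) nil nil)) (node (nat_lit 6)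
  (nat_lit 163060) (nat_lit 14) nil nil)) (node (nat_lit 5) (nat_lit 163060) (nat_lit 13) (node
  (nat_lit 4) (nat_lit 163060) (nat_lit 14) (node (nat_lit 5) (nat_lit 163060) (nat_lit 15) (node
  (nat_lit 6) (nat_lit 163060) (nat_lit 16) (node (nat_lit 5) (nat_lit 163060) (nat_lit 17) (node
  (nat_lit 4) (nat_lit 163060) (nat_lit 18) (node (nat_lit 6) (nat_lit 165667) (nat_lit 19) (node
  (nat_lit 4) (nat_lit 167700) (nat_lit 20) nil nil) nil) nil) nil) nil) (node (nat_lit 6)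
  (nat_lit 163060) (nat_lit 15) nil nil)) (node (nat_lit 6) (nat_lit 163060) (nat_lit 14) nil
  nil)) nil)) (node (nat_lit 5) (nat_lit 163060) (nat_lit 12) (node (nat_lit 6) (nat_lit 163060)
  (nat_lit 13) (node (nat_lit 4) (nat_lit 163060) (nat_lit 14) (node (nat_lit 5) (nat_lit 163060)
  (nat_lit 15) (node (nat_lit 6) (nat_lit 163060) (nat_lit 16) (node (nat_lit 5) (nat_lit 163060)
  (nat_lit 17) (node (nat_lit 4) (nat_lit 163060) (nat_lit 18) (node (nat_lit 6) (nat_lit 165752)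
  (nat_lit 19) (node (nat_lit 4) (nat_lit 167853) (nat_lit 20) (node (nat_lit 5) (nat_lit 168964)
  (nat_lit 21) nil nil) nil) nil) nil) nil) nil) nil) (node (nat_lit 5) (nat_lit 163060) (nat_lit
  14) (node (nat_lit 4) (nat_lit 163060) (nat_lit 15) (node (nat_lit 6) (nat_lit 163060) (nat_lit
  16) nil nil) nil) nil)) (node (nat_lit 4) (nat_lit 163060) (nat_lit 13) (node (nat_lit 5)
  (nat_lit 163060) (nat_lit 14) (node (nat_lit 6) (nat_lit 163060) (nat_lit 15) (node (nat_lit 5)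
  (nat_lit 163060) (nat_lit 16) (node (nat_lit 4) (nat_lit 163060) (nat_lit 17) (node (nat_lit 6)
  (nat_lit 163060) (nat_lit 18) (node (nat_lit 4) (nat_lit 165321) (nat_lit 19) (node (nat_lit 5)
  (nat_lit 166296) (nat_lit 20) nil nil) nil) nil) nil) nil) nil) (node (nat_lit 6) (nat_lit
  163060) (nat_lit 14) (node (nat_lit 4) (nat_lit 163060) (nat_lit 15) (node (nat_lit 5) (nat_lit
  163060) (nat_lit 16) (node (nat_lit 6) (nat_lit 163060) (nat_lit 17) (node (nat_lit 5) (nat_lit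
  163060) (nat_lit 18) (node (nat_lit 4) (nat_lit 166278) (nat_lit 19) (node (nat_lit 6) (nat_lit
  167739) (nat_lit 20) nil nil) nil) nil) nil) nil) nil) nil)) nil)) (node (nat_lit 4) (nat_lit
  163060) (nat_lit 12) (node (nat_lit 5) (nat_lit 163060) (nat_lit 13) (node (nat_lit 6) (nat_lit
  163060) (nat_lit 14) (node (nat_lit 5) (nat_lit 163060) (nat_lit 15) (node (nat_lit 4) (nat_lit
  163060) (nat_lit 16) (node (nat_lit 6) (nat_lit 163060) (nat_lit 17) (node (nat_lit 4) (nat_lit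
  163060) (nat_lit 18) (node (nat_lit 5) (nat_lit 164733) (nat_lit 19) (node (nat_lit 4) (nat_lit
  164726) (nat_lit 20) (node (nat_lit 6) (nat_lit 164531) (nat_lit 21) nil nil) nil) nil) nil)
  nil) nil) nil) nil) (node (nat_lit 6) (nat_lit 163060) (nat_lit 13) (node (nat_lit 4) (nat_lit
  163060) (nat_lit 14) (node (nat_lit 5) (nat_lit 163060) (nat_lit 15) (node (nat_lit 6) (nat_lit
  163060) (nat_lit 16) (node (nat_lit 5) (nat_lit 163060) (nat_lit 17) (node (nat_lit 4) (nat_lit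
  163060) (nat_lit 18) (node (nat_lit 6) (nat_lit 165085) (nat_lit 19) (node (nat_lit 4) (nat_lit
  166985) (nat_lit 20) nil nil) nil) nil) nil) nil) nil) (node (nat_lit 5) (nat_lit 163060)
  (nat_lit 14) nil nil)) nil)) nil))) nil)) (node (nat_lit 0) (nat_lit 158378) (nat_lit 10) (node
  (nat_lit 5) (nat_lit 158378) (nat_lit 11) (node (nat_lit 4) (nat_lit 158378) (nat_lit 12) (node
  (nat_lit 5) (nat_lit 158378) (nat_lit 13) (node (nat_lit 6) (nat_lit 158378) (nat_lit 14) (node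
  (nat_lit 5) (nat_lit 158378) (nat_lit 15) (node (nat_lit 4) (nat_lit 158378) (nat_lit 16) (node
  (nat_lit 6) (nat_lit 158378) (nat_lit 17) (node (nat_lit 4) (nat_lit 161275) (nat_lit 18) (node
  (nat_lit 5) (nat_lit 162525) (nat_lit 19) (node (nat_lit 4) (nat_lit 162187) (nat_lit 20) nil
  nil) nil) nil) nil) nil) (node (nat_lit 4) (nat_lit 158378) (nat_lit 15) (node (nat_lit 6)
  (nat_lit 158378) (nat_lit 16) nil nil) nil)) nil) (node (nat_lit 6) (nat_lit 158378) (nat_lit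
  13) (node (nat_lit 5) (nat_lit 158378) (nat_lit 14) (node (nat_lit 4) (nat_lit 158378) (nat_lit
  15) (node (nat_lit 5) (nat_lit 158378) (nat_lit 16) (node (nat_lit 6) (nat_lit 158378) (nat_lit
  17) (node (nat_lit 5) (nat_lit 162333) (nat_lit 18) (node (nat_lit 4) (nat_lit 163093) (nat_lit
  19) (node (nat_lit 6) (nat_lit 163920) (nat_lit 20) (node (nat_lit 4) (nat_lit 164299) (nat_lit
  21) (node (nat_lit 5) (nat_lit 164348) (nat_lit 22) nil nil) nil) nil) nil) nil) nil) nil) nil)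
  nil) nil)) (node (nat_lit 6) (nat_lit 158378) (nat_lit 12) (node (nat_lit 4) (nat_lit 158378)
  (nat_lit 13) (node (nat_lit 5) (nat_lit 158378) (nat_lit 14) (node (nat_lit 6) (nat_lit 158378)
  (nat_lit 15) (node (nat_lit 5) (nat_lit 158378) (nat_lit 16) (node (nat_lit 4) (nat_lit 158378)
  (nat_lit 17) (node (nat_lit 6) (nat_lit 161967) (nat_lit 18) (node (nat_lit 4) (nat_lit 164318)
  (nat_lit 19) (node (nat_lit 5) (nat_lit 164164) (nat_lit 20) nil nil) nil) nil) nil) nil) nil)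
  (node (nat_lit 6) (nat_lit 158378) (nat_lit 14) nil nil)) (node (nat_lit 5) (nat_lit 158378)
  (nat_lit 13) nil nil)) (node (nat_lit 13) (nat_lit 164518) (nat_lit 12) nil nil))) (node
  (nat_lit 6) (nat_lit 158378) (nat_lit 11) (node (nat_lit 4) (nat_lit 158378) (nat_lit 12) (node
  (nat_lit 5) (nat_lit 158378) (nat_lit 13) (node (nat_lit 6) (nat_lit 158378) (nat_lit 14) (node
  (nat_lit 5) (nat_lit 158378) (nat_lit 15) (node (nat_lit 4) (nat_lit 158378) (nat_lit 16) (node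
  (nat_lit 6) (nat_lit 158378) (nat_lit 17) (node (nat_lit 4) (nat_lit 161827) (nat_lit 18) (node
  (nat_lit 5) (nat_lit 163652) (nat_lit 19) (node (nat_lit 4) (nat_lit 165308) (nat_lit 20) nil
  nil) nil) nil) nil) nil) nil) nil) (node (nat_lit 6) (nat_lit 158378) (nat_lit 13) (node
  (nat_lit 5) (nat_lit 158378) (nat_lit 14) (node (nat_lit 4) (nat_lit 158378) (nat_lit 15) (node
  (nat_lit 5) (nat_lit 158378) (nat_lit 16) (node (nat_lit 6) (nat_lit 158378) (nat_lit 17) (node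
  (nat_lit 5) (nat_lit 162372) (nat_lit 18) (node (nat_lit 4) (nat_lit 163093) (nat_lit 19) (node
  (nat_lit 6) (nat_lit 163920) (nat_lit 20) (node (nat_lit 4) (nat_lit 164299) (nat_lit 21) (node
  (nat_lit 5) (nat_lit 164348) (nat_lit 22) (node (nat_lit 4) (nat_lit 164347) (nat_lit 23) nil
  nil) nil) nil) nil) nil) nil) nil) nil) nil) nil) nil)) (node (nat_lit 5) (nat_lit 158378)
  (nat_lit 12) (node (nat_lit 4) (nat_lit 158378) (nat_lit 13) (node (nat_lit 5) (nat_lit 158378)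
  (nat_lit 14) (node (nat_lit 6) (nat_lit 158378) (nat_lit 15) (node (nat_lit 5) (nat_lit 158378)
  (nat_lit 16) (node (nat_lit 4) (nat_lit 158378) (nat_lit 17) (node (nat_lit 6) (nat_lit 161717)
  (nat_lit 18) nil nil) nil) nil) nil) nil) (node (nat_lit 6) (nat_lit 158378) (nat_lit 13) nil
  nil)) (node (nat_lit 13) (nat_lit 162194) (nat_lit 12) nil nil))) (node (nat_lit 4) (nat_lit
  158378) (nat_lit 11) (node (nat_lit 5) (nat_lit 158378) (nat_lit 12) (node (nat_lit 6) (nat_lit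
  158378) (nat_lit 13) (node (nat_lit 5) (nat_lit 158378) (nat_lit 14) (node (nat_lit 4) (nat_lit
  158378) (nat_lit 15) (node (nat_lit 6) (nat_lit 158378) (nat_lit 16) (node (nat_lit 4) (nat_lit
  158378) (nat_lit 17) (node (nat_lit 5) (nat_lit 160521) (nat_lit 18) (node (nat_lit 4) (nat_lit
  160513) (nat_lit 19) nil nil) nil) nil) nil) nil) nil) (node (nat_lit 4) (nat_lit 158378)
  (nat_lit 13) (node (nat_lit 6) (nat_lit 158378) (nat_lit 14) (node (nat_lit 5) (nat_lit 158378)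
  (nat_lit 15) (node (nat_lit 4) (nat_lit 158378) (nat_lit 16) (node (nat_lit 5) (nat_lit 158378)
  (nat_lit 17) (node (nat_lit 6) (nat_lit 162162) (nat_lit 18) (node (nat_lit 5) (nat_lit 163711)
  (nat_lit 19) (node (nat_lit 4) (nat_lit 163906) (nat_lit 20) (node (nat_lit 6) (nat_lit 164726)
  (nat_lit 21) (node (nat_lit 4) (nat_lit 165107) (nat_lit 22) (node (nat_lit 5) (nat_lit 165124)
  (nat_lit 23) (node (nat_lit 4) (nat_lit 165120) (nat_lit 24) nil nil) nil) nil) nil) nil) nil)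
  nil) nil) nil) nil) nil) nil)) (node (nat_lit 6) (nat_lit 158378) (nat_lit 12) (node (nat_lit 4)
  (nat_lit 158378) (nat_lit 13) (node (nat_lit 5) (nat_lit 158378) (nat_lit 14) (node (nat_lit 6)
  (nat_lit 158378) (nat_lit 15) (node (nat_lit 5) (nat_lit 158378) (nat_lit 16) (node (nat_lit 4)
  (nat_lit 158378) (nat_lit 17) (node (nat_lit 6) (nat_lit 160974) (nat_lit 18) nil nil) nil) nil)
  nil) nil) (node (nat_lit 5) (nat_lit 158378) (nat_lit 13) (node (nat_lit 4) (nat_lit 158378)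
  (nat_lit 14) (node (nat_lit 5) (nat_lit 158378) (nat_lit 15) (node (nat_lit 6) (nat_lit 158378)
  (nat_lit 16) (node (nat_lit 5) (nat_lit 158378) (nat_lit 17) (node (nat_lit 4) (nat_lit 160048)
  (nat_lit 18) nil nil) nil) nil) nil) nil) nil)) nil)) (node (nat_lit 0) (nat_lit 160521)
  (nat_lit 11) nil nil)))) nil)) (node (nat_lit 0) (nat_lit 0) (nat_lit 9) (node (nat_lit 6)
  (nat_lit 150718) (nat_lit 10) (node (nat_lit 5) (nat_lit 150718) (nat_lit 11) (node (nat_lit 4)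
  (nat_lit 150718) (nat_lit 12) (node (nat_lit 5) (nat_lit 150718) (nat_lit 13) (node (nat_lit 6)
  (nat_lit 150718) (nat_lit 14) (node (nat_lit 5) (nat_lit 150718) (nat_lit 15) (node (nat_lit 4)
  (nat_lit 150718) (nat_lit 16) (node (nat_lit 6) (nat_lit 154997) (nat_lit 17) (node (nat_lit 4)
  (nat_lit 156851) (nat_lit 18) (node (nat_lit 5) (nat_lit 156591) (nat_lit 19) nil nil) nil) nil)
  nil) nil) nil) (node (nat_lit 6) (nat_lit 150718) (nat_lit 13) (node (nat_lit 4) (nat_lit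
  150718) (nat_lit 14) nil nil) nil)) (node (nat_lit 6) (nat_lit 150718) (nat_lit 12) (node
  (nat_lit 4) (nat_lit 150718) (nat_lit 13) (node (nat_lit 5) (nat_lit 150718) (nat_lit 14) (node
  (nat_lit 6) (nat_lit 150718) (nat_lit 15) (node (nat_lit 5) (nat_lit 150718) (nat_lit 16) (node
  (nat_lit 4) (nat_lit 155591) (nat_lit 17) nil nil) nil) nil) nil) nil) nil)) (node (nat_lit 4)
  (nat_lit 150718) (nat_lit 11) (node (nat_lit 5) (nat_lit 150718) (nat_lit 12) (node (nat_lit 6)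
  (nat_lit 150718) (nat_lit 13) (node (nat_lit 5) (nat_lit 150718) (nat_lit 14) (node (nat_lit 4)
  (nat_lit 150718) (nat_lit 15) (node (nat_lit 6) (nat_lit 150718) (nat_lit 16) (node (nat_lit 4)
  (nat_lit 155139) (nat_lit 17) (node (nat_lit 5) (nat_lit 157478) (nat_lit 18) nil nil) nil) nil)
  nil) (node (nat_lit 4) (nat_lit 150718) (nat_lit 14) nil nil)) (node (nat_lit 4) (nat_lit
  150718) (nat_lit 13) (node (nat_lit 6) (nat_lit 150718) (nat_lit 14) nil nil) nil)) (node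
  (nat_lit 6) (nat_lit 150718) (nat_lit 12) (node (nat_lit 5) (nat_lit 150718) (nat_lit 13) nil
  nil) nil)) (node (nat_lit 12) (nat_lit 158049) (nat_lit 11) nil nil))) (node (nat_lit 5)
  (nat_lit 150718) (nat_lit 10) (node (nat_lit 4) (nat_lit 150718) (nat_lit 11) (node (nat_lit 6)
  (nat_lit 150718) (nat_lit 12) (node (nat_lit 4) (nat_lit 150718) (nat_lit 13) (node (nat_lit 5)
  (nat_lit 150718) (nat_lit 14) (node (nat_lit 6) (nat_lit 150718) (nat_lit 15) (node (nat_lit 5)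
  (nat_lit 150718) (nat_lit 16) (node (nat_lit 4) (nat_lit 156003) (nat_lit 17) (node (nat_lit 6)
  (nat_lit 157227) (nat_lit 18) nil nil) nil) nil) nil) nil) (node (nat_lit 5) (nat_lit 150718)
  (nat_lit 13) (node (nat_lit 6) (nat_lit 150718) (nat_lit 14) nil nil) nil)) (node (nat_lit 5)
  (nat_lit 150718) (nat_lit 12) (node (nat_lit 6) (nat_lit 150718) (nat_lit 13) (node (nat_lit 5)
  (nat_lit 150718) (nat_lit 14) (node (nat_lit 4) (nat_lit 150718) (nat_lit 15) (node (nat_lit 6)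
  (nat_lit 150718) (nat_lit 16) (node (nat_lit 4) (nat_lit 154431) (nat_lit 17) (node (nat_lit 5)
  (nat_lit 156033) (nat_lit 18) nil nil) nil) nil) nil) nil) nil) nil)) (node (nat_lit 6) (nat_lit
  150718) (nat_lit 11) (node (nat_lit 4) (nat_lit 150718) (nat_lit 12) (node (nat_lit 5) (nat_lit
  150718) (nat_lit 13) (node (nat_lit 6) (nat_lit 150718) (nat_lit 14) (node (nat_lit 5) (nat_lit
  150718) (nat_lit 15) (node (nat_lit 4) (nat_lit 150718) (nat_lit 16) (node (nat_lit 6) (nat_lit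
  155591) (nat_lit 17) (node (nat_lit 4) (nat_lit 156445) (nat_lit 18) (node (nat_lit 5) (nat_lit
  156185) (nat_lit 19) nil nil) nil) nil) nil) nil) (node (nat_lit 4) (nat_lit 150718) (nat_lit
  14) nil nil)) (node (nat_lit 6) (nat_lit 150718) (nat_lit 13) (node (nat_lit 5) (nat_lit 150718)
  (nat_lit 14) (node (nat_lit 4) (nat_lit 150718) (nat_lit 15) (node (nat_lit 5) (nat_lit 150409)
  (nat_lit 16) (node (nat_lit 6) (nat_lit 153490) (nat_lit 17) nil nil) nil) nil) nil) nil)) (node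
  (nat_lit 5) (nat_lit 150718) (nat_lit 12) nil nil)) nil)) (node (nat_lit 4) (nat_lit 150718)
  (nat_lit 10) (node (nat_lit 5) (nat_lit 150718) (nat_lit 11) (node (nat_lit 4) (nat_lit 150718)
  (nat_lit 12) (node (nat_lit 6) (nat_lit 150718) (nat_lit 13) (node (nat_lit 5) (nat_lit 150718)
  (nat_lit 14) (node (nat_lit 4) (nat_lit 150718) (nat_lit 15) (node (nat_lit 5) (nat_lit 150718)
  (nat_lit 16) (node (nat_lit 6) (nat_lit 153844) (nat_lit 17) (node (nat_lit 5) (nat_lit 156052)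
  (nat_lit 18) (node (nat_lit 4) (nat_lit 155919) (nat_lit 19) (node (nat_lit 6) (nat_lit 157183)
  (nat_lit 20) (node (nat_lit 4) (nat_lit 157991) (nat_lit 21) (node (nat_lit 5) (nat_lit 157926)
  (nat_lit 22) nil nil) nil) nil) nil) nil) nil) nil) nil) nil) nil) (node (nat_lit 6) (nat_lit
  150718) (nat_lit 12) (node (nat_lit 4) (nat_lit 150718) (nat_lit 13) (node (nat_lit 6) (nat_lit
  150718) (nat_lit 14) nil nil) (node (nat_lit 5) (nat_lit 150718) (nat_lit 13) (node (nat_lit 4)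
  (nat_lit 150718) (nat_lit 14) nil nil) nil)) nil)) (node (nat_lit 6) (nat_lit 150718) (nat_lit
  11) (node (nat_lit 5) (nat_lit 150718) (nat_lit 12) (node (nat_lit 6) (nat_lit 150718) (nat_lit
  13) (node (nat_lit 4) (nat_lit 150718) (nat_lit 14) (node (nat_lit 5) (nat_lit 150718) (nat_lit
  15) (node (nat_lit 6) (nat_lit 150718) (nat_lit 16) (node (nat_lit 5) (nat_lit 154169) (nat_lit
  17) nil nil) nil) nil) nil) (node (nat_lit 4) (nat_lit 150718) (nat_lit 13) (node (nat_lit 5)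
  (nat_lit 150718) (nat_lit 14) nil nil) nil)) (node (nat_lit 4) (nat_lit 150718) (nat_lit 12) nil
  nil)) (node (nat_lit 12) (nat_lit 157965) (nat_lit 11) nil nil))) (node (nat_lit 0) (nat_lit
  157558) (nat_lit 10) nil nil)))) nil))) nil) (node (nat_lit 5) (nat_lit 0) (nat_lit 7) (node
  (nat_lit 6) (nat_lit 0) (nat_lit 8) (node (nat_lit 4) (nat_lit 0) (nat_lit 9) t83 (node (nat_lit
  0) (nat_lit 162195) (nat_lit 9) (node (nat_lit 4) (nat_lit 162374) (nat_lit 10) (node (nat_lit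
  6) (nat_lit 162374) (nat_lit 11) (node (nat_lit 5) (nat_lit 162374) (nat_lit 12) (node (nat_lit
  6) (nat_lit 162374) (nat_lit 13) (node (nat_lit 4) (nat_lit 162374) (nat_lit 14) (node (nat_lit
  5) (nat_lit 162374) (nat_lit 15) (node (nat_lit 6) (nat_lit 162614) (nat_lit 16) (node (nat_lit
  5) (nat_lit 165799) (nat_lit 17) nil nil) nil) nil) nil) (node (nat_lit 4) (nat_lit 162374)
  (nat_lit 13) (node (nat_lit 5) (nat_lit 162374) (nat_lit 14) (node (nat_lit 6) (nat_lit 162374)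
  (nat_lit 15) (node (nat_lit 5) (nat_lit 162884) (nat_lit 16) (node (nat_lit 4) (nat_lit 163271)
  (nat_lit 17) nil nil) nil) nil) nil) nil)) (node (nat_lit 4) (nat_lit 162374) (nat_lit 12) (node
  (nat_lit 5) (nat_lit 162374) (nat_lit 13) (node (nat_lit 6) (nat_lit 162374) (nat_lit 14) (node
  (nat_lit 5) (nat_lit 162374) (nat_lit 15) (node (nat_lit 4) (nat_lit 162884) (nat_lit 16) (node
  (nat_lit 6) (nat_lit 166212) (nat_lit 17) (node (nat_lit 5) (nat_lit 169648) (nat_lit 18) (node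
  (nat_lit 6) (nat_lit 172402) (nat_lit 19) nil nil) nil) nil) nil) nil) nil) nil) nil)) (node
  (nat_lit 5) (nat_lit 162374) (nat_lit 11) (node (nat_lit 6) (nat_lit 162374) (nat_lit 12) (node
  (nat_lit 5) (nat_lit 162374) (nat_lit 13) (node (nat_lit 4) (nat_lit 162374) (nat_lit 14) nil
  nil) (node (nat_lit 4) (nat_lit 162374) (nat_lit 13) (node (nat_lit 6) (nat_lit 162374) (nat_lit
  14) nil nil) nil)) (node (nat_lit 4) (nat_lit 162374) (nat_lit 12) nil nil)) (node (nat_lit 12)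
  (nat_lit 172200) (nat_lit 11) nil nil))) (node (nat_lit 5) (nat_lit 162156) (nat_lit 10) (node
  (nat_lit 4) (nat_lit 162302) (nat_lit 11) (node (nat_lit 6) (nat_lit 162302) (nat_lit 12) (node
  (nat_lit 4) (nat_lit 162302) (nat_lit 13) (node (nat_lit 5) (nat_lit 162302) (nat_lit 14) (node
  (nat_lit 6) (nat_lit 162302) (nat_lit 15) (node (nat_lit 5) (nat_lit 162302) (nat_lit 16) (node
  (nat_lit 4) (nat_lit 167931) (nat_lit 17) (node (nat_lit 6) (nat_lit 170599) (nat_lit 18) (node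
  (nat_lit 5) (nat_lit 173659) (nat_lit 19) nil nil) nil) nil) nil) nil) nil) (node (nat_lit 5)
  (nat_lit 162302) (nat_lit 13) (node (nat_lit 6) (nat_lit 162302) (nat_lit 14) nil nil) nil))
  (node (nat_lit 5) (nat_lit 162302) (nat_lit 12) (node (nat_lit 6) (nat_lit 162302) (nat_lit 13)
  (node (nat_lit 5) (nat_lit 162302) (nat_lit 14) (node (nat_lit 4) (nat_lit 162302) (nat_lit 15)
  (node (nat_lit 6) (nat_lit 162811) (nat_lit 16) (node (nat_lit 5) (nat_lit 163198) (nat_lit 17)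
  (node (nat_lit 6) (nat_lit 165274) (nat_lit 18) nil nil) nil) nil) nil) nil) nil) nil)) (node
  (nat_lit 6) (nat_lit 162836) (nat_lit 11) (node (nat_lit 4) (nat_lit 163120) (nat_lit 12) (node
  (nat_lit 5) (nat_lit 163235) (nat_lit 13) (node (nat_lit 6) (nat_lit 163235) (nat_lit 14) (node
  (nat_lit 5) (nat_lit 163235) (nat_lit 15) (node (nat_lit 4) (nat_lit 162985) (nat_lit 16) (node
  (nat_lit 6) (nat_lit 167337) (nat_lit 17) nil nil) nil) nil) nil) (node (nat_lit 6) (nat_lit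
  163120) (nat_lit 13) (node (nat_lit 5) (nat_lit 163120) (nat_lit 14) (node (nat_lit 4) (nat_lit
  163120) (nat_lit 15) (node (nat_lit 5) (nat_lit 162687) (nat_lit 16) (node (nat_lit 6) (nat_lit
  165768) (nat_lit 17) nil nil) nil) nil) nil) nil)) (node (nat_lit 5) (nat_lit 162927) (nat_lit
  12) nil nil)) nil)) (node (nat_lit 6) (nat_lit 162515) (nat_lit 10) (node (nat_lit 5) (nat_lit
  162899) (nat_lit 11) (node (nat_lit 4) (nat_lit 162899) (nat_lit 12) (node (nat_lit 5) (nat_lit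
  162899) (nat_lit 13) (node (nat_lit 6) (nat_lit 162899) (nat_lit 14) (node (nat_lit 5) (nat_lit
  162899) (nat_lit 15) (node (nat_lit 4) (nat_lit 163176) (nat_lit 16) (node (nat_lit 6) (nat_lit
  166554) (nat_lit 17) (node (nat_lit 5) (nat_lit 166856) (nat_lit 18) (node (nat_lit 6) (nat_lit
  168476) (nat_lit 19) nil nil) nil) nil) nil) (node (nat_lit 4) (nat_lit 162899) (nat_lit 15) nil
  nil)) nil) (node (nat_lit 6) (nat_lit 162899) (nat_lit 13) (node (nat_lit 4) (nat_lit 162899)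
  (nat_lit 14) nil nil) nil)) (node (nat_lit 6) (nat_lit 162899) (nat_lit 12) nil nil)) (node
  (nat_lit 4) (nat_lit 163074) (nat_lit 11) (node (nat_lit 5) (nat_lit 163190) (nat_lit 12) (node
  (nat_lit 6) (nat_lit 163190) (nat_lit 13) (node (nat_lit 5) (nat_lit 163190) (nat_lit 14) (node
  (nat_lit 4) (nat_lit 163190) (nat_lit 15) (node (nat_lit 6) (nat_lit 163190) (nat_lit 16) (node
  (nat_lit 5) (nat_lit 167609) (nat_lit 17) (node (nat_lit 6) (nat_lit 171059) (nat_lit 18) (node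
  (nat_lit 12) (nat_lit 70286) (nat_lit 19) nil nil) nil) nil) nil) nil) nil) (node (nat_lit 4)
  (nat_lit 163190) (nat_lit 13) (node (nat_lit 6) (nat_lit 163190) (nat_lit 14) nil nil) nil))
  (node (nat_lit 6) (nat_lit 163074) (nat_lit 12) nil nil)) nil)) nil))) nil)) nil) nil))

noncomputable def t85 : Tr :=
  (node (nat_lit 6) (nat_lit 0) (nat_lit 12) (node (nat_lit 4) (nat_lit 0) (nat_lit 13) (node
  (nat_lit 5) (nat_lit 0) (nat_lit 14) (node (nat_lit 4) (nat_lit 0) (nat_lit 15) (node (nat_lit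
  6) (nat_lit 0) (nat_lit 16) (node (nat_lit 5) (nat_lit 0) (nat_lit 17) (node (nat_lit 6)
  (nat_lit 0) (nat_lit 18) (node (nat_lit 4) (nat_lit 0) (nat_lit 19) (node (nat_lit 5) (nat_lit
  0) (nat_lit 20) (node (nat_lit 6) (nat_lit 0) (nat_lit 21) (node (nat_lit 5) (nat_lit 0)
  (nat_lit 22) (node (nat_lit 4) (nat_lit 122388) (nat_lit 23) (node (nat_lit 5) (nat_lit 119164)
  (nat_lit 24) (node (nat_lit 6) (nat_lit 116341) (nat_lit 25) (node (nat_lit 4) (nat_lit 116999)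
  (nat_lit 26) (node (nat_lit 6) (nat_lit 108184) (nat_lit 27) (node (nat_lit 5) (nat_lit 108320)
  (nat_lit 28) (node (nat_lit 4) (nat_lit 101592) (nat_lit 29) (node (nat_lit 6) (nat_lit 81269)
  (nat_lit 30) (node (nat_lit 4) (nat_lit 63932) (nat_lit 31) (node (nat_lit 5) (nat_lit 52201)
  (nat_lit 32) (node (nat_lit 4) (nat_lit 52859) (nat_lit 33) nil nil) nil) nil) nil) nil) nil)
  nil) nil) nil) (node (nat_lit 6) (nat_lit 122829) (nat_lit 24) (node (nat_lit 4) (nat_lit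
  123326) (nat_lit 25) (node (nat_lit 5) (nat_lit 123535) (nat_lit 26) nil nil) nil) nil)) (node
  (nat_lit 0) (nat_lit 123853) (nat_lit 23) nil nil)) (node (nat_lit 0) (nat_lit 127599) (nat_lit
  22) nil nil)) (node (nat_lit 4) (nat_lit 0) (nat_lit 21) (node (nat_lit 6) (nat_lit 125097)
  (nat_lit 22) (node (nat_lit 4) (nat_lit 125939) (nat_lit 23) (node (nat_lit 5) (nat_lit 126334)
  (nat_lit 24) (node (nat_lit 6) (nat_lit 126767) (nat_lit 25) (node (nat_lit 5) (nat_lit 126745)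
  (nat_lit 26) (node (nat_lit 4) (nat_lit 126521) (nat_lit 27) (node (nat_lit 5) (nat_lit 126184)
  (nat_lit 28) (node (nat_lit 6) (nat_lit 124973) (nat_lit 29) (node (nat_lit 4) (nat_lit 122828)
  (nat_lit 30) (node (nat_lit 6) (nat_lit 120044) (nat_lit 31) (node (nat_lit 5) (nat_lit 116355)
  (nat_lit 32) (node (nat_lit 4) (nat_lit 109527) (nat_lit 33) (node (nat_lit 6) (nat_lit 112844)
  (nat_lit 34) (node (nat_lit 4) (nat_lit 109243) (nat_lit 35) (node (nat_lit 5) (nat_lit 100636)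
  (nat_lit 36) nil nil) nil) nil) nil) nil) nil) nil) nil) nil) nil) nil) nil) nil) nil) (node
  (nat_lit 0) (nat_lit 128108) (nat_lit 22) nil nil)) (node (nat_lit 0) (nat_lit 128244) (nat_lit
  21) nil nil))) (node (nat_lit 6) (nat_lit 0) (nat_lit 20) (node (nat_lit 5) (nat_lit 125249)
  (nat_lit 21) (node (nat_lit 4) (nat_lit 126298) (nat_lit 22) (node (nat_lit 6) (nat_lit 127061)
  (nat_lit 23) (node (nat_lit 4) (nat_lit 127702) (nat_lit 24) (node (nat_lit 5) (nat_lit 127993)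
  (nat_lit 25) (node (nat_lit 6) (nat_lit 128381) (nat_lit 26) (node (nat_lit 5) (nat_lit 128429)
  (nat_lit 27) (node (nat_lit 4) (nat_lit 128190) (nat_lit 28) (node (nat_lit 5) (nat_lit 128089)
  (nat_lit 29) (node (nat_lit 6) (nat_lit 126280) (nat_lit 30) (node (nat_lit 4) (nat_lit 124789)
  (nat_lit 31) (node (nat_lit 6) (nat_lit 124170) (nat_lit 32) (node (nat_lit 5) (nat_lit 121191)
  (nat_lit 33) (node (nat_lit 4) (nat_lit 116457) (nat_lit 34) (node (nat_lit 6) (nat_lit 113426)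
  (nat_lit 35) (node (nat_lit 4) (nat_lit 109811) (nat_lit 36) (node (nat_lit 5) (nat_lit 107480)
  (nat_lit 37) (node (nat_lit 4) (nat_lit 106134) (nat_lit 38) (node (nat_lit 6) (nat_lit 96437)
  (nat_lit 39) (node (nat_lit 5) (nat_lit 59765) (nat_lit 40) (node (nat_lit 6) (nat_lit 40919)
  (nat_lit 41) (node (nat_lit 4) (nat_lit 30106) (nat_lit 42) (node (nat_lit 6) (nat_lit 8222)
  (nat_lit 43) (node (nat_lit 5) (nat_lit 11890) (nat_lit 44) nil nil) nil) nil) nil) nil) nil)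
  nil) nil) nil) nil) nil) nil) nil) nil) nil) nil) nil) nil) nil) nil) nil) (node (nat_lit 5)
  (nat_lit 126642) (nat_lit 23) (node (nat_lit 6) (nat_lit 126912) (nat_lit 24) (node (nat_lit 5)
  (nat_lit 127122) (nat_lit 25) (node (nat_lit 4) (nat_lit 126988) (nat_lit 26) nil nil) nil) nil)
  nil)) nil) (node (nat_lit 0) (nat_lit 125626) (nat_lit 21) nil nil)) (node (nat_lit 0) (nat_lit
  129172) (nat_lit 20) nil nil))) (node (nat_lit 0) (nat_lit 129767) (nat_lit 19) nil nil)) (node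
  (nat_lit 4) (nat_lit 0) (nat_lit 18) (node (nat_lit 5) (nat_lit 0) (nat_lit 19) (node (nat_lit
  6) (nat_lit 124623) (nat_lit 20) (node (nat_lit 5) (nat_lit 126268) (nat_lit 21) (node (nat_lit
  4) (nat_lit 127316) (nat_lit 22) (node (nat_lit 6) (nat_lit 127698) (nat_lit 23) (node (nat_lit
  4) (nat_lit 128340) (nat_lit 24) (node (nat_lit 5) (nat_lit 128630) (nat_lit 25) (node (nat_lit
  6) (nat_lit 129019) (nat_lit 26) (node (nat_lit 5) (nat_lit 129067) (nat_lit 27) (node (nat_lit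
  4) (nat_lit 128856) (nat_lit 28) (node (nat_lit 5) (nat_lit 128734) (nat_lit 29) (node (nat_lit
  6) (nat_lit 127430) (nat_lit 30) (node (nat_lit 4) (nat_lit 125328) (nat_lit 31) (node (nat_lit
  6) (nat_lit 122984) (nat_lit 32) (node (nat_lit 5) (nat_lit 121830) (nat_lit 33) (node (nat_lit
  4) (nat_lit 117095) (nat_lit 34) (node (nat_lit 6) (nat_lit 114063) (nat_lit 35) (node (nat_lit
  4) (nat_lit 110427) (nat_lit 36) (node (nat_lit 5) (nat_lit 110764) (nat_lit 37) (node (nat_lit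
  4) (nat_lit 99668) (nat_lit 38) (node (nat_lit 6) (nat_lit 107206) (nat_lit 39) (node (nat_lit
  5) (nat_lit 92984) (nat_lit 40) (node (nat_lit 4) (nat_lit 59148) (nat_lit 41) (node (nat_lit 5)
  (nat_lit 59153) (nat_lit 42) (node (nat_lit 6) (nat_lit 56551) (nat_lit 43) nil nil) nil) nil)
  nil) nil) nil) nil) nil) nil) nil) nil) nil) nil) nil) nil) nil) nil) nil) nil) (node (nat_lit
  5) (nat_lit 127480) (nat_lit 24) nil nil)) nil) nil) (node (nat_lit 4) (nat_lit 126247) (nat_lit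
  21) (node (nat_lit 5) (nat_lit 127531) (nat_lit 22) (node (nat_lit 4) (nat_lit 127630) (nat_lit
  23) (node (nat_lit 6) (nat_lit 127731) (nat_lit 24) (node (nat_lit 4) (nat_lit 127074) (nat_lit
  25) nil nil) nil) nil) (node (nat_lit 6) (nat_lit 126693) (nat_lit 22) (node (nat_lit 5)
  (nat_lit 126469) (nat_lit 23) nil nil) nil)) nil)) (node (nat_lit 0) (nat_lit 128532) (nat_lit
  20) nil nil)) (node (nat_lit 0) (nat_lit 128694) (nat_lit 19) nil nil)) (node (nat_lit 0)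
  (nat_lit 129062) (nat_lit 18) nil nil))) (node (nat_lit 0) (nat_lit 130493) (nat_lit 17) nil
  nil)) (node (nat_lit 0) (nat_lit 129730) (nat_lit 16) (node (nat_lit 5) (nat_lit 129730)
  (nat_lit 17) nil nil) nil)) (node (nat_lit 6) (nat_lit 0) (nat_lit 15) (node (nat_lit 4)
  (nat_lit 0) (nat_lit 16) (node (nat_lit 6) (nat_lit 0) (nat_lit 17) (node (nat_lit 5) (nat_lit
  0) (nat_lit 18) (node (nat_lit 6) (nat_lit 0) (nat_lit 19) (node (nat_lit 4) (nat_lit 121528)
  (nat_lit 20) (node (nat_lit 5) (nat_lit 122476) (nat_lit 21) (node (nat_lit 4) (nat_lit 123523)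
  (nat_lit 22) (node (nat_lit 6) (nat_lit 123906) (nat_lit 23) (node (nat_lit 4) (nat_lit 124548)
  (nat_lit 24) (node (nat_lit 5) (nat_lit 124837) (nat_lit 25) (node (nat_lit 6) (nat_lit 125227)
  (nat_lit 26) (node (nat_lit 5) (nat_lit 124902) (nat_lit 27) (node (nat_lit 4) (nat_lit 124584)
  (nat_lit 28) (node (nat_lit 5) (nat_lit 124541) (nat_lit 29) (node (nat_lit 6) (nat_lit 123963)
  (nat_lit 30) (node (nat_lit 4) (nat_lit 123052) (nat_lit 31) (node (nat_lit 6) (nat_lit 121363)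
  (nat_lit 32) (node (nat_lit 5) (nat_lit 118037) (nat_lit 33) (node (nat_lit 4) (nat_lit 113707)
  (nat_lit 34) (node (nat_lit 6) (nat_lit 107182) (nat_lit 35) (node (nat_lit 4) (nat_lit 105695)
  (nat_lit 36) (node (nat_lit 5) (nat_lit 99087) (nat_lit 37) nil nil) nil) nil) nil) nil) nil)
  nil) nil) nil) nil) nil) nil) nil) (node (nat_lit 5) (nat_lit 123688) (nat_lit 24) (node
  (nat_lit 4) (nat_lit 123898) (nat_lit 25) (node (nat_lit 5) (nat_lit 124062) (nat_lit 26) (node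
  (nat_lit 6) (nat_lit 124190) (nat_lit 27) (node (nat_lit 5) (nat_lit 124289) (nat_lit 28) (node
  (nat_lit 4) (nat_lit 124225) (nat_lit 29) nil nil) nil) nil) nil) nil) nil)) nil) (node (nat_lit
  6) (nat_lit 122548) (nat_lit 22) (node (nat_lit 5) (nat_lit 120635) (nat_lit 23) (node (nat_lit
  4) (nat_lit 118842) (nat_lit 24) (node (nat_lit 5) (nat_lit 117583) (nat_lit 25) (node (nat_lit
  6) (nat_lit 116283) (nat_lit 26) (node (nat_lit 4) (nat_lit 113281) (nat_lit 27) (node (nat_lit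
  6) (nat_lit 106882) (nat_lit 28) (node (nat_lit 5) (nat_lit 100708) (nat_lit 29) (node (nat_lit
  4) (nat_lit 85608) (nat_lit 30) (node (nat_lit 6) (nat_lit 86152) (nat_lit 31) (node (nat_lit 4)
  (nat_lit 79515) (nat_lit 32) (node (nat_lit 5) (nat_lit 80268) (nat_lit 33) (node (nat_lit 6)
  (nat_lit 57047) (nat_lit 34) nil nil) nil) nil) nil) nil) nil) nil) nil) nil) nil) nil) nil)
  nil)) nil) (node (nat_lit 0) (nat_lit 122612) (nat_lit 20) nil nil)) (node (nat_lit 4) (nat_lit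
  0) (nat_lit 19) (node (nat_lit 5) (nat_lit 0) (nat_lit 20) (node (nat_lit 6) (nat_lit 123357)
  (nat_lit 21) (node (nat_lit 5) (nat_lit 123870) (nat_lit 22) (node (nat_lit 4) (nat_lit 123591)
  (nat_lit 23) nil nil) (node (nat_lit 4) (nat_lit 124283) (nat_lit 22) (node (nat_lit 5) (nat_lit
  124628) (nat_lit 23) nil nil) nil)) (node (nat_lit 0) (nat_lit 124394) (nat_lit 21) nil nil))
  (node (nat_lit 0) (nat_lit 125959) (nat_lit 20) nil nil)) (node (nat_lit 0) (nat_lit 127176)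
  (nat_lit 19) nil nil))) (node (nat_lit 0) (nat_lit 129077) (nat_lit 18) nil nil)) (node (nat_lit
  0) (nat_lit 124588) (nat_lit 17) nil nil)) (node (nat_lit 5) (nat_lit 0) (nat_lit 16) (node
  (nat_lit 4) (nat_lit 0) (nat_lit 17) (node (nat_lit 6) (nat_lit 0) (nat_lit 18) (node (nat_lit
  5) (nat_lit 0) (nat_lit 19) (node (nat_lit 6) (nat_lit 0) (nat_lit 20) (node (nat_lit 4)
  (nat_lit 104394) (nat_lit 21) (node (nat_lit 5) (nat_lit 104359) (nat_lit 22) (node (nat_lit 6)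
  (nat_lit 105237) (nat_lit 23) (node (nat_lit 5) (nat_lit 103964) (nat_lit 24) (node (nat_lit 4)
  (nat_lit 102608) (nat_lit 25) (node (nat_lit 5) (nat_lit 101608) (nat_lit 26) (node (nat_lit 6)
  (nat_lit 100612) (nat_lit 27) (node (nat_lit 4) (nat_lit 99289) (nat_lit 28) (node (nat_lit 6)
  (nat_lit 94446) (nat_lit 29) (node (nat_lit 5) (nat_lit 90307) (nat_lit 30) (node (nat_lit 4)
  (nat_lit 81067) (nat_lit 31) (node (nat_lit 6) (nat_lit 67832) (nat_lit 32) (node (nat_lit 4)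
  (nat_lit 83558) (nat_lit 33) (node (nat_lit 5) (nat_lit 68818) (nat_lit 34) nil nil) nil) nil)
  nil) nil) nil) nil) nil) nil) nil) nil) (node (nat_lit 4) (nat_lit 104363) (nat_lit 23) (node
  (nat_lit 6) (nat_lit 103843) (nat_lit 24) nil nil) nil)) (node (nat_lit 6) (nat_lit 104945)
  (nat_lit 22) (node (nat_lit 5) (nat_lit 104721) (nat_lit 23) (node (nat_lit 4) (nat_lit 104503)
  (nat_lit 24) nil nil) nil) nil)) (node (nat_lit 0) (nat_lit 104991) (nat_lit 21) nil nil)) (node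
  (nat_lit 0) (nat_lit 106676) (nat_lit 20) nil nil)) (node (nat_lit 4) (nat_lit 0) (nat_lit 19)
  (node (nat_lit 0) (nat_lit 106544) (nat_lit 20) nil nil) (node (nat_lit 0) (nat_lit 108898)
  (nat_lit 19) nil nil))) (node (nat_lit 5) (nat_lit 0) (nat_lit 18) (node (nat_lit 6) (nat_lit 0)
  (nat_lit 19) (node (nat_lit 4) (nat_lit 88130) (nat_lit 20) (node (nat_lit 5) (nat_lit 89881)
  (nat_lit 21) (node (nat_lit 4) (nat_lit 91065) (nat_lit 22) (node (nat_lit 6) (nat_lit 91626)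
  (nat_lit 23) (node (nat_lit 4) (nat_lit 92350) (nat_lit 24) (node (nat_lit 5) (nat_lit 92725)
  (nat_lit 25) (node (nat_lit 6) (nat_lit 92995) (nat_lit 26) (node (nat_lit 5) (nat_lit 92856)
  (nat_lit 27) (node (nat_lit 4) (nat_lit 92302) (nat_lit 28) (node (nat_lit 5) (nat_lit 91473)
  (nat_lit 29) (node (nat_lit 6) (nat_lit 90027) (nat_lit 30) nil nil) nil) nil) nil) nil) nil)
  (node (nat_lit 5) (nat_lit 91407) (nat_lit 24) nil nil)) nil) nil) (node (nat_lit 6) (nat_lit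
  56659) (nat_lit 21) (node (nat_lit 5) (nat_lit 57648) (nat_lit 22) (node (nat_lit 6) (nat_lit
  58382) (nat_lit 23) (node (nat_lit 4) (nat_lit 58939) (nat_lit 24) (node (nat_lit 5) (nat_lit
  59240) (nat_lit 25) nil nil) nil) nil) nil) nil)) (node (nat_lit 0) (nat_lit 93935) (nat_lit 20)
  nil nil)) (node (nat_lit 0) (nat_lit 96179) (nat_lit 19) nil nil)) (node (nat_lit 0) (nat_lit
  108492) (nat_lit 18) nil nil))) (node (nat_lit 0) (nat_lit 111007) (nat_lit 17) nil nil)) (node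
  (nat_lit 0) (nat_lit 128762) (nat_lit 16) (node (nat_lit 6) (nat_lit 128762) (nat_lit 17) nil
  (node (nat_lit 5) (nat_lit 128762) (nat_lit 17) nil (node (nat_lit 4) (nat_lit 128762) (nat_lit
  17) nil nil))) nil))) (node (nat_lit 0) (nat_lit 130747) (nat_lit 15) (node (nat_lit 5) (nat_lit
  130747) (nat_lit 16) (node (nat_lit 4) (nat_lit 130747) (nat_lit 17) nil (node (nat_lit 6)
  (nat_lit 130747) (nat_lit 17) nil nil)) (node (nat_lit 4) (nat_lit 130747) (nat_lit 16) (node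
  (nat_lit 5) (nat_lit 130747) (nat_lit 17) nil nil) (node (nat_lit 6) (nat_lit 130747) (nat_lit
  16) nil nil))) nil))) (node (nat_lit 0) (nat_lit 132337) (nat_lit 14) (node (nat_lit 6) (nat_lit
  132337) (nat_lit 15) (node (nat_lit 4) (nat_lit 132337) (nat_lit 16) (node (nat_lit 5) (nat_lit
  132337) (nat_lit 17) (node (nat_lit 6) (nat_lit 132337) (nat_lit 18) (node (nat_lit 5) (nat_lit
  132337) (nat_lit 19) (node (nat_lit 4) (nat_lit 132337) (nat_lit 20) (node (nat_lit 5) (nat_lit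
  132337) (nat_lit 21) (node (nat_lit 6) (nat_lit 132337) (nat_lit 22) (node (nat_lit 4) (nat_lit
  132337) (nat_lit 23) nil nil) nil) nil) nil) nil) nil) (node (nat_lit 6) (nat_lit 132337)
  (nat_lit 17) (node (nat_lit 5) (nat_lit 132337) (nat_lit 18) nil nil) nil)) (node (nat_lit 5)
  (nat_lit 132337) (nat_lit 16) nil nil)) (node (nat_lit 4) (nat_lit 132337) (nat_lit 15) (node
  (nat_lit 5) (nat_lit 132337) (nat_lit 16) nil (node (nat_lit 6) (nat_lit 132337) (nat_lit 16)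
  (node (nat_lit 5) (nat_lit 132337) (nat_lit 17) nil nil) nil)) (node (nat_lit 5) (nat_lit
  132337) (nat_lit 15) (node (nat_lit 4) (nat_lit 132337) (nat_lit 16) nil (node (nat_lit 6)
  (nat_lit 132337) (nat_lit 16) nil nil)) nil))) nil)) (node (nat_lit 0) (nat_lit 131029) (nat_lit
  13) (node (nat_lit 4) (nat_lit 131029) (nat_lit 14) (node (nat_lit 5) (nat_lit 131029) (nat_lit
  15) (node (nat_lit 6) (nat_lit 131029) (nat_lit 16) (node (nat_lit 5) (nat_lit 131029) (nat_lit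
  17) (node (nat_lit 4) (nat_lit 131029) (nat_lit 18) (node (nat_lit 5) (nat_lit 131029) (nat_lit
  19) (node (nat_lit 6) (nat_lit 131029) (nat_lit 20) (node (nat_lit 4) (nat_lit 131595) (nat_lit
  21) nil nil) nil) nil) nil) nil) (node (nat_lit 4) (nat_lit 131029) (nat_lit 16) nil nil)) (node
  (nat_lit 6) (nat_lit 131029) (nat_lit 15) (node (nat_lit 5) (nat_lit 131029) (nat_lit 16) (node
  (nat_lit 4) (nat_lit 131029) (nat_lit 17) nil nil) (node (nat_lit 4) (nat_lit 131029) (nat_lit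
  16) (node (nat_lit 5) (nat_lit 131029) (nat_lit 17) nil nil) nil)) (node (nat_lit 16) (nat_lit
  132037) (nat_lit 15) nil nil))) (node (nat_lit 5) (nat_lit 131029) (nat_lit 14) (node (nat_lit
  6) (nat_lit 131029) (nat_lit 15) (node (nat_lit 5) (nat_lit 131029) (nat_lit 16) nil nil) (node
  (nat_lit 4) (nat_lit 131029) (nat_lit 15) (node (nat_lit 6) (nat_lit 131029) (nat_lit 16) (node
  (nat_lit 4) (nat_lit 131029) (nat_lit 17) nil nil) (node (nat_lit 5) (nat_lit 131029) (nat_lit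
  16) (node (nat_lit 6) (nat_lit 131029) (nat_lit 17) nil nil) nil)) nil)) (node (nat_lit 6)
  (nat_lit 131029) (nat_lit 14) (node (nat_lit 5) (nat_lit 131029) (nat_lit 15) (node (nat_lit 4)
  (nat_lit 131029) (nat_lit 16) (node (nat_lit 5) (nat_lit 131029) (nat_lit 17) (node (nat_lit 6)
  (nat_lit 131029) (nat_lit 18) nil nil) (node (nat_lit 6) (nat_lit 131029) (nat_lit 17) nil nil))
  (node (nat_lit 6) (nat_lit 131029) (nat_lit 16) nil nil)) (node (nat_lit 4) (nat_lit 131029)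
  (nat_lit 15) (node (nat_lit 5) (nat_lit 131029) (nat_lit 16) (node (nat_lit 6) (nat_lit 131029)
  (nat_lit 17) nil nil) (node (nat_lit 6) (nat_lit 131029) (nat_lit 16) nil nil)) nil)) (node
  (nat_lit 0) (nat_lit 132216) (nat_lit 14) nil nil)))) nil)) (node (nat_lit 5) (nat_lit 0)
  (nat_lit 12) (node (nat_lit 6) (nat_lit 0) (nat_lit 13) (node (nat_lit 5) (nat_lit 0) (nat_lit
  14) (node (nat_lit 4) (nat_lit 0) (nat_lit 15) (node (nat_lit 6) (nat_lit 0) (nat_lit 16) (node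
  (nat_lit 5) (nat_lit 0) (nat_lit 17) (node (nat_lit 6) (nat_lit 0) (nat_lit 18) (node (nat_lit
  4) (nat_lit 0) (nat_lit 19) (node (nat_lit 5) (nat_lit 125925) (nat_lit 20) (node (nat_lit 4)
  (nat_lit 127699) (nat_lit 21) (node (nat_lit 6) (nat_lit 128373) (nat_lit 22) (node (nat_lit 4)
  (nat_lit 129280) (nat_lit 23) (node (nat_lit 5) (nat_lit 129427) (nat_lit 24) (node (nat_lit 6)
  (nat_lit 129450) (nat_lit 25) (node (nat_lit 5) (nat_lit 128697) (nat_lit 26) (node (nat_lit 4)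
  (nat_lit 128767) (nat_lit 27) (node (nat_lit 5) (nat_lit 129222) (nat_lit 28) (node (nat_lit 6)
  (nat_lit 128143) (nat_lit 29) (node (nat_lit 4) (nat_lit 126732) (nat_lit 30) (node (nat_lit 6)
  (nat_lit 123870) (nat_lit 31) (node (nat_lit 5) (nat_lit 118574) (nat_lit 32) (node (nat_lit 4)
  (nat_lit 115421) (nat_lit 33) (node (nat_lit 5) (nat_lit 110934) (nat_lit 34) (node (nat_lit 6)
  (nat_lit 110169) (nat_lit 35) (node (nat_lit 5) (nat_lit 96936) (nat_lit 36) nil nil) nil) nil)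
  nil) nil) nil) nil) nil) nil) nil) nil) nil) nil) (node (nat_lit 5) (nat_lit 128959) (nat_lit
  23) nil nil)) nil) (node (nat_lit 6) (nat_lit 126655) (nat_lit 21) (node (nat_lit 5) (nat_lit
  125304) (nat_lit 22) (node (nat_lit 4) (nat_lit 125016) (nat_lit 23) (node (nat_lit 5) (nat_lit
  116348) (nat_lit 24) (node (nat_lit 6) (nat_lit 116167) (nat_lit 25) (node (nat_lit 4) (nat_lit
  116627) (nat_lit 26) (node (nat_lit 6) (nat_lit 113413) (nat_lit 27) (node (nat_lit 5) (nat_lit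
  98868) (nat_lit 28) (node (nat_lit 4) (nat_lit 90766) (nat_lit 29) (node (nat_lit 5) (nat_lit
  76193) (nat_lit 30) (node (nat_lit 6) (nat_lit 74026) (nat_lit 31) nil nil) nil) nil) nil) nil)
  nil) nil) nil) nil) nil) nil)) (node (nat_lit 6) (nat_lit 126662) (nat_lit 20) (node (nat_lit 5)
  (nat_lit 128760) (nat_lit 21) (node (nat_lit 4) (nat_lit 129781) (nat_lit 22) (node (nat_lit 6)
  (nat_lit 130531) (nat_lit 23) (node (nat_lit 4) (nat_lit 131160) (nat_lit 24) (node (nat_lit 5)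
  (nat_lit 131224) (nat_lit 25) (node (nat_lit 6) (nat_lit 131510) (nat_lit 26) (node (nat_lit 5)
  (nat_lit 130965) (nat_lit 27) (node (nat_lit 4) (nat_lit 130467) (nat_lit 28) (node (nat_lit 5)
  (nat_lit 130357) (nat_lit 29) (node (nat_lit 6) (nat_lit 128531) (nat_lit 30) (node (nat_lit 4)
  (nat_lit 127134) (nat_lit 31) (node (nat_lit 6) (nat_lit 126482) (nat_lit 32) (node (nat_lit 5)
  (nat_lit 122575) (nat_lit 33) (node (nat_lit 4) (nat_lit 125253) (nat_lit 34) (node (nat_lit 5)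
  (nat_lit 118671) (nat_lit 35) (node (nat_lit 6) (nat_lit 113806) (nat_lit 36) (node (nat_lit 5)
  (nat_lit 109596) (nat_lit 37) (node (nat_lit 4) (nat_lit 103135) (nat_lit 38) (node (nat_lit 6)
  (nat_lit 93437) (nat_lit 39) (node (nat_lit 5) (nat_lit 97124) (nat_lit 40) (node (nat_lit 6)
  (nat_lit 79777) (nat_lit 41) (node (nat_lit 4) (nat_lit 67144) (nat_lit 42) nil nil) nil) nil)
  nil) nil) nil) nil) nil) nil) nil) nil) nil) nil) nil) nil) nil) nil) nil) nil) (node (nat_lit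
  5) (nat_lit 130126) (nat_lit 23) nil nil)) nil) nil) (node (nat_lit 0) (nat_lit 130314) (nat_lit
  20) nil nil))) (node (nat_lit 0) (nat_lit 131196) (nat_lit 19) nil nil)) (node (nat_lit 0)
  (nat_lit 132198) (nat_lit 18) nil nil)) (node (nat_lit 4) (nat_lit 0) (nat_lit 17) (node
  (nat_lit 5) (nat_lit 0) (nat_lit 18) (node (nat_lit 6) (nat_lit 0) (nat_lit 19) (node (nat_lit
  4) (nat_lit 0) (nat_lit 20) (node (nat_lit 6) (nat_lit 0) (nat_lit 21) (node (nat_lit 5)
  (nat_lit 128893) (nat_lit 22) (node (nat_lit 6) (nat_lit 129795) (nat_lit 23) (node (nat_lit 4)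
  (nat_lit 130485) (nat_lit 24) (node (nat_lit 5) (nat_lit 130689) (nat_lit 25) (node (nat_lit 6)
  (nat_lit 130992) (nat_lit 26) (node (nat_lit 5) (nat_lit 130810) (nat_lit 27) (node (nat_lit 4)
  (nat_lit 130557) (nat_lit 28) (node (nat_lit 5) (nat_lit 126933) (nat_lit 29) (node (nat_lit 6)
  (nat_lit 125096) (nat_lit 30) (node (nat_lit 4) (nat_lit 123687) (nat_lit 31) (node (nat_lit 6)
  (nat_lit 123049) (nat_lit 32) (node (nat_lit 5) (nat_lit 119101) (nat_lit 33) (node (nat_lit 4)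
  (nat_lit 117961) (nat_lit 34) (node (nat_lit 5) (nat_lit 115753) (nat_lit 35) (node (nat_lit 6)
  (nat_lit 111187) (nat_lit 36) (node (nat_lit 5) (nat_lit 113658) (nat_lit 37) (node (nat_lit 4)
  (nat_lit 98605) (nat_lit 38) (node (nat_lit 6) (nat_lit 99140) (nat_lit 39) (node (nat_lit 4)
  (nat_lit 89191) (nat_lit 40) (node (nat_lit 5) (nat_lit 90929) (nat_lit 41) (node (nat_lit 6)
  (nat_lit 70042) (nat_lit 42) nil nil) nil) nil) nil) nil) nil) nil) nil) nil) nil) nil) nil)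
  nil) nil) nil) nil) nil) nil) nil) (node (nat_lit 4) (nat_lit 128992) (nat_lit 23) (node
  (nat_lit 5) (nat_lit 129261) (nat_lit 24) (node (nat_lit 6) (nat_lit 129471) (nat_lit 25) nil
  nil) nil) nil)) (node (nat_lit 0) (nat_lit 129667) (nat_lit 22) nil nil)) (node (nat_lit 0)
  (nat_lit 131005) (nat_lit 21) nil nil)) (node (nat_lit 5) (nat_lit 0) (nat_lit 20) (node
  (nat_lit 4) (nat_lit 116540) (nat_lit 21) (node (nat_lit 5) (nat_lit 117489) (nat_lit 22) (node
  (nat_lit 6) (nat_lit 118326) (nat_lit 23) (node (nat_lit 4) (nat_lit 119058) (nat_lit 24) (node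
  (nat_lit 6) (nat_lit 119432) (nat_lit 25) (node (nat_lit 5) (nat_lit 119849) (nat_lit 26) (node
  (nat_lit 4) (nat_lit 94533) (nat_lit 27) (node (nat_lit 5) (nat_lit 62049) (nat_lit 28) (node
  (nat_lit 6) (nat_lit 52676) (nat_lit 29) nil nil) nil) nil) nil) (node (nat_lit 5) (nat_lit
  119301) (nat_lit 25) nil nil)) nil) nil) nil) (node (nat_lit 0) (nat_lit 120932) (nat_lit 21)
  nil nil)) (node (nat_lit 0) (nat_lit 130529) (nat_lit 20) nil nil))) (node (nat_lit 4) (nat_lit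
  0) (nat_lit 19) (node (nat_lit 6) (nat_lit 129856) (nat_lit 20) (node (nat_lit 5) (nat_lit
  131729) (nat_lit 21) (node (nat_lit 6) (nat_lit 132337) (nat_lit 22) (node (nat_lit 4) (nat_lit
  132337) (nat_lit 23) (node (nat_lit 5) (nat_lit 132337) (nat_lit 24) (node (nat_lit 6) (nat_lit
  132337) (nat_lit 25) (node (nat_lit 5) (nat_lit 132337) (nat_lit 26) (node (nat_lit 4) (nat_lit
  132337) (nat_lit 27) nil nil) nil) nil) (node (nat_lit 6) (nat_lit 132337) (nat_lit 24) nil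
  nil)) nil) (node (nat_lit 4) (nat_lit 132337) (nat_lit 22) (node (nat_lit 5) (nat_lit 132337)
  (nat_lit 23) (node (nat_lit 6) (nat_lit 132337) (nat_lit 24) nil nil) nil) nil)) nil) (node
  (nat_lit 0) (nat_lit 132337) (nat_lit 20) nil nil)) (node (nat_lit 0) (nat_lit 131835) (nat_lit
  19) nil nil))) (node (nat_lit 0) (nat_lit 132337) (nat_lit 18) nil nil)) (node (nat_lit 0)
  (nat_lit 131415) (nat_lit 17) nil nil))) (node (nat_lit 0) (nat_lit 132314) (nat_lit 16) nil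
  nil)) (node (nat_lit 0) (nat_lit 132337) (nat_lit 15) (node (nat_lit 6) (nat_lit 132337)
  (nat_lit 16) nil (node (nat_lit 5) (nat_lit 132337) (nat_lit 16) nil nil)) nil)) (node (nat_lit
  0) (nat_lit 132337) (nat_lit 14) (node (nat_lit 5) (nat_lit 132337) (nat_lit 15) (node (nat_lit
  6) (nat_lit 132337) (nat_lit 16) nil (node (nat_lit 4) (nat_lit 132337) (nat_lit 16) nil nil))
  (node (nat_lit 6) (nat_lit 132337) (nat_lit 15) (node (nat_lit 5) (nat_lit 132337) (nat_lit 16)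
  nil (node (nat_lit 4) (nat_lit 132337) (nat_lit 16) nil nil)) (node (nat_lit 4) (nat_lit 132337)
  (nat_lit 15) (node (nat_lit 6) (nat_lit 132337) (nat_lit 16) nil (node (nat_lit 5) (nat_lit
  132337) (nat_lit 16) nil nil)) nil))) nil)) (node (nat_lit 0) (nat_lit 132337) (nat_lit 13)
  (node (nat_lit 4) (nat_lit 132337) (nat_lit 14) (node (nat_lit 5) (nat_lit 132337) (nat_lit 15)
  (node (nat_lit 6) (nat_lit 132337) (nat_lit 16) (node (nat_lit 5) (nat_lit 132337) (nat_lit 17)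
  (node (nat_lit 4) (nat_lit 132337) (nat_lit 18) (node (nat_lit 5) (nat_lit 132337) (nat_lit 19)
  (node (nat_lit 6) (nat_lit 132337) (nat_lit 20) (node (nat_lit 4) (nat_lit 132337) (nat_lit 21)
  nil nil) nil) nil) nil) nil) (node (nat_lit 4) (nat_lit 132337) (nat_lit 16) (node (nat_lit 6)
  (nat_lit 132337) (nat_lit 17) nil nil) nil)) (node (nat_lit 6) (nat_lit 132337) (nat_lit 15) nil
  nil)) (node (nat_lit 5) (nat_lit 132337) (nat_lit 14) (node (nat_lit 6) (nat_lit 132337)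
  (nat_lit 15) nil (node (nat_lit 4) (nat_lit 132337) (nat_lit 15) (node (nat_lit 6) (nat_lit
  132337) (nat_lit 16) nil nil) nil)) (node (nat_lit 6) (nat_lit 132337) (nat_lit 14) (node
  (nat_lit 5) (nat_lit 132337) (nat_lit 15) (node (nat_lit 4) (nat_lit 132337) (nat_lit 16) nil
  (node (nat_lit 6) (nat_lit 132337) (nat_lit 16) nil nil)) (node (nat_lit 4) (nat_lit 132337)
  (nat_lit 15) (node (nat_lit 5) (nat_lit 132337) (nat_lit 16) nil nil) nil)) nil))) nil)) (node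
  (nat_lit 0) (nat_lit 131663) (nat_lit 12) (node (nat_lit 5) (nat_lit 131663) (nat_lit 13) (node
  (nat_lit 6) (nat_lit 131663) (nat_lit 14) (node (nat_lit 4) (nat_lit 131663) (nat_lit 15) (node
  (nat_lit 5) (nat_lit 131663) (nat_lit 16) (node (nat_lit 6) (nat_lit 131663) (nat_lit 17) (node
  (nat_lit 5) (nat_lit 131663) (nat_lit 18) (node (nat_lit 4) (nat_lit 131663) (nat_lit 19) (node
  (nat_lit 5) (nat_lit 132337) (nat_lit 20) (node (nat_lit 6) (nat_lit 132337) (nat_lit 21) (node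
  (nat_lit 4) (nat_lit 132337) (nat_lit 22) (node (nat_lit 6) (nat_lit 132337) (nat_lit 23) (node
  (nat_lit 5) (nat_lit 132337) (nat_lit 24) nil nil) nil) nil) nil) nil) nil) nil) nil) nil) (node
  (nat_lit 5) (nat_lit 131663) (nat_lit 15) (node (nat_lit 4) (nat_lit 131663) (nat_lit 16) nil
  nil) nil)) (node (nat_lit 4) (nat_lit 131663) (nat_lit 14) (node (nat_lit 6) (nat_lit 131663)
  (nat_lit 15) (node (nat_lit 4) (nat_lit 131663) (nat_lit 16) nil (node (nat_lit 5) (nat_lit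
  131663) (nat_lit 16) nil nil)) (node (nat_lit 5) (nat_lit 131663) (nat_lit 15) (node (nat_lit 6)
  (nat_lit 131663) (nat_lit 16) (node (nat_lit 4) (nat_lit 131663) (nat_lit 17) nil nil) nil)
  nil)) (node (nat_lit 15) (nat_lit 132337) (nat_lit 14) nil nil))) (node (nat_lit 4) (nat_lit
  131663) (nat_lit 13) (node (nat_lit 5) (nat_lit 131663) (nat_lit 14) (node (nat_lit 6) (nat_lit
  131663) (nat_lit 15) (node (nat_lit 5) (nat_lit 131663) (nat_lit 16) (node (nat_lit 4) (nat_lit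
  131663) (nat_lit 17) (node (nat_lit 5) (nat_lit 131663) (nat_lit 18) (node (nat_lit 6) (nat_lit
  131663) (nat_lit 19) (node (nat_lit 4) (nat_lit 132337) (nat_lit 20) (node (nat_lit 6) (nat_lit
  132337) (nat_lit 21) (node (nat_lit 5) (nat_lit 132337) (nat_lit 22) (node (nat_lit 4) (nat_lit
  132318) (nat_lit 23) nil nil) nil) nil) nil) nil) nil) nil) (node (nat_lit 4) (nat_lit 131663)
  (nat_lit 16) nil nil)) (node (nat_lit 4) (nat_lit 131663) (nat_lit 15) nil nil)) (node (nat_lit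
  6) (nat_lit 131663) (nat_lit 14) (node (nat_lit 5) (nat_lit 131663) (nat_lit 15) (node (nat_lit
  4) (nat_lit 131663) (nat_lit 16) (node (nat_lit 5) (nat_lit 131663) (nat_lit 17) nil nil) (node
  (nat_lit 6) (nat_lit 131663) (nat_lit 16) nil nil)) (node (nat_lit 4) (nat_lit 131663) (nat_lit
  15) nil nil)) nil)) (node (nat_lit 6) (nat_lit 131663) (nat_lit 13) (node (nat_lit 4) (nat_lit
  131663) (nat_lit 14) (node (nat_lit 5) (nat_lit 131663) (nat_lit 15) (node (nat_lit 6) (nat_lit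
  131663) (nat_lit 16) (node (nat_lit 5) (nat_lit 131663) (nat_lit 17) (node (nat_lit 4) (nat_lit
  131663) (nat_lit 18) (node (nat_lit 5) (nat_lit 131663) (nat_lit 19) (node (nat_lit 6) (nat_lit
  132337) (nat_lit 20) nil nil) nil) nil) nil) nil) (node (nat_lit 6) (nat_lit 131663) (nat_lit
  15) (node (nat_lit 5) (nat_lit 131663) (nat_lit 16) nil nil) nil)) (node (nat_lit 5) (nat_lit
  131663) (nat_lit 14) (node (nat_lit 4) (nat_lit 131663) (nat_lit 15) (node (nat_lit 5) (nat_lit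
  131663) (nat_lit 16) (node (nat_lit 6) (nat_lit 131663) (nat_lit 17) nil nil) (node (nat_lit 6)
  (nat_lit 131663) (nat_lit 16) nil nil)) (node (nat_lit 6) (nat_lit 131663) (nat_lit 15) nil
  nil)) nil)) (node (nat_lit 0) (nat_lit 132337) (nat_lit 13) nil nil)))) nil)))

noncomputable def t86 : Tr :=
  (node (nat_lit 4) (nat_lit 0) (nat_lit 14) (node (nat_lit 6) (nat_lit 0) (nat_lit 15) (node
  (nat_lit 5) (nat_lit 0) (nat_lit 16) (node (nat_lit 4) (nat_lit 0) (nat_lit 17) (node (nat_lit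
  5) (nat_lit 0) (nat_lit 18) (node (nat_lit 6) (nat_lit 0) (nat_lit 19) (node (nat_lit 4)
  (nat_lit 119606) (nat_lit 20) (node (nat_lit 5) (nat_lit 121414) (nat_lit 21) (node (nat_lit 4)
  (nat_lit 122698) (nat_lit 22) (node (nat_lit 6) (nat_lit 123337) (nat_lit 23) (node (nat_lit 4)
  (nat_lit 124121) (nat_lit 24) (node (nat_lit 5) (nat_lit 124456) (nat_lit 25) (node (nat_lit 6)
  (nat_lit 124741) (nat_lit 26) (node (nat_lit 5) (nat_lit 124620) (nat_lit 27) (node (nat_lit 4)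
  (nat_lit 124225) (nat_lit 28) (node (nat_lit 5) (nat_lit 123184) (nat_lit 29) (node (nat_lit 6)
  (nat_lit 121594) (nat_lit 30) (node (nat_lit 4) (nat_lit 120579) (nat_lit 31) (node (nat_lit 6)
  (nat_lit 119597) (nat_lit 32) (node (nat_lit 5) (nat_lit 116432) (nat_lit 33) (node (nat_lit 6)
  (nat_lit 116491) (nat_lit 34) (node (nat_lit 4) (nat_lit 110743) (nat_lit 35) (node (nat_lit 5)
  (nat_lit 110876) (nat_lit 36) (node (nat_lit 4) (nat_lit 107860) (nat_lit 37) (node (nat_lit 6)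
  (nat_lit 104415) (nat_lit 38) (node (nat_lit 5) (nat_lit 92576) (nat_lit 39) (node (nat_lit 4)
  (nat_lit 92590) (nat_lit 40) (node (nat_lit 5) (nat_lit 85019) (nat_lit 41) (node (nat_lit 6)
  (nat_lit 85566) (nat_lit 42) nil nil) nil) nil) nil) nil) nil) nil) nil) nil) nil) nil) nil)
  nil) nil) nil) nil) nil) nil) nil) nil) nil) (node (nat_lit 6) (nat_lit 121156) (nat_lit 21)
  (node (nat_lit 5) (nat_lit 122481) (nat_lit 22) (node (nat_lit 6) (nat_lit 123147) (nat_lit 23)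
  (node (nat_lit 4) (nat_lit 123627) (nat_lit 24) (node (nat_lit 5) (nat_lit 123651) (nat_lit 25)
  (node (nat_lit 6) (nat_lit 123962) (nat_lit 26) (node (nat_lit 5) (nat_lit 123774) (nat_lit 27)
  (node (nat_lit 4) (nat_lit 123682) (nat_lit 28) (node (nat_lit 5) (nat_lit 123576) (nat_lit 29)
  (node (nat_lit 6) (nat_lit 122835) (nat_lit 30) (node (nat_lit 4) (nat_lit 122178) (nat_lit 31)
  (node (nat_lit 6) (nat_lit 120460) (nat_lit 32) (node (nat_lit 5) (nat_lit 117579) (nat_lit 33)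
  (node (nat_lit 6) (nat_lit 113957) (nat_lit 34) (node (nat_lit 4) (nat_lit 108372) (nat_lit 35)
  nil nil) nil) nil) nil) nil) nil) nil) nil) nil) nil) nil) nil) (node (nat_lit 4) (nat_lit
  122713) (nat_lit 23) (node (nat_lit 6) (nat_lit 122192) (nat_lit 24) nil nil) nil)) nil) nil))
  (node (nat_lit 5) (nat_lit 0) (nat_lit 20) (node (nat_lit 4) (nat_lit 120793) (nat_lit 21) (node
  (nat_lit 6) (nat_lit 121323) (nat_lit 22) (node (nat_lit 4) (nat_lit 122246) (nat_lit 23) (node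
  (nat_lit 5) (nat_lit 122400) (nat_lit 24) (node (nat_lit 6) (nat_lit 122807) (nat_lit 25) (node
  (nat_lit 5) (nat_lit 122133) (nat_lit 26) (node (nat_lit 4) (nat_lit 121616) (nat_lit 27) (node
  (nat_lit 5) (nat_lit 121488) (nat_lit 28) (node (nat_lit 6) (nat_lit 119252) (nat_lit 29) (node
  (nat_lit 4) (nat_lit 118700) (nat_lit 30) (node (nat_lit 6) (nat_lit 116565) (nat_lit 31) (node
  (nat_lit 5) (nat_lit 115172) (nat_lit 32) (node (nat_lit 6) (nat_lit 113853) (nat_lit 33) (node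
  (nat_lit 4) (nat_lit 110878) (nat_lit 34) (node (nat_lit 5) (nat_lit 109244) (nat_lit 35) (node
  (nat_lit 4) (nat_lit 98442) (nat_lit 36) (node (nat_lit 6) (nat_lit 107650) (nat_lit 37) (node
  (nat_lit 5) (nat_lit 90640) (nat_lit 38) (node (nat_lit 4) (nat_lit 91082) (nat_lit 39) (node
  (nat_lit 5) (nat_lit 48103) (nat_lit 40) (node (nat_lit 6) (nat_lit 48110) (nat_lit 41) nil nil)
  nil) nil) nil) nil) nil) nil) nil) nil) nil) nil) nil) nil) nil) nil) nil) nil) nil) (node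
  (nat_lit 5) (nat_lit 122043) (nat_lit 23) (node (nat_lit 6) (nat_lit 122441) (nat_lit 24) nil
  nil) nil)) nil) (node (nat_lit 0) (nat_lit 121585) (nat_lit 21) nil nil)) (node (nat_lit 0)
  (nat_lit 124308) (nat_lit 20) nil nil))) (node (nat_lit 0) (nat_lit 126869) (nat_lit 19) nil
  nil)) (node (nat_lit 0) (nat_lit 127618) (nat_lit 18) (node (nat_lit 5) (nat_lit 127618)
  (nat_lit 19) nil (node (nat_lit 4) (nat_lit 127618) (nat_lit 19) nil nil)) nil)) (node (nat_lit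
  6) (nat_lit 0) (nat_lit 17) (node (nat_lit 4) (nat_lit 0) (nat_lit 18) (node (nat_lit 6)
  (nat_lit 0) (nat_lit 19) (node (nat_lit 5) (nat_lit 0) (nat_lit 20) (node (nat_lit 4) (nat_lit
  121857) (nat_lit 21) (node (nat_lit 6) (nat_lit 123010) (nat_lit 22) (node (nat_lit 4) (nat_lit
  123884) (nat_lit 23) (node (nat_lit 5) (nat_lit 124355) (nat_lit 24) (node (nat_lit 6) (nat_lit
  124791) (nat_lit 25) (node (nat_lit 5) (nat_lit 124576) (nat_lit 26) (node (nat_lit 4) (nat_lit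
  123962) (nat_lit 27) (node (nat_lit 5) (nat_lit 123485) (nat_lit 28) (node (nat_lit 6) (nat_lit
  121555) (nat_lit 29) (node (nat_lit 4) (nat_lit 119536) (nat_lit 30) (node (nat_lit 6) (nat_lit
  115266) (nat_lit 31) (node (nat_lit 5) (nat_lit 114440) (nat_lit 32) (node (nat_lit 6) (nat_lit
  115108) (nat_lit 33) (node (nat_lit 4) (nat_lit 110598) (nat_lit 34) (node (nat_lit 5) (nat_lit
  107215) (nat_lit 35) (node (nat_lit 4) (nat_lit 101743) (nat_lit 36) (node (nat_lit 6) (nat_lit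
  92047) (nat_lit 37) (node (nat_lit 5) (nat_lit 65248) (nat_lit 38) (node (nat_lit 6) (nat_lit
  49553) (nat_lit 39) (node (nat_lit 4) (nat_lit 49559) (nat_lit 40) (node (nat_lit 6) (nat_lit
  49560) (nat_lit 41) nil nil) nil) nil) nil) nil) nil) nil) nil) nil) nil) nil) nil) nil) nil)
  nil) nil) nil) nil) nil) (node (nat_lit 5) (nat_lit 123180) (nat_lit 22) (node (nat_lit 6)
  (nat_lit 123828) (nat_lit 23) (node (nat_lit 4) (nat_lit 124392) (nat_lit 24) (node (nat_lit 6)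
  (nat_lit 124602) (nat_lit 25) nil nil) (node (nat_lit 5) (nat_lit 124097) (nat_lit 24) (node
  (nat_lit 4) (nat_lit 123927) (nat_lit 25) nil nil) nil)) nil) nil)) (node (nat_lit 0) (nat_lit
  122487) (nat_lit 21) nil nil)) (node (nat_lit 0) (nat_lit 123824) (nat_lit 20) nil nil)) (node
  (nat_lit 0) (nat_lit 126692) (nat_lit 19) nil nil)) (node (nat_lit 0) (nat_lit 126331) (nat_lit
  18) nil nil)) (node (nat_lit 0) (nat_lit 126642) (nat_lit 17) (node (nat_lit 6) (nat_lit 126642)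
  (nat_lit 18) nil (node (nat_lit 5) (nat_lit 126642) (nat_lit 18) nil (node (nat_lit 4) (nat_lit
  126642) (nat_lit 18) nil nil))) nil))) (node (nat_lit 4) (nat_lit 0) (nat_lit 16) (node (nat_lit
  5) (nat_lit 0) (nat_lit 17) (node (nat_lit 6) (nat_lit 0) (nat_lit 18) (node (nat_lit 4)
  (nat_lit 0) (nat_lit 19) (node (nat_lit 6) (nat_lit 0) (nat_lit 20) (node (nat_lit 5) (nat_lit
  117088) (nat_lit 21) (node (nat_lit 4) (nat_lit 118108) (nat_lit 22) (node (nat_lit 6) (nat_lit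
  118859) (nat_lit 23) (node (nat_lit 4) (nat_lit 119487) (nat_lit 24) (node (nat_lit 5) (nat_lit
  119551) (nat_lit 25) (node (nat_lit 6) (nat_lit 119838) (nat_lit 26) (node (nat_lit 5) (nat_lit
  119292) (nat_lit 27) (node (nat_lit 4) (nat_lit 118794) (nat_lit 28) (node (nat_lit 5) (nat_lit
  118685) (nat_lit 29) (node (nat_lit 6) (nat_lit 116937) (nat_lit 30) (node (nat_lit 4) (nat_lit
  116508) (nat_lit 31) (node (nat_lit 6) (nat_lit 113341) (nat_lit 32) (node (nat_lit 5) (nat_lit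
  110902) (nat_lit 33) (node (nat_lit 6) (nat_lit 111954) (nat_lit 34) (node (nat_lit 4) (nat_lit
  105092) (nat_lit 35) (node (nat_lit 5) (nat_lit 109278) (nat_lit 36) (node (nat_lit 4) (nat_lit
  102313) (nat_lit 37) (node (nat_lit 6) (nat_lit 96838) (nat_lit 38) (node (nat_lit 4) (nat_lit
  91291) (nat_lit 39) (node (nat_lit 5) (nat_lit 91612) (nat_lit 40) (node (nat_lit 6) (nat_lit
  78378) (nat_lit 41) nil nil) nil) nil) nil) nil) nil) nil) nil) nil) nil) nil) nil) nil) nil)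
  nil) nil) nil) nil) (node (nat_lit 5) (nat_lit 118965) (nat_lit 23) (node (nat_lit 6) (nat_lit
  119529) (nat_lit 24) (node (nat_lit 5) (nat_lit 119739) (nat_lit 25) (node (nat_lit 4) (nat_lit
  119605) (nat_lit 26) nil nil) nil) nil) nil)) (node (nat_lit 6) (nat_lit 116719) (nat_lit 22)
  (node (nat_lit 4) (nat_lit 115641) (nat_lit 23) (node (nat_lit 5) (nat_lit 115208) (nat_lit 24)
  (node (nat_lit 6) (nat_lit 115209) (nat_lit 25) (node (nat_lit 5) (nat_lit 114173) (nat_lit 26)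
  (node (nat_lit 4) (nat_lit 113135) (nat_lit 27) (node (nat_lit 5) (nat_lit 112794) (nat_lit 28)
  (node (nat_lit 6) (nat_lit 110447) (nat_lit 29) (node (nat_lit 4) (nat_lit 109785) (nat_lit 30)
  (node (nat_lit 6) (nat_lit 105685) (nat_lit 31) (node (nat_lit 5) (nat_lit 102431) (nat_lit 32)
  (node (nat_lit 6) (nat_lit 100922) (nat_lit 33) (node (nat_lit 4) (nat_lit 92558) (nat_lit 34)
  (node (nat_lit 5) (nat_lit 90034) (nat_lit 35) (node (nat_lit 4) (nat_lit 85367) (nat_lit 36)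
  (node (nat_lit 6) (nat_lit 81908) (nat_lit 37) (node (nat_lit 4) (nat_lit 74783) (nat_lit 38)
  (node (nat_lit 5) (nat_lit 75180) (nat_lit 39) (node (nat_lit 6) (nat_lit 48686) (nat_lit 40)
  (node (nat_lit 4) (nat_lit 51555) (nat_lit 41) (node (nat_lit 6) (nat_lit 8302) (nat_lit 42) nil
  nil) nil) nil) nil) nil) nil) nil) nil) nil) nil) nil) nil) nil) nil) nil) nil) nil) nil) nil)
  nil) nil)) (node (nat_lit 0) (nat_lit 120395) (nat_lit 21) nil nil)) (node (nat_lit 0) (nat_lit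
  119607) (nat_lit 20) nil nil)) (node (nat_lit 5) (nat_lit 0) (nat_lit 19) (node (nat_lit 4)
  (nat_lit 0) (nat_lit 20) (node (nat_lit 6) (nat_lit 0) (nat_lit 21) (node (nat_lit 5) (nat_lit
  0) (nat_lit 22) (node (nat_lit 6) (nat_lit 0) (nat_lit 23) (node (nat_lit 4) (nat_lit 117473)
  (nat_lit 24) (node (nat_lit 5) (nat_lit 117497) (nat_lit 25) (node (nat_lit 6) (nat_lit 117809)
  (nat_lit 26) (node (nat_lit 5) (nat_lit 117621) (nat_lit 27) (node (nat_lit 4) (nat_lit 117529)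
  (nat_lit 28) (node (nat_lit 5) (nat_lit 117422) (nat_lit 29) (node (nat_lit 6) (nat_lit 116681)
  (nat_lit 30) (node (nat_lit 4) (nat_lit 116025) (nat_lit 31) (node (nat_lit 6) (nat_lit 114306)
  (nat_lit 32) (node (nat_lit 5) (nat_lit 112104) (nat_lit 33) (node (nat_lit 6) (nat_lit 107803)
  (nat_lit 34) (node (nat_lit 4) (nat_lit 101702) (nat_lit 35) (node (nat_lit 5) (nat_lit 97769)
  (nat_lit 36) (node (nat_lit 4) (nat_lit 94150) (nat_lit 37) (node (nat_lit 6) (nat_lit 82964)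
  (nat_lit 38) (node (nat_lit 4) (nat_lit 82979) (nat_lit 39) (node (nat_lit 5) (nat_lit 75879)
  (nat_lit 40) (node (nat_lit 6) (nat_lit 70879) (nat_lit 41) (node (nat_lit 5) (nat_lit 64613)
  (nat_lit 42) (node (nat_lit 4) (nat_lit 65269) (nat_lit 43) nil nil) nil) nil) nil) nil) nil)
  nil) nil) nil) nil) nil) nil) nil) nil) nil) nil) nil) (node (nat_lit 4) (nat_lit 117364)
  (nat_lit 26) nil nil)) (node (nat_lit 6) (nat_lit 117683) (nat_lit 25) nil nil)) (node (nat_lit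
  0) (nat_lit 118126) (nat_lit 24) nil nil)) (node (nat_lit 0) (nat_lit 119091) (nat_lit 23) nil
  nil)) (node (nat_lit 4) (nat_lit 0) (nat_lit 22) (node (nat_lit 5) (nat_lit 117394) (nat_lit 23)
  (node (nat_lit 4) (nat_lit 117575) (nat_lit 24) (node (nat_lit 6) (nat_lit 117166) (nat_lit 25)
  nil nil) nil) (node (nat_lit 0) (nat_lit 117652) (nat_lit 23) nil nil)) (node (nat_lit 0)
  (nat_lit 119455) (nat_lit 22) nil nil))) (node (nat_lit 5) (nat_lit 0) (nat_lit 21) (node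
  (nat_lit 6) (nat_lit 103735) (nat_lit 22) (node (nat_lit 4) (nat_lit 104610) (nat_lit 23) (node
  (nat_lit 6) (nat_lit 91452) (nat_lit 24) (node (nat_lit 5) (nat_lit 91918) (nat_lit 25) (node
  (nat_lit 6) (nat_lit 48129) (nat_lit 26) (node (nat_lit 4) (nat_lit 48287) (nat_lit 27) (node
  (nat_lit 5) (nat_lit 48187) (nat_lit 28) nil nil) nil) (node (nat_lit 4) (nat_lit 91965)
  (nat_lit 26) nil nil)) nil) (node (nat_lit 5) (nat_lit 104922) (nat_lit 24) nil nil)) nil) (node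
  (nat_lit 0) (nat_lit 106051) (nat_lit 22) nil nil)) (node (nat_lit 0) (nat_lit 119766) (nat_lit
  21) nil nil))) (node (nat_lit 0) (nat_lit 119715) (nat_lit 20) nil nil)) (node (nat_lit 0)
  (nat_lit 122590) (nat_lit 19) nil nil))) (node (nat_lit 0) (nat_lit 121845) (nat_lit 18) nil
  nil)) (node (nat_lit 0) (nat_lit 122679) (nat_lit 17) nil nil)) (node (nat_lit 0) (nat_lit
  126223) (nat_lit 16) (node (nat_lit 6) (nat_lit 126223) (nat_lit 17) nil (node (nat_lit 4)
  (nat_lit 126223) (nat_lit 17) nil (node (nat_lit 5) (nat_lit 126223) (nat_lit 17) nil nil)))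
  nil))) (node (nat_lit 0) (nat_lit 124813) (nat_lit 15) (node (nat_lit 4) (nat_lit 124813)
  (nat_lit 16) nil (node (nat_lit 5) (nat_lit 124813) (nat_lit 16) (node (nat_lit 4) (nat_lit
  124813) (nat_lit 17) nil nil) nil)) nil)) (node (nat_lit 6) (nat_lit 0) (nat_lit 14) (node
  (nat_lit 5) (nat_lit 0) (nat_lit 15) (node (nat_lit 4) (nat_lit 0) (nat_lit 16) (node (nat_lit
  6) (nat_lit 0) (nat_lit 17) (node (nat_lit 4) (nat_lit 0) (nat_lit 18) (node (nat_lit 5)
  (nat_lit 0) (nat_lit 19) (node (nat_lit 4) (nat_lit 109211) (nat_lit 20) (node (nat_lit 6)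
  (nat_lit 110870) (nat_lit 21) (node (nat_lit 5) (nat_lit 111944) (nat_lit 22) (node (nat_lit 6)
  (nat_lit 112609) (nat_lit 23) (node (nat_lit 4) (nat_lit 113089) (nat_lit 24) (node (nat_lit 5)
  (nat_lit 113112) (nat_lit 25) (node (nat_lit 6) (nat_lit 113425) (nat_lit 26) (node (nat_lit 5)
  (nat_lit 113236) (nat_lit 27) (node (nat_lit 4) (nat_lit 113144) (nat_lit 28) (node (nat_lit 5)
  (nat_lit 113038) (nat_lit 29) (node (nat_lit 6) (nat_lit 112297) (nat_lit 30) (node (nat_lit 4)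
  (nat_lit 111494) (nat_lit 31) (node (nat_lit 6) (nat_lit 109580) (nat_lit 32) (node (nat_lit 5)
  (nat_lit 106833) (nat_lit 33) (node (nat_lit 6) (nat_lit 102971) (nat_lit 34) (node (nat_lit 4)
  (nat_lit 98608) (nat_lit 35) (node (nat_lit 5) (nat_lit 89426) (nat_lit 36) nil nil) nil) nil)
  nil) nil) nil) nil) nil) nil) nil) nil) nil) nil) (node (nat_lit 4) (nat_lit 112289) (nat_lit
  23) nil nil)) nil) nil) (node (nat_lit 6) (nat_lit 109089) (nat_lit 20) (node (nat_lit 4)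
  (nat_lit 110493) (nat_lit 21) (node (nat_lit 6) (nat_lit 110931) (nat_lit 22) (node (nat_lit 5)
  (nat_lit 110652) (nat_lit 23) nil nil) nil) (node (nat_lit 5) (nat_lit 106655) (nat_lit 21) nil
  nil)) (node (nat_lit 0) (nat_lit 109705) (nat_lit 20) nil nil))) (node (nat_lit 0) (nat_lit
  112494) (nat_lit 19) nil nil)) (node (nat_lit 5) (nat_lit 0) (nat_lit 18) (node (nat_lit 6)
  (nat_lit 0) (nat_lit 19) (node (nat_lit 4) (nat_lit 109116) (nat_lit 20) (node (nat_lit 5)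
  (nat_lit 109047) (nat_lit 21) (node (nat_lit 4) (nat_lit 110228) (nat_lit 22) (node (nat_lit 6)
  (nat_lit 110749) (nat_lit 23) (node (nat_lit 4) (nat_lit 111533) (nat_lit 24) (node (nat_lit 5)
  (nat_lit 111577) (nat_lit 25) (node (nat_lit 6) (nat_lit 111926) (nat_lit 26) (node (nat_lit 5)
  (nat_lit 111387) (nat_lit 27) (node (nat_lit 4) (nat_lit 110923) (nat_lit 28) (node (nat_lit 5)
  (nat_lit 111432) (nat_lit 29) (node (nat_lit 6) (nat_lit 109622) (nat_lit 30) (node (nat_lit 4)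
  (nat_lit 110958) (nat_lit 31) (node (nat_lit 6) (nat_lit 109007) (nat_lit 32) (node (nat_lit 5)
  (nat_lit 107281) (nat_lit 33) (node (nat_lit 6) (nat_lit 102422) (nat_lit 34) (node (nat_lit 4)
  (nat_lit 102777) (nat_lit 35) (node (nat_lit 5) (nat_lit 95194) (nat_lit 36) nil nil) nil) nil)
  nil) nil) nil) nil) nil) nil) nil) nil) nil) nil) nil) (node (nat_lit 6) (nat_lit 106704)
  (nat_lit 22) nil nil)) (node (nat_lit 6) (nat_lit 110469) (nat_lit 21) (node (nat_lit 5)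
  (nat_lit 111128) (nat_lit 22) (node (nat_lit 4) (nat_lit 111227) (nat_lit 23) (node (nat_lit 5)
  (nat_lit 111496) (nat_lit 24) nil nil) nil) nil) nil)) (node (nat_lit 0) (nat_lit 112859)
  (nat_lit 20) nil nil)) (node (nat_lit 0) (nat_lit 111290) (nat_lit 19) nil nil)) (node (nat_lit
  0) (nat_lit 112340) (nat_lit 18) nil nil))) (node (nat_lit 5) (nat_lit 0) (nat_lit 17) (node
  (nat_lit 6) (nat_lit 0) (nat_lit 18) (node (nat_lit 4) (nat_lit 69404) (nat_lit 19) (node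
  (nat_lit 5) (nat_lit 71341) (nat_lit 20) (node (nat_lit 4) (nat_lit 72414) (nat_lit 21) (node
  (nat_lit 6) (nat_lit 73183) (nat_lit 22) (node (nat_lit 4) (nat_lit 73920) (nat_lit 23) (node
  (nat_lit 5) (nat_lit 73781) (nat_lit 24) (node (nat_lit 6) (nat_lit 74069) (nat_lit 25) (node
  (nat_lit 5) (nat_lit 73265) (nat_lit 26) (node (nat_lit 4) (nat_lit 72555) (nat_lit 27) (node
  (nat_lit 5) (nat_lit 72319) (nat_lit 28) (node (nat_lit 6) (nat_lit 70075) (nat_lit 29) (node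
  (nat_lit 4) (nat_lit 69467) (nat_lit 30) (node (nat_lit 6) (nat_lit 68223) (nat_lit 31) (node
  (nat_lit 5) (nat_lit 66293) (nat_lit 32) (node (nat_lit 6) (nat_lit 63652) (nat_lit 33) (node
  (nat_lit 4) (nat_lit 57835) (nat_lit 34) (node (nat_lit 5) (nat_lit 47750) (nat_lit 35) (node
  (nat_lit 6) (nat_lit 41293) (nat_lit 36) (node (nat_lit 5) (nat_lit 35302) (nat_lit 37) (node
  (nat_lit 4) (nat_lit 37689) (nat_lit 38) nil nil) nil) nil) nil) nil) nil) nil) nil) nil) nil)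
  nil) nil) nil) nil) nil) (node (nat_lit 5) (nat_lit 73696) (nat_lit 23) (node (nat_lit 6)
  (nat_lit 74096) (nat_lit 24) (node (nat_lit 4) (nat_lit 74408) (nat_lit 25) (node (nat_lit 5)
  (nat_lit 74498) (nat_lit 26) (node (nat_lit 6) (nat_lit 74688) (nat_lit 27) (node (nat_lit 5)
  (nat_lit 74742) (nat_lit 28) (node (nat_lit 4) (nat_lit 74811) (nat_lit 29) (node (nat_lit 5)
  (nat_lit 74902) (nat_lit 30) (node (nat_lit 6) (nat_lit 74602) (nat_lit 31) (node (nat_lit 4)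
  (nat_lit 74384) (nat_lit 32) (node (nat_lit 6) (nat_lit 73447) (nat_lit 33) nil nil) nil) nil)
  nil) nil) nil) nil) nil) nil) nil) nil)) nil) nil) nil) (node (nat_lit 0) (nat_lit 70711)
  (nat_lit 19) nil nil)) (node (nat_lit 0) (nat_lit 109406) (nat_lit 18) nil nil)) (node (nat_lit
  0) (nat_lit 113304) (nat_lit 17) nil nil))) (node (nat_lit 0) (nat_lit 113934) (nat_lit 16)
  (node (nat_lit 6) (nat_lit 113934) (nat_lit 17) nil nil) nil)) (node (nat_lit 0) (nat_lit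
  122668) (nat_lit 15) (node (nat_lit 6) (nat_lit 122668) (nat_lit 16) nil nil) nil)) (node
  (nat_lit 0) (nat_lit 123240) (nat_lit 14) (node (nat_lit 5) (nat_lit 123240) (nat_lit 15) (node
  (nat_lit 6) (nat_lit 123240) (nat_lit 16) nil (node (nat_lit 4) (nat_lit 123240) (nat_lit 16)
  nil nil)) (node (nat_lit 4) (nat_lit 123240) (nat_lit 15) nil (node (nat_lit 6) (nat_lit 123240)
  (nat_lit 15) nil nil))) nil)))

noncomputable def t87 : Tr :=
  (node (nat_lit 5) (nat_lit 0) (nat_lit 12) (node (nat_lit 6) (nat_lit 0) (nat_lit 13) (node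
  (nat_lit 4) (nat_lit 0) (nat_lit 14) (node (nat_lit 6) (nat_lit 0) (nat_lit 15) (node (nat_lit
  5) (nat_lit 0) (nat_lit 16) (node (nat_lit 4) (nat_lit 0) (nat_lit 17) (node (nat_lit 5)
  (nat_lit 0) (nat_lit 18) (node (nat_lit 6) (nat_lit 0) (nat_lit 19) (node (nat_lit 5) (nat_lit
  129290) (nat_lit 20) (node (nat_lit 4) (nat_lit 130990) (nat_lit 21) (node (nat_lit 6) (nat_lit
  131632) (nat_lit 22) (node (nat_lit 4) (nat_lit 132337) (nat_lit 23) (node (nat_lit 5) (nat_lit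
  132337) (nat_lit 24) (node (nat_lit 6) (nat_lit 132337) (nat_lit 25) (node (nat_lit 5) (nat_lit
  132337) (nat_lit 26) (node (nat_lit 4) (nat_lit 132337) (nat_lit 27) (node (nat_lit 5) (nat_lit
  131377) (nat_lit 28) nil nil) nil) nil) nil) nil) nil) nil) nil) (node (nat_lit 4) (nat_lit 0)
  (nat_lit 20) (node (nat_lit 5) (nat_lit 0) (nat_lit 21) (node (nat_lit 4) (nat_lit 0) (nat_lit
  22) (node (nat_lit 6) (nat_lit 132337) (nat_lit 23) (node (nat_lit 4) (nat_lit 132337) (nat_lit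
  24) (node (nat_lit 5) (nat_lit 132337) (nat_lit 25) (node (nat_lit 6) (nat_lit 132337) (nat_lit
  26) (node (nat_lit 5) (nat_lit 132337) (nat_lit 27) (node (nat_lit 4) (nat_lit 132337) (nat_lit
  28) (node (nat_lit 5) (nat_lit 132337) (nat_lit 29) (node (nat_lit 6) (nat_lit 132092) (nat_lit
  30) (node (nat_lit 4) (nat_lit 129558) (nat_lit 31) nil nil) nil) nil) nil) nil) nil) nil) nil)
  (node (nat_lit 0) (nat_lit 132337) (nat_lit 23) nil nil)) (node (nat_lit 0) (nat_lit 132337)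
  (nat_lit 22) nil nil)) (node (nat_lit 6) (nat_lit 131292) (nat_lit 21) (node (nat_lit 5)
  (nat_lit 132082) (nat_lit 22) (node (nat_lit 6) (nat_lit 132337) (nat_lit 23) (node (nat_lit 4)
  (nat_lit 132337) (nat_lit 24) (node (nat_lit 5) (nat_lit 132337) (nat_lit 25) (node (nat_lit 6)
  (nat_lit 132337) (nat_lit 26) (node (nat_lit 5) (nat_lit 132337) (nat_lit 27) (node (nat_lit 4)
  (nat_lit 132337) (nat_lit 28) nil nil) nil) nil) nil) nil) nil) nil) (node (nat_lit 0) (nat_lit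
  131927) (nat_lit 21) nil nil))) (node (nat_lit 0) (nat_lit 129824) (nat_lit 20) nil nil))) (node
  (nat_lit 0) (nat_lit 130899) (nat_lit 19) nil nil)) (node (nat_lit 6) (nat_lit 0) (nat_lit 18)
  (node (nat_lit 4) (nat_lit 0) (nat_lit 19) (node (nat_lit 5) (nat_lit 126218) (nat_lit 20) (node
  (nat_lit 6) (nat_lit 126325) (nat_lit 21) (node (nat_lit 5) (nat_lit 124306) (nat_lit 22) (node
  (nat_lit 4) (nat_lit 124168) (nat_lit 23) (node (nat_lit 5) (nat_lit 112438) (nat_lit 24) (node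
  (nat_lit 6) (nat_lit 114061) (nat_lit 25) (node (nat_lit 4) (nat_lit 109514) (nat_lit 26) (node
  (nat_lit 5) (nat_lit 106520) (nat_lit 27) (node (nat_lit 4) (nat_lit 104935) (nat_lit 28) (node
  (nat_lit 6) (nat_lit 95252) (nat_lit 29) (node (nat_lit 5) (nat_lit 98920) (nat_lit 30) (node
  (nat_lit 6) (nat_lit 81578) (nat_lit 31) (node (nat_lit 4) (nat_lit 68954) (nat_lit 32) (node
  (nat_lit 6) (nat_lit 55907) (nat_lit 33) nil nil) nil) nil) nil) nil) nil) nil) nil) nil) (node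
  (nat_lit 6) (nat_lit 123647) (nat_lit 24) nil nil)) nil) (node (nat_lit 4) (nat_lit 126767)
  (nat_lit 22) nil nil)) (node (nat_lit 4) (nat_lit 127506) (nat_lit 21) (node (nat_lit 6)
  (nat_lit 126650) (nat_lit 22) nil nil) nil)) (node (nat_lit 0) (nat_lit 128260) (nat_lit 20) nil
  nil)) (node (nat_lit 0) (nat_lit 130340) (nat_lit 19) nil nil)) (node (nat_lit 0) (nat_lit
  130955) (nat_lit 18) nil nil))) (node (nat_lit 0) (nat_lit 130125) (nat_lit 17) nil nil)) (node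
  (nat_lit 0) (nat_lit 132283) (nat_lit 16) nil nil)) (node (nat_lit 5) (nat_lit 0) (nat_lit 15)
  (node (nat_lit 6) (nat_lit 0) (nat_lit 16) (node (nat_lit 5) (nat_lit 0) (nat_lit 17) (node
  (nat_lit 4) (nat_lit 0) (nat_lit 18) (node (nat_lit 5) (nat_lit 0) (nat_lit 19) (node (nat_lit
  6) (nat_lit 0) (nat_lit 20) (node (nat_lit 4) (nat_lit 95880) (nat_lit 21) (node (nat_lit 6)
  (nat_lit 97047) (nat_lit 22) (node (nat_lit 5) (nat_lit 97058) (nat_lit 23) (node (nat_lit 4)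
  (nat_lit 97135) (nat_lit 24) (node (nat_lit 5) (nat_lit 97345) (nat_lit 25) (node (nat_lit 6)
  (nat_lit 97509) (nat_lit 26) (node (nat_lit 5) (nat_lit 97637) (nat_lit 27) (node (nat_lit 4)
  (nat_lit 97555) (nat_lit 28) nil nil) nil) nil) (node (nat_lit 6) (nat_lit 96728) (nat_lit 25)
  nil nil)) (node (nat_lit 6) (nat_lit 96833) (nat_lit 24) (node (nat_lit 4) (nat_lit 97196)
  (nat_lit 25) (node (nat_lit 5) (nat_lit 96957) (nat_lit 26) (node (nat_lit 6) (nat_lit 97097)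
  (nat_lit 27) (node (nat_lit 5) (nat_lit 96482) (nat_lit 28) (node (nat_lit 4) (nat_lit 95993)
  (nat_lit 29) (node (nat_lit 5) (nat_lit 95393) (nat_lit 30) nil nil) nil) nil) nil) nil) nil)
  nil)) nil) (node (nat_lit 5) (nat_lit 71476) (nat_lit 22) (node (nat_lit 4) (nat_lit 71778)
  (nat_lit 23) (node (nat_lit 6) (nat_lit 72013) (nat_lit 24) nil nil) nil) nil)) (node (nat_lit
  0) (nat_lit 96189) (nat_lit 21) nil nil)) (node (nat_lit 0) (nat_lit 105436) (nat_lit 20) nil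
  nil)) (node (nat_lit 6) (nat_lit 121232) (nat_lit 19) (node (nat_lit 4) (nat_lit 123344)
  (nat_lit 20) (node (nat_lit 5) (nat_lit 124041) (nat_lit 21) (node (nat_lit 6) (nat_lit 124601)
  (nat_lit 22) (node (nat_lit 5) (nat_lit 120230) (nat_lit 23) nil nil) (node (nat_lit 4) (nat_lit
  123682) (nat_lit 22) nil nil)) nil) (node (nat_lit 5) (nat_lit 122987) (nat_lit 20) (node
  (nat_lit 6) (nat_lit 124206) (nat_lit 21) (node (nat_lit 4) (nat_lit 125320) (nat_lit 22) (node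
  (nat_lit 5) (nat_lit 125058) (nat_lit 23) nil nil) nil) nil) nil)) (node (nat_lit 0) (nat_lit
  125777) (nat_lit 19) nil nil))) (node (nat_lit 0) (nat_lit 125811) (nat_lit 18) nil nil)) (node
  (nat_lit 0) (nat_lit 129831) (nat_lit 17) nil nil)) (node (nat_lit 0) (nat_lit 129465) (nat_lit
  16) nil (node (nat_lit 4) (nat_lit 0) (nat_lit 16) (node (nat_lit 0) (nat_lit 126122) (nat_lit
  17) nil nil) nil))) (node (nat_lit 0) (nat_lit 132003) (nat_lit 15) (node (nat_lit 6) (nat_lit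
  132003) (nat_lit 16) nil (node (nat_lit 4) (nat_lit 132003) (nat_lit 16) nil (node (nat_lit 5)
  (nat_lit 132003) (nat_lit 16) nil nil))) nil))) (node (nat_lit 0) (nat_lit 132337) (nat_lit 14)
  (node (nat_lit 5) (nat_lit 132337) (nat_lit 15) (node (nat_lit 6) (nat_lit 132337) (nat_lit 16)
  nil nil) (node (nat_lit 6) (nat_lit 132337) (nat_lit 15) (node (nat_lit 5) (nat_lit 132337)
  (nat_lit 16) nil (node (nat_lit 4) (nat_lit 132337) (nat_lit 16) nil nil)) (node (nat_lit 4)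
  (nat_lit 132337) (nat_lit 15) nil nil))) nil)) (node (nat_lit 4) (nat_lit 0) (nat_lit 13) (node
  (nat_lit 5) (nat_lit 0) (nat_lit 14) (node (nat_lit 6) (nat_lit 0) (nat_lit 15) (node (nat_lit
  5) (nat_lit 0) (nat_lit 16) (node (nat_lit 4) (nat_lit 0) (nat_lit 17) (node (nat_lit 6)
  (nat_lit 0) (nat_lit 18) (node (nat_lit 4) (nat_lit 0) (nat_lit 19) (node (nat_lit 5) (nat_lit
  0) (nat_lit 20) (node (nat_lit 6) (nat_lit 126607) (nat_lit 21) (node (nat_lit 5) (nat_lit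
  124926) (nat_lit 22) (node (nat_lit 4) (nat_lit 123772) (nat_lit 23) (node (nat_lit 5) (nat_lit
  117857) (nat_lit 24) (node (nat_lit 6) (nat_lit 117975) (nat_lit 25) (node (nat_lit 4) (nat_lit
  115531) (nat_lit 26) (node (nat_lit 5) (nat_lit 112452) (nat_lit 27) (node (nat_lit 4) (nat_lit
  100567) (nat_lit 28) (node (nat_lit 6) (nat_lit 112741) (nat_lit 29) (node (nat_lit 5) (nat_lit
  93878) (nat_lit 30) (node (nat_lit 4) (nat_lit 59864) (nat_lit 31) (node (nat_lit 5) (nat_lit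
  59924) (nat_lit 32) (node (nat_lit 6) (nat_lit 57488) (nat_lit 33) (node (nat_lit 5) (nat_lit
  58393) (nat_lit 34) nil nil) nil) nil) nil) nil) nil) nil) nil) nil) nil) nil) nil) (node
  (nat_lit 4) (nat_lit 127702) (nat_lit 22) (node (nat_lit 6) (nat_lit 127948) (nat_lit 23) (node
  (nat_lit 5) (nat_lit 128153) (nat_lit 24) nil nil) nil) nil)) (node (nat_lit 4) (nat_lit 127214)
  (nat_lit 21) (node (nat_lit 6) (nat_lit 127579) (nat_lit 22) nil nil) (node (nat_lit 0) (nat_lit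
  128150) (nat_lit 21) nil nil))) (node (nat_lit 0) (nat_lit 132067) (nat_lit 20) nil nil)) (node
  (nat_lit 5) (nat_lit 0) (nat_lit 19) (node (nat_lit 6) (nat_lit 127727) (nat_lit 20) (node
  (nat_lit 4) (nat_lit 129131) (nat_lit 21) (node (nat_lit 5) (nat_lit 128958) (nat_lit 22) (node
  (nat_lit 6) (nat_lit 129328) (nat_lit 23) (node (nat_lit 5) (nat_lit 128437) (nat_lit 24) (node
  (nat_lit 4) (nat_lit 127535) (nat_lit 25) (node (nat_lit 5) (nat_lit 125050) (nat_lit 26) (node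
  (nat_lit 6) (nat_lit 128228) (nat_lit 27) (node (nat_lit 4) (nat_lit 124026) (nat_lit 28) (node
  (nat_lit 5) (nat_lit 116194) (nat_lit 29) (node (nat_lit 4) (nat_lit 113213) (nat_lit 30) (node
  (nat_lit 6) (nat_lit 113763) (nat_lit 31) (node (nat_lit 5) (nat_lit 99236) (nat_lit 32) (node
  (nat_lit 4) (nat_lit 98203) (nat_lit 33) (node (nat_lit 5) (nat_lit 95166) (nat_lit 34) (node
  (nat_lit 6) (nat_lit 81842) (nat_lit 35) (node (nat_lit 5) (nat_lit 70144) (nat_lit 36) (node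
  (nat_lit 4) (nat_lit 70805) (nat_lit 37) (node (nat_lit 6) (nat_lit 36613) (nat_lit 38) nil nil)
  nil) nil) nil) nil) nil) nil) nil) nil) nil) nil) nil) nil) nil) nil) (node (nat_lit 4) (nat_lit
  129470) (nat_lit 23) nil nil)) (node (nat_lit 6) (nat_lit 129569) (nat_lit 22) (node (nat_lit 5)
  (nat_lit 129290) (nat_lit 23) nil nil) nil)) nil) (node (nat_lit 0) (nat_lit 131544) (nat_lit
  20) nil nil)) (node (nat_lit 0) (nat_lit 130234) (nat_lit 19) nil nil))) (node (nat_lit 0)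
  (nat_lit 130461) (nat_lit 18) nil nil)) (node (nat_lit 0) (nat_lit 130639) (nat_lit 17) nil
  nil)) (node (nat_lit 4) (nat_lit 0) (nat_lit 16) (node (nat_lit 6) (nat_lit 0) (nat_lit 17)
  (node (nat_lit 5) (nat_lit 0) (nat_lit 18) (node (nat_lit 6) (nat_lit 0) (nat_lit 19) (node
  (nat_lit 4) (nat_lit 128192) (nat_lit 20) (node (nat_lit 5) (nat_lit 128732) (nat_lit 21) (node
  (nat_lit 6) (nat_lit 130176) (nat_lit 22) (node (nat_lit 5) (nat_lit 128263) (nat_lit 23) (node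
  (nat_lit 4) (nat_lit 126715) (nat_lit 24) (node (nat_lit 5) (nat_lit 123492) (nat_lit 25) (node
  (nat_lit 6) (nat_lit 126861) (nat_lit 26) (node (nat_lit 4) (nat_lit 120012) (nat_lit 27) (node
  (nat_lit 5) (nat_lit 114274) (nat_lit 28) (node (nat_lit 4) (nat_lit 112434) (nat_lit 29) (node
  (nat_lit 6) (nat_lit 106611) (nat_lit 30) (node (nat_lit 5) (nat_lit 100631) (nat_lit 31) (node
  (nat_lit 4) (nat_lit 74020) (nat_lit 32) (node (nat_lit 5) (nat_lit 74063) (nat_lit 33) (node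
  (nat_lit 6) (nat_lit 71570) (nat_lit 34) nil nil) nil) nil) nil) nil) nil) nil) nil) nil) nil)
  nil) nil) (node (nat_lit 4) (nat_lit 129914) (nat_lit 22) (node (nat_lit 6) (nat_lit 130445)
  (nat_lit 23) (node (nat_lit 4) (nat_lit 131264) (nat_lit 24) (node (nat_lit 5) (nat_lit 131434)
  (nat_lit 25) (node (nat_lit 6) (nat_lit 131943) (nat_lit 26) (node (nat_lit 5) (nat_lit 131991)
  (nat_lit 27) (node (nat_lit 4) (nat_lit 131830) (nat_lit 28) (node (nat_lit 5) (nat_lit 130647)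
  (nat_lit 29) (node (nat_lit 6) (nat_lit 130926) (nat_lit 30) (node (nat_lit 4) (nat_lit 128855)
  (nat_lit 31) nil nil) nil) nil) nil) nil) nil) nil) (node (nat_lit 5) (nat_lit 130226) (nat_lit
  24) nil nil)) nil) nil)) nil) (node (nat_lit 0) (nat_lit 129441) (nat_lit 20) nil nil)) (node
  (nat_lit 4) (nat_lit 0) (nat_lit 19) (node (nat_lit 6) (nat_lit 128175) (nat_lit 20) (node
  (nat_lit 4) (nat_lit 129554) (nat_lit 21) (node (nat_lit 5) (nat_lit 130303) (nat_lit 22) (node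
  (nat_lit 6) (nat_lit 130351) (nat_lit 23) (node (nat_lit 5) (nat_lit 129147) (nat_lit 24) (node
  (nat_lit 4) (nat_lit 129495) (nat_lit 25) (node (nat_lit 5) (nat_lit 127211) (nat_lit 26) (node
  (nat_lit 6) (nat_lit 126396) (nat_lit 27) (node (nat_lit 4) (nat_lit 122778) (nat_lit 28) (node
  (nat_lit 5) (nat_lit 116419) (nat_lit 29) (node (nat_lit 4) (nat_lit 115044) (nat_lit 30) (node
  (nat_lit 6) (nat_lit 114320) (nat_lit 31) (node (nat_lit 5) (nat_lit 99226) (nat_lit 32) nil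
  nil) nil) nil) nil) nil) nil) nil) nil) nil) (node (nat_lit 4) (nat_lit 130023) (nat_lit 23) nil
  nil)) nil) nil) (node (nat_lit 5) (nat_lit 127970) (nat_lit 20) nil (node (nat_lit 0) (nat_lit
  129299) (nat_lit 20) nil nil))) (node (nat_lit 0) (nat_lit 130904) (nat_lit 19) nil nil))) (node
  (nat_lit 0) (nat_lit 132337) (nat_lit 18) nil nil)) (node (nat_lit 5) (nat_lit 0) (nat_lit 17)
  (node (nat_lit 0) (nat_lit 128923) (nat_lit 18) nil nil) (node (nat_lit 0) (nat_lit 132337)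
  (nat_lit 17) nil nil))) (node (nat_lit 0) (nat_lit 132337) (nat_lit 16) (node (nat_lit 6)
  (nat_lit 132337) (nat_lit 17) nil (node (nat_lit 5) (nat_lit 132337) (nat_lit 17) nil nil))
  nil))) (node (nat_lit 0) (nat_lit 132337) (nat_lit 15) (node (nat_lit 4) (nat_lit 132337)
  (nat_lit 16) (node (nat_lit 5) (nat_lit 132337) (nat_lit 17) nil nil) (node (nat_lit 5) (nat_lit
  132337) (nat_lit 16) nil (node (nat_lit 6) (nat_lit 132337) (nat_lit 16) nil nil))) nil)) (node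
  (nat_lit 0) (nat_lit 130965) (nat_lit 14) (node (nat_lit 4) (nat_lit 130965) (nat_lit 15) nil
  nil) nil)) (node (nat_lit 0) (nat_lit 132337) (nat_lit 13) (node (nat_lit 5) (nat_lit 132337)
  (nat_lit 14) (node (nat_lit 6) (nat_lit 132337) (nat_lit 15) nil (node (nat_lit 4) (nat_lit
  132337) (nat_lit 15) nil nil)) (node (nat_lit 4) (nat_lit 132337) (nat_lit 14) (node (nat_lit 5)
  (nat_lit 132337) (nat_lit 15) (node (nat_lit 6) (nat_lit 132337) (nat_lit 16) (node (nat_lit 5)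
  (nat_lit 132337) (nat_lit 17) (node (nat_lit 4) (nat_lit 132337) (nat_lit 18) (node (nat_lit 5)
  (nat_lit 132337) (nat_lit 19) (node (nat_lit 6) (nat_lit 132337) (nat_lit 20) (node (nat_lit 4)
  (nat_lit 132337) (nat_lit 21) nil nil) nil) nil) nil) nil) nil) (node (nat_lit 6) (nat_lit
  132337) (nat_lit 15) nil nil)) (node (nat_lit 6) (nat_lit 132337) (nat_lit 14) (node (nat_lit 5)
  (nat_lit 132337) (nat_lit 15) nil (node (nat_lit 4) (nat_lit 132337) (nat_lit 15) nil nil))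
  nil))) nil))) (node (nat_lit 4) (nat_lit 0) (nat_lit 12) (node (nat_lit 5) (nat_lit 0) (nat_lit
  13) (node (nat_lit 6) (nat_lit 0) (nat_lit 14) (node (nat_lit 5) (nat_lit 0) (nat_lit 15) (node
  (nat_lit 4) (nat_lit 0) (nat_lit 16) (node (nat_lit 6) (nat_lit 0) (nat_lit 17) (node (nat_lit
  5) (nat_lit 0) (nat_lit 18) (node (nat_lit 6) (nat_lit 0) (nat_lit 19) (node (nat_lit 4)
  (nat_lit 0) (nat_lit 20) (node (nat_lit 5) (nat_lit 98581) (nat_lit 21) (node (nat_lit 6)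
  (nat_lit 98362) (nat_lit 22) (node (nat_lit 5) (nat_lit 97024) (nat_lit 23) (node (nat_lit 4)
  (nat_lit 94543) (nat_lit 24) (node (nat_lit 5) (nat_lit 94412) (nat_lit 25) (node (nat_lit 6)
  (nat_lit 95614) (nat_lit 26) (node (nat_lit 4) (nat_lit 89177) (nat_lit 27) (node (nat_lit 5)
  (nat_lit 85926) (nat_lit 28) (node (nat_lit 4) (nat_lit 77035) (nat_lit 29) (node (nat_lit 6)
  (nat_lit 69935) (nat_lit 30) (node (nat_lit 4) (nat_lit 66835) (nat_lit 31) (node (nat_lit 5)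
  (nat_lit 63985) (nat_lit 32) (node (nat_lit 6) (nat_lit 52501) (nat_lit 33) nil nil) nil) nil)
  nil) nil) nil) nil) nil) nil) nil) nil) (node (nat_lit 4) (nat_lit 99717) (nat_lit 22) (node
  (nat_lit 6) (nat_lit 100225) (nat_lit 23) (node (nat_lit 4) (nat_lit 100918) (nat_lit 24) (node
  (nat_lit 5) (nat_lit 101422) (nat_lit 25) (node (nat_lit 6) (nat_lit 101835) (nat_lit 26) (node
  (nat_lit 5) (nat_lit 102159) (nat_lit 27) (node (nat_lit 4) (nat_lit 102392) (nat_lit 28) (node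
  (nat_lit 5) (nat_lit 102578) (nat_lit 29) (node (nat_lit 6) (nat_lit 102732) (nat_lit 30) (node
  (nat_lit 4) (nat_lit 102438) (nat_lit 31) nil nil) nil) nil) nil) nil) nil) nil) nil) nil) nil))
  (node (nat_lit 6) (nat_lit 98192) (nat_lit 21) (node (nat_lit 5) (nat_lit 97906) (nat_lit 22)
  (node (nat_lit 4) (nat_lit 98418) (nat_lit 23) (node (nat_lit 5) (nat_lit 98687) (nat_lit 24)
  (node (nat_lit 6) (nat_lit 98897) (nat_lit 25) (node (nat_lit 5) (nat_lit 99061) (nat_lit 26)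
  (node (nat_lit 4) (nat_lit 98956) (nat_lit 27) nil nil) nil) nil) nil) nil) nil) (node (nat_lit
  0) (nat_lit 99710) (nat_lit 21) nil nil))) (node (nat_lit 0) (nat_lit 101334) (nat_lit 20) nil
  nil)) (node (nat_lit 0) (nat_lit 100449) (nat_lit 19) nil nil)) (node (nat_lit 4) (nat_lit 0)
  (nat_lit 18) (node (nat_lit 5) (nat_lit 0) (nat_lit 19) (node (nat_lit 4) (nat_lit 96864)
  (nat_lit 20) (node (nat_lit 6) (nat_lit 98750) (nat_lit 21) (node (nat_lit 5) (nat_lit 99816)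
  (nat_lit 22) (node (nat_lit 6) (nat_lit 100603) (nat_lit 23) (node (nat_lit 4) (nat_lit 101291)
  (nat_lit 24) (node (nat_lit 5) (nat_lit 101198) (nat_lit 25) (node (nat_lit 6) (nat_lit 101381)
  (nat_lit 26) (node (nat_lit 5) (nat_lit 101263) (nat_lit 27) (node (nat_lit 4) (nat_lit 101070)
  (nat_lit 28) (node (nat_lit 5) (nat_lit 100153) (nat_lit 29) (node (nat_lit 6) (nat_lit 99273)
  (nat_lit 30) (node (nat_lit 4) (nat_lit 96858) (nat_lit 31) (node (nat_lit 5) (nat_lit 96617)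
  (nat_lit 32) (node (nat_lit 4) (nat_lit 95794) (nat_lit 33) (node (nat_lit 6) (nat_lit 93619)
  (nat_lit 34) nil nil) nil) nil) nil) nil) nil) nil) nil) nil) nil) nil) (node (nat_lit 4)
  (nat_lit 100161) (nat_lit 23) (node (nat_lit 5) (nat_lit 100430) (nat_lit 24) (node (nat_lit 6)
  (nat_lit 100640) (nat_lit 25) (node (nat_lit 5) (nat_lit 100804) (nat_lit 26) (node (nat_lit 4)
  (nat_lit 100699) (nat_lit 27) nil nil) nil) nil) nil) nil)) nil) nil) (node (nat_lit 0) (nat_lit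
  97090) (nat_lit 20) nil nil)) (node (nat_lit 0) (nat_lit 100429) (nat_lit 19) nil nil)) (node
  (nat_lit 0) (nat_lit 102023) (nat_lit 18) nil nil))) (node (nat_lit 5) (nat_lit 0) (nat_lit 17)
  (node (nat_lit 6) (nat_lit 94007) (nat_lit 18) (node (nat_lit 4) (nat_lit 55501) (nat_lit 19)
  (node (nat_lit 6) (nat_lit 57293) (nat_lit 20) (node (nat_lit 5) (nat_lit 58641) (nat_lit 21)
  (node (nat_lit 4) (nat_lit 59352) (nat_lit 22) (node (nat_lit 6) (nat_lit 58686) (nat_lit 23)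
  (node (nat_lit 4) (nat_lit 58856) (nat_lit 24) (node (nat_lit 5) (nat_lit 58517) (nat_lit 25)
  (node (nat_lit 6) (nat_lit 58518) (nat_lit 26) (node (nat_lit 5) (nat_lit 57709) (nat_lit 27)
  (node (nat_lit 4) (nat_lit 56852) (nat_lit 28) (node (nat_lit 5) (nat_lit 55997) (nat_lit 29)
  (node (nat_lit 6) (nat_lit 55617) (nat_lit 30) (node (nat_lit 4) (nat_lit 53239) (nat_lit 31)
  (node (nat_lit 5) (nat_lit 52554) (nat_lit 32) (node (nat_lit 4) (nat_lit 48381) (nat_lit 33)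
  (node (nat_lit 6) (nat_lit 45167) (nat_lit 34) (node (nat_lit 4) (nat_lit 43659) (nat_lit 35)
  (node (nat_lit 5) (nat_lit 35257) (nat_lit 36) (node (nat_lit 6) (nat_lit 32762) (nat_lit 37)
  (node (nat_lit 5) (nat_lit 25731) (nat_lit 38) (node (nat_lit 4) (nat_lit 22508) (nat_lit 39)
  (node (nat_lit 5) (nat_lit 23356) (nat_lit 40) (node (nat_lit 6) (nat_lit 4483) (nat_lit 41) nil
  nil) nil) nil) nil) nil) nil) nil) nil) nil) nil) nil) nil) nil) nil) nil) nil) nil) nil) (node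
  (nat_lit 5) (nat_lit 59697) (nat_lit 23) (node (nat_lit 6) (nat_lit 59966) (nat_lit 24) (node
  (nat_lit 5) (nat_lit 60176) (nat_lit 25) (node (nat_lit 4) (nat_lit 60043) (nat_lit 26) nil nil)
  nil) nil) nil)) (node (nat_lit 6) (nat_lit 59617) (nat_lit 22) (node (nat_lit 4) (nat_lit 60182)
  (nat_lit 23) (node (nat_lit 5) (nat_lit 60406) (nat_lit 24) (node (nat_lit 6) (nat_lit 60166)
  (nat_lit 25) (node (nat_lit 5) (nat_lit 59588) (nat_lit 26) (node (nat_lit 4) (nat_lit 59304)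
  (nat_lit 27) nil nil) nil) nil) nil) nil) nil)) nil) (node (nat_lit 5) (nat_lit 56670) (nat_lit
  20) nil nil)) nil) (node (nat_lit 0) (nat_lit 99380) (nat_lit 18) nil nil)) (node (nat_lit 0)
  (nat_lit 102660) (nat_lit 17) nil nil))) (node (nat_lit 0) (nat_lit 103778) (nat_lit 16) nil
  nil)) (node (nat_lit 4) (nat_lit 0) (nat_lit 15) (node (nat_lit 6) (nat_lit 0) (nat_lit 16)
  (node (nat_lit 5) (nat_lit 0) (nat_lit 17) (node (nat_lit 4) (nat_lit 0) (nat_lit 18) (node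
  (nat_lit 5) (nat_lit 0) (nat_lit 19) (node (nat_lit 6) (nat_lit 117969) (nat_lit 20) (node
  (nat_lit 5) (nat_lit 119448) (nat_lit 21) (node (nat_lit 4) (nat_lit 120496) (nat_lit 22) (node
  (nat_lit 6) (nat_lit 120877) (nat_lit 23) (node (nat_lit 4) (nat_lit 121520) (nat_lit 24) (node
  (nat_lit 5) (nat_lit 121809) (nat_lit 25) (node (nat_lit 6) (nat_lit 122199) (nat_lit 26) (node
  (nat_lit 5) (nat_lit 122246) (nat_lit 27) (node (nat_lit 4) (nat_lit 122086) (nat_lit 28) (node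
  (nat_lit 5) (nat_lit 121748) (nat_lit 29) (node (nat_lit 6) (nat_lit 121311) (nat_lit 30) (node
  (nat_lit 4) (nat_lit 120032) (nat_lit 31) (node (nat_lit 5) (nat_lit 118318) (nat_lit 32) (node
  (nat_lit 4) (nat_lit 114176) (nat_lit 33) (node (nat_lit 6) (nat_lit 110696) (nat_lit 34) nil
  nil) nil) nil) nil) nil) nil) nil) nil) nil) nil) nil) nil) nil) (node (nat_lit 4) (nat_lit
  119322) (nat_lit 21) (node (nat_lit 5) (nat_lit 120475) (nat_lit 22) (node (nat_lit 4) (nat_lit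
  121298) (nat_lit 23) (node (nat_lit 6) (nat_lit 121596) (nat_lit 24) (node (nat_lit 4) (nat_lit
  122093) (nat_lit 25) (node (nat_lit 5) (nat_lit 122301) (nat_lit 26) (node (nat_lit 6) (nat_lit
  122592) (nat_lit 27) (node (nat_lit 5) (nat_lit 122581) (nat_lit 28) nil nil) nil) nil) nil)
  nil) nil) nil) nil)) (node (nat_lit 0) (nat_lit 118951) (nat_lit 20) nil nil)) (node (nat_lit 6)
  (nat_lit 115257) (nat_lit 19) (node (nat_lit 4) (nat_lit 117280) (nat_lit 20) (node (nat_lit 5)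
  (nat_lit 118144) (nat_lit 21) (node (nat_lit 6) (nat_lit 116657) (nat_lit 22) (node (nat_lit 5)
  (nat_lit 117160) (nat_lit 23) (node (nat_lit 4) (nat_lit 116562) (nat_lit 24) (node (nat_lit 5)
  (nat_lit 114226) (nat_lit 25) (node (nat_lit 6) (nat_lit 110857) (nat_lit 26) (node (nat_lit 4)
  (nat_lit 104263) (nat_lit 27) (node (nat_lit 5) (nat_lit 108272) (nat_lit 28) (node (nat_lit 4)
  (nat_lit 99021) (nat_lit 29) (node (nat_lit 6) (nat_lit 85224) (nat_lit 30) (node (nat_lit 4)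
  (nat_lit 82040) (nat_lit 31) (node (nat_lit 5) (nat_lit 85706) (nat_lit 32) (node (nat_lit 6)
  (nat_lit 68357) (nat_lit 33) (node (nat_lit 4) (nat_lit 55734) (nat_lit 34) (node (nat_lit 6)
  (nat_lit 42680) (nat_lit 35) (node (nat_lit 5) (nat_lit 43569) (nat_lit 36) nil nil) nil) nil)
  nil) nil) nil) nil) nil) nil) nil) nil) nil) nil) nil) (node (nat_lit 4) (nat_lit 119193)
  (nat_lit 22) (node (nat_lit 6) (nat_lit 118524) (nat_lit 23) (node (nat_lit 5) (nat_lit 118306)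
  (nat_lit 24) nil nil) nil) nil)) nil) nil) (node (nat_lit 0) (nat_lit 120925) (nat_lit 19) nil
  nil))) (node (nat_lit 6) (nat_lit 0) (nat_lit 18) (node (nat_lit 4) (nat_lit 0) (nat_lit 19)
  (node (nat_lit 5) (nat_lit 115075) (nat_lit 20) (node (nat_lit 4) (nat_lit 116263) (nat_lit 21)
  (node (nat_lit 6) (nat_lit 116760) (nat_lit 22) (node (nat_lit 4) (nat_lit 117601) (nat_lit 23)
  (node (nat_lit 5) (nat_lit 117997) (nat_lit 24) (node (nat_lit 6) (nat_lit 118430) (nat_lit 25)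
  (node (nat_lit 5) (nat_lit 118407) (nat_lit 26) (node (nat_lit 4) (nat_lit 118172) (nat_lit 27)
  (node (nat_lit 5) (nat_lit 117646) (nat_lit 28) (node (nat_lit 6) (nat_lit 116756) (nat_lit 29)
  (node (nat_lit 4) (nat_lit 114902) (nat_lit 30) (node (nat_lit 5) (nat_lit 111770) (nat_lit 31)
  (node (nat_lit 4) (nat_lit 107476) (nat_lit 32) (node (nat_lit 6) (nat_lit 104848) (nat_lit 33)
  nil nil) nil) nil) nil) nil) nil) nil) nil) nil) nil) (node (nat_lit 5) (nat_lit 117346)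
  (nat_lit 23) nil nil)) nil) (node (nat_lit 6) (nat_lit 116288) (nat_lit 21) (node (nat_lit 5)
  (nat_lit 113732) (nat_lit 22) (node (nat_lit 4) (nat_lit 114649) (nat_lit 23) (node (nat_lit 5)
  (nat_lit 106153) (nat_lit 24) (node (nat_lit 6) (nat_lit 107769) (nat_lit 25) (node (nat_lit 4)
  (nat_lit 100959) (nat_lit 26) (node (nat_lit 5) (nat_lit 100223) (nat_lit 27) (node (nat_lit 4)
  (nat_lit 85112) (nat_lit 28) (node (nat_lit 6) (nat_lit 85661) (nat_lit 29) (node (nat_lit 4)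
  (nat_lit 60646) (nat_lit 30) (node (nat_lit 5) (nat_lit 60548) (nat_lit 31) (node (nat_lit 6)
  (nat_lit 56547) (nat_lit 32) (node (nat_lit 4) (nat_lit 57230) (nat_lit 33) nil nil) nil) nil)
  nil) nil) nil) nil) nil) nil) (node (nat_lit 6) (nat_lit 114128) (nat_lit 24) nil nil)) nil)
  nil) nil)) (node (nat_lit 0) (nat_lit 117130) (nat_lit 20) nil nil)) (node (nat_lit 0) (nat_lit
  118780) (nat_lit 19) nil nil)) (node (nat_lit 0) (nat_lit 120497) (nat_lit 18) nil nil))) (node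
  (nat_lit 0) (nat_lit 122006) (nat_lit 17) nil nil)) (node (nat_lit 0) (nat_lit 122081) (nat_lit
  16) nil nil)) (node (nat_lit 0) (nat_lit 121093) (nat_lit 15) (node (nat_lit 6) (nat_lit 121093)
  (nat_lit 16) nil nil) nil))) (node (nat_lit 0) (nat_lit 121347) (nat_lit 14) (node (nat_lit 5)
  (nat_lit 121347) (nat_lit 15) nil (node (nat_lit 6) (nat_lit 121347) (nat_lit 15) nil (node
  (nat_lit 4) (nat_lit 121347) (nat_lit 15) nil nil))) nil)) (node (nat_lit 0) (nat_lit 131508)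
  (nat_lit 13) (node (nat_lit 6) (nat_lit 131508) (nat_lit 14) (node (nat_lit 4) (nat_lit 131508)
  (nat_lit 15) (node (nat_lit 5) (nat_lit 131508) (nat_lit 16) (node (nat_lit 6) (nat_lit 131508)
  (nat_lit 17) (node (nat_lit 5) (nat_lit 131508) (nat_lit 18) (node (nat_lit 4) (nat_lit 131508)
  (nat_lit 19) (node (nat_lit 5) (nat_lit 131508) (nat_lit 20) (node (nat_lit 6) (nat_lit 132337)
  (nat_lit 21) (node (nat_lit 4) (nat_lit 132337) (nat_lit 22) (node (nat_lit 5) (nat_lit 132337)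
  (nat_lit 23) nil nil) nil) nil) nil) nil) nil) nil) nil) nil) (node (nat_lit 5) (nat_lit 131508)
  (nat_lit 14) nil (node (nat_lit 4) (nat_lit 131508) (nat_lit 14) (node (nat_lit 5) (nat_lit
  131508) (nat_lit 15) (node (nat_lit 6) (nat_lit 131508) (nat_lit 16) (node (nat_lit 5) (nat_lit
  131508) (nat_lit 17) (node (nat_lit 4) (nat_lit 131508) (nat_lit 18) (node (nat_lit 5) (nat_lit
  131508) (nat_lit 19) (node (nat_lit 6) (nat_lit 131508) (nat_lit 20) (node (nat_lit 4) (nat_lit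
  132074) (nat_lit 21) nil nil) nil) nil) nil) nil) nil) nil) nil))) nil)) (node (nat_lit 0)
  (nat_lit 132337) (nat_lit 12) (node (nat_lit 4) (nat_lit 132337) (nat_lit 13) (node (nat_lit 6)
  (nat_lit 132337) (nat_lit 14) (node (nat_lit 4) (nat_lit 132337) (nat_lit 15) (node (nat_lit 5)
  (nat_lit 132337) (nat_lit 16) (node (nat_lit 6) (nat_lit 132337) (nat_lit 17) (node (nat_lit 5)
  (nat_lit 132337) (nat_lit 18) (node (nat_lit 4) (nat_lit 132337) (nat_lit 19) (node (nat_lit 5)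
  (nat_lit 132337) (nat_lit 20) (node (nat_lit 6) (nat_lit 132337) (nat_lit 21) (node (nat_lit 4)
  (nat_lit 132337) (nat_lit 22) nil nil) nil) nil) nil) nil) nil) nil) (node (nat_lit 5) (nat_lit
  132337) (nat_lit 15) nil nil)) (node (nat_lit 5) (nat_lit 132337) (nat_lit 14) (node (nat_lit 6)
  (nat_lit 132337) (nat_lit 15) (node (nat_lit 5) (nat_lit 132337) (nat_lit 16) (node (nat_lit 4)
  (nat_lit 132337) (nat_lit 17) (node (nat_lit 5) (nat_lit 132337) (nat_lit 18) (node (nat_lit 6)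
  (nat_lit 132337) (nat_lit 19) (node (nat_lit 4) (nat_lit 132337) (nat_lit 20) nil nil) nil) nil)
  nil) nil) nil) nil)) (node (nat_lit 6) (nat_lit 132337) (nat_lit 13) (node (nat_lit 4) (nat_lit
  132337) (nat_lit 14) (node (nat_lit 5) (nat_lit 132337) (nat_lit 15) (node (nat_lit 6) (nat_lit
  132337) (nat_lit 16) (node (nat_lit 5) (nat_lit 132337) (nat_lit 17) (node (nat_lit 4) (nat_lit
  132337) (nat_lit 18) (node (nat_lit 5) (nat_lit 132337) (nat_lit 19) (node (nat_lit 6) (nat_lit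
  132337) (nat_lit 20) nil nil) nil) nil) nil) nil) (node (nat_lit 6) (nat_lit 132337) (nat_lit
  15) nil nil)) (node (nat_lit 5) (nat_lit 132337) (nat_lit 14) (node (nat_lit 4) (nat_lit 132337)
  (nat_lit 15) nil (node (nat_lit 6) (nat_lit 132337) (nat_lit 15) nil nil)) nil)) (node (nat_lit
  5) (nat_lit 132337) (nat_lit 13) (node (nat_lit 6) (nat_lit 132337) (nat_lit 14) (node (nat_lit
  5) (nat_lit 132337) (nat_lit 15) nil (node (nat_lit 4) (nat_lit 132337) (nat_lit 15) nil nil))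
  (node (nat_lit 4) (nat_lit 132337) (nat_lit 14) nil nil)) nil))) nil)))

noncomputable def t88 : Tr :=
  (node (nat_lit 6) (nat_lit 0) (nat_lit 9) (node (nat_lit 5) (nat_lit 0) (nat_lit 10) (node
  (nat_lit 4) (nat_lit 0) (nat_lit 11) t85 (node (nat_lit 6) (nat_lit 0) (nat_lit 11) (node
  (nat_lit 4) (nat_lit 0) (nat_lit 12) (node (nat_lit 5) (nat_lit 0) (nat_lit 13) t86 (node
  (nat_lit 0) (nat_lit 129488) (nat_lit 13) (node (nat_lit 4) (nat_lit 129488) (nat_lit 14) (node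
  (nat_lit 5) (nat_lit 129488) (nat_lit 15) (node (nat_lit 6) (nat_lit 129488) (nat_lit 16) (node
  (nat_lit 5) (nat_lit 129488) (nat_lit 17) (node (nat_lit 4) (nat_lit 129488) (nat_lit 18) (node
  (nat_lit 5) (nat_lit 129488) (nat_lit 19) (node (nat_lit 6) (nat_lit 129488) (nat_lit 20) (node
  (nat_lit 4) (nat_lit 130055) (nat_lit 21) (node (nat_lit 6) (nat_lit 130496) (nat_lit 22) nil
  nil) nil) nil) nil) nil) nil) nil) (node (nat_lit 6) (nat_lit 129488) (nat_lit 15) nil nil))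
  (node (nat_lit 5) (nat_lit 129488) (nat_lit 14) (node (nat_lit 6) (nat_lit 129488) (nat_lit 15)
  nil (node (nat_lit 4) (nat_lit 129488) (nat_lit 15) nil nil)) (node (nat_lit 6) (nat_lit 129488)
  (nat_lit 14) nil nil))) nil)) (node (nat_lit 0) (nat_lit 130304) (nat_lit 12) (node (nat_lit 5)
  (nat_lit 130304) (nat_lit 13) (node (nat_lit 6) (nat_lit 130304) (nat_lit 14) (node (nat_lit 4)
  (nat_lit 130304) (nat_lit 15) (node (nat_lit 5) (nat_lit 130304) (nat_lit 16) (node (nat_lit 6)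
  (nat_lit 130304) (nat_lit 17) (node (nat_lit 5) (nat_lit 130304) (nat_lit 18) (node (nat_lit 4)
  (nat_lit 130304) (nat_lit 19) (node (nat_lit 5) (nat_lit 132041) (nat_lit 20) (node (nat_lit 6)
  (nat_lit 132337) (nat_lit 21) (node (nat_lit 4) (nat_lit 132337) (nat_lit 22) (node (nat_lit 6)
  (nat_lit 132337) (nat_lit 23) (node (nat_lit 5) (nat_lit 132337) (nat_lit 24) nil nil) nil) nil)
  nil) nil) nil) nil) nil) nil) (node (nat_lit 5) (nat_lit 130304) (nat_lit 15) (node (nat_lit 4)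
  (nat_lit 130304) (nat_lit 16) nil nil) nil)) (node (nat_lit 4) (nat_lit 130304) (nat_lit 14) nil
  nil)) (node (nat_lit 6) (nat_lit 130304) (nat_lit 13) (node (nat_lit 5) (nat_lit 130304)
  (nat_lit 14) (node (nat_lit 6) (nat_lit 130304) (nat_lit 15) (node (nat_lit 4) (nat_lit 130304)
  (nat_lit 16) (node (nat_lit 5) (nat_lit 130304) (nat_lit 17) (node (nat_lit 6) (nat_lit 130304)
  (nat_lit 18) (node (nat_lit 5) (nat_lit 130304) (nat_lit 19) (node (nat_lit 4) (nat_lit 132211)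
  (nat_lit 20) (node (nat_lit 5) (nat_lit 132337) (nat_lit 21) (node (nat_lit 6) (nat_lit 132337)
  (nat_lit 22) (node (nat_lit 4) (nat_lit 132337) (nat_lit 23) (node (nat_lit 6) (nat_lit 132337)
  (nat_lit 24) (node (nat_lit 5) (nat_lit 132337) (nat_lit 25) (node (nat_lit 6) (nat_lit 132337)
  (nat_lit 26) nil nil) nil) nil) nil) nil) nil) nil) nil) nil) nil) nil) (node (nat_lit 4)
  (nat_lit 130304) (nat_lit 15) nil nil)) (node (nat_lit 4) (nat_lit 130304) (nat_lit 14) (node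
  (nat_lit 5) (nat_lit 130304) (nat_lit 15) (node (nat_lit 6) (nat_lit 130304) (nat_lit 16) (node
  (nat_lit 5) (nat_lit 130304) (nat_lit 17) (node (nat_lit 4) (nat_lit 130304) (nat_lit 18) (node
  (nat_lit 5) (nat_lit 130304) (nat_lit 19) (node (nat_lit 6) (nat_lit 131825) (nat_lit 20) nil
  nil) nil) nil) nil) nil) nil) nil)) (node (nat_lit 4) (nat_lit 130304) (nat_lit 13) (node
  (nat_lit 6) (nat_lit 130304) (nat_lit 14) (node (nat_lit 4) (nat_lit 130304) (nat_lit 15) (node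
  (nat_lit 5) (nat_lit 130304) (nat_lit 16) (node (nat_lit 6) (nat_lit 130304) (nat_lit 17) (node
  (nat_lit 5) (nat_lit 130304) (nat_lit 18) (node (nat_lit 4) (nat_lit 130304) (nat_lit 19) (node
  (nat_lit 5) (nat_lit 132105) (nat_lit 20) (node (nat_lit 6) (nat_lit 132337) (nat_lit 21) (node
  (nat_lit 4) (nat_lit 132337) (nat_lit 22) (node (nat_lit 6) (nat_lit 132337) (nat_lit 23) (node
  (nat_lit 5) (nat_lit 132337) (nat_lit 24) (node (nat_lit 6) (nat_lit 132337) (nat_lit 25) nil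
  nil) nil) nil) nil) nil) nil) nil) nil) nil) nil) nil) (node (nat_lit 5) (nat_lit 130304)
  (nat_lit 14) (node (nat_lit 6) (nat_lit 130304) (nat_lit 15) (node (nat_lit 5) (nat_lit 130304)
  (nat_lit 16) (node (nat_lit 4) (nat_lit 130304) (nat_lit 17) (node (nat_lit 5) (nat_lit 130304)
  (nat_lit 18) (node (nat_lit 6) (nat_lit 130304) (nat_lit 19) (node (nat_lit 4) (nat_lit 131030)
  (nat_lit 20) nil nil) nil) nil) nil) nil) nil) nil)) nil))) nil)) (node (nat_lit 0) (nat_lit 0)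
  (nat_lit 11) (node (nat_lit 5) (nat_lit 129091) (nat_lit 12) (node (nat_lit 6) (nat_lit 129091)
  (nat_lit 13) (node (nat_lit 4) (nat_lit 129091) (nat_lit 14) (node (nat_lit 5) (nat_lit 129091)
  (nat_lit 15) (node (nat_lit 6) (nat_lit 129091) (nat_lit 16) (node (nat_lit 5) (nat_lit 129091)
  (nat_lit 17) (node (nat_lit 4) (nat_lit 129091) (nat_lit 18) (node (nat_lit 5) (nat_lit 131315)
  (nat_lit 19) (node (nat_lit 6) (nat_lit 132337) (nat_lit 20) (node (nat_lit 4) (nat_lit 132337)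
  (nat_lit 21) nil nil) nil) nil) nil) nil) (node (nat_lit 4) (nat_lit 129091) (nat_lit 16) nil
  nil)) (node (nat_lit 6) (nat_lit 129091) (nat_lit 15) nil nil)) (node (nat_lit 5) (nat_lit
  129091) (nat_lit 14) (node (nat_lit 4) (nat_lit 129091) (nat_lit 15) nil nil) nil)) (node
  (nat_lit 4) (nat_lit 129091) (nat_lit 13) (node (nat_lit 6) (nat_lit 129091) (nat_lit 14) (node
  (nat_lit 4) (nat_lit 129091) (nat_lit 15) (node (nat_lit 5) (nat_lit 129091) (nat_lit 16) (node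
  (nat_lit 6) (nat_lit 129091) (nat_lit 17) (node (nat_lit 5) (nat_lit 129091) (nat_lit 18) (node
  (nat_lit 4) (nat_lit 131775) (nat_lit 19) nil nil) nil) nil) nil) (node (nat_lit 5) (nat_lit
  129091) (nat_lit 15) nil nil)) (node (nat_lit 5) (nat_lit 129091) (nat_lit 14) nil nil)) (node
  (nat_lit 0) (nat_lit 130746) (nat_lit 13) nil nil))) (node (nat_lit 6) (nat_lit 129091) (nat_lit
  12) (node (nat_lit 5) (nat_lit 129091) (nat_lit 13) (node (nat_lit 6) (nat_lit 129091) (nat_lit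
  14) (node (nat_lit 4) (nat_lit 129091) (nat_lit 15) (node (nat_lit 5) (nat_lit 129091) (nat_lit
  16) (node (nat_lit 6) (nat_lit 129091) (nat_lit 17) (node (nat_lit 5) (nat_lit 129091) (nat_lit
  18) (node (nat_lit 4) (nat_lit 131534) (nat_lit 19) (node (nat_lit 5) (nat_lit 132337) (nat_lit
  20) (node (nat_lit 6) (nat_lit 132337) (nat_lit 21) (node (nat_lit 4) (nat_lit 132337) (nat_lit
  22) (node (nat_lit 6) (nat_lit 132337) (nat_lit 23) (node (nat_lit 5) (nat_lit 132337) (nat_lit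
  24) nil nil) nil) nil) nil) nil) nil) nil) nil) (node (nat_lit 6) (nat_lit 129091) (nat_lit 16)
  nil nil)) nil) (node (nat_lit 4) (nat_lit 129091) (nat_lit 14) (node (nat_lit 6) (nat_lit
  129091) (nat_lit 15) nil nil) nil)) (node (nat_lit 4) (nat_lit 129091) (nat_lit 13) (node
  (nat_lit 5) (nat_lit 129091) (nat_lit 14) (node (nat_lit 6) (nat_lit 129091) (nat_lit 15) (node
  (nat_lit 5) (nat_lit 129091) (nat_lit 16) (node (nat_lit 4) (nat_lit 129091) (nat_lit 17) (node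
  (nat_lit 5) (nat_lit 129091) (nat_lit 18) (node (nat_lit 6) (nat_lit 131040) (nat_lit 19) nil
  nil) nil) nil) nil) nil) (node (nat_lit 6) (nat_lit 129091) (nat_lit 14) nil nil)) (node
  (nat_lit 14) (nat_lit 130746) (nat_lit 13) nil nil))) (node (nat_lit 4) (nat_lit 129091)
  (nat_lit 12) (node (nat_lit 6) (nat_lit 129091) (nat_lit 13) (node (nat_lit 4) (nat_lit 129091)
  (nat_lit 14) (node (nat_lit 5) (nat_lit 129091) (nat_lit 15) (node (nat_lit 6) (nat_lit 129091)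
  (nat_lit 16) (node (nat_lit 5) (nat_lit 129091) (nat_lit 17) (node (nat_lit 4) (nat_lit 129091)
  (nat_lit 18) (node (nat_lit 5) (nat_lit 131397) (nat_lit 19) (node (nat_lit 6) (nat_lit 132337)
  (nat_lit 20) (node (nat_lit 4) (nat_lit 132337) (nat_lit 21) (node (nat_lit 6) (nat_lit 132337)
  (nat_lit 22) (node (nat_lit 5) (nat_lit 132337) (nat_lit 23) nil nil) nil) nil) nil) nil) nil)
  nil) nil) nil) (node (nat_lit 5) (nat_lit 129091) (nat_lit 14) (node (nat_lit 4) (nat_lit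
  129091) (nat_lit 15) nil nil) nil)) (node (nat_lit 5) (nat_lit 129091) (nat_lit 13) (node
  (nat_lit 6) (nat_lit 129091) (nat_lit 14) (node (nat_lit 5) (nat_lit 129091) (nat_lit 15) (node
  (nat_lit 4) (nat_lit 129091) (nat_lit 16) (node (nat_lit 5) (nat_lit 129091) (nat_lit 17) (node
  (nat_lit 6) (nat_lit 129091) (nat_lit 18) (node (nat_lit 4) (nat_lit 130020) (nat_lit 19) (node
  (nat_lit 6) (nat_lit 130746) (nat_lit 20) (node (nat_lit 5) (nat_lit 130288) (nat_lit 21) nil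
  nil) nil) nil) nil) nil) nil) nil) (node (nat_lit 4) (nat_lit 129091) (nat_lit 14) (node
  (nat_lit 6) (nat_lit 129091) (nat_lit 15) nil nil) nil)) nil)) (node (nat_lit 0) (nat_lit
  131040) (nat_lit 12) nil nil)))) nil))) (node (nat_lit 0) (nat_lit 124134) (nat_lit 10) (node
  (nat_lit 5) (nat_lit 124134) (nat_lit 11) (node (nat_lit 6) (nat_lit 124134) (nat_lit 12) (node
  (nat_lit 4) (nat_lit 124134) (nat_lit 13) (node (nat_lit 5) (nat_lit 124134) (nat_lit 14) (node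
  (nat_lit 6) (nat_lit 124134) (nat_lit 15) (node (nat_lit 5) (nat_lit 124134) (nat_lit 16) (node
  (nat_lit 4) (nat_lit 124134) (nat_lit 17) (node (nat_lit 5) (nat_lit 126985) (nat_lit 18) (node
  (nat_lit 6) (nat_lit 129209) (nat_lit 19) (node (nat_lit 4) (nat_lit 130532) (nat_lit 20) (node
  (nat_lit 6) (nat_lit 131676) (nat_lit 21) nil nil) nil) nil) nil) nil) nil) nil) (node (nat_lit
  6) (nat_lit 124134) (nat_lit 14) nil nil)) (node (nat_lit 5) (nat_lit 124134) (nat_lit 13) (node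
  (nat_lit 4) (nat_lit 124134) (nat_lit 14) (node (nat_lit 6) (nat_lit 124134) (nat_lit 15) nil
  nil) nil) nil)) (node (nat_lit 4) (nat_lit 124134) (nat_lit 12) (node (nat_lit 6) (nat_lit
  124134) (nat_lit 13) (node (nat_lit 4) (nat_lit 124134) (nat_lit 14) (node (nat_lit 5) (nat_lit
  124134) (nat_lit 15) (node (nat_lit 6) (nat_lit 124134) (nat_lit 16) (node (nat_lit 5) (nat_lit
  124134) (nat_lit 17) (node (nat_lit 4) (nat_lit 127575) (nat_lit 18) (node (nat_lit 5) (nat_lit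
  129879) (nat_lit 19) (node (nat_lit 6) (nat_lit 131622) (nat_lit 20) (node (nat_lit 4) (nat_lit
  132337) (nat_lit 21) nil nil) nil) nil) nil) nil) nil) nil) (node (nat_lit 5) (nat_lit 124134)
  (nat_lit 14) nil nil)) (node (nat_lit 5) (nat_lit 124134) (nat_lit 13) (node (nat_lit 6)
  (nat_lit 124134) (nat_lit 14) nil nil) nil)) (node (nat_lit 13) (nat_lit 129707) (nat_lit 12)
  (node (nat_lit 6) (nat_lit 129707) (nat_lit 13) (node (nat_lit 5) (nat_lit 129707) (nat_lit 14)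
  (node (nat_lit 6) (nat_lit 129707) (nat_lit 15) (node (nat_lit 4) (nat_lit 129707) (nat_lit 16)
  (node (nat_lit 5) (nat_lit 129707) (nat_lit 17) (node (nat_lit 6) (nat_lit 129707) (nat_lit 18)
  (node (nat_lit 5) (nat_lit 129707) (nat_lit 19) (node (nat_lit 4) (nat_lit 131613) (nat_lit 20)
  (node (nat_lit 5) (nat_lit 132337) (nat_lit 21) (node (nat_lit 6) (nat_lit 132337) (nat_lit 22)
  nil nil) nil) nil) nil) nil) nil) nil) nil) nil) nil) nil))) (node (nat_lit 4) (nat_lit 124134)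
  (nat_lit 11) (node (nat_lit 6) (nat_lit 124134) (nat_lit 12) (node (nat_lit 4) (nat_lit 124134)
  (nat_lit 13) (node (nat_lit 5) (nat_lit 124134) (nat_lit 14) (node (nat_lit 6) (nat_lit 124134)
  (nat_lit 15) (node (nat_lit 5) (nat_lit 124134) (nat_lit 16) (node (nat_lit 4) (nat_lit 124134)
  (nat_lit 17) (node (nat_lit 5) (nat_lit 127090) (nat_lit 18) (node (nat_lit 6) (nat_lit 128781)
  (nat_lit 19) (node (nat_lit 4) (nat_lit 130101) (nat_lit 20) (node (nat_lit 6) (nat_lit 130506)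
  (nat_lit 21) nil nil) nil) nil) nil) nil) nil) (node (nat_lit 4) (nat_lit 124134) (nat_lit 15)
  nil nil)) nil) (node (nat_lit 5) (nat_lit 124134) (nat_lit 13) (node (nat_lit 4) (nat_lit
  124134) (nat_lit 14) (node (nat_lit 5) (nat_lit 124134) (nat_lit 15) (node (nat_lit 6) (nat_lit
  124134) (nat_lit 16) (node (nat_lit 5) (nat_lit 124134) (nat_lit 17) (node (nat_lit 4) (nat_lit
  123173) (nat_lit 18) nil nil) nil) nil) nil) (node (nat_lit 6) (nat_lit 124134) (nat_lit 14) nil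
  nil)) nil)) (node (nat_lit 5) (nat_lit 124134) (nat_lit 12) (node (nat_lit 6) (nat_lit 124134)
  (nat_lit 13) (node (nat_lit 5) (nat_lit 124134) (nat_lit 14) (node (nat_lit 4) (nat_lit 124134)
  (nat_lit 15) (node (nat_lit 5) (nat_lit 124134) (nat_lit 16) (node (nat_lit 6) (nat_lit 124134)
  (nat_lit 17) (node (nat_lit 4) (nat_lit 125326) (nat_lit 18) (node (nat_lit 6) (nat_lit 126255)
  (nat_lit 19) nil nil) nil) nil) nil) nil) (node (nat_lit 4) (nat_lit 124134) (nat_lit 14) nil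
  nil)) (node (nat_lit 4) (nat_lit 124134) (nat_lit 13) (node (nat_lit 6) (nat_lit 124134)
  (nat_lit 14) nil nil) nil)) (node (nat_lit 13) (nat_lit 128580) (nat_lit 12) (node (nat_lit 6)
  (nat_lit 128580) (nat_lit 13) (node (nat_lit 4) (nat_lit 128580) (nat_lit 14) (node (nat_lit 5)
  (nat_lit 128580) (nat_lit 15) (node (nat_lit 6) (nat_lit 128580) (nat_lit 16) (node (nat_lit 5)
  (nat_lit 128580) (nat_lit 17) (node (nat_lit 4) (nat_lit 128580) (nat_lit 18) (node (nat_lit 5)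
  (nat_lit 128580) (nat_lit 19) (node (nat_lit 6) (nat_lit 130101) (nat_lit 20) (node (nat_lit 4)
  (nat_lit 131288) (nat_lit 21) nil nil) nil) nil) nil) nil) nil) nil) nil) nil) nil))) (node
  (nat_lit 6) (nat_lit 124134) (nat_lit 11) (node (nat_lit 4) (nat_lit 124134) (nat_lit 12) (node
  (nat_lit 5) (nat_lit 124134) (nat_lit 13) (node (nat_lit 6) (nat_lit 124134) (nat_lit 14) (node
  (nat_lit 5) (nat_lit 124134) (nat_lit 15) (node (nat_lit 4) (nat_lit 124134) (nat_lit 16) (node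
  (nat_lit 5) (nat_lit 124134) (nat_lit 17) (node (nat_lit 6) (nat_lit 126632) (nat_lit 18) (node
  (nat_lit 4) (nat_lit 128580) (nat_lit 19) nil nil) nil) nil) nil) nil) (node (nat_lit 4)
  (nat_lit 124134) (nat_lit 14) nil nil)) (node (nat_lit 6) (nat_lit 124134) (nat_lit 13) (node
  (nat_lit 5) (nat_lit 124134) (nat_lit 14) nil nil) nil)) (node (nat_lit 5) (nat_lit 124134)
  (nat_lit 12) (node (nat_lit 6) (nat_lit 124134) (nat_lit 13) (node (nat_lit 4) (nat_lit 124134)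
  (nat_lit 14) (node (nat_lit 5) (nat_lit 124134) (nat_lit 15) (node (nat_lit 6) (nat_lit 124134)
  (nat_lit 16) (node (nat_lit 5) (nat_lit 124134) (nat_lit 17) (node (nat_lit 4) (nat_lit 127264)
  (nat_lit 18) (node (nat_lit 5) (nat_lit 129707) (nat_lit 19) (node (nat_lit 6) (nat_lit 131320)
  (nat_lit 20) (node (nat_lit 4) (nat_lit 132337) (nat_lit 21) (node (nat_lit 6) (nat_lit 132337)
  (nat_lit 22) nil nil) nil) nil) nil) nil) nil) nil) nil) nil) (node (nat_lit 4) (nat_lit 124134)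
  (nat_lit 13) nil nil)) nil)) (node (nat_lit 0) (nat_lit 126632) (nat_lit 11) nil nil)))) nil))
  (node (nat_lit 5) (nat_lit 0) (nat_lit 9) (node (nat_lit 4) (nat_lit 0) (nat_lit 10) (node
  (nat_lit 6) (nat_lit 0) (nat_lit 11) t87 (node (nat_lit 0) (nat_lit 130652) (nat_lit 11) (node
  (nat_lit 5) (nat_lit 130652) (nat_lit 12) (node (nat_lit 6) (nat_lit 130652) (nat_lit 13) (node
  (nat_lit 4) (nat_lit 130652) (nat_lit 14) (node (nat_lit 5) (nat_lit 130652) (nat_lit 15) (node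
  (nat_lit 6) (nat_lit 130652) (nat_lit 16) (node (nat_lit 5) (nat_lit 130652) (nat_lit 17) (node
  (nat_lit 4) (nat_lit 130652) (nat_lit 18) (node (nat_lit 5) (nat_lit 132337) (nat_lit 19) (node
  (nat_lit 6) (nat_lit 132337) (nat_lit 20) (node (nat_lit 4) (nat_lit 132337) (nat_lit 21) nil
  nil) nil) nil) nil) nil) nil) (node (nat_lit 6) (nat_lit 130652) (nat_lit 15) nil nil)) (node
  (nat_lit 5) (nat_lit 130652) (nat_lit 14) (node (nat_lit 4) (nat_lit 130652) (nat_lit 15) nil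
  nil) nil)) (node (nat_lit 4) (nat_lit 130652) (nat_lit 13) (node (nat_lit 6) (nat_lit 130652)
  (nat_lit 14) (node (nat_lit 4) (nat_lit 130652) (nat_lit 15) (node (nat_lit 5) (nat_lit 130652)
  (nat_lit 16) (node (nat_lit 6) (nat_lit 130652) (nat_lit 17) (node (nat_lit 5) (nat_lit 130652)
  (nat_lit 18) (node (nat_lit 4) (nat_lit 132337) (nat_lit 19) nil nil) nil) nil) nil) nil) (node
  (nat_lit 5) (nat_lit 130652) (nat_lit 14) (node (nat_lit 6) (nat_lit 130652) (nat_lit 15) (node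
  (nat_lit 4) (nat_lit 130652) (nat_lit 16) nil nil) nil) nil)) (node (nat_lit 14) (nat_lit
  132307) (nat_lit 13) (node (nat_lit 4) (nat_lit 132307) (nat_lit 14) (node (nat_lit 5) (nat_lit
  132307) (nat_lit 15) (node (nat_lit 6) (nat_lit 132307) (nat_lit 16) (node (nat_lit 5) (nat_lit
  132307) (nat_lit 17) (node (nat_lit 4) (nat_lit 132307) (nat_lit 18) (node (nat_lit 5) (nat_lit
  132307) (nat_lit 19) (node (nat_lit 6) (nat_lit 132307) (nat_lit 20) (node (nat_lit 4) (nat_lit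
  132337) (nat_lit 21) nil nil) nil) nil) nil) nil) nil) nil) nil) nil))) (node (nat_lit 4)
  (nat_lit 130652) (nat_lit 12) (node (nat_lit 5) (nat_lit 130652) (nat_lit 13) (node (nat_lit 6)
  (nat_lit 130652) (nat_lit 14) (node (nat_lit 5) (nat_lit 130652) (nat_lit 15) (node (nat_lit 4)
  (nat_lit 130652) (nat_lit 16) (node (nat_lit 5) (nat_lit 130652) (nat_lit 17) (node (nat_lit 6)
  (nat_lit 130652) (nat_lit 18) (node (nat_lit 4) (nat_lit 131581) (nat_lit 19) (node (nat_lit 5)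
  (nat_lit 132307) (nat_lit 20) (node (nat_lit 4) (nat_lit 131849) (nat_lit 21) nil nil) nil) nil)
  nil) nil) nil) (node (nat_lit 4) (nat_lit 130652) (nat_lit 15) nil nil)) (node (nat_lit 4)
  (nat_lit 130652) (nat_lit 14) nil nil)) (node (nat_lit 6) (nat_lit 130652) (nat_lit 13) (node
  (nat_lit 5) (nat_lit 130652) (nat_lit 14) (node (nat_lit 4) (nat_lit 130652) (nat_lit 15) nil
  nil) (node (nat_lit 4) (nat_lit 130652) (nat_lit 14) nil nil)) nil)) (node (nat_lit 6) (nat_lit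
  130652) (nat_lit 12) (node (nat_lit 4) (nat_lit 130652) (nat_lit 13) (node (nat_lit 5) (nat_lit
  130652) (nat_lit 14) (node (nat_lit 6) (nat_lit 130652) (nat_lit 15) (node (nat_lit 5) (nat_lit
  130652) (nat_lit 16) (node (nat_lit 4) (nat_lit 130652) (nat_lit 17) (node (nat_lit 5) (nat_lit
  130652) (nat_lit 18) (node (nat_lit 6) (nat_lit 132337) (nat_lit 19) nil nil) nil) nil) nil)
  nil) (node (nat_lit 6) (nat_lit 130652) (nat_lit 14) (node (nat_lit 5) (nat_lit 130652) (nat_lit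
  15) nil nil) nil)) (node (nat_lit 5) (nat_lit 130652) (nat_lit 13) (node (nat_lit 4) (nat_lit
  130652) (nat_lit 14) (node (nat_lit 6) (nat_lit 130652) (nat_lit 15) nil nil) (node (nat_lit 6)
  (nat_lit 130652) (nat_lit 14) nil nil)) nil)) (node (nat_lit 0) (nat_lit 132337) (nat_lit 12)
  nil nil)))) nil)) (node (nat_lit 0) (nat_lit 0) (nat_lit 10) (node (nat_lit 4) (nat_lit 127496)
  (nat_lit 11) (node (nat_lit 5) (nat_lit 127496) (nat_lit 12) (node (nat_lit 6) (nat_lit 127496)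
  (nat_lit 13) (node (nat_lit 5) (nat_lit 127496) (nat_lit 14) (node (nat_lit 4) (nat_lit 127496)
  (nat_lit 15) (node (nat_lit 5) (nat_lit 127496) (nat_lit 16) (node (nat_lit 6) (nat_lit 127496)
  (nat_lit 17) (node (nat_lit 4) (nat_lit 128687) (nat_lit 18) (node (nat_lit 5) (nat_lit 129617)
  (nat_lit 19) nil nil) nil) nil) nil) nil) (node (nat_lit 4) (nat_lit 127496) (nat_lit 14) nil
  nil)) (node (nat_lit 4) (nat_lit 127496) (nat_lit 13) (node (nat_lit 6) (nat_lit 127496)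
  (nat_lit 14) (node (nat_lit 5) (nat_lit 127496) (nat_lit 15) nil (node (nat_lit 4) (nat_lit
  127496) (nat_lit 15) (node (nat_lit 5) (nat_lit 127496) (nat_lit 16) (node (nat_lit 6) (nat_lit
  127586) (nat_lit 17) (node (nat_lit 5) (nat_lit 131096) (nat_lit 18) nil nil) nil) nil) nil))
  nil) nil)) (node (nat_lit 6) (nat_lit 127496) (nat_lit 12) (node (nat_lit 5) (nat_lit 127496)
  (nat_lit 13) (node (nat_lit 4) (nat_lit 127496) (nat_lit 14) (node (nat_lit 5) (nat_lit 127496)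
  (nat_lit 15) (node (nat_lit 6) (nat_lit 127496) (nat_lit 16) (node (nat_lit 5) (nat_lit 127496)
  (nat_lit 17) (node (nat_lit 4) (nat_lit 126534) (nat_lit 18) nil nil) nil) nil) nil) (node
  (nat_lit 6) (nat_lit 127496) (nat_lit 14) nil nil)) (node (nat_lit 4) (nat_lit 127496) (nat_lit
  13) (node (nat_lit 5) (nat_lit 127496) (nat_lit 14) (node (nat_lit 6) (nat_lit 127496) (nat_lit
  15) (node (nat_lit 5) (nat_lit 127496) (nat_lit 16) (node (nat_lit 4) (nat_lit 127496) (nat_lit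
  17) (node (nat_lit 5) (nat_lit 130452) (nat_lit 18) (node (nat_lit 6) (nat_lit 132142) (nat_lit
  19) (node (nat_lit 4) (nat_lit 132337) (nat_lit 20) (node (nat_lit 5) (nat_lit 132337) (nat_lit
  21) nil nil) nil) nil) nil) nil) nil) nil) nil) nil)) (node (nat_lit 13) (nat_lit 129617)
  (nat_lit 12) nil nil))) (node (nat_lit 6) (nat_lit 127496) (nat_lit 11) (node (nat_lit 4)
  (nat_lit 127496) (nat_lit 12) (node (nat_lit 5) (nat_lit 127496) (nat_lit 13) (node (nat_lit 6)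
  (nat_lit 127496) (nat_lit 14) (node (nat_lit 5) (nat_lit 127496) (nat_lit 15) (node (nat_lit 4)
  (nat_lit 127496) (nat_lit 16) (node (nat_lit 5) (nat_lit 127496) (nat_lit 17) (node (nat_lit 6)
  (nat_lit 129992) (nat_lit 18) (node (nat_lit 4) (nat_lit 131941) (nat_lit 19) (node (nat_lit 5)
  (nat_lit 132337) (nat_lit 20) nil nil) nil) nil) nil) nil) nil) (node (nat_lit 4) (nat_lit
  127496) (nat_lit 14) nil nil)) (node (nat_lit 6) (nat_lit 127496) (nat_lit 13) (node (nat_lit 5)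
  (nat_lit 127496) (nat_lit 14) nil nil) nil)) (node (nat_lit 5) (nat_lit 127496) (nat_lit 12)
  (node (nat_lit 6) (nat_lit 127496) (nat_lit 13) (node (nat_lit 4) (nat_lit 127496) (nat_lit 14)
  (node (nat_lit 5) (nat_lit 127496) (nat_lit 15) nil (node (nat_lit 6) (nat_lit 127496) (nat_lit
  15) nil nil)) nil) (node (nat_lit 4) (nat_lit 127496) (nat_lit 13) (node (nat_lit 5) (nat_lit
  127496) (nat_lit 14) nil (node (nat_lit 6) (nat_lit 127496) (nat_lit 14) nil nil)) nil)) (node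
  (nat_lit 13) (nat_lit 129617) (nat_lit 12) nil nil))) (node (nat_lit 5) (nat_lit 127496)
  (nat_lit 11) (node (nat_lit 4) (nat_lit 127496) (nat_lit 12) (node (nat_lit 6) (nat_lit 127496)
  (nat_lit 13) (node (nat_lit 4) (nat_lit 127496) (nat_lit 14) (node (nat_lit 5) (nat_lit 127496)
  (nat_lit 15) (node (nat_lit 6) (nat_lit 127496) (nat_lit 16) (node (nat_lit 5) (nat_lit 127496)
  (nat_lit 17) (node (nat_lit 4) (nat_lit 130936) (nat_lit 18) (node (nat_lit 5) (nat_lit 132337)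
  (nat_lit 19) (node (nat_lit 6) (nat_lit 132337) (nat_lit 20) (node (nat_lit 4) (nat_lit 132337)
  (nat_lit 21) nil nil) nil) nil) nil) nil) nil) nil) (node (nat_lit 5) (nat_lit 127496) (nat_lit
  14) nil nil)) (node (nat_lit 5) (nat_lit 127496) (nat_lit 13) (node (nat_lit 6) (nat_lit 127496)
  (nat_lit 14) nil nil) nil)) (node (nat_lit 6) (nat_lit 127496) (nat_lit 12) (node (nat_lit 4)
  (nat_lit 127496) (nat_lit 13) (node (nat_lit 5) (nat_lit 127496) (nat_lit 14) (node (nat_lit 6)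
  (nat_lit 127496) (nat_lit 15) (node (nat_lit 5) (nat_lit 127496) (nat_lit 16) (node (nat_lit 4)
  (nat_lit 127496) (nat_lit 17) (node (nat_lit 5) (nat_lit 130346) (nat_lit 18) (node (nat_lit 6)
  (nat_lit 132309) (nat_lit 19) nil nil) nil) nil) nil) (node (nat_lit 4) (nat_lit 127496)
  (nat_lit 15) nil nil)) (node (nat_lit 6) (nat_lit 127496) (nat_lit 14) (node (nat_lit 5)
  (nat_lit 127496) (nat_lit 15) nil nil) nil)) (node (nat_lit 5) (nat_lit 127496) (nat_lit 13) nil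
  nil)) nil)) (node (nat_lit 0) (nat_lit 129992) (nat_lit 11) nil nil)))) nil)) (node (nat_lit 0)
  (nat_lit 122419) (nat_lit 9) (node (nat_lit 6) (nat_lit 122419) (nat_lit 10) (node (nat_lit 5)
  (nat_lit 122419) (nat_lit 11) (node (nat_lit 4) (nat_lit 122419) (nat_lit 12) (node (nat_lit 6)
  (nat_lit 122419) (nat_lit 13) (node (nat_lit 4) (nat_lit 122419) (nat_lit 14) (node (nat_lit 5)
  (nat_lit 122419) (nat_lit 15) (node (nat_lit 6) (nat_lit 122419) (nat_lit 16) (node (nat_lit 5)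
  (nat_lit 127205) (nat_lit 17) (node (nat_lit 4) (nat_lit 130690) (nat_lit 18) (node (nat_lit 5)
  (nat_lit 132337) (nat_lit 19) (node (nat_lit 6) (nat_lit 132337) (nat_lit 20) nil nil) nil) nil)
  nil) nil) nil) nil) (node (nat_lit 5) (nat_lit 122419) (nat_lit 13) nil nil)) (node (nat_lit 6)
  (nat_lit 122419) (nat_lit 12) (node (nat_lit 4) (nat_lit 122419) (nat_lit 13) (node (nat_lit 5)
  (nat_lit 122419) (nat_lit 14) (node (nat_lit 6) (nat_lit 122419) (nat_lit 15) (node (nat_lit 5)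
  (nat_lit 122419) (nat_lit 16) (node (nat_lit 4) (nat_lit 126429) (nat_lit 17) (node (nat_lit 5)
  (nat_lit 129559) (nat_lit 18) (node (nat_lit 6) (nat_lit 131626) (nat_lit 19) (node (nat_lit 4)
  (nat_lit 132337) (nat_lit 20) nil nil) nil) nil) nil) nil) nil) nil) nil) nil)) (node (nat_lit
  4) (nat_lit 122419) (nat_lit 11) (node (nat_lit 5) (nat_lit 122419) (nat_lit 12) (node (nat_lit
  6) (nat_lit 122419) (nat_lit 13) (node (nat_lit 5) (nat_lit 122419) (nat_lit 14) (node (nat_lit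
  4) (nat_lit 122419) (nat_lit 15) (node (nat_lit 5) (nat_lit 122419) (nat_lit 16) (node (nat_lit
  6) (nat_lit 125619) (nat_lit 17) (node (nat_lit 4) (nat_lit 128116) (nat_lit 18) nil nil) nil)
  nil) nil) nil) (node (nat_lit 4) (nat_lit 122419) (nat_lit 13) (node (nat_lit 6) (nat_lit
  122419) (nat_lit 14) nil nil) nil)) (node (nat_lit 6) (nat_lit 122419) (nat_lit 12) nil nil))
  nil)) (node (nat_lit 5) (nat_lit 122419) (nat_lit 10) (node (nat_lit 4) (nat_lit 122419)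
  (nat_lit 11) (node (nat_lit 6) (nat_lit 122419) (nat_lit 12) (node (nat_lit 4) (nat_lit 122419)
  (nat_lit 13) (node (nat_lit 5) (nat_lit 122419) (nat_lit 14) (node (nat_lit 6) (nat_lit 122419)
  (nat_lit 15) (node (nat_lit 5) (nat_lit 122419) (nat_lit 16) (node (nat_lit 4) (nat_lit 126827)
  (nat_lit 17) (node (nat_lit 5) (nat_lit 129781) (nat_lit 18) (node (nat_lit 6) (nat_lit 132014)
  (nat_lit 19) (node (nat_lit 4) (nat_lit 132337) (nat_lit 20) nil nil) nil) nil) nil) nil) nil)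
  nil) (node (nat_lit 5) (nat_lit 122419) (nat_lit 13) nil nil)) (node (nat_lit 5) (nat_lit
  122419) (nat_lit 12) nil nil)) (node (nat_lit 6) (nat_lit 122419) (nat_lit 11) (node (nat_lit 4)
  (nat_lit 122419) (nat_lit 12) (node (nat_lit 5) (nat_lit 122419) (nat_lit 13) (node (nat_lit 6)
  (nat_lit 122419) (nat_lit 14) (node (nat_lit 5) (nat_lit 122419) (nat_lit 15) (node (nat_lit 4)
  (nat_lit 122419) (nat_lit 16) (node (nat_lit 5) (nat_lit 126071) (nat_lit 17) nil nil) nil) nil)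
  (node (nat_lit 4) (nat_lit 122419) (nat_lit 14) nil nil)) (node (nat_lit 6) (nat_lit 122419)
  (nat_lit 13) (node (nat_lit 5) (nat_lit 122419) (nat_lit 14) (node (nat_lit 4) (nat_lit 122419)
  (nat_lit 15) (node (nat_lit 5) (nat_lit 122419) (nat_lit 16) (node (nat_lit 6) (nat_lit 123945)
  (nat_lit 17) (node (nat_lit 5) (nat_lit 125137) (nat_lit 18) nil nil) nil) nil) nil) nil) nil))
  (node (nat_lit 5) (nat_lit 122419) (nat_lit 12) nil nil)) nil)) (node (nat_lit 4) (nat_lit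
  122419) (nat_lit 10) (node (nat_lit 6) (nat_lit 122419) (nat_lit 11) (node (nat_lit 4) (nat_lit
  122419) (nat_lit 12) (node (nat_lit 5) (nat_lit 122419) (nat_lit 13) (node (nat_lit 6) (nat_lit
  122419) (nat_lit 14) (node (nat_lit 5) (nat_lit 122419) (nat_lit 15) (node (nat_lit 4) (nat_lit
  122419) (nat_lit 16) (node (nat_lit 5) (nat_lit 126206) (nat_lit 17) (node (nat_lit 6) (nat_lit
  128374) (nat_lit 18) (node (nat_lit 4) (nat_lit 130065) (nat_lit 19) nil nil) nil) nil) nil)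
  nil) nil) nil) (node (nat_lit 5) (nat_lit 122419) (nat_lit 12) (node (nat_lit 6) (nat_lit
  122419) (nat_lit 13) (node (nat_lit 4) (nat_lit 122419) (nat_lit 14) (node (nat_lit 5) (nat_lit
  122419) (nat_lit 15) (node (nat_lit 6) (nat_lit 122419) (nat_lit 16) (node (nat_lit 5) (nat_lit
  125385) (nat_lit 17) nil nil) nil) nil) nil) (node (nat_lit 4) (nat_lit 122419) (nat_lit 13) nil
  nil)) nil)) (node (nat_lit 5) (nat_lit 122419) (nat_lit 11) (node (nat_lit 6) (nat_lit 122419)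
  (nat_lit 12) (node (nat_lit 5) (nat_lit 122419) (nat_lit 13) (node (nat_lit 4) (nat_lit 122419)
  (nat_lit 14) (node (nat_lit 5) (nat_lit 122419) (nat_lit 15) (node (nat_lit 6) (nat_lit 122419)
  (nat_lit 16) (node (nat_lit 4) (nat_lit 123945) (nat_lit 17) nil nil) nil) (node (nat_lit 6)
  (nat_lit 122419) (nat_lit 15) nil nil)) nil) (node (nat_lit 4) (nat_lit 122419) (nat_lit 13) nil
  nil)) (node (nat_lit 4) (nat_lit 122419) (nat_lit 12) nil nil)) nil)) nil))) nil)))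

noncomputable def t89 : Tr :=
  (node (nat_lit 4) (nat_lit 0) (nat_lit 11) (node (nat_lit 5) (nat_lit 0) (nat_lit 12) (node
  (nat_lit 7) (nat_lit 0) (nat_lit 13) (node (nat_lit 5) (nat_lit 0) (nat_lit 14) (node (nat_lit
  4) (nat_lit 0) (nat_lit 15) (node (nat_lit 7) (nat_lit 0) (nat_lit 16) (node (nat_lit 5)
  (nat_lit 0) (nat_lit 17) (node (nat_lit 7) (nat_lit 0) (nat_lit 18) (node (nat_lit 4) (nat_lit
  0) (nat_lit 19) (node (nat_lit 7) (nat_lit 56765) (nat_lit 20) (node (nat_lit 5) (nat_lit 58175)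
  (nat_lit 21) (node (nat_lit 4) (nat_lit 59116) (nat_lit 22) (node (nat_lit 5) (nat_lit 59642)
  (nat_lit 23) (node (nat_lit 7) (nat_lit 60053) (nat_lit 24) (node (nat_lit 4) (nat_lit 60374)
  (nat_lit 25) (node (nat_lit 5) (nat_lit 60470) (nat_lit 26) (node (nat_lit 4) (nat_lit 60589)
  (nat_lit 27) (node (nat_lit 7) (nat_lit 60719) (nat_lit 28) (node (nat_lit 5) (nat_lit 60838)
  (nat_lit 29) (node (nat_lit 7) (nat_lit 60932) (nat_lit 30) (node (nat_lit 4) (nat_lit 60993)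
  (nat_lit 31) nil nil) nil) nil) nil) nil) nil) nil) nil) (node (nat_lit 7) (nat_lit 59749)
  (nat_lit 23) (node (nat_lit 4) (nat_lit 59883) (nat_lit 24) (node (nat_lit 5) (nat_lit 59896)
  (nat_lit 25) (node (nat_lit 4) (nat_lit 59219) (nat_lit 26) (node (nat_lit 7) (nat_lit 58590)
  (nat_lit 27) (node (nat_lit 5) (nat_lit 58111) (nat_lit 28) (node (nat_lit 7) (nat_lit 57957)
  (nat_lit 29) (node (nat_lit 4) (nat_lit 56197) (nat_lit 30) (node (nat_lit 5) (nat_lit 55746)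
  (nat_lit 31) (node (nat_lit 4) (nat_lit 54767) (nat_lit 32) (node (nat_lit 7) (nat_lit 52652)
  (nat_lit 33) (node (nat_lit 4) (nat_lit 51255) (nat_lit 34) (node (nat_lit 5) (nat_lit 44991)
  (nat_lit 35) (node (nat_lit 7) (nat_lit 37265) (nat_lit 36) (node (nat_lit 5) (nat_lit 28930)
  (nat_lit 37) (node (nat_lit 4) (nat_lit 30710) (nat_lit 38) (node (nat_lit 7) (nat_lit 21014)
  (nat_lit 39) nil nil) nil) nil) nil) nil) nil) nil) nil) nil) nil) nil) nil) nil) nil) nil) nil)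
  nil)) nil) nil) (node (nat_lit 5) (nat_lit 56383) (nat_lit 20) (node (nat_lit 4) (nat_lit 57593)
  (nat_lit 21) (node (nat_lit 7) (nat_lit 58537) (nat_lit 22) (node (nat_lit 5) (nat_lit 59063)
  (nat_lit 23) (node (nat_lit 4) (nat_lit 59343) (nat_lit 24) nil (node (nat_lit 7) (nat_lit
  59474) (nat_lit 24) nil nil)) (node (nat_lit 4) (nat_lit 57214) (nat_lit 23) (node (nat_lit 5)
  (nat_lit 57050) (nat_lit 24) nil nil) nil)) nil) (node (nat_lit 7) (nat_lit 57247) (nat_lit 21)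
  (node (nat_lit 5) (nat_lit 57706) (nat_lit 22) nil nil) nil)) (node (nat_lit 0) (nat_lit 57909)
  (nat_lit 20) nil nil))) (node (nat_lit 0) (nat_lit 60518) (nat_lit 19) nil nil)) (node (nat_lit
  0) (nat_lit 60841) (nat_lit 18) nil nil)) (node (nat_lit 4) (nat_lit 0) (nat_lit 17) (node
  (nat_lit 5) (nat_lit 0) (nat_lit 18) (node (nat_lit 4) (nat_lit 0) (nat_lit 19) (node (nat_lit
  7) (nat_lit 51314) (nat_lit 20) (node (nat_lit 5) (nat_lit 52743) (nat_lit 21) (node (nat_lit 4)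
  (nat_lit 53702) (nat_lit 22) (node (nat_lit 5) (nat_lit 54362) (nat_lit 23) (node (nat_lit 7)
  (nat_lit 53964) (nat_lit 24) nil nil) nil) (node (nat_lit 7) (nat_lit 53765) (nat_lit 22) (node
  (nat_lit 4) (nat_lit 54623) (nat_lit 23) (node (nat_lit 5) (nat_lit 43102) (nat_lit 24) (node
  (nat_lit 4) (nat_lit 16948) (nat_lit 25) (node (nat_lit 7) (nat_lit 9869) (nat_lit 26) nil nil)
  nil) (node (nat_lit 7) (nat_lit 54902) (nat_lit 24) nil nil)) nil) nil)) nil) (node (nat_lit 0)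
  (nat_lit 53876) (nat_lit 20) nil nil)) (node (nat_lit 0) (nat_lit 54278) (nat_lit 19) nil nil))
  (node (nat_lit 0) (nat_lit 56053) (nat_lit 18) nil nil)) (node (nat_lit 0) (nat_lit 60214)
  (nat_lit 17) nil nil))) (node (nat_lit 5) (nat_lit 0) (nat_lit 16) (node (nat_lit 7) (nat_lit 0)
  (nat_lit 17) (node (nat_lit 4) (nat_lit 0) (nat_lit 18) (node (nat_lit 7) (nat_lit 0) (nat_lit
  19) (node (nat_lit 5) (nat_lit 0) (nat_lit 20) (node (nat_lit 4) (nat_lit 0) (nat_lit 21) (node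
  (nat_lit 7) (nat_lit 0) (nat_lit 22) (node (nat_lit 4) (nat_lit 59640) (nat_lit 23) (node
  (nat_lit 5) (nat_lit 59667) (nat_lit 24) (node (nat_lit 4) (nat_lit 58458) (nat_lit 25) (node
  (nat_lit 7) (nat_lit 57470) (nat_lit 26) (node (nat_lit 5) (nat_lit 56732) (nat_lit 27) (node
  (nat_lit 7) (nat_lit 56444) (nat_lit 28) (node (nat_lit 4) (nat_lit 54138) (nat_lit 29) (node
  (nat_lit 5) (nat_lit 53450) (nat_lit 30) (node (nat_lit 4) (nat_lit 49346) (nat_lit 31) (node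
  (nat_lit 7) (nat_lit 46172) (nat_lit 32) (node (nat_lit 4) (nat_lit 44649) (nat_lit 33) (node
  (nat_lit 5) (nat_lit 36244) (nat_lit 34) (node (nat_lit 7) (nat_lit 33745) (nat_lit 35) (node
  (nat_lit 5) (nat_lit 26060) (nat_lit 36) (node (nat_lit 4) (nat_lit 22857) (nat_lit 37) (node
  (nat_lit 5) (nat_lit 24536) (nat_lit 38) (node (nat_lit 7) (nat_lit 5698) (nat_lit 39) nil nil)
  nil) nil) nil) nil) nil) nil) nil) nil) nil) nil) nil) nil) nil) (node (nat_lit 7) (nat_lit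
  59886) (nat_lit 25) nil nil)) nil) (node (nat_lit 0) (nat_lit 60879) (nat_lit 23) nil nil))
  (node (nat_lit 5) (nat_lit 59526) (nat_lit 22) (node (nat_lit 7) (nat_lit 59017) (nat_lit 23)
  (node (nat_lit 5) (nat_lit 59297) (nat_lit 24) (node (nat_lit 4) (nat_lit 59139) (nat_lit 25)
  nil nil) nil) nil) (node (nat_lit 0) (nat_lit 60781) (nat_lit 22) nil nil))) (node (nat_lit 7)
  (nat_lit 0) (nat_lit 21) (node (nat_lit 4) (nat_lit 59606) (nat_lit 22) (node (nat_lit 5)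
  (nat_lit 59809) (nat_lit 23) (node (nat_lit 7) (nat_lit 60089) (nat_lit 24) nil (node (nat_lit
  4) (nat_lit 60061) (nat_lit 24) (node (nat_lit 7) (nat_lit 60335) (nat_lit 25) (node (nat_lit 5)
  (nat_lit 60584) (nat_lit 26) (node (nat_lit 7) (nat_lit 60779) (nat_lit 27) (node (nat_lit 4)
  (nat_lit 60932) (nat_lit 28) nil nil) nil) nil) nil) nil)) nil) (node (nat_lit 0) (nat_lit
  60858) (nat_lit 22) nil nil)) (node (nat_lit 0) (nat_lit 61366) (nat_lit 21) nil nil))) (node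
  (nat_lit 0) (nat_lit 61195) (nat_lit 20) nil nil)) (node (nat_lit 5) (nat_lit 0) (nat_lit 19)
  (node (nat_lit 4) (nat_lit 0) (nat_lit 20) (node (nat_lit 7) (nat_lit 58295) (nat_lit 21) (node
  (nat_lit 5) (nat_lit 58843) (nat_lit 22) (node (nat_lit 7) (nat_lit 59271) (nat_lit 23) (node
  (nat_lit 4) (nat_lit 59605) (nat_lit 24) (node (nat_lit 5) (nat_lit 59782) (nat_lit 25) (node
  (nat_lit 4) (nat_lit 59946) (nat_lit 26) nil nil) nil) nil) (node (nat_lit 4) (nat_lit 59201)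
  (nat_lit 23) (node (nat_lit 5) (nat_lit 58999) (nat_lit 24) nil nil) nil)) (node (nat_lit 4)
  (nat_lit 57453) (nat_lit 22) (node (nat_lit 5) (nat_lit 57516) (nat_lit 23) nil nil) nil)) (node
  (nat_lit 0) (nat_lit 59971) (nat_lit 21) nil nil)) (node (nat_lit 0) (nat_lit 59546) (nat_lit
  20) nil nil)) (node (nat_lit 0) (nat_lit 60881) (nat_lit 19) nil nil))) (node (nat_lit 0)
  (nat_lit 60295) (nat_lit 18) nil nil)) (node (nat_lit 0) (nat_lit 60819) (nat_lit 17) nil nil))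
  (node (nat_lit 0) (nat_lit 60321) (nat_lit 16) (node (nat_lit 5) (nat_lit 60321) (nat_lit 17)
  nil (node (nat_lit 4) (nat_lit 60321) (nat_lit 17) nil (node (nat_lit 7) (nat_lit 60321)
  (nat_lit 17) nil nil))) nil))) (node (nat_lit 0) (nat_lit 59864) (nat_lit 15) (node (nat_lit 7)
  (nat_lit 59864) (nat_lit 16) (node (nat_lit 5) (nat_lit 59864) (nat_lit 17) nil nil) (node
  (nat_lit 5) (nat_lit 59864) (nat_lit 16) nil nil)) nil)) (node (nat_lit 4) (nat_lit 0) (nat_lit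
  14) (node (nat_lit 7) (nat_lit 0) (nat_lit 15) (node (nat_lit 5) (nat_lit 0) (nat_lit 16) (node
  (nat_lit 4) (nat_lit 0) (nat_lit 17) (node (nat_lit 5) (nat_lit 0) (nat_lit 18) (node (nat_lit
  7) (nat_lit 54703) (nat_lit 19) (node (nat_lit 5) (nat_lit 56520) (nat_lit 20) (node (nat_lit 4)
  (nat_lit 57672) (nat_lit 21) (node (nat_lit 7) (nat_lit 58527) (nat_lit 22) (node (nat_lit 5)
  (nat_lit 58269) (nat_lit 23) nil (node (nat_lit 4) (nat_lit 58828) (nat_lit 23) (node (nat_lit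
  5) (nat_lit 59296) (nat_lit 24) (node (nat_lit 4) (nat_lit 59438) (nat_lit 25) (node (nat_lit 7)
  (nat_lit 59177) (nat_lit 26) (node (nat_lit 5) (nat_lit 59044) (nat_lit 27) (node (nat_lit 7)
  (nat_lit 58198) (nat_lit 28) (node (nat_lit 4) (nat_lit 55830) (nat_lit 29) (node (nat_lit 5)
  (nat_lit 54448) (nat_lit 30) (node (nat_lit 4) (nat_lit 52405) (nat_lit 31) (node (nat_lit 7)
  (nat_lit 50272) (nat_lit 32) (node (nat_lit 4) (nat_lit 45288) (nat_lit 33) nil nil) nil) nil)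
  nil) nil) nil) nil) nil) nil) nil) nil)) nil) nil) (node (nat_lit 4) (nat_lit 56368) (nat_lit
  20) (node (nat_lit 5) (nat_lit 56921) (nat_lit 21) (node (nat_lit 4) (nat_lit 56806) (nat_lit
  22) (node (nat_lit 7) (nat_lit 57255) (nat_lit 23) (node (nat_lit 5) (nat_lit 57666) (nat_lit
  24) (node (nat_lit 7) (nat_lit 57986) (nat_lit 25) (node (nat_lit 4) (nat_lit 58236) (nat_lit
  26) (node (nat_lit 5) (nat_lit 56581) (nat_lit 27) (node (nat_lit 4) (nat_lit 31451) (nat_lit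
  28) nil nil) nil) nil) nil) (node (nat_lit 4) (nat_lit 56222) (nat_lit 24) nil nil)) nil) nil)
  nil) nil)) (node (nat_lit 0) (nat_lit 59582) (nat_lit 19) nil nil)) (node (nat_lit 7) (nat_lit
  0) (nat_lit 18) (node (nat_lit 4) (nat_lit 0) (nat_lit 19) (node (nat_lit 5) (nat_lit 54494)
  (nat_lit 20) (node (nat_lit 7) (nat_lit 55199) (nat_lit 21) (node (nat_lit 5) (nat_lit 55658)
  (nat_lit 22) nil nil) (node (nat_lit 4) (nat_lit 51455) (nat_lit 21) (node (nat_lit 7) (nat_lit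
  52213) (nat_lit 22) (node (nat_lit 5) (nat_lit 53091) (nat_lit 23) (node (nat_lit 7) (nat_lit
  52078) (nat_lit 24) (node (nat_lit 4) (nat_lit 45565) (nat_lit 25) (node (nat_lit 5) (nat_lit
  42026) (nat_lit 26) (node (nat_lit 4) (nat_lit 31436) (nat_lit 27) (node (nat_lit 7) (nat_lit
  28063) (nat_lit 28) nil nil) nil) nil) nil) (node (nat_lit 4) (nat_lit 53371) (nat_lit 24) nil
  nil)) nil) nil) nil)) (node (nat_lit 0) (nat_lit 56203) (nat_lit 20) nil nil)) (node (nat_lit 0)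
  (nat_lit 55902) (nat_lit 19) nil nil)) (node (nat_lit 0) (nat_lit 58426) (nat_lit 18) nil nil)))
  (node (nat_lit 7) (nat_lit 0) (nat_lit 17) (node (nat_lit 4) (nat_lit 0) (nat_lit 18) (node
  (nat_lit 5) (nat_lit 55372) (nat_lit 19) (node (nat_lit 7) (nat_lit 57115) (nat_lit 20) (node
  (nat_lit 5) (nat_lit 58365) (nat_lit 21) (node (nat_lit 4) (nat_lit 58803) (nat_lit 22) (node
  (nat_lit 7) (nat_lit 59193) (nat_lit 23) (node (nat_lit 4) (nat_lit 59327) (nat_lit 24) (node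
  (nat_lit 5) (nat_lit 59340) (nat_lit 25) (node (nat_lit 4) (nat_lit 59426) (nat_lit 26) (node
  (nat_lit 7) (nat_lit 59191) (nat_lit 27) (node (nat_lit 5) (nat_lit 59066) (nat_lit 28) (node
  (nat_lit 7) (nat_lit 58981) (nat_lit 29) (node (nat_lit 4) (nat_lit 57848) (nat_lit 30) (node
  (nat_lit 5) (nat_lit 57758) (nat_lit 31) (node (nat_lit 4) (nat_lit 56154) (nat_lit 32) (node
  (nat_lit 7) (nat_lit 53897) (nat_lit 33) (node (nat_lit 4) (nat_lit 51125) (nat_lit 34) (node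
  (nat_lit 5) (nat_lit 45881) (nat_lit 35) (node (nat_lit 7) (nat_lit 37491) (nat_lit 36) (node
  (nat_lit 4) (nat_lit 33010) (nat_lit 37) (node (nat_lit 7) (nat_lit 23377) (nat_lit 38) (node
  (nat_lit 5) (nat_lit 23908) (nat_lit 39) nil nil) nil) nil) nil) nil) nil) nil) nil) nil) nil)
  nil) nil) nil) nil) nil) nil) nil) nil) nil) (node (nat_lit 4) (nat_lit 56923) (nat_lit 20)
  (node (nat_lit 7) (nat_lit 56364) (nat_lit 21) (node (nat_lit 5) (nat_lit 57038) (nat_lit 22)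
  (node (nat_lit 4) (nat_lit 57396) (nat_lit 23) nil (node (nat_lit 7) (nat_lit 55507) (nat_lit
  23) (node (nat_lit 4) (nat_lit 48405) (nat_lit 24) nil nil) nil)) (node (nat_lit 4) (nat_lit
  56307) (nat_lit 22) (node (nat_lit 5) (nat_lit 55942) (nat_lit 23) nil nil) nil)) nil) nil))
  (node (nat_lit 0) (nat_lit 58681) (nat_lit 19) nil nil)) (node (nat_lit 0) (nat_lit 56974)
  (nat_lit 18) nil nil)) (node (nat_lit 0) (nat_lit 59965) (nat_lit 17) nil nil))) (node (nat_lit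
  0) (nat_lit 60016) (nat_lit 16) (node (nat_lit 4) (nat_lit 60016) (nat_lit 17) nil nil) nil))
  (node (nat_lit 0) (nat_lit 59833) (nat_lit 15) (node (nat_lit 4) (nat_lit 59833) (nat_lit 16)
  (node (nat_lit 7) (nat_lit 59833) (nat_lit 17) nil (node (nat_lit 5) (nat_lit 59833) (nat_lit
  17) nil nil)) (node (nat_lit 7) (nat_lit 59833) (nat_lit 16) nil (node (nat_lit 5) (nat_lit
  59833) (nat_lit 16) nil nil))) nil)) (node (nat_lit 0) (nat_lit 58617) (nat_lit 14) (node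
  (nat_lit 5) (nat_lit 58617) (nat_lit 15) (node (nat_lit 7) (nat_lit 58617) (nat_lit 16) nil nil)
  (node (nat_lit 4) (nat_lit 58617) (nat_lit 15) (node (nat_lit 5) (nat_lit 58617) (nat_lit 16)
  (node (nat_lit 4) (nat_lit 58617) (nat_lit 17) (node (nat_lit 7) (nat_lit 58617) (nat_lit 18)
  (node (nat_lit 5) (nat_lit 58617) (nat_lit 19) (node (nat_lit 7) (nat_lit 58617) (nat_lit 20)
  (node (nat_lit 4) (nat_lit 58617) (nat_lit 21) (node (nat_lit 5) (nat_lit 59076) (nat_lit 22)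
  nil nil) nil) nil) nil) nil) nil) nil) (node (nat_lit 7) (nat_lit 58617) (nat_lit 15) (node
  (nat_lit 5) (nat_lit 58617) (nat_lit 16) nil (node (nat_lit 4) (nat_lit 58617) (nat_lit 16) nil
  nil)) nil))) nil))) (node (nat_lit 0) (nat_lit 57962) (nat_lit 13) (node (nat_lit 7) (nat_lit
  57962) (nat_lit 14) (node (nat_lit 5) (nat_lit 57962) (nat_lit 15) nil (node (nat_lit 4)
  (nat_lit 57962) (nat_lit 15) (node (nat_lit 5) (nat_lit 57962) (nat_lit 16) (node (nat_lit 4)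
  (nat_lit 57962) (nat_lit 17) (node (nat_lit 7) (nat_lit 57962) (nat_lit 18) (node (nat_lit 5)
  (nat_lit 57962) (nat_lit 19) (node (nat_lit 7) (nat_lit 57962) (nat_lit 20) (node (nat_lit 4)
  (nat_lit 58826) (nat_lit 21) (node (nat_lit 5) (nat_lit 59087) (nat_lit 22) nil nil) nil) nil)
  nil) nil) nil) nil) nil)) (node (nat_lit 5) (nat_lit 57962) (nat_lit 14) (node (nat_lit 4)
  (nat_lit 57962) (nat_lit 15) nil (node (nat_lit 7) (nat_lit 57962) (nat_lit 15) nil nil)) (node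
  (nat_lit 4) (nat_lit 57962) (nat_lit 14) (node (nat_lit 5) (nat_lit 57962) (nat_lit 15) (node
  (nat_lit 4) (nat_lit 57962) (nat_lit 16) (node (nat_lit 7) (nat_lit 57962) (nat_lit 17) (node
  (nat_lit 5) (nat_lit 57962) (nat_lit 18) (node (nat_lit 7) (nat_lit 57962) (nat_lit 19) (node
  (nat_lit 4) (nat_lit 57962) (nat_lit 20) (node (nat_lit 5) (nat_lit 58550) (nat_lit 21) (node
  (nat_lit 4) (nat_lit 58219) (nat_lit 22) nil nil) nil) nil) nil) nil) nil) nil) (node (nat_lit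
  7) (nat_lit 57962) (nat_lit 15) nil nil)) nil))) nil)) (node (nat_lit 0) (nat_lit 56587)
  (nat_lit 12) (node (nat_lit 7) (nat_lit 56587) (nat_lit 13) (node (nat_lit 4) (nat_lit 56587)
  (nat_lit 14) (node (nat_lit 5) (nat_lit 56587) (nat_lit 15) (node (nat_lit 4) (nat_lit 56587)
  (nat_lit 16) (node (nat_lit 7) (nat_lit 56587) (nat_lit 17) (node (nat_lit 5) (nat_lit 56587)
  (nat_lit 18) (node (nat_lit 7) (nat_lit 56587) (nat_lit 19) (node (nat_lit 4) (nat_lit 57694)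
  (nat_lit 20) nil nil) nil) nil) nil) nil) (node (nat_lit 7) (nat_lit 56587) (nat_lit 15) (node
  (nat_lit 5) (nat_lit 56587) (nat_lit 16) nil nil) nil)) (node (nat_lit 5) (nat_lit 56587)
  (nat_lit 14) nil nil)) (node (nat_lit 4) (nat_lit 56587) (nat_lit 13) (node (nat_lit 5) (nat_lit
  56587) (nat_lit 14) (node (nat_lit 4) (nat_lit 56587) (nat_lit 15) (node (nat_lit 7) (nat_lit
  56587) (nat_lit 16) (node (nat_lit 5) (nat_lit 56587) (nat_lit 17) (node (nat_lit 7) (nat_lit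
  56587) (nat_lit 18) (node (nat_lit 4) (nat_lit 56587) (nat_lit 19) (node (nat_lit 5) (nat_lit
  57341) (nat_lit 20) nil nil) nil) nil) nil) nil) (node (nat_lit 7) (nat_lit 56587) (nat_lit 15)
  nil nil)) (node (nat_lit 7) (nat_lit 56587) (nat_lit 14) (node (nat_lit 5) (nat_lit 56587)
  (nat_lit 15) nil nil) nil)) (node (nat_lit 5) (nat_lit 56587) (nat_lit 13) (node (nat_lit 4)
  (nat_lit 56587) (nat_lit 14) nil (node (nat_lit 7) (nat_lit 56587) (nat_lit 14) nil nil)) nil)))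
  nil)) (node (nat_lit 0) (nat_lit 0) (nat_lit 11) (node (nat_lit 7) (nat_lit 54811) (nat_lit 12)
  (node (nat_lit 5) (nat_lit 54811) (nat_lit 13) (node (nat_lit 4) (nat_lit 54811) (nat_lit 14)
  (node (nat_lit 7) (nat_lit 54811) (nat_lit 15) (node (nat_lit 5) (nat_lit 54811) (nat_lit 16)
  nil nil) (node (nat_lit 5) (nat_lit 54811) (nat_lit 15) nil nil)) (node (nat_lit 7) (nat_lit
  54811) (nat_lit 14) (node (nat_lit 4) (nat_lit 54811) (nat_lit 15) nil nil) nil)) (node (nat_lit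
  4) (nat_lit 54811) (nat_lit 13) (node (nat_lit 5) (nat_lit 54811) (nat_lit 14) (node (nat_lit 4)
  (nat_lit 54811) (nat_lit 15) (node (nat_lit 7) (nat_lit 54811) (nat_lit 16) (node (nat_lit 5)
  (nat_lit 54811) (nat_lit 17) (node (nat_lit 7) (nat_lit 54811) (nat_lit 18) (node (nat_lit 4)
  (nat_lit 56229) (nat_lit 19) (node (nat_lit 5) (nat_lit 56660) (nat_lit 20) (node (nat_lit 4)
  (nat_lit 57189) (nat_lit 21) nil nil) nil) nil) nil) nil) nil) (node (nat_lit 7) (nat_lit 54811)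
  (nat_lit 15) nil nil)) (node (nat_lit 7) (nat_lit 54811) (nat_lit 14) (node (nat_lit 5) (nat_lit
  54811) (nat_lit 15) nil nil) (node (nat_lit 14) (nat_lit 57118) (nat_lit 14) nil nil))) (node
  (nat_lit 0) (nat_lit 56531) (nat_lit 13) nil nil))) (node (nat_lit 4) (nat_lit 54811) (nat_lit
  12) (node (nat_lit 5) (nat_lit 54811) (nat_lit 13) (node (nat_lit 4) (nat_lit 54811) (nat_lit
  14) (node (nat_lit 7) (nat_lit 54811) (nat_lit 15) (node (nat_lit 5) (nat_lit 54811) (nat_lit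
  16) (node (nat_lit 7) (nat_lit 54811) (nat_lit 17) (node (nat_lit 4) (nat_lit 54811) (nat_lit
  18) (node (nat_lit 5) (nat_lit 55777) (nat_lit 19) (node (nat_lit 4) (nat_lit 55235) (nat_lit
  20) (node (nat_lit 7) (nat_lit 55696) (nat_lit 21) nil nil) nil) nil) nil) nil) nil) nil) (node
  (nat_lit 7) (nat_lit 54811) (nat_lit 14) nil nil)) (node (nat_lit 7) (nat_lit 54811) (nat_lit
  13) (node (nat_lit 4) (nat_lit 54811) (nat_lit 14) (node (nat_lit 5) (nat_lit 54811) (nat_lit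
  15) (node (nat_lit 4) (nat_lit 54811) (nat_lit 16) (node (nat_lit 7) (nat_lit 54811) (nat_lit
  17) (node (nat_lit 5) (nat_lit 54811) (nat_lit 18) (node (nat_lit 7) (nat_lit 56587) (nat_lit
  19) nil nil) nil) nil) (node (nat_lit 7) (nat_lit 54811) (nat_lit 16) nil nil)) nil) (node
  (nat_lit 5) (nat_lit 54811) (nat_lit 14) (node (nat_lit 4) (nat_lit 54811) (nat_lit 15) nil nil)
  nil)) (node (nat_lit 14) (nat_lit 56531) (nat_lit 13) nil nil))) (node (nat_lit 5) (nat_lit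
  54811) (nat_lit 12) (node (nat_lit 7) (nat_lit 54811) (nat_lit 13) (node (nat_lit 5) (nat_lit
  54811) (nat_lit 14) (node (nat_lit 4) (nat_lit 54811) (nat_lit 15) (node (nat_lit 7) (nat_lit
  54811) (nat_lit 16) nil (node (nat_lit 5) (nat_lit 54811) (nat_lit 16) nil nil)) nil) (node
  (nat_lit 4) (nat_lit 54811) (nat_lit 14) (node (nat_lit 7) (nat_lit 54811) (nat_lit 15) (node
  (nat_lit 5) (nat_lit 54811) (nat_lit 16) nil nil) nil) nil)) (node (nat_lit 4) (nat_lit 54811)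
  (nat_lit 13) (node (nat_lit 7) (nat_lit 54811) (nat_lit 14) (node (nat_lit 5) (nat_lit 54811)
  (nat_lit 15) (node (nat_lit 7) (nat_lit 54811) (nat_lit 16) (node (nat_lit 4) (nat_lit 54811)
  (nat_lit 17) nil nil) nil) nil) (node (nat_lit 5) (nat_lit 54811) (nat_lit 14) (node (nat_lit 7)
  (nat_lit 54811) (nat_lit 15) nil nil) nil)) (node (nat_lit 14) (nat_lit 56531) (nat_lit 13) nil
  nil))) (node (nat_lit 0) (nat_lit 56229) (nat_lit 12) nil nil)))) nil))

noncomputable def t90 : Tr :=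
  (node (nat_lit 4) (nat_lit 0) (nat_lit 13) (node (nat_lit 5) (nat_lit 0) (nat_lit 14) (node
  (nat_lit 7) (nat_lit 0) (nat_lit 15) (node (nat_lit 4) (nat_lit 0) (nat_lit 16) (node (nat_lit
  7) (nat_lit 0) (nat_lit 17) (node (nat_lit 5) (nat_lit 0) (nat_lit 18) (node (nat_lit 4)
  (nat_lit 0) (nat_lit 19) (node (nat_lit 7) (nat_lit 92381) (nat_lit 20) (node (nat_lit 4)
  (nat_lit 93413) (nat_lit 21) (node (nat_lit 5) (nat_lit 93882) (nat_lit 22) (node (nat_lit 7)
  (nat_lit 94618) (nat_lit 23) (node (nat_lit 5) (nat_lit 94897) (nat_lit 24) nil nil) (node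
  (nat_lit 4) (nat_lit 94276) (nat_lit 23) (node (nat_lit 7) (nat_lit 94183) (nat_lit 24) (node
  (nat_lit 5) (nat_lit 94005) (nat_lit 25) (node (nat_lit 7) (nat_lit 92079) (nat_lit 26) (node
  (nat_lit 4) (nat_lit 90222) (nat_lit 27) (node (nat_lit 5) (nat_lit 85917) (nat_lit 28) (node
  (nat_lit 7) (nat_lit 79822) (nat_lit 29) (node (nat_lit 5) (nat_lit 77934) (nat_lit 30) (node
  (nat_lit 4) (nat_lit 66200) (nat_lit 31) (node (nat_lit 7) (nat_lit 52422) (nat_lit 32) (node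
  (nat_lit 4) (nat_lit 48015) (nat_lit 33) (node (nat_lit 5) (nat_lit 48052) (nat_lit 34) (node
  (nat_lit 7) (nat_lit 48081) (nat_lit 35) (node (nat_lit 4) (nat_lit 39204) (nat_lit 36) (node
  (nat_lit 7) (nat_lit 26148) (nat_lit 37) nil nil) nil) nil) nil) nil) nil) nil) nil) nil) nil)
  nil) nil) nil) nil) nil)) nil) nil) (node (nat_lit 5) (nat_lit 91957) (nat_lit 20) (node
  (nat_lit 7) (nat_lit 93356) (nat_lit 21) (node (nat_lit 4) (nat_lit 94463) (nat_lit 22) (node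
  (nat_lit 5) (nat_lit 94541) (nat_lit 23) (node (nat_lit 4) (nat_lit 94667) (nat_lit 24) (node
  (nat_lit 7) (nat_lit 93710) (nat_lit 25) (node (nat_lit 5) (nat_lit 92983) (nat_lit 26) (node
  (nat_lit 7) (nat_lit 91214) (nat_lit 27) (node (nat_lit 4) (nat_lit 91541) (nat_lit 28) (node
  (nat_lit 5) (nat_lit 88452) (nat_lit 29) (node (nat_lit 7) (nat_lit 84692) (nat_lit 30) (node
  (nat_lit 5) (nat_lit 81695) (nat_lit 31) (node (nat_lit 4) (nat_lit 72911) (nat_lit 32) (node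
  (nat_lit 7) (nat_lit 66140) (nat_lit 33) (node (nat_lit 4) (nat_lit 53878) (nat_lit 34) (node
  (nat_lit 5) (nat_lit 54122) (nat_lit 35) (node (nat_lit 7) (nat_lit 47746) (nat_lit 36) (node
  (nat_lit 4) (nat_lit 46874) (nat_lit 37) (node (nat_lit 7) (nat_lit 46884) (nat_lit 38) (node
  (nat_lit 5) (nat_lit 30421) (nat_lit 39) (node (nat_lit 4) (nat_lit 6034) (nat_lit 40) nil nil)
  nil) nil) nil) nil) nil) nil) nil) nil) nil) nil) nil) nil) nil) nil) nil) nil) nil) (node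
  (nat_lit 5) (nat_lit 93886) (nat_lit 22) (node (nat_lit 4) (nat_lit 94038) (nat_lit 23) (node
  (nat_lit 7) (nat_lit 93640) (nat_lit 24) nil nil) nil) nil)) nil) (node (nat_lit 0) (nat_lit
  92777) (nat_lit 20) nil nil))) (node (nat_lit 7) (nat_lit 0) (nat_lit 19) (node (nat_lit 4)
  (nat_lit 0) (nat_lit 20) (node (nat_lit 5) (nat_lit 93670) (nat_lit 21) (node (nat_lit 4)
  (nat_lit 94157) (nat_lit 22) (node (nat_lit 7) (nat_lit 94155) (nat_lit 23) (node (nat_lit 5)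
  (nat_lit 94648) (nat_lit 24) (node (nat_lit 7) (nat_lit 93254) (nat_lit 25) (node (nat_lit 4)
  (nat_lit 90414) (nat_lit 26) nil nil) (node (nat_lit 4) (nat_lit 94864) (nat_lit 25) nil nil))
  (node (nat_lit 4) (nat_lit 94284) (nat_lit 24) (node (nat_lit 5) (nat_lit 94189) (nat_lit 25)
  nil nil) nil)) nil) (node (nat_lit 7) (nat_lit 94612) (nat_lit 22) (node (nat_lit 5) (nat_lit
  94971) (nat_lit 23) nil nil) nil)) (node (nat_lit 0) (nat_lit 96883) (nat_lit 21) nil nil))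
  (node (nat_lit 0) (nat_lit 97299) (nat_lit 20) nil nil)) (node (nat_lit 0) (nat_lit 94662)
  (nat_lit 19) nil nil))) (node (nat_lit 0) (nat_lit 97561) (nat_lit 18) nil nil)) (node (nat_lit
  0) (nat_lit 97118) (nat_lit 17) nil nil)) (node (nat_lit 0) (nat_lit 98033) (nat_lit 16) nil
  (node (nat_lit 5) (nat_lit 0) (nat_lit 16) (node (nat_lit 0) (nat_lit 97688) (nat_lit 17) nil
  nil) nil))) (node (nat_lit 4) (nat_lit 0) (nat_lit 15) (node (nat_lit 7) (nat_lit 0) (nat_lit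
  16) (node (nat_lit 5) (nat_lit 0) (nat_lit 17) (node (nat_lit 4) (nat_lit 0) (nat_lit 18) (node
  (nat_lit 5) (nat_lit 0) (nat_lit 19) (node (nat_lit 7) (nat_lit 85620) (nat_lit 20) (node
  (nat_lit 5) (nat_lit 87390) (nat_lit 21) (node (nat_lit 4) (nat_lit 88195) (nat_lit 22) (node
  (nat_lit 7) (nat_lit 88811) (nat_lit 23) (node (nat_lit 4) (nat_lit 89424) (nat_lit 24) (node
  (nat_lit 5) (nat_lit 89689) (nat_lit 25) (node (nat_lit 4) (nat_lit 89709) (nat_lit 26) (node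
  (nat_lit 7) (nat_lit 89202) (nat_lit 27) nil nil) nil) nil) nil) nil) nil) (node (nat_lit 4)
  (nat_lit 86689) (nat_lit 21) (node (nat_lit 5) (nat_lit 84101) (nat_lit 22) (node (nat_lit 4)
  (nat_lit 84599) (nat_lit 23) (node (nat_lit 7) (nat_lit 84727) (nat_lit 24) (node (nat_lit 5)
  (nat_lit 84215) (nat_lit 25) (node (nat_lit 7) (nat_lit 84145) (nat_lit 26) (node (nat_lit 4)
  (nat_lit 83232) (nat_lit 27) (node (nat_lit 5) (nat_lit 79014) (nat_lit 28) (node (nat_lit 7)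
  (nat_lit 72909) (nat_lit 29) (node (nat_lit 5) (nat_lit 70469) (nat_lit 30) (node (nat_lit 4)
  (nat_lit 64641) (nat_lit 31) (node (nat_lit 7) (nat_lit 57204) (nat_lit 32) (node (nat_lit 4)
  (nat_lit 45797) (nat_lit 33) (node (nat_lit 5) (nat_lit 41574) (nat_lit 34) (node (nat_lit 4)
  (nat_lit 41573) (nat_lit 35) (node (nat_lit 7) (nat_lit 41491) (nat_lit 36) (node (nat_lit 5)
  (nat_lit 14167) (nat_lit 37) nil nil) nil) nil) nil) nil) nil) nil) nil) nil) nil) nil) nil)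
  nil) nil) nil) (node (nat_lit 7) (nat_lit 87796) (nat_lit 22) (node (nat_lit 5) (nat_lit 87538)
  (nat_lit 23) nil nil) nil)) nil)) (node (nat_lit 0) (nat_lit 86179) (nat_lit 20) nil nil)) (node
  (nat_lit 0) (nat_lit 87507) (nat_lit 19) nil nil)) (node (nat_lit 7) (nat_lit 0) (nat_lit 18)
  (node (nat_lit 4) (nat_lit 0) (nat_lit 19) (node (nat_lit 7) (nat_lit 69758) (nat_lit 20) (node
  (nat_lit 5) (nat_lit 71279) (nat_lit 21) (node (nat_lit 4) (nat_lit 72048) (nat_lit 22) (node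
  (nat_lit 5) (nat_lit 72655) (nat_lit 23) nil (node (nat_lit 7) (nat_lit 71539) (nat_lit 23)
  (node (nat_lit 4) (nat_lit 71372) (nat_lit 24) (node (nat_lit 5) (nat_lit 71244) (nat_lit 25)
  (node (nat_lit 4) (nat_lit 70957) (nat_lit 26) (node (nat_lit 7) (nat_lit 70124) (nat_lit 27)
  (node (nat_lit 5) (nat_lit 69272) (nat_lit 28) nil nil) nil) nil) nil) nil) nil)) nil) nil)
  (node (nat_lit 5) (nat_lit 0) (nat_lit 20) (node (nat_lit 4) (nat_lit 45401) (nat_lit 21) (node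
  (nat_lit 7) (nat_lit 45910) (nat_lit 22) (node (nat_lit 4) (nat_lit 46134) (nat_lit 23) (node
  (nat_lit 5) (nat_lit 46039) (nat_lit 24) nil nil) nil) nil) (node (nat_lit 0) (nat_lit 46568)
  (nat_lit 21) nil nil)) (node (nat_lit 0) (nat_lit 70270) (nat_lit 20) nil nil))) (node (nat_lit
  0) (nat_lit 74541) (nat_lit 19) nil nil)) (node (nat_lit 0) (nat_lit 88643) (nat_lit 18) nil
  nil))) (node (nat_lit 0) (nat_lit 91175) (nat_lit 17) nil nil)) (node (nat_lit 0) (nat_lit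
  91987) (nat_lit 16) (node (nat_lit 5) (nat_lit 91987) (nat_lit 17) nil nil) nil)) (node (nat_lit
  0) (nat_lit 96842) (nat_lit 15) (node (nat_lit 4) (nat_lit 96842) (nat_lit 16) nil (node
  (nat_lit 5) (nat_lit 96842) (nat_lit 16) nil (node (nat_lit 7) (nat_lit 96842) (nat_lit 16) nil
  nil))) nil))) (node (nat_lit 0) (nat_lit 96761) (nat_lit 14) (node (nat_lit 7) (nat_lit 96761)
  (nat_lit 15) (node (nat_lit 4) (nat_lit 96761) (nat_lit 16) nil (node (nat_lit 5) (nat_lit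
  96761) (nat_lit 16) nil nil)) (node (nat_lit 4) (nat_lit 96761) (nat_lit 15) (node (nat_lit 7)
  (nat_lit 96761) (nat_lit 16) nil (node (nat_lit 5) (nat_lit 96761) (nat_lit 16) nil nil)) (node
  (nat_lit 5) (nat_lit 96761) (nat_lit 15) (node (nat_lit 7) (nat_lit 96761) (nat_lit 16) nil
  (node (nat_lit 4) (nat_lit 96761) (nat_lit 16) nil nil)) nil))) nil)) (node (nat_lit 5) (nat_lit
  0) (nat_lit 13) (node (nat_lit 7) (nat_lit 0) (nat_lit 14) (node (nat_lit 4) (nat_lit 0)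
  (nat_lit 15) (node (nat_lit 7) (nat_lit 0) (nat_lit 16) (node (nat_lit 5) (nat_lit 0) (nat_lit
  17) (node (nat_lit 4) (nat_lit 0) (nat_lit 18) (node (nat_lit 5) (nat_lit 0) (nat_lit 19) (node
  (nat_lit 7) (nat_lit 0) (nat_lit 20) (node (nat_lit 5) (nat_lit 102817) (nat_lit 21) (node
  (nat_lit 4) (nat_lit 103580) (nat_lit 22) (node (nat_lit 7) (nat_lit 104256) (nat_lit 23) (node
  (nat_lit 4) (nat_lit 104778) (nat_lit 24) (node (nat_lit 5) (nat_lit 105156) (nat_lit 25) (node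
  (nat_lit 4) (nat_lit 105550) (nat_lit 26) (node (nat_lit 7) (nat_lit 105455) (nat_lit 27) (node
  (nat_lit 5) (nat_lit 105236) (nat_lit 28) (node (nat_lit 7) (nat_lit 104612) (nat_lit 29) (node
  (nat_lit 4) (nat_lit 103085) (nat_lit 30) (node (nat_lit 5) (nat_lit 101068) (nat_lit 31) (node
  (nat_lit 7) (nat_lit 98060) (nat_lit 32) (node (nat_lit 5) (nat_lit 97426) (nat_lit 33) (node
  (nat_lit 4) (nat_lit 94316) (nat_lit 34) (node (nat_lit 7) (nat_lit 74529) (nat_lit 35) (node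
  (nat_lit 5) (nat_lit 78871) (nat_lit 36) (node (nat_lit 7) (nat_lit 72458) (nat_lit 37) (node
  (nat_lit 4) (nat_lit 68116) (nat_lit 38) (node (nat_lit 7) (nat_lit 68365) (nat_lit 39) (node
  (nat_lit 5) (nat_lit 52239) (nat_lit 40) (node (nat_lit 4) (nat_lit 53985) (nat_lit 41) (node
  (nat_lit 5) (nat_lit 40187) (nat_lit 42) (node (nat_lit 7) (nat_lit 27127) (nat_lit 43) nil nil)
  nil) nil) nil) nil) nil) nil) nil) nil) nil) nil) nil) nil) nil) nil) nil) nil) nil) nil) nil)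
  nil) nil) (node (nat_lit 4) (nat_lit 102472) (nat_lit 21) (node (nat_lit 5) (nat_lit 0) (nat_lit
  22) (node (nat_lit 4) (nat_lit 103929) (nat_lit 23) (node (nat_lit 7) (nat_lit 102843) (nat_lit
  24) (node (nat_lit 5) (nat_lit 101011) (nat_lit 25) (node (nat_lit 7) (nat_lit 100737) (nat_lit
  26) (node (nat_lit 4) (nat_lit 100288) (nat_lit 27) (node (nat_lit 5) (nat_lit 95654) (nat_lit
  28) (node (nat_lit 7) (nat_lit 89695) (nat_lit 29) (node (nat_lit 5) (nat_lit 83341) (nat_lit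
  30) (node (nat_lit 4) (nat_lit 84340) (nat_lit 31) (node (nat_lit 7) (nat_lit 70692) (nat_lit
  32) (node (nat_lit 5) (nat_lit 68337) (nat_lit 33) (node (nat_lit 7) (nat_lit 58349) (nat_lit
  34) (node (nat_lit 4) (nat_lit 58376) (nat_lit 35) (node (nat_lit 7) (nat_lit 58397) (nat_lit
  36) (node (nat_lit 5) (nat_lit 32411) (nat_lit 37) (node (nat_lit 4) (nat_lit 8026) (nat_lit 38)
  nil nil) nil) nil) nil) nil) nil) nil) nil) nil) nil) nil) nil) nil) (node (nat_lit 4) (nat_lit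
  103420) (nat_lit 25) (node (nat_lit 5) (nat_lit 103803) (nat_lit 26) nil nil) nil)) nil) (node
  (nat_lit 0) (nat_lit 104416) (nat_lit 23) nil nil)) (node (nat_lit 7) (nat_lit 103579) (nat_lit
  22) (node (nat_lit 5) (nat_lit 103889) (nat_lit 23) (node (nat_lit 7) (nat_lit 104562) (nat_lit
  24) (node (nat_lit 4) (nat_lit 105089) (nat_lit 25) (node (nat_lit 5) (nat_lit 105346) (nat_lit
  26) (node (nat_lit 4) (nat_lit 105591) (nat_lit 27) (node (nat_lit 7) (nat_lit 105819) (nat_lit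
  28) (node (nat_lit 5) (nat_lit 105962) (nat_lit 29) nil nil) nil) nil) nil) nil) nil) nil) nil))
  (node (nat_lit 0) (nat_lit 106003) (nat_lit 21) nil nil))) (node (nat_lit 0) (nat_lit 105059)
  (nat_lit 20) nil nil)) (node (nat_lit 7) (nat_lit 0) (nat_lit 19) (node (nat_lit 4) (nat_lit
  99702) (nat_lit 20) (node (nat_lit 5) (nat_lit 100485) (nat_lit 21) (node (nat_lit 4) (nat_lit
  101000) (nat_lit 22) (node (nat_lit 7) (nat_lit 100871) (nat_lit 23) (node (nat_lit 5) (nat_lit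
  100021) (nat_lit 24) (node (nat_lit 7) (nat_lit 97462) (nat_lit 25) (node (nat_lit 4) (nat_lit
  94669) (nat_lit 26) (node (nat_lit 5) (nat_lit 87602) (nat_lit 27) (node (nat_lit 7) (nat_lit
  83415) (nat_lit 28) (node (nat_lit 5) (nat_lit 79758) (nat_lit 29) (node (nat_lit 4) (nat_lit
  76408) (nat_lit 30) (node (nat_lit 7) (nat_lit 66728) (nat_lit 31) (node (nat_lit 5) (nat_lit
  47705) (nat_lit 32) (node (nat_lit 7) (nat_lit 47747) (nat_lit 33) (node (nat_lit 4) (nat_lit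
  40425) (nat_lit 34) nil nil) nil) nil) nil) nil) nil) nil) nil) nil) nil) nil) nil) (node
  (nat_lit 7) (nat_lit 101305) (nat_lit 22) (node (nat_lit 5) (nat_lit 101719) (nat_lit 23) nil
  (node (nat_lit 4) (nat_lit 102041) (nat_lit 23) (node (nat_lit 7) (nat_lit 102321) (nat_lit 24)
  nil nil) nil)) nil)) nil) (node (nat_lit 0) (nat_lit 104596) (nat_lit 20) nil nil)) (node
  (nat_lit 0) (nat_lit 103585) (nat_lit 19) nil nil))) (node (nat_lit 0) (nat_lit 104933) (nat_lit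
  18) nil nil)) (node (nat_lit 0) (nat_lit 105077) (nat_lit 17) nil nil)) (node (nat_lit 5)
  (nat_lit 0) (nat_lit 16) (node (nat_lit 4) (nat_lit 0) (nat_lit 17) (node (nat_lit 7) (nat_lit
  0) (nat_lit 18) (node (nat_lit 5) (nat_lit 0) (nat_lit 19) (node (nat_lit 4) (nat_lit 101600)
  (nat_lit 20) (node (nat_lit 5) (nat_lit 103235) (nat_lit 21) (node (nat_lit 7) (nat_lit 104343)
  (nat_lit 22) (node (nat_lit 4) (nat_lit 105207) (nat_lit 23) (node (nat_lit 5) (nat_lit 105629)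
  (nat_lit 24) (node (nat_lit 4) (nat_lit 106032) (nat_lit 25) (node (nat_lit 7) (nat_lit 106252)
  (nat_lit 26) (node (nat_lit 5) (nat_lit 105242) (nat_lit 27) (node (nat_lit 7) (nat_lit 104092)
  (nat_lit 28) (node (nat_lit 4) (nat_lit 103179) (nat_lit 29) (node (nat_lit 5) (nat_lit 102253)
  (nat_lit 30) (node (nat_lit 7) (nat_lit 99534) (nat_lit 31) (node (nat_lit 5) (nat_lit 95682)
  (nat_lit 32) (node (nat_lit 4) (nat_lit 92200) (nat_lit 33) (node (nat_lit 7) (nat_lit 83065)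
  (nat_lit 34) (node (nat_lit 5) (nat_lit 79913) (nat_lit 35) (node (nat_lit 7) (nat_lit 79026)
  (nat_lit 36) (node (nat_lit 4) (nat_lit 63583) (nat_lit 37) (node (nat_lit 5) (nat_lit 57879)
  (nat_lit 38) (node (nat_lit 4) (nat_lit 57884) (nat_lit 39) (node (nat_lit 7) (nat_lit 57891)
  (nat_lit 40) (node (nat_lit 5) (nat_lit 34780) (nat_lit 41) (node (nat_lit 4) (nat_lit 10400)
  (nat_lit 42) nil nil) nil) nil) nil) nil) nil) nil) nil) nil) nil) nil) nil) nil) nil) nil) nil)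
  nil) nil) nil) (node (nat_lit 5) (nat_lit 104757) (nat_lit 23) nil nil)) nil) nil) (node
  (nat_lit 7) (nat_lit 101156) (nat_lit 20) nil (node (nat_lit 0) (nat_lit 105420) (nat_lit 20)
  nil nil))) (node (nat_lit 4) (nat_lit 0) (nat_lit 19) (node (nat_lit 5) (nat_lit 101106)
  (nat_lit 20) (node (nat_lit 7) (nat_lit 102368) (nat_lit 21) (node (nat_lit 5) (nat_lit 102898)
  (nat_lit 22) (node (nat_lit 4) (nat_lit 103050) (nat_lit 23) nil nil) (node (nat_lit 4) (nat_lit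
  103310) (nat_lit 22) nil nil)) nil) (node (nat_lit 0) (nat_lit 102100) (nat_lit 20) nil nil))
  (node (nat_lit 0) (nat_lit 104003) (nat_lit 19) nil nil))) (node (nat_lit 0) (nat_lit 106784)
  (nat_lit 18) nil nil)) (node (nat_lit 0) (nat_lit 106644) (nat_lit 17) nil nil)) (node (nat_lit
  0) (nat_lit 106722) (nat_lit 16) (node (nat_lit 4) (nat_lit 106722) (nat_lit 17) nil (node
  (nat_lit 7) (nat_lit 106722) (nat_lit 17) nil nil)) nil))) (node (nat_lit 0) (nat_lit 106628)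
  (nat_lit 15) (node (nat_lit 5) (nat_lit 106628) (nat_lit 16) (node (nat_lit 7) (nat_lit 106628)
  (nat_lit 17) (node (nat_lit 4) (nat_lit 106628) (nat_lit 18) nil (node (nat_lit 5) (nat_lit
  106628) (nat_lit 18) nil nil)) (node (nat_lit 4) (nat_lit 106628) (nat_lit 17) nil nil)) (node
  (nat_lit 7) (nat_lit 106628) (nat_lit 16) (node (nat_lit 5) (nat_lit 106628) (nat_lit 17) nil
  (node (nat_lit 4) (nat_lit 106628) (nat_lit 17) nil nil)) (node (nat_lit 4) (nat_lit 106628)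
  (nat_lit 16) (node (nat_lit 7) (nat_lit 106628) (nat_lit 17) nil (node (nat_lit 5) (nat_lit
  106628) (nat_lit 17) nil nil)) nil))) nil)) (node (nat_lit 0) (nat_lit 103217) (nat_lit 14)
  (node (nat_lit 5) (nat_lit 103217) (nat_lit 15) nil (node (nat_lit 4) (nat_lit 103217) (nat_lit
  15) (node (nat_lit 5) (nat_lit 103217) (nat_lit 16) (node (nat_lit 4) (nat_lit 103217) (nat_lit
  17) (node (nat_lit 7) (nat_lit 103217) (nat_lit 18) (node (nat_lit 5) (nat_lit 103217) (nat_lit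
  19) (node (nat_lit 7) (nat_lit 103217) (nat_lit 20) (node (nat_lit 4) (nat_lit 103217) (nat_lit
  21) (node (nat_lit 5) (nat_lit 103676) (nat_lit 22) nil nil) nil) nil) nil) nil) nil) nil) (node
  (nat_lit 7) (nat_lit 103217) (nat_lit 15) nil nil))) nil)) (node (nat_lit 0) (nat_lit 103564)
  (nat_lit 13) (node (nat_lit 7) (nat_lit 103564) (nat_lit 14) (node (nat_lit 4) (nat_lit 103564)
  (nat_lit 15) (node (nat_lit 5) (nat_lit 103564) (nat_lit 16) (node (nat_lit 4) (nat_lit 103564)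
  (nat_lit 17) (node (nat_lit 7) (nat_lit 103564) (nat_lit 18) (node (nat_lit 5) (nat_lit 103564)
  (nat_lit 19) (node (nat_lit 7) (nat_lit 103564) (nat_lit 20) (node (nat_lit 4) (nat_lit 104772)
  (nat_lit 21) (node (nat_lit 5) (nat_lit 105303) (nat_lit 22) (node (nat_lit 7) (nat_lit 106039)
  (nat_lit 23) (node (nat_lit 5) (nat_lit 106361) (nat_lit 24) nil nil) nil) nil) nil) nil) nil)
  nil) nil) (node (nat_lit 7) (nat_lit 103564) (nat_lit 16) nil nil)) (node (nat_lit 5) (nat_lit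
  103564) (nat_lit 15) (node (nat_lit 4) (nat_lit 103564) (nat_lit 16) nil (node (nat_lit 7)
  (nat_lit 103564) (nat_lit 16) nil nil)) nil)) (node (nat_lit 5) (nat_lit 103564) (nat_lit 14)
  (node (nat_lit 4) (nat_lit 103564) (nat_lit 15) (node (nat_lit 7) (nat_lit 103564) (nat_lit 16)
  nil nil) (node (nat_lit 7) (nat_lit 103564) (nat_lit 15) (node (nat_lit 4) (nat_lit 103564)
  (nat_lit 16) nil nil) nil)) (node (nat_lit 4) (nat_lit 103564) (nat_lit 14) (node (nat_lit 5)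
  (nat_lit 103564) (nat_lit 15) (node (nat_lit 4) (nat_lit 103564) (nat_lit 16) (node (nat_lit 7)
  (nat_lit 103564) (nat_lit 17) (node (nat_lit 5) (nat_lit 103564) (nat_lit 18) (node (nat_lit 7)
  (nat_lit 103564) (nat_lit 19) (node (nat_lit 4) (nat_lit 103564) (nat_lit 20) (node (nat_lit 5)
  (nat_lit 104152) (nat_lit 21) nil nil) nil) nil) nil) nil) nil) (node (nat_lit 7) (nat_lit
  103564) (nat_lit 15) (node (nat_lit 5) (nat_lit 103564) (nat_lit 16) nil (node (nat_lit 4)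
  (nat_lit 103564) (nat_lit 16) nil nil)) nil)) nil))) nil)))

noncomputable def t91 : Tr :=
  (node (nat_lit 4) (nat_lit 0) (nat_lit 11) (node (nat_lit 7) (nat_lit 0) (nat_lit 12) t90 (node
  (nat_lit 5) (nat_lit 0) (nat_lit 12) (node (nat_lit 7) (nat_lit 0) (nat_lit 13) (node (nat_lit
  4) (nat_lit 0) (nat_lit 14) (node (nat_lit 7) (nat_lit 0) (nat_lit 15) (node (nat_lit 5)
  (nat_lit 0) (nat_lit 16) (node (nat_lit 4) (nat_lit 0) (nat_lit 17) (node (nat_lit 7) (nat_lit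
  0) (nat_lit 18) (node (nat_lit 4) (nat_lit 0) (nat_lit 19) (node (nat_lit 5) (nat_lit 0)
  (nat_lit 20) (node (nat_lit 7) (nat_lit 98625) (nat_lit 21) (node (nat_lit 5) (nat_lit 99841)
  (nat_lit 22) (node (nat_lit 4) (nat_lit 100856) (nat_lit 23) (node (nat_lit 7) (nat_lit 100560)
  (nat_lit 24) (node (nat_lit 5) (nat_lit 100402) (nat_lit 25) nil (node (nat_lit 4) (nat_lit
  99754) (nat_lit 25) nil nil)) (node (nat_lit 5) (nat_lit 101053) (nat_lit 24) (node (nat_lit 7)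
  (nat_lit 100742) (nat_lit 25) nil nil) nil)) nil) (node (nat_lit 4) (nat_lit 99738) (nat_lit 22)
  (node (nat_lit 7) (nat_lit 100094) (nat_lit 23) (node (nat_lit 5) (nat_lit 99892) (nat_lit 24)
  nil nil) nil) nil)) (node (nat_lit 4) (nat_lit 0) (nat_lit 21) (node (nat_lit 7) (nat_lit 96883)
  (nat_lit 22) (node (nat_lit 5) (nat_lit 97961) (nat_lit 23) (node (nat_lit 7) (nat_lit 93773)
  (nat_lit 24) (node (nat_lit 4) (nat_lit 94018) (nat_lit 25) (node (nat_lit 5) (nat_lit 90963)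
  (nat_lit 26) (node (nat_lit 7) (nat_lit 81625) (nat_lit 27) (node (nat_lit 5) (nat_lit 73635)
  (nat_lit 28) (node (nat_lit 4) (nat_lit 68169) (nat_lit 29) (node (nat_lit 5) (nat_lit 50733)
  (nat_lit 30) (node (nat_lit 7) (nat_lit 43745) (nat_lit 31) (node (nat_lit 4) (nat_lit 43745)
  (nat_lit 32) nil nil) nil) nil) nil) nil) nil) nil) nil) (node (nat_lit 4) (nat_lit 98342)
  (nat_lit 24) (node (nat_lit 5) (nat_lit 98712) (nat_lit 25) (node (nat_lit 7) (nat_lit 98469)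
  (nat_lit 26) nil nil) nil) nil)) nil) (node (nat_lit 0) (nat_lit 98824) (nat_lit 22) nil nil))
  (node (nat_lit 0) (nat_lit 103303) (nat_lit 21) nil nil))) (node (nat_lit 0) (nat_lit 104170)
  (nat_lit 20) nil nil)) (node (nat_lit 0) (nat_lit 105354) (nat_lit 19) nil nil)) (node (nat_lit
  5) (nat_lit 0) (nat_lit 18) (node (nat_lit 7) (nat_lit 0) (nat_lit 19) (node (nat_lit 5)
  (nat_lit 0) (nat_lit 20) (node (nat_lit 4) (nat_lit 99174) (nat_lit 21) (node (nat_lit 7)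
  (nat_lit 100690) (nat_lit 22) (node (nat_lit 5) (nat_lit 100943) (nat_lit 23) (node (nat_lit 7)
  (nat_lit 101458) (nat_lit 24) (node (nat_lit 4) (nat_lit 100651) (nat_lit 25) nil nil) nil)
  (node (nat_lit 4) (nat_lit 101550) (nat_lit 23) (node (nat_lit 5) (nat_lit 102121) (nat_lit 24)
  (node (nat_lit 4) (nat_lit 102490) (nat_lit 25) (node (nat_lit 7) (nat_lit 102147) (nat_lit 26)
  (node (nat_lit 5) (nat_lit 101401) (nat_lit 27) (node (nat_lit 7) (nat_lit 100307) (nat_lit 28)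
  (node (nat_lit 4) (nat_lit 98622) (nat_lit 29) (node (nat_lit 5) (nat_lit 95429) (nat_lit 30)
  (node (nat_lit 7) (nat_lit 97125) (nat_lit 31) (node (nat_lit 5) (nat_lit 94107) (nat_lit 32)
  (node (nat_lit 4) (nat_lit 89127) (nat_lit 33) nil nil) nil) nil) nil) nil) nil) nil) nil) (node
  (nat_lit 7) (nat_lit 102570) (nat_lit 25) nil nil)) nil) nil)) nil) (node (nat_lit 0) (nat_lit
  99677) (nat_lit 21) nil nil)) (node (nat_lit 0) (nat_lit 103122) (nat_lit 20) nil nil)) (node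
  (nat_lit 0) (nat_lit 105422) (nat_lit 19) nil nil)) (node (nat_lit 0) (nat_lit 105999) (nat_lit
  18) nil nil))) (node (nat_lit 7) (nat_lit 0) (nat_lit 17) (node (nat_lit 4) (nat_lit 0) (nat_lit
  18) (node (nat_lit 5) (nat_lit 0) (nat_lit 19) (node (nat_lit 4) (nat_lit 0) (nat_lit 20) (node
  (nat_lit 7) (nat_lit 100357) (nat_lit 21) (node (nat_lit 4) (nat_lit 101570) (nat_lit 22) (node
  (nat_lit 5) (nat_lit 102376) (nat_lit 23) nil nil) (node (nat_lit 5) (nat_lit 101167) (nat_lit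
  22) (node (nat_lit 7) (nat_lit 102032) (nat_lit 23) (node (nat_lit 4) (nat_lit 102706) (nat_lit
  24) nil nil) (node (nat_lit 4) (nat_lit 101526) (nat_lit 23) nil nil)) nil)) (node (nat_lit 0)
  (nat_lit 100902) (nat_lit 21) nil nil)) (node (nat_lit 7) (nat_lit 99199) (nat_lit 20) (node
  (nat_lit 5) (nat_lit 101330) (nat_lit 21) (node (nat_lit 4) (nat_lit 102893) (nat_lit 22) (node
  (nat_lit 7) (nat_lit 103566) (nat_lit 23) (node (nat_lit 4) (nat_lit 104267) (nat_lit 24) (node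
  (nat_lit 5) (nat_lit 104683) (nat_lit 25) (node (nat_lit 4) (nat_lit 105048) (nat_lit 26) (node
  (nat_lit 7) (nat_lit 104368) (nat_lit 27) (node (nat_lit 5) (nat_lit 103874) (nat_lit 28) (node
  (nat_lit 7) (nat_lit 103759) (nat_lit 29) (node (nat_lit 4) (nat_lit 102397) (nat_lit 30) (node
  (nat_lit 5) (nat_lit 100188) (nat_lit 31) (node (nat_lit 7) (nat_lit 98840) (nat_lit 32) (node
  (nat_lit 5) (nat_lit 97194) (nat_lit 33) (node (nat_lit 4) (nat_lit 96117) (nat_lit 34) (node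
  (nat_lit 5) (nat_lit 91528) (nat_lit 35) (node (nat_lit 7) (nat_lit 82715) (nat_lit 36) (node
  (nat_lit 4) (nat_lit 73513) (nat_lit 37) (node (nat_lit 7) (nat_lit 64565) (nat_lit 38) (node
  (nat_lit 5) (nat_lit 59439) (nat_lit 39) (node (nat_lit 7) (nat_lit 49049) (nat_lit 40) (node
  (nat_lit 4) (nat_lit 50795) (nat_lit 41) (node (nat_lit 5) (nat_lit 43935) (nat_lit 42) nil nil)
  nil) nil) nil) nil) nil) nil) nil) nil) nil) nil) nil) nil) nil) nil) nil) nil) nil) (node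
  (nat_lit 5) (nat_lit 103364) (nat_lit 24) nil nil)) (node (nat_lit 5) (nat_lit 103833) (nat_lit
  23) nil nil)) nil) nil) (node (nat_lit 0) (nat_lit 99290) (nat_lit 20) nil nil))) (node (nat_lit
  0) (nat_lit 100632) (nat_lit 19) nil nil)) (node (nat_lit 0) (nat_lit 103270) (nat_lit 18) nil
  nil)) (node (nat_lit 0) (nat_lit 105614) (nat_lit 17) (node (nat_lit 7) (nat_lit 105614)
  (nat_lit 18) nil (node (nat_lit 5) (nat_lit 105614) (nat_lit 18) nil (node (nat_lit 4) (nat_lit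
  105614) (nat_lit 18) nil nil))) nil))) (node (nat_lit 0) (nat_lit 105557) (nat_lit 16) (node
  (nat_lit 4) (nat_lit 105557) (nat_lit 17) (node (nat_lit 7) (nat_lit 105557) (nat_lit 18) nil
  nil) (node (nat_lit 7) (nat_lit 105557) (nat_lit 17) nil nil)) nil)) (node (nat_lit 5) (nat_lit
  0) (nat_lit 15) (node (nat_lit 4) (nat_lit 0) (nat_lit 16) (node (nat_lit 7) (nat_lit 0)
  (nat_lit 17) (node (nat_lit 5) (nat_lit 0) (nat_lit 18) (node (nat_lit 4) (nat_lit 0) (nat_lit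
  19) (node (nat_lit 5) (nat_lit 0) (nat_lit 20) (node (nat_lit 7) (nat_lit 82023) (nat_lit 21)
  (node (nat_lit 5) (nat_lit 82690) (nat_lit 22) (node (nat_lit 4) (nat_lit 82989) (nat_lit 23)
  (node (nat_lit 7) (nat_lit 82590) (nat_lit 24) (node (nat_lit 4) (nat_lit 81784) (nat_lit 25)
  nil nil) nil) nil) (node (nat_lit 4) (nat_lit 82766) (nat_lit 22) (node (nat_lit 7) (nat_lit
  83122) (nat_lit 23) (node (nat_lit 5) (nat_lit 82920) (nat_lit 24) nil nil) (node (nat_lit 5)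
  (nat_lit 83156) (nat_lit 23) nil nil)) nil)) (node (nat_lit 0) (nat_lit 82727) (nat_lit 21) nil
  nil)) (node (nat_lit 0) (nat_lit 81752) (nat_lit 20) nil nil)) (node (nat_lit 7) (nat_lit 0)
  (nat_lit 19) (node (nat_lit 4) (nat_lit 80490) (nat_lit 20) (node (nat_lit 5) (nat_lit 55738)
  (nat_lit 21) (node (nat_lit 7) (nat_lit 56412) (nat_lit 22) (node (nat_lit 5) (nat_lit 56615)
  (nat_lit 23) (node (nat_lit 4) (nat_lit 56867) (nat_lit 24) nil nil) nil) (node (nat_lit 4)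
  (nat_lit 55622) (nat_lit 22) nil nil)) (node (nat_lit 7) (nat_lit 81751) (nat_lit 21) (node
  (nat_lit 5) (nat_lit 81492) (nat_lit 22) (node (nat_lit 4) (nat_lit 81233) (nat_lit 23) nil nil)
  nil) nil)) (node (nat_lit 0) (nat_lit 81352) (nat_lit 20) nil nil)) (node (nat_lit 0) (nat_lit
  85951) (nat_lit 19) nil nil))) (node (nat_lit 4) (nat_lit 0) (nat_lit 18) (node (nat_lit 5)
  (nat_lit 0) (nat_lit 19) (node (nat_lit 7) (nat_lit 90061) (nat_lit 20) (node (nat_lit 5)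
  (nat_lit 91623) (nat_lit 21) (node (nat_lit 4) (nat_lit 92387) (nat_lit 22) (node (nat_lit 7)
  (nat_lit 93060) (nat_lit 23) (node (nat_lit 4) (nat_lit 93761) (nat_lit 24) (node (nat_lit 5)
  (nat_lit 94190) (nat_lit 25) (node (nat_lit 4) (nat_lit 94545) (nat_lit 26) (node (nat_lit 7)
  (nat_lit 94106) (nat_lit 27) (node (nat_lit 5) (nat_lit 93320) (nat_lit 28) (node (nat_lit 7)
  (nat_lit 92386) (nat_lit 29) (node (nat_lit 4) (nat_lit 91891) (nat_lit 30) (node (nat_lit 5)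
  (nat_lit 89682) (nat_lit 31) (node (nat_lit 7) (nat_lit 88334) (nat_lit 32) (node (nat_lit 5)
  (nat_lit 86678) (nat_lit 33) (node (nat_lit 4) (nat_lit 84776) (nat_lit 34) (node (nat_lit 5)
  (nat_lit 79803) (nat_lit 35) (node (nat_lit 7) (nat_lit 75141) (nat_lit 36) (node (nat_lit 4)
  (nat_lit 63823) (nat_lit 37) (node (nat_lit 5) (nat_lit 62418) (nat_lit 38) (node (nat_lit 4)
  (nat_lit 59172) (nat_lit 39) (node (nat_lit 7) (nat_lit 52509) (nat_lit 40) nil nil) nil) nil)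
  nil) nil) nil) nil) nil) nil) nil) nil) nil) nil) nil) nil) nil) (node (nat_lit 5) (nat_lit
  92858) (nat_lit 24) nil nil)) nil) nil) (node (nat_lit 4) (nat_lit 91594) (nat_lit 21) (node
  (nat_lit 7) (nat_lit 92049) (nat_lit 22) (node (nat_lit 5) (nat_lit 92334) (nat_lit 23) nil nil)
  nil) nil)) (node (nat_lit 0) (nat_lit 90861) (nat_lit 20) nil nil)) (node (nat_lit 0) (nat_lit
  92438) (nat_lit 19) nil nil)) (node (nat_lit 0) (nat_lit 93559) (nat_lit 18) nil nil))) (node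
  (nat_lit 0) (nat_lit 99367) (nat_lit 17) nil nil)) (node (nat_lit 0) (nat_lit 100207) (nat_lit
  16) (node (nat_lit 5) (nat_lit 100207) (nat_lit 17) nil nil) nil)) (node (nat_lit 0) (nat_lit
  102818) (nat_lit 15) (node (nat_lit 4) (nat_lit 102818) (nat_lit 16) nil (node (nat_lit 7)
  (nat_lit 102818) (nat_lit 16) nil (node (nat_lit 5) (nat_lit 102818) (nat_lit 16) nil nil)))
  nil))) (node (nat_lit 0) (nat_lit 103497) (nat_lit 14) (node (nat_lit 5) (nat_lit 103497)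
  (nat_lit 15) nil (node (nat_lit 7) (nat_lit 103497) (nat_lit 15) nil (node (nat_lit 4) (nat_lit
  103497) (nat_lit 15) nil nil))) nil)) (node (nat_lit 0) (nat_lit 102966) (nat_lit 13) (node
  (nat_lit 7) (nat_lit 102966) (nat_lit 14) (node (nat_lit 4) (nat_lit 102966) (nat_lit 15) (node
  (nat_lit 5) (nat_lit 102966) (nat_lit 16) (node (nat_lit 4) (nat_lit 102966) (nat_lit 17) (node
  (nat_lit 7) (nat_lit 102966) (nat_lit 18) (node (nat_lit 5) (nat_lit 102966) (nat_lit 19) (node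
  (nat_lit 7) (nat_lit 102966) (nat_lit 20) (node (nat_lit 4) (nat_lit 104174) (nat_lit 21) nil
  nil) nil) nil) nil) nil) nil) nil) (node (nat_lit 5) (nat_lit 102966) (nat_lit 14) (node
  (nat_lit 4) (nat_lit 102966) (nat_lit 15) nil (node (nat_lit 7) (nat_lit 102966) (nat_lit 15)
  nil nil)) (node (nat_lit 4) (nat_lit 102966) (nat_lit 14) (node (nat_lit 5) (nat_lit 102966)
  (nat_lit 15) (node (nat_lit 4) (nat_lit 102966) (nat_lit 16) (node (nat_lit 7) (nat_lit 102966)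
  (nat_lit 17) (node (nat_lit 5) (nat_lit 102966) (nat_lit 18) (node (nat_lit 7) (nat_lit 102966)
  (nat_lit 19) (node (nat_lit 4) (nat_lit 102966) (nat_lit 20) (node (nat_lit 5) (nat_lit 103554)
  (nat_lit 21) (node (nat_lit 7) (nat_lit 104013) (nat_lit 22) nil nil) nil) nil) nil) nil) nil)
  nil) (node (nat_lit 7) (nat_lit 102966) (nat_lit 15) nil nil)) nil))) nil)) (node (nat_lit 0)
  (nat_lit 102410) (nat_lit 12) (node (nat_lit 5) (nat_lit 102410) (nat_lit 13) (node (nat_lit 4)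
  (nat_lit 102410) (nat_lit 14) (node (nat_lit 7) (nat_lit 102410) (nat_lit 15) (node (nat_lit 5)
  (nat_lit 102410) (nat_lit 16) nil nil) (node (nat_lit 5) (nat_lit 102410) (nat_lit 15) (node
  (nat_lit 7) (nat_lit 102410) (nat_lit 16) nil nil) nil)) (node (nat_lit 7) (nat_lit 102410)
  (nat_lit 14) (node (nat_lit 4) (nat_lit 102410) (nat_lit 15) nil (node (nat_lit 5) (nat_lit
  102410) (nat_lit 15) nil nil)) nil)) (node (nat_lit 4) (nat_lit 102410) (nat_lit 13) (node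
  (nat_lit 5) (nat_lit 102410) (nat_lit 14) (node (nat_lit 4) (nat_lit 102410) (nat_lit 15) (node
  (nat_lit 7) (nat_lit 102410) (nat_lit 16) (node (nat_lit 5) (nat_lit 102410) (nat_lit 17) (node
  (nat_lit 7) (nat_lit 102410) (nat_lit 18) (node (nat_lit 4) (nat_lit 102410) (nat_lit 19) (node
  (nat_lit 5) (nat_lit 103164) (nat_lit 20) (node (nat_lit 7) (nat_lit 103751) (nat_lit 21) (node
  (nat_lit 5) (nat_lit 104210) (nat_lit 22) (node (nat_lit 4) (nat_lit 103952) (nat_lit 23) nil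
  nil) nil) nil) nil) nil) nil) nil) nil) (node (nat_lit 7) (nat_lit 102410) (nat_lit 15) (node
  (nat_lit 4) (nat_lit 102410) (nat_lit 16) nil nil) nil)) (node (nat_lit 7) (nat_lit 102410)
  (nat_lit 14) (node (nat_lit 5) (nat_lit 102410) (nat_lit 15) (node (nat_lit 7) (nat_lit 102410)
  (nat_lit 16) nil (node (nat_lit 4) (nat_lit 102410) (nat_lit 16) nil nil)) (node (nat_lit 4)
  (nat_lit 102410) (nat_lit 15) nil nil)) nil)) (node (nat_lit 7) (nat_lit 102410) (nat_lit 13)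
  (node (nat_lit 5) (nat_lit 102410) (nat_lit 14) (node (nat_lit 4) (nat_lit 102410) (nat_lit 15)
  nil (node (nat_lit 7) (nat_lit 102410) (nat_lit 15) nil nil)) (node (nat_lit 4) (nat_lit 102410)
  (nat_lit 14) (node (nat_lit 7) (nat_lit 102410) (nat_lit 15) nil (node (nat_lit 5) (nat_lit
  102410) (nat_lit 15) nil nil)) nil)) nil))) nil))) (node (nat_lit 0) (nat_lit 100478) (nat_lit
  11) (node (nat_lit 5) (nat_lit 100478) (nat_lit 12) (node (nat_lit 7) (nat_lit 100478) (nat_lit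
  13) (node (nat_lit 4) (nat_lit 100478) (nat_lit 14) (node (nat_lit 5) (nat_lit 100478) (nat_lit
  15) (node (nat_lit 4) (nat_lit 100478) (nat_lit 16) (node (nat_lit 7) (nat_lit 100478) (nat_lit
  17) (node (nat_lit 5) (nat_lit 100478) (nat_lit 18) (node (nat_lit 7) (nat_lit 102808) (nat_lit
  19) (node (nat_lit 4) (nat_lit 104626) (nat_lit 20) (node (nat_lit 5) (nat_lit 105516) (nat_lit
  21) (node (nat_lit 7) (nat_lit 106623) (nat_lit 22) (node (nat_lit 5) (nat_lit 106932) (nat_lit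
  23) nil nil) nil) nil) nil) nil) nil) nil) (node (nat_lit 7) (nat_lit 100478) (nat_lit 16) nil
  nil)) (node (nat_lit 7) (nat_lit 100478) (nat_lit 15) (node (nat_lit 5) (nat_lit 100478)
  (nat_lit 16) nil nil) nil)) (node (nat_lit 5) (nat_lit 100478) (nat_lit 14) (node (nat_lit 4)
  (nat_lit 100478) (nat_lit 15) nil nil) (node (nat_lit 14) (nat_lit 105220) (nat_lit 14) nil
  nil))) (node (nat_lit 4) (nat_lit 100478) (nat_lit 13) (node (nat_lit 7) (nat_lit 100478)
  (nat_lit 14) (node (nat_lit 5) (nat_lit 100478) (nat_lit 15) (node (nat_lit 7) (nat_lit 100478)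
  (nat_lit 16) (node (nat_lit 4) (nat_lit 100478) (nat_lit 17) nil nil) (node (nat_lit 4) (nat_lit
  100478) (nat_lit 16) nil nil)) (node (nat_lit 4) (nat_lit 100478) (nat_lit 15) (node (nat_lit 5)
  (nat_lit 100478) (nat_lit 16) nil nil) nil)) (node (nat_lit 5) (nat_lit 100478) (nat_lit 14)
  (node (nat_lit 7) (nat_lit 100478) (nat_lit 15) nil nil) nil)) (node (nat_lit 0) (nat_lit
  102198) (nat_lit 13) nil nil))) (node (nat_lit 7) (nat_lit 100478) (nat_lit 12) (node (nat_lit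
  4) (nat_lit 100478) (nat_lit 13) (node (nat_lit 5) (nat_lit 100478) (nat_lit 14) (node (nat_lit
  4) (nat_lit 100478) (nat_lit 15) (node (nat_lit 7) (nat_lit 100478) (nat_lit 16) (node (nat_lit
  5) (nat_lit 100478) (nat_lit 17) (node (nat_lit 7) (nat_lit 100478) (nat_lit 18) (node (nat_lit
  4) (nat_lit 102463) (nat_lit 19) (node (nat_lit 5) (nat_lit 103335) (nat_lit 20) (node (nat_lit
  7) (nat_lit 104544) (nat_lit 21) (node (nat_lit 5) (nat_lit 105073) (nat_lit 22) nil nil) nil)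
  nil) nil) nil) nil) nil) (node (nat_lit 7) (nat_lit 100478) (nat_lit 15) nil nil)) (node
  (nat_lit 7) (nat_lit 100478) (nat_lit 14) (node (nat_lit 5) (nat_lit 100478) (nat_lit 15) (node
  (nat_lit 7) (nat_lit 100478) (nat_lit 16) nil (node (nat_lit 4) (nat_lit 100478) (nat_lit 16)
  nil nil)) nil) nil)) (node (nat_lit 5) (nat_lit 100478) (nat_lit 13) (node (nat_lit 4) (nat_lit
  100478) (nat_lit 14) (node (nat_lit 7) (nat_lit 100478) (nat_lit 15) nil nil) (node (nat_lit 7)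
  (nat_lit 100478) (nat_lit 14) (node (nat_lit 4) (nat_lit 100478) (nat_lit 15) (node (nat_lit 5)
  (nat_lit 100478) (nat_lit 16) nil (node (nat_lit 7) (nat_lit 100478) (nat_lit 16) nil nil)) nil)
  nil)) (node (nat_lit 14) (nat_lit 104012) (nat_lit 13) nil nil))) (node (nat_lit 4) (nat_lit
  100478) (nat_lit 12) (node (nat_lit 5) (nat_lit 100478) (nat_lit 13) (node (nat_lit 4) (nat_lit
  100478) (nat_lit 14) (node (nat_lit 7) (nat_lit 100478) (nat_lit 15) (node (nat_lit 5) (nat_lit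
  100478) (nat_lit 16) (node (nat_lit 7) (nat_lit 100478) (nat_lit 17) (node (nat_lit 4) (nat_lit
  100478) (nat_lit 18) (node (nat_lit 5) (nat_lit 101444) (nat_lit 19) (node (nat_lit 7) (nat_lit
  102198) (nat_lit 20) (node (nat_lit 5) (nat_lit 102785) (nat_lit 21) nil nil) nil) nil) nil)
  nil) (node (nat_lit 4) (nat_lit 100478) (nat_lit 16) nil nil)) nil) (node (nat_lit 7) (nat_lit
  100478) (nat_lit 14) nil nil)) (node (nat_lit 7) (nat_lit 100478) (nat_lit 13) (node (nat_lit 4)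
  (nat_lit 100478) (nat_lit 14) (node (nat_lit 5) (nat_lit 100478) (nat_lit 15) nil nil) (node
  (nat_lit 5) (nat_lit 100478) (nat_lit 14) (node (nat_lit 4) (nat_lit 100478) (nat_lit 15) nil
  nil) nil)) (node (nat_lit 14) (nat_lit 102198) (nat_lit 13) nil nil))) (node (nat_lit 0)
  (nat_lit 103165) (nat_lit 12) nil nil)))) nil))

noncomputable def t92 : Tr :=
  (node (nat_lit 4) (nat_lit 0) (nat_lit 13) (node (nat_lit 5) (nat_lit 0) (nat_lit 14) (node
  (nat_lit 4) (nat_lit 0) (nat_lit 15) (node (nat_lit 7) (nat_lit 0) (nat_lit 16) (node (nat_lit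
  4) (nat_lit 0) (nat_lit 17) (node (nat_lit 5) (nat_lit 0) (nat_lit 18) (node (nat_lit 7)
  (nat_lit 0) (nat_lit 19) (node (nat_lit 5) (nat_lit 0) (nat_lit 20) (node (nat_lit 4) (nat_lit
  0) (nat_lit 21) (node (nat_lit 7) (nat_lit 115499) (nat_lit 22) (node (nat_lit 4) (nat_lit
  115755) (nat_lit 23) (node (nat_lit 5) (nat_lit 115849) (nat_lit 24) (node (nat_lit 4) (nat_lit
  116043) (nat_lit 25) (node (nat_lit 7) (nat_lit 115766) (nat_lit 26) (node (nat_lit 5) (nat_lit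
  115755) (nat_lit 27) (node (nat_lit 7) (nat_lit 115154) (nat_lit 28) (node (nat_lit 4) (nat_lit
  114346) (nat_lit 29) (node (nat_lit 7) (nat_lit 113449) (nat_lit 30) (node (nat_lit 5) (nat_lit
  111192) (nat_lit 31) (node (nat_lit 4) (nat_lit 107460) (nat_lit 32) (node (nat_lit 5) (nat_lit
  102813) (nat_lit 33) (node (nat_lit 7) (nat_lit 96652) (nat_lit 34) (node (nat_lit 4) (nat_lit
  85343) (nat_lit 35) (node (nat_lit 5) (nat_lit 90709) (nat_lit 36) (node (nat_lit 4) (nat_lit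
  84736) (nat_lit 37) (node (nat_lit 7) (nat_lit 78071) (nat_lit 38) nil nil) nil) nil) nil) nil)
  nil) nil) nil) nil) nil) nil) nil) nil) nil) nil) (node (nat_lit 5) (nat_lit 0) (nat_lit 23)
  (node (nat_lit 7) (nat_lit 116334) (nat_lit 24) (node (nat_lit 4) (nat_lit 116497) (nat_lit 25)
  (node (nat_lit 5) (nat_lit 116548) (nat_lit 26) (node (nat_lit 4) (nat_lit 116641) (nat_lit 27)
  (node (nat_lit 7) (nat_lit 116419) (nat_lit 28) nil nil) nil) nil) nil) (node (nat_lit 0)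
  (nat_lit 117059) (nat_lit 24) nil nil)) nil)) (node (nat_lit 5) (nat_lit 115425) (nat_lit 22)
  (node (nat_lit 7) (nat_lit 115903) (nat_lit 23) (node (nat_lit 4) (nat_lit 116103) (nat_lit 24)
  (node (nat_lit 5) (nat_lit 116169) (nat_lit 25) (node (nat_lit 4) (nat_lit 116296) (nat_lit 26)
  (node (nat_lit 7) (nat_lit 116050) (nat_lit 27) (node (nat_lit 5) (nat_lit 116124) (nat_lit 28)
  (node (nat_lit 7) (nat_lit 115762) (nat_lit 29) (node (nat_lit 4) (nat_lit 115026) (nat_lit 30)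
  (node (nat_lit 7) (nat_lit 114592) (nat_lit 31) (node (nat_lit 5) (nat_lit 111411) (nat_lit 32)
  (node (nat_lit 4) (nat_lit 108799) (nat_lit 33) (node (nat_lit 5) (nat_lit 107724) (nat_lit 34)
  (node (nat_lit 7) (nat_lit 102752) (nat_lit 35) (node (nat_lit 4) (nat_lit 94902) (nat_lit 36)
  (node (nat_lit 5) (nat_lit 89864) (nat_lit 37) (node (nat_lit 4) (nat_lit 83881) (nat_lit 38)
  (node (nat_lit 7) (nat_lit 80017) (nat_lit 39) (node (nat_lit 4) (nat_lit 80623) (nat_lit 40)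
  (node (nat_lit 5) (nat_lit 62498) (nat_lit 41) nil nil) nil) nil) nil) nil) nil) nil) nil) nil)
  nil) nil) nil) nil) nil) nil) nil) nil) nil) nil) (node (nat_lit 0) (nat_lit 116899) (nat_lit
  22) nil nil))) (node (nat_lit 0) (nat_lit 117985) (nat_lit 21) nil nil)) (node (nat_lit 4)
  (nat_lit 0) (nat_lit 20) (node (nat_lit 7) (nat_lit 115465) (nat_lit 21) (node (nat_lit 5)
  (nat_lit 115884) (nat_lit 22) (node (nat_lit 7) (nat_lit 116361) (nat_lit 23) (node (nat_lit 4)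
  (nat_lit 116562) (nat_lit 24) (node (nat_lit 5) (nat_lit 116627) (nat_lit 25) (node (nat_lit 4)
  (nat_lit 116755) (nat_lit 26) (node (nat_lit 7) (nat_lit 116508) (nat_lit 27) (node (nat_lit 5)
  (nat_lit 116583) (nat_lit 28) (node (nat_lit 7) (nat_lit 116220) (nat_lit 29) (node (nat_lit 4)
  (nat_lit 115531) (nat_lit 30) (node (nat_lit 7) (nat_lit 115062) (nat_lit 31) (node (nat_lit 5)
  (nat_lit 112710) (nat_lit 32) (node (nat_lit 4) (nat_lit 109095) (nat_lit 33) (node (nat_lit 5)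
  (nat_lit 105187) (nat_lit 34) (node (nat_lit 7) (nat_lit 103211) (nat_lit 35) (node (nat_lit 4)
  (nat_lit 95361) (nat_lit 36) (node (nat_lit 5) (nat_lit 90322) (nat_lit 37) (node (nat_lit 4)
  (nat_lit 84303) (nat_lit 38) (node (nat_lit 7) (nat_lit 84820) (nat_lit 39) (node (nat_lit 4)
  (nat_lit 78172) (nat_lit 40) (node (nat_lit 5) (nat_lit 78942) (nat_lit 41) (node (nat_lit 7)
  (nat_lit 55722) (nat_lit 42) nil nil) nil) nil) nil) nil) nil) nil) nil) nil) nil) nil) nil)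
  nil) nil) nil) nil) nil) nil) nil) (node (nat_lit 4) (nat_lit 116156) (nat_lit 23) (node
  (nat_lit 7) (nat_lit 116529) (nat_lit 24) nil (node (nat_lit 5) (nat_lit 115954) (nat_lit 24)
  nil nil)) nil)) nil) (node (nat_lit 0) (nat_lit 115760) (nat_lit 21) nil nil)) (node (nat_lit 0)
  (nat_lit 116522) (nat_lit 20) nil nil))) (node (nat_lit 0) (nat_lit 117511) (nat_lit 19) nil
  nil)) (node (nat_lit 0) (nat_lit 116773) (nat_lit 18) nil nil)) (node (nat_lit 5) (nat_lit 0)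
  (nat_lit 17) (node (nat_lit 4) (nat_lit 0) (nat_lit 18) (node (nat_lit 5) (nat_lit 0) (nat_lit
  19) (node (nat_lit 7) (nat_lit 0) (nat_lit 20) (node (nat_lit 5) (nat_lit 113491) (nat_lit 21)
  (node (nat_lit 4) (nat_lit 113839) (nat_lit 22) (node (nat_lit 7) (nat_lit 114158) (nat_lit 23)
  (node (nat_lit 4) (nat_lit 114358) (nat_lit 24) (node (nat_lit 5) (nat_lit 114424) (nat_lit 25)
  (node (nat_lit 4) (nat_lit 114552) (nat_lit 26) (node (nat_lit 7) (nat_lit 114304) (nat_lit 27)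
  (node (nat_lit 5) (nat_lit 114379) (nat_lit 28) (node (nat_lit 7) (nat_lit 114017) (nat_lit 29)
  (node (nat_lit 4) (nat_lit 113328) (nat_lit 30) (node (nat_lit 7) (nat_lit 112858) (nat_lit 31)
  (node (nat_lit 5) (nat_lit 111416) (nat_lit 32) (node (nat_lit 4) (nat_lit 109382) (nat_lit 33)
  (node (nat_lit 5) (nat_lit 106549) (nat_lit 34) (node (nat_lit 7) (nat_lit 101007) (nat_lit 35)
  (node (nat_lit 4) (nat_lit 93820) (nat_lit 36) (node (nat_lit 5) (nat_lit 83047) (nat_lit 37)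
  (node (nat_lit 4) (nat_lit 80558) (nat_lit 38) (node (nat_lit 7) (nat_lit 83426) (nat_lit 39)
  nil nil) nil) nil) nil) nil) nil) nil) nil) nil) nil) nil) nil) nil) nil) nil) nil) nil) nil)
  (node (nat_lit 4) (nat_lit 113330) (nat_lit 21) (node (nat_lit 7) (nat_lit 113787) (nat_lit 22)
  nil nil) (node (nat_lit 0) (nat_lit 115179) (nat_lit 21) nil nil))) (node (nat_lit 0) (nat_lit
  116055) (nat_lit 20) nil nil)) (node (nat_lit 0) (nat_lit 113934) (nat_lit 19) nil nil)) (node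
  (nat_lit 7) (nat_lit 0) (nat_lit 18) (node (nat_lit 4) (nat_lit 0) (nat_lit 19) (node (nat_lit
  5) (nat_lit 0) (nat_lit 20) (node (nat_lit 7) (nat_lit 80615) (nat_lit 21) (node (nat_lit 5)
  (nat_lit 81447) (nat_lit 22) (node (nat_lit 4) (nat_lit 81186) (nat_lit 23) (node (nat_lit 7)
  (nat_lit 80788) (nat_lit 24) nil (node (nat_lit 5) (nat_lit 80984) (nat_lit 24) nil nil)) nil)
  nil) (node (nat_lit 4) (nat_lit 79672) (nat_lit 21) nil (node (nat_lit 0) (nat_lit 83882)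
  (nat_lit 21) nil nil))) (node (nat_lit 7) (nat_lit 0) (nat_lit 20) (node (nat_lit 5) (nat_lit
  58813) (nat_lit 21) (node (nat_lit 4) (nat_lit 55771) (nat_lit 22) (node (nat_lit 7) (nat_lit
  56578) (nat_lit 23) (node (nat_lit 4) (nat_lit 57002) (nat_lit 24) (node (nat_lit 5) (nat_lit
  57360) (nat_lit 25) (node (nat_lit 4) (nat_lit 57623) (nat_lit 26) (node (nat_lit 7) (nat_lit
  57515) (nat_lit 27) (node (nat_lit 5) (nat_lit 57394) (nat_lit 28) (node (nat_lit 7) (nat_lit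
  56727) (nat_lit 29) (node (nat_lit 4) (nat_lit 55473) (nat_lit 30) (node (nat_lit 7) (nat_lit
  53843) (nat_lit 31) (node (nat_lit 5) (nat_lit 51258) (nat_lit 32) nil nil) nil) nil) nil) nil)
  nil) nil) nil) nil) nil) nil) (node (nat_lit 0) (nat_lit 60642) (nat_lit 21) nil nil)) (node
  (nat_lit 0) (nat_lit 82814) (nat_lit 20) nil nil))) (node (nat_lit 0) (nat_lit 99298) (nat_lit
  19) nil nil)) (node (nat_lit 0) (nat_lit 115648) (nat_lit 18) nil nil))) (node (nat_lit 0)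
  (nat_lit 117713) (nat_lit 17) (node (nat_lit 7) (nat_lit 117713) (nat_lit 18) nil (node (nat_lit
  4) (nat_lit 117713) (nat_lit 18) nil nil)) nil))) (node (nat_lit 0) (nat_lit 122249) (nat_lit
  16) (node (nat_lit 5) (nat_lit 122249) (nat_lit 17) (node (nat_lit 4) (nat_lit 122249) (nat_lit
  18) nil nil) (node (nat_lit 4) (nat_lit 122249) (nat_lit 17) nil (node (nat_lit 7) (nat_lit
  122249) (nat_lit 17) nil nil))) nil)) (node (nat_lit 0) (nat_lit 121673) (nat_lit 15) (node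
  (nat_lit 4) (nat_lit 121673) (nat_lit 16) (node (nat_lit 5) (nat_lit 121673) (nat_lit 17) nil
  (node (nat_lit 7) (nat_lit 121673) (nat_lit 17) nil nil)) (node (nat_lit 5) (nat_lit 121673)
  (nat_lit 16) (node (nat_lit 7) (nat_lit 121673) (nat_lit 17) nil (node (nat_lit 4) (nat_lit
  121673) (nat_lit 17) nil nil)) (node (nat_lit 7) (nat_lit 121673) (nat_lit 16) (node (nat_lit 4)
  (nat_lit 121673) (nat_lit 17) nil (node (nat_lit 5) (nat_lit 121673) (nat_lit 17) nil nil))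
  nil))) nil)) (node (nat_lit 7) (nat_lit 0) (nat_lit 14) (node (nat_lit 5) (nat_lit 0) (nat_lit
  15) (node (nat_lit 7) (nat_lit 0) (nat_lit 16) (node (nat_lit 4) (nat_lit 0) (nat_lit 17) (node
  (nat_lit 5) (nat_lit 0) (nat_lit 18) (node (nat_lit 7) (nat_lit 0) (nat_lit 19) (node (nat_lit
  5) (nat_lit 0) (nat_lit 20) (node (nat_lit 4) (nat_lit 122231) (nat_lit 21) (node (nat_lit 7)
  (nat_lit 123358) (nat_lit 22) (node (nat_lit 4) (nat_lit 124356) (nat_lit 23) (node (nat_lit 5)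
  (nat_lit 124741) (nat_lit 24) (node (nat_lit 4) (nat_lit 125045) (nat_lit 25) (node (nat_lit 7)
  (nat_lit 124359) (nat_lit 26) (node (nat_lit 5) (nat_lit 123674) (nat_lit 27) (node (nat_lit 7)
  (nat_lit 121873) (nat_lit 28) (node (nat_lit 4) (nat_lit 121549) (nat_lit 29) (node (nat_lit 7)
  (nat_lit 121952) (nat_lit 30) (node (nat_lit 5) (nat_lit 119910) (nat_lit 31) (node (nat_lit 4)
  (nat_lit 117385) (nat_lit 32) (node (nat_lit 5) (nat_lit 112610) (nat_lit 33) (node (nat_lit 7)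
  (nat_lit 103811) (nat_lit 34) (node (nat_lit 4) (nat_lit 98533) (nat_lit 35) (node (nat_lit 7)
  (nat_lit 91089) (nat_lit 36) (node (nat_lit 5) (nat_lit 91115) (nat_lit 37) (node (nat_lit 7)
  (nat_lit 86120) (nat_lit 38) nil nil) nil) nil) nil) nil) nil) nil) nil) nil) nil) nil) nil)
  nil) nil) nil) (node (nat_lit 5) (nat_lit 123611) (nat_lit 23) (node (nat_lit 7) (nat_lit
  123213) (nat_lit 24) nil nil) nil)) (node (nat_lit 5) (nat_lit 122850) (nat_lit 22) (node
  (nat_lit 7) (nat_lit 123738) (nat_lit 23) (node (nat_lit 4) (nat_lit 123893) (nat_lit 24) (node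
  (nat_lit 5) (nat_lit 123938) (nat_lit 25) (node (nat_lit 4) (nat_lit 124044) (nat_lit 26) (node
  (nat_lit 7) (nat_lit 123426) (nat_lit 27) (node (nat_lit 5) (nat_lit 123332) (nat_lit 28) (node
  (nat_lit 7) (nat_lit 121996) (nat_lit 29) (node (nat_lit 4) (nat_lit 120835) (nat_lit 30) (node
  (nat_lit 7) (nat_lit 120386) (nat_lit 31) (node (nat_lit 5) (nat_lit 117178) (nat_lit 32) (node
  (nat_lit 4) (nat_lit 114720) (nat_lit 33) (node (nat_lit 5) (nat_lit 113590) (nat_lit 34) (node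
  (nat_lit 7) (nat_lit 107095) (nat_lit 35) (node (nat_lit 4) (nat_lit 111415) (nat_lit 36) (node
  (nat_lit 7) (nat_lit 100546) (nat_lit 37) (node (nat_lit 5) (nat_lit 92511) (nat_lit 38) (node
  (nat_lit 7) (nat_lit 89314) (nat_lit 39) (node (nat_lit 4) (nat_lit 93004) (nat_lit 40) (node
  (nat_lit 5) (nat_lit 78273) (nat_lit 41) (node (nat_lit 7) (nat_lit 78798) (nat_lit 42) (node
  (nat_lit 5) (nat_lit 54806) (nat_lit 43) (node (nat_lit 4) (nat_lit 30418) (nat_lit 44) nil nil)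
  nil) nil) nil) nil) nil) nil) nil) nil) nil) nil) nil) nil) nil) nil) nil) nil) nil) nil) nil)
  nil) nil) nil)) (node (nat_lit 0) (nat_lit 122484) (nat_lit 21) nil nil)) (node (nat_lit 0)
  (nat_lit 122875) (nat_lit 20) nil nil)) (node (nat_lit 4) (nat_lit 0) (nat_lit 19) (node
  (nat_lit 7) (nat_lit 0) (nat_lit 20) (node (nat_lit 5) (nat_lit 0) (nat_lit 21) (node (nat_lit
  4) (nat_lit 117155) (nat_lit 22) (node (nat_lit 5) (nat_lit 117274) (nat_lit 23) (node (nat_lit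
  7) (nat_lit 116876) (nat_lit 24) nil nil) nil) (node (nat_lit 7) (nat_lit 0) (nat_lit 22) (node
  (nat_lit 4) (nat_lit 99227) (nat_lit 23) (node (nat_lit 7) (nat_lit 98878) (nat_lit 24) (node
  (nat_lit 5) (nat_lit 99066) (nat_lit 25) (node (nat_lit 4) (nat_lit 99341) (nat_lit 26) (node
  (nat_lit 5) (nat_lit 99613) (nat_lit 27) (node (nat_lit 7) (nat_lit 99841) (nat_lit 28) (node
  (nat_lit 4) (nat_lit 57837) (nat_lit 29) (node (nat_lit 7) (nat_lit 4161) (nat_lit 30) nil nil)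
  nil) nil) nil) nil) nil) nil) (node (nat_lit 0) (nat_lit 99846) (nat_lit 23) nil nil)) (node
  (nat_lit 0) (nat_lit 117656) (nat_lit 22) nil nil))) (node (nat_lit 4) (nat_lit 121703) (nat_lit
  21) (node (nat_lit 5) (nat_lit 123030) (nat_lit 22) (node (nat_lit 7) (nat_lit 123766) (nat_lit
  23) nil nil) nil) (node (nat_lit 0) (nat_lit 121947) (nat_lit 21) nil nil))) (node (nat_lit 0)
  (nat_lit 122708) (nat_lit 20) nil nil)) (node (nat_lit 0) (nat_lit 122566) (nat_lit 19) nil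
  nil))) (node (nat_lit 0) (nat_lit 122373) (nat_lit 18) nil nil)) (node (nat_lit 0) (nat_lit
  123852) (nat_lit 17) nil nil)) (node (nat_lit 0) (nat_lit 125859) (nat_lit 16) (node (nat_lit 7)
  (nat_lit 125859) (nat_lit 17) nil (node (nat_lit 5) (nat_lit 125859) (nat_lit 17) nil (node
  (nat_lit 4) (nat_lit 125859) (nat_lit 17) nil nil))) nil)) (node (nat_lit 0) (nat_lit 125863)
  (nat_lit 15) (node (nat_lit 4) (nat_lit 125863) (nat_lit 16) (node (nat_lit 7) (nat_lit 125863)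
  (nat_lit 17) nil nil) (node (nat_lit 7) (nat_lit 125863) (nat_lit 16) nil (node (nat_lit 5)
  (nat_lit 125863) (nat_lit 16) nil nil))) nil)) (node (nat_lit 0) (nat_lit 126769) (nat_lit 14)
  (node (nat_lit 7) (nat_lit 126769) (nat_lit 15) (node (nat_lit 5) (nat_lit 126769) (nat_lit 16)
  nil (node (nat_lit 4) (nat_lit 126769) (nat_lit 16) nil nil)) (node (nat_lit 5) (nat_lit 126769)
  (nat_lit 15) (node (nat_lit 4) (nat_lit 126769) (nat_lit 16) nil (node (nat_lit 7) (nat_lit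
  126769) (nat_lit 16) nil nil)) (node (nat_lit 4) (nat_lit 126769) (nat_lit 15) (node (nat_lit 7)
  (nat_lit 126769) (nat_lit 16) nil (node (nat_lit 5) (nat_lit 126769) (nat_lit 16) nil nil))
  nil))) nil))) (node (nat_lit 5) (nat_lit 0) (nat_lit 13) (node (nat_lit 4) (nat_lit 0) (nat_lit
  14) (node (nat_lit 7) (nat_lit 0) (nat_lit 15) (node (nat_lit 4) (nat_lit 0) (nat_lit 16) (node
  (nat_lit 5) (nat_lit 0) (nat_lit 17) (node (nat_lit 7) (nat_lit 0) (nat_lit 18) (node (nat_lit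
  4) (nat_lit 0) (nat_lit 19) (node (nat_lit 7) (nat_lit 0) (nat_lit 20) (node (nat_lit 5)
  (nat_lit 0) (nat_lit 21) (node (nat_lit 4) (nat_lit 125250) (nat_lit 22) (node (nat_lit 7)
  (nat_lit 126268) (nat_lit 23) (node (nat_lit 4) (nat_lit 126857) (nat_lit 24) (node (nat_lit 5)
  (nat_lit 127343) (nat_lit 25) (node (nat_lit 4) (nat_lit 127705) (nat_lit 26) (node (nat_lit 7)
  (nat_lit 127533) (nat_lit 27) (node (nat_lit 5) (nat_lit 127435) (nat_lit 28) (node (nat_lit 7)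
  (nat_lit 126797) (nat_lit 29) (node (nat_lit 4) (nat_lit 125804) (nat_lit 30) (node (nat_lit 7)
  (nat_lit 123827) (nat_lit 31) (node (nat_lit 5) (nat_lit 121005) (nat_lit 32) (node (nat_lit 4)
  (nat_lit 119176) (nat_lit 33) (node (nat_lit 5) (nat_lit 117504) (nat_lit 34) (node (nat_lit 7)
  (nat_lit 112227) (nat_lit 35) (node (nat_lit 5) (nat_lit 112268) (nat_lit 36) (node (nat_lit 4)
  (nat_lit 102780) (nat_lit 37) (node (nat_lit 7) (nat_lit 103011) (nat_lit 38) (node (nat_lit 4)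
  (nat_lit 98023) (nat_lit 39) (node (nat_lit 5) (nat_lit 98625) (nat_lit 40) (node (nat_lit 7)
  (nat_lit 72901) (nat_lit 41) (node (nat_lit 4) (nat_lit 72906) (nat_lit 42) (node (nat_lit 7)
  (nat_lit 60462) (nat_lit 43) (node (nat_lit 5) (nat_lit 61351) (nat_lit 44) nil nil) nil) nil)
  nil) nil) nil) nil) nil) nil) nil) nil) nil) nil) nil) nil) nil) nil) nil) nil) nil) nil) (node
  (nat_lit 5) (nat_lit 126158) (nat_lit 23) (node (nat_lit 7) (nat_lit 126852) (nat_lit 24) (node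
  (nat_lit 4) (nat_lit 126045) (nat_lit 25) nil nil) nil) nil)) (node (nat_lit 7) (nat_lit 124767)
  (nat_lit 22) (node (nat_lit 4) (nat_lit 125168) (nat_lit 23) (node (nat_lit 5) (nat_lit 125319)
  (nat_lit 24) (node (nat_lit 4) (nat_lit 125647) (nat_lit 25) (node (nat_lit 7) (nat_lit 124973)
  (nat_lit 26) (node (nat_lit 5) (nat_lit 124919) (nat_lit 27) (node (nat_lit 7) (nat_lit 123248)
  (nat_lit 28) (node (nat_lit 4) (nat_lit 121958) (nat_lit 29) (node (nat_lit 7) (nat_lit 121406)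
  (nat_lit 30) (node (nat_lit 5) (nat_lit 117465) (nat_lit 31) (node (nat_lit 4) (nat_lit 116349)
  (nat_lit 32) (node (nat_lit 5) (nat_lit 112767) (nat_lit 33) (node (nat_lit 7) (nat_lit 110375)
  (nat_lit 34) (node (nat_lit 5) (nat_lit 108140) (nat_lit 35) (node (nat_lit 4) (nat_lit 103192)
  (nat_lit 36) (node (nat_lit 7) (nat_lit 100523) (nat_lit 37) (node (nat_lit 4) (nat_lit 97223)
  (nat_lit 38) (node (nat_lit 5) (nat_lit 97843) (nat_lit 39) (node (nat_lit 7) (nat_lit 69893)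
  (nat_lit 40) (node (nat_lit 4) (nat_lit 70597) (nat_lit 41) nil nil) nil) nil) nil) nil) nil)
  nil) nil) nil) nil) nil) nil) nil) nil) nil) nil) (node (nat_lit 7) (nat_lit 125537) (nat_lit
  25) nil nil)) nil) nil) (node (nat_lit 0) (nat_lit 125637) (nat_lit 22) nil nil))) (node
  (nat_lit 0) (nat_lit 129796) (nat_lit 21) nil nil)) (node (nat_lit 0) (nat_lit 130575) (nat_lit
  20) nil nil)) (node (nat_lit 5) (nat_lit 0) (nat_lit 19) (node (nat_lit 4) (nat_lit 0) (nat_lit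
  20) (node (nat_lit 5) (nat_lit 123787) (nat_lit 21) (node (nat_lit 7) (nat_lit 124848) (nat_lit
  22) (node (nat_lit 4) (nat_lit 125314) (nat_lit 23) (node (nat_lit 5) (nat_lit 125686) (nat_lit
  24) (node (nat_lit 4) (nat_lit 125935) (nat_lit 25) (node (nat_lit 7) (nat_lit 125782) (nat_lit
  26) (node (nat_lit 5) (nat_lit 125776) (nat_lit 27) (node (nat_lit 7) (nat_lit 124858) (nat_lit
  28) (node (nat_lit 4) (nat_lit 123409) (nat_lit 29) (node (nat_lit 7) (nat_lit 122282) (nat_lit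
  30) (node (nat_lit 5) (nat_lit 118844) (nat_lit 31) (node (nat_lit 4) (nat_lit 115320) (nat_lit
  32) (node (nat_lit 5) (nat_lit 108233) (nat_lit 33) (node (nat_lit 7) (nat_lit 106773) (nat_lit
  34) (node (nat_lit 5) (nat_lit 107799) (nat_lit 35) (node (nat_lit 4) (nat_lit 100331) (nat_lit
  36) (node (nat_lit 7) (nat_lit 94791) (nat_lit 37) (node (nat_lit 4) (nat_lit 95120) (nat_lit
  38) (node (nat_lit 5) (nat_lit 80460) (nat_lit 39) (node (nat_lit 7) (nat_lit 25804) (nat_lit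
  40) nil nil) nil) nil) nil) nil) nil) nil) nil) nil) nil) nil) nil) nil) nil) nil) nil) (node
  (nat_lit 7) (nat_lit 125967) (nat_lit 24) (node (nat_lit 5) (nat_lit 125843) (nat_lit 25) nil
  nil) nil)) nil) nil) (node (nat_lit 0) (nat_lit 128910) (nat_lit 21) nil nil)) (node (nat_lit 0)
  (nat_lit 128984) (nat_lit 20) nil nil)) (node (nat_lit 0) (nat_lit 130224) (nat_lit 19) nil
  nil))) (node (nat_lit 4) (nat_lit 0) (nat_lit 18) (node (nat_lit 7) (nat_lit 0) (nat_lit 19)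
  (node (nat_lit 5) (nat_lit 0) (nat_lit 20) (node (nat_lit 7) (nat_lit 0) (nat_lit 21) (node
  (nat_lit 4) (nat_lit 0) (nat_lit 22) (node (nat_lit 5) (nat_lit 0) (nat_lit 23) (node (nat_lit
  7) (nat_lit 115813) (nat_lit 24) (node (nat_lit 5) (nat_lit 116064) (nat_lit 25) (node (nat_lit
  4) (nat_lit 115940) (nat_lit 26) nil nil) nil) (node (nat_lit 4) (nat_lit 115424) (nat_lit 24)
  (node (nat_lit 7) (nat_lit 116039) (nat_lit 25) (node (nat_lit 4) (nat_lit 115409) (nat_lit 26)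
  nil nil) nil) (node (nat_lit 0) (nat_lit 116157) (nat_lit 24) nil nil))) (node (nat_lit 7)
  (nat_lit 93723) (nat_lit 23) (node (nat_lit 5) (nat_lit 94373) (nat_lit 24) (node (nat_lit 4)
  (nat_lit 94623) (nat_lit 25) (node (nat_lit 5) (nat_lit 72581) (nat_lit 26) (node (nat_lit 7)
  (nat_lit 72762) (nat_lit 27) nil nil) nil) nil) nil) (node (nat_lit 0) (nat_lit 116711) (nat_lit
  23) nil nil))) (node (nat_lit 0) (nat_lit 116890) (nat_lit 22) nil nil)) (node (nat_lit 4)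
  (nat_lit 117775) (nat_lit 21) (node (nat_lit 5) (nat_lit 119019) (nat_lit 22) (node (nat_lit 7)
  (nat_lit 119908) (nat_lit 23) (node (nat_lit 4) (nat_lit 120063) (nat_lit 24) (node (nat_lit 5)
  (nat_lit 120108) (nat_lit 25) (node (nat_lit 4) (nat_lit 120213) (nat_lit 26) (node (nat_lit 7)
  (nat_lit 119595) (nat_lit 27) (node (nat_lit 5) (nat_lit 119502) (nat_lit 28) (node (nat_lit 7)
  (nat_lit 118165) (nat_lit 29) (node (nat_lit 4) (nat_lit 117005) (nat_lit 30) (node (nat_lit 7)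
  (nat_lit 116556) (nat_lit 31) (node (nat_lit 5) (nat_lit 113476) (nat_lit 32) (node (nat_lit 4)
  (nat_lit 112607) (nat_lit 33) (node (nat_lit 5) (nat_lit 107348) (nat_lit 34) (node (nat_lit 7)
  (nat_lit 103264) (nat_lit 35) (node (nat_lit 5) (nat_lit 104935) (nat_lit 36) (node (nat_lit 4)
  (nat_lit 93618) (nat_lit 37) (node (nat_lit 7) (nat_lit 100502) (nat_lit 38) (node (nat_lit 4)
  (nat_lit 89031) (nat_lit 39) (node (nat_lit 5) (nat_lit 80033) (nat_lit 40) (node (nat_lit 4)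
  (nat_lit 70902) (nat_lit 41) (node (nat_lit 7) (nat_lit 71412) (nat_lit 42) (node (nat_lit 5)
  (nat_lit 49670) (nat_lit 43) nil nil) nil) nil) nil) nil) nil) nil) nil) nil) nil) nil) nil)
  nil) nil) nil) nil) nil) nil) (node (nat_lit 7) (nat_lit 120281) (nat_lit 25) nil nil)) nil)
  nil) nil) (node (nat_lit 0) (nat_lit 122545) (nat_lit 21) nil nil))) (node (nat_lit 0) (nat_lit
  122586) (nat_lit 20) nil nil)) (node (nat_lit 0) (nat_lit 123940) (nat_lit 19) nil nil)) (node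
  (nat_lit 0) (nat_lit 130474) (nat_lit 18) nil nil))) (node (nat_lit 0) (nat_lit 129555) (nat_lit
  17) (node (nat_lit 7) (nat_lit 129555) (nat_lit 18) nil nil) nil)) (node (nat_lit 5) (nat_lit 0)
  (nat_lit 16) (node (nat_lit 7) (nat_lit 0) (nat_lit 17) (node (nat_lit 4) (nat_lit 0) (nat_lit
  18) (node (nat_lit 5) (nat_lit 0) (nat_lit 19) (node (nat_lit 4) (nat_lit 0) (nat_lit 20) (node
  (nat_lit 7) (nat_lit 125238) (nat_lit 21) (node (nat_lit 4) (nat_lit 126747) (nat_lit 22) (node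
  (nat_lit 5) (nat_lit 127552) (nat_lit 23) (node (nat_lit 7) (nat_lit 127832) (nat_lit 24) nil
  nil) nil) (node (nat_lit 5) (nat_lit 126264) (nat_lit 22) (node (nat_lit 4) (nat_lit 126620)
  (nat_lit 23) nil (node (nat_lit 7) (nat_lit 120319) (nat_lit 23) nil nil)) nil)) (node (nat_lit
  0) (nat_lit 125317) (nat_lit 21) nil nil)) (node (nat_lit 7) (nat_lit 122924) (nat_lit 20) (node
  (nat_lit 5) (nat_lit 124550) (nat_lit 21) (node (nat_lit 4) (nat_lit 125629) (nat_lit 22) (node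
  (nat_lit 7) (nat_lit 126255) (nat_lit 23) (node (nat_lit 4) (nat_lit 126674) (nat_lit 24) (node
  (nat_lit 5) (nat_lit 126966) (nat_lit 25) (node (nat_lit 4) (nat_lit 127328) (nat_lit 26) (node
  (nat_lit 7) (nat_lit 126677) (nat_lit 27) (node (nat_lit 5) (nat_lit 126687) (nat_lit 28) (node
  (nat_lit 7) (nat_lit 125361) (nat_lit 29) (node (nat_lit 4) (nat_lit 124255) (nat_lit 30) (node
  (nat_lit 7) (nat_lit 124823) (nat_lit 31) (node (nat_lit 5) (nat_lit 121640) (nat_lit 32) (node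
  (nat_lit 4) (nat_lit 123669) (nat_lit 33) (node (nat_lit 5) (nat_lit 120407) (nat_lit 34) (node
  (nat_lit 7) (nat_lit 117492) (nat_lit 35) (node (nat_lit 5) (nat_lit 109460) (nat_lit 36) (node
  (nat_lit 4) (nat_lit 109991) (nat_lit 37) (node (nat_lit 7) (nat_lit 97554) (nat_lit 38) nil
  nil) nil) nil) nil) nil) nil) nil) nil) nil) nil) nil) nil) nil) nil) nil) (node (nat_lit 5)
  (nat_lit 125883) (nat_lit 23) (node (nat_lit 7) (nat_lit 125485) (nat_lit 24) nil nil) nil))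
  nil) nil) (node (nat_lit 0) (nat_lit 126166) (nat_lit 20) nil nil))) (node (nat_lit 7) (nat_lit
  0) (nat_lit 19) (node (nat_lit 5) (nat_lit 120444) (nat_lit 20) (node (nat_lit 4) (nat_lit
  122024) (nat_lit 21) (node (nat_lit 7) (nat_lit 123433) (nat_lit 22) (node (nat_lit 4) (nat_lit
  123810) (nat_lit 23) (node (nat_lit 5) (nat_lit 123995) (nat_lit 24) (node (nat_lit 4) (nat_lit
  124362) (nat_lit 25) (node (nat_lit 7) (nat_lit 123478) (nat_lit 26) (node (nat_lit 5) (nat_lit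
  123437) (nat_lit 27) (node (nat_lit 7) (nat_lit 121718) (nat_lit 28) (node (nat_lit 4) (nat_lit
  120240) (nat_lit 29) (node (nat_lit 7) (nat_lit 119608) (nat_lit 30) (node (nat_lit 5) (nat_lit
  115733) (nat_lit 31) (node (nat_lit 4) (nat_lit 114585) (nat_lit 32) (node (nat_lit 5) (nat_lit
  112428) (nat_lit 33) (node (nat_lit 7) (nat_lit 109168) (nat_lit 34) (node (nat_lit 5) (nat_lit
  104760) (nat_lit 35) (node (nat_lit 4) (nat_lit 104353) (nat_lit 36) (node (nat_lit 7) (nat_lit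
  94662) (nat_lit 37) (node (nat_lit 5) (nat_lit 96501) (nat_lit 38) (node (nat_lit 7) (nat_lit
  75957) (nat_lit 39) (node (nat_lit 4) (nat_lit 68365) (nat_lit 40) nil nil) nil) nil) nil) nil)
  nil) nil) nil) nil) nil) nil) nil) nil) nil) nil) nil) nil) nil) nil) nil) (node (nat_lit 0)
  (nat_lit 121587) (nat_lit 20) nil nil)) (node (nat_lit 0) (nat_lit 127944) (nat_lit 19) nil
  nil))) (node (nat_lit 0) (nat_lit 129701) (nat_lit 18) nil nil)) (node (nat_lit 0) (nat_lit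
  128022) (nat_lit 17) nil nil)) (node (nat_lit 0) (nat_lit 130016) (nat_lit 16) (node (nat_lit 7)
  (nat_lit 130016) (nat_lit 17) nil (node (nat_lit 4) (nat_lit 130016) (nat_lit 17) nil (node
  (nat_lit 5) (nat_lit 130016) (nat_lit 17) nil nil))) nil))) (node (nat_lit 0) (nat_lit 127895)
  (nat_lit 15) (node (nat_lit 4) (nat_lit 127895) (nat_lit 16) nil (node (nat_lit 7) (nat_lit
  127895) (nat_lit 16) nil nil)) nil)) (node (nat_lit 0) (nat_lit 127215) (nat_lit 14) (node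
  (nat_lit 5) (nat_lit 127215) (nat_lit 15) (node (nat_lit 7) (nat_lit 127215) (nat_lit 16) nil
  nil) (node (nat_lit 4) (nat_lit 127215) (nat_lit 15) (node (nat_lit 5) (nat_lit 127215) (nat_lit
  16) (node (nat_lit 4) (nat_lit 127215) (nat_lit 17) (node (nat_lit 7) (nat_lit 127215) (nat_lit
  18) (node (nat_lit 5) (nat_lit 127215) (nat_lit 19) (node (nat_lit 7) (nat_lit 127215) (nat_lit
  20) (node (nat_lit 4) (nat_lit 127215) (nat_lit 21) (node (nat_lit 7) (nat_lit 127673) (nat_lit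
  22) (node (nat_lit 5) (nat_lit 127415) (nat_lit 23) (node (nat_lit 4) (nat_lit 127213) (nat_lit
  24) (node (nat_lit 5) (nat_lit 127055) (nat_lit 25) (node (nat_lit 7) (nat_lit 127188) (nat_lit
  26) (node (nat_lit 5) (nat_lit 127321) (nat_lit 27) nil nil) nil) nil) nil) nil) nil) nil) nil)
  nil) nil) nil) nil) (node (nat_lit 7) (nat_lit 127215) (nat_lit 15) (node (nat_lit 5) (nat_lit
  127215) (nat_lit 16) nil nil) nil))) nil)) (node (nat_lit 0) (nat_lit 126951) (nat_lit 13) (node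
  (nat_lit 5) (nat_lit 126951) (nat_lit 14) (node (nat_lit 7) (nat_lit 126951) (nat_lit 15) (node
  (nat_lit 5) (nat_lit 126951) (nat_lit 16) nil (node (nat_lit 4) (nat_lit 126951) (nat_lit 16)
  nil nil)) (node (nat_lit 4) (nat_lit 126951) (nat_lit 15) (node (nat_lit 7) (nat_lit 126951)
  (nat_lit 16) nil nil) nil)) (node (nat_lit 7) (nat_lit 126951) (nat_lit 14) (node (nat_lit 5)
  (nat_lit 126951) (nat_lit 15) (node (nat_lit 4) (nat_lit 126951) (nat_lit 16) nil (node (nat_lit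
  7) (nat_lit 126951) (nat_lit 16) nil nil)) (node (nat_lit 4) (nat_lit 126951) (nat_lit 15) (node
  (nat_lit 5) (nat_lit 126951) (nat_lit 16) (node (nat_lit 4) (nat_lit 126951) (nat_lit 17) (node
  (nat_lit 7) (nat_lit 126951) (nat_lit 18) (node (nat_lit 5) (nat_lit 126951) (nat_lit 19) (node
  (nat_lit 7) (nat_lit 126951) (nat_lit 20) (node (nat_lit 4) (nat_lit 128159) (nat_lit 21) nil
  nil) nil) nil) nil) nil) nil) nil)) (node (nat_lit 4) (nat_lit 126951) (nat_lit 14) (node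
  (nat_lit 5) (nat_lit 126951) (nat_lit 15) (node (nat_lit 4) (nat_lit 126951) (nat_lit 16) (node
  (nat_lit 7) (nat_lit 126951) (nat_lit 17) (node (nat_lit 5) (nat_lit 126951) (nat_lit 18) (node
  (nat_lit 7) (nat_lit 126951) (nat_lit 19) (node (nat_lit 4) (nat_lit 126951) (nat_lit 20) (node
  (nat_lit 7) (nat_lit 127538) (nat_lit 21) (node (nat_lit 5) (nat_lit 127208) (nat_lit 22) (node
  (nat_lit 4) (nat_lit 126949) (nat_lit 23) (node (nat_lit 5) (nat_lit 126747) (nat_lit 24) (node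
  (nat_lit 7) (nat_lit 126918) (nat_lit 25) nil nil) nil) nil) nil) nil) nil) nil) nil) nil) (node
  (nat_lit 7) (nat_lit 126951) (nat_lit 16) nil nil)) (node (nat_lit 7) (nat_lit 126951) (nat_lit
  15) (node (nat_lit 5) (nat_lit 126951) (nat_lit 16) nil (node (nat_lit 4) (nat_lit 126951)
  (nat_lit 16) nil nil)) nil)) nil))) nil)))

noncomputable def t93 : Tr :=
  (node (nat_lit 4) (nat_lit 0) (nat_lit 12) (node (nat_lit 5) (nat_lit 0) (nat_lit 13) (node
  (nat_lit 7) (nat_lit 0) (nat_lit 14) (node (nat_lit 4) (nat_lit 0) (nat_lit 15) (node (nat_lit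
  7) (nat_lit 0) (nat_lit 16) (node (nat_lit 5) (nat_lit 0) (nat_lit 17) (node (nat_lit 7)
  (nat_lit 0) (nat_lit 18) (node (nat_lit 4) (nat_lit 0) (nat_lit 19) (node (nat_lit 5) (nat_lit
  118347) (nat_lit 20) (node (nat_lit 7) (nat_lit 119909) (nat_lit 21) (node (nat_lit 5) (nat_lit
  120440) (nat_lit 22) (node (nat_lit 4) (nat_lit 120592) (nat_lit 23) nil nil) nil) (node
  (nat_lit 4) (nat_lit 119797) (nat_lit 21) (node (nat_lit 7) (nat_lit 116829) (nat_lit 22) (node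
  (nat_lit 5) (nat_lit 115882) (nat_lit 23) (node (nat_lit 7) (nat_lit 111601) (nat_lit 24) (node
  (nat_lit 4) (nat_lit 108519) (nat_lit 25) (node (nat_lit 7) (nat_lit 97881) (nat_lit 26) (node
  (nat_lit 5) (nat_lit 97352) (nat_lit 27) (node (nat_lit 4) (nat_lit 92776) (nat_lit 28) (node
  (nat_lit 7) (nat_lit 93474) (nat_lit 29) (node (nat_lit 4) (nat_lit 86813) (nat_lit 30) (node
  (nat_lit 5) (nat_lit 87286) (nat_lit 31) (node (nat_lit 7) (nat_lit 59379) (nat_lit 32) nil nil)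
  nil) nil) nil) nil) nil) nil) nil) (node (nat_lit 4) (nat_lit 116158) (nat_lit 24) (node
  (nat_lit 5) (nat_lit 116000) (nat_lit 25) nil nil) nil)) (node (nat_lit 4) (nat_lit 116995)
  (nat_lit 23) (node (nat_lit 5) (nat_lit 116874) (nat_lit 24) nil nil) nil)) nil) nil)) (node
  (nat_lit 0) (nat_lit 118397) (nat_lit 20) nil nil)) (node (nat_lit 0) (nat_lit 119523) (nat_lit
  19) nil nil)) (node (nat_lit 4) (nat_lit 0) (nat_lit 18) (node (nat_lit 5) (nat_lit 0) (nat_lit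
  19) (node (nat_lit 7) (nat_lit 119849) (nat_lit 20) (node (nat_lit 5) (nat_lit 121645) (nat_lit
  21) (node (nat_lit 4) (nat_lit 122292) (nat_lit 22) (node (nat_lit 7) (nat_lit 122948) (nat_lit
  23) (node (nat_lit 4) (nat_lit 123369) (nat_lit 24) (node (nat_lit 5) (nat_lit 123678) (nat_lit
  25) (node (nat_lit 4) (nat_lit 124097) (nat_lit 26) (node (nat_lit 7) (nat_lit 123653) (nat_lit
  27) (node (nat_lit 5) (nat_lit 123926) (nat_lit 28) (node (nat_lit 7) (nat_lit 123564) (nat_lit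
  29) (node (nat_lit 4) (nat_lit 122956) (nat_lit 30) (node (nat_lit 7) (nat_lit 120744) (nat_lit
  31) (node (nat_lit 5) (nat_lit 120991) (nat_lit 32) (node (nat_lit 4) (nat_lit 117428) (nat_lit
  33) nil nil) nil) nil) nil) nil) nil) nil) nil) nil) nil) nil) nil) (node (nat_lit 4) (nat_lit
  120481) (nat_lit 21) (node (nat_lit 5) (nat_lit 120465) (nat_lit 22) (node (nat_lit 4) (nat_lit
  120778) (nat_lit 23) (node (nat_lit 7) (nat_lit 120488) (nat_lit 24) (node (nat_lit 5) (nat_lit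
  119381) (nat_lit 25) (node (nat_lit 7) (nat_lit 116477) (nat_lit 26) (node (nat_lit 4) (nat_lit
  116326) (nat_lit 27) (node (nat_lit 7) (nat_lit 112012) (nat_lit 28) (node (nat_lit 5) (nat_lit
  110234) (nat_lit 29) (node (nat_lit 4) (nat_lit 103950) (nat_lit 30) (node (nat_lit 7) (nat_lit
  93241) (nat_lit 31) (node (nat_lit 4) (nat_lit 90774) (nat_lit 32) (node (nat_lit 5) (nat_lit
  93667) (nat_lit 33) (node (nat_lit 7) (nat_lit 80158) (nat_lit 34) nil nil) nil) nil) nil) nil)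
  nil) nil) nil) nil) nil) nil) nil) nil) nil)) (node (nat_lit 0) (nat_lit 123145) (nat_lit 20)
  nil nil)) (node (nat_lit 7) (nat_lit 0) (nat_lit 19) (node (nat_lit 0) (nat_lit 117068) (nat_lit
  20) nil nil) (node (nat_lit 0) (nat_lit 123112) (nat_lit 19) nil nil))) (node (nat_lit 0)
  (nat_lit 123262) (nat_lit 18) nil nil))) (node (nat_lit 0) (nat_lit 125380) (nat_lit 17) nil
  nil)) (node (nat_lit 0) (nat_lit 122639) (nat_lit 16) nil nil)) (node (nat_lit 5) (nat_lit 0)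
  (nat_lit 15) (node (nat_lit 4) (nat_lit 0) (nat_lit 16) (node (nat_lit 5) (nat_lit 0) (nat_lit
  17) (node (nat_lit 7) (nat_lit 0) (nat_lit 18) (node (nat_lit 4) (nat_lit 0) (nat_lit 19) (node
  (nat_lit 7) (nat_lit 119353) (nat_lit 20) (node (nat_lit 5) (nat_lit 121228) (nat_lit 21) (node
  (nat_lit 4) (nat_lit 122492) (nat_lit 22) (node (nat_lit 7) (nat_lit 123241) (nat_lit 23) (node
  (nat_lit 4) (nat_lit 123582) (nat_lit 24) (node (nat_lit 5) (nat_lit 123845) (nat_lit 25) (node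
  (nat_lit 4) (nat_lit 123973) (nat_lit 26) (node (nat_lit 7) (nat_lit 123726) (nat_lit 27) (node
  (nat_lit 5) (nat_lit 123801) (nat_lit 28) (node (nat_lit 7) (nat_lit 123439) (nat_lit 29) (node
  (nat_lit 4) (nat_lit 122672) (nat_lit 30) (node (nat_lit 7) (nat_lit 120903) (nat_lit 31) (node
  (nat_lit 5) (nat_lit 118908) (nat_lit 32) (node (nat_lit 4) (nat_lit 114584) (nat_lit 33) nil
  nil) nil) nil) nil) nil) nil) nil) nil) nil) nil) (node (nat_lit 5) (nat_lit 122612) (nat_lit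
  23) nil nil)) (node (nat_lit 7) (nat_lit 122533) (nat_lit 22) (node (nat_lit 4) (nat_lit 123376)
  (nat_lit 23) (node (nat_lit 5) (nat_lit 123708) (nat_lit 24) (node (nat_lit 4) (nat_lit 123878)
  (nat_lit 25) (node (nat_lit 7) (nat_lit 123174) (nat_lit 26) (node (nat_lit 5) (nat_lit 122789)
  (nat_lit 27) (node (nat_lit 7) (nat_lit 122099) (nat_lit 28) (node (nat_lit 4) (nat_lit 121303)
  (nat_lit 29) (node (nat_lit 7) (nat_lit 119106) (nat_lit 30) nil nil) nil) nil) nil) nil) nil)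
  nil) nil) nil)) nil) (node (nat_lit 5) (nat_lit 118800) (nat_lit 20) (node (nat_lit 4) (nat_lit
  119262) (nat_lit 21) (node (nat_lit 7) (nat_lit 117736) (nat_lit 22) (node (nat_lit 5) (nat_lit
  115962) (nat_lit 23) (node (nat_lit 7) (nat_lit 111128) (nat_lit 24) (node (nat_lit 4) (nat_lit
  109713) (nat_lit 25) (node (nat_lit 7) (nat_lit 89529) (nat_lit 26) (node (nat_lit 5) (nat_lit
  91471) (nat_lit 27) (node (nat_lit 4) (nat_lit 83443) (nat_lit 28) (node (nat_lit 7) (nat_lit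
  78087) (nat_lit 29) (node (nat_lit 4) (nat_lit 78478) (nat_lit 30) (node (nat_lit 5) (nat_lit
  71436) (nat_lit 31) (node (nat_lit 7) (nat_lit 72012) (nat_lit 32) (node (nat_lit 5) (nat_lit
  49869) (nat_lit 33) (node (nat_lit 4) (nat_lit 29399) (nat_lit 34) nil nil) nil) nil) nil) nil)
  nil) nil) nil) nil) nil) nil) (node (nat_lit 4) (nat_lit 117902) (nat_lit 23) nil nil)) nil)
  nil) (node (nat_lit 0) (nat_lit 119661) (nat_lit 20) nil nil))) (node (nat_lit 0) (nat_lit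
  120974) (nat_lit 19) nil nil)) (node (nat_lit 0) (nat_lit 122227) (nat_lit 18) nil nil)) (node
  (nat_lit 7) (nat_lit 0) (nat_lit 17) (node (nat_lit 5) (nat_lit 0) (nat_lit 18) (node (nat_lit
  7) (nat_lit 0) (nat_lit 19) (node (nat_lit 4) (nat_lit 120514) (nat_lit 20) (node (nat_lit 7)
  (nat_lit 121452) (nat_lit 21) (node (nat_lit 5) (nat_lit 121191) (nat_lit 22) (node (nat_lit 4)
  (nat_lit 121871) (nat_lit 23) (node (nat_lit 5) (nat_lit 121964) (nat_lit 24) (node (nat_lit 7)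
  (nat_lit 121653) (nat_lit 25) nil nil) nil) nil) nil) (node (nat_lit 5) (nat_lit 121767)
  (nat_lit 21) (node (nat_lit 4) (nat_lit 122103) (nat_lit 22) (node (nat_lit 7) (nat_lit 121298)
  (nat_lit 23) (node (nat_lit 5) (nat_lit 120698) (nat_lit 24) (node (nat_lit 7) (nat_lit 112334)
  (nat_lit 25) nil nil) nil) nil) nil) nil)) (node (nat_lit 0) (nat_lit 120948) (nat_lit 20) nil
  nil)) (node (nat_lit 0) (nat_lit 124803) (nat_lit 19) nil nil)) (node (nat_lit 4) (nat_lit 0)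
  (nat_lit 18) (node (nat_lit 0) (nat_lit 119713) (nat_lit 19) nil nil) (node (nat_lit 0) (nat_lit
  124193) (nat_lit 18) nil nil))) (node (nat_lit 0) (nat_lit 123254) (nat_lit 17) nil nil))) (node
  (nat_lit 0) (nat_lit 126421) (nat_lit 16) nil nil)) (node (nat_lit 0) (nat_lit 125347) (nat_lit
  15) nil nil))) (node (nat_lit 4) (nat_lit 0) (nat_lit 14) (node (nat_lit 7) (nat_lit 0) (nat_lit
  15) (node (nat_lit 5) (nat_lit 0) (nat_lit 16) (node (nat_lit 4) (nat_lit 0) (nat_lit 17) (node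
  (nat_lit 5) (nat_lit 0) (nat_lit 18) (node (nat_lit 7) (nat_lit 0) (nat_lit 19) (node (nat_lit
  4) (nat_lit 101272) (nat_lit 20) (node (nat_lit 7) (nat_lit 101853) (nat_lit 21) (node (nat_lit
  5) (nat_lit 102272) (nat_lit 22) (node (nat_lit 7) (nat_lit 102749) (nat_lit 23) (node (nat_lit
  4) (nat_lit 102950) (nat_lit 24) (node (nat_lit 5) (nat_lit 103015) (nat_lit 25) (node (nat_lit
  4) (nat_lit 103143) (nat_lit 26) (node (nat_lit 7) (nat_lit 102896) (nat_lit 27) (node (nat_lit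
  5) (nat_lit 102971) (nat_lit 28) (node (nat_lit 7) (nat_lit 102609) (nat_lit 29) (node (nat_lit
  4) (nat_lit 102002) (nat_lit 30) (node (nat_lit 7) (nat_lit 101177) (nat_lit 31) (node (nat_lit
  5) (nat_lit 100251) (nat_lit 32) (node (nat_lit 4) (nat_lit 97987) (nat_lit 33) (node (nat_lit
  7) (nat_lit 95044) (nat_lit 34) (node (nat_lit 4) (nat_lit 88144) (nat_lit 35) (node (nat_lit 5)
  (nat_lit 82395) (nat_lit 36) nil nil) nil) nil) nil) nil) nil) nil) nil) nil) nil) nil) nil)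
  nil) (node (nat_lit 4) (nat_lit 102543) (nat_lit 23) (node (nat_lit 7) (nat_lit 102917) (nat_lit
  24) (node (nat_lit 4) (nat_lit 103080) (nat_lit 25) (node (nat_lit 5) (nat_lit 103132) (nat_lit
  26) (node (nat_lit 4) (nat_lit 103224) (nat_lit 27) (node (nat_lit 7) (nat_lit 103002) (nat_lit
  28) (node (nat_lit 5) (nat_lit 103040) (nat_lit 29) (node (nat_lit 7) (nat_lit 102677) (nat_lit
  30) nil nil) nil) nil) nil) nil) nil) nil) nil)) nil) (node (nat_lit 5) (nat_lit 100144)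
  (nat_lit 21) (node (nat_lit 4) (nat_lit 100335) (nat_lit 22) (node (nat_lit 7) (nat_lit 99530)
  (nat_lit 23) (node (nat_lit 5) (nat_lit 95567) (nat_lit 24) (node (nat_lit 7) (nat_lit 95206)
  (nat_lit 25) (node (nat_lit 4) (nat_lit 93298) (nat_lit 26) (node (nat_lit 7) (nat_lit 88741)
  (nat_lit 27) (node (nat_lit 5) (nat_lit 82644) (nat_lit 28) (node (nat_lit 4) (nat_lit 71378)
  (nat_lit 29) (node (nat_lit 7) (nat_lit 82086) (nat_lit 30) (node (nat_lit 4) (nat_lit 76111)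
  (nat_lit 31) (node (nat_lit 5) (nat_lit 57919) (nat_lit 32) (node (nat_lit 4) (nat_lit 48809)
  (nat_lit 33) (node (nat_lit 7) (nat_lit 49284) (nat_lit 34) (node (nat_lit 5) (nat_lit 26043)
  (nat_lit 35) nil nil) nil) nil) nil) nil) nil) nil) nil) nil) nil) nil) (node (nat_lit 4)
  (nat_lit 99731) (nat_lit 24) nil nil)) nil) nil) nil)) (node (nat_lit 5) (nat_lit 100960)
  (nat_lit 20) (node (nat_lit 4) (nat_lit 101397) (nat_lit 21) (node (nat_lit 7) (nat_lit 101801)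
  (nat_lit 22) (node (nat_lit 4) (nat_lit 102056) (nat_lit 23) (node (nat_lit 5) (nat_lit 102151)
  (nat_lit 24) (node (nat_lit 4) (nat_lit 102345) (nat_lit 25) (node (nat_lit 7) (nat_lit 102068)
  (nat_lit 26) (node (nat_lit 5) (nat_lit 102056) (nat_lit 27) (node (nat_lit 7) (nat_lit 101455)
  (nat_lit 28) (node (nat_lit 4) (nat_lit 100630) (nat_lit 29) (node (nat_lit 7) (nat_lit 99422)
  (nat_lit 30) (node (nat_lit 5) (nat_lit 97690) (nat_lit 31) (node (nat_lit 4) (nat_lit 94438)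
  (nat_lit 32) (node (nat_lit 7) (nat_lit 89132) (nat_lit 33) (node (nat_lit 4) (nat_lit 81952)
  (nat_lit 34) (node (nat_lit 5) (nat_lit 77592) (nat_lit 35) nil nil) nil) nil) nil) nil) nil)
  nil) nil) nil) nil) nil) nil) (node (nat_lit 5) (nat_lit 101543) (nat_lit 23) nil nil)) nil)
  nil) (node (nat_lit 0) (nat_lit 102928) (nat_lit 20) nil nil))) (node (nat_lit 0) (nat_lit
  103995) (nat_lit 19) nil nil)) (node (nat_lit 0) (nat_lit 103186) (nat_lit 18) nil nil)) (node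
  (nat_lit 7) (nat_lit 0) (nat_lit 17) (node (nat_lit 4) (nat_lit 0) (nat_lit 18) (node (nat_lit
  5) (nat_lit 0) (nat_lit 19) (node (nat_lit 7) (nat_lit 68521) (nat_lit 20) (node (nat_lit 5)
  (nat_lit 69251) (nat_lit 21) (node (nat_lit 4) (nat_lit 69620) (nat_lit 22) (node (nat_lit 7)
  (nat_lit 69907) (nat_lit 23) (node (nat_lit 4) (nat_lit 70252) (nat_lit 24) (node (nat_lit 5)
  (nat_lit 70523) (nat_lit 25) (node (nat_lit 4) (nat_lit 70735) (nat_lit 26) (node (nat_lit 7)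
  (nat_lit 70840) (nat_lit 27) (node (nat_lit 5) (nat_lit 70954) (nat_lit 28) (node (nat_lit 7)
  (nat_lit 71046) (nat_lit 29) (node (nat_lit 4) (nat_lit 71084) (nat_lit 30) (node (nat_lit 7)
  (nat_lit 71120) (nat_lit 31) (node (nat_lit 5) (nat_lit 71163) (nat_lit 32) (node (nat_lit 4)
  (nat_lit 70516) (nat_lit 33) nil nil) nil) nil) nil) nil) nil) nil) nil) nil) nil) (node
  (nat_lit 5) (nat_lit 69361) (nat_lit 23) nil nil)) nil) nil) (node (nat_lit 4) (nat_lit 67562)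
  (nat_lit 20) (node (nat_lit 7) (nat_lit 65745) (nat_lit 21) (node (nat_lit 4) (nat_lit 66315)
  (nat_lit 22) (node (nat_lit 5) (nat_lit 66762) (nat_lit 23) nil nil) nil) nil) (node (nat_lit 0)
  (nat_lit 70544) (nat_lit 20) nil nil))) (node (nat_lit 7) (nat_lit 68337) (nat_lit 19) (node
  (nat_lit 5) (nat_lit 70164) (nat_lit 20) nil nil) (node (nat_lit 0) (nat_lit 71696) (nat_lit 19)
  nil nil))) (node (nat_lit 0) (nat_lit 73563) (nat_lit 18) nil nil)) (node (nat_lit 0) (nat_lit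
  101824) (nat_lit 17) nil nil))) (node (nat_lit 0) (nat_lit 102940) (nat_lit 16) nil nil)) (node
  (nat_lit 0) (nat_lit 121034) (nat_lit 15) (node (nat_lit 5) (nat_lit 121034) (nat_lit 16) nil
  nil) nil)) (node (nat_lit 0) (nat_lit 125759) (nat_lit 14) (node (nat_lit 4) (nat_lit 125759)
  (nat_lit 15) (node (nat_lit 5) (nat_lit 125759) (nat_lit 16) (node (nat_lit 4) (nat_lit 125759)
  (nat_lit 17) (node (nat_lit 7) (nat_lit 125759) (nat_lit 18) (node (nat_lit 5) (nat_lit 125759)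
  (nat_lit 19) (node (nat_lit 7) (nat_lit 125759) (nat_lit 20) (node (nat_lit 4) (nat_lit 125759)
  (nat_lit 21) (node (nat_lit 7) (nat_lit 126218) (nat_lit 22) (node (nat_lit 5) (nat_lit 125960)
  (nat_lit 23) (node (nat_lit 4) (nat_lit 125757) (nat_lit 24) nil nil) nil) nil) nil) nil) nil)
  nil) nil) nil) (node (nat_lit 5) (nat_lit 125759) (nat_lit 15) nil (node (nat_lit 7) (nat_lit
  125759) (nat_lit 15) nil nil))) nil))) (node (nat_lit 0) (nat_lit 124279) (nat_lit 13) (node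
  (nat_lit 7) (nat_lit 124279) (nat_lit 14) (node (nat_lit 4) (nat_lit 124279) (nat_lit 15) (node
  (nat_lit 5) (nat_lit 124279) (nat_lit 16) (node (nat_lit 4) (nat_lit 124279) (nat_lit 17) (node
  (nat_lit 7) (nat_lit 124279) (nat_lit 18) (node (nat_lit 5) (nat_lit 124279) (nat_lit 19) (node
  (nat_lit 7) (nat_lit 124279) (nat_lit 20) (node (nat_lit 4) (nat_lit 125487) (nat_lit 21) nil
  nil) nil) nil) nil) nil) (node (nat_lit 7) (nat_lit 124279) (nat_lit 16) nil nil)) (node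
  (nat_lit 5) (nat_lit 124279) (nat_lit 15) nil nil)) (node (nat_lit 5) (nat_lit 124279) (nat_lit
  14) (node (nat_lit 4) (nat_lit 124279) (nat_lit 15) nil (node (nat_lit 7) (nat_lit 124279)
  (nat_lit 15) nil nil)) (node (nat_lit 4) (nat_lit 124279) (nat_lit 14) (node (nat_lit 7)
  (nat_lit 124279) (nat_lit 15) (node (nat_lit 5) (nat_lit 124279) (nat_lit 16) nil nil) (node
  (nat_lit 5) (nat_lit 124279) (nat_lit 15) (node (nat_lit 7) (nat_lit 124279) (nat_lit 16) nil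
  nil) nil)) nil))) nil)) (node (nat_lit 0) (nat_lit 123802) (nat_lit 12) (node (nat_lit 4)
  (nat_lit 123802) (nat_lit 13) (node (nat_lit 7) (nat_lit 123802) (nat_lit 14) (node (nat_lit 4)
  (nat_lit 123802) (nat_lit 15) (node (nat_lit 5) (nat_lit 123802) (nat_lit 16) (node (nat_lit 4)
  (nat_lit 123802) (nat_lit 17) (node (nat_lit 7) (nat_lit 123802) (nat_lit 18) (node (nat_lit 5)
  (nat_lit 123951) (nat_lit 19) (node (nat_lit 7) (nat_lit 125615) (nat_lit 20) nil nil) nil) nil)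
  nil) nil) (node (nat_lit 5) (nat_lit 123802) (nat_lit 15) nil nil)) (node (nat_lit 5) (nat_lit
  123802) (nat_lit 14) (node (nat_lit 4) (nat_lit 123802) (nat_lit 15) (node (nat_lit 7) (nat_lit
  123802) (nat_lit 16) (node (nat_lit 5) (nat_lit 123802) (nat_lit 17) (node (nat_lit 7) (nat_lit
  123802) (nat_lit 18) (node (nat_lit 4) (nat_lit 123802) (nat_lit 19) (node (nat_lit 7) (nat_lit
  124556) (nat_lit 20) (node (nat_lit 5) (nat_lit 124133) (nat_lit 21) (node (nat_lit 4) (nat_lit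
  123802) (nat_lit 22) (node (nat_lit 7) (nat_lit 124083) (nat_lit 23) nil nil) nil) nil) nil)
  nil) nil) nil) nil) (node (nat_lit 7) (nat_lit 123802) (nat_lit 15) nil nil)) nil)) (node
  (nat_lit 7) (nat_lit 123802) (nat_lit 13) (node (nat_lit 4) (nat_lit 123802) (nat_lit 14) (node
  (nat_lit 5) (nat_lit 123802) (nat_lit 15) (node (nat_lit 4) (nat_lit 123802) (nat_lit 16) (node
  (nat_lit 7) (nat_lit 123802) (nat_lit 17) (node (nat_lit 5) (nat_lit 123802) (nat_lit 18) (node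
  (nat_lit 7) (nat_lit 123802) (nat_lit 19) (node (nat_lit 4) (nat_lit 125352) (nat_lit 20) (node
  (nat_lit 7) (nat_lit 125936) (nat_lit 21) (node (nat_lit 5) (nat_lit 126301) (nat_lit 22) (node
  (nat_lit 4) (nat_lit 126454) (nat_lit 23) nil nil) nil) nil) nil) nil) nil) nil) (node (nat_lit
  7) (nat_lit 123802) (nat_lit 16) nil nil)) (node (nat_lit 7) (nat_lit 123802) (nat_lit 15) nil
  nil)) (node (nat_lit 5) (nat_lit 123802) (nat_lit 14) (node (nat_lit 4) (nat_lit 123802)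
  (nat_lit 15) nil (node (nat_lit 7) (nat_lit 123802) (nat_lit 15) nil nil)) nil)) (node (nat_lit
  5) (nat_lit 123802) (nat_lit 13) (node (nat_lit 4) (nat_lit 123802) (nat_lit 14) (node (nat_lit
  7) (nat_lit 123802) (nat_lit 15) nil (node (nat_lit 5) (nat_lit 123802) (nat_lit 15) nil nil))
  (node (nat_lit 7) (nat_lit 123802) (nat_lit 14) (node (nat_lit 5) (nat_lit 123802) (nat_lit 15)
  nil (node (nat_lit 4) (nat_lit 123802) (nat_lit 15) nil nil)) nil)) nil))) nil))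

noncomputable def t94 : Tr :=
  (node (nat_lit 5) (nat_lit 0) (nat_lit 8) (node (nat_lit 4) (nat_lit 0) (nat_lit 9) (node
  (nat_lit 7) (nat_lit 0) (nat_lit 10) t89 (node (nat_lit 0) (nat_lit 97034) (nat_lit 10) (node
  (nat_lit 7) (nat_lit 97034) (nat_lit 11) (node (nat_lit 5) (nat_lit 97034) (nat_lit 12) (node
  (nat_lit 4) (nat_lit 97034) (nat_lit 13) (node (nat_lit 7) (nat_lit 97034) (nat_lit 14) (node
  (nat_lit 5) (nat_lit 97034) (nat_lit 15) nil nil) (node (nat_lit 5) (nat_lit 97034) (nat_lit 14)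
  nil nil)) (node (nat_lit 7) (nat_lit 97034) (nat_lit 13) (node (nat_lit 4) (nat_lit 97034)
  (nat_lit 14) (node (nat_lit 5) (nat_lit 97034) (nat_lit 15) (node (nat_lit 4) (nat_lit 97034)
  (nat_lit 16) (node (nat_lit 7) (nat_lit 97034) (nat_lit 17) (node (nat_lit 5) (nat_lit 99220)
  (nat_lit 18) (node (nat_lit 7) (nat_lit 101549) (nat_lit 19) (node (nat_lit 4) (nat_lit 103367)
  (nat_lit 20) nil nil) nil) nil) nil) nil) (node (nat_lit 7) (nat_lit 97034) (nat_lit 15) nil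
  nil)) nil) nil)) (node (nat_lit 4) (nat_lit 97034) (nat_lit 12) (node (nat_lit 5) (nat_lit
  97034) (nat_lit 13) (node (nat_lit 4) (nat_lit 97034) (nat_lit 14) (node (nat_lit 7) (nat_lit
  97034) (nat_lit 15) (node (nat_lit 5) (nat_lit 97034) (nat_lit 16) (node (nat_lit 7) (nat_lit
  97034) (nat_lit 17) (node (nat_lit 4) (nat_lit 99577) (nat_lit 18) (node (nat_lit 5) (nat_lit
  100694) (nat_lit 19) nil nil) nil) nil) nil) nil) (node (nat_lit 7) (nat_lit 97034) (nat_lit 14)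
  nil nil)) (node (nat_lit 7) (nat_lit 97034) (nat_lit 13) (node (nat_lit 5) (nat_lit 97034)
  (nat_lit 14) (node (nat_lit 4) (nat_lit 97034) (nat_lit 15) (node (nat_lit 5) (nat_lit 97034)
  (nat_lit 16) nil nil) (node (nat_lit 7) (nat_lit 97034) (nat_lit 15) nil nil)) nil) nil)) nil))
  (node (nat_lit 5) (nat_lit 97034) (nat_lit 11) (node (nat_lit 7) (nat_lit 97034) (nat_lit 12)
  (node (nat_lit 4) (nat_lit 97034) (nat_lit 13) (node (nat_lit 5) (nat_lit 97034) (nat_lit 14)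
  (node (nat_lit 4) (nat_lit 97034) (nat_lit 15) (node (nat_lit 7) (nat_lit 97034) (nat_lit 16)
  (node (nat_lit 5) (nat_lit 97034) (nat_lit 17) (node (nat_lit 7) (nat_lit 100019) (nat_lit 18)
  (node (nat_lit 4) (nat_lit 102349) (nat_lit 19) nil nil) nil) nil) nil) nil) (node (nat_lit 7)
  (nat_lit 97034) (nat_lit 14) nil nil)) (node (nat_lit 5) (nat_lit 97034) (nat_lit 13) (node
  (nat_lit 4) (nat_lit 97034) (nat_lit 14) (node (nat_lit 7) (nat_lit 97034) (nat_lit 15) nil nil)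
  nil) nil)) (node (nat_lit 4) (nat_lit 97034) (nat_lit 12) (node (nat_lit 7) (nat_lit 97034)
  (nat_lit 13) (node (nat_lit 4) (nat_lit 97034) (nat_lit 14) (node (nat_lit 5) (nat_lit 97034)
  (nat_lit 15) (node (nat_lit 4) (nat_lit 97034) (nat_lit 16) (node (nat_lit 7) (nat_lit 97034)
  (nat_lit 17) (node (nat_lit 5) (nat_lit 100036) (nat_lit 18) nil nil) nil) nil) nil) (node
  (nat_lit 5) (nat_lit 97034) (nat_lit 14) nil nil)) (node (nat_lit 5) (nat_lit 97034) (nat_lit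
  13) (node (nat_lit 7) (nat_lit 97034) (nat_lit 14) (node (nat_lit 4) (nat_lit 97034) (nat_lit
  15) (node (nat_lit 5) (nat_lit 97034) (nat_lit 16) (node (nat_lit 4) (nat_lit 97034) (nat_lit
  17) (node (nat_lit 7) (nat_lit 100019) (nat_lit 18) nil nil) nil) (node (nat_lit 7) (nat_lit
  97034) (nat_lit 16) (node (nat_lit 5) (nat_lit 97034) (nat_lit 17) nil nil) nil)) (node (nat_lit
  5) (nat_lit 97034) (nat_lit 15) nil nil)) nil) nil)) nil)) (node (nat_lit 4) (nat_lit 97034)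
  (nat_lit 11) (node (nat_lit 5) (nat_lit 97034) (nat_lit 12) (node (nat_lit 7) (nat_lit 97034)
  (nat_lit 13) (node (nat_lit 5) (nat_lit 97034) (nat_lit 14) nil (node (nat_lit 4) (nat_lit
  97034) (nat_lit 14) nil nil)) (node (nat_lit 4) (nat_lit 97034) (nat_lit 13) (node (nat_lit 7)
  (nat_lit 97034) (nat_lit 14) (node (nat_lit 5) (nat_lit 97034) (nat_lit 15) (node (nat_lit 7)
  (nat_lit 97034) (nat_lit 16) (node (nat_lit 4) (nat_lit 97034) (nat_lit 17) (node (nat_lit 5)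
  (nat_lit 98271) (nat_lit 18) nil nil) nil) nil) nil) nil) nil)) (node (nat_lit 7) (nat_lit
  97034) (nat_lit 12) (node (nat_lit 5) (nat_lit 97034) (nat_lit 13) (node (nat_lit 7) (nat_lit
  97034) (nat_lit 14) (node (nat_lit 4) (nat_lit 97034) (nat_lit 15) (node (nat_lit 5) (nat_lit
  97034) (nat_lit 16) (node (nat_lit 4) (nat_lit 97034) (nat_lit 17) (node (nat_lit 7) (nat_lit
  100019) (nat_lit 18) nil nil) nil) nil) nil) nil) (node (nat_lit 4) (nat_lit 97034) (nat_lit 13)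
  nil nil)) nil)) (node (nat_lit 0) (nat_lit 100478) (nat_lit 11) nil nil)))) nil)) (node (nat_lit
  7) (nat_lit 0) (nat_lit 9) (node (nat_lit 5) (nat_lit 0) (nat_lit 10) t91 (node (nat_lit 0)
  (nat_lit 0) (nat_lit 10) (node (nat_lit 5) (nat_lit 96413) (nat_lit 11) (node (nat_lit 7)
  (nat_lit 96413) (nat_lit 12) (node (nat_lit 4) (nat_lit 96413) (nat_lit 13) (node (nat_lit 5)
  (nat_lit 96413) (nat_lit 14) (node (nat_lit 4) (nat_lit 96413) (nat_lit 15) (node (nat_lit 7)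
  (nat_lit 96413) (nat_lit 16) (node (nat_lit 5) (nat_lit 96413) (nat_lit 17) (node (nat_lit 7)
  (nat_lit 99397) (nat_lit 18) (node (nat_lit 4) (nat_lit 101727) (nat_lit 19) (node (nat_lit 5)
  (nat_lit 102869) (nat_lit 20) nil nil) nil) nil) nil) nil) nil) (node (nat_lit 7) (nat_lit
  96413) (nat_lit 14) (node (nat_lit 5) (nat_lit 96413) (nat_lit 15) nil nil) nil)) (node (nat_lit
  5) (nat_lit 96413) (nat_lit 13) (node (nat_lit 4) (nat_lit 96413) (nat_lit 14) (node (nat_lit 7)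
  (nat_lit 96413) (nat_lit 15) (node (nat_lit 5) (nat_lit 96413) (nat_lit 16) nil (node (nat_lit
  4) (nat_lit 96413) (nat_lit 16) (node (nat_lit 5) (nat_lit 96413) (nat_lit 17) nil nil) nil))
  (node (nat_lit 5) (nat_lit 96413) (nat_lit 15) nil nil)) nil) nil)) (node (nat_lit 4) (nat_lit
  96413) (nat_lit 12) (node (nat_lit 7) (nat_lit 96413) (nat_lit 13) (node (nat_lit 5) (nat_lit
  96413) (nat_lit 14) (node (nat_lit 7) (nat_lit 96413) (nat_lit 15) (node (nat_lit 4) (nat_lit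
  96413) (nat_lit 16) nil nil) nil) (node (nat_lit 4) (nat_lit 96413) (nat_lit 14) (node (nat_lit
  5) (nat_lit 96413) (nat_lit 15) (node (nat_lit 4) (nat_lit 96413) (nat_lit 16) (node (nat_lit 7)
  (nat_lit 96413) (nat_lit 17) (node (nat_lit 5) (nat_lit 99683) (nat_lit 18) nil nil) nil) nil)
  nil) nil)) (node (nat_lit 5) (nat_lit 96413) (nat_lit 13) (node (nat_lit 7) (nat_lit 96413)
  (nat_lit 14) (node (nat_lit 5) (nat_lit 96413) (nat_lit 15) nil (node (nat_lit 4) (nat_lit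
  96413) (nat_lit 15) (node (nat_lit 7) (nat_lit 96413) (nat_lit 16) nil nil) nil)) nil) nil))
  (node (nat_lit 13) (nat_lit 103023) (nat_lit 12) (node (nat_lit 4) (nat_lit 103023) (nat_lit 13)
  (node (nat_lit 5) (nat_lit 103023) (nat_lit 14) (node (nat_lit 4) (nat_lit 103023) (nat_lit 15)
  (node (nat_lit 7) (nat_lit 103023) (nat_lit 16) (node (nat_lit 5) (nat_lit 103023) (nat_lit 17)
  (node (nat_lit 7) (nat_lit 103023) (nat_lit 18) (node (nat_lit 4) (nat_lit 103023) (nat_lit 19)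
  (node (nat_lit 5) (nat_lit 103777) (nat_lit 20) nil nil) nil) nil) nil) nil) nil) nil) nil)
  nil))) (node (nat_lit 4) (nat_lit 96413) (nat_lit 11) (node (nat_lit 5) (nat_lit 96413) (nat_lit
  12) (node (nat_lit 7) (nat_lit 96413) (nat_lit 13) (node (nat_lit 4) (nat_lit 96413) (nat_lit
  14) (node (nat_lit 5) (nat_lit 96413) (nat_lit 15) (node (nat_lit 4) (nat_lit 96413) (nat_lit
  16) (node (nat_lit 7) (nat_lit 96413) (nat_lit 17) (node (nat_lit 5) (nat_lit 99397) (nat_lit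
  18) (node (nat_lit 7) (nat_lit 101727) (nat_lit 19) (node (nat_lit 4) (nat_lit 103545) (nat_lit
  20) (node (nat_lit 5) (nat_lit 104435) (nat_lit 21) nil nil) nil) nil) nil) nil) nil) nil) (node
  (nat_lit 5) (nat_lit 96413) (nat_lit 14) (node (nat_lit 4) (nat_lit 96413) (nat_lit 15) (node
  (nat_lit 7) (nat_lit 96413) (nat_lit 16) nil nil) nil) nil)) (node (nat_lit 4) (nat_lit 96413)
  (nat_lit 13) (node (nat_lit 7) (nat_lit 96413) (nat_lit 14) (node (nat_lit 5) (nat_lit 96413)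
  (nat_lit 15) (node (nat_lit 7) (nat_lit 96413) (nat_lit 16) (node (nat_lit 4) (nat_lit 96413)
  (nat_lit 17) (node (nat_lit 5) (nat_lit 97650) (nat_lit 18) (node (nat_lit 7) (nat_lit 98615)
  (nat_lit 19) nil nil) nil) nil) nil) (node (nat_lit 4) (nat_lit 96413) (nat_lit 15) nil nil))
  nil) nil)) (node (nat_lit 7) (nat_lit 96413) (nat_lit 12) (node (nat_lit 4) (nat_lit 96413)
  (nat_lit 13) (node (nat_lit 5) (nat_lit 96413) (nat_lit 14) (node (nat_lit 4) (nat_lit 96413)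
  (nat_lit 15) (node (nat_lit 7) (nat_lit 96413) (nat_lit 16) (node (nat_lit 5) (nat_lit 96413)
  (nat_lit 17) (node (nat_lit 7) (nat_lit 99414) (nat_lit 18) (node (nat_lit 4) (nat_lit 101140)
  (nat_lit 19) nil nil) nil) nil) nil) (node (nat_lit 7) (nat_lit 96413) (nat_lit 15) (node
  (nat_lit 5) (nat_lit 96413) (nat_lit 16) (node (nat_lit 4) (nat_lit 96413) (nat_lit 17) nil nil)
  nil) nil)) nil) (node (nat_lit 5) (nat_lit 96413) (nat_lit 13) (node (nat_lit 7) (nat_lit 96413)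
  (nat_lit 14) (node (nat_lit 4) (nat_lit 96413) (nat_lit 15) nil nil) (node (nat_lit 4) (nat_lit
  96413) (nat_lit 14) nil nil)) nil)) (node (nat_lit 13) (nat_lit 101757) (nat_lit 12) (node
  (nat_lit 7) (nat_lit 101757) (nat_lit 13) nil nil) nil))) (node (nat_lit 7) (nat_lit 96413)
  (nat_lit 11) (node (nat_lit 4) (nat_lit 96413) (nat_lit 12) (node (nat_lit 5) (nat_lit 96413)
  (nat_lit 13) (node (nat_lit 4) (nat_lit 96413) (nat_lit 14) (node (nat_lit 7) (nat_lit 96413)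
  (nat_lit 15) (node (nat_lit 5) (nat_lit 96413) (nat_lit 16) (node (nat_lit 7) (nat_lit 96413)
  (nat_lit 17) (node (nat_lit 4) (nat_lit 98955) (nat_lit 18) (node (nat_lit 5) (nat_lit 100072)
  (nat_lit 19) (node (nat_lit 7) (nat_lit 101622) (nat_lit 20) nil nil) nil) nil) nil) (node
  (nat_lit 4) (nat_lit 96413) (nat_lit 16) nil nil)) nil) (node (nat_lit 7) (nat_lit 96413)
  (nat_lit 14) (node (nat_lit 5) (nat_lit 96413) (nat_lit 15) nil nil) nil)) (node (nat_lit 7)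
  (nat_lit 96413) (nat_lit 13) nil nil)) (node (nat_lit 5) (nat_lit 96413) (nat_lit 12) (node
  (nat_lit 4) (nat_lit 96413) (nat_lit 13) (node (nat_lit 7) (nat_lit 96413) (nat_lit 14) (node
  (nat_lit 5) (nat_lit 96413) (nat_lit 15) nil nil) (node (nat_lit 5) (nat_lit 96413) (nat_lit 14)
  nil nil)) (node (nat_lit 7) (nat_lit 96413) (nat_lit 13) (node (nat_lit 4) (nat_lit 96413)
  (nat_lit 14) (node (nat_lit 5) (nat_lit 96413) (nat_lit 15) (node (nat_lit 4) (nat_lit 96413)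
  (nat_lit 16) (node (nat_lit 7) (nat_lit 96413) (nat_lit 17) (node (nat_lit 5) (nat_lit 98598)
  (nat_lit 18) nil nil) nil) nil) nil) nil) nil)) nil)) (node (nat_lit 0) (nat_lit 100420)
  (nat_lit 11) (node (nat_lit 7) (nat_lit 100420) (nat_lit 12) nil (node (nat_lit 13) (nat_lit
  101386) (nat_lit 12) nil nil)) nil)))) nil)) (node (nat_lit 0) (nat_lit 0) (nat_lit 9) (node
  (nat_lit 5) (nat_lit 92192) (nat_lit 10) (node (nat_lit 7) (nat_lit 92192) (nat_lit 11) (node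
  (nat_lit 4) (nat_lit 92192) (nat_lit 12) (node (nat_lit 5) (nat_lit 92192) (nat_lit 13) (node
  (nat_lit 4) (nat_lit 92192) (nat_lit 14) (node (nat_lit 7) (nat_lit 92192) (nat_lit 15) (node
  (nat_lit 5) (nat_lit 92192) (nat_lit 16) (node (nat_lit 7) (nat_lit 96016) (nat_lit 17) (node
  (nat_lit 4) (nat_lit 99001) (nat_lit 18) nil nil) nil) nil) nil) nil) (node (nat_lit 7) (nat_lit
  92192) (nat_lit 13) (node (nat_lit 5) (nat_lit 92192) (nat_lit 14) (node (nat_lit 4) (nat_lit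
  92192) (nat_lit 15) nil (node (nat_lit 7) (nat_lit 92192) (nat_lit 15) nil nil)) nil) nil))
  (node (nat_lit 5) (nat_lit 92192) (nat_lit 12) nil nil)) (node (nat_lit 4) (nat_lit 92192)
  (nat_lit 11) (node (nat_lit 7) (nat_lit 92192) (nat_lit 12) (node (nat_lit 4) (nat_lit 92192)
  (nat_lit 13) (node (nat_lit 5) (nat_lit 92192) (nat_lit 14) nil nil) (node (nat_lit 5) (nat_lit
  92192) (nat_lit 13) (node (nat_lit 7) (nat_lit 92192) (nat_lit 14) (node (nat_lit 4) (nat_lit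
  92192) (nat_lit 15) nil nil) nil) nil)) (node (nat_lit 5) (nat_lit 92192) (nat_lit 12) nil nil))
  nil)) (node (nat_lit 4) (nat_lit 92192) (nat_lit 10) (node (nat_lit 5) (nat_lit 92192) (nat_lit
  11) (node (nat_lit 7) (nat_lit 92192) (nat_lit 12) (node (nat_lit 4) (nat_lit 92192) (nat_lit
  13) (node (nat_lit 5) (nat_lit 92192) (nat_lit 14) (node (nat_lit 4) (nat_lit 92192) (nat_lit
  15) (node (nat_lit 7) (nat_lit 92192) (nat_lit 16) (node (nat_lit 5) (nat_lit 96126) (nat_lit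
  17) (node (nat_lit 7) (nat_lit 99110) (nat_lit 18) (node (nat_lit 4) (nat_lit 101440) (nat_lit
  19) nil nil) nil) nil) nil) nil) (node (nat_lit 7) (nat_lit 92192) (nat_lit 14) (node (nat_lit
  5) (nat_lit 92192) (nat_lit 15) nil nil) nil)) (node (nat_lit 5) (nat_lit 92192) (nat_lit 13)
  (node (nat_lit 4) (nat_lit 92192) (nat_lit 14) (node (nat_lit 7) (nat_lit 92192) (nat_lit 15)
  nil (node (nat_lit 5) (nat_lit 92192) (nat_lit 15) nil nil)) nil) nil)) (node (nat_lit 4)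
  (nat_lit 92192) (nat_lit 12) nil nil)) (node (nat_lit 7) (nat_lit 92192) (nat_lit 11) (node
  (nat_lit 5) (nat_lit 92192) (nat_lit 12) (node (nat_lit 4) (nat_lit 92192) (nat_lit 13) (node
  (nat_lit 5) (nat_lit 92192) (nat_lit 14) (node (nat_lit 7) (nat_lit 92192) (nat_lit 15) nil nil)
  nil) (node (nat_lit 7) (nat_lit 92192) (nat_lit 13) (node (nat_lit 4) (nat_lit 92192) (nat_lit
  14) (node (nat_lit 5) (nat_lit 92192) (nat_lit 15) nil nil) nil) nil)) (node (nat_lit 4)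
  (nat_lit 92192) (nat_lit 12) (node (nat_lit 5) (nat_lit 92192) (nat_lit 13) (node (nat_lit 4)
  (nat_lit 92192) (nat_lit 14) (node (nat_lit 7) (nat_lit 92192) (nat_lit 15) (node (nat_lit 5)
  (nat_lit 92192) (nat_lit 16) (node (nat_lit 7) (nat_lit 96038) (nat_lit 17) (node (nat_lit 4)
  (nat_lit 98251) (nat_lit 18) nil nil) nil) nil) nil) nil) nil) nil)) (node (nat_lit 12) (nat_lit
  100478) (nat_lit 11) nil nil))) (node (nat_lit 7) (nat_lit 92192) (nat_lit 10) (node (nat_lit 4)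
  (nat_lit 92192) (nat_lit 11) (node (nat_lit 5) (nat_lit 92192) (nat_lit 12) (node (nat_lit 7)
  (nat_lit 92192) (nat_lit 13) (node (nat_lit 5) (nat_lit 92192) (nat_lit 14) (node (nat_lit 4)
  (nat_lit 92192) (nat_lit 15) nil nil) nil) (node (nat_lit 4) (nat_lit 92192) (nat_lit 13) (node
  (nat_lit 7) (nat_lit 92192) (nat_lit 14) (node (nat_lit 5) (nat_lit 92192) (nat_lit 15) (node
  (nat_lit 7) (nat_lit 92192) (nat_lit 16) (node (nat_lit 4) (nat_lit 95450) (nat_lit 17) (node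
  (nat_lit 5) (nat_lit 96882) (nat_lit 18) nil nil) nil) nil) nil) nil) nil)) (node (nat_lit 7)
  (nat_lit 92192) (nat_lit 12) nil nil)) (node (nat_lit 5) (nat_lit 92192) (nat_lit 11) (node
  (nat_lit 4) (nat_lit 92192) (nat_lit 12) (node (nat_lit 7) (nat_lit 92192) (nat_lit 13) (node
  (nat_lit 5) (nat_lit 92192) (nat_lit 14) (node (nat_lit 7) (nat_lit 92192) (nat_lit 15) nil nil)
  (node (nat_lit 4) (nat_lit 92192) (nat_lit 14) (node (nat_lit 5) (nat_lit 92192) (nat_lit 15)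
  (node (nat_lit 4) (nat_lit 92192) (nat_lit 16) (node (nat_lit 7) (nat_lit 94679) (nat_lit 17)
  nil nil) nil) nil) nil)) (node (nat_lit 5) (nat_lit 92192) (nat_lit 13) (node (nat_lit 7)
  (nat_lit 92192) (nat_lit 14) (node (nat_lit 4) (nat_lit 92192) (nat_lit 15) nil nil) nil) nil))
  (node (nat_lit 7) (nat_lit 92192) (nat_lit 12) nil nil)) (node (nat_lit 12) (nat_lit 100049)
  (nat_lit 11) nil nil))) (node (nat_lit 0) (nat_lit 97034) (nat_lit 10) nil nil)))) nil))) (node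
  (nat_lit 7) (nat_lit 0) (nat_lit 8) (node (nat_lit 5) (nat_lit 0) (nat_lit 9) (node (nat_lit 4)
  (nat_lit 0) (nat_lit 10) (node (nat_lit 5) (nat_lit 0) (nat_lit 11) (node (nat_lit 7) (nat_lit
  0) (nat_lit 12) t92 (node (nat_lit 0) (nat_lit 125238) (nat_lit 12) (node (nat_lit 4) (nat_lit
  125238) (nat_lit 13) (node (nat_lit 5) (nat_lit 125238) (nat_lit 14) (node (nat_lit 4) (nat_lit
  125238) (nat_lit 15) (node (nat_lit 7) (nat_lit 125238) (nat_lit 16) (node (nat_lit 5) (nat_lit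
  125238) (nat_lit 17) (node (nat_lit 7) (nat_lit 125238) (nat_lit 18) (node (nat_lit 4) (nat_lit
  125238) (nat_lit 19) (node (nat_lit 7) (nat_lit 125992) (nat_lit 20) (node (nat_lit 5) (nat_lit
  125568) (nat_lit 21) (node (nat_lit 4) (nat_lit 125237) (nat_lit 22) (node (nat_lit 5) (nat_lit
  124979) (nat_lit 23) nil nil) nil) nil) nil) nil) nil) nil) nil) (node (nat_lit 7) (nat_lit
  125238) (nat_lit 15) (node (nat_lit 4) (nat_lit 125238) (nat_lit 16) nil nil) nil)) (node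
  (nat_lit 7) (nat_lit 125238) (nat_lit 14) (node (nat_lit 5) (nat_lit 125238) (nat_lit 15) nil
  nil) nil)) (node (nat_lit 7) (nat_lit 125238) (nat_lit 13) (node (nat_lit 5) (nat_lit 125238)
  (nat_lit 14) (node (nat_lit 4) (nat_lit 125238) (nat_lit 15) nil (node (nat_lit 7) (nat_lit
  125238) (nat_lit 15) nil nil)) (node (nat_lit 4) (nat_lit 125238) (nat_lit 14) (node (nat_lit 5)
  (nat_lit 125238) (nat_lit 15) (node (nat_lit 4) (nat_lit 125238) (nat_lit 16) (node (nat_lit 7)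
  (nat_lit 125238) (nat_lit 17) (node (nat_lit 5) (nat_lit 125238) (nat_lit 18) (node (nat_lit 7)
  (nat_lit 125238) (nat_lit 19) (node (nat_lit 4) (nat_lit 126787) (nat_lit 20) (node (nat_lit 7)
  (nat_lit 127371) (nat_lit 21) (node (nat_lit 5) (nat_lit 127736) (nat_lit 22) (node (nat_lit 4)
  (nat_lit 127888) (nat_lit 23) nil nil) nil) nil) nil) nil) nil) nil) nil) nil) nil)) (node
  (nat_lit 5) (nat_lit 125238) (nat_lit 13) (node (nat_lit 7) (nat_lit 125238) (nat_lit 14) (node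
  (nat_lit 5) (nat_lit 125238) (nat_lit 15) nil (node (nat_lit 4) (nat_lit 125238) (nat_lit 15)
  nil nil)) (node (nat_lit 4) (nat_lit 125238) (nat_lit 14) (node (nat_lit 7) (nat_lit 125238)
  (nat_lit 15) (node (nat_lit 5) (nat_lit 125238) (nat_lit 16) nil nil) (node (nat_lit 5) (nat_lit
  125238) (nat_lit 15) nil nil)) nil)) nil))) nil)) (node (nat_lit 7) (nat_lit 0) (nat_lit 11) t93
  (node (nat_lit 0) (nat_lit 122761) (nat_lit 11) (node (nat_lit 4) (nat_lit 122761) (nat_lit 12)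
  (node (nat_lit 5) (nat_lit 122761) (nat_lit 13) (node (nat_lit 7) (nat_lit 122761) (nat_lit 14)
  (node (nat_lit 4) (nat_lit 122761) (nat_lit 15) nil nil) (node (nat_lit 4) (nat_lit 122761)
  (nat_lit 14) (node (nat_lit 7) (nat_lit 122761) (nat_lit 15) (node (nat_lit 5) (nat_lit 122761)
  (nat_lit 16) (node (nat_lit 7) (nat_lit 122761) (nat_lit 17) (node (nat_lit 4) (nat_lit 122761)
  (nat_lit 18) (node (nat_lit 7) (nat_lit 123726) (nat_lit 19) (node (nat_lit 5) (nat_lit 123184)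
  (nat_lit 20) (node (nat_lit 4) (nat_lit 122761) (nat_lit 21) nil nil) nil) nil) nil) nil) nil)
  nil) nil)) (node (nat_lit 7) (nat_lit 122761) (nat_lit 13) (node (nat_lit 4) (nat_lit 122761)
  (nat_lit 14) (node (nat_lit 5) (nat_lit 122761) (nat_lit 15) (node (nat_lit 4) (nat_lit 122761)
  (nat_lit 16) (node (nat_lit 7) (nat_lit 122761) (nat_lit 17) (node (nat_lit 5) (nat_lit 122761)
  (nat_lit 18) (node (nat_lit 7) (nat_lit 125103) (nat_lit 19) (node (nat_lit 4) (nat_lit 126451)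
  (nat_lit 20) nil nil) nil) nil) nil) nil) nil) (node (nat_lit 5) (nat_lit 122761) (nat_lit 14)
  nil nil)) nil)) (node (nat_lit 5) (nat_lit 122761) (nat_lit 12) (node (nat_lit 7) (nat_lit
  122761) (nat_lit 13) (node (nat_lit 4) (nat_lit 122761) (nat_lit 14) (node (nat_lit 5) (nat_lit
  122761) (nat_lit 15) (node (nat_lit 4) (nat_lit 122761) (nat_lit 16) (node (nat_lit 7) (nat_lit
  122761) (nat_lit 17) (node (nat_lit 5) (nat_lit 122761) (nat_lit 18) (node (nat_lit 7) (nat_lit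
  125366) (nat_lit 19) (node (nat_lit 4) (nat_lit 126987) (nat_lit 20) (node (nat_lit 7) (nat_lit
  128361) (nat_lit 21) (node (nat_lit 5) (nat_lit 128725) (nat_lit 22) nil nil) nil) nil) nil)
  nil) nil) nil) nil) nil) (node (nat_lit 14) (nat_lit 124480) (nat_lit 13) (node (nat_lit 4)
  (nat_lit 124480) (nat_lit 14) (node (nat_lit 5) (nat_lit 124480) (nat_lit 15) (node (nat_lit 4)
  (nat_lit 124480) (nat_lit 16) (node (nat_lit 7) (nat_lit 124480) (nat_lit 17) (node (nat_lit 5)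
  (nat_lit 124480) (nat_lit 18) (node (nat_lit 7) (nat_lit 124480) (nat_lit 19) (node (nat_lit 4)
  (nat_lit 124480) (nat_lit 20) (node (nat_lit 7) (nat_lit 125068) (nat_lit 21) (node (nat_lit 5)
  (nat_lit 124737) (nat_lit 22) (node (nat_lit 4) (nat_lit 124478) (nat_lit 23) nil nil) nil) nil)
  nil) nil) nil) nil) nil) nil) nil) (node (nat_lit 4) (nat_lit 122761) (nat_lit 13) (node
  (nat_lit 7) (nat_lit 122761) (nat_lit 14) nil (node (nat_lit 5) (nat_lit 122761) (nat_lit 14)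
  (node (nat_lit 7) (nat_lit 122761) (nat_lit 15) nil nil) nil)) nil))) (node (nat_lit 7) (nat_lit
  122761) (nat_lit 12) (node (nat_lit 5) (nat_lit 122761) (nat_lit 13) (node (nat_lit 4) (nat_lit
  122761) (nat_lit 14) nil (node (nat_lit 7) (nat_lit 122761) (nat_lit 14) (node (nat_lit 4)
  (nat_lit 122761) (nat_lit 15) (node (nat_lit 5) (nat_lit 122761) (nat_lit 16) (node (nat_lit 4)
  (nat_lit 122761) (nat_lit 17) (node (nat_lit 7) (nat_lit 122761) (nat_lit 18) (node (nat_lit 5)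
  (nat_lit 124960) (nat_lit 19) nil nil) nil) nil) nil) nil) nil)) (node (nat_lit 4) (nat_lit
  122761) (nat_lit 13) (node (nat_lit 5) (nat_lit 122761) (nat_lit 14) (node (nat_lit 4) (nat_lit
  122761) (nat_lit 15) (node (nat_lit 7) (nat_lit 122761) (nat_lit 16) (node (nat_lit 5) (nat_lit
  122761) (nat_lit 17) (node (nat_lit 7) (nat_lit 122761) (nat_lit 18) (node (nat_lit 4) (nat_lit
  124744) (nat_lit 19) (node (nat_lit 7) (nat_lit 125494) (nat_lit 20) (node (nat_lit 5) (nat_lit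
  125963) (nat_lit 21) (node (nat_lit 4) (nat_lit 126158) (nat_lit 22) nil nil) nil) nil) nil)
  nil) nil) nil) nil) (node (nat_lit 7) (nat_lit 122761) (nat_lit 14) nil nil)) nil)) (node
  (nat_lit 0) (nat_lit 123726) (nat_lit 12) nil nil)))) nil))) (node (nat_lit 0) (nat_lit 121622)
  (nat_lit 10) (node (nat_lit 7) (nat_lit 121622) (nat_lit 11) (node (nat_lit 4) (nat_lit 121622)
  (nat_lit 12) (node (nat_lit 5) (nat_lit 121622) (nat_lit 13) (node (nat_lit 4) (nat_lit 121622)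
  (nat_lit 14) (node (nat_lit 7) (nat_lit 121622) (nat_lit 15) (node (nat_lit 5) (nat_lit 121622)
  (nat_lit 16) (node (nat_lit 7) (nat_lit 121622) (nat_lit 17) (node (nat_lit 4) (nat_lit 124165)
  (nat_lit 18) (node (nat_lit 7) (nat_lit 125125) (nat_lit 19) (node (nat_lit 5) (nat_lit 125726)
  (nat_lit 20) nil nil) nil) nil) nil) nil) nil) (node (nat_lit 7) (nat_lit 121622) (nat_lit 14)
  nil nil)) (node (nat_lit 7) (nat_lit 121622) (nat_lit 13) nil nil)) (node (nat_lit 5) (nat_lit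
  121622) (nat_lit 12) (node (nat_lit 4) (nat_lit 121622) (nat_lit 13) nil (node (nat_lit 7)
  (nat_lit 121622) (nat_lit 13) (node (nat_lit 4) (nat_lit 121622) (nat_lit 14) (node (nat_lit 5)
  (nat_lit 121622) (nat_lit 15) (node (nat_lit 4) (nat_lit 121622) (nat_lit 16) (node (nat_lit 7)
  (nat_lit 121622) (nat_lit 17) (node (nat_lit 5) (nat_lit 124439) (nat_lit 18) (node (nat_lit 7)
  (nat_lit 126888) (nat_lit 19) nil nil) nil) nil) nil) (node (nat_lit 7) (nat_lit 121622)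
  (nat_lit 15) nil nil)) nil) nil)) nil)) (node (nat_lit 4) (nat_lit 121622) (nat_lit 11) (node
  (nat_lit 5) (nat_lit 121622) (nat_lit 12) (node (nat_lit 7) (nat_lit 121622) (nat_lit 13) (node
  (nat_lit 4) (nat_lit 121622) (nat_lit 14) (node (nat_lit 5) (nat_lit 121622) (nat_lit 15) (node
  (nat_lit 4) (nat_lit 121622) (nat_lit 16) (node (nat_lit 7) (nat_lit 121622) (nat_lit 17) (node
  (nat_lit 5) (nat_lit 124960) (nat_lit 18) (node (nat_lit 7) (nat_lit 127565) (nat_lit 19) (node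
  (nat_lit 4) (nat_lit 129186) (nat_lit 20) nil nil) nil) nil) nil) nil) nil) (node (nat_lit 5)
  (nat_lit 121622) (nat_lit 14) nil nil)) (node (nat_lit 4) (nat_lit 121622) (nat_lit 13) (node
  (nat_lit 7) (nat_lit 121622) (nat_lit 14) (node (nat_lit 5) (nat_lit 121622) (nat_lit 15) (node
  (nat_lit 7) (nat_lit 121622) (nat_lit 16) (node (nat_lit 4) (nat_lit 121622) (nat_lit 17) (node
  (nat_lit 7) (nat_lit 122859) (nat_lit 18) (node (nat_lit 5) (nat_lit 122165) (nat_lit 19) nil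
  nil) nil) nil) nil) (node (nat_lit 4) (nat_lit 121622) (nat_lit 15) nil nil)) nil) nil)) (node
  (nat_lit 7) (nat_lit 121622) (nat_lit 12) (node (nat_lit 4) (nat_lit 121622) (nat_lit 13) (node
  (nat_lit 5) (nat_lit 121622) (nat_lit 14) (node (nat_lit 4) (nat_lit 121622) (nat_lit 15) (node
  (nat_lit 7) (nat_lit 121622) (nat_lit 16) (node (nat_lit 5) (nat_lit 121622) (nat_lit 17) (node
  (nat_lit 7) (nat_lit 124623) (nat_lit 18) (node (nat_lit 4) (nat_lit 126350) (nat_lit 19) nil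
  nil) nil) nil) nil) nil) nil) (node (nat_lit 5) (nat_lit 121622) (nat_lit 13) (node (nat_lit 7)
  (nat_lit 121622) (nat_lit 14) (node (nat_lit 4) (nat_lit 121622) (nat_lit 15) (node (nat_lit 5)
  (nat_lit 121622) (nat_lit 16) (node (nat_lit 4) (nat_lit 121622) (nat_lit 17) (node (nat_lit 7)
  (nat_lit 125370) (nat_lit 18) (node (nat_lit 5) (nat_lit 127476) (nat_lit 19) nil nil) nil) nil)
  nil) nil) nil) nil)) nil)) (node (nat_lit 5) (nat_lit 121622) (nat_lit 11) (node (nat_lit 7)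
  (nat_lit 121622) (nat_lit 12) (node (nat_lit 4) (nat_lit 121622) (nat_lit 13) (node (nat_lit 5)
  (nat_lit 121622) (nat_lit 14) (node (nat_lit 4) (nat_lit 121622) (nat_lit 15) (node (nat_lit 7)
  (nat_lit 121622) (nat_lit 16) (node (nat_lit 5) (nat_lit 121622) (nat_lit 17) (node (nat_lit 7)
  (nat_lit 124960) (nat_lit 18) (node (nat_lit 4) (nat_lit 127037) (nat_lit 19) (node (nat_lit 7)
  (nat_lit 128800) (nat_lit 20) (node (nat_lit 5) (nat_lit 129266) (nat_lit 21) nil nil) nil) nil)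
  nil) nil) nil) nil) nil) (node (nat_lit 5) (nat_lit 121622) (nat_lit 13) nil nil)) (node
  (nat_lit 4) (nat_lit 121622) (nat_lit 12) (node (nat_lit 7) (nat_lit 121622) (nat_lit 13) (node
  (nat_lit 4) (nat_lit 121622) (nat_lit 14) (node (nat_lit 5) (nat_lit 121622) (nat_lit 15) (node
  (nat_lit 4) (nat_lit 121622) (nat_lit 16) (node (nat_lit 7) (nat_lit 121622) (nat_lit 17) (node
  (nat_lit 5) (nat_lit 124894) (nat_lit 18) nil nil) nil) nil) nil) (node (nat_lit 5) (nat_lit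
  121622) (nat_lit 14) nil nil)) nil) nil)) (node (nat_lit 0) (nat_lit 122859) (nat_lit 11) nil
  nil)))) nil)) (node (nat_lit 0) (nat_lit 116383) (nat_lit 9) (node (nat_lit 7) (nat_lit 116383)
  (nat_lit 10) (node (nat_lit 4) (nat_lit 116383) (nat_lit 11) (node (nat_lit 5) (nat_lit 116383)
  (nat_lit 12) (node (nat_lit 7) (nat_lit 116383) (nat_lit 13) nil (node (nat_lit 4) (nat_lit
  116383) (nat_lit 13) (node (nat_lit 7) (nat_lit 116383) (nat_lit 14) (node (nat_lit 5) (nat_lit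
  116383) (nat_lit 15) (node (nat_lit 7) (nat_lit 116383) (nat_lit 16) (node (nat_lit 4) (nat_lit
  119640) (nat_lit 17) (node (nat_lit 7) (nat_lit 120871) (nat_lit 18) nil nil) nil) nil) nil)
  nil) nil)) (node (nat_lit 7) (nat_lit 116383) (nat_lit 12) (node (nat_lit 5) (nat_lit 116383)
  (nat_lit 13) (node (nat_lit 4) (nat_lit 116383) (nat_lit 14) (node (nat_lit 7) (nat_lit 116383)
  (nat_lit 15) (node (nat_lit 4) (nat_lit 116383) (nat_lit 16) (node (nat_lit 5) (nat_lit 120921)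
  (nat_lit 17) (node (nat_lit 4) (nat_lit 123367) (nat_lit 18) (node (nat_lit 7) (nat_lit 124485)
  (nat_lit 19) (node (nat_lit 5) (nat_lit 125878) (nat_lit 20) (node (nat_lit 7) (nat_lit 126763)
  (nat_lit 21) (node (nat_lit 4) (nat_lit 127236) (nat_lit 22) (node (nat_lit 7) (nat_lit 127591)
  (nat_lit 23) nil nil) nil) nil) nil) nil) nil) nil) nil) nil) nil) nil) nil)) (node (nat_lit 5)
  (nat_lit 116383) (nat_lit 11) (node (nat_lit 4) (nat_lit 116383) (nat_lit 12) (node (nat_lit 7)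
  (nat_lit 116383) (nat_lit 13) (node (nat_lit 4) (nat_lit 116383) (nat_lit 14) (node (nat_lit 5)
  (nat_lit 116383) (nat_lit 15) (node (nat_lit 4) (nat_lit 116383) (nat_lit 16) (node (nat_lit 7)
  (nat_lit 119271) (nat_lit 17) nil nil) nil) nil) nil) nil) nil) nil)) (node (nat_lit 4) (nat_lit
  116383) (nat_lit 10) (node (nat_lit 5) (nat_lit 116383) (nat_lit 11) (node (nat_lit 7) (nat_lit
  116383) (nat_lit 12) (node (nat_lit 4) (nat_lit 116383) (nat_lit 13) (node (nat_lit 5) (nat_lit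
  116383) (nat_lit 14) (node (nat_lit 4) (nat_lit 116383) (nat_lit 15) (node (nat_lit 7) (nat_lit
  116383) (nat_lit 16) (node (nat_lit 5) (nat_lit 120769) (nat_lit 17) (node (nat_lit 7) (nat_lit
  123841) (nat_lit 18) (node (nat_lit 4) (nat_lit 124686) (nat_lit 19) nil nil) nil) nil) nil)
  nil) nil) (node (nat_lit 5) (nat_lit 116383) (nat_lit 13) nil nil)) (node (nat_lit 4) (nat_lit
  116383) (nat_lit 12) (node (nat_lit 7) (nat_lit 116383) (nat_lit 13) (node (nat_lit 5) (nat_lit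
  116383) (nat_lit 14) (node (nat_lit 7) (nat_lit 116383) (nat_lit 15) (node (nat_lit 4) (nat_lit
  116383) (nat_lit 16) (node (nat_lit 7) (nat_lit 117968) (nat_lit 17) nil nil) nil) nil) nil)
  nil) nil)) (node (nat_lit 7) (nat_lit 116383) (nat_lit 11) (node (nat_lit 4) (nat_lit 116383)
  (nat_lit 12) (node (nat_lit 5) (nat_lit 116383) (nat_lit 13) (node (nat_lit 4) (nat_lit 116383)
  (nat_lit 14) (node (nat_lit 7) (nat_lit 116383) (nat_lit 15) (node (nat_lit 5) (nat_lit 116383)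
  (nat_lit 16) (node (nat_lit 7) (nat_lit 120229) (nat_lit 17) (node (nat_lit 4) (nat_lit 122441)
  (nat_lit 18) (node (nat_lit 7) (nat_lit 123143) (nat_lit 19) nil nil) nil) nil) nil) nil) nil)
  nil) nil) nil)) (node (nat_lit 5) (nat_lit 116383) (nat_lit 10) (node (nat_lit 7) (nat_lit
  116383) (nat_lit 11) (node (nat_lit 4) (nat_lit 116383) (nat_lit 12) (node (nat_lit 5) (nat_lit
  116383) (nat_lit 13) (node (nat_lit 4) (nat_lit 116383) (nat_lit 14) (node (nat_lit 7) (nat_lit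
  116383) (nat_lit 15) (node (nat_lit 5) (nat_lit 116383) (nat_lit 16) (node (nat_lit 7) (nat_lit
  120660) (nat_lit 17) (node (nat_lit 4) (nat_lit 123321) (nat_lit 18) (node (nat_lit 7) (nat_lit
  125579) (nat_lit 19) nil nil) nil) nil) nil) nil) nil) nil) nil) (node (nat_lit 4) (nat_lit
  116383) (nat_lit 11) (node (nat_lit 7) (nat_lit 116383) (nat_lit 12) (node (nat_lit 4) (nat_lit
  116383) (nat_lit 13) (node (nat_lit 5) (nat_lit 116383) (nat_lit 14) (node (nat_lit 4) (nat_lit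
  116383) (nat_lit 15) (node (nat_lit 7) (nat_lit 116383) (nat_lit 16) (node (nat_lit 5) (nat_lit
  120574) (nat_lit 17) nil nil) nil) nil) nil) nil) nil) nil)) nil))) nil)) nil))

noncomputable def t95 : Tr :=
  (node (nat_lit 4) (nat_lit 0) (nat_lit 12) (node (nat_lit 7) (nat_lit 0) (nat_lit 13) (node
  (nat_lit 4) (nat_lit 0) (nat_lit 14) (node (nat_lit 5) (nat_lit 0) (nat_lit 15) (node (nat_lit
  7) (nat_lit 0) (nat_lit 16) (node (nat_lit 5) (nat_lit 0) (nat_lit 17) (node (nat_lit 4)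
  (nat_lit 0) (nat_lit 18) (node (nat_lit 7) (nat_lit 0) (nat_lit 19) (node (nat_lit 5) (nat_lit
  133047) (nat_lit 20) (node (nat_lit 7) (nat_lit 134694) (nat_lit 21) (node (nat_lit 4) (nat_lit
  135477) (nat_lit 22) (node (nat_lit 5) (nat_lit 135775) (nat_lit 23) (node (nat_lit 4) (nat_lit
  135530) (nat_lit 24) (node (nat_lit 7) (nat_lit 136226) (nat_lit 25) (node (nat_lit 5) (nat_lit
  135106) (nat_lit 26) (node (nat_lit 4) (nat_lit 133646) (nat_lit 27) (node (nat_lit 5) (nat_lit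
  132465) (nat_lit 28) (node (nat_lit 7) (nat_lit 128491) (nat_lit 29) (node (nat_lit 4) (nat_lit
  125343) (nat_lit 30) (node (nat_lit 7) (nat_lit 119648) (nat_lit 31) (node (nat_lit 5) (nat_lit
  119806) (nat_lit 32) (node (nat_lit 4) (nat_lit 116832) (nat_lit 33) (node (nat_lit 7) (nat_lit
  104932) (nat_lit 34) (node (nat_lit 4) (nat_lit 116501) (nat_lit 35) (node (nat_lit 5) (nat_lit
  107043) (nat_lit 36) (node (nat_lit 7) (nat_lit 87507) (nat_lit 37) nil nil) nil) nil) nil) nil)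
  nil) nil) nil) nil) nil) nil) nil) nil) nil) (node (nat_lit 7) (nat_lit 135835) (nat_lit 23) nil
  nil)) nil) nil) (node (nat_lit 4) (nat_lit 0) (nat_lit 20) (node (nat_lit 0) (nat_lit 134754)
  (nat_lit 21) nil nil) (node (nat_lit 0) (nat_lit 136944) (nat_lit 20) nil nil))) (node (nat_lit
  5) (nat_lit 0) (nat_lit 19) (node (nat_lit 7) (nat_lit 133352) (nat_lit 20) (node (nat_lit 4)
  (nat_lit 134504) (nat_lit 21) (node (nat_lit 5) (nat_lit 134785) (nat_lit 22) (node (nat_lit 4)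
  (nat_lit 135024) (nat_lit 23) (node (nat_lit 7) (nat_lit 134768) (nat_lit 24) (node (nat_lit 5)
  (nat_lit 133243) (nat_lit 25) (node (nat_lit 4) (nat_lit 124179) (nat_lit 26) (node (nat_lit 5)
  (nat_lit 123573) (nat_lit 27) (node (nat_lit 7) (nat_lit 122135) (nat_lit 28) (node (nat_lit 4)
  (nat_lit 119231) (nat_lit 29) (node (nat_lit 7) (nat_lit 117854) (nat_lit 30) (node (nat_lit 5)
  (nat_lit 118647) (nat_lit 31) (node (nat_lit 4) (nat_lit 104301) (nat_lit 32) (node (nat_lit 7)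
  (nat_lit 101115) (nat_lit 33) (node (nat_lit 4) (nat_lit 103165) (nat_lit 34) (node (nat_lit 5)
  (nat_lit 97137) (nat_lit 35) nil nil) nil) nil) nil) nil) nil) nil) nil) nil) nil) nil) nil)
  nil) (node (nat_lit 7) (nat_lit 134960) (nat_lit 22) nil nil)) nil) (node (nat_lit 0) (nat_lit
  137387) (nat_lit 20) nil nil)) (node (nat_lit 0) (nat_lit 136272) (nat_lit 19) nil nil))) (node
  (nat_lit 0) (nat_lit 136392) (nat_lit 18) nil nil)) (node (nat_lit 4) (nat_lit 0) (nat_lit 17)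
  (node (nat_lit 7) (nat_lit 0) (nat_lit 18) (node (nat_lit 5) (nat_lit 0) (nat_lit 19) (node
  (nat_lit 4) (nat_lit 134018) (nat_lit 20) (node (nat_lit 5) (nat_lit 135770) (nat_lit 21) (node
  (nat_lit 7) (nat_lit 136931) (nat_lit 22) (node (nat_lit 4) (nat_lit 137387) (nat_lit 23) (node
  (nat_lit 5) (nat_lit 137387) (nat_lit 24) (node (nat_lit 4) (nat_lit 137387) (nat_lit 25) (node
  (nat_lit 7) (nat_lit 137387) (nat_lit 26) (node (nat_lit 5) (nat_lit 136895) (nat_lit 27) (node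
  (nat_lit 4) (nat_lit 136658) (nat_lit 28) (node (nat_lit 5) (nat_lit 136416) (nat_lit 29) (node
  (nat_lit 7) (nat_lit 134167) (nat_lit 30) (node (nat_lit 4) (nat_lit 130518) (nat_lit 31) (node
  (nat_lit 7) (nat_lit 126697) (nat_lit 32) (node (nat_lit 5) (nat_lit 123668) (nat_lit 33) (node
  (nat_lit 4) (nat_lit 120885) (nat_lit 34) (node (nat_lit 7) (nat_lit 118068) (nat_lit 35) (node
  (nat_lit 4) (nat_lit 104820) (nat_lit 36) (node (nat_lit 5) (nat_lit 117417) (nat_lit 37) (node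
  (nat_lit 7) (nat_lit 102791) (nat_lit 38) (node (nat_lit 4) (nat_lit 97093) (nat_lit 39) (node
  (nat_lit 7) (nat_lit 97536) (nat_lit 40) (node (nat_lit 5) (nat_lit 15515) (nat_lit 41) nil nil)
  nil) nil) nil) nil) nil) nil) nil) nil) nil) nil) nil) nil) nil) nil) nil) nil) nil) (node
  (nat_lit 5) (nat_lit 137289) (nat_lit 23) nil nil)) nil) nil) (node (nat_lit 7) (nat_lit 134080)
  (nat_lit 20) (node (nat_lit 4) (nat_lit 135622) (nat_lit 21) (node (nat_lit 5) (nat_lit 136363)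
  (nat_lit 22) (node (nat_lit 4) (nat_lit 136211) (nat_lit 23) (node (nat_lit 7) (nat_lit 136021)
  (nat_lit 24) (node (nat_lit 5) (nat_lit 134423) (nat_lit 25) (node (nat_lit 4) (nat_lit 131945)
  (nat_lit 26) (node (nat_lit 5) (nat_lit 131358) (nat_lit 27) (node (nat_lit 7) (nat_lit 126038)
  (nat_lit 28) (node (nat_lit 4) (nat_lit 119579) (nat_lit 29) (node (nat_lit 7) (nat_lit 117655)
  (nat_lit 30) (node (nat_lit 5) (nat_lit 117728) (nat_lit 31) (node (nat_lit 4) (nat_lit 105239)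
  (nat_lit 32) (node (nat_lit 7) (nat_lit 105786) (nat_lit 33) (node (nat_lit 4) (nat_lit 99132)
  (nat_lit 34) (node (nat_lit 5) (nat_lit 95081) (nat_lit 35) (node (nat_lit 7) (nat_lit 76682)
  (nat_lit 36) (node (nat_lit 4) (nat_lit 27348) (nat_lit 37) nil nil) nil) nil) nil) nil) nil)
  nil) nil) nil) nil) nil) nil) nil) nil) (node (nat_lit 7) (nat_lit 136721) (nat_lit 23) nil
  nil)) nil) nil) (node (nat_lit 0) (nat_lit 137387) (nat_lit 20) nil nil))) (node (nat_lit 0)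
  (nat_lit 137387) (nat_lit 19) nil nil)) (node (nat_lit 0) (nat_lit 136710) (nat_lit 18) nil
  nil)) (node (nat_lit 0) (nat_lit 136255) (nat_lit 17) nil nil))) (node (nat_lit 4) (nat_lit 0)
  (nat_lit 16) (node (nat_lit 7) (nat_lit 0) (nat_lit 17) (node (nat_lit 5) (nat_lit 0) (nat_lit
  18) (node (nat_lit 7) (nat_lit 0) (nat_lit 19) (node (nat_lit 4) (nat_lit 0) (nat_lit 20) (node
  (nat_lit 5) (nat_lit 0) (nat_lit 21) (node (nat_lit 7) (nat_lit 125344) (nat_lit 22) (node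
  (nat_lit 5) (nat_lit 125890) (nat_lit 23) (node (nat_lit 4) (nat_lit 125686) (nat_lit 24) (node
  (nat_lit 5) (nat_lit 125528) (nat_lit 25) nil nil) nil) nil) (node (nat_lit 4) (nat_lit 124872)
  (nat_lit 22) (node (nat_lit 7) (nat_lit 124700) (nat_lit 23) (node (nat_lit 4) (nat_lit 125438)
  (nat_lit 24) (node (nat_lit 5) (nat_lit 125929) (nat_lit 25) nil nil) nil) nil) (node (nat_lit
  0) (nat_lit 127732) (nat_lit 22) nil nil))) (node (nat_lit 7) (nat_lit 123608) (nat_lit 21)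
  (node (nat_lit 5) (nat_lit 124846) (nat_lit 22) (node (nat_lit 4) (nat_lit 125221) (nat_lit 23)
  (node (nat_lit 7) (nat_lit 125966) (nat_lit 24) (node (nat_lit 4) (nat_lit 126203) (nat_lit 25)
  (node (nat_lit 5) (nat_lit 126384) (nat_lit 26) (node (nat_lit 4) (nat_lit 126421) (nat_lit 27)
  nil nil) nil) nil) nil) nil) nil) (node (nat_lit 0) (nat_lit 128081) (nat_lit 21) nil nil)))
  (node (nat_lit 0) (nat_lit 128484) (nat_lit 20) nil nil)) (node (nat_lit 4) (nat_lit 0) (nat_lit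
  19) (node (nat_lit 5) (nat_lit 0) (nat_lit 20) (node (nat_lit 7) (nat_lit 100995) (nat_lit 21)
  (node (nat_lit 4) (nat_lit 78136) (nat_lit 22) (node (nat_lit 5) (nat_lit 77971) (nat_lit 23)
  (node (nat_lit 4) (nat_lit 77602) (nat_lit 24) (node (nat_lit 7) (nat_lit 77599) (nat_lit 25)
  (node (nat_lit 5) (nat_lit 76549) (nat_lit 26) (node (nat_lit 4) (nat_lit 75306) (nat_lit 27)
  nil nil) nil) nil) nil) (node (nat_lit 7) (nat_lit 78323) (nat_lit 23) (node (nat_lit 5)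
  (nat_lit 78666) (nat_lit 24) nil nil) nil)) (node (nat_lit 5) (nat_lit 101454) (nat_lit 22)
  (node (nat_lit 4) (nat_lit 101195) (nat_lit 23) nil nil) nil)) (node (nat_lit 0) (nat_lit
  111104) (nat_lit 21) nil nil)) (node (nat_lit 0) (nat_lit 115390) (nat_lit 20) nil nil)) (node
  (nat_lit 0) (nat_lit 126990) (nat_lit 19) nil nil))) (node (nat_lit 0) (nat_lit 128466) (nat_lit
  18) nil nil)) (node (nat_lit 0) (nat_lit 132699) (nat_lit 17) nil nil)) (node (nat_lit 0)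
  (nat_lit 137387) (nat_lit 16) (node (nat_lit 5) (nat_lit 137387) (nat_lit 17) nil (node (nat_lit
  4) (nat_lit 137387) (nat_lit 17) nil nil)) nil))) (node (nat_lit 0) (nat_lit 137387) (nat_lit
  15) (node (nat_lit 7) (nat_lit 137387) (nat_lit 16) (node (nat_lit 4) (nat_lit 137387) (nat_lit
  17) nil nil) (node (nat_lit 4) (nat_lit 137387) (nat_lit 16) nil (node (nat_lit 5) (nat_lit
  137387) (nat_lit 16) nil nil))) nil)) (node (nat_lit 0) (nat_lit 137387) (nat_lit 14) (node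
  (nat_lit 5) (nat_lit 137387) (nat_lit 15) (node (nat_lit 4) (nat_lit 137387) (nat_lit 16) nil
  (node (nat_lit 7) (nat_lit 137387) (nat_lit 16) nil nil)) (node (nat_lit 4) (nat_lit 137387)
  (nat_lit 15) (node (nat_lit 7) (nat_lit 137387) (nat_lit 16) nil (node (nat_lit 5) (nat_lit
  137387) (nat_lit 16) nil nil)) (node (nat_lit 7) (nat_lit 137387) (nat_lit 15) (node (nat_lit 4)
  (nat_lit 137387) (nat_lit 16) nil (node (nat_lit 5) (nat_lit 137387) (nat_lit 16) nil nil))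
  nil))) nil)) (node (nat_lit 0) (nat_lit 137387) (nat_lit 13) (node (nat_lit 5) (nat_lit 137387)
  (nat_lit 14) (node (nat_lit 4) (nat_lit 137387) (nat_lit 15) (node (nat_lit 7) (nat_lit 137387)
  (nat_lit 16) nil (node (nat_lit 5) (nat_lit 137387) (nat_lit 16) nil nil)) (node (nat_lit 7)
  (nat_lit 137387) (nat_lit 15) nil nil)) (node (nat_lit 4) (nat_lit 137387) (nat_lit 14) (node
  (nat_lit 5) (nat_lit 137387) (nat_lit 15) (node (nat_lit 4) (nat_lit 137387) (nat_lit 16) (node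
  (nat_lit 7) (nat_lit 137387) (nat_lit 17) (node (nat_lit 5) (nat_lit 137387) (nat_lit 18) (node
  (nat_lit 4) (nat_lit 137387) (nat_lit 19) (node (nat_lit 5) (nat_lit 137387) (nat_lit 20) (node
  (nat_lit 7) (nat_lit 137387) (nat_lit 21) (node (nat_lit 4) (nat_lit 137387) (nat_lit 22) nil
  nil) nil) nil) nil) nil) nil) (node (nat_lit 7) (nat_lit 137387) (nat_lit 16) nil nil)) (node
  (nat_lit 7) (nat_lit 137387) (nat_lit 15) (node (nat_lit 5) (nat_lit 137387) (nat_lit 16) nil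
  nil) nil)) (node (nat_lit 7) (nat_lit 137387) (nat_lit 14) (node (nat_lit 5) (nat_lit 137387)
  (nat_lit 15) nil (node (nat_lit 4) (nat_lit 137387) (nat_lit 15) nil nil)) (node (nat_lit 0)
  (nat_lit 137387) (nat_lit 14) nil nil)))) (node (nat_lit 5) (nat_lit 0) (nat_lit 13) (node
  (nat_lit 0) (nat_lit 137387) (nat_lit 14) (node (nat_lit 4) (nat_lit 137387) (nat_lit 15) (node
  (nat_lit 5) (nat_lit 137387) (nat_lit 16) (node (nat_lit 4) (nat_lit 137387) (nat_lit 17) (node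
  (nat_lit 7) (nat_lit 137387) (nat_lit 18) (node (nat_lit 5) (nat_lit 137387) (nat_lit 19) (node
  (nat_lit 4) (nat_lit 137387) (nat_lit 20) (node (nat_lit 5) (nat_lit 137387) (nat_lit 21) (node
  (nat_lit 7) (nat_lit 137387) (nat_lit 22) (node (nat_lit 4) (nat_lit 137387) (nat_lit 23) (node
  (nat_lit 7) (nat_lit 137387) (nat_lit 24) nil nil) nil) nil) nil) nil) nil) nil) nil) (node
  (nat_lit 7) (nat_lit 137387) (nat_lit 16) nil nil)) (node (nat_lit 5) (nat_lit 137387) (nat_lit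
  15) (node (nat_lit 4) (nat_lit 137387) (nat_lit 16) nil (node (nat_lit 7) (nat_lit 137387)
  (nat_lit 16) nil nil)) (node (nat_lit 7) (nat_lit 137387) (nat_lit 15) (node (nat_lit 5)
  (nat_lit 137387) (nat_lit 16) nil (node (nat_lit 4) (nat_lit 137387) (nat_lit 16) nil nil))
  nil))) nil) nil))) (node (nat_lit 7) (nat_lit 0) (nat_lit 12) (node (nat_lit 4) (nat_lit 0)
  (nat_lit 13) (node (nat_lit 5) (nat_lit 0) (nat_lit 14) (node (nat_lit 4) (nat_lit 0) (nat_lit
  15) (node (nat_lit 7) (nat_lit 0) (nat_lit 16) (node (nat_lit 5) (nat_lit 0) (nat_lit 17) (node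
  (nat_lit 4) (nat_lit 0) (nat_lit 18) (node (nat_lit 5) (nat_lit 0) (nat_lit 19) (node (nat_lit
  7) (nat_lit 0) (nat_lit 20) (node (nat_lit 5) (nat_lit 95407) (nat_lit 21) (node (nat_lit 4)
  (nat_lit 96033) (nat_lit 22) (node (nat_lit 7) (nat_lit 96521) (nat_lit 23) (node (nat_lit 4)
  (nat_lit 97200) (nat_lit 24) (node (nat_lit 5) (nat_lit 97650) (nat_lit 25) (node (nat_lit 4)
  (nat_lit 97813) (nat_lit 26) (node (nat_lit 7) (nat_lit 97907) (nat_lit 27) (node (nat_lit 5)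
  (nat_lit 97216) (nat_lit 28) (node (nat_lit 4) (nat_lit 92830) (nat_lit 29) (node (nat_lit 5)
  (nat_lit 92341) (nat_lit 30) (node (nat_lit 7) (nat_lit 89955) (nat_lit 31) (node (nat_lit 4)
  (nat_lit 89209) (nat_lit 32) (node (nat_lit 7) (nat_lit 85093) (nat_lit 33) (node (nat_lit 5)
  (nat_lit 81851) (nat_lit 34) (node (nat_lit 7) (nat_lit 80345) (nat_lit 35) (node (nat_lit 4)
  (nat_lit 71611) (nat_lit 36) (node (nat_lit 5) (nat_lit 64382) (nat_lit 37) (node (nat_lit 4)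
  (nat_lit 61300) (nat_lit 38) (node (nat_lit 7) (nat_lit 64732) (nat_lit 39) (node (nat_lit 5)
  (nat_lit 54104) (nat_lit 40) (node (nat_lit 4) (nat_lit 54467) (nat_lit 41) (node (nat_lit 5)
  (nat_lit 30377) (nat_lit 42) (node (nat_lit 7) (nat_lit 8370) (nat_lit 43) (node (nat_lit 5)
  (nat_lit 12044) (nat_lit 44) nil nil) nil) nil) nil) nil) nil) nil) nil) nil) nil) nil) nil)
  nil) nil) nil) nil) nil) nil) nil) nil) (node (nat_lit 5) (nat_lit 96319) (nat_lit 24) nil nil))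
  nil) nil) (node (nat_lit 4) (nat_lit 95324) (nat_lit 21) (node (nat_lit 5) (nat_lit 95651)
  (nat_lit 22) (node (nat_lit 4) (nat_lit 95808) (nat_lit 23) (node (nat_lit 7) (nat_lit 95818)
  (nat_lit 24) (node (nat_lit 5) (nat_lit 94939) (nat_lit 25) nil nil) nil) nil) (node (nat_lit 7)
  (nat_lit 56087) (nat_lit 22) nil nil)) (node (nat_lit 0) (nat_lit 96460) (nat_lit 21) nil nil)))
  (node (nat_lit 0) (nat_lit 100580) (nat_lit 20) nil nil)) (node (nat_lit 0) (nat_lit 100786)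
  (nat_lit 19) nil nil)) (node (nat_lit 7) (nat_lit 0) (nat_lit 18) (node (nat_lit 4) (nat_lit 0)
  (nat_lit 19) (node (nat_lit 7) (nat_lit 114873) (nat_lit 20) (node (nat_lit 5) (nat_lit 116252)
  (nat_lit 21) (node (nat_lit 4) (nat_lit 117553) (nat_lit 22) (node (nat_lit 7) (nat_lit 118423)
  (nat_lit 23) (node (nat_lit 4) (nat_lit 118986) (nat_lit 24) (node (nat_lit 5) (nat_lit 119293)
  (nat_lit 25) nil nil) nil) (node (nat_lit 5) (nat_lit 117674) (nat_lit 23) (node (nat_lit 7)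
  (nat_lit 117276) (nat_lit 24) nil nil) nil)) nil) nil) (node (nat_lit 0) (nat_lit 118535)
  (nat_lit 20) nil nil)) (node (nat_lit 0) (nat_lit 119867) (nat_lit 19) nil nil)) (node (nat_lit
  0) (nat_lit 120588) (nat_lit 18) nil nil))) (node (nat_lit 4) (nat_lit 0) (nat_lit 17) (node
  (nat_lit 5) (nat_lit 0) (nat_lit 18) (node (nat_lit 7) (nat_lit 0) (nat_lit 19) (node (nat_lit
  5) (nat_lit 0) (nat_lit 20) (node (nat_lit 4) (nat_lit 129494) (nat_lit 21) (node (nat_lit 7)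
  (nat_lit 129213) (nat_lit 22) (node (nat_lit 4) (nat_lit 129104) (nat_lit 23) (node (nat_lit 5)
  (nat_lit 128998) (nat_lit 24) (node (nat_lit 4) (nat_lit 128672) (nat_lit 25) (node (nat_lit 7)
  (nat_lit 128645) (nat_lit 26) (node (nat_lit 5) (nat_lit 128025) (nat_lit 27) (node (nat_lit 4)
  (nat_lit 127364) (nat_lit 28) (node (nat_lit 5) (nat_lit 126967) (nat_lit 29) (node (nat_lit 7)
  (nat_lit 123957) (nat_lit 30) (node (nat_lit 4) (nat_lit 123042) (nat_lit 31) (node (nat_lit 7)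
  (nat_lit 117752) (nat_lit 32) (node (nat_lit 5) (nat_lit 113683) (nat_lit 33) (node (nat_lit 7)
  (nat_lit 110811) (nat_lit 34) (node (nat_lit 4) (nat_lit 100737) (nat_lit 35) (node (nat_lit 5)
  (nat_lit 94273) (nat_lit 36) (node (nat_lit 4) (nat_lit 88291) (nat_lit 37) (node (nat_lit 7)
  (nat_lit 81645) (nat_lit 38) (node (nat_lit 4) (nat_lit 82412) (nat_lit 39) (node (nat_lit 5)
  (nat_lit 58262) (nat_lit 40) (node (nat_lit 7) (nat_lit 45205) (nat_lit 41) (node (nat_lit 5)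
  (nat_lit 46102) (nat_lit 42) nil nil) nil) nil) nil) nil) nil) nil) nil) nil) nil) nil) nil)
  nil) nil) nil) nil) nil) nil) nil) (node (nat_lit 5) (nat_lit 129104) (nat_lit 23) nil nil))
  (node (nat_lit 5) (nat_lit 129356) (nat_lit 22) (node (nat_lit 7) (nat_lit 129468) (nat_lit 23)
  (node (nat_lit 4) (nat_lit 129393) (nat_lit 24) nil nil) nil) nil)) (node (nat_lit 0) (nat_lit
  130304) (nat_lit 21) nil nil)) (node (nat_lit 4) (nat_lit 127169) (nat_lit 20) (node (nat_lit 7)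
  (nat_lit 128675) (nat_lit 21) (node (nat_lit 5) (nat_lit 129142) (nat_lit 22) (node (nat_lit 7)
  (nat_lit 129892) (nat_lit 23) (node (nat_lit 4) (nat_lit 129816) (nat_lit 24) (node (nat_lit 5)
  (nat_lit 129733) (nat_lit 25) nil nil) nil) nil) nil) nil) (node (nat_lit 0) (nat_lit 130203)
  (nat_lit 20) nil nil))) (node (nat_lit 0) (nat_lit 128952) (nat_lit 19) nil nil)) (node (nat_lit
  0) (nat_lit 128500) (nat_lit 18) nil nil)) (node (nat_lit 0) (nat_lit 129203) (nat_lit 17) nil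
  nil))) (node (nat_lit 0) (nat_lit 130983) (nat_lit 16) (node (nat_lit 5) (nat_lit 130983)
  (nat_lit 17) nil (node (nat_lit 4) (nat_lit 130983) (nat_lit 17) nil nil)) nil)) (node (nat_lit
  7) (nat_lit 0) (nat_lit 15) (node (nat_lit 5) (nat_lit 0) (nat_lit 16) (node (nat_lit 4)
  (nat_lit 0) (nat_lit 17) (node (nat_lit 7) (nat_lit 0) (nat_lit 18) (node (nat_lit 5) (nat_lit
  127510) (nat_lit 19) (node (nat_lit 7) (nat_lit 130061) (nat_lit 20) (node (nat_lit 4) (nat_lit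
  131708) (nat_lit 21) (node (nat_lit 5) (nat_lit 132291) (nat_lit 22) (node (nat_lit 4) (nat_lit
  133020) (nat_lit 23) (node (nat_lit 7) (nat_lit 133279) (nat_lit 24) (node (nat_lit 5) (nat_lit
  131722) (nat_lit 25) (node (nat_lit 4) (nat_lit 129239) (nat_lit 26) (node (nat_lit 5) (nat_lit
  128389) (nat_lit 27) (node (nat_lit 7) (nat_lit 125877) (nat_lit 28) (node (nat_lit 4) (nat_lit
  121415) (nat_lit 29) (node (nat_lit 7) (nat_lit 112370) (nat_lit 30) (node (nat_lit 5) (nat_lit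
  111703) (nat_lit 31) (node (nat_lit 7) (nat_lit 99369) (nat_lit 32) (node (nat_lit 4) (nat_lit
  109292) (nat_lit 33) (node (nat_lit 5) (nat_lit 96407) (nat_lit 34) (node (nat_lit 7) (nat_lit
  58419) (nat_lit 35) (node (nat_lit 5) (nat_lit 58426) (nat_lit 36) (node (nat_lit 4) (nat_lit
  58436) (nat_lit 37) (node (nat_lit 7) (nat_lit 36714) (nat_lit 38) nil nil) nil) nil) nil) nil)
  nil) nil) nil) nil) nil) nil) nil) nil) nil) nil) nil) (node (nat_lit 7) (nat_lit 132164)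
  (nat_lit 22) (node (nat_lit 5) (nat_lit 131906) (nat_lit 23) nil nil) nil)) nil) nil) (node
  (nat_lit 4) (nat_lit 0) (nat_lit 19) (node (nat_lit 5) (nat_lit 130291) (nat_lit 20) (node
  (nat_lit 4) (nat_lit 126198) (nat_lit 21) (node (nat_lit 7) (nat_lit 127595) (nat_lit 22) (node
  (nat_lit 5) (nat_lit 126174) (nat_lit 23) (node (nat_lit 4) (nat_lit 125132) (nat_lit 24) (node
  (nat_lit 5) (nat_lit 124830) (nat_lit 25) (node (nat_lit 7) (nat_lit 120602) (nat_lit 26) (node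
  (nat_lit 4) (nat_lit 113395) (nat_lit 27) (node (nat_lit 7) (nat_lit 98363) (nat_lit 28) (node
  (nat_lit 5) (nat_lit 95461) (nat_lit 29) (node (nat_lit 7) (nat_lit 88458) (nat_lit 30) (node
  (nat_lit 4) (nat_lit 76075) (nat_lit 31) (node (nat_lit 5) (nat_lit 68843) (nat_lit 32) (node
  (nat_lit 7) (nat_lit 55796) (nat_lit 33) (node (nat_lit 5) (nat_lit 56700) (nat_lit 34) nil nil)
  nil) nil) nil) nil) nil) nil) nil) nil) nil) nil) nil) nil) (node (nat_lit 7) (nat_lit 131848)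
  (nat_lit 21) (node (nat_lit 4) (nat_lit 132791) (nat_lit 22) (node (nat_lit 7) (nat_lit 133149)
  (nat_lit 23) nil nil) nil) nil)) (node (nat_lit 0) (nat_lit 134249) (nat_lit 20) nil nil)) (node
  (nat_lit 0) (nat_lit 133363) (nat_lit 19) nil nil))) (node (nat_lit 5) (nat_lit 0) (nat_lit 18)
  (node (nat_lit 7) (nat_lit 0) (nat_lit 19) (node (nat_lit 4) (nat_lit 130801) (nat_lit 20) (node
  (nat_lit 5) (nat_lit 131362) (nat_lit 21) (node (nat_lit 4) (nat_lit 131269) (nat_lit 22) (node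
  (nat_lit 7) (nat_lit 130383) (nat_lit 23) (node (nat_lit 5) (nat_lit 127691) (nat_lit 24) (node
  (nat_lit 4) (nat_lit 126970) (nat_lit 25) (node (nat_lit 5) (nat_lit 123645) (nat_lit 26) (node
  (nat_lit 7) (nat_lit 117083) (nat_lit 27) (node (nat_lit 4) (nat_lit 101366) (nat_lit 28) (node
  (nat_lit 7) (nat_lit 98830) (nat_lit 29) (node (nat_lit 5) (nat_lit 98896) (nat_lit 30) (node
  (nat_lit 7) (nat_lit 96715) (nat_lit 31) (node (nat_lit 4) (nat_lit 99009) (nat_lit 32) (node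
  (nat_lit 5) (nat_lit 90062) (nat_lit 33) (node (nat_lit 7) (nat_lit 90617) (nat_lit 34) (node
  (nat_lit 5) (nat_lit 62207) (nat_lit 35) nil nil) nil) nil) nil) nil) nil) nil) nil) nil) nil)
  nil) nil) nil) nil) (node (nat_lit 7) (nat_lit 132679) (nat_lit 21) (node (nat_lit 5) (nat_lit
  133333) (nat_lit 22) (node (nat_lit 7) (nat_lit 134310) (nat_lit 23) (node (nat_lit 4) (nat_lit
  134822) (nat_lit 24) nil nil) (node (nat_lit 4) (nat_lit 133075) (nat_lit 23) nil nil)) nil)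
  nil)) (node (nat_lit 0) (nat_lit 132034) (nat_lit 20) nil nil)) (node (nat_lit 0) (nat_lit
  129911) (nat_lit 19) nil nil)) (node (nat_lit 0) (nat_lit 135722) (nat_lit 18) nil nil))) (node
  (nat_lit 0) (nat_lit 135757) (nat_lit 17) nil nil)) (node (nat_lit 0) (nat_lit 137132) (nat_lit
  16) nil nil)) (node (nat_lit 0) (nat_lit 137387) (nat_lit 15) (node (nat_lit 4) (nat_lit 137387)
  (nat_lit 16) nil (node (nat_lit 5) (nat_lit 137387) (nat_lit 16) nil (node (nat_lit 7) (nat_lit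
  137387) (nat_lit 16) nil nil))) nil))) (node (nat_lit 0) (nat_lit 137387) (nat_lit 14) (node
  (nat_lit 5) (nat_lit 137387) (nat_lit 15) nil (node (nat_lit 4) (nat_lit 137387) (nat_lit 15)
  nil (node (nat_lit 7) (nat_lit 137387) (nat_lit 15) nil nil))) nil)) (node (nat_lit 0) (nat_lit
  137387) (nat_lit 13) (node (nat_lit 5) (nat_lit 137387) (nat_lit 14) (node (nat_lit 4) (nat_lit
  137387) (nat_lit 15) nil (node (nat_lit 7) (nat_lit 137387) (nat_lit 15) (node (nat_lit 5)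
  (nat_lit 137387) (nat_lit 16) nil (node (nat_lit 4) (nat_lit 137387) (nat_lit 16) nil nil))
  nil)) (node (nat_lit 7) (nat_lit 137387) (nat_lit 14) (node (nat_lit 5) (nat_lit 137387)
  (nat_lit 15) nil (node (nat_lit 4) (nat_lit 137387) (nat_lit 15) nil nil)) (node (nat_lit 4)
  (nat_lit 137387) (nat_lit 14) nil nil))) nil)) (node (nat_lit 0) (nat_lit 137387) (nat_lit 12)
  (node (nat_lit 7) (nat_lit 137387) (nat_lit 13) (node (nat_lit 5) (nat_lit 137387) (nat_lit 14)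
  (node (nat_lit 7) (nat_lit 137387) (nat_lit 15) (node (nat_lit 4) (nat_lit 137387) (nat_lit 16)
  nil nil) (node (nat_lit 4) (nat_lit 137387) (nat_lit 15) nil nil)) (node (nat_lit 4) (nat_lit
  137387) (nat_lit 14) (node (nat_lit 5) (nat_lit 137387) (nat_lit 15) (node (nat_lit 4) (nat_lit
  137387) (nat_lit 16) (node (nat_lit 7) (nat_lit 137387) (nat_lit 17) (node (nat_lit 5) (nat_lit
  137387) (nat_lit 18) (node (nat_lit 4) (nat_lit 137387) (nat_lit 19) (node (nat_lit 5) (nat_lit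
  137387) (nat_lit 20) nil nil) nil) nil) nil) nil) nil) nil)) (node (nat_lit 5) (nat_lit 137387)
  (nat_lit 13) (node (nat_lit 4) (nat_lit 137387) (nat_lit 14) (node (nat_lit 7) (nat_lit 137387)
  (nat_lit 15) nil (node (nat_lit 5) (nat_lit 137387) (nat_lit 15) nil nil)) (node (nat_lit 7)
  (nat_lit 137387) (nat_lit 14) (node (nat_lit 4) (nat_lit 137387) (nat_lit 15) nil (node (nat_lit
  5) (nat_lit 137387) (nat_lit 15) nil nil)) nil)) (node (nat_lit 4) (nat_lit 137387) (nat_lit 13)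
  (node (nat_lit 5) (nat_lit 137387) (nat_lit 14) (node (nat_lit 4) (nat_lit 137387) (nat_lit 15)
  (node (nat_lit 7) (nat_lit 137387) (nat_lit 16) (node (nat_lit 5) (nat_lit 137387) (nat_lit 17)
  (node (nat_lit 4) (nat_lit 137387) (nat_lit 18) (node (nat_lit 5) (nat_lit 137387) (nat_lit 19)
  (node (nat_lit 7) (nat_lit 137387) (nat_lit 20) (node (nat_lit 4) (nat_lit 137387) (nat_lit 21)
  nil nil) nil) nil) nil) nil) nil) (node (nat_lit 7) (nat_lit 137387) (nat_lit 15) nil nil))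
  (node (nat_lit 7) (nat_lit 137387) (nat_lit 14) (node (nat_lit 5) (nat_lit 137387) (nat_lit 15)
  nil (node (nat_lit 4) (nat_lit 137387) (nat_lit 15) nil nil)) nil)) (node (nat_lit 0) (nat_lit
  137387) (nat_lit 13) nil nil)))) nil)))

noncomputable def t96 : Tr :=
  (node (nat_lit 7) (nat_lit 0) (nat_lit 12) (node (nat_lit 4) (nat_lit 0) (nat_lit 13) (node
  (nat_lit 5) (nat_lit 0) (nat_lit 14) (node (nat_lit 7) (nat_lit 0) (nat_lit 15) (node (nat_lit
  5) (nat_lit 0) (nat_lit 16) (node (nat_lit 4) (nat_lit 0) (nat_lit 17) (node (nat_lit 7)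
  (nat_lit 0) (nat_lit 18) (node (nat_lit 5) (nat_lit 0) (nat_lit 19) (node (nat_lit 7) (nat_lit
  0) (nat_lit 20) (node (nat_lit 4) (nat_lit 0) (nat_lit 21) (node (nat_lit 5) (nat_lit 104088)
  (nat_lit 22) (node (nat_lit 4) (nat_lit 104180) (nat_lit 23) (node (nat_lit 7) (nat_lit 104560)
  (nat_lit 24) (node (nat_lit 5) (nat_lit 102869) (nat_lit 25) (node (nat_lit 4) (nat_lit 100434)
  (nat_lit 26) (node (nat_lit 5) (nat_lit 97724) (nat_lit 27) (node (nat_lit 7) (nat_lit 98443)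
  (nat_lit 28) (node (nat_lit 4) (nat_lit 92145) (nat_lit 29) (node (nat_lit 5) (nat_lit 91117)
  (nat_lit 30) (node (nat_lit 4) (nat_lit 82598) (nat_lit 31) (node (nat_lit 7) (nat_lit 71405)
  (nat_lit 32) (node (nat_lit 4) (nat_lit 83013) (nat_lit 33) (node (nat_lit 5) (nat_lit 69478)
  (nat_lit 34) (node (nat_lit 7) (nat_lit 53978) (nat_lit 35) (node (nat_lit 5) (nat_lit 42277)
  (nat_lit 36) (node (nat_lit 4) (nat_lit 42940) (nat_lit 37) (node (nat_lit 7) (nat_lit 8750)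
  (nat_lit 38) nil nil) nil) nil) nil) nil) nil) nil) nil) nil) nil) nil) nil) nil) (node (nat_lit
  4) (nat_lit 103754) (nat_lit 25) nil nil)) nil) (node (nat_lit 7) (nat_lit 104824) (nat_lit 23)
  nil nil)) (node (nat_lit 7) (nat_lit 105353) (nat_lit 22) (node (nat_lit 5) (nat_lit 106051)
  (nat_lit 23) (node (nat_lit 4) (nat_lit 106168) (nat_lit 24) (node (nat_lit 5) (nat_lit 106011)
  (nat_lit 25) nil (node (nat_lit 7) (nat_lit 105858) (nat_lit 25) nil nil)) nil) nil) (node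
  (nat_lit 0) (nat_lit 105930) (nat_lit 22) nil nil))) (node (nat_lit 0) (nat_lit 107698) (nat_lit
  21) nil nil)) (node (nat_lit 0) (nat_lit 109048) (nat_lit 20) nil nil)) (node (nat_lit 4)
  (nat_lit 0) (nat_lit 19) (node (nat_lit 5) (nat_lit 0) (nat_lit 20) (node (nat_lit 4) (nat_lit
  100050) (nat_lit 21) (node (nat_lit 7) (nat_lit 101600) (nat_lit 22) (node (nat_lit 5) (nat_lit
  101533) (nat_lit 23) (node (nat_lit 4) (nat_lit 97157) (nat_lit 24) (node (nat_lit 5) (nat_lit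
  92554) (nat_lit 25) (node (nat_lit 7) (nat_lit 88913) (nat_lit 26) (node (nat_lit 4) (nat_lit
  83052) (nat_lit 27) (node (nat_lit 5) (nat_lit 76466) (nat_lit 28) (node (nat_lit 4) (nat_lit
  70866) (nat_lit 29) (node (nat_lit 7) (nat_lit 64194) (nat_lit 30) (node (nat_lit 4) (nat_lit
  64951) (nat_lit 31) nil nil) nil) nil) nil) nil) nil) nil) (node (nat_lit 7) (nat_lit 102304)
  (nat_lit 24) (node (nat_lit 4) (nat_lit 102923) (nat_lit 25) (node (nat_lit 5) (nat_lit 103235)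
  (nat_lit 26) nil nil) nil) nil)) nil) nil) (node (nat_lit 0) (nat_lit 105695) (nat_lit 21) nil
  nil)) (node (nat_lit 0) (nat_lit 107330) (nat_lit 20) nil nil)) (node (nat_lit 0) (nat_lit
  107242) (nat_lit 19) nil nil))) (node (nat_lit 5) (nat_lit 0) (nat_lit 18) (node (nat_lit 7)
  (nat_lit 100566) (nat_lit 19) (node (nat_lit 4) (nat_lit 102450) (nat_lit 20) (node (nat_lit 7)
  (nat_lit 104074) (nat_lit 21) (node (nat_lit 5) (nat_lit 104915) (nat_lit 22) (node (nat_lit 7)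
  (nat_lit 105942) (nat_lit 23) (node (nat_lit 4) (nat_lit 106551) (nat_lit 24) (node (nat_lit 5)
  (nat_lit 106760) (nat_lit 25) (node (nat_lit 4) (nat_lit 106765) (nat_lit 26) (node (nat_lit 7)
  (nat_lit 106321) (nat_lit 27) (node (nat_lit 5) (nat_lit 105606) (nat_lit 28) (node (nat_lit 4)
  (nat_lit 104366) (nat_lit 29) (node (nat_lit 5) (nat_lit 104213) (nat_lit 30) (node (nat_lit 7)
  (nat_lit 102851) (nat_lit 31) (node (nat_lit 4) (nat_lit 93535) (nat_lit 32) (node (nat_lit 5)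
  (nat_lit 95640) (nat_lit 33) (node (nat_lit 4) (nat_lit 92635) (nat_lit 34) (node (nat_lit 7)
  (nat_lit 90609) (nat_lit 35) (node (nat_lit 4) (nat_lit 90738) (nat_lit 36) (node (nat_lit 5)
  (nat_lit 82171) (nat_lit 37) (node (nat_lit 7) (nat_lit 77541) (nat_lit 38) (node (nat_lit 5)
  (nat_lit 71580) (nat_lit 39) (node (nat_lit 4) (nat_lit 64929) (nat_lit 40) (node (nat_lit 5)
  (nat_lit 58298) (nat_lit 41) (node (nat_lit 7) (nat_lit 42476) (nat_lit 42) (node (nat_lit 4)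
  (nat_lit 43146) (nat_lit 43) (node (nat_lit 7) (nat_lit 8951) (nat_lit 44) nil nil) nil) nil)
  nil) nil) nil) nil) nil) nil) nil) nil) nil) nil) nil) nil) nil) nil) nil) nil) nil) nil) (node
  (nat_lit 4) (nat_lit 104657) (nat_lit 23) nil nil)) nil) (node (nat_lit 5) (nat_lit 103298)
  (nat_lit 21) (node (nat_lit 4) (nat_lit 103859) (nat_lit 22) (node (nat_lit 7) (nat_lit 104492)
  (nat_lit 23) (node (nat_lit 5) (nat_lit 105045) (nat_lit 24) (node (nat_lit 4) (nat_lit 105557)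
  (nat_lit 25) (node (nat_lit 5) (nat_lit 105795) (nat_lit 26) (node (nat_lit 7) (nat_lit 100406)
  (nat_lit 27) (node (nat_lit 4) (nat_lit 92627) (nat_lit 28) (node (nat_lit 5) (nat_lit 64263)
  (nat_lit 29) nil nil) nil) nil) nil) nil) nil) nil) nil) nil)) nil) (node (nat_lit 0) (nat_lit
  105206) (nat_lit 19) nil nil)) (node (nat_lit 0) (nat_lit 109194) (nat_lit 18) nil nil))) (node
  (nat_lit 0) (nat_lit 110015) (nat_lit 17) nil nil)) (node (nat_lit 4) (nat_lit 0) (nat_lit 16)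
  (node (nat_lit 7) (nat_lit 0) (nat_lit 17) (node (nat_lit 5) (nat_lit 0) (nat_lit 18) (node
  (nat_lit 4) (nat_lit 0) (nat_lit 19) (node (nat_lit 7) (nat_lit 102709) (nat_lit 20) (node
  (nat_lit 4) (nat_lit 104014) (nat_lit 21) (node (nat_lit 5) (nat_lit 104698) (nat_lit 22) (node
  (nat_lit 4) (nat_lit 104386) (nat_lit 23) (node (nat_lit 7) (nat_lit 106278) (nat_lit 24) (node
  (nat_lit 5) (nat_lit 104731) (nat_lit 25) (node (nat_lit 4) (nat_lit 101239) (nat_lit 26) (node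
  (nat_lit 5) (nat_lit 100097) (nat_lit 27) (node (nat_lit 7) (nat_lit 98116) (nat_lit 28) (node
  (nat_lit 4) (nat_lit 92008) (nat_lit 29) (node (nat_lit 5) (nat_lit 88106) (nat_lit 30) (node
  (nat_lit 4) (nat_lit 79800) (nat_lit 31) (node (nat_lit 7) (nat_lit 71757) (nat_lit 32) (node
  (nat_lit 4) (nat_lit 68553) (nat_lit 33) (node (nat_lit 5) (nat_lit 72236) (nat_lit 34) (node
  (nat_lit 7) (nat_lit 54896) (nat_lit 35) nil nil) nil) nil) nil) nil) nil) nil) nil) nil) nil)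
  nil) nil) (node (nat_lit 7) (nat_lit 105434) (nat_lit 23) nil nil)) nil) nil) (node (nat_lit 5)
  (nat_lit 102624) (nat_lit 20) (node (nat_lit 7) (nat_lit 103843) (nat_lit 21) (node (nat_lit 4)
  (nat_lit 104665) (nat_lit 22) (node (nat_lit 5) (nat_lit 105181) (nat_lit 23) nil nil) (node
  (nat_lit 5) (nat_lit 104302) (nat_lit 22) nil nil)) nil) (node (nat_lit 0) (nat_lit 103099)
  (nat_lit 20) nil nil))) (node (nat_lit 7) (nat_lit 0) (nat_lit 19) (node (nat_lit 4) (nat_lit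
  102135) (nat_lit 20) (node (nat_lit 5) (nat_lit 102578) (nat_lit 21) (node (nat_lit 4) (nat_lit
  102176) (nat_lit 22) (node (nat_lit 7) (nat_lit 101610) (nat_lit 23) (node (nat_lit 5) (nat_lit
  98904) (nat_lit 24) (node (nat_lit 4) (nat_lit 97425) (nat_lit 25) (node (nat_lit 5) (nat_lit
  96085) (nat_lit 26) (node (nat_lit 7) (nat_lit 94803) (nat_lit 27) (node (nat_lit 4) (nat_lit
  90446) (nat_lit 28) (node (nat_lit 5) (nat_lit 81519) (nat_lit 29) (node (nat_lit 4) (nat_lit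
  72482) (nat_lit 30) (node (nat_lit 7) (nat_lit 72999) (nat_lit 31) (node (nat_lit 4) (nat_lit
  59210) (nat_lit 32) (node (nat_lit 5) (nat_lit 59176) (nat_lit 33) (node (nat_lit 7) (nat_lit
  43892) (nat_lit 34) (node (nat_lit 4) (nat_lit 44571) (nat_lit 35) (node (nat_lit 7) (nat_lit
  10381) (nat_lit 36) nil nil) nil) nil) nil) nil) nil) nil) nil) nil) nil) nil) nil) nil) nil)
  (node (nat_lit 7) (nat_lit 103653) (nat_lit 22) (node (nat_lit 5) (nat_lit 104067) (nat_lit 23)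
  nil nil) nil)) nil) (node (nat_lit 0) (nat_lit 103245) (nat_lit 20) nil nil)) (node (nat_lit 0)
  (nat_lit 105009) (nat_lit 19) nil nil))) (node (nat_lit 0) (nat_lit 105997) (nat_lit 18) nil
  nil)) (node (nat_lit 0) (nat_lit 109546) (nat_lit 17) nil nil)) (node (nat_lit 0) (nat_lit
  107685) (nat_lit 16) nil nil))) (node (nat_lit 0) (nat_lit 107462) (nat_lit 15) (node (nat_lit
  5) (nat_lit 107462) (nat_lit 16) nil nil) nil)) (node (nat_lit 0) (nat_lit 106371) (nat_lit 14)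
  (node (nat_lit 5) (nat_lit 106371) (nat_lit 15) nil (node (nat_lit 7) (nat_lit 106371) (nat_lit
  15) nil (node (nat_lit 4) (nat_lit 106371) (nat_lit 15) nil nil))) nil)) (node (nat_lit 5)
  (nat_lit 0) (nat_lit 13) (node (nat_lit 7) (nat_lit 0) (nat_lit 14) (node (nat_lit 4) (nat_lit
  0) (nat_lit 15) (node (nat_lit 5) (nat_lit 0) (nat_lit 16) (node (nat_lit 7) (nat_lit 0)
  (nat_lit 17) (node (nat_lit 5) (nat_lit 0) (nat_lit 18) (node (nat_lit 4) (nat_lit 0) (nat_lit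
  19) (node (nat_lit 7) (nat_lit 104701) (nat_lit 20) (node (nat_lit 5) (nat_lit 106496) (nat_lit
  21) (node (nat_lit 7) (nat_lit 107762) (nat_lit 22) (node (nat_lit 4) (nat_lit 108706) (nat_lit
  23) (node (nat_lit 5) (nat_lit 108627) (nat_lit 24) (node (nat_lit 4) (nat_lit 108468) (nat_lit
  25) (node (nat_lit 7) (nat_lit 108395) (nat_lit 26) (node (nat_lit 5) (nat_lit 108265) (nat_lit
  27) (node (nat_lit 4) (nat_lit 107217) (nat_lit 28) (node (nat_lit 5) (nat_lit 105576) (nat_lit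
  29) (node (nat_lit 7) (nat_lit 104069) (nat_lit 30) (node (nat_lit 4) (nat_lit 99842) (nat_lit
  31) (node (nat_lit 5) (nat_lit 98398) (nat_lit 32) (node (nat_lit 4) (nat_lit 98030) (nat_lit
  33) (node (nat_lit 7) (nat_lit 90740) (nat_lit 34) (node (nat_lit 5) (nat_lit 81529) (nat_lit
  35) (node (nat_lit 7) (nat_lit 72850) (nat_lit 36) (node (nat_lit 4) (nat_lit 81941) (nat_lit
  37) (node (nat_lit 5) (nat_lit 68401) (nat_lit 38) (node (nat_lit 7) (nat_lit 55424) (nat_lit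
  39) (node (nat_lit 5) (nat_lit 43720) (nat_lit 40) (node (nat_lit 4) (nat_lit 44386) (nat_lit
  41) (node (nat_lit 7) (nat_lit 10193) (nat_lit 42) nil nil) nil) nil) nil) nil) nil) nil) nil)
  nil) nil) nil) nil) nil) nil) nil) nil) nil) nil) nil) nil) nil) (node (nat_lit 4) (nat_lit
  105724) (nat_lit 21) (node (nat_lit 5) (nat_lit 107002) (nat_lit 22) (node (nat_lit 4) (nat_lit
  106786) (nat_lit 23) (node (nat_lit 7) (nat_lit 106779) (nat_lit 24) (node (nat_lit 5) (nat_lit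
  105510) (nat_lit 25) (node (nat_lit 4) (nat_lit 102719) (nat_lit 26) (node (nat_lit 5) (nat_lit
  102340) (nat_lit 27) (node (nat_lit 7) (nat_lit 99250) (nat_lit 28) (node (nat_lit 4) (nat_lit
  93659) (nat_lit 29) (node (nat_lit 5) (nat_lit 67908) (nat_lit 30) (node (nat_lit 4) (nat_lit
  65247) (nat_lit 31) (node (nat_lit 7) (nat_lit 60563) (nat_lit 32) (node (nat_lit 5) (nat_lit
  56730) (nat_lit 33) (node (nat_lit 7) (nat_lit 49618) (nat_lit 34) (node (nat_lit 4) (nat_lit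
  50014) (nat_lit 35) (node (nat_lit 5) (nat_lit 25941) (nat_lit 36) (node (nat_lit 7) (nat_lit
  4066) (nat_lit 37) (node (nat_lit 5) (nat_lit 7746) (nat_lit 38) nil nil) nil) nil) nil) nil)
  nil) nil) nil) nil) nil) nil) nil) nil) nil) nil) nil) nil) nil)) (node (nat_lit 5) (nat_lit 0)
  (nat_lit 20) (node (nat_lit 7) (nat_lit 105707) (nat_lit 21) (node (nat_lit 4) (nat_lit 106530)
  (nat_lit 22) (node (nat_lit 7) (nat_lit 106885) (nat_lit 23) nil nil) nil) (node (nat_lit 0)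
  (nat_lit 106641) (nat_lit 21) nil nil)) (node (nat_lit 0) (nat_lit 105183) (nat_lit 20) nil
  nil))) (node (nat_lit 0) (nat_lit 106517) (nat_lit 19) nil nil)) (node (nat_lit 0) (nat_lit
  107112) (nat_lit 18) nil nil)) (node (nat_lit 4) (nat_lit 0) (nat_lit 17) (node (nat_lit 0)
  (nat_lit 105002) (nat_lit 18) nil nil) (node (nat_lit 0) (nat_lit 108871) (nat_lit 17) nil
  nil))) (node (nat_lit 7) (nat_lit 0) (nat_lit 16) (node (nat_lit 5) (nat_lit 0) (nat_lit 17)
  (node (nat_lit 4) (nat_lit 0) (nat_lit 18) (node (nat_lit 5) (nat_lit 0) (nat_lit 19) (node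
  (nat_lit 7) (nat_lit 103721) (nat_lit 20) (node (nat_lit 4) (nat_lit 104888) (nat_lit 21) (node
  (nat_lit 5) (nat_lit 0) (nat_lit 22) (node (nat_lit 4) (nat_lit 105988) (nat_lit 23) (node
  (nat_lit 7) (nat_lit 106482) (nat_lit 24) (node (nat_lit 5) (nat_lit 106914) (nat_lit 25) (node
  (nat_lit 4) (nat_lit 107313) (nat_lit 26) (node (nat_lit 5) (nat_lit 106414) (nat_lit 27) (node
  (nat_lit 7) (nat_lit 103581) (nat_lit 28) (node (nat_lit 4) (nat_lit 96727) (nat_lit 29) nil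
  nil) nil) nil) nil) nil) nil) (node (nat_lit 0) (nat_lit 106957) (nat_lit 23) nil nil)) (node
  (nat_lit 7) (nat_lit 105344) (nat_lit 22) (node (nat_lit 5) (nat_lit 105086) (nat_lit 23) nil
  nil) nil)) (node (nat_lit 5) (nat_lit 105470) (nat_lit 21) (node (nat_lit 4) (nat_lit 105884)
  (nat_lit 22) (node (nat_lit 7) (nat_lit 106253) (nat_lit 23) (node (nat_lit 4) (nat_lit 106592)
  (nat_lit 24) (node (nat_lit 5) (nat_lit 106900) (nat_lit 25) (node (nat_lit 4) (nat_lit 107063)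
  (nat_lit 26) (node (nat_lit 7) (nat_lit 107156) (nat_lit 27) (node (nat_lit 5) (nat_lit 106982)
  (nat_lit 28) nil nil) nil) nil) nil) nil) nil) nil) nil)) (node (nat_lit 0) (nat_lit 107434)
  (nat_lit 20) nil nil)) (node (nat_lit 7) (nat_lit 101672) (nat_lit 19) (node (nat_lit 4)
  (nat_lit 102807) (nat_lit 20) (node (nat_lit 5) (nat_lit 103498) (nat_lit 21) (node (nat_lit 4)
  (nat_lit 103079) (nat_lit 22) (node (nat_lit 7) (nat_lit 104509) (nat_lit 23) (node (nat_lit 5)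
  (nat_lit 102491) (nat_lit 24) (node (nat_lit 4) (nat_lit 100061) (nat_lit 25) (node (nat_lit 5)
  (nat_lit 97206) (nat_lit 26) (node (nat_lit 7) (nat_lit 92600) (nat_lit 27) (node (nat_lit 4)
  (nat_lit 83453) (nat_lit 28) (node (nat_lit 5) (nat_lit 80756) (nat_lit 29) (node (nat_lit 4)
  (nat_lit 76695) (nat_lit 30) (node (nat_lit 7) (nat_lit 66980) (nat_lit 31) nil nil) nil) nil)
  nil) nil) nil) nil) nil) nil) (node (nat_lit 7) (nat_lit 104441) (nat_lit 22) nil nil)) nil)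
  nil) (node (nat_lit 0) (nat_lit 105714) (nat_lit 19) nil nil))) (node (nat_lit 0) (nat_lit
  106886) (nat_lit 18) nil nil)) (node (nat_lit 0) (nat_lit 107359) (nat_lit 17) nil nil)) (node
  (nat_lit 0) (nat_lit 108202) (nat_lit 16) nil nil))) (node (nat_lit 0) (nat_lit 109234) (nat_lit
  15) (node (nat_lit 5) (nat_lit 109234) (nat_lit 16) nil (node (nat_lit 7) (nat_lit 109234)
  (nat_lit 16) nil (node (nat_lit 4) (nat_lit 109234) (nat_lit 16) nil nil))) nil)) (node (nat_lit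
  0) (nat_lit 107923) (nat_lit 14) (node (nat_lit 4) (nat_lit 107923) (nat_lit 15) (node (nat_lit
  5) (nat_lit 107923) (nat_lit 16) (node (nat_lit 4) (nat_lit 107923) (nat_lit 17) (node (nat_lit
  7) (nat_lit 107923) (nat_lit 18) (node (nat_lit 5) (nat_lit 107923) (nat_lit 19) (node (nat_lit
  4) (nat_lit 107923) (nat_lit 20) (node (nat_lit 5) (nat_lit 107923) (nat_lit 21) (node (nat_lit
  7) (nat_lit 108382) (nat_lit 22) nil nil) nil) nil) nil) nil) nil) nil) (node (nat_lit 5)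
  (nat_lit 107923) (nat_lit 15) nil (node (nat_lit 7) (nat_lit 107923) (nat_lit 15) nil nil)))
  (node (nat_lit 4) (nat_lit 0) (nat_lit 14) (node (nat_lit 0) (nat_lit 58192) (nat_lit 15) nil
  nil) nil))) (node (nat_lit 0) (nat_lit 106365) (nat_lit 13) (node (nat_lit 5) (nat_lit 106365)
  (nat_lit 14) (node (nat_lit 4) (nat_lit 106365) (nat_lit 15) nil (node (nat_lit 7) (nat_lit
  106365) (nat_lit 15) nil nil)) (node (nat_lit 7) (nat_lit 106365) (nat_lit 14) (node (nat_lit 4)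
  (nat_lit 106365) (nat_lit 15) nil (node (nat_lit 5) (nat_lit 106365) (nat_lit 15) (node (nat_lit
  4) (nat_lit 106365) (nat_lit 16) nil nil) nil)) (node (nat_lit 4) (nat_lit 106365) (nat_lit 14)
  (node (nat_lit 7) (nat_lit 106365) (nat_lit 15) (node (nat_lit 5) (nat_lit 106365) (nat_lit 16)
  nil nil) (node (nat_lit 5) (nat_lit 106365) (nat_lit 15) nil nil)) nil))) nil))) (node (nat_lit
  0) (nat_lit 104277) (nat_lit 12) (node (nat_lit 5) (nat_lit 104277) (nat_lit 13) (node (nat_lit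
  4) (nat_lit 104277) (nat_lit 14) (node (nat_lit 7) (nat_lit 104277) (nat_lit 15) (node (nat_lit
  5) (nat_lit 104277) (nat_lit 16) (node (nat_lit 7) (nat_lit 104277) (nat_lit 17) nil nil) (node
  (nat_lit 4) (nat_lit 104277) (nat_lit 16) nil nil)) (node (nat_lit 5) (nat_lit 104277) (nat_lit
  15) (node (nat_lit 7) (nat_lit 104277) (nat_lit 16) (node (nat_lit 4) (nat_lit 104277) (nat_lit
  17) nil nil) nil) nil)) (node (nat_lit 15) (nat_lit 105618) (nat_lit 14) (node (nat_lit 4)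
  (nat_lit 105618) (nat_lit 15) (node (nat_lit 5) (nat_lit 105618) (nat_lit 16) (node (nat_lit 4)
  (nat_lit 105618) (nat_lit 17) (node (nat_lit 7) (nat_lit 105618) (nat_lit 18) (node (nat_lit 5)
  (nat_lit 105618) (nat_lit 19) (node (nat_lit 4) (nat_lit 105618) (nat_lit 20) (node (nat_lit 5)
  (nat_lit 105618) (nat_lit 21) (node (nat_lit 7) (nat_lit 106077) (nat_lit 22) nil nil) nil) nil)
  nil) nil) nil) nil) nil) (node (nat_lit 7) (nat_lit 104277) (nat_lit 14) (node (nat_lit 4)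
  (nat_lit 104277) (nat_lit 15) nil (node (nat_lit 5) (nat_lit 104277) (nat_lit 15) nil nil))
  nil))) (node (nat_lit 4) (nat_lit 104277) (nat_lit 13) (node (nat_lit 5) (nat_lit 104277)
  (nat_lit 14) (node (nat_lit 4) (nat_lit 104277) (nat_lit 15) (node (nat_lit 7) (nat_lit 104277)
  (nat_lit 16) (node (nat_lit 5) (nat_lit 104277) (nat_lit 17) (node (nat_lit 4) (nat_lit 104277)
  (nat_lit 18) (node (nat_lit 5) (nat_lit 104277) (nat_lit 19) (node (nat_lit 7) (nat_lit 105031)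
  (nat_lit 20) (node (nat_lit 4) (nat_lit 105618) (nat_lit 21) nil nil) nil) nil) nil) nil) nil)
  (node (nat_lit 7) (nat_lit 104277) (nat_lit 15) (node (nat_lit 5) (nat_lit 104277) (nat_lit 16)
  nil nil) nil)) (node (nat_lit 7) (nat_lit 104277) (nat_lit 14) (node (nat_lit 5) (nat_lit
  104277) (nat_lit 15) (node (nat_lit 4) (nat_lit 104277) (nat_lit 16) nil nil) (node (nat_lit 4)
  (nat_lit 104277) (nat_lit 15) nil nil)) nil)) (node (nat_lit 7) (nat_lit 104277) (nat_lit 13)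
  (node (nat_lit 4) (nat_lit 104277) (nat_lit 14) (node (nat_lit 5) (nat_lit 104277) (nat_lit 15)
  (node (nat_lit 4) (nat_lit 104277) (nat_lit 16) (node (nat_lit 7) (nat_lit 104277) (nat_lit 17)
  (node (nat_lit 5) (nat_lit 104277) (nat_lit 18) (node (nat_lit 4) (nat_lit 104277) (nat_lit 19)
  (node (nat_lit 5) (nat_lit 105826) (nat_lit 20) nil nil) nil) nil) nil) nil) (node (nat_lit 7)
  (nat_lit 104277) (nat_lit 15) (node (nat_lit 5) (nat_lit 104277) (nat_lit 16) nil nil) nil))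
  (node (nat_lit 5) (nat_lit 104277) (nat_lit 14) (node (nat_lit 4) (nat_lit 104277) (nat_lit 15)
  nil (node (nat_lit 7) (nat_lit 104277) (nat_lit 15) nil nil)) nil)) (node (nat_lit 0) (nat_lit
  105031) (nat_lit 13) nil nil)))) nil))

noncomputable def t97 : Tr :=
  (node (nat_lit 7) (nat_lit 0) (nat_lit 14) (node (nat_lit 4) (nat_lit 0) (nat_lit 15) (node
  (nat_lit 7) (nat_lit 0) (nat_lit 16) (node (nat_lit 5) (nat_lit 0) (nat_lit 17) (node (nat_lit
  4) (nat_lit 0) (nat_lit 18) (node (nat_lit 5) (nat_lit 0) (nat_lit 19) (node (nat_lit 7)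
  (nat_lit 0) (nat_lit 20) (node (nat_lit 4) (nat_lit 0) (nat_lit 21) (node (nat_lit 5) (nat_lit
  125205) (nat_lit 22) (node (nat_lit 4) (nat_lit 124828) (nat_lit 23) (node (nat_lit 7) (nat_lit
  125736) (nat_lit 24) (node (nat_lit 5) (nat_lit 123948) (nat_lit 25) (node (nat_lit 4) (nat_lit
  124056) (nat_lit 26) (node (nat_lit 5) (nat_lit 120557) (nat_lit 27) (node (nat_lit 7) (nat_lit
  116916) (nat_lit 28) (node (nat_lit 5) (nat_lit 113989) (nat_lit 29) (node (nat_lit 4) (nat_lit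
  111251) (nat_lit 30) (node (nat_lit 7) (nat_lit 110525) (nat_lit 31) (node (nat_lit 4) (nat_lit
  99328) (nat_lit 32) (node (nat_lit 5) (nat_lit 107304) (nat_lit 33) (node (nat_lit 7) (nat_lit
  93294) (nat_lit 34) (node (nat_lit 4) (nat_lit 88332) (nat_lit 35) (node (nat_lit 7) (nat_lit
  88866) (nat_lit 36) (node (nat_lit 5) (nat_lit 61064) (nat_lit 37) nil nil) nil) nil) nil) nil)
  nil) nil) nil) nil) nil) nil) nil) (node (nat_lit 4) (nat_lit 124930) (nat_lit 25) nil nil))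
  nil) nil) (node (nat_lit 7) (nat_lit 126134) (nat_lit 22) nil (node (nat_lit 0) (nat_lit 127081)
  (nat_lit 22) nil nil))) (node (nat_lit 5) (nat_lit 0) (nat_lit 21) (node (nat_lit 4) (nat_lit
  126337) (nat_lit 22) (node (nat_lit 7) (nat_lit 126937) (nat_lit 23) (node (nat_lit 4) (nat_lit
  127276) (nat_lit 24) (node (nat_lit 5) (nat_lit 127584) (nat_lit 25) (node (nat_lit 4) (nat_lit
  127747) (nat_lit 26) (node (nat_lit 7) (nat_lit 127840) (nat_lit 27) (node (nat_lit 5) (nat_lit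
  127631) (nat_lit 28) nil nil) nil) nil) nil) (node (nat_lit 5) (nat_lit 126735) (nat_lit 24) nil
  nil)) nil) (node (nat_lit 0) (nat_lit 127579) (nat_lit 22) nil nil)) (node (nat_lit 0) (nat_lit
  129170) (nat_lit 21) nil nil))) (node (nat_lit 0) (nat_lit 124613) (nat_lit 20) nil nil)) (node
  (nat_lit 7) (nat_lit 120941) (nat_lit 19) (node (nat_lit 4) (nat_lit 0) (nat_lit 20) (node
  (nat_lit 5) (nat_lit 122907) (nat_lit 21) (node (nat_lit 4) (nat_lit 123173) (nat_lit 22) (node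
  (nat_lit 7) (nat_lit 122792) (nat_lit 23) (node (nat_lit 5) (nat_lit 121525) (nat_lit 24) (node
  (nat_lit 4) (nat_lit 119454) (nat_lit 25) (node (nat_lit 5) (nat_lit 114372) (nat_lit 26) (node
  (nat_lit 7) (nat_lit 109591) (nat_lit 27) (node (nat_lit 5) (nat_lit 105885) (nat_lit 28) (node
  (nat_lit 4) (nat_lit 102326) (nat_lit 29) (node (nat_lit 7) (nat_lit 99520) (nat_lit 30) (node
  (nat_lit 4) (nat_lit 83360) (nat_lit 31) (node (nat_lit 5) (nat_lit 83421) (nat_lit 32) (node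
  (nat_lit 7) (nat_lit 82653) (nat_lit 33) (node (nat_lit 4) (nat_lit 70028) (nat_lit 34) (node
  (nat_lit 7) (nat_lit 56978) (nat_lit 35) (node (nat_lit 5) (nat_lit 57865) (nat_lit 36) nil nil)
  nil) nil) nil) nil) nil) nil) nil) nil) nil) nil) nil) nil) nil) (node (nat_lit 7) (nat_lit
  123850) (nat_lit 22) (node (nat_lit 5) (nat_lit 124208) (nat_lit 23) nil nil) nil)) (node
  (nat_lit 0) (nat_lit 126610) (nat_lit 21) nil nil)) nil) (node (nat_lit 0) (nat_lit 128881)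
  (nat_lit 19) nil nil))) (node (nat_lit 7) (nat_lit 0) (nat_lit 18) (node (nat_lit 4) (nat_lit 0)
  (nat_lit 19) (node (nat_lit 5) (nat_lit 0) (nat_lit 20) (node (nat_lit 4) (nat_lit 0) (nat_lit
  21) (node (nat_lit 7) (nat_lit 124260) (nat_lit 22) (node (nat_lit 5) (nat_lit 123597) (nat_lit
  23) (node (nat_lit 4) (nat_lit 119847) (nat_lit 24) (node (nat_lit 5) (nat_lit 116560) (nat_lit
  25) (node (nat_lit 7) (nat_lit 114383) (nat_lit 26) (node (nat_lit 5) (nat_lit 106246) (nat_lit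
  27) (node (nat_lit 4) (nat_lit 99252) (nat_lit 28) (node (nat_lit 7) (nat_lit 99812) (nat_lit
  29) (node (nat_lit 4) (nat_lit 80623) (nat_lit 30) (node (nat_lit 5) (nat_lit 80603) (nat_lit
  31) (node (nat_lit 7) (nat_lit 70702) (nat_lit 32) (node (nat_lit 4) (nat_lit 71384) (nat_lit
  33) (node (nat_lit 7) (nat_lit 37197) (nat_lit 34) nil nil) nil) nil) nil) nil) nil) nil) (node
  (nat_lit 4) (nat_lit 113892) (nat_lit 27) nil nil)) nil) nil) (node (nat_lit 7) (nat_lit 123674)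
  (nat_lit 24) nil nil)) (node (nat_lit 4) (nat_lit 124700) (nat_lit 23) (node (nat_lit 5)
  (nat_lit 125124) (nat_lit 24) nil nil) nil)) (node (nat_lit 0) (nat_lit 124763) (nat_lit 22) nil
  nil)) (node (nat_lit 7) (nat_lit 125357) (nat_lit 21) (node (nat_lit 5) (nat_lit 126529)
  (nat_lit 22) (node (nat_lit 4) (nat_lit 126680) (nat_lit 23) (node (nat_lit 7) (nat_lit 126897)
  (nat_lit 24) nil nil) nil) nil) (node (nat_lit 0) (nat_lit 125979) (nat_lit 21) nil nil))) (node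
  (nat_lit 0) (nat_lit 128781) (nat_lit 20) nil nil)) (node (nat_lit 0) (nat_lit 129475) (nat_lit
  19) nil nil)) (node (nat_lit 0) (nat_lit 132145) (nat_lit 18) nil nil))) (node (nat_lit 0)
  (nat_lit 132266) (nat_lit 17) (node (nat_lit 4) (nat_lit 132266) (nat_lit 18) nil nil) nil))
  (node (nat_lit 0) (nat_lit 132738) (nat_lit 16) (node (nat_lit 4) (nat_lit 132738) (nat_lit 17)
  nil (node (nat_lit 5) (nat_lit 132738) (nat_lit 17) nil (node (nat_lit 7) (nat_lit 132738)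
  (nat_lit 17) nil nil))) nil)) (node (nat_lit 5) (nat_lit 0) (nat_lit 15) (node (nat_lit 4)
  (nat_lit 0) (nat_lit 16) (node (nat_lit 5) (nat_lit 0) (nat_lit 17) (node (nat_lit 7) (nat_lit
  0) (nat_lit 18) (node (nat_lit 4) (nat_lit 0) (nat_lit 19) (node (nat_lit 7) (nat_lit 0)
  (nat_lit 20) (node (nat_lit 5) (nat_lit 126316) (nat_lit 21) (node (nat_lit 4) (nat_lit 127921)
  (nat_lit 22) (node (nat_lit 7) (nat_lit 128671) (nat_lit 23) (node (nat_lit 4) (nat_lit 129010)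
  (nat_lit 24) (node (nat_lit 5) (nat_lit 129318) (nat_lit 25) (node (nat_lit 4) (nat_lit 129481)
  (nat_lit 26) (node (nat_lit 7) (nat_lit 129575) (nat_lit 27) (node (nat_lit 5) (nat_lit 129365)
  (nat_lit 28) (node (nat_lit 4) (nat_lit 129177) (nat_lit 29) (node (nat_lit 5) (nat_lit 128404)
  (nat_lit 30) (node (nat_lit 7) (nat_lit 127496) (nat_lit 31) (node (nat_lit 5) (nat_lit 119477)
  (nat_lit 32) (node (nat_lit 4) (nat_lit 115307) (nat_lit 33) (node (nat_lit 7) (nat_lit 112102)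
  (nat_lit 34) (node (nat_lit 4) (nat_lit 110572) (nat_lit 35) (node (nat_lit 5) (nat_lit 102182)
  (nat_lit 36) (node (nat_lit 7) (nat_lit 99698) (nat_lit 37) (node (nat_lit 5) (nat_lit 94962)
  (nat_lit 38) (node (nat_lit 4) (nat_lit 89859) (nat_lit 39) (node (nat_lit 5) (nat_lit 90454)
  (nat_lit 40) (node (nat_lit 7) (nat_lit 71610) (nat_lit 41) (node (nat_lit 4) (nat_lit 60792)
  (nat_lit 42) (node (nat_lit 7) (nat_lit 38908) (nat_lit 43) (node (nat_lit 5) (nat_lit 42577)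
  (nat_lit 44) nil nil) nil) nil) nil) nil) nil) nil) nil) nil) nil) nil) nil) nil) nil) nil) nil)
  nil) nil) nil) nil) nil) (node (nat_lit 5) (nat_lit 128271) (nat_lit 23) (node (nat_lit 7)
  (nat_lit 128169) (nat_lit 24) (node (nat_lit 5) (nat_lit 128388) (nat_lit 25) nil nil) nil)
  nil)) (node (nat_lit 7) (nat_lit 127730) (nat_lit 22) (node (nat_lit 4) (nat_lit 128534)
  (nat_lit 23) (node (nat_lit 5) (nat_lit 128681) (nat_lit 24) (node (nat_lit 4) (nat_lit 128626)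
  (nat_lit 25) (node (nat_lit 7) (nat_lit 128247) (nat_lit 26) (node (nat_lit 5) (nat_lit 127001)
  (nat_lit 27) (node (nat_lit 4) (nat_lit 128063) (nat_lit 28) (node (nat_lit 5) (nat_lit 126818)
  (nat_lit 29) (node (nat_lit 7) (nat_lit 124609) (nat_lit 30) nil nil) nil) nil) nil) nil) nil)
  nil) nil) nil)) (node (nat_lit 0) (nat_lit 126368) (nat_lit 21) nil nil)) (node (nat_lit 5)
  (nat_lit 0) (nat_lit 20) (node (nat_lit 4) (nat_lit 122004) (nat_lit 21) (node (nat_lit 7)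
  (nat_lit 121607) (nat_lit 22) (node (nat_lit 5) (nat_lit 119845) (nat_lit 23) (node (nat_lit 4)
  (nat_lit 118204) (nat_lit 24) (node (nat_lit 5) (nat_lit 113648) (nat_lit 25) (node (nat_lit 7)
  (nat_lit 112619) (nat_lit 26) (node (nat_lit 5) (nat_lit 93029) (nat_lit 27) (node (nat_lit 4)
  (nat_lit 91594) (nat_lit 28) (node (nat_lit 7) (nat_lit 91737) (nat_lit 29) (node (nat_lit 4)
  (nat_lit 91786) (nat_lit 30) (node (nat_lit 5) (nat_lit 87306) (nat_lit 31) (node (nat_lit 7)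
  (nat_lit 87882) (nat_lit 32) (node (nat_lit 5) (nat_lit 58767) (nat_lit 33) nil nil) nil) nil)
  nil) nil) nil) nil) nil) nil) (node (nat_lit 7) (nat_lit 119447) (nat_lit 24) nil nil)) (node
  (nat_lit 4) (nat_lit 122046) (nat_lit 23) (node (nat_lit 5) (nat_lit 122470) (nat_lit 24) nil
  nil) nil)) nil) (node (nat_lit 0) (nat_lit 124436) (nat_lit 21) nil nil)) (node (nat_lit 0)
  (nat_lit 124242) (nat_lit 20) nil nil))) (node (nat_lit 0) (nat_lit 127735) (nat_lit 19) nil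
  nil)) (node (nat_lit 0) (nat_lit 127928) (nat_lit 18) nil nil)) (node (nat_lit 0) (nat_lit
  130567) (nat_lit 17) nil nil)) (node (nat_lit 0) (nat_lit 132145) (nat_lit 16) (node (nat_lit 7)
  (nat_lit 132145) (nat_lit 17) nil (node (nat_lit 4) (nat_lit 132145) (nat_lit 17) nil (node
  (nat_lit 5) (nat_lit 132145) (nat_lit 17) nil nil))) nil)) (node (nat_lit 0) (nat_lit 131198)
  (nat_lit 15) (node (nat_lit 5) (nat_lit 131198) (nat_lit 16) (node (nat_lit 7) (nat_lit 131198)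
  (nat_lit 17) nil nil) (node (nat_lit 4) (nat_lit 131198) (nat_lit 16) nil (node (nat_lit 7)
  (nat_lit 131198) (nat_lit 16) nil nil))) nil))) (node (nat_lit 4) (nat_lit 0) (nat_lit 14) (node
  (nat_lit 7) (nat_lit 0) (nat_lit 15) (node (nat_lit 5) (nat_lit 0) (nat_lit 16) (node (nat_lit
  7) (nat_lit 0) (nat_lit 17) (node (nat_lit 4) (nat_lit 0) (nat_lit 18) (node (nat_lit 7)
  (nat_lit 0) (nat_lit 19) (node (nat_lit 5) (nat_lit 108105) (nat_lit 20) (node (nat_lit 4)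
  (nat_lit 109833) (nat_lit 21) (node (nat_lit 5) (nat_lit 111223) (nat_lit 22) (node (nat_lit 7)
  (nat_lit 112087) (nat_lit 23) (node (nat_lit 4) (nat_lit 112470) (nat_lit 24) (node (nat_lit 5)
  (nat_lit 112440) (nat_lit 25) (node (nat_lit 4) (nat_lit 112682) (nat_lit 26) (node (nat_lit 7)
  (nat_lit 112481) (nat_lit 27) (node (nat_lit 5) (nat_lit 109286) (nat_lit 28) (node (nat_lit 4)
  (nat_lit 110301) (nat_lit 29) (node (nat_lit 5) (nat_lit 109368) (nat_lit 30) (node (nat_lit 7)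
  (nat_lit 108758) (nat_lit 31) (node (nat_lit 5) (nat_lit 108881) (nat_lit 32) (node (nat_lit 4)
  (nat_lit 105755) (nat_lit 33) (node (nat_lit 7) (nat_lit 102227) (nat_lit 34) (node (nat_lit 4)
  (nat_lit 95082) (nat_lit 35) (node (nat_lit 5) (nat_lit 93563) (nat_lit 36) (node (nat_lit 4)
  (nat_lit 89945) (nat_lit 37) (node (nat_lit 7) (nat_lit 75435) (nat_lit 38) (node (nat_lit 5)
  (nat_lit 91294) (nat_lit 39) (node (nat_lit 7) (nat_lit 77104) (nat_lit 40) (node (nat_lit 4)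
  (nat_lit 27045) (nat_lit 41) (node (nat_lit 7) (nat_lit 27050) (nat_lit 42) (node (nat_lit 5)
  (nat_lit 27049) (nat_lit 43) (node (nat_lit 4) (nat_lit 12735) (nat_lit 44) nil nil) nil) nil)
  nil) nil) nil) nil) nil) nil) nil) nil) nil) nil) nil) nil) nil) nil) nil) nil) nil) nil) nil)
  (node (nat_lit 7) (nat_lit 110794) (nat_lit 22) (node (nat_lit 4) (nat_lit 111235) (nat_lit 23)
  (node (nat_lit 5) (nat_lit 111659) (nat_lit 24) nil nil) nil) nil)) nil) (node (nat_lit 0)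
  (nat_lit 107742) (nat_lit 20) nil nil)) (node (nat_lit 5) (nat_lit 0) (nat_lit 19) (node
  (nat_lit 7) (nat_lit 0) (nat_lit 20) (node (nat_lit 5) (nat_lit 107662) (nat_lit 21) (node
  (nat_lit 4) (nat_lit 108127) (nat_lit 22) (node (nat_lit 7) (nat_lit 108617) (nat_lit 23) (node
  (nat_lit 4) (nat_lit 108909) (nat_lit 24) (node (nat_lit 5) (nat_lit 109032) (nat_lit 25) (node
  (nat_lit 4) (nat_lit 109038) (nat_lit 26) (node (nat_lit 7) (nat_lit 109038) (nat_lit 27) (node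
  (nat_lit 5) (nat_lit 108122) (nat_lit 28) (node (nat_lit 4) (nat_lit 107906) (nat_lit 29) (node
  (nat_lit 5) (nat_lit 106053) (nat_lit 30) (node (nat_lit 7) (nat_lit 104635) (nat_lit 31) (node
  (nat_lit 5) (nat_lit 104011) (nat_lit 32) (node (nat_lit 4) (nat_lit 100057) (nat_lit 33) (node
  (nat_lit 7) (nat_lit 98902) (nat_lit 34) (node (nat_lit 4) (nat_lit 94241) (nat_lit 35) (node
  (nat_lit 5) (nat_lit 86199) (nat_lit 36) (node (nat_lit 4) (nat_lit 87887) (nat_lit 37) (node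
  (nat_lit 7) (nat_lit 72811) (nat_lit 38) nil nil) nil) nil) nil) nil) nil) nil) nil) nil) nil)
  nil) nil) nil) nil) nil) nil) nil) (node (nat_lit 0) (nat_lit 108464) (nat_lit 21) nil nil))
  (node (nat_lit 4) (nat_lit 106875) (nat_lit 20) (node (nat_lit 7) (nat_lit 109116) (nat_lit 21)
  (node (nat_lit 4) (nat_lit 110003) (nat_lit 22) (node (nat_lit 5) (nat_lit 110575) (nat_lit 23)
  nil nil) nil) nil) (node (nat_lit 0) (nat_lit 110071) (nat_lit 20) nil nil))) (node (nat_lit 0)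
  (nat_lit 110461) (nat_lit 19) nil nil))) (node (nat_lit 0) (nat_lit 110437) (nat_lit 18) nil
  nil)) (node (nat_lit 4) (nat_lit 0) (nat_lit 17) (node (nat_lit 5) (nat_lit 0) (nat_lit 18)
  (node (nat_lit 7) (nat_lit 79419) (nat_lit 19) (node (nat_lit 4) (nat_lit 81364) (nat_lit 20)
  (node (nat_lit 7) (nat_lit 82773) (nat_lit 21) (node (nat_lit 5) (nat_lit 82635) (nat_lit 22)
  (node (nat_lit 7) (nat_lit 82748) (nat_lit 23) (node (nat_lit 4) (nat_lit 82672) (nat_lit 24)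
  (node (nat_lit 5) (nat_lit 82589) (nat_lit 25) (node (nat_lit 4) (nat_lit 82326) (nat_lit 26)
  (node (nat_lit 7) (nat_lit 82269) (nat_lit 27) (node (nat_lit 5) (nat_lit 81769) (nat_lit 28)
  (node (nat_lit 4) (nat_lit 81725) (nat_lit 29) (node (nat_lit 5) (nat_lit 81103) (nat_lit 30)
  (node (nat_lit 7) (nat_lit 80168) (nat_lit 31) (node (nat_lit 5) (nat_lit 79525) (nat_lit 32)
  (node (nat_lit 4) (nat_lit 76736) (nat_lit 33) (node (nat_lit 7) (nat_lit 72414) (nat_lit 34)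
  (node (nat_lit 4) (nat_lit 68201) (nat_lit 35) (node (nat_lit 5) (nat_lit 62335) (nat_lit 36)
  (node (nat_lit 4) (nat_lit 54097) (nat_lit 37) (node (nat_lit 7) (nat_lit 47638) (nat_lit 38)
  (node (nat_lit 5) (nat_lit 41640) (nat_lit 39) nil nil) nil) nil) nil) nil) nil) nil) nil) nil)
  nil) nil) nil) nil) nil) nil) nil) nil) nil) (node (nat_lit 5) (nat_lit 82080) (nat_lit 21)
  (node (nat_lit 4) (nat_lit 81921) (nat_lit 22) (node (nat_lit 7) (nat_lit 81573) (nat_lit 23)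
  (node (nat_lit 5) (nat_lit 80046) (nat_lit 24) (node (nat_lit 4) (nat_lit 70622) (nat_lit 25)
  nil nil) (node (nat_lit 4) (nat_lit 81497) (nat_lit 24) (node (nat_lit 5) (nat_lit 81414)
  (nat_lit 25) nil nil) nil)) nil) nil) nil)) (node (nat_lit 5) (nat_lit 81059) (nat_lit 20) nil
  nil)) (node (nat_lit 0) (nat_lit 82137) (nat_lit 19) nil nil)) (node (nat_lit 0) (nat_lit
  104117) (nat_lit 18) nil nil)) (node (nat_lit 0) (nat_lit 107270) (nat_lit 17) nil nil))) (node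
  (nat_lit 0) (nat_lit 125669) (nat_lit 16) nil nil)) (node (nat_lit 0) (nat_lit 127767) (nat_lit
  15) (node (nat_lit 4) (nat_lit 127767) (nat_lit 16) (node (nat_lit 5) (nat_lit 127767) (nat_lit
  17) (node (nat_lit 4) (nat_lit 127767) (nat_lit 18) (node (nat_lit 7) (nat_lit 127767) (nat_lit
  19) (node (nat_lit 5) (nat_lit 127767) (nat_lit 20) (node (nat_lit 4) (nat_lit 127767) (nat_lit
  21) (node (nat_lit 5) (nat_lit 127767) (nat_lit 22) (node (nat_lit 7) (nat_lit 128125) (nat_lit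
  23) (node (nat_lit 5) (nat_lit 128405) (nat_lit 24) (node (nat_lit 4) (nat_lit 128247) (nat_lit
  25) (node (nat_lit 7) (nat_lit 128380) (nat_lit 26) (node (nat_lit 4) (nat_lit 128302) (nat_lit
  27) (node (nat_lit 5) (nat_lit 128230) (nat_lit 28) (node (nat_lit 4) (nat_lit 127958) (nat_lit
  29) nil nil) nil) nil) nil) nil) nil) nil) nil) nil) nil) nil) nil) nil) (node (nat_lit 5)
  (nat_lit 127767) (nat_lit 16) nil nil)) nil)) (node (nat_lit 0) (nat_lit 130232) (nat_lit 14)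
  (node (nat_lit 4) (nat_lit 130232) (nat_lit 15) (node (nat_lit 5) (nat_lit 130232) (nat_lit 16)
  (node (nat_lit 4) (nat_lit 130232) (nat_lit 17) (node (nat_lit 7) (nat_lit 130232) (nat_lit 18)
  (node (nat_lit 5) (nat_lit 130232) (nat_lit 19) (node (nat_lit 4) (nat_lit 130232) (nat_lit 20)
  (node (nat_lit 5) (nat_lit 130232) (nat_lit 21) (node (nat_lit 7) (nat_lit 130691) (nat_lit 22)
  (node (nat_lit 5) (nat_lit 131049) (nat_lit 23) (node (nat_lit 4) (nat_lit 130847) (nat_lit 24)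
  (node (nat_lit 7) (nat_lit 131018) (nat_lit 25) (node (nat_lit 4) (nat_lit 130917) (nat_lit 26)
  (node (nat_lit 5) (nat_lit 130825) (nat_lit 27) nil nil) nil) nil) nil) nil) nil) nil) nil) nil)
  nil) nil) (node (nat_lit 7) (nat_lit 130232) (nat_lit 16) nil nil)) (node (nat_lit 5) (nat_lit
  130232) (nat_lit 15) (node (nat_lit 4) (nat_lit 130232) (nat_lit 16) nil (node (nat_lit 7)
  (nat_lit 130232) (nat_lit 16) nil nil)) (node (nat_lit 7) (nat_lit 130232) (nat_lit 15) (node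
  (nat_lit 5) (nat_lit 130232) (nat_lit 16) nil (node (nat_lit 4) (nat_lit 130232) (nat_lit 16)
  nil nil)) nil))) nil)))

noncomputable def t98 : Tr :=
  (node (nat_lit 7) (nat_lit 0) (nat_lit 11) (node (nat_lit 4) (nat_lit 0) (nat_lit 12) (node
  (nat_lit 5) (nat_lit 0) (nat_lit 13) t97 (node (nat_lit 0) (nat_lit 127996) (nat_lit 13) (node
  (nat_lit 5) (nat_lit 127996) (nat_lit 14) (node (nat_lit 16) (nat_lit 129042) (nat_lit 15) (node
  (nat_lit 4) (nat_lit 129042) (nat_lit 16) (node (nat_lit 5) (nat_lit 129042) (nat_lit 17) (node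
  (nat_lit 4) (nat_lit 129042) (nat_lit 18) (node (nat_lit 7) (nat_lit 129042) (nat_lit 19) (node
  (nat_lit 5) (nat_lit 129042) (nat_lit 20) (node (nat_lit 4) (nat_lit 129042) (nat_lit 21) (node
  (nat_lit 5) (nat_lit 129042) (nat_lit 22) (node (nat_lit 7) (nat_lit 129401) (nat_lit 23) (node
  (nat_lit 5) (nat_lit 129680) (nat_lit 24) (node (nat_lit 4) (nat_lit 129522) (nat_lit 25) nil
  nil) nil) nil) nil) nil) nil) nil) nil) nil) nil) (node (nat_lit 4) (nat_lit 127996) (nat_lit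
  15) nil (node (nat_lit 7) (nat_lit 127996) (nat_lit 15) nil nil))) (node (nat_lit 4) (nat_lit
  127996) (nat_lit 14) (node (nat_lit 5) (nat_lit 127996) (nat_lit 15) (node (nat_lit 4) (nat_lit
  127996) (nat_lit 16) (node (nat_lit 7) (nat_lit 127996) (nat_lit 17) (node (nat_lit 5) (nat_lit
  127996) (nat_lit 18) (node (nat_lit 4) (nat_lit 127996) (nat_lit 19) (node (nat_lit 5) (nat_lit
  127996) (nat_lit 20) (node (nat_lit 7) (nat_lit 128583) (nat_lit 21) (node (nat_lit 5) (nat_lit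
  129042) (nat_lit 22) (node (nat_lit 4) (nat_lit 128784) (nat_lit 23) (node (nat_lit 7) (nat_lit
  129003) (nat_lit 24) (node (nat_lit 4) (nat_lit 128874) (nat_lit 25) nil nil) nil) nil) nil)
  nil) nil) nil) nil) nil) nil) (node (nat_lit 7) (nat_lit 127996) (nat_lit 15) (node (nat_lit 5)
  (nat_lit 127996) (nat_lit 16) nil nil) nil)) (node (nat_lit 7) (nat_lit 127996) (nat_lit 14)
  (node (nat_lit 4) (nat_lit 127996) (nat_lit 15) (node (nat_lit 5) (nat_lit 127996) (nat_lit 16)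
  (node (nat_lit 4) (nat_lit 127996) (nat_lit 17) (node (nat_lit 7) (nat_lit 127996) (nat_lit 18)
  (node (nat_lit 5) (nat_lit 127996) (nat_lit 19) (node (nat_lit 4) (nat_lit 127996) (nat_lit 20)
  (node (nat_lit 5) (nat_lit 129205) (nat_lit 21) (node (nat_lit 7) (nat_lit 130147) (nat_lit 22)
  nil nil) nil) nil) nil) nil) nil) (node (nat_lit 7) (nat_lit 127996) (nat_lit 16) nil nil))
  (node (nat_lit 5) (nat_lit 127996) (nat_lit 15) nil nil)) nil))) nil)) (node (nat_lit 5)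
  (nat_lit 0) (nat_lit 12) (node (nat_lit 7) (nat_lit 0) (nat_lit 13) (node (nat_lit 4) (nat_lit
  0) (nat_lit 14) (node (nat_lit 5) (nat_lit 0) (nat_lit 15) (node (nat_lit 7) (nat_lit 0)
  (nat_lit 16) (node (nat_lit 5) (nat_lit 0) (nat_lit 17) (node (nat_lit 4) (nat_lit 0) (nat_lit
  18) (node (nat_lit 5) (nat_lit 0) (nat_lit 19) (node (nat_lit 7) (nat_lit 126520) (nat_lit 20)
  (node (nat_lit 4) (nat_lit 127560) (nat_lit 21) (node (nat_lit 5) (nat_lit 127169) (nat_lit 22)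
  (node (nat_lit 4) (nat_lit 127374) (nat_lit 23) (node (nat_lit 7) (nat_lit 127281) (nat_lit 24)
  (node (nat_lit 5) (nat_lit 125563) (nat_lit 25) (node (nat_lit 4) (nat_lit 124605) (nat_lit 26)
  (node (nat_lit 5) (nat_lit 121905) (nat_lit 27) (node (nat_lit 7) (nat_lit 119220) (nat_lit 28)
  (node (nat_lit 5) (nat_lit 113168) (nat_lit 29) (node (nat_lit 4) (nat_lit 119210) (nat_lit 30)
  (node (nat_lit 7) (nat_lit 109866) (nat_lit 31) (node (nat_lit 5) (nat_lit 93153) (nat_lit 32)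
  (node (nat_lit 7) (nat_lit 93218) (nat_lit 33) (node (nat_lit 4) (nat_lit 93222) (nat_lit 34)
  (node (nat_lit 5) (nat_lit 87689) (nat_lit 35) (node (nat_lit 7) (nat_lit 54566) (nat_lit 36)
  (node (nat_lit 5) (nat_lit 54572) (nat_lit 37) (node (nat_lit 4) (nat_lit 35419) (nat_lit 38)
  nil nil) nil) nil) nil) nil) nil) nil) nil) nil) nil) nil) nil) nil) nil) nil) nil) (node
  (nat_lit 7) (nat_lit 128415) (nat_lit 22) (node (nat_lit 5) (nat_lit 128210) (nat_lit 23) (node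
  (nat_lit 4) (nat_lit 128008) (nat_lit 24) nil nil) nil) nil)) nil) (node (nat_lit 0) (nat_lit
  126509) (nat_lit 20) nil nil)) (node (nat_lit 7) (nat_lit 0) (nat_lit 19) (node (nat_lit 4)
  (nat_lit 0) (nat_lit 20) (node (nat_lit 5) (nat_lit 127046) (nat_lit 21) (node (nat_lit 4)
  (nat_lit 127092) (nat_lit 22) (node (nat_lit 7) (nat_lit 125980) (nat_lit 23) (node (nat_lit 5)
  (nat_lit 123422) (nat_lit 24) (node (nat_lit 4) (nat_lit 124236) (nat_lit 25) (node (nat_lit 5)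
  (nat_lit 119154) (nat_lit 26) (node (nat_lit 7) (nat_lit 114891) (nat_lit 27) (node (nat_lit 5)
  (nat_lit 107053) (nat_lit 28) (node (nat_lit 4) (nat_lit 113317) (nat_lit 29) (node (nat_lit 7)
  (nat_lit 98263) (nat_lit 30) (node (nat_lit 5) (nat_lit 96672) (nat_lit 31) (node (nat_lit 7)
  (nat_lit 89618) (nat_lit 32) (node (nat_lit 4) (nat_lit 90037) (nat_lit 33) (node (nat_lit 5)
  (nat_lit 68754) (nat_lit 34) nil nil) nil) nil) nil) nil) nil) nil) nil) nil) nil) nil) nil)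
  (node (nat_lit 7) (nat_lit 128285) (nat_lit 22) nil nil)) (node (nat_lit 0) (nat_lit 127931)
  (nat_lit 21) nil nil)) (node (nat_lit 5) (nat_lit 124988) (nat_lit 20) nil (node (nat_lit 0)
  (nat_lit 128852) (nat_lit 20) nil nil))) (node (nat_lit 0) (nat_lit 129951) (nat_lit 19) nil
  nil))) (node (nat_lit 0) (nat_lit 130289) (nat_lit 18) nil nil)) (node (nat_lit 0) (nat_lit
  128519) (nat_lit 17) nil nil)) (node (nat_lit 4) (nat_lit 0) (nat_lit 16) (node (nat_lit 7)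
  (nat_lit 0) (nat_lit 17) (node (nat_lit 4) (nat_lit 0) (nat_lit 18) (node (nat_lit 5) (nat_lit
  123568) (nat_lit 19) (node (nat_lit 7) (nat_lit 125940) (nat_lit 20) (node (nat_lit 5) (nat_lit
  127670) (nat_lit 21) (node (nat_lit 4) (nat_lit 128433) (nat_lit 22) (node (nat_lit 7) (nat_lit
  128899) (nat_lit 23) (node (nat_lit 4) (nat_lit 129238) (nat_lit 24) (node (nat_lit 5) (nat_lit
  129547) (nat_lit 25) (node (nat_lit 4) (nat_lit 129710) (nat_lit 26) (node (nat_lit 7) (nat_lit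
  129803) (nat_lit 27) (node (nat_lit 5) (nat_lit 129594) (nat_lit 28) (node (nat_lit 4) (nat_lit
  129387) (nat_lit 29) (node (nat_lit 5) (nat_lit 127549) (nat_lit 30) (node (nat_lit 7) (nat_lit
  126004) (nat_lit 31) nil nil) nil) nil) nil) nil) nil) nil) nil) nil) nil) (node (nat_lit 4)
  (nat_lit 127204) (nat_lit 21) (node (nat_lit 7) (nat_lit 127663) (nat_lit 22) nil nil) nil))
  nil) (node (nat_lit 0) (nat_lit 127857) (nat_lit 19) nil nil)) (node (nat_lit 5) (nat_lit 0)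
  (nat_lit 18) (node (nat_lit 4) (nat_lit 0) (nat_lit 19) (node (nat_lit 5) (nat_lit 113469)
  (nat_lit 20) (node (nat_lit 7) (nat_lit 115408) (nat_lit 21) (node (nat_lit 4) (nat_lit 115663)
  (nat_lit 22) (node (nat_lit 5) (nat_lit 115701) (nat_lit 23) (node (nat_lit 4) (nat_lit 115415)
  (nat_lit 24) (node (nat_lit 7) (nat_lit 115534) (nat_lit 25) (node (nat_lit 5) (nat_lit 113928)
  (nat_lit 26) nil nil) nil) nil) (node (nat_lit 7) (nat_lit 116021) (nat_lit 23) nil nil)) (node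
  (nat_lit 5) (nat_lit 90190) (nat_lit 22) (node (nat_lit 4) (nat_lit 55386) (nat_lit 23) (node
  (nat_lit 7) (nat_lit 55693) (nat_lit 24) (node (nat_lit 4) (nat_lit 55804) (nat_lit 25) nil nil)
  nil) nil) nil)) nil) (node (nat_lit 0) (nat_lit 118045) (nat_lit 20) nil nil)) (node (nat_lit 7)
  (nat_lit 0) (nat_lit 19) (node (nat_lit 0) (nat_lit 116763) (nat_lit 20) nil nil) (node (nat_lit
  0) (nat_lit 119410) (nat_lit 19) nil nil))) (node (nat_lit 0) (nat_lit 127688) (nat_lit 18) nil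
  nil))) (node (nat_lit 0) (nat_lit 130052) (nat_lit 17) nil nil)) (node (nat_lit 0) (nat_lit
  132447) (nat_lit 16) nil nil))) (node (nat_lit 7) (nat_lit 0) (nat_lit 15) (node (nat_lit 5)
  (nat_lit 0) (nat_lit 16) (node (nat_lit 4) (nat_lit 0) (nat_lit 17) (node (nat_lit 5) (nat_lit
  0) (nat_lit 18) (node (nat_lit 7) (nat_lit 0) (nat_lit 19) (node (nat_lit 4) (nat_lit 128012)
  (nat_lit 20) (node (nat_lit 5) (nat_lit 128746) (nat_lit 21) (node (nat_lit 4) (nat_lit 128526)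
  (nat_lit 22) (node (nat_lit 7) (nat_lit 128873) (nat_lit 23) (node (nat_lit 5) (nat_lit 127958)
  (nat_lit 24) (node (nat_lit 4) (nat_lit 125274) (nat_lit 25) (node (nat_lit 5) (nat_lit 121402)
  (nat_lit 26) (node (nat_lit 7) (nat_lit 115174) (nat_lit 27) (node (nat_lit 5) (nat_lit 113840)
  (nat_lit 28) (node (nat_lit 4) (nat_lit 115721) (nat_lit 29) (node (nat_lit 7) (nat_lit 101361)
  (nat_lit 30) (node (nat_lit 5) (nat_lit 112548) (nat_lit 31) (node (nat_lit 7) (nat_lit 97918)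
  (nat_lit 32) (node (nat_lit 4) (nat_lit 91902) (nat_lit 33) (node (nat_lit 7) (nat_lit 53329)
  (nat_lit 34) (node (nat_lit 5) (nat_lit 53338) (nat_lit 35) (node (nat_lit 4) (nat_lit 38688)
  (nat_lit 36) nil nil) nil) nil) nil) nil) nil) nil) nil) nil) nil) nil) nil) (node (nat_lit 4)
  (nat_lit 127840) (nat_lit 24) nil nil)) nil) nil) (node (nat_lit 7) (nat_lit 129931) (nat_lit
  21) (node (nat_lit 5) (nat_lit 130663) (nat_lit 22) (node (nat_lit 7) (nat_lit 131799) (nat_lit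
  23) (node (nat_lit 4) (nat_lit 132344) (nat_lit 24) (node (nat_lit 5) (nat_lit 132362) (nat_lit
  25) (node (nat_lit 4) (nat_lit 132281) (nat_lit 26) (node (nat_lit 7) (nat_lit 132375) (nat_lit
  27) (node (nat_lit 5) (nat_lit 131537) (nat_lit 28) (node (nat_lit 4) (nat_lit 131097) (nat_lit
  29) (node (nat_lit 5) (nat_lit 130457) (nat_lit 30) (node (nat_lit 7) (nat_lit 129677) (nat_lit
  31) (node (nat_lit 5) (nat_lit 127354) (nat_lit 32) (node (nat_lit 4) (nat_lit 125196) (nat_lit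
  33) (node (nat_lit 7) (nat_lit 119875) (nat_lit 34) (node (nat_lit 5) (nat_lit 119256) (nat_lit
  35) (node (nat_lit 7) (nat_lit 117416) (nat_lit 36) (node (nat_lit 4) (nat_lit 112755) (nat_lit
  37) nil nil) nil) nil) nil) nil) nil) nil) nil) nil) nil) nil) nil) nil) nil) nil) nil) nil))
  (node (nat_lit 5) (nat_lit 128199) (nat_lit 20) (node (nat_lit 4) (nat_lit 129189) (nat_lit 21)
  (node (nat_lit 7) (nat_lit 130021) (nat_lit 22) (node (nat_lit 4) (nat_lit 130880) (nat_lit 23)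
  (node (nat_lit 5) (nat_lit 131446) (nat_lit 24) (node (nat_lit 4) (nat_lit 131726) (nat_lit 25)
  (node (nat_lit 7) (nat_lit 131534) (nat_lit 26) (node (nat_lit 5) (nat_lit 130926) (nat_lit 27)
  (node (nat_lit 4) (nat_lit 129579) (nat_lit 28) (node (nat_lit 5) (nat_lit 127705) (nat_lit 29)
  (node (nat_lit 7) (nat_lit 126596) (nat_lit 30) nil nil) nil) nil) nil) nil) nil) nil) nil) nil)
  nil) (node (nat_lit 0) (nat_lit 128932) (nat_lit 20) nil nil))) (node (nat_lit 0) (nat_lit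
  130247) (nat_lit 19) nil nil)) (node (nat_lit 7) (nat_lit 0) (nat_lit 18) (node (nat_lit 4)
  (nat_lit 0) (nat_lit 19) (node (nat_lit 5) (nat_lit 128300) (nat_lit 20) (node (nat_lit 4)
  (nat_lit 125743) (nat_lit 21) (node (nat_lit 7) (nat_lit 127137) (nat_lit 22) (node (nat_lit 5)
  (nat_lit 124641) (nat_lit 23) (node (nat_lit 4) (nat_lit 124671) (nat_lit 24) (node (nat_lit 5)
  (nat_lit 117939) (nat_lit 25) (node (nat_lit 7) (nat_lit 118576) (nat_lit 26) (node (nat_lit 5)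
  (nat_lit 99350) (nat_lit 27) (node (nat_lit 4) (nat_lit 101693) (nat_lit 28) (node (nat_lit 7)
  (nat_lit 97113) (nat_lit 29) (node (nat_lit 5) (nat_lit 97498) (nat_lit 30) (node (nat_lit 7)
  (nat_lit 78819) (nat_lit 31) (node (nat_lit 4) (nat_lit 71047) (nat_lit 32) nil nil) nil) nil)
  nil) nil) nil) nil) nil) nil) nil) nil) (node (nat_lit 7) (nat_lit 129856) (nat_lit 21) (node
  (nat_lit 4) (nat_lit 130799) (nat_lit 22) (node (nat_lit 7) (nat_lit 131157) (nat_lit 23) nil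
  nil) (node (nat_lit 5) (nat_lit 130385) (nat_lit 22) (node (nat_lit 4) (nat_lit 130126) (nat_lit
  23) nil nil) nil)) nil)) (node (nat_lit 0) (nat_lit 128244) (nat_lit 20) nil nil)) (node
  (nat_lit 0) (nat_lit 130792) (nat_lit 19) nil nil)) (node (nat_lit 0) (nat_lit 132195) (nat_lit
  18) nil nil))) (node (nat_lit 0) (nat_lit 133525) (nat_lit 17) nil nil)) (node (nat_lit 0)
  (nat_lit 134566) (nat_lit 16) nil nil)) (node (nat_lit 0) (nat_lit 135007) (nat_lit 15) nil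
  nil))) (node (nat_lit 0) (nat_lit 137387) (nat_lit 14) (node (nat_lit 5) (nat_lit 137387)
  (nat_lit 15) (node (nat_lit 7) (nat_lit 137387) (nat_lit 16) nil nil) (node (nat_lit 7) (nat_lit
  137387) (nat_lit 15) nil (node (nat_lit 4) (nat_lit 137387) (nat_lit 15) nil nil))) nil)) (node
  (nat_lit 0) (nat_lit 136907) (nat_lit 13) (node (nat_lit 5) (nat_lit 136907) (nat_lit 14) (node
  (nat_lit 4) (nat_lit 136907) (nat_lit 15) nil (node (nat_lit 7) (nat_lit 136907) (nat_lit 15)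
  nil nil)) (node (nat_lit 7) (nat_lit 136907) (nat_lit 14) (node (nat_lit 5) (nat_lit 136907)
  (nat_lit 15) nil (node (nat_lit 4) (nat_lit 136907) (nat_lit 15) nil nil)) (node (nat_lit 4)
  (nat_lit 136907) (nat_lit 14) (node (nat_lit 5) (nat_lit 136907) (nat_lit 15) nil (node (nat_lit
  7) (nat_lit 136907) (nat_lit 15) nil nil)) nil))) nil)) (node (nat_lit 0) (nat_lit 135245)
  (nat_lit 12) (node (nat_lit 4) (nat_lit 135245) (nat_lit 13) (node (nat_lit 5) (nat_lit 135245)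
  (nat_lit 14) (node (nat_lit 4) (nat_lit 135245) (nat_lit 15) (node (nat_lit 7) (nat_lit 135245)
  (nat_lit 16) (node (nat_lit 5) (nat_lit 135245) (nat_lit 17) (node (nat_lit 4) (nat_lit 135245)
  (nat_lit 18) (node (nat_lit 5) (nat_lit 135245) (nat_lit 19) (node (nat_lit 7) (nat_lit 135998)
  (nat_lit 20) (node (nat_lit 5) (nat_lit 136586) (nat_lit 21) (node (nat_lit 4) (nat_lit 136255)
  (nat_lit 22) (node (nat_lit 7) (nat_lit 136536) (nat_lit 23) nil nil) nil) nil) nil) nil) nil)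
  nil) nil) nil) (node (nat_lit 7) (nat_lit 135245) (nat_lit 14) nil nil)) (node (nat_lit 5)
  (nat_lit 135245) (nat_lit 13) (node (nat_lit 4) (nat_lit 135245) (nat_lit 14) nil (node (nat_lit
  7) (nat_lit 135245) (nat_lit 14) nil nil)) (node (nat_lit 7) (nat_lit 135245) (nat_lit 13) (node
  (nat_lit 4) (nat_lit 135245) (nat_lit 14) (node (nat_lit 5) (nat_lit 135245) (nat_lit 15) (node
  (nat_lit 4) (nat_lit 135245) (nat_lit 16) (node (nat_lit 7) (nat_lit 135245) (nat_lit 17) (node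
  (nat_lit 5) (nat_lit 135245) (nat_lit 18) (node (nat_lit 4) (nat_lit 135245) (nat_lit 19) (node
  (nat_lit 5) (nat_lit 136794) (nat_lit 20) (node (nat_lit 7) (nat_lit 137387) (nat_lit 21) nil
  nil) nil) nil) nil) nil) nil) nil) (node (nat_lit 5) (nat_lit 135245) (nat_lit 14) (node
  (nat_lit 4) (nat_lit 135245) (nat_lit 15) nil nil) nil)) nil))) nil))) (node (nat_lit 0)
  (nat_lit 132362) (nat_lit 11) (node (nat_lit 5) (nat_lit 132362) (nat_lit 12) (node (nat_lit 14)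
  (nat_lit 134082) (nat_lit 13) (node (nat_lit 4) (nat_lit 134082) (nat_lit 14) (node (nat_lit 5)
  (nat_lit 134082) (nat_lit 15) (node (nat_lit 4) (nat_lit 134082) (nat_lit 16) (node (nat_lit 7)
  (nat_lit 134082) (nat_lit 17) (node (nat_lit 5) (nat_lit 134082) (nat_lit 18) (node (nat_lit 4)
  (nat_lit 134082) (nat_lit 19) (node (nat_lit 5) (nat_lit 134082) (nat_lit 20) (node (nat_lit 7)
  (nat_lit 134669) (nat_lit 21) (node (nat_lit 5) (nat_lit 135128) (nat_lit 22) (node (nat_lit 4)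
  (nat_lit 134870) (nat_lit 23) (node (nat_lit 14) (nat_lit 135968) (nat_lit 24) nil nil) nil)
  nil) nil) nil) nil) nil) nil) nil) nil) nil) (node (nat_lit 4) (nat_lit 132362) (nat_lit 13)
  (node (nat_lit 5) (nat_lit 132362) (nat_lit 14) nil nil) (node (nat_lit 7) (nat_lit 132362)
  (nat_lit 13) (node (nat_lit 4) (nat_lit 132362) (nat_lit 14) (node (nat_lit 5) (nat_lit 132362)
  (nat_lit 15) (node (nat_lit 4) (nat_lit 132362) (nat_lit 16) (node (nat_lit 7) (nat_lit 132362)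
  (nat_lit 17) (node (nat_lit 5) (nat_lit 132362) (nat_lit 18) (node (nat_lit 4) (nat_lit 134968)
  (nat_lit 19) (node (nat_lit 5) (nat_lit 137002) (nat_lit 20) nil nil) nil) nil) nil) nil) nil)
  nil) nil))) (node (nat_lit 4) (nat_lit 132362) (nat_lit 12) (node (nat_lit 5) (nat_lit 132362)
  (nat_lit 13) (node (nat_lit 4) (nat_lit 132362) (nat_lit 14) (node (nat_lit 7) (nat_lit 132362)
  (nat_lit 15) (node (nat_lit 5) (nat_lit 132362) (nat_lit 16) (node (nat_lit 4) (nat_lit 132362)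
  (nat_lit 17) (node (nat_lit 5) (nat_lit 132362) (nat_lit 18) (node (nat_lit 7) (nat_lit 133328)
  (nat_lit 19) (node (nat_lit 5) (nat_lit 134082) (nat_lit 20) (node (nat_lit 4) (nat_lit 133658)
  (nat_lit 21) nil nil) nil) nil) nil) nil) nil) nil) (node (nat_lit 7) (nat_lit 132362) (nat_lit
  14) nil nil)) (node (nat_lit 7) (nat_lit 132362) (nat_lit 13) (node (nat_lit 5) (nat_lit 132362)
  (nat_lit 14) nil (node (nat_lit 4) (nat_lit 132362) (nat_lit 14) nil nil)) nil)) (node (nat_lit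
  7) (nat_lit 132362) (nat_lit 12) (node (nat_lit 4) (nat_lit 132362) (nat_lit 13) (node (nat_lit
  5) (nat_lit 132362) (nat_lit 14) (node (nat_lit 4) (nat_lit 132362) (nat_lit 15) (node (nat_lit
  7) (nat_lit 132362) (nat_lit 16) (node (nat_lit 5) (nat_lit 132362) (nat_lit 17) (node (nat_lit
  4) (nat_lit 132362) (nat_lit 18) (node (nat_lit 5) (nat_lit 134347) (nat_lit 19) (node (nat_lit
  7) (nat_lit 135896) (nat_lit 20) nil nil) nil) nil) nil) nil) nil) (node (nat_lit 7) (nat_lit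
  132362) (nat_lit 14) nil nil)) (node (nat_lit 5) (nat_lit 132362) (nat_lit 13) nil nil)) nil)))
  nil))

noncomputable def t99 : Tr :=
  (node (nat_lit 4) (nat_lit 0) (nat_lit 9) (node (nat_lit 7) (nat_lit 0) (nat_lit 10) (node
  (nat_lit 5) (nat_lit 0) (nat_lit 11) t95 (node (nat_lit 0) (nat_lit 134554) (nat_lit 11) (node
  (nat_lit 7) (nat_lit 134554) (nat_lit 12) (node (nat_lit 4) (nat_lit 134554) (nat_lit 13) (node
  (nat_lit 5) (nat_lit 134554) (nat_lit 14) (node (nat_lit 4) (nat_lit 134554) (nat_lit 15) (node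
  (nat_lit 7) (nat_lit 134554) (nat_lit 16) (node (nat_lit 5) (nat_lit 134554) (nat_lit 17) (node
  (nat_lit 4) (nat_lit 134554) (nat_lit 18) (node (nat_lit 5) (nat_lit 136538) (nat_lit 19) (node
  (nat_lit 7) (nat_lit 137387) (nat_lit 20) nil nil) nil) nil) nil) nil) (node (nat_lit 7)
  (nat_lit 134554) (nat_lit 15) nil nil)) (node (nat_lit 7) (nat_lit 134554) (nat_lit 14) (node
  (nat_lit 5) (nat_lit 134554) (nat_lit 15) nil nil) nil)) (node (nat_lit 5) (nat_lit 134554)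
  (nat_lit 13) (node (nat_lit 4) (nat_lit 134554) (nat_lit 14) (node (nat_lit 5) (nat_lit 134554)
  (nat_lit 15) nil (node (nat_lit 7) (nat_lit 134554) (nat_lit 15) nil nil)) (node (nat_lit 7)
  (nat_lit 134554) (nat_lit 14) nil nil)) nil)) (node (nat_lit 4) (nat_lit 134554) (nat_lit 12)
  (node (nat_lit 5) (nat_lit 134554) (nat_lit 13) (node (nat_lit 4) (nat_lit 134554) (nat_lit 14)
  (node (nat_lit 7) (nat_lit 134554) (nat_lit 15) (node (nat_lit 5) (nat_lit 134554) (nat_lit 16)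
  (node (nat_lit 4) (nat_lit 134554) (nat_lit 17) (node (nat_lit 5) (nat_lit 134554) (nat_lit 18)
  (node (nat_lit 7) (nat_lit 135519) (nat_lit 19) (node (nat_lit 4) (nat_lit 136273) (nat_lit 20)
  nil nil) nil) nil) nil) nil) nil) (node (nat_lit 7) (nat_lit 134554) (nat_lit 14) (node (nat_lit
  4) (nat_lit 134554) (nat_lit 15) nil nil) nil)) (node (nat_lit 7) (nat_lit 134554) (nat_lit 13)
  (node (nat_lit 4) (nat_lit 134554) (nat_lit 14) (node (nat_lit 5) (nat_lit 134554) (nat_lit 15)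
  nil nil) (node (nat_lit 5) (nat_lit 134554) (nat_lit 14) nil nil)) nil)) (node (nat_lit 5)
  (nat_lit 134554) (nat_lit 12) (node (nat_lit 4) (nat_lit 134554) (nat_lit 13) (node (nat_lit 7)
  (nat_lit 134554) (nat_lit 14) (node (nat_lit 5) (nat_lit 134554) (nat_lit 15) nil nil) (node
  (nat_lit 5) (nat_lit 134554) (nat_lit 14) nil nil)) (node (nat_lit 7) (nat_lit 134554) (nat_lit
  13) (node (nat_lit 5) (nat_lit 134554) (nat_lit 14) (node (nat_lit 4) (nat_lit 134554) (nat_lit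
  15) nil nil) (node (nat_lit 4) (nat_lit 134554) (nat_lit 14) (node (nat_lit 5) (nat_lit 134554)
  (nat_lit 15) nil nil) nil)) nil)) (node (nat_lit 0) (nat_lit 135519) (nat_lit 12) nil nil))))
  nil)) (node (nat_lit 5) (nat_lit 0) (nat_lit 10) (node (nat_lit 4) (nat_lit 0) (nat_lit 11) t96
  (node (nat_lit 0) (nat_lit 0) (nat_lit 11) (node (nat_lit 5) (nat_lit 118634) (nat_lit 12) (node
  (nat_lit 7) (nat_lit 118634) (nat_lit 13) (node (nat_lit 4) (nat_lit 118634) (nat_lit 14) (node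
  (nat_lit 5) (nat_lit 118634) (nat_lit 15) (node (nat_lit 4) (nat_lit 118634) (nat_lit 16) (node
  (nat_lit 7) (nat_lit 118634) (nat_lit 17) (node (nat_lit 5) (nat_lit 118634) (nat_lit 18) (node
  (nat_lit 4) (nat_lit 121240) (nat_lit 19) (node (nat_lit 5) (nat_lit 123274) (nat_lit 20) nil
  nil) nil) nil) nil) nil) (node (nat_lit 7) (nat_lit 118634) (nat_lit 15) nil nil)) nil) (node
  (nat_lit 4) (nat_lit 118634) (nat_lit 13) (node (nat_lit 7) (nat_lit 118634) (nat_lit 14) nil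
  nil) nil)) (node (nat_lit 4) (nat_lit 118634) (nat_lit 12) (node (nat_lit 5) (nat_lit 118634)
  (nat_lit 13) (node (nat_lit 4) (nat_lit 118634) (nat_lit 14) (node (nat_lit 14) (nat_lit 121400)
  (nat_lit 15) (node (nat_lit 5) (nat_lit 121400) (nat_lit 16) (node (nat_lit 14) (nat_lit 122038)
  (nat_lit 17) (node (nat_lit 4) (nat_lit 122038) (nat_lit 18) (node (nat_lit 5) (nat_lit 122038)
  (nat_lit 19) (node (nat_lit 4) (nat_lit 122038) (nat_lit 20) (node (nat_lit 7) (nat_lit 122038)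
  (nat_lit 21) (node (nat_lit 5) (nat_lit 122038) (nat_lit 22) (node (nat_lit 4) (nat_lit 122038)
  (nat_lit 23) (node (nat_lit 5) (nat_lit 122038) (nat_lit 24) (node (nat_lit 7) (nat_lit 122256)
  (nat_lit 25) nil nil) nil) nil) nil) nil) nil) nil) nil) nil) nil) (node (nat_lit 7) (nat_lit
  118634) (nat_lit 15) (node (nat_lit 5) (nat_lit 118634) (nat_lit 16) (node (nat_lit 4) (nat_lit
  118634) (nat_lit 17) (node (nat_lit 5) (nat_lit 118634) (nat_lit 18) (node (nat_lit 7) (nat_lit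
  119600) (nat_lit 19) (node (nat_lit 4) (nat_lit 120354) (nat_lit 20) nil nil) nil) nil) nil)
  nil) nil)) nil) (node (nat_lit 7) (nat_lit 118634) (nat_lit 13) (node (nat_lit 4) (nat_lit
  118634) (nat_lit 14) (node (nat_lit 5) (nat_lit 118634) (nat_lit 15) (node (nat_lit 4) (nat_lit
  118634) (nat_lit 16) (node (nat_lit 7) (nat_lit 118634) (nat_lit 17) (node (nat_lit 5) (nat_lit
  118634) (nat_lit 18) (node (nat_lit 4) (nat_lit 119953) (nat_lit 19) (node (nat_lit 5) (nat_lit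
  121511) (nat_lit 20) (node (nat_lit 7) (nat_lit 122434) (nat_lit 21) (node (nat_lit 4) (nat_lit
  122523) (nat_lit 22) (node (nat_lit 5) (nat_lit 123140) (nat_lit 23) nil nil) nil) nil) nil)
  nil) nil) nil) nil) nil) nil) nil)) (node (nat_lit 7) (nat_lit 118634) (nat_lit 12) (node
  (nat_lit 4) (nat_lit 118634) (nat_lit 13) (node (nat_lit 5) (nat_lit 118634) (nat_lit 14) (node
  (nat_lit 4) (nat_lit 118634) (nat_lit 15) (node (nat_lit 7) (nat_lit 118634) (nat_lit 16) (node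
  (nat_lit 5) (nat_lit 118634) (nat_lit 17) (node (nat_lit 4) (nat_lit 118634) (nat_lit 18) (node
  (nat_lit 5) (nat_lit 120619) (nat_lit 19) (node (nat_lit 7) (nat_lit 122168) (nat_lit 20) (node
  (nat_lit 4) (nat_lit 123376) (nat_lit 21) (node (nat_lit 5) (nat_lit 123907) (nat_lit 22) nil
  nil) nil) nil) nil) nil) nil) nil) nil) nil) (node (nat_lit 5) (nat_lit 118634) (nat_lit 13)
  (node (nat_lit 7) (nat_lit 118634) (nat_lit 14) (node (nat_lit 4) (nat_lit 118634) (nat_lit 15)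
  (node (nat_lit 5) (nat_lit 118634) (nat_lit 16) (node (nat_lit 4) (nat_lit 118634) (nat_lit 17)
  (node (nat_lit 7) (nat_lit 118634) (nat_lit 18) (node (nat_lit 5) (nat_lit 120834) (nat_lit 19)
  nil nil) nil) nil) nil) nil) (node (nat_lit 4) (nat_lit 118634) (nat_lit 14) nil nil)) nil))
  (node (nat_lit 0) (nat_lit 119600) (nat_lit 12) nil nil)))) nil)) (node (nat_lit 0) (nat_lit 0)
  (nat_lit 10) (node (nat_lit 5) (nat_lit 133311) (nat_lit 11) (node (nat_lit 4) (nat_lit 133311)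
  (nat_lit 12) (node (nat_lit 7) (nat_lit 133311) (nat_lit 13) (node (nat_lit 4) (nat_lit 133311)
  (nat_lit 14) (node (nat_lit 5) (nat_lit 133311) (nat_lit 15) (node (nat_lit 4) (nat_lit 133311)
  (nat_lit 16) (node (nat_lit 7) (nat_lit 133311) (nat_lit 17) (node (nat_lit 5) (nat_lit 136313)
  (nat_lit 18) nil nil) nil) nil) nil) (node (nat_lit 5) (nat_lit 133311) (nat_lit 14) nil nil))
  (node (nat_lit 5) (nat_lit 133311) (nat_lit 13) (node (nat_lit 7) (nat_lit 133311) (nat_lit 14)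
  (node (nat_lit 4) (nat_lit 133311) (nat_lit 15) (node (nat_lit 5) (nat_lit 133311) (nat_lit 16)
  (node (nat_lit 4) (nat_lit 133425) (nat_lit 17) (node (nat_lit 7) (nat_lit 136679) (nat_lit 18)
  nil nil) nil) nil) (node (nat_lit 5) (nat_lit 133311) (nat_lit 15) nil nil)) nil) nil)) (node
  (nat_lit 7) (nat_lit 133311) (nat_lit 12) (node (nat_lit 4) (nat_lit 133311) (nat_lit 13) (node
  (nat_lit 5) (nat_lit 133311) (nat_lit 14) (node (nat_lit 4) (nat_lit 133311) (nat_lit 15) (node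
  (nat_lit 7) (nat_lit 133311) (nat_lit 16) (node (nat_lit 5) (nat_lit 133311) (nat_lit 17) (node
  (nat_lit 4) (nat_lit 136649) (nat_lit 18) (node (nat_lit 5) (nat_lit 137387) (nat_lit 19) (node
  (nat_lit 7) (nat_lit 137387) (nat_lit 20) nil nil) nil) nil) nil) nil) nil) (node (nat_lit 7)
  (nat_lit 133311) (nat_lit 14) (node (nat_lit 5) (nat_lit 133311) (nat_lit 15) nil nil) nil))
  (node (nat_lit 5) (nat_lit 133311) (nat_lit 13) (node (nat_lit 4) (nat_lit 133311) (nat_lit 14)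
  nil nil) nil)) (node (nat_lit 13) (nat_lit 135514) (nat_lit 12) (node (nat_lit 4) (nat_lit
  135514) (nat_lit 13) (node (nat_lit 5) (nat_lit 135514) (nat_lit 14) (node (nat_lit 4) (nat_lit
  135514) (nat_lit 15) (node (nat_lit 7) (nat_lit 135514) (nat_lit 16) (node (nat_lit 5) (nat_lit
  135514) (nat_lit 17) (node (nat_lit 4) (nat_lit 135514) (nat_lit 18) (node (nat_lit 5) (nat_lit
  135514) (nat_lit 19) (node (nat_lit 7) (nat_lit 136268) (nat_lit 20) (node (nat_lit 4) (nat_lit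
  136855) (nat_lit 21) nil nil) nil) nil) nil) nil) nil) nil) nil) nil) nil))) (node (nat_lit 4)
  (nat_lit 133311) (nat_lit 11) (node (nat_lit 7) (nat_lit 133311) (nat_lit 12) (node (nat_lit 5)
  (nat_lit 133311) (nat_lit 13) (node (nat_lit 7) (nat_lit 133311) (nat_lit 14) (node (nat_lit 4)
  (nat_lit 133311) (nat_lit 15) (node (nat_lit 5) (nat_lit 133311) (nat_lit 16) (node (nat_lit 4)
  (nat_lit 133311) (nat_lit 17) (node (nat_lit 7) (nat_lit 137223) (nat_lit 18) (node (nat_lit 5)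
  (nat_lit 137387) (nat_lit 19) (node (nat_lit 4) (nat_lit 137387) (nat_lit 20) (node (nat_lit 5)
  (nat_lit 137387) (nat_lit 21) nil nil) nil) nil) nil) nil) nil) nil) (node (nat_lit 4) (nat_lit
  133311) (nat_lit 14) nil nil)) (node (nat_lit 4) (nat_lit 133311) (nat_lit 13) (node (nat_lit 5)
  (nat_lit 133311) (nat_lit 14) (node (nat_lit 4) (nat_lit 133311) (nat_lit 15) (node (nat_lit 7)
  (nat_lit 133311) (nat_lit 16) (node (nat_lit 5) (nat_lit 133311) (nat_lit 17) (node (nat_lit 4)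
  (nat_lit 135001) (nat_lit 18) (node (nat_lit 5) (nat_lit 136997) (nat_lit 19) (node (nat_lit 7)
  (nat_lit 137387) (nat_lit 20) (node (nat_lit 4) (nat_lit 137387) (nat_lit 21) nil nil) nil) nil)
  nil) nil) nil) nil) nil) nil)) (node (nat_lit 5) (nat_lit 133311) (nat_lit 12) (node (nat_lit 4)
  (nat_lit 133311) (nat_lit 13) (node (nat_lit 7) (nat_lit 133311) (nat_lit 14) (node (nat_lit 5)
  (nat_lit 133311) (nat_lit 15) (node (nat_lit 4) (nat_lit 133311) (nat_lit 16) (node (nat_lit 5)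
  (nat_lit 133311) (nat_lit 17) (node (nat_lit 7) (nat_lit 134548) (nat_lit 18) (node (nat_lit 4)
  (nat_lit 135514) (nat_lit 19) nil nil) nil) nil) nil) nil) nil) (node (nat_lit 7) (nat_lit
  133311) (nat_lit 13) (node (nat_lit 4) (nat_lit 133311) (nat_lit 14) (node (nat_lit 7) (nat_lit
  133311) (nat_lit 15) nil nil) (node (nat_lit 5) (nat_lit 133311) (nat_lit 14) (node (nat_lit 4)
  (nat_lit 133311) (nat_lit 15) nil nil) nil)) nil)) nil)) (node (nat_lit 7) (nat_lit 133311)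
  (nat_lit 11) (node (nat_lit 4) (nat_lit 133311) (nat_lit 12) (node (nat_lit 5) (nat_lit 133311)
  (nat_lit 13) (node (nat_lit 4) (nat_lit 133311) (nat_lit 14) (node (nat_lit 7) (nat_lit 133311)
  (nat_lit 15) (node (nat_lit 5) (nat_lit 133311) (nat_lit 16) (node (nat_lit 4) (nat_lit 133311)
  (nat_lit 17) (node (nat_lit 5) (nat_lit 135854) (nat_lit 18) (node (nat_lit 7) (nat_lit 137387)
  (nat_lit 19) (node (nat_lit 4) (nat_lit 137387) (nat_lit 20) nil nil) nil) nil) nil) nil) nil)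
  (node (nat_lit 7) (nat_lit 133311) (nat_lit 14) (node (nat_lit 5) (nat_lit 133311) (nat_lit 15)
  nil nil) nil)) (node (nat_lit 7) (nat_lit 133311) (nat_lit 13) (node (nat_lit 5) (nat_lit
  133311) (nat_lit 14) (node (nat_lit 4) (nat_lit 133311) (nat_lit 15) nil (node (nat_lit 7)
  (nat_lit 133311) (nat_lit 15) nil nil)) nil) nil)) (node (nat_lit 5) (nat_lit 133311) (nat_lit
  12) (node (nat_lit 4) (nat_lit 133311) (nat_lit 13) (node (nat_lit 7) (nat_lit 133311) (nat_lit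
  14) nil (node (nat_lit 5) (nat_lit 133311) (nat_lit 14) (node (nat_lit 7) (nat_lit 133311)
  (nat_lit 15) nil nil) nil)) (node (nat_lit 7) (nat_lit 133311) (nat_lit 13) (node (nat_lit 4)
  (nat_lit 133311) (nat_lit 14) (node (nat_lit 5) (nat_lit 133311) (nat_lit 15) (node (nat_lit 4)
  (nat_lit 133311) (nat_lit 16) (node (nat_lit 7) (nat_lit 133311) (nat_lit 17) (node (nat_lit 5)
  (nat_lit 136130) (nat_lit 18) nil nil) nil) nil) (node (nat_lit 7) (nat_lit 133311) (nat_lit 15)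
  nil nil)) nil) nil)) (node (nat_lit 13) (nat_lit 135514) (nat_lit 12) nil nil))) (node (nat_lit
  0) (nat_lit 135854) (nat_lit 11) nil nil)))) nil))) (node (nat_lit 5) (nat_lit 0) (nat_lit 9)
  (node (nat_lit 4) (nat_lit 0) (nat_lit 10) t98 (node (nat_lit 0) (nat_lit 130991) (nat_lit 10)
  (node (nat_lit 4) (nat_lit 130991) (nat_lit 11) (node (nat_lit 5) (nat_lit 130991) (nat_lit 12)
  (node (nat_lit 4) (nat_lit 130991) (nat_lit 13) (node (nat_lit 7) (nat_lit 130991) (nat_lit 14)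
  (node (nat_lit 5) (nat_lit 130991) (nat_lit 15) (node (nat_lit 4) (nat_lit 130991) (nat_lit 16)
  (node (nat_lit 5) (nat_lit 130991) (nat_lit 17) (node (nat_lit 7) (nat_lit 132228) (nat_lit 18)
  (node (nat_lit 5) (nat_lit 133194) (nat_lit 19) nil nil) nil) nil) nil) nil) nil) (node (nat_lit
  7) (nat_lit 130991) (nat_lit 13) (node (nat_lit 4) (nat_lit 130991) (nat_lit 14) (node (nat_lit
  5) (nat_lit 130991) (nat_lit 15) (node (nat_lit 4) (nat_lit 130991) (nat_lit 16) (node (nat_lit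
  7) (nat_lit 130881) (nat_lit 17) (node (nat_lit 5) (nat_lit 134185) (nat_lit 18) nil nil) nil)
  nil) nil) nil) nil)) (node (nat_lit 7) (nat_lit 130991) (nat_lit 12) (node (nat_lit 4) (nat_lit
  130991) (nat_lit 13) (node (nat_lit 5) (nat_lit 130991) (nat_lit 14) (node (nat_lit 4) (nat_lit
  130991) (nat_lit 15) (node (nat_lit 7) (nat_lit 130991) (nat_lit 16) (node (nat_lit 5) (nat_lit
  131234) (nat_lit 17) (node (nat_lit 4) (nat_lit 132654) (nat_lit 18) (node (nat_lit 5) (nat_lit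
  134439) (nat_lit 19) nil nil) nil) nil) nil) nil) nil) (node (nat_lit 5) (nat_lit 130991)
  (nat_lit 13) (node (nat_lit 7) (nat_lit 130991) (nat_lit 14) (node (nat_lit 4) (nat_lit 130991)
  (nat_lit 15) (node (nat_lit 5) (nat_lit 130991) (nat_lit 16) (node (nat_lit 4) (nat_lit 130991)
  (nat_lit 17) (node (nat_lit 7) (nat_lit 134903) (nat_lit 18) nil nil) nil) nil) nil) nil) nil))
  nil)) (node (nat_lit 7) (nat_lit 130991) (nat_lit 11) (node (nat_lit 4) (nat_lit 130991)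
  (nat_lit 12) (node (nat_lit 5) (nat_lit 130991) (nat_lit 13) (node (nat_lit 4) (nat_lit 130991)
  (nat_lit 14) (node (nat_lit 7) (nat_lit 130991) (nat_lit 15) (node (nat_lit 5) (nat_lit 130991)
  (nat_lit 16) (node (nat_lit 4) (nat_lit 130991) (nat_lit 17) (node (nat_lit 5) (nat_lit 133533)
  (nat_lit 18) (node (nat_lit 7) (nat_lit 135518) (nat_lit 19) nil nil) nil) nil) nil) nil) (node
  (nat_lit 7) (nat_lit 130991) (nat_lit 14) nil nil)) (node (nat_lit 7) (nat_lit 130991) (nat_lit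
  13) nil nil)) (node (nat_lit 5) (nat_lit 130991) (nat_lit 12) (node (nat_lit 7) (nat_lit 130991)
  (nat_lit 13) (node (nat_lit 4) (nat_lit 130991) (nat_lit 14) (node (nat_lit 5) (nat_lit 130991)
  (nat_lit 15) (node (nat_lit 4) (nat_lit 130991) (nat_lit 16) (node (nat_lit 7) (nat_lit 130991)
  (nat_lit 17) (node (nat_lit 5) (nat_lit 133809) (nat_lit 18) nil nil) nil) nil) (node (nat_lit
  7) (nat_lit 130991) (nat_lit 15) nil nil)) nil) nil) nil)) (node (nat_lit 5) (nat_lit 130991)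
  (nat_lit 11) (node (nat_lit 4) (nat_lit 130991) (nat_lit 12) (node (nat_lit 7) (nat_lit 130991)
  (nat_lit 13) (node (nat_lit 4) (nat_lit 130991) (nat_lit 14) (node (nat_lit 5) (nat_lit 130991)
  (nat_lit 15) (node (nat_lit 4) (nat_lit 130991) (nat_lit 16) (node (nat_lit 7) (nat_lit 131234)
  (nat_lit 17) (node (nat_lit 5) (nat_lit 133966) (nat_lit 18) nil nil) nil) nil) nil) nil) nil)
  (node (nat_lit 7) (nat_lit 130991) (nat_lit 12) (node (nat_lit 4) (nat_lit 130991) (nat_lit 13)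
  (node (nat_lit 5) (nat_lit 130991) (nat_lit 14) (node (nat_lit 4) (nat_lit 130991) (nat_lit 15)
  (node (nat_lit 7) (nat_lit 130991) (nat_lit 16) (node (nat_lit 5) (nat_lit 130991) (nat_lit 17)
  (node (nat_lit 4) (nat_lit 134329) (nat_lit 18) (node (nat_lit 5) (nat_lit 136934) (nat_lit 19)
  (node (nat_lit 7) (nat_lit 137387) (nat_lit 20) nil nil) nil) nil) nil) nil) nil) nil) nil)
  nil)) nil))) nil)) (node (nat_lit 0) (nat_lit 0) (nat_lit 9) (node (nat_lit 4) (nat_lit 127038)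
  (nat_lit 10) (node (nat_lit 5) (nat_lit 127038) (nat_lit 11) (node (nat_lit 7) (nat_lit 127038)
  (nat_lit 12) (node (nat_lit 4) (nat_lit 127038) (nat_lit 13) (node (nat_lit 5) (nat_lit 127038)
  (nat_lit 14) (node (nat_lit 4) (nat_lit 127038) (nat_lit 15) (node (nat_lit 7) (nat_lit 126891)
  (nat_lit 16) (node (nat_lit 5) (nat_lit 131124) (nat_lit 17) nil nil) nil) nil) (node (nat_lit
  7) (nat_lit 127038) (nat_lit 14) nil nil)) (node (nat_lit 5) (nat_lit 127038) (nat_lit 13) (node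
  (nat_lit 4) (nat_lit 127038) (nat_lit 14) nil nil) nil)) (node (nat_lit 4) (nat_lit 127038)
  (nat_lit 12) (node (nat_lit 7) (nat_lit 127038) (nat_lit 13) (node (nat_lit 5) (nat_lit 127038)
  (nat_lit 14) (node (nat_lit 4) (nat_lit 127038) (nat_lit 15) (node (nat_lit 5) (nat_lit 127038)
  (nat_lit 16) (node (nat_lit 7) (nat_lit 128623) (nat_lit 17) nil nil) nil) nil) nil) nil) nil))
  (node (nat_lit 7) (nat_lit 127038) (nat_lit 11) (node (nat_lit 4) (nat_lit 127038) (nat_lit 12)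
  (node (nat_lit 5) (nat_lit 127038) (nat_lit 13) (node (nat_lit 4) (nat_lit 127038) (nat_lit 14)
  (node (nat_lit 7) (nat_lit 127038) (nat_lit 15) (node (nat_lit 5) (nat_lit 127038) (nat_lit 16)
  (node (nat_lit 4) (nat_lit 129205) (nat_lit 17) (node (nat_lit 5) (nat_lit 131762) (nat_lit 18)
  (node (nat_lit 7) (nat_lit 132726) (nat_lit 19) nil nil) nil) nil) nil) nil) nil) nil) (node
  (nat_lit 5) (nat_lit 127038) (nat_lit 12) (node (nat_lit 7) (nat_lit 127038) (nat_lit 13) (node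
  (nat_lit 4) (nat_lit 127038) (nat_lit 14) nil nil) (node (nat_lit 4) (nat_lit 127038) (nat_lit
  13) nil nil)) nil)) (node (nat_lit 12) (nat_lit 132839) (nat_lit 11) nil nil))) (node (nat_lit
  7) (nat_lit 127038) (nat_lit 10) (node (nat_lit 5) (nat_lit 127038) (nat_lit 11) (node (nat_lit
  7) (nat_lit 127038) (nat_lit 12) (node (nat_lit 4) (nat_lit 127038) (nat_lit 13) (node (nat_lit
  5) (nat_lit 127038) (nat_lit 14) (node (nat_lit 4) (nat_lit 127038) (nat_lit 15) (node (nat_lit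
  7) (nat_lit 127038) (nat_lit 16) (node (nat_lit 5) (nat_lit 130650) (nat_lit 17) (node (nat_lit
  4) (nat_lit 133607) (nat_lit 18) (node (nat_lit 5) (nat_lit 133286) (nat_lit 19) (node (nat_lit
  7) (nat_lit 133530) (nat_lit 20) nil nil) nil) nil) nil) nil) nil) nil) nil) (node (nat_lit 4)
  (nat_lit 127038) (nat_lit 12) (node (nat_lit 7) (nat_lit 127038) (nat_lit 13) (node (nat_lit 4)
  (nat_lit 127038) (nat_lit 14) (node (nat_lit 5) (nat_lit 127038) (nat_lit 15) (node (nat_lit 4)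
  (nat_lit 127038) (nat_lit 16) (node (nat_lit 7) (nat_lit 129205) (nat_lit 17) nil nil) nil) nil)
  nil) (node (nat_lit 5) (nat_lit 127038) (nat_lit 13) (node (nat_lit 7) (nat_lit 127038) (nat_lit
  14) nil nil) nil)) nil)) (node (nat_lit 4) (nat_lit 127038) (nat_lit 11) (node (nat_lit 5)
  (nat_lit 127038) (nat_lit 12) (node (nat_lit 4) (nat_lit 127038) (nat_lit 13) (node (nat_lit 7)
  (nat_lit 127038) (nat_lit 14) (node (nat_lit 5) (nat_lit 127038) (nat_lit 15) (node (nat_lit 4)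
  (nat_lit 127038) (nat_lit 16) (node (nat_lit 5) (nat_lit 130297) (nat_lit 17) (node (nat_lit 7)
  (nat_lit 132839) (nat_lit 18) nil nil) nil) nil) nil) nil) (node (nat_lit 7) (nat_lit 127038)
  (nat_lit 13) nil nil)) (node (nat_lit 7) (nat_lit 127038) (nat_lit 12) nil nil)) nil)) (node
  (nat_lit 5) (nat_lit 127038) (nat_lit 10) (node (nat_lit 7) (nat_lit 127038) (nat_lit 11) (node
  (nat_lit 4) (nat_lit 127038) (nat_lit 12) (node (nat_lit 5) (nat_lit 127038) (nat_lit 13) (node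
  (nat_lit 4) (nat_lit 127038) (nat_lit 14) (node (nat_lit 7) (nat_lit 127038) (nat_lit 15) (node
  (nat_lit 5) (nat_lit 127038) (nat_lit 16) (node (nat_lit 4) (nat_lit 131316) (nat_lit 17) (node
  (nat_lit 5) (nat_lit 132372) (nat_lit 18) (node (nat_lit 7) (nat_lit 132726) (nat_lit 19) nil
  nil) nil) nil) nil) nil) (node (nat_lit 7) (nat_lit 127038) (nat_lit 14) nil nil)) (node
  (nat_lit 7) (nat_lit 127038) (nat_lit 13) (node (nat_lit 5) (nat_lit 127038) (nat_lit 14) nil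
  nil) nil)) (node (nat_lit 5) (nat_lit 127038) (nat_lit 12) (node (nat_lit 4) (nat_lit 127038)
  (nat_lit 13) nil nil) nil)) (node (nat_lit 4) (nat_lit 127038) (nat_lit 11) (node (nat_lit 7)
  (nat_lit 127038) (nat_lit 12) (node (nat_lit 4) (nat_lit 127038) (nat_lit 13) (node (nat_lit 5)
  (nat_lit 127038) (nat_lit 14) nil nil) (node (nat_lit 5) (nat_lit 127038) (nat_lit 13) nil nil))
  (node (nat_lit 5) (nat_lit 127038) (nat_lit 12) nil nil)) nil)) (node (nat_lit 0) (nat_lit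
  131904) (nat_lit 10) nil nil)))) nil)))

noncomputable def t100 : Tr :=
  (node (nat_lit 4) (nat_lit 0) (nat_lit 13) (node (nat_lit 5) (nat_lit 0) (nat_lit 14) (node
  (nat_lit 7) (nat_lit 0) (nat_lit 15) (node (nat_lit 5) (nat_lit 0) (nat_lit 16) (node (nat_lit
  4) (nat_lit 0) (nat_lit 17) (node (nat_lit 5) (nat_lit 0) (nat_lit 18) (node (nat_lit 7)
  (nat_lit 0) (nat_lit 19) (node (nat_lit 4) (nat_lit 92905) (nat_lit 20) (node (nat_lit 7)
  (nat_lit 94310) (nat_lit 21) (node (nat_lit 5) (nat_lit 95067) (nat_lit 22) (node (nat_lit 4)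
  (nat_lit 95255) (nat_lit 23) (node (nat_lit 7) (nat_lit 95699) (nat_lit 24) (node (nat_lit 4)
  (nat_lit 96045) (nat_lit 25) (node (nat_lit 5) (nat_lit 96315) (nat_lit 26) (node (nat_lit 4)
  (nat_lit 96525) (nat_lit 27) (node (nat_lit 7) (nat_lit 96579) (nat_lit 28) nil nil) nil) nil)
  nil) nil) (node (nat_lit 7) (nat_lit 95927) (nat_lit 23) (node (nat_lit 4) (nat_lit 96432)
  (nat_lit 24) (node (nat_lit 5) (nat_lit 96955) (nat_lit 25) (node (nat_lit 4) (nat_lit 96871)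
  (nat_lit 26) (node (nat_lit 7) (nat_lit 96755) (nat_lit 27) (node (nat_lit 4) (nat_lit 96826)
  (nat_lit 28) (node (nat_lit 5) (nat_lit 96456) (nat_lit 29) (node (nat_lit 7) (nat_lit 95808)
  (nat_lit 30) (node (nat_lit 5) (nat_lit 94539) (nat_lit 31) (node (nat_lit 4) (nat_lit 91982)
  (nat_lit 32) (node (nat_lit 7) (nat_lit 88633) (nat_lit 33) (node (nat_lit 5) (nat_lit 83564)
  (nat_lit 34) (node (nat_lit 7) (nat_lit 82421) (nat_lit 35) (node (nat_lit 4) (nat_lit 77278)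
  (nat_lit 36) (node (nat_lit 5) (nat_lit 44764) (nat_lit 37) (node (nat_lit 7) (nat_lit 51854)
  (nat_lit 38) (node (nat_lit 5) (nat_lit 41293) (nat_lit 39) (node (nat_lit 4) (nat_lit 34156)
  (nat_lit 40) (node (nat_lit 5) (nat_lit 34558) (nat_lit 41) (node (nat_lit 7) (nat_lit 8067)
  (nat_lit 42) (node (nat_lit 4) (nat_lit 10930) (nat_lit 43) nil nil) nil) nil) nil) nil) nil)
  nil) nil) nil) nil) nil) nil) nil) nil) nil) nil) nil) nil) nil) nil) nil)) nil) (node (nat_lit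
  5) (nat_lit 93549) (nat_lit 21) (node (nat_lit 4) (nat_lit 92515) (nat_lit 22) (node (nat_lit 7)
  (nat_lit 91473) (nat_lit 23) (node (nat_lit 4) (nat_lit 90770) (nat_lit 24) (node (nat_lit 5)
  (nat_lit 89974) (nat_lit 25) (node (nat_lit 7) (nat_lit 87801) (nat_lit 26) (node (nat_lit 5)
  (nat_lit 82940) (nat_lit 27) (node (nat_lit 4) (nat_lit 78225) (nat_lit 28) (node (nat_lit 7)
  (nat_lit 66522) (nat_lit 29) (node (nat_lit 5) (nat_lit 59297) (nat_lit 30) (node (nat_lit 7)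
  (nat_lit 56116) (nat_lit 31) (node (nat_lit 4) (nat_lit 59799) (nat_lit 32) (node (nat_lit 5)
  (nat_lit 44413) (nat_lit 33) nil nil) nil) nil) nil) nil) nil) nil) nil) nil) (node (nat_lit 5)
  (nat_lit 91271) (nat_lit 24) nil nil)) nil) nil) nil)) (node (nat_lit 0) (nat_lit 94370)
  (nat_lit 20) nil nil)) (node (nat_lit 0) (nat_lit 95084) (nat_lit 19) nil nil)) (node (nat_lit
  7) (nat_lit 0) (nat_lit 18) (node (nat_lit 4) (nat_lit 0) (nat_lit 19) (node (nat_lit 5)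
  (nat_lit 93592) (nat_lit 20) (node (nat_lit 7) (nat_lit 94903) (nat_lit 21) (node (nat_lit 4)
  (nat_lit 95631) (nat_lit 22) (node (nat_lit 7) (nat_lit 95989) (nat_lit 23) nil nil) nil) (node
  (nat_lit 4) (nat_lit 94580) (nat_lit 21) (node (nat_lit 7) (nat_lit 94822) (nat_lit 22) (node
  (nat_lit 5) (nat_lit 94563) (nat_lit 23) nil nil) nil) nil)) (node (nat_lit 0) (nat_lit 96607)
  (nat_lit 20) nil nil)) (node (nat_lit 0) (nat_lit 97696) (nat_lit 19) nil nil)) (node (nat_lit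
  0) (nat_lit 98476) (nat_lit 18) nil nil))) (node (nat_lit 0) (nat_lit 99741) (nat_lit 17) (node
  (nat_lit 7) (nat_lit 99741) (nat_lit 18) nil nil) nil)) (node (nat_lit 0) (nat_lit 95958)
  (nat_lit 16) nil nil)) (node (nat_lit 4) (nat_lit 0) (nat_lit 15) (node (nat_lit 7) (nat_lit 0)
  (nat_lit 16) (node (nat_lit 5) (nat_lit 0) (nat_lit 17) (node (nat_lit 4) (nat_lit 0) (nat_lit
  18) (node (nat_lit 5) (nat_lit 0) (nat_lit 19) (node (nat_lit 7) (nat_lit 78793) (nat_lit 20)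
  (node (nat_lit 4) (nat_lit 79353) (nat_lit 21) (node (nat_lit 7) (nat_lit 79815) (nat_lit 22)
  (node (nat_lit 5) (nat_lit 79768) (nat_lit 23) nil nil) (node (nat_lit 5) (nat_lit 80497)
  (nat_lit 22) (node (nat_lit 4) (nat_lit 79862) (nat_lit 23) (node (nat_lit 7) (nat_lit 79083)
  (nat_lit 24) (node (nat_lit 4) (nat_lit 78521) (nat_lit 25) (node (nat_lit 5) (nat_lit 77914)
  (nat_lit 26) (node (nat_lit 7) (nat_lit 77014) (nat_lit 27) (node (nat_lit 5) (nat_lit 73338)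
  (nat_lit 28) (node (nat_lit 4) (nat_lit 70189) (nat_lit 29) (node (nat_lit 7) (nat_lit 63041)
  (nat_lit 30) (node (nat_lit 5) (nat_lit 52761) (nat_lit 31) (node (nat_lit 7) (nat_lit 51346)
  (nat_lit 32) (node (nat_lit 4) (nat_lit 45377) (nat_lit 33) (node (nat_lit 5) (nat_lit 7421)
  (nat_lit 34) nil nil) nil) nil) nil) nil) nil) nil) nil) nil) nil) nil) nil) nil)) (node
  (nat_lit 5) (nat_lit 0) (nat_lit 21) (node (nat_lit 4) (nat_lit 80095) (nat_lit 22) (node
  (nat_lit 7) (nat_lit 80283) (nat_lit 23) (node (nat_lit 4) (nat_lit 79267) (nat_lit 24) nil nil)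
  nil) (node (nat_lit 0) (nat_lit 81613) (nat_lit 22) nil nil)) nil)) (node (nat_lit 0) (nat_lit
  81464) (nat_lit 20) nil nil)) (node (nat_lit 0) (nat_lit 82647) (nat_lit 19) nil nil)) (node
  (nat_lit 7) (nat_lit 0) (nat_lit 18) (node (nat_lit 0) (nat_lit 82544) (nat_lit 19) nil nil)
  (node (nat_lit 0) (nat_lit 84211) (nat_lit 18) nil nil))) (node (nat_lit 4) (nat_lit 0) (nat_lit
  17) (node (nat_lit 5) (nat_lit 0) (nat_lit 18) (node (nat_lit 7) (nat_lit 0) (nat_lit 19) (node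
  (nat_lit 4) (nat_lit 67466) (nat_lit 20) (node (nat_lit 7) (nat_lit 68978) (nat_lit 21) (node
  (nat_lit 5) (nat_lit 69875) (nat_lit 22) (node (nat_lit 4) (nat_lit 70062) (nat_lit 23) nil
  (node (nat_lit 7) (nat_lit 70798) (nat_lit 23) (node (nat_lit 4) (nat_lit 71370) (nat_lit 24)
  (node (nat_lit 5) (nat_lit 71799) (nat_lit 25) (node (nat_lit 4) (nat_lit 71861) (nat_lit 26)
  (node (nat_lit 7) (nat_lit 71561) (nat_lit 27) (node (nat_lit 4) (nat_lit 71018) (nat_lit 28)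
  (node (nat_lit 5) (nat_lit 69971) (nat_lit 29) nil nil) nil) nil) nil) nil) nil) nil)) nil) nil)
  (node (nat_lit 5) (nat_lit 0) (nat_lit 20) (node (nat_lit 4) (nat_lit 42898) (nat_lit 21) (node
  (nat_lit 5) (nat_lit 43930) (nat_lit 22) (node (nat_lit 7) (nat_lit 44723) (nat_lit 23) (node
  (nat_lit 4) (nat_lit 45237) (nat_lit 24) nil nil) nil) nil) (node (nat_lit 0) (nat_lit 43848)
  (nat_lit 21) nil nil)) (node (nat_lit 0) (nat_lit 68305) (nat_lit 20) nil nil))) (node (nat_lit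
  0) (nat_lit 72703) (nat_lit 19) nil nil)) (node (nat_lit 0) (nat_lit 74284) (nat_lit 18) nil
  nil)) (node (nat_lit 0) (nat_lit 83675) (nat_lit 17) nil nil))) (node (nat_lit 0) (nat_lit
  85359) (nat_lit 16) (node (nat_lit 5) (nat_lit 85359) (nat_lit 17) nil (node (nat_lit 4)
  (nat_lit 85359) (nat_lit 17) nil (node (nat_lit 7) (nat_lit 85359) (nat_lit 17) nil nil))) nil))
  (node (nat_lit 0) (nat_lit 98857) (nat_lit 15) (node (nat_lit 5) (nat_lit 98857) (nat_lit 16)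
  nil (node (nat_lit 4) (nat_lit 98857) (nat_lit 16) nil (node (nat_lit 7) (nat_lit 98857)
  (nat_lit 16) nil nil))) nil))) (node (nat_lit 7) (nat_lit 0) (nat_lit 14) (node (nat_lit 5)
  (nat_lit 0) (nat_lit 15) (node (nat_lit 4) (nat_lit 0) (nat_lit 16) (node (nat_lit 5) (nat_lit
  0) (nat_lit 17) (node (nat_lit 7) (nat_lit 0) (nat_lit 18) (node (nat_lit 4) (nat_lit 0)
  (nat_lit 19) (node (nat_lit 5) (nat_lit 0) (nat_lit 20) (node (nat_lit 4) (nat_lit 0) (nat_lit
  21) (node (nat_lit 7) (nat_lit 0) (nat_lit 22) (node (nat_lit 4) (nat_lit 91725) (nat_lit 23)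
  (node (nat_lit 5) (nat_lit 89801) (nat_lit 24) (node (nat_lit 7) (nat_lit 90533) (nat_lit 25)
  (node (nat_lit 5) (nat_lit 83824) (nat_lit 26) (node (nat_lit 4) (nat_lit 84062) (nat_lit 27)
  (node (nat_lit 7) (nat_lit 78915) (nat_lit 28) (node (nat_lit 5) (nat_lit 63136) (nat_lit 29)
  (node (nat_lit 7) (nat_lit 49668) (nat_lit 30) (node (nat_lit 4) (nat_lit 40562) (nat_lit 31)
  (node (nat_lit 7) (nat_lit 41114) (nat_lit 32) nil nil) nil) nil) nil) nil) nil) (node (nat_lit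
  4) (nat_lit 90703) (nat_lit 26) nil nil)) nil) nil) (node (nat_lit 5) (nat_lit 94585) (nat_lit
  23) (node (nat_lit 7) (nat_lit 95252) (nat_lit 24) (node (nat_lit 4) (nat_lit 95634) (nat_lit
  25) (node (nat_lit 5) (nat_lit 94694) (nat_lit 26) nil (node (nat_lit 7) (nat_lit 95804)
  (nat_lit 26) nil nil)) nil) (node (nat_lit 4) (nat_lit 94864) (nat_lit 24) nil nil)) (node
  (nat_lit 0) (nat_lit 95290) (nat_lit 23) nil nil))) (node (nat_lit 0) (nat_lit 96370) (nat_lit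
  22) nil nil)) (node (nat_lit 0) (nat_lit 99212) (nat_lit 21) nil nil)) (node (nat_lit 7)
  (nat_lit 0) (nat_lit 20) (node (nat_lit 5) (nat_lit 0) (nat_lit 21) (node (nat_lit 7) (nat_lit
  96654) (nat_lit 22) (node (nat_lit 4) (nat_lit 97321) (nat_lit 23) (node (nat_lit 5) (nat_lit
  97938) (nat_lit 24) (node (nat_lit 4) (nat_lit 98139) (nat_lit 25) (node (nat_lit 7) (nat_lit
  98135) (nat_lit 26) (node (nat_lit 4) (nat_lit 98004) (nat_lit 27) (node (nat_lit 5) (nat_lit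
  97163) (nat_lit 28) (node (nat_lit 7) (nat_lit 95570) (nat_lit 29) (node (nat_lit 5) (nat_lit
  93460) (nat_lit 30) (node (nat_lit 4) (nat_lit 90631) (nat_lit 31) (node (nat_lit 7) (nat_lit
  85340) (nat_lit 32) (node (nat_lit 5) (nat_lit 87959) (nat_lit 33) (node (nat_lit 7) (nat_lit
  82873) (nat_lit 34) (node (nat_lit 4) (nat_lit 74650) (nat_lit 35) nil nil) nil) nil) nil) nil)
  nil) nil) nil) nil) nil) (node (nat_lit 7) (nat_lit 98156) (nat_lit 25) nil nil)) nil) nil)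
  (node (nat_lit 0) (nat_lit 97341) (nat_lit 22) nil nil)) (node (nat_lit 0) (nat_lit 99610)
  (nat_lit 21) nil nil)) (node (nat_lit 0) (nat_lit 99612) (nat_lit 20) nil nil))) (node (nat_lit
  5) (nat_lit 0) (nat_lit 19) (node (nat_lit 4) (nat_lit 95069) (nat_lit 20) (node (nat_lit 7)
  (nat_lit 96475) (nat_lit 21) (node (nat_lit 5) (nat_lit 97530) (nat_lit 22) (node (nat_lit 7)
  (nat_lit 98388) (nat_lit 23) (node (nat_lit 4) (nat_lit 98895) (nat_lit 24) (node (nat_lit 5)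
  (nat_lit 99416) (nat_lit 25) (node (nat_lit 4) (nat_lit 99624) (nat_lit 26) (node (nat_lit 7)
  (nat_lit 99570) (nat_lit 27) (node (nat_lit 4) (nat_lit 99595) (nat_lit 28) (node (nat_lit 5)
  (nat_lit 98264) (nat_lit 29) (node (nat_lit 7) (nat_lit 97164) (nat_lit 30) (node (nat_lit 5)
  (nat_lit 96730) (nat_lit 31) (node (nat_lit 4) (nat_lit 94443) (nat_lit 32) (node (nat_lit 7)
  (nat_lit 90779) (nat_lit 33) (node (nat_lit 5) (nat_lit 88437) (nat_lit 34) (node (nat_lit 7)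
  (nat_lit 85633) (nat_lit 35) (node (nat_lit 4) (nat_lit 83828) (nat_lit 36) (node (nat_lit 7)
  (nat_lit 76243) (nat_lit 37) (node (nat_lit 5) (nat_lit 61730) (nat_lit 38) (node (nat_lit 4)
  (nat_lit 46616) (nat_lit 39) (node (nat_lit 5) (nat_lit 31913) (nat_lit 40) (node (nat_lit 7)
  (nat_lit 23478) (nat_lit 41) (node (nat_lit 5) (nat_lit 6402) (nat_lit 42) (node (nat_lit 4)
  (nat_lit 9267) (nat_lit 43) nil nil) nil) nil) nil) nil) nil) nil) nil) nil) nil) nil) nil) nil)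
  nil) nil) nil) nil) nil) nil) nil) nil) (node (nat_lit 4) (nat_lit 97203) (nat_lit 22) (node
  (nat_lit 5) (nat_lit 97772) (nat_lit 23) (node (nat_lit 4) (nat_lit 98215) (nat_lit 24) (node
  (nat_lit 7) (nat_lit 98329) (nat_lit 25) nil nil) nil) nil) nil)) nil) (node (nat_lit 0)
  (nat_lit 97569) (nat_lit 20) nil nil)) (node (nat_lit 0) (nat_lit 100203) (nat_lit 19) nil
  nil))) (node (nat_lit 0) (nat_lit 100498) (nat_lit 18) nil nil)) (node (nat_lit 7) (nat_lit 0)
  (nat_lit 17) (node (nat_lit 4) (nat_lit 0) (nat_lit 18) (node (nat_lit 5) (nat_lit 0) (nat_lit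
  19) (node (nat_lit 4) (nat_lit 95864) (nat_lit 20) (node (nat_lit 7) (nat_lit 97270) (nat_lit
  21) (node (nat_lit 5) (nat_lit 98027) (nat_lit 22) (node (nat_lit 7) (nat_lit 98886) (nat_lit
  23) (node (nat_lit 4) (nat_lit 99392) (nat_lit 24) (node (nat_lit 5) (nat_lit 99914) (nat_lit
  25) (node (nat_lit 4) (nat_lit 100122) (nat_lit 26) (node (nat_lit 7) (nat_lit 100090) (nat_lit
  27) (node (nat_lit 4) (nat_lit 100098) (nat_lit 28) (node (nat_lit 5) (nat_lit 99162) (nat_lit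
  29) (node (nat_lit 7) (nat_lit 97584) (nat_lit 30) (node (nat_lit 5) (nat_lit 95804) (nat_lit
  31) (node (nat_lit 4) (nat_lit 94942) (nat_lit 32) (node (nat_lit 7) (nat_lit 91277) (nat_lit
  33) (node (nat_lit 5) (nat_lit 88934) (nat_lit 34) (node (nat_lit 7) (nat_lit 86114) (nat_lit
  35) (node (nat_lit 4) (nat_lit 82955) (nat_lit 36) (node (nat_lit 7) (nat_lit 74740) (nat_lit
  37) (node (nat_lit 5) (nat_lit 68278) (nat_lit 38) (node (nat_lit 4) (nat_lit 58578) (nat_lit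
  39) (node (nat_lit 7) (nat_lit 46140) (nat_lit 40) (node (nat_lit 4) (nat_lit 44919) (nat_lit
  41) (node (nat_lit 5) (nat_lit 33215) (nat_lit 42) nil nil) nil) nil) nil) nil) nil) nil) nil)
  nil) nil) nil) nil) nil) nil) nil) nil) nil) nil) nil) (node (nat_lit 4) (nat_lit 98215)
  (nat_lit 23) nil nil)) nil) nil) (node (nat_lit 7) (nat_lit 0) (nat_lit 20) (node (nat_lit 4)
  (nat_lit 97438) (nat_lit 21) (node (nat_lit 7) (nat_lit 97974) (nat_lit 22) (node (nat_lit 5)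
  (nat_lit 98411) (nat_lit 23) (node (nat_lit 7) (nat_lit 98177) (nat_lit 24) (node (nat_lit 4)
  (nat_lit 97385) (nat_lit 25) nil nil) (node (nat_lit 4) (nat_lit 98209) (nat_lit 24) nil nil))
  nil) nil) (node (nat_lit 5) (nat_lit 96784) (nat_lit 21) (node (nat_lit 4) (nat_lit 97068)
  (nat_lit 22) (node (nat_lit 7) (nat_lit 96559) (nat_lit 23) nil (node (nat_lit 5) (nat_lit
  96809) (nat_lit 23) nil nil)) nil) (node (nat_lit 0) (nat_lit 98157) (nat_lit 21) nil nil)))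
  (node (nat_lit 0) (nat_lit 96786) (nat_lit 20) nil nil))) (node (nat_lit 0) (nat_lit 99704)
  (nat_lit 19) nil nil)) (node (nat_lit 0) (nat_lit 99660) (nat_lit 18) nil nil)) (node (nat_lit
  0) (nat_lit 99729) (nat_lit 17) nil nil))) (node (nat_lit 0) (nat_lit 100566) (nat_lit 16) (node
  (nat_lit 5) (nat_lit 100566) (nat_lit 17) nil nil) nil)) (node (nat_lit 0) (nat_lit 99613)
  (nat_lit 15) (node (nat_lit 4) (nat_lit 99613) (nat_lit 16) nil (node (nat_lit 7) (nat_lit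
  99613) (nat_lit 16) nil nil)) nil)) (node (nat_lit 0) (nat_lit 99947) (nat_lit 14) (node
  (nat_lit 4) (nat_lit 99947) (nat_lit 15) (node (nat_lit 7) (nat_lit 99947) (nat_lit 16) (node
  (nat_lit 4) (nat_lit 99947) (nat_lit 17) nil (node (nat_lit 5) (nat_lit 99947) (nat_lit 17) nil
  nil)) (node (nat_lit 5) (nat_lit 99947) (nat_lit 16) nil nil)) (node (nat_lit 7) (nat_lit 99947)
  (nat_lit 15) (node (nat_lit 4) (nat_lit 99947) (nat_lit 16) nil (node (nat_lit 5) (nat_lit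
  99947) (nat_lit 16) nil nil)) (node (nat_lit 5) (nat_lit 99947) (nat_lit 15) (node (nat_lit 7)
  (nat_lit 99947) (nat_lit 16) nil (node (nat_lit 4) (nat_lit 99947) (nat_lit 16) nil nil)) nil)))
  nil))) (node (nat_lit 0) (nat_lit 100601) (nat_lit 13) (node (nat_lit 5) (nat_lit 100601)
  (nat_lit 14) (node (nat_lit 7) (nat_lit 100601) (nat_lit 15) (node (nat_lit 4) (nat_lit 100601)
  (nat_lit 16) (node (nat_lit 5) (nat_lit 100601) (nat_lit 17) (node (nat_lit 4) (nat_lit 100601)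
  (nat_lit 18) (node (nat_lit 7) (nat_lit 100601) (nat_lit 19) (node (nat_lit 4) (nat_lit 100601)
  (nat_lit 20) (node (nat_lit 5) (nat_lit 101188) (nat_lit 21) (node (nat_lit 7) (nat_lit 101647)
  (nat_lit 22) nil nil) nil) nil) nil) nil) (node (nat_lit 7) (nat_lit 100601) (nat_lit 17) nil
  nil)) (node (nat_lit 5) (nat_lit 100601) (nat_lit 16) (node (nat_lit 4) (nat_lit 100601)
  (nat_lit 17) (node (nat_lit 7) (nat_lit 100601) (nat_lit 18) nil nil) nil) nil)) (node (nat_lit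
  4) (nat_lit 100601) (nat_lit 15) (node (nat_lit 7) (nat_lit 100601) (nat_lit 16) nil (node
  (nat_lit 5) (nat_lit 100601) (nat_lit 16) nil nil)) nil)) (node (nat_lit 7) (nat_lit 100601)
  (nat_lit 14) (node (nat_lit 5) (nat_lit 100601) (nat_lit 15) (node (nat_lit 4) (nat_lit 100601)
  (nat_lit 16) (node (nat_lit 5) (nat_lit 100601) (nat_lit 17) nil nil) nil) (node (nat_lit 4)
  (nat_lit 100601) (nat_lit 15) (node (nat_lit 5) (nat_lit 100601) (nat_lit 16) (node (nat_lit 7)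
  (nat_lit 100601) (nat_lit 17) nil nil) (node (nat_lit 7) (nat_lit 100601) (nat_lit 16) nil nil))
  nil)) (node (nat_lit 4) (nat_lit 100601) (nat_lit 14) (node (nat_lit 7) (nat_lit 100601)
  (nat_lit 15) (node (nat_lit 4) (nat_lit 100601) (nat_lit 16) (node (nat_lit 5) (nat_lit 100601)
  (nat_lit 17) nil nil) nil) (node (nat_lit 5) (nat_lit 100601) (nat_lit 15) (node (nat_lit 7)
  (nat_lit 100601) (nat_lit 16) nil (node (nat_lit 4) (nat_lit 100601) (nat_lit 16) nil nil))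
  nil)) (node (nat_lit 0) (nat_lit 101188) (nat_lit 14) nil nil)))) nil))

noncomputable def t101 : Tr :=
  (node (nat_lit 5) (nat_lit 0) (nat_lit 11) (node (nat_lit 7) (nat_lit 0) (nat_lit 12) t100 (node
  (nat_lit 0) (nat_lit 98826) (nat_lit 12) (node (nat_lit 7) (nat_lit 98826) (nat_lit 13) (node
  (nat_lit 5) (nat_lit 98826) (nat_lit 14) (node (nat_lit 4) (nat_lit 98826) (nat_lit 15) (node
  (nat_lit 7) (nat_lit 98826) (nat_lit 16) (node (nat_lit 4) (nat_lit 98826) (nat_lit 17) nil nil)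
  (node (nat_lit 5) (nat_lit 98826) (nat_lit 16) nil nil)) (node (nat_lit 7) (nat_lit 98826)
  (nat_lit 15) (node (nat_lit 4) (nat_lit 98826) (nat_lit 16) (node (nat_lit 5) (nat_lit 98826)
  (nat_lit 17) nil nil) nil) nil)) (node (nat_lit 4) (nat_lit 98826) (nat_lit 14) (node (nat_lit
  5) (nat_lit 98826) (nat_lit 15) (node (nat_lit 4) (nat_lit 98826) (nat_lit 16) (node (nat_lit 7)
  (nat_lit 98826) (nat_lit 17) (node (nat_lit 4) (nat_lit 98826) (nat_lit 18) (node (nat_lit 5)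
  (nat_lit 98826) (nat_lit 19) (node (nat_lit 7) (nat_lit 100022) (nat_lit 20) nil nil) nil) nil)
  nil) (node (nat_lit 7) (nat_lit 98826) (nat_lit 16) nil nil)) (node (nat_lit 7) (nat_lit 98826)
  (nat_lit 15) (node (nat_lit 5) (nat_lit 98826) (nat_lit 16) nil nil) nil)) (node (nat_lit 15)
  (nat_lit 100954) (nat_lit 14) nil nil))) (node (nat_lit 5) (nat_lit 98826) (nat_lit 13) (node
  (nat_lit 4) (nat_lit 98826) (nat_lit 14) (node (nat_lit 7) (nat_lit 98826) (nat_lit 15) (node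
  (nat_lit 4) (nat_lit 98826) (nat_lit 16) (node (nat_lit 5) (nat_lit 98826) (nat_lit 17) (node
  (nat_lit 7) (nat_lit 98826) (nat_lit 18) nil nil) nil) (node (nat_lit 5) (nat_lit 98826)
  (nat_lit 16) nil nil)) (node (nat_lit 5) (nat_lit 98826) (nat_lit 15) (node (nat_lit 7) (nat_lit
  98826) (nat_lit 16) nil nil) nil)) (node (nat_lit 7) (nat_lit 98826) (nat_lit 14) (node (nat_lit
  4) (nat_lit 98826) (nat_lit 15) (node (nat_lit 5) (nat_lit 98826) (nat_lit 16) nil nil) (node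
  (nat_lit 5) (nat_lit 98826) (nat_lit 15) nil nil)) (node (nat_lit 0) (nat_lit 100168) (nat_lit
  14) nil nil))) (node (nat_lit 4) (nat_lit 98826) (nat_lit 13) (node (nat_lit 7) (nat_lit 98826)
  (nat_lit 14) (node (nat_lit 5) (nat_lit 98826) (nat_lit 15) (node (nat_lit 4) (nat_lit 98826)
  (nat_lit 16) nil (node (nat_lit 7) (nat_lit 98826) (nat_lit 16) (node (nat_lit 4) (nat_lit
  98826) (nat_lit 17) nil nil) nil)) (node (nat_lit 4) (nat_lit 98826) (nat_lit 15) (node (nat_lit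
  5) (nat_lit 98826) (nat_lit 16) (node (nat_lit 7) (nat_lit 98826) (nat_lit 17) nil nil) nil)
  nil)) (node (nat_lit 5) (nat_lit 98826) (nat_lit 14) (node (nat_lit 4) (nat_lit 98826) (nat_lit
  15) (node (nat_lit 7) (nat_lit 98826) (nat_lit 16) (node (nat_lit 4) (nat_lit 98826) (nat_lit
  17) (node (nat_lit 5) (nat_lit 98826) (nat_lit 18) (node (nat_lit 7) (nat_lit 98826) (nat_lit
  19) (node (nat_lit 5) (nat_lit 99580) (nat_lit 20) (node (nat_lit 4) (nat_lit 99156) (nat_lit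
  21) nil nil) nil) nil) nil) (node (nat_lit 5) (nat_lit 98826) (nat_lit 17) nil nil)) nil) (node
  (nat_lit 7) (nat_lit 98826) (nat_lit 15) nil nil)) (node (nat_lit 15) (nat_lit 100168) (nat_lit
  14) nil nil))) (node (nat_lit 0) (nat_lit 100506) (nat_lit 13) nil nil)))) nil)) (node (nat_lit
  4) (nat_lit 0) (nat_lit 11) (node (nat_lit 5) (nat_lit 0) (nat_lit 12) (node (nat_lit 4)
  (nat_lit 0) (nat_lit 13) (node (nat_lit 7) (nat_lit 0) (nat_lit 14) (node (nat_lit 5) (nat_lit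
  0) (nat_lit 15) (node (nat_lit 7) (nat_lit 0) (nat_lit 16) (node (nat_lit 4) (nat_lit 0)
  (nat_lit 17) (node (nat_lit 5) (nat_lit 0) (nat_lit 18) (node (nat_lit 7) (nat_lit 0) (nat_lit
  19) (node (nat_lit 5) (nat_lit 0) (nat_lit 20) (node (nat_lit 4) (nat_lit 98501) (nat_lit 21)
  (node (nat_lit 5) (nat_lit 99663) (nat_lit 22) (node (nat_lit 7) (nat_lit 100560) (nat_lit 23)
  (node (nat_lit 4) (nat_lit 100999) (nat_lit 24) (node (nat_lit 5) (nat_lit 101454) (nat_lit 25)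
  (node (nat_lit 4) (nat_lit 101482) (nat_lit 26) (node (nat_lit 7) (nat_lit 101417) (nat_lit 27)
  (node (nat_lit 4) (nat_lit 98693) (nat_lit 28) (node (nat_lit 5) (nat_lit 97340) (nat_lit 29)
  (node (nat_lit 7) (nat_lit 96304) (nat_lit 30) (node (nat_lit 5) (nat_lit 95855) (nat_lit 31)
  (node (nat_lit 4) (nat_lit 92812) (nat_lit 32) (node (nat_lit 7) (nat_lit 91953) (nat_lit 33)
  (node (nat_lit 4) (nat_lit 90253) (nat_lit 34) (node (nat_lit 5) (nat_lit 86707) (nat_lit 35)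
  (node (nat_lit 4) (nat_lit 84358) (nat_lit 36) (node (nat_lit 7) (nat_lit 75121) (nat_lit 37)
  (node (nat_lit 5) (nat_lit 61311) (nat_lit 38) (node (nat_lit 7) (nat_lit 58114) (nat_lit 39)
  (node (nat_lit 4) (nat_lit 61804) (nat_lit 40) (node (nat_lit 5) (nat_lit 54148) (nat_lit 41)
  nil nil) nil) nil) nil) nil) nil) nil) nil) nil) nil) nil) nil) nil) nil) nil) nil) nil) nil)
  nil) (node (nat_lit 7) (nat_lit 99037) (nat_lit 22) (node (nat_lit 4) (nat_lit 99605) (nat_lit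
  23) (node (nat_lit 5) (nat_lit 100048) (nat_lit 24) nil nil) nil) nil)) (node (nat_lit 0)
  (nat_lit 100826) (nat_lit 21) nil nil)) (node (nat_lit 0) (nat_lit 101767) (nat_lit 20) nil
  nil)) (node (nat_lit 4) (nat_lit 0) (nat_lit 19) (node (nat_lit 7) (nat_lit 0) (nat_lit 20)
  (node (nat_lit 4) (nat_lit 89600) (nat_lit 21) (node (nat_lit 5) (nat_lit 90713) (nat_lit 22)
  (node (nat_lit 7) (nat_lit 91642) (nat_lit 23) (node (nat_lit 5) (nat_lit 92213) (nat_lit 24)
  (node (nat_lit 4) (nat_lit 92757) (nat_lit 25) (node (nat_lit 7) (nat_lit 73170) (nat_lit 26)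
  (node (nat_lit 4) (nat_lit 40968) (nat_lit 27) (node (nat_lit 5) (nat_lit 29280) (nat_lit 28)
  nil nil) nil) nil) nil) (node (nat_lit 4) (nat_lit 92111) (nat_lit 24) (node (nat_lit 7)
  (nat_lit 92330) (nat_lit 25) nil nil) nil)) nil) nil) (node (nat_lit 0) (nat_lit 90581) (nat_lit
  21) nil nil)) (node (nat_lit 0) (nat_lit 93905) (nat_lit 20) nil nil)) (node (nat_lit 0)
  (nat_lit 101263) (nat_lit 19) nil nil))) (node (nat_lit 7) (nat_lit 0) (nat_lit 18) (node
  (nat_lit 5) (nat_lit 0) (nat_lit 19) (node (nat_lit 4) (nat_lit 0) (nat_lit 20) (node (nat_lit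
  5) (nat_lit 0) (nat_lit 21) (node (nat_lit 7) (nat_lit 101647) (nat_lit 22) (node (nat_lit 4)
  (nat_lit 102006) (nat_lit 23) (node (nat_lit 5) (nat_lit 102285) (nat_lit 24) (node (nat_lit 4)
  (nat_lit 102503) (nat_lit 25) (node (nat_lit 7) (nat_lit 102302) (nat_lit 26) nil nil) nil) nil)
  (node (nat_lit 5) (nat_lit 102006) (nat_lit 23) (node (nat_lit 4) (nat_lit 101803) (nat_lit 24)
  nil nil) nil)) (node (nat_lit 0) (nat_lit 102991) (nat_lit 22) nil nil)) (node (nat_lit 7)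
  (nat_lit 101188) (nat_lit 21) (node (nat_lit 4) (nat_lit 101647) (nat_lit 22) (node (nat_lit 5)
  (nat_lit 102006) (nat_lit 23) (node (nat_lit 4) (nat_lit 98269) (nat_lit 24) (node (nat_lit 7)
  (nat_lit 97507) (nat_lit 25) nil nil) nil) nil) nil) (node (nat_lit 0) (nat_lit 102436) (nat_lit
  21) nil nil))) (node (nat_lit 0) (nat_lit 100870) (nat_lit 20) nil nil)) (node (nat_lit 0)
  (nat_lit 102674) (nat_lit 19) nil nil)) (node (nat_lit 0) (nat_lit 102112) (nat_lit 18) nil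
  nil))) (node (nat_lit 0) (nat_lit 102285) (nat_lit 17) nil nil)) (node (nat_lit 4) (nat_lit 0)
  (nat_lit 16) (node (nat_lit 5) (nat_lit 0) (nat_lit 17) (node (nat_lit 7) (nat_lit 0) (nat_lit
  18) (node (nat_lit 4) (nat_lit 0) (nat_lit 19) (node (nat_lit 7) (nat_lit 0) (nat_lit 20) (node
  (nat_lit 5) (nat_lit 98095) (nat_lit 21) (node (nat_lit 7) (nat_lit 99261) (nat_lit 22) (node
  (nat_lit 4) (nat_lit 99734) (nat_lit 23) (node (nat_lit 5) (nat_lit 100032) (nat_lit 24) (node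
  (nat_lit 4) (nat_lit 99663) (nat_lit 25) (node (nat_lit 7) (nat_lit 99887) (nat_lit 26) (node
  (nat_lit 4) (nat_lit 100375) (nat_lit 27) (node (nat_lit 5) (nat_lit 99637) (nat_lit 28) (node
  (nat_lit 7) (nat_lit 98617) (nat_lit 29) (node (nat_lit 5) (nat_lit 96446) (nat_lit 30) (node
  (nat_lit 4) (nat_lit 92362) (nat_lit 31) (node (nat_lit 7) (nat_lit 89940) (nat_lit 32) (node
  (nat_lit 4) (nat_lit 86468) (nat_lit 33) (node (nat_lit 5) (nat_lit 82874) (nat_lit 34) (node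
  (nat_lit 4) (nat_lit 74617) (nat_lit 35) nil nil) nil) nil) nil) nil) nil) nil) nil) nil) nil)
  nil) nil) nil) (node (nat_lit 4) (nat_lit 99011) (nat_lit 22) (node (nat_lit 7) (nat_lit 98502)
  (nat_lit 23) nil nil) nil)) (node (nat_lit 0) (nat_lit 99290) (nat_lit 21) nil nil)) (node
  (nat_lit 5) (nat_lit 96166) (nat_lit 20) (node (nat_lit 4) (nat_lit 95700) (nat_lit 21) (node
  (nat_lit 7) (nat_lit 95934) (nat_lit 22) (node (nat_lit 4) (nat_lit 89527) (nat_lit 23) (node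
  (nat_lit 5) (nat_lit 89665) (nat_lit 24) (node (nat_lit 7) (nat_lit 90243) (nat_lit 25) (node
  (nat_lit 5) (nat_lit 87905) (nat_lit 26) (node (nat_lit 4) (nat_lit 76686) (nat_lit 27) (node
  (nat_lit 7) (nat_lit 70466) (nat_lit 28) (node (nat_lit 4) (nat_lit 52758) (nat_lit 29) (node
  (nat_lit 5) (nat_lit 57546) (nat_lit 30) nil nil) nil) nil) nil) nil) nil) nil) (node (nat_lit
  5) (nat_lit 95675) (nat_lit 23) nil nil)) nil) nil) (node (nat_lit 0) (nat_lit 97802) (nat_lit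
  20) nil nil))) (node (nat_lit 5) (nat_lit 95418) (nat_lit 19) (node (nat_lit 4) (nat_lit 97809)
  (nat_lit 20) (node (nat_lit 7) (nat_lit 99194) (nat_lit 21) (node (nat_lit 5) (nat_lit 100238)
  (nat_lit 22) (node (nat_lit 7) (nat_lit 101087) (nat_lit 23) (node (nat_lit 4) (nat_lit 101416)
  (nat_lit 24) (node (nat_lit 5) (nat_lit 101858) (nat_lit 25) (node (nat_lit 4) (nat_lit 101603)
  (nat_lit 26) (node (nat_lit 7) (nat_lit 101347) (nat_lit 27) (node (nat_lit 4) (nat_lit 101365)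
  (nat_lit 28) (node (nat_lit 5) (nat_lit 100021) (nat_lit 29) (node (nat_lit 7) (nat_lit 98994)
  (nat_lit 30) (node (nat_lit 5) (nat_lit 98534) (nat_lit 31) (node (nat_lit 4) (nat_lit 95523)
  (nat_lit 32) (node (nat_lit 7) (nat_lit 97644) (nat_lit 33) (node (nat_lit 4) (nat_lit 92530)
  (nat_lit 34) (node (nat_lit 5) (nat_lit 88751) (nat_lit 35) (node (nat_lit 4) (nat_lit 84144)
  (nat_lit 36) (node (nat_lit 7) (nat_lit 76196) (nat_lit 37) (node (nat_lit 5) (nat_lit 61683)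
  (nat_lit 38) (node (nat_lit 4) (nat_lit 75773) (nat_lit 39) (node (nat_lit 5) (nat_lit 62240)
  (nat_lit 40) (node (nat_lit 7) (nat_lit 44261) (nat_lit 41) nil nil) nil) nil) nil) nil) nil)
  nil) nil) nil) nil) nil) nil) nil) nil) nil) nil) nil) nil) nil) (node (nat_lit 4) (nat_lit
  99922) (nat_lit 22) nil nil)) nil) nil) (node (nat_lit 0) (nat_lit 101095) (nat_lit 19) nil
  nil))) (node (nat_lit 0) (nat_lit 101613) (nat_lit 18) nil nil)) (node (nat_lit 0) (nat_lit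
  102176) (nat_lit 17) nil nil)) (node (nat_lit 0) (nat_lit 101286) (nat_lit 16) (node (nat_lit 5)
  (nat_lit 101286) (nat_lit 17) nil nil) nil))) (node (nat_lit 0) (nat_lit 101629) (nat_lit 15)
  (node (nat_lit 7) (nat_lit 101629) (nat_lit 16) nil (node (nat_lit 4) (nat_lit 101629) (nat_lit
  16) nil nil)) nil)) (node (nat_lit 0) (nat_lit 101188) (nat_lit 14) (node (nat_lit 5) (nat_lit
  101188) (nat_lit 15) (node (nat_lit 4) (nat_lit 101188) (nat_lit 16) nil nil) (node (nat_lit 4)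
  (nat_lit 101188) (nat_lit 15) nil (node (nat_lit 7) (nat_lit 101188) (nat_lit 15) nil nil)))
  nil)) (node (nat_lit 0) (nat_lit 100601) (nat_lit 13) (node (nat_lit 5) (nat_lit 100601)
  (nat_lit 14) (node (nat_lit 4) (nat_lit 100601) (nat_lit 15) (node (nat_lit 7) (nat_lit 100601)
  (nat_lit 16) nil (node (nat_lit 5) (nat_lit 100601) (nat_lit 16) nil nil)) (node (nat_lit 7)
  (nat_lit 100601) (nat_lit 15) (node (nat_lit 4) (nat_lit 100601) (nat_lit 16) nil nil) nil))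
  (node (nat_lit 4) (nat_lit 100601) (nat_lit 14) (node (nat_lit 5) (nat_lit 100601) (nat_lit 15)
  (node (nat_lit 4) (nat_lit 100601) (nat_lit 16) (node (nat_lit 7) (nat_lit 100601) (nat_lit 17)
  (node (nat_lit 4) (nat_lit 100601) (nat_lit 18) (node (nat_lit 5) (nat_lit 100601) (nat_lit 19)
  (node (nat_lit 7) (nat_lit 100601) (nat_lit 20) (node (nat_lit 5) (nat_lit 101188) (nat_lit 21)
  nil nil) nil) nil) nil) nil) (node (nat_lit 7) (nat_lit 100601) (nat_lit 16) nil nil)) (node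
  (nat_lit 7) (nat_lit 100601) (nat_lit 15) nil nil)) (node (nat_lit 7) (nat_lit 100601) (nat_lit
  14) (node (nat_lit 5) (nat_lit 100601) (nat_lit 15) (node (nat_lit 4) (nat_lit 100601) (nat_lit
  16) nil nil) (node (nat_lit 4) (nat_lit 100601) (nat_lit 15) (node (nat_lit 5) (nat_lit 100601)
  (nat_lit 16) nil nil) nil)) nil))) nil)) (node (nat_lit 0) (nat_lit 99847) (nat_lit 12) (node
  (nat_lit 7) (nat_lit 99847) (nat_lit 13) (node (nat_lit 4) (nat_lit 99847) (nat_lit 14) (node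
  (nat_lit 7) (nat_lit 99847) (nat_lit 15) (node (nat_lit 5) (nat_lit 99847) (nat_lit 16) (node
  (nat_lit 4) (nat_lit 99847) (nat_lit 17) nil (node (nat_lit 7) (nat_lit 99847) (nat_lit 17) nil
  nil)) nil) (node (nat_lit 5) (nat_lit 99847) (nat_lit 15) (node (nat_lit 4) (nat_lit 99847)
  (nat_lit 16) (node (nat_lit 7) (nat_lit 99847) (nat_lit 17) (node (nat_lit 4) (nat_lit 99847)
  (nat_lit 18) (node (nat_lit 5) (nat_lit 99847) (nat_lit 19) (node (nat_lit 7) (nat_lit 100601)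
  (nat_lit 20) nil nil) nil) nil) nil) (node (nat_lit 7) (nat_lit 99847) (nat_lit 16) (node
  (nat_lit 5) (nat_lit 99847) (nat_lit 17) nil nil) nil)) nil)) (node (nat_lit 5) (nat_lit 99847)
  (nat_lit 14) (node (nat_lit 4) (nat_lit 99847) (nat_lit 15) nil (node (nat_lit 7) (nat_lit
  99847) (nat_lit 15) nil nil)) nil)) (node (nat_lit 4) (nat_lit 99847) (nat_lit 13) (node
  (nat_lit 5) (nat_lit 99847) (nat_lit 14) (node (nat_lit 7) (nat_lit 99847) (nat_lit 15) nil
  (node (nat_lit 4) (nat_lit 99847) (nat_lit 15) (node (nat_lit 7) (nat_lit 99847) (nat_lit 16)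
  (node (nat_lit 4) (nat_lit 99847) (nat_lit 17) (node (nat_lit 5) (nat_lit 99847) (nat_lit 18)
  (node (nat_lit 7) (nat_lit 99847) (nat_lit 19) (node (nat_lit 5) (nat_lit 100601) (nat_lit 20)
  (node (nat_lit 4) (nat_lit 100177) (nat_lit 21) (node (nat_lit 7) (nat_lit 100537) (nat_lit 22)
  nil nil) nil) nil) nil) nil) nil) nil) nil)) (node (nat_lit 7) (nat_lit 99847) (nat_lit 14)
  (node (nat_lit 5) (nat_lit 99847) (nat_lit 15) nil (node (nat_lit 4) (nat_lit 99847) (nat_lit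
  15) (node (nat_lit 5) (nat_lit 99847) (nat_lit 16) nil nil) nil)) nil)) (node (nat_lit 5)
  (nat_lit 99847) (nat_lit 13) (node (nat_lit 4) (nat_lit 99847) (nat_lit 14) (node (nat_lit 7)
  (nat_lit 99847) (nat_lit 15) (node (nat_lit 4) (nat_lit 99847) (nat_lit 16) nil nil) (node
  (nat_lit 5) (nat_lit 99847) (nat_lit 15) (node (nat_lit 7) (nat_lit 99847) (nat_lit 16) nil nil)
  nil)) (node (nat_lit 7) (nat_lit 99847) (nat_lit 14) (node (nat_lit 5) (nat_lit 99847) (nat_lit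
  15) nil (node (nat_lit 4) (nat_lit 99847) (nat_lit 15) (node (nat_lit 5) (nat_lit 99847)
  (nat_lit 16) nil nil) nil)) nil)) (node (nat_lit 0) (nat_lit 100601) (nat_lit 13) nil nil))))
  nil)) (node (nat_lit 0) (nat_lit 0) (nat_lit 11) (node (nat_lit 7) (nat_lit 98355) (nat_lit 12)
  (node (nat_lit 4) (nat_lit 98355) (nat_lit 13) (node (nat_lit 5) (nat_lit 98355) (nat_lit 14)
  (node (nat_lit 4) (nat_lit 98355) (nat_lit 15) (node (nat_lit 7) (nat_lit 98355) (nat_lit 16)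
  (node (nat_lit 4) (nat_lit 98355) (nat_lit 17) (node (nat_lit 5) (nat_lit 98355) (nat_lit 18)
  (node (nat_lit 7) (nat_lit 99847) (nat_lit 19) (node (nat_lit 5) (nat_lit 100601) (nat_lit 20)
  (node (nat_lit 4) (nat_lit 100514) (nat_lit 21) (node (nat_lit 7) (nat_lit 100655) (nat_lit 22)
  nil nil) nil) nil) nil) nil) nil) nil) (node (nat_lit 7) (nat_lit 98355) (nat_lit 15) (node
  (nat_lit 5) (nat_lit 98355) (nat_lit 16) nil nil) nil)) (node (nat_lit 7) (nat_lit 98355)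
  (nat_lit 14) (node (nat_lit 5) (nat_lit 98355) (nat_lit 15) nil nil) (node (nat_lit 14) (nat_lit
  100662) (nat_lit 14) nil nil))) (node (nat_lit 5) (nat_lit 98355) (nat_lit 13) (node (nat_lit 4)
  (nat_lit 98355) (nat_lit 14) (node (nat_lit 7) (nat_lit 98355) (nat_lit 15) (node (nat_lit 4)
  (nat_lit 98355) (nat_lit 16) (node (nat_lit 5) (nat_lit 98355) (nat_lit 17) nil nil) nil) (node
  (nat_lit 5) (nat_lit 98355) (nat_lit 15) (node (nat_lit 7) (nat_lit 98355) (nat_lit 16) nil nil)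
  nil)) (node (nat_lit 7) (nat_lit 98355) (nat_lit 14) (node (nat_lit 4) (nat_lit 98355) (nat_lit
  15) nil nil) nil)) (node (nat_lit 0) (nat_lit 100075) (nat_lit 13) nil nil))) (node (nat_lit 4)
  (nat_lit 98355) (nat_lit 12) (node (nat_lit 5) (nat_lit 98355) (nat_lit 13) (node (nat_lit 7)
  (nat_lit 98355) (nat_lit 14) (node (nat_lit 4) (nat_lit 98355) (nat_lit 15) (node (nat_lit 5)
  (nat_lit 98355) (nat_lit 16) (node (nat_lit 4) (nat_lit 98355) (nat_lit 17) (node (nat_lit 7)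
  (nat_lit 98355) (nat_lit 18) (node (nat_lit 4) (nat_lit 99847) (nat_lit 19) (node (nat_lit 5)
  (nat_lit 100601) (nat_lit 20) (node (nat_lit 7) (nat_lit 100937) (nat_lit 21) (node (nat_lit 5)
  (nat_lit 101127) (nat_lit 22) (node (nat_lit 4) (nat_lit 101018) (nat_lit 23) nil nil) nil) nil)
  nil) nil) nil) nil) nil) (node (nat_lit 5) (nat_lit 98355) (nat_lit 15) nil nil)) (node (nat_lit
  4) (nat_lit 98355) (nat_lit 14) (node (nat_lit 7) (nat_lit 98355) (nat_lit 15) (node (nat_lit 4)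
  (nat_lit 98355) (nat_lit 16) (node (nat_lit 5) (nat_lit 98355) (nat_lit 17) (node (nat_lit 7)
  (nat_lit 98355) (nat_lit 18) (node (nat_lit 5) (nat_lit 99321) (nat_lit 19) (node (nat_lit 4)
  (nat_lit 98779) (nat_lit 20) (node (nat_lit 7) (nat_lit 99240) (nat_lit 21) nil nil) nil) nil)
  nil) nil) nil) nil) nil)) (node (nat_lit 7) (nat_lit 98355) (nat_lit 13) (node (nat_lit 5)
  (nat_lit 98355) (nat_lit 14) (node (nat_lit 4) (nat_lit 98355) (nat_lit 15) nil (node (nat_lit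
  7) (nat_lit 98355) (nat_lit 15) (node (nat_lit 4) (nat_lit 98355) (nat_lit 16) nil nil) nil))
  (node (nat_lit 4) (nat_lit 98355) (nat_lit 14) (node (nat_lit 5) (nat_lit 98355) (nat_lit 15)
  (node (nat_lit 7) (nat_lit 98355) (nat_lit 16) nil (node (nat_lit 4) (nat_lit 98355) (nat_lit
  16) nil nil)) nil) nil)) (node (nat_lit 14) (nat_lit 100601) (nat_lit 13) nil nil))) (node
  (nat_lit 5) (nat_lit 98355) (nat_lit 12) (node (nat_lit 7) (nat_lit 98355) (nat_lit 13) (node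
  (nat_lit 5) (nat_lit 98355) (nat_lit 14) (node (nat_lit 4) (nat_lit 98355) (nat_lit 15) (node
  (nat_lit 7) (nat_lit 98355) (nat_lit 16) nil (node (nat_lit 5) (nat_lit 98355) (nat_lit 16) nil
  nil)) nil) (node (nat_lit 4) (nat_lit 98355) (nat_lit 14) (node (nat_lit 5) (nat_lit 98355)
  (nat_lit 15) (node (nat_lit 4) (nat_lit 98355) (nat_lit 16) (node (nat_lit 7) (nat_lit 98355)
  (nat_lit 17) (node (nat_lit 4) (nat_lit 98355) (nat_lit 18) (node (nat_lit 5) (nat_lit 99847)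
  (nat_lit 19) nil nil) nil) nil) nil) (node (nat_lit 7) (nat_lit 98355) (nat_lit 15) nil nil))
  nil)) (node (nat_lit 4) (nat_lit 98355) (nat_lit 13) (node (nat_lit 7) (nat_lit 98355) (nat_lit
  14) (node (nat_lit 4) (nat_lit 98355) (nat_lit 15) (node (nat_lit 5) (nat_lit 98355) (nat_lit
  16) (node (nat_lit 7) (nat_lit 98355) (nat_lit 17) nil nil) nil) (node (nat_lit 5) (nat_lit
  98355) (nat_lit 15) nil nil)) (node (nat_lit 5) (nat_lit 98355) (nat_lit 14) (node (nat_lit 7)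
  (nat_lit 98355) (nat_lit 15) (node (nat_lit 4) (nat_lit 98355) (nat_lit 16) nil nil) nil) nil))
  (node (nat_lit 14) (nat_lit 100075) (nat_lit 13) nil nil))) (node (nat_lit 0) (nat_lit 99847)
  (nat_lit 12) nil nil)))) nil)))

noncomputable def t102 : Tr :=
  (node (nat_lit 7) (nat_lit 0) (nat_lit 13) (node (nat_lit 5) (nat_lit 0) (nat_lit 14) (node
  (nat_lit 4) (nat_lit 0) (nat_lit 15) (node (nat_lit 7) (nat_lit 0) (nat_lit 16) (node (nat_lit
  4) (nat_lit 0) (nat_lit 17) (node (nat_lit 5) (nat_lit 0) (nat_lit 18) (node (nat_lit 4)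
  (nat_lit 0) (nat_lit 19) (node (nat_lit 7) (nat_lit 0) (nat_lit 20) (node (nat_lit 5) (nat_lit
  92593) (nat_lit 21) (node (nat_lit 7) (nat_lit 93772) (nat_lit 22) (node (nat_lit 4) (nat_lit
  94250) (nat_lit 23) (node (nat_lit 5) (nat_lit 94847) (nat_lit 24) (node (nat_lit 4) (nat_lit
  94540) (nat_lit 25) (node (nat_lit 7) (nat_lit 94306) (nat_lit 26) (node (nat_lit 4) (nat_lit
  94339) (nat_lit 27) (node (nat_lit 5) (nat_lit 92698) (nat_lit 28) (node (nat_lit 7) (nat_lit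
  92348) (nat_lit 29) (node (nat_lit 5) (nat_lit 90745) (nat_lit 30) (node (nat_lit 4) (nat_lit
  89707) (nat_lit 31) (node (nat_lit 5) (nat_lit 88716) (nat_lit 32) (node (nat_lit 7) (nat_lit
  86425) (nat_lit 33) (node (nat_lit 4) (nat_lit 82139) (nat_lit 34) (node (nat_lit 7) (nat_lit
  73930) (nat_lit 35) (node (nat_lit 5) (nat_lit 67463) (nat_lit 36) (node (nat_lit 4) (nat_lit
  57761) (nat_lit 37) (node (nat_lit 7) (nat_lit 61457) (nat_lit 38) (node (nat_lit 4) (nat_lit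
  37515) (nat_lit 39) (node (nat_lit 5) (nat_lit 32398) (nat_lit 40) nil nil) nil) nil) nil) nil)
  nil) nil) nil) nil) nil) nil) nil) nil) nil) nil) (node (nat_lit 7) (nat_lit 95066) (nat_lit 25)
  nil nil)) (node (nat_lit 7) (nat_lit 94530) (nat_lit 24) nil nil)) nil) (node (nat_lit 4)
  (nat_lit 93613) (nat_lit 22) (node (nat_lit 5) (nat_lit 94282) (nat_lit 23) (node (nat_lit 7)
  (nat_lit 93884) (nat_lit 24) nil nil) nil) nil)) (node (nat_lit 0) (nat_lit 93901) (nat_lit 21)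
  nil nil)) (node (nat_lit 0) (nat_lit 94415) (nat_lit 20) nil nil)) (node (nat_lit 7) (nat_lit 0)
  (nat_lit 19) (node (nat_lit 4) (nat_lit 92076) (nat_lit 20) (node (nat_lit 7) (nat_lit 93666)
  (nat_lit 21) (node (nat_lit 5) (nat_lit 94623) (nat_lit 22) (node (nat_lit 7) (nat_lit 95593)
  (nat_lit 23) (node (nat_lit 4) (nat_lit 96134) (nat_lit 24) (node (nat_lit 5) (nat_lit 96575)
  (nat_lit 25) (node (nat_lit 4) (nat_lit 96651) (nat_lit 26) (node (nat_lit 7) (nat_lit 96475)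
  (nat_lit 27) (node (nat_lit 4) (nat_lit 95767) (nat_lit 28) (node (nat_lit 5) (nat_lit 94607)
  (nat_lit 29) (node (nat_lit 7) (nat_lit 93878) (nat_lit 30) (node (nat_lit 5) (nat_lit 93161)
  (nat_lit 31) (node (nat_lit 4) (nat_lit 90729) (nat_lit 32) (node (nat_lit 5) (nat_lit 90805)
  (nat_lit 33) (node (nat_lit 7) (nat_lit 86343) (nat_lit 34) (node (nat_lit 4) (nat_lit 86465)
  (nat_lit 35) (node (nat_lit 7) (nat_lit 83984) (nat_lit 36) (node (nat_lit 5) (nat_lit 76044)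
  (nat_lit 37) (node (nat_lit 4) (nat_lit 60964) (nat_lit 38) (node (nat_lit 7) (nat_lit 61500)
  (nat_lit 39) (node (nat_lit 4) (nat_lit 54853) (nat_lit 40) (node (nat_lit 5) (nat_lit 55626)
  (nat_lit 41) nil nil) nil) nil) nil) nil) nil) nil) nil) nil) nil) nil) nil) nil) nil) nil) nil)
  nil) nil) (node (nat_lit 4) (nat_lit 94365) (nat_lit 23) nil nil)) nil) nil) (node (nat_lit 5)
  (nat_lit 91875) (nat_lit 20) (node (nat_lit 4) (nat_lit 93496) (nat_lit 21) (node (nat_lit 5)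
  (nat_lit 94475) (nat_lit 22) (node (nat_lit 7) (nat_lit 95208) (nat_lit 23) (node (nat_lit 4)
  (nat_lit 95506) (nat_lit 24) (node (nat_lit 5) (nat_lit 95967) (nat_lit 25) (node (nat_lit 4)
  (nat_lit 95991) (nat_lit 26) (node (nat_lit 7) (nat_lit 96052) (nat_lit 27) (node (nat_lit 4)
  (nat_lit 96073) (nat_lit 28) (node (nat_lit 5) (nat_lit 95575) (nat_lit 29) (node (nat_lit 7)
  (nat_lit 95126) (nat_lit 30) (node (nat_lit 5) (nat_lit 93834) (nat_lit 31) (node (nat_lit 4)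
  (nat_lit 91624) (nat_lit 32) (node (nat_lit 5) (nat_lit 88828) (nat_lit 33) (node (nat_lit 7)
  (nat_lit 84492) (nat_lit 34) nil nil) nil) nil) nil) nil) nil) nil) nil) nil) nil) nil) nil)
  (node (nat_lit 7) (nat_lit 94136) (nat_lit 22) (node (nat_lit 5) (nat_lit 94088) (nat_lit 23)
  (node (nat_lit 7) (nat_lit 93690) (nat_lit 24) nil nil) nil) nil)) nil) (node (nat_lit 0)
  (nat_lit 92870) (nat_lit 20) nil nil))) (node (nat_lit 0) (nat_lit 96407) (nat_lit 19) nil
  nil))) (node (nat_lit 0) (nat_lit 98236) (nat_lit 18) nil nil)) (node (nat_lit 0) (nat_lit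
  98602) (nat_lit 17) (node (nat_lit 7) (nat_lit 98602) (nat_lit 18) nil (node (nat_lit 4)
  (nat_lit 98602) (nat_lit 18) nil (node (nat_lit 5) (nat_lit 98602) (nat_lit 18) nil nil))) nil))
  (node (nat_lit 5) (nat_lit 0) (nat_lit 16) (node (nat_lit 7) (nat_lit 0) (nat_lit 17) (node
  (nat_lit 5) (nat_lit 0) (nat_lit 18) (node (nat_lit 4) (nat_lit 0) (nat_lit 19) (node (nat_lit
  7) (nat_lit 92422) (nat_lit 20) (node (nat_lit 5) (nat_lit 93909) (nat_lit 21) (node (nat_lit 7)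
  (nat_lit 95050) (nat_lit 22) (node (nat_lit 4) (nat_lit 95776) (nat_lit 23) (node (nat_lit 7)
  (nat_lit 96055) (nat_lit 24) nil (node (nat_lit 5) (nat_lit 96396) (nat_lit 24) (node (nat_lit
  4) (nat_lit 96446) (nat_lit 25) (node (nat_lit 7) (nat_lit 96137) (nat_lit 26) (node (nat_lit 4)
  (nat_lit 95898) (nat_lit 27) (node (nat_lit 5) (nat_lit 94495) (nat_lit 28) (node (nat_lit 7)
  (nat_lit 93001) (nat_lit 29) (node (nat_lit 5) (nat_lit 89732) (nat_lit 30) (node (nat_lit 4)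
  (nat_lit 89136) (nat_lit 31) (node (nat_lit 5) (nat_lit 89696) (nat_lit 32) (node (nat_lit 7)
  (nat_lit 86206) (nat_lit 33) (node (nat_lit 4) (nat_lit 82001) (nat_lit 34) (node (nat_lit 7)
  (nat_lit 74077) (nat_lit 35) (node (nat_lit 5) (nat_lit 59560) (nat_lit 36) (node (nat_lit 4)
  (nat_lit 50880) (nat_lit 37) (node (nat_lit 5) (nat_lit 38639) (nat_lit 38) (node (nat_lit 7)
  (nat_lit 38651) (nat_lit 39) (node (nat_lit 5) (nat_lit 30424) (nat_lit 40) nil nil) nil) nil)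
  nil) nil) nil) nil) nil) nil) nil) nil) nil) nil) nil) nil) (node (nat_lit 7) (nat_lit 96614)
  (nat_lit 25) nil nil)) nil)) nil) nil) (node (nat_lit 4) (nat_lit 94042) (nat_lit 21) (node
  (nat_lit 5) (nat_lit 95007) (nat_lit 22) (node (nat_lit 7) (nat_lit 95805) (nat_lit 23) (node
  (nat_lit 5) (nat_lit 96248) (nat_lit 24) nil (node (nat_lit 4) (nat_lit 96084) (nat_lit 24) nil
  nil)) (node (nat_lit 4) (nat_lit 95575) (nat_lit 23) (node (nat_lit 7) (nat_lit 95721) (nat_lit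
  24) nil nil) nil)) nil) nil)) (node (nat_lit 0) (nat_lit 95119) (nat_lit 20) nil nil)) (node
  (nat_lit 0) (nat_lit 96030) (nat_lit 19) nil nil)) (node (nat_lit 0) (nat_lit 98098) (nat_lit
  18) nil nil)) (node (nat_lit 0) (nat_lit 97598) (nat_lit 17) (node (nat_lit 4) (nat_lit 97598)
  (nat_lit 18) nil nil) nil)) (node (nat_lit 0) (nat_lit 97561) (nat_lit 16) (node (nat_lit 5)
  (nat_lit 97561) (nat_lit 17) nil (node (nat_lit 4) (nat_lit 97561) (nat_lit 17) nil (node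
  (nat_lit 7) (nat_lit 97561) (nat_lit 17) nil nil))) nil))) (node (nat_lit 7) (nat_lit 0)
  (nat_lit 15) (node (nat_lit 4) (nat_lit 0) (nat_lit 16) (node (nat_lit 5) (nat_lit 0) (nat_lit
  17) (node (nat_lit 4) (nat_lit 0) (nat_lit 18) (node (nat_lit 7) (nat_lit 0) (nat_lit 19) (node
  (nat_lit 5) (nat_lit 0) (nat_lit 20) (node (nat_lit 4) (nat_lit 0) (nat_lit 21) (node (nat_lit
  5) (nat_lit 0) (nat_lit 22) (node (nat_lit 7) (nat_lit 90405) (nat_lit 23) (node (nat_lit 4)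
  (nat_lit 90703) (nat_lit 24) (node (nat_lit 5) (nat_lit 91165) (nat_lit 25) (node (nat_lit 4)
  (nat_lit 91189) (nat_lit 26) (node (nat_lit 7) (nat_lit 91249) (nat_lit 27) (node (nat_lit 4)
  (nat_lit 91270) (nat_lit 28) (node (nat_lit 5) (nat_lit 90773) (nat_lit 29) (node (nat_lit 7)
  (nat_lit 90324) (nat_lit 30) (node (nat_lit 5) (nat_lit 89031) (nat_lit 31) (node (nat_lit 4)
  (nat_lit 87351) (nat_lit 32) (node (nat_lit 5) (nat_lit 84025) (nat_lit 33) (node (nat_lit 7)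
  (nat_lit 79287) (nat_lit 34) (node (nat_lit 4) (nat_lit 76235) (nat_lit 35) (node (nat_lit 7)
  (nat_lit 73425) (nat_lit 36) (node (nat_lit 5) (nat_lit 64706) (nat_lit 37) (node (nat_lit 7)
  (nat_lit 64726) (nat_lit 38) (node (nat_lit 4) (nat_lit 58835) (nat_lit 39) (node (nat_lit 5)
  (nat_lit 55295) (nat_lit 40) (node (nat_lit 4) (nat_lit 50409) (nat_lit 41) (node (nat_lit 7)
  (nat_lit 50924) (nat_lit 42) nil nil) nil) nil) nil) nil) nil) nil) nil) nil) nil) nil) nil)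
  nil) nil) nil) nil) nil) (node (nat_lit 7) (nat_lit 90818) (nat_lit 25) nil nil)) (node (nat_lit
  5) (nat_lit 90848) (nat_lit 24) (node (nat_lit 4) (nat_lit 90691) (nat_lit 25) nil nil) nil))
  (node (nat_lit 0) (nat_lit 91964) (nat_lit 23) nil nil)) (node (nat_lit 0) (nat_lit 92653)
  (nat_lit 22) nil nil)) (node (nat_lit 7) (nat_lit 0) (nat_lit 21) (node (nat_lit 4) (nat_lit 0)
  (nat_lit 22) (node (nat_lit 7) (nat_lit 90485) (nat_lit 23) (node (nat_lit 5) (nat_lit 90445)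
  (nat_lit 24) (node (nat_lit 4) (nat_lit 90287) (nat_lit 25) nil nil) nil) (node (nat_lit 0)
  (nat_lit 91392) (nat_lit 23) nil nil)) (node (nat_lit 0) (nat_lit 91530) (nat_lit 22) nil nil))
  (node (nat_lit 0) (nat_lit 92856) (nat_lit 21) nil nil))) (node (nat_lit 4) (nat_lit 0) (nat_lit
  20) (node (nat_lit 5) (nat_lit 0) (nat_lit 21) (node (nat_lit 7) (nat_lit 80008) (nat_lit 22)
  (node (nat_lit 4) (nat_lit 80610) (nat_lit 23) (node (nat_lit 7) (nat_lit 80889) (nat_lit 24)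
  nil nil) (node (nat_lit 5) (nat_lit 70097) (nat_lit 23) (node (nat_lit 4) (nat_lit 70740)
  (nat_lit 24) (node (nat_lit 5) (nat_lit 36784) (nat_lit 25) (node (nat_lit 7) (nat_lit 37077)
  (nat_lit 26) (node (nat_lit 4) (nat_lit 37132) (nat_lit 27) nil nil) nil) (node (nat_lit 7)
  (nat_lit 70995) (nat_lit 25) nil nil)) nil) nil)) (node (nat_lit 0) (nat_lit 80669) (nat_lit 22)
  nil nil)) (node (nat_lit 0) (nat_lit 82395) (nat_lit 21) nil nil)) (node (nat_lit 0) (nat_lit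
  92995) (nat_lit 20) nil nil))) (node (nat_lit 0) (nat_lit 92823) (nat_lit 19) nil nil)) (node
  (nat_lit 7) (nat_lit 0) (nat_lit 18) (node (nat_lit 5) (nat_lit 0) (nat_lit 19) (node (nat_lit
  4) (nat_lit 0) (nat_lit 20) (node (nat_lit 7) (nat_lit 90084) (nat_lit 21) (node (nat_lit 5)
  (nat_lit 91129) (nat_lit 22) (node (nat_lit 7) (nat_lit 91977) (nat_lit 23) (node (nat_lit 4)
  (nat_lit 92306) (nat_lit 24) (node (nat_lit 5) (nat_lit 92749) (nat_lit 25) (node (nat_lit 4)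
  (nat_lit 92493) (nat_lit 26) (node (nat_lit 7) (nat_lit 92237) (nat_lit 27) (node (nat_lit 4)
  (nat_lit 92255) (nat_lit 28) (node (nat_lit 5) (nat_lit 90972) (nat_lit 29) (node (nat_lit 7)
  (nat_lit 90701) (nat_lit 30) (node (nat_lit 5) (nat_lit 88278) (nat_lit 31) (node (nat_lit 4)
  (nat_lit 86413) (nat_lit 32) (node (nat_lit 5) (nat_lit 87265) (nat_lit 33) (node (nat_lit 7)
  (nat_lit 81933) (nat_lit 34) (node (nat_lit 4) (nat_lit 85217) (nat_lit 35) (node (nat_lit 7)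
  (nat_lit 79796) (nat_lit 36) (node (nat_lit 5) (nat_lit 74955) (nat_lit 37) (node (nat_lit 7)
  (nat_lit 61720) (nat_lit 38) (node (nat_lit 4) (nat_lit 71471) (nat_lit 39) (node (nat_lit 5)
  (nat_lit 61148) (nat_lit 40) nil nil) nil) nil) nil) nil) nil) nil) nil) nil) nil) nil) nil)
  nil) nil) nil) (node (nat_lit 7) (nat_lit 92525) (nat_lit 25) nil nil)) nil) nil) (node (nat_lit
  4) (nat_lit 91211) (nat_lit 22) (node (nat_lit 5) (nat_lit 92010) (nat_lit 23) (node (nat_lit 4)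
  (nat_lit 92453) (nat_lit 24) (node (nat_lit 7) (nat_lit 92567) (nat_lit 25) nil nil) nil) nil)
  nil)) (node (nat_lit 5) (nat_lit 88999) (nat_lit 21) (node (nat_lit 7) (nat_lit 88617) (nat_lit
  22) (node (nat_lit 4) (nat_lit 88637) (nat_lit 23) (node (nat_lit 5) (nat_lit 88918) (nat_lit
  24) (node (nat_lit 4) (nat_lit 88328) (nat_lit 25) (node (nat_lit 7) (nat_lit 87688) (nat_lit
  26) (node (nat_lit 4) (nat_lit 87554) (nat_lit 27) (node (nat_lit 5) (nat_lit 85826) (nat_lit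
  28) (node (nat_lit 7) (nat_lit 85391) (nat_lit 29) (node (nat_lit 5) (nat_lit 82254) (nat_lit
  30) (node (nat_lit 4) (nat_lit 79764) (nat_lit 31) (node (nat_lit 5) (nat_lit 78624) (nat_lit
  32) (node (nat_lit 7) (nat_lit 72127) (nat_lit 33) (node (nat_lit 4) (nat_lit 70181) (nat_lit
  34) (node (nat_lit 7) (nat_lit 66556) (nat_lit 35) (node (nat_lit 5) (nat_lit 61131) (nat_lit
  36) (node (nat_lit 7) (nat_lit 57939) (nat_lit 37) (node (nat_lit 4) (nat_lit 58640) (nat_lit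
  38) (node (nat_lit 5) (nat_lit 37970) (nat_lit 39) (node (nat_lit 7) (nat_lit 40214) (nat_lit
  40) (node (nat_lit 5) (nat_lit 6462) (nat_lit 41) nil nil) nil) nil) nil) nil) nil) nil) nil)
  nil) nil) nil) nil) nil) nil) nil) nil) nil) nil) nil) nil) (node (nat_lit 0) (nat_lit 91009)
  (nat_lit 21) nil nil))) (node (nat_lit 0) (nat_lit 93486) (nat_lit 20) nil nil)) (node (nat_lit
  0) (nat_lit 92739) (nat_lit 19) nil nil)) (node (nat_lit 0) (nat_lit 94896) (nat_lit 18) nil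
  nil))) (node (nat_lit 0) (nat_lit 94097) (nat_lit 17) nil nil)) (node (nat_lit 0) (nat_lit
  94468) (nat_lit 16) (node (nat_lit 5) (nat_lit 94468) (nat_lit 17) nil (node (nat_lit 7)
  (nat_lit 94468) (nat_lit 17) nil nil)) nil)) (node (nat_lit 0) (nat_lit 96876) (nat_lit 15)
  (node (nat_lit 5) (nat_lit 96876) (nat_lit 16) (node (nat_lit 4) (nat_lit 96876) (nat_lit 17)
  nil (node (nat_lit 7) (nat_lit 96876) (nat_lit 17) nil nil)) (node (nat_lit 7) (nat_lit 96876)
  (nat_lit 16) (node (nat_lit 5) (nat_lit 96876) (nat_lit 17) nil nil) (node (nat_lit 4) (nat_lit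
  96876) (nat_lit 16) nil nil))) nil))) (node (nat_lit 0) (nat_lit 95316) (nat_lit 14) (node
  (nat_lit 5) (nat_lit 95316) (nat_lit 15) nil (node (nat_lit 4) (nat_lit 95316) (nat_lit 15)
  (node (nat_lit 7) (nat_lit 95316) (nat_lit 16) nil nil) (node (nat_lit 7) (nat_lit 95316)
  (nat_lit 15) (node (nat_lit 4) (nat_lit 95316) (nat_lit 16) nil (node (nat_lit 5) (nat_lit
  95316) (nat_lit 16) nil nil)) nil))) nil)) (node (nat_lit 5) (nat_lit 0) (nat_lit 13) (node
  (nat_lit 4) (nat_lit 0) (nat_lit 14) (node (nat_lit 7) (nat_lit 0) (nat_lit 15) (node (nat_lit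
  5) (nat_lit 0) (nat_lit 16) (node (nat_lit 7) (nat_lit 0) (nat_lit 17) (node (nat_lit 4)
  (nat_lit 0) (nat_lit 18) (node (nat_lit 7) (nat_lit 0) (nat_lit 19) (node (nat_lit 5) (nat_lit
  83847) (nat_lit 20) (node (nat_lit 4) (nat_lit 85273) (nat_lit 21) (node (nat_lit 5) (nat_lit
  86251) (nat_lit 22) (node (nat_lit 7) (nat_lit 86984) (nat_lit 23) (node (nat_lit 4) (nat_lit
  87203) (nat_lit 24) (node (nat_lit 5) (nat_lit 87224) (nat_lit 25) (node (nat_lit 4) (nat_lit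
  86839) (nat_lit 26) (node (nat_lit 7) (nat_lit 86624) (nat_lit 27) (node (nat_lit 4) (nat_lit
  86516) (nat_lit 28) (node (nat_lit 5) (nat_lit 85977) (nat_lit 29) (node (nat_lit 7) (nat_lit
  85772) (nat_lit 30) (node (nat_lit 5) (nat_lit 84841) (nat_lit 31) (node (nat_lit 4) (nat_lit
  83237) (nat_lit 32) (node (nat_lit 5) (nat_lit 80254) (nat_lit 33) (node (nat_lit 7) (nat_lit
  76872) (nat_lit 34) (node (nat_lit 4) (nat_lit 69724) (nat_lit 35) nil nil) nil) nil) nil) nil)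
  nil) nil) nil) nil) nil) nil) nil) nil) (node (nat_lit 7) (nat_lit 86001) (nat_lit 22) (node
  (nat_lit 4) (nat_lit 84700) (nat_lit 23) nil nil) nil)) nil) (node (nat_lit 0) (nat_lit 84758)
  (nat_lit 20) nil nil)) (node (nat_lit 5) (nat_lit 0) (nat_lit 19) (node (nat_lit 7) (nat_lit
  83553) (nat_lit 20) (node (nat_lit 5) (nat_lit 84482) (nat_lit 21) (node (nat_lit 4) (nat_lit
  84723) (nat_lit 22) (node (nat_lit 5) (nat_lit 84465) (nat_lit 23) nil nil) nil) nil) (node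
  (nat_lit 4) (nat_lit 80557) (nat_lit 20) nil (node (nat_lit 0) (nat_lit 84663) (nat_lit 20) nil
  nil))) (node (nat_lit 0) (nat_lit 85011) (nat_lit 19) nil nil))) (node (nat_lit 0) (nat_lit
  87017) (nat_lit 18) nil nil)) (node (nat_lit 4) (nat_lit 0) (nat_lit 17) (node (nat_lit 5)
  (nat_lit 0) (nat_lit 18) (node (nat_lit 7) (nat_lit 0) (nat_lit 19) (node (nat_lit 4) (nat_lit
  82424) (nat_lit 20) (node (nat_lit 7) (nat_lit 83934) (nat_lit 21) (node (nat_lit 5) (nat_lit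
  84799) (nat_lit 22) (node (nat_lit 4) (nat_lit 84541) (nat_lit 23) nil (node (nat_lit 7)
  (nat_lit 85769) (nat_lit 23) (node (nat_lit 4) (nat_lit 86083) (nat_lit 24) (node (nat_lit 5)
  (nat_lit 86574) (nat_lit 25) (node (nat_lit 4) (nat_lit 86323) (nat_lit 26) (node (nat_lit 7)
  (nat_lit 86094) (nat_lit 27) (node (nat_lit 4) (nat_lit 86595) (nat_lit 28) (node (nat_lit 5)
  (nat_lit 85263) (nat_lit 29) (node (nat_lit 7) (nat_lit 86112) (nat_lit 30) (node (nat_lit 5)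
  (nat_lit 84896) (nat_lit 31) (node (nat_lit 4) (nat_lit 83587) (nat_lit 32) (node (nat_lit 5)
  (nat_lit 79825) (nat_lit 33) (node (nat_lit 7) (nat_lit 80123) (nat_lit 34) (node (nat_lit 4)
  (nat_lit 74226) (nat_lit 35) nil nil) nil) nil) nil) nil) nil) nil) nil) nil) nil) nil) nil)
  nil)) nil) (node (nat_lit 5) (nat_lit 81183) (nat_lit 21) nil nil)) (node (nat_lit 5) (nat_lit
  83534) (nat_lit 20) (node (nat_lit 4) (nat_lit 84636) (nat_lit 21) (node (nat_lit 7) (nat_lit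
  85172) (nat_lit 22) (node (nat_lit 4) (nat_lit 85740) (nat_lit 23) nil (node (nat_lit 5)
  (nat_lit 84914) (nat_lit 23) nil nil)) nil) nil) (node (nat_lit 0) (nat_lit 84684) (nat_lit 20)
  nil nil))) (node (nat_lit 0) (nat_lit 87472) (nat_lit 19) nil nil)) (node (nat_lit 0) (nat_lit
  86077) (nat_lit 18) nil nil)) (node (nat_lit 0) (nat_lit 86678) (nat_lit 17) nil nil))) (node
  (nat_lit 4) (nat_lit 0) (nat_lit 16) (node (nat_lit 5) (nat_lit 0) (nat_lit 17) (node (nat_lit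
  7) (nat_lit 0) (nat_lit 18) (node (nat_lit 4) (nat_lit 52243) (nat_lit 19) (node (nat_lit 7)
  (nat_lit 53834) (nat_lit 20) (node (nat_lit 5) (nat_lit 55022) (nat_lit 21) (node (nat_lit 4)
  (nat_lit 55881) (nat_lit 22) (node (nat_lit 5) (nat_lit 56552) (nat_lit 23) (node (nat_lit 7)
  (nat_lit 57075) (nat_lit 24) (node (nat_lit 4) (nat_lit 57363) (nat_lit 25) (node (nat_lit 5)
  (nat_lit 57682) (nat_lit 26) (node (nat_lit 4) (nat_lit 57425) (nat_lit 27) (node (nat_lit 7)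
  (nat_lit 57249) (nat_lit 28) (node (nat_lit 4) (nat_lit 57130) (nat_lit 29) (node (nat_lit 5)
  (nat_lit 56674) (nat_lit 30) (node (nat_lit 7) (nat_lit 56618) (nat_lit 31) (node (nat_lit 5)
  (nat_lit 56032) (nat_lit 32) nil nil) nil) nil) nil) nil) nil) nil) nil) nil) nil) (node
  (nat_lit 7) (nat_lit 56056) (nat_lit 22) (node (nat_lit 4) (nat_lit 56306) (nat_lit 23) (node
  (nat_lit 5) (nat_lit 56810) (nat_lit 24) (node (nat_lit 4) (nat_lit 56401) (nat_lit 25) (node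
  (nat_lit 7) (nat_lit 56017) (nat_lit 26) (node (nat_lit 4) (nat_lit 55966) (nat_lit 27) (node
  (nat_lit 5) (nat_lit 54318) (nat_lit 28) (node (nat_lit 7) (nat_lit 53925) (nat_lit 29) (node
  (nat_lit 5) (nat_lit 53017) (nat_lit 30) (node (nat_lit 4) (nat_lit 51560) (nat_lit 31) (node
  (nat_lit 5) (nat_lit 49537) (nat_lit 32) (node (nat_lit 7) (nat_lit 45028) (nat_lit 33) (node
  (nat_lit 4) (nat_lit 37181) (nat_lit 34) (node (nat_lit 5) (nat_lit 31724) (nat_lit 35) (node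
  (nat_lit 4) (nat_lit 16615) (nat_lit 36) (node (nat_lit 7) (nat_lit 17136) (nat_lit 37) nil nil)
  nil) nil) nil) nil) nil) nil) nil) nil) nil) nil) nil) nil) nil) nil) nil)) nil) nil) (node
  (nat_lit 0) (nat_lit 53558) (nat_lit 19) nil nil)) (node (nat_lit 0) (nat_lit 54408) (nat_lit
  18) nil nil)) (node (nat_lit 0) (nat_lit 84389) (nat_lit 17) nil nil)) (node (nat_lit 0)
  (nat_lit 87151) (nat_lit 16) nil nil))) (node (nat_lit 0) (nat_lit 87285) (nat_lit 15) (node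
  (nat_lit 5) (nat_lit 87285) (nat_lit 16) nil (node (nat_lit 4) (nat_lit 87285) (nat_lit 16) nil
  (node (nat_lit 7) (nat_lit 87285) (nat_lit 16) nil nil))) nil)) (node (nat_lit 0) (nat_lit
  89986) (nat_lit 14) (node (nat_lit 5) (nat_lit 89986) (nat_lit 15) (node (nat_lit 4) (nat_lit
  89986) (nat_lit 16) nil (node (nat_lit 7) (nat_lit 89986) (nat_lit 16) nil nil)) (node (nat_lit
  4) (nat_lit 89986) (nat_lit 15) (node (nat_lit 5) (nat_lit 89986) (nat_lit 16) (node (nat_lit 4)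
  (nat_lit 89986) (nat_lit 17) (node (nat_lit 7) (nat_lit 89986) (nat_lit 18) (node (nat_lit 4)
  (nat_lit 89986) (nat_lit 19) (node (nat_lit 5) (nat_lit 89986) (nat_lit 20) (node (nat_lit 7)
  (nat_lit 90229) (nat_lit 21) (node (nat_lit 5) (nat_lit 90418) (nat_lit 22) nil nil) nil) nil)
  nil) nil) nil) nil) (node (nat_lit 7) (nat_lit 89986) (nat_lit 15) nil nil))) nil)) (node
  (nat_lit 0) (nat_lit 93501) (nat_lit 13) (node (nat_lit 5) (nat_lit 93501) (nat_lit 14) (node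
  (nat_lit 4) (nat_lit 93501) (nat_lit 15) nil (node (nat_lit 7) (nat_lit 93501) (nat_lit 15) nil
  nil)) (node (nat_lit 4) (nat_lit 93501) (nat_lit 14) (node (nat_lit 5) (nat_lit 93501) (nat_lit
  15) (node (nat_lit 4) (nat_lit 93501) (nat_lit 16) (node (nat_lit 7) (nat_lit 93501) (nat_lit
  17) (node (nat_lit 4) (nat_lit 93501) (nat_lit 18) (node (nat_lit 5) (nat_lit 93501) (nat_lit
  19) (node (nat_lit 7) (nat_lit 93501) (nat_lit 20) (node (nat_lit 5) (nat_lit 94089) (nat_lit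
  21) (node (nat_lit 4) (nat_lit 93758) (nat_lit 22) nil nil) nil) nil) nil) nil) nil) nil) (node
  (nat_lit 7) (nat_lit 93501) (nat_lit 15) nil nil)) (node (nat_lit 7) (nat_lit 93501) (nat_lit
  14) (node (nat_lit 5) (nat_lit 93501) (nat_lit 15) nil (node (nat_lit 4) (nat_lit 93501)
  (nat_lit 15) nil nil)) nil))) nil)))

noncomputable def t103 : Tr :=
  (node (nat_lit 5) (nat_lit 0) (nat_lit 12) (node (nat_lit 7) (nat_lit 0) (nat_lit 13) (node
  (nat_lit 5) (nat_lit 0) (nat_lit 14) (node (nat_lit 4) (nat_lit 0) (nat_lit 15) (node (nat_lit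
  7) (nat_lit 0) (nat_lit 16) (node (nat_lit 5) (nat_lit 0) (nat_lit 17) (node (nat_lit 7)
  (nat_lit 0) (nat_lit 18) (node (nat_lit 4) (nat_lit 0) (nat_lit 19) (node (nat_lit 5) (nat_lit
  95909) (nat_lit 20) (node (nat_lit 7) (nat_lit 96841) (nat_lit 21) (node (nat_lit 5) (nat_lit
  97300) (nat_lit 22) nil nil) (node (nat_lit 4) (nat_lit 94921) (nat_lit 21) (node (nat_lit 7)
  (nat_lit 95272) (nat_lit 22) (node (nat_lit 4) (nat_lit 86476) (nat_lit 23) (node (nat_lit 5)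
  (nat_lit 88022) (nat_lit 24) (node (nat_lit 7) (nat_lit 84691) (nat_lit 25) (node (nat_lit 4)
  (nat_lit 82525) (nat_lit 26) (node (nat_lit 7) (nat_lit 81421) (nat_lit 27) (node (nat_lit 5)
  (nat_lit 73967) (nat_lit 28) (node (nat_lit 4) (nat_lit 66755) (nat_lit 29) (node (nat_lit 5)
  (nat_lit 58262) (nat_lit 30) (node (nat_lit 7) (nat_lit 32196) (nat_lit 31) (node (nat_lit 5)
  (nat_lit 20507) (nat_lit 32) nil nil) nil) nil) nil) nil) nil) nil) nil) nil) (node (nat_lit 5)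
  (nat_lit 95223) (nat_lit 23) nil nil)) nil) nil)) (node (nat_lit 7) (nat_lit 96830) (nat_lit 20)
  (node (nat_lit 5) (nat_lit 96750) (nat_lit 21) (node (nat_lit 4) (nat_lit 96419) (nat_lit 22)
  nil nil) nil) (node (nat_lit 0) (nat_lit 98031) (nat_lit 20) nil nil))) (node (nat_lit 0)
  (nat_lit 99492) (nat_lit 19) nil nil)) (node (nat_lit 0) (nat_lit 100945) (nat_lit 18) nil nil))
  (node (nat_lit 4) (nat_lit 0) (nat_lit 17) (node (nat_lit 5) (nat_lit 0) (nat_lit 18) (node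
  (nat_lit 4) (nat_lit 97469) (nat_lit 19) (node (nat_lit 7) (nat_lit 99549) (nat_lit 20) (node
  (nat_lit 5) (nat_lit 100638) (nat_lit 21) (node (nat_lit 7) (nat_lit 101647) (nat_lit 22) (node
  (nat_lit 4) (nat_lit 102006) (nat_lit 23) (node (nat_lit 5) (nat_lit 102285) (nat_lit 24) (node
  (nat_lit 4) (nat_lit 102503) (nat_lit 25) (node (nat_lit 7) (nat_lit 102281) (nat_lit 26) (node
  (nat_lit 4) (nat_lit 101932) (nat_lit 27) (node (nat_lit 5) (nat_lit 96575) (nat_lit 28) (node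
  (nat_lit 7) (nat_lit 94131) (nat_lit 29) (node (nat_lit 4) (nat_lit 92231) (nat_lit 30) (node
  (nat_lit 7) (nat_lit 91354) (nat_lit 31) (node (nat_lit 5) (nat_lit 86220) (nat_lit 32) (node
  (nat_lit 4) (nat_lit 84678) (nat_lit 33) (node (nat_lit 5) (nat_lit 75934) (nat_lit 34) (node
  (nat_lit 7) (nat_lit 69169) (nat_lit 35) (node (nat_lit 5) (nat_lit 68203) (nat_lit 36) (node
  (nat_lit 4) (nat_lit 58501) (nat_lit 37) (node (nat_lit 7) (nat_lit 62197) (nat_lit 38) (node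
  (nat_lit 4) (nat_lit 44844) (nat_lit 39) (node (nat_lit 5) (nat_lit 32474) (nat_lit 40) (node
  (nat_lit 4) (nat_lit 33798) (nat_lit 41) nil nil) nil) nil) nil) nil) nil) nil) nil) nil) nil)
  nil) nil) nil) nil) nil) nil) nil) nil) nil) (node (nat_lit 4) (nat_lit 101097) (nat_lit 22) nil
  nil)) nil) nil) (node (nat_lit 7) (nat_lit 0) (nat_lit 19) (node (nat_lit 4) (nat_lit 0)
  (nat_lit 20) (node (nat_lit 7) (nat_lit 0) (nat_lit 21) (node (nat_lit 5) (nat_lit 101647)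
  (nat_lit 22) (node (nat_lit 7) (nat_lit 102006) (nat_lit 23) (node (nat_lit 4) (nat_lit 102285)
  (nat_lit 24) (node (nat_lit 5) (nat_lit 102503) (nat_lit 25) (node (nat_lit 4) (nat_lit 102674)
  (nat_lit 26) (node (nat_lit 7) (nat_lit 102676) (nat_lit 27) (node (nat_lit 4) (nat_lit 102369)
  (nat_lit 28) (node (nat_lit 5) (nat_lit 102308) (nat_lit 29) (node (nat_lit 7) (nat_lit 100886)
  (nat_lit 30) nil nil) nil) nil) nil) nil) nil) nil) nil) (node (nat_lit 0) (nat_lit 102991)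
  (nat_lit 22) nil nil)) (node (nat_lit 0) (nat_lit 102910) (nat_lit 21) nil nil)) (node (nat_lit
  5) (nat_lit 0) (nat_lit 20) (node (nat_lit 4) (nat_lit 100989) (nat_lit 21) (node (nat_lit 5)
  (nat_lit 101647) (nat_lit 22) (node (nat_lit 7) (nat_lit 102006) (nat_lit 23) (node (nat_lit 4)
  (nat_lit 102285) (nat_lit 24) (node (nat_lit 5) (nat_lit 102503) (nat_lit 25) (node (nat_lit 4)
  (nat_lit 102485) (nat_lit 26) (node (nat_lit 7) (nat_lit 102253) (nat_lit 27) nil nil) nil) nil)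
  nil) nil) nil) (node (nat_lit 0) (nat_lit 102094) (nat_lit 21) nil nil)) (node (nat_lit 0)
  (nat_lit 102486) (nat_lit 20) nil nil))) (node (nat_lit 0) (nat_lit 100712) (nat_lit 19) nil
  nil))) (node (nat_lit 0) (nat_lit 101381) (nat_lit 18) nil nil)) (node (nat_lit 0) (nat_lit
  101206) (nat_lit 17) nil nil))) (node (nat_lit 0) (nat_lit 100279) (nat_lit 16) nil nil)) (node
  (nat_lit 0) (nat_lit 101605) (nat_lit 15) (node (nat_lit 7) (nat_lit 101605) (nat_lit 16) nil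
  (node (nat_lit 5) (nat_lit 101605) (nat_lit 16) nil nil)) nil)) (node (nat_lit 4) (nat_lit 0)
  (nat_lit 14) (node (nat_lit 5) (nat_lit 0) (nat_lit 15) (node (nat_lit 4) (nat_lit 0) (nat_lit
  16) (node (nat_lit 7) (nat_lit 0) (nat_lit 17) (node (nat_lit 5) (nat_lit 0) (nat_lit 18) (node
  (nat_lit 4) (nat_lit 92550) (nat_lit 19) (node (nat_lit 5) (nat_lit 93861) (nat_lit 20) (node
  (nat_lit 7) (nat_lit 93487) (nat_lit 21) (node (nat_lit 4) (nat_lit 93355) (nat_lit 22) (node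
  (nat_lit 7) (nat_lit 93503) (nat_lit 23) nil nil) (node (nat_lit 5) (nat_lit 93676) (nat_lit 22)
  nil nil)) nil) nil) (node (nat_lit 7) (nat_lit 92828) (nat_lit 19) (node (nat_lit 4) (nat_lit
  93930) (nat_lit 20) (node (nat_lit 5) (nat_lit 92591) (nat_lit 21) (node (nat_lit 7) (nat_lit
  92781) (nat_lit 22) nil (node (nat_lit 4) (nat_lit 91851) (nat_lit 22) nil nil)) (node (nat_lit
  7) (nat_lit 94172) (nat_lit 21) (node (nat_lit 5) (nat_lit 94034) (nat_lit 22) nil nil) nil))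
  nil) (node (nat_lit 0) (nat_lit 94007) (nat_lit 19) nil nil))) (node (nat_lit 4) (nat_lit 0)
  (nat_lit 18) (node (nat_lit 5) (nat_lit 0) (nat_lit 19) (node (nat_lit 7) (nat_lit 0) (nat_lit
  20) (node (nat_lit 5) (nat_lit 0) (nat_lit 21) (node (nat_lit 4) (nat_lit 74114) (nat_lit 22)
  (node (nat_lit 7) (nat_lit 74532) (nat_lit 23) (node (nat_lit 4) (nat_lit 74976) (nat_lit 24)
  (node (nat_lit 5) (nat_lit 75322) (nat_lit 25) (node (nat_lit 4) (nat_lit 75592) (nat_lit 26)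
  (node (nat_lit 7) (nat_lit 75661) (nat_lit 27) nil nil) nil) nil) (node (nat_lit 5) (nat_lit
  74494) (nat_lit 24) (node (nat_lit 7) (nat_lit 74184) (nat_lit 25) nil nil) nil)) (node (nat_lit
  5) (nat_lit 74297) (nat_lit 23) (node (nat_lit 7) (nat_lit 74859) (nat_lit 24) (node (nat_lit 4)
  (nat_lit 74891) (nat_lit 25) (node (nat_lit 5) (nat_lit 75171) (nat_lit 26) (node (nat_lit 4)
  (nat_lit 74824) (nat_lit 27) (node (nat_lit 7) (nat_lit 74546) (nat_lit 28) (node (nat_lit 4)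
  (nat_lit 74159) (nat_lit 29) nil nil) nil) nil) nil) nil) nil) nil)) (node (nat_lit 0) (nat_lit
  75449) (nat_lit 22) nil nil)) (node (nat_lit 4) (nat_lit 0) (nat_lit 21) (node (nat_lit 7)
  (nat_lit 54385) (nat_lit 22) (node (nat_lit 5) (nat_lit 54926) (nat_lit 23) nil nil) (node
  (nat_lit 0) (nat_lit 55493) (nat_lit 22) nil nil)) (node (nat_lit 0) (nat_lit 74458) (nat_lit
  21) nil nil))) (node (nat_lit 0) (nat_lit 74595) (nat_lit 20) nil nil)) (node (nat_lit 0)
  (nat_lit 81679) (nat_lit 19) nil nil)) (node (nat_lit 0) (nat_lit 94925) (nat_lit 18) nil nil)))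
  (node (nat_lit 0) (nat_lit 96824) (nat_lit 17) nil nil)) (node (nat_lit 0) (nat_lit 100050)
  (nat_lit 16) nil nil)) (node (nat_lit 0) (nat_lit 99406) (nat_lit 15) (node (nat_lit 4) (nat_lit
  99406) (nat_lit 16) nil (node (nat_lit 7) (nat_lit 99406) (nat_lit 16) nil (node (nat_lit 5)
  (nat_lit 99406) (nat_lit 16) nil nil))) (node (nat_lit 7) (nat_lit 0) (nat_lit 15) (node
  (nat_lit 0) (nat_lit 97155) (nat_lit 16) nil nil) nil))) (node (nat_lit 0) (nat_lit 100928)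
  (nat_lit 14) (node (nat_lit 5) (nat_lit 100928) (nat_lit 15) nil (node (nat_lit 7) (nat_lit
  100928) (nat_lit 15) nil (node (nat_lit 4) (nat_lit 100928) (nat_lit 15) nil nil))) nil))) (node
  (nat_lit 0) (nat_lit 100601) (nat_lit 13) (node (nat_lit 4) (nat_lit 100601) (nat_lit 14) (node
  (nat_lit 5) (nat_lit 100601) (nat_lit 15) (node (nat_lit 4) (nat_lit 100601) (nat_lit 16) (node
  (nat_lit 7) (nat_lit 100601) (nat_lit 17) (node (nat_lit 4) (nat_lit 100601) (nat_lit 18) (node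
  (nat_lit 5) (nat_lit 100601) (nat_lit 19) (node (nat_lit 7) (nat_lit 100601) (nat_lit 20) (node
  (nat_lit 4) (nat_lit 101188) (nat_lit 21) (node (nat_lit 7) (nat_lit 101647) (nat_lit 22) (node
  (nat_lit 5) (nat_lit 101389) (nat_lit 23) nil nil) nil) nil) nil) nil) nil) nil) nil) (node
  (nat_lit 7) (nat_lit 100601) (nat_lit 15) nil nil)) (node (nat_lit 5) (nat_lit 100601) (nat_lit
  14) (node (nat_lit 4) (nat_lit 100601) (nat_lit 15) nil (node (nat_lit 7) (nat_lit 100601)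
  (nat_lit 15) nil nil)) (node (nat_lit 7) (nat_lit 100601) (nat_lit 14) (node (nat_lit 5)
  (nat_lit 100601) (nat_lit 15) nil (node (nat_lit 4) (nat_lit 100601) (nat_lit 15) nil nil))
  nil))) nil)) (node (nat_lit 7) (nat_lit 0) (nat_lit 12) (node (nat_lit 4) (nat_lit 0) (nat_lit
  13) (node (nat_lit 5) (nat_lit 0) (nat_lit 14) (node (nat_lit 4) (nat_lit 0) (nat_lit 15) (node
  (nat_lit 7) (nat_lit 0) (nat_lit 16) (node (nat_lit 5) (nat_lit 0) (nat_lit 17) (node (nat_lit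
  7) (nat_lit 0) (nat_lit 18) (node (nat_lit 4) (nat_lit 0) (nat_lit 19) (node (nat_lit 5)
  (nat_lit 0) (nat_lit 20) (node (nat_lit 7) (nat_lit 0) (nat_lit 21) (node (nat_lit 5) (nat_lit
  98222) (nat_lit 22) (node (nat_lit 4) (nat_lit 98740) (nat_lit 23) (node (nat_lit 7) (nat_lit
  98342) (nat_lit 24) nil (node (nat_lit 5) (nat_lit 98538) (nat_lit 24) nil nil)) nil) (node
  (nat_lit 0) (nat_lit 99374) (nat_lit 22) nil nil)) (node (nat_lit 4) (nat_lit 0) (nat_lit 21)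
  (node (nat_lit 7) (nat_lit 94963) (nat_lit 22) (node (nat_lit 4) (nat_lit 90705) (nat_lit 23)
  (node (nat_lit 5) (nat_lit 91076) (nat_lit 24) (node (nat_lit 7) (nat_lit 89387) (nat_lit 25)
  (node (nat_lit 4) (nat_lit 81748) (nat_lit 26) (node (nat_lit 7) (nat_lit 73583) (nat_lit 27)
  (node (nat_lit 5) (nat_lit 67092) (nat_lit 28) (node (nat_lit 4) (nat_lit 57368) (nat_lit 29)
  (node (nat_lit 7) (nat_lit 46494) (nat_lit 30) (node (nat_lit 4) (nat_lit 43720) (nat_lit 31)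
  (node (nat_lit 5) (nat_lit 32021) (nat_lit 32) (node (nat_lit 4) (nat_lit 32626) (nat_lit 33)
  nil nil) nil) nil) nil) nil) nil) nil) nil) nil) nil) nil) (node (nat_lit 0) (nat_lit 97207)
  (nat_lit 22) nil nil)) (node (nat_lit 0) (nat_lit 98438) (nat_lit 21) nil nil))) (node (nat_lit
  7) (nat_lit 96603) (nat_lit 20) (node (nat_lit 5) (nat_lit 97475) (nat_lit 21) (node (nat_lit 4)
  (nat_lit 97144) (nat_lit 22) nil nil) nil) (node (nat_lit 0) (nat_lit 99539) (nat_lit 20) nil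
  nil))) (node (nat_lit 0) (nat_lit 102463) (nat_lit 19) nil nil)) (node (nat_lit 4) (nat_lit 0)
  (nat_lit 18) (node (nat_lit 5) (nat_lit 0) (nat_lit 19) (node (nat_lit 7) (nat_lit 98099)
  (nat_lit 20) (node (nat_lit 4) (nat_lit 98551) (nat_lit 21) (node (nat_lit 5) (nat_lit 99299)
  (nat_lit 22) (node (nat_lit 4) (nat_lit 98962) (nat_lit 23) (node (nat_lit 7) (nat_lit 98537)
  (nat_lit 24) (node (nat_lit 4) (nat_lit 96816) (nat_lit 25) (node (nat_lit 5) (nat_lit 99467)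
  (nat_lit 26) (node (nat_lit 7) (nat_lit 96320) (nat_lit 27) (node (nat_lit 4) (nat_lit 90311)
  (nat_lit 28) (node (nat_lit 7) (nat_lit 88066) (nat_lit 29) (node (nat_lit 5) (nat_lit 84500)
  (nat_lit 30) (node (nat_lit 4) (nat_lit 74410) (nat_lit 31) (node (nat_lit 7) (nat_lit 67964)
  (nat_lit 32) (node (nat_lit 4) (nat_lit 61995) (nat_lit 33) (node (nat_lit 5) (nat_lit 63787)
  (nat_lit 34) (node (nat_lit 4) (nat_lit 54259) (nat_lit 35) (node (nat_lit 7) (nat_lit 54676)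
  (nat_lit 36) (node (nat_lit 5) (nat_lit 23688) (nat_lit 37) nil nil) nil) nil) nil) nil) nil)
  nil) nil) nil) nil) nil) nil) nil) nil) nil) (node (nat_lit 7) (nat_lit 99410) (nat_lit 22)
  (node (nat_lit 5) (nat_lit 99151) (nat_lit 23) nil nil) nil)) (node (nat_lit 5) (nat_lit 99028)
  (nat_lit 21) (node (nat_lit 4) (nat_lit 99269) (nat_lit 22) nil nil) nil)) (node (nat_lit 0)
  (nat_lit 99208) (nat_lit 20) nil nil)) (node (nat_lit 0) (nat_lit 102055) (nat_lit 19) nil nil))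
  (node (nat_lit 0) (nat_lit 100862) (nat_lit 18) nil nil))) (node (nat_lit 0) (nat_lit 100821)
  (nat_lit 17) nil nil)) (node (nat_lit 0) (nat_lit 100680) (nat_lit 16) nil nil)) (node (nat_lit
  7) (nat_lit 0) (nat_lit 15) (node (nat_lit 5) (nat_lit 0) (nat_lit 16) (node (nat_lit 4)
  (nat_lit 0) (nat_lit 17) (node (nat_lit 7) (nat_lit 0) (nat_lit 18) (node (nat_lit 5) (nat_lit
  0) (nat_lit 19) (node (nat_lit 7) (nat_lit 98429) (nat_lit 20) (node (nat_lit 4) (nat_lit 99601)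
  (nat_lit 21) (node (nat_lit 5) (nat_lit 100097) (nat_lit 22) (node (nat_lit 7) (nat_lit 100456)
  (nat_lit 23) nil (node (nat_lit 4) (nat_lit 99516) (nat_lit 23) (node (nat_lit 7) (nat_lit
  100067) (nat_lit 24) (node (nat_lit 4) (nat_lit 98503) (nat_lit 25) (node (nat_lit 5) (nat_lit
  98037) (nat_lit 26) (node (nat_lit 7) (nat_lit 95346) (nat_lit 27) (node (nat_lit 4) (nat_lit
  90487) (nat_lit 28) (node (nat_lit 7) (nat_lit 89495) (nat_lit 29) (node (nat_lit 5) (nat_lit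
  84109) (nat_lit 30) (node (nat_lit 4) (nat_lit 74867) (nat_lit 31) nil nil) nil) nil) nil) nil)
  nil) nil) nil) nil)) (node (nat_lit 7) (nat_lit 99841) (nat_lit 22) nil nil)) nil) (node
  (nat_lit 0) (nat_lit 99558) (nat_lit 20) nil nil)) (node (nat_lit 4) (nat_lit 96439) (nat_lit
  19) nil (node (nat_lit 0) (nat_lit 100303) (nat_lit 19) nil nil))) (node (nat_lit 5) (nat_lit 0)
  (nat_lit 18) (node (nat_lit 7) (nat_lit 0) (nat_lit 19) (node (nat_lit 4) (nat_lit 97787)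
  (nat_lit 20) (node (nat_lit 7) (nat_lit 99297) (nat_lit 21) (node (nat_lit 5) (nat_lit 100171)
  (nat_lit 22) (node (nat_lit 4) (nat_lit 100358) (nat_lit 23) nil (node (nat_lit 7) (nat_lit
  101059) (nat_lit 23) (node (nat_lit 4) (nat_lit 100990) (nat_lit 24) (node (nat_lit 5) (nat_lit
  101011) (nat_lit 25) (node (nat_lit 4) (nat_lit 100626) (nat_lit 26) (node (nat_lit 7) (nat_lit
  100395) (nat_lit 27) (node (nat_lit 4) (nat_lit 100088) (nat_lit 28) (node (nat_lit 5) (nat_lit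
  100027) (nat_lit 29) (node (nat_lit 7) (nat_lit 99453) (nat_lit 30) nil nil) nil) nil) nil) nil)
  nil) nil) nil)) nil) (node (nat_lit 5) (nat_lit 99502) (nat_lit 21) (node (nat_lit 4) (nat_lit
  98468) (nat_lit 22) (node (nat_lit 7) (nat_lit 97618) (nat_lit 23) (node (nat_lit 4) (nat_lit
  95382) (nat_lit 24) (node (nat_lit 5) (nat_lit 97146) (nat_lit 25) (node (nat_lit 7) (nat_lit
  93055) (nat_lit 26) (node (nat_lit 4) (nat_lit 88709) (nat_lit 27) (node (nat_lit 7) (nat_lit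
  83549) (nat_lit 28) (node (nat_lit 5) (nat_lit 75586) (nat_lit 29) (node (nat_lit 4) (nat_lit
  60489) (nat_lit 30) (node (nat_lit 7) (nat_lit 57308) (nat_lit 31) (node (nat_lit 4) (nat_lit
  57662) (nat_lit 32) (node (nat_lit 5) (nat_lit 53337) (nat_lit 33) nil nil) nil) nil) nil) nil)
  nil) nil) nil) nil) nil) nil) nil) nil)) (node (nat_lit 0) (nat_lit 99571) (nat_lit 20) nil
  nil)) (node (nat_lit 0) (nat_lit 100413) (nat_lit 19) nil nil)) (node (nat_lit 0) (nat_lit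
  101385) (nat_lit 18) nil nil))) (node (nat_lit 0) (nat_lit 102285) (nat_lit 17) nil nil)) (node
  (nat_lit 0) (nat_lit 102006) (nat_lit 16) nil (node (nat_lit 4) (nat_lit 0) (nat_lit 16) (node
  (nat_lit 0) (nat_lit 99620) (nat_lit 17) nil nil) nil))) (node (nat_lit 0) (nat_lit 101647)
  (nat_lit 15) (node (nat_lit 4) (nat_lit 101647) (nat_lit 16) nil (node (nat_lit 5) (nat_lit
  101647) (nat_lit 16) nil (node (nat_lit 7) (nat_lit 101647) (nat_lit 16) nil nil))) nil))) (node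
  (nat_lit 0) (nat_lit 101188) (nat_lit 14) (node (nat_lit 5) (nat_lit 101188) (nat_lit 15) (node
  (nat_lit 4) (nat_lit 101188) (nat_lit 16) nil (node (nat_lit 7) (nat_lit 101188) (nat_lit 16)
  nil nil)) (node (nat_lit 7) (nat_lit 101188) (nat_lit 15) (node (nat_lit 4) (nat_lit 101188)
  (nat_lit 16) (node (nat_lit 5) (nat_lit 101188) (nat_lit 17) nil nil) (node (nat_lit 5) (nat_lit
  101188) (nat_lit 16) nil nil)) (node (nat_lit 4) (nat_lit 101188) (nat_lit 15) (node (nat_lit 7)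
  (nat_lit 101188) (nat_lit 16) nil (node (nat_lit 5) (nat_lit 101188) (nat_lit 16) nil nil))
  nil))) nil)) (node (nat_lit 0) (nat_lit 99530) (nat_lit 13) (node (nat_lit 5) (nat_lit 99530)
  (nat_lit 14) nil (node (nat_lit 4) (nat_lit 99530) (nat_lit 14) (node (nat_lit 5) (nat_lit
  99530) (nat_lit 15) (node (nat_lit 4) (nat_lit 99530) (nat_lit 16) (node (nat_lit 7) (nat_lit
  99530) (nat_lit 17) (node (nat_lit 4) (nat_lit 99530) (nat_lit 18) (node (nat_lit 5) (nat_lit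
  99530) (nat_lit 19) (node (nat_lit 7) (nat_lit 99530) (nat_lit 20) (node (nat_lit 4) (nat_lit
  100118) (nat_lit 21) (node (nat_lit 7) (nat_lit 100577) (nat_lit 22) (node (nat_lit 5) (nat_lit
  100318) (nat_lit 23) (node (nat_lit 4) (nat_lit 100116) (nat_lit 24) (node (nat_lit 7) (nat_lit
  100287) (nat_lit 25) nil nil) nil) nil) nil) nil) nil) nil) nil) nil) nil) nil) (node (nat_lit
  7) (nat_lit 99530) (nat_lit 14) nil nil))) nil)) (node (nat_lit 0) (nat_lit 99847) (nat_lit 12)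
  (node (nat_lit 5) (nat_lit 99847) (nat_lit 13) (node (nat_lit 4) (nat_lit 99847) (nat_lit 14)
  (node (nat_lit 7) (nat_lit 99847) (nat_lit 15) nil (node (nat_lit 5) (nat_lit 99847) (nat_lit
  15) nil nil)) (node (nat_lit 7) (nat_lit 99847) (nat_lit 14) (node (nat_lit 4) (nat_lit 99847)
  (nat_lit 15) nil nil) nil)) (node (nat_lit 4) (nat_lit 99847) (nat_lit 13) (node (nat_lit 5)
  (nat_lit 99847) (nat_lit 14) (node (nat_lit 7) (nat_lit 99847) (nat_lit 15) nil (node (nat_lit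
  4) (nat_lit 99847) (nat_lit 15) (node (nat_lit 7) (nat_lit 99847) (nat_lit 16) (node (nat_lit 4)
  (nat_lit 99847) (nat_lit 17) (node (nat_lit 5) (nat_lit 99847) (nat_lit 18) (node (nat_lit 7)
  (nat_lit 99847) (nat_lit 19) (node (nat_lit 4) (nat_lit 100601) (nat_lit 20) (node (nat_lit 7)
  (nat_lit 101188) (nat_lit 21) (node (nat_lit 5) (nat_lit 100857) (nat_lit 22) (node (nat_lit 4)
  (nat_lit 100599) (nat_lit 23) nil nil) nil) nil) nil) nil) nil) nil) nil) nil)) (node (nat_lit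
  7) (nat_lit 99847) (nat_lit 14) (node (nat_lit 5) (nat_lit 99847) (nat_lit 15) nil (node
  (nat_lit 4) (nat_lit 99847) (nat_lit 15) nil nil)) nil)) (node (nat_lit 7) (nat_lit 99847)
  (nat_lit 13) (node (nat_lit 4) (nat_lit 99847) (nat_lit 14) (node (nat_lit 5) (nat_lit 99847)
  (nat_lit 15) (node (nat_lit 4) (nat_lit 99847) (nat_lit 16) (node (nat_lit 7) (nat_lit 99847)
  (nat_lit 17) (node (nat_lit 4) (nat_lit 99847) (nat_lit 18) (node (nat_lit 5) (nat_lit 99847)
  (nat_lit 19) (node (nat_lit 7) (nat_lit 100601) (nat_lit 20) nil nil) nil) nil) nil) nil) (node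
  (nat_lit 7) (nat_lit 99847) (nat_lit 15) nil nil)) (node (nat_lit 5) (nat_lit 99847) (nat_lit
  14) (node (nat_lit 4) (nat_lit 99847) (nat_lit 15) nil nil) nil)) nil))) nil)))

noncomputable def t104 : Tr :=
  (node (nat_lit 7) (nat_lit 0) (nat_lit 11) (node (nat_lit 4) (nat_lit 0) (nat_lit 12) (node
  (nat_lit 5) (nat_lit 0) (nat_lit 13) (node (nat_lit 4) (nat_lit 0) (nat_lit 14) (node (nat_lit
  7) (nat_lit 0) (nat_lit 15) (node (nat_lit 5) (nat_lit 0) (nat_lit 16) (node (nat_lit 4)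
  (nat_lit 0) (nat_lit 17) (node (nat_lit 5) (nat_lit 0) (nat_lit 18) (node (nat_lit 7) (nat_lit
  0) (nat_lit 19) (node (nat_lit 4) (nat_lit 0) (nat_lit 20) (node (nat_lit 7) (nat_lit 74556)
  (nat_lit 21) (node (nat_lit 5) (nat_lit 74528) (nat_lit 22) (node (nat_lit 4) (nat_lit 74419)
  (nat_lit 23) nil (node (nat_lit 7) (nat_lit 74313) (nat_lit 23) (node (nat_lit 4) (nat_lit
  74244) (nat_lit 24) (node (nat_lit 5) (nat_lit 74265) (nat_lit 25) (node (nat_lit 4) (nat_lit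
  73880) (nat_lit 26) (node (nat_lit 7) (nat_lit 73649) (nat_lit 27) (node (nat_lit 4) (nat_lit
  73342) (nat_lit 28) (node (nat_lit 5) (nat_lit 73281) (nat_lit 29) (node (nat_lit 7) (nat_lit
  72649) (nat_lit 30) nil nil) nil) nil) nil) nil) nil) nil) nil)) nil) (node (nat_lit 5) (nat_lit
  73077) (nat_lit 21) (node (nat_lit 4) (nat_lit 70757) (nat_lit 22) (node (nat_lit 7) (nat_lit
  70025) (nat_lit 23) (node (nat_lit 4) (nat_lit 68842) (nat_lit 24) (node (nat_lit 5) (nat_lit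
  67633) (nat_lit 25) (node (nat_lit 7) (nat_lit 64775) (nat_lit 26) (node (nat_lit 4) (nat_lit
  61019) (nat_lit 27) (node (nat_lit 7) (nat_lit 52203) (nat_lit 28) (node (nat_lit 5) (nat_lit
  43954) (nat_lit 29) (node (nat_lit 7) (nat_lit 37518) (nat_lit 30) (node (nat_lit 4) (nat_lit
  31544) (nat_lit 31) (node (nat_lit 5) (nat_lit 40240) (nat_lit 32) nil nil) nil) nil) nil) nil)
  nil) nil) nil) nil) nil) nil) (node (nat_lit 0) (nat_lit 75183) (nat_lit 21) nil nil))) (node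
  (nat_lit 5) (nat_lit 0) (nat_lit 20) (node (nat_lit 4) (nat_lit 74317) (nat_lit 21) (node
  (nat_lit 7) (nat_lit 74569) (nat_lit 22) (node (nat_lit 4) (nat_lit 73997) (nat_lit 23) (node
  (nat_lit 5) (nat_lit 74028) (nat_lit 24) (node (nat_lit 7) (nat_lit 74118) (nat_lit 25) nil
  (node (nat_lit 4) (nat_lit 73541) (nat_lit 25) (node (nat_lit 7) (nat_lit 73294) (nat_lit 26)
  nil nil) nil)) nil) (node (nat_lit 5) (nat_lit 74459) (nat_lit 23) (node (nat_lit 7) (nat_lit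
  74549) (nat_lit 24) nil nil) nil)) nil) (node (nat_lit 0) (nat_lit 75231) (nat_lit 21) nil nil))
  (node (nat_lit 0) (nat_lit 75487) (nat_lit 20) nil nil))) (node (nat_lit 0) (nat_lit 74963)
  (nat_lit 19) nil nil)) (node (nat_lit 0) (nat_lit 75307) (nat_lit 18) nil nil)) (node (nat_lit
  7) (nat_lit 0) (nat_lit 17) (node (nat_lit 4) (nat_lit 0) (nat_lit 18) (node (nat_lit 7)
  (nat_lit 0) (nat_lit 19) (node (nat_lit 5) (nat_lit 74388) (nat_lit 20) (node (nat_lit 4)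
  (nat_lit 74898) (nat_lit 21) (node (nat_lit 5) (nat_lit 74760) (nat_lit 22) (node (nat_lit 7)
  (nat_lit 74872) (nat_lit 23) (node (nat_lit 4) (nat_lit 74803) (nat_lit 24) (node (nat_lit 5)
  (nat_lit 74824) (nat_lit 25) (node (nat_lit 4) (nat_lit 74439) (nat_lit 26) (node (nat_lit 7)
  (nat_lit 74207) (nat_lit 27) (node (nat_lit 4) (nat_lit 73901) (nat_lit 28) (node (nat_lit 5)
  (nat_lit 73840) (nat_lit 29) (node (nat_lit 7) (nat_lit 73207) (nat_lit 30) (node (nat_lit 4)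
  (nat_lit 72766) (nat_lit 31) (node (nat_lit 7) (nat_lit 71322) (nat_lit 32) (node (nat_lit 5)
  (nat_lit 69681) (nat_lit 33) nil nil) nil) nil) nil) nil) nil) nil) nil) nil) nil) nil) (node
  (nat_lit 7) (nat_lit 75198) (nat_lit 22) (node (nat_lit 4) (nat_lit 74626) (nat_lit 23) (node
  (nat_lit 5) (nat_lit 74657) (nat_lit 24) (node (nat_lit 4) (nat_lit 74170) (nat_lit 25) (node
  (nat_lit 7) (nat_lit 73923) (nat_lit 26) nil nil) nil) nil) nil) nil)) nil) (node (nat_lit 0)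
  (nat_lit 74976) (nat_lit 20) nil nil)) (node (nat_lit 0) (nat_lit 74212) (nat_lit 19) nil nil))
  (node (nat_lit 0) (nat_lit 75329) (nat_lit 18) nil nil)) (node (nat_lit 0) (nat_lit 75066)
  (nat_lit 17) nil nil))) (node (nat_lit 4) (nat_lit 0) (nat_lit 16) (node (nat_lit 5) (nat_lit 0)
  (nat_lit 17) (node (nat_lit 7) (nat_lit 0) (nat_lit 18) (node (nat_lit 5) (nat_lit 0) (nat_lit
  19) (node (nat_lit 4) (nat_lit 43085) (nat_lit 20) (node (nat_lit 5) (nat_lit 44435) (nat_lit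
  21) (node (nat_lit 7) (nat_lit 45335) (nat_lit 22) (node (nat_lit 4) (nat_lit 45274) (nat_lit
  23) (node (nat_lit 7) (nat_lit 45389) (nat_lit 24) nil (node (nat_lit 5) (nat_lit 45304)
  (nat_lit 24) (node (nat_lit 4) (nat_lit 44818) (nat_lit 25) (node (nat_lit 7) (nat_lit 44571)
  (nat_lit 26) nil nil) nil) nil)) nil) nil) (node (nat_lit 7) (nat_lit 44228) (nat_lit 21) (node
  (nat_lit 5) (nat_lit 44167) (nat_lit 22) (node (nat_lit 7) (nat_lit 44658) (nat_lit 23) (node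
  (nat_lit 4) (nat_lit 44673) (nat_lit 24) (node (nat_lit 5) (nat_lit 44892) (nat_lit 25) (node
  (nat_lit 4) (nat_lit 44431) (nat_lit 26) (node (nat_lit 7) (nat_lit 43895) (nat_lit 27) (node
  (nat_lit 4) (nat_lit 43331) (nat_lit 28) (node (nat_lit 5) (nat_lit 43116) (nat_lit 29) (node
  (nat_lit 7) (nat_lit 41323) (nat_lit 30) (node (nat_lit 4) (nat_lit 40838) (nat_lit 31) (node
  (nat_lit 7) (nat_lit 37619) (nat_lit 32) (node (nat_lit 5) (nat_lit 35141) (nat_lit 33) (node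
  (nat_lit 7) (nat_lit 33988) (nat_lit 34) (node (nat_lit 4) (nat_lit 27448) (nat_lit 35) (node
  (nat_lit 5) (nat_lit 25515) (nat_lit 36) (node (nat_lit 4) (nat_lit 17801) (nat_lit 37) (node
  (nat_lit 7) (nat_lit 4550) (nat_lit 38) (node (nat_lit 4) (nat_lit 18201) (nat_lit 39) (node
  (nat_lit 5) (nat_lit 3477) (nat_lit 40) nil nil) nil) nil) nil) nil) nil) nil) nil) nil) nil)
  nil) nil) nil) nil) nil) nil) nil) nil) (node (nat_lit 4) (nat_lit 44956) (nat_lit 22) (node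
  (nat_lit 5) (nat_lit 45503) (nat_lit 23) (node (nat_lit 4) (nat_lit 44927) (nat_lit 24) (node
  (nat_lit 7) (nat_lit 44657) (nat_lit 25) nil nil) nil) nil) nil)) nil)) (node (nat_lit 0)
  (nat_lit 44239) (nat_lit 20) nil nil)) (node (nat_lit 4) (nat_lit 40793) (nat_lit 19) nil (node
  (nat_lit 0) (nat_lit 42708) (nat_lit 19) nil nil))) (node (nat_lit 0) (nat_lit 72553) (nat_lit
  18) nil nil)) (node (nat_lit 0) (nat_lit 72803) (nat_lit 17) nil nil)) (node (nat_lit 0)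
  (nat_lit 74755) (nat_lit 16) (node (nat_lit 7) (nat_lit 74755) (nat_lit 17) nil (node (nat_lit
  4) (nat_lit 74755) (nat_lit 17) nil (node (nat_lit 5) (nat_lit 74755) (nat_lit 17) nil nil)))
  nil))) (node (nat_lit 0) (nat_lit 73874) (nat_lit 15) (node (nat_lit 5) (nat_lit 73874) (nat_lit
  16) nil (node (nat_lit 4) (nat_lit 73874) (nat_lit 16) nil (node (nat_lit 7) (nat_lit 73874)
  (nat_lit 16) nil nil))) nil)) (node (nat_lit 7) (nat_lit 0) (nat_lit 14) (node (nat_lit 5)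
  (nat_lit 0) (nat_lit 15) (node (nat_lit 4) (nat_lit 0) (nat_lit 16) (node (nat_lit 7) (nat_lit
  0) (nat_lit 17) (node (nat_lit 5) (nat_lit 0) (nat_lit 18) (node (nat_lit 7) (nat_lit 0)
  (nat_lit 19) (node (nat_lit 4) (nat_lit 89524) (nat_lit 20) (node (nat_lit 7) (nat_lit 90930)
  (nat_lit 21) (node (nat_lit 5) (nat_lit 90867) (nat_lit 22) (node (nat_lit 4) (nat_lit 91055)
  (nat_lit 23) nil nil) nil) (node (nat_lit 5) (nat_lit 88951) (nat_lit 21) (node (nat_lit 4)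
  (nat_lit 89803) (nat_lit 22) (node (nat_lit 7) (nat_lit 89694) (nat_lit 23) (node (nat_lit 4)
  (nat_lit 88150) (nat_lit 24) (node (nat_lit 5) (nat_lit 85740) (nat_lit 25) (node (nat_lit 7)
  (nat_lit 80763) (nat_lit 26) (node (nat_lit 4) (nat_lit 81743) (nat_lit 27) (node (nat_lit 7)
  (nat_lit 72927) (nat_lit 28) (node (nat_lit 5) (nat_lit 65527) (nat_lit 29) (node (nat_lit 7)
  (nat_lit 52310) (nat_lit 30) (node (nat_lit 4) (nat_lit 66711) (nat_lit 31) (node (nat_lit 5)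
  (nat_lit 53209) (nat_lit 32) (node (nat_lit 7) (nat_lit 34896) (nat_lit 33) (node (nat_lit 5)
  (nat_lit 23198) (nat_lit 34) (node (nat_lit 4) (nat_lit 23861) (nat_lit 35) nil nil) nil) nil)
  nil) nil) nil) nil) nil) nil) nil) nil) nil) nil) nil) nil)) (node (nat_lit 0) (nat_lit 91055)
  (nat_lit 20) nil nil)) (node (nat_lit 0) (nat_lit 89344) (nat_lit 19) nil nil)) (node (nat_lit
  4) (nat_lit 0) (nat_lit 18) (node (nat_lit 5) (nat_lit 88633) (nat_lit 19) (node (nat_lit 4)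
  (nat_lit 90542) (nat_lit 20) (node (nat_lit 7) (nat_lit 91947) (nat_lit 21) (node (nat_lit 5)
  (nat_lit 92703) (nat_lit 22) (node (nat_lit 7) (nat_lit 93563) (nat_lit 23) (node (nat_lit 4)
  (nat_lit 94068) (nat_lit 24) (node (nat_lit 5) (nat_lit 94249) (nat_lit 25) (node (nat_lit 4)
  (nat_lit 93864) (nat_lit 26) (node (nat_lit 7) (nat_lit 93633) (nat_lit 27) (node (nat_lit 4)
  (nat_lit 93326) (nat_lit 28) (node (nat_lit 5) (nat_lit 93265) (nat_lit 29) (node (nat_lit 7)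
  (nat_lit 92633) (nat_lit 30) (node (nat_lit 4) (nat_lit 92163) (nat_lit 31) (node (nat_lit 7)
  (nat_lit 88968) (nat_lit 32) (node (nat_lit 5) (nat_lit 86283) (nat_lit 33) nil nil) nil) nil)
  nil) nil) nil) nil) nil) nil) nil) nil) nil) nil) (node (nat_lit 7) (nat_lit 0) (nat_lit 20)
  (node (nat_lit 4) (nat_lit 91931) (nat_lit 21) (node (nat_lit 7) (nat_lit 93032) (nat_lit 22)
  (node (nat_lit 5) (nat_lit 93623) (nat_lit 23) (node (nat_lit 7) (nat_lit 94290) (nat_lit 24)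
  (node (nat_lit 4) (nat_lit 94378) (nat_lit 25) (node (nat_lit 5) (nat_lit 94400) (nat_lit 26)
  (node (nat_lit 4) (nat_lit 94102) (nat_lit 27) nil nil) nil) nil) nil) nil) nil) (node (nat_lit
  5) (nat_lit 91031) (nat_lit 21) nil (node (nat_lit 0) (nat_lit 92753) (nat_lit 21) nil nil)))
  nil)) (node (nat_lit 0) (nat_lit 92227) (nat_lit 19) nil nil)) (node (nat_lit 0) (nat_lit 93597)
  (nat_lit 18) nil nil))) (node (nat_lit 5) (nat_lit 0) (nat_lit 17) (node (nat_lit 7) (nat_lit 0)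
  (nat_lit 18) (node (nat_lit 4) (nat_lit 0) (nat_lit 19) (node (nat_lit 7) (nat_lit 88056)
  (nat_lit 20) (node (nat_lit 5) (nat_lit 89031) (nat_lit 21) (node (nat_lit 4) (nat_lit 89948)
  (nat_lit 22) (node (nat_lit 7) (nat_lit 89439) (nat_lit 23) nil nil) (node (nat_lit 7) (nat_lit
  90147) (nat_lit 22) (node (nat_lit 4) (nat_lit 90814) (nat_lit 23) (node (nat_lit 5) (nat_lit
  91431) (nat_lit 24) (node (nat_lit 4) (nat_lit 91632) (nat_lit 25) (node (nat_lit 7) (nat_lit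
  91619) (nat_lit 26) (node (nat_lit 4) (nat_lit 91341) (nat_lit 27) (node (nat_lit 5) (nat_lit
  90750) (nat_lit 28) (node (nat_lit 7) (nat_lit 89384) (nat_lit 29) (node (nat_lit 4) (nat_lit
  87003) (nat_lit 30) (node (nat_lit 7) (nat_lit 83701) (nat_lit 31) (node (nat_lit 5) (nat_lit
  81688) (nat_lit 32) nil nil) nil) nil) nil) nil) nil) nil) nil) nil) nil) nil)) nil) (node
  (nat_lit 5) (nat_lit 88075) (nat_lit 20) (node (nat_lit 4) (nat_lit 86668) (nat_lit 21) (node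
  (nat_lit 7) (nat_lit 87843) (nat_lit 22) (node (nat_lit 4) (nat_lit 81570) (nat_lit 23) (node
  (nat_lit 5) (nat_lit 83111) (nat_lit 24) (node (nat_lit 7) (nat_lit 78015) (nat_lit 25) (node
  (nat_lit 4) (nat_lit 77610) (nat_lit 26) (node (nat_lit 7) (nat_lit 65950) (nat_lit 27) (node
  (nat_lit 5) (nat_lit 66482) (nat_lit 28) (node (nat_lit 7) (nat_lit 34469) (nat_lit 29) (node
  (nat_lit 4) (nat_lit 38148) (nat_lit 30) (node (nat_lit 5) (nat_lit 30496) (nat_lit 31) (node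
  (nat_lit 7) (nat_lit 30954) (nat_lit 32) nil nil) nil) nil) nil) nil) nil) nil) nil) nil) (node
  (nat_lit 5) (nat_lit 87794) (nat_lit 23) nil nil)) nil) nil) (node (nat_lit 0) (nat_lit 89334)
  (nat_lit 20) nil nil))) (node (nat_lit 0) (nat_lit 90805) (nat_lit 19) nil nil)) (node (nat_lit
  0) (nat_lit 91923) (nat_lit 18) nil nil)) (node (nat_lit 0) (nat_lit 92389) (nat_lit 17) nil
  nil))) (node (nat_lit 0) (nat_lit 93943) (nat_lit 16) (node (nat_lit 7) (nat_lit 93943) (nat_lit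
  17) nil nil) nil)) (node (nat_lit 0) (nat_lit 93643) (nat_lit 15) (node (nat_lit 7) (nat_lit
  93643) (nat_lit 16) nil nil) nil)) (node (nat_lit 0) (nat_lit 92413) (nat_lit 14) (node (nat_lit
  5) (nat_lit 92413) (nat_lit 15) nil (node (nat_lit 7) (nat_lit 92413) (nat_lit 15) nil (node
  (nat_lit 4) (nat_lit 92413) (nat_lit 15) nil nil))) nil))) (node (nat_lit 0) (nat_lit 92024)
  (nat_lit 13) (node (nat_lit 7) (nat_lit 92024) (nat_lit 14) nil (node (nat_lit 5) (nat_lit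
  92024) (nat_lit 14) (node (nat_lit 4) (nat_lit 92024) (nat_lit 15) nil nil) (node (nat_lit 4)
  (nat_lit 92024) (nat_lit 14) (node (nat_lit 5) (nat_lit 92024) (nat_lit 15) nil (node (nat_lit
  7) (nat_lit 92024) (nat_lit 15) nil nil)) nil))) nil)) (node (nat_lit 0) (nat_lit 96573)
  (nat_lit 12) (node (nat_lit 5) (nat_lit 96573) (nat_lit 13) (node (nat_lit 7) (nat_lit 96573)
  (nat_lit 14) (node (nat_lit 5) (nat_lit 96573) (nat_lit 15) nil (node (nat_lit 4) (nat_lit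
  96573) (nat_lit 15) (node (nat_lit 5) (nat_lit 96573) (nat_lit 16) (node (nat_lit 4) (nat_lit
  96573) (nat_lit 17) (node (nat_lit 7) (nat_lit 96573) (nat_lit 18) (node (nat_lit 4) (nat_lit
  96971) (nat_lit 19) (node (nat_lit 5) (nat_lit 97283) (nat_lit 20) (node (nat_lit 7) (nat_lit
  97525) (nat_lit 21) (node (nat_lit 4) (nat_lit 97714) (nat_lit 22) nil nil) nil) nil) nil) nil)
  nil) nil) nil)) (node (nat_lit 4) (nat_lit 96573) (nat_lit 14) nil nil)) (node (nat_lit 4)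
  (nat_lit 96573) (nat_lit 13) (node (nat_lit 5) (nat_lit 96573) (nat_lit 14) (node (nat_lit 4)
  (nat_lit 96573) (nat_lit 15) (node (nat_lit 7) (nat_lit 96573) (nat_lit 16) (node (nat_lit 4)
  (nat_lit 96573) (nat_lit 17) (node (nat_lit 5) (nat_lit 96573) (nat_lit 18) (node (nat_lit 7)
  (nat_lit 96971) (nat_lit 19) (node (nat_lit 4) (nat_lit 97283) (nat_lit 20) (node (nat_lit 7)
  (nat_lit 97525) (nat_lit 21) nil nil) nil) nil) nil) nil) nil) nil) (node (nat_lit 7) (nat_lit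
  96573) (nat_lit 14) nil nil)) (node (nat_lit 7) (nat_lit 96573) (nat_lit 13) (node (nat_lit 4)
  (nat_lit 96573) (nat_lit 14) (node (nat_lit 5) (nat_lit 96573) (nat_lit 15) (node (nat_lit 4)
  (nat_lit 96573) (nat_lit 16) (node (nat_lit 7) (nat_lit 96573) (nat_lit 17) (node (nat_lit 4)
  (nat_lit 96573) (nat_lit 18) (node (nat_lit 5) (nat_lit 96971) (nat_lit 19) (node (nat_lit 7)
  (nat_lit 97283) (nat_lit 20) nil nil) nil) nil) nil) nil) nil) (node (nat_lit 5) (nat_lit 96573)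
  (nat_lit 14) nil nil)) nil))) nil)) (node (nat_lit 0) (nat_lit 0) (nat_lit 11) (node (nat_lit 5)
  (nat_lit 98881) (nat_lit 12) (node (nat_lit 7) (nat_lit 98881) (nat_lit 13) (node (nat_lit 4)
  (nat_lit 98881) (nat_lit 14) (node (nat_lit 5) (nat_lit 98881) (nat_lit 15) (node (nat_lit 4)
  (nat_lit 98881) (nat_lit 16) (node (nat_lit 7) (nat_lit 98881) (nat_lit 17) (node (nat_lit 4)
  (nat_lit 98881) (nat_lit 18) (node (nat_lit 5) (nat_lit 99847) (nat_lit 19) nil nil) nil) nil)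
  nil) nil) (node (nat_lit 5) (nat_lit 98881) (nat_lit 14) (node (nat_lit 4) (nat_lit 98881)
  (nat_lit 15) nil nil) nil)) (node (nat_lit 4) (nat_lit 98881) (nat_lit 13) (node (nat_lit 7)
  (nat_lit 98881) (nat_lit 14) (node (nat_lit 4) (nat_lit 98881) (nat_lit 15) nil nil) (node
  (nat_lit 5) (nat_lit 98881) (nat_lit 14) nil nil)) nil)) (node (nat_lit 4) (nat_lit 98881)
  (nat_lit 12) (node (nat_lit 5) (nat_lit 98881) (nat_lit 13) (node (nat_lit 4) (nat_lit 98881)
  (nat_lit 14) (node (nat_lit 7) (nat_lit 98881) (nat_lit 15) (node (nat_lit 4) (nat_lit 98881)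
  (nat_lit 16) (node (nat_lit 5) (nat_lit 98881) (nat_lit 17) (node (nat_lit 7) (nat_lit 98881)
  (nat_lit 18) (node (nat_lit 4) (nat_lit 99847) (nat_lit 19) (node (nat_lit 7) (nat_lit 100601)
  (nat_lit 20) (node (nat_lit 5) (nat_lit 100177) (nat_lit 21) nil nil) nil) nil) nil) nil) (node
  (nat_lit 5) (nat_lit 98881) (nat_lit 16) nil nil)) nil) (node (nat_lit 7) (nat_lit 98881)
  (nat_lit 14) nil nil)) (node (nat_lit 7) (nat_lit 98881) (nat_lit 13) (node (nat_lit 5) (nat_lit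
  98881) (nat_lit 14) nil (node (nat_lit 4) (nat_lit 98881) (nat_lit 14) nil nil)) nil)) (node
  (nat_lit 7) (nat_lit 98881) (nat_lit 12) (node (nat_lit 5) (nat_lit 98881) (nat_lit 13) (node
  (nat_lit 7) (nat_lit 98881) (nat_lit 14) (node (nat_lit 4) (nat_lit 98881) (nat_lit 15) (node
  (nat_lit 5) (nat_lit 98881) (nat_lit 16) (node (nat_lit 4) (nat_lit 98881) (nat_lit 17) (node
  (nat_lit 7) (nat_lit 98881) (nat_lit 18) (node (nat_lit 4) (nat_lit 99847) (nat_lit 19) (node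
  (nat_lit 5) (nat_lit 100601) (nat_lit 20) (node (nat_lit 7) (nat_lit 101026) (nat_lit 21) nil
  nil) nil) nil) nil) nil) (node (nat_lit 7) (nat_lit 98881) (nat_lit 16) nil nil)) nil) (node
  (nat_lit 4) (nat_lit 98881) (nat_lit 14) (node (nat_lit 7) (nat_lit 98881) (nat_lit 15) nil nil)
  nil)) (node (nat_lit 4) (nat_lit 98881) (nat_lit 13) (node (nat_lit 5) (nat_lit 98881) (nat_lit
  14) (node (nat_lit 4) (nat_lit 98881) (nat_lit 15) (node (nat_lit 7) (nat_lit 98881) (nat_lit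
  16) (node (nat_lit 4) (nat_lit 98881) (nat_lit 17) (node (nat_lit 5) (nat_lit 98881) (nat_lit
  18) (node (nat_lit 7) (nat_lit 99847) (nat_lit 19) nil nil) nil) nil) nil) nil) nil) nil)) (node
  (nat_lit 0) (nat_lit 99847) (nat_lit 12) nil nil)))) nil))

noncomputable def t105 : Tr :=
  (node (nat_lit 5) (nat_lit 0) (nat_lit 8) (node (nat_lit 4) (nat_lit 0) (nat_lit 9) (node
  (nat_lit 7) (nat_lit 0) (nat_lit 10) t101 (node (nat_lit 5) (nat_lit 0) (nat_lit 10) (node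
  (nat_lit 7) (nat_lit 0) (nat_lit 11) (node (nat_lit 4) (nat_lit 0) (nat_lit 12) t102 (node
  (nat_lit 0) (nat_lit 97623) (nat_lit 12) (node (nat_lit 4) (nat_lit 97623) (nat_lit 13) (node
  (nat_lit 5) (nat_lit 97623) (nat_lit 14) (node (nat_lit 4) (nat_lit 97623) (nat_lit 15) (node
  (nat_lit 7) (nat_lit 97623) (nat_lit 16) (node (nat_lit 4) (nat_lit 97623) (nat_lit 17) (node
  (nat_lit 5) (nat_lit 97623) (nat_lit 18) (node (nat_lit 7) (nat_lit 97623) (nat_lit 19) (node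
  (nat_lit 5) (nat_lit 98377) (nat_lit 20) (node (nat_lit 4) (nat_lit 97953) (nat_lit 21) nil nil)
  nil) nil) nil) nil) nil) nil) (node (nat_lit 7) (nat_lit 97623) (nat_lit 14) (node (nat_lit 4)
  (nat_lit 97623) (nat_lit 15) nil nil) nil)) (node (nat_lit 7) (nat_lit 97623) (nat_lit 13) (node
  (nat_lit 5) (nat_lit 97623) (nat_lit 14) (node (nat_lit 4) (nat_lit 97623) (nat_lit 15) nil nil)
  (node (nat_lit 4) (nat_lit 97623) (nat_lit 14) (node (nat_lit 5) (nat_lit 97623) (nat_lit 15)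
  (node (nat_lit 4) (nat_lit 97623) (nat_lit 16) (node (nat_lit 7) (nat_lit 97623) (nat_lit 17)
  (node (nat_lit 4) (nat_lit 97623) (nat_lit 18) (node (nat_lit 5) (nat_lit 97623) (nat_lit 19)
  (node (nat_lit 7) (nat_lit 98820) (nat_lit 20) (node (nat_lit 5) (nat_lit 99752) (nat_lit 21)
  nil nil) nil) nil) nil) nil) nil) (node (nat_lit 7) (nat_lit 97623) (nat_lit 15) nil nil)) nil))
  (node (nat_lit 5) (nat_lit 97623) (nat_lit 13) (node (nat_lit 7) (nat_lit 97623) (nat_lit 14)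
  nil (node (nat_lit 4) (nat_lit 97623) (nat_lit 14) nil nil)) nil))) nil)) (node (nat_lit 0)
  (nat_lit 97295) (nat_lit 11) (node (nat_lit 5) (nat_lit 97295) (nat_lit 12) (node (nat_lit 4)
  (nat_lit 97295) (nat_lit 13) (node (nat_lit 5) (nat_lit 97295) (nat_lit 14) (node (nat_lit 7)
  (nat_lit 97295) (nat_lit 15) (node (nat_lit 4) (nat_lit 97295) (nat_lit 16) (node (nat_lit 5)
  (nat_lit 97295) (nat_lit 17) (node (nat_lit 4) (nat_lit 97295) (nat_lit 18) (node (nat_lit 7)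
  (nat_lit 99397) (nat_lit 19) (node (nat_lit 4) (nat_lit 99239) (nat_lit 20) (node (nat_lit 5)
  (nat_lit 99498) (nat_lit 21) (node (nat_lit 7) (nat_lit 99687) (nat_lit 22) (node (nat_lit 5)
  (nat_lit 99835) (nat_lit 23) (node (nat_lit 4) (nat_lit 99748) (nat_lit 24) (node (nat_lit 5)
  (nat_lit 99681) (nat_lit 25) nil nil) nil) nil) nil) nil) nil) nil) nil) nil) nil) nil) (node
  (nat_lit 7) (nat_lit 97295) (nat_lit 14) nil nil)) (node (nat_lit 7) (nat_lit 97295) (nat_lit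
  13) (node (nat_lit 5) (nat_lit 97295) (nat_lit 14) nil (node (nat_lit 4) (nat_lit 97295)
  (nat_lit 14) (node (nat_lit 5) (nat_lit 97295) (nat_lit 15) (node (nat_lit 4) (nat_lit 97295)
  (nat_lit 16) (node (nat_lit 7) (nat_lit 97295) (nat_lit 17) (node (nat_lit 4) (nat_lit 97295)
  (nat_lit 18) (node (nat_lit 5) (nat_lit 99447) (nat_lit 19) nil nil) nil) nil) nil) nil) nil))
  nil)) (node (nat_lit 4) (nat_lit 97295) (nat_lit 12) (node (nat_lit 5) (nat_lit 97295) (nat_lit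
  13) (node (nat_lit 7) (nat_lit 97295) (nat_lit 14) (node (nat_lit 4) (nat_lit 97295) (nat_lit
  15) (node (nat_lit 5) (nat_lit 97295) (nat_lit 16) (node (nat_lit 4) (nat_lit 97295) (nat_lit
  17) (node (nat_lit 7) (nat_lit 97295) (nat_lit 18) (node (nat_lit 4) (nat_lit 99616) (nat_lit
  19) (node (nat_lit 5) (nat_lit 100601) (nat_lit 20) (node (nat_lit 7) (nat_lit 100987) (nat_lit
  21) (node (nat_lit 5) (nat_lit 101176) (nat_lit 22) (node (nat_lit 4) (nat_lit 101067) (nat_lit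
  23) nil nil) nil) nil) nil) nil) nil) nil) nil) nil) (node (nat_lit 4) (nat_lit 97295) (nat_lit
  14) (node (nat_lit 7) (nat_lit 97295) (nat_lit 15) (node (nat_lit 4) (nat_lit 97295) (nat_lit
  16) (node (nat_lit 5) (nat_lit 97295) (nat_lit 17) (node (nat_lit 7) (nat_lit 97295) (nat_lit
  18) (node (nat_lit 5) (nat_lit 98260) (nat_lit 19) (node (nat_lit 4) (nat_lit 97719) (nat_lit
  20) (node (nat_lit 5) (nat_lit 97295) (nat_lit 21) nil nil) nil) nil) nil) nil) (node (nat_lit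
  5) (nat_lit 97295) (nat_lit 16) nil nil)) nil) nil)) (node (nat_lit 7) (nat_lit 97295) (nat_lit
  13) (node (nat_lit 5) (nat_lit 97295) (nat_lit 14) nil nil) nil)) (node (nat_lit 7) (nat_lit
  97295) (nat_lit 12) (node (nat_lit 5) (nat_lit 97295) (nat_lit 13) (node (nat_lit 7) (nat_lit
  97295) (nat_lit 14) (node (nat_lit 4) (nat_lit 97295) (nat_lit 15) (node (nat_lit 5) (nat_lit
  97295) (nat_lit 16) (node (nat_lit 4) (nat_lit 97295) (nat_lit 17) (node (nat_lit 7) (nat_lit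
  97295) (nat_lit 18) (node (nat_lit 4) (nat_lit 99666) (nat_lit 19) (node (nat_lit 5) (nat_lit
  100601) (nat_lit 20) (node (nat_lit 7) (nat_lit 100987) (nat_lit 21) (node (nat_lit 5) (nat_lit
  101176) (nat_lit 22) (node (nat_lit 4) (nat_lit 101067) (nat_lit 23) (node (nat_lit 5) (nat_lit
  100981) (nat_lit 24) nil nil) nil) nil) nil) nil) nil) nil) nil) nil) nil) (node (nat_lit 4)
  (nat_lit 97295) (nat_lit 14) nil nil)) (node (nat_lit 4) (nat_lit 97295) (nat_lit 13) (node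
  (nat_lit 5) (nat_lit 97295) (nat_lit 14) (node (nat_lit 4) (nat_lit 97295) (nat_lit 15) (node
  (nat_lit 7) (nat_lit 97295) (nat_lit 16) (node (nat_lit 4) (nat_lit 97295) (nat_lit 17) (node
  (nat_lit 5) (nat_lit 97295) (nat_lit 18) (node (nat_lit 7) (nat_lit 98827) (nat_lit 19) nil nil)
  nil) nil) nil) nil) nil) nil)) nil))) nil)) (node (nat_lit 0) (nat_lit 0) (nat_lit 10) (node
  (nat_lit 7) (nat_lit 95111) (nat_lit 11) (node (nat_lit 4) (nat_lit 95111) (nat_lit 12) (node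
  (nat_lit 5) (nat_lit 95111) (nat_lit 13) (node (nat_lit 4) (nat_lit 95111) (nat_lit 14) (node
  (nat_lit 7) (nat_lit 95111) (nat_lit 15) (node (nat_lit 4) (nat_lit 95111) (nat_lit 16) (node
  (nat_lit 5) (nat_lit 95111) (nat_lit 17) (node (nat_lit 7) (nat_lit 97073) (nat_lit 18) (node
  (nat_lit 5) (nat_lit 97613) (nat_lit 19) (node (nat_lit 4) (nat_lit 97377) (nat_lit 20) nil nil)
  nil) nil) nil) nil) nil) (node (nat_lit 7) (nat_lit 95111) (nat_lit 14) nil nil)) (node (nat_lit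
  7) (nat_lit 95111) (nat_lit 13) (node (nat_lit 5) (nat_lit 95111) (nat_lit 14) (node (nat_lit 4)
  (nat_lit 95111) (nat_lit 15) (node (nat_lit 5) (nat_lit 95111) (nat_lit 16) nil nil) (node
  (nat_lit 7) (nat_lit 95111) (nat_lit 15) (node (nat_lit 4) (nat_lit 95111) (nat_lit 16) nil nil)
  nil)) nil) nil)) (node (nat_lit 5) (nat_lit 95111) (nat_lit 12) (node (nat_lit 4) (nat_lit
  95111) (nat_lit 13) (node (nat_lit 7) (nat_lit 95111) (nat_lit 14) (node (nat_lit 4) (nat_lit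
  95111) (nat_lit 15) (node (nat_lit 5) (nat_lit 95111) (nat_lit 16) nil nil) nil) (node (nat_lit
  5) (nat_lit 95111) (nat_lit 14) nil nil)) (node (nat_lit 7) (nat_lit 95111) (nat_lit 13) (node
  (nat_lit 4) (nat_lit 95111) (nat_lit 14) (node (nat_lit 5) (nat_lit 95111) (nat_lit 15) (node
  (nat_lit 4) (nat_lit 95111) (nat_lit 16) (node (nat_lit 7) (nat_lit 95111) (nat_lit 17) (node
  (nat_lit 4) (nat_lit 97024) (nat_lit 18) (node (nat_lit 5) (nat_lit 97422) (nat_lit 19) (node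
  (nat_lit 7) (nat_lit 97734) (nat_lit 20) (node (nat_lit 5) (nat_lit 97976) (nat_lit 21) (node
  (nat_lit 4) (nat_lit 97838) (nat_lit 22) nil nil) nil) nil) nil) nil) nil) nil) (node (nat_lit
  7) (nat_lit 95111) (nat_lit 15) nil nil)) nil) nil)) (node (nat_lit 13) (nat_lit 97024) (nat_lit
  12) nil nil))) (node (nat_lit 5) (nat_lit 95111) (nat_lit 11) (node (nat_lit 7) (nat_lit 95111)
  (nat_lit 12) (node (nat_lit 4) (nat_lit 95111) (nat_lit 13) (node (nat_lit 5) (nat_lit 95111)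
  (nat_lit 14) (node (nat_lit 4) (nat_lit 95111) (nat_lit 15) (node (nat_lit 7) (nat_lit 95111)
  (nat_lit 16) (node (nat_lit 4) (nat_lit 95111) (nat_lit 17) (node (nat_lit 5) (nat_lit 96649)
  (nat_lit 18) nil nil) nil) nil) nil) (node (nat_lit 7) (nat_lit 95111) (nat_lit 14) nil nil))
  (node (nat_lit 5) (nat_lit 95111) (nat_lit 13) (node (nat_lit 4) (nat_lit 95111) (nat_lit 14)
  (node (nat_lit 7) (nat_lit 95111) (nat_lit 15) nil nil) nil) nil)) (node (nat_lit 4) (nat_lit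
  95111) (nat_lit 12) (node (nat_lit 5) (nat_lit 95111) (nat_lit 13) (node (nat_lit 7) (nat_lit
  95111) (nat_lit 14) (node (nat_lit 4) (nat_lit 95111) (nat_lit 15) (node (nat_lit 5) (nat_lit
  95111) (nat_lit 16) (node (nat_lit 4) (nat_lit 95111) (nat_lit 17) (node (nat_lit 7) (nat_lit
  95596) (nat_lit 18) (node (nat_lit 4) (nat_lit 95678) (nat_lit 19) (node (nat_lit 5) (nat_lit
  95519) (nat_lit 20) (node (nat_lit 7) (nat_lit 95761) (nat_lit 21) (node (nat_lit 5) (nat_lit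
  95951) (nat_lit 22) (node (nat_lit 4) (nat_lit 95841) (nat_lit 23) nil nil) nil) nil) nil) nil)
  nil) nil) (node (nat_lit 7) (nat_lit 95111) (nat_lit 16) nil nil)) (node (nat_lit 5) (nat_lit
  95111) (nat_lit 15) (node (nat_lit 4) (nat_lit 95111) (nat_lit 16) nil nil) nil)) nil) (node
  (nat_lit 7) (nat_lit 95111) (nat_lit 13) (node (nat_lit 5) (nat_lit 95111) (nat_lit 14) nil
  (node (nat_lit 4) (nat_lit 95111) (nat_lit 14) nil nil)) nil)) (node (nat_lit 13) (nat_lit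
  97525) (nat_lit 12) (node (nat_lit 4) (nat_lit 97525) (nat_lit 13) (node (nat_lit 5) (nat_lit
  97525) (nat_lit 14) (node (nat_lit 4) (nat_lit 97525) (nat_lit 15) (node (nat_lit 7) (nat_lit
  97525) (nat_lit 16) (node (nat_lit 4) (nat_lit 97525) (nat_lit 17) (node (nat_lit 5) (nat_lit
  97525) (nat_lit 18) (node (nat_lit 7) (nat_lit 97923) (nat_lit 19) (node (nat_lit 5) (nat_lit
  98234) (nat_lit 20) (node (nat_lit 4) (nat_lit 98055) (nat_lit 21) nil nil) nil) nil) nil) nil)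
  nil) nil) nil) nil) nil))) (node (nat_lit 4) (nat_lit 95111) (nat_lit 11) (node (nat_lit 5)
  (nat_lit 95111) (nat_lit 12) (node (nat_lit 7) (nat_lit 95111) (nat_lit 13) (node (nat_lit 5)
  (nat_lit 95111) (nat_lit 14) nil (node (nat_lit 4) (nat_lit 95111) (nat_lit 14) nil nil)) (node
  (nat_lit 4) (nat_lit 95111) (nat_lit 13) (node (nat_lit 7) (nat_lit 95111) (nat_lit 14) (node
  (nat_lit 4) (nat_lit 95111) (nat_lit 15) (node (nat_lit 5) (nat_lit 95111) (nat_lit 16) (node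
  (nat_lit 7) (nat_lit 95111) (nat_lit 17) (node (nat_lit 5) (nat_lit 96348) (nat_lit 18) (node
  (nat_lit 4) (nat_lit 95654) (nat_lit 19) nil nil) nil) nil) nil) nil) nil) nil)) (node (nat_lit
  7) (nat_lit 95111) (nat_lit 12) (node (nat_lit 5) (nat_lit 95111) (nat_lit 13) (node (nat_lit 4)
  (nat_lit 95111) (nat_lit 14) nil (node (nat_lit 7) (nat_lit 95111) (nat_lit 14) (node (nat_lit
  4) (nat_lit 95111) (nat_lit 15) (node (nat_lit 5) (nat_lit 95111) (nat_lit 16) (node (nat_lit 4)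
  (nat_lit 94715) (nat_lit 17) (node (nat_lit 7) (nat_lit 95142) (nat_lit 18) nil nil) nil) nil)
  nil) nil)) (node (nat_lit 4) (nat_lit 95111) (nat_lit 13) nil nil)) nil)) (node (nat_lit 0)
  (nat_lit 96524) (nat_lit 11) nil nil)))) nil))) (node (nat_lit 0) (nat_lit 88893) (nat_lit 9)
  (node (nat_lit 4) (nat_lit 88990) (nat_lit 10) (node (nat_lit 7) (nat_lit 88990) (nat_lit 11)
  (node (nat_lit 5) (nat_lit 88990) (nat_lit 12) (node (nat_lit 7) (nat_lit 88990) (nat_lit 13)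
  (node (nat_lit 4) (nat_lit 88990) (nat_lit 14) (node (nat_lit 5) (nat_lit 88990) (nat_lit 15)
  (node (nat_lit 4) (nat_lit 88324) (nat_lit 16) (node (nat_lit 7) (nat_lit 88993) (nat_lit 17)
  (node (nat_lit 4) (nat_lit 88752) (nat_lit 18) (node (nat_lit 5) (nat_lit 88689) (nat_lit 19)
  (node (nat_lit 7) (nat_lit 89001) (nat_lit 20) nil nil) nil) nil) nil) nil) nil) nil) (node
  (nat_lit 4) (nat_lit 88990) (nat_lit 13) (node (nat_lit 5) (nat_lit 88990) (nat_lit 14) nil nil)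
  nil)) (node (nat_lit 4) (nat_lit 88990) (nat_lit 12) nil nil)) (node (nat_lit 5) (nat_lit 88990)
  (nat_lit 11) (node (nat_lit 7) (nat_lit 88990) (nat_lit 12) (node (nat_lit 5) (nat_lit 88990)
  (nat_lit 13) (node (nat_lit 4) (nat_lit 88990) (nat_lit 14) nil nil) (node (nat_lit 4) (nat_lit
  88990) (nat_lit 13) (node (nat_lit 7) (nat_lit 88990) (nat_lit 14) nil nil) nil)) (node (nat_lit
  4) (nat_lit 88990) (nat_lit 12) nil nil)) nil)) (node (nat_lit 7) (nat_lit 89657) (nat_lit 10)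
  (node (nat_lit 4) (nat_lit 89657) (nat_lit 11) (node (nat_lit 5) (nat_lit 89657) (nat_lit 12)
  (node (nat_lit 4) (nat_lit 89657) (nat_lit 13) (node (nat_lit 7) (nat_lit 89657) (nat_lit 14)
  (node (nat_lit 4) (nat_lit 89657) (nat_lit 15) (node (nat_lit 5) (nat_lit 89657) (nat_lit 16)
  (node (nat_lit 7) (nat_lit 91208) (nat_lit 17) (node (nat_lit 5) (nat_lit 91718) (nat_lit 18)
  nil nil) nil) nil) (node (nat_lit 5) (nat_lit 89657) (nat_lit 15) nil nil)) nil) (node (nat_lit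
  7) (nat_lit 89657) (nat_lit 13) (node (nat_lit 5) (nat_lit 89657) (nat_lit 14) nil nil) nil))
  (node (nat_lit 7) (nat_lit 89657) (nat_lit 12) nil nil)) (node (nat_lit 5) (nat_lit 89657)
  (nat_lit 11) (node (nat_lit 4) (nat_lit 89657) (nat_lit 12) (node (nat_lit 7) (nat_lit 89657)
  (nat_lit 13) (node (nat_lit 4) (nat_lit 89657) (nat_lit 14) (node (nat_lit 5) (nat_lit 89657)
  (nat_lit 15) (node (nat_lit 4) (nat_lit 89049) (nat_lit 16) (node (nat_lit 7) (nat_lit 89718)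
  (nat_lit 17) nil nil) nil) nil) nil) (node (nat_lit 5) (nat_lit 89657) (nat_lit 13) (node
  (nat_lit 7) (nat_lit 89657) (nat_lit 14) nil nil) nil)) (node (nat_lit 7) (nat_lit 89657)
  (nat_lit 12) nil nil)) nil)) (node (nat_lit 5) (nat_lit 89075) (nat_lit 10) (node (nat_lit 7)
  (nat_lit 89657) (nat_lit 11) (node (nat_lit 4) (nat_lit 89657) (nat_lit 12) (node (nat_lit 5)
  (nat_lit 89657) (nat_lit 13) (node (nat_lit 4) (nat_lit 89657) (nat_lit 14) (node (nat_lit 7)
  (nat_lit 89657) (nat_lit 15) (node (nat_lit 4) (nat_lit 89657) (nat_lit 16) (node (nat_lit 5)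
  (nat_lit 92002) (nat_lit 17) nil nil) nil) nil) nil) (node (nat_lit 7) (nat_lit 89657) (nat_lit
  13) (node (nat_lit 5) (nat_lit 89657) (nat_lit 14) nil nil) nil)) (node (nat_lit 5) (nat_lit
  89657) (nat_lit 12) (node (nat_lit 4) (nat_lit 89657) (nat_lit 13) nil nil) nil)) (node (nat_lit
  4) (nat_lit 89657) (nat_lit 11) (node (nat_lit 5) (nat_lit 89657) (nat_lit 12) (node (nat_lit 7)
  (nat_lit 89657) (nat_lit 13) (node (nat_lit 4) (nat_lit 89657) (nat_lit 14) (node (nat_lit 5)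
  (nat_lit 89657) (nat_lit 15) (node (nat_lit 4) (nat_lit 89224) (nat_lit 16) (node (nat_lit 7)
  (nat_lit 89893) (nat_lit 17) (node (nat_lit 4) (nat_lit 89652) (nat_lit 18) (node (nat_lit 5)
  (nat_lit 89590) (nat_lit 19) (node (nat_lit 7) (nat_lit 89901) (nat_lit 20) (node (nat_lit 5)
  (nat_lit 90144) (nat_lit 21) nil nil) nil) nil) nil) nil) nil) nil) nil) nil) (node (nat_lit 7)
  (nat_lit 89657) (nat_lit 12) (node (nat_lit 4) (nat_lit 89657) (nat_lit 13) nil (node (nat_lit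
  5) (nat_lit 89657) (nat_lit 13) nil nil)) nil)) nil)) nil))) nil)) (node (nat_lit 4) (nat_lit 0)
  (nat_lit 8) (node (nat_lit 7) (nat_lit 0) (nat_lit 9) (node (nat_lit 5) (nat_lit 0) (nat_lit 10)
  (node (nat_lit 4) (nat_lit 0) (nat_lit 11) t103 t104) (node (nat_lit 0) (nat_lit 95395) (nat_lit
  10) (node (nat_lit 4) (nat_lit 95328) (nat_lit 11) (node (nat_lit 5) (nat_lit 95514) (nat_lit
  12) (node (nat_lit 7) (nat_lit 95514) (nat_lit 13) (node (nat_lit 5) (nat_lit 95514) (nat_lit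
  14) nil (node (nat_lit 4) (nat_lit 95514) (nat_lit 14) (node (nat_lit 5) (nat_lit 95514)
  (nat_lit 15) (node (nat_lit 4) (nat_lit 95514) (nat_lit 16) (node (nat_lit 7) (nat_lit 96167)
  (nat_lit 17) (node (nat_lit 4) (nat_lit 96678) (nat_lit 18) (node (nat_lit 5) (nat_lit 97076)
  (nat_lit 19) (node (nat_lit 7) (nat_lit 97387) (nat_lit 20) nil nil) nil) nil) nil) nil) (node
  (nat_lit 7) (nat_lit 95514) (nat_lit 15) nil nil)) nil)) (node (nat_lit 4) (nat_lit 95514)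
  (nat_lit 13) (node (nat_lit 7) (nat_lit 95514) (nat_lit 14) (node (nat_lit 4) (nat_lit 95514)
  (nat_lit 15) (node (nat_lit 5) (nat_lit 95514) (nat_lit 16) (node (nat_lit 7) (nat_lit 96167)
  (nat_lit 17) (node (nat_lit 4) (nat_lit 96678) (nat_lit 18) (node (nat_lit 7) (nat_lit 97076)
  (nat_lit 19) nil nil) nil) nil) nil) (node (nat_lit 5) (nat_lit 95514) (nat_lit 15) nil nil))
  nil) nil)) (node (nat_lit 7) (nat_lit 95934) (nat_lit 12) (node (nat_lit 5) (nat_lit 95994)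
  (nat_lit 13) (node (nat_lit 4) (nat_lit 95994) (nat_lit 14) nil (node (nat_lit 7) (nat_lit
  95994) (nat_lit 14) (node (nat_lit 4) (nat_lit 95994) (nat_lit 15) (node (nat_lit 5) (nat_lit
  95994) (nat_lit 16) (node (nat_lit 4) (nat_lit 95440) (nat_lit 17) (node (nat_lit 7) (nat_lit
  95867) (nat_lit 18) nil nil) nil) nil) nil) nil)) (node (nat_lit 4) (nat_lit 95928) (nat_lit 13)
  (node (nat_lit 5) (nat_lit 95928) (nat_lit 14) (node (nat_lit 7) (nat_lit 95928) (nat_lit 15)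
  (node (nat_lit 5) (nat_lit 95928) (nat_lit 16) nil nil) (node (nat_lit 4) (nat_lit 95928)
  (nat_lit 15) nil nil)) nil) nil)) (node (nat_lit 13) (nat_lit 96491) (nat_lit 12) (node (nat_lit
  7) (nat_lit 96491) (nat_lit 13) (node (nat_lit 4) (nat_lit 96491) (nat_lit 14) (node (nat_lit 5)
  (nat_lit 96491) (nat_lit 15) (node (nat_lit 4) (nat_lit 96491) (nat_lit 16) (node (nat_lit 7)
  (nat_lit 96491) (nat_lit 17) (node (nat_lit 4) (nat_lit 96491) (nat_lit 18) (node (nat_lit 5)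
  (nat_lit 96889) (nat_lit 19) (node (nat_lit 7) (nat_lit 97201) (nat_lit 20) nil nil) nil) nil)
  nil) nil) nil) nil) nil) nil))) (node (nat_lit 5) (nat_lit 95604) (nat_lit 11) (node (nat_lit 7)
  (nat_lit 95604) (nat_lit 12) (node (nat_lit 5) (nat_lit 95604) (nat_lit 13) (node (nat_lit 4)
  (nat_lit 95604) (nat_lit 14) (node (nat_lit 7) (nat_lit 95604) (nat_lit 15) (node (nat_lit 4)
  (nat_lit 95604) (nat_lit 16) (node (nat_lit 5) (nat_lit 96257) (nat_lit 17) nil nil) nil) (node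
  (nat_lit 5) (nat_lit 95604) (nat_lit 15) nil nil)) nil) (node (nat_lit 4) (nat_lit 95604)
  (nat_lit 13) (node (nat_lit 5) (nat_lit 95604) (nat_lit 14) (node (nat_lit 4) (nat_lit 95604)
  (nat_lit 15) (node (nat_lit 7) (nat_lit 95604) (nat_lit 16) (node (nat_lit 4) (nat_lit 96257)
  (nat_lit 17) (node (nat_lit 5) (nat_lit 96768) (nat_lit 18) nil nil) nil) nil) nil) (node
  (nat_lit 7) (nat_lit 95604) (nat_lit 14) nil nil)) nil)) (node (nat_lit 4) (nat_lit 95604)
  (nat_lit 12) (node (nat_lit 7) (nat_lit 95604) (nat_lit 13) (node (nat_lit 5) (nat_lit 95604)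
  (nat_lit 14) nil (node (nat_lit 4) (nat_lit 95604) (nat_lit 14) nil nil)) (node (nat_lit 5)
  (nat_lit 95604) (nat_lit 13) (node (nat_lit 7) (nat_lit 95604) (nat_lit 14) (node (nat_lit 4)
  (nat_lit 95604) (nat_lit 15) nil nil) nil) nil)) (node (nat_lit 13) (nat_lit 96768) (nat_lit 12)
  nil nil))) (node (nat_lit 7) (nat_lit 95784) (nat_lit 11) (node (nat_lit 4) (nat_lit 95975)
  (nat_lit 12) (node (nat_lit 5) (nat_lit 95975) (nat_lit 13) (node (nat_lit 4) (nat_lit 95975)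
  (nat_lit 14) (node (nat_lit 7) (nat_lit 95975) (nat_lit 15) (node (nat_lit 4) (nat_lit 95975)
  (nat_lit 16) (node (nat_lit 5) (nat_lit 96329) (nat_lit 17) (node (nat_lit 7) (nat_lit 97138)
  (nat_lit 18) (node (nat_lit 4) (nat_lit 97536) (nat_lit 19) (node (nat_lit 7) (nat_lit 97848)
  (nat_lit 20) nil nil) nil) nil) nil) nil) nil) (node (nat_lit 7) (nat_lit 95975) (nat_lit 14)
  nil nil)) (node (nat_lit 7) (nat_lit 95975) (nat_lit 13) nil nil)) (node (nat_lit 5) (nat_lit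
  96300) (nat_lit 12) (node (nat_lit 4) (nat_lit 96300) (nat_lit 13) (node (nat_lit 7) (nat_lit
  96300) (nat_lit 14) (node (nat_lit 4) (nat_lit 96300) (nat_lit 15) nil nil) (node (nat_lit 5)
  (nat_lit 96300) (nat_lit 14) nil nil)) (node (nat_lit 7) (nat_lit 96300) (nat_lit 13) (node
  (nat_lit 4) (nat_lit 96300) (nat_lit 14) nil nil) nil)) nil)) (node (nat_lit 0) (nat_lit 97231)
  (nat_lit 11) nil nil)))) nil)) (node (nat_lit 0) (nat_lit 0) (nat_lit 9) (node (nat_lit 7)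
  (nat_lit 89953) (nat_lit 10) (node (nat_lit 4) (nat_lit 90590) (nat_lit 11) (node (nat_lit 5)
  (nat_lit 90426) (nat_lit 12) (node (nat_lit 4) (nat_lit 91131) (nat_lit 13) (node (nat_lit 7)
  (nat_lit 92017) (nat_lit 14) (node (nat_lit 4) (nat_lit 92017) (nat_lit 15) (node (nat_lit 5)
  (nat_lit 92281) (nat_lit 16) (node (nat_lit 7) (nat_lit 93509) (nat_lit 17) (node (nat_lit 4)
  (nat_lit 94020) (nat_lit 18) nil nil) nil) nil) (node (nat_lit 5) (nat_lit 92017) (nat_lit 15)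
  nil nil)) nil) (node (nat_lit 7) (nat_lit 90426) (nat_lit 13) (node (nat_lit 5) (nat_lit 90426)
  (nat_lit 14) nil nil) nil)) (node (nat_lit 7) (nat_lit 91440) (nat_lit 12) nil nil)) (node
  (nat_lit 5) (nat_lit 90824) (nat_lit 11) (node (nat_lit 4) (nat_lit 90824) (nat_lit 12) (node
  (nat_lit 7) (nat_lit 90824) (nat_lit 13) (node (nat_lit 4) (nat_lit 90824) (nat_lit 14) (node
  (nat_lit 5) (nat_lit 90824) (nat_lit 15) (node (nat_lit 4) (nat_lit 90158) (nat_lit 16) (node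
  (nat_lit 7) (nat_lit 90827) (nat_lit 17) nil nil) nil) nil) nil) (node (nat_lit 5) (nat_lit
  90824) (nat_lit 13) (node (nat_lit 7) (nat_lit 90824) (nat_lit 14) (node (nat_lit 4) (nat_lit
  90824) (nat_lit 15) nil nil) nil) nil)) (node (nat_lit 7) (nat_lit 91362) (nat_lit 12) (node
  (nat_lit 4) (nat_lit 91362) (nat_lit 13) nil nil) nil)) (node (nat_lit 12) (nat_lit 94140)
  (nat_lit 11) nil nil))) (node (nat_lit 4) (nat_lit 89508) (nat_lit 10) (node (nat_lit 7)
  (nat_lit 91238) (nat_lit 11) (node (nat_lit 5) (nat_lit 92281) (nat_lit 12) (node (nat_lit 7)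
  (nat_lit 92281) (nat_lit 13) (node (nat_lit 4) (nat_lit 92281) (nat_lit 14) (node (nat_lit 5)
  (nat_lit 92281) (nat_lit 15) (node (nat_lit 4) (nat_lit 92174) (nat_lit 16) (node (nat_lit 7)
  (nat_lit 92843) (nat_lit 17) (node (nat_lit 4) (nat_lit 92602) (nat_lit 18) (node (nat_lit 5)
  (nat_lit 92540) (nat_lit 19) (node (nat_lit 7) (nat_lit 92851) (nat_lit 20) nil nil) nil) nil)
  nil) nil) nil) nil) (node (nat_lit 4) (nat_lit 92281) (nat_lit 13) (node (nat_lit 7) (nat_lit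
  92281) (nat_lit 14) nil (node (nat_lit 5) (nat_lit 92281) (nat_lit 14) nil nil)) nil)) (node
  (nat_lit 4) (nat_lit 91551) (nat_lit 12) nil nil)) (node (nat_lit 5) (nat_lit 91336) (nat_lit
  11) (node (nat_lit 7) (nat_lit 92281) (nat_lit 12) (node (nat_lit 5) (nat_lit 92281) (nat_lit
  13) (node (nat_lit 4) (nat_lit 92281) (nat_lit 14) (node (nat_lit 7) (nat_lit 92281) (nat_lit
  15) nil nil) nil) (node (nat_lit 4) (nat_lit 92281) (nat_lit 13) (node (nat_lit 7) (nat_lit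
  92281) (nat_lit 14) (node (nat_lit 5) (nat_lit 92281) (nat_lit 15) nil nil) nil) nil)) (node
  (nat_lit 4) (nat_lit 92281) (nat_lit 12) nil nil)) nil)) (node (nat_lit 5) (nat_lit 89731)
  (nat_lit 10) (node (nat_lit 7) (nat_lit 90866) (nat_lit 11) (node (nat_lit 4) (nat_lit 90866)
  (nat_lit 12) (node (nat_lit 5) (nat_lit 90866) (nat_lit 13) (node (nat_lit 7) (nat_lit 90866)
  (nat_lit 14) nil (node (nat_lit 4) (nat_lit 90866) (nat_lit 14) nil nil)) (node (nat_lit 7)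
  (nat_lit 90866) (nat_lit 13) (node (nat_lit 5) (nat_lit 90866) (nat_lit 14) nil nil) nil)) (node
  (nat_lit 5) (nat_lit 91404) (nat_lit 12) (node (nat_lit 4) (nat_lit 91404) (nat_lit 13) nil nil)
  nil)) (node (nat_lit 4) (nat_lit 90373) (nat_lit 11) (node (nat_lit 7) (nat_lit 90373) (nat_lit
  12) (node (nat_lit 4) (nat_lit 90373) (nat_lit 13) (node (nat_lit 5) (nat_lit 90373) (nat_lit
  14) (node (nat_lit 7) (nat_lit 90373) (nat_lit 15) nil nil) nil) (node (nat_lit 5) (nat_lit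
  90373) (nat_lit 13) nil nil)) (node (nat_lit 5) (nat_lit 90927) (nat_lit 12) nil nil)) (node
  (nat_lit 12) (nat_lit 94630) (nat_lit 11) nil nil))) (node (nat_lit 0) (nat_lit 92712) (nat_lit
  10) nil nil)))) nil)) nil))

noncomputable def c89 : Tr :=
  (node (nat_lit 3) (nat_lit 0) (nat_lit 1) (node (nat_lit 3) (nat_lit 0) (nat_lit 2) (node
  (nat_lit 3) (nat_lit 0) (nat_lit 3) (node (nat_lit 4) (nat_lit 0) (nat_lit 4) (node (nat_lit 6)
  (nat_lit 0) (nat_lit 5) (node (nat_lit 5) (nat_lit 0) (nat_lit 6) (node (nat_lit 4) (nat_lit 0)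
  (nat_lit 7) (node (nat_lit 5) (nat_lit 0) (nat_lit 8) (node (nat_lit 6) (nat_lit 0) (nat_lit 9)
  t61 (node (nat_lit 0) (nat_lit 141782) (nat_lit 9) (node (nat_lit 6) (nat_lit 141782) (nat_lit
  10) (node (nat_lit 4) (nat_lit 141782) (nat_lit 11) (node (nat_lit 5) (nat_lit 141782) (nat_lit
  12) (node (nat_lit 4) (nat_lit 141782) (nat_lit 13) (node (nat_lit 6) (nat_lit 141782) (nat_lit
  14) nil nil) (node (nat_lit 6) (nat_lit 141782) (nat_lit 13) (node (nat_lit 4) (nat_lit 141782)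
  (nat_lit 14) (node (nat_lit 6) (nat_lit 141782) (nat_lit 15) (node (nat_lit 5) (nat_lit 141782)
  (nat_lit 16) (node (nat_lit 4) (nat_lit 145272) (nat_lit 17) (node (nat_lit 5) (nat_lit 147973)
  (nat_lit 18) nil nil) nil) nil) nil) (node (nat_lit 5) (nat_lit 141782) (nat_lit 14) nil nil))
  nil)) (node (nat_lit 6) (nat_lit 141782) (nat_lit 12) nil nil)) (node (nat_lit 5) (nat_lit
  141782) (nat_lit 11) (node (nat_lit 4) (nat_lit 141782) (nat_lit 12) (node (nat_lit 5) (nat_lit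
  141782) (nat_lit 13) (node (nat_lit 6) (nat_lit 141782) (nat_lit 14) (node (nat_lit 4) (nat_lit
  141782) (nat_lit 15) (node (nat_lit 6) (nat_lit 141782) (nat_lit 16) (node (nat_lit 5) (nat_lit
  146514) (nat_lit 17) (node (nat_lit 4) (nat_lit 147376) (nat_lit 18) nil nil) nil) nil) nil)
  nil) (node (nat_lit 6) (nat_lit 141782) (nat_lit 13) (node (nat_lit 4) (nat_lit 141782) (nat_lit
  14) nil nil) nil)) (node (nat_lit 6) (nat_lit 141782) (nat_lit 12) nil nil)) (node (nat_lit 12)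
  (nat_lit 146673) (nat_lit 11) (node (nat_lit 4) (nat_lit 146673) (nat_lit 12) (node (nat_lit 5)
  (nat_lit 146673) (nat_lit 13) (node (nat_lit 6) (nat_lit 146673) (nat_lit 14) (node (nat_lit 4)
  (nat_lit 146673) (nat_lit 15) (node (nat_lit 6) (nat_lit 146673) (nat_lit 16) (node (nat_lit 5)
  (nat_lit 146673) (nat_lit 17) (node (nat_lit 4) (nat_lit 146673) (nat_lit 18) (node (nat_lit 5)
  (nat_lit 148346) (nat_lit 19) nil nil) nil) nil) nil) nil) nil) nil) nil) nil))) (node (nat_lit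
  4) (nat_lit 141782) (nat_lit 10) (node (nat_lit 6) (nat_lit 141782) (nat_lit 11) (node (nat_lit
  5) (nat_lit 141782) (nat_lit 12) (node (nat_lit 6) (nat_lit 141782) (nat_lit 13) (node (nat_lit
  4) (nat_lit 141782) (nat_lit 14) nil nil) (node (nat_lit 4) (nat_lit 141782) (nat_lit 13) (node
  (nat_lit 5) (nat_lit 141782) (nat_lit 14) (node (nat_lit 6) (nat_lit 141782) (nat_lit 15) (node
  (nat_lit 4) (nat_lit 141782) (nat_lit 16) (node (nat_lit 6) (nat_lit 146859) (nat_lit 17) (node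
  (nat_lit 5) (nat_lit 150821) (nat_lit 18) nil nil) nil) nil) nil) nil) nil)) (node (nat_lit 4)
  (nat_lit 141782) (nat_lit 12) (node (nat_lit 5) (nat_lit 141782) (nat_lit 13) (node (nat_lit 6)
  (nat_lit 141782) (nat_lit 14) (node (nat_lit 4) (nat_lit 141782) (nat_lit 15) (node (nat_lit 6)
  (nat_lit 141782) (nat_lit 16) (node (nat_lit 5) (nat_lit 145860) (nat_lit 17) (node (nat_lit 4)
  (nat_lit 148209) (nat_lit 18) nil nil) nil) nil) nil) nil) nil) nil)) (node (nat_lit 5) (nat_lit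
  141782) (nat_lit 11) (node (nat_lit 6) (nat_lit 141782) (nat_lit 12) (node (nat_lit 4) (nat_lit
  141782) (nat_lit 13) (node (nat_lit 6) (nat_lit 141782) (nat_lit 14) nil nil) (node (nat_lit 5)
  (nat_lit 141782) (nat_lit 13) (node (nat_lit 4) (nat_lit 141782) (nat_lit 14) (node (nat_lit 5)
  (nat_lit 141782) (nat_lit 15) (node (nat_lit 6) (nat_lit 141782) (nat_lit 16) (node (nat_lit 4)
  (nat_lit 146872) (nat_lit 17) nil nil) nil) nil) nil) nil)) (node (nat_lit 4) (nat_lit 141782)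
  (nat_lit 12) nil nil)) nil)) (node (nat_lit 5) (nat_lit 141782) (nat_lit 10) (node (nat_lit 4)
  (nat_lit 141782) (nat_lit 11) (node (nat_lit 6) (nat_lit 141782) (nat_lit 12) (node (nat_lit 5)
  (nat_lit 141782) (nat_lit 13) (node (nat_lit 6) (nat_lit 141782) (nat_lit 14) nil (node (nat_lit
  4) (nat_lit 141782) (nat_lit 14) nil nil)) (node (nat_lit 4) (nat_lit 141782) (nat_lit 13) (node
  (nat_lit 5) (nat_lit 141782) (nat_lit 14) (node (nat_lit 6) (nat_lit 141782) (nat_lit 15) (node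
  (nat_lit 4) (nat_lit 141782) (nat_lit 16) (node (nat_lit 6) (nat_lit 144146) (nat_lit 17) nil
  nil) nil) nil) nil) nil)) (node (nat_lit 5) (nat_lit 141782) (nat_lit 12) (node (nat_lit 6)
  (nat_lit 141782) (nat_lit 13) (node (nat_lit 4) (nat_lit 141782) (nat_lit 14) (node (nat_lit 6)
  (nat_lit 141782) (nat_lit 15) (node (nat_lit 5) (nat_lit 141782) (nat_lit 16) (node (nat_lit 4)
  (nat_lit 142736) (nat_lit 17) nil nil) nil) nil) nil) nil) nil)) (node (nat_lit 6) (nat_lit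
  141782) (nat_lit 11) (node (nat_lit 5) (nat_lit 141782) (nat_lit 12) (node (nat_lit 4) (nat_lit
  141782) (nat_lit 13) nil nil) (node (nat_lit 4) (nat_lit 141782) (nat_lit 12) (node (nat_lit 6)
  (nat_lit 141782) (nat_lit 13) (node (nat_lit 5) (nat_lit 141782) (nat_lit 14) (node (nat_lit 4)
  (nat_lit 141782) (nat_lit 15) (node (nat_lit 5) (nat_lit 141782) (nat_lit 16) (node (nat_lit 6)
  (nat_lit 146859) (nat_lit 17) nil nil) nil) nil) nil) (node (nat_lit 5) (nat_lit 141782)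
  (nat_lit 13) nil nil)) nil)) nil)) nil))) nil)) (node (nat_lit 6) (nat_lit 0) (nat_lit 8) t64
  nil)) (node (nat_lit 6) (nat_lit 0) (nat_lit 7) (node (nat_lit 4) (nat_lit 0) (nat_lit 8) (node
  (nat_lit 5) (nat_lit 0) (nat_lit 9) t68 (node (nat_lit 0) (nat_lit 159636) (nat_lit 9) (node
  (nat_lit 4) (nat_lit 159636) (nat_lit 10) (node (nat_lit 6) (nat_lit 159636) (nat_lit 11) (node
  (nat_lit 5) (nat_lit 159636) (nat_lit 12) (node (nat_lit 4) (nat_lit 159636) (nat_lit 13) (node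
  (nat_lit 5) (nat_lit 159636) (nat_lit 14) (node (nat_lit 6) (nat_lit 159636) (nat_lit 15) (node
  (nat_lit 4) (nat_lit 159636) (nat_lit 16) (node (nat_lit 6) (nat_lit 164989) (nat_lit 17) (node
  (nat_lit 5) (nat_lit 168754) (nat_lit 18) (node (nat_lit 6) (nat_lit 171802) (nat_lit 19) (node
  (nat_lit 4) (nat_lit 173471) (nat_lit 20) nil nil) nil) nil) nil) nil) nil) nil) nil) (node
  (nat_lit 4) (nat_lit 159636) (nat_lit 12) (node (nat_lit 5) (nat_lit 159636) (nat_lit 13) (node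
  (nat_lit 6) (nat_lit 159636) (nat_lit 14) (node (nat_lit 4) (nat_lit 159636) (nat_lit 15) (node
  (nat_lit 6) (nat_lit 159636) (nat_lit 16) (node (nat_lit 5) (nat_lit 163715) (nat_lit 17) (node
  (nat_lit 6) (nat_lit 166898) (nat_lit 18) (node (nat_lit 4) (nat_lit 168764) (nat_lit 19) nil
  nil) nil) nil) nil) nil) nil) nil) nil)) (node (nat_lit 5) (nat_lit 159636) (nat_lit 11) (node
  (nat_lit 6) (nat_lit 159636) (nat_lit 12) (node (nat_lit 5) (nat_lit 159636) (nat_lit 13) (node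
  (nat_lit 4) (nat_lit 159636) (nat_lit 14) (node (nat_lit 5) (nat_lit 159636) (nat_lit 15) (node
  (nat_lit 6) (nat_lit 159636) (nat_lit 16) (node (nat_lit 4) (nat_lit 164937) (nat_lit 17) nil
  nil) nil) nil) nil) (node (nat_lit 4) (nat_lit 159636) (nat_lit 13) (node (nat_lit 6) (nat_lit
  159636) (nat_lit 14) (node (nat_lit 5) (nat_lit 159636) (nat_lit 15) (node (nat_lit 6) (nat_lit
  159636) (nat_lit 16) (node (nat_lit 4) (nat_lit 162384) (nat_lit 17) nil nil) nil) nil) nil)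
  nil)) nil) nil)) (node (nat_lit 6) (nat_lit 159636) (nat_lit 10) (node (nat_lit 5) (nat_lit
  159636) (nat_lit 11) (node (nat_lit 4) (nat_lit 159636) (nat_lit 12) (node (nat_lit 5) (nat_lit
  159636) (nat_lit 13) (node (nat_lit 6) (nat_lit 159636) (nat_lit 14) (node (nat_lit 4) (nat_lit
  159636) (nat_lit 15) (node (nat_lit 6) (nat_lit 159636) (nat_lit 16) (node (nat_lit 5) (nat_lit
  164368) (nat_lit 17) (node (nat_lit 6) (nat_lit 167261) (nat_lit 18) (node (nat_lit 4) (nat_lit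
  169403) (nat_lit 19) nil nil) nil) nil) nil) nil) nil) (node (nat_lit 6) (nat_lit 159636)
  (nat_lit 13) (node (nat_lit 4) (nat_lit 159636) (nat_lit 14) (node (nat_lit 5) (nat_lit 159636)
  (nat_lit 15) (node (nat_lit 6) (nat_lit 159636) (nat_lit 16) (node (nat_lit 4) (nat_lit 164714)
  (nat_lit 17) nil nil) nil) nil) nil) nil)) nil) (node (nat_lit 4) (nat_lit 159636) (nat_lit 11)
  (node (nat_lit 5) (nat_lit 159636) (nat_lit 12) (node (nat_lit 6) (nat_lit 159636) (nat_lit 13)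
  (node (nat_lit 4) (nat_lit 159636) (nat_lit 14) (node (nat_lit 6) (nat_lit 159636) (nat_lit 15)
  (node (nat_lit 5) (nat_lit 159636) (nat_lit 16) (node (nat_lit 6) (nat_lit 163127) (nat_lit 17)
  (node (nat_lit 4) (nat_lit 165850) (nat_lit 18) nil nil) nil) nil) nil) nil) nil) nil) nil))
  (node (nat_lit 5) (nat_lit 159636) (nat_lit 10) (node (nat_lit 4) (nat_lit 159636) (nat_lit 11)
  (node (nat_lit 6) (nat_lit 159636) (nat_lit 12) (node (nat_lit 5) (nat_lit 159636) (nat_lit 13)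
  (node (nat_lit 4) (nat_lit 159636) (nat_lit 14) (node (nat_lit 5) (nat_lit 159636) (nat_lit 15)
  (node (nat_lit 6) (nat_lit 159636) (nat_lit 16) (node (nat_lit 4) (nat_lit 164989) (nat_lit 17)
  nil nil) nil) nil) nil) (node (nat_lit 4) (nat_lit 159636) (nat_lit 13) (node (nat_lit 5)
  (nat_lit 159636) (nat_lit 14) (node (nat_lit 6) (nat_lit 159636) (nat_lit 15) (node (nat_lit 4)
  (nat_lit 159636) (nat_lit 16) (node (nat_lit 6) (nat_lit 162001) (nat_lit 17) nil nil) nil) nil)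
  nil) nil)) (node (nat_lit 5) (nat_lit 159636) (nat_lit 12) (node (nat_lit 6) (nat_lit 159636)
  (nat_lit 13) (node (nat_lit 4) (nat_lit 159636) (nat_lit 14) (node (nat_lit 6) (nat_lit 159636)
  (nat_lit 15) (node (nat_lit 5) (nat_lit 159636) (nat_lit 16) (node (nat_lit 6) (nat_lit 163349)
  (nat_lit 17) (node (nat_lit 4) (nat_lit 164951) (nat_lit 18) nil nil) nil) nil) nil) nil) nil)
  nil)) (node (nat_lit 6) (nat_lit 159636) (nat_lit 11) nil nil)) nil))) nil)) nil) nil)) nil)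
  (node (nat_lit 5) (nat_lit 0) (nat_lit 5) (node (nat_lit 4) (nat_lit 0) (nat_lit 6) (node
  (nat_lit 6) (nat_lit 0) (nat_lit 7) t74 nil) nil) nil)) (node (nat_lit 5) (nat_lit 0) (nat_lit
  4) (node (nat_lit 4) (nat_lit 0) (nat_lit 5) (node (nat_lit 6) (nat_lit 0) (nat_lit 6) t84 (node
  (nat_lit 5) (nat_lit 0) (nat_lit 6) (node (nat_lit 6) (nat_lit 0) (nat_lit 7) (node (nat_lit 4)
  (nat_lit 0) (nat_lit 8) t88 nil) nil) nil)) nil) nil)) (node (nat_lit 4) (nat_lit 0) (nat_lit 3)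
  (node (nat_lit 3) (nat_lit 0) (nat_lit 4) (node (nat_lit 5) (nat_lit 0) (nat_lit 5) (node
  (nat_lit 7) (nat_lit 0) (nat_lit 6) (node (nat_lit 4) (nat_lit 0) (nat_lit 7) t94 nil) (node
  (nat_lit 4) (nat_lit 0) (nat_lit 6) (node (nat_lit 5) (nat_lit 0) (nat_lit 7) (node (nat_lit 7)
  (nat_lit 0) (nat_lit 8) t99 nil) nil) nil)) (node (nat_lit 4) (nat_lit 0) (nat_lit 5) (node
  (nat_lit 5) (nat_lit 0) (nat_lit 6) (node (nat_lit 7) (nat_lit 0) (nat_lit 7) t105 nil) nil)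
  nil)) nil) nil)) nil) nil)

noncomputable def t159 : Tr :=
  (node (nat_lit 0) (nat_lit 0) (nat_lit 4) (node (nat_lit 4) (nat_lit 0) (nat_lit 5) (node
  (nat_lit 7) (nat_lit 0) (nat_lit 6) (node (nat_lit 6) (nat_lit 135425) (nat_lit 7) (node
  (nat_lit 4) (nat_lit 136505) (nat_lit 8) (node (nat_lit 5) (nat_lit 137252) (nat_lit 9) (node
  (nat_lit 6) (nat_lit 135443) (nat_lit 10) nil nil) nil) nil) (node (nat_lit 5) (nat_lit 135425)
  (nat_lit 7) (node (nat_lit 4) (nat_lit 136505) (nat_lit 8) (node (nat_lit 5) (nat_lit 137252)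
  (nat_lit 9) (node (nat_lit 6) (nat_lit 135443) (nat_lit 10) nil nil) nil) nil) (node (nat_lit 2)
  (nat_lit 128390) (nat_lit 7) nil (node (nat_lit 0) (nat_lit 135425) (nat_lit 7) nil nil))))
  (node (nat_lit 6) (nat_lit 132535) (nat_lit 6) (node (nat_lit 5) (nat_lit 129307) (nat_lit 7)
  (node (nat_lit 4) (nat_lit 124908) (nat_lit 8) (node (nat_lit 5) (nat_lit 113946) (nat_lit 9)
  (node (nat_lit 6) (nat_lit 99675) (nat_lit 10) nil nil) nil) (node (nat_lit 6) (nat_lit 129307)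
  (nat_lit 8) nil nil)) (node (nat_lit 7) (nat_lit 134176) (nat_lit 7) nil (node (nat_lit 4)
  (nat_lit 132121) (nat_lit 7) (node (nat_lit 5) (nat_lit 124283) (nat_lit 8) (node (nat_lit 6)
  (nat_lit 111059) (nat_lit 9) (node (nat_lit 7) (nat_lit 84834) (nat_lit 10) nil nil) nil) nil)
  nil))) (node (nat_lit 5) (nat_lit 132535) (nat_lit 6) (node (nat_lit 7) (nat_lit 134176)
  (nat_lit 7) (node (nat_lit 6) (nat_lit 131476) (nat_lit 8) nil (node (nat_lit 5) (nat_lit
  135256) (nat_lit 8) nil nil)) (node (nat_lit 6) (nat_lit 134176) (nat_lit 7) (node (nat_lit 5)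
  (nat_lit 127420) (nat_lit 8) (node (nat_lit 4) (nat_lit 124938) (nat_lit 9) nil nil) nil) (node
  (nat_lit 4) (nat_lit 134176) (nat_lit 7) (node (nat_lit 6) (nat_lit 130349) (nat_lit 8) (node
  (nat_lit 4) (nat_lit 129535) (nat_lit 9) (node (nat_lit 5) (nat_lit 124467) (nat_lit 10) (node
  (nat_lit 6) (nat_lit 101950) (nat_lit 11) nil nil) nil) nil) nil) nil))) (node (nat_lit 0)
  (nat_lit 132072) (nat_lit 6) (node (nat_lit 5) (nat_lit 134672) (nat_lit 7) (node (nat_lit 4)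
  (nat_lit 134045) (nat_lit 8) nil nil) (node (nat_lit 6) (nat_lit 129630) (nat_lit 7) (node
  (nat_lit 4) (nat_lit 130711) (nat_lit 8) nil nil) nil)) (node (nat_lit 2) (nat_lit 130660)
  (nat_lit 6) (node (nat_lit 4) (nat_lit 128958) (nat_lit 7) (node (nat_lit 6) (nat_lit 124973)
  (nat_lit 8) nil nil) (node (nat_lit 5) (nat_lit 133160) (nat_lit 7) (node (nat_lit 4) (nat_lit
  124627) (nat_lit 8) (node (nat_lit 5) (nat_lit 105262) (nat_lit 9) nil nil) nil) (node (nat_lit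
  6) (nat_lit 129700) (nat_lit 7) (node (nat_lit 4) (nat_lit 120578) (nat_lit 8) (node (nat_lit 5)
  (nat_lit 108412) (nat_lit 9) nil nil) (node (nat_lit 5) (nat_lit 126688) (nat_lit 8) nil nil))
  nil))) nil))))) (node (nat_lit 5) (nat_lit 0) (nat_lit 5) (node (nat_lit 7) (nat_lit 0) (nat_lit
  6) (node (nat_lit 6) (nat_lit 134810) (nat_lit 7) (node (nat_lit 4) (nat_lit 135890) (nat_lit 8)
  (node (nat_lit 5) (nat_lit 136637) (nat_lit 9) (node (nat_lit 6) (nat_lit 134828) (nat_lit 10)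
  (node (nat_lit 7) (nat_lit 135328) (nat_lit 11) nil nil) nil) nil) nil) (node (nat_lit 4)
  (nat_lit 134810) (nat_lit 7) (node (nat_lit 6) (nat_lit 132110) (nat_lit 8) (node (nat_lit 5)
  (nat_lit 130803) (nat_lit 9) (node (nat_lit 4) (nat_lit 129796) (nat_lit 10) nil nil) (node
  (nat_lit 4) (nat_lit 132857) (nat_lit 9) (node (nat_lit 5) (nat_lit 131388) (nat_lit 10) (node
  (nat_lit 6) (nat_lit 117805) (nat_lit 11) nil nil) nil) nil)) nil) (node (nat_lit 0) (nat_lit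
  134810) (nat_lit 7) nil (node (nat_lit 2) (nat_lit 134764) (nat_lit 7) nil nil)))) (node
  (nat_lit 4) (nat_lit 131579) (nat_lit 6) (node (nat_lit 6) (nat_lit 130035) (nat_lit 7) (node
  (nat_lit 5) (nat_lit 129593) (nat_lit 8) (node (nat_lit 4) (nat_lit 125766) (nat_lit 9) (node
  (nat_lit 5) (nat_lit 120965) (nat_lit 10) nil nil) nil) (node (nat_lit 4) (nat_lit 127889)
  (nat_lit 8) (node (nat_lit 5) (nat_lit 121832) (nat_lit 9) (node (nat_lit 6) (nat_lit 109429)
  (nat_lit 10) nil nil) nil) nil)) (node (nat_lit 7) (nat_lit 134810) (nat_lit 7) nil (node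
  (nat_lit 5) (nat_lit 134810) (nat_lit 7) (node (nat_lit 6) (nat_lit 132110) (nat_lit 8) nil nil)
  nil))) (node (nat_lit 6) (nat_lit 128595) (nat_lit 6) (node (nat_lit 4) (nat_lit 133386)
  (nat_lit 7) (node (nat_lit 5) (nat_lit 134466) (nat_lit 8) (node (nat_lit 6) (nat_lit 132262)
  (nat_lit 9) (node (nat_lit 7) (nat_lit 132830) (nat_lit 10) (node (nat_lit 5) (nat_lit 61445)
  (nat_lit 11) nil nil) nil) nil) nil) (node (nat_lit 5) (nat_lit 130201) (nat_lit 7) (node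
  (nat_lit 4) (nat_lit 129670) (nat_lit 8) (node (nat_lit 5) (nat_lit 119382) (nat_lit 9) (node
  (nat_lit 6) (nat_lit 97213) (nat_lit 10) nil nil) nil) nil) nil)) (node (nat_lit 0) (nat_lit
  130624) (nat_lit 6) (node (nat_lit 5) (nat_lit 133531) (nat_lit 7) nil (node (nat_lit 6)
  (nat_lit 133531) (nat_lit 7) (node (nat_lit 4) (nat_lit 134612) (nat_lit 8) nil nil) nil)) (node
  (nat_lit 2) (nat_lit 127368) (nat_lit 6) (node (nat_lit 5) (nat_lit 130096) (nat_lit 7) (node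
  (nat_lit 4) (nat_lit 126912) (nat_lit 8) nil nil) (node (nat_lit 6) (nat_lit 130171) (nat_lit 7)
  (node (nat_lit 5) (nat_lit 130995) (nat_lit 8) nil (node (nat_lit 4) (nat_lit 122060) (nat_lit
  8) nil nil)) (node (nat_lit 4) (nat_lit 130171) (nat_lit 7) (node (nat_lit 6) (nat_lit 121718)
  (nat_lit 8) nil nil) nil))) nil))))) (node (nat_lit 6) (nat_lit 0) (nat_lit 5) (node (nat_lit 5)
  (nat_lit 128527) (nat_lit 6) (node (nat_lit 4) (nat_lit 133748) (nat_lit 7) (node (nat_lit 6)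
  (nat_lit 133202) (nat_lit 8) (node (nat_lit 5) (nat_lit 134081) (nat_lit 9) (node (nat_lit 6)
  (nat_lit 134747) (nat_lit 10) nil nil) nil) (node (nat_lit 5) (nat_lit 127133) (nat_lit 8) (node
  (nat_lit 6) (nat_lit 111214) (nat_lit 9) (node (nat_lit 7) (nat_lit 67597) (nat_lit 10) nil nil)
  nil) nil)) (node (nat_lit 6) (nat_lit 130168) (nat_lit 7) (node (nat_lit 4) (nat_lit 131248)
  (nat_lit 8) (node (nat_lit 5) (nat_lit 131995) (nat_lit 9) nil nil) nil) nil)) (node (nat_lit 4)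
  (nat_lit 133169) (nat_lit 6) (node (nat_lit 5) (nat_lit 134810) (nat_lit 7) (node (nat_lit 6)
  (nat_lit 132110) (nat_lit 8) (node (nat_lit 7) (nat_lit 60971) (nat_lit 9) nil nil) nil) (node
  (nat_lit 6) (nat_lit 132028) (nat_lit 7) (node (nat_lit 5) (nat_lit 129016) (nat_lit 8) (node
  (nat_lit 6) (nat_lit 129016) (nat_lit 9) nil (node (nat_lit 4) (nat_lit 126209) (nat_lit 9) nil
  nil)) nil) nil)) (node (nat_lit 2) (nat_lit 128628) (nat_lit 6) (node (nat_lit 6) (nat_lit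
  130269) (nat_lit 7) nil (node (nat_lit 5) (nat_lit 130269) (nat_lit 7) nil nil)) (node (nat_lit
  0) (nat_lit 131917) (nat_lit 6) (node (nat_lit 6) (nat_lit 133558) (nat_lit 7) nil nil) nil))))
  (node (nat_lit 0) (nat_lit 0) (nat_lit 5) (node (nat_lit 0) (nat_lit 132978) (nat_lit 6) (node
  (nat_lit 5) (nat_lit 134619) (nat_lit 7) nil (node (nat_lit 6) (nat_lit 129578) (nat_lit 7) nil
  nil)) (node (nat_lit 5) (nat_lit 132482) (nat_lit 6) (node (nat_lit 4) (nat_lit 131102) (nat_lit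
  7) (node (nat_lit 5) (nat_lit 133456) (nat_lit 8) nil nil) (node (nat_lit 6) (nat_lit 134123)
  (nat_lit 7) (node (nat_lit 4) (nat_lit 135203) (nat_lit 8) (node (nat_lit 5) (nat_lit 135950)
  (nat_lit 9) nil nil) nil) nil)) (node (nat_lit 2) (nat_lit 130567) (nat_lit 6) (node (nat_lit 7)
  (nat_lit 134123) (nat_lit 7) nil (node (nat_lit 5) (nat_lit 133543) (nat_lit 7) (node (nat_lit
  4) (nat_lit 116926) (nat_lit 8) nil nil) (node (nat_lit 6) (nat_lit 130384) (nat_lit 7) (node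
  (nat_lit 4) (nat_lit 122402) (nat_lit 8) nil (node (nat_lit 5) (nat_lit 127367) (nat_lit 8) nil
  nil)) (node (nat_lit 4) (nat_lit 129491) (nat_lit 7) nil (node (nat_lit 8) (nat_lit 134123)
  (nat_lit 7) nil nil))))) (node (nat_lit 4) (nat_lit 132978) (nat_lit 6) (node (nat_lit 6)
  (nat_lit 134299) (nat_lit 7) (node (nat_lit 4) (nat_lit 126326) (nat_lit 8) (node (nat_lit 5)
  (nat_lit 120945) (nat_lit 9) (node (nat_lit 6) (nat_lit 108542) (nat_lit 10) nil nil) nil) (node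
  (nat_lit 5) (nat_lit 135273) (nat_lit 8) (node (nat_lit 4) (nat_lit 125381) (nat_lit 9) nil nil)
  nil)) (node (nat_lit 5) (nat_lit 134619) (nat_lit 7) nil nil)) (node (nat_lit 6) (nat_lit
  132482) (nat_lit 6) (node (nat_lit 4) (nat_lit 134123) (nat_lit 7) (node (nat_lit 5) (nat_lit
  135203) (nat_lit 8) (node (nat_lit 6) (nat_lit 133000) (nat_lit 9) nil nil) nil) (node (nat_lit
  5) (nat_lit 131709) (nat_lit 7) (node (nat_lit 4) (nat_lit 124931) (nat_lit 8) nil nil) nil))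
  (node (nat_lit 7) (nat_lit 133398) (nat_lit 6) (node (nat_lit 5) (nat_lit 135039) (nat_lit 7)
  nil (node (nat_lit 6) (nat_lit 135039) (nat_lit 7) nil nil)) nil)))))) (node (nat_lit 2)
  (nat_lit 0) (nat_lit 5) (node (nat_lit 0) (nat_lit 131436) (nat_lit 6) (node (nat_lit 5)
  (nat_lit 133077) (nat_lit 7) nil (node (nat_lit 6) (nat_lit 128035) (nat_lit 7) nil (node
  (nat_lit 4) (nat_lit 131032) (nat_lit 7) nil nil))) (node (nat_lit 5) (nat_lit 127307) (nat_lit
  6) (node (nat_lit 4) (nat_lit 127289) (nat_lit 7) (node (nat_lit 6) (nat_lit 121416) (nat_lit 8)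
  nil (node (nat_lit 5) (nat_lit 110262) (nat_lit 8) (node (nat_lit 6) (nat_lit 71885) (nat_lit 9)
  nil nil) nil)) (node (nat_lit 6) (nat_lit 129715) (nat_lit 7) (node (nat_lit 4) (nat_lit 130795)
  (nat_lit 8) (node (nat_lit 5) (nat_lit 131542) (nat_lit 9) nil nil) nil) nil)) (node (nat_lit 4)
  (nat_lit 131011) (nat_lit 6) (node (nat_lit 6) (nat_lit 125324) (nat_lit 7) (node (nat_lit 5)
  (nat_lit 124525) (nat_lit 8) nil (node (nat_lit 4) (nat_lit 122503) (nat_lit 8) (node (nat_lit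
  5) (nat_lit 103292) (nat_lit 9) nil nil) nil)) (node (nat_lit 5) (nat_lit 133077) (nat_lit 7)
  nil nil)) (node (nat_lit 6) (nat_lit 128074) (nat_lit 6) (node (nat_lit 4) (nat_lit 126870)
  (nat_lit 7) (node (nat_lit 5) (nat_lit 118589) (nat_lit 8) (node (nat_lit 6) (nat_lit 96863)
  (nat_lit 9) nil nil) nil) (node (nat_lit 5) (nat_lit 129088) (nat_lit 7) (node (nat_lit 4)
  (nat_lit 125319) (nat_lit 8) nil nil) nil)) (node (nat_lit 7) (nat_lit 131917) (nat_lit 6) (node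
  (nat_lit 5) (nat_lit 133558) (nat_lit 7) nil (node (nat_lit 6) (nat_lit 133558) (nat_lit 7) nil
  nil)) nil))))) nil))))) (node (nat_lit 2) (nat_lit 0) (nat_lit 4) (node (nat_lit 4) (nat_lit 0)
  (nat_lit 5) (node (nat_lit 7) (nat_lit 0) (nat_lit 6) (node (nat_lit 6) (nat_lit 0) (nat_lit 7)
  (node (nat_lit 4) (nat_lit 120963) (nat_lit 8) (node (nat_lit 5) (nat_lit 121392) (nat_lit 9)
  (node (nat_lit 6) (nat_lit 118439) (nat_lit 10) (node (nat_lit 7) (nat_lit 92344) (nat_lit 11)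
  (node (nat_lit 4) (nat_lit 76071) (nat_lit 12) nil nil) nil) nil) (node (nat_lit 6) (nat_lit
  121566) (nat_lit 9) (node (nat_lit 5) (nat_lit 127980) (nat_lit 10) nil nil) nil)) (node
  (nat_lit 5) (nat_lit 127142) (nat_lit 8) (node (nat_lit 4) (nat_lit 127142) (nat_lit 9) (node
  (nat_lit 5) (nat_lit 118691) (nat_lit 10) (node (nat_lit 6) (nat_lit 118971) (nat_lit 11) nil
  nil) nil) nil) (node (nat_lit 7) (nat_lit 120963) (nat_lit 8) (node (nat_lit 4) (nat_lit 120204)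
  (nat_lit 9) (node (nat_lit 6) (nat_lit 118987) (nat_lit 10) nil nil) nil) (node (nat_lit 0)
  (nat_lit 127142) (nat_lit 8) nil nil)))) (node (nat_lit 5) (nat_lit 132427) (nat_lit 7) (node
  (nat_lit 4) (nat_lit 130724) (nat_lit 8) (node (nat_lit 5) (nat_lit 121557) (nat_lit 9) (node
  (nat_lit 6) (nat_lit 119524) (nat_lit 10) nil nil) (node (nat_lit 6) (nat_lit 128674) (nat_lit
  9) nil nil)) nil) (node (nat_lit 0) (nat_lit 132806) (nat_lit 7) (node (nat_lit 6) (nat_lit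
  131936) (nat_lit 8) nil (node (nat_lit 5) (nat_lit 133074) (nat_lit 8) nil nil)) nil))) (node
  (nat_lit 6) (nat_lit 0) (nat_lit 6) (node (nat_lit 5) (nat_lit 129122) (nat_lit 7) (node
  (nat_lit 4) (nat_lit 129122) (nat_lit 8) (node (nat_lit 5) (nat_lit 118285) (nat_lit 9) (node
  (nat_lit 6) (nat_lit 113798) (nat_lit 10) (node (nat_lit 7) (nat_lit 97458) (nat_lit 11) (node
  (nat_lit 4) (nat_lit 50451) (nat_lit 12) (node (nat_lit 6) (nat_lit 32304) (nat_lit 13) nil nil)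
  nil) nil) nil) nil) (node (nat_lit 6) (nat_lit 129122) (nat_lit 8) nil nil)) (node (nat_lit 7)
  (nat_lit 0) (nat_lit 7) (node (nat_lit 6) (nat_lit 120963) (nat_lit 8) (node (nat_lit 4)
  (nat_lit 120204) (nat_lit 9) (node (nat_lit 5) (nat_lit 116984) (nat_lit 10) (node (nat_lit 6)
  (nat_lit 114161) (nat_lit 11) nil nil) nil) (node (nat_lit 5) (nat_lit 127517) (nat_lit 9) nil
  nil)) (node (nat_lit 5) (nat_lit 127142) (nat_lit 8) (node (nat_lit 4) (nat_lit 125468) (nat_lit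
  9) (node (nat_lit 5) (nat_lit 112663) (nat_lit 10) nil nil) nil) (node (nat_lit 0) (nat_lit
  127142) (nat_lit 8) nil nil))) (node (nat_lit 4) (nat_lit 120963) (nat_lit 7) (node (nat_lit 5)
  (nat_lit 117223) (nat_lit 8) (node (nat_lit 6) (nat_lit 98244) (nat_lit 9) (node (nat_lit 7)
  (nat_lit 77140) (nat_lit 10) nil nil) nil) (node (nat_lit 7) (nat_lit 120963) (nat_lit 8) nil
  nil)) (node (nat_lit 0) (nat_lit 129122) (nat_lit 7) nil nil)))) (node (nat_lit 5) (nat_lit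
  127756) (nat_lit 6) (node (nat_lit 7) (nat_lit 132063) (nat_lit 7) (node (nat_lit 6) (nat_lit
  132063) (nat_lit 8) nil (node (nat_lit 5) (nat_lit 132687) (nat_lit 8) nil nil)) (node (nat_lit
  6) (nat_lit 131333) (nat_lit 7) (node (nat_lit 5) (nat_lit 132687) (nat_lit 8) (node (nat_lit 4)
  (nat_lit 129711) (nat_lit 9) nil nil) nil) nil)) (node (nat_lit 0) (nat_lit 128692) (nat_lit 6)
  (node (nat_lit 4) (nat_lit 127351) (nat_lit 7) nil (node (nat_lit 5) (nat_lit 132268) (nat_lit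
  7) (node (nat_lit 4) (nat_lit 130665) (nat_lit 8) nil nil) (node (nat_lit 6) (nat_lit 131936)
  (nat_lit 7) (node (nat_lit 4) (nat_lit 131936) (nat_lit 8) nil nil) nil))) nil)))) (node
  (nat_lit 5) (nat_lit 0) (nat_lit 5) (node (nat_lit 7) (nat_lit 0) (nat_lit 6) (node (nat_lit 6)
  (nat_lit 0) (nat_lit 7) (node (nat_lit 5) (nat_lit 110848) (nat_lit 8) (node (nat_lit 6)
  (nat_lit 118708) (nat_lit 9) (node (nat_lit 4) (nat_lit 123291) (nat_lit 10) nil nil) (node
  (nat_lit 4) (nat_lit 121277) (nat_lit 9) (node (nat_lit 5) (nat_lit 113299) (nat_lit 10) (node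
  (nat_lit 6) (nat_lit 108918) (nat_lit 11) nil nil) nil) (node (nat_lit 7) (nat_lit 117330)
  (nat_lit 9) nil nil))) (node (nat_lit 4) (nat_lit 125565) (nat_lit 8) (node (nat_lit 5) (nat_lit
  118316) (nat_lit 9) (node (nat_lit 6) (nat_lit 113895) (nat_lit 10) (node (nat_lit 7) (nat_lit
  86168) (nat_lit 11) (node (nat_lit 5) (nat_lit 57355) (nat_lit 12) nil nil) nil) nil) (node
  (nat_lit 6) (nat_lit 127193) (nat_lit 9) nil nil)) (node (nat_lit 7) (nat_lit 110860) (nat_lit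
  8) (node (nat_lit 5) (nat_lit 116804) (nat_lit 9) (node (nat_lit 6) (nat_lit 118737) (nat_lit
  10) nil nil) (node (nat_lit 4) (nat_lit 127989) (nat_lit 9) nil nil)) (node (nat_lit 0) (nat_lit
  126543) (nat_lit 8) nil nil)))) (node (nat_lit 4) (nat_lit 128250) (nat_lit 7) (node (nat_lit 6)
  (nat_lit 125977) (nat_lit 8) (node (nat_lit 5) (nat_lit 127395) (nat_lit 9) (node (nat_lit 6)
  (nat_lit 127395) (nat_lit 10) nil nil) nil) nil) (node (nat_lit 0) (nat_lit 128250) (nat_lit 7)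
  (node (nat_lit 5) (nat_lit 129330) (nat_lit 8) nil (node (nat_lit 6) (nat_lit 129330) (nat_lit
  8) nil (node (nat_lit 4) (nat_lit 127605) (nat_lit 8) nil nil))) nil))) (node (nat_lit 4)
  (nat_lit 0) (nat_lit 6) (node (nat_lit 6) (nat_lit 119169) (nat_lit 7) (node (nat_lit 5)
  (nat_lit 121349) (nat_lit 8) (node (nat_lit 6) (nat_lit 121769) (nat_lit 9) nil nil) (node
  (nat_lit 4) (nat_lit 119441) (nat_lit 8) (node (nat_lit 5) (nat_lit 112479) (nat_lit 9) (node
  (nat_lit 6) (nat_lit 106294) (nat_lit 10) nil nil) nil) (node (nat_lit 7) (nat_lit 118862)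
  (nat_lit 8) (node (nat_lit 6) (nat_lit 111706) (nat_lit 9) nil nil) nil))) (node (nat_lit 7)
  (nat_lit 118250) (nat_lit 7) (node (nat_lit 6) (nat_lit 120332) (nat_lit 8) (node (nat_lit 4)
  (nat_lit 114312) (nat_lit 9) (node (nat_lit 5) (nat_lit 112040) (nat_lit 10) (node (nat_lit 6)
  (nat_lit 102398) (nat_lit 11) nil nil) nil) (node (nat_lit 5) (nat_lit 118008) (nat_lit 9) nil
  nil)) (node (nat_lit 4) (nat_lit 120624) (nat_lit 8) (node (nat_lit 6) (nat_lit 118245) (nat_lit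
  9) (node (nat_lit 5) (nat_lit 117691) (nat_lit 10) (node (nat_lit 6) (nat_lit 118556) (nat_lit
  11) nil nil) nil) nil) (node (nat_lit 5) (nat_lit 120133) (nat_lit 8) (node (nat_lit 6) (nat_lit
  117929) (nat_lit 9) nil nil) nil))) (node (nat_lit 5) (nat_lit 100473) (nat_lit 7) (node
  (nat_lit 6) (nat_lit 71885) (nat_lit 8) (node (nat_lit 5) (nat_lit 71885) (nat_lit 9) (node
  (nat_lit 4) (nat_lit 71885) (nat_lit 10) nil nil) (node (nat_lit 4) (nat_lit 71885) (nat_lit 9)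
  nil nil)) nil) (node (nat_lit 0) (nat_lit 120100) (nat_lit 7) nil nil)))) (node (nat_lit 6)
  (nat_lit 0) (nat_lit 6) (node (nat_lit 4) (nat_lit 128185) (nat_lit 7) (node (nat_lit 5)
  (nat_lit 129265) (nat_lit 8) (node (nat_lit 6) (nat_lit 127061) (nat_lit 9) nil nil) (node
  (nat_lit 6) (nat_lit 129265) (nat_lit 8) (node (nat_lit 5) (nat_lit 130012) (nat_lit 9) (node
  (nat_lit 4) (nat_lit 123171) (nat_lit 10) (node (nat_lit 5) (nat_lit 120208) (nat_lit 11) (node
  (nat_lit 6) (nat_lit 113738) (nat_lit 12) nil nil) nil) nil) nil) nil)) (node (nat_lit 5)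
  (nat_lit 109765) (nat_lit 7) (node (nat_lit 4) (nat_lit 121864) (nat_lit 8) (node (nat_lit 5)
  (nat_lit 116333) (nat_lit 9) (node (nat_lit 6) (nat_lit 95785) (nat_lit 10) nil nil) nil) (node
  (nat_lit 7) (nat_lit 110844) (nat_lit 8) nil nil)) (node (nat_lit 0) (nat_lit 127356) (nat_lit
  7) nil nil))) (node (nat_lit 0) (nat_lit 127943) (nat_lit 6) (node (nat_lit 6) (nat_lit 129963)
  (nat_lit 7) nil (node (nat_lit 4) (nat_lit 129963) (nat_lit 7) (node (nat_lit 6) (nat_lit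
  124708) (nat_lit 8) nil nil) (node (nat_lit 5) (nat_lit 131038) (nat_lit 7) nil nil))) nil))))
  (node (nat_lit 6) (nat_lit 0) (nat_lit 5) (node (nat_lit 5) (nat_lit 0) (nat_lit 6) (node
  (nat_lit 4) (nat_lit 116419) (nat_lit 7) (node (nat_lit 6) (nat_lit 119076) (nat_lit 8) (node
  (nat_lit 4) (nat_lit 120309) (nat_lit 9) (node (nat_lit 5) (nat_lit 118245) (nat_lit 10) (node
  (nat_lit 6) (nat_lit 107893) (nat_lit 11) (node (nat_lit 7) (nat_lit 75560) (nat_lit 12) nil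
  nil) nil) nil) (node (nat_lit 5) (nat_lit 119823) (nat_lit 9) nil nil)) (node (nat_lit 5)
  (nat_lit 106698) (nat_lit 8) (node (nat_lit 6) (nat_lit 94897) (nat_lit 9) (node (nat_lit 7)
  (nat_lit 65924) (nat_lit 10) nil nil) nil) nil)) (node (nat_lit 7) (nat_lit 109618) (nat_lit 7)
  (node (nat_lit 4) (nat_lit 127011) (nat_lit 8) nil (node (nat_lit 5) (nat_lit 110832) (nat_lit
  8) (node (nat_lit 4) (nat_lit 121037) (nat_lit 9) nil (node (nat_lit 6) (nat_lit 118232)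
  (nat_lit 9) nil nil)) (node (nat_lit 6) (nat_lit 110832) (nat_lit 8) (node (nat_lit 4) (nat_lit
  117164) (nat_lit 9) nil nil) nil))) (node (nat_lit 6) (nat_lit 109682) (nat_lit 7) (node
  (nat_lit 4) (nat_lit 126515) (nat_lit 8) (node (nat_lit 5) (nat_lit 127262) (nat_lit 9) nil nil)
  nil) (node (nat_lit 0) (nat_lit 123260) (nat_lit 7) nil nil)))) (node (nat_lit 4) (nat_lit 0)
  (nat_lit 6) (node (nat_lit 7) (nat_lit 118637) (nat_lit 7) (node (nat_lit 5) (nat_lit 120291)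
  (nat_lit 8) (node (nat_lit 4) (nat_lit 117096) (nat_lit 9) nil nil) (node (nat_lit 4) (nat_lit
  120963) (nat_lit 8) (node (nat_lit 6) (nat_lit 120963) (nat_lit 9) (node (nat_lit 5) (nat_lit
  120971) (nat_lit 10) nil nil) nil) (node (nat_lit 6) (nat_lit 120963) (nat_lit 8) nil nil)))
  (node (nat_lit 5) (nat_lit 101536) (nat_lit 7) (node (nat_lit 6) (nat_lit 73803) (nat_lit 8)
  (node (nat_lit 5) (nat_lit 74550) (nat_lit 9) (node (nat_lit 4) (nat_lit 75118) (nat_lit 10) nil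
  nil) (node (nat_lit 7) (nat_lit 61241) (nat_lit 9) nil nil)) (node (nat_lit 4) (nat_lit 104992)
  (nat_lit 8) nil (node (nat_lit 7) (nat_lit 104358) (nat_lit 8) nil nil))) (node (nat_lit 6)
  (nat_lit 119014) (nat_lit 7) (node (nat_lit 5) (nat_lit 121416) (nat_lit 8) (node (nat_lit 6)
  (nat_lit 123045) (nat_lit 9) nil (node (nat_lit 4) (nat_lit 120803) (nat_lit 9) (node (nat_lit
  5) (nat_lit 107848) (nat_lit 10) (node (nat_lit 6) (nat_lit 99523) (nat_lit 11) nil nil) nil)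
  nil)) nil) (node (nat_lit 0) (nat_lit 118682) (nat_lit 7) nil nil)))) (node (nat_lit 0) (nat_lit
  125481) (nat_lit 6) (node (nat_lit 6) (nat_lit 129057) (nat_lit 7) nil (node (nat_lit 5)
  (nat_lit 125471) (nat_lit 7) nil nil)) nil))) (node (nat_lit 0) (nat_lit 0) (nat_lit 5) (node
  (nat_lit 0) (nat_lit 131217) (nat_lit 6) (node (nat_lit 5) (nat_lit 134793) (nat_lit 7) nil
  (node (nat_lit 6) (nat_lit 134793) (nat_lit 7) nil nil)) (node (nat_lit 5) (nat_lit 130955)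
  (nat_lit 6) (node (nat_lit 4) (nat_lit 131412) (nat_lit 7) (node (nat_lit 6) (nat_lit 122149)
  (nat_lit 8) nil (node (nat_lit 5) (nat_lit 133766) (nat_lit 8) nil nil)) (node (nat_lit 6)
  (nat_lit 134093) (nat_lit 7) (node (nat_lit 4) (nat_lit 135066) (nat_lit 8) (node (nat_lit 5)
  (nat_lit 135893) (nat_lit 9) nil nil) nil) nil)) (node (nat_lit 4) (nat_lit 131556) (nat_lit 6)
  (node (nat_lit 6) (nat_lit 131235) (nat_lit 7) (node (nat_lit 4) (nat_lit 128414) (nat_lit 8)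
  (node (nat_lit 5) (nat_lit 123033) (nat_lit 9) (node (nat_lit 6) (nat_lit 101857) (nat_lit 10)
  nil nil) nil) nil) nil) (node (nat_lit 6) (nat_lit 130175) (nat_lit 6) (node (nat_lit 4)
  (nat_lit 133978) (nat_lit 7) (node (nat_lit 5) (nat_lit 135690) (nat_lit 8) (node (nat_lit 6)
  (nat_lit 133802) (nat_lit 9) nil nil) nil) (node (nat_lit 5) (nat_lit 133919) (nat_lit 7) (node
  (nat_lit 4) (nat_lit 127141) (nat_lit 8) nil nil) nil)) (node (nat_lit 7) (nat_lit 128639)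
  (nat_lit 6) (node (nat_lit 5) (nat_lit 134093) (nat_lit 7) nil (node (nat_lit 6) (nat_lit
  128456) (nat_lit 7) nil nil)) nil))))) nil)))) nil))

noncomputable def t160 : Tr :=
  (node (nat_lit 4) (nat_lit 0) (nat_lit 4) (node (nat_lit 5) (nat_lit 0) (nat_lit 5) (node
  (nat_lit 4) (nat_lit 0) (nat_lit 6) (node (nat_lit 0) (nat_lit 64169) (nat_lit 7) (node (nat_lit
  5) (nat_lit 66470) (nat_lit 8) (node (nat_lit 4) (nat_lit 67234) (nat_lit 9) (node (nat_lit 5)
  (nat_lit 67802) (nat_lit 10) (node (nat_lit 6) (nat_lit 66362) (nat_lit 11) (node (nat_lit 4)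
  (nat_lit 66814) (nat_lit 12) (node (nat_lit 5) (nat_lit 67183) (nat_lit 13) (node (nat_lit 4)
  (nat_lit 67470) (nat_lit 14) nil nil) nil) nil) nil) nil) nil) nil) (node (nat_lit 2) (nat_lit
  62834) (nat_lit 7) (node (nat_lit 5) (nat_lit 65011) (nat_lit 8) (node (nat_lit 4) (nat_lit
  67128) (nat_lit 9) (node (nat_lit 5) (nat_lit 65175) (nat_lit 10) (node (nat_lit 6) (nat_lit
  58778) (nat_lit 11) (node (nat_lit 4) (nat_lit 48113) (nat_lit 12) (node (nat_lit 5) (nat_lit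
  30307) (nat_lit 13) nil nil) nil) nil) nil) nil) (node (nat_lit 4) (nat_lit 66934) (nat_lit 8)
  nil (node (nat_lit 6) (nat_lit 65012) (nat_lit 8) nil nil))) (node (nat_lit 6) (nat_lit 58496)
  (nat_lit 7) (node (nat_lit 5) (nat_lit 60859) (nat_lit 8) nil nil) nil))) (node (nat_lit 0)
  (nat_lit 60358) (nat_lit 6) (node (nat_lit 5) (nat_lit 63040) (nat_lit 7) (node (nat_lit 4)
  (nat_lit 65341) (nat_lit 8) (node (nat_lit 5) (nat_lit 66104) (nat_lit 9) (node (nat_lit 6)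
  (nat_lit 64295) (nat_lit 10) (node (nat_lit 4) (nat_lit 64796) (nat_lit 11) (node (nat_lit 5)
  (nat_lit 65248) (nat_lit 12) nil nil) nil) nil) nil) nil) (node (nat_lit 4) (nat_lit 64240)
  (nat_lit 7) nil (node (nat_lit 6) (nat_lit 63003) (nat_lit 7) nil nil))) (node (nat_lit 2)
  (nat_lit 0) (nat_lit 6) (node (nat_lit 5) (nat_lit 58844) (nat_lit 7) (node (nat_lit 4) (nat_lit
  61351) (nat_lit 8) (node (nat_lit 5) (nat_lit 44102) (nat_lit 9) (node (nat_lit 6) (nat_lit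
  35672) (nat_lit 10) (node (nat_lit 4) (nat_lit 22592) (nat_lit 11) nil nil) nil) nil) (node
  (nat_lit 6) (nat_lit 62026) (nat_lit 8) nil nil)) (node (nat_lit 4) (nat_lit 63654) (nat_lit 7)
  nil (node (nat_lit 6) (nat_lit 58304) (nat_lit 7) (node (nat_lit 5) (nat_lit 60671) (nat_lit 8)
  (node (nat_lit 4) (nat_lit 60907) (nat_lit 9) nil nil) nil) (node (nat_lit 0) (nat_lit 62620)
  (nat_lit 7) nil nil)))) nil))) (node (nat_lit 0) (nat_lit 0) (nat_lit 5) (node (nat_lit 6)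
  (nat_lit 129650) (nat_lit 6) (node (nat_lit 4) (nat_lit 133226) (nat_lit 7) (node (nat_lit 5)
  (nat_lit 134308) (nat_lit 8) (node (nat_lit 6) (nat_lit 132105) (nat_lit 9) nil nil) nil) (node
  (nat_lit 5) (nat_lit 133226) (nat_lit 7) (node (nat_lit 4) (nat_lit 133180) (nat_lit 8) (node
  (nat_lit 5) (nat_lit 127729) (nat_lit 9) (node (nat_lit 6) (nat_lit 113458) (nat_lit 10) (node
  (nat_lit 4) (nat_lit 94404) (nat_lit 11) nil nil) nil) nil) nil) nil)) (node (nat_lit 5)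
  (nat_lit 128935) (nat_lit 6) (node (nat_lit 4) (nat_lit 127233) (nat_lit 7) (node (nat_lit 5)
  (nat_lit 129587) (nat_lit 8) (node (nat_lit 6) (nat_lit 128265) (nat_lit 9) (node (nat_lit 4)
  (nat_lit 129502) (nat_lit 10) nil nil) nil) nil) nil) (node (nat_lit 4) (nat_lit 129134)
  (nat_lit 6) nil (node (nat_lit 0) (nat_lit 131110) (nat_lit 6) nil (node (nat_lit 2) (nat_lit
  118420) (nat_lit 6) nil nil))))) (node (nat_lit 6) (nat_lit 0) (nat_lit 5) (node (nat_lit 5)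
  (nat_lit 98168) (nat_lit 6) (node (nat_lit 0) (nat_lit 131406) (nat_lit 7) nil (node (nat_lit 2)
  (nat_lit 129167) (nat_lit 7) (node (nat_lit 6) (nat_lit 132582) (nat_lit 8) nil nil) (node
  (nat_lit 4) (nat_lit 0) (nat_lit 7) (node (nat_lit 6) (nat_lit 126786) (nat_lit 8) (node
  (nat_lit 4) (nat_lit 133286) (nat_lit 9) (node (nat_lit 5) (nat_lit 135254) (nat_lit 10) (node
  (nat_lit 6) (nat_lit 127978) (nat_lit 11) (node (nat_lit 4) (nat_lit 117901) (nat_lit 12) (node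
  (nat_lit 6) (nat_lit 113134) (nat_lit 13) (node (nat_lit 5) (nat_lit 70130) (nat_lit 14) (node
  (nat_lit 4) (nat_lit 68640) (nat_lit 15) nil nil) nil) nil) nil) nil) nil) nil) (node (nat_lit
  5) (nat_lit 123017) (nat_lit 8) (node (nat_lit 6) (nat_lit 114521) (nat_lit 9) (node (nat_lit 4)
  (nat_lit 71885) (nat_lit 10) nil nil) nil) (node (nat_lit 0) (nat_lit 135812) (nat_lit 8) nil
  (node (nat_lit 2) (nat_lit 132545) (nat_lit 8) nil nil)))) nil))) (node (nat_lit 0) (nat_lit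
  127700) (nat_lit 6) (node (nat_lit 6) (nat_lit 134145) (nat_lit 7) nil (node (nat_lit 5)
  (nat_lit 134145) (nat_lit 7) (node (nat_lit 4) (nat_lit 135223) (nat_lit 8) nil nil) nil)) (node
  (nat_lit 2) (nat_lit 121079) (nat_lit 6) (node (nat_lit 6) (nat_lit 121038) (nat_lit 7) (node
  (nat_lit 4) (nat_lit 121038) (nat_lit 8) (node (nat_lit 5) (nat_lit 111393) (nat_lit 9) (node
  (nat_lit 6) (nat_lit 100272) (nat_lit 10) (node (nat_lit 4) (nat_lit 91718) (nat_lit 11) (node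
  (nat_lit 6) (nat_lit 63077) (nat_lit 12) (node (nat_lit 9) (nat_lit 62238) (nat_lit 13) nil nil)
  nil) nil) nil) nil) (node (nat_lit 5) (nat_lit 125850) (nat_lit 8) nil nil)) (node (nat_lit 4)
  (nat_lit 121644) (nat_lit 7) (node (nat_lit 6) (nat_lit 121644) (nat_lit 8) nil nil) (node
  (nat_lit 5) (nat_lit 128511) (nat_lit 7) (node (nat_lit 4) (nat_lit 127743) (nat_lit 8) (node
  (nat_lit 5) (nat_lit 117558) (nat_lit 9) nil nil) nil) nil))) nil))) (node (nat_lit 2) (nat_lit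
  0) (nat_lit 5) (node (nat_lit 6) (nat_lit 117197) (nat_lit 6) (node (nat_lit 8) (nat_lit 117197)
  (nat_lit 7) (node (nat_lit 4) (nat_lit 117197) (nat_lit 8) nil (node (nat_lit 5) (nat_lit
  123470) (nat_lit 8) nil nil)) (node (nat_lit 4) (nat_lit 117725) (nat_lit 7) (node (nat_lit 6)
  (nat_lit 117725) (nat_lit 8) nil (node (nat_lit 5) (nat_lit 108242) (nat_lit 8) (node (nat_lit
  6) (nat_lit 89783) (nat_lit 9) (node (nat_lit 4) (nat_lit 70194) (nat_lit 10) nil nil) nil)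
  nil)) (node (nat_lit 5) (nat_lit 127562) (nat_lit 7) (node (nat_lit 4) (nat_lit 127562) (nat_lit
  8) (node (nat_lit 5) (nat_lit 115546) (nat_lit 9) (node (nat_lit 6) (nat_lit 103930) (nat_lit
  10) (node (nat_lit 4) (nat_lit 89270) (nat_lit 11) nil nil) nil) nil) nil) nil))) (node (nat_lit
  5) (nat_lit 128224) (nat_lit 6) (node (nat_lit 4) (nat_lit 124862) (nat_lit 7) (node (nat_lit 5)
  (nat_lit 108352) (nat_lit 8) (node (nat_lit 6) (nat_lit 95075) (nat_lit 9) (node (nat_lit 4)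
  (nat_lit 71336) (nat_lit 10) nil nil) nil) nil) nil) (node (nat_lit 4) (nat_lit 117523) (nat_lit
  6) (node (nat_lit 6) (nat_lit 117523) (nat_lit 7) (node (nat_lit 4) (nat_lit 117523) (nat_lit 8)
  (node (nat_lit 5) (nat_lit 109052) (nat_lit 9) (node (nat_lit 6) (nat_lit 105097) (nat_lit 10)
  nil nil) nil) (node (nat_lit 5) (nat_lit 123797) (nat_lit 8) (node (nat_lit 4) (nat_lit 123797)
  (nat_lit 9) nil nil) nil)) (node (nat_lit 5) (nat_lit 127562) (nat_lit 7) nil nil)) (node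
  (nat_lit 0) (nat_lit 126906) (nat_lit 6) (node (nat_lit 6) (nat_lit 126906) (nat_lit 7) nil nil)
  nil)))) nil)))) (node (nat_lit 5) (nat_lit 0) (nat_lit 4) (node (nat_lit 4) (nat_lit 0) (nat_lit
  5) (node (nat_lit 5) (nat_lit 0) (nat_lit 6) (node (nat_lit 0) (nat_lit 71885) (nat_lit 7) (node
  (nat_lit 4) (nat_lit 71885) (nat_lit 8) (node (nat_lit 5) (nat_lit 71885) (nat_lit 9) (node
  (nat_lit 4) (nat_lit 71885) (nat_lit 10) (node (nat_lit 10) (nat_lit 71885) (nat_lit 11) (node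
  (nat_lit 5) (nat_lit 71885) (nat_lit 12) (node (nat_lit 4) (nat_lit 71885) (nat_lit 13) (node
  (nat_lit 5) (nat_lit 71885) (nat_lit 14) (node (nat_lit 6) (nat_lit 71885) (nat_lit 15) (node
  (nat_lit 5) (nat_lit 71885) (nat_lit 16) nil nil) nil) nil) nil) (node (nat_lit 4) (nat_lit
  71885) (nat_lit 12) nil (node (nat_lit 6) (nat_lit 71885) (nat_lit 12) (node (nat_lit 4)
  (nat_lit 71885) (nat_lit 13) nil nil) nil))) (node (nat_lit 6) (nat_lit 71885) (nat_lit 11)
  (node (nat_lit 5) (nat_lit 71885) (nat_lit 12) (node (nat_lit 4) (nat_lit 71885) (nat_lit 13)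
  (node (nat_lit 5) (nat_lit 71885) (nat_lit 14) (node (nat_lit 6) (nat_lit 71885) (nat_lit 15)
  (node (nat_lit 5) (nat_lit 71885) (nat_lit 16) (node (nat_lit 4) (nat_lit 71885) (nat_lit 17)
  nil nil) nil) nil) nil) nil) (node (nat_lit 4) (nat_lit 71885) (nat_lit 12) (node (nat_lit 5)
  (nat_lit 71885) (nat_lit 13) (node (nat_lit 6) (nat_lit 71885) (nat_lit 14) nil nil) nil) nil))
  nil)) (node (nat_lit 6) (nat_lit 71885) (nat_lit 10) nil nil)) (node (nat_lit 10) (nat_lit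
  71885) (nat_lit 9) (node (nat_lit 5) (nat_lit 71885) (nat_lit 10) (node (nat_lit 4) (nat_lit
  71885) (nat_lit 11) nil nil) nil) (node (nat_lit 6) (nat_lit 71885) (nat_lit 9) nil nil))) (node
  (nat_lit 5) (nat_lit 71885) (nat_lit 8) (node (nat_lit 4) (nat_lit 71885) (nat_lit 9) nil nil)
  (node (nat_lit 6) (nat_lit 71885) (nat_lit 8) (node (nat_lit 5) (nat_lit 71885) (nat_lit 9)
  (node (nat_lit 4) (nat_lit 71885) (nat_lit 10) nil nil) (node (nat_lit 4) (nat_lit 71885)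
  (nat_lit 9) (node (nat_lit 5) (nat_lit 71885) (nat_lit 10) nil nil) nil)) nil))) (node (nat_lit
  2) (nat_lit 71885) (nat_lit 7) (node (nat_lit 4) (nat_lit 71885) (nat_lit 8) (node (nat_lit 5)
  (nat_lit 71885) (nat_lit 9) (node (nat_lit 4) (nat_lit 71885) (nat_lit 10) (node (nat_lit 10)
  (nat_lit 71885) (nat_lit 11) (node (nat_lit 5) (nat_lit 71885) (nat_lit 12) (node (nat_lit 4)
  (nat_lit 71885) (nat_lit 13) (node (nat_lit 5) (nat_lit 71885) (nat_lit 14) (node (nat_lit 6)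
  (nat_lit 71885) (nat_lit 15) (node (nat_lit 5) (nat_lit 71885) (nat_lit 16) nil nil) nil) nil)
  nil) (node (nat_lit 4) (nat_lit 71885) (nat_lit 12) nil (node (nat_lit 6) (nat_lit 71885)
  (nat_lit 12) (node (nat_lit 4) (nat_lit 71885) (nat_lit 13) nil nil) nil))) (node (nat_lit 6)
  (nat_lit 71885) (nat_lit 11) (node (nat_lit 5) (nat_lit 71885) (nat_lit 12) (node (nat_lit 4)
  (nat_lit 71885) (nat_lit 13) (node (nat_lit 5) (nat_lit 71885) (nat_lit 14) (node (nat_lit 6)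
  (nat_lit 71885) (nat_lit 15) (node (nat_lit 5) (nat_lit 71885) (nat_lit 16) (node (nat_lit 4)
  (nat_lit 71885) (nat_lit 17) nil nil) nil) nil) nil) nil) (node (nat_lit 4) (nat_lit 71885)
  (nat_lit 12) (node (nat_lit 5) (nat_lit 71885) (nat_lit 13) (node (nat_lit 6) (nat_lit 71885)
  (nat_lit 14) nil nil) nil) nil)) nil)) (node (nat_lit 6) (nat_lit 71885) (nat_lit 10) nil (node
  (nat_lit 0) (nat_lit 71885) (nat_lit 10) nil nil))) (node (nat_lit 10) (nat_lit 71885) (nat_lit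
  9) (node (nat_lit 5) (nat_lit 71885) (nat_lit 10) (node (nat_lit 4) (nat_lit 71885) (nat_lit 11)
  nil nil) nil) (node (nat_lit 6) (nat_lit 71885) (nat_lit 9) nil nil))) (node (nat_lit 5)
  (nat_lit 71885) (nat_lit 8) (node (nat_lit 4) (nat_lit 71885) (nat_lit 9) nil nil) (node
  (nat_lit 6) (nat_lit 71885) (nat_lit 8) (node (nat_lit 5) (nat_lit 71885) (nat_lit 9) (node
  (nat_lit 4) (nat_lit 71885) (nat_lit 10) nil nil) (node (nat_lit 4) (nat_lit 71885) (nat_lit 9)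
  (node (nat_lit 5) (nat_lit 71885) (nat_lit 10) nil nil) nil)) nil))) (node (nat_lit 6) (nat_lit
  0) (nat_lit 7) (node (nat_lit 0) (nat_lit 51341) (nat_lit 8) (node (nat_lit 5) (nat_lit 51596)
  (nat_lit 9) nil (node (nat_lit 6) (nat_lit 51341) (nat_lit 9) nil nil)) (node (nat_lit 4)
  (nat_lit 0) (nat_lit 8) (node (nat_lit 5) (nat_lit 51432) (nat_lit 9) nil (node (nat_lit 0)
  (nat_lit 51252) (nat_lit 9) nil (node (nat_lit 2) (nat_lit 47925) (nat_lit 9) nil nil))) (node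
  (nat_lit 2) (nat_lit 48029) (nat_lit 8) (node (nat_lit 4) (nat_lit 48479) (nat_lit 9) nil (node
  (nat_lit 6) (nat_lit 48440) (nat_lit 9) nil (node (nat_lit 5) (nat_lit 51615) (nat_lit 9) nil
  nil))) nil))) nil))) (node (nat_lit 0) (nat_lit 0) (nat_lit 6) (node (nat_lit 4) (nat_lit
  121801) (nat_lit 7) (node (nat_lit 6) (nat_lit 124102) (nat_lit 8) (node (nat_lit 4) (nat_lit
  124866) (nat_lit 9) (node (nat_lit 5) (nat_lit 121688) (nat_lit 10) (node (nat_lit 6) (nat_lit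
  115411) (nat_lit 11) (node (nat_lit 5) (nat_lit 97141) (nat_lit 12) (node (nat_lit 4) (nat_lit
  78567) (nat_lit 13) (node (nat_lit 9) (nat_lit 60848) (nat_lit 14) nil nil) nil) nil) nil) nil)
  nil) nil) (node (nat_lit 5) (nat_lit 120762) (nat_lit 7) (node (nat_lit 4) (nat_lit 122773)
  (nat_lit 8) (node (nat_lit 5) (nat_lit 123827) (nat_lit 9) (node (nat_lit 6) (nat_lit 122017)
  (nat_lit 10) (node (nat_lit 5) (nat_lit 121713) (nat_lit 11) nil nil) nil) nil) (node (nat_lit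
  6) (nat_lit 123063) (nat_lit 8) (node (nat_lit 4) (nat_lit 123827) (nat_lit 9) (node (nat_lit 5)
  (nat_lit 124394) (nat_lit 10) nil nil) nil) nil)) (node (nat_lit 6) (nat_lit 120762) (nat_lit 7)
  (node (nat_lit 5) (nat_lit 123063) (nat_lit 8) nil (node (nat_lit 4) (nat_lit 123063) (nat_lit
  8) (node (nat_lit 5) (nat_lit 123827) (nat_lit 9) (node (nat_lit 6) (nat_lit 122017) (nat_lit
  10) (node (nat_lit 5) (nat_lit 121713) (nat_lit 11) (node (nat_lit 4) (nat_lit 121566) (nat_lit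
  12) nil nil) nil) nil) nil) nil)) (node (nat_lit 0) (nat_lit 121681) (nat_lit 7) nil (node
  (nat_lit 2) (nat_lit 120762) (nat_lit 7) nil nil))))) (node (nat_lit 2) (nat_lit 0) (nat_lit 6)
  (node (nat_lit 4) (nat_lit 120919) (nat_lit 7) (node (nat_lit 6) (nat_lit 123220) (nat_lit 8)
  (node (nat_lit 4) (nat_lit 123984) (nat_lit 9) (node (nat_lit 5) (nat_lit 121699) (nat_lit 10)
  (node (nat_lit 6) (nat_lit 112191) (nat_lit 11) (node (nat_lit 5) (nat_lit 78911) (nat_lit 12)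
  (node (nat_lit 4) (nat_lit 60338) (nat_lit 13) (node (nat_lit 9) (nat_lit 50399) (nat_lit 14)
  nil nil) nil) nil) nil) nil) nil) nil) (node (nat_lit 5) (nat_lit 118729) (nat_lit 7) (node
  (nat_lit 4) (nat_lit 123748) (nat_lit 8) (node (nat_lit 5) (nat_lit 116737) (nat_lit 9) (node
  (nat_lit 6) (nat_lit 105089) (nat_lit 10) (node (nat_lit 5) (nat_lit 71885) (nat_lit 11) nil
  nil) nil) nil) (node (nat_lit 6) (nat_lit 121030) (nat_lit 8) (node (nat_lit 4) (nat_lit 121794)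
  (nat_lit 9) (node (nat_lit 5) (nat_lit 122362) (nat_lit 10) nil nil) nil) nil)) (node (nat_lit
  6) (nat_lit 118639) (nat_lit 7) (node (nat_lit 5) (nat_lit 120940) (nat_lit 8) (node (nat_lit 4)
  (nat_lit 123992) (nat_lit 9) nil nil) (node (nat_lit 4) (nat_lit 120940) (nat_lit 8) (node
  (nat_lit 5) (nat_lit 119499) (nat_lit 9) (node (nat_lit 6) (nat_lit 97418) (nat_lit 10) (node
  (nat_lit 5) (nat_lit 64752) (nat_lit 11) (node (nat_lit 4) (nat_lit 64606) (nat_lit 12) nil nil)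
  nil) nil) nil) nil)) (node (nat_lit 0) (nat_lit 120536) (nat_lit 7) (node (nat_lit 5) (nat_lit
  122837) (nat_lit 8) nil nil) nil)))) (node (nat_lit 6) (nat_lit 0) (nat_lit 6) (node (nat_lit 0)
  (nat_lit 121653) (nat_lit 7) (node (nat_lit 4) (nat_lit 124384) (nat_lit 8) nil (node (nat_lit
  5) (nat_lit 123954) (nat_lit 8) (node (nat_lit 4) (nat_lit 124718) (nat_lit 9) nil nil) (node
  (nat_lit 6) (nat_lit 123954) (nat_lit 8) (node (nat_lit 4) (nat_lit 124718) (nat_lit 9) nil nil)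
  nil))) (node (nat_lit 2) (nat_lit 0) (nat_lit 7) (node (nat_lit 4) (nat_lit 123336) (nat_lit 8)
  (node (nat_lit 6) (nat_lit 124100) (nat_lit 9) (node (nat_lit 4) (nat_lit 124667) (nat_lit 10)
  (node (nat_lit 5) (nat_lit 122731) (nat_lit 11) (node (nat_lit 6) (nat_lit 116795) (nat_lit 12)
  nil nil) nil) nil) nil) (node (nat_lit 5) (nat_lit 120508) (nat_lit 8) (node (nat_lit 4)
  (nat_lit 121325) (nat_lit 9) nil nil) (node (nat_lit 6) (nat_lit 120859) (nat_lit 8) (node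
  (nat_lit 4) (nat_lit 124038) (nat_lit 9) nil nil) (node (nat_lit 0) (nat_lit 122798) (nat_lit 8)
  nil nil)))) (node (nat_lit 4) (nat_lit 0) (nat_lit 7) (node (nat_lit 5) (nat_lit 113925)
  (nat_lit 8) (node (nat_lit 6) (nat_lit 88479) (nat_lit 9) (node (nat_lit 5) (nat_lit 78122)
  (nat_lit 10) (node (nat_lit 4) (nat_lit 53907) (nat_lit 11) nil nil) (node (nat_lit 4) (nat_lit
  93768) (nat_lit 10) (node (nat_lit 6) (nat_lit 95971) (nat_lit 11) nil nil) nil)) nil) (node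
  (nat_lit 2) (nat_lit 123296) (nat_lit 8) nil (node (nat_lit 0) (nat_lit 123833) (nat_lit 8) nil
  nil))) (node (nat_lit 5) (nat_lit 0) (nat_lit 7) (node (nat_lit 6) (nat_lit 117471) (nat_lit 8)
  (node (nat_lit 4) (nat_lit 123163) (nat_lit 9) (node (nat_lit 5) (nat_lit 124442) (nat_lit 10)
  nil nil) nil) (node (nat_lit 0) (nat_lit 123154) (nat_lit 8) nil (node (nat_lit 2) (nat_lit
  120407) (nat_lit 8) nil nil))) nil)))) nil)))) (node (nat_lit 0) (nat_lit 0) (nat_lit 5) (node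
  (nat_lit 6) (nat_lit 129187) (nat_lit 6) (node (nat_lit 8) (nat_lit 130827) (nat_lit 7) nil
  (node (nat_lit 5) (nat_lit 130732) (nat_lit 7) (node (nat_lit 6) (nat_lit 131812) (nat_lit 8)
  (node (nat_lit 4) (nat_lit 132559) (nat_lit 9) nil nil) (node (nat_lit 4) (nat_lit 117277)
  (nat_lit 8) (node (nat_lit 5) (nat_lit 109454) (nat_lit 9) (node (nat_lit 6) (nat_lit 93849)
  (nat_lit 10) nil nil) nil) nil)) (node (nat_lit 4) (nat_lit 130827) (nat_lit 7) (node (nat_lit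
  5) (nat_lit 131907) (nat_lit 8) (node (nat_lit 6) (nat_lit 129704) (nat_lit 9) (node (nat_lit 5)
  (nat_lit 129146) (nat_lit 10) nil nil) nil) nil) nil))) (node (nat_lit 4) (nat_lit 129966)
  (nat_lit 6) (node (nat_lit 8) (nat_lit 131607) (nat_lit 7) (node (nat_lit 5) (nat_lit 132687)
  (nat_lit 8) (node (nat_lit 4) (nat_lit 133434) (nat_lit 9) (node (nat_lit 5) (nat_lit 134002)
  (nat_lit 10) (node (nat_lit 6) (nat_lit 132562) (nat_lit 11) (node (nat_lit 5) (nat_lit 132393)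
  (nat_lit 12) nil nil) nil) nil) nil) nil) (node (nat_lit 6) (nat_lit 126566) (nat_lit 7) (node
  (nat_lit 5) (nat_lit 125383) (nat_lit 8) nil (node (nat_lit 4) (nat_lit 127646) (nat_lit 8)
  (node (nat_lit 5) (nat_lit 121848) (nat_lit 9) (node (nat_lit 6) (nat_lit 109445) (nat_lit 10)
  (node (nat_lit 5) (nat_lit 92874) (nat_lit 11) (node (nat_lit 8) (nat_lit 59819) (nat_lit 12)
  nil nil) nil) nil) nil) nil)) nil)) (node (nat_lit 5) (nat_lit 129187) (nat_lit 6) (node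
  (nat_lit 6) (nat_lit 131098) (nat_lit 7) (node (nat_lit 4) (nat_lit 132178) (nat_lit 8) nil nil)
  (node (nat_lit 4) (nat_lit 130762) (nat_lit 7) (node (nat_lit 5) (nat_lit 131907) (nat_lit 8)
  (node (nat_lit 6) (nat_lit 129704) (nat_lit 9) (node (nat_lit 5) (nat_lit 129146) (nat_lit 10)
  nil nil) nil) nil) nil)) (node (nat_lit 0) (nat_lit 126060) (nat_lit 6) (node (nat_lit 5)
  (nat_lit 129636) (nat_lit 7) nil (node (nat_lit 6) (nat_lit 124595) (nat_lit 7) nil nil)) (node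
  (nat_lit 2) (nat_lit 128326) (nat_lit 6) (node (nat_lit 8) (nat_lit 131127) (nat_lit 7) (node
  (nat_lit 5) (nat_lit 132207) (nat_lit 8) nil nil) (node (nat_lit 5) (nat_lit 125975) (nat_lit 7)
  (node (nat_lit 4) (nat_lit 120608) (nat_lit 8) (node (nat_lit 5) (nat_lit 110819) (nat_lit 9)
  nil nil) nil) (node (nat_lit 6) (nat_lit 123914) (nat_lit 7) (node (nat_lit 4) (nat_lit 119352)
  (nat_lit 8) nil nil) nil))) nil))))) (node (nat_lit 2) (nat_lit 0) (nat_lit 5) (node (nat_lit 4)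
  (nat_lit 126687) (nat_lit 6) (node (nat_lit 8) (nat_lit 126305) (nat_lit 7) (node (nat_lit 5)
  (nat_lit 126396) (nat_lit 8) (node (nat_lit 4) (nat_lit 122327) (nat_lit 9) (node (nat_lit 5)
  (nat_lit 117236) (nat_lit 10) (node (nat_lit 6) (nat_lit 110960) (nat_lit 11) (node (nat_lit 5)
  (nat_lit 99348) (nat_lit 12) (node (nat_lit 8) (nat_lit 72388) (nat_lit 13) (node (nat_lit 4)
  (nat_lit 57862) (nat_lit 14) nil nil) nil) nil) nil) nil) nil) (node (nat_lit 6) (nat_lit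
  122852) (nat_lit 8) (node (nat_lit 4) (nat_lit 121872) (nat_lit 9) (node (nat_lit 5) (nat_lit
  116781) (nat_lit 10) nil nil) nil) nil)) (node (nat_lit 6) (nat_lit 127956) (nat_lit 7) (node
  (nat_lit 5) (nat_lit 129149) (nat_lit 8) nil (node (nat_lit 4) (nat_lit 127582) (nat_lit 8)
  (node (nat_lit 5) (nat_lit 119344) (nat_lit 9) (node (nat_lit 6) (nat_lit 93891) (nat_lit 10)
  (node (nat_lit 5) (nat_lit 89595) (nat_lit 11) (node (nat_lit 8) (nat_lit 56840) (nat_lit 12)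
  nil nil) nil) nil) nil) nil)) nil)) (node (nat_lit 6) (nat_lit 0) (nat_lit 6) (node (nat_lit 8)
  (nat_lit 0) (nat_lit 7) (node (nat_lit 5) (nat_lit 110683) (nat_lit 8) (node (nat_lit 6)
  (nat_lit 113636) (nat_lit 9) (node (nat_lit 4) (nat_lit 114204) (nat_lit 10) (node (nat_lit 5)
  (nat_lit 114704) (nat_lit 11) (node (nat_lit 6) (nat_lit 113602) (nat_lit 12) (node (nat_lit 5)
  (nat_lit 113434) (nat_lit 13) nil nil) nil) nil) nil) (node (nat_lit 4) (nat_lit 119368)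
  (nat_lit 9) (node (nat_lit 5) (nat_lit 112474) (nat_lit 10) (node (nat_lit 6) (nat_lit 106614)
  (nat_lit 11) (node (nat_lit 5) (nat_lit 103950) (nat_lit 12) (node (nat_lit 8) (nat_lit 71885)
  (nat_lit 13) nil nil) nil) nil) nil) (node (nat_lit 8) (nat_lit 109763) (nat_lit 9) nil nil)))
  (node (nat_lit 4) (nat_lit 119455) (nat_lit 8) nil (node (nat_lit 0) (nat_lit 110683) (nat_lit
  8) nil nil))) (node (nat_lit 5) (nat_lit 109512) (nat_lit 7) (node (nat_lit 6) (nat_lit 110593)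
  (nat_lit 8) (node (nat_lit 8) (nat_lit 108389) (nat_lit 9) nil (node (nat_lit 4) (nat_lit
  119407) (nat_lit 9) (node (nat_lit 5) (nat_lit 119975) (nat_lit 10) (node (nat_lit 6) (nat_lit
  118535) (nat_lit 11) nil nil) nil) nil)) (node (nat_lit 4) (nat_lit 118298) (nat_lit 8) (node
  (nat_lit 5) (nat_lit 108773) (nat_lit 9) (node (nat_lit 6) (nat_lit 102567) (nat_lit 10) (node
  (nat_lit 5) (nat_lit 69806) (nat_lit 11) nil nil) nil) nil) nil)) (node (nat_lit 4) (nat_lit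
  119914) (nat_lit 7) (node (nat_lit 5) (nat_lit 114971) (nat_lit 8) (node (nat_lit 6) (nat_lit
  89598) (nat_lit 9) (node (nat_lit 5) (nat_lit 63357) (nat_lit 10) nil nil) nil) nil) (node
  (nat_lit 0) (nat_lit 121945) (nat_lit 7) nil nil)))) (node (nat_lit 5) (nat_lit 0) (nat_lit 6)
  (node (nat_lit 4) (nat_lit 120497) (nat_lit 7) (node (nat_lit 5) (nat_lit 109120) (nat_lit 8)
  (node (nat_lit 6) (nat_lit 95295) (nat_lit 9) (node (nat_lit 5) (nat_lit 71792) (nat_lit 10) nil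
  nil) nil) nil) (node (nat_lit 6) (nat_lit 109514) (nat_lit 7) (node (nat_lit 4) (nat_lit 121264)
  (nat_lit 8) (node (nat_lit 5) (nat_lit 122011) (nat_lit 9) nil nil) (node (nat_lit 5) (nat_lit
  110594) (nat_lit 8) (node (nat_lit 4) (nat_lit 111328) (nat_lit 9) nil nil) nil)) (node (nat_lit
  0) (nat_lit 123533) (nat_lit 7) (node (nat_lit 5) (nat_lit 124613) (nat_lit 8) nil nil) nil)))
  (node (nat_lit 0) (nat_lit 123869) (nat_lit 6) (node (nat_lit 8) (nat_lit 117125) (nat_lit 7)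
  nil (node (nat_lit 5) (nat_lit 126446) (nat_lit 7) (node (nat_lit 4) (nat_lit 125841) (nat_lit
  8) nil nil) (node (nat_lit 6) (nat_lit 124545) (nat_lit 7) (node (nat_lit 4) (nat_lit 126899)
  (nat_lit 8) nil nil) nil))) nil)))) nil))) t159))

noncomputable def t161 : Tr :=
  (node (nat_lit 3) (nat_lit 0) (nat_lit 4) (node (nat_lit 5) (nat_lit 0) (nat_lit 5) (node
  (nat_lit 7) (nat_lit 0) (nat_lit 6) (node (nat_lit 0) (nat_lit 49138) (nat_lit 7) nil (node
  (nat_lit 2) (nat_lit 44986) (nat_lit 7) (node (nat_lit 5) (nat_lit 50426) (nat_lit 8) (node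
  (nat_lit 7) (nat_lit 50426) (nat_lit 9) (node (nat_lit 5) (nat_lit 50655) (nat_lit 10) (node
  (nat_lit 4) (nat_lit 50655) (nat_lit 11) (node (nat_lit 7) (nat_lit 50655) (nat_lit 12) (node
  (nat_lit 5) (nat_lit 50806) (nat_lit 13) (node (nat_lit 7) (nat_lit 50806) (nat_lit 14) (node
  (nat_lit 4) (nat_lit 50806) (nat_lit 15) (node (nat_lit 5) (nat_lit 50881) (nat_lit 16) (node
  (nat_lit 4) (nat_lit 50881) (nat_lit 17) nil nil) nil) nil) nil) nil) nil) nil) nil) nil) (node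
  (nat_lit 7) (nat_lit 45701) (nat_lit 8) nil (node (nat_lit 4) (nat_lit 44986) (nat_lit 8) nil
  nil))) (node (nat_lit 4) (nat_lit 43648) (nat_lit 7) (node (nat_lit 5) (nat_lit 50104) (nat_lit
  8) nil nil) nil))) (node (nat_lit 0) (nat_lit 47650) (nat_lit 6) (node (nat_lit 5) (nat_lit
  48930) (nat_lit 7) nil (node (nat_lit 7) (nat_lit 47650) (nat_lit 7) (node (nat_lit 4) (nat_lit
  47650) (nat_lit 8) (node (nat_lit 5) (nat_lit 49154) (nat_lit 9) nil nil) nil) nil)) (node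
  (nat_lit 2) (nat_lit 0) (nat_lit 6) (node (nat_lit 5) (nat_lit 49919) (nat_lit 7) (node (nat_lit
  7) (nat_lit 49919) (nat_lit 8) (node (nat_lit 4) (nat_lit 49919) (nat_lit 9) (node (nat_lit 5)
  (nat_lit 50450) (nat_lit 10) nil nil) nil) nil) (node (nat_lit 7) (nat_lit 45842) (nat_lit 7)
  (node (nat_lit 4) (nat_lit 45078) (nat_lit 8) (node (nat_lit 5) (nat_lit 44354) (nat_lit 9)
  (node (nat_lit 4) (nat_lit 28790) (nat_lit 10) nil nil) nil) nil) (node (nat_lit 4) (nat_lit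
  45027) (nat_lit 7) (node (nat_lit 7) (nat_lit 45027) (nat_lit 8) (node (nat_lit 4) (nat_lit
  45027) (nat_lit 9) (node (nat_lit 5) (nat_lit 44664) (nat_lit 10) nil nil) nil) nil) (node
  (nat_lit 0) (nat_lit 48718) (nat_lit 7) nil nil)))) (node (nat_lit 4) (nat_lit 0) (nat_lit 6)
  (node (nat_lit 0) (nat_lit 0) (nat_lit 7) (node (nat_lit 5) (nat_lit 51660) (nat_lit 8) (node
  (nat_lit 4) (nat_lit 51660) (nat_lit 9) (node (nat_lit 5) (nat_lit 51889) (nat_lit 10) nil (node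
  (nat_lit 7) (nat_lit 51660) (nat_lit 10) nil nil)) (node (nat_lit 7) (nat_lit 51660) (nat_lit 9)
  nil nil)) (node (nat_lit 7) (nat_lit 50222) (nat_lit 8) (node (nat_lit 4) (nat_lit 50222)
  (nat_lit 9) (node (nat_lit 5) (nat_lit 51178) (nat_lit 10) (node (nat_lit 4) (nat_lit 51178)
  (nat_lit 11) nil nil) nil) nil) (node (nat_lit 4) (nat_lit 50274) (nat_lit 8) (node (nat_lit 5)
  (nat_lit 51602) (nat_lit 9) nil (node (nat_lit 7) (nat_lit 50095) (nat_lit 9) nil nil)) (node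
  (nat_lit 2) (nat_lit 50222) (nat_lit 8) nil (node (nat_lit 0) (nat_lit 51517) (nat_lit 8) nil
  nil))))) (node (nat_lit 2) (nat_lit 0) (nat_lit 7) (node (nat_lit 5) (nat_lit 51689) (nat_lit 8)
  (node (nat_lit 4) (nat_lit 51689) (nat_lit 9) (node (nat_lit 5) (nat_lit 51918) (nat_lit 10) nil
  (node (nat_lit 7) (nat_lit 51689) (nat_lit 10) nil nil)) (node (nat_lit 7) (nat_lit 51689)
  (nat_lit 9) nil nil)) (node (nat_lit 7) (nat_lit 47084) (nat_lit 8) (node (nat_lit 4) (nat_lit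
  47180) (nat_lit 9) (node (nat_lit 5) (nat_lit 49327) (nat_lit 10) (node (nat_lit 4) (nat_lit
  38472) (nat_lit 11) nil nil) nil) (node (nat_lit 5) (nat_lit 50758) (nat_lit 9) nil nil)) (node
  (nat_lit 4) (nat_lit 47125) (nat_lit 8) (node (nat_lit 5) (nat_lit 51004) (nat_lit 9) nil (node
  (nat_lit 7) (nat_lit 47881) (nat_lit 9) nil nil)) (node (nat_lit 0) (nat_lit 51295) (nat_lit 8)
  nil nil)))) (node (nat_lit 5) (nat_lit 0) (nat_lit 7) (node (nat_lit 7) (nat_lit 49001) (nat_lit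
  8) (node (nat_lit 4) (nat_lit 49206) (nat_lit 9) (node (nat_lit 5) (nat_lit 51676) (nat_lit 10)
  (node (nat_lit 4) (nat_lit 51676) (nat_lit 11) (node (nat_lit 7) (nat_lit 51676) (nat_lit 12)
  nil nil) nil) nil) nil) (node (nat_lit 2) (nat_lit 49883) (nat_lit 8) (node (nat_lit 7) (nat_lit
  49705) (nat_lit 9) (node (nat_lit 4) (nat_lit 49705) (nat_lit 10) nil nil) nil) (node (nat_lit
  0) (nat_lit 51271) (nat_lit 8) nil nil))) nil))) nil)))) (node (nat_lit 0) (nat_lit 0) (nat_lit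
  5) (node (nat_lit 4) (nat_lit 45947) (nat_lit 6) (node (nat_lit 8) (nat_lit 48387) (nat_lit 7)
  (node (nat_lit 7) (nat_lit 48387) (nat_lit 8) (node (nat_lit 4) (nat_lit 48387) (nat_lit 9)
  (node (nat_lit 5) (nat_lit 48995) (nat_lit 10) (node (nat_lit 4) (nat_lit 48995) (nat_lit 11)
  (node (nat_lit 7) (nat_lit 48995) (nat_lit 12) nil nil) nil) nil) nil) nil) (node (nat_lit 7)
  (nat_lit 46187) (nat_lit 7) (node (nat_lit 4) (nat_lit 46135) (nat_lit 8) (node (nat_lit 5)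
  (nat_lit 42932) (nat_lit 9) (node (nat_lit 4) (nat_lit 27222) (nat_lit 10) nil nil) nil) nil)
  (node (nat_lit 5) (nat_lit 48387) (nat_lit 7) (node (nat_lit 7) (nat_lit 48387) (nat_lit 8)
  (node (nat_lit 4) (nat_lit 48387) (nat_lit 9) (node (nat_lit 5) (nat_lit 48995) (nat_lit 10)
  (node (nat_lit 4) (nat_lit 48995) (nat_lit 11) (node (nat_lit 7) (nat_lit 48995) (nat_lit 12)
  nil nil) nil) nil) nil) nil) nil))) (node (nat_lit 5) (nat_lit 48551) (nat_lit 6) (node (nat_lit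
  7) (nat_lit 48551) (nat_lit 7) (node (nat_lit 4) (nat_lit 48551) (nat_lit 8) nil nil) (node
  (nat_lit 8) (nat_lit 48895) (nat_lit 7) nil nil)) (node (nat_lit 7) (nat_lit 45994) (nat_lit 6)
  (node (nat_lit 4) (nat_lit 45851) (nat_lit 7) (node (nat_lit 5) (nat_lit 47749) (nat_lit 8) nil
  nil) (node (nat_lit 5) (nat_lit 48387) (nat_lit 7) (node (nat_lit 7) (nat_lit 48387) (nat_lit 8)
  nil nil) nil)) (node (nat_lit 0) (nat_lit 48551) (nat_lit 6) (node (nat_lit 7) (nat_lit 48551)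
  (nat_lit 7) (node (nat_lit 4) (nat_lit 48551) (nat_lit 8) nil nil) (node (nat_lit 8) (nat_lit
  48895) (nat_lit 7) (node (nat_lit 7) (nat_lit 48895) (nat_lit 8) nil nil) nil)) (node (nat_lit
  2) (nat_lit 45431) (nat_lit 6) (node (nat_lit 7) (nat_lit 45431) (nat_lit 7) (node (nat_lit 4)
  (nat_lit 45431) (nat_lit 8) nil nil) (node (nat_lit 8) (nat_lit 47490) (nat_lit 7) (node
  (nat_lit 7) (nat_lit 47490) (nat_lit 8) nil nil) nil)) nil))))) (node (nat_lit 4) (nat_lit 0)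
  (nat_lit 5) (node (nat_lit 0) (nat_lit 0) (nat_lit 6) (node (nat_lit 4) (nat_lit 0) (nat_lit 7)
  (node (nat_lit 7) (nat_lit 39658) (nat_lit 8) (node (nat_lit 4) (nat_lit 30263) (nat_lit 9)
  (node (nat_lit 5) (nat_lit 27148) (nat_lit 10) nil nil) nil) (node (nat_lit 5) (nat_lit 41212)
  (nat_lit 8) nil (node (nat_lit 2) (nat_lit 36788) (nat_lit 8) (node (nat_lit 7) (nat_lit 37203)
  (nat_lit 9) nil nil) (node (nat_lit 0) (nat_lit 41212) (nat_lit 8) nil nil)))) (node (nat_lit 7)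
  (nat_lit 38920) (nat_lit 7) (node (nat_lit 4) (nat_lit 41616) (nat_lit 8) (node (nat_lit 5)
  (nat_lit 42648) (nat_lit 9) nil nil) (node (nat_lit 5) (nat_lit 41616) (nat_lit 8) nil nil))
  (node (nat_lit 5) (nat_lit 38920) (nat_lit 7) (node (nat_lit 7) (nat_lit 41616) (nat_lit 8)
  (node (nat_lit 4) (nat_lit 42648) (nat_lit 9) nil nil) nil) (node (nat_lit 0) (nat_lit 38920)
  (nat_lit 7) (node (nat_lit 7) (nat_lit 41616) (nat_lit 8) nil nil) (node (nat_lit 2) (nat_lit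
  38920) (nat_lit 7) (node (nat_lit 7) (nat_lit 40782) (nat_lit 8) nil nil) nil))))) (node
  (nat_lit 5) (nat_lit 0) (nat_lit 6) (node (nat_lit 0) (nat_lit 0) (nat_lit 7) (node (nat_lit 4)
  (nat_lit 27919) (nat_lit 8) (node (nat_lit 5) (nat_lit 29121) (nat_lit 9) (node (nat_lit 4)
  (nat_lit 28796) (nat_lit 10) (node (nat_lit 7) (nat_lit 28979) (nat_lit 11) nil nil) (node
  (nat_lit 7) (nat_lit 29121) (nat_lit 10) (node (nat_lit 4) (nat_lit 29121) (nat_lit 11) nil nil)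
  nil)) (node (nat_lit 7) (nat_lit 27919) (nat_lit 9) nil nil)) (node (nat_lit 7) (nat_lit 27919)
  (nat_lit 8) (node (nat_lit 5) (nat_lit 29121) (nat_lit 9) (node (nat_lit 7) (nat_lit 29121)
  (nat_lit 10) nil nil) (node (nat_lit 4) (nat_lit 27919) (nat_lit 9) nil nil)) (node (nat_lit 5)
  (nat_lit 29139) (nat_lit 8) (node (nat_lit 7) (nat_lit 29139) (nat_lit 9) nil nil) (node
  (nat_lit 2) (nat_lit 27132) (nat_lit 8) nil (node (nat_lit 0) (nat_lit 28960) (nat_lit 8) nil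
  nil))))) (node (nat_lit 2) (nat_lit 0) (nat_lit 7) (node (nat_lit 4) (nat_lit 26726) (nat_lit 8)
  (node (nat_lit 5) (nat_lit 29695) (nat_lit 9) (node (nat_lit 4) (nat_lit 28511) (nat_lit 10)
  (node (nat_lit 7) (nat_lit 28694) (nat_lit 11) nil nil) (node (nat_lit 7) (nat_lit 29695)
  (nat_lit 10) (node (nat_lit 4) (nat_lit 29695) (nat_lit 11) nil nil) nil)) (node (nat_lit 7)
  (nat_lit 26726) (nat_lit 9) nil (node (nat_lit 10) (nat_lit 26726) (nat_lit 9) nil nil))) (node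
  (nat_lit 7) (nat_lit 26592) (nat_lit 8) (node (nat_lit 5) (nat_lit 28760) (nat_lit 9) (node
  (nat_lit 7) (nat_lit 28760) (nat_lit 10) nil nil) (node (nat_lit 4) (nat_lit 26592) (nat_lit 9)
  nil nil)) (node (nat_lit 5) (nat_lit 28772) (nat_lit 8) (node (nat_lit 7) (nat_lit 29139)
  (nat_lit 9) nil nil) (node (nat_lit 0) (nat_lit 28567) (nat_lit 8) nil nil)))) (node (nat_lit 7)
  (nat_lit 0) (nat_lit 7) (node (nat_lit 4) (nat_lit 0) (nat_lit 8) (node (nat_lit 7) (nat_lit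
  25522) (nat_lit 9) (node (nat_lit 5) (nat_lit 28421) (nat_lit 10) nil (node (nat_lit 0) (nat_lit
  28198) (nat_lit 10) nil (node (nat_lit 2) (nat_lit 25170) (nat_lit 10) nil nil))) (node (nat_lit
  0) (nat_lit 26760) (nat_lit 9) nil (node (nat_lit 2) (nat_lit 25517) (nat_lit 9) nil nil)))
  (node (nat_lit 5) (nat_lit 0) (nat_lit 8) (node (nat_lit 4) (nat_lit 26760) (nat_lit 9) nil
  (node (nat_lit 2) (nat_lit 25665) (nat_lit 9) nil (node (nat_lit 0) (nat_lit 26760) (nat_lit 9)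
  nil nil))) (node (nat_lit 0) (nat_lit 28681) (nat_lit 8) (node (nat_lit 7) (nat_lit 28681)
  (nat_lit 9) nil nil) (node (nat_lit 2) (nat_lit 25306) (nat_lit 8) (node (nat_lit 7) (nat_lit
  25667) (nat_lit 9) nil nil) nil)))) nil))) (node (nat_lit 2) (nat_lit 0) (nat_lit 6) (node
  (nat_lit 4) (nat_lit 0) (nat_lit 7) (node (nat_lit 7) (nat_lit 30362) (nat_lit 8) (node (nat_lit
  5) (nat_lit 38019) (nat_lit 9) (node (nat_lit 4) (nat_lit 38019) (nat_lit 10) (node (nat_lit 7)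
  (nat_lit 38019) (nat_lit 11) (node (nat_lit 4) (nat_lit 38019) (nat_lit 12) nil nil) nil) nil)
  (node (nat_lit 9) (nat_lit 30362) (nat_lit 9) (node (nat_lit 7) (nat_lit 31182) (nat_lit 10)
  (node (nat_lit 4) (nat_lit 31924) (nat_lit 11) nil nil) (node (nat_lit 4) (nat_lit 30367)
  (nat_lit 10) nil nil)) (node (nat_lit 4) (nat_lit 30362) (nat_lit 9) (node (nat_lit 5) (nat_lit
  24732) (nat_lit 10) (node (nat_lit 4) (nat_lit 16637) (nat_lit 11) nil nil) nil) (node (nat_lit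
  0) (nat_lit 38019) (nat_lit 9) nil nil)))) (node (nat_lit 5) (nat_lit 41026) (nat_lit 8) nil
  (node (nat_lit 0) (nat_lit 40464) (nat_lit 8) (node (nat_lit 7) (nat_lit 40464) (nat_lit 9) nil
  nil) nil))) (node (nat_lit 7) (nat_lit 0) (nat_lit 7) (node (nat_lit 9) (nat_lit 30491) (nat_lit
  8) (node (nat_lit 4) (nat_lit 30491) (nat_lit 9) (node (nat_lit 9) (nat_lit 28312) (nat_lit 10)
  nil (node (nat_lit 7) (nat_lit 30496) (nat_lit 10) nil nil)) nil) (node (nat_lit 4) (nat_lit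
  30361) (nat_lit 8) (node (nat_lit 5) (nat_lit 32319) (nat_lit 9) nil (node (nat_lit 7) (nat_lit
  30361) (nat_lit 9) nil nil)) (node (nat_lit 5) (nat_lit 40224) (nat_lit 8) nil (node (nat_lit 0)
  (nat_lit 37585) (nat_lit 8) nil nil)))) (node (nat_lit 5) (nat_lit 38920) (nat_lit 7) (node
  (nat_lit 7) (nat_lit 41616) (nat_lit 8) (node (nat_lit 4) (nat_lit 42648) (nat_lit 9) nil nil)
  nil) (node (nat_lit 0) (nat_lit 38920) (nat_lit 7) (node (nat_lit 7) (nat_lit 41616) (nat_lit 8)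
  nil nil) nil)))) nil))) (node (nat_lit 2) (nat_lit 0) (nat_lit 5) (node (nat_lit 4) (nat_lit 0)
  (nat_lit 6) (node (nat_lit 8) (nat_lit 0) (nat_lit 7) (node (nat_lit 7) (nat_lit 30677) (nat_lit
  8) (node (nat_lit 4) (nat_lit 30677) (nat_lit 9) (node (nat_lit 7) (nat_lit 36527) (nat_lit 10)
  nil (node (nat_lit 5) (nat_lit 35792) (nat_lit 10) (node (nat_lit 4) (nat_lit 18494) (nat_lit
  11) nil nil) (node (nat_lit 0) (nat_lit 38655) (nat_lit 10) nil nil))) (node (nat_lit 8)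
  (nat_lit 30677) (nat_lit 9) (node (nat_lit 4) (nat_lit 34850) (nat_lit 10) nil (node (nat_lit 5)
  (nat_lit 42420) (nat_lit 10) nil nil)) (node (nat_lit 5) (nat_lit 44668) (nat_lit 9) nil (node
  (nat_lit 0) (nat_lit 41919) (nat_lit 9) nil nil)))) (node (nat_lit 5) (nat_lit 43917) (nat_lit
  8) (node (nat_lit 7) (nat_lit 43917) (nat_lit 9) nil nil) (node (nat_lit 0) (nat_lit 43917)
  (nat_lit 8) nil nil))) (node (nat_lit 7) (nat_lit 0) (nat_lit 7) (node (nat_lit 4) (nat_lit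
  30677) (nat_lit 8) (node (nat_lit 5) (nat_lit 30049) (nat_lit 9) (node (nat_lit 4) (nat_lit
  23533) (nat_lit 10) nil nil) (node (nat_lit 8) (nat_lit 30677) (nat_lit 9) (node (nat_lit 7)
  (nat_lit 34861) (nat_lit 10) (node (nat_lit 4) (nat_lit 33625) (nat_lit 11) nil nil) (node
  (nat_lit 4) (nat_lit 34992) (nat_lit 10) nil nil)) nil)) (node (nat_lit 5) (nat_lit 44473)
  (nat_lit 8) nil (node (nat_lit 0) (nat_lit 43285) (nat_lit 8) nil nil))) (node (nat_lit 5)
  (nat_lit 47225) (nat_lit 7) (node (nat_lit 7) (nat_lit 47225) (nat_lit 8) (node (nat_lit 4)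
  (nat_lit 47225) (nat_lit 9) (node (nat_lit 5) (nat_lit 47832) (nat_lit 10) (node (nat_lit 4)
  (nat_lit 47832) (nat_lit 11) (node (nat_lit 7) (nat_lit 47832) (nat_lit 12) nil nil) nil) nil)
  nil) nil) (node (nat_lit 0) (nat_lit 46091) (nat_lit 7) (node (nat_lit 7) (nat_lit 46091)
  (nat_lit 8) nil nil) nil)))) (node (nat_lit 5) (nat_lit 47899) (nat_lit 6) (node (nat_lit 7)
  (nat_lit 47899) (nat_lit 7) (node (nat_lit 4) (nat_lit 47899) (nat_lit 8) nil nil) (node
  (nat_lit 8) (nat_lit 47899) (nat_lit 7) (node (nat_lit 7) (nat_lit 47899) (nat_lit 8) nil nil)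
  (node (nat_lit 4) (nat_lit 47899) (nat_lit 7) nil nil))) (node (nat_lit 7) (nat_lit 0) (nat_lit
  6) (node (nat_lit 4) (nat_lit 30662) (nat_lit 7) (node (nat_lit 7) (nat_lit 30662) (nat_lit 8)
  (node (nat_lit 8) (nat_lit 30662) (nat_lit 9) (node (nat_lit 4) (nat_lit 34592) (nat_lit 10) nil
  nil) (node (nat_lit 5) (nat_lit 41904) (nat_lit 9) nil nil)) (node (nat_lit 8) (nat_lit 30662)
  (nat_lit 8) nil (node (nat_lit 5) (nat_lit 29241) (nat_lit 8) nil nil))) (node (nat_lit 5)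
  (nat_lit 47467) (nat_lit 7) (node (nat_lit 7) (nat_lit 47467) (nat_lit 8) nil nil) (node
  (nat_lit 0) (nat_lit 45517) (nat_lit 7) (node (nat_lit 7) (nat_lit 45517) (nat_lit 8) (node
  (nat_lit 4) (nat_lit 45517) (nat_lit 9) nil nil) nil) nil))) (node (nat_lit 0) (nat_lit 48137)
  (nat_lit 6) (node (nat_lit 7) (nat_lit 48137) (nat_lit 7) (node (nat_lit 4) (nat_lit 48137)
  (nat_lit 8) nil nil) (node (nat_lit 8) (nat_lit 48137) (nat_lit 7) (node (nat_lit 7) (nat_lit
  48137) (nat_lit 8) nil nil) nil)) nil)))) nil)))) (node (nat_lit 0) (nat_lit 0) (nat_lit 4)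
  (node (nat_lit 3) (nat_lit 0) (nat_lit 5) (node (nat_lit 7) (nat_lit 47407) (nat_lit 6) (node
  (nat_lit 4) (nat_lit 47407) (nat_lit 7) (node (nat_lit 8) (nat_lit 47407) (nat_lit 8) nil nil)
  (node (nat_lit 5) (nat_lit 47750) (nat_lit 7) (node (nat_lit 8) (nat_lit 47750) (nat_lit 8) nil
  nil) nil)) (node (nat_lit 4) (nat_lit 42722) (nat_lit 6) (node (nat_lit 5) (nat_lit 45416)
  (nat_lit 7) nil (node (nat_lit 7) (nat_lit 46586) (nat_lit 7) nil nil)) (node (nat_lit 5)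
  (nat_lit 47930) (nat_lit 6) (node (nat_lit 7) (nat_lit 48273) (nat_lit 7) nil (node (nat_lit 4)
  (nat_lit 47930) (nat_lit 7) (node (nat_lit 5) (nat_lit 48532) (nat_lit 8) (node (nat_lit 8)
  (nat_lit 48532) (nat_lit 9) (node (nat_lit 4) (nat_lit 48532) (nat_lit 10) nil nil) nil) (node
  (nat_lit 8) (nat_lit 47930) (nat_lit 8) (node (nat_lit 4) (nat_lit 47930) (nat_lit 9) (node
  (nat_lit 5) (nat_lit 48880) (nat_lit 10) (node (nat_lit 4) (nat_lit 44424) (nat_lit 11) nil nil)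
  nil) nil) nil)) (node (nat_lit 8) (nat_lit 47930) (nat_lit 7) (node (nat_lit 4) (nat_lit 47930)
  (nat_lit 8) (node (nat_lit 5) (nat_lit 48727) (nat_lit 9) (node (nat_lit 4) (nat_lit 48727)
  (nat_lit 10) nil nil) nil) nil) nil))) (node (nat_lit 0) (nat_lit 46261) (nat_lit 6) (node
  (nat_lit 8) (nat_lit 46261) (nat_lit 7) nil (node (nat_lit 4) (nat_lit 46261) (nat_lit 7) (node
  (nat_lit 8) (nat_lit 46261) (nat_lit 8) nil nil) nil)) (node (nat_lit 2) (nat_lit 42526)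
  (nat_lit 6) (node (nat_lit 8) (nat_lit 43330) (nat_lit 7) (node (nat_lit 4) (nat_lit 39717)
  (nat_lit 8) nil nil) (node (nat_lit 4) (nat_lit 42526) (nat_lit 7) (node (nat_lit 8) (nat_lit
  42526) (nat_lit 8) nil nil) (node (nat_lit 5) (nat_lit 45416) (nat_lit 7) (node (nat_lit 8)
  (nat_lit 45416) (nat_lit 8) nil nil) nil))) nil))))) (node (nat_lit 5) (nat_lit 0) (nat_lit 5)
  (node (nat_lit 7) (nat_lit 49258) (nat_lit 6) (node (nat_lit 3) (nat_lit 49258) (nat_lit 7)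
  (node (nat_lit 4) (nat_lit 49258) (nat_lit 8) (node (nat_lit 5) (nat_lit 50020) (nat_lit 9)
  (node (nat_lit 4) (nat_lit 50020) (nat_lit 10) nil nil) nil) nil) nil) (node (nat_lit 3)
  (nat_lit 46179) (nat_lit 6) (node (nat_lit 4) (nat_lit 46179) (nat_lit 7) (node (nat_lit 5)
  (nat_lit 47493) (nat_lit 8) nil nil) nil) (node (nat_lit 4) (nat_lit 46652) (nat_lit 6) nil
  (node (nat_lit 0) (nat_lit 48921) (nat_lit 6) nil (node (nat_lit 2) (nat_lit 46608) (nat_lit 6)
  (node (nat_lit 5) (nat_lit 47677) (nat_lit 7) nil (node (nat_lit 4) (nat_lit 46608) (nat_lit 7)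
  nil nil)) nil))))) (node (nat_lit 4) (nat_lit 0) (nat_lit 5) (node (nat_lit 5) (nat_lit 48943)
  (nat_lit 6) nil (node (nat_lit 3) (nat_lit 42710) (nat_lit 6) (node (nat_lit 4) (nat_lit 43032)
  (nat_lit 7) (node (nat_lit 5) (nat_lit 41944) (nat_lit 8) nil nil) nil) (node (nat_lit 2)
  (nat_lit 42390) (nat_lit 6) (node (nat_lit 4) (nat_lit 43469) (nat_lit 7) nil nil) (node
  (nat_lit 0) (nat_lit 47351) (nat_lit 6) nil nil)))) (node (nat_lit 0) (nat_lit 46041) (nat_lit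
  5) (node (nat_lit 0) (nat_lit 48176) (nat_lit 6) nil (node (nat_lit 2) (nat_lit 46041) (nat_lit
  6) (node (nat_lit 7) (nat_lit 47110) (nat_lit 7) nil (node (nat_lit 5) (nat_lit 47110) (nat_lit
  7) nil (node (nat_lit 4) (nat_lit 46041) (nat_lit 7) nil (node (nat_lit 3) (nat_lit 46041)
  (nat_lit 7) (node (nat_lit 4) (nat_lit 46041) (nat_lit 8) nil nil) nil)))) (node (nat_lit 5)
  (nat_lit 48232) (nat_lit 6) nil (node (nat_lit 3) (nat_lit 46041) (nat_lit 6) (node (nat_lit 4)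
  (nat_lit 46041) (nat_lit 7) (node (nat_lit 5) (nat_lit 47355) (nat_lit 8) nil nil) nil) (node
  (nat_lit 7) (nat_lit 48525) (nat_lit 6) nil nil))))) (node (nat_lit 2) (nat_lit 0) (nat_lit 5)
  (node (nat_lit 0) (nat_lit 46261) (nat_lit 6) nil (node (nat_lit 5) (nat_lit 47147) (nat_lit 6)
  nil (node (nat_lit 3) (nat_lit 42686) (nat_lit 6) (node (nat_lit 4) (nat_lit 42686) (nat_lit 7)
  (node (nat_lit 5) (nat_lit 32998) (nat_lit 8) nil nil) nil) (node (nat_lit 4) (nat_lit 42717)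
  (nat_lit 6) nil (node (nat_lit 7) (nat_lit 47147) (nat_lit 6) nil nil))))) nil))))) (node
  (nat_lit 2) (nat_lit 0) (nat_lit 4) (node (nat_lit 3) (nat_lit 0) (nat_lit 5) (node (nat_lit 7)
  (nat_lit 0) (nat_lit 6) (node (nat_lit 4) (nat_lit 0) (nat_lit 7) (node (nat_lit 8) (nat_lit
  30678) (nat_lit 8) (node (nat_lit 4) (nat_lit 30678) (nat_lit 9) (node (nat_lit 5) (nat_lit
  35016) (nat_lit 10) (node (nat_lit 4) (nat_lit 27422) (nat_lit 11) nil nil) nil) (node (nat_lit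
  5) (nat_lit 44142) (nat_lit 9) nil nil)) (node (nat_lit 5) (nat_lit 43918) (nat_lit 8) nil (node
  (nat_lit 7) (nat_lit 30678) (nat_lit 8) (node (nat_lit 8) (nat_lit 30685) (nat_lit 9) (node
  (nat_lit 4) (nat_lit 35685) (nat_lit 10) nil nil) nil) (node (nat_lit 0) (nat_lit 43577)
  (nat_lit 8) nil nil)))) (node (nat_lit 5) (nat_lit 48594) (nat_lit 7) (node (nat_lit 8) (nat_lit
  48594) (nat_lit 8) (node (nat_lit 4) (nat_lit 48594) (nat_lit 9) (node (nat_lit 5) (nat_lit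
  49201) (nat_lit 10) nil nil) nil) nil) (node (nat_lit 0) (nat_lit 46359) (nat_lit 7) nil nil)))
  (node (nat_lit 4) (nat_lit 0) (nat_lit 6) (node (nat_lit 5) (nat_lit 21779) (nat_lit 7) nil
  (node (nat_lit 7) (nat_lit 0) (nat_lit 7) (node (nat_lit 4) (nat_lit 30683) (nat_lit 8) (node
  (nat_lit 8) (nat_lit 30680) (nat_lit 9) (node (nat_lit 5) (nat_lit 41018) (nat_lit 10) nil nil)
  (node (nat_lit 5) (nat_lit 40440) (nat_lit 9) nil nil)) (node (nat_lit 5) (nat_lit 38586)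
  (nat_lit 8) nil (node (nat_lit 0) (nat_lit 39296) (nat_lit 8) nil nil))) (node (nat_lit 8)
  (nat_lit 30703) (nat_lit 7) (node (nat_lit 5) (nat_lit 40289) (nat_lit 8) nil (node (nat_lit 7)
  (nat_lit 30703) (nat_lit 8) nil nil)) (node (nat_lit 0) (nat_lit 38683) (nat_lit 7) nil nil))))
  (node (nat_lit 5) (nat_lit 48020) (nat_lit 6) (node (nat_lit 7) (nat_lit 48020) (nat_lit 7) nil
  (node (nat_lit 4) (nat_lit 48020) (nat_lit 7) nil (node (nat_lit 8) (nat_lit 48020) (nat_lit 7)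
  (node (nat_lit 4) (nat_lit 48020) (nat_lit 8) (node (nat_lit 5) (nat_lit 48818) (nat_lit 9)
  (node (nat_lit 4) (nat_lit 48818) (nat_lit 10) nil nil) nil) nil) nil))) (node (nat_lit 0)
  (nat_lit 48381) (nat_lit 6) (node (nat_lit 8) (nat_lit 48381) (nat_lit 7) (node (nat_lit 4)
  (nat_lit 48381) (nat_lit 8) nil nil) nil) nil)))) (node (nat_lit 5) (nat_lit 0) (nat_lit 5)
  (node (nat_lit 7) (nat_lit 0) (nat_lit 6) (node (nat_lit 4) (nat_lit 46738) (nat_lit 7) (node
  (nat_lit 3) (nat_lit 47064) (nat_lit 8) (node (nat_lit 4) (nat_lit 46754) (nat_lit 9) (node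
  (nat_lit 5) (nat_lit 39997) (nat_lit 10) (node (nat_lit 4) (nat_lit 39997) (nat_lit 11) nil nil)
  nil) nil) (node (nat_lit 5) (nat_lit 51015) (nat_lit 8) nil (node (nat_lit 7) (nat_lit 47257)
  (nat_lit 8) nil nil))) (node (nat_lit 3) (nat_lit 46725) (nat_lit 7) (node (nat_lit 4) (nat_lit
  46725) (nat_lit 8) (node (nat_lit 5) (nat_lit 46220) (nat_lit 9) (node (nat_lit 4) (nat_lit
  32327) (nat_lit 10) nil nil) nil) nil) (node (nat_lit 0) (nat_lit 48966) (nat_lit 7) nil nil)))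
  (node (nat_lit 3) (nat_lit 46437) (nat_lit 6) (node (nat_lit 4) (nat_lit 46562) (nat_lit 7)
  (node (nat_lit 5) (nat_lit 48327) (nat_lit 8) (node (nat_lit 4) (nat_lit 48327) (nat_lit 9) nil
  nil) (node (nat_lit 7) (nat_lit 46562) (nat_lit 8) nil nil)) (node (nat_lit 7) (nat_lit 47257)
  (nat_lit 7) (node (nat_lit 4) (nat_lit 47257) (nat_lit 8) (node (nat_lit 9) (nat_lit 47257)
  (nat_lit 9) nil nil) (node (nat_lit 9) (nat_lit 47257) (nat_lit 8) (node (nat_lit 4) (nat_lit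
  47257) (nat_lit 9) (node (nat_lit 5) (nat_lit 48676) (nat_lit 10) (node (nat_lit 4) (nat_lit
  39534) (nat_lit 11) nil nil) nil) nil) (node (nat_lit 5) (nat_lit 48327) (nat_lit 8) nil nil)))
  (node (nat_lit 5) (nat_lit 49758) (nat_lit 7) (node (nat_lit 4) (nat_lit 49758) (nat_lit 8)
  (node (nat_lit 9) (nat_lit 49758) (nat_lit 9) nil nil) nil) nil))) (node (nat_lit 4) (nat_lit
  44998) (nat_lit 6) (node (nat_lit 3) (nat_lit 46980) (nat_lit 7) (node (nat_lit 4) (nat_lit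
  47257) (nat_lit 8) (node (nat_lit 5) (nat_lit 46636) (nat_lit 9) nil nil) nil) (node (nat_lit 5)
  (nat_lit 48772) (nat_lit 7) (node (nat_lit 7) (nat_lit 49908) (nat_lit 8) nil nil) nil)) (node
  (nat_lit 0) (nat_lit 48759) (nat_lit 6) (node (nat_lit 5) (nat_lit 49473) (nat_lit 7) nil nil)
  nil)))) (node (nat_lit 4) (nat_lit 0) (nat_lit 5) (node (nat_lit 5) (nat_lit 47028) (nat_lit 6)
  (node (nat_lit 3) (nat_lit 48943) (nat_lit 7) (node (nat_lit 4) (nat_lit 48943) (nat_lit 8)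
  (node (nat_lit 5) (nat_lit 49705) (nat_lit 9) (node (nat_lit 4) (nat_lit 49705) (nat_lit 10) nil
  nil) nil) nil) (node (nat_lit 7) (nat_lit 47636) (nat_lit 7) (node (nat_lit 5) (nat_lit 51474)
  (nat_lit 8) nil nil) nil)) (node (nat_lit 3) (nat_lit 0) (nat_lit 6) (node (nat_lit 7) (nat_lit
  30636) (nat_lit 7) (node (nat_lit 5) (nat_lit 43488) (nat_lit 8) nil (node (nat_lit 9) (nat_lit
  30636) (nat_lit 8) (node (nat_lit 4) (nat_lit 30636) (nat_lit 9) (node (nat_lit 5) (nat_lit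
  34629) (nat_lit 10) (node (nat_lit 4) (nat_lit 22574) (nat_lit 11) nil nil) nil) nil) (node
  (nat_lit 4) (nat_lit 30636) (nat_lit 8) nil nil))) (node (nat_lit 5) (nat_lit 46988) (nat_lit 7)
  (node (nat_lit 4) (nat_lit 46988) (nat_lit 8) (node (nat_lit 9) (nat_lit 46988) (nat_lit 9)
  (node (nat_lit 4) (nat_lit 46988) (nat_lit 10) (node (nat_lit 5) (nat_lit 47715) (nat_lit 11)
  nil nil) nil) nil) (node (nat_lit 9) (nat_lit 46988) (nat_lit 8) (node (nat_lit 4) (nat_lit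
  46988) (nat_lit 9) (node (nat_lit 5) (nat_lit 47596) (nat_lit 10) (node (nat_lit 4) (nat_lit
  47596) (nat_lit 11) nil nil) nil) nil) nil)) (node (nat_lit 4) (nat_lit 30636) (nat_lit 7) (node
  (nat_lit 5) (nat_lit 30949) (nat_lit 8) nil nil) (node (nat_lit 0) (nat_lit 43433) (nat_lit 7)
  nil nil)))) (node (nat_lit 0) (nat_lit 47651) (nat_lit 6) nil nil))) (node (nat_lit 0) (nat_lit
  45856) (nat_lit 5) (node (nat_lit 0) (nat_lit 48906) (nat_lit 6) nil (node (nat_lit 5) (nat_lit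
  48906) (nat_lit 6) nil (node (nat_lit 3) (nat_lit 45867) (nat_lit 6) (node (nat_lit 4) (nat_lit
  45867) (nat_lit 7) (node (nat_lit 5) (nat_lit 47181) (nat_lit 8) nil nil) nil) (node (nat_lit 7)
  (nat_lit 46109) (nat_lit 6) nil nil)))) nil)))) nil)))

noncomputable def t162 : Tr :=
  (node (nat_lit 4) (nat_lit 0) (nat_lit 6) (node (nat_lit 0) (nat_lit 0) (nat_lit 7) (node
  (nat_lit 5) (nat_lit 22608) (nat_lit 8) (node (nat_lit 4) (nat_lit 23303) (nat_lit 9) (node
  (nat_lit 5) (nat_lit 23979) (nat_lit 10) (node (nat_lit 10) (nat_lit 25772) (nat_lit 11) (node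
  (nat_lit 5) (nat_lit 25772) (nat_lit 12) (node (nat_lit 4) (nat_lit 25772) (nat_lit 13) nil nil)
  nil) (node (nat_lit 6) (nat_lit 25087) (nat_lit 11) nil (node (nat_lit 0) (nat_lit 25087)
  (nat_lit 11) (node (nat_lit 5) (nat_lit 25087) (nat_lit 12) nil nil) (node (nat_lit 2) (nat_lit
  24635) (nat_lit 11) (node (nat_lit 5) (nat_lit 23479) (nat_lit 12) (node (nat_lit 4) (nat_lit
  23048) (nat_lit 13) nil nil) nil) nil)))) (node (nat_lit 6) (nat_lit 25226) (nat_lit 10) (node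
  (nat_lit 5) (nat_lit 25226) (nat_lit 11) nil nil) (node (nat_lit 0) (nat_lit 25226) (nat_lit 10)
  (node (nat_lit 5) (nat_lit 25226) (nat_lit 11) (node (nat_lit 4) (nat_lit 25226) (nat_lit 12)
  nil nil) nil) (node (nat_lit 2) (nat_lit 23567) (nat_lit 10) (node (nat_lit 4) (nat_lit 24067)
  (nat_lit 11) nil (node (nat_lit 10) (nat_lit 24675) (nat_lit 11) (node (nat_lit 5) (nat_lit
  24675) (nat_lit 12) nil nil) (node (nat_lit 5) (nat_lit 24239) (nat_lit 11) (node (nat_lit 4)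
  (nat_lit 24561) (nat_lit 12) nil nil) (node (nat_lit 6) (nat_lit 24675) (nat_lit 11) nil nil))))
  nil)))) (node (nat_lit 10) (nat_lit 24594) (nat_lit 9) nil (node (nat_lit 6) (nat_lit 24594)
  (nat_lit 9) nil nil))) (node (nat_lit 4) (nat_lit 22654) (nat_lit 8) (node (nat_lit 5) (nat_lit
  23269) (nat_lit 9) (node (nat_lit 10) (nat_lit 25191) (nat_lit 10) (node (nat_lit 5) (nat_lit
  25191) (nat_lit 11) (node (nat_lit 4) (nat_lit 25191) (nat_lit 12) nil nil) nil) nil) nil) (node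
  (nat_lit 6) (nat_lit 23715) (nat_lit 8) (node (nat_lit 4) (nat_lit 23998) (nat_lit 9) nil (node
  (nat_lit 5) (nat_lit 23800) (nat_lit 9) (node (nat_lit 4) (nat_lit 23572) (nat_lit 10) nil nil)
  nil)) (node (nat_lit 0) (nat_lit 23664) (nat_lit 8) (node (nat_lit 5) (nat_lit 23664) (nat_lit
  9) (node (nat_lit 4) (nat_lit 23664) (nat_lit 10) nil nil) nil) (node (nat_lit 2) (nat_lit
  22730) (nat_lit 8) (node (nat_lit 4) (nat_lit 22873) (nat_lit 9) nil (node (nat_lit 5) (nat_lit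
  22852) (nat_lit 9) (node (nat_lit 4) (nat_lit 22852) (nat_lit 10) nil nil) (node (nat_lit 6)
  (nat_lit 24578) (nat_lit 9) nil nil))) nil))))) (node (nat_lit 2) (nat_lit 0) (nat_lit 7) (node
  (nat_lit 5) (nat_lit 0) (nat_lit 8) (node (nat_lit 4) (nat_lit 16576) (nat_lit 9) (node (nat_lit
  5) (nat_lit 16837) (nat_lit 10) (node (nat_lit 10) (nat_lit 18684) (nat_lit 11) (node (nat_lit
  4) (nat_lit 19508) (nat_lit 12) (node (nat_lit 10) (nat_lit 20009) (nat_lit 13) (node (nat_lit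
  5) (nat_lit 19313) (nat_lit 14) (node (nat_lit 4) (nat_lit 19202) (nat_lit 15) nil nil) nil)
  (node (nat_lit 5) (nat_lit 19708) (nat_lit 13) (node (nat_lit 4) (nat_lit 19841) (nat_lit 14)
  nil nil) (node (nat_lit 6) (nat_lit 20353) (nat_lit 13) (node (nat_lit 5) (nat_lit 20353)
  (nat_lit 14) nil nil) (node (nat_lit 0) (nat_lit 20353) (nat_lit 13) (node (nat_lit 5) (nat_lit
  20353) (nat_lit 14) nil nil) nil)))) (node (nat_lit 5) (nat_lit 19530) (nat_lit 12) (node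
  (nat_lit 4) (nat_lit 20063) (nat_lit 13) (node (nat_lit 10) (nat_lit 20197) (nat_lit 14) nil
  (node (nat_lit 6) (nat_lit 20494) (nat_lit 14) nil nil)) (node (nat_lit 6) (nat_lit 20373)
  (nat_lit 13) nil (node (nat_lit 0) (nat_lit 20036) (nat_lit 13) nil nil))) (node (nat_lit 6)
  (nat_lit 20199) (nat_lit 12) (node (nat_lit 5) (nat_lit 20199) (nat_lit 13) nil nil) (node
  (nat_lit 0) (nat_lit 20199) (nat_lit 12) (node (nat_lit 5) (nat_lit 20199) (nat_lit 13) nil nil)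
  nil)))) (node (nat_lit 6) (nat_lit 15291) (nat_lit 11) (node (nat_lit 10) (nat_lit 15291)
  (nat_lit 12) (node (nat_lit 6) (nat_lit 15602) (nat_lit 13) (node (nat_lit 5) (nat_lit 15602)
  (nat_lit 14) nil nil) (node (nat_lit 5) (nat_lit 15291) (nat_lit 13) nil (node (nat_lit 4)
  (nat_lit 15291) (nat_lit 13) nil nil))) (node (nat_lit 5) (nat_lit 15291) (nat_lit 12) (node
  (nat_lit 4) (nat_lit 15291) (nat_lit 13) nil (node (nat_lit 10) (nat_lit 15291) (nat_lit 13) nil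
  nil)) (node (nat_lit 0) (nat_lit 15620) (nat_lit 12) nil nil))) (node (nat_lit 0) (nat_lit
  19730) (nat_lit 11) (node (nat_lit 5) (nat_lit 19730) (nat_lit 12) (node (nat_lit 4) (nat_lit
  19730) (nat_lit 13) nil nil) (node (nat_lit 6) (nat_lit 20130) (nat_lit 12) (node (nat_lit 5)
  (nat_lit 20130) (nat_lit 13) nil nil) (node (nat_lit 10) (nat_lit 19730) (nat_lit 12) (node
  (nat_lit 5) (nat_lit 19730) (nat_lit 13) nil nil) (node (nat_lit 4) (nat_lit 19730) (nat_lit 12)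
  nil nil)))) nil))) (node (nat_lit 6) (nat_lit 19602) (nat_lit 10) (node (nat_lit 5) (nat_lit
  19361) (nat_lit 11) (node (nat_lit 6) (nat_lit 19615) (nat_lit 12) nil (node (nat_lit 4)
  (nat_lit 19361) (nat_lit 12) nil nil)) (node (nat_lit 10) (nat_lit 19602) (nat_lit 11) (node
  (nat_lit 5) (nat_lit 19602) (nat_lit 12) nil nil) (node (nat_lit 0) (nat_lit 19736) (nat_lit 11)
  nil nil))) (node (nat_lit 0) (nat_lit 19721) (nat_lit 10) (node (nat_lit 10) (nat_lit 19721)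
  (nat_lit 11) (node (nat_lit 5) (nat_lit 19721) (nat_lit 12) nil nil) (node (nat_lit 4) (nat_lit
  19721) (nat_lit 11) nil (node (nat_lit 5) (nat_lit 19721) (nat_lit 11) (node (nat_lit 4)
  (nat_lit 19721) (nat_lit 12) nil nil) (node (nat_lit 6) (nat_lit 19854) (nat_lit 11) nil nil))))
  nil))) (node (nat_lit 10) (nat_lit 16837) (nat_lit 9) (node (nat_lit 4) (nat_lit 16837) (nat_lit
  10) (node (nat_lit 10) (nat_lit 19528) (nat_lit 11) (node (nat_lit 5) (nat_lit 21059) (nat_lit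
  12) (node (nat_lit 4) (nat_lit 21363) (nat_lit 13) (node (nat_lit 5) (nat_lit 17104) (nat_lit
  14) nil nil) nil) nil) (node (nat_lit 5) (nat_lit 19511) (nat_lit 11) (node (nat_lit 10)
  (nat_lit 21080) (nat_lit 12) (node (nat_lit 5) (nat_lit 19156) (nat_lit 13) nil nil) nil) nil))
  (node (nat_lit 6) (nat_lit 22586) (nat_lit 10) nil nil)) (node (nat_lit 6) (nat_lit 21789)
  (nat_lit 9) nil (node (nat_lit 0) (nat_lit 21783) (nat_lit 9) nil nil)))) (node (nat_lit 4)
  (nat_lit 0) (nat_lit 8) (node (nat_lit 5) (nat_lit 16837) (nat_lit 9) (node (nat_lit 10)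
  (nat_lit 16837) (nat_lit 10) (node (nat_lit 5) (nat_lit 18490) (nat_lit 11) (node (nat_lit 4)
  (nat_lit 19362) (nat_lit 12) (node (nat_lit 10) (nat_lit 19773) (nat_lit 13) nil nil) nil) (node
  (nat_lit 4) (nat_lit 19186) (nat_lit 11) nil nil)) (node (nat_lit 6) (nat_lit 23803) (nat_lit
  10) nil (node (nat_lit 0) (nat_lit 23702) (nat_lit 10) nil nil))) (node (nat_lit 6) (nat_lit
  23990) (nat_lit 9) (node (nat_lit 5) (nat_lit 23990) (nat_lit 10) nil nil) (node (nat_lit 0)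
  (nat_lit 24145) (nat_lit 9) nil nil))) (node (nat_lit 6) (nat_lit 23075) (nat_lit 8) (node
  (nat_lit 4) (nat_lit 23439) (nat_lit 9) (node (nat_lit 5) (nat_lit 23439) (nat_lit 10) nil nil)
  (node (nat_lit 5) (nat_lit 23478) (nat_lit 9) (node (nat_lit 4) (nat_lit 23251) (nat_lit 10) nil
  nil) nil)) (node (nat_lit 0) (nat_lit 22988) (nat_lit 8) (node (nat_lit 4) (nat_lit 22834)
  (nat_lit 9) nil (node (nat_lit 5) (nat_lit 22821) (nat_lit 9) (node (nat_lit 4) (nat_lit 22821)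
  (nat_lit 10) nil nil) (node (nat_lit 6) (nat_lit 24059) (nat_lit 9) nil nil))) nil)))) (node
  (nat_lit 6) (nat_lit 0) (nat_lit 7) (node (nat_lit 5) (nat_lit 0) (nat_lit 8) (node (nat_lit 4)
  (nat_lit 22319) (nat_lit 9) (node (nat_lit 5) (nat_lit 23025) (nat_lit 10) nil nil) (node
  (nat_lit 0) (nat_lit 24235) (nat_lit 9) nil (node (nat_lit 2) (nat_lit 22585) (nat_lit 9) nil
  nil))) (node (nat_lit 0) (nat_lit 23850) (nat_lit 8) (node (nat_lit 5) (nat_lit 24210) (nat_lit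
  9) nil nil) (node (nat_lit 2) (nat_lit 22933) (nat_lit 8) (node (nat_lit 5) (nat_lit 23668)
  (nat_lit 9) nil nil) (node (nat_lit 4) (nat_lit 0) (nat_lit 8) (node (nat_lit 5) (nat_lit 22597)
  (nat_lit 9) (node (nat_lit 6) (nat_lit 25080) (nat_lit 10) nil nil) (node (nat_lit 0) (nat_lit
  24235) (nat_lit 9) nil (node (nat_lit 2) (nat_lit 22707) (nat_lit 9) nil nil))) nil)))) nil)))
  (node (nat_lit 0) (nat_lit 0) (nat_lit 6) (node (nat_lit 5) (nat_lit 0) (nat_lit 7) (node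
  (nat_lit 4) (nat_lit 21421) (nat_lit 8) (node (nat_lit 9) (nat_lit 24387) (nat_lit 9) nil (node
  (nat_lit 5) (nat_lit 21127) (nat_lit 9) (node (nat_lit 9) (nat_lit 22892) (nat_lit 10) nil nil)
  (node (nat_lit 6) (nat_lit 23762) (nat_lit 9) (node (nat_lit 5) (nat_lit 23762) (nat_lit 10)
  (node (nat_lit 4) (nat_lit 23762) (nat_lit 11) (node (nat_lit 5) (nat_lit 23762) (nat_lit 12)
  (node (nat_lit 6) (nat_lit 24269) (nat_lit 13) nil nil) nil) nil) nil) (node (nat_lit 0)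
  (nat_lit 23762) (nat_lit 9) (node (nat_lit 5) (nat_lit 23762) (nat_lit 10) nil nil) (node
  (nat_lit 2) (nat_lit 21749) (nat_lit 9) (node (nat_lit 5) (nat_lit 22539) (nat_lit 10) nil nil)
  nil))))) (node (nat_lit 6) (nat_lit 23549) (nat_lit 8) (node (nat_lit 9) (nat_lit 24043)
  (nat_lit 9) (node (nat_lit 5) (nat_lit 24043) (nat_lit 10) nil (node (nat_lit 6) (nat_lit 24196)
  (nat_lit 10) (node (nat_lit 5) (nat_lit 24196) (nat_lit 11) nil nil) nil)) (node (nat_lit 5)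
  (nat_lit 23549) (nat_lit 9) (node (nat_lit 4) (nat_lit 23549) (nat_lit 10) nil nil) (node
  (nat_lit 4) (nat_lit 23549) (nat_lit 9) nil nil))) (node (nat_lit 0) (nat_lit 23290) (nat_lit 8)
  (node (nat_lit 9) (nat_lit 23612) (nat_lit 9) (node (nat_lit 5) (nat_lit 23612) (nat_lit 10)
  (node (nat_lit 4) (nat_lit 23612) (nat_lit 11) nil nil) nil) (node (nat_lit 5) (nat_lit 23290)
  (nat_lit 9) (node (nat_lit 4) (nat_lit 23290) (nat_lit 10) nil nil) nil)) (node (nat_lit 2)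
  (nat_lit 21339) (nat_lit 8) (node (nat_lit 9) (nat_lit 24306) (nat_lit 9) (node (nat_lit 5)
  (nat_lit 24306) (nat_lit 10) (node (nat_lit 4) (nat_lit 24306) (nat_lit 11) nil nil) nil) (node
  (nat_lit 5) (nat_lit 22000) (nat_lit 9) (node (nat_lit 9) (nat_lit 23765) (nat_lit 10) nil (node
  (nat_lit 4) (nat_lit 22484) (nat_lit 10) nil (node (nat_lit 6) (nat_lit 23765) (nat_lit 10) nil
  nil))) (node (nat_lit 4) (nat_lit 20269) (nat_lit 9) nil (node (nat_lit 6) (nat_lit 23681)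
  (nat_lit 9) (node (nat_lit 5) (nat_lit 23681) (nat_lit 10) nil nil) (node (nat_lit 0) (nat_lit
  23681) (nat_lit 9) (node (nat_lit 5) (nat_lit 23681) (nat_lit 10) nil nil) nil))))) nil))))
  (node (nat_lit 4) (nat_lit 0) (nat_lit 7) (node (nat_lit 9) (nat_lit 23581) (nat_lit 8) (node
  (nat_lit 5) (nat_lit 23581) (nat_lit 9) (node (nat_lit 4) (nat_lit 23581) (nat_lit 10) (node
  (nat_lit 5) (nat_lit 23581) (nat_lit 11) nil nil) nil) nil) (node (nat_lit 6) (nat_lit 23581)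
  (nat_lit 8) nil (node (nat_lit 5) (nat_lit 21661) (nat_lit 8) nil (node (nat_lit 0) (nat_lit
  22104) (nat_lit 8) nil (node (nat_lit 2) (nat_lit 20813) (nat_lit 8) nil nil))))) (node (nat_lit
  6) (nat_lit 22177) (nat_lit 7) (node (nat_lit 4) (nat_lit 22589) (nat_lit 8) nil (node (nat_lit
  5) (nat_lit 22593) (nat_lit 8) (node (nat_lit 4) (nat_lit 22593) (nat_lit 9) (node (nat_lit 5)
  (nat_lit 22593) (nat_lit 10) nil nil) nil) (node (nat_lit 9) (nat_lit 23535) (nat_lit 8) (node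
  (nat_lit 5) (nat_lit 23535) (nat_lit 9) nil nil) nil))) (node (nat_lit 0) (nat_lit 21926)
  (nat_lit 7) (node (nat_lit 5) (nat_lit 21606) (nat_lit 8) (node (nat_lit 9) (nat_lit 22428)
  (nat_lit 9) (node (nat_lit 5) (nat_lit 22428) (nat_lit 10) nil nil) nil) (node (nat_lit 9)
  (nat_lit 23139) (nat_lit 8) (node (nat_lit 5) (nat_lit 23139) (nat_lit 9) nil nil) (node
  (nat_lit 4) (nat_lit 21926) (nat_lit 8) nil nil))) (node (nat_lit 2) (nat_lit 20838) (nat_lit 7)
  (node (nat_lit 5) (nat_lit 21311) (nat_lit 8) (node (nat_lit 9) (nat_lit 22923) (nat_lit 9)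
  (node (nat_lit 5) (nat_lit 22923) (nat_lit 10) nil nil) nil) (node (nat_lit 9) (nat_lit 23606)
  (nat_lit 8) (node (nat_lit 5) (nat_lit 23606) (nat_lit 9) nil nil) (node (nat_lit 4) (nat_lit
  20251) (nat_lit 8) nil (node (nat_lit 6) (nat_lit 23453) (nat_lit 8) nil nil)))) nil))))) (node
  (nat_lit 2) (nat_lit 0) (nat_lit 6) (node (nat_lit 5) (nat_lit 0) (nat_lit 7) (node (nat_lit 4)
  (nat_lit 16843) (nat_lit 8) (node (nat_lit 9) (nat_lit 16843) (nat_lit 9) (node (nat_lit 5)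
  (nat_lit 16843) (nat_lit 10) (node (nat_lit 9) (nat_lit 18733) (nat_lit 11) (node (nat_lit 4)
  (nat_lit 19403) (nat_lit 12) (node (nat_lit 5) (nat_lit 19236) (nat_lit 13) nil (node (nat_lit
  9) (nat_lit 18489) (nat_lit 13) nil (node (nat_lit 6) (nat_lit 20900) (nat_lit 13) nil nil)))
  (node (nat_lit 6) (nat_lit 21985) (nat_lit 12) nil (node (nat_lit 0) (nat_lit 20694) (nat_lit
  12) nil nil))) (node (nat_lit 6) (nat_lit 22975) (nat_lit 11) (node (nat_lit 5) (nat_lit 22975)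
  (nat_lit 12) nil nil) (node (nat_lit 0) (nat_lit 22975) (nat_lit 11) (node (nat_lit 5) (nat_lit
  22975) (nat_lit 12) nil nil) nil))) (node (nat_lit 4) (nat_lit 16843) (nat_lit 10) (node
  (nat_lit 5) (nat_lit 18862) (nat_lit 11) (node (nat_lit 9) (nat_lit 17660) (nat_lit 12) nil nil)
  (node (nat_lit 6) (nat_lit 21074) (nat_lit 11) nil nil)) (node (nat_lit 6) (nat_lit 22712)
  (nat_lit 10) nil (node (nat_lit 0) (nat_lit 20896) (nat_lit 10) nil nil)))) (node (nat_lit 5)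
  (nat_lit 0) (nat_lit 9) (node (nat_lit 9) (nat_lit 0) (nat_lit 10) (node (nat_lit 4) (nat_lit
  4207) (nat_lit 11) (node (nat_lit 9) (nat_lit 0) (nat_lit 12) (node (nat_lit 5) (nat_lit 2997)
  (nat_lit 13) (node (nat_lit 4) (nat_lit 2826) (nat_lit 14) (node (nat_lit 5) (nat_lit 2112)
  (nat_lit 15) (node (nat_lit 6) (nat_lit 1260) (nat_lit 16) nil nil) nil) nil) nil) (node
  (nat_lit 5) (nat_lit 4659) (nat_lit 12) (node (nat_lit 4) (nat_lit 5029) (nat_lit 13) nil nil)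
  nil)) nil) nil) (node (nat_lit 6) (nat_lit 23822) (nat_lit 9) (node (nat_lit 5) (nat_lit 23822)
  (nat_lit 10) (node (nat_lit 4) (nat_lit 23822) (nat_lit 11) (node (nat_lit 5) (nat_lit 23822)
  (nat_lit 12) (node (nat_lit 6) (nat_lit 24328) (nat_lit 13) (node (nat_lit 4) (nat_lit 24328)
  (nat_lit 14) nil nil) nil) nil) nil) nil) (node (nat_lit 0) (nat_lit 23092) (nat_lit 9) (node
  (nat_lit 5) (nat_lit 23092) (nat_lit 10) nil nil) nil)))) (node (nat_lit 6) (nat_lit 23236)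
  (nat_lit 8) (node (nat_lit 9) (nat_lit 23236) (nat_lit 9) (node (nat_lit 5) (nat_lit 23236)
  (nat_lit 10) nil (node (nat_lit 6) (nat_lit 23910) (nat_lit 10) (node (nat_lit 5) (nat_lit
  23910) (nat_lit 11) nil nil) nil)) (node (nat_lit 5) (nat_lit 23236) (nat_lit 9) (node (nat_lit
  9) (nat_lit 23236) (nat_lit 10) nil (node (nat_lit 4) (nat_lit 23236) (nat_lit 10) nil nil))
  (node (nat_lit 4) (nat_lit 23236) (nat_lit 9) nil (node (nat_lit 0) (nat_lit 23881) (nat_lit 9)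
  (node (nat_lit 5) (nat_lit 23881) (nat_lit 10) nil nil) nil)))) (node (nat_lit 0) (nat_lit
  23236) (nat_lit 8) (node (nat_lit 9) (nat_lit 23236) (nat_lit 9) (node (nat_lit 5) (nat_lit
  23236) (nat_lit 10) (node (nat_lit 4) (nat_lit 23559) (nat_lit 11) nil nil) nil) (node (nat_lit
  5) (nat_lit 23236) (nat_lit 9) (node (nat_lit 4) (nat_lit 23236) (nat_lit 10) nil nil) nil))
  nil))) (node (nat_lit 4) (nat_lit 0) (nat_lit 7) (node (nat_lit 9) (nat_lit 16843) (nat_lit 8)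
  (node (nat_lit 5) (nat_lit 16843) (nat_lit 9) (node (nat_lit 9) (nat_lit 16852) (nat_lit 10)
  (node (nat_lit 4) (nat_lit 19976) (nat_lit 11) (node (nat_lit 5) (nat_lit 21689) (nat_lit 12)
  (node (nat_lit 9) (nat_lit 22171) (nat_lit 13) (node (nat_lit 5) (nat_lit 20777) (nat_lit 14)
  nil nil) (node (nat_lit 4) (nat_lit 21522) (nat_lit 13) nil (node (nat_lit 6) (nat_lit 23163)
  (nat_lit 13) nil nil))) (node (nat_lit 6) (nat_lit 23064) (nat_lit 12) (node (nat_lit 5)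
  (nat_lit 23064) (nat_lit 13) nil nil) (node (nat_lit 0) (nat_lit 21936) (nat_lit 12) nil nil)))
  nil) (node (nat_lit 4) (nat_lit 16402) (nat_lit 10) (node (nat_lit 5) (nat_lit 12743) (nat_lit
  11) nil nil) nil)) nil) (node (nat_lit 6) (nat_lit 23823) (nat_lit 8) (node (nat_lit 5) (nat_lit
  23911) (nat_lit 9) (node (nat_lit 4) (nat_lit 23683) (nat_lit 10) nil nil) nil) (node (nat_lit
  5) (nat_lit 16843) (nat_lit 8) (node (nat_lit 4) (nat_lit 16843) (nat_lit 9) (node (nat_lit 9)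
  (nat_lit 16843) (nat_lit 10) (node (nat_lit 5) (nat_lit 17960) (nat_lit 11) (node (nat_lit 9)
  (nat_lit 18488) (nat_lit 12) nil nil) nil) (node (nat_lit 6) (nat_lit 22495) (nat_lit 10) nil
  nil)) (node (nat_lit 6) (nat_lit 23836) (nat_lit 9) nil nil)) (node (nat_lit 0) (nat_lit 23361)
  (nat_lit 8) (node (nat_lit 5) (nat_lit 23361) (nat_lit 9) nil nil) nil)))) (node (nat_lit 6)
  (nat_lit 22346) (nat_lit 7) (node (nat_lit 4) (nat_lit 22808) (nat_lit 8) (node (nat_lit 6)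
  (nat_lit 23630) (nat_lit 9) (node (nat_lit 5) (nat_lit 23630) (nat_lit 10) nil nil) nil) (node
  (nat_lit 5) (nat_lit 22808) (nat_lit 8) (node (nat_lit 4) (nat_lit 23360) (nat_lit 9) (node
  (nat_lit 5) (nat_lit 23360) (nat_lit 10) nil nil) nil) (node (nat_lit 9) (nat_lit 22808)
  (nat_lit 8) (node (nat_lit 5) (nat_lit 22829) (nat_lit 9) nil nil) nil))) (node (nat_lit 0)
  (nat_lit 22181) (nat_lit 7) (node (nat_lit 5) (nat_lit 22217) (nat_lit 8) (node (nat_lit 9)
  (nat_lit 22217) (nat_lit 9) (node (nat_lit 5) (nat_lit 22217) (nat_lit 10) nil nil) nil) (node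
  (nat_lit 9) (nat_lit 22642) (nat_lit 8) (node (nat_lit 5) (nat_lit 22974) (nat_lit 9) nil nil)
  nil)) nil)))) nil)))

noncomputable def t163 : Tr :=
  (node (nat_lit 0) (nat_lit 0) (nat_lit 5) (node (nat_lit 6) (nat_lit 0) (nat_lit 6) (node
  (nat_lit 8) (nat_lit 84410) (nat_lit 7) (node (nat_lit 4) (nat_lit 86764) (nat_lit 8) nil (node
  (nat_lit 5) (nat_lit 86764) (nat_lit 8) (node (nat_lit 4) (nat_lit 85303) (nat_lit 9) nil nil)
  nil)) (node (nat_lit 4) (nat_lit 81600) (nat_lit 7) (node (nat_lit 6) (nat_lit 83954) (nat_lit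
  8) nil (node (nat_lit 5) (nat_lit 83954) (nat_lit 8) (node (nat_lit 6) (nat_lit 85583) (nat_lit
  9) (node (nat_lit 4) (nat_lit 86819) (nat_lit 10) nil nil) nil) nil)) (node (nat_lit 5) (nat_lit
  84875) (nat_lit 7) (node (nat_lit 4) (nat_lit 87229) (nat_lit 8) (node (nat_lit 6) (nat_lit
  88858) (nat_lit 9) nil (node (nat_lit 5) (nat_lit 88858) (nat_lit 9) (node (nat_lit 6) (nat_lit
  90095) (nat_lit 10) (node (nat_lit 4) (nat_lit 91186) (nat_lit 11) nil nil) nil) nil)) (node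
  (nat_lit 6) (nat_lit 87229) (nat_lit 8) nil nil)) (node (nat_lit 2) (nat_lit 79249) (nat_lit 7)
  (node (nat_lit 6) (nat_lit 74195) (nat_lit 8) nil (node (nat_lit 4) (nat_lit 77646) (nat_lit 8)
  nil nil)) (node (nat_lit 0) (nat_lit 83641) (nat_lit 7) (node (nat_lit 6) (nat_lit 85995)
  (nat_lit 8) nil nil) nil))))) (node (nat_lit 5) (nat_lit 0) (nat_lit 6) (node (nat_lit 4)
  (nat_lit 81767) (nat_lit 7) (node (nat_lit 5) (nat_lit 84121) (nat_lit 8) (node (nat_lit 6)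
  (nat_lit 85750) (nat_lit 9) (node (nat_lit 4) (nat_lit 86986) (nat_lit 10) nil nil) nil) (node
  (nat_lit 8) (nat_lit 84121) (nat_lit 8) nil (node (nat_lit 6) (nat_lit 84121) (nat_lit 8) nil
  nil))) (node (nat_lit 8) (nat_lit 85592) (nat_lit 7) (node (nat_lit 4) (nat_lit 87946) (nat_lit
  8) nil (node (nat_lit 6) (nat_lit 87946) (nat_lit 8) (node (nat_lit 5) (nat_lit 89575) (nat_lit
  9) (node (nat_lit 4) (nat_lit 88323) (nat_lit 10) nil nil) (node (nat_lit 4) (nat_lit 89575)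
  (nat_lit 9) nil nil)) nil)) (node (nat_lit 6) (nat_lit 83810) (nat_lit 7) (node (nat_lit 5)
  (nat_lit 86164) (nat_lit 8) (node (nat_lit 4) (nat_lit 84703) (nat_lit 9) (node (nat_lit 6)
  (nat_lit 85071) (nat_lit 10) (node (nat_lit 4) (nat_lit 84286) (nat_lit 11) nil nil) nil) nil)
  (node (nat_lit 4) (nat_lit 86164) (nat_lit 8) (node (nat_lit 6) (nat_lit 87792) (nat_lit 9)
  (node (nat_lit 5) (nat_lit 89029) (nat_lit 10) nil nil) nil) (node (nat_lit 8) (nat_lit 86164)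
  (nat_lit 8) nil nil))) (node (nat_lit 0) (nat_lit 83757) (nat_lit 7) nil (node (nat_lit 2)
  (nat_lit 84526) (nat_lit 7) (node (nat_lit 5) (nat_lit 79472) (nat_lit 8) nil (node (nat_lit 6)
  (nat_lit 79472) (nat_lit 8) nil (node (nat_lit 4) (nat_lit 82923) (nat_lit 8) nil nil)))
  nil))))) (node (nat_lit 4) (nat_lit 0) (nat_lit 6) (node (nat_lit 6) (nat_lit 80777) (nat_lit 7)
  (node (nat_lit 4) (nat_lit 83131) (nat_lit 8) (node (nat_lit 5) (nat_lit 80993) (nat_lit 9)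
  (node (nat_lit 6) (nat_lit 53661) (nat_lit 10) nil nil) nil) nil) (node (nat_lit 5) (nat_lit
  84482) (nat_lit 7) (node (nat_lit 4) (nat_lit 86836) (nat_lit 8) (node (nat_lit 6) (nat_lit
  88465) (nat_lit 9) (node (nat_lit 4) (nat_lit 89701) (nat_lit 10) nil nil) nil) (node (nat_lit
  6) (nat_lit 86836) (nat_lit 8) nil (node (nat_lit 8) (nat_lit 86836) (nat_lit 8) nil nil)))
  (node (nat_lit 0) (nat_lit 84239) (nat_lit 7) (node (nat_lit 4) (nat_lit 82636) (nat_lit 8)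
  (node (nat_lit 6) (nat_lit 82943) (nat_lit 9) nil nil) (node (nat_lit 6) (nat_lit 86593)
  (nat_lit 8) nil (node (nat_lit 5) (nat_lit 86593) (nat_lit 8) nil nil))) (node (nat_lit 2)
  (nat_lit 83314) (nat_lit 7) (node (nat_lit 4) (nat_lit 86201) (nat_lit 8) (node (nat_lit 6)
  (nat_lit 82551) (nat_lit 9) nil nil) (node (nat_lit 5) (nat_lit 81352) (nat_lit 8) nil (node
  (nat_lit 6) (nat_lit 85212) (nat_lit 8) nil nil))) nil)))) (node (nat_lit 0) (nat_lit 0)
  (nat_lit 6) (node (nat_lit 4) (nat_lit 83921) (nat_lit 7) (node (nat_lit 6) (nat_lit 86275)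
  (nat_lit 8) nil nil) (node (nat_lit 8) (nat_lit 85047) (nat_lit 7) (node (nat_lit 4) (nat_lit
  87401) (nat_lit 8) (node (nat_lit 9) (nat_lit 89030) (nat_lit 9) nil nil) (node (nat_lit 5)
  (nat_lit 87401) (nat_lit 8) (node (nat_lit 4) (nat_lit 85941) (nat_lit 9) nil nil) (node
  (nat_lit 6) (nat_lit 87401) (nat_lit 8) (node (nat_lit 4) (nat_lit 89030) (nat_lit 9) nil nil)
  nil))) (node (nat_lit 6) (nat_lit 83921) (nat_lit 7) (node (nat_lit 5) (nat_lit 86275) (nat_lit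
  8) nil (node (nat_lit 4) (nat_lit 86275) (nat_lit 8) nil nil)) (node (nat_lit 5) (nat_lit 85047)
  (nat_lit 7) (node (nat_lit 4) (nat_lit 83444) (nat_lit 8) (node (nat_lit 5) (nat_lit 85073)
  (nat_lit 9) nil nil) nil) (node (nat_lit 0) (nat_lit 83921) (nat_lit 7) nil (node (nat_lit 2)
  (nat_lit 73602) (nat_lit 7) nil nil)))))) (node (nat_lit 2) (nat_lit 0) (nat_lit 6) (node
  (nat_lit 4) (nat_lit 83095) (nat_lit 7) (node (nat_lit 9) (nat_lit 82826) (nat_lit 8) (node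
  (nat_lit 8) (nat_lit 84454) (nat_lit 9) nil nil) (node (nat_lit 6) (nat_lit 83990) (nat_lit 8)
  (node (nat_lit 4) (nat_lit 74553) (nat_lit 9) nil nil) (node (nat_lit 5) (nat_lit 85449)
  (nat_lit 8) nil nil))) (node (nat_lit 8) (nat_lit 84553) (nat_lit 7) (node (nat_lit 4) (nat_lit
  86907) (nat_lit 8) (node (nat_lit 9) (nat_lit 82496) (nat_lit 9) nil (node (nat_lit 6) (nat_lit
  83257) (nat_lit 9) nil nil)) (node (nat_lit 5) (nat_lit 86907) (nat_lit 8) (node (nat_lit 4)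
  (nat_lit 85447) (nat_lit 9) nil nil) (node (nat_lit 6) (nat_lit 86907) (nat_lit 8) (node
  (nat_lit 4) (nat_lit 88536) (nat_lit 9) nil nil) nil))) (node (nat_lit 6) (nat_lit 80702)
  (nat_lit 7) (node (nat_lit 5) (nat_lit 83057) (nat_lit 8) nil (node (nat_lit 4) (nat_lit 81119)
  (nat_lit 8) nil nil)) (node (nat_lit 5) (nat_lit 84553) (nat_lit 7) (node (nat_lit 4) (nat_lit
  81650) (nat_lit 8) (node (nat_lit 5) (nat_lit 76269) (nat_lit 9) nil nil) nil) (node (nat_lit 0)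
  (nat_lit 82880) (nat_lit 7) nil nil))))) nil))))) (node (nat_lit 6) (nat_lit 0) (nat_lit 5)
  (node (nat_lit 5) (nat_lit 0) (nat_lit 6) (node (nat_lit 0) (nat_lit 83897) (nat_lit 7) (node
  (nat_lit 6) (nat_lit 87523) (nat_lit 8) nil (node (nat_lit 4) (nat_lit 87523) (nat_lit 8) nil
  nil)) (node (nat_lit 2) (nat_lit 83158) (nat_lit 7) (node (nat_lit 6) (nat_lit 88282) (nat_lit
  8) (node (nat_lit 5) (nat_lit 90962) (nat_lit 9) nil nil) (node (nat_lit 4) (nat_lit 88180)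
  (nat_lit 8) nil (node (nat_lit 5) (nat_lit 89624) (nat_lit 8) nil nil))) (node (nat_lit 4)
  (nat_lit 0) (nat_lit 7) (node (nat_lit 6) (nat_lit 75866) (nat_lit 8) (node (nat_lit 4) (nat_lit
  80617) (nat_lit 9) (node (nat_lit 5) (nat_lit 84726) (nat_lit 10) (node (nat_lit 6) (nat_lit
  86973) (nat_lit 11) (node (nat_lit 4) (nat_lit 88726) (nat_lit 12) (node (nat_lit 6) (nat_lit
  74043) (nat_lit 13) (node (nat_lit 5) (nat_lit 53243) (nat_lit 14) nil nil) nil) nil) nil) nil)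
  nil) (node (nat_lit 5) (nat_lit 77521) (nat_lit 8) (node (nat_lit 6) (nat_lit 83319) (nat_lit 9)
  (node (nat_lit 4) (nat_lit 86200) (nat_lit 10) nil nil) nil) (node (nat_lit 2) (nat_lit 87725)
  (nat_lit 8) nil (node (nat_lit 0) (nat_lit 89143) (nat_lit 8) nil nil)))) (node (nat_lit 6)
  (nat_lit 0) (nat_lit 7) (node (nat_lit 4) (nat_lit 0) (nat_lit 8) (node (nat_lit 5) (nat_lit
  84133) (nat_lit 9) (node (nat_lit 4) (nat_lit 88287) (nat_lit 10) nil (node (nat_lit 6) (nat_lit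
  88029) (nat_lit 10) nil nil)) (node (nat_lit 2) (nat_lit 83505) (nat_lit 9) nil (node (nat_lit
  0) (nat_lit 85271) (nat_lit 9) nil nil))) (node (nat_lit 0) (nat_lit 89517) (nat_lit 8) (node
  (nat_lit 4) (nat_lit 91336) (nat_lit 9) nil (node (nat_lit 5) (nat_lit 91652) (nat_lit 9) nil
  nil)) (node (nat_lit 2) (nat_lit 88041) (nat_lit 8) (node (nat_lit 4) (nat_lit 89884) (nat_lit
  9) nil (node (nat_lit 5) (nat_lit 89621) (nat_lit 9) nil (node (nat_lit 6) (nat_lit 89884)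
  (nat_lit 9) nil nil))) nil))) nil)))) (node (nat_lit 0) (nat_lit 0) (nat_lit 6) (node (nat_lit
  6) (nat_lit 0) (nat_lit 7) (node (nat_lit 4) (nat_lit 86562) (nat_lit 8) (node (nat_lit 5)
  (nat_lit 88404) (nat_lit 9) (node (nat_lit 6) (nat_lit 89641) (nat_lit 10) (node (nat_lit 4)
  (nat_lit 90732) (nat_lit 11) (node (nat_lit 6) (nat_lit 91720) (nat_lit 12) nil nil) nil) nil)
  nil) (node (nat_lit 5) (nat_lit 87187) (nat_lit 8) (node (nat_lit 4) (nat_lit 89030) (nat_lit 9)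
  nil nil) (node (nat_lit 2) (nat_lit 82781) (nat_lit 8) nil (node (nat_lit 0) (nat_lit 86562)
  (nat_lit 8) nil nil)))) (node (nat_lit 4) (nat_lit 81407) (nat_lit 7) (node (nat_lit 9) (nat_lit
  87593) (nat_lit 8) nil (node (nat_lit 6) (nat_lit 86435) (nat_lit 8) nil nil)) (node (nat_lit 5)
  (nat_lit 81137) (nat_lit 7) (node (nat_lit 4) (nat_lit 84704) (nat_lit 8) (node (nat_lit 5)
  (nat_lit 86547) (nat_lit 9) (node (nat_lit 6) (nat_lit 87784) (nat_lit 10) (node (nat_lit 4)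
  (nat_lit 88875) (nat_lit 11) nil nil) nil) nil) nil) (node (nat_lit 0) (nat_lit 82814) (nat_lit
  7) (node (nat_lit 6) (nat_lit 87842) (nat_lit 8) nil (node (nat_lit 5) (nat_lit 87842) (nat_lit
  8) nil (node (nat_lit 4) (nat_lit 87842) (nat_lit 8) nil nil))) (node (nat_lit 2) (nat_lit
  81511) (nat_lit 7) (node (nat_lit 6) (nat_lit 86539) (nat_lit 8) nil (node (nat_lit 5) (nat_lit
  87697) (nat_lit 8) nil (node (nat_lit 4) (nat_lit 85080) (nat_lit 8) nil nil))) nil))))) (node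
  (nat_lit 2) (nat_lit 0) (nat_lit 6) (node (nat_lit 6) (nat_lit 0) (nat_lit 7) (node (nat_lit 4)
  (nat_lit 67236) (nat_lit 8) (node (nat_lit 5) (nat_lit 73198) (nat_lit 9) (node (nat_lit 6)
  (nat_lit 59230) (nat_lit 10) (node (nat_lit 4) (nat_lit 44741) (nat_lit 11) nil nil) nil) (node
  (nat_lit 9) (nat_lit 69079) (nat_lit 9) (node (nat_lit 4) (nat_lit 72035) (nat_lit 10) (node
  (nat_lit 6) (nat_lit 70037) (nat_lit 11) nil nil) (node (nat_lit 6) (nat_lit 72521) (nat_lit 10)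
  nil nil)) (node (nat_lit 6) (nat_lit 69079) (nat_lit 9) (node (nat_lit 5) (nat_lit 75466)
  (nat_lit 10) nil nil) (node (nat_lit 0) (nat_lit 76047) (nat_lit 9) nil nil)))) (node (nat_lit
  5) (nat_lit 82241) (nat_lit 8) (node (nat_lit 4) (nat_lit 84084) (nat_lit 9) (node (nat_lit 5)
  (nat_lit 85320) (nat_lit 10) (node (nat_lit 6) (nat_lit 86411) (nat_lit 11) (node (nat_lit 4)
  (nat_lit 87399) (nat_lit 12) (node (nat_lit 6) (nat_lit 88202) (nat_lit 13) (node (nat_lit 9)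
  (nat_lit 86933) (nat_lit 14) nil nil) nil) nil) nil) nil) nil) (node (nat_lit 0) (nat_lit 80642)
  (nat_lit 8) (node (nat_lit 6) (nat_lit 82485) (nat_lit 9) nil nil) nil))) (node (nat_lit 4)
  (nat_lit 0) (nat_lit 7) (node (nat_lit 9) (nat_lit 67236) (nat_lit 8) (node (nat_lit 6) (nat_lit
  69079) (nat_lit 9) (node (nat_lit 9) (nat_lit 73857) (nat_lit 10) (node (nat_lit 4) (nat_lit
  74196) (nat_lit 11) nil nil) (node (nat_lit 4) (nat_lit 73136) (nat_lit 10) nil nil)) nil) (node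
  (nat_lit 6) (nat_lit 67236) (nat_lit 8) (node (nat_lit 4) (nat_lit 69079) (nat_lit 9) (node
  (nat_lit 5) (nat_lit 76346) (nat_lit 10) (node (nat_lit 6) (nat_lit 70774) (nat_lit 11) nil nil)
  nil) (node (nat_lit 5) (nat_lit 85361) (nat_lit 9) nil nil)) (node (nat_lit 5) (nat_lit 83369)
  (nat_lit 8) nil (node (nat_lit 0) (nat_lit 83103) (nat_lit 8) nil nil)))) (node (nat_lit 5)
  (nat_lit 80947) (nat_lit 7) (node (nat_lit 4) (nat_lit 77931) (nat_lit 8) (node (nat_lit 5)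
  (nat_lit 68273) (nat_lit 9) (node (nat_lit 6) (nat_lit 61093) (nat_lit 10) (node (nat_lit 4)
  (nat_lit 43500) (nat_lit 11) nil nil) nil) (node (nat_lit 6) (nat_lit 79960) (nat_lit 9) (node
  (nat_lit 5) (nat_lit 82385) (nat_lit 10) nil nil) nil)) nil) (node (nat_lit 0) (nat_lit 79873)
  (nat_lit 7) (node (nat_lit 6) (nat_lit 84901) (nat_lit 8) nil (node (nat_lit 5) (nat_lit 85171)
  (nat_lit 8) nil (node (nat_lit 4) (nat_lit 83441) (nat_lit 8) nil nil))) nil)))) nil))) (node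
  (nat_lit 2) (nat_lit 0) (nat_lit 5) (node (nat_lit 6) (nat_lit 0) (nat_lit 6) (node (nat_lit 8)
  (nat_lit 0) (nat_lit 7) (node (nat_lit 4) (nat_lit 67365) (nat_lit 8) (node (nat_lit 6) (nat_lit
  68994) (nat_lit 9) (node (nat_lit 4) (nat_lit 71569) (nat_lit 10) (node (nat_lit 5) (nat_lit
  71385) (nat_lit 11) (node (nat_lit 6) (nat_lit 64649) (nat_lit 12) (node (nat_lit 4) (nat_lit
  66301) (nat_lit 13) (node (nat_lit 8) (nat_lit 41839) (nat_lit 14) (node (nat_lit 6) (nat_lit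
  42049) (nat_lit 15) nil nil) nil) nil) nil) nil) (node (nat_lit 5) (nat_lit 75381) (nat_lit 10)
  (node (nat_lit 4) (nat_lit 74440) (nat_lit 11) nil nil) (node (nat_lit 0) (nat_lit 70230)
  (nat_lit 10) nil nil))) (node (nat_lit 8) (nat_lit 69001) (nat_lit 9) (node (nat_lit 6) (nat_lit
  72444) (nat_lit 10) (node (nat_lit 4) (nat_lit 75189) (nat_lit 11) nil nil) (node (nat_lit 5)
  (nat_lit 74244) (nat_lit 10) nil nil)) (node (nat_lit 5) (nat_lit 79298) (nat_lit 9) nil (node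
  (nat_lit 0) (nat_lit 75196) (nat_lit 9) nil nil)))) (node (nat_lit 5) (nat_lit 81917) (nat_lit
  8) (node (nat_lit 4) (nat_lit 79964) (nat_lit 9) (node (nat_lit 5) (nat_lit 67146) (nat_lit 10)
  nil nil) nil) (node (nat_lit 0) (nat_lit 79998) (nat_lit 8) nil nil))) (node (nat_lit 4)
  (nat_lit 0) (nat_lit 7) (node (nat_lit 6) (nat_lit 67365) (nat_lit 8) (node (nat_lit 5) (nat_lit
  75961) (nat_lit 9) (node (nat_lit 4) (nat_lit 74709) (nat_lit 10) (node (nat_lit 5) (nat_lit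
  75800) (nat_lit 11) (node (nat_lit 6) (nat_lit 76788) (nat_lit 12) nil nil) nil) nil) (node
  (nat_lit 8) (nat_lit 68994) (nat_lit 9) (node (nat_lit 4) (nat_lit 71053) (nat_lit 10) (node
  (nat_lit 6) (nat_lit 69055) (nat_lit 11) nil nil) (node (nat_lit 6) (nat_lit 71574) (nat_lit 10)
  nil nil)) nil)) (node (nat_lit 5) (nat_lit 73987) (nat_lit 8) (node (nat_lit 6) (nat_lit 43990)
  (nat_lit 9) nil nil) (node (nat_lit 0) (nat_lit 75035) (nat_lit 8) nil nil))) (node (nat_lit 5)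
  (nat_lit 84086) (nat_lit 7) (node (nat_lit 4) (nat_lit 85872) (nat_lit 8) (node (nat_lit 6)
  (nat_lit 87501) (nat_lit 9) (node (nat_lit 4) (nat_lit 88738) (nat_lit 10) (node (nat_lit 5)
  (nat_lit 78957) (nat_lit 11) nil nil) nil) (node (nat_lit 5) (nat_lit 88385) (nat_lit 9) (node
  (nat_lit 6) (nat_lit 89622) (nat_lit 10) (node (nat_lit 4) (nat_lit 90713) (nat_lit 11) nil nil)
  nil) nil)) nil) (node (nat_lit 0) (nat_lit 80327) (nat_lit 7) (node (nat_lit 6) (nat_lit 82681)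
  (nat_lit 8) nil (node (nat_lit 4) (nat_lit 82681) (nat_lit 8) nil nil)) nil)))) (node (nat_lit
  5) (nat_lit 0) (nat_lit 6) (node (nat_lit 4) (nat_lit 0) (nat_lit 7) (node (nat_lit 5) (nat_lit
  60705) (nat_lit 8) (node (nat_lit 6) (nat_lit 43655) (nat_lit 9) (node (nat_lit 4) (nat_lit
  44324) (nat_lit 10) nil (node (nat_lit 5) (nat_lit 44324) (nat_lit 10) nil nil)) (node (nat_lit
  8) (nat_lit 62841) (nat_lit 9) (node (nat_lit 4) (nat_lit 63552) (nat_lit 10) (node (nat_lit 5)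
  (nat_lit 64643) (nat_lit 11) nil nil) (node (nat_lit 5) (nat_lit 64349) (nat_lit 10) nil nil))
  nil)) (node (nat_lit 6) (nat_lit 73790) (nat_lit 8) (node (nat_lit 5) (nat_lit 76330) (nat_lit
  9) (node (nat_lit 4) (nat_lit 76613) (nat_lit 10) (node (nat_lit 5) (nat_lit 77704) (nat_lit 11)
  nil nil) nil) (node (nat_lit 4) (nat_lit 76031) (nat_lit 9) (node (nat_lit 5) (nat_lit 78267)
  (nat_lit 10) nil nil) nil)) (node (nat_lit 8) (nat_lit 0) (nat_lit 8) (node (nat_lit 4) (nat_lit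
  75453) (nat_lit 9) (node (nat_lit 5) (nat_lit 78045) (nat_lit 10) (node (nat_lit 4) (nat_lit
  77105) (nat_lit 11) (node (nat_lit 6) (nat_lit 77636) (nat_lit 12) nil nil) nil) nil) (node
  (nat_lit 6) (nat_lit 75462) (nat_lit 9) (node (nat_lit 5) (nat_lit 76698) (nat_lit 10) (node
  (nat_lit 4) (nat_lit 75757) (nat_lit 11) nil nil) nil) (node (nat_lit 0) (nat_lit 75376)
  (nat_lit 9) nil nil))) (node (nat_lit 0) (nat_lit 73221) (nat_lit 8) nil nil)))) (node (nat_lit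
  8) (nat_lit 0) (nat_lit 7) (node (nat_lit 4) (nat_lit 84221) (nat_lit 8) (node (nat_lit 6)
  (nat_lit 85265) (nat_lit 9) (node (nat_lit 5) (nat_lit 86502) (nat_lit 10) nil (node (nat_lit 4)
  (nat_lit 86502) (nat_lit 10) (node (nat_lit 5) (nat_lit 76527) (nat_lit 11) nil nil) nil)) (node
  (nat_lit 5) (nat_lit 87090) (nat_lit 9) (node (nat_lit 4) (nat_lit 85838) (nat_lit 10) (node
  (nat_lit 6) (nat_lit 86328) (nat_lit 11) nil nil) nil) nil)) (node (nat_lit 6) (nat_lit 84216)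
  (nat_lit 8) (node (nat_lit 5) (nat_lit 86681) (nat_lit 9) (node (nat_lit 4) (nat_lit 87917)
  (nat_lit 10) (node (nat_lit 5) (nat_lit 89008) (nat_lit 11) nil nil) nil) (node (nat_lit 4)
  (nat_lit 85845) (nat_lit 9) (node (nat_lit 5) (nat_lit 84400) (nat_lit 10) (node (nat_lit 6)
  (nat_lit 80064) (nat_lit 11) nil nil) nil) nil)) (node (nat_lit 0) (nat_lit 84846) (nat_lit 8)
  nil nil))) (node (nat_lit 6) (nat_lit 80348) (nat_lit 7) (node (nat_lit 5) (nat_lit 83900)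
  (nat_lit 8) (node (nat_lit 4) (nat_lit 85528) (nat_lit 9) (node (nat_lit 6) (nat_lit 86765)
  (nat_lit 10) (node (nat_lit 4) (nat_lit 82022) (nat_lit 11) nil nil) nil) nil) (node (nat_lit 4)
  (nat_lit 82702) (nat_lit 8) nil (node (nat_lit 8) (nat_lit 80078) (nat_lit 8) nil nil))) (node
  (nat_lit 0) (nat_lit 81768) (nat_lit 7) (node (nat_lit 5) (nat_lit 84122) (nat_lit 8) nil (node
  (nat_lit 4) (nat_lit 80165) (nat_lit 8) nil (node (nat_lit 6) (nat_lit 84122) (nat_lit 8) nil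
  nil))) nil)))) (node (nat_lit 4) (nat_lit 0) (nat_lit 6) (node (nat_lit 6) (nat_lit 64942)
  (nat_lit 7) (node (nat_lit 4) (nat_lit 67297) (nat_lit 8) (node (nat_lit 5) (nat_lit 72524)
  (nat_lit 9) (node (nat_lit 6) (nat_lit 46666) (nat_lit 10) nil nil) (node (nat_lit 8) (nat_lit
  68925) (nat_lit 9) (node (nat_lit 6) (nat_lit 73242) (nat_lit 10) (node (nat_lit 4) (nat_lit
  75819) (nat_lit 11) nil nil) nil) nil)) (node (nat_lit 8) (nat_lit 67297) (nat_lit 8) (node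
  (nat_lit 6) (nat_lit 68925) (nat_lit 9) (node (nat_lit 4) (nat_lit 71835) (nat_lit 10) nil nil)
  nil) (node (nat_lit 5) (nat_lit 82036) (nat_lit 8) (node (nat_lit 6) (nat_lit 82466) (nat_lit 9)
  (node (nat_lit 4) (nat_lit 83702) (nat_lit 10) nil nil) (node (nat_lit 4) (nat_lit 83665)
  (nat_lit 9) nil nil)) nil))) (node (nat_lit 5) (nat_lit 82359) (nat_lit 7) (node (nat_lit 4)
  (nat_lit 83253) (nat_lit 8) (node (nat_lit 6) (nat_lit 84881) (nat_lit 9) (node (nat_lit 5)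
  (nat_lit 86118) (nat_lit 10) nil nil) (node (nat_lit 8) (nat_lit 84911) (nat_lit 9) nil nil))
  (node (nat_lit 6) (nat_lit 83657) (nat_lit 8) (node (nat_lit 5) (nat_lit 85285) (nat_lit 9)
  (node (nat_lit 4) (nat_lit 84033) (nat_lit 10) nil nil) (node (nat_lit 4) (nat_lit 85285)
  (nat_lit 9) nil nil)) (node (nat_lit 8) (nat_lit 85245) (nat_lit 8) nil nil))) (node (nat_lit 0)
  (nat_lit 80690) (nat_lit 7) (node (nat_lit 5) (nat_lit 83044) (nat_lit 8) nil (node (nat_lit 6)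
  (nat_lit 83044) (nat_lit 8) nil (node (nat_lit 8) (nat_lit 75306) (nat_lit 8) nil nil))) nil)))
  (node (nat_lit 0) (nat_lit 0) (nat_lit 6) (node (nat_lit 4) (nat_lit 81244) (nat_lit 7) (node
  (nat_lit 9) (nat_lit 83598) (nat_lit 8) nil (node (nat_lit 6) (nat_lit 83598) (nat_lit 8) nil
  (node (nat_lit 5) (nat_lit 83598) (nat_lit 8) nil nil))) (node (nat_lit 8) (nat_lit 81872)
  (nat_lit 7) (node (nat_lit 4) (nat_lit 84226) (nat_lit 8) nil (node (nat_lit 5) (nat_lit 84757)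
  (nat_lit 8) (node (nat_lit 4) (nat_lit 72232) (nat_lit 9) nil nil) (node (nat_lit 6) (nat_lit
  84226) (nat_lit 8) (node (nat_lit 4) (nat_lit 74789) (nat_lit 9) nil nil) nil))) (node (nat_lit
  6) (nat_lit 81370) (nat_lit 7) (node (nat_lit 5) (nat_lit 83724) (nat_lit 8) nil (node (nat_lit
  4) (nat_lit 83724) (nat_lit 8) nil nil)) (node (nat_lit 5) (nat_lit 82228) (nat_lit 7) (node
  (nat_lit 4) (nat_lit 84582) (nat_lit 8) (node (nat_lit 5) (nat_lit 86210) (nat_lit 9) nil nil)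
  nil) (node (nat_lit 0) (nat_lit 81102) (nat_lit 7) nil nil))))) nil)))) nil)))

noncomputable def t164 : Tr :=
  (node (nat_lit 5) (nat_lit 0) (nat_lit 4) (node (nat_lit 4) (nat_lit 0) (nat_lit 5) (node
  (nat_lit 5) (nat_lit 86690) (nat_lit 6) (node (nat_lit 6) (nat_lit 64048) (nat_lit 7) nil nil)
  (node (nat_lit 0) (nat_lit 0) (nat_lit 6) (node (nat_lit 4) (nat_lit 124255) (nat_lit 7) (node
  (nat_lit 6) (nat_lit 125822) (nat_lit 8) (node (nat_lit 4) (nat_lit 125056) (nat_lit 9) (node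
  (nat_lit 5) (nat_lit 119965) (nat_lit 10) (node (nat_lit 6) (nat_lit 111786) (nat_lit 11) nil
  nil) nil) nil) nil) (node (nat_lit 5) (nat_lit 124255) (nat_lit 7) (node (nat_lit 4) (nat_lit
  128116) (nat_lit 8) (node (nat_lit 5) (nat_lit 128880) (nat_lit 9) (node (nat_lit 6) (nat_lit
  129448) (nat_lit 10) (node (nat_lit 5) (nat_lit 129948) (nat_lit 11) nil nil) nil) nil) (node
  (nat_lit 6) (nat_lit 127169) (nat_lit 8) (node (nat_lit 4) (nat_lit 126403) (nat_lit 9) (node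
  (nat_lit 5) (nat_lit 116122) (nat_lit 10) nil nil) nil) nil)) (node (nat_lit 6) (nat_lit 125815)
  (nat_lit 7) (node (nat_lit 4) (nat_lit 128116) (nat_lit 8) (node (nat_lit 5) (nat_lit 128880)
  (nat_lit 9) (node (nat_lit 6) (nat_lit 129448) (nat_lit 10) nil nil) nil) nil) (node (nat_lit 0)
  (nat_lit 125815) (nat_lit 7) nil (node (nat_lit 2) (nat_lit 120774) (nat_lit 7) nil nil)))))
  (node (nat_lit 2) (nat_lit 0) (nat_lit 6) (node (nat_lit 4) (nat_lit 125562) (nat_lit 7) (node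
  (nat_lit 5) (nat_lit 125562) (nat_lit 8) nil (node (nat_lit 6) (nat_lit 127515) (nat_lit 8)
  (node (nat_lit 4) (nat_lit 122995) (nat_lit 9) (node (nat_lit 5) (nat_lit 117905) (nat_lit 10)
  (node (nat_lit 6) (nat_lit 113569) (nat_lit 11) (node (nat_lit 5) (nat_lit 102578) (nat_lit 12)
  (node (nat_lit 4) (nat_lit 81978) (nat_lit 13) nil nil) nil) nil) nil) (node (nat_lit 5)
  (nat_lit 127515) (nat_lit 9) nil nil)) nil)) (node (nat_lit 5) (nat_lit 124470) (nat_lit 7)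
  (node (nat_lit 4) (nat_lit 122444) (nat_lit 8) (node (nat_lit 5) (nat_lit 116370) (nat_lit 9)
  (node (nat_lit 6) (nat_lit 97248) (nat_lit 10) (node (nat_lit 5) (nat_lit 85646) (nat_lit 11)
  nil nil) (node (nat_lit 9) (nat_lit 115042) (nat_lit 10) nil nil)) (node (nat_lit 6) (nat_lit
  123242) (nat_lit 9) nil nil)) (node (nat_lit 9) (nat_lit 125369) (nat_lit 8) nil (node (nat_lit
  6) (nat_lit 126017) (nat_lit 8) (node (nat_lit 4) (nat_lit 123342) (nat_lit 9) (node (nat_lit 5)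
  (nat_lit 116928) (nat_lit 10) (node (nat_lit 6) (nat_lit 112900) (nat_lit 11) nil nil) nil) nil)
  nil))) (node (nat_lit 6) (nat_lit 124516) (nat_lit 7) (node (nat_lit 5) (nat_lit 126733)
  (nat_lit 8) nil (node (nat_lit 4) (nat_lit 123432) (nat_lit 8) (node (nat_lit 5) (nat_lit
  110703) (nat_lit 9) (node (nat_lit 6) (nat_lit 95332) (nat_lit 10) (node (nat_lit 5) (nat_lit
  75152) (nat_lit 11) (node (nat_lit 4) (nat_lit 49351) (nat_lit 12) nil nil) nil) nil) nil) nil))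
  (node (nat_lit 0) (nat_lit 125705) (nat_lit 7) nil nil)))) (node (nat_lit 6) (nat_lit 0)
  (nat_lit 6) (node (nat_lit 0) (nat_lit 123839) (nat_lit 7) (node (nat_lit 4) (nat_lit 128609)
  (nat_lit 8) nil (node (nat_lit 5) (nat_lit 128609) (nat_lit 8) nil (node (nat_lit 6) (nat_lit
  128609) (nat_lit 8) (node (nat_lit 4) (nat_lit 129140) (nat_lit 9) nil nil) nil))) (node
  (nat_lit 2) (nat_lit 123290) (nat_lit 7) (node (nat_lit 4) (nat_lit 126578) (nat_lit 8) nil
  (node (nat_lit 5) (nat_lit 126578) (nat_lit 8) (node (nat_lit 4) (nat_lit 126578) (nat_lit 9)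
  nil nil) (node (nat_lit 6) (nat_lit 123687) (nat_lit 8) (node (nat_lit 4) (nat_lit 125684)
  (nat_lit 9) nil nil) nil))) (node (nat_lit 4) (nat_lit 0) (nat_lit 7) (node (nat_lit 5) (nat_lit
  114011) (nat_lit 8) (node (nat_lit 6) (nat_lit 105316) (nat_lit 9) (node (nat_lit 5) (nat_lit
  91870) (nat_lit 10) (node (nat_lit 4) (nat_lit 24291) (nat_lit 11) nil nil) nil) nil) (node
  (nat_lit 2) (nat_lit 124187) (nat_lit 8) nil (node (nat_lit 0) (nat_lit 124187) (nat_lit 8) nil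
  nil))) (node (nat_lit 5) (nat_lit 0) (nat_lit 7) (node (nat_lit 6) (nat_lit 116519) (nat_lit 8)
  (node (nat_lit 4) (nat_lit 120730) (nat_lit 9) (node (nat_lit 5) (nat_lit 123967) (nat_lit 10)
  nil nil) nil) (node (nat_lit 2) (nat_lit 124861) (nat_lit 8) nil (node (nat_lit 0) (nat_lit
  124861) (nat_lit 8) nil nil))) nil)))) nil)))) (node (nat_lit 0) (nat_lit 0) (nat_lit 5) (node
  (nat_lit 6) (nat_lit 123830) (nat_lit 6) (node (nat_lit 8) (nat_lit 125471) (nat_lit 7) (node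
  (nat_lit 5) (nat_lit 126153) (nat_lit 8) nil nil) (node (nat_lit 5) (nat_lit 122478) (nat_lit 7)
  (node (nat_lit 4) (nat_lit 120875) (nat_lit 8) (node (nat_lit 5) (nat_lit 122503) (nat_lit 9)
  (node (nat_lit 6) (nat_lit 123740) (nat_lit 10) (node (nat_lit 5) (nat_lit 124831) (nat_lit 11)
  nil nil) nil) nil) nil) (node (nat_lit 4) (nat_lit 125471) (nat_lit 7) (node (nat_lit 5)
  (nat_lit 126551) (nat_lit 8) (node (nat_lit 6) (nat_lit 127298) (nat_lit 9) (node (nat_lit 5)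
  (nat_lit 127866) (nat_lit 10) nil nil) nil) nil) nil))) (node (nat_lit 4) (nat_lit 123681)
  (nat_lit 6) (node (nat_lit 5) (nat_lit 125322) (nat_lit 7) nil (node (nat_lit 8) (nat_lit
  125322) (nat_lit 7) (node (nat_lit 5) (nat_lit 125976) (nat_lit 8) (node (nat_lit 4) (nat_lit
  124516) (nat_lit 9) (node (nat_lit 5) (nat_lit 125752) (nat_lit 10) (node (nat_lit 6) (nat_lit
  126843) (nat_lit 11) (node (nat_lit 5) (nat_lit 127832) (nat_lit 12) (node (nat_lit 8) (nat_lit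
  128634) (nat_lit 13) (node (nat_lit 4) (nat_lit 128290) (nat_lit 14) nil nil) nil) nil) nil)
  nil) nil) (node (nat_lit 6) (nat_lit 126402) (nat_lit 8) (node (nat_lit 4) (nat_lit 127149)
  (nat_lit 9) (node (nat_lit 5) (nat_lit 127717) (nat_lit 10) (node (nat_lit 6) (nat_lit 128217)
  (nat_lit 11) (node (nat_lit 5) (nat_lit 128671) (nat_lit 12) nil nil) nil) nil) nil) nil)) (node
  (nat_lit 6) (nat_lit 125322) (nat_lit 7) (node (nat_lit 5) (nat_lit 126314) (nat_lit 8) nil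
  (node (nat_lit 4) (nat_lit 116080) (nat_lit 8) (node (nat_lit 5) (nat_lit 108650) (nat_lit 9)
  (node (nat_lit 6) (nat_lit 97569) (nat_lit 10) (node (nat_lit 5) (nat_lit 80443) (nat_lit 11)
  (node (nat_lit 8) (nat_lit 59129) (nat_lit 12) nil nil) nil) nil) nil) nil)) nil))) (node
  (nat_lit 5) (nat_lit 121649) (nat_lit 6) (node (nat_lit 4) (nat_lit 122274) (nat_lit 7) (node
  (nat_lit 5) (nat_lit 124370) (nat_lit 8) (node (nat_lit 6) (nat_lit 125117) (nat_lit 9) (node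
  (nat_lit 5) (nat_lit 125685) (nat_lit 10) nil nil) nil) nil) (node (nat_lit 6) (nat_lit 123290)
  (nat_lit 7) (node (nat_lit 4) (nat_lit 124370) (nat_lit 8) (node (nat_lit 5) (nat_lit 122902)
  (nat_lit 9) (node (nat_lit 6) (nat_lit 113173) (nat_lit 10) nil nil) nil) nil) nil)) (node
  (nat_lit 0) (nat_lit 123451) (nat_lit 6) (node (nat_lit 8) (nat_lit 125092) (nat_lit 7) (node
  (nat_lit 5) (nat_lit 126104) (nat_lit 8) nil (node (nat_lit 6) (nat_lit 126172) (nat_lit 8) nil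
  nil)) (node (nat_lit 5) (nat_lit 122429) (nat_lit 7) (node (nat_lit 4) (nat_lit 120825) (nat_lit
  8) nil nil) (node (nat_lit 6) (nat_lit 125092) (nat_lit 7) (node (nat_lit 4) (nat_lit 126172)
  (nat_lit 8) nil nil) nil))) (node (nat_lit 2) (nat_lit 121382) (nat_lit 6) (node (nat_lit 8)
  (nat_lit 123023) (nat_lit 7) (node (nat_lit 5) (nat_lit 124103) (nat_lit 8) (node (nat_lit 4)
  (nat_lit 124850) (nat_lit 9) nil nil) (node (nat_lit 6) (nat_lit 124103) (nat_lit 8) (node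
  (nat_lit 4) (nat_lit 124850) (nat_lit 9) nil nil) nil)) (node (nat_lit 5) (nat_lit 116015)
  (nat_lit 7) (node (nat_lit 9) (nat_lit 116894) (nat_lit 8) nil (node (nat_lit 4) (nat_lit
  113131) (nat_lit 8) (node (nat_lit 5) (nat_lit 98334) (nat_lit 9) nil nil) (node (nat_lit 6)
  (nat_lit 117095) (nat_lit 8) nil nil))) (node (nat_lit 6) (nat_lit 117633) (nat_lit 7) (node
  (nat_lit 4) (nat_lit 116223) (nat_lit 8) nil (node (nat_lit 5) (nat_lit 116030) (nat_lit 8) nil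
  nil)) (node (nat_lit 4) (nat_lit 122783) (nat_lit 7) (node (nat_lit 6) (nat_lit 123111) (nat_lit
  8) nil nil) nil)))) nil))))) (node (nat_lit 2) (nat_lit 0) (nat_lit 5) (node (nat_lit 4)
  (nat_lit 119796) (nat_lit 6) (node (nat_lit 5) (nat_lit 123718) (nat_lit 7) (node (nat_lit 8)
  (nat_lit 121395) (nat_lit 8) (node (nat_lit 5) (nat_lit 119845) (nat_lit 9) (node (nat_lit 4)
  (nat_lit 117219) (nat_lit 10) (node (nat_lit 5) (nat_lit 113845) (nat_lit 11) (node (nat_lit 6)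
  (nat_lit 110583) (nat_lit 12) (node (nat_lit 5) (nat_lit 104386) (nat_lit 13) (node (nat_lit 8)
  (nat_lit 92546) (nat_lit 14) (node (nat_lit 4) (nat_lit 78303) (nat_lit 15) nil nil) nil) nil)
  nil) nil) nil) nil) nil) (node (nat_lit 8) (nat_lit 123718) (nat_lit 7) (node (nat_lit 5)
  (nat_lit 119421) (nat_lit 8) (node (nat_lit 4) (nat_lit 115571) (nat_lit 9) (node (nat_lit 5)
  (nat_lit 110151) (nat_lit 10) (node (nat_lit 6) (nat_lit 107003) (nat_lit 11) (node (nat_lit 5)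
  (nat_lit 98334) (nat_lit 12) (node (nat_lit 8) (nat_lit 82263) (nat_lit 13) (node (nat_lit 4)
  (nat_lit 81632) (nat_lit 14) nil nil) nil) nil) nil) (node (nat_lit 6) (nat_lit 117156) (nat_lit
  10) (node (nat_lit 4) (nat_lit 115787) (nat_lit 11) nil nil) nil)) (node (nat_lit 6) (nat_lit
  119330) (nat_lit 9) (node (nat_lit 4) (nat_lit 117139) (nat_lit 10) nil nil) nil)) (node
  (nat_lit 6) (nat_lit 123560) (nat_lit 8) (node (nat_lit 4) (nat_lit 121466) (nat_lit 9) (node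
  (nat_lit 5) (nat_lit 116372) (nat_lit 10) (node (nat_lit 6) (nat_lit 102200) (nat_lit 11) (node
  (nat_lit 5) (nat_lit 91917) (nat_lit 12) (node (nat_lit 8) (nat_lit 64957) (nat_lit 13) (node
  (nat_lit 4) (nat_lit 39427) (nat_lit 14) nil nil) nil) nil) nil) nil) nil) nil)) (node (nat_lit
  6) (nat_lit 125675) (nat_lit 7) (node (nat_lit 4) (nat_lit 122186) (nat_lit 8) (node (nat_lit 5)
  (nat_lit 113123) (nat_lit 9) (node (nat_lit 6) (nat_lit 104476) (nat_lit 10) (node (nat_lit 5)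
  (nat_lit 88628) (nat_lit 11) (node (nat_lit 8) (nat_lit 43466) (nat_lit 12) nil nil) nil) nil)
  nil) nil) nil))) (node (nat_lit 6) (nat_lit 0) (nat_lit 6) (node (nat_lit 8) (nat_lit 114783)
  (nat_lit 7) (node (nat_lit 5) (nat_lit 114294) (nat_lit 8) (node (nat_lit 6) (nat_lit 114444)
  (nat_lit 9) (node (nat_lit 4) (nat_lit 114064) (nat_lit 10) (node (nat_lit 5) (nat_lit 111057)
  (nat_lit 11) (node (nat_lit 6) (nat_lit 107783) (nat_lit 12) (node (nat_lit 5) (nat_lit 101054)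
  (nat_lit 13) nil nil) nil) nil) nil) (node (nat_lit 4) (nat_lit 112640) (nat_lit 9) (node
  (nat_lit 5) (nat_lit 108216) (nat_lit 10) (node (nat_lit 6) (nat_lit 95817) (nat_lit 11) (node
  (nat_lit 5) (nat_lit 92224) (nat_lit 12) (node (nat_lit 8) (nat_lit 81623) (nat_lit 13) nil nil)
  nil) nil) nil) nil)) (node (nat_lit 4) (nat_lit 119624) (nat_lit 8) (node (nat_lit 6) (nat_lit
  119774) (nat_lit 9) nil nil) nil)) (node (nat_lit 5) (nat_lit 114783) (nat_lit 7) (node (nat_lit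
  6) (nat_lit 115864) (nat_lit 8) (node (nat_lit 4) (nat_lit 116611) (nat_lit 9) (node (nat_lit 5)
  (nat_lit 117178) (nat_lit 10) (node (nat_lit 6) (nat_lit 112947) (nat_lit 11) nil nil) nil) nil)
  (node (nat_lit 4) (nat_lit 119624) (nat_lit 8) (node (nat_lit 5) (nat_lit 121252) (nat_lit 9)
  (node (nat_lit 6) (nat_lit 122489) (nat_lit 10) (node (nat_lit 5) (nat_lit 123009) (nat_lit 11)
  nil nil) nil) nil) nil)) (node (nat_lit 4) (nat_lit 122861) (nat_lit 7) (node (nat_lit 5)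
  (nat_lit 119946) (nat_lit 8) (node (nat_lit 6) (nat_lit 89023) (nat_lit 9) (node (nat_lit 5)
  (nat_lit 49858) (nat_lit 10) nil nil) nil) nil) (node (nat_lit 0) (nat_lit 122176) (nat_lit 7)
  (node (nat_lit 6) (nat_lit 123256) (nat_lit 8) nil nil) nil)))) (node (nat_lit 5) (nat_lit 0)
  (nat_lit 6) (node (nat_lit 4) (nat_lit 115022) (nat_lit 7) (node (nat_lit 6) (nat_lit 116102)
  (nat_lit 8) (node (nat_lit 4) (nat_lit 116849) (nat_lit 9) (node (nat_lit 5) (nat_lit 115722)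
  (nat_lit 10) (node (nat_lit 6) (nat_lit 112133) (nat_lit 11) (node (nat_lit 5) (nat_lit 102038)
  (nat_lit 12) nil nil) nil) nil) nil) (node (nat_lit 5) (nat_lit 98334) (nat_lit 8) (node
  (nat_lit 8) (nat_lit 98334) (nat_lit 9) nil (node (nat_lit 6) (nat_lit 97248) (nat_lit 9) (node
  (nat_lit 5) (nat_lit 85056) (nat_lit 10) nil nil) nil)) nil)) (node (nat_lit 6) (nat_lit 114783)
  (nat_lit 7) (node (nat_lit 4) (nat_lit 115864) (nat_lit 8) (node (nat_lit 5) (nat_lit 114722)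
  (nat_lit 9) (node (nat_lit 6) (nat_lit 100499) (nat_lit 10) nil nil) nil) (node (nat_lit 5)
  (nat_lit 115864) (nat_lit 8) (node (nat_lit 4) (nat_lit 116611) (nat_lit 9) nil nil) nil)) (node
  (nat_lit 0) (nat_lit 118651) (nat_lit 7) (node (nat_lit 5) (nat_lit 117285) (nat_lit 8) (node
  (nat_lit 4) (nat_lit 115825) (nat_lit 9) nil nil) (node (nat_lit 6) (nat_lit 119731) (nat_lit 8)
  nil nil)) nil))) (node (nat_lit 0) (nat_lit 121161) (nat_lit 6) (node (nat_lit 8) (nat_lit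
  117437) (nat_lit 7) (node (nat_lit 5) (nat_lit 113571) (nat_lit 8) (node (nat_lit 9) (nat_lit
  115200) (nat_lit 9) (node (nat_lit 5) (nat_lit 113947) (nat_lit 10) nil nil) (node (nat_lit 4)
  (nat_lit 109502) (nat_lit 9) nil nil)) (node (nat_lit 6) (nat_lit 117765) (nat_lit 8) (node
  (nat_lit 4) (nat_lit 116785) (nat_lit 9) nil nil) nil)) (node (nat_lit 5) (nat_lit 122478)
  (nat_lit 7) (node (nat_lit 4) (nat_lit 120875) (nat_lit 8) nil nil) (node (nat_lit 6) (nat_lit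
  122802) (nat_lit 7) (node (nat_lit 4) (nat_lit 123882) (nat_lit 8) nil nil) nil))) nil))))
  nil))) (node (nat_lit 0) (nat_lit 0) (nat_lit 4) (node (nat_lit 4) (nat_lit 0) (nat_lit 5) (node
  (nat_lit 7) (nat_lit 124180) (nat_lit 6) (node (nat_lit 6) (nat_lit 126301) (nat_lit 7) (node
  (nat_lit 4) (nat_lit 127381) (nat_lit 8) nil nil) (node (nat_lit 5) (nat_lit 122478) (nat_lit 7)
  (node (nat_lit 4) (nat_lit 120875) (nat_lit 8) (node (nat_lit 5) (nat_lit 122503) (nat_lit 9)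
  (node (nat_lit 6) (nat_lit 123740) (nat_lit 10) nil nil) nil) nil) nil)) (node (nat_lit 6)
  (nat_lit 122956) (nat_lit 6) (node (nat_lit 5) (nat_lit 121254) (nat_lit 7) (node (nat_lit 4)
  (nat_lit 119650) (nat_lit 8) nil (node (nat_lit 6) (nat_lit 121049) (nat_lit 8) (node (nat_lit
  4) (nat_lit 119449) (nat_lit 9) (node (nat_lit 5) (nat_lit 116186) (nat_lit 10) nil nil) nil)
  nil)) (node (nat_lit 4) (nat_lit 126111) (nat_lit 7) (node (nat_lit 5) (nat_lit 117911) (nat_lit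
  8) (node (nat_lit 6) (nat_lit 105298) (nat_lit 9) nil nil) nil) nil)) (node (nat_lit 5) (nat_lit
  124035) (nat_lit 6) nil (node (nat_lit 0) (nat_lit 123545) (nat_lit 6) nil (node (nat_lit 2)
  (nat_lit 117887) (nat_lit 6) nil nil))))) (node (nat_lit 5) (nat_lit 0) (nat_lit 5) (node
  (nat_lit 7) (nat_lit 122165) (nat_lit 6) (node (nat_lit 6) (nat_lit 125274) (nat_lit 7) (node
  (nat_lit 4) (nat_lit 126354) (nat_lit 8) (node (nat_lit 5) (nat_lit 127101) (nat_lit 9) (node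
  (nat_lit 6) (nat_lit 127669) (nat_lit 10) nil nil) nil) nil) (node (nat_lit 4) (nat_lit 123647)
  (nat_lit 7) (node (nat_lit 6) (nat_lit 123443) (nat_lit 8) nil nil) nil)) (node (nat_lit 4)
  (nat_lit 123451) (nat_lit 6) (node (nat_lit 6) (nat_lit 125092) (nat_lit 7) (node (nat_lit 5)
  (nat_lit 126153) (nat_lit 8) (node (nat_lit 6) (nat_lit 125905) (nat_lit 9) (node (nat_lit 4)
  (nat_lit 125567) (nat_lit 10) nil nil) (node (nat_lit 4) (nat_lit 126803) (nat_lit 9) (node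
  (nat_lit 5) (nat_lit 126803) (nat_lit 10) (node (nat_lit 6) (nat_lit 127578) (nat_lit 11) nil
  nil) nil) nil)) (node (nat_lit 4) (nat_lit 126172) (nat_lit 8) (node (nat_lit 5) (nat_lit
  118524) (nat_lit 9) (node (nat_lit 6) (nat_lit 108573) (nat_lit 10) nil nil) nil) nil)) (node
  (nat_lit 7) (nat_lit 125092) (nat_lit 7) (node (nat_lit 6) (nat_lit 126172) (nat_lit 8) nil nil)
  (node (nat_lit 5) (nat_lit 123333) (nat_lit 7) (node (nat_lit 6) (nat_lit 126150) (nat_lit 8)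
  nil nil) nil))) (node (nat_lit 6) (nat_lit 123299) (nat_lit 6) (node (nat_lit 4) (nat_lit
  124939) (nat_lit 7) (node (nat_lit 5) (nat_lit 117378) (nat_lit 8) (node (nat_lit 6) (nat_lit
  93052) (nat_lit 9) (node (nat_lit 7) (nat_lit 53243) (nat_lit 10) nil nil) nil) nil) nil) (node
  (nat_lit 0) (nat_lit 121133) (nat_lit 6) nil (node (nat_lit 2) (nat_lit 116625) (nat_lit 6)
  (node (nat_lit 6) (nat_lit 117679) (nat_lit 7) (node (nat_lit 5) (nat_lit 116075) (nat_lit 8)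
  nil (node (nat_lit 4) (nat_lit 114046) (nat_lit 8) nil nil)) (node (nat_lit 5) (nat_lit 111709)
  (nat_lit 7) (node (nat_lit 6) (nat_lit 112378) (nat_lit 8) nil (node (nat_lit 4) (nat_lit
  106479) (nat_lit 8) nil nil)) (node (nat_lit 4) (nat_lit 118266) (nat_lit 7) nil nil))) nil)))))
  (node (nat_lit 6) (nat_lit 117569) (nat_lit 5) (node (nat_lit 5) (nat_lit 123313) (nat_lit 6)
  (node (nat_lit 4) (nat_lit 121611) (nat_lit 7) (node (nat_lit 5) (nat_lit 123965) (nat_lit 8)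
  (node (nat_lit 6) (nat_lit 125594) (nat_lit 9) nil nil) nil) nil) (node (nat_lit 4) (nat_lit
  123465) (nat_lit 6) (node (nat_lit 5) (nat_lit 125105) (nat_lit 7) (node (nat_lit 6) (nat_lit
  126185) (nat_lit 8) (node (nat_lit 7) (nat_lit 20030) (nat_lit 9) nil nil) nil) (node (nat_lit
  6) (nat_lit 125105) (nat_lit 7) (node (nat_lit 5) (nat_lit 126153) (nat_lit 8) nil nil) nil))
  nil)) (node (nat_lit 0) (nat_lit 117270) (nat_lit 5) (node (nat_lit 5) (nat_lit 123418) (nat_lit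
  6) (node (nat_lit 4) (nat_lit 122478) (nat_lit 7) (node (nat_lit 5) (nat_lit 124832) (nat_lit 8)
  nil nil) (node (nat_lit 6) (nat_lit 116691) (nat_lit 7) (node (nat_lit 4) (nat_lit 113870)
  (nat_lit 8) nil nil) nil)) (node (nat_lit 4) (nat_lit 123418) (nat_lit 6) (node (nat_lit 6)
  (nat_lit 125058) (nat_lit 7) (node (nat_lit 4) (nat_lit 113870) (nat_lit 8) (node (nat_lit 5)
  (nat_lit 108489) (nat_lit 9) nil nil) (node (nat_lit 5) (nat_lit 125132) (nat_lit 8) nil nil))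
  (node (nat_lit 5) (nat_lit 125058) (nat_lit 7) nil nil)) (node (nat_lit 6) (nat_lit 122591)
  (nat_lit 6) (node (nat_lit 4) (nat_lit 125058) (nat_lit 7) (node (nat_lit 5) (nat_lit 126139)
  (nat_lit 8) (node (nat_lit 6) (nat_lit 126886) (nat_lit 9) nil nil) nil) nil) (node (nat_lit 7)
  (nat_lit 122591) (nat_lit 6) nil nil)))) (node (nat_lit 2) (nat_lit 0) (nat_lit 5) (node
  (nat_lit 0) (nat_lit 121112) (nat_lit 6) nil (node (nat_lit 5) (nat_lit 112260) (nat_lit 6)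
  (node (nat_lit 6) (nat_lit 113508) (nat_lit 7) (node (nat_lit 4) (nat_lit 109894) (nat_lit 8)
  (node (nat_lit 5) (nat_lit 103541) (nat_lit 9) nil nil) nil) (node (nat_lit 4) (nat_lit 107461)
  (nat_lit 7) (node (nat_lit 6) (nat_lit 108189) (nat_lit 8) nil (node (nat_lit 5) (nat_lit 93212)
  (nat_lit 8) (node (nat_lit 6) (nat_lit 79109) (nat_lit 9) nil nil) nil)) nil)) (node (nat_lit 4)
  (nat_lit 116772) (nat_lit 6) (node (nat_lit 6) (nat_lit 116691) (nat_lit 7) (node (nat_lit 4)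
  (nat_lit 109909) (nat_lit 8) nil (node (nat_lit 5) (nat_lit 115088) (nat_lit 8) nil nil)) nil)
  (node (nat_lit 6) (nat_lit 115557) (nat_lit 6) (node (nat_lit 4) (nat_lit 112123) (nat_lit 7)
  (node (nat_lit 5) (nat_lit 100825) (nat_lit 8) (node (nat_lit 6) (nat_lit 74384) (nat_lit 9) nil
  nil) nil) (node (nat_lit 5) (nat_lit 113855) (nat_lit 7) nil nil)) (node (nat_lit 7) (nat_lit
  121145) (nat_lit 6) (node (nat_lit 5) (nat_lit 120312) (nat_lit 7) nil (node (nat_lit 6)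
  (nat_lit 122786) (nat_lit 7) nil nil)) nil))))) nil))))) (node (nat_lit 2) (nat_lit 0) (nat_lit
  4) (node (nat_lit 4) (nat_lit 0) (nat_lit 5) (node (nat_lit 7) (nat_lit 0) (nat_lit 6) (node
  (nat_lit 6) (nat_lit 123856) (nat_lit 7) (node (nat_lit 4) (nat_lit 124226) (nat_lit 8) (node
  (nat_lit 5) (nat_lit 115694) (nat_lit 9) (node (nat_lit 6) (nat_lit 108411) (nat_lit 10) (node
  (nat_lit 7) (nat_lit 80239) (nat_lit 11) (node (nat_lit 4) (nat_lit 37401) (nat_lit 12) nil nil)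
  nil) nil) nil) nil) (node (nat_lit 5) (nat_lit 118626) (nat_lit 7) (node (nat_lit 4) (nat_lit
  113287) (nat_lit 8) (node (nat_lit 5) (nat_lit 107458) (nat_lit 9) (node (nat_lit 6) (nat_lit
  98334) (nat_lit 10) (node (nat_lit 7) (nat_lit 88004) (nat_lit 11) (node (nat_lit 4) (nat_lit
  78564) (nat_lit 12) nil nil) nil) nil) nil) nil) (node (nat_lit 0) (nat_lit 122242) (nat_lit 7)
  nil nil))) (node (nat_lit 6) (nat_lit 112807) (nat_lit 6) (node (nat_lit 5) (nat_lit 121955)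
  (nat_lit 7) (node (nat_lit 4) (nat_lit 125539) (nat_lit 8) (node (nat_lit 5) (nat_lit 127168)
  (nat_lit 9) (node (nat_lit 6) (nat_lit 128405) (nat_lit 10) nil nil) nil) (node (nat_lit 6)
  (nat_lit 124554) (nat_lit 8) (node (nat_lit 4) (nat_lit 124702) (nat_lit 9) (node (nat_lit 5)
  (nat_lit 123851) (nat_lit 10) nil nil) nil) nil)) (node (nat_lit 7) (nat_lit 119548) (nat_lit 7)
  (node (nat_lit 5) (nat_lit 120118) (nat_lit 8) nil nil) (node (nat_lit 4) (nat_lit 112014)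
  (nat_lit 7) (node (nat_lit 5) (nat_lit 103771) (nat_lit 8) (node (nat_lit 6) (nat_lit 99172)
  (nat_lit 9) (node (nat_lit 7) (nat_lit 74802) (nat_lit 10) nil nil) nil) nil) nil))) (node
  (nat_lit 5) (nat_lit 117742) (nat_lit 6) (node (nat_lit 7) (nat_lit 115203) (nat_lit 7) (node
  (nat_lit 6) (nat_lit 114999) (nat_lit 8) nil (node (nat_lit 5) (nat_lit 110804) (nat_lit 8)
  (node (nat_lit 4) (nat_lit 106116) (nat_lit 9) nil nil) nil)) (node (nat_lit 6) (nat_lit 121319)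
  (nat_lit 7) nil (node (nat_lit 4) (nat_lit 120244) (nat_lit 7) (node (nat_lit 6) (nat_lit
  120040) (nat_lit 8) (node (nat_lit 4) (nat_lit 116291) (nat_lit 9) (node (nat_lit 5) (nat_lit
  111869) (nat_lit 10) nil nil) nil) nil) nil))) (node (nat_lit 0) (nat_lit 118515) (nat_lit 6)
  nil nil)))) (node (nat_lit 5) (nat_lit 0) (nat_lit 5) (node (nat_lit 7) (nat_lit 0) (nat_lit 6)
  (node (nat_lit 6) (nat_lit 110404) (nat_lit 7) (node (nat_lit 5) (nat_lit 115788) (nat_lit 8)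
  nil (node (nat_lit 4) (nat_lit 119430) (nat_lit 8) (node (nat_lit 5) (nat_lit 120876) (nat_lit
  9) (node (nat_lit 6) (nat_lit 103002) (nat_lit 10) (node (nat_lit 7) (nat_lit 78530) (nat_lit
  11) nil nil) nil) nil) (node (nat_lit 7) (nat_lit 115660) (nat_lit 8) nil nil))) (node (nat_lit
  4) (nat_lit 118890) (nat_lit 7) (node (nat_lit 6) (nat_lit 120508) (nat_lit 8) nil nil) (node
  (nat_lit 0) (nat_lit 117486) (nat_lit 7) (node (nat_lit 5) (nat_lit 119931) (nat_lit 8) nil nil)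
  nil))) (node (nat_lit 4) (nat_lit 105003) (nat_lit 6) (node (nat_lit 6) (nat_lit 108055)
  (nat_lit 7) (node (nat_lit 5) (nat_lit 109600) (nat_lit 8) (node (nat_lit 4) (nat_lit 110347)
  (nat_lit 9) (node (nat_lit 5) (nat_lit 110915) (nat_lit 10) (node (nat_lit 6) (nat_lit 111415)
  (nat_lit 11) nil nil) nil) nil) (node (nat_lit 4) (nat_lit 109135) (nat_lit 8) (node (nat_lit 5)
  (nat_lit 108383) (nat_lit 9) (node (nat_lit 6) (nat_lit 102957) (nat_lit 10) nil nil) nil) nil))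
  (node (nat_lit 7) (nat_lit 108055) (nat_lit 7) (node (nat_lit 6) (nat_lit 109600) (nat_lit 8)
  (node (nat_lit 5) (nat_lit 109422) (nat_lit 9) nil nil) (node (nat_lit 4) (nat_lit 109938)
  (nat_lit 8) (node (nat_lit 6) (nat_lit 110685) (nat_lit 9) nil nil) nil)) (node (nat_lit 5)
  (nat_lit 82231) (nat_lit 7) (node (nat_lit 6) (nat_lit 83505) (nat_lit 8) nil (node (nat_lit 7)
  (nat_lit 83505) (nat_lit 8) (node (nat_lit 5) (nat_lit 84387) (nat_lit 9) (node (nat_lit 4)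
  (nat_lit 85056) (nat_lit 10) nil nil) nil) nil)) nil))) (node (nat_lit 6) (nat_lit 101529)
  (nat_lit 6) (node (nat_lit 4) (nat_lit 113846) (nat_lit 7) (node (nat_lit 5) (nat_lit 97700)
  (nat_lit 8) (node (nat_lit 6) (nat_lit 89331) (nat_lit 9) (node (nat_lit 7) (nat_lit 33490)
  (nat_lit 10) nil nil) (node (nat_lit 4) (nat_lit 96240) (nat_lit 9) nil nil)) (node (nat_lit 6)
  (nat_lit 116091) (nat_lit 8) nil nil)) (node (nat_lit 5) (nat_lit 109575) (nat_lit 7) (node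
  (nat_lit 4) (nat_lit 116512) (nat_lit 8) (node (nat_lit 5) (nat_lit 118141) (nat_lit 9) (node
  (nat_lit 6) (nat_lit 119377) (nat_lit 10) nil nil) nil) (node (nat_lit 7) (nat_lit 114827)
  (nat_lit 8) nil nil)) nil)) (node (nat_lit 0) (nat_lit 111104) (nat_lit 6) (node (nat_lit 5)
  (nat_lit 118482) (nat_lit 7) nil nil) nil)))) (node (nat_lit 6) (nat_lit 0) (nat_lit 5) (node
  (nat_lit 5) (nat_lit 0) (nat_lit 6) (node (nat_lit 4) (nat_lit 115799) (nat_lit 7) (node
  (nat_lit 6) (nat_lit 117617) (nat_lit 8) nil (node (nat_lit 5) (nat_lit 118153) (nat_lit 8)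
  (node (nat_lit 6) (nat_lit 119781) (nat_lit 9) nil nil) nil)) (node (nat_lit 7) (nat_lit 108252)
  (nat_lit 7) (node (nat_lit 4) (nat_lit 114144) (nat_lit 8) nil (node (nat_lit 5) (nat_lit
  113004) (nat_lit 8) nil (node (nat_lit 6) (nat_lit 112209) (nat_lit 8) (node (nat_lit 4)
  (nat_lit 116110) (nat_lit 9) nil nil) nil))) (node (nat_lit 6) (nat_lit 106982) (nat_lit 7)
  (node (nat_lit 4) (nat_lit 111995) (nat_lit 8) (node (nat_lit 5) (nat_lit 97877) (nat_lit 9)
  (node (nat_lit 6) (nat_lit 98412) (nat_lit 10) nil nil) nil) nil) (node (nat_lit 0) (nat_lit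
  112965) (nat_lit 7) nil nil)))) (node (nat_lit 4) (nat_lit 109004) (nat_lit 6) (node (nat_lit 5)
  (nat_lit 106322) (nat_lit 7) (node (nat_lit 6) (nat_lit 49075) (nat_lit 8) (node (nat_lit 5)
  (nat_lit 50228) (nat_lit 9) (node (nat_lit 4) (nat_lit 49843) (nat_lit 10) nil nil) (node
  (nat_lit 4) (nat_lit 48624) (nat_lit 9) nil nil)) nil) nil) (node (nat_lit 0) (nat_lit 110840)
  (nat_lit 6) nil nil))) (node (nat_lit 0) (nat_lit 0) (nat_lit 5) (node (nat_lit 0) (nat_lit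
  115451) (nat_lit 6) nil (node (nat_lit 5) (nat_lit 119140) (nat_lit 6) (node (nat_lit 4)
  (nat_lit 117438) (nat_lit 7) (node (nat_lit 5) (nat_lit 119792) (nat_lit 8) nil nil) nil) (node
  (nat_lit 4) (nat_lit 119956) (nat_lit 6) (node (nat_lit 6) (nat_lit 122637) (nat_lit 7) (node
  (nat_lit 4) (nat_lit 109225) (nat_lit 8) (node (nat_lit 5) (nat_lit 103843) (nat_lit 9) nil nil)
  nil) (node (nat_lit 5) (nat_lit 123532) (nat_lit 7) nil nil)) (node (nat_lit 6) (nat_lit 119484)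
  (nat_lit 6) (node (nat_lit 4) (nat_lit 122643) (nat_lit 7) (node (nat_lit 5) (nat_lit 123723)
  (nat_lit 8) (node (nat_lit 6) (nat_lit 124470) (nat_lit 9) nil nil) nil) nil) (node (nat_lit 7)
  (nat_lit 120625) (nat_lit 6) (node (nat_lit 5) (nat_lit 112130) (nat_lit 7) nil (node (nat_lit
  6) (nat_lit 121912) (nat_lit 7) nil nil)) nil))))) nil)))) nil)))

noncomputable def t165 : Tr :=
  (node (nat_lit 0) (nat_lit 0) (nat_lit 7) (node (nat_lit 4) (nat_lit 0) (nat_lit 8) (node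
  (nat_lit 5) (nat_lit 62771) (nat_lit 9) (node (nat_lit 4) (nat_lit 63880) (nat_lit 10) (node
  (nat_lit 10) (nat_lit 64833) (nat_lit 11) (node (nat_lit 5) (nat_lit 65640) (nat_lit 12) (node
  (nat_lit 10) (nat_lit 66286) (nat_lit 13) (node (nat_lit 4) (nat_lit 66779) (nat_lit 14) (node
  (nat_lit 10) (nat_lit 67027) (nat_lit 15) nil (node (nat_lit 5) (nat_lit 67027) (nat_lit 15) nil
  (node (nat_lit 6) (nat_lit 67027) (nat_lit 15) nil nil))) (node (nat_lit 6) (nat_lit 66779)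
  (nat_lit 14) nil nil)) (node (nat_lit 4) (nat_lit 66286) (nat_lit 13) (node (nat_lit 5) (nat_lit
  66779) (nat_lit 14) (node (nat_lit 10) (nat_lit 67144) (nat_lit 15) (node (nat_lit 5) (nat_lit
  66764) (nat_lit 16) nil nil) (node (nat_lit 6) (nat_lit 67027) (nat_lit 15) (node (nat_lit 5)
  (nat_lit 67215) (nat_lit 16) nil nil) nil)) (node (nat_lit 6) (nat_lit 66624) (nat_lit 14) (node
  (nat_lit 4) (nat_lit 66872) (nat_lit 15) nil nil) nil)) (node (nat_lit 6) (nat_lit 66286)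
  (nat_lit 13) (node (nat_lit 4) (nat_lit 66779) (nat_lit 14) nil (node (nat_lit 5) (nat_lit
  66624) (nat_lit 14) nil nil)) (node (nat_lit 2) (nat_lit 65680) (nat_lit 13) (node (nat_lit 5)
  (nat_lit 65050) (nat_lit 14) nil nil) (node (nat_lit 0) (nat_lit 66286) (nat_lit 13) (node
  (nat_lit 5) (nat_lit 65656) (nat_lit 14) nil nil) nil))))) (node (nat_lit 4) (nat_lit 65640)
  (nat_lit 12) (node (nat_lit 5) (nat_lit 66286) (nat_lit 13) (node (nat_lit 10) (nat_lit 66779)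
  (nat_lit 14) (node (nat_lit 5) (nat_lit 67144) (nat_lit 15) (node (nat_lit 4) (nat_lit 67331)
  (nat_lit 16) nil nil) (node (nat_lit 6) (nat_lit 67027) (nat_lit 15) nil nil)) (node (nat_lit 6)
  (nat_lit 66779) (nat_lit 14) nil nil)) (node (nat_lit 2) (nat_lit 65680) (nat_lit 13) (node
  (nat_lit 5) (nat_lit 65050) (nat_lit 14) nil nil) (node (nat_lit 0) (nat_lit 66074) (nat_lit 13)
  (node (nat_lit 5) (nat_lit 65444) (nat_lit 14) nil nil) (node (nat_lit 6) (nat_lit 66286)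
  (nat_lit 13) (node (nat_lit 4) (nat_lit 66624) (nat_lit 14) nil (node (nat_lit 5) (nat_lit
  65656) (nat_lit 14) nil nil)) nil)))) (node (nat_lit 6) (nat_lit 65640) (nat_lit 12) (node
  (nat_lit 4) (nat_lit 66286) (nat_lit 13) (node (nat_lit 5) (nat_lit 66624) (nat_lit 14) nil nil)
  (node (nat_lit 5) (nat_lit 66286) (nat_lit 13) nil (node (nat_lit 10) (nat_lit 66074) (nat_lit
  13) nil nil))) (node (nat_lit 0) (nat_lit 65640) (nat_lit 12) (node (nat_lit 5) (nat_lit 66286)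
  (nat_lit 13) nil (node (nat_lit 6) (nat_lit 66074) (nat_lit 13) nil nil)) (node (nat_lit 2)
  (nat_lit 64849) (nat_lit 12) (node (nat_lit 5) (nat_lit 65266) (nat_lit 13) nil (node (nat_lit
  4) (nat_lit 65283) (nat_lit 13) nil (node (nat_lit 10) (nat_lit 65283) (nat_lit 13) nil (node
  (nat_lit 6) (nat_lit 63191) (nat_lit 13) nil nil)))) nil))))) (node (nat_lit 6) (nat_lit 64805)
  (nat_lit 11) (node (nat_lit 5) (nat_lit 65612) (nat_lit 12) (node (nat_lit 4) (nat_lit 66258)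
  (nat_lit 13) (node (nat_lit 5) (nat_lit 66752) (nat_lit 14) (node (nat_lit 6) (nat_lit 67117)
  (nat_lit 15) (node (nat_lit 5) (nat_lit 67305) (nat_lit 16) (node (nat_lit 4) (nat_lit 67446)
  (nat_lit 17) nil nil) (node (nat_lit 4) (nat_lit 67305) (nat_lit 16) nil nil)) nil) (node
  (nat_lit 10) (nat_lit 66596) (nat_lit 14) nil nil)) (node (nat_lit 6) (nat_lit 66258) (nat_lit
  13) (node (nat_lit 4) (nat_lit 66752) (nat_lit 14) nil nil) (node (nat_lit 10) (nat_lit 66258)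
  (nat_lit 13) nil nil))) (node (nat_lit 4) (nat_lit 65612) (nat_lit 12) (node (nat_lit 5)
  (nat_lit 66047) (nat_lit 13) (node (nat_lit 6) (nat_lit 66385) (nat_lit 14) (node (nat_lit 5)
  (nat_lit 66633) (nat_lit 15) (node (nat_lit 4) (nat_lit 66820) (nat_lit 16) nil nil) nil) nil)
  (node (nat_lit 10) (nat_lit 66047) (nat_lit 13) nil nil)) (node (nat_lit 10) (nat_lit 65612)
  (nat_lit 12) (node (nat_lit 6) (nat_lit 66258) (nat_lit 13) (node (nat_lit 4) (nat_lit 66596)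
  (nat_lit 14) nil nil) (node (nat_lit 5) (nat_lit 66258) (nat_lit 13) nil (node (nat_lit 4)
  (nat_lit 66047) (nat_lit 13) nil nil))) (node (nat_lit 2) (nat_lit 64821) (nat_lit 12) (node
  (nat_lit 6) (nat_lit 63163) (nat_lit 13) nil nil) (node (nat_lit 0) (nat_lit 65612) (nat_lit 12)
  (node (nat_lit 6) (nat_lit 66047) (nat_lit 13) nil nil) nil))))) (node (nat_lit 0) (nat_lit
  64805) (nat_lit 11) (node (nat_lit 5) (nat_lit 65612) (nat_lit 12) (node (nat_lit 4) (nat_lit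
  66047) (nat_lit 13) (node (nat_lit 5) (nat_lit 66385) (nat_lit 14) (node (nat_lit 6) (nat_lit
  66633) (nat_lit 15) nil nil) nil) nil) (node (nat_lit 4) (nat_lit 65612) (nat_lit 12) (node
  (nat_lit 6) (nat_lit 66047) (nat_lit 13) nil nil) (node (nat_lit 10) (nat_lit 65612) (nat_lit
  12) (node (nat_lit 5) (nat_lit 64783) (nat_lit 13) nil nil) (node (nat_lit 6) (nat_lit 65612)
  (nat_lit 12) (node (nat_lit 4) (nat_lit 66047) (nat_lit 13) nil nil) nil)))) (node (nat_lit 2)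
  (nat_lit 63787) (nat_lit 11) (node (nat_lit 5) (nat_lit 64341) (nat_lit 12) (node (nat_lit 4)
  (nat_lit 64775) (nat_lit 13) (node (nat_lit 5) (nat_lit 65113) (nat_lit 14) (node (nat_lit 6)
  (nat_lit 65361) (nat_lit 15) nil nil) nil) nil) (node (nat_lit 4) (nat_lit 64594) (nat_lit 12)
  (node (nat_lit 6) (nat_lit 65028) (nat_lit 13) nil nil) (node (nat_lit 10) (nat_lit 64594)
  (nat_lit 12) (node (nat_lit 5) (nat_lit 63764) (nat_lit 13) nil nil) (node (nat_lit 6) (nat_lit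
  64594) (nat_lit 12) (node (nat_lit 4) (nat_lit 62077) (nat_lit 13) nil nil) (node (nat_lit 0)
  (nat_lit 64322) (nat_lit 12) nil nil))))) nil)))) (node (nat_lit 6) (nat_lit 63809) (nat_lit 10)
  (node (nat_lit 4) (nat_lit 64736) (nat_lit 11) (node (nat_lit 6) (nat_lit 65543) (nat_lit 12)
  (node (nat_lit 5) (nat_lit 66189) (nat_lit 13) (node (nat_lit 4) (nat_lit 66527) (nat_lit 14)
  (node (nat_lit 5) (nat_lit 66774) (nat_lit 15) nil nil) nil) nil) (node (nat_lit 10) (nat_lit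
  65543) (nat_lit 12) (node (nat_lit 5) (nat_lit 66189) (nat_lit 13) nil nil) nil)) (node (nat_lit
  10) (nat_lit 64736) (nat_lit 11) (node (nat_lit 6) (nat_lit 65543) (nat_lit 12) (node (nat_lit
  4) (nat_lit 65977) (nat_lit 13) nil nil) (node (nat_lit 5) (nat_lit 65543) (nat_lit 12) (node
  (nat_lit 4) (nat_lit 65977) (nat_lit 13) nil nil) (node (nat_lit 4) (nat_lit 65543) (nat_lit 12)
  nil nil))) (node (nat_lit 5) (nat_lit 64736) (nat_lit 11) (node (nat_lit 4) (nat_lit 65271)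
  (nat_lit 12) nil nil) (node (nat_lit 2) (nat_lit 63716) (nat_lit 11) (node (nat_lit 6) (nat_lit
  64523) (nat_lit 12) nil (node (nat_lit 5) (nat_lit 62622) (nat_lit 12) nil nil)) (node (nat_lit
  0) (nat_lit 64736) (nat_lit 11) (node (nat_lit 6) (nat_lit 65271) (nat_lit 12) nil (node
  (nat_lit 5) (nat_lit 63642) (nat_lit 12) nil nil)) nil))))) (node (nat_lit 0) (nat_lit 63809)
  (nat_lit 10) (node (nat_lit 5) (nat_lit 64736) (nat_lit 11) (node (nat_lit 4) (nat_lit 65271)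
  (nat_lit 12) nil (node (nat_lit 6) (nat_lit 65543) (nat_lit 12) nil nil)) (node (nat_lit 6)
  (nat_lit 64736) (nat_lit 11) (node (nat_lit 5) (nat_lit 63642) (nat_lit 12) nil nil) (node
  (nat_lit 10) (nat_lit 64736) (nat_lit 11) (node (nat_lit 5) (nat_lit 65543) (nat_lit 12) nil
  nil) (node (nat_lit 4) (nat_lit 64736) (nat_lit 11) (node (nat_lit 5) (nat_lit 65271) (nat_lit
  12) nil nil) (node (nat_lit 2) (nat_lit 62368) (nat_lit 11) nil (node (nat_lit 0) (nat_lit
  64400) (nat_lit 11) nil nil)))))) (node (nat_lit 2) (nat_lit 63809) (nat_lit 10) (node (nat_lit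
  5) (nat_lit 63178) (nat_lit 11) (node (nat_lit 4) (nat_lit 63985) (nat_lit 12) nil (node
  (nat_lit 6) (nat_lit 63551) (nat_lit 12) nil (node (nat_lit 10) (nat_lit 63713) (nat_lit 12) nil
  nil))) (node (nat_lit 10) (nat_lit 64736) (nat_lit 11) (node (nat_lit 5) (nat_lit 65543)
  (nat_lit 12) nil (node (nat_lit 4) (nat_lit 65271) (nat_lit 12) nil (node (nat_lit 13) (nat_lit
  63642) (nat_lit 12) nil nil))) (node (nat_lit 6) (nat_lit 64736) (nat_lit 11) (node (nat_lit 5)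
  (nat_lit 65543) (nat_lit 12) nil nil) (node (nat_lit 4) (nat_lit 64736) (nat_lit 11) (node
  (nat_lit 5) (nat_lit 65271) (nat_lit 12) nil nil) (node (nat_lit 0) (nat_lit 64736) (nat_lit 11)
  nil nil))))) nil)))) (node (nat_lit 10) (nat_lit 62809) (nat_lit 9) (node (nat_lit 5) (nat_lit
  63847) (nat_lit 10) (node (nat_lit 4) (nat_lit 64773) (nat_lit 11) (node (nat_lit 10) (nat_lit
  65308) (nat_lit 12) nil nil) (node (nat_lit 10) (nat_lit 64773) (nat_lit 11) nil nil)) (node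
  (nat_lit 6) (nat_lit 63847) (nat_lit 10) nil nil)) (node (nat_lit 6) (nat_lit 62771) (nat_lit 9)
  nil (node (nat_lit 0) (nat_lit 62771) (nat_lit 9) nil (node (nat_lit 2) (nat_lit 61214) (nat_lit
  9) nil nil))))) (node (nat_lit 5) (nat_lit 0) (nat_lit 8) (node (nat_lit 4) (nat_lit 62809)
  (nat_lit 9) (node (nat_lit 10) (nat_lit 63847) (nat_lit 10) (node (nat_lit 4) (nat_lit 64773)
  (nat_lit 11) (node (nat_lit 5) (nat_lit 65580) (nat_lit 12) (node (nat_lit 10) (nat_lit 66226)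
  (nat_lit 13) (node (nat_lit 5) (nat_lit 66719) (nat_lit 14) (node (nat_lit 4) (nat_lit 66967)
  (nat_lit 15) (node (nat_lit 5) (nat_lit 67155) (nat_lit 16) (node (nat_lit 6) (nat_lit 67295)
  (nat_lit 17) nil nil) nil) nil) nil) nil) nil) (node (nat_lit 5) (nat_lit 64773) (nat_lit 11)
  nil nil)) (node (nat_lit 6) (nat_lit 63847) (nat_lit 10) nil nil)) (node (nat_lit 6) (nat_lit
  62730) (nat_lit 9) (node (nat_lit 4) (nat_lit 63768) (nat_lit 10) nil nil) (node (nat_lit 2)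
  (nat_lit 62730) (nat_lit 9) nil (node (nat_lit 0) (nat_lit 62809) (nat_lit 9) nil nil)))) (node
  (nat_lit 6) (nat_lit 61232) (nat_lit 8) (node (nat_lit 5) (nat_lit 62730) (nat_lit 9) (node
  (nat_lit 4) (nat_lit 63768) (nat_lit 10) (node (nat_lit 5) (nat_lit 64359) (nat_lit 11) nil nil)
  (node (nat_lit 6) (nat_lit 63768) (nat_lit 10) nil nil)) (node (nat_lit 4) (nat_lit 62730)
  (nat_lit 9) (node (nat_lit 5) (nat_lit 63768) (nat_lit 10) (node (nat_lit 6) (nat_lit 64359)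
  (nat_lit 11) nil nil) nil) nil)) (node (nat_lit 0) (nat_lit 61274) (nat_lit 8) (node (nat_lit 5)
  (nat_lit 62771) (nat_lit 9) nil (node (nat_lit 4) (nat_lit 62771) (nat_lit 9) nil (node (nat_lit
  6) (nat_lit 62771) (nat_lit 9) nil (node (nat_lit 10) (nat_lit 62771) (nat_lit 9) nil nil))))
  (node (nat_lit 2) (nat_lit 61232) (nat_lit 8) (node (nat_lit 5) (nat_lit 62730) (nat_lit 9) nil
  (node (nat_lit 4) (nat_lit 62730) (nat_lit 9) nil (node (nat_lit 6) (nat_lit 62730) (nat_lit 9)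
  nil (node (nat_lit 10) (nat_lit 62730) (nat_lit 9) nil nil)))) nil))))) (node (nat_lit 2)
  (nat_lit 0) (nat_lit 7) (node (nat_lit 4) (nat_lit 0) (nat_lit 8) (node (nat_lit 5) (nat_lit
  62771) (nat_lit 9) (node (nat_lit 4) (nat_lit 63880) (nat_lit 10) (node (nat_lit 10) (nat_lit
  64805) (nat_lit 11) (node (nat_lit 5) (nat_lit 65612) (nat_lit 12) (node (nat_lit 10) (nat_lit
  66258) (nat_lit 13) (node (nat_lit 4) (nat_lit 66752) (nat_lit 14) (node (nat_lit 10) (nat_lit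
  66761) (nat_lit 15) nil (node (nat_lit 5) (nat_lit 67117) (nat_lit 15) nil (node (nat_lit 6)
  (nat_lit 66999) (nat_lit 15) nil nil))) (node (nat_lit 6) (nat_lit 66752) (nat_lit 14) nil nil))
  (node (nat_lit 4) (nat_lit 66258) (nat_lit 13) (node (nat_lit 5) (nat_lit 66752) (nat_lit 14)
  (node (nat_lit 10) (nat_lit 66761) (nat_lit 15) (node (nat_lit 5) (nat_lit 66381) (nat_lit 16)
  nil nil) (node (nat_lit 6) (nat_lit 66999) (nat_lit 15) (node (nat_lit 5) (nat_lit 67187)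
  (nat_lit 16) nil nil) nil)) (node (nat_lit 6) (nat_lit 66596) (nat_lit 14) (node (nat_lit 4)
  (nat_lit 66844) (nat_lit 15) nil nil) nil)) (node (nat_lit 6) (nat_lit 66258) (nat_lit 13) (node
  (nat_lit 4) (nat_lit 66800) (nat_lit 14) nil (node (nat_lit 5) (nat_lit 66596) (nat_lit 14) nil
  nil)) (node (nat_lit 0) (nat_lit 66258) (nat_lit 13) (node (nat_lit 5) (nat_lit 65628) (nat_lit
  14) nil nil) nil)))) (node (nat_lit 4) (nat_lit 65612) (nat_lit 12) (node (nat_lit 5) (nat_lit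
  66258) (nat_lit 13) (node (nat_lit 10) (nat_lit 66290) (nat_lit 14) (node (nat_lit 5) (nat_lit
  66511) (nat_lit 15) (node (nat_lit 4) (nat_lit 66699) (nat_lit 16) (node (nat_lit 5) (nat_lit
  66839) (nat_lit 17) nil nil) nil) (node (nat_lit 6) (nat_lit 66655) (nat_lit 15) nil nil)) (node
  (nat_lit 6) (nat_lit 66752) (nat_lit 14) nil nil)) (node (nat_lit 0) (nat_lit 66047) (nat_lit
  13) (node (nat_lit 5) (nat_lit 65416) (nat_lit 14) nil nil) (node (nat_lit 6) (nat_lit 66258)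
  (nat_lit 13) (node (nat_lit 4) (nat_lit 66596) (nat_lit 14) nil (node (nat_lit 5) (nat_lit
  65628) (nat_lit 14) nil nil)) nil))) (node (nat_lit 6) (nat_lit 65612) (nat_lit 12) (node
  (nat_lit 4) (nat_lit 66258) (nat_lit 13) (node (nat_lit 5) (nat_lit 62520) (nat_lit 14) nil nil)
  (node (nat_lit 5) (nat_lit 66258) (nat_lit 13) nil (node (nat_lit 10) (nat_lit 66047) (nat_lit
  13) nil nil))) (node (nat_lit 0) (nat_lit 65612) (nat_lit 12) (node (nat_lit 5) (nat_lit 66258)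
  (nat_lit 13) nil (node (nat_lit 6) (nat_lit 66047) (nat_lit 13) nil nil)) nil)))) (node (nat_lit
  6) (nat_lit 64805) (nat_lit 11) (node (nat_lit 5) (nat_lit 65612) (nat_lit 12) (node (nat_lit 4)
  (nat_lit 66258) (nat_lit 13) (node (nat_lit 5) (nat_lit 66752) (nat_lit 14) (node (nat_lit 6)
  (nat_lit 67117) (nat_lit 15) (node (nat_lit 5) (nat_lit 67305) (nat_lit 16) (node (nat_lit 4)
  (nat_lit 67446) (nat_lit 17) nil nil) nil) nil) (node (nat_lit 10) (nat_lit 65628) (nat_lit 14)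
  nil nil)) (node (nat_lit 6) (nat_lit 66258) (nat_lit 13) (node (nat_lit 4) (nat_lit 66752)
  (nat_lit 14) nil nil) (node (nat_lit 10) (nat_lit 65652) (nat_lit 13) nil nil))) (node (nat_lit
  4) (nat_lit 65612) (nat_lit 12) (node (nat_lit 5) (nat_lit 66047) (nat_lit 13) (node (nat_lit 6)
  (nat_lit 66385) (nat_lit 14) (node (nat_lit 5) (nat_lit 66633) (nat_lit 15) (node (nat_lit 4)
  (nat_lit 66820) (nat_lit 16) nil nil) nil) nil) (node (nat_lit 10) (nat_lit 64783) (nat_lit 13)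
  nil nil)) (node (nat_lit 10) (nat_lit 65612) (nat_lit 12) (node (nat_lit 6) (nat_lit 66258)
  (nat_lit 13) (node (nat_lit 4) (nat_lit 64220) (nat_lit 14) nil nil) (node (nat_lit 5) (nat_lit
  66258) (nat_lit 13) nil (node (nat_lit 4) (nat_lit 66047) (nat_lit 13) nil nil))) (node (nat_lit
  0) (nat_lit 65612) (nat_lit 12) (node (nat_lit 6) (nat_lit 66047) (nat_lit 13) nil nil) nil))))
  (node (nat_lit 0) (nat_lit 64805) (nat_lit 11) (node (nat_lit 5) (nat_lit 65612) (nat_lit 12)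
  (node (nat_lit 4) (nat_lit 66047) (nat_lit 13) (node (nat_lit 5) (nat_lit 66385) (nat_lit 14)
  (node (nat_lit 6) (nat_lit 66633) (nat_lit 15) nil nil) nil) nil) (node (nat_lit 4) (nat_lit
  65612) (nat_lit 12) (node (nat_lit 6) (nat_lit 66047) (nat_lit 13) nil nil) (node (nat_lit 10)
  (nat_lit 64821) (nat_lit 12) (node (nat_lit 5) (nat_lit 63991) (nat_lit 13) nil nil) (node
  (nat_lit 6) (nat_lit 65612) (nat_lit 12) (node (nat_lit 4) (nat_lit 66047) (nat_lit 13) nil nil)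
  nil)))) nil))) (node (nat_lit 6) (nat_lit 63809) (nat_lit 10) (node (nat_lit 4) (nat_lit 64833)
  (nat_lit 11) (node (nat_lit 6) (nat_lit 65640) (nat_lit 12) (node (nat_lit 5) (nat_lit 66286)
  (nat_lit 13) (node (nat_lit 4) (nat_lit 66624) (nat_lit 14) (node (nat_lit 5) (nat_lit 66872)
  (nat_lit 15) nil nil) nil) nil) (node (nat_lit 10) (nat_lit 65640) (nat_lit 12) (node (nat_lit
  5) (nat_lit 65266) (nat_lit 13) nil nil) nil)) (node (nat_lit 10) (nat_lit 64736) (nat_lit 11)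
  (node (nat_lit 6) (nat_lit 65543) (nat_lit 12) (node (nat_lit 4) (nat_lit 63026) (nat_lit 13)
  nil nil) (node (nat_lit 5) (nat_lit 65543) (nat_lit 12) (node (nat_lit 4) (nat_lit 65977)
  (nat_lit 13) nil nil) (node (nat_lit 4) (nat_lit 65543) (nat_lit 12) nil nil))) (node (nat_lit
  5) (nat_lit 64736) (nat_lit 11) (node (nat_lit 4) (nat_lit 65271) (nat_lit 12) nil nil) (node
  (nat_lit 0) (nat_lit 64736) (nat_lit 11) (node (nat_lit 6) (nat_lit 65271) (nat_lit 12) nil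
  (node (nat_lit 5) (nat_lit 63642) (nat_lit 12) nil nil)) nil)))) (node (nat_lit 0) (nat_lit
  63809) (nat_lit 10) (node (nat_lit 5) (nat_lit 64736) (nat_lit 11) (node (nat_lit 4) (nat_lit
  65271) (nat_lit 12) nil (node (nat_lit 6) (nat_lit 65543) (nat_lit 12) nil nil)) (node (nat_lit
  6) (nat_lit 64736) (nat_lit 11) (node (nat_lit 5) (nat_lit 63642) (nat_lit 12) nil nil) (node
  (nat_lit 10) (nat_lit 63716) (nat_lit 11) (node (nat_lit 5) (nat_lit 64271) (nat_lit 12) nil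
  (node (nat_lit 4) (nat_lit 64251) (nat_lit 12) nil (node (nat_lit 13) (nat_lit 64251) (nat_lit
  12) nil nil))) (node (nat_lit 4) (nat_lit 64736) (nat_lit 11) (node (nat_lit 5) (nat_lit 65271)
  (nat_lit 12) nil nil) (node (nat_lit 0) (nat_lit 64400) (nat_lit 11) nil nil))))) nil))) (node
  (nat_lit 10) (nat_lit 62771) (nat_lit 9) (node (nat_lit 5) (nat_lit 63809) (nat_lit 10) (node
  (nat_lit 4) (nat_lit 64736) (nat_lit 11) (node (nat_lit 10) (nat_lit 65543) (nat_lit 12) (node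
  (nat_lit 4) (nat_lit 65977) (nat_lit 13) nil nil) nil) (node (nat_lit 10) (nat_lit 64736)
  (nat_lit 11) nil nil)) (node (nat_lit 6) (nat_lit 63809) (nat_lit 10) nil nil)) (node (nat_lit
  6) (nat_lit 62771) (nat_lit 9) nil (node (nat_lit 0) (nat_lit 62771) (nat_lit 9) nil nil))))
  (node (nat_lit 5) (nat_lit 0) (nat_lit 8) (node (nat_lit 4) (nat_lit 62809) (nat_lit 9) (node
  (nat_lit 10) (nat_lit 63847) (nat_lit 10) (node (nat_lit 4) (nat_lit 64773) (nat_lit 11) (node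
  (nat_lit 5) (nat_lit 65580) (nat_lit 12) (node (nat_lit 10) (nat_lit 65620) (nat_lit 13) (node
  (nat_lit 5) (nat_lit 65928) (nat_lit 14) (node (nat_lit 4) (nat_lit 66175) (nat_lit 15) (node
  (nat_lit 5) (nat_lit 66363) (nat_lit 16) (node (nat_lit 6) (nat_lit 66504) (nat_lit 17) (node
  (nat_lit 5) (nat_lit 66613) (nat_lit 18) nil nil) nil) nil) nil) nil) nil) nil) (node (nat_lit
  5) (nat_lit 64773) (nat_lit 11) nil nil)) (node (nat_lit 6) (nat_lit 63847) (nat_lit 10) nil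
  nil)) (node (nat_lit 6) (nat_lit 62587) (nat_lit 9) (node (nat_lit 4) (nat_lit 63880) (nat_lit
  10) nil nil) (node (nat_lit 0) (nat_lit 62809) (nat_lit 9) nil nil))) (node (nat_lit 6) (nat_lit
  61090) (nat_lit 8) (node (nat_lit 5) (nat_lit 62587) (nat_lit 9) (node (nat_lit 4) (nat_lit
  63625) (nat_lit 10) (node (nat_lit 5) (nat_lit 64216) (nat_lit 11) nil nil) (node (nat_lit 6)
  (nat_lit 63625) (nat_lit 10) nil nil)) (node (nat_lit 4) (nat_lit 62809) (nat_lit 9) (node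
  (nat_lit 5) (nat_lit 63847) (nat_lit 10) (node (nat_lit 6) (nat_lit 51081) (nat_lit 11) nil nil)
  nil) (node (nat_lit 10) (nat_lit 62587) (nat_lit 9) nil nil))) (node (nat_lit 0) (nat_lit 61274)
  (nat_lit 8) (node (nat_lit 5) (nat_lit 62771) (nat_lit 9) nil (node (nat_lit 4) (nat_lit 62771)
  (nat_lit 9) nil (node (nat_lit 6) (nat_lit 62771) (nat_lit 9) nil (node (nat_lit 10) (nat_lit
  62771) (nat_lit 9) nil nil)))) nil)))) (node (nat_lit 6) (nat_lit 0) (nat_lit 7) (node (nat_lit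
  0) (nat_lit 58992) (nat_lit 8) nil (node (nat_lit 2) (nat_lit 58808) (nat_lit 8) nil (node
  (nat_lit 4) (nat_lit 54378) (nat_lit 8) nil nil))) nil)))

noncomputable def t166 : Tr :=
  (node (nat_lit 5) (nat_lit 0) (nat_lit 4) (node (nat_lit 4) (nat_lit 0) (nat_lit 5) (node
  (nat_lit 5) (nat_lit 0) (nat_lit 6) t165 (node (nat_lit 0) (nat_lit 0) (nat_lit 6) (node
  (nat_lit 4) (nat_lit 121682) (nat_lit 7) (node (nat_lit 6) (nat_lit 122929) (nat_lit 8) (node
  (nat_lit 4) (nat_lit 124772) (nat_lit 9) (node (nat_lit 5) (nat_lit 126009) (nat_lit 10) nil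
  nil) nil) nil) (node (nat_lit 5) (nat_lit 121627) (nat_lit 7) (node (nat_lit 4) (nat_lit 124999)
  (nat_lit 8) (node (nat_lit 5) (nat_lit 124999) (nat_lit 9) (node (nat_lit 6) (nat_lit 123850)
  (nat_lit 10) (node (nat_lit 5) (nat_lit 123543) (nat_lit 11) nil nil) nil) nil) (node (nat_lit
  6) (nat_lit 120804) (nat_lit 8) (node (nat_lit 4) (nat_lit 122614) (nat_lit 9) (node (nat_lit 5)
  (nat_lit 115943) (nat_lit 10) (node (nat_lit 6) (nat_lit 108228) (nat_lit 11) (node (nat_lit 5)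
  (nat_lit 95624) (nat_lit 12) (node (nat_lit 4) (nat_lit 75430) (nat_lit 13) nil nil) nil) nil)
  nil) nil) nil)) (node (nat_lit 6) (nat_lit 121808) (nat_lit 7) (node (nat_lit 5) (nat_lit
  124148) (nat_lit 8) (node (nat_lit 4) (nat_lit 120407) (nat_lit 9) nil nil) (node (nat_lit 4)
  (nat_lit 126308) (nat_lit 8) (node (nat_lit 5) (nat_lit 126308) (nat_lit 9) (node (nat_lit 6)
  (nat_lit 126308) (nat_lit 10) nil nil) nil) nil)) (node (nat_lit 0) (nat_lit 121627) (nat_lit 7)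
  nil (node (nat_lit 2) (nat_lit 121627) (nat_lit 7) nil nil))))) (node (nat_lit 2) (nat_lit 0)
  (nat_lit 6) (node (nat_lit 4) (nat_lit 0) (nat_lit 7) (node (nat_lit 5) (nat_lit 124249)
  (nat_lit 8) nil (node (nat_lit 6) (nat_lit 124834) (nat_lit 8) (node (nat_lit 4) (nat_lit
  125430) (nat_lit 9) (node (nat_lit 5) (nat_lit 125430) (nat_lit 10) nil nil) nil) (node (nat_lit
  0) (nat_lit 124249) (nat_lit 8) nil nil))) (node (nat_lit 5) (nat_lit 118839) (nat_lit 7) (node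
  (nat_lit 4) (nat_lit 122656) (nat_lit 8) (node (nat_lit 5) (nat_lit 120659) (nat_lit 9) (node
  (nat_lit 6) (nat_lit 111840) (nat_lit 10) (node (nat_lit 5) (nat_lit 72954) (nat_lit 11) nil
  nil) nil) nil) (node (nat_lit 6) (nat_lit 120732) (nat_lit 8) (node (nat_lit 4) (nat_lit 121026)
  (nat_lit 9) (node (nat_lit 5) (nat_lit 117344) (nat_lit 10) (node (nat_lit 6) (nat_lit 105522)
  (nat_lit 11) (node (nat_lit 5) (nat_lit 93962) (nat_lit 12) (node (nat_lit 4) (nat_lit 77052)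
  (nat_lit 13) nil nil) nil) nil) nil) nil) nil)) (node (nat_lit 6) (nat_lit 121056) (nat_lit 7)
  (node (nat_lit 5) (nat_lit 120946) (nat_lit 8) (node (nat_lit 4) (nat_lit 121446) (nat_lit 9)
  nil nil) (node (nat_lit 4) (nat_lit 122351) (nat_lit 8) (node (nat_lit 5) (nat_lit 103266)
  (nat_lit 9) (node (nat_lit 6) (nat_lit 89882) (nat_lit 10) (node (nat_lit 5) (nat_lit 66121)
  (nat_lit 11) (node (nat_lit 4) (nat_lit 59564) (nat_lit 12) nil nil) nil) nil) nil) nil)) (node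
  (nat_lit 0) (nat_lit 121545) (nat_lit 7) (node (nat_lit 5) (nat_lit 124834) (nat_lit 8) nil
  (node (nat_lit 6) (nat_lit 124834) (nat_lit 8) nil nil)) nil)))) (node (nat_lit 6) (nat_lit 0)
  (nat_lit 6) (node (nat_lit 0) (nat_lit 121864) (nat_lit 7) (node (nat_lit 4) (nat_lit 125641)
  (nat_lit 8) (node (nat_lit 6) (nat_lit 125641) (nat_lit 9) nil nil) (node (nat_lit 5) (nat_lit
  124725) (nat_lit 8) (node (nat_lit 4) (nat_lit 126159) (nat_lit 9) nil nil) (node (nat_lit 6)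
  (nat_lit 124725) (nat_lit 8) (node (nat_lit 4) (nat_lit 126159) (nat_lit 9) nil nil) nil)))
  (node (nat_lit 2) (nat_lit 120886) (nat_lit 7) (node (nat_lit 4) (nat_lit 124455) (nat_lit 8)
  (node (nat_lit 6) (nat_lit 124455) (nat_lit 9) (node (nat_lit 5) (nat_lit 123409) (nat_lit 10)
  nil nil) nil) (node (nat_lit 5) (nat_lit 120886) (nat_lit 8) (node (nat_lit 4) (nat_lit 124362)
  (nat_lit 9) nil nil) (node (nat_lit 6) (nat_lit 120886) (nat_lit 8) (node (nat_lit 4) (nat_lit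
  124972) (nat_lit 9) nil nil) nil))) (node (nat_lit 4) (nat_lit 0) (nat_lit 7) (node (nat_lit 5)
  (nat_lit 115858) (nat_lit 8) (node (nat_lit 6) (nat_lit 121562) (nat_lit 9) (node (nat_lit 5)
  (nat_lit 120018) (nat_lit 10) (node (nat_lit 4) (nat_lit 51169) (nat_lit 11) nil nil) nil) nil)
  (node (nat_lit 0) (nat_lit 124240) (nat_lit 8) nil (node (nat_lit 2) (nat_lit 124200) (nat_lit
  8) nil nil))) (node (nat_lit 5) (nat_lit 0) (nat_lit 7) (node (nat_lit 6) (nat_lit 116382)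
  (nat_lit 8) (node (nat_lit 4) (nat_lit 121411) (nat_lit 9) (node (nat_lit 5) (nat_lit 125074)
  (nat_lit 10) nil nil) nil) (node (nat_lit 2) (nat_lit 120097) (nat_lit 8) nil (node (nat_lit 0)
  (nat_lit 124240) (nat_lit 8) nil nil))) nil)))) nil)))) (node (nat_lit 0) (nat_lit 0) (nat_lit
  5) (node (nat_lit 6) (nat_lit 125686) (nat_lit 6) (node (nat_lit 8) (nat_lit 129262) (nat_lit 7)
  (node (nat_lit 5) (nat_lit 127659) (nat_lit 8) nil nil) (node (nat_lit 5) (nat_lit 127359)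
  (nat_lit 7) (node (nat_lit 4) (nat_lit 125916) (nat_lit 8) (node (nat_lit 5) (nat_lit 121528)
  (nat_lit 9) (node (nat_lit 6) (nat_lit 109725) (nat_lit 10) (node (nat_lit 5) (nat_lit 75468)
  (nat_lit 11) nil nil) nil) nil) nil) (node (nat_lit 4) (nat_lit 128195) (nat_lit 7) (node
  (nat_lit 5) (nat_lit 129469) (nat_lit 8) (node (nat_lit 6) (nat_lit 130294) (nat_lit 9) (node
  (nat_lit 5) (nat_lit 130405) (nat_lit 10) nil nil) nil) nil) nil))) (node (nat_lit 4) (nat_lit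
  126374) (nat_lit 6) (node (nat_lit 5) (nat_lit 128456) (nat_lit 7) (node (nat_lit 8) (nat_lit
  129730) (nat_lit 8) (node (nat_lit 5) (nat_lit 127523) (nat_lit 9) (node (nat_lit 4) (nat_lit
  128192) (nat_lit 10) (node (nat_lit 5) (nat_lit 128782) (nat_lit 11) (node (nat_lit 6) (nat_lit
  129318) (nat_lit 12) nil nil) nil) nil) nil) nil) (node (nat_lit 8) (nat_lit 128456) (nat_lit 7)
  (node (nat_lit 5) (nat_lit 125773) (nat_lit 8) (node (nat_lit 4) (nat_lit 126655) (nat_lit 9)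
  (node (nat_lit 5) (nat_lit 127323) (nat_lit 10) (node (nat_lit 6) (nat_lit 127914) (nat_lit 11)
  (node (nat_lit 5) (nat_lit 128449) (nat_lit 12) (node (nat_lit 8) (nat_lit 128883) (nat_lit 13)
  (node (nat_lit 4) (nat_lit 129221) (nat_lit 14) nil nil) nil) nil) nil) nil) nil) nil) (node
  (nat_lit 6) (nat_lit 128679) (nat_lit 7) (node (nat_lit 5) (nat_lit 119814) (nat_lit 8) nil
  (node (nat_lit 4) (nat_lit 131033) (nat_lit 8) (node (nat_lit 5) (nat_lit 131340) (nat_lit 9)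
  (node (nat_lit 6) (nat_lit 131340) (nat_lit 10) (node (nat_lit 5) (nat_lit 131340) (nat_lit 11)
  nil nil) nil) nil) nil)) nil))) (node (nat_lit 5) (nat_lit 125705) (nat_lit 6) (node (nat_lit 6)
  (nat_lit 124765) (nat_lit 7) (node (nat_lit 4) (nat_lit 118517) (nat_lit 8) (node (nat_lit 5)
  (nat_lit 111923) (nat_lit 9) (node (nat_lit 6) (nat_lit 100614) (nat_lit 10) (node (nat_lit 5)
  (nat_lit 76550) (nat_lit 11) (node (nat_lit 8) (nat_lit 65206) (nat_lit 12) nil nil) nil) nil)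
  nil) nil) (node (nat_lit 4) (nat_lit 127947) (nat_lit 7) (node (nat_lit 5) (nat_lit 128383)
  (nat_lit 8) (node (nat_lit 6) (nat_lit 128149) (nat_lit 9) (node (nat_lit 5) (nat_lit 127591)
  (nat_lit 10) nil nil) nil) nil) nil)) (node (nat_lit 0) (nat_lit 122086) (nat_lit 6) (node
  (nat_lit 8) (nat_lit 125662) (nat_lit 7) nil (node (nat_lit 5) (nat_lit 120384) (nat_lit 7)
  (node (nat_lit 4) (nat_lit 122738) (nat_lit 8) nil (node (nat_lit 6) (nat_lit 116932) (nat_lit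
  8) nil nil)) (node (nat_lit 6) (nat_lit 120621) (nat_lit 7) (node (nat_lit 4) (nat_lit 122975)
  (nat_lit 8) nil nil) nil))) (node (nat_lit 2) (nat_lit 125515) (nat_lit 6) (node (nat_lit 8)
  (nat_lit 127947) (nat_lit 7) (node (nat_lit 5) (nat_lit 125494) (nat_lit 8) nil nil) (node
  (nat_lit 5) (nat_lit 120379) (nat_lit 7) (node (nat_lit 4) (nat_lit 116754) (nat_lit 8) (node
  (nat_lit 5) (nat_lit 109324) (nat_lit 9) nil nil) nil) (node (nat_lit 6) (nat_lit 122532)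
  (nat_lit 7) (node (nat_lit 4) (nat_lit 114528) (nat_lit 8) nil nil) nil))) nil))))) (node
  (nat_lit 2) (nat_lit 0) (nat_lit 5) (node (nat_lit 4) (nat_lit 125770) (nat_lit 6) (node
  (nat_lit 5) (nat_lit 127706) (nat_lit 7) nil (node (nat_lit 8) (nat_lit 126811) (nat_lit 7)
  (node (nat_lit 5) (nat_lit 125520) (nat_lit 8) (node (nat_lit 4) (nat_lit 124540) (nat_lit 9)
  (node (nat_lit 5) (nat_lit 119449) (nat_lit 10) (node (nat_lit 6) (nat_lit 113173) (nat_lit 11)
  (node (nat_lit 5) (nat_lit 101561) (nat_lit 12) (node (nat_lit 8) (nat_lit 83663) (nat_lit 13)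
  (node (nat_lit 4) (nat_lit 58052) (nat_lit 14) nil nil) nil) nil) nil) nil) nil) (node (nat_lit
  6) (nat_lit 120781) (nat_lit 8) (node (nat_lit 4) (nat_lit 119054) (nat_lit 9) (node (nat_lit 5)
  (nat_lit 113395) (nat_lit 10) (node (nat_lit 6) (nat_lit 93069) (nat_lit 11) (node (nat_lit 5)
  (nat_lit 81458) (nat_lit 12) (node (nat_lit 8) (nat_lit 63559) (nat_lit 13) (node (nat_lit 4)
  (nat_lit 60765) (nat_lit 14) nil nil) nil) nil) nil) nil) nil) nil)) (node (nat_lit 6) (nat_lit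
  127361) (nat_lit 7) (node (nat_lit 4) (nat_lit 129715) (nat_lit 8) (node (nat_lit 5) (nat_lit
  129909) (nat_lit 9) (node (nat_lit 6) (nat_lit 129909) (nat_lit 10) (node (nat_lit 5) (nat_lit
  129909) (nat_lit 11) nil nil) nil) nil) nil) nil))) (node (nat_lit 6) (nat_lit 0) (nat_lit 6)
  (node (nat_lit 8) (nat_lit 0) (nat_lit 7) (node (nat_lit 5) (nat_lit 85147) (nat_lit 8) (node
  (nat_lit 6) (nat_lit 101595) (nat_lit 9) (node (nat_lit 4) (nat_lit 115253) (nat_lit 10) (node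
  (nat_lit 5) (nat_lit 104460) (nat_lit 11) (node (nat_lit 6) (nat_lit 103432) (nat_lit 12) (node
  (nat_lit 5) (nat_lit 104403) (nat_lit 13) nil nil) nil) nil) (node (nat_lit 5) (nat_lit 105786)
  (nat_lit 10) (node (nat_lit 4) (nat_lit 109565) (nat_lit 11) (node (nat_lit 5) (nat_lit 108349)
  (nat_lit 12) (node (nat_lit 6) (nat_lit 107526) (nat_lit 13) nil nil) nil) (node (nat_lit 8)
  (nat_lit 105753) (nat_lit 11) nil nil)) (node (nat_lit 0) (nat_lit 113194) (nat_lit 10) nil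
  nil))) (node (nat_lit 4) (nat_lit 110154) (nat_lit 9) (node (nat_lit 5) (nat_lit 100089)
  (nat_lit 10) (node (nat_lit 6) (nat_lit 97903) (nat_lit 11) nil nil) nil) (node (nat_lit 8)
  (nat_lit 101252) (nat_lit 9) (node (nat_lit 6) (nat_lit 107685) (nat_lit 10) (node (nat_lit 5)
  (nat_lit 107344) (nat_lit 11) nil nil) (node (nat_lit 4) (nat_lit 117952) (nat_lit 10) nil nil))
  (node (nat_lit 0) (nat_lit 115901) (nat_lit 9) nil nil)))) (node (nat_lit 4) (nat_lit 124842)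
  (nat_lit 8) (node (nat_lit 6) (nat_lit 123788) (nat_lit 9) nil nil) (node (nat_lit 0) (nat_lit
  116385) (nat_lit 8) nil nil))) (node (nat_lit 5) (nat_lit 0) (nat_lit 7) (node (nat_lit 6)
  (nat_lit 85037) (nat_lit 8) (node (nat_lit 8) (nat_lit 99700) (nat_lit 9) (node (nat_lit 5)
  (nat_lit 105992) (nat_lit 10) (node (nat_lit 6) (nat_lit 102506) (nat_lit 11) nil nil) (node
  (nat_lit 6) (nat_lit 104414) (nat_lit 10) nil nil)) (node (nat_lit 4) (nat_lit 110133) (nat_lit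
  9) (node (nat_lit 5) (nat_lit 105286) (nat_lit 10) (node (nat_lit 6) (nat_lit 98943) (nat_lit
  11) nil nil) nil) (node (nat_lit 0) (nat_lit 105266) (nat_lit 9) nil nil))) (node (nat_lit 4)
  (nat_lit 115428) (nat_lit 8) (node (nat_lit 5) (nat_lit 108502) (nat_lit 9) (node (nat_lit 6)
  (nat_lit 105289) (nat_lit 10) (node (nat_lit 5) (nat_lit 73470) (nat_lit 11) nil nil) nil) (node
  (nat_lit 6) (nat_lit 115428) (nat_lit 9) nil nil)) (node (nat_lit 0) (nat_lit 117254) (nat_lit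
  8) nil nil))) (node (nat_lit 4) (nat_lit 118794) (nat_lit 7) (node (nat_lit 5) (nat_lit 108606)
  (nat_lit 8) (node (nat_lit 6) (nat_lit 88176) (nat_lit 9) (node (nat_lit 5) (nat_lit 63357)
  (nat_lit 10) nil nil) nil) nil) (node (nat_lit 0) (nat_lit 122590) (nat_lit 7) (node (nat_lit 6)
  (nat_lit 122590) (nat_lit 8) nil nil) nil)))) (node (nat_lit 5) (nat_lit 0) (nat_lit 6) (node
  (nat_lit 4) (nat_lit 119639) (nat_lit 7) (node (nat_lit 6) (nat_lit 119639) (nat_lit 8) (node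
  (nat_lit 4) (nat_lit 120510) (nat_lit 9) (node (nat_lit 5) (nat_lit 120510) (nat_lit 10) nil
  nil) nil) (node (nat_lit 5) (nat_lit 109572) (nat_lit 8) (node (nat_lit 6) (nat_lit 96266)
  (nat_lit 9) (node (nat_lit 5) (nat_lit 66433) (nat_lit 10) nil nil) nil) nil)) (node (nat_lit 6)
  (nat_lit 84984) (nat_lit 7) (node (nat_lit 4) (nat_lit 108042) (nat_lit 8) (node (nat_lit 5)
  (nat_lit 103044) (nat_lit 9) (node (nat_lit 6) (nat_lit 90980) (nat_lit 10) nil nil) nil) (node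
  (nat_lit 8) (nat_lit 84896) (nat_lit 8) (node (nat_lit 6) (nat_lit 97947) (nat_lit 9) (node
  (nat_lit 5) (nat_lit 101896) (nat_lit 10) nil nil) nil) (node (nat_lit 5) (nat_lit 84984)
  (nat_lit 8) (node (nat_lit 4) (nat_lit 106188) (nat_lit 9) (node (nat_lit 5) (nat_lit 97071)
  (nat_lit 10) (node (nat_lit 6) (nat_lit 97352) (nat_lit 11) nil nil) nil) nil) nil))) (node
  (nat_lit 0) (nat_lit 121549) (nat_lit 7) (node (nat_lit 5) (nat_lit 119845) (nat_lit 8) (node
  (nat_lit 4) (nat_lit 120727) (nat_lit 9) nil nil) (node (nat_lit 6) (nat_lit 121549) (nat_lit 8)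
  nil nil)) nil))) (node (nat_lit 0) (nat_lit 121968) (nat_lit 6) (node (nat_lit 8) (nat_lit
  123053) (nat_lit 7) (node (nat_lit 5) (nat_lit 119187) (nat_lit 8) nil (node (nat_lit 6)
  (nat_lit 114323) (nat_lit 8) nil nil)) (node (nat_lit 5) (nat_lit 124652) (nat_lit 7) (node
  (nat_lit 4) (nat_lit 125805) (nat_lit 8) nil nil) (node (nat_lit 6) (nat_lit 120634) (nat_lit 7)
  (node (nat_lit 4) (nat_lit 122988) (nat_lit 8) nil nil) nil))) nil)))) nil))) (node (nat_lit 0)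
  (nat_lit 0) (nat_lit 4) (node (nat_lit 4) (nat_lit 123050) (nat_lit 5) (node (nat_lit 6)
  (nat_lit 127291) (nat_lit 6) (node (nat_lit 5) (nat_lit 124492) (nat_lit 7) (node (nat_lit 6)
  (nat_lit 124287) (nat_lit 8) nil nil) nil) nil) (node (nat_lit 5) (nat_lit 122477) (nat_lit 5)
  (node (nat_lit 7) (nat_lit 127007) (nat_lit 6) nil (node (nat_lit 4) (nat_lit 126718) (nat_lit
  6) (node (nat_lit 6) (nat_lit 127056) (nat_lit 7) nil (node (nat_lit 5) (nat_lit 127056)
  (nat_lit 7) (node (nat_lit 6) (nat_lit 127056) (nat_lit 8) nil nil) nil)) (node (nat_lit 6)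
  (nat_lit 123130) (nat_lit 6) (node (nat_lit 4) (nat_lit 118920) (nat_lit 7) (node (nat_lit 5)
  (nat_lit 109720) (nat_lit 8) (node (nat_lit 6) (nat_lit 71595) (nat_lit 9) (node (nat_lit 5)
  (nat_lit 71595) (nat_lit 10) nil nil) nil) nil) nil) nil))) (node (nat_lit 6) (nat_lit 122477)
  (nat_lit 5) (node (nat_lit 5) (nat_lit 122138) (nat_lit 6) (node (nat_lit 4) (nat_lit 120294)
  (nat_lit 7) (node (nat_lit 5) (nat_lit 113679) (nat_lit 8) (node (nat_lit 6) (nat_lit 94421)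
  (nat_lit 9) nil nil) nil) nil) (node (nat_lit 4) (nat_lit 127007) (nat_lit 6) (node (nat_lit 5)
  (nat_lit 127056) (nat_lit 7) (node (nat_lit 6) (nat_lit 127056) (nat_lit 8) nil nil) nil) nil))
  (node (nat_lit 0) (nat_lit 123017) (nat_lit 5) (node (nat_lit 5) (nat_lit 127067) (nat_lit 6)
  (node (nat_lit 4) (nat_lit 128189) (nat_lit 7) nil nil) nil) (node (nat_lit 2) (nat_lit 119548)
  (nat_lit 5) (node (nat_lit 5) (nat_lit 116379) (nat_lit 6) (node (nat_lit 4) (nat_lit 113834)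
  (nat_lit 7) (node (nat_lit 6) (nat_lit 112765) (nat_lit 8) nil (node (nat_lit 5) (nat_lit 98367)
  (nat_lit 8) nil nil)) nil) (node (nat_lit 4) (nat_lit 121682) (nat_lit 6) (node (nat_lit 6)
  (nat_lit 123207) (nat_lit 7) nil nil) (node (nat_lit 6) (nat_lit 117241) (nat_lit 6) (node
  (nat_lit 4) (nat_lit 109809) (nat_lit 7) (node (nat_lit 5) (nat_lit 98981) (nat_lit 8) nil nil)
  (node (nat_lit 5) (nat_lit 114172) (nat_lit 7) (node (nat_lit 4) (nat_lit 112385) (nat_lit 8)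
  nil nil) nil)) nil))) nil))))) (node (nat_lit 2) (nat_lit 0) (nat_lit 4) (node (nat_lit 4)
  (nat_lit 121295) (nat_lit 5) (node (nat_lit 7) (nat_lit 124174) (nat_lit 6) nil (node (nat_lit
  6) (nat_lit 124174) (nat_lit 6) (node (nat_lit 5) (nat_lit 124174) (nat_lit 7) (node (nat_lit 4)
  (nat_lit 126221) (nat_lit 8) (node (nat_lit 5) (nat_lit 119689) (nat_lit 9) (node (nat_lit 6)
  (nat_lit 106706) (nat_lit 10) nil nil) nil) (node (nat_lit 6) (nat_lit 124174) (nat_lit 8) (node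
  (nat_lit 4) (nat_lit 126596) (nat_lit 9) (node (nat_lit 5) (nat_lit 126121) (nat_lit 10) nil
  nil) nil) nil)) nil) nil)) (node (nat_lit 5) (nat_lit 0) (nat_lit 5) (node (nat_lit 7) (nat_lit
  0) (nat_lit 6) (node (nat_lit 6) (nat_lit 84967) (nat_lit 7) (node (nat_lit 5) (nat_lit 85157)
  (nat_lit 8) (node (nat_lit 6) (nat_lit 98265) (nat_lit 9) (node (nat_lit 4) (nat_lit 105737)
  (nat_lit 10) nil nil) (node (nat_lit 4) (nat_lit 103356) (nat_lit 9) nil nil)) (node (nat_lit 4)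
  (nat_lit 111707) (nat_lit 8) (node (nat_lit 5) (nat_lit 99457) (nat_lit 9) (node (nat_lit 6)
  (nat_lit 91574) (nat_lit 10) (node (nat_lit 7) (nat_lit 65036) (nat_lit 11) nil nil) nil) nil)
  (node (nat_lit 7) (nat_lit 84878) (nat_lit 8) (node (nat_lit 5) (nat_lit 95309) (nat_lit 9) nil
  nil) nil))) (node (nat_lit 4) (nat_lit 115329) (nat_lit 7) (node (nat_lit 6) (nat_lit 115329)
  (nat_lit 8) nil nil) (node (nat_lit 0) (nat_lit 115329) (nat_lit 7) nil nil))) (node (nat_lit 4)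
  (nat_lit 109467) (nat_lit 6) (node (nat_lit 6) (nat_lit 109467) (nat_lit 7) nil (node (nat_lit
  5) (nat_lit 100485) (nat_lit 7) (node (nat_lit 6) (nat_lit 61881) (nat_lit 8) nil nil) nil))
  (node (nat_lit 6) (nat_lit 84971) (nat_lit 6) (node (nat_lit 4) (nat_lit 108268) (nat_lit 7)
  (node (nat_lit 5) (nat_lit 105026) (nat_lit 8) (node (nat_lit 6) (nat_lit 70739) (nat_lit 9) nil
  nil) nil) (node (nat_lit 5) (nat_lit 84971) (nat_lit 7) (node (nat_lit 4) (nat_lit 111653)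
  (nat_lit 8) (node (nat_lit 5) (nat_lit 100281) (nat_lit 9) (node (nat_lit 6) (nat_lit 80903)
  (nat_lit 10) nil nil) nil) (node (nat_lit 7) (nat_lit 85019) (nat_lit 8) nil nil)) nil)) (node
  (nat_lit 0) (nat_lit 112839) (nat_lit 6) nil nil)))) (node (nat_lit 6) (nat_lit 0) (nat_lit 5)
  (node (nat_lit 5) (nat_lit 84960) (nat_lit 6) (node (nat_lit 4) (nat_lit 111952) (nat_lit 7)
  (node (nat_lit 6) (nat_lit 111952) (nat_lit 8) nil (node (nat_lit 5) (nat_lit 100038) (nat_lit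
  8) (node (nat_lit 6) (nat_lit 86533) (nat_lit 9) nil nil) nil)) (node (nat_lit 7) (nat_lit
  84960) (nat_lit 7) (node (nat_lit 4) (nat_lit 110747) (nat_lit 8) nil (node (nat_lit 5) (nat_lit
  85044) (nat_lit 8) (node (nat_lit 6) (nat_lit 97209) (nat_lit 9) nil nil) (node (nat_lit 6)
  (nat_lit 84960) (nat_lit 8) nil nil))) (node (nat_lit 6) (nat_lit 84960) (nat_lit 7) (node
  (nat_lit 4) (nat_lit 107533) (nat_lit 8) (node (nat_lit 5) (nat_lit 98464) (nat_lit 9) nil nil)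
  (node (nat_lit 7) (nat_lit 85124) (nat_lit 8) nil nil)) nil))) (node (nat_lit 4) (nat_lit
  112422) (nat_lit 6) (node (nat_lit 5) (nat_lit 101543) (nat_lit 7) (node (nat_lit 6) (nat_lit
  70022) (nat_lit 8) nil (node (nat_lit 4) (nat_lit 103439) (nat_lit 8) (node (nat_lit 6) (nat_lit
  103439) (nat_lit 9) (node (nat_lit 5) (nat_lit 102135) (nat_lit 10) (node (nat_lit 6) (nat_lit
  101797) (nat_lit 11) nil nil) nil) nil) nil)) (node (nat_lit 6) (nat_lit 112422) (nat_lit 7)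
  (node (nat_lit 5) (nat_lit 112422) (nat_lit 8) nil nil) nil)) (node (nat_lit 0) (nat_lit 112802)
  (nat_lit 6) nil nil))) (node (nat_lit 0) (nat_lit 120273) (nat_lit 5) (node (nat_lit 5) (nat_lit
  121292) (nat_lit 6) (node (nat_lit 4) (nat_lit 122843) (nat_lit 7) nil nil) (node (nat_lit 4)
  (nat_lit 122187) (nat_lit 6) nil (node (nat_lit 6) (nat_lit 120704) (nat_lit 6) (node (nat_lit
  4) (nat_lit 122843) (nat_lit 7) (node (nat_lit 5) (nat_lit 122843) (nat_lit 8) nil nil) nil)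
  nil))) nil)))) nil)))

noncomputable def t167 : Tr :=
  (node (nat_lit 5) (nat_lit 0) (nat_lit 5) (node (nat_lit 7) (nat_lit 0) (nat_lit 6) (node
  (nat_lit 0) (nat_lit 0) (nat_lit 7) (node (nat_lit 5) (nat_lit 73137) (nat_lit 8) (node (nat_lit
  7) (nat_lit 73137) (nat_lit 9) (node (nat_lit 5) (nat_lit 73137) (nat_lit 10) (node (nat_lit 4)
  (nat_lit 73641) (nat_lit 11) (node (nat_lit 7) (nat_lit 73641) (nat_lit 12) (node (nat_lit 4)
  (nat_lit 73641) (nat_lit 13) (node (nat_lit 5) (nat_lit 73641) (nat_lit 14) nil nil) nil) nil)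
  nil) (node (nat_lit 4) (nat_lit 73641) (nat_lit 10) (node (nat_lit 5) (nat_lit 72092) (nat_lit
  11) (node (nat_lit 4) (nat_lit 68847) (nat_lit 12) (node (nat_lit 7) (nat_lit 60352) (nat_lit
  13) (node (nat_lit 5) (nat_lit 45888) (nat_lit 14) (node (nat_lit 7) (nat_lit 27697) (nat_lit
  15) nil nil) nil) nil) nil) nil) (node (nat_lit 0) (nat_lit 73641) (nat_lit 10) nil (node
  (nat_lit 2) (nat_lit 73137) (nat_lit 10) nil nil)))) (node (nat_lit 10) (nat_lit 73641) (nat_lit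
  9) (node (nat_lit 7) (nat_lit 73641) (nat_lit 10) nil nil) nil)) (node (nat_lit 7) (nat_lit
  73137) (nat_lit 8) (node (nat_lit 4) (nat_lit 73641) (nat_lit 9) (node (nat_lit 5) (nat_lit
  73641) (nat_lit 10) (node (nat_lit 4) (nat_lit 73641) (nat_lit 11) nil nil) nil) nil) (node
  (nat_lit 4) (nat_lit 73543) (nat_lit 8) (node (nat_lit 7) (nat_lit 73543) (nat_lit 9) (node
  (nat_lit 4) (nat_lit 73641) (nat_lit 10) (node (nat_lit 5) (nat_lit 73641) (nat_lit 11) nil nil)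
  nil) nil) (node (nat_lit 0) (nat_lit 73543) (nat_lit 8) (node (nat_lit 7) (nat_lit 73543)
  (nat_lit 9) nil nil) (node (nat_lit 2) (nat_lit 73137) (nat_lit 8) (node (nat_lit 7) (nat_lit
  73137) (nat_lit 9) nil (node (nat_lit 5) (nat_lit 73137) (nat_lit 9) (node (nat_lit 7) (nat_lit
  73137) (nat_lit 10) nil nil) nil)) nil))))) (node (nat_lit 2) (nat_lit 0) (nat_lit 7) (node
  (nat_lit 5) (nat_lit 0) (nat_lit 8) (node (nat_lit 7) (nat_lit 63399) (nat_lit 9) (node (nat_lit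
  5) (nat_lit 63356) (nat_lit 10) (node (nat_lit 10) (nat_lit 67648) (nat_lit 11) (node (nat_lit
  7) (nat_lit 68871) (nat_lit 12) (node (nat_lit 10) (nat_lit 68839) (nat_lit 13) (node (nat_lit
  5) (nat_lit 68095) (nat_lit 14) (node (nat_lit 7) (nat_lit 68118) (nat_lit 15) nil nil) nil)
  (node (nat_lit 5) (nat_lit 69172) (nat_lit 13) (node (nat_lit 7) (nat_lit 67787) (nat_lit 14)
  (node (nat_lit 4) (nat_lit 68179) (nat_lit 15) nil nil) nil) (node (nat_lit 4) (nat_lit 69948)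
  (nat_lit 13) (node (nat_lit 5) (nat_lit 68137) (nat_lit 14) (node (nat_lit 4) (nat_lit 67216)
  (nat_lit 15) nil nil) nil) (node (nat_lit 0) (nat_lit 70581) (nat_lit 13) (node (nat_lit 7)
  (nat_lit 70581) (nat_lit 14) nil nil) nil)))) (node (nat_lit 5) (nat_lit 69636) (nat_lit 12)
  (node (nat_lit 7) (nat_lit 70305) (nat_lit 13) (node (nat_lit 4) (nat_lit 72401) (nat_lit 14)
  (node (nat_lit 5) (nat_lit 68958) (nat_lit 15) nil nil) (node (nat_lit 10) (nat_lit 69562)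
  (nat_lit 14) (node (nat_lit 7) (nat_lit 69585) (nat_lit 15) nil nil) nil)) (node (nat_lit 4)
  (nat_lit 71346) (nat_lit 13) nil (node (nat_lit 0) (nat_lit 71346) (nat_lit 13) nil nil))) (node
  (nat_lit 4) (nat_lit 72642) (nat_lit 12) (node (nat_lit 7) (nat_lit 72642) (nat_lit 13) nil nil)
  (node (nat_lit 0) (nat_lit 72642) (nat_lit 12) (node (nat_lit 7) (nat_lit 72642) (nat_lit 13)
  nil nil) nil)))) (node (nat_lit 4) (nat_lit 73641) (nat_lit 11) (node (nat_lit 7) (nat_lit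
  73641) (nat_lit 12) (node (nat_lit 4) (nat_lit 73641) (nat_lit 13) (node (nat_lit 5) (nat_lit
  73641) (nat_lit 14) (node (nat_lit 4) (nat_lit 73641) (nat_lit 15) (node (nat_lit 7) (nat_lit
  73641) (nat_lit 16) (node (nat_lit 5) (nat_lit 73641) (nat_lit 17) nil nil) nil) nil) nil) nil)
  (node (nat_lit 10) (nat_lit 73641) (nat_lit 12) (node (nat_lit 7) (nat_lit 73641) (nat_lit 13)
  nil nil) (node (nat_lit 5) (nat_lit 73641) (nat_lit 12) (node (nat_lit 7) (nat_lit 73641)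
  (nat_lit 13) nil nil) nil))) (node (nat_lit 0) (nat_lit 72589) (nat_lit 11) (node (nat_lit 5)
  (nat_lit 72589) (nat_lit 12) (node (nat_lit 7) (nat_lit 72589) (nat_lit 13) nil nil) (node
  (nat_lit 7) (nat_lit 72589) (nat_lit 12) nil nil)) nil))) (node (nat_lit 4) (nat_lit 73641)
  (nat_lit 10) (node (nat_lit 5) (nat_lit 72741) (nat_lit 11) (node (nat_lit 4) (nat_lit 67143)
  (nat_lit 12) (node (nat_lit 7) (nat_lit 61436) (nat_lit 13) (node (nat_lit 5) (nat_lit 40730)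
  (nat_lit 14) nil nil) nil) nil) (node (nat_lit 10) (nat_lit 73641) (nat_lit 11) (node (nat_lit
  7) (nat_lit 73641) (nat_lit 12) nil nil) nil)) (node (nat_lit 0) (nat_lit 73641) (nat_lit 10)
  (node (nat_lit 7) (nat_lit 73641) (nat_lit 11) (node (nat_lit 4) (nat_lit 73641) (nat_lit 12)
  nil nil) (node (nat_lit 10) (nat_lit 73641) (nat_lit 11) (node (nat_lit 7) (nat_lit 73641)
  (nat_lit 12) nil nil) (node (nat_lit 5) (nat_lit 73641) (nat_lit 11) (node (nat_lit 7) (nat_lit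
  73641) (nat_lit 12) nil nil) nil))) nil))) (node (nat_lit 10) (nat_lit 63399) (nat_lit 9) (node
  (nat_lit 7) (nat_lit 63409) (nat_lit 10) (node (nat_lit 10) (nat_lit 66666) (nat_lit 11) (node
  (nat_lit 5) (nat_lit 67876) (nat_lit 12) (node (nat_lit 7) (nat_lit 68050) (nat_lit 13) nil nil)
  nil) (node (nat_lit 5) (nat_lit 67426) (nat_lit 11) (node (nat_lit 10) (nat_lit 68628) (nat_lit
  12) (node (nat_lit 5) (nat_lit 67670) (nat_lit 13) nil nil) nil) nil)) (node (nat_lit 4)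
  (nat_lit 72409) (nat_lit 10) nil nil)) (node (nat_lit 4) (nat_lit 73491) (nat_lit 9) nil (node
  (nat_lit 0) (nat_lit 73491) (nat_lit 9) nil nil)))) (node (nat_lit 7) (nat_lit 0) (nat_lit 8)
  (node (nat_lit 5) (nat_lit 63399) (nat_lit 9) (node (nat_lit 10) (nat_lit 63419) (nat_lit 10)
  (node (nat_lit 5) (nat_lit 65685) (nat_lit 11) (node (nat_lit 7) (nat_lit 66619) (nat_lit 12)
  (node (nat_lit 10) (nat_lit 65661) (nat_lit 13) (node (nat_lit 7) (nat_lit 65703) (nat_lit 14)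
  nil nil) nil) nil) (node (nat_lit 7) (nat_lit 66484) (nat_lit 11) nil nil)) (node (nat_lit 4)
  (nat_lit 71277) (nat_lit 10) nil (node (nat_lit 0) (nat_lit 71277) (nat_lit 10) nil nil))) (node
  (nat_lit 4) (nat_lit 73058) (nat_lit 9) (node (nat_lit 5) (nat_lit 69768) (nat_lit 10) (node
  (nat_lit 4) (nat_lit 62939) (nat_lit 11) nil nil) nil) (node (nat_lit 0) (nat_lit 73360)
  (nat_lit 9) nil nil))) (node (nat_lit 4) (nat_lit 73543) (nat_lit 8) (node (nat_lit 7) (nat_lit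
  73543) (nat_lit 9) (node (nat_lit 4) (nat_lit 73641) (nat_lit 10) (node (nat_lit 5) (nat_lit
  73641) (nat_lit 11) nil nil) nil) (node (nat_lit 5) (nat_lit 73543) (nat_lit 9) (node (nat_lit
  7) (nat_lit 73543) (nat_lit 10) nil nil) nil)) (node (nat_lit 0) (nat_lit 73543) (nat_lit 8)
  (node (nat_lit 7) (nat_lit 73543) (nat_lit 9) nil (node (nat_lit 4) (nat_lit 73641) (nat_lit 9)
  nil nil)) nil)))) (node (nat_lit 4) (nat_lit 0) (nat_lit 7) (node (nat_lit 5) (nat_lit 0)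
  (nat_lit 8) (node (nat_lit 7) (nat_lit 58789) (nat_lit 9) (node (nat_lit 5) (nat_lit 61900)
  (nat_lit 10) nil nil) (node (nat_lit 0) (nat_lit 59148) (nat_lit 9) (node (nat_lit 4) (nat_lit
  62364) (nat_lit 10) nil nil) (node (nat_lit 2) (nat_lit 58988) (nat_lit 9) (node (nat_lit 4)
  (nat_lit 61979) (nat_lit 10) nil nil) nil))) (node (nat_lit 0) (nat_lit 70803) (nat_lit 8) (node
  (nat_lit 7) (nat_lit 72727) (nat_lit 9) nil nil) (node (nat_lit 2) (nat_lit 70803) (nat_lit 8)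
  (node (nat_lit 7) (nat_lit 72727) (nat_lit 9) nil nil) (node (nat_lit 7) (nat_lit 0) (nat_lit 8)
  (node (nat_lit 5) (nat_lit 69359) (nat_lit 9) (node (nat_lit 4) (nat_lit 72088) (nat_lit 10) nil
  nil) (node (nat_lit 0) (nat_lit 69833) (nat_lit 9) nil (node (nat_lit 2) (nat_lit 69833)
  (nat_lit 9) nil nil))) nil)))) nil))) (node (nat_lit 0) (nat_lit 0) (nat_lit 6) (node (nat_lit
  5) (nat_lit 0) (nat_lit 7) (node (nat_lit 7) (nat_lit 72356) (nat_lit 8) (node (nat_lit 5)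
  (nat_lit 72356) (nat_lit 9) nil (node (nat_lit 4) (nat_lit 73469) (nat_lit 9) (node (nat_lit 5)
  (nat_lit 70976) (nat_lit 10) (node (nat_lit 4) (nat_lit 58408) (nat_lit 11) (node (nat_lit 7)
  (nat_lit 46949) (nat_lit 12) (node (nat_lit 5) (nat_lit 24591) (nat_lit 13) nil nil) nil) nil)
  nil) (node (nat_lit 0) (nat_lit 73470) (nat_lit 9) nil (node (nat_lit 2) (nat_lit 72356)
  (nat_lit 9) nil nil)))) (node (nat_lit 4) (nat_lit 73256) (nat_lit 8) (node (nat_lit 9) (nat_lit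
  73470) (nat_lit 9) (node (nat_lit 7) (nat_lit 73470) (nat_lit 10) nil nil) (node (nat_lit 7)
  (nat_lit 73256) (nat_lit 9) (node (nat_lit 4) (nat_lit 73559) (nat_lit 10) (node (nat_lit 5)
  (nat_lit 73559) (nat_lit 11) nil nil) nil) (node (nat_lit 5) (nat_lit 73256) (nat_lit 9) (node
  (nat_lit 7) (nat_lit 73256) (nat_lit 10) nil nil) nil))) (node (nat_lit 0) (nat_lit 73256)
  (nat_lit 8) (node (nat_lit 5) (nat_lit 73256) (nat_lit 9) (node (nat_lit 7) (nat_lit 73256)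
  (nat_lit 10) nil nil) (node (nat_lit 7) (nat_lit 73256) (nat_lit 9) nil nil)) (node (nat_lit 2)
  (nat_lit 72356) (nat_lit 8) (node (nat_lit 9) (nat_lit 73470) (nat_lit 9) nil (node (nat_lit 5)
  (nat_lit 71495) (nat_lit 9) (node (nat_lit 9) (nat_lit 72144) (nat_lit 10) nil (node (nat_lit 7)
  (nat_lit 71545) (nat_lit 10) nil nil)) (node (nat_lit 7) (nat_lit 71953) (nat_lit 9) (node
  (nat_lit 4) (nat_lit 70235) (nat_lit 10) nil nil) nil))) nil)))) (node (nat_lit 7) (nat_lit 0)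
  (nat_lit 7) (node (nat_lit 9) (nat_lit 73256) (nat_lit 8) nil (node (nat_lit 4) (nat_lit 73256)
  (nat_lit 8) (node (nat_lit 5) (nat_lit 73256) (nat_lit 9) (node (nat_lit 4) (nat_lit 73559)
  (nat_lit 10) (node (nat_lit 7) (nat_lit 73559) (nat_lit 11) (node (nat_lit 5) (nat_lit 73559)
  (nat_lit 12) nil nil) nil) nil) nil) (node (nat_lit 5) (nat_lit 72356) (nat_lit 8) (node
  (nat_lit 7) (nat_lit 72356) (nat_lit 9) nil nil) (node (nat_lit 0) (nat_lit 73256) (nat_lit 8)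
  nil (node (nat_lit 2) (nat_lit 71538) (nat_lit 8) nil nil))))) (node (nat_lit 4) (nat_lit 73137)
  (nat_lit 7) (node (nat_lit 7) (nat_lit 73137) (nat_lit 8) (node (nat_lit 4) (nat_lit 73641)
  (nat_lit 9) (node (nat_lit 5) (nat_lit 73641) (nat_lit 10) nil nil) nil) (node (nat_lit 5)
  (nat_lit 73137) (nat_lit 8) nil nil)) (node (nat_lit 0) (nat_lit 73137) (nat_lit 7) (node
  (nat_lit 7) (nat_lit 73137) (nat_lit 8) nil nil) (node (nat_lit 2) (nat_lit 72356) (nat_lit 7)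
  (node (nat_lit 5) (nat_lit 72356) (nat_lit 8) nil (node (nat_lit 7) (nat_lit 72356) (nat_lit 8)
  nil (node (nat_lit 4) (nat_lit 73256) (nat_lit 8) nil nil))) nil))))) (node (nat_lit 2) (nat_lit
  0) (nat_lit 6) (node (nat_lit 5) (nat_lit 0) (nat_lit 7) (node (nat_lit 7) (nat_lit 64275)
  (nat_lit 8) (node (nat_lit 9) (nat_lit 64275) (nat_lit 9) (node (nat_lit 5) (nat_lit 64275)
  (nat_lit 10) (node (nat_lit 9) (nat_lit 66554) (nat_lit 11) (node (nat_lit 7) (nat_lit 67447)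
  (nat_lit 12) (node (nat_lit 5) (nat_lit 66489) (nat_lit 13) (node (nat_lit 7) (nat_lit 66531)
  (nat_lit 14) nil nil) (node (nat_lit 4) (nat_lit 65590) (nat_lit 13) nil nil)) (node (nat_lit 4)
  (nat_lit 68794) (nat_lit 12) nil nil)) (node (nat_lit 4) (nat_lit 70793) (nat_lit 11) nil (node
  (nat_lit 0) (nat_lit 70793) (nat_lit 11) nil nil))) (node (nat_lit 7) (nat_lit 64275) (nat_lit
  10) (node (nat_lit 5) (nat_lit 64482) (nat_lit 11) (node (nat_lit 9) (nat_lit 63219) (nat_lit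
  12) (node (nat_lit 7) (nat_lit 63325) (nat_lit 13) nil nil) nil) (node (nat_lit 4) (nat_lit
  65299) (nat_lit 11) nil nil)) (node (nat_lit 4) (nat_lit 70521) (nat_lit 10) nil (node (nat_lit
  0) (nat_lit 70521) (nat_lit 10) nil nil)))) (node (nat_lit 5) (nat_lit 64275) (nat_lit 9) (node
  (nat_lit 9) (nat_lit 64283) (nat_lit 10) (node (nat_lit 7) (nat_lit 66856) (nat_lit 11) (node
  (nat_lit 9) (nat_lit 67135) (nat_lit 12) (node (nat_lit 5) (nat_lit 66886) (nat_lit 13) (node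
  (nat_lit 7) (nat_lit 65501) (nat_lit 14) (node (nat_lit 4) (nat_lit 65893) (nat_lit 15) nil nil)
  nil) nil) (node (nat_lit 5) (nat_lit 66325) (nat_lit 12) (node (nat_lit 7) (nat_lit 64565)
  (nat_lit 13) nil nil) nil)) (node (nat_lit 4) (nat_lit 70803) (nat_lit 11) nil (node (nat_lit 0)
  (nat_lit 70803) (nat_lit 11) nil nil))) (node (nat_lit 4) (nat_lit 70521) (nat_lit 10) nil nil))
  (node (nat_lit 4) (nat_lit 70169) (nat_lit 9) (node (nat_lit 5) (nat_lit 67046) (nat_lit 10)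
  (node (nat_lit 4) (nat_lit 57110) (nat_lit 11) (node (nat_lit 7) (nat_lit 48319) (nat_lit 12)
  (node (nat_lit 5) (nat_lit 32204) (nat_lit 13) nil nil) nil) (node (nat_lit 7) (nat_lit 67046)
  (nat_lit 11) nil nil)) nil) (node (nat_lit 0) (nat_lit 70169) (nat_lit 9) (node (nat_lit 7)
  (nat_lit 70169) (nat_lit 10) nil nil) nil)))) (node (nat_lit 4) (nat_lit 72954) (nat_lit 8)
  (node (nat_lit 9) (nat_lit 72954) (nat_lit 9) (node (nat_lit 7) (nat_lit 72954) (nat_lit 10) nil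
  nil) (node (nat_lit 7) (nat_lit 72954) (nat_lit 9) (node (nat_lit 4) (nat_lit 73303) (nat_lit
  10) (node (nat_lit 5) (nat_lit 73303) (nat_lit 11) nil nil) nil) (node (nat_lit 5) (nat_lit
  72954) (nat_lit 9) (node (nat_lit 7) (nat_lit 72954) (nat_lit 10) nil nil) nil))) (node (nat_lit
  0) (nat_lit 72954) (nat_lit 8) (node (nat_lit 9) (nat_lit 72954) (nat_lit 9) nil (node (nat_lit
  5) (nat_lit 72954) (nat_lit 9) (node (nat_lit 7) (nat_lit 72954) (nat_lit 10) nil nil) (node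
  (nat_lit 7) (nat_lit 72954) (nat_lit 9) (node (nat_lit 4) (nat_lit 73303) (nat_lit 10) nil nil)
  nil))) nil))) (node (nat_lit 7) (nat_lit 0) (nat_lit 7) (node (nat_lit 9) (nat_lit 64275)
  (nat_lit 8) (node (nat_lit 5) (nat_lit 64275) (nat_lit 9) (node (nat_lit 9) (nat_lit 64275)
  (nat_lit 10) (node (nat_lit 7) (nat_lit 66551) (nat_lit 11) (node (nat_lit 5) (nat_lit 67535)
  (nat_lit 12) (node (nat_lit 9) (nat_lit 68005) (nat_lit 13) (node (nat_lit 5) (nat_lit 67261)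
  (nat_lit 14) nil nil) (node (nat_lit 7) (nat_lit 65775) (nat_lit 13) (node (nat_lit 4) (nat_lit
  66390) (nat_lit 14) nil nil) (node (nat_lit 4) (nat_lit 69245) (nat_lit 13) nil nil))) (node
  (nat_lit 4) (nat_lit 66459) (nat_lit 12) (node (nat_lit 5) (nat_lit 64388) (nat_lit 13) nil nil)
  nil)) nil) (node (nat_lit 7) (nat_lit 64275) (nat_lit 10) (node (nat_lit 5) (nat_lit 66610)
  (nat_lit 11) (node (nat_lit 9) (nat_lit 66945) (nat_lit 12) nil nil) nil) nil)) nil) (node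
  (nat_lit 4) (nat_lit 70846) (nat_lit 8) (node (nat_lit 5) (nat_lit 62406) (nat_lit 9) (node
  (nat_lit 7) (nat_lit 62073) (nat_lit 10) nil (node (nat_lit 4) (nat_lit 41930) (nat_lit 10)
  (node (nat_lit 7) (nat_lit 33267) (nat_lit 11) nil nil) nil)) nil) (node (nat_lit 5) (nat_lit
  64275) (nat_lit 8) (node (nat_lit 7) (nat_lit 64275) (nat_lit 9) (node (nat_lit 9) (nat_lit
  64275) (nat_lit 10) (node (nat_lit 5) (nat_lit 64482) (nat_lit 11) nil nil) (node (nat_lit 4)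
  (nat_lit 69091) (nat_lit 10) (node (nat_lit 5) (nat_lit 67150) (nat_lit 11) nil nil) nil)) (node
  (nat_lit 4) (nat_lit 73420) (nat_lit 9) nil nil)) (node (nat_lit 0) (nat_lit 72467) (nat_lit 8)
  nil nil)))) (node (nat_lit 4) (nat_lit 73137) (nat_lit 7) (node (nat_lit 7) (nat_lit 73137)
  (nat_lit 8) (node (nat_lit 4) (nat_lit 73641) (nat_lit 9) (node (nat_lit 5) (nat_lit 73641)
  (nat_lit 10) nil nil) nil) (node (nat_lit 5) (nat_lit 73137) (nat_lit 8) nil nil)) (node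
  (nat_lit 0) (nat_lit 73137) (nat_lit 7) (node (nat_lit 5) (nat_lit 71538) (nat_lit 8) nil (node
  (nat_lit 7) (nat_lit 73137) (nat_lit 8) nil nil)) nil)))) (node (nat_lit 4) (nat_lit 0) (nat_lit
  6) (node (nat_lit 0) (nat_lit 66189) (nat_lit 7) nil (node (nat_lit 2) (nat_lit 64838) (nat_lit
  7) nil (node (nat_lit 5) (nat_lit 62787) (nat_lit 7) (node (nat_lit 7) (nat_lit 62674) (nat_lit
  8) (node (nat_lit 4) (nat_lit 65814) (nat_lit 9) (node (nat_lit 5) (nat_lit 64135) (nat_lit 10)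
  (node (nat_lit 4) (nat_lit 65044) (nat_lit 11) (node (nat_lit 7) (nat_lit 58168) (nat_lit 12)
  nil nil) nil) nil) nil) nil) nil))) nil)))) (node (nat_lit 0) (nat_lit 0) (nat_lit 5) (node
  (nat_lit 4) (nat_lit 0) (nat_lit 6) (node (nat_lit 8) (nat_lit 72485) (nat_lit 7) (node (nat_lit
  7) (nat_lit 72485) (nat_lit 8) (node (nat_lit 4) (nat_lit 72786) (nat_lit 9) (node (nat_lit 5)
  (nat_lit 72786) (nat_lit 10) (node (nat_lit 4) (nat_lit 72951) (nat_lit 11) (node (nat_lit 7)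
  (nat_lit 72951) (nat_lit 12) nil nil) nil) nil) nil) nil) (node (nat_lit 7) (nat_lit 72219)
  (nat_lit 7) (node (nat_lit 4) (nat_lit 72670) (nat_lit 8) (node (nat_lit 5) (nat_lit 72670)
  (nat_lit 9) (node (nat_lit 4) (nat_lit 72874) (nat_lit 10) (node (nat_lit 7) (nat_lit 72874)
  (nat_lit 11) nil nil) nil) nil) nil) (node (nat_lit 5) (nat_lit 72219) (nat_lit 7) (node
  (nat_lit 7) (nat_lit 72219) (nat_lit 8) (node (nat_lit 4) (nat_lit 67768) (nat_lit 9) (node
  (nat_lit 5) (nat_lit 56372) (nat_lit 10) (node (nat_lit 4) (nat_lit 40790) (nat_lit 11) (node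
  (nat_lit 7) (nat_lit 30044) (nat_lit 12) nil nil) nil) nil) nil) nil) (node (nat_lit 2) (nat_lit
  69494) (nat_lit 7) nil (node (nat_lit 0) (nat_lit 72485) (nat_lit 7) nil nil))))) (node (nat_lit
  5) (nat_lit 0) (nat_lit 6) (node (nat_lit 7) (nat_lit 70103) (nat_lit 7) (node (nat_lit 4)
  (nat_lit 68033) (nat_lit 8) (node (nat_lit 5) (nat_lit 62638) (nat_lit 9) (node (nat_lit 4)
  (nat_lit 50637) (nat_lit 10) (node (nat_lit 7) (nat_lit 32986) (nat_lit 11) nil nil) nil) nil)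
  nil) (node (nat_lit 8) (nat_lit 70894) (nat_lit 7) (node (nat_lit 7) (nat_lit 70894) (nat_lit 8)
  (node (nat_lit 4) (nat_lit 71195) (nat_lit 9) (node (nat_lit 5) (nat_lit 71195) (nat_lit 10)
  (node (nat_lit 4) (nat_lit 71360) (nat_lit 11) nil nil) nil) nil) nil) (node (nat_lit 4)
  (nat_lit 70894) (nat_lit 7) (node (nat_lit 7) (nat_lit 70894) (nat_lit 8) (node (nat_lit 4)
  (nat_lit 71195) (nat_lit 9) (node (nat_lit 5) (nat_lit 71195) (nat_lit 10) nil nil) nil) nil)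
  (node (nat_lit 0) (nat_lit 70894) (nat_lit 7) nil (node (nat_lit 2) (nat_lit 69494) (nat_lit 7)
  nil nil))))) (node (nat_lit 7) (nat_lit 0) (nat_lit 6) (node (nat_lit 4) (nat_lit 70894)
  (nat_lit 7) (node (nat_lit 5) (nat_lit 70894) (nat_lit 8) (node (nat_lit 4) (nat_lit 71195)
  (nat_lit 9) (node (nat_lit 7) (nat_lit 71195) (nat_lit 10) nil nil) nil) nil) (node (nat_lit 5)
  (nat_lit 70103) (nat_lit 7) (node (nat_lit 7) (nat_lit 69546) (nat_lit 8) nil nil) (node
  (nat_lit 0) (nat_lit 72295) (nat_lit 7) (node (nat_lit 7) (nat_lit 72295) (nat_lit 8) (node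
  (nat_lit 4) (nat_lit 72596) (nat_lit 9) nil nil) nil) (node (nat_lit 2) (nat_lit 69843) (nat_lit
  7) (node (nat_lit 7) (nat_lit 69385) (nat_lit 8) (node (nat_lit 4) (nat_lit 65943) (nat_lit 9)
  nil nil) nil) nil)))) (node (nat_lit 0) (nat_lit 72219) (nat_lit 6) (node (nat_lit 7) (nat_lit
  72219) (nat_lit 7) (node (nat_lit 4) (nat_lit 72670) (nat_lit 8) nil nil) (node (nat_lit 8)
  (nat_lit 72485) (nat_lit 7) (node (nat_lit 7) (nat_lit 72485) (nat_lit 8) (node (nat_lit 4)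
  (nat_lit 72786) (nat_lit 9) nil nil) nil) nil)) (node (nat_lit 2) (nat_lit 70103) (nat_lit 6)
  (node (nat_lit 7) (nat_lit 70103) (nat_lit 7) (node (nat_lit 9) (nat_lit 70103) (nat_lit 8) nil
  (node (nat_lit 4) (nat_lit 69650) (nat_lit 8) nil nil)) (node (nat_lit 8) (nat_lit 70894)
  (nat_lit 7) (node (nat_lit 7) (nat_lit 70894) (nat_lit 8) (node (nat_lit 4) (nat_lit 71195)
  (nat_lit 9) nil nil) nil) (node (nat_lit 4) (nat_lit 70894) (nat_lit 7) (node (nat_lit 7)
  (nat_lit 70894) (nat_lit 8) nil nil) (node (nat_lit 5) (nat_lit 69494) (nat_lit 7) (node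
  (nat_lit 7) (nat_lit 69385) (nat_lit 8) nil nil) nil)))) nil))))) (node (nat_lit 4) (nat_lit 0)
  (nat_lit 5) (node (nat_lit 0) (nat_lit 0) (nat_lit 6) (node (nat_lit 4) (nat_lit 73137) (nat_lit
  7) (node (nat_lit 7) (nat_lit 73137) (nat_lit 8) nil nil) (node (nat_lit 7) (nat_lit 72320)
  (nat_lit 7) (node (nat_lit 4) (nat_lit 73220) (nat_lit 8) (node (nat_lit 5) (nat_lit 73220)
  (nat_lit 9) (node (nat_lit 4) (nat_lit 73523) (nat_lit 10) (node (nat_lit 7) (nat_lit 73523)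
  (nat_lit 11) nil nil) nil) nil) nil) (node (nat_lit 5) (nat_lit 71851) (nat_lit 7) nil (node
  (nat_lit 0) (nat_lit 73137) (nat_lit 7) (node (nat_lit 7) (nat_lit 73137) (nat_lit 8) nil nil)
  (node (nat_lit 2) (nat_lit 72000) (nat_lit 7) (node (nat_lit 7) (nat_lit 69189) (nat_lit 8) nil
  (node (nat_lit 5) (nat_lit 71538) (nat_lit 8) nil nil)) nil))))) (node (nat_lit 5) (nat_lit 0)
  (nat_lit 6) (node (nat_lit 0) (nat_lit 72936) (nat_lit 7) nil (node (nat_lit 2) (nat_lit 69008)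
  (nat_lit 7) (node (nat_lit 4) (nat_lit 72327) (nat_lit 8) nil nil) (node (nat_lit 7) (nat_lit
  63428) (nat_lit 7) (node (nat_lit 4) (nat_lit 70831) (nat_lit 8) nil nil) nil))) (node (nat_lit
  2) (nat_lit 0) (nat_lit 6) (node (nat_lit 4) (nat_lit 72945) (nat_lit 7) (node (nat_lit 7)
  (nat_lit 72945) (nat_lit 8) (node (nat_lit 5) (nat_lit 72945) (nat_lit 9) nil (node (nat_lit 9)
  (nat_lit 72945) (nat_lit 9) (node (nat_lit 7) (nat_lit 72945) (nat_lit 10) (node (nat_lit 4)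
  (nat_lit 72779) (nat_lit 11) nil nil) nil) (node (nat_lit 4) (nat_lit 73566) (nat_lit 9) (node
  (nat_lit 5) (nat_lit 73566) (nat_lit 10) (node (nat_lit 4) (nat_lit 73641) (nat_lit 11) (node
  (nat_lit 7) (nat_lit 73641) (nat_lit 12) nil nil) nil) nil) nil))) nil) (node (nat_lit 7)
  (nat_lit 70046) (nat_lit 7) (node (nat_lit 9) (nat_lit 70046) (nat_lit 8) (node (nat_lit 4)
  (nat_lit 73332) (nat_lit 9) nil nil) (node (nat_lit 4) (nat_lit 73021) (nat_lit 8) (node
  (nat_lit 5) (nat_lit 61840) (nat_lit 9) (node (nat_lit 4) (nat_lit 42811) (nat_lit 10) (node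
  (nat_lit 7) (nat_lit 26726) (nat_lit 11) nil nil) nil) (node (nat_lit 7) (nat_lit 73021)
  (nat_lit 9) nil nil)) nil)) (node (nat_lit 5) (nat_lit 69570) (nat_lit 7) (node (nat_lit 7)
  (nat_lit 69570) (nat_lit 8) (node (nat_lit 5) (nat_lit 69570) (nat_lit 9) (node (nat_lit 4)
  (nat_lit 71447) (nat_lit 10) (node (nat_lit 7) (nat_lit 71447) (nat_lit 11) nil nil) nil) (node
  (nat_lit 4) (nat_lit 71111) (nat_lit 9) (node (nat_lit 5) (nat_lit 65489) (nat_lit 10) nil nil)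
  nil)) nil) (node (nat_lit 0) (nat_lit 72904) (nat_lit 7) (node (nat_lit 7) (nat_lit 72904)
  (nat_lit 8) nil nil) nil)))) nil))) (node (nat_lit 2) (nat_lit 0) (nat_lit 5) (node (nat_lit 4)
  (nat_lit 0) (nat_lit 6) (node (nat_lit 8) (nat_lit 72112) (nat_lit 7) (node (nat_lit 7) (nat_lit
  72112) (nat_lit 8) (node (nat_lit 4) (nat_lit 72631) (nat_lit 9) (node (nat_lit 5) (nat_lit
  68335) (nat_lit 10) (node (nat_lit 4) (nat_lit 61846) (nat_lit 11) (node (nat_lit 7) (nat_lit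
  38532) (nat_lit 12) nil nil) nil) nil) nil) nil) (node (nat_lit 7) (nat_lit 72112) (nat_lit 7)
  (node (nat_lit 4) (nat_lit 72714) (nat_lit 8) (node (nat_lit 5) (nat_lit 72714) (nat_lit 9)
  (node (nat_lit 4) (nat_lit 73062) (nat_lit 10) (node (nat_lit 7) (nat_lit 73062) (nat_lit 11)
  nil nil) nil) (node (nat_lit 8) (nat_lit 72714) (nat_lit 9) (node (nat_lit 7) (nat_lit 72714)
  (nat_lit 10) (node (nat_lit 4) (nat_lit 72391) (nat_lit 11) nil nil) nil) nil)) (node (nat_lit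
  5) (nat_lit 72082) (nat_lit 8) nil nil)) (node (nat_lit 5) (nat_lit 72112) (nat_lit 7) (node
  (nat_lit 7) (nat_lit 69385) (nat_lit 8) (node (nat_lit 4) (nat_lit 65943) (nat_lit 9) nil nil)
  nil) (node (nat_lit 0) (nat_lit 72455) (nat_lit 7) nil nil)))) (node (nat_lit 5) (nat_lit 0)
  (nat_lit 6) (node (nat_lit 7) (nat_lit 0) (nat_lit 7) (node (nat_lit 5) (nat_lit 64288) (nat_lit
  8) (node (nat_lit 4) (nat_lit 66894) (nat_lit 9) nil (node (nat_lit 8) (nat_lit 64288) (nat_lit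
  9) (node (nat_lit 7) (nat_lit 64288) (nat_lit 10) nil nil) nil)) (node (nat_lit 4) (nat_lit
  62966) (nat_lit 8) (node (nat_lit 5) (nat_lit 53821) (nat_lit 9) (node (nat_lit 4) (nat_lit
  40066) (nat_lit 10) (node (nat_lit 7) (nat_lit 33925) (nat_lit 11) nil nil) (node (nat_lit 7)
  (nat_lit 53821) (nat_lit 10) nil nil)) nil) (node (nat_lit 8) (nat_lit 64288) (nat_lit 8) (node
  (nat_lit 7) (nat_lit 64288) (nat_lit 9) (node (nat_lit 5) (nat_lit 64288) (nat_lit 10) (node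
  (nat_lit 7) (nat_lit 64435) (nat_lit 11) (node (nat_lit 4) (nat_lit 63902) (nat_lit 12) nil nil)
  nil) nil) (node (nat_lit 4) (nat_lit 66894) (nat_lit 9) (node (nat_lit 5) (nat_lit 66894)
  (nat_lit 10) (node (nat_lit 7) (nat_lit 66894) (nat_lit 11) nil nil) nil) nil)) (node (nat_lit
  0) (nat_lit 66698) (nat_lit 8) nil nil)))) (node (nat_lit 8) (nat_lit 0) (nat_lit 7) (node
  (nat_lit 7) (nat_lit 63636) (nat_lit 8) (node (nat_lit 4) (nat_lit 65943) (nat_lit 9) (node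
  (nat_lit 5) (nat_lit 58194) (nat_lit 10) (node (nat_lit 4) (nat_lit 49244) (nat_lit 11) (node
  (nat_lit 7) (nat_lit 41874) (nat_lit 12) nil nil) nil) nil) (node (nat_lit 5) (nat_lit 62683)
  (nat_lit 9) (node (nat_lit 7) (nat_lit 62529) (nat_lit 10) (node (nat_lit 4) (nat_lit 61753)
  (nat_lit 11) (node (nat_lit 5) (nat_lit 58599) (nat_lit 12) nil nil) nil) nil) nil)) (node
  (nat_lit 4) (nat_lit 67727) (nat_lit 8) (node (nat_lit 5) (nat_lit 67727) (nat_lit 9) (node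
  (nat_lit 7) (nat_lit 67727) (nat_lit 10) (node (nat_lit 4) (nat_lit 66955) (nat_lit 11) nil nil)
  nil) (node (nat_lit 7) (nat_lit 67727) (nat_lit 9) nil nil)) (node (nat_lit 0) (nat_lit 66698)
  (nat_lit 8) nil nil))) (node (nat_lit 4) (nat_lit 70834) (nat_lit 7) (node (nat_lit 5) (nat_lit
  70834) (nat_lit 8) (node (nat_lit 7) (nat_lit 70834) (nat_lit 9) (node (nat_lit 4) (nat_lit
  69819) (nat_lit 10) nil nil) nil) (node (nat_lit 7) (nat_lit 70834) (nat_lit 8) (node (nat_lit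
  4) (nat_lit 71288) (nat_lit 9) (node (nat_lit 5) (nat_lit 71288) (nat_lit 10) nil nil) nil)
  nil)) (node (nat_lit 0) (nat_lit 69137) (nat_lit 7) (node (nat_lit 7) (nat_lit 69137) (nat_lit
  8) nil nil) nil)))) (node (nat_lit 7) (nat_lit 0) (nat_lit 6) (node (nat_lit 4) (nat_lit 70021)
  (nat_lit 7) (node (nat_lit 7) (nat_lit 70834) (nat_lit 8) (node (nat_lit 8) (nat_lit 69577)
  (nat_lit 9) (node (nat_lit 4) (nat_lit 70461) (nat_lit 10) (node (nat_lit 7) (nat_lit 70461)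
  (nat_lit 11) nil nil) nil) nil) (node (nat_lit 8) (nat_lit 70571) (nat_lit 8) nil (node (nat_lit
  5) (nat_lit 48565) (nat_lit 8) (node (nat_lit 4) (nat_lit 29358) (nat_lit 9) nil nil) nil)))
  (node (nat_lit 5) (nat_lit 63196) (nat_lit 7) (node (nat_lit 7) (nat_lit 63477) (nat_lit 8)
  (node (nat_lit 4) (nat_lit 65943) (nat_lit 9) (node (nat_lit 5) (nat_lit 52343) (nat_lit 10) nil
  nil) nil) (node (nat_lit 4) (nat_lit 66698) (nat_lit 8) (node (nat_lit 7) (nat_lit 66698)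
  (nat_lit 9) nil nil) (node (nat_lit 8) (nat_lit 63161) (nat_lit 8) nil nil))) (node (nat_lit 0)
  (nat_lit 69137) (nat_lit 7) (node (nat_lit 7) (nat_lit 69137) (nat_lit 8) (node (nat_lit 4)
  (nat_lit 69592) (nat_lit 9) nil nil) nil) nil))) (node (nat_lit 0) (nat_lit 71474) (nat_lit 6)
  (node (nat_lit 7) (nat_lit 71474) (nat_lit 7) (node (nat_lit 4) (nat_lit 72077) (nat_lit 8) nil
  nil) (node (nat_lit 8) (nat_lit 69569) (nat_lit 7) (node (nat_lit 7) (nat_lit 69385) (nat_lit 8)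
  (node (nat_lit 4) (nat_lit 65943) (nat_lit 9) nil nil) nil) (node (nat_lit 4) (nat_lit 71817)
  (nat_lit 7) (node (nat_lit 7) (nat_lit 71817) (nat_lit 8) nil nil) (node (nat_lit 5) (nat_lit
  71474) (nat_lit 7) (node (nat_lit 7) (nat_lit 69272) (nat_lit 8) nil nil) nil)))) nil))))
  nil))))

noncomputable def t168 : Tr :=
  (node (nat_lit 3) (nat_lit 0) (nat_lit 1) (node (nat_lit 1) (nat_lit 0) (nat_lit 2) (node
  (nat_lit 3) (nat_lit 0) (nat_lit 3) t160 (node (nat_lit 4) (nat_lit 0) (nat_lit 3) t161 nil))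
  (node (nat_lit 3) (nat_lit 0) (nat_lit 2) (node (nat_lit 1) (nat_lit 0) (nat_lit 3) (node
  (nat_lit 4) (nat_lit 0) (nat_lit 4) (node (nat_lit 5) (nat_lit 0) (nat_lit 5) t162 t163) t164)
  (node (nat_lit 4) (nat_lit 0) (nat_lit 3) (node (nat_lit 1) (nat_lit 0) (nat_lit 4) (node
  (nat_lit 5) (nat_lit 0) (nat_lit 5) (node (nat_lit 7) (nat_lit 0) (nat_lit 6) (node (nat_lit 0)
  (nat_lit 76437) (nat_lit 7) nil (node (nat_lit 2) (nat_lit 76437) (nat_lit 7) nil (node (nat_lit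
  4) (nat_lit 65400) (nat_lit 7) (node (nat_lit 5) (nat_lit 66382) (nat_lit 8) nil nil) nil)))
  (node (nat_lit 0) (nat_lit 72199) (nat_lit 6) nil (node (nat_lit 2) (nat_lit 72199) (nat_lit 6)
  nil (node (nat_lit 4) (nat_lit 0) (nat_lit 6) (node (nat_lit 0) (nat_lit 68222) (nat_lit 7) nil
  (node (nat_lit 2) (nat_lit 74167) (nat_lit 7) nil (node (nat_lit 5) (nat_lit 64257) (nat_lit 7)
  (node (nat_lit 7) (nat_lit 70372) (nat_lit 8) (node (nat_lit 4) (nat_lit 71914) (nat_lit 9)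
  (node (nat_lit 5) (nat_lit 70307) (nat_lit 10) (node (nat_lit 4) (nat_lit 71565) (nat_lit 11)
  (node (nat_lit 7) (nat_lit 72849) (nat_lit 12) nil nil) nil) nil) nil) nil) nil))) nil)))) (node
  (nat_lit 0) (nat_lit 0) (nat_lit 5) (node (nat_lit 4) (nat_lit 80568) (nat_lit 6) (node (nat_lit
  7) (nat_lit 82436) (nat_lit 7) (node (nat_lit 4) (nat_lit 83664) (nat_lit 8) (node (nat_lit 5)
  (nat_lit 84514) (nat_lit 9) (node (nat_lit 4) (nat_lit 45698) (nat_lit 10) (node (nat_lit 7)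
  (nat_lit 28995) (nat_lit 11) nil nil) nil) nil) nil) nil) (node (nat_lit 5) (nat_lit 80568)
  (nat_lit 6) (node (nat_lit 7) (nat_lit 82436) (nat_lit 7) (node (nat_lit 4) (nat_lit 67424)
  (nat_lit 8) (node (nat_lit 5) (nat_lit 61264) (nat_lit 9) (node (nat_lit 4) (nat_lit 45698)
  (nat_lit 10) (node (nat_lit 7) (nat_lit 27658) (nat_lit 11) nil nil) nil) nil) nil) nil) (node
  (nat_lit 7) (nat_lit 80568) (nat_lit 6) (node (nat_lit 4) (nat_lit 82436) (nat_lit 7) (node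
  (nat_lit 5) (nat_lit 83664) (nat_lit 8) (node (nat_lit 4) (nat_lit 81333) (nat_lit 9) (node
  (nat_lit 7) (nat_lit 81381) (nat_lit 10) nil nil) nil) nil) nil) (node (nat_lit 0) (nat_lit
  80568) (nat_lit 6) (node (nat_lit 7) (nat_lit 82436) (nat_lit 7) (node (nat_lit 4) (nat_lit
  83664) (nat_lit 8) nil nil) nil) (node (nat_lit 2) (nat_lit 80568) (nat_lit 6) (node (nat_lit 7)
  (nat_lit 82436) (nat_lit 7) (node (nat_lit 4) (nat_lit 67424) (nat_lit 8) nil nil) nil) nil)))))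
  (node (nat_lit 4) (nat_lit 0) (nat_lit 5) (node (nat_lit 0) (nat_lit 0) (nat_lit 6) (node
  (nat_lit 4) (nat_lit 73265) (nat_lit 7) nil (node (nat_lit 7) (nat_lit 73265) (nat_lit 7) (node
  (nat_lit 4) (nat_lit 75962) (nat_lit 8) (node (nat_lit 5) (nat_lit 76994) (nat_lit 9) nil nil)
  nil) (node (nat_lit 5) (nat_lit 73265) (nat_lit 7) nil (node (nat_lit 0) (nat_lit 73265)
  (nat_lit 7) nil (node (nat_lit 2) (nat_lit 73265) (nat_lit 7) nil nil))))) (node (nat_lit 5)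
  (nat_lit 0) (nat_lit 6) (node (nat_lit 0) (nat_lit 63055) (nat_lit 7) (node (nat_lit 4) (nat_lit
  66020) (nat_lit 8) nil (node (nat_lit 7) (nat_lit 65752) (nat_lit 8) (node (nat_lit 4) (nat_lit
  66784) (nat_lit 9) nil nil) nil)) (node (nat_lit 2) (nat_lit 59164) (nat_lit 7) (node (nat_lit
  4) (nat_lit 65804) (nat_lit 8) nil (node (nat_lit 7) (nat_lit 61706) (nat_lit 8) (node (nat_lit
  4) (nat_lit 65810) (nat_lit 9) nil nil) (node (nat_lit 5) (nat_lit 62065) (nat_lit 8) nil nil)))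
  (node (nat_lit 7) (nat_lit 0) (nat_lit 7) (node (nat_lit 4) (nat_lit 60773) (nat_lit 8) (node
  (nat_lit 7) (nat_lit 62902) (nat_lit 9) nil nil) (node (nat_lit 5) (nat_lit 57078) (nat_lit 8)
  (node (nat_lit 4) (nat_lit 63091) (nat_lit 9) nil nil) (node (nat_lit 0) (nat_lit 65623)
  (nat_lit 8) nil (node (nat_lit 2) (nat_lit 61777) (nat_lit 8) nil nil)))) nil))) (node (nat_lit
  2) (nat_lit 0) (nat_lit 6) (node (nat_lit 4) (nat_lit 73265) (nat_lit 7) (node (nat_lit 7)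
  (nat_lit 75962) (nat_lit 8) nil (node (nat_lit 5) (nat_lit 75962) (nat_lit 8) nil nil)) (node
  (nat_lit 7) (nat_lit 73265) (nat_lit 7) (node (nat_lit 4) (nat_lit 75962) (nat_lit 8) (node
  (nat_lit 5) (nat_lit 66505) (nat_lit 9) (node (nat_lit 4) (nat_lit 59097) (nat_lit 10) (node
  (nat_lit 7) (nat_lit 37245) (nat_lit 11) nil nil) nil) nil) nil) (node (nat_lit 5) (nat_lit
  73265) (nat_lit 7) (node (nat_lit 7) (nat_lit 75962) (nat_lit 8) (node (nat_lit 4) (nat_lit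
  73734) (nat_lit 9) nil nil) nil) (node (nat_lit 0) (nat_lit 73265) (nat_lit 7) nil nil))))
  nil))) (node (nat_lit 2) (nat_lit 0) (nat_lit 5) (node (nat_lit 4) (nat_lit 80568) (nat_lit 6)
  (node (nat_lit 8) (nat_lit 82436) (nat_lit 7) nil (node (nat_lit 7) (nat_lit 82436) (nat_lit 7)
  (node (nat_lit 4) (nat_lit 83664) (nat_lit 8) (node (nat_lit 5) (nat_lit 77782) (nat_lit 9)
  (node (nat_lit 4) (nat_lit 45698) (nat_lit 10) (node (nat_lit 7) (nat_lit 28995) (nat_lit 11)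
  nil nil) nil) nil) nil) nil)) (node (nat_lit 5) (nat_lit 80568) (nat_lit 6) (node (nat_lit 7)
  (nat_lit 82436) (nat_lit 7) (node (nat_lit 4) (nat_lit 83664) (nat_lit 8) (node (nat_lit 5)
  (nat_lit 84514) (nat_lit 9) (node (nat_lit 4) (nat_lit 75021) (nat_lit 10) (node (nat_lit 7)
  (nat_lit 63598) (nat_lit 11) nil nil) nil) nil) nil) nil) (node (nat_lit 7) (nat_lit 80568)
  (nat_lit 6) (node (nat_lit 4) (nat_lit 81629) (nat_lit 7) (node (nat_lit 5) (nat_lit 71645)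
  (nat_lit 8) (node (nat_lit 4) (nat_lit 58348) (nat_lit 9) nil nil) nil) nil) (node (nat_lit 0)
  (nat_lit 80568) (nat_lit 6) (node (nat_lit 7) (nat_lit 82436) (nat_lit 7) (node (nat_lit 4)
  (nat_lit 83664) (nat_lit 8) nil nil) nil) nil)))) nil)))) (node (nat_lit 0) (nat_lit 0) (nat_lit
  4) (node (nat_lit 1) (nat_lit 77677) (nat_lit 5) (node (nat_lit 4) (nat_lit 80568) (nat_lit 6)
  (node (nat_lit 5) (nat_lit 82436) (nat_lit 7) (node (nat_lit 4) (nat_lit 79587) (nat_lit 8) nil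
  nil) nil) nil) (node (nat_lit 5) (nat_lit 77677) (nat_lit 5) (node (nat_lit 7) (nat_lit 80568)
  (nat_lit 6) nil (node (nat_lit 1) (nat_lit 80568) (nat_lit 6) nil (node (nat_lit 4) (nat_lit
  80568) (nat_lit 6) (node (nat_lit 1) (nat_lit 72523) (nat_lit 7) nil nil) nil))) (node (nat_lit
  4) (nat_lit 77677) (nat_lit 5) (node (nat_lit 5) (nat_lit 80568) (nat_lit 6) nil nil) (node
  (nat_lit 0) (nat_lit 77677) (nat_lit 5) (node (nat_lit 5) (nat_lit 80568) (nat_lit 6) nil nil)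
  (node (nat_lit 2) (nat_lit 77677) (nat_lit 5) (node (nat_lit 5) (nat_lit 80568) (nat_lit 6) nil
  (node (nat_lit 4) (nat_lit 80568) (nat_lit 6) nil nil)) nil))))) (node (nat_lit 2) (nat_lit 0)
  (nat_lit 4) (node (nat_lit 1) (nat_lit 77677) (nat_lit 5) (node (nat_lit 4) (nat_lit 73490)
  (nat_lit 6) (node (nat_lit 5) (nat_lit 62046) (nat_lit 7) nil nil) nil) (node (nat_lit 5)
  (nat_lit 0) (nat_lit 5) (node (nat_lit 7) (nat_lit 80568) (nat_lit 6) (node (nat_lit 4) (nat_lit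
  82436) (nat_lit 7) (node (nat_lit 5) (nat_lit 83664) (nat_lit 8) nil nil) nil) (node (nat_lit 1)
  (nat_lit 80568) (nat_lit 6) (node (nat_lit 4) (nat_lit 82436) (nat_lit 7) (node (nat_lit 5)
  (nat_lit 74473) (nat_lit 8) (node (nat_lit 4) (nat_lit 33853) (nat_lit 9) nil nil) nil) nil)
  (node (nat_lit 4) (nat_lit 80568) (nat_lit 6) (node (nat_lit 5) (nat_lit 82436) (nat_lit 7) nil
  nil) (node (nat_lit 0) (nat_lit 80568) (nat_lit 6) nil nil)))) (node (nat_lit 4) (nat_lit 0)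
  (nat_lit 5) (node (nat_lit 5) (nat_lit 80568) (nat_lit 6) (node (nat_lit 7) (nat_lit 82436)
  (nat_lit 7) nil (node (nat_lit 4) (nat_lit 82436) (nat_lit 7) nil nil)) (node (nat_lit 1)
  (nat_lit 80568) (nat_lit 6) nil (node (nat_lit 0) (nat_lit 80568) (nat_lit 6) nil nil))) (node
  (nat_lit 0) (nat_lit 77677) (nat_lit 5) nil nil)))) nil))) nil)) nil)) (node (nat_lit 1)
  (nat_lit 0) (nat_lit 1) (node (nat_lit 3) (nat_lit 0) (nat_lit 2) (node (nat_lit 3) (nat_lit 0)
  (nat_lit 3) (node (nat_lit 4) (nat_lit 0) (nat_lit 4) (node (nat_lit 5) (nat_lit 0) (nat_lit 5)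
  (node (nat_lit 4) (nat_lit 50610) (nat_lit 6) (node (nat_lit 0) (nat_lit 62580) (nat_lit 7) nil
  (node (nat_lit 2) (nat_lit 62580) (nat_lit 7) nil nil)) (node (nat_lit 0) (nat_lit 61322)
  (nat_lit 6) nil (node (nat_lit 2) (nat_lit 59943) (nat_lit 6) nil nil))) (node (nat_lit 0)
  (nat_lit 0) (nat_lit 5) (node (nat_lit 6) (nat_lit 90368) (nat_lit 6) (node (nat_lit 8) (nat_lit
  92764) (nat_lit 7) nil (node (nat_lit 4) (nat_lit 92303) (nat_lit 7) (node (nat_lit 6) (nat_lit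
  93577) (nat_lit 8) (node (nat_lit 5) (nat_lit 94459) (nat_lit 9) nil nil) (node (nat_lit 5)
  (nat_lit 93577) (nat_lit 8) (node (nat_lit 6) (nat_lit 94459) (nat_lit 9) nil nil) nil)) (node
  (nat_lit 5) (nat_lit 92303) (nat_lit 7) (node (nat_lit 4) (nat_lit 93143) (nat_lit 8) (node
  (nat_lit 5) (nat_lit 87905) (nat_lit 9) (node (nat_lit 6) (nat_lit 75358) (nat_lit 10) (node
  (nat_lit 4) (nat_lit 55840) (nat_lit 11) nil nil) nil) nil) nil) nil))) (node (nat_lit 5)
  (nat_lit 91282) (nat_lit 6) (node (nat_lit 4) (nat_lit 93217) (nat_lit 7) (node (nat_lit 5)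
  (nat_lit 94491) (nat_lit 8) (node (nat_lit 6) (nat_lit 95373) (nat_lit 9) (node (nat_lit 4)
  (nat_lit 96042) (nat_lit 10) nil nil) nil) (node (nat_lit 6) (nat_lit 94491) (nat_lit 8) nil
  nil)) (node (nat_lit 8) (nat_lit 93217) (nat_lit 7) (node (nat_lit 6) (nat_lit 94491) (nat_lit
  8) nil nil) nil)) (node (nat_lit 4) (nat_lit 90368) (nat_lit 6) (node (nat_lit 6) (nat_lit
  92303) (nat_lit 7) (node (nat_lit 4) (nat_lit 93577) (nat_lit 8) nil nil) nil) (node (nat_lit 0)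
  (nat_lit 91231) (nat_lit 6) (node (nat_lit 4) (nat_lit 93167) (nat_lit 7) (node (nat_lit 6)
  (nat_lit 94440) (nat_lit 8) nil nil) (node (nat_lit 6) (nat_lit 93167) (nat_lit 7) nil (node
  (nat_lit 5) (nat_lit 93167) (nat_lit 7) nil nil))) (node (nat_lit 2) (nat_lit 90368) (nat_lit 6)
  (node (nat_lit 4) (nat_lit 92303) (nat_lit 7) (node (nat_lit 6) (nat_lit 93577) (nat_lit 8) nil
  nil) (node (nat_lit 8) (nat_lit 92303) (nat_lit 7) nil (node (nat_lit 6) (nat_lit 87372)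
  (nat_lit 7) (node (nat_lit 4) (nat_lit 81507) (nat_lit 8) nil nil) (node (nat_lit 5) (nat_lit
  92303) (nat_lit 7) (node (nat_lit 4) (nat_lit 90366) (nat_lit 8) nil nil) nil)))) nil))))) (node
  (nat_lit 6) (nat_lit 0) (nat_lit 5) (node (nat_lit 5) (nat_lit 0) (nat_lit 6) (node (nat_lit 0)
  (nat_lit 91988) (nat_lit 7) (node (nat_lit 6) (nat_lit 94715) (nat_lit 8) nil (node (nat_lit 4)
  (nat_lit 94715) (nat_lit 8) nil (node (nat_lit 5) (nat_lit 94804) (nat_lit 8) nil nil))) (node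
  (nat_lit 2) (nat_lit 91848) (nat_lit 7) (node (nat_lit 6) (nat_lit 93915) (nat_lit 8) (node
  (nat_lit 5) (nat_lit 93915) (nat_lit 9) (node (nat_lit 4) (nat_lit 96299) (nat_lit 10) nil nil)
  (node (nat_lit 4) (nat_lit 93513) (nat_lit 9) nil nil)) (node (nat_lit 4) (nat_lit 94575)
  (nat_lit 8) (node (nat_lit 6) (nat_lit 95654) (nat_lit 9) nil nil) (node (nat_lit 5) (nat_lit
  93915) (nat_lit 8) nil nil))) (node (nat_lit 4) (nat_lit 0) (nat_lit 7) (node (nat_lit 6)
  (nat_lit 89961) (nat_lit 8) (node (nat_lit 4) (nat_lit 92011) (nat_lit 9) (node (nat_lit 5)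
  (nat_lit 93965) (nat_lit 10) (node (nat_lit 6) (nat_lit 95214) (nat_lit 11) (node (nat_lit 4)
  (nat_lit 96188) (nat_lit 12) (node (nat_lit 6) (nat_lit 96950) (nat_lit 13) (node (nat_lit 5)
  (nat_lit 97543) (nat_lit 14) nil nil) nil) nil) nil) nil) nil) (node (nat_lit 5) (nat_lit 90190)
  (nat_lit 8) (node (nat_lit 6) (nat_lit 78775) (nat_lit 9) (node (nat_lit 4) (nat_lit 41993)
  (nat_lit 10) nil nil) nil) (node (nat_lit 0) (nat_lit 94804) (nat_lit 8) nil (node (nat_lit 2)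
  (nat_lit 94575) (nat_lit 8) nil nil)))) (node (nat_lit 6) (nat_lit 0) (nat_lit 7) (node (nat_lit
  4) (nat_lit 89961) (nat_lit 8) (node (nat_lit 5) (nat_lit 92305) (nat_lit 9) nil nil) (node
  (nat_lit 2) (nat_lit 94575) (nat_lit 8) nil (node (nat_lit 0) (nat_lit 94804) (nat_lit 8) nil
  nil))) nil)))) (node (nat_lit 0) (nat_lit 0) (nat_lit 6) (node (nat_lit 6) (nat_lit 91570)
  (nat_lit 7) (node (nat_lit 4) (nat_lit 94297) (nat_lit 8) (node (nat_lit 5) (nat_lit 95376)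
  (nat_lit 9) (node (nat_lit 6) (nat_lit 96045) (nat_lit 10) (node (nat_lit 4) (nat_lit 96636)
  (nat_lit 11) (node (nat_lit 6) (nat_lit 97171) (nat_lit 12) nil nil) nil) nil) nil) nil) (node
  (nat_lit 4) (nat_lit 91570) (nat_lit 7) nil (node (nat_lit 5) (nat_lit 91988) (nat_lit 7) (node
  (nat_lit 4) (nat_lit 94715) (nat_lit 8) (node (nat_lit 5) (nat_lit 95794) (nat_lit 9) nil nil)
  nil) (node (nat_lit 0) (nat_lit 91960) (nat_lit 7) nil (node (nat_lit 2) (nat_lit 91542)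
  (nat_lit 7) nil nil))))) (node (nat_lit 2) (nat_lit 0) (nat_lit 6) (node (nat_lit 6) (nat_lit
  82520) (nat_lit 7) (node (nat_lit 4) (nat_lit 85247) (nat_lit 8) (node (nat_lit 5) (nat_lit
  70739) (nat_lit 9) (node (nat_lit 6) (nat_lit 63725) (nat_lit 10) (node (nat_lit 4) (nat_lit
  60516) (nat_lit 11) nil nil) nil) nil) (node (nat_lit 5) (nat_lit 90483) (nat_lit 8) (node
  (nat_lit 4) (nat_lit 91562) (nat_lit 9) nil nil) nil)) (node (nat_lit 4) (nat_lit 82520)
  (nat_lit 7) (node (nat_lit 9) (nat_lit 85247) (nat_lit 8) nil (node (nat_lit 6) (nat_lit 85247)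
  (nat_lit 8) (node (nat_lit 5) (nat_lit 92539) (nat_lit 9) nil nil) nil)) (node (nat_lit 5)
  (nat_lit 90790) (nat_lit 7) (node (nat_lit 4) (nat_lit 93517) (nat_lit 8) nil nil) (node
  (nat_lit 0) (nat_lit 90244) (nat_lit 7) nil nil)))) nil))) (node (nat_lit 2) (nat_lit 0)
  (nat_lit 5) (node (nat_lit 6) (nat_lit 0) (nat_lit 6) (node (nat_lit 8) (nat_lit 84080) (nat_lit
  7) (node (nat_lit 4) (nat_lit 85354) (nat_lit 8) (node (nat_lit 6) (nat_lit 86236) (nat_lit 9)
  nil nil) (node (nat_lit 5) (nat_lit 91438) (nat_lit 8) nil nil)) (node (nat_lit 4) (nat_lit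
  84080) (nat_lit 7) (node (nat_lit 6) (nat_lit 85354) (nat_lit 8) (node (nat_lit 5) (nat_lit
  86236) (nat_lit 9) (node (nat_lit 4) (nat_lit 86904) (nat_lit 10) (node (nat_lit 5) (nat_lit
  87495) (nat_lit 11) nil nil) nil) nil) (node (nat_lit 5) (nat_lit 70739) (nat_lit 8) (node
  (nat_lit 6) (nat_lit 69626) (nat_lit 9) nil nil) nil)) (node (nat_lit 5) (nat_lit 91765)
  (nat_lit 7) (node (nat_lit 4) (nat_lit 93039) (nat_lit 8) (node (nat_lit 5) (nat_lit 92256)
  (nat_lit 9) (node (nat_lit 6) (nat_lit 78109) (nat_lit 10) (node (nat_lit 4) (nat_lit 62833)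
  (nat_lit 11) nil nil) nil) nil) nil) (node (nat_lit 0) (nat_lit 90488) (nat_lit 7) nil nil))))
  (node (nat_lit 5) (nat_lit 91285) (nat_lit 6) (node (nat_lit 4) (nat_lit 93221) (nat_lit 7)
  (node (nat_lit 5) (nat_lit 92874) (nat_lit 8) (node (nat_lit 6) (nat_lit 70665) (nat_lit 9)
  (node (nat_lit 4) (nat_lit 25812) (nat_lit 10) (node (nat_lit 6) (nat_lit 26403) (nat_lit 11)
  (node (nat_lit 5) (nat_lit 26938) (nat_lit 12) nil nil) nil) nil) nil) nil) (node (nat_lit 8)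
  (nat_lit 93221) (nat_lit 7) (node (nat_lit 6) (nat_lit 93895) (nat_lit 8) nil nil) (node
  (nat_lit 6) (nat_lit 93221) (nat_lit 7) nil nil))) (node (nat_lit 4) (nat_lit 0) (nat_lit 6)
  (node (nat_lit 6) (nat_lit 84012) (nat_lit 7) (node (nat_lit 4) (nat_lit 85285) (nat_lit 8)
  (node (nat_lit 5) (nat_lit 88275) (nat_lit 9) nil nil) (node (nat_lit 5) (nat_lit 91143)
  (nat_lit 8) nil nil)) (node (nat_lit 5) (nat_lit 91698) (nat_lit 7) nil (node (nat_lit 0)
  (nat_lit 90721) (nat_lit 7) nil nil))) (node (nat_lit 0) (nat_lit 89874) (nat_lit 6) (node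
  (nat_lit 4) (nat_lit 91810) (nat_lit 7) (node (nat_lit 6) (nat_lit 93084) (nat_lit 8) nil nil)
  (node (nat_lit 6) (nat_lit 91810) (nat_lit 7) (node (nat_lit 4) (nat_lit 93084) (nat_lit 8) nil
  nil) (node (nat_lit 5) (nat_lit 91810) (nat_lit 7) nil nil))) nil)))) nil)))) t166) (node
  (nat_lit 4) (nat_lit 0) (nat_lit 3) (node (nat_lit 3) (nat_lit 0) (nat_lit 4) t167 (node
  (nat_lit 0) (nat_lit 0) (nat_lit 4) (node (nat_lit 3) (nat_lit 65484) (nat_lit 5) (node (nat_lit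
  7) (nat_lit 68478) (nat_lit 6) nil (node (nat_lit 4) (nat_lit 68478) (nat_lit 6) (node (nat_lit
  5) (nat_lit 68478) (nat_lit 7) nil nil) (node (nat_lit 5) (nat_lit 65484) (nat_lit 6) nil nil)))
  (node (nat_lit 5) (nat_lit 65372) (nat_lit 5) (node (nat_lit 7) (nat_lit 69740) (nat_lit 6) nil
  (node (nat_lit 3) (nat_lit 65372) (nat_lit 6) (node (nat_lit 4) (nat_lit 63097) (nat_lit 7)
  (node (nat_lit 5) (nat_lit 49136) (nat_lit 8) nil nil) nil) (node (nat_lit 0) (nat_lit 68366)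
  (nat_lit 6) nil (node (nat_lit 2) (nat_lit 63570) (nat_lit 6) nil nil)))) (node (nat_lit 4)
  (nat_lit 67997) (nat_lit 5) (node (nat_lit 5) (nat_lit 69805) (nat_lit 6) nil nil) (node
  (nat_lit 0) (nat_lit 68137) (nat_lit 5) (node (nat_lit 3) (nat_lit 69685) (nat_lit 6) nil nil)
  (node (nat_lit 2) (nat_lit 64691) (nat_lit 5) (node (nat_lit 5) (nat_lit 65484) (nat_lit 6) nil
  (node (nat_lit 3) (nat_lit 64691) (nat_lit 6) (node (nat_lit 4) (nat_lit 61069) (nat_lit 7)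
  (node (nat_lit 5) (nat_lit 32688) (nat_lit 8) (node (nat_lit 4) (nat_lit 12929) (nat_lit 9) nil
  nil) nil) nil) (node (nat_lit 4) (nat_lit 68478) (nat_lit 6) nil (node (nat_lit 7) (nat_lit
  68478) (nat_lit 6) nil nil)))) nil))))) (node (nat_lit 2) (nat_lit 0) (nat_lit 4) (node (nat_lit
  3) (nat_lit 0) (nat_lit 5) (node (nat_lit 7) (nat_lit 0) (nat_lit 6) (node (nat_lit 4) (nat_lit
  68579) (nat_lit 7) nil (node (nat_lit 5) (nat_lit 61976) (nat_lit 7) (node (nat_lit 8) (nat_lit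
  61976) (nat_lit 8) (node (nat_lit 4) (nat_lit 59796) (nat_lit 9) nil nil) nil) (node (nat_lit 0)
  (nat_lit 65896) (nat_lit 7) nil nil))) (node (nat_lit 4) (nat_lit 52262) (nat_lit 6) (node
  (nat_lit 5) (nat_lit 43968) (nat_lit 7) nil (node (nat_lit 7) (nat_lit 57494) (nat_lit 7) nil
  nil)) (node (nat_lit 5) (nat_lit 62346) (nat_lit 6) (node (nat_lit 7) (nat_lit 63734) (nat_lit
  7) nil (node (nat_lit 8) (nat_lit 62346) (nat_lit 7) (node (nat_lit 4) (nat_lit 60529) (nat_lit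
  8) (node (nat_lit 5) (nat_lit 58462) (nat_lit 9) (node (nat_lit 4) (nat_lit 50412) (nat_lit 10)
  nil nil) nil) nil) nil)) (node (nat_lit 0) (nat_lit 65705) (nat_lit 6) nil nil)))) (node
  (nat_lit 5) (nat_lit 0) (nat_lit 5) (node (nat_lit 7) (nat_lit 0) (nat_lit 6) (node (nat_lit 4)
  (nat_lit 52862) (nat_lit 7) (node (nat_lit 3) (nat_lit 73459) (nat_lit 8) nil (node (nat_lit 5)
  (nat_lit 67149) (nat_lit 8) (node (nat_lit 4) (nat_lit 73641) (nat_lit 9) nil nil) (node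
  (nat_lit 7) (nat_lit 66796) (nat_lit 8) nil nil))) (node (nat_lit 3) (nat_lit 64288) (nat_lit 7)
  (node (nat_lit 4) (nat_lit 71925) (nat_lit 8) (node (nat_lit 5) (nat_lit 58878) (nat_lit 9)
  (node (nat_lit 4) (nat_lit 46517) (nat_lit 10) nil nil) nil) nil) (node (nat_lit 0) (nat_lit
  73459) (nat_lit 7) nil nil))) (node (nat_lit 3) (nat_lit 63067) (nat_lit 6) (node (nat_lit 4)
  (nat_lit 69578) (nat_lit 7) (node (nat_lit 5) (nat_lit 54636) (nat_lit 8) (node (nat_lit 4)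
  (nat_lit 34979) (nat_lit 9) (node (nat_lit 9) (nat_lit 35793) (nat_lit 10) nil nil) nil) nil)
  (node (nat_lit 7) (nat_lit 64288) (nat_lit 7) (node (nat_lit 4) (nat_lit 71403) (nat_lit 8) nil
  (node (nat_lit 9) (nat_lit 64288) (nat_lit 8) (node (nat_lit 4) (nat_lit 70171) (nat_lit 9)
  (node (nat_lit 5) (nat_lit 65756) (nat_lit 10) nil nil) nil) nil)) (node (nat_lit 5) (nat_lit
  64288) (nat_lit 7) (node (nat_lit 7) (nat_lit 64288) (nat_lit 8) nil nil) nil))) (node (nat_lit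
  4) (nat_lit 51042) (nat_lit 6) (node (nat_lit 3) (nat_lit 68377) (nat_lit 7) (node (nat_lit 4)
  (nat_lit 68980) (nat_lit 8) (node (nat_lit 5) (nat_lit 68980) (nat_lit 9) nil nil) nil) (node
  (nat_lit 5) (nat_lit 52920) (nat_lit 7) (node (nat_lit 3) (nat_lit 68377) (nat_lit 8) nil (node
  (nat_lit 7) (nat_lit 64422) (nat_lit 8) nil nil)) nil)) (node (nat_lit 0) (nat_lit 72215)
  (nat_lit 6) nil nil)))) (node (nat_lit 4) (nat_lit 0) (nat_lit 5) (node (nat_lit 5) (nat_lit 0)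
  (nat_lit 6) (node (nat_lit 3) (nat_lit 70193) (nat_lit 7) nil (node (nat_lit 7) (nat_lit 52827)
  (nat_lit 7) (node (nat_lit 3) (nat_lit 70193) (nat_lit 8) nil (node (nat_lit 5) (nat_lit 65017)
  (nat_lit 8) nil (node (nat_lit 4) (nat_lit 65344) (nat_lit 8) nil nil))) (node (nat_lit 4)
  (nat_lit 52842) (nat_lit 7) nil (node (nat_lit 0) (nat_lit 70978) (nat_lit 7) nil nil)))) (node
  (nat_lit 3) (nat_lit 70193) (nat_lit 6) (node (nat_lit 4) (nat_lit 70978) (nat_lit 7) (node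
  (nat_lit 5) (nat_lit 70978) (nat_lit 8) (node (nat_lit 4) (nat_lit 71202) (nat_lit 9) nil nil)
  nil) nil) (node (nat_lit 0) (nat_lit 70661) (nat_lit 6) nil nil))) (node (nat_lit 0) (nat_lit
  66323) (nat_lit 5) (node (nat_lit 3) (nat_lit 69153) (nat_lit 6) (node (nat_lit 4) (nat_lit
  69964) (nat_lit 7) (node (nat_lit 5) (nat_lit 69964) (nat_lit 8) (node (nat_lit 4) (nat_lit
  70418) (nat_lit 9) nil nil) nil) nil) (node (nat_lit 7) (nat_lit 69153) (nat_lit 6) nil nil))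
  nil)))) nil))) nil)) nil) nil))

noncomputable def c30 : Tr :=
  t168

noncomputable def c82 : Tr :=
  (node (nat_lit 1) (nat_lit 0) (nat_lit 1) (node (nat_lit 1) (nat_lit 0) (nat_lit 2) (node
  (nat_lit 1) (nat_lit 0) (nat_lit 3) (node (nat_lit 4) (nat_lit 0) (nat_lit 4) (node (nat_lit 6)
  (nat_lit 0) (nat_lit 5) (node (nat_lit 5) (nat_lit 0) (nat_lit 6) (node (nat_lit 4) (nat_lit
  101280) (nat_lit 7) nil (node (nat_lit 6) (nat_lit 101280) (nat_lit 7) nil nil)) nil) (node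
  (nat_lit 5) (nat_lit 0) (nat_lit 5) (node (nat_lit 4) (nat_lit 0) (nat_lit 6) (node (nat_lit 6)
  (nat_lit 47060) (nat_lit 7) (node (nat_lit 5) (nat_lit 47692) (nat_lit 8) (node (nat_lit 4)
  (nat_lit 47692) (nat_lit 9) nil nil) nil) nil) nil) nil)) (node (nat_lit 5) (nat_lit 0) (nat_lit
  4) (node (nat_lit 4) (nat_lit 0) (nat_lit 5) (node (nat_lit 6) (nat_lit 0) (nat_lit 6) (node
  (nat_lit 4) (nat_lit 0) (nat_lit 7) (node (nat_lit 5) (nat_lit 101280) (nat_lit 8) (node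
  (nat_lit 6) (nat_lit 101280) (nat_lit 9) nil (node (nat_lit 4) (nat_lit 101280) (nat_lit 9)
  (node (nat_lit 6) (nat_lit 101280) (nat_lit 10) (node (nat_lit 5) (nat_lit 101280) (nat_lit 11)
  (node (nat_lit 4) (nat_lit 101280) (nat_lit 12) (node (nat_lit 5) (nat_lit 101280) (nat_lit 13)
  (node (nat_lit 6) (nat_lit 101280) (nat_lit 14) (node (nat_lit 5) (nat_lit 101280) (nat_lit 15)
  (node (nat_lit 4) (nat_lit 101280) (nat_lit 16) (node (nat_lit 6) (nat_lit 101280) (nat_lit 17)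
  nil nil) nil) nil) nil) nil) nil) nil) nil) nil)) nil) (node (nat_lit 5) (nat_lit 0) (nat_lit 7)
  (node (nat_lit 6) (nat_lit 101280) (nat_lit 8) (node (nat_lit 4) (nat_lit 101280) (nat_lit 9)
  (node (nat_lit 5) (nat_lit 101280) (nat_lit 10) (node (nat_lit 4) (nat_lit 101280) (nat_lit 11)
  nil (node (nat_lit 6) (nat_lit 101280) (nat_lit 11) (node (nat_lit 5) (nat_lit 101280) (nat_lit
  12) nil nil) nil)) (node (nat_lit 6) (nat_lit 101280) (nat_lit 10) nil nil)) nil) nil) nil))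
  (node (nat_lit 5) (nat_lit 0) (nat_lit 6) (node (nat_lit 6) (nat_lit 0) (nat_lit 7) (node
  (nat_lit 4) (nat_lit 53004) (nat_lit 8) (node (nat_lit 6) (nat_lit 53004) (nat_lit 9) (node
  (nat_lit 5) (nat_lit 53004) (nat_lit 10) nil nil) nil) nil) nil) nil)) nil) nil)) (node (nat_lit
  4) (nat_lit 0) (nat_lit 3) (node (nat_lit 1) (nat_lit 0) (nat_lit 4) (node (nat_lit 5) (nat_lit
  0) (nat_lit 5) (node (nat_lit 7) (nat_lit 0) (nat_lit 6) (node (nat_lit 4) (nat_lit 47862)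
  (nat_lit 7) (node (nat_lit 5) (nat_lit 47862) (nat_lit 8) nil nil) nil) (node (nat_lit 4)
  (nat_lit 0) (nat_lit 6) (node (nat_lit 5) (nat_lit 0) (nat_lit 7) (node (nat_lit 7) (nat_lit
  47862) (nat_lit 8) (node (nat_lit 4) (nat_lit 47862) (nat_lit 9) (node (nat_lit 7) (nat_lit
  47862) (nat_lit 10) (node (nat_lit 5) (nat_lit 47862) (nat_lit 11) (node (nat_lit 7) (nat_lit
  47862) (nat_lit 12) (node (nat_lit 4) (nat_lit 47862) (nat_lit 13) (node (nat_lit 5) (nat_lit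
  47862) (nat_lit 14) (node (nat_lit 4) (nat_lit 47862) (nat_lit 15) (node (nat_lit 7) (nat_lit
  47862) (nat_lit 16) (node (nat_lit 5) (nat_lit 47862) (nat_lit 17) (node (nat_lit 4) (nat_lit
  47862) (nat_lit 18) (node (nat_lit 5) (nat_lit 47862) (nat_lit 19) (node (nat_lit 7) (nat_lit
  47862) (nat_lit 20) nil nil) nil) nil) nil) nil) nil) nil) nil) nil) nil) (node (nat_lit 5)
  (nat_lit 47862) (nat_lit 10) (node (nat_lit 4) (nat_lit 47862) (nat_lit 11) (node (nat_lit 7)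
  (nat_lit 47862) (nat_lit 12) nil nil) nil) nil)) (node (nat_lit 5) (nat_lit 47862) (nat_lit 9)
  (node (nat_lit 4) (nat_lit 47862) (nat_lit 10) (node (nat_lit 7) (nat_lit 47862) (nat_lit 11)
  nil nil) nil) nil)) nil) nil) nil)) (node (nat_lit 4) (nat_lit 0) (nat_lit 5) (node (nat_lit 5)
  (nat_lit 0) (nat_lit 6) (node (nat_lit 7) (nat_lit 47862) (nat_lit 7) nil nil) nil) nil)) nil)
  nil)) nil) nil)

end Pool.Agent.Work.MP_7cb3ca_co.P3.D
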