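import Pool.Agent.Work.MP_7cb3ca_co.P3.Defs

namespace Pool.Agent.Work.MP_7cb3ca_co.P3.D
open Tr
set_option maxRecDepth 100000

noncomputable def t106 : Tr :=
  (node (nat_lit 2) (nat_lit 0) (nat_lit 4) (node (nat_lit 6) (nat_lit 0) (nat_lit 5) (node
  (nat_lit 5) (nat_lit 92881) (nat_lit 6) (node (nat_lit 7) (nat_lit 98026) (nat_lit 7) (node
  (nat_lit 6) (nat_lit 99111) (nat_lit 8) (node (nat_lit 7) (nat_lit 104547) (nat_lit 9) (node
  (nat_lit 5) (nat_lit 106964) (nat_lit 10) (node (nat_lit 4) (nat_lit 105930) (nat_lit 11) (node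
  (nat_lit 5) (nat_lit 106794) (nat_lit 12) (node (nat_lit 6) (nat_lit 104650) (nat_lit 13) (node
  (nat_lit 7) (nat_lit 103145) (nat_lit 14) (node (nat_lit 6) (nat_lit 100996) (nat_lit 15) (node
  (nat_lit 5) (nat_lit 70094) (nat_lit 16) nil nil) nil) nil) nil) nil) nil) nil) (node (nat_lit
  4) (nat_lit 104774) (nat_lit 9) (node (nat_lit 5) (nat_lit 95052) (nat_lit 10) (node (nat_lit 6)
  (nat_lit 82935) (nat_lit 11) (node (nat_lit 7) (nat_lit 81959) (nat_lit 12) (node (nat_lit 6)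
  (nat_lit 78158) (nat_lit 13) (node (nat_lit 5) (nat_lit 42658) (nat_lit 14) nil nil) nil) nil)
  nil) nil) (node (nat_lit 0) (nat_lit 104238) (nat_lit 9) (node (nat_lit 6) (nat_lit 102620)
  (nat_lit 10) nil nil) nil))) (node (nat_lit 5) (nat_lit 99111) (nat_lit 8) (node (nat_lit 6)
  (nat_lit 105729) (nat_lit 9) nil (node (nat_lit 4) (nat_lit 108237) (nat_lit 9) (node (nat_lit
  5) (nat_lit 103233) (nat_lit 10) (node (nat_lit 6) (nat_lit 100007) (nat_lit 11) (node (nat_lit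
  7) (nat_lit 89253) (nat_lit 12) nil nil) nil) nil) nil)) (node (nat_lit 4) (nat_lit 113579)
  (nat_lit 8) nil (node (nat_lit 0) (nat_lit 110891) (nat_lit 8) nil nil)))) (node (nat_lit 4)
  (nat_lit 104108) (nat_lit 7) (node (nat_lit 6) (nat_lit 106484) (nat_lit 8) (node (nat_lit 4)
  (nat_lit 107586) (nat_lit 9) (node (nat_lit 5) (nat_lit 105741) (nat_lit 10) (node (nat_lit 6)
  (nat_lit 96483) (nat_lit 11) (node (nat_lit 7) (nat_lit 67570) (nat_lit 12) (node (nat_lit 6)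
  (nat_lit 40787) (nat_lit 13) nil nil) nil) nil) nil) nil) (node (nat_lit 5) (nat_lit 95414)
  (nat_lit 8) (node (nat_lit 6) (nat_lit 87180) (nat_lit 9) (node (nat_lit 7) (nat_lit 58952)
  (nat_lit 10) nil nil) (node (nat_lit 7) (nat_lit 92284) (nat_lit 9) nil nil)) (node (nat_lit 7)
  (nat_lit 102674) (nat_lit 8) (node (nat_lit 5) (nat_lit 98913) (nat_lit 9) nil nil) nil))) (node
  (nat_lit 6) (nat_lit 98083) (nat_lit 7) (node (nat_lit 7) (nat_lit 99116) (nat_lit 8) (node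
  (nat_lit 5) (nat_lit 105353) (nat_lit 9) (node (nat_lit 7) (nat_lit 108889) (nat_lit 10) (node
  (nat_lit 6) (nat_lit 106778) (nat_lit 11) (node (nat_lit 5) (nat_lit 106938) (nat_lit 12) nil
  nil) nil) (node (nat_lit 6) (nat_lit 103736) (nat_lit 10) (node (nat_lit 5) (nat_lit 103256)
  (nat_lit 11) nil nil) nil)) nil) (node (nat_lit 4) (nat_lit 113136) (nat_lit 8) (node (nat_lit
  5) (nat_lit 113804) (nat_lit 9) (node (nat_lit 6) (nat_lit 112186) (nat_lit 10) nil nil) nil)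
  nil)) (node (nat_lit 0) (nat_lit 110225) (nat_lit 7) (node (nat_lit 5) (nat_lit 112330) (nat_lit
  8) nil (node (nat_lit 6) (nat_lit 108949) (nat_lit 8) nil nil)) nil)))) (node (nat_lit 4)
  (nat_lit 100924) (nat_lit 6) (node (nat_lit 5) (nat_lit 90799) (nat_lit 7) (node (nat_lit 6)
  (nat_lit 65998) (nat_lit 8) (node (nat_lit 5) (nat_lit 66666) (nat_lit 9) (node (nat_lit 4)
  (nat_lit 67174) (nat_lit 10) (node (nat_lit 6) (nat_lit 67621) (nat_lit 11) nil nil) (node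
  (nat_lit 7) (nat_lit 67174) (nat_lit 10) (node (nat_lit 6) (nat_lit 65886) (nat_lit 11) nil nil)
  nil)) (node (nat_lit 7) (nat_lit 54765) (nat_lit 9) nil (node (nat_lit 4) (nat_lit 66666)
  (nat_lit 9) nil (node (nat_lit 0) (nat_lit 66666) (nat_lit 9) nil nil)))) (node (nat_lit 4)
  (nat_lit 93889) (nat_lit 8) (node (nat_lit 6) (nat_lit 95663) (nat_lit 9) (node (nat_lit 5)
  (nat_lit 92857) (nat_lit 10) (node (nat_lit 6) (nat_lit 93833) (nat_lit 11) nil nil) (node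
  (nat_lit 7) (nat_lit 95963) (nat_lit 10) nil nil)) (node (nat_lit 7) (nat_lit 94332) (nat_lit 9)
  nil nil)) (node (nat_lit 0) (nat_lit 93889) (nat_lit 8) (node (nat_lit 5) (nat_lit 95345)
  (nat_lit 9) nil (node (nat_lit 4) (nat_lit 92583) (nat_lit 9) nil nil)) (node (nat_lit 7)
  (nat_lit 93322) (nat_lit 8) (node (nat_lit 5) (nat_lit 94779) (nat_lit 9) (node (nat_lit 4)
  (nat_lit 94566) (nat_lit 10) nil nil) (node (nat_lit 4) (nat_lit 95096) (nat_lit 9) nil nil))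
  nil)))) (node (nat_lit 6) (nat_lit 106428) (nat_lit 7) (node (nat_lit 7) (nat_lit 109366)
  (nat_lit 8) (node (nat_lit 4) (nat_lit 111954) (nat_lit 9) nil (node (nat_lit 5) (nat_lit
  110822) (nat_lit 9) nil nil)) (node (nat_lit 5) (nat_lit 108576) (nat_lit 8) (node (nat_lit 6)
  (nat_lit 110033) (nat_lit 9) (node (nat_lit 4) (nat_lit 111138) (nat_lit 10) (node (nat_lit 5)
  (nat_lit 112114) (nat_lit 11) (node (nat_lit 6) (nat_lit 111607) (nat_lit 12) nil nil) nil) nil)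
  (node (nat_lit 4) (nat_lit 108028) (nat_lit 9) nil nil)) nil)) (node (nat_lit 7) (nat_lit
  106091) (nat_lit 7) (node (nat_lit 4) (nat_lit 109702) (nat_lit 8) (node (nat_lit 6) (nat_lit
  110983) (nat_lit 9) (node (nat_lit 4) (nat_lit 105558) (nat_lit 10) nil nil) nil) (node (nat_lit
  6) (nat_lit 109384) (nat_lit 8) (node (nat_lit 5) (nat_lit 108685) (nat_lit 9) (node (nat_lit 4)
  (nat_lit 101034) (nat_lit 10) nil nil) nil) (node (nat_lit 5) (nat_lit 107570) (nat_lit 8) (node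
  (nat_lit 4) (nat_lit 107574) (nat_lit 9) (node (nat_lit 5) (nat_lit 104825) (nat_lit 10) (node
  (nat_lit 6) (nat_lit 96055) (nat_lit 11) (node (nat_lit 7) (nat_lit 83991) (nat_lit 12) (node
  (nat_lit 6) (nat_lit 57827) (nat_lit 13) nil nil) nil) nil) nil) nil) nil))) (node (nat_lit 0)
  (nat_lit 106131) (nat_lit 7) (node (nat_lit 6) (nat_lit 108236) (nat_lit 8) (node (nat_lit 4)
  (nat_lit 109693) (nat_lit 9) nil nil) (node (nat_lit 5) (nat_lit 108236) (nat_lit 8) nil nil))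
  nil)))) (node (nat_lit 0) (nat_lit 112211) (nat_lit 6) (node (nat_lit 7) (nat_lit 114651)
  (nat_lit 7) (node (nat_lit 6) (nat_lit 106368) (nat_lit 8) (node (nat_lit 4) (nat_lit 105507)
  (nat_lit 9) (node (nat_lit 5) (nat_lit 103247) (nat_lit 10) nil nil) (node (nat_lit 5) (nat_lit
  105988) (nat_lit 9) nil nil)) nil) (node (nat_lit 6) (nat_lit 115409) (nat_lit 7) (node (nat_lit
  4) (nat_lit 117514) (nat_lit 8) nil nil) (node (nat_lit 4) (nat_lit 117092) (nat_lit 7) nil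
  (node (nat_lit 5) (nat_lit 112202) (nat_lit 7) (node (nat_lit 4) (nat_lit 110768) (nat_lit 8)
  (node (nat_lit 5) (nat_lit 112225) (nat_lit 9) nil nil) nil) nil)))) nil))) (node (nat_lit 5)
  (nat_lit 0) (nat_lit 5) (node (nat_lit 7) (nat_lit 94470) (nat_lit 6) (node (nat_lit 6) (nat_lit
  98170) (nat_lit 7) (node (nat_lit 7) (nat_lit 99136) (nat_lit 8) (node (nat_lit 5) (nat_lit
  104452) (nat_lit 9) (node (nat_lit 6) (nat_lit 106181) (nat_lit 10) nil (node (nat_lit 4)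
  (nat_lit 109669) (nat_lit 10) (node (nat_lit 5) (nat_lit 104429) (nat_lit 11) (node (nat_lit 6)
  (nat_lit 103496) (nat_lit 12) (node (nat_lit 7) (nat_lit 96880) (nat_lit 13) (node (nat_lit 5)
  (nat_lit 94970) (nat_lit 14) (node (nat_lit 7) (nat_lit 64283) (nat_lit 15) nil nil) nil) nil)
  nil) nil) nil)) nil) (node (nat_lit 5) (nat_lit 99125) (nat_lit 8) (node (nat_lit 6) (nat_lit
  106155) (nat_lit 9) nil (node (nat_lit 7) (nat_lit 104922) (nat_lit 9) nil (node (nat_lit 4)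
  (nat_lit 108451) (nat_lit 9) nil nil))) (node (nat_lit 4) (nat_lit 112286) (nat_lit 8) (node
  (nat_lit 5) (nat_lit 105804) (nat_lit 9) (node (nat_lit 6) (nat_lit 101850) (nat_lit 10) (node
  (nat_lit 7) (nat_lit 77056) (nat_lit 11) (node (nat_lit 5) (nat_lit 51289) (nat_lit 12) nil nil)
  nil) nil) nil) (node (nat_lit 0) (nat_lit 113161) (nat_lit 8) nil nil)))) (node (nat_lit 4)
  (nat_lit 114687) (nat_lit 7) (node (nat_lit 6) (nat_lit 115653) (nat_lit 8) nil nil) (node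
  (nat_lit 0) (nat_lit 114687) (nat_lit 7) nil nil))) (node (nat_lit 6) (nat_lit 95997) (nat_lit
  6) (node (nat_lit 5) (nat_lit 98157) (nat_lit 7) (node (nat_lit 7) (nat_lit 99122) (nat_lit 8)
  (node (nat_lit 6) (nat_lit 105197) (nat_lit 9) (node (nat_lit 7) (nat_lit 107554) (nat_lit 10)
  (node (nat_lit 5) (nat_lit 104534) (nat_lit 11) nil nil) (node (nat_lit 5) (nat_lit 106825)
  (nat_lit 10) nil (node (nat_lit 4) (nat_lit 109295) (nat_lit 10) (node (nat_lit 5) (nat_lit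
  103098) (nat_lit 11) nil nil) nil))) (node (nat_lit 4) (nat_lit 111286) (nat_lit 9) nil (node
  (nat_lit 5) (nat_lit 105183) (nat_lit 9) nil nil))) (node (nat_lit 4) (nat_lit 108976) (nat_lit
  8) (node (nat_lit 5) (nat_lit 104030) (nat_lit 9) nil nil) (node (nat_lit 0) (nat_lit 112379)
  (nat_lit 8) nil nil))) (node (nat_lit 4) (nat_lit 114629) (nat_lit 7) (node (nat_lit 5) (nat_lit
  115595) (nat_lit 8) (node (nat_lit 6) (nat_lit 113624) (nat_lit 9) nil nil) nil) (node (nat_lit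
  0) (nat_lit 113888) (nat_lit 7) nil nil))) (node (nat_lit 4) (nat_lit 101901) (nat_lit 6) (node
  (nat_lit 6) (nat_lit 106567) (nat_lit 7) (node (nat_lit 5) (nat_lit 108516) (nat_lit 8) nil
  (node (nat_lit 4) (nat_lit 106810) (nat_lit 8) (node (nat_lit 5) (nat_lit 100584) (nat_lit 9)
  (node (nat_lit 6) (nat_lit 95053) (nat_lit 10) (node (nat_lit 7) (nat_lit 78453) (nat_lit 11)
  (node (nat_lit 5) (nat_lit 45068) (nat_lit 12) nil nil) nil) nil) nil) nil)) (node (nat_lit 5)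
  (nat_lit 92302) (nat_lit 7) (node (nat_lit 6) (nat_lit 64283) (nat_lit 8) (node (nat_lit 5)
  (nat_lit 64283) (nat_lit 9) (node (nat_lit 4) (nat_lit 64283) (nat_lit 10) (node (nat_lit 6)
  (nat_lit 64283) (nat_lit 11) nil nil) nil) (node (nat_lit 4) (nat_lit 64283) (nat_lit 9) nil
  (node (nat_lit 7) (nat_lit 36592) (nat_lit 9) nil nil))) (node (nat_lit 7) (nat_lit 92302)
  (nat_lit 8) (node (nat_lit 6) (nat_lit 90975) (nat_lit 9) nil nil) nil)) (node (nat_lit 7)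
  (nat_lit 105745) (nat_lit 7) (node (nat_lit 6) (nat_lit 107703) (nat_lit 8) (node (nat_lit 4)
  (nat_lit 105016) (nat_lit 9) (node (nat_lit 5) (nat_lit 102929) (nat_lit 10) nil nil) nil) (node
  (nat_lit 4) (nat_lit 108306) (nat_lit 8) (node (nat_lit 6) (nat_lit 108050) (nat_lit 9) nil nil)
  nil)) (node (nat_lit 0) (nat_lit 107399) (nat_lit 7) nil nil)))) (node (nat_lit 0) (nat_lit
  114413) (nat_lit 6) (node (nat_lit 6) (nat_lit 117060) (nat_lit 7) nil (node (nat_lit 5)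
  (nat_lit 117180) (nat_lit 7) nil nil)) nil)))) (node (nat_lit 4) (nat_lit 0) (nat_lit 5) (node
  (nat_lit 6) (nat_lit 113418) (nat_lit 6) (node (nat_lit 4) (nat_lit 113323) (nat_lit 7) (node
  (nat_lit 7) (nat_lit 113418) (nat_lit 8) (node (nat_lit 6) (nat_lit 113418) (nat_lit 9) nil nil)
  (node (nat_lit 5) (nat_lit 107446) (nat_lit 8) (node (nat_lit 6) (nat_lit 92116) (nat_lit 9)
  (node (nat_lit 7) (nat_lit 68982) (nat_lit 10) nil nil) nil) nil)) (node (nat_lit 5) (nat_lit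
  119606) (nat_lit 7) nil (node (nat_lit 7) (nat_lit 113418) (nat_lit 7) nil nil))) (node (nat_lit
  7) (nat_lit 113418) (nat_lit 6) (node (nat_lit 6) (nat_lit 113418) (nat_lit 7) (node (nat_lit 7)
  (nat_lit 113418) (nat_lit 8) nil nil) nil) (node (nat_lit 5) (nat_lit 114246) (nat_lit 6) nil
  (node (nat_lit 0) (nat_lit 115083) (nat_lit 6) nil nil)))) (node (nat_lit 0) (nat_lit 0)
  (nat_lit 5) (node (nat_lit 6) (nat_lit 117106) (nat_lit 6) (node (nat_lit 4) (nat_lit 120657)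
  (nat_lit 7) (node (nat_lit 5) (nat_lit 121623) (nat_lit 8) nil nil) nil) (node (nat_lit 7)
  (nat_lit 117475) (nat_lit 6) nil (node (nat_lit 5) (nat_lit 117106) (nat_lit 6) (node (nat_lit
  4) (nat_lit 117515) (nat_lit 7) nil nil) (node (nat_lit 4) (nat_lit 117912) (nat_lit 6) (node
  (nat_lit 6) (nat_lit 117357) (nat_lit 7) nil nil) (node (nat_lit 0) (nat_lit 117341) (nat_lit 6)
  nil nil))))) nil)))) (node (nat_lit 4) (nat_lit 0) (nat_lit 4) (node (nat_lit 5) (nat_lit 0)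
  (nat_lit 5) (node (nat_lit 4) (nat_lit 0) (nat_lit 6) (node (nat_lit 6) (nat_lit 52310) (nat_lit
  7) (node (nat_lit 5) (nat_lit 54423) (nat_lit 8) nil (node (nat_lit 0) (nat_lit 59487) (nat_lit
  8) nil (node (nat_lit 2) (nat_lit 57959) (nat_lit 8) nil nil))) (node (nat_lit 0) (nat_lit
  57383) (nat_lit 7) nil (node (nat_lit 2) (nat_lit 56189) (nat_lit 7) nil nil))) (node (nat_lit
  0) (nat_lit 53975) (nat_lit 6) (node (nat_lit 4) (nat_lit 57446) (nat_lit 7) nil (node (nat_lit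
  6) (nat_lit 56341) (nat_lit 7) nil (node (nat_lit 5) (nat_lit 56373) (nat_lit 7) (node (nat_lit
  4) (nat_lit 58431) (nat_lit 8) (node (nat_lit 5) (nat_lit 59114) (nat_lit 9) (node (nat_lit 6)
  (nat_lit 57496) (nat_lit 10) (node (nat_lit 4) (nat_lit 57943) (nat_lit 11) nil nil) nil) nil)
  nil) nil))) (node (nat_lit 2) (nat_lit 0) (nat_lit 6) (node (nat_lit 4) (nat_lit 56923) (nat_lit
  7) nil (node (nat_lit 6) (nat_lit 52138) (nat_lit 7) (node (nat_lit 5) (nat_lit 54255) (nat_lit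
  8) (node (nat_lit 4) (nat_lit 54725) (nat_lit 9) nil nil) (node (nat_lit 9) (nat_lit 55054)
  (nat_lit 8) (node (nat_lit 5) (nat_lit 55251) (nat_lit 9) nil nil) nil)) (node (nat_lit 5)
  (nat_lit 52621) (nat_lit 7) (node (nat_lit 4) (nat_lit 55123) (nat_lit 8) (node (nat_lit 5)
  (nat_lit 39438) (nat_lit 9) (node (nat_lit 6) (nat_lit 31899) (nat_lit 10) nil nil) nil) nil)
  (node (nat_lit 0) (nat_lit 55998) (nat_lit 7) nil nil)))) nil))) (node (nat_lit 0) (nat_lit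
  111180) (nat_lit 5) (node (nat_lit 6) (nat_lit 115939) (nat_lit 6) (node (nat_lit 4) (nat_lit
  119137) (nat_lit 7) (node (nat_lit 5) (nat_lit 120105) (nat_lit 8) (node (nat_lit 6) (nat_lit
  118134) (nat_lit 9) (node (nat_lit 4) (nat_lit 118642) (nat_lit 10) nil nil) nil) nil) nil)
  (node (nat_lit 5) (nat_lit 115300) (nat_lit 6) (node (nat_lit 4) (nat_lit 113778) (nat_lit 7)
  (node (nat_lit 5) (nat_lit 115883) (nat_lit 8) (node (nat_lit 6) (nat_lit 114701) (nat_lit 9)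
  (node (nat_lit 4) (nat_lit 115807) (nat_lit 10) nil nil) nil) nil) nil) nil)) (node (nat_lit 2)
  (nat_lit 105323) (nat_lit 5) (node (nat_lit 6) (nat_lit 108854) (nat_lit 6) (node (nat_lit 4)
  (nat_lit 109344) (nat_lit 7) (node (nat_lit 5) (nat_lit 99440) (nat_lit 8) (node (nat_lit 6)
  (nat_lit 80288) (nat_lit 9) (node (nat_lit 4) (nat_lit 62771) (nat_lit 10) nil nil) nil) nil)
  nil) (node (nat_lit 5) (nat_lit 114664) (nat_lit 6) (node (nat_lit 4) (nat_lit 113605) (nat_lit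
  7) (node (nat_lit 5) (nat_lit 99540) (nat_lit 8) (node (nat_lit 6) (nat_lit 87242) (nat_lit 9)
  (node (nat_lit 4) (nat_lit 63792) (nat_lit 10) nil nil) nil) nil) nil) (node (nat_lit 4)
  (nat_lit 109157) (nat_lit 6) nil nil))) (node (nat_lit 6) (nat_lit 0) (nat_lit 5) (node (nat_lit
  5) (nat_lit 87787) (nat_lit 6) (node (nat_lit 4) (nat_lit 105815) (nat_lit 7) (node (nat_lit 5)
  (nat_lit 110008) (nat_lit 8) (node (nat_lit 6) (nat_lit 105208) (nat_lit 9) (node (nat_lit 4)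
  (nat_lit 64283) (nat_lit 10) nil nil) nil) nil) (node (nat_lit 0) (nat_lit 117510) (nat_lit 7)
  nil (node (nat_lit 2) (nat_lit 115508) (nat_lit 7) nil nil))) (node (nat_lit 0) (nat_lit 114195)
  (nat_lit 6) nil (node (nat_lit 2) (nat_lit 108576) (nat_lit 6) nil nil))) nil)))) (node (nat_lit
  5) (nat_lit 0) (nat_lit 4) (node (nat_lit 0) (nat_lit 107971) (nat_lit 5) (node (nat_lit 6)
  (nat_lit 115525) (nat_lit 6) (node (nat_lit 5) (nat_lit 116907) (nat_lit 7) (node (nat_lit 4)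
  (nat_lit 104875) (nat_lit 8) (node (nat_lit 5) (nat_lit 97879) (nat_lit 9) (node (nat_lit 6)
  (nat_lit 83924) (nat_lit 10) nil nil) nil) nil) (node (nat_lit 4) (nat_lit 116992) (nat_lit 7)
  (node (nat_lit 5) (nat_lit 117958) (nat_lit 8) (node (nat_lit 6) (nat_lit 115987) (nat_lit 9)
  nil nil) nil) nil)) (node (nat_lit 5) (nat_lit 115525) (nat_lit 6) (node (nat_lit 6) (nat_lit
  117234) (nat_lit 7) nil (node (nat_lit 4) (nat_lit 116934) (nat_lit 7) (node (nat_lit 5)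
  (nat_lit 117958) (nat_lit 8) (node (nat_lit 6) (nat_lit 115987) (nat_lit 9) (node (nat_lit 5)
  (nat_lit 115488) (nat_lit 10) nil nil) nil) nil) nil)) nil)) (node (nat_lit 2) (nat_lit 0)
  (nat_lit 5) (node (nat_lit 6) (nat_lit 95510) (nat_lit 6) (node (nat_lit 5) (nat_lit 97931)
  (nat_lit 7) (node (nat_lit 6) (nat_lit 98897) (nat_lit 8) (node (nat_lit 8) (nat_lit 96927)
  (nat_lit 9) nil (node (nat_lit 4) (nat_lit 106780) (nat_lit 9) (node (nat_lit 5) (nat_lit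
  107287) (nat_lit 10) (node (nat_lit 6) (nat_lit 106000) (nat_lit 11) (node (nat_lit 5) (nat_lit
  105849) (nat_lit 12) (node (nat_lit 8) (nat_lit 105098) (nat_lit 13) nil nil) nil) nil) nil)
  nil)) (node (nat_lit 4) (nat_lit 105788) (nat_lit 8) (node (nat_lit 5) (nat_lit 97270) (nat_lit
  9) (node (nat_lit 6) (nat_lit 91720) (nat_lit 10) (node (nat_lit 5) (nat_lit 62424) (nat_lit 11)
  nil nil) nil) nil) nil)) (node (nat_lit 8) (nat_lit 98012) (nat_lit 7) (node (nat_lit 5)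
  (nat_lit 98978) (nat_lit 8) nil nil) (node (nat_lit 4) (nat_lit 107233) (nat_lit 7) (node
  (nat_lit 5) (nat_lit 102813) (nat_lit 8) (node (nat_lit 6) (nat_lit 80123) (nat_lit 9) nil nil)
  nil) nil))) (node (nat_lit 5) (nat_lit 95298) (nat_lit 6) (node (nat_lit 6) (nat_lit 97932)
  (nat_lit 7) (node (nat_lit 8) (nat_lit 98898) (nat_lit 8) (node (nat_lit 6) (nat_lit 102280)
  (nat_lit 9) (node (nat_lit 5) (nat_lit 104848) (nat_lit 10) nil nil) nil) (node (nat_lit 4)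
  (nat_lit 108441) (nat_lit 8) nil nil)) (node (nat_lit 4) (nat_lit 107754) (nat_lit 7) (node
  (nat_lit 5) (nat_lit 97581) (nat_lit 8) (node (nat_lit 6) (nat_lit 85217) (nat_lit 9) (node
  (nat_lit 5) (nat_lit 64200) (nat_lit 10) nil nil) nil) nil) nil)) (node (nat_lit 4) (nat_lit
  113290) (nat_lit 6) nil (node (nat_lit 0) (nat_lit 110769) (nat_lit 6) nil nil)))) (node
  (nat_lit 4) (nat_lit 0) (nat_lit 5) (node (nat_lit 5) (nat_lit 0) (nat_lit 6) (node (nat_lit 6)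
  (nat_lit 0) (nat_lit 7) (node (nat_lit 4) (nat_lit 43487) (nat_lit 8) (node (nat_lit 6) (nat_lit
  44121) (nat_lit 9) (node (nat_lit 5) (nat_lit 47991) (nat_lit 10) nil nil) nil) (node (nat_lit
  0) (nat_lit 47274) (nat_lit 8) nil (node (nat_lit 2) (nat_lit 44224) (nat_lit 8) nil nil)))
  (node (nat_lit 0) (nat_lit 64283) (nat_lit 7) (node (nat_lit 6) (nat_lit 64283) (nat_lit 8)
  (node (nat_lit 5) (nat_lit 64283) (nat_lit 9) nil nil) (node (nat_lit 5) (nat_lit 64283)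
  (nat_lit 8) (node (nat_lit 4) (nat_lit 64283) (nat_lit 9) nil nil) nil)) (node (nat_lit 2)
  (nat_lit 64283) (nat_lit 7) (node (nat_lit 6) (nat_lit 64283) (nat_lit 8) (node (nat_lit 5)
  (nat_lit 64283) (nat_lit 9) nil nil) (node (nat_lit 5) (nat_lit 64283) (nat_lit 8) (node
  (nat_lit 4) (nat_lit 64283) (nat_lit 9) nil nil) nil)) nil))) (node (nat_lit 6) (nat_lit 0)
  (nat_lit 6) (node (nat_lit 5) (nat_lit 97296) (nat_lit 7) nil (node (nat_lit 4) (nat_lit 95959)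
  (nat_lit 7) (node (nat_lit 5) (nat_lit 101877) (nat_lit 8) (node (nat_lit 6) (nat_lit 79122)
  (nat_lit 9) (node (nat_lit 5) (nat_lit 69861) (nat_lit 10) nil (node (nat_lit 4) (nat_lit 83852)
  (nat_lit 10) nil nil)) nil) nil) (node (nat_lit 0) (nat_lit 108788) (nat_lit 7) nil (node
  (nat_lit 2) (nat_lit 105804) (nat_lit 7) nil nil)))) (node (nat_lit 0) (nat_lit 103221) (nat_lit
  6) (node (nat_lit 6) (nat_lit 107991) (nat_lit 7) (node (nat_lit 5) (nat_lit 110049) (nat_lit 8)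
  nil nil) (node (nat_lit 5) (nat_lit 107991) (nat_lit 7) nil nil)) (node (nat_lit 2) (nat_lit
  98935) (nat_lit 6) (node (nat_lit 6) (nat_lit 106092) (nat_lit 7) (node (nat_lit 4) (nat_lit
  108150) (nat_lit 8) (node (nat_lit 5) (nat_lit 106861) (nat_lit 9) (node (nat_lit 6) (nat_lit
  87116) (nat_lit 10) (node (nat_lit 5) (nat_lit 57905) (nat_lit 11) nil nil) nil) nil) nil) (node
  (nat_lit 5) (nat_lit 106173) (nat_lit 7) nil nil)) nil)))) nil))) nil)))

noncomputable def t107 : Tr :=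
  (node (nat_lit 3) (nat_lit 0) (nat_lit 4) (node (nat_lit 5) (nat_lit 0) (nat_lit 5) (node
  (nat_lit 7) (nat_lit 0) (nat_lit 6) (node (nat_lit 4) (nat_lit 39871) (nat_lit 7) (node (nat_lit
  5) (nat_lit 45548) (nat_lit 8) (node (nat_lit 4) (nat_lit 45548) (nat_lit 9) nil nil) (node
  (nat_lit 0) (nat_lit 45529) (nat_lit 8) nil (node (nat_lit 2) (nat_lit 41655) (nat_lit 8) nil
  nil))) (node (nat_lit 0) (nat_lit 45246) (nat_lit 7) nil (node (nat_lit 2) (nat_lit 41422)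
  (nat_lit 7) nil nil))) (node (nat_lit 0) (nat_lit 43876) (nat_lit 6) (node (nat_lit 7) (nat_lit
  43876) (nat_lit 7) (node (nat_lit 4) (nat_lit 43876) (nat_lit 8) (node (nat_lit 5) (nat_lit
  45260) (nat_lit 9) nil nil) nil) nil) (node (nat_lit 2) (nat_lit 0) (nat_lit 6) (node (nat_lit
  7) (nat_lit 42211) (nat_lit 7) (node (nat_lit 4) (nat_lit 41507) (nat_lit 8) (node (nat_lit 5)
  (nat_lit 39664) (nat_lit 9) (node (nat_lit 4) (nat_lit 25746) (nat_lit 10) nil nil) nil) nil)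
  (node (nat_lit 4) (nat_lit 41460) (nat_lit 7) (node (nat_lit 5) (nat_lit 44489) (nat_lit 8) nil
  (node (nat_lit 9) (nat_lit 41689) (nat_lit 8) nil (node (nat_lit 7) (nat_lit 41460) (nat_lit 8)
  (node (nat_lit 4) (nat_lit 41460) (nat_lit 9) nil nil) nil))) (node (nat_lit 5) (nat_lit 46083)
  (nat_lit 7) (node (nat_lit 7) (nat_lit 46083) (nat_lit 8) nil nil) (node (nat_lit 0) (nat_lit
  44862) (nat_lit 7) nil nil)))) (node (nat_lit 4) (nat_lit 0) (nat_lit 6) (node (nat_lit 0)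
  (nat_lit 46244) (nat_lit 7) (node (nat_lit 4) (nat_lit 46292) (nat_lit 8) (node (nat_lit 7)
  (nat_lit 46127) (nat_lit 9) (node (nat_lit 4) (nat_lit 46127) (nat_lit 10) (node (nat_lit 5)
  (nat_lit 47105) (nat_lit 11) nil nil) nil) nil) (node (nat_lit 7) (nat_lit 46244) (nat_lit 8)
  (node (nat_lit 4) (nat_lit 46244) (nat_lit 9) (node (nat_lit 5) (nat_lit 47125) (nat_lit 10) nil
  nil) nil) (node (nat_lit 5) (nat_lit 47674) (nat_lit 8) (node (nat_lit 7) (nat_lit 47674)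
  (nat_lit 9) nil nil) nil))) (node (nat_lit 2) (nat_lit 42159) (nat_lit 7) (node (nat_lit 4)
  (nat_lit 43393) (nat_lit 8) (node (nat_lit 7) (nat_lit 44472) (nat_lit 9) (node (nat_lit 10)
  (nat_lit 44472) (nat_lit 10) (node (nat_lit 7) (nat_lit 44472) (nat_lit 11) nil nil) (node
  (nat_lit 4) (nat_lit 44472) (nat_lit 10) (node (nat_lit 5) (nat_lit 45801) (nat_lit 11) nil nil)
  (node (nat_lit 0) (nat_lit 45748) (nat_lit 10) nil nil))) nil) (node (nat_lit 7) (nat_lit 43354)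
  (nat_lit 8) (node (nat_lit 4) (nat_lit 43443) (nat_lit 9) (node (nat_lit 5) (nat_lit 45789)
  (nat_lit 10) (node (nat_lit 4) (nat_lit 35343) (nat_lit 11) nil nil) nil) nil) (node (nat_lit 5)
  (nat_lit 47674) (nat_lit 8) (node (nat_lit 7) (nat_lit 47674) (nat_lit 9) nil nil) (node
  (nat_lit 0) (nat_lit 47643) (nat_lit 8) nil nil)))) (node (nat_lit 5) (nat_lit 0) (nat_lit 7)
  (node (nat_lit 7) (nat_lit 45085) (nat_lit 8) (node (nat_lit 4) (nat_lit 45198) (nat_lit 9)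
  (node (nat_lit 7) (nat_lit 45657) (nat_lit 10) (node (nat_lit 5) (nat_lit 48193) (nat_lit 11)
  (node (nat_lit 7) (nat_lit 48193) (nat_lit 12) nil nil) nil) (node (nat_lit 5) (nat_lit 47954)
  (nat_lit 10) (node (nat_lit 4) (nat_lit 47954) (nat_lit 11) nil nil) nil)) (node (nat_lit 5)
  (nat_lit 47364) (nat_lit 9) nil nil)) (node (nat_lit 2) (nat_lit 45932) (nat_lit 8) (node
  (nat_lit 7) (nat_lit 45768) (nat_lit 9) nil nil) (node (nat_lit 0) (nat_lit 47210) (nat_lit 8)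
  (node (nat_lit 7) (nat_lit 47210) (nat_lit 9) nil nil) nil))) nil))) nil)))) (node (nat_lit 0)
  (nat_lit 0) (nat_lit 5) (node (nat_lit 4) (nat_lit 42308) (nat_lit 6) (node (nat_lit 7) (nat_lit
  42529) (nat_lit 7) (node (nat_lit 4) (nat_lit 42481) (nat_lit 8) (node (nat_lit 8) (nat_lit
  43836) (nat_lit 9) nil (node (nat_lit 5) (nat_lit 38392) (nat_lit 9) (node (nat_lit 4) (nat_lit
  24343) (nat_lit 10) nil nil) nil)) nil) (node (nat_lit 5) (nat_lit 45369) (nat_lit 7) nil (node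
  (nat_lit 8) (nat_lit 45369) (nat_lit 7) (node (nat_lit 7) (nat_lit 45369) (nat_lit 8) (node
  (nat_lit 4) (nat_lit 45369) (nat_lit 9) nil nil) nil) nil))) (node (nat_lit 5) (nat_lit 45011)
  (nat_lit 6) (node (nat_lit 7) (nat_lit 45011) (nat_lit 7) (node (nat_lit 4) (nat_lit 45011)
  (nat_lit 8) (node (nat_lit 5) (nat_lit 45713) (nat_lit 9) (node (nat_lit 4) (nat_lit 45713)
  (nat_lit 10) nil nil) nil) nil) nil) (node (nat_lit 7) (nat_lit 42351) (nat_lit 6) (node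
  (nat_lit 4) (nat_lit 42219) (nat_lit 7) (node (nat_lit 8) (nat_lit 43430) (nat_lit 8) nil (node
  (nat_lit 5) (nat_lit 44506) (nat_lit 8) nil nil)) nil) (node (nat_lit 0) (nat_lit 44940)
  (nat_lit 6) nil (node (nat_lit 2) (nat_lit 41832) (nat_lit 6) nil nil))))) (node (nat_lit 2)
  (nat_lit 0) (nat_lit 5) (node (nat_lit 4) (nat_lit 0) (nat_lit 6) (node (nat_lit 7) (nat_lit
  28763) (nat_lit 7) (node (nat_lit 4) (nat_lit 28763) (nat_lit 8) (node (nat_lit 8) (nat_lit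
  28763) (nat_lit 9) (node (nat_lit 4) (nat_lit 32809) (nat_lit 10) (node (nat_lit 7) (nat_lit
  34684) (nat_lit 11) (node (nat_lit 8) (nat_lit 34482) (nat_lit 12) (node (nat_lit 7) (nat_lit
  33695) (nat_lit 13) (node (nat_lit 4) (nat_lit 33091) (nat_lit 14) nil nil) nil) nil) (node
  (nat_lit 5) (nat_lit 36441) (nat_lit 11) nil (node (nat_lit 0) (nat_lit 36441) (nat_lit 11) nil
  nil))) (node (nat_lit 7) (nat_lit 32686) (nat_lit 10) (node (nat_lit 8) (nat_lit 33005) (nat_lit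
  11) nil (node (nat_lit 4) (nat_lit 31232) (nat_lit 11) (node (nat_lit 5) (nat_lit 30170)
  (nat_lit 12) nil nil) nil)) (node (nat_lit 5) (nat_lit 36244) (nat_lit 10) nil (node (nat_lit 0)
  (nat_lit 36244) (nat_lit 10) nil nil)))) (node (nat_lit 5) (nat_lit 28154) (nat_lit 9) (node
  (nat_lit 4) (nat_lit 21858) (nat_lit 10) nil nil) (node (nat_lit 0) (nat_lit 37277) (nat_lit 9)
  nil nil))) (node (nat_lit 5) (nat_lit 41699) (nat_lit 8) (node (nat_lit 4) (nat_lit 41699)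
  (nat_lit 9) (node (nat_lit 7) (nat_lit 41699) (nat_lit 10) nil nil) (node (nat_lit 7) (nat_lit
  41699) (nat_lit 9) nil nil)) (node (nat_lit 0) (nat_lit 40585) (nat_lit 8) nil nil))) (node
  (nat_lit 5) (nat_lit 44279) (nat_lit 7) nil (node (nat_lit 8) (nat_lit 28763) (nat_lit 7) (node
  (nat_lit 7) (nat_lit 28763) (nat_lit 8) (node (nat_lit 4) (nat_lit 28763) (nat_lit 9) (node
  (nat_lit 8) (nat_lit 32573) (nat_lit 10) (node (nat_lit 4) (nat_lit 31616) (nat_lit 11) nil nil)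
  nil) (node (nat_lit 5) (nat_lit 41488) (nat_lit 9) nil nil)) nil) (node (nat_lit 0) (nat_lit
  43216) (nat_lit 7) nil nil)))) (node (nat_lit 5) (nat_lit 44645) (nat_lit 6) (node (nat_lit 7)
  (nat_lit 44645) (nat_lit 7) (node (nat_lit 5) (nat_lit 46122) (nat_lit 8) (node (nat_lit 4)
  (nat_lit 46122) (nat_lit 9) (node (nat_lit 7) (nat_lit 46122) (nat_lit 10) nil nil) nil) (node
  (nat_lit 4) (nat_lit 44645) (nat_lit 8) (node (nat_lit 5) (nat_lit 45347) (nat_lit 9) (node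
  (nat_lit 4) (nat_lit 45347) (nat_lit 10) nil nil) nil) nil)) nil) (node (nat_lit 7) (nat_lit 0)
  (nat_lit 6) (node (nat_lit 4) (nat_lit 28750) (nat_lit 7) (node (nat_lit 8) (nat_lit 28750)
  (nat_lit 8) (node (nat_lit 4) (nat_lit 28750) (nat_lit 9) (node (nat_lit 7) (nat_lit 32908)
  (nat_lit 10) (node (nat_lit 8) (nat_lit 35219) (nat_lit 11) (node (nat_lit 7) (nat_lit 36277)
  (nat_lit 12) (node (nat_lit 4) (nat_lit 33019) (nat_lit 13) nil nil) nil) nil) nil) nil) (node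
  (nat_lit 7) (nat_lit 28750) (nat_lit 8) nil (node (nat_lit 5) (nat_lit 27417) (nat_lit 8) nil
  nil))) (node (nat_lit 5) (nat_lit 44473) (nat_lit 7) nil (node (nat_lit 0) (nat_lit 42678)
  (nat_lit 7) nil nil))) (node (nat_lit 0) (nat_lit 44816) (nat_lit 6) (node (nat_lit 7) (nat_lit
  44816) (nat_lit 7) (node (nat_lit 4) (nat_lit 44816) (nat_lit 8) nil nil) nil) nil)))) (node
  (nat_lit 4) (nat_lit 0) (nat_lit 5) (node (nat_lit 0) (nat_lit 31014) (nat_lit 6) (node (nat_lit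
  4) (nat_lit 34442) (nat_lit 7) (node (nat_lit 7) (nat_lit 35464) (nat_lit 8) nil nil) (node
  (nat_lit 5) (nat_lit 34804) (nat_lit 7) (node (nat_lit 7) (nat_lit 37215) (nat_lit 8) (node
  (nat_lit 4) (nat_lit 38138) (nat_lit 9) nil nil) nil) (node (nat_lit 7) (nat_lit 34804) (nat_lit
  7) (node (nat_lit 4) (nat_lit 37215) (nat_lit 8) nil nil) nil))) (node (nat_lit 2) (nat_lit
  28430) (nat_lit 6) (node (nat_lit 4) (nat_lit 28515) (nat_lit 7) (node (nat_lit 7) (nat_lit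
  28468) (nat_lit 8) (node (nat_lit 9) (nat_lit 28468) (nat_lit 9) (node (nat_lit 7) (nat_lit
  29237) (nat_lit 10) nil nil) nil) (node (nat_lit 5) (nat_lit 36858) (nat_lit 8) nil nil)) (node
  (nat_lit 5) (nat_lit 34804) (nat_lit 7) (node (nat_lit 7) (nat_lit 37215) (nat_lit 8) (node
  (nat_lit 4) (nat_lit 38138) (nat_lit 9) nil nil) nil) (node (nat_lit 7) (nat_lit 28467) (nat_lit
  7) (node (nat_lit 4) (nat_lit 28467) (nat_lit 8) nil (node (nat_lit 5) (nat_lit 37215) (nat_lit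
  8) nil nil)) nil))) nil)) nil)))) (node (nat_lit 2) (nat_lit 0) (nat_lit 4) (node (nat_lit 4)
  (nat_lit 0) (nat_lit 5) (node (nat_lit 3) (nat_lit 28699) (nat_lit 6) (node (nat_lit 5) (nat_lit
  44057) (nat_lit 7) (node (nat_lit 4) (nat_lit 44057) (nat_lit 8) (node (nat_lit 5) (nat_lit
  44483) (nat_lit 9) (node (nat_lit 9) (nat_lit 44483) (nat_lit 10) (node (nat_lit 4) (nat_lit
  44483) (nat_lit 11) nil nil) nil) (node (nat_lit 9) (nat_lit 44057) (nat_lit 9) (node (nat_lit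
  4) (nat_lit 44057) (nat_lit 10) (node (nat_lit 5) (nat_lit 44739) (nat_lit 11) (node (nat_lit 4)
  (nat_lit 44739) (nat_lit 12) (node (nat_lit 7) (nat_lit 42290) (nat_lit 13) (node (nat_lit 4)
  (nat_lit 29353) (nat_lit 14) nil nil) nil) nil) nil) nil) (node (nat_lit 0) (nat_lit 44483)
  (nat_lit 9) nil nil))) (node (nat_lit 9) (nat_lit 44057) (nat_lit 8) (node (nat_lit 4) (nat_lit
  44057) (nat_lit 9) (node (nat_lit 5) (nat_lit 44627) (nat_lit 10) (node (nat_lit 4) (nat_lit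
  44627) (nat_lit 11) nil nil) nil) (node (nat_lit 7) (nat_lit 43767) (nat_lit 9) nil nil)) (node
  (nat_lit 0) (nat_lit 44300) (nat_lit 8) nil (node (nat_lit 7) (nat_lit 44057) (nat_lit 8) (node
  (nat_lit 9) (nat_lit 44057) (nat_lit 9) nil nil) nil)))) (node (nat_lit 4) (nat_lit 28725)
  (nat_lit 7) (node (nat_lit 7) (nat_lit 28725) (nat_lit 8) (node (nat_lit 9) (nat_lit 28725)
  (nat_lit 9) (node (nat_lit 7) (nat_lit 32688) (nat_lit 10) (node (nat_lit 4) (nat_lit 33652)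
  (nat_lit 11) (node (nat_lit 9) (nat_lit 33675) (nat_lit 12) (node (nat_lit 7) (nat_lit 33135)
  (nat_lit 13) (node (nat_lit 9) (nat_lit 33217) (nat_lit 14) (node (nat_lit 4) (nat_lit 33040)
  (nat_lit 15) nil nil) nil) (node (nat_lit 4) (nat_lit 31285) (nat_lit 13) (node (nat_lit 5)
  (nat_lit 31734) (nat_lit 14) (node (nat_lit 4) (nat_lit 29994) (nat_lit 15) nil nil) nil) nil))
  nil) nil) (node (nat_lit 4) (nat_lit 31833) (nat_lit 10) (node (nat_lit 5) (nat_lit 25877)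
  (nat_lit 11) (node (nat_lit 4) (nat_lit 20892) (nat_lit 12) nil nil) (node (nat_lit 9) (nat_lit
  31956) (nat_lit 11) nil nil)) (node (nat_lit 5) (nat_lit 35007) (nat_lit 10) nil (node (nat_lit
  0) (nat_lit 32076) (nat_lit 10) nil nil)))) (node (nat_lit 5) (nat_lit 34515) (nat_lit 9) nil
  (node (nat_lit 0) (nat_lit 34515) (nat_lit 9) nil (node (nat_lit 4) (nat_lit 28725) (nat_lit 9)
  nil nil)))) (node (nat_lit 5) (nat_lit 28997) (nat_lit 8) (node (nat_lit 7) (nat_lit 28997)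
  (nat_lit 9) (node (nat_lit 9) (nat_lit 28997) (nat_lit 10) nil nil) nil) (node (nat_lit 0)
  (nat_lit 33868) (nat_lit 8) nil nil))) (node (nat_lit 7) (nat_lit 28725) (nat_lit 7) (node
  (nat_lit 9) (nat_lit 28725) (nat_lit 8) (node (nat_lit 4) (nat_lit 28725) (nat_lit 9) (node
  (nat_lit 7) (nat_lit 31685) (nat_lit 10) (node (nat_lit 9) (nat_lit 32232) (nat_lit 11) (node
  (nat_lit 7) (nat_lit 32458) (nat_lit 12) (node (nat_lit 4) (nat_lit 32060) (nat_lit 13) (node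
  (nat_lit 9) (nat_lit 32058) (nat_lit 14) (node (nat_lit 7) (nat_lit 31797) (nat_lit 15) (node
  (nat_lit 9) (nat_lit 31836) (nat_lit 16) nil nil) nil) nil) nil) nil) nil) (node (nat_lit 5)
  (nat_lit 32163) (nat_lit 10) (node (nat_lit 4) (nat_lit 20786) (nat_lit 11) nil nil) (node
  (nat_lit 9) (nat_lit 28725) (nat_lit 10) (node (nat_lit 7) (nat_lit 27164) (nat_lit 11) nil nil)
  nil))) (node (nat_lit 5) (nat_lit 35889) (nat_lit 9) nil (node (nat_lit 0) (nat_lit 31933)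
  (nat_lit 9) nil nil))) (node (nat_lit 4) (nat_lit 28725) (nat_lit 8) (node (nat_lit 7) (nat_lit
  28725) (nat_lit 9) (node (nat_lit 9) (nat_lit 30307) (nat_lit 10) (node (nat_lit 4) (nat_lit
  31866) (nat_lit 11) nil (node (nat_lit 7) (nat_lit 31000) (nat_lit 11) nil nil)) (node (nat_lit
  5) (nat_lit 36205) (nat_lit 10) nil (node (nat_lit 0) (nat_lit 32076) (nat_lit 10) nil nil)))
  (node (nat_lit 5) (nat_lit 35889) (nat_lit 9) (node (nat_lit 9) (nat_lit 35889) (nat_lit 10) nil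
  nil) (node (nat_lit 0) (nat_lit 35889) (nat_lit 9) nil nil))) (node (nat_lit 5) (nat_lit 40775)
  (nat_lit 8) (node (nat_lit 9) (nat_lit 40775) (nat_lit 9) nil nil) (node (nat_lit 0) (nat_lit
  38663) (nat_lit 8) nil nil)))) (node (nat_lit 0) (nat_lit 40724) (nat_lit 7) (node (nat_lit 9)
  (nat_lit 40724) (nat_lit 8) (node (nat_lit 4) (nat_lit 40724) (nat_lit 9) nil nil) nil) nil))))
  (node (nat_lit 5) (nat_lit 43203) (nat_lit 6) (node (nat_lit 7) (nat_lit 43762) (nat_lit 7)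
  (node (nat_lit 4) (nat_lit 45563) (nat_lit 8) (node (nat_lit 7) (nat_lit 45953) (nat_lit 9)
  (node (nat_lit 5) (nat_lit 47490) (nat_lit 10) nil nil) (node (nat_lit 3) (nat_lit 45006)
  (nat_lit 9) (node (nat_lit 4) (nat_lit 43727) (nat_lit 10) (node (nat_lit 5) (nat_lit 37054)
  (nat_lit 11) (node (nat_lit 4) (nat_lit 37054) (nat_lit 12) (node (nat_lit 7) (nat_lit 36517)
  (nat_lit 13) nil nil) nil) nil) nil) (node (nat_lit 0) (nat_lit 46265) (nat_lit 9) nil nil)))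
  (node (nat_lit 5) (nat_lit 47397) (nat_lit 8) (node (nat_lit 4) (nat_lit 47459) (nat_lit 9) nil
  nil) (node (nat_lit 3) (nat_lit 45166) (nat_lit 8) (node (nat_lit 4) (nat_lit 45166) (nat_lit 9)
  nil nil) (node (nat_lit 0) (nat_lit 46944) (nat_lit 8) nil nil)))) (node (nat_lit 3) (nat_lit
  45066) (nat_lit 7) (node (nat_lit 4) (nat_lit 45066) (nat_lit 8) (node (nat_lit 5) (nat_lit
  45768) (nat_lit 9) (node (nat_lit 4) (nat_lit 45768) (nat_lit 10) nil nil) nil) (node (nat_lit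
  5) (nat_lit 46355) (nat_lit 8) nil (node (nat_lit 0) (nat_lit 45623) (nat_lit 8) nil nil)))
  (node (nat_lit 0) (nat_lit 46294) (nat_lit 7) nil (node (nat_lit 4) (nat_lit 43762) (nat_lit 7)
  nil nil)))) (node (nat_lit 0) (nat_lit 44679) (nat_lit 6) (node (nat_lit 7) (nat_lit 43807)
  (nat_lit 7) (node (nat_lit 4) (nat_lit 41902) (nat_lit 8) nil nil) (node (nat_lit 4) (nat_lit
  44679) (nat_lit 7) nil (node (nat_lit 3) (nat_lit 44679) (nat_lit 7) nil (node (nat_lit 5)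
  (nat_lit 45001) (nat_lit 7) nil nil)))) nil))) (node (nat_lit 5) (nat_lit 0) (nat_lit 5) (node
  (nat_lit 7) (nat_lit 41339) (nat_lit 6) (node (nat_lit 4) (nat_lit 43036) (nat_lit 7) (node
  (nat_lit 7) (nat_lit 43691) (nat_lit 8) (node (nat_lit 5) (nat_lit 45987) (nat_lit 9) (node
  (nat_lit 4) (nat_lit 46211) (nat_lit 10) nil nil) nil) (node (nat_lit 5) (nat_lit 47042)
  (nat_lit 8) (node (nat_lit 4) (nat_lit 47320) (nat_lit 9) nil nil) (node (nat_lit 3) (nat_lit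
  43336) (nat_lit 8) (node (nat_lit 4) (nat_lit 42951) (nat_lit 9) nil nil) nil))) (node (nat_lit
  3) (nat_lit 43024) (nat_lit 7) nil (node (nat_lit 0) (nat_lit 45912) (nat_lit 7) nil nil)))
  (node (nat_lit 4) (nat_lit 41339) (nat_lit 6) (node (nat_lit 5) (nat_lit 44806) (nat_lit 7)
  (node (nat_lit 7) (nat_lit 45850) (nat_lit 8) (node (nat_lit 4) (nat_lit 46385) (nat_lit 9)
  (node (nat_lit 7) (nat_lit 46385) (nat_lit 10) (node (nat_lit 5) (nat_lit 46962) (nat_lit 11)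
  nil nil) nil) nil) (node (nat_lit 3) (nat_lit 46497) (nat_lit 8) nil nil)) (node (nat_lit 3)
  (nat_lit 43258) (nat_lit 7) nil nil)) (node (nat_lit 3) (nat_lit 42759) (nat_lit 6) (node
  (nat_lit 4) (nat_lit 42874) (nat_lit 7) (node (nat_lit 5) (nat_lit 45313) (nat_lit 8) (node
  (nat_lit 4) (nat_lit 45313) (nat_lit 9) nil nil) nil) (node (nat_lit 5) (nat_lit 46607) (nat_lit
  7) (node (nat_lit 4) (nat_lit 46607) (nat_lit 8) (node (nat_lit 5) (nat_lit 46815) (nat_lit 9)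
  (node (nat_lit 9) (nat_lit 46815) (nat_lit 10) (node (nat_lit 4) (nat_lit 46815) (nat_lit 11)
  nil nil) nil) (node (nat_lit 9) (nat_lit 46607) (nat_lit 9) (node (nat_lit 4) (nat_lit 46607)
  (nat_lit 10) (node (nat_lit 5) (nat_lit 46928) (nat_lit 11) nil nil) nil) nil)) nil) (node
  (nat_lit 7) (nat_lit 43565) (nat_lit 7) (node (nat_lit 4) (nat_lit 43914) (nat_lit 8) nil (node
  (nat_lit 9) (nat_lit 43998) (nat_lit 8) (node (nat_lit 4) (nat_lit 43998) (nat_lit 9) (node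
  (nat_lit 5) (nat_lit 44648) (nat_lit 10) nil nil) nil) nil)) nil))) (node (nat_lit 0) (nat_lit
  44897) (nat_lit 6) nil nil)))) (node (nat_lit 3) (nat_lit 0) (nat_lit 5) (node (nat_lit 4)
  (nat_lit 0) (nat_lit 6) (node (nat_lit 8) (nat_lit 28788) (nat_lit 7) (node (nat_lit 7) (nat_lit
  28788) (nat_lit 8) (node (nat_lit 4) (nat_lit 28772) (nat_lit 9) (node (nat_lit 7) (nat_lit
  32849) (nat_lit 10) (node (nat_lit 8) (nat_lit 34958) (nat_lit 11) (node (nat_lit 4) (nat_lit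
  34343) (nat_lit 12) nil nil) nil) (node (nat_lit 8) (nat_lit 32671) (nat_lit 10) nil nil)) (node
  (nat_lit 8) (nat_lit 28788) (nat_lit 9) (node (nat_lit 4) (nat_lit 31862) (nat_lit 10) nil nil)
  nil)) (node (nat_lit 5) (nat_lit 37013) (nat_lit 8) nil nil)) (node (nat_lit 5) (nat_lit 20007)
  (nat_lit 7) (node (nat_lit 8) (nat_lit 20007) (nat_lit 8) nil (node (nat_lit 7) (nat_lit 20007)
  (nat_lit 8) nil nil)) (node (nat_lit 7) (nat_lit 28769) (nat_lit 7) (node (nat_lit 4) (nat_lit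
  28769) (nat_lit 8) (node (nat_lit 8) (nat_lit 28767) (nat_lit 9) (node (nat_lit 4) (nat_lit
  32829) (nat_lit 10) nil (node (nat_lit 7) (nat_lit 32972) (nat_lit 10) nil nil)) nil) (node
  (nat_lit 5) (nat_lit 35448) (nat_lit 8) nil (node (nat_lit 0) (nat_lit 36100) (nat_lit 8) nil
  nil))) (node (nat_lit 0) (nat_lit 35538) (nat_lit 7) nil nil)))) (node (nat_lit 7) (nat_lit
  28762) (nat_lit 6) (node (nat_lit 4) (nat_lit 28764) (nat_lit 7) (node (nat_lit 7) (nat_lit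
  28764) (nat_lit 8) (node (nat_lit 8) (nat_lit 28771) (nat_lit 9) (node (nat_lit 4) (nat_lit
  33459) (nat_lit 10) (node (nat_lit 5) (nat_lit 32388) (nat_lit 11) (node (nat_lit 4) (nat_lit
  29100) (nat_lit 12) (node (nat_lit 7) (nat_lit 17959) (nat_lit 13) nil nil) nil) (node (nat_lit
  8) (nat_lit 35193) (nat_lit 11) (node (nat_lit 7) (nat_lit 34007) (nat_lit 12) nil nil) (node
  (nat_lit 7) (nat_lit 34485) (nat_lit 11) (node (nat_lit 4) (nat_lit 33299) (nat_lit 12) (node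
  (nat_lit 8) (nat_lit 33396) (nat_lit 13) nil nil) nil) nil))) (node (nat_lit 0) (nat_lit 36251)
  (nat_lit 10) nil (node (nat_lit 5) (nat_lit 38469) (nat_lit 10) nil nil))) nil) nil) (node
  (nat_lit 5) (nat_lit 45562) (nat_lit 7) nil nil)) (node (nat_lit 5) (nat_lit 44899) (nat_lit 6)
  (node (nat_lit 4) (nat_lit 44361) (nat_lit 7) nil (node (nat_lit 7) (nat_lit 44827) (nat_lit 7)
  nil (node (nat_lit 8) (nat_lit 44899) (nat_lit 7) (node (nat_lit 4) (nat_lit 44899) (nat_lit 8)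
  nil nil) nil))) (node (nat_lit 0) (nat_lit 45115) (nat_lit 6) (node (nat_lit 8) (nat_lit 45115)
  (nat_lit 7) (node (nat_lit 4) (nat_lit 45115) (nat_lit 8) nil nil) nil) nil)))) (node (nat_lit
  0) (nat_lit 42224) (nat_lit 5) (node (nat_lit 4) (nat_lit 42368) (nat_lit 6) (node (nat_lit 7)
  (nat_lit 42235) (nat_lit 7) (node (nat_lit 4) (nat_lit 42235) (nat_lit 8) nil nil) nil) (node
  (nat_lit 7) (nat_lit 42457) (nat_lit 6) (node (nat_lit 4) (nat_lit 42453) (nat_lit 7) nil nil)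
  (node (nat_lit 5) (nat_lit 45032) (nat_lit 6) nil (node (nat_lit 3) (nat_lit 42234) (nat_lit 6)
  (node (nat_lit 4) (nat_lit 42234) (nat_lit 7) (node (nat_lit 5) (nat_lit 43444) (nat_lit 8) nil
  nil) nil) nil)))) nil)))) nil))

noncomputable def t108 : Tr :=
  (node (nat_lit 3) (nat_lit 0) (nat_lit 4) (node (nat_lit 6) (nat_lit 0) (nat_lit 5) (node
  (nat_lit 5) (nat_lit 82028) (nat_lit 6) (node (nat_lit 7) (nat_lit 87089) (nat_lit 7) (node
  (nat_lit 5) (nat_lit 90522) (nat_lit 8) (node (nat_lit 6) (nat_lit 98976) (nat_lit 9) (node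
  (nat_lit 7) (nat_lit 103771) (nat_lit 10) (node (nat_lit 5) (nat_lit 106496) (nat_lit 11) (node
  (nat_lit 7) (nat_lit 107662) (nat_lit 12) (node (nat_lit 6) (nat_lit 107796) (nat_lit 13) (node
  (nat_lit 7) (nat_lit 108563) (nat_lit 14) (node (nat_lit 4) (nat_lit 107905) (nat_lit 15) (node
  (nat_lit 5) (nat_lit 105940) (nat_lit 16) (node (nat_lit 6) (nat_lit 104344) (nat_lit 17) nil
  nil) nil) (node (nat_lit 5) (nat_lit 107738) (nat_lit 15) (node (nat_lit 4) (nat_lit 107086)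
  (nat_lit 16) nil nil) nil)) (node (nat_lit 5) (nat_lit 107641) (nat_lit 14) nil nil)) (node
  (nat_lit 4) (nat_lit 108402) (nat_lit 13) (node (nat_lit 5) (nat_lit 108977) (nat_lit 14) nil
  nil) nil)) (node (nat_lit 4) (nat_lit 108682) (nat_lit 12) (node (nat_lit 5) (nat_lit 106545)
  (nat_lit 13) (node (nat_lit 6) (nat_lit 104228) (nat_lit 14) (node (nat_lit 7) (nat_lit 102944)
  (nat_lit 15) (node (nat_lit 6) (nat_lit 90086) (nat_lit 16) nil nil) nil) nil) (node (nat_lit 7)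
  (nat_lit 107414) (nat_lit 13) nil nil)) (node (nat_lit 0) (nat_lit 107406) (nat_lit 12) (node
  (nat_lit 5) (nat_lit 108146) (nat_lit 13) nil nil) nil))) (node (nat_lit 6) (nat_lit 106188)
  (nat_lit 11) (node (nat_lit 4) (nat_lit 109686) (nat_lit 12) (node (nat_lit 7) (nat_lit 110187)
  (nat_lit 13) (node (nat_lit 4) (nat_lit 108099) (nat_lit 14) nil nil) nil) (node (nat_lit 0)
  (nat_lit 109686) (nat_lit 12) (node (nat_lit 7) (nat_lit 109346) (nat_lit 13) nil (node (nat_lit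
  5) (nat_lit 110426) (nat_lit 13) nil nil)) (node (nat_lit 5) (nat_lit 104639) (nat_lit 12) nil
  nil))) (node (nat_lit 4) (nat_lit 107835) (nat_lit 11) (node (nat_lit 5) (nat_lit 108633)
  (nat_lit 12) (node (nat_lit 6) (nat_lit 106672) (nat_lit 13) (node (nat_lit 7) (nat_lit 94834)
  (nat_lit 14) nil nil) nil) nil) (node (nat_lit 0) (nat_lit 108130) (nat_lit 11) (node (nat_lit
  7) (nat_lit 107649) (nat_lit 12) nil (node (nat_lit 6) (nat_lit 108827) (nat_lit 12) nil (node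
  (nat_lit 5) (nat_lit 109040) (nat_lit 12) nil nil))) nil)))) (node (nat_lit 5) (nat_lit 101880)
  (nat_lit 10) nil (node (nat_lit 4) (nat_lit 102425) (nat_lit 10) nil nil))) (node (nat_lit 4)
  (nat_lit 101196) (nat_lit 9) (node (nat_lit 5) (nat_lit 96826) (nat_lit 10) (node (nat_lit 6)
  (nat_lit 92151) (nat_lit 11) (node (nat_lit 7) (nat_lit 81449) (nat_lit 12) (node (nat_lit 6)
  (nat_lit 72420) (nat_lit 13) (node (nat_lit 5) (nat_lit 51191) (nat_lit 14) nil nil) nil) nil)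
  nil) nil) (node (nat_lit 0) (nat_lit 99944) (nat_lit 9) (node (nat_lit 5) (nat_lit 101085)
  (nat_lit 10) nil nil) nil))) (node (nat_lit 4) (nat_lit 104723) (nat_lit 8) (node (nat_lit 5)
  (nat_lit 106224) (nat_lit 9) (node (nat_lit 6) (nat_lit 102780) (nat_lit 10) (node (nat_lit 7)
  (nat_lit 101457) (nat_lit 11) nil nil) nil) nil) (node (nat_lit 6) (nat_lit 90398) (nat_lit 8)
  (node (nat_lit 7) (nat_lit 97556) (nat_lit 9) nil nil) (node (nat_lit 0) (nat_lit 101978)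
  (nat_lit 8) (node (nat_lit 5) (nat_lit 103479) (nat_lit 9) nil (node (nat_lit 7) (nat_lit
  100840) (nat_lit 9) nil nil)) nil)))) (node (nat_lit 6) (nat_lit 87089) (nat_lit 7) (node
  (nat_lit 7) (nat_lit 90526) (nat_lit 8) (node (nat_lit 5) (nat_lit 98487) (nat_lit 9) (node
  (nat_lit 6) (nat_lit 97503) (nat_lit 10) nil (node (nat_lit 4) (nat_lit 101722) (nat_lit 10)
  (node (nat_lit 5) (nat_lit 93863) (nat_lit 11) nil nil) nil)) (node (nat_lit 4) (nat_lit 102503)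
  (nat_lit 9) (node (nat_lit 5) (nat_lit 92806) (nat_lit 10) (node (nat_lit 6) (nat_lit 86572)
  (nat_lit 11) (node (nat_lit 7) (nat_lit 81284) (nat_lit 12) (node (nat_lit 6) (nat_lit 46815)
  (nat_lit 13) nil nil) nil) nil) nil) (node (nat_lit 0) (nat_lit 92027) (nat_lit 9) nil nil)))
  (node (nat_lit 4) (nat_lit 104223) (nat_lit 8) (node (nat_lit 7) (nat_lit 104898) (nat_lit 9)
  (node (nat_lit 5) (nat_lit 104326) (nat_lit 10) (node (nat_lit 6) (nat_lit 101590) (nat_lit 11)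
  nil nil) nil) nil) (node (nat_lit 0) (nat_lit 101978) (nat_lit 8) (node (nat_lit 5) (nat_lit
  103479) (nat_lit 9) nil (node (nat_lit 7) (nat_lit 100840) (nat_lit 9) nil nil)) nil))) (node
  (nat_lit 4) (nat_lit 94461) (nat_lit 7) (node (nat_lit 5) (nat_lit 85841) (nat_lit 8) (node
  (nat_lit 6) (nat_lit 78708) (nat_lit 9) (node (nat_lit 7) (nat_lit 50919) (nat_lit 10) nil (node
  (nat_lit 5) (nat_lit 79849) (nat_lit 10) nil nil)) nil) (node (nat_lit 7) (nat_lit 95660)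
  (nat_lit 8) nil (node (nat_lit 6) (nat_lit 97475) (nat_lit 8) nil nil))) (node (nat_lit 0)
  (nat_lit 100831) (nat_lit 7) (node (nat_lit 5) (nat_lit 103002) (nat_lit 8) nil nil) nil))))
  (node (nat_lit 4) (nat_lit 103936) (nat_lit 6) (node (nat_lit 7) (nat_lit 108997) (nat_lit 7)
  (node (nat_lit 4) (nat_lit 107016) (nat_lit 8) (node (nat_lit 5) (nat_lit 99905) (nat_lit 9)
  (node (nat_lit 6) (nat_lit 90086) (nat_lit 10) (node (nat_lit 7) (nat_lit 63761) (nat_lit 11)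
  (node (nat_lit 6) (nat_lit 54080) (nat_lit 12) nil nil) nil) nil) (node (nat_lit 6) (nat_lit
  103894) (nat_lit 9) (node (nat_lit 4) (nat_lit 102951) (nat_lit 10) (node (nat_lit 7) (nat_lit
  101856) (nat_lit 11) nil nil) nil) nil)) (node (nat_lit 5) (nat_lit 111167) (nat_lit 8) (node
  (nat_lit 4) (nat_lit 107680) (nat_lit 9) nil nil) nil)) (node (nat_lit 5) (nat_lit 108435)
  (nat_lit 7) nil nil)) (node (nat_lit 0) (nat_lit 101074) (nat_lit 6) (node (nat_lit 5) (nat_lit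
  104372) (nat_lit 7) nil (node (nat_lit 7) (nat_lit 103283) (nat_lit 7) nil nil)) nil))) (node
  (nat_lit 5) (nat_lit 0) (nat_lit 5) (node (nat_lit 6) (nat_lit 0) (nat_lit 6) (node (nat_lit 5)
  (nat_lit 87100) (nat_lit 7) (node (nat_lit 7) (nat_lit 90533) (nat_lit 8) (node (nat_lit 5)
  (nat_lit 98063) (nat_lit 9) (node (nat_lit 4) (nat_lit 102681) (nat_lit 10) (node (nat_lit 5)
  (nat_lit 99308) (nat_lit 11) (node (nat_lit 6) (nat_lit 97244) (nat_lit 12) (node (nat_lit 7)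
  (nat_lit 93085) (nat_lit 13) (node (nat_lit 5) (nat_lit 83972) (nat_lit 14) (node (nat_lit 6)
  (nat_lit 58061) (nat_lit 15) nil nil) nil) nil) nil) (node (nat_lit 6) (nat_lit 103387) (nat_lit
  11) (node (nat_lit 7) (nat_lit 100447) (nat_lit 12) nil nil) (node (nat_lit 7) (nat_lit 103249)
  (nat_lit 11) nil nil))) (node (nat_lit 6) (nat_lit 102185) (nat_lit 10) (node (nat_lit 7)
  (nat_lit 105118) (nat_lit 11) (node (nat_lit 6) (nat_lit 105220) (nat_lit 12) (node (nat_lit 5)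
  (nat_lit 103953) (nat_lit 13) nil nil) (node (nat_lit 5) (nat_lit 103569) (nat_lit 12) nil nil))
  nil) (node (nat_lit 0) (nat_lit 105521) (nat_lit 10) (node (nat_lit 7) (nat_lit 104792) (nat_lit
  11) (node (nat_lit 5) (nat_lit 104978) (nat_lit 12) nil nil) (node (nat_lit 5) (nat_lit 106527)
  (nat_lit 11) nil nil)) nil))) (node (nat_lit 6) (nat_lit 98331) (nat_lit 9) (node (nat_lit 7)
  (nat_lit 102110) (nat_lit 10) (node (nat_lit 5) (nat_lit 99648) (nat_lit 11) (node (nat_lit 6)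
  (nat_lit 97557) (nat_lit 12) nil nil) nil) (node (nat_lit 5) (nat_lit 98879) (nat_lit 10) nil
  (node (nat_lit 4) (nat_lit 100603) (nat_lit 10) nil nil))) (node (nat_lit 4) (nat_lit 104244)
  (nat_lit 9) (node (nat_lit 5) (nat_lit 105386) (nat_lit 10) (node (nat_lit 6) (nat_lit 102649)
  (nat_lit 11) (node (nat_lit 7) (nat_lit 101717) (nat_lit 12) (node (nat_lit 5) (nat_lit 101840)
  (nat_lit 13) nil nil) nil) nil) nil) (node (nat_lit 0) (nat_lit 102701) (nat_lit 9) nil nil))))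
  (node (nat_lit 4) (nat_lit 99430) (nat_lit 8) (node (nat_lit 5) (nat_lit 95316) (nat_lit 9)
  (node (nat_lit 6) (nat_lit 75116) (nat_lit 10) (node (nat_lit 7) (nat_lit 51688) (nat_lit 11)
  nil nil) nil) (node (nat_lit 7) (nat_lit 97878) (nat_lit 9) nil nil)) (node (nat_lit 0) (nat_lit
  103466) (nat_lit 8) nil nil))) (node (nat_lit 4) (nat_lit 103572) (nat_lit 7) (node (nat_lit 7)
  (nat_lit 107006) (nat_lit 8) (node (nat_lit 4) (nat_lit 106142) (nat_lit 9) (node (nat_lit 5)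
  (nat_lit 101494) (nat_lit 10) (node (nat_lit 6) (nat_lit 94410) (nat_lit 11) (node (nat_lit 7)
  (nat_lit 69590) (nat_lit 12) (node (nat_lit 5) (nat_lit 49927) (nat_lit 13) nil nil) nil) nil)
  nil) (node (nat_lit 5) (nat_lit 106064) (nat_lit 9) (node (nat_lit 4) (nat_lit 108119) (nat_lit
  10) nil nil) nil)) (node (nat_lit 5) (nat_lit 103118) (nat_lit 8) nil nil)) (node (nat_lit 0)
  (nat_lit 102689) (nat_lit 7) nil nil))) (node (nat_lit 7) (nat_lit 82052) (nat_lit 6) (node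
  (nat_lit 6) (nat_lit 87113) (nat_lit 7) (node (nat_lit 5) (nat_lit 90536) (nat_lit 8) (node
  (nat_lit 7) (nat_lit 98056) (nat_lit 9) (node (nat_lit 5) (nat_lit 99329) (nat_lit 10) (node
  (nat_lit 6) (nat_lit 96757) (nat_lit 11) (node (nat_lit 7) (nat_lit 97224) (nat_lit 12) (node
  (nat_lit 5) (nat_lit 95956) (nat_lit 13) nil nil) nil) nil) nil) (node (nat_lit 4) (nat_lit
  98961) (nat_lit 9) nil (node (nat_lit 6) (nat_lit 99289) (nat_lit 9) nil nil))) (node (nat_lit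
  7) (nat_lit 89060) (nat_lit 8) (node (nat_lit 4) (nat_lit 105979) (nat_lit 9) nil nil) (node
  (nat_lit 4) (nat_lit 106457) (nat_lit 8) nil (node (nat_lit 0) (nat_lit 104248) (nat_lit 8) nil
  nil)))) (node (nat_lit 4) (nat_lit 103630) (nat_lit 7) (node (nat_lit 5) (nat_lit 106940)
  (nat_lit 8) (node (nat_lit 6) (nat_lit 105375) (nat_lit 9) (node (nat_lit 7) (nat_lit 100480)
  (nat_lit 10) (node (nat_lit 5) (nat_lit 49939) (nat_lit 11) nil nil) nil) nil) nil) (node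
  (nat_lit 0) (nat_lit 103488) (nat_lit 7) nil nil))) (node (nat_lit 4) (nat_lit 90089) (nat_lit
  6) (node (nat_lit 5) (nat_lit 84835) (nat_lit 7) (node (nat_lit 6) (nat_lit 53470) (nat_lit 8)
  nil (node (nat_lit 7) (nat_lit 88835) (nat_lit 8) nil nil)) (node (nat_lit 7) (nat_lit 94688)
  (nat_lit 7) (node (nat_lit 4) (nat_lit 99593) (nat_lit 8) (node (nat_lit 5) (nat_lit 96662)
  (nat_lit 9) nil nil) nil) (node (nat_lit 6) (nat_lit 94948) (nat_lit 7) (node (nat_lit 5)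
  (nat_lit 97566) (nat_lit 8) nil nil) nil))) (node (nat_lit 0) (nat_lit 100252) (nat_lit 6) (node
  (nat_lit 5) (nat_lit 105982) (nat_lit 7) nil nil) nil)))) (node (nat_lit 4) (nat_lit 0) (nat_lit
  5) (node (nat_lit 5) (nat_lit 67499) (nat_lit 6) (node (nat_lit 4) (nat_lit 68966) (nat_lit 7)
  (node (nat_lit 7) (nat_lit 69932) (nat_lit 8) (node (nat_lit 5) (nat_lit 70600) (nat_lit 9) nil
  nil) nil) (node (nat_lit 6) (nat_lit 55370) (nat_lit 7) nil nil)) (node (nat_lit 6) (nat_lit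
  86757) (nat_lit 6) (node (nat_lit 4) (nat_lit 90958) (nat_lit 7) (node (nat_lit 7) (nat_lit
  93773) (nat_lit 8) (node (nat_lit 4) (nat_lit 93416) (nat_lit 9) (node (nat_lit 5) (nat_lit
  94644) (nat_lit 10) (node (nat_lit 6) (nat_lit 73814) (nat_lit 11) (node (nat_lit 7) (nat_lit
  59078) (nat_lit 12) (node (nat_lit 4) (nat_lit 59407) (nat_lit 13) nil nil) (node (nat_lit 5)
  (nat_lit 74000) (nat_lit 12) nil nil)) nil) nil) nil) nil) (node (nat_lit 5) (nat_lit 90958)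
  (nat_lit 7) (node (nat_lit 7) (nat_lit 92876) (nat_lit 8) (node (nat_lit 5) (nat_lit 94376)
  (nat_lit 9) (node (nat_lit 4) (nat_lit 86051) (nat_lit 10) nil nil) nil) (node (nat_lit 4)
  (nat_lit 93773) (nat_lit 8) nil nil)) (node (nat_lit 7) (nat_lit 90958) (nat_lit 7) (node
  (nat_lit 6) (nat_lit 93773) (nat_lit 8) (node (nat_lit 4) (nat_lit 95791) (nat_lit 9) nil nil)
  (node (nat_lit 5) (nat_lit 93773) (nat_lit 8) nil nil)) (node (nat_lit 0) (nat_lit 90958)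
  (nat_lit 7) nil nil)))) (node (nat_lit 7) (nat_lit 86757) (nat_lit 6) (node (nat_lit 5) (nat_lit
  90958) (nat_lit 7) (node (nat_lit 4) (nat_lit 93773) (nat_lit 8) (node (nat_lit 5) (nat_lit
  91643) (nat_lit 9) (node (nat_lit 6) (nat_lit 76535) (nat_lit 10) (node (nat_lit 7) (nat_lit
  71342) (nat_lit 11) (node (nat_lit 4) (nat_lit 22458) (nat_lit 12) nil nil) nil) nil) nil) (node
  (nat_lit 6) (nat_lit 92876) (nat_lit 8) (node (nat_lit 7) (nat_lit 91588) (nat_lit 9) nil nil)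
  (node (nat_lit 7) (nat_lit 93773) (nat_lit 8) nil nil))) (node (nat_lit 6) (nat_lit 90958)
  (nat_lit 7) (node (nat_lit 5) (nat_lit 93773) (nat_lit 8) nil nil) nil)) (node (nat_lit 0)
  (nat_lit 86757) (nat_lit 6) (node (nat_lit 7) (nat_lit 90958) (nat_lit 7) nil (node (nat_lit 5)
  (nat_lit 90958) (nat_lit 7) nil nil)) nil)))) (node (nat_lit 0) (nat_lit 96603) (nat_lit 5)
  (node (nat_lit 5) (nat_lit 103097) (nat_lit 6) nil (node (nat_lit 7) (nat_lit 103795) (nat_lit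
  6) (node (nat_lit 4) (nat_lit 109197) (nat_lit 7) nil nil) (node (nat_lit 4) (nat_lit 104880)
  (nat_lit 6) nil (node (nat_lit 6) (nat_lit 103795) (nat_lit 6) nil nil)))) nil)))) (node
  (nat_lit 4) (nat_lit 0) (nat_lit 4) (node (nat_lit 6) (nat_lit 0) (nat_lit 5) (node (nat_lit 5)
  (nat_lit 90884) (nat_lit 6) (node (nat_lit 4) (nat_lit 101220) (nat_lit 7) (node (nat_lit 5)
  (nat_lit 105659) (nat_lit 8) (node (nat_lit 6) (nat_lit 103163) (nat_lit 9) (node (nat_lit 4)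
  (nat_lit 65961) (nat_lit 10) (node (nat_lit 5) (nat_lit 65961) (nat_lit 11) (node (nat_lit 4)
  (nat_lit 65961) (nat_lit 12) (node (nat_lit 6) (nat_lit 65961) (nat_lit 13) (node (nat_lit 4)
  (nat_lit 65961) (nat_lit 14) (node (nat_lit 5) (nat_lit 65961) (nat_lit 15) nil nil) (node
  (nat_lit 5) (nat_lit 65961) (nat_lit 14) nil nil)) (node (nat_lit 3) (nat_lit 65961) (nat_lit
  13) nil nil)) (node (nat_lit 3) (nat_lit 65961) (nat_lit 12) (node (nat_lit 5) (nat_lit 65961)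
  (nat_lit 13) (node (nat_lit 4) (nat_lit 65961) (nat_lit 14) nil nil) (node (nat_lit 4) (nat_lit
  65961) (nat_lit 13) nil nil)) (node (nat_lit 0) (nat_lit 65961) (nat_lit 12) nil nil))) (node
  (nat_lit 6) (nat_lit 43645) (nat_lit 11) (node (nat_lit 3) (nat_lit 43645) (nat_lit 12) (node
  (nat_lit 4) (nat_lit 43645) (nat_lit 13) nil nil) nil) (node (nat_lit 3) (nat_lit 65961)
  (nat_lit 11) (node (nat_lit 5) (nat_lit 65961) (nat_lit 12) (node (nat_lit 4) (nat_lit 65961)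
  (nat_lit 13) nil nil) (node (nat_lit 4) (nat_lit 65961) (nat_lit 12) (node (nat_lit 5) (nat_lit
  65961) (nat_lit 13) (node (nat_lit 6) (nat_lit 65961) (nat_lit 14) nil nil) nil) (node (nat_lit
  6) (nat_lit 65961) (nat_lit 12) nil nil))) (node (nat_lit 0) (nat_lit 65961) (nat_lit 11) (node
  (nat_lit 6) (nat_lit 65961) (nat_lit 12) nil (node (nat_lit 5) (nat_lit 65961) (nat_lit 12) nil
  nil)) nil)))) (node (nat_lit 5) (nat_lit 105513) (nat_lit 10) (node (nat_lit 4) (nat_lit 106062)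
  (nat_lit 11) nil nil) nil)) (node (nat_lit 3) (nat_lit 113089) (nat_lit 9) (node (nat_lit 4)
  (nat_lit 114867) (nat_lit 10) (node (nat_lit 5) (nat_lit 116318) (nat_lit 11) (node (nat_lit 6)
  (nat_lit 114487) (nat_lit 12) (node (nat_lit 4) (nat_lit 114193) (nat_lit 13) (node (nat_lit 6)
  (nat_lit 113151) (nat_lit 14) (node (nat_lit 5) (nat_lit 113417) (nat_lit 15) nil nil) nil) nil)
  nil) nil) nil) nil)) (node (nat_lit 3) (nat_lit 116612) (nat_lit 8) nil (node (nat_lit 6)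
  (nat_lit 111938) (nat_lit 8) (node (nat_lit 4) (nat_lit 117470) (nat_lit 9) nil nil) (node
  (nat_lit 0) (nat_lit 118848) (nat_lit 8) nil nil)))) (node (nat_lit 6) (nat_lit 97415) (nat_lit
  7) (node (nat_lit 4) (nat_lit 110043) (nat_lit 8) (node (nat_lit 5) (nat_lit 112385) (nat_lit 9)
  nil (node (nat_lit 3) (nat_lit 111022) (nat_lit 9) nil nil)) (node (nat_lit 3) (nat_lit 110692)
  (nat_lit 8) (node (nat_lit 4) (nat_lit 108648) (nat_lit 9) (node (nat_lit 5) (nat_lit 95385)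
  (nat_lit 10) (node (nat_lit 6) (nat_lit 73273) (nat_lit 11) (node (nat_lit 4) (nat_lit 61860)
  (nat_lit 12) (node (nat_lit 6) (nat_lit 52067) (nat_lit 13) (node (nat_lit 5) (nat_lit 51947)
  (nat_lit 14) nil nil) nil) nil) nil) nil) nil) (node (nat_lit 0) (nat_lit 106932) (nat_lit 8)
  (node (nat_lit 5) (nat_lit 108448) (nat_lit 9) nil nil) nil))) (node (nat_lit 3) (nat_lit
  112393) (nat_lit 7) (node (nat_lit 5) (nat_lit 115655) (nat_lit 8) nil (node (nat_lit 4)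
  (nat_lit 118052) (nat_lit 8) (node (nat_lit 5) (nat_lit 119567) (nat_lit 9) nil nil) nil)) (node
  (nat_lit 0) (nat_lit 115830) (nat_lit 7) nil nil)))) (node (nat_lit 3) (nat_lit 106063) (nat_lit
  6) (node (nat_lit 4) (nat_lit 110860) (nat_lit 7) (node (nat_lit 9) (nat_lit 110860) (nat_lit 8)
  nil (node (nat_lit 5) (nat_lit 102436) (nat_lit 8) (node (nat_lit 6) (nat_lit 88562) (nat_lit 9)
  (node (nat_lit 4) (nat_lit 57664) (nat_lit 10) nil nil) nil) nil)) (node (nat_lit 5) (nat_lit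
  111172) (nat_lit 7) nil nil)) (node (nat_lit 0) (nat_lit 110789) (nat_lit 6) (node (nat_lit 5)
  (nat_lit 114985) (nat_lit 7) nil nil) nil))) (node (nat_lit 3) (nat_lit 0) (nat_lit 5) (node
  (nat_lit 5) (nat_lit 102558) (nat_lit 6) (node (nat_lit 4) (nat_lit 109007) (nat_lit 7) (node
  (nat_lit 5) (nat_lit 93940) (nat_lit 8) (node (nat_lit 6) (nat_lit 81742) (nat_lit 9) (node
  (nat_lit 4) (nat_lit 61265) (nat_lit 10) nil nil) nil) nil) (node (nat_lit 8) (nat_lit 108991)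
  (nat_lit 7) (node (nat_lit 4) (nat_lit 111162) (nat_lit 8) (node (nat_lit 5) (nat_lit 112663)
  (nat_lit 9) nil nil) (node (nat_lit 6) (nat_lit 103870) (nat_lit 8) nil nil)) nil)) (node
  (nat_lit 6) (nat_lit 103357) (nat_lit 6) (node (nat_lit 8) (nat_lit 110156) (nat_lit 7) (node
  (nat_lit 4) (nat_lit 110795) (nat_lit 8) (node (nat_lit 8) (nat_lit 110495) (nat_lit 9) nil
  (node (nat_lit 5) (nat_lit 103202) (nat_lit 9) (node (nat_lit 6) (nat_lit 90523) (nat_lit 10)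
  (node (nat_lit 4) (nat_lit 78881) (nat_lit 11) nil nil) nil) nil)) nil) (node (nat_lit 5)
  (nat_lit 109188) (nat_lit 7) (node (nat_lit 4) (nat_lit 113975) (nat_lit 8) (node (nat_lit 5)
  (nat_lit 105689) (nat_lit 9) (node (nat_lit 6) (nat_lit 93420) (nat_lit 10) (node (nat_lit 4)
  (nat_lit 82742) (nat_lit 11) (node (nat_lit 8) (nat_lit 56230) (nat_lit 12) nil nil) nil) (node
  (nat_lit 8) (nat_lit 104705) (nat_lit 10) nil nil)) nil) (node (nat_lit 8) (nat_lit 113124)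
  (nat_lit 8) nil nil)) (node (nat_lit 4) (nat_lit 110795) (nat_lit 7) nil (node (nat_lit 0)
  (nat_lit 112941) (nat_lit 7) nil nil)))) (node (nat_lit 4) (nat_lit 101854) (nat_lit 6) (node
  (nat_lit 5) (nat_lit 85514) (nat_lit 7) (node (nat_lit 8) (nat_lit 88658) (nat_lit 8) (node
  (nat_lit 5) (nat_lit 90159) (nat_lit 9) nil nil) (node (nat_lit 4) (nat_lit 89196) (nat_lit 8)
  nil (node (nat_lit 6) (nat_lit 64234) (nat_lit 8) nil nil))) (node (nat_lit 6) (nat_lit 107657)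
  (nat_lit 7) (node (nat_lit 5) (nat_lit 108705) (nat_lit 8) nil nil) nil)) (node (nat_lit 0)
  (nat_lit 106927) (nat_lit 6) (node (nat_lit 8) (nat_lit 112172) (nat_lit 7) nil (node (nat_lit
  5) (nat_lit 111137) (nat_lit 7) nil nil)) nil)))) (node (nat_lit 5) (nat_lit 0) (nat_lit 5)
  (node (nat_lit 4) (nat_lit 90867) (nat_lit 6) (node (nat_lit 6) (nat_lit 103509) (nat_lit 7)
  (node (nat_lit 5) (nat_lit 111708) (nat_lit 8) (node (nat_lit 4) (nat_lit 116203) (nat_lit 9)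
  (node (nat_lit 5) (nat_lit 118319) (nat_lit 10) (node (nat_lit 6) (nat_lit 117763) (nat_lit 11)
  (node (nat_lit 4) (nat_lit 107481) (nat_lit 12) (node (nat_lit 5) (nat_lit 83826) (nat_lit 13)
  (node (nat_lit 4) (nat_lit 65961) (nat_lit 14) (node (nat_lit 6) (nat_lit 36180) (nat_lit 15)
  nil nil) nil) nil) nil) nil) nil) nil) (node (nat_lit 4) (nat_lit 113923) (nat_lit 8) nil (node
  (nat_lit 3) (nat_lit 114626) (nat_lit 8) nil (node (nat_lit 0) (nat_lit 115873) (nat_lit 8) nil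
  nil)))) (node (nat_lit 3) (nat_lit 112958) (nat_lit 7) nil (node (nat_lit 0) (nat_lit 115376)
  (nat_lit 7) nil nil))) (node (nat_lit 3) (nat_lit 106675) (nat_lit 6) (node (nat_lit 5) (nat_lit
  113931) (nat_lit 7) (node (nat_lit 4) (nat_lit 116964) (nat_lit 8) (node (nat_lit 5) (nat_lit
  97688) (nat_lit 9) nil nil) nil) (node (nat_lit 4) (nat_lit 116001) (nat_lit 7) (node (nat_lit
  5) (nat_lit 119264) (nat_lit 8) (node (nat_lit 6) (nat_lit 115088) (nat_lit 9) nil nil) nil)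
  (node (nat_lit 6) (nat_lit 113650) (nat_lit 7) (node (nat_lit 5) (nat_lit 115310) (nat_lit 8)
  nil nil) nil))) (node (nat_lit 0) (nat_lit 110954) (nat_lit 6) nil nil))) (node (nat_lit 0)
  (nat_lit 0) (nat_lit 5) (node (nat_lit 5) (nat_lit 112353) (nat_lit 6) (node (nat_lit 4)
  (nat_lit 116634) (nat_lit 7) (node (nat_lit 5) (nat_lit 118805) (nat_lit 8) nil nil) nil) (node
  (nat_lit 4) (nat_lit 113734) (nat_lit 6) nil (node (nat_lit 3) (nat_lit 112279) (nat_lit 6) nil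
  (node (nat_lit 6) (nat_lit 111914) (nat_lit 6) nil (node (nat_lit 0) (nat_lit 114180) (nat_lit
  6) nil nil))))) nil)))) (node (nat_lit 5) (nat_lit 0) (nat_lit 4) (node (nat_lit 3) (nat_lit 0)
  (nat_lit 5) (node (nat_lit 5) (nat_lit 93139) (nat_lit 6) (node (nat_lit 6) (nat_lit 98354)
  (nat_lit 7) (node (nat_lit 8) (nat_lit 100576) (nat_lit 8) (node (nat_lit 5) (nat_lit 103315)
  (nat_lit 9) (node (nat_lit 8) (nat_lit 103823) (nat_lit 10) nil (node (nat_lit 4) (nat_lit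
  103614) (nat_lit 10) (node (nat_lit 5) (nat_lit 102179) (nat_lit 11) nil nil) nil)) (node
  (nat_lit 4) (nat_lit 105920) (nat_lit 9) (node (nat_lit 5) (nat_lit 101162) (nat_lit 10) (node
  (nat_lit 6) (nat_lit 93142) (nat_lit 11) (node (nat_lit 5) (nat_lit 79980) (nat_lit 12) (node
  (nat_lit 8) (nat_lit 68131) (nat_lit 13) (node (nat_lit 5) (nat_lit 40651) (nat_lit 14) nil nil)
  nil) nil) nil) nil) (node (nat_lit 6) (nat_lit 104392) (nat_lit 9) nil nil))) (node (nat_lit 4)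
  (nat_lit 110119) (nat_lit 8) (node (nat_lit 8) (nat_lit 105008) (nat_lit 9) (node (nat_lit 5)
  (nat_lit 105143) (nat_lit 10) nil nil) nil) (node (nat_lit 5) (nat_lit 100576) (nat_lit 8) (node
  (nat_lit 4) (nat_lit 99901) (nat_lit 9) nil nil) (node (nat_lit 0) (nat_lit 100525) (nat_lit 8)
  nil nil)))) (node (nat_lit 4) (nat_lit 106756) (nat_lit 7) (node (nat_lit 8) (nat_lit 102395)
  (nat_lit 8) nil (node (nat_lit 5) (nat_lit 98003) (nat_lit 8) (node (nat_lit 6) (nat_lit 86895)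
  (nat_lit 9) (node (nat_lit 5) (nat_lit 57773) (nat_lit 10) nil nil) nil) nil)) (node (nat_lit 0)
  (nat_lit 110304) (nat_lit 7) nil nil))) (node (nat_lit 6) (nat_lit 93108) (nat_lit 6) (node
  (nat_lit 8) (nat_lit 97366) (nat_lit 7) (node (nat_lit 5) (nat_lit 98398) (nat_lit 8) nil (node
  (nat_lit 4) (nat_lit 104096) (nat_lit 8) (node (nat_lit 5) (nat_lit 84934) (nat_lit 9) (node
  (nat_lit 6) (nat_lit 72038) (nat_lit 10) (node (nat_lit 5) (nat_lit 59837) (nat_lit 11) nil nil)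
  nil) nil) nil)) (node (nat_lit 5) (nat_lit 96759) (nat_lit 7) (node (nat_lit 4) (nat_lit 106759)
  (nat_lit 8) (node (nat_lit 5) (nat_lit 98948) (nat_lit 9) (node (nat_lit 6) (nat_lit 91699)
  (nat_lit 10) (node (nat_lit 5) (nat_lit 58817) (nat_lit 11) nil nil) nil) nil) (node (nat_lit 6)
  (nat_lit 94951) (nat_lit 8) nil nil)) (node (nat_lit 4) (nat_lit 105826) (nat_lit 7) nil (node
  (nat_lit 0) (nat_lit 107524) (nat_lit 7) nil nil)))) (node (nat_lit 4) (nat_lit 111179) (nat_lit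
  6) (node (nat_lit 5) (nat_lit 114477) (nat_lit 7) (node (nat_lit 6) (nat_lit 109356) (nat_lit 8)
  nil nil) (node (nat_lit 8) (nat_lit 114009) (nat_lit 7) (node (nat_lit 5) (nat_lit 114157)
  (nat_lit 8) (node (nat_lit 4) (nat_lit 110271) (nat_lit 9) (node (nat_lit 5) (nat_lit 105755)
  (nat_lit 10) nil nil) nil) nil) nil)) (node (nat_lit 0) (nat_lit 107350) (nat_lit 6) nil nil))))
  (node (nat_lit 4) (nat_lit 0) (nat_lit 5) (node (nat_lit 5) (nat_lit 56605) (nat_lit 6) (node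
  (nat_lit 6) (nat_lit 43393) (nat_lit 7) (node (nat_lit 4) (nat_lit 44827) (nat_lit 8) (node
  (nat_lit 5) (nat_lit 46025) (nat_lit 9) nil (node (nat_lit 6) (nat_lit 44827) (nat_lit 9) (node
  (nat_lit 5) (nat_lit 46025) (nat_lit 10) nil nil) nil)) (node (nat_lit 3) (nat_lit 44768)
  (nat_lit 8) nil (node (nat_lit 0) (nat_lit 46025) (nat_lit 8) nil nil))) (node (nat_lit 3)
  (nat_lit 65961) (nat_lit 7) (node (nat_lit 4) (nat_lit 65961) (nat_lit 8) (node (nat_lit 5)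
  (nat_lit 65961) (nat_lit 9) nil nil) (node (nat_lit 5) (nat_lit 65961) (nat_lit 8) (node
  (nat_lit 6) (nat_lit 65390) (nat_lit 9) (node (nat_lit 5) (nat_lit 65961) (nat_lit 10) nil nil)
  (node (nat_lit 4) (nat_lit 65390) (nat_lit 9) nil nil)) nil)) (node (nat_lit 0) (nat_lit 65961)
  (nat_lit 7) nil nil))) (node (nat_lit 3) (nat_lit 91034) (nat_lit 6) (node (nat_lit 5) (nat_lit
  97434) (nat_lit 7) (node (nat_lit 6) (nat_lit 96786) (nat_lit 8) nil nil) (node (nat_lit 4)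
  (nat_lit 92109) (nat_lit 7) (node (nat_lit 5) (nat_lit 90905) (nat_lit 8) (node (nat_lit 6)
  (nat_lit 55000) (nat_lit 9) (node (nat_lit 5) (nat_lit 43451) (nat_lit 10) nil nil) nil) nil)
  nil)) (node (nat_lit 6) (nat_lit 81775) (nat_lit 6) (node (nat_lit 4) (nat_lit 91795) (nat_lit
  7) (node (nat_lit 5) (nat_lit 100412) (nat_lit 8) nil (node (nat_lit 3) (nat_lit 91460) (nat_lit
  8) nil nil)) (node (nat_lit 5) (nat_lit 89123) (nat_lit 7) (node (nat_lit 3) (nat_lit 100969)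
  (nat_lit 8) nil (node (nat_lit 6) (nat_lit 97565) (nat_lit 8) nil nil)) (node (nat_lit 3)
  (nat_lit 101604) (nat_lit 7) (node (nat_lit 4) (nat_lit 94606) (nat_lit 8) (node (nat_lit 5)
  (nat_lit 88150) (nat_lit 9) (node (nat_lit 6) (nat_lit 74117) (nat_lit 10) (node (nat_lit 5)
  (nat_lit 61055) (nat_lit 11) (node (nat_lit 4) (nat_lit 44671) (nat_lit 12) nil nil) nil) nil)
  nil) nil) (node (nat_lit 0) (nat_lit 93546) (nat_lit 7) nil nil)))) (node (nat_lit 0) (nat_lit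
  97157) (nat_lit 6) nil nil)))) (node (nat_lit 0) (nat_lit 0) (nat_lit 5) (node (nat_lit 5)
  (nat_lit 108800) (nat_lit 6) (node (nat_lit 4) (nat_lit 106881) (nat_lit 7) nil (node (nat_lit
  3) (nat_lit 107590) (nat_lit 7) nil nil)) (node (nat_lit 3) (nat_lit 106477) (nat_lit 6) nil
  (node (nat_lit 4) (nat_lit 109971) (nat_lit 6) nil (node (nat_lit 6) (nat_lit 108287) (nat_lit
  6) (node (nat_lit 5) (nat_lit 111585) (nat_lit 7) nil nil) (node (nat_lit 0) (nat_lit 106251)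
  (nat_lit 6) nil nil))))) nil))) (node (nat_lit 0) (nat_lit 0) (nat_lit 4) (node (nat_lit 6)
  (nat_lit 0) (nat_lit 5) (node (nat_lit 5) (nat_lit 111403) (nat_lit 6) (node (nat_lit 7)
  (nat_lit 117241) (nat_lit 7) (node (nat_lit 5) (nat_lit 119411) (nat_lit 8) nil nil) (node
  (nat_lit 4) (nat_lit 118905) (nat_lit 7) (node (nat_lit 5) (nat_lit 109902) (nat_lit 8) (node
  (nat_lit 6) (nat_lit 89597) (nat_lit 9) nil nil) nil) nil)) (node (nat_lit 4) (nat_lit 115554)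
  (nat_lit 6) (node (nat_lit 3) (nat_lit 104449) (nat_lit 7) nil nil) (node (nat_lit 3) (nat_lit
  111796) (nat_lit 6) (node (nat_lit 4) (nat_lit 105675) (nat_lit 7) (node (nat_lit 5) (nat_lit
  90151) (nat_lit 8) nil nil) nil) (node (nat_lit 0) (nat_lit 113419) (nat_lit 6) nil nil))))
  (node (nat_lit 5) (nat_lit 0) (nat_lit 5) (node (nat_lit 3) (nat_lit 111707) (nat_lit 6) nil
  (node (nat_lit 4) (nat_lit 112531) (nat_lit 6) (node (nat_lit 5) (nat_lit 115829) (nat_lit 7)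
  (node (nat_lit 6) (nat_lit 110708) (nat_lit 8) (node (nat_lit 7) (nat_lit 36886) (nat_lit 9) nil
  nil) nil) nil) (node (nat_lit 7) (nat_lit 115856) (nat_lit 6) (node (nat_lit 6) (nat_lit 118396)
  (nat_lit 7) nil nil) (node (nat_lit 6) (nat_lit 111463) (nat_lit 6) (node (nat_lit 5) (nat_lit
  113972) (nat_lit 7) nil nil) (node (nat_lit 0) (nat_lit 114246) (nat_lit 6) nil nil))))) (node
  (nat_lit 4) (nat_lit 106908) (nat_lit 5) (node (nat_lit 3) (nat_lit 113519) (nat_lit 6) (node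
  (nat_lit 4) (nat_lit 109159) (nat_lit 7) nil nil) (node (nat_lit 5) (nat_lit 112194) (nat_lit 6)
  nil nil)) (node (nat_lit 3) (nat_lit 104035) (nat_lit 5) (node (nat_lit 4) (nat_lit 111660)
  (nat_lit 6) (node (nat_lit 5) (nat_lit 114958) (nat_lit 7) nil nil) (node (nat_lit 5) (nat_lit
  110187) (nat_lit 6) (node (nat_lit 8) (nat_lit 113485) (nat_lit 7) nil nil) nil)) (node (nat_lit
  0) (nat_lit 107977) (nat_lit 5) (node (nat_lit 5) (nat_lit 112897) (nat_lit 6) nil nil) nil)))))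
  nil))))

noncomputable def t109 : Tr :=
  (node (nat_lit 4) (nat_lit 0) (nat_lit 3) (node (nat_lit 0) (nat_lit 0) (nat_lit 4) (node
  (nat_lit 4) (nat_lit 0) (nat_lit 5) (node (nat_lit 3) (nat_lit 39327) (nat_lit 6) (node (nat_lit
  5) (nat_lit 43071) (nat_lit 7) (node (nat_lit 9) (nat_lit 43071) (nat_lit 8) (node (nat_lit 4)
  (nat_lit 43071) (nat_lit 9) (node (nat_lit 5) (nat_lit 43339) (nat_lit 10) (node (nat_lit 4)
  (nat_lit 43339) (nat_lit 11) nil nil) nil) nil) nil) (node (nat_lit 4) (nat_lit 39623) (nat_lit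
  7) (node (nat_lit 7) (nat_lit 42826) (nat_lit 8) (node (nat_lit 9) (nat_lit 42826) (nat_lit 9)
  (node (nat_lit 4) (nat_lit 42826) (nat_lit 10) (node (nat_lit 5) (nat_lit 43264) (nat_lit 11)
  nil nil) nil) nil) (node (nat_lit 5) (nat_lit 37508) (nat_lit 8) nil nil)) (node (nat_lit 7)
  (nat_lit 43071) (nat_lit 7) (node (nat_lit 9) (nat_lit 43071) (nat_lit 8) (node (nat_lit 4)
  (nat_lit 43071) (nat_lit 9) (node (nat_lit 5) (nat_lit 43339) (nat_lit 10) nil nil) nil) nil)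
  (node (nat_lit 0) (nat_lit 42583) (nat_lit 7) (node (nat_lit 9) (nat_lit 42583) (nat_lit 8) nil
  nil) (node (nat_lit 2) (nat_lit 39371) (nat_lit 7) (node (nat_lit 9) (nat_lit 39371) (nat_lit 8)
  (node (nat_lit 4) (nat_lit 38301) (nat_lit 9) nil nil) nil) nil))))) (node (nat_lit 5) (nat_lit
  45066) (nat_lit 6) (node (nat_lit 7) (nat_lit 46768) (nat_lit 7) (node (nat_lit 4) (nat_lit
  46768) (nat_lit 8) (node (nat_lit 7) (nat_lit 47499) (nat_lit 9) nil nil) (node (nat_lit 5)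
  (nat_lit 47316) (nat_lit 8) nil nil)) (node (nat_lit 3) (nat_lit 45066) (nat_lit 7) (node
  (nat_lit 4) (nat_lit 45066) (nat_lit 8) (node (nat_lit 7) (nat_lit 45768) (nat_lit 9) (node
  (nat_lit 10) (nat_lit 45768) (nat_lit 10) nil nil) (node (nat_lit 5) (nat_lit 45768) (nat_lit 9)
  (node (nat_lit 4) (nat_lit 45768) (nat_lit 10) nil nil) nil)) nil) (node (nat_lit 0) (nat_lit
  45844) (nat_lit 7) nil (node (nat_lit 2) (nat_lit 45066) (nat_lit 7) nil nil)))) (node (nat_lit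
  0) (nat_lit 44397) (nat_lit 6) (node (nat_lit 7) (nat_lit 44719) (nat_lit 7) nil (node (nat_lit
  4) (nat_lit 44397) (nat_lit 7) nil (node (nat_lit 3) (nat_lit 44397) (nat_lit 7) nil nil)))
  (node (nat_lit 2) (nat_lit 39032) (nat_lit 6) (node (nat_lit 7) (nat_lit 43071) (nat_lit 7)
  (node (nat_lit 4) (nat_lit 43071) (nat_lit 8) nil nil) (node (nat_lit 4) (nat_lit 40026)
  (nat_lit 7) (node (nat_lit 3) (nat_lit 40026) (nat_lit 8) (node (nat_lit 4) (nat_lit 34688)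
  (nat_lit 9) nil nil) (node (nat_lit 7) (nat_lit 42403) (nat_lit 8) nil nil)) (node (nat_lit 3)
  (nat_lit 39667) (nat_lit 7) (node (nat_lit 4) (nat_lit 39667) (nat_lit 8) (node (nat_lit 5)
  (nat_lit 33153) (nat_lit 9) nil nil) nil) (node (nat_lit 5) (nat_lit 42896) (nat_lit 7) nil
  (node (nat_lit 0) (nat_lit 42583) (nat_lit 7) nil nil))))) nil)))) (node (nat_lit 5) (nat_lit 0)
  (nat_lit 5) (node (nat_lit 7) (nat_lit 45356) (nat_lit 6) (node (nat_lit 4) (nat_lit 45290)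
  (nat_lit 7) (node (nat_lit 7) (nat_lit 47157) (nat_lit 8) (node (nat_lit 5) (nat_lit 47236)
  (nat_lit 9) nil nil) (node (nat_lit 5) (nat_lit 47000) (nat_lit 8) nil nil)) nil) (node (nat_lit
  4) (nat_lit 42956) (nat_lit 6) (node (nat_lit 5) (nat_lit 46970) (nat_lit 7) (node (nat_lit 7)
  (nat_lit 47869) (nat_lit 8) (node (nat_lit 4) (nat_lit 47869) (nat_lit 9) (node (nat_lit 7)
  (nat_lit 48124) (nat_lit 10) nil nil) nil) (node (nat_lit 3) (nat_lit 46970) (nat_lit 8) nil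
  nil)) nil) (node (nat_lit 3) (nat_lit 42521) (nat_lit 6) (node (nat_lit 4) (nat_lit 42521)
  (nat_lit 7) (node (nat_lit 5) (nat_lit 43732) (nat_lit 8) (node (nat_lit 4) (nat_lit 43732)
  (nat_lit 9) nil nil) nil) (node (nat_lit 7) (nat_lit 44606) (nat_lit 7) (node (nat_lit 9)
  (nat_lit 44606) (nat_lit 8) (node (nat_lit 4) (nat_lit 44606) (nat_lit 9) nil nil) nil) nil))
  (node (nat_lit 0) (nat_lit 45270) (nat_lit 6) nil (node (nat_lit 2) (nat_lit 42916) (nat_lit 6)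
  (node (nat_lit 4) (nat_lit 42916) (nat_lit 7) nil (node (nat_lit 3) (nat_lit 42916) (nat_lit 7)
  (node (nat_lit 4) (nat_lit 42916) (nat_lit 8) (node (nat_lit 5) (nat_lit 42781) (nat_lit 9) nil
  nil) nil) (node (nat_lit 5) (nat_lit 43901) (nat_lit 7) nil (node (nat_lit 7) (nat_lit 43901)
  (nat_lit 7) nil nil)))) nil))))) (node (nat_lit 3) (nat_lit 0) (nat_lit 5) (node (nat_lit 4)
  (nat_lit 39338) (nat_lit 6) (node (nat_lit 8) (nat_lit 40547) (nat_lit 7) (node (nat_lit 7)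
  (nat_lit 42826) (nat_lit 8) nil (node (nat_lit 5) (nat_lit 42826) (nat_lit 8) nil nil)) (node
  (nat_lit 5) (nat_lit 42583) (nat_lit 7) nil (node (nat_lit 7) (nat_lit 43269) (nat_lit 7) nil
  nil))) (node (nat_lit 7) (nat_lit 44449) (nat_lit 6) (node (nat_lit 4) (nat_lit 44449) (nat_lit
  7) (node (nat_lit 7) (nat_lit 45014) (nat_lit 8) (node (nat_lit 8) (nat_lit 45014) (nat_lit 9)
  (node (nat_lit 4) (nat_lit 45014) (nat_lit 10) (node (nat_lit 5) (nat_lit 45430) (nat_lit 11)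
  nil nil) nil) nil) nil) nil) (node (nat_lit 5) (nat_lit 44940) (nat_lit 6) (node (nat_lit 8)
  (nat_lit 44940) (nat_lit 7) (node (nat_lit 4) (nat_lit 44940) (nat_lit 8) nil nil) nil) (node
  (nat_lit 0) (nat_lit 43375) (nat_lit 6) (node (nat_lit 8) (nat_lit 43375) (nat_lit 7) (node
  (nat_lit 4) (nat_lit 43375) (nat_lit 8) nil nil) nil) (node (nat_lit 2) (nat_lit 39158) (nat_lit
  6) (node (nat_lit 8) (nat_lit 39898) (nat_lit 7) (node (nat_lit 4) (nat_lit 36487) (nat_lit 8)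
  nil nil) (node (nat_lit 4) (nat_lit 39158) (nat_lit 7) nil nil)) nil))))) (node (nat_lit 0)
  (nat_lit 42394) (nat_lit 5) (node (nat_lit 4) (nat_lit 42581) (nat_lit 6) (node (nat_lit 7)
  (nat_lit 45066) (nat_lit 7) nil nil) (node (nat_lit 7) (nat_lit 45144) (nat_lit 6) nil (node
  (nat_lit 5) (nat_lit 44919) (nat_lit 6) nil (node (nat_lit 3) (nat_lit 42394) (nat_lit 6) (node
  (nat_lit 4) (nat_lit 42394) (nat_lit 7) (node (nat_lit 5) (nat_lit 43604) (nat_lit 8) nil nil)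
  nil) nil)))) (node (nat_lit 2) (nat_lit 0) (nat_lit 5) (node (nat_lit 4) (nat_lit 39333)
  (nat_lit 6) (node (nat_lit 7) (nat_lit 42583) (nat_lit 7) nil (node (nat_lit 3) (nat_lit 39333)
  (nat_lit 7) nil (node (nat_lit 5) (nat_lit 42583) (nat_lit 7) nil (node (nat_lit 8) (nat_lit
  40716) (nat_lit 7) nil nil)))) (node (nat_lit 7) (nat_lit 44207) (nat_lit 6) nil (node (nat_lit
  5) (nat_lit 43900) (nat_lit 6) nil (node (nat_lit 3) (nat_lit 39305) (nat_lit 6) (node (nat_lit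
  4) (nat_lit 39305) (nat_lit 7) (node (nat_lit 5) (nat_lit 29508) (nat_lit 8) nil nil) nil) (node
  (nat_lit 0) (nat_lit 43375) (nat_lit 6) nil nil))))) nil))))) t107) (node (nat_lit 0) (nat_lit
  0) (nat_lit 3) (node (nat_lit 3) (nat_lit 0) (nat_lit 4) (node (nat_lit 6) (nat_lit 113550)
  (nat_lit 5) (node (nat_lit 5) (nat_lit 118985) (nat_lit 6) (node (nat_lit 7) (nat_lit 121602)
  (nat_lit 7) (node (nat_lit 5) (nat_lit 122060) (nat_lit 8) (node (nat_lit 6) (nat_lit 122178)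
  (nat_lit 9) nil nil) (node (nat_lit 4) (nat_lit 121602) (nat_lit 8) (node (nat_lit 5) (nat_lit
  122178) (nat_lit 9) nil nil) nil)) (node (nat_lit 4) (nat_lit 117066) (nat_lit 7) (node (nat_lit
  5) (nat_lit 119237) (nat_lit 8) (node (nat_lit 6) (nat_lit 120738) (nat_lit 9) (node (nat_lit 7)
  (nat_lit 119753) (nat_lit 10) nil nil) nil) nil) nil)) (node (nat_lit 4) (nat_lit 120177)
  (nat_lit 6) (node (nat_lit 7) (nat_lit 117877) (nat_lit 7) (node (nat_lit 4) (nat_lit 116744)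
  (nat_lit 8) (node (nat_lit 5) (nat_lit 111509) (nat_lit 9) (node (nat_lit 6) (nat_lit 99920)
  (nat_lit 10) (node (nat_lit 7) (nat_lit 86253) (nat_lit 11) (node (nat_lit 6) (nat_lit 59504)
  (nat_lit 12) nil nil) nil) nil) nil) nil) nil) nil)) (node (nat_lit 5) (nat_lit 0) (nat_lit 5)
  (node (nat_lit 6) (nat_lit 118242) (nat_lit 6) (node (nat_lit 5) (nat_lit 121540) (nat_lit 7)
  (node (nat_lit 7) (nat_lit 121996) (nat_lit 8) nil nil) (node (nat_lit 4) (nat_lit 116323)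
  (nat_lit 7) nil nil)) (node (nat_lit 7) (nat_lit 112949) (nat_lit 6) (node (nat_lit 6) (nat_lit
  118984) (nat_lit 7) (node (nat_lit 5) (nat_lit 121155) (nat_lit 8) nil nil) (node (nat_lit 4)
  (nat_lit 116247) (nat_lit 7) (node (nat_lit 5) (nat_lit 118417) (nat_lit 8) (node (nat_lit 6)
  (nat_lit 119918) (nat_lit 9) (node (nat_lit 7) (nat_lit 118934) (nat_lit 10) (node (nat_lit 5)
  (nat_lit 49379) (nat_lit 11) nil nil) nil) nil) nil) nil)) (node (nat_lit 4) (nat_lit 113008)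
  (nat_lit 6) (node (nat_lit 5) (nat_lit 91799) (nat_lit 7) (node (nat_lit 6) (nat_lit 60403)
  (nat_lit 8) nil nil) (node (nat_lit 7) (nat_lit 113419) (nat_lit 7) nil nil)) (node (nat_lit 0)
  (nat_lit 117259) (nat_lit 6) nil (node (nat_lit 2) (nat_lit 104097) (nat_lit 6) nil nil)))))
  (node (nat_lit 4) (nat_lit 111805) (nat_lit 5) (node (nat_lit 5) (nat_lit 116367) (nat_lit 6)
  (node (nat_lit 6) (nat_lit 54905) (nat_lit 7) nil nil) (node (nat_lit 6) (nat_lit 116796)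
  (nat_lit 6) (node (nat_lit 5) (nat_lit 118432) (nat_lit 7) nil nil) (node (nat_lit 7) (nat_lit
  111636) (nat_lit 6) (node (nat_lit 5) (nat_lit 118432) (nat_lit 7) (node (nat_lit 4) (nat_lit
  113930) (nat_lit 8) (node (nat_lit 5) (nat_lit 110190) (nat_lit 9) nil nil) nil) nil) nil)))
  (node (nat_lit 0) (nat_lit 111329) (nat_lit 5) (node (nat_lit 5) (nat_lit 115891) (nat_lit 6)
  nil (node (nat_lit 7) (nat_lit 114689) (nat_lit 6) nil nil)) (node (nat_lit 2) (nat_lit 105703)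
  (nat_lit 5) (node (nat_lit 5) (nat_lit 110265) (nat_lit 6) (node (nat_lit 7) (nat_lit 109055)
  (nat_lit 7) nil nil) (node (nat_lit 7) (nat_lit 108061) (nat_lit 6) (node (nat_lit 4) (nat_lit
  96264) (nat_lit 7) nil nil) (node (nat_lit 4) (nat_lit 107540) (nat_lit 6) nil nil))) nil)))))
  (node (nat_lit 4) (nat_lit 0) (nat_lit 4) (node (nat_lit 6) (nat_lit 0) (nat_lit 5) (node
  (nat_lit 5) (nat_lit 115961) (nat_lit 6) (node (nat_lit 4) (nat_lit 123049) (nat_lit 7) (node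
  (nat_lit 5) (nat_lit 125554) (nat_lit 8) (node (nat_lit 6) (nat_lit 127125) (nat_lit 9) (node
  (nat_lit 4) (nat_lit 128013) (nat_lit 10) (node (nat_lit 6) (nat_lit 44647) (nat_lit 11) nil
  nil) nil) nil) nil) nil) (node (nat_lit 3) (nat_lit 116700) (nat_lit 6) (node (nat_lit 4)
  (nat_lit 120896) (nat_lit 7) (node (nat_lit 5) (nat_lit 124158) (nat_lit 8) (node (nat_lit 6)
  (nat_lit 125674) (nat_lit 9) (node (nat_lit 4) (nat_lit 124356) (nat_lit 10) nil nil) nil) nil)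
  nil) (node (nat_lit 0) (nat_lit 117901) (nat_lit 6) nil (node (nat_lit 2) (nat_lit 110893)
  (nat_lit 6) nil nil)))) (node (nat_lit 3) (nat_lit 109741) (nat_lit 5) (node (nat_lit 5)
  (nat_lit 113946) (nat_lit 6) nil (node (nat_lit 6) (nat_lit 118388) (nat_lit 6) nil (node
  (nat_lit 4) (nat_lit 110677) (nat_lit 6) (node (nat_lit 5) (nat_lit 99762) (nat_lit 7) (node
  (nat_lit 6) (nat_lit 69952) (nat_lit 8) nil nil) nil) nil))) (node (nat_lit 5) (nat_lit 0)
  (nat_lit 5) (node (nat_lit 4) (nat_lit 115433) (nat_lit 6) (node (nat_lit 6) (nat_lit 123451)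
  (nat_lit 7) (node (nat_lit 5) (nat_lit 126694) (nat_lit 8) (node (nat_lit 4) (nat_lit 126384)
  (nat_lit 9) (node (nat_lit 5) (nat_lit 128162) (nat_lit 10) (node (nat_lit 6) (nat_lit 128882)
  (nat_lit 11) (node (nat_lit 4) (nat_lit 128882) (nat_lit 12) (node (nat_lit 5) (nat_lit 128882)
  (nat_lit 13) (node (nat_lit 4) (nat_lit 128882) (nat_lit 14) nil nil) nil) nil) nil) nil) nil)
  nil) nil) (node (nat_lit 3) (nat_lit 117491) (nat_lit 6) (node (nat_lit 5) (nat_lit 121722)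
  (nat_lit 7) nil (node (nat_lit 4) (nat_lit 124255) (nat_lit 7) nil nil)) (node (nat_lit 0)
  (nat_lit 119369) (nat_lit 6) nil (node (nat_lit 2) (nat_lit 116096) (nat_lit 6) nil nil))))
  (node (nat_lit 0) (nat_lit 114221) (nat_lit 5) (node (nat_lit 5) (nat_lit 118783) (nat_lit 6)
  (node (nat_lit 4) (nat_lit 116864) (nat_lit 7) (node (nat_lit 5) (nat_lit 119035) (nat_lit 8)
  nil nil) nil) nil) (node (nat_lit 2) (nat_lit 109225) (nat_lit 5) (node (nat_lit 5) (nat_lit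
  113892) (nat_lit 6) (node (nat_lit 4) (nat_lit 104645) (nat_lit 7) (node (nat_lit 5) (nat_lit
  94528) (nat_lit 8) nil nil) nil) nil) nil))))) (node (nat_lit 5) (nat_lit 0) (nat_lit 4) (node
  (nat_lit 3) (nat_lit 106909) (nat_lit 5) (node (nat_lit 5) (nat_lit 115248) (nat_lit 6) (node
  (nat_lit 6) (nat_lit 122383) (nat_lit 7) (node (nat_lit 8) (nat_lit 119968) (nat_lit 8) nil nil)
  nil) (node (nat_lit 6) (nat_lit 119109) (nat_lit 6) (node (nat_lit 8) (nat_lit 117899) (nat_lit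
  7) (node (nat_lit 5) (nat_lit 117715) (nat_lit 8) nil nil) nil) (node (nat_lit 4) (nat_lit
  118991) (nat_lit 6) (node (nat_lit 5) (nat_lit 122407) (nat_lit 7) (node (nat_lit 6) (nat_lit
  124246) (nat_lit 8) (node (nat_lit 5) (nat_lit 55111) (nat_lit 9) nil nil) nil) nil) nil)))
  (node (nat_lit 4) (nat_lit 105728) (nat_lit 5) (node (nat_lit 5) (nat_lit 112139) (nat_lit 6)
  (node (nat_lit 6) (nat_lit 45565) (nat_lit 7) (node (nat_lit 4) (nat_lit 45565) (nat_lit 8)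
  (node (nat_lit 5) (nat_lit 45691) (nat_lit 9) nil (node (nat_lit 6) (nat_lit 45691) (nat_lit 9)
  (node (nat_lit 5) (nat_lit 45691) (nat_lit 10) nil nil) nil)) nil) nil) (node (nat_lit 3)
  (nat_lit 117717) (nat_lit 6) nil nil)) (node (nat_lit 0) (nat_lit 112339) (nat_lit 5) (node
  (nat_lit 5) (nat_lit 116901) (nat_lit 6) nil nil) (node (nat_lit 2) (nat_lit 104555) (nat_lit 5)
  (node (nat_lit 5) (nat_lit 112044) (nat_lit 6) nil (node (nat_lit 3) (nat_lit 105740) (nat_lit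
  6) nil (node (nat_lit 4) (nat_lit 113922) (nat_lit 6) nil (node (nat_lit 6) (nat_lit 114690)
  (nat_lit 6) nil nil)))) nil)))) (node (nat_lit 0) (nat_lit 0) (nat_lit 4) (node (nat_lit 6)
  (nat_lit 114789) (nat_lit 5) (node (nat_lit 5) (nat_lit 119351) (nat_lit 6) nil nil) (node
  (nat_lit 5) (nat_lit 110855) (nat_lit 5) (node (nat_lit 7) (nat_lit 118200) (nat_lit 6) nil
  (node (nat_lit 4) (nat_lit 119032) (nat_lit 6) (node (nat_lit 5) (nat_lit 122330) (nat_lit 7)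
  (node (nat_lit 6) (nat_lit 124500) (nat_lit 8) nil nil) nil) (node (nat_lit 6) (nat_lit 120598)
  (nat_lit 6) nil nil))) (node (nat_lit 4) (nat_lit 112908) (nat_lit 5) nil (node (nat_lit 3)
  (nat_lit 110882) (nat_lit 5) (node (nat_lit 4) (nat_lit 116759) (nat_lit 6) (node (nat_lit 5)
  (nat_lit 120057) (nat_lit 7) nil nil) (node (nat_lit 5) (nat_lit 112084) (nat_lit 6) nil nil))
  (node (nat_lit 0) (nat_lit 112214) (nat_lit 5) nil (node (nat_lit 2) (nat_lit 109506) (nat_lit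
  5) (node (nat_lit 5) (nat_lit 107051) (nat_lit 6) nil (node (nat_lit 4) (nat_lit 113095)
  (nat_lit 6) nil (node (nat_lit 3) (nat_lit 108883) (nat_lit 6) nil (node (nat_lit 7) (nat_lit
  115699) (nat_lit 6) nil (node (nat_lit 6) (nat_lit 115699) (nat_lit 6) nil nil))))) nil))))))
  (node (nat_lit 2) (nat_lit 0) (nat_lit 4) (node (nat_lit 6) (nat_lit 113205) (nat_lit 5) (node
  (nat_lit 5) (nat_lit 117767) (nat_lit 6) nil (node (nat_lit 4) (nat_lit 118041) (nat_lit 6) nil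
  (node (nat_lit 3) (nat_lit 111710) (nat_lit 6) nil nil))) (node (nat_lit 5) (nat_lit 0) (nat_lit
  5) (node (nat_lit 3) (nat_lit 108618) (nat_lit 6) (node (nat_lit 5) (nat_lit 111427) (nat_lit 7)
  nil (node (nat_lit 4) (nat_lit 111916) (nat_lit 7) nil nil)) (node (nat_lit 4) (nat_lit 114659)
  (nat_lit 6) (node (nat_lit 5) (nat_lit 90187) (nat_lit 7) (node (nat_lit 6) (nat_lit 57602)
  (nat_lit 8) nil nil) nil) (node (nat_lit 7) (nat_lit 111127) (nat_lit 6) (node (nat_lit 6)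
  (nat_lit 117162) (nat_lit 7) (node (nat_lit 5) (nat_lit 119333) (nat_lit 8) nil nil) nil) (node
  (nat_lit 6) (nat_lit 115642) (nat_lit 6) nil (node (nat_lit 0) (nat_lit 112594) (nat_lit 6) nil
  nil))))) (node (nat_lit 4) (nat_lit 110549) (nat_lit 5) (node (nat_lit 3) (nat_lit 105439)
  (nat_lit 6) (node (nat_lit 5) (nat_lit 101751) (nat_lit 7) nil (node (nat_lit 4) (nat_lit 88593)
  (nat_lit 7) nil nil)) (node (nat_lit 5) (nat_lit 115111) (nat_lit 6) nil nil)) (node (nat_lit 3)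
  (nat_lit 104540) (nat_lit 5) (node (nat_lit 4) (nat_lit 107877) (nat_lit 6) (node (nat_lit 5)
  (nat_lit 76579) (nat_lit 7) nil nil) (node (nat_lit 5) (nat_lit 109102) (nat_lit 6) (node
  (nat_lit 8) (nat_lit 112400) (nat_lit 7) nil nil) nil)) (node (nat_lit 0) (nat_lit 111134)
  (nat_lit 5) (node (nat_lit 5) (nat_lit 115696) (nat_lit 6) nil nil) nil))))) nil))))) (node
  (nat_lit 2) (nat_lit 0) (nat_lit 3) t108 nil)))

noncomputable def t110 : Tr :=
  (node (nat_lit 4) (nat_lit 0) (nat_lit 4) (node (nat_lit 5) (nat_lit 0) (nat_lit 5) (node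
  (nat_lit 4) (nat_lit 0) (nat_lit 6) (node (nat_lit 6) (nat_lit 0) (nat_lit 7) (node (nat_lit 5)
  (nat_lit 19249) (nat_lit 8) (node (nat_lit 6) (nat_lit 21699) (nat_lit 9) (node (nat_lit 4)
  (nat_lit 21835) (nat_lit 10) (node (nat_lit 5) (nat_lit 22335) (nat_lit 11) (node (nat_lit 6)
  (nat_lit 23338) (nat_lit 12) (node (nat_lit 5) (nat_lit 23338) (nat_lit 13) (node (nat_lit 4)
  (nat_lit 23338) (nat_lit 14) (node (nat_lit 5) (nat_lit 23338) (nat_lit 15) (node (nat_lit 6)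
  (nat_lit 23759) (nat_lit 16) (node (nat_lit 4) (nat_lit 23759) (nat_lit 17) (node (nat_lit 5)
  (nat_lit 23759) (nat_lit 18) nil nil) nil) nil) nil) nil) nil) (node (nat_lit 0) (nat_lit 23338)
  (nat_lit 12) (node (nat_lit 5) (nat_lit 23338) (nat_lit 13) nil nil) (node (nat_lit 2) (nat_lit
  22472) (nat_lit 12) (node (nat_lit 5) (nat_lit 22781) (nat_lit 13) (node (nat_lit 4) (nat_lit
  23022) (nat_lit 14) nil nil) nil) nil))) (node (nat_lit 6) (nat_lit 23150) (nat_lit 11) (node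
  (nat_lit 5) (nat_lit 23079) (nat_lit 12) (node (nat_lit 4) (nat_lit 23150) (nat_lit 13) (node
  (nat_lit 5) (nat_lit 22938) (nat_lit 14) nil nil) nil) nil) (node (nat_lit 0) (nat_lit 23079)
  (nat_lit 11) (node (nat_lit 5) (nat_lit 23079) (nat_lit 12) nil nil) (node (nat_lit 2) (nat_lit
  22343) (nat_lit 11) (node (nat_lit 5) (nat_lit 22481) (nat_lit 12) nil nil) nil)))) nil) (node
  (nat_lit 4) (nat_lit 20105) (nat_lit 9) nil (node (nat_lit 2) (nat_lit 20345) (nat_lit 9) nil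
  (node (nat_lit 0) (nat_lit 21831) (nat_lit 9) nil nil)))) (node (nat_lit 0) (nat_lit 21484)
  (nat_lit 8) (node (nat_lit 5) (nat_lit 21809) (nat_lit 9) (node (nat_lit 4) (nat_lit 21507)
  (nat_lit 10) nil nil) (node (nat_lit 6) (nat_lit 22424) (nat_lit 9) nil (node (nat_lit 4)
  (nat_lit 21812) (nat_lit 9) nil nil))) (node (nat_lit 2) (nat_lit 20658) (nat_lit 8) (node
  (nat_lit 5) (nat_lit 21320) (nat_lit 9) (node (nat_lit 4) (nat_lit 21224) (nat_lit 10) nil nil)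
  (node (nat_lit 6) (nat_lit 22553) (nat_lit 9) nil nil)) (node (nat_lit 4) (nat_lit 19382)
  (nat_lit 8) (node (nat_lit 5) (nat_lit 20355) (nat_lit 9) nil (node (nat_lit 2) (nat_lit 20455)
  (nat_lit 9) nil (node (nat_lit 0) (nat_lit 21831) (nat_lit 9) nil nil))) nil)))) (node (nat_lit
  0) (nat_lit 19991) (nat_lit 7) (node (nat_lit 5) (nat_lit 20365) (nat_lit 8) (node (nat_lit 4)
  (nat_lit 20991) (nat_lit 9) (node (nat_lit 5) (nat_lit 21601) (nat_lit 10) nil nil) nil) (node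
  (nat_lit 6) (nat_lit 21362) (nat_lit 8) nil (node (nat_lit 4) (nat_lit 20407) (nat_lit 8) nil
  (node (nat_lit 0) (nat_lit 21316) (nat_lit 8) nil (node (nat_lit 2) (nat_lit 20476) (nat_lit 8)
  nil nil))))) (node (nat_lit 2) (nat_lit 0) (nat_lit 7) (node (nat_lit 5) (nat_lit 15786)
  (nat_lit 8) (node (nat_lit 10) (nat_lit 15786) (nat_lit 9) (node (nat_lit 4) (nat_lit 15786)
  (nat_lit 10) nil nil) (node (nat_lit 4) (nat_lit 14932) (nat_lit 9) nil (node (nat_lit 6)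
  (nat_lit 19628) (nat_lit 9) nil nil))) (node (nat_lit 6) (nat_lit 20786) (nat_lit 8) (node
  (nat_lit 4) (nat_lit 21114) (nat_lit 9) nil (node (nat_lit 5) (nat_lit 21149) (nat_lit 9) nil
  nil)) (node (nat_lit 4) (nat_lit 15786) (nat_lit 8) (node (nat_lit 5) (nat_lit 15786) (nat_lit
  9) nil nil) (node (nat_lit 0) (nat_lit 20708) (nat_lit 8) nil nil)))) nil))) (node (nat_lit 0)
  (nat_lit 0) (nat_lit 6) (node (nat_lit 6) (nat_lit 19978) (nat_lit 7) (node (nat_lit 5) (nat_lit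
  20352) (nat_lit 8) (node (nat_lit 4) (nat_lit 20352) (nat_lit 9) (node (nat_lit 5) (nat_lit
  20352) (nat_lit 10) nil nil) nil) (node (nat_lit 9) (nat_lit 21200) (nat_lit 8) (node (nat_lit
  5) (nat_lit 21200) (nat_lit 9) nil nil) nil)) (node (nat_lit 4) (nat_lit 18749) (nat_lit 7)
  (node (nat_lit 9) (nat_lit 21242) (nat_lit 8) (node (nat_lit 5) (nat_lit 21242) (nat_lit 9)
  (node (nat_lit 4) (nat_lit 21242) (nat_lit 10) (node (nat_lit 5) (nat_lit 21242) (nat_lit 11)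
  nil nil) nil) nil) nil) (node (nat_lit 5) (nat_lit 18486) (nat_lit 7) (node (nat_lit 4) (nat_lit
  19296) (nat_lit 8) (node (nat_lit 5) (nat_lit 19031) (nat_lit 9) nil nil) (node (nat_lit 6)
  (nat_lit 21213) (nat_lit 8) nil nil)) (node (nat_lit 0) (nat_lit 19751) (nat_lit 7) (node
  (nat_lit 5) (nat_lit 19463) (nat_lit 8) nil nil) (node (nat_lit 2) (nat_lit 18771) (nat_lit 7)
  (node (nat_lit 5) (nat_lit 19197) (nat_lit 8) nil (node (nat_lit 4) (nat_lit 18242) (nat_lit 8)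
  nil nil)) nil))))) (node (nat_lit 2) (nat_lit 0) (nat_lit 6) (node (nat_lit 4) (nat_lit 15680)
  (nat_lit 7) (node (nat_lit 6) (nat_lit 21460) (nat_lit 8) (node (nat_lit 5) (nat_lit 21539)
  (nat_lit 9) (node (nat_lit 4) (nat_lit 21334) (nat_lit 10) nil nil) nil) (node (nat_lit 9)
  (nat_lit 15792) (nat_lit 8) (node (nat_lit 5) (nat_lit 15792) (nat_lit 9) (node (nat_lit 4)
  (nat_lit 15102) (nat_lit 10) (node (nat_lit 5) (nat_lit 11479) (nat_lit 11) nil nil) nil) nil)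
  (node (nat_lit 5) (nat_lit 15792) (nat_lit 8) (node (nat_lit 4) (nat_lit 15792) (nat_lit 9)
  (node (nat_lit 9) (nat_lit 15792) (nat_lit 10) nil nil) (node (nat_lit 6) (nat_lit 21472)
  (nat_lit 9) nil nil)) nil))) (node (nat_lit 6) (nat_lit 20130) (nat_lit 7) (node (nat_lit 5)
  (nat_lit 20546) (nat_lit 8) (node (nat_lit 4) (nat_lit 21043) (nat_lit 9) (node (nat_lit 5)
  (nat_lit 21043) (nat_lit 10) nil nil) (node (nat_lit 9) (nat_lit 20244) (nat_lit 9) nil nil))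
  (node (nat_lit 9) (nat_lit 20546) (nat_lit 8) (node (nat_lit 5) (nat_lit 20564) (nat_lit 9) nil
  (node (nat_lit 4) (nat_lit 20546) (nat_lit 9) (node (nat_lit 6) (nat_lit 21924) (nat_lit 10)
  (node (nat_lit 5) (nat_lit 21924) (nat_lit 11) nil nil) nil) nil)) nil)) (node (nat_lit 5)
  (nat_lit 15678) (nat_lit 7) (node (nat_lit 4) (nat_lit 15792) (nat_lit 8) (node (nat_lit 9)
  (nat_lit 15792) (nat_lit 9) (node (nat_lit 4) (nat_lit 15792) (nat_lit 10) (node (nat_lit 5)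
  (nat_lit 17686) (nat_lit 11) nil nil) (node (nat_lit 6) (nat_lit 20939) (nat_lit 10) nil nil))
  nil) (node (nat_lit 6) (nat_lit 21222) (nat_lit 8) nil nil)) (node (nat_lit 0) (nat_lit 19980)
  (nat_lit 7) (node (nat_lit 5) (nat_lit 20014) (nat_lit 8) nil nil) nil)))) nil))) (node (nat_lit
  0) (nat_lit 0) (nat_lit 5) (node (nat_lit 6) (nat_lit 70775) (nat_lit 6) (node (nat_lit 4)
  (nat_lit 72971) (nat_lit 7) (node (nat_lit 6) (nat_lit 75076) (nat_lit 8) (node (nat_lit 8)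
  (nat_lit 76532) (nat_lit 9) nil nil) (node (nat_lit 5) (nat_lit 75076) (nat_lit 8) (node
  (nat_lit 6) (nat_lit 76532) (nat_lit 9) (node (nat_lit 4) (nat_lit 77638) (nat_lit 10) nil nil)
  nil) nil)) (node (nat_lit 5) (nat_lit 75900) (nat_lit 7) (node (nat_lit 4) (nat_lit 78005)
  (nat_lit 8) nil nil) (node (nat_lit 8) (nat_lit 75483) (nat_lit 7) nil nil))) (node (nat_lit 5)
  (nat_lit 71701) (nat_lit 6) (node (nat_lit 4) (nat_lit 73120) (nat_lit 7) (node (nat_lit 5)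
  (nat_lit 75225) (nat_lit 8) (node (nat_lit 6) (nat_lit 76682) (nat_lit 9) (node (nat_lit 4)
  (nat_lit 77787) (nat_lit 10) nil nil) nil) (node (nat_lit 6) (nat_lit 75225) (nat_lit 8) nil
  nil)) nil) (node (nat_lit 4) (nat_lit 70447) (nat_lit 6) (node (nat_lit 6) (nat_lit 72235)
  (nat_lit 7) (node (nat_lit 8) (nat_lit 74340) (nat_lit 8) nil (node (nat_lit 4) (nat_lit 74340)
  (nat_lit 8) nil (node (nat_lit 5) (nat_lit 74340) (nat_lit 8) nil nil))) (node (nat_lit 5)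
  (nat_lit 75548) (nat_lit 7) nil nil)) (node (nat_lit 0) (nat_lit 71849) (nat_lit 6) (node
  (nat_lit 4) (nat_lit 75047) (nat_lit 7) (node (nat_lit 6) (nat_lit 77152) (nat_lit 8) nil nil)
  (node (nat_lit 5) (nat_lit 76053) (nat_lit 7) nil (node (nat_lit 6) (nat_lit 75047) (nat_lit 7)
  nil nil))) (node (nat_lit 2) (nat_lit 70917) (nat_lit 6) (node (nat_lit 4) (nat_lit 74308)
  (nat_lit 7) (node (nat_lit 6) (nat_lit 75108) (nat_lit 8) nil nil) (node (nat_lit 5) (nat_lit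
  75611) (nat_lit 7) nil (node (nat_lit 6) (nat_lit 72168) (nat_lit 7) nil nil))) nil))))) (node
  (nat_lit 2) (nat_lit 0) (nat_lit 5) (node (nat_lit 6) (nat_lit 0) (nat_lit 6) (node (nat_lit 4)
  (nat_lit 58136) (nat_lit 7) (node (nat_lit 6) (nat_lit 60241) (nat_lit 8) (node (nat_lit 8)
  (nat_lit 61698) (nat_lit 9) (node (nat_lit 6) (nat_lit 64005) (nat_lit 10) (node (nat_lit 4)
  (nat_lit 65721) (nat_lit 11) nil nil) (node (nat_lit 4) (nat_lit 63539) (nat_lit 10) nil nil))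
  (node (nat_lit 5) (nat_lit 67928) (nat_lit 9) nil nil)) (node (nat_lit 5) (nat_lit 66163)
  (nat_lit 8) (node (nat_lit 6) (nat_lit 39338) (nat_lit 9) (node (nat_lit 4) (nat_lit 33198)
  (nat_lit 10) nil nil) nil) (node (nat_lit 0) (nat_lit 67100) (nat_lit 8) nil nil))) (node
  (nat_lit 5) (nat_lit 75194) (nat_lit 7) (node (nat_lit 4) (nat_lit 76791) (nat_lit 8) nil nil)
  (node (nat_lit 8) (nat_lit 58136) (nat_lit 7) (node (nat_lit 4) (nat_lit 60241) (nat_lit 8)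
  (node (nat_lit 6) (nat_lit 61698) (nat_lit 9) nil nil) nil) (node (nat_lit 0) (nat_lit 71832)
  (nat_lit 7) nil nil)))) (node (nat_lit 5) (nat_lit 67491) (nat_lit 6) (node (nat_lit 4) (nat_lit
  62336) (nat_lit 7) (node (nat_lit 5) (nat_lit 54285) (nat_lit 8) (node (nat_lit 8) (nat_lit
  56195) (nat_lit 9) (node (nat_lit 6) (nat_lit 57301) (nat_lit 10) (node (nat_lit 4) (nat_lit
  53060) (nat_lit 11) nil nil) (node (nat_lit 5) (nat_lit 57544) (nat_lit 10) nil nil)) (node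
  (nat_lit 6) (nat_lit 39039) (nat_lit 9) (node (nat_lit 4) (nat_lit 39637) (nat_lit 10) nil nil)
  nil)) (node (nat_lit 6) (nat_lit 65986) (nat_lit 8) (node (nat_lit 5) (nat_lit 68258) (nat_lit
  9) (node (nat_lit 4) (nat_lit 68511) (nat_lit 10) nil nil) (node (nat_lit 4) (nat_lit 67990)
  (nat_lit 9) nil nil)) (node (nat_lit 8) (nat_lit 65949) (nat_lit 8) nil (node (nat_lit 0)
  (nat_lit 65477) (nat_lit 8) nil nil)))) (node (nat_lit 6) (nat_lit 71851) (nat_lit 7) nil (node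
  (nat_lit 8) (nat_lit 72733) (nat_lit 7) nil nil))) (node (nat_lit 4) (nat_lit 0) (nat_lit 6)
  (node (nat_lit 6) (nat_lit 58075) (nat_lit 7) (node (nat_lit 8) (nat_lit 60180) (nat_lit 8)
  (node (nat_lit 6) (nat_lit 61636) (nat_lit 9) (node (nat_lit 4) (nat_lit 64238) (nat_lit 10) nil
  nil) nil) (node (nat_lit 4) (nat_lit 60180) (nat_lit 8) (node (nat_lit 5) (nat_lit 64855)
  (nat_lit 9) nil nil) (node (nat_lit 5) (nat_lit 73361) (nat_lit 8) nil nil))) (node (nat_lit 5)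
  (nat_lit 73649) (nat_lit 7) (node (nat_lit 8) (nat_lit 76230) (nat_lit 8) nil nil) (node
  (nat_lit 0) (nat_lit 72157) (nat_lit 7) nil nil))) (node (nat_lit 0) (nat_lit 69327) (nat_lit 6)
  (node (nat_lit 4) (nat_lit 72652) (nat_lit 7) (node (nat_lit 6) (nat_lit 74757) (nat_lit 8) nil
  nil) (node (nat_lit 5) (nat_lit 73532) (nat_lit 7) nil (node (nat_lit 6) (nat_lit 72765)
  (nat_lit 7) nil nil))) nil)))) (node (nat_lit 6) (nat_lit 0) (nat_lit 5) (node (nat_lit 5)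
  (nat_lit 0) (nat_lit 6) (node (nat_lit 4) (nat_lit 58932) (nat_lit 7) (node (nat_lit 6) (nat_lit
  67843) (nat_lit 8) nil (node (nat_lit 5) (nat_lit 69323) (nat_lit 8) (node (nat_lit 6) (nat_lit
  74508) (nat_lit 9) (node (nat_lit 4) (nat_lit 77084) (nat_lit 10) nil nil) nil) nil)) (node
  (nat_lit 6) (nat_lit 58904) (nat_lit 7) (node (nat_lit 2) (nat_lit 78731) (nat_lit 8) nil (node
  (nat_lit 0) (nat_lit 80051) (nat_lit 8) nil (node (nat_lit 4) (nat_lit 67510) (nat_lit 8) (node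
  (nat_lit 5) (nat_lit 75236) (nat_lit 9) nil nil) nil))) (node (nat_lit 0) (nat_lit 75025)
  (nat_lit 7) nil (node (nat_lit 2) (nat_lit 74363) (nat_lit 7) nil nil)))) (node (nat_lit 0)
  (nat_lit 66327) (nat_lit 6) (node (nat_lit 6) (nat_lit 72911) (nat_lit 7) (node (nat_lit 4)
  (nat_lit 77408) (nat_lit 8) nil nil) (node (nat_lit 5) (nat_lit 72556) (nat_lit 7) (node
  (nat_lit 4) (nat_lit 75747) (nat_lit 8) (node (nat_lit 5) (nat_lit 77395) (nat_lit 9) (node
  (nat_lit 6) (nat_lit 78500) (nat_lit 10) (node (nat_lit 4) (nat_lit 79476) (nat_lit 11) (node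
  (nat_lit 6) (nat_lit 80359) (nat_lit 12) nil nil) nil) nil) nil) nil) (node (nat_lit 4) (nat_lit
  72798) (nat_lit 7) (node (nat_lit 6) (nat_lit 77295) (nat_lit 8) (node (nat_lit 4) (nat_lit
  78943) (nat_lit 9) nil nil) nil) nil))) (node (nat_lit 2) (nat_lit 0) (nat_lit 6) (node (nat_lit
  6) (nat_lit 55630) (nat_lit 7) (node (nat_lit 4) (nat_lit 60126) (nat_lit 8) (node (nat_lit 5)
  (nat_lit 65457) (nat_lit 9) (node (nat_lit 6) (nat_lit 52966) (nat_lit 10) nil nil) nil) (node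
  (nat_lit 5) (nat_lit 73544) (nat_lit 8) nil nil)) (node (nat_lit 5) (nat_lit 72386) (nat_lit 7)
  (node (nat_lit 4) (nat_lit 69690) (nat_lit 8) (node (nat_lit 5) (nat_lit 61053) (nat_lit 9)
  (node (nat_lit 6) (nat_lit 54633) (nat_lit 10) (node (nat_lit 4) (nat_lit 38900) (nat_lit 11)
  nil nil) nil) nil) nil) (node (nat_lit 4) (nat_lit 55630) (nat_lit 7) (node (nat_lit 6) (nat_lit
  60126) (nat_lit 8) (node (nat_lit 4) (nat_lit 61774) (nat_lit 9) nil nil) nil) (node (nat_lit 0)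
  (nat_lit 71426) (nat_lit 7) nil nil)))) nil))) nil)))) (node (nat_lit 5) (nat_lit 0) (nat_lit 4)
  (node (nat_lit 0) (nat_lit 0) (nat_lit 5) (node (nat_lit 6) (nat_lit 110735) (nat_lit 6) (node
  (nat_lit 5) (nat_lit 109526) (nat_lit 7) (node (nat_lit 6) (nat_lit 109820) (nat_lit 8) (node
  (nat_lit 4) (nat_lit 108943) (nat_lit 9) (node (nat_lit 5) (nat_lit 104994) (nat_lit 10) (node
  (nat_lit 6) (nat_lit 99226) (nat_lit 11) (node (nat_lit 5) (nat_lit 90658) (nat_lit 12) (node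
  (nat_lit 8) (nat_lit 78888) (nat_lit 13) nil nil) nil) nil) nil) nil) (node (nat_lit 4) (nat_lit
  108092) (nat_lit 8) (node (nat_lit 5) (nat_lit 109549) (nat_lit 9) (node (nat_lit 6) (nat_lit
  110654) (nat_lit 10) (node (nat_lit 5) (nat_lit 111630) (nat_lit 11) nil nil) nil) nil) nil))
  (node (nat_lit 4) (nat_lit 112202) (nat_lit 7) (node (nat_lit 5) (nat_lit 113168) (nat_lit 8)
  (node (nat_lit 6) (nat_lit 113836) (nat_lit 9) nil nil) nil) nil)) (node (nat_lit 5) (nat_lit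
  108785) (nat_lit 6) (node (nat_lit 6) (nat_lit 110252) (nat_lit 7) nil (node (nat_lit 4)
  (nat_lit 109343) (nat_lit 7) (node (nat_lit 5) (nat_lit 111218) (nat_lit 8) (node (nat_lit 6)
  (nat_lit 111886) (nat_lit 9) (node (nat_lit 5) (nat_lit 112394) (nat_lit 10) nil nil) nil) nil)
  nil)) (node (nat_lit 4) (nat_lit 110602) (nat_lit 6) nil (node (nat_lit 0) (nat_lit 110396)
  (nat_lit 6) (node (nat_lit 5) (nat_lit 109482) (nat_lit 7) nil nil) (node (nat_lit 2) (nat_lit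
  108546) (nat_lit 6) (node (nat_lit 5) (nat_lit 103746) (nat_lit 7) (node (nat_lit 6) (nat_lit
  104712) (nat_lit 8) nil nil) nil) nil))))) (node (nat_lit 2) (nat_lit 0) (nat_lit 5) (node
  (nat_lit 6) (nat_lit 100443) (nat_lit 6) (node (nat_lit 5) (nat_lit 102645) (nat_lit 7) (node
  (nat_lit 6) (nat_lit 103611) (nat_lit 8) (node (nat_lit 4) (nat_lit 104279) (nat_lit 9) (node
  (nat_lit 5) (nat_lit 104787) (nat_lit 10) (node (nat_lit 6) (nat_lit 101002) (nat_lit 11) (node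
  (nat_lit 5) (nat_lit 99961) (nat_lit 12) (node (nat_lit 8) (nat_lit 55865) (nat_lit 13) nil nil)
  nil) nil) nil) nil) (node (nat_lit 4) (nat_lit 106973) (nat_lit 8) (node (nat_lit 5) (nat_lit
  108430) (nat_lit 9) (node (nat_lit 6) (nat_lit 109536) (nat_lit 10) (node (nat_lit 5) (nat_lit
  110000) (nat_lit 11) nil nil) nil) (node (nat_lit 6) (nat_lit 107108) (nat_lit 9) nil nil))
  nil)) (node (nat_lit 8) (nat_lit 102645) (nat_lit 7) (node (nat_lit 5) (nat_lit 102207) (nat_lit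
  8) (node (nat_lit 8) (nat_lit 100901) (nat_lit 9) (node (nat_lit 6) (nat_lit 101124) (nat_lit
  10) (node (nat_lit 5) (nat_lit 100283) (nat_lit 11) nil nil) nil) nil) nil) (node (nat_lit 4)
  (nat_lit 109868) (nat_lit 7) (node (nat_lit 5) (nat_lit 107262) (nat_lit 8) (node (nat_lit 6)
  (nat_lit 79608) (nat_lit 9) nil nil) nil) nil))) (node (nat_lit 5) (nat_lit 100443) (nat_lit 6)
  (node (nat_lit 6) (nat_lit 102645) (nat_lit 7) (node (nat_lit 8) (nat_lit 102207) (nat_lit 8)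
  (node (nat_lit 6) (nat_lit 102342) (nat_lit 9) nil nil) (node (nat_lit 4) (nat_lit 103611)
  (nat_lit 8) (node (nat_lit 5) (nat_lit 103032) (nat_lit 9) (node (nat_lit 6) (nat_lit 89871)
  (nat_lit 10) (node (nat_lit 5) (nat_lit 71642) (nat_lit 11) nil nil) nil) nil) nil)) (node
  (nat_lit 4) (nat_lit 102858) (nat_lit 7) (node (nat_lit 5) (nat_lit 87935) (nat_lit 8) (node
  (nat_lit 6) (nat_lit 87935) (nat_lit 9) (node (nat_lit 5) (nat_lit 76061) (nat_lit 10) nil nil)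
  nil) (node (nat_lit 6) (nat_lit 103824) (nat_lit 8) nil nil)) nil)) (node (nat_lit 4) (nat_lit
  107914) (nat_lit 6) (node (nat_lit 6) (nat_lit 112385) (nat_lit 7) nil nil) (node (nat_lit 0)
  (nat_lit 108348) (nat_lit 6) (node (nat_lit 5) (nat_lit 109526) (nat_lit 7) nil nil) nil))))
  (node (nat_lit 4) (nat_lit 0) (nat_lit 5) (node (nat_lit 5) (nat_lit 77523) (nat_lit 6) (node
  (nat_lit 6) (nat_lit 57274) (nat_lit 7) nil nil) (node (nat_lit 6) (nat_lit 0) (nat_lit 6) (node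
  (nat_lit 5) (nat_lit 95424) (nat_lit 7) (node (nat_lit 6) (nat_lit 104197) (nat_lit 8) nil nil)
  (node (nat_lit 4) (nat_lit 94893) (nat_lit 7) (node (nat_lit 5) (nat_lit 101954) (nat_lit 8)
  (node (nat_lit 6) (nat_lit 96751) (nat_lit 9) (node (nat_lit 5) (nat_lit 82155) (nat_lit 10) nil
  nil) nil) nil) (node (nat_lit 0) (nat_lit 110742) (nat_lit 7) nil (node (nat_lit 2) (nat_lit
  110252) (nat_lit 7) nil nil)))) (node (nat_lit 0) (nat_lit 106365) (nat_lit 6) (node (nat_lit 6)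
  (nat_lit 112510) (nat_lit 7) (node (nat_lit 4) (nat_lit 114568) (nat_lit 8) (node (nat_lit 5)
  (nat_lit 115251) (nat_lit 9) nil nil) (node (nat_lit 5) (nat_lit 113339) (nat_lit 8) nil nil))
  (node (nat_lit 5) (nat_lit 111115) (nat_lit 7) nil nil)) (node (nat_lit 2) (nat_lit 106068)
  (nat_lit 6) (node (nat_lit 6) (nat_lit 111348) (nat_lit 7) nil (node (nat_lit 5) (nat_lit
  111836) (nat_lit 7) nil nil)) nil)))) nil))) nil))

noncomputable def t111 : Tr :=
  (node (nat_lit 1) (nat_lit 0) (nat_lit 4) (node (nat_lit 6) (nat_lit 0) (nat_lit 5) (node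
  (nat_lit 5) (nat_lit 98795) (nat_lit 6) (node (nat_lit 7) (nat_lit 102093) (nat_lit 7) (node
  (nat_lit 5) (nat_lit 104639) (nat_lit 8) (node (nat_lit 6) (nat_lit 109686) (nat_lit 9) (node
  (nat_lit 7) (nat_lit 111403) (nat_lit 10) (node (nat_lit 5) (nat_lit 111403) (nat_lit 11) (node
  (nat_lit 7) (nat_lit 111252) (nat_lit 12) nil (node (nat_lit 4) (nat_lit 111403) (nat_lit 12)
  (node (nat_lit 5) (nat_lit 111403) (nat_lit 13) (node (nat_lit 6) (nat_lit 110384) (nat_lit 14)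
  nil nil) nil) nil)) (node (nat_lit 4) (nat_lit 108199) (nat_lit 11) (node (nat_lit 5) (nat_lit
  108157) (nat_lit 12) (node (nat_lit 6) (nat_lit 102903) (nat_lit 13) (node (nat_lit 7) (nat_lit
  99305) (nat_lit 14) nil nil) nil) nil) nil)) (node (nat_lit 5) (nat_lit 104457) (nat_lit 10) nil
  nil)) (node (nat_lit 4) (nat_lit 111403) (nat_lit 9) (node (nat_lit 7) (nat_lit 111403) (nat_lit
  10) nil (node (nat_lit 5) (nat_lit 111403) (nat_lit 10) (node (nat_lit 6) (nat_lit 111403)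
  (nat_lit 11) (node (nat_lit 7) (nat_lit 111403) (nat_lit 12) (node (nat_lit 6) (nat_lit 111403)
  (nat_lit 13) nil nil) nil) nil) nil)) nil)) (node (nat_lit 4) (nat_lit 111403) (nat_lit 8) (node
  (nat_lit 5) (nat_lit 111403) (nat_lit 9) (node (nat_lit 6) (nat_lit 88227) (nat_lit 10) (node
  (nat_lit 7) (nat_lit 64223) (nat_lit 11) (node (nat_lit 6) (nat_lit 22571) (nat_lit 12) nil nil)
  (node (nat_lit 5) (nat_lit 86679) (nat_lit 11) nil nil)) nil) nil) nil)) (node (nat_lit 6)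
  (nat_lit 102093) (nat_lit 7) (node (nat_lit 7) (nat_lit 103789) (nat_lit 8) nil nil) (node
  (nat_lit 4) (nat_lit 106982) (nat_lit 7) (node (nat_lit 5) (nat_lit 93708) (nat_lit 8) (node
  (nat_lit 6) (nat_lit 73955) (nat_lit 9) (node (nat_lit 7) (nat_lit 70677) (nat_lit 10) nil (node
  (nat_lit 5) (nat_lit 74588) (nat_lit 10) nil nil)) nil) (node (nat_lit 7) (nat_lit 107977)
  (nat_lit 8) nil nil)) (node (nat_lit 0) (nat_lit 102093) (nat_lit 7) nil nil)))) (node (nat_lit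
  4) (nat_lit 106683) (nat_lit 6) (node (nat_lit 7) (nat_lit 109981) (nat_lit 7) (node (nat_lit 4)
  (nat_lit 111403) (nat_lit 8) (node (nat_lit 5) (nat_lit 111403) (nat_lit 9) (node (nat_lit 6)
  (nat_lit 102512) (nat_lit 10) (node (nat_lit 7) (nat_lit 77751) (nat_lit 11) (node (nat_lit 6)
  (nat_lit 24712) (nat_lit 12) nil nil) nil) nil) nil) (node (nat_lit 5) (nat_lit 111403) (nat_lit
  8) nil nil)) nil) (node (nat_lit 0) (nat_lit 109096) (nat_lit 6) (node (nat_lit 5) (nat_lit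
  110488) (nat_lit 7) nil (node (nat_lit 7) (nat_lit 111403) (nat_lit 7) nil nil)) nil))) (node
  (nat_lit 5) (nat_lit 0) (nat_lit 5) (node (nat_lit 6) (nat_lit 0) (nat_lit 6) (node (nat_lit 5)
  (nat_lit 102103) (nat_lit 7) (node (nat_lit 7) (nat_lit 103799) (nat_lit 8) (node (nat_lit 5)
  (nat_lit 107257) (nat_lit 9) (node (nat_lit 4) (nat_lit 105940) (nat_lit 10) (node (nat_lit 5)
  (nat_lit 104938) (nat_lit 11) (node (nat_lit 6) (nat_lit 102847) (nat_lit 12) (node (nat_lit 7)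
  (nat_lit 103190) (nat_lit 13) (node (nat_lit 5) (nat_lit 102809) (nat_lit 14) nil nil) nil) nil)
  nil) nil) (node (nat_lit 6) (nat_lit 109183) (nat_lit 9) nil (node (nat_lit 4) (nat_lit 105734)
  (nat_lit 9) (node (nat_lit 5) (nat_lit 92956) (nat_lit 10) (node (nat_lit 6) (nat_lit 84763)
  (nat_lit 11) (node (nat_lit 7) (nat_lit 74510) (nat_lit 12) (node (nat_lit 5) (nat_lit 54796)
  (nat_lit 13) nil nil) nil) nil) nil) nil))) (node (nat_lit 4) (nat_lit 110312) (nat_lit 8) (node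
  (nat_lit 5) (nat_lit 92766) (nat_lit 9) (node (nat_lit 6) (nat_lit 74851) (nat_lit 10) (node
  (nat_lit 7) (nat_lit 72356) (nat_lit 11) nil nil) nil) nil) nil)) (node (nat_lit 4) (nat_lit
  111403) (nat_lit 7) (node (nat_lit 7) (nat_lit 111403) (nat_lit 8) (node (nat_lit 4) (nat_lit
  110716) (nat_lit 9) (node (nat_lit 5) (nat_lit 104888) (nat_lit 10) (node (nat_lit 6) (nat_lit
  96223) (nat_lit 11) nil nil) nil) nil) nil) (node (nat_lit 0) (nat_lit 102103) (nat_lit 7) nil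
  nil))) (node (nat_lit 7) (nat_lit 98805) (nat_lit 6) (node (nat_lit 6) (nat_lit 102103) (nat_lit
  7) (node (nat_lit 5) (nat_lit 104273) (nat_lit 8) (node (nat_lit 7) (nat_lit 100557) (nat_lit 9)
  (node (nat_lit 5) (nat_lit 101698) (nat_lit 10) nil nil) nil) nil) (node (nat_lit 4) (nat_lit
  109515) (nat_lit 7) (node (nat_lit 5) (nat_lit 100565) (nat_lit 8) (node (nat_lit 6) (nat_lit
  75326) (nat_lit 9) (node (nat_lit 7) (nat_lit 62588) (nat_lit 10) nil nil) (node (nat_lit 4)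
  (nat_lit 99012) (nat_lit 9) nil nil)) nil) nil)) (node (nat_lit 4) (nat_lit 107968) (nat_lit 6)
  (node (nat_lit 5) (nat_lit 111232) (nat_lit 7) (node (nat_lit 6) (nat_lit 106145) (nat_lit 8)
  nil nil) (node (nat_lit 7) (nat_lit 111403) (nat_lit 7) nil nil)) (node (nat_lit 0) (nat_lit
  109096) (nat_lit 6) nil nil)))) (node (nat_lit 4) (nat_lit 0) (nat_lit 5) (node (nat_lit 5)
  (nat_lit 40289) (nat_lit 6) (node (nat_lit 7) (nat_lit 42444) (nat_lit 7) (node (nat_lit 4)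
  (nat_lit 43886) (nat_lit 8) (node (nat_lit 7) (nat_lit 44916) (nat_lit 9) (node (nat_lit 5)
  (nat_lit 45742) (nat_lit 10) (node (nat_lit 4) (nat_lit 46190) (nat_lit 11) (node (nat_lit 5)
  (nat_lit 46595) (nat_lit 12) nil nil) nil) nil) (node (nat_lit 6) (nat_lit 44916) (nat_lit 9)
  (node (nat_lit 7) (nat_lit 45424) (nat_lit 10) nil nil) nil)) (node (nat_lit 5) (nat_lit 43886)
  (nat_lit 8) (node (nat_lit 4) (nat_lit 44916) (nat_lit 9) (node (nat_lit 5) (nat_lit 45424)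
  (nat_lit 10) (node (nat_lit 6) (nat_lit 44136) (nat_lit 11) nil nil) (node (nat_lit 7) (nat_lit
  45742) (nat_lit 10) nil nil)) (node (nat_lit 6) (nat_lit 44916) (nat_lit 9) (node (nat_lit 7)
  (nat_lit 45424) (nat_lit 10) (node (nat_lit 4) (nat_lit 45871) (nat_lit 11) nil nil) nil) nil))
  (node (nat_lit 6) (nat_lit 43886) (nat_lit 8) (node (nat_lit 7) (nat_lit 44916) (nat_lit 9)
  (node (nat_lit 5) (nat_lit 45424) (nat_lit 10) nil (node (nat_lit 4) (nat_lit 45424) (nat_lit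
  10) nil nil)) (node (nat_lit 5) (nat_lit 44916) (nat_lit 9) nil nil)) (node (nat_lit 0) (nat_lit
  43886) (nat_lit 8) nil nil)))) (node (nat_lit 4) (nat_lit 42444) (nat_lit 7) (node (nat_lit 7)
  (nat_lit 43886) (nat_lit 8) (node (nat_lit 5) (nat_lit 44916) (nat_lit 9) (node (nat_lit 6)
  (nat_lit 43298) (nat_lit 10) (node (nat_lit 7) (nat_lit 43746) (nat_lit 11) (node (nat_lit 4)
  (nat_lit 44151) (nat_lit 12) nil nil) nil) (node (nat_lit 7) (nat_lit 45742) (nat_lit 10) (node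
  (nat_lit 4) (nat_lit 46479) (nat_lit 11) nil nil) (node (nat_lit 4) (nat_lit 45424) (nat_lit 10)
  nil nil))) (node (nat_lit 4) (nat_lit 44916) (nat_lit 9) (node (nat_lit 5) (nat_lit 45742)
  (nat_lit 10) (node (nat_lit 6) (nat_lit 44455) (nat_lit 11) nil nil) nil) (node (nat_lit 6)
  (nat_lit 44916) (nat_lit 9) (node (nat_lit 7) (nat_lit 45424) (nat_lit 10) nil nil) nil))) (node
  (nat_lit 6) (nat_lit 43886) (nat_lit 8) (node (nat_lit 5) (nat_lit 44916) (nat_lit 9) (node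
  (nat_lit 7) (nat_lit 45424) (nat_lit 10) (node (nat_lit 4) (nat_lit 45871) (nat_lit 11) (node
  (nat_lit 5) (nat_lit 46277) (nat_lit 12) nil nil) nil) nil) (node (nat_lit 7) (nat_lit 43482)
  (nat_lit 9) nil nil)) nil)) (node (nat_lit 0) (nat_lit 42444) (nat_lit 7) (node (nat_lit 5)
  (nat_lit 43886) (nat_lit 8) nil (node (nat_lit 7) (nat_lit 42104) (nat_lit 8) nil nil)) nil)))
  (node (nat_lit 6) (nat_lit 89425) (nat_lit 6) (node (nat_lit 4) (nat_lit 95336) (nat_lit 7)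
  (node (nat_lit 7) (nat_lit 98880) (nat_lit 8) (node (nat_lit 4) (nat_lit 101072) (nat_lit 9)
  (node (nat_lit 5) (nat_lit 101738) (nat_lit 10) (node (nat_lit 6) (nat_lit 80707) (nat_lit 11)
  (node (nat_lit 7) (nat_lit 70453) (nat_lit 12) (node (nat_lit 4) (nat_lit 52590) (nat_lit 13)
  nil nil) nil) nil) nil) nil) nil) (node (nat_lit 5) (nat_lit 95336) (nat_lit 7) (node (nat_lit
  7) (nat_lit 97982) (nat_lit 8) (node (nat_lit 5) (nat_lit 99482) (nat_lit 9) nil nil) nil) (node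
  (nat_lit 7) (nat_lit 93216) (nat_lit 7) (node (nat_lit 6) (nat_lit 93379) (nat_lit 8) nil nil)
  nil))) (node (nat_lit 7) (nat_lit 89602) (nat_lit 6) (node (nat_lit 5) (nat_lit 95513) (nat_lit
  7) (node (nat_lit 4) (nat_lit 96387) (nat_lit 8) nil nil) (node (nat_lit 6) (nat_lit 95513)
  (nat_lit 7) nil nil)) (node (nat_lit 0) (nat_lit 89602) (nat_lit 6) nil nil)))) (node (nat_lit
  0) (nat_lit 104119) (nat_lit 5) (node (nat_lit 5) (nat_lit 108680) (nat_lit 6) nil (node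
  (nat_lit 7) (nat_lit 108680) (nat_lit 6) (node (nat_lit 5) (nat_lit 109322) (nat_lit 7) nil nil)
  nil)) nil)))) (node (nat_lit 4) (nat_lit 0) (nat_lit 4) (node (nat_lit 6) (nat_lit 0) (nat_lit
  5) (node (nat_lit 5) (nat_lit 85392) (nat_lit 6) (node (nat_lit 4) (nat_lit 85641) (nat_lit 7)
  (node (nat_lit 5) (nat_lit 101516) (nat_lit 8) (node (nat_lit 6) (nat_lit 91624) (nat_lit 9)
  (node (nat_lit 4) (nat_lit 75909) (nat_lit 10) (node (nat_lit 5) (nat_lit 76467) (nat_lit 11)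
  (node (nat_lit 4) (nat_lit 76972) (nat_lit 12) (node (nat_lit 6) (nat_lit 77383) (nat_lit 13)
  (node (nat_lit 4) (nat_lit 77702) (nat_lit 14) nil nil) nil) nil) (node (nat_lit 6) (nat_lit
  74460) (nat_lit 11) nil (node (nat_lit 1) (nat_lit 73159) (nat_lit 11) nil nil))) (node (nat_lit
  5) (nat_lit 94128) (nat_lit 10) (node (nat_lit 4) (nat_lit 95718) (nat_lit 11) (node (nat_lit 6)
  (nat_lit 95718) (nat_lit 12) nil nil) (node (nat_lit 1) (nat_lit 95579) (nat_lit 11) nil nil))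
  (node (nat_lit 1) (nat_lit 92791) (nat_lit 10) nil (node (nat_lit 0) (nat_lit 94128) (nat_lit
  10) nil nil)))) (node (nat_lit 1) (nat_lit 101516) (nat_lit 9) (node (nat_lit 4) (nat_lit
  101516) (nat_lit 10) (node (nat_lit 5) (nat_lit 100366) (nat_lit 11) (node (nat_lit 6) (nat_lit
  93480) (nat_lit 12) (node (nat_lit 4) (nat_lit 87730) (nat_lit 13) (node (nat_lit 6) (nat_lit
  75976) (nat_lit 14) (node (nat_lit 5) (nat_lit 52896) (nat_lit 15) nil nil) nil) nil) nil) nil)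
  nil) nil)) (node (nat_lit 1) (nat_lit 104547) (nat_lit 8) (node (nat_lit 5) (nat_lit 104547)
  (nat_lit 9) (node (nat_lit 4) (nat_lit 104547) (nat_lit 10) (node (nat_lit 5) (nat_lit 104547)
  (nat_lit 11) nil nil) nil) (node (nat_lit 4) (nat_lit 103992) (nat_lit 9) (node (nat_lit 5)
  (nat_lit 101091) (nat_lit 10) (node (nat_lit 6) (nat_lit 98850) (nat_lit 11) (node (nat_lit 4)
  (nat_lit 87005) (nat_lit 12) (node (nat_lit 6) (nat_lit 69126) (nat_lit 13) (node (nat_lit 5)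
  (nat_lit 48425) (nat_lit 14) nil nil) nil) nil) nil) nil) nil)) (node (nat_lit 6) (nat_lit
  102516) (nat_lit 8) (node (nat_lit 4) (nat_lit 104547) (nat_lit 9) (node (nat_lit 5) (nat_lit
  104547) (nat_lit 10) (node (nat_lit 6) (nat_lit 104547) (nat_lit 11) (node (nat_lit 5) (nat_lit
  104547) (nat_lit 12) (node (nat_lit 4) (nat_lit 104547) (nat_lit 13) (node (nat_lit 5) (nat_lit
  104547) (nat_lit 14) (node (nat_lit 6) (nat_lit 104547) (nat_lit 15) (node (nat_lit 4) (nat_lit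
  104547) (nat_lit 16) (node (nat_lit 6) (nat_lit 104145) (nat_lit 17) (node (nat_lit 5) (nat_lit
  100504) (nat_lit 18) (node (nat_lit 4) (nat_lit 92312) (nat_lit 19) (node (nat_lit 6) (nat_lit
  82811) (nat_lit 20) (node (nat_lit 4) (nat_lit 72030) (nat_lit 21) (node (nat_lit 5) (nat_lit
  71942) (nat_lit 22) (node (nat_lit 6) (nat_lit 71873) (nat_lit 23) nil nil) nil) nil) nil) nil)
  nil) nil) nil) nil) nil) nil) nil) nil) nil) nil) (node (nat_lit 0) (nat_lit 104547) (nat_lit 8)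
  (node (nat_lit 5) (nat_lit 104547) (nat_lit 9) nil nil) nil)))) (node (nat_lit 6) (nat_lit
  85550) (nat_lit 7) (node (nat_lit 4) (nat_lit 102327) (nat_lit 8) (node (nat_lit 5) (nat_lit
  104547) (nat_lit 9) (node (nat_lit 6) (nat_lit 104547) (nat_lit 10) (node (nat_lit 5) (nat_lit
  103706) (nat_lit 11) nil nil) nil) (node (nat_lit 1) (nat_lit 104547) (nat_lit 9) nil nil))
  (node (nat_lit 1) (nat_lit 104547) (nat_lit 8) (node (nat_lit 4) (nat_lit 100795) (nat_lit 9)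
  (node (nat_lit 5) (nat_lit 97038) (nat_lit 10) (node (nat_lit 6) (nat_lit 90041) (nat_lit 11)
  (node (nat_lit 4) (nat_lit 84208) (nat_lit 12) (node (nat_lit 6) (nat_lit 50030) (nat_lit 13)
  (node (nat_lit 5) (nat_lit 33225) (nat_lit 14) nil nil) nil) nil) nil) nil) nil) (node (nat_lit
  0) (nat_lit 104547) (nat_lit 8) nil nil))) (node (nat_lit 1) (nat_lit 104547) (nat_lit 7) (node
  (nat_lit 5) (nat_lit 104547) (nat_lit 8) (node (nat_lit 6) (nat_lit 104547) (nat_lit 9) (node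
  (nat_lit 5) (nat_lit 104547) (nat_lit 10) nil (node (nat_lit 10) (nat_lit 104547) (nat_lit 10)
  nil nil)) (node (nat_lit 4) (nat_lit 104547) (nat_lit 9) (node (nat_lit 5) (nat_lit 104547)
  (nat_lit 10) nil nil) nil)) (node (nat_lit 4) (nat_lit 104547) (nat_lit 8) (node (nat_lit 5)
  (nat_lit 104547) (nat_lit 9) (node (nat_lit 6) (nat_lit 76911) (nat_lit 10) (node (nat_lit 4)
  (nat_lit 50473) (nat_lit 11) nil nil) nil) nil) nil)) (node (nat_lit 0) (nat_lit 104547)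
  (nat_lit 7) (node (nat_lit 5) (nat_lit 104547) (nat_lit 8) nil nil) nil)))) (node (nat_lit 1)
  (nat_lit 104547) (nat_lit 6) (node (nat_lit 4) (nat_lit 104547) (nat_lit 7) (node (nat_lit 5)
  (nat_lit 104547) (nat_lit 8) (node (nat_lit 6) (nat_lit 86764) (nat_lit 9) (node (nat_lit 4)
  (nat_lit 38396) (nat_lit 10) nil nil) nil) nil) (node (nat_lit 5) (nat_lit 104547) (nat_lit 7)
  (node (nat_lit 4) (nat_lit 104547) (nat_lit 8) (node (nat_lit 5) (nat_lit 104547) (nat_lit 9)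
  nil nil) nil) nil)) (node (nat_lit 0) (nat_lit 104547) (nat_lit 6) (node (nat_lit 5) (nat_lit
  104547) (nat_lit 7) nil nil) nil))) (node (nat_lit 1) (nat_lit 0) (nat_lit 5) (node (nat_lit 5)
  (nat_lit 108338) (nat_lit 6) (node (nat_lit 4) (nat_lit 111403) (nat_lit 7) (node (nat_lit 5)
  (nat_lit 111403) (nat_lit 8) (node (nat_lit 6) (nat_lit 109616) (nat_lit 9) (node (nat_lit 4)
  (nat_lit 108299) (nat_lit 10) nil nil) nil) nil) (node (nat_lit 8) (nat_lit 111403) (nat_lit 7)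
  (node (nat_lit 4) (nat_lit 111403) (nat_lit 8) (node (nat_lit 5) (nat_lit 111403) (nat_lit 9)
  (node (nat_lit 6) (nat_lit 103360) (nat_lit 10) (node (nat_lit 4) (nat_lit 86908) (nat_lit 11)
  (node (nat_lit 8) (nat_lit 27300) (nat_lit 12) nil nil) nil) nil) nil) (node (nat_lit 6)
  (nat_lit 110426) (nat_lit 8) (node (nat_lit 5) (nat_lit 110588) (nat_lit 9) (node (nat_lit 4)
  (nat_lit 106982) (nat_lit 10) nil nil) nil) nil)) nil)) (node (nat_lit 6) (nat_lit 108338)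
  (nat_lit 6) (node (nat_lit 8) (nat_lit 111403) (nat_lit 7) (node (nat_lit 4) (nat_lit 111403)
  (nat_lit 8) (node (nat_lit 5) (nat_lit 111403) (nat_lit 9) (node (nat_lit 6) (nat_lit 96742)
  (nat_lit 10) (node (nat_lit 4) (nat_lit 83854) (nat_lit 11) (node (nat_lit 8) (nat_lit 24644)
  (nat_lit 12) nil nil) nil) nil) nil) nil) (node (nat_lit 5) (nat_lit 111403) (nat_lit 7) (node
  (nat_lit 4) (nat_lit 111194) (nat_lit 8) (node (nat_lit 5) (nat_lit 104048) (nat_lit 9) (node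
  (nat_lit 6) (nat_lit 89043) (nat_lit 10) (node (nat_lit 4) (nat_lit 76467) (nat_lit 11) (node
  (nat_lit 8) (nat_lit 74746) (nat_lit 12) nil nil) nil) nil) (node (nat_lit 8) (nat_lit 111403)
  (nat_lit 9) (node (nat_lit 5) (nat_lit 110307) (nat_lit 10) nil nil) nil)) (node (nat_lit 8)
  (nat_lit 111403) (nat_lit 8) nil nil)) (node (nat_lit 4) (nat_lit 110669) (nat_lit 7) (node
  (nat_lit 6) (nat_lit 109459) (nat_lit 8) (node (nat_lit 8) (nat_lit 106240) (nat_lit 9) (node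
  (nat_lit 4) (nat_lit 105093) (nat_lit 10) nil nil) nil) nil) nil))) (node (nat_lit 4) (nat_lit
  108338) (nat_lit 6) (node (nat_lit 5) (nat_lit 94602) (nat_lit 7) (node (nat_lit 8) (nat_lit
  97745) (nat_lit 8) (node (nat_lit 5) (nat_lit 99246) (nat_lit 9) nil nil) (node (nat_lit 6)
  (nat_lit 70512) (nat_lit 8) nil nil)) (node (nat_lit 6) (nat_lit 109354) (nat_lit 7) (node
  (nat_lit 5) (nat_lit 104107) (nat_lit 8) nil (node (nat_lit 8) (nat_lit 108018) (nat_lit 8)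
  (node (nat_lit 4) (nat_lit 106248) (nat_lit 9) nil nil) nil)) nil)) (node (nat_lit 0) (nat_lit
  108338) (nat_lit 6) (node (nat_lit 8) (nat_lit 111403) (nat_lit 7) nil (node (nat_lit 5)
  (nat_lit 111403) (nat_lit 7) nil nil)) nil)))) (node (nat_lit 5) (nat_lit 0) (nat_lit 5) (node
  (nat_lit 4) (nat_lit 85251) (nat_lit 6) (node (nat_lit 6) (nat_lit 85286) (nat_lit 7) (node
  (nat_lit 5) (nat_lit 100058) (nat_lit 8) (node (nat_lit 4) (nat_lit 104547) (nat_lit 9) (node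
  (nat_lit 5) (nat_lit 103194) (nat_lit 10) (node (nat_lit 6) (nat_lit 101516) (nat_lit 11) (node
  (nat_lit 4) (nat_lit 94278) (nat_lit 12) (node (nat_lit 5) (nat_lit 77383) (nat_lit 13) (node
  (nat_lit 4) (nat_lit 77702) (nat_lit 14) (node (nat_lit 6) (nat_lit 77209) (nat_lit 15) nil nil)
  nil) nil) nil) nil) nil) (node (nat_lit 6) (nat_lit 106982) (nat_lit 9) nil nil)) (node (nat_lit
  4) (nat_lit 97345) (nat_lit 8) (node (nat_lit 1) (nat_lit 105176) (nat_lit 9) (node (nat_lit 4)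
  (nat_lit 99007) (nat_lit 10) nil (node (nat_lit 5) (nat_lit 105176) (nat_lit 10) nil nil)) (node
  (nat_lit 5) (nat_lit 95335) (nat_lit 9) nil (node (nat_lit 0) (nat_lit 101813) (nat_lit 9) nil
  nil))) (node (nat_lit 1) (nat_lit 106982) (nat_lit 8) (node (nat_lit 4) (nat_lit 101676)
  (nat_lit 9) (node (nat_lit 5) (nat_lit 100604) (nat_lit 10) (node (nat_lit 6) (nat_lit 98933)
  (nat_lit 11) (node (nat_lit 4) (nat_lit 86694) (nat_lit 12) nil nil) nil) nil) nil) (node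
  (nat_lit 0) (nat_lit 100894) (nat_lit 8) nil nil)))) (node (nat_lit 1) (nat_lit 108264) (nat_lit
  7) (node (nat_lit 5) (nat_lit 108264) (nat_lit 8) (node (nat_lit 4) (nat_lit 108264) (nat_lit 9)
  nil nil) (node (nat_lit 4) (nat_lit 103891) (nat_lit 8) (node (nat_lit 5) (nat_lit 101841)
  (nat_lit 9) nil nil) nil)) (node (nat_lit 0) (nat_lit 108264) (nat_lit 7) nil nil))) (node
  (nat_lit 1) (nat_lit 105062) (nat_lit 6) (node (nat_lit 5) (nat_lit 108264) (nat_lit 7) (node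
  (nat_lit 4) (nat_lit 108264) (nat_lit 8) (node (nat_lit 5) (nat_lit 107072) (nat_lit 9) nil nil)
  nil) (node (nat_lit 4) (nat_lit 97378) (nat_lit 7) (node (nat_lit 5) (nat_lit 93172) (nat_lit 8)
  (node (nat_lit 6) (nat_lit 81816) (nat_lit 9) (node (nat_lit 4) (nat_lit 33998) (nat_lit 10) nil
  nil) nil) (node (nat_lit 9) (nat_lit 97997) (nat_lit 8) (node (nat_lit 5) (nat_lit 97997)
  (nat_lit 9) nil nil) nil)) (node (nat_lit 6) (nat_lit 108264) (nat_lit 7) (node (nat_lit 5)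
  (nat_lit 106140) (nat_lit 8) nil nil) nil))) (node (nat_lit 0) (nat_lit 101734) (nat_lit 6)
  (node (nat_lit 5) (nat_lit 105930) (nat_lit 7) (node (nat_lit 4) (nat_lit 105281) (nat_lit 8)
  nil nil) nil) nil))) (node (nat_lit 0) (nat_lit 0) (nat_lit 5) (node (nat_lit 5) (nat_lit
  108338) (nat_lit 6) (node (nat_lit 4) (nat_lit 111403) (nat_lit 7) (node (nat_lit 5) (nat_lit
  109896) (nat_lit 8) nil nil) nil) (node (nat_lit 4) (nat_lit 108338) (nat_lit 6) nil (node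
  (nat_lit 1) (nat_lit 108338) (nat_lit 6) (node (nat_lit 4) (nat_lit 111403) (nat_lit 7) nil nil)
  (node (nat_lit 6) (nat_lit 108338) (nat_lit 6) nil (node (nat_lit 0) (nat_lit 108338) (nat_lit
  6) nil nil))))) nil)))) (node (nat_lit 5) (nat_lit 0) (nat_lit 4) (node (nat_lit 1) (nat_lit 0)
  (nat_lit 5) (node (nat_lit 5) (nat_lit 98639) (nat_lit 6) (node (nat_lit 6) (nat_lit 101906)
  (nat_lit 7) (node (nat_lit 8) (nat_lit 104077) (nat_lit 8) (node (nat_lit 5) (nat_lit 102524)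
  (nat_lit 9) nil nil) (node (nat_lit 5) (nat_lit 104077) (nat_lit 8) (node (nat_lit 4) (nat_lit
  98786) (nat_lit 9) (node (nat_lit 5) (nat_lit 84526) (nat_lit 10) nil nil) nil) nil)) (node
  (nat_lit 4) (nat_lit 107995) (nat_lit 7) (node (nat_lit 5) (nat_lit 106255) (nat_lit 8) (node
  (nat_lit 6) (nat_lit 102064) (nat_lit 9) (node (nat_lit 5) (nat_lit 99740) (nat_lit 10) nil nil)
  nil) nil) nil)) (node (nat_lit 6) (nat_lit 98608) (nat_lit 6) (node (nat_lit 8) (nat_lit 101987)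
  (nat_lit 7) (node (nat_lit 5) (nat_lit 100246) (nat_lit 8) nil nil) (node (nat_lit 5) (nat_lit
  101906) (nat_lit 7) (node (nat_lit 4) (nat_lit 87475) (nat_lit 8) nil nil) (node (nat_lit 4)
  (nat_lit 96689) (nat_lit 7) nil nil))) (node (nat_lit 4) (nat_lit 98433) (nat_lit 6) (node
  (nat_lit 5) (nat_lit 83641) (nat_lit 7) (node (nat_lit 8) (nat_lit 88575) (nat_lit 8) (node
  (nat_lit 5) (nat_lit 88575) (nat_lit 9) (node (nat_lit 4) (nat_lit 87632) (nat_lit 10) (node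
  (nat_lit 5) (nat_lit 86833) (nat_lit 11) (node (nat_lit 6) (nat_lit 85173) (nat_lit 12) (node
  (nat_lit 5) (nat_lit 84409) (nat_lit 13) (node (nat_lit 8) (nat_lit 85049) (nat_lit 14) (node
  (nat_lit 4) (nat_lit 84894) (nat_lit 15) nil nil) nil) nil) nil) nil) nil) nil) (node (nat_lit
  6) (nat_lit 60484) (nat_lit 8) (node (nat_lit 8) (nat_lit 61985) (nat_lit 9) nil nil) nil))
  (node (nat_lit 8) (nat_lit 101731) (nat_lit 7) nil nil)) (node (nat_lit 0) (nat_lit 98582)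
  (nat_lit 6) nil nil)))) (node (nat_lit 4) (nat_lit 0) (nat_lit 5) (node (nat_lit 5) (nat_lit
  71408) (nat_lit 6) (node (nat_lit 6) (nat_lit 73238) (nat_lit 7) nil (node (nat_lit 1) (nat_lit
  73238) (nat_lit 7) (node (nat_lit 4) (nat_lit 74443) (nat_lit 8) nil (node (nat_lit 5) (nat_lit
  74443) (nat_lit 8) (node (nat_lit 4) (nat_lit 72223) (nat_lit 9) nil nil) nil)) (node (nat_lit
  0) (nat_lit 73238) (nat_lit 7) nil nil))) (node (nat_lit 1) (nat_lit 96662) (nat_lit 6) (node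
  (nat_lit 5) (nat_lit 104576) (nat_lit 7) (node (nat_lit 4) (nat_lit 106074) (nat_lit 8) (node
  (nat_lit 5) (nat_lit 106301) (nat_lit 9) (node (nat_lit 6) (nat_lit 102858) (nat_lit 10) (node
  (nat_lit 5) (nat_lit 101137) (nat_lit 11) nil nil) nil) nil) nil) (node (nat_lit 4) (nat_lit
  96824) (nat_lit 7) (node (nat_lit 5) (nat_lit 95121) (nat_lit 8) (node (nat_lit 6) (nat_lit
  74856) (nat_lit 9) (node (nat_lit 5) (nat_lit 49629) (nat_lit 10) nil nil) nil) nil) nil)) (node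
  (nat_lit 6) (nat_lit 85714) (nat_lit 6) (node (nat_lit 4) (nat_lit 85841) (nat_lit 7) (node
  (nat_lit 5) (nat_lit 102986) (nat_lit 8) (node (nat_lit 4) (nat_lit 103749) (nat_lit 9) nil nil)
  (node (nat_lit 1) (nat_lit 95528) (nat_lit 8) nil (node (nat_lit 0) (nat_lit 102438) (nat_lit 8)
  nil nil))) (node (nat_lit 5) (nat_lit 85861) (nat_lit 7) (node (nat_lit 1) (nat_lit 105022)
  (nat_lit 8) nil (node (nat_lit 6) (nat_lit 102656) (nat_lit 8) nil (node (nat_lit 0) (nat_lit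
  101469) (nat_lit 8) nil nil))) (node (nat_lit 1) (nat_lit 102321) (nat_lit 7) nil (node (nat_lit
  0) (nat_lit 103472) (nat_lit 7) nil nil)))) (node (nat_lit 0) (nat_lit 98840) (nat_lit 6) nil
  nil)))) (node (nat_lit 0) (nat_lit 99628) (nat_lit 5) (node (nat_lit 5) (nat_lit 106562)
  (nat_lit 6) (node (nat_lit 4) (nat_lit 107562) (nat_lit 7) (node (nat_lit 5) (nat_lit 106291)
  (nat_lit 8) nil nil) nil) (node (nat_lit 1) (nat_lit 106562) (nat_lit 6) nil (node (nat_lit 4)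
  (nat_lit 102933) (nat_lit 6) nil (node (nat_lit 6) (nat_lit 106562) (nat_lit 6) nil nil))))
  nil))) (node (nat_lit 0) (nat_lit 0) (nat_lit 4) (node (nat_lit 6) (nat_lit 106089) (nat_lit 5)
  (node (nat_lit 5) (nat_lit 110523) (nat_lit 6) (node (nat_lit 7) (nat_lit 111403) (nat_lit 7)
  (node (nat_lit 5) (nat_lit 111403) (nat_lit 8) nil nil) (node (nat_lit 4) (nat_lit 105477)
  (nat_lit 7) (node (nat_lit 5) (nat_lit 84141) (nat_lit 8) (node (nat_lit 6) (nat_lit 63095)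
  (nat_lit 9) nil nil) nil) nil)) (node (nat_lit 4) (nat_lit 110651) (nat_lit 6) nil (node
  (nat_lit 1) (nat_lit 105121) (nat_lit 6) nil nil))) (node (nat_lit 5) (nat_lit 106089) (nat_lit
  5) (node (nat_lit 4) (nat_lit 108654) (nat_lit 6) (node (nat_lit 5) (nat_lit 106735) (nat_lit 7)
  (node (nat_lit 6) (nat_lit 101613) (nat_lit 8) (node (nat_lit 7) (nat_lit 66148) (nat_lit 9) nil
  nil) nil) nil) (node (nat_lit 7) (nat_lit 110533) (nat_lit 6) nil (node (nat_lit 6) (nat_lit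
  110533) (nat_lit 6) (node (nat_lit 5) (nat_lit 111403) (nat_lit 7) nil nil) nil))) (node
  (nat_lit 4) (nat_lit 106089) (nat_lit 5) (node (nat_lit 5) (nat_lit 110651) (nat_lit 6) nil nil)
  (node (nat_lit 1) (nat_lit 106089) (nat_lit 5) (node (nat_lit 4) (nat_lit 110651) (nat_lit 6)
  (node (nat_lit 5) (nat_lit 111403) (nat_lit 7) nil nil) (node (nat_lit 5) (nat_lit 108654)
  (nat_lit 6) (node (nat_lit 8) (nat_lit 102056) (nat_lit 7) nil nil) nil)) (node (nat_lit 0)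
  (nat_lit 106089) (nat_lit 5) (node (nat_lit 5) (nat_lit 110651) (nat_lit 6) nil nil) nil)))))
  nil))))

noncomputable def t112 : Tr :=
  (node (nat_lit 4) (nat_lit 0) (nat_lit 3) (node (nat_lit 0) (nat_lit 0) (nat_lit 4) (node
  (nat_lit 4) (nat_lit 69463) (nat_lit 5) (node (nat_lit 1) (nat_lit 72048) (nat_lit 6) nil (node
  (nat_lit 5) (nat_lit 72048) (nat_lit 6) (node (nat_lit 1) (nat_lit 73718) (nat_lit 7) (node
  (nat_lit 4) (nat_lit 61282) (nat_lit 8) nil nil) nil) nil)) (node (nat_lit 5) (nat_lit 69463)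
  (nat_lit 5) nil (node (nat_lit 1) (nat_lit 69463) (nat_lit 5) (node (nat_lit 4) (nat_lit 72048)
  (nat_lit 6) (node (nat_lit 5) (nat_lit 73718) (nat_lit 7) nil nil) nil) (node (nat_lit 0)
  (nat_lit 69463) (nat_lit 5) nil (node (nat_lit 2) (nat_lit 69463) (nat_lit 5) nil nil))))) (node
  (nat_lit 1) (nat_lit 0) (nat_lit 4) (node (nat_lit 5) (nat_lit 0) (nat_lit 5) (node (nat_lit 7)
  (nat_lit 0) (nat_lit 6) (node (nat_lit 4) (nat_lit 58483) (nat_lit 7) (node (nat_lit 5) (nat_lit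
  59362) (nat_lit 8) (node (nat_lit 4) (nat_lit 57397) (nat_lit 9) nil nil) nil) (node (nat_lit 0)
  (nat_lit 68354) (nat_lit 7) nil (node (nat_lit 2) (nat_lit 68354) (nat_lit 7) nil nil))) (node
  (nat_lit 0) (nat_lit 64564) (nat_lit 6) nil (node (nat_lit 2) (nat_lit 64564) (nat_lit 6) nil
  (node (nat_lit 4) (nat_lit 0) (nat_lit 6) (node (nat_lit 0) (nat_lit 61007) (nat_lit 7) nil
  (node (nat_lit 5) (nat_lit 57462) (nat_lit 7) (node (nat_lit 7) (nat_lit 62930) (nat_lit 8)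
  (node (nat_lit 4) (nat_lit 64309) (nat_lit 9) nil nil) nil) (node (nat_lit 2) (nat_lit 66324)
  (nat_lit 7) nil nil))) nil)))) (node (nat_lit 0) (nat_lit 69463) (nat_lit 5) (node (nat_lit 4)
  (nat_lit 72048) (nat_lit 6) nil (node (nat_lit 5) (nat_lit 72048) (nat_lit 6) nil (node (nat_lit
  7) (nat_lit 72048) (nat_lit 6) (node (nat_lit 4) (nat_lit 73718) (nat_lit 7) nil nil) nil)))
  (node (nat_lit 2) (nat_lit 0) (nat_lit 5) (node (nat_lit 4) (nat_lit 72048) (nat_lit 6) (node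
  (nat_lit 7) (nat_lit 73718) (nat_lit 7) (node (nat_lit 4) (nat_lit 74816) (nat_lit 8) (node
  (nat_lit 5) (nat_lit 71457) (nat_lit 9) (node (nat_lit 4) (nat_lit 40865) (nat_lit 10) (node
  (nat_lit 7) (nat_lit 25928) (nat_lit 11) nil nil) nil) nil) nil) nil) (node (nat_lit 5) (nat_lit
  72048) (nat_lit 6) (node (nat_lit 7) (nat_lit 73718) (nat_lit 7) nil nil) (node (nat_lit 7)
  (nat_lit 72048) (nat_lit 6) (node (nat_lit 4) (nat_lit 72996) (nat_lit 7) (node (nat_lit 5)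
  (nat_lit 64068) (nat_lit 8) (node (nat_lit 4) (nat_lit 52178) (nat_lit 9) nil nil) nil) nil)
  (node (nat_lit 0) (nat_lit 72048) (nat_lit 6) nil nil)))) (node (nat_lit 4) (nat_lit 0) (nat_lit
  5) (node (nat_lit 5) (nat_lit 42891) (nat_lit 6) nil (node (nat_lit 0) (nat_lit 61728) (nat_lit
  6) (node (nat_lit 5) (nat_lit 65517) (nat_lit 7) nil (node (nat_lit 7) (nat_lit 65517) (nat_lit
  7) nil nil)) (node (nat_lit 2) (nat_lit 61728) (nat_lit 6) (node (nat_lit 5) (nat_lit 65517)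
  (nat_lit 7) nil (node (nat_lit 7) (nat_lit 65517) (nat_lit 7) (node (nat_lit 4) (nat_lit 67929)
  (nat_lit 8) nil nil) nil)) nil))) nil)))) (node (nat_lit 2) (nat_lit 0) (nat_lit 4) (node
  (nat_lit 4) (nat_lit 69463) (nat_lit 5) (node (nat_lit 1) (nat_lit 72048) (nat_lit 6) (node
  (nat_lit 5) (nat_lit 73718) (nat_lit 7) nil (node (nat_lit 4) (nat_lit 73718) (nat_lit 7) (node
  (nat_lit 5) (nat_lit 74816) (nat_lit 8) nil nil) nil)) (node (nat_lit 5) (nat_lit 72048)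
  (nat_lit 6) (node (nat_lit 1) (nat_lit 73718) (nat_lit 7) nil nil) nil)) (node (nat_lit 5)
  (nat_lit 69463) (nat_lit 5) (node (nat_lit 7) (nat_lit 72048) (nat_lit 6) nil (node (nat_lit 4)
  (nat_lit 72048) (nat_lit 6) nil (node (nat_lit 1) (nat_lit 72048) (nat_lit 6) (node (nat_lit 4)
  (nat_lit 73718) (nat_lit 7) (node (nat_lit 5) (nat_lit 68417) (nat_lit 8) nil nil) nil) nil)))
  (node (nat_lit 1) (nat_lit 69463) (nat_lit 5) (node (nat_lit 4) (nat_lit 65718) (nat_lit 6)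
  (node (nat_lit 5) (nat_lit 55484) (nat_lit 7) nil nil) nil) (node (nat_lit 0) (nat_lit 69463)
  (nat_lit 5) nil nil)))) nil))) (node (nat_lit 0) (nat_lit 0) (nat_lit 3) (node (nat_lit 1)
  (nat_lit 0) (nat_lit 4) (node (nat_lit 6) (nat_lit 0) (nat_lit 5) (node (nat_lit 5) (nat_lit
  111697) (nat_lit 6) (node (nat_lit 7) (nat_lit 113400) (nat_lit 7) (node (nat_lit 5) (nat_lit
  115571) (nat_lit 8) nil (node (nat_lit 4) (nat_lit 115571) (nat_lit 8) (node (nat_lit 5)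
  (nat_lit 113058) (nat_lit 9) (node (nat_lit 6) (nat_lit 85214) (nat_lit 10) (node (nat_lit 7)
  (nat_lit 69926) (nat_lit 11) nil (node (nat_lit 5) (nat_lit 84212) (nat_lit 11) nil nil)) nil)
  nil) nil)) (node (nat_lit 6) (nat_lit 115683) (nat_lit 7) nil (node (nat_lit 4) (nat_lit 114995)
  (nat_lit 7) (node (nat_lit 5) (nat_lit 113254) (nat_lit 8) (node (nat_lit 6) (nat_lit 114755)
  (nat_lit 9) (node (nat_lit 7) (nat_lit 115896) (nat_lit 10) nil nil) nil) nil) nil))) (node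
  (nat_lit 4) (nat_lit 111697) (nat_lit 6) (node (nat_lit 7) (nat_lit 115683) (nat_lit 7) (node
  (nat_lit 4) (nat_lit 117676) (nat_lit 8) (node (nat_lit 5) (nat_lit 112442) (nat_lit 9) (node
  (nat_lit 6) (nat_lit 100853) (nat_lit 10) (node (nat_lit 7) (nat_lit 86761) (nat_lit 11) (node
  (nat_lit 6) (nat_lit 54370) (nat_lit 12) nil nil) nil) nil) nil) (node (nat_lit 5) (nat_lit
  113943) (nat_lit 8) (node (nat_lit 4) (nat_lit 112390) (nat_lit 9) (node (nat_lit 5) (nat_lit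
  111073) (nat_lit 10) (node (nat_lit 6) (nat_lit 112078) (nat_lit 11) nil nil) nil) nil) nil))
  nil) (node (nat_lit 0) (nat_lit 110651) (nat_lit 6) nil (node (nat_lit 2) (nat_lit 97586)
  (nat_lit 6) nil nil)))) (node (nat_lit 5) (nat_lit 106089) (nat_lit 5) (node (nat_lit 6)
  (nat_lit 111697) (nat_lit 6) (node (nat_lit 5) (nat_lit 114995) (nat_lit 7) (node (nat_lit 7)
  (nat_lit 117165) (nat_lit 8) nil (node (nat_lit 4) (nat_lit 113254) (nat_lit 8) nil nil)) (node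
  (nat_lit 4) (nat_lit 113400) (nat_lit 7) (node (nat_lit 7) (nat_lit 115571) (nat_lit 8) (node
  (nat_lit 4) (nat_lit 107350) (nat_lit 9) (node (nat_lit 5) (nat_lit 104294) (nat_lit 10) nil
  nil) (node (nat_lit 5) (nat_lit 114019) (nat_lit 9) nil nil)) nil) nil)) (node (nat_lit 7)
  (nat_lit 108654) (nat_lit 6) (node (nat_lit 6) (nat_lit 111952) (nat_lit 7) (node (nat_lit 5)
  (nat_lit 114122) (nat_lit 8) nil nil) (node (nat_lit 4) (nat_lit 111952) (nat_lit 7) (node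
  (nat_lit 5) (nat_lit 110732) (nat_lit 8) (node (nat_lit 6) (nat_lit 93947) (nat_lit 9) (node
  (nat_lit 7) (nat_lit 67169) (nat_lit 10) nil nil) nil) nil) nil)) (node (nat_lit 4) (nat_lit
  108654) (nat_lit 6) (node (nat_lit 5) (nat_lit 106735) (nat_lit 7) (node (nat_lit 6) (nat_lit
  108905) (nat_lit 8) nil nil) (node (nat_lit 7) (nat_lit 111952) (nat_lit 7) nil nil)) nil)))
  (node (nat_lit 4) (nat_lit 106089) (nat_lit 5) (node (nat_lit 5) (nat_lit 110651) (nat_lit 6)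
  (node (nat_lit 6) (nat_lit 18299) (nat_lit 7) (node (nat_lit 5) (nat_lit 18299) (nat_lit 8)
  (node (nat_lit 7) (nat_lit 18674) (nat_lit 9) nil (node (nat_lit 4) (nat_lit 18299) (nat_lit 9)
  nil nil)) (node (nat_lit 4) (nat_lit 18299) (nat_lit 8) nil nil)) nil) (node (nat_lit 6)
  (nat_lit 111697) (nat_lit 6) (node (nat_lit 5) (nat_lit 109778) (nat_lit 7) nil nil) (node
  (nat_lit 7) (nat_lit 111697) (nat_lit 6) (node (nat_lit 5) (nat_lit 114995) (nat_lit 7) (node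
  (nat_lit 4) (nat_lit 113254) (nat_lit 8) (node (nat_lit 5) (nat_lit 111702) (nat_lit 9) nil nil)
  nil) nil) nil))) (node (nat_lit 0) (nat_lit 106089) (nat_lit 5) (node (nat_lit 5) (nat_lit
  108654) (nat_lit 6) (node (nat_lit 7) (nat_lit 102056) (nat_lit 7) nil nil) (node (nat_lit 7)
  (nat_lit 108654) (nat_lit 6) nil nil)) (node (nat_lit 2) (nat_lit 106089) (nat_lit 5) (node
  (nat_lit 5) (nat_lit 103689) (nat_lit 6) (node (nat_lit 7) (nat_lit 103639) (nat_lit 7) nil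
  (node (nat_lit 4) (nat_lit 95768) (nat_lit 7) (node (nat_lit 5) (nat_lit 70532) (nat_lit 8) nil
  nil) nil)) (node (nat_lit 7) (nat_lit 110651) (nat_lit 6) (node (nat_lit 4) (nat_lit 98231)
  (nat_lit 7) (node (nat_lit 5) (nat_lit 84156) (nat_lit 8) nil nil) nil) (node (nat_lit 4)
  (nat_lit 103643) (nat_lit 6) nil nil))) nil))))) (node (nat_lit 4) (nat_lit 0) (nat_lit 4) (node
  (nat_lit 6) (nat_lit 0) (nat_lit 5) (node (nat_lit 5) (nat_lit 106251) (nat_lit 6) (node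
  (nat_lit 4) (nat_lit 108981) (nat_lit 7) (node (nat_lit 5) (nat_lit 112223) (nat_lit 8) (node
  (nat_lit 6) (nat_lit 114626) (nat_lit 9) (node (nat_lit 4) (nat_lit 113945) (nat_lit 10) (node
  (nat_lit 6) (nat_lit 74009) (nat_lit 11) nil nil) nil) nil) nil) (node (nat_lit 6) (nat_lit
  111263) (nat_lit 7) nil (node (nat_lit 1) (nat_lit 104166) (nat_lit 7) nil nil))) (node (nat_lit
  1) (nat_lit 108646) (nat_lit 6) (node (nat_lit 4) (nat_lit 112842) (nat_lit 7) (node (nat_lit 5)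
  (nat_lit 116105) (nat_lit 8) (node (nat_lit 6) (nat_lit 117620) (nat_lit 9) (node (nat_lit 4)
  (nat_lit 116303) (nat_lit 10) (node (nat_lit 6) (nat_lit 17746) (nat_lit 11) nil nil) nil) nil)
  nil) nil) (node (nat_lit 0) (nat_lit 108646) (nat_lit 6) nil (node (nat_lit 2) (nat_lit 102684)
  (nat_lit 6) nil nil)))) (node (nat_lit 1) (nat_lit 106089) (nat_lit 5) (node (nat_lit 5)
  (nat_lit 108654) (nat_lit 6) nil (node (nat_lit 6) (nat_lit 111697) (nat_lit 6) (node (nat_lit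
  5) (nat_lit 114995) (nat_lit 7) (node (nat_lit 4) (nat_lit 113254) (nat_lit 8) (node (nat_lit 5)
  (nat_lit 111702) (nat_lit 9) (node (nat_lit 6) (nat_lit 112843) (nat_lit 10) (node (nat_lit 4)
  (nat_lit 111842) (nat_lit 11) nil nil) nil) nil) nil) nil) (node (nat_lit 4) (nat_lit 110651)
  (nat_lit 6) (node (nat_lit 5) (nat_lit 104193) (nat_lit 7) (node (nat_lit 6) (nat_lit 71970)
  (nat_lit 8) nil nil) nil) nil))) (node (nat_lit 5) (nat_lit 0) (nat_lit 5) (node (nat_lit 4)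
  (nat_lit 106251) (nat_lit 6) (node (nat_lit 6) (nat_lit 111263) (nat_lit 7) (node (nat_lit 5)
  (nat_lit 110594) (nat_lit 8) (node (nat_lit 4) (nat_lit 109944) (nat_lit 9) (node (nat_lit 5)
  (nat_lit 109263) (nat_lit 10) (node (nat_lit 6) (nat_lit 110715) (nat_lit 11) (node (nat_lit 4)
  (nat_lit 110305) (nat_lit 12) (node (nat_lit 5) (nat_lit 110011) (nat_lit 13) (node (nat_lit 4)
  (nat_lit 109798) (nat_lit 14) (node (nat_lit 6) (nat_lit 64700) (nat_lit 15) nil nil) nil) nil)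
  nil) nil) nil) nil) nil) (node (nat_lit 1) (nat_lit 113888) (nat_lit 7) nil nil)) (node (nat_lit
  1) (nat_lit 106649) (nat_lit 6) (node (nat_lit 5) (nat_lit 110845) (nat_lit 7) nil (node
  (nat_lit 4) (nat_lit 108850) (nat_lit 7) (node (nat_lit 5) (nat_lit 100969) (nat_lit 8) (node
  (nat_lit 6) (nat_lit 69127) (nat_lit 9) (node (nat_lit 4) (nat_lit 40854) (nat_lit 10) nil nil)
  nil) nil) nil)) (node (nat_lit 0) (nat_lit 109692) (nat_lit 6) nil (node (nat_lit 2) (nat_lit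
  97134) (nat_lit 6) nil nil)))) (node (nat_lit 0) (nat_lit 106089) (nat_lit 5) (node (nat_lit 5)
  (nat_lit 101646) (nat_lit 6) (node (nat_lit 4) (nat_lit 99727) (nat_lit 7) (node (nat_lit 5)
  (nat_lit 97986) (nat_lit 8) nil nil) nil) nil) (node (nat_lit 2) (nat_lit 106089) (nat_lit 5)
  (node (nat_lit 5) (nat_lit 108897) (nat_lit 6) (node (nat_lit 4) (nat_lit 98978) (nat_lit 7)
  (node (nat_lit 5) (nat_lit 87082) (nat_lit 8) (node (nat_lit 6) (nat_lit 75276) (nat_lit 9)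
  (node (nat_lit 4) (nat_lit 73450) (nat_lit 10) nil nil) nil) nil) nil) (node (nat_lit 4)
  (nat_lit 111697) (nat_lit 6) (node (nat_lit 5) (nat_lit 109778) (nat_lit 7) nil (node (nat_lit
  1) (nat_lit 105273) (nat_lit 7) nil nil)) nil)) nil))))) (node (nat_lit 5) (nat_lit 0) (nat_lit
  4) (node (nat_lit 1) (nat_lit 106089) (nat_lit 5) (node (nat_lit 5) (nat_lit 111697) (nat_lit 6)
  (node (nat_lit 6) (nat_lit 114995) (nat_lit 7) nil nil) (node (nat_lit 6) (nat_lit 110651)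
  (nat_lit 6) (node (nat_lit 8) (nat_lit 113949) (nat_lit 7) (node (nat_lit 5) (nat_lit 116120)
  (nat_lit 8) nil nil) nil) (node (nat_lit 4) (nat_lit 110651) (nat_lit 6) (node (nat_lit 5)
  (nat_lit 98310) (nat_lit 7) (node (nat_lit 6) (nat_lit 62846) (nat_lit 8) nil nil) nil) nil)))
  (node (nat_lit 4) (nat_lit 99648) (nat_lit 5) (node (nat_lit 5) (nat_lit 105205) (nat_lit 6)
  (node (nat_lit 6) (nat_lit 73238) (nat_lit 7) nil nil) (node (nat_lit 6) (nat_lit 106251)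
  (nat_lit 6) nil (node (nat_lit 1) (nat_lit 106649) (nat_lit 6) (node (nat_lit 5) (nat_lit
  110845) (nat_lit 7) (node (nat_lit 4) (nat_lit 114107) (nat_lit 8) (node (nat_lit 5) (nat_lit
  112570) (nat_lit 9) nil nil) nil) (node (nat_lit 4) (nat_lit 108323) (nat_lit 7) (node (nat_lit
  5) (nat_lit 100048) (nat_lit 8) (node (nat_lit 6) (nat_lit 67467) (nat_lit 9) (node (nat_lit 5)
  (nat_lit 40854) (nat_lit 10) nil nil) nil) nil) nil)) nil))) (node (nat_lit 0) (nat_lit 106089)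
  (nat_lit 5) (node (nat_lit 5) (nat_lit 110651) (nat_lit 6) (node (nat_lit 4) (nat_lit 108732)
  (nat_lit 7) nil nil) nil) (node (nat_lit 2) (nat_lit 106089) (nat_lit 5) (node (nat_lit 5)
  (nat_lit 110526) (nat_lit 6) (node (nat_lit 4) (nat_lit 102588) (nat_lit 7) (node (nat_lit 5)
  (nat_lit 86904) (nat_lit 8) (node (nat_lit 6) (nat_lit 66148) (nat_lit 9) nil nil) nil) nil)
  nil) nil)))) (node (nat_lit 0) (nat_lit 0) (nat_lit 4) (node (nat_lit 6) (nat_lit 106089)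
  (nat_lit 5) (node (nat_lit 5) (nat_lit 108654) (nat_lit 6) (node (nat_lit 7) (nat_lit 111952)
  (nat_lit 7) (node (nat_lit 5) (nat_lit 110211) (nat_lit 8) nil nil) (node (nat_lit 4) (nat_lit
  106735) (nat_lit 7) nil nil)) (node (nat_lit 4) (nat_lit 110651) (nat_lit 6) nil (node (nat_lit
  1) (nat_lit 110651) (nat_lit 6) nil nil))) (node (nat_lit 5) (nat_lit 106089) (nat_lit 5) (node
  (nat_lit 7) (nat_lit 110651) (nat_lit 6) nil (node (nat_lit 4) (nat_lit 108654) (nat_lit 6)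
  (node (nat_lit 5) (nat_lit 111952) (nat_lit 7) (node (nat_lit 6) (nat_lit 114122) (nat_lit 8)
  (node (nat_lit 7) (nat_lit 75276) (nat_lit 9) nil nil) nil) nil) (node (nat_lit 6) (nat_lit
  111697) (nat_lit 6) (node (nat_lit 5) (nat_lit 114995) (nat_lit 7) nil nil) nil))) (node
  (nat_lit 4) (nat_lit 106089) (nat_lit 5) (node (nat_lit 1) (nat_lit 110491) (nat_lit 6) nil
  (node (nat_lit 5) (nat_lit 110651) (nat_lit 6) nil nil)) (node (nat_lit 1) (nat_lit 106089)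
  (nat_lit 5) (node (nat_lit 4) (nat_lit 110651) (nat_lit 6) (node (nat_lit 5) (nat_lit 113949)
  (nat_lit 7) nil nil) (node (nat_lit 5) (nat_lit 110651) (nat_lit 6) (node (nat_lit 4) (nat_lit
  108732) (nat_lit 7) nil nil) nil)) (node (nat_lit 0) (nat_lit 106089) (nat_lit 5) (node (nat_lit
  5) (nat_lit 103643) (nat_lit 6) nil nil) (node (nat_lit 2) (nat_lit 106089) (nat_lit 5) (node
  (nat_lit 5) (nat_lit 101646) (nat_lit 6) nil (node (nat_lit 4) (nat_lit 104550) (nat_lit 6) nil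
  (node (nat_lit 1) (nat_lit 106930) (nat_lit 6) nil nil))) nil)))))) (node (nat_lit 2) (nat_lit
  0) (nat_lit 4) (node (nat_lit 6) (nat_lit 106089) (nat_lit 5) (node (nat_lit 5) (nat_lit 108654)
  (nat_lit 6) (node (nat_lit 7) (nat_lit 111890) (nat_lit 7) (node (nat_lit 5) (nat_lit 103142)
  (nat_lit 8) (node (nat_lit 4) (nat_lit 99273) (nat_lit 9) (node (nat_lit 5) (nat_lit 94589)
  (nat_lit 10) nil nil) nil) (node (nat_lit 6) (nat_lit 114061) (nat_lit 8) nil (node (nat_lit 4)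
  (nat_lit 110150) (nat_lit 8) nil nil))) (node (nat_lit 4) (nat_lit 111952) (nat_lit 7) (node
  (nat_lit 5) (nat_lit 110211) (nat_lit 8) (node (nat_lit 6) (nat_lit 111712) (nat_lit 9) nil nil)
  nil) nil)) (node (nat_lit 4) (nat_lit 111697) (nat_lit 6) nil (node (nat_lit 1) (nat_lit 110651)
  (nat_lit 6) nil nil))) (node (nat_lit 5) (nat_lit 106089) (nat_lit 5) (node (nat_lit 1) (nat_lit
  108654) (nat_lit 6) (node (nat_lit 4) (nat_lit 99538) (nat_lit 7) (node (nat_lit 5) (nat_lit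
  82316) (nat_lit 8) nil nil) (node (nat_lit 5) (nat_lit 111952) (nat_lit 7) nil nil)) (node
  (nat_lit 4) (nat_lit 104796) (nat_lit 6) (node (nat_lit 1) (nat_lit 104878) (nat_lit 7) nil
  (node (nat_lit 5) (nat_lit 87502) (nat_lit 7) (node (nat_lit 6) (nat_lit 69226) (nat_lit 8)
  (node (nat_lit 7) (nat_lit 67006) (nat_lit 9) nil nil) nil) nil)) (node (nat_lit 7) (nat_lit
  110651) (nat_lit 6) (node (nat_lit 6) (nat_lit 113949) (nat_lit 7) (node (nat_lit 5) (nat_lit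
  112209) (nat_lit 8) nil nil) nil) (node (nat_lit 6) (nat_lit 111697) (nat_lit 6) (node (nat_lit
  5) (nat_lit 114995) (nat_lit 7) nil nil) nil)))) (node (nat_lit 4) (nat_lit 106089) (nat_lit 5)
  (node (nat_lit 1) (nat_lit 108654) (nat_lit 6) (node (nat_lit 5) (nat_lit 110356) (nat_lit 7)
  (node (nat_lit 4) (nat_lit 108616) (nat_lit 8) nil (node (nat_lit 9) (nat_lit 105519) (nat_lit
  8) nil nil)) (node (nat_lit 4) (nat_lit 100302) (nat_lit 7) (node (nat_lit 5) (nat_lit 91458)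
  (nat_lit 8) nil nil) nil)) (node (nat_lit 5) (nat_lit 110651) (nat_lit 6) nil nil)) (node
  (nat_lit 1) (nat_lit 106089) (nat_lit 5) (node (nat_lit 4) (nat_lit 105153) (nat_lit 6) (node
  (nat_lit 5) (nat_lit 93672) (nat_lit 7) nil nil) (node (nat_lit 5) (nat_lit 108654) (nat_lit 6)
  (node (nat_lit 8) (nat_lit 102056) (nat_lit 7) nil (node (nat_lit 4) (nat_lit 111317) (nat_lit
  7) (node (nat_lit 5) (nat_lit 109576) (nat_lit 8) nil nil) nil)) nil)) (node (nat_lit 0)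
  (nat_lit 106089) (nat_lit 5) (node (nat_lit 5) (nat_lit 103643) (nat_lit 6) nil nil) nil)))))
  nil))))) (node (nat_lit 2) (nat_lit 0) (nat_lit 3) t111 nil)))

noncomputable def t113 : Tr :=
  (node (nat_lit 5) (nat_lit 0) (nat_lit 4) (node (nat_lit 1) (nat_lit 0) (nat_lit 5) (node
  (nat_lit 6) (nat_lit 110691) (nat_lit 6) (node (nat_lit 8) (nat_lit 115780) (nat_lit 7) (node
  (nat_lit 5) (nat_lit 118339) (nat_lit 8) (node (nat_lit 6) (nat_lit 118339) (nat_lit 9) nil nil)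
  (node (nat_lit 4) (nat_lit 118050) (nat_lit 8) (node (nat_lit 6) (nat_lit 118339) (nat_lit 9)
  nil nil) nil)) (node (nat_lit 5) (nat_lit 115780) (nat_lit 7) (node (nat_lit 6) (nat_lit 114898)
  (nat_lit 8) (node (nat_lit 4) (nat_lit 107208) (nat_lit 9) nil nil) (node (nat_lit 4) (nat_lit
  110674) (nat_lit 8) nil nil)) (node (nat_lit 4) (nat_lit 118339) (nat_lit 7) (node (nat_lit 8)
  (nat_lit 118339) (nat_lit 8) nil (node (nat_lit 5) (nat_lit 118339) (nat_lit 8) (node (nat_lit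
  6) (nat_lit 118339) (nat_lit 9) (node (nat_lit 5) (nat_lit 118339) (nat_lit 10) nil nil) nil)
  nil)) (node (nat_lit 0) (nat_lit 118050) (nat_lit 7) nil nil)))) (node (nat_lit 5) (nat_lit
  110580) (nat_lit 6) (node (nat_lit 6) (nat_lit 115780) (nat_lit 7) (node (nat_lit 8) (nat_lit
  118339) (nat_lit 8) nil (node (nat_lit 4) (nat_lit 110000) (nat_lit 8) nil nil)) (node (nat_lit
  4) (nat_lit 118339) (nat_lit 7) (node (nat_lit 8) (nat_lit 118339) (nat_lit 8) nil (node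
  (nat_lit 6) (nat_lit 115702) (nat_lit 8) nil nil)) nil)) (node (nat_lit 4) (nat_lit 112117)
  (nat_lit 6) (node (nat_lit 6) (nat_lit 117604) (nat_lit 7) (node (nat_lit 8) (nat_lit 118339)
  (nat_lit 8) nil (node (nat_lit 4) (nat_lit 117209) (nat_lit 8) (node (nat_lit 5) (nat_lit
  111762) (nat_lit 9) (node (nat_lit 6) (nat_lit 100742) (nat_lit 10) (node (nat_lit 5) (nat_lit
  88215) (nat_lit 11) (node (nat_lit 8) (nat_lit 69169) (nat_lit 12) nil nil) nil) nil) nil) nil))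
  (node (nat_lit 5) (nat_lit 94228) (nat_lit 7) (node (nat_lit 4) (nat_lit 99139) (nat_lit 8)
  (node (nat_lit 8) (nat_lit 102172) (nat_lit 9) nil nil) (node (nat_lit 6) (nat_lit 71501)
  (nat_lit 8) (node (nat_lit 8) (nat_lit 73122) (nat_lit 9) (node (nat_lit 4) (nat_lit 66071)
  (nat_lit 10) nil nil) (node (nat_lit 4) (nat_lit 73122) (nat_lit 9) nil nil)) nil)) (node
  (nat_lit 8) (nat_lit 118339) (nat_lit 7) nil (node (nat_lit 0) (nat_lit 117799) (nat_lit 7) nil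
  nil)))) (node (nat_lit 0) (nat_lit 115016) (nat_lit 6) (node (nat_lit 4) (nat_lit 118339)
  (nat_lit 7) (node (nat_lit 8) (nat_lit 115916) (nat_lit 8) nil (node (nat_lit 6) (nat_lit
  112005) (nat_lit 8) nil nil)) (node (nat_lit 6) (nat_lit 118339) (nat_lit 7) (node (nat_lit 4)
  (nat_lit 117572) (nat_lit 8) (node (nat_lit 5) (nat_lit 116581) (nat_lit 9) nil nil) (node
  (nat_lit 8) (nat_lit 115916) (nat_lit 8) nil nil)) (node (nat_lit 8) (nat_lit 118339) (nat_lit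
  7) (node (nat_lit 4) (nat_lit 117383) (nat_lit 8) nil nil) (node (nat_lit 5) (nat_lit 118339)
  (nat_lit 7) nil nil)))) nil)))) (node (nat_lit 4) (nat_lit 0) (nat_lit 5) (node (nat_lit 6)
  (nat_lit 85714) (nat_lit 6) (node (nat_lit 4) (nat_lit 85841) (nat_lit 7) (node (nat_lit 5)
  (nat_lit 98167) (nat_lit 8) (node (nat_lit 6) (nat_lit 92268) (nat_lit 9) (node (nat_lit 5)
  (nat_lit 84454) (nat_lit 10) (node (nat_lit 4) (nat_lit 74460) (nat_lit 11) nil (node (nat_lit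
  1) (nat_lit 86674) (nat_lit 11) nil (node (nat_lit 0) (nat_lit 86798) (nat_lit 11) nil nil)))
  (node (nat_lit 4) (nat_lit 94774) (nat_lit 10) (node (nat_lit 6) (nat_lit 96846) (nat_lit 11)
  (node (nat_lit 5) (nat_lit 98489) (nat_lit 12) nil nil) (node (nat_lit 1) (nat_lit 96982)
  (nat_lit 11) nil nil)) (node (nat_lit 1) (nat_lit 95059) (nat_lit 10) (node (nat_lit 4) (nat_lit
  97441) (nat_lit 11) nil nil) nil))) (node (nat_lit 4) (nat_lit 102212) (nat_lit 9) (node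
  (nat_lit 6) (nat_lit 104547) (nat_lit 10) nil nil) (node (nat_lit 1) (nat_lit 102998) (nat_lit
  9) nil nil))) (node (nat_lit 1) (nat_lit 108264) (nat_lit 8) (node (nat_lit 5) (nat_lit 108264)
  (nat_lit 9) (node (nat_lit 6) (nat_lit 108264) (nat_lit 10) nil nil) (node (nat_lit 6) (nat_lit
  108264) (nat_lit 9) nil (node (nat_lit 4) (nat_lit 108264) (nat_lit 9) nil nil))) (node (nat_lit
  0) (nat_lit 108264) (nat_lit 8) nil nil))) (node (nat_lit 5) (nat_lit 85861) (nat_lit 7) (node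
  (nat_lit 6) (nat_lit 103078) (nat_lit 8) (node (nat_lit 4) (nat_lit 106982) (nat_lit 9) (node
  (nat_lit 5) (nat_lit 106843) (nat_lit 10) (node (nat_lit 4) (nat_lit 105067) (nat_lit 11) (node
  (nat_lit 6) (nat_lit 103807) (nat_lit 12) (node (nat_lit 4) (nat_lit 102850) (nat_lit 13) (node
  (nat_lit 5) (nat_lit 102109) (nat_lit 14) (node (nat_lit 6) (nat_lit 101532) (nat_lit 15) (node
  (nat_lit 5) (nat_lit 101080) (nat_lit 16) (node (nat_lit 4) (nat_lit 100726) (nat_lit 17) (node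
  (nat_lit 6) (nat_lit 99666) (nat_lit 18) (node (nat_lit 5) (nat_lit 94536) (nat_lit 19) (node
  (nat_lit 6) (nat_lit 89543) (nat_lit 20) (node (nat_lit 4) (nat_lit 73638) (nat_lit 21) (node
  (nat_lit 5) (nat_lit 67476) (nat_lit 22) nil nil) nil) nil) nil) nil) nil) nil) nil) nil) nil)
  nil) (node (nat_lit 6) (nat_lit 95718) (nat_lit 11) (node (nat_lit 5) (nat_lit 95718) (nat_lit
  12) (node (nat_lit 4) (nat_lit 95718) (nat_lit 13) (node (nat_lit 6) (nat_lit 69421) (nat_lit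
  14) nil nil) nil) nil) nil)) (node (nat_lit 6) (nat_lit 105451) (nat_lit 10) nil nil)) (node
  (nat_lit 1) (nat_lit 107989) (nat_lit 9) nil nil)) (node (nat_lit 1) (nat_lit 108264) (nat_lit
  8) nil (node (nat_lit 0) (nat_lit 101469) (nat_lit 8) nil nil))) (node (nat_lit 1) (nat_lit
  108264) (nat_lit 7) (node (nat_lit 4) (nat_lit 108264) (nat_lit 8) (node (nat_lit 5) (nat_lit
  108264) (nat_lit 9) (node (nat_lit 6) (nat_lit 97495) (nat_lit 10) (node (nat_lit 5) (nat_lit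
  86270) (nat_lit 11) (node (nat_lit 4) (nat_lit 50818) (nat_lit 12) nil nil) nil) nil) nil) (node
  (nat_lit 5) (nat_lit 108264) (nat_lit 8) (node (nat_lit 6) (nat_lit 108264) (nat_lit 9) nil nil)
  (node (nat_lit 6) (nat_lit 108264) (nat_lit 8) (node (nat_lit 4) (nat_lit 108264) (nat_lit 9)
  nil nil) nil))) (node (nat_lit 0) (nat_lit 108264) (nat_lit 7) nil nil)))) (node (nat_lit 1)
  (nat_lit 108264) (nat_lit 6) (node (nat_lit 6) (nat_lit 108264) (nat_lit 7) (node (nat_lit 4)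
  (nat_lit 108264) (nat_lit 8) (node (nat_lit 5) (nat_lit 108264) (nat_lit 9) (node (nat_lit 6)
  (nat_lit 108264) (nat_lit 10) (node (nat_lit 5) (nat_lit 108264) (nat_lit 11) (node (nat_lit 4)
  (nat_lit 108264) (nat_lit 12) (node (nat_lit 9) (nat_lit 64082) (nat_lit 13) nil nil) nil) nil)
  nil) nil) (node (nat_lit 9) (nat_lit 108264) (nat_lit 8) (node (nat_lit 4) (nat_lit 108264)
  (nat_lit 9) nil nil) nil)) (node (nat_lit 5) (nat_lit 108264) (nat_lit 7) (node (nat_lit 9)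
  (nat_lit 108264) (nat_lit 8) (node (nat_lit 4) (nat_lit 108264) (nat_lit 9) (node (nat_lit 5)
  (nat_lit 108264) (nat_lit 10) (node (nat_lit 6) (nat_lit 108264) (nat_lit 11) nil nil) nil)
  (node (nat_lit 6) (nat_lit 108264) (nat_lit 9) nil nil)) (node (nat_lit 6) (nat_lit 108264)
  (nat_lit 8) (node (nat_lit 4) (nat_lit 108264) (nat_lit 9) nil (node (nat_lit 9) (nat_lit
  108264) (nat_lit 9) nil nil)) (node (nat_lit 4) (nat_lit 108264) (nat_lit 8) (node (nat_lit 6)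
  (nat_lit 108264) (nat_lit 9) nil nil) nil))) (node (nat_lit 4) (nat_lit 108264) (nat_lit 7)
  (node (nat_lit 6) (nat_lit 108264) (nat_lit 8) (node (nat_lit 4) (nat_lit 108264) (nat_lit 9)
  (node (nat_lit 9) (nat_lit 108264) (nat_lit 10) nil (node (nat_lit 5) (nat_lit 106897) (nat_lit
  10) (node (nat_lit 6) (nat_lit 101123) (nat_lit 11) nil nil) nil)) (node (nat_lit 9) (nat_lit
  108264) (nat_lit 9) nil nil)) (node (nat_lit 5) (nat_lit 108264) (nat_lit 8) (node (nat_lit 6)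
  (nat_lit 93326) (nat_lit 9) (node (nat_lit 5) (nat_lit 67294) (nat_lit 10) nil nil) nil) nil))
  (node (nat_lit 0) (nat_lit 108264) (nat_lit 7) nil nil)))) (node (nat_lit 5) (nat_lit 85719)
  (nat_lit 6) (node (nat_lit 6) (nat_lit 85825) (nat_lit 7) (node (nat_lit 4) (nat_lit 101963)
  (nat_lit 8) (node (nat_lit 6) (nat_lit 106953) (nat_lit 9) (node (nat_lit 5) (nat_lit 104988)
  (nat_lit 10) (node (nat_lit 6) (nat_lit 103328) (nat_lit 11) (node (nat_lit 4) (nat_lit 102068)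
  (nat_lit 12) (node (nat_lit 5) (nat_lit 101111) (nat_lit 13) (node (nat_lit 6) (nat_lit 100370)
  (nat_lit 14) (node (nat_lit 5) (nat_lit 99793) (nat_lit 15) (node (nat_lit 4) (nat_lit 99341)
  (nat_lit 16) (node (nat_lit 5) (nat_lit 94941) (nat_lit 17) (node (nat_lit 6) (nat_lit 88269)
  (nat_lit 18) (node (nat_lit 4) (nat_lit 77364) (nat_lit 19) (node (nat_lit 6) (nat_lit 67677)
  (nat_lit 20) (node (nat_lit 5) (nat_lit 67564) (nat_lit 21) nil nil) nil) nil) nil) nil) nil)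
  nil) nil) nil) nil) (node (nat_lit 4) (nat_lit 101912) (nat_lit 11) (node (nat_lit 6) (nat_lit
  100653) (nat_lit 12) (node (nat_lit 4) (nat_lit 99696) (nat_lit 13) nil nil) nil) nil)) nil)
  (node (nat_lit 5) (nat_lit 108264) (nat_lit 9) (node (nat_lit 4) (nat_lit 108264) (nat_lit 10)
  (node (nat_lit 6) (nat_lit 108264) (nat_lit 11) nil nil) nil) (node (nat_lit 1) (nat_lit 108264)
  (nat_lit 9) nil (node (nat_lit 0) (nat_lit 106431) (nat_lit 9) nil nil)))) (node (nat_lit 1)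
  (nat_lit 108264) (nat_lit 8) (node (nat_lit 5) (nat_lit 108264) (nat_lit 9) (node (nat_lit 6)
  (nat_lit 108264) (nat_lit 10) nil nil) (node (nat_lit 4) (nat_lit 108264) (nat_lit 9) nil (node
  (nat_lit 6) (nat_lit 108264) (nat_lit 9) nil nil))) (node (nat_lit 0) (nat_lit 108264) (nat_lit
  8) nil nil))) (node (nat_lit 1) (nat_lit 108264) (nat_lit 7) (node (nat_lit 4) (nat_lit 108264)
  (nat_lit 8) (node (nat_lit 5) (nat_lit 108264) (nat_lit 9) (node (nat_lit 6) (nat_lit 95715)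
  (nat_lit 10) (node (nat_lit 5) (nat_lit 96169) (nat_lit 11) (node (nat_lit 4) (nat_lit 71813)
  (nat_lit 12) nil nil) nil) nil) nil) (node (nat_lit 6) (nat_lit 108264) (nat_lit 8) (node
  (nat_lit 4) (nat_lit 108264) (nat_lit 9) nil (node (nat_lit 10) (nat_lit 108264) (nat_lit 9) nil
  nil)) nil)) (node (nat_lit 0) (nat_lit 108264) (nat_lit 7) (node (nat_lit 6) (nat_lit 108264)
  (nat_lit 8) nil nil) nil))) (node (nat_lit 0) (nat_lit 108264) (nat_lit 6) (node (nat_lit 1)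
  (nat_lit 108264) (nat_lit 7) (node (nat_lit 4) (nat_lit 108264) (nat_lit 8) (node (nat_lit 5)
  (nat_lit 108264) (nat_lit 9) nil nil) (node (nat_lit 6) (nat_lit 108264) (nat_lit 8) nil nil))
  (node (nat_lit 6) (nat_lit 108264) (nat_lit 7) (node (nat_lit 4) (nat_lit 108264) (nat_lit 8)
  nil nil) (node (nat_lit 4) (nat_lit 108264) (nat_lit 7) (node (nat_lit 6) (nat_lit 108264)
  (nat_lit 8) nil nil) (node (nat_lit 5) (nat_lit 108264) (nat_lit 7) nil nil)))) nil)))) (node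
  (nat_lit 0) (nat_lit 0) (nat_lit 5) (node (nat_lit 6) (nat_lit 112292) (nat_lit 6) (node
  (nat_lit 5) (nat_lit 116624) (nat_lit 7) (node (nat_lit 6) (nat_lit 114898) (nat_lit 8) (node
  (nat_lit 4) (nat_lit 107377) (nat_lit 9) (node (nat_lit 5) (nat_lit 102718) (nat_lit 10) (node
  (nat_lit 6) (nat_lit 95718) (nat_lit 11) (node (nat_lit 5) (nat_lit 89472) (nat_lit 12) nil nil)
  nil) nil) (node (nat_lit 1) (nat_lit 116036) (nat_lit 9) nil nil)) nil) (node (nat_lit 4)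
  (nat_lit 118339) (nat_lit 7) (node (nat_lit 5) (nat_lit 117753) (nat_lit 8) (node (nat_lit 6)
  (nat_lit 116321) (nat_lit 9) nil nil) nil) (node (nat_lit 1) (nat_lit 109995) (nat_lit 7) nil
  (node (nat_lit 8) (nat_lit 118050) (nat_lit 7) nil nil)))) (node (nat_lit 5) (nat_lit 112292)
  (nat_lit 6) (node (nat_lit 6) (nat_lit 116968) (nat_lit 7) (node (nat_lit 8) (nat_lit 118339)
  (nat_lit 8) nil nil) (node (nat_lit 4) (nat_lit 118339) (nat_lit 7) nil (node (nat_lit 1)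
  (nat_lit 118050) (nat_lit 7) nil nil))) (node (nat_lit 4) (nat_lit 115992) (nat_lit 6) (node
  (nat_lit 6) (nat_lit 113537) (nat_lit 7) (node (nat_lit 4) (nat_lit 108604) (nat_lit 8) nil nil)
  nil) (node (nat_lit 1) (nat_lit 115742) (nat_lit 6) (node (nat_lit 6) (nat_lit 114087) (nat_lit
  7) (node (nat_lit 9) (nat_lit 115116) (nat_lit 8) nil nil) (node (nat_lit 4) (nat_lit 118339)
  (nat_lit 7) (node (nat_lit 5) (nat_lit 118339) (nat_lit 8) nil nil) nil)) (node (nat_lit 0)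
  (nat_lit 115977) (nat_lit 6) (node (nat_lit 6) (nat_lit 114321) (nat_lit 7) nil (node (nat_lit
  4) (nat_lit 109601) (nat_lit 7) nil nil)) nil))))) nil))) (node (nat_lit 4) (nat_lit 0) (nat_lit
  4) (node (nat_lit 1) (nat_lit 0) (nat_lit 5) (node (nat_lit 5) (nat_lit 99032) (nat_lit 6) (node
  (nat_lit 6) (nat_lit 102871) (nat_lit 7) (node (nat_lit 4) (nat_lit 101304) (nat_lit 8) nil nil)
  (node (nat_lit 8) (nat_lit 102871) (nat_lit 7) (node (nat_lit 4) (nat_lit 102086) (nat_lit 8)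
  (node (nat_lit 5) (nat_lit 100954) (nat_lit 9) (node (nat_lit 4) (nat_lit 100254) (nat_lit 10)
  (node (nat_lit 8) (nat_lit 100510) (nat_lit 11) nil nil) (node (nat_lit 6) (nat_lit 91442)
  (nat_lit 10) (node (nat_lit 4) (nat_lit 78435) (nat_lit 11) (node (nat_lit 8) (nat_lit 27448)
  (nat_lit 12) nil nil) nil) nil)) (node (nat_lit 8) (nat_lit 103707) (nat_lit 9) nil nil)) (node
  (nat_lit 6) (nat_lit 105215) (nat_lit 8) (node (nat_lit 4) (nat_lit 104193) (nat_lit 9) nil nil)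
  nil)) (node (nat_lit 4) (nat_lit 102871) (nat_lit 7) (node (nat_lit 6) (nat_lit 104808) (nat_lit
  8) (node (nat_lit 8) (nat_lit 106356) (nat_lit 9) (node (nat_lit 6) (nat_lit 107588) (nat_lit
  10) (node (nat_lit 4) (nat_lit 106667) (nat_lit 11) nil nil) (node (nat_lit 4) (nat_lit 98354)
  (nat_lit 10) nil nil)) nil) (node (nat_lit 5) (nat_lit 105775) (nat_lit 8) (node (nat_lit 8)
  (nat_lit 102676) (nat_lit 9) (node (nat_lit 4) (nat_lit 99394) (nat_lit 10) nil (node (nat_lit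
  6) (nat_lit 101449) (nat_lit 10) nil nil)) nil) (node (nat_lit 8) (nat_lit 105215) (nat_lit 8)
  (node (nat_lit 4) (nat_lit 104073) (nat_lit 9) (node (nat_lit 5) (nat_lit 102137) (nat_lit 10)
  nil nil) nil) nil))) (node (nat_lit 0) (nat_lit 103213) (nat_lit 7) (node (nat_lit 8) (nat_lit
  105557) (nat_lit 8) (node (nat_lit 4) (nat_lit 104415) (nat_lit 9) nil nil) (node (nat_lit 6)
  (nat_lit 101646) (nat_lit 8) nil nil)) nil)))) (node (nat_lit 4) (nat_lit 85023) (nat_lit 6)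
  (node (nat_lit 6) (nat_lit 89826) (nat_lit 7) (node (nat_lit 8) (nat_lit 91854) (nat_lit 8)
  (node (nat_lit 6) (nat_lit 94246) (nat_lit 9) (node (nat_lit 4) (nat_lit 95025) (nat_lit 10)
  (node (nat_lit 6) (nat_lit 94104) (nat_lit 11) nil (node (nat_lit 5) (nat_lit 94104) (nat_lit
  11) (node (nat_lit 6) (nat_lit 93477) (nat_lit 12) (node (nat_lit 4) (nat_lit 93027) (nat_lit
  13) (node (nat_lit 8) (nat_lit 93441) (nat_lit 14) (node (nat_lit 4) (nat_lit 92689) (nat_lit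
  15) (node (nat_lit 6) (nat_lit 92265) (nat_lit 16) nil nil) nil) nil) nil) nil) (node (nat_lit
  8) (nat_lit 94807) (nat_lit 11) nil nil))) nil) (node (nat_lit 5) (nat_lit 97711) (nat_lit 9)
  nil (node (nat_lit 4) (nat_lit 91018) (nat_lit 9) (node (nat_lit 8) (nat_lit 90536) (nat_lit 10)
  nil nil) nil))) (node (nat_lit 5) (nat_lit 96358) (nat_lit 8) (node (nat_lit 8) (nat_lit 97532)
  (nat_lit 9) (node (nat_lit 4) (nat_lit 91874) (nat_lit 10) (node (nat_lit 5) (nat_lit 83636)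
  (nat_lit 11) nil (node (nat_lit 8) (nat_lit 92961) (nat_lit 11) nil nil)) nil) nil) (node
  (nat_lit 4) (nat_lit 86730) (nat_lit 8) (node (nat_lit 5) (nat_lit 88334) (nat_lit 9) (node
  (nat_lit 6) (nat_lit 75909) (nat_lit 10) (node (nat_lit 4) (nat_lit 74460) (nat_lit 11) nil nil)
  nil) (node (nat_lit 8) (nat_lit 86794) (nat_lit 9) nil nil)) (node (nat_lit 0) (nat_lit 96558)
  (nat_lit 8) nil nil)))) (node (nat_lit 5) (nat_lit 79177) (nat_lit 7) (node (nat_lit 6) (nat_lit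
  73863) (nat_lit 8) (node (nat_lit 8) (nat_lit 75484) (nat_lit 9) nil nil) (node (nat_lit 4)
  (nat_lit 83540) (nat_lit 8) (node (nat_lit 8) (nat_lit 86629) (nat_lit 9) nil (node (nat_lit 6)
  (nat_lit 82468) (nat_lit 9) nil nil)) (node (nat_lit 8) (nat_lit 85728) (nat_lit 8) (node
  (nat_lit 6) (nat_lit 87964) (nat_lit 9) nil (node (nat_lit 4) (nat_lit 85728) (nat_lit 9) nil
  nil)) (node (nat_lit 0) (nat_lit 86065) (nat_lit 8) nil nil)))) (node (nat_lit 0) (nat_lit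
  94089) (nat_lit 7) (node (nat_lit 8) (nat_lit 96809) (nat_lit 8) (node (nat_lit 4) (nat_lit
  98430) (nat_lit 9) nil nil) (node (nat_lit 4) (nat_lit 96681) (nat_lit 8) (node (nat_lit 8)
  (nat_lit 94584) (nat_lit 9) nil nil) (node (nat_lit 6) (nat_lit 97448) (nat_lit 8) nil nil)))
  nil))) (node (nat_lit 6) (nat_lit 92123) (nat_lit 6) (node (nat_lit 5) (nat_lit 102399) (nat_lit
  7) (node (nat_lit 6) (nat_lit 104742) (nat_lit 8) (node (nat_lit 4) (nat_lit 106363) (nat_lit 9)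
  (node (nat_lit 5) (nat_lit 107849) (nat_lit 10) (node (nat_lit 8) (nat_lit 108935) (nat_lit 11)
  (node (nat_lit 6) (nat_lit 108308) (nat_lit 12) nil nil) nil) (node (nat_lit 0) (nat_lit 107595)
  (nat_lit 10) nil nil)) (node (nat_lit 8) (nat_lit 101643) (nat_lit 9) nil nil)) (node (nat_lit
  8) (nat_lit 104742) (nat_lit 8) (node (nat_lit 4) (nat_lit 104290) (nat_lit 9) nil nil) (node
  (nat_lit 4) (nat_lit 104795) (nat_lit 8) (node (nat_lit 6) (nat_lit 101922) (nat_lit 9) nil nil)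
  nil))) (node (nat_lit 8) (nat_lit 95758) (nat_lit 7) (node (nat_lit 4) (nat_lit 98102) (nat_lit
  8) (node (nat_lit 6) (nat_lit 99298) (nat_lit 9) (node (nat_lit 4) (nat_lit 95649) (nat_lit 10)
  nil nil) (node (nat_lit 5) (nat_lit 91003) (nat_lit 9) nil (node (nat_lit 8) (nat_lit 99730)
  (nat_lit 9) nil nil))) (node (nat_lit 5) (nat_lit 94191) (nat_lit 8) nil nil)) (node (nat_lit 4)
  (nat_lit 95758) (nat_lit 7) (node (nat_lit 5) (nat_lit 104424) (nat_lit 8) (node (nat_lit 6)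
  (nat_lit 102992) (nat_lit 9) (node (nat_lit 4) (nat_lit 101765) (nat_lit 10) nil nil) nil) (node
  (nat_lit 6) (nat_lit 98102) (nat_lit 8) nil nil)) (node (nat_lit 0) (nat_lit 102121) (nat_lit 7)
  nil nil)))) (node (nat_lit 0) (nat_lit 98932) (nat_lit 6) (node (nat_lit 8) (nat_lit 102771)
  (nat_lit 7) (node (nat_lit 4) (nat_lit 101576) (nat_lit 8) nil nil) (node (nat_lit 6) (nat_lit
  102493) (nat_lit 7) nil (node (nat_lit 4) (nat_lit 102516) (nat_lit 7) (node (nat_lit 8)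
  (nat_lit 101710) (nat_lit 8) nil nil) (node (nat_lit 0) (nat_lit 102493) (nat_lit 7) nil nil))))
  nil)))) (node (nat_lit 5) (nat_lit 0) (nat_lit 5) (node (nat_lit 4) (nat_lit 71408) (nat_lit 6)
  (node (nat_lit 6) (nat_lit 73238) (nat_lit 7) (node (nat_lit 5) (nat_lit 74443) (nat_lit 8)
  (node (nat_lit 6) (nat_lit 75276) (nat_lit 9) nil (node (nat_lit 4) (nat_lit 75276) (nat_lit 9)
  nil nil)) (node (nat_lit 4) (nat_lit 74443) (nat_lit 8) nil nil)) (node (nat_lit 1) (nat_lit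
  73238) (nat_lit 7) (node (nat_lit 4) (nat_lit 74443) (nat_lit 8) (node (nat_lit 5) (nat_lit
  66301) (nat_lit 9) (node (nat_lit 6) (nat_lit 62316) (nat_lit 10) (node (nat_lit 4) (nat_lit
  42857) (nat_lit 11) nil nil) nil) nil) nil) nil)) (node (nat_lit 1) (nat_lit 71408) (nat_lit 6)
  (node (nat_lit 4) (nat_lit 73238) (nat_lit 7) (node (nat_lit 5) (nat_lit 70305) (nat_lit 8)
  (node (nat_lit 6) (nat_lit 49734) (nat_lit 9) nil nil) nil) nil) (node (nat_lit 0) (nat_lit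
  71408) (nat_lit 6) nil nil))) (node (nat_lit 6) (nat_lit 0) (nat_lit 5) (node (nat_lit 5)
  (nat_lit 0) (nat_lit 6) (node (nat_lit 6) (nat_lit 85550) (nat_lit 7) (node (nat_lit 4) (nat_lit
  101482) (nat_lit 8) (node (nat_lit 5) (nat_lit 105817) (nat_lit 9) (node (nat_lit 4) (nat_lit
  103292) (nat_lit 10) (node (nat_lit 6) (nat_lit 102352) (nat_lit 11) (node (nat_lit 4) (nat_lit
  101470) (nat_lit 12) nil nil) nil) nil) (node (nat_lit 1) (nat_lit 104148) (nat_lit 9) nil nil))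
  nil) (node (nat_lit 4) (nat_lit 85641) (nat_lit 7) (node (nat_lit 6) (nat_lit 101314) (nat_lit
  8) nil (node (nat_lit 1) (nat_lit 105601) (nat_lit 8) nil (node (nat_lit 5) (nat_lit 101717)
  (nat_lit 8) nil nil))) (node (nat_lit 1) (nat_lit 102166) (nat_lit 7) nil (node (nat_lit 0)
  (nat_lit 103036) (nat_lit 7) nil nil)))) (node (nat_lit 1) (nat_lit 88612) (nat_lit 6) (node
  (nat_lit 4) (nat_lit 94279) (nat_lit 7) (node (nat_lit 9) (nat_lit 97923) (nat_lit 8) nil (node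
  (nat_lit 5) (nat_lit 93402) (nat_lit 8) nil nil)) (node (nat_lit 6) (nat_lit 94279) (nat_lit 7)
  (node (nat_lit 5) (nat_lit 105047) (nat_lit 8) (node (nat_lit 6) (nat_lit 106844) (nat_lit 9)
  nil nil) (node (nat_lit 4) (nat_lit 97655) (nat_lit 8) nil nil)) (node (nat_lit 5) (nat_lit
  100613) (nat_lit 7) (node (nat_lit 6) (nat_lit 104475) (nat_lit 8) (node (nat_lit 4) (nat_lit
  103219) (nat_lit 9) nil nil) nil) nil))) (node (nat_lit 0) (nat_lit 93955) (nat_lit 6) nil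
  nil))) (node (nat_lit 0) (nat_lit 0) (nat_lit 5) (node (nat_lit 6) (nat_lit 98789) (nat_lit 6)
  (node (nat_lit 4) (nat_lit 102580) (nat_lit 7) (node (nat_lit 5) (nat_lit 101293) (nat_lit 8)
  (node (nat_lit 6) (nat_lit 99861) (nat_lit 9) nil nil) nil) nil) (node (nat_lit 4) (nat_lit
  98613) (nat_lit 6) (node (nat_lit 6) (nat_lit 101145) (nat_lit 7) nil (node (nat_lit 1) (nat_lit
  102175) (nat_lit 7) nil nil)) (node (nat_lit 1) (nat_lit 98804) (nat_lit 6) (node (nat_lit 4)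
  (nat_lit 99426) (nat_lit 7) nil (node (nat_lit 6) (nat_lit 98930) (nat_lit 7) nil nil)) (node
  (nat_lit 0) (nat_lit 99882) (nat_lit 6) (node (nat_lit 4) (nat_lit 100657) (nat_lit 7) nil nil)
  (node (nat_lit 5) (nat_lit 100032) (nat_lit 6) (node (nat_lit 4) (nat_lit 103843) (nat_lit 7)
  nil nil) nil))))) nil)))) (node (nat_lit 0) (nat_lit 0) (nat_lit 4) (node (nat_lit 5) (nat_lit
  0) (nat_lit 5) (node (nat_lit 1) (nat_lit 115085) (nat_lit 6) (node (nat_lit 4) (nat_lit 113926)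
  (nat_lit 7) nil nil) (node (nat_lit 4) (nat_lit 116168) (nat_lit 6) (node (nat_lit 6) (nat_lit
  112494) (nat_lit 7) (node (nat_lit 4) (nat_lit 104713) (nat_lit 8) nil nil) nil) (node (nat_lit
  7) (nat_lit 116426) (nat_lit 6) (node (nat_lit 6) (nat_lit 117675) (nat_lit 7) nil nil) (node
  (nat_lit 6) (nat_lit 114504) (nat_lit 6) (node (nat_lit 4) (nat_lit 118339) (nat_lit 7) nil nil)
  (node (nat_lit 0) (nat_lit 115085) (nat_lit 6) nil nil))))) (node (nat_lit 1) (nat_lit 109863)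
  (nat_lit 5) (node (nat_lit 6) (nat_lit 116168) (nat_lit 6) nil (node (nat_lit 4) (nat_lit
  116168) (nat_lit 6) (node (nat_lit 5) (nat_lit 118339) (nat_lit 7) nil (node (nat_lit 8)
  (nat_lit 118339) (nat_lit 7) nil nil)) nil)) (node (nat_lit 6) (nat_lit 107889) (nat_lit 5)
  (node (nat_lit 4) (nat_lit 116426) (nat_lit 6) (node (nat_lit 5) (nat_lit 115240) (nat_lit 7)
  (node (nat_lit 6) (nat_lit 114300) (nat_lit 8) nil nil) nil) (node (nat_lit 1) (nat_lit 116138)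
  (nat_lit 6) (node (nat_lit 4) (nat_lit 106701) (nat_lit 7) nil nil) (node (nat_lit 5) (nat_lit
  114504) (nat_lit 6) (node (nat_lit 6) (nat_lit 113759) (nat_lit 7) nil nil) nil))) (node
  (nat_lit 4) (nat_lit 110375) (nat_lit 5) (node (nat_lit 6) (nat_lit 116680) (nat_lit 6) (node
  (nat_lit 4) (nat_lit 118339) (nat_lit 7) nil nil) (node (nat_lit 1) (nat_lit 113725) (nat_lit 6)
  (node (nat_lit 4) (nat_lit 91775) (nat_lit 7) nil nil) nil)) (node (nat_lit 0) (nat_lit 110347)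
  (nat_lit 5) (node (nat_lit 6) (nat_lit 116652) (nat_lit 6) (node (nat_lit 4) (nat_lit 114997)
  (nat_lit 7) nil nil) (node (nat_lit 4) (nat_lit 114171) (nat_lit 6) (node (nat_lit 1) (nat_lit
  110319) (nat_lit 7) nil nil) (node (nat_lit 1) (nat_lit 115569) (nat_lit 6) nil (node (nat_lit
  7) (nat_lit 116652) (nat_lit 6) nil nil)))) nil))))) nil)))

noncomputable def t114 : Tr :=
  (node (nat_lit 1) (nat_lit 0) (nat_lit 4) (node (nat_lit 3) (nat_lit 0) (nat_lit 5) (node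
  (nat_lit 5) (nat_lit 110283) (nat_lit 6) (node (nat_lit 4) (nat_lit 110283) (nat_lit 7) (node
  (nat_lit 8) (nat_lit 110283) (nat_lit 8) (node (nat_lit 5) (nat_lit 110283) (nat_lit 9) (node
  (nat_lit 8) (nat_lit 110283) (nat_lit 10) (node (nat_lit 4) (nat_lit 110283) (nat_lit 11) nil
  nil) (node (nat_lit 7) (nat_lit 110283) (nat_lit 10) (node (nat_lit 4) (nat_lit 110283) (nat_lit
  11) nil nil) nil)) (node (nat_lit 4) (nat_lit 110283) (nat_lit 9) (node (nat_lit 5) (nat_lit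
  108993) (nat_lit 10) (node (nat_lit 4) (nat_lit 93888) (nat_lit 11) (node (nat_lit 7) (nat_lit
  93888) (nat_lit 12) (node (nat_lit 8) (nat_lit 85494) (nat_lit 13) (node (nat_lit 5) (nat_lit
  80540) (nat_lit 14) nil nil) nil) nil) nil) nil) (node (nat_lit 7) (nat_lit 110283) (nat_lit 9)
  (node (nat_lit 4) (nat_lit 110283) (nat_lit 10) nil nil) nil))) (node (nat_lit 5) (nat_lit
  110283) (nat_lit 8) (node (nat_lit 8) (nat_lit 110283) (nat_lit 9) (node (nat_lit 4) (nat_lit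
  110283) (nat_lit 10) nil (node (nat_lit 7) (nat_lit 110283) (nat_lit 10) nil nil)) (node
  (nat_lit 7) (nat_lit 110283) (nat_lit 9) (node (nat_lit 4) (nat_lit 110283) (nat_lit 10) (node
  (nat_lit 8) (nat_lit 110283) (nat_lit 11) nil nil) nil) nil)) (node (nat_lit 7) (nat_lit 110283)
  (nat_lit 8) (node (nat_lit 4) (nat_lit 110283) (nat_lit 9) nil nil) nil))) (node (nat_lit 8)
  (nat_lit 110283) (nat_lit 7) (node (nat_lit 7) (nat_lit 110283) (nat_lit 8) (node (nat_lit 8)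
  (nat_lit 110283) (nat_lit 9) (node (nat_lit 4) (nat_lit 110283) (nat_lit 10) (node (nat_lit 5)
  (nat_lit 110283) (nat_lit 11) nil nil) nil) (node (nat_lit 5) (nat_lit 110283) (nat_lit 9) (node
  (nat_lit 7) (nat_lit 110283) (nat_lit 10) nil nil) (node (nat_lit 4) (nat_lit 110283) (nat_lit
  9) (node (nat_lit 5) (nat_lit 110283) (nat_lit 10) nil nil) nil))) (node (nat_lit 4) (nat_lit
  110283) (nat_lit 8) (node (nat_lit 5) (nat_lit 110283) (nat_lit 9) (node (nat_lit 4) (nat_lit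
  106569) (nat_lit 10) (node (nat_lit 7) (nat_lit 85494) (nat_lit 11) (node (nat_lit 8) (nat_lit
  80472) (nat_lit 12) nil nil) nil) (node (nat_lit 7) (nat_lit 110283) (nat_lit 10) nil nil))
  (node (nat_lit 7) (nat_lit 110283) (nat_lit 9) nil nil)) nil)) (node (nat_lit 7) (nat_lit
  110283) (nat_lit 7) (node (nat_lit 4) (nat_lit 110283) (nat_lit 8) (node (nat_lit 8) (nat_lit
  110283) (nat_lit 9) (node (nat_lit 4) (nat_lit 110283) (nat_lit 10) (node (nat_lit 7) (nat_lit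
  110283) (nat_lit 11) nil (node (nat_lit 5) (nat_lit 110283) (nat_lit 11) nil nil)) (node
  (nat_lit 7) (nat_lit 110283) (nat_lit 10) nil nil)) (node (nat_lit 5) (nat_lit 110283) (nat_lit
  9) (node (nat_lit 4) (nat_lit 110283) (nat_lit 10) (node (nat_lit 7) (nat_lit 105008) (nat_lit
  11) (node (nat_lit 8) (nat_lit 59986) (nat_lit 12) nil nil) nil) nil) nil)) (node (nat_lit 5)
  (nat_lit 110283) (nat_lit 8) (node (nat_lit 8) (nat_lit 110283) (nat_lit 9) (node (nat_lit 7)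
  (nat_lit 110283) (nat_lit 10) nil (node (nat_lit 4) (nat_lit 110283) (nat_lit 10) nil nil)) nil)
  (node (nat_lit 8) (nat_lit 110283) (nat_lit 8) (node (nat_lit 4) (nat_lit 110283) (nat_lit 9)
  nil (node (nat_lit 7) (nat_lit 110283) (nat_lit 9) nil nil)) nil))) (node (nat_lit 0) (nat_lit
  110283) (nat_lit 7) (node (nat_lit 8) (nat_lit 110283) (nat_lit 8) (node (nat_lit 4) (nat_lit
  110283) (nat_lit 9) nil nil) (node (nat_lit 7) (nat_lit 110283) (nat_lit 8) nil nil)) nil))))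
  (node (nat_lit 7) (nat_lit 110283) (nat_lit 6) (node (nat_lit 4) (nat_lit 110283) (nat_lit 7)
  (node (nat_lit 8) (nat_lit 110283) (nat_lit 8) (node (nat_lit 4) (nat_lit 110283) (nat_lit 9)
  nil nil) (node (nat_lit 5) (nat_lit 110283) (nat_lit 8) (node (nat_lit 8) (nat_lit 110283)
  (nat_lit 9) nil (node (nat_lit 4) (nat_lit 110283) (nat_lit 9) (node (nat_lit 7) (nat_lit 61942)
  (nat_lit 10) nil nil) nil)) nil)) nil) (node (nat_lit 4) (nat_lit 110080) (nat_lit 6) (node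
  (nat_lit 5) (nat_lit 110080) (nat_lit 7) (node (nat_lit 4) (nat_lit 110080) (nat_lit 8) (node
  (nat_lit 7) (nat_lit 71069) (nat_lit 9) nil nil) (node (nat_lit 7) (nat_lit 110283) (nat_lit 8)
  (node (nat_lit 4) (nat_lit 110283) (nat_lit 9) nil nil) nil)) (node (nat_lit 8) (nat_lit 110080)
  (nat_lit 7) (node (nat_lit 7) (nat_lit 110283) (nat_lit 8) (node (nat_lit 4) (nat_lit 110283)
  (nat_lit 9) nil nil) nil) (node (nat_lit 7) (nat_lit 110283) (nat_lit 7) (node (nat_lit 4)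
  (nat_lit 110283) (nat_lit 8) nil nil) nil))) (node (nat_lit 0) (nat_lit 110283) (nat_lit 6)
  (node (nat_lit 8) (nat_lit 110283) (nat_lit 7) nil (node (nat_lit 7) (nat_lit 110283) (nat_lit
  7) nil nil)) nil)))) (node (nat_lit 5) (nat_lit 0) (nat_lit 5) (node (nat_lit 7) (nat_lit 0)
  (nat_lit 6) (node (nat_lit 4) (nat_lit 106588) (nat_lit 7) (node (nat_lit 5) (nat_lit 110283)
  (nat_lit 8) (node (nat_lit 4) (nat_lit 110283) (nat_lit 9) (node (nat_lit 7) (nat_lit 83509)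
  (nat_lit 10) nil nil) nil) (node (nat_lit 3) (nat_lit 110283) (nat_lit 8) nil (node (nat_lit 7)
  (nat_lit 110283) (nat_lit 8) nil nil))) (node (nat_lit 3) (nat_lit 110283) (nat_lit 7) nil (node
  (nat_lit 0) (nat_lit 110283) (nat_lit 7) nil nil))) (node (nat_lit 4) (nat_lit 0) (nat_lit 6)
  (node (nat_lit 5) (nat_lit 105498) (nat_lit 7) (node (nat_lit 7) (nat_lit 110283) (nat_lit 8)
  (node (nat_lit 5) (nat_lit 110283) (nat_lit 9) (node (nat_lit 4) (nat_lit 110283) (nat_lit 10)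
  (node (nat_lit 7) (nat_lit 110283) (nat_lit 11) (node (nat_lit 4) (nat_lit 110283) (nat_lit 12)
  (node (nat_lit 5) (nat_lit 110283) (nat_lit 13) (node (nat_lit 4) (nat_lit 110283) (nat_lit 14)
  (node (nat_lit 7) (nat_lit 110283) (nat_lit 15) (node (nat_lit 5) (nat_lit 110283) (nat_lit 16)
  (node (nat_lit 4) (nat_lit 110283) (nat_lit 17) (node (nat_lit 5) (nat_lit 110283) (nat_lit 18)
  (node (nat_lit 7) (nat_lit 90437) (nat_lit 19) (node (nat_lit 5) (nat_lit 51848) (nat_lit 20)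
  nil nil) nil) nil) nil) nil) nil) nil) nil) nil) nil) nil) (node (nat_lit 4) (nat_lit 110283)
  (nat_lit 9) (node (nat_lit 5) (nat_lit 106490) (nat_lit 10) (node (nat_lit 4) (nat_lit 99406)
  (nat_lit 11) (node (nat_lit 7) (nat_lit 96163) (nat_lit 12) (node (nat_lit 5) (nat_lit 69867)
  (nat_lit 13) (node (nat_lit 4) (nat_lit 50300) (nat_lit 14) nil nil) nil) nil) nil) nil) nil))
  nil) (node (nat_lit 3) (nat_lit 109775) (nat_lit 7) (node (nat_lit 4) (nat_lit 109775) (nat_lit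
  8) nil nil) (node (nat_lit 0) (nat_lit 110283) (nat_lit 7) nil nil))) (node (nat_lit 3) (nat_lit
  109775) (nat_lit 6) (node (nat_lit 7) (nat_lit 110283) (nat_lit 7) (node (nat_lit 9) (nat_lit
  110283) (nat_lit 8) nil (node (nat_lit 4) (nat_lit 110283) (nat_lit 8) nil nil)) (node (nat_lit
  4) (nat_lit 109775) (nat_lit 7) (node (nat_lit 5) (nat_lit 109775) (nat_lit 8) (node (nat_lit 4)
  (nat_lit 97214) (nat_lit 9) (node (nat_lit 7) (nat_lit 64932) (nat_lit 10) nil nil) nil) nil)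
  nil)) (node (nat_lit 0) (nat_lit 110283) (nat_lit 6) nil nil)))) (node (nat_lit 4) (nat_lit 0)
  (nat_lit 5) (node (nat_lit 5) (nat_lit 87061) (nat_lit 6) (node (nat_lit 7) (nat_lit 92892)
  (nat_lit 7) nil nil) (node (nat_lit 3) (nat_lit 106542) (nat_lit 6) (node (nat_lit 7) (nat_lit
  110283) (nat_lit 7) (node (nat_lit 9) (nat_lit 110283) (nat_lit 8) (node (nat_lit 4) (nat_lit
  110283) (nat_lit 9) nil nil) nil) (node (nat_lit 4) (nat_lit 109834) (nat_lit 7) (node (nat_lit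
  5) (nat_lit 109834) (nat_lit 8) (node (nat_lit 4) (nat_lit 99814) (nat_lit 9) (node (nat_lit 7)
  (nat_lit 66052) (nat_lit 10) nil nil) nil) nil) nil)) (node (nat_lit 0) (nat_lit 108254)
  (nat_lit 6) nil nil))) (node (nat_lit 0) (nat_lit 110283) (nat_lit 5) (node (nat_lit 7) (nat_lit
  110283) (nat_lit 6) (node (nat_lit 4) (nat_lit 110283) (nat_lit 7) (node (nat_lit 5) (nat_lit
  110283) (nat_lit 8) nil nil) nil) (node (nat_lit 0) (nat_lit 110283) (nat_lit 6) nil (node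
  (nat_lit 5) (nat_lit 110283) (nat_lit 6) (node (nat_lit 7) (nat_lit 110283) (nat_lit 7) nil nil)
  nil))) nil)))) (node (nat_lit 3) (nat_lit 0) (nat_lit 4) (node (nat_lit 1) (nat_lit 0) (nat_lit
  5) (node (nat_lit 5) (nat_lit 104385) (nat_lit 6) (node (nat_lit 4) (nat_lit 104385) (nat_lit 7)
  (node (nat_lit 7) (nat_lit 104385) (nat_lit 8) (node (nat_lit 4) (nat_lit 104385) (nat_lit 9)
  nil nil) nil) (node (nat_lit 8) (nat_lit 104385) (nat_lit 7) (node (nat_lit 7) (nat_lit 104385)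
  (nat_lit 8) (node (nat_lit 5) (nat_lit 104385) (nat_lit 9) (node (nat_lit 7) (nat_lit 104385)
  (nat_lit 10) (node (nat_lit 8) (nat_lit 104385) (nat_lit 11) nil nil) nil) (node (nat_lit 8)
  (nat_lit 104385) (nat_lit 9) (node (nat_lit 4) (nat_lit 104385) (nat_lit 10) nil nil) (node
  (nat_lit 4) (nat_lit 104385) (nat_lit 9) nil nil))) (node (nat_lit 4) (nat_lit 104385) (nat_lit
  8) (node (nat_lit 5) (nat_lit 104385) (nat_lit 9) (node (nat_lit 4) (nat_lit 104385) (nat_lit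
  10) (node (nat_lit 7) (nat_lit 104385) (nat_lit 11) (node (nat_lit 8) (nat_lit 69254) (nat_lit
  12) nil nil) nil) nil) nil) nil)) (node (nat_lit 7) (nat_lit 104385) (nat_lit 7) (node (nat_lit
  4) (nat_lit 104385) (nat_lit 8) (node (nat_lit 8) (nat_lit 104385) (nat_lit 9) (node (nat_lit 4)
  (nat_lit 104385) (nat_lit 10) nil (node (nat_lit 7) (nat_lit 104385) (nat_lit 10) nil nil))
  (node (nat_lit 5) (nat_lit 104385) (nat_lit 9) (node (nat_lit 4) (nat_lit 101826) (nat_lit 10)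
  (node (nat_lit 7) (nat_lit 92113) (nat_lit 11) (node (nat_lit 8) (nat_lit 66219) (nat_lit 12)
  nil nil) nil) nil) nil)) (node (nat_lit 5) (nat_lit 104385) (nat_lit 8) (node (nat_lit 8)
  (nat_lit 104385) (nat_lit 9) (node (nat_lit 7) (nat_lit 104385) (nat_lit 10) nil (node (nat_lit
  4) (nat_lit 104385) (nat_lit 10) nil nil)) nil) (node (nat_lit 8) (nat_lit 104385) (nat_lit 8)
  (node (nat_lit 7) (nat_lit 104385) (nat_lit 9) nil nil) nil))) nil))) (node (nat_lit 7) (nat_lit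
  104385) (nat_lit 6) (node (nat_lit 4) (nat_lit 104385) (nat_lit 7) (node (nat_lit 8) (nat_lit
  104385) (nat_lit 8) (node (nat_lit 4) (nat_lit 104385) (nat_lit 9) (node (nat_lit 7) (nat_lit
  104385) (nat_lit 10) (node (nat_lit 4) (nat_lit 104385) (nat_lit 11) nil (node (nat_lit 8)
  (nat_lit 104385) (nat_lit 11) nil nil)) nil) nil) (node (nat_lit 5) (nat_lit 104385) (nat_lit 8)
  (node (nat_lit 8) (nat_lit 104385) (nat_lit 9) (node (nat_lit 7) (nat_lit 104385) (nat_lit 10)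
  (node (nat_lit 8) (nat_lit 104385) (nat_lit 11) nil nil) nil) (node (nat_lit 4) (nat_lit 104385)
  (nat_lit 9) (node (nat_lit 7) (nat_lit 104385) (nat_lit 10) (node (nat_lit 8) (nat_lit 67535)
  (nat_lit 11) nil nil) nil) nil)) (node (nat_lit 7) (nat_lit 104385) (nat_lit 8) (node (nat_lit
  8) (nat_lit 104385) (nat_lit 9) nil nil) nil))) (node (nat_lit 5) (nat_lit 104385) (nat_lit 7)
  (node (nat_lit 4) (nat_lit 104385) (nat_lit 8) (node (nat_lit 7) (nat_lit 104385) (nat_lit 9)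
  (node (nat_lit 4) (nat_lit 104385) (nat_lit 10) (node (nat_lit 5) (nat_lit 104385) (nat_lit 11)
  nil nil) (node (nat_lit 8) (nat_lit 104385) (nat_lit 10) nil nil)) (node (nat_lit 8) (nat_lit
  104385) (nat_lit 9) nil nil)) (node (nat_lit 7) (nat_lit 104385) (nat_lit 8) (node (nat_lit 8)
  (nat_lit 104385) (nat_lit 9) nil (node (nat_lit 4) (nat_lit 104385) (nat_lit 9) nil nil)) (node
  (nat_lit 8) (nat_lit 104385) (nat_lit 8) (node (nat_lit 4) (nat_lit 104385) (nat_lit 9) nil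
  (node (nat_lit 7) (nat_lit 104385) (nat_lit 9) nil nil)) nil))) (node (nat_lit 0) (nat_lit
  104385) (nat_lit 7) (node (nat_lit 8) (nat_lit 104385) (nat_lit 8) (node (nat_lit 7) (nat_lit
  104385) (nat_lit 9) nil nil) (node (nat_lit 7) (nat_lit 104385) (nat_lit 8) (node (nat_lit 8)
  (nat_lit 104385) (nat_lit 9) nil nil) nil)) nil))) (node (nat_lit 4) (nat_lit 104385) (nat_lit
  6) (node (nat_lit 5) (nat_lit 100812) (nat_lit 7) (node (nat_lit 4) (nat_lit 65145) (nat_lit 8)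
  (node (nat_lit 8) (nat_lit 65145) (nat_lit 9) nil nil) (node (nat_lit 8) (nat_lit 102658)
  (nat_lit 8) nil (node (nat_lit 7) (nat_lit 100508) (nat_lit 8) (node (nat_lit 4) (nat_lit 99590)
  (nat_lit 9) nil nil) nil))) (node (nat_lit 8) (nat_lit 104385) (nat_lit 7) (node (nat_lit 7)
  (nat_lit 104385) (nat_lit 8) (node (nat_lit 4) (nat_lit 104385) (nat_lit 9) nil (node (nat_lit
  8) (nat_lit 104385) (nat_lit 9) nil nil)) nil) (node (nat_lit 7) (nat_lit 104385) (nat_lit 7)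
  (node (nat_lit 4) (nat_lit 104385) (nat_lit 8) (node (nat_lit 8) (nat_lit 104385) (nat_lit 9)
  nil nil) (node (nat_lit 5) (nat_lit 104249) (nat_lit 8) nil nil)) nil))) (node (nat_lit 0)
  (nat_lit 104385) (nat_lit 6) (node (nat_lit 7) (nat_lit 104385) (nat_lit 7) (node (nat_lit 8)
  (nat_lit 104385) (nat_lit 8) nil (node (nat_lit 4) (nat_lit 104385) (nat_lit 8) nil nil)) (node
  (nat_lit 8) (nat_lit 104385) (nat_lit 7) (node (nat_lit 4) (nat_lit 104385) (nat_lit 8) nil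
  (node (nat_lit 7) (nat_lit 104385) (nat_lit 8) nil nil)) nil)) nil)))) (node (nat_lit 5)
  (nat_lit 0) (nat_lit 5) (node (nat_lit 7) (nat_lit 0) (nat_lit 6) (node (nat_lit 4) (nat_lit
  85074) (nat_lit 7) (node (nat_lit 5) (nat_lit 93888) (nat_lit 8) (node (nat_lit 4) (nat_lit
  85494) (nat_lit 9) (node (nat_lit 7) (nat_lit 83631) (nat_lit 10) (node (nat_lit 5) (nat_lit
  69657) (nat_lit 11) nil (node (nat_lit 4) (nat_lit 83631) (nat_lit 11) (node (nat_lit 5)
  (nat_lit 83631) (nat_lit 12) nil nil) nil)) nil) (node (nat_lit 7) (nat_lit 93888) (nat_lit 9)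
  nil nil)) (node (nat_lit 1) (nat_lit 93888) (nat_lit 8) nil (node (nat_lit 7) (nat_lit 92792)
  (nat_lit 8) nil nil))) (node (nat_lit 1) (nat_lit 93888) (nat_lit 7) (node (nat_lit 7) (nat_lit
  93888) (nat_lit 8) nil (node (nat_lit 4) (nat_lit 93539) (nat_lit 8) (node (nat_lit 5) (nat_lit
  91489) (nat_lit 9) (node (nat_lit 4) (nat_lit 86849) (nat_lit 10) nil nil) nil) nil)) (node
  (nat_lit 0) (nat_lit 93888) (nat_lit 7) nil nil))) (node (nat_lit 4) (nat_lit 0) (nat_lit 6)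
  (node (nat_lit 5) (nat_lit 85037) (nat_lit 7) (node (nat_lit 7) (nat_lit 99280) (nat_lit 8)
  (node (nat_lit 5) (nat_lit 100715) (nat_lit 9) (node (nat_lit 4) (nat_lit 100629) (nat_lit 10)
  (node (nat_lit 7) (nat_lit 100715) (nat_lit 11) (node (nat_lit 4) (nat_lit 100715) (nat_lit 12)
  (node (nat_lit 5) (nat_lit 100141) (nat_lit 13) (node (nat_lit 4) (nat_lit 98333) (nat_lit 14)
  (node (nat_lit 7) (nat_lit 95577) (nat_lit 15) (node (nat_lit 5) (nat_lit 93888) (nat_lit 16)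
  (node (nat_lit 4) (nat_lit 93888) (nat_lit 17) (node (nat_lit 5) (nat_lit 87972) (nat_lit 18)
  (node (nat_lit 7) (nat_lit 81065) (nat_lit 19) (node (nat_lit 5) (nat_lit 61941) (nat_lit 20)
  nil nil) nil) nil) nil) nil) nil) nil) nil) nil) nil) nil) (node (nat_lit 4) (nat_lit 99757)
  (nat_lit 9) (node (nat_lit 5) (nat_lit 93888) (nat_lit 10) (node (nat_lit 4) (nat_lit 93888)
  (nat_lit 11) (node (nat_lit 7) (nat_lit 93888) (nat_lit 12) (node (nat_lit 5) (nat_lit 85494)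
  (nat_lit 13) (node (nat_lit 4) (nat_lit 63583) (nat_lit 14) nil nil) nil) nil) nil) nil) (node
  (nat_lit 1) (nat_lit 98864) (nat_lit 9) nil nil))) (node (nat_lit 1) (nat_lit 100715) (nat_lit
  8) (node (nat_lit 4) (nat_lit 100715) (nat_lit 9) nil nil) (node (nat_lit 0) (nat_lit 100164)
  (nat_lit 8) nil nil))) (node (nat_lit 1) (nat_lit 100715) (nat_lit 7) (node (nat_lit 7) (nat_lit
  100715) (nat_lit 8) (node (nat_lit 4) (nat_lit 100715) (nat_lit 9) nil nil) (node (nat_lit 5)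
  (nat_lit 100715) (nat_lit 8) (node (nat_lit 7) (nat_lit 100715) (nat_lit 9) nil nil) (node
  (nat_lit 4) (nat_lit 100715) (nat_lit 8) (node (nat_lit 5) (nat_lit 100654) (nat_lit 9) nil nil)
  nil))) (node (nat_lit 0) (nat_lit 100715) (nat_lit 7) (node (nat_lit 7) (nat_lit 100715)
  (nat_lit 8) nil nil) nil))) (node (nat_lit 1) (nat_lit 100715) (nat_lit 6) (node (nat_lit 7)
  (nat_lit 100715) (nat_lit 7) (node (nat_lit 4) (nat_lit 100715) (nat_lit 8) (node (nat_lit 5)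
  (nat_lit 100715) (nat_lit 9) (node (nat_lit 4) (nat_lit 100715) (nat_lit 10) (node (nat_lit 7)
  (nat_lit 100715) (nat_lit 11) (node (nat_lit 5) (nat_lit 100715) (nat_lit 12) nil nil) nil) nil)
  nil) nil) (node (nat_lit 4) (nat_lit 100009) (nat_lit 7) (node (nat_lit 5) (nat_lit 93235)
  (nat_lit 8) (node (nat_lit 4) (nat_lit 81452) (nat_lit 9) (node (nat_lit 7) (nat_lit 54009)
  (nat_lit 10) nil nil) nil) nil) nil)) (node (nat_lit 0) (nat_lit 100715) (nat_lit 6) (node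
  (nat_lit 7) (nat_lit 100715) (nat_lit 7) (node (nat_lit 4) (nat_lit 100715) (nat_lit 8) (node
  (nat_lit 5) (nat_lit 100715) (nat_lit 9) nil nil) nil) nil) nil)))) (node (nat_lit 4) (nat_lit
  0) (nat_lit 5) (node (nat_lit 5) (nat_lit 0) (nat_lit 6) (node (nat_lit 7) (nat_lit 85007)
  (nat_lit 7) (node (nat_lit 4) (nat_lit 93888) (nat_lit 8) nil (node (nat_lit 5) (nat_lit 93888)
  (nat_lit 8) nil (node (nat_lit 1) (nat_lit 93888) (nat_lit 8) nil nil))) (node (nat_lit 4)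
  (nat_lit 73718) (nat_lit 7) nil (node (nat_lit 1) (nat_lit 93888) (nat_lit 7) nil (node (nat_lit
  0) (nat_lit 93888) (nat_lit 7) nil nil)))) (node (nat_lit 1) (nat_lit 93888) (nat_lit 6) (node
  (nat_lit 7) (nat_lit 93888) (nat_lit 7) (node (nat_lit 4) (nat_lit 93888) (nat_lit 8) nil nil)
  (node (nat_lit 4) (nat_lit 93888) (nat_lit 7) (node (nat_lit 5) (nat_lit 93746) (nat_lit 8)
  (node (nat_lit 4) (nat_lit 79300) (nat_lit 9) (node (nat_lit 7) (nat_lit 56844) (nat_lit 10) nil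
  nil) nil) nil) (node (nat_lit 5) (nat_lit 93888) (nat_lit 7) (node (nat_lit 4) (nat_lit 93888)
  (nat_lit 8) (node (nat_lit 7) (nat_lit 93888) (nat_lit 9) nil nil) nil) nil))) (node (nat_lit 0)
  (nat_lit 93888) (nat_lit 6) (node (nat_lit 7) (nat_lit 93888) (nat_lit 7) (node (nat_lit 4)
  (nat_lit 93888) (nat_lit 8) nil nil) (node (nat_lit 4) (nat_lit 93888) (nat_lit 7) nil nil))
  nil))) (node (nat_lit 0) (nat_lit 103529) (nat_lit 5) (node (nat_lit 7) (nat_lit 104385)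
  (nat_lit 6) (node (nat_lit 4) (nat_lit 104385) (nat_lit 7) (node (nat_lit 5) (nat_lit 104385)
  (nat_lit 8) nil nil) nil) (node (nat_lit 4) (nat_lit 104385) (nat_lit 6) (node (nat_lit 7)
  (nat_lit 104385) (nat_lit 7) nil nil) (node (nat_lit 1) (nat_lit 104385) (nat_lit 6) nil (node
  (nat_lit 5) (nat_lit 104385) (nat_lit 6) (node (nat_lit 7) (nat_lit 104385) (nat_lit 7) nil nil)
  nil)))) nil)))) (node (nat_lit 0) (nat_lit 0) (nat_lit 4) (node (nat_lit 5) (nat_lit 106689)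
  (nat_lit 5) (node (nat_lit 3) (nat_lit 109775) (nat_lit 6) (node (nat_lit 4) (nat_lit 109775)
  (nat_lit 7) nil nil) (node (nat_lit 1) (nat_lit 110283) (nat_lit 6) (node (nat_lit 4) (nat_lit
  110283) (nat_lit 7) nil nil) (node (nat_lit 4) (nat_lit 109775) (nat_lit 6) nil nil))) (node
  (nat_lit 3) (nat_lit 110080) (nat_lit 5) (node (nat_lit 4) (nat_lit 110080) (nat_lit 6) (node
  (nat_lit 5) (nat_lit 110080) (nat_lit 7) (node (nat_lit 4) (nat_lit 110080) (nat_lit 8) nil nil)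
  nil) (node (nat_lit 1) (nat_lit 110283) (nat_lit 6) nil nil)) (node (nat_lit 1) (nat_lit 110283)
  (nat_lit 5) (node (nat_lit 4) (nat_lit 110283) (nat_lit 6) (node (nat_lit 5) (nat_lit 110283)
  (nat_lit 7) (node (nat_lit 4) (nat_lit 110283) (nat_lit 8) nil nil) nil) nil) (node (nat_lit 4)
  (nat_lit 106643) (nat_lit 5) (node (nat_lit 1) (nat_lit 110283) (nat_lit 6) nil (node (nat_lit
  3) (nat_lit 109834) (nat_lit 6) nil nil)) (node (nat_lit 0) (nat_lit 110283) (nat_lit 5) (node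
  (nat_lit 1) (nat_lit 110283) (nat_lit 6) nil (node (nat_lit 3) (nat_lit 110283) (nat_lit 6)
  (node (nat_lit 4) (nat_lit 110283) (nat_lit 7) nil nil) nil)) nil))))) nil)))

noncomputable def t115 : Tr :=
  (node (nat_lit 1) (nat_lit 0) (nat_lit 3) (node (nat_lit 3) (nat_lit 0) (nat_lit 4) (node
  (nat_lit 4) (nat_lit 0) (nat_lit 5) (node (nat_lit 5) (nat_lit 122997) (nat_lit 6) (node
  (nat_lit 6) (nat_lit 73535) (nat_lit 7) nil nil) (node (nat_lit 7) (nat_lit 123592) (nat_lit 6)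
  (node (nat_lit 6) (nat_lit 127072) (nat_lit 7) (node (nat_lit 4) (nat_lit 127072) (nat_lit 8)
  nil (node (nat_lit 7) (nat_lit 127072) (nat_lit 8) (node (nat_lit 4) (nat_lit 127072) (nat_lit
  9) nil nil) nil)) nil) (node (nat_lit 6) (nat_lit 124284) (nat_lit 6) (node (nat_lit 5) (nat_lit
  126048) (nat_lit 7) (node (nat_lit 6) (nat_lit 129362) (nat_lit 8) nil nil) (node (nat_lit 4)
  (nat_lit 121475) (nat_lit 7) (node (nat_lit 7) (nat_lit 122789) (nat_lit 8) nil (node (nat_lit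
  5) (nat_lit 110651) (nat_lit 8) (node (nat_lit 6) (nat_lit 101934) (nat_lit 9) (node (nat_lit 7)
  (nat_lit 90669) (nat_lit 10) nil nil) nil) nil)) nil)) (node (nat_lit 0) (nat_lit 126878)
  (nat_lit 6) nil nil)))) (node (nat_lit 5) (nat_lit 0) (nat_lit 5) (node (nat_lit 7) (nat_lit 0)
  (nat_lit 6) (node (nat_lit 6) (nat_lit 127919) (nat_lit 7) (node (nat_lit 5) (nat_lit 129393)
  (nat_lit 8) (node (nat_lit 6) (nat_lit 130596) (nat_lit 9) (node (nat_lit 7) (nat_lit 130596)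
  (nat_lit 10) nil nil) nil) (node (nat_lit 4) (nat_lit 126560) (nat_lit 8) nil nil)) (node
  (nat_lit 4) (nat_lit 121428) (nat_lit 7) (node (nat_lit 6) (nat_lit 124154) (nat_lit 8) nil
  (node (nat_lit 5) (nat_lit 118965) (nat_lit 8) (node (nat_lit 6) (nat_lit 104491) (nat_lit 9)
  (node (nat_lit 7) (nat_lit 87935) (nat_lit 10) (node (nat_lit 5) (nat_lit 72547) (nat_lit 11)
  nil nil) nil) nil) nil)) (node (nat_lit 0) (nat_lit 127739) (nat_lit 7) nil nil))) (node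
  (nat_lit 6) (nat_lit 124009) (nat_lit 6) (node (nat_lit 5) (nat_lit 124009) (nat_lit 7) (node
  (nat_lit 7) (nat_lit 123371) (nat_lit 8) nil nil) (node (nat_lit 4) (nat_lit 119886) (nat_lit 7)
  (node (nat_lit 5) (nat_lit 109996) (nat_lit 8) (node (nat_lit 6) (nat_lit 102676) (nat_lit 9)
  nil nil) nil) nil)) (node (nat_lit 4) (nat_lit 126392) (nat_lit 6) (node (nat_lit 7) (nat_lit
  127749) (nat_lit 7) (node (nat_lit 6) (nat_lit 128074) (nat_lit 8) (node (nat_lit 4) (nat_lit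
  122943) (nat_lit 9) nil nil) (node (nat_lit 4) (nat_lit 124456) (nat_lit 8) (node (nat_lit 5)
  (nat_lit 120039) (nat_lit 9) (node (nat_lit 6) (nat_lit 99992) (nat_lit 10) (node (nat_lit 7)
  (nat_lit 86324) (nat_lit 11) (node (nat_lit 5) (nat_lit 73794) (nat_lit 12) nil nil) nil) nil)
  nil) nil)) (node (nat_lit 6) (nat_lit 130859) (nat_lit 7) (node (nat_lit 4) (nat_lit 129803)
  (nat_lit 8) (node (nat_lit 5) (nat_lit 120511) (nat_lit 9) (node (nat_lit 6) (nat_lit 111293)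
  (nat_lit 10) (node (nat_lit 7) (nat_lit 100066) (nat_lit 11) (node (nat_lit 5) (nat_lit 84039)
  (nat_lit 12) nil nil) nil) nil) nil) nil) nil)) (node (nat_lit 0) (nat_lit 129735) (nat_lit 6)
  (node (nat_lit 7) (nat_lit 129735) (nat_lit 7) nil (node (nat_lit 6) (nat_lit 130879) (nat_lit
  7) nil nil)) nil)))) (node (nat_lit 6) (nat_lit 0) (nat_lit 5) (node (nat_lit 5) (nat_lit
  117388) (nat_lit 6) (node (nat_lit 6) (nat_lit 122407) (nat_lit 7) (node (nat_lit 7) (nat_lit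
  126419) (nat_lit 8) nil nil) (node (nat_lit 7) (nat_lit 123975) (nat_lit 7) nil (node (nat_lit
  4) (nat_lit 122930) (nat_lit 7) nil nil))) (node (nat_lit 4) (nat_lit 125500) (nat_lit 6) (node
  (nat_lit 7) (nat_lit 129747) (nat_lit 7) nil (node (nat_lit 5) (nat_lit 120357) (nat_lit 7)
  (node (nat_lit 6) (nat_lit 69063) (nat_lit 8) (node (nat_lit 7) (nat_lit 28075) (nat_lit 9) nil
  nil) nil) nil)) (node (nat_lit 0) (nat_lit 125226) (nat_lit 6) nil nil))) (node (nat_lit 0)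
  (nat_lit 123767) (nat_lit 5) (node (nat_lit 6) (nat_lit 127538) (nat_lit 6) nil (node (nat_lit
  7) (nat_lit 124333) (nat_lit 6) nil (node (nat_lit 4) (nat_lit 124333) (nat_lit 6) nil nil)))
  nil)))) (node (nat_lit 5) (nat_lit 0) (nat_lit 4) (node (nat_lit 3) (nat_lit 0) (nat_lit 5)
  (node (nat_lit 6) (nat_lit 124442) (nat_lit 6) (node (nat_lit 8) (nat_lit 128699) (nat_lit 7)
  (node (nat_lit 5) (nat_lit 128699) (nat_lit 8) (node (nat_lit 6) (nat_lit 128243) (nat_lit 9)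
  (node (nat_lit 5) (nat_lit 128243) (nat_lit 10) (node (nat_lit 8) (nat_lit 127639) (nat_lit 11)
  (node (nat_lit 4) (nat_lit 127197) (nat_lit 12) (node (nat_lit 5) (nat_lit 127793) (nat_lit 13)
  nil nil) nil) nil) nil) nil) (node (nat_lit 4) (nat_lit 128699) (nat_lit 8) nil nil)) (node
  (nat_lit 5) (nat_lit 128699) (nat_lit 7) (node (nat_lit 6) (nat_lit 129035) (nat_lit 8) nil nil)
  (node (nat_lit 4) (nat_lit 127943) (nat_lit 7) (node (nat_lit 5) (nat_lit 119347) (nat_lit 8)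
  (node (nat_lit 6) (nat_lit 95667) (nat_lit 9) (node (nat_lit 5) (nat_lit 62816) (nat_lit 10) nil
  nil) nil) nil) nil))) (node (nat_lit 5) (nat_lit 122045) (nat_lit 6) (node (nat_lit 6) (nat_lit
  126237) (nat_lit 7) (node (nat_lit 8) (nat_lit 126237) (nat_lit 8) nil nil) (node (nat_lit 4)
  (nat_lit 123337) (nat_lit 7) (node (nat_lit 8) (nat_lit 123284) (nat_lit 8) nil (node (nat_lit
  6) (nat_lit 125723) (nat_lit 8) nil nil)) nil)) (node (nat_lit 4) (nat_lit 123337) (nat_lit 6)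
  (node (nat_lit 6) (nat_lit 126237) (nat_lit 7) (node (nat_lit 4) (nat_lit 122530) (nat_lit 8)
  nil nil) (node (nat_lit 5) (nat_lit 105382) (nat_lit 7) (node (nat_lit 6) (nat_lit 74674)
  (nat_lit 8) nil nil) (node (nat_lit 8) (nat_lit 123337) (nat_lit 7) (node (nat_lit 6) (nat_lit
  126486) (nat_lit 8) nil (node (nat_lit 5) (nat_lit 121675) (nat_lit 8) (node (nat_lit 6)
  (nat_lit 123818) (nat_lit 9) nil nil) nil)) nil))) (node (nat_lit 0) (nat_lit 125874) (nat_lit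
  6) (node (nat_lit 6) (nat_lit 126237) (nat_lit 7) (node (nat_lit 4) (nat_lit 126237) (nat_lit 8)
  nil nil) nil) nil)))) (node (nat_lit 4) (nat_lit 0) (nat_lit 5) (node (nat_lit 6) (nat_lit
  88417) (nat_lit 6) (node (nat_lit 4) (nat_lit 104428) (nat_lit 7) (node (nat_lit 5) (nat_lit
  117770) (nat_lit 8) (node (nat_lit 6) (nat_lit 109695) (nat_lit 9) (node (nat_lit 5) (nat_lit
  100772) (nat_lit 10) (node (nat_lit 4) (nat_lit 35148) (nat_lit 11) (node (nat_lit 3) (nat_lit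
  35148) (nat_lit 12) nil (node (nat_lit 5) (nat_lit 35148) (nat_lit 12) nil nil)) nil) nil) nil)
  (node (nat_lit 3) (nat_lit 126180) (nat_lit 8) nil nil)) (node (nat_lit 5) (nat_lit 104907)
  (nat_lit 7) (node (nat_lit 6) (nat_lit 118593) (nat_lit 8) (node (nat_lit 4) (nat_lit 124133)
  (nat_lit 9) (node (nat_lit 5) (nat_lit 123740) (nat_lit 10) nil nil) nil) nil) (node (nat_lit 3)
  (nat_lit 127719) (nat_lit 7) nil (node (nat_lit 0) (nat_lit 127053) (nat_lit 7) nil nil))))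
  (node (nat_lit 3) (nat_lit 121564) (nat_lit 6) (node (nat_lit 6) (nat_lit 126382) (nat_lit 7)
  (node (nat_lit 4) (nat_lit 123296) (nat_lit 8) (node (nat_lit 5) (nat_lit 112023) (nat_lit 9)
  (node (nat_lit 6) (nat_lit 97723) (nat_lit 10) (node (nat_lit 5) (nat_lit 78461) (nat_lit 11)
  (node (nat_lit 4) (nat_lit 53877) (nat_lit 12) nil nil) nil) nil) nil) nil) (node (nat_lit 5)
  (nat_lit 122646) (nat_lit 7) (node (nat_lit 6) (nat_lit 125099) (nat_lit 8) nil nil) (node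
  (nat_lit 4) (nat_lit 116848) (nat_lit 7) (node (nat_lit 6) (nat_lit 116820) (nat_lit 8) nil
  (node (nat_lit 5) (nat_lit 111521) (nat_lit 8) (node (nat_lit 6) (nat_lit 89340) (nat_lit 9)
  (node (nat_lit 5) (nat_lit 76061) (nat_lit 10) nil nil) nil) nil)) nil))) (node (nat_lit 5)
  (nat_lit 88357) (nat_lit 6) (node (nat_lit 6) (nat_lit 104884) (nat_lit 7) (node (nat_lit 4)
  (nat_lit 120826) (nat_lit 8) (node (nat_lit 6) (nat_lit 124535) (nat_lit 9) (node (nat_lit 5)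
  (nat_lit 123037) (nat_lit 10) (node (nat_lit 6) (nat_lit 123874) (nat_lit 11) (node (nat_lit 4)
  (nat_lit 123003) (nat_lit 12) (node (nat_lit 5) (nat_lit 122352) (nat_lit 13) (node (nat_lit 6)
  (nat_lit 122818) (nat_lit 14) (node (nat_lit 5) (nat_lit 122439) (nat_lit 15) (node (nat_lit 4)
  (nat_lit 122141) (nat_lit 16) (node (nat_lit 5) (nat_lit 116077) (nat_lit 17) (node (nat_lit 6)
  (nat_lit 106531) (nat_lit 18) (node (nat_lit 4) (nat_lit 94014) (nat_lit 19) (node (nat_lit 6)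
  (nat_lit 56991) (nat_lit 20) (node (nat_lit 5) (nat_lit 27280) (nat_lit 21) nil nil) nil) nil)
  nil) nil) nil) nil) nil) nil) nil) nil) nil) nil) (node (nat_lit 3) (nat_lit 127219) (nat_lit 8)
  nil nil)) (node (nat_lit 3) (nat_lit 123852) (nat_lit 7) (node (nat_lit 4) (nat_lit 120942)
  (nat_lit 8) (node (nat_lit 5) (nat_lit 115191) (nat_lit 9) (node (nat_lit 6) (nat_lit 89340)
  (nat_lit 10) (node (nat_lit 5) (nat_lit 72184) (nat_lit 11) (node (nat_lit 4) (nat_lit 71206)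
  (nat_lit 12) nil nil) nil) nil) nil) nil) (node (nat_lit 0) (nat_lit 127219) (nat_lit 7) nil
  nil))) (node (nat_lit 0) (nat_lit 123319) (nat_lit 6) (node (nat_lit 6) (nat_lit 127219)
  (nat_lit 7) nil nil) nil)))) (node (nat_lit 0) (nat_lit 0) (nat_lit 5) (node (nat_lit 6)
  (nat_lit 128934) (nat_lit 6) (node (nat_lit 4) (nat_lit 127279) (nat_lit 7) nil nil) (node
  (nat_lit 5) (nat_lit 123751) (nat_lit 6) (node (nat_lit 6) (nat_lit 129041) (nat_lit 7) nil nil)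
  (node (nat_lit 4) (nat_lit 124822) (nat_lit 6) (node (nat_lit 6) (nat_lit 128686) (nat_lit 7)
  nil nil) (node (nat_lit 3) (nat_lit 125050) (nat_lit 6) (node (nat_lit 6) (nat_lit 125450)
  (nat_lit 7) nil (node (nat_lit 4) (nat_lit 124498) (nat_lit 7) nil nil)) (node (nat_lit 0)
  (nat_lit 128934) (nat_lit 6) nil nil))))) nil))) (node (nat_lit 4) (nat_lit 0) (nat_lit 4) (node
  (nat_lit 3) (nat_lit 0) (nat_lit 5) (node (nat_lit 5) (nat_lit 87584) (nat_lit 6) (node (nat_lit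
  6) (nat_lit 92025) (nat_lit 7) (node (nat_lit 4) (nat_lit 90458) (nat_lit 8) nil nil) nil) (node
  (nat_lit 4) (nat_lit 59292) (nat_lit 6) (node (nat_lit 6) (nat_lit 63643) (nat_lit 7) (node
  (nat_lit 8) (nat_lit 66481) (nat_lit 8) (node (nat_lit 6) (nat_lit 68476) (nat_lit 9) nil (node
  (nat_lit 4) (nat_lit 68102) (nat_lit 9) nil nil)) (node (nat_lit 5) (nat_lit 76151) (nat_lit 8)
  nil (node (nat_lit 4) (nat_lit 66481) (nat_lit 8) nil nil))) (node (nat_lit 5) (nat_lit 75782)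
  (nat_lit 7) (node (nat_lit 6) (nat_lit 64358) (nat_lit 8) nil nil) (node (nat_lit 0) (nat_lit
  74413) (nat_lit 7) nil nil))) (node (nat_lit 6) (nat_lit 73815) (nat_lit 6) (node (nat_lit 5)
  (nat_lit 91553) (nat_lit 7) (node (nat_lit 6) (nat_lit 94504) (nat_lit 8) (node (nat_lit 4)
  (nat_lit 94851) (nat_lit 9) nil nil) nil) (node (nat_lit 8) (nat_lit 78505) (nat_lit 7) (node
  (nat_lit 4) (nat_lit 81267) (nat_lit 8) nil (node (nat_lit 5) (nat_lit 91660) (nat_lit 8) nil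
  nil)) (node (nat_lit 4) (nat_lit 78315) (nat_lit 7) nil nil))) (node (nat_lit 0) (nat_lit 86127)
  (nat_lit 6) nil nil)))) (node (nat_lit 5) (nat_lit 0) (nat_lit 5) (node (nat_lit 4) (nat_lit 0)
  (nat_lit 6) (node (nat_lit 6) (nat_lit 37876) (nat_lit 7) (node (nat_lit 5) (nat_lit 38400)
  (nat_lit 8) (node (nat_lit 6) (nat_lit 38706) (nat_lit 9) nil nil) nil) (node (nat_lit 3)
  (nat_lit 25855) (nat_lit 7) (node (nat_lit 4) (nat_lit 25855) (nat_lit 8) (node (nat_lit 5)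
  (nat_lit 25855) (nat_lit 9) nil nil) (node (nat_lit 6) (nat_lit 36971) (nat_lit 8) nil nil))
  (node (nat_lit 0) (nat_lit 38020) (nat_lit 7) nil nil))) (node (nat_lit 3) (nat_lit 25683)
  (nat_lit 6) (node (nat_lit 4) (nat_lit 25734) (nat_lit 7) (node (nat_lit 9) (nat_lit 25734)
  (nat_lit 8) nil nil) (node (nat_lit 6) (nat_lit 38020) (nat_lit 7) nil (node (nat_lit 5)
  (nat_lit 25641) (nat_lit 7) nil nil))) (node (nat_lit 0) (nat_lit 36788) (nat_lit 6) nil nil)))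
  (node (nat_lit 6) (nat_lit 0) (nat_lit 5) (node (nat_lit 5) (nat_lit 80631) (nat_lit 6) (node
  (nat_lit 6) (nat_lit 89596) (nat_lit 7) (node (nat_lit 4) (nat_lit 94445) (nat_lit 8) nil nil)
  (node (nat_lit 4) (nat_lit 89499) (nat_lit 7) nil nil)) (node (nat_lit 3) (nat_lit 76220)
  (nat_lit 6) (node (nat_lit 5) (nat_lit 95928) (nat_lit 7) nil nil) (node (nat_lit 0) (nat_lit
  89212) (nat_lit 6) nil nil))) (node (nat_lit 0) (nat_lit 81979) (nat_lit 5) (node (nat_lit 6)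
  (nat_lit 91248) (nat_lit 6) nil (node (nat_lit 4) (nat_lit 91473) (nat_lit 6) nil (node (nat_lit
  3) (nat_lit 91076) (nat_lit 6) (node (nat_lit 4) (nat_lit 94703) (nat_lit 7) nil nil) nil)))
  nil)))) (node (nat_lit 0) (nat_lit 0) (nat_lit 4) (node (nat_lit 5) (nat_lit 123620) (nat_lit 5)
  (node (nat_lit 6) (nat_lit 128469) (nat_lit 6) nil nil) (node (nat_lit 3) (nat_lit 118327)
  (nat_lit 5) (node (nat_lit 6) (nat_lit 127908) (nat_lit 6) (node (nat_lit 8) (nat_lit 127908)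
  (nat_lit 7) nil nil) (node (nat_lit 4) (nat_lit 122203) (nat_lit 6) nil nil)) (node (nat_lit 6)
  (nat_lit 128245) (nat_lit 5) (node (nat_lit 4) (nat_lit 126459) (nat_lit 6) nil nil) (node
  (nat_lit 4) (nat_lit 122719) (nat_lit 5) (node (nat_lit 6) (nat_lit 129469) (nat_lit 6) (node
  (nat_lit 4) (nat_lit 128457) (nat_lit 7) nil nil) nil) (node (nat_lit 0) (nat_lit 126607)
  (nat_lit 5) (node (nat_lit 6) (nat_lit 131268) (nat_lit 6) nil nil) nil))))) nil)))) (node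
  (nat_lit 3) (nat_lit 0) (nat_lit 3) (node (nat_lit 1) (nat_lit 0) (nat_lit 4) (node (nat_lit 4)
  (nat_lit 0) (nat_lit 5) (node (nat_lit 5) (nat_lit 45274) (nat_lit 6) (node (nat_lit 4) (nat_lit
  48002) (nat_lit 7) (node (nat_lit 7) (nat_lit 49635) (nat_lit 8) (node (nat_lit 4) (nat_lit
  50798) (nat_lit 9) (node (nat_lit 5) (nat_lit 51396) (nat_lit 10) (node (nat_lit 6) (nat_lit
  51924) (nat_lit 11) nil nil) (node (nat_lit 6) (nat_lit 51726) (nat_lit 10) (node (nat_lit 7)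
  (nat_lit 52254) (nat_lit 11) nil nil) nil)) (node (nat_lit 5) (nat_lit 50798) (nat_lit 9) (node
  (nat_lit 7) (nat_lit 51726) (nat_lit 10) (node (nat_lit 4) (nat_lit 52554) (nat_lit 11) (node
  (nat_lit 5) (nat_lit 53033) (nat_lit 12) nil nil) nil) (node (nat_lit 6) (nat_lit 51726)
  (nat_lit 10) nil nil)) (node (nat_lit 6) (nat_lit 50798) (nat_lit 9) (node (nat_lit 4) (nat_lit
  51396) (nat_lit 10) nil nil) nil))) (node (nat_lit 6) (nat_lit 49635) (nat_lit 8) (node (nat_lit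
  5) (nat_lit 50798) (nat_lit 9) (node (nat_lit 6) (nat_lit 51726) (nat_lit 10) nil (node (nat_lit
  7) (nat_lit 51726) (nat_lit 10) nil nil)) (node (nat_lit 7) (nat_lit 50798) (nat_lit 9) nil
  (node (nat_lit 4) (nat_lit 50798) (nat_lit 9) nil nil))) (node (nat_lit 0) (nat_lit 49635)
  (nat_lit 8) nil nil))) (node (nat_lit 7) (nat_lit 47718) (nat_lit 7) (node (nat_lit 6) (nat_lit
  49351) (nat_lit 8) (node (nat_lit 4) (nat_lit 50514) (nat_lit 9) (node (nat_lit 6) (nat_lit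
  51443) (nat_lit 10) (node (nat_lit 7) (nat_lit 51971) (nat_lit 11) (node (nat_lit 4) (nat_lit
  50994) (nat_lit 12) nil nil) nil) (node (nat_lit 5) (nat_lit 51112) (nat_lit 10) nil (node
  (nat_lit 7) (nat_lit 51112) (nat_lit 10) nil nil))) (node (nat_lit 5) (nat_lit 50514) (nat_lit
  9) (node (nat_lit 6) (nat_lit 47201) (nat_lit 10) nil nil) (node (nat_lit 7) (nat_lit 50514)
  (nat_lit 9) nil nil))) (node (nat_lit 5) (nat_lit 49351) (nat_lit 8) (node (nat_lit 4) (nat_lit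
  50514) (nat_lit 9) (node (nat_lit 7) (nat_lit 50305) (nat_lit 10) (node (nat_lit 4) (nat_lit
  49017) (nat_lit 11) (node (nat_lit 5) (nat_lit 49495) (nat_lit 12) nil nil) nil) (node (nat_lit
  6) (nat_lit 51443) (nat_lit 10) nil nil)) nil) (node (nat_lit 4) (nat_lit 49611) (nat_lit 8)
  (node (nat_lit 6) (nat_lit 50774) (nat_lit 9) nil (node (nat_lit 7) (nat_lit 50774) (nat_lit 9)
  nil nil)) nil))) (node (nat_lit 0) (nat_lit 48002) (nat_lit 7) (node (nat_lit 4) (nat_lit 49635)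
  (nat_lit 8) (node (nat_lit 6) (nat_lit 45206) (nat_lit 9) nil nil) (node (nat_lit 6) (nat_lit
  49635) (nat_lit 8) nil (node (nat_lit 7) (nat_lit 49635) (nat_lit 8) nil nil))) nil))) (node
  (nat_lit 7) (nat_lit 94588) (nat_lit 6) (node (nat_lit 6) (nat_lit 97297) (nat_lit 7) (node
  (nat_lit 4) (nat_lit 100597) (nat_lit 8) (node (nat_lit 6) (nat_lit 100288) (nat_lit 9) (node
  (nat_lit 7) (nat_lit 98853) (nat_lit 10) nil nil) (node (nat_lit 7) (nat_lit 98700) (nat_lit 9)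
  (node (nat_lit 4) (nat_lit 96952) (nat_lit 10) nil nil) nil)) (node (nat_lit 5) (nat_lit 97743)
  (nat_lit 8) (node (nat_lit 4) (nat_lit 94626) (nat_lit 9) nil (node (nat_lit 6) (nat_lit 98761)
  (nat_lit 9) (node (nat_lit 7) (nat_lit 97326) (nat_lit 10) nil nil) nil)) (node (nat_lit 7)
  (nat_lit 100881) (nat_lit 8) (node (nat_lit 4) (nat_lit 100881) (nat_lit 9) nil nil) nil)))
  (node (nat_lit 5) (nat_lit 99177) (nat_lit 7) (node (nat_lit 6) (nat_lit 92212) (nat_lit 8) nil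
  (node (nat_lit 7) (nat_lit 102760) (nat_lit 8) nil nil)) (node (nat_lit 0) (nat_lit 98296)
  (nat_lit 7) (node (nat_lit 4) (nat_lit 98296) (nat_lit 8) (node (nat_lit 7) (nat_lit 100638)
  (nat_lit 9) nil nil) nil) nil))) (node (nat_lit 6) (nat_lit 92621) (nat_lit 6) (node (nat_lit 5)
  (nat_lit 98072) (nat_lit 7) (node (nat_lit 6) (nat_lit 95632) (nat_lit 8) (node (nat_lit 7)
  (nat_lit 96901) (nat_lit 9) (node (nat_lit 4) (nat_lit 95152) (nat_lit 10) nil nil) nil) (node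
  (nat_lit 4) (nat_lit 100934) (nat_lit 8) nil (node (nat_lit 7) (nat_lit 102242) (nat_lit 8) nil
  nil))) (node (nat_lit 4) (nat_lit 97957) (nat_lit 7) (node (nat_lit 7) (nat_lit 102018) (nat_lit
  8) nil (node (nat_lit 5) (nat_lit 90985) (nat_lit 8) (node (nat_lit 6) (nat_lit 68184) (nat_lit
  9) (node (nat_lit 7) (nat_lit 64698) (nat_lit 10) nil nil) (node (nat_lit 7) (nat_lit 87389)
  (nat_lit 9) nil nil)) nil)) (node (nat_lit 7) (nat_lit 99363) (nat_lit 7) (node (nat_lit 6)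
  (nat_lit 99107) (nat_lit 8) (node (nat_lit 4) (nat_lit 100506) (nat_lit 9) nil nil) (node
  (nat_lit 5) (nat_lit 100639) (nat_lit 8) (node (nat_lit 6) (nat_lit 101681) (nat_lit 9) nil nil)
  nil)) (node (nat_lit 0) (nat_lit 100182) (nat_lit 7) nil nil)))) (node (nat_lit 0) (nat_lit
  94807) (nat_lit 6) (node (nat_lit 6) (nat_lit 96154) (nat_lit 7) (node (nat_lit 4) (nat_lit
  95214) (nat_lit 8) nil nil) (node (nat_lit 4) (nat_lit 96154) (nat_lit 7) (node (nat_lit 7)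
  (nat_lit 99738) (nat_lit 8) nil nil) (node (nat_lit 7) (nat_lit 98380) (nat_lit 7) (node
  (nat_lit 4) (nat_lit 98380) (nat_lit 8) nil nil) nil))) nil)))) (node (nat_lit 5) (nat_lit 0)
  (nat_lit 5) (node (nat_lit 7) (nat_lit 0) (nat_lit 6) (node (nat_lit 6) (nat_lit 112332)
  (nat_lit 7) (node (nat_lit 5) (nat_lit 116302) (nat_lit 8) (node (nat_lit 6) (nat_lit 117980)
  (nat_lit 9) (node (nat_lit 7) (nat_lit 118339) (nat_lit 10) (node (nat_lit 5) (nat_lit 118339)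
  (nat_lit 11) (node (nat_lit 6) (nat_lit 118339) (nat_lit 12) nil (node (nat_lit 4) (nat_lit
  117913) (nat_lit 12) nil nil)) nil) nil) nil) (node (nat_lit 4) (nat_lit 116617) (nat_lit 8)
  (node (nat_lit 5) (nat_lit 115626) (nat_lit 9) (node (nat_lit 6) (nat_lit 114744) (nat_lit 10)
  (node (nat_lit 7) (nat_lit 115237) (nat_lit 11) (node (nat_lit 5) (nat_lit 113153) (nat_lit 12)
  (node (nat_lit 7) (nat_lit 67997) (nat_lit 13) nil nil) nil) nil) nil) nil) (node (nat_lit 7)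
  (nat_lit 117403) (nat_lit 8) nil nil))) (node (nat_lit 4) (nat_lit 109195) (nat_lit 7) (node
  (nat_lit 5) (nat_lit 111421) (nat_lit 8) (node (nat_lit 6) (nat_lit 110038) (nat_lit 9) (node
  (nat_lit 7) (nat_lit 67378) (nat_lit 10) nil nil) nil) nil) (node (nat_lit 0) (nat_lit 111398)
  (nat_lit 7) nil nil))) (node (nat_lit 6) (nat_lit 105433) (nat_lit 6) (node (nat_lit 5) (nat_lit
  112254) (nat_lit 7) (node (nat_lit 7) (nat_lit 117121) (nat_lit 8) (node (nat_lit 5) (nat_lit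
  115980) (nat_lit 9) nil (node (nat_lit 6) (nat_lit 118014) (nat_lit 9) nil nil)) (node (nat_lit
  4) (nat_lit 108450) (nat_lit 8) nil nil)) (node (nat_lit 4) (nat_lit 106101) (nat_lit 7) (node
  (nat_lit 5) (nat_lit 105376) (nat_lit 8) (node (nat_lit 6) (nat_lit 82576) (nat_lit 9) (node
  (nat_lit 7) (nat_lit 70443) (nat_lit 10) nil nil) nil) (node (nat_lit 7) (nat_lit 108445)
  (nat_lit 8) (node (nat_lit 6) (nat_lit 107013) (nat_lit 9) (node (nat_lit 7) (nat_lit 107386)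
  (nat_lit 10) nil nil) nil) nil)) nil)) (node (nat_lit 4) (nat_lit 109021) (nat_lit 6) (node
  (nat_lit 7) (nat_lit 116414) (nat_lit 7) (node (nat_lit 6) (nat_lit 118339) (nat_lit 8) nil
  (node (nat_lit 4) (nat_lit 118339) (nat_lit 8) (node (nat_lit 5) (nat_lit 110946) (nat_lit 9)
  (node (nat_lit 6) (nat_lit 100791) (nat_lit 10) (node (nat_lit 7) (nat_lit 79186) (nat_lit 11)
  nil nil) nil) (node (nat_lit 6) (nat_lit 116387) (nat_lit 9) nil nil)) nil)) (node (nat_lit 6)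
  (nat_lit 112764) (nat_lit 7) (node (nat_lit 5) (nat_lit 117256) (nat_lit 8) nil nil) nil)) (node
  (nat_lit 0) (nat_lit 110477) (nat_lit 6) (node (nat_lit 7) (nat_lit 112702) (nat_lit 7) nil
  (node (nat_lit 4) (nat_lit 110477) (nat_lit 7) nil (node (nat_lit 6) (nat_lit 110477) (nat_lit
  7) nil nil))) nil)))) (node (nat_lit 6) (nat_lit 0) (nat_lit 5) (node (nat_lit 5) (nat_lit
  105442) (nat_lit 6) (node (nat_lit 6) (nat_lit 108347) (nat_lit 7) (node (nat_lit 7) (nat_lit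
  113561) (nat_lit 8) (node (nat_lit 4) (nat_lit 114390) (nat_lit 9) (node (nat_lit 5) (nat_lit
  102446) (nat_lit 10) (node (nat_lit 6) (nat_lit 96730) (nat_lit 11) (node (nat_lit 7) (nat_lit
  86979) (nat_lit 12) (node (nat_lit 6) (nat_lit 50462) (nat_lit 13) (node (nat_lit 5) (nat_lit
  43651) (nat_lit 14) nil nil) nil) nil) nil) (node (nat_lit 6) (nat_lit 114473) (nat_lit 10) nil
  nil)) nil) (node (nat_lit 4) (nat_lit 114912) (nat_lit 8) (node (nat_lit 5) (nat_lit 107688)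
  (nat_lit 9) (node (nat_lit 6) (nat_lit 103465) (nat_lit 10) (node (nat_lit 7) (nat_lit 90554)
  (nat_lit 11) (node (nat_lit 6) (nat_lit 69593) (nat_lit 12) nil nil) nil) nil) (node (nat_lit 6)
  (nat_lit 113921) (nat_lit 9) nil (node (nat_lit 7) (nat_lit 117190) (nat_lit 9) nil nil))) (node
  (nat_lit 0) (nat_lit 113319) (nat_lit 8) (node (nat_lit 6) (nat_lit 113319) (nat_lit 9) nil
  (node (nat_lit 7) (nat_lit 114302) (nat_lit 9) nil nil)) nil))) (node (nat_lit 7) (nat_lit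
  113544) (nat_lit 7) (node (nat_lit 6) (nat_lit 113544) (nat_lit 8) nil (node (nat_lit 4)
  (nat_lit 115208) (nat_lit 8) nil nil)) (node (nat_lit 4) (nat_lit 114217) (nat_lit 7) (node
  (nat_lit 7) (nat_lit 115159) (nat_lit 8) nil nil) nil))) (node (nat_lit 4) (nat_lit 109903)
  (nat_lit 6) (node (nat_lit 7) (nat_lit 118134) (nat_lit 7) (node (nat_lit 4) (nat_lit 118339)
  (nat_lit 8) (node (nat_lit 6) (nat_lit 118339) (nat_lit 9) nil nil) nil) (node (nat_lit 6)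
  (nat_lit 113061) (nat_lit 7) (node (nat_lit 5) (nat_lit 109257) (nat_lit 8) (node (nat_lit 6)
  (nat_lit 106892) (nat_lit 9) (node (nat_lit 7) (nat_lit 107805) (nat_lit 10) nil nil) nil) nil)
  (node (nat_lit 5) (nat_lit 115513) (nat_lit 7) (node (nat_lit 6) (nat_lit 114573) (nat_lit 8)
  (node (nat_lit 7) (nat_lit 68088) (nat_lit 9) nil nil) nil) nil))) (node (nat_lit 0) (nat_lit
  112071) (nat_lit 6) nil nil))) (node (nat_lit 0) (nat_lit 0) (nat_lit 5) (node (nat_lit 6)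
  (nat_lit 109077) (nat_lit 6) (node (nat_lit 7) (nat_lit 114759) (nat_lit 7) nil (node (nat_lit
  4) (nat_lit 110180) (nat_lit 7) nil nil)) (node (nat_lit 7) (nat_lit 111242) (nat_lit 6) (node
  (nat_lit 6) (nat_lit 111242) (nat_lit 7) nil (node (nat_lit 4) (nat_lit 111242) (nat_lit 7) nil
  nil)) (node (nat_lit 4) (nat_lit 108905) (nat_lit 6) (node (nat_lit 7) (nat_lit 114587) (nat_lit
  7) nil (node (nat_lit 6) (nat_lit 108124) (nat_lit 7) nil nil)) (node (nat_lit 0) (nat_lit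
  111242) (nat_lit 6) nil (node (nat_lit 5) (nat_lit 109388) (nat_lit 6) (node (nat_lit 7)
  (nat_lit 115070) (nat_lit 7) nil nil) nil))))) nil)))) t113) (node (nat_lit 4) (nat_lit 0)
  (nat_lit 3) t114 (node (nat_lit 0) (nat_lit 0) (nat_lit 3) (node (nat_lit 1) (nat_lit 0)
  (nat_lit 4) (node (nat_lit 5) (nat_lit 126781) (nat_lit 5) (node (nat_lit 6) (nat_lit 131806)
  (nat_lit 6) nil (node (nat_lit 7) (nat_lit 132263) (nat_lit 6) nil nil)) (node (nat_lit 3)
  (nat_lit 127196) (nat_lit 5) (node (nat_lit 4) (nat_lit 125213) (nat_lit 6) (node (nat_lit 5)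
  (nat_lit 123658) (nat_lit 7) nil nil) nil) (node (nat_lit 4) (nat_lit 127734) (nat_lit 5) (node
  (nat_lit 5) (nat_lit 125751) (nat_lit 6) (node (nat_lit 6) (nat_lit 29370) (nat_lit 7) nil nil)
  nil) (node (nat_lit 6) (nat_lit 129241) (nat_lit 5) nil (node (nat_lit 0) (nat_lit 126148)
  (nat_lit 5) nil nil))))) (node (nat_lit 3) (nat_lit 0) (nat_lit 4) (node (nat_lit 5) (nat_lit
  129115) (nat_lit 5) (node (nat_lit 6) (nat_lit 134610) (nat_lit 6) nil (node (nat_lit 7)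
  (nat_lit 128462) (nat_lit 6) (node (nat_lit 4) (nat_lit 123286) (nat_lit 7) nil nil) nil)) (node
  (nat_lit 1) (nat_lit 124372) (nat_lit 5) (node (nat_lit 4) (nat_lit 122390) (nat_lit 6) (node
  (nat_lit 7) (nat_lit 123164) (nat_lit 7) nil (node (nat_lit 5) (nat_lit 118942) (nat_lit 7) nil
  nil)) nil) (node (nat_lit 4) (nat_lit 129158) (nat_lit 5) (node (nat_lit 1) (nat_lit 132552)
  (nat_lit 6) nil (node (nat_lit 7) (nat_lit 130261) (nat_lit 6) nil (node (nat_lit 5) (nat_lit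
  130156) (nat_lit 6) (node (nat_lit 6) (nat_lit 73238) (nat_lit 7) nil nil) nil))) (node (nat_lit
  6) (nat_lit 130336) (nat_lit 5) nil (node (nat_lit 0) (nat_lit 129658) (nat_lit 5) nil nil)))))
  (node (nat_lit 0) (nat_lit 0) (nat_lit 4) (node (nat_lit 5) (nat_lit 129182) (nat_lit 5) (node
  (nat_lit 7) (nat_lit 132313) (nat_lit 6) nil (node (nat_lit 1) (nat_lit 132313) (nat_lit 6) nil
  (node (nat_lit 3) (nat_lit 129109) (nat_lit 6) nil (node (nat_lit 4) (nat_lit 130711) (nat_lit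
  6) nil nil)))) (node (nat_lit 1) (nat_lit 127330) (nat_lit 5) (node (nat_lit 4) (nat_lit 125348)
  (nat_lit 6) nil nil) (node (nat_lit 3) (nat_lit 129572) (nat_lit 5) (node (nat_lit 4) (nat_lit
  129572) (nat_lit 6) nil nil) (node (nat_lit 4) (nat_lit 129315) (nat_lit 5) (node (nat_lit 3)
  (nat_lit 113504) (nat_lit 6) nil (node (nat_lit 1) (nat_lit 126655) (nat_lit 6) nil nil)) (node
  (nat_lit 6) (nat_lit 130319) (nat_lit 5) nil (node (nat_lit 0) (nat_lit 129640) (nat_lit 5) nil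
  nil)))))) (node (nat_lit 5) (nat_lit 0) (nat_lit 4) (node (nat_lit 0) (nat_lit 129338) (nat_lit
  5) nil (node (nat_lit 3) (nat_lit 128930) (nat_lit 5) (node (nat_lit 4) (nat_lit 130156)
  (nat_lit 6) (node (nat_lit 5) (nat_lit 119987) (nat_lit 7) (node (nat_lit 6) (nat_lit 81568)
  (nat_lit 8) nil nil) nil) nil) (node (nat_lit 1) (nat_lit 128859) (nat_lit 5) (node (nat_lit 3)
  (nat_lit 126876) (nat_lit 6) nil (node (nat_lit 4) (nat_lit 126876) (nat_lit 6) nil nil)) (node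
  (nat_lit 4) (nat_lit 126612) (nat_lit 5) (node (nat_lit 3) (nat_lit 129019) (nat_lit 6) nil
  (node (nat_lit 1) (nat_lit 131795) (nat_lit 6) nil nil)) nil)))) (node (nat_lit 4) (nat_lit 0)
  (nat_lit 4) (node (nat_lit 5) (nat_lit 126612) (nat_lit 5) (node (nat_lit 4) (nat_lit 132527)
  (nat_lit 6) (node (nat_lit 3) (nat_lit 134691) (nat_lit 7) nil (node (nat_lit 1) (nat_lit
  137200) (nat_lit 7) nil nil)) (node (nat_lit 1) (nat_lit 135041) (nat_lit 6) nil (node (nat_lit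
  3) (nat_lit 127327) (nat_lit 6) nil nil))) (node (nat_lit 1) (nat_lit 126231) (nat_lit 5) (node
  (nat_lit 4) (nat_lit 127900) (nat_lit 6) (node (nat_lit 5) (nat_lit 126345) (nat_lit 7) (node
  (nat_lit 6) (nat_lit 101152) (nat_lit 8) (node (nat_lit 4) (nat_lit 29002) (nat_lit 9) nil nil)
  nil) nil) nil) (node (nat_lit 3) (nat_lit 129000) (nat_lit 5) (node (nat_lit 1) (nat_lit 128537)
  (nat_lit 6) nil (node (nat_lit 4) (nat_lit 131664) (nat_lit 6) (node (nat_lit 5) (nat_lit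
  119289) (nat_lit 7) (node (nat_lit 6) (nat_lit 95279) (nat_lit 8) nil nil) nil) nil)) (node
  (nat_lit 6) (nat_lit 130178) (nat_lit 5) nil (node (nat_lit 0) (nat_lit 129338) (nat_lit 5) nil
  nil))))) nil))))) nil))))

noncomputable def t116 : Tr :=
  (node (nat_lit 3) (nat_lit 0) (nat_lit 2) (node (nat_lit 1) (nat_lit 0) (nat_lit 3) (node
  (nat_lit 0) (nat_lit 0) (nat_lit 4) (node (nat_lit 6) (nat_lit 105136) (nat_lit 5) (node
  (nat_lit 5) (nat_lit 110272) (nat_lit 6) (node (nat_lit 7) (nat_lit 111872) (nat_lit 7) nil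
  (node (nat_lit 4) (nat_lit 108750) (nat_lit 7) (node (nat_lit 6) (nat_lit 108568) (nat_lit 8)
  nil (node (nat_lit 5) (nat_lit 110855) (nat_lit 8) (node (nat_lit 6) (nat_lit 112312) (nat_lit
  9) (node (nat_lit 7) (nat_lit 113418) (nat_lit 10) nil nil) nil) nil)) (node (nat_lit 6)
  (nat_lit 110882) (nat_lit 7) (node (nat_lit 7) (nat_lit 112838) (nat_lit 8) (node (nat_lit 5)
  (nat_lit 111682) (nat_lit 9) nil nil) nil) nil))) (node (nat_lit 4) (nat_lit 110408) (nat_lit 6)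
  (node (nat_lit 5) (nat_lit 111875) (nat_lit 7) (node (nat_lit 6) (nat_lit 112841) (nat_lit 8)
  (node (nat_lit 7) (nat_lit 18043) (nat_lit 9) nil nil) nil) nil) nil)) (node (nat_lit 5)
  (nat_lit 104922) (nat_lit 5) (node (nat_lit 7) (nat_lit 109246) (nat_lit 6) (node (nat_lit 6)
  (nat_lit 112026) (nat_lit 7) (node (nat_lit 5) (nat_lit 112992) (nat_lit 8) nil nil) nil) (node
  (nat_lit 6) (nat_lit 110260) (nat_lit 6) (node (nat_lit 5) (nat_lit 111727) (nat_lit 7) nil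
  (node (nat_lit 4) (nat_lit 111727) (nat_lit 7) nil nil)) (node (nat_lit 4) (nat_lit 110396)
  (nat_lit 6) (node (nat_lit 6) (nat_lit 111863) (nat_lit 7) (node (nat_lit 5) (nat_lit 112812)
  (nat_lit 8) (node (nat_lit 6) (nat_lit 112590) (nat_lit 9) (node (nat_lit 4) (nat_lit 112288)
  (nat_lit 10) (node (nat_lit 5) (nat_lit 109994) (nat_lit 11) nil nil) nil) nil) (node (nat_lit
  4) (nat_lit 112829) (nat_lit 8) (node (nat_lit 5) (nat_lit 105990) (nat_lit 9) (node (nat_lit 6)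
  (nat_lit 99743) (nat_lit 10) (node (nat_lit 7) (nat_lit 55827) (nat_lit 11) (node (nat_lit 5)
  (nat_lit 43705) (nat_lit 12) nil nil) nil) nil) nil) nil)) (node (nat_lit 5) (nat_lit 111099)
  (nat_lit 7) (node (nat_lit 6) (nat_lit 112829) (nat_lit 8) (node (nat_lit 7) (nat_lit 75463)
  (nat_lit 9) nil nil) nil) nil)) nil))) (node (nat_lit 4) (nat_lit 105721) (nat_lit 5) (node
  (nat_lit 6) (nat_lit 109953) (nat_lit 6) (node (nat_lit 4) (nat_lit 112774) (nat_lit 7) (node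
  (nat_lit 5) (nat_lit 105943) (nat_lit 8) (node (nat_lit 6) (nat_lit 94610) (nat_lit 9) nil nil)
  nil) (node (nat_lit 5) (nat_lit 108431) (nat_lit 7) (node (nat_lit 6) (nat_lit 108248) (nat_lit
  8) (node (nat_lit 4) (nat_lit 106817) (nat_lit 9) (node (nat_lit 5) (nat_lit 103899) (nat_lit
  10) (node (nat_lit 6) (nat_lit 98002) (nat_lit 11) nil nil) nil) nil) nil) nil)) (node (nat_lit
  7) (nat_lit 111048) (nat_lit 6) nil nil)) (node (nat_lit 0) (nat_lit 104868) (nat_lit 5) (node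
  (nat_lit 6) (nat_lit 109627) (nat_lit 6) (node (nat_lit 5) (nat_lit 108105) (nat_lit 7) nil nil)
  (node (nat_lit 5) (nat_lit 110366) (nat_lit 6) nil nil)) (node (nat_lit 2) (nat_lit 104352)
  (nat_lit 5) (node (nat_lit 6) (nat_lit 103337) (nat_lit 6) (node (nat_lit 4) (nat_lit 100266)
  (nat_lit 7) (node (nat_lit 5) (nat_lit 90163) (nat_lit 8) (node (nat_lit 6) (nat_lit 66518)
  (nat_lit 9) nil nil) nil) nil) (node (nat_lit 5) (nat_lit 100865) (nat_lit 6) (node (nat_lit 4)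
  (nat_lit 96553) (nat_lit 7) nil nil) nil)) nil))))) (node (nat_lit 2) (nat_lit 0) (nat_lit 4)
  (node (nat_lit 6) (nat_lit 0) (nat_lit 5) (node (nat_lit 5) (nat_lit 89901) (nat_lit 6) (node
  (nat_lit 7) (nat_lit 96804) (nat_lit 7) (node (nat_lit 6) (nat_lit 100343) (nat_lit 8) (node
  (nat_lit 7) (nat_lit 99161) (nat_lit 9) nil (node (nat_lit 4) (nat_lit 103831) (nat_lit 9) (node
  (nat_lit 5) (nat_lit 92379) (nat_lit 10) (node (nat_lit 6) (nat_lit 88894) (nat_lit 11) (node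
  (nat_lit 7) (nat_lit 74594) (nat_lit 12) (node (nat_lit 6) (nat_lit 37058) (nat_lit 13) (node
  (nat_lit 5) (nat_lit 16924) (nat_lit 14) nil nil) nil) nil) nil) nil) nil)) (node (nat_lit 5)
  (nat_lit 101054) (nat_lit 8) (node (nat_lit 4) (nat_lit 90423) (nat_lit 9) nil nil) (node
  (nat_lit 4) (nat_lit 102073) (nat_lit 8) nil nil))) (node (nat_lit 4) (nat_lit 103553) (nat_lit
  7) (node (nat_lit 6) (nat_lit 105179) (nat_lit 8) nil (node (nat_lit 5) (nat_lit 105658)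
  (nat_lit 8) (node (nat_lit 6) (nat_lit 107114) (nat_lit 9) (node (nat_lit 7) (nat_lit 103869)
  (nat_lit 10) nil nil) nil) nil)) (node (nat_lit 6) (nat_lit 95668) (nat_lit 7) (node (nat_lit 7)
  (nat_lit 98898) (nat_lit 8) (node (nat_lit 5) (nat_lit 102452) (nat_lit 9) (node (nat_lit 7)
  (nat_lit 101924) (nat_lit 10) (node (nat_lit 6) (nat_lit 102073) (nat_lit 11) (node (nat_lit 5)
  (nat_lit 101500) (nat_lit 12) (node (nat_lit 4) (nat_lit 101087) (nat_lit 13) nil nil) nil) nil)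
  (node (nat_lit 6) (nat_lit 103001) (nat_lit 10) nil nil)) nil) (node (nat_lit 4) (nat_lit
  100151) (nat_lit 8) (node (nat_lit 5) (nat_lit 87526) (nat_lit 9) (node (nat_lit 6) (nat_lit
  88005) (nat_lit 10) (node (nat_lit 7) (nat_lit 61632) (nat_lit 11) nil nil) nil) nil) nil))
  (node (nat_lit 0) (nat_lit 101018) (nat_lit 7) nil nil)))) (node (nat_lit 4) (nat_lit 97476)
  (nat_lit 6) (node (nat_lit 5) (nat_lit 95079) (nat_lit 7) (node (nat_lit 6) (nat_lit 43886)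
  (nat_lit 8) (node (nat_lit 5) (nat_lit 44916) (nat_lit 9) (node (nat_lit 4) (nat_lit 44572)
  (nat_lit 10) (node (nat_lit 6) (nat_lit 45019) (nat_lit 11) (node (nat_lit 4) (nat_lit 45425)
  (nat_lit 12) nil nil) (node (nat_lit 5) (nat_lit 45019) (nat_lit 11) (node (nat_lit 6) (nat_lit
  45425) (nat_lit 12) nil nil) nil)) (node (nat_lit 7) (nat_lit 45742) (nat_lit 10) (node (nat_lit
  6) (nat_lit 46190) (nat_lit 11) nil nil) nil)) (node (nat_lit 7) (nat_lit 17737) (nat_lit 9)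
  (node (nat_lit 5) (nat_lit 17737) (nat_lit 10) nil nil) (node (nat_lit 4) (nat_lit 43482)
  (nat_lit 9) (node (nat_lit 6) (nat_lit 43990) (nat_lit 10) (node (nat_lit 5) (nat_lit 44437)
  (nat_lit 11) nil nil) (node (nat_lit 7) (nat_lit 41864) (nat_lit 10) nil nil)) (node (nat_lit 0)
  (nat_lit 44916) (nat_lit 9) (node (nat_lit 6) (nat_lit 45424) (nat_lit 10) nil (node (nat_lit 5)
  (nat_lit 45424) (nat_lit 10) nil nil)) nil)))) nil) (node (nat_lit 6) (nat_lit 100674) (nat_lit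
  7) (node (nat_lit 5) (nat_lit 99240) (nat_lit 8) (node (nat_lit 6) (nat_lit 99019) (nat_lit 9)
  (node (nat_lit 4) (nat_lit 98810) (nat_lit 10) (node (nat_lit 5) (nat_lit 97453) (nat_lit 11)
  nil nil) nil) nil) nil) (node (nat_lit 7) (nat_lit 103044) (nat_lit 7) nil nil))) (node (nat_lit
  0) (nat_lit 99119) (nat_lit 6) (node (nat_lit 7) (nat_lit 93089) (nat_lit 7) nil (node (nat_lit
  6) (nat_lit 102317) (nat_lit 7) nil (node (nat_lit 5) (nat_lit 104389) (nat_lit 7) nil nil)))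
  nil))) (node (nat_lit 5) (nat_lit 0) (nat_lit 5) (node (nat_lit 7) (nat_lit 91134) (nat_lit 6)
  (node (nat_lit 6) (nat_lit 98728) (nat_lit 7) (node (nat_lit 7) (nat_lit 103429) (nat_lit 8)
  (node (nat_lit 5) (nat_lit 105046) (nat_lit 9) nil nil) (node (nat_lit 5) (nat_lit 103543)
  (nat_lit 8) nil (node (nat_lit 4) (nat_lit 106800) (nat_lit 8) nil nil))) (node (nat_lit 4)
  (nat_lit 106317) (nat_lit 7) (node (nat_lit 6) (nat_lit 107764) (nat_lit 8) (node (nat_lit 5)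
  (nat_lit 108456) (nat_lit 9) nil nil) nil) (node (nat_lit 0) (nat_lit 105062) (nat_lit 7) nil
  nil))) (node (nat_lit 6) (nat_lit 90792) (nat_lit 6) (node (nat_lit 5) (nat_lit 97987) (nat_lit
  7) (node (nat_lit 7) (nat_lit 102684) (nat_lit 8) (node (nat_lit 6) (nat_lit 104833) (nat_lit 9)
  (node (nat_lit 4) (nat_lit 100124) (nat_lit 10) nil nil) nil) (node (nat_lit 4) (nat_lit 104191)
  (nat_lit 8) (node (nat_lit 6) (nat_lit 103803) (nat_lit 9) nil (node (nat_lit 5) (nat_lit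
  105647) (nat_lit 9) nil nil)) nil)) (node (nat_lit 4) (nat_lit 101807) (nat_lit 7) (node
  (nat_lit 5) (nat_lit 87368) (nat_lit 8) (node (nat_lit 6) (nat_lit 79884) (nat_lit 9) (node
  (nat_lit 7) (nat_lit 29948) (nat_lit 10) nil nil) nil) nil) (node (nat_lit 0) (nat_lit 100356)
  (nat_lit 7) nil nil))) (node (nat_lit 4) (nat_lit 93899) (nat_lit 6) (node (nat_lit 6) (nat_lit
  96628) (nat_lit 7) (node (nat_lit 5) (nat_lit 98010) (nat_lit 8) nil (node (nat_lit 4) (nat_lit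
  97594) (nat_lit 8) (node (nat_lit 5) (nat_lit 96921) (nat_lit 9) (node (nat_lit 6) (nat_lit
  92069) (nat_lit 10) (node (nat_lit 7) (nat_lit 76582) (nat_lit 11) (node (nat_lit 5) (nat_lit
  48888) (nat_lit 12) nil nil) nil) nil) nil) nil)) (node (nat_lit 5) (nat_lit 73535) (nat_lit 7)
  (node (nat_lit 6) (nat_lit 74674) (nat_lit 8) (node (nat_lit 7) (nat_lit 72701) (nat_lit 9) nil
  nil) (node (nat_lit 7) (nat_lit 74674) (nat_lit 8) (node (nat_lit 6) (nat_lit 75463) (nat_lit 9)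
  nil nil) nil)) (node (nat_lit 7) (nat_lit 96628) (nat_lit 7) (node (nat_lit 6) (nat_lit 98010)
  (nat_lit 8) (node (nat_lit 4) (nat_lit 99210) (nat_lit 9) (node (nat_lit 5) (nat_lit 98701)
  (nat_lit 10) nil nil) (node (nat_lit 5) (nat_lit 97851) (nat_lit 9) nil nil)) nil) nil))) (node
  (nat_lit 0) (nat_lit 99354) (nat_lit 6) nil nil)))) (node (nat_lit 4) (nat_lit 0) (nat_lit 5)
  (node (nat_lit 6) (nat_lit 100878) (nat_lit 6) (node (nat_lit 4) (nat_lit 100169) (nat_lit 7)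
  (node (nat_lit 5) (nat_lit 92797) (nat_lit 8) (node (nat_lit 6) (nat_lit 91107) (nat_lit 9)
  (node (nat_lit 7) (nat_lit 66892) (nat_lit 10) nil nil) nil) nil) (node (nat_lit 5) (nat_lit
  109058) (nat_lit 7) (node (nat_lit 6) (nat_lit 111383) (nat_lit 8) (node (nat_lit 4) (nat_lit
  111515) (nat_lit 9) nil nil) nil) (node (nat_lit 7) (nat_lit 106906) (nat_lit 7) nil nil)))
  (node (nat_lit 7) (nat_lit 106117) (nat_lit 6) (node (nat_lit 6) (nat_lit 110881) (nat_lit 7)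
  nil nil) (node (nat_lit 5) (nat_lit 105291) (nat_lit 6) nil (node (nat_lit 0) (nat_lit 105982)
  (nat_lit 6) nil nil)))) (node (nat_lit 0) (nat_lit 98483) (nat_lit 5) (node (nat_lit 6) (nat_lit
  106849) (nat_lit 6) (node (nat_lit 4) (nat_lit 109673) (nat_lit 7) nil nil) (node (nat_lit 7)
  (nat_lit 107868) (nat_lit 6) nil (node (nat_lit 5) (nat_lit 106541) (nat_lit 6) (node (nat_lit
  4) (nat_lit 105019) (nat_lit 7) nil nil) (node (nat_lit 4) (nat_lit 107270) (nat_lit 6) nil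
  nil)))) nil)))) t110)) t112) (node (nat_lit 0) (nat_lit 0) (nat_lit 2) (node (nat_lit 1)
  (nat_lit 0) (nat_lit 3) (node (nat_lit 5) (nat_lit 0) (nat_lit 4) (node (nat_lit 3) (nat_lit
  140540) (nat_lit 5) (node (nat_lit 6) (nat_lit 141912) (nat_lit 6) (node (nat_lit 8) (nat_lit
  141912) (nat_lit 7) nil nil) (node (nat_lit 4) (nat_lit 140540) (nat_lit 6) (node (nat_lit 5)
  (nat_lit 142275) (nat_lit 7) nil nil) nil)) (node (nat_lit 4) (nat_lit 139945) (nat_lit 5) (node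
  (nat_lit 6) (nat_lit 144704) (nat_lit 6) (node (nat_lit 4) (nat_lit 147281) (nat_lit 7) (node
  (nat_lit 5) (nat_lit 147617) (nat_lit 8) (node (nat_lit 6) (nat_lit 147703) (nat_lit 9) (node
  (nat_lit 5) (nat_lit 120019) (nat_lit 10) (node (nat_lit 4) (nat_lit 44048) (nat_lit 11) nil
  nil) nil) nil) nil) nil) nil) (node (nat_lit 0) (nat_lit 142455) (nat_lit 5) nil (node (nat_lit
  2) (nat_lit 140540) (nat_lit 5) nil nil)))) (node (nat_lit 3) (nat_lit 131949) (nat_lit 4) (node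
  (nat_lit 4) (nat_lit 133948) (nat_lit 5) (node (nat_lit 5) (nat_lit 136850) (nat_lit 6) nil
  (node (nat_lit 6) (nat_lit 136850) (nat_lit 6) nil nil)) (node (nat_lit 5) (nat_lit 141696)
  (nat_lit 5) (node (nat_lit 7) (nat_lit 141696) (nat_lit 6) (node (nat_lit 6) (nat_lit 142178)
  (nat_lit 7) nil (node (nat_lit 4) (nat_lit 141696) (nat_lit 7) (node (nat_lit 5) (nat_lit
  142321) (nat_lit 8) (node (nat_lit 6) (nat_lit 142407) (nat_lit 9) (node (nat_lit 7) (nat_lit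
  142407) (nat_lit 10) nil nil) nil) nil) nil)) nil) (node (nat_lit 6) (nat_lit 140574) (nat_lit
  5) nil nil))) (node (nat_lit 4) (nat_lit 122588) (nat_lit 4) (node (nat_lit 3) (nat_lit 134231)
  (nat_lit 5) (node (nat_lit 4) (nat_lit 133107) (nat_lit 6) nil nil) (node (nat_lit 5) (nat_lit
  42446) (nat_lit 5) (node (nat_lit 4) (nat_lit 42878) (nat_lit 6) (node (nat_lit 6) (nat_lit
  45691) (nat_lit 7) nil nil) (node (nat_lit 3) (nat_lit 42768) (nat_lit 6) (node (nat_lit 4)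
  (nat_lit 42768) (nat_lit 7) nil nil) nil)) nil)) (node (nat_lit 0) (nat_lit 140099) (nat_lit 4)
  (node (nat_lit 6) (nat_lit 142015) (nat_lit 5) nil (node (nat_lit 3) (nat_lit 140099) (nat_lit
  5) nil (node (nat_lit 4) (nat_lit 140099) (nat_lit 5) nil nil))) (node (nat_lit 2) (nat_lit
  133155) (nat_lit 4) (node (nat_lit 3) (nat_lit 133155) (nat_lit 5) nil (node (nat_lit 6)
  (nat_lit 137901) (nat_lit 5) nil (node (nat_lit 4) (nat_lit 133502) (nat_lit 5) (node (nat_lit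
  6) (nat_lit 136039) (nat_lit 6) nil nil) nil))) nil))))) (node (nat_lit 3) (nat_lit 0) (nat_lit
  3) (node (nat_lit 5) (nat_lit 0) (nat_lit 4) (node (nat_lit 1) (nat_lit 145087) (nat_lit 5)
  (node (nat_lit 6) (nat_lit 145087) (nat_lit 6) nil (node (nat_lit 4) (nat_lit 145087) (nat_lit
  6) (node (nat_lit 5) (nat_lit 146557) (nat_lit 7) (node (nat_lit 6) (nat_lit 146557) (nat_lit 8)
  nil nil) nil) nil)) (node (nat_lit 4) (nat_lit 133305) (nat_lit 5) (node (nat_lit 6) (nat_lit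
  140479) (nat_lit 6) (node (nat_lit 4) (nat_lit 142395) (nat_lit 7) (node (nat_lit 5) (nat_lit
  144489) (nat_lit 8) (node (nat_lit 6) (nat_lit 134958) (nat_lit 9) (node (nat_lit 5) (nat_lit
  111133) (nat_lit 10) (node (nat_lit 4) (nat_lit 84210) (nat_lit 11) nil nil) nil) nil) nil)
  (node (nat_lit 1) (nat_lit 148373) (nat_lit 7) nil nil)) (node (nat_lit 1) (nat_lit 144090)
  (nat_lit 6) nil nil)) (node (nat_lit 0) (nat_lit 145087) (nat_lit 5) (node (nat_lit 6) (nat_lit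
  145087) (nat_lit 6) nil nil) (node (nat_lit 2) (nat_lit 139788) (nat_lit 5) (node (nat_lit 6)
  (nat_lit 136092) (nat_lit 6) (node (nat_lit 4) (nat_lit 127701) (nat_lit 7) (node (nat_lit 5)
  (nat_lit 117315) (nat_lit 8) nil nil) nil) nil) nil)))) (node (nat_lit 1) (nat_lit 132074)
  (nat_lit 4) (node (nat_lit 4) (nat_lit 133422) (nat_lit 5) (node (nat_lit 5) (nat_lit 85478)
  (nat_lit 6) nil (node (nat_lit 7) (nat_lit 135233) (nat_lit 6) nil (node (nat_lit 6) (nat_lit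
  136347) (nat_lit 6) nil nil))) (node (nat_lit 5) (nat_lit 148281) (nat_lit 5) (node (nat_lit 7)
  (nat_lit 148792) (nat_lit 6) nil nil) (node (nat_lit 6) (nat_lit 143749) (nat_lit 5) (node
  (nat_lit 4) (nat_lit 143749) (nat_lit 6) nil nil) nil))) (node (nat_lit 4) (nat_lit 0) (nat_lit
  4) (node (nat_lit 1) (nat_lit 140932) (nat_lit 5) (node (nat_lit 4) (nat_lit 136663) (nat_lit 6)
  (node (nat_lit 5) (nat_lit 124556) (nat_lit 7) (node (nat_lit 6) (nat_lit 108476) (nat_lit 8)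
  nil nil) nil) nil) (node (nat_lit 5) (nat_lit 91306) (nat_lit 5) nil (node (nat_lit 6) (nat_lit
  130590) (nat_lit 5) nil (node (nat_lit 0) (nat_lit 143478) (nat_lit 5) nil (node (nat_lit 2)
  (nat_lit 132366) (nat_lit 5) nil nil))))) (node (nat_lit 0) (nat_lit 138483) (nat_lit 4) (node
  (nat_lit 6) (nat_lit 142442) (nat_lit 5) nil (node (nat_lit 1) (nat_lit 148142) (nat_lit 5) nil
  (node (nat_lit 4) (nat_lit 143361) (nat_lit 5) (node (nat_lit 6) (nat_lit 141318) (nat_lit 6)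
  nil nil) nil))) (node (nat_lit 2) (nat_lit 0) (nat_lit 4) (node (nat_lit 5) (nat_lit 145645)
  (nat_lit 5) nil (node (nat_lit 1) (nat_lit 140085) (nat_lit 5) nil (node (nat_lit 6) (nat_lit
  132948) (nat_lit 5) (node (nat_lit 4) (nat_lit 129692) (nat_lit 6) (node (nat_lit 5) (nat_lit
  121852) (nat_lit 7) (node (nat_lit 6) (nat_lit 81001) (nat_lit 8) nil nil) nil) nil) (node
  (nat_lit 4) (nat_lit 126804) (nat_lit 5) (node (nat_lit 6) (nat_lit 128992) (nat_lit 6) (node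
  (nat_lit 4) (nat_lit 125293) (nat_lit 7) nil nil) nil) (node (nat_lit 0) (nat_lit 144806)
  (nat_lit 5) nil nil))))) nil))))) (node (nat_lit 4) (nat_lit 0) (nat_lit 3) (node (nat_lit 1)
  (nat_lit 120364) (nat_lit 4) (node (nat_lit 3) (nat_lit 140863) (nat_lit 5) (node (nat_lit 4)
  (nat_lit 142371) (nat_lit 6) nil nil) (node (nat_lit 5) (nat_lit 139423) (nat_lit 5) (node
  (nat_lit 7) (nat_lit 144225) (nat_lit 6) (node (nat_lit 4) (nat_lit 147421) (nat_lit 7) (node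
  (nat_lit 5) (nat_lit 147728) (nat_lit 8) (node (nat_lit 4) (nat_lit 147728) (nat_lit 9) (node
  (nat_lit 7) (nat_lit 147866) (nat_lit 10) nil nil) nil) nil) nil) nil) (node (nat_lit 4)
  (nat_lit 135388) (nat_lit 5) (node (nat_lit 5) (nat_lit 105086) (nat_lit 6) nil nil) nil)))
  (node (nat_lit 3) (nat_lit 0) (nat_lit 4) (node (nat_lit 1) (nat_lit 143734) (nat_lit 5) (node
  (nat_lit 4) (nat_lit 138640) (nat_lit 6) (node (nat_lit 5) (nat_lit 120748) (nat_lit 7) (node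
  (nat_lit 4) (nat_lit 58665) (nat_lit 8) (node (nat_lit 7) (nat_lit 45369) (nat_lit 9) nil (node
  (nat_lit 8) (nat_lit 58665) (nat_lit 9) nil nil)) nil) nil) nil) (node (nat_lit 5) (nat_lit
  125052) (nat_lit 5) (node (nat_lit 7) (nat_lit 135065) (nat_lit 6) (node (nat_lit 4) (nat_lit
  139320) (nat_lit 7) (node (nat_lit 5) (nat_lit 142856) (nat_lit 8) (node (nat_lit 4) (nat_lit
  139411) (nat_lit 9) (node (nat_lit 7) (nat_lit 139068) (nat_lit 10) nil nil) nil) nil) nil)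
  (node (nat_lit 4) (nat_lit 133761) (nat_lit 6) nil nil)) (node (nat_lit 4) (nat_lit 109292)
  (nat_lit 5) (node (nat_lit 5) (nat_lit 106355) (nat_lit 6) (node (nat_lit 4) (nat_lit 84363)
  (nat_lit 7) nil nil) (node (nat_lit 1) (nat_lit 123178) (nat_lit 6) nil nil)) (node (nat_lit 0)
  (nat_lit 143734) (nat_lit 5) nil (node (nat_lit 2) (nat_lit 131259) (nat_lit 5) nil nil)))))
  (node (nat_lit 0) (nat_lit 137760) (nat_lit 4) (node (nat_lit 3) (nat_lit 140863) (nat_lit 5)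
  (node (nat_lit 4) (nat_lit 142371) (nat_lit 6) nil nil) (node (nat_lit 1) (nat_lit 144268)
  (nat_lit 5) (node (nat_lit 4) (nat_lit 144419) (nat_lit 6) nil nil) nil)) (node (nat_lit 2)
  (nat_lit 0) (nat_lit 4) (node (nat_lit 5) (nat_lit 135620) (nat_lit 5) nil (node (nat_lit 1)
  (nat_lit 142972) (nat_lit 5) (node (nat_lit 4) (nat_lit 136879) (nat_lit 6) (node (nat_lit 5)
  (nat_lit 115251) (nat_lit 7) (node (nat_lit 4) (nat_lit 47479) (nat_lit 8) nil nil) nil) nil)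
  (node (nat_lit 3) (nat_lit 131775) (nat_lit 5) (node (nat_lit 4) (nat_lit 129770) (nat_lit 6)
  (node (nat_lit 5) (nat_lit 118261) (nat_lit 7) (node (nat_lit 4) (nat_lit 80928) (nat_lit 8) nil
  nil) nil) nil) (node (nat_lit 4) (nat_lit 131515) (nat_lit 5) nil (node (nat_lit 0) (nat_lit
  142972) (nat_lit 5) nil nil))))) nil)))) (node (nat_lit 0) (nat_lit 0) (nat_lit 3) (node
  (nat_lit 5) (nat_lit 142578) (nat_lit 4) (node (nat_lit 3) (nat_lit 143641) (nat_lit 5) nil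
  (node (nat_lit 1) (nat_lit 147914) (nat_lit 5) nil nil)) (node (nat_lit 1) (nat_lit 138055)
  (nat_lit 4) (node (nat_lit 3) (nat_lit 136262) (nat_lit 5) nil (node (nat_lit 4) (nat_lit
  143814) (nat_lit 5) (node (nat_lit 5) (nat_lit 147530) (nat_lit 6) (node (nat_lit 6) (nat_lit
  38628) (nat_lit 7) nil nil) nil) nil)) (node (nat_lit 3) (nat_lit 137037) (nat_lit 4) (node
  (nat_lit 5) (nat_lit 144733) (nat_lit 5) nil (node (nat_lit 4) (nat_lit 137528) (nat_lit 5)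
  (node (nat_lit 5) (nat_lit 141124) (nat_lit 6) (node (nat_lit 6) (nat_lit 83976) (nat_lit 7) nil
  nil) nil) nil)) (node (nat_lit 0) (nat_lit 142410) (nat_lit 4) (node (nat_lit 5) (nat_lit
  146964) (nat_lit 5) nil (node (nat_lit 3) (nat_lit 140617) (nat_lit 5) (node (nat_lit 4)
  (nat_lit 138635) (nat_lit 6) nil nil) (node (nat_lit 1) (nat_lit 146964) (nat_lit 5) nil (node
  (nat_lit 4) (nat_lit 138564) (nat_lit 5) nil nil)))) (node (nat_lit 4) (nat_lit 138121) (nat_lit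
  4) (node (nat_lit 5) (nat_lit 151171) (nat_lit 5) nil (node (nat_lit 3) (nat_lit 138986)
  (nat_lit 5) (node (nat_lit 4) (nat_lit 133124) (nat_lit 6) (node (nat_lit 5) (nat_lit 122661)
  (nat_lit 7) (node (nat_lit 6) (nat_lit 90471) (nat_lit 8) nil nil) nil) nil) (node (nat_lit 1)
  (nat_lit 141322) (nat_lit 5) (node (nat_lit 4) (nat_lit 138772) (nat_lit 6) nil nil) nil)))
  (node (nat_lit 2) (nat_lit 137792) (nat_lit 4) (node (nat_lit 5) (nat_lit 142873) (nat_lit 5)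
  nil (node (nat_lit 3) (nat_lit 137692) (nat_lit 5) (node (nat_lit 4) (nat_lit 123787) (nat_lit
  6) nil nil) (node (nat_lit 1) (nat_lit 140823) (nat_lit 5) (node (nat_lit 4) (nat_lit 119390)
  (nat_lit 6) nil nil) (node (nat_lit 4) (nat_lit 129435) (nat_lit 5) (node (nat_lit 3) (nat_lit
  122825) (nat_lit 6) nil (node (nat_lit 1) (nat_lit 129817) (nat_lit 6) (node (nat_lit 4)
  (nat_lit 122009) (nat_lit 7) nil nil) nil)) (node (nat_lit 6) (nat_lit 140823) (nat_lit 5) nil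
  nil))))) nil)))))) (node (nat_lit 2) (nat_lit 0) (nat_lit 3) (node (nat_lit 1) (nat_lit 135449)
  (nat_lit 4) (node (nat_lit 5) (nat_lit 145343) (nat_lit 5) nil (node (nat_lit 3) (nat_lit
  136262) (nat_lit 5) (node (nat_lit 4) (nat_lit 134279) (nat_lit 6) nil nil) (node (nat_lit 4)
  (nat_lit 128304) (nat_lit 5) (node (nat_lit 5) (nat_lit 82873) (nat_lit 6) nil nil) nil))) (node
  (nat_lit 3) (nat_lit 0) (nat_lit 4) (node (nat_lit 5) (nat_lit 143766) (nat_lit 5) nil (node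
  (nat_lit 1) (nat_lit 139815) (nat_lit 5) (node (nat_lit 4) (nat_lit 125226) (nat_lit 6) (node
  (nat_lit 5) (nat_lit 95605) (nat_lit 7) nil nil) nil) (node (nat_lit 4) (nat_lit 124334)
  (nat_lit 5) (node (nat_lit 1) (nat_lit 128196) (nat_lit 6) nil (node (nat_lit 7) (nat_lit
  128196) (nat_lit 6) nil (node (nat_lit 5) (nat_lit 99041) (nat_lit 6) nil nil))) (node (nat_lit
  6) (nat_lit 131693) (nat_lit 5) nil (node (nat_lit 0) (nat_lit 140279) (nat_lit 5) nil nil)))))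
  (node (nat_lit 0) (nat_lit 140935) (nat_lit 4) (node (nat_lit 5) (nat_lit 145343) (nat_lit 5)
  nil (node (nat_lit 3) (nat_lit 137610) (nat_lit 5) (node (nat_lit 4) (nat_lit 135628) (nat_lit
  6) nil nil) (node (nat_lit 1) (nat_lit 145343) (nat_lit 5) nil (node (nat_lit 4) (nat_lit
  144192) (nat_lit 5) (node (nat_lit 3) (nat_lit 138722) (nat_lit 6) nil (node (nat_lit 1)
  (nat_lit 139937) (nat_lit 6) nil nil)) nil)))) (node (nat_lit 5) (nat_lit 141506) (nat_lit 4)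
  (node (nat_lit 1) (nat_lit 145501) (nat_lit 5) nil (node (nat_lit 3) (nat_lit 144296) (nat_lit
  5) nil (node (nat_lit 4) (nat_lit 143049) (nat_lit 5) nil nil))) (node (nat_lit 4) (nat_lit 0)
  (nat_lit 4) (node (nat_lit 5) (nat_lit 140911) (nat_lit 5) nil (node (nat_lit 3) (nat_lit
  133474) (nat_lit 5) (node (nat_lit 1) (nat_lit 136863) (nat_lit 6) nil (node (nat_lit 4)
  (nat_lit 128038) (nat_lit 6) (node (nat_lit 5) (nat_lit 113743) (nat_lit 7) (node (nat_lit 6)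
  (nat_lit 78703) (nat_lit 8) (node (nat_lit 4) (nat_lit 76483) (nat_lit 9) nil nil) nil) nil)
  nil)) (node (nat_lit 1) (nat_lit 146683) (nat_lit 5) nil (node (nat_lit 6) (nat_lit 133137)
  (nat_lit 5) nil (node (nat_lit 0) (nat_lit 146387) (nat_lit 5) nil nil))))) nil))))) nil)))))
  (node (nat_lit 2) (nat_lit 0) (nat_lit 2) t115 nil)))

noncomputable def t117 : Tr :=
  (node (nat_lit 0) (nat_lit 0) (nat_lit 4) (node (nat_lit 6) (nat_lit 109525) (nat_lit 5) (node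
  (nat_lit 5) (nat_lit 113318) (nat_lit 6) (node (nat_lit 4) (nat_lit 112311) (nat_lit 7) (node
  (nat_lit 5) (nat_lit 104823) (nat_lit 8) (node (nat_lit 6) (nat_lit 84436) (nat_lit 9) (node
  (nat_lit 7) (nat_lit 55522) (nat_lit 10) nil nil) nil) nil) (node (nat_lit 6) (nat_lit 112845)
  (nat_lit 7) (node (nat_lit 7) (nat_lit 114587) (nat_lit 8) nil nil) nil)) (node (nat_lit 4)
  (nat_lit 113576) (nat_lit 6) (node (nat_lit 5) (nat_lit 115307) (nat_lit 7) (node (nat_lit 6)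
  (nat_lit 116446) (nat_lit 8) (node (nat_lit 7) (nat_lit 57623) (nat_lit 9) nil nil) nil) nil)
  nil)) (node (nat_lit 5) (nat_lit 109525) (nat_lit 5) (node (nat_lit 7) (nat_lit 113576) (nat_lit
  6) (node (nat_lit 6) (nat_lit 115307) (nat_lit 7) nil nil) (node (nat_lit 6) (nat_lit 113318)
  (nat_lit 6) (node (nat_lit 5) (nat_lit 115048) (nat_lit 7) nil nil) (node (nat_lit 4) (nat_lit
  113318) (nat_lit 6) (node (nat_lit 6) (nat_lit 115048) (nat_lit 7) nil (node (nat_lit 5)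
  (nat_lit 115048) (nat_lit 7) (node (nat_lit 6) (nat_lit 116188) (nat_lit 8) (node (nat_lit 7)
  (nat_lit 53717) (nat_lit 9) nil nil) nil) nil)) nil))) (node (nat_lit 4) (nat_lit 110037)
  (nat_lit 5) (node (nat_lit 6) (nat_lit 113830) (nat_lit 6) (node (nat_lit 4) (nat_lit 115560)
  (nat_lit 7) nil (node (nat_lit 5) (nat_lit 111327) (nat_lit 7) (node (nat_lit 6) (nat_lit
  111144) (nat_lit 8) (node (nat_lit 4) (nat_lit 106246) (nat_lit 9) (node (nat_lit 5) (nat_lit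
  93962) (nat_lit 10) (node (nat_lit 6) (nat_lit 86330) (nat_lit 11) nil nil) nil) nil) nil) nil))
  nil) (node (nat_lit 0) (nat_lit 110008) (nat_lit 5) (node (nat_lit 6) (nat_lit 111985) (nat_lit
  6) nil nil) (node (nat_lit 2) (nat_lit 107141) (nat_lit 5) (node (nat_lit 6) (nat_lit 109309)
  (nat_lit 6) nil nil) nil))))) (node (nat_lit 2) (nat_lit 0) (nat_lit 4) (node (nat_lit 6)
  (nat_lit 0) (nat_lit 5) (node (nat_lit 5) (nat_lit 79660) (nat_lit 6) (node (nat_lit 7) (nat_lit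
  79660) (nat_lit 7) (node (nat_lit 6) (nat_lit 79660) (nat_lit 8) (node (nat_lit 7) (nat_lit
  89010) (nat_lit 9) (node (nat_lit 5) (nat_lit 93332) (nat_lit 10) (node (nat_lit 6) (nat_lit
  92663) (nat_lit 11) nil (node (nat_lit 7) (nat_lit 92473) (nat_lit 11) nil nil)) nil) (node
  (nat_lit 4) (nat_lit 92201) (nat_lit 9) (node (nat_lit 5) (nat_lit 85468) (nat_lit 10) (node
  (nat_lit 6) (nat_lit 80117) (nat_lit 11) (node (nat_lit 7) (nat_lit 69785) (nat_lit 12) (node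
  (nat_lit 6) (nat_lit 63258) (nat_lit 13) (node (nat_lit 5) (nat_lit 50444) (nat_lit 14) nil nil)
  nil) nil) nil) nil) (node (nat_lit 0) (nat_lit 93220) (nat_lit 9) nil nil))) (node (nat_lit 5)
  (nat_lit 79739) (nat_lit 8) (node (nat_lit 6) (nat_lit 91146) (nat_lit 9) nil (node (nat_lit 4)
  (nat_lit 101033) (nat_lit 9) nil nil)) (node (nat_lit 4) (nat_lit 103839) (nat_lit 8) nil (node
  (nat_lit 0) (nat_lit 97803) (nat_lit 8) nil nil)))) (node (nat_lit 4) (nat_lit 104869) (nat_lit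
  7) (node (nat_lit 6) (nat_lit 104869) (nat_lit 8) nil (node (nat_lit 5) (nat_lit 92971) (nat_lit
  8) (node (nat_lit 6) (nat_lit 80420) (nat_lit 9) (node (nat_lit 7) (nat_lit 42791) (nat_lit 10)
  nil nil) nil) nil)) (node (nat_lit 6) (nat_lit 79660) (nat_lit 7) (node (nat_lit 7) (nat_lit
  79814) (nat_lit 8) (node (nat_lit 5) (nat_lit 93071) (nat_lit 9) (node (nat_lit 7) (nat_lit
  98917) (nat_lit 10) (node (nat_lit 6) (nat_lit 99045) (nat_lit 11) (node (nat_lit 5) (nat_lit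
  98853) (nat_lit 12) (node (nat_lit 7) (nat_lit 98578) (nat_lit 13) (node (nat_lit 5) (nat_lit
  97745) (nat_lit 14) nil nil) (node (nat_lit 6) (nat_lit 97577) (nat_lit 13) nil (node (nat_lit
  4) (nat_lit 98210) (nat_lit 13) nil nil))) nil) nil) (node (nat_lit 6) (nat_lit 98163) (nat_lit
  10) (node (nat_lit 5) (nat_lit 97586) (nat_lit 11) nil (node (nat_lit 4) (nat_lit 97384)
  (nat_lit 11) (node (nat_lit 5) (nat_lit 98253) (nat_lit 12) nil nil) nil)) (node (nat_lit 4)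
  (nat_lit 98883) (nat_lit 10) nil (node (nat_lit 0) (nat_lit 99489) (nat_lit 10) nil nil))))
  (node (nat_lit 4) (nat_lit 102871) (nat_lit 9) nil (node (nat_lit 0) (nat_lit 102871) (nat_lit
  9) nil nil))) (node (nat_lit 4) (nat_lit 99165) (nat_lit 8) nil nil)) (node (nat_lit 0) (nat_lit
  102439) (nat_lit 7) nil nil)))) (node (nat_lit 4) (nat_lit 103787) (nat_lit 6) (node (nat_lit 5)
  (nat_lit 93286) (nat_lit 7) (node (nat_lit 6) (nat_lit 62617) (nat_lit 8) nil (node (nat_lit 4)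
  (nat_lit 95027) (nat_lit 8) (node (nat_lit 6) (nat_lit 95027) (nat_lit 9) nil nil) nil)) (node
  (nat_lit 6) (nat_lit 105409) (nat_lit 7) nil nil)) (node (nat_lit 0) (nat_lit 102930) (nat_lit
  6) nil nil))) (node (nat_lit 5) (nat_lit 0) (nat_lit 5) (node (nat_lit 7) (nat_lit 79666)
  (nat_lit 6) (node (nat_lit 6) (nat_lit 79667) (nat_lit 7) (node (nat_lit 7) (nat_lit 79583)
  (nat_lit 8) (node (nat_lit 5) (nat_lit 89364) (nat_lit 9) (node (nat_lit 6) (nat_lit 91044)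
  (nat_lit 10) (node (nat_lit 5) (nat_lit 88176) (nat_lit 11) nil (node (nat_lit 7) (nat_lit
  90185) (nat_lit 11) (node (nat_lit 6) (nat_lit 88812) (nat_lit 12) nil nil) nil)) (node (nat_lit
  4) (nat_lit 89614) (nat_lit 10) (node (nat_lit 5) (nat_lit 88842) (nat_lit 11) (node (nat_lit 6)
  (nat_lit 89049) (nat_lit 12) (node (nat_lit 7) (nat_lit 84295) (nat_lit 13) (node (nat_lit 5)
  (nat_lit 81111) (nat_lit 14) (node (nat_lit 7) (nat_lit 61657) (nat_lit 15) nil nil) nil) nil)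
  nil) nil) nil)) nil) (node (nat_lit 5) (nat_lit 79846) (nat_lit 8) (node (nat_lit 6) (nat_lit
  92135) (nat_lit 9) (node (nat_lit 7) (nat_lit 97488) (nat_lit 10) nil nil) (node (nat_lit 7)
  (nat_lit 89364) (nat_lit 9) (node (nat_lit 5) (nat_lit 90448) (nat_lit 10) (node (nat_lit 6)
  (nat_lit 85530) (nat_lit 11) nil nil) nil) (node (nat_lit 4) (nat_lit 96909) (nat_lit 9) nil
  nil))) (node (nat_lit 4) (nat_lit 103939) (nat_lit 8) nil nil))) (node (nat_lit 4) (nat_lit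
  108135) (nat_lit 7) nil (node (nat_lit 0) (nat_lit 107223) (nat_lit 7) nil nil))) (node (nat_lit
  6) (nat_lit 79670) (nat_lit 6) (node (nat_lit 5) (nat_lit 79670) (nat_lit 7) (node (nat_lit 7)
  (nat_lit 79716) (nat_lit 8) (node (nat_lit 6) (nat_lit 92088) (nat_lit 9) (node (nat_lit 7)
  (nat_lit 96053) (nat_lit 10) nil (node (nat_lit 5) (nat_lit 97500) (nat_lit 10) (node (nat_lit
  6) (nat_lit 94632) (nat_lit 11) nil nil) nil)) (node (nat_lit 4) (nat_lit 99579) (nat_lit 9) nil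
  (node (nat_lit 0) (nat_lit 98671) (nat_lit 9) nil nil))) (node (nat_lit 4) (nat_lit 103506)
  (nat_lit 8) nil (node (nat_lit 0) (nat_lit 103848) (nat_lit 8) nil nil))) (node (nat_lit 4)
  (nat_lit 101441) (nat_lit 7) (node (nat_lit 5) (nat_lit 95098) (nat_lit 8) (node (nat_lit 6)
  (nat_lit 63258) (nat_lit 9) nil nil) nil) (node (nat_lit 0) (nat_lit 102447) (nat_lit 7) nil
  nil))) (node (nat_lit 4) (nat_lit 102639) (nat_lit 6) (node (nat_lit 6) (nat_lit 102639)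
  (nat_lit 7) (node (nat_lit 5) (nat_lit 102639) (nat_lit 8) (node (nat_lit 6) (nat_lit 102639)
  (nat_lit 9) nil nil) nil) (node (nat_lit 5) (nat_lit 92786) (nat_lit 7) (node (nat_lit 6)
  (nat_lit 55337) (nat_lit 8) (node (nat_lit 5) (nat_lit 56126) (nat_lit 9) nil (node (nat_lit 7)
  (nat_lit 50654) (nat_lit 9) nil nil)) nil) nil)) (node (nat_lit 0) (nat_lit 105800) (nat_lit 6)
  nil nil)))) (node (nat_lit 4) (nat_lit 108467) (nat_lit 5) (node (nat_lit 6) (nat_lit 113832)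
  (nat_lit 6) (node (nat_lit 4) (nat_lit 116560) (nat_lit 7) nil (node (nat_lit 5) (nat_lit
  116276) (nat_lit 7) nil nil)) nil) (node (nat_lit 0) (nat_lit 107554) (nat_lit 5) (node (nat_lit
  6) (nat_lit 107939) (nat_lit 6) nil nil) nil)))) (node (nat_lit 4) (nat_lit 0) (nat_lit 4) (node
  (nat_lit 5) (nat_lit 0) (nat_lit 5) (node (nat_lit 4) (nat_lit 0) (nat_lit 6) (node (nat_lit 6)
  (nat_lit 56751) (nat_lit 7) (node (nat_lit 5) (nat_lit 56930) (nat_lit 8) nil nil) (node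
  (nat_lit 0) (nat_lit 57623) (nat_lit 7) nil (node (nat_lit 2) (nat_lit 57623) (nat_lit 7) nil
  nil))) (node (nat_lit 0) (nat_lit 55240) (nat_lit 6) nil (node (nat_lit 2) (nat_lit 53998)
  (nat_lit 6) nil nil))) (node (nat_lit 0) (nat_lit 78101) (nat_lit 5) (node (nat_lit 6) (nat_lit
  80811) (nat_lit 6) (node (nat_lit 4) (nat_lit 82542) (nat_lit 7) (node (nat_lit 5) (nat_lit
  83681) (nat_lit 8) (node (nat_lit 6) (nat_lit 84469) (nat_lit 9) (node (nat_lit 4) (nat_lit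
  85067) (nat_lit 10) nil nil) nil) nil) nil) (node (nat_lit 5) (nat_lit 81629) (nat_lit 6) (node
  (nat_lit 4) (nat_lit 83359) (nat_lit 7) (node (nat_lit 5) (nat_lit 84498) (nat_lit 8) (node
  (nat_lit 6) (nat_lit 85287) (nat_lit 9) (node (nat_lit 4) (nat_lit 85885) (nat_lit 10) nil nil)
  nil) (node (nat_lit 6) (nat_lit 84498) (nat_lit 8) nil nil)) nil) (node (nat_lit 4) (nat_lit
  80811) (nat_lit 6) (node (nat_lit 6) (nat_lit 82542) (nat_lit 7) nil nil) nil))) (node (nat_lit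
  2) (nat_lit 0) (nat_lit 5) (node (nat_lit 6) (nat_lit 73458) (nat_lit 6) (node (nat_lit 4)
  (nat_lit 75189) (nat_lit 7) (node (nat_lit 6) (nat_lit 76328) (nat_lit 8) nil (node (nat_lit 5)
  (nat_lit 63258) (nat_lit 8) (node (nat_lit 6) (nat_lit 62263) (nat_lit 9) (node (nat_lit 4)
  (nat_lit 57623) (nat_lit 10) nil nil) nil) nil)) (node (nat_lit 5) (nat_lit 82061) (nat_lit 7)
  (node (nat_lit 4) (nat_lit 83200) (nat_lit 8) nil nil) nil)) (node (nat_lit 5) (nat_lit 81632)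
  (nat_lit 6) (node (nat_lit 4) (nat_lit 83363) (nat_lit 7) (node (nat_lit 5) (nat_lit 84181)
  (nat_lit 8) (node (nat_lit 6) (nat_lit 63192) (nat_lit 9) (node (nat_lit 4) (nat_lit 23082)
  (nat_lit 10) nil nil) nil) nil) nil) (node (nat_lit 4) (nat_lit 73396) (nat_lit 6) (node
  (nat_lit 6) (nat_lit 75127) (nat_lit 7) nil nil) (node (nat_lit 0) (nat_lit 80370) (nat_lit 6)
  nil nil)))) (node (nat_lit 6) (nat_lit 0) (nat_lit 5) (node (nat_lit 5) (nat_lit 0) (nat_lit 6)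
  (node (nat_lit 4) (nat_lit 74261) (nat_lit 7) (node (nat_lit 5) (nat_lit 80652) (nat_lit 8)
  (node (nat_lit 6) (nat_lit 70445) (nat_lit 9) (node (nat_lit 4) (nat_lit 37552) (nat_lit 10) nil
  nil) nil) nil) (node (nat_lit 6) (nat_lit 78001) (nat_lit 7) (node (nat_lit 4) (nat_lit 80447)
  (nat_lit 8) nil nil) (node (nat_lit 0) (nat_lit 82260) (nat_lit 7) nil (node (nat_lit 2)
  (nat_lit 82135) (nat_lit 7) nil nil)))) (node (nat_lit 0) (nat_lit 77908) (nat_lit 6) (node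
  (nat_lit 6) (nat_lit 81887) (nat_lit 7) nil (node (nat_lit 5) (nat_lit 82260) (nat_lit 7) (node
  (nat_lit 4) (nat_lit 84698) (nat_lit 8) nil nil) (node (nat_lit 4) (nat_lit 81887) (nat_lit 7)
  nil nil))) (node (nat_lit 2) (nat_lit 69814) (nat_lit 6) (node (nat_lit 6) (nat_lit 73793)
  (nat_lit 7) (node (nat_lit 4) (nat_lit 76232) (nat_lit 8) (node (nat_lit 5) (nat_lit 63258)
  (nat_lit 9) nil nil) nil) (node (nat_lit 5) (nat_lit 81189) (nat_lit 7) (node (nat_lit 4)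
  (nat_lit 83627) (nat_lit 8) (node (nat_lit 5) (nat_lit 81787) (nat_lit 9) nil nil) nil) (node
  (nat_lit 4) (nat_lit 73793) (nat_lit 7) (node (nat_lit 6) (nat_lit 76232) (nat_lit 8) nil nil)
  nil))) nil))) nil)))) (node (nat_lit 5) (nat_lit 0) (nat_lit 4) (node (nat_lit 0) (nat_lit 0)
  (nat_lit 5) (node (nat_lit 6) (nat_lit 112395) (nat_lit 6) (node (nat_lit 5) (nat_lit 116165)
  (nat_lit 7) (node (nat_lit 4) (nat_lit 115001) (nat_lit 8) (node (nat_lit 5) (nat_lit 109547)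
  (nat_lit 9) (node (nat_lit 6) (nat_lit 98587) (nat_lit 10) (node (nat_lit 5) (nat_lit 67808)
  (nat_lit 11) (node (nat_lit 4) (nat_lit 68104) (nat_lit 12) nil nil) nil) nil) nil) nil) (node
  (nat_lit 4) (nat_lit 114639) (nat_lit 7) (node (nat_lit 5) (nat_lit 115778) (nat_lit 8) (node
  (nat_lit 6) (nat_lit 116516) (nat_lit 9) nil nil) nil) nil)) (node (nat_lit 5) (nat_lit 112412)
  (nat_lit 6) (node (nat_lit 6) (nat_lit 114619) (nat_lit 7) nil (node (nat_lit 4) (nat_lit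
  114639) (nat_lit 7) (node (nat_lit 5) (nat_lit 115778) (nat_lit 8) (node (nat_lit 6) (nat_lit
  116533) (nat_lit 9) (node (nat_lit 5) (nat_lit 116632) (nat_lit 10) nil nil) nil) nil) nil))
  (node (nat_lit 4) (nat_lit 113010) (nat_lit 6) nil (node (nat_lit 0) (nat_lit 109175) (nat_lit
  6) nil (node (nat_lit 2) (nat_lit 112242) (nat_lit 6) nil nil))))) (node (nat_lit 2) (nat_lit 0)
  (nat_lit 5) (node (nat_lit 6) (nat_lit 0) (nat_lit 6) (node (nat_lit 5) (nat_lit 79716) (nat_lit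
  7) (node (nat_lit 6) (nat_lit 79733) (nat_lit 8) (node (nat_lit 8) (nat_lit 93481) (nat_lit 9)
  (node (nat_lit 5) (nat_lit 99380) (nat_lit 10) nil (node (nat_lit 6) (nat_lit 97901) (nat_lit
  10) (node (nat_lit 5) (nat_lit 93599) (nat_lit 11) nil (node (nat_lit 4) (nat_lit 98040)
  (nat_lit 11) nil nil)) nil)) (node (nat_lit 4) (nat_lit 99209) (nat_lit 9) (node (nat_lit 5)
  (nat_lit 94842) (nat_lit 10) (node (nat_lit 6) (nat_lit 89129) (nat_lit 11) (node (nat_lit 5)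
  (nat_lit 83853) (nat_lit 12) (node (nat_lit 8) (nat_lit 64423) (nat_lit 13) nil nil) nil) nil)
  nil) (node (nat_lit 0) (nat_lit 98700) (nat_lit 9) nil nil))) (node (nat_lit 4) (nat_lit 107273)
  (nat_lit 8) (node (nat_lit 5) (nat_lit 97740) (nat_lit 9) (node (nat_lit 6) (nat_lit 94155)
  (nat_lit 10) (node (nat_lit 5) (nat_lit 66250) (nat_lit 11) nil nil) nil) nil) (node (nat_lit 0)
  (nat_lit 109940) (nat_lit 8) nil nil))) (node (nat_lit 8) (nat_lit 79752) (nat_lit 7) (node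
  (nat_lit 5) (nat_lit 79835) (nat_lit 8) (node (nat_lit 8) (nat_lit 94936) (nat_lit 9) (node
  (nat_lit 6) (nat_lit 100968) (nat_lit 10) nil nil) (node (nat_lit 6) (nat_lit 95257) (nat_lit 9)
  nil (node (nat_lit 4) (nat_lit 103283) (nat_lit 9) nil (node (nat_lit 0) (nat_lit 108671)
  (nat_lit 9) nil nil)))) (node (nat_lit 4) (nat_lit 111879) (nat_lit 8) nil (node (nat_lit 0)
  (nat_lit 109126) (nat_lit 8) nil nil))) (node (nat_lit 4) (nat_lit 110006) (nat_lit 7) (node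
  (nat_lit 5) (nat_lit 101757) (nat_lit 8) (node (nat_lit 6) (nat_lit 78851) (nat_lit 9) nil nil)
  nil) (node (nat_lit 0) (nat_lit 114779) (nat_lit 7) nil nil)))) (node (nat_lit 5) (nat_lit 0)
  (nat_lit 6) (node (nat_lit 6) (nat_lit 79683) (nat_lit 7) (node (nat_lit 8) (nat_lit 79600)
  (nat_lit 8) (node (nat_lit 6) (nat_lit 91837) (nat_lit 9) (node (nat_lit 5) (nat_lit 95540)
  (nat_lit 10) (node (nat_lit 8) (nat_lit 93186) (nat_lit 11) nil nil) (node (nat_lit 4) (nat_lit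
  98148) (nat_lit 10) (node (nat_lit 5) (nat_lit 91208) (nat_lit 11) nil nil) nil)) (node (nat_lit
  5) (nat_lit 92109) (nat_lit 9) (node (nat_lit 4) (nat_lit 102611) (nat_lit 10) (node (nat_lit 5)
  (nat_lit 95671) (nat_lit 11) nil nil) nil) (node (nat_lit 0) (nat_lit 99465) (nat_lit 9) nil
  (node (nat_lit 4) (nat_lit 99465) (nat_lit 9) nil nil)))) (node (nat_lit 4) (nat_lit 101302)
  (nat_lit 8) (node (nat_lit 5) (nat_lit 96617) (nat_lit 9) (node (nat_lit 6) (nat_lit 85305)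
  (nat_lit 10) (node (nat_lit 5) (nat_lit 73682) (nat_lit 11) nil nil) nil) nil) (node (nat_lit 0)
  (nat_lit 103872) (nat_lit 8) nil (node (nat_lit 5) (nat_lit 79683) (nat_lit 8) nil nil)))) (node
  (nat_lit 4) (nat_lit 112176) (nat_lit 7) (node (nat_lit 5) (nat_lit 102737) (nat_lit 8) (node
  (nat_lit 6) (nat_lit 88437) (nat_lit 9) (node (nat_lit 5) (nat_lit 59407) (nat_lit 10) nil nil)
  nil) nil) (node (nat_lit 0) (nat_lit 109571) (nat_lit 7) nil nil))) (node (nat_lit 4) (nat_lit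
  112470) (nat_lit 6) nil (node (nat_lit 0) (nat_lit 109070) (nat_lit 6) nil nil)))) (node
  (nat_lit 4) (nat_lit 0) (nat_lit 5) (node (nat_lit 5) (nat_lit 0) (nat_lit 6) (node (nat_lit 6)
  (nat_lit 0) (nat_lit 7) (node (nat_lit 4) (nat_lit 48627) (nat_lit 8) nil (node (nat_lit 0)
  (nat_lit 52753) (nat_lit 8) nil (node (nat_lit 2) (nat_lit 52589) (nat_lit 8) nil nil))) (node
  (nat_lit 0) (nat_lit 51714) (nat_lit 7) (node (nat_lit 6) (nat_lit 54756) (nat_lit 8) (node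
  (nat_lit 5) (nat_lit 56097) (nat_lit 9) nil nil) (node (nat_lit 5) (nat_lit 54756) (nat_lit 8)
  (node (nat_lit 4) (nat_lit 56166) (nat_lit 9) nil nil) (node (nat_lit 4) (nat_lit 54794)
  (nat_lit 8) nil (node (nat_lit 0) (nat_lit 54794) (nat_lit 8) nil (node (nat_lit 2) (nat_lit
  54756) (nat_lit 8) nil nil))))) (node (nat_lit 2) (nat_lit 51586) (nat_lit 7) (node (nat_lit 6)
  (nat_lit 54629) (nat_lit 8) (node (nat_lit 5) (nat_lit 55969) (nat_lit 9) (node (nat_lit 4)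
  (nat_lit 56897) (nat_lit 10) nil nil) nil) (node (nat_lit 5) (nat_lit 54629) (nat_lit 8) (node
  (nat_lit 4) (nat_lit 56166) (nat_lit 9) nil nil) (node (nat_lit 4) (nat_lit 54794) (nat_lit 8)
  nil (node (nat_lit 0) (nat_lit 54794) (nat_lit 8) nil nil)))) nil))) (node (nat_lit 6) (nat_lit
  0) (nat_lit 6) (node (nat_lit 5) (nat_lit 97846) (nat_lit 7) (node (nat_lit 6) (nat_lit 104074)
  (nat_lit 8) nil nil) (node (nat_lit 4) (nat_lit 97974) (nat_lit 7) (node (nat_lit 5) (nat_lit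
  103605) (nat_lit 8) (node (nat_lit 6) (nat_lit 108706) (nat_lit 9) (node (nat_lit 5) (nat_lit
  107326) (nat_lit 10) nil nil) nil) nil) (node (nat_lit 0) (nat_lit 108976) (nat_lit 7) nil (node
  (nat_lit 2) (nat_lit 108686) (nat_lit 7) nil nil)))) (node (nat_lit 0) (nat_lit 100893) (nat_lit
  6) (node (nat_lit 6) (nat_lit 108927) (nat_lit 7) nil (node (nat_lit 5) (nat_lit 108764)
  (nat_lit 7) nil nil)) (node (nat_lit 2) (nat_lit 98613) (nat_lit 6) (node (nat_lit 6) (nat_lit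
  108848) (nat_lit 7) (node (nat_lit 4) (nat_lit 109412) (nat_lit 8) (node (nat_lit 5) (nat_lit
  92345) (nat_lit 9) (node (nat_lit 6) (nat_lit 80376) (nat_lit 10) (node (nat_lit 5) (nat_lit
  59129) (nat_lit 11) nil nil) nil) nil) nil) (node (nat_lit 5) (nat_lit 106485) (nat_lit 7) nil
  nil)) nil)))) nil))) nil))))

noncomputable def t118 : Tr :=
  (node (nat_lit 3) (nat_lit 0) (nat_lit 4) (node (nat_lit 6) (nat_lit 0) (nat_lit 5) (node
  (nat_lit 5) (nat_lit 79443) (nat_lit 6) (node (nat_lit 7) (nat_lit 79443) (nat_lit 7) (node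
  (nat_lit 5) (nat_lit 79547) (nat_lit 8) (node (nat_lit 6) (nat_lit 93952) (nat_lit 9) (node
  (nat_lit 7) (nat_lit 101239) (nat_lit 10) (node (nat_lit 5) (nat_lit 104514) (nat_lit 11) (node
  (nat_lit 7) (nat_lit 103876) (nat_lit 12) (node (nat_lit 6) (nat_lit 103025) (nat_lit 13) (node
  (nat_lit 7) (nat_lit 102276) (nat_lit 14) (node (nat_lit 5) (nat_lit 101421) (nat_lit 15) nil
  nil) nil) (node (nat_lit 4) (nat_lit 103023) (nat_lit 13) (node (nat_lit 5) (nat_lit 102821)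
  (nat_lit 14) nil nil) nil)) (node (nat_lit 4) (nat_lit 104986) (nat_lit 12) (node (nat_lit 5)
  (nat_lit 101939) (nat_lit 13) (node (nat_lit 6) (nat_lit 100799) (nat_lit 14) (node (nat_lit 7)
  (nat_lit 98790) (nat_lit 15) nil nil) nil) (node (nat_lit 7) (nat_lit 104986) (nat_lit 13) nil
  nil)) nil)) (node (nat_lit 6) (nat_lit 101031) (nat_lit 11) (node (nat_lit 5) (nat_lit 97249)
  (nat_lit 12) nil nil) (node (nat_lit 4) (nat_lit 106279) (nat_lit 11) (node (nat_lit 5) (nat_lit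
  104057) (nat_lit 12) (node (nat_lit 6) (nat_lit 99207) (nat_lit 13) (node (nat_lit 7) (nat_lit
  94782) (nat_lit 14) nil nil) nil) nil) (node (nat_lit 0) (nat_lit 106565) (nat_lit 11) nil
  nil)))) (node (nat_lit 5) (nat_lit 102700) (nat_lit 10) (node (nat_lit 7) (nat_lit 103910)
  (nat_lit 11) (node (nat_lit 6) (nat_lit 101523) (nat_lit 12) nil (node (nat_lit 4) (nat_lit
  105137) (nat_lit 12) (node (nat_lit 5) (nat_lit 103663) (nat_lit 13) nil nil) nil)) (node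
  (nat_lit 4) (nat_lit 105503) (nat_lit 11) (node (nat_lit 5) (nat_lit 100936) (nat_lit 12) nil
  nil) nil)) (node (nat_lit 4) (nat_lit 109210) (nat_lit 10) (node (nat_lit 7) (nat_lit 109210)
  (nat_lit 11) nil nil) (node (nat_lit 0) (nat_lit 109210) (nat_lit 10) nil nil)))) (node (nat_lit
  4) (nat_lit 104989) (nat_lit 9) (node (nat_lit 7) (nat_lit 104989) (nat_lit 10) (node (nat_lit
  4) (nat_lit 105398) (nat_lit 11) nil nil) (node (nat_lit 5) (nat_lit 101745) (nat_lit 10) (node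
  (nat_lit 6) (nat_lit 91512) (nat_lit 11) (node (nat_lit 7) (nat_lit 81126) (nat_lit 12) (node
  (nat_lit 6) (nat_lit 56260) (nat_lit 13) (node (nat_lit 5) (nat_lit 46114) (nat_lit 14) nil nil)
  nil) nil) nil) nil)) (node (nat_lit 0) (nat_lit 105051) (nat_lit 9) (node (nat_lit 5) (nat_lit
  105051) (nat_lit 10) nil nil) nil))) (node (nat_lit 4) (nat_lit 101516) (nat_lit 8) (node
  (nat_lit 5) (nat_lit 103696) (nat_lit 9) (node (nat_lit 6) (nat_lit 86489) (nat_lit 10) (node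
  (nat_lit 7) (nat_lit 58543) (nat_lit 11) (node (nat_lit 6) (nat_lit 58543) (nat_lit 12) nil nil)
  nil) nil) (node (nat_lit 7) (nat_lit 101516) (nat_lit 9) (node (nat_lit 5) (nat_lit 101516)
  (nat_lit 10) nil nil) nil)) (node (nat_lit 6) (nat_lit 79454) (nat_lit 8) (node (nat_lit 7)
  (nat_lit 88482) (nat_lit 9) nil nil) (node (nat_lit 0) (nat_lit 103852) (nat_lit 8) (node
  (nat_lit 5) (nat_lit 103852) (nat_lit 9) nil nil) nil)))) (node (nat_lit 6) (nat_lit 79443)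
  (nat_lit 7) (node (nat_lit 7) (nat_lit 79657) (nat_lit 8) (node (nat_lit 5) (nat_lit 92488)
  (nat_lit 9) (node (nat_lit 6) (nat_lit 95318) (nat_lit 10) (node (nat_lit 5) (nat_lit 92863)
  (nat_lit 11) nil nil) (node (nat_lit 4) (nat_lit 99634) (nat_lit 10) (node (nat_lit 5) (nat_lit
  96549) (nat_lit 11) nil nil) (node (nat_lit 7) (nat_lit 95931) (nat_lit 10) (node (nat_lit 4)
  (nat_lit 95310) (nat_lit 11) nil nil) nil))) (node (nat_lit 4) (nat_lit 100558) (nat_lit 9)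
  (node (nat_lit 5) (nat_lit 98413) (nat_lit 10) (node (nat_lit 6) (nat_lit 78872) (nat_lit 11)
  (node (nat_lit 7) (nat_lit 70802) (nat_lit 12) nil nil) nil) nil) (node (nat_lit 0) (nat_lit
  105160) (nat_lit 9) nil nil))) (node (nat_lit 4) (nat_lit 109888) (nat_lit 8) (node (nat_lit 7)
  (nat_lit 109888) (nat_lit 9) (node (nat_lit 5) (nat_lit 109888) (nat_lit 10) nil nil) nil) (node
  (nat_lit 0) (nat_lit 103852) (nat_lit 8) nil nil))) (node (nat_lit 4) (nat_lit 108173) (nat_lit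
  7) (node (nat_lit 5) (nat_lit 97222) (nat_lit 8) (node (nat_lit 6) (nat_lit 83113) (nat_lit 9)
  (node (nat_lit 7) (nat_lit 49103) (nat_lit 10) nil (node (nat_lit 5) (nat_lit 81344) (nat_lit
  10) nil nil)) (node (nat_lit 7) (nat_lit 97222) (nat_lit 9) nil nil)) (node (nat_lit 7) (nat_lit
  108173) (nat_lit 8) (node (nat_lit 5) (nat_lit 107010) (nat_lit 9) nil nil) nil)) (node (nat_lit
  0) (nat_lit 108979) (nat_lit 7) (node (nat_lit 5) (nat_lit 108979) (nat_lit 8) nil (node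
  (nat_lit 7) (nat_lit 108979) (nat_lit 8) nil nil)) nil)))) (node (nat_lit 4) (nat_lit 105160)
  (nat_lit 6) (node (nat_lit 7) (nat_lit 109386) (nat_lit 7) (node (nat_lit 4) (nat_lit 111561)
  (nat_lit 8) (node (nat_lit 5) (nat_lit 111561) (nat_lit 9) (node (nat_lit 6) (nat_lit 110214)
  (nat_lit 10) (node (nat_lit 7) (nat_lit 110101) (nat_lit 11) nil nil) nil) nil) (node (nat_lit
  5) (nat_lit 111573) (nat_lit 8) (node (nat_lit 6) (nat_lit 112836) (nat_lit 9) (node (nat_lit 7)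
  (nat_lit 112407) (nat_lit 10) (node (nat_lit 4) (nat_lit 110924) (nat_lit 11) nil nil) nil) nil)
  nil)) (node (nat_lit 5) (nat_lit 109141) (nat_lit 7) (node (nat_lit 7) (nat_lit 108846) (nat_lit
  8) nil nil) nil)) (node (nat_lit 0) (nat_lit 105280) (nat_lit 6) (node (nat_lit 5) (nat_lit
  108024) (nat_lit 7) nil (node (nat_lit 7) (nat_lit 106610) (nat_lit 7) nil (node (nat_lit 4)
  (nat_lit 109111) (nat_lit 7) nil nil))) nil))) (node (nat_lit 5) (nat_lit 0) (nat_lit 5) (node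
  (nat_lit 6) (nat_lit 0) (nat_lit 6) (node (nat_lit 5) (nat_lit 79559) (nat_lit 7) (node (nat_lit
  7) (nat_lit 79565) (nat_lit 8) (node (nat_lit 5) (nat_lit 93411) (nat_lit 9) (node (nat_lit 4)
  (nat_lit 101225) (nat_lit 10) (node (nat_lit 5) (nat_lit 98066) (nat_lit 11) (node (nat_lit 6)
  (nat_lit 96994) (nat_lit 12) (node (nat_lit 7) (nat_lit 92547) (nat_lit 13) (node (nat_lit 5)
  (nat_lit 81789) (nat_lit 14) (node (nat_lit 6) (nat_lit 52476) (nat_lit 15) nil nil) nil) nil)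
  nil) (node (nat_lit 7) (nat_lit 101225) (nat_lit 11) nil nil)) (node (nat_lit 6) (nat_lit 99693)
  (nat_lit 10) (node (nat_lit 7) (nat_lit 100300) (nat_lit 11) (node (nat_lit 6) (nat_lit 100857)
  (nat_lit 12) (node (nat_lit 5) (nat_lit 100711) (nat_lit 13) nil nil) (node (nat_lit 5) (nat_lit
  96518) (nat_lit 12) (node (nat_lit 7) (nat_lit 96840) (nat_lit 13) nil nil) nil)) nil) (node
  (nat_lit 0) (nat_lit 108319) (nat_lit 10) (node (nat_lit 7) (nat_lit 108319) (nat_lit 11) nil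
  (node (nat_lit 5) (nat_lit 108319) (nat_lit 11) nil nil)) nil))) (node (nat_lit 6) (nat_lit
  92269) (nat_lit 9) (node (nat_lit 7) (nat_lit 95388) (nat_lit 10) (node (nat_lit 5) (nat_lit
  92949) (nat_lit 11) (node (nat_lit 6) (nat_lit 93334) (nat_lit 12) nil nil) nil) (node (nat_lit
  5) (nat_lit 99038) (nat_lit 10) (node (nat_lit 6) (nat_lit 99155) (nat_lit 11) nil nil) (node
  (nat_lit 4) (nat_lit 103345) (nat_lit 10) nil (node (nat_lit 0) (nat_lit 98885) (nat_lit 10) nil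
  nil)))) (node (nat_lit 4) (nat_lit 99448) (nat_lit 9) (node (nat_lit 5) (nat_lit 96321) (nat_lit
  10) (node (nat_lit 6) (nat_lit 84834) (nat_lit 11) (node (nat_lit 7) (nat_lit 63258) (nat_lit
  12) (node (nat_lit 5) (nat_lit 61667) (nat_lit 13) nil nil) nil) nil) nil) (node (nat_lit 0)
  (nat_lit 105067) (nat_lit 9) (node (nat_lit 7) (nat_lit 105067) (nat_lit 10) nil (node (nat_lit
  5) (nat_lit 105067) (nat_lit 10) nil nil)) nil)))) (node (nat_lit 4) (nat_lit 106230) (nat_lit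
  8) (node (nat_lit 5) (nat_lit 94145) (nat_lit 9) (node (nat_lit 6) (nat_lit 80922) (nat_lit 10)
  (node (nat_lit 7) (nat_lit 44562) (nat_lit 11) nil nil) nil) (node (nat_lit 7) (nat_lit 106230)
  (nat_lit 9) nil nil)) (node (nat_lit 0) (nat_lit 103968) (nat_lit 8) nil nil))) (node (nat_lit
  4) (nat_lit 109214) (nat_lit 7) (node (nat_lit 7) (nat_lit 110863) (nat_lit 8) (node (nat_lit 4)
  (nat_lit 112066) (nat_lit 9) (node (nat_lit 5) (nat_lit 112066) (nat_lit 10) (node (nat_lit 6)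
  (nat_lit 110958) (nat_lit 11) nil nil) nil) (node (nat_lit 5) (nat_lit 109212) (nat_lit 9) (node
  (nat_lit 4) (nat_lit 110020) (nat_lit 10) nil nil) nil)) nil) (node (nat_lit 0) (nat_lit 105731)
  (nat_lit 7) nil nil))) (node (nat_lit 7) (nat_lit 79547) (nat_lit 6) (node (nat_lit 6) (nat_lit
  79547) (nat_lit 7) (node (nat_lit 5) (nat_lit 79616) (nat_lit 8) (node (nat_lit 7) (nat_lit
  90854) (nat_lit 9) (node (nat_lit 5) (nat_lit 96922) (nat_lit 10) (node (nat_lit 6) (nat_lit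
  92956) (nat_lit 11) (node (nat_lit 7) (nat_lit 89428) (nat_lit 12) (node (nat_lit 5) (nat_lit
  88059) (nat_lit 13) (node (nat_lit 4) (nat_lit 89616) (nat_lit 14) nil nil) nil) nil) (node
  (nat_lit 4) (nat_lit 96438) (nat_lit 11) nil nil)) (node (nat_lit 4) (nat_lit 99983) (nat_lit
  10) (node (nat_lit 5) (nat_lit 93175) (nat_lit 11) (node (nat_lit 6) (nat_lit 93106) (nat_lit
  12) (node (nat_lit 7) (nat_lit 83770) (nat_lit 13) (node (nat_lit 5) (nat_lit 75609) (nat_lit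
  14) (node (nat_lit 7) (nat_lit 56728) (nat_lit 15) nil nil) nil) nil) nil) nil) nil)) (node
  (nat_lit 4) (nat_lit 96923) (nat_lit 9) (node (nat_lit 5) (nat_lit 88374) (nat_lit 10) (node
  (nat_lit 6) (nat_lit 88637) (nat_lit 11) (node (nat_lit 7) (nat_lit 82995) (nat_lit 12) (node
  (nat_lit 5) (nat_lit 73729) (nat_lit 13) (node (nat_lit 7) (nat_lit 45133) (nat_lit 14) nil nil)
  nil) nil) nil) nil) (node (nat_lit 6) (nat_lit 91359) (nat_lit 9) (node (nat_lit 7) (nat_lit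
  96795) (nat_lit 10) nil nil) (node (nat_lit 0) (nat_lit 98814) (nat_lit 9) nil nil)))) (node
  (nat_lit 7) (nat_lit 79568) (nat_lit 8) (node (nat_lit 4) (nat_lit 98080) (nat_lit 9) (node
  (nat_lit 5) (nat_lit 93739) (nat_lit 10) nil nil) (node (nat_lit 5) (nat_lit 89624) (nat_lit 9)
  (node (nat_lit 6) (nat_lit 92617) (nat_lit 10) nil nil) (node (nat_lit 0) (nat_lit 99674)
  (nat_lit 9) nil nil))) (node (nat_lit 4) (nat_lit 109681) (nat_lit 8) (node (nat_lit 7) (nat_lit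
  109681) (nat_lit 9) nil nil) (node (nat_lit 0) (nat_lit 103956) (nat_lit 8) nil nil)))) (node
  (nat_lit 4) (nat_lit 100291) (nat_lit 7) (node (nat_lit 5) (nat_lit 90242) (nat_lit 8) (node
  (nat_lit 6) (nat_lit 72750) (nat_lit 9) (node (nat_lit 7) (nat_lit 58543) (nat_lit 10) nil nil)
  nil) nil) (node (nat_lit 0) (nat_lit 108034) (nat_lit 7) nil nil))) (node (nat_lit 4) (nat_lit
  101891) (nat_lit 6) (node (nat_lit 5) (nat_lit 82115) (nat_lit 7) (node (nat_lit 6) (nat_lit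
  48808) (nat_lit 8) (node (nat_lit 4) (nat_lit 50943) (nat_lit 9) (node (nat_lit 7) (nat_lit
  51577) (nat_lit 10) nil nil) nil) (node (nat_lit 7) (nat_lit 83622) (nat_lit 8) (node (nat_lit
  5) (nat_lit 80643) (nat_lit 9) nil (node (nat_lit 4) (nat_lit 84762) (nat_lit 9) (node (nat_lit
  5) (nat_lit 79841) (nat_lit 10) nil nil) nil)) nil)) (node (nat_lit 7) (nat_lit 102405) (nat_lit
  7) (node (nat_lit 5) (nat_lit 102489) (nat_lit 8) (node (nat_lit 6) (nat_lit 99367) (nat_lit 9)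
  (node (nat_lit 7) (nat_lit 97860) (nat_lit 10) nil nil) (node (nat_lit 7) (nat_lit 99509)
  (nat_lit 9) (node (nat_lit 4) (nat_lit 99461) (nat_lit 10) (node (nat_lit 5) (nat_lit 96553)
  (nat_lit 11) nil nil) nil) nil)) (node (nat_lit 4) (nat_lit 105342) (nat_lit 8) (node (nat_lit
  5) (nat_lit 105342) (nat_lit 9) nil nil) nil)) (node (nat_lit 6) (nat_lit 101989) (nat_lit 7)
  (node (nat_lit 5) (nat_lit 102073) (nat_lit 8) nil nil) nil))) (node (nat_lit 0) (nat_lit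
  105272) (nat_lit 6) (node (nat_lit 5) (nat_lit 106954) (nat_lit 7) nil (node (nat_lit 7)
  (nat_lit 105835) (nat_lit 7) nil nil)) nil)))) (node (nat_lit 4) (nat_lit 0) (nat_lit 5) (node
  (nat_lit 5) (nat_lit 63258) (nat_lit 6) (node (nat_lit 4) (nat_lit 63258) (nat_lit 7) (node
  (nat_lit 7) (nat_lit 63258) (nat_lit 8) (node (nat_lit 5) (nat_lit 63258) (nat_lit 9) nil nil)
  (node (nat_lit 6) (nat_lit 63258) (nat_lit 8) (node (nat_lit 5) (nat_lit 63258) (nat_lit 9) nil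
  nil) nil)) (node (nat_lit 6) (nat_lit 56977) (nat_lit 7) nil nil)) (node (nat_lit 6) (nat_lit
  85818) (nat_lit 6) (node (nat_lit 4) (nat_lit 88672) (nat_lit 7) (node (nat_lit 7) (nat_lit
  90605) (nat_lit 8) (node (nat_lit 4) (nat_lit 91812) (nat_lit 9) (node (nat_lit 5) (nat_lit
  92445) (nat_lit 10) (node (nat_lit 6) (nat_lit 90997) (nat_lit 11) (node (nat_lit 7) (nat_lit
  91049) (nat_lit 12) (node (nat_lit 4) (nat_lit 90866) (nat_lit 13) nil nil) nil) nil) nil) (node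
  (nat_lit 5) (nat_lit 89893) (nat_lit 9) nil nil)) nil) (node (nat_lit 5) (nat_lit 88672)
  (nat_lit 7) (node (nat_lit 7) (nat_lit 90605) (nat_lit 8) (node (nat_lit 5) (nat_lit 91438)
  (nat_lit 9) (node (nat_lit 6) (nat_lit 89612) (nat_lit 10) (node (nat_lit 7) (nat_lit 88796)
  (nat_lit 11) (node (nat_lit 4) (nat_lit 88847) (nat_lit 12) nil nil) nil) (node (nat_lit 4)
  (nat_lit 92071) (nat_lit 10) nil nil)) (node (nat_lit 4) (nat_lit 87629) (nat_lit 9) (node
  (nat_lit 5) (nat_lit 75655) (nat_lit 10) (node (nat_lit 6) (nat_lit 63258) (nat_lit 11) (node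
  (nat_lit 7) (nat_lit 63258) (nat_lit 12) nil nil) nil) nil) nil)) (node (nat_lit 4) (nat_lit
  90605) (nat_lit 8) nil nil)) (node (nat_lit 7) (nat_lit 88834) (nat_lit 7) (node (nat_lit 6)
  (nat_lit 90767) (nat_lit 8) (node (nat_lit 4) (nat_lit 92182) (nat_lit 9) (node (nat_lit 7)
  (nat_lit 93334) (nat_lit 10) (node (nat_lit 4) (nat_lit 93892) (nat_lit 11) nil nil) nil) nil)
  (node (nat_lit 5) (nat_lit 90767) (nat_lit 8) (node (nat_lit 4) (nat_lit 92182) (nat_lit 9)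
  (node (nat_lit 5) (nat_lit 83089) (nat_lit 10) nil nil) nil) nil)) nil))) (node (nat_lit 7)
  (nat_lit 85997) (nat_lit 6) (node (nat_lit 5) (nat_lit 88849) (nat_lit 7) (node (nat_lit 4)
  (nat_lit 90782) (nat_lit 8) (node (nat_lit 5) (nat_lit 91880) (nat_lit 9) (node (nat_lit 6)
  (nat_lit 80799) (nat_lit 10) (node (nat_lit 7) (nat_lit 71020) (nat_lit 11) nil nil) nil) nil)
  (node (nat_lit 6) (nat_lit 90782) (nat_lit 8) (node (nat_lit 7) (nat_lit 92259) (nat_lit 9) nil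
  nil) (node (nat_lit 7) (nat_lit 90782) (nat_lit 8) nil nil))) (node (nat_lit 6) (nat_lit 88849)
  (nat_lit 7) (node (nat_lit 5) (nat_lit 89832) (nat_lit 8) nil (node (nat_lit 4) (nat_lit 90782)
  (nat_lit 8) nil (node (nat_lit 7) (nat_lit 90782) (nat_lit 8) nil nil))) nil)) (node (nat_lit 0)
  (nat_lit 85997) (nat_lit 6) (node (nat_lit 7) (nat_lit 88849) (nat_lit 7) nil (node (nat_lit 4)
  (nat_lit 88849) (nat_lit 7) nil (node (nat_lit 5) (nat_lit 88849) (nat_lit 7) nil nil))) nil))))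
  (node (nat_lit 0) (nat_lit 0) (nat_lit 5) (node (nat_lit 5) (nat_lit 105296) (nat_lit 6) (node
  (nat_lit 7) (nat_lit 106170) (nat_lit 7) nil nil) (node (nat_lit 7) (nat_lit 105296) (nat_lit 6)
  (node (nat_lit 4) (nat_lit 106146) (nat_lit 7) nil (node (nat_lit 5) (nat_lit 104368) (nat_lit
  7) nil nil)) (node (nat_lit 4) (nat_lit 105296) (nat_lit 6) (node (nat_lit 7) (nat_lit 105860)
  (nat_lit 7) (node (nat_lit 4) (nat_lit 108031) (nat_lit 8) nil nil) nil) (node (nat_lit 6)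
  (nat_lit 105296) (nat_lit 6) nil (node (nat_lit 0) (nat_lit 105296) (nat_lit 6) nil nil)))))
  nil)))) (node (nat_lit 4) (nat_lit 0) (nat_lit 4) (node (nat_lit 6) (nat_lit 0) (nat_lit 5)
  (node (nat_lit 5) (nat_lit 89895) (nat_lit 6) (node (nat_lit 4) (nat_lit 100258) (nat_lit 7)
  (node (nat_lit 5) (nat_lit 105168) (nat_lit 8) (node (nat_lit 6) (nat_lit 107321) (nat_lit 9)
  (node (nat_lit 4) (nat_lit 71721) (nat_lit 10) (node (nat_lit 5) (nat_lit 71721) (nat_lit 11)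
  (node (nat_lit 4) (nat_lit 71721) (nat_lit 12) (node (nat_lit 6) (nat_lit 71721) (nat_lit 13)
  nil nil) nil) (node (nat_lit 6) (nat_lit 59354) (nat_lit 11) nil (node (nat_lit 3) (nat_lit
  71721) (nat_lit 11) (node (nat_lit 4) (nat_lit 71721) (nat_lit 12) (node (nat_lit 5) (nat_lit
  71721) (nat_lit 13) nil nil) nil) nil))) (node (nat_lit 5) (nat_lit 107139) (nat_lit 10) (node
  (nat_lit 4) (nat_lit 108590) (nat_lit 11) nil nil) nil)) (node (nat_lit 3) (nat_lit 110326)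
  (nat_lit 9) (node (nat_lit 4) (nat_lit 105194) (nat_lit 10) (node (nat_lit 5) (nat_lit 104691)
  (nat_lit 11) (node (nat_lit 6) (nat_lit 97805) (nat_lit 12) (node (nat_lit 4) (nat_lit 93304)
  (nat_lit 13) (node (nat_lit 6) (nat_lit 81550) (nat_lit 14) (node (nat_lit 5) (nat_lit 66574)
  (nat_lit 15) nil nil) nil) nil) nil) nil) (node (nat_lit 5) (nat_lit 108238) (nat_lit 10) (node
  (nat_lit 4) (nat_lit 108450) (nat_lit 11) nil nil) nil)) nil)) (node (nat_lit 3) (nat_lit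
  116889) (nat_lit 8) nil (node (nat_lit 0) (nat_lit 120270) (nat_lit 8) nil nil))) (node (nat_lit
  6) (nat_lit 99312) (nat_lit 7) (node (nat_lit 4) (nat_lit 111081) (nat_lit 8) nil (node (nat_lit
  3) (nat_lit 121207) (nat_lit 8) nil (node (nat_lit 0) (nat_lit 122080) (nat_lit 8) nil nil)))
  (node (nat_lit 3) (nat_lit 115035) (nat_lit 7) (node (nat_lit 5) (nat_lit 111626) (nat_lit 8)
  nil (node (nat_lit 4) (nat_lit 111770) (nat_lit 8) (node (nat_lit 5) (nat_lit 104776) (nat_lit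
  9) (node (nat_lit 6) (nat_lit 84473) (nat_lit 10) (node (nat_lit 4) (nat_lit 58543) (nat_lit 11)
  nil nil) nil) nil) nil)) (node (nat_lit 0) (nat_lit 117065) (nat_lit 7) nil nil)))) (node
  (nat_lit 3) (nat_lit 109868) (nat_lit 6) (node (nat_lit 4) (nat_lit 108763) (nat_lit 7) (node
  (nat_lit 5) (nat_lit 107662) (nat_lit 8) (node (nat_lit 6) (nat_lit 86328) (nat_lit 9) (node
  (nat_lit 4) (nat_lit 56825) (nat_lit 10) nil nil) nil) nil) nil) (node (nat_lit 0) (nat_lit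
  110923) (nat_lit 6) (node (nat_lit 5) (nat_lit 114138) (nat_lit 7) nil nil) nil))) (node
  (nat_lit 3) (nat_lit 111898) (nat_lit 5) (node (nat_lit 5) (nat_lit 119390) (nat_lit 6) (node
  (nat_lit 4) (nat_lit 120162) (nat_lit 7) (node (nat_lit 8) (nat_lit 122118) (nat_lit 8) (node
  (nat_lit 4) (nat_lit 122118) (nat_lit 9) (node (nat_lit 5) (nat_lit 122118) (nat_lit 10) nil
  nil) nil) (node (nat_lit 5) (nat_lit 110132) (nat_lit 8) (node (nat_lit 6) (nat_lit 92976)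
  (nat_lit 9) (node (nat_lit 4) (nat_lit 62559) (nat_lit 10) nil nil) nil) nil)) (node (nat_lit 8)
  (nat_lit 119390) (nat_lit 7) (node (nat_lit 4) (nat_lit 121374) (nat_lit 8) (node (nat_lit 5)
  (nat_lit 119318) (nat_lit 9) (node (nat_lit 6) (nat_lit 106902) (nat_lit 10) (node (nat_lit 4)
  (nat_lit 91967) (nat_lit 11) (node (nat_lit 8) (nat_lit 58543) (nat_lit 12) nil nil) nil) nil)
  nil) nil) nil)) (node (nat_lit 6) (nat_lit 119390) (nat_lit 6) (node (nat_lit 8) (nat_lit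
  117605) (nat_lit 7) (node (nat_lit 4) (nat_lit 114975) (nat_lit 8) (node (nat_lit 5) (nat_lit
  105288) (nat_lit 9) (node (nat_lit 6) (nat_lit 77172) (nat_lit 10) (node (nat_lit 4) (nat_lit
  64766) (nat_lit 11) nil nil) nil) nil) nil) (node (nat_lit 5) (nat_lit 115945) (nat_lit 7) (node
  (nat_lit 4) (nat_lit 113315) (nat_lit 8) (node (nat_lit 5) (nat_lit 105623) (nat_lit 9) (node
  (nat_lit 6) (nat_lit 91590) (nat_lit 10) (node (nat_lit 4) (nat_lit 74556) (nat_lit 11) (node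
  (nat_lit 8) (nat_lit 58856) (nat_lit 12) nil nil) nil) nil) nil) nil) nil)) (node (nat_lit 4)
  (nat_lit 120088) (nat_lit 6) (node (nat_lit 5) (nat_lit 122118) (nat_lit 7) (node (nat_lit 6)
  (nat_lit 118265) (nat_lit 8) (node (nat_lit 4) (nat_lit 57623) (nat_lit 9) nil nil) nil) nil)
  nil))) (node (nat_lit 5) (nat_lit 0) (nat_lit 5) (node (nat_lit 4) (nat_lit 89882) (nat_lit 6)
  (node (nat_lit 6) (nat_lit 103838) (nat_lit 7) (node (nat_lit 5) (nat_lit 117184) (nat_lit 8)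
  (node (nat_lit 4) (nat_lit 120260) (nat_lit 9) (node (nat_lit 5) (nat_lit 119397) (nat_lit 10)
  (node (nat_lit 6) (nat_lit 118510) (nat_lit 11) (node (nat_lit 4) (nat_lit 111699) (nat_lit 12)
  (node (nat_lit 5) (nat_lit 88771) (nat_lit 13) (node (nat_lit 4) (nat_lit 59109) (nat_lit 14)
  (node (nat_lit 6) (nat_lit 58616) (nat_lit 15) nil nil) nil) nil) nil) nil) nil) nil) (node
  (nat_lit 4) (nat_lit 117019) (nat_lit 8) nil nil)) (node (nat_lit 3) (nat_lit 122118) (nat_lit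
  7) nil (node (nat_lit 0) (nat_lit 122118) (nat_lit 7) nil nil))) (node (nat_lit 3) (nat_lit
  115067) (nat_lit 6) (node (nat_lit 4) (nat_lit 118184) (nat_lit 7) (node (nat_lit 5) (nat_lit
  103861) (nat_lit 8) (node (nat_lit 6) (nat_lit 90947) (nat_lit 9) nil nil) nil) nil) (node
  (nat_lit 0) (nat_lit 118844) (nat_lit 6) nil nil))) (node (nat_lit 0) (nat_lit 111929) (nat_lit
  5) (node (nat_lit 5) (nat_lit 119154) (nat_lit 6) nil nil) nil)))) (node (nat_lit 5) (nat_lit 0)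
  (nat_lit 4) (node (nat_lit 3) (nat_lit 0) (nat_lit 5) (node (nat_lit 5) (nat_lit 79230) (nat_lit
  6) (node (nat_lit 6) (nat_lit 79244) (nat_lit 7) (node (nat_lit 8) (nat_lit 79152) (nat_lit 8)
  (node (nat_lit 5) (nat_lit 91798) (nat_lit 9) nil (node (nat_lit 4) (nat_lit 94331) (nat_lit 9)
  nil (node (nat_lit 6) (nat_lit 89990) (nat_lit 9) nil nil))) (node (nat_lit 5) (nat_lit 79244)
  (nat_lit 8) (node (nat_lit 4) (nat_lit 98568) (nat_lit 9) (node (nat_lit 5) (nat_lit 90821)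
  (nat_lit 10) nil nil) (node (nat_lit 0) (nat_lit 99907) (nat_lit 9) (node (nat_lit 6) (nat_lit
  99907) (nat_lit 10) (node (nat_lit 5) (nat_lit 99907) (nat_lit 11) nil nil) (node (nat_lit 5)
  (nat_lit 99907) (nat_lit 10) nil nil)) nil)) (node (nat_lit 4) (nat_lit 103665) (nat_lit 8) nil
  nil))) (node (nat_lit 4) (nat_lit 110295) (nat_lit 7) (node (nat_lit 5) (nat_lit 100856)
  (nat_lit 8) (node (nat_lit 6) (nat_lit 84782) (nat_lit 9) (node (nat_lit 5) (nat_lit 51577)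
  (nat_lit 10) nil nil) nil) (node (nat_lit 6) (nat_lit 109072) (nat_lit 8) nil nil)) (node
  (nat_lit 0) (nat_lit 107927) (nat_lit 7) nil nil))) (node (nat_lit 6) (nat_lit 79246) (nat_lit
  6) (node (nat_lit 8) (nat_lit 79316) (nat_lit 7) (node (nat_lit 5) (nat_lit 79391) (nat_lit 8)
  (node (nat_lit 6) (nat_lit 93827) (nat_lit 9) (node (nat_lit 5) (nat_lit 98066) (nat_lit 10) nil
  nil) (node (nat_lit 8) (nat_lit 93003) (nat_lit 9) nil (node (nat_lit 4) (nat_lit 99517)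
  (nat_lit 9) nil nil))) (node (nat_lit 4) (nat_lit 107339) (nat_lit 8) (node (nat_lit 5) (nat_lit
  104611) (nat_lit 9) nil nil) (node (nat_lit 0) (nat_lit 105439) (nat_lit 8) nil nil))) (node
  (nat_lit 5) (nat_lit 79304) (nat_lit 7) (node (nat_lit 4) (nat_lit 104787) (nat_lit 8) nil (node
  (nat_lit 6) (nat_lit 79309) (nat_lit 8) nil (node (nat_lit 0) (nat_lit 103725) (nat_lit 8) nil
  nil))) (node (nat_lit 4) (nat_lit 115626) (nat_lit 7) nil (node (nat_lit 0) (nat_lit 111146)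
  (nat_lit 7) nil nil)))) (node (nat_lit 4) (nat_lit 103863) (nat_lit 6) (node (nat_lit 5)
  (nat_lit 83243) (nat_lit 7) (node (nat_lit 4) (nat_lit 86751) (nat_lit 8) nil (node (nat_lit 6)
  (nat_lit 63258) (nat_lit 8) nil nil)) (node (nat_lit 8) (nat_lit 107144) (nat_lit 7) nil nil))
  (node (nat_lit 0) (nat_lit 106502) (nat_lit 6) nil nil)))) (node (nat_lit 4) (nat_lit 0)
  (nat_lit 5) (node (nat_lit 5) (nat_lit 63582) (nat_lit 6) (node (nat_lit 6) (nat_lit 46589)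
  (nat_lit 7) (node (nat_lit 4) (nat_lit 56979) (nat_lit 8) (node (nat_lit 5) (nat_lit 57608)
  (nat_lit 9) nil nil) (node (nat_lit 3) (nat_lit 56744) (nat_lit 8) nil nil)) (node (nat_lit 3)
  (nat_lit 68737) (nat_lit 7) (node (nat_lit 4) (nat_lit 66186) (nat_lit 8) (node (nat_lit 5)
  (nat_lit 64255) (nat_lit 9) nil nil) (node (nat_lit 5) (nat_lit 69941) (nat_lit 8) nil nil))
  (node (nat_lit 0) (nat_lit 68667) (nat_lit 7) nil nil))) (node (nat_lit 3) (nat_lit 108681)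
  (nat_lit 6) (node (nat_lit 5) (nat_lit 106394) (nat_lit 7) (node (nat_lit 4) (nat_lit 110788)
  (nat_lit 8) (node (nat_lit 5) (nat_lit 106168) (nat_lit 9) nil nil) nil) (node (nat_lit 4)
  (nat_lit 112245) (nat_lit 7) (node (nat_lit 5) (nat_lit 112245) (nat_lit 8) nil nil) nil)) (node
  (nat_lit 6) (nat_lit 89971) (nat_lit 6) (node (nat_lit 4) (nat_lit 99309) (nat_lit 7) nil (node
  (nat_lit 5) (nat_lit 99300) (nat_lit 7) nil (node (nat_lit 3) (nat_lit 110744) (nat_lit 7) nil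
  nil))) (node (nat_lit 0) (nat_lit 110663) (nat_lit 6) nil nil)))) (node (nat_lit 0) (nat_lit
  100061) (nat_lit 5) (node (nat_lit 5) (nat_lit 110780) (nat_lit 6) (node (nat_lit 4) (nat_lit
  115888) (nat_lit 7) nil nil) (node (nat_lit 3) (nat_lit 112895) (nat_lit 6) nil (node (nat_lit
  4) (nat_lit 113093) (nat_lit 6) nil (node (nat_lit 6) (nat_lit 112738) (nat_lit 6) nil nil))))
  nil))) (node (nat_lit 0) (nat_lit 0) (nat_lit 4) (node (nat_lit 6) (nat_lit 113963) (nat_lit 5)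
  (node (nat_lit 5) (nat_lit 115311) (nat_lit 6) (node (nat_lit 7) (nat_lit 117923) (nat_lit 7)
  (node (nat_lit 5) (nat_lit 116910) (nat_lit 8) nil nil) (node (nat_lit 4) (nat_lit 117923)
  (nat_lit 7) (node (nat_lit 5) (nat_lit 107725) (nat_lit 8) (node (nat_lit 6) (nat_lit 84330)
  (nat_lit 9) nil nil) nil) nil)) (node (nat_lit 4) (nat_lit 117287) (nat_lit 6) nil (node
  (nat_lit 3) (nat_lit 113284) (nat_lit 6) nil nil))) (node (nat_lit 5) (nat_lit 113863) (nat_lit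
  5) (node (nat_lit 4) (nat_lit 117287) (nat_lit 6) (node (nat_lit 5) (nat_lit 114749) (nat_lit 7)
  (node (nat_lit 6) (nat_lit 111402) (nat_lit 8) (node (nat_lit 7) (nat_lit 49617) (nat_lit 9) nil
  nil) nil) nil) (node (nat_lit 7) (nat_lit 117287) (nat_lit 6) nil (node (nat_lit 6) (nat_lit
  115311) (nat_lit 6) (node (nat_lit 5) (nat_lit 111988) (nat_lit 7) nil nil) nil))) (node
  (nat_lit 4) (nat_lit 113854) (nat_lit 5) nil (node (nat_lit 3) (nat_lit 114265) (nat_lit 5)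
  (node (nat_lit 4) (nat_lit 117287) (nat_lit 6) (node (nat_lit 5) (nat_lit 117287) (nat_lit 7)
  nil nil) (node (nat_lit 5) (nat_lit 114120) (nat_lit 6) (node (nat_lit 8) (nat_lit 106828)
  (nat_lit 7) nil (node (nat_lit 4) (nat_lit 116768) (nat_lit 7) nil nil)) nil)) (node (nat_lit 0)
  (nat_lit 113854) (nat_lit 5) (node (nat_lit 5) (nat_lit 112807) (nat_lit 6) nil nil) nil)))))
  nil))))

noncomputable def t119 : Tr :=
  (node (nat_lit 4) (nat_lit 0) (nat_lit 3) (node (nat_lit 0) (nat_lit 0) (nat_lit 4) (node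
  (nat_lit 4) (nat_lit 60806) (nat_lit 5) (node (nat_lit 3) (nat_lit 64874) (nat_lit 6) (node
  (nat_lit 4) (nat_lit 65609) (nat_lit 7) (node (nat_lit 5) (nat_lit 65609) (nat_lit 8) (node
  (nat_lit 4) (nat_lit 65888) (nat_lit 9) nil nil) nil) nil) (node (nat_lit 5) (nat_lit 64874)
  (nat_lit 6) nil nil)) (node (nat_lit 5) (nat_lit 60754) (nat_lit 5) (node (nat_lit 7) (nat_lit
  65390) (nat_lit 6) nil (node (nat_lit 4) (nat_lit 63536) (nat_lit 6) nil (node (nat_lit 3)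
  (nat_lit 60754) (nat_lit 6) (node (nat_lit 4) (nat_lit 56425) (nat_lit 7) (node (nat_lit 5)
  (nat_lit 43939) (nat_lit 8) (node (nat_lit 4) (nat_lit 26270) (nat_lit 9) nil nil) nil) nil)
  nil))) (node (nat_lit 3) (nat_lit 60858) (nat_lit 5) (node (nat_lit 4) (nat_lit 62726) (nat_lit
  6) (node (nat_lit 5) (nat_lit 63640) (nat_lit 7) nil nil) (node (nat_lit 7) (nat_lit 63640)
  (nat_lit 6) nil nil)) (node (nat_lit 0) (nat_lit 60932) (nat_lit 5) (node (nat_lit 4) (nat_lit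
  63516) (nat_lit 6) nil nil) (node (nat_lit 2) (nat_lit 60612) (nat_lit 5) (node (nat_lit 4)
  (nat_lit 63539) (nat_lit 6) nil nil) nil))))) (node (nat_lit 3) (nat_lit 0) (nat_lit 4) (node
  (nat_lit 5) (nat_lit 0) (nat_lit 5) (node (nat_lit 7) (nat_lit 0) (nat_lit 6) (node (nat_lit 4)
  (nat_lit 53127) (nat_lit 7) (node (nat_lit 5) (nat_lit 49098) (nat_lit 8) (node (nat_lit 4)
  (nat_lit 46110) (nat_lit 9) (node (nat_lit 7) (nat_lit 18099) (nat_lit 10) (node (nat_lit 4)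
  (nat_lit 19258) (nat_lit 11) (node (nat_lit 5) (nat_lit 20779) (nat_lit 12) nil (node (nat_lit
  0) (nat_lit 20779) (nat_lit 12) nil (node (nat_lit 2) (nat_lit 20163) (nat_lit 12) nil nil)))
  (node (nat_lit 0) (nat_lit 19773) (nat_lit 11) nil (node (nat_lit 2) (nat_lit 19258) (nat_lit
  11) (node (nat_lit 7) (nat_lit 20163) (nat_lit 12) nil nil) nil))) (node (nat_lit 2) (nat_lit
  48985) (nat_lit 10) nil (node (nat_lit 0) (nat_lit 49063) (nat_lit 10) nil nil))) (node (nat_lit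
  7) (nat_lit 52572) (nat_lit 9) (node (nat_lit 5) (nat_lit 55354) (nat_lit 10) nil nil) (node
  (nat_lit 2) (nat_lit 52750) (nat_lit 9) nil (node (nat_lit 0) (nat_lit 52893) (nat_lit 9) nil
  nil)))) (node (nat_lit 0) (nat_lit 63315) (nat_lit 8) (node (nat_lit 5) (nat_lit 65073) (nat_lit
  9) (node (nat_lit 7) (nat_lit 66222) (nat_lit 10) nil nil) (node (nat_lit 4) (nat_lit 64639)
  (nat_lit 9) (node (nat_lit 7) (nat_lit 65220) (nat_lit 10) nil nil) (node (nat_lit 7) (nat_lit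
  65036) (nat_lit 9) nil nil))) (node (nat_lit 2) (nat_lit 63315) (nat_lit 8) (node (nat_lit 5)
  (nat_lit 65073) (nat_lit 9) (node (nat_lit 7) (nat_lit 66222) (nat_lit 10) nil nil) (node
  (nat_lit 4) (nat_lit 64639) (nat_lit 9) (node (nat_lit 7) (nat_lit 65220) (nat_lit 10) nil nil)
  (node (nat_lit 7) (nat_lit 65036) (nat_lit 9) nil nil))) (node (nat_lit 7) (nat_lit 58212)
  (nat_lit 8) (node (nat_lit 5) (nat_lit 62025) (nat_lit 9) (node (nat_lit 4) (nat_lit 64464)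
  (nat_lit 10) nil nil) (node (nat_lit 2) (nat_lit 62448) (nat_lit 9) nil (node (nat_lit 0)
  (nat_lit 62448) (nat_lit 9) nil nil))) nil)))) (node (nat_lit 0) (nat_lit 65517) (nat_lit 7)
  (node (nat_lit 4) (nat_lit 67929) (nat_lit 8) (node (nat_lit 7) (nat_lit 68347) (nat_lit 9)
  (node (nat_lit 4) (nat_lit 68438) (nat_lit 10) nil nil) nil) (node (nat_lit 7) (nat_lit 67929)
  (nat_lit 8) (node (nat_lit 4) (nat_lit 68438) (nat_lit 9) nil nil) (node (nat_lit 2) (nat_lit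
  67929) (nat_lit 8) nil (node (nat_lit 0) (nat_lit 67929) (nat_lit 8) nil nil)))) (node (nat_lit
  2) (nat_lit 59444) (nat_lit 7) (node (nat_lit 5) (nat_lit 59444) (nat_lit 8) (node (nat_lit 10)
  (nat_lit 59444) (nat_lit 9) (node (nat_lit 7) (nat_lit 59453) (nat_lit 10) nil nil) (node
  (nat_lit 7) (nat_lit 59444) (nat_lit 9) (node (nat_lit 5) (nat_lit 59404) (nat_lit 10) nil nil)
  (node (nat_lit 4) (nat_lit 68438) (nat_lit 9) nil nil))) (node (nat_lit 4) (nat_lit 67929)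
  (nat_lit 8) (node (nat_lit 7) (nat_lit 68347) (nat_lit 9) (node (nat_lit 4) (nat_lit 68438)
  (nat_lit 10) (node (nat_lit 5) (nat_lit 68438) (nat_lit 11) nil nil) nil) nil) (node (nat_lit 7)
  (nat_lit 59444) (nat_lit 8) (node (nat_lit 5) (nat_lit 59444) (nat_lit 9) nil (node (nat_lit 4)
  (nat_lit 67596) (nat_lit 9) nil nil)) (node (nat_lit 0) (nat_lit 67929) (nat_lit 8) nil nil))))
  nil))) (node (nat_lit 0) (nat_lit 0) (nat_lit 6) (node (nat_lit 7) (nat_lit 65517) (nat_lit 7)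
  (node (nat_lit 4) (nat_lit 67929) (nat_lit 8) (node (nat_lit 5) (nat_lit 68081) (nat_lit 9)
  (node (nat_lit 4) (nat_lit 68362) (nat_lit 10) nil nil) nil) nil) (node (nat_lit 4) (nat_lit
  65517) (nat_lit 7) (node (nat_lit 5) (nat_lit 67929) (nat_lit 8) (node (nat_lit 7) (nat_lit
  66356) (nat_lit 9) (node (nat_lit 4) (nat_lit 64565) (nat_lit 10) nil nil) (node (nat_lit 9)
  (nat_lit 68438) (nat_lit 9) (node (nat_lit 7) (nat_lit 68438) (nat_lit 10) (node (nat_lit 4)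
  (nat_lit 68438) (nat_lit 11) nil nil) nil) nil)) (node (nat_lit 9) (nat_lit 67929) (nat_lit 8)
  (node (nat_lit 7) (nat_lit 68347) (nat_lit 9) nil nil) (node (nat_lit 7) (nat_lit 67929)
  (nat_lit 8) (node (nat_lit 4) (nat_lit 68438) (nat_lit 9) nil nil) nil))) (node (nat_lit 5)
  (nat_lit 65517) (nat_lit 7) (node (nat_lit 7) (nat_lit 67244) (nat_lit 8) (node (nat_lit 4)
  (nat_lit 68280) (nat_lit 9) (node (nat_lit 5) (nat_lit 64729) (nat_lit 10) nil nil) nil) (node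
  (nat_lit 4) (nat_lit 67929) (nat_lit 8) nil nil)) (node (nat_lit 0) (nat_lit 65517) (nat_lit 7)
  (node (nat_lit 7) (nat_lit 67929) (nat_lit 8) nil nil) (node (nat_lit 2) (nat_lit 65517)
  (nat_lit 7) (node (nat_lit 7) (nat_lit 67244) (nat_lit 8) nil nil) nil))))) (node (nat_lit 2)
  (nat_lit 0) (nat_lit 6) (node (nat_lit 7) (nat_lit 60266) (nat_lit 7) (node (nat_lit 4) (nat_lit
  63749) (nat_lit 8) (node (nat_lit 5) (nat_lit 56043) (nat_lit 9) (node (nat_lit 4) (nat_lit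
  37637) (nat_lit 10) nil nil) (node (nat_lit 9) (nat_lit 64672) (nat_lit 9) nil nil)) (node
  (nat_lit 9) (nat_lit 60266) (nat_lit 8) (node (nat_lit 5) (nat_lit 60266) (nat_lit 9) (node
  (nat_lit 7) (nat_lit 60266) (nat_lit 10) (node (nat_lit 5) (nat_lit 62455) (nat_lit 11) nil nil)
  nil) nil) (node (nat_lit 5) (nat_lit 60266) (nat_lit 8) (node (nat_lit 7) (nat_lit 60266)
  (nat_lit 9) (node (nat_lit 9) (nat_lit 60266) (nat_lit 10) nil nil) (node (nat_lit 4) (nat_lit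
  67947) (nat_lit 9) nil nil)) (node (nat_lit 0) (nat_lit 67342) (nat_lit 8) nil nil)))) (node
  (nat_lit 4) (nat_lit 65517) (nat_lit 7) (node (nat_lit 5) (nat_lit 67929) (nat_lit 8) (node
  (nat_lit 7) (nat_lit 66705) (nat_lit 9) (node (nat_lit 4) (nat_lit 64415) (nat_lit 10) nil nil)
  (node (nat_lit 9) (nat_lit 66007) (nat_lit 9) nil nil)) (node (nat_lit 9) (nat_lit 66083)
  (nat_lit 8) (node (nat_lit 7) (nat_lit 67180) (nat_lit 9) (node (nat_lit 4) (nat_lit 66148)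
  (nat_lit 10) (node (nat_lit 5) (nat_lit 63259) (nat_lit 11) nil nil) nil) nil) (node (nat_lit 7)
  (nat_lit 67929) (nat_lit 8) (node (nat_lit 4) (nat_lit 68438) (nat_lit 9) nil nil) nil))) (node
  (nat_lit 5) (nat_lit 60266) (nat_lit 7) (node (nat_lit 7) (nat_lit 60266) (nat_lit 8) (node
  (nat_lit 9) (nat_lit 60266) (nat_lit 9) (node (nat_lit 7) (nat_lit 60266) (nat_lit 10) (node
  (nat_lit 5) (nat_lit 60460) (nat_lit 11) nil nil) (node (nat_lit 4) (nat_lit 66122) (nat_lit 10)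
  nil nil)) (node (nat_lit 5) (nat_lit 60266) (nat_lit 9) (node (nat_lit 4) (nat_lit 66122)
  (nat_lit 10) nil nil) (node (nat_lit 4) (nat_lit 65105) (nat_lit 9) (node (nat_lit 5) (nat_lit
  62818) (nat_lit 10) nil nil) nil))) (node (nat_lit 4) (nat_lit 67929) (nat_lit 8) nil (node
  (nat_lit 0) (nat_lit 67929) (nat_lit 8) nil nil))) (node (nat_lit 0) (nat_lit 65517) (nat_lit 7)
  (node (nat_lit 7) (nat_lit 67929) (nat_lit 8) nil nil) nil)))) (node (nat_lit 4) (nat_lit 0)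
  (nat_lit 6) (node (nat_lit 0) (nat_lit 59189) (nat_lit 7) nil (node (nat_lit 5) (nat_lit 57462)
  (nat_lit 7) (node (nat_lit 7) (nat_lit 58722) (nat_lit 8) (node (nat_lit 4) (nat_lit 61664)
  (nat_lit 9) nil nil) nil) (node (nat_lit 2) (nat_lit 59566) (nat_lit 7) nil nil))) nil)))) (node
  (nat_lit 0) (nat_lit 0) (nat_lit 5) (node (nat_lit 4) (nat_lit 65335) (nat_lit 6) (node (nat_lit
  7) (nat_lit 67006) (nat_lit 7) (node (nat_lit 4) (nat_lit 67536) (nat_lit 8) (node (nat_lit 5)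
  (nat_lit 67536) (nat_lit 9) (node (nat_lit 4) (nat_lit 67725) (nat_lit 10) nil nil) nil) nil)
  nil) (node (nat_lit 5) (nat_lit 65150) (nat_lit 6) (node (nat_lit 7) (nat_lit 64732) (nat_lit 7)
  (node (nat_lit 4) (nat_lit 61127) (nat_lit 8) (node (nat_lit 5) (nat_lit 56280) (nat_lit 9)
  (node (nat_lit 4) (nat_lit 45282) (nat_lit 10) (node (nat_lit 7) (nat_lit 29497) (nat_lit 11)
  nil nil) nil) nil) nil) nil) (node (nat_lit 7) (nat_lit 65150) (nat_lit 6) (node (nat_lit 4)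
  (nat_lit 65885) (nat_lit 7) (node (nat_lit 5) (nat_lit 65885) (nat_lit 8) (node (nat_lit 4)
  (nat_lit 66165) (nat_lit 9) nil nil) nil) nil) (node (nat_lit 0) (nat_lit 65335) (nat_lit 6)
  (node (nat_lit 7) (nat_lit 67006) (nat_lit 7) (node (nat_lit 4) (nat_lit 67536) (nat_lit 8) nil
  nil) nil) (node (nat_lit 2) (nat_lit 65150) (nat_lit 6) (node (nat_lit 7) (nat_lit 65150)
  (nat_lit 7) (node (nat_lit 4) (nat_lit 62580) (nat_lit 8) nil nil) nil) nil))))) (node (nat_lit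
  2) (nat_lit 0) (nat_lit 5) (node (nat_lit 4) (nat_lit 65335) (nat_lit 6) (node (nat_lit 7)
  (nat_lit 67006) (nat_lit 7) (node (nat_lit 4) (nat_lit 68104) (nat_lit 8) (node (nat_lit 5)
  (nat_lit 68178) (nat_lit 9) (node (nat_lit 4) (nat_lit 68438) (nat_lit 10) (node (nat_lit 7)
  (nat_lit 68438) (nat_lit 11) nil nil) nil) nil) nil) (node (nat_lit 5) (nat_lit 67006) (nat_lit
  7) (node (nat_lit 7) (nat_lit 62047) (nat_lit 8) nil nil) (node (nat_lit 8) (nat_lit 67006)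
  (nat_lit 7) (node (nat_lit 7) (nat_lit 66961) (nat_lit 8) (node (nat_lit 4) (nat_lit 64950)
  (nat_lit 9) nil nil) nil) nil))) (node (nat_lit 5) (nat_lit 57382) (nat_lit 6) (node (nat_lit 7)
  (nat_lit 59888) (nat_lit 7) (node (nat_lit 5) (nat_lit 60278) (nat_lit 8) (node (nat_lit 8)
  (nat_lit 60278) (nat_lit 9) (node (nat_lit 4) (nat_lit 62864) (nat_lit 10) (node (nat_lit 7)
  (nat_lit 62864) (nat_lit 11) nil nil) (node (nat_lit 7) (nat_lit 60278) (nat_lit 10) nil nil))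
  (node (nat_lit 4) (nat_lit 62721) (nat_lit 9) nil nil)) (node (nat_lit 4) (nat_lit 56307)
  (nat_lit 8) (node (nat_lit 5) (nat_lit 49444) (nat_lit 9) (node (nat_lit 4) (nat_lit 35982)
  (nat_lit 10) (node (nat_lit 7) (nat_lit 31166) (nat_lit 11) nil nil) nil) nil) nil)) (node
  (nat_lit 8) (nat_lit 59282) (nat_lit 7) nil (node (nat_lit 4) (nat_lit 66416) (nat_lit 7) nil
  nil))) (node (nat_lit 7) (nat_lit 0) (nat_lit 6) (node (nat_lit 4) (nat_lit 64327) (nat_lit 7)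
  (node (nat_lit 8) (nat_lit 64832) (nat_lit 8) (node (nat_lit 4) (nat_lit 65930) (nat_lit 9)
  (node (nat_lit 7) (nat_lit 65930) (nat_lit 10) nil nil) nil) (node (nat_lit 5) (nat_lit 43429)
  (nat_lit 8) (node (nat_lit 4) (nat_lit 26253) (nat_lit 9) nil nil) nil)) (node (nat_lit 5)
  (nat_lit 58731) (nat_lit 7) nil (node (nat_lit 0) (nat_lit 64825) (nat_lit 7) nil nil))) (node
  (nat_lit 0) (nat_lit 65335) (nat_lit 6) (node (nat_lit 7) (nat_lit 67006) (nat_lit 7) (node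
  (nat_lit 4) (nat_lit 67581) (nat_lit 8) nil nil) nil) nil)))) (node (nat_lit 4) (nat_lit 0)
  (nat_lit 5) (node (nat_lit 5) (nat_lit 0) (nat_lit 6) (node (nat_lit 7) (nat_lit 56720) (nat_lit
  7) nil (node (nat_lit 0) (nat_lit 65517) (nat_lit 7) nil (node (nat_lit 2) (nat_lit 64133)
  (nat_lit 7) nil nil))) (node (nat_lit 0) (nat_lit 61728) (nat_lit 6) (node (nat_lit 4) (nat_lit
  65517) (nat_lit 7) nil (node (nat_lit 7) (nat_lit 65517) (nat_lit 7) (node (nat_lit 4) (nat_lit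
  67929) (nat_lit 8) nil nil) nil)) (node (nat_lit 2) (nat_lit 61728) (nat_lit 6) (node (nat_lit
  4) (nat_lit 65517) (nat_lit 7) (node (nat_lit 7) (nat_lit 67792) (nat_lit 8) nil nil) (node
  (nat_lit 5) (nat_lit 64655) (nat_lit 7) (node (nat_lit 7) (nat_lit 64655) (nat_lit 8) nil nil)
  (node (nat_lit 7) (nat_lit 65098) (nat_lit 7) (node (nat_lit 4) (nat_lit 67862) (nat_lit 8)
  (node (nat_lit 7) (nat_lit 67862) (nat_lit 9) nil nil) nil) nil))) nil))) nil)))) (node (nat_lit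
  2) (nat_lit 0) (nat_lit 4) (node (nat_lit 4) (nat_lit 0) (nat_lit 5) (node (nat_lit 3) (nat_lit
  65376) (nat_lit 6) (node (nat_lit 5) (nat_lit 65376) (nat_lit 7) (node (nat_lit 4) (nat_lit
  66055) (nat_lit 8) (node (nat_lit 5) (nat_lit 65560) (nat_lit 9) (node (nat_lit 9) (nat_lit
  65603) (nat_lit 10) (node (nat_lit 4) (nat_lit 64632) (nat_lit 11) nil nil) nil) (node (nat_lit
  9) (nat_lit 66055) (nat_lit 9) (node (nat_lit 4) (nat_lit 66193) (nat_lit 10) (node (nat_lit 5)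
  (nat_lit 66193) (nat_lit 11) (node (nat_lit 4) (nat_lit 66293) (nat_lit 12) (node (nat_lit 7)
  (nat_lit 66293) (nat_lit 13) (node (nat_lit 4) (nat_lit 66363) (nat_lit 14) (node (nat_lit 9)
  (nat_lit 66363) (nat_lit 15) nil nil) nil) nil) nil) nil) nil) nil)) nil) (node (nat_lit 4)
  (nat_lit 65925) (nat_lit 7) (node (nat_lit 5) (nat_lit 65925) (nat_lit 8) (node (nat_lit 4)
  (nat_lit 66133) (nat_lit 9) nil nil) nil) nil)) (node (nat_lit 5) (nat_lit 45583) (nat_lit 6)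
  (node (nat_lit 7) (nat_lit 47241) (nat_lit 7) (node (nat_lit 4) (nat_lit 58434) (nat_lit 8)
  (node (nat_lit 7) (nat_lit 62298) (nat_lit 9) nil (node (nat_lit 3) (nat_lit 66055) (nat_lit 9)
  nil nil)) (node (nat_lit 5) (nat_lit 58141) (nat_lit 8) (node (nat_lit 4) (nat_lit 62528)
  (nat_lit 9) nil nil) (node (nat_lit 3) (nat_lit 63209) (nat_lit 8) nil nil))) (node (nat_lit 3)
  (nat_lit 63231) (nat_lit 7) (node (nat_lit 4) (nat_lit 61082) (nat_lit 8) (node (nat_lit 5)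
  (nat_lit 54368) (nat_lit 9) nil nil) nil) (node (nat_lit 0) (nat_lit 64127) (nat_lit 7) nil
  (node (nat_lit 4) (nat_lit 47253) (nat_lit 7) (node (nat_lit 3) (nat_lit 65925) (nat_lit 8) nil
  nil) nil)))) (node (nat_lit 0) (nat_lit 63361) (nat_lit 6) nil nil))) (node (nat_lit 5) (nat_lit
  0) (nat_lit 5) (node (nat_lit 7) (nat_lit 45627) (nat_lit 6) (node (nat_lit 4) (nat_lit 47272)
  (nat_lit 7) (node (nat_lit 7) (nat_lit 59732) (nat_lit 8) (node (nat_lit 5) (nat_lit 66023)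
  (nat_lit 9) nil nil) (node (nat_lit 5) (nat_lit 60047) (nat_lit 8) nil (node (nat_lit 3)
  (nat_lit 68270) (nat_lit 8) nil nil))) (node (nat_lit 3) (nat_lit 60278) (nat_lit 7) nil (node
  (nat_lit 0) (nat_lit 68270) (nat_lit 7) nil nil))) (node (nat_lit 4) (nat_lit 45644) (nat_lit 6)
  (node (nat_lit 5) (nat_lit 47323) (nat_lit 7) (node (nat_lit 7) (nat_lit 57609) (nat_lit 8)
  (node (nat_lit 4) (nat_lit 58369) (nat_lit 9) nil nil) (node (nat_lit 3) (nat_lit 63614)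
  (nat_lit 8) nil nil)) (node (nat_lit 3) (nat_lit 64112) (nat_lit 7) nil (node (nat_lit 0)
  (nat_lit 64189) (nat_lit 7) nil nil))) (node (nat_lit 3) (nat_lit 58611) (nat_lit 6) (node
  (nat_lit 4) (nat_lit 62220) (nat_lit 7) (node (nat_lit 5) (nat_lit 48858) (nat_lit 8) (node
  (nat_lit 4) (nat_lit 31428) (nat_lit 9) nil nil) nil) (node (nat_lit 5) (nat_lit 60278) (nat_lit
  7) nil (node (nat_lit 7) (nat_lit 60278) (nat_lit 7) (node (nat_lit 4) (nat_lit 66949) (nat_lit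
  8) nil nil) nil))) (node (nat_lit 0) (nat_lit 67364) (nat_lit 6) nil nil)))) (node (nat_lit 3)
  (nat_lit 55381) (nat_lit 5) (node (nat_lit 4) (nat_lit 46735) (nat_lit 6) (node (nat_lit 8)
  (nat_lit 51771) (nat_lit 7) nil (node (nat_lit 5) (nat_lit 39318) (nat_lit 7) nil nil)) (node
  (nat_lit 7) (nat_lit 57598) (nat_lit 6) (node (nat_lit 4) (nat_lit 63697) (nat_lit 7) nil nil)
  nil)) (node (nat_lit 0) (nat_lit 59310) (nat_lit 5) (node (nat_lit 4) (nat_lit 65278) (nat_lit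
  6) nil (node (nat_lit 5) (nat_lit 64839) (nat_lit 6) nil nil)) nil)))) nil))) (node (nat_lit 0)
  (nat_lit 0) (nat_lit 3) (node (nat_lit 3) (nat_lit 0) (nat_lit 4) (node (nat_lit 6) (nat_lit
  119654) (nat_lit 5) (node (nat_lit 5) (nat_lit 119654) (nat_lit 6) (node (nat_lit 7) (nat_lit
  118955) (nat_lit 7) (node (nat_lit 5) (nat_lit 119654) (nat_lit 8) (node (nat_lit 4) (nat_lit
  120566) (nat_lit 9) nil nil) (node (nat_lit 4) (nat_lit 116521) (nat_lit 8) (node (nat_lit 5)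
  (nat_lit 110619) (nat_lit 9) (node (nat_lit 6) (nat_lit 98522) (nat_lit 10) (node (nat_lit 7)
  (nat_lit 82787) (nat_lit 11) (node (nat_lit 6) (nat_lit 61971) (nat_lit 12) nil nil) nil) nil)
  nil) nil)) (node (nat_lit 4) (nat_lit 120383) (nat_lit 7) (node (nat_lit 5) (nat_lit 120383)
  (nat_lit 8) (node (nat_lit 6) (nat_lit 120566) (nat_lit 9) (node (nat_lit 7) (nat_lit 120566)
  (nat_lit 10) nil nil) nil) nil) nil)) (node (nat_lit 4) (nat_lit 120228) (nat_lit 6) (node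
  (nat_lit 7) (nat_lit 120228) (nat_lit 7) (node (nat_lit 4) (nat_lit 120497) (nat_lit 8) (node
  (nat_lit 5) (nat_lit 120497) (nat_lit 9) (node (nat_lit 6) (nat_lit 120618) (nat_lit 10) nil
  nil) nil) nil) nil) nil)) (node (nat_lit 5) (nat_lit 0) (nat_lit 5) (node (nat_lit 6) (nat_lit
  116790) (nat_lit 6) (node (nat_lit 5) (nat_lit 116790) (nat_lit 7) (node (nat_lit 7) (nat_lit
  116790) (nat_lit 8) (node (nat_lit 5) (nat_lit 116790) (nat_lit 9) (node (nat_lit 4) (nat_lit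
  117992) (nat_lit 10) nil nil) (node (nat_lit 4) (nat_lit 117830) (nat_lit 9) nil nil)) (node
  (nat_lit 4) (nat_lit 117617) (nat_lit 8) nil nil)) (node (nat_lit 4) (nat_lit 117279) (nat_lit
  7) (node (nat_lit 7) (nat_lit 117279) (nat_lit 8) nil nil) nil)) (node (nat_lit 7) (nat_lit
  106304) (nat_lit 6) (node (nat_lit 6) (nat_lit 111081) (nat_lit 7) (node (nat_lit 5) (nat_lit
  111081) (nat_lit 8) (node (nat_lit 7) (nat_lit 111081) (nat_lit 9) nil nil) nil) (node (nat_lit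
  4) (nat_lit 108642) (nat_lit 7) (node (nat_lit 5) (nat_lit 99434) (nat_lit 8) (node (nat_lit 6)
  (nat_lit 88918) (nat_lit 9) (node (nat_lit 7) (nat_lit 61971) (nat_lit 10) nil nil) nil) nil)
  nil)) (node (nat_lit 4) (nat_lit 113806) (nat_lit 6) (node (nat_lit 5) (nat_lit 101917) (nat_lit
  7) (node (nat_lit 6) (nat_lit 66623) (nat_lit 8) (node (nat_lit 4) (nat_lit 67456) (nat_lit 9)
  (node (nat_lit 7) (nat_lit 67935) (nat_lit 10) nil nil) nil) nil) (node (nat_lit 7) (nat_lit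
  113806) (nat_lit 7) nil nil)) (node (nat_lit 0) (nat_lit 110593) (nat_lit 6) nil (node (nat_lit
  2) (nat_lit 106304) (nat_lit 6) nil nil))))) (node (nat_lit 4) (nat_lit 117657) (nat_lit 5)
  (node (nat_lit 5) (nat_lit 117657) (nat_lit 6) (node (nat_lit 6) (nat_lit 60849) (nat_lit 7) nil
  nil) (node (nat_lit 6) (nat_lit 118522) (nat_lit 6) (node (nat_lit 5) (nat_lit 118522) (nat_lit
  7) (node (nat_lit 7) (nat_lit 118522) (nat_lit 8) nil nil) nil) (node (nat_lit 7) (nat_lit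
  117657) (nat_lit 6) (node (nat_lit 5) (nat_lit 117657) (nat_lit 7) (node (nat_lit 4) (nat_lit
  115627) (nat_lit 8) nil nil) nil) nil))) (node (nat_lit 0) (nat_lit 116138) (nat_lit 5) (node
  (nat_lit 5) (nat_lit 116138) (nat_lit 6) nil (node (nat_lit 7) (nat_lit 116138) (nat_lit 6) nil
  nil)) (node (nat_lit 2) (nat_lit 106839) (nat_lit 5) (node (nat_lit 5) (nat_lit 105380) (nat_lit
  6) (node (nat_lit 4) (nat_lit 102409) (nat_lit 7) nil nil) (node (nat_lit 7) (nat_lit 106839)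
  (nat_lit 6) (node (nat_lit 4) (nat_lit 99593) (nat_lit 7) (node (nat_lit 5) (nat_lit 69984)
  (nat_lit 8) nil nil) (node (nat_lit 5) (nat_lit 103033) (nat_lit 7) (node (nat_lit 4) (nat_lit
  102312) (nat_lit 8) nil nil) nil)) (node (nat_lit 4) (nat_lit 110593) (nat_lit 6) nil nil)))
  nil))))) (node (nat_lit 4) (nat_lit 0) (nat_lit 4) (node (nat_lit 6) (nat_lit 119105) (nat_lit
  5) (node (nat_lit 5) (nat_lit 122195) (nat_lit 6) (node (nat_lit 4) (nat_lit 123129) (nat_lit 7)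
  (node (nat_lit 5) (nat_lit 123129) (nat_lit 8) (node (nat_lit 6) (nat_lit 123640) (nat_lit 9)
  (node (nat_lit 4) (nat_lit 123766) (nat_lit 10) (node (nat_lit 6) (nat_lit 59291) (nat_lit 11)
  nil nil) nil) nil) (node (nat_lit 3) (nat_lit 123594) (nat_lit 8) nil nil)) nil) (node (nat_lit
  3) (nat_lit 122724) (nat_lit 6) (node (nat_lit 4) (nat_lit 123594) (nat_lit 7) (node (nat_lit 5)
  (nat_lit 123594) (nat_lit 8) (node (nat_lit 6) (nat_lit 123900) (nat_lit 9) (node (nat_lit 4)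
  (nat_lit 123953) (nat_lit 10) nil nil) nil) nil) nil) nil)) (node (nat_lit 3) (nat_lit 121174)
  (nat_lit 5) (node (nat_lit 5) (nat_lit 116350) (nat_lit 6) (node (nat_lit 6) (nat_lit 119648)
  (nat_lit 7) (node (nat_lit 5) (nat_lit 117908) (nat_lit 8) nil nil) nil) (node (nat_lit 6)
  (nat_lit 122184) (nat_lit 6) (node (nat_lit 5) (nat_lit 122184) (nat_lit 7) nil nil) (node
  (nat_lit 4) (nat_lit 122184) (nat_lit 6) (node (nat_lit 5) (nat_lit 122184) (nat_lit 7) (node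
  (nat_lit 6) (nat_lit 122552) (nat_lit 8) nil nil) nil) nil))) (node (nat_lit 5) (nat_lit 118895)
  (nat_lit 5) (node (nat_lit 4) (nat_lit 122775) (nat_lit 6) (node (nat_lit 6) (nat_lit 123129)
  (nat_lit 7) (node (nat_lit 5) (nat_lit 123129) (nat_lit 8) (node (nat_lit 4) (nat_lit 123640)
  (nat_lit 9) (node (nat_lit 5) (nat_lit 123640) (nat_lit 10) (node (nat_lit 6) (nat_lit 123858)
  (nat_lit 11) (node (nat_lit 4) (nat_lit 123930) (nat_lit 12) (node (nat_lit 5) (nat_lit 123930)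
  (nat_lit 13) (node (nat_lit 4) (nat_lit 124030) (nat_lit 14) (node (nat_lit 6) (nat_lit 59291)
  (nat_lit 15) nil nil) nil) nil) nil) nil) nil) nil) nil) nil) (node (nat_lit 3) (nat_lit 120485)
  (nat_lit 6) (node (nat_lit 4) (nat_lit 118862) (nat_lit 7) nil nil) nil)) (node (nat_lit 0)
  (nat_lit 121779) (nat_lit 5) (node (nat_lit 5) (nat_lit 117786) (nat_lit 6) (node (nat_lit 4)
  (nat_lit 119617) (nat_lit 7) (node (nat_lit 5) (nat_lit 116910) (nat_lit 8) nil nil) nil) nil)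
  (node (nat_lit 2) (nat_lit 118771) (nat_lit 5) (node (nat_lit 5) (nat_lit 105314) (nat_lit 6)
  (node (nat_lit 4) (nat_lit 101739) (nat_lit 7) (node (nat_lit 5) (nat_lit 89927) (nat_lit 8) nil
  nil) nil) nil) nil))))) (node (nat_lit 5) (nat_lit 0) (nat_lit 4) (node (nat_lit 3) (nat_lit
  106875) (nat_lit 5) (node (nat_lit 5) (nat_lit 106875) (nat_lit 6) nil (node (nat_lit 6)
  (nat_lit 113611) (nat_lit 6) (node (nat_lit 8) (nat_lit 113611) (nat_lit 7) (node (nat_lit 5)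
  (nat_lit 113611) (nat_lit 8) nil nil) nil) (node (nat_lit 4) (nat_lit 113842) (nat_lit 6) (node
  (nat_lit 5) (nat_lit 93917) (nat_lit 7) (node (nat_lit 6) (nat_lit 60030) (nat_lit 8) nil nil)
  (node (nat_lit 8) (nat_lit 113842) (nat_lit 7) (node (nat_lit 5) (nat_lit 113842) (nat_lit 8)
  (node (nat_lit 6) (nat_lit 114842) (nat_lit 9) (node (nat_lit 5) (nat_lit 114099) (nat_lit 10)
  nil nil) nil) nil) nil)) nil))) (node (nat_lit 4) (nat_lit 117674) (nat_lit 5) (node (nat_lit 5)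
  (nat_lit 121577) (nat_lit 6) (node (nat_lit 6) (nat_lit 59291) (nat_lit 7) nil nil) (node
  (nat_lit 3) (nat_lit 120615) (nat_lit 6) nil nil)) (node (nat_lit 0) (nat_lit 120475) (nat_lit
  5) (node (nat_lit 5) (nat_lit 120382) (nat_lit 6) (node (nat_lit 4) (nat_lit 121754) (nat_lit 7)
  nil nil) nil) (node (nat_lit 2) (nat_lit 106875) (nat_lit 5) (node (nat_lit 5) (nat_lit 106875)
  (nat_lit 6) (node (nat_lit 4) (nat_lit 104860) (nat_lit 7) (node (nat_lit 5) (nat_lit 88264)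
  (nat_lit 8) nil nil) nil) nil) nil)))) (node (nat_lit 0) (nat_lit 0) (nat_lit 4) (node (nat_lit
  6) (nat_lit 121467) (nat_lit 5) (node (nat_lit 5) (nat_lit 121467) (nat_lit 6) (node (nat_lit 7)
  (nat_lit 122090) (nat_lit 7) nil (node (nat_lit 4) (nat_lit 122090) (nat_lit 7) nil nil)) nil)
  (node (nat_lit 5) (nat_lit 119874) (nat_lit 5) (node (nat_lit 7) (nat_lit 121871) (nat_lit 6)
  (node (nat_lit 6) (nat_lit 122090) (nat_lit 7) nil nil) (node (nat_lit 4) (nat_lit 121549)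
  (nat_lit 6) (node (nat_lit 5) (nat_lit 118162) (nat_lit 7) (node (nat_lit 6) (nat_lit 119367)
  (nat_lit 8) (node (nat_lit 7) (nat_lit 58229) (nat_lit 9) nil nil) nil) nil) (node (nat_lit 6)
  (nat_lit 121871) (nat_lit 6) (node (nat_lit 5) (nat_lit 119000) (nat_lit 7) nil nil) nil)))
  (node (nat_lit 4) (nat_lit 120009) (nat_lit 5) (node (nat_lit 5) (nat_lit 115514) (nat_lit 6)
  nil nil) (node (nat_lit 3) (nat_lit 115872) (nat_lit 5) (node (nat_lit 4) (nat_lit 120434)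
  (nat_lit 6) (node (nat_lit 5) (nat_lit 121871) (nat_lit 7) nil nil) (node (nat_lit 5) (nat_lit
  107768) (nat_lit 6) (node (nat_lit 8) (nat_lit 108179) (nat_lit 7) nil nil) nil)) (node (nat_lit
  0) (nat_lit 118039) (nat_lit 5) (node (nat_lit 5) (nat_lit 113544) (nat_lit 6) nil nil) (node
  (nat_lit 2) (nat_lit 116261) (nat_lit 5) (node (nat_lit 5) (nat_lit 108157) (nat_lit 6) nil
  (node (nat_lit 4) (nat_lit 120823) (nat_lit 6) nil (node (nat_lit 3) (nat_lit 110681) (nat_lit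
  6) nil nil))) nil)))))) (node (nat_lit 2) (nat_lit 0) (nat_lit 4) (node (nat_lit 6) (nat_lit
  118047) (nat_lit 5) (node (nat_lit 5) (nat_lit 119654) (nat_lit 6) (node (nat_lit 7) (nat_lit
  119654) (nat_lit 7) (node (nat_lit 5) (nat_lit 118830) (nat_lit 8) (node (nat_lit 4) (nat_lit
  119663) (nat_lit 9) (node (nat_lit 5) (nat_lit 117505) (nat_lit 10) nil nil) nil) nil) (node
  (nat_lit 4) (nat_lit 120383) (nat_lit 7) (node (nat_lit 5) (nat_lit 119159) (nat_lit 8) nil nil)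
  nil)) (node (nat_lit 4) (nat_lit 120228) (nat_lit 6) nil (node (nat_lit 3) (nat_lit 119654)
  (nat_lit 6) (node (nat_lit 4) (nat_lit 120383) (nat_lit 7) nil nil) nil))) (node (nat_lit 5)
  (nat_lit 105351) (nat_lit 5) (node (nat_lit 3) (nat_lit 105351) (nat_lit 6) (node (nat_lit 5)
  (nat_lit 105351) (nat_lit 7) nil (node (nat_lit 4) (nat_lit 95820) (nat_lit 7) (node (nat_lit 5)
  (nat_lit 85318) (nat_lit 8) (node (nat_lit 6) (nat_lit 61971) (nat_lit 9) nil nil) nil) nil))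
  (node (nat_lit 4) (nat_lit 114335) (nat_lit 6) (node (nat_lit 3) (nat_lit 113956) (nat_lit 7)
  (node (nat_lit 4) (nat_lit 114688) (nat_lit 8) nil nil) (node (nat_lit 5) (nat_lit 99718)
  (nat_lit 7) (node (nat_lit 6) (nat_lit 60065) (nat_lit 8) (node (nat_lit 7) (nat_lit 55151)
  (nat_lit 9) nil nil) nil) nil)) (node (nat_lit 7) (nat_lit 105351) (nat_lit 6) (node (nat_lit 6)
  (nat_lit 111000) (nat_lit 7) (node (nat_lit 5) (nat_lit 111000) (nat_lit 8) nil nil) nil) (node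
  (nat_lit 6) (nat_lit 114335) (nat_lit 6) nil nil)))) (node (nat_lit 4) (nat_lit 118866) (nat_lit
  5) (node (nat_lit 3) (nat_lit 118866) (nat_lit 6) nil (node (nat_lit 5) (nat_lit 116193)
  (nat_lit 6) nil nil)) (node (nat_lit 3) (nat_lit 106217) (nat_lit 5) (node (nat_lit 4) (nat_lit
  99589) (nat_lit 6) (node (nat_lit 5) (nat_lit 61971) (nat_lit 7) nil (node (nat_lit 8) (nat_lit
  99790) (nat_lit 7) nil nil)) (node (nat_lit 5) (nat_lit 106048) (nat_lit 6) (node (nat_lit 8)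
  (nat_lit 106217) (nat_lit 7) nil (node (nat_lit 4) (nat_lit 103077) (nat_lit 7) nil nil)) nil))
  (node (nat_lit 0) (nat_lit 113804) (nat_lit 5) (node (nat_lit 5) (nat_lit 113804) (nat_lit 6)
  nil nil) nil))))) nil))))) (node (nat_lit 2) (nat_lit 0) (nat_lit 3) t118 nil)))

noncomputable def t120 : Tr :=
  (node (nat_lit 5) (nat_lit 0) (nat_lit 4) (node (nat_lit 3) (nat_lit 0) (nat_lit 5) (node
  (nat_lit 6) (nat_lit 78649) (nat_lit 6) (node (nat_lit 8) (nat_lit 78624) (nat_lit 7) (node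
  (nat_lit 5) (nat_lit 78585) (nat_lit 8) (node (nat_lit 6) (nat_lit 96137) (nat_lit 9) (node
  (nat_lit 5) (nat_lit 105122) (nat_lit 10) (node (nat_lit 8) (nat_lit 108528) (nat_lit 11) (node
  (nat_lit 6) (nat_lit 105040) (nat_lit 12) nil nil) (node (nat_lit 4) (nat_lit 114279) (nat_lit
  11) nil (node (nat_lit 0) (nat_lit 110875) (nat_lit 11) nil nil))) (node (nat_lit 8) (nat_lit
  104773) (nat_lit 10) (node (nat_lit 6) (nat_lit 105935) (nat_lit 11) (node (nat_lit 5) (nat_lit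
  103560) (nat_lit 12) nil nil) (node (nat_lit 4) (nat_lit 108953) (nat_lit 11) nil nil)) (node
  (nat_lit 4) (nat_lit 111235) (nat_lit 10) (node (nat_lit 8) (nat_lit 111235) (nat_lit 11) nil
  nil) (node (nat_lit 0) (nat_lit 112200) (nat_lit 10) nil nil)))) (node (nat_lit 8) (nat_lit
  95664) (nat_lit 9) (node (nat_lit 6) (nat_lit 103977) (nat_lit 10) nil nil) (node (nat_lit 4)
  (nat_lit 114956) (nat_lit 9) nil (node (nat_lit 0) (nat_lit 114956) (nat_lit 9) nil nil))))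
  (node (nat_lit 4) (nat_lit 113025) (nat_lit 8) (node (nat_lit 5) (nat_lit 110297) (nat_lit 9)
  (node (nat_lit 6) (nat_lit 103059) (nat_lit 10) (node (nat_lit 5) (nat_lit 67495) (nat_lit 11)
  (node (nat_lit 8) (nat_lit 53214) (nat_lit 12) nil nil) nil) nil) (node (nat_lit 6) (nat_lit
  113025) (nat_lit 9) nil nil)) (node (nat_lit 0) (nat_lit 116913) (nat_lit 8) nil nil))) (node
  (nat_lit 5) (nat_lit 78649) (nat_lit 7) (node (nat_lit 6) (nat_lit 78661) (nat_lit 8) (node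
  (nat_lit 8) (nat_lit 92472) (nat_lit 9) (node (nat_lit 5) (nat_lit 97192) (nat_lit 10) (node
  (nat_lit 8) (nat_lit 93974) (nat_lit 11) (node (nat_lit 6) (nat_lit 90486) (nat_lit 12) (node
  (nat_lit 8) (nat_lit 91043) (nat_lit 13) nil nil) nil) (node (nat_lit 6) (nat_lit 96162)
  (nat_lit 11) (node (nat_lit 5) (nat_lit 95486) (nat_lit 12) (node (nat_lit 8) (nat_lit 94742)
  (nat_lit 13) (node (nat_lit 6) (nat_lit 93886) (nat_lit 14) nil nil) nil) nil) nil)) (node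
  (nat_lit 6) (nat_lit 95491) (nat_lit 10) (node (nat_lit 4) (nat_lit 96215) (nat_lit 11) nil nil)
  (node (nat_lit 4) (nat_lit 95051) (nat_lit 10) nil nil))) (node (nat_lit 4) (nat_lit 101334)
  (nat_lit 9) nil (node (nat_lit 0) (nat_lit 93106) (nat_lit 9) nil nil))) (node (nat_lit 4)
  (nat_lit 113456) (nat_lit 8) nil (node (nat_lit 0) (nat_lit 104014) (nat_lit 8) nil nil))) (node
  (nat_lit 4) (nat_lit 111955) (nat_lit 7) (node (nat_lit 8) (nat_lit 116596) (nat_lit 8) (node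
  (nat_lit 5) (nat_lit 118186) (nat_lit 9) (node (nat_lit 6) (nat_lit 115767) (nat_lit 10) nil
  nil) nil) (node (nat_lit 5) (nat_lit 102559) (nat_lit 8) (node (nat_lit 6) (nat_lit 84277)
  (nat_lit 9) (node (nat_lit 5) (nat_lit 63775) (nat_lit 10) nil nil) nil) (node (nat_lit 6)
  (nat_lit 116982) (nat_lit 8) nil nil))) (node (nat_lit 0) (nat_lit 118246) (nat_lit 7) nil
  nil)))) (node (nat_lit 5) (nat_lit 78619) (nat_lit 6) (node (nat_lit 6) (nat_lit 78556) (nat_lit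
  7) (node (nat_lit 8) (nat_lit 78537) (nat_lit 8) (node (nat_lit 6) (nat_lit 93273) (nat_lit 9)
  (node (nat_lit 5) (nat_lit 98724) (nat_lit 10) (node (nat_lit 6) (nat_lit 93838) (nat_lit 11)
  (node (nat_lit 8) (nat_lit 92948) (nat_lit 12) nil nil) (node (nat_lit 8) (nat_lit 99126)
  (nat_lit 11) (node (nat_lit 6) (nat_lit 95638) (nat_lit 12) (node (nat_lit 8) (nat_lit 96195)
  (nat_lit 13) nil nil) nil) nil)) (node (nat_lit 4) (nat_lit 101254) (nat_lit 10) nil nil)) (node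
  (nat_lit 5) (nat_lit 93713) (nat_lit 9) (node (nat_lit 8) (nat_lit 98377) (nat_lit 10) (node
  (nat_lit 6) (nat_lit 97545) (nat_lit 11) nil nil) (node (nat_lit 4) (nat_lit 105317) (nat_lit
  10) nil nil)) (node (nat_lit 4) (nat_lit 103620) (nat_lit 9) (node (nat_lit 5) (nat_lit 97866)
  (nat_lit 10) nil nil) (node (nat_lit 0) (nat_lit 105039) (nat_lit 9) nil nil)))) (node (nat_lit
  4) (nat_lit 107388) (nat_lit 8) (node (nat_lit 5) (nat_lit 101460) (nat_lit 9) (node (nat_lit 6)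
  (nat_lit 91391) (nat_lit 10) (node (nat_lit 5) (nat_lit 79572) (nat_lit 11) (node (nat_lit 8)
  (nat_lit 52707) (nat_lit 12) nil nil) nil) nil) nil) (node (nat_lit 5) (nat_lit 78556) (nat_lit
  8) (node (nat_lit 4) (nat_lit 109648) (nat_lit 9) nil (node (nat_lit 0) (nat_lit 105058)
  (nat_lit 9) nil nil)) (node (nat_lit 0) (nat_lit 103922) (nat_lit 8) nil nil)))) (node (nat_lit
  4) (nat_lit 116282) (nat_lit 7) (node (nat_lit 8) (nat_lit 115616) (nat_lit 8) nil (node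
  (nat_lit 6) (nat_lit 115244) (nat_lit 8) (node (nat_lit 4) (nat_lit 116865) (nat_lit 9) nil
  (node (nat_lit 8) (nat_lit 113153) (nat_lit 9) nil nil)) nil)) (node (nat_lit 0) (nat_lit
  111860) (nat_lit 7) (node (nat_lit 8) (nat_lit 110665) (nat_lit 8) nil nil) nil))) (node
  (nat_lit 4) (nat_lit 103244) (nat_lit 6) (node (nat_lit 6) (nat_lit 110180) (nat_lit 7) (node
  (nat_lit 8) (nat_lit 112767) (nat_lit 8) (node (nat_lit 5) (nat_lit 111910) (nat_lit 9) nil
  (node (nat_lit 4) (nat_lit 109393) (nat_lit 9) (node (nat_lit 5) (nat_lit 104966) (nat_lit 10)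
  nil nil) nil)) (node (nat_lit 4) (nat_lit 112021) (nat_lit 8) (node (nat_lit 5) (nat_lit 110590)
  (nat_lit 9) (node (nat_lit 6) (nat_lit 109362) (nat_lit 10) (node (nat_lit 5) (nat_lit 108442)
  (nat_lit 11) (node (nat_lit 8) (nat_lit 107684) (nat_lit 12) nil nil) nil) nil) nil) nil)) (node
  (nat_lit 5) (nat_lit 85306) (nat_lit 7) (node (nat_lit 4) (nat_lit 90682) (nat_lit 8) (node
  (nat_lit 8) (nat_lit 94191) (nat_lit 9) (node (nat_lit 5) (nat_lit 95495) (nat_lit 10) nil nil)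
  (node (nat_lit 6) (nat_lit 92763) (nat_lit 9) nil nil)) (node (nat_lit 6) (nat_lit 70804)
  (nat_lit 8) (node (nat_lit 8) (nat_lit 70804) (nat_lit 9) (node (nat_lit 4) (nat_lit 67292)
  (nat_lit 10) nil nil) (node (nat_lit 5) (nat_lit 52870) (nat_lit 9) nil nil)) (node (nat_lit 8)
  (nat_lit 90112) (nat_lit 8) (node (nat_lit 6) (nat_lit 92884) (nat_lit 9) nil (node (nat_lit 5)
  (nat_lit 92601) (nat_lit 9) nil nil)) (node (nat_lit 0) (nat_lit 89779) (nat_lit 8) nil nil))))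
  (node (nat_lit 8) (nat_lit 112293) (nat_lit 7) (node (nat_lit 6) (nat_lit 106880) (nat_lit 8)
  (node (nat_lit 8) (nat_lit 107551) (nat_lit 9) (node (nat_lit 4) (nat_lit 107586) (nat_lit 10)
  nil nil) (node (nat_lit 4) (nat_lit 106168) (nat_lit 9) (node (nat_lit 5) (nat_lit 97766)
  (nat_lit 10) nil nil) nil)) (node (nat_lit 5) (nat_lit 111276) (nat_lit 8) (node (nat_lit 6)
  (nat_lit 109058) (nat_lit 9) (node (nat_lit 5) (nat_lit 107831) (nat_lit 10) (node (nat_lit 8)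
  (nat_lit 106714) (nat_lit 11) nil nil) nil) nil) nil)) (node (nat_lit 0) (nat_lit 110555)
  (nat_lit 7) nil nil)))) (node (nat_lit 0) (nat_lit 109518) (nat_lit 6) (node (nat_lit 4)
  (nat_lit 117661) (nat_lit 7) (node (nat_lit 8) (nat_lit 116466) (nat_lit 8) (node (nat_lit 4)
  (nat_lit 118087) (nat_lit 9) nil nil) (node (nat_lit 6) (nat_lit 116094) (nat_lit 8) nil nil))
  (node (nat_lit 6) (nat_lit 115756) (nat_lit 7) (node (nat_lit 4) (nat_lit 118100) (nat_lit 8)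
  (node (nat_lit 5) (nat_lit 116668) (nat_lit 9) nil nil) (node (nat_lit 8) (nat_lit 108030)
  (nat_lit 8) nil nil)) (node (nat_lit 8) (nat_lit 116828) (nat_lit 7) (node (nat_lit 4) (nat_lit
  119171) (nat_lit 8) nil (node (nat_lit 6) (nat_lit 108729) (nat_lit 8) nil nil)) (node (nat_lit
  5) (nat_lit 116397) (nat_lit 7) nil (node (nat_lit 0) (nat_lit 114547) (nat_lit 7) nil nil)))))
  nil)))) (node (nat_lit 4) (nat_lit 0) (nat_lit 5) (node (nat_lit 6) (nat_lit 87474) (nat_lit 6)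
  (node (nat_lit 4) (nat_lit 100234) (nat_lit 7) (node (nat_lit 5) (nat_lit 113366) (nat_lit 8)
  (node (nat_lit 6) (nat_lit 119221) (nat_lit 9) (node (nat_lit 5) (nat_lit 119569) (nat_lit 10)
  (node (nat_lit 4) (nat_lit 58173) (nat_lit 11) nil nil) nil) nil) (node (nat_lit 3) (nat_lit
  122488) (nat_lit 8) nil (node (nat_lit 0) (nat_lit 121521) (nat_lit 8) nil nil))) (node (nat_lit
  5) (nat_lit 99208) (nat_lit 7) (node (nat_lit 6) (nat_lit 112402) (nat_lit 8) (node (nat_lit 4)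
  (nat_lit 114274) (nat_lit 9) (node (nat_lit 5) (nat_lit 117725) (nat_lit 10) (node (nat_lit 6)
  (nat_lit 108333) (nat_lit 11) (node (nat_lit 5) (nat_lit 108882) (nat_lit 12) (node (nat_lit 4)
  (nat_lit 106189) (nat_lit 13) (node (nat_lit 6) (nat_lit 62940) (nat_lit 14) nil nil) nil) nil)
  nil) nil) nil) (node (nat_lit 3) (nat_lit 113977) (nat_lit 8) nil nil)) (node (nat_lit 3)
  (nat_lit 116634) (nat_lit 7) (node (nat_lit 4) (nat_lit 120260) (nat_lit 8) nil nil) (node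
  (nat_lit 0) (nat_lit 118290) (nat_lit 7) nil nil)))) (node (nat_lit 3) (nat_lit 109311) (nat_lit
  6) (node (nat_lit 6) (nat_lit 118265) (nat_lit 7) (node (nat_lit 4) (nat_lit 118069) (nat_lit 8)
  (node (nat_lit 5) (nat_lit 96173) (nat_lit 9) (node (nat_lit 6) (nat_lit 83996) (nat_lit 10)
  (node (nat_lit 5) (nat_lit 61572) (nat_lit 11) (node (nat_lit 4) (nat_lit 56344) (nat_lit 12)
  nil nil) nil) nil) nil) (node (nat_lit 9) (nat_lit 115376) (nat_lit 8) nil nil)) (node (nat_lit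
  5) (nat_lit 117558) (nat_lit 7) (node (nat_lit 9) (nat_lit 118201) (nat_lit 8) (node (nat_lit 4)
  (nat_lit 113189) (nat_lit 9) (node (nat_lit 5) (nat_lit 108762) (nat_lit 10) nil nil) nil) (node
  (nat_lit 6) (nat_lit 116450) (nat_lit 8) (node (nat_lit 4) (nat_lit 117478) (nat_lit 9) (node
  (nat_lit 9) (nat_lit 116484) (nat_lit 10) nil nil) (node (nat_lit 5) (nat_lit 115195) (nat_lit
  9) nil (node (nat_lit 9) (nat_lit 110624) (nat_lit 9) nil nil))) nil)) (node (nat_lit 4)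
  (nat_lit 116421) (nat_lit 7) (node (nat_lit 5) (nat_lit 120064) (nat_lit 8) (node (nat_lit 6)
  (nat_lit 118809) (nat_lit 9) (node (nat_lit 5) (nat_lit 117582) (nat_lit 10) (node (nat_lit 4)
  (nat_lit 56244) (nat_lit 11) nil nil) nil) nil) nil) (node (nat_lit 0) (nat_lit 115120) (nat_lit
  7) nil nil)))) (node (nat_lit 5) (nat_lit 87413) (nat_lit 6) (node (nat_lit 6) (nat_lit 99330)
  (nat_lit 7) (node (nat_lit 4) (nat_lit 114880) (nat_lit 8) (node (nat_lit 6) (nat_lit 117243)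
  (nat_lit 9) nil nil) (node (nat_lit 3) (nat_lit 117727) (nat_lit 8) nil (node (nat_lit 0)
  (nat_lit 119668) (nat_lit 8) nil nil))) (node (nat_lit 3) (nat_lit 116650) (nat_lit 7) (node
  (nat_lit 4) (nat_lit 117982) (nat_lit 8) nil (node (nat_lit 6) (nat_lit 119565) (nat_lit 8) nil
  nil)) (node (nat_lit 0) (nat_lit 116222) (nat_lit 7) nil nil))) (node (nat_lit 0) (nat_lit
  109843) (nat_lit 6) (node (nat_lit 3) (nat_lit 118868) (nat_lit 7) (node (nat_lit 4) (nat_lit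
  122511) (nat_lit 8) (node (nat_lit 5) (nat_lit 123994) (nat_lit 9) nil nil) (node (nat_lit 6)
  (nat_lit 118096) (nat_lit 8) nil nil)) (node (nat_lit 6) (nat_lit 116323) (nat_lit 7) (node
  (nat_lit 4) (nat_lit 119966) (nat_lit 8) nil nil) (node (nat_lit 4) (nat_lit 115512) (nat_lit 7)
  nil (node (nat_lit 5) (nat_lit 117661) (nat_lit 7) nil (node (nat_lit 0) (nat_lit 115653)
  (nat_lit 7) nil nil))))) nil)))) (node (nat_lit 0) (nat_lit 0) (nat_lit 5) (node (nat_lit 6)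
  (nat_lit 111941) (nat_lit 6) (node (nat_lit 5) (nat_lit 119712) (nat_lit 7) (node (nat_lit 6)
  (nat_lit 113852) (nat_lit 8) (node (nat_lit 4) (nat_lit 106609) (nat_lit 9) (node (nat_lit 5)
  (nat_lit 100327) (nat_lit 10) (node (nat_lit 6) (nat_lit 92663) (nat_lit 11) (node (nat_lit 5)
  (nat_lit 82583) (nat_lit 12) nil nil) nil) nil) (node (nat_lit 3) (nat_lit 107850) (nat_lit 9)
  nil nil)) nil) (node (nat_lit 4) (nat_lit 115502) (nat_lit 7) (node (nat_lit 5) (nat_lit 113935)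
  (nat_lit 8) nil nil) (node (nat_lit 3) (nat_lit 101457) (nat_lit 7) nil (node (nat_lit 8)
  (nat_lit 115502) (nat_lit 7) nil nil)))) (node (nat_lit 5) (nat_lit 111909) (nat_lit 6) (node
  (nat_lit 6) (nat_lit 114336) (nat_lit 7) (node (nat_lit 8) (nat_lit 116680) (nat_lit 8) nil nil)
  (node (nat_lit 4) (nat_lit 115470) (nat_lit 7) nil (node (nat_lit 3) (nat_lit 112217) (nat_lit
  7) nil nil))) (node (nat_lit 4) (nat_lit 112715) (nat_lit 6) (node (nat_lit 6) (nat_lit 109960)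
  (nat_lit 7) (node (nat_lit 4) (nat_lit 112304) (nat_lit 8) nil nil) (node (nat_lit 3) (nat_lit
  111557) (nat_lit 7) nil nil)) (node (nat_lit 3) (nat_lit 112145) (nat_lit 6) (node (nat_lit 6)
  (nat_lit 112560) (nat_lit 7) (node (nat_lit 9) (nat_lit 113590) (nat_lit 8) nil nil) (node
  (nat_lit 4) (nat_lit 115707) (nat_lit 7) (node (nat_lit 5) (nat_lit 118051) (nat_lit 8) nil nil)
  nil)) (node (nat_lit 0) (nat_lit 112110) (nat_lit 6) (node (nat_lit 6) (nat_lit 110454) (nat_lit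
  7) nil (node (nat_lit 4) (nat_lit 115671) (nat_lit 7) nil nil)) nil))))) nil))) (node (nat_lit
  4) (nat_lit 0) (nat_lit 4) (node (nat_lit 3) (nat_lit 0) (nat_lit 5) (node (nat_lit 5) (nat_lit
  90094) (nat_lit 6) (node (nat_lit 6) (nat_lit 90441) (nat_lit 7) (node (nat_lit 8) (nat_lit
  90441) (nat_lit 8) (node (nat_lit 5) (nat_lit 90441) (nat_lit 9) (node (nat_lit 8) (nat_lit
  90587) (nat_lit 10) (node (nat_lit 6) (nat_lit 89788) (nat_lit 11) nil nil) (node (nat_lit 4)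
  (nat_lit 94195) (nat_lit 10) (node (nat_lit 6) (nat_lit 94195) (nat_lit 11) nil nil) nil)) (node
  (nat_lit 6) (nat_lit 90441) (nat_lit 9) nil (node (nat_lit 4) (nat_lit 93752) (nat_lit 9) (node
  (nat_lit 6) (nat_lit 94020) (nat_lit 10) nil (node (nat_lit 5) (nat_lit 94020) (nat_lit 10) nil
  nil)) nil))) (node (nat_lit 5) (nat_lit 90441) (nat_lit 8) (node (nat_lit 8) (nat_lit 90441)
  (nat_lit 9) (node (nat_lit 6) (nat_lit 89728) (nat_lit 10) nil (node (nat_lit 4) (nat_lit 93720)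
  (nat_lit 10) nil nil)) (node (nat_lit 4) (nat_lit 94020) (nat_lit 9) (node (nat_lit 6) (nat_lit
  94020) (nat_lit 10) (node (nat_lit 8) (nat_lit 94020) (nat_lit 11) nil nil) nil) nil)) (node
  (nat_lit 4) (nat_lit 92964) (nat_lit 8) nil (node (nat_lit 0) (nat_lit 93417) (nat_lit 8) nil
  nil)))) (node (nat_lit 8) (nat_lit 90931) (nat_lit 7) (node (nat_lit 4) (nat_lit 92964) (nat_lit
  8) (node (nat_lit 5) (nat_lit 91410) (nat_lit 9) (node (nat_lit 4) (nat_lit 92641) (nat_lit 10)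
  (node (nat_lit 8) (nat_lit 91911) (nat_lit 11) nil nil) (node (nat_lit 6) (nat_lit 79497)
  (nat_lit 10) (node (nat_lit 4) (nat_lit 69717) (nat_lit 11) nil nil) nil)) (node (nat_lit 8)
  (nat_lit 93752) (nat_lit 9) (node (nat_lit 6) (nat_lit 94280) (nat_lit 10) (node (nat_lit 4)
  (nat_lit 93107) (nat_lit 11) nil nil) nil) (node (nat_lit 6) (nat_lit 93752) (nat_lit 9) nil
  nil))) (node (nat_lit 6) (nat_lit 90931) (nat_lit 8) (node (nat_lit 5) (nat_lit 90931) (nat_lit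
  9) nil (node (nat_lit 4) (nat_lit 93752) (nat_lit 9) nil nil)) (node (nat_lit 0) (nat_lit 93274)
  (nat_lit 8) nil nil))) (node (nat_lit 4) (nat_lit 91825) (nat_lit 7) (node (nat_lit 6) (nat_lit
  92964) (nat_lit 8) (node (nat_lit 8) (nat_lit 93752) (nat_lit 9) (node (nat_lit 6) (nat_lit
  94350) (nat_lit 10) (node (nat_lit 4) (nat_lit 94743) (nat_lit 11) (node (nat_lit 8) (nat_lit
  95222) (nat_lit 12) nil nil) nil) (node (nat_lit 4) (nat_lit 94350) (nat_lit 10) nil nil)) (node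
  (nat_lit 5) (nat_lit 93752) (nat_lit 9) nil (node (nat_lit 4) (nat_lit 93752) (nat_lit 9) nil
  nil))) (node (nat_lit 5) (nat_lit 93417) (nat_lit 8) (node (nat_lit 8) (nat_lit 94205) (nat_lit
  9) (node (nat_lit 4) (nat_lit 94803) (nat_lit 10) nil (node (nat_lit 6) (nat_lit 93753) (nat_lit
  10) nil nil)) nil) (node (nat_lit 8) (nat_lit 92964) (nat_lit 8) (node (nat_lit 4) (nat_lit
  93752) (nat_lit 9) (node (nat_lit 5) (nat_lit 94350) (nat_lit 10) nil nil) (node (nat_lit 6)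
  (nat_lit 93752) (nat_lit 9) nil nil)) nil))) (node (nat_lit 0) (nat_lit 92173) (nat_lit 7) (node
  (nat_lit 8) (nat_lit 93312) (nat_lit 8) (node (nat_lit 4) (nat_lit 94101) (nat_lit 9) nil (node
  (nat_lit 6) (nat_lit 89381) (nat_lit 9) nil nil)) (node (nat_lit 6) (nat_lit 93312) (nat_lit 8)
  nil (node (nat_lit 4) (nat_lit 93312) (nat_lit 8) nil nil))) nil)))) (node (nat_lit 4) (nat_lit
  81859) (nat_lit 6) (node (nat_lit 6) (nat_lit 83589) (nat_lit 7) (node (nat_lit 8) (nat_lit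
  84344) (nat_lit 8) (node (nat_lit 6) (nat_lit 85517) (nat_lit 9) (node (nat_lit 4) (nat_lit
  86352) (nat_lit 10) nil nil) (node (nat_lit 4) (nat_lit 82695) (nat_lit 9) nil nil)) (node
  (nat_lit 5) (nat_lit 89967) (nat_lit 8) (node (nat_lit 6) (nat_lit 90756) (nat_lit 9) nil nil)
  (node (nat_lit 4) (nat_lit 84729) (nat_lit 8) (node (nat_lit 5) (nat_lit 87402) (nat_lit 9)
  (node (nat_lit 6) (nat_lit 88000) (nat_lit 10) nil nil) nil) nil))) (node (nat_lit 5) (nat_lit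
  90463) (nat_lit 7) (node (nat_lit 6) (nat_lit 91602) (nat_lit 8) (node (nat_lit 4) (nat_lit
  20669) (nat_lit 9) nil nil) nil) (node (nat_lit 0) (nat_lit 89590) (nat_lit 7) (node (nat_lit 8)
  (nat_lit 90729) (nat_lit 8) (node (nat_lit 4) (nat_lit 91517) (nat_lit 9) nil nil) nil) nil)))
  (node (nat_lit 6) (nat_lit 81920) (nat_lit 6) (node (nat_lit 5) (nat_lit 88814) (nat_lit 7) nil
  (node (nat_lit 8) (nat_lit 83651) (nat_lit 7) (node (nat_lit 4) (nat_lit 84790) (nat_lit 8)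
  (node (nat_lit 6) (nat_lit 85578) (nat_lit 9) (node (nat_lit 4) (nat_lit 87239) (nat_lit 10) nil
  nil) (node (nat_lit 5) (nat_lit 73016) (nat_lit 9) nil nil)) (node (nat_lit 5) (nat_lit 90231)
  (nat_lit 8) nil nil)) (node (nat_lit 4) (nat_lit 83651) (nat_lit 7) (node (nat_lit 6) (nat_lit
  84790) (nat_lit 8) nil (node (nat_lit 5) (nat_lit 71721) (nat_lit 8) nil nil)) (node (nat_lit 0)
  (nat_lit 89381) (nat_lit 7) nil nil)))) (node (nat_lit 0) (nat_lit 88832) (nat_lit 6) (node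
  (nat_lit 6) (nat_lit 90563) (nat_lit 7) nil (node (nat_lit 8) (nat_lit 90359) (nat_lit 7) (node
  (nat_lit 4) (nat_lit 91498) (nat_lit 8) nil nil) (node (nat_lit 4) (nat_lit 90563) (nat_lit 7)
  (node (nat_lit 8) (nat_lit 88163) (nat_lit 8) nil nil) nil))) nil)))) (node (nat_lit 5) (nat_lit
  0) (nat_lit 5) (node (nat_lit 4) (nat_lit 0) (nat_lit 6) (node (nat_lit 6) (nat_lit 46504)
  (nat_lit 7) (node (nat_lit 5) (nat_lit 57494) (nat_lit 8) (node (nat_lit 6) (nat_lit 64116)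
  (nat_lit 9) (node (nat_lit 4) (nat_lit 64494) (nat_lit 10) (node (nat_lit 5) (nat_lit 64494)
  (nat_lit 11) (node (nat_lit 6) (nat_lit 64494) (nat_lit 12) nil nil) nil) nil) nil) (node
  (nat_lit 3) (nat_lit 62377) (nat_lit 8) nil (node (nat_lit 4) (nat_lit 57648) (nat_lit 8) nil
  nil))) (node (nat_lit 3) (nat_lit 62174) (nat_lit 7) nil (node (nat_lit 0) (nat_lit 61234)
  (nat_lit 7) nil nil))) (node (nat_lit 3) (nat_lit 55270) (nat_lit 6) (node (nat_lit 4) (nat_lit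
  56022) (nat_lit 7) (node (nat_lit 6) (nat_lit 54060) (nat_lit 8) nil (node (nat_lit 9) (nat_lit
  57625) (nat_lit 8) (node (nat_lit 5) (nat_lit 55918) (nat_lit 9) nil nil) (node (nat_lit 5)
  (nat_lit 40603) (nat_lit 8) nil nil))) (node (nat_lit 6) (nat_lit 59412) (nat_lit 7) nil nil))
  (node (nat_lit 0) (nat_lit 59048) (nat_lit 6) (node (nat_lit 4) (nat_lit 60879) (nat_lit 7) nil
  nil) nil))) (node (nat_lit 6) (nat_lit 0) (nat_lit 5) (node (nat_lit 5) (nat_lit 76236) (nat_lit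
  6) (node (nat_lit 6) (nat_lit 82213) (nat_lit 7) (node (nat_lit 4) (nat_lit 88910) (nat_lit 8)
  (node (nat_lit 5) (nat_lit 91006) (nat_lit 9) nil (node (nat_lit 3) (nat_lit 90743) (nat_lit 9)
  nil nil)) (node (nat_lit 3) (nat_lit 93036) (nat_lit 8) (node (nat_lit 5) (nat_lit 93751)
  (nat_lit 9) nil (node (nat_lit 6) (nat_lit 93751) (nat_lit 9) nil (node (nat_lit 4) (nat_lit
  94001) (nat_lit 9) nil nil))) (node (nat_lit 0) (nat_lit 93240) (nat_lit 8) (node (nat_lit 6)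
  (nat_lit 94205) (nat_lit 9) nil (node (nat_lit 4) (nat_lit 94205) (nat_lit 9) nil nil)) nil)))
  (node (nat_lit 4) (nat_lit 82328) (nat_lit 7) (node (nat_lit 6) (nat_lit 88910) (nat_lit 8) nil
  nil) (node (nat_lit 3) (nat_lit 90597) (nat_lit 7) (node (nat_lit 4) (nat_lit 93036) (nat_lit 8)
  nil nil) nil))) (node (nat_lit 3) (nat_lit 78277) (nat_lit 6) (node (nat_lit 4) (nat_lit 82256)
  (nat_lit 7) nil (node (nat_lit 6) (nat_lit 82256) (nat_lit 7) nil nil)) (node (nat_lit 0)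
  (nat_lit 86370) (nat_lit 6) nil nil))) (node (nat_lit 0) (nat_lit 0) (nat_lit 5) (node (nat_lit
  6) (nat_lit 89273) (nat_lit 6) (node (nat_lit 4) (nat_lit 91004) (nat_lit 7) (node (nat_lit 5)
  (nat_lit 92143) (nat_lit 8) nil nil) nil) (node (nat_lit 4) (nat_lit 89273) (nat_lit 6) (node
  (nat_lit 6) (nat_lit 91004) (nat_lit 7) nil nil) (node (nat_lit 3) (nat_lit 85467) (nat_lit 6)
  (node (nat_lit 4) (nat_lit 89028) (nat_lit 7) nil (node (nat_lit 6) (nat_lit 85183) (nat_lit 7)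
  nil nil)) (node (nat_lit 0) (nat_lit 90046) (nat_lit 6) nil (node (nat_lit 5) (nat_lit 90091)
  (nat_lit 6) nil nil))))) nil)))) (node (nat_lit 0) (nat_lit 0) (nat_lit 4) (node (nat_lit 5)
  (nat_lit 0) (nat_lit 5) (node (nat_lit 3) (nat_lit 106418) (nat_lit 6) (node (nat_lit 6)
  (nat_lit 94868) (nat_lit 7) nil (node (nat_lit 4) (nat_lit 108590) (nat_lit 7) (node (nat_lit 5)
  (nat_lit 80090) (nat_lit 8) nil nil) nil)) (node (nat_lit 4) (nat_lit 112087) (nat_lit 6) (node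
  (nat_lit 6) (nat_lit 113641) (nat_lit 7) nil (node (nat_lit 3) (nat_lit 110929) (nat_lit 7) nil
  nil)) (node (nat_lit 7) (nat_lit 115315) (nat_lit 6) (node (nat_lit 6) (nat_lit 113660) (nat_lit
  7) nil nil) (node (nat_lit 6) (nat_lit 113792) (nat_lit 6) (node (nat_lit 4) (nat_lit 109363)
  (nat_lit 7) nil nil) (node (nat_lit 0) (nat_lit 112023) (nat_lit 6) nil nil))))) (node (nat_lit
  3) (nat_lit 104982) (nat_lit 5) (node (nat_lit 6) (nat_lit 112066) (nat_lit 6) (node (nat_lit 8)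
  (nat_lit 105732) (nat_lit 7) nil nil) (node (nat_lit 4) (nat_lit 107642) (nat_lit 6) (node
  (nat_lit 5) (nat_lit 111204) (nat_lit 7) (node (nat_lit 6) (nat_lit 109637) (nat_lit 8) nil nil)
  (node (nat_lit 8) (nat_lit 106484) (nat_lit 7) nil nil)) nil)) (node (nat_lit 6) (nat_lit
  104561) (nat_lit 5) (node (nat_lit 4) (nat_lit 115795) (nat_lit 6) (node (nat_lit 3) (nat_lit
  114053) (nat_lit 7) nil (node (nat_lit 5) (nat_lit 114139) (nat_lit 7) (node (nat_lit 6)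
  (nat_lit 112572) (nat_lit 8) nil nil) nil)) (node (nat_lit 3) (nat_lit 113629) (nat_lit 6) (node
  (nat_lit 4) (nat_lit 110050) (nat_lit 7) nil nil) (node (nat_lit 5) (nat_lit 113080) (nat_lit 6)
  (node (nat_lit 6) (nat_lit 110345) (nat_lit 7) nil nil) nil))) (node (nat_lit 4) (nat_lit
  105341) (nat_lit 5) (node (nat_lit 6) (nat_lit 115095) (nat_lit 6) (node (nat_lit 4) (nat_lit
  118656) (nat_lit 7) nil nil) (node (nat_lit 3) (nat_lit 102883) (nat_lit 6) (node (nat_lit 4)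
  (nat_lit 106444) (nat_lit 7) nil nil) nil)) (node (nat_lit 0) (nat_lit 105247) (nat_lit 5) (node
  (nat_lit 6) (nat_lit 113215) (nat_lit 6) (node (nat_lit 4) (nat_lit 116777) (nat_lit 7) nil nil)
  (node (nat_lit 4) (nat_lit 110390) (nat_lit 6) nil (node (nat_lit 3) (nat_lit 111009) (nat_lit
  6) (node (nat_lit 4) (nat_lit 114571) (nat_lit 7) nil nil) (node (nat_lit 7) (nat_lit 114555)
  (nat_lit 6) nil nil)))) nil))))) nil)))

noncomputable def t121 : Tr :=
  (node (nat_lit 3) (nat_lit 0) (nat_lit 3) (node (nat_lit 3) (nat_lit 0) (nat_lit 4) (node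
  (nat_lit 4) (nat_lit 0) (nat_lit 5) (node (nat_lit 5) (nat_lit 50573) (nat_lit 6) (node (nat_lit
  4) (nat_lit 53301) (nat_lit 7) (node (nat_lit 7) (nat_lit 54933) (nat_lit 8) (node (nat_lit 4)
  (nat_lit 56097) (nat_lit 9) (node (nat_lit 5) (nat_lit 56695) (nat_lit 10) (node (nat_lit 6)
  (nat_lit 57223) (nat_lit 11) nil nil) (node (nat_lit 6) (nat_lit 56695) (nat_lit 10) (node
  (nat_lit 7) (nat_lit 55406) (nat_lit 11) nil nil) nil)) (node (nat_lit 5) (nat_lit 56097)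
  (nat_lit 9) (node (nat_lit 7) (nat_lit 57025) (nat_lit 10) (node (nat_lit 4) (nat_lit 57553)
  (nat_lit 11) (node (nat_lit 5) (nat_lit 58032) (nat_lit 12) nil nil) nil) (node (nat_lit 6)
  (nat_lit 52783) (nat_lit 10) nil nil)) (node (nat_lit 6) (nat_lit 56097) (nat_lit 9) (node
  (nat_lit 4) (nat_lit 49687) (nat_lit 10) nil nil) nil))) (node (nat_lit 6) (nat_lit 54933)
  (nat_lit 8) nil nil)) (node (nat_lit 6) (nat_lit 52304) (nat_lit 7) nil (node (nat_lit 7)
  (nat_lit 53017) (nat_lit 7) (node (nat_lit 6) (nat_lit 54650) (nat_lit 8) (node (nat_lit 4)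
  (nat_lit 55813) (nat_lit 9) (node (nat_lit 6) (nat_lit 56411) (nat_lit 10) (node (nat_lit 7)
  (nat_lit 55122) (nat_lit 11) nil nil) (node (nat_lit 5) (nat_lit 44431) (nat_lit 10) nil (node
  (nat_lit 7) (nat_lit 56411) (nat_lit 10) nil nil))) nil) (node (nat_lit 5) (nat_lit 54650)
  (nat_lit 8) (node (nat_lit 4) (nat_lit 55813) (nat_lit 9) (node (nat_lit 7) (nat_lit 54185)
  (nat_lit 10) (node (nat_lit 4) (nat_lit 54713) (nat_lit 11) (node (nat_lit 5) (nat_lit 55192)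
  (nat_lit 12) nil nil) nil) (node (nat_lit 6) (nat_lit 56411) (nat_lit 10) nil nil)) nil) (node
  (nat_lit 4) (nat_lit 54910) (nat_lit 8) nil nil))) (node (nat_lit 0) (nat_lit 53301) (nat_lit 7)
  (node (nat_lit 6) (nat_lit 54440) (nat_lit 8) nil (node (nat_lit 7) (nat_lit 54933) (nat_lit 8)
  nil nil)) nil)))) (node (nat_lit 7) (nat_lit 73311) (nat_lit 6) (node (nat_lit 6) (nat_lit
  78608) (nat_lit 7) (node (nat_lit 4) (nat_lit 80707) (nat_lit 8) (node (nat_lit 6) (nat_lit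
  83680) (nat_lit 9) (node (nat_lit 7) (nat_lit 84973) (nat_lit 10) (node (nat_lit 6) (nat_lit
  83006) (nat_lit 11) nil (node (nat_lit 4) (nat_lit 86359) (nat_lit 11) nil nil)) nil) (node
  (nat_lit 5) (nat_lit 75450) (nat_lit 9) (node (nat_lit 6) (nat_lit 70889) (nat_lit 10) (node
  (nat_lit 7) (nat_lit 41600) (nat_lit 11) nil nil) nil) (node (nat_lit 7) (nat_lit 82287)
  (nat_lit 9) (node (nat_lit 4) (nat_lit 84530) (nat_lit 10) nil nil) nil))) (node (nat_lit 5)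
  (nat_lit 82174) (nat_lit 8) (node (nat_lit 4) (nat_lit 83151) (nat_lit 9) (node (nat_lit 7)
  (nat_lit 83575) (nat_lit 10) (node (nat_lit 5) (nat_lit 80838) (nat_lit 11) nil (node (nat_lit
  4) (nat_lit 84662) (nat_lit 11) nil nil)) nil) nil) (node (nat_lit 7) (nat_lit 82174) (nat_lit
  8) (node (nat_lit 5) (nat_lit 84750) (nat_lit 9) (node (nat_lit 6) (nat_lit 85534) (nat_lit 10)
  nil nil) (node (nat_lit 4) (nat_lit 84544) (nat_lit 9) nil nil)) (node (nat_lit 0) (nat_lit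
  81939) (nat_lit 8) nil nil)))) (node (nat_lit 5) (nat_lit 78608) (nat_lit 7) (node (nat_lit 6)
  (nat_lit 82174) (nat_lit 8) (node (nat_lit 7) (nat_lit 84814) (nat_lit 9) (node (nat_lit 6)
  (nat_lit 86894) (nat_lit 10) (node (nat_lit 4) (nat_lit 87668) (nat_lit 11) nil nil) (node
  (nat_lit 4) (nat_lit 79037) (nat_lit 10) nil nil)) (node (nat_lit 4) (nat_lit 80671) (nat_lit 9)
  (node (nat_lit 5) (nat_lit 73140) (nat_lit 10) nil nil) nil)) (node (nat_lit 7) (nat_lit 82174)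
  (nat_lit 8) (node (nat_lit 4) (nat_lit 82488) (nat_lit 9) (node (nat_lit 5) (nat_lit 80742)
  (nat_lit 10) nil nil) (node (nat_lit 6) (nat_lit 84544) (nat_lit 9) nil nil)) (node (nat_lit 4)
  (nat_lit 82434) (nat_lit 8) (node (nat_lit 6) (nat_lit 85010) (nat_lit 9) nil (node (nat_lit 7)
  (nat_lit 84430) (nat_lit 9) nil nil)) (node (nat_lit 0) (nat_lit 82174) (nat_lit 8) nil nil))))
  (node (nat_lit 0) (nat_lit 78802) (nat_lit 7) (node (nat_lit 4) (nat_lit 82368) (nat_lit 8)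
  (node (nat_lit 7) (nat_lit 82970) (nat_lit 9) (node (nat_lit 4) (nat_lit 84202) (nat_lit 10) nil
  nil) nil) (node (nat_lit 7) (nat_lit 82368) (nat_lit 8) (node (nat_lit 4) (nat_lit 83989)
  (nat_lit 9) nil nil) (node (nat_lit 6) (nat_lit 82133) (nat_lit 8) nil nil))) nil))) (node
  (nat_lit 6) (nat_lit 73133) (nat_lit 6) (node (nat_lit 5) (nat_lit 78431) (nat_lit 7) (node
  (nat_lit 6) (nat_lit 81996) (nat_lit 8) (node (nat_lit 7) (nat_lit 84792) (nat_lit 9) (node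
  (nat_lit 5) (nat_lit 86872) (nat_lit 10) (node (nat_lit 4) (nat_lit 88711) (nat_lit 11) (node
  (nat_lit 6) (nat_lit 89937) (nat_lit 12) nil nil) (node (nat_lit 7) (nat_lit 88711) (nat_lit 11)
  (node (nat_lit 6) (nat_lit 85625) (nat_lit 12) nil nil) nil)) (node (nat_lit 6) (nat_lit 86301)
  (nat_lit 10) nil (node (nat_lit 0) (nat_lit 86685) (nat_lit 10) nil nil))) (node (nat_lit 4)
  (nat_lit 83992) (nat_lit 9) (node (nat_lit 5) (nat_lit 80158) (nat_lit 10) nil nil) nil)) (node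
  (nat_lit 4) (nat_lit 81996) (nat_lit 8) (node (nat_lit 7) (nat_lit 80855) (nat_lit 9) (node
  (nat_lit 4) (nat_lit 82087) (nat_lit 10) nil nil) nil) (node (nat_lit 7) (nat_lit 81996)
  (nat_lit 8) (node (nat_lit 6) (nat_lit 84366) (nat_lit 9) nil nil) nil))) (node (nat_lit 4)
  (nat_lit 78715) (nat_lit 7) (node (nat_lit 7) (nat_lit 82279) (nat_lit 8) (node (nat_lit 6)
  (nat_lit 84145) (nat_lit 9) (node (nat_lit 7) (nat_lit 84569) (nat_lit 10) (node (nat_lit 4)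
  (nat_lit 84406) (nat_lit 11) nil nil) nil) (node (nat_lit 4) (nat_lit 84650) (nat_lit 9) nil
  nil)) (node (nat_lit 5) (nat_lit 82279) (nat_lit 8) (node (nat_lit 6) (nat_lit 80848) (nat_lit
  9) (node (nat_lit 7) (nat_lit 78995) (nat_lit 10) nil nil) (node (nat_lit 7) (nat_lit 75921)
  (nat_lit 9) nil nil)) nil)) (node (nat_lit 7) (nat_lit 78593) (nat_lit 7) (node (nat_lit 6)
  (nat_lit 82159) (nat_lit 8) (node (nat_lit 4) (nat_lit 84736) (nat_lit 9) nil nil) (node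
  (nat_lit 5) (nat_lit 82159) (nat_lit 8) (node (nat_lit 6) (nat_lit 75510) (nat_lit 9) nil nil)
  nil)) (node (nat_lit 0) (nat_lit 78787) (nat_lit 7) (node (nat_lit 7) (nat_lit 79895) (nat_lit
  8) nil nil) nil)))) (node (nat_lit 0) (nat_lit 73530) (nat_lit 6) (node (nat_lit 7) (nat_lit
  78826) (nat_lit 7) (node (nat_lit 4) (nat_lit 81664) (nat_lit 8) nil nil) (node (nat_lit 6)
  (nat_lit 78826) (nat_lit 7) (node (nat_lit 4) (nat_lit 81664) (nat_lit 8) nil nil) (node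
  (nat_lit 4) (nat_lit 78826) (nat_lit 7) (node (nat_lit 7) (nat_lit 78698) (nat_lit 8) nil nil)
  (node (nat_lit 5) (nat_lit 78826) (nat_lit 7) nil (node (nat_lit 0) (nat_lit 78826) (nat_lit 7)
  nil nil))))) nil)))) (node (nat_lit 5) (nat_lit 0) (nat_lit 5) (node (nat_lit 7) (nat_lit 0)
  (nat_lit 6) (node (nat_lit 6) (nat_lit 78061) (nat_lit 7) (node (nat_lit 5) (nat_lit 78171)
  (nat_lit 8) (node (nat_lit 6) (nat_lit 90622) (nat_lit 9) (node (nat_lit 7) (nat_lit 95630)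
  (nat_lit 10) (node (nat_lit 6) (nat_lit 92685) (nat_lit 11) nil (node (nat_lit 4) (nat_lit
  95573) (nat_lit 11) nil nil)) (node (nat_lit 4) (nat_lit 95089) (nat_lit 10) (node (nat_lit 7)
  (nat_lit 95089) (nat_lit 11) nil nil) nil)) (node (nat_lit 7) (nat_lit 90469) (nat_lit 9) (node
  (nat_lit 5) (nat_lit 93981) (nat_lit 10) (node (nat_lit 6) (nat_lit 88981) (nat_lit 11) nil nil)
  (node (nat_lit 4) (nat_lit 96075) (nat_lit 10) (node (nat_lit 5) (nat_lit 89136) (nat_lit 11)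
  nil nil) nil)) (node (nat_lit 4) (nat_lit 98368) (nat_lit 9) nil (node (nat_lit 0) (nat_lit
  98368) (nat_lit 9) nil nil)))) (node (nat_lit 4) (nat_lit 101367) (nat_lit 8) (node (nat_lit 5)
  (nat_lit 90941) (nat_lit 9) (node (nat_lit 6) (nat_lit 77348) (nat_lit 10) (node (nat_lit 7)
  (nat_lit 46494) (nat_lit 11) nil nil) nil) (node (nat_lit 7) (nat_lit 102403) (nat_lit 9) nil
  nil)) (node (nat_lit 7) (nat_lit 77998) (nat_lit 8) (node (nat_lit 4) (nat_lit 102758) (nat_lit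
  9) (node (nat_lit 5) (nat_lit 97819) (nat_lit 10) nil nil) (node (nat_lit 5) (nat_lit 89566)
  (nat_lit 9) nil nil)) (node (nat_lit 0) (nat_lit 104609) (nat_lit 8) nil nil)))) (node (nat_lit
  4) (nat_lit 99703) (nat_lit 7) (node (nat_lit 6) (nat_lit 98249) (nat_lit 8) nil (node (nat_lit
  5) (nat_lit 91348) (nat_lit 8) (node (nat_lit 6) (nat_lit 80922) (nat_lit 9) (node (nat_lit 7)
  (nat_lit 52099) (nat_lit 10) nil nil) nil) nil)) (node (nat_lit 0) (nat_lit 101500) (nat_lit 7)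
  nil nil))) (node (nat_lit 6) (nat_lit 0) (nat_lit 6) (node (nat_lit 5) (nat_lit 78076) (nat_lit
  7) (node (nat_lit 7) (nat_lit 78151) (nat_lit 8) (node (nat_lit 5) (nat_lit 93092) (nat_lit 9)
  (node (nat_lit 6) (nat_lit 99775) (nat_lit 10) (node (nat_lit 7) (nat_lit 103291) (nat_lit 11)
  (node (nat_lit 6) (nat_lit 105098) (nat_lit 12) (node (nat_lit 5) (nat_lit 104994) (nat_lit 13)
  (node (nat_lit 6) (nat_lit 102709) (nat_lit 14) (node (nat_lit 7) (nat_lit 102121) (nat_lit 15)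
  (node (nat_lit 5) (nat_lit 101268) (nat_lit 16) (node (nat_lit 6) (nat_lit 101321) (nat_lit 17)
  nil nil) nil) nil) nil) nil) nil) (node (nat_lit 4) (nat_lit 99717) (nat_lit 11) nil nil)) (node
  (nat_lit 4) (nat_lit 109155) (nat_lit 10) nil (node (nat_lit 0) (nat_lit 109479) (nat_lit 10)
  nil nil))) (node (nat_lit 6) (nat_lit 92861) (nat_lit 9) (node (nat_lit 5) (nat_lit 99752)
  (nat_lit 10) (node (nat_lit 6) (nat_lit 95782) (nat_lit 11) (node (nat_lit 7) (nat_lit 92266)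
  (nat_lit 12) nil nil) nil) (node (nat_lit 4) (nat_lit 102927) (nat_lit 10) nil (node (nat_lit 7)
  (nat_lit 101563) (nat_lit 10) nil nil))) (node (nat_lit 4) (nat_lit 107453) (nat_lit 9) nil
  (node (nat_lit 0) (nat_lit 104651) (nat_lit 9) nil nil)))) (node (nat_lit 4) (nat_lit 108064)
  (nat_lit 8) (node (nat_lit 6) (nat_lit 106632) (nat_lit 9) nil (node (nat_lit 7) (nat_lit
  106923) (nat_lit 9) nil nil)) (node (nat_lit 0) (nat_lit 106562) (nat_lit 8) nil nil))) (node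
  (nat_lit 4) (nat_lit 99962) (nat_lit 7) (node (nat_lit 5) (nat_lit 96906) (nat_lit 8) (node
  (nat_lit 6) (nat_lit 71686) (nat_lit 9) (node (nat_lit 7) (nat_lit 49103) (nat_lit 10) nil nil)
  (node (nat_lit 7) (nat_lit 93181) (nat_lit 9) nil nil)) (node (nat_lit 7) (nat_lit 103652)
  (nat_lit 8) (node (nat_lit 6) (nat_lit 103797) (nat_lit 9) nil nil) (node (nat_lit 6) (nat_lit
  101008) (nat_lit 8) nil nil))) (node (nat_lit 0) (nat_lit 105996) (nat_lit 7) (node (nat_lit 7)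
  (nat_lit 104801) (nat_lit 8) nil nil) nil))) (node (nat_lit 4) (nat_lit 98983) (nat_lit 6) (node
  (nat_lit 7) (nat_lit 106245) (nat_lit 7) (node (nat_lit 6) (nat_lit 107591) (nat_lit 8) nil
  (node (nat_lit 4) (nat_lit 108589) (nat_lit 8) (node (nat_lit 5) (nat_lit 110210) (nat_lit 9)
  nil nil) (node (nat_lit 5) (nat_lit 106797) (nat_lit 8) (node (nat_lit 6) (nat_lit 106488)
  (nat_lit 9) nil nil) nil))) (node (nat_lit 6) (nat_lit 106278) (nat_lit 7) (node (nat_lit 5)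
  (nat_lit 108306) (nat_lit 8) nil nil) nil)) (node (nat_lit 0) (nat_lit 99033) (nat_lit 6) (node
  (nat_lit 7) (nat_lit 105529) (nat_lit 7) (node (nat_lit 6) (nat_lit 96954) (nat_lit 8) nil nil)
  (node (nat_lit 4) (nat_lit 98415) (nat_lit 7) nil (node (nat_lit 6) (nat_lit 103288) (nat_lit 7)
  nil nil))) nil)))) (node (nat_lit 6) (nat_lit 0) (nat_lit 5) (node (nat_lit 5) (nat_lit 0)
  (nat_lit 6) (node (nat_lit 6) (nat_lit 78242) (nat_lit 7) (node (nat_lit 7) (nat_lit 78280)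
  (nat_lit 8) (node (nat_lit 5) (nat_lit 92086) (nat_lit 9) (node (nat_lit 7) (nat_lit 95167)
  (nat_lit 10) (node (nat_lit 6) (nat_lit 93314) (nat_lit 11) (node (nat_lit 7) (nat_lit 93916)
  (nat_lit 12) nil nil) nil) (node (nat_lit 6) (nat_lit 95030) (nat_lit 10) nil (node (nat_lit 4)
  (nat_lit 101100) (nat_lit 10) nil nil))) (node (nat_lit 4) (nat_lit 94972) (nat_lit 9) (node
  (nat_lit 5) (nat_lit 93201) (nat_lit 10) (node (nat_lit 6) (nat_lit 83845) (nat_lit 11) (node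
  (nat_lit 7) (nat_lit 75156) (nat_lit 12) nil nil) nil) nil) (node (nat_lit 0) (nat_lit 100568)
  (nat_lit 9) nil nil))) (node (nat_lit 4) (nat_lit 100040) (nat_lit 8) nil nil)) (node (nat_lit
  7) (nat_lit 78242) (nat_lit 7) (node (nat_lit 6) (nat_lit 78252) (nat_lit 8) (node (nat_lit 7)
  (nat_lit 89691) (nat_lit 9) nil nil) (node (nat_lit 4) (nat_lit 100087) (nat_lit 8) nil (node
  (nat_lit 5) (nat_lit 78267) (nat_lit 8) (node (nat_lit 6) (nat_lit 90287) (nat_lit 9) nil nil)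
  nil))) (node (nat_lit 4) (nat_lit 101106) (nat_lit 7) (node (nat_lit 7) (nat_lit 104797)
  (nat_lit 8) nil nil) (node (nat_lit 0) (nat_lit 101085) (nat_lit 7) nil nil)))) (node (nat_lit
  4) (nat_lit 86793) (nat_lit 6) (node (nat_lit 7) (nat_lit 97036) (nat_lit 7) (node (nat_lit 4)
  (nat_lit 101762) (nat_lit 8) nil nil) (node (nat_lit 6) (nat_lit 95441) (nat_lit 7) (node
  (nat_lit 5) (nat_lit 96620) (nat_lit 8) (node (nat_lit 6) (nat_lit 92651) (nat_lit 9) (node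
  (nat_lit 7) (nat_lit 90799) (nat_lit 10) nil nil) nil) nil) (node (nat_lit 5) (nat_lit 85341)
  (nat_lit 7) (node (nat_lit 6) (nat_lit 48822) (nat_lit 8) nil nil) nil))) (node (nat_lit 0)
  (nat_lit 94013) (nat_lit 6) (node (nat_lit 7) (nat_lit 101510) (nat_lit 7) (node (nat_lit 6)
  (nat_lit 105247) (nat_lit 8) nil nil) (node (nat_lit 6) (nat_lit 101430) (nat_lit 7) nil (node
  (nat_lit 4) (nat_lit 101764) (nat_lit 7) nil nil))) nil))) (node (nat_lit 0) (nat_lit 0)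
  (nat_lit 5) (node (nat_lit 7) (nat_lit 99464) (nat_lit 6) (node (nat_lit 6) (nat_lit 102197)
  (nat_lit 7) nil (node (nat_lit 4) (nat_lit 102045) (nat_lit 7) nil nil)) (node (nat_lit 6)
  (nat_lit 99305) (nat_lit 6) (node (nat_lit 7) (nat_lit 103800) (nat_lit 7) nil (node (nat_lit 4)
  (nat_lit 100075) (nat_lit 7) nil nil)) (node (nat_lit 4) (nat_lit 99947) (nat_lit 6) (node
  (nat_lit 7) (nat_lit 102295) (nat_lit 7) (node (nat_lit 4) (nat_lit 104639) (nat_lit 8) nil nil)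
  (node (nat_lit 6) (nat_lit 100326) (nat_lit 7) nil nil)) (node (nat_lit 0) (nat_lit 99291)
  (nat_lit 6) (node (nat_lit 7) (nat_lit 105787) (nat_lit 7) nil nil) (node (nat_lit 5) (nat_lit
  99291) (nat_lit 6) (node (nat_lit 7) (nat_lit 103818) (nat_lit 7) nil nil) nil))))) nil))))
  t120) (node (nat_lit 4) (nat_lit 0) (nat_lit 3) (node (nat_lit 3) (nat_lit 0) (nat_lit 4) (node
  (nat_lit 3) (nat_lit 0) (nat_lit 5) (node (nat_lit 5) (nat_lit 115324) (nat_lit 6) (node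
  (nat_lit 4) (nat_lit 127863) (nat_lit 7) nil (node (nat_lit 8) (nat_lit 117225) (nat_lit 7) nil
  nil)) (node (nat_lit 7) (nat_lit 114510) (nat_lit 6) (node (nat_lit 4) (nat_lit 131241) (nat_lit
  7) (node (nat_lit 5) (nat_lit 115458) (nat_lit 8) (node (nat_lit 4) (nat_lit 98282) (nat_lit 9)
  (node (nat_lit 7) (nat_lit 63423) (nat_lit 10) nil nil) nil) nil) nil) (node (nat_lit 4)
  (nat_lit 112071) (nat_lit 6) (node (nat_lit 5) (nat_lit 106325) (nat_lit 7) (node (nat_lit 4)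
  (nat_lit 69003) (nat_lit 8) nil nil) (node (nat_lit 8) (nat_lit 118778) (nat_lit 7) nil nil))
  (node (nat_lit 0) (nat_lit 127880) (nat_lit 6) nil nil)))) (node (nat_lit 5) (nat_lit 0)
  (nat_lit 5) (node (nat_lit 7) (nat_lit 0) (nat_lit 6) (node (nat_lit 4) (nat_lit 100399)
  (nat_lit 7) (node (nat_lit 5) (nat_lit 109146) (nat_lit 8) (node (nat_lit 4) (nat_lit 112896)
  (nat_lit 9) (node (nat_lit 7) (nat_lit 90127) (nat_lit 10) (node (nat_lit 5) (nat_lit 67817)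
  (nat_lit 11) nil (node (nat_lit 4) (nat_lit 91287) (nat_lit 11) (node (nat_lit 5) (nat_lit
  92808) (nat_lit 12) nil nil) nil)) nil) (node (nat_lit 7) (nat_lit 119125) (nat_lit 9) nil nil))
  (node (nat_lit 3) (nat_lit 134677) (nat_lit 8) nil (node (nat_lit 7) (nat_lit 117945) (nat_lit
  8) nil nil))) (node (nat_lit 3) (nat_lit 119723) (nat_lit 7) (node (nat_lit 4) (nat_lit 135451)
  (nat_lit 8) nil nil) (node (nat_lit 0) (nat_lit 134916) (nat_lit 7) nil nil))) (node (nat_lit 4)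
  (nat_lit 0) (nat_lit 6) (node (nat_lit 5) (nat_lit 104785) (nat_lit 7) (node (nat_lit 7)
  (nat_lit 120347) (nat_lit 8) nil nil) (node (nat_lit 3) (nat_lit 127688) (nat_lit 7) nil (node
  (nat_lit 0) (nat_lit 125196) (nat_lit 7) nil nil))) (node (nat_lit 3) (nat_lit 115960) (nat_lit
  6) (node (nat_lit 7) (nat_lit 120544) (nat_lit 7) (node (nat_lit 4) (nat_lit 135353) (nat_lit 8)
  nil nil) (node (nat_lit 4) (nat_lit 127738) (nat_lit 7) (node (nat_lit 5) (nat_lit 116788)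
  (nat_lit 8) (node (nat_lit 4) (nat_lit 106287) (nat_lit 9) (node (nat_lit 7) (nat_lit 69433)
  (nat_lit 10) nil nil) nil) nil) nil)) (node (nat_lit 0) (nat_lit 129092) (nat_lit 6) nil nil))))
  (node (nat_lit 4) (nat_lit 0) (nat_lit 5) (node (nat_lit 5) (nat_lit 88474) (nat_lit 6) (node
  (nat_lit 7) (nat_lit 103962) (nat_lit 7) nil (node (nat_lit 4) (nat_lit 47253) (nat_lit 7) nil
  (node (nat_lit 3) (nat_lit 128749) (nat_lit 7) nil nil))) (node (nat_lit 3) (nat_lit 128189)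
  (nat_lit 6) nil (node (nat_lit 0) (nat_lit 125089) (nat_lit 6) nil nil))) (node (nat_lit 0)
  (nat_lit 120341) (nat_lit 5) (node (nat_lit 7) (nat_lit 131376) (nat_lit 6) (node (nat_lit 4)
  (nat_lit 132846) (nat_lit 7) nil nil) (node (nat_lit 3) (nat_lit 131376) (nat_lit 6) nil nil))
  nil)))) (node (nat_lit 0) (nat_lit 0) (nat_lit 4) (node (nat_lit 5) (nat_lit 121508) (nat_lit 5)
  nil (node (nat_lit 3) (nat_lit 121716) (nat_lit 5) (node (nat_lit 4) (nat_lit 127280) (nat_lit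
  6) nil nil) (node (nat_lit 4) (nat_lit 124023) (nat_lit 5) nil (node (nat_lit 0) (nat_lit
  124285) (nat_lit 5) nil nil)))) nil)) (node (nat_lit 0) (nat_lit 0) (nat_lit 3) (node (nat_lit
  3) (nat_lit 0) (nat_lit 4) (node (nat_lit 5) (nat_lit 104959) (nat_lit 5) (node (nat_lit 6)
  (nat_lit 112285) (nat_lit 6) nil (node (nat_lit 7) (nat_lit 104959) (nat_lit 6) nil nil)) (node
  (nat_lit 3) (nat_lit 104895) (nat_lit 5) (node (nat_lit 4) (nat_lit 104641) (nat_lit 6) (node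
  (nat_lit 7) (nat_lit 108303) (nat_lit 7) nil nil) (node (nat_lit 7) (nat_lit 104895) (nat_lit 6)
  nil nil)) (node (nat_lit 4) (nat_lit 113444) (nat_lit 5) (node (nat_lit 7) (nat_lit 113444)
  (nat_lit 6) nil (node (nat_lit 5) (nat_lit 113444) (nat_lit 6) (node (nat_lit 6) (nat_lit 56052)
  (nat_lit 7) nil nil) nil)) (node (nat_lit 6) (nat_lit 115502) (nat_lit 5) nil (node (nat_lit 0)
  (nat_lit 112231) (nat_lit 5) nil nil))))) (node (nat_lit 0) (nat_lit 107226) (nat_lit 4) (node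
  (nat_lit 5) (nat_lit 117140) (nat_lit 5) nil (node (nat_lit 3) (nat_lit 117140) (nat_lit 5)
  (node (nat_lit 4) (nat_lit 118583) (nat_lit 6) nil nil) (node (nat_lit 6) (nat_lit 118583)
  (nat_lit 5) nil nil))) (node (nat_lit 5) (nat_lit 0) (nat_lit 4) (node (nat_lit 3) (nat_lit
  105614) (nat_lit 5) (node (nat_lit 3) (nat_lit 105614) (nat_lit 6) nil (node (nat_lit 4)
  (nat_lit 110495) (nat_lit 6) nil nil)) (node (nat_lit 0) (nat_lit 114638) (nat_lit 5) nil (node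
  (nat_lit 4) (nat_lit 118541) (nat_lit 5) nil nil))) (node (nat_lit 4) (nat_lit 106499) (nat_lit
  4) (node (nat_lit 3) (nat_lit 118583) (nat_lit 5) (node (nat_lit 4) (nat_lit 118583) (nat_lit 6)
  nil nil) (node (nat_lit 5) (nat_lit 118583) (nat_lit 5) nil nil)) nil)))) nil)))

noncomputable def c10 : Tr :=
  (node (nat_lit 3) (nat_lit 0) (nat_lit 1) (node (nat_lit 1) (nat_lit 0) (nat_lit 2) (node
  (nat_lit 3) (nat_lit 0) (nat_lit 3) (node (nat_lit 0) (nat_lit 0) (nat_lit 4) (node (nat_lit 6)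
  (nat_lit 0) (nat_lit 5) (node (nat_lit 5) (nat_lit 114935) (nat_lit 6) (node (nat_lit 7)
  (nat_lit 118942) (nat_lit 7) (node (nat_lit 6) (nat_lit 119908) (nat_lit 8) nil (node (nat_lit
  5) (nat_lit 119908) (nat_lit 8) nil nil)) (node (nat_lit 4) (nat_lit 119758) (nat_lit 7) (node
  (nat_lit 6) (nat_lit 120724) (nat_lit 8) nil (node (nat_lit 5) (nat_lit 114561) (nat_lit 8)
  (node (nat_lit 6) (nat_lit 99925) (nat_lit 9) (node (nat_lit 7) (nat_lit 60449) (nat_lit 10)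
  (node (nat_lit 6) (nat_lit 38980) (nat_lit 11) nil nil) nil) nil) nil)) (node (nat_lit 6)
  (nat_lit 116403) (nat_lit 7) (node (nat_lit 4) (nat_lit 117369) (nat_lit 8) (node (nat_lit 5)
  (nat_lit 118037) (nat_lit 9) nil nil) nil) nil))) (node (nat_lit 4) (nat_lit 119086) (nat_lit 6)
  (node (nat_lit 5) (nat_lit 120554) (nat_lit 7) (node (nat_lit 6) (nat_lit 118139) (nat_lit 8)
  (node (nat_lit 7) (nat_lit 54523) (nat_lit 9) nil nil) nil) nil) (node (nat_lit 0) (nat_lit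
  117967) (nat_lit 6) (node (nat_lit 5) (nat_lit 119434) (nat_lit 7) nil nil) (node (nat_lit 2)
  (nat_lit 115026) (nat_lit 6) (node (nat_lit 6) (nat_lit 116493) (nat_lit 7) (node (nat_lit 4)
  (nat_lit 112821) (nat_lit 8) (node (nat_lit 5) (nat_lit 94566) (nat_lit 9) (node (nat_lit 6)
  (nat_lit 84350) (nat_lit 10) (node (nat_lit 7) (nat_lit 54482) (nat_lit 11) nil nil) nil) nil)
  nil) (node (nat_lit 5) (nat_lit 116493) (nat_lit 7) (node (nat_lit 4) (nat_lit 108029) (nat_lit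
  8) (node (nat_lit 5) (nat_lit 102893) (nat_lit 9) nil nil) nil) nil)) nil)))) (node (nat_lit 5)
  (nat_lit 0) (nat_lit 5) (node (nat_lit 7) (nat_lit 119086) (nat_lit 6) (node (nat_lit 6)
  (nat_lit 120554) (nat_lit 7) nil nil) (node (nat_lit 6) (nat_lit 114996) (nat_lit 6) (node
  (nat_lit 5) (nat_lit 116432) (nat_lit 7) (node (nat_lit 4) (nat_lit 115957) (nat_lit 8) nil nil)
  (node (nat_lit 4) (nat_lit 119280) (nat_lit 7) (node (nat_lit 5) (nat_lit 120246) (nat_lit 8)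
  (node (nat_lit 6) (nat_lit 118275) (nat_lit 9) nil nil) nil) nil)) (node (nat_lit 4) (nat_lit
  119075) (nat_lit 6) (node (nat_lit 5) (nat_lit 120554) (nat_lit 7) (node (nat_lit 6) (nat_lit
  118139) (nat_lit 8) (node (nat_lit 7) (nat_lit 40268) (nat_lit 9) nil nil) nil) nil) (node
  (nat_lit 0) (nat_lit 116810) (nat_lit 6) nil (node (nat_lit 2) (nat_lit 113898) (nat_lit 6)
  (node (nat_lit 6) (nat_lit 116405) (nat_lit 7) (node (nat_lit 4) (nat_lit 109152) (nat_lit 8)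
  (node (nat_lit 5) (nat_lit 89816) (nat_lit 9) (node (nat_lit 6) (nat_lit 78725) (nat_lit 10) nil
  nil) nil) nil) (node (nat_lit 5) (nat_lit 116338) (nat_lit 7) (node (nat_lit 4) (nat_lit 113491)
  (nat_lit 8) (node (nat_lit 5) (nat_lit 94156) (nat_lit 9) nil nil) nil) nil)) nil))))) (node
  (nat_lit 4) (nat_lit 112904) (nat_lit 5) (node (nat_lit 6) (nat_lit 118520) (nat_lit 6) (node
  (nat_lit 4) (nat_lit 119987) (nat_lit 7) (node (nat_lit 5) (nat_lit 115957) (nat_lit 8) (node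
  (nat_lit 6) (nat_lit 99315) (nat_lit 9) (node (nat_lit 7) (nat_lit 75863) (nat_lit 10) nil nil)
  nil) nil) (node (nat_lit 5) (nat_lit 118791) (nat_lit 7) nil nil)) (node (nat_lit 7) (nat_lit
  119636) (nat_lit 6) nil (node (nat_lit 0) (nat_lit 118105) (nat_lit 6) nil (node (nat_lit 2)
  (nat_lit 116843) (nat_lit 6) nil nil)))) (node (nat_lit 0) (nat_lit 114001) (nat_lit 5) (node
  (nat_lit 6) (nat_lit 118472) (nat_lit 6) (node (nat_lit 4) (nat_lit 119939) (nat_lit 7) (node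
  (nat_lit 5) (nat_lit 120905) (nat_lit 8) nil nil) nil) (node (nat_lit 7) (nat_lit 119291)
  (nat_lit 6) nil (node (nat_lit 5) (nat_lit 118472) (nat_lit 6) (node (nat_lit 4) (nat_lit
  117237) (nat_lit 7) nil nil) (node (nat_lit 4) (nat_lit 118915) (nat_lit 6) (node (nat_lit 6)
  (nat_lit 120383) (nat_lit 7) nil nil) nil)))) (node (nat_lit 2) (nat_lit 108868) (nat_lit 5)
  (node (nat_lit 6) (nat_lit 114530) (nat_lit 6) (node (nat_lit 4) (nat_lit 115997) (nat_lit 7)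
  (node (nat_lit 5) (nat_lit 106048) (nat_lit 8) (node (nat_lit 6) (nat_lit 87031) (nat_lit 9) nil
  nil) nil) (node (nat_lit 5) (nat_lit 115997) (nat_lit 7) (node (nat_lit 4) (nat_lit 113784)
  (nat_lit 8) nil nil) nil)) (node (nat_lit 7) (nat_lit 117967) (nat_lit 6) nil (node (nat_lit 5)
  (nat_lit 113844) (nat_lit 6) (node (nat_lit 4) (nat_lit 116860) (nat_lit 7) (node (nat_lit 5)
  (nat_lit 99070) (nat_lit 8) nil nil) nil) (node (nat_lit 0) (nat_lit 117536) (nat_lit 6) nil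
  nil)))) nil))))) t106) t109) t116) (node (nat_lit 1) (nat_lit 0) (nat_lit 1) (node (nat_lit 3)
  (nat_lit 0) (nat_lit 2) (node (nat_lit 3) (nat_lit 0) (nat_lit 3) t117 t119) (node (nat_lit 0)
  (nat_lit 0) (nat_lit 2) (node (nat_lit 3) (nat_lit 0) (nat_lit 3) (node (nat_lit 5) (nat_lit 0)
  (nat_lit 4) (node (nat_lit 3) (nat_lit 121760) (nat_lit 5) (node (nat_lit 6) (nat_lit 121760)
  (nat_lit 6) (node (nat_lit 8) (nat_lit 121760) (nat_lit 7) nil (node (nat_lit 4) (nat_lit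
  124581) (nat_lit 7) (node (nat_lit 5) (nat_lit 116740) (nat_lit 8) (node (nat_lit 6) (nat_lit
  97589) (nat_lit 9) nil nil) nil) nil)) (node (nat_lit 5) (nat_lit 123894) (nat_lit 6) nil (node
  (nat_lit 4) (nat_lit 123894) (nat_lit 6) (node (nat_lit 5) (nat_lit 124581) (nat_lit 7) (node
  (nat_lit 6) (nat_lit 124581) (nat_lit 8) nil nil) (node (nat_lit 6) (nat_lit 123894) (nat_lit 7)
  nil nil)) nil))) (node (nat_lit 4) (nat_lit 124951) (nat_lit 5) (node (nat_lit 6) (nat_lit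
  124951) (nat_lit 6) (node (nat_lit 4) (nat_lit 126372) (nat_lit 7) (node (nat_lit 5) (nat_lit
  126858) (nat_lit 8) (node (nat_lit 6) (nat_lit 126858) (nat_lit 9) (node (nat_lit 5) (nat_lit
  127534) (nat_lit 10) (node (nat_lit 4) (nat_lit 60417) (nat_lit 11) nil nil) nil) nil) nil) nil)
  (node (nat_lit 3) (nat_lit 126681) (nat_lit 6) nil nil)) (node (nat_lit 0) (nat_lit 125040)
  (nat_lit 5) (node (nat_lit 6) (nat_lit 125040) (nat_lit 6) nil nil) (node (nat_lit 2) (nat_lit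
  121760) (nat_lit 5) (node (nat_lit 6) (nat_lit 121760) (nat_lit 6) (node (nat_lit 4) (nat_lit
  122751) (nat_lit 7) nil nil) nil) nil)))) (node (nat_lit 3) (nat_lit 0) (nat_lit 4) (node
  (nat_lit 4) (nat_lit 112145) (nat_lit 5) (node (nat_lit 5) (nat_lit 73845) (nat_lit 6) nil (node
  (nat_lit 6) (nat_lit 113880) (nat_lit 6) nil nil)) (node (nat_lit 5) (nat_lit 116834) (nat_lit
  5) (node (nat_lit 7) (nat_lit 116834) (nat_lit 6) nil (node (nat_lit 6) (nat_lit 116834)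
  (nat_lit 6) (node (nat_lit 5) (nat_lit 118455) (nat_lit 7) nil (node (nat_lit 4) (nat_lit
  118455) (nat_lit 7) (node (nat_lit 5) (nat_lit 118973) (nat_lit 8) (node (nat_lit 6) (nat_lit
  118973) (nat_lit 9) nil nil) nil) nil)) nil)) (node (nat_lit 6) (nat_lit 100023) (nat_lit 5)
  (node (nat_lit 5) (nat_lit 112728) (nat_lit 6) (node (nat_lit 6) (nat_lit 112728) (nat_lit 7)
  nil nil) (node (nat_lit 4) (nat_lit 109296) (nat_lit 6) (node (nat_lit 5) (nat_lit 94715)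
  (nat_lit 7) (node (nat_lit 6) (nat_lit 62924) (nat_lit 8) nil nil) nil) nil)) (node (nat_lit 0)
  (nat_lit 108027) (nat_lit 5) nil (node (nat_lit 2) (nat_lit 96027) (nat_lit 5) (node (nat_lit 6)
  (nat_lit 96685) (nat_lit 6) nil nil) nil))))) (node (nat_lit 4) (nat_lit 115198) (nat_lit 4)
  (node (nat_lit 3) (nat_lit 119386) (nat_lit 5) (node (nat_lit 4) (nat_lit 121521) (nat_lit 6)
  (node (nat_lit 5) (nat_lit 122207) (nat_lit 7) (node (nat_lit 6) (nat_lit 122207) (nat_lit 8)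
  nil nil) nil) nil) (node (nat_lit 5) (nat_lit 60139) (nat_lit 5) nil (node (nat_lit 6) (nat_lit
  117217) (nat_lit 5) nil nil))) (node (nat_lit 0) (nat_lit 117229) (nat_lit 4) (node (nat_lit 6)
  (nat_lit 117229) (nat_lit 5) nil (node (nat_lit 3) (nat_lit 117229) (nat_lit 5) nil (node
  (nat_lit 4) (nat_lit 119135) (nat_lit 5) (node (nat_lit 6) (nat_lit 119135) (nat_lit 6) nil nil)
  nil))) (node (nat_lit 2) (nat_lit 0) (nat_lit 4) (node (nat_lit 5) (nat_lit 113880) (nat_lit 5)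
  nil (node (nat_lit 3) (nat_lit 95760) (nat_lit 5) (node (nat_lit 6) (nat_lit 96780) (nat_lit 6)
  nil (node (nat_lit 4) (nat_lit 98138) (nat_lit 6) nil nil)) (node (nat_lit 6) (nat_lit 98461)
  (nat_lit 5) (node (nat_lit 4) (nat_lit 107894) (nat_lit 6) (node (nat_lit 5) (nat_lit 94715)
  (nat_lit 7) (node (nat_lit 6) (nat_lit 59784) (nat_lit 8) nil nil) nil) (node (nat_lit 5)
  (nat_lit 107894) (nat_lit 6) nil nil)) (node (nat_lit 4) (nat_lit 113880) (nat_lit 5) (node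
  (nat_lit 6) (nat_lit 113880) (nat_lit 6) (node (nat_lit 4) (nat_lit 115502) (nat_lit 7) nil nil)
  nil) (node (nat_lit 0) (nat_lit 108027) (nat_lit 5) nil nil))))) nil))))) (node (nat_lit 4)
  (nat_lit 0) (nat_lit 3) (node (nat_lit 3) (nat_lit 107798) (nat_lit 4) (node (nat_lit 3)
  (nat_lit 111454) (nat_lit 5) (node (nat_lit 7) (nat_lit 112802) (nat_lit 6) nil (node (nat_lit
  4) (nat_lit 121789) (nat_lit 6) (node (nat_lit 5) (nat_lit 106744) (nat_lit 7) (node (nat_lit 4)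
  (nat_lit 70731) (nat_lit 8) nil nil) nil) nil)) (node (nat_lit 5) (nat_lit 131072) (nat_lit 5)
  (node (nat_lit 7) (nat_lit 130680) (nat_lit 6) (node (nat_lit 4) (nat_lit 135524) (nat_lit 7)
  (node (nat_lit 5) (nat_lit 136271) (nat_lit 8) (node (nat_lit 4) (nat_lit 136849) (nat_lit 9)
  (node (nat_lit 7) (nat_lit 136849) (nat_lit 10) (node (nat_lit 5) (nat_lit 67493) (nat_lit 11)
  nil nil) nil) nil) nil) nil) (node (nat_lit 3) (nat_lit 131650) (nat_lit 6) (node (nat_lit 4)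
  (nat_lit 134386) (nat_lit 7) (node (nat_lit 5) (nat_lit 134935) (nat_lit 8) (node (nat_lit 4)
  (nat_lit 135242) (nat_lit 9) nil nil) nil) nil) nil)) (node (nat_lit 4) (nat_lit 128081)
  (nat_lit 5) (node (nat_lit 5) (nat_lit 132541) (nat_lit 6) nil nil) nil))) (node (nat_lit 0)
  (nat_lit 122589) (nat_lit 4) (node (nat_lit 3) (nat_lit 122589) (nat_lit 5) nil (node (nat_lit
  4) (nat_lit 131660) (nat_lit 5) nil nil)) (node (nat_lit 2) (nat_lit 108739) (nat_lit 4) (node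
  (nat_lit 3) (nat_lit 111150) (nat_lit 5) (node (nat_lit 4) (nat_lit 121354) (nat_lit 6) (node
  (nat_lit 5) (nat_lit 106744) (nat_lit 7) (node (nat_lit 4) (nat_lit 66589) (nat_lit 8) nil nil)
  nil) nil) (node (nat_lit 4) (nat_lit 129318) (nat_lit 5) nil nil)) nil))) (node (nat_lit 0)
  (nat_lit 0) (nat_lit 3) (node (nat_lit 3) (nat_lit 106345) (nat_lit 4) (node (nat_lit 5)
  (nat_lit 111455) (nat_lit 5) nil (node (nat_lit 3) (nat_lit 106345) (nat_lit 5) (node (nat_lit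
  7) (nat_lit 106003) (nat_lit 6) nil nil) (node (nat_lit 4) (nat_lit 113535) (nat_lit 5) (node
  (nat_lit 5) (nat_lit 114305) (nat_lit 6) nil nil) nil))) (node (nat_lit 5) (nat_lit 121573)
  (nat_lit 4) (node (nat_lit 3) (nat_lit 121573) (nat_lit 5) nil nil) (node (nat_lit 0) (nat_lit
  115740) (nat_lit 4) nil (node (nat_lit 4) (nat_lit 120775) (nat_lit 4) (node (nat_lit 3)
  (nat_lit 120775) (nat_lit 5) nil (node (nat_lit 5) (nat_lit 122386) (nat_lit 5) nil nil)) (node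
  (nat_lit 2) (nat_lit 106345) (nat_lit 4) (node (nat_lit 5) (nat_lit 113535) (nat_lit 5) nil
  (node (nat_lit 3) (nat_lit 106345) (nat_lit 5) (node (nat_lit 4) (nat_lit 97177) (nat_lit 6) nil
  nil) (node (nat_lit 6) (nat_lit 113535) (nat_lit 5) nil nil))) nil))))) (node (nat_lit 2)
  (nat_lit 0) (nat_lit 3) (node (nat_lit 3) (nat_lit 0) (nat_lit 4) (node (nat_lit 5) (nat_lit
  113755) (nat_lit 5) nil (node (nat_lit 3) (nat_lit 95536) (nat_lit 5) (node (nat_lit 4) (nat_lit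
  92429) (nat_lit 6) (node (nat_lit 7) (nat_lit 95127) (nat_lit 7) nil (node (nat_lit 5) (nat_lit
  62466) (nat_lit 7) nil nil)) (node (nat_lit 7) (nat_lit 97637) (nat_lit 6) nil (node (nat_lit 5)
  (nat_lit 103547) (nat_lit 6) nil nil))) (node (nat_lit 4) (nat_lit 110801) (nat_lit 5) (node
  (nat_lit 5) (nat_lit 78896) (nat_lit 6) nil nil) (node (nat_lit 6) (nat_lit 98682) (nat_lit 5)
  nil (node (nat_lit 0) (nat_lit 105003) (nat_lit 5) nil nil))))) (node (nat_lit 0) (nat_lit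
  113877) (nat_lit 4) (node (nat_lit 3) (nat_lit 113877) (nat_lit 5) nil nil) (node (nat_lit 5)
  (nat_lit 117635) (nat_lit 4) (node (nat_lit 3) (nat_lit 117635) (nat_lit 5) nil (node (nat_lit
  4) (nat_lit 120835) (nat_lit 5) nil nil)) (node (nat_lit 4) (nat_lit 117635) (nat_lit 4) (node
  (nat_lit 3) (nat_lit 117635) (nat_lit 5) nil (node (nat_lit 5) (nat_lit 120279) (nat_lit 5) nil
  nil)) nil)))) nil)))) (node (nat_lit 2) (nat_lit 0) (nat_lit 2) t121 nil))) nil))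

noncomputable def t122 : Tr :=
  (node (nat_lit 6) (nat_lit 0) (nat_lit 5) (node (nat_lit 5) (nat_lit 0) (nat_lit 6) (node
  (nat_lit 4) (nat_lit 0) (nat_lit 7) (node (nat_lit 6) (nat_lit 0) (nat_lit 8) (node (nat_lit 4)
  (nat_lit 0) (nat_lit 9) (node (nat_lit 5) (nat_lit 0) (nat_lit 10) (node (nat_lit 6) (nat_lit
  155865) (nat_lit 11) (node (nat_lit 4) (nat_lit 0) (nat_lit 12) (node (nat_lit 6) (nat_lit
  137787) (nat_lit 13) (node (nat_lit 5) (nat_lit 0) (nat_lit 14) (node (nat_lit 4) (nat_lit 0)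
  (nat_lit 15) (node (nat_lit 5) (nat_lit 83949) (nat_lit 16) (node (nat_lit 6) (nat_lit 83418)
  (nat_lit 17) (node (nat_lit 4) (nat_lit 83124) (nat_lit 18) (node (nat_lit 6) (nat_lit 77333)
  (nat_lit 19) nil nil) (node (nat_lit 5) (nat_lit 83388) (nat_lit 18) (node (nat_lit 4) (nat_lit
  83360) (nat_lit 19) nil nil) nil)) nil) (node (nat_lit 0) (nat_lit 83949) (nat_lit 16) nil (node
  (nat_lit 2) (nat_lit 83275) (nat_lit 16) nil nil))) (node (nat_lit 6) (nat_lit 0) (nat_lit 15)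
  (node (nat_lit 4) (nat_lit 86441) (nat_lit 16) (node (nat_lit 5) (nat_lit 86716) (nat_lit 17)
  (node (nat_lit 4) (nat_lit 86981) (nat_lit 18) (node (nat_lit 6) (nat_lit 87148) (nat_lit 19)
  (node (nat_lit 4) (nat_lit 87310) (nat_lit 20) (node (nat_lit 5) (nat_lit 87411) (nat_lit 21)
  (node (nat_lit 6) (nat_lit 87491) (nat_lit 22) (node (nat_lit 5) (nat_lit 87554) (nat_lit 23)
  (node (nat_lit 4) (nat_lit 87632) (nat_lit 24) (node (nat_lit 6) (nat_lit 87670) (nat_lit 25)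
  nil nil) nil) (node (nat_lit 4) (nat_lit 87554) (nat_lit 23) (node (nat_lit 6) (nat_lit 87507)
  (nat_lit 24) (node (nat_lit 5) (nat_lit 87497) (nat_lit 25) (node (nat_lit 4) (nat_lit 87491)
  (nat_lit 26) (node (nat_lit 6) (nat_lit 87513) (nat_lit 27) (node (nat_lit 4) (nat_lit 87531)
  (nat_lit 28) (node (nat_lit 5) (nat_lit 87545) (nat_lit 29) nil nil) nil) nil) nil) nil) nil)
  nil)) nil) nil) (node (nat_lit 5) (nat_lit 87279) (nat_lit 20) nil nil)) nil) (node (nat_lit 6)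
  (nat_lit 86932) (nat_lit 18) (node (nat_lit 5) (nat_lit 86476) (nat_lit 19) nil nil) nil)) nil)
  (node (nat_lit 0) (nat_lit 86215) (nat_lit 16) nil (node (nat_lit 2) (nat_lit 85541) (nat_lit
  16) nil nil))) (node (nat_lit 0) (nat_lit 86051) (nat_lit 15) (node (nat_lit 6) (nat_lit 86403)
  (nat_lit 16) (node (nat_lit 5) (nat_lit 85650) (nat_lit 17) nil nil) (node (nat_lit 5) (nat_lit
  86403) (nat_lit 16) (node (nat_lit 4) (nat_lit 86678) (nat_lit 17) nil nil) (node (nat_lit 4)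
  (nat_lit 86403) (nat_lit 16) nil nil))) (node (nat_lit 2) (nat_lit 85864) (nat_lit 15) (node
  (nat_lit 6) (nat_lit 86215) (nat_lit 16) (node (nat_lit 5) (nat_lit 85462) (nat_lit 17) nil nil)
  (node (nat_lit 5) (nat_lit 86215) (nat_lit 16) (node (nat_lit 4) (nat_lit 84762) (nat_lit 17)
  nil nil) (node (nat_lit 4) (nat_lit 86215) (nat_lit 16) nil nil))) nil)))) nil) (node (nat_lit
  2) (nat_lit 142027) (nat_lit 13) nil (node (nat_lit 0) (nat_lit 145261) (nat_lit 13) nil nil)))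
  (node (nat_lit 5) (nat_lit 157999) (nat_lit 12) (node (nat_lit 4) (nat_lit 157916) (nat_lit 13)
  (node (nat_lit 5) (nat_lit 159215) (nat_lit 14) (node (nat_lit 6) (nat_lit 160232) (nat_lit 15)
  (node (nat_lit 4) (nat_lit 161023) (nat_lit 16) (node (nat_lit 6) (nat_lit 160730) (nat_lit 17)
  (node (nat_lit 5) (nat_lit 154688) (nat_lit 18) (node (nat_lit 4) (nat_lit 152404) (nat_lit 19)
  (node (nat_lit 6) (nat_lit 138136) (nat_lit 20) (node (nat_lit 4) (nat_lit 123305) (nat_lit 21)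
  (node (nat_lit 5) (nat_lit 87550) (nat_lit 22) nil nil) nil) nil) nil) nil) nil) nil) nil) nil)
  nil) nil)) (node (nat_lit 4) (nat_lit 166322) (nat_lit 11) (node (nat_lit 6) (nat_lit 167589)
  (nat_lit 12) (node (nat_lit 5) (nat_lit 169258) (nat_lit 13) (node (nat_lit 4) (nat_lit 170557)
  (nat_lit 14) (node (nat_lit 5) (nat_lit 171148) (nat_lit 15) (node (nat_lit 6) (nat_lit 170259)
  (nat_lit 16) (node (nat_lit 4) (nat_lit 169015) (nat_lit 17) (node (nat_lit 6) (nat_lit 166738)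
  (nat_lit 18) (node (nat_lit 5) (nat_lit 163402) (nat_lit 19) (node (nat_lit 4) (nat_lit 157954)
  (nat_lit 20) (node (nat_lit 6) (nat_lit 148343) (nat_lit 21) (node (nat_lit 4) (nat_lit 135885)
  (nat_lit 22) (node (nat_lit 5) (nat_lit 114009) (nat_lit 23) (node (nat_lit 4) (nat_lit 87550)
  (nat_lit 24) nil nil) nil) nil) nil) nil) nil) nil) nil) nil) nil) nil) nil) nil) (node (nat_lit
  0) (nat_lit 167463) (nat_lit 11) nil (node (nat_lit 2) (nat_lit 162019) (nat_lit 11) nil nil))))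
  (node (nat_lit 0) (nat_lit 166231) (nat_lit 10) nil (node (nat_lit 2) (nat_lit 159442) (nat_lit
  10) (node (nat_lit 6) (nat_lit 158856) (nat_lit 11) nil nil) nil))) (node (nat_lit 0) (nat_lit
  162539) (nat_lit 9) nil (node (nat_lit 2) (nat_lit 160759) (nat_lit 9) nil nil))) (node (nat_lit
  5) (nat_lit 0) (nat_lit 8) (node (nat_lit 6) (nat_lit 0) (nat_lit 9) (node (nat_lit 4) (nat_lit
  0) (nat_lit 10) (node (nat_lit 5) (nat_lit 0) (nat_lit 11) (node (nat_lit 4) (nat_lit 0)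
  (nat_lit 12) (node (nat_lit 6) (nat_lit 87550) (nat_lit 13) (node (nat_lit 5) (nat_lit 87550)
  (nat_lit 14) (node (nat_lit 6) (nat_lit 87550) (nat_lit 15) (node (nat_lit 4) (nat_lit 87550)
  (nat_lit 16) (node (nat_lit 5) (nat_lit 87550) (nat_lit 17) (node (nat_lit 6) (nat_lit 87550)
  (nat_lit 18) (node (nat_lit 5) (nat_lit 87550) (nat_lit 19) (node (nat_lit 4) (nat_lit 87550)
  (nat_lit 20) (node (nat_lit 5) (nat_lit 87550) (nat_lit 21) (node (nat_lit 6) (nat_lit 87550)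
  (nat_lit 22) (node (nat_lit 4) (nat_lit 87550) (nat_lit 23) (node (nat_lit 6) (nat_lit 87550)
  (nat_lit 24) (node (nat_lit 5) (nat_lit 87550) (nat_lit 25) (node (nat_lit 4) (nat_lit 87550)
  (nat_lit 26) nil nil) nil) nil) nil) nil) nil) nil) nil) nil) (node (nat_lit 6) (nat_lit 87550)
  (nat_lit 17) (node (nat_lit 5) (nat_lit 87550) (nat_lit 18) (node (nat_lit 4) (nat_lit 87550)
  (nat_lit 19) (node (nat_lit 5) (nat_lit 87550) (nat_lit 20) (node (nat_lit 6) (nat_lit 87550)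
  (nat_lit 21) nil nil) nil) nil) nil) nil)) nil) (node (nat_lit 4) (nat_lit 87550) (nat_lit 15)
  (node (nat_lit 5) (nat_lit 87550) (nat_lit 16) (node (nat_lit 6) (nat_lit 87550) (nat_lit 17)
  (node (nat_lit 4) (nat_lit 87550) (nat_lit 18) (node (nat_lit 6) (nat_lit 87550) (nat_lit 19)
  (node (nat_lit 5) (nat_lit 87550) (nat_lit 20) (node (nat_lit 4) (nat_lit 87550) (nat_lit 21)
  nil nil) nil) nil) (node (nat_lit 5) (nat_lit 87550) (nat_lit 18) (node (nat_lit 4) (nat_lit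
  87550) (nat_lit 19) nil nil) nil)) nil) nil) nil)) (node (nat_lit 4) (nat_lit 87550) (nat_lit
  14) (node (nat_lit 5) (nat_lit 87550) (nat_lit 15) (node (nat_lit 6) (nat_lit 87550) (nat_lit
  16) (node (nat_lit 5) (nat_lit 87550) (nat_lit 17) nil (node (nat_lit 4) (nat_lit 87550)
  (nat_lit 17) (node (nat_lit 6) (nat_lit 87550) (nat_lit 18) (node (nat_lit 5) (nat_lit 87550)
  (nat_lit 19) (node (nat_lit 4) (nat_lit 87550) (nat_lit 20) (node (nat_lit 5) (nat_lit 83874)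
  (nat_lit 21) (node (nat_lit 6) (nat_lit 69387) (nat_lit 22) nil nil) nil) nil) nil) nil) nil))
  nil) nil) nil)) (node (nat_lit 0) (nat_lit 87550) (nat_lit 13) nil (node (nat_lit 2) (nat_lit
  87550) (nat_lit 13) nil nil))) (node (nat_lit 0) (nat_lit 87550) (nat_lit 12) (node (nat_lit 5)
  (nat_lit 87550) (nat_lit 13) (node (nat_lit 4) (nat_lit 87550) (nat_lit 14) nil nil) (node
  (nat_lit 4) (nat_lit 87550) (nat_lit 13) (node (nat_lit 5) (nat_lit 87550) (nat_lit 14) nil nil)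
  nil)) (node (nat_lit 2) (nat_lit 87550) (nat_lit 12) (node (nat_lit 4) (nat_lit 87550) (nat_lit
  13) (node (nat_lit 5) (nat_lit 87550) (nat_lit 14) nil nil) (node (nat_lit 5) (nat_lit 87550)
  (nat_lit 13) (node (nat_lit 4) (nat_lit 87550) (nat_lit 14) nil nil) nil)) nil))) (node (nat_lit
  6) (nat_lit 0) (nat_lit 11) (node (nat_lit 0) (nat_lit 62151) (nat_lit 12) (node (nat_lit 4)
  (nat_lit 62151) (nat_lit 13) (node (nat_lit 6) (nat_lit 62151) (nat_lit 14) (node (nat_lit 4)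
  (nat_lit 62151) (nat_lit 15) (node (nat_lit 5) (nat_lit 62669) (nat_lit 16) nil nil) (node
  (nat_lit 5) (nat_lit 62583) (nat_lit 15) nil nil)) nil) (node (nat_lit 6) (nat_lit 62151)
  (nat_lit 13) (node (nat_lit 4) (nat_lit 62151) (nat_lit 14) (node (nat_lit 5) (nat_lit 62583)
  (nat_lit 15) nil nil) (node (nat_lit 5) (nat_lit 62473) (nat_lit 14) nil nil)) (node (nat_lit 5)
  (nat_lit 62331) (nat_lit 13) (node (nat_lit 4) (nat_lit 62331) (nat_lit 14) nil nil) nil)))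
  (node (nat_lit 2) (nat_lit 59147) (nat_lit 12) (node (nat_lit 4) (nat_lit 59147) (nat_lit 13)
  (node (nat_lit 6) (nat_lit 59147) (nat_lit 14) (node (nat_lit 4) (nat_lit 59208) (nat_lit 15)
  (node (nat_lit 15) (nat_lit 59853) (nat_lit 16) nil (node (nat_lit 5) (nat_lit 61122) (nat_lit
  16) (node (nat_lit 6) (nat_lit 61122) (nat_lit 17) nil nil) nil)) (node (nat_lit 5) (nat_lit
  60975) (nat_lit 15) (node (nat_lit 4) (nat_lit 60975) (nat_lit 16) nil nil) nil)) (node (nat_lit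
  15) (nat_lit 59147) (nat_lit 14) nil nil)) (node (nat_lit 6) (nat_lit 59147) (nat_lit 13) (node
  (nat_lit 4) (nat_lit 59147) (nat_lit 14) (node (nat_lit 15) (nat_lit 59147) (nat_lit 15) nil
  (node (nat_lit 5) (nat_lit 60975) (nat_lit 15) nil nil)) (node (nat_lit 5) (nat_lit 60865)
  (nat_lit 14) (node (nat_lit 4) (nat_lit 60865) (nat_lit 15) nil nil) nil)) (node (nat_lit 5)
  (nat_lit 61999) (nat_lit 13) (node (nat_lit 4) (nat_lit 61999) (nat_lit 14) nil nil) (node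
  (nat_lit 0) (nat_lit 60723) (nat_lit 13) nil nil)))) nil)) (node (nat_lit 0) (nat_lit 87550)
  (nat_lit 11) (node (nat_lit 4) (nat_lit 87550) (nat_lit 12) (node (nat_lit 6) (nat_lit 87550)
  (nat_lit 13) nil nil) (node (nat_lit 6) (nat_lit 87550) (nat_lit 12) (node (nat_lit 4) (nat_lit
  87550) (nat_lit 13) nil (node (nat_lit 5) (nat_lit 87550) (nat_lit 13) nil nil)) (node (nat_lit
  5) (nat_lit 87550) (nat_lit 12) (node (nat_lit 4) (nat_lit 87550) (nat_lit 13) (node (nat_lit 5)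
  (nat_lit 87550) (nat_lit 14) nil nil) nil) (node (nat_lit 0) (nat_lit 87550) (nat_lit 12) nil
  (node (nat_lit 2) (nat_lit 87550) (nat_lit 12) nil nil))))) (node (nat_lit 2) (nat_lit 87550)
  (nat_lit 11) (node (nat_lit 4) (nat_lit 87550) (nat_lit 12) (node (nat_lit 6) (nat_lit 87550)
  (nat_lit 13) (node (nat_lit 5) (nat_lit 87550) (nat_lit 14) nil (node (nat_lit 4) (nat_lit
  87550) (nat_lit 14) nil nil)) (node (nat_lit 5) (nat_lit 87550) (nat_lit 13) nil nil)) (node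
  (nat_lit 6) (nat_lit 87550) (nat_lit 12) (node (nat_lit 4) (nat_lit 87550) (nat_lit 13) nil
  (node (nat_lit 5) (nat_lit 87550) (nat_lit 13) nil (node (nat_lit 14) (nat_lit 87550) (nat_lit
  13) nil nil))) (node (nat_lit 5) (nat_lit 87550) (nat_lit 12) (node (nat_lit 4) (nat_lit 87550)
  (nat_lit 13) nil (node (nat_lit 6) (nat_lit 87550) (nat_lit 13) nil nil)) (node (nat_lit 0)
  (nat_lit 87550) (nat_lit 12) nil nil)))) nil)))) (node (nat_lit 5) (nat_lit 0) (nat_lit 10)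
  (node (nat_lit 4) (nat_lit 0) (nat_lit 11) (node (nat_lit 6) (nat_lit 149937) (nat_lit 12) (node
  (nat_lit 4) (nat_lit 150405) (nat_lit 13) (node (nat_lit 5) (nat_lit 151288) (nat_lit 14) (node
  (nat_lit 6) (nat_lit 151288) (nat_lit 15) (node (nat_lit 4) (nat_lit 151557) (nat_lit 16) (node
  (nat_lit 6) (nat_lit 151249) (nat_lit 17) (node (nat_lit 5) (nat_lit 145103) (nat_lit 18) (node
  (nat_lit 4) (nat_lit 135711) (nat_lit 19) (node (nat_lit 5) (nat_lit 118552) (nat_lit 20) (node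
  (nat_lit 6) (nat_lit 100339) (nat_lit 21) (node (nat_lit 5) (nat_lit 78080) (nat_lit 22) (node
  (nat_lit 4) (nat_lit 68096) (nat_lit 23) nil nil) nil) nil) nil) nil) nil) nil) nil) nil) nil)
  nil) (node (nat_lit 0) (nat_lit 150502) (nat_lit 12) nil (node (nat_lit 2) (nat_lit 147002)
  (nat_lit 12) nil nil))) (node (nat_lit 0) (nat_lit 149937) (nat_lit 11) (node (nat_lit 6)
  (nat_lit 149937) (nat_lit 12) nil nil) (node (nat_lit 2) (nat_lit 146116) (nat_lit 11) (node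
  (nat_lit 6) (nat_lit 148624) (nat_lit 12) nil (node (nat_lit 5) (nat_lit 149021) (nat_lit 12)
  (node (nat_lit 4) (nat_lit 149021) (nat_lit 13) nil nil) (node (nat_lit 4) (nat_lit 145990)
  (nat_lit 12) nil nil))) nil))) (node (nat_lit 0) (nat_lit 147318) (nat_lit 10) (node (nat_lit 4)
  (nat_lit 147318) (nat_lit 11) (node (nat_lit 6) (nat_lit 147462) (nat_lit 12) nil nil) (node
  (nat_lit 5) (nat_lit 148951) (nat_lit 11) (node (nat_lit 4) (nat_lit 148951) (nat_lit 12) nil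
  nil) (node (nat_lit 6) (nat_lit 148617) (nat_lit 11) (node (nat_lit 4) (nat_lit 149937) (nat_lit
  12) nil nil) nil))) (node (nat_lit 2) (nat_lit 143740) (nat_lit 10) (node (nat_lit 4) (nat_lit
  144859) (nat_lit 11) (node (nat_lit 6) (nat_lit 146192) (nat_lit 12) nil nil) (node (nat_lit 5)
  (nat_lit 148761) (nat_lit 11) (node (nat_lit 4) (nat_lit 147159) (nat_lit 12) (node (nat_lit 6)
  (nat_lit 147277) (nat_lit 13) nil nil) nil) (node (nat_lit 6) (nat_lit 145275) (nat_lit 11)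
  (node (nat_lit 5) (nat_lit 145494) (nat_lit 12) nil (node (nat_lit 4) (nat_lit 147350) (nat_lit
  12) (node (nat_lit 5) (nat_lit 144714) (nat_lit 13) nil nil) nil)) (node (nat_lit 0) (nat_lit
  147462) (nat_lit 11) nil nil)))) nil)))) (node (nat_lit 0) (nat_lit 155975) (nat_lit 9) (node
  (nat_lit 6) (nat_lit 155094) (nat_lit 10) nil nil) (node (nat_lit 2) (nat_lit 155975) (nat_lit
  9) (node (nat_lit 5) (nat_lit 158204) (nat_lit 10) nil (node (nat_lit 6) (nat_lit 156098)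
  (nat_lit 10) nil nil)) nil))) nil)) (node (nat_lit 6) (nat_lit 0) (nat_lit 7) (node (nat_lit 4)
  (nat_lit 152788) (nat_lit 8) (node (nat_lit 5) (nat_lit 156227) (nat_lit 9) (node (nat_lit 4)
  (nat_lit 154643) (nat_lit 10) (node (nat_lit 6) (nat_lit 155477) (nat_lit 11) (node (nat_lit 4)
  (nat_lit 156729) (nat_lit 12) (node (nat_lit 5) (nat_lit 157646) (nat_lit 13) (node (nat_lit 6)
  (nat_lit 154545) (nat_lit 14) (node (nat_lit 4) (nat_lit 152900) (nat_lit 15) (node (nat_lit 6)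
  (nat_lit 146133) (nat_lit 16) (node (nat_lit 5) (nat_lit 138966) (nat_lit 17) (node (nat_lit 6)
  (nat_lit 124861) (nat_lit 18) (node (nat_lit 4) (nat_lit 103651) (nat_lit 19) (node (nat_lit 5)
  (nat_lit 81605) (nat_lit 20) nil nil) nil) nil) nil) nil) nil) nil) nil) (node (nat_lit 5)
  (nat_lit 156795) (nat_lit 12) (node (nat_lit 4) (nat_lit 157831) (nat_lit 13) (node (nat_lit 5)
  (nat_lit 158638) (nat_lit 14) (node (nat_lit 6) (nat_lit 159269) (nat_lit 15) (node (nat_lit 4)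
  (nat_lit 159759) (nat_lit 16) (node (nat_lit 6) (nat_lit 159144) (nat_lit 17) (node (nat_lit 5)
  (nat_lit 155002) (nat_lit 18) (node (nat_lit 6) (nat_lit 145306) (nat_lit 19) (node (nat_lit 4)
  (nat_lit 132868) (nat_lit 20) (node (nat_lit 5) (nat_lit 116245) (nat_lit 21) (node (nat_lit 4)
  (nat_lit 65161) (nat_lit 22) (node (nat_lit 6) (nat_lit 58401) (nat_lit 23) nil nil) nil) nil)
  nil) nil) nil) nil) nil) nil) nil) nil) nil)) nil) (node (nat_lit 6) (nat_lit 158322) (nat_lit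
  10) (node (nat_lit 5) (nat_lit 159983) (nat_lit 11) (node (nat_lit 4) (nat_lit 159013) (nat_lit
  12) (node (nat_lit 6) (nat_lit 160021) (nat_lit 13) (node (nat_lit 4) (nat_lit 160641) (nat_lit
  14) (node (nat_lit 5) (nat_lit 161474) (nat_lit 15) (node (nat_lit 6) (nat_lit 160015) (nat_lit
  16) (node (nat_lit 4) (nat_lit 159883) (nat_lit 17) (node (nat_lit 6) (nat_lit 157008) (nat_lit
  18) (node (nat_lit 5) (nat_lit 153020) (nat_lit 19) (node (nat_lit 6) (nat_lit 148122) (nat_lit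
  20) (node (nat_lit 4) (nat_lit 139177) (nat_lit 21) (node (nat_lit 5) (nat_lit 122021) (nat_lit
  22) (node (nat_lit 6) (nat_lit 104421) (nat_lit 23) (node (nat_lit 5) (nat_lit 82125) (nat_lit
  24) (node (nat_lit 4) (nat_lit 79040) (nat_lit 25) nil nil) nil) nil) nil) nil) nil) nil) nil)
  nil) nil) nil) nil) (node (nat_lit 5) (nat_lit 160049) (nat_lit 13) (node (nat_lit 6) (nat_lit
  160856) (nat_lit 14) (node (nat_lit 4) (nat_lit 161487) (nat_lit 15) (node (nat_lit 6) (nat_lit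
  161977) (nat_lit 16) (node (nat_lit 5) (nat_lit 152846) (nat_lit 17) (node (nat_lit 6) (nat_lit
  142016) (nat_lit 18) (node (nat_lit 4) (nat_lit 129207) (nat_lit 19) (node (nat_lit 5) (nat_lit
  85675) (nat_lit 20) (node (nat_lit 6) (nat_lit 58376) (nat_lit 21) nil nil) nil) nil) nil) nil)
  nil) nil) nil) nil)) nil) nil) nil)) nil) nil) nil)) nil) (node (nat_lit 5) (nat_lit 0) (nat_lit
  5) (node (nat_lit 4) (nat_lit 0) (nat_lit 6) (node (nat_lit 6) (nat_lit 0) (nat_lit 7) (node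
  (nat_lit 5) (nat_lit 74120) (nat_lit 8) (node (nat_lit 6) (nat_lit 76576) (nat_lit 9) (node
  (nat_lit 4) (nat_lit 81155) (nat_lit 10) (node (nat_lit 6) (nat_lit 82371) (nat_lit 11) (node
  (nat_lit 5) (nat_lit 83319) (nat_lit 12) (node (nat_lit 4) (nat_lit 84806) (nat_lit 13) (node
  (nat_lit 5) (nat_lit 84891) (nat_lit 14) (node (nat_lit 6) (nat_lit 84957) (nat_lit 15) (node
  (nat_lit 4) (nat_lit 83949) (nat_lit 16) (node (nat_lit 5) (nat_lit 83837) (nat_lit 17) (node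
  (nat_lit 4) (nat_lit 80544) (nat_lit 18) (node (nat_lit 6) (nat_lit 75478) (nat_lit 19) (node
  (nat_lit 5) (nat_lit 64180) (nat_lit 20) nil nil) nil) nil) nil) nil) nil) nil) nil) nil) nil)
  nil) (node (nat_lit 4) (nat_lit 78105) (nat_lit 9) (node (nat_lit 5) (nat_lit 79664) (nat_lit
  10) (node (nat_lit 6) (nat_lit 80880) (nat_lit 11) (node (nat_lit 5) (nat_lit 79145) (nat_lit
  12) (node (nat_lit 4) (nat_lit 79059) (nat_lit 13) nil nil) (node (nat_lit 4) (nat_lit 0)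
  (nat_lit 12) (node (nat_lit 5) (nat_lit 40131) (nat_lit 13) nil (node (nat_lit 6) (nat_lit
  58149) (nat_lit 13) (node (nat_lit 5) (nat_lit 57921) (nat_lit 14) (node (nat_lit 4) (nat_lit
  57711) (nat_lit 15) nil nil) nil) (node (nat_lit 0) (nat_lit 59632) (nat_lit 13) nil (node
  (nat_lit 2) (nat_lit 58149) (nat_lit 13) nil nil)))) nil)) nil) nil) nil)) (node (nat_lit 4)
  (nat_lit 0) (nat_lit 8) (node (nat_lit 5) (nat_lit 79504) (nat_lit 9) (node (nat_lit 6) (nat_lit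
  81063) (nat_lit 10) (node (nat_lit 5) (nat_lit 82279) (nat_lit 11) (node (nat_lit 4) (nat_lit
  84295) (nat_lit 12) (node (nat_lit 5) (nat_lit 85036) (nat_lit 13) (node (nat_lit 6) (nat_lit
  84678) (nat_lit 14) (node (nat_lit 4) (nat_lit 83357) (nat_lit 15) (node (nat_lit 5) (nat_lit
  80138) (nat_lit 16) (node (nat_lit 4) (nat_lit 70168) (nat_lit 17) (node (nat_lit 6) (nat_lit
  63811) (nat_lit 18) (node (nat_lit 4) (nat_lit 39994) (nat_lit 19) nil nil) nil) nil) nil) nil)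
  nil) nil) nil) (node (nat_lit 4) (nat_lit 83448) (nat_lit 11) (node (nat_lit 6) (nat_lit 84396)
  (nat_lit 12) (node (nat_lit 5) (nat_lit 85137) (nat_lit 13) (node (nat_lit 4) (nat_lit 85826)
  (nat_lit 14) (node (nat_lit 5) (nat_lit 86277) (nat_lit 15) (node (nat_lit 6) (nat_lit 86492)
  (nat_lit 16) (node (nat_lit 4) (nat_lit 85610) (nat_lit 17) (node (nat_lit 5) (nat_lit 84737)
  (nat_lit 18) (node (nat_lit 4) (nat_lit 82270) (nat_lit 19) (node (nat_lit 6) (nat_lit 78651)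
  (nat_lit 20) (node (nat_lit 4) (nat_lit 74028) (nat_lit 21) (node (nat_lit 5) (nat_lit 58664)
  (nat_lit 22) (node (nat_lit 6) (nat_lit 37278) (nat_lit 23) nil nil) nil) nil) nil) nil) nil)
  nil) nil) nil) nil) nil) nil) nil)) nil) (node (nat_lit 0) (nat_lit 79504) (nat_lit 9) nil (node
  (nat_lit 2) (nat_lit 75692) (nat_lit 9) nil nil))) nil)) nil) nil) nil))

noncomputable def t123 : Tr :=
  (node (nat_lit 4) (nat_lit 0) (nat_lit 7) (node (nat_lit 5) (nat_lit 0) (nat_lit 8) (node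
  (nat_lit 6) (nat_lit 0) (nat_lit 9) (node (nat_lit 5) (nat_lit 0) (nat_lit 10) (node (nat_lit 4)
  (nat_lit 65654) (nat_lit 11) nil (node (nat_lit 0) (nat_lit 101244) (nat_lit 11) (node (nat_lit
  5) (nat_lit 103379) (nat_lit 12) (node (nat_lit 4) (nat_lit 105168) (nat_lit 13) (node (nat_lit
  5) (nat_lit 106467) (nat_lit 14) (node (nat_lit 6) (nat_lit 106614) (nat_lit 15) nil nil) (node
  (nat_lit 6) (nat_lit 103080) (nat_lit 14) nil nil)) (node (nat_lit 6) (nat_lit 105048) (nat_lit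
  13) (node (nat_lit 4) (nat_lit 106347) (nat_lit 14) nil nil) nil)) (node (nat_lit 6) (nat_lit
  103379) (nat_lit 12) (node (nat_lit 5) (nat_lit 105048) (nat_lit 13) nil nil) (node (nat_lit 4)
  (nat_lit 103650) (nat_lit 12) (node (nat_lit 5) (nat_lit 105319) (nat_lit 13) nil nil) (node
  (nat_lit 0) (nat_lit 103379) (nat_lit 12) nil (node (nat_lit 2) (nat_lit 99155) (nat_lit 12) nil
  nil))))) (node (nat_lit 2) (nat_lit 98492) (nat_lit 11) (node (nat_lit 5) (nat_lit 100478)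
  (nat_lit 12) (node (nat_lit 4) (nat_lit 104004) (nat_lit 13) (node (nat_lit 5) (nat_lit 105304)
  (nat_lit 14) (node (nat_lit 6) (nat_lit 98498) (nat_lit 15) nil nil) (node (nat_lit 6) (nat_lit
  101917) (nat_lit 14) nil nil)) (node (nat_lit 6) (nat_lit 102063) (nat_lit 13) (node (nat_lit 4)
  (nat_lit 103363) (nat_lit 14) nil nil) nil)) (node (nat_lit 6) (nat_lit 99741) (nat_lit 12)
  (node (nat_lit 5) (nat_lit 101395) (nat_lit 13) nil (node (nat_lit 14) (nat_lit 101694) (nat_lit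
  13) nil nil)) (node (nat_lit 4) (nat_lit 102731) (nat_lit 12) (node (nat_lit 5) (nat_lit 104400)
  (nat_lit 13) nil nil) (node (nat_lit 0) (nat_lit 100626) (nat_lit 12) nil nil)))) nil))) (node
  (nat_lit 4) (nat_lit 0) (nat_lit 10) (node (nat_lit 6) (nat_lit 0) (nat_lit 11) (node (nat_lit
  5) (nat_lit 0) (nat_lit 12) (node (nat_lit 4) (nat_lit 0) (nat_lit 13) (node (nat_lit 6)
  (nat_lit 0) (nat_lit 14) (node (nat_lit 4) (nat_lit 123370) (nat_lit 15) (node (nat_lit 5)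
  (nat_lit 124161) (nat_lit 16) (node (nat_lit 6) (nat_lit 124253) (nat_lit 17) (node (nat_lit 5)
  (nat_lit 124478) (nat_lit 18) (node (nat_lit 4) (nat_lit 124771) (nat_lit 19) (node (nat_lit 6)
  (nat_lit 125065) (nat_lit 20) nil (node (nat_lit 5) (nat_lit 124601) (nat_lit 20) nil nil)) nil)
  nil) (node (nat_lit 4) (nat_lit 124781) (nat_lit 17) (node (nat_lit 6) (nat_lit 124853) (nat_lit
  18) (node (nat_lit 5) (nat_lit 125027) (nat_lit 19) nil nil) nil) nil)) nil) (node (nat_lit 0)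
  (nat_lit 123297) (nat_lit 15) nil (node (nat_lit 2) (nat_lit 121398) (nat_lit 15) nil nil)))
  (node (nat_lit 5) (nat_lit 0) (nat_lit 14) (node (nat_lit 6) (nat_lit 123297) (nat_lit 15) (node
  (nat_lit 5) (nat_lit 124088) (nat_lit 16) (node (nat_lit 4) (nat_lit 124202) (nat_lit 17) (node
  (nat_lit 6) (nat_lit 124522) (nat_lit 18) (node (nat_lit 4) (nat_lit 123432) (nat_lit 19) (node
  (nat_lit 5) (nat_lit 121288) (nat_lit 20) (node (nat_lit 6) (nat_lit 99901) (nat_lit 21) (node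
  (nat_lit 4) (nat_lit 57323) (nat_lit 22) (node (nat_lit 6) (nat_lit 54240) (nat_lit 23) nil nil)
  nil) nil) nil) nil) nil) nil) (node (nat_lit 4) (nat_lit 124088) (nat_lit 16) (node (nat_lit 5)
  (nat_lit 124708) (nat_lit 17) nil nil) nil)) (node (nat_lit 0) (nat_lit 123297) (nat_lit 15) nil
  (node (nat_lit 2) (nat_lit 121398) (nat_lit 15) nil nil))) (node (nat_lit 0) (nat_lit 122280)
  (nat_lit 14) (node (nat_lit 6) (nat_lit 122427) (nat_lit 15) nil nil) (node (nat_lit 2) (nat_lit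
  122280) (nat_lit 14) (node (nat_lit 6) (nat_lit 120698) (nat_lit 15) nil nil) nil)))) (node
  (nat_lit 6) (nat_lit 120686) (nat_lit 13) (node (nat_lit 4) (nat_lit 121986) (nat_lit 14) (node
  (nat_lit 5) (nat_lit 123002) (nat_lit 15) (node (nat_lit 4) (nat_lit 122997) (nat_lit 16) (node
  (nat_lit 6) (nat_lit 122872) (nat_lit 17) nil nil) (node (nat_lit 6) (nat_lit 123120) (nat_lit
  16) (node (nat_lit 5) (nat_lit 123399) (nat_lit 17) (node (nat_lit 4) (nat_lit 123281) (nat_lit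
  18) (node (nat_lit 6) (nat_lit 123530) (nat_lit 19) (node (nat_lit 4) (nat_lit 123764) (nat_lit
  20) (node (nat_lit 5) (nat_lit 123637) (nat_lit 21) (node (nat_lit 6) (nat_lit 123376) (nat_lit
  22) (node (nat_lit 4) (nat_lit 123517) (nat_lit 23) (node (nat_lit 6) (nat_lit 123530) (nat_lit
  24) (node (nat_lit 5) (nat_lit 68808) (nat_lit 25) nil nil) nil) nil) nil) nil) nil) nil) nil)
  nil) nil)) nil) nil) (node (nat_lit 2) (nat_lit 120686) (nat_lit 13) (node (nat_lit 6) (nat_lit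
  121952) (nat_lit 14) nil (node (nat_lit 4) (nat_lit 121986) (nat_lit 14) nil (node (nat_lit 5)
  (nat_lit 121914) (nat_lit 14) nil nil))) (node (nat_lit 0) (nat_lit 120981) (nat_lit 13) (node
  (nat_lit 6) (nat_lit 122280) (nat_lit 14) nil (node (nat_lit 4) (nat_lit 122280) (nat_lit 14)
  nil (node (nat_lit 5) (nat_lit 122280) (nat_lit 14) nil nil))) nil)))) (node (nat_lit 2)
  (nat_lit 119018) (nat_lit 12) (node (nat_lit 5) (nat_lit 120686) (nat_lit 13) nil (node (nat_lit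
  6) (nat_lit 120686) (nat_lit 13) nil (node (nat_lit 4) (nat_lit 120981) (nat_lit 13) (node
  (nat_lit 6) (nat_lit 122280) (nat_lit 14) nil nil) nil))) (node (nat_lit 0) (nat_lit 119261)
  (nat_lit 12) (node (nat_lit 5) (nat_lit 120929) (nat_lit 13) nil (node (nat_lit 6) (nat_lit
  120929) (nat_lit 13) nil (node (nat_lit 4) (nat_lit 120929) (nat_lit 13) (node (nat_lit 6)
  (nat_lit 121099) (nat_lit 14) nil nil) nil))) nil))) (node (nat_lit 0) (nat_lit 117059) (nat_lit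
  11) (node (nat_lit 4) (nat_lit 119261) (nat_lit 12) (node (nat_lit 5) (nat_lit 120929) (nat_lit
  13) nil (node (nat_lit 6) (nat_lit 120929) (nat_lit 13) nil nil)) (node (nat_lit 5) (nat_lit
  119193) (nat_lit 12) (node (nat_lit 4) (nat_lit 120862) (nat_lit 13) (node (nat_lit 5) (nat_lit
  122161) (nat_lit 14) nil nil) (node (nat_lit 6) (nat_lit 119379) (nat_lit 13) nil nil)) (node
  (nat_lit 6) (nat_lit 119193) (nat_lit 12) (node (nat_lit 4) (nat_lit 120862) (nat_lit 13) nil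
  (node (nat_lit 5) (nat_lit 120862) (nat_lit 13) nil nil)) (node (nat_lit 2) (nat_lit 114970)
  (nat_lit 12) nil (node (nat_lit 0) (nat_lit 119193) (nat_lit 12) nil nil))))) (node (nat_lit 2)
  (nat_lit 116937) (nat_lit 11) (node (nat_lit 4) (nat_lit 119261) (nat_lit 12) (node (nat_lit 5)
  (nat_lit 120929) (nat_lit 13) nil (node (nat_lit 6) (nat_lit 120929) (nat_lit 13) nil nil))
  (node (nat_lit 5) (nat_lit 119072) (nat_lit 12) (node (nat_lit 4) (nat_lit 120981) (nat_lit 13)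
  nil (node (nat_lit 6) (nat_lit 119258) (nat_lit 13) nil nil)) (node (nat_lit 6) (nat_lit 119072)
  (nat_lit 12) (node (nat_lit 4) (nat_lit 120740) (nat_lit 13) nil (node (nat_lit 5) (nat_lit
  120740) (nat_lit 13) nil nil)) (node (nat_lit 0) (nat_lit 119072) (nat_lit 12) nil nil))))
  nil))) (node (nat_lit 0) (nat_lit 0) (nat_lit 10) (node (nat_lit 6) (nat_lit 116801) (nat_lit
  11) (node (nat_lit 4) (nat_lit 119261) (nat_lit 12) (node (nat_lit 5) (nat_lit 120929) (nat_lit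
  13) nil nil) (node (nat_lit 5) (nat_lit 118936) (nat_lit 12) (node (nat_lit 4) (nat_lit 120981)
  (nat_lit 13) nil nil) nil)) (node (nat_lit 5) (nat_lit 116801) (nat_lit 11) (node (nat_lit 6)
  (nat_lit 118936) (nat_lit 12) (node (nat_lit 4) (nat_lit 120604) (nat_lit 13) nil (node (nat_lit
  5) (nat_lit 120604) (nat_lit 13) nil nil)) (node (nat_lit 4) (nat_lit 118936) (nat_lit 12) (node
  (nat_lit 5) (nat_lit 120604) (nat_lit 13) (node (nat_lit 6) (nat_lit 120774) (nat_lit 14) nil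
  nil) nil) (node (nat_lit 13) (nat_lit 119261) (nat_lit 12) nil nil))) (node (nat_lit 4) (nat_lit
  117059) (nat_lit 11) (node (nat_lit 6) (nat_lit 119193) (nat_lit 12) (node (nat_lit 4) (nat_lit
  120862) (nat_lit 13) (node (nat_lit 5) (nat_lit 116896) (nat_lit 14) nil nil) nil) (node
  (nat_lit 5) (nat_lit 119193) (nat_lit 12) (node (nat_lit 6) (nat_lit 119379) (nat_lit 13) nil
  nil) (node (nat_lit 13) (nat_lit 119193) (nat_lit 12) nil nil))) (node (nat_lit 0) (nat_lit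
  117059) (nat_lit 11) (node (nat_lit 6) (nat_lit 119193) (nat_lit 12) nil nil) (node (nat_lit 2)
  (nat_lit 116801) (nat_lit 11) (node (nat_lit 6) (nat_lit 118936) (nat_lit 12) nil nil) nil)))))
  (node (nat_lit 2) (nat_lit 0) (nat_lit 10) (node (nat_lit 6) (nat_lit 115409) (nat_lit 11) (node
  (nat_lit 4) (nat_lit 119060) (nat_lit 12) (node (nat_lit 5) (nat_lit 120729) (nat_lit 13) nil
  nil) (node (nat_lit 5) (nat_lit 117490) (nat_lit 12) (node (nat_lit 4) (nat_lit 120374) (nat_lit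
  13) nil nil) nil)) (node (nat_lit 5) (nat_lit 114608) (nat_lit 11) (node (nat_lit 6) (nat_lit
  117222) (nat_lit 12) (node (nat_lit 4) (nat_lit 118890) (nat_lit 13) nil (node (nat_lit 5)
  (nat_lit 118417) (nat_lit 13) nil nil)) (node (nat_lit 4) (nat_lit 118260) (nat_lit 12) (node
  (nat_lit 5) (nat_lit 119929) (nat_lit 13) (node (nat_lit 6) (nat_lit 120018) (nat_lit 14) nil
  nil) nil) (node (nat_lit 13) (nat_lit 116596) (nat_lit 12) nil nil))) (node (nat_lit 4) (nat_lit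
  116660) (nat_lit 11) (node (nat_lit 6) (nat_lit 118795) (nat_lit 12) (node (nat_lit 4) (nat_lit
  120464) (nat_lit 13) (node (nat_lit 5) (nat_lit 116498) (nat_lit 14) nil nil) (node (nat_lit 5)
  (nat_lit 117554) (nat_lit 13) nil nil)) (node (nat_lit 5) (nat_lit 118795) (nat_lit 12) (node
  (nat_lit 6) (nat_lit 118981) (nat_lit 13) nil nil) (node (nat_lit 13) (nat_lit 118795) (nat_lit
  12) nil nil))) (node (nat_lit 0) (nat_lit 116660) (nat_lit 11) (node (nat_lit 6) (nat_lit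
  118795) (nat_lit 12) nil nil) nil)))) nil)))) (node (nat_lit 4) (nat_lit 0) (nat_lit 9) (node
  (nat_lit 6) (nat_lit 0) (nat_lit 10) (node (nat_lit 5) (nat_lit 0) (nat_lit 11) (node (nat_lit
  4) (nat_lit 154718) (nat_lit 12) (node (nat_lit 5) (nat_lit 155459) (nat_lit 13) (node (nat_lit
  6) (nat_lit 156036) (nat_lit 14) (node (nat_lit 5) (nat_lit 156487) (nat_lit 15) (node (nat_lit
  4) (nat_lit 155014) (nat_lit 16) (node (nat_lit 6) (nat_lit 148364) (nat_lit 17) (node (nat_lit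
  4) (nat_lit 121656) (nat_lit 18) (node (nat_lit 5) (nat_lit 120975) (nat_lit 19) (node (nat_lit
  6) (nat_lit 120853) (nat_lit 20) nil (node (nat_lit 4) (nat_lit 80310) (nat_lit 20) (node
  (nat_lit 6) (nat_lit 58308) (nat_lit 21) nil nil) nil)) nil) nil) nil) nil) nil) nil) nil) (node
  (nat_lit 6) (nat_lit 153795) (nat_lit 12) (node (nat_lit 4) (nat_lit 154536) (nat_lit 13) (node
  (nat_lit 5) (nat_lit 155113) (nat_lit 14) (node (nat_lit 6) (nat_lit 154694) (nat_lit 15) (node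
  (nat_lit 5) (nat_lit 154599) (nat_lit 16) (node (nat_lit 4) (nat_lit 154709) (nat_lit 17) (node
  (nat_lit 6) (nat_lit 154924) (nat_lit 18) (node (nat_lit 4) (nat_lit 155091) (nat_lit 19) (node
  (nat_lit 5) (nat_lit 155222) (nat_lit 20) (node (nat_lit 4) (nat_lit 155323) (nat_lit 21) (node
  (nat_lit 6) (nat_lit 155250) (nat_lit 22) (node (nat_lit 5) (nat_lit 67688) (nat_lit 23) nil
  nil) nil) nil) nil) nil) nil) nil) nil) nil) (node (nat_lit 6) (nat_lit 153984) (nat_lit 14)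
  (node (nat_lit 5) (nat_lit 153836) (nat_lit 15) (node (nat_lit 4) (nat_lit 153981) (nat_lit 16)
  (node (nat_lit 5) (nat_lit 153243) (nat_lit 17) (node (nat_lit 6) (nat_lit 152366) (nat_lit 18)
  (node (nat_lit 5) (nat_lit 152148) (nat_lit 19) (node (nat_lit 4) (nat_lit 150642) (nat_lit 20)
  (node (nat_lit 6) (nat_lit 149992) (nat_lit 21) (node (nat_lit 4) (nat_lit 147125) (nat_lit 22)
  (node (nat_lit 5) (nat_lit 143575) (nat_lit 23) (node (nat_lit 4) (nat_lit 139038) (nat_lit 24)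
  (node (nat_lit 6) (nat_lit 129898) (nat_lit 25) (node (nat_lit 5) (nat_lit 115304) (nat_lit 26)
  (node (nat_lit 6) (nat_lit 87550) (nat_lit 27) (node (nat_lit 4) (nat_lit 81297) (nat_lit 28)
  nil nil) nil) nil) nil) nil) nil) nil) nil) nil) nil) nil) nil) nil) nil) nil)) nil) (node
  (nat_lit 0) (nat_lit 153795) (nat_lit 12) (node (nat_lit 5) (nat_lit 154536) (nat_lit 13) nil
  nil) (node (nat_lit 2) (nat_lit 150966) (nat_lit 12) (node (nat_lit 5) (nat_lit 151627) (nat_lit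
  13) nil (node (nat_lit 6) (nat_lit 150531) (nat_lit 13) nil nil)) nil)))) (node (nat_lit 0)
  (nat_lit 152555) (nat_lit 11) (node (nat_lit 6) (nat_lit 151860) (nat_lit 12) (node (nat_lit 4)
  (nat_lit 152601) (nat_lit 13) nil nil) (node (nat_lit 5) (nat_lit 153795) (nat_lit 12) nil nil))
  (node (nat_lit 2) (nat_lit 150064) (nat_lit 11) (node (nat_lit 6) (nat_lit 146634) (nat_lit 12)
  (node (nat_lit 4) (nat_lit 148120) (nat_lit 13) nil (node (nat_lit 5) (nat_lit 147328) (nat_lit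
  13) nil nil)) (node (nat_lit 5) (nat_lit 148569) (nat_lit 12) (node (nat_lit 4) (nat_lit 148303)
  (nat_lit 13) nil nil) (node (nat_lit 4) (nat_lit 149910) (nat_lit 12) nil nil))) nil))) (node
  (nat_lit 0) (nat_lit 151631) (nat_lit 10) (node (nat_lit 5) (nat_lit 152847) (nat_lit 11) nil
  (node (nat_lit 6) (nat_lit 150352) (nat_lit 11) (node (nat_lit 4) (nat_lit 151300) (nat_lit 12)
  nil nil) (node (nat_lit 4) (nat_lit 151751) (nat_lit 11) nil nil))) (node (nat_lit 2) (nat_lit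
  150402) (nat_lit 10) (node (nat_lit 5) (nat_lit 152528) (nat_lit 11) (node (nat_lit 6) (nat_lit
  151860) (nat_lit 12) nil (node (nat_lit 4) (nat_lit 148380) (nat_lit 12) nil nil)) (node
  (nat_lit 6) (nat_lit 150033) (nat_lit 11) (node (nat_lit 4) (nat_lit 149034) (nat_lit 12) (node
  (nat_lit 5) (nat_lit 148593) (nat_lit 13) nil nil) (node (nat_lit 5) (nat_lit 150166) (nat_lit
  12) nil nil)) (node (nat_lit 4) (nat_lit 152847) (nat_lit 11) (node (nat_lit 5) (nat_lit 153795)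
  (nat_lit 12) nil (node (nat_lit 6) (nat_lit 149992) (nat_lit 12) nil nil)) nil))) nil))) (node
  (nat_lit 0) (nat_lit 146641) (nat_lit 9) (node (nat_lit 5) (nat_lit 150150) (nat_lit 10) (node
  (nat_lit 4) (nat_lit 149938) (nat_lit 11) nil nil) (node (nat_lit 6) (nat_lit 149889) (nat_lit
  10) (node (nat_lit 4) (nat_lit 151811) (nat_lit 11) nil nil) (node (nat_lit 4) (nat_lit 146471)
  (nat_lit 10) nil nil))) (node (nat_lit 2) (nat_lit 144861) (nat_lit 9) (node (nat_lit 5)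
  (nat_lit 148370) (nat_lit 10) (node (nat_lit 4) (nat_lit 145182) (nat_lit 11) (node (nat_lit 5)
  (nat_lit 143111) (nat_lit 12) (node (nat_lit 6) (nat_lit 139684) (nat_lit 13) nil nil) nil)
  (node (nat_lit 6) (nat_lit 148155) (nat_lit 11) nil nil)) (node (nat_lit 6) (nat_lit 147172)
  (nat_lit 10) (node (nat_lit 4) (nat_lit 145178) (nat_lit 11) (node (nat_lit 5) (nat_lit 141630)
  (nat_lit 12) nil nil) nil) (node (nat_lit 4) (nat_lit 144691) (nat_lit 10) nil nil))) nil))))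
  nil) (node (nat_lit 5) (nat_lit 0) (nat_lit 7) (node (nat_lit 6) (nat_lit 0) (nat_lit 8) (node
  (nat_lit 4) (nat_lit 0) (nat_lit 9) (node (nat_lit 5) (nat_lit 0) (nat_lit 10) (node (nat_lit 4)
  (nat_lit 0) (nat_lit 11) (node (nat_lit 6) (nat_lit 0) (nat_lit 12) (node (nat_lit 5) (nat_lit
  154751) (nat_lit 13) (node (nat_lit 4) (nat_lit 155573) (nat_lit 14) (node (nat_lit 5) (nat_lit
  156025) (nat_lit 15) (node (nat_lit 6) (nat_lit 156376) (nat_lit 16) (node (nat_lit 5) (nat_lit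
  156652) (nat_lit 17) (node (nat_lit 4) (nat_lit 157000) (nat_lit 18) (node (nat_lit 6) (nat_lit
  157167) (nat_lit 19) (node (nat_lit 5) (nat_lit 152498) (nat_lit 20) (node (nat_lit 6) (nat_lit
  143427) (nat_lit 21) (node (nat_lit 4) (nat_lit 126170) (nat_lit 22) (node (nat_lit 5) (nat_lit
  99397) (nat_lit 23) (node (nat_lit 4) (nat_lit 87550) (nat_lit 24) (node (nat_lit 6) (nat_lit
  57229) (nat_lit 25) nil nil) nil) nil) nil) nil) nil) nil) nil) nil) nil) nil) nil) (node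
  (nat_lit 4) (nat_lit 154935) (nat_lit 13) (node (nat_lit 5) (nat_lit 155512) (nat_lit 14) (node
  (nat_lit 6) (nat_lit 155963) (nat_lit 15) (node (nat_lit 5) (nat_lit 156315) (nat_lit 16) (node
  (nat_lit 4) (nat_lit 156763) (nat_lit 17) (node (nat_lit 6) (nat_lit 156978) (nat_lit 18) (node
  (nat_lit 5) (nat_lit 149296) (nat_lit 19) (node (nat_lit 6) (nat_lit 136441) (nat_lit 20) (node
  (nat_lit 4) (nat_lit 115547) (nat_lit 21) (node (nat_lit 5) (nat_lit 69907) (nat_lit 22) (node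
  (nat_lit 6) (nat_lit 69850) (nat_lit 23) (node (nat_lit 5) (nat_lit 69838) (nat_lit 24) nil nil)
  nil) nil) nil) nil) nil) nil) nil) nil) nil) nil) (node (nat_lit 0) (nat_lit 154751) (nat_lit
  13) nil (node (nat_lit 2) (nat_lit 153269) (nat_lit 13) nil nil)))) (node (nat_lit 0) (nat_lit
  154010) (nat_lit 12) nil (node (nat_lit 2) (nat_lit 152075) (nat_lit 12) (node (nat_lit 5)
  (nat_lit 151842) (nat_lit 13) (node (nat_lit 4) (nat_lit 152219) (nat_lit 14) nil nil) (node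
  (nat_lit 4) (nat_lit 152816) (nat_lit 13) nil (node (nat_lit 6) (nat_lit 151334) (nat_lit 13)
  nil nil))) nil))) (node (nat_lit 6) (nat_lit 0) (nat_lit 11) (node (nat_lit 5) (nat_lit 153723)
  (nat_lit 12) (node (nat_lit 4) (nat_lit 150652) (nat_lit 13) (node (nat_lit 6) (nat_lit 151230)
  (nat_lit 14) nil nil) nil) (node (nat_lit 0) (nat_lit 153723) (nat_lit 12) nil (node (nat_lit 2)
  (nat_lit 151788) (nat_lit 12) nil nil))) (node (nat_lit 0) (nat_lit 152775) (nat_lit 11) (node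
  (nat_lit 5) (nat_lit 153723) (nat_lit 12) nil (node (nat_lit 6) (nat_lit 151788) (nat_lit 12)
  nil (node (nat_lit 4) (nat_lit 153723) (nat_lit 12) nil nil))) (node (nat_lit 2) (nat_lit
  152775) (nat_lit 11) (node (nat_lit 5) (nat_lit 153723) (nat_lit 12) (node (nat_lit 4) (nat_lit
  150652) (nat_lit 13) nil nil) (node (nat_lit 6) (nat_lit 153723) (nat_lit 12) nil (node (nat_lit
  4) (nat_lit 153723) (nat_lit 12) nil nil))) nil)))) (node (nat_lit 6) (nat_lit 0) (nat_lit 10)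
  (node (nat_lit 5) (nat_lit 0) (nat_lit 11) (node (nat_lit 4) (nat_lit 154113) (nat_lit 12) (node
  (nat_lit 5) (nat_lit 154854) (nat_lit 13) (node (nat_lit 6) (nat_lit 155431) (nat_lit 14) (node
  (nat_lit 5) (nat_lit 155882) (nat_lit 15) (node (nat_lit 4) (nat_lit 152053) (nat_lit 16) (node
  (nat_lit 6) (nat_lit 143224) (nat_lit 17) (node (nat_lit 5) (nat_lit 128851) (nat_lit 18) (node
  (nat_lit 6) (nat_lit 98216) (nat_lit 19) (node (nat_lit 4) (nat_lit 87550) (nat_lit 20) nil nil)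
  nil) nil) nil) nil) nil) nil) (node (nat_lit 6) (nat_lit 154854) (nat_lit 13) (node (nat_lit 4)
  (nat_lit 155431) (nat_lit 14) (node (nat_lit 5) (nat_lit 155882) (nat_lit 15) (node (nat_lit 6)
  (nat_lit 155560) (nat_lit 16) (node (nat_lit 5) (nat_lit 155496) (nat_lit 17) (node (nat_lit 4)
  (nat_lit 155595) (nat_lit 18) (node (nat_lit 6) (nat_lit 154363) (nat_lit 19) (node (nat_lit 5)
  (nat_lit 150074) (nat_lit 20) (node (nat_lit 6) (nat_lit 139444) (nat_lit 21) (node (nat_lit 4)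
  (nat_lit 122824) (nat_lit 22) (node (nat_lit 6) (nat_lit 105223) (nat_lit 23) (node (nat_lit 5)
  (nat_lit 82931) (nat_lit 24) (node (nat_lit 4) (nat_lit 68476) (nat_lit 25) nil nil) nil) nil)
  nil) nil) nil) nil) nil) nil) nil) nil) nil) nil)) (node (nat_lit 2) (nat_lit 151788) (nat_lit
  12) nil (node (nat_lit 0) (nat_lit 153723) (nat_lit 12) nil nil))) (node (nat_lit 0) (nat_lit
  152775) (nat_lit 11) (node (nat_lit 4) (nat_lit 153723) (nat_lit 12) nil (node (nat_lit 5)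
  (nat_lit 153723) (nat_lit 12) nil nil)) (node (nat_lit 2) (nat_lit 150280) (nat_lit 11) (node
  (nat_lit 6) (nat_lit 149293) (nat_lit 12) nil (node (nat_lit 4) (nat_lit 151228) (nat_lit 12)
  nil (node (nat_lit 5) (nat_lit 150094) (nat_lit 12) nil nil))) nil))) (node (nat_lit 0) (nat_lit
  151718) (nat_lit 10) (node (nat_lit 5) (nat_lit 152933) (nat_lit 11) nil (node (nat_lit 6)
  (nat_lit 150439) (nat_lit 11) nil nil)) (node (nat_lit 2) (nat_lit 151559) (nat_lit 10) (node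
  (nat_lit 5) (nat_lit 148329) (nat_lit 11) (node (nat_lit 4) (nat_lit 149119) (nat_lit 12) nil
  nil) (node (nat_lit 6) (nat_lit 150280) (nat_lit 11) nil (node (nat_lit 4) (nat_lit 152775)
  (nat_lit 11) nil nil))) nil)))) (node (nat_lit 0) (nat_lit 148420) (nat_lit 9) (node (nat_lit 6)
  (nat_lit 149979) (nat_lit 10) (node (nat_lit 4) (nat_lit 151195) (nat_lit 11) nil nil) (node
  (nat_lit 5) (nat_lit 149979) (nat_lit 10) (node (nat_lit 4) (nat_lit 151195) (nat_lit 11) nil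
  nil) (node (nat_lit 4) (nat_lit 149979) (nat_lit 10) nil nil))) (node (nat_lit 2) (nat_lit
  145345) (nat_lit 9) (node (nat_lit 6) (nat_lit 146230) (nat_lit 10) (node (nat_lit 4) (nat_lit
  147446) (nat_lit 11) (node (nat_lit 5) (nat_lit 143341) (nat_lit 12) (node (nat_lit 6) (nat_lit
  139374) (nat_lit 13) nil nil) nil) (node (nat_lit 5) (nat_lit 146592) (nat_lit 11) nil nil))
  (node (nat_lit 5) (nat_lit 146798) (nat_lit 10) (node (nat_lit 4) (nat_lit 149527) (nat_lit 11)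
  nil (node (nat_lit 6) (nat_lit 145519) (nat_lit 11) nil nil)) (node (nat_lit 4) (nat_lit 146904)
  (nat_lit 10) nil nil))) nil))) nil) nil))

noncomputable def t124 : Tr :=
  (node (nat_lit 6) (nat_lit 0) (nat_lit 9) (node (nat_lit 5) (nat_lit 0) (nat_lit 10) (node
  (nat_lit 4) (nat_lit 0) (nat_lit 11) (node (nat_lit 6) (nat_lit 0) (nat_lit 12) (node (nat_lit
  4) (nat_lit 63951) (nat_lit 13) (node (nat_lit 5) (nat_lit 0) (nat_lit 14) (node (nat_lit 6)
  (nat_lit 0) (nat_lit 15) (node (nat_lit 4) (nat_lit 0) (nat_lit 16) (node (nat_lit 6) (nat_lit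
  0) (nat_lit 17) (node (nat_lit 5) (nat_lit 64940) (nat_lit 18) (node (nat_lit 6) (nat_lit 64940)
  (nat_lit 19) (node (nat_lit 4) (nat_lit 64940) (nat_lit 20) (node (nat_lit 5) (nat_lit 64940)
  (nat_lit 21) (node (nat_lit 6) (nat_lit 64940) (nat_lit 22) (node (nat_lit 5) (nat_lit 64940)
  (nat_lit 23) (node (nat_lit 4) (nat_lit 64940) (nat_lit 24) (node (nat_lit 5) (nat_lit 64940)
  (nat_lit 25) (node (nat_lit 6) (nat_lit 64940) (nat_lit 26) nil nil) nil) nil) nil) nil) nil)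
  nil) (node (nat_lit 4) (nat_lit 64940) (nat_lit 19) (node (nat_lit 5) (nat_lit 64940) (nat_lit
  20) (node (nat_lit 6) (nat_lit 64940) (nat_lit 21) (node (nat_lit 5) (nat_lit 64940) (nat_lit
  22) (node (nat_lit 4) (nat_lit 64940) (nat_lit 23) nil nil) nil) nil) nil) nil)) (node (nat_lit
  0) (nat_lit 64940) (nat_lit 18) nil (node (nat_lit 2) (nat_lit 64940) (nat_lit 18) nil nil)))
  (node (nat_lit 0) (nat_lit 64940) (nat_lit 17) (node (nat_lit 6) (nat_lit 64940) (nat_lit 18)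
  (node (nat_lit 4) (nat_lit 64940) (nat_lit 19) nil nil) (node (nat_lit 5) (nat_lit 64940)
  (nat_lit 18) nil nil)) (node (nat_lit 2) (nat_lit 64940) (nat_lit 17) (node (nat_lit 6) (nat_lit
  64940) (nat_lit 18) (node (nat_lit 4) (nat_lit 64940) (nat_lit 19) nil nil) (node (nat_lit 5)
  (nat_lit 64940) (nat_lit 18) nil nil)) nil))) (node (nat_lit 5) (nat_lit 64940) (nat_lit 16)
  (node (nat_lit 4) (nat_lit 64940) (nat_lit 17) (node (nat_lit 5) (nat_lit 64940) (nat_lit 18)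
  (node (nat_lit 6) (nat_lit 64485) (nat_lit 19) (node (nat_lit 4) (nat_lit 57901) (nat_lit 20)
  (node (nat_lit 6) (nat_lit 40407) (nat_lit 21) nil nil) nil) nil) (node (nat_lit 6) (nat_lit
  64940) (nat_lit 18) (node (nat_lit 5) (nat_lit 64940) (nat_lit 19) (node (nat_lit 6) (nat_lit
  64940) (nat_lit 20) nil nil) nil) nil)) nil) (node (nat_lit 0) (nat_lit 64940) (nat_lit 16)
  (node (nat_lit 5) (nat_lit 64940) (nat_lit 17) nil (node (nat_lit 6) (nat_lit 64940) (nat_lit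
  17) nil nil)) (node (nat_lit 2) (nat_lit 64940) (nat_lit 16) (node (nat_lit 5) (nat_lit 64940)
  (nat_lit 17) nil (node (nat_lit 6) (nat_lit 64940) (nat_lit 17) nil nil)) nil)))) (node (nat_lit
  4) (nat_lit 64940) (nat_lit 15) (node (nat_lit 6) (nat_lit 64940) (nat_lit 16) (node (nat_lit 5)
  (nat_lit 64940) (nat_lit 17) (node (nat_lit 6) (nat_lit 64940) (nat_lit 18) (node (nat_lit 4)
  (nat_lit 64940) (nat_lit 19) (node (nat_lit 5) (nat_lit 64940) (nat_lit 20) nil (node (nat_lit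
  6) (nat_lit 64940) (nat_lit 20) nil nil)) nil) (node (nat_lit 4) (nat_lit 64940) (nat_lit 18)
  (node (nat_lit 5) (nat_lit 64940) (nat_lit 19) nil nil) nil)) nil) nil) (node (nat_lit 0)
  (nat_lit 64940) (nat_lit 15) (node (nat_lit 5) (nat_lit 64940) (nat_lit 16) (node (nat_lit 4)
  (nat_lit 64940) (nat_lit 17) nil (node (nat_lit 6) (nat_lit 64940) (nat_lit 17) nil nil)) (node
  (nat_lit 6) (nat_lit 64940) (nat_lit 16) (node (nat_lit 5) (nat_lit 64940) (nat_lit 17) nil nil)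
  nil)) (node (nat_lit 2) (nat_lit 64940) (nat_lit 15) (node (nat_lit 5) (nat_lit 64940) (nat_lit
  16) (node (nat_lit 4) (nat_lit 64940) (nat_lit 17) nil (node (nat_lit 6) (nat_lit 64940)
  (nat_lit 17) nil nil)) (node (nat_lit 6) (nat_lit 64940) (nat_lit 16) (node (nat_lit 5) (nat_lit
  64940) (nat_lit 17) nil nil) nil)) nil)))) nil) (node (nat_lit 0) (nat_lit 64659) (nat_lit 13)
  (node (nat_lit 6) (nat_lit 64659) (nat_lit 14) nil nil) (node (nat_lit 2) (nat_lit 63951)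
  (nat_lit 13) (node (nat_lit 6) (nat_lit 63951) (nat_lit 14) nil (node (nat_lit 4) (nat_lit
  63951) (nat_lit 14) nil nil)) nil))) (node (nat_lit 5) (nat_lit 0) (nat_lit 12) (node (nat_lit
  6) (nat_lit 64906) (nat_lit 13) (node (nat_lit 5) (nat_lit 64940) (nat_lit 14) (node (nat_lit 4)
  (nat_lit 64940) (nat_lit 15) (node (nat_lit 6) (nat_lit 64940) (nat_lit 16) (node (nat_lit 4)
  (nat_lit 64940) (nat_lit 17) (node (nat_lit 5) (nat_lit 64940) (nat_lit 18) (node (nat_lit 6)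
  (nat_lit 64940) (nat_lit 19) nil nil) nil) nil) nil) nil) nil) (node (nat_lit 0) (nat_lit 64940)
  (nat_lit 13) (node (nat_lit 5) (nat_lit 64940) (nat_lit 14) nil (node (nat_lit 6) (nat_lit
  64940) (nat_lit 14) nil nil)) (node (nat_lit 2) (nat_lit 64906) (nat_lit 13) (node (nat_lit 5)
  (nat_lit 64940) (nat_lit 14) nil (node (nat_lit 6) (nat_lit 64906) (nat_lit 14) nil nil)) nil)))
  (node (nat_lit 0) (nat_lit 64906) (nat_lit 12) (node (nat_lit 5) (nat_lit 64940) (nat_lit 13)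
  (node (nat_lit 4) (nat_lit 64940) (nat_lit 14) (node (nat_lit 5) (nat_lit 64940) (nat_lit 15)
  nil nil) nil) (node (nat_lit 4) (nat_lit 64906) (nat_lit 13) (node (nat_lit 6) (nat_lit 64906)
  (nat_lit 14) nil nil) (node (nat_lit 6) (nat_lit 64906) (nat_lit 13) (node (nat_lit 4) (nat_lit
  64906) (nat_lit 14) nil (node (nat_lit 5) (nat_lit 64940) (nat_lit 14) nil nil)) nil))) (node
  (nat_lit 2) (nat_lit 63951) (nat_lit 12) (node (nat_lit 5) (nat_lit 64659) (nat_lit 13) (node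
  (nat_lit 4) (nat_lit 64659) (nat_lit 14) (node (nat_lit 5) (nat_lit 64911) (nat_lit 15) nil nil)
  (node (nat_lit 6) (nat_lit 64659) (nat_lit 14) nil nil)) (node (nat_lit 4) (nat_lit 63951)
  (nat_lit 13) (node (nat_lit 6) (nat_lit 63951) (nat_lit 14) nil nil) (node (nat_lit 6) (nat_lit
  63951) (nat_lit 13) (node (nat_lit 4) (nat_lit 63951) (nat_lit 14) nil (node (nat_lit 5)
  (nat_lit 64801) (nat_lit 14) nil nil)) nil))) nil)))) (node (nat_lit 6) (nat_lit 0) (nat_lit 11)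
  (node (nat_lit 4) (nat_lit 0) (nat_lit 12) (node (nat_lit 5) (nat_lit 0) (nat_lit 13) (node
  (nat_lit 4) (nat_lit 64940) (nat_lit 14) (node (nat_lit 6) (nat_lit 64940) (nat_lit 15) (node
  (nat_lit 5) (nat_lit 64940) (nat_lit 16) (node (nat_lit 6) (nat_lit 64940) (nat_lit 17) (node
  (nat_lit 4) (nat_lit 64940) (nat_lit 18) nil nil) (node (nat_lit 4) (nat_lit 64940) (nat_lit 17)
  (node (nat_lit 5) (nat_lit 64940) (nat_lit 18) (node (nat_lit 6) (nat_lit 64940) (nat_lit 19)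
  (node (nat_lit 5) (nat_lit 64940) (nat_lit 20) (node (nat_lit 4) (nat_lit 64940) (nat_lit 21)
  nil nil) nil) nil) nil) nil)) (node (nat_lit 4) (nat_lit 64940) (nat_lit 16) (node (nat_lit 5)
  (nat_lit 64940) (nat_lit 17) (node (nat_lit 6) (nat_lit 64940) (nat_lit 18) (node (nat_lit 5)
  (nat_lit 64940) (nat_lit 19) (node (nat_lit 4) (nat_lit 64940) (nat_lit 20) (node (nat_lit 5)
  (nat_lit 64940) (nat_lit 21) (node (nat_lit 6) (nat_lit 64940) (nat_lit 22) (node (nat_lit 4)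
  (nat_lit 64940) (nat_lit 23) (node (nat_lit 6) (nat_lit 64940) (nat_lit 24) (node (nat_lit 5)
  (nat_lit 64940) (nat_lit 25) (node (nat_lit 6) (nat_lit 52392) (nat_lit 26) (node (nat_lit 4)
  (nat_lit 30834) (nat_lit 27) nil nil) nil) nil) nil) nil) nil) nil) nil) nil) nil) nil) nil))
  nil) (node (nat_lit 6) (nat_lit 64940) (nat_lit 14) (node (nat_lit 5) (nat_lit 64940) (nat_lit
  15) (node (nat_lit 4) (nat_lit 64940) (nat_lit 16) (node (nat_lit 6) (nat_lit 64940) (nat_lit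
  17) (node (nat_lit 4) (nat_lit 64940) (nat_lit 18) (node (nat_lit 5) (nat_lit 64940) (nat_lit
  19) nil nil) nil) (node (nat_lit 5) (nat_lit 64940) (nat_lit 17) (node (nat_lit 6) (nat_lit
  64940) (nat_lit 18) (node (nat_lit 4) (nat_lit 64940) (nat_lit 19) nil nil) nil) nil)) nil) nil)
  (node (nat_lit 0) (nat_lit 64940) (nat_lit 14) (node (nat_lit 6) (nat_lit 64940) (nat_lit 15)
  nil nil) (node (nat_lit 2) (nat_lit 64940) (nat_lit 14) (node (nat_lit 6) (nat_lit 64940)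
  (nat_lit 15) nil nil) nil)))) (node (nat_lit 0) (nat_lit 64659) (nat_lit 13) (node (nat_lit 5)
  (nat_lit 64801) (nat_lit 14) (node (nat_lit 4) (nat_lit 64801) (nat_lit 15) nil (node (nat_lit
  6) (nat_lit 64801) (nat_lit 15) nil nil)) (node (nat_lit 6) (nat_lit 64659) (nat_lit 14) (node
  (nat_lit 4) (nat_lit 64659) (nat_lit 15) nil (node (nat_lit 5) (nat_lit 64911) (nat_lit 15) nil
  nil)) (node (nat_lit 4) (nat_lit 64659) (nat_lit 14) (node (nat_lit 6) (nat_lit 64659) (nat_lit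
  15) nil nil) nil))) (node (nat_lit 2) (nat_lit 63951) (nat_lit 13) (node (nat_lit 5) (nat_lit
  64801) (nat_lit 14) (node (nat_lit 4) (nat_lit 64801) (nat_lit 15) nil (node (nat_lit 6)
  (nat_lit 64801) (nat_lit 15) nil nil)) (node (nat_lit 6) (nat_lit 63951) (nat_lit 14) (node
  (nat_lit 4) (nat_lit 63951) (nat_lit 15) nil (node (nat_lit 5) (nat_lit 64911) (nat_lit 15) nil
  nil)) (node (nat_lit 4) (nat_lit 63951) (nat_lit 14) (node (nat_lit 6) (nat_lit 63951) (nat_lit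
  15) nil nil) nil))) nil))) (node (nat_lit 0) (nat_lit 64906) (nat_lit 12) (node (nat_lit 5)
  (nat_lit 64940) (nat_lit 13) (node (nat_lit 6) (nat_lit 64940) (nat_lit 14) (node (nat_lit 5)
  (nat_lit 64940) (nat_lit 15) nil (node (nat_lit 4) (nat_lit 64940) (nat_lit 15) (node (nat_lit
  5) (nat_lit 64940) (nat_lit 16) nil nil) nil)) (node (nat_lit 4) (nat_lit 64940) (nat_lit 14)
  nil nil)) (node (nat_lit 6) (nat_lit 64906) (nat_lit 13) (node (nat_lit 5) (nat_lit 64940)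
  (nat_lit 14) nil (node (nat_lit 4) (nat_lit 64906) (nat_lit 14) (node (nat_lit 5) (nat_lit
  64940) (nat_lit 15) nil nil) nil)) (node (nat_lit 4) (nat_lit 64906) (nat_lit 13) (node (nat_lit
  6) (nat_lit 64906) (nat_lit 14) nil nil) nil))) (node (nat_lit 2) (nat_lit 63951) (nat_lit 12)
  (node (nat_lit 5) (nat_lit 64659) (nat_lit 13) (node (nat_lit 6) (nat_lit 64659) (nat_lit 14)
  (node (nat_lit 5) (nat_lit 64911) (nat_lit 15) nil (node (nat_lit 4) (nat_lit 64659) (nat_lit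
  15) (node (nat_lit 5) (nat_lit 64940) (nat_lit 16) nil nil) nil)) (node (nat_lit 4) (nat_lit
  64659) (nat_lit 14) nil nil)) (node (nat_lit 6) (nat_lit 63951) (nat_lit 13) (node (nat_lit 5)
  (nat_lit 64801) (nat_lit 14) nil (node (nat_lit 4) (nat_lit 63951) (nat_lit 14) (node (nat_lit
  5) (nat_lit 64911) (nat_lit 15) nil nil) nil)) (node (nat_lit 4) (nat_lit 63951) (nat_lit 13)
  (node (nat_lit 6) (nat_lit 63951) (nat_lit 14) nil nil) nil))) nil))) (node (nat_lit 0) (nat_lit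
  64486) (nat_lit 11) (node (nat_lit 5) (nat_lit 64718) (nat_lit 12) (node (nat_lit 6) (nat_lit
  64718) (nat_lit 13) (node (nat_lit 4) (nat_lit 64718) (nat_lit 14) nil nil) (node (nat_lit 4)
  (nat_lit 64718) (nat_lit 13) (node (nat_lit 5) (nat_lit 64940) (nat_lit 14) nil nil) nil)) (node
  (nat_lit 6) (nat_lit 64486) (nat_lit 12) (node (nat_lit 4) (nat_lit 64486) (nat_lit 13) (node
  (nat_lit 5) (nat_lit 64940) (nat_lit 14) nil nil) (node (nat_lit 5) (nat_lit 64898) (nat_lit 13)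
  nil nil)) (node (nat_lit 4) (nat_lit 64486) (nat_lit 12) (node (nat_lit 6) (nat_lit 64486)
  (nat_lit 13) nil nil) nil))) (node (nat_lit 2) (nat_lit 63951) (nat_lit 11) (node (nat_lit 5)
  (nat_lit 64479) (nat_lit 12) (node (nat_lit 6) (nat_lit 64479) (nat_lit 13) (node (nat_lit 4)
  (nat_lit 64479) (nat_lit 14) nil nil) (node (nat_lit 4) (nat_lit 64479) (nat_lit 13) (node
  (nat_lit 5) (nat_lit 64801) (nat_lit 14) (node (nat_lit 6) (nat_lit 64801) (nat_lit 15) nil nil)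
  nil) nil)) (node (nat_lit 6) (nat_lit 63951) (nat_lit 12) (node (nat_lit 4) (nat_lit 63951)
  (nat_lit 13) (node (nat_lit 5) (nat_lit 64801) (nat_lit 14) nil nil) (node (nat_lit 5) (nat_lit
  64659) (nat_lit 13) nil nil)) (node (nat_lit 4) (nat_lit 63951) (nat_lit 12) (node (nat_lit 6)
  (nat_lit 63951) (nat_lit 13) nil nil) nil))) nil)))) (node (nat_lit 0) (nat_lit 0) (nat_lit 10)
  (node (nat_lit 4) (nat_lit 63546) (nat_lit 11) (node (nat_lit 6) (nat_lit 63546) (nat_lit 12)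
  nil nil) (node (nat_lit 5) (nat_lit 63842) (nat_lit 11) (node (nat_lit 6) (nat_lit 63842)
  (nat_lit 12) (node (nat_lit 4) (nat_lit 63842) (nat_lit 13) nil nil) (node (nat_lit 4) (nat_lit
  63842) (nat_lit 12) (node (nat_lit 5) (nat_lit 64254) (nat_lit 13) nil nil) nil)) (node (nat_lit
  6) (nat_lit 63546) (nat_lit 11) (node (nat_lit 4) (nat_lit 63546) (nat_lit 12) (node (nat_lit 5)
  (nat_lit 64254) (nat_lit 13) nil nil) (node (nat_lit 5) (nat_lit 64074) (nat_lit 12) nil nil))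
  (node (nat_lit 2) (nat_lit 63546) (nat_lit 11) nil (node (nat_lit 0) (nat_lit 63842) (nat_lit
  11) nil nil))))) (node (nat_lit 2) (nat_lit 0) (nat_lit 10) (node (nat_lit 4) (nat_lit 57720)
  (nat_lit 11) (node (nat_lit 6) (nat_lit 57720) (nat_lit 12) (node (nat_lit 4) (nat_lit 57720)
  (nat_lit 13) (node (nat_lit 5) (nat_lit 60295) (nat_lit 14) (node (nat_lit 6) (nat_lit 58388)
  (nat_lit 15) nil nil) nil) nil) (node (nat_lit 5) (nat_lit 62824) (nat_lit 12) nil (node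
  (nat_lit 13) (nat_lit 57720) (nat_lit 12) nil nil))) (node (nat_lit 5) (nat_lit 62405) (nat_lit
  11) (node (nat_lit 6) (nat_lit 62405) (nat_lit 12) (node (nat_lit 4) (nat_lit 62405) (nat_lit
  13) nil nil) (node (nat_lit 4) (nat_lit 62405) (nat_lit 12) (node (nat_lit 5) (nat_lit 62817)
  (nat_lit 13) nil nil) nil)) (node (nat_lit 6) (nat_lit 57720) (nat_lit 11) (node (nat_lit 4)
  (nat_lit 57720) (nat_lit 12) (node (nat_lit 5) (nat_lit 60721) (nat_lit 13) (node (nat_lit 6)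
  (nat_lit 60721) (nat_lit 14) nil nil) nil) (node (nat_lit 5) (nat_lit 62824) (nat_lit 12) nil
  nil)) (node (nat_lit 0) (nat_lit 62405) (nat_lit 11) (node (nat_lit 6) (nat_lit 62405) (nat_lit
  12) nil nil) nil)))) nil))) (node (nat_lit 5) (nat_lit 0) (nat_lit 9) (node (nat_lit 4) (nat_lit
  0) (nat_lit 10) (node (nat_lit 6) (nat_lit 0) (nat_lit 11) (node (nat_lit 4) (nat_lit 0)
  (nat_lit 12) (node (nat_lit 5) (nat_lit 0) (nat_lit 13) (node (nat_lit 6) (nat_lit 0) (nat_lit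
  14) (node (nat_lit 4) (nat_lit 0) (nat_lit 15) (node (nat_lit 6) (nat_lit 64940) (nat_lit 16)
  (node (nat_lit 5) (nat_lit 64940) (nat_lit 17) (node (nat_lit 6) (nat_lit 64940) (nat_lit 18)
  (node (nat_lit 4) (nat_lit 64940) (nat_lit 19) (node (nat_lit 5) (nat_lit 64940) (nat_lit 20)
  nil nil) nil) (node (nat_lit 4) (nat_lit 64940) (nat_lit 18) (node (nat_lit 5) (nat_lit 64940)
  (nat_lit 19) (node (nat_lit 6) (nat_lit 64940) (nat_lit 20) nil nil) nil) nil)) nil) (node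
  (nat_lit 0) (nat_lit 64940) (nat_lit 16) (node (nat_lit 5) (nat_lit 64940) (nat_lit 17) nil
  (node (nat_lit 6) (nat_lit 64940) (nat_lit 17) nil nil)) (node (nat_lit 2) (nat_lit 64940)
  (nat_lit 16) (node (nat_lit 5) (nat_lit 64940) (nat_lit 17) nil (node (nat_lit 6) (nat_lit
  64940) (nat_lit 17) nil nil)) nil))) (node (nat_lit 5) (nat_lit 64940) (nat_lit 15) (node
  (nat_lit 4) (nat_lit 64940) (nat_lit 16) (node (nat_lit 6) (nat_lit 64940) (nat_lit 17) (node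
  (nat_lit 4) (nat_lit 64940) (nat_lit 18) (node (nat_lit 5) (nat_lit 64940) (nat_lit 19) nil nil)
  nil) (node (nat_lit 5) (nat_lit 64940) (nat_lit 17) (node (nat_lit 6) (nat_lit 58974) (nat_lit
  18) (node (nat_lit 4) (nat_lit 51642) (nat_lit 19) (node (nat_lit 6) (nat_lit 51765) (nat_lit
  20) (node (nat_lit 5) (nat_lit 51861) (nat_lit 21) nil nil) nil) nil) nil) nil)) nil) (node
  (nat_lit 0) (nat_lit 64940) (nat_lit 15) (node (nat_lit 5) (nat_lit 64940) (nat_lit 16) (node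
  (nat_lit 4) (nat_lit 64940) (nat_lit 17) nil (node (nat_lit 6) (nat_lit 64940) (nat_lit 17) nil
  nil)) (node (nat_lit 6) (nat_lit 64940) (nat_lit 16) (node (nat_lit 4) (nat_lit 64940) (nat_lit
  17) (node (nat_lit 5) (nat_lit 64940) (nat_lit 18) nil nil) (node (nat_lit 5) (nat_lit 64940)
  (nat_lit 17) nil nil)) nil)) (node (nat_lit 2) (nat_lit 64940) (nat_lit 15) (node (nat_lit 5)
  (nat_lit 64940) (nat_lit 16) (node (nat_lit 4) (nat_lit 64940) (nat_lit 17) nil (node (nat_lit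
  6) (nat_lit 64940) (nat_lit 17) nil nil)) (node (nat_lit 6) (nat_lit 64940) (nat_lit 16) (node
  (nat_lit 4) (nat_lit 64940) (nat_lit 17) (node (nat_lit 5) (nat_lit 64940) (nat_lit 18) nil nil)
  (node (nat_lit 5) (nat_lit 64940) (nat_lit 17) nil nil)) nil)) nil)))) (node (nat_lit 0)
  (nat_lit 64940) (nat_lit 14) (node (nat_lit 5) (nat_lit 64940) (nat_lit 15) (node (nat_lit 4)
  (nat_lit 64940) (nat_lit 16) (node (nat_lit 5) (nat_lit 64940) (nat_lit 17) nil nil) (node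
  (nat_lit 6) (nat_lit 64940) (nat_lit 16) (node (nat_lit 4) (nat_lit 64940) (nat_lit 17) nil nil)
  nil)) (node (nat_lit 6) (nat_lit 64940) (nat_lit 15) (node (nat_lit 4) (nat_lit 64940) (nat_lit
  16) nil (node (nat_lit 5) (nat_lit 64940) (nat_lit 16) nil nil)) (node (nat_lit 4) (nat_lit
  64940) (nat_lit 15) (node (nat_lit 6) (nat_lit 64940) (nat_lit 16) nil nil) nil))) (node
  (nat_lit 2) (nat_lit 64940) (nat_lit 14) (node (nat_lit 5) (nat_lit 64940) (nat_lit 15) (node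
  (nat_lit 4) (nat_lit 64940) (nat_lit 16) (node (nat_lit 5) (nat_lit 64940) (nat_lit 17) nil nil)
  (node (nat_lit 6) (nat_lit 64940) (nat_lit 16) (node (nat_lit 4) (nat_lit 64940) (nat_lit 17)
  nil nil) nil)) (node (nat_lit 6) (nat_lit 64940) (nat_lit 15) (node (nat_lit 4) (nat_lit 64940)
  (nat_lit 16) nil (node (nat_lit 5) (nat_lit 64940) (nat_lit 16) nil nil)) (node (nat_lit 4)
  (nat_lit 64940) (nat_lit 15) (node (nat_lit 6) (nat_lit 64940) (nat_lit 16) nil nil) nil)))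
  nil))) (node (nat_lit 0) (nat_lit 64940) (nat_lit 13) (node (nat_lit 6) (nat_lit 64940) (nat_lit
  14) (node (nat_lit 4) (nat_lit 64940) (nat_lit 15) (node (nat_lit 5) (nat_lit 64940) (nat_lit
  16) nil nil) (node (nat_lit 5) (nat_lit 64940) (nat_lit 15) nil nil)) (node (nat_lit 5) (nat_lit
  64940) (nat_lit 14) (node (nat_lit 4) (nat_lit 64940) (nat_lit 15) (node (nat_lit 5) (nat_lit
  64940) (nat_lit 16) (node (nat_lit 6) (nat_lit 64940) (nat_lit 17) nil nil) nil) (node (nat_lit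
  6) (nat_lit 64940) (nat_lit 15) (node (nat_lit 4) (nat_lit 64940) (nat_lit 16) nil nil) nil))
  (node (nat_lit 4) (nat_lit 64940) (nat_lit 14) (node (nat_lit 6) (nat_lit 64940) (nat_lit 15)
  (node (nat_lit 4) (nat_lit 64940) (nat_lit 16) nil (node (nat_lit 5) (nat_lit 64940) (nat_lit
  16) nil nil)) nil) nil))) (node (nat_lit 2) (nat_lit 63110) (nat_lit 13) (node (nat_lit 6)
  (nat_lit 63110) (nat_lit 14) (node (nat_lit 4) (nat_lit 63110) (nat_lit 15) (node (nat_lit 5)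
  (nat_lit 64537) (nat_lit 16) (node (nat_lit 6) (nat_lit 64537) (nat_lit 17) nil nil) nil) (node
  (nat_lit 5) (nat_lit 64451) (nat_lit 15) (node (nat_lit 6) (nat_lit 64451) (nat_lit 16) nil nil)
  nil)) (node (nat_lit 5) (nat_lit 64940) (nat_lit 14) (node (nat_lit 4) (nat_lit 64940) (nat_lit
  15) (node (nat_lit 5) (nat_lit 64940) (nat_lit 16) (node (nat_lit 6) (nat_lit 64940) (nat_lit
  17) (node (nat_lit 5) (nat_lit 64940) (nat_lit 18) nil nil) nil) nil) (node (nat_lit 6) (nat_lit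
  64940) (nat_lit 15) (node (nat_lit 4) (nat_lit 64940) (nat_lit 16) nil nil) nil)) (node (nat_lit
  4) (nat_lit 63110) (nat_lit 14) (node (nat_lit 6) (nat_lit 63110) (nat_lit 15) (node (nat_lit 4)
  (nat_lit 63110) (nat_lit 16) nil (node (nat_lit 5) (nat_lit 64537) (nat_lit 16) nil nil)) (node
  (nat_lit 5) (nat_lit 64451) (nat_lit 15) nil nil)) (node (nat_lit 0) (nat_lit 64341) (nat_lit
  14) nil nil)))) nil))) (node (nat_lit 5) (nat_lit 0) (nat_lit 12) (node (nat_lit 4) (nat_lit 0)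
  (nat_lit 13) (node (nat_lit 5) (nat_lit 64940) (nat_lit 14) (node (nat_lit 6) (nat_lit 64940)
  (nat_lit 15) (node (nat_lit 4) (nat_lit 64940) (nat_lit 16) (node (nat_lit 6) (nat_lit 64940)
  (nat_lit 17) (node (nat_lit 5) (nat_lit 64940) (nat_lit 18) nil nil) nil) (node (nat_lit 5)
  (nat_lit 64940) (nat_lit 16) (node (nat_lit 4) (nat_lit 64940) (nat_lit 17) (node (nat_lit 6)
  (nat_lit 64940) (nat_lit 18) (node (nat_lit 4) (nat_lit 64940) (nat_lit 19) (node (nat_lit 5)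
  (nat_lit 64940) (nat_lit 20) nil nil) nil) nil) nil) nil)) nil) (node (nat_lit 0) (nat_lit
  64940) (nat_lit 14) (node (nat_lit 5) (nat_lit 64940) (nat_lit 15) nil (node (nat_lit 6)
  (nat_lit 64940) (nat_lit 15) nil nil)) (node (nat_lit 2) (nat_lit 64755) (nat_lit 14) (node
  (nat_lit 5) (nat_lit 64940) (nat_lit 15) nil (node (nat_lit 6) (nat_lit 64755) (nat_lit 15) nil
  nil)) nil))) (node (nat_lit 6) (nat_lit 64755) (nat_lit 13) (node (nat_lit 4) (nat_lit 64755)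
  (nat_lit 14) (node (nat_lit 5) (nat_lit 64940) (nat_lit 15) (node (nat_lit 6) (nat_lit 64940)
  (nat_lit 16) (node (nat_lit 5) (nat_lit 64940) (nat_lit 17) (node (nat_lit 4) (nat_lit 64940)
  (nat_lit 18) (node (nat_lit 5) (nat_lit 64940) (nat_lit 19) (node (nat_lit 6) (nat_lit 64940)
  (nat_lit 20) (node (nat_lit 4) (nat_lit 64940) (nat_lit 21) (node (nat_lit 5) (nat_lit 64940)
  (nat_lit 22) nil nil) nil) nil) nil) nil) nil) nil) (node (nat_lit 6) (nat_lit 64755) (nat_lit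
  15) (node (nat_lit 5) (nat_lit 64940) (nat_lit 16) (node (nat_lit 4) (nat_lit 64940) (nat_lit
  17) (node (nat_lit 5) (nat_lit 64940) (nat_lit 18) (node (nat_lit 6) (nat_lit 64940) (nat_lit
  19) (node (nat_lit 5) (nat_lit 64940) (nat_lit 20) (node (nat_lit 4) (nat_lit 64940) (nat_lit
  21) nil nil) nil) nil) nil) nil) nil) nil)) nil) (node (nat_lit 0) (nat_lit 64935) (nat_lit 13)
  (node (nat_lit 5) (nat_lit 64940) (nat_lit 14) nil (node (nat_lit 6) (nat_lit 64935) (nat_lit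
  14) nil nil)) (node (nat_lit 2) (nat_lit 64755) (nat_lit 13) (node (nat_lit 5) (nat_lit 64940)
  (nat_lit 14) nil (node (nat_lit 6) (nat_lit 64755) (nat_lit 14) nil nil)) nil)))) (node (nat_lit
  0) (nat_lit 64755) (nat_lit 12) (node (nat_lit 4) (nat_lit 64755) (nat_lit 13) (node (nat_lit 6)
  (nat_lit 64755) (nat_lit 14) nil nil) (node (nat_lit 6) (nat_lit 64755) (nat_lit 13) (node
  (nat_lit 4) (nat_lit 64755) (nat_lit 14) (node (nat_lit 5) (nat_lit 64940) (nat_lit 15) nil nil)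
  (node (nat_lit 5) (nat_lit 64940) (nat_lit 14) nil nil)) (node (nat_lit 5) (nat_lit 64935)
  (nat_lit 13) (node (nat_lit 4) (nat_lit 64935) (nat_lit 14) nil (node (nat_lit 6) (nat_lit
  64935) (nat_lit 14) nil nil)) nil))) (node (nat_lit 2) (nat_lit 63110) (nat_lit 12) (node
  (nat_lit 4) (nat_lit 63110) (nat_lit 13) (node (nat_lit 6) (nat_lit 63110) (nat_lit 14) (node
  (nat_lit 4) (nat_lit 63110) (nat_lit 15) nil nil) nil) (node (nat_lit 6) (nat_lit 63110)
  (nat_lit 13) (node (nat_lit 4) (nat_lit 63110) (nat_lit 14) (node (nat_lit 5) (nat_lit 64451)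
  (nat_lit 15) nil nil) (node (nat_lit 5) (nat_lit 64341) (nat_lit 14) nil nil)) (node (nat_lit 5)
  (nat_lit 64199) (nat_lit 13) (node (nat_lit 4) (nat_lit 64199) (nat_lit 14) nil (node (nat_lit
  6) (nat_lit 64199) (nat_lit 14) nil nil)) nil))) nil)))) (node (nat_lit 0) (nat_lit 64335)
  (nat_lit 11) (node (nat_lit 5) (nat_lit 64567) (nat_lit 12) (node (nat_lit 4) (nat_lit 64567)
  (nat_lit 13) nil nil) (node (nat_lit 4) (nat_lit 64335) (nat_lit 12) (node (nat_lit 6) (nat_lit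
  64335) (nat_lit 13) nil nil) (node (nat_lit 6) (nat_lit 64335) (nat_lit 12) nil nil))) (node
  (nat_lit 2) (nat_lit 63110) (nat_lit 11) (node (nat_lit 5) (nat_lit 64019) (nat_lit 12) (node
  (nat_lit 4) (nat_lit 64019) (nat_lit 13) nil nil) (node (nat_lit 4) (nat_lit 63110) (nat_lit 12)
  (node (nat_lit 6) (nat_lit 63110) (nat_lit 13) nil nil) (node (nat_lit 6) (nat_lit 63110)
  (nat_lit 12) nil nil))) nil))) (node (nat_lit 0) (nat_lit 0) (nat_lit 10) (node (nat_lit 6)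
  (nat_lit 63800) (nat_lit 11) (node (nat_lit 4) (nat_lit 63800) (nat_lit 12) (node (nat_lit 5)
  (nat_lit 64508) (nat_lit 13) (node (nat_lit 6) (nat_lit 64508) (nat_lit 14) nil nil) nil) (node
  (nat_lit 5) (nat_lit 64328) (nat_lit 12) (node (nat_lit 4) (nat_lit 64328) (nat_lit 13) nil nil)
  nil)) (node (nat_lit 5) (nat_lit 64096) (nat_lit 11) (node (nat_lit 4) (nat_lit 64096) (nat_lit
  12) (node (nat_lit 5) (nat_lit 64508) (nat_lit 13) nil nil) (node (nat_lit 6) (nat_lit 64096)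
  (nat_lit 12) (node (nat_lit 4) (nat_lit 64096) (nat_lit 13) nil nil) nil)) (node (nat_lit 4)
  (nat_lit 63800) (nat_lit 11) (node (nat_lit 6) (nat_lit 63800) (nat_lit 12) (node (nat_lit 5)
  (nat_lit 64508) (nat_lit 13) nil nil) nil) (node (nat_lit 0) (nat_lit 64096) (nat_lit 11) nil
  (node (nat_lit 2) (nat_lit 63800) (nat_lit 11) nil nil))))) (node (nat_lit 2) (nat_lit 0)
  (nat_lit 10) (node (nat_lit 6) (nat_lit 63110) (nat_lit 11) (node (nat_lit 4) (nat_lit 63110)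
  (nat_lit 12) (node (nat_lit 5) (nat_lit 64199) (nat_lit 13) (node (nat_lit 6) (nat_lit 64199)
  (nat_lit 14) nil nil) nil) (node (nat_lit 5) (nat_lit 64019) (nat_lit 12) (node (nat_lit 4)
  (nat_lit 64019) (nat_lit 13) nil nil) nil)) (node (nat_lit 5) (nat_lit 63787) (nat_lit 11) (node
  (nat_lit 4) (nat_lit 63787) (nat_lit 12) (node (nat_lit 5) (nat_lit 64199) (nat_lit 13) (node
  (nat_lit 6) (nat_lit 64199) (nat_lit 14) nil nil) nil) (node (nat_lit 6) (nat_lit 63787)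
  (nat_lit 12) (node (nat_lit 4) (nat_lit 63787) (nat_lit 13) nil nil) nil)) (node (nat_lit 4)
  (nat_lit 63110) (nat_lit 11) (node (nat_lit 6) (nat_lit 63110) (nat_lit 12) (node (nat_lit 5)
  (nat_lit 64199) (nat_lit 13) nil nil) nil) (node (nat_lit 0) (nat_lit 63787) (nat_lit 11) (node
  (nat_lit 5) (nat_lit 64019) (nat_lit 12) nil nil) nil)))) nil))) (node (nat_lit 0) (nat_lit
  62978) (nat_lit 9) (node (nat_lit 6) (nat_lit 62978) (nat_lit 10) (node (nat_lit 4) (nat_lit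
  62978) (nat_lit 11) (node (nat_lit 5) (nat_lit 63887) (nat_lit 12) (node (nat_lit 6) (nat_lit
  63887) (nat_lit 13) nil nil) nil) (node (nat_lit 5) (nat_lit 63655) (nat_lit 11) nil nil)) (node
  (nat_lit 5) (nat_lit 63668) (nat_lit 10) (node (nat_lit 6) (nat_lit 63668) (nat_lit 11) nil
  (node (nat_lit 4) (nat_lit 63668) (nat_lit 11) (node (nat_lit 5) (nat_lit 64196) (nat_lit 12)
  nil nil) nil)) (node (nat_lit 4) (nat_lit 62978) (nat_lit 10) (node (nat_lit 6) (nat_lit 62978)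
  (nat_lit 11) nil nil) nil))) (node (nat_lit 2) (nat_lit 0) (nat_lit 9) (node (nat_lit 6)
  (nat_lit 57720) (nat_lit 10) (node (nat_lit 4) (nat_lit 57720) (nat_lit 11) (node (nat_lit 5)
  (nat_lit 58801) (nat_lit 12) (node (nat_lit 6) (nat_lit 54849) (nat_lit 13) nil nil) nil) (node
  (nat_lit 5) (nat_lit 62405) (nat_lit 11) (node (nat_lit 4) (nat_lit 62405) (nat_lit 12) nil nil)
  nil)) (node (nat_lit 5) (nat_lit 62967) (nat_lit 10) (node (nat_lit 6) (nat_lit 62967) (nat_lit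
  11) (node (nat_lit 4) (nat_lit 62967) (nat_lit 12) nil nil) (node (nat_lit 4) (nat_lit 62967)
  (nat_lit 11) (node (nat_lit 5) (nat_lit 63495) (nat_lit 12) nil nil) nil)) (node (nat_lit 4)
  (nat_lit 57720) (nat_lit 10) (node (nat_lit 6) (nat_lit 57720) (nat_lit 11) (node (nat_lit 4)
  (nat_lit 57720) (nat_lit 12) nil nil) (node (nat_lit 5) (nat_lit 62405) (nat_lit 11) nil nil))
  (node (nat_lit 0) (nat_lit 62656) (nat_lit 10) nil nil)))) nil))))

noncomputable def t125 : Tr :=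
  (node (nat_lit 4) (nat_lit 0) (nat_lit 9) (node (nat_lit 7) (nat_lit 0) (nat_lit 10) (node
  (nat_lit 5) (nat_lit 0) (nat_lit 11) (node (nat_lit 7) (nat_lit 0) (nat_lit 12) (node (nat_lit
  4) (nat_lit 0) (nat_lit 13) (node (nat_lit 5) (nat_lit 0) (nat_lit 14) (node (nat_lit 7)
  (nat_lit 0) (nat_lit 15) (node (nat_lit 5) (nat_lit 65630) (nat_lit 16) (node (nat_lit 4)
  (nat_lit 65630) (nat_lit 17) (node (nat_lit 7) (nat_lit 65630) (nat_lit 18) (node (nat_lit 4)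
  (nat_lit 65630) (nat_lit 19) (node (nat_lit 5) (nat_lit 65766) (nat_lit 20) (node (nat_lit 4)
  (nat_lit 65766) (nat_lit 21) (node (nat_lit 7) (nat_lit 65766) (nat_lit 22) (node (nat_lit 5)
  (nat_lit 65766) (nat_lit 23) nil nil) nil) nil) nil) nil) (node (nat_lit 5) (nat_lit 65753)
  (nat_lit 18) (node (nat_lit 7) (nat_lit 65753) (nat_lit 19) (node (nat_lit 4) (nat_lit 65753)
  (nat_lit 20) (node (nat_lit 5) (nat_lit 65766) (nat_lit 21) (node (nat_lit 4) (nat_lit 65766)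
  (nat_lit 22) (node (nat_lit 7) (nat_lit 65766) (nat_lit 23) (node (nat_lit 5) (nat_lit 65766)
  (nat_lit 24) (node (nat_lit 4) (nat_lit 65766) (nat_lit 25) (node (nat_lit 5) (nat_lit 65766)
  (nat_lit 26) nil nil) nil) nil) nil) nil) (node (nat_lit 7) (nat_lit 65753) (nat_lit 21) nil
  nil)) nil) nil) nil)) nil) (node (nat_lit 0) (nat_lit 65630) (nat_lit 16) (node (nat_lit 7)
  (nat_lit 65630) (nat_lit 17) (node (nat_lit 4) (nat_lit 65630) (nat_lit 18) (node (nat_lit 5)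
  (nat_lit 65766) (nat_lit 19) nil nil) nil) nil) (node (nat_lit 2) (nat_lit 65425) (nat_lit 16)
  (node (nat_lit 7) (nat_lit 65425) (nat_lit 17) (node (nat_lit 4) (nat_lit 65425) (nat_lit 18)
  (node (nat_lit 5) (nat_lit 65766) (nat_lit 19) nil nil) nil) nil) nil))) (node (nat_lit 4)
  (nat_lit 0) (nat_lit 15) (node (nat_lit 7) (nat_lit 65425) (nat_lit 16) (node (nat_lit 5)
  (nat_lit 65698) (nat_lit 17) (node (nat_lit 4) (nat_lit 65698) (nat_lit 18) (node (nat_lit 5)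
  (nat_lit 65766) (nat_lit 19) (node (nat_lit 7) (nat_lit 65766) (nat_lit 20) (node (nat_lit 4)
  (nat_lit 65766) (nat_lit 21) nil nil) nil) nil) (node (nat_lit 7) (nat_lit 65698) (nat_lit 18)
  (node (nat_lit 4) (nat_lit 65698) (nat_lit 19) nil nil) nil)) (node (nat_lit 4) (nat_lit 65425)
  (nat_lit 17) (node (nat_lit 5) (nat_lit 65753) (nat_lit 18) nil nil) nil)) (node (nat_lit 2)
  (nat_lit 65425) (nat_lit 16) nil (node (nat_lit 0) (nat_lit 65630) (nat_lit 16) nil nil))) (node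
  (nat_lit 0) (nat_lit 65540) (nat_lit 15) (node (nat_lit 7) (nat_lit 65540) (nat_lit 16) (node
  (nat_lit 4) (nat_lit 65540) (nat_lit 17) nil nil) nil) (node (nat_lit 2) (nat_lit 65425)
  (nat_lit 15) (node (nat_lit 7) (nat_lit 65425) (nat_lit 16) (node (nat_lit 4) (nat_lit 65425)
  (nat_lit 17) nil nil) (node (nat_lit 5) (nat_lit 65630) (nat_lit 16) (node (nat_lit 7) (nat_lit
  65630) (nat_lit 17) (node (nat_lit 4) (nat_lit 65630) (nat_lit 18) nil nil) nil) nil)) nil))))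
  (node (nat_lit 0) (nat_lit 65425) (nat_lit 14) (node (nat_lit 4) (nat_lit 65425) (nat_lit 15)
  (node (nat_lit 7) (nat_lit 65425) (nat_lit 16) nil nil) (node (nat_lit 7) (nat_lit 65425)
  (nat_lit 15) (node (nat_lit 4) (nat_lit 65425) (nat_lit 16) nil nil) (node (nat_lit 5) (nat_lit
  65540) (nat_lit 15) (node (nat_lit 7) (nat_lit 65540) (nat_lit 16) nil nil) nil))) (node
  (nat_lit 2) (nat_lit 64546) (nat_lit 14) (node (nat_lit 4) (nat_lit 64546) (nat_lit 15) (node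
  (nat_lit 7) (nat_lit 64546) (nat_lit 16) nil (node (nat_lit 5) (nat_lit 65325) (nat_lit 16) nil
  nil)) (node (nat_lit 7) (nat_lit 64546) (nat_lit 15) (node (nat_lit 4) (nat_lit 64546) (nat_lit
  16) nil nil) (node (nat_lit 5) (nat_lit 65235) (nat_lit 15) (node (nat_lit 7) (nat_lit 65235)
  (nat_lit 16) nil nil) nil))) nil))) (node (nat_lit 0) (nat_lit 65254) (nat_lit 13) (node
  (nat_lit 7) (nat_lit 65254) (nat_lit 14) (node (nat_lit 4) (nat_lit 65254) (nat_lit 15) (node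
  (nat_lit 5) (nat_lit 65605) (nat_lit 16) (node (nat_lit 4) (nat_lit 65605) (nat_lit 17) nil nil)
  nil) (node (nat_lit 5) (nat_lit 65515) (nat_lit 15) nil nil)) (node (nat_lit 5) (nat_lit 65401)
  (nat_lit 14) (node (nat_lit 7) (nat_lit 65401) (nat_lit 15) (node (nat_lit 4) (nat_lit 65401)
  (nat_lit 16) (node (nat_lit 5) (nat_lit 65673) (nat_lit 17) (node (nat_lit 4) (nat_lit 65673)
  (nat_lit 18) nil nil) nil) nil) nil) (node (nat_lit 4) (nat_lit 65254) (nat_lit 14) (node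
  (nat_lit 7) (nat_lit 65254) (nat_lit 15) (node (nat_lit 4) (nat_lit 65254) (nat_lit 16) nil nil)
  (node (nat_lit 5) (nat_lit 65515) (nat_lit 15) (node (nat_lit 7) (nat_lit 65515) (nat_lit 16)
  nil nil) nil)) nil))) (node (nat_lit 2) (nat_lit 64546) (nat_lit 13) (node (nat_lit 7) (nat_lit
  64546) (nat_lit 14) (node (nat_lit 4) (nat_lit 64546) (nat_lit 15) (node (nat_lit 5) (nat_lit
  65325) (nat_lit 16) (node (nat_lit 4) (nat_lit 65325) (nat_lit 17) nil nil) nil) (node (nat_lit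
  5) (nat_lit 65235) (nat_lit 15) (node (nat_lit 7) (nat_lit 65235) (nat_lit 16) nil nil) nil))
  (node (nat_lit 5) (nat_lit 65120) (nat_lit 14) (node (nat_lit 7) (nat_lit 65120) (nat_lit 15)
  (node (nat_lit 4) (nat_lit 65120) (nat_lit 16) (node (nat_lit 5) (nat_lit 65393) (nat_lit 17)
  (node (nat_lit 4) (nat_lit 65393) (nat_lit 18) nil nil) nil) nil) nil) (node (nat_lit 4)
  (nat_lit 64546) (nat_lit 14) (node (nat_lit 7) (nat_lit 64546) (nat_lit 15) (node (nat_lit 4)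
  (nat_lit 64546) (nat_lit 16) nil nil) (node (nat_lit 5) (nat_lit 65235) (nat_lit 15) (node
  (nat_lit 7) (nat_lit 65235) (nat_lit 16) nil nil) nil)) nil))) nil))) (node (nat_lit 4) (nat_lit
  0) (nat_lit 12) (node (nat_lit 7) (nat_lit 0) (nat_lit 13) (node (nat_lit 4) (nat_lit 0)
  (nat_lit 14) (node (nat_lit 5) (nat_lit 65235) (nat_lit 15) (node (nat_lit 4) (nat_lit 65235)
  (nat_lit 16) (node (nat_lit 7) (nat_lit 65235) (nat_lit 17) (node (nat_lit 5) (nat_lit 65448)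
  (nat_lit 18) (node (nat_lit 4) (nat_lit 65448) (nat_lit 19) (node (nat_lit 5) (nat_lit 65524)
  (nat_lit 20) (node (nat_lit 7) (nat_lit 60506) (nat_lit 21) (node (nat_lit 4) (nat_lit 43808)
  (nat_lit 22) (node (nat_lit 7) (nat_lit 26268) (nat_lit 23) nil nil) nil) nil) nil) nil) nil)
  nil) (node (nat_lit 7) (nat_lit 65235) (nat_lit 16) nil nil)) (node (nat_lit 0) (nat_lit 65235)
  (nat_lit 15) (node (nat_lit 7) (nat_lit 65235) (nat_lit 16) nil nil) (node (nat_lit 2) (nat_lit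
  64546) (nat_lit 15) (node (nat_lit 7) (nat_lit 64546) (nat_lit 16) nil nil) nil))) (node
  (nat_lit 2) (nat_lit 64546) (nat_lit 14) (node (nat_lit 7) (nat_lit 64546) (nat_lit 15) nil nil)
  (node (nat_lit 0) (nat_lit 65120) (nat_lit 14) (node (nat_lit 7) (nat_lit 65120) (nat_lit 15)
  nil nil) nil))) (node (nat_lit 0) (nat_lit 64974) (nat_lit 13) (node (nat_lit 7) (nat_lit 64974)
  (nat_lit 14) nil nil) (node (nat_lit 2) (nat_lit 64546) (nat_lit 13) (node (nat_lit 7) (nat_lit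
  64546) (nat_lit 14) nil nil) (node (nat_lit 5) (nat_lit 64974) (nat_lit 13) nil nil)))) (node
  (nat_lit 0) (nat_lit 64975) (nat_lit 12) (node (nat_lit 7) (nat_lit 64975) (nat_lit 13) (node
  (nat_lit 4) (nat_lit 64975) (nat_lit 14) (node (nat_lit 5) (nat_lit 65424) (nat_lit 15) nil nil)
  nil) (node (nat_lit 5) (nat_lit 65163) (nat_lit 13) (node (nat_lit 7) (nat_lit 65163) (nat_lit
  14) (node (nat_lit 4) (nat_lit 65163) (nat_lit 15) nil nil) nil) (node (nat_lit 4) (nat_lit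
  64975) (nat_lit 13) (node (nat_lit 7) (nat_lit 64975) (nat_lit 14) nil nil) nil))) (node
  (nat_lit 2) (nat_lit 64546) (nat_lit 12) (node (nat_lit 7) (nat_lit 64546) (nat_lit 13) (node
  (nat_lit 5) (nat_lit 65120) (nat_lit 14) (node (nat_lit 7) (nat_lit 65120) (nat_lit 15) nil nil)
  (node (nat_lit 4) (nat_lit 64546) (nat_lit 14) (node (nat_lit 5) (nat_lit 65235) (nat_lit 15)
  nil nil) nil)) (node (nat_lit 5) (nat_lit 64974) (nat_lit 13) (node (nat_lit 7) (nat_lit 64974)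
  (nat_lit 14) (node (nat_lit 4) (nat_lit 64974) (nat_lit 15) nil nil) nil) (node (nat_lit 4)
  (nat_lit 64546) (nat_lit 13) (node (nat_lit 7) (nat_lit 64546) (nat_lit 14) nil nil) nil)))
  nil)))) (node (nat_lit 0) (nat_lit 63390) (nat_lit 11) (node (nat_lit 7) (nat_lit 63390)
  (nat_lit 12) (node (nat_lit 4) (nat_lit 63390) (nat_lit 13) (node (nat_lit 5) (nat_lit 63965)
  (nat_lit 14) nil nil) nil) (node (nat_lit 5) (nat_lit 63631) (nat_lit 12) (node (nat_lit 7)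
  (nat_lit 63631) (nat_lit 13) nil nil) nil)) (node (nat_lit 2) (nat_lit 60086) (nat_lit 11) (node
  (nat_lit 4) (nat_lit 60086) (nat_lit 12) (node (nat_lit 7) (nat_lit 60086) (nat_lit 13) (node
  (nat_lit 4) (nat_lit 60086) (nat_lit 14) nil nil) (node (nat_lit 14) (nat_lit 60086) (nat_lit
  13) nil nil)) (node (nat_lit 7) (nat_lit 60086) (nat_lit 12) (node (nat_lit 4) (nat_lit 60086)
  (nat_lit 13) (node (nat_lit 5) (nat_lit 62517) (nat_lit 14) (node (nat_lit 4) (nat_lit 62517)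
  (nat_lit 15) nil nil) nil) (node (nat_lit 5) (nat_lit 62370) (nat_lit 13) (node (nat_lit 7)
  (nat_lit 62370) (nat_lit 14) nil nil) nil)) (node (nat_lit 5) (nat_lit 63819) (nat_lit 12) (node
  (nat_lit 7) (nat_lit 63819) (nat_lit 13) nil nil) (node (nat_lit 0) (nat_lit 62183) (nat_lit 12)
  nil nil)))) nil))) (node (nat_lit 5) (nat_lit 0) (nat_lit 10) (node (nat_lit 4) (nat_lit 0)
  (nat_lit 11) (node (nat_lit 7) (nat_lit 0) (nat_lit 12) (node (nat_lit 5) (nat_lit 64611)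
  (nat_lit 13) nil (node (nat_lit 4) (nat_lit 63875) (nat_lit 13) (node (nat_lit 5) (nat_lit
  64758) (nat_lit 14) nil nil) (node (nat_lit 2) (nat_lit 63875) (nat_lit 13) (node (nat_lit 7)
  (nat_lit 63875) (nat_lit 14) nil nil) (node (nat_lit 0) (nat_lit 64611) (nat_lit 13) (node
  (nat_lit 7) (nat_lit 64611) (nat_lit 14) nil nil) nil)))) (node (nat_lit 0) (nat_lit 64424)
  (nat_lit 12) (node (nat_lit 7) (nat_lit 64424) (nat_lit 13) nil (node (nat_lit 4) (nat_lit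
  64424) (nat_lit 13) nil nil)) (node (nat_lit 2) (nat_lit 63875) (nat_lit 12) (node (nat_lit 7)
  (nat_lit 63875) (nat_lit 13) nil (node (nat_lit 4) (nat_lit 63875) (nat_lit 13) nil (node
  (nat_lit 5) (nat_lit 64611) (nat_lit 13) nil nil))) nil))) (node (nat_lit 0) (nat_lit 64424)
  (nat_lit 11) (node (nat_lit 5) (nat_lit 64665) (nat_lit 12) (node (nat_lit 7) (nat_lit 64665)
  (nat_lit 13) nil nil) (node (nat_lit 7) (nat_lit 64424) (nat_lit 12) (node (nat_lit 4) (nat_lit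
  64424) (nat_lit 13) nil nil) (node (nat_lit 4) (nat_lit 64424) (nat_lit 12) (node (nat_lit 7)
  (nat_lit 64424) (nat_lit 13) nil nil) nil))) (node (nat_lit 2) (nat_lit 63875) (nat_lit 11)
  (node (nat_lit 5) (nat_lit 64424) (nat_lit 12) (node (nat_lit 7) (nat_lit 64424) (nat_lit 13)
  nil nil) (node (nat_lit 7) (nat_lit 63875) (nat_lit 12) (node (nat_lit 4) (nat_lit 63875)
  (nat_lit 13) nil nil) (node (nat_lit 4) (nat_lit 63875) (nat_lit 12) (node (nat_lit 7) (nat_lit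
  63875) (nat_lit 13) nil nil) nil))) nil))) (node (nat_lit 0) (nat_lit 0) (nat_lit 10) (node
  (nat_lit 7) (nat_lit 63623) (nat_lit 11) (node (nat_lit 4) (nat_lit 63623) (nat_lit 12) (node
  (nat_lit 5) (nat_lit 64358) (nat_lit 13) nil nil) nil) (node (nat_lit 5) (nat_lit 63930)
  (nat_lit 11) (node (nat_lit 7) (nat_lit 63930) (nat_lit 12) nil nil) (node (nat_lit 4) (nat_lit
  63623) (nat_lit 11) (node (nat_lit 7) (nat_lit 63623) (nat_lit 12) (node (nat_lit 4) (nat_lit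
  63623) (nat_lit 13) nil nil) nil) (node (nat_lit 0) (nat_lit 63930) (nat_lit 11) nil (node
  (nat_lit 2) (nat_lit 63623) (nat_lit 11) nil nil))))) (node (nat_lit 2) (nat_lit 0) (nat_lit 10)
  (node (nat_lit 7) (nat_lit 60086) (nat_lit 11) (node (nat_lit 4) (nat_lit 60086) (nat_lit 12)
  (node (nat_lit 5) (nat_lit 62370) (nat_lit 13) (node (nat_lit 4) (nat_lit 62370) (nat_lit 14)
  nil nil) nil) (node (nat_lit 5) (nat_lit 62183) (nat_lit 12) nil (node (nat_lit 13) (nat_lit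
  60086) (nat_lit 12) nil nil))) (node (nat_lit 5) (nat_lit 63390) (nat_lit 11) (node (nat_lit 7)
  (nat_lit 63390) (nat_lit 12) nil nil) (node (nat_lit 4) (nat_lit 60086) (nat_lit 11) (node
  (nat_lit 7) (nat_lit 60086) (nat_lit 12) (node (nat_lit 4) (nat_lit 60086) (nat_lit 13) nil nil)
  (node (nat_lit 5) (nat_lit 62183) (nat_lit 12) nil nil)) (node (nat_lit 0) (nat_lit 63390)
  (nat_lit 11) nil nil)))) nil)))) (node (nat_lit 5) (nat_lit 0) (nat_lit 9) (node (nat_lit 4)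
  (nat_lit 0) (nat_lit 10) (node (nat_lit 7) (nat_lit 0) (nat_lit 11) (node (nat_lit 5) (nat_lit
  0) (nat_lit 12) (node (nat_lit 7) (nat_lit 64829) (nat_lit 13) (node (nat_lit 4) (nat_lit 0)
  (nat_lit 14) (node (nat_lit 5) (nat_lit 0) (nat_lit 15) (node (nat_lit 7) (nat_lit 65492)
  (nat_lit 16) (node (nat_lit 5) (nat_lit 65650) (nat_lit 17) nil nil) (node (nat_lit 4) (nat_lit
  65492) (nat_lit 16) (node (nat_lit 7) (nat_lit 65492) (nat_lit 17) (node (nat_lit 5) (nat_lit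
  65705) (nat_lit 18) (node (nat_lit 4) (nat_lit 65705) (nat_lit 19) (node (nat_lit 5) (nat_lit
  65766) (nat_lit 20) (node (nat_lit 7) (nat_lit 65766) (nat_lit 21) (node (nat_lit 5) (nat_lit
  65766) (nat_lit 22) (node (nat_lit 4) (nat_lit 65766) (nat_lit 23) nil nil) nil) nil) nil) nil)
  (node (nat_lit 4) (nat_lit 65492) (nat_lit 18) (node (nat_lit 5) (nat_lit 65747) (nat_lit 19)
  nil nil) nil)) nil) (node (nat_lit 0) (nat_lit 65582) (nat_lit 16) nil (node (nat_lit 2)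
  (nat_lit 65492) (nat_lit 16) nil nil)))) (node (nat_lit 7) (nat_lit 64829) (nat_lit 15) (node
  (nat_lit 5) (nat_lit 65367) (nat_lit 16) (node (nat_lit 4) (nat_lit 65367) (nat_lit 17) (node
  (nat_lit 5) (nat_lit 65491) (nat_lit 18) (node (nat_lit 7) (nat_lit 65491) (nat_lit 19) (node
  (nat_lit 5) (nat_lit 65566) (nat_lit 20) nil (node (nat_lit 4) (nat_lit 65491) (nat_lit 20) nil
  nil)) nil) (node (nat_lit 7) (nat_lit 65367) (nat_lit 18) (node (nat_lit 4) (nat_lit 65367)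
  (nat_lit 19) (node (nat_lit 5) (nat_lit 65566) (nat_lit 20) nil nil) nil) nil)) nil) nil) (node
  (nat_lit 0) (nat_lit 65277) (nat_lit 15) (node (nat_lit 7) (nat_lit 65277) (nat_lit 16) (node
  (nat_lit 4) (nat_lit 65277) (nat_lit 17) nil nil) nil) (node (nat_lit 2) (nat_lit 64829)
  (nat_lit 15) (node (nat_lit 7) (nat_lit 64829) (nat_lit 16) (node (nat_lit 4) (nat_lit 64829)
  (nat_lit 17) nil nil) nil) nil)))) nil) (node (nat_lit 2) (nat_lit 64829) (nat_lit 13) nil (node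
  (nat_lit 0) (nat_lit 65016) (nat_lit 13) nil nil))) (node (nat_lit 4) (nat_lit 0) (nat_lit 12)
  (node (nat_lit 5) (nat_lit 65086) (nat_lit 13) (node (nat_lit 7) (nat_lit 65086) (nat_lit 14)
  (node (nat_lit 4) (nat_lit 65086) (nat_lit 15) (node (nat_lit 7) (nat_lit 65086) (nat_lit 16)
  nil nil) (node (nat_lit 5) (nat_lit 65347) (nat_lit 15) nil nil)) (node (nat_lit 4) (nat_lit
  65086) (nat_lit 14) (node (nat_lit 7) (nat_lit 65086) (nat_lit 15) (node (nat_lit 5) (nat_lit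
  65437) (nat_lit 16) (node (nat_lit 4) (nat_lit 60200) (nat_lit 17) (node (nat_lit 5) (nat_lit
  48647) (nat_lit 18) (node (nat_lit 7) (nat_lit 42062) (nat_lit 19) nil nil) nil) (node (nat_lit
  7) (nat_lit 65437) (nat_lit 17) nil nil)) nil) nil) nil)) (node (nat_lit 0) (nat_lit 64203)
  (nat_lit 13) (node (nat_lit 7) (nat_lit 64203) (nat_lit 14) nil nil) (node (nat_lit 2) (nat_lit
  63073) (nat_lit 13) (node (nat_lit 7) (nat_lit 63073) (nat_lit 14) nil nil) nil))) (node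
  (nat_lit 0) (nat_lit 64752) (nat_lit 12) (node (nat_lit 4) (nat_lit 64752) (nat_lit 13) (node
  (nat_lit 7) (nat_lit 64752) (nat_lit 14) nil nil) (node (nat_lit 7) (nat_lit 64752) (nat_lit 13)
  (node (nat_lit 4) (nat_lit 64752) (nat_lit 14) nil nil) nil)) (node (nat_lit 2) (nat_lit 63073)
  (nat_lit 12) (node (nat_lit 4) (nat_lit 63073) (nat_lit 13) (node (nat_lit 7) (nat_lit 63073)
  (nat_lit 14) nil nil) (node (nat_lit 7) (nat_lit 63073) (nat_lit 13) (node (nat_lit 4) (nat_lit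
  63073) (nat_lit 14) (node (nat_lit 5) (nat_lit 64464) (nat_lit 15) nil nil) nil) (node (nat_lit
  5) (nat_lit 64203) (nat_lit 13) (node (nat_lit 7) (nat_lit 64203) (nat_lit 14) nil nil) nil)))
  nil)))) (node (nat_lit 0) (nat_lit 64324) (nat_lit 11) (node (nat_lit 4) (nat_lit 64324)
  (nat_lit 12) (node (nat_lit 7) (nat_lit 64324) (nat_lit 13) nil nil) (node (nat_lit 7) (nat_lit
  64324) (nat_lit 12) (node (nat_lit 4) (nat_lit 64324) (nat_lit 13) nil nil) (node (nat_lit 5)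
  (nat_lit 64565) (nat_lit 12) (node (nat_lit 7) (nat_lit 64565) (nat_lit 13) nil nil) nil)))
  (node (nat_lit 2) (nat_lit 63073) (nat_lit 11) (node (nat_lit 4) (nat_lit 63073) (nat_lit 12)
  (node (nat_lit 7) (nat_lit 63073) (nat_lit 13) (node (nat_lit 4) (nat_lit 63073) (nat_lit 14)
  nil nil) (node (nat_lit 5) (nat_lit 64203) (nat_lit 13) nil nil)) (node (nat_lit 7) (nat_lit
  63073) (nat_lit 12) (node (nat_lit 4) (nat_lit 63073) (nat_lit 13) (node (nat_lit 5) (nat_lit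
  64350) (nat_lit 14) nil nil) nil) (node (nat_lit 5) (nat_lit 64016) (nat_lit 12) (node (nat_lit
  7) (nat_lit 64016) (nat_lit 13) nil nil) (node (nat_lit 0) (nat_lit 64016) (nat_lit 12) nil
  nil)))) nil))) (node (nat_lit 0) (nat_lit 63775) (nat_lit 10) (node (nat_lit 7) (nat_lit 63775)
  (nat_lit 11) (node (nat_lit 4) (nat_lit 63775) (nat_lit 12) (node (nat_lit 5) (nat_lit 64511)
  (nat_lit 13) (node (nat_lit 4) (nat_lit 64511) (nat_lit 14) (node (nat_lit 7) (nat_lit 64511)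
  (nat_lit 15) (node (nat_lit 5) (nat_lit 64862) (nat_lit 16) nil nil) nil) nil) nil) nil) (node
  (nat_lit 4) (nat_lit 63775) (nat_lit 11) (node (nat_lit 7) (nat_lit 63775) (nat_lit 12) nil nil)
  (node (nat_lit 5) (nat_lit 64083) (nat_lit 11) (node (nat_lit 7) (nat_lit 64083) (nat_lit 12)
  nil nil) nil))) (node (nat_lit 2) (nat_lit 0) (nat_lit 10) (node (nat_lit 7) (nat_lit 63073)
  (nat_lit 11) (node (nat_lit 4) (nat_lit 63073) (nat_lit 12) (node (nat_lit 5) (nat_lit 64203)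
  (nat_lit 13) (node (nat_lit 4) (nat_lit 64203) (nat_lit 14) (node (nat_lit 7) (nat_lit 64203)
  (nat_lit 15) (node (nat_lit 5) (nat_lit 64554) (nat_lit 16) nil nil) nil) nil) nil) nil) (node
  (nat_lit 4) (nat_lit 63073) (nat_lit 11) (node (nat_lit 7) (nat_lit 63073) (nat_lit 12) nil
  (node (nat_lit 5) (nat_lit 64016) (nat_lit 12) nil nil)) (node (nat_lit 5) (nat_lit 64324)
  (nat_lit 11) (node (nat_lit 7) (nat_lit 64324) (nat_lit 12) nil nil) (node (nat_lit 0) (nat_lit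
  63775) (nat_lit 11) nil nil)))) nil))) (node (nat_lit 0) (nat_lit 62721) (nat_lit 9) (node
  (nat_lit 7) (nat_lit 62721) (nat_lit 10) (node (nat_lit 4) (nat_lit 62721) (nat_lit 11) (node
  (nat_lit 5) (nat_lit 63665) (nat_lit 12) nil nil) nil) (node (nat_lit 5) (nat_lit 63424)
  (nat_lit 10) (node (nat_lit 7) (nat_lit 63424) (nat_lit 11) nil nil) (node (nat_lit 4) (nat_lit
  62721) (nat_lit 10) (node (nat_lit 7) (nat_lit 62721) (nat_lit 11) nil nil) nil))) (node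
  (nat_lit 2) (nat_lit 60086) (nat_lit 9) (node (nat_lit 7) (nat_lit 60086) (nat_lit 10) (node
  (nat_lit 4) (nat_lit 60086) (nat_lit 11) (node (nat_lit 5) (nat_lit 62183) (nat_lit 12) nil nil)
  (node (nat_lit 5) (nat_lit 61942) (nat_lit 11) nil nil)) (node (nat_lit 5) (nat_lit 62843)
  (nat_lit 10) (node (nat_lit 7) (nat_lit 62843) (nat_lit 11) nil nil) (node (nat_lit 4) (nat_lit
  60086) (nat_lit 10) (node (nat_lit 7) (nat_lit 60086) (nat_lit 11) nil (node (nat_lit 5)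
  (nat_lit 61942) (nat_lit 11) nil nil)) nil))) nil))))

noncomputable def t126 : Tr :=
  (node (nat_lit 4) (nat_lit 0) (nat_lit 8) (node (nat_lit 7) (nat_lit 0) (nat_lit 9) (node
  (nat_lit 5) (nat_lit 0) (nat_lit 10) (node (nat_lit 4) (nat_lit 0) (nat_lit 11) (node (nat_lit
  7) (nat_lit 0) (nat_lit 12) (node (nat_lit 4) (nat_lit 37869) (nat_lit 13) (node (nat_lit 5)
  (nat_lit 0) (nat_lit 14) (node (nat_lit 7) (nat_lit 39154) (nat_lit 15) (node (nat_lit 5)
  (nat_lit 39451) (nat_lit 16) nil (node (nat_lit 4) (nat_lit 0) (nat_lit 16) (node (nat_lit 0)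
  (nat_lit 39552) (nat_lit 17) (node (nat_lit 7) (nat_lit 39552) (nat_lit 18) (node (nat_lit 4)
  (nat_lit 39552) (nat_lit 19) nil nil) nil) (node (nat_lit 2) (nat_lit 39154) (nat_lit 17) (node
  (nat_lit 4) (nat_lit 39031) (nat_lit 18) (node (nat_lit 7) (nat_lit 39129) (nat_lit 19) nil nil)
  (node (nat_lit 7) (nat_lit 39321) (nat_lit 18) (node (nat_lit 4) (nat_lit 39451) (nat_lit 19)
  nil nil) (node (nat_lit 5) (nat_lit 39632) (nat_lit 18) nil nil))) nil)) nil)) (node (nat_lit 4)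
  (nat_lit 39154) (nat_lit 15) (node (nat_lit 7) (nat_lit 39154) (nat_lit 16) (node (nat_lit 5)
  (nat_lit 39552) (nat_lit 17) (node (nat_lit 7) (nat_lit 39552) (nat_lit 18) (node (nat_lit 4)
  (nat_lit 39552) (nat_lit 19) (node (nat_lit 7) (nat_lit 39552) (nat_lit 20) (node (nat_lit 5)
  (nat_lit 39779) (nat_lit 21) (node (nat_lit 4) (nat_lit 39779) (nat_lit 22) nil nil) nil) (node
  (nat_lit 5) (nat_lit 39741) (nat_lit 20) nil nil)) nil) (node (nat_lit 4) (nat_lit 39552)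
  (nat_lit 18) nil nil)) nil) nil) (node (nat_lit 2) (nat_lit 38710) (nat_lit 15) (node (nat_lit
  4) (nat_lit 38381) (nat_lit 16) nil (node (nat_lit 5) (nat_lit 39167) (nat_lit 16) (node
  (nat_lit 7) (nat_lit 39451) (nat_lit 17) nil nil) (node (nat_lit 7) (nat_lit 39052) (nat_lit 16)
  nil nil))) (node (nat_lit 0) (nat_lit 39321) (nat_lit 15) (node (nat_lit 4) (nat_lit 39321)
  (nat_lit 16) nil (node (nat_lit 7) (nat_lit 39321) (nat_lit 16) nil nil)) nil)))) nil) (node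
  (nat_lit 0) (nat_lit 38388) (nat_lit 13) (node (nat_lit 7) (nat_lit 38940) (nat_lit 14) nil nil)
  (node (nat_lit 2) (nat_lit 36659) (nat_lit 13) (node (nat_lit 7) (nat_lit 37203) (nat_lit 14)
  nil nil) nil))) (node (nat_lit 5) (nat_lit 0) (nat_lit 12) (node (nat_lit 7) (nat_lit 38388)
  (nat_lit 13) (node (nat_lit 5) (nat_lit 39138) (nat_lit 14) (node (nat_lit 4) (nat_lit 38710)
  (nat_lit 15) (node (nat_lit 7) (nat_lit 39052) (nat_lit 16) (node (nat_lit 4) (nat_lit 38810)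
  (nat_lit 17) (node (nat_lit 5) (nat_lit 38882) (nat_lit 18) nil nil) nil) nil) nil) (node
  (nat_lit 4) (nat_lit 38667) (nat_lit 14) (node (nat_lit 5) (nat_lit 39321) (nat_lit 15) (node
  (nat_lit 4) (nat_lit 39321) (nat_lit 16) (node (nat_lit 7) (nat_lit 39321) (nat_lit 17) (node
  (nat_lit 4) (nat_lit 39321) (nat_lit 18) (node (nat_lit 5) (nat_lit 39529) (nat_lit 19) (node
  (nat_lit 7) (nat_lit 39657) (nat_lit 20) (node (nat_lit 4) (nat_lit 39694) (nat_lit 21) nil nil)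
  nil) nil) nil) nil) nil) nil) nil)) (node (nat_lit 0) (nat_lit 38388) (nat_lit 13) nil (node
  (nat_lit 2) (nat_lit 36659) (nat_lit 13) nil nil))) (node (nat_lit 0) (nat_lit 37425) (nat_lit
  12) (node (nat_lit 5) (nat_lit 38388) (nat_lit 13) nil (node (nat_lit 4) (nat_lit 36659)
  (nat_lit 13) (node (nat_lit 7) (nat_lit 37203) (nat_lit 14) nil nil) (node (nat_lit 7) (nat_lit
  38388) (nat_lit 13) (node (nat_lit 4) (nat_lit 38667) (nat_lit 14) nil nil) nil))) (node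
  (nat_lit 2) (nat_lit 35168) (nat_lit 12) (node (nat_lit 5) (nat_lit 36130) (nat_lit 13) nil
  (node (nat_lit 4) (nat_lit 34402) (nat_lit 13) (node (nat_lit 7) (nat_lit 34945) (nat_lit 14)
  nil nil) (node (nat_lit 7) (nat_lit 35893) (nat_lit 13) (node (nat_lit 4) (nat_lit 35509)
  (nat_lit 14) nil nil) nil))) nil)))) (node (nat_lit 7) (nat_lit 0) (nat_lit 11) (node (nat_lit
  4) (nat_lit 0) (nat_lit 12) (node (nat_lit 5) (nat_lit 0) (nat_lit 13) (node (nat_lit 4)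
  (nat_lit 37821) (nat_lit 14) (node (nat_lit 7) (nat_lit 38241) (nat_lit 15) (node (nat_lit 4)
  (nat_lit 37924) (nat_lit 16) (node (nat_lit 5) (nat_lit 38044) (nat_lit 17) (node (nat_lit 7)
  (nat_lit 38322) (nat_lit 18) nil nil) nil) nil) nil) (node (nat_lit 7) (nat_lit 38940) (nat_lit
  14) nil (node (nat_lit 2) (nat_lit 37821) (nat_lit 14) nil (node (nat_lit 0) (nat_lit 39138)
  (nat_lit 14) nil nil)))) (node (nat_lit 0) (nat_lit 38388) (nat_lit 13) (node (nat_lit 7)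
  (nat_lit 38940) (nat_lit 14) (node (nat_lit 4) (nat_lit 38940) (nat_lit 15) nil nil) nil) (node
  (nat_lit 2) (nat_lit 36659) (nat_lit 13) (node (nat_lit 4) (nat_lit 36092) (nat_lit 14) (node
  (nat_lit 7) (nat_lit 36513) (nat_lit 15) nil nil) (node (nat_lit 7) (nat_lit 37203) (nat_lit 14)
  (node (nat_lit 4) (nat_lit 36815) (nat_lit 15) nil nil) (node (nat_lit 5) (nat_lit 37409)
  (nat_lit 14) nil nil))) nil))) (node (nat_lit 0) (nat_lit 37425) (nat_lit 12) (node (nat_lit 5)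
  (nat_lit 38388) (nat_lit 13) (node (nat_lit 7) (nat_lit 38940) (nat_lit 14) nil nil) (node
  (nat_lit 4) (nat_lit 36659) (nat_lit 13) (node (nat_lit 7) (nat_lit 37203) (nat_lit 14) nil nil)
  (node (nat_lit 7) (nat_lit 38388) (nat_lit 13) (node (nat_lit 4) (nat_lit 38667) (nat_lit 14)
  nil nil) nil))) (node (nat_lit 2) (nat_lit 35168) (nat_lit 12) (node (nat_lit 5) (nat_lit 36130)
  (nat_lit 13) (node (nat_lit 7) (nat_lit 36880) (nat_lit 14) nil nil) (node (nat_lit 4) (nat_lit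
  34402) (nat_lit 13) (node (nat_lit 7) (nat_lit 34945) (nat_lit 14) nil nil) (node (nat_lit 7)
  (nat_lit 35893) (nat_lit 13) (node (nat_lit 4) (nat_lit 35509) (nat_lit 14) (node (nat_lit 5)
  (nat_lit 35912) (nat_lit 15) nil nil) (node (nat_lit 5) (nat_lit 36643) (nat_lit 14) nil nil))
  nil))) nil))) (node (nat_lit 0) (nat_lit 36193) (nat_lit 11) (node (nat_lit 5) (nat_lit 37425)
  (nat_lit 12) (node (nat_lit 7) (nat_lit 38388) (nat_lit 13) nil (node (nat_lit 4) (nat_lit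
  36659) (nat_lit 13) nil nil)) (node (nat_lit 7) (nat_lit 37425) (nat_lit 12) (node (nat_lit 4)
  (nat_lit 38317) (nat_lit 13) nil nil) (node (nat_lit 4) (nat_lit 35168) (nat_lit 12) (node
  (nat_lit 7) (nat_lit 35893) (nat_lit 13) nil nil) (node (nat_lit 2) (nat_lit 35168) (nat_lit 12)
  nil (node (nat_lit 0) (nat_lit 37425) (nat_lit 12) nil nil))))) (node (nat_lit 2) (nat_lit
  33284) (nat_lit 11) (node (nat_lit 5) (nat_lit 34516) (nat_lit 12) (node (nat_lit 7) (nat_lit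
  35478) (nat_lit 13) (node (nat_lit 4) (nat_lit 36229) (nat_lit 14) nil nil) (node (nat_lit 4)
  (nat_lit 33750) (nat_lit 13) nil nil)) (node (nat_lit 7) (nat_lit 34315) (nat_lit 12) (node
  (nat_lit 4) (nat_lit 33942) (nat_lit 13) (node (nat_lit 5) (nat_lit 34534) (nat_lit 14) nil nil)
  (node (nat_lit 5) (nat_lit 35278) (nat_lit 13) nil nil)) (node (nat_lit 4) (nat_lit 32258)
  (nat_lit 12) (node (nat_lit 5) (nat_lit 33221) (nat_lit 13) nil (node (nat_lit 7) (nat_lit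
  32984) (nat_lit 13) nil nil)) (node (nat_lit 0) (nat_lit 34516) (nat_lit 12) nil nil)))) nil))))
  (node (nat_lit 0) (nat_lit 0) (nat_lit 10) (node (nat_lit 4) (nat_lit 33284) (nat_lit 11) (node
  (nat_lit 7) (nat_lit 34315) (nat_lit 12) nil (node (nat_lit 5) (nat_lit 34516) (nat_lit 12) nil
  nil)) (node (nat_lit 5) (nat_lit 36193) (nat_lit 11) (node (nat_lit 7) (nat_lit 36865) (nat_lit
  12) (node (nat_lit 4) (nat_lit 36865) (nat_lit 13) nil nil) nil) (node (nat_lit 7) (nat_lit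
  36193) (nat_lit 11) (node (nat_lit 4) (nat_lit 36417) (nat_lit 12) (node (nat_lit 5) (nat_lit
  37488) (nat_lit 13) nil nil) nil) (node (nat_lit 0) (nat_lit 36193) (nat_lit 11) nil (node
  (nat_lit 2) (nat_lit 33284) (nat_lit 11) nil nil))))) (node (nat_lit 2) (nat_lit 0) (nat_lit 10)
  (node (nat_lit 4) (nat_lit 31917) (nat_lit 11) (node (nat_lit 7) (nat_lit 32424) (nat_lit 12)
  nil (node (nat_lit 5) (nat_lit 32973) (nat_lit 12) nil nil)) (node (nat_lit 5) (nat_lit 34244)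
  (nat_lit 11) (node (nat_lit 7) (nat_lit 35175) (nat_lit 12) (node (nat_lit 4) (nat_lit 35212)
  (nat_lit 13) nil nil) nil) (node (nat_lit 7) (nat_lit 31021) (nat_lit 11) (node (nat_lit 4)
  (nat_lit 30480) (nat_lit 12) (node (nat_lit 5) (nat_lit 30360) (nat_lit 13) (node (nat_lit 4)
  (nat_lit 26921) (nat_lit 14) nil nil) nil) (node (nat_lit 5) (nat_lit 33132) (nat_lit 12) nil
  nil)) (node (nat_lit 0) (nat_lit 34244) (nat_lit 11) (node (nat_lit 7) (nat_lit 35175) (nat_lit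
  12) nil nil) nil)))) nil))) (node (nat_lit 0) (nat_lit 32591) (nat_lit 9) (node (nat_lit 4)
  (nat_lit 30985) (nat_lit 10) (node (nat_lit 7) (nat_lit 32600) (nat_lit 11) nil (node (nat_lit
  5) (nat_lit 32565) (nat_lit 11) (node (nat_lit 7) (nat_lit 33797) (nat_lit 12) nil nil) nil))
  (node (nat_lit 7) (nat_lit 34614) (nat_lit 10) (node (nat_lit 4) (nat_lit 36169) (nat_lit 11)
  (node (nat_lit 5) (nat_lit 37425) (nat_lit 12) (node (nat_lit 4) (nat_lit 36659) (nat_lit 13)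
  nil nil) nil) (node (nat_lit 5) (nat_lit 36193) (nat_lit 11) nil nil)) (node (nat_lit 5)
  (nat_lit 34614) (nat_lit 10) (node (nat_lit 7) (nat_lit 36193) (nat_lit 11) (node (nat_lit 4)
  (nat_lit 36746) (nat_lit 12) nil nil) (node (nat_lit 4) (nat_lit 33284) (nat_lit 11) nil nil))
  nil))) (node (nat_lit 2) (nat_lit 30898) (nat_lit 9) (node (nat_lit 4) (nat_lit 29685) (nat_lit
  10) (node (nat_lit 7) (nat_lit 30908) (nat_lit 11) nil (node (nat_lit 5) (nat_lit 30880)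
  (nat_lit 11) (node (nat_lit 7) (nat_lit 31811) (nat_lit 12) nil nil) nil)) (node (nat_lit 7)
  (nat_lit 32346) (nat_lit 10) (node (nat_lit 4) (nat_lit 31869) (nat_lit 11) (node (nat_lit 5)
  (nat_lit 31551) (nat_lit 12) (node (nat_lit 4) (nat_lit 22877) (nat_lit 13) nil nil) nil) (node
  (nat_lit 5) (nat_lit 33542) (nat_lit 11) nil nil)) (node (nat_lit 5) (nat_lit 32430) (nat_lit
  10) (node (nat_lit 7) (nat_lit 33625) (nat_lit 11) (node (nat_lit 4) (nat_lit 34556) (nat_lit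
  12) nil nil) (node (nat_lit 4) (nat_lit 31423) (nat_lit 11) nil nil)) nil))) nil))) (node
  (nat_lit 5) (nat_lit 0) (nat_lit 8) (node (nat_lit 4) (nat_lit 0) (nat_lit 9) (node (nat_lit 7)
  (nat_lit 0) (nat_lit 10) (node (nat_lit 4) (nat_lit 0) (nat_lit 11) (node (nat_lit 5) (nat_lit
  0) (nat_lit 12) (node (nat_lit 4) (nat_lit 0) (nat_lit 13) (node (nat_lit 7) (nat_lit 38188)
  (nat_lit 14) (node (nat_lit 5) (nat_lit 38842) (nat_lit 15) (node (nat_lit 7) (nat_lit 38842)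
  (nat_lit 16) (node (nat_lit 4) (nat_lit 38842) (nat_lit 17) (node (nat_lit 5) (nat_lit 39153)
  (nat_lit 18) (node (nat_lit 4) (nat_lit 39153) (nat_lit 19) nil (node (nat_lit 7) (nat_lit
  39153) (nat_lit 19) nil nil)) nil) nil) (node (nat_lit 4) (nat_lit 38842) (nat_lit 16) (node
  (nat_lit 5) (nat_lit 39073) (nat_lit 17) (node (nat_lit 7) (nat_lit 39073) (nat_lit 18) (node
  (nat_lit 4) (nat_lit 39073) (nat_lit 19) nil nil) nil) nil) nil)) nil) (node (nat_lit 2)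
  (nat_lit 37821) (nat_lit 14) nil (node (nat_lit 0) (nat_lit 38676) (nat_lit 14) nil nil))) (node
  (nat_lit 0) (nat_lit 38388) (nat_lit 13) (node (nat_lit 7) (nat_lit 38461) (nat_lit 14) (node
  (nat_lit 4) (nat_lit 38461) (nat_lit 15) nil nil) (node (nat_lit 5) (nat_lit 38676) (nat_lit 14)
  (node (nat_lit 7) (nat_lit 38676) (nat_lit 15) nil nil) (node (nat_lit 4) (nat_lit 37821)
  (nat_lit 14) (node (nat_lit 7) (nat_lit 38241) (nat_lit 15) nil (node (nat_lit 5) (nat_lit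
  38407) (nat_lit 15) nil nil)) nil))) (node (nat_lit 2) (nat_lit 36659) (nat_lit 13) (node
  (nat_lit 5) (nat_lit 37409) (nat_lit 14) (node (nat_lit 7) (nat_lit 37995) (nat_lit 15) nil
  (node (nat_lit 4) (nat_lit 36982) (nat_lit 15) nil nil)) (node (nat_lit 7) (nat_lit 37203)
  (nat_lit 14) (node (nat_lit 4) (nat_lit 36815) (nat_lit 15) nil (node (nat_lit 5) (nat_lit
  37789) (nat_lit 15) nil nil)) (node (nat_lit 4) (nat_lit 36092) (nat_lit 14) (node (nat_lit 7)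
  (nat_lit 36513) (nat_lit 15) nil (node (nat_lit 5) (nat_lit 36678) (nat_lit 15) nil nil)) nil)))
  nil))) (node (nat_lit 0) (nat_lit 37425) (nat_lit 12) (node (nat_lit 7) (nat_lit 38388) (nat_lit
  13) (node (nat_lit 4) (nat_lit 38760) (nat_lit 14) (node (nat_lit 5) (nat_lit 39217) (nat_lit
  15) (node (nat_lit 4) (nat_lit 39217) (nat_lit 16) nil nil) nil) nil) (node (nat_lit 4) (nat_lit
  36659) (nat_lit 13) (node (nat_lit 7) (nat_lit 37203) (nat_lit 14) nil nil) (node (nat_lit 5)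
  (nat_lit 38388) (nat_lit 13) (node (nat_lit 7) (nat_lit 38955) (nat_lit 14) nil nil) nil)))
  (node (nat_lit 2) (nat_lit 35168) (nat_lit 12) (node (nat_lit 7) (nat_lit 35893) (nat_lit 13)
  (node (nat_lit 4) (nat_lit 35509) (nat_lit 14) (node (nat_lit 7) (nat_lit 36095) (nat_lit 15)
  (node (nat_lit 15) (nat_lit 35766) (nat_lit 16) nil nil) (node (nat_lit 5) (nat_lit 35912)
  (nat_lit 15) (node (nat_lit 4) (nat_lit 34129) (nat_lit 16) (node (nat_lit 7) (nat_lit 32715)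
  (nat_lit 17) nil nil) nil) nil)) nil) (node (nat_lit 4) (nat_lit 34402) (nat_lit 13) (node
  (nat_lit 7) (nat_lit 34945) (nat_lit 14) (node (nat_lit 15) (nat_lit 34517) (nat_lit 15) nil
  nil) nil) (node (nat_lit 5) (nat_lit 36130) (nat_lit 13) (node (nat_lit 7) (nat_lit 36880)
  (nat_lit 14) nil nil) nil))) nil))) (node (nat_lit 5) (nat_lit 0) (nat_lit 11) (node (nat_lit 7)
  (nat_lit 0) (nat_lit 12) (node (nat_lit 4) (nat_lit 38388) (nat_lit 13) (node (nat_lit 5)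
  (nat_lit 39138) (nat_lit 14) (node (nat_lit 4) (nat_lit 38846) (nat_lit 15) (node (nat_lit 7)
  (nat_lit 39150) (nat_lit 16) (node (nat_lit 5) (nat_lit 39421) (nat_lit 17) (node (nat_lit 4)
  (nat_lit 39632) (nat_lit 18) (node (nat_lit 5) (nat_lit 39796) (nat_lit 19) (node (nat_lit 7)
  (nat_lit 39863) (nat_lit 20) nil nil) nil) nil) (node (nat_lit 4) (nat_lit 38810) (nat_lit 17)
  (node (nat_lit 5) (nat_lit 38882) (nat_lit 18) (node (nat_lit 7) (nat_lit 39098) (nat_lit 19)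
  (node (nat_lit 5) (nat_lit 39268) (nat_lit 20) nil nil) nil) nil) nil)) nil) (node (nat_lit 7)
  (nat_lit 39324) (nat_lit 15) (node (nat_lit 5) (nat_lit 39621) (nat_lit 16) (node (nat_lit 4)
  (nat_lit 39621) (nat_lit 17) (node (nat_lit 7) (nat_lit 39621) (nat_lit 18) (node (nat_lit 4)
  (nat_lit 39621) (nat_lit 19) (node (nat_lit 5) (nat_lit 39911) (nat_lit 20) (node (nat_lit 4)
  (nat_lit 39355) (nat_lit 21) (node (nat_lit 7) (nat_lit 38930) (nat_lit 22) nil nil) nil) nil)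
  nil) nil) nil) nil) nil)) (node (nat_lit 7) (nat_lit 38487) (nat_lit 14) nil nil)) (node
  (nat_lit 2) (nat_lit 36659) (nat_lit 13) nil (node (nat_lit 0) (nat_lit 38388) (nat_lit 13) nil
  nil))) (node (nat_lit 2) (nat_lit 35168) (nat_lit 12) (node (nat_lit 7) (nat_lit 35893) (nat_lit
  13) (node (nat_lit 5) (nat_lit 36643) (nat_lit 14) nil nil) (node (nat_lit 5) (nat_lit 36130)
  (nat_lit 13) (node (nat_lit 7) (nat_lit 36880) (nat_lit 14) nil nil) nil)) (node (nat_lit 0)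
  (nat_lit 37425) (nat_lit 12) (node (nat_lit 7) (nat_lit 38388) (nat_lit 13) (node (nat_lit 5)
  (nat_lit 39138) (nat_lit 14) nil nil) nil) nil))) (node (nat_lit 0) (nat_lit 36193) (nat_lit 11)
  (node (nat_lit 7) (nat_lit 37425) (nat_lit 12) (node (nat_lit 4) (nat_lit 38356) (nat_lit 13)
  (node (nat_lit 5) (nat_lit 39138) (nat_lit 14) (node (nat_lit 4) (nat_lit 38710) (nat_lit 15)
  nil nil) nil) nil) (node (nat_lit 4) (nat_lit 35168) (nat_lit 12) (node (nat_lit 7) (nat_lit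
  35893) (nat_lit 13) nil (node (nat_lit 5) (nat_lit 36130) (nat_lit 13) nil nil)) (node (nat_lit
  5) (nat_lit 37425) (nat_lit 12) (node (nat_lit 7) (nat_lit 38388) (nat_lit 13) nil nil) (node
  (nat_lit 0) (nat_lit 37425) (nat_lit 12) nil (node (nat_lit 2) (nat_lit 35168) (nat_lit 12) nil
  nil))))) (node (nat_lit 2) (nat_lit 34787) (nat_lit 11) (node (nat_lit 7) (nat_lit 34315)
  (nat_lit 12) (node (nat_lit 4) (nat_lit 33942) (nat_lit 13) (node (nat_lit 5) (nat_lit 34534)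
  (nat_lit 14) (node (nat_lit 4) (nat_lit 31996) (nat_lit 15) nil nil) nil) (node (nat_lit 5)
  (nat_lit 35278) (nat_lit 13) (node (nat_lit 7) (nat_lit 36028) (nat_lit 14) nil nil) nil)) (node
  (nat_lit 4) (nat_lit 34010) (nat_lit 12) (node (nat_lit 7) (nat_lit 34557) (nat_lit 13) nil
  (node (nat_lit 14) (nat_lit 33431) (nat_lit 13) (node (nat_lit 7) (nat_lit 33841) (nat_lit 14)
  nil nil) (node (nat_lit 5) (nat_lit 34738) (nat_lit 13) nil nil))) (node (nat_lit 5) (nat_lit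
  35718) (nat_lit 12) (node (nat_lit 7) (nat_lit 36446) (nat_lit 13) nil (node (nat_lit 4)
  (nat_lit 35138) (nat_lit 13) nil nil)) (node (nat_lit 0) (nat_lit 35718) (nat_lit 12) nil
  nil)))) nil)))) (node (nat_lit 5) (nat_lit 0) (nat_lit 10) (node (nat_lit 7) (nat_lit 0)
  (nat_lit 11) (node (nat_lit 4) (nat_lit 37425) (nat_lit 12) (node (nat_lit 7) (nat_lit 37660)
  (nat_lit 13) (node (nat_lit 5) (nat_lit 38946) (nat_lit 14) (node (nat_lit 7) (nat_lit 38946)
  (nat_lit 15) (node (nat_lit 4) (nat_lit 38946) (nat_lit 16) (node (nat_lit 5) (nat_lit 39344)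
  (nat_lit 17) nil nil) nil) nil) nil) (node (nat_lit 5) (nat_lit 38388) (nat_lit 13) (node
  (nat_lit 4) (nat_lit 37821) (nat_lit 14) (node (nat_lit 7) (nat_lit 38241) (nat_lit 15) nil nil)
  nil) nil)) (node (nat_lit 0) (nat_lit 37425) (nat_lit 12) (node (nat_lit 7) (nat_lit 38388)
  (nat_lit 13) nil nil) (node (nat_lit 2) (nat_lit 35168) (nat_lit 12) (node (nat_lit 7) (nat_lit
  35893) (nat_lit 13) nil nil) nil))) (node (nat_lit 0) (nat_lit 36193) (nat_lit 11) (node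
  (nat_lit 4) (nat_lit 35168) (nat_lit 12) nil (node (nat_lit 7) (nat_lit 37425) (nat_lit 12) nil
  nil)) (node (nat_lit 2) (nat_lit 33284) (nat_lit 11) (node (nat_lit 4) (nat_lit 32258) (nat_lit
  12) nil (node (nat_lit 5) (nat_lit 34516) (nat_lit 12) nil (node (nat_lit 7) (nat_lit 34315)
  (nat_lit 12) nil nil))) nil))) (node (nat_lit 0) (nat_lit 34614) (nat_lit 10) (node (nat_lit 7)
  (nat_lit 36193) (nat_lit 11) (node (nat_lit 4) (nat_lit 36809) (nat_lit 12) (node (nat_lit 5)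
  (nat_lit 37880) (nat_lit 13) nil nil) nil) (node (nat_lit 5) (nat_lit 36193) (nat_lit 11) nil
  (node (nat_lit 4) (nat_lit 33284) (nat_lit 11) (node (nat_lit 7) (nat_lit 34315) (nat_lit 12)
  nil nil) nil))) (node (nat_lit 2) (nat_lit 33049) (nat_lit 10) (node (nat_lit 7) (nat_lit 32381)
  (nat_lit 11) (node (nat_lit 4) (nat_lit 32037) (nat_lit 12) (node (nat_lit 5) (nat_lit 32248)
  (nat_lit 13) nil nil) nil) (node (nat_lit 5) (nat_lit 34244) (nat_lit 11) (node (nat_lit 7)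
  (nat_lit 35175) (nat_lit 12) (node (nat_lit 4) (nat_lit 35903) (nat_lit 13) nil nil) nil) (node
  (nat_lit 4) (nat_lit 32042) (nat_lit 11) (node (nat_lit 5) (nat_lit 32973) (nat_lit 12) nil
  (node (nat_lit 7) (nat_lit 32821) (nat_lit 12) nil nil)) (node (nat_lit 0) (nat_lit 34244)
  (nat_lit 11) nil nil)))) nil)))) (node (nat_lit 0) (nat_lit 32591) (nat_lit 9) (node (nat_lit 5)
  (nat_lit 34614) (nat_lit 10) (node (nat_lit 7) (nat_lit 36193) (nat_lit 11) (node (nat_lit 4)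
  (nat_lit 36630) (nat_lit 12) nil nil) (node (nat_lit 4) (nat_lit 33284) (nat_lit 11) nil nil))
  (node (nat_lit 4) (nat_lit 30985) (nat_lit 10) (node (nat_lit 7) (nat_lit 32600) (nat_lit 11)
  nil (node (nat_lit 5) (nat_lit 32565) (nat_lit 11) nil nil)) (node (nat_lit 7) (nat_lit 34614)
  (nat_lit 10) (node (nat_lit 4) (nat_lit 36053) (nat_lit 11) (node (nat_lit 5) (nat_lit 37425)
  (nat_lit 12) nil nil) (node (nat_lit 5) (nat_lit 36193) (nat_lit 11) nil nil)) nil))) (node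
  (nat_lit 2) (nat_lit 30898) (nat_lit 9) (node (nat_lit 5) (nat_lit 32430) (nat_lit 10) (node
  (nat_lit 7) (nat_lit 33625) (nat_lit 11) (node (nat_lit 4) (nat_lit 34556) (nat_lit 12) nil nil)
  (node (nat_lit 4) (nat_lit 31423) (nat_lit 11) nil nil)) (node (nat_lit 4) (nat_lit 29685)
  (nat_lit 10) (node (nat_lit 7) (nat_lit 30908) (nat_lit 11) nil (node (nat_lit 5) (nat_lit
  30880) (nat_lit 11) nil nil)) (node (nat_lit 7) (nat_lit 32346) (nat_lit 10) (node (nat_lit 4)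
  (nat_lit 31869) (nat_lit 11) (node (nat_lit 5) (nat_lit 31551) (nat_lit 12) nil nil) (node
  (nat_lit 5) (nat_lit 33542) (nat_lit 11) nil nil)) nil))) nil))) nil))

noncomputable def t127 : Tr :=
  (node (nat_lit 4) (nat_lit 0) (nat_lit 10) (node (nat_lit 6) (nat_lit 0) (nat_lit 11) (node
  (nat_lit 4) (nat_lit 0) (nat_lit 12) (node (nat_lit 5) (nat_lit 0) (nat_lit 13) (node (nat_lit
  6) (nat_lit 0) (nat_lit 14) (node (nat_lit 5) (nat_lit 0) (nat_lit 15) (node (nat_lit 4)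
  (nat_lit 0) (nat_lit 16) (node (nat_lit 5) (nat_lit 118284) (nat_lit 17) (node (nat_lit 6)
  (nat_lit 118767) (nat_lit 18) (node (nat_lit 4) (nat_lit 119144) (nat_lit 19) (node (nat_lit 6)
  (nat_lit 119438) (nat_lit 20) (node (nat_lit 5) (nat_lit 119665) (nat_lit 21) (node (nat_lit 6)
  (nat_lit 119847) (nat_lit 22) (node (nat_lit 4) (nat_lit 119987) (nat_lit 23) (node (nat_lit 5)
  (nat_lit 120094) (nat_lit 24) (node (nat_lit 4) (nat_lit 120093) (nat_lit 25) (node (nat_lit 6)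
  (nat_lit 120135) (nat_lit 26) (node (nat_lit 4) (nat_lit 120157) (nat_lit 27) (node (nat_lit 5)
  (nat_lit 120184) (nat_lit 28) (node (nat_lit 6) (nat_lit 58772) (nat_lit 29) nil nil) nil) nil)
  nil) nil) nil) nil) nil) nil) (node (nat_lit 5) (nat_lit 119438) (nat_lit 20) nil nil)) nil)
  nil) (node (nat_lit 6) (nat_lit 0) (nat_lit 17) (node (nat_lit 5) (nat_lit 118767) (nat_lit 18)
  (node (nat_lit 6) (nat_lit 119144) (nat_lit 19) (node (nat_lit 4) (nat_lit 119438) (nat_lit 20)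
  nil nil) nil) (node (nat_lit 4) (nat_lit 118767) (nat_lit 18) (node (nat_lit 5) (nat_lit 119144)
  (nat_lit 19) nil nil) (node (nat_lit 2) (nat_lit 117869) (nat_lit 18) nil (node (nat_lit 0)
  (nat_lit 118767) (nat_lit 18) nil nil)))) (node (nat_lit 2) (nat_lit 117134) (nat_lit 17) (node
  (nat_lit 5) (nat_lit 117348) (nat_lit 18) nil (node (nat_lit 6) (nat_lit 117443) (nat_lit 18)
  nil (node (nat_lit 4) (nat_lit 117131) (nat_lit 18) nil nil))) (node (nat_lit 0) (nat_lit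
  118284) (nat_lit 17) (node (nat_lit 5) (nat_lit 118767) (nat_lit 18) nil nil) nil)))) (node
  (nat_lit 2) (nat_lit 116193) (nat_lit 16) (node (nat_lit 5) (nat_lit 116458) (nat_lit 17) nil
  (node (nat_lit 6) (nat_lit 116581) (nat_lit 17) nil (node (nat_lit 4) (nat_lit 116190) (nat_lit
  17) nil nil))) (node (nat_lit 0) (nat_lit 117664) (nat_lit 16) (node (nat_lit 5) (nat_lit
  118284) (nat_lit 17) nil (node (nat_lit 6) (nat_lit 118284) (nat_lit 17) nil (node (nat_lit 4)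
  (nat_lit 117661) (nat_lit 17) nil nil))) nil))) (node (nat_lit 4) (nat_lit 0) (nat_lit 15) (node
  (nat_lit 6) (nat_lit 0) (nat_lit 16) (node (nat_lit 5) (nat_lit 118284) (nat_lit 17) (node
  (nat_lit 4) (nat_lit 118767) (nat_lit 18) (node (nat_lit 5) (nat_lit 119144) (nat_lit 19) (node
  (nat_lit 6) (nat_lit 119438) (nat_lit 20) (node (nat_lit 4) (nat_lit 119665) (nat_lit 21) nil
  nil) nil) (node (nat_lit 6) (nat_lit 118521) (nat_lit 19) nil nil)) (node (nat_lit 6) (nat_lit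
  99075) (nat_lit 18) (node (nat_lit 4) (nat_lit 92702) (nat_lit 19) (node (nat_lit 5) (nat_lit
  73744) (nat_lit 20) (node (nat_lit 6) (nat_lit 73971) (nat_lit 21) nil nil) nil) nil) nil))
  (node (nat_lit 2) (nat_lit 117107) (nat_lit 17) (node (nat_lit 4) (nat_lit 117104) (nat_lit 18)
  nil (node (nat_lit 6) (nat_lit 117416) (nat_lit 18) nil (node (nat_lit 5) (nat_lit 117321)
  (nat_lit 18) nil nil))) (node (nat_lit 0) (nat_lit 118257) (nat_lit 17) (node (nat_lit 4)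
  (nat_lit 118254) (nat_lit 18) nil (node (nat_lit 5) (nat_lit 118741) (nat_lit 18) nil (node
  (nat_lit 6) (nat_lit 118741) (nat_lit 18) nil nil))) nil))) (node (nat_lit 2) (nat_lit 116167)
  (nat_lit 16) (node (nat_lit 4) (nat_lit 116164) (nat_lit 17) (node (nat_lit 6) (nat_lit 116473)
  (nat_lit 18) nil (node (nat_lit 5) (nat_lit 116647) (nat_lit 18) nil nil)) (node (nat_lit 5)
  (nat_lit 116432) (nat_lit 17) nil (node (nat_lit 6) (nat_lit 116555) (nat_lit 17) nil nil)))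
  (node (nat_lit 0) (nat_lit 117638) (nat_lit 16) (node (nat_lit 4) (nat_lit 117635) (nat_lit 17)
  nil (node (nat_lit 5) (nat_lit 118257) (nat_lit 17) nil (node (nat_lit 6) (nat_lit 118257)
  (nat_lit 17) nil nil))) nil))) (node (nat_lit 0) (nat_lit 116847) (nat_lit 15) (node (nat_lit 5)
  (nat_lit 117638) (nat_lit 16) (node (nat_lit 4) (nat_lit 117635) (nat_lit 17) nil nil) (node
  (nat_lit 6) (nat_lit 117638) (nat_lit 16) (node (nat_lit 4) (nat_lit 118257) (nat_lit 17) (node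
  (nat_lit 5) (nat_lit 118741) (nat_lit 18) nil nil) (node (nat_lit 5) (nat_lit 118257) (nat_lit
  17) nil nil)) (node (nat_lit 4) (nat_lit 116841) (nat_lit 16) (node (nat_lit 6) (nat_lit 117229)
  (nat_lit 17) nil nil) nil))) (node (nat_lit 2) (nat_lit 116638) (nat_lit 15) (node (nat_lit 5)
  (nat_lit 117145) (nat_lit 16) (node (nat_lit 4) (nat_lit 115414) (nat_lit 17) nil (node (nat_lit
  6) (nat_lit 117765) (nat_lit 17) nil nil)) (node (nat_lit 6) (nat_lit 117430) (nat_lit 16) (node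
  (nat_lit 4) (nat_lit 118049) (nat_lit 17) (node (nat_lit 5) (nat_lit 116597) (nat_lit 18) nil
  nil) (node (nat_lit 5) (nat_lit 118049) (nat_lit 17) nil nil)) (node (nat_lit 4) (nat_lit
  117430) (nat_lit 16) (node (nat_lit 6) (nat_lit 117021) (nat_lit 17) nil nil) nil))) nil))))
  (node (nat_lit 0) (nat_lit 115856) (nat_lit 14) (node (nat_lit 5) (nat_lit 116873) (nat_lit 15)
  (node (nat_lit 4) (nat_lit 116867) (nat_lit 16) (node (nat_lit 5) (nat_lit 117487) (nat_lit 17)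
  nil nil) (node (nat_lit 6) (nat_lit 117664) (nat_lit 16) nil nil)) (node (nat_lit 6) (nat_lit
  116873) (nat_lit 15) (node (nat_lit 4) (nat_lit 117664) (nat_lit 16) nil (node (nat_lit 5)
  (nat_lit 117664) (nat_lit 16) nil nil)) (node (nat_lit 4) (nat_lit 116873) (nat_lit 15) (node
  (nat_lit 5) (nat_lit 117664) (nat_lit 16) nil (node (nat_lit 6) (nat_lit 116329) (nat_lit 16)
  nil nil)) nil))) (node (nat_lit 2) (nat_lit 115830) (nat_lit 14) (node (nat_lit 5) (nat_lit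
  116847) (nat_lit 15) (node (nat_lit 4) (nat_lit 116841) (nat_lit 16) (node (nat_lit 5) (nat_lit
  114965) (nat_lit 17) nil nil) (node (nat_lit 6) (nat_lit 117638) (nat_lit 16) nil nil)) (node
  (nat_lit 6) (nat_lit 116847) (nat_lit 15) (node (nat_lit 4) (nat_lit 117638) (nat_lit 16) nil
  (node (nat_lit 5) (nat_lit 117638) (nat_lit 16) nil nil)) (node (nat_lit 4) (nat_lit 116847)
  (nat_lit 15) (node (nat_lit 5) (nat_lit 117638) (nat_lit 16) nil (node (nat_lit 6) (nat_lit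
  116303) (nat_lit 16) nil nil)) nil))) nil))) (node (nat_lit 0) (nat_lit 114530) (nat_lit 13)
  (node (nat_lit 6) (nat_lit 115830) (nat_lit 14) (node (nat_lit 4) (nat_lit 116847) (nat_lit 15)
  (node (nat_lit 5) (nat_lit 117638) (nat_lit 16) (node (nat_lit 6) (nat_lit 118257) (nat_lit 17)
  (node (nat_lit 4) (nat_lit 118741) (nat_lit 18) nil nil) nil) (node (nat_lit 6) (nat_lit 117638)
  (nat_lit 16) nil nil)) (node (nat_lit 5) (nat_lit 116847) (nat_lit 15) nil nil)) (node (nat_lit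
  4) (nat_lit 115830) (nat_lit 14) (node (nat_lit 6) (nat_lit 116847) (nat_lit 15) (node (nat_lit
  5) (nat_lit 117638) (nat_lit 16) nil (node (nat_lit 4) (nat_lit 115380) (nat_lit 16) nil nil))
  (node (nat_lit 5) (nat_lit 116847) (nat_lit 15) (node (nat_lit 6) (nat_lit 117638) (nat_lit 16)
  nil nil) nil)) (node (nat_lit 5) (nat_lit 115856) (nat_lit 14) (node (nat_lit 4) (nat_lit
  116873) (nat_lit 15) (node (nat_lit 5) (nat_lit 117664) (nat_lit 16) nil nil) (node (nat_lit 6)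
  (nat_lit 116873) (nat_lit 15) (node (nat_lit 4) (nat_lit 117664) (nat_lit 16) nil nil) nil))
  (node (nat_lit 2) (nat_lit 113366) (nat_lit 14) nil (node (nat_lit 0) (nat_lit 115830) (nat_lit
  14) nil nil))))) (node (nat_lit 2) (nat_lit 114065) (nat_lit 13) (node (nat_lit 6) (nat_lit
  115364) (nat_lit 14) (node (nat_lit 4) (nat_lit 116381) (nat_lit 15) (node (nat_lit 5) (nat_lit
  117664) (nat_lit 16) (node (nat_lit 6) (nat_lit 118284) (nat_lit 17) (node (nat_lit 4) (nat_lit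
  114163) (nat_lit 18) nil nil) nil) (node (nat_lit 6) (nat_lit 117172) (nat_lit 16) nil nil))
  (node (nat_lit 5) (nat_lit 116381) (nat_lit 15) nil (node (nat_lit 16) (nat_lit 115510) (nat_lit
  15) nil nil))) (node (nat_lit 4) (nat_lit 115364) (nat_lit 14) (node (nat_lit 6) (nat_lit
  116381) (nat_lit 15) (node (nat_lit 5) (nat_lit 117172) (nat_lit 16) nil (node (nat_lit 4)
  (nat_lit 117172) (nat_lit 16) nil nil)) (node (nat_lit 5) (nat_lit 116381) (nat_lit 15) (node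
  (nat_lit 6) (nat_lit 117172) (nat_lit 16) nil nil) nil)) (node (nat_lit 5) (nat_lit 115856)
  (nat_lit 14) (node (nat_lit 4) (nat_lit 116873) (nat_lit 15) (node (nat_lit 5) (nat_lit 114554)
  (nat_lit 16) nil nil) (node (nat_lit 6) (nat_lit 116873) (nat_lit 15) (node (nat_lit 4) (nat_lit
  117664) (nat_lit 16) nil nil) nil)) (node (nat_lit 0) (nat_lit 115364) (nat_lit 14) nil nil))))
  nil))) (node (nat_lit 5) (nat_lit 0) (nat_lit 12) (node (nat_lit 4) (nat_lit 0) (nat_lit 13)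
  (node (nat_lit 5) (nat_lit 0) (nat_lit 14) (node (nat_lit 6) (nat_lit 116873) (nat_lit 15) (node
  (nat_lit 4) (nat_lit 117664) (nat_lit 16) (node (nat_lit 6) (nat_lit 118284) (nat_lit 17) (node
  (nat_lit 5) (nat_lit 118767) (nat_lit 18) (node (nat_lit 6) (nat_lit 119144) (nat_lit 19) (node
  (nat_lit 4) (nat_lit 119438) (nat_lit 20) (node (nat_lit 5) (nat_lit 119665) (nat_lit 21) (node
  (nat_lit 4) (nat_lit 119665) (nat_lit 22) (node (nat_lit 6) (nat_lit 58556) (nat_lit 23) nil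
  nil) nil) nil) nil) (node (nat_lit 4) (nat_lit 118764) (nat_lit 19) nil nil)) nil) (node
  (nat_lit 5) (nat_lit 118284) (nat_lit 17) (node (nat_lit 4) (nat_lit 118281) (nat_lit 18) nil
  nil) nil)) (node (nat_lit 5) (nat_lit 117664) (nat_lit 16) (node (nat_lit 4) (nat_lit 117661)
  (nat_lit 17) (node (nat_lit 6) (nat_lit 117970) (nat_lit 18) (node (nat_lit 4) (nat_lit 118130)
  (nat_lit 19) (node (nat_lit 5) (nat_lit 118309) (nat_lit 20) nil nil) nil) nil) nil) nil)) (node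
  (nat_lit 0) (nat_lit 116873) (nat_lit 15) (node (nat_lit 6) (nat_lit 117664) (nat_lit 16) nil
  nil) (node (nat_lit 2) (nat_lit 114974) (nat_lit 15) (node (nat_lit 4) (nat_lit 114968) (nat_lit
  16) nil (node (nat_lit 6) (nat_lit 115459) (nat_lit 16) nil (node (nat_lit 5) (nat_lit 115301)
  (nat_lit 16) nil nil))) nil))) (node (nat_lit 2) (nat_lit 113300) (nat_lit 14) (node (nat_lit 4)
  (nat_lit 113288) (nat_lit 15) nil (node (nat_lit 5) (nat_lit 113694) (nat_lit 15) nil (node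
  (nat_lit 6) (nat_lit 113899) (nat_lit 15) nil nil))) (node (nat_lit 0) (nat_lit 115764) (nat_lit
  14) (node (nat_lit 5) (nat_lit 116781) (nat_lit 15) nil nil) nil))) (node (nat_lit 6) (nat_lit
  0) (nat_lit 13) (node (nat_lit 4) (nat_lit 115730) (nat_lit 14) (node (nat_lit 6) (nat_lit
  116747) (nat_lit 15) (node (nat_lit 5) (nat_lit 117538) (nat_lit 16) (node (nat_lit 4) (nat_lit
  117535) (nat_lit 17) (node (nat_lit 5) (nat_lit 118019) (nat_lit 18) (node (nat_lit 6) (nat_lit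
  118395) (nat_lit 19) (node (nat_lit 4) (nat_lit 118689) (nat_lit 20) nil nil) nil) nil) nil)
  nil) nil) (node (nat_lit 2) (nat_lit 113266) (nat_lit 14) (node (nat_lit 4) (nat_lit 113254)
  (nat_lit 15) nil nil) (node (nat_lit 0) (nat_lit 115730) (nat_lit 14) nil nil))) (node (nat_lit
  2) (nat_lit 112712) (nat_lit 13) (node (nat_lit 5) (nat_lit 114012) (nat_lit 14) (node (nat_lit
  6) (nat_lit 115028) (nat_lit 15) nil nil) (node (nat_lit 4) (nat_lit 112677) (nat_lit 14) nil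
  (node (nat_lit 6) (nat_lit 113476) (nat_lit 14) nil nil))) (node (nat_lit 0) (nat_lit 114460)
  (nat_lit 13) (node (nat_lit 5) (nat_lit 115760) (nat_lit 14) nil (node (nat_lit 4) (nat_lit
  114425) (nat_lit 14) nil (node (nat_lit 6) (nat_lit 115760) (nat_lit 14) nil nil))) nil))))
  (node (nat_lit 0) (nat_lit 112796) (nat_lit 12) (node (nat_lit 4) (nat_lit 114464) (nat_lit 13)
  (node (nat_lit 6) (nat_lit 115764) (nat_lit 14) (node (nat_lit 4) (nat_lit 113871) (nat_lit 15)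
  nil nil) (node (nat_lit 5) (nat_lit 115764) (nat_lit 14) nil nil)) (node (nat_lit 6) (nat_lit
  114464) (nat_lit 13) (node (nat_lit 4) (nat_lit 115764) (nat_lit 14) (node (nat_lit 5) (nat_lit
  116781) (nat_lit 15) nil nil) (node (nat_lit 5) (nat_lit 115764) (nat_lit 14) nil nil)) (node
  (nat_lit 5) (nat_lit 114464) (nat_lit 13) (node (nat_lit 4) (nat_lit 114429) (nat_lit 14) (node
  (nat_lit 5) (nat_lit 115446) (nat_lit 15) nil nil) (node (nat_lit 6) (nat_lit 115764) (nat_lit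
  14) nil nil)) nil))) (node (nat_lit 2) (nat_lit 112396) (nat_lit 12) (node (nat_lit 4) (nat_lit
  114065) (nat_lit 13) (node (nat_lit 6) (nat_lit 115364) (nat_lit 14) (node (nat_lit 4) (nat_lit
  113471) (nat_lit 15) nil nil) (node (nat_lit 5) (nat_lit 115364) (nat_lit 14) nil nil)) (node
  (nat_lit 6) (nat_lit 114065) (nat_lit 13) (node (nat_lit 4) (nat_lit 115364) (nat_lit 14) (node
  (nat_lit 5) (nat_lit 112569) (nat_lit 15) nil nil) (node (nat_lit 5) (nat_lit 115364) (nat_lit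
  14) nil nil)) (node (nat_lit 5) (nat_lit 114530) (nat_lit 13) (node (nat_lit 4) (nat_lit 113429)
  (nat_lit 14) (node (nat_lit 5) (nat_lit 110634) (nat_lit 15) nil nil) (node (nat_lit 6) (nat_lit
  115830) (nat_lit 14) nil nil)) nil))) nil)))) (node (nat_lit 0) (nat_lit 110569) (nat_lit 11)
  (node (nat_lit 5) (nat_lit 112796) (nat_lit 12) (node (nat_lit 4) (nat_lit 114464) (nat_lit 13)
  (node (nat_lit 5) (nat_lit 115764) (nat_lit 14) (node (nat_lit 6) (nat_lit 116781) (nat_lit 15)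
  (node (nat_lit 4) (nat_lit 117572) (nat_lit 16) (node (nat_lit 6) (nat_lit 118191) (nat_lit 17)
  (node (nat_lit 5) (nat_lit 118675) (nat_lit 18) (node (nat_lit 6) (nat_lit 119051) (nat_lit 19)
  (node (nat_lit 4) (nat_lit 119346) (nat_lit 20) (node (nat_lit 5) (nat_lit 119573) (nat_lit 21)
  (node (nat_lit 4) (nat_lit 119573) (nat_lit 22) nil nil) nil) nil) nil) nil) nil) nil) nil) nil)
  nil) (node (nat_lit 4) (nat_lit 112704) (nat_lit 12) (node (nat_lit 6) (nat_lit 114372) (nat_lit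
  13) (node (nat_lit 4) (nat_lit 112043) (nat_lit 14) nil nil) (node (nat_lit 5) (nat_lit 114372)
  (nat_lit 13) nil nil)) (node (nat_lit 6) (nat_lit 112704) (nat_lit 12) (node (nat_lit 4)
  (nat_lit 114372) (nat_lit 13) nil nil) nil))) (node (nat_lit 2) (nat_lit 110261) (nat_lit 11)
  (node (nat_lit 5) (nat_lit 112079) (nat_lit 12) (node (nat_lit 4) (nat_lit 113445) (nat_lit 13)
  (node (nat_lit 5) (nat_lit 115480) (nat_lit 14) (node (nat_lit 6) (nat_lit 114139) (nat_lit 15)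
  (node (nat_lit 4) (nat_lit 113023) (nat_lit 16) (node (nat_lit 6) (nat_lit 104555) (nat_lit 17)
  (node (nat_lit 5) (nat_lit 86606) (nat_lit 18) (node (nat_lit 6) (nat_lit 77811) (nat_lit 19)
  (node (nat_lit 4) (nat_lit 60767) (nat_lit 20) (node (nat_lit 5) (nat_lit 58517) (nat_lit 21)
  (node (nat_lit 4) (nat_lit 58436) (nat_lit 22) nil nil) nil) nil) nil) nil) nil) nil) nil) nil)
  nil) (node (nat_lit 4) (nat_lit 112396) (nat_lit 12) (node (nat_lit 6) (nat_lit 114065) (nat_lit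
  13) (node (nat_lit 4) (nat_lit 111735) (nat_lit 14) nil nil) (node (nat_lit 5) (nat_lit 114065)
  (nat_lit 13) nil nil)) (node (nat_lit 6) (nat_lit 112396) (nat_lit 12) (node (nat_lit 4)
  (nat_lit 109618) (nat_lit 13) nil nil) nil))) nil))) (node (nat_lit 6) (nat_lit 0) (nat_lit 10)
  (node (nat_lit 5) (nat_lit 0) (nat_lit 11) (node (nat_lit 4) (nat_lit 0) (nat_lit 12) (node
  (nat_lit 6) (nat_lit 0) (nat_lit 13) (node (nat_lit 4) (nat_lit 114951) (nat_lit 14) (node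
  (nat_lit 5) (nat_lit 116152) (nat_lit 15) (node (nat_lit 4) (nat_lit 116943) (nat_lit 16) (node
  (nat_lit 6) (nat_lit 117563) (nat_lit 17) (node (nat_lit 5) (nat_lit 118046) (nat_lit 18) (node
  (nat_lit 6) (nat_lit 118423) (nat_lit 19) nil nil) nil) nil) (node (nat_lit 6) (nat_lit 116943)
  (nat_lit 16) (node (nat_lit 4) (nat_lit 117563) (nat_lit 17) (node (nat_lit 6) (nat_lit 118046)
  (nat_lit 18) (node (nat_lit 5) (nat_lit 118423) (nat_lit 19) (node (nat_lit 6) (nat_lit 117534)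
  (nat_lit 20) (node (nat_lit 4) (nat_lit 109972) (nat_lit 21) (node (nat_lit 5) (nat_lit 95312)
  (nat_lit 22) (node (nat_lit 6) (nat_lit 60478) (nat_lit 23) (node (nat_lit 5) (nat_lit 52644)
  (nat_lit 24) (node (nat_lit 4) (nat_lit 30484) (nat_lit 25) nil nil) nil) nil) nil) nil) nil)
  nil) nil) nil) nil)) nil) (node (nat_lit 5) (nat_lit 0) (nat_lit 14) (node (nat_lit 6) (nat_lit
  116731) (nat_lit 15) (node (nat_lit 4) (nat_lit 117522) (nat_lit 16) (node (nat_lit 6) (nat_lit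
  118142) (nat_lit 17) (node (nat_lit 5) (nat_lit 118625) (nat_lit 18) (node (nat_lit 4) (nat_lit
  118622) (nat_lit 19) nil nil) nil) (node (nat_lit 5) (nat_lit 118142) (nat_lit 17) (node
  (nat_lit 4) (nat_lit 118139) (nat_lit 18) nil nil) nil)) nil) (node (nat_lit 2) (nat_lit 114832)
  (nat_lit 15) nil (node (nat_lit 0) (nat_lit 116731) (nat_lit 15) nil nil))) (node (nat_lit 2)
  (nat_lit 112884) (nat_lit 14) (node (nat_lit 5) (nat_lit 113278) (nat_lit 15) nil nil) (node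
  (nat_lit 0) (nat_lit 115348) (nat_lit 14) (node (nat_lit 5) (nat_lit 116365) (nat_lit 15) nil
  nil) nil)))) (node (nat_lit 5) (nat_lit 114078) (nat_lit 13) (node (nat_lit 6) (nat_lit 115377)
  (nat_lit 14) (node (nat_lit 4) (nat_lit 116394) (nat_lit 15) (node (nat_lit 6) (nat_lit 117185)
  (nat_lit 16) (node (nat_lit 5) (nat_lit 117805) (nat_lit 17) (node (nat_lit 6) (nat_lit 118288)
  (nat_lit 18) (node (nat_lit 4) (nat_lit 118665) (nat_lit 19) (node (nat_lit 5) (nat_lit 118959)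
  (nat_lit 20) (node (nat_lit 6) (nat_lit 58424) (nat_lit 21) nil nil) nil) nil) nil) nil) nil)
  nil) nil) (node (nat_lit 0) (nat_lit 114078) (nat_lit 13) (node (nat_lit 6) (nat_lit 115377)
  (nat_lit 14) nil (node (nat_lit 5) (nat_lit 115377) (nat_lit 14) nil (node (nat_lit 4) (nat_lit
  114043) (nat_lit 14) nil nil))) (node (nat_lit 2) (nat_lit 111362) (nat_lit 13) (node (nat_lit
  6) (nat_lit 112125) (nat_lit 14) nil (node (nat_lit 5) (nat_lit 112210) (nat_lit 14) nil (node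
  (nat_lit 4) (nat_lit 111326) (nat_lit 14) nil nil))) nil)))) (node (nat_lit 2) (nat_lit 112704)
  (nat_lit 12) (node (nat_lit 5) (nat_lit 114530) (nat_lit 13) nil (node (nat_lit 4) (nat_lit
  114372) (nat_lit 13) nil (node (nat_lit 6) (nat_lit 114372) (nat_lit 13) nil nil))) (node
  (nat_lit 0) (nat_lit 112796) (nat_lit 12) (node (nat_lit 5) (nat_lit 114464) (nat_lit 13) nil
  (node (nat_lit 4) (nat_lit 114464) (nat_lit 13) nil (node (nat_lit 6) (nat_lit 114464) (nat_lit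
  13) nil nil))) nil))) (node (nat_lit 0) (nat_lit 110569) (nat_lit 11) (node (nat_lit 6) (nat_lit
  112110) (nat_lit 12) (node (nat_lit 4) (nat_lit 113779) (nat_lit 13) nil (node (nat_lit 5)
  (nat_lit 113779) (nat_lit 13) nil nil)) (node (nat_lit 4) (nat_lit 112704) (nat_lit 12) (node
  (nat_lit 6) (nat_lit 114372) (nat_lit 13) nil nil) (node (nat_lit 5) (nat_lit 112704) (nat_lit
  12) (node (nat_lit 4) (nat_lit 112620) (nat_lit 13) nil nil) (node (nat_lit 0) (nat_lit 112704)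
  (nat_lit 12) nil (node (nat_lit 2) (nat_lit 108480) (nat_lit 12) nil nil))))) (node (nat_lit 2)
  (nat_lit 110154) (nat_lit 11) (node (nat_lit 6) (nat_lit 112396) (nat_lit 12) (node (nat_lit 4)
  (nat_lit 114065) (nat_lit 13) nil (node (nat_lit 5) (nat_lit 114065) (nat_lit 13) nil nil))
  (node (nat_lit 4) (nat_lit 111617) (nat_lit 12) (node (nat_lit 6) (nat_lit 113285) (nat_lit 13)
  nil nil) (node (nat_lit 5) (nat_lit 112134) (nat_lit 12) (node (nat_lit 4) (nat_lit 110847)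
  (nat_lit 13) nil nil) (node (nat_lit 0) (nat_lit 112289) (nat_lit 12) nil nil)))) nil))) (node
  (nat_lit 0) (nat_lit 0) (nat_lit 10) (node (nat_lit 4) (nat_lit 110455) (nat_lit 11) (node
  (nat_lit 6) (nat_lit 112589) (nat_lit 12) nil (node (nat_lit 13) (nat_lit 112589) (nat_lit 12)
  nil (node (nat_lit 5) (nat_lit 112796) (nat_lit 12) nil nil))) (node (nat_lit 6) (nat_lit
  110455) (nat_lit 11) (node (nat_lit 4) (nat_lit 112589) (nat_lit 12) (node (nat_lit 5) (nat_lit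
  114258) (nat_lit 13) nil nil) (node (nat_lit 5) (nat_lit 112589) (nat_lit 12) nil (node (nat_lit
  13) (nat_lit 112589) (nat_lit 12) nil nil))) (node (nat_lit 5) (nat_lit 110569) (nat_lit 11)
  (node (nat_lit 4) (nat_lit 112704) (nat_lit 12) (node (nat_lit 5) (nat_lit 114372) (nat_lit 13)
  nil nil) (node (nat_lit 6) (nat_lit 112704) (nat_lit 12) nil nil)) (node (nat_lit 2) (nat_lit
  110455) (nat_lit 11) (node (nat_lit 5) (nat_lit 112589) (nat_lit 12) nil nil) (node (nat_lit 0)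
  (nat_lit 110455) (nat_lit 11) (node (nat_lit 5) (nat_lit 112589) (nat_lit 12) nil nil) nil)))))
  (node (nat_lit 2) (nat_lit 0) (nat_lit 10) (node (nat_lit 4) (nat_lit 110261) (nat_lit 11) (node
  (nat_lit 6) (nat_lit 112396) (nat_lit 12) nil (node (nat_lit 13) (nat_lit 112396) (nat_lit 12)
  nil (node (nat_lit 5) (nat_lit 112796) (nat_lit 12) nil nil))) (node (nat_lit 6) (nat_lit
  110261) (nat_lit 11) (node (nat_lit 4) (nat_lit 112396) (nat_lit 12) (node (nat_lit 5) (nat_lit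
  114530) (nat_lit 13) nil nil) (node (nat_lit 5) (nat_lit 112396) (nat_lit 12) nil (node (nat_lit
  13) (nat_lit 110461) (nat_lit 12) nil nil))) (node (nat_lit 5) (nat_lit 110569) (nat_lit 11)
  (node (nat_lit 4) (nat_lit 112704) (nat_lit 12) (node (nat_lit 5) (nat_lit 114372) (nat_lit 13)
  nil nil) (node (nat_lit 6) (nat_lit 112704) (nat_lit 12) nil nil)) (node (nat_lit 0) (nat_lit
  110261) (nat_lit 11) (node (nat_lit 5) (nat_lit 112396) (nat_lit 12) nil nil) nil)))) nil))))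

noncomputable def t128 : Tr :=
  (node (nat_lit 6) (nat_lit 0) (nat_lit 9) (node (nat_lit 4) (nat_lit 0) (nat_lit 10) (node
  (nat_lit 6) (nat_lit 0) (nat_lit 11) (node (nat_lit 5) (nat_lit 0) (nat_lit 12) (node (nat_lit
  4) (nat_lit 0) (nat_lit 13) (node (nat_lit 5) (nat_lit 32886) (nat_lit 14) (node (nat_lit 6)
  (nat_lit 33543) (nat_lit 15) (node (nat_lit 4) (nat_lit 33543) (nat_lit 16) (node (nat_lit 6)
  (nat_lit 33651) (nat_lit 17) (node (nat_lit 5) (nat_lit 33651) (nat_lit 18) nil nil) (node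
  (nat_lit 5) (nat_lit 33543) (nat_lit 17) (node (nat_lit 4) (nat_lit 33543) (nat_lit 18) (node
  (nat_lit 6) (nat_lit 33651) (nat_lit 19) (node (nat_lit 5) (nat_lit 33651) (nat_lit 20) nil nil)
  nil) nil) nil)) (node (nat_lit 5) (nat_lit 33543) (nat_lit 16) (node (nat_lit 4) (nat_lit 33543)
  (nat_lit 17) (node (nat_lit 6) (nat_lit 33651) (nat_lit 18) nil nil) nil) nil)) nil) (node
  (nat_lit 6) (nat_lit 33455) (nat_lit 14) (node (nat_lit 4) (nat_lit 33455) (nat_lit 15) (node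
  (nat_lit 5) (nat_lit 33455) (nat_lit 16) (node (nat_lit 6) (nat_lit 33651) (nat_lit 17) (node
  (nat_lit 5) (nat_lit 33651) (nat_lit 18) (node (nat_lit 4) (nat_lit 33651) (nat_lit 19) nil nil)
  nil) nil) nil) nil) (node (nat_lit 0) (nat_lit 33455) (nat_lit 14) (node (nat_lit 5) (nat_lit
  33455) (nat_lit 15) nil nil) (node (nat_lit 2) (nat_lit 33012) (nat_lit 14) (node (nat_lit 5)
  (nat_lit 33012) (nat_lit 15) nil nil) nil)))) (node (nat_lit 0) (nat_lit 33342) (nat_lit 13)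
  (node (nat_lit 5) (nat_lit 33342) (nat_lit 14) (node (nat_lit 4) (nat_lit 33342) (nat_lit 15)
  (node (nat_lit 5) (nat_lit 33342) (nat_lit 16) nil nil) nil) (node (nat_lit 6) (nat_lit 33455)
  (nat_lit 14) (node (nat_lit 5) (nat_lit 33455) (nat_lit 15) nil nil) nil)) (node (nat_lit 2)
  (nat_lit 33012) (nat_lit 13) (node (nat_lit 5) (nat_lit 33012) (nat_lit 14) (node (nat_lit 4)
  (nat_lit 33012) (nat_lit 15) nil nil) (node (nat_lit 6) (nat_lit 33455) (nat_lit 14) (node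
  (nat_lit 5) (nat_lit 33455) (nat_lit 15) nil nil) (node (nat_lit 4) (nat_lit 33012) (nat_lit 14)
  nil nil))) nil))) (node (nat_lit 0) (nat_lit 33196) (nat_lit 12) (node (nat_lit 4) (nat_lit
  33196) (nat_lit 13) (node (nat_lit 6) (nat_lit 33455) (nat_lit 14) (node (nat_lit 5) (nat_lit
  33455) (nat_lit 15) (node (nat_lit 4) (nat_lit 33455) (nat_lit 16) nil nil) nil) nil) (node
  (nat_lit 6) (nat_lit 33342) (nat_lit 13) (node (nat_lit 5) (nat_lit 33342) (nat_lit 14) (node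
  (nat_lit 4) (nat_lit 33342) (nat_lit 15) nil nil) nil) (node (nat_lit 5) (nat_lit 33196)
  (nat_lit 13) (node (nat_lit 4) (nat_lit 33196) (nat_lit 14) nil nil) nil))) (node (nat_lit 2)
  (nat_lit 33012) (nat_lit 12) (node (nat_lit 4) (nat_lit 33012) (nat_lit 13) (node (nat_lit 6)
  (nat_lit 33455) (nat_lit 14) (node (nat_lit 5) (nat_lit 33455) (nat_lit 15) (node (nat_lit 4)
  (nat_lit 33455) (nat_lit 16) nil nil) nil) nil) (node (nat_lit 6) (nat_lit 33342) (nat_lit 13)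
  (node (nat_lit 5) (nat_lit 33342) (nat_lit 14) (node (nat_lit 4) (nat_lit 33342) (nat_lit 15)
  nil nil) nil) (node (nat_lit 5) (nat_lit 33012) (nat_lit 13) (node (nat_lit 4) (nat_lit 33012)
  (nat_lit 14) nil nil) nil))) nil))) (node (nat_lit 5) (nat_lit 0) (nat_lit 11) (node (nat_lit 6)
  (nat_lit 0) (nat_lit 12) (node (nat_lit 5) (nat_lit 33196) (nat_lit 13) (node (nat_lit 4)
  (nat_lit 0) (nat_lit 14) (node (nat_lit 6) (nat_lit 0) (nat_lit 15) (node (nat_lit 5) (nat_lit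
  0) (nat_lit 16) (node (nat_lit 6) (nat_lit 33651) (nat_lit 17) (node (nat_lit 4) (nat_lit 33651)
  (nat_lit 18) (node (nat_lit 6) (nat_lit 33651) (nat_lit 19) (node (nat_lit 5) (nat_lit 33651)
  (nat_lit 20) (node (nat_lit 4) (nat_lit 33651) (nat_lit 21) (node (nat_lit 5) (nat_lit 33651)
  (nat_lit 22) (node (nat_lit 6) (nat_lit 33651) (nat_lit 23) (node (nat_lit 4) (nat_lit 33651)
  (nat_lit 24) (node (nat_lit 5) (nat_lit 33651) (nat_lit 25) (node (nat_lit 4) (nat_lit 33651)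
  (nat_lit 26) (node (nat_lit 6) (nat_lit 33651) (nat_lit 27) nil nil) nil) nil) nil) nil) nil)
  nil) nil) (node (nat_lit 5) (nat_lit 33651) (nat_lit 19) (node (nat_lit 4) (nat_lit 33651)
  (nat_lit 20) nil nil) nil)) nil) (node (nat_lit 0) (nat_lit 33651) (nat_lit 17) (node (nat_lit
  5) (nat_lit 33651) (nat_lit 18) (node (nat_lit 4) (nat_lit 33651) (nat_lit 19) nil nil) (node
  (nat_lit 6) (nat_lit 33651) (nat_lit 18) (node (nat_lit 5) (nat_lit 33651) (nat_lit 19) nil nil)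
  nil)) (node (nat_lit 2) (nat_lit 33543) (nat_lit 17) (node (nat_lit 5) (nat_lit 33543) (nat_lit
  18) (node (nat_lit 4) (nat_lit 33543) (nat_lit 19) nil nil) (node (nat_lit 6) (nat_lit 33651)
  (nat_lit 18) (node (nat_lit 5) (nat_lit 33651) (nat_lit 19) nil nil) nil)) nil))) (node (nat_lit
  4) (nat_lit 33543) (nat_lit 16) (node (nat_lit 5) (nat_lit 33543) (nat_lit 17) (node (nat_lit 4)
  (nat_lit 33543) (nat_lit 18) (node (nat_lit 6) (nat_lit 33651) (nat_lit 19) (node (nat_lit 5)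
  (nat_lit 33651) (nat_lit 20) nil nil) nil) (node (nat_lit 6) (nat_lit 33651) (nat_lit 18) nil
  nil)) nil) (node (nat_lit 2) (nat_lit 33543) (nat_lit 16) (node (nat_lit 5) (nat_lit 33543)
  (nat_lit 17) nil nil) (node (nat_lit 0) (nat_lit 33611) (nat_lit 16) (node (nat_lit 5) (nat_lit
  33611) (nat_lit 17) nil nil) nil)))) (node (nat_lit 5) (nat_lit 33196) (nat_lit 15) (node
  (nat_lit 6) (nat_lit 33611) (nat_lit 16) (node (nat_lit 4) (nat_lit 33611) (nat_lit 17) (node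
  (nat_lit 6) (nat_lit 33651) (nat_lit 18) (node (nat_lit 5) (nat_lit 33651) (nat_lit 19) (node
  (nat_lit 6) (nat_lit 33651) (nat_lit 20) nil (node (nat_lit 4) (nat_lit 33651) (nat_lit 20) nil
  nil)) nil) (node (nat_lit 5) (nat_lit 33611) (nat_lit 18) (node (nat_lit 4) (nat_lit 33611)
  (nat_lit 19) (node (nat_lit 6) (nat_lit 33651) (nat_lit 20) (node (nat_lit 5) (nat_lit 33651)
  (nat_lit 21) nil nil) nil) nil) nil)) nil) nil) (node (nat_lit 0) (nat_lit 33543) (nat_lit 15)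
  (node (nat_lit 5) (nat_lit 33543) (nat_lit 16) (node (nat_lit 4) (nat_lit 33543) (nat_lit 17)
  nil nil) nil) (node (nat_lit 2) (nat_lit 33196) (nat_lit 15) (node (nat_lit 5) (nat_lit 33196)
  (nat_lit 16) (node (nat_lit 4) (nat_lit 33196) (nat_lit 17) nil nil) nil) nil)))) nil) (node
  (nat_lit 0) (nat_lit 33342) (nat_lit 13) (node (nat_lit 5) (nat_lit 33342) (nat_lit 14) nil nil)
  (node (nat_lit 2) (nat_lit 33196) (nat_lit 13) (node (nat_lit 5) (nat_lit 33196) (nat_lit 14)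
  nil nil) nil))) (node (nat_lit 0) (nat_lit 33196) (nat_lit 12) (node (nat_lit 4) (nat_lit 33196)
  (nat_lit 13) nil (node (nat_lit 5) (nat_lit 33196) (nat_lit 13) (node (nat_lit 4) (nat_lit
  33196) (nat_lit 14) nil nil) (node (nat_lit 6) (nat_lit 33342) (nat_lit 13) (node (nat_lit 5)
  (nat_lit 33342) (nat_lit 14) nil nil) nil))) (node (nat_lit 2) (nat_lit 32218) (nat_lit 12)
  (node (nat_lit 4) (nat_lit 32259) (nat_lit 13) (node (nat_lit 5) (nat_lit 32268) (nat_lit 14)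
  nil nil) (node (nat_lit 5) (nat_lit 32268) (nat_lit 13) (node (nat_lit 4) (nat_lit 32268)
  (nat_lit 14) nil nil) (node (nat_lit 6) (nat_lit 33138) (nat_lit 13) (node (nat_lit 5) (nat_lit
  33138) (nat_lit 14) nil nil) nil))) (node (nat_lit 4) (nat_lit 0) (nat_lit 12) (node (nat_lit 0)
  (nat_lit 33138) (nat_lit 13) (node (nat_lit 5) (nat_lit 33138) (nat_lit 14) (node (nat_lit 4)
  (nat_lit 33138) (nat_lit 15) nil nil) nil) (node (nat_lit 2) (nat_lit 32268) (nat_lit 13) (node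
  (nat_lit 5) (nat_lit 31792) (nat_lit 14) (node (nat_lit 4) (nat_lit 31847) (nat_lit 15) (node
  (nat_lit 5) (nat_lit 31579) (nat_lit 16) nil nil) nil) nil) nil)) nil)))) (node (nat_lit 0)
  (nat_lit 33008) (nat_lit 11) (node (nat_lit 4) (nat_lit 33008) (nat_lit 12) (node (nat_lit 5)
  (nat_lit 33008) (nat_lit 13) nil nil) (node (nat_lit 6) (nat_lit 33192) (nat_lit 12) (node
  (nat_lit 5) (nat_lit 33192) (nat_lit 13) nil nil) (node (nat_lit 5) (nat_lit 33008) (nat_lit 12)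
  (node (nat_lit 4) (nat_lit 33008) (nat_lit 13) (node (nat_lit 5) (nat_lit 33008) (nat_lit 14)
  (node (nat_lit 6) (nat_lit 33539) (nat_lit 15) nil nil) nil) nil) nil))) (node (nat_lit 2)
  (nat_lit 32033) (nat_lit 11) (node (nat_lit 4) (nat_lit 32231) (nat_lit 12) (node (nat_lit 6)
  (nat_lit 33138) (nat_lit 13) nil (node (nat_lit 5) (nat_lit 32268) (nat_lit 13) nil nil)) (node
  (nat_lit 6) (nat_lit 32993) (nat_lit 12) (node (nat_lit 5) (nat_lit 32993) (nat_lit 13) (node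
  (nat_lit 4) (nat_lit 32993) (nat_lit 14) nil nil) nil) (node (nat_lit 5) (nat_lit 32231)
  (nat_lit 12) (node (nat_lit 4) (nat_lit 32268) (nat_lit 13) (node (nat_lit 5) (nat_lit 32268)
  (nat_lit 14) (node (nat_lit 6) (nat_lit 33340) (nat_lit 15) nil nil) nil) nil) nil))) nil))))
  (node (nat_lit 0) (nat_lit 0) (nat_lit 10) (node (nat_lit 4) (nat_lit 32382) (nat_lit 11) (node
  (nat_lit 6) (nat_lit 32996) (nat_lit 12) (node (nat_lit 5) (nat_lit 32996) (nat_lit 13) nil nil)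
  nil) (node (nat_lit 5) (nat_lit 32382) (nat_lit 11) (node (nat_lit 4) (nat_lit 32382) (nat_lit
  12) (node (nat_lit 5) (nat_lit 32382) (nat_lit 13) nil nil) (node (nat_lit 6) (nat_lit 33164)
  (nat_lit 12) (node (nat_lit 5) (nat_lit 33164) (nat_lit 13) (node (nat_lit 4) (nat_lit 33164)
  (nat_lit 14) nil nil) nil) nil)) (node (nat_lit 6) (nat_lit 32980) (nat_lit 11) (node (nat_lit
  5) (nat_lit 32980) (nat_lit 12) nil nil) (node (nat_lit 0) (nat_lit 32726) (nat_lit 11) nil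
  (node (nat_lit 2) (nat_lit 32382) (nat_lit 11) nil nil))))) (node (nat_lit 2) (nat_lit 0)
  (nat_lit 10) (node (nat_lit 4) (nat_lit 31435) (nat_lit 11) (node (nat_lit 6) (nat_lit 32494)
  (nat_lit 12) (node (nat_lit 5) (nat_lit 32494) (nat_lit 13) nil nil) (node (nat_lit 5) (nat_lit
  31435) (nat_lit 12) nil nil)) (node (nat_lit 5) (nat_lit 31628) (nat_lit 11) (node (nat_lit 4)
  (nat_lit 31628) (nat_lit 12) (node (nat_lit 5) (nat_lit 31334) (nat_lit 13) nil nil) (node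
  (nat_lit 6) (nat_lit 32993) (nat_lit 12) (node (nat_lit 5) (nat_lit 32993) (nat_lit 13) (node
  (nat_lit 4) (nat_lit 32993) (nat_lit 14) nil nil) nil) (node (nat_lit 13) (nat_lit 31826)
  (nat_lit 12) nil nil))) (node (nat_lit 6) (nat_lit 32809) (nat_lit 11) (node (nat_lit 5)
  (nat_lit 32809) (nat_lit 12) (node (nat_lit 4) (nat_lit 32809) (nat_lit 13) nil nil) (node
  (nat_lit 4) (nat_lit 32809) (nat_lit 12) nil nil)) (node (nat_lit 0) (nat_lit 32441) (nat_lit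
  11) nil nil)))) nil))) (node (nat_lit 4) (nat_lit 0) (nat_lit 9) (node (nat_lit 5) (nat_lit 0)
  (nat_lit 10) (node (nat_lit 6) (nat_lit 0) (nat_lit 11) (node (nat_lit 5) (nat_lit 0) (nat_lit
  12) (node (nat_lit 4) (nat_lit 0) (nat_lit 13) (node (nat_lit 6) (nat_lit 0) (nat_lit 14) (node
  (nat_lit 4) (nat_lit 33455) (nat_lit 15) (node (nat_lit 5) (nat_lit 33455) (nat_lit 16) nil nil)
  (node (nat_lit 5) (nat_lit 33455) (nat_lit 15) (node (nat_lit 6) (nat_lit 33611) (nat_lit 16)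
  nil nil) (node (nat_lit 0) (nat_lit 33543) (nat_lit 15) (node (nat_lit 5) (nat_lit 33543)
  (nat_lit 16) (node (nat_lit 4) (nat_lit 33543) (nat_lit 17) nil nil) nil) (node (nat_lit 2)
  (nat_lit 33455) (nat_lit 15) (node (nat_lit 5) (nat_lit 33455) (nat_lit 16) (node (nat_lit 4)
  (nat_lit 33455) (nat_lit 17) nil nil) nil) nil)))) (node (nat_lit 0) (nat_lit 33455) (nat_lit
  14) (node (nat_lit 5) (nat_lit 33455) (nat_lit 15) (node (nat_lit 4) (nat_lit 33455) (nat_lit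
  16) nil nil) (node (nat_lit 6) (nat_lit 33543) (nat_lit 15) (node (nat_lit 5) (nat_lit 33543)
  (nat_lit 16) nil nil) nil)) (node (nat_lit 2) (nat_lit 33012) (nat_lit 14) (node (nat_lit 5)
  (nat_lit 33012) (nat_lit 15) (node (nat_lit 4) (nat_lit 33012) (nat_lit 16) nil nil) (node
  (nat_lit 4) (nat_lit 33012) (nat_lit 15) nil (node (nat_lit 6) (nat_lit 33543) (nat_lit 15)
  (node (nat_lit 5) (nat_lit 33543) (nat_lit 16) nil nil) nil))) nil))) (node (nat_lit 0) (nat_lit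
  33342) (nat_lit 13) (node (nat_lit 4) (nat_lit 33342) (nat_lit 14) (node (nat_lit 6) (nat_lit
  33543) (nat_lit 15) (node (nat_lit 5) (nat_lit 33543) (nat_lit 16) nil nil) nil) (node (nat_lit
  6) (nat_lit 33455) (nat_lit 14) (node (nat_lit 5) (nat_lit 33455) (nat_lit 15) (node (nat_lit 4)
  (nat_lit 33455) (nat_lit 16) nil nil) nil) (node (nat_lit 5) (nat_lit 33342) (nat_lit 14) (node
  (nat_lit 4) (nat_lit 33342) (nat_lit 15) (node (nat_lit 5) (nat_lit 33342) (nat_lit 16) nil nil)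
  nil) nil))) (node (nat_lit 2) (nat_lit 33012) (nat_lit 13) (node (nat_lit 4) (nat_lit 33012)
  (nat_lit 14) (node (nat_lit 6) (nat_lit 33543) (nat_lit 15) (node (nat_lit 5) (nat_lit 33543)
  (nat_lit 16) nil nil) (node (nat_lit 5) (nat_lit 33012) (nat_lit 15) nil nil)) (node (nat_lit 6)
  (nat_lit 33455) (nat_lit 14) (node (nat_lit 5) (nat_lit 33455) (nat_lit 15) (node (nat_lit 4)
  (nat_lit 33455) (nat_lit 16) nil nil) nil) (node (nat_lit 5) (nat_lit 33012) (nat_lit 14) (node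
  (nat_lit 4) (nat_lit 33012) (nat_lit 15) (node (nat_lit 5) (nat_lit 33012) (nat_lit 16) nil nil)
  (node (nat_lit 6) (nat_lit 33543) (nat_lit 15) (node (nat_lit 5) (nat_lit 33543) (nat_lit 16)
  nil nil) nil)) nil))) nil))) (node (nat_lit 4) (nat_lit 0) (nat_lit 12) (node (nat_lit 6)
  (nat_lit 33342) (nat_lit 13) (node (nat_lit 5) (nat_lit 33342) (nat_lit 14) (node (nat_lit 4)
  (nat_lit 33342) (nat_lit 15) (node (nat_lit 5) (nat_lit 33342) (nat_lit 16) nil nil) nil) nil)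
  (node (nat_lit 0) (nat_lit 33342) (nat_lit 13) (node (nat_lit 5) (nat_lit 33342) (nat_lit 14)
  nil nil) (node (nat_lit 2) (nat_lit 33012) (nat_lit 13) (node (nat_lit 5) (nat_lit 33012)
  (nat_lit 14) nil nil) nil))) (node (nat_lit 0) (nat_lit 33196) (nat_lit 12) (node (nat_lit 6)
  (nat_lit 33342) (nat_lit 13) (node (nat_lit 5) (nat_lit 33342) (nat_lit 14) nil nil) (node
  (nat_lit 5) (nat_lit 33196) (nat_lit 13) (node (nat_lit 4) (nat_lit 33196) (nat_lit 14) nil nil)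
  nil)) (node (nat_lit 2) (nat_lit 33012) (nat_lit 12) (node (nat_lit 6) (nat_lit 33342) (nat_lit
  13) (node (nat_lit 5) (nat_lit 33342) (nat_lit 14) nil nil) (node (nat_lit 5) (nat_lit 33012)
  (nat_lit 13) (node (nat_lit 4) (nat_lit 33012) (nat_lit 14) nil nil) (node (nat_lit 4) (nat_lit
  33012) (nat_lit 13) nil nil))) nil)))) (node (nat_lit 0) (nat_lit 32963) (nat_lit 11) (node
  (nat_lit 5) (nat_lit 32963) (nat_lit 12) (node (nat_lit 4) (nat_lit 32963) (nat_lit 13) nil nil)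
  (node (nat_lit 4) (nat_lit 32963) (nat_lit 12) nil (node (nat_lit 6) (nat_lit 33147) (nat_lit
  12) nil nil))) (node (nat_lit 2) (nat_lit 30392) (nat_lit 11) (node (nat_lit 4) (nat_lit 30392)
  (nat_lit 12) nil (node (nat_lit 5) (nat_lit 30392) (nat_lit 12) (node (nat_lit 4) (nat_lit
  30182) (nat_lit 13) nil nil) (node (nat_lit 6) (nat_lit 32601) (nat_lit 12) nil nil))) nil)))
  (node (nat_lit 0) (nat_lit 0) (nat_lit 10) (node (nat_lit 4) (nat_lit 32382) (nat_lit 11) (node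
  (nat_lit 6) (nat_lit 32957) (nat_lit 12) (node (nat_lit 5) (nat_lit 32957) (nat_lit 13) nil nil)
  (node (nat_lit 5) (nat_lit 32382) (nat_lit 12) nil nil)) (node (nat_lit 5) (nat_lit 32382)
  (nat_lit 11) (node (nat_lit 4) (nat_lit 32382) (nat_lit 12) (node (nat_lit 5) (nat_lit 32382)
  (nat_lit 13) nil nil) nil) (node (nat_lit 6) (nat_lit 32773) (nat_lit 11) (node (nat_lit 5)
  (nat_lit 32773) (nat_lit 12) (node (nat_lit 4) (nat_lit 32773) (nat_lit 13) nil nil) nil) (node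
  (nat_lit 0) (nat_lit 32726) (nat_lit 11) nil (node (nat_lit 2) (nat_lit 32382) (nat_lit 11) nil
  nil))))) (node (nat_lit 2) (nat_lit 0) (nat_lit 10) (node (nat_lit 4) (nat_lit 30392) (nat_lit
  11) (node (nat_lit 6) (nat_lit 32006) (nat_lit 12) (node (nat_lit 5) (nat_lit 32006) (nat_lit
  13) nil nil) (node (nat_lit 5) (nat_lit 30392) (nat_lit 12) nil nil)) (node (nat_lit 5) (nat_lit
  30392) (nat_lit 11) (node (nat_lit 4) (nat_lit 30392) (nat_lit 12) (node (nat_lit 5) (nat_lit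
  30392) (nat_lit 13) nil nil) (node (nat_lit 6) (nat_lit 32006) (nat_lit 12) nil (node (nat_lit
  13) (nat_lit 30392) (nat_lit 12) nil nil))) (node (nat_lit 6) (nat_lit 32349) (nat_lit 11) (node
  (nat_lit 4) (nat_lit 32349) (nat_lit 12) nil (node (nat_lit 5) (nat_lit 32349) (nat_lit 12)
  (node (nat_lit 4) (nat_lit 32349) (nat_lit 13) nil nil) nil)) (node (nat_lit 0) (nat_lit 31822)
  (nat_lit 11) nil nil)))) nil))) (node (nat_lit 0) (nat_lit 31299) (nat_lit 9) (node (nat_lit 4)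
  (nat_lit 31445) (nat_lit 10) (node (nat_lit 6) (nat_lit 32233) (nat_lit 11) nil (node (nat_lit
  5) (nat_lit 31445) (nat_lit 11) nil nil)) (node (nat_lit 5) (nat_lit 31292) (nat_lit 10) (node
  (nat_lit 4) (nat_lit 31292) (nat_lit 11) (node (nat_lit 5) (nat_lit 31292) (nat_lit 12) (node
  (nat_lit 6) (nat_lit 32562) (nat_lit 13) nil nil) nil) (node (nat_lit 6) (nat_lit 32456)
  (nat_lit 11) nil nil)) (node (nat_lit 6) (nat_lit 32243) (nat_lit 10) (node (nat_lit 5) (nat_lit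
  32243) (nat_lit 11) (node (nat_lit 4) (nat_lit 32243) (nat_lit 12) nil nil) nil) nil))) (node
  (nat_lit 2) (nat_lit 29168) (nat_lit 9) (node (nat_lit 4) (nat_lit 29952) (nat_lit 10) (node
  (nat_lit 6) (nat_lit 31822) (nat_lit 11) (node (nat_lit 5) (nat_lit 31822) (nat_lit 12) nil nil)
  (node (nat_lit 5) (nat_lit 29971) (nat_lit 11) nil nil)) (node (nat_lit 5) (nat_lit 29432)
  (nat_lit 10) (node (nat_lit 4) (nat_lit 29200) (nat_lit 11) (node (nat_lit 5) (nat_lit 27450)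
  (nat_lit 12) (node (nat_lit 6) (nat_lit 25530) (nat_lit 13) nil nil) nil) (node (nat_lit 6)
  (nat_lit 30648) (nat_lit 11) nil nil)) (node (nat_lit 6) (nat_lit 32382) (nat_lit 10) (node
  (nat_lit 5) (nat_lit 32382) (nat_lit 11) (node (nat_lit 4) (nat_lit 32382) (nat_lit 12) nil nil)
  (node (nat_lit 4) (nat_lit 32382) (nat_lit 11) nil nil)) nil))) nil))))

noncomputable def t129 : Tr :=
  (node (nat_lit 6) (nat_lit 0) (nat_lit 9) (node (nat_lit 5) (nat_lit 0) (nat_lit 10) (node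
  (nat_lit 4) (nat_lit 0) (nat_lit 11) (node (nat_lit 5) (nat_lit 0) (nat_lit 12) (node (nat_lit
  6) (nat_lit 0) (nat_lit 13) (node (nat_lit 4) (nat_lit 0) (nat_lit 14) (node (nat_lit 6)
  (nat_lit 33523) (nat_lit 15) (node (nat_lit 5) (nat_lit 33523) (nat_lit 16) (node (nat_lit 4)
  (nat_lit 33523) (nat_lit 17) (node (nat_lit 5) (nat_lit 33523) (nat_lit 18) (node (nat_lit 6)
  (nat_lit 33651) (nat_lit 19) (node (nat_lit 5) (nat_lit 33651) (nat_lit 20) (node (nat_lit 4)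
  (nat_lit 33651) (nat_lit 21) (node (nat_lit 6) (nat_lit 33651) (nat_lit 22) (node (nat_lit 4)
  (nat_lit 33651) (nat_lit 23) (node (nat_lit 5) (nat_lit 33651) (nat_lit 24) (node (nat_lit 6)
  (nat_lit 33651) (nat_lit 25) nil nil) nil) nil) nil) nil) nil) nil) (node (nat_lit 6) (nat_lit
  33651) (nat_lit 18) (node (nat_lit 4) (nat_lit 33651) (nat_lit 19) (node (nat_lit 5) (nat_lit
  33651) (nat_lit 20) (node (nat_lit 6) (nat_lit 33651) (nat_lit 21) (node (nat_lit 5) (nat_lit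
  33651) (nat_lit 22) (node (nat_lit 4) (nat_lit 33651) (nat_lit 23) (node (nat_lit 6) (nat_lit
  33651) (nat_lit 24) nil nil) nil) nil) nil) nil) nil) nil)) (node (nat_lit 6) (nat_lit 33645)
  (nat_lit 17) (node (nat_lit 4) (nat_lit 33645) (nat_lit 18) (node (nat_lit 5) (nat_lit 33645)
  (nat_lit 19) (node (nat_lit 6) (nat_lit 33651) (nat_lit 20) (node (nat_lit 5) (nat_lit 33651)
  (nat_lit 21) (node (nat_lit 4) (nat_lit 33651) (nat_lit 22) (node (nat_lit 6) (nat_lit 33651)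
  (nat_lit 23) (node (nat_lit 4) (nat_lit 33651) (nat_lit 24) nil nil) nil) nil) nil) nil) nil)
  nil) nil)) nil) (node (nat_lit 5) (nat_lit 0) (nat_lit 15) (node (nat_lit 4) (nat_lit 0)
  (nat_lit 16) (node (nat_lit 6) (nat_lit 33571) (nat_lit 17) (node (nat_lit 5) (nat_lit 33571)
  (nat_lit 18) (node (nat_lit 6) (nat_lit 33645) (nat_lit 19) (node (nat_lit 4) (nat_lit 33645)
  (nat_lit 20) (node (nat_lit 5) (nat_lit 33645) (nat_lit 21) (node (nat_lit 6) (nat_lit 33651)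
  (nat_lit 22) (node (nat_lit 5) (nat_lit 33651) (nat_lit 23) (node (nat_lit 4) (nat_lit 33651)
  (nat_lit 24) (node (nat_lit 6) (nat_lit 33651) (nat_lit 25) nil nil) nil) nil) nil) nil) nil)
  (node (nat_lit 4) (nat_lit 33571) (nat_lit 19) (node (nat_lit 5) (nat_lit 33571) (nat_lit 20)
  (node (nat_lit 6) (nat_lit 33651) (nat_lit 21) (node (nat_lit 5) (nat_lit 33651) (nat_lit 22)
  (node (nat_lit 4) (nat_lit 33651) (nat_lit 23) (node (nat_lit 6) (nat_lit 33651) (nat_lit 24)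
  nil nil) nil) nil) nil) nil) nil)) (node (nat_lit 4) (nat_lit 33571) (nat_lit 18) (node (nat_lit
  5) (nat_lit 33571) (nat_lit 19) (node (nat_lit 6) (nat_lit 33651) (nat_lit 20) (node (nat_lit 5)
  (nat_lit 33651) (nat_lit 21) (node (nat_lit 4) (nat_lit 33651) (nat_lit 22) (node (nat_lit 6)
  (nat_lit 33651) (nat_lit 23) (node (nat_lit 4) (nat_lit 33651) (nat_lit 24) (node (nat_lit 5)
  (nat_lit 33651) (nat_lit 25) nil nil) nil) nil) nil) nil) nil) nil) nil)) (node (nat_lit 0)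
  (nat_lit 33571) (nat_lit 17) nil (node (nat_lit 2) (nat_lit 33247) (nat_lit 17) nil nil))) (node
  (nat_lit 0) (nat_lit 33517) (nat_lit 16) (node (nat_lit 6) (nat_lit 33571) (nat_lit 17) nil
  (node (nat_lit 5) (nat_lit 33517) (nat_lit 17) (node (nat_lit 4) (nat_lit 33517) (nat_lit 18)
  nil (node (nat_lit 6) (nat_lit 33613) (nat_lit 18) nil nil)) nil)) (node (nat_lit 2) (nat_lit
  33247) (nat_lit 16) (node (nat_lit 6) (nat_lit 33571) (nat_lit 17) nil (node (nat_lit 5)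
  (nat_lit 33247) (nat_lit 17) (node (nat_lit 4) (nat_lit 33247) (nat_lit 18) nil (node (nat_lit
  6) (nat_lit 33613) (nat_lit 18) nil nil)) nil)) nil))) (node (nat_lit 0) (nat_lit 33449)
  (nat_lit 15) (node (nat_lit 5) (nat_lit 33449) (nat_lit 16) (node (nat_lit 4) (nat_lit 33449)
  (nat_lit 17) nil (node (nat_lit 6) (nat_lit 33571) (nat_lit 17) nil nil)) (node (nat_lit 4)
  (nat_lit 33449) (nat_lit 16) (node (nat_lit 6) (nat_lit 33571) (nat_lit 17) nil nil) (node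
  (nat_lit 6) (nat_lit 33517) (nat_lit 16) (node (nat_lit 4) (nat_lit 33517) (nat_lit 17) nil
  (node (nat_lit 5) (nat_lit 33517) (nat_lit 17) nil nil)) nil))) (node (nat_lit 2) (nat_lit
  33247) (nat_lit 15) (node (nat_lit 5) (nat_lit 33247) (nat_lit 16) (node (nat_lit 4) (nat_lit
  33247) (nat_lit 17) nil (node (nat_lit 6) (nat_lit 33571) (nat_lit 17) nil nil)) (node (nat_lit
  4) (nat_lit 33247) (nat_lit 16) (node (nat_lit 6) (nat_lit 33571) (nat_lit 17) nil nil) (node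
  (nat_lit 6) (nat_lit 33517) (nat_lit 16) (node (nat_lit 4) (nat_lit 33517) (nat_lit 17) nil
  (node (nat_lit 5) (nat_lit 33517) (nat_lit 17) nil nil)) nil))) nil)))) (node (nat_lit 0)
  (nat_lit 33360) (nat_lit 14) (node (nat_lit 5) (nat_lit 33360) (nat_lit 15) (node (nat_lit 4)
  (nat_lit 33360) (nat_lit 16) nil (node (nat_lit 6) (nat_lit 33517) (nat_lit 16) nil nil)) (node
  (nat_lit 6) (nat_lit 33449) (nat_lit 15) (node (nat_lit 4) (nat_lit 33449) (nat_lit 16) (node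
  (nat_lit 5) (nat_lit 33449) (nat_lit 17) nil nil) (node (nat_lit 5) (nat_lit 33449) (nat_lit 16)
  nil nil)) (node (nat_lit 4) (nat_lit 33360) (nat_lit 15) (node (nat_lit 6) (nat_lit 33517)
  (nat_lit 16) nil nil) nil))) (node (nat_lit 2) (nat_lit 33247) (nat_lit 14) (node (nat_lit 5)
  (nat_lit 33247) (nat_lit 15) (node (nat_lit 4) (nat_lit 33247) (nat_lit 16) nil (node (nat_lit
  6) (nat_lit 33517) (nat_lit 16) nil nil)) (node (nat_lit 6) (nat_lit 33449) (nat_lit 15) (node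
  (nat_lit 4) (nat_lit 33449) (nat_lit 16) (node (nat_lit 5) (nat_lit 33449) (nat_lit 17) nil nil)
  (node (nat_lit 5) (nat_lit 33449) (nat_lit 16) nil nil)) (node (nat_lit 4) (nat_lit 33247)
  (nat_lit 15) (node (nat_lit 6) (nat_lit 33517) (nat_lit 16) nil nil) nil))) nil))) (node
  (nat_lit 0) (nat_lit 33108) (nat_lit 13) (node (nat_lit 6) (nat_lit 33221) (nat_lit 14) (node
  (nat_lit 5) (nat_lit 33221) (nat_lit 15) (node (nat_lit 6) (nat_lit 33378) (nat_lit 16) nil nil)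
  (node (nat_lit 4) (nat_lit 33221) (nat_lit 15) (node (nat_lit 5) (nat_lit 33221) (nat_lit 16)
  (node (nat_lit 6) (nat_lit 33431) (nat_lit 17) nil nil) nil) nil)) (node (nat_lit 4) (nat_lit
  33108) (nat_lit 14) (node (nat_lit 6) (nat_lit 33310) (nat_lit 15) nil nil) (node (nat_lit 5)
  (nat_lit 33108) (nat_lit 14) (node (nat_lit 4) (nat_lit 33108) (nat_lit 15) (node (nat_lit 5)
  (nat_lit 33108) (nat_lit 16) nil (node (nat_lit 6) (nat_lit 33378) (nat_lit 16) nil nil)) (node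
  (nat_lit 6) (nat_lit 33310) (nat_lit 15) (node (nat_lit 4) (nat_lit 33310) (nat_lit 16) (node
  (nat_lit 5) (nat_lit 33310) (nat_lit 17) nil nil) (node (nat_lit 5) (nat_lit 33310) (nat_lit 16)
  nil nil)) nil)) nil))) (node (nat_lit 2) (nat_lit 31542) (nat_lit 13) (node (nat_lit 6) (nat_lit
  32889) (nat_lit 14) (node (nat_lit 5) (nat_lit 32889) (nat_lit 15) (node (nat_lit 6) (nat_lit
  33045) (nat_lit 16) (node (nat_lit 4) (nat_lit 33045) (nat_lit 17) nil nil) nil) (node (nat_lit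
  4) (nat_lit 32889) (nat_lit 15) (node (nat_lit 5) (nat_lit 32889) (nat_lit 16) (node (nat_lit 6)
  (nat_lit 33099) (nat_lit 17) nil nil) nil) nil)) (node (nat_lit 4) (nat_lit 31542) (nat_lit 14)
  (node (nat_lit 5) (nat_lit 31542) (nat_lit 15) (node (nat_lit 4) (nat_lit 31542) (nat_lit 16)
  (node (nat_lit 6) (nat_lit 32736) (nat_lit 17) nil nil) (node (nat_lit 6) (nat_lit 32683)
  (nat_lit 16) nil nil)) (node (nat_lit 6) (nat_lit 32614) (nat_lit 15) (node (nat_lit 4) (nat_lit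
  32614) (nat_lit 16) nil nil) nil)) (node (nat_lit 5) (nat_lit 31542) (nat_lit 14) (node (nat_lit
  4) (nat_lit 31542) (nat_lit 15) (node (nat_lit 5) (nat_lit 30643) (nat_lit 16) (node (nat_lit 6)
  (nat_lit 30321) (nat_lit 17) nil nil) (node (nat_lit 6) (nat_lit 32683) (nat_lit 16) nil (node
  (nat_lit 16) (nat_lit 31542) (nat_lit 16) nil nil))) (node (nat_lit 6) (nat_lit 32614) (nat_lit
  15) (node (nat_lit 4) (nat_lit 32614) (nat_lit 16) (node (nat_lit 5) (nat_lit 32614) (nat_lit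
  17) nil nil) (node (nat_lit 5) (nat_lit 32614) (nat_lit 16) nil nil)) nil)) (node (nat_lit 0)
  (nat_lit 32526) (nat_lit 14) nil nil)))) nil))) (node (nat_lit 0) (nat_lit 32535) (nat_lit 12)
  (node (nat_lit 5) (nat_lit 32535) (nat_lit 13) (node (nat_lit 4) (nat_lit 32535) (nat_lit 14)
  (node (nat_lit 5) (nat_lit 32535) (nat_lit 15) (node (nat_lit 6) (nat_lit 32950) (nat_lit 16)
  nil nil) nil) (node (nat_lit 6) (nat_lit 32793) (nat_lit 14) nil nil)) (node (nat_lit 6)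
  (nat_lit 32680) (nat_lit 13) (node (nat_lit 4) (nat_lit 32680) (nat_lit 14) (node (nat_lit 5)
  (nat_lit 32680) (nat_lit 15) nil nil) (node (nat_lit 5) (nat_lit 32680) (nat_lit 14) nil nil))
  (node (nat_lit 4) (nat_lit 32535) (nat_lit 13) (node (nat_lit 6) (nat_lit 32793) (nat_lit 14)
  nil nil) nil))) (node (nat_lit 2) (nat_lit 31542) (nat_lit 12) (node (nat_lit 5) (nat_lit 31542)
  (nat_lit 13) (node (nat_lit 4) (nat_lit 31542) (nat_lit 14) (node (nat_lit 5) (nat_lit 31542)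
  (nat_lit 15) (node (nat_lit 6) (nat_lit 32683) (nat_lit 16) nil nil) (node (nat_lit 6) (nat_lit
  32614) (nat_lit 15) nil nil)) (node (nat_lit 6) (nat_lit 32526) (nat_lit 14) nil nil)) (node
  (nat_lit 6) (nat_lit 32413) (nat_lit 13) (node (nat_lit 4) (nat_lit 32413) (nat_lit 14) (node
  (nat_lit 5) (nat_lit 32413) (nat_lit 15) nil nil) (node (nat_lit 5) (nat_lit 32413) (nat_lit 14)
  nil nil)) (node (nat_lit 4) (nat_lit 31542) (nat_lit 13) (node (nat_lit 5) (nat_lit 31542)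
  (nat_lit 14) nil (node (nat_lit 6) (nat_lit 32526) (nat_lit 14) nil nil)) nil))) nil))) (node
  (nat_lit 0) (nat_lit 114626) (nat_lit 11) (node (nat_lit 5) (nat_lit 114472) (nat_lit 12) nil
  (node (nat_lit 6) (nat_lit 116760) (nat_lit 12) nil nil)) (node (nat_lit 2) (nat_lit 112131)
  (nat_lit 11) (node (nat_lit 6) (nat_lit 114265) (nat_lit 12) nil (node (nat_lit 5) (nat_lit
  113131) (nat_lit 12) nil nil)) nil))) (node (nat_lit 4) (nat_lit 0) (nat_lit 10) (node (nat_lit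
  6) (nat_lit 134960) (nat_lit 11) (node (nat_lit 5) (nat_lit 135514) (nat_lit 12) (node (nat_lit
  4) (nat_lit 136737) (nat_lit 13) (node (nat_lit 6) (nat_lit 139035) (nat_lit 14) (node (nat_lit
  4) (nat_lit 137180) (nat_lit 15) (node (nat_lit 5) (nat_lit 136954) (nat_lit 16) (node (nat_lit
  6) (nat_lit 137269) (nat_lit 17) (node (nat_lit 5) (nat_lit 136820) (nat_lit 18) (node (nat_lit
  4) (nat_lit 135061) (nat_lit 19) (node (nat_lit 6) (nat_lit 132922) (nat_lit 20) nil nil) nil)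
  nil) nil) nil) nil) (node (nat_lit 5) (nat_lit 137730) (nat_lit 14) (node (nat_lit 6) (nat_lit
  139112) (nat_lit 15) (node (nat_lit 5) (nat_lit 139112) (nat_lit 16) (node (nat_lit 4) (nat_lit
  139108) (nat_lit 17) (node (nat_lit 6) (nat_lit 139636) (nat_lit 18) (node (nat_lit 4) (nat_lit
  139568) (nat_lit 19) (node (nat_lit 5) (nat_lit 139420) (nat_lit 20) (node (nat_lit 6) (nat_lit
  139384) (nat_lit 21) (node (nat_lit 4) (nat_lit 139384) (nat_lit 22) (node (nat_lit 6) (nat_lit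
  85845) (nat_lit 23) nil nil) nil) nil) nil) nil) nil) nil) nil) nil) nil)) (node (nat_lit 6)
  (nat_lit 137780) (nat_lit 13) (node (nat_lit 4) (nat_lit 137780) (nat_lit 14) (node (nat_lit 5)
  (nat_lit 138556) (nat_lit 15) (node (nat_lit 6) (nat_lit 139634) (nat_lit 16) (node (nat_lit 5)
  (nat_lit 139634) (nat_lit 17) (node (nat_lit 4) (nat_lit 139632) (nat_lit 18) (node (nat_lit 6)
  (nat_lit 139095) (nat_lit 19) (node (nat_lit 4) (nat_lit 134138) (nat_lit 20) (node (nat_lit 5)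
  (nat_lit 124838) (nat_lit 21) (node (nat_lit 6) (nat_lit 111321) (nat_lit 22) (node (nat_lit 4)
  (nat_lit 94454) (nat_lit 23) (node (nat_lit 6) (nat_lit 55569) (nat_lit 24) (node (nat_lit 5)
  (nat_lit 32100) (nat_lit 25) nil nil) nil) nil) nil) nil) nil) nil) nil) nil) nil) nil) nil)
  nil)) nil) (node (nat_lit 0) (nat_lit 134253) (nat_lit 11) nil (node (nat_lit 2) (nat_lit
  130491) (nat_lit 11) (node (nat_lit 5) (nat_lit 127714) (nat_lit 12) nil (node (nat_lit 6)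
  (nat_lit 130745) (nat_lit 12) nil nil)) nil))) (node (nat_lit 0) (nat_lit 132621) (nat_lit 10)
  (node (nat_lit 6) (nat_lit 134253) (nat_lit 11) nil (node (nat_lit 5) (nat_lit 132621) (nat_lit
  11) nil nil)) (node (nat_lit 2) (nat_lit 128773) (nat_lit 10) (node (nat_lit 6) (nat_lit 132495)
  (nat_lit 11) nil (node (nat_lit 5) (nat_lit 130318) (nat_lit 11) nil (node (nat_lit 4) (nat_lit
  128671) (nat_lit 11) nil nil))) nil)))) (node (nat_lit 4) (nat_lit 0) (nat_lit 9) (node (nat_lit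
  6) (nat_lit 0) (nat_lit 10) (node (nat_lit 5) (nat_lit 0) (nat_lit 11) (node (nat_lit 4)
  (nat_lit 154146) (nat_lit 12) (node (nat_lit 5) (nat_lit 155815) (nat_lit 13) (node (nat_lit 6)
  (nat_lit 157114) (nat_lit 14) (node (nat_lit 5) (nat_lit 158131) (nat_lit 15) (node (nat_lit 4)
  (nat_lit 158125) (nat_lit 16) (node (nat_lit 6) (nat_lit 158528) (nat_lit 17) (node (nat_lit 4)
  (nat_lit 158896) (nat_lit 18) (node (nat_lit 5) (nat_lit 158650) (nat_lit 19) (node (nat_lit 4)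
  (nat_lit 158648) (nat_lit 20) (node (nat_lit 6) (nat_lit 94673) (nat_lit 21) nil nil) nil) nil)
  nil) nil) nil) nil) nil) nil) (node (nat_lit 6) (nat_lit 152879) (nat_lit 12) (node (nat_lit 4)
  (nat_lit 154617) (nat_lit 13) (node (nat_lit 5) (nat_lit 155033) (nat_lit 14) (node (nat_lit 6)
  (nat_lit 154858) (nat_lit 15) (node (nat_lit 5) (nat_lit 153558) (nat_lit 16) (node (nat_lit 4)
  (nat_lit 150773) (nat_lit 17) (node (nat_lit 6) (nat_lit 148076) (nat_lit 18) (node (nat_lit 4)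
  (nat_lit 145217) (nat_lit 19) (node (nat_lit 5) (nat_lit 132173) (nat_lit 20) (node (nat_lit 4)
  (nat_lit 115162) (nat_lit 21) (node (nat_lit 6) (nat_lit 64204) (nat_lit 22) (node (nat_lit 5)
  (nat_lit 29706) (nat_lit 23) nil nil) nil) nil) nil) nil) nil) nil) nil) nil) nil) nil) (node
  (nat_lit 0) (nat_lit 154146) (nat_lit 12) (node (nat_lit 5) (nat_lit 154063) (nat_lit 13) nil
  (node (nat_lit 6) (nat_lit 155815) (nat_lit 13) nil nil)) (node (nat_lit 2) (nat_lit 152211)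
  (nat_lit 12) (node (nat_lit 5) (nat_lit 151153) (nat_lit 13) (node (nat_lit 4) (nat_lit 150918)
  (nat_lit 14) nil (node (nat_lit 6) (nat_lit 151948) (nat_lit 14) nil nil)) (node (nat_lit 6)
  (nat_lit 150970) (nat_lit 13) nil (node (nat_lit 4) (nat_lit 152128) (nat_lit 13) nil nil)))
  nil)))) (node (nat_lit 0) (nat_lit 152728) (nat_lit 11) (node (nat_lit 6) (nat_lit 154863)
  (nat_lit 12) nil (node (nat_lit 5) (nat_lit 152575) (nat_lit 12) (node (nat_lit 4) (nat_lit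
  152491) (nat_lit 13) nil nil) (node (nat_lit 4) (nat_lit 152575) (nat_lit 12) nil nil))) (node
  (nat_lit 2) (nat_lit 151344) (nat_lit 11) (node (nat_lit 6) (nat_lit 153478) (nat_lit 12) (node
  (nat_lit 4) (nat_lit 151335) (nat_lit 13) nil (node (nat_lit 5) (nat_lit 153395) (nat_lit 13)
  nil nil)) (node (nat_lit 5) (nat_lit 149850) (nat_lit 12) (node (nat_lit 6) (nat_lit 148609)
  (nat_lit 13) nil (node (nat_lit 4) (nat_lit 149583) (nat_lit 13) nil nil)) (node (nat_lit 4)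
  (nat_lit 153478) (nat_lit 12) nil nil))) nil))) (node (nat_lit 0) (nat_lit 150160) (nat_lit 10)
  (node (nat_lit 5) (nat_lit 149948) (nat_lit 11) (node (nat_lit 4) (nat_lit 149794) (nat_lit 12)
  nil (node (nat_lit 6) (nat_lit 151403) (nat_lit 12) nil nil)) (node (nat_lit 6) (nat_lit 152897)
  (nat_lit 11) (node (nat_lit 4) (nat_lit 155031) (nat_lit 12) nil nil) (node (nat_lit 4) (nat_lit
  152897) (nat_lit 11) nil nil))) (node (nat_lit 2) (nat_lit 150160) (nat_lit 10) (node (nat_lit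
  5) (nat_lit 149917) (nat_lit 11) (node (nat_lit 6) (nat_lit 152052) (nat_lit 12) (node (nat_lit
  4) (nat_lit 150127) (nat_lit 13) nil nil) (node (nat_lit 4) (nat_lit 150802) (nat_lit 12) nil
  nil)) (node (nat_lit 6) (nat_lit 152897) (nat_lit 11) (node (nat_lit 4) (nat_lit 150427)
  (nat_lit 12) (node (nat_lit 5) (nat_lit 149986) (nat_lit 13) nil nil) (node (nat_lit 5) (nat_lit
  152743) (nat_lit 12) nil nil)) (node (nat_lit 4) (nat_lit 152450) (nat_lit 11) nil nil))) nil)))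
  (node (nat_lit 0) (nat_lit 146218) (nat_lit 9) (node (nat_lit 5) (nat_lit 149727) (nat_lit 10)
  (node (nat_lit 4) (nat_lit 149514) (nat_lit 11) nil nil) (node (nat_lit 6) (nat_lit 149727)
  (nat_lit 10) (node (nat_lit 4) (nat_lit 152463) (nat_lit 11) nil nil) (node (nat_lit 4) (nat_lit
  146048) (nat_lit 10) nil nil))) (node (nat_lit 2) (nat_lit 146218) (nat_lit 9) (node (nat_lit 5)
  (nat_lit 150160) (nat_lit 10) (node (nat_lit 4) (nat_lit 149335) (nat_lit 11) nil (node (nat_lit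
  6) (nat_lit 152897) (nat_lit 11) nil nil)) (node (nat_lit 6) (nat_lit 147164) (nat_lit 10) (node
  (nat_lit 4) (nat_lit 150856) (nat_lit 11) (node (nat_lit 5) (nat_lit 143903) (nat_lit 12) nil
  nil) nil) (node (nat_lit 4) (nat_lit 149727) (nat_lit 10) nil nil))) nil))))

noncomputable def t130 : Tr :=
  (node (nat_lit 4) (nat_lit 0) (nat_lit 4) (node (nat_lit 6) (nat_lit 0) (nat_lit 5) (node
  (nat_lit 5) (nat_lit 0) (nat_lit 6) (node (nat_lit 4) (nat_lit 0) (nat_lit 7) (node (nat_lit 6)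
  (nat_lit 0) (nat_lit 8) (node (nat_lit 4) (nat_lit 0) (nat_lit 9) (node (nat_lit 5) (nat_lit 0)
  (nat_lit 10) (node (nat_lit 6) (nat_lit 0) (nat_lit 11) (node (nat_lit 4) (nat_lit 108060)
  (nat_lit 12) (node (nat_lit 6) (nat_lit 91032) (nat_lit 13) (node (nat_lit 5) (nat_lit 64100)
  (nat_lit 14) (node (nat_lit 4) (nat_lit 0) (nat_lit 15) (node (nat_lit 5) (nat_lit 30884)
  (nat_lit 16) (node (nat_lit 6) (nat_lit 31208) (nat_lit 17) (node (nat_lit 4) (nat_lit 31208)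
  (nat_lit 18) (node (nat_lit 6) (nat_lit 31282) (nat_lit 19) nil nil) (node (nat_lit 5) (nat_lit
  31208) (nat_lit 18) (node (nat_lit 4) (nat_lit 31208) (nat_lit 19) (node (nat_lit 6) (nat_lit
  31308) (nat_lit 20) (node (nat_lit 4) (nat_lit 31308) (nat_lit 21) (node (nat_lit 5) (nat_lit
  31308) (nat_lit 22) nil nil) nil) nil) nil) nil)) nil) (node (nat_lit 0) (nat_lit 31154)
  (nat_lit 16) (node (nat_lit 5) (nat_lit 31154) (nat_lit 17) nil (node (nat_lit 6) (nat_lit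
  31208) (nat_lit 17) nil nil)) (node (nat_lit 2) (nat_lit 30884) (nat_lit 16) (node (nat_lit 5)
  (nat_lit 30884) (nat_lit 17) nil (node (nat_lit 6) (nat_lit 31208) (nat_lit 17) nil nil)) nil)))
  (node (nat_lit 6) (nat_lit 64100) (nat_lit 15) (node (nat_lit 4) (nat_lit 64100) (nat_lit 16)
  nil nil) nil)) nil) nil) (node (nat_lit 5) (nat_lit 108060) (nat_lit 12) (node (nat_lit 4)
  (nat_lit 107976) (nat_lit 13) (node (nat_lit 5) (nat_lit 109275) (nat_lit 14) (node (nat_lit 6)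
  (nat_lit 110292) (nat_lit 15) (node (nat_lit 4) (nat_lit 111083) (nat_lit 16) (node (nat_lit 6)
  (nat_lit 111703) (nat_lit 17) (node (nat_lit 5) (nat_lit 112186) (nat_lit 18) (node (nat_lit 4)
  (nat_lit 112183) (nat_lit 19) (node (nat_lit 6) (nat_lit 112371) (nat_lit 20) (node (nat_lit 4)
  (nat_lit 112471) (nat_lit 21) (node (nat_lit 5) (nat_lit 112592) (nat_lit 22) (node (nat_lit 6)
  (nat_lit 55609) (nat_lit 23) nil nil) nil) nil) nil) nil) nil) nil) nil) nil) nil) nil) (node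
  (nat_lit 0) (nat_lit 108060) (nat_lit 12) nil (node (nat_lit 2) (nat_lit 103836) (nat_lit 12)
  nil nil)))) (node (nat_lit 4) (nat_lit 0) (nat_lit 11) (node (nat_lit 6) (nat_lit 107179)
  (nat_lit 12) (node (nat_lit 5) (nat_lit 109123) (nat_lit 13) (node (nat_lit 6) (nat_lit 110423)
  (nat_lit 14) (node (nat_lit 4) (nat_lit 111439) (nat_lit 15) (node (nat_lit 5) (nat_lit 112230)
  (nat_lit 16) (node (nat_lit 6) (nat_lit 112850) (nat_lit 17) (node (nat_lit 5) (nat_lit 113333)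
  (nat_lit 18) (node (nat_lit 4) (nat_lit 113331) (nat_lit 19) (node (nat_lit 5) (nat_lit 113625)
  (nat_lit 20) (node (nat_lit 6) (nat_lit 113852) (nat_lit 21) (node (nat_lit 4) (nat_lit 114034)
  (nat_lit 22) (node (nat_lit 6) (nat_lit 114174) (nat_lit 23) (node (nat_lit 5) (nat_lit 114281)
  (nat_lit 24) (node (nat_lit 4) (nat_lit 114280) (nat_lit 25) (node (nat_lit 6) (nat_lit 114322)
  (nat_lit 26) (node (nat_lit 4) (nat_lit 114344) (nat_lit 27) (node (nat_lit 5) (nat_lit 114371)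
  (nat_lit 28) (node (nat_lit 4) (nat_lit 114369) (nat_lit 29) (node (nat_lit 6) (nat_lit 114385)
  (nat_lit 30) (node (nat_lit 5) (nat_lit 114404) (nat_lit 31) (node (nat_lit 6) (nat_lit 114421)
  (nat_lit 32) (node (nat_lit 4) (nat_lit 114431) (nat_lit 33) (node (nat_lit 5) (nat_lit 114440)
  (nat_lit 34) nil nil) nil) nil) nil) nil) nil) nil) nil) nil) nil) nil) nil) nil) nil) nil) nil)
  nil) nil) (node (nat_lit 6) (nat_lit 112230) (nat_lit 16) (node (nat_lit 5) (nat_lit 112850)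
  (nat_lit 17) (node (nat_lit 4) (nat_lit 112847) (nat_lit 18) (node (nat_lit 6) (nat_lit 113087)
  (nat_lit 19) (node (nat_lit 4) (nat_lit 113218) (nat_lit 20) nil nil) nil) nil) nil) nil)) nil)
  (node (nat_lit 4) (nat_lit 110423) (nat_lit 14) (node (nat_lit 5) (nat_lit 111439) (nat_lit 15)
  (node (nat_lit 6) (nat_lit 112230) (nat_lit 16) (node (nat_lit 4) (nat_lit 112850) (nat_lit 17)
  (node (nat_lit 6) (nat_lit 113333) (nat_lit 18) (node (nat_lit 5) (nat_lit 113710) (nat_lit 19)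
  (node (nat_lit 4) (nat_lit 113709) (nat_lit 20) (node (nat_lit 6) (nat_lit 113852) (nat_lit 21)
  (node (nat_lit 4) (nat_lit 113933) (nat_lit 22) (node (nat_lit 5) (nat_lit 114026) (nat_lit 23)
  nil nil) nil) nil) nil) nil) nil) nil) nil) nil) nil)) nil) (node (nat_lit 0) (nat_lit 107852)
  (nat_lit 12) nil (node (nat_lit 2) (nat_lit 103628) (nat_lit 12) (node (nat_lit 4) (nat_lit
  103544) (nat_lit 13) nil nil) nil))) (node (nat_lit 0) (nat_lit 105925) (nat_lit 11) (node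
  (nat_lit 5) (nat_lit 108060) (nat_lit 12) nil nil) (node (nat_lit 2) (nat_lit 103430) (nat_lit
  11) (node (nat_lit 5) (nat_lit 104381) (nat_lit 12) (node (nat_lit 4) (nat_lit 103530) (nat_lit
  13) nil nil) (node (nat_lit 6) (nat_lit 101886) (nat_lit 12) nil (node (nat_lit 4) (nat_lit
  103276) (nat_lit 12) (node (nat_lit 6) (nat_lit 104284) (nat_lit 13) nil nil) nil))) nil))))
  (node (nat_lit 0) (nat_lit 104289) (nat_lit 10) (node (nat_lit 6) (nat_lit 107025) (nat_lit 11)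
  nil (node (nat_lit 5) (nat_lit 107025) (nat_lit 11) nil (node (nat_lit 4) (nat_lit 107025)
  (nat_lit 11) nil nil))) (node (nat_lit 2) (nat_lit 102270) (nat_lit 10) (node (nat_lit 6)
  (nat_lit 105007) (nat_lit 11) nil (node (nat_lit 5) (nat_lit 106548) (nat_lit 11) (node (nat_lit
  4) (nat_lit 106373) (nat_lit 12) (node (nat_lit 5) (nat_lit 103125) (nat_lit 13) (node (nat_lit
  6) (nat_lit 100903) (nat_lit 14) (node (nat_lit 4) (nat_lit 88679) (nat_lit 15) (node (nat_lit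
  6) (nat_lit 84278) (nat_lit 16) nil nil) nil) nil) nil) nil) (node (nat_lit 4) (nat_lit 105007)
  (nat_lit 11) nil nil))) nil))) (node (nat_lit 0) (nat_lit 102866) (nat_lit 9) (node (nat_lit 6)
  (nat_lit 106375) (nat_lit 10) (node (nat_lit 4) (nat_lit 109111) (nat_lit 11) nil nil) (node
  (nat_lit 5) (nat_lit 106375) (nat_lit 10) (node (nat_lit 4) (nat_lit 106162) (nat_lit 11) nil
  nil) (node (nat_lit 4) (nat_lit 105213) (nat_lit 10) nil nil))) (node (nat_lit 2) (nat_lit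
  100512) (nat_lit 9) (node (nat_lit 6) (nat_lit 104021) (nat_lit 10) (node (nat_lit 4) (nat_lit
  106757) (nat_lit 11) nil nil) (node (nat_lit 5) (nat_lit 103629) (nat_lit 10) (node (nat_lit 4)
  (nat_lit 105103) (nat_lit 11) nil nil) (node (nat_lit 4) (nat_lit 104454) (nat_lit 10) (node
  (nat_lit 6) (nat_lit 107191) (nat_lit 11) nil nil) nil))) nil))) (node (nat_lit 5) (nat_lit 0)
  (nat_lit 8) (node (nat_lit 6) (nat_lit 0) (nat_lit 9) (node (nat_lit 4) (nat_lit 104983)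
  (nat_lit 10) (node (nat_lit 6) (nat_lit 52667) (nat_lit 11) nil nil) (node (nat_lit 5) (nat_lit
  0) (nat_lit 10) (node (nat_lit 4) (nat_lit 108843) (nat_lit 11) (node (nat_lit 6) (nat_lit
  110978) (nat_lit 12) nil nil) (node (nat_lit 0) (nat_lit 108843) (nat_lit 11) nil (node (nat_lit
  2) (nat_lit 103399) (nat_lit 11) nil nil))) (node (nat_lit 0) (nat_lit 104983) (nat_lit 10) nil
  (node (nat_lit 2) (nat_lit 105559) (nat_lit 10) (node (nat_lit 4) (nat_lit 105346) (nat_lit 11)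
  nil (node (nat_lit 5) (nat_lit 107780) (nat_lit 11) nil (node (nat_lit 6) (nat_lit 108295)
  (nat_lit 11) nil nil))) nil)))) (node (nat_lit 0) (nat_lit 103284) (nat_lit 9) (node (nat_lit 5)
  (nat_lit 106792) (nat_lit 10) (node (nat_lit 4) (nat_lit 106580) (nat_lit 11) nil nil) (node
  (nat_lit 6) (nat_lit 106792) (nat_lit 10) nil (node (nat_lit 4) (nat_lit 106792) (nat_lit 10)
  nil nil))) (node (nat_lit 2) (nat_lit 103520) (nat_lit 9) (node (nat_lit 5) (nat_lit 107663)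
  (nat_lit 10) (node (nat_lit 4) (nat_lit 110399) (nat_lit 11) nil nil) (node (nat_lit 6) (nat_lit
  107028) (nat_lit 10) (node (nat_lit 4) (nat_lit 109765) (nat_lit 11) nil nil) (node (nat_lit 4)
  (nat_lit 107028) (nat_lit 10) (node (nat_lit 6) (nat_lit 106003) (nat_lit 11) nil nil) nil)))
  nil))) nil)) (node (nat_lit 6) (nat_lit 0) (nat_lit 7) (node (nat_lit 4) (nat_lit 0) (nat_lit 8)
  (node (nat_lit 5) (nat_lit 0) (nat_lit 9) t127 (node (nat_lit 0) (nat_lit 103852) (nat_lit 9)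
  (node (nat_lit 4) (nat_lit 107361) (nat_lit 10) (node (nat_lit 6) (nat_lit 110097) (nat_lit 11)
  nil (node (nat_lit 5) (nat_lit 110569) (nat_lit 11) nil nil)) (node (nat_lit 6) (nat_lit 107361)
  (nat_lit 10) (node (nat_lit 4) (nat_lit 110097) (nat_lit 11) (node (nat_lit 5) (nat_lit 112232)
  (nat_lit 12) nil nil) (node (nat_lit 5) (nat_lit 110097) (nat_lit 11) nil nil)) (node (nat_lit
  5) (nat_lit 107638) (nat_lit 10) (node (nat_lit 4) (nat_lit 110374) (nat_lit 11) (node (nat_lit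
  5) (nat_lit 112509) (nat_lit 12) nil nil) (node (nat_lit 6) (nat_lit 110374) (nat_lit 11) nil
  nil)) nil))) (node (nat_lit 2) (nat_lit 101702) (nat_lit 9) (node (nat_lit 4) (nat_lit 105210)
  (nat_lit 10) (node (nat_lit 6) (nat_lit 107947) (nat_lit 11) nil (node (nat_lit 5) (nat_lit
  109848) (nat_lit 11) nil nil)) (node (nat_lit 6) (nat_lit 104648) (nat_lit 10) (node (nat_lit 4)
  (nat_lit 107778) (nat_lit 11) (node (nat_lit 5) (nat_lit 111983) (nat_lit 12) nil nil) (node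
  (nat_lit 5) (nat_lit 109286) (nat_lit 11) nil nil)) (node (nat_lit 5) (nat_lit 104799) (nat_lit
  10) (node (nat_lit 4) (nat_lit 107491) (nat_lit 11) (node (nat_lit 5) (nat_lit 107831) (nat_lit
  12) nil nil) (node (nat_lit 6) (nat_lit 107535) (nat_lit 11) nil nil)) nil))) nil))) nil) nil))
  nil) (node (nat_lit 5) (nat_lit 0) (nat_lit 5) (node (nat_lit 4) (nat_lit 0) (nat_lit 6) (node
  (nat_lit 6) (nat_lit 0) (nat_lit 7) (node (nat_lit 5) (nat_lit 0) (nat_lit 8) t128 (node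
  (nat_lit 4) (nat_lit 0) (nat_lit 8) (node (nat_lit 5) (nat_lit 0) (nat_lit 9) (node (nat_lit 6)
  (nat_lit 0) (nat_lit 10) (node (nat_lit 5) (nat_lit 0) (nat_lit 11) (node (nat_lit 4) (nat_lit
  0) (nat_lit 12) (node (nat_lit 6) (nat_lit 0) (nat_lit 13) (node (nat_lit 4) (nat_lit 33342)
  (nat_lit 14) (node (nat_lit 5) (nat_lit 33342) (nat_lit 15) (node (nat_lit 4) (nat_lit 33342)
  (nat_lit 16) (node (nat_lit 6) (nat_lit 33651) (nat_lit 17) nil nil) nil) nil) (node (nat_lit 5)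
  (nat_lit 33342) (nat_lit 14) (node (nat_lit 6) (nat_lit 33543) (nat_lit 15) nil nil) (node
  (nat_lit 2) (nat_lit 33342) (nat_lit 14) nil (node (nat_lit 0) (nat_lit 33455) (nat_lit 14) nil
  nil)))) (node (nat_lit 5) (nat_lit 32725) (nat_lit 13) (node (nat_lit 6) (nat_lit 33455)
  (nat_lit 14) (node (nat_lit 4) (nat_lit 33455) (nat_lit 15) (node (nat_lit 6) (nat_lit 33611)
  (nat_lit 16) (node (nat_lit 5) (nat_lit 33611) (nat_lit 17) (node (nat_lit 4) (nat_lit 33611)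
  (nat_lit 18) nil nil) nil) (node (nat_lit 5) (nat_lit 33455) (nat_lit 16) (node (nat_lit 4)
  (nat_lit 33455) (nat_lit 17) (node (nat_lit 6) (nat_lit 33651) (nat_lit 18) nil nil) nil) nil))
  nil) nil) (node (nat_lit 0) (nat_lit 33336) (nat_lit 13) (node (nat_lit 5) (nat_lit 33336)
  (nat_lit 14) (node (nat_lit 4) (nat_lit 33336) (nat_lit 15) nil nil) (node (nat_lit 6) (nat_lit
  33449) (nat_lit 14) (node (nat_lit 5) (nat_lit 33449) (nat_lit 15) nil nil) nil)) (node (nat_lit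
  2) (nat_lit 32770) (nat_lit 13) (node (nat_lit 5) (nat_lit 32770) (nat_lit 14) (node (nat_lit 4)
  (nat_lit 32770) (nat_lit 15) nil nil) (node (nat_lit 4) (nat_lit 32770) (nat_lit 14) nil (node
  (nat_lit 6) (nat_lit 33449) (nat_lit 14) (node (nat_lit 5) (nat_lit 33449) (nat_lit 15) nil nil)
  nil))) nil)))) (node (nat_lit 0) (nat_lit 33191) (nat_lit 12) (node (nat_lit 6) (nat_lit 33336)
  (nat_lit 13) (node (nat_lit 5) (nat_lit 33336) (nat_lit 14) (node (nat_lit 4) (nat_lit 33336)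
  (nat_lit 15) nil nil) nil) (node (nat_lit 5) (nat_lit 33191) (nat_lit 13) (node (nat_lit 4)
  (nat_lit 33191) (nat_lit 14) (node (nat_lit 5) (nat_lit 33191) (nat_lit 15) nil nil) nil) nil))
  (node (nat_lit 2) (nat_lit 32684) (nat_lit 12) (node (nat_lit 6) (nat_lit 33336) (nat_lit 13)
  (node (nat_lit 5) (nat_lit 33336) (nat_lit 14) (node (nat_lit 4) (nat_lit 33336) (nat_lit 15)
  nil nil) nil) (node (nat_lit 5) (nat_lit 32684) (nat_lit 13) (node (nat_lit 4) (nat_lit 32770)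
  (nat_lit 14) (node (nat_lit 5) (nat_lit 32770) (nat_lit 15) nil nil) nil) (node (nat_lit 4)
  (nat_lit 32684) (nat_lit 13) nil nil))) nil))) (node (nat_lit 4) (nat_lit 0) (nat_lit 11) (node
  (nat_lit 6) (nat_lit 33196) (nat_lit 12) (node (nat_lit 5) (nat_lit 33196) (nat_lit 13) (node
  (nat_lit 4) (nat_lit 33196) (nat_lit 14) (node (nat_lit 5) (nat_lit 33196) (nat_lit 15) (node
  (nat_lit 6) (nat_lit 33611) (nat_lit 16) (node (nat_lit 4) (nat_lit 33611) (nat_lit 17) (node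
  (nat_lit 5) (nat_lit 33611) (nat_lit 18) (node (nat_lit 4) (nat_lit 33611) (nat_lit 19) (node
  (nat_lit 6) (nat_lit 33651) (nat_lit 20) (node (nat_lit 4) (nat_lit 33651) (nat_lit 21) nil nil)
  nil) nil) nil) (node (nat_lit 5) (nat_lit 33611) (nat_lit 17) (node (nat_lit 4) (nat_lit 33611)
  (nat_lit 18) nil nil) nil)) nil) nil) nil) nil) (node (nat_lit 0) (nat_lit 33191) (nat_lit 12)
  (node (nat_lit 6) (nat_lit 33336) (nat_lit 13) nil nil) (node (nat_lit 2) (nat_lit 32631)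
  (nat_lit 12) (node (nat_lit 6) (nat_lit 33336) (nat_lit 13) nil nil) nil))) (node (nat_lit 0)
  (nat_lit 33012) (nat_lit 11) (node (nat_lit 6) (nat_lit 33196) (nat_lit 12) (node (nat_lit 5)
  (nat_lit 33196) (nat_lit 13) (node (nat_lit 4) (nat_lit 33196) (nat_lit 14) nil nil) nil) (node
  (nat_lit 5) (nat_lit 33012) (nat_lit 12) (node (nat_lit 4) (nat_lit 33012) (nat_lit 13) nil nil)
  (node (nat_lit 4) (nat_lit 33012) (nat_lit 12) nil nil))) (node (nat_lit 2) (nat_lit 32592)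
  (nat_lit 11) (node (nat_lit 6) (nat_lit 33191) (nat_lit 12) (node (nat_lit 5) (nat_lit 33191)
  (nat_lit 13) (node (nat_lit 4) (nat_lit 33191) (nat_lit 14) nil nil) nil) (node (nat_lit 5)
  (nat_lit 32592) (nat_lit 12) (node (nat_lit 4) (nat_lit 32592) (nat_lit 13) nil nil) (node
  (nat_lit 4) (nat_lit 32592) (nat_lit 12) nil nil))) nil)))) (node (nat_lit 0) (nat_lit 32382)
  (nat_lit 10) (node (nat_lit 4) (nat_lit 32382) (nat_lit 11) (node (nat_lit 6) (nat_lit 32957)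
  (nat_lit 12) (node (nat_lit 5) (nat_lit 32957) (nat_lit 13) nil nil) nil) (node (nat_lit 5)
  (nat_lit 32382) (nat_lit 11) (node (nat_lit 4) (nat_lit 32382) (nat_lit 12) nil nil) (node
  (nat_lit 6) (nat_lit 32726) (nat_lit 11) (node (nat_lit 5) (nat_lit 32726) (nat_lit 12) (node
  (nat_lit 4) (nat_lit 32726) (nat_lit 13) nil nil) nil) nil))) (node (nat_lit 2) (nat_lit 30083)
  (nat_lit 10) (node (nat_lit 4) (nat_lit 30392) (nat_lit 11) (node (nat_lit 6) (nat_lit 32006)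
  (nat_lit 12) (node (nat_lit 5) (nat_lit 32006) (nat_lit 13) nil nil) nil) (node (nat_lit 5)
  (nat_lit 30392) (nat_lit 11) (node (nat_lit 4) (nat_lit 30392) (nat_lit 12) nil (node (nat_lit
  6) (nat_lit 32006) (nat_lit 12) nil nil)) (node (nat_lit 6) (nat_lit 32349) (nat_lit 11) (node
  (nat_lit 5) (nat_lit 32349) (nat_lit 12) (node (nat_lit 4) (nat_lit 32349) (nat_lit 13) nil nil)
  nil) (node (nat_lit 0) (nat_lit 31822) (nat_lit 11) nil nil)))) nil))) (node (nat_lit 0)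
  (nat_lit 31299) (nat_lit 9) (node (nat_lit 4) (nat_lit 31445) (nat_lit 10) (node (nat_lit 5)
  (nat_lit 31445) (nat_lit 11) nil nil) (node (nat_lit 5) (nat_lit 31292) (nat_lit 10) (node
  (nat_lit 4) (nat_lit 31292) (nat_lit 11) (node (nat_lit 5) (nat_lit 31292) (nat_lit 12) nil nil)
  (node (nat_lit 6) (nat_lit 32081) (nat_lit 11) nil nil)) (node (nat_lit 6) (nat_lit 32243)
  (nat_lit 10) (node (nat_lit 5) (nat_lit 32243) (nat_lit 11) (node (nat_lit 4) (nat_lit 32243)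
  (nat_lit 12) nil nil) nil) nil))) (node (nat_lit 2) (nat_lit 29327) (nat_lit 9) (node (nat_lit
  4) (nat_lit 30045) (nat_lit 10) (node (nat_lit 6) (nat_lit 31822) (nat_lit 11) (node (nat_lit 5)
  (nat_lit 31822) (nat_lit 12) nil nil) (node (nat_lit 5) (nat_lit 30171) (nat_lit 11) nil nil))
  (node (nat_lit 5) (nat_lit 29811) (nat_lit 10) (node (nat_lit 4) (nat_lit 30392) (nat_lit 11)
  (node (nat_lit 5) (nat_lit 29578) (nat_lit 12) nil nil) (node (nat_lit 6) (nat_lit 31822)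
  (nat_lit 11) nil nil)) (node (nat_lit 6) (nat_lit 32238) (nat_lit 10) (node (nat_lit 5) (nat_lit
  32238) (nat_lit 11) (node (nat_lit 4) (nat_lit 32238) (nat_lit 12) nil nil) nil) nil))) nil)))
  nil)) nil) nil) nil)) (node (nat_lit 5) (nat_lit 0) (nat_lit 4) (node (nat_lit 4) (nat_lit 0)
  (nat_lit 5) (node (nat_lit 6) (nat_lit 0) (nat_lit 6) (node (nat_lit 4) (nat_lit 0) (nat_lit 7)
  (node (nat_lit 5) (nat_lit 0) (nat_lit 8) t129 nil) (node (nat_lit 5) (nat_lit 0) (nat_lit 7)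
  (node (nat_lit 6) (nat_lit 0) (nat_lit 8) (node (nat_lit 4) (nat_lit 0) (nat_lit 9) (node
  (nat_lit 5) (nat_lit 0) (nat_lit 10) (node (nat_lit 4) (nat_lit 0) (nat_lit 11) (node (nat_lit
  6) (nat_lit 154444) (nat_lit 12) (node (nat_lit 5) (nat_lit 154360) (nat_lit 13) (node (nat_lit
  4) (nat_lit 155660) (nat_lit 14) (node (nat_lit 5) (nat_lit 156676) (nat_lit 15) (node (nat_lit
  6) (nat_lit 157468) (nat_lit 16) (node (nat_lit 5) (nat_lit 158087) (nat_lit 17) (node (nat_lit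
  4) (nat_lit 158084) (nat_lit 18) (node (nat_lit 6) (nat_lit 158333) (nat_lit 19) (node (nat_lit
  5) (nat_lit 158332) (nat_lit 20) (node (nat_lit 6) (nat_lit 158480) (nat_lit 21) (node (nat_lit
  4) (nat_lit 158625) (nat_lit 22) (node (nat_lit 5) (nat_lit 158555) (nat_lit 23) (node (nat_lit
  4) (nat_lit 158550) (nat_lit 24) (node (nat_lit 6) (nat_lit 94254) (nat_lit 25) nil nil) nil)
  nil) nil) nil) nil) nil) nil) nil) nil) nil) nil) (node (nat_lit 4) (nat_lit 155441) (nat_lit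
  13) (node (nat_lit 5) (nat_lit 156216) (nat_lit 14) (node (nat_lit 6) (nat_lit 156824) (nat_lit
  15) (node (nat_lit 5) (nat_lit 157295) (nat_lit 16) (node (nat_lit 4) (nat_lit 157664) (nat_lit
  17) (node (nat_lit 6) (nat_lit 153454) (nat_lit 18) (node (nat_lit 5) (nat_lit 146429) (nat_lit
  19) (node (nat_lit 6) (nat_lit 136289) (nat_lit 20) (node (nat_lit 4) (nat_lit 122308) (nat_lit
  21) (node (nat_lit 5) (nat_lit 95058) (nat_lit 22) nil nil) nil) nil) nil) nil) nil) nil) nil)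
  nil) nil)) (node (nat_lit 0) (nat_lit 154967) (nat_lit 12) nil (node (nat_lit 2) (nat_lit
  150743) (nat_lit 12) (node (nat_lit 5) (nat_lit 149686) (nat_lit 13) (node (nat_lit 4) (nat_lit
  149450) (nat_lit 14) nil nil) (node (nat_lit 4) (nat_lit 150660) (nat_lit 13) nil (node (nat_lit
  6) (nat_lit 151791) (nat_lit 13) nil nil))) nil))) (node (nat_lit 6) (nat_lit 0) (nat_lit 11)
  (node (nat_lit 5) (nat_lit 0) (nat_lit 12) (node (nat_lit 4) (nat_lit 134775) (nat_lit 13) (node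
  (nat_lit 6) (nat_lit 98493) (nat_lit 14) (node (nat_lit 4) (nat_lit 97015) (nat_lit 15) (node
  (nat_lit 5) (nat_lit 96622) (nat_lit 16) (node (nat_lit 6) (nat_lit 96414) (nat_lit 17) (node
  (nat_lit 5) (nat_lit 96016) (nat_lit 18) nil nil) nil) nil) nil) (node (nat_lit 5) (nat_lit
  136074) (nat_lit 14) (node (nat_lit 6) (nat_lit 137091) (nat_lit 15) nil nil) nil)) (node
  (nat_lit 2) (nat_lit 143984) (nat_lit 13) nil (node (nat_lit 0) (nat_lit 147219) (nat_lit 13)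
  nil nil))) (node (nat_lit 2) (nat_lit 149946) (nat_lit 12) (node (nat_lit 5) (nat_lit 148889)
  (nat_lit 13) nil nil) (node (nat_lit 0) (nat_lit 151882) (nat_lit 12) (node (nat_lit 5) (nat_lit
  151798) (nat_lit 13) nil nil) nil))) (node (nat_lit 0) (nat_lit 153717) (nat_lit 11) (node
  (nat_lit 5) (nat_lit 153563) (nat_lit 12) nil (node (nat_lit 6) (nat_lit 155852) (nat_lit 12)
  nil nil)) (node (nat_lit 2) (nat_lit 151222) (nat_lit 11) (node (nat_lit 5) (nat_lit 152223)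
  (nat_lit 12) (node (nat_lit 4) (nat_lit 151956) (nat_lit 13) nil nil) (node (nat_lit 6) (nat_lit
  153291) (nat_lit 12) (node (nat_lit 4) (nat_lit 151148) (nat_lit 13) nil (node (nat_lit 5)
  (nat_lit 153207) (nat_lit 13) nil nil)) (node (nat_lit 4) (nat_lit 151069) (nat_lit 12) (node
  (nat_lit 6) (nat_lit 152116) (nat_lit 13) nil nil) nil))) nil)))) (node (nat_lit 6) (nat_lit 0)
  (nat_lit 10) (node (nat_lit 5) (nat_lit 0) (nat_lit 11) (node (nat_lit 4) (nat_lit 151969)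
  (nat_lit 12) (node (nat_lit 5) (nat_lit 153638) (nat_lit 13) (node (nat_lit 6) (nat_lit 154938)
  (nat_lit 14) (node (nat_lit 5) (nat_lit 155954) (nat_lit 15) (node (nat_lit 4) (nat_lit 155948)
  (nat_lit 16) (node (nat_lit 6) (nat_lit 156351) (nat_lit 17) (node (nat_lit 5) (nat_lit 156348)
  (nat_lit 18) (node (nat_lit 6) (nat_lit 156597) (nat_lit 19) (node (nat_lit 4) (nat_lit 156832)
  (nat_lit 20) nil nil) nil) nil) nil) nil) nil) nil) (node (nat_lit 6) (nat_lit 153017) (nat_lit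
  13) (node (nat_lit 4) (nat_lit 154116) (nat_lit 14) (node (nat_lit 5) (nat_lit 153736) (nat_lit
  15) (node (nat_lit 6) (nat_lit 153768) (nat_lit 16) (node (nat_lit 5) (nat_lit 152701) (nat_lit
  17) (node (nat_lit 4) (nat_lit 151401) (nat_lit 18) (node (nat_lit 6) (nat_lit 147199) (nat_lit
  19) (node (nat_lit 5) (nat_lit 142614) (nat_lit 20) (node (nat_lit 6) (nat_lit 131905) (nat_lit
  21) (node (nat_lit 4) (nat_lit 115248) (nat_lit 22) (node (nat_lit 6) (nat_lit 94826) (nat_lit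
  23) (node (nat_lit 5) (nat_lit 67660) (nat_lit 24) (node (nat_lit 4) (nat_lit 30619) (nat_lit
  25) nil nil) nil) nil) nil) nil) nil) nil) nil) nil) nil) nil) nil) nil)) (node (nat_lit 0)
  (nat_lit 154258) (nat_lit 12) nil (node (nat_lit 2) (nat_lit 150034) (nat_lit 12) nil nil)))
  (node (nat_lit 0) (nat_lit 152123) (nat_lit 11) (node (nat_lit 5) (nat_lit 151969) (nat_lit 12)
  nil nil) (node (nat_lit 2) (nat_lit 149628) (nat_lit 11) (node (nat_lit 6) (nat_lit 148134)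
  (nat_lit 12) nil (node (nat_lit 4) (nat_lit 149475) (nat_lit 12) nil (node (nat_lit 5) (nat_lit
  148341) (nat_lit 12) nil nil))) nil))) (node (nat_lit 0) (nat_lit 150547) (nat_lit 10) (node
  (nat_lit 5) (nat_lit 150335) (nat_lit 11) nil (node (nat_lit 6) (nat_lit 153284) (nat_lit 11)
  nil (node (nat_lit 4) (nat_lit 150335) (nat_lit 11) nil nil))) (node (nat_lit 2) (nat_lit
  150981) (nat_lit 10) (node (nat_lit 5) (nat_lit 150737) (nat_lit 11) (node (nat_lit 4) (nat_lit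
  145979) (nat_lit 12) (node (nat_lit 5) (nat_lit 145538) (nat_lit 13) (node (nat_lit 6) (nat_lit
  144464) (nat_lit 14) nil nil) nil) nil) (node (nat_lit 4) (nat_lit 150768) (nat_lit 11) (node
  (nat_lit 6) (nat_lit 152223) (nat_lit 12) nil nil) (node (nat_lit 6) (nat_lit 153717) (nat_lit
  11) nil nil))) nil)))) (node (nat_lit 0) (nat_lit 147038) (nat_lit 9) (node (nat_lit 6) (nat_lit
  150547) (nat_lit 10) (node (nat_lit 4) (nat_lit 153284) (nat_lit 11) nil nil) (node (nat_lit 5)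
  (nat_lit 146868) (nat_lit 10) (node (nat_lit 4) (nat_lit 146656) (nat_lit 11) nil (node (nat_lit
  6) (nat_lit 149409) (nat_lit 11) nil nil)) (node (nat_lit 4) (nat_lit 146868) (nat_lit 10) nil
  nil))) (node (nat_lit 2) (nat_lit 147038) (nat_lit 9) (node (nat_lit 6) (nat_lit 149141)
  (nat_lit 10) (node (nat_lit 4) (nat_lit 151126) (nat_lit 11) (node (nat_lit 5) (nat_lit 146331)
  (nat_lit 12) nil nil) (node (nat_lit 5) (nat_lit 148928) (nat_lit 11) nil nil)) (node (nat_lit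
  5) (nat_lit 150609) (nat_lit 10) (node (nat_lit 4) (nat_lit 148946) (nat_lit 11) nil (node
  (nat_lit 6) (nat_lit 149842) (nat_lit 11) nil nil)) (node (nat_lit 4) (nat_lit 146868) (nat_lit
  10) nil nil))) nil))) nil) nil)) (node (nat_lit 5) (nat_lit 0) (nat_lit 6) (node (nat_lit 6)
  (nat_lit 0) (nat_lit 7) (node (nat_lit 4) (nat_lit 86063) (nat_lit 8) (node (nat_lit 6) (nat_lit
  86422) (nat_lit 9) (node (nat_lit 5) (nat_lit 86869) (nat_lit 10) (node (nat_lit 4) (nat_lit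
  87248) (nat_lit 11) (node (nat_lit 6) (nat_lit 87567) (nat_lit 12) (node (nat_lit 4) (nat_lit
  87822) (nat_lit 13) (node (nat_lit 5) (nat_lit 88022) (nat_lit 14) (node (nat_lit 6) (nat_lit
  88178) (nat_lit 15) (node (nat_lit 5) (nat_lit 88297) (nat_lit 16) (node (nat_lit 4) (nat_lit
  88391) (nat_lit 17) (node (nat_lit 5) (nat_lit 88464) (nat_lit 18) (node (nat_lit 6) (nat_lit
  83756) (nat_lit 19) (node (nat_lit 4) (nat_lit 70244) (nat_lit 20) (node (nat_lit 6) (nat_lit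
  53655) (nat_lit 21) nil nil) nil) nil) nil) nil) nil) nil) nil) nil) (node (nat_lit 5) (nat_lit
  88435) (nat_lit 12) (node (nat_lit 6) (nat_lit 89362) (nat_lit 13) (node (nat_lit 5) (nat_lit
  90084) (nat_lit 14) (node (nat_lit 4) (nat_lit 89621) (nat_lit 15) nil nil) nil) nil) nil))
  (node (nat_lit 6) (nat_lit 87248) (nat_lit 11) (node (nat_lit 4) (nat_lit 87567) (nat_lit 12)
  (node (nat_lit 5) (nat_lit 87822) (nat_lit 13) (node (nat_lit 6) (nat_lit 88022) (nat_lit 14)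
  (node (nat_lit 5) (nat_lit 88178) (nat_lit 15) (node (nat_lit 4) (nat_lit 88297) (nat_lit 16)
  (node (nat_lit 5) (nat_lit 87205) (nat_lit 17) (node (nat_lit 6) (nat_lit 75801) (nat_lit 18)
  (node (nat_lit 4) (nat_lit 56137) (nat_lit 19) nil nil) nil) nil) nil) nil) nil) nil) nil) nil))
  nil) (node (nat_lit 5) (nat_lit 86584) (nat_lit 9) (node (nat_lit 4) (nat_lit 87030) (nat_lit
  10) (node (nat_lit 6) (nat_lit 87409) (nat_lit 11) (node (nat_lit 4) (nat_lit 87729) (nat_lit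
  12) (node (nat_lit 5) (nat_lit 87985) (nat_lit 13) (node (nat_lit 6) (nat_lit 88184) (nat_lit
  14) (node (nat_lit 5) (nat_lit 88339) (nat_lit 15) (node (nat_lit 4) (nat_lit 88458) (nat_lit
  16) (node (nat_lit 5) (nat_lit 87680) (nat_lit 17) (node (nat_lit 6) (nat_lit 75833) (nat_lit
  18) (node (nat_lit 4) (nat_lit 56087) (nat_lit 19) nil nil) nil) nil) nil) nil) nil) nil) (node
  (nat_lit 5) (nat_lit 86307) (nat_lit 12) (node (nat_lit 6) (nat_lit 86614) (nat_lit 13) (node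
  (nat_lit 4) (nat_lit 87135) (nat_lit 14) (node (nat_lit 5) (nat_lit 86365) (nat_lit 15) (node
  (nat_lit 6) (nat_lit 86646) (nat_lit 16) (node (nat_lit 5) (nat_lit 84881) (nat_lit 17) (node
  (nat_lit 4) (nat_lit 82289) (nat_lit 18) (node (nat_lit 5) (nat_lit 78886) (nat_lit 19) (node
  (nat_lit 6) (nat_lit 74466) (nat_lit 20) (node (nat_lit 4) (nat_lit 63735) (nat_lit 21) nil nil)
  nil) nil) nil) nil) nil) nil) nil) nil) nil)) nil) nil) nil)) nil) nil) nil)) nil) nil))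

noncomputable def t131 : Tr :=
  (node (nat_lit 4) (nat_lit 0) (nat_lit 7) (node (nat_lit 6) (nat_lit 0) (nat_lit 8) (node
  (nat_lit 4) (nat_lit 0) (nat_lit 9) (node (nat_lit 5) (nat_lit 0) (nat_lit 10) (node (nat_lit 6)
  (nat_lit 0) (nat_lit 11) (node (nat_lit 4) (nat_lit 117148) (nat_lit 12) (node (nat_lit 6)
  (nat_lit 118076) (nat_lit 13) (node (nat_lit 5) (nat_lit 118798) (nat_lit 14) (node (nat_lit 4)
  (nat_lit 78193) (nat_lit 15) nil nil) nil) nil) (node (nat_lit 5) (nat_lit 117148) (nat_lit 12)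
  (node (nat_lit 4) (nat_lit 118076) (nat_lit 13) (node (nat_lit 5) (nat_lit 118798) (nat_lit 14)
  (node (nat_lit 6) (nat_lit 119363) (nat_lit 15) (node (nat_lit 4) (nat_lit 119803) (nat_lit 16)
  (node (nat_lit 6) (nat_lit 120147) (nat_lit 17) (node (nat_lit 5) (nat_lit 120415) (nat_lit 18)
  (node (nat_lit 4) (nat_lit 109908) (nat_lit 19) (node (nat_lit 6) (nat_lit 97329) (nat_lit 20)
  (node (nat_lit 4) (nat_lit 73127) (nat_lit 21) (node (nat_lit 5) (nat_lit 38832) (nat_lit 22)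
  (node (nat_lit 6) (nat_lit 34939) (nat_lit 23) nil nil) nil) nil) nil) nil) nil) nil) nil) nil)
  nil) nil) (node (nat_lit 0) (nat_lit 117148) (nat_lit 12) nil (node (nat_lit 2) (nat_lit 114860)
  (nat_lit 12) (node (nat_lit 6) (nat_lit 115127) (nat_lit 13) nil (node (nat_lit 5) (nat_lit
  115787) (nat_lit 13) nil nil)) nil)))) (node (nat_lit 4) (nat_lit 0) (nat_lit 11) (node (nat_lit
  6) (nat_lit 117148) (nat_lit 12) (node (nat_lit 5) (nat_lit 118076) (nat_lit 13) (node (nat_lit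
  6) (nat_lit 118798) (nat_lit 14) (node (nat_lit 4) (nat_lit 119363) (nat_lit 15) (node (nat_lit
  5) (nat_lit 119803) (nat_lit 16) (node (nat_lit 6) (nat_lit 120147) (nat_lit 17) (node (nat_lit
  5) (nat_lit 120415) (nat_lit 18) (node (nat_lit 4) (nat_lit 120625) (nat_lit 19) (node (nat_lit
  5) (nat_lit 120789) (nat_lit 20) (node (nat_lit 6) (nat_lit 120915) (nat_lit 21) (node (nat_lit
  4) (nat_lit 121016) (nat_lit 22) (node (nat_lit 6) (nat_lit 121094) (nat_lit 23) (node (nat_lit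
  5) (nat_lit 121154) (nat_lit 24) (node (nat_lit 4) (nat_lit 121200) (nat_lit 25) (node (nat_lit
  6) (nat_lit 121237) (nat_lit 26) (node (nat_lit 4) (nat_lit 121266) (nat_lit 27) (node (nat_lit
  5) (nat_lit 121288) (nat_lit 28) (node (nat_lit 4) (nat_lit 121306) (nat_lit 29) (node (nat_lit
  6) (nat_lit 118832) (nat_lit 30) (node (nat_lit 5) (nat_lit 109655) (nat_lit 31) (node (nat_lit
  6) (nat_lit 96797) (nat_lit 32) (node (nat_lit 4) (nat_lit 72378) (nat_lit 33) (node (nat_lit 5)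
  (nat_lit 37910) (nat_lit 34) nil nil) nil) nil) nil) nil) nil) nil) nil) nil) nil) nil) nil)
  nil) nil) nil) nil) nil) nil) (node (nat_lit 6) (nat_lit 119803) (nat_lit 16) (node (nat_lit 5)
  (nat_lit 120147) (nat_lit 17) (node (nat_lit 4) (nat_lit 120415) (nat_lit 18) nil nil) nil)
  nil)) nil) (node (nat_lit 4) (nat_lit 118798) (nat_lit 14) (node (nat_lit 5) (nat_lit 119363)
  (nat_lit 15) (node (nat_lit 6) (nat_lit 119803) (nat_lit 16) (node (nat_lit 4) (nat_lit 120147)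
  (nat_lit 17) (node (nat_lit 6) (nat_lit 120415) (nat_lit 18) (node (nat_lit 5) (nat_lit 120625)
  (nat_lit 19) (node (nat_lit 4) (nat_lit 120335) (nat_lit 20) (node (nat_lit 6) (nat_lit 111389)
  (nat_lit 21) (node (nat_lit 4) (nat_lit 94233) (nat_lit 22) (node (nat_lit 5) (nat_lit 78574)
  (nat_lit 23) nil nil) nil) nil) nil) nil) nil) nil) nil) nil) nil)) nil) (node (nat_lit 0)
  (nat_lit 117148) (nat_lit 12) nil (node (nat_lit 2) (nat_lit 114860) (nat_lit 12) (node (nat_lit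
  4) (nat_lit 115787) (nat_lit 13) nil nil) nil))) (node (nat_lit 0) (nat_lit 115962) (nat_lit 11)
  (node (nat_lit 5) (nat_lit 117148) (nat_lit 12) nil (node (nat_lit 6) (nat_lit 117148) (nat_lit
  12) nil (node (nat_lit 4) (nat_lit 117148) (nat_lit 12) nil nil))) (node (nat_lit 2) (nat_lit
  113013) (nat_lit 11) (node (nat_lit 5) (nat_lit 114199) (nat_lit 12) (node (nat_lit 4) (nat_lit
  115127) (nat_lit 13) nil nil) (node (nat_lit 6) (nat_lit 113470) (nat_lit 12) nil (node (nat_lit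
  4) (nat_lit 114199) (nat_lit 12) nil nil))) nil)))) (node (nat_lit 0) (nat_lit 114441) (nat_lit
  10) (node (nat_lit 6) (nat_lit 115962) (nat_lit 11) (node (nat_lit 4) (nat_lit 117148) (nat_lit
  12) nil nil) (node (nat_lit 5) (nat_lit 115962) (nat_lit 11) (node (nat_lit 4) (nat_lit 117148)
  (nat_lit 12) nil nil) (node (nat_lit 4) (nat_lit 115962) (nat_lit 11) nil nil))) (node (nat_lit
  2) (nat_lit 114010) (nat_lit 10) (node (nat_lit 6) (nat_lit 114941) (nat_lit 11) (node (nat_lit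
  4) (nat_lit 115370) (nat_lit 12) nil nil) (node (nat_lit 5) (nat_lit 115531) (nat_lit 11) (node
  (nat_lit 4) (nat_lit 116718) (nat_lit 12) nil nil) (node (nat_lit 4) (nat_lit 115531) (nat_lit
  11) nil nil))) nil))) (node (nat_lit 0) (nat_lit 112419) (nat_lit 9) (node (nat_lit 6) (nat_lit
  114369) (nat_lit 10) (node (nat_lit 4) (nat_lit 115890) (nat_lit 11) nil nil) (node (nat_lit 5)
  (nat_lit 114369) (nat_lit 10) (node (nat_lit 4) (nat_lit 115890) (nat_lit 11) nil nil) (node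
  (nat_lit 4) (nat_lit 114369) (nat_lit 10) (node (nat_lit 6) (nat_lit 115890) (nat_lit 11) nil
  nil) nil))) (node (nat_lit 2) (nat_lit 112060) (nat_lit 9) (node (nat_lit 6) (nat_lit 114010)
  (nat_lit 10) (node (nat_lit 4) (nat_lit 114592) (nat_lit 11) nil nil) (node (nat_lit 5) (nat_lit
  114010) (nat_lit 10) (node (nat_lit 4) (nat_lit 115531) (nat_lit 11) nil nil) (node (nat_lit 4)
  (nat_lit 114010) (nat_lit 10) (node (nat_lit 6) (nat_lit 115531) (nat_lit 11) nil nil) nil)))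
  nil))) (node (nat_lit 5) (nat_lit 0) (nat_lit 8) (node (nat_lit 6) (nat_lit 0) (nat_lit 9) (node
  (nat_lit 4) (nat_lit 0) (nat_lit 10) (node (nat_lit 5) (nat_lit 0) (nat_lit 11) (node (nat_lit
  4) (nat_lit 52966) (nat_lit 12) (node (nat_lit 6) (nat_lit 53548) (nat_lit 13) (node (nat_lit 5)
  (nat_lit 53849) (nat_lit 14) (node (nat_lit 6) (nat_lit 54415) (nat_lit 15) (node (nat_lit 4)
  (nat_lit 54854) (nat_lit 16) (node (nat_lit 6) (nat_lit 55199) (nat_lit 17) nil nil) nil) (node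
  (nat_lit 4) (nat_lit 54415) (nat_lit 15) (node (nat_lit 5) (nat_lit 54854) (nat_lit 16) (node
  (nat_lit 6) (nat_lit 55199) (nat_lit 17) (node (nat_lit 4) (nat_lit 55467) (nat_lit 18) (node
  (nat_lit 6) (nat_lit 55676) (nat_lit 19) (node (nat_lit 5) (nat_lit 55840) (nat_lit 20) (node
  (nat_lit 4) (nat_lit 55966) (nat_lit 21) nil nil) nil) nil) nil) nil) nil) nil)) (node (nat_lit
  4) (nat_lit 54134) (nat_lit 14) (node (nat_lit 5) (nat_lit 54371) (nat_lit 15) (node (nat_lit 6)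
  (nat_lit 54810) (nat_lit 16) nil nil) nil) nil)) nil) (node (nat_lit 2) (nat_lit 53260) (nat_lit
  12) (node (nat_lit 4) (nat_lit 53644) (nat_lit 13) nil nil) (node (nat_lit 0) (nat_lit 53641)
  (nat_lit 12) nil nil))) (node (nat_lit 6) (nat_lit 29655) (nat_lit 11) nil (node (nat_lit 0)
  (nat_lit 53221) (nat_lit 11) (node (nat_lit 4) (nat_lit 54407) (nat_lit 12) nil (node (nat_lit
  6) (nat_lit 54407) (nat_lit 12) nil (node (nat_lit 5) (nat_lit 54407) (nat_lit 12) nil nil)))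
  (node (nat_lit 2) (nat_lit 52723) (nat_lit 11) (node (nat_lit 4) (nat_lit 54260) (nat_lit 12)
  (node (nat_lit 6) (nat_lit 55335) (nat_lit 13) nil nil) (node (nat_lit 6) (nat_lit 53209)
  (nat_lit 12) (node (nat_lit 4) (nat_lit 53602) (nat_lit 13) nil nil) (node (nat_lit 5) (nat_lit
  54260) (nat_lit 12) (node (nat_lit 4) (nat_lit 55187) (nat_lit 13) nil nil) nil))) nil)))) (node
  (nat_lit 5) (nat_lit 0) (nat_lit 10) (node (nat_lit 4) (nat_lit 0) (nat_lit 11) (node (nat_lit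
  6) (nat_lit 107362) (nat_lit 12) (node (nat_lit 4) (nat_lit 109031) (nat_lit 13) (node (nat_lit
  5) (nat_lit 110330) (nat_lit 14) nil nil) nil) (node (nat_lit 2) (nat_lit 105074) (nat_lit 12)
  (node (nat_lit 5) (nat_lit 107211) (nat_lit 13) (node (nat_lit 4) (nat_lit 104882) (nat_lit 14)
  nil nil) (node (nat_lit 4) (nat_lit 106743) (nat_lit 13) nil nil)) (node (nat_lit 0) (nat_lit
  106759) (nat_lit 12) nil nil))) (node (nat_lit 0) (nat_lit 104624) (nat_lit 11) (node (nat_lit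
  6) (nat_lit 107362) (nat_lit 12) nil (node (nat_lit 5) (nat_lit 106759) (nat_lit 12) (node
  (nat_lit 4) (nat_lit 108427) (nat_lit 13) nil nil) (node (nat_lit 4) (nat_lit 106759) (nat_lit
  12) nil nil))) (node (nat_lit 2) (nat_lit 101149) (nat_lit 11) (node (nat_lit 5) (nat_lit
  103887) (nat_lit 12) (node (nat_lit 4) (nat_lit 106338) (nat_lit 13) nil nil) (node (nat_lit 6)
  (nat_lit 103158) (nat_lit 12) nil (node (nat_lit 4) (nat_lit 104174) (nat_lit 12) nil nil)))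
  nil))) (node (nat_lit 0) (nat_lit 101031) (nat_lit 10) (node (nat_lit 4) (nat_lit 104580)
  (nat_lit 11) nil (node (nat_lit 5) (nat_lit 104538) (nat_lit 11) (node (nat_lit 4) (nat_lit
  106672) (nat_lit 12) nil nil) (node (nat_lit 6) (nat_lit 104538) (nat_lit 11) (node (nat_lit 4)
  (nat_lit 106672) (nat_lit 12) nil nil) (node (nat_lit 0) (nat_lit 103767) (nat_lit 11) nil (node
  (nat_lit 2) (nat_lit 100175) (nat_lit 11) nil nil))))) (node (nat_lit 2) (nat_lit 100439)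
  (nat_lit 10) (node (nat_lit 4) (nat_lit 104201) (nat_lit 11) (node (nat_lit 6) (nat_lit 104400)
  (nat_lit 12) nil nil) (node (nat_lit 5) (nat_lit 103946) (nat_lit 11) (node (nat_lit 4) (nat_lit
  106971) (nat_lit 12) nil nil) (node (nat_lit 6) (nat_lit 103946) (nat_lit 11) (node (nat_lit 5)
  (nat_lit 106684) (nat_lit 12) nil (node (nat_lit 4) (nat_lit 106080) (nat_lit 12) nil nil))
  (node (nat_lit 0) (nat_lit 103175) (nat_lit 11) nil nil)))) nil)))) (node (nat_lit 0) (nat_lit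
  112419) (nat_lit 9) (node (nat_lit 5) (nat_lit 114369) (nat_lit 10) (node (nat_lit 4) (nat_lit
  115890) (nat_lit 11) nil nil) (node (nat_lit 6) (nat_lit 114369) (nat_lit 10) (node (nat_lit 4)
  (nat_lit 115890) (nat_lit 11) nil nil) (node (nat_lit 4) (nat_lit 114369) (nat_lit 10) nil
  nil))) (node (nat_lit 2) (nat_lit 111545) (nat_lit 9) (node (nat_lit 5) (nat_lit 113600)
  (nat_lit 10) (node (nat_lit 4) (nat_lit 114649) (nat_lit 11) nil nil) (node (nat_lit 6) (nat_lit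
  111943) (nat_lit 10) (node (nat_lit 4) (nat_lit 114680) (nat_lit 11) nil nil) (node (nat_lit 4)
  (nat_lit 114289) (nat_lit 10) nil nil))) nil))) nil)) (node (nat_lit 6) (nat_lit 0) (nat_lit 7)
  (node (nat_lit 4) (nat_lit 0) (nat_lit 8) (node (nat_lit 5) (nat_lit 0) (nat_lit 9) (node
  (nat_lit 4) (nat_lit 0) (nat_lit 10) (node (nat_lit 6) (nat_lit 0) (nat_lit 11) (node (nat_lit
  4) (nat_lit 0) (nat_lit 12) (node (nat_lit 5) (nat_lit 0) (nat_lit 13) (node (nat_lit 6)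
  (nat_lit 0) (nat_lit 14) (node (nat_lit 5) (nat_lit 0) (nat_lit 15) (node (nat_lit 4) (nat_lit
  119961) (nat_lit 16) (node (nat_lit 5) (nat_lit 120305) (nat_lit 17) (node (nat_lit 6) (nat_lit
  120573) (nat_lit 18) (node (nat_lit 4) (nat_lit 120783) (nat_lit 19) (node (nat_lit 6) (nat_lit
  120947) (nat_lit 20) (node (nat_lit 5) (nat_lit 121073) (nat_lit 21) (node (nat_lit 6) (nat_lit
  121174) (nat_lit 22) (node (nat_lit 4) (nat_lit 121252) (nat_lit 23) (node (nat_lit 5) (nat_lit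
  121312) (nat_lit 24) (node (nat_lit 4) (nat_lit 117009) (nat_lit 25) (node (nat_lit 6) (nat_lit
  104144) (nat_lit 26) (node (nat_lit 4) (nat_lit 79766) (nat_lit 27) (node (nat_lit 5) (nat_lit
  53211) (nat_lit 28) (node (nat_lit 6) (nat_lit 35310) (nat_lit 29) nil nil) nil) nil) nil) nil)
  nil) nil) nil) nil) nil) nil) nil) (node (nat_lit 6) (nat_lit 120305) (nat_lit 17) (node
  (nat_lit 5) (nat_lit 120573) (nat_lit 18) (node (nat_lit 6) (nat_lit 120783) (nat_lit 19) (node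
  (nat_lit 4) (nat_lit 120947) (nat_lit 20) nil nil) nil) (node (nat_lit 4) (nat_lit 120573)
  (nat_lit 18) (node (nat_lit 5) (nat_lit 120783) (nat_lit 19) nil nil) nil)) nil)) (node (nat_lit
  0) (nat_lit 119961) (nat_lit 16) nil (node (nat_lit 2) (nat_lit 119164) (nat_lit 16) (node
  (nat_lit 5) (nat_lit 119508) (nat_lit 17) nil nil) nil))) (node (nat_lit 4) (nat_lit 0) (nat_lit
  15) (node (nat_lit 6) (nat_lit 0) (nat_lit 16) (node (nat_lit 5) (nat_lit 120305) (nat_lit 17)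
  (node (nat_lit 4) (nat_lit 120573) (nat_lit 18) (node (nat_lit 5) (nat_lit 120783) (nat_lit 19)
  (node (nat_lit 6) (nat_lit 120947) (nat_lit 20) (node (nat_lit 4) (nat_lit 121073) (nat_lit 21)
  nil nil) nil) nil) (node (nat_lit 6) (nat_lit 120573) (nat_lit 18) (node (nat_lit 4) (nat_lit
  120783) (nat_lit 19) (node (nat_lit 5) (nat_lit 120947) (nat_lit 20) nil nil) nil) nil)) (node
  (nat_lit 2) (nat_lit 119683) (nat_lit 17) nil (node (nat_lit 0) (nat_lit 120305) (nat_lit 17)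
  nil nil))) (node (nat_lit 0) (nat_lit 119961) (nat_lit 16) (node (nat_lit 5) (nat_lit 120305)
  (nat_lit 17) nil (node (nat_lit 6) (nat_lit 120305) (nat_lit 17) nil nil)) (node (nat_lit 2)
  (nat_lit 119164) (nat_lit 16) (node (nat_lit 5) (nat_lit 119508) (nat_lit 17) nil (node (nat_lit
  6) (nat_lit 119277) (nat_lit 17) nil nil)) nil))) (node (nat_lit 0) (nat_lit 119522) (nat_lit
  15) (node (nat_lit 5) (nat_lit 119961) (nat_lit 16) (node (nat_lit 4) (nat_lit 120305) (nat_lit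
  17) nil nil) (node (nat_lit 6) (nat_lit 119961) (nat_lit 16) (node (nat_lit 4) (nat_lit 120305)
  (nat_lit 17) nil nil) (node (nat_lit 4) (nat_lit 119961) (nat_lit 16) nil nil))) (node (nat_lit
  2) (nat_lit 118493) (nat_lit 15) (node (nat_lit 5) (nat_lit 118933) (nat_lit 16) (node (nat_lit
  4) (nat_lit 119277) (nat_lit 17) nil nil) (node (nat_lit 6) (nat_lit 118626) (nat_lit 16) (node
  (nat_lit 4) (nat_lit 118577) (nat_lit 17) (node (nat_lit 5) (nat_lit 118638) (nat_lit 18) nil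
  nil) (node (nat_lit 5) (nat_lit 118971) (nat_lit 17) nil nil)) (node (nat_lit 4) (nat_lit
  118933) (nat_lit 16) nil nil))) nil)))) (node (nat_lit 0) (nat_lit 118956) (nat_lit 14) (node
  (nat_lit 6) (nat_lit 119522) (nat_lit 15) (node (nat_lit 4) (nat_lit 119961) (nat_lit 16) nil
  (node (nat_lit 5) (nat_lit 119961) (nat_lit 16) nil nil)) (node (nat_lit 5) (nat_lit 119522)
  (nat_lit 15) (node (nat_lit 4) (nat_lit 119961) (nat_lit 16) nil nil) (node (nat_lit 4) (nat_lit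
  119522) (nat_lit 15) (node (nat_lit 6) (nat_lit 119961) (nat_lit 16) nil nil) nil))) (node
  (nat_lit 2) (nat_lit 117621) (nat_lit 14) (node (nat_lit 6) (nat_lit 117769) (nat_lit 15) (node
  (nat_lit 4) (nat_lit 117704) (nat_lit 16) nil (node (nat_lit 5) (nat_lit 118209) (nat_lit 16)
  nil nil)) (node (nat_lit 5) (nat_lit 118187) (nat_lit 15) (node (nat_lit 4) (nat_lit 118626)
  (nat_lit 16) (node (nat_lit 5) (nat_lit 118971) (nat_lit 17) nil nil) (node (nat_lit 6) (nat_lit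
  118626) (nat_lit 16) nil nil)) (node (nat_lit 4) (nat_lit 118187) (nat_lit 15) (node (nat_lit 6)
  (nat_lit 118626) (nat_lit 16) nil (node (nat_lit 5) (nat_lit 118626) (nat_lit 16) nil nil))
  nil))) nil))) (node (nat_lit 0) (nat_lit 118004) (nat_lit 13) (node (nat_lit 6) (nat_lit 118726)
  (nat_lit 14) (node (nat_lit 4) (nat_lit 119292) (nat_lit 15) (node (nat_lit 5) (nat_lit 119731)
  (nat_lit 16) (node (nat_lit 6) (nat_lit 120075) (nat_lit 17) nil nil) nil) (node (nat_lit 5)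
  (nat_lit 119292) (nat_lit 15) nil nil)) (node (nat_lit 4) (nat_lit 118726) (nat_lit 14) (node
  (nat_lit 6) (nat_lit 119292) (nat_lit 15) nil (node (nat_lit 5) (nat_lit 119292) (nat_lit 15)
  nil nil)) (node (nat_lit 5) (nat_lit 118726) (nat_lit 14) (node (nat_lit 4) (nat_lit 119292)
  (nat_lit 15) (node (nat_lit 5) (nat_lit 119731) (nat_lit 16) nil nil) (node (nat_lit 6) (nat_lit
  119292) (nat_lit 15) nil nil)) nil))) (node (nat_lit 2) (nat_lit 118004) (nat_lit 13) (node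
  (nat_lit 6) (nat_lit 118726) (nat_lit 14) (node (nat_lit 4) (nat_lit 119363) (nat_lit 15) (node
  (nat_lit 5) (nat_lit 119961) (nat_lit 16) (node (nat_lit 6) (nat_lit 115859) (nat_lit 17) (node
  (nat_lit 4) (nat_lit 115969) (nat_lit 18) nil nil) nil) (node (nat_lit 6) (nat_lit 119803)
  (nat_lit 16) nil nil)) (node (nat_lit 5) (nat_lit 119292) (nat_lit 15) nil nil)) (node (nat_lit
  5) (nat_lit 118726) (nat_lit 14) (node (nat_lit 4) (nat_lit 119292) (nat_lit 15) (node (nat_lit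
  5) (nat_lit 119731) (nat_lit 16) nil nil) (node (nat_lit 6) (nat_lit 119292) (nat_lit 15) nil
  nil)) (node (nat_lit 4) (nat_lit 118726) (nat_lit 14) (node (nat_lit 6) (nat_lit 119292)
  (nat_lit 15) nil (node (nat_lit 5) (nat_lit 119292) (nat_lit 15) nil nil)) nil))) nil))) (node
  (nat_lit 5) (nat_lit 0) (nat_lit 12) (node (nat_lit 4) (nat_lit 0) (nat_lit 13) (node (nat_lit
  5) (nat_lit 118915) (nat_lit 14) (node (nat_lit 6) (nat_lit 119481) (nat_lit 15) (node (nat_lit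
  4) (nat_lit 119920) (nat_lit 16) (node (nat_lit 6) (nat_lit 120264) (nat_lit 17) (node (nat_lit
  5) (nat_lit 120532) (nat_lit 18) (node (nat_lit 6) (nat_lit 120742) (nat_lit 19) (node (nat_lit
  4) (nat_lit 110431) (nat_lit 20) (node (nat_lit 5) (nat_lit 94859) (nat_lit 21) (node (nat_lit
  4) (nat_lit 39202) (nat_lit 22) (node (nat_lit 6) (nat_lit 35057) (nat_lit 23) nil nil) nil)
  nil) nil) nil) nil) (node (nat_lit 5) (nat_lit 120264) (nat_lit 17) nil nil)) (node (nat_lit 5)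
  (nat_lit 119920) (nat_lit 16) (node (nat_lit 4) (nat_lit 120264) (nat_lit 17) nil nil) nil))
  nil) (node (nat_lit 2) (nat_lit 117580) (nat_lit 14) (node (nat_lit 5) (nat_lit 118146) (nat_lit
  15) nil nil) (node (nat_lit 0) (nat_lit 118915) (nat_lit 14) nil nil))) (node (nat_lit 6)
  (nat_lit 118193) (nat_lit 13) (node (nat_lit 4) (nat_lit 118915) (nat_lit 14) (node (nat_lit 6)
  (nat_lit 119481) (nat_lit 15) (node (nat_lit 5) (nat_lit 119920) (nat_lit 16) (node (nat_lit 4)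
  (nat_lit 120264) (nat_lit 17) (node (nat_lit 5) (nat_lit 120532) (nat_lit 18) (node (nat_lit 6)
  (nat_lit 120742) (nat_lit 19) (node (nat_lit 4) (nat_lit 120906) (nat_lit 20) nil nil) nil) nil)
  nil) nil) nil) nil) (node (nat_lit 0) (nat_lit 118193) (nat_lit 13) (node (nat_lit 6) (nat_lit
  118915) (nat_lit 14) nil nil) (node (nat_lit 2) (nat_lit 116441) (nat_lit 13) (node (nat_lit 5)
  (nat_lit 117163) (nat_lit 14) nil (node (nat_lit 6) (nat_lit 116627) (nat_lit 14) nil nil))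
  nil)))) (node (nat_lit 0) (nat_lit 117077) (nat_lit 12) (node (nat_lit 4) (nat_lit 118004)
  (nat_lit 13) nil (node (nat_lit 6) (nat_lit 118004) (nat_lit 13) (node (nat_lit 4) (nat_lit
  118726) (nat_lit 14) nil nil) (node (nat_lit 5) (nat_lit 118004) (nat_lit 13) nil nil))) (node
  (nat_lit 2) (nat_lit 114788) (nat_lit 12) (node (nat_lit 4) (nat_lit 115716) (nat_lit 13) (node
  (nat_lit 6) (nat_lit 116438) (nat_lit 14) (node (nat_lit 4) (nat_lit 117003) (nat_lit 15) nil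
  nil) nil) (node (nat_lit 6) (nat_lit 115055) (nat_lit 13) (node (nat_lit 4) (nat_lit 115097)
  (nat_lit 14) (node (nat_lit 5) (nat_lit 115480) (nat_lit 15) nil nil) (node (nat_lit 5) (nat_lit
  115777) (nat_lit 14) nil nil)) (node (nat_lit 5) (nat_lit 115716) (nat_lit 13) (node (nat_lit 4)
  (nat_lit 116438) (nat_lit 14) nil nil) nil))) nil)))) (node (nat_lit 0) (nat_lit 115890)
  (nat_lit 11) (node (nat_lit 5) (nat_lit 117077) (nat_lit 12) nil (node (nat_lit 4) (nat_lit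
  117077) (nat_lit 12) nil (node (nat_lit 6) (nat_lit 117077) (nat_lit 12) nil nil))) (node
  (nat_lit 2) (nat_lit 115890) (nat_lit 11) (node (nat_lit 5) (nat_lit 117077) (nat_lit 12) nil
  (node (nat_lit 4) (nat_lit 117077) (nat_lit 12) (node (nat_lit 6) (nat_lit 118004) (nat_lit 13)
  nil (node (nat_lit 5) (nat_lit 118004) (nat_lit 13) nil nil)) (node (nat_lit 6) (nat_lit 117077)
  (nat_lit 12) nil nil))) nil))) (node (nat_lit 6) (nat_lit 0) (nat_lit 10) (node (nat_lit 5)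
  (nat_lit 0) (nat_lit 11) (node (nat_lit 4) (nat_lit 0) (nat_lit 12) (node (nat_lit 6) (nat_lit
  0) (nat_lit 13) (node (nat_lit 4) (nat_lit 118862) (nat_lit 14) (node (nat_lit 5) (nat_lit
  119428) (nat_lit 15) (node (nat_lit 4) (nat_lit 119867) (nat_lit 16) (node (nat_lit 6) (nat_lit
  120212) (nat_lit 17) (node (nat_lit 5) (nat_lit 120480) (nat_lit 18) nil nil) nil) (node
  (nat_lit 6) (nat_lit 119867) (nat_lit 16) (node (nat_lit 4) (nat_lit 120212) (nat_lit 17) (node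
  (nat_lit 6) (nat_lit 120480) (nat_lit 18) (node (nat_lit 5) (nat_lit 120689) (nat_lit 19) (node
  (nat_lit 6) (nat_lit 120853) (nat_lit 20) (node (nat_lit 4) (nat_lit 120979) (nat_lit 21) (node
  (nat_lit 5) (nat_lit 121080) (nat_lit 22) (node (nat_lit 6) (nat_lit 121158) (nat_lit 23) (node
  (nat_lit 5) (nat_lit 121218) (nat_lit 24) (node (nat_lit 4) (nat_lit 78346) (nat_lit 25) nil
  nil) nil) nil) nil) nil) nil) nil) nil) nil) nil)) nil) (node (nat_lit 5) (nat_lit 118862)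
  (nat_lit 14) (node (nat_lit 6) (nat_lit 119428) (nat_lit 15) (node (nat_lit 4) (nat_lit 119867)
  (nat_lit 16) (node (nat_lit 6) (nat_lit 120212) (nat_lit 17) nil nil) nil) nil) (node (nat_lit
  0) (nat_lit 118862) (nat_lit 14) nil (node (nat_lit 2) (nat_lit 117528) (nat_lit 14) nil nil))))
  (node (nat_lit 5) (nat_lit 118140) (nat_lit 13) (node (nat_lit 6) (nat_lit 118862) (nat_lit 14)
  (node (nat_lit 4) (nat_lit 119428) (nat_lit 15) (node (nat_lit 6) (nat_lit 119867) (nat_lit 16)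
  (node (nat_lit 5) (nat_lit 116241) (nat_lit 17) (node (nat_lit 6) (nat_lit 105450) (nat_lit 18)
  (node (nat_lit 4) (nat_lit 94807) (nat_lit 19) (node (nat_lit 5) (nat_lit 54715) (nat_lit 20)
  (node (nat_lit 6) (nat_lit 34825) (nat_lit 21) nil nil) nil) nil) nil) nil) nil) nil) nil) (node
  (nat_lit 2) (nat_lit 116388) (nat_lit 13) (node (nat_lit 5) (nat_lit 117110) (nat_lit 14) nil
  (node (nat_lit 6) (nat_lit 116574) (nat_lit 14) nil nil)) (node (nat_lit 0) (nat_lit 118140)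
  (nat_lit 13) nil nil)))) (node (nat_lit 2) (nat_lit 114924) (nat_lit 12) (node (nat_lit 5)
  (nat_lit 115852) (nat_lit 13) nil (node (nat_lit 4) (nat_lit 115852) (nat_lit 13) nil (node
  (nat_lit 6) (nat_lit 115191) (nat_lit 13) nil nil))) (node (nat_lit 0) (nat_lit 117213) (nat_lit
  12) (node (nat_lit 5) (nat_lit 118140) (nat_lit 13) nil (node (nat_lit 4) (nat_lit 118140)
  (nat_lit 13) nil (node (nat_lit 6) (nat_lit 118140) (nat_lit 13) nil nil))) nil))) (node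
  (nat_lit 0) (nat_lit 115890) (nat_lit 11) (node (nat_lit 6) (nat_lit 117077) (nat_lit 12) (node
  (nat_lit 4) (nat_lit 118004) (nat_lit 13) nil (node (nat_lit 5) (nat_lit 118004) (nat_lit 13)
  nil nil)) (node (nat_lit 4) (nat_lit 117077) (nat_lit 12) nil (node (nat_lit 5) (nat_lit 117077)
  (nat_lit 12) (node (nat_lit 4) (nat_lit 118004) (nat_lit 13) nil nil) nil))) (node (nat_lit 2)
  (nat_lit 115890) (nat_lit 11) (node (nat_lit 6) (nat_lit 117077) (nat_lit 12) (node (nat_lit 4)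
  (nat_lit 118004) (nat_lit 13) nil (node (nat_lit 5) (nat_lit 118004) (nat_lit 13) nil nil))
  (node (nat_lit 4) (nat_lit 117077) (nat_lit 12) nil (node (nat_lit 5) (nat_lit 117077) (nat_lit
  12) (node (nat_lit 4) (nat_lit 118004) (nat_lit 13) nil nil) nil))) nil))) (node (nat_lit 0)
  (nat_lit 114441) (nat_lit 10) (node (nat_lit 4) (nat_lit 115962) (nat_lit 11) (node (nat_lit 6)
  (nat_lit 117148) (nat_lit 12) nil nil) (node (nat_lit 6) (nat_lit 115962) (nat_lit 11) (node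
  (nat_lit 4) (nat_lit 117148) (nat_lit 12) nil (node (nat_lit 5) (nat_lit 117148) (nat_lit 12)
  nil nil)) (node (nat_lit 5) (nat_lit 115962) (nat_lit 11) (node (nat_lit 4) (nat_lit 117148)
  (nat_lit 12) nil (node (nat_lit 6) (nat_lit 117148) (nat_lit 12) nil nil)) nil))) (node (nat_lit
  2) (nat_lit 114369) (nat_lit 10) (node (nat_lit 4) (nat_lit 115890) (nat_lit 11) (node (nat_lit
  6) (nat_lit 117077) (nat_lit 12) nil nil) (node (nat_lit 6) (nat_lit 115890) (nat_lit 11) (node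
  (nat_lit 4) (nat_lit 117077) (nat_lit 12) (node (nat_lit 5) (nat_lit 111864) (nat_lit 13) nil
  nil) (node (nat_lit 5) (nat_lit 117077) (nat_lit 12) nil nil)) (node (nat_lit 5) (nat_lit
  115890) (nat_lit 11) (node (nat_lit 4) (nat_lit 117077) (nat_lit 12) nil (node (nat_lit 6)
  (nat_lit 117077) (nat_lit 12) nil nil)) nil))) nil)))) (node (nat_lit 0) (nat_lit 112419)
  (nat_lit 9) (node (nat_lit 4) (nat_lit 114369) (nat_lit 10) (node (nat_lit 6) (nat_lit 115890)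
  (nat_lit 11) nil nil) (node (nat_lit 6) (nat_lit 114369) (nat_lit 10) (node (nat_lit 4) (nat_lit
  115890) (nat_lit 11) nil (node (nat_lit 5) (nat_lit 115890) (nat_lit 11) nil nil)) (node
  (nat_lit 5) (nat_lit 114369) (nat_lit 10) (node (nat_lit 4) (nat_lit 115890) (nat_lit 11) nil
  nil) nil))) (node (nat_lit 2) (nat_lit 112060) (nat_lit 9) (node (nat_lit 4) (nat_lit 114010)
  (nat_lit 10) (node (nat_lit 6) (nat_lit 115531) (nat_lit 11) nil (node (nat_lit 5) (nat_lit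
  115531) (nat_lit 11) nil nil)) (node (nat_lit 6) (nat_lit 114010) (nat_lit 10) (node (nat_lit 4)
  (nat_lit 115531) (nat_lit 11) nil (node (nat_lit 5) (nat_lit 115531) (nat_lit 11) nil nil))
  (node (nat_lit 5) (nat_lit 114010) (nat_lit 10) (node (nat_lit 4) (nat_lit 115531) (nat_lit 11)
  nil nil) nil))) nil))) nil) nil))

noncomputable def t132 : Tr :=
  (node (nat_lit 6) (nat_lit 0) (nat_lit 6) (node (nat_lit 4) (nat_lit 0) (nat_lit 7) (node
  (nat_lit 5) (nat_lit 0) (nat_lit 8) (node (nat_lit 6) (nat_lit 148051) (nat_lit 9) (node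
  (nat_lit 5) (nat_lit 146171) (nat_lit 10) (node (nat_lit 4) (nat_lit 62910) (nat_lit 11) nil
  nil) (node (nat_lit 4) (nat_lit 152512) (nat_lit 10) (node (nat_lit 6) (nat_lit 154695) (nat_lit
  11) (node (nat_lit 5) (nat_lit 155048) (nat_lit 12) (node (nat_lit 6) (nat_lit 155048) (nat_lit
  13) (node (nat_lit 4) (nat_lit 155727) (nat_lit 14) (node (nat_lit 5) (nat_lit 155727) (nat_lit
  15) (node (nat_lit 6) (nat_lit 155727) (nat_lit 16) (node (nat_lit 5) (nat_lit 155727) (nat_lit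
  17) (node (nat_lit 4) (nat_lit 154757) (nat_lit 18) (node (nat_lit 6) (nat_lit 150981) (nat_lit
  19) (node (nat_lit 4) (nat_lit 146083) (nat_lit 20) (node (nat_lit 5) (nat_lit 137138) (nat_lit
  21) (node (nat_lit 6) (nat_lit 123755) (nat_lit 22) (node (nat_lit 4) (nat_lit 99467) (nat_lit
  23) (node (nat_lit 6) (nat_lit 76211) (nat_lit 24) (node (nat_lit 5) (nat_lit 66564) (nat_lit
  25) nil nil) nil) nil) nil) nil) nil) nil) nil) nil) nil) nil) nil) (node (nat_lit 4) (nat_lit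
  155614) (nat_lit 13) (node (nat_lit 5) (nat_lit 155614) (nat_lit 14) (node (nat_lit 6) (nat_lit
  155614) (nat_lit 15) (node (nat_lit 5) (nat_lit 155614) (nat_lit 16) (node (nat_lit 4) (nat_lit
  154069) (nat_lit 17) (node (nat_lit 6) (nat_lit 148836) (nat_lit 18) (node (nat_lit 4) (nat_lit
  141781) (nat_lit 19) (node (nat_lit 5) (nat_lit 127487) (nat_lit 20) (node (nat_lit 6) (nat_lit
  107752) (nat_lit 21) (node (nat_lit 4) (nat_lit 80695) (nat_lit 22) (node (nat_lit 6) (nat_lit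
  80773) (nat_lit 23) nil nil) nil) nil) nil) nil) nil) nil) nil) nil) nil) nil)) nil) nil) nil))
  (node (nat_lit 4) (nat_lit 0) (nat_lit 9) (node (nat_lit 6) (nat_lit 0) (nat_lit 10) (node
  (nat_lit 5) (nat_lit 0) (nat_lit 11) (node (nat_lit 4) (nat_lit 156171) (nat_lit 12) (node
  (nat_lit 5) (nat_lit 156171) (nat_lit 13) (node (nat_lit 6) (nat_lit 156171) (nat_lit 14) (node
  (nat_lit 5) (nat_lit 156171) (nat_lit 15) (node (nat_lit 4) (nat_lit 156586) (nat_lit 16) (node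
  (nat_lit 6) (nat_lit 152919) (nat_lit 17) (node (nat_lit 4) (nat_lit 115102) (nat_lit 18) (node
  (nat_lit 5) (nat_lit 114630) (nat_lit 19) (node (nat_lit 6) (nat_lit 114672) (nat_lit 20) (node
  (nat_lit 5) (nat_lit 114776) (nat_lit 21) (node (nat_lit 4) (nat_lit 114922) (nat_lit 22) nil
  nil) nil) (node (nat_lit 4) (nat_lit 81369) (nat_lit 20) (node (nat_lit 6) (nat_lit 81053)
  (nat_lit 21) nil nil) nil)) nil) nil) nil) nil) nil) nil) nil) (node (nat_lit 6) (nat_lit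
  155213) (nat_lit 12) (node (nat_lit 4) (nat_lit 156316) (nat_lit 13) (node (nat_lit 5) (nat_lit
  156316) (nat_lit 14) (node (nat_lit 6) (nat_lit 156316) (nat_lit 15) (node (nat_lit 5) (nat_lit
  156316) (nat_lit 16) (node (nat_lit 4) (nat_lit 156640) (nat_lit 17) (node (nat_lit 6) (nat_lit
  155591) (nat_lit 18) (node (nat_lit 4) (nat_lit 144367) (nat_lit 19) (node (nat_lit 5) (nat_lit
  133207) (nat_lit 20) (node (nat_lit 4) (nat_lit 83356) (nat_lit 21) (node (nat_lit 6) (nat_lit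
  83282) (nat_lit 22) (node (nat_lit 5) (nat_lit 68861) (nat_lit 23) nil nil) nil) nil) nil) nil)
  nil) nil) nil) nil) (node (nat_lit 6) (nat_lit 156316) (nat_lit 14) (node (nat_lit 5) (nat_lit
  156316) (nat_lit 15) (node (nat_lit 4) (nat_lit 156586) (nat_lit 16) (node (nat_lit 5) (nat_lit
  156586) (nat_lit 17) (node (nat_lit 6) (nat_lit 156586) (nat_lit 18) (node (nat_lit 5) (nat_lit
  156586) (nat_lit 19) (node (nat_lit 4) (nat_lit 156740) (nat_lit 20) (node (nat_lit 6) (nat_lit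
  156740) (nat_lit 21) (node (nat_lit 4) (nat_lit 155642) (nat_lit 22) (node (nat_lit 5) (nat_lit
  152170) (nat_lit 23) (node (nat_lit 4) (nat_lit 147693) (nat_lit 24) (node (nat_lit 6) (nat_lit
  138600) (nat_lit 25) (node (nat_lit 5) (nat_lit 123974) (nat_lit 26) (node (nat_lit 6) (nat_lit
  104243) (nat_lit 27) (node (nat_lit 4) (nat_lit 80393) (nat_lit 28) nil nil) nil) nil) nil) nil)
  nil) nil) nil) nil) nil) nil) nil) nil) nil) nil)) nil) (node (nat_lit 0) (nat_lit 156171)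
  (nat_lit 12) (node (nat_lit 5) (nat_lit 156171) (nat_lit 13) nil nil) (node (nat_lit 2) (nat_lit
  154217) (nat_lit 12) (node (nat_lit 5) (nat_lit 153159) (nat_lit 13) nil (node (nat_lit 6)
  (nat_lit 153782) (nat_lit 13) nil nil)) nil)))) (node (nat_lit 0) (nat_lit 155562) (nat_lit 11)
  (node (nat_lit 6) (nat_lit 155761) (nat_lit 12) nil (node (nat_lit 5) (nat_lit 155408) (nat_lit
  12) nil nil)) (node (nat_lit 2) (nat_lit 150118) (nat_lit 11) (node (nat_lit 6) (nat_lit 149637)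
  (nat_lit 12) (node (nat_lit 4) (nat_lit 151123) (nat_lit 13) nil (node (nat_lit 5) (nat_lit
  148580) (nat_lit 13) nil nil)) (node (nat_lit 5) (nat_lit 148830) (nat_lit 12) (node (nat_lit 4)
  (nat_lit 150316) (nat_lit 13) nil nil) (node (nat_lit 4) (nat_lit 152252) (nat_lit 12) nil
  nil))) nil))) (node (nat_lit 0) (nat_lit 151515) (nat_lit 10) (node (nat_lit 5) (nat_lit 151303)
  (nat_lit 11) (node (nat_lit 4) (nat_lit 153437) (nat_lit 12) nil (node (nat_lit 6) (nat_lit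
  150822) (nat_lit 12) nil nil)) (node (nat_lit 6) (nat_lit 151757) (nat_lit 11) (node (nat_lit 4)
  (nat_lit 153892) (nat_lit 12) nil nil) nil)) (node (nat_lit 2) (nat_lit 149669) (nat_lit 10)
  (node (nat_lit 5) (nat_lit 152692) (nat_lit 11) (node (nat_lit 4) (nat_lit 150222) (nat_lit 12)
  nil nil) (node (nat_lit 6) (nat_lit 154628) (nat_lit 11) nil (node (nat_lit 4) (nat_lit 152406)
  (nat_lit 11) nil nil))) nil))) (node (nat_lit 0) (nat_lit 147054) (nat_lit 9) (node (nat_lit 5)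
  (nat_lit 151515) (nat_lit 10) (node (nat_lit 4) (nat_lit 154252) (nat_lit 11) nil nil) (node
  (nat_lit 6) (nat_lit 147453) (nat_lit 10) (node (nat_lit 4) (nat_lit 150190) (nat_lit 11) nil
  nil) (node (nat_lit 4) (nat_lit 150563) (nat_lit 10) nil nil))) (node (nat_lit 2) (nat_lit
  146959) (nat_lit 9) (node (nat_lit 5) (nat_lit 151420) (nat_lit 10) (node (nat_lit 4) (nat_lit
  148017) (nat_lit 11) nil nil) (node (nat_lit 6) (nat_lit 151448) (nat_lit 10) nil (node (nat_lit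
  4) (nat_lit 150468) (nat_lit 10) nil nil))) nil)))) nil) (node (nat_lit 5) (nat_lit 0) (nat_lit
  7) (node (nat_lit 6) (nat_lit 0) (nat_lit 8) (node (nat_lit 4) (nat_lit 0) (nat_lit 9) (node
  (nat_lit 5) (nat_lit 0) (nat_lit 10) (node (nat_lit 4) (nat_lit 0) (nat_lit 11) (node (nat_lit
  6) (nat_lit 155987) (nat_lit 12) (node (nat_lit 5) (nat_lit 155987) (nat_lit 13) (node (nat_lit
  4) (nat_lit 156430) (nat_lit 14) (node (nat_lit 5) (nat_lit 156430) (nat_lit 15) (node (nat_lit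
  6) (nat_lit 156430) (nat_lit 16) (node (nat_lit 5) (nat_lit 156222) (nat_lit 17) (node (nat_lit
  4) (nat_lit 155294) (nat_lit 18) (node (nat_lit 6) (nat_lit 150679) (nat_lit 19) (node (nat_lit
  5) (nat_lit 145485) (nat_lit 20) (node (nat_lit 6) (nat_lit 136461) (nat_lit 21) (node (nat_lit
  4) (nat_lit 119268) (nat_lit 22) (node (nat_lit 5) (nat_lit 77913) (nat_lit 23) (node (nat_lit
  4) (nat_lit 77973) (nat_lit 24) (node (nat_lit 6) (nat_lit 78020) (nat_lit 25) nil nil) nil)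
  nil) nil) nil) nil) nil) nil) nil) nil) nil) nil) (node (nat_lit 4) (nat_lit 156316) (nat_lit
  13) (node (nat_lit 5) (nat_lit 156316) (nat_lit 14) (node (nat_lit 6) (nat_lit 156316) (nat_lit
  15) (node (nat_lit 5) (nat_lit 156316) (nat_lit 16) (node (nat_lit 4) (nat_lit 156640) (nat_lit
  17) (node (nat_lit 6) (nat_lit 156640) (nat_lit 18) (node (nat_lit 5) (nat_lit 156640) (nat_lit
  19) (node (nat_lit 6) (nat_lit 156640) (nat_lit 20) (node (nat_lit 4) (nat_lit 156759) (nat_lit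
  21) (node (nat_lit 5) (nat_lit 156759) (nat_lit 22) nil nil) nil) nil) nil) nil) nil) nil) nil)
  nil) nil)) (node (nat_lit 0) (nat_lit 156171) (nat_lit 12) nil (node (nat_lit 2) (nat_lit
  153720) (nat_lit 12) nil nil))) (node (nat_lit 6) (nat_lit 0) (nat_lit 11) (node (nat_lit 5)
  (nat_lit 0) (nat_lit 12) (node (nat_lit 4) (nat_lit 134863) (nat_lit 13) (node (nat_lit 6)
  (nat_lit 83146) (nat_lit 14) (node (nat_lit 4) (nat_lit 83597) (nat_lit 15) (node (nat_lit 5)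
  (nat_lit 83949) (nat_lit 16) (node (nat_lit 6) (nat_lit 83697) (nat_lit 17) (node (nat_lit 5)
  (nat_lit 83653) (nat_lit 18) nil nil) (node (nat_lit 4) (nat_lit 84224) (nat_lit 17) (node
  (nat_lit 6) (nat_lit 84028) (nat_lit 18) (node (nat_lit 5) (nat_lit 83993) (nat_lit 19) nil nil)
  nil) nil)) nil) nil) (node (nat_lit 5) (nat_lit 132985) (nat_lit 14) (node (nat_lit 6) (nat_lit
  132217) (nat_lit 15) (node (nat_lit 4) (nat_lit 133294) (nat_lit 16) nil nil) nil) nil)) (node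
  (nat_lit 2) (nat_lit 142027) (nat_lit 13) nil (node (nat_lit 0) (nat_lit 145261) (nat_lit 13)
  nil nil))) (node (nat_lit 2) (nat_lit 143593) (nat_lit 12) (node (nat_lit 5) (nat_lit 145534)
  (nat_lit 13) (node (nat_lit 6) (nat_lit 143446) (nat_lit 14) nil nil) (node (nat_lit 6) (nat_lit
  144051) (nat_lit 13) (node (nat_lit 4) (nat_lit 143163) (nat_lit 14) nil (node (nat_lit 5)
  (nat_lit 143241) (nat_lit 14) nil nil)) nil)) (node (nat_lit 0) (nat_lit 143593) (nat_lit 12)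
  (node (nat_lit 5) (nat_lit 143509) (nat_lit 13) (node (nat_lit 6) (nat_lit 143174) (nat_lit 14)
  nil nil) (node (nat_lit 6) (nat_lit 143779) (nat_lit 13) (node (nat_lit 4) (nat_lit 145078)
  (nat_lit 14) nil nil) nil)) nil))) (node (nat_lit 0) (nat_lit 155065) (nat_lit 11) (node
  (nat_lit 5) (nat_lit 154911) (nat_lit 12) nil (node (nat_lit 6) (nat_lit 155264) (nat_lit 12)
  nil nil)) (node (nat_lit 2) (nat_lit 151882) (nat_lit 11) (node (nat_lit 5) (nat_lit 150594)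
  (nat_lit 12) (node (nat_lit 4) (nat_lit 152079) (nat_lit 13) nil nil) (node (nat_lit 6) (nat_lit
  148452) (nat_lit 12) (node (nat_lit 4) (nat_lit 149938) (nat_lit 13) nil (node (nat_lit 5)
  (nat_lit 147394) (nat_lit 13) nil nil)) (node (nat_lit 4) (nat_lit 154016) (nat_lit 12) nil
  nil))) nil)))) (node (nat_lit 6) (nat_lit 0) (nat_lit 10) (node (nat_lit 5) (nat_lit 152939)
  (nat_lit 11) (node (nat_lit 4) (nat_lit 154916) (nat_lit 12) (node (nat_lit 5) (nat_lit 154475)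
  (nat_lit 13) (node (nat_lit 6) (nat_lit 152271) (nat_lit 14) (node (nat_lit 5) (nat_lit 149076)
  (nat_lit 15) (node (nat_lit 4) (nat_lit 145077) (nat_lit 16) (node (nat_lit 6) (nat_lit 136592)
  (nat_lit 17) (node (nat_lit 5) (nat_lit 122000) (nat_lit 18) (node (nat_lit 6) (nat_lit 102484)
  (nat_lit 19) (node (nat_lit 4) (nat_lit 79309) (nat_lit 20) nil nil) nil) nil) nil) nil) nil)
  nil) (node (nat_lit 6) (nat_lit 156171) (nat_lit 13) (node (nat_lit 4) (nat_lit 156430) (nat_lit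
  14) (node (nat_lit 5) (nat_lit 156430) (nat_lit 15) (node (nat_lit 6) (nat_lit 156430) (nat_lit
  16) (node (nat_lit 5) (nat_lit 156430) (nat_lit 17) (node (nat_lit 4) (nat_lit 156682) (nat_lit
  18) (node (nat_lit 6) (nat_lit 156682) (nat_lit 19) (node (nat_lit 5) (nat_lit 156682) (nat_lit
  20) (node (nat_lit 6) (nat_lit 156682) (nat_lit 21) (node (nat_lit 4) (nat_lit 156775) (nat_lit
  22) (node (nat_lit 6) (nat_lit 156775) (nat_lit 23) (node (nat_lit 5) (nat_lit 156775) (nat_lit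
  24) (node (nat_lit 4) (nat_lit 68906) (nat_lit 25) nil nil) nil) nil) nil) nil) nil) nil) nil)
  nil) nil) nil) nil) nil)) nil) (node (nat_lit 0) (nat_lit 155562) (nat_lit 11) (node (nat_lit 5)
  (nat_lit 155408) (nat_lit 12) nil nil) (node (nat_lit 2) (nat_lit 150118) (nat_lit 11) (node
  (nat_lit 6) (nat_lit 149637) (nat_lit 12) nil (node (nat_lit 4) (nat_lit 152252) (nat_lit 12)
  nil (node (nat_lit 5) (nat_lit 148830) (nat_lit 12) nil nil))) nil))) (node (nat_lit 0) (nat_lit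
  151376) (nat_lit 10) (node (nat_lit 5) (nat_lit 151164) (nat_lit 11) nil (node (nat_lit 6)
  (nat_lit 151618) (nat_lit 11) nil nil)) (node (nat_lit 2) (nat_lit 147372) (nat_lit 10) (node
  (nat_lit 5) (nat_lit 147337) (nat_lit 11) (node (nat_lit 4) (nat_lit 149313) (nat_lit 12) nil
  nil) (node (nat_lit 4) (nat_lit 150109) (nat_lit 11) nil (node (nat_lit 6) (nat_lit 148357)
  (nat_lit 11) nil nil))) nil)))) (node (nat_lit 0) (nat_lit 147868) (nat_lit 9) (node (nat_lit 6)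
  (nat_lit 148266) (nat_lit 10) (node (nat_lit 4) (nat_lit 151003) (nat_lit 11) nil nil) (node
  (nat_lit 5) (nat_lit 152328) (nat_lit 10) (node (nat_lit 4) (nat_lit 155065) (nat_lit 11) nil
  nil) nil)) (node (nat_lit 2) (nat_lit 143786) (nat_lit 9) (node (nat_lit 6) (nat_lit 144299)
  (nat_lit 10) (node (nat_lit 4) (nat_lit 148616) (nat_lit 11) nil (node (nat_lit 5) (nat_lit
  144299) (nat_lit 11) nil nil)) (node (nat_lit 5) (nat_lit 144299) (nat_lit 10) (node (nat_lit 4)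
  (nat_lit 148287) (nat_lit 11) nil (node (nat_lit 6) (nat_lit 144299) (nat_lit 11) nil nil))
  (node (nat_lit 4) (nat_lit 147295) (nat_lit 10) nil nil))) nil))) nil) nil)) (node (nat_lit 5)
  (nat_lit 0) (nat_lit 6) (node (nat_lit 6) (nat_lit 0) (nat_lit 7) (node (nat_lit 4) (nat_lit 0)
  (nat_lit 8) (node (nat_lit 6) (nat_lit 0) (nat_lit 9) (node (nat_lit 5) (nat_lit 0) (nat_lit 10)
  (node (nat_lit 4) (nat_lit 74368) (nat_lit 11) (node (nat_lit 6) (nat_lit 75555) (nat_lit 12)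
  (node (nat_lit 4) (nat_lit 76482) (nat_lit 13) (node (nat_lit 5) (nat_lit 77204) (nat_lit 14)
  (node (nat_lit 6) (nat_lit 77770) (nat_lit 15) (node (nat_lit 5) (nat_lit 78209) (nat_lit 16)
  (node (nat_lit 4) (nat_lit 78553) (nat_lit 17) (node (nat_lit 5) (nat_lit 78821) (nat_lit 18)
  (node (nat_lit 6) (nat_lit 79031) (nat_lit 19) (node (nat_lit 4) (nat_lit 79195) (nat_lit 20)
  (node (nat_lit 6) (nat_lit 79321) (nat_lit 21) nil nil) nil) nil) nil) nil) nil) nil) nil) nil)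
  (node (nat_lit 5) (nat_lit 75555) (nat_lit 12) (node (nat_lit 6) (nat_lit 76482) (nat_lit 13)
  (node (nat_lit 5) (nat_lit 77204) (nat_lit 14) (node (nat_lit 4) (nat_lit 77770) (nat_lit 15)
  nil nil) nil) nil) nil)) (node (nat_lit 6) (nat_lit 75111) (nat_lit 11) (node (nat_lit 4)
  (nat_lit 77021) (nat_lit 12) (node (nat_lit 5) (nat_lit 77614) (nat_lit 13) (node (nat_lit 6)
  (nat_lit 77016) (nat_lit 14) (node (nat_lit 5) (nat_lit 74766) (nat_lit 15) (node (nat_lit 4)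
  (nat_lit 72241) (nat_lit 16) (node (nat_lit 5) (nat_lit 64017) (nat_lit 17) (node (nat_lit 6)
  (nat_lit 50551) (nat_lit 18) (node (nat_lit 4) (nat_lit 39680) (nat_lit 19) nil nil) nil) nil)
  nil) nil) nil) nil) nil) (node (nat_lit 0) (nat_lit 74368) (nat_lit 11) nil (node (nat_lit 2)
  (nat_lit 71419) (nat_lit 11) (node (nat_lit 5) (nat_lit 70317) (nat_lit 12) nil nil) nil))))
  (node (nat_lit 0) (nat_lit 71895) (nat_lit 10) nil (node (nat_lit 2) (nat_lit 72847) (nat_lit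
  10) (node (nat_lit 5) (nat_lit 71419) (nat_lit 11) (node (nat_lit 6) (nat_lit 71926) (nat_lit
  12) nil nil) nil) nil))) (node (nat_lit 5) (nat_lit 0) (nat_lit 9) (node (nat_lit 4) (nat_lit
  72932) (nat_lit 10) (node (nat_lit 6) (nat_lit 75196) (nat_lit 11) (node (nat_lit 4) (nat_lit
  76382) (nat_lit 12) (node (nat_lit 5) (nat_lit 77310) (nat_lit 13) (node (nat_lit 6) (nat_lit
  78032) (nat_lit 14) (node (nat_lit 5) (nat_lit 78597) (nat_lit 15) (node (nat_lit 4) (nat_lit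
  79037) (nat_lit 16) (node (nat_lit 5) (nat_lit 79381) (nat_lit 17) (node (nat_lit 6) (nat_lit
  79649) (nat_lit 18) (node (nat_lit 4) (nat_lit 79859) (nat_lit 19) nil nil) nil) nil) nil) nil)
  nil) nil) (node (nat_lit 5) (nat_lit 76962) (nat_lit 12) (node (nat_lit 4) (nat_lit 77890)
  (nat_lit 13) (node (nat_lit 5) (nat_lit 78612) (nat_lit 14) (node (nat_lit 6) (nat_lit 79177)
  (nat_lit 15) (node (nat_lit 5) (nat_lit 79617) (nat_lit 16) (node (nat_lit 4) (nat_lit 79961)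
  (nat_lit 17) nil nil) nil) nil) nil) (node (nat_lit 6) (nat_lit 78342) (nat_lit 13) (node
  (nat_lit 4) (nat_lit 79419) (nat_lit 14) (node (nat_lit 5) (nat_lit 79403) (nat_lit 15) (node
  (nat_lit 6) (nat_lit 79581) (nat_lit 16) (node (nat_lit 5) (nat_lit 78419) (nat_lit 17) (node
  (nat_lit 4) (nat_lit 76579) (nat_lit 18) (node (nat_lit 5) (nat_lit 73175) (nat_lit 19) (node
  (nat_lit 6) (nat_lit 68756) (nat_lit 20) (node (nat_lit 4) (nat_lit 58025) (nat_lit 21) (node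
  (nat_lit 5) (nat_lit 41656) (nat_lit 22) nil nil) nil) nil) nil) nil) nil) nil) nil) nil) nil))
  nil)) nil) (node (nat_lit 0) (nat_lit 72847) (nat_lit 10) (node (nat_lit 5) (nat_lit 71419)
  (nat_lit 11) nil nil) (node (nat_lit 2) (nat_lit 72847) (nat_lit 10) (node (nat_lit 6) (nat_lit
  75111) (nat_lit 11) (node (nat_lit 4) (nat_lit 71693) (nat_lit 12) nil nil) (node (nat_lit 5)
  (nat_lit 71419) (nat_lit 11) (node (nat_lit 4) (nat_lit 72606) (nat_lit 12) nil (node (nat_lit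
  6) (nat_lit 71926) (nat_lit 12) nil nil)) nil)) nil))) (node (nat_lit 0) (nat_lit 69989)
  (nat_lit 9) (node (nat_lit 6) (nat_lit 71939) (nat_lit 10) nil (node (nat_lit 5) (nat_lit 72891)
  (nat_lit 10) nil nil)) (node (nat_lit 2) (nat_lit 69945) (nat_lit 9) (node (nat_lit 6) (nat_lit
  72543) (nat_lit 10) (node (nat_lit 4) (nat_lit 68228) (nat_lit 11) (node (nat_lit 5) (nat_lit
  66143) (nat_lit 12) nil nil) (node (nat_lit 5) (nat_lit 71114) (nat_lit 11) nil nil)) (node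
  (nat_lit 5) (nat_lit 69746) (nat_lit 10) (node (nat_lit 6) (nat_lit 70493) (nat_lit 11) nil
  (node (nat_lit 4) (nat_lit 71267) (nat_lit 11) nil nil)) (node (nat_lit 4) (nat_lit 71895)
  (nat_lit 10) nil nil))) nil)))) nil) nil) nil))

noncomputable def t133 : Tr :=
  (node (nat_lit 4) (nat_lit 0) (nat_lit 9) (node (nat_lit 7) (nat_lit 0) (nat_lit 10) (node
  (nat_lit 4) (nat_lit 0) (nat_lit 11) (node (nat_lit 5) (nat_lit 0) (nat_lit 12) (node (nat_lit
  7) (nat_lit 0) (nat_lit 13) (node (nat_lit 5) (nat_lit 0) (nat_lit 14) (node (nat_lit 4)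
  (nat_lit 0) (nat_lit 15) (node (nat_lit 7) (nat_lit 31151) (nat_lit 16) (node (nat_lit 4)
  (nat_lit 31508) (nat_lit 17) (node (nat_lit 5) (nat_lit 31787) (nat_lit 18) (node (nat_lit 4)
  (nat_lit 32004) (nat_lit 19) (node (nat_lit 7) (nat_lit 32173) (nat_lit 20) (node (nat_lit 5)
  (nat_lit 32077) (nat_lit 21) (node (nat_lit 7) (nat_lit 32157) (nat_lit 22) (node (nat_lit 4)
  (nat_lit 32110) (nat_lit 23) (node (nat_lit 5) (nat_lit 32072) (nat_lit 24) nil nil) nil) nil)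
  nil) nil) nil) nil) (node (nat_lit 5) (nat_lit 31585) (nat_lit 17) (node (nat_lit 7) (nat_lit
  31863) (nat_lit 18) (node (nat_lit 4) (nat_lit 32080) (nat_lit 19) nil nil) nil) nil)) (node
  (nat_lit 5) (nat_lit 31208) (nat_lit 16) (node (nat_lit 7) (nat_lit 31565) (nat_lit 17) (node
  (nat_lit 4) (nat_lit 31844) (nat_lit 18) (node (nat_lit 5) (nat_lit 32108) (nat_lit 19) (node
  (nat_lit 4) (nat_lit 32277) (nat_lit 20) (node (nat_lit 7) (nat_lit 32409) (nat_lit 21) (node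
  (nat_lit 5) (nat_lit 32535) (nat_lit 22) (node (nat_lit 7) (nat_lit 32616) (nat_lit 23) (node
  (nat_lit 4) (nat_lit 32679) (nat_lit 24) (node (nat_lit 5) (nat_lit 26212) (nat_lit 25) nil nil)
  nil) nil) (node (nat_lit 4) (nat_lit 32513) (nat_lit 22) nil nil)) nil) nil) (node (nat_lit 7)
  (nat_lit 32061) (nat_lit 19) (node (nat_lit 5) (nat_lit 31938) (nat_lit 20) nil nil) nil)) nil)
  nil) (node (nat_lit 0) (nat_lit 31151) (nat_lit 16) (node (nat_lit 7) (nat_lit 31508) (nat_lit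
  17) nil nil) (node (nat_lit 2) (nat_lit 30364) (nat_lit 16) (node (nat_lit 7) (nat_lit 30638)
  (nat_lit 17) nil nil) nil)))) (node (nat_lit 0) (nat_lit 30694) (nat_lit 15) nil (node (nat_lit
  2) (nat_lit 29680) (nat_lit 15) nil nil))) (node (nat_lit 4) (nat_lit 0) (nat_lit 14) (node
  (nat_lit 7) (nat_lit 30599) (nat_lit 15) (node (nat_lit 5) (nat_lit 31208) (nat_lit 16) (node
  (nat_lit 4) (nat_lit 31565) (nat_lit 17) (node (nat_lit 7) (nat_lit 31844) (nat_lit 18) (node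
  (nat_lit 4) (nat_lit 32061) (nat_lit 19) (node (nat_lit 5) (nat_lit 32231) (nat_lit 20) nil nil)
  nil) (node (nat_lit 5) (nat_lit 31363) (nat_lit 18) (node (nat_lit 7) (nat_lit 31533) (nat_lit
  19) nil nil) nil)) (node (nat_lit 7) (nat_lit 31565) (nat_lit 17) (node (nat_lit 4) (nat_lit
  31844) (nat_lit 18) (node (nat_lit 5) (nat_lit 32108) (nat_lit 19) (node (nat_lit 4) (nat_lit
  32277) (nat_lit 20) (node (nat_lit 7) (nat_lit 32409) (nat_lit 21) (node (nat_lit 5) (nat_lit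
  32535) (nat_lit 22) nil nil) nil) nil) nil) nil) nil)) nil) (node (nat_lit 0) (nat_lit 30599)
  (nat_lit 15) nil (node (nat_lit 2) (nat_lit 29585) (nat_lit 15) nil nil))) (node (nat_lit 0)
  (nat_lit 30013) (nat_lit 14) nil (node (nat_lit 2) (nat_lit 28696) (nat_lit 14) (node (nat_lit
  4) (nat_lit 29282) (nat_lit 15) nil (node (nat_lit 5) (nat_lit 28268) (nat_lit 15) nil nil))
  nil)))) (node (nat_lit 0) (nat_lit 29317) (nat_lit 13) (node (nat_lit 5) (nat_lit 28750)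
  (nat_lit 14) (node (nat_lit 7) (nat_lit 29170) (nat_lit 15) nil (node (nat_lit 4) (nat_lit
  29336) (nat_lit 15) nil nil)) (node (nat_lit 7) (nat_lit 30067) (nat_lit 14) (node (nat_lit 4)
  (nat_lit 30653) (nat_lit 15) nil nil) (node (nat_lit 4) (nat_lit 30067) (nat_lit 14) (node
  (nat_lit 5) (nat_lit 29639) (nat_lit 15) nil (node (nat_lit 7) (nat_lit 30653) (nat_lit 15) nil
  nil)) nil))) (node (nat_lit 2) (nat_lit 29263) (nat_lit 13) (node (nat_lit 5) (nat_lit 30108)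
  (nat_lit 14) (node (nat_lit 7) (nat_lit 29211) (nat_lit 15) nil (node (nat_lit 4) (nat_lit
  30694) (nat_lit 15) nil nil)) (node (nat_lit 7) (nat_lit 30013) (nat_lit 14) (node (nat_lit 5)
  (nat_lit 29585) (nat_lit 15) nil (node (nat_lit 4) (nat_lit 27650) (nat_lit 15) nil nil)) (node
  (nat_lit 4) (nat_lit 30013) (nat_lit 14) (node (nat_lit 5) (nat_lit 30726) (nat_lit 15) nil
  (node (nat_lit 7) (nat_lit 30599) (nat_lit 15) nil nil)) nil))) nil))) (node (nat_lit 0)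
  (nat_lit 28300) (nat_lit 12) (node (nat_lit 7) (nat_lit 29263) (nat_lit 13) (node (nat_lit 4)
  (nat_lit 30013) (nat_lit 14) (node (nat_lit 5) (nat_lit 30599) (nat_lit 15) (node (nat_lit 4)
  (nat_lit 31056) (nat_lit 16) (node (nat_lit 7) (nat_lit 31413) (nat_lit 17) nil nil) nil) (node
  (nat_lit 7) (nat_lit 30599) (nat_lit 15) (node (nat_lit 15) (nat_lit 31056) (nat_lit 16) nil
  nil) nil)) (node (nat_lit 15) (nat_lit 30013) (nat_lit 14) nil nil)) (node (nat_lit 4) (nat_lit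
  29263) (nat_lit 13) (node (nat_lit 7) (nat_lit 30013) (nat_lit 14) (node (nat_lit 15) (nat_lit
  30599) (nat_lit 15) nil nil) (node (nat_lit 5) (nat_lit 30108) (nat_lit 14) nil nil)) (node
  (nat_lit 5) (nat_lit 29317) (nat_lit 13) (node (nat_lit 7) (nat_lit 30067) (nat_lit 14) nil
  (node (nat_lit 4) (nat_lit 30067) (nat_lit 14) nil nil)) nil))) (node (nat_lit 2) (nat_lit
  27461) (nat_lit 12) (node (nat_lit 7) (nat_lit 28423) (nat_lit 13) (node (nat_lit 4) (nat_lit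
  29173) (nat_lit 14) (node (nat_lit 5) (nat_lit 30294) (nat_lit 15) (node (nat_lit 4) (nat_lit
  30751) (nat_lit 16) (node (nat_lit 7) (nat_lit 24394) (nat_lit 17) nil nil) nil) (node (nat_lit
  7) (nat_lit 29759) (nat_lit 15) (node (nat_lit 15) (nat_lit 30360) (nat_lit 16) nil nil) nil))
  (node (nat_lit 5) (nat_lit 29674) (nat_lit 14) nil (node (nat_lit 15) (nat_lit 29173) (nat_lit
  14) nil nil))) (node (nat_lit 4) (nat_lit 28423) (nat_lit 13) (node (nat_lit 7) (nat_lit 29173)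
  (nat_lit 14) (node (nat_lit 15) (nat_lit 28745) (nat_lit 15) nil nil) (node (nat_lit 5) (nat_lit
  29674) (nat_lit 14) nil nil)) (node (nat_lit 5) (nat_lit 28883) (nat_lit 13) (node (nat_lit 7)
  (nat_lit 29633) (nat_lit 14) nil (node (nat_lit 4) (nat_lit 29633) (nat_lit 14) nil nil)) (node
  (nat_lit 0) (nat_lit 28423) (nat_lit 13) nil nil)))) nil))) (node (nat_lit 0) (nat_lit 26930)
  (nat_lit 11) (node (nat_lit 7) (nat_lit 28162) (nat_lit 12) (node (nat_lit 4) (nat_lit 29125)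
  (nat_lit 13) (node (nat_lit 5) (nat_lit 29875) (nat_lit 14) (node (nat_lit 4) (nat_lit 30461)
  (nat_lit 15) nil nil) nil) (node (nat_lit 5) (nat_lit 29245) (nat_lit 13) (node (nat_lit 7)
  (nat_lit 28060) (nat_lit 14) nil nil) nil)) (node (nat_lit 4) (nat_lit 28162) (nat_lit 12) (node
  (nat_lit 7) (nat_lit 29125) (nat_lit 13) (node (nat_lit 4) (nat_lit 29875) (nat_lit 14) nil nil)
  (node (nat_lit 5) (nat_lit 27396) (nat_lit 13) nil nil)) (node (nat_lit 5) (nat_lit 28230)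
  (nat_lit 12) (node (nat_lit 7) (nat_lit 29192) (nat_lit 13) nil (node (nat_lit 4) (nat_lit
  29192) (nat_lit 13) nil nil)) (node (nat_lit 2) (nat_lit 25905) (nat_lit 12) nil (node (nat_lit
  0) (nat_lit 28162) (nat_lit 12) nil nil))))) (node (nat_lit 2) (nat_lit 26229) (nat_lit 11)
  (node (nat_lit 7) (nat_lit 27461) (nat_lit 12) (node (nat_lit 4) (nat_lit 28423) (nat_lit 13)
  (node (nat_lit 5) (nat_lit 29674) (nat_lit 14) (node (nat_lit 4) (nat_lit 30260) (nat_lit 15)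
  nil nil) (node (nat_lit 14) (nat_lit 29173) (nat_lit 14) nil nil)) (node (nat_lit 5) (nat_lit
  28883) (nat_lit 13) (node (nat_lit 7) (nat_lit 29633) (nat_lit 14) nil nil) nil)) (node (nat_lit
  4) (nat_lit 27461) (nat_lit 12) (node (nat_lit 7) (nat_lit 28423) (nat_lit 13) (node (nat_lit 4)
  (nat_lit 29173) (nat_lit 14) nil nil) (node (nat_lit 5) (nat_lit 28883) (nat_lit 13) nil nil))
  (node (nat_lit 5) (nat_lit 27868) (nat_lit 12) (node (nat_lit 7) (nat_lit 28830) (nat_lit 13)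
  (node (nat_lit 4) (nat_lit 25902) (nat_lit 14) nil nil) (node (nat_lit 4) (nat_lit 28830)
  (nat_lit 13) nil nil)) (node (nat_lit 0) (nat_lit 27461) (nat_lit 12) nil nil)))) nil))) (node
  (nat_lit 0) (nat_lit 0) (nat_lit 10) (node (nat_lit 7) (nat_lit 69936) (nat_lit 11) (node
  (nat_lit 4) (nat_lit 72100) (nat_lit 12) (node (nat_lit 5) (nat_lit 73063) (nat_lit 13) nil nil)
  (node (nat_lit 5) (nat_lit 71016) (nat_lit 12) nil nil)) (node (nat_lit 5) (nat_lit 69936)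
  (nat_lit 11) (node (nat_lit 7) (nat_lit 72100) (nat_lit 12) (node (nat_lit 4) (nat_lit 72972)
  (nat_lit 13) nil nil) (node (nat_lit 4) (nat_lit 72383) (nat_lit 12) nil (node (nat_lit 13)
  (nat_lit 72100) (nat_lit 12) nil nil))) (node (nat_lit 4) (nat_lit 69936) (nat_lit 11) (node
  (nat_lit 5) (nat_lit 72383) (nat_lit 12) nil (node (nat_lit 7) (nat_lit 72383) (nat_lit 12) nil
  nil)) (node (nat_lit 0) (nat_lit 69936) (nat_lit 11) nil (node (nat_lit 2) (nat_lit 69249)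
  (nat_lit 11) (node (nat_lit 4) (nat_lit 70481) (nat_lit 12) nil nil) nil))))) (node (nat_lit 2)
  (nat_lit 0) (nat_lit 10) (node (nat_lit 7) (nat_lit 69831) (nat_lit 11) (node (nat_lit 4)
  (nat_lit 72277) (nat_lit 12) (node (nat_lit 5) (nat_lit 72821) (nat_lit 13) nil nil) (node
  (nat_lit 5) (nat_lit 69800) (nat_lit 12) (node (nat_lit 7) (nat_lit 70414) (nat_lit 13) nil nil)
  (node (nat_lit 13) (nat_lit 71063) (nat_lit 12) nil nil))) (node (nat_lit 5) (nat_lit 69831)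
  (nat_lit 11) (node (nat_lit 7) (nat_lit 71995) (nat_lit 12) (node (nat_lit 5) (nat_lit 72228)
  (nat_lit 13) nil (node (nat_lit 4) (nat_lit 70565) (nat_lit 13) nil nil)) (node (nat_lit 4)
  (nat_lit 72277) (nat_lit 12) (node (nat_lit 7) (nat_lit 73171) (nat_lit 13) nil nil) (node
  (nat_lit 13) (nat_lit 71754) (nat_lit 12) nil nil))) (node (nat_lit 4) (nat_lit 68675) (nat_lit
  11) (node (nat_lit 5) (nat_lit 70855) (nat_lit 12) (node (nat_lit 7) (nat_lit 71876) (nat_lit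
  13) nil nil) (node (nat_lit 7) (nat_lit 68676) (nat_lit 12) nil nil)) (node (nat_lit 0) (nat_lit
  69831) (nat_lit 11) (node (nat_lit 4) (nat_lit 71063) (nat_lit 12) nil nil) nil)))) nil))) (node
  (nat_lit 7) (nat_lit 0) (nat_lit 9) (node (nat_lit 5) (nat_lit 0) (nat_lit 10) (node (nat_lit 4)
  (nat_lit 0) (nat_lit 11) (node (nat_lit 5) (nat_lit 0) (nat_lit 12) (node (nat_lit 7) (nat_lit
  0) (nat_lit 13) (node (nat_lit 4) (nat_lit 0) (nat_lit 14) (node (nat_lit 7) (nat_lit 0)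
  (nat_lit 15) (node (nat_lit 5) (nat_lit 86057) (nat_lit 16) (node (nat_lit 7) (nat_lit 85544)
  (nat_lit 17) nil nil) (node (nat_lit 0) (nat_lit 85622) (nat_lit 16) nil (node (nat_lit 2)
  (nat_lit 84835) (nat_lit 16) nil nil))) (node (nat_lit 5) (nat_lit 0) (nat_lit 15) (node
  (nat_lit 4) (nat_lit 85686) (nat_lit 16) (node (nat_lit 7) (nat_lit 84035) (nat_lit 17) (node
  (nat_lit 5) (nat_lit 84314) (nat_lit 18) (node (nat_lit 7) (nat_lit 84530) (nat_lit 19) (node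
  (nat_lit 4) (nat_lit 84700) (nat_lit 20) (node (nat_lit 5) (nat_lit 65228) (nat_lit 21) (node
  (nat_lit 7) (nat_lit 64018) (nat_lit 22) (node (nat_lit 5) (nat_lit 47666) (nat_lit 23) (node
  (nat_lit 4) (nat_lit 28171) (nat_lit 24) nil nil) nil) nil) nil) nil) nil) nil) nil) (node
  (nat_lit 2) (nat_lit 84835) (nat_lit 16) nil (node (nat_lit 0) (nat_lit 85622) (nat_lit 16) nil
  nil))) (node (nat_lit 0) (nat_lit 85030) (nat_lit 15) (node (nat_lit 7) (nat_lit 85487) (nat_lit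
  16) (node (nat_lit 4) (nat_lit 85845) (nat_lit 17) nil nil) nil) (node (nat_lit 2) (nat_lit
  85030) (nat_lit 15) (node (nat_lit 7) (nat_lit 85427) (nat_lit 16) (node (nat_lit 4) (nat_lit
  84032) (nat_lit 17) nil nil) nil) nil)))) (node (nat_lit 0) (nat_lit 84019) (nat_lit 14) (node
  (nat_lit 5) (nat_lit 84551) (nat_lit 15) (node (nat_lit 7) (nat_lit 84967) (nat_lit 16) nil nil)
  (node (nat_lit 7) (nat_lit 84605) (nat_lit 15) (node (nat_lit 4) (nat_lit 85062) (nat_lit 16)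
  (node (nat_lit 5) (nat_lit 85420) (nat_lit 17) nil nil) nil) (node (nat_lit 4) (nat_lit 84053)
  (nat_lit 15) (node (nat_lit 7) (nat_lit 84510) (nat_lit 16) nil nil) nil))) (node (nat_lit 2)
  (nat_lit 83707) (nat_lit 14) (node (nat_lit 5) (nat_lit 84718) (nat_lit 15) (node (nat_lit 7)
  (nat_lit 85505) (nat_lit 16) nil nil) (node (nat_lit 7) (nat_lit 84220) (nat_lit 15) (node
  (nat_lit 4) (nat_lit 85007) (nat_lit 16) (node (nat_lit 5) (nat_lit 83058) (nat_lit 17) nil nil)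
  (node (nat_lit 5) (nat_lit 84500) (nat_lit 16) nil nil)) (node (nat_lit 4) (nat_lit 83741)
  (nat_lit 15) (node (nat_lit 7) (nat_lit 84198) (nat_lit 16) nil nil) nil))) nil))) (node
  (nat_lit 0) (nat_lit 82671) (nat_lit 13) (node (nat_lit 7) (nat_lit 83525) (nat_lit 14) (node
  (nat_lit 4) (nat_lit 84059) (nat_lit 15) (node (nat_lit 5) (nat_lit 84516) (nat_lit 16) (node
  (nat_lit 4) (nat_lit 84873) (nat_lit 17) nil nil) nil) (node (nat_lit 5) (nat_lit 84194)
  (nat_lit 15) (node (nat_lit 7) (nat_lit 83521) (nat_lit 16) nil nil) nil)) (node (nat_lit 4)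
  (nat_lit 83525) (nat_lit 14) (node (nat_lit 5) (nat_lit 84194) (nat_lit 15) (node (nat_lit 7)
  (nat_lit 83521) (nat_lit 16) nil nil) (node (nat_lit 7) (nat_lit 83559) (nat_lit 15) (node
  (nat_lit 4) (nat_lit 84016) (nat_lit 16) nil nil) nil)) (node (nat_lit 5) (nat_lit 83525)
  (nat_lit 14) (node (nat_lit 7) (nat_lit 84059) (nat_lit 15) (node (nat_lit 4) (nat_lit 84473)
  (nat_lit 16) nil nil) (node (nat_lit 4) (nat_lit 83559) (nat_lit 15) (node (nat_lit 7) (nat_lit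
  84016) (nat_lit 16) nil nil) nil)) (node (nat_lit 0) (nat_lit 83421) (nat_lit 14) nil (node
  (nat_lit 2) (nat_lit 82104) (nat_lit 14) nil nil))))) (node (nat_lit 2) (nat_lit 82267) (nat_lit
  13) (node (nat_lit 7) (nat_lit 83745) (nat_lit 14) (node (nat_lit 4) (nat_lit 84756) (nat_lit
  15) (node (nat_lit 5) (nat_lit 82389) (nat_lit 16) (node (nat_lit 4) (nat_lit 78934) (nat_lit
  17) nil nil) nil) (node (nat_lit 5) (nat_lit 84891) (nat_lit 15) nil nil)) (node (nat_lit 4)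
  (nat_lit 83625) (nat_lit 14) (node (nat_lit 5) (nat_lit 84617) (nat_lit 15) (node (nat_lit 7)
  (nat_lit 83944) (nat_lit 16) nil nil) (node (nat_lit 7) (nat_lit 83659) (nat_lit 15) (node
  (nat_lit 4) (nat_lit 84116) (nat_lit 16) nil nil) nil)) (node (nat_lit 5) (nat_lit 83745)
  (nat_lit 14) (node (nat_lit 7) (nat_lit 84277) (nat_lit 15) (node (nat_lit 4) (nat_lit 84693)
  (nat_lit 16) nil nil) (node (nat_lit 4) (nat_lit 83779) (nat_lit 15) (node (nat_lit 7) (nat_lit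
  84236) (nat_lit 16) nil nil) nil)) (node (nat_lit 0) (nat_lit 83017) (nat_lit 14) nil nil))))
  nil))) (node (nat_lit 7) (nat_lit 0) (nat_lit 12) (node (nat_lit 5) (nat_lit 82559) (nat_lit 13)
  (node (nat_lit 0) (nat_lit 83309) (nat_lit 14) (node (nat_lit 7) (nat_lit 83895) (nat_lit 15)
  nil nil) (node (nat_lit 2) (nat_lit 81992) (nat_lit 14) (node (nat_lit 7) (nat_lit 82412)
  (nat_lit 15) nil nil) nil)) (node (nat_lit 4) (nat_lit 0) (nat_lit 13) (node (nat_lit 5)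
  (nat_lit 83241) (nat_lit 14) (node (nat_lit 7) (nat_lit 83827) (nat_lit 15) nil (node (nat_lit
  4) (nat_lit 83827) (nat_lit 15) (node (nat_lit 7) (nat_lit 84284) (nat_lit 16) (node (nat_lit 5)
  (nat_lit 84028) (nat_lit 17) (node (nat_lit 7) (nat_lit 84246) (nat_lit 18) (node (nat_lit 4)
  (nat_lit 84109) (nat_lit 19) (node (nat_lit 5) (nat_lit 83990) (nat_lit 20) (node (nat_lit 7)
  (nat_lit 84122) (nat_lit 21) (node (nat_lit 5) (nat_lit 84226) (nat_lit 22) nil nil) nil) nil)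
  nil) nil) nil) nil) nil)) (node (nat_lit 2) (nat_lit 82781) (nat_lit 14) nil (node (nat_lit 0)
  (nat_lit 83309) (nat_lit 14) nil nil))) (node (nat_lit 2) (nat_lit 82156) (nat_lit 13) (node
  (nat_lit 7) (nat_lit 82818) (nat_lit 14) nil (node (nat_lit 5) (nat_lit 82840) (nat_lit 14) nil
  (node (nat_lit 4) (nat_lit 82195) (nat_lit 14) nil nil))) (node (nat_lit 0) (nat_lit 82559)
  (nat_lit 13) (node (nat_lit 7) (nat_lit 83309) (nat_lit 14) nil (node (nat_lit 5) (nat_lit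
  81992) (nat_lit 14) nil (node (nat_lit 4) (nat_lit 83309) (nat_lit 14) nil nil))) nil)))) (node
  (nat_lit 0) (nat_lit 80815) (nat_lit 12) (node (nat_lit 4) (nat_lit 81908) (nat_lit 13) (node
  (nat_lit 5) (nat_lit 81510) (nat_lit 14) nil (node (nat_lit 7) (nat_lit 82658) (nat_lit 14) nil
  nil)) (node (nat_lit 5) (nat_lit 81908) (nat_lit 13) (node (nat_lit 4) (nat_lit 82658) (nat_lit
  14) nil (node (nat_lit 7) (nat_lit 80723) (nat_lit 14) nil nil)) (node (nat_lit 7) (nat_lit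
  81908) (nat_lit 13) (node (nat_lit 4) (nat_lit 82658) (nat_lit 14) nil (node (nat_lit 5)
  (nat_lit 81341) (nat_lit 14) nil nil)) nil))) (node (nat_lit 2) (nat_lit 80292) (nat_lit 12)
  (node (nat_lit 4) (nat_lit 82037) (nat_lit 13) (node (nat_lit 5) (nat_lit 81637) (nat_lit 14)
  nil (node (nat_lit 7) (nat_lit 82787) (nat_lit 14) nil nil)) (node (nat_lit 5) (nat_lit 82200)
  (nat_lit 13) (node (nat_lit 4) (nat_lit 82950) (nat_lit 14) nil (node (nat_lit 7) (nat_lit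
  81015) (nat_lit 14) nil nil)) (node (nat_lit 7) (nat_lit 82200) (nat_lit 13) (node (nat_lit 4)
  (nat_lit 83505) (nat_lit 14) nil (node (nat_lit 5) (nat_lit 81801) (nat_lit 14) nil nil)) nil)))
  nil)))) (node (nat_lit 0) (nat_lit 78612) (nat_lit 11) (node (nat_lit 5) (nat_lit 79992)
  (nat_lit 12) (node (nat_lit 7) (nat_lit 80864) (nat_lit 13) nil (node (nat_lit 4) (nat_lit
  80954) (nat_lit 13) nil nil)) (node (nat_lit 7) (nat_lit 79992) (nat_lit 12) nil (node (nat_lit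
  4) (nat_lit 79992) (nat_lit 12) nil nil))) (node (nat_lit 2) (nat_lit 78908) (nat_lit 11) (node
  (nat_lit 7) (nat_lit 81354) (nat_lit 12) nil (node (nat_lit 5) (nat_lit 81354) (nat_lit 12)
  (node (nat_lit 7) (nat_lit 82226) (nat_lit 13) nil (node (nat_lit 4) (nat_lit 82317) (nat_lit
  13) nil nil)) (node (nat_lit 4) (nat_lit 80458) (nat_lit 12) nil (node (nat_lit 0) (nat_lit
  80140) (nat_lit 12) nil nil)))) nil))) (node (nat_lit 0) (nat_lit 0) (nat_lit 10) (node (nat_lit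
  7) (nat_lit 78556) (nat_lit 11) (node (nat_lit 4) (nat_lit 81001) (nat_lit 12) (node (nat_lit 5)
  (nat_lit 81964) (nat_lit 13) nil nil) (node (nat_lit 5) (nat_lit 81001) (nat_lit 12) nil nil))
  (node (nat_lit 5) (nat_lit 78769) (nat_lit 11) (node (nat_lit 7) (nat_lit 81215) (nat_lit 12)
  nil (node (nat_lit 4) (nat_lit 81215) (nat_lit 12) (node (nat_lit 7) (nat_lit 82178) (nat_lit
  13) nil nil) (node (nat_lit 13) (nat_lit 80932) (nat_lit 12) nil nil))) (node (nat_lit 4)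
  (nat_lit 78769) (nat_lit 11) (node (nat_lit 7) (nat_lit 81215) (nat_lit 12) (node (nat_lit 4)
  (nat_lit 82178) (nat_lit 13) nil (node (nat_lit 5) (nat_lit 80449) (nat_lit 13) nil nil)) (node
  (nat_lit 5) (nat_lit 81215) (nat_lit 12) (node (nat_lit 7) (nat_lit 79683) (nat_lit 13) nil nil)
  (node (nat_lit 13) (nat_lit 80001) (nat_lit 12) nil nil))) (node (nat_lit 2) (nat_lit 78082)
  (nat_lit 11) (node (nat_lit 7) (nat_lit 79148) (nat_lit 12) nil nil) (node (nat_lit 0) (nat_lit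
  78769) (nat_lit 11) (node (nat_lit 7) (nat_lit 80001) (nat_lit 12) nil nil) nil))))) (node
  (nat_lit 2) (nat_lit 0) (nat_lit 10) (node (nat_lit 7) (nat_lit 78728) (nat_lit 11) (node
  (nat_lit 4) (nat_lit 81173) (nat_lit 12) (node (nat_lit 5) (nat_lit 82859) (nat_lit 13) nil nil)
  (node (nat_lit 5) (nat_lit 81173) (nat_lit 12) nil nil)) (node (nat_lit 5) (nat_lit 78407)
  (nat_lit 11) (node (nat_lit 7) (nat_lit 80852) (nat_lit 12) (node (nat_lit 4) (nat_lit 81724)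
  (nat_lit 13) nil nil) (node (nat_lit 4) (nat_lit 80852) (nat_lit 12) (node (nat_lit 7) (nat_lit
  81814) (nat_lit 13) nil nil) (node (nat_lit 13) (nat_lit 80569) (nat_lit 12) nil nil))) (node
  (nat_lit 4) (nat_lit 78547) (nat_lit 11) (node (nat_lit 7) (nat_lit 80994) (nat_lit 12) (node
  (nat_lit 4) (nat_lit 81956) (nat_lit 13) nil (node (nat_lit 5) (nat_lit 80228) (nat_lit 13) nil
  nil)) (node (nat_lit 5) (nat_lit 79571) (nat_lit 12) (node (nat_lit 7) (nat_lit 78039) (nat_lit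
  13) nil nil) (node (nat_lit 13) (nat_lit 77522) (nat_lit 12) nil nil))) (node (nat_lit 0)
  (nat_lit 78619) (nat_lit 11) (node (nat_lit 7) (nat_lit 79851) (nat_lit 12) nil nil) nil))))
  nil))) (node (nat_lit 0) (nat_lit 72037) (nat_lit 9) (node (nat_lit 7) (nat_lit 75953) (nat_lit
  10) (node (nat_lit 4) (nat_lit 79069) (nat_lit 11) (node (nat_lit 5) (nat_lit 80301) (nat_lit
  12) nil nil) (node (nat_lit 5) (nat_lit 79069) (nat_lit 11) nil nil)) (node (nat_lit 4) (nat_lit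
  75953) (nat_lit 10) (node (nat_lit 7) (nat_lit 79069) (nat_lit 11) (node (nat_lit 5) (nat_lit
  81516) (nat_lit 12) nil nil) (node (nat_lit 5) (nat_lit 79069) (nat_lit 11) (node (nat_lit 7)
  (nat_lit 81516) (nat_lit 12) nil nil) nil)) (node (nat_lit 5) (nat_lit 75953) (nat_lit 10) (node
  (nat_lit 7) (nat_lit 79069) (nat_lit 11) (node (nat_lit 4) (nat_lit 81233) (nat_lit 12) nil nil)
  (node (nat_lit 4) (nat_lit 79069) (nat_lit 11) (node (nat_lit 7) (nat_lit 79070) (nat_lit 12)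
  nil nil) nil)) nil))) (node (nat_lit 2) (nat_lit 0) (nat_lit 9) (node (nat_lit 7) (nat_lit
  75896) (nat_lit 10) (node (nat_lit 4) (nat_lit 79012) (nat_lit 11) (node (nat_lit 5) (nat_lit
  80443) (nat_lit 12) (node (nat_lit 4) (nat_lit 71493) (nat_lit 13) (node (nat_lit 7) (nat_lit
  53670) (nat_lit 14) (node (nat_lit 5) (nat_lit 44532) (nat_lit 15) (node (nat_lit 7) (nat_lit
  12897) (nat_lit 16) nil nil) nil) nil) nil) nil) (node (nat_lit 5) (nat_lit 79012) (nat_lit 11)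
  nil nil)) (node (nat_lit 4) (nat_lit 75484) (nat_lit 10) (node (nat_lit 7) (nat_lit 78599)
  (nat_lit 11) (node (nat_lit 5) (nat_lit 77573) (nat_lit 12) nil nil) (node (nat_lit 5) (nat_lit
  78391) (nat_lit 11) (node (nat_lit 7) (nat_lit 79164) (nat_lit 12) nil nil) nil)) (node (nat_lit
  5) (nat_lit 75896) (nat_lit 10) (node (nat_lit 7) (nat_lit 79012) (nat_lit 11) (node (nat_lit 5)
  (nat_lit 80244) (nat_lit 12) nil (node (nat_lit 4) (nat_lit 81174) (nat_lit 12) nil nil)) (node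
  (nat_lit 4) (nat_lit 79069) (nat_lit 11) (node (nat_lit 7) (nat_lit 79070) (nat_lit 12) nil nil)
  nil)) (node (nat_lit 0) (nat_lit 75758) (nat_lit 10) nil nil)))) nil))))

noncomputable def t134 : Tr :=
  (node (nat_lit 3) (nat_lit 0) (nat_lit 3) (node (nat_lit 4) (nat_lit 0) (nat_lit 4) (node
  (nat_lit 6) (nat_lit 0) (nat_lit 5) (node (nat_lit 5) (nat_lit 0) (nat_lit 6) t131 nil) (node
  (nat_lit 5) (nat_lit 0) (nat_lit 5) (node (nat_lit 4) (nat_lit 0) (nat_lit 6) (node (nat_lit 6)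
  (nat_lit 0) (nat_lit 7) (node (nat_lit 5) (nat_lit 77614) (nat_lit 8) (node (nat_lit 4) (nat_lit
  78105) (nat_lit 9) (node (nat_lit 5) (nat_lit 78346) (nat_lit 10) (node (nat_lit 6) (nat_lit
  72136) (nat_lit 11) (node (nat_lit 4) (nat_lit 55823) (nat_lit 12) nil nil) nil) nil) nil) (node
  (nat_lit 4) (nat_lit 78346) (nat_lit 8) (node (nat_lit 5) (nat_lit 78346) (nat_lit 9) (node
  (nat_lit 6) (nat_lit 78346) (nat_lit 10) (node (nat_lit 5) (nat_lit 78346) (nat_lit 11) (node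
  (nat_lit 4) (nat_lit 78346) (nat_lit 12) (node (nat_lit 5) (nat_lit 77509) (nat_lit 13) (node
  (nat_lit 6) (nat_lit 75492) (nat_lit 14) (node (nat_lit 4) (nat_lit 72320) (nat_lit 15) (node
  (nat_lit 5) (nat_lit 66561) (nat_lit 16) (node (nat_lit 4) (nat_lit 55199) (nat_lit 17) (node
  (nat_lit 6) (nat_lit 44039) (nat_lit 18) nil nil) nil) nil) nil) nil) nil) nil) (node (nat_lit
  4) (nat_lit 78346) (nat_lit 11) (node (nat_lit 6) (nat_lit 78346) (nat_lit 12) (node (nat_lit 5)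
  (nat_lit 78346) (nat_lit 13) (node (nat_lit 4) (nat_lit 78346) (nat_lit 14) (node (nat_lit 5)
  (nat_lit 78346) (nat_lit 15) (node (nat_lit 6) (nat_lit 78346) (nat_lit 16) (node (nat_lit 4)
  (nat_lit 78346) (nat_lit 17) (node (nat_lit 5) (nat_lit 77299) (nat_lit 18) (node (nat_lit 4)
  (nat_lit 72475) (nat_lit 19) (node (nat_lit 6) (nat_lit 66637) (nat_lit 20) (node (nat_lit 4)
  (nat_lit 59306) (nat_lit 21) (node (nat_lit 5) (nat_lit 44799) (nat_lit 22) (node (nat_lit 6)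
  (nat_lit 24976) (nat_lit 23) nil nil) nil) nil) nil) nil) nil) nil) nil) nil) nil) nil) nil)
  nil)) nil) nil) nil)) nil) nil) nil)) (node (nat_lit 5) (nat_lit 0) (nat_lit 4) (node (nat_lit
  4) (nat_lit 0) (nat_lit 5) t132 nil) nil)) (node (nat_lit 4) (nat_lit 0) (nat_lit 3) (node
  (nat_lit 3) (nat_lit 0) (nat_lit 4) (node (nat_lit 5) (nat_lit 0) (nat_lit 5) (node (nat_lit 7)
  (nat_lit 0) (nat_lit 6) (node (nat_lit 4) (nat_lit 0) (nat_lit 7) (node (nat_lit 5) (nat_lit 0)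
  (nat_lit 8) t133 (node (nat_lit 7) (nat_lit 0) (nat_lit 8) (node (nat_lit 5) (nat_lit 0)
  (nat_lit 9) (node (nat_lit 4) (nat_lit 0) (nat_lit 10) (node (nat_lit 5) (nat_lit 0) (nat_lit
  11) (node (nat_lit 7) (nat_lit 0) (nat_lit 12) (node (nat_lit 4) (nat_lit 90895) (nat_lit 13)
  (node (nat_lit 7) (nat_lit 90895) (nat_lit 14) (node (nat_lit 5) (nat_lit 90895) (nat_lit 15)
  (node (nat_lit 7) (nat_lit 90895) (nat_lit 16) (node (nat_lit 4) (nat_lit 91291) (nat_lit 17)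
  (node (nat_lit 5) (nat_lit 91291) (nat_lit 18) (node (nat_lit 4) (nat_lit 91291) (nat_lit 19)
  (node (nat_lit 7) (nat_lit 90493) (nat_lit 20) (node (nat_lit 5) (nat_lit 90213) (nat_lit 21)
  (node (nat_lit 7) (nat_lit 88840) (nat_lit 22) (node (nat_lit 4) (nat_lit 87106) (nat_lit 23)
  (node (nat_lit 7) (nat_lit 85872) (nat_lit 24) (node (nat_lit 5) (nat_lit 80845) (nat_lit 25)
  (node (nat_lit 4) (nat_lit 75692) (nat_lit 26) (node (nat_lit 5) (nat_lit 66497) (nat_lit 27)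
  (node (nat_lit 7) (nat_lit 53104) (nat_lit 28) (node (nat_lit 4) (nat_lit 28666) (nat_lit 29)
  nil nil) nil) nil) nil) nil) nil) nil) nil) nil) nil) nil) nil) nil) nil) nil) (node (nat_lit 5)
  (nat_lit 90895) (nat_lit 14) (node (nat_lit 4) (nat_lit 91009) (nat_lit 15) (node (nat_lit 7)
  (nat_lit 88802) (nat_lit 16) (node (nat_lit 5) (nat_lit 85376) (nat_lit 17) (node (nat_lit 7)
  (nat_lit 84314) (nat_lit 18) (node (nat_lit 4) (nat_lit 83028) (nat_lit 19) (node (nat_lit 7)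
  (nat_lit 47726) (nat_lit 20) (node (nat_lit 5) (nat_lit 47783) (nat_lit 21) (node (nat_lit 4)
  (nat_lit 19792) (nat_lit 22) nil nil) nil) nil) nil) nil) nil) nil) nil) nil)) (node (nat_lit 5)
  (nat_lit 90159) (nat_lit 13) (node (nat_lit 4) (nat_lit 91042) (nat_lit 14) (node (nat_lit 7)
  (nat_lit 91042) (nat_lit 15) (node (nat_lit 4) (nat_lit 91246) (nat_lit 16) (node (nat_lit 5)
  (nat_lit 91246) (nat_lit 17) (node (nat_lit 4) (nat_lit 91291) (nat_lit 18) (node (nat_lit 7)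
  (nat_lit 91291) (nat_lit 19) (node (nat_lit 5) (nat_lit 91291) (nat_lit 20) (node (nat_lit 7)
  (nat_lit 91291) (nat_lit 21) (node (nat_lit 4) (nat_lit 91291) (nat_lit 22) (node (nat_lit 7)
  (nat_lit 91291) (nat_lit 23) (node (nat_lit 5) (nat_lit 91291) (nat_lit 24) (node (nat_lit 4)
  (nat_lit 91291) (nat_lit 25) (node (nat_lit 5) (nat_lit 91291) (nat_lit 26) (node (nat_lit 7)
  (nat_lit 91291) (nat_lit 27) nil nil) nil) nil) nil) nil) nil) nil) nil) nil) nil) nil) nil)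
  nil) nil) (node (nat_lit 0) (nat_lit 90895) (nat_lit 13) nil (node (nat_lit 2) (nat_lit 89841)
  (nat_lit 13) nil nil)))) (node (nat_lit 0) (nat_lit 90607) (nat_lit 12) (node (nat_lit 7)
  (nat_lit 90708) (nat_lit 13) (node (nat_lit 4) (nat_lit 91042) (nat_lit 14) nil nil) nil) (node
  (nat_lit 2) (nat_lit 90159) (nat_lit 12) (node (nat_lit 4) (nat_lit 90895) (nat_lit 13) nil
  (node (nat_lit 5) (nat_lit 89841) (nat_lit 13) nil (node (nat_lit 7) (nat_lit 89075) (nat_lit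
  13) (node (nat_lit 4) (nat_lit 88641) (nat_lit 14) nil nil) nil))) nil))) (node (nat_lit 7)
  (nat_lit 0) (nat_lit 11) (node (nat_lit 4) (nat_lit 90607) (nat_lit 12) (node (nat_lit 5)
  (nat_lit 90708) (nat_lit 13) (node (nat_lit 4) (nat_lit 91042) (nat_lit 14) (node (nat_lit 7)
  (nat_lit 91042) (nat_lit 15) (node (nat_lit 5) (nat_lit 91042) (nat_lit 16) (node (nat_lit 7)
  (nat_lit 91042) (nat_lit 17) (node (nat_lit 4) (nat_lit 91291) (nat_lit 18) (node (nat_lit 7)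
  (nat_lit 91291) (nat_lit 19) (node (nat_lit 5) (nat_lit 91291) (nat_lit 20) nil nil) nil) nil)
  nil) nil) nil) nil) nil) (node (nat_lit 2) (nat_lit 90159) (nat_lit 12) (node (nat_lit 7)
  (nat_lit 89075) (nat_lit 13) (node (nat_lit 4) (nat_lit 88641) (nat_lit 14) nil nil) (node
  (nat_lit 4) (nat_lit 90895) (nat_lit 13) (node (nat_lit 7) (nat_lit 90895) (nat_lit 14) nil nil)
  nil)) (node (nat_lit 0) (nat_lit 90607) (nat_lit 12) nil nil))) (node (nat_lit 0) (nat_lit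
  89375) (nat_lit 11) (node (nat_lit 4) (nat_lit 90607) (nat_lit 12) nil (node (nat_lit 5)
  (nat_lit 88350) (nat_lit 12) (node (nat_lit 7) (nat_lit 89075) (nat_lit 13) nil nil) (node
  (nat_lit 7) (nat_lit 90467) (nat_lit 12) (node (nat_lit 4) (nat_lit 90895) (nat_lit 13) nil nil)
  nil))) (node (nat_lit 2) (nat_lit 89375) (nat_lit 11) (node (nat_lit 4) (nat_lit 90607) (nat_lit
  12) nil (node (nat_lit 5) (nat_lit 90159) (nat_lit 12) (node (nat_lit 7) (nat_lit 89075)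
  (nat_lit 13) nil nil) (node (nat_lit 7) (nat_lit 90159) (nat_lit 12) (node (nat_lit 4) (nat_lit
  90895) (nat_lit 13) nil nil) nil))) nil)))) (node (nat_lit 0) (nat_lit 87796) (nat_lit 10) (node
  (nat_lit 7) (nat_lit 89375) (nat_lit 11) (node (nat_lit 4) (nat_lit 90607) (nat_lit 12) (node
  (nat_lit 5) (nat_lit 90708) (nat_lit 13) nil nil) nil) (node (nat_lit 5) (nat_lit 89375)
  (nat_lit 11) (node (nat_lit 7) (nat_lit 87497) (nat_lit 12) nil (node (nat_lit 4) (nat_lit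
  90607) (nat_lit 12) nil nil)) (node (nat_lit 4) (nat_lit 89375) (nat_lit 11) (node (nat_lit 7)
  (nat_lit 90467) (nat_lit 12) nil nil) (node (nat_lit 2) (nat_lit 86466) (nat_lit 11) nil (node
  (nat_lit 0) (nat_lit 89375) (nat_lit 11) nil nil))))) (node (nat_lit 2) (nat_lit 87616) (nat_lit
  10) (node (nat_lit 7) (nat_lit 87616) (nat_lit 11) (node (nat_lit 4) (nat_lit 89714) (nat_lit
  12) (node (nat_lit 5) (nat_lit 89471) (nat_lit 13) nil nil) nil) (node (nat_lit 5) (nat_lit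
  87616) (nat_lit 11) (node (nat_lit 7) (nat_lit 87616) (nat_lit 12) (node (nat_lit 4) (nat_lit
  87808) (nat_lit 13) nil nil) (node (nat_lit 4) (nat_lit 89714) (nat_lit 12) nil nil)) (node
  (nat_lit 4) (nat_lit 89375) (nat_lit 11) (node (nat_lit 7) (nat_lit 89473) (nat_lit 12) nil nil)
  (node (nat_lit 0) (nat_lit 89375) (nat_lit 11) nil nil)))) nil))) (node (nat_lit 0) (nat_lit
  85051) (nat_lit 9) (node (nat_lit 7) (nat_lit 87796) (nat_lit 10) (node (nat_lit 4) (nat_lit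
  89375) (nat_lit 11) (node (nat_lit 5) (nat_lit 90344) (nat_lit 12) (node (nat_lit 4) (nat_lit
  90772) (nat_lit 13) (node (nat_lit 7) (nat_lit 90772) (nat_lit 14) (node (nat_lit 5) (nat_lit
  90772) (nat_lit 15) (node (nat_lit 7) (nat_lit 90772) (nat_lit 16) (node (nat_lit 4) (nat_lit
  91191) (nat_lit 17) nil nil) nil) nil) nil) nil) nil) nil) (node (nat_lit 5) (nat_lit 87014)
  (nat_lit 10) (node (nat_lit 7) (nat_lit 89196) (nat_lit 11) (node (nat_lit 4) (nat_lit 85163)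
  (nat_lit 12) nil nil) nil) (node (nat_lit 4) (nat_lit 87153) (nat_lit 10) (node (nat_lit 7)
  (nat_lit 88732) (nat_lit 11) nil nil) nil))) (node (nat_lit 2) (nat_lit 85051) (nat_lit 9) (node
  (nat_lit 7) (nat_lit 87616) (nat_lit 10) (node (nat_lit 4) (nat_lit 89375) (nat_lit 11) (node
  (nat_lit 5) (nat_lit 88428) (nat_lit 12) (node (nat_lit 4) (nat_lit 86333) (nat_lit 13) (node
  (nat_lit 7) (nat_lit 75118) (nat_lit 14) (node (nat_lit 5) (nat_lit 65200) (nat_lit 15) (node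
  (nat_lit 7) (nat_lit 53496) (nat_lit 16) (node (nat_lit 4) (nat_lit 34422) (nat_lit 17) nil nil)
  nil) nil) nil) nil) nil) (node (nat_lit 5) (nat_lit 87616) (nat_lit 11) nil nil)) (node (nat_lit
  5) (nat_lit 87014) (nat_lit 10) (node (nat_lit 7) (nat_lit 87581) (nat_lit 11) (node (nat_lit 4)
  (nat_lit 85163) (nat_lit 12) nil nil) (node (nat_lit 4) (nat_lit 88593) (nat_lit 11) nil nil))
  (node (nat_lit 4) (nat_lit 87153) (nat_lit 10) (node (nat_lit 7) (nat_lit 88732) (nat_lit 11)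
  nil nil) nil))) nil))) nil)) nil) (node (nat_lit 4) (nat_lit 0) (nat_lit 6) (node (nat_lit 5)
  (nat_lit 0) (nat_lit 7) (node (nat_lit 7) (nat_lit 78268) (nat_lit 8) (node (nat_lit 4) (nat_lit
  82190) (nat_lit 9) (node (nat_lit 7) (nat_lit 82190) (nat_lit 10) (node (nat_lit 5) (nat_lit
  82190) (nat_lit 11) (node (nat_lit 7) (nat_lit 82974) (nat_lit 12) (node (nat_lit 4) (nat_lit
  84435) (nat_lit 13) (node (nat_lit 5) (nat_lit 84435) (nat_lit 14) (node (nat_lit 4) (nat_lit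
  84952) (nat_lit 15) (node (nat_lit 7) (nat_lit 84952) (nat_lit 16) (node (nat_lit 5) (nat_lit
  82737) (nat_lit 17) (node (nat_lit 4) (nat_lit 80126) (nat_lit 18) (node (nat_lit 5) (nat_lit
  70781) (nat_lit 19) (node (nat_lit 7) (nat_lit 57223) (nat_lit 20) (node (nat_lit 4) (nat_lit
  46590) (nat_lit 21) (node (nat_lit 5) (nat_lit 46590) (nat_lit 22) (node (nat_lit 4) (nat_lit
  46700) (nat_lit 23) (node (nat_lit 7) (nat_lit 46700) (nat_lit 24) nil nil) nil) nil) nil) nil)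
  nil) nil) nil) nil) nil) nil) nil) nil) nil) (node (nat_lit 5) (nat_lit 78111) (nat_lit 10)
  (node (nat_lit 4) (nat_lit 79566) (nat_lit 11) (node (nat_lit 7) (nat_lit 71155) (nat_lit 12)
  (node (nat_lit 5) (nat_lit 0) (nat_lit 13) (node (nat_lit 7) (nat_lit 51086) (nat_lit 14) (node
  (nat_lit 4) (nat_lit 51564) (nat_lit 15) (node (nat_lit 7) (nat_lit 52134) (nat_lit 16) (node
  (nat_lit 5) (nat_lit 52291) (nat_lit 17) (node (nat_lit 4) (nat_lit 52569) (nat_lit 18) (node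
  (nat_lit 5) (nat_lit 52411) (nat_lit 19) nil nil) nil) nil) (node (nat_lit 5) (nat_lit 51763)
  (nat_lit 16) (node (nat_lit 4) (nat_lit 47674) (nat_lit 17) nil nil) nil)) nil) (node (nat_lit
  2) (nat_lit 50118) (nat_lit 14) (node (nat_lit 4) (nat_lit 50704) (nat_lit 15) nil nil) (node
  (nat_lit 0) (nat_lit 51201) (nat_lit 14) (node (nat_lit 4) (nat_lit 51787) (nat_lit 15) nil nil)
  nil))) (node (nat_lit 4) (nat_lit 71675) (nat_lit 13) (node (nat_lit 5) (nat_lit 72083) (nat_lit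
  14) nil nil) nil)) nil) nil) nil)) (node (nat_lit 5) (nat_lit 79900) (nat_lit 9) (node (nat_lit
  4) (nat_lit 82974) (nat_lit 10) (node (nat_lit 7) (nat_lit 82974) (nat_lit 11) (node (nat_lit 5)
  (nat_lit 82974) (nat_lit 12) (node (nat_lit 7) (nat_lit 83585) (nat_lit 13) (node (nat_lit 4)
  (nat_lit 84726) (nat_lit 14) (node (nat_lit 5) (nat_lit 84726) (nat_lit 15) (node (nat_lit 4)
  (nat_lit 85110) (nat_lit 16) (node (nat_lit 7) (nat_lit 85110) (nat_lit 17) (node (nat_lit 5)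
  (nat_lit 85012) (nat_lit 18) (node (nat_lit 4) (nat_lit 81905) (nat_lit 19) (node (nat_lit 5)
  (nat_lit 75029) (nat_lit 20) (node (nat_lit 7) (nat_lit 64489) (nat_lit 21) (node (nat_lit 5)
  (nat_lit 53408) (nat_lit 22) (node (nat_lit 4) (nat_lit 30911) (nat_lit 23) nil nil) nil) nil)
  nil) nil) nil) nil) nil) nil) nil) nil) (node (nat_lit 4) (nat_lit 84063) (nat_lit 12) (node
  (nat_lit 5) (nat_lit 84063) (nat_lit 13) (node (nat_lit 4) (nat_lit 84726) (nat_lit 14) (node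
  (nat_lit 7) (nat_lit 84726) (nat_lit 15) (node (nat_lit 5) (nat_lit 84726) (nat_lit 16) (node
  (nat_lit 4) (nat_lit 85178) (nat_lit 17) (node (nat_lit 5) (nat_lit 85178) (nat_lit 18) (node
  (nat_lit 7) (nat_lit 85178) (nat_lit 19) nil nil) nil) nil) nil) nil) nil) nil) nil)) nil) nil)
  nil)) nil) nil) nil)) (node (nat_lit 4) (nat_lit 0) (nat_lit 5) (node (nat_lit 5) (nat_lit 0)
  (nat_lit 6) (node (nat_lit 7) (nat_lit 0) (nat_lit 7) (node (nat_lit 4) (nat_lit 0) (nat_lit 8)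
  (node (nat_lit 7) (nat_lit 0) (nat_lit 9) (node (nat_lit 5) (nat_lit 0) (nat_lit 10) (node
  (nat_lit 4) (nat_lit 89461) (nat_lit 11) (node (nat_lit 7) (nat_lit 89461) (nat_lit 12) (node
  (nat_lit 4) (nat_lit 89889) (nat_lit 13) (node (nat_lit 5) (nat_lit 89889) (nat_lit 14) (node
  (nat_lit 4) (nat_lit 90151) (nat_lit 15) (node (nat_lit 7) (nat_lit 90151) (nat_lit 16) nil nil)
  nil) nil) nil) (node (nat_lit 5) (nat_lit 89461) (nat_lit 12) (node (nat_lit 7) (nat_lit 89461)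
  (nat_lit 13) (node (nat_lit 4) (nat_lit 90036) (nat_lit 14) (node (nat_lit 5) (nat_lit 90036)
  (nat_lit 15) (node (nat_lit 4) (nat_lit 90240) (nat_lit 16) (node (nat_lit 7) (nat_lit 90092)
  (nat_lit 17) (node (nat_lit 4) (nat_lit 87673) (nat_lit 18) (node (nat_lit 5) (nat_lit 85228)
  (nat_lit 19) (node (nat_lit 7) (nat_lit 78514) (nat_lit 20) (node (nat_lit 4) (nat_lit 71214)
  (nat_lit 21) (node (nat_lit 7) (nat_lit 56729) (nat_lit 22) (node (nat_lit 5) (nat_lit 36904)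
  (nat_lit 23) (node (nat_lit 4) (nat_lit 1227) (nat_lit 24) nil nil) nil) nil) nil) nil) nil)
  nil) nil) nil) nil) nil) nil) nil)) (node (nat_lit 7) (nat_lit 88252) (nat_lit 11) (node
  (nat_lit 4) (nat_lit 89702) (nat_lit 12) (node (nat_lit 5) (nat_lit 89314) (nat_lit 13) (node
  (nat_lit 4) (nat_lit 87356) (nat_lit 14) (node (nat_lit 7) (nat_lit 83748) (nat_lit 15) (node
  (nat_lit 4) (nat_lit 79592) (nat_lit 16) (node (nat_lit 5) (nat_lit 69904) (nat_lit 17) (node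
  (nat_lit 7) (nat_lit 56446) (nat_lit 18) (node (nat_lit 4) (nat_lit 39178) (nat_lit 19) nil nil)
  nil) nil) nil) nil) nil) nil) nil) (node (nat_lit 0) (nat_lit 89461) (nat_lit 11) nil (node
  (nat_lit 2) (nat_lit 88252) (nat_lit 11) (node (nat_lit 7) (nat_lit 88252) (nat_lit 12) (node
  (nat_lit 4) (nat_lit 89889) (nat_lit 13) nil nil) nil) nil)))) (node (nat_lit 0) (nat_lit 89153)
  (nat_lit 10) (node (nat_lit 7) (nat_lit 89153) (nat_lit 11) nil nil) (node (nat_lit 2) (nat_lit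
  87252) (nat_lit 10) (node (nat_lit 7) (nat_lit 88252) (nat_lit 11) nil nil) nil))) (node
  (nat_lit 0) (nat_lit 88759) (nat_lit 9) nil (node (nat_lit 2) (nat_lit 87021) (nat_lit 9) (node
  (nat_lit 7) (nat_lit 84440) (nat_lit 10) (node (nat_lit 4) (nat_lit 83671) (nat_lit 11) nil nil)
  nil) nil))) (node (nat_lit 5) (nat_lit 0) (nat_lit 8) (node (nat_lit 4) (nat_lit 85903) (nat_lit
  9) (node (nat_lit 5) (nat_lit 86423) (nat_lit 10) (node (nat_lit 7) (nat_lit 86861) (nat_lit 11)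
  (node (nat_lit 4) (nat_lit 87226) (nat_lit 12) (node (nat_lit 5) (nat_lit 87516) (nat_lit 13)
  (node (nat_lit 4) (nat_lit 87743) (nat_lit 14) (node (nat_lit 7) (nat_lit 87920) (nat_lit 15)
  (node (nat_lit 4) (nat_lit 82985) (nat_lit 16) (node (nat_lit 5) (nat_lit 75373) (nat_lit 17)
  (node (nat_lit 7) (nat_lit 64977) (nat_lit 18) (node (nat_lit 5) (nat_lit 45762) (nat_lit 19)
  (node (nat_lit 4) (nat_lit 16377) (nat_lit 20) nil nil) nil) nil) nil) nil) nil) nil) nil) nil)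
  nil) (node (nat_lit 0) (nat_lit 87926) (nat_lit 10) nil (node (nat_lit 2) (nat_lit 84298)
  (nat_lit 10) nil nil))) (node (nat_lit 0) (nat_lit 87685) (nat_lit 9) (node (nat_lit 7) (nat_lit
  88107) (nat_lit 10) (node (nat_lit 4) (nat_lit 88809) (nat_lit 11) nil nil) nil) (node (nat_lit
  2) (nat_lit 82310) (nat_lit 9) (node (nat_lit 4) (nat_lit 85754) (nat_lit 10) nil (node (nat_lit
  7) (nat_lit 82310) (nat_lit 10) (node (nat_lit 4) (nat_lit 83215) (nat_lit 11) nil nil) nil))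
  nil))) nil)) nil) nil) nil)) nil) nil))

noncomputable def c80 : Tr :=
  (node (nat_lit 3) (nat_lit 0) (nat_lit 1) (node (nat_lit 1) (nat_lit 0) (nat_lit 2) (node
  (nat_lit 3) (nat_lit 0) (nat_lit 3) (node (nat_lit 4) (nat_lit 0) (nat_lit 4) t122 (node
  (nat_lit 5) (nat_lit 0) (nat_lit 4) (node (nat_lit 4) (nat_lit 0) (nat_lit 5) (node (nat_lit 6)
  (nat_lit 0) (nat_lit 6) t123 (node (nat_lit 5) (nat_lit 0) (nat_lit 6) (node (nat_lit 6)
  (nat_lit 0) (nat_lit 7) (node (nat_lit 4) (nat_lit 0) (nat_lit 8) t124 nil) nil) nil)) nil)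
  nil)) (node (nat_lit 4) (nat_lit 0) (nat_lit 3) (node (nat_lit 3) (nat_lit 0) (nat_lit 4) (node
  (nat_lit 5) (nat_lit 0) (nat_lit 5) (node (nat_lit 7) (nat_lit 0) (nat_lit 6) (node (nat_lit 4)
  (nat_lit 0) (nat_lit 7) (node (nat_lit 5) (nat_lit 61006) (nat_lit 8) (node (nat_lit 4) (nat_lit
  61006) (nat_lit 9) nil (node (nat_lit 7) (nat_lit 61006) (nat_lit 9) (node (nat_lit 5) (nat_lit
  62511) (nat_lit 10) (node (nat_lit 4) (nat_lit 62511) (nat_lit 11) (node (nat_lit 5) (nat_lit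
  63059) (nat_lit 12) nil (node (nat_lit 7) (nat_lit 62511) (nat_lit 12) (node (nat_lit 5)
  (nat_lit 63547) (nat_lit 13) (node (nat_lit 7) (nat_lit 63547) (nat_lit 14) (node (nat_lit 4)
  (nat_lit 63547) (nat_lit 15) (node (nat_lit 7) (nat_lit 63547) (nat_lit 16) nil (node (nat_lit
  5) (nat_lit 63898) (nat_lit 16) (node (nat_lit 4) (nat_lit 63898) (nat_lit 17) (node (nat_lit 7)
  (nat_lit 63898) (nat_lit 18) (node (nat_lit 5) (nat_lit 64064) (nat_lit 19) (node (nat_lit 7)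
  (nat_lit 64064) (nat_lit 20) nil nil) nil) nil) nil) nil)) nil) nil) (node (nat_lit 4) (nat_lit
  62511) (nat_lit 13) (node (nat_lit 5) (nat_lit 63393) (nat_lit 14) (node (nat_lit 7) (nat_lit
  63393) (nat_lit 15) nil (node (nat_lit 4) (nat_lit 63393) (nat_lit 15) (node (nat_lit 7)
  (nat_lit 63393) (nat_lit 16) (node (nat_lit 5) (nat_lit 63666) (nat_lit 17) (node (nat_lit 7)
  (nat_lit 63666) (nat_lit 18) (node (nat_lit 4) (nat_lit 55603) (nat_lit 19) (node (nat_lit 5)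
  (nat_lit 38435) (nat_lit 20) (node (nat_lit 7) (nat_lit 1639) (nat_lit 21) nil nil) nil) nil)
  nil) nil) nil) nil)) nil) nil)) nil)) nil) nil) nil)) (node (nat_lit 7) (nat_lit 0) (nat_lit 8)
  (node (nat_lit 5) (nat_lit 59599) (nat_lit 9) (node (nat_lit 4) (nat_lit 59599) (nat_lit 10)
  (node (nat_lit 5) (nat_lit 60302) (nat_lit 11) (node (nat_lit 7) (nat_lit 60302) (nat_lit 12)
  (node (nat_lit 4) (nat_lit 60302) (nat_lit 13) (node (nat_lit 5) (nat_lit 60877) (nat_lit 14)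
  (node (nat_lit 4) (nat_lit 60877) (nat_lit 15) (node (nat_lit 7) (nat_lit 60877) (nat_lit 16)
  (node (nat_lit 5) (nat_lit 61150) (nat_lit 17) (node (nat_lit 7) (nat_lit 61150) (nat_lit 18)
  (node (nat_lit 4) (nat_lit 61150) (nat_lit 19) nil nil) nil) nil) nil) nil) nil) nil) nil) (node
  (nat_lit 7) (nat_lit 59599) (nat_lit 11) (node (nat_lit 4) (nat_lit 59599) (nat_lit 12) (node
  (nat_lit 5) (nat_lit 60730) (nat_lit 13) nil nil) nil) nil)) nil) (node (nat_lit 0) (nat_lit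
  57212) (nat_lit 9) nil (node (nat_lit 2) (nat_lit 54163) (nat_lit 9) nil nil))) nil)) nil) (node
  (nat_lit 4) (nat_lit 0) (nat_lit 6) (node (nat_lit 5) (nat_lit 0) (nat_lit 7) (node (nat_lit 7)
  (nat_lit 0) (nat_lit 8) t125 nil) nil) nil)) (node (nat_lit 4) (nat_lit 0) (nat_lit 5) (node
  (nat_lit 5) (nat_lit 0) (nat_lit 6) (node (nat_lit 7) (nat_lit 0) (nat_lit 7) t126 nil) nil)
  nil)) nil) nil)) (node (nat_lit 3) (nat_lit 0) (nat_lit 2) (node (nat_lit 1) (nat_lit 0)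
  (nat_lit 3) t130 (node (nat_lit 4) (nat_lit 0) (nat_lit 3) (node (nat_lit 1) (nat_lit 0)
  (nat_lit 4) (node (nat_lit 5) (nat_lit 0) (nat_lit 5) (node (nat_lit 7) (nat_lit 0) (nat_lit 6)
  (node (nat_lit 4) (nat_lit 0) (nat_lit 7) (node (nat_lit 5) (nat_lit 80847) (nat_lit 8) (node
  (nat_lit 4) (nat_lit 78171) (nat_lit 9) (node (nat_lit 7) (nat_lit 46898) (nat_lit 10) nil nil)
  (node (nat_lit 7) (nat_lit 86246) (nat_lit 9) (node (nat_lit 5) (nat_lit 88898) (nat_lit 10)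
  (node (nat_lit 4) (nat_lit 91239) (nat_lit 11) (node (nat_lit 5) (nat_lit 90213) (nat_lit 12)
  (node (nat_lit 7) (nat_lit 90938) (nat_lit 13) (node (nat_lit 4) (nat_lit 90505) (nat_lit 14)
  (node (nat_lit 5) (nat_lit 90323) (nat_lit 15) (node (nat_lit 4) (nat_lit 89835) (nat_lit 16)
  (node (nat_lit 7) (nat_lit 88000) (nat_lit 17) (node (nat_lit 5) (nat_lit 85424) (nat_lit 18)
  (node (nat_lit 7) (nat_lit 81981) (nat_lit 19) (node (nat_lit 4) (nat_lit 77298) (nat_lit 20)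
  (node (nat_lit 5) (nat_lit 68108) (nat_lit 21) (node (nat_lit 7) (nat_lit 53624) (nat_lit 22)
  (node (nat_lit 5) (nat_lit 22903) (nat_lit 23) nil nil) nil) nil) nil) nil) nil) nil) nil) nil)
  nil) nil) (node (nat_lit 7) (nat_lit 92465) (nat_lit 12) (node (nat_lit 5) (nat_lit 91699)
  (nat_lit 13) nil (node (nat_lit 4) (nat_lit 88921) (nat_lit 13) (node (nat_lit 5) (nat_lit
  88789) (nat_lit 14) (node (nat_lit 4) (nat_lit 87610) (nat_lit 15) (node (nat_lit 7) (nat_lit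
  85004) (nat_lit 16) (node (nat_lit 5) (nat_lit 80594) (nat_lit 17) (node (nat_lit 7) (nat_lit
  75620) (nat_lit 18) (node (nat_lit 4) (nat_lit 66310) (nat_lit 19) (node (nat_lit 5) (nat_lit
  48854) (nat_lit 20) nil nil) nil) nil) nil) nil) nil) nil) nil)) nil)) nil) nil) nil)) (node
  (nat_lit 7) (nat_lit 86338) (nat_lit 8) (node (nat_lit 5) (nat_lit 88426) (nat_lit 9) (node
  (nat_lit 4) (nat_lit 90355) (nat_lit 10) nil nil) nil) nil)) nil) (node (nat_lit 4) (nat_lit 0)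
  (nat_lit 6) (node (nat_lit 5) (nat_lit 0) (nat_lit 7) (node (nat_lit 7) (nat_lit 85707) (nat_lit
  8) (node (nat_lit 4) (nat_lit 87585) (nat_lit 9) (node (nat_lit 7) (nat_lit 87998) (nat_lit 10)
  (node (nat_lit 5) (nat_lit 88436) (nat_lit 11) (node (nat_lit 7) (nat_lit 88801) (nat_lit 12)
  (node (nat_lit 4) (nat_lit 89092) (nat_lit 13) (node (nat_lit 5) (nat_lit 89319) (nat_lit 14)
  (node (nat_lit 4) (nat_lit 89495) (nat_lit 15) (node (nat_lit 7) (nat_lit 89633) (nat_lit 16)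
  (node (nat_lit 5) (nat_lit 89738) (nat_lit 17) (node (nat_lit 4) (nat_lit 89823) (nat_lit 18)
  (node (nat_lit 5) (nat_lit 89886) (nat_lit 19) (node (nat_lit 7) (nat_lit 87918) (nat_lit 20)
  (node (nat_lit 4) (nat_lit 68037) (nat_lit 21) nil nil) nil) nil) nil) nil) nil) nil) nil) nil)
  nil) nil) (node (nat_lit 5) (nat_lit 85628) (nat_lit 10) (node (nat_lit 4) (nat_lit 87160)
  (nat_lit 11) (node (nat_lit 7) (nat_lit 88723) (nat_lit 12) (node (nat_lit 5) (nat_lit 40463)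
  (nat_lit 13) nil nil) nil) nil) nil)) (node (nat_lit 5) (nat_lit 86324) (nat_lit 9) (node
  (nat_lit 4) (nat_lit 86842) (nat_lit 10) (node (nat_lit 7) (nat_lit 87280) (nat_lit 11) (node
  (nat_lit 5) (nat_lit 87645) (nat_lit 12) (node (nat_lit 7) (nat_lit 87937) (nat_lit 13) (node
  (nat_lit 4) (nat_lit 88164) (nat_lit 14) (node (nat_lit 5) (nat_lit 88339) (nat_lit 15) (node
  (nat_lit 4) (nat_lit 88477) (nat_lit 16) (node (nat_lit 7) (nat_lit 88583) (nat_lit 17) (node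
  (nat_lit 5) (nat_lit 88668) (nat_lit 18) (node (nat_lit 4) (nat_lit 88731) (nat_lit 19) (node
  (nat_lit 5) (nat_lit 88782) (nat_lit 20) (node (nat_lit 7) (nat_lit 88820) (nat_lit 21) (node
  (nat_lit 5) (nat_lit 87163) (nat_lit 22) (node (nat_lit 4) (nat_lit 69353) (nat_lit 23) nil nil)
  nil) nil) nil) nil) nil) nil) nil) nil) nil) nil) (node (nat_lit 4) (nat_lit 87645) (nat_lit 12)
  (node (nat_lit 5) (nat_lit 87937) (nat_lit 13) (node (nat_lit 4) (nat_lit 88164) (nat_lit 14)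
  (node (nat_lit 7) (nat_lit 88339) (nat_lit 15) (node (nat_lit 5) (nat_lit 88477) (nat_lit 16)
  (node (nat_lit 4) (nat_lit 88583) (nat_lit 17) (node (nat_lit 5) (nat_lit 87629) (nat_lit 18)
  (node (nat_lit 7) (nat_lit 70899) (nat_lit 19) nil nil) nil) nil) nil) nil) nil) nil) nil)) nil)
  nil) nil)) nil) nil) nil)) (node (nat_lit 4) (nat_lit 0) (nat_lit 5) (node (nat_lit 5) (nat_lit
  0) (nat_lit 6) (node (nat_lit 7) (nat_lit 0) (nat_lit 7) (node (nat_lit 4) (nat_lit 0) (nat_lit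
  8) (node (nat_lit 7) (nat_lit 0) (nat_lit 9) (node (nat_lit 5) (nat_lit 0) (nat_lit 10) (node
  (nat_lit 4) (nat_lit 0) (nat_lit 11) (node (nat_lit 7) (nat_lit 78659) (nat_lit 12) nil (node
  (nat_lit 5) (nat_lit 81769) (nat_lit 12) (node (nat_lit 7) (nat_lit 82731) (nat_lit 13) (node
  (nat_lit 4) (nat_lit 83539) (nat_lit 14) (node (nat_lit 5) (nat_lit 84125) (nat_lit 15) (node
  (nat_lit 4) (nat_lit 84582) (nat_lit 16) (node (nat_lit 7) (nat_lit 84939) (nat_lit 17) (node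
  (nat_lit 4) (nat_lit 83446) (nat_lit 18) (node (nat_lit 5) (nat_lit 80836) (nat_lit 19) (node
  (nat_lit 7) (nat_lit 74122) (nat_lit 20) (node (nat_lit 4) (nat_lit 66822) (nat_lit 21) (node
  (nat_lit 7) (nat_lit 52337) (nat_lit 22) (node (nat_lit 5) (nat_lit 21476) (nat_lit 23) nil nil)
  nil) nil) nil) nil) nil) nil) nil) nil) nil) nil) (node (nat_lit 0) (nat_lit 81769) (nat_lit 12)
  nil (node (nat_lit 2) (nat_lit 79511) (nat_lit 12) nil nil)))) (node (nat_lit 7) (nat_lit 0)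
  (nat_lit 11) (node (nat_lit 4) (nat_lit 81826) (nat_lit 12) (node (nat_lit 5) (nat_lit 82789)
  (nat_lit 13) (node (nat_lit 4) (nat_lit 83539) (nat_lit 14) (node (nat_lit 7) (nat_lit 84125)
  (nat_lit 15) (node (nat_lit 4) (nat_lit 80714) (nat_lit 16) (node (nat_lit 5) (nat_lit 71662)
  (nat_lit 17) (node (nat_lit 7) (nat_lit 58530) (nat_lit 18) (node (nat_lit 4) (nat_lit 6271)
  (nat_lit 19) nil nil) nil) nil) nil) nil) nil) nil) (node (nat_lit 0) (nat_lit 81444) (nat_lit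
  12) nil (node (nat_lit 2) (nat_lit 79186) (nat_lit 12) (node (nat_lit 7) (nat_lit 79911)
  (nat_lit 13) (node (nat_lit 4) (nat_lit 79528) (nat_lit 14) nil nil) nil) nil))) (node (nat_lit
  0) (nat_lit 80537) (nat_lit 11) nil (node (nat_lit 2) (nat_lit 80212) (nat_lit 11) (node
  (nat_lit 5) (nat_lit 81444) (nat_lit 12) nil (node (nat_lit 7) (nat_lit 81444) (nat_lit 12)
  (node (nat_lit 4) (nat_lit 82789) (nat_lit 13) nil nil) (node (nat_lit 4) (nat_lit 81826)
  (nat_lit 12) nil nil))) nil)))) (node (nat_lit 0) (nat_lit 78874) (nat_lit 10) (node (nat_lit 4)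
  (nat_lit 80537) (nat_lit 11) nil (node (nat_lit 7) (nat_lit 80453) (nat_lit 11) nil nil)) (node
  (nat_lit 2) (nat_lit 78632) (nat_lit 10) (node (nat_lit 4) (nat_lit 80537) (nat_lit 11) (node
  (nat_lit 7) (nat_lit 81769) (nat_lit 12) nil nil) (node (nat_lit 5) (nat_lit 80212) (nat_lit 11)
  (node (nat_lit 7) (nat_lit 78334) (nat_lit 12) nil nil) (node (nat_lit 7) (nat_lit 80212)
  (nat_lit 11) nil nil))) nil))) (node (nat_lit 0) (nat_lit 76746) (nat_lit 9) (node (nat_lit 4)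
  (nat_lit 78874) (nat_lit 10) nil (node (nat_lit 7) (nat_lit 78769) (nat_lit 10) (node (nat_lit
  4) (nat_lit 80348) (nat_lit 11) nil nil) (node (nat_lit 5) (nat_lit 78769) (nat_lit 10) nil
  nil))) (node (nat_lit 2) (nat_lit 76609) (nat_lit 9) (node (nat_lit 4) (nat_lit 78874) (nat_lit
  10) (node (nat_lit 7) (nat_lit 80453) (nat_lit 11) nil nil) (node (nat_lit 7) (nat_lit 78632)
  (nat_lit 10) (node (nat_lit 4) (nat_lit 80537) (nat_lit 11) nil nil) (node (nat_lit 5) (nat_lit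
  78632) (nat_lit 10) nil nil))) nil))) (node (nat_lit 5) (nat_lit 0) (nat_lit 8) (node (nat_lit
  4) (nat_lit 0) (nat_lit 9) (node (nat_lit 7) (nat_lit 0) (nat_lit 10) (node (nat_lit 4) (nat_lit
  80594) (nat_lit 11) nil (node (nat_lit 5) (nat_lit 0) (nat_lit 11) (node (nat_lit 7) (nat_lit
  81674) (nat_lit 12) (node (nat_lit 4) (nat_lit 82789) (nat_lit 13) (node (nat_lit 5) (nat_lit
  83539) (nat_lit 14) (node (nat_lit 4) (nat_lit 84125) (nat_lit 15) (node (nat_lit 7) (nat_lit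
  84582) (nat_lit 16) (node (nat_lit 4) (nat_lit 84939) (nat_lit 17) (node (nat_lit 5) (nat_lit
  80203) (nat_lit 18) (node (nat_lit 7) (nat_lit 73111) (nat_lit 19) (node (nat_lit 5) (nat_lit
  64213) (nat_lit 20) (node (nat_lit 4) (nat_lit 48533) (nat_lit 21) (node (nat_lit 7) (nat_lit
  16139) (nat_lit 22) nil nil) nil) nil) nil) nil) nil) nil) nil) nil) nil) (node (nat_lit 2)
  (nat_lit 79416) (nat_lit 12) (node (nat_lit 7) (nat_lit 80141) (nat_lit 13) nil nil) (node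
  (nat_lit 0) (nat_lit 81674) (nat_lit 12) (node (nat_lit 7) (nat_lit 82636) (nat_lit 13) nil nil)
  nil))) (node (nat_lit 0) (nat_lit 80594) (nat_lit 11) (node (nat_lit 7) (nat_lit 81826) (nat_lit
  12) (node (nat_lit 4) (nat_lit 82789) (nat_lit 13) nil nil) (node (nat_lit 4) (nat_lit 79569)
  (nat_lit 12) nil nil)) (node (nat_lit 2) (nat_lit 80442) (nat_lit 11) (node (nat_lit 7) (nat_lit
  78564) (nat_lit 12) (node (nat_lit 4) (nat_lit 78190) (nat_lit 13) nil nil) (node (nat_lit 4)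
  (nat_lit 79416) (nat_lit 12) (node (nat_lit 7) (nat_lit 80141) (nat_lit 13) nil nil) (node
  (nat_lit 5) (nat_lit 79416) (nat_lit 12) nil nil))) nil)))) (node (nat_lit 5) (nat_lit 0)
  (nat_lit 10) (node (nat_lit 7) (nat_lit 0) (nat_lit 11) (node (nat_lit 4) (nat_lit 81826)
  (nat_lit 12) (node (nat_lit 5) (nat_lit 82789) (nat_lit 13) (node (nat_lit 4) (nat_lit 83539)
  (nat_lit 14) (node (nat_lit 7) (nat_lit 84125) (nat_lit 15) (node (nat_lit 4) (nat_lit 81513)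
  (nat_lit 16) (node (nat_lit 5) (nat_lit 73549) (nat_lit 17) (node (nat_lit 7) (nat_lit 58647)
  (nat_lit 18) (node (nat_lit 5) (nat_lit 1133) (nat_lit 19) nil nil) nil) nil) nil) nil) nil)
  nil) (node (nat_lit 0) (nat_lit 81674) (nat_lit 12) nil (node (nat_lit 2) (nat_lit 79416)
  (nat_lit 12) (node (nat_lit 7) (nat_lit 80141) (nat_lit 13) nil nil) nil))) (node (nat_lit 0)
  (nat_lit 80594) (nat_lit 11) (node (nat_lit 4) (nat_lit 81826) (nat_lit 12) nil (node (nat_lit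
  7) (nat_lit 81826) (nat_lit 12) nil nil)) (node (nat_lit 2) (nat_lit 80442) (nat_lit 11) (node
  (nat_lit 4) (nat_lit 81826) (nat_lit 12) nil (node (nat_lit 7) (nat_lit 81674) (nat_lit 12) nil
  nil)) nil))) (node (nat_lit 0) (nat_lit 78968) (nat_lit 10) (node (nat_lit 7) (nat_lit 80547)
  (nat_lit 11) (node (nat_lit 4) (nat_lit 81779) (nat_lit 12) (node (nat_lit 5) (nat_lit 82742)
  (nat_lit 13) nil nil) nil) (node (nat_lit 5) (nat_lit 80547) (nat_lit 11) nil (node (nat_lit 4)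
  (nat_lit 80594) (nat_lit 11) (node (nat_lit 7) (nat_lit 81826) (nat_lit 12) nil nil) nil)))
  (node (nat_lit 2) (nat_lit 78862) (nat_lit 10) (node (nat_lit 7) (nat_lit 80442) (nat_lit 11)
  (node (nat_lit 4) (nat_lit 81826) (nat_lit 12) (node (nat_lit 5) (nat_lit 76649) (nat_lit 13)
  nil nil) nil) (node (nat_lit 5) (nat_lit 80442) (nat_lit 11) (node (nat_lit 7) (nat_lit 81674)
  (nat_lit 12) (node (nat_lit 4) (nat_lit 78761) (nat_lit 13) nil nil) nil) (node (nat_lit 4)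
  (nat_lit 80594) (nat_lit 11) (node (nat_lit 7) (nat_lit 81826) (nat_lit 12) nil nil) (node
  (nat_lit 0) (nat_lit 80442) (nat_lit 11) nil nil)))) nil)))) (node (nat_lit 0) (nat_lit 76731)
  (nat_lit 9) (node (nat_lit 5) (nat_lit 78754) (nat_lit 10) nil (node (nat_lit 4) (nat_lit 78860)
  (nat_lit 10) nil (node (nat_lit 7) (nat_lit 78754) (nat_lit 10) (node (nat_lit 4) (nat_lit
  80333) (nat_lit 11) nil nil) nil))) (node (nat_lit 2) (nat_lit 72109) (nat_lit 9) (node (nat_lit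
  5) (nat_lit 74132) (nat_lit 10) nil (node (nat_lit 4) (nat_lit 78003) (nat_lit 10) (node
  (nat_lit 7) (nat_lit 79582) (nat_lit 11) nil nil) (node (nat_lit 7) (nat_lit 74132) (nat_lit 10)
  (node (nat_lit 4) (nat_lit 79664) (nat_lit 11) nil nil) nil))) nil))) nil)) nil) nil) nil)) nil)
  nil)) nil)) (node (nat_lit 1) (nat_lit 0) (nat_lit 1) (node (nat_lit 3) (nat_lit 0) (nat_lit 2)
  t134 nil) nil))

noncomputable def t135 : Tr :=
  (node (nat_lit 4) (nat_lit 0) (nat_lit 3) (node (nat_lit 0) (nat_lit 0) (nat_lit 4) (node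
  (nat_lit 5) (nat_lit 29031) (nat_lit 5) (node (nat_lit 4) (nat_lit 29878) (nat_lit 6) (node
  (nat_lit 5) (nat_lit 29987) (nat_lit 7) (node (nat_lit 7) (nat_lit 30062) (nat_lit 8) nil nil)
  (node (nat_lit 3) (nat_lit 29878) (nat_lit 7) (node (nat_lit 4) (nat_lit 30062) (nat_lit 8)
  (node (nat_lit 5) (nat_lit 30110) (nat_lit 9) (node (nat_lit 4) (nat_lit 30146) (nat_lit 10) nil
  nil) nil) nil) nil)) (node (nat_lit 7) (nat_lit 29484) (nat_lit 6) nil nil)) (node (nat_lit 4)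
  (nat_lit 29031) (nat_lit 5) (node (nat_lit 5) (nat_lit 29783) (nat_lit 6) (node (nat_lit 7)
  (nat_lit 29892) (nat_lit 7) nil nil) (node (nat_lit 3) (nat_lit 29031) (nat_lit 6) (node
  (nat_lit 4) (nat_lit 29355) (nat_lit 7) (node (nat_lit 5) (nat_lit 29430) (nat_lit 8) (node
  (nat_lit 4) (nat_lit 29478) (nat_lit 9) nil nil) nil) nil) nil)) (node (nat_lit 3) (nat_lit
  27030) (nat_lit 5) (node (nat_lit 4) (nat_lit 27630) (nat_lit 6) (node (nat_lit 5) (nat_lit
  27739) (nat_lit 7) nil nil) (node (nat_lit 5) (nat_lit 27630) (nat_lit 6) nil nil)) (node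
  (nat_lit 0) (nat_lit 28625) (nat_lit 5) nil (node (nat_lit 2) (nat_lit 27030) (nat_lit 5) (node
  (nat_lit 4) (nat_lit 27630) (nat_lit 6) nil (node (nat_lit 5) (nat_lit 27630) (nat_lit 6) nil
  (node (nat_lit 3) (nat_lit 23553) (nat_lit 6) nil nil))) nil))))) (node (nat_lit 2) (nat_lit 0)
  (nat_lit 4) (node (nat_lit 5) (nat_lit 0) (nat_lit 5) (node (nat_lit 4) (nat_lit 29900) (nat_lit
  6) (node (nat_lit 5) (nat_lit 30009) (nat_lit 7) (node (nat_lit 7) (nat_lit 30009) (nat_lit 8)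
  (node (nat_lit 4) (nat_lit 30132) (nat_lit 9) nil (node (nat_lit 5) (nat_lit 30132) (nat_lit 9)
  nil nil)) nil) (node (nat_lit 3) (nat_lit 29900) (nat_lit 7) (node (nat_lit 4) (nat_lit 30084)
  (nat_lit 8) (node (nat_lit 5) (nat_lit 30132) (nat_lit 9) (node (nat_lit 4) (nat_lit 30168)
  (nat_lit 10) nil nil) nil) nil) nil)) (node (nat_lit 7) (nat_lit 29147) (nat_lit 6) (node
  (nat_lit 4) (nat_lit 29875) (nat_lit 7) (node (nat_lit 7) (nat_lit 29252) (nat_lit 8) (node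
  (nat_lit 5) (nat_lit 29598) (nat_lit 9) (node (nat_lit 4) (nat_lit 29862) (nat_lit 10) nil nil)
  nil) (node (nat_lit 5) (nat_lit 29951) (nat_lit 8) nil nil)) (node (nat_lit 3) (nat_lit 26378)
  (nat_lit 7) nil (node (nat_lit 0) (nat_lit 29471) (nat_lit 7) nil (node (nat_lit 2) (nat_lit
  28199) (nat_lit 7) nil nil)))) (node (nat_lit 3) (nat_lit 29147) (nat_lit 6) (node (nat_lit 4)
  (nat_lit 29471) (nat_lit 7) (node (nat_lit 5) (nat_lit 29546) (nat_lit 8) (node (nat_lit 4)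
  (nat_lit 29594) (nat_lit 9) nil nil) nil) nil) (node (nat_lit 0) (nat_lit 29362) (nat_lit 6) nil
  (node (nat_lit 2) (nat_lit 28334) (nat_lit 6) (node (nat_lit 3) (nat_lit 28033) (nat_lit 7)
  (node (nat_lit 4) (nat_lit 26232) (nat_lit 8) (node (nat_lit 5) (nat_lit 23451) (nat_lit 9)
  (node (nat_lit 4) (nat_lit 18955) (nat_lit 10) nil nil) nil) nil) nil) nil))))) (node (nat_lit
  4) (nat_lit 0) (nat_lit 5) (node (nat_lit 5) (nat_lit 29622) (nat_lit 6) (node (nat_lit 7)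
  (nat_lit 29622) (nat_lit 7) (node (nat_lit 5) (nat_lit 29758) (nat_lit 8) nil (node (nat_lit 4)
  (nat_lit 29758) (nat_lit 8) nil nil)) nil) (node (nat_lit 3) (nat_lit 28957) (nat_lit 6) (node
  (nat_lit 4) (nat_lit 29281) (nat_lit 7) (node (nat_lit 5) (nat_lit 29356) (nat_lit 8) (node
  (nat_lit 4) (nat_lit 29404) (nat_lit 9) nil nil) nil) nil) (node (nat_lit 0) (nat_lit 29038)
  (nat_lit 6) nil (node (nat_lit 2) (nat_lit 26066) (nat_lit 6) nil nil)))) (node (nat_lit 3)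
  (nat_lit 24562) (nat_lit 5) (node (nat_lit 4) (nat_lit 25280) (nat_lit 6) (node (nat_lit 5)
  (nat_lit 16386) (nat_lit 7) (node (nat_lit 8) (nat_lit 16885) (nat_lit 8) (node (nat_lit 5)
  (nat_lit 17231) (nat_lit 9) nil nil) (node (nat_lit 7) (nat_lit 15227) (nat_lit 8) nil nil))
  (node (nat_lit 8) (nat_lit 26041) (nat_lit 7) nil nil)) (node (nat_lit 5) (nat_lit 27133)
  (nat_lit 6) nil (node (nat_lit 7) (nat_lit 25028) (nat_lit 6) (node (nat_lit 4) (nat_lit 27212)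
  (nat_lit 7) nil (node (nat_lit 5) (nat_lit 27212) (nat_lit 7) nil nil)) (node (nat_lit 0)
  (nat_lit 26519) (nat_lit 6) nil (node (nat_lit 2) (nat_lit 24562) (nat_lit 6) nil nil))))) (node
  (nat_lit 0) (nat_lit 28473) (nat_lit 5) nil (node (nat_lit 2) (nat_lit 24454) (nat_lit 5) (node
  (nat_lit 4) (nat_lit 26704) (nat_lit 6) nil (node (nat_lit 5) (nat_lit 26704) (nat_lit 6) nil
  (node (nat_lit 7) (nat_lit 24785) (nat_lit 6) nil (node (nat_lit 3) (nat_lit 24454) (nat_lit 6)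
  (node (nat_lit 4) (nat_lit 21751) (nat_lit 7) (node (nat_lit 5) (nat_lit 16117) (nat_lit 8) nil
  nil) nil) nil)))) nil))))) (node (nat_lit 3) (nat_lit 0) (nat_lit 4) (node (nat_lit 5) (nat_lit
  0) (nat_lit 5) (node (nat_lit 7) (nat_lit 28482) (nat_lit 6) (node (nat_lit 4) (nat_lit 30258)
  (nat_lit 7) (node (nat_lit 5) (nat_lit 30515) (nat_lit 8) (node (nat_lit 4) (nat_lit 30634)
  (nat_lit 9) (node (nat_lit 7) (nat_lit 30634) (nat_lit 10) nil nil) nil) nil) nil) (node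
  (nat_lit 0) (nat_lit 30000) (nat_lit 6) nil (node (nat_lit 2) (nat_lit 28136) (nat_lit 6) (node
  (nat_lit 7) (nat_lit 28910) (nat_lit 7) nil (node (nat_lit 5) (nat_lit 29792) (nat_lit 7) nil
  nil)) (node (nat_lit 4) (nat_lit 29497) (nat_lit 6) (node (nat_lit 5) (nat_lit 30410) (nat_lit
  7) (node (nat_lit 7) (nat_lit 30410) (nat_lit 8) (node (nat_lit 4) (nat_lit 30815) (nat_lit 9)
  (node (nat_lit 5) (nat_lit 30954) (nat_lit 10) (node (nat_lit 4) (nat_lit 31062) (nat_lit 11)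
  (node (nat_lit 7) (nat_lit 31062) (nat_lit 12) (node (nat_lit 5) (nat_lit 31193) (nat_lit 13)
  nil nil) nil) nil) nil) nil) nil) nil) nil)))) (node (nat_lit 0) (nat_lit 28902) (nat_lit 5)
  (node (nat_lit 7) (nat_lit 28902) (nat_lit 6) (node (nat_lit 4) (nat_lit 29226) (nat_lit 7)
  (node (nat_lit 5) (nat_lit 29302) (nat_lit 8) nil nil) nil) nil) (node (nat_lit 2) (nat_lit
  24589) (nat_lit 5) (node (nat_lit 5) (nat_lit 26839) (nat_lit 6) nil (node (nat_lit 7) (nat_lit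
  24717) (nat_lit 6) (node (nat_lit 4) (nat_lit 24732) (nat_lit 7) (node (nat_lit 5) (nat_lit
  15952) (nat_lit 8) nil nil) nil) (node (nat_lit 4) (nat_lit 27309) (nat_lit 6) (node (nat_lit 7)
  (nat_lit 27309) (nat_lit 7) (node (nat_lit 4) (nat_lit 27445) (nat_lit 8) nil nil) nil) nil)))
  (node (nat_lit 4) (nat_lit 0) (nat_lit 5) (node (nat_lit 5) (nat_lit 29418) (nat_lit 6) nil
  (node (nat_lit 0) (nat_lit 29114) (nat_lit 6) nil (node (nat_lit 2) (nat_lit 28751) (nat_lit 6)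
  (node (nat_lit 5) (nat_lit 29316) (nat_lit 7) (node (nat_lit 4) (nat_lit 29483) (nat_lit 8)
  (node (nat_lit 7) (nat_lit 29483) (nat_lit 9) nil nil) nil) nil) nil))) nil)))) nil))) (node
  (nat_lit 0) (nat_lit 0) (nat_lit 3) (node (nat_lit 5) (nat_lit 0) (nat_lit 4) (node (nat_lit 4)
  (nat_lit 76962) (nat_lit 5) (node (nat_lit 5) (nat_lit 77733) (nat_lit 6) (node (nat_lit 6)
  (nat_lit 27116) (nat_lit 7) (node (nat_lit 4) (nat_lit 27116) (nat_lit 8) (node (nat_lit 6)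
  (nat_lit 27116) (nat_lit 9) (node (nat_lit 5) (nat_lit 27116) (nat_lit 10) (node (nat_lit 4)
  (nat_lit 27116) (nat_lit 11) (node (nat_lit 5) (nat_lit 27116) (nat_lit 12) (node (nat_lit 6)
  (nat_lit 27116) (nat_lit 13) (node (nat_lit 5) (nat_lit 27116) (nat_lit 14) (node (nat_lit 4)
  (nat_lit 27116) (nat_lit 15) nil nil) nil) nil) nil) nil) nil) (node (nat_lit 5) (nat_lit 27116)
  (nat_lit 9) (node (nat_lit 4) (nat_lit 27116) (nat_lit 10) (node (nat_lit 6) (nat_lit 27116)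
  (nat_lit 11) (node (nat_lit 5) (nat_lit 27116) (nat_lit 12) (node (nat_lit 4) (nat_lit 27116)
  (nat_lit 13) (node (nat_lit 5) (nat_lit 27116) (nat_lit 14) (node (nat_lit 6) (nat_lit 27116)
  (nat_lit 15) (node (nat_lit 5) (nat_lit 27116) (nat_lit 16) (node (nat_lit 4) (nat_lit 27116)
  (nat_lit 17) nil nil) nil) nil) nil) nil) nil) nil) nil) (node (nat_lit 3) (nat_lit 27116)
  (nat_lit 9) (node (nat_lit 4) (nat_lit 27116) (nat_lit 10) (node (nat_lit 5) (nat_lit 27116)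
  (nat_lit 11) (node (nat_lit 6) (nat_lit 27116) (nat_lit 12) nil nil) nil) nil) nil))) (node
  (nat_lit 3) (nat_lit 27116) (nat_lit 8) (node (nat_lit 6) (nat_lit 27116) (nat_lit 9) (node
  (nat_lit 5) (nat_lit 27116) (nat_lit 10) (node (nat_lit 4) (nat_lit 27116) (nat_lit 11) nil nil)
  nil) (node (nat_lit 5) (nat_lit 27116) (nat_lit 9) (node (nat_lit 11) (nat_lit 27116) (nat_lit
  10) nil (node (nat_lit 4) (nat_lit 27116) (nat_lit 10) (node (nat_lit 5) (nat_lit 27116)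
  (nat_lit 11) nil nil) nil)) (node (nat_lit 4) (nat_lit 27116) (nat_lit 9) (node (nat_lit 5)
  (nat_lit 27116) (nat_lit 10) (node (nat_lit 6) (nat_lit 27116) (nat_lit 11) nil nil) nil) nil)))
  (node (nat_lit 2) (nat_lit 27116) (nat_lit 8) (node (nat_lit 6) (nat_lit 27116) (nat_lit 9)
  (node (nat_lit 5) (nat_lit 27116) (nat_lit 10) nil nil) (node (nat_lit 5) (nat_lit 27116)
  (nat_lit 9) (node (nat_lit 4) (nat_lit 27116) (nat_lit 10) nil (node (nat_lit 6) (nat_lit 27116)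
  (nat_lit 10) (node (nat_lit 5) (nat_lit 27116) (nat_lit 11) nil nil) nil)) nil)) (node (nat_lit
  0) (nat_lit 27116) (nat_lit 8) (node (nat_lit 6) (nat_lit 27116) (nat_lit 9) (node (nat_lit 5)
  (nat_lit 27116) (nat_lit 10) nil nil) (node (nat_lit 5) (nat_lit 27116) (nat_lit 9) (node
  (nat_lit 4) (nat_lit 27116) (nat_lit 10) nil (node (nat_lit 6) (nat_lit 27116) (nat_lit 10)
  (node (nat_lit 5) (nat_lit 27116) (nat_lit 11) nil nil) nil)) nil)) nil)))) nil) (node (nat_lit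
  3) (nat_lit 77733) (nat_lit 6) nil nil)) (node (nat_lit 3) (nat_lit 76727) (nat_lit 5) (node
  (nat_lit 4) (nat_lit 77186) (nat_lit 6) (node (nat_lit 5) (nat_lit 77305) (nat_lit 7) nil nil)
  nil) (node (nat_lit 0) (nat_lit 77016) (nat_lit 5) nil (node (nat_lit 2) (nat_lit 74327)
  (nat_lit 5) nil nil)))) (node (nat_lit 4) (nat_lit 73137) (nat_lit 4) (node (nat_lit 6) (nat_lit
  76840) (nat_lit 5) (node (nat_lit 5) (nat_lit 77010) (nat_lit 6) (node (nat_lit 4) (nat_lit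
  77129) (nat_lit 7) (node (nat_lit 5) (nat_lit 77212) (nat_lit 8) (node (nat_lit 6) (nat_lit
  77264) (nat_lit 9) nil nil) nil) nil) nil) (node (nat_lit 5) (nat_lit 77192) (nat_lit 5) nil
  (node (nat_lit 3) (nat_lit 75155) (nat_lit 5) nil nil))) (node (nat_lit 3) (nat_lit 73369)
  (nat_lit 4) (node (nat_lit 4) (nat_lit 74954) (nat_lit 5) (node (nat_lit 5) (nat_lit 75124)
  (nat_lit 6) (node (nat_lit 6) (nat_lit 45544) (nat_lit 7) nil nil) nil) (node (nat_lit 5)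
  (nat_lit 74037) (nat_lit 5) nil (node (nat_lit 6) (nat_lit 74954) (nat_lit 5) nil nil))) (node
  (nat_lit 0) (nat_lit 75441) (nat_lit 4) (node (nat_lit 5) (nat_lit 75730) (nat_lit 5) nil nil)
  (node (nat_lit 2) (nat_lit 73369) (nat_lit 4) (node (nat_lit 5) (nat_lit 74954) (nat_lit 5) nil
  (node (nat_lit 6) (nat_lit 74954) (nat_lit 5) nil nil)) nil))))) (node (nat_lit 2) (nat_lit 0)
  (nat_lit 3) (node (nat_lit 5) (nat_lit 0) (nat_lit 4) (node (nat_lit 4) (nat_lit 66108) (nat_lit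
  5) (node (nat_lit 6) (nat_lit 68099) (nat_lit 6) nil (node (nat_lit 5) (nat_lit 56263) (nat_lit
  6) (node (nat_lit 6) (nat_lit 27230) (nat_lit 7) (node (nat_lit 4) (nat_lit 27230) (nat_lit 8)
  (node (nat_lit 6) (nat_lit 27230) (nat_lit 9) (node (nat_lit 5) (nat_lit 27230) (nat_lit 10)
  (node (nat_lit 4) (nat_lit 27230) (nat_lit 11) (node (nat_lit 5) (nat_lit 27230) (nat_lit 12)
  (node (nat_lit 6) (nat_lit 27230) (nat_lit 13) (node (nat_lit 5) (nat_lit 27230) (nat_lit 14)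
  (node (nat_lit 4) (nat_lit 27230) (nat_lit 15) nil nil) nil) nil) nil) nil) (node (nat_lit 3)
  (nat_lit 27230) (nat_lit 10) nil nil)) (node (nat_lit 5) (nat_lit 27230) (nat_lit 9) (node
  (nat_lit 4) (nat_lit 27230) (nat_lit 10) (node (nat_lit 6) (nat_lit 27230) (nat_lit 11) (node
  (nat_lit 5) (nat_lit 27230) (nat_lit 12) (node (nat_lit 4) (nat_lit 27230) (nat_lit 13) (node
  (nat_lit 5) (nat_lit 27230) (nat_lit 14) (node (nat_lit 6) (nat_lit 27230) (nat_lit 15) (node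
  (nat_lit 5) (nat_lit 27230) (nat_lit 16) (node (nat_lit 4) (nat_lit 27230) (nat_lit 17) nil nil)
  nil) nil) nil) nil) nil) nil) nil) (node (nat_lit 3) (nat_lit 27230) (nat_lit 9) (node (nat_lit
  4) (nat_lit 27230) (nat_lit 10) (node (nat_lit 5) (nat_lit 27230) (nat_lit 11) (node (nat_lit 6)
  (nat_lit 27230) (nat_lit 12) (node (nat_lit 5) (nat_lit 27230) (nat_lit 13) nil nil) nil) nil)
  nil) nil))) (node (nat_lit 3) (nat_lit 27230) (nat_lit 8) (node (nat_lit 6) (nat_lit 27230)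
  (nat_lit 9) (node (nat_lit 5) (nat_lit 27230) (nat_lit 10) (node (nat_lit 4) (nat_lit 27230)
  (nat_lit 11) nil nil) nil) (node (nat_lit 5) (nat_lit 27230) (nat_lit 9) (node (nat_lit 11)
  (nat_lit 27230) (nat_lit 10) nil (node (nat_lit 4) (nat_lit 27230) (nat_lit 10) (node (nat_lit
  5) (nat_lit 27230) (nat_lit 11) nil nil) nil)) (node (nat_lit 4) (nat_lit 27230) (nat_lit 9)
  (node (nat_lit 5) (nat_lit 25673) (nat_lit 10) (node (nat_lit 6) (nat_lit 21950) (nat_lit 11)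
  (node (nat_lit 5) (nat_lit 17359) (nat_lit 12) nil nil) nil) nil) nil))) (node (nat_lit 0)
  (nat_lit 27230) (nat_lit 8) (node (nat_lit 6) (nat_lit 27230) (nat_lit 9) (node (nat_lit 5)
  (nat_lit 27230) (nat_lit 10) nil nil) (node (nat_lit 5) (nat_lit 27230) (nat_lit 9) (node
  (nat_lit 4) (nat_lit 27230) (nat_lit 10) (node (nat_lit 5) (nat_lit 27230) (nat_lit 11) nil nil)
  nil) nil)) (node (nat_lit 2) (nat_lit 27230) (nat_lit 8) (node (nat_lit 6) (nat_lit 27230)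
  (nat_lit 9) (node (nat_lit 5) (nat_lit 27230) (nat_lit 10) nil nil) (node (nat_lit 5) (nat_lit
  27230) (nat_lit 9) (node (nat_lit 4) (nat_lit 27230) (nat_lit 10) (node (nat_lit 5) (nat_lit
  27230) (nat_lit 11) nil nil) nil) nil)) nil)))) nil) (node (nat_lit 3) (nat_lit 69386) (nat_lit
  6) nil nil))) (node (nat_lit 3) (nat_lit 71341) (nat_lit 5) (node (nat_lit 4) (nat_lit 71993)
  (nat_lit 6) (node (nat_lit 5) (nat_lit 71993) (nat_lit 7) (node (nat_lit 6) (nat_lit 71993)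
  (nat_lit 8) nil nil) nil) (node (nat_lit 5) (nat_lit 71721) (nat_lit 6) (node (nat_lit 4)
  (nat_lit 68569) (nat_lit 7) nil nil) (node (nat_lit 6) (nat_lit 70204) (nat_lit 6) nil nil)))
  (node (nat_lit 0) (nat_lit 68691) (nat_lit 5) nil (node (nat_lit 2) (nat_lit 71166) (nat_lit 5)
  (node (nat_lit 6) (nat_lit 68550) (nat_lit 6) (node (nat_lit 5) (nat_lit 68564) (nat_lit 7) nil
  nil) (node (nat_lit 5) (nat_lit 67122) (nat_lit 6) (node (nat_lit 4) (nat_lit 65559) (nat_lit 7)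
  nil nil) nil)) nil)))) (node (nat_lit 4) (nat_lit 0) (nat_lit 4) (node (nat_lit 6) (nat_lit
  66098) (nat_lit 5) (node (nat_lit 5) (nat_lit 68122) (nat_lit 6) (node (nat_lit 6) (nat_lit
  69678) (nat_lit 7) nil (node (nat_lit 4) (nat_lit 71993) (nat_lit 7) (node (nat_lit 5) (nat_lit
  71842) (nat_lit 8) (node (nat_lit 6) (nat_lit 67112) (nat_lit 9) (node (nat_lit 4) (nat_lit
  60454) (nat_lit 10) (node (nat_lit 6) (nat_lit 27230) (nat_lit 11) nil nil) (node (nat_lit 5)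
  (nat_lit 67367) (nat_lit 10) (node (nat_lit 4) (nat_lit 67492) (nat_lit 11) nil nil) nil)) nil)
  nil) nil)) (node (nat_lit 3) (nat_lit 67923) (nat_lit 6) nil nil)) (node (nat_lit 5) (nat_lit
  66129) (nat_lit 5) (node (nat_lit 4) (nat_lit 68107) (nat_lit 6) (node (nat_lit 6) (nat_lit
  68076) (nat_lit 7) nil nil) (node (nat_lit 3) (nat_lit 67086) (nat_lit 6) nil nil)) (node
  (nat_lit 3) (nat_lit 71660) (nat_lit 5) (node (nat_lit 5) (nat_lit 71993) (nat_lit 6) nil (node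
  (nat_lit 4) (nat_lit 71993) (nat_lit 6) (node (nat_lit 5) (nat_lit 71993) (nat_lit 7) (node
  (nat_lit 6) (nat_lit 71993) (nat_lit 8) nil nil) nil) nil)) (node (nat_lit 0) (nat_lit 71949)
  (nat_lit 5) nil (node (nat_lit 2) (nat_lit 70873) (nat_lit 5) (node (nat_lit 5) (nat_lit 71177)
  (nat_lit 6) (node (nat_lit 4) (nat_lit 69790) (nat_lit 7) nil nil) (node (nat_lit 3) (nat_lit
  68331) (nat_lit 6) (node (nat_lit 4) (nat_lit 66037) (nat_lit 7) (node (nat_lit 5) (nat_lit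
  61825) (nat_lit 8) (node (nat_lit 6) (nat_lit 54173) (nat_lit 9) nil nil) nil) nil) nil))
  nil))))) (node (nat_lit 3) (nat_lit 0) (nat_lit 4) (node (nat_lit 4) (nat_lit 64120) (nat_lit 5)
  (node (nat_lit 5) (nat_lit 46116) (nat_lit 6) (node (nat_lit 7) (nat_lit 46116) (nat_lit 7)
  (node (nat_lit 5) (nat_lit 46116) (nat_lit 8) (node (nat_lit 4) (nat_lit 46116) (nat_lit 9) nil
  nil) nil) (node (nat_lit 4) (nat_lit 46116) (nat_lit 7) nil (node (nat_lit 6) (nat_lit 44155)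
  (nat_lit 7) nil nil))) (node (nat_lit 6) (nat_lit 64391) (nat_lit 6) (node (nat_lit 5) (nat_lit
  64151) (nat_lit 7) (node (nat_lit 4) (nat_lit 63260) (nat_lit 8) nil (node (nat_lit 7) (nat_lit
  63654) (nat_lit 8) nil nil)) nil) (node (nat_lit 7) (nat_lit 65188) (nat_lit 6) nil nil))) (node
  (nat_lit 5) (nat_lit 71065) (nat_lit 5) (node (nat_lit 7) (nat_lit 71913) (nat_lit 6) (node
  (nat_lit 4) (nat_lit 71993) (nat_lit 7) nil nil) (node (nat_lit 4) (nat_lit 70432) (nat_lit 6)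
  (node (nat_lit 5) (nat_lit 57954) (nat_lit 7) (node (nat_lit 6) (nat_lit 29561) (nat_lit 8)
  (node (nat_lit 5) (nat_lit 29940) (nat_lit 9) nil nil) nil) nil) nil)) (node (nat_lit 6)
  (nat_lit 66780) (nat_lit 5) (node (nat_lit 5) (nat_lit 71191) (nat_lit 6) (node (nat_lit 6)
  (nat_lit 71191) (nat_lit 7) nil nil) nil) (node (nat_lit 0) (nat_lit 67837) (nat_lit 5) (node
  (nat_lit 7) (nat_lit 67837) (nat_lit 6) (node (nat_lit 5) (nat_lit 68126) (nat_lit 7) (node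
  (nat_lit 7) (nat_lit 68126) (nat_lit 8) nil nil) (node (nat_lit 4) (nat_lit 68126) (nat_lit 7)
  nil nil)) nil) (node (nat_lit 2) (nat_lit 65426) (nat_lit 5) (node (nat_lit 6) (nat_lit 65351)
  (nat_lit 6) nil (node (nat_lit 5) (nat_lit 68023) (nat_lit 6) nil (node (nat_lit 7) (nat_lit
  65426) (nat_lit 6) (node (nat_lit 5) (nat_lit 66206) (nat_lit 7) (node (nat_lit 7) (nat_lit
  66893) (nat_lit 8) nil nil) (node (nat_lit 4) (nat_lit 64848) (nat_lit 7) (node (nat_lit 5)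
  (nat_lit 54427) (nat_lit 8) nil nil) nil)) nil))) nil))))) (node (nat_lit 0) (nat_lit 71075)
  (nat_lit 4) (node (nat_lit 5) (nat_lit 71364) (nat_lit 5) (node (nat_lit 4) (nat_lit 71533)
  (nat_lit 6) nil nil) (node (nat_lit 6) (nat_lit 70499) (nat_lit 5) (node (nat_lit 5) (nat_lit
  71533) (nat_lit 6) nil nil) nil)) (node (nat_lit 2) (nat_lit 64952) (nat_lit 4) (node (nat_lit
  5) (nat_lit 68735) (nat_lit 5) (node (nat_lit 6) (nat_lit 64974) (nat_lit 6) nil (node (nat_lit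
  4) (nat_lit 68863) (nat_lit 6) (node (nat_lit 5) (nat_lit 64049) (nat_lit 7) (node (nat_lit 6)
  (nat_lit 35898) (nat_lit 8) nil nil) nil) nil)) (node (nat_lit 6) (nat_lit 66214) (nat_lit 5)
  (node (nat_lit 5) (nat_lit 66171) (nat_lit 6) nil nil) (node (nat_lit 4) (nat_lit 70395)
  (nat_lit 5) nil (node (nat_lit 3) (nat_lit 65471) (nat_lit 5) (node (nat_lit 4) (nat_lit 59843)
  (nat_lit 6) (node (nat_lit 5) (nat_lit 44507) (nat_lit 7) (node (nat_lit 6) (nat_lit 44269)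
  (nat_lit 8) nil nil) nil) nil) nil)))) nil))))) (node (nat_lit 3) (nat_lit 0) (nat_lit 3) (node
  (nat_lit 4) (nat_lit 0) (nat_lit 4) (node (nat_lit 6) (nat_lit 65777) (nat_lit 5) (node (nat_lit
  5) (nat_lit 72275) (nat_lit 6) (node (nat_lit 4) (nat_lit 72564) (nat_lit 7) (node (nat_lit 5)
  (nat_lit 72717) (nat_lit 8) (node (nat_lit 6) (nat_lit 69500) (nat_lit 9) (node (nat_lit 4)
  (nat_lit 60467) (nat_lit 10) (node (nat_lit 6) (nat_lit 28366) (nat_lit 11) nil nil) nil) nil)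
  nil) nil) nil) (node (nat_lit 5) (nat_lit 35505) (nat_lit 5) nil (node (nat_lit 0) (nat_lit
  71991) (nat_lit 5) nil (node (nat_lit 2) (nat_lit 71419) (nat_lit 5) nil nil)))) (node (nat_lit
  0) (nat_lit 71455) (nat_lit 4) (node (nat_lit 5) (nat_lit 72624) (nat_lit 5) (node (nat_lit 6)
  (nat_lit 72624) (nat_lit 6) (node (nat_lit 5) (nat_lit 72963) (nat_lit 7) nil nil) nil) (node
  (nat_lit 4) (nat_lit 72624) (nat_lit 5) nil (node (nat_lit 6) (nat_lit 71455) (nat_lit 5) (node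
  (nat_lit 5) (nat_lit 72080) (nat_lit 6) nil nil) nil))) (node (nat_lit 2) (nat_lit 64840)
  (nat_lit 4) (node (nat_lit 5) (nat_lit 72114) (nat_lit 5) (node (nat_lit 6) (nat_lit 72114)
  (nat_lit 6) (node (nat_lit 5) (nat_lit 72478) (nat_lit 7) nil (node (nat_lit 4) (nat_lit 72478)
  (nat_lit 7) nil nil)) (node (nat_lit 4) (nat_lit 69988) (nat_lit 6) nil nil)) (node (nat_lit 4)
  (nat_lit 72123) (nat_lit 5) (node (nat_lit 6) (nat_lit 72123) (nat_lit 6) nil nil) (node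
  (nat_lit 6) (nat_lit 65983) (nat_lit 5) (node (nat_lit 5) (nat_lit 69949) (nat_lit 6) nil (node
  (nat_lit 4) (nat_lit 69919) (nat_lit 6) (node (nat_lit 5) (nat_lit 62106) (nat_lit 7) (node
  (nat_lit 6) (nat_lit 46116) (nat_lit 8) nil nil) nil) nil)) nil))) (node (nat_lit 5) (nat_lit 0)
  (nat_lit 4) (node (nat_lit 4) (nat_lit 0) (nat_lit 5) (node (nat_lit 6) (nat_lit 72179) (nat_lit
  6) (node (nat_lit 4) (nat_lit 74247) (nat_lit 7) nil nil) (node (nat_lit 0) (nat_lit 74091)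
  (nat_lit 6) nil (node (nat_lit 2) (nat_lit 68705) (nat_lit 6) nil (node (nat_lit 5) (nat_lit
  52022) (nat_lit 6) (node (nat_lit 6) (nat_lit 30003) (nat_lit 7) (node (nat_lit 4) (nat_lit
  30668) (nat_lit 8) nil nil) nil) nil)))) (node (nat_lit 0) (nat_lit 73598) (nat_lit 5) nil (node
  (nat_lit 2) (nat_lit 71708) (nat_lit 5) nil nil))) nil)))) nil))))

noncomputable def t136 : Tr :=
  (node (nat_lit 0) (nat_lit 0) (nat_lit 3) (node (nat_lit 5) (nat_lit 73346) (nat_lit 4) (node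
  (nat_lit 4) (nat_lit 76099) (nat_lit 5) (node (nat_lit 5) (nat_lit 74506) (nat_lit 6) (node
  (nat_lit 6) (nat_lit 45159) (nat_lit 7) nil nil) nil) (node (nat_lit 1) (nat_lit 76336) (nat_lit
  5) (node (nat_lit 4) (nat_lit 72850) (nat_lit 6) (node (nat_lit 5) (nat_lit 65514) (nat_lit 7)
  (node (nat_lit 6) (nat_lit 41566) (nat_lit 8) (node (nat_lit 8) (nat_lit 41865) (nat_lit 9) nil
  nil) nil) nil) (node (nat_lit 5) (nat_lit 77183) (nat_lit 6) nil nil)) nil)) (node (nat_lit 4)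
  (nat_lit 74362) (nat_lit 4) (node (nat_lit 6) (nat_lit 76049) (nat_lit 5) (node (nat_lit 5)
  (nat_lit 74456) (nat_lit 6) (node (nat_lit 4) (nat_lit 75111) (nat_lit 7) (node (nat_lit 5)
  (nat_lit 74122) (nat_lit 8) (node (nat_lit 6) (nat_lit 74422) (nat_lit 9) (node (nat_lit 4)
  (nat_lit 74650) (nat_lit 10) (node (nat_lit 6) (nat_lit 44849) (nat_lit 11) nil nil) nil) nil)
  nil) nil) nil) (node (nat_lit 5) (nat_lit 75089) (nat_lit 5) (node (nat_lit 4) (nat_lit 77594)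
  (nat_lit 6) (node (nat_lit 6) (nat_lit 77747) (nat_lit 7) (node (nat_lit 5) (nat_lit 77635)
  (nat_lit 8) (node (nat_lit 4) (nat_lit 77912) (nat_lit 9) (node (nat_lit 5) (nat_lit 77278)
  (nat_lit 10) (node (nat_lit 6) (nat_lit 77479) (nat_lit 11) (node (nat_lit 4) (nat_lit 77660)
  (nat_lit 12) (node (nat_lit 5) (nat_lit 77359) (nat_lit 13) (node (nat_lit 4) (nat_lit 77473)
  (nat_lit 14) (node (nat_lit 6) (nat_lit 45612) (nat_lit 15) nil nil) nil) nil) nil) nil) nil)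
  nil) nil) nil) nil) (node (nat_lit 1) (nat_lit 76049) (nat_lit 5) nil nil))) (node (nat_lit 1)
  (nat_lit 75053) (nat_lit 4) (node (nat_lit 4) (nat_lit 76739) (nat_lit 5) (node (nat_lit 5)
  (nat_lit 77587) (nat_lit 6) nil nil) (node (nat_lit 5) (nat_lit 75586) (nat_lit 5) (node
  (nat_lit 7) (nat_lit 73890) (nat_lit 6) (node (nat_lit 6) (nat_lit 74545) (nat_lit 7) nil nil)
  nil) (node (nat_lit 6) (nat_lit 76739) (nat_lit 5) (node (nat_lit 5) (nat_lit 75147) (nat_lit 6)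
  nil nil) nil))) (node (nat_lit 0) (nat_lit 74652) (nat_lit 4) (node (nat_lit 5) (nat_lit 72696)
  (nat_lit 5) (node (nat_lit 6) (nat_lit 73544) (nat_lit 6) nil (node (nat_lit 4) (nat_lit 73544)
  (nat_lit 6) nil nil)) nil) (node (nat_lit 2) (nat_lit 73665) (nat_lit 4) (node (nat_lit 5)
  (nat_lit 71902) (nat_lit 5) (node (nat_lit 6) (nat_lit 72749) (nat_lit 6) (node (nat_lit 5)
  (nat_lit 71567) (nat_lit 7) nil nil) (node (nat_lit 4) (nat_lit 69323) (nat_lit 6) (node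
  (nat_lit 5) (nat_lit 61036) (nat_lit 7) (node (nat_lit 6) (nat_lit 46365) (nat_lit 8) nil nil)
  nil) nil)) (node (nat_lit 6) (nat_lit 75544) (nat_lit 5) nil (node (nat_lit 4) (nat_lit 75544)
  (nat_lit 5) (node (nat_lit 7) (nat_lit 73951) (nat_lit 6) (node (nat_lit 5) (nat_lit 72770)
  (nat_lit 7) nil nil) nil) nil))) nil))))) (node (nat_lit 2) (nat_lit 0) (nat_lit 3) (node
  (nat_lit 5) (nat_lit 0) (nat_lit 4) (node (nat_lit 4) (nat_lit 62461) (nat_lit 5) (node (nat_lit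
  6) (nat_lit 64483) (nat_lit 6) (node (nat_lit 5) (nat_lit 66679) (nat_lit 7) (node (nat_lit 6)
  (nat_lit 67906) (nat_lit 8) nil (node (nat_lit 1) (nat_lit 69345) (nat_lit 8) nil nil)) (node
  (nat_lit 4) (nat_lit 67214) (nat_lit 7) nil nil)) (node (nat_lit 5) (nat_lit 46651) (nat_lit 6)
  (node (nat_lit 6) (nat_lit 45976) (nat_lit 7) nil (node (nat_lit 1) (nat_lit 46651) (nat_lit 7)
  nil nil)) (node (nat_lit 1) (nat_lit 67698) (nat_lit 6) (node (nat_lit 5) (nat_lit 66583)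
  (nat_lit 7) nil (node (nat_lit 4) (nat_lit 68358) (nat_lit 7) (node (nat_lit 5) (nat_lit 68358)
  (nat_lit 8) (node (nat_lit 6) (nat_lit 67938) (nat_lit 9) nil nil) nil) nil)) (node (nat_lit 0)
  (nat_lit 67698) (nat_lit 6) nil (node (nat_lit 2) (nat_lit 65654) (nat_lit 6) nil nil))))) (node
  (nat_lit 1) (nat_lit 69869) (nat_lit 5) (node (nat_lit 4) (nat_lit 70871) (nat_lit 6) (node
  (nat_lit 5) (nat_lit 61439) (nat_lit 7) (node (nat_lit 6) (nat_lit 49191) (nat_lit 8) nil (node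
  (nat_lit 8) (nat_lit 62966) (nat_lit 8) nil nil)) (node (nat_lit 8) (nat_lit 71820) (nat_lit 7)
  nil nil)) (node (nat_lit 5) (nat_lit 68634) (nat_lit 6) (node (nat_lit 4) (nat_lit 69766)
  (nat_lit 7) (node (nat_lit 5) (nat_lit 69766) (nat_lit 8) (node (nat_lit 6) (nat_lit 69089)
  (nat_lit 9) nil nil) nil) nil) (node (nat_lit 6) (nat_lit 70044) (nat_lit 6) nil nil))) (node
  (nat_lit 0) (nat_lit 69869) (nat_lit 5) (node (nat_lit 5) (nat_lit 68634) (nat_lit 6) nil nil)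
  (node (nat_lit 2) (nat_lit 64619) (nat_lit 5) (node (nat_lit 6) (nat_lit 64653) (nat_lit 6)
  (node (nat_lit 5) (nat_lit 64680) (nat_lit 7) nil nil) (node (nat_lit 5) (nat_lit 64657)
  (nat_lit 6) (node (nat_lit 4) (nat_lit 68308) (nat_lit 7) (node (nat_lit 5) (nat_lit 63035)
  (nat_lit 8) nil nil) nil) (node (nat_lit 4) (nat_lit 72447) (nat_lit 6) nil (node (nat_lit 1)
  (nat_lit 68383) (nat_lit 6) nil (node (nat_lit 0) (nat_lit 70779) (nat_lit 6) nil nil)))))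
  nil)))) (node (nat_lit 4) (nat_lit 0) (nat_lit 4) (node (nat_lit 6) (nat_lit 65339) (nat_lit 5)
  (node (nat_lit 5) (nat_lit 67255) (nat_lit 6) (node (nat_lit 6) (nat_lit 70726) (nat_lit 7)
  (node (nat_lit 4) (nat_lit 72031) (nat_lit 8) (node (nat_lit 5) (nat_lit 72345) (nat_lit 9)
  (node (nat_lit 6) (nat_lit 72394) (nat_lit 10) (node (nat_lit 5) (nat_lit 72441) (nat_lit 11)
  (node (nat_lit 4) (nat_lit 72485) (nat_lit 12) (node (nat_lit 5) (nat_lit 72521) (nat_lit 13)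
  (node (nat_lit 6) (nat_lit 72550) (nat_lit 14) (node (nat_lit 4) (nat_lit 72572) (nat_lit 15)
  (node (nat_lit 6) (nat_lit 72356) (nat_lit 16) (node (nat_lit 5) (nat_lit 68770) (nat_lit 17)
  (node (nat_lit 6) (nat_lit 64989) (nat_lit 18) (node (nat_lit 4) (nat_lit 59137) (nat_lit 19)
  (node (nat_lit 5) (nat_lit 46651) (nat_lit 20) nil nil) nil) nil) nil) nil) nil) nil) nil) nil)
  nil) nil) nil) nil) (node (nat_lit 4) (nat_lit 71104) (nat_lit 7) (node (nat_lit 5) (nat_lit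
  69021) (nat_lit 8) (node (nat_lit 6) (nat_lit 64623) (nat_lit 9) (node (nat_lit 4) (nat_lit
  46651) (nat_lit 10) (node (nat_lit 6) (nat_lit 45976) (nat_lit 11) nil nil) nil) nil) nil) nil))
  (node (nat_lit 1) (nat_lit 69512) (nat_lit 6) nil nil)) (node (nat_lit 5) (nat_lit 65348)
  (nat_lit 5) (node (nat_lit 4) (nat_lit 67244) (nat_lit 6) (node (nat_lit 6) (nat_lit 72088)
  (nat_lit 7) (node (nat_lit 5) (nat_lit 72533) (nat_lit 8) (node (nat_lit 4) (nat_lit 72745)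
  (nat_lit 9) (node (nat_lit 5) (nat_lit 70916) (nat_lit 10) (node (nat_lit 6) (nat_lit 66765)
  (nat_lit 11) (node (nat_lit 4) (nat_lit 61519) (nat_lit 12) (node (nat_lit 5) (nat_lit 50637)
  (nat_lit 13) (node (nat_lit 4) (nat_lit 43356) (nat_lit 14) (node (nat_lit 6) (nat_lit 42409)
  (nat_lit 15) nil nil) nil) nil) nil) nil) nil) nil) nil) nil) nil) (node (nat_lit 1) (nat_lit
  72913) (nat_lit 5) (node (nat_lit 4) (nat_lit 72913) (nat_lit 6) (node (nat_lit 5) (nat_lit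
  72913) (nat_lit 7) (node (nat_lit 6) (nat_lit 72913) (nat_lit 8) nil nil) nil) nil) (node
  (nat_lit 0) (nat_lit 72601) (nat_lit 5) nil (node (nat_lit 2) (nat_lit 72913) (nat_lit 5) (node
  (nat_lit 5) (nat_lit 69957) (nat_lit 6) (node (nat_lit 4) (nat_lit 68331) (nat_lit 7) nil nil)
  nil) nil))))) (node (nat_lit 1) (nat_lit 0) (nat_lit 4) (node (nat_lit 4) (nat_lit 61104)
  (nat_lit 5) (node (nat_lit 5) (nat_lit 48026) (nat_lit 6) (node (nat_lit 4) (nat_lit 48859)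
  (nat_lit 7) nil (node (nat_lit 6) (nat_lit 25225) (nat_lit 7) nil nil)) (node (nat_lit 7)
  (nat_lit 62610) (nat_lit 6) (node (nat_lit 6) (nat_lit 63450) (nat_lit 7) nil nil) nil)) (node
  (nat_lit 5) (nat_lit 72680) (nat_lit 5) (node (nat_lit 7) (nat_lit 72913) (nat_lit 6) (node
  (nat_lit 6) (nat_lit 72292) (nat_lit 7) (node (nat_lit 5) (nat_lit 71061) (nat_lit 8) nil nil)
  (node (nat_lit 4) (nat_lit 65541) (nat_lit 7) nil nil)) (node (nat_lit 4) (nat_lit 72913)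
  (nat_lit 6) (node (nat_lit 7) (nat_lit 72913) (nat_lit 7) (node (nat_lit 4) (nat_lit 72913)
  (nat_lit 8) (node (nat_lit 5) (nat_lit 72913) (nat_lit 9) nil nil) nil) (node (nat_lit 5)
  (nat_lit 72569) (nat_lit 7) nil nil)) nil)) (node (nat_lit 6) (nat_lit 72913) (nat_lit 5) (node
  (nat_lit 5) (nat_lit 72913) (nat_lit 6) (node (nat_lit 6) (nat_lit 72569) (nat_lit 7) (node
  (nat_lit 7) (nat_lit 72302) (nat_lit 8) nil nil) nil) nil) (node (nat_lit 0) (nat_lit 71329)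
  (nat_lit 5) (node (nat_lit 7) (nat_lit 72913) (nat_lit 6) nil nil) (node (nat_lit 2) (nat_lit
  67040) (nat_lit 5) (node (nat_lit 5) (nat_lit 63353) (nat_lit 6) nil nil) nil))))) (node
  (nat_lit 0) (nat_lit 72249) (nat_lit 4) (node (nat_lit 5) (nat_lit 69590) (nat_lit 5) (node
  (nat_lit 6) (nat_lit 67545) (nat_lit 6) nil (node (nat_lit 4) (nat_lit 70733) (nat_lit 6) (node
  (nat_lit 5) (nat_lit 69193) (nat_lit 7) nil nil) nil)) (node (nat_lit 6) (nat_lit 69590)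
  (nat_lit 5) nil nil)) (node (nat_lit 2) (nat_lit 0) (nat_lit 4) (node (nat_lit 5) (nat_lit
  64856) (nat_lit 5) (node (nat_lit 6) (nat_lit 64856) (nat_lit 6) (node (nat_lit 5) (nat_lit
  64856) (nat_lit 7) (node (nat_lit 7) (nat_lit 64851) (nat_lit 8) nil nil) (node (nat_lit 4)
  (nat_lit 71806) (nat_lit 7) nil nil)) (node (nat_lit 7) (nat_lit 64856) (nat_lit 6) nil (node
  (nat_lit 4) (nat_lit 68146) (nat_lit 6) (node (nat_lit 5) (nat_lit 58119) (nat_lit 7) (node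
  (nat_lit 6) (nat_lit 42606) (nat_lit 8) nil nil) nil) nil))) (node (nat_lit 6) (nat_lit 64789)
  (nat_lit 5) (node (nat_lit 5) (nat_lit 64790) (nat_lit 6) (node (nat_lit 6) (nat_lit 64790)
  (nat_lit 7) nil (node (nat_lit 4) (nat_lit 67418) (nat_lit 7) nil nil)) (node (nat_lit 4)
  (nat_lit 72913) (nat_lit 6) nil nil)) (node (nat_lit 4) (nat_lit 72913) (nat_lit 5) nil (node
  (nat_lit 1) (nat_lit 69837) (nat_lit 5) nil (node (nat_lit 0) (nat_lit 72913) (nat_lit 5) nil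
  nil))))) nil))))) (node (nat_lit 1) (nat_lit 0) (nat_lit 3) (node (nat_lit 4) (nat_lit 0)
  (nat_lit 4) (node (nat_lit 6) (nat_lit 0) (nat_lit 5) (node (nat_lit 5) (nat_lit 49656) (nat_lit
  6) (node (nat_lit 4) (nat_lit 51219) (nat_lit 7) (node (nat_lit 5) (nat_lit 52332) (nat_lit 8)
  (node (nat_lit 6) (nat_lit 53166) (nat_lit 9) (node (nat_lit 4) (nat_lit 53817) (nat_lit 10)
  (node (nat_lit 5) (nat_lit 54325) (nat_lit 11) (node (nat_lit 4) (nat_lit 54722) (nat_lit 12)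
  nil nil) (node (nat_lit 6) (nat_lit 26128) (nat_lit 11) nil nil)) (node (nat_lit 5) (nat_lit
  53817) (nat_lit 10) nil nil)) nil) (node (nat_lit 6) (nat_lit 52332) (nat_lit 8) nil nil)) (node
  (nat_lit 6) (nat_lit 51219) (nat_lit 7) (node (nat_lit 4) (nat_lit 52332) (nat_lit 8) nil (node
  (nat_lit 0) (nat_lit 54209) (nat_lit 8) nil (node (nat_lit 2) (nat_lit 54209) (nat_lit 8) nil
  nil))) (node (nat_lit 0) (nat_lit 53100) (nat_lit 7) nil (node (nat_lit 2) (nat_lit 53100)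
  (nat_lit 7) nil nil)))) (node (nat_lit 0) (nat_lit 50834) (nat_lit 6) (node (nat_lit 6) (nat_lit
  52644) (nat_lit 7) nil nil) (node (nat_lit 2) (nat_lit 49370) (nat_lit 6) (node (nat_lit 4)
  (nat_lit 51846) (nat_lit 7) nil (node (nat_lit 6) (nat_lit 51180) (nat_lit 7) (node (nat_lit 4)
  (nat_lit 52644) (nat_lit 8) nil nil) (node (nat_lit 5) (nat_lit 51846) (nat_lit 7) nil (node
  (nat_lit 0) (nat_lit 51180) (nat_lit 7) nil (node (nat_lit 2) (nat_lit 51180) (nat_lit 7) nil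
  nil))))) nil))) (node (nat_lit 5) (nat_lit 0) (nat_lit 5) (node (nat_lit 4) (nat_lit 27199)
  (nat_lit 6) (node (nat_lit 6) (nat_lit 28054) (nat_lit 7) (node (nat_lit 5) (nat_lit 28054)
  (nat_lit 8) nil nil) (node (nat_lit 0) (nat_lit 28196) (nat_lit 7) nil (node (nat_lit 2)
  (nat_lit 27789) (nat_lit 7) nil nil))) (node (nat_lit 0) (nat_lit 27547) (nat_lit 6) nil (node
  (nat_lit 2) (nat_lit 26008) (nat_lit 6) (node (nat_lit 4) (nat_lit 27084) (nat_lit 7) nil (node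
  (nat_lit 5) (nat_lit 24986) (nat_lit 7) (node (nat_lit 4) (nat_lit 23982) (nat_lit 8) nil nil)
  (node (nat_lit 6) (nat_lit 27084) (nat_lit 7) nil nil))) nil))) (node (nat_lit 0) (nat_lit
  50920) (nat_lit 5) (node (nat_lit 5) (nat_lit 52366) (nat_lit 6) (node (nat_lit 4) (nat_lit
  53154) (nat_lit 7) (node (nat_lit 5) (nat_lit 53672) (nat_lit 8) nil nil) nil) (node (nat_lit 4)
  (nat_lit 52586) (nat_lit 6) (node (nat_lit 6) (nat_lit 53374) (nat_lit 7) (node (nat_lit 8)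
  (nat_lit 53892) (nat_lit 8) nil nil) nil) (node (nat_lit 6) (nat_lit 52153) (nat_lit 6) nil
  nil))) (node (nat_lit 2) (nat_lit 0) (nat_lit 5) (node (nat_lit 5) (nat_lit 51658) (nat_lit 6)
  (node (nat_lit 6) (nat_lit 52836) (nat_lit 7) (node (nat_lit 5) (nat_lit 53355) (nat_lit 8) nil
  nil) nil) (node (nat_lit 4) (nat_lit 51824) (nat_lit 6) (node (nat_lit 6) (nat_lit 52611)
  (nat_lit 7) (node (nat_lit 8) (nat_lit 53129) (nat_lit 8) (node (nat_lit 6) (nat_lit 53488)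
  (nat_lit 9) (node (nat_lit 4) (nat_lit 50572) (nat_lit 10) nil nil) nil) nil) nil) (node
  (nat_lit 6) (nat_lit 50869) (nat_lit 6) (node (nat_lit 8) (nat_lit 51656) (nat_lit 7) (node
  (nat_lit 4) (nat_lit 52175) (nat_lit 8) nil nil) (node (nat_lit 4) (nat_lit 50862) (nat_lit 7)
  nil nil)) (node (nat_lit 0) (nat_lit 51396) (nat_lit 6) nil (node (nat_lit 2) (nat_lit 50022)
  (nat_lit 6) nil nil))))) nil)))) (node (nat_lit 0) (nat_lit 67747) (nat_lit 4) (node (nat_lit 5)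
  (nat_lit 72680) (nat_lit 5) (node (nat_lit 6) (nat_lit 73626) (nat_lit 6) (node (nat_lit 5)
  (nat_lit 74162) (nat_lit 7) (node (nat_lit 7) (nat_lit 74370) (nat_lit 8) nil nil) (node
  (nat_lit 4) (nat_lit 67530) (nat_lit 7) nil nil)) (node (nat_lit 4) (nat_lit 73926) (nat_lit 6)
  nil nil)) (node (nat_lit 4) (nat_lit 73214) (nat_lit 5) nil (node (nat_lit 6) (nat_lit 72735)
  (nat_lit 5) (node (nat_lit 5) (nat_lit 71541) (nat_lit 6) nil (node (nat_lit 4) (nat_lit 73980)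
  (nat_lit 6) (node (nat_lit 5) (nat_lit 74599) (nat_lit 7) nil nil) nil)) nil))) (node (nat_lit
  2) (nat_lit 0) (nat_lit 4) (node (nat_lit 5) (nat_lit 68468) (nat_lit 5) (node (nat_lit 6)
  (nat_lit 70801) (nat_lit 6) (node (nat_lit 5) (nat_lit 71420) (nat_lit 7) (node (nat_lit 7)
  (nat_lit 70541) (nat_lit 8) (node (nat_lit 5) (nat_lit 69831) (nat_lit 9) nil nil) nil) (node
  (nat_lit 4) (nat_lit 66843) (nat_lit 7) (node (nat_lit 5) (nat_lit 59525) (nat_lit 8) (node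
  (nat_lit 6) (nat_lit 47344) (nat_lit 9) nil nil) nil) nil)) (node (nat_lit 7) (nat_lit 69733)
  (nat_lit 6) (node (nat_lit 6) (nat_lit 70639) (nat_lit 7) nil nil) (node (nat_lit 4) (nat_lit
  69303) (nat_lit 6) (node (nat_lit 5) (nat_lit 62557) (nat_lit 7) (node (nat_lit 6) (nat_lit
  46925) (nat_lit 8) (node (nat_lit 7) (nat_lit 44194) (nat_lit 9) nil nil) nil) nil) nil))) (node
  (nat_lit 4) (nat_lit 71795) (nat_lit 5) (node (nat_lit 6) (nat_lit 73041) (nat_lit 6) nil nil)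
  (node (nat_lit 6) (nat_lit 64960) (nat_lit 5) (node (nat_lit 5) (nat_lit 67257) (nat_lit 6)
  (node (nat_lit 7) (nat_lit 68561) (nat_lit 7) (node (nat_lit 5) (nat_lit 67682) (nat_lit 8) nil
  nil) nil) (node (nat_lit 4) (nat_lit 69935) (nat_lit 6) (node (nat_lit 5) (nat_lit 65755)
  (nat_lit 7) (node (nat_lit 6) (nat_lit 48791) (nat_lit 8) (node (nat_lit 5) (nat_lit 49149)
  (nat_lit 9) nil nil) nil) nil) nil)) (node (nat_lit 0) (nat_lit 66735) (nat_lit 5) nil (node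
  (nat_lit 2) (nat_lit 68406) (nat_lit 5) (node (nat_lit 6) (nat_lit 67468) (nat_lit 6) nil nil)
  nil))))) (node (nat_lit 5) (nat_lit 0) (nat_lit 4) (node (nat_lit 4) (nat_lit 0) (nat_lit 5)
  (node (nat_lit 6) (nat_lit 65869) (nat_lit 6) (node (nat_lit 4) (nat_lit 73871) (nat_lit 7)
  (node (nat_lit 5) (nat_lit 74925) (nat_lit 8) (node (nat_lit 6) (nat_lit 74925) (nat_lit 9)
  (node (nat_lit 5) (nat_lit 74925) (nat_lit 10) nil nil) nil) nil) (node (nat_lit 5) (nat_lit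
  73530) (nat_lit 7) nil nil)) (node (nat_lit 0) (nat_lit 73819) (nat_lit 6) nil (node (nat_lit 2)
  (nat_lit 73130) (nat_lit 6) nil (node (nat_lit 5) (nat_lit 65826) (nat_lit 6) (node (nat_lit 6)
  (nat_lit 42077) (nat_lit 7) nil nil) nil)))) (node (nat_lit 0) (nat_lit 72188) (nat_lit 5) nil
  (node (nat_lit 2) (nat_lit 68056) (nat_lit 5) (node (nat_lit 4) (nat_lit 72765) (nat_lit 6) nil
  nil) nil))) nil)))) nil)))

noncomputable def t137 : Tr :=
  (node (nat_lit 4) (nat_lit 0) (nat_lit 4) (node (nat_lit 6) (nat_lit 51794) (nat_lit 5) (node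
  (nat_lit 5) (nat_lit 55307) (nat_lit 6) (node (nat_lit 6) (nat_lit 56869) (nat_lit 7) (node
  (nat_lit 0) (nat_lit 59860) (nat_lit 8) (node (nat_lit 5) (nat_lit 60299) (nat_lit 9) nil nil)
  (node (nat_lit 3) (nat_lit 59860) (nat_lit 8) (node (nat_lit 5) (nat_lit 60299) (nat_lit 9)
  (node (nat_lit 6) (nat_lit 60571) (nat_lit 10) nil nil) (node (nat_lit 6) (nat_lit 60299)
  (nat_lit 9) nil nil)) (node (nat_lit 2) (nat_lit 59860) (nat_lit 8) (node (nat_lit 5) (nat_lit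
  60299) (nat_lit 9) nil nil) (node (nat_lit 4) (nat_lit 57982) (nat_lit 8) (node (nat_lit 5)
  (nat_lit 58816) (nat_lit 9) (node (nat_lit 4) (nat_lit 59468) (nat_lit 10) (node (nat_lit 6)
  (nat_lit 59976) (nat_lit 11) (node (nat_lit 4) (nat_lit 60372) (nat_lit 12) (node (nat_lit 5)
  (nat_lit 60682) (nat_lit 13) (node (nat_lit 6) (nat_lit 60923) (nat_lit 14) (node (nat_lit 4)
  (nat_lit 61112) (nat_lit 15) (node (nat_lit 6) (nat_lit 61259) (nat_lit 16) (node (nat_lit 5)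
  (nat_lit 61374) (nat_lit 17) (node (nat_lit 6) (nat_lit 61463) (nat_lit 18) (node (nat_lit 4)
  (nat_lit 61533) (nat_lit 19) (node (nat_lit 5) (nat_lit 61588) (nat_lit 20) nil nil) nil) nil)
  nil) nil) nil) nil) nil) nil) nil) nil) nil) nil)))) (node (nat_lit 4) (nat_lit 56869) (nat_lit
  7) (node (nat_lit 5) (nat_lit 57982) (nat_lit 8) nil (node (nat_lit 6) (nat_lit 57982) (nat_lit
  8) (node (nat_lit 4) (nat_lit 58816) (nat_lit 9) (node (nat_lit 5) (nat_lit 59468) (nat_lit 10)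
  (node (nat_lit 6) (nat_lit 59976) (nat_lit 11) (node (nat_lit 4) (nat_lit 60372) (nat_lit 12)
  (node (nat_lit 6) (nat_lit 60682) (nat_lit 13) (node (nat_lit 5) (nat_lit 60923) (nat_lit 14)
  (node (nat_lit 4) (nat_lit 25955) (nat_lit 15) nil nil) nil) nil) nil) nil) nil) nil) nil))
  (node (nat_lit 3) (nat_lit 58750) (nat_lit 7) nil nil))) (node (nat_lit 3) (nat_lit 55020)
  (nat_lit 6) (node (nat_lit 4) (nat_lit 57496) (nat_lit 7) (node (nat_lit 5) (nat_lit 58606)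
  (nat_lit 8) (node (nat_lit 6) (nat_lit 59045) (nat_lit 9) (node (nat_lit 4) (nat_lit 59317)
  (nat_lit 10) nil nil) nil) nil) (node (nat_lit 6) (nat_lit 56831) (nat_lit 7) nil (node (nat_lit
  5) (nat_lit 57496) (nat_lit 7) nil nil))) (node (nat_lit 0) (nat_lit 56484) (nat_lit 6) nil
  (node (nat_lit 2) (nat_lit 55020) (nat_lit 6) (node (nat_lit 4) (nat_lit 57496) (nat_lit 7) nil
  nil) nil)))) (node (nat_lit 5) (nat_lit 0) (nat_lit 5) (node (nat_lit 4) (nat_lit 25955)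
  (nat_lit 6) (node (nat_lit 6) (nat_lit 25955) (nat_lit 7) (node (nat_lit 4) (nat_lit 25955)
  (nat_lit 8) (node (nat_lit 5) (nat_lit 25955) (nat_lit 9) nil (node (nat_lit 0) (nat_lit 25955)
  (nat_lit 9) nil (node (nat_lit 3) (nat_lit 25955) (nat_lit 9) (node (nat_lit 6) (nat_lit 25955)
  (nat_lit 10) nil (node (nat_lit 4) (nat_lit 25955) (nat_lit 10) (node (nat_lit 5) (nat_lit
  25955) (nat_lit 11) (node (nat_lit 6) (nat_lit 25955) (nat_lit 12) (node (nat_lit 4) (nat_lit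
  25955) (nat_lit 13) nil nil) nil) nil) nil)) (node (nat_lit 2) (nat_lit 25955) (nat_lit 9) (node
  (nat_lit 6) (nat_lit 25955) (nat_lit 10) nil nil) nil)))) (node (nat_lit 5) (nat_lit 25955)
  (nat_lit 8) (node (nat_lit 6) (nat_lit 25955) (nat_lit 9) nil nil) nil)) (node (nat_lit 3)
  (nat_lit 25955) (nat_lit 7) nil nil)) (node (nat_lit 3) (nat_lit 25955) (nat_lit 6) (node
  (nat_lit 6) (nat_lit 25955) (nat_lit 7) (node (nat_lit 4) (nat_lit 25955) (nat_lit 8) (node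
  (nat_lit 6) (nat_lit 25955) (nat_lit 9) (node (nat_lit 9) (nat_lit 25955) (nat_lit 10) nil nil)
  (node (nat_lit 9) (nat_lit 25955) (nat_lit 9) (node (nat_lit 4) (nat_lit 25955) (nat_lit 10)
  (node (nat_lit 5) (nat_lit 25955) (nat_lit 11) nil nil) nil) nil)) (node (nat_lit 9) (nat_lit
  25955) (nat_lit 8) (node (nat_lit 4) (nat_lit 25955) (nat_lit 9) (node (nat_lit 5) (nat_lit
  25955) (nat_lit 10) nil nil) nil) nil)) (node (nat_lit 4) (nat_lit 25955) (nat_lit 7) (node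
  (nat_lit 5) (nat_lit 15453) (nat_lit 8) (node (nat_lit 4) (nat_lit 15832) (nat_lit 9) (node
  (nat_lit 9) (nat_lit 16120) (nat_lit 10) nil nil) nil) nil) nil)) (node (nat_lit 0) (nat_lit
  25955) (nat_lit 6) nil (node (nat_lit 2) (nat_lit 25955) (nat_lit 6) nil nil)))) (node (nat_lit
  3) (nat_lit 55286) (nat_lit 5) (node (nat_lit 5) (nat_lit 57699) (nat_lit 6) (node (nat_lit 8)
  (nat_lit 56339) (nat_lit 7) nil (node (nat_lit 4) (nat_lit 58487) (nat_lit 7) nil nil)) (node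
  (nat_lit 4) (nat_lit 57474) (nat_lit 6) (node (nat_lit 6) (nat_lit 58262) (nat_lit 7) nil (node
  (nat_lit 5) (nat_lit 58262) (nat_lit 7) (node (nat_lit 6) (nat_lit 58780) (nat_lit 8) (node
  (nat_lit 4) (nat_lit 25291) (nat_lit 9) nil nil) nil) nil)) (node (nat_lit 6) (nat_lit 56519)
  (nat_lit 6) (node (nat_lit 8) (nat_lit 57307) (nat_lit 7) nil (node (nat_lit 4) (nat_lit 56009)
  (nat_lit 7) (node (nat_lit 5) (nat_lit 48043) (nat_lit 8) (node (nat_lit 6) (nat_lit 32279)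
  (nat_lit 9) nil nil) nil) nil)) nil))) (node (nat_lit 0) (nat_lit 56570) (nat_lit 5) (node
  (nat_lit 6) (nat_lit 57803) (nat_lit 6) (node (nat_lit 4) (nat_lit 58591) (nat_lit 7) (node
  (nat_lit 5) (nat_lit 59109) (nat_lit 8) (node (nat_lit 6) (nat_lit 59468) (nat_lit 9) nil nil)
  nil) nil) (node (nat_lit 4) (nat_lit 58237) (nat_lit 6) (node (nat_lit 6) (nat_lit 59024)
  (nat_lit 7) (node (nat_lit 4) (nat_lit 59542) (nat_lit 8) nil nil) nil) (node (nat_lit 3)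
  (nat_lit 54789) (nat_lit 6) nil nil))) (node (nat_lit 2) (nat_lit 54864) (nat_lit 5) (node
  (nat_lit 6) (nat_lit 56519) (nat_lit 6) (node (nat_lit 4) (nat_lit 53434) (nat_lit 7) (node
  (nat_lit 5) (nat_lit 48688) (nat_lit 8) (node (nat_lit 6) (nat_lit 32925) (nat_lit 9) nil nil)
  nil) nil) (node (nat_lit 4) (nat_lit 57474) (nat_lit 6) (node (nat_lit 6) (nat_lit 58262)
  (nat_lit 7) (node (nat_lit 4) (nat_lit 58780) (nat_lit 8) nil nil) nil) (node (nat_lit 3)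
  (nat_lit 54052) (nat_lit 6) nil nil))) nil))))) (node (nat_lit 5) (nat_lit 0) (nat_lit 4) (node
  (nat_lit 4) (nat_lit 63790) (nat_lit 5) (node (nat_lit 6) (nat_lit 66864) (nat_lit 6) (node
  (nat_lit 4) (nat_lit 72335) (nat_lit 7) (node (nat_lit 5) (nat_lit 72335) (nat_lit 8) (node
  (nat_lit 6) (nat_lit 72335) (nat_lit 9) (node (nat_lit 5) (nat_lit 72335) (nat_lit 10) (node
  (nat_lit 4) (nat_lit 25955) (nat_lit 11) nil nil) (node (nat_lit 4) (nat_lit 72335) (nat_lit 10)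
  (node (nat_lit 6) (nat_lit 72335) (nat_lit 11) (node (nat_lit 5) (nat_lit 72335) (nat_lit 12)
  (node (nat_lit 6) (nat_lit 72335) (nat_lit 13) (node (nat_lit 4) (nat_lit 72335) (nat_lit 14)
  (node (nat_lit 5) (nat_lit 72335) (nat_lit 15) (node (nat_lit 6) (nat_lit 72335) (nat_lit 16)
  (node (nat_lit 5) (nat_lit 72335) (nat_lit 17) (node (nat_lit 4) (nat_lit 72335) (nat_lit 18)
  (node (nat_lit 6) (nat_lit 72335) (nat_lit 19) (node (nat_lit 4) (nat_lit 72335) (nat_lit 20)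
  (node (nat_lit 5) (nat_lit 71758) (nat_lit 21) (node (nat_lit 6) (nat_lit 67746) (nat_lit 22)
  (node (nat_lit 4) (nat_lit 60636) (nat_lit 23) (node (nat_lit 6) (nat_lit 44232) (nat_lit 24)
  (node (nat_lit 5) (nat_lit 25955) (nat_lit 25) nil nil) nil) nil) nil) nil) nil) nil) nil) nil)
  nil) nil) nil) nil) nil) nil) nil)) (node (nat_lit 4) (nat_lit 72335) (nat_lit 9) (node (nat_lit
  6) (nat_lit 72335) (nat_lit 10) (node (nat_lit 5) (nat_lit 72335) (nat_lit 11) (node (nat_lit 6)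
  (nat_lit 72335) (nat_lit 12) (node (nat_lit 4) (nat_lit 72335) (nat_lit 13) (node (nat_lit 5)
  (nat_lit 72335) (nat_lit 14) (node (nat_lit 6) (nat_lit 72335) (nat_lit 15) (node (nat_lit 5)
  (nat_lit 72335) (nat_lit 16) (node (nat_lit 4) (nat_lit 72335) (nat_lit 17) (node (nat_lit 6)
  (nat_lit 72335) (nat_lit 18) (node (nat_lit 4) (nat_lit 71024) (nat_lit 19) (node (nat_lit 5)
  (nat_lit 67368) (nat_lit 20) (node (nat_lit 4) (nat_lit 60183) (nat_lit 21) (node (nat_lit 6)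
  (nat_lit 43799) (nat_lit 22) (node (nat_lit 5) (nat_lit 25955) (nat_lit 23) nil nil) nil) nil)
  nil) nil) nil) nil) nil) nil) nil) nil) nil) nil) nil) nil)) nil) (node (nat_lit 3) (nat_lit
  72335) (nat_lit 7) (node (nat_lit 4) (nat_lit 72335) (nat_lit 8) nil nil) (node (nat_lit 0)
  (nat_lit 72335) (nat_lit 7) nil (node (nat_lit 2) (nat_lit 72335) (nat_lit 7) nil (node (nat_lit
  5) (nat_lit 72335) (nat_lit 7) (node (nat_lit 6) (nat_lit 72335) (nat_lit 8) (node (nat_lit 4)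
  (nat_lit 72335) (nat_lit 9) (node (nat_lit 5) (nat_lit 72335) (nat_lit 10) (node (nat_lit 6)
  (nat_lit 70702) (nat_lit 11) (node (nat_lit 5) (nat_lit 70717) (nat_lit 12) (node (nat_lit 4)
  (nat_lit 68867) (nat_lit 13) (node (nat_lit 6) (nat_lit 51515) (nat_lit 14) nil nil) nil) nil)
  (node (nat_lit 4) (nat_lit 72335) (nat_lit 11) (node (nat_lit 6) (nat_lit 72335) (nat_lit 12)
  (node (nat_lit 4) (nat_lit 72335) (nat_lit 13) (node (nat_lit 5) (nat_lit 72335) (nat_lit 14)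
  (node (nat_lit 6) (nat_lit 72335) (nat_lit 15) (node (nat_lit 5) (nat_lit 72335) (nat_lit 16)
  (node (nat_lit 4) (nat_lit 72335) (nat_lit 17) (node (nat_lit 6) (nat_lit 72335) (nat_lit 18)
  (node (nat_lit 5) (nat_lit 72335) (nat_lit 19) (node (nat_lit 6) (nat_lit 72335) (nat_lit 20)
  (node (nat_lit 4) (nat_lit 72335) (nat_lit 21) (node (nat_lit 5) (nat_lit 72335) (nat_lit 22)
  nil nil) nil) nil) nil) nil) nil) nil) nil) nil) nil) nil) nil)) nil) nil) nil) nil))))) (node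
  (nat_lit 5) (nat_lit 66820) (nat_lit 6) (node (nat_lit 6) (nat_lit 72335) (nat_lit 7) nil (node
  (nat_lit 3) (nat_lit 71328) (nat_lit 7) (node (nat_lit 4) (nat_lit 71454) (nat_lit 8) (node
  (nat_lit 5) (nat_lit 69165) (nat_lit 9) (node (nat_lit 6) (nat_lit 64580) (nat_lit 10) (node
  (nat_lit 5) (nat_lit 47135) (nat_lit 11) (node (nat_lit 4) (nat_lit 47135) (nat_lit 12) nil nil)
  nil) nil) nil) nil) nil)) (node (nat_lit 3) (nat_lit 72335) (nat_lit 6) (node (nat_lit 4)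
  (nat_lit 72335) (nat_lit 7) (node (nat_lit 5) (nat_lit 72335) (nat_lit 8) (node (nat_lit 6)
  (nat_lit 72335) (nat_lit 9) nil nil) nil) nil) (node (nat_lit 0) (nat_lit 72335) (nat_lit 6) nil
  (node (nat_lit 2) (nat_lit 72058) (nat_lit 6) nil nil))))) (node (nat_lit 3) (nat_lit 69327)
  (nat_lit 5) (node (nat_lit 6) (nat_lit 72179) (nat_lit 6) (node (nat_lit 8) (nat_lit 72179)
  (nat_lit 7) (node (nat_lit 5) (nat_lit 72179) (nat_lit 8) (node (nat_lit 8) (nat_lit 72179)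
  (nat_lit 9) (node (nat_lit 6) (nat_lit 72335) (nat_lit 10) nil (node (nat_lit 4) (nat_lit 72335)
  (nat_lit 10) nil nil)) (node (nat_lit 6) (nat_lit 72335) (nat_lit 9) nil nil)) (node (nat_lit 4)
  (nat_lit 72335) (nat_lit 8) (node (nat_lit 5) (nat_lit 72335) (nat_lit 9) (node (nat_lit 6)
  (nat_lit 72335) (nat_lit 10) nil nil) nil) nil)) (node (nat_lit 4) (nat_lit 72335) (nat_lit 7)
  (node (nat_lit 8) (nat_lit 72335) (nat_lit 8) nil (node (nat_lit 5) (nat_lit 69063) (nat_lit 8)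
  (node (nat_lit 6) (nat_lit 61702) (nat_lit 9) (node (nat_lit 5) (nat_lit 29823) (nat_lit 10)
  (node (nat_lit 4) (nat_lit 30077) (nat_lit 11) (node (nat_lit 6) (nat_lit 30306) (nat_lit 12)
  nil nil) nil) nil) nil) nil)) nil)) (node (nat_lit 4) (nat_lit 70438) (nat_lit 6) (node (nat_lit
  5) (nat_lit 61671) (nat_lit 7) (node (nat_lit 4) (nat_lit 62219) (nat_lit 8) nil (node (nat_lit
  6) (nat_lit 46034) (nat_lit 8) nil nil)) (node (nat_lit 6) (nat_lit 70597) (nat_lit 7) (node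
  (nat_lit 4) (nat_lit 70705) (nat_lit 8) (node (nat_lit 8) (nat_lit 70705) (nat_lit 9) nil nil)
  (node (nat_lit 8) (nat_lit 70597) (nat_lit 8) nil nil)) (node (nat_lit 8) (nat_lit 70438)
  (nat_lit 7) nil nil))) (node (nat_lit 5) (nat_lit 69327) (nat_lit 6) (node (nat_lit 6) (nat_lit
  70597) (nat_lit 7) nil nil) (node (nat_lit 0) (nat_lit 70438) (nat_lit 6) nil (node (nat_lit 2)
  (nat_lit 69327) (nat_lit 6) nil nil))))) (node (nat_lit 0) (nat_lit 71987) (nat_lit 5) nil (node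
  (nat_lit 2) (nat_lit 69665) (nat_lit 5) (node (nat_lit 6) (nat_lit 70776) (nat_lit 6) (node
  (nat_lit 4) (nat_lit 70935) (nat_lit 7) (node (nat_lit 5) (nat_lit 65069) (nat_lit 8) nil nil)
  nil) (node (nat_lit 3) (nat_lit 66266) (nat_lit 6) nil nil)) nil)))) (node (nat_lit 3) (nat_lit
  0) (nat_lit 4) (node (nat_lit 5) (nat_lit 69561) (nat_lit 5) (node (nat_lit 7) (nat_lit 69561)
  (nat_lit 6) (node (nat_lit 6) (nat_lit 70831) (nat_lit 7) (node (nat_lit 7) (nat_lit 70831)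
  (nat_lit 8) (node (nat_lit 4) (nat_lit 71009) (nat_lit 9) nil nil) nil) (node (nat_lit 4)
  (nat_lit 68446) (nat_lit 7) (node (nat_lit 5) (nat_lit 64209) (nat_lit 8) (node (nat_lit 6)
  (nat_lit 59397) (nat_lit 9) (node (nat_lit 7) (nat_lit 47135) (nat_lit 10) (node (nat_lit 5)
  (nat_lit 41059) (nat_lit 11) nil nil) nil) nil) nil) nil)) (node (nat_lit 4) (nat_lit 70672)
  (nat_lit 6) (node (nat_lit 6) (nat_lit 70831) (nat_lit 7) (node (nat_lit 4) (nat_lit 70940)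
  (nat_lit 8) (node (nat_lit 5) (nat_lit 70940) (nat_lit 9) (node (nat_lit 6) (nat_lit 71062)
  (nat_lit 10) (node (nat_lit 7) (nat_lit 71062) (nat_lit 11) nil nil) nil) nil) nil) (node
  (nat_lit 7) (nat_lit 70672) (nat_lit 7) nil nil)) (node (nat_lit 6) (nat_lit 72335) (nat_lit 6)
  (node (nat_lit 5) (nat_lit 72335) (nat_lit 7) (node (nat_lit 7) (nat_lit 72335) (nat_lit 8)
  (node (nat_lit 6) (nat_lit 72335) (nat_lit 9) nil nil) nil) (node (nat_lit 4) (nat_lit 69909)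
  (nat_lit 7) nil nil)) nil))) (node (nat_lit 4) (nat_lit 71855) (nat_lit 5) (node (nat_lit 5)
  (nat_lit 71855) (nat_lit 6) (node (nat_lit 6) (nat_lit 43658) (nat_lit 7) nil nil) (node
  (nat_lit 6) (nat_lit 72076) (nat_lit 6) nil nil)) (node (nat_lit 6) (nat_lit 70030) (nat_lit 5)
  (node (nat_lit 4) (nat_lit 72076) (nat_lit 6) (node (nat_lit 7) (nat_lit 72076) (nat_lit 7) nil
  (node (nat_lit 5) (nat_lit 69883) (nat_lit 7) (node (nat_lit 6) (nat_lit 52800) (nat_lit 8)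
  (node (nat_lit 5) (nat_lit 52149) (nat_lit 9) nil (node (nat_lit 7) (nat_lit 25955) (nat_lit 9)
  nil nil)) nil) nil)) (node (nat_lit 5) (nat_lit 70733) (nat_lit 6) (node (nat_lit 7) (nat_lit
  71490) (nat_lit 7) (node (nat_lit 6) (nat_lit 69790) (nat_lit 8) (node (nat_lit 7) (nat_lit
  70374) (nat_lit 9) nil nil) nil) nil) nil)) (node (nat_lit 0) (nat_lit 71197) (nat_lit 5) nil
  (node (nat_lit 2) (nat_lit 69534) (nat_lit 5) (node (nat_lit 6) (nat_lit 69135) (nat_lit 6)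
  (node (nat_lit 7) (nat_lit 68748) (nat_lit 7) nil nil) (node (nat_lit 7) (nat_lit 69433)
  (nat_lit 6) (node (nat_lit 6) (nat_lit 69741) (nat_lit 7) (node (nat_lit 7) (nat_lit 70709)
  (nat_lit 8) nil nil) (node (nat_lit 4) (nat_lit 63519) (nat_lit 7) nil nil)) (node (nat_lit 4)
  (nat_lit 70644) (nat_lit 6) nil nil))) nil))))) (node (nat_lit 0) (nat_lit 70129) (nat_lit 4)
  (node (nat_lit 5) (nat_lit 72019) (nat_lit 5) nil (node (nat_lit 6) (nat_lit 72335) (nat_lit 5)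
  (node (nat_lit 4) (nat_lit 72335) (nat_lit 6) (node (nat_lit 5) (nat_lit 72335) (nat_lit 7) nil
  nil) nil) (node (nat_lit 4) (nat_lit 72335) (nat_lit 5) nil (node (nat_lit 3) (nat_lit 70519)
  (nat_lit 5) nil nil)))) (node (nat_lit 2) (nat_lit 0) (nat_lit 4) (node (nat_lit 5) (nat_lit
  69144) (nat_lit 5) (node (nat_lit 7) (nat_lit 69144) (nat_lit 6) nil (node (nat_lit 6) (nat_lit
  70255) (nat_lit 6) nil (node (nat_lit 3) (nat_lit 67690) (nat_lit 6) (node (nat_lit 7) (nat_lit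
  65466) (nat_lit 7) (node (nat_lit 5) (nat_lit 64967) (nat_lit 8) (node (nat_lit 6) (nat_lit
  64954) (nat_lit 9) nil nil) nil) nil) nil))) (node (nat_lit 6) (nat_lit 67874) (nat_lit 5) (node
  (nat_lit 5) (nat_lit 68578) (nat_lit 6) nil (node (nat_lit 4) (nat_lit 71687) (nat_lit 6) (node
  (nat_lit 5) (nat_lit 65225) (nat_lit 7) (node (nat_lit 6) (nat_lit 53235) (nat_lit 8) (node
  (nat_lit 7) (nat_lit 25503) (nat_lit 9) nil nil) nil) nil) (node (nat_lit 3) (nat_lit 67528)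
  (nat_lit 6) nil nil))) (node (nat_lit 4) (nat_lit 71466) (nat_lit 5) nil (node (nat_lit 3)
  (nat_lit 68503) (nat_lit 5) (node (nat_lit 6) (nat_lit 69004) (nat_lit 6) (node (nat_lit 4)
  (nat_lit 62975) (nat_lit 7) nil nil) (node (nat_lit 7) (nat_lit 68441) (nat_lit 6) nil (node
  (nat_lit 4) (nat_lit 64252) (nat_lit 6) (node (nat_lit 5) (nat_lit 47135) (nat_lit 7) (node
  (nat_lit 6) (nat_lit 43666) (nat_lit 8) nil nil) nil) nil))) (node (nat_lit 0) (nat_lit 69682)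
  (nat_lit 5) nil nil))))) nil)))))

noncomputable def t138 : Tr :=
  (node (nat_lit 4) (nat_lit 0) (nat_lit 4) (node (nat_lit 6) (nat_lit 46651) (nat_lit 5) (node
  (nat_lit 5) (nat_lit 51659) (nat_lit 6) (node (nat_lit 6) (nat_lit 53359) (nat_lit 7) (node
  (nat_lit 0) (nat_lit 56443) (nat_lit 8) (node (nat_lit 5) (nat_lit 56909) (nat_lit 9) nil nil)
  (node (nat_lit 1) (nat_lit 56443) (nat_lit 8) (node (nat_lit 5) (nat_lit 56909) (nat_lit 9) nil
  nil) (node (nat_lit 2) (nat_lit 56350) (nat_lit 8) (node (nat_lit 5) (nat_lit 56909) (nat_lit 9)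
  nil nil) (node (nat_lit 4) (nat_lit 54472) (nat_lit 8) (node (nat_lit 5) (nat_lit 55426)
  (nat_lit 9) (node (nat_lit 4) (nat_lit 56078) (nat_lit 10) (node (nat_lit 6) (nat_lit 56586)
  (nat_lit 11) (node (nat_lit 4) (nat_lit 56982) (nat_lit 12) (node (nat_lit 5) (nat_lit 57369)
  (nat_lit 13) (node (nat_lit 6) (nat_lit 57610) (nat_lit 14) (node (nat_lit 4) (nat_lit 57799)
  (nat_lit 15) (node (nat_lit 6) (nat_lit 57946) (nat_lit 16) (node (nat_lit 5) (nat_lit 58061)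
  (nat_lit 17) (node (nat_lit 6) (nat_lit 58151) (nat_lit 18) (node (nat_lit 4) (nat_lit 58220)
  (nat_lit 19) (node (nat_lit 5) (nat_lit 58275) (nat_lit 20) nil nil) nil) nil) nil) nil) nil)
  nil) nil) nil) nil) nil) nil) nil)))) (node (nat_lit 4) (nat_lit 53359) (nat_lit 7) (node
  (nat_lit 5) (nat_lit 54565) (nat_lit 8) (node (nat_lit 6) (nat_lit 55399) (nat_lit 9) nil nil)
  (node (nat_lit 6) (nat_lit 54472) (nat_lit 8) (node (nat_lit 4) (nat_lit 55306) (nat_lit 9)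
  (node (nat_lit 5) (nat_lit 56102) (nat_lit 10) (node (nat_lit 6) (nat_lit 56610) (nat_lit 11)
  (node (nat_lit 4) (nat_lit 57006) (nat_lit 12) (node (nat_lit 6) (nat_lit 57316) (nat_lit 13)
  (node (nat_lit 5) (nat_lit 57557) (nat_lit 14) (node (nat_lit 4) (nat_lit 45941) (nat_lit 15)
  nil nil) nil) nil) nil) nil) nil) nil) (node (nat_lit 1) (nat_lit 56443) (nat_lit 8) (node
  (nat_lit 4) (nat_lit 56882) (nat_lit 9) nil nil) (node (nat_lit 0) (nat_lit 56443) (nat_lit 8)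
  nil (node (nat_lit 2) (nat_lit 56350) (nat_lit 8) nil nil))))) (node (nat_lit 1) (nat_lit 55297)
  (nat_lit 7) (node (nat_lit 6) (nat_lit 56407) (nat_lit 8) (node (nat_lit 4) (nat_lit 56846)
  (nat_lit 9) nil nil) nil) (node (nat_lit 0) (nat_lit 55297) (nat_lit 7) nil (node (nat_lit 2)
  (nat_lit 55240) (nat_lit 7) nil nil))))) (node (nat_lit 1) (nat_lit 53317) (nat_lit 6) (node
  (nat_lit 4) (nat_lit 55127) (nat_lit 7) (node (nat_lit 9) (nat_lit 56237) (nat_lit 8) (node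
  (nat_lit 6) (nat_lit 56676) (nat_lit 9) nil nil) (node (nat_lit 6) (nat_lit 56237) (nat_lit 8)
  nil (node (nat_lit 5) (nat_lit 56237) (nat_lit 8) (node (nat_lit 6) (nat_lit 46129) (nat_lit 9)
  (node (nat_lit 4) (nat_lit 19627) (nat_lit 10) nil nil) nil) nil))) (node (nat_lit 6) (nat_lit
  55127) (nat_lit 7) (node (nat_lit 4) (nat_lit 56237) (nat_lit 8) nil (node (nat_lit 5) (nat_lit
  56237) (nat_lit 8) nil nil)) (node (nat_lit 5) (nat_lit 55297) (nat_lit 7) nil nil))) (node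
  (nat_lit 0) (nat_lit 53317) (nat_lit 6) (node (nat_lit 4) (nat_lit 55127) (nat_lit 7) nil (node
  (nat_lit 6) (nat_lit 55127) (nat_lit 7) nil nil)) (node (nat_lit 2) (nat_lit 49634) (nat_lit 6)
  (node (nat_lit 4) (nat_lit 51445) (nat_lit 7) (node (nat_lit 6) (nat_lit 52554) (nat_lit 8) nil
  (node (nat_lit 9) (nat_lit 52554) (nat_lit 8) nil nil)) (node (nat_lit 5) (nat_lit 54810)
  (nat_lit 7) nil (node (nat_lit 6) (nat_lit 51445) (nat_lit 7) (node (nat_lit 4) (nat_lit 52554)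
  (nat_lit 8) nil nil) (node (nat_lit 1) (nat_lit 54587) (nat_lit 7) nil nil)))) nil)))) (node
  (nat_lit 5) (nat_lit 45379) (nat_lit 5) (node (nat_lit 1) (nat_lit 41368) (nat_lit 6) nil nil)
  (node (nat_lit 1) (nat_lit 53405) (nat_lit 5) (node (nat_lit 5) (nat_lit 55010) (nat_lit 6)
  (node (nat_lit 8) (nat_lit 55797) (nat_lit 7) (node (nat_lit 6) (nat_lit 56316) (nat_lit 8) nil
  (node (nat_lit 4) (nat_lit 56316) (nat_lit 8) nil nil)) (node (nat_lit 4) (nat_lit 55797)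
  (nat_lit 7) (node (nat_lit 6) (nat_lit 56316) (nat_lit 8) (node (nat_lit 4) (nat_lit 56674)
  (nat_lit 9) (node (nat_lit 5) (nat_lit 56947) (nat_lit 10) (node (nat_lit 6) (nat_lit 57187)
  (nat_lit 11) nil nil) nil) nil) nil) nil)) (node (nat_lit 4) (nat_lit 54638) (nat_lit 6) (node
  (nat_lit 6) (nat_lit 55425) (nat_lit 7) (node (nat_lit 4) (nat_lit 55944) (nat_lit 8) nil nil)
  (node (nat_lit 5) (nat_lit 55613) (nat_lit 7) (node (nat_lit 8) (nat_lit 56131) (nat_lit 8) nil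
  (node (nat_lit 6) (nat_lit 56131) (nat_lit 8) (node (nat_lit 4) (nat_lit 9838) (nat_lit 9) nil
  nil) nil)) nil)) (node (nat_lit 6) (nat_lit 54638) (nat_lit 6) (node (nat_lit 8) (nat_lit 55613)
  (nat_lit 7) (node (nat_lit 4) (nat_lit 56131) (nat_lit 8) nil nil) (node (nat_lit 4) (nat_lit
  55425) (nat_lit 7) (node (nat_lit 6) (nat_lit 55944) (nat_lit 8) (node (nat_lit 8) (nat_lit
  56302) (nat_lit 9) (node (nat_lit 4) (nat_lit 56575) (nat_lit 10) nil nil) nil) (node (nat_lit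
  5) (nat_lit 55944) (nat_lit 8) (node (nat_lit 6) (nat_lit 56302) (nat_lit 9) nil nil) nil))
  (node (nat_lit 5) (nat_lit 55425) (nat_lit 7) nil nil))) (node (nat_lit 0) (nat_lit 54989)
  (nat_lit 6) nil (node (nat_lit 2) (nat_lit 54638) (nat_lit 6) (node (nat_lit 6) (nat_lit 53419)
  (nat_lit 7) nil nil) nil))))) (node (nat_lit 0) (nat_lit 53405) (nat_lit 5) (node (nat_lit 6)
  (nat_lit 54638) (nat_lit 6) (node (nat_lit 4) (nat_lit 55425) (nat_lit 7) (node (nat_lit 5)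
  (nat_lit 55944) (nat_lit 8) (node (nat_lit 6) (nat_lit 56302) (nat_lit 9) nil nil) nil) nil)
  (node (nat_lit 4) (nat_lit 54638) (nat_lit 6) (node (nat_lit 6) (nat_lit 55425) (nat_lit 7)
  (node (nat_lit 4) (nat_lit 55944) (nat_lit 8) nil nil) nil) (node (nat_lit 5) (nat_lit 55010)
  (nat_lit 6) nil (node (nat_lit 1) (nat_lit 54989) (nat_lit 6) (node (nat_lit 4) (nat_lit 55777)
  (nat_lit 7) nil nil) nil)))) (node (nat_lit 2) (nat_lit 50044) (nat_lit 5) (node (nat_lit 6)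
  (nat_lit 51292) (nat_lit 6) (node (nat_lit 4) (nat_lit 52080) (nat_lit 7) (node (nat_lit 5)
  (nat_lit 46651) (nat_lit 8) (node (nat_lit 6) (nat_lit 43406) (nat_lit 9) (node (nat_lit 4)
  (nat_lit 42214) (nat_lit 10) nil nil) nil) nil) (node (nat_lit 5) (nat_lit 55207) (nat_lit 7)
  nil (node (nat_lit 8) (nat_lit 52080) (nat_lit 7) nil nil))) (node (nat_lit 4) (nat_lit 51264)
  (nat_lit 6) (node (nat_lit 5) (nat_lit 55179) (nat_lit 7) nil (node (nat_lit 6) (nat_lit 52052)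
  (nat_lit 7) (node (nat_lit 4) (nat_lit 52570) (nat_lit 8) nil nil) (node (nat_lit 1) (nat_lit
  54782) (nat_lit 7) nil nil))) (node (nat_lit 5) (nat_lit 55011) (nat_lit 6) (node (nat_lit 4)
  (nat_lit 55799) (nat_lit 7) (node (nat_lit 5) (nat_lit 56523) (nat_lit 8) nil (node (nat_lit 6)
  (nat_lit 56317) (nat_lit 8) nil nil)) (node (nat_lit 8) (nat_lit 55799) (nat_lit 7) (node
  (nat_lit 4) (nat_lit 56317) (nat_lit 8) nil (node (nat_lit 6) (nat_lit 56317) (nat_lit 8) nil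
  nil)) (node (nat_lit 6) (nat_lit 55799) (nat_lit 7) nil nil))) (node (nat_lit 1) (nat_lit 54437)
  (nat_lit 6) (node (nat_lit 4) (nat_lit 48405) (nat_lit 7) nil nil) (node (nat_lit 0) (nat_lit
  54437) (nat_lit 6) nil nil))))) nil))))) (node (nat_lit 5) (nat_lit 0) (nat_lit 4) (node
  (nat_lit 4) (nat_lit 60301) (nat_lit 5) (node (nat_lit 6) (nat_lit 63630) (nat_lit 6) (node
  (nat_lit 4) (nat_lit 67125) (nat_lit 7) (node (nat_lit 5) (nat_lit 68760) (nat_lit 8) (node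
  (nat_lit 6) (nat_lit 70002) (nat_lit 9) (node (nat_lit 5) (nat_lit 70653) (nat_lit 10) (node
  (nat_lit 4) (nat_lit 44428) (nat_lit 11) nil nil) (node (nat_lit 4) (nat_lit 70972) (nat_lit 10)
  (node (nat_lit 6) (nat_lit 71728) (nat_lit 11) (node (nat_lit 5) (nat_lit 72318) (nat_lit 12)
  (node (nat_lit 6) (nat_lit 71656) (nat_lit 13) (node (nat_lit 4) (nat_lit 71831) (nat_lit 14)
  (node (nat_lit 5) (nat_lit 71553) (nat_lit 15) (node (nat_lit 6) (nat_lit 71405) (nat_lit 16)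
  (node (nat_lit 5) (nat_lit 71269) (nat_lit 17) (node (nat_lit 4) (nat_lit 70374) (nat_lit 18)
  (node (nat_lit 6) (nat_lit 69056) (nat_lit 19) (node (nat_lit 4) (nat_lit 67377) (nat_lit 20)
  (node (nat_lit 5) (nat_lit 64355) (nat_lit 21) (node (nat_lit 6) (nat_lit 59908) (nat_lit 22)
  (node (nat_lit 4) (nat_lit 51773) (nat_lit 23) (node (nat_lit 6) (nat_lit 45015) (nat_lit 24)
  (node (nat_lit 5) (nat_lit 43229) (nat_lit 25) nil nil) nil) nil) nil) nil) nil) nil) nil) nil)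
  nil) nil) nil) nil) nil) nil) nil)) (node (nat_lit 4) (nat_lit 70034) (nat_lit 9) (node (nat_lit
  6) (nat_lit 71003) (nat_lit 10) (node (nat_lit 5) (nat_lit 71760) (nat_lit 11) (node (nat_lit 6)
  (nat_lit 72350) (nat_lit 12) (node (nat_lit 4) (nat_lit 72811) (nat_lit 13) (node (nat_lit 5)
  (nat_lit 73171) (nat_lit 14) (node (nat_lit 6) (nat_lit 73452) (nat_lit 15) (node (nat_lit 5)
  (nat_lit 73188) (nat_lit 16) (node (nat_lit 4) (nat_lit 72156) (nat_lit 17) (node (nat_lit 6)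
  (nat_lit 70460) (nat_lit 18) (node (nat_lit 4) (nat_lit 66897) (nat_lit 19) (node (nat_lit 5)
  (nat_lit 63993) (nat_lit 20) (node (nat_lit 4) (nat_lit 46651) (nat_lit 21) (node (nat_lit 6)
  (nat_lit 45420) (nat_lit 22) (node (nat_lit 5) (nat_lit 43774) (nat_lit 23) nil nil) nil) nil)
  nil) nil) nil) nil) nil) nil) nil) nil) nil) nil) nil) nil)) (node (nat_lit 1) (nat_lit 70654)
  (nat_lit 8) nil (node (nat_lit 0) (nat_lit 70654) (nat_lit 8) nil (node (nat_lit 2) (nat_lit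
  70638) (nat_lit 8) nil nil)))) (node (nat_lit 1) (nat_lit 70182) (nat_lit 7) (node (nat_lit 4)
  (nat_lit 71291) (nat_lit 8) (node (nat_lit 5) (nat_lit 70528) (nat_lit 9) nil nil) (node
  (nat_lit 6) (nat_lit 71566) (nat_lit 8) nil nil)) (node (nat_lit 0) (nat_lit 70182) (nat_lit 7)
  nil (node (nat_lit 2) (nat_lit 70123) (nat_lit 7) nil (node (nat_lit 5) (nat_lit 67067) (nat_lit
  7) (node (nat_lit 6) (nat_lit 68702) (nat_lit 8) (node (nat_lit 4) (nat_lit 70034) (nat_lit 9)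
  (node (nat_lit 5) (nat_lit 71003) (nat_lit 10) (node (nat_lit 6) (nat_lit 66772) (nat_lit 11)
  (node (nat_lit 5) (nat_lit 67286) (nat_lit 12) (node (nat_lit 4) (nat_lit 60560) (nat_lit 13)
  (node (nat_lit 6) (nat_lit 41924) (nat_lit 14) nil nil) nil) nil) nil) nil) nil) nil) nil)))))
  (node (nat_lit 5) (nat_lit 63597) (nat_lit 6) (node (nat_lit 6) (nat_lit 67067) (nat_lit 7)
  (node (nat_lit 4) (nat_lit 68777) (nat_lit 8) nil (node (nat_lit 1) (nat_lit 70654) (nat_lit 8)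
  nil nil)) (node (nat_lit 1) (nat_lit 70182) (nat_lit 7) (node (nat_lit 4) (nat_lit 71583)
  (nat_lit 8) (node (nat_lit 5) (nat_lit 70378) (nat_lit 9) (node (nat_lit 6) (nat_lit 65604)
  (nat_lit 10) nil nil) nil) nil) (node (nat_lit 0) (nat_lit 70182) (nat_lit 7) nil (node (nat_lit
  2) (nat_lit 70123) (nat_lit 7) nil nil)))) (node (nat_lit 1) (nat_lit 67654) (nat_lit 6) (node
  (nat_lit 6) (nat_lit 70159) (nat_lit 7) nil (node (nat_lit 4) (nat_lit 70182) (nat_lit 7) (node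
  (nat_lit 5) (nat_lit 71291) (nat_lit 8) (node (nat_lit 6) (nat_lit 71730) (nat_lit 9) nil nil)
  nil) (node (nat_lit 5) (nat_lit 70159) (nat_lit 7) nil nil))) (node (nat_lit 0) (nat_lit 67654)
  (nat_lit 6) (node (nat_lit 6) (nat_lit 70159) (nat_lit 7) nil nil) (node (nat_lit 2) (nat_lit
  67618) (nat_lit 6) (node (nat_lit 6) (nat_lit 66338) (nat_lit 7) nil nil) nil))))) (node
  (nat_lit 1) (nat_lit 66876) (nat_lit 5) (node (nat_lit 6) (nat_lit 69242) (nat_lit 6) (node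
  (nat_lit 8) (nat_lit 70724) (nat_lit 7) (node (nat_lit 5) (nat_lit 71517) (nat_lit 8) (node
  (nat_lit 8) (nat_lit 71876) (nat_lit 9) (node (nat_lit 6) (nat_lit 72018) (nat_lit 10) (node
  (nat_lit 5) (nat_lit 71359) (nat_lit 11) (node (nat_lit 6) (nat_lit 70856) (nat_lit 12) nil nil)
  nil) (node (nat_lit 4) (nat_lit 72148) (nat_lit 10) (node (nat_lit 5) (nat_lit 71179) (nat_lit
  11) nil nil) nil)) (node (nat_lit 6) (nat_lit 69664) (nat_lit 9) (node (nat_lit 8) (nat_lit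
  69936) (nat_lit 10) nil (node (nat_lit 4) (nat_lit 69392) (nat_lit 10) nil nil)) nil)) (node
  (nat_lit 4) (nat_lit 71172) (nat_lit 8) (node (nat_lit 5) (nat_lit 68680) (nat_lit 9) (node
  (nat_lit 6) (nat_lit 64591) (nat_lit 10) (node (nat_lit 5) (nat_lit 55950) (nat_lit 11) (node
  (nat_lit 8) (nat_lit 42904) (nat_lit 12) nil nil) nil) nil) nil) nil)) (node (nat_lit 4)
  (nat_lit 70029) (nat_lit 7) (node (nat_lit 8) (nat_lit 70548) (nat_lit 8) nil (node (nat_lit 5)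
  (nat_lit 70548) (nat_lit 8) (node (nat_lit 6) (nat_lit 70906) (nat_lit 9) (node (nat_lit 5)
  (nat_lit 71179) (nat_lit 10) nil nil) nil) nil)) (node (nat_lit 0) (nat_lit 70029) (nat_lit 7)
  (node (nat_lit 6) (nat_lit 70548) (nat_lit 8) nil (node (nat_lit 8) (nat_lit 70548) (nat_lit 8)
  nil nil)) (node (nat_lit 2) (nat_lit 69603) (nat_lit 7) (node (nat_lit 6) (nat_lit 67169)
  (nat_lit 8) (node (nat_lit 4) (nat_lit 66466) (nat_lit 9) nil (node (nat_lit 8) (nat_lit 67528)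
  (nat_lit 9) nil nil)) (node (nat_lit 8) (nat_lit 70121) (nat_lit 8) nil nil)) nil)))) (node
  (nat_lit 4) (nat_lit 69348) (nat_lit 6) (node (nat_lit 5) (nat_lit 65171) (nat_lit 7) (node
  (nat_lit 4) (nat_lit 65911) (nat_lit 8) (node (nat_lit 6) (nat_lit 65396) (nat_lit 9) (node
  (nat_lit 8) (nat_lit 65661) (nat_lit 10) nil nil) nil) (node (nat_lit 6) (nat_lit 51549)
  (nat_lit 8) (node (nat_lit 8) (nat_lit 50791) (nat_lit 9) nil (node (nat_lit 4) (nat_lit 52268)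
  (nat_lit 9) nil nil)) nil)) (node (nat_lit 6) (nat_lit 70831) (nat_lit 7) nil nil)) (node
  (nat_lit 5) (nat_lit 69242) (nat_lit 6) (node (nat_lit 6) (nat_lit 70724) (nat_lit 7) nil nil)
  (node (nat_lit 0) (nat_lit 69341) (nat_lit 6) nil (node (nat_lit 2) (nat_lit 69235) (nat_lit 6)
  nil nil))))) (node (nat_lit 0) (nat_lit 66876) (nat_lit 5) (node (nat_lit 6) (nat_lit 69242)
  (nat_lit 6) (node (nat_lit 4) (nat_lit 70029) (nat_lit 7) (node (nat_lit 5) (nat_lit 70548)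
  (nat_lit 8) nil nil) nil) (node (nat_lit 4) (nat_lit 69348) (nat_lit 6) nil (node (nat_lit 5)
  (nat_lit 69242) (nat_lit 6) nil (node (nat_lit 1) (nat_lit 69341) (nat_lit 6) (node (nat_lit 4)
  (nat_lit 70129) (nat_lit 7) nil nil) nil)))) (node (nat_lit 2) (nat_lit 63984) (nat_lit 5) (node
  (nat_lit 6) (nat_lit 64385) (nat_lit 6) (node (nat_lit 4) (nat_lit 67921) (nat_lit 7) (node
  (nat_lit 5) (nat_lit 65157) (nat_lit 8) (node (nat_lit 6) (nat_lit 53860) (nat_lit 9) (node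
  (nat_lit 5) (nat_lit 41728) (nat_lit 10) nil nil) nil) nil) nil) (node (nat_lit 4) (nat_lit
  69043) (nat_lit 6) nil (node (nat_lit 5) (nat_lit 64381) (nat_lit 6) (node (nat_lit 6) (nat_lit
  64370) (nat_lit 7) nil nil) (node (nat_lit 1) (nat_lit 68904) (nat_lit 6) (node (nat_lit 4)
  (nat_lit 67765) (nat_lit 7) nil nil) (node (nat_lit 0) (nat_lit 68904) (nat_lit 6) nil nil)))))
  nil)))) (node (nat_lit 1) (nat_lit 0) (nat_lit 4) (node (nat_lit 5) (nat_lit 66139) (nat_lit 5)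
  (node (nat_lit 7) (nat_lit 69318) (nat_lit 6) (node (nat_lit 6) (nat_lit 68756) (nat_lit 7)
  (node (nat_lit 7) (nat_lit 68893) (nat_lit 8) nil nil) (node (nat_lit 4) (nat_lit 66599)
  (nat_lit 7) (node (nat_lit 5) (nat_lit 58511) (nat_lit 8) (node (nat_lit 6) (nat_lit 51076)
  (nat_lit 9) (node (nat_lit 7) (nat_lit 38286) (nat_lit 10) nil nil) nil) nil) nil)) (node
  (nat_lit 4) (nat_lit 69428) (nat_lit 6) (node (nat_lit 6) (nat_lit 70216) (nat_lit 7) (node
  (nat_lit 4) (nat_lit 70734) (nat_lit 8) nil nil) nil) (node (nat_lit 6) (nat_lit 69428) (nat_lit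
  6) (node (nat_lit 5) (nat_lit 69734) (nat_lit 7) (node (nat_lit 7) (nat_lit 69871) (nat_lit 8)
  (node (nat_lit 6) (nat_lit 69356) (nat_lit 9) (node (nat_lit 7) (nat_lit 69528) (nat_lit 10) nil
  nil) nil) nil) (node (nat_lit 4) (nat_lit 68688) (nat_lit 7) (node (nat_lit 7) (nat_lit 69429)
  (nat_lit 8) nil nil) nil)) nil))) (node (nat_lit 4) (nat_lit 56537) (nat_lit 5) (node (nat_lit
  5) (nat_lit 50953) (nat_lit 6) (node (nat_lit 4) (nat_lit 52292) (nat_lit 7) nil (node (nat_lit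
  7) (nat_lit 52292) (nat_lit 7) nil (node (nat_lit 6) (nat_lit 23797) (nat_lit 7) nil nil)))
  (node (nat_lit 6) (nat_lit 59639) (nat_lit 6) (node (nat_lit 4) (nat_lit 61691) (nat_lit 7)
  (node (nat_lit 5) (nat_lit 61062) (nat_lit 8) nil nil) (node (nat_lit 7) (nat_lit 61370)
  (nat_lit 7) (node (nat_lit 6) (nat_lit 62111) (nat_lit 8) (node (nat_lit 4) (nat_lit 62694)
  (nat_lit 9) nil nil) nil) (node (nat_lit 5) (nat_lit 61582) (nat_lit 7) (node (nat_lit 7)
  (nat_lit 59883) (nat_lit 8) nil nil) nil))) (node (nat_lit 7) (nat_lit 59707) (nat_lit 6) (node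
  (nat_lit 6) (nat_lit 61651) (nat_lit 7) (node (nat_lit 4) (nat_lit 62391) (nat_lit 8) nil nil)
  (node (nat_lit 5) (nat_lit 61651) (nat_lit 7) (node (nat_lit 4) (nat_lit 62391) (nat_lit 8) nil
  nil) nil)) (node (nat_lit 0) (nat_lit 58630) (nat_lit 6) nil (node (nat_lit 2) (nat_lit 56850)
  (nat_lit 6) (node (nat_lit 6) (nat_lit 55083) (nat_lit 7) nil nil) nil))))) (node (nat_lit 6)
  (nat_lit 0) (nat_lit 5) (node (nat_lit 4) (nat_lit 69546) (nat_lit 6) (node (nat_lit 7) (nat_lit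
  70333) (nat_lit 7) (node (nat_lit 4) (nat_lit 70852) (nat_lit 8) nil (node (nat_lit 5) (nat_lit
  69241) (nat_lit 8) nil nil)) (node (nat_lit 5) (nat_lit 70333) (nat_lit 7) (node (nat_lit 6)
  (nat_lit 70705) (nat_lit 8) (node (nat_lit 7) (nat_lit 42340) (nat_lit 9) nil nil) nil) nil))
  (node (nat_lit 5) (nat_lit 69428) (nat_lit 6) (node (nat_lit 7) (nat_lit 70216) (nat_lit 7)
  (node (nat_lit 4) (nat_lit 67731) (nat_lit 8) nil nil) (node (nat_lit 6) (nat_lit 69490)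
  (nat_lit 7) nil (node (nat_lit 4) (nat_lit 70540) (nat_lit 7) nil nil))) (node (nat_lit 0)
  (nat_lit 68554) (nat_lit 6) (node (nat_lit 7) (nat_lit 69723) (nat_lit 7) nil (node (nat_lit 6)
  (nat_lit 67991) (nat_lit 7) nil nil)) (node (nat_lit 2) (nat_lit 69415) (nat_lit 6) (node
  (nat_lit 7) (nat_lit 69102) (nat_lit 7) (node (nat_lit 6) (nat_lit 68473) (nat_lit 8) nil nil)
  (node (nat_lit 6) (nat_lit 64281) (nat_lit 7) (node (nat_lit 7) (nat_lit 64532) (nat_lit 8) nil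
  nil) nil)) nil)))) (node (nat_lit 0) (nat_lit 67412) (nat_lit 5) (node (nat_lit 6) (nat_lit
  66821) (nat_lit 6) (node (nat_lit 4) (nat_lit 68441) (nat_lit 7) nil nil) (node (nat_lit 7)
  (nat_lit 69649) (nat_lit 6) nil nil)) (node (nat_lit 2) (nat_lit 66618) (nat_lit 5) (node
  (nat_lit 6) (nat_lit 64140) (nat_lit 6) (node (nat_lit 7) (nat_lit 64211) (nat_lit 7) nil (node
  (nat_lit 4) (nat_lit 61618) (nat_lit 7) (node (nat_lit 5) (nat_lit 56018) (nat_lit 8) nil nil)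
  nil)) (node (nat_lit 7) (nat_lit 65071) (nat_lit 6) (node (nat_lit 6) (nat_lit 64508) (nat_lit
  7) nil (node (nat_lit 4) (nat_lit 63803) (nat_lit 7) nil nil)) (node (nat_lit 5) (nat_lit 65412)
  (nat_lit 6) nil nil))) nil))))) (node (nat_lit 0) (nat_lit 0) (nat_lit 4) (node (nat_lit 5)
  (nat_lit 67703) (nat_lit 5) (node (nat_lit 6) (nat_lit 68717) (nat_lit 6) nil nil) (node
  (nat_lit 6) (nat_lit 67703) (nat_lit 5) (node (nat_lit 4) (nat_lit 69546) (nat_lit 6) (node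
  (nat_lit 5) (nat_lit 70333) (nat_lit 7) (node (nat_lit 6) (nat_lit 70715) (nat_lit 8) nil nil)
  nil) nil) (node (nat_lit 4) (nat_lit 67936) (nat_lit 5) (node (nat_lit 6) (nat_lit 69661)
  (nat_lit 6) nil nil) (node (nat_lit 1) (nat_lit 67922) (nat_lit 5) (node (nat_lit 4) (nat_lit
  69649) (nat_lit 6) nil nil) (node (nat_lit 0) (nat_lit 67922) (nat_lit 5) nil (node (nat_lit 2)
  (nat_lit 66618) (nat_lit 5) (node (nat_lit 6) (nat_lit 64493) (nat_lit 6) nil nil) nil))))))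
  (node (nat_lit 2) (nat_lit 0) (nat_lit 4) (node (nat_lit 5) (nat_lit 63299) (nat_lit 5) (node
  (nat_lit 7) (nat_lit 64186) (nat_lit 6) nil (node (nat_lit 6) (nat_lit 64188) (nat_lit 6) (node
  (nat_lit 4) (nat_lit 64723) (nat_lit 7) (node (nat_lit 5) (nat_lit 58659) (nat_lit 8) (node
  (nat_lit 6) (nat_lit 42179) (nat_lit 9) nil nil) nil) nil) (node (nat_lit 4) (nat_lit 69291)
  (nat_lit 6) nil nil))) (node (nat_lit 6) (nat_lit 59161) (nat_lit 5) (node (nat_lit 5) (nat_lit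
  61634) (nat_lit 6) (node (nat_lit 7) (nat_lit 63230) (nat_lit 7) nil (node (nat_lit 6) (nat_lit
  63230) (nat_lit 7) (node (nat_lit 4) (nat_lit 64125) (nat_lit 8) nil nil) nil)) (node (nat_lit
  4) (nat_lit 65092) (nat_lit 6) (node (nat_lit 5) (nat_lit 61962) (nat_lit 7) (node (nat_lit 6)
  (nat_lit 42606) (nat_lit 8) nil nil) (node (nat_lit 7) (nat_lit 66547) (nat_lit 7) (node
  (nat_lit 4) (nat_lit 67065) (nat_lit 8) (node (nat_lit 6) (nat_lit 67424) (nat_lit 9) nil nil)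
  nil) nil)) (node (nat_lit 1) (nat_lit 64702) (nat_lit 6) nil (node (nat_lit 0) (nat_lit 64702)
  (nat_lit 6) nil nil)))) (node (nat_lit 4) (nat_lit 67222) (nat_lit 5) (node (nat_lit 6) (nat_lit
  69662) (nat_lit 6) (node (nat_lit 4) (nat_lit 70904) (nat_lit 7) nil nil) (node (nat_lit 7)
  (nat_lit 69645) (nat_lit 6) nil (node (nat_lit 1) (nat_lit 68454) (nat_lit 6) nil nil))) (node
  (nat_lit 1) (nat_lit 65505) (nat_lit 5) (node (nat_lit 6) (nat_lit 65185) (nat_lit 6) nil (node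
  (nat_lit 4) (nat_lit 61534) (nat_lit 6) (node (nat_lit 5) (nat_lit 54514) (nat_lit 7) (node
  (nat_lit 6) (nat_lit 28322) (nat_lit 8) nil nil) nil) nil)) (node (nat_lit 0) (nat_lit 66806)
  (nat_lit 5) (node (nat_lit 6) (nat_lit 68039) (nat_lit 6) nil nil) nil))))) nil)))))

noncomputable def t139 : Tr :=
  (node (nat_lit 0) (nat_lit 0) (nat_lit 2) (node (nat_lit 1) (nat_lit 0) (nat_lit 3) (node
  (nat_lit 4) (nat_lit 75967) (nat_lit 4) (node (nat_lit 6) (nat_lit 77857) (nat_lit 5) nil (node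
  (nat_lit 5) (nat_lit 27116) (nat_lit 5) (node (nat_lit 4) (nat_lit 27116) (nat_lit 6) (node
  (nat_lit 6) (nat_lit 27116) (nat_lit 7) (node (nat_lit 4) (nat_lit 27116) (nat_lit 8) (node
  (nat_lit 5) (nat_lit 27116) (nat_lit 9) nil (node (nat_lit 3) (nat_lit 27116) (nat_lit 9) (node
  (nat_lit 4) (nat_lit 27116) (nat_lit 10) (node (nat_lit 5) (nat_lit 27116) (nat_lit 11) (node
  (nat_lit 6) (nat_lit 27116) (nat_lit 12) (node (nat_lit 4) (nat_lit 27116) (nat_lit 13) nil nil)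
  nil) nil) nil) nil)) (node (nat_lit 5) (nat_lit 27116) (nat_lit 8) nil nil)) nil) (node (nat_lit
  3) (nat_lit 27116) (nat_lit 6) (node (nat_lit 6) (nat_lit 27116) (nat_lit 7) (node (nat_lit 4)
  (nat_lit 27116) (nat_lit 8) (node (nat_lit 9) (nat_lit 27116) (nat_lit 9) nil nil) (node
  (nat_lit 9) (nat_lit 27116) (nat_lit 8) (node (nat_lit 4) (nat_lit 27116) (nat_lit 9) (node
  (nat_lit 5) (nat_lit 27116) (nat_lit 10) nil nil) nil) nil)) (node (nat_lit 4) (nat_lit 27116)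
  (nat_lit 7) (node (nat_lit 5) (nat_lit 27116) (nat_lit 8) (node (nat_lit 6) (nat_lit 27116)
  (nat_lit 9) nil nil) nil) nil)) nil)) (node (nat_lit 3) (nat_lit 80327) (nat_lit 5) nil nil)))
  (node (nat_lit 5) (nat_lit 0) (nat_lit 4) (node (nat_lit 4) (nat_lit 77766) (nat_lit 5) (node
  (nat_lit 6) (nat_lit 79674) (nat_lit 6) (node (nat_lit 4) (nat_lit 82507) (nat_lit 7) (node
  (nat_lit 5) (nat_lit 82507) (nat_lit 8) (node (nat_lit 6) (nat_lit 82507) (nat_lit 9) (node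
  (nat_lit 5) (nat_lit 82507) (nat_lit 10) (node (nat_lit 4) (nat_lit 27116) (nat_lit 11) nil nil)
  nil) nil) nil) nil) (node (nat_lit 3) (nat_lit 82507) (nat_lit 6) nil nil)) (node (nat_lit 3)
  (nat_lit 82358) (nat_lit 5) (node (nat_lit 6) (nat_lit 82507) (nat_lit 6) (node (nat_lit 8)
  (nat_lit 82507) (nat_lit 7) nil (node (nat_lit 4) (nat_lit 81782) (nat_lit 7) (node (nat_lit 5)
  (nat_lit 77616) (nat_lit 8) (node (nat_lit 6) (nat_lit 67247) (nat_lit 9) nil nil) nil) nil))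
  (node (nat_lit 4) (nat_lit 82507) (nat_lit 6) (node (nat_lit 5) (nat_lit 82507) (nat_lit 7) nil
  nil) nil)) (node (nat_lit 0) (nat_lit 82507) (nat_lit 5) nil (node (nat_lit 2) (nat_lit 79269)
  (nat_lit 5) nil nil)))) (node (nat_lit 3) (nat_lit 76761) (nat_lit 4) (node (nat_lit 5) (nat_lit
  79668) (nat_lit 5) (node (nat_lit 7) (nat_lit 79668) (nat_lit 6) nil (node (nat_lit 6) (nat_lit
  79838) (nat_lit 6) nil nil)) (node (nat_lit 4) (nat_lit 80585) (nat_lit 5) (node (nat_lit 5)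
  (nat_lit 80755) (nat_lit 6) nil nil) (node (nat_lit 6) (nat_lit 80585) (nat_lit 5) (node
  (nat_lit 4) (nat_lit 77588) (nat_lit 6) (node (nat_lit 5) (nat_lit 67271) (nat_lit 7) (node
  (nat_lit 6) (nat_lit 54631) (nat_lit 8) nil nil) nil) nil) nil))) (node (nat_lit 0) (nat_lit
  76475) (nat_lit 4) (node (nat_lit 6) (nat_lit 80870) (nat_lit 5) nil nil) (node (nat_lit 2)
  (nat_lit 70746) (nat_lit 4) (node (nat_lit 5) (nat_lit 76805) (nat_lit 5) nil (node (nat_lit 6)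
  (nat_lit 74577) (nat_lit 5) (node (nat_lit 4) (nat_lit 72597) (nat_lit 6) (node (nat_lit 5)
  (nat_lit 62135) (nat_lit 7) (node (nat_lit 6) (nat_lit 52611) (nat_lit 8) nil nil) nil) nil)
  (node (nat_lit 4) (nat_lit 77573) (nat_lit 5) nil (node (nat_lit 3) (nat_lit 66867) (nat_lit 5)
  nil nil)))) nil))))) (node (nat_lit 3) (nat_lit 0) (nat_lit 3) (node (nat_lit 4) (nat_lit 75691)
  (nat_lit 4) (node (nat_lit 6) (nat_lit 75691) (nat_lit 5) nil (node (nat_lit 5) (nat_lit 48501)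
  (nat_lit 5) nil (node (nat_lit 1) (nat_lit 76419) (nat_lit 5) nil nil))) (node (nat_lit 5)
  (nat_lit 75807) (nat_lit 4) (node (nat_lit 4) (nat_lit 77373) (nat_lit 5) (node (nat_lit 6)
  (nat_lit 77837) (nat_lit 6) (node (nat_lit 4) (nat_lit 78675) (nat_lit 7) (node (nat_lit 5)
  (nat_lit 78827) (nat_lit 8) (node (nat_lit 6) (nat_lit 78827) (nat_lit 9) (node (nat_lit 5)
  (nat_lit 79031) (nat_lit 10) (node (nat_lit 4) (nat_lit 48108) (nat_lit 11) nil nil) nil) nil)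
  nil) (node (nat_lit 5) (nat_lit 78270) (nat_lit 7) (node (nat_lit 6) (nat_lit 78270) (nat_lit 8)
  (node (nat_lit 4) (nat_lit 78537) (nat_lit 9) (node (nat_lit 5) (nat_lit 78627) (nat_lit 10)
  (node (nat_lit 4) (nat_lit 78696) (nat_lit 11) (node (nat_lit 6) (nat_lit 78696) (nat_lit 12)
  (node (nat_lit 4) (nat_lit 78793) (nat_lit 13) (node (nat_lit 5) (nat_lit 78826) (nat_lit 14)
  (node (nat_lit 6) (nat_lit 78826) (nat_lit 15) (node (nat_lit 5) (nat_lit 78873) (nat_lit 16)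
  (node (nat_lit 4) (nat_lit 78889) (nat_lit 17) (node (nat_lit 6) (nat_lit 78889) (nat_lit 18)
  (node (nat_lit 5) (nat_lit 78910) (nat_lit 19) (node (nat_lit 6) (nat_lit 78910) (nat_lit 20)
  (node (nat_lit 4) (nat_lit 78924) (nat_lit 21) (node (nat_lit 5) (nat_lit 78928) (nat_lit 22)
  nil nil) nil) nil) nil) nil) nil) nil) nil) nil) nil) nil) nil) nil) nil) nil) nil)) (node
  (nat_lit 1) (nat_lit 78519) (nat_lit 6) (node (nat_lit 4) (nat_lit 78716) (nat_lit 7) (node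
  (nat_lit 5) (nat_lit 78891) (nat_lit 8) nil nil) nil) nil)) (node (nat_lit 1) (nat_lit 78026)
  (nat_lit 5) (node (nat_lit 6) (nat_lit 78026) (nat_lit 6) (node (nat_lit 8) (nat_lit 78364)
  (nat_lit 7) nil (node (nat_lit 4) (nat_lit 78364) (nat_lit 7) (node (nat_lit 5) (nat_lit 78442)
  (nat_lit 8) nil nil) nil)) (node (nat_lit 4) (nat_lit 78251) (nat_lit 6) (node (nat_lit 5)
  (nat_lit 78364) (nat_lit 7) (node (nat_lit 6) (nat_lit 78364) (nat_lit 8) nil nil) nil) nil))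
  nil)) (node (nat_lit 1) (nat_lit 75883) (nat_lit 4) (node (nat_lit 5) (nat_lit 77052) (nat_lit
  5) (node (nat_lit 7) (nat_lit 77278) (nat_lit 6) nil (node (nat_lit 6) (nat_lit 77052) (nat_lit
  6) (node (nat_lit 5) (nat_lit 77391) (nat_lit 7) (node (nat_lit 7) (nat_lit 77469) (nat_lit 8)
  nil nil) nil) nil)) (node (nat_lit 4) (nat_lit 71131) (nat_lit 5) (node (nat_lit 5) (nat_lit
  50667) (nat_lit 6) (node (nat_lit 6) (nat_lit 27959) (nat_lit 7) nil nil) (node (nat_lit 6)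
  (nat_lit 72988) (nat_lit 6) nil nil)) (node (nat_lit 6) (nat_lit 75883) (nat_lit 5) (node
  (nat_lit 4) (nat_lit 76508) (nat_lit 6) nil nil) nil))) (node (nat_lit 0) (nat_lit 75883)
  (nat_lit 4) (node (nat_lit 6) (nat_lit 75883) (nat_lit 5) nil nil) (node (nat_lit 2) (nat_lit 0)
  (nat_lit 4) (node (nat_lit 5) (nat_lit 76971) (nat_lit 5) nil (node (nat_lit 6) (nat_lit 70746)
  (nat_lit 5) (node (nat_lit 5) (nat_lit 74515) (nat_lit 6) nil (node (nat_lit 4) (nat_lit 73537)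
  (nat_lit 6) (node (nat_lit 5) (nat_lit 64262) (nat_lit 7) (node (nat_lit 6) (nat_lit 44989)
  (nat_lit 8) nil nil) nil) (node (nat_lit 1) (nat_lit 72507) (nat_lit 6) (node (nat_lit 5)
  (nat_lit 72620) (nat_lit 7) (node (nat_lit 6) (nat_lit 72620) (nat_lit 8) nil nil) nil) nil)))
  (node (nat_lit 4) (nat_lit 77504) (nat_lit 5) nil (node (nat_lit 1) (nat_lit 72124) (nat_lit 5)
  nil (node (nat_lit 0) (nat_lit 74171) (nat_lit 5) nil (node (nat_lit 2) (nat_lit 69949) (nat_lit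
  5) nil nil)))))) nil))))) (node (nat_lit 4) (nat_lit 0) (nat_lit 3) (node (nat_lit 1) (nat_lit
  74172) (nat_lit 4) (node (nat_lit 4) (nat_lit 77955) (nat_lit 5) (node (nat_lit 5) (nat_lit
  80253) (nat_lit 6) nil nil) (node (nat_lit 5) (nat_lit 77216) (nat_lit 5) (node (nat_lit 7)
  (nat_lit 79526) (nat_lit 6) (node (nat_lit 4) (nat_lit 80250) (nat_lit 7) (node (nat_lit 5)
  (nat_lit 80349) (nat_lit 8) (node (nat_lit 4) (nat_lit 80413) (nat_lit 9) (node (nat_lit 7)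
  (nat_lit 80461) (nat_lit 10) (node (nat_lit 5) (nat_lit 29784) (nat_lit 11) nil nil) nil) nil)
  nil) nil) (node (nat_lit 3) (nat_lit 78709) (nat_lit 6) nil nil)) (node (nat_lit 3) (nat_lit
  77355) (nat_lit 5) nil nil))) (node (nat_lit 3) (nat_lit 73734) (nat_lit 4) (node (nat_lit 4)
  (nat_lit 78399) (nat_lit 5) (node (nat_lit 5) (nat_lit 79450) (nat_lit 6) (node (nat_lit 4)
  (nat_lit 49104) (nat_lit 7) nil nil) nil) (node (nat_lit 5) (nat_lit 78745) (nat_lit 5) (node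
  (nat_lit 7) (nat_lit 78728) (nat_lit 6) (node (nat_lit 4) (nat_lit 80285) (nat_lit 7) (node
  (nat_lit 5) (nat_lit 80627) (nat_lit 8) (node (nat_lit 4) (nat_lit 80786) (nat_lit 9) (node
  (nat_lit 7) (nat_lit 80786) (nat_lit 10) nil nil) nil) nil) nil) nil) (node (nat_lit 1) (nat_lit
  79069) (nat_lit 5) nil nil))) (node (nat_lit 0) (nat_lit 77355) (nat_lit 4) nil (node (nat_lit
  2) (nat_lit 74440) (nat_lit 4) (node (nat_lit 3) (nat_lit 74747) (nat_lit 5) nil (node (nat_lit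
  1) (nat_lit 78690) (nat_lit 5) nil nil)) nil)))) (node (nat_lit 0) (nat_lit 0) (nat_lit 3) (node
  (nat_lit 5) (nat_lit 78329) (nat_lit 4) (node (nat_lit 1) (nat_lit 80137) (nat_lit 5) nil (node
  (nat_lit 3) (nat_lit 77853) (nat_lit 5) nil nil)) (node (nat_lit 4) (nat_lit 78296) (nat_lit 4)
  (node (nat_lit 1) (nat_lit 80038) (nat_lit 5) nil (node (nat_lit 3) (nat_lit 77480) (nat_lit 5)
  nil (node (nat_lit 5) (nat_lit 80137) (nat_lit 5) nil nil))) (node (nat_lit 1) (nat_lit 78185)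
  (nat_lit 4) (node (nat_lit 4) (nat_lit 78927) (nat_lit 5) (node (nat_lit 5) (nat_lit 79097)
  (nat_lit 6) nil nil) nil) (node (nat_lit 3) (nat_lit 74403) (nat_lit 4) (node (nat_lit 4)
  (nat_lit 77345) (nat_lit 5) (node (nat_lit 5) (nat_lit 78037) (nat_lit 6) nil nil) (node
  (nat_lit 5) (nat_lit 77235) (nat_lit 5) nil nil)) (node (nat_lit 0) (nat_lit 78185) (nat_lit 4)
  nil (node (nat_lit 2) (nat_lit 71931) (nat_lit 4) (node (nat_lit 6) (nat_lit 75305) (nat_lit 5)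
  nil (node (nat_lit 5) (nat_lit 75305) (nat_lit 5) nil (node (nat_lit 4) (nat_lit 75305) (nat_lit
  5) nil (node (nat_lit 1) (nat_lit 71068) (nat_lit 5) nil (node (nat_lit 3) (nat_lit 67616)
  (nat_lit 5) nil nil))))) nil)))))) (node (nat_lit 2) (nat_lit 0) (nat_lit 3) (node (nat_lit 5)
  (nat_lit 74271) (nat_lit 4) (node (nat_lit 4) (nat_lit 76830) (nat_lit 5) nil (node (nat_lit 3)
  (nat_lit 75407) (nat_lit 5) (node (nat_lit 4) (nat_lit 76547) (nat_lit 6) (node (nat_lit 5)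
  (nat_lit 76666) (nat_lit 7) (node (nat_lit 6) (nat_lit 76666) (nat_lit 8) nil nil) nil) nil)
  (node (nat_lit 1) (nat_lit 76377) (nat_lit 5) (node (nat_lit 4) (nat_lit 76547) (nat_lit 6)
  (node (nat_lit 5) (nat_lit 76666) (nat_lit 7) nil nil) nil) nil))) (node (nat_lit 4) (nat_lit
  75981) (nat_lit 4) (node (nat_lit 6) (nat_lit 76088) (nat_lit 5) (node (nat_lit 5) (nat_lit
  76830) (nat_lit 6) nil nil) (node (nat_lit 3) (nat_lit 75387) (nat_lit 5) (node (nat_lit 4)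
  (nat_lit 76547) (nat_lit 6) (node (nat_lit 5) (nat_lit 76666) (nat_lit 7) nil nil) nil) (node
  (nat_lit 1) (nat_lit 76377) (nat_lit 5) (node (nat_lit 4) (nat_lit 76547) (nat_lit 6) nil nil)
  (node (nat_lit 5) (nat_lit 76717) (nat_lit 5) nil nil)))) (node (nat_lit 1) (nat_lit 71397)
  (nat_lit 4) (node (nat_lit 4) (nat_lit 71129) (nat_lit 5) (node (nat_lit 5) (nat_lit 56032)
  (nat_lit 6) (node (nat_lit 6) (nat_lit 26157) (nat_lit 7) nil nil) nil) (node (nat_lit 6)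
  (nat_lit 71465) (nat_lit 5) nil (node (nat_lit 5) (nat_lit 75083) (nat_lit 5) nil (node (nat_lit
  3) (nat_lit 70581) (nat_lit 5) nil nil)))) (node (nat_lit 3) (nat_lit 0) (nat_lit 4) (node
  (nat_lit 4) (nat_lit 68268) (nat_lit 5) (node (nat_lit 5) (nat_lit 50419) (nat_lit 6) (node
  (nat_lit 6) (nat_lit 45551) (nat_lit 7) nil nil) nil) (node (nat_lit 6) (nat_lit 71331) (nat_lit
  5) (node (nat_lit 5) (nat_lit 75897) (nat_lit 6) nil (node (nat_lit 4) (nat_lit 74010) (nat_lit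
  6) nil (node (nat_lit 1) (nat_lit 72589) (nat_lit 6) nil nil))) (node (nat_lit 5) (nat_lit
  76510) (nat_lit 5) (node (nat_lit 7) (nat_lit 76510) (nat_lit 6) nil nil) (node (nat_lit 1)
  (nat_lit 69175) (nat_lit 5) nil (node (nat_lit 0) (nat_lit 72265) (nat_lit 5) nil (node (nat_lit
  2) (nat_lit 68598) (nat_lit 5) nil nil)))))) (node (nat_lit 0) (nat_lit 73690) (nat_lit 4) (node
  (nat_lit 6) (nat_lit 72874) (nat_lit 5) nil (node (nat_lit 3) (nat_lit 72874) (nat_lit 5) nil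
  (node (nat_lit 1) (nat_lit 75792) (nat_lit 5) nil nil))) (node (nat_lit 2) (nat_lit 69380)
  (nat_lit 4) (node (nat_lit 6) (nat_lit 70642) (nat_lit 5) (node (nat_lit 5) (nat_lit 72180)
  (nat_lit 6) nil (node (nat_lit 4) (nat_lit 72180) (nat_lit 6) nil (node (nat_lit 1) (nat_lit
  70139) (nat_lit 6) nil (node (nat_lit 3) (nat_lit 65660) (nat_lit 6) nil nil)))) (node (nat_lit
  5) (nat_lit 73301) (nat_lit 5) nil (node (nat_lit 4) (nat_lit 74961) (nat_lit 5) nil (node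
  (nat_lit 1) (nat_lit 70190) (nat_lit 5) nil (node (nat_lit 3) (nat_lit 65122) (nat_lit 5) (node
  (nat_lit 4) (nat_lit 62494) (nat_lit 6) (node (nat_lit 5) (nat_lit 44845) (nat_lit 7) nil nil)
  nil) nil))))) nil)))))) nil))))) (node (nat_lit 2) (nat_lit 0) (nat_lit 2) (node (nat_lit 1)
  (nat_lit 0) (nat_lit 3) t137 (node (nat_lit 3) (nat_lit 0) (nat_lit 3) t138 (node (nat_lit 4)
  (nat_lit 0) (nat_lit 3) (node (nat_lit 1) (nat_lit 0) (nat_lit 4) (node (nat_lit 4) (nat_lit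
  65079) (nat_lit 5) (node (nat_lit 5) (nat_lit 67793) (nat_lit 6) (node (nat_lit 4) (nat_lit
  28933) (nat_lit 7) nil nil) (node (nat_lit 3) (nat_lit 74402) (nat_lit 6) nil nil)) (node
  (nat_lit 5) (nat_lit 65079) (nat_lit 5) (node (nat_lit 7) (nat_lit 67808) (nat_lit 6) (node
  (nat_lit 4) (nat_lit 74499) (nat_lit 7) (node (nat_lit 5) (nat_lit 74169) (nat_lit 8) (node
  (nat_lit 4) (nat_lit 73240) (nat_lit 9) (node (nat_lit 7) (nat_lit 57035) (nat_lit 10) (node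
  (nat_lit 5) (nat_lit 29125) (nat_lit 11) nil (node (nat_lit 4) (nat_lit 57563) (nat_lit 11) nil
  nil)) nil) nil) (node (nat_lit 7) (nat_lit 74598) (nat_lit 8) (node (nat_lit 5) (nat_lit 74598)
  (nat_lit 9) (node (nat_lit 4) (nat_lit 74710) (nat_lit 10) (node (nat_lit 5) (nat_lit 74710)
  (nat_lit 11) (node (nat_lit 7) (nat_lit 74791) (nat_lit 12) (node (nat_lit 4) (nat_lit 74822)
  (nat_lit 13) (node (nat_lit 5) (nat_lit 74822) (nat_lit 14) (node (nat_lit 4) (nat_lit 74864)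
  (nat_lit 15) (node (nat_lit 7) (nat_lit 74877) (nat_lit 16) (node (nat_lit 5) (nat_lit 74370)
  (nat_lit 17) (node (nat_lit 7) (nat_lit 72453) (nat_lit 18) (node (nat_lit 4) (nat_lit 70364)
  (nat_lit 19) (node (nat_lit 7) (nat_lit 66097) (nat_lit 20) (node (nat_lit 5) (nat_lit 57306)
  (nat_lit 21) (node (nat_lit 4) (nat_lit 47042) (nat_lit 22) nil nil) nil) nil) nil) nil) nil)
  nil) nil) nil) nil) nil) nil) nil) nil) nil)) nil) (node (nat_lit 3) (nat_lit 70790) (nat_lit 6)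
  (node (nat_lit 4) (nat_lit 69527) (nat_lit 7) (node (nat_lit 7) (nat_lit 70790) (nat_lit 8)
  (node (nat_lit 4) (nat_lit 71496) (nat_lit 9) (node (nat_lit 5) (nat_lit 71088) (nat_lit 10) nil
  nil) nil) (node (nat_lit 5) (nat_lit 61120) (nat_lit 8) (node (nat_lit 4) (nat_lit 54499)
  (nat_lit 9) (node (nat_lit 7) (nat_lit 43876) (nat_lit 10) (node (nat_lit 5) (nat_lit 40403)
  (nat_lit 11) nil nil) nil) nil) nil)) nil) nil)) (node (nat_lit 3) (nat_lit 72709) (nat_lit 5)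
  (node (nat_lit 4) (nat_lit 73936) (nat_lit 6) (node (nat_lit 5) (nat_lit 73936) (nat_lit 7) nil
  nil) nil) (node (nat_lit 0) (nat_lit 74431) (nat_lit 5) nil (node (nat_lit 2) (nat_lit 72243)
  (nat_lit 5) nil nil))))) (node (nat_lit 3) (nat_lit 0) (nat_lit 4) (node (nat_lit 4) (nat_lit
  63376) (nat_lit 5) (node (nat_lit 5) (nat_lit 66321) (nat_lit 6) (node (nat_lit 4) (nat_lit
  43484) (nat_lit 7) nil nil) (node (nat_lit 1) (nat_lit 74779) (nat_lit 6) nil nil)) (node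
  (nat_lit 5) (nat_lit 63393) (nat_lit 5) (node (nat_lit 7) (nat_lit 66326) (nat_lit 6) (node
  (nat_lit 4) (nat_lit 70978) (nat_lit 7) (node (nat_lit 5) (nat_lit 69146) (nat_lit 8) (node
  (nat_lit 4) (nat_lit 67786) (nat_lit 9) (node (nat_lit 7) (nat_lit 53866) (nat_lit 10) (node
  (nat_lit 5) (nat_lit 41578) (nat_lit 11) nil nil) nil) nil) nil) nil) (node (nat_lit 1) (nat_lit
  74355) (nat_lit 6) (node (nat_lit 4) (nat_lit 72928) (nat_lit 7) nil nil) (node (nat_lit 4)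
  (nat_lit 66332) (nat_lit 6) (node (nat_lit 5) (nat_lit 71438) (nat_lit 7) (node (nat_lit 7)
  (nat_lit 71390) (nat_lit 8) (node (nat_lit 4) (nat_lit 72717) (nat_lit 9) (node (nat_lit 5)
  (nat_lit 72717) (nat_lit 10) (node (nat_lit 4) (nat_lit 73189) (nat_lit 11) (node (nat_lit 7)
  (nat_lit 72259) (nat_lit 12) (node (nat_lit 5) (nat_lit 63057) (nat_lit 13) nil nil) nil) nil)
  nil) nil) nil) nil) nil))) (node (nat_lit 1) (nat_lit 73884) (nat_lit 5) (node (nat_lit 4)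
  (nat_lit 75253) (nat_lit 6) (node (nat_lit 5) (nat_lit 66619) (nat_lit 7) nil nil) nil) (node
  (nat_lit 0) (nat_lit 73884) (nat_lit 5) nil (node (nat_lit 2) (nat_lit 69730) (nat_lit 5) (node
  (nat_lit 1) (nat_lit 75003) (nat_lit 6) nil nil) nil))))) (node (nat_lit 0) (nat_lit 68121)
  (nat_lit 4) (node (nat_lit 1) (nat_lit 74431) (nat_lit 5) (node (nat_lit 4) (nat_lit 74646)
  (nat_lit 6) nil nil) (node (nat_lit 3) (nat_lit 72709) (nat_lit 5) (node (nat_lit 4) (nat_lit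
  73936) (nat_lit 6) (node (nat_lit 5) (nat_lit 73936) (nat_lit 7) (node (nat_lit 4) (nat_lit
  74121) (nat_lit 8) nil nil) nil) nil) nil)) (node (nat_lit 2) (nat_lit 63863) (nat_lit 4) (node
  (nat_lit 5) (nat_lit 66398) (nat_lit 5) nil (node (nat_lit 4) (nat_lit 66389) (nat_lit 5) nil
  (node (nat_lit 3) (nat_lit 70143) (nat_lit 5) (node (nat_lit 4) (nat_lit 68070) (nat_lit 6)
  (node (nat_lit 5) (nat_lit 64110) (nat_lit 7) (node (nat_lit 4) (nat_lit 44251) (nat_lit 8)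
  (node (nat_lit 7) (nat_lit 43501) (nat_lit 9) nil nil) nil) nil) nil) (node (nat_lit 1) (nat_lit
  73792) (nat_lit 5) (node (nat_lit 4) (nat_lit 75235) (nat_lit 6) (node (nat_lit 5) (nat_lit
  68372) (nat_lit 7) (node (nat_lit 4) (nat_lit 40727) (nat_lit 8) (node (nat_lit 7) (nat_lit
  28126) (nat_lit 9) nil nil) nil) nil) nil) nil)))) nil)))) (node (nat_lit 0) (nat_lit 0)
  (nat_lit 3) (node (nat_lit 5) (nat_lit 73337) (nat_lit 4) (node (nat_lit 4) (nat_lit 75766)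
  (nat_lit 5) nil (node (nat_lit 3) (nat_lit 73314) (nat_lit 5) (node (nat_lit 4) (nat_lit 73151)
  (nat_lit 6) (node (nat_lit 5) (nat_lit 62210) (nat_lit 7) (node (nat_lit 6) (nat_lit 47867)
  (nat_lit 8) (node (nat_lit 8) (nat_lit 47343) (nat_lit 9) nil nil) nil) nil) nil) (node (nat_lit
  1) (nat_lit 75088) (nat_lit 5) (node (nat_lit 4) (nat_lit 75258) (nat_lit 6) (node (nat_lit 5)
  (nat_lit 67748) (nat_lit 7) (node (nat_lit 6) (nat_lit 45749) (nat_lit 8) nil nil) nil) nil)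
  nil))) (node (nat_lit 4) (nat_lit 73870) (nat_lit 4) (node (nat_lit 6) (nat_lit 75883) (nat_lit
  5) nil (node (nat_lit 1) (nat_lit 75883) (nat_lit 5) nil (node (nat_lit 3) (nat_lit 74928)
  (nat_lit 5) nil (node (nat_lit 5) (nat_lit 75883) (nat_lit 5) nil nil)))) (node (nat_lit 1)
  (nat_lit 74063) (nat_lit 4) (node (nat_lit 4) (nat_lit 75883) (nat_lit 5) (node (nat_lit 5)
  (nat_lit 74757) (nat_lit 6) nil nil) (node (nat_lit 3) (nat_lit 75043) (nat_lit 5) nil nil))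
  (node (nat_lit 3) (nat_lit 72957) (nat_lit 4) (node (nat_lit 4) (nat_lit 74708) (nat_lit 5)
  (node (nat_lit 5) (nat_lit 74708) (nat_lit 6) (node (nat_lit 6) (nat_lit 44605) (nat_lit 7) nil
  nil) nil) (node (nat_lit 6) (nat_lit 75766) (nat_lit 5) nil (node (nat_lit 5) (nat_lit 72957)
  (nat_lit 5) (node (nat_lit 7) (nat_lit 69974) (nat_lit 6) nil nil) (node (nat_lit 1) (nat_lit
  71500) (nat_lit 5) nil nil)))) (node (nat_lit 0) (nat_lit 74063) (nat_lit 4) nil (node (nat_lit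
  2) (nat_lit 73061) (nat_lit 4) (node (nat_lit 4) (nat_lit 74942) (nat_lit 5) nil nil) nil))))))
  (node (nat_lit 2) (nat_lit 0) (nat_lit 3) (node (nat_lit 5) (nat_lit 0) (nat_lit 4) (node
  (nat_lit 4) (nat_lit 65862) (nat_lit 5) (node (nat_lit 6) (nat_lit 67005) (nat_lit 6) (node
  (nat_lit 5) (nat_lit 67842) (nat_lit 7) (node (nat_lit 6) (nat_lit 71852) (nat_lit 8) nil (node
  (nat_lit 3) (nat_lit 70820) (nat_lit 8) nil (node (nat_lit 1) (nat_lit 68390) (nat_lit 8) nil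
  nil))) (node (nat_lit 4) (nat_lit 67846) (nat_lit 7) (node (nat_lit 5) (nat_lit 72032) (nat_lit
  8) nil (node (nat_lit 1) (nat_lit 74529) (nat_lit 8) nil (node (nat_lit 3) (nat_lit 74705)
  (nat_lit 8) nil nil))) (node (nat_lit 1) (nat_lit 73140) (nat_lit 7) nil (node (nat_lit 3)
  (nat_lit 72255) (nat_lit 7) nil (node (nat_lit 0) (nat_lit 73140) (nat_lit 7) nil nil))))) (node
  (nat_lit 1) (nat_lit 72120) (nat_lit 6) nil (node (nat_lit 3) (nat_lit 72126) (nat_lit 6) nil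
  (node (nat_lit 5) (nat_lit 67005) (nat_lit 6) (node (nat_lit 6) (nat_lit 67850) (nat_lit 7) nil
  (node (nat_lit 3) (nat_lit 72655) (nat_lit 7) nil (node (nat_lit 1) (nat_lit 72199) (nat_lit 7)
  nil nil))) nil)))) (node (nat_lit 1) (nat_lit 68962) (nat_lit 5) (node (nat_lit 6) (nat_lit
  71691) (nat_lit 6) (node (nat_lit 8) (nat_lit 69114) (nat_lit 7) nil nil) (node (nat_lit 4)
  (nat_lit 71544) (nat_lit 6) (node (nat_lit 5) (nat_lit 61999) (nat_lit 7) (node (nat_lit 6)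
  (nat_lit 47863) (nat_lit 8) nil nil) nil) (node (nat_lit 3) (nat_lit 68887) (nat_lit 6) nil
  nil))) (node (nat_lit 3) (nat_lit 64134) (nat_lit 5) (node (nat_lit 6) (nat_lit 64199) (nat_lit
  6) (node (nat_lit 8) (nat_lit 64188) (nat_lit 7) (node (nat_lit 5) (nat_lit 64177) (nat_lit 8)
  nil nil) (node (nat_lit 5) (nat_lit 64199) (nat_lit 7) nil nil)) (node (nat_lit 4) (nat_lit
  68113) (nat_lit 6) (node (nat_lit 5) (nat_lit 58064) (nat_lit 7) (node (nat_lit 6) (nat_lit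
  45894) (nat_lit 8) nil nil) nil) (node (nat_lit 1) (nat_lit 70623) (nat_lit 6) nil (node
  (nat_lit 5) (nat_lit 64189) (nat_lit 6) (node (nat_lit 6) (nat_lit 64172) (nat_lit 7) nil nil)
  (node (nat_lit 0) (nat_lit 70983) (nat_lit 6) nil nil))))) (node (nat_lit 0) (nat_lit 68962)
  (nat_lit 5) nil nil)))) (node (nat_lit 4) (nat_lit 0) (nat_lit 4) (node (nat_lit 6) (nat_lit
  65807) (nat_lit 5) (node (nat_lit 5) (nat_lit 66950) (nat_lit 6) (node (nat_lit 6) (nat_lit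
  67764) (nat_lit 7) (node (nat_lit 4) (nat_lit 71814) (nat_lit 8) (node (nat_lit 5) (nat_lit
  72831) (nat_lit 9) nil nil) (node (nat_lit 0) (nat_lit 75680) (nat_lit 8) nil (node (nat_lit 3)
  (nat_lit 75444) (nat_lit 8) nil (node (nat_lit 1) (nat_lit 75680) (nat_lit 8) nil nil)))) (node
  (nat_lit 4) (nat_lit 67817) (nat_lit 7) (node (nat_lit 5) (nat_lit 72134) (nat_lit 8) nil nil)
  (node (nat_lit 0) (nat_lit 73957) (nat_lit 7) nil nil))) (node (nat_lit 0) (nat_lit 72238)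
  (nat_lit 6) nil (node (nat_lit 1) (nat_lit 70827) (nat_lit 6) nil (node (nat_lit 3) (nat_lit
  71758) (nat_lit 6) nil nil)))) (node (nat_lit 3) (nat_lit 70378) (nat_lit 5) (node (nat_lit 4)
  (nat_lit 73172) (nat_lit 6) (node (nat_lit 5) (nat_lit 74005) (nat_lit 7) (node (nat_lit 6)
  (nat_lit 72774) (nat_lit 8) (node (nat_lit 4) (nat_lit 44129) (nat_lit 9) nil nil) nil) nil)
  nil) (node (nat_lit 1) (nat_lit 70392) (nat_lit 5) (node (nat_lit 4) (nat_lit 73441) (nat_lit 6)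
  (node (nat_lit 5) (nat_lit 71831) (nat_lit 7) (node (nat_lit 6) (nat_lit 70600) (nat_lit 8)
  (node (nat_lit 4) (nat_lit 24327) (nat_lit 9) nil nil) nil) nil) nil) (node (nat_lit 5) (nat_lit
  65804) (nat_lit 5) (node (nat_lit 4) (nat_lit 66955) (nat_lit 6) (node (nat_lit 6) (nat_lit
  67811) (nat_lit 7) (node (nat_lit 5) (nat_lit 72811) (nat_lit 8) nil nil) nil) (node (nat_lit 3)
  (nat_lit 71800) (nat_lit 6) nil (node (nat_lit 1) (nat_lit 72104) (nat_lit 6) nil nil))) (node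
  (nat_lit 0) (nat_lit 70392) (nat_lit 5) nil nil))))) (node (nat_lit 1) (nat_lit 0) (nat_lit 4)
  (node (nat_lit 4) (nat_lit 62318) (nat_lit 5) (node (nat_lit 7) (nat_lit 64672) (nat_lit 6) nil
  (node (nat_lit 6) (nat_lit 62163) (nat_lit 6) nil (node (nat_lit 5) (nat_lit 51672) (nat_lit 6)
  (node (nat_lit 6) (nat_lit 22725) (nat_lit 7) nil nil) nil))) (node (nat_lit 6) (nat_lit 69144)
  (nat_lit 5) (node (nat_lit 5) (nat_lit 70137) (nat_lit 6) nil (node (nat_lit 4) (nat_lit 71430)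
  (nat_lit 6) nil nil)) (node (nat_lit 5) (nat_lit 69076) (nat_lit 5) (node (nat_lit 7) (nat_lit
  71362) (nat_lit 6) (node (nat_lit 4) (nat_lit 63627) (nat_lit 7) nil nil) (node (nat_lit 6)
  (nat_lit 71112) (nat_lit 6) nil nil)) (node (nat_lit 3) (nat_lit 69685) (nat_lit 5) (node
  (nat_lit 4) (nat_lit 72874) (nat_lit 6) nil (node (nat_lit 5) (nat_lit 68891) (nat_lit 6) (node
  (nat_lit 7) (nat_lit 69243) (nat_lit 7) nil nil) nil)) (node (nat_lit 0) (nat_lit 67153)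
  (nat_lit 5) nil nil))))) (node (nat_lit 3) (nat_lit 0) (nat_lit 4) (node (nat_lit 4) (nat_lit
  55077) (nat_lit 5) (node (nat_lit 7) (nat_lit 56997) (nat_lit 6) (node (nat_lit 6) (nat_lit
  58295) (nat_lit 7) (node (nat_lit 7) (nat_lit 59171) (nat_lit 8) nil (node (nat_lit 5) (nat_lit
  58856) (nat_lit 8) nil nil)) (node (nat_lit 5) (nat_lit 58295) (nat_lit 7) nil nil)) (node
  (nat_lit 6) (nat_lit 56916) (nat_lit 6) (node (nat_lit 5) (nat_lit 58215) (nat_lit 7) (node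
  (nat_lit 6) (nat_lit 59090) (nat_lit 8) (node (nat_lit 7) (nat_lit 58823) (nat_lit 9) nil nil)
  nil) nil) (node (nat_lit 5) (nat_lit 46651) (nat_lit 6) (node (nat_lit 6) (nat_lit 41723)
  (nat_lit 7) nil (node (nat_lit 7) (nat_lit 45151) (nat_lit 7) nil nil)) (node (nat_lit 1)
  (nat_lit 56997) (nat_lit 6) nil nil)))) (node (nat_lit 6) (nat_lit 63064) (nat_lit 5) (node
  (nat_lit 5) (nat_lit 64151) (nat_lit 6) (node (nat_lit 6) (nat_lit 64151) (nat_lit 7) (node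
  (nat_lit 7) (nat_lit 64173) (nat_lit 8) nil nil) (node (nat_lit 7) (nat_lit 64151) (nat_lit 7)
  nil nil)) (node (nat_lit 4) (nat_lit 65717) (nat_lit 6) (node (nat_lit 7) (nat_lit 67640)
  (nat_lit 7) nil nil) (node (nat_lit 1) (nat_lit 65387) (nat_lit 6) nil (node (nat_lit 0)
  (nat_lit 65771) (nat_lit 6) nil nil)))) (node (nat_lit 5) (nat_lit 63013) (nat_lit 5) (node
  (nat_lit 7) (nat_lit 64133) (nat_lit 6) (node (nat_lit 6) (nat_lit 64133) (nat_lit 7) (node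
  (nat_lit 7) (nat_lit 64142) (nat_lit 8) nil nil) (node (nat_lit 4) (nat_lit 64673) (nat_lit 7)
  nil nil)) (node (nat_lit 6) (nat_lit 64126) (nat_lit 6) (node (nat_lit 5) (nat_lit 64138)
  (nat_lit 7) (node (nat_lit 7) (nat_lit 64146) (nat_lit 8) nil nil) nil) (node (nat_lit 4)
  (nat_lit 65666) (nat_lit 6) nil (node (nat_lit 1) (nat_lit 63555) (nat_lit 6) nil (node (nat_lit
  0) (nat_lit 65767) (nat_lit 6) nil nil))))) (node (nat_lit 1) (nat_lit 63127) (nat_lit 5) (node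
  (nat_lit 7) (nat_lit 65779) (nat_lit 6) (node (nat_lit 6) (nat_lit 66575) (nat_lit 7) (node
  (nat_lit 7) (nat_lit 65853) (nat_lit 8) nil nil) (node (nat_lit 4) (nat_lit 66165) (nat_lit 7)
  nil nil)) (node (nat_lit 4) (nat_lit 59491) (nat_lit 6) (node (nat_lit 5) (nat_lit 46761)
  (nat_lit 7) (node (nat_lit 6) (nat_lit 18629) (nat_lit 8) nil nil) nil) (node (nat_lit 5)
  (nat_lit 65779) (nat_lit 6) (node (nat_lit 7) (nat_lit 66508) (nat_lit 7) nil (node (nat_lit 8)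
  (nat_lit 66612) (nat_lit 7) nil nil)) (node (nat_lit 6) (nat_lit 65779) (nat_lit 6) nil nil))))
  (node (nat_lit 0) (nat_lit 63127) (nat_lit 5) (node (nat_lit 7) (nat_lit 65779) (nat_lit 6) nil
  nil) nil))))) (node (nat_lit 0) (nat_lit 0) (nat_lit 4) (node (nat_lit 6) (nat_lit 69317)
  (nat_lit 5) nil (node (nat_lit 5) (nat_lit 69271) (nat_lit 5) nil (node (nat_lit 4) (nat_lit
  70466) (nat_lit 5) nil (node (nat_lit 1) (nat_lit 70466) (nat_lit 5) nil (node (nat_lit 3)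
  (nat_lit 69454) (nat_lit 5) nil (node (nat_lit 0) (nat_lit 70466) (nat_lit 5) nil nil))))))
  nil))))) nil))))) nil))

noncomputable def t140 : Tr :=
  (node (nat_lit 1) (nat_lit 0) (nat_lit 2) (node (nat_lit 1) (nat_lit 0) (nat_lit 3) (node
  (nat_lit 4) (nat_lit 117423) (nat_lit 4) (node (nat_lit 5) (nat_lit 77192) (nat_lit 5) (node
  (nat_lit 4) (nat_lit 77733) (nat_lit 6) nil (node (nat_lit 3) (nat_lit 77733) (nat_lit 6) nil
  nil)) (node (nat_lit 6) (nat_lit 120949) (nat_lit 5) (node (nat_lit 5) (nat_lit 123061) (nat_lit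
  6) nil nil) nil)) (node (nat_lit 3) (nat_lit 124791) (nat_lit 4) (node (nat_lit 4) (nat_lit
  129945) (nat_lit 5) nil nil) (node (nat_lit 5) (nat_lit 116584) (nat_lit 4) (node (nat_lit 4)
  (nat_lit 120857) (nat_lit 5) (node (nat_lit 5) (nat_lit 123291) (nat_lit 6) (node (nat_lit 6)
  (nat_lit 82507) (nat_lit 7) (node (nat_lit 4) (nat_lit 82507) (nat_lit 8) (node (nat_lit 6)
  (nat_lit 82507) (nat_lit 9) (node (nat_lit 5) (nat_lit 82507) (nat_lit 10) (node (nat_lit 4)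
  (nat_lit 82507) (nat_lit 11) (node (nat_lit 6) (nat_lit 82507) (nat_lit 12) (node (nat_lit 4)
  (nat_lit 82507) (nat_lit 13) (node (nat_lit 5) (nat_lit 82507) (nat_lit 14) (node (nat_lit 6)
  (nat_lit 82507) (nat_lit 15) (node (nat_lit 5) (nat_lit 82507) (nat_lit 16) (node (nat_lit 4)
  (nat_lit 82507) (nat_lit 17) (node (nat_lit 5) (nat_lit 82507) (nat_lit 18) (node (nat_lit 6)
  (nat_lit 82507) (nat_lit 19) (node (nat_lit 4) (nat_lit 82507) (nat_lit 20) (node (nat_lit 6)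
  (nat_lit 82507) (nat_lit 21) (node (nat_lit 5) (nat_lit 82507) (nat_lit 22) (node (nat_lit 4)
  (nat_lit 27116) (nat_lit 23) nil nil) nil) nil) nil) nil) nil) nil) nil) nil) nil) nil) nil)
  nil) nil) nil) nil) nil) nil) nil) (node (nat_lit 0) (nat_lit 124791) (nat_lit 4) nil (node
  (nat_lit 2) (nat_lit 121049) (nat_lit 4) nil nil))))) (node (nat_lit 3) (nat_lit 0) (nat_lit 3)
  (node (nat_lit 4) (nat_lit 111451) (nat_lit 4) (node (nat_lit 5) (nat_lit 85844) (nat_lit 5) nil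
  nil) (node (nat_lit 1) (nat_lit 119829) (nat_lit 4) (node (nat_lit 4) (nat_lit 115855) (nat_lit
  5) nil nil) (node (nat_lit 5) (nat_lit 111453) (nat_lit 4) (node (nat_lit 4) (nat_lit 116779)
  (nat_lit 5) (node (nat_lit 5) (nat_lit 102442) (nat_lit 6) (node (nat_lit 6) (nat_lit 78987)
  (nat_lit 7) nil nil) nil) nil) (node (nat_lit 0) (nat_lit 120439) (nat_lit 4) nil (node (nat_lit
  2) (nat_lit 113823) (nat_lit 4) nil nil))))) (node (nat_lit 4) (nat_lit 0) (nat_lit 3) (node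
  (nat_lit 1) (nat_lit 74172) (nat_lit 4) (node (nat_lit 4) (nat_lit 77955) (nat_lit 5) (node
  (nat_lit 5) (nat_lit 80253) (nat_lit 6) nil nil) (node (nat_lit 5) (nat_lit 77216) (nat_lit 5)
  (node (nat_lit 7) (nat_lit 79526) (nat_lit 6) (node (nat_lit 4) (nat_lit 80250) (nat_lit 7)
  (node (nat_lit 5) (nat_lit 80349) (nat_lit 8) (node (nat_lit 4) (nat_lit 80413) (nat_lit 9)
  (node (nat_lit 7) (nat_lit 80461) (nat_lit 10) nil nil) nil) nil) nil) nil) (node (nat_lit 3)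
  (nat_lit 77355) (nat_lit 5) nil nil))) (node (nat_lit 3) (nat_lit 73734) (nat_lit 4) (node
  (nat_lit 4) (nat_lit 78399) (nat_lit 5) (node (nat_lit 5) (nat_lit 79450) (nat_lit 6) (node
  (nat_lit 4) (nat_lit 49104) (nat_lit 7) nil nil) nil) (node (nat_lit 5) (nat_lit 78745) (nat_lit
  5) (node (nat_lit 7) (nat_lit 78728) (nat_lit 6) (node (nat_lit 4) (nat_lit 80285) (nat_lit 7)
  (node (nat_lit 5) (nat_lit 80627) (nat_lit 8) (node (nat_lit 4) (nat_lit 80786) (nat_lit 9)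
  (node (nat_lit 7) (nat_lit 80786) (nat_lit 10) nil nil) nil) nil) nil) nil) (node (nat_lit 1)
  (nat_lit 79069) (nat_lit 5) (node (nat_lit 4) (nat_lit 75604) (nat_lit 6) (node (nat_lit 5)
  (nat_lit 63967) (nat_lit 7) nil nil) nil) nil))) (node (nat_lit 0) (nat_lit 77355) (nat_lit 4)
  (node (nat_lit 3) (nat_lit 77355) (nat_lit 5) nil (node (nat_lit 1) (nat_lit 78880) (nat_lit 5)
  nil nil)) (node (nat_lit 2) (nat_lit 74440) (nat_lit 4) (node (nat_lit 3) (nat_lit 74747)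
  (nat_lit 5) (node (nat_lit 4) (nat_lit 74984) (nat_lit 6) (node (nat_lit 5) (nat_lit 67553)
  (nat_lit 7) (node (nat_lit 4) (nat_lit 50221) (nat_lit 8) nil nil) nil) nil) (node (nat_lit 1)
  (nat_lit 78690) (nat_lit 5) (node (nat_lit 4) (nat_lit 75604) (nat_lit 6) (node (nat_lit 5)
  (nat_lit 63967) (nat_lit 7) (node (nat_lit 4) (nat_lit 49832) (nat_lit 8) nil nil) nil) nil)
  nil)) nil)))) (node (nat_lit 0) (nat_lit 0) (nat_lit 3) (node (nat_lit 5) (nat_lit 123320)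
  (nat_lit 4) (node (nat_lit 4) (nat_lit 127516) (nat_lit 5) nil nil) (node (nat_lit 4) (nat_lit
  123320) (nat_lit 4) (node (nat_lit 5) (nat_lit 127516) (nat_lit 5) nil nil) (node (nat_lit 0)
  (nat_lit 123787) (nat_lit 4) nil (node (nat_lit 2) (nat_lit 121472) (nat_lit 4) nil (node
  (nat_lit 1) (nat_lit 125574) (nat_lit 4) nil (node (nat_lit 3) (nat_lit 125342) (nat_lit 4) nil
  nil)))))) (node (nat_lit 2) (nat_lit 0) (nat_lit 3) (node (nat_lit 5) (nat_lit 111014) (nat_lit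
  4) (node (nat_lit 4) (nat_lit 117126) (nat_lit 5) (node (nat_lit 5) (nat_lit 107281) (nat_lit 6)
  (node (nat_lit 6) (nat_lit 76830) (nat_lit 7) nil nil) nil) nil) (node (nat_lit 4) (nat_lit
  113428) (nat_lit 4) (node (nat_lit 6) (nat_lit 117117) (nat_lit 5) nil (node (nat_lit 5)
  (nat_lit 117147) (nat_lit 5) nil nil)) (node (nat_lit 0) (nat_lit 119806) (nat_lit 4) nil (node
  (nat_lit 1) (nat_lit 117513) (nat_lit 4) (node (nat_lit 4) (nat_lit 115854) (nat_lit 5) (node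
  (nat_lit 5) (nat_lit 102148) (nat_lit 6) nil nil) nil) (node (nat_lit 3) (nat_lit 113868)
  (nat_lit 4) (node (nat_lit 5) (nat_lit 121373) (nat_lit 5) nil (node (nat_lit 4) (nat_lit
  112538) (nat_lit 5) (node (nat_lit 5) (nat_lit 96536) (nat_lit 6) (node (nat_lit 6) (nat_lit
  91105) (nat_lit 7) nil nil) nil) nil)) (node (nat_lit 2) (nat_lit 113936) (nat_lit 4) nil
  nil)))))) nil))))) (node (nat_lit 3) (nat_lit 0) (nat_lit 2) (node (nat_lit 1) (nat_lit 0)
  (nat_lit 3) (node (nat_lit 4) (nat_lit 0) (nat_lit 4) (node (nat_lit 5) (nat_lit 75089) (nat_lit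
  5) nil (node (nat_lit 6) (nat_lit 96539) (nat_lit 5) (node (nat_lit 5) (nat_lit 100052) (nat_lit
  6) (node (nat_lit 4) (nat_lit 101614) (nat_lit 7) (node (nat_lit 5) (nat_lit 102727) (nat_lit 8)
  (node (nat_lit 6) (nat_lit 103561) (nat_lit 9) (node (nat_lit 4) (nat_lit 104213) (nat_lit 10)
  (node (nat_lit 6) (nat_lit 76524) (nat_lit 11) nil nil) nil) nil) nil) nil) nil) (node (nat_lit
  1) (nat_lit 101315) (nat_lit 5) (node (nat_lit 6) (nat_lit 102548) (nat_lit 6) nil nil) (node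
  (nat_lit 0) (nat_lit 101315) (nat_lit 5) nil (node (nat_lit 2) (nat_lit 100031) (nat_lit 5) nil
  nil))))) (node (nat_lit 1) (nat_lit 115765) (nat_lit 4) (node (nat_lit 5) (nat_lit 120698)
  (nat_lit 5) nil (node (nat_lit 6) (nat_lit 120753) (nat_lit 5) nil (node (nat_lit 4) (nat_lit
  121232) (nat_lit 5) (node (nat_lit 5) (nat_lit 122478) (nat_lit 6) nil nil) nil))) (node
  (nat_lit 5) (nat_lit 106366) (nat_lit 4) (node (nat_lit 4) (nat_lit 112509) (nat_lit 5) (node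
  (nat_lit 5) (nat_lit 113844) (nat_lit 6) (node (nat_lit 6) (nat_lit 90095) (nat_lit 7) (node
  (nat_lit 4) (nat_lit 90975) (nat_lit 8) (node (nat_lit 6) (nat_lit 91634) (nat_lit 9) (node
  (nat_lit 5) (nat_lit 91145) (nat_lit 10) (node (nat_lit 4) (nat_lit 91579) (nat_lit 11) (node
  (nat_lit 6) (nat_lit 91893) (nat_lit 12) (node (nat_lit 4) (nat_lit 92137) (nat_lit 13) (node
  (nat_lit 5) (nat_lit 92305) (nat_lit 14) (node (nat_lit 6) (nat_lit 92477) (nat_lit 15) (node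
  (nat_lit 5) (nat_lit 92356) (nat_lit 16) (node (nat_lit 4) (nat_lit 92404) (nat_lit 17) (node
  (nat_lit 5) (nat_lit 92319) (nat_lit 18) (node (nat_lit 6) (nat_lit 92348) (nat_lit 19) (node
  (nat_lit 4) (nat_lit 92371) (nat_lit 20) (node (nat_lit 6) (nat_lit 92389) (nat_lit 21) (node
  (nat_lit 5) (nat_lit 92357) (nat_lit 22) (node (nat_lit 4) (nat_lit 45442) (nat_lit 23) nil nil)
  nil) nil) nil) nil) nil) nil) nil) nil) nil) nil) nil) nil) nil) nil) nil) nil) nil) nil) (node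
  (nat_lit 0) (nat_lit 115765) (nat_lit 4) nil (node (nat_lit 2) (nat_lit 112555) (nat_lit 4) nil
  nil))))) (node (nat_lit 4) (nat_lit 0) (nat_lit 3) (node (nat_lit 1) (nat_lit 78244) (nat_lit 4)
  (node (nat_lit 4) (nat_lit 80208) (nat_lit 5) (node (nat_lit 5) (nat_lit 81736) (nat_lit 6)
  (node (nat_lit 7) (nat_lit 89800) (nat_lit 7) (node (nat_lit 5) (nat_lit 89800) (nat_lit 8)
  (node (nat_lit 4) (nat_lit 89800) (nat_lit 9) (node (nat_lit 5) (nat_lit 89471) (nat_lit 10)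
  (node (nat_lit 7) (nat_lit 89654) (nat_lit 11) (node (nat_lit 4) (nat_lit 89800) (nat_lit 12)
  (node (nat_lit 5) (nat_lit 89536) (nat_lit 13) (node (nat_lit 4) (nat_lit 89641) (nat_lit 14)
  (node (nat_lit 7) (nat_lit 89718) (nat_lit 15) (node (nat_lit 4) (nat_lit 89242) (nat_lit 16)
  (node (nat_lit 5) (nat_lit 86958) (nat_lit 17) (node (nat_lit 7) (nat_lit 82699) (nat_lit 18)
  (node (nat_lit 5) (nat_lit 74030) (nat_lit 19) (node (nat_lit 4) (nat_lit 60673) (nat_lit 20)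
  nil nil) nil) nil) nil) nil) nil) nil) nil) nil) nil) nil) nil) nil) (node (nat_lit 4) (nat_lit
  44900) (nat_lit 7) nil nil)) nil) (node (nat_lit 5) (nat_lit 80024) (nat_lit 5) (node (nat_lit
  7) (nat_lit 81744) (nat_lit 6) (node (nat_lit 4) (nat_lit 89138) (nat_lit 7) (node (nat_lit 5)
  (nat_lit 88437) (nat_lit 8) (node (nat_lit 4) (nat_lit 87234) (nat_lit 9) (node (nat_lit 7)
  (nat_lit 71068) (nat_lit 10) (node (nat_lit 5) (nat_lit 42915) (nat_lit 11) nil nil) nil) nil)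
  nil) nil) nil) (node (nat_lit 1) (nat_lit 89800) (nat_lit 5) nil nil))) (node (nat_lit 0)
  (nat_lit 89116) (nat_lit 4) nil (node (nat_lit 2) (nat_lit 87627) (nat_lit 4) nil nil))) (node
  (nat_lit 0) (nat_lit 0) (nat_lit 3) (node (nat_lit 1) (nat_lit 122670) (nat_lit 4) nil (node
  (nat_lit 5) (nat_lit 120704) (nat_lit 4) (node (nat_lit 4) (nat_lit 124117) (nat_lit 5) nil nil)
  (node (nat_lit 4) (nat_lit 122380) (nat_lit 4) (node (nat_lit 5) (nat_lit 122890) (nat_lit 5)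
  nil nil) (node (nat_lit 0) (nat_lit 122670) (nat_lit 4) nil (node (nat_lit 2) (nat_lit 120851)
  (nat_lit 4) nil nil))))) (node (nat_lit 2) (nat_lit 0) (nat_lit 3) (node (nat_lit 1) (nat_lit
  113783) (nat_lit 4) (node (nat_lit 4) (nat_lit 108027) (nat_lit 5) (node (nat_lit 5) (nat_lit
  94678) (nat_lit 6) nil nil) nil) (node (nat_lit 5) (nat_lit 104087) (nat_lit 4) (node (nat_lit
  4) (nat_lit 108437) (nat_lit 5) (node (nat_lit 5) (nat_lit 93303) (nat_lit 6) (node (nat_lit 6)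
  (nat_lit 91952) (nat_lit 7) nil nil) nil) nil) (node (nat_lit 4) (nat_lit 108285) (nat_lit 4)
  (node (nat_lit 6) (nat_lit 111692) (nat_lit 5) (node (nat_lit 5) (nat_lit 113907) (nat_lit 6)
  nil nil) (node (nat_lit 5) (nat_lit 111693) (nat_lit 5) nil nil)) (node (nat_lit 0) (nat_lit
  118889) (nat_lit 4) nil (node (nat_lit 2) (nat_lit 107289) (nat_lit 4) (node (nat_lit 5)
  (nat_lit 111425) (nat_lit 5) nil (node (nat_lit 6) (nat_lit 111358) (nat_lit 5) nil nil))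
  nil))))) nil)))) (node (nat_lit 0) (nat_lit 0) (nat_lit 2) (node (nat_lit 1) (nat_lit 0)
  (nat_lit 3) (node (nat_lit 4) (nat_lit 126850) (nat_lit 4) (node (nat_lit 5) (nat_lit 80137)
  (nat_lit 5) nil nil) (node (nat_lit 1) (nat_lit 128120) (nat_lit 4) nil (node (nat_lit 3)
  (nat_lit 126145) (nat_lit 4) nil (node (nat_lit 5) (nat_lit 126011) (nat_lit 4) nil (node
  (nat_lit 0) (nat_lit 128120) (nat_lit 4) nil (node (nat_lit 2) (nat_lit 122369) (nat_lit 4) nil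
  nil)))))) (node (nat_lit 0) (nat_lit 0) (nat_lit 3) (node (nat_lit 1) (nat_lit 129535) (nat_lit
  4) nil (node (nat_lit 4) (nat_lit 129535) (nat_lit 4) (node (nat_lit 5) (nat_lit 130048)
  (nat_lit 5) nil nil) (node (nat_lit 5) (nat_lit 129535) (nat_lit 4) nil (node (nat_lit 0)
  (nat_lit 129535) (nat_lit 4) nil (node (nat_lit 2) (nat_lit 120372) (nat_lit 4) nil (node
  (nat_lit 3) (nat_lit 123787) (nat_lit 4) (node (nat_lit 4) (nat_lit 126729) (nat_lit 5) (node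
  (nat_lit 5) (nat_lit 127421) (nat_lit 6) nil nil) nil) nil)))))) (node (nat_lit 3) (nat_lit 0)
  (nat_lit 3) (node (nat_lit 1) (nat_lit 124867) (nat_lit 4) nil (node (nat_lit 4) (nat_lit
  124675) (nat_lit 4) (node (nat_lit 5) (nat_lit 97967) (nat_lit 5) nil nil) (node (nat_lit 5)
  (nat_lit 124790) (nat_lit 4) nil (node (nat_lit 0) (nat_lit 124867) (nat_lit 4) nil (node
  (nat_lit 2) (nat_lit 118251) (nat_lit 4) (node (nat_lit 6) (nat_lit 116041) (nat_lit 5) nil nil)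
  nil))))) (node (nat_lit 2) (nat_lit 0) (nat_lit 3) (node (nat_lit 1) (nat_lit 121817) (nat_lit
  4) (node (nat_lit 4) (nat_lit 121410) (nat_lit 5) (node (nat_lit 5) (nat_lit 106452) (nat_lit 6)
  (node (nat_lit 6) (nat_lit 75961) (nat_lit 7) nil nil) nil) nil) (node (nat_lit 4) (nat_lit
  125072) (nat_lit 4) (node (nat_lit 5) (nat_lit 125700) (nat_lit 5) nil nil) (node (nat_lit 5)
  (nat_lit 124691) (nat_lit 4) nil (node (nat_lit 0) (nat_lit 124110) (nat_lit 4) nil (node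
  (nat_lit 3) (nat_lit 118049) (nat_lit 4) (node (nat_lit 4) (nat_lit 116463) (nat_lit 5) (node
  (nat_lit 5) (nat_lit 100839) (nat_lit 6) (node (nat_lit 6) (nat_lit 91102) (nat_lit 7) nil nil)
  nil) nil) (node (nat_lit 2) (nat_lit 118364) (nat_lit 4) (node (nat_lit 6) (nat_lit 115617)
  (nat_lit 5) nil nil) nil)))))) (node (nat_lit 4) (nat_lit 0) (nat_lit 3) (node (nat_lit 1)
  (nat_lit 123793) (nat_lit 4) (node (nat_lit 4) (nat_lit 127059) (nat_lit 5) nil nil) (node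
  (nat_lit 0) (nat_lit 127026) (nat_lit 4) nil (node (nat_lit 2) (nat_lit 124112) (nat_lit 4) nil
  (node (nat_lit 3) (nat_lit 123406) (nat_lit 4) nil nil)))) nil))))) (node (nat_lit 2) (nat_lit
  0) (nat_lit 2) (node (nat_lit 1) (nat_lit 0) (nat_lit 3) (node (nat_lit 4) (nat_lit 99840)
  (nat_lit 4) (node (nat_lit 5) (nat_lit 75883) (nat_lit 5) nil (node (nat_lit 6) (nat_lit 102189)
  (nat_lit 5) (node (nat_lit 5) (nat_lit 105702) (nat_lit 6) nil nil) (node (nat_lit 3) (nat_lit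
  105682) (nat_lit 5) nil (node (nat_lit 1) (nat_lit 106966) (nat_lit 5) nil nil)))) (node
  (nat_lit 1) (nat_lit 118147) (nat_lit 4) (node (nat_lit 4) (nat_lit 122702) (nat_lit 5) nil nil)
  (node (nat_lit 3) (nat_lit 115331) (nat_lit 4) (node (nat_lit 4) (nat_lit 121855) (nat_lit 5)
  nil nil) (node (nat_lit 5) (nat_lit 107118) (nat_lit 4) (node (nat_lit 4) (nat_lit 111808)
  (nat_lit 5) (node (nat_lit 6) (nat_lit 114882) (nat_lit 6) (node (nat_lit 4) (nat_lit 122702)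
  (nat_lit 7) (node (nat_lit 5) (nat_lit 122702) (nat_lit 8) (node (nat_lit 6) (nat_lit 122702)
  (nat_lit 9) (node (nat_lit 5) (nat_lit 122702) (nat_lit 10) nil nil) nil) nil) nil) nil) nil)
  (node (nat_lit 0) (nat_lit 118147) (nat_lit 4) nil (node (nat_lit 2) (nat_lit 113815) (nat_lit
  4) (node (nat_lit 6) (nat_lit 115892) (nat_lit 5) nil nil) nil)))))) (node (nat_lit 3) (nat_lit
  0) (nat_lit 3) (node (nat_lit 1) (nat_lit 105618) (nat_lit 4) (node (nat_lit 6) (nat_lit 113384)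
  (nat_lit 5) nil (node (nat_lit 1) (nat_lit 114064) (nat_lit 5) nil (node (nat_lit 4) (nat_lit
  103460) (nat_lit 5) (node (nat_lit 5) (nat_lit 97605) (nat_lit 6) (node (nat_lit 6) (nat_lit
  69749) (nat_lit 7) nil nil) nil) nil))) (node (nat_lit 4) (nat_lit 0) (nat_lit 4) (node (nat_lit
  5) (nat_lit 91952) (nat_lit 5) nil (node (nat_lit 6) (nat_lit 93303) (nat_lit 5) (node (nat_lit
  5) (nat_lit 98311) (nat_lit 6) (node (nat_lit 4) (nat_lit 100011) (nat_lit 7) (node (nat_lit 6)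
  (nat_lit 101124) (nat_lit 8) (node (nat_lit 4) (nat_lit 101958) (nat_lit 9) (node (nat_lit 5)
  (nat_lit 102754) (nat_lit 10) (node (nat_lit 6) (nat_lit 103262) (nat_lit 11) (node (nat_lit 4)
  (nat_lit 103658) (nat_lit 12) (node (nat_lit 6) (nat_lit 103968) (nat_lit 13) (node (nat_lit 5)
  (nat_lit 104209) (nat_lit 14) nil nil) nil) nil) nil) nil) nil) nil) nil) (node (nat_lit 1)
  (nat_lit 99969) (nat_lit 6) nil nil)) (node (nat_lit 1) (nat_lit 100057) (nat_lit 5) (node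
  (nat_lit 4) (nat_lit 101290) (nat_lit 6) (node (nat_lit 5) (nat_lit 102265) (nat_lit 7) (node
  (nat_lit 6) (nat_lit 102783) (nat_lit 8) nil nil) nil) nil) (node (nat_lit 0) (nat_lit 100057)
  (nat_lit 5) nil (node (nat_lit 2) (nat_lit 96696) (nat_lit 5) nil nil))))) (node (nat_lit 5)
  (nat_lit 98927) (nat_lit 4) (node (nat_lit 4) (nat_lit 106952) (nat_lit 5) (node (nat_lit 6)
  (nat_lit 110282) (nat_lit 6) (node (nat_lit 4) (nat_lit 113777) (nat_lit 7) (node (nat_lit 5)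
  (nat_lit 115412) (nat_lit 8) (node (nat_lit 6) (nat_lit 116654) (nat_lit 9) (node (nat_lit 5)
  (nat_lit 117305) (nat_lit 10) nil nil) nil) nil) nil) nil) (node (nat_lit 1) (nat_lit 113527)
  (nat_lit 5) nil nil)) (node (nat_lit 0) (nat_lit 109725) (nat_lit 4) nil (node (nat_lit 2)
  (nat_lit 105354) (nat_lit 4) (node (nat_lit 6) (nat_lit 105813) (nat_lit 5) (node (nat_lit 4)
  (nat_lit 111744) (nat_lit 6) (node (nat_lit 5) (nat_lit 107938) (nat_lit 7) (node (nat_lit 6)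
  (nat_lit 89258) (nat_lit 8) (node (nat_lit 7) (nat_lit 83707) (nat_lit 9) nil nil) nil) nil)
  nil) (node (nat_lit 5) (nat_lit 109951) (nat_lit 5) nil (node (nat_lit 1) (nat_lit 112157)
  (nat_lit 5) nil (node (nat_lit 4) (nat_lit 113873) (nat_lit 5) nil nil)))) nil))))) (node
  (nat_lit 0) (nat_lit 0) (nat_lit 3) (node (nat_lit 1) (nat_lit 123330) (nat_lit 4) (node
  (nat_lit 4) (nat_lit 125384) (nat_lit 5) (node (nat_lit 5) (nat_lit 124203) (nat_lit 6) nil nil)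
  nil) (node (nat_lit 4) (nat_lit 123216) (nat_lit 4) (node (nat_lit 5) (nat_lit 123490) (nat_lit
  5) nil nil) (node (nat_lit 5) (nat_lit 122337) (nat_lit 4) nil (node (nat_lit 0) (nat_lit
  124015) (nat_lit 4) nil (node (nat_lit 3) (nat_lit 121940) (nat_lit 4) (node (nat_lit 4)
  (nat_lit 124519) (nat_lit 5) (node (nat_lit 5) (nat_lit 124519) (nat_lit 6) nil nil) nil) (node
  (nat_lit 2) (nat_lit 120538) (nat_lit 4) nil nil)))))) (node (nat_lit 4) (nat_lit 0) (nat_lit 3)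
  (node (nat_lit 1) (nat_lit 106560) (nat_lit 4) (node (nat_lit 4) (nat_lit 110849) (nat_lit 5)
  (node (nat_lit 5) (nat_lit 113563) (nat_lit 6) (node (nat_lit 4) (nat_lit 74805) (nat_lit 7) nil
  nil) nil) (node (nat_lit 5) (nat_lit 110668) (nat_lit 5) nil nil)) (node (nat_lit 0) (nat_lit
  114927) (nat_lit 4) nil (node (nat_lit 3) (nat_lit 105963) (nat_lit 4) (node (nat_lit 4)
  (nat_lit 110182) (nat_lit 5) (node (nat_lit 5) (nat_lit 113127) (nat_lit 6) (node (nat_lit 4)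
  (nat_lit 89254) (nat_lit 7) nil nil) nil) (node (nat_lit 5) (nat_lit 109640) (nat_lit 5) nil
  nil)) (node (nat_lit 2) (nat_lit 110669) (nat_lit 4) (node (nat_lit 4) (nat_lit 113195) (nat_lit
  5) nil (node (nat_lit 1) (nat_lit 120162) (nat_lit 5) nil (node (nat_lit 3) (nat_lit 115356)
  (nat_lit 5) nil nil))) nil)))) (node (nat_lit 2) (nat_lit 0) (nat_lit 3) (node (nat_lit 1)
  (nat_lit 107051) (nat_lit 4) (node (nat_lit 5) (nat_lit 114843) (nat_lit 5) nil (node (nat_lit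
  4) (nat_lit 109241) (nat_lit 5) (node (nat_lit 5) (nat_lit 98324) (nat_lit 6) (node (nat_lit 6)
  (nat_lit 69095) (nat_lit 7) nil nil) nil) nil)) (node (nat_lit 4) (nat_lit 0) (nat_lit 4) (node
  (nat_lit 6) (nat_lit 112459) (nat_lit 5) (node (nat_lit 5) (nat_lit 113602) (nat_lit 6) (node
  (nat_lit 4) (nat_lit 114469) (nat_lit 7) nil (node (nat_lit 1) (nat_lit 120608) (nat_lit 7) nil
  (node (nat_lit 3) (nat_lit 119685) (nat_lit 7) nil nil))) (node (nat_lit 1) (nat_lit 117479)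
  (nat_lit 6) nil (node (nat_lit 3) (nat_lit 118410) (nat_lit 6) nil nil))) (node (nat_lit 1)
  (nat_lit 117044) (nat_lit 5) (node (nat_lit 4) (nat_lit 120093) (nat_lit 6) nil nil) (node
  (nat_lit 5) (nat_lit 112456) (nat_lit 5) (node (nat_lit 4) (nat_lit 113607) (nat_lit 6) nil nil)
  (node (nat_lit 0) (nat_lit 117044) (nat_lit 5) nil (node (nat_lit 3) (nat_lit 117030) (nat_lit
  5) (node (nat_lit 4) (nat_lit 119824) (nat_lit 6) nil nil) nil))))) (node (nat_lit 5) (nat_lit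
  0) (nat_lit 4) (node (nat_lit 4) (nat_lit 112514) (nat_lit 5) nil (node (nat_lit 1) (nat_lit
  115613) (nat_lit 5) nil (node (nat_lit 0) (nat_lit 115613) (nat_lit 5) nil (node (nat_lit 3)
  (nat_lit 110702) (nat_lit 5) nil nil)))) (node (nat_lit 0) (nat_lit 112206) (nat_lit 4) nil
  (node (nat_lit 3) (nat_lit 105589) (nat_lit 4) (node (nat_lit 1) (nat_lit 109778) (nat_lit 5)
  nil (node (nat_lit 6) (nat_lit 109716) (nat_lit 5) nil (node (nat_lit 5) (nat_lit 109633)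
  (nat_lit 5) (node (nat_lit 7) (nat_lit 110701) (nat_lit 6) nil nil) (node (nat_lit 4) (nat_lit
  101729) (nat_lit 5) (node (nat_lit 5) (nat_lit 93303) (nat_lit 6) (node (nat_lit 6) (nat_lit
  88375) (nat_lit 7) nil nil) nil) nil)))) nil))))) nil))))) nil))))

noncomputable def t141 : Tr :=
  (node (nat_lit 4) (nat_lit 0) (nat_lit 3) (node (nat_lit 0) (nat_lit 40564) (nat_lit 4) (node
  (nat_lit 5) (nat_lit 41090) (nat_lit 5) nil (node (nat_lit 4) (nat_lit 40045) (nat_lit 5) nil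
  (node (nat_lit 1) (nat_lit 41090) (nat_lit 5) (node (nat_lit 4) (nat_lit 41090) (nat_lit 6)
  (node (nat_lit 5) (nat_lit 41090) (nat_lit 7) nil nil) nil) nil))) (node (nat_lit 2) (nat_lit 0)
  (nat_lit 4) (node (nat_lit 5) (nat_lit 41090) (nat_lit 5) (node (nat_lit 4) (nat_lit 39628)
  (nat_lit 6) nil nil) (node (nat_lit 4) (nat_lit 39916) (nat_lit 5) nil (node (nat_lit 1)
  (nat_lit 39899) (nat_lit 5) (node (nat_lit 4) (nat_lit 38038) (nat_lit 6) (node (nat_lit 5)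
  (nat_lit 29677) (nat_lit 7) nil nil) nil) (node (nat_lit 0) (nat_lit 40767) (nat_lit 5) nil
  (node (nat_lit 2) (nat_lit 39274) (nat_lit 5) nil nil))))) (node (nat_lit 1) (nat_lit 0)
  (nat_lit 4) (node (nat_lit 5) (nat_lit 34435) (nat_lit 5) (node (nat_lit 7) (nat_lit 35974)
  (nat_lit 6) (node (nat_lit 4) (nat_lit 41090) (nat_lit 7) (node (nat_lit 5) (nat_lit 41090)
  (nat_lit 8) (node (nat_lit 4) (nat_lit 41090) (nat_lit 9) (node (nat_lit 7) (nat_lit 41090)
  (nat_lit 10) nil nil) nil) nil) nil) (node (nat_lit 4) (nat_lit 35983) (nat_lit 6) nil nil))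
  (node (nat_lit 0) (nat_lit 39379) (nat_lit 5) nil (node (nat_lit 2) (nat_lit 40692) (nat_lit 5)
  (node (nat_lit 5) (nat_lit 41090) (nat_lit 6) nil (node (nat_lit 4) (nat_lit 38896) (nat_lit 6)
  nil nil)) (node (nat_lit 4) (nat_lit 33404) (nat_lit 5) (node (nat_lit 5) (nat_lit 21121)
  (nat_lit 6) (node (nat_lit 7) (nat_lit 22528) (nat_lit 7) nil nil) nil) nil)))) nil))) (node
  (nat_lit 0) (nat_lit 0) (nat_lit 3) (node (nat_lit 5) (nat_lit 0) (nat_lit 4) (node (nat_lit 4)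
  (nat_lit 71382) (nat_lit 5) (node (nat_lit 5) (nat_lit 72767) (nat_lit 6) (node (nat_lit 6)
  (nat_lit 43562) (nat_lit 7) nil nil) (node (nat_lit 1) (nat_lit 74333) (nat_lit 6) nil nil))
  (node (nat_lit 1) (nat_lit 73816) (nat_lit 5) (node (nat_lit 4) (nat_lit 74749) (nat_lit 6)
  (node (nat_lit 5) (nat_lit 75416) (nat_lit 7) nil nil) (node (nat_lit 5) (nat_lit 74749)
  (nat_lit 6) nil nil)) (node (nat_lit 0) (nat_lit 73816) (nat_lit 5) nil (node (nat_lit 2)
  (nat_lit 70359) (nat_lit 5) nil nil)))) (node (nat_lit 4) (nat_lit 68034) (nat_lit 4) (node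
  (nat_lit 6) (nat_lit 71558) (nat_lit 5) (node (nat_lit 5) (nat_lit 72903) (nat_lit 6) (node
  (nat_lit 4) (nat_lit 74980) (nat_lit 7) (node (nat_lit 5) (nat_lit 75907) (nat_lit 8) (node
  (nat_lit 6) (nat_lit 76622) (nat_lit 9) (node (nat_lit 4) (nat_lit 77143) (nat_lit 10) (node
  (nat_lit 6) (nat_lit 45451) (nat_lit 11) nil nil) nil) nil) nil) nil) nil) (node (nat_lit 5)
  (nat_lit 70100) (nat_lit 5) (node (nat_lit 4) (nat_lit 73923) (nat_lit 6) nil nil) (node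
  (nat_lit 1) (nat_lit 72936) (nat_lit 5) nil nil))) (node (nat_lit 1) (nat_lit 70539) (nat_lit 4)
  (node (nat_lit 4) (nat_lit 74223) (nat_lit 5) (node (nat_lit 5) (nat_lit 75156) (nat_lit 6) nil
  nil) (node (nat_lit 5) (nat_lit 72804) (nat_lit 5) (node (nat_lit 7) (nat_lit 75002) (nat_lit 6)
  nil nil) (node (nat_lit 6) (nat_lit 74360) (nat_lit 5) (node (nat_lit 5) (nat_lit 75292)
  (nat_lit 6) nil nil) nil))) (node (nat_lit 0) (nat_lit 70539) (nat_lit 4) (node (nat_lit 5)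
  (nat_lit 72804) (nat_lit 5) nil (node (nat_lit 6) (nat_lit 74360) (nat_lit 5) nil nil)) (node
  (nat_lit 2) (nat_lit 67793) (nat_lit 4) (node (nat_lit 5) (nat_lit 70832) (nat_lit 5) nil (node
  (nat_lit 6) (nat_lit 73774) (nat_lit 5) nil (node (nat_lit 4) (nat_lit 70602) (nat_lit 5) nil
  (node (nat_lit 1) (nat_lit 67523) (nat_lit 5) nil nil)))) nil))))) (node (nat_lit 2) (nat_lit 0)
  (nat_lit 3) (node (nat_lit 5) (nat_lit 0) (nat_lit 4) (node (nat_lit 4) (nat_lit 61941) (nat_lit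
  5) (node (nat_lit 6) (nat_lit 65293) (nat_lit 6) (node (nat_lit 5) (nat_lit 66860) (nat_lit 7)
  (node (nat_lit 6) (nat_lit 68114) (nat_lit 8) nil (node (nat_lit 1) (nat_lit 70427) (nat_lit 8)
  nil nil)) (node (nat_lit 4) (nat_lit 67799) (nat_lit 7) nil nil)) (node (nat_lit 5) (nat_lit
  49566) (nat_lit 6) (node (nat_lit 6) (nat_lit 42327) (nat_lit 7) (node (nat_lit 4) (nat_lit
  41095) (nat_lit 8) (node (nat_lit 6) (nat_lit 40085) (nat_lit 9) (node (nat_lit 5) (nat_lit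
  40373) (nat_lit 10) (node (nat_lit 4) (nat_lit 39714) (nat_lit 11) (node (nat_lit 5) (nat_lit
  39944) (nat_lit 12) (node (nat_lit 6) (nat_lit 39562) (nat_lit 13) (node (nat_lit 5) (nat_lit
  39708) (nat_lit 14) (node (nat_lit 4) (nat_lit 39483) (nat_lit 15) nil nil) nil) nil) nil) nil)
  nil) nil) nil) nil) (node (nat_lit 1) (nat_lit 67655) (nat_lit 6) (node (nat_lit 4) (nat_lit
  66460) (nat_lit 7) (node (nat_lit 5) (nat_lit 57604) (nat_lit 8) (node (nat_lit 6) (nat_lit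
  49907) (nat_lit 9) (node (nat_lit 5) (nat_lit 41200) (nat_lit 10) nil nil) nil) nil) nil) (node
  (nat_lit 0) (nat_lit 66418) (nat_lit 6) nil (node (nat_lit 2) (nat_lit 66304) (nat_lit 6) nil
  nil))))) (node (nat_lit 1) (nat_lit 71513) (nat_lit 5) (node (nat_lit 4) (nat_lit 73198)
  (nat_lit 6) (node (nat_lit 5) (nat_lit 73866) (nat_lit 7) (node (nat_lit 6) (nat_lit 72767)
  (nat_lit 8) nil nil) nil) (node (nat_lit 5) (nat_lit 72881) (nat_lit 6) (node (nat_lit 6)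
  (nat_lit 73093) (nat_lit 7) nil (node (nat_lit 4) (nat_lit 73549) (nat_lit 7) nil nil)) (node
  (nat_lit 6) (nat_lit 70673) (nat_lit 6) nil nil))) (node (nat_lit 0) (nat_lit 71513) (nat_lit 5)
  (node (nat_lit 5) (nat_lit 72881) (nat_lit 6) nil nil) (node (nat_lit 2) (nat_lit 63257)
  (nat_lit 5) (node (nat_lit 6) (nat_lit 64209) (nat_lit 6) (node (nat_lit 5) (nat_lit 64876)
  (nat_lit 7) nil (node (nat_lit 8) (nat_lit 63564) (nat_lit 7) nil nil)) (node (nat_lit 5)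
  (nat_lit 64223) (nat_lit 6) (node (nat_lit 4) (nat_lit 64312) (nat_lit 7) nil nil) (node
  (nat_lit 4) (nat_lit 70043) (nat_lit 6) nil (node (nat_lit 1) (nat_lit 69908) (nat_lit 6) nil
  (node (nat_lit 0) (nat_lit 71099) (nat_lit 6) nil nil))))) nil)))) (node (nat_lit 4) (nat_lit 0)
  (nat_lit 4) (node (nat_lit 6) (nat_lit 67064) (nat_lit 5) (node (nat_lit 5) (nat_lit 69696)
  (nat_lit 6) (node (nat_lit 6) (nat_lit 71015) (nat_lit 7) (node (nat_lit 4) (nat_lit 72315)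
  (nat_lit 8) nil nil) (node (nat_lit 4) (nat_lit 73720) (nat_lit 7) (node (nat_lit 5) (nat_lit
  71936) (nat_lit 8) (node (nat_lit 6) (nat_lit 69838) (nat_lit 9) (node (nat_lit 4) (nat_lit
  49566) (nat_lit 10) (node (nat_lit 5) (nat_lit 49566) (nat_lit 11) nil (node (nat_lit 6)
  (nat_lit 40786) (nat_lit 11) nil nil)) nil) nil) nil) (node (nat_lit 1) (nat_lit 75067) (nat_lit
  7) nil nil))) (node (nat_lit 1) (nat_lit 70574) (nat_lit 6) nil (node (nat_lit 0) (nat_lit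
  72526) (nat_lit 6) nil (node (nat_lit 2) (nat_lit 71632) (nat_lit 6) nil nil)))) (node (nat_lit
  5) (nat_lit 66844) (nat_lit 5) (node (nat_lit 4) (nat_lit 69395) (nat_lit 6) (node (nat_lit 6)
  (nat_lit 72892) (nat_lit 7) (node (nat_lit 5) (nat_lit 73440) (nat_lit 8) (node (nat_lit 4)
  (nat_lit 72394) (nat_lit 9) (node (nat_lit 5) (nat_lit 71469) (nat_lit 10) (node (nat_lit 6)
  (nat_lit 67318) (nat_lit 11) (node (nat_lit 4) (nat_lit 61339) (nat_lit 12) (node (nat_lit 5)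
  (nat_lit 52808) (nat_lit 13) (node (nat_lit 4) (nat_lit 39977) (nat_lit 14) (node (nat_lit 6)
  (nat_lit 36456) (nat_lit 15) nil nil) nil) nil) nil) nil) nil) nil) nil) (node (nat_lit 1)
  (nat_lit 74031) (nat_lit 7) nil nil)) nil) (node (nat_lit 1) (nat_lit 72926) (nat_lit 5) (node
  (nat_lit 6) (nat_lit 71733) (nat_lit 6) (node (nat_lit 8) (nat_lit 71858) (nat_lit 7) nil (node
  (nat_lit 5) (nat_lit 71641) (nat_lit 7) nil nil)) (node (nat_lit 5) (nat_lit 73858) (nat_lit 6)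
  nil (node (nat_lit 4) (nat_lit 69941) (nat_lit 6) (node (nat_lit 5) (nat_lit 64042) (nat_lit 7)
  (node (nat_lit 6) (nat_lit 54533) (nat_lit 8) nil nil) nil) nil))) (node (nat_lit 0) (nat_lit
  71851) (nat_lit 5) nil (node (nat_lit 2) (nat_lit 71480) (nat_lit 5) (node (nat_lit 5) (nat_lit
  68585) (nat_lit 6) nil (node (nat_lit 6) (nat_lit 69117) (nat_lit 6) nil (node (nat_lit 4)
  (nat_lit 70981) (nat_lit 6) nil (node (nat_lit 1) (nat_lit 69421) (nat_lit 6) nil nil))))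
  nil))))) (node (nat_lit 1) (nat_lit 0) (nat_lit 4) (node (nat_lit 4) (nat_lit 64031) (nat_lit 5)
  (node (nat_lit 5) (nat_lit 45872) (nat_lit 6) (node (nat_lit 7) (nat_lit 46705) (nat_lit 7)
  (node (nat_lit 5) (nat_lit 47253) (nat_lit 8) (node (nat_lit 4) (nat_lit 46243) (nat_lit 9)
  (node (nat_lit 7) (nat_lit 46141) (nat_lit 10) nil nil) nil) nil) (node (nat_lit 4) (nat_lit
  46705) (nat_lit 7) (node (nat_lit 7) (nat_lit 47253) (nat_lit 8) (node (nat_lit 5) (nat_lit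
  47632) (nat_lit 9) nil nil) nil) (node (nat_lit 6) (nat_lit 25345) (nat_lit 7) nil nil))) (node
  (nat_lit 6) (nat_lit 65399) (nat_lit 6) nil (node (nat_lit 7) (nat_lit 64878) (nat_lit 6) (node
  (nat_lit 6) (nat_lit 63696) (nat_lit 7) nil nil) nil))) (node (nat_lit 5) (nat_lit 71682)
  (nat_lit 5) (node (nat_lit 7) (nat_lit 74502) (nat_lit 6) (node (nat_lit 6) (nat_lit 74814)
  (nat_lit 7) (node (nat_lit 5) (nat_lit 74664) (nat_lit 8) (node (nat_lit 6) (nat_lit 73958)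
  (nat_lit 9) (node (nat_lit 7) (nat_lit 74086) (nat_lit 10) nil nil) nil) nil) nil) (node
  (nat_lit 4) (nat_lit 71853) (nat_lit 6) (node (nat_lit 5) (nat_lit 73032) (nat_lit 7) (node
  (nat_lit 6) (nat_lit 71165) (nat_lit 8) (node (nat_lit 7) (nat_lit 39149) (nat_lit 9) nil nil)
  nil) nil) nil)) (node (nat_lit 6) (nat_lit 69986) (nat_lit 5) (node (nat_lit 5) (nat_lit 72613)
  (nat_lit 6) (node (nat_lit 6) (nat_lit 73281) (nat_lit 7) nil nil) nil) (node (nat_lit 0)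
  (nat_lit 72026) (nat_lit 5) (node (nat_lit 7) (nat_lit 74101) (nat_lit 6) (node (nat_lit 5)
  (nat_lit 75262) (nat_lit 7) (node (nat_lit 7) (nat_lit 75702) (nat_lit 8) nil nil) nil) nil)
  (node (nat_lit 2) (nat_lit 68736) (nat_lit 5) (node (nat_lit 5) (nat_lit 69690) (nat_lit 6) nil
  (node (nat_lit 7) (nat_lit 64982) (nat_lit 6) (node (nat_lit 5) (nat_lit 66483) (nat_lit 7)
  (node (nat_lit 7) (nat_lit 67470) (nat_lit 8) nil nil) (node (nat_lit 4) (nat_lit 57022)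
  (nat_lit 7) nil nil)) nil)) nil))))) (node (nat_lit 0) (nat_lit 69344) (nat_lit 4) (node
  (nat_lit 5) (nat_lit 71682) (nat_lit 5) (node (nat_lit 4) (nat_lit 74290) (nat_lit 6) (node
  (nat_lit 5) (nat_lit 75123) (nat_lit 7) nil nil) nil) (node (nat_lit 6) (nat_lit 70675) (nat_lit
  5) (node (nat_lit 5) (nat_lit 72613) (nat_lit 6) nil nil) nil)) (node (nat_lit 2) (nat_lit 0)
  (nat_lit 4) (node (nat_lit 5) (nat_lit 63379) (nat_lit 5) (node (nat_lit 6) (nat_lit 64311)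
  (nat_lit 6) (node (nat_lit 5) (nat_lit 64979) (nat_lit 7) (node (nat_lit 7) (nat_lit 65418)
  (nat_lit 8) nil nil) (node (nat_lit 4) (nat_lit 67949) (nat_lit 7) nil nil)) (node (nat_lit 7)
  (nat_lit 64317) (nat_lit 6) nil (node (nat_lit 4) (nat_lit 67331) (nat_lit 6) (node (nat_lit 5)
  (nat_lit 57924) (nat_lit 7) (node (nat_lit 6) (nat_lit 44304) (nat_lit 8) nil nil) nil) (node
  (nat_lit 1) (nat_lit 72598) (nat_lit 6) nil nil)))) (node (nat_lit 6) (nat_lit 63373) (nat_lit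
  5) (node (nat_lit 5) (nat_lit 64306) (nat_lit 6) (node (nat_lit 6) (nat_lit 64974) (nat_lit 7)
  nil (node (nat_lit 4) (nat_lit 67271) (nat_lit 7) nil nil)) (node (nat_lit 4) (nat_lit 71281)
  (nat_lit 6) nil nil)) (node (nat_lit 4) (nat_lit 73160) (nat_lit 5) nil (node (nat_lit 1)
  (nat_lit 68975) (nat_lit 5) (node (nat_lit 4) (nat_lit 62542) (nat_lit 6) (node (nat_lit 5)
  (nat_lit 54609) (nat_lit 7) (node (nat_lit 6) (nat_lit 30630) (nat_lit 8) nil nil) nil) nil)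
  (node (nat_lit 0) (nat_lit 72488) (nat_lit 5) nil nil))))) nil))))) (node (nat_lit 1) (nat_lit
  0) (nat_lit 3) (node (nat_lit 4) (nat_lit 0) (nat_lit 4) (node (nat_lit 6) (nat_lit 0) (nat_lit
  5) (node (nat_lit 5) (nat_lit 68824) (nat_lit 6) (node (nat_lit 4) (nat_lit 70902) (nat_lit 7)
  (node (nat_lit 5) (nat_lit 71829) (nat_lit 8) (node (nat_lit 6) (nat_lit 72543) (nat_lit 9)
  (node (nat_lit 4) (nat_lit 73064) (nat_lit 10) (node (nat_lit 6) (nat_lit 45072) (nat_lit 11)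
  nil nil) nil) nil) nil) nil) (node (nat_lit 0) (nat_lit 70430) (nat_lit 6) nil (node (nat_lit 2)
  (nat_lit 69938) (nat_lit 6) nil nil))) (node (nat_lit 5) (nat_lit 0) (nat_lit 5) (node (nat_lit
  4) (nat_lit 23382) (nat_lit 6) (node (nat_lit 6) (nat_lit 25064) (nat_lit 7) (node (nat_lit 5)
  (nat_lit 25991) (nat_lit 8) nil nil) (node (nat_lit 0) (nat_lit 26525) (nat_lit 7) nil (node
  (nat_lit 2) (nat_lit 26024) (nat_lit 7) nil nil))) (node (nat_lit 0) (nat_lit 24948) (nat_lit 6)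
  nil (node (nat_lit 2) (nat_lit 22904) (nat_lit 6) (node (nat_lit 4) (nat_lit 25149) (nat_lit 7)
  nil (node (nat_lit 5) (nat_lit 23996) (nat_lit 7) (node (nat_lit 4) (nat_lit 25756) (nat_lit 8)
  (node (nat_lit 5) (nat_lit 23536) (nat_lit 9) nil nil) nil) nil)) nil))) (node (nat_lit 0)
  (nat_lit 70358) (nat_lit 5) nil (node (nat_lit 2) (nat_lit 68808) (nat_lit 5) (node (nat_lit 4)
  (nat_lit 70338) (nat_lit 6) nil (node (nat_lit 6) (nat_lit 70673) (nat_lit 6) nil nil)) nil))))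
  (node (nat_lit 0) (nat_lit 0) (nat_lit 4) (node (nat_lit 5) (nat_lit 68725) (nat_lit 5) (node
  (nat_lit 6) (nat_lit 71074) (nat_lit 6) (node (nat_lit 5) (nat_lit 71742) (nat_lit 7) (node
  (nat_lit 7) (nat_lit 72181) (nat_lit 8) (node (nat_lit 5) (nat_lit 72485) (nat_lit 9) (node
  (nat_lit 6) (nat_lit 72716) (nat_lit 10) nil nil) nil) nil) (node (nat_lit 4) (nat_lit 71742)
  (nat_lit 7) nil nil)) (node (nat_lit 4) (nat_lit 70923) (nat_lit 6) (node (nat_lit 5) (nat_lit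
  71591) (nat_lit 7) (node (nat_lit 6) (nat_lit 72030) (nat_lit 8) nil nil) nil) nil)) (node
  (nat_lit 4) (nat_lit 70144) (nat_lit 5) (node (nat_lit 6) (nat_lit 71077) (nat_lit 6) nil nil)
  (node (nat_lit 6) (nat_lit 70281) (nat_lit 5) (node (nat_lit 5) (nat_lit 71213) (nat_lit 6) nil
  nil) (node (nat_lit 0) (nat_lit 69805) (nat_lit 5) nil (node (nat_lit 2) (nat_lit 68611)
  (nat_lit 5) nil nil))))) (node (nat_lit 2) (nat_lit 0) (nat_lit 4) (node (nat_lit 5) (nat_lit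
  66753) (nat_lit 5) (node (nat_lit 6) (nat_lit 70018) (nat_lit 6) (node (nat_lit 5) (nat_lit
  70686) (nat_lit 7) (node (nat_lit 7) (nat_lit 71125) (nat_lit 8) (node (nat_lit 5) (nat_lit
  71429) (nat_lit 9) (node (nat_lit 6) (nat_lit 71660) (nat_lit 10) nil nil) nil) (node (nat_lit
  4) (nat_lit 71125) (nat_lit 8) nil nil)) (node (nat_lit 4) (nat_lit 70686) (nat_lit 7) nil nil))
  (node (nat_lit 7) (nat_lit 68473) (nat_lit 6) nil (node (nat_lit 4) (nat_lit 69571) (nat_lit 6)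
  (node (nat_lit 5) (nat_lit 55002) (nat_lit 7) (node (nat_lit 6) (nat_lit 45072) (nat_lit 8)
  (node (nat_lit 7) (nat_lit 44597) (nat_lit 9) nil nil) nil) nil) nil))) (node (nat_lit 4)
  (nat_lit 69843) (nat_lit 5) (node (nat_lit 6) (nat_lit 70971) (nat_lit 6) (node (nat_lit 5)
  (nat_lit 71639) (nat_lit 7) nil nil) nil) (node (nat_lit 6) (nat_lit 69695) (nat_lit 5) (node
  (nat_lit 5) (nat_lit 70628) (nat_lit 6) nil nil) (node (nat_lit 0) (nat_lit 69118) (nat_lit 5)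
  nil (node (nat_lit 2) (nat_lit 66690) (nat_lit 5) nil nil))))) (node (nat_lit 5) (nat_lit 0)
  (nat_lit 4) (node (nat_lit 4) (nat_lit 0) (nat_lit 5) (node (nat_lit 6) (nat_lit 69722) (nat_lit
  6) (node (nat_lit 4) (nat_lit 70857) (nat_lit 7) (node (nat_lit 5) (nat_lit 71784) (nat_lit 8)
  (node (nat_lit 6) (nat_lit 71808) (nat_lit 9) (node (nat_lit 5) (nat_lit 59557) (nat_lit 10)
  (node (nat_lit 4) (nat_lit 26963) (nat_lit 11) nil nil) nil) nil) nil) nil) (node (nat_lit 0)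
  (nat_lit 70254) (nat_lit 6) nil (node (nat_lit 2) (nat_lit 70254) (nat_lit 6) nil (node (nat_lit
  5) (nat_lit 68688) (nat_lit 6) (node (nat_lit 6) (nat_lit 40752) (nat_lit 7) nil nil) nil))))
  (node (nat_lit 0) (nat_lit 69737) (nat_lit 5) (node (nat_lit 4) (nat_lit 70670) (nat_lit 6) nil
  nil) (node (nat_lit 2) (nat_lit 66658) (nat_lit 5) (node (nat_lit 4) (nat_lit 70126) (nat_lit 6)
  nil (node (nat_lit 5) (nat_lit 67983) (nat_lit 6) nil nil)) nil))) nil)))) nil))))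

noncomputable def t142 : Tr :=
  (node (nat_lit 1) (nat_lit 0) (nat_lit 3) (node (nat_lit 4) (nat_lit 0) (nat_lit 4) (node
  (nat_lit 6) (nat_lit 49560) (nat_lit 5) (node (nat_lit 5) (nat_lit 57690) (nat_lit 6) (node
  (nat_lit 6) (nat_lit 59597) (nat_lit 7) (node (nat_lit 4) (nat_lit 60794) (nat_lit 8) (node
  (nat_lit 5) (nat_lit 62401) (nat_lit 9) (node (nat_lit 4) (nat_lit 63053) (nat_lit 10) (node
  (nat_lit 6) (nat_lit 63561) (nat_lit 11) (node (nat_lit 4) (nat_lit 63957) (nat_lit 12) (node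
  (nat_lit 5) (nat_lit 64423) (nat_lit 13) (node (nat_lit 6) (nat_lit 64664) (nat_lit 14) (node
  (nat_lit 4) (nat_lit 64853) (nat_lit 15) (node (nat_lit 6) (nat_lit 65000) (nat_lit 16) (node
  (nat_lit 5) (nat_lit 65123) (nat_lit 17) (node (nat_lit 6) (nat_lit 60795) (nat_lit 18) (node
  (nat_lit 4) (nat_lit 52587) (nat_lit 19) (node (nat_lit 5) (nat_lit 43501) (nat_lit 20) nil nil)
  nil) nil) nil) nil) nil) nil) nil) nil) nil) nil) nil) nil) (node (nat_lit 4) (nat_lit 59520)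
  (nat_lit 7) (node (nat_lit 6) (nat_lit 60794) (nat_lit 8) (node (nat_lit 4) (nat_lit 61628)
  (nat_lit 9) (node (nat_lit 5) (nat_lit 63084) (nat_lit 10) (node (nat_lit 6) (nat_lit 63179)
  (nat_lit 11) (node (nat_lit 4) (nat_lit 57459) (nat_lit 12) (node (nat_lit 6) (nat_lit 51087)
  (nat_lit 13) (node (nat_lit 5) (nat_lit 41964) (nat_lit 14) nil nil) nil) nil) nil) nil) nil)
  nil) (node (nat_lit 1) (nat_lit 62111) (nat_lit 7) nil nil))) (node (nat_lit 1) (nat_lit 59790)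
  (nat_lit 6) (node (nat_lit 4) (nat_lit 61600) (nat_lit 7) (node (nat_lit 9) (nat_lit 62964)
  (nat_lit 8) nil (node (nat_lit 5) (nat_lit 62964) (nat_lit 8) (node (nat_lit 6) (nat_lit 63403)
  (nat_lit 9) (node (nat_lit 4) (nat_lit 63675) (nat_lit 10) nil nil) nil) nil)) (node (nat_lit 5)
  (nat_lit 61983) (nat_lit 7) (node (nat_lit 6) (nat_lit 63092) (nat_lit 8) nil nil) nil)) (node
  (nat_lit 0) (nat_lit 59790) (nat_lit 6) nil (node (nat_lit 2) (nat_lit 53521) (nat_lit 6) (node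
  (nat_lit 4) (nat_lit 55371) (nat_lit 7) nil (node (nat_lit 6) (nat_lit 55371) (nat_lit 7) nil
  nil)) nil)))) (node (nat_lit 5) (nat_lit 31347) (nat_lit 5) (node (nat_lit 4) (nat_lit 32490)
  (nat_lit 6) (node (nat_lit 6) (nat_lit 33323) (nat_lit 7) (node (nat_lit 4) (nat_lit 33871)
  (nat_lit 8) (node (nat_lit 1) (nat_lit 34250) (nat_lit 9) nil nil) nil) (node (nat_lit 1)
  (nat_lit 33323) (nat_lit 7) nil nil)) (node (nat_lit 1) (nat_lit 32490) (nat_lit 6) (node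
  (nat_lit 6) (nat_lit 33323) (nat_lit 7) (node (nat_lit 4) (nat_lit 32092) (nat_lit 8) nil nil)
  (node (nat_lit 4) (nat_lit 33323) (nat_lit 7) (node (nat_lit 5) (nat_lit 28959) (nat_lit 8)
  (node (nat_lit 6) (nat_lit 16531) (nat_lit 9) nil nil) nil) nil)) nil)) (node (nat_lit 1)
  (nat_lit 59268) (nat_lit 5) (node (nat_lit 5) (nat_lit 61308) (nat_lit 6) nil (node (nat_lit 4)
  (nat_lit 57842) (nat_lit 6) (node (nat_lit 5) (nat_lit 55099) (nat_lit 7) (node (nat_lit 6)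
  (nat_lit 53477) (nat_lit 8) (node (nat_lit 4) (nat_lit 16983) (nat_lit 9) nil nil) nil) nil)
  (node (nat_lit 6) (nat_lit 60645) (nat_lit 6) (node (nat_lit 4) (nat_lit 61469) (nat_lit 7) nil
  nil) nil))) (node (nat_lit 0) (nat_lit 59268) (nat_lit 5) (node (nat_lit 6) (nat_lit 60645)
  (nat_lit 6) (node (nat_lit 4) (nat_lit 61469) (nat_lit 7) (node (nat_lit 5) (nat_lit 61987)
  (nat_lit 8) (node (nat_lit 6) (nat_lit 62346) (nat_lit 9) nil nil) nil) nil) (node (nat_lit 4)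
  (nat_lit 60565) (nat_lit 6) nil nil)) (node (nat_lit 2) (nat_lit 53843) (nat_lit 5) (node
  (nat_lit 6) (nat_lit 55187) (nat_lit 6) (node (nat_lit 4) (nat_lit 56008) (nat_lit 7) (node
  (nat_lit 5) (nat_lit 53776) (nat_lit 8) (node (nat_lit 6) (nat_lit 43249) (nat_lit 9) (node
  (nat_lit 4) (nat_lit 33150) (nat_lit 10) nil nil) nil) nil) nil) (node (nat_lit 4) (nat_lit
  55158) (nat_lit 6) (node (nat_lit 6) (nat_lit 55980) (nat_lit 7) (node (nat_lit 4) (nat_lit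
  56498) (nat_lit 8) nil nil) (node (nat_lit 1) (nat_lit 60017) (nat_lit 7) nil nil)) (node
  (nat_lit 5) (nat_lit 61452) (nat_lit 6) nil (node (nat_lit 1) (nat_lit 60670) (nat_lit 6) nil
  nil)))) nil))))) (node (nat_lit 5) (nat_lit 0) (nat_lit 4) (node (nat_lit 4) (nat_lit 63577)
  (nat_lit 5) (node (nat_lit 6) (nat_lit 65246) (nat_lit 6) (node (nat_lit 4) (nat_lit 71674)
  (nat_lit 7) (node (nat_lit 5) (nat_lit 73744) (nat_lit 8) (node (nat_lit 6) (nat_lit 71191)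
  (nat_lit 9) (node (nat_lit 5) (nat_lit 67636) (nat_lit 10) (node (nat_lit 4) (nat_lit 33879)
  (nat_lit 11) nil (node (nat_lit 1) (nat_lit 66913) (nat_lit 11) nil (node (nat_lit 0) (nat_lit
  68398) (nat_lit 11) nil (node (nat_lit 2) (nat_lit 66500) (nat_lit 11) nil nil)))) (node
  (nat_lit 4) (nat_lit 71012) (nat_lit 10) (node (nat_lit 6) (nat_lit 71774) (nat_lit 11) (node
  (nat_lit 5) (nat_lit 70903) (nat_lit 12) (node (nat_lit 6) (nat_lit 71192) (nat_lit 13) (node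
  (nat_lit 4) (nat_lit 71077) (nat_lit 14) (node (nat_lit 5) (nat_lit 70575) (nat_lit 15) (node
  (nat_lit 6) (nat_lit 70507) (nat_lit 16) (node (nat_lit 5) (nat_lit 70234) (nat_lit 17) (node
  (nat_lit 4) (nat_lit 69069) (nat_lit 18) (node (nat_lit 6) (nat_lit 67746) (nat_lit 19) (node
  (nat_lit 4) (nat_lit 65981) (nat_lit 20) (node (nat_lit 5) (nat_lit 62789) (nat_lit 21) (node
  (nat_lit 6) (nat_lit 58264) (nat_lit 22) (node (nat_lit 4) (nat_lit 52576) (nat_lit 23) (node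
  (nat_lit 6) (nat_lit 39581) (nat_lit 24) (node (nat_lit 5) (nat_lit 32577) (nat_lit 25) nil nil)
  nil) nil) nil) nil) nil) nil) nil) nil) nil) nil) nil) nil) nil) nil) nil)) nil) (node (nat_lit
  1) (nat_lit 73882) (nat_lit 8) nil nil)) (node (nat_lit 1) (nat_lit 73334) (nat_lit 7) (node
  (nat_lit 4) (nat_lit 73882) (nat_lit 8) nil nil) (node (nat_lit 0) (nat_lit 73334) (nat_lit 7)
  nil (node (nat_lit 2) (nat_lit 70960) (nat_lit 7) nil (node (nat_lit 5) (nat_lit 71916) (nat_lit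
  7) (node (nat_lit 6) (nat_lit 73882) (nat_lit 8) (node (nat_lit 4) (nat_lit 72872) (nat_lit 9)
  (node (nat_lit 5) (nat_lit 72041) (nat_lit 10) (node (nat_lit 6) (nat_lit 71442) (nat_lit 11)
  (node (nat_lit 5) (nat_lit 67034) (nat_lit 12) (node (nat_lit 4) (nat_lit 60696) (nat_lit 13)
  (node (nat_lit 6) (nat_lit 47887) (nat_lit 14) nil nil) nil) nil) (node (nat_lit 4) (nat_lit
  71382) (nat_lit 11) (node (nat_lit 6) (nat_lit 71612) (nat_lit 12) (node (nat_lit 4) (nat_lit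
  71230) (nat_lit 13) (node (nat_lit 5) (nat_lit 70941) (nat_lit 14) (node (nat_lit 6) (nat_lit
  71048) (nat_lit 15) (node (nat_lit 5) (nat_lit 70873) (nat_lit 16) (node (nat_lit 4) (nat_lit
  70107) (nat_lit 17) (node (nat_lit 6) (nat_lit 67890) (nat_lit 18) (node (nat_lit 5) (nat_lit
  65266) (nat_lit 19) (node (nat_lit 6) (nat_lit 60443) (nat_lit 20) (node (nat_lit 4) (nat_lit
  52223) (nat_lit 21) (node (nat_lit 5) (nat_lit 43052) (nat_lit 22) nil nil) nil) nil) nil) nil)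
  nil) nil) nil) nil) nil) nil) nil)) nil) nil) nil) nil))))) (node (nat_lit 5) (nat_lit 65219)
  (nat_lit 6) (node (nat_lit 6) (nat_lit 71859) (nat_lit 7) nil (node (nat_lit 1) (nat_lit 73334)
  (nat_lit 7) (node (nat_lit 4) (nat_lit 73882) (nat_lit 8) (node (nat_lit 5) (nat_lit 73502)
  (nat_lit 9) (node (nat_lit 6) (nat_lit 60859) (nat_lit 10) nil nil) nil) nil) (node (nat_lit 0)
  (nat_lit 73334) (nat_lit 7) nil (node (nat_lit 2) (nat_lit 70960) (nat_lit 7) nil nil)))) (node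
  (nat_lit 1) (nat_lit 72501) (nat_lit 6) (node (nat_lit 4) (nat_lit 73334) (nat_lit 7) (node
  (nat_lit 5) (nat_lit 68486) (nat_lit 8) (node (nat_lit 6) (nat_lit 56874) (nat_lit 9) (node
  (nat_lit 5) (nat_lit 40010) (nat_lit 10) nil nil) nil) nil) nil) (node (nat_lit 0) (nat_lit
  72501) (nat_lit 6) nil (node (nat_lit 2) (nat_lit 71642) (nat_lit 6) (node (nat_lit 5) (nat_lit
  69669) (nat_lit 7) (node (nat_lit 6) (nat_lit 70598) (nat_lit 8) nil nil) nil) nil))))) (node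
  (nat_lit 1) (nat_lit 71358) (nat_lit 5) (node (nat_lit 6) (nat_lit 72501) (nat_lit 6) (node
  (nat_lit 8) (nat_lit 73334) (nat_lit 7) (node (nat_lit 5) (nat_lit 73882) (nat_lit 8) (node
  (nat_lit 8) (nat_lit 74261) (nat_lit 9) (node (nat_lit 6) (nat_lit 74549) (nat_lit 10) nil nil)
  (node (nat_lit 6) (nat_lit 74261) (nat_lit 9) nil nil)) (node (nat_lit 4) (nat_lit 73882)
  (nat_lit 8) (node (nat_lit 5) (nat_lit 74261) (nat_lit 9) nil nil) nil)) (node (nat_lit 4)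
  (nat_lit 73334) (nat_lit 7) (node (nat_lit 5) (nat_lit 72103) (nat_lit 8) (node (nat_lit 6)
  (nat_lit 72481) (nat_lit 9) (node (nat_lit 5) (nat_lit 71651) (nat_lit 10) nil nil) nil) nil)
  nil)) (node (nat_lit 4) (nat_lit 72501) (nat_lit 6) (node (nat_lit 5) (nat_lit 67955) (nat_lit
  7) (node (nat_lit 6) (nat_lit 53030) (nat_lit 8) (node (nat_lit 8) (nat_lit 53409) (nat_lit 9)
  nil (node (nat_lit 4) (nat_lit 52020) (nat_lit 9) (node (nat_lit 8) (nat_lit 52039) (nat_lit 10)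
  nil nil) nil)) nil) nil) (node (nat_lit 5) (nat_lit 72501) (nat_lit 6) (node (nat_lit 6)
  (nat_lit 73334) (nat_lit 7) nil nil) nil))) (node (nat_lit 0) (nat_lit 71358) (nat_lit 5) (node
  (nat_lit 6) (nat_lit 72501) (nat_lit 6) nil nil) (node (nat_lit 2) (nat_lit 71358) (nat_lit 5)
  (node (nat_lit 6) (nat_lit 72501) (nat_lit 6) nil nil) nil)))) (node (nat_lit 1) (nat_lit 0)
  (nat_lit 4) (node (nat_lit 5) (nat_lit 71358) (nat_lit 5) (node (nat_lit 7) (nat_lit 72501)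
  (nat_lit 6) (node (nat_lit 6) (nat_lit 73334) (nat_lit 7) (node (nat_lit 7) (nat_lit 73882)
  (nat_lit 8) (node (nat_lit 0) (nat_lit 74261) (nat_lit 9) (node (nat_lit 6) (nat_lit 74549)
  (nat_lit 10) nil nil) (node (nat_lit 4) (nat_lit 74261) (nat_lit 9) (node (nat_lit 6) (nat_lit
  74549) (nat_lit 10) nil (node (nat_lit 5) (nat_lit 74549) (nat_lit 10) (node (nat_lit 6)
  (nat_lit 74803) (nat_lit 11) (node (nat_lit 7) (nat_lit 75033) (nat_lit 12) (node (nat_lit 5)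
  (nat_lit 74652) (nat_lit 13) nil nil) nil) nil) nil)) (node (nat_lit 2) (nat_lit 72872) (nat_lit
  9) (node (nat_lit 6) (nat_lit 73160) (nat_lit 10) (node (nat_lit 7) (nat_lit 73414) (nat_lit 11)
  nil nil) (node (nat_lit 7) (nat_lit 72770) (nat_lit 10) nil nil)) nil))) (node (nat_lit 5)
  (nat_lit 73882) (nat_lit 8) (node (nat_lit 6) (nat_lit 74261) (nat_lit 9) nil nil) (node
  (nat_lit 4) (nat_lit 72103) (nat_lit 8) (node (nat_lit 5) (nat_lit 71092) (nat_lit 9) (node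
  (nat_lit 6) (nat_lit 71381) (nat_lit 10) nil nil) nil) nil))) (node (nat_lit 4) (nat_lit 73334)
  (nat_lit 7) (node (nat_lit 5) (nat_lit 72340) (nat_lit 8) (node (nat_lit 6) (nat_lit 69012)
  (nat_lit 9) (node (nat_lit 7) (nat_lit 53499) (nat_lit 10) (node (nat_lit 5) (nat_lit 31874)
  (nat_lit 11) nil nil) nil) (node (nat_lit 4) (nat_lit 71329) (nat_lit 9) nil nil)) nil) nil))
  (node (nat_lit 4) (nat_lit 72501) (nat_lit 6) (node (nat_lit 6) (nat_lit 73334) (nat_lit 7)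
  (node (nat_lit 4) (nat_lit 72103) (nat_lit 8) (node (nat_lit 5) (nat_lit 70274) (nat_lit 9)
  (node (nat_lit 6) (nat_lit 65823) (nat_lit 10) (node (nat_lit 7) (nat_lit 54554) (nat_lit 11)
  (node (nat_lit 5) (nat_lit 45799) (nat_lit 12) nil nil) nil) nil) nil) (node (nat_lit 5)
  (nat_lit 72103) (nat_lit 8) nil (node (nat_lit 7) (nat_lit 73882) (nat_lit 8) nil nil))) (node
  (nat_lit 7) (nat_lit 73334) (nat_lit 7) (node (nat_lit 5) (nat_lit 72103) (nat_lit 8) nil (node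
  (nat_lit 4) (nat_lit 73882) (nat_lit 8) (node (nat_lit 5) (nat_lit 70650) (nat_lit 9) (node
  (nat_lit 6) (nat_lit 55924) (nat_lit 10) nil nil) nil) nil)) (node (nat_lit 5) (nat_lit 70960)
  (nat_lit 7) nil nil))) (node (nat_lit 6) (nat_lit 72501) (nat_lit 6) (node (nat_lit 5) (nat_lit
  73334) (nat_lit 7) (node (nat_lit 7) (nat_lit 73882) (nat_lit 8) (node (nat_lit 6) (nat_lit
  74261) (nat_lit 9) nil nil) nil) (node (nat_lit 4) (nat_lit 71697) (nat_lit 7) nil nil)) (node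
  (nat_lit 0) (nat_lit 72501) (nat_lit 6) nil (node (nat_lit 2) (nat_lit 72501) (nat_lit 6) (node
  (nat_lit 5) (nat_lit 70960) (nat_lit 7) nil (node (nat_lit 7) (nat_lit 68832) (nat_lit 7) nil
  (node (nat_lit 6) (nat_lit 73334) (nat_lit 7) nil (node (nat_lit 4) (nat_lit 70960) (nat_lit 7)
  nil nil)))) nil))))) (node (nat_lit 4) (nat_lit 71358) (nat_lit 5) (node (nat_lit 5) (nat_lit
  72501) (nat_lit 6) (node (nat_lit 6) (nat_lit 33458) (nat_lit 7) nil nil) (node (nat_lit 6)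
  (nat_lit 72501) (nat_lit 6) (node (nat_lit 4) (nat_lit 70960) (nat_lit 7) nil nil) (node
  (nat_lit 7) (nat_lit 72501) (nat_lit 6) nil nil))) (node (nat_lit 6) (nat_lit 71358) (nat_lit 5)
  (node (nat_lit 4) (nat_lit 72501) (nat_lit 6) (node (nat_lit 7) (nat_lit 73334) (nat_lit 7)
  (node (nat_lit 4) (nat_lit 73882) (nat_lit 8) nil nil) (node (nat_lit 5) (nat_lit 70960)
  (nat_lit 7) (node (nat_lit 6) (nat_lit 71508) (nat_lit 8) (node (nat_lit 7) (nat_lit 31876)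
  (nat_lit 9) nil nil) nil) nil)) (node (nat_lit 5) (nat_lit 72501) (nat_lit 6) (node (nat_lit 7)
  (nat_lit 73334) (nat_lit 7) nil nil) nil)) (node (nat_lit 0) (nat_lit 71358) (nat_lit 5) (node
  (nat_lit 7) (nat_lit 72501) (nat_lit 6) nil nil) (node (nat_lit 2) (nat_lit 71358) (nat_lit 5)
  (node (nat_lit 6) (nat_lit 72089) (nat_lit 6) nil (node (nat_lit 7) (nat_lit 72501) (nat_lit 6)
  nil nil)) nil))))) (node (nat_lit 0) (nat_lit 69515) (nat_lit 4) (node (nat_lit 5) (nat_lit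
  71358) (nat_lit 5) (node (nat_lit 6) (nat_lit 72501) (nat_lit 6) nil nil) (node (nat_lit 6)
  (nat_lit 71358) (nat_lit 5) (node (nat_lit 4) (nat_lit 72501) (nat_lit 6) (node (nat_lit 5)
  (nat_lit 70960) (nat_lit 7) (node (nat_lit 6) (nat_lit 71508) (nat_lit 8) nil nil) nil) nil)
  (node (nat_lit 4) (nat_lit 71358) (nat_lit 5) nil (node (nat_lit 1) (nat_lit 71358) (nat_lit 5)
  nil nil)))) (node (nat_lit 2) (nat_lit 0) (nat_lit 4) (node (nat_lit 5) (nat_lit 71358) (nat_lit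
  5) (node (nat_lit 7) (nat_lit 72501) (nat_lit 6) nil (node (nat_lit 6) (nat_lit 72501) (nat_lit
  6) nil nil)) (node (nat_lit 6) (nat_lit 68062) (nat_lit 5) (node (nat_lit 5) (nat_lit 70952)
  (nat_lit 6) nil (node (nat_lit 4) (nat_lit 72501) (nat_lit 6) (node (nat_lit 5) (nat_lit 69748)
  (nat_lit 7) (node (nat_lit 6) (nat_lit 45799) (nat_lit 8) nil nil) nil) nil)) (node (nat_lit 4)
  (nat_lit 71358) (nat_lit 5) (node (nat_lit 6) (nat_lit 72501) (nat_lit 6) (node (nat_lit 4)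
  (nat_lit 70960) (nat_lit 7) nil nil) (node (nat_lit 7) (nat_lit 72501) (nat_lit 6) nil nil))
  (node (nat_lit 1) (nat_lit 71358) (nat_lit 5) (node (nat_lit 4) (nat_lit 66700) (nat_lit 6) nil
  nil) (node (nat_lit 0) (nat_lit 71358) (nat_lit 5) nil nil))))) nil))))) (node (nat_lit 4)
  (nat_lit 0) (nat_lit 3) (node (nat_lit 1) (nat_lit 0) (nat_lit 4) (node (nat_lit 4) (nat_lit
  55666) (nat_lit 5) (node (nat_lit 5) (nat_lit 57568) (nat_lit 6) (node (nat_lit 4) (nat_lit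
  33542) (nat_lit 7) (node (nat_lit 0) (nat_lit 34041) (nat_lit 8) nil (node (nat_lit 1) (nat_lit
  33749) (nat_lit 8) nil (node (nat_lit 2) (nat_lit 32383) (nat_lit 8) nil nil))) (node (nat_lit
  7) (nat_lit 59891) (nat_lit 7) (node (nat_lit 4) (nat_lit 62780) (nat_lit 8) nil (node (nat_lit
  5) (nat_lit 61276) (nat_lit 8) (node (nat_lit 4) (nat_lit 63723) (nat_lit 9) (node (nat_lit 5)
  (nat_lit 64399) (nat_lit 10) (node (nat_lit 7) (nat_lit 64927) (nat_lit 11) (node (nat_lit 4)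
  (nat_lit 65389) (nat_lit 12) (node (nat_lit 5) (nat_lit 65711) (nat_lit 13) (node (nat_lit 4)
  (nat_lit 65920) (nat_lit 14) (node (nat_lit 7) (nat_lit 64951) (nat_lit 15) (node (nat_lit 4)
  (nat_lit 63148) (nat_lit 16) (node (nat_lit 5) (nat_lit 60018) (nat_lit 17) (node (nat_lit 7)
  (nat_lit 55280) (nat_lit 18) (node (nat_lit 5) (nat_lit 39727) (nat_lit 19) (node (nat_lit 4)
  (nat_lit 36450) (nat_lit 20) nil nil) nil) nil) nil) nil) nil) nil) nil) nil) nil) nil) nil)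
  (node (nat_lit 1) (nat_lit 64753) (nat_lit 8) nil nil))) (node (nat_lit 1) (nat_lit 63708)
  (nat_lit 7) (node (nat_lit 4) (nat_lit 64915) (nat_lit 8) (node (nat_lit 5) (nat_lit 62624)
  (nat_lit 9) (node (nat_lit 4) (nat_lit 55817) (nat_lit 10) (node (nat_lit 7) (nat_lit 46615)
  (nat_lit 11) (node (nat_lit 4) (nat_lit 37464) (nat_lit 12) nil nil) nil) nil) nil) nil) (node
  (nat_lit 0) (nat_lit 63708) (nat_lit 7) nil (node (nat_lit 2) (nat_lit 62125) (nat_lit 7) nil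
  nil))))) (node (nat_lit 1) (nat_lit 66138) (nat_lit 6) (node (nat_lit 7) (nat_lit 67863)
  (nat_lit 7) nil (node (nat_lit 4) (nat_lit 67863) (nat_lit 7) (node (nat_lit 5) (nat_lit 66369)
  (nat_lit 8) (node (nat_lit 4) (nat_lit 57226) (nat_lit 9) (node (nat_lit 7) (nat_lit 36676)
  (nat_lit 10) nil nil) nil) nil) nil)) (node (nat_lit 0) (nat_lit 66138) (nat_lit 6) (node
  (nat_lit 7) (nat_lit 67863) (nat_lit 7) (node (nat_lit 4) (nat_lit 68960) (nat_lit 8) (node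
  (nat_lit 5) (nat_lit 69380) (nat_lit 9) (node (nat_lit 4) (nat_lit 68258) (nat_lit 10) (node
  (nat_lit 7) (nat_lit 68564) (nat_lit 11) nil nil) nil) nil) nil) nil) (node (nat_lit 2) (nat_lit
  66138) (nat_lit 6) (node (nat_lit 7) (nat_lit 67863) (nat_lit 7) (node (nat_lit 4) (nat_lit
  68309) (nat_lit 8) (node (nat_lit 5) (nat_lit 64716) (nat_lit 9) (node (nat_lit 4) (nat_lit
  57366) (nat_lit 10) (node (nat_lit 7) (nat_lit 48707) (nat_lit 11) nil nil) nil) nil) nil) nil)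
  nil)))) (node (nat_lit 5) (nat_lit 55665) (nat_lit 5) (node (nat_lit 7) (nat_lit 57572) (nat_lit
  6) (node (nat_lit 4) (nat_lit 64662) (nat_lit 7) (node (nat_lit 5) (nat_lit 65062) (nat_lit 8)
  (node (nat_lit 4) (nat_lit 64168) (nat_lit 9) (node (nat_lit 7) (nat_lit 53720) (nat_lit 10)
  (node (nat_lit 5) (nat_lit 31078) (nat_lit 11) nil nil) nil) nil) nil) nil) (node (nat_lit 1)
  (nat_lit 67429) (nat_lit 6) (node (nat_lit 4) (nat_lit 69153) (nat_lit 7) (node (nat_lit 5)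
  (nat_lit 67484) (nat_lit 8) (node (nat_lit 4) (nat_lit 58579) (nat_lit 9) (node (nat_lit 7)
  (nat_lit 40292) (nat_lit 10) nil nil) nil) nil) nil) (node (nat_lit 4) (nat_lit 57578) (nat_lit
  6) (node (nat_lit 5) (nat_lit 64197) (nat_lit 7) (node (nat_lit 7) (nat_lit 66686) (nat_lit 8)
  (node (nat_lit 4) (nat_lit 67313) (nat_lit 9) (node (nat_lit 5) (nat_lit 66659) (nat_lit 10)
  (node (nat_lit 4) (nat_lit 67171) (nat_lit 11) (node (nat_lit 7) (nat_lit 67693) (nat_lit 12)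
  (node (nat_lit 5) (nat_lit 53249) (nat_lit 13) nil nil) nil) nil) nil) nil) nil) (node (nat_lit
  1) (nat_lit 65811) (nat_lit 7) nil (node (nat_lit 0) (nat_lit 65811) (nat_lit 7) nil (node
  (nat_lit 2) (nat_lit 68230) (nat_lit 7) nil nil)))) (node (nat_lit 0) (nat_lit 67429) (nat_lit
  6) nil (node (nat_lit 2) (nat_lit 67429) (nat_lit 6) nil nil))))) (node (nat_lit 1) (nat_lit
  69658) (nat_lit 5) (node (nat_lit 4) (nat_lit 70834) (nat_lit 6) (node (nat_lit 5) (nat_lit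
  69382) (nat_lit 7) (node (nat_lit 4) (nat_lit 68223) (nat_lit 8) (node (nat_lit 7) (nat_lit
  30124) (nat_lit 9) nil nil) nil) nil) (node (nat_lit 7) (nat_lit 70834) (nat_lit 6) (node
  (nat_lit 4) (nat_lit 69382) (nat_lit 7) nil nil) (node (nat_lit 5) (nat_lit 70834) (nat_lit 6)
  nil nil))) (node (nat_lit 0) (nat_lit 69658) (nat_lit 5) (node (nat_lit 7) (nat_lit 70834)
  (nat_lit 6) nil nil) (node (nat_lit 2) (nat_lit 69658) (nat_lit 5) (node (nat_lit 7) (nat_lit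
  70834) (nat_lit 6) nil nil) nil))))) (node (nat_lit 0) (nat_lit 66010) (nat_lit 4) (node
  (nat_lit 5) (nat_lit 69658) (nat_lit 5) nil (node (nat_lit 4) (nat_lit 69658) (nat_lit 5) nil
  (node (nat_lit 1) (nat_lit 69658) (nat_lit 5) (node (nat_lit 4) (nat_lit 70834) (nat_lit 6)
  (node (nat_lit 5) (nat_lit 69382) (nat_lit 7) (node (nat_lit 4) (nat_lit 68223) (nat_lit 8) nil
  nil) nil) nil) nil))) (node (nat_lit 2) (nat_lit 64195) (nat_lit 4) (node (nat_lit 5) (nat_lit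
  69658) (nat_lit 5) nil (node (nat_lit 4) (nat_lit 69658) (nat_lit 5) nil (node (nat_lit 1)
  (nat_lit 69658) (nat_lit 5) (node (nat_lit 4) (nat_lit 67954) (nat_lit 6) (node (nat_lit 5)
  (nat_lit 63298) (nat_lit 7) (node (nat_lit 4) (nat_lit 38052) (nat_lit 8) nil nil) nil) nil)
  nil))) nil))) (node (nat_lit 0) (nat_lit 0) (nat_lit 3) (node (nat_lit 5) (nat_lit 75304)
  (nat_lit 4) (node (nat_lit 4) (nat_lit 77147) (nat_lit 5) nil (node (nat_lit 1) (nat_lit 77147)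
  (nat_lit 5) (node (nat_lit 4) (nat_lit 78290) (nat_lit 6) nil nil) nil)) (node (nat_lit 1)
  (nat_lit 75304) (nat_lit 4) (node (nat_lit 4) (nat_lit 77147) (nat_lit 5) (node (nat_lit 5)
  (nat_lit 78290) (nat_lit 6) nil nil) (node (nat_lit 1) (nat_lit 77147) (nat_lit 5) nil nil))
  (node (nat_lit 4) (nat_lit 75304) (nat_lit 4) (node (nat_lit 6) (nat_lit 77147) (nat_lit 5) nil
  (node (nat_lit 1) (nat_lit 77147) (nat_lit 5) nil (node (nat_lit 5) (nat_lit 77147) (nat_lit 5)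
  nil nil))) (node (nat_lit 0) (nat_lit 75304) (nat_lit 4) nil (node (nat_lit 2) (nat_lit 75304)
  (nat_lit 4) nil nil))))) (node (nat_lit 2) (nat_lit 0) (nat_lit 3) (node (nat_lit 5) (nat_lit 0)
  (nat_lit 4) (node (nat_lit 4) (nat_lit 75603) (nat_lit 5) (node (nat_lit 6) (nat_lit 76746)
  (nat_lit 6) nil nil) (node (nat_lit 1) (nat_lit 75603) (nat_lit 5) (node (nat_lit 4) (nat_lit
  76746) (nat_lit 6) (node (nat_lit 5) (nat_lit 73937) (nat_lit 7) (node (nat_lit 6) (nat_lit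
  56211) (nat_lit 8) nil nil) nil) nil) (node (nat_lit 0) (nat_lit 75603) (nat_lit 5) nil nil)))
  (node (nat_lit 1) (nat_lit 70396) (nat_lit 4) (node (nat_lit 4) (nat_lit 64158) (nat_lit 5)
  (node (nat_lit 5) (nat_lit 44255) (nat_lit 6) (node (nat_lit 6) (nat_lit 30950) (nat_lit 7) nil
  nil) nil) (node (nat_lit 6) (nat_lit 74706) (nat_lit 5) nil (node (nat_lit 5) (nat_lit 73906)
  (nat_lit 5) (node (nat_lit 7) (nat_lit 75050) (nat_lit 6) nil nil) (node (nat_lit 1) (nat_lit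
  74706) (nat_lit 5) nil nil)))) (node (nat_lit 4) (nat_lit 72961) (nat_lit 4) (node (nat_lit 6)
  (nat_lit 75603) (nat_lit 5) (node (nat_lit 5) (nat_lit 76746) (nat_lit 6) (node (nat_lit 4)
  (nat_lit 77198) (nat_lit 7) nil nil) (node (nat_lit 1) (nat_lit 76746) (nat_lit 6) (node
  (nat_lit 4) (nat_lit 77579) (nat_lit 7) (node (nat_lit 5) (nat_lit 76347) (nat_lit 8) (node
  (nat_lit 6) (nat_lit 64042) (nat_lit 9) (node (nat_lit 4) (nat_lit 44255) (nat_lit 10) nil nil)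
  nil) nil) nil) nil)) (node (nat_lit 1) (nat_lit 75603) (nat_lit 5) (node (nat_lit 4) (nat_lit
  76746) (nat_lit 6) (node (nat_lit 5) (nat_lit 74499) (nat_lit 7) (node (nat_lit 6) (nat_lit
  63905) (nat_lit 8) (node (nat_lit 4) (nat_lit 32861) (nat_lit 9) nil nil) nil) nil) nil) (node
  (nat_lit 5) (nat_lit 75603) (nat_lit 5) (node (nat_lit 4) (nat_lit 76746) (nat_lit 6) nil nil)
  nil))) (node (nat_lit 0) (nat_lit 73759) (nat_lit 4) (node (nat_lit 6) (nat_lit 75603) (nat_lit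
  5) nil (node (nat_lit 5) (nat_lit 75603) (nat_lit 5) nil nil)) nil)))) nil))))

noncomputable def t143 : Tr :=
  (node (nat_lit 4) (nat_lit 0) (nat_lit 3) (node (nat_lit 1) (nat_lit 0) (nat_lit 4) (node
  (nat_lit 4) (nat_lit 61601) (nat_lit 5) (node (nat_lit 5) (nat_lit 47814) (nat_lit 6) (node
  (nat_lit 7) (nat_lit 49221) (nat_lit 7) (node (nat_lit 5) (nat_lit 50682) (nat_lit 8) (node
  (nat_lit 4) (nat_lit 51549) (nat_lit 9) (node (nat_lit 7) (nat_lit 52225) (nat_lit 10) (node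
  (nat_lit 4) (nat_lit 52752) (nat_lit 11) nil nil) (node (nat_lit 5) (nat_lit 52225) (nat_lit 10)
  (node (nat_lit 7) (nat_lit 52752) (nat_lit 11) (node (nat_lit 4) (nat_lit 53164) (nat_lit 12)
  (node (nat_lit 5) (nat_lit 53485) (nat_lit 13) (node (nat_lit 4) (nat_lit 53296) (nat_lit 14)
  (node (nat_lit 7) (nat_lit 53436) (nat_lit 15) (node (nat_lit 4) (nat_lit 53330) (nat_lit 16)
  (node (nat_lit 5) (nat_lit 53370) (nat_lit 17) (node (nat_lit 7) (nat_lit 53463) (nat_lit 18)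
  (node (nat_lit 5) (nat_lit 53536) (nat_lit 19) (node (nat_lit 4) (nat_lit 53495) (nat_lit 20)
  nil nil) nil) nil) nil) nil) nil) nil) nil) nil) nil) nil)) nil) (node (nat_lit 4) (nat_lit
  50682) (nat_lit 8) (node (nat_lit 7) (nat_lit 51549) (nat_lit 9) nil nil) (node (nat_lit 3)
  (nat_lit 50619) (nat_lit 8) nil nil))) (node (nat_lit 4) (nat_lit 19728) (nat_lit 7) nil (node
  (nat_lit 3) (nat_lit 51322) (nat_lit 7) (node (nat_lit 4) (nat_lit 50619) (nat_lit 8) (node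
  (nat_lit 5) (nat_lit 51039) (nat_lit 9) nil nil) nil) (node (nat_lit 0) (nat_lit 51653) (nat_lit
  7) nil (node (nat_lit 2) (nat_lit 51322) (nat_lit 7) nil nil))))) (node (nat_lit 3) (nat_lit
  61605) (nat_lit 6) nil nil)) (node (nat_lit 5) (nat_lit 63839) (nat_lit 5) (node (nat_lit 7)
  (nat_lit 65096) (nat_lit 6) (node (nat_lit 4) (nat_lit 65067) (nat_lit 7) (node (nat_lit 5)
  (nat_lit 65463) (nat_lit 8) (node (nat_lit 4) (nat_lit 65463) (nat_lit 9) (node (nat_lit 7)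
  (nat_lit 65525) (nat_lit 10) (node (nat_lit 5) (nat_lit 20868) (nat_lit 11) nil nil) nil) nil)
  nil) nil) (node (nat_lit 4) (nat_lit 64045) (nat_lit 6) (node (nat_lit 5) (nat_lit 65736)
  (nat_lit 7) (node (nat_lit 7) (nat_lit 65886) (nat_lit 8) (node (nat_lit 4) (nat_lit 65886)
  (nat_lit 9) (node (nat_lit 5) (nat_lit 65947) (nat_lit 10) (node (nat_lit 4) (nat_lit 65947)
  (nat_lit 11) (node (nat_lit 7) (nat_lit 65991) (nat_lit 12) (node (nat_lit 5) (nat_lit 65999)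
  (nat_lit 13) nil nil) nil) nil) nil) nil) nil) nil) (node (nat_lit 3) (nat_lit 63855) (nat_lit
  6) nil nil))) (node (nat_lit 3) (nat_lit 61830) (nat_lit 5) (node (nat_lit 5) (nat_lit 64831)
  (nat_lit 6) (node (nat_lit 7) (nat_lit 64910) (nat_lit 7) (node (nat_lit 5) (nat_lit 64967)
  (nat_lit 8) (node (nat_lit 8) (nat_lit 64967) (nat_lit 9) nil nil) nil) (node (nat_lit 8)
  (nat_lit 64831) (nat_lit 7) nil nil)) (node (nat_lit 4) (nat_lit 62461) (nat_lit 6) (node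
  (nat_lit 5) (nat_lit 63740) (nat_lit 7) (node (nat_lit 4) (nat_lit 63740) (nat_lit 8) nil nil)
  nil) (node (nat_lit 7) (nat_lit 64477) (nat_lit 6) (node (nat_lit 4) (nat_lit 61102) (nat_lit 7)
  (node (nat_lit 5) (nat_lit 52046) (nat_lit 8) (node (nat_lit 4) (nat_lit 45307) (nat_lit 9)
  (node (nat_lit 7) (nat_lit 29876) (nat_lit 10) nil nil) nil) nil) (node (nat_lit 5) (nat_lit
  64556) (nat_lit 7) (node (nat_lit 7) (nat_lit 64613) (nat_lit 8) nil nil) nil)) nil))) (node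
  (nat_lit 0) (nat_lit 63799) (nat_lit 5) (node (nat_lit 7) (nat_lit 65003) (nat_lit 6) (node
  (nat_lit 4) (nat_lit 65003) (nat_lit 7) (node (nat_lit 5) (nat_lit 65165) (nat_lit 8) (node
  (nat_lit 4) (nat_lit 65165) (nat_lit 9) (node (nat_lit 7) (nat_lit 65226) (nat_lit 10) nil nil)
  nil) nil) (node (nat_lit 5) (nat_lit 65107) (nat_lit 7) (node (nat_lit 7) (nat_lit 65165)
  (nat_lit 8) nil nil) nil)) nil) (node (nat_lit 2) (nat_lit 61809) (nat_lit 5) (node (nat_lit 4)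
  (nat_lit 62459) (nat_lit 6) nil (node (nat_lit 5) (nat_lit 64020) (nat_lit 6) (node (nat_lit 7)
  (nat_lit 64098) (nat_lit 7) nil nil) (node (nat_lit 7) (nat_lit 64280) (nat_lit 6) (node
  (nat_lit 4) (nat_lit 59699) (nat_lit 7) (node (nat_lit 5) (nat_lit 52046) (nat_lit 8) (node
  (nat_lit 4) (nat_lit 45054) (nat_lit 9) (node (nat_lit 7) (nat_lit 29777) (nat_lit 10) nil nil)
  nil) nil) (node (nat_lit 5) (nat_lit 64358) (nat_lit 7) (node (nat_lit 7) (nat_lit 64416)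
  (nat_lit 8) nil nil) (node (nat_lit 3) (nat_lit 64280) (nat_lit 7) nil nil))) (node (nat_lit 3)
  (nat_lit 62447) (nat_lit 6) (node (nat_lit 7) (nat_lit 63389) (nat_lit 7) nil nil) nil))))
  nil))))) (node (nat_lit 3) (nat_lit 0) (nat_lit 4) (node (nat_lit 4) (nat_lit 49728) (nat_lit 5)
  (node (nat_lit 5) (nat_lit 48391) (nat_lit 6) (node (nat_lit 7) (nat_lit 50447) (nat_lit 7)
  (node (nat_lit 5) (nat_lit 51557) (nat_lit 8) (node (nat_lit 4) (nat_lit 52823) (nat_lit 9)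
  (node (nat_lit 7) (nat_lit 53498) (nat_lit 10) (node (nat_lit 5) (nat_lit 54004) (nat_lit 11)
  (node (nat_lit 7) (nat_lit 54329) (nat_lit 12) (node (nat_lit 4) (nat_lit 54583) (nat_lit 13)
  (node (nat_lit 5) (nat_lit 54781) (nat_lit 14) (node (nat_lit 4) (nat_lit 54668) (nat_lit 15)
  (node (nat_lit 7) (nat_lit 54758) (nat_lit 16) (node (nat_lit 4) (nat_lit 54695) (nat_lit 17)
  (node (nat_lit 5) (nat_lit 54714) (nat_lit 18) (node (nat_lit 7) (nat_lit 54771) (nat_lit 19)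
  (node (nat_lit 5) (nat_lit 54816) (nat_lit 20) (node (nat_lit 4) (nat_lit 54790) (nat_lit 21)
  (node (nat_lit 7) (nat_lit 54811) (nat_lit 22) nil nil) nil) nil) nil) nil) nil) nil) nil) nil)
  nil) nil) nil) (node (nat_lit 5) (nat_lit 53498) (nat_lit 10) (node (nat_lit 7) (nat_lit 54004)
  (nat_lit 11) (node (nat_lit 4) (nat_lit 54329) (nat_lit 12) (node (nat_lit 5) (nat_lit 54583)
  (nat_lit 13) (node (nat_lit 4) (nat_lit 54433) (nat_lit 14) (node (nat_lit 7) (nat_lit 54544)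
  (nat_lit 15) (node (nat_lit 4) (nat_lit 54461) (nat_lit 16) (node (nat_lit 5) (nat_lit 54492)
  (nat_lit 17) (node (nat_lit 7) (nat_lit 54566) (nat_lit 18) (node (nat_lit 5) (nat_lit 54623)
  (nat_lit 19) (node (nat_lit 4) (nat_lit 54590) (nat_lit 20) nil nil) nil) nil) nil) nil) nil)
  nil) nil) nil) nil) nil)) nil) (node (nat_lit 4) (nat_lit 51956) (nat_lit 8) nil nil)) (node
  (nat_lit 4) (nat_lit 39640) (nat_lit 7) nil (node (nat_lit 1) (nat_lit 52771) (nat_lit 7) nil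
  nil))) (node (nat_lit 1) (nat_lit 56046) (nat_lit 6) (node (nat_lit 7) (nat_lit 57770) (nat_lit
  7) nil (node (nat_lit 4) (nat_lit 57606) (nat_lit 7) (node (nat_lit 5) (nat_lit 54452) (nat_lit
  8) (node (nat_lit 4) (nat_lit 44435) (nat_lit 9) (node (nat_lit 7) (nat_lit 30642) (nat_lit 10)
  nil nil) nil) nil) nil)) (node (nat_lit 0) (nat_lit 56046) (nat_lit 6) nil (node (nat_lit 2)
  (nat_lit 56046) (nat_lit 6) nil nil)))) (node (nat_lit 5) (nat_lit 56899) (nat_lit 5) (node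
  (nat_lit 7) (nat_lit 61455) (nat_lit 6) (node (nat_lit 4) (nat_lit 62835) (nat_lit 7) (node
  (nat_lit 5) (nat_lit 65000) (nat_lit 8) (node (nat_lit 4) (nat_lit 63432) (nat_lit 9) (node
  (nat_lit 7) (nat_lit 63276) (nat_lit 10) (node (nat_lit 5) (nat_lit 37180) (nat_lit 11) nil nil)
  nil) nil) nil) (node (nat_lit 1) (nat_lit 64962) (nat_lit 7) nil nil)) (node (nat_lit 4)
  (nat_lit 60861) (nat_lit 6) (node (nat_lit 5) (nat_lit 64674) (nat_lit 7) (node (nat_lit 7)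
  (nat_lit 64992) (nat_lit 8) (node (nat_lit 4) (nat_lit 64974) (nat_lit 9) (node (nat_lit 5)
  (nat_lit 65237) (nat_lit 10) (node (nat_lit 4) (nat_lit 64617) (nat_lit 11) (node (nat_lit 7)
  (nat_lit 64145) (nat_lit 12) (node (nat_lit 5) (nat_lit 64315) (nat_lit 13) (node (nat_lit 4)
  (nat_lit 64042) (nat_lit 14) nil nil) nil) nil) nil) nil) nil) nil) nil) (node (nat_lit 1)
  (nat_lit 63905) (nat_lit 6) (node (nat_lit 5) (nat_lit 64964) (nat_lit 7) (node (nat_lit 4)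
  (nat_lit 64926) (nat_lit 8) (node (nat_lit 7) (nat_lit 64964) (nat_lit 9) (node (nat_lit 4)
  (nat_lit 64396) (nat_lit 10) (node (nat_lit 5) (nat_lit 63141) (nat_lit 11) nil nil) nil) nil)
  nil) nil) (node (nat_lit 0) (nat_lit 63905) (nat_lit 6) nil (node (nat_lit 2) (nat_lit 62074)
  (nat_lit 6) nil nil))))) (node (nat_lit 1) (nat_lit 63555) (nat_lit 5) (node (nat_lit 5)
  (nat_lit 64945) (nat_lit 6) (node (nat_lit 7) (nat_lit 64945) (nat_lit 7) nil (node (nat_lit 8)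
  (nat_lit 65062) (nat_lit 7) nil nil)) (node (nat_lit 4) (nat_lit 63761) (nat_lit 6) (node
  (nat_lit 8) (nat_lit 64742) (nat_lit 7) nil (node (nat_lit 7) (nat_lit 63208) (nat_lit 7) nil
  (node (nat_lit 5) (nat_lit 55558) (nat_lit 7) (node (nat_lit 4) (nat_lit 26692) (nat_lit 8) nil
  (node (nat_lit 7) (nat_lit 55211) (nat_lit 8) nil nil)) nil))) (node (nat_lit 7) (nat_lit 63781)
  (nat_lit 6) (node (nat_lit 4) (nat_lit 63723) (nat_lit 7) nil (node (nat_lit 5) (nat_lit 64742)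
  (nat_lit 7) (node (nat_lit 4) (nat_lit 64742) (nat_lit 8) (node (nat_lit 7) (nat_lit 64742)
  (nat_lit 9) (node (nat_lit 4) (nat_lit 64742) (nat_lit 10) (node (nat_lit 5) (nat_lit 64433)
  (nat_lit 11) nil nil) nil) nil) nil) nil)) nil))) (node (nat_lit 0) (nat_lit 63555) (nat_lit 5)
  (node (nat_lit 7) (nat_lit 63781) (nat_lit 6) (node (nat_lit 4) (nat_lit 63723) (nat_lit 7)
  (node (nat_lit 5) (nat_lit 64712) (nat_lit 8) (node (nat_lit 4) (nat_lit 63764) (nat_lit 9)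
  (node (nat_lit 7) (nat_lit 62985) (nat_lit 10) nil nil) nil) nil) (node (nat_lit 5) (nat_lit
  64742) (nat_lit 7) (node (nat_lit 7) (nat_lit 64742) (nat_lit 8) nil nil) nil)) nil) (node
  (nat_lit 2) (nat_lit 57527) (nat_lit 5) (node (nat_lit 4) (nat_lit 59628) (nat_lit 6) (node
  (nat_lit 7) (nat_lit 60343) (nat_lit 7) (node (nat_lit 4) (nat_lit 59553) (nat_lit 8) (node
  (nat_lit 5) (nat_lit 57451) (nat_lit 9) (node (nat_lit 4) (nat_lit 50280) (nat_lit 10) nil nil)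
  nil) nil) (node (nat_lit 8) (nat_lit 60343) (nat_lit 7) (node (nat_lit 7) (nat_lit 60343)
  (nat_lit 8) (node (nat_lit 4) (nat_lit 60343) (nat_lit 9) nil nil) nil) nil)) (node (nat_lit 5)
  (nat_lit 64785) (nat_lit 6) (node (nat_lit 7) (nat_lit 64785) (nat_lit 7) nil nil) (node
  (nat_lit 7) (nat_lit 59884) (nat_lit 6) (node (nat_lit 4) (nat_lit 60337) (nat_lit 7) (node
  (nat_lit 5) (nat_lit 55825) (nat_lit 8) (node (nat_lit 4) (nat_lit 41848) (nat_lit 9) (node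
  (nat_lit 7) (nat_lit 36292) (nat_lit 10) nil nil) nil) nil) (node (nat_lit 5) (nat_lit 65395)
  (nat_lit 7) (node (nat_lit 7) (nat_lit 65265) (nat_lit 8) nil nil) (node (nat_lit 1) (nat_lit
  64571) (nat_lit 7) nil nil))) (node (nat_lit 1) (nat_lit 63922) (nat_lit 6) (node (nat_lit 4)
  (nat_lit 55825) (nat_lit 7) (node (nat_lit 5) (nat_lit 51313) (nat_lit 8) nil nil) nil) (node
  (nat_lit 0) (nat_lit 64831) (nat_lit 6) nil nil))))) nil))))) (node (nat_lit 0) (nat_lit 0)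
  (nat_lit 4) (node (nat_lit 5) (nat_lit 63839) (nat_lit 5) (node (nat_lit 4) (nat_lit 64045)
  (nat_lit 6) (node (nat_lit 5) (nat_lit 65736) (nat_lit 7) (node (nat_lit 7) (nat_lit 65886)
  (nat_lit 8) nil nil) nil) (node (nat_lit 7) (nat_lit 65096) (nat_lit 6) nil nil)) (node (nat_lit
  4) (nat_lit 61808) (nat_lit 5) (node (nat_lit 5) (nat_lit 64969) (nat_lit 6) nil nil) (node
  (nat_lit 0) (nat_lit 63799) (nat_lit 5) nil (node (nat_lit 1) (nat_lit 63799) (nat_lit 5) (node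
  (nat_lit 4) (nat_lit 63881) (nat_lit 6) (node (nat_lit 5) (nat_lit 64794) (nat_lit 7) (node
  (nat_lit 4) (nat_lit 64794) (nat_lit 8) nil nil) nil) nil) (node (nat_lit 3) (nat_lit 61830)
  (nat_lit 5) (node (nat_lit 4) (nat_lit 62461) (nat_lit 6) (node (nat_lit 5) (nat_lit 63740)
  (nat_lit 7) (node (nat_lit 4) (nat_lit 63740) (nat_lit 8) nil nil) nil) nil) (node (nat_lit 2)
  (nat_lit 61809) (nat_lit 5) (node (nat_lit 4) (nat_lit 60932) (nat_lit 6) nil nil) nil))))))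
  (node (nat_lit 2) (nat_lit 0) (nat_lit 4) (node (nat_lit 5) (nat_lit 61707) (nat_lit 5) (node
  (nat_lit 4) (nat_lit 62901) (nat_lit 6) (node (nat_lit 5) (nat_lit 63662) (nat_lit 7) (node
  (nat_lit 7) (nat_lit 65489) (nat_lit 8) nil nil) (node (nat_lit 1) (nat_lit 65219) (nat_lit 7)
  nil (node (nat_lit 3) (nat_lit 64178) (nat_lit 7) nil nil))) (node (nat_lit 7) (nat_lit 62904)
  (nat_lit 6) nil (node (nat_lit 3) (nat_lit 63959) (nat_lit 6) nil (node (nat_lit 1) (nat_lit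
  64895) (nat_lit 6) nil nil)))) (node (nat_lit 4) (nat_lit 57692) (nat_lit 5) (node (nat_lit 5)
  (nat_lit 62883) (nat_lit 6) (node (nat_lit 7) (nat_lit 63615) (nat_lit 7) nil nil) (node
  (nat_lit 1) (nat_lit 64866) (nat_lit 6) (node (nat_lit 4) (nat_lit 59729) (nat_lit 7) nil nil)
  (node (nat_lit 3) (nat_lit 59770) (nat_lit 6) (node (nat_lit 4) (nat_lit 57882) (nat_lit 7)
  (node (nat_lit 5) (nat_lit 54008) (nat_lit 8) nil nil) nil) (node (nat_lit 0) (nat_lit 64866)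
  (nat_lit 6) nil nil)))) (node (nat_lit 0) (nat_lit 63725) (nat_lit 5) nil (node (nat_lit 1)
  (nat_lit 63725) (nat_lit 5) (node (nat_lit 4) (nat_lit 62280) (nat_lit 6) (node (nat_lit 5)
  (nat_lit 52439) (nat_lit 7) (node (nat_lit 4) (nat_lit 21603) (nat_lit 8) nil nil) nil) (node
  (nat_lit 7) (nat_lit 63827) (nat_lit 6) (node (nat_lit 5) (nat_lit 64769) (nat_lit 7) nil nil)
  nil)) (node (nat_lit 3) (nat_lit 57725) (nat_lit 5) (node (nat_lit 4) (nat_lit 59709) (nat_lit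
  6) (node (nat_lit 5) (nat_lit 54414) (nat_lit 7) (node (nat_lit 4) (nat_lit 37858) (nat_lit 8)
  nil nil) (node (nat_lit 7) (nat_lit 60345) (nat_lit 7) nil nil)) (node (nat_lit 5) (nat_lit
  64896) (nat_lit 6) nil (node (nat_lit 7) (nat_lit 59635) (nat_lit 6) (node (nat_lit 5) (nat_lit
  65263) (nat_lit 7) nil nil) (node (nat_lit 1) (nat_lit 63922) (nat_lit 6) nil nil)))) nil)))))
  nil)))) (node (nat_lit 0) (nat_lit 0) (nat_lit 3) (node (nat_lit 5) (nat_lit 88486) (nat_lit 4)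
  (node (nat_lit 4) (nat_lit 98647) (nat_lit 5) (node (nat_lit 5) (nat_lit 101564) (nat_lit 6)
  (node (nat_lit 6) (nat_lit 67760) (nat_lit 7) nil nil) nil) (node (nat_lit 1) (nat_lit 101655)
  (nat_lit 5) nil (node (nat_lit 3) (nat_lit 99184) (nat_lit 5) nil nil))) (node (nat_lit 4)
  (nat_lit 0) (nat_lit 4) (node (nat_lit 6) (nat_lit 100092) (nat_lit 5) (node (nat_lit 5)
  (nat_lit 103303) (nat_lit 6) (node (nat_lit 4) (nat_lit 103466) (nat_lit 7) (node (nat_lit 5)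
  (nat_lit 103668) (nat_lit 8) (node (nat_lit 6) (nat_lit 103721) (nat_lit 9) (node (nat_lit 4)
  (nat_lit 103721) (nat_lit 10) (node (nat_lit 6) (nat_lit 67300) (nat_lit 11) nil nil) nil) nil)
  nil) nil) nil) (node (nat_lit 0) (nat_lit 101232) (nat_lit 5) nil (node (nat_lit 5) (nat_lit
  97382) (nat_lit 5) nil (node (nat_lit 2) (nat_lit 97517) (nat_lit 5) nil (node (nat_lit 3)
  (nat_lit 97787) (nat_lit 5) (node (nat_lit 4) (nat_lit 94500) (nat_lit 6) (node (nat_lit 5)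
  (nat_lit 89638) (nat_lit 7) (node (nat_lit 6) (nat_lit 77159) (nat_lit 8) nil nil) nil) nil)
  (node (nat_lit 1) (nat_lit 99145) (nat_lit 5) (node (nat_lit 4) (nat_lit 95971) (nat_lit 6)
  (node (nat_lit 5) (nat_lit 90892) (nat_lit 7) (node (nat_lit 6) (nat_lit 67430) (nat_lit 8) nil
  nil) nil) nil) nil)))))) (node (nat_lit 0) (nat_lit 94984) (nat_lit 4) (node (nat_lit 5)
  (nat_lit 100980) (nat_lit 5) nil nil) (node (nat_lit 1) (nat_lit 94984) (nat_lit 4) (node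
  (nat_lit 5) (nat_lit 100980) (nat_lit 5) nil (node (nat_lit 6) (nat_lit 101305) (nat_lit 5)
  (node (nat_lit 5) (nat_lit 101554) (nat_lit 6) nil nil) (node (nat_lit 3) (nat_lit 95991)
  (nat_lit 5) nil (node (nat_lit 4) (nat_lit 100279) (nat_lit 5) (node (nat_lit 5) (nat_lit
  101554) (nat_lit 6) nil nil) nil)))) (node (nat_lit 3) (nat_lit 91933) (nat_lit 4) (node
  (nat_lit 5) (nat_lit 98374) (nat_lit 5) (node (nat_lit 7) (nat_lit 98404) (nat_lit 6) nil nil)
  (node (nat_lit 6) (nat_lit 99997) (nat_lit 5) (node (nat_lit 5) (nat_lit 100246) (nat_lit 6) nil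
  nil) (node (nat_lit 1) (nat_lit 95521) (nat_lit 5) nil (node (nat_lit 4) (nat_lit 97144)
  (nat_lit 5) (node (nat_lit 5) (nat_lit 98730) (nat_lit 6) (node (nat_lit 6) (nat_lit 73099)
  (nat_lit 7) nil nil) nil) nil)))) (node (nat_lit 2) (nat_lit 91115) (nat_lit 4) (node (nat_lit
  5) (nat_lit 97810) (nat_lit 5) nil (node (nat_lit 6) (nat_lit 98597) (nat_lit 5) nil (node
  (nat_lit 3) (nat_lit 94294) (nat_lit 5) nil (node (nat_lit 1) (nat_lit 95433) (nat_lit 5) nil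
  nil)))) nil)))))) (node (nat_lit 2) (nat_lit 0) (nat_lit 3) (node (nat_lit 5) (nat_lit 0)
  (nat_lit 4) (node (nat_lit 4) (nat_lit 80837) (nat_lit 5) (node (nat_lit 6) (nat_lit 86774)
  (nat_lit 6) nil (node (nat_lit 5) (nat_lit 75322) (nat_lit 6) (node (nat_lit 6) (nat_lit 67003)
  (nat_lit 7) nil nil) (node (nat_lit 3) (nat_lit 90987) (nat_lit 6) nil (node (nat_lit 1)
  (nat_lit 91435) (nat_lit 6) nil nil)))) (node (nat_lit 1) (nat_lit 95835) (nat_lit 5) (node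
  (nat_lit 4) (nat_lit 99604) (nat_lit 6) (node (nat_lit 5) (nat_lit 101104) (nat_lit 7) nil nil)
  nil) (node (nat_lit 3) (nat_lit 88394) (nat_lit 5) (node (nat_lit 4) (nat_lit 96672) (nat_lit 6)
  (node (nat_lit 5) (nat_lit 99006) (nat_lit 7) nil nil) nil) (node (nat_lit 0) (nat_lit 95835)
  (nat_lit 5) nil nil)))) (node (nat_lit 4) (nat_lit 0) (nat_lit 4) (node (nat_lit 6) (nat_lit
  85435) (nat_lit 5) (node (nat_lit 5) (nat_lit 90919) (nat_lit 6) (node (nat_lit 4) (nat_lit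
  95622) (nat_lit 7) (node (nat_lit 5) (nat_lit 97642) (nat_lit 8) (node (nat_lit 6) (nat_lit
  95822) (nat_lit 9) (node (nat_lit 4) (nat_lit 79579) (nat_lit 10) (node (nat_lit 6) (nat_lit
  67003) (nat_lit 11) nil nil) nil) nil) nil) (node (nat_lit 3) (nat_lit 100705) (nat_lit 7) nil
  (node (nat_lit 1) (nat_lit 102270) (nat_lit 7) nil nil))) (node (nat_lit 1) (nat_lit 98161)
  (nat_lit 6) nil (node (nat_lit 3) (nat_lit 94691) (nat_lit 6) (node (nat_lit 4) (nat_lit 94857)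
  (nat_lit 7) (node (nat_lit 5) (nat_lit 91079) (nat_lit 8) (node (nat_lit 6) (nat_lit 82456)
  (nat_lit 9) nil nil) nil) nil) (node (nat_lit 0) (nat_lit 99976) (nat_lit 6) nil nil)))) (node
  (nat_lit 0) (nat_lit 97014) (nat_lit 5) nil (node (nat_lit 5) (nat_lit 85744) (nat_lit 5) (node
  (nat_lit 4) (nat_lit 90147) (nat_lit 6) (node (nat_lit 6) (nat_lit 94936) (nat_lit 7) nil nil)
  (node (nat_lit 1) (nat_lit 100051) (nat_lit 6) nil (node (nat_lit 3) (nat_lit 98104) (nat_lit 6)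
  nil nil))) (node (nat_lit 1) (nat_lit 97014) (nat_lit 5) (node (nat_lit 5) (nat_lit 100687)
  (nat_lit 6) nil (node (nat_lit 4) (nat_lit 97250) (nat_lit 6) (node (nat_lit 5) (nat_lit 90280)
  (nat_lit 7) (node (nat_lit 6) (nat_lit 83964) (nat_lit 8) (node (nat_lit 4) (nat_lit 51376)
  (nat_lit 9) nil nil) nil) nil) nil)) (node (nat_lit 3) (nat_lit 92672) (nat_lit 5) (node
  (nat_lit 6) (nat_lit 95131) (nat_lit 6) (node (nat_lit 5) (nat_lit 98721) (nat_lit 7) nil nil)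
  (node (nat_lit 5) (nat_lit 96231) (nat_lit 6) nil (node (nat_lit 4) (nat_lit 92520) (nat_lit 6)
  (node (nat_lit 5) (nat_lit 85328) (nat_lit 7) (node (nat_lit 6) (nat_lit 70476) (nat_lit 8)
  (node (nat_lit 4) (nat_lit 69572) (nat_lit 9) nil nil) nil) nil) (node (nat_lit 1) (nat_lit
  97045) (nat_lit 6) nil (node (nat_lit 0) (nat_lit 98219) (nat_lit 6) nil nil))))) nil))))) (node
  (nat_lit 0) (nat_lit 90549) (nat_lit 4) (node (nat_lit 5) (nat_lit 96779) (nat_lit 5) (node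
  (nat_lit 4) (nat_lit 99777) (nat_lit 6) nil nil) (node (nat_lit 6) (nat_lit 95772) (nat_lit 5)
  nil (node (nat_lit 4) (nat_lit 97163) (nat_lit 5) nil (node (nat_lit 3) (nat_lit 95856) (nat_lit
  5) nil (node (nat_lit 1) (nat_lit 98696) (nat_lit 5) nil nil))))) (node (nat_lit 1) (nat_lit 0)
  (nat_lit 4) (node (nat_lit 5) (nat_lit 96779) (nat_lit 5) (node (nat_lit 7) (nat_lit 102281)
  (nat_lit 6) nil (node (nat_lit 4) (nat_lit 99750) (nat_lit 6) (node (nat_lit 5) (nat_lit 101417)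
  (nat_lit 7) (node (nat_lit 6) (nat_lit 98954) (nat_lit 8) (node (nat_lit 7) (nat_lit 64344)
  (nat_lit 9) nil nil) nil) nil) nil)) (node (nat_lit 6) (nat_lit 96299) (nat_lit 5) (node
  (nat_lit 5) (nat_lit 100255) (nat_lit 6) (node (nat_lit 4) (nat_lit 96744) (nat_lit 7) (node
  (nat_lit 5) (nat_lit 93179) (nat_lit 8) nil nil) nil) nil) (node (nat_lit 3) (nat_lit 94900)
  (nat_lit 5) nil (node (nat_lit 4) (nat_lit 94245) (nat_lit 5) (node (nat_lit 5) (nat_lit 72480)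
  (nat_lit 6) (node (nat_lit 6) (nat_lit 50175) (nat_lit 7) nil (node (nat_lit 7) (nat_lit 74146)
  (nat_lit 7) nil nil)) nil) (node (nat_lit 0) (nat_lit 97667) (nat_lit 5) nil nil))))) (node
  (nat_lit 3) (nat_lit 0) (nat_lit 4) (node (nat_lit 5) (nat_lit 83622) (nat_lit 5) (node (nat_lit
  7) (nat_lit 86901) (nat_lit 6) (node (nat_lit 4) (nat_lit 95553) (nat_lit 7) nil nil) (node
  (nat_lit 1) (nat_lit 95181) (nat_lit 6) nil (node (nat_lit 4) (nat_lit 90557) (nat_lit 6) (node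
  (nat_lit 5) (nat_lit 85956) (nat_lit 7) (node (nat_lit 6) (nat_lit 71441) (nat_lit 8) (node
  (nat_lit 7) (nat_lit 59925) (nat_lit 9) nil nil) nil) nil) (node (nat_lit 6) (nat_lit 86895)
  (nat_lit 6) (node (nat_lit 5) (nat_lit 89197) (nat_lit 7) nil nil) nil)))) (node (nat_lit 6)
  (nat_lit 83616) (nat_lit 5) (node (nat_lit 5) (nat_lit 86889) (nat_lit 6) (node (nat_lit 7)
  (nat_lit 89192) (nat_lit 7) nil (node (nat_lit 4) (nat_lit 92547) (nat_lit 7) (node (nat_lit 5)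
  (nat_lit 88624) (nat_lit 8) nil nil) nil)) (node (nat_lit 4) (nat_lit 94589) (nat_lit 6) nil
  (node (nat_lit 1) (nat_lit 93568) (nat_lit 6) nil (node (nat_lit 0) (nat_lit 95556) (nat_lit 6)
  nil nil)))) (node (nat_lit 1) (nat_lit 93521) (nat_lit 5) (node (nat_lit 5) (nat_lit 96476)
  (nat_lit 6) nil nil) (node (nat_lit 4) (nat_lit 86351) (nat_lit 5) (node (nat_lit 5) (nat_lit
  79837) (nat_lit 6) (node (nat_lit 6) (nat_lit 74280) (nat_lit 7) nil nil) (node (nat_lit 6)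
  (nat_lit 89041) (nat_lit 6) (node (nat_lit 4) (nat_lit 90953) (nat_lit 7) (node (nat_lit 7)
  (nat_lit 92233) (nat_lit 8) nil nil) nil) (node (nat_lit 7) (nat_lit 89041) (nat_lit 6) (node
  (nat_lit 6) (nat_lit 90953) (nat_lit 7) nil nil) (node (nat_lit 1) (nat_lit 89041) (nat_lit 6)
  nil (node (nat_lit 0) (nat_lit 89041) (nat_lit 6) nil nil))))) (node (nat_lit 0) (nat_lit 93521)
  (nat_lit 5) nil nil))))) nil))))) nil)))

noncomputable def t144 : Tr :=
  (node (nat_lit 1) (nat_lit 0) (nat_lit 3) (node (nat_lit 4) (nat_lit 0) (nat_lit 4) (node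
  (nat_lit 5) (nat_lit 0) (nat_lit 5) (node (nat_lit 4) (nat_lit 52522) (nat_lit 6) (node (nat_lit
  6) (nat_lit 56170) (nat_lit 7) (node (nat_lit 4) (nat_lit 57112) (nat_lit 8) (node (nat_lit 5)
  (nat_lit 57112) (nat_lit 9) (node (nat_lit 6) (nat_lit 57112) (nat_lit 10) (node (nat_lit 5)
  (nat_lit 57112) (nat_lit 11) (node (nat_lit 4) (nat_lit 57112) (nat_lit 12) (node (nat_lit 5)
  (nat_lit 57112) (nat_lit 13) (node (nat_lit 6) (nat_lit 57112) (nat_lit 14) (node (nat_lit 4)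
  (nat_lit 57112) (nat_lit 15) (node (nat_lit 5) (nat_lit 57112) (nat_lit 16) (node (nat_lit 4)
  (nat_lit 57112) (nat_lit 17) (node (nat_lit 6) (nat_lit 57112) (nat_lit 18) (node (nat_lit 4)
  (nat_lit 57112) (nat_lit 19) (node (nat_lit 5) (nat_lit 57112) (nat_lit 20) (node (nat_lit 6)
  (nat_lit 20247) (nat_lit 21) nil nil) nil) nil) nil) nil) nil) nil) nil) nil) nil) (node
  (nat_lit 4) (nat_lit 57112) (nat_lit 11) nil nil)) nil) (node (nat_lit 0) (nat_lit 57112)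
  (nat_lit 9) nil (node (nat_lit 3) (nat_lit 57112) (nat_lit 9) (node (nat_lit 6) (nat_lit 57112)
  (nat_lit 10) nil (node (nat_lit 4) (nat_lit 57112) (nat_lit 10) (node (nat_lit 5) (nat_lit
  55352) (nat_lit 11) (node (nat_lit 6) (nat_lit 54367) (nat_lit 12) (node (nat_lit 4) (nat_lit
  51191) (nat_lit 13) nil nil) nil) nil) (node (nat_lit 5) (nat_lit 57112) (nat_lit 10) nil nil)))
  (node (nat_lit 2) (nat_lit 56825) (nat_lit 9) nil nil)))) (node (nat_lit 5) (nat_lit 57112)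
  (nat_lit 8) (node (nat_lit 4) (nat_lit 57112) (nat_lit 9) (node (nat_lit 5) (nat_lit 57112)
  (nat_lit 10) (node (nat_lit 6) (nat_lit 57112) (nat_lit 11) (node (nat_lit 4) (nat_lit 57112)
  (nat_lit 12) (node (nat_lit 5) (nat_lit 57112) (nat_lit 13) (node (nat_lit 4) (nat_lit 57112)
  (nat_lit 14) (node (nat_lit 6) (nat_lit 20247) (nat_lit 15) nil nil) nil) nil) nil) nil) nil)
  nil) (node (nat_lit 3) (nat_lit 57112) (nat_lit 8) (node (nat_lit 5) (nat_lit 57112) (nat_lit 9)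
  nil (node (nat_lit 4) (nat_lit 57112) (nat_lit 9) (node (nat_lit 5) (nat_lit 57112) (nat_lit 10)
  (node (nat_lit 6) (nat_lit 57112) (nat_lit 11) (node (nat_lit 4) (nat_lit 57112) (nat_lit 12)
  nil nil) nil) nil) nil)) (node (nat_lit 0) (nat_lit 57112) (nat_lit 8) nil (node (nat_lit 2)
  (nat_lit 57112) (nat_lit 8) nil nil))))) (node (nat_lit 3) (nat_lit 55091) (nat_lit 7) (node
  (nat_lit 5) (nat_lit 56576) (nat_lit 8) (node (nat_lit 4) (nat_lit 57024) (nat_lit 9) nil nil)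
  (node (nat_lit 6) (nat_lit 56801) (nat_lit 8) nil (node (nat_lit 4) (nat_lit 54417) (nat_lit 8)
  (node (nat_lit 5) (nat_lit 48530) (nat_lit 9) (node (nat_lit 6) (nat_lit 43164) (nat_lit 10)
  (node (nat_lit 4) (nat_lit 27931) (nat_lit 11) (node (nat_lit 5) (nat_lit 28115) (nat_lit 12)
  nil nil) nil) nil) nil) nil))) (node (nat_lit 0) (nat_lit 56497) (nat_lit 7) nil (node (nat_lit
  2) (nat_lit 55652) (nat_lit 7) (node (nat_lit 5) (nat_lit 57024) (nat_lit 8) nil (node (nat_lit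
  6) (nat_lit 56936) (nat_lit 8) nil (node (nat_lit 3) (nat_lit 52563) (nat_lit 8) (node (nat_lit
  4) (nat_lit 51865) (nat_lit 9) (node (nat_lit 5) (nat_lit 50650) (nat_lit 10) nil nil) (node
  (nat_lit 5) (nat_lit 52548) (nat_lit 9) nil nil)) nil))) nil)))) (node (nat_lit 3) (nat_lit
  53458) (nat_lit 6) (node (nat_lit 4) (nat_lit 56330) (nat_lit 7) (node (nat_lit 5) (nat_lit
  56818) (nat_lit 8) (node (nat_lit 6) (nat_lit 56888) (nat_lit 9) (node (nat_lit 4) (nat_lit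
  56888) (nat_lit 10) nil nil) nil) nil) (node (nat_lit 5) (nat_lit 55383) (nat_lit 7) (node
  (nat_lit 4) (nat_lit 55911) (nat_lit 8) (node (nat_lit 5) (nat_lit 54071) (nat_lit 9) nil nil)
  nil) (node (nat_lit 6) (nat_lit 56802) (nat_lit 7) (node (nat_lit 5) (nat_lit 57052) (nat_lit 8)
  nil (node (nat_lit 9) (nat_lit 56574) (nat_lit 8) (node (nat_lit 4) (nat_lit 56884) (nat_lit 9)
  (node (nat_lit 5) (nat_lit 57112) (nat_lit 10) nil nil) nil) nil)) (node (nat_lit 0) (nat_lit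
  56536) (nat_lit 7) nil (node (nat_lit 2) (nat_lit 52865) (nat_lit 7) nil nil))))) (node (nat_lit
  0) (nat_lit 54313) (nat_lit 6) (node (nat_lit 5) (nat_lit 56222) (nat_lit 7) nil (node (nat_lit
  3) (nat_lit 54171) (nat_lit 7) (node (nat_lit 4) (nat_lit 55655) (nat_lit 8) nil nil) nil))
  (node (nat_lit 2) (nat_lit 52824) (nat_lit 6) (node (nat_lit 4) (nat_lit 53527) (nat_lit 7) nil
  (node (nat_lit 5) (nat_lit 54748) (nat_lit 7) (node (nat_lit 4) (nat_lit 54934) (nat_lit 8)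
  (node (nat_lit 5) (nat_lit 52497) (nat_lit 9) (node (nat_lit 6) (nat_lit 39868) (nat_lit 10) nil
  nil) nil) nil) (node (nat_lit 6) (nat_lit 56167) (nat_lit 7) nil (node (nat_lit 3) (nat_lit
  53072) (nat_lit 7) (node (nat_lit 5) (nat_lit 51542) (nat_lit 8) nil (node (nat_lit 4) (nat_lit
  49963) (nat_lit 8) (node (nat_lit 5) (nat_lit 41434) (nat_lit 9) (node (nat_lit 6) (nat_lit
  27733) (nat_lit 10) nil nil) nil) nil)) nil)))) nil)))) (node (nat_lit 6) (nat_lit 96013)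
  (nat_lit 5) (node (nat_lit 5) (nat_lit 99224) (nat_lit 6) (node (nat_lit 4) (nat_lit 102162)
  (nat_lit 7) (node (nat_lit 5) (nat_lit 102364) (nat_lit 8) (node (nat_lit 6) (nat_lit 102416)
  (nat_lit 9) (node (nat_lit 4) (nat_lit 102416) (nat_lit 10) (node (nat_lit 6) (nat_lit 65118)
  (nat_lit 11) nil nil) nil) nil) nil) nil) (node (nat_lit 3) (nat_lit 99560) (nat_lit 6) (node
  (nat_lit 4) (nat_lit 100189) (nat_lit 7) (node (nat_lit 6) (nat_lit 101075) (nat_lit 8) (node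
  (nat_lit 4) (nat_lit 99275) (nat_lit 9) (node (nat_lit 5) (nat_lit 98304) (nat_lit 10) (node
  (nat_lit 6) (nat_lit 95171) (nat_lit 11) (node (nat_lit 4) (nat_lit 89273) (nat_lit 12) (node
  (nat_lit 6) (nat_lit 82767) (nat_lit 13) nil nil) nil) nil) nil) nil) nil) nil) nil)) (node
  (nat_lit 3) (nat_lit 96394) (nat_lit 5) (node (nat_lit 6) (nat_lit 98068) (nat_lit 6) (node
  (nat_lit 5) (nat_lit 98188) (nat_lit 7) nil nil) (node (nat_lit 5) (nat_lit 97489) (nat_lit 6)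
  nil (node (nat_lit 4) (nat_lit 95407) (nat_lit 6) (node (nat_lit 5) (nat_lit 91741) (nat_lit 7)
  (node (nat_lit 6) (nat_lit 75378) (nat_lit 8) (node (nat_lit 4) (nat_lit 71749) (nat_lit 9) nil
  nil) nil) nil) nil))) (node (nat_lit 0) (nat_lit 98269) (nat_lit 5) nil (node (nat_lit 2)
  (nat_lit 96159) (nat_lit 5) nil nil))))) (node (nat_lit 3) (nat_lit 0) (nat_lit 4) (node
  (nat_lit 5) (nat_lit 94914) (nat_lit 5) (node (nat_lit 7) (nat_lit 97853) (nat_lit 6) (node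
  (nat_lit 6) (nat_lit 99386) (nat_lit 7) nil (node (nat_lit 4) (nat_lit 99097) (nat_lit 7) (node
  (nat_lit 5) (nat_lit 99468) (nat_lit 8) (node (nat_lit 6) (nat_lit 99521) (nat_lit 9) (node
  (nat_lit 7) (nat_lit 99521) (nat_lit 10) (node (nat_lit 5) (nat_lit 68929) (nat_lit 11) nil nil)
  nil) nil) nil) nil)) (node (nat_lit 4) (nat_lit 97880) (nat_lit 6) (node (nat_lit 7) (nat_lit
  97155) (nat_lit 7) nil (node (nat_lit 5) (nat_lit 88016) (nat_lit 7) (node (nat_lit 7) (nat_lit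
  87519) (nat_lit 8) (node (nat_lit 6) (nat_lit 87811) (nat_lit 9) nil nil) (node (nat_lit 6)
  (nat_lit 73945) (nat_lit 8) (node (nat_lit 7) (nat_lit 62974) (nat_lit 9) nil nil) nil)) nil))
  (node (nat_lit 6) (nat_lit 99266) (nat_lit 6) (node (nat_lit 5) (nat_lit 99386) (nat_lit 7) nil
  nil) nil))) (node (nat_lit 4) (nat_lit 96128) (nat_lit 5) (node (nat_lit 5) (nat_lit 97425)
  (nat_lit 6) (node (nat_lit 6) (nat_lit 71443) (nat_lit 7) nil nil) (node (nat_lit 7) (nat_lit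
  96128) (nat_lit 6) (node (nat_lit 6) (nat_lit 97545) (nat_lit 7) nil nil) (node (nat_lit 6)
  (nat_lit 97425) (nat_lit 6) (node (nat_lit 4) (nat_lit 96075) (nat_lit 7) (node (nat_lit 7)
  (nat_lit 94717) (nat_lit 8) nil nil) nil) nil))) (node (nat_lit 6) (nat_lit 98127) (nat_lit 5)
  (node (nat_lit 5) (nat_lit 98942) (nat_lit 6) nil (node (nat_lit 4) (nat_lit 98773) (nat_lit 6)
  (node (nat_lit 5) (nat_lit 97436) (nat_lit 7) (node (nat_lit 6) (nat_lit 76837) (nat_lit 8)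
  (node (nat_lit 7) (nat_lit 53828) (nat_lit 9) nil nil) nil) nil) nil)) (node (nat_lit 0)
  (nat_lit 97116) (nat_lit 5) (node (nat_lit 6) (nat_lit 97425) (nat_lit 6) nil nil) (node
  (nat_lit 2) (nat_lit 93111) (nat_lit 5) (node (nat_lit 5) (nat_lit 96632) (nat_lit 6) nil (node
  (nat_lit 6) (nat_lit 94262) (nat_lit 6) (node (nat_lit 7) (nat_lit 92351) (nat_lit 7) nil nil)
  (node (nat_lit 7) (nat_lit 92950) (nat_lit 6) nil nil))) nil))))) (node (nat_lit 5) (nat_lit 0)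
  (nat_lit 4) (node (nat_lit 4) (nat_lit 94568) (nat_lit 5) (node (nat_lit 5) (nat_lit 97485)
  (nat_lit 6) (node (nat_lit 6) (nat_lit 65674) (nat_lit 7) (node (nat_lit 4) (nat_lit 65674)
  (nat_lit 8) (node (nat_lit 6) (nat_lit 66055) (nat_lit 9) (node (nat_lit 5) (nat_lit 66055)
  (nat_lit 10) (node (nat_lit 4) (nat_lit 66055) (nat_lit 11) (node (nat_lit 6) (nat_lit 66055)
  (nat_lit 12) (node (nat_lit 4) (nat_lit 66055) (nat_lit 13) (node (nat_lit 5) (nat_lit 66055)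
  (nat_lit 14) (node (nat_lit 6) (nat_lit 66055) (nat_lit 15) (node (nat_lit 5) (nat_lit 66055)
  (nat_lit 16) (node (nat_lit 4) (nat_lit 66055) (nat_lit 17) (node (nat_lit 5) (nat_lit 66055)
  (nat_lit 18) (node (nat_lit 6) (nat_lit 64109) (nat_lit 19) (node (nat_lit 4) (nat_lit 58485)
  (nat_lit 20) (node (nat_lit 6) (nat_lit 51680) (nat_lit 21) (node (nat_lit 5) (nat_lit 38697)
  (nat_lit 22) (node (nat_lit 4) (nat_lit 20247) (nat_lit 23) nil nil) nil) nil) nil) nil) nil)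
  nil) nil) nil) nil) nil) nil) nil) nil) nil) nil) nil) (node (nat_lit 6) (nat_lit 99793)
  (nat_lit 6) nil (node (nat_lit 3) (nat_lit 98035) (nat_lit 6) nil nil))) (node (nat_lit 3)
  (nat_lit 95105) (nat_lit 5) (node (nat_lit 4) (nat_lit 99130) (nat_lit 6) nil nil) (node
  (nat_lit 0) (nat_lit 97576) (nat_lit 5) nil (node (nat_lit 2) (nat_lit 94034) (nat_lit 5) nil
  nil)))) (node (nat_lit 0) (nat_lit 0) (nat_lit 4) (node (nat_lit 5) (nat_lit 96901) (nat_lit 5)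
  (node (nat_lit 6) (nat_lit 99997) (nat_lit 6) (node (nat_lit 5) (nat_lit 100156) (nat_lit 7) nil
  nil) (node (nat_lit 4) (nat_lit 99776) (nat_lit 6) (node (nat_lit 5) (nat_lit 100156) (nat_lit
  7) (node (nat_lit 6) (nat_lit 100264) (nat_lit 8) nil nil) nil) nil)) (node (nat_lit 6) (nat_lit
  98691) (nat_lit 5) (node (nat_lit 4) (nat_lit 97578) (nat_lit 6) (node (nat_lit 5) (nat_lit
  99079) (nat_lit 7) (node (nat_lit 6) (nat_lit 100066) (nat_lit 8) nil nil) nil) nil) (node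
  (nat_lit 4) (nat_lit 97835) (nat_lit 5) (node (nat_lit 6) (nat_lit 99538) (nat_lit 6) nil nil)
  (node (nat_lit 3) (nat_lit 96913) (nat_lit 5) (node (nat_lit 6) (nat_lit 97717) (nat_lit 6)
  (node (nat_lit 8) (nat_lit 98438) (nat_lit 7) nil nil) (node (nat_lit 4) (nat_lit 98937)
  (nat_lit 6) nil nil)) (node (nat_lit 0) (nat_lit 97519) (nat_lit 5) nil (node (nat_lit 2)
  (nat_lit 97029) (nat_lit 5) (node (nat_lit 6) (nat_lit 94231) (nat_lit 6) nil (node (nat_lit 5)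
  (nat_lit 95170) (nat_lit 6) nil nil)) nil)))))) (node (nat_lit 2) (nat_lit 0) (nat_lit 4) (node
  (nat_lit 5) (nat_lit 93731) (nat_lit 5) (node (nat_lit 6) (nat_lit 98446) (nat_lit 6) nil (node
  (nat_lit 4) (nat_lit 97312) (nat_lit 6) (node (nat_lit 5) (nat_lit 87262) (nat_lit 7) (node
  (nat_lit 6) (nat_lit 72671) (nat_lit 8) (node (nat_lit 7) (nat_lit 61670) (nat_lit 9) nil nil)
  nil) nil) nil)) (node (nat_lit 6) (nat_lit 97372) (nat_lit 5) (node (nat_lit 4) (nat_lit 97372)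
  (nat_lit 6) (node (nat_lit 5) (nat_lit 94261) (nat_lit 7) (node (nat_lit 6) (nat_lit 73661)
  (nat_lit 8) (node (nat_lit 7) (nat_lit 52427) (nat_lit 9) nil nil) nil) nil) nil) (node (nat_lit
  4) (nat_lit 95773) (nat_lit 5) (node (nat_lit 6) (nat_lit 97160) (nat_lit 6) (node (nat_lit 4)
  (nat_lit 96064) (nat_lit 7) (node (nat_lit 5) (nat_lit 86013) (nat_lit 8) (node (nat_lit 6)
  (nat_lit 79215) (nat_lit 9) (node (nat_lit 7) (nat_lit 60281) (nat_lit 10) (node (nat_lit 4)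
  (nat_lit 51345) (nat_lit 11) nil nil) nil) nil) nil) nil) (node (nat_lit 7) (nat_lit 95773)
  (nat_lit 6) nil (node (nat_lit 3) (nat_lit 93616) (nat_lit 6) nil nil))) (node (nat_lit 3)
  (nat_lit 94028) (nat_lit 5) (node (nat_lit 6) (nat_lit 97008) (nat_lit 6) (node (nat_lit 5)
  (nat_lit 97167) (nat_lit 7) nil nil) (node (nat_lit 7) (nat_lit 95621) (nat_lit 6) (node
  (nat_lit 5) (nat_lit 97167) (nat_lit 7) nil nil) (node (nat_lit 5) (nat_lit 96103) (nat_lit 6)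
  nil (node (nat_lit 4) (nat_lit 88230) (nat_lit 6) (node (nat_lit 5) (nat_lit 76827) (nat_lit 7)
  (node (nat_lit 6) (nat_lit 70678) (nat_lit 8) nil nil) nil) nil)))) (node (nat_lit 0) (nat_lit
  96787) (nat_lit 5) (node (nat_lit 6) (nat_lit 97008) (nat_lit 6) nil nil) nil))))) nil)))))
  (node (nat_lit 3) (nat_lit 0) (nat_lit 3) (node (nat_lit 4) (nat_lit 0) (nat_lit 4) (node
  (nat_lit 5) (nat_lit 66844) (nat_lit 5) (node (nat_lit 1) (nat_lit 73043) (nat_lit 6) nil nil)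
  (node (nat_lit 6) (nat_lit 0) (nat_lit 5) (node (nat_lit 5) (nat_lit 89510) (nat_lit 6) (node
  (nat_lit 4) (nat_lit 97042) (nat_lit 7) (node (nat_lit 5) (nat_lit 99620) (nat_lit 8) (node
  (nat_lit 6) (nat_lit 96763) (nat_lit 9) (node (nat_lit 4) (nat_lit 78816) (nat_lit 10) (node
  (nat_lit 6) (nat_lit 67323) (nat_lit 11) nil nil) nil) nil) nil) nil) (node (nat_lit 1) (nat_lit
  97649) (nat_lit 6) nil (node (nat_lit 0) (nat_lit 101526) (nat_lit 6) nil (node (nat_lit 2)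
  (nat_lit 95469) (nat_lit 6) nil nil)))) (node (nat_lit 1) (nat_lit 98897) (nat_lit 5) nil (node
  (nat_lit 0) (nat_lit 100055) (nat_lit 5) nil (node (nat_lit 2) (nat_lit 93666) (nat_lit 5) nil
  nil))))) (node (nat_lit 1) (nat_lit 0) (nat_lit 4) (node (nat_lit 5) (nat_lit 99183) (nat_lit 5)
  (node (nat_lit 7) (nat_lit 103751) (nat_lit 6) nil (node (nat_lit 4) (nat_lit 99957) (nat_lit 6)
  (node (nat_lit 5) (nat_lit 101578) (nat_lit 7) (node (nat_lit 6) (nat_lit 100864) (nat_lit 8)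
  (node (nat_lit 7) (nat_lit 65857) (nat_lit 9) nil nil) nil) nil) (node (nat_lit 6) (nat_lit
  101890) (nat_lit 6) nil nil))) (node (nat_lit 4) (nat_lit 96639) (nat_lit 5) (node (nat_lit 5)
  (nat_lit 73665) (nat_lit 6) (node (nat_lit 6) (nat_lit 54594) (nat_lit 7) nil nil) (node
  (nat_lit 7) (nat_lit 97486) (nat_lit 6) nil (node (nat_lit 6) (nat_lit 98007) (nat_lit 6) (node
  (nat_lit 4) (nat_lit 90918) (nat_lit 7) nil nil) nil))) (node (nat_lit 6) (nat_lit 98877)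
  (nat_lit 5) (node (nat_lit 5) (nat_lit 101862) (nat_lit 6) (node (nat_lit 7) (nat_lit 103069)
  (nat_lit 7) nil nil) (node (nat_lit 4) (nat_lit 102088) (nat_lit 6) (node (nat_lit 5) (nat_lit
  103069) (nat_lit 7) (node (nat_lit 6) (nat_lit 103069) (nat_lit 8) nil nil) nil) nil)) (node
  (nat_lit 0) (nat_lit 99262) (nat_lit 5) nil (node (nat_lit 2) (nat_lit 95545) (nat_lit 5) nil
  nil))))) (node (nat_lit 5) (nat_lit 0) (nat_lit 4) (node (nat_lit 4) (nat_lit 0) (nat_lit 5)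
  (node (nat_lit 5) (nat_lit 71383) (nat_lit 6) (node (nat_lit 6) (nat_lit 66543) (nat_lit 7)
  (node (nat_lit 4) (nat_lit 66865) (nat_lit 8) (node (nat_lit 6) (nat_lit 66863) (nat_lit 9)
  (node (nat_lit 5) (nat_lit 68152) (nat_lit 10) (node (nat_lit 4) (nat_lit 68152) (nat_lit 11)
  (node (nat_lit 6) (nat_lit 68152) (nat_lit 12) (node (nat_lit 4) (nat_lit 68079) (nat_lit 13)
  (node (nat_lit 5) (nat_lit 68224) (nat_lit 14) (node (nat_lit 6) (nat_lit 68000) (nat_lit 15)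
  (node (nat_lit 5) (nat_lit 68080) (nat_lit 16) (node (nat_lit 4) (nat_lit 67943) (nat_lit 17)
  (node (nat_lit 5) (nat_lit 67603) (nat_lit 18) (node (nat_lit 6) (nat_lit 63962) (nat_lit 19)
  (node (nat_lit 4) (nat_lit 58338) (nat_lit 20) (node (nat_lit 6) (nat_lit 52442) (nat_lit 21)
  (node (nat_lit 5) (nat_lit 45029) (nat_lit 22) (node (nat_lit 4) (nat_lit 38527) (nat_lit 23)
  nil nil) nil) nil) nil) nil) nil) nil) nil) nil) nil) nil) nil) nil) nil) nil) (node (nat_lit 1)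
  (nat_lit 67898) (nat_lit 8) nil nil)) (node (nat_lit 1) (nat_lit 78816) (nat_lit 7) nil (node
  (nat_lit 0) (nat_lit 78816) (nat_lit 7) nil (node (nat_lit 2) (nat_lit 78816) (nat_lit 7) nil
  nil)))) (node (nat_lit 6) (nat_lit 87653) (nat_lit 6) (node (nat_lit 4) (nat_lit 93228) (nat_lit
  7) (node (nat_lit 5) (nat_lit 95492) (nat_lit 8) (node (nat_lit 6) (nat_lit 85567) (nat_lit 9)
  (node (nat_lit 5) (nat_lit 81353) (nat_lit 10) (node (nat_lit 4) (nat_lit 68562) (nat_lit 11)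
  nil nil) nil) nil) nil) nil) (node (nat_lit 1) (nat_lit 96533) (nat_lit 6) nil (node (nat_lit 0)
  (nat_lit 96533) (nat_lit 6) nil (node (nat_lit 2) (nat_lit 94582) (nat_lit 6) nil nil))))) (node
  (nat_lit 1) (nat_lit 98693) (nat_lit 5) (node (nat_lit 4) (nat_lit 101731) (nat_lit 6) nil nil)
  (node (nat_lit 0) (nat_lit 98693) (nat_lit 5) nil (node (nat_lit 2) (nat_lit 89092) (nat_lit 5)
  nil nil)))) (node (nat_lit 0) (nat_lit 92118) (nat_lit 4) (node (nat_lit 5) (nat_lit 99183)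
  (nat_lit 5) nil (node (nat_lit 6) (nat_lit 98535) (nat_lit 5) nil (node (nat_lit 4) (nat_lit
  99891) (nat_lit 5) nil (node (nat_lit 1) (nat_lit 101437) (nat_lit 5) nil nil)))) (node (nat_lit
  2) (nat_lit 0) (nat_lit 4) (node (nat_lit 5) (nat_lit 88443) (nat_lit 5) (node (nat_lit 6)
  (nat_lit 93245) (nat_lit 6) nil (node (nat_lit 1) (nat_lit 101625) (nat_lit 6) nil (node
  (nat_lit 4) (nat_lit 95931) (nat_lit 6) nil nil))) (node (nat_lit 6) (nat_lit 88009) (nat_lit 5)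
  (node (nat_lit 5) (nat_lit 91828) (nat_lit 6) nil (node (nat_lit 4) (nat_lit 94508) (nat_lit 6)
  (node (nat_lit 5) (nat_lit 90138) (nat_lit 7) nil nil) (node (nat_lit 1) (nat_lit 93352)
  (nat_lit 6) nil nil))) (node (nat_lit 4) (nat_lit 93895) (nat_lit 5) nil (node (nat_lit 1)
  (nat_lit 95630) (nat_lit 5) nil (node (nat_lit 0) (nat_lit 99358) (nat_lit 5) nil nil)))))
  nil))))) t143))

noncomputable def t145 : Tr :=
  (node (nat_lit 1) (nat_lit 0) (nat_lit 3) (node (nat_lit 4) (nat_lit 0) (nat_lit 4) (node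
  (nat_lit 5) (nat_lit 0) (nat_lit 5) (node (nat_lit 4) (nat_lit 48344) (nat_lit 6) (node (nat_lit
  6) (nat_lit 50625) (nat_lit 7) (node (nat_lit 4) (nat_lit 52100) (nat_lit 8) (node (nat_lit 5)
  (nat_lit 53193) (nat_lit 9) (node (nat_lit 6) (nat_lit 54002) (nat_lit 10) (node (nat_lit 5)
  (nat_lit 53749) (nat_lit 11) (node (nat_lit 4) (nat_lit 53563) (nat_lit 12) (node (nat_lit 5)
  (nat_lit 53429) (nat_lit 13) (node (nat_lit 6) (nat_lit 53767) (nat_lit 14) (node (nat_lit 4)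
  (nat_lit 53693) (nat_lit 15) (node (nat_lit 5) (nat_lit 53636) (nat_lit 16) (node (nat_lit 4)
  (nat_lit 53590) (nat_lit 17) (node (nat_lit 6) (nat_lit 53710) (nat_lit 18) (node (nat_lit 4)
  (nat_lit 53682) (nat_lit 19) (node (nat_lit 5) (nat_lit 53660) (nat_lit 20) (node (nat_lit 6)
  (nat_lit 32524) (nat_lit 21) nil nil) nil) nil) nil) nil) nil) nil) nil) nil) nil) nil) nil)
  nil) (node (nat_lit 5) (nat_lit 50320) (nat_lit 8) (node (nat_lit 4) (nat_lit 50025) (nat_lit 9)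
  (node (nat_lit 5) (nat_lit 49715) (nat_lit 10) (node (nat_lit 6) (nat_lit 50375) (nat_lit 11)
  (node (nat_lit 4) (nat_lit 50188) (nat_lit 12) (node (nat_lit 5) (nat_lit 50055) (nat_lit 13)
  (node (nat_lit 4) (nat_lit 49958) (nat_lit 14) nil nil) nil) nil) nil) nil) nil) nil)) (node
  (nat_lit 1) (nat_lit 51819) (nat_lit 7) nil nil)) (node (nat_lit 1) (nat_lit 48525) (nat_lit 6)
  (node (nat_lit 4) (nat_lit 49527) (nat_lit 7) (node (nat_lit 5) (nat_lit 45941) (nat_lit 8)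
  (node (nat_lit 6) (nat_lit 31806) (nat_lit 9) nil nil) nil) (node (nat_lit 5) (nat_lit 50434)
  (nat_lit 7) nil (node (nat_lit 6) (nat_lit 50434) (nat_lit 7) nil nil))) (node (nat_lit 0)
  (nat_lit 49910) (nat_lit 6) nil (node (nat_lit 2) (nat_lit 44196) (nat_lit 6) (node (nat_lit 5)
  (nat_lit 39308) (nat_lit 7) nil (node (nat_lit 1) (nat_lit 44870) (nat_lit 7) nil nil)) nil))))
  (node (nat_lit 6) (nat_lit 0) (nat_lit 5) (node (nat_lit 5) (nat_lit 66010) (nat_lit 6) (node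
  (nat_lit 4) (nat_lit 72614) (nat_lit 7) (node (nat_lit 5) (nat_lit 77342) (nat_lit 8) (node
  (nat_lit 6) (nat_lit 79701) (nat_lit 9) (node (nat_lit 4) (nat_lit 80873) (nat_lit 10) (node
  (nat_lit 6) (nat_lit 63395) (nat_lit 11) nil nil) nil) nil) (node (nat_lit 6) (nat_lit 76668)
  (nat_lit 8) (node (nat_lit 4) (nat_lit 78601) (nat_lit 9) (node (nat_lit 5) (nat_lit 80273)
  (nat_lit 10) (node (nat_lit 6) (nat_lit 81187) (nat_lit 11) (node (nat_lit 4) (nat_lit 76607)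
  (nat_lit 12) (node (nat_lit 6) (nat_lit 70482) (nat_lit 13) (node (nat_lit 5) (nat_lit 61552)
  (nat_lit 14) (node (nat_lit 4) (nat_lit 51193) (nat_lit 15) nil nil) nil) nil) nil) nil) nil)
  nil) (node (nat_lit 1) (nat_lit 82070) (nat_lit 8) nil nil))) (node (nat_lit 6) (nat_lit 72601)
  (nat_lit 7) nil (node (nat_lit 1) (nat_lit 79936) (nat_lit 7) nil (node (nat_lit 0) (nat_lit
  79936) (nat_lit 7) nil (node (nat_lit 2) (nat_lit 79635) (nat_lit 7) nil nil))))) (node (nat_lit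
  1) (nat_lit 75978) (nat_lit 6) (node (nat_lit 4) (nat_lit 78923) (nat_lit 7) (node (nat_lit 5)
  (nat_lit 81439) (nat_lit 8) (node (nat_lit 6) (nat_lit 82189) (nat_lit 9) (node (nat_lit 4)
  (nat_lit 82692) (nat_lit 10) (node (nat_lit 6) (nat_lit 37337) (nat_lit 11) nil nil) nil) nil)
  nil) (node (nat_lit 6) (nat_lit 78974) (nat_lit 7) nil (node (nat_lit 5) (nat_lit 78813)
  (nat_lit 7) (node (nat_lit 4) (nat_lit 80264) (nat_lit 8) nil (node (nat_lit 6) (nat_lit 80264)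
  (nat_lit 8) nil nil)) nil))) (node (nat_lit 0) (nat_lit 75978) (nat_lit 6) nil (node (nat_lit 2)
  (nat_lit 68184) (nat_lit 6) (node (nat_lit 4) (nat_lit 71111) (nat_lit 7) nil (node (nat_lit 5)
  (nat_lit 78735) (nat_lit 7) nil (node (nat_lit 6) (nat_lit 71111) (nat_lit 7) nil (node (nat_lit
  1) (nat_lit 78298) (nat_lit 7) nil nil)))) nil)))) (node (nat_lit 1) (nat_lit 74857) (nat_lit 5)
  (node (nat_lit 6) (nat_lit 78002) (nat_lit 6) (node (nat_lit 5) (nat_lit 80334) (nat_lit 7)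
  (node (nat_lit 8) (nat_lit 81292) (nat_lit 8) nil (node (nat_lit 4) (nat_lit 81292) (nat_lit 8)
  (node (nat_lit 5) (nat_lit 81954) (nat_lit 9) (node (nat_lit 6) (nat_lit 82458) (nat_lit 10)
  (node (nat_lit 4) (nat_lit 82901) (nat_lit 11) nil nil) nil) nil) nil)) (node (nat_lit 8)
  (nat_lit 80144) (nat_lit 7) (node (nat_lit 4) (nat_lit 81102) (nat_lit 8) nil nil) (node
  (nat_lit 4) (nat_lit 79001) (nat_lit 7) (node (nat_lit 5) (nat_lit 79959) (nat_lit 8) nil nil)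
  nil))) (node (nat_lit 5) (nat_lit 78424) (nat_lit 6) (node (nat_lit 4) (nat_lit 79069) (nat_lit
  7) (node (nat_lit 5) (nat_lit 80027) (nat_lit 8) (node (nat_lit 6) (nat_lit 80690) (nat_lit 9)
  (node (nat_lit 4) (nat_lit 81193) (nat_lit 10) nil nil) nil) nil) nil) (node (nat_lit 4)
  (nat_lit 77853) (nat_lit 6) (node (nat_lit 5) (nat_lit 76252) (nat_lit 7) (node (nat_lit 6)
  (nat_lit 67734) (nat_lit 8) (node (nat_lit 4) (nat_lit 35995) (nat_lit 9) nil nil) nil) nil)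
  nil))) (node (nat_lit 0) (nat_lit 74857) (nat_lit 5) (node (nat_lit 6) (nat_lit 78002) (nat_lit
  6) nil (node (nat_lit 5) (nat_lit 78424) (nat_lit 6) nil (node (nat_lit 1) (nat_lit 78491)
  (nat_lit 6) nil nil))) (node (nat_lit 2) (nat_lit 67979) (nat_lit 5) (node (nat_lit 6) (nat_lit
  70763) (nat_lit 6) (node (nat_lit 5) (nat_lit 80013) (nat_lit 7) nil (node (nat_lit 8) (nat_lit
  72251) (nat_lit 7) (node (nat_lit 5) (nat_lit 78407) (nat_lit 8) nil nil) (node (nat_lit 4)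
  (nat_lit 72251) (nat_lit 7) (node (nat_lit 5) (nat_lit 71507) (nat_lit 8) (node (nat_lit 6)
  (nat_lit 63698) (nat_lit 9) (node (nat_lit 4) (nat_lit 52648) (nat_lit 10) nil nil) nil) nil)
  nil))) (node (nat_lit 5) (nat_lit 76508) (nat_lit 6) (node (nat_lit 4) (nat_lit 74163) (nat_lit
  7) (node (nat_lit 5) (nat_lit 70499) (nat_lit 8) (node (nat_lit 6) (nat_lit 63562) (nat_lit 9)
  (node (nat_lit 4) (nat_lit 63834) (nat_lit 10) nil nil) nil) nil) nil) (node (nat_lit 4)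
  (nat_lit 70734) (nat_lit 6) (node (nat_lit 6) (nat_lit 72224) (nat_lit 7) nil nil) (node
  (nat_lit 1) (nat_lit 77343) (nat_lit 6) nil (node (nat_lit 0) (nat_lit 77343) (nat_lit 6) nil
  nil))))) nil))))) (node (nat_lit 1) (nat_lit 0) (nat_lit 4) (node (nat_lit 5) (nat_lit 88281)
  (nat_lit 5) (node (nat_lit 7) (nat_lit 89448) (nat_lit 6) (node (nat_lit 6) (nat_lit 90949)
  (nat_lit 7) (node (nat_lit 5) (nat_lit 91936) (nat_lit 8) nil nil) (node (nat_lit 4) (nat_lit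
  90949) (nat_lit 7) (node (nat_lit 5) (nat_lit 90394) (nat_lit 8) (node (nat_lit 6) (nat_lit
  84979) (nat_lit 9) (node (nat_lit 7) (nat_lit 70573) (nat_lit 10) (node (nat_lit 5) (nat_lit
  51553) (nat_lit 11) nil nil) nil) nil) (node (nat_lit 6) (nat_lit 91936) (nat_lit 8) nil nil))
  nil)) (node (nat_lit 4) (nat_lit 89448) (nat_lit 6) (node (nat_lit 7) (nat_lit 90949) (nat_lit
  7) (node (nat_lit 6) (nat_lit 91936) (nat_lit 8) nil nil) (node (nat_lit 5) (nat_lit 88575)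
  (nat_lit 7) (node (nat_lit 6) (nat_lit 89563) (nat_lit 8) (node (nat_lit 7) (nat_lit 71887)
  (nat_lit 9) nil nil) nil) (node (nat_lit 6) (nat_lit 90949) (nat_lit 7) (node (nat_lit 4)
  (nat_lit 90157) (nat_lit 8) (node (nat_lit 5) (nat_lit 88632) (nat_lit 9) (node (nat_lit 6)
  (nat_lit 84412) (nat_lit 10) (node (nat_lit 7) (nat_lit 69832) (nat_lit 11) (node (nat_lit 5)
  (nat_lit 65685) (nat_lit 12) nil nil) nil) nil) nil) nil) nil))) (node (nat_lit 6) (nat_lit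
  90833) (nat_lit 6) (node (nat_lit 5) (nat_lit 92333) (nat_lit 7) nil (node (nat_lit 4) (nat_lit
  89971) (nat_lit 7) nil nil)) (node (nat_lit 0) (nat_lit 90357) (nat_lit 6) nil (node (nat_lit 2)
  (nat_lit 88308) (nat_lit 6) (node (nat_lit 7) (nat_lit 85306) (nat_lit 7) nil (node (nat_lit 5)
  (nat_lit 82932) (nat_lit 7) (node (nat_lit 6) (nat_lit 83920) (nat_lit 8) nil (node (nat_lit 7)
  (nat_lit 83105) (nat_lit 8) (node (nat_lit 6) (nat_lit 83788) (nat_lit 9) nil nil) nil)) (node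
  (nat_lit 6) (nat_lit 89808) (nat_lit 7) nil nil))) nil))))) (node (nat_lit 4) (nat_lit 88281)
  (nat_lit 5) (node (nat_lit 5) (nat_lit 90357) (nat_lit 6) (node (nat_lit 6) (nat_lit 51390)
  (nat_lit 7) (node (nat_lit 4) (nat_lit 51829) (nat_lit 8) nil (node (nat_lit 5) (nat_lit 51829)
  (nat_lit 8) nil nil)) nil) (node (nat_lit 7) (nat_lit 90833) (nat_lit 6) (node (nat_lit 6)
  (nat_lit 92333) (nat_lit 7) (node (nat_lit 4) (nat_lit 93321) (nat_lit 8) (node (nat_lit 6)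
  (nat_lit 94004) (nat_lit 9) nil nil) nil) (node (nat_lit 5) (nat_lit 92333) (nat_lit 7) nil
  nil)) (node (nat_lit 6) (nat_lit 90833) (nat_lit 6) (node (nat_lit 4) (nat_lit 89959) (nat_lit
  7) (node (nat_lit 7) (nat_lit 90132) (nat_lit 8) nil nil) (node (nat_lit 5) (nat_lit 89959)
  (nat_lit 7) nil (node (nat_lit 7) (nat_lit 92333) (nat_lit 7) nil nil))) (node (nat_lit 0)
  (nat_lit 90357) (nat_lit 6) nil (node (nat_lit 2) (nat_lit 84412) (nat_lit 6) nil nil))))) (node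
  (nat_lit 6) (nat_lit 88281) (nat_lit 5) (node (nat_lit 5) (nat_lit 90833) (nat_lit 6) (node
  (nat_lit 7) (nat_lit 91608) (nat_lit 7) (node (nat_lit 5) (nat_lit 92596) (nat_lit 8) (node
  (nat_lit 6) (nat_lit 93278) (nat_lit 9) (node (nat_lit 7) (nat_lit 93798) (nat_lit 10) nil nil)
  nil) nil) (node (nat_lit 6) (nat_lit 92646) (nat_lit 7) nil (node (nat_lit 4) (nat_lit 92333)
  (nat_lit 7) nil nil))) (node (nat_lit 4) (nat_lit 90833) (nat_lit 6) (node (nat_lit 7) (nat_lit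
  92646) (nat_lit 7) nil (node (nat_lit 5) (nat_lit 89959) (nat_lit 7) (node (nat_lit 6) (nat_lit
  90947) (nat_lit 8) (node (nat_lit 7) (nat_lit 51619) (nat_lit 9) nil nil) nil) (node (nat_lit 6)
  (nat_lit 92333) (nat_lit 7) nil nil))) (node (nat_lit 0) (nat_lit 90357) (nat_lit 6) nil (node
  (nat_lit 2) (nat_lit 84412) (nat_lit 6) (node (nat_lit 7) (nat_lit 84599) (nat_lit 7) nil nil)
  nil)))) (node (nat_lit 0) (nat_lit 88281) (nat_lit 5) (node (nat_lit 5) (nat_lit 89448) (nat_lit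
  6) nil (node (nat_lit 6) (nat_lit 90357) (nat_lit 6) nil (node (nat_lit 7) (nat_lit 89448)
  (nat_lit 6) nil nil))) (node (nat_lit 2) (nat_lit 88281) (nat_lit 5) (node (nat_lit 5) (nat_lit
  89590) (nat_lit 6) nil (node (nat_lit 6) (nat_lit 89945) (nat_lit 6) nil (node (nat_lit 7)
  (nat_lit 90357) (nat_lit 6) nil (node (nat_lit 4) (nat_lit 85926) (nat_lit 6) nil nil))))
  nil))))) (node (nat_lit 5) (nat_lit 0) (nat_lit 4) (node (nat_lit 4) (nat_lit 0) (nat_lit 5)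
  (node (nat_lit 5) (nat_lit 81072) (nat_lit 6) (node (nat_lit 6) (nat_lit 71859) (nat_lit 7) nil
  nil) (node (nat_lit 6) (nat_lit 81100) (nat_lit 6) (node (nat_lit 5) (nat_lit 89217) (nat_lit 7)
  nil (node (nat_lit 4) (nat_lit 88976) (nat_lit 7) (node (nat_lit 5) (nat_lit 91797) (nat_lit 8)
  (node (nat_lit 6) (nat_lit 88662) (nat_lit 9) (node (nat_lit 5) (nat_lit 83180) (nat_lit 10)
  (node (nat_lit 4) (nat_lit 53436) (nat_lit 11) nil nil) nil) nil) nil) nil)) (node (nat_lit 1)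
  (nat_lit 88536) (nat_lit 6) (node (nat_lit 6) (nat_lit 90445) (nat_lit 7) nil nil) (node
  (nat_lit 0) (nat_lit 89920) (nat_lit 6) nil (node (nat_lit 2) (nat_lit 89061) (nat_lit 6) nil
  nil))))) (node (nat_lit 1) (nat_lit 88281) (nat_lit 5) (node (nat_lit 6) (nat_lit 90357)
  (nat_lit 6) nil (node (nat_lit 5) (nat_lit 90833) (nat_lit 6) (node (nat_lit 4) (nat_lit 92333)
  (nat_lit 7) (node (nat_lit 5) (nat_lit 91541) (nat_lit 8) (node (nat_lit 6) (nat_lit 92224)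
  (nat_lit 9) (node (nat_lit 5) (nat_lit 91625) (nat_lit 10) nil nil) nil) nil) nil) (node
  (nat_lit 4) (nat_lit 90357) (nat_lit 6) (node (nat_lit 5) (nat_lit 85959) (nat_lit 7) (node
  (nat_lit 6) (nat_lit 68606) (nat_lit 8) (node (nat_lit 5) (nat_lit 51735) (nat_lit 9) nil nil)
  nil) nil) nil))) (node (nat_lit 0) (nat_lit 88281) (nat_lit 5) (node (nat_lit 5) (nat_lit 90357)
  (nat_lit 6) nil (node (nat_lit 6) (nat_lit 90357) (nat_lit 6) nil nil)) (node (nat_lit 2)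
  (nat_lit 87645) (nat_lit 5) (node (nat_lit 6) (nat_lit 90357) (nat_lit 6) nil nil) nil)))) (node
  (nat_lit 0) (nat_lit 0) (nat_lit 4) (node (nat_lit 5) (nat_lit 88281) (nat_lit 5) (node (nat_lit
  7) (nat_lit 90357) (nat_lit 6) nil (node (nat_lit 6) (nat_lit 90833) (nat_lit 6) nil (node
  (nat_lit 4) (nat_lit 89448) (nat_lit 6) (node (nat_lit 5) (nat_lit 90949) (nat_lit 7) (node
  (nat_lit 6) (nat_lit 91936) (nat_lit 8) nil nil) nil) nil))) (node (nat_lit 6) (nat_lit 88281)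
  (nat_lit 5) (node (nat_lit 5) (nat_lit 89448) (nat_lit 6) nil (node (nat_lit 4) (nat_lit 90357)
  (nat_lit 6) (node (nat_lit 5) (nat_lit 89484) (nat_lit 7) nil nil) nil)) (node (nat_lit 4)
  (nat_lit 88281) (nat_lit 5) (node (nat_lit 6) (nat_lit 90357) (nat_lit 6) nil nil) (node
  (nat_lit 1) (nat_lit 88281) (nat_lit 5) (node (nat_lit 6) (nat_lit 90357) (nat_lit 6) nil (node
  (nat_lit 4) (nat_lit 90357) (nat_lit 6) nil nil)) (node (nat_lit 0) (nat_lit 88281) (nat_lit 5)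
  nil (node (nat_lit 2) (nat_lit 88281) (nat_lit 5) nil nil)))))) (node (nat_lit 2) (nat_lit 0)
  (nat_lit 4) (node (nat_lit 5) (nat_lit 81911) (nat_lit 5) (node (nat_lit 7) (nat_lit 87266)
  (nat_lit 6) (node (nat_lit 6) (nat_lit 90721) (nat_lit 7) nil (node (nat_lit 4) (nat_lit 88986)
  (nat_lit 7) nil nil)) (node (nat_lit 6) (nat_lit 87110) (nat_lit 6) nil (node (nat_lit 1)
  (nat_lit 89448) (nat_lit 6) (node (nat_lit 7) (nat_lit 86524) (nat_lit 7) (node (nat_lit 5)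
  (nat_lit 86374) (nat_lit 8) nil nil) nil) (node (nat_lit 4) (nat_lit 88523) (nat_lit 6) (node
  (nat_lit 5) (nat_lit 79073) (nat_lit 7) (node (nat_lit 6) (nat_lit 71508) (nat_lit 8) (node
  (nat_lit 7) (nat_lit 70498) (nat_lit 9) nil nil) nil) (node (nat_lit 6) (nat_lit 89765) (nat_lit
  7) nil nil)) (node (nat_lit 0) (nat_lit 90833) (nat_lit 6) nil nil))))) (node (nat_lit 6)
  (nat_lit 81892) (nat_lit 5) (node (nat_lit 5) (nat_lit 86705) (nat_lit 6) nil (node (nat_lit 4)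
  (nat_lit 90151) (nat_lit 6) (node (nat_lit 5) (nat_lit 89060) (nat_lit 7) (node (nat_lit 6)
  (nat_lit 65767) (nat_lit 8) (node (nat_lit 7) (nat_lit 51403) (nat_lit 9) nil nil) nil) nil)
  (node (nat_lit 1) (nat_lit 90357) (nat_lit 6) nil nil))) (node (nat_lit 4) (nat_lit 88281)
  (nat_lit 5) (node (nat_lit 6) (nat_lit 90833) (nat_lit 6) (node (nat_lit 4) (nat_lit 89959)
  (nat_lit 7) (node (nat_lit 5) (nat_lit 88022) (nat_lit 8) (node (nat_lit 6) (nat_lit 83750)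
  (nat_lit 9) (node (nat_lit 7) (nat_lit 68345) (nat_lit 10) (node (nat_lit 4) (nat_lit 47817)
  (nat_lit 11) nil nil) nil) nil) nil) nil) (node (nat_lit 7) (nat_lit 88630) (nat_lit 6) nil
  nil)) (node (nat_lit 1) (nat_lit 88281) (nat_lit 5) (node (nat_lit 6) (nat_lit 90357) (nat_lit
  6) nil (node (nat_lit 4) (nat_lit 87916) (nat_lit 6) nil nil)) (node (nat_lit 0) (nat_lit 88281)
  (nat_lit 5) nil nil))))) nil))))) (node (nat_lit 4) (nat_lit 0) (nat_lit 3) (node (nat_lit 1)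
  (nat_lit 0) (nat_lit 4) (node (nat_lit 4) (nat_lit 55666) (nat_lit 5) (node (nat_lit 5) (nat_lit
  57568) (nat_lit 6) (node (nat_lit 7) (nat_lit 59891) (nat_lit 7) (node (nat_lit 5) (nat_lit
  61276) (nat_lit 8) (node (nat_lit 4) (nat_lit 63723) (nat_lit 9) (node (nat_lit 7) (nat_lit
  64399) (nat_lit 10) nil (node (nat_lit 5) (nat_lit 64399) (nat_lit 10) (node (nat_lit 7)
  (nat_lit 64927) (nat_lit 11) (node (nat_lit 4) (nat_lit 65389) (nat_lit 12) (node (nat_lit 5)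
  (nat_lit 65711) (nat_lit 13) (node (nat_lit 4) (nat_lit 65920) (nat_lit 14) (node (nat_lit 7)
  (nat_lit 64951) (nat_lit 15) (node (nat_lit 4) (nat_lit 63148) (nat_lit 16) (node (nat_lit 5)
  (nat_lit 60018) (nat_lit 17) (node (nat_lit 7) (nat_lit 55280) (nat_lit 18) (node (nat_lit 5)
  (nat_lit 39727) (nat_lit 19) (node (nat_lit 4) (nat_lit 36450) (nat_lit 20) nil nil) nil) nil)
  nil) nil) nil) nil) nil) nil) nil) nil)) nil) nil) (node (nat_lit 4) (nat_lit 33542) (nat_lit 7)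
  nil (node (nat_lit 1) (nat_lit 63708) (nat_lit 7) nil nil))) (node (nat_lit 1) (nat_lit 66138)
  (nat_lit 6) nil (node (nat_lit 0) (nat_lit 66138) (nat_lit 6) nil (node (nat_lit 2) (nat_lit
  66138) (nat_lit 6) nil nil)))) (node (nat_lit 5) (nat_lit 55665) (nat_lit 5) (node (nat_lit 7)
  (nat_lit 57572) (nat_lit 6) (node (nat_lit 4) (nat_lit 64662) (nat_lit 7) (node (nat_lit 5)
  (nat_lit 65062) (nat_lit 8) (node (nat_lit 4) (nat_lit 64168) (nat_lit 9) (node (nat_lit 7)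
  (nat_lit 53720) (nat_lit 10) (node (nat_lit 5) (nat_lit 31078) (nat_lit 11) nil nil) nil) (node
  (nat_lit 7) (nat_lit 66866) (nat_lit 9) nil nil)) nil) (node (nat_lit 1) (nat_lit 69153)
  (nat_lit 7) nil nil)) (node (nat_lit 4) (nat_lit 57578) (nat_lit 6) (node (nat_lit 5) (nat_lit
  64197) (nat_lit 7) (node (nat_lit 7) (nat_lit 66686) (nat_lit 8) (node (nat_lit 4) (nat_lit
  67313) (nat_lit 9) (node (nat_lit 5) (nat_lit 66659) (nat_lit 10) (node (nat_lit 4) (nat_lit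
  67171) (nat_lit 11) (node (nat_lit 7) (nat_lit 67693) (nat_lit 12) (node (nat_lit 5) (nat_lit
  53249) (nat_lit 13) (node (nat_lit 4) (nat_lit 38456) (nat_lit 14) nil nil) nil) nil) nil) nil)
  nil) nil) (node (nat_lit 1) (nat_lit 65811) (nat_lit 7) nil (node (nat_lit 0) (nat_lit 65811)
  (nat_lit 7) nil (node (nat_lit 2) (nat_lit 68230) (nat_lit 7) nil nil)))) (node (nat_lit 1)
  (nat_lit 67429) (nat_lit 6) nil (node (nat_lit 0) (nat_lit 67429) (nat_lit 6) nil (node (nat_lit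
  2) (nat_lit 67429) (nat_lit 6) nil nil))))) (node (nat_lit 1) (nat_lit 69658) (nat_lit 5) (node
  (nat_lit 5) (nat_lit 70834) (nat_lit 6) (node (nat_lit 7) (nat_lit 71594) (nat_lit 7) nil (node
  (nat_lit 8) (nat_lit 71594) (nat_lit 7) nil nil)) (node (nat_lit 4) (nat_lit 70834) (nat_lit 6)
  (node (nat_lit 5) (nat_lit 69382) (nat_lit 7) (node (nat_lit 4) (nat_lit 68223) (nat_lit 8) nil
  nil) nil) (node (nat_lit 7) (nat_lit 70834) (nat_lit 6) (node (nat_lit 4) (nat_lit 69382)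
  (nat_lit 7) nil nil) nil))) (node (nat_lit 0) (nat_lit 69658) (nat_lit 5) (node (nat_lit 7)
  (nat_lit 70834) (nat_lit 6) nil nil) (node (nat_lit 2) (nat_lit 69658) (nat_lit 5) (node
  (nat_lit 4) (nat_lit 70834) (nat_lit 6) nil (node (nat_lit 5) (nat_lit 70834) (nat_lit 6) (node
  (nat_lit 7) (nat_lit 71594) (nat_lit 7) nil nil) (node (nat_lit 7) (nat_lit 70834) (nat_lit 6)
  (node (nat_lit 4) (nat_lit 71266) (nat_lit 7) (node (nat_lit 5) (nat_lit 67203) (nat_lit 8) nil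
  nil) nil) (node (nat_lit 1) (nat_lit 70834) (nat_lit 6) nil nil)))) nil))))) (node (nat_lit 0)
  (nat_lit 0) (nat_lit 4) (node (nat_lit 5) (nat_lit 69658) (nat_lit 5) (node (nat_lit 4) (nat_lit
  70834) (nat_lit 6) nil nil) (node (nat_lit 1) (nat_lit 69658) (nat_lit 5) (node (nat_lit 4)
  (nat_lit 70834) (nat_lit 6) (node (nat_lit 5) (nat_lit 69382) (nat_lit 7) nil nil) nil) (node
  (nat_lit 4) (nat_lit 69658) (nat_lit 5) nil (node (nat_lit 0) (nat_lit 69658) (nat_lit 5) nil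
  (node (nat_lit 2) (nat_lit 69658) (nat_lit 5) nil nil))))) (node (nat_lit 2) (nat_lit 0)
  (nat_lit 4) (node (nat_lit 5) (nat_lit 69658) (nat_lit 5) (node (nat_lit 4) (nat_lit 70834)
  (nat_lit 6) nil (node (nat_lit 7) (nat_lit 70834) (nat_lit 6) (node (nat_lit 4) (nat_lit 71594)
  (nat_lit 7) nil nil) (node (nat_lit 1) (nat_lit 70834) (nat_lit 6) nil nil))) (node (nat_lit 1)
  (nat_lit 69658) (nat_lit 5) (node (nat_lit 4) (nat_lit 67954) (nat_lit 6) (node (nat_lit 5)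
  (nat_lit 63298) (nat_lit 7) (node (nat_lit 4) (nat_lit 38052) (nat_lit 8) nil nil) nil) (node
  (nat_lit 7) (nat_lit 70834) (nat_lit 6) nil nil)) (node (nat_lit 4) (nat_lit 69658) (nat_lit 5)
  (node (nat_lit 5) (nat_lit 70834) (nat_lit 6) (node (nat_lit 7) (nat_lit 71594) (nat_lit 7) nil
  (node (nat_lit 1) (nat_lit 71594) (nat_lit 7) nil nil)) (node (nat_lit 0) (nat_lit 70834)
  (nat_lit 6) nil nil)) (node (nat_lit 0) (nat_lit 69658) (nat_lit 5) nil nil)))) nil))) (node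
  (nat_lit 0) (nat_lit 0) (nat_lit 3) (node (nat_lit 1) (nat_lit 89340) (nat_lit 4) (node (nat_lit
  5) (nat_lit 94070) (nat_lit 5) (node (nat_lit 4) (nat_lit 95237) (nat_lit 6) nil nil) (node
  (nat_lit 6) (nat_lit 94070) (nat_lit 5) nil (node (nat_lit 1) (nat_lit 94070) (nat_lit 5) nil
  (node (nat_lit 4) (nat_lit 94070) (nat_lit 5) (node (nat_lit 5) (nat_lit 96146) (nat_lit 6)
  (node (nat_lit 6) (nat_lit 51847) (nat_lit 7) nil nil) nil) nil)))) (node (nat_lit 5) (nat_lit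
  0) (nat_lit 4) (node (nat_lit 1) (nat_lit 94070) (nat_lit 5) (node (nat_lit 4) (nat_lit 96146)
  (nat_lit 6) (node (nat_lit 5) (nat_lit 86607) (nat_lit 7) (node (nat_lit 6) (nat_lit 74395)
  (nat_lit 8) nil nil) nil) nil) (node (nat_lit 4) (nat_lit 91139) (nat_lit 5) (node (nat_lit 5)
  (nat_lit 93668) (nat_lit 6) (node (nat_lit 6) (nat_lit 79123) (nat_lit 7) nil nil) nil) (node
  (nat_lit 0) (nat_lit 94070) (nat_lit 5) nil (node (nat_lit 2) (nat_lit 94070) (nat_lit 5) nil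
  nil)))) (node (nat_lit 4) (nat_lit 0) (nat_lit 4) (node (nat_lit 6) (nat_lit 91139) (nat_lit 5)
  (node (nat_lit 5) (nat_lit 94144) (nat_lit 6) (node (nat_lit 4) (nat_lit 95386) (nat_lit 7)
  (node (nat_lit 5) (nat_lit 96861) (nat_lit 8) (node (nat_lit 6) (nat_lit 97954) (nat_lit 9)
  (node (nat_lit 4) (nat_lit 97644) (nat_lit 10) (node (nat_lit 6) (nat_lit 79473) (nat_lit 11)
  nil nil) nil) nil) nil) nil) nil) (node (nat_lit 1) (nat_lit 94070) (nat_lit 5) (node (nat_lit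
  4) (nat_lit 92957) (nat_lit 6) (node (nat_lit 5) (nat_lit 89021) (nat_lit 7) (node (nat_lit 6)
  (nat_lit 78546) (nat_lit 8) (node (nat_lit 4) (nat_lit 46566) (nat_lit 9) nil nil) nil) nil)
  nil) (node (nat_lit 0) (nat_lit 94070) (nat_lit 5) nil (node (nat_lit 5) (nat_lit 91139)
  (nat_lit 5) (node (nat_lit 4) (nat_lit 94144) (nat_lit 6) (node (nat_lit 6) (nat_lit 96424)
  (nat_lit 7) (node (nat_lit 5) (nat_lit 96120) (nat_lit 8) (node (nat_lit 4) (nat_lit 95824)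
  (nat_lit 9) (node (nat_lit 5) (nat_lit 95514) (nat_lit 10) (node (nat_lit 6) (nat_lit 96175)
  (nat_lit 11) (node (nat_lit 4) (nat_lit 95988) (nat_lit 12) (node (nat_lit 5) (nat_lit 95855)
  (nat_lit 13) (node (nat_lit 4) (nat_lit 95758) (nat_lit 14) (node (nat_lit 6) (nat_lit 75238)
  (nat_lit 15) nil nil) nil) nil) nil) nil) nil) nil) nil) nil) (node (nat_lit 1) (nat_lit 94325)
  (nat_lit 6) nil nil)) (node (nat_lit 2) (nat_lit 94070) (nat_lit 5) nil nil))))) (node (nat_lit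
  0) (nat_lit 0) (nat_lit 4) (node (nat_lit 5) (nat_lit 94070) (nat_lit 5) nil (node (nat_lit 6)
  (nat_lit 94070) (nat_lit 5) nil (node (nat_lit 1) (nat_lit 94070) (nat_lit 5) nil (node (nat_lit
  4) (nat_lit 94070) (nat_lit 5) nil (node (nat_lit 0) (nat_lit 94070) (nat_lit 5) nil (node
  (nat_lit 2) (nat_lit 94070) (nat_lit 5) nil nil)))))) (node (nat_lit 2) (nat_lit 89340) (nat_lit
  4) (node (nat_lit 5) (nat_lit 94070) (nat_lit 5) nil (node (nat_lit 6) (nat_lit 94070) (nat_lit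
  5) nil (node (nat_lit 1) (nat_lit 94070) (nat_lit 5) nil (node (nat_lit 4) (nat_lit 94070)
  (nat_lit 5) nil nil)))) nil))))) (node (nat_lit 2) (nat_lit 0) (nat_lit 3) (node (nat_lit 1)
  (nat_lit 0) (nat_lit 4) (node (nat_lit 5) (nat_lit 87136) (nat_lit 5) (node (nat_lit 7) (nat_lit
  89212) (nat_lit 6) (node (nat_lit 4) (nat_lit 93354) (nat_lit 7) (node (nat_lit 5) (nat_lit
  88809) (nat_lit 8) (node (nat_lit 6) (nat_lit 78529) (nat_lit 9) (node (nat_lit 7) (nat_lit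
  67601) (nat_lit 10) nil nil) nil) nil) nil) (node (nat_lit 4) (nat_lit 93381) (nat_lit 6) (node
  (nat_lit 5) (nat_lit 92820) (nat_lit 7) (node (nat_lit 6) (nat_lit 90490) (nat_lit 8) (node
  (nat_lit 7) (nat_lit 74353) (nat_lit 9) nil nil) nil) nil) (node (nat_lit 6) (nat_lit 89212)
  (nat_lit 6) nil nil))) (node (nat_lit 6) (nat_lit 87132) (nat_lit 5) (node (nat_lit 5) (nat_lit
  89207) (nat_lit 6) nil (node (nat_lit 4) (nat_lit 92796) (nat_lit 6) nil nil)) (node (nat_lit 1)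
  (nat_lit 91629) (nat_lit 5) nil (node (nat_lit 4) (nat_lit 81082) (nat_lit 5) (node (nat_lit 5)
  (nat_lit 62587) (nat_lit 6) (node (nat_lit 6) (nat_lit 47422) (nat_lit 7) nil (node (nat_lit 7)
  (nat_lit 63568) (nat_lit 7) nil nil)) (node (nat_lit 6) (nat_lit 84944) (nat_lit 6) nil (node
  (nat_lit 7) (nat_lit 85025) (nat_lit 6) nil (node (nat_lit 1) (nat_lit 85025) (nat_lit 6) nil
  nil)))) (node (nat_lit 0) (nat_lit 91629) (nat_lit 5) (node (nat_lit 5) (nat_lit 93705) (nat_lit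
  6) nil nil) nil))))) (node (nat_lit 5) (nat_lit 0) (nat_lit 4) (node (nat_lit 1) (nat_lit 87035)
  (nat_lit 5) (node (nat_lit 5) (nat_lit 89136) (nat_lit 6) nil (node (nat_lit 4) (nat_lit 89042)
  (nat_lit 6) (node (nat_lit 5) (nat_lit 82526) (nat_lit 7) (node (nat_lit 6) (nat_lit 71172)
  (nat_lit 8) (node (nat_lit 5) (nat_lit 41917) (nat_lit 9) nil nil) nil) nil) nil)) (node
  (nat_lit 4) (nat_lit 77256) (nat_lit 5) (node (nat_lit 6) (nat_lit 77264) (nat_lit 6) (node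
  (nat_lit 5) (nat_lit 77396) (nat_lit 7) nil (node (nat_lit 4) (nat_lit 77378) (nat_lit 7) (node
  (nat_lit 5) (nat_lit 91114) (nat_lit 8) nil nil) nil)) (node (nat_lit 5) (nat_lit 76746)
  (nat_lit 6) (node (nat_lit 6) (nat_lit 77364) (nat_lit 7) nil nil) (node (nat_lit 1) (nat_lit
  88237) (nat_lit 6) nil (node (nat_lit 0) (nat_lit 89228) (nat_lit 6) nil nil)))) (node (nat_lit
  0) (nat_lit 89586) (nat_lit 5) nil nil))) (node (nat_lit 4) (nat_lit 0) (nat_lit 4) (node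
  (nat_lit 1) (nat_lit 90394) (nat_lit 5) (node (nat_lit 6) (nat_lit 93549) (nat_lit 6) (node
  (nat_lit 5) (nat_lit 95737) (nat_lit 7) nil nil) (node (nat_lit 5) (nat_lit 93549) (nat_lit 6)
  nil (node (nat_lit 4) (nat_lit 93549) (nat_lit 6) (node (nat_lit 5) (nat_lit 87049) (nat_lit 7)
  (node (nat_lit 6) (nat_lit 76338) (nat_lit 8) (node (nat_lit 4) (nat_lit 46962) (nat_lit 9) nil
  nil) nil) nil) (node (nat_lit 1) (nat_lit 93549) (nat_lit 6) nil nil)))) (node (nat_lit 6)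
  (nat_lit 76941) (nat_lit 5) (node (nat_lit 5) (nat_lit 76974) (nat_lit 6) (node (nat_lit 4)
  (nat_lit 77198) (nat_lit 7) (node (nat_lit 5) (nat_lit 91393) (nat_lit 8) (node (nat_lit 6)
  (nat_lit 85944) (nat_lit 9) (node (nat_lit 4) (nat_lit 78794) (nat_lit 10) (node (nat_lit 6)
  (nat_lit 78135) (nat_lit 11) nil nil) nil) nil) (node (nat_lit 6) (nat_lit 92409) (nat_lit 8)
  nil nil)) (node (nat_lit 6) (nat_lit 77116) (nat_lit 7) (node (nat_lit 4) (nat_lit 92239)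
  (nat_lit 8) nil nil) (node (nat_lit 1) (nat_lit 94754) (nat_lit 7) nil nil))) (node (nat_lit 1)
  (nat_lit 92637) (nat_lit 6) (node (nat_lit 4) (nat_lit 94106) (nat_lit 7) (node (nat_lit 5)
  (nat_lit 94251) (nat_lit 8) (node (nat_lit 6) (nat_lit 81056) (nat_lit 9) nil nil) nil) nil)
  (node (nat_lit 0) (nat_lit 92637) (nat_lit 6) nil nil))) (node (nat_lit 0) (nat_lit 90394)
  (nat_lit 5) (node (nat_lit 1) (nat_lit 93549) (nat_lit 6) nil nil) (node (nat_lit 5) (nat_lit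
  76806) (nat_lit 5) (node (nat_lit 4) (nat_lit 76846) (nat_lit 6) (node (nat_lit 6) (nat_lit
  76878) (nat_lit 7) (node (nat_lit 5) (nat_lit 90194) (nat_lit 8) nil (node (nat_lit 4) (nat_lit
  87749) (nat_lit 8) nil nil)) (node (nat_lit 1) (nat_lit 95234) (nat_lit 7) nil nil)) (node
  (nat_lit 1) (nat_lit 90544) (nat_lit 6) nil nil)) nil)))) (node (nat_lit 0) (nat_lit 87796)
  (nat_lit 4) (node (nat_lit 5) (nat_lit 92526) (nat_lit 5) (node (nat_lit 4) (nat_lit 93693)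
  (nat_lit 6) nil nil) (node (nat_lit 6) (nat_lit 92526) (nat_lit 5) nil (node (nat_lit 1)
  (nat_lit 92526) (nat_lit 5) nil (node (nat_lit 4) (nat_lit 92526) (nat_lit 5) nil nil))))
  nil)))) nil))))

noncomputable def t146 : Tr :=
  (node (nat_lit 3) (nat_lit 0) (nat_lit 3) (node (nat_lit 1) (nat_lit 0) (nat_lit 4) (node
  (nat_lit 5) (nat_lit 86509) (nat_lit 5) (node (nat_lit 7) (nat_lit 93321) (nat_lit 6) (node
  (nat_lit 6) (nat_lit 95727) (nat_lit 7) nil nil) (node (nat_lit 4) (nat_lit 93297) (nat_lit 6)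
  nil (node (nat_lit 1) (nat_lit 94874) (nat_lit 6) nil (node (nat_lit 6) (nat_lit 92553) (nat_lit
  6) nil nil)))) (node (nat_lit 6) (nat_lit 86443) (nat_lit 5) (node (nat_lit 5) (nat_lit 92557)
  (nat_lit 6) (node (nat_lit 7) (nat_lit 96048) (nat_lit 7) nil (node (nat_lit 6) (nat_lit 93894)
  (nat_lit 7) nil nil)) (node (nat_lit 4) (nat_lit 93252) (nat_lit 6) (node (nat_lit 7) (nat_lit
  98007) (nat_lit 7) (node (nat_lit 4) (nat_lit 96363) (nat_lit 8) nil nil) (node (nat_lit 5)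
  (nat_lit 94576) (nat_lit 7) (node (nat_lit 6) (nat_lit 93213) (nat_lit 8) (node (nat_lit 7)
  (nat_lit 75163) (nat_lit 9) nil nil) nil) nil)) (node (nat_lit 1) (nat_lit 95607) (nat_lit 6)
  nil (node (nat_lit 0) (nat_lit 95607) (nat_lit 6) nil nil)))) (node (nat_lit 1) (nat_lit 91454)
  (nat_lit 5) (node (nat_lit 7) (nat_lit 95226) (nat_lit 6) nil (node (nat_lit 6) (nat_lit 94230)
  (nat_lit 6) nil (node (nat_lit 4) (nat_lit 94151) (nat_lit 6) (node (nat_lit 5) (nat_lit 92843)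
  (nat_lit 7) (node (nat_lit 6) (nat_lit 92175) (nat_lit 8) nil nil) nil) nil))) (node (nat_lit 4)
  (nat_lit 81203) (nat_lit 5) (node (nat_lit 6) (nat_lit 86658) (nat_lit 6) (node (nat_lit 4)
  (nat_lit 87917) (nat_lit 7) (node (nat_lit 5) (nat_lit 85653) (nat_lit 8) nil nil) (node
  (nat_lit 5) (nat_lit 88154) (nat_lit 7) (node (nat_lit 6) (nat_lit 86101) (nat_lit 8) (node
  (nat_lit 7) (nat_lit 87239) (nat_lit 9) nil nil) (node (nat_lit 7) (nat_lit 90920) (nat_lit 8)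
  nil nil)) (node (nat_lit 7) (nat_lit 89760) (nat_lit 7) nil nil))) (node (nat_lit 5) (nat_lit
  64855) (nat_lit 6) (node (nat_lit 6) (nat_lit 52336) (nat_lit 7) nil (node (nat_lit 7) (nat_lit
  65967) (nat_lit 7) (node (nat_lit 5) (nat_lit 66710) (nat_lit 8) nil (node (nat_lit 4) (nat_lit
  66829) (nat_lit 8) nil (node (nat_lit 6) (nat_lit 66710) (nat_lit 8) nil nil))) (node (nat_lit
  4) (nat_lit 66096) (nat_lit 7) (node (nat_lit 6) (nat_lit 66839) (nat_lit 8) nil (node (nat_lit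
  7) (nat_lit 66839) (nat_lit 8) nil nil)) (node (nat_lit 1) (nat_lit 66096) (nat_lit 7) nil
  nil)))) (node (nat_lit 7) (nat_lit 87293) (nat_lit 6) (node (nat_lit 6) (nat_lit 88810) (nat_lit
  7) (node (nat_lit 4) (nat_lit 90328) (nat_lit 8) nil nil) (node (nat_lit 5) (nat_lit 89674)
  (nat_lit 7) nil (node (nat_lit 1) (nat_lit 89269) (nat_lit 7) nil nil))) (node (nat_lit 1)
  (nat_lit 87392) (nat_lit 6) (node (nat_lit 7) (nat_lit 89308) (nat_lit 7) nil nil) (node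
  (nat_lit 0) (nat_lit 87392) (nat_lit 6) nil nil))))) (node (nat_lit 0) (nat_lit 91454) (nat_lit
  5) (node (nat_lit 6) (nat_lit 94230) (nat_lit 6) nil (node (nat_lit 7) (nat_lit 95226) (nat_lit
  6) nil nil)) nil))))) (node (nat_lit 4) (nat_lit 0) (nat_lit 4) (node (nat_lit 5) (nat_lit
  75603) (nat_lit 5) (node (nat_lit 4) (nat_lit 76746) (nat_lit 6) nil nil) (node (nat_lit 6)
  (nat_lit 76941) (nat_lit 5) (node (nat_lit 5) (nat_lit 76974) (nat_lit 6) (node (nat_lit 4)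
  (nat_lit 77198) (nat_lit 7) (node (nat_lit 5) (nat_lit 91092) (nat_lit 8) nil (node (nat_lit 6)
  (nat_lit 90353) (nat_lit 8) (node (nat_lit 4) (nat_lit 91760) (nat_lit 9) (node (nat_lit 5)
  (nat_lit 88083) (nat_lit 10) (node (nat_lit 6) (nat_lit 88083) (nat_lit 11) (node (nat_lit 4)
  (nat_lit 79278) (nat_lit 12) (node (nat_lit 6) (nat_lit 79465) (nat_lit 13) (node (nat_lit 5)
  (nat_lit 79175) (nat_lit 14) (node (nat_lit 4) (nat_lit 78950) (nat_lit 15) nil nil) nil) nil)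
  nil) nil) nil) nil) (node (nat_lit 0) (nat_lit 92755) (nat_lit 8) nil (node (nat_lit 1) (nat_lit
  92304) (nat_lit 8) nil nil)))) (node (nat_lit 6) (nat_lit 77116) (nat_lit 7) (node (nat_lit 4)
  (nat_lit 90430) (nat_lit 8) nil (node (nat_lit 1) (nat_lit 92337) (nat_lit 8) nil nil)) (node
  (nat_lit 1) (nat_lit 90741) (nat_lit 7) nil (node (nat_lit 0) (nat_lit 91137) (nat_lit 7) nil
  nil)))) (node (nat_lit 1) (nat_lit 84574) (nat_lit 6) (node (nat_lit 4) (nat_lit 87153) (nat_lit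
  7) (node (nat_lit 5) (nat_lit 86753) (nat_lit 8) (node (nat_lit 6) (nat_lit 79114) (nat_lit 9)
  (node (nat_lit 4) (nat_lit 60474) (nat_lit 10) (node (nat_lit 6) (nat_lit 43836) (nat_lit 11)
  nil nil) nil) nil) nil) (node (nat_lit 5) (nat_lit 90034) (nat_lit 7) nil nil)) (node (nat_lit
  0) (nat_lit 87005) (nat_lit 6) nil nil))) (node (nat_lit 1) (nat_lit 83430) (nat_lit 5) (node
  (nat_lit 6) (nat_lit 86171) (nat_lit 6) (node (nat_lit 5) (nat_lit 90847) (nat_lit 7) (node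
  (nat_lit 6) (nat_lit 91207) (nat_lit 8) nil nil) (node (nat_lit 8) (nat_lit 87826) (nat_lit 7)
  nil (node (nat_lit 4) (nat_lit 87826) (nat_lit 7) nil nil))) (node (nat_lit 4) (nat_lit 82941)
  (nat_lit 6) (node (nat_lit 5) (nat_lit 79802) (nat_lit 7) (node (nat_lit 6) (nat_lit 77863)
  (nat_lit 8) (node (nat_lit 4) (nat_lit 46290) (nat_lit 9) nil nil) nil) (node (nat_lit 6)
  (nat_lit 85126) (nat_lit 7) nil nil)) (node (nat_lit 5) (nat_lit 89315) (nat_lit 6) nil (node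
  (nat_lit 1) (nat_lit 89211) (nat_lit 6) nil nil)))) (node (nat_lit 0) (nat_lit 86218) (nat_lit
  5) (node (nat_lit 5) (nat_lit 89770) (nat_lit 6) nil (node (nat_lit 6) (nat_lit 89204) (nat_lit
  6) (node (nat_lit 4) (nat_lit 89867) (nat_lit 7) nil nil) (node (nat_lit 4) (nat_lit 89125)
  (nat_lit 6) nil nil))) nil)))) (node (nat_lit 5) (nat_lit 0) (nat_lit 4) (node (nat_lit 4)
  (nat_lit 77256) (nat_lit 5) (node (nat_lit 6) (nat_lit 77264) (nat_lit 6) (node (nat_lit 4)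
  (nat_lit 77378) (nat_lit 7) (node (nat_lit 5) (nat_lit 89210) (nat_lit 8) (node (nat_lit 6)
  (nat_lit 86237) (nat_lit 9) (node (nat_lit 5) (nat_lit 82682) (nat_lit 10) (node (nat_lit 4)
  (nat_lit 78135) (nat_lit 11) nil nil) nil) nil) nil) (node (nat_lit 5) (nat_lit 77396) (nat_lit
  7) (node (nat_lit 6) (nat_lit 92916) (nat_lit 8) (node (nat_lit 4) (nat_lit 93664) (nat_lit 9)
  (node (nat_lit 5) (nat_lit 93664) (nat_lit 10) (node (nat_lit 6) (nat_lit 88083) (nat_lit 11)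
  (node (nat_lit 5) (nat_lit 88083) (nat_lit 12) (node (nat_lit 4) (nat_lit 88083) (nat_lit 13)
  (node (nat_lit 6) (nat_lit 75842) (nat_lit 14) nil nil) nil) nil) nil) nil) nil) nil) (node
  (nat_lit 1) (nat_lit 95488) (nat_lit 7) nil nil))) (node (nat_lit 5) (nat_lit 77268) (nat_lit 6)
  (node (nat_lit 6) (nat_lit 77364) (nat_lit 7) (node (nat_lit 4) (nat_lit 91911) (nat_lit 8) nil
  (node (nat_lit 1) (nat_lit 95488) (nat_lit 8) nil (node (nat_lit 0) (nat_lit 95488) (nat_lit 8)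
  nil nil))) (node (nat_lit 0) (nat_lit 95488) (nat_lit 7) nil (node (nat_lit 1) (nat_lit 95488)
  (nat_lit 7) nil nil))) (node (nat_lit 1) (nat_lit 95302) (nat_lit 6) (node (nat_lit 4) (nat_lit
  95488) (nat_lit 7) nil nil) (node (nat_lit 0) (nat_lit 95337) (nat_lit 6) nil nil)))) (node
  (nat_lit 1) (nat_lit 89487) (nat_lit 5) (node (nat_lit 6) (nat_lit 94620) (nat_lit 6) (node
  (nat_lit 4) (nat_lit 98546) (nat_lit 7) nil nil) (node (nat_lit 4) (nat_lit 95629) (nat_lit 6)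
  (node (nat_lit 5) (nat_lit 87398) (nat_lit 7) (node (nat_lit 6) (nat_lit 76788) (nat_lit 8)
  (node (nat_lit 5) (nat_lit 53032) (nat_lit 9) nil nil) nil) nil) (node (nat_lit 1) (nat_lit
  96588) (nat_lit 6) nil nil))) (node (nat_lit 0) (nat_lit 92292) (nat_lit 5) nil nil))) (node
  (nat_lit 0) (nat_lit 0) (nat_lit 4) (node (nat_lit 6) (nat_lit 93270) (nat_lit 5) (node (nat_lit
  4) (nat_lit 96440) (nat_lit 6) (node (nat_lit 5) (nat_lit 94450) (nat_lit 7) (node (nat_lit 6)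
  (nat_lit 93087) (nat_lit 8) nil nil) nil) nil) (node (nat_lit 5) (nat_lit 93176) (nat_lit 5)
  (node (nat_lit 6) (nat_lit 96727) (nat_lit 6) (node (nat_lit 4) (nat_lit 99057) (nat_lit 7) nil
  nil) nil) (node (nat_lit 1) (nat_lit 94243) (nat_lit 5) (node (nat_lit 6) (nat_lit 97112)
  (nat_lit 6) nil nil) (node (nat_lit 4) (nat_lit 94476) (nat_lit 5) (node (nat_lit 6) (nat_lit
  97345) (nat_lit 6) nil nil) (node (nat_lit 0) (nat_lit 94463) (nat_lit 5) nil nil))))) nil))))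
  (node (nat_lit 0) (nat_lit 0) (nat_lit 3) (node (nat_lit 1) (nat_lit 99511) (nat_lit 4) (node
  (nat_lit 5) (nat_lit 103485) (nat_lit 5) (node (nat_lit 7) (nat_lit 105158) (nat_lit 6) nil nil)
  (node (nat_lit 4) (nat_lit 103805) (nat_lit 5) (node (nat_lit 5) (nat_lit 101702) (nat_lit 6)
  (node (nat_lit 6) (nat_lit 59524) (nat_lit 7) nil nil) nil) (node (nat_lit 1) (nat_lit 103197)
  (nat_lit 5) nil (node (nat_lit 3) (nat_lit 103674) (nat_lit 5) nil nil)))) (node (nat_lit 4)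
  (nat_lit 0) (nat_lit 4) (node (nat_lit 6) (nat_lit 104860) (nat_lit 5) (node (nat_lit 5)
  (nat_lit 105282) (nat_lit 6) (node (nat_lit 4) (nat_lit 105756) (nat_lit 7) (node (nat_lit 5)
  (nat_lit 104960) (nat_lit 8) (node (nat_lit 6) (nat_lit 105649) (nat_lit 9) nil nil) (node
  (nat_lit 6) (nat_lit 106764) (nat_lit 8) nil nil)) (node (nat_lit 6) (nat_lit 106501) (nat_lit
  7) nil nil)) (node (nat_lit 1) (nat_lit 105975) (nat_lit 6) nil (node (nat_lit 3) (nat_lit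
  104621) (nat_lit 6) nil nil))) (node (nat_lit 1) (nat_lit 103235) (nat_lit 5) (node (nat_lit 4)
  (nat_lit 100558) (nat_lit 6) (node (nat_lit 5) (nat_lit 95759) (nat_lit 7) nil nil) nil) (node
  (nat_lit 5) (nat_lit 102586) (nat_lit 5) (node (nat_lit 4) (nat_lit 105254) (nat_lit 6) (node
  (nat_lit 6) (nat_lit 106758) (nat_lit 7) nil nil) nil) (node (nat_lit 0) (nat_lit 104648)
  (nat_lit 5) nil (node (nat_lit 3) (nat_lit 103663) (nat_lit 5) (node (nat_lit 4) (nat_lit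
  100829) (nat_lit 6) (node (nat_lit 5) (nat_lit 92835) (nat_lit 7) (node (nat_lit 6) (nat_lit
  86704) (nat_lit 8) (node (nat_lit 4) (nat_lit 73227) (nat_lit 9) nil nil) nil) nil) nil)
  nil))))) (node (nat_lit 5) (nat_lit 0) (nat_lit 4) (node (nat_lit 4) (nat_lit 102586) (nat_lit
  5) (node (nat_lit 6) (nat_lit 105972) (nat_lit 6) nil (node (nat_lit 5) (nat_lit 104100)
  (nat_lit 6) nil nil)) (node (nat_lit 1) (nat_lit 104430) (nat_lit 5) (node (nat_lit 4) (nat_lit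
  103528) (nat_lit 6) nil nil) (node (nat_lit 0) (nat_lit 104648) (nat_lit 5) nil (node (nat_lit
  3) (nat_lit 103632) (nat_lit 5) (node (nat_lit 4) (nat_lit 103670) (nat_lit 6) (node (nat_lit 5)
  (nat_lit 93162) (nat_lit 7) (node (nat_lit 6) (nat_lit 82913) (nat_lit 8) (node (nat_lit 5)
  (nat_lit 73227) (nat_lit 9) nil nil) nil) nil) nil) nil)))) (node (nat_lit 0) (nat_lit 100328)
  (nat_lit 4) nil (node (nat_lit 3) (nat_lit 0) (nat_lit 4) (node (nat_lit 1) (nat_lit 102389)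
  (nat_lit 5) nil (node (nat_lit 6) (nat_lit 105102) (nat_lit 5) nil (node (nat_lit 5) (nat_lit
  103553) (nat_lit 5) (node (nat_lit 7) (nat_lit 102327) (nat_lit 6) nil nil) (node (nat_lit 4)
  (nat_lit 103521) (nat_lit 5) (node (nat_lit 5) (nat_lit 101559) (nat_lit 6) (node (nat_lit 6)
  (nat_lit 77736) (nat_lit 7) nil nil) nil) (node (nat_lit 0) (nat_lit 104794) (nat_lit 5) nil
  nil))))) nil))))) (node (nat_lit 4) (nat_lit 0) (nat_lit 3) (node (nat_lit 1) (nat_lit 0)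
  (nat_lit 4) (node (nat_lit 4) (nat_lit 75563) (nat_lit 5) (node (nat_lit 5) (nat_lit 78649)
  (nat_lit 6) (node (nat_lit 7) (nat_lit 85676) (nat_lit 7) nil (node (nat_lit 4) (nat_lit 48347)
  (nat_lit 7) (node (nat_lit 3) (nat_lit 48347) (nat_lit 8) nil (node (nat_lit 1) (nat_lit 49131)
  (nat_lit 8) nil nil)) (node (nat_lit 0) (nat_lit 87892) (nat_lit 7) nil (node (nat_lit 1)
  (nat_lit 87892) (nat_lit 7) nil (node (nat_lit 3) (nat_lit 86082) (nat_lit 7) nil nil))))) (node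
  (nat_lit 0) (nat_lit 89147) (nat_lit 6) nil (node (nat_lit 3) (nat_lit 88359) (nat_lit 6) nil
  (node (nat_lit 1) (nat_lit 89147) (nat_lit 6) nil nil)))) (node (nat_lit 5) (nat_lit 75562)
  (nat_lit 5) (node (nat_lit 7) (nat_lit 78675) (nat_lit 6) (node (nat_lit 4) (nat_lit 86550)
  (nat_lit 7) (node (nat_lit 5) (nat_lit 92117) (nat_lit 8) (node (nat_lit 4) (nat_lit 90275)
  (nat_lit 9) (node (nat_lit 7) (nat_lit 82022) (nat_lit 10) (node (nat_lit 5) (nat_lit 49418)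
  (nat_lit 11) nil nil) nil) nil) nil) nil) (node (nat_lit 4) (nat_lit 78670) (nat_lit 6) (node
  (nat_lit 5) (nat_lit 86054) (nat_lit 7) nil nil) (node (nat_lit 1) (nat_lit 93968) (nat_lit 6)
  nil (node (nat_lit 3) (nat_lit 92476) (nat_lit 6) nil (node (nat_lit 0) (nat_lit 93968) (nat_lit
  6) nil nil))))) (node (nat_lit 1) (nat_lit 93917) (nat_lit 5) (node (nat_lit 4) (nat_lit 93377)
  (nat_lit 6) (node (nat_lit 5) (nat_lit 92686) (nat_lit 7) (node (nat_lit 4) (nat_lit 90368)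
  (nat_lit 8) (node (nat_lit 7) (nat_lit 49418) (nat_lit 9) nil nil) nil) nil) nil) (node (nat_lit
  3) (nat_lit 92083) (nat_lit 5) (node (nat_lit 4) (nat_lit 93285) (nat_lit 6) (node (nat_lit 5)
  (nat_lit 93494) (nat_lit 7) (node (nat_lit 4) (nat_lit 93494) (nat_lit 8) (node (nat_lit 7)
  (nat_lit 68569) (nat_lit 9) nil nil) nil) nil) nil) (node (nat_lit 0) (nat_lit 93917) (nat_lit
  5) nil nil))))) (node (nat_lit 0) (nat_lit 0) (nat_lit 4) (node (nat_lit 4) (nat_lit 90461)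
  (nat_lit 5) (node (nat_lit 5) (nat_lit 93120) (nat_lit 6) (node (nat_lit 7) (nat_lit 94047)
  (nat_lit 7) (node (nat_lit 5) (nat_lit 94047) (nat_lit 8) nil (node (nat_lit 4) (nat_lit 94047)
  (nat_lit 8) nil nil)) (node (nat_lit 1) (nat_lit 94047) (nat_lit 7) nil (node (nat_lit 3)
  (nat_lit 93494) (nat_lit 7) nil nil))) (node (nat_lit 1) (nat_lit 93968) (nat_lit 6) nil (node
  (nat_lit 3) (nat_lit 92774) (nat_lit 6) nil nil))) (node (nat_lit 5) (nat_lit 90481) (nat_lit 5)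
  (node (nat_lit 7) (nat_lit 93968) (nat_lit 6) nil (node (nat_lit 4) (nat_lit 93038) (nat_lit 6)
  (node (nat_lit 5) (nat_lit 93494) (nat_lit 7) (node (nat_lit 7) (nat_lit 94048) (nat_lit 8)
  (node (nat_lit 4) (nat_lit 94048) (nat_lit 9) nil nil) nil) nil) nil)) (node (nat_lit 0)
  (nat_lit 93917) (nat_lit 5) nil (node (nat_lit 1) (nat_lit 93917) (nat_lit 5) (node (nat_lit 4)
  (nat_lit 93377) (nat_lit 6) (node (nat_lit 5) (nat_lit 90474) (nat_lit 7) (node (nat_lit 4)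
  (nat_lit 88156) (nat_lit 8) nil nil) nil) nil) (node (nat_lit 3) (nat_lit 92083) (nat_lit 5)
  (node (nat_lit 4) (nat_lit 93285) (nat_lit 6) (node (nat_lit 5) (nat_lit 93494) (nat_lit 7)
  (node (nat_lit 4) (nat_lit 92654) (nat_lit 8) nil nil) nil) nil) nil))))) (node (nat_lit 3)
  (nat_lit 0) (nat_lit 4) (node (nat_lit 4) (nat_lit 71936) (nat_lit 5) (node (nat_lit 5) (nat_lit
  76534) (nat_lit 6) (node (nat_lit 7) (nat_lit 76626) (nat_lit 7) (node (nat_lit 5) (nat_lit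
  82779) (nat_lit 8) nil (node (nat_lit 4) (nat_lit 82779) (nat_lit 8) nil nil)) (node (nat_lit 4)
  (nat_lit 71594) (nat_lit 7) nil (node (nat_lit 1) (nat_lit 83621) (nat_lit 7) nil nil))) (node
  (nat_lit 1) (nat_lit 80851) (nat_lit 6) (node (nat_lit 7) (nat_lit 84249) (nat_lit 7) nil (node
  (nat_lit 4) (nat_lit 84202) (nat_lit 7) nil nil)) (node (nat_lit 0) (nat_lit 80887) (nat_lit 6)
  nil nil))) (node (nat_lit 5) (nat_lit 76534) (nat_lit 5) (node (nat_lit 7) (nat_lit 76534)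
  (nat_lit 6) (node (nat_lit 4) (nat_lit 76687) (nat_lit 7) (node (nat_lit 5) (nat_lit 83829)
  (nat_lit 8) (node (nat_lit 4) (nat_lit 78674) (nat_lit 9) (node (nat_lit 7) (nat_lit 76105)
  (nat_lit 10) (node (nat_lit 5) (nat_lit 69747) (nat_lit 11) nil nil) nil) nil) nil) (node
  (nat_lit 1) (nat_lit 84707) (nat_lit 7) nil nil)) (node (nat_lit 4) (nat_lit 76599) (nat_lit 6)
  (node (nat_lit 5) (nat_lit 76654) (nat_lit 7) nil nil) (node (nat_lit 1) (nat_lit 89031)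
  (nat_lit 6) nil (node (nat_lit 0) (nat_lit 89031) (nat_lit 6) nil nil)))) (node (nat_lit 1)
  (nat_lit 89056) (nat_lit 5) (node (nat_lit 7) (nat_lit 89914) (nat_lit 6) (node (nat_lit 4)
  (nat_lit 90604) (nat_lit 7) (node (nat_lit 5) (nat_lit 91244) (nat_lit 8) (node (nat_lit 4)
  (nat_lit 90678) (nat_lit 9) (node (nat_lit 7) (nat_lit 90630) (nat_lit 10) nil nil) nil) nil)
  (node (nat_lit 5) (nat_lit 90735) (nat_lit 7) (node (nat_lit 4) (nat_lit 91288) (nat_lit 8)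
  (node (nat_lit 7) (nat_lit 91934) (nat_lit 9) nil nil) nil) nil)) (node (nat_lit 4) (nat_lit
  89781) (nat_lit 6) (node (nat_lit 5) (nat_lit 85722) (nat_lit 7) (node (nat_lit 4) (nat_lit
  67693) (nat_lit 8) (node (nat_lit 7) (nat_lit 46033) (nat_lit 9) nil nil) nil) nil) (node
  (nat_lit 1) (nat_lit 90912) (nat_lit 6) nil nil))) (node (nat_lit 0) (nat_lit 89056) (nat_lit 5)
  (node (nat_lit 7) (nat_lit 89914) (nat_lit 6) (node (nat_lit 4) (nat_lit 90604) (nat_lit 7) nil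
  nil) nil) nil)))) nil))) nil)))

noncomputable def t147 : Tr :=
  (node (nat_lit 0) (nat_lit 0) (nat_lit 2) (node (nat_lit 1) (nat_lit 0) (nat_lit 3) (node
  (nat_lit 4) (nat_lit 106318) (nat_lit 4) (node (nat_lit 5) (nat_lit 66666) (nat_lit 5) (node
  (nat_lit 4) (nat_lit 66699) (nat_lit 6) (node (nat_lit 6) (nat_lit 67760) (nat_lit 7) (node
  (nat_lit 4) (nat_lit 67760) (nat_lit 8) nil nil) nil) nil) (node (nat_lit 3) (nat_lit 106609)
  (nat_lit 5) nil (node (nat_lit 1) (nat_lit 110054) (nat_lit 5) nil nil))) (node (nat_lit 1)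
  (nat_lit 109277) (nat_lit 4) (node (nat_lit 4) (nat_lit 109549) (nat_lit 5) (node (nat_lit 5)
  (nat_lit 110376) (nat_lit 6) nil nil) nil) (node (nat_lit 3) (nat_lit 105966) (nat_lit 4) (node
  (nat_lit 6) (nat_lit 108819) (nat_lit 5) nil (node (nat_lit 4) (nat_lit 105966) (nat_lit 5)
  (node (nat_lit 5) (nat_lit 107552) (nat_lit 6) nil nil) nil)) (node (nat_lit 5) (nat_lit 109334)
  (nat_lit 4) (node (nat_lit 4) (nat_lit 110034) (nat_lit 5) (node (nat_lit 6) (nat_lit 111779)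
  (nat_lit 6) (node (nat_lit 4) (nat_lit 111779) (nat_lit 7) (node (nat_lit 5) (nat_lit 111981)
  (nat_lit 8) (node (nat_lit 6) (nat_lit 112033) (nat_lit 9) (node (nat_lit 5) (nat_lit 100526)
  (nat_lit 10) (node (nat_lit 4) (nat_lit 66756) (nat_lit 11) nil nil) nil) nil) nil) nil) nil)
  nil) (node (nat_lit 0) (nat_lit 109549) (nat_lit 4) nil (node (nat_lit 2) (nat_lit 106082)
  (nat_lit 4) (node (nat_lit 6) (nat_lit 107419) (nat_lit 5) nil nil) nil)))))) (node (nat_lit 3)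
  (nat_lit 0) (nat_lit 3) (node (nat_lit 1) (nat_lit 109660) (nat_lit 4) (node (nat_lit 4)
  (nat_lit 109176) (nat_lit 5) (node (nat_lit 5) (nat_lit 88459) (nat_lit 6) (node (nat_lit 6)
  (nat_lit 65060) (nat_lit 7) nil nil) nil) nil) (node (nat_lit 4) (nat_lit 100065) (nat_lit 4)
  (node (nat_lit 5) (nat_lit 89474) (nat_lit 5) nil (node (nat_lit 6) (nat_lit 103736) (nat_lit 5)
  (node (nat_lit 5) (nat_lit 111593) (nat_lit 6) nil nil) (node (nat_lit 1) (nat_lit 110329)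
  (nat_lit 5) nil nil))) (node (nat_lit 5) (nat_lit 105363) (nat_lit 4) (node (nat_lit 4) (nat_lit
  106337) (nat_lit 5) (node (nat_lit 6) (nat_lit 109574) (nat_lit 6) (node (nat_lit 4) (nat_lit
  110745) (nat_lit 7) (node (nat_lit 5) (nat_lit 112785) (nat_lit 8) (node (nat_lit 6) (nat_lit
  109933) (nat_lit 9) (node (nat_lit 5) (nat_lit 100132) (nat_lit 10) (node (nat_lit 4) (nat_lit
  78787) (nat_lit 11) nil nil) nil) nil) nil) nil) nil) (node (nat_lit 1) (nat_lit 111529)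
  (nat_lit 5) nil nil)) (node (nat_lit 0) (nat_lit 110603) (nat_lit 4) nil (node (nat_lit 2)
  (nat_lit 102057) (nat_lit 4) (node (nat_lit 6) (nat_lit 103893) (nat_lit 5) (node (nat_lit 4)
  (nat_lit 104317) (nat_lit 6) (node (nat_lit 5) (nat_lit 102207) (nat_lit 7) (node (nat_lit 6)
  (nat_lit 82389) (nat_lit 8) nil nil) nil) nil) nil) nil))))) (node (nat_lit 0) (nat_lit 0)
  (nat_lit 3) (node (nat_lit 1) (nat_lit 110485) (nat_lit 4) (node (nat_lit 4) (nat_lit 110485)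
  (nat_lit 5) (node (nat_lit 5) (nat_lit 111681) (nat_lit 6) nil nil) nil) (node (nat_lit 4)
  (nat_lit 106895) (nat_lit 4) (node (nat_lit 6) (nat_lit 112904) (nat_lit 5) (node (nat_lit 5)
  (nat_lit 113593) (nat_lit 6) nil nil) (node (nat_lit 1) (nat_lit 111279) (nat_lit 5) (node
  (nat_lit 4) (nat_lit 109611) (nat_lit 6) nil nil) (node (nat_lit 5) (nat_lit 113207) (nat_lit 5)
  nil (node (nat_lit 3) (nat_lit 107165) (nat_lit 5) (node (nat_lit 4) (nat_lit 106774) (nat_lit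
  6) nil nil) nil)))) (node (nat_lit 5) (nat_lit 110903) (nat_lit 4) nil (node (nat_lit 0)
  (nat_lit 110485) (nat_lit 4) nil (node (nat_lit 3) (nat_lit 106522) (nat_lit 4) (node (nat_lit
  4) (nat_lit 106522) (nat_lit 5) (node (nat_lit 5) (nat_lit 108856) (nat_lit 6) nil nil) nil)
  (node (nat_lit 2) (nat_lit 106639) (nat_lit 4) nil nil)))))) (node (nat_lit 4) (nat_lit 0)
  (nat_lit 3) (node (nat_lit 1) (nat_lit 96700) (nat_lit 4) (node (nat_lit 4) (nat_lit 103536)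
  (nat_lit 5) (node (nat_lit 5) (nat_lit 89749) (nat_lit 6) (node (nat_lit 4) (nat_lit 64969)
  (nat_lit 7) nil nil) nil) (node (nat_lit 5) (nat_lit 106312) (nat_lit 5) nil (node (nat_lit 1)
  (nat_lit 109040) (nat_lit 5) nil (node (nat_lit 3) (nat_lit 107072) (nat_lit 5) nil nil))))
  (node (nat_lit 0) (nat_lit 105583) (nat_lit 4) (node (nat_lit 4) (nat_lit 107050) (nat_lit 5)
  nil nil) (node (nat_lit 3) (nat_lit 92641) (nat_lit 4) (node (nat_lit 4) (nat_lit 91663)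
  (nat_lit 5) (node (nat_lit 5) (nat_lit 90326) (nat_lit 6) (node (nat_lit 4) (nat_lit 81163)
  (nat_lit 7) nil nil) nil) (node (nat_lit 5) (nat_lit 98833) (nat_lit 5) (node (nat_lit 7)
  (nat_lit 103389) (nat_lit 6) nil nil) (node (nat_lit 1) (nat_lit 107334) (nat_lit 5) nil nil)))
  (node (nat_lit 2) (nat_lit 0) (nat_lit 4) (node (nat_lit 4) (nat_lit 102845) (nat_lit 5) (node
  (nat_lit 5) (nat_lit 104818) (nat_lit 6) nil (node (nat_lit 1) (nat_lit 109417) (nat_lit 6) nil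
  (node (nat_lit 3) (nat_lit 104336) (nat_lit 6) nil nil))) (node (nat_lit 5) (nat_lit 103642)
  (nat_lit 5) nil (node (nat_lit 0) (nat_lit 107739) (nat_lit 5) nil (node (nat_lit 1) (nat_lit
  107739) (nat_lit 5) (node (nat_lit 4) (nat_lit 104215) (nat_lit 6) (node (nat_lit 5) (nat_lit
  94374) (nat_lit 7) nil nil) nil) (node (nat_lit 3) (nat_lit 102960) (nat_lit 5) (node (nat_lit
  4) (nat_lit 104500) (nat_lit 6) (node (nat_lit 5) (nat_lit 96490) (nat_lit 7) (node (nat_lit 4)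
  (nat_lit 78948) (nat_lit 8) nil nil) nil) (node (nat_lit 5) (nat_lit 108873) (nat_lit 6) nil
  (node (nat_lit 7) (nat_lit 104626) (nat_lit 6) nil nil))) nil))))) nil)))) (node (nat_lit 2)
  (nat_lit 0) (nat_lit 3) (node (nat_lit 1) (nat_lit 109974) (nat_lit 4) (node (nat_lit 4)
  (nat_lit 106782) (nat_lit 5) (node (nat_lit 5) (nat_lit 87274) (nat_lit 6) (node (nat_lit 6)
  (nat_lit 64266) (nat_lit 7) nil nil) nil) nil) (node (nat_lit 4) (nat_lit 0) (nat_lit 4) (node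
  (nat_lit 6) (nat_lit 103977) (nat_lit 5) (node (nat_lit 5) (nat_lit 113339) (nat_lit 6) (node
  (nat_lit 4) (nat_lit 113339) (nat_lit 7) nil nil) (node (nat_lit 1) (nat_lit 109440) (nat_lit 6)
  nil (node (nat_lit 3) (nat_lit 104643) (nat_lit 6) nil nil))) (node (nat_lit 1) (nat_lit 111537)
  (nat_lit 5) (node (nat_lit 4) (nat_lit 111537) (nat_lit 6) nil nil) (node (nat_lit 5) (nat_lit
  108478) (nat_lit 5) nil (node (nat_lit 0) (nat_lit 111537) (nat_lit 5) nil (node (nat_lit 3)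
  (nat_lit 104125) (nat_lit 5) (node (nat_lit 4) (nat_lit 102935) (nat_lit 6) nil (node (nat_lit
  6) (nat_lit 104970) (nat_lit 6) (node (nat_lit 5) (nat_lit 109347) (nat_lit 7) nil nil) (node
  (nat_lit 5) (nat_lit 109588) (nat_lit 6) nil nil))) nil))))) (node (nat_lit 5) (nat_lit 110465)
  (nat_lit 4) (node (nat_lit 4) (nat_lit 110430) (nat_lit 5) nil (node (nat_lit 1) (nat_lit
  110923) (nat_lit 5) nil (node (nat_lit 3) (nat_lit 110465) (nat_lit 5) nil nil))) (node (nat_lit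
  0) (nat_lit 109974) (nat_lit 4) nil (node (nat_lit 3) (nat_lit 102120) (nat_lit 4) (node
  (nat_lit 1) (nat_lit 108477) (nat_lit 5) nil (node (nat_lit 5) (nat_lit 111100) (nat_lit 5) nil
  (node (nat_lit 4) (nat_lit 103493) (nat_lit 5) (node (nat_lit 5) (nat_lit 94079) (nat_lit 6)
  (node (nat_lit 6) (nat_lit 85091) (nat_lit 7) nil nil) nil) nil))) nil))))) nil))))) (node
  (nat_lit 2) (nat_lit 0) (nat_lit 2) (node (nat_lit 1) (nat_lit 0) (nat_lit 3) (node (nat_lit 4)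
  (nat_lit 0) (nat_lit 4) (node (nat_lit 5) (nat_lit 57115) (nat_lit 5) (node (nat_lit 4) (nat_lit
  59638) (nat_lit 6) (node (nat_lit 6) (nat_lit 62557) (nat_lit 7) (node (nat_lit 4) (nat_lit
  62961) (nat_lit 8) (node (nat_lit 5) (nat_lit 63454) (nat_lit 9) (node (nat_lit 6) (nat_lit
  64306) (nat_lit 10) nil nil) nil) nil) (node (nat_lit 1) (nat_lit 63128) (nat_lit 7) nil (node
  (nat_lit 3) (nat_lit 61182) (nat_lit 7) (node (nat_lit 4) (nat_lit 54846) (nat_lit 8) nil nil)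
  nil))) (node (nat_lit 0) (nat_lit 61443) (nat_lit 6) nil (node (nat_lit 3) (nat_lit 57934)
  (nat_lit 6) (node (nat_lit 4) (nat_lit 53052) (nat_lit 7) (node (nat_lit 5) (nat_lit 42713)
  (nat_lit 8) (node (nat_lit 6) (nat_lit 42925) (nat_lit 9) nil nil) nil) nil) (node (nat_lit 1)
  (nat_lit 61443) (nat_lit 6) (node (nat_lit 4) (nat_lit 60022) (nat_lit 7) nil nil) nil)))) (node
  (nat_lit 6) (nat_lit 71050) (nat_lit 5) (node (nat_lit 5) (nat_lit 82487) (nat_lit 6) (node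
  (nat_lit 4) (nat_lit 86522) (nat_lit 7) (node (nat_lit 5) (nat_lit 89942) (nat_lit 8) (node
  (nat_lit 6) (nat_lit 90882) (nat_lit 9) nil nil) (node (nat_lit 6) (nat_lit 89301) (nat_lit 8)
  (node (nat_lit 4) (nat_lit 90666) (nat_lit 9) (node (nat_lit 5) (nat_lit 92537) (nat_lit 10)
  (node (nat_lit 6) (nat_lit 91715) (nat_lit 11) (node (nat_lit 4) (nat_lit 85491) (nat_lit 12)
  (node (nat_lit 6) (nat_lit 79306) (nat_lit 13) (node (nat_lit 5) (nat_lit 69893) (nat_lit 14)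
  (node (nat_lit 4) (nat_lit 59159) (nat_lit 15) nil nil) nil) nil) nil) nil) nil) nil) (node
  (nat_lit 0) (nat_lit 91040) (nat_lit 8) nil (node (nat_lit 3) (nat_lit 91329) (nat_lit 8) nil
  (node (nat_lit 1) (nat_lit 91040) (nat_lit 8) nil nil))))) (node (nat_lit 6) (nat_lit 86566)
  (nat_lit 7) nil (node (nat_lit 0) (nat_lit 89739) (nat_lit 7) nil (node (nat_lit 1) (nat_lit
  89739) (nat_lit 7) nil (node (nat_lit 3) (nat_lit 89740) (nat_lit 7) nil nil))))) (node (nat_lit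
  0) (nat_lit 86391) (nat_lit 6) nil (node (nat_lit 1) (nat_lit 86391) (nat_lit 6) (node (nat_lit
  4) (nat_lit 89657) (nat_lit 7) (node (nat_lit 5) (nat_lit 89790) (nat_lit 8) (node (nat_lit 6)
  (nat_lit 90607) (nat_lit 9) (node (nat_lit 4) (nat_lit 90049) (nat_lit 10) (node (nat_lit 6)
  (nat_lit 44744) (nat_lit 11) nil nil) nil) nil) nil) nil) (node (nat_lit 3) (nat_lit 80480)
  (nat_lit 6) (node (nat_lit 4) (nat_lit 83953) (nat_lit 7) (node (nat_lit 5) (nat_lit 90505)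
  (nat_lit 8) (node (nat_lit 6) (nat_lit 91323) (nat_lit 9) (node (nat_lit 4) (nat_lit 90765)
  (nat_lit 10) (node (nat_lit 6) (nat_lit 62184) (nat_lit 11) nil nil) nil) nil) nil) (node
  (nat_lit 5) (nat_lit 89447) (nat_lit 7) nil nil)) nil)))) (node (nat_lit 0) (nat_lit 83100)
  (nat_lit 5) (node (nat_lit 5) (nat_lit 88323) (nat_lit 6) nil (node (nat_lit 6) (nat_lit 87318)
  (nat_lit 6) (node (nat_lit 4) (nat_lit 89120) (nat_lit 7) nil nil) (node (nat_lit 4) (nat_lit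
  87420) (nat_lit 6) nil nil))) (node (nat_lit 1) (nat_lit 83100) (nat_lit 5) (node (nat_lit 6)
  (nat_lit 87318) (nat_lit 6) (node (nat_lit 4) (nat_lit 89120) (nat_lit 7) nil nil) (node
  (nat_lit 4) (nat_lit 87420) (nat_lit 6) (node (nat_lit 5) (nat_lit 85254) (nat_lit 7) (node
  (nat_lit 6) (nat_lit 79286) (nat_lit 8) (node (nat_lit 4) (nat_lit 42812) (nat_lit 9) nil nil)
  nil) nil) (node (nat_lit 5) (nat_lit 88323) (nat_lit 6) nil (node (nat_lit 3) (nat_lit 87239)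
  (nat_lit 6) nil nil)))) (node (nat_lit 3) (nat_lit 76120) (nat_lit 5) (node (nat_lit 6) (nat_lit
  79385) (nat_lit 6) (node (nat_lit 5) (nat_lit 87456) (nat_lit 7) nil (node (nat_lit 8) (nat_lit
  81519) (nat_lit 7) (node (nat_lit 4) (nat_lit 82776) (nat_lit 8) nil nil) (node (nat_lit 4)
  (nat_lit 81433) (nat_lit 7) (node (nat_lit 5) (nat_lit 82331) (nat_lit 8) nil nil) (node
  (nat_lit 1) (nat_lit 86209) (nat_lit 7) nil nil)))) (node (nat_lit 4) (nat_lit 72778) (nat_lit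
  6) (node (nat_lit 5) (nat_lit 80281) (nat_lit 7) (node (nat_lit 6) (nat_lit 72635) (nat_lit 8)
  (node (nat_lit 4) (nat_lit 62380) (nat_lit 9) nil nil) nil) (node (nat_lit 6) (nat_lit 74757)
  (nat_lit 7) (node (nat_lit 8) (nat_lit 76048) (nat_lit 8) nil nil) nil)) (node (nat_lit 5)
  (nat_lit 85651) (nat_lit 6) nil (node (nat_lit 1) (nat_lit 84987) (nat_lit 6) nil nil))))
  nil))))) (node (nat_lit 1) (nat_lit 0) (nat_lit 4) (node (nat_lit 5) (nat_lit 97696) (nat_lit 5)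
  (node (nat_lit 7) (nat_lit 100190) (nat_lit 6) (node (nat_lit 6) (nat_lit 101857) (nat_lit 7)
  nil (node (nat_lit 4) (nat_lit 99483) (nat_lit 7) (node (nat_lit 5) (nat_lit 97257) (nat_lit 8)
  (node (nat_lit 6) (nat_lit 94309) (nat_lit 9) (node (nat_lit 7) (nat_lit 80100) (nat_lit 10)
  (node (nat_lit 5) (nat_lit 56530) (nat_lit 11) nil nil) nil) nil) nil) nil)) (node (nat_lit 4)
  (nat_lit 96794) (nat_lit 6) nil (node (nat_lit 3) (nat_lit 96982) (nat_lit 6) (node (nat_lit 6)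
  (nat_lit 98648) (nat_lit 7) nil (node (nat_lit 7) (nat_lit 94146) (nat_lit 7) nil (node (nat_lit
  4) (nat_lit 86873) (nat_lit 7) nil nil))) (node (nat_lit 6) (nat_lit 99982) (nat_lit 6) nil
  nil)))) (node (nat_lit 6) (nat_lit 98815) (nat_lit 5) (node (nat_lit 4) (nat_lit 100250)
  (nat_lit 6) (node (nat_lit 7) (nat_lit 101916) (nat_lit 7) nil (node (nat_lit 5) (nat_lit 97169)
  (nat_lit 7) (node (nat_lit 6) (nat_lit 98265) (nat_lit 8) (node (nat_lit 7) (nat_lit 59012)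
  (nat_lit 9) nil nil) nil) nil)) nil) (node (nat_lit 3) (nat_lit 97885) (nat_lit 5) nil (node
  (nat_lit 4) (nat_lit 98130) (nat_lit 5) (node (nat_lit 6) (nat_lit 100416) (nat_lit 6) nil (node
  (nat_lit 5) (nat_lit 97227) (nat_lit 6) (node (nat_lit 6) (nat_lit 57085) (nat_lit 7) nil nil)
  (node (nat_lit 3) (nat_lit 90620) (nat_lit 6) nil nil))) (node (nat_lit 0) (nat_lit 97408)
  (nat_lit 5) nil nil))))) (node (nat_lit 3) (nat_lit 0) (nat_lit 4) (node (nat_lit 5) (nat_lit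
  96465) (nat_lit 5) (node (nat_lit 7) (nat_lit 99939) (nat_lit 6) (node (nat_lit 4) (nat_lit
  97833) (nat_lit 7) (node (nat_lit 5) (nat_lit 95769) (nat_lit 8) (node (nat_lit 6) (nat_lit
  89663) (nat_lit 9) (node (nat_lit 7) (nat_lit 78602) (nat_lit 10) nil nil) nil) nil) nil) (node
  (nat_lit 1) (nat_lit 100265) (nat_lit 6) nil (node (nat_lit 6) (nat_lit 101204) (nat_lit 6) nil
  nil))) (node (nat_lit 6) (nat_lit 93821) (nat_lit 5) (node (nat_lit 5) (nat_lit 99211) (nat_lit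
  6) nil (node (nat_lit 4) (nat_lit 100748) (nat_lit 6) (node (nat_lit 5) (nat_lit 100041)
  (nat_lit 7) (node (nat_lit 6) (nat_lit 76629) (nat_lit 8) (node (nat_lit 7) (nat_lit 60495)
  (nat_lit 9) nil nil) nil) nil) nil)) (node (nat_lit 1) (nat_lit 96600) (nat_lit 5) nil (node
  (nat_lit 4) (nat_lit 99313) (nat_lit 5) (node (nat_lit 6) (nat_lit 101600) (nat_lit 6) nil (node
  (nat_lit 5) (nat_lit 100388) (nat_lit 6) (node (nat_lit 6) (nat_lit 73334) (nat_lit 7) nil nil)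
  nil)) (node (nat_lit 0) (nat_lit 99005) (nat_lit 5) nil nil))))) (node (nat_lit 5) (nat_lit 0)
  (nat_lit 4) (node (nat_lit 4) (nat_lit 83217) (nat_lit 5) (node (nat_lit 6) (nat_lit 86029)
  (nat_lit 6) (node (nat_lit 4) (nat_lit 93315) (nat_lit 7) (node (nat_lit 5) (nat_lit 99385)
  (nat_lit 8) (node (nat_lit 6) (nat_lit 94618) (nat_lit 9) (node (nat_lit 5) (nat_lit 90512)
  (nat_lit 10) (node (nat_lit 4) (nat_lit 63834) (nat_lit 11) nil nil) nil) nil) nil) (node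
  (nat_lit 5) (nat_lit 93532) (nat_lit 7) nil nil)) (node (nat_lit 5) (nat_lit 86002) (nat_lit 6)
  (node (nat_lit 6) (nat_lit 93522) (nat_lit 7) nil (node (nat_lit 1) (nat_lit 102048) (nat_lit 7)
  nil (node (nat_lit 3) (nat_lit 96945) (nat_lit 7) nil nil))) (node (nat_lit 0) (nat_lit 101454)
  (nat_lit 6) nil (node (nat_lit 1) (nat_lit 101454) (nat_lit 6) nil (node (nat_lit 3) (nat_lit
  100079) (nat_lit 6) (node (nat_lit 4) (nat_lit 97417) (nat_lit 7) (node (nat_lit 5) (nat_lit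
  85615) (nat_lit 8) (node (nat_lit 6) (nat_lit 79873) (nat_lit 9) nil nil) nil) nil) nil)))))
  (node (nat_lit 0) (nat_lit 98859) (nat_lit 5) nil (node (nat_lit 3) (nat_lit 95610) (nat_lit 5)
  (node (nat_lit 4) (nat_lit 100536) (nat_lit 6) (node (nat_lit 5) (nat_lit 93749) (nat_lit 7)
  (node (nat_lit 6) (nat_lit 77124) (nat_lit 8) nil nil) nil) nil) (node (nat_lit 1) (nat_lit
  98641) (nat_lit 5) (node (nat_lit 6) (nat_lit 100928) (nat_lit 6) nil (node (nat_lit 4) (nat_lit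
  97739) (nat_lit 6) (node (nat_lit 5) (nat_lit 90090) (nat_lit 7) (node (nat_lit 6) (nat_lit
  75471) (nat_lit 8) (node (nat_lit 5) (nat_lit 56456) (nat_lit 9) nil nil) nil) nil) nil))
  nil)))) (node (nat_lit 0) (nat_lit 93722) (nat_lit 4) (node (nat_lit 6) (nat_lit 99306) (nat_lit
  5) (node (nat_lit 4) (nat_lit 98404) (nat_lit 6) (node (nat_lit 5) (nat_lit 95322) (nat_lit 7)
  (node (nat_lit 6) (nat_lit 96418) (nat_lit 8) nil nil) nil) nil) (node (nat_lit 5) (nat_lit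
  98788) (nat_lit 5) (node (nat_lit 6) (nat_lit 101075) (nat_lit 6) nil nil) (node (nat_lit 4)
  (nat_lit 99165) (nat_lit 5) nil (node (nat_lit 3) (nat_lit 97648) (nat_lit 5) nil (node (nat_lit
  1) (nat_lit 97946) (nat_lit 5) nil nil))))) nil))))) t146) nil))

noncomputable def c1 : Tr :=
  (node (nat_lit 1) (nat_lit 0) (nat_lit 1) (node (nat_lit 1) (nat_lit 0) (nat_lit 2) t135 (node
  (nat_lit 3) (nat_lit 0) (nat_lit 2) (node (nat_lit 4) (nat_lit 0) (nat_lit 3) (node (nat_lit 0)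
  (nat_lit 43346) (nat_lit 4) (node (nat_lit 1) (nat_lit 44900) (nat_lit 5) nil nil) (node
  (nat_lit 2) (nat_lit 0) (nat_lit 4) (node (nat_lit 5) (nat_lit 43827) (nat_lit 5) (node (nat_lit
  7) (nat_lit 42743) (nat_lit 6) (node (nat_lit 4) (nat_lit 43340) (nat_lit 7) nil nil) (node
  (nat_lit 1) (nat_lit 43516) (nat_lit 6) (node (nat_lit 4) (nat_lit 39459) (nat_lit 7) (node
  (nat_lit 5) (nat_lit 34627) (nat_lit 8) (node (nat_lit 4) (nat_lit 28398) (nat_lit 9) nil nil)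
  nil) nil) (node (nat_lit 0) (nat_lit 44900) (nat_lit 6) nil (node (nat_lit 2) (nat_lit 42743)
  (nat_lit 6) nil nil)))) (node (nat_lit 4) (nat_lit 43971) (nat_lit 5) nil (node (nat_lit 1)
  (nat_lit 44900) (nat_lit 5) (node (nat_lit 4) (nat_lit 42250) (nat_lit 6) (node (nat_lit 5)
  (nat_lit 34785) (nat_lit 7) (node (nat_lit 8) (nat_lit 35132) (nat_lit 8) nil (node (nat_lit 4)
  (nat_lit 10737) (nat_lit 8) nil (node (nat_lit 7) (nat_lit 33855) (nat_lit 8) nil nil))) nil)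
  (node (nat_lit 5) (nat_lit 44681) (nat_lit 6) nil nil)) (node (nat_lit 0) (nat_lit 43971)
  (nat_lit 5) nil (node (nat_lit 2) (nat_lit 43827) (nat_lit 5) nil nil))))) (node (nat_lit 1)
  (nat_lit 0) (nat_lit 4) (node (nat_lit 5) (nat_lit 0) (nat_lit 5) (node (nat_lit 7) (nat_lit
  35974) (nat_lit 6) (node (nat_lit 4) (nat_lit 43368) (nat_lit 7) (node (nat_lit 5) (nat_lit
  42667) (nat_lit 8) (node (nat_lit 4) (nat_lit 41464) (nat_lit 9) (node (nat_lit 7) (nat_lit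
  24262) (nat_lit 10) nil nil) nil) nil) nil) (node (nat_lit 0) (nat_lit 37323) (nat_lit 6) nil
  (node (nat_lit 2) (nat_lit 39544) (nat_lit 6) nil (node (nat_lit 4) (nat_lit 35983) (nat_lit 6)
  (node (nat_lit 5) (nat_lit 43596) (nat_lit 7) nil nil) nil)))) (node (nat_lit 0) (nat_lit 44900)
  (nat_lit 5) nil (node (nat_lit 2) (nat_lit 44900) (nat_lit 5) (node (nat_lit 5) (nat_lit 44265)
  (nat_lit 6) nil (node (nat_lit 7) (nat_lit 44900) (nat_lit 6) (node (nat_lit 4) (nat_lit 41183)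
  (nat_lit 7) nil nil) (node (nat_lit 4) (nat_lit 44900) (nat_lit 6) nil nil))) (node (nat_lit 4)
  (nat_lit 0) (nat_lit 5) (node (nat_lit 5) (nat_lit 35966) (nat_lit 6) (node (nat_lit 7) (nat_lit
  44802) (nat_lit 7) nil (node (nat_lit 0) (nat_lit 44900) (nat_lit 7) nil (node (nat_lit 2)
  (nat_lit 44900) (nat_lit 7) nil nil))) (node (nat_lit 0) (nat_lit 41962) (nat_lit 6) nil (node
  (nat_lit 2) (nat_lit 44545) (nat_lit 6) nil nil))) nil)))) nil))) t136) t139)) (node (nat_lit 0)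
  (nat_lit 0) (nat_lit 1) t140 (node (nat_lit 3) (nat_lit 0) (nat_lit 1) (node (nat_lit 1)
  (nat_lit 0) (nat_lit 2) t141 (node (nat_lit 0) (nat_lit 0) (nat_lit 2) (node (nat_lit 1)
  (nat_lit 0) (nat_lit 3) (node (nat_lit 4) (nat_lit 82101) (nat_lit 4) (node (nat_lit 6) (nat_lit
  83796) (nat_lit 5) nil (node (nat_lit 5) (nat_lit 42795) (nat_lit 5) (node (nat_lit 4) (nat_lit
  43938) (nat_lit 6) nil nil) nil)) (node (nat_lit 5) (nat_lit 82173) (nat_lit 4) (node (nat_lit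
  4) (nat_lit 83864) (nat_lit 5) (node (nat_lit 6) (nat_lit 85243) (nat_lit 6) (node (nat_lit 4)
  (nat_lit 86798) (nat_lit 7) (node (nat_lit 5) (nat_lit 86847) (nat_lit 8) (node (nat_lit 6)
  (nat_lit 81981) (nat_lit 9) (node (nat_lit 5) (nat_lit 73936) (nat_lit 10) (node (nat_lit 4)
  (nat_lit 42112) (nat_lit 11) nil nil) nil) nil) nil) nil) nil) (node (nat_lit 1) (nat_lit 89270)
  (nat_lit 5) nil nil)) (node (nat_lit 1) (nat_lit 85369) (nat_lit 4) (node (nat_lit 5) (nat_lit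
  88783) (nat_lit 5) (node (nat_lit 7) (nat_lit 89926) (nat_lit 6) nil nil) (node (nat_lit 4)
  (nat_lit 87412) (nat_lit 5) nil nil)) (node (nat_lit 0) (nat_lit 86390) (nat_lit 4) nil (node
  (nat_lit 2) (nat_lit 84906) (nat_lit 4) (node (nat_lit 6) (nat_lit 86749) (nat_lit 5) nil nil)
  nil))))) (node (nat_lit 4) (nat_lit 0) (nat_lit 3) (node (nat_lit 1) (nat_lit 73146) (nat_lit 4)
  (node (nat_lit 4) (nat_lit 74495) (nat_lit 5) (node (nat_lit 5) (nat_lit 63056) (nat_lit 6)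
  (node (nat_lit 4) (nat_lit 40121) (nat_lit 7) nil nil) nil) (node (nat_lit 5) (nat_lit 75526)
  (nat_lit 5) (node (nat_lit 7) (nat_lit 77064) (nat_lit 6) nil nil) (node (nat_lit 1) (nat_lit
  80469) (nat_lit 5) nil nil))) (node (nat_lit 0) (nat_lit 82180) (nat_lit 4) nil (node (nat_lit
  2) (nat_lit 78121) (nat_lit 4) nil nil))) (node (nat_lit 0) (nat_lit 0) (nat_lit 3) (node
  (nat_lit 5) (nat_lit 89672) (nat_lit 4) nil (node (nat_lit 1) (nat_lit 89448) (nat_lit 4) (node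
  (nat_lit 4) (nat_lit 88923) (nat_lit 5) (node (nat_lit 5) (nat_lit 89770) (nat_lit 6) nil nil)
  nil) (node (nat_lit 4) (nat_lit 88769) (nat_lit 4) (node (nat_lit 5) (nat_lit 91330) (nat_lit 5)
  nil nil) (node (nat_lit 0) (nat_lit 89672) (nat_lit 4) nil (node (nat_lit 2) (nat_lit 80202)
  (nat_lit 4) nil nil))))) (node (nat_lit 2) (nat_lit 0) (nat_lit 3) (node (nat_lit 5) (nat_lit
  86046) (nat_lit 4) nil (node (nat_lit 1) (nat_lit 84701) (nat_lit 4) (node (nat_lit 4) (nat_lit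
  76568) (nat_lit 5) (node (nat_lit 5) (nat_lit 60666) (nat_lit 6) (node (nat_lit 6) (nat_lit
  40034) (nat_lit 7) nil nil) nil) nil) (node (nat_lit 4) (nat_lit 86050) (nat_lit 4) (node
  (nat_lit 5) (nat_lit 89474) (nat_lit 5) nil nil) (node (nat_lit 0) (nat_lit 84649) (nat_lit 4)
  nil (node (nat_lit 2) (nat_lit 87023) (nat_lit 4) nil nil))))) nil)))) (node (nat_lit 2)
  (nat_lit 0) (nat_lit 2) t142 nil))) (node (nat_lit 2) (nat_lit 0) (nat_lit 1) (node (nat_lit 1)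
  (nat_lit 0) (nat_lit 2) t144 (node (nat_lit 3) (nat_lit 0) (nat_lit 2) t145 t147)) nil))))

noncomputable def t148 : Tr :=
  (node (nat_lit 4) (nat_lit 0) (nat_lit 5) (node (nat_lit 7) (nat_lit 0) (nat_lit 6) (node
  (nat_lit 6) (nat_lit 129776) (nat_lit 7) (node (nat_lit 4) (nat_lit 129776) (nat_lit 8) (node
  (nat_lit 6) (nat_lit 130422) (nat_lit 9) (node (nat_lit 5) (nat_lit 136744) (nat_lit 10) (node
  (nat_lit 6) (nat_lit 136744) (nat_lit 11) nil (node (nat_lit 4) (nat_lit 134241) (nat_lit 11)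
  (node (nat_lit 5) (nat_lit 130870) (nat_lit 12) (node (nat_lit 6) (nat_lit 131658) (nat_lit 13)
  nil nil) (node (nat_lit 6) (nat_lit 134241) (nat_lit 12) nil nil)) nil)) (node (nat_lit 7)
  (nat_lit 130804) (nat_lit 10) (node (nat_lit 4) (nat_lit 129821) (nat_lit 11) (node (nat_lit 6)
  (nat_lit 128250) (nat_lit 12) (node (nat_lit 5) (nat_lit 130836) (nat_lit 13) nil nil) (node
  (nat_lit 7) (nat_lit 127255) (nat_lit 12) nil nil)) (node (nat_lit 6) (nat_lit 125705) (nat_lit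
  11) (node (nat_lit 4) (nat_lit 125917) (nat_lit 12) (node (nat_lit 5) (nat_lit 127860) (nat_lit
  13) nil nil) nil) (node (nat_lit 5) (nat_lit 132487) (nat_lit 11) nil nil))) nil)) (node
  (nat_lit 5) (nat_lit 130236) (nat_lit 9) (node (nat_lit 6) (nat_lit 126985) (nat_lit 10) (node
  (nat_lit 7) (nat_lit 99356) (nat_lit 11) (node (nat_lit 4) (nat_lit 81848) (nat_lit 12) nil nil)
  (node (nat_lit 5) (nat_lit 128077) (nat_lit 11) nil nil)) (node (nat_lit 4) (nat_lit 130236)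
  (nat_lit 10) (node (nat_lit 6) (nat_lit 130236) (nat_lit 11) nil nil) nil)) (node (nat_lit 7)
  (nat_lit 129776) (nat_lit 9) nil (node (nat_lit 0) (nat_lit 136807) (nat_lit 9) nil nil))))
  (node (nat_lit 7) (nat_lit 129776) (nat_lit 8) (node (nat_lit 4) (nat_lit 128962) (nat_lit 9)
  (node (nat_lit 6) (nat_lit 127656) (nat_lit 10) (node (nat_lit 5) (nat_lit 132322) (nat_lit 11)
  nil (node (nat_lit 4) (nat_lit 129177) (nat_lit 11) nil nil)) (node (nat_lit 5) (nat_lit 136305)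
  (nat_lit 10) nil (node (nat_lit 0) (nat_lit 136305) (nat_lit 10) nil nil))) (node (nat_lit 5)
  (nat_lit 136807) (nat_lit 9) (node (nat_lit 4) (nat_lit 135935) (nat_lit 10) nil nil) (node
  (nat_lit 0) (nat_lit 136807) (nat_lit 9) nil nil))) (node (nat_lit 5) (nat_lit 136405) (nat_lit
  8) (node (nat_lit 4) (nat_lit 136405) (nat_lit 9) (node (nat_lit 5) (nat_lit 127338) (nat_lit
  10) (node (nat_lit 6) (nat_lit 127639) (nat_lit 11) (node (nat_lit 7) (nat_lit 113658) (nat_lit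
  12) (node (nat_lit 4) (nat_lit 94595) (nat_lit 13) (node (nat_lit 7) (nat_lit 75101) (nat_lit
  14) nil nil) nil) nil) nil) (node (nat_lit 6) (nat_lit 136405) (nat_lit 10) nil nil)) nil) (node
  (nat_lit 0) (nat_lit 136405) (nat_lit 8) (node (nat_lit 5) (nat_lit 136807) (nat_lit 9) nil
  (node (nat_lit 6) (nat_lit 136405) (nat_lit 9) nil nil)) nil)))) (node (nat_lit 5) (nat_lit
  142474) (nat_lit 7) (node (nat_lit 4) (nat_lit 137710) (nat_lit 8) (node (nat_lit 5) (nat_lit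
  129103) (nat_lit 9) (node (nat_lit 6) (nat_lit 125911) (nat_lit 10) (node (nat_lit 7) (nat_lit
  104022) (nat_lit 11) (node (nat_lit 4) (nat_lit 71916) (nat_lit 12) nil nil) nil) (node (nat_lit
  7) (nat_lit 129103) (nat_lit 10) (node (nat_lit 5) (nat_lit 129439) (nat_lit 11) (node (nat_lit
  4) (nat_lit 129439) (nat_lit 12) nil nil) nil) nil)) (node (nat_lit 6) (nat_lit 137710) (nat_lit
  9) nil nil)) (node (nat_lit 6) (nat_lit 142474) (nat_lit 8) (node (nat_lit 4) (nat_lit 142474)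
  (nat_lit 9) nil nil) nil)) (node (nat_lit 0) (nat_lit 142481) (nat_lit 7) (node (nat_lit 5)
  (nat_lit 142769) (nat_lit 8) nil (node (nat_lit 6) (nat_lit 141954) (nat_lit 8) nil nil)) nil)))
  (node (nat_lit 6) (nat_lit 0) (nat_lit 6) (node (nat_lit 7) (nat_lit 0) (nat_lit 7) (node
  (nat_lit 6) (nat_lit 129776) (nat_lit 8) (node (nat_lit 4) (nat_lit 128962) (nat_lit 9) (node
  (nat_lit 6) (nat_lit 130191) (nat_lit 10) (node (nat_lit 5) (nat_lit 131874) (nat_lit 11) (node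
  (nat_lit 6) (nat_lit 131874) (nat_lit 12) nil (node (nat_lit 4) (nat_lit 130853) (nat_lit 12)
  nil nil)) (node (nat_lit 0) (nat_lit 136103) (nat_lit 11) nil nil)) (node (nat_lit 7) (nat_lit
  130191) (nat_lit 10) (node (nat_lit 4) (nat_lit 129208) (nat_lit 11) (node (nat_lit 6) (nat_lit
  127638) (nat_lit 12) nil nil) (node (nat_lit 6) (nat_lit 129321) (nat_lit 11) nil nil)) (node
  (nat_lit 5) (nat_lit 125507) (nat_lit 10) (node (nat_lit 6) (nat_lit 122478) (nat_lit 11) (node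
  (nat_lit 7) (nat_lit 95682) (nat_lit 12) (node (nat_lit 4) (nat_lit 68106) (nat_lit 13) (node
  (nat_lit 6) (nat_lit 67419) (nat_lit 14) nil nil) nil) nil) nil) (node (nat_lit 0) (nat_lit
  136305) (nat_lit 10) nil nil)))) (node (nat_lit 5) (nat_lit 136807) (nat_lit 9) nil (node
  (nat_lit 0) (nat_lit 136807) (nat_lit 9) nil nil))) (node (nat_lit 5) (nat_lit 136405) (nat_lit
  8) (node (nat_lit 4) (nat_lit 134522) (nat_lit 9) (node (nat_lit 5) (nat_lit 120792) (nat_lit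
  10) (node (nat_lit 6) (nat_lit 111512) (nat_lit 11) (node (nat_lit 7) (nat_lit 97432) (nat_lit
  12) (node (nat_lit 4) (nat_lit 77344) (nat_lit 13) nil nil) nil) nil) (node (nat_lit 6) (nat_lit
  133685) (nat_lit 10) (node (nat_lit 4) (nat_lit 134467) (nat_lit 11) nil (node (nat_lit 5)
  (nat_lit 134284) (nat_lit 11) nil nil)) nil)) nil) (node (nat_lit 0) (nat_lit 136405) (nat_lit
  8) nil nil))) (node (nat_lit 4) (nat_lit 129776) (nat_lit 7) (node (nat_lit 7) (nat_lit 129776)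
  (nat_lit 8) (node (nat_lit 6) (nat_lit 129776) (nat_lit 9) (node (nat_lit 4) (nat_lit 131190)
  (nat_lit 10) (node (nat_lit 5) (nat_lit 127763) (nat_lit 11) (node (nat_lit 6) (nat_lit 119532)
  (nat_lit 12) (node (nat_lit 7) (nat_lit 109694) (nat_lit 13) (node (nat_lit 4) (nat_lit 98483)
  (nat_lit 14) (node (nat_lit 6) (nat_lit 86689) (nat_lit 15) nil nil) nil) nil) nil) (node
  (nat_lit 6) (nat_lit 130583) (nat_lit 11) nil nil)) (node (nat_lit 5) (nat_lit 133049) (nat_lit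
  10) nil nil)) (node (nat_lit 4) (nat_lit 129776) (nat_lit 9) (node (nat_lit 6) (nat_lit 128470)
  (nat_lit 10) nil nil) (node (nat_lit 5) (nat_lit 132641) (nat_lit 9) nil nil))) (node (nat_lit
  5) (nat_lit 125681) (nat_lit 8) (node (nat_lit 6) (nat_lit 105402) (nat_lit 9) (node (nat_lit 5)
  (nat_lit 106117) (nat_lit 10) (node (nat_lit 4) (nat_lit 106117) (nat_lit 11) (node (nat_lit 5)
  (nat_lit 106234) (nat_lit 12) nil nil) nil) (node (nat_lit 7) (nat_lit 82997) (nat_lit 10) (node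
  (nat_lit 4) (nat_lit 69186) (nat_lit 11) nil nil) nil)) (node (nat_lit 4) (nat_lit 125681)
  (nat_lit 9) (node (nat_lit 6) (nat_lit 125095) (nat_lit 10) nil nil) nil)) (node (nat_lit 0)
  (nat_lit 136405) (nat_lit 8) nil nil))) (node (nat_lit 5) (nat_lit 138529) (nat_lit 7) (node
  (nat_lit 4) (nat_lit 138529) (nat_lit 8) (node (nat_lit 5) (nat_lit 126902) (nat_lit 9) (node
  (nat_lit 6) (nat_lit 122089) (nat_lit 10) (node (nat_lit 7) (nat_lit 104490) (nat_lit 11) (node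
  (nat_lit 4) (nat_lit 54092) (nat_lit 12) nil nil) nil) nil) (node (nat_lit 6) (nat_lit 138529)
  (nat_lit 9) (node (nat_lit 4) (nat_lit 138529) (nat_lit 10) (node (nat_lit 5) (nat_lit 139337)
  (nat_lit 11) (node (nat_lit 6) (nat_lit 134065) (nat_lit 12) nil nil) nil) nil) nil)) (node
  (nat_lit 6) (nat_lit 138529) (nat_lit 8) (node (nat_lit 4) (nat_lit 138529) (nat_lit 9) nil nil)
  nil)) (node (nat_lit 0) (nat_lit 138529) (nat_lit 7) (node (nat_lit 6) (nat_lit 138529) (nat_lit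
  8) nil nil) nil)))) (node (nat_lit 5) (nat_lit 137457) (nat_lit 6) (node (nat_lit 7) (nat_lit
  141685) (nat_lit 7) (node (nat_lit 5) (nat_lit 142354) (nat_lit 8) (node (nat_lit 4) (nat_lit
  136992) (nat_lit 9) (node (nat_lit 5) (nat_lit 132755) (nat_lit 10) (node (nat_lit 6) (nat_lit
  124454) (nat_lit 11) (node (nat_lit 7) (nat_lit 110719) (nat_lit 12) (node (nat_lit 4) (nat_lit
  95197) (nat_lit 13) (node (nat_lit 5) (nat_lit 68336) (nat_lit 14) nil nil) nil) nil) nil) nil)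
  nil) (node (nat_lit 6) (nat_lit 141685) (nat_lit 8) (node (nat_lit 4) (nat_lit 141685) (nat_lit
  9) (node (nat_lit 5) (nat_lit 138939) (nat_lit 10) (node (nat_lit 6) (nat_lit 128302) (nat_lit
  11) (node (nat_lit 7) (nat_lit 103523) (nat_lit 12) (node (nat_lit 4) (nat_lit 66436) (nat_lit
  13) nil nil) nil) nil) nil) nil) nil)) (node (nat_lit 4) (nat_lit 138845) (nat_lit 7) (node
  (nat_lit 6) (nat_lit 128878) (nat_lit 8) (node (nat_lit 5) (nat_lit 128421) (nat_lit 9) nil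
  (node (nat_lit 4) (nat_lit 127157) (nat_lit 9) (node (nat_lit 5) (nat_lit 122919) (nat_lit 10)
  nil nil) nil)) nil) (node (nat_lit 6) (nat_lit 141305) (nat_lit 7) (node (nat_lit 5) (nat_lit
  142354) (nat_lit 8) (node (nat_lit 4) (nat_lit 139560) (nat_lit 9) nil nil) nil) nil))) (node
  (nat_lit 0) (nat_lit 138464) (nat_lit 6) (node (nat_lit 6) (nat_lit 140972) (nat_lit 7) (node
  (nat_lit 4) (nat_lit 140972) (nat_lit 8) nil nil) (node (nat_lit 5) (nat_lit 141362) (nat_lit 7)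
  (node (nat_lit 4) (nat_lit 140587) (nat_lit 8) nil nil) nil)) nil)))) (node (nat_lit 5) (nat_lit
  0) (nat_lit 5) (node (nat_lit 7) (nat_lit 0) (nat_lit 6) (node (nat_lit 6) (nat_lit 118115)
  (nat_lit 7) (node (nat_lit 5) (nat_lit 119264) (nat_lit 8) (node (nat_lit 6) (nat_lit 127722)
  (nat_lit 9) (node (nat_lit 7) (nat_lit 132821) (nat_lit 10) (node (nat_lit 5) (nat_lit 134606)
  (nat_lit 11) (node (nat_lit 6) (nat_lit 135318) (nat_lit 12) nil nil) (node (nat_lit 6) (nat_lit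
  132173) (nat_lit 11) (node (nat_lit 5) (nat_lit 131420) (nat_lit 12) (node (nat_lit 4) (nat_lit
  132733) (nat_lit 13) nil nil) (node (nat_lit 4) (nat_lit 131694) (nat_lit 12) nil nil)) (node
  (nat_lit 4) (nat_lit 136706) (nat_lit 11) nil nil))) (node (nat_lit 4) (nat_lit 132653) (nat_lit
  10) (node (nat_lit 5) (nat_lit 133191) (nat_lit 11) (node (nat_lit 6) (nat_lit 132006) (nat_lit
  12) (node (nat_lit 7) (nat_lit 131103) (nat_lit 13) (node (nat_lit 5) (nat_lit 130773) (nat_lit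
  14) (node (nat_lit 7) (nat_lit 130999) (nat_lit 15) (node (nat_lit 6) (nat_lit 130586) (nat_lit
  16) (node (nat_lit 5) (nat_lit 53077) (nat_lit 17) nil nil) nil) nil) nil) nil) nil) nil) (node
  (nat_lit 0) (nat_lit 132653) (nat_lit 10) nil nil))) (node (nat_lit 4) (nat_lit 130485) (nat_lit
  9) (node (nat_lit 6) (nat_lit 131096) (nat_lit 10) (node (nat_lit 4) (nat_lit 131634) (nat_lit
  11) nil nil) (node (nat_lit 5) (nat_lit 121902) (nat_lit 10) (node (nat_lit 6) (nat_lit 117189)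
  (nat_lit 11) (node (nat_lit 7) (nat_lit 104954) (nat_lit 12) (node (nat_lit 5) (nat_lit 77344)
  (nat_lit 13) (node (nat_lit 7) (nat_lit 70020) (nat_lit 14) nil nil) nil) nil) nil) nil)) (node
  (nat_lit 0) (nat_lit 132045) (nat_lit 9) (node (nat_lit 5) (nat_lit 132656) (nat_lit 10) nil
  nil) (node (nat_lit 7) (nat_lit 126239) (nat_lit 9) nil nil)))) (node (nat_lit 7) (nat_lit
  119277) (nat_lit 8) (node (nat_lit 5) (nat_lit 125673) (nat_lit 9) (node (nat_lit 6) (nat_lit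
  127753) (nat_lit 10) (node (nat_lit 4) (nat_lit 131638) (nat_lit 11) nil (node (nat_lit 5)
  (nat_lit 127424) (nat_lit 11) nil (node (nat_lit 7) (nat_lit 128292) (nat_lit 11) nil nil)))
  (node (nat_lit 4) (nat_lit 131950) (nat_lit 10) (node (nat_lit 5) (nat_lit 125646) (nat_lit 11)
  nil nil) (node (nat_lit 0) (nat_lit 126284) (nat_lit 10) nil nil))) (node (nat_lit 4) (nat_lit
  137707) (nat_lit 9) (node (nat_lit 6) (nat_lit 138318) (nat_lit 10) nil (node (nat_lit 5)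
  (nat_lit 138318) (nat_lit 10) nil nil)) (node (nat_lit 0) (nat_lit 132056) (nat_lit 9) nil
  nil))) (node (nat_lit 4) (nat_lit 135099) (nat_lit 8) (node (nat_lit 5) (nat_lit 127300)
  (nat_lit 9) (node (nat_lit 6) (nat_lit 122543) (nat_lit 10) (node (nat_lit 7) (nat_lit 92711)
  (nat_lit 11) (node (nat_lit 5) (nat_lit 61710) (nat_lit 12) nil nil) nil) nil) (node (nat_lit 6)
  (nat_lit 136851) (nat_lit 9) (node (nat_lit 5) (nat_lit 133476) (nat_lit 10) (node (nat_lit 6)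
  (nat_lit 134650) (nat_lit 11) nil nil) nil) nil)) (node (nat_lit 0) (nat_lit 136151) (nat_lit 8)
  (node (nat_lit 6) (nat_lit 133780) (nat_lit 9) nil (node (nat_lit 5) (nat_lit 136955) (nat_lit
  9) nil nil)) nil)))) (node (nat_lit 4) (nat_lit 137988) (nat_lit 7) (node (nat_lit 5) (nat_lit
  138811) (nat_lit 8) (node (nat_lit 4) (nat_lit 137240) (nat_lit 9) (node (nat_lit 6) (nat_lit
  134631) (nat_lit 10) nil nil) nil) (node (nat_lit 6) (nat_lit 135067) (nat_lit 8) (node (nat_lit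
  5) (nat_lit 136587) (nat_lit 9) nil (node (nat_lit 4) (nat_lit 126471) (nat_lit 9) nil nil))
  nil)) (node (nat_lit 0) (nat_lit 137988) (nat_lit 7) (node (nat_lit 5) (nat_lit 139150) (nat_lit
  8) nil (node (nat_lit 6) (nat_lit 139150) (nat_lit 8) nil nil)) nil))) (node (nat_lit 6)
  (nat_lit 0) (nat_lit 6) (node (nat_lit 5) (nat_lit 118100) (nat_lit 7) (node (nat_lit 7)
  (nat_lit 119261) (nat_lit 8) (node (nat_lit 6) (nat_lit 126570) (nat_lit 9) (node (nat_lit 5)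
  (nat_lit 128528) (nat_lit 10) (node (nat_lit 4) (nat_lit 127477) (nat_lit 11) nil (node (nat_lit
  6) (nat_lit 129067) (nat_lit 11) nil nil)) (node (nat_lit 4) (nat_lit 131500) (nat_lit 10) (node
  (nat_lit 5) (nat_lit 124044) (nat_lit 11) nil nil) (node (nat_lit 7) (nat_lit 129406) (nat_lit
  10) nil nil))) (node (nat_lit 5) (nat_lit 126553) (nat_lit 9) (node (nat_lit 4) (nat_lit 131056)
  (nat_lit 10) nil (node (nat_lit 6) (nat_lit 129801) (nat_lit 10) nil nil)) (node (nat_lit 4)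
  (nat_lit 133895) (nat_lit 9) nil (node (nat_lit 0) (nat_lit 132038) (nat_lit 9) nil nil))))
  (node (nat_lit 4) (nat_lit 131117) (nat_lit 8) (node (nat_lit 6) (nat_lit 131920) (nat_lit 9)
  (node (nat_lit 4) (nat_lit 132531) (nat_lit 10) (node (nat_lit 5) (nat_lit 133070) (nat_lit 11)
  (node (nat_lit 6) (nat_lit 129586) (nat_lit 12) nil nil) nil) (node (nat_lit 7) (nat_lit 129974)
  (nat_lit 10) nil nil)) (node (nat_lit 5) (nat_lit 125166) (nat_lit 9) (node (nat_lit 6) (nat_lit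
  103058) (nat_lit 10) (node (nat_lit 7) (nat_lit 74357) (nat_lit 11) nil nil) nil) nil)) (node
  (nat_lit 0) (nat_lit 135210) (nat_lit 8) nil nil))) (node (nat_lit 4) (nat_lit 137918) (nat_lit
  7) (node (nat_lit 6) (nat_lit 139080) (nat_lit 8) (node (nat_lit 5) (nat_lit 139884) (nat_lit 9)
  (node (nat_lit 6) (nat_lit 140495) (nat_lit 10) nil (node (nat_lit 4) (nat_lit 132524) (nat_lit
  10) nil nil)) nil) (node (nat_lit 5) (nat_lit 139080) (nat_lit 8) (node (nat_lit 6) (nat_lit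
  136709) (nat_lit 9) (node (nat_lit 7) (nat_lit 134763) (nat_lit 10) (node (nat_lit 5) (nat_lit
  56841) (nat_lit 11) nil nil) nil) nil) nil)) (node (nat_lit 0) (nat_lit 137026) (nat_lit 7)
  (node (nat_lit 5) (nat_lit 138188) (nat_lit 8) nil nil) nil))) (node (nat_lit 4) (nat_lit 0)
  (nat_lit 6) (node (nat_lit 6) (nat_lit 128218) (nat_lit 7) (node (nat_lit 7) (nat_lit 127888)
  (nat_lit 8) (node (nat_lit 6) (nat_lit 120189) (nat_lit 9) nil nil) (node (nat_lit 4) (nat_lit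
  128510) (nat_lit 8) (node (nat_lit 5) (nat_lit 121019) (nat_lit 9) (node (nat_lit 6) (nat_lit
  114365) (nat_lit 10) nil nil) nil) nil)) (node (nat_lit 7) (nat_lit 127229) (nat_lit 7) (node
  (nat_lit 6) (nat_lit 129015) (nat_lit 8) (node (nat_lit 5) (nat_lit 126523) (nat_lit 9) (node
  (nat_lit 4) (nat_lit 124597) (nat_lit 10) nil nil) nil) (node (nat_lit 4) (nat_lit 129328)
  (nat_lit 8) (node (nat_lit 5) (nat_lit 131114) (nat_lit 9) nil nil) (node (nat_lit 5) (nat_lit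
  129254) (nat_lit 8) nil nil))) (node (nat_lit 5) (nat_lit 107723) (nat_lit 7) (node (nat_lit 6)
  (nat_lit 77344) (nat_lit 8) (node (nat_lit 4) (nat_lit 77344) (nat_lit 9) (node (nat_lit 6)
  (nat_lit 77344) (nat_lit 10) (node (nat_lit 5) (nat_lit 77344) (nat_lit 11) (node (nat_lit 6)
  (nat_lit 77344) (nat_lit 12) nil nil) nil) (node (nat_lit 7) (nat_lit 77344) (nat_lit 10) (node
  (nat_lit 5) (nat_lit 77344) (nat_lit 11) nil nil) nil)) (node (nat_lit 5) (nat_lit 77344)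
  (nat_lit 9) (node (nat_lit 4) (nat_lit 77344) (nat_lit 10) nil nil) (node (nat_lit 7) (nat_lit
  41870) (nat_lit 9) nil nil))) (node (nat_lit 7) (nat_lit 107723) (nat_lit 8) nil nil)) (node
  (nat_lit 0) (nat_lit 129219) (nat_lit 7) nil nil)))) (node (nat_lit 0) (nat_lit 137658) (nat_lit
  6) (node (nat_lit 5) (nat_lit 140988) (nat_lit 7) (node (nat_lit 4) (nat_lit 140756) (nat_lit 8)
  nil nil) (node (nat_lit 6) (nat_lit 139341) (nat_lit 7) (node (nat_lit 5) (nat_lit 141283)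
  (nat_lit 8) nil nil) (node (nat_lit 4) (nat_lit 139341) (nat_lit 7) nil nil))) nil)))) (node
  (nat_lit 6) (nat_lit 0) (nat_lit 5) (node (nat_lit 4) (nat_lit 0) (nat_lit 6) (node (nat_lit 6)
  (nat_lit 128051) (nat_lit 7) (node (nat_lit 7) (nat_lit 129776) (nat_lit 8) (node (nat_lit 4)
  (nat_lit 129776) (nat_lit 9) (node (nat_lit 6) (nat_lit 128470) (nat_lit 10) (node (nat_lit 5)
  (nat_lit 131458) (nat_lit 11) nil (node (nat_lit 4) (nat_lit 128900) (nat_lit 11) (node (nat_lit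
  5) (nat_lit 128207) (nat_lit 12) (node (nat_lit 6) (nat_lit 123839) (nat_lit 13) nil nil) nil)
  nil)) nil) (node (nat_lit 6) (nat_lit 127039) (nat_lit 9) (node (nat_lit 5) (nat_lit 129803)
  (nat_lit 10) nil (node (nat_lit 0) (nat_lit 131127) (nat_lit 10) nil nil)) (node (nat_lit 5)
  (nat_lit 131492) (nat_lit 9) nil nil))) (node (nat_lit 5) (nat_lit 130635) (nat_lit 8) (node
  (nat_lit 6) (nat_lit 132388) (nat_lit 9) (node (nat_lit 4) (nat_lit 133718) (nat_lit 10) nil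
  nil) (node (nat_lit 4) (nat_lit 129975) (nat_lit 9) (node (nat_lit 5) (nat_lit 116037) (nat_lit
  10) nil nil) nil)) nil)) (node (nat_lit 7) (nat_lit 127646) (nat_lit 7) (node (nat_lit 4)
  (nat_lit 129776) (nat_lit 8) (node (nat_lit 6) (nat_lit 129776) (nat_lit 9) (node (nat_lit 5)
  (nat_lit 130156) (nat_lit 10) nil (node (nat_lit 4) (nat_lit 127004) (nat_lit 10) (node (nat_lit
  5) (nat_lit 125371) (nat_lit 11) nil nil) (node (nat_lit 7) (nat_lit 125347) (nat_lit 10) nil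
  nil))) nil) (node (nat_lit 5) (nat_lit 129425) (nat_lit 8) (node (nat_lit 6) (nat_lit 128003)
  (nat_lit 9) (node (nat_lit 4) (nat_lit 129333) (nat_lit 10) nil nil) nil) (node (nat_lit 6)
  (nat_lit 129776) (nat_lit 8) (node (nat_lit 5) (nat_lit 130766) (nat_lit 9) nil nil) nil)))
  (node (nat_lit 5) (nat_lit 109246) (nat_lit 7) (node (nat_lit 4) (nat_lit 112964) (nat_lit 8)
  (node (nat_lit 6) (nat_lit 115098) (nat_lit 9) (node (nat_lit 5) (nat_lit 111723) (nat_lit 10)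
  nil (node (nat_lit 4) (nat_lit 109742) (nat_lit 10) (node (nat_lit 5) (nat_lit 100250) (nat_lit
  11) (node (nat_lit 6) (nat_lit 92833) (nat_lit 12) nil nil) nil) nil)) nil) (node (nat_lit 6)
  (nat_lit 79407) (nat_lit 8) (node (nat_lit 5) (nat_lit 80211) (nat_lit 9) (node (nat_lit 4)
  (nat_lit 80821) (nat_lit 10) nil nil) (node (nat_lit 7) (nat_lit 65891) (nat_lit 9) nil nil))
  (node (nat_lit 7) (nat_lit 112282) (nat_lit 8) nil nil))) (node (nat_lit 0) (nat_lit 127694)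
  (nat_lit 7) nil nil)))) (node (nat_lit 5) (nat_lit 0) (nat_lit 6) (node (nat_lit 6) (nat_lit
  118010) (nat_lit 7) (node (nat_lit 7) (nat_lit 119253) (nat_lit 8) (node (nat_lit 5) (nat_lit
  126758) (nat_lit 9) (node (nat_lit 6) (nat_lit 124811) (nat_lit 10) nil nil) (node (nat_lit 4)
  (nat_lit 136277) (nat_lit 9) nil nil)) (node (nat_lit 4) (nat_lit 136121) (nat_lit 8) (node
  (nat_lit 5) (nat_lit 136925) (nat_lit 9) (node (nat_lit 6) (nat_lit 134979) (nat_lit 10) nil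
  nil) nil) nil)) (node (nat_lit 7) (nat_lit 117942) (nat_lit 7) (node (nat_lit 5) (nat_lit
  119248) (nat_lit 8) (node (nat_lit 6) (nat_lit 127210) (nat_lit 9) nil (node (nat_lit 4)
  (nat_lit 130228) (nat_lit 9) nil nil)) (node (nat_lit 4) (nat_lit 136655) (nat_lit 8) (node
  (nat_lit 6) (nat_lit 135691) (nat_lit 9) (node (nat_lit 5) (nat_lit 132315) (nat_lit 10) nil
  nil) nil) (node (nat_lit 6) (nat_lit 119248) (nat_lit 8) (node (nat_lit 4) (nat_lit 126060)
  (nat_lit 9) nil nil) (node (nat_lit 0) (nat_lit 133420) (nat_lit 8) nil nil)))) (node (nat_lit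
  4) (nat_lit 125259) (nat_lit 7) (node (nat_lit 6) (nat_lit 128118) (nat_lit 8) (node (nat_lit 4)
  (nat_lit 129445) (nat_lit 9) (node (nat_lit 5) (nat_lit 127224) (nat_lit 10) nil nil) nil) (node
  (nat_lit 5) (nat_lit 114799) (nat_lit 8) (node (nat_lit 6) (nat_lit 101744) (nat_lit 9) (node
  (nat_lit 7) (nat_lit 70930) (nat_lit 10) nil nil) nil) nil)) (node (nat_lit 0) (nat_lit 132619)
  (nat_lit 7) nil nil)))) (node (nat_lit 0) (nat_lit 135008) (nat_lit 6) (node (nat_lit 6)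
  (nat_lit 138856) (nat_lit 7) (node (nat_lit 4) (nat_lit 140789) (nat_lit 8) nil (node (nat_lit
  5) (nat_lit 132957) (nat_lit 8) nil nil)) (node (nat_lit 7) (nat_lit 137945) (nat_lit 7) (node
  (nat_lit 6) (nat_lit 127978) (nat_lit 8) nil nil) (node (nat_lit 5) (nat_lit 134998) (nat_lit 7)
  (node (nat_lit 4) (nat_lit 133273) (nat_lit 8) nil nil) (node (nat_lit 4) (nat_lit 140789)
  (nat_lit 7) (node (nat_lit 6) (nat_lit 140789) (nat_lit 8) nil nil) nil)))) nil))) (node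
  (nat_lit 0) (nat_lit 0) (nat_lit 5) (node (nat_lit 7) (nat_lit 137921) (nat_lit 6) (node
  (nat_lit 6) (nat_lit 137725) (nat_lit 7) (node (nat_lit 8) (nat_lit 141482) (nat_lit 8) (node
  (nat_lit 6) (nat_lit 141482) (nat_lit 9) (node (nat_lit 4) (nat_lit 142513) (nat_lit 10) nil
  nil) (node (nat_lit 5) (nat_lit 142513) (nat_lit 9) nil nil)) (node (nat_lit 4) (nat_lit 140058)
  (nat_lit 8) (node (nat_lit 5) (nat_lit 121843) (nat_lit 9) nil nil) (node (nat_lit 5) (nat_lit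
  138564) (nat_lit 8) nil nil))) (node (nat_lit 4) (nat_lit 137322) (nat_lit 7) (node (nat_lit 6)
  (nat_lit 134154) (nat_lit 8) nil nil) (node (nat_lit 5) (nat_lit 144275) (nat_lit 7) (node
  (nat_lit 4) (nat_lit 139747) (nat_lit 8) (node (nat_lit 5) (nat_lit 118186) (nat_lit 9) nil nil)
  (node (nat_lit 6) (nat_lit 141369) (nat_lit 8) nil nil)) nil))) (node (nat_lit 6) (nat_lit
  139568) (nat_lit 6) (node (nat_lit 8) (nat_lit 145171) (nat_lit 7) (node (nat_lit 5) (nat_lit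
  145576) (nat_lit 8) nil nil) (node (nat_lit 4) (nat_lit 143646) (nat_lit 7) (node (nat_lit 5)
  (nat_lit 145576) (nat_lit 8) nil nil) (node (nat_lit 5) (nat_lit 144087) (nat_lit 7) (node
  (nat_lit 4) (nat_lit 136794) (nat_lit 8) nil nil) (node (nat_lit 7) (nat_lit 134694) (nat_lit 7)
  (node (nat_lit 6) (nat_lit 131526) (nat_lit 8) nil nil) nil)))) (node (nat_lit 5) (nat_lit
  140898) (nat_lit 6) (node (nat_lit 4) (nat_lit 141390) (nat_lit 7) (node (nat_lit 5) (nat_lit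
  143923) (nat_lit 8) (node (nat_lit 6) (nat_lit 142501) (nat_lit 9) nil nil) nil) (node (nat_lit
  6) (nat_lit 144275) (nat_lit 7) (node (nat_lit 4) (nat_lit 144906) (nat_lit 8) nil nil) nil))
  (node (nat_lit 4) (nat_lit 141049) (nat_lit 6) (node (nat_lit 6) (nat_lit 140853) (nat_lit 7)
  (node (nat_lit 5) (nat_lit 138311) (nat_lit 8) nil (node (nat_lit 4) (nat_lit 138165) (nat_lit
  8) nil nil)) nil) (node (nat_lit 0) (nat_lit 141181) (nat_lit 6) (node (nat_lit 5) (nat_lit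
  145028) (nat_lit 7) nil (node (nat_lit 6) (nat_lit 144906) (nat_lit 7) nil nil)) nil)))))
  nil))))

noncomputable def t149 : Tr :=
  (node (nat_lit 0) (nat_lit 0) (nat_lit 4) (node (nat_lit 4) (nat_lit 0) (nat_lit 5) (node
  (nat_lit 7) (nat_lit 0) (nat_lit 6) (node (nat_lit 6) (nat_lit 145708) (nat_lit 7) (node
  (nat_lit 4) (nat_lit 146870) (nat_lit 8) (node (nat_lit 6) (nat_lit 144499) (nat_lit 9) (node
  (nat_lit 5) (nat_lit 143579) (nat_lit 10) nil nil) (node (nat_lit 5) (nat_lit 147674) (nat_lit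
  9) (node (nat_lit 6) (nat_lit 145727) (nat_lit 10) (node (nat_lit 7) (nat_lit 146265) (nat_lit
  11) (node (nat_lit 4) (nat_lit 146753) (nat_lit 12) nil nil) nil) nil) nil)) (node (nat_lit 5)
  (nat_lit 146870) (nat_lit 8) (node (nat_lit 4) (nat_lit 145156) (nat_lit 9) (node (nat_lit 5)
  (nat_lit 141882) (nat_lit 10) (node (nat_lit 6) (nat_lit 132230) (nat_lit 11) (node (nat_lit 7)
  (nat_lit 111814) (nat_lit 12) nil nil) nil) nil) nil) nil)) (node (nat_lit 5) (nat_lit 145708)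
  (nat_lit 7) (node (nat_lit 4) (nat_lit 146870) (nat_lit 8) (node (nat_lit 5) (nat_lit 147674)
  (nat_lit 9) (node (nat_lit 6) (nat_lit 145727) (nat_lit 10) (node (nat_lit 7) (nat_lit 146265)
  (nat_lit 11) (node (nat_lit 4) (nat_lit 146753) (nat_lit 12) nil nil) nil) nil) (node (nat_lit
  6) (nat_lit 144076) (nat_lit 9) nil nil)) nil) (node (nat_lit 0) (nat_lit 145708) (nat_lit 7)
  nil (node (nat_lit 2) (nat_lit 138139) (nat_lit 7) nil nil)))) (node (nat_lit 6) (nat_lit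
  142376) (nat_lit 6) (node (nat_lit 7) (nat_lit 144364) (nat_lit 7) (node (nat_lit 6) (nat_lit
  141459) (nat_lit 8) (node (nat_lit 4) (nat_lit 142262) (nat_lit 9) (node (nat_lit 5) (nat_lit
  142873) (nat_lit 10) (node (nat_lit 6) (nat_lit 141324) (nat_lit 11) (node (nat_lit 7) (nat_lit
  141812) (nat_lit 12) (node (nat_lit 4) (nat_lit 142208) (nat_lit 13) (node (nat_lit 6) (nat_lit
  141521) (nat_lit 14) nil nil) nil) nil) nil) nil) nil) (node (nat_lit 5) (nat_lit 145526)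
  (nat_lit 8) (node (nat_lit 4) (nat_lit 146330) (nat_lit 9) (node (nat_lit 5) (nat_lit 146857)
  (nat_lit 10) (node (nat_lit 6) (nat_lit 145392) (nat_lit 11) (node (nat_lit 7) (nat_lit 145880)
  (nat_lit 12) nil nil) nil) nil) nil) nil)) (node (nat_lit 4) (nat_lit 142376) (nat_lit 7) (node
  (nat_lit 5) (nat_lit 134580) (nat_lit 8) (node (nat_lit 6) (nat_lit 119492) (nat_lit 9) (node
  (nat_lit 5) (nat_lit 119292) (nat_lit 10) (node (nat_lit 4) (nat_lit 116708) (nat_lit 11) (node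
  (nat_lit 5) (nat_lit 116078) (nat_lit 12) nil nil) nil) (node (nat_lit 7) (nat_lit 91276)
  (nat_lit 10) (node (nat_lit 4) (nat_lit 66960) (nat_lit 11) nil nil) nil)) nil) nil) (node
  (nat_lit 5) (nat_lit 138637) (nat_lit 7) nil nil))) (node (nat_lit 5) (nat_lit 142599) (nat_lit
  6) (node (nat_lit 7) (nat_lit 144364) (nat_lit 7) (node (nat_lit 6) (nat_lit 141459) (nat_lit 8)
  (node (nat_lit 4) (nat_lit 142262) (nat_lit 9) (node (nat_lit 5) (nat_lit 142873) (nat_lit 10)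
  nil nil) nil) (node (nat_lit 5) (nat_lit 145526) (nat_lit 8) (node (nat_lit 4) (nat_lit 146330)
  (nat_lit 9) (node (nat_lit 5) (nat_lit 146941) (nat_lit 10) (node (nat_lit 6) (nat_lit 145392)
  (nat_lit 11) (node (nat_lit 7) (nat_lit 145880) (nat_lit 12) (node (nat_lit 4) (nat_lit 146276)
  (nat_lit 13) (node (nat_lit 5) (nat_lit 146584) (nat_lit 14) nil nil) nil) nil) nil) nil) nil)
  nil)) (node (nat_lit 4) (nat_lit 144364) (nat_lit 7) (node (nat_lit 6) (nat_lit 140246) (nat_lit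
  8) nil nil) (node (nat_lit 6) (nat_lit 144364) (nat_lit 7) (node (nat_lit 5) (nat_lit 137095)
  (nat_lit 8) (node (nat_lit 4) (nat_lit 134425) (nat_lit 9) nil nil) nil) nil))) (node (nat_lit
  0) (nat_lit 142101) (nat_lit 6) (node (nat_lit 6) (nat_lit 139473) (nat_lit 7) (node (nat_lit 4)
  (nat_lit 140636) (nat_lit 8) nil nil) (node (nat_lit 5) (nat_lit 144898) (nat_lit 7) (node
  (nat_lit 4) (nat_lit 144223) (nat_lit 8) nil nil) nil)) (node (nat_lit 2) (nat_lit 140581)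
  (nat_lit 6) (node (nat_lit 6) (nat_lit 139059) (nat_lit 7) (node (nat_lit 4) (nat_lit 129733)
  (nat_lit 8) nil nil) (node (nat_lit 4) (nat_lit 138750) (nat_lit 7) (node (nat_lit 6) (nat_lit
  134462) (nat_lit 8) nil nil) (node (nat_lit 5) (nat_lit 144192) (nat_lit 7) (node (nat_lit 4)
  (nat_lit 133620) (nat_lit 8) nil nil) (node (nat_lit 7) (nat_lit 144364) (nat_lit 7) nil nil))))
  nil))))) (node (nat_lit 5) (nat_lit 0) (nat_lit 5) (node (nat_lit 7) (nat_lit 0) (nat_lit 6)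
  (node (nat_lit 6) (nat_lit 145046) (nat_lit 7) (node (nat_lit 5) (nat_lit 146209) (nat_lit 8)
  (node (nat_lit 6) (nat_lit 147012) (nat_lit 9) nil (node (nat_lit 4) (nat_lit 145365) (nat_lit
  9) (node (nat_lit 5) (nat_lit 141882) (nat_lit 10) (node (nat_lit 6) (nat_lit 132230) (nat_lit
  11) (node (nat_lit 7) (nat_lit 117401) (nat_lit 12) (node (nat_lit 5) (nat_lit 91078) (nat_lit
  13) (node (nat_lit 7) (nat_lit 77344) (nat_lit 14) nil nil) nil) nil) nil) nil) nil)) (node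
  (nat_lit 7) (nat_lit 146209) (nat_lit 8) (node (nat_lit 5) (nat_lit 147012) (nat_lit 9) nil nil)
  (node (nat_lit 4) (nat_lit 146209) (nat_lit 8) (node (nat_lit 5) (nat_lit 147012) (nat_lit 9)
  (node (nat_lit 6) (nat_lit 145066) (nat_lit 10) (node (nat_lit 7) (nat_lit 145604) (nat_lit 11)
  nil nil) nil) nil) nil))) (node (nat_lit 4) (nat_lit 145046) (nat_lit 7) (node (nat_lit 6)
  (nat_lit 142141) (nat_lit 8) nil nil) (node (nat_lit 0) (nat_lit 145046) (nat_lit 7) (node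
  (nat_lit 6) (nat_lit 142141) (nat_lit 8) nil (node (nat_lit 5) (nat_lit 146209) (nat_lit 8) nil
  nil)) (node (nat_lit 2) (nat_lit 144997) (nat_lit 7) (node (nat_lit 6) (nat_lit 140360) (nat_lit
  8) nil (node (nat_lit 5) (nat_lit 137777) (nat_lit 8) nil nil)) nil)))) (node (nat_lit 6)
  (nat_lit 138359) (nat_lit 6) (node (nat_lit 5) (nat_lit 140087) (nat_lit 7) (node (nat_lit 7)
  (nat_lit 143426) (nat_lit 8) (node (nat_lit 6) (nat_lit 141055) (nat_lit 9) (node (nat_lit 5)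
  (nat_lit 140135) (nat_lit 10) nil nil) nil) (node (nat_lit 4) (nat_lit 139516) (nat_lit 8) (node
  (nat_lit 5) (nat_lit 128447) (nat_lit 9) (node (nat_lit 6) (nat_lit 104595) (nat_lit 10) (node
  (nat_lit 7) (nat_lit 77344) (nat_lit 11) nil nil) nil) nil) nil)) (node (nat_lit 4) (nat_lit
  143514) (nat_lit 7) (node (nat_lit 6) (nat_lit 140609) (nat_lit 8) (node (nat_lit 5) (nat_lit
  139203) (nat_lit 9) (node (nat_lit 6) (nat_lit 139814) (nat_lit 10) nil (node (nat_lit 4)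
  (nat_lit 138120) (nat_lit 10) nil nil)) nil) (node (nat_lit 5) (nat_lit 144676) (nat_lit 8)
  (node (nat_lit 6) (nat_lit 142305) (nat_lit 9) (node (nat_lit 7) (nat_lit 142916) (nat_lit 10)
  (node (nat_lit 5) (nat_lit 66110) (nat_lit 11) nil nil) nil) nil) nil)) nil)) (node (nat_lit 4)
  (nat_lit 141073) (nat_lit 6) (node (nat_lit 5) (nat_lit 145046) (nat_lit 7) (node (nat_lit 6)
  (nat_lit 142141) (nat_lit 8) (node (nat_lit 7) (nat_lit 46075) (nat_lit 9) nil nil) nil) (node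
  (nat_lit 6) (nat_lit 139908) (nat_lit 7) (node (nat_lit 5) (nat_lit 139433) (nat_lit 8) nil
  (node (nat_lit 4) (nat_lit 137599) (nat_lit 8) (node (nat_lit 5) (nat_lit 131083) (nat_lit 9)
  (node (nat_lit 6) (nat_lit 117739) (nat_lit 10) nil nil) nil) nil)) (node (nat_lit 7) (nat_lit
  145046) (nat_lit 7) (node (nat_lit 6) (nat_lit 142141) (nat_lit 8) nil nil) nil))) (node
  (nat_lit 0) (nat_lit 140542) (nat_lit 6) (node (nat_lit 5) (nat_lit 143671) (nat_lit 7) nil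
  (node (nat_lit 6) (nat_lit 143671) (nat_lit 7) (node (nat_lit 5) (nat_lit 136401) (nat_lit 8)
  nil nil) nil)) (node (nat_lit 2) (nat_lit 137039) (nat_lit 6) (node (nat_lit 5) (nat_lit 139974)
  (nat_lit 7) (node (nat_lit 4) (nat_lit 136549) (nat_lit 8) (node (nat_lit 5) (nat_lit 113285)
  (nat_lit 9) nil nil) (node (nat_lit 6) (nat_lit 137149) (nat_lit 8) nil nil)) (node (nat_lit 6)
  (nat_lit 140055) (nat_lit 7) (node (nat_lit 5) (nat_lit 140941) (nat_lit 8) nil nil) (node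
  (nat_lit 4) (nat_lit 140055) (nat_lit 7) nil nil))) nil))))) (node (nat_lit 6) (nat_lit 0)
  (nat_lit 5) (node (nat_lit 4) (nat_lit 142821) (nat_lit 6) (node (nat_lit 6) (nat_lit 141555)
  (nat_lit 7) (node (nat_lit 5) (nat_lit 138325) (nat_lit 8) nil nil) (node (nat_lit 7) (nat_lit
  145046) (nat_lit 7) (node (nat_lit 5) (nat_lit 146209) (nat_lit 8) nil nil) (node (nat_lit 5)
  (nat_lit 145046) (nat_lit 7) (node (nat_lit 6) (nat_lit 142141) (nat_lit 8) (node (nat_lit 7)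
  (nat_lit 65600) (nat_lit 9) nil nil) nil) nil))) (node (nat_lit 5) (nat_lit 138287) (nat_lit 6)
  (node (nat_lit 6) (nat_lit 140052) (nat_lit 7) (node (nat_lit 4) (nat_lit 141214) (nat_lit 8)
  (node (nat_lit 5) (nat_lit 142018) (nat_lit 9) nil nil) nil) (node (nat_lit 7) (nat_lit 143108)
  (nat_lit 7) (node (nat_lit 5) (nat_lit 144270) (nat_lit 8) nil nil) (node (nat_lit 4) (nat_lit
  144089) (nat_lit 7) (node (nat_lit 6) (nat_lit 144239) (nat_lit 8) (node (nat_lit 4) (nat_lit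
  143560) (nat_lit 9) (node (nat_lit 5) (nat_lit 139503) (nat_lit 10) (node (nat_lit 6) (nat_lit
  113574) (nat_lit 11) (node (nat_lit 7) (nat_lit 99950) (nat_lit 12) (node (nat_lit 6) (nat_lit
  83947) (nat_lit 13) (node (nat_lit 5) (nat_lit 67026) (nat_lit 14) nil nil) nil) nil) nil) nil)
  nil) (node (nat_lit 5) (nat_lit 135842) (nat_lit 8) (node (nat_lit 6) (nat_lit 118488) (nat_lit
  9) (node (nat_lit 7) (nat_lit 72730) (nat_lit 10) nil (node (nat_lit 5) (nat_lit 117196)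
  (nat_lit 10) nil nil)) nil) nil)) nil))) (node (nat_lit 0) (nat_lit 141934) (nat_lit 6) (node
  (nat_lit 6) (nat_lit 143699) (nat_lit 7) (node (nat_lit 4) (nat_lit 144861) (nat_lit 8) nil nil)
  (node (nat_lit 5) (nat_lit 143699) (nat_lit 7) nil nil)) (node (nat_lit 2) (nat_lit 138395)
  (nat_lit 6) (node (nat_lit 6) (nat_lit 140161) (nat_lit 7) (node (nat_lit 7) (nat_lit 141323)
  (nat_lit 8) nil (node (nat_lit 4) (nat_lit 131670) (nat_lit 8) nil (node (nat_lit 5) (nat_lit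
  132891) (nat_lit 8) nil nil))) (node (nat_lit 7) (nat_lit 140161) (nat_lit 7) (node (nat_lit 6)
  (nat_lit 137255) (nat_lit 8) nil nil) (node (nat_lit 5) (nat_lit 140161) (nat_lit 7) (node
  (nat_lit 4) (nat_lit 126077) (nat_lit 8) nil nil) (node (nat_lit 4) (nat_lit 141587) (nat_lit 7)
  (node (nat_lit 6) (nat_lit 133285) (nat_lit 8) nil nil) nil)))) nil)))) (node (nat_lit 0)
  (nat_lit 0) (nat_lit 5) (node (nat_lit 7) (nat_lit 143527) (nat_lit 6) (node (nat_lit 6)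
  (nat_lit 145292) (nat_lit 7) (node (nat_lit 8) (nat_lit 146454) (nat_lit 8) nil (node (nat_lit
  4) (nat_lit 146454) (nat_lit 8) (node (nat_lit 5) (nat_lit 147258) (nat_lit 9) nil nil) (node
  (nat_lit 5) (nat_lit 138023) (nat_lit 8) nil nil))) (node (nat_lit 4) (nat_lit 142041) (nat_lit
  7) (node (nat_lit 6) (nat_lit 137753) (nat_lit 8) nil nil) (node (nat_lit 5) (nat_lit 145292)
  (nat_lit 7) (node (nat_lit 4) (nat_lit 145995) (nat_lit 8) nil (node (nat_lit 6) (nat_lit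
  142387) (nat_lit 8) nil nil)) nil))) (node (nat_lit 6) (nat_lit 142542) (nat_lit 6) (node
  (nat_lit 8) (nat_lit 144307) (nat_lit 7) (node (nat_lit 5) (nat_lit 145470) (nat_lit 8) nil nil)
  (node (nat_lit 4) (nat_lit 144307) (nat_lit 7) (node (nat_lit 5) (nat_lit 145470) (nat_lit 8)
  nil nil) (node (nat_lit 5) (nat_lit 141710) (nat_lit 7) (node (nat_lit 4) (nat_lit 134417)
  (nat_lit 8) nil nil) (node (nat_lit 7) (nat_lit 144307) (nat_lit 7) (node (nat_lit 6) (nat_lit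
  141402) (nat_lit 8) nil nil) nil)))) (node (nat_lit 5) (nat_lit 142542) (nat_lit 6) (node
  (nat_lit 4) (nat_lit 141056) (nat_lit 7) (node (nat_lit 5) (nat_lit 143589) (nat_lit 8) nil nil)
  (node (nat_lit 6) (nat_lit 144307) (nat_lit 7) (node (nat_lit 4) (nat_lit 145470) (nat_lit 8)
  nil nil) nil)) (node (nat_lit 4) (nat_lit 143075) (nat_lit 6) (node (nat_lit 6) (nat_lit 143989)
  (nat_lit 7) (node (nat_lit 5) (nat_lit 145034) (nat_lit 8) nil (node (nat_lit 4) (nat_lit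
  135918) (nat_lit 8) nil nil)) nil) (node (nat_lit 0) (nat_lit 143075) (nat_lit 6) (node (nat_lit
  5) (nat_lit 144841) (nat_lit 7) nil (node (nat_lit 6) (nat_lit 139417) (nat_lit 7) nil nil))
  (node (nat_lit 2) (nat_lit 139988) (nat_lit 6) (node (nat_lit 5) (nat_lit 143684) (nat_lit 7)
  nil (node (nat_lit 4) (nat_lit 139323) (nat_lit 7) nil (node (nat_lit 6) (nat_lit 139792)
  (nat_lit 7) nil (node (nat_lit 8) (nat_lit 144307) (nat_lit 7) nil (node (nat_lit 7) (nat_lit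
  144307) (nat_lit 7) nil nil))))) nil)))))) (node (nat_lit 2) (nat_lit 0) (nat_lit 5) (node
  (nat_lit 7) (nat_lit 0) (nat_lit 6) (node (nat_lit 6) (nat_lit 143699) (nat_lit 7) (node
  (nat_lit 8) (nat_lit 140794) (nat_lit 8) (node (nat_lit 6) (nat_lit 137944) (nat_lit 9) (node
  (nat_lit 4) (nat_lit 137119) (nat_lit 10) nil nil) nil) (node (nat_lit 4) (nat_lit 144861)
  (nat_lit 8) (node (nat_lit 5) (nat_lit 145665) (nat_lit 9) nil nil) (node (nat_lit 5) (nat_lit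
  144861) (nat_lit 8) nil nil))) (node (nat_lit 4) (nat_lit 143699) (nat_lit 7) (node (nat_lit 6)
  (nat_lit 138847) (nat_lit 8) (node (nat_lit 4) (nat_lit 137126) (nat_lit 9) nil nil) nil) (node
  (nat_lit 5) (nat_lit 143699) (nat_lit 7) (node (nat_lit 4) (nat_lit 144861) (nat_lit 8) nil
  (node (nat_lit 6) (nat_lit 140794) (nat_lit 8) nil nil)) (node (nat_lit 0) (nat_lit 143699)
  (nat_lit 7) nil nil)))) (node (nat_lit 6) (nat_lit 0) (nat_lit 6) (node (nat_lit 8) (nat_lit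
  139547) (nat_lit 7) (node (nat_lit 7) (nat_lit 140420) (nat_lit 8) (node (nat_lit 8) (nat_lit
  137846) (nat_lit 9) (node (nat_lit 6) (nat_lit 136409) (nat_lit 10) (node (nat_lit 4) (nat_lit
  136411) (nat_lit 11) nil nil) nil) (node (nat_lit 6) (nat_lit 138355) (nat_lit 9) nil nil))
  (node (nat_lit 5) (nat_lit 138757) (nat_lit 8) nil nil)) (node (nat_lit 4) (nat_lit 137382)
  (nat_lit 7) (node (nat_lit 5) (nat_lit 127594) (nat_lit 8) (node (nat_lit 6) (nat_lit 103198)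
  (nat_lit 9) nil nil) nil) (node (nat_lit 5) (nat_lit 139564) (nat_lit 7) (node (nat_lit 6)
  (nat_lit 140657) (nat_lit 8) nil (node (nat_lit 4) (nat_lit 135702) (nat_lit 8) nil nil)) (node
  (nat_lit 7) (nat_lit 139564) (nat_lit 7) (node (nat_lit 6) (nat_lit 136659) (nat_lit 8) nil nil)
  (node (nat_lit 0) (nat_lit 139564) (nat_lit 7) nil nil))))) (node (nat_lit 5) (nat_lit 136973)
  (nat_lit 6) (node (nat_lit 4) (nat_lit 137835) (nat_lit 7) (node (nat_lit 5) (nat_lit 117473)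
  (nat_lit 8) (node (nat_lit 6) (nat_lit 77344) (nat_lit 9) nil nil) nil) (node (nat_lit 6)
  (nat_lit 139564) (nat_lit 7) (node (nat_lit 4) (nat_lit 140726) (nat_lit 8) (node (nat_lit 5)
  (nat_lit 141530) (nat_lit 9) nil nil) (node (nat_lit 5) (nat_lit 138788) (nat_lit 8) nil nil))
  (node (nat_lit 8) (nat_lit 134918) (nat_lit 7) nil (node (nat_lit 7) (nat_lit 139564) (nat_lit
  7) nil nil)))) (node (nat_lit 4) (nat_lit 140776) (nat_lit 6) (node (nat_lit 6) (nat_lit 134840)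
  (nat_lit 7) (node (nat_lit 4) (nat_lit 131805) (nat_lit 8) nil nil) (node (nat_lit 5) (nat_lit
  143181) (nat_lit 7) nil nil)) (node (nat_lit 0) (nat_lit 141416) (nat_lit 6) (node (nat_lit 5)
  (nat_lit 143181) (nat_lit 7) nil (node (nat_lit 6) (nat_lit 137757) (nat_lit 7) nil nil))
  nil))))) nil))))) (node (nat_lit 4) (nat_lit 0) (nat_lit 4) (node (nat_lit 0) (nat_lit 133769)
  (nat_lit 5) (node (nat_lit 4) (nat_lit 138452) (nat_lit 6) nil (node (nat_lit 6) (nat_lit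
  139494) (nat_lit 6) (node (nat_lit 4) (nat_lit 143342) (nat_lit 7) (node (nat_lit 5) (nat_lit
  144507) (nat_lit 8) nil nil) nil) (node (nat_lit 5) (nat_lit 138725) (nat_lit 6) (node (nat_lit
  4) (nat_lit 136894) (nat_lit 7) (node (nat_lit 5) (nat_lit 139427) (nat_lit 8) nil nil) nil)
  nil))) (node (nat_lit 2) (nat_lit 124072) (nat_lit 5) (node (nat_lit 4) (nat_lit 125572)
  (nat_lit 6) (node (nat_lit 6) (nat_lit 125572) (nat_lit 7) (node (nat_lit 4) (nat_lit 125572)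
  (nat_lit 8) (node (nat_lit 5) (nat_lit 114879) (nat_lit 9) (node (nat_lit 6) (nat_lit 110714)
  (nat_lit 10) (node (nat_lit 4) (nat_lit 92060) (nat_lit 11) (node (nat_lit 8) (nat_lit 76571)
  (nat_lit 12) nil nil) nil) nil) nil) (node (nat_lit 5) (nat_lit 132275) (nat_lit 8) (node
  (nat_lit 4) (nat_lit 131044) (nat_lit 9) (node (nat_lit 5) (nat_lit 122285) (nat_lit 10) (node
  (nat_lit 6) (nat_lit 122598) (nat_lit 11) (node (nat_lit 4) (nat_lit 110155) (nat_lit 12) nil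
  nil) nil) nil) nil) nil)) nil) (node (nat_lit 6) (nat_lit 125223) (nat_lit 6) (node (nat_lit 8)
  (nat_lit 125223) (nat_lit 7) nil (node (nat_lit 4) (nat_lit 125788) (nat_lit 7) (node (nat_lit
  5) (nat_lit 116053) (nat_lit 8) (node (nat_lit 6) (nat_lit 96600) (nat_lit 9) (node (nat_lit 4)
  (nat_lit 75524) (nat_lit 10) nil nil) nil) nil) (node (nat_lit 5) (nat_lit 136856) (nat_lit 7)
  (node (nat_lit 4) (nat_lit 136856) (nat_lit 8) (node (nat_lit 5) (nat_lit 123963) (nat_lit 9)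
  (node (nat_lit 6) (nat_lit 108532) (nat_lit 10) (node (nat_lit 4) (nat_lit 94041) (nat_lit 11)
  nil nil) nil) nil) nil) nil))) (node (nat_lit 5) (nat_lit 137961) (nat_lit 6) (node (nat_lit 4)
  (nat_lit 133872) (nat_lit 7) (node (nat_lit 5) (nat_lit 116170) (nat_lit 8) (node (nat_lit 6)
  (nat_lit 101935) (nat_lit 9) (node (nat_lit 4) (nat_lit 76752) (nat_lit 10) nil nil) nil) nil)
  nil) nil))) (node (nat_lit 5) (nat_lit 0) (nat_lit 5) (node (nat_lit 0) (nat_lit 64941) (nat_lit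
  6) (node (nat_lit 5) (nat_lit 67826) (nat_lit 7) (node (nat_lit 4) (nat_lit 70302) (nat_lit 8)
  nil nil) nil) (node (nat_lit 2) (nat_lit 59128) (nat_lit 6) (node (nat_lit 4) (nat_lit 68488)
  (nat_lit 7) nil (node (nat_lit 5) (nat_lit 63312) (nat_lit 7) (node (nat_lit 4) (nat_lit 65363)
  (nat_lit 8) nil nil) (node (nat_lit 6) (nat_lit 62731) (nat_lit 7) (node (nat_lit 5) (nat_lit
  65278) (nat_lit 8) (node (nat_lit 4) (nat_lit 64891) (nat_lit 9) nil nil) nil) nil))) (node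
  (nat_lit 4) (nat_lit 0) (nat_lit 6) (node (nat_lit 6) (nat_lit 62938) (nat_lit 7) (node (nat_lit
  5) (nat_lit 65480) (nat_lit 8) nil nil) (node (nat_lit 0) (nat_lit 69042) (nat_lit 7) nil (node
  (nat_lit 2) (nat_lit 67605) (nat_lit 7) nil nil))) nil))) (node (nat_lit 6) (nat_lit 0) (nat_lit
  5) (node (nat_lit 0) (nat_lit 137396) (nat_lit 6) nil (node (nat_lit 2) (nat_lit 129371)
  (nat_lit 6) (node (nat_lit 4) (nat_lit 130507) (nat_lit 7) (node (nat_lit 6) (nat_lit 130507)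
  (nat_lit 8) (node (nat_lit 4) (nat_lit 130507) (nat_lit 9) (node (nat_lit 5) (nat_lit 128902)
  (nat_lit 10) (node (nat_lit 6) (nat_lit 124023) (nat_lit 11) (node (nat_lit 4) (nat_lit 122051)
  (nat_lit 12) (node (nat_lit 6) (nat_lit 108134) (nat_lit 13) (node (nat_lit 9) (nat_lit 73382)
  (nat_lit 14) nil nil) nil) nil) nil) nil) (node (nat_lit 5) (nat_lit 135699) (nat_lit 9) nil
  nil)) nil) (node (nat_lit 6) (nat_lit 129327) (nat_lit 7) (node (nat_lit 4) (nat_lit 127220)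
  (nat_lit 8) (node (nat_lit 5) (nat_lit 119431) (nat_lit 9) (node (nat_lit 6) (nat_lit 107508)
  (nat_lit 10) (node (nat_lit 4) (nat_lit 98683) (nat_lit 11) (node (nat_lit 6) (nat_lit 67866)
  (nat_lit 12) nil nil) nil) nil) nil) nil) (node (nat_lit 5) (nat_lit 138269) (nat_lit 7) (node
  (nat_lit 4) (nat_lit 134569) (nat_lit 8) (node (nat_lit 5) (nat_lit 122764) (nat_lit 9) nil nil)
  nil) nil))) (node (nat_lit 5) (nat_lit 105622) (nat_lit 6) (node (nat_lit 4) (nat_lit 123493)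
  (nat_lit 7) (node (nat_lit 5) (nat_lit 132358) (nat_lit 8) (node (nat_lit 6) (nat_lit 122784)
  (nat_lit 9) (node (nat_lit 4) (nat_lit 77344) (nat_lit 10) (node (nat_lit 5) (nat_lit 77344)
  (nat_lit 11) nil nil) nil) nil) (node (nat_lit 6) (nat_lit 135935) (nat_lit 8) nil nil)) (node
  (nat_lit 0) (nat_lit 141384) (nat_lit 7) nil (node (nat_lit 2) (nat_lit 138975) (nat_lit 7) nil
  nil))) nil))) nil)))) (node (nat_lit 2) (nat_lit 0) (nat_lit 4) t148 (node (nat_lit 5) (nat_lit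
  0) (nat_lit 4) (node (nat_lit 0) (nat_lit 129907) (nat_lit 5) (node (nat_lit 5) (nat_lit 138996)
  (nat_lit 6) (node (nat_lit 6) (nat_lit 141052) (nat_lit 7) (node (nat_lit 4) (nat_lit 142215)
  (nat_lit 8) (node (nat_lit 5) (nat_lit 143018) (nat_lit 9) (node (nat_lit 6) (nat_lit 141072)
  (nat_lit 10) (node (nat_lit 5) (nat_lit 140744) (nat_lit 11) nil nil) nil) nil) nil) (node
  (nat_lit 4) (nat_lit 140691) (nat_lit 7) (node (nat_lit 5) (nat_lit 141923) (nat_lit 8) (node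
  (nat_lit 6) (nat_lit 139552) (nat_lit 9) (node (nat_lit 5) (nat_lit 138952) (nat_lit 10) nil
  nil) nil) nil) nil)) (node (nat_lit 6) (nat_lit 138996) (nat_lit 6) (node (nat_lit 5) (nat_lit
  140659) (nat_lit 7) nil (node (nat_lit 4) (nat_lit 140761) (nat_lit 7) (node (nat_lit 5)
  (nat_lit 141923) (nat_lit 8) (node (nat_lit 6) (nat_lit 139552) (nat_lit 9) (node (nat_lit 5)
  (nat_lit 138952) (nat_lit 10) nil nil) nil) nil) nil)) (node (nat_lit 4) (nat_lit 139835)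
  (nat_lit 6) (node (nat_lit 6) (nat_lit 136176) (nat_lit 7) nil nil) nil))) (node (nat_lit 4)
  (nat_lit 0) (nat_lit 5) (node (nat_lit 0) (nat_lit 124193) (nat_lit 6) (node (nat_lit 5)
  (nat_lit 129931) (nat_lit 7) (node (nat_lit 4) (nat_lit 132095) (nat_lit 8) (node (nat_lit 5)
  (nat_lit 133229) (nat_lit 9) (node (nat_lit 6) (nat_lit 131282) (nat_lit 10) (node (nat_lit 5)
  (nat_lit 130955) (nat_lit 11) (node (nat_lit 4) (nat_lit 130797) (nat_lit 12) nil nil) nil) nil)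
  nil) nil) (node (nat_lit 6) (nat_lit 129931) (nat_lit 7) (node (nat_lit 4) (nat_lit 132407)
  (nat_lit 8) (node (nat_lit 5) (nat_lit 133229) (nat_lit 9) (node (nat_lit 6) (nat_lit 131282)
  (nat_lit 10) nil nil) nil) nil) nil)) (node (nat_lit 2) (nat_lit 119035) (nat_lit 6) (node
  (nat_lit 5) (nat_lit 127744) (nat_lit 7) (node (nat_lit 4) (nat_lit 133145) (nat_lit 8) (node
  (nat_lit 5) (nat_lit 125490) (nat_lit 9) (node (nat_lit 6) (nat_lit 111962) (nat_lit 10) (node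
  (nat_lit 5) (nat_lit 77344) (nat_lit 11) (node (nat_lit 4) (nat_lit 77344) (nat_lit 12) nil nil)
  nil) nil) nil) nil) (node (nat_lit 6) (nat_lit 127647) (nat_lit 7) (node (nat_lit 4) (nat_lit
  130123) (nat_lit 8) (node (nat_lit 5) (nat_lit 128572) (nat_lit 9) (node (nat_lit 6) (nat_lit
  104815) (nat_lit 10) (node (nat_lit 5) (nat_lit 69669) (nat_lit 11) (node (nat_lit 4) (nat_lit
  69511) (nat_lit 12) nil nil) nil) nil) nil) nil) (node (nat_lit 4) (nat_lit 130101) (nat_lit 7)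
  nil nil))) (node (nat_lit 6) (nat_lit 0) (nat_lit 6) (node (nat_lit 4) (nat_lit 0) (nat_lit 7)
  (node (nat_lit 5) (nat_lit 122575) (nat_lit 8) (node (nat_lit 6) (nat_lit 95197) (nat_lit 9)
  (node (nat_lit 5) (nat_lit 84054) (nat_lit 10) (node (nat_lit 4) (nat_lit 58001) (nat_lit 11)
  nil nil) (node (nat_lit 4) (nat_lit 100888) (nat_lit 10) nil nil)) nil) (node (nat_lit 0)
  (nat_lit 133235) (nat_lit 8) nil (node (nat_lit 2) (nat_lit 132658) (nat_lit 8) nil nil))) (node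
  (nat_lit 5) (nat_lit 0) (nat_lit 7) (node (nat_lit 6) (nat_lit 126390) (nat_lit 8) (node
  (nat_lit 4) (nat_lit 132515) (nat_lit 9) (node (nat_lit 5) (nat_lit 133892) (nat_lit 10) (node
  (nat_lit 6) (nat_lit 134966) (nat_lit 11) nil nil) nil) nil) (node (nat_lit 2) (nat_lit 129550)
  (nat_lit 8) nil (node (nat_lit 0) (nat_lit 132505) (nat_lit 8) nil nil))) (node (nat_lit 0)
  (nat_lit 130890) (nat_lit 7) nil (node (nat_lit 2) (nat_lit 127300) (nat_lit 7) (node (nat_lit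
  5) (nat_lit 129658) (nat_lit 8) nil nil) nil)))) (node (nat_lit 5) (nat_lit 0) (nat_lit 6) (node
  (nat_lit 0) (nat_lit 77344) (nat_lit 7) (node (nat_lit 6) (nat_lit 77344) (nat_lit 8) (node
  (nat_lit 4) (nat_lit 77344) (nat_lit 9) nil nil) (node (nat_lit 5) (nat_lit 77344) (nat_lit 8)
  (node (nat_lit 4) (nat_lit 77344) (nat_lit 9) nil nil) nil)) (node (nat_lit 2) (nat_lit 77344)
  (nat_lit 7) (node (nat_lit 6) (nat_lit 77344) (nat_lit 8) (node (nat_lit 4) (nat_lit 77344)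
  (nat_lit 9) nil nil) (node (nat_lit 5) (nat_lit 77344) (nat_lit 8) (node (nat_lit 4) (nat_lit
  77344) (nat_lit 9) nil nil) nil)) nil)) nil)))) (node (nat_lit 2) (nat_lit 0) (nat_lit 5) (node
  (nat_lit 5) (nat_lit 0) (nat_lit 6) (node (nat_lit 6) (nat_lit 117829) (nat_lit 7) (node
  (nat_lit 8) (nat_lit 118991) (nat_lit 8) (node (nat_lit 5) (nat_lit 122286) (nat_lit 9) nil
  (node (nat_lit 6) (nat_lit 123060) (nat_lit 9) nil nil)) (node (nat_lit 4) (nat_lit 130472)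
  (nat_lit 8) (node (nat_lit 5) (nat_lit 131276) (nat_lit 9) (node (nat_lit 6) (nat_lit 129329)
  (nat_lit 10) (node (nat_lit 5) (nat_lit 129002) (nat_lit 11) nil nil) nil) nil) (node (nat_lit
  5) (nat_lit 118991) (nat_lit 8) (node (nat_lit 4) (nat_lit 119781) (nat_lit 9) nil nil) nil)))
  (node (nat_lit 4) (nat_lit 129647) (nat_lit 7) (node (nat_lit 5) (nat_lit 117406) (nat_lit 8)
  (node (nat_lit 8) (nat_lit 118210) (nat_lit 9) (node (nat_lit 4) (nat_lit 118821) (nat_lit 10)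
  (node (nat_lit 8) (nat_lit 119359) (nat_lit 11) (node (nat_lit 5) (nat_lit 119396) (nat_lit 12)
  (node (nat_lit 4) (nat_lit 120233) (nat_lit 13) nil nil) nil) nil) nil) (node (nat_lit 6)
  (nat_lit 102530) (nat_lit 9) (node (nat_lit 5) (nat_lit 77243) (nat_lit 10) nil nil) nil)) (node
  (nat_lit 6) (nat_lit 130809) (nat_lit 8) (node (nat_lit 4) (nat_lit 125399) (nat_lit 9) (node
  (nat_lit 5) (nat_lit 121111) (nat_lit 10) (node (nat_lit 6) (nat_lit 112095) (nat_lit 11) (node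
  (nat_lit 5) (nat_lit 99274) (nat_lit 12) nil nil) nil) nil) (node (nat_lit 5) (nat_lit 125764)
  (nat_lit 9) nil nil)) nil)) (node (nat_lit 0) (nat_lit 132913) (nat_lit 7) nil nil))) (node
  (nat_lit 6) (nat_lit 0) (nat_lit 6) (node (nat_lit 8) (nat_lit 117925) (nat_lit 7) (node
  (nat_lit 5) (nat_lit 119087) (nat_lit 8) (node (nat_lit 8) (nat_lit 118097) (nat_lit 9) (node
  (nat_lit 6) (nat_lit 115808) (nat_lit 10) nil nil) (node (nat_lit 6) (nat_lit 122264) (nat_lit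
  9) nil (node (nat_lit 4) (nat_lit 128431) (nat_lit 9) nil nil))) nil) (node (nat_lit 5) (nat_lit
  117828) (nat_lit 7) (node (nat_lit 6) (nat_lit 118990) (nat_lit 8) (node (nat_lit 4) (nat_lit
  128474) (nat_lit 9) nil nil) (node (nat_lit 4) (nat_lit 127281) (nat_lit 8) nil nil)) (node
  (nat_lit 4) (nat_lit 129019) (nat_lit 7) (node (nat_lit 5) (nat_lit 123701) (nat_lit 8) (node
  (nat_lit 6) (nat_lit 96401) (nat_lit 9) (node (nat_lit 5) (nat_lit 68168) (nat_lit 10) nil nil)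
  nil) nil) (node (nat_lit 0) (nat_lit 131205) (nat_lit 7) nil nil)))) (node (nat_lit 0) (nat_lit
  133274) (nat_lit 6) nil (node (nat_lit 4) (nat_lit 133621) (nat_lit 6) nil nil)))) nil)))
  nil))))

noncomputable def t150 : Tr :=
  (node (nat_lit 3) (nat_lit 0) (nat_lit 4) (node (nat_lit 0) (nat_lit 0) (nat_lit 5) (node
  (nat_lit 7) (nat_lit 0) (nat_lit 6) (node (nat_lit 4) (nat_lit 48957) (nat_lit 7) (node (nat_lit
  7) (nat_lit 48957) (nat_lit 8) nil (node (nat_lit 5) (nat_lit 51227) (nat_lit 8) (node (nat_lit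
  4) (nat_lit 51227) (nat_lit 9) nil nil) nil)) (node (nat_lit 5) (nat_lit 51913) (nat_lit 7)
  (node (nat_lit 7) (nat_lit 51913) (nat_lit 8) (node (nat_lit 4) (nat_lit 51913) (nat_lit 9)
  (node (nat_lit 5) (nat_lit 52564) (nat_lit 10) nil nil) nil) nil) (node (nat_lit 0) (nat_lit
  50950) (nat_lit 7) nil (node (nat_lit 2) (nat_lit 49110) (nat_lit 7) nil nil)))) (node (nat_lit
  4) (nat_lit 49059) (nat_lit 6) (node (nat_lit 8) (nat_lit 51913) (nat_lit 7) (node (nat_lit 7)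
  (nat_lit 51913) (nat_lit 8) (node (nat_lit 4) (nat_lit 51913) (nat_lit 9) nil nil) nil) (node
  (nat_lit 7) (nat_lit 49316) (nat_lit 7) (node (nat_lit 4) (nat_lit 49260) (nat_lit 8) (node
  (nat_lit 5) (nat_lit 46192) (nat_lit 9) (node (nat_lit 4) (nat_lit 29289) (nat_lit 10) nil nil)
  nil) nil) (node (nat_lit 5) (nat_lit 51913) (nat_lit 7) (node (nat_lit 7) (nat_lit 51913)
  (nat_lit 8) (node (nat_lit 4) (nat_lit 51913) (nat_lit 9) (node (nat_lit 5) (nat_lit 52564)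
  (nat_lit 10) nil nil) nil) nil) nil))) (node (nat_lit 5) (nat_lit 52089) (nat_lit 6) (node
  (nat_lit 7) (nat_lit 52089) (nat_lit 7) (node (nat_lit 4) (nat_lit 52089) (nat_lit 8) nil nil)
  (node (nat_lit 4) (nat_lit 52089) (nat_lit 7) (node (nat_lit 7) (nat_lit 52089) (nat_lit 8) nil
  nil) nil)) (node (nat_lit 0) (nat_lit 52089) (nat_lit 6) (node (nat_lit 7) (nat_lit 52089)
  (nat_lit 7) (node (nat_lit 8) (nat_lit 52735) (nat_lit 8) (node (nat_lit 7) (nat_lit 52735)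
  (nat_lit 9) nil nil) nil) nil) (node (nat_lit 2) (nat_lit 48508) (nat_lit 6) (node (nat_lit 7)
  (nat_lit 48508) (nat_lit 7) (node (nat_lit 8) (nat_lit 49911) (nat_lit 8) (node (nat_lit 7)
  (nat_lit 49911) (nat_lit 9) nil nil) nil) (node (nat_lit 8) (nat_lit 50950) (nat_lit 7) nil
  nil)) nil))))) (node (nat_lit 5) (nat_lit 0) (nat_lit 5) (node (nat_lit 0) (nat_lit 50877)
  (nat_lit 6) (node (nat_lit 7) (nat_lit 50877) (nat_lit 7) (node (nat_lit 4) (nat_lit 50877)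
  (nat_lit 8) nil nil) (node (nat_lit 5) (nat_lit 52244) (nat_lit 7) (node (nat_lit 7) (nat_lit
  52244) (nat_lit 8) nil nil) nil)) (node (nat_lit 2) (nat_lit 47837) (nat_lit 6) (node (nat_lit
  7) (nat_lit 48947) (nat_lit 7) (node (nat_lit 4) (nat_lit 48131) (nat_lit 8) nil nil) (node
  (nat_lit 5) (nat_lit 53338) (nat_lit 7) nil (node (nat_lit 4) (nat_lit 48077) (nat_lit 7) nil
  nil))) (node (nat_lit 7) (nat_lit 0) (nat_lit 6) (node (nat_lit 4) (nat_lit 46221) (nat_lit 7)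
  (node (nat_lit 5) (nat_lit 52802) (nat_lit 8) nil nil) (node (nat_lit 0) (nat_lit 52466)
  (nat_lit 7) nil (node (nat_lit 2) (nat_lit 48033) (nat_lit 7) nil nil))) (node (nat_lit 4)
  (nat_lit 0) (nat_lit 6) (node (nat_lit 5) (nat_lit 0) (nat_lit 7) (node (nat_lit 7) (nat_lit
  52265) (nat_lit 8) (node (nat_lit 4) (nat_lit 52397) (nat_lit 9) (node (nat_lit 7) (nat_lit
  52943) (nat_lit 10) (node (nat_lit 5) (nat_lit 55441) (nat_lit 11) nil nil) (node (nat_lit 5)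
  (nat_lit 55215) (nat_lit 10) nil nil)) (node (nat_lit 5) (nat_lit 54923) (nat_lit 9) nil (node
  (nat_lit 2) (nat_lit 52608) (nat_lit 9) nil (node (nat_lit 0) (nat_lit 54832) (nat_lit 9) nil
  nil)))) (node (nat_lit 0) (nat_lit 54743) (nat_lit 8) nil (node (nat_lit 2) (nat_lit 53262)
  (nat_lit 8) nil nil))) (node (nat_lit 0) (nat_lit 53623) (nat_lit 7) (node (nat_lit 7) (nat_lit
  53623) (nat_lit 8) nil (node (nat_lit 5) (nat_lit 55198) (nat_lit 8) nil nil)) (node (nat_lit 2)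
  (nat_lit 0) (nat_lit 7) (node (nat_lit 7) (nat_lit 50273) (nat_lit 8) nil (node (nat_lit 4)
  (nat_lit 50317) (nat_lit 8) (node (nat_lit 5) (nat_lit 54497) (nat_lit 9) nil nil) (node
  (nat_lit 5) (nat_lit 55228) (nat_lit 8) nil (node (nat_lit 0) (nat_lit 54808) (nat_lit 8) nil
  nil)))) nil))) nil)))) (node (nat_lit 2) (nat_lit 0) (nat_lit 5) (node (nat_lit 7) (nat_lit 0)
  (nat_lit 6) (node (nat_lit 4) (nat_lit 32896) (nat_lit 7) (node (nat_lit 7) (nat_lit 32896)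
  (nat_lit 8) (node (nat_lit 8) (nat_lit 32896) (nat_lit 9) (node (nat_lit 4) (nat_lit 37112)
  (nat_lit 10) (node (nat_lit 7) (nat_lit 38939) (nat_lit 11) (node (nat_lit 4) (nat_lit 39357)
  (nat_lit 12) (node (nat_lit 8) (nat_lit 38334) (nat_lit 13) nil (node (nat_lit 5) (nat_lit
  34387) (nat_lit 13) nil nil)) nil) (node (nat_lit 8) (nat_lit 39369) (nat_lit 11) (node (nat_lit
  7) (nat_lit 38723) (nat_lit 12) (node (nat_lit 4) (nat_lit 34996) (nat_lit 13) (node (nat_lit 5)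
  (nat_lit 34997) (nat_lit 14) (node (nat_lit 4) (nat_lit 34857) (nat_lit 15) nil nil) nil) nil)
  nil) nil)) (node (nat_lit 5) (nat_lit 42507) (nat_lit 10) (node (nat_lit 7) (nat_lit 42507)
  (nat_lit 11) nil nil) (node (nat_lit 0) (nat_lit 41456) (nat_lit 10) nil nil))) (node (nat_lit
  5) (nat_lit 44411) (nat_lit 9) nil nil)) (node (nat_lit 8) (nat_lit 32896) (nat_lit 8) (node
  (nat_lit 7) (nat_lit 32896) (nat_lit 9) (node (nat_lit 8) (nat_lit 38243) (nat_lit 10) (node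
  (nat_lit 4) (nat_lit 40733) (nat_lit 11) (node (nat_lit 7) (nat_lit 37870) (nat_lit 12) (node
  (nat_lit 4) (nat_lit 34142) (nat_lit 13) (node (nat_lit 5) (nat_lit 34144) (nat_lit 14) nil nil)
  nil) nil) nil) (node (nat_lit 5) (nat_lit 41456) (nat_lit 10) nil (node (nat_lit 0) (nat_lit
  36731) (nat_lit 10) nil nil))) (node (nat_lit 4) (nat_lit 32896) (nat_lit 9) (node (nat_lit 7)
  (nat_lit 37654) (nat_lit 10) nil nil) (node (nat_lit 5) (nat_lit 43632) (nat_lit 9) nil (node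
  (nat_lit 0) (nat_lit 41095) (nat_lit 9) nil nil)))) (node (nat_lit 5) (nat_lit 31372) (nat_lit
  8) (node (nat_lit 7) (nat_lit 31372) (nat_lit 9) (node (nat_lit 4) (nat_lit 31372) (nat_lit 10)
  nil nil) (node (nat_lit 8) (nat_lit 31372) (nat_lit 9) nil (node (nat_lit 0) (nat_lit 31581)
  (nat_lit 9) nil nil))) (node (nat_lit 0) (nat_lit 42545) (nat_lit 8) nil nil)))) (node (nat_lit
  5) (nat_lit 50003) (nat_lit 7) (node (nat_lit 7) (nat_lit 50003) (nat_lit 8) (node (nat_lit 4)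
  (nat_lit 50003) (nat_lit 9) (node (nat_lit 5) (nat_lit 51078) (nat_lit 10) nil nil) nil) nil)
  (node (nat_lit 0) (nat_lit 48833) (nat_lit 7) (node (nat_lit 7) (nat_lit 48833) (nat_lit 8)
  (node (nat_lit 4) (nat_lit 48833) (nat_lit 9) nil nil) nil) nil))) (node (nat_lit 4) (nat_lit 0)
  (nat_lit 6) (node (nat_lit 8) (nat_lit 32912) (nat_lit 7) (node (nat_lit 7) (nat_lit 32912)
  (nat_lit 8) (node (nat_lit 8) (nat_lit 32912) (nat_lit 9) (node (nat_lit 4) (nat_lit 37389)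
  (nat_lit 10) (node (nat_lit 7) (nat_lit 38591) (nat_lit 11) (node (nat_lit 4) (nat_lit 38710)
  (nat_lit 12) (node (nat_lit 5) (nat_lit 33889) (nat_lit 13) (node (nat_lit 4) (nat_lit 33204)
  (nat_lit 14) nil nil) nil) nil) (node (nat_lit 5) (nat_lit 44083) (nat_lit 11) nil nil)) nil)
  (node (nat_lit 4) (nat_lit 32912) (nat_lit 9) (node (nat_lit 7) (nat_lit 39188) (nat_lit 10) nil
  (node (nat_lit 5) (nat_lit 38014) (nat_lit 10) nil nil)) (node (nat_lit 5) (nat_lit 47727)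
  (nat_lit 9) nil nil))) (node (nat_lit 5) (nat_lit 47116) (nat_lit 8) nil nil)) (node (nat_lit 7)
  (nat_lit 32912) (nat_lit 7) (node (nat_lit 4) (nat_lit 32912) (nat_lit 8) (node (nat_lit 5)
  (nat_lit 31655) (nat_lit 9) (node (nat_lit 4) (nat_lit 25145) (nat_lit 10) nil nil) (node
  (nat_lit 8) (nat_lit 32912) (nat_lit 9) (node (nat_lit 7) (nat_lit 37400) (nat_lit 10) (node
  (nat_lit 4) (nat_lit 35928) (nat_lit 11) nil (node (nat_lit 8) (nat_lit 37765) (nat_lit 11) nil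
  nil)) nil) nil)) (node (nat_lit 5) (nat_lit 47714) (nat_lit 8) nil nil)) (node (nat_lit 5)
  (nat_lit 50665) (nat_lit 7) (node (nat_lit 7) (nat_lit 50665) (nat_lit 8) (node (nat_lit 4)
  (nat_lit 50665) (nat_lit 9) (node (nat_lit 5) (nat_lit 51317) (nat_lit 10) nil nil) nil) nil)
  (node (nat_lit 0) (nat_lit 49449) (nat_lit 7) nil nil)))) (node (nat_lit 5) (nat_lit 51389)
  (nat_lit 6) (node (nat_lit 7) (nat_lit 51389) (nat_lit 7) (node (nat_lit 4) (nat_lit 51389)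
  (nat_lit 8) nil nil) (node (nat_lit 4) (nat_lit 51389) (nat_lit 7) (node (nat_lit 7) (nat_lit
  51389) (nat_lit 8) nil nil) nil)) (node (nat_lit 0) (nat_lit 51644) (nat_lit 6) (node (nat_lit
  7) (nat_lit 51644) (nat_lit 7) nil nil) nil)))) (node (nat_lit 4) (nat_lit 0) (nat_lit 5) (node
  (nat_lit 0) (nat_lit 0) (nat_lit 6) (node (nat_lit 7) (nat_lit 41875) (nat_lit 7) (node (nat_lit
  4) (nat_lit 44776) (nat_lit 8) (node (nat_lit 5) (nat_lit 45887) (nat_lit 9) (node (nat_lit 4)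
  (nat_lit 43829) (nat_lit 10) nil nil) nil) nil) (node (nat_lit 4) (nat_lit 41440) (nat_lit 7)
  (node (nat_lit 7) (nat_lit 42669) (nat_lit 8) nil nil) (node (nat_lit 5) (nat_lit 41875)
  (nat_lit 7) nil (node (nat_lit 2) (nat_lit 41875) (nat_lit 7) (node (nat_lit 7) (nat_lit 43878)
  (nat_lit 8) nil nil) (node (nat_lit 0) (nat_lit 41875) (nat_lit 7) (node (nat_lit 7) (nat_lit
  44776) (nat_lit 8) nil nil) nil))))) (node (nat_lit 2) (nat_lit 0) (nat_lit 6) (node (nat_lit 7)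
  (nat_lit 0) (nat_lit 7) (node (nat_lit 4) (nat_lit 32573) (nat_lit 8) (node (nat_lit 7) (nat_lit
  32573) (nat_lit 9) (node (nat_lit 9) (nat_lit 30235) (nat_lit 10) (node (nat_lit 7) (nat_lit
  30594) (nat_lit 11) nil nil) (node (nat_lit 5) (nat_lit 36423) (nat_lit 10) (node (nat_lit 4)
  (nat_lit 36423) (nat_lit 11) (node (nat_lit 7) (nat_lit 36423) (nat_lit 12) (node (nat_lit 4)
  (nat_lit 36423) (nat_lit 13) nil nil) nil) nil) nil)) (node (nat_lit 5) (nat_lit 34533) (nat_lit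
  9) nil nil)) (node (nat_lit 9) (nat_lit 32713) (nat_lit 8) (node (nat_lit 4) (nat_lit 32713)
  (nat_lit 9) nil nil) (node (nat_lit 5) (nat_lit 42979) (nat_lit 8) nil (node (nat_lit 0)
  (nat_lit 40324) (nat_lit 8) nil nil)))) (node (nat_lit 4) (nat_lit 32627) (nat_lit 7) (node
  (nat_lit 7) (nat_lit 32574) (nat_lit 8) (node (nat_lit 9) (nat_lit 32574) (nat_lit 9) (node
  (nat_lit 7) (nat_lit 33453) (nat_lit 10) (node (nat_lit 4) (nat_lit 34250) (nat_lit 11) nil nil)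
  nil) nil) (node (nat_lit 5) (nat_lit 44015) (nat_lit 8) nil nil)) (node (nat_lit 5) (nat_lit
  41875) (nat_lit 7) (node (nat_lit 7) (nat_lit 44776) (nat_lit 8) nil nil) (node (nat_lit 0)
  (nat_lit 41875) (nat_lit 7) (node (nat_lit 7) (nat_lit 44776) (nat_lit 8) nil nil) nil)))) nil))
  nil)))) (node (nat_lit 2) (nat_lit 0) (nat_lit 4) (node (nat_lit 3) (nat_lit 0) (nat_lit 5)
  (node (nat_lit 7) (nat_lit 0) (nat_lit 6) (node (nat_lit 4) (nat_lit 32913) (nat_lit 7) (node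
  (nat_lit 8) (nat_lit 32913) (nat_lit 8) (node (nat_lit 4) (nat_lit 32913) (nat_lit 9) (node
  (nat_lit 5) (nat_lit 37414) (nat_lit 10) (node (nat_lit 4) (nat_lit 29333) (nat_lit 11) (node
  (nat_lit 7) (nat_lit 16516) (nat_lit 12) nil nil) nil) (node (nat_lit 7) (nat_lit 38388)
  (nat_lit 10) (node (nat_lit 8) (nat_lit 41005) (nat_lit 11) (node (nat_lit 4) (nat_lit 41326)
  (nat_lit 12) (node (nat_lit 5) (nat_lit 37261) (nat_lit 13) nil nil) (node (nat_lit 7) (nat_lit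
  41020) (nat_lit 12) nil nil)) (node (nat_lit 4) (nat_lit 40627) (nat_lit 11) (node (nat_lit 8)
  (nat_lit 38289) (nat_lit 12) nil nil) (node (nat_lit 5) (nat_lit 41476) (nat_lit 11) nil nil)))
  (node (nat_lit 0) (nat_lit 41472) (nat_lit 10) nil nil))) (node (nat_lit 5) (nat_lit 47132)
  (nat_lit 9) (node (nat_lit 4) (nat_lit 47132) (nat_lit 10) nil (node (nat_lit 8) (nat_lit 47132)
  (nat_lit 10) (node (nat_lit 4) (nat_lit 47132) (nat_lit 11) nil nil) nil)) (node (nat_lit 7)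
  (nat_lit 32913) (nat_lit 9) nil (node (nat_lit 0) (nat_lit 44974) (nat_lit 9) nil nil)))) (node
  (nat_lit 7) (nat_lit 32913) (nat_lit 8) (node (nat_lit 8) (nat_lit 32921) (nat_lit 9) (node
  (nat_lit 4) (nat_lit 38285) (nat_lit 10) (node (nat_lit 5) (nat_lit 37013) (nat_lit 11) (node
  (nat_lit 4) (nat_lit 33297) (nat_lit 12) (node (nat_lit 7) (nat_lit 20825) (nat_lit 13) nil nil)
  nil) (node (nat_lit 8) (nat_lit 40269) (nat_lit 11) nil (node (nat_lit 7) (nat_lit 39459)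
  (nat_lit 11) nil nil))) (node (nat_lit 5) (nat_lit 44608) (nat_lit 10) nil (node (nat_lit 0)
  (nat_lit 41479) (nat_lit 10) nil nil))) (node (nat_lit 5) (nat_lit 44974) (nat_lit 9) (node
  (nat_lit 8) (nat_lit 44974) (nat_lit 10) nil nil) (node (nat_lit 0) (nat_lit 44974) (nat_lit 9)
  nil nil))) (node (nat_lit 5) (nat_lit 47065) (nat_lit 8) (node (nat_lit 8) (nat_lit 47065)
  (nat_lit 9) (node (nat_lit 4) (nat_lit 47065) (nat_lit 10) nil nil) nil) (node (nat_lit 0)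
  (nat_lit 46561) (nat_lit 8) nil nil)))) (node (nat_lit 5) (nat_lit 52134) (nat_lit 7) (node
  (nat_lit 8) (nat_lit 52134) (nat_lit 8) (node (nat_lit 4) (nat_lit 52134) (nat_lit 9) (node
  (nat_lit 5) (nat_lit 52785) (nat_lit 10) (node (nat_lit 4) (nat_lit 52785) (nat_lit 11) (node
  (nat_lit 7) (nat_lit 52785) (nat_lit 12) nil nil) nil) nil) nil) nil) (node (nat_lit 0) (nat_lit
  49737) (nat_lit 7) (node (nat_lit 8) (nat_lit 49737) (nat_lit 8) nil (node (nat_lit 4) (nat_lit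
  49737) (nat_lit 8) nil nil)) nil))) (node (nat_lit 4) (nat_lit 0) (nat_lit 6) (node (nat_lit 7)
  (nat_lit 0) (nat_lit 7) (node (nat_lit 4) (nat_lit 32918) (nat_lit 8) (node (nat_lit 8) (nat_lit
  32916) (nat_lit 9) (node (nat_lit 4) (nat_lit 37563) (nat_lit 10) (node (nat_lit 5) (nat_lit
  38379) (nat_lit 11) (node (nat_lit 4) (nat_lit 28900) (nat_lit 12) (node (nat_lit 7) (nat_lit
  25319) (nat_lit 13) (node (nat_lit 8) (nat_lit 16855) (nat_lit 14) nil nil) nil) nil) (node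
  (nat_lit 7) (nat_lit 39187) (nat_lit 11) (node (nat_lit 8) (nat_lit 40958) (nat_lit 12) nil nil)
  (node (nat_lit 0) (nat_lit 40651) (nat_lit 11) nil nil))) (node (nat_lit 7) (nat_lit 37728)
  (nat_lit 10) (node (nat_lit 8) (nat_lit 40543) (nat_lit 11) (node (nat_lit 4) (nat_lit 35937)
  (nat_lit 12) nil nil) (node (nat_lit 4) (nat_lit 37868) (nat_lit 11) nil nil)) (node (nat_lit 5)
  (nat_lit 43978) (nat_lit 10) nil (node (nat_lit 0) (nat_lit 41474) (nat_lit 10) nil nil))))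
  (node (nat_lit 5) (nat_lit 43358) (nat_lit 9) nil (node (nat_lit 0) (nat_lit 42910) (nat_lit 9)
  nil nil))) (node (nat_lit 5) (nat_lit 41370) (nat_lit 8) (node (nat_lit 8) (nat_lit 40078)
  (nat_lit 9) (node (nat_lit 4) (nat_lit 40616) (nat_lit 10) (node (nat_lit 5) (nat_lit 41386)
  (nat_lit 11) nil nil) nil) nil) (node (nat_lit 0) (nat_lit 42132) (nat_lit 8) nil nil))) (node
  (nat_lit 8) (nat_lit 32940) (nat_lit 7) (node (nat_lit 7) (nat_lit 32940) (nat_lit 8) (node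
  (nat_lit 4) (nat_lit 32922) (nat_lit 9) (node (nat_lit 8) (nat_lit 37384) (nat_lit 10) (node
  (nat_lit 5) (nat_lit 40471) (nat_lit 11) nil (node (nat_lit 4) (nat_lit 38056) (nat_lit 11)
  (node (nat_lit 5) (nat_lit 33391) (nat_lit 12) (node (nat_lit 4) (nat_lit 32508) (nat_lit 13)
  nil nil) nil) nil)) (node (nat_lit 5) (nat_lit 41482) (nat_lit 10) nil nil)) (node (nat_lit 8)
  (nat_lit 32940) (nat_lit 9) (node (nat_lit 4) (nat_lit 36458) (nat_lit 10) nil (node (nat_lit 5)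
  (nat_lit 41616) (nat_lit 10) nil nil)) (node (nat_lit 5) (nat_lit 43632) (nat_lit 9) nil (node
  (nat_lit 0) (nat_lit 43184) (nat_lit 9) nil nil)))) (node (nat_lit 5) (nat_lit 43196) (nat_lit
  8) (node (nat_lit 4) (nat_lit 43856) (nat_lit 9) nil (node (nat_lit 8) (nat_lit 43196) (nat_lit
  9) (node (nat_lit 4) (nat_lit 43735) (nat_lit 10) nil nil) nil)) (node (nat_lit 0) (nat_lit
  42808) (nat_lit 8) nil nil))) (node (nat_lit 5) (nat_lit 23350) (nat_lit 7) (node (nat_lit 8)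
  (nat_lit 23350) (nat_lit 8) (node (nat_lit 5) (nat_lit 24631) (nat_lit 9) nil nil) (node
  (nat_lit 7) (nat_lit 23350) (nat_lit 8) nil nil)) (node (nat_lit 0) (nat_lit 41475) (nat_lit 7)
  (node (nat_lit 8) (nat_lit 42279) (nat_lit 8) nil nil) nil)))) (node (nat_lit 5) (nat_lit 51518)
  (nat_lit 6) (node (nat_lit 7) (nat_lit 51518) (nat_lit 7) (node (nat_lit 5) (nat_lit 52902)
  (nat_lit 8) (node (nat_lit 8) (nat_lit 52902) (nat_lit 9) nil nil) (node (nat_lit 4) (nat_lit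
  51518) (nat_lit 8) (node (nat_lit 8) (nat_lit 51518) (nat_lit 9) (node (nat_lit 4) (nat_lit
  50863) (nat_lit 10) nil nil) nil) (node (nat_lit 8) (nat_lit 51518) (nat_lit 8) nil nil))) (node
  (nat_lit 8) (nat_lit 51518) (nat_lit 7) (node (nat_lit 4) (nat_lit 51518) (nat_lit 8) (node
  (nat_lit 5) (nat_lit 52374) (nat_lit 9) (node (nat_lit 4) (nat_lit 52374) (nat_lit 10) nil nil)
  nil) nil) (node (nat_lit 4) (nat_lit 51518) (nat_lit 7) (node (nat_lit 8) (nat_lit 51518)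
  (nat_lit 8) (node (nat_lit 4) (nat_lit 51518) (nat_lit 9) (node (nat_lit 5) (nat_lit 52538)
  (nat_lit 10) nil nil) nil) (node (nat_lit 5) (nat_lit 52165) (nat_lit 8) (node (nat_lit 8)
  (nat_lit 52165) (nat_lit 9) nil nil) nil)) nil))) (node (nat_lit 0) (nat_lit 51906) (nat_lit 6)
  (node (nat_lit 8) (nat_lit 51906) (nat_lit 7) (node (nat_lit 4) (nat_lit 51906) (nat_lit 8) nil
  nil) nil) nil)))) (node (nat_lit 5) (nat_lit 0) (nat_lit 5) (node (nat_lit 7) (nat_lit 0)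
  (nat_lit 6) (node (nat_lit 4) (nat_lit 49904) (nat_lit 7) (node (nat_lit 5) (nat_lit 54535)
  (nat_lit 8) (node (nat_lit 4) (nat_lit 54535) (nat_lit 9) nil (node (nat_lit 3) (nat_lit 54535)
  (nat_lit 9) (node (nat_lit 4) (nat_lit 54535) (nat_lit 10) (node (nat_lit 5) (nat_lit 54754)
  (nat_lit 11) (node (nat_lit 4) (nat_lit 54754) (nat_lit 12) nil nil) nil) nil) nil)) (node
  (nat_lit 7) (nat_lit 50664) (nat_lit 8) (node (nat_lit 5) (nat_lit 53160) (nat_lit 9) nil (node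
  (nat_lit 3) (nat_lit 50664) (nat_lit 9) (node (nat_lit 4) (nat_lit 46279) (nat_lit 10) nil nil)
  nil)) (node (nat_lit 3) (nat_lit 50251) (nat_lit 8) (node (nat_lit 4) (nat_lit 50127) (nat_lit
  9) (node (nat_lit 5) (nat_lit 42884) (nat_lit 10) (node (nat_lit 4) (nat_lit 42884) (nat_lit 11)
  (node (nat_lit 7) (nat_lit 30544) (nat_lit 12) nil nil) nil) nil) nil) (node (nat_lit 0)
  (nat_lit 53070) (nat_lit 8) nil nil)))) (node (nat_lit 3) (nat_lit 49890) (nat_lit 7) (node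
  (nat_lit 5) (nat_lit 51848) (nat_lit 8) (node (nat_lit 10) (nat_lit 51848) (nat_lit 9) (node
  (nat_lit 4) (nat_lit 51848) (nat_lit 10) (node (nat_lit 5) (nat_lit 52350) (nat_lit 11) (node
  (nat_lit 4) (nat_lit 52350) (nat_lit 12) nil nil) nil) nil) nil) (node (nat_lit 4) (nat_lit
  49890) (nat_lit 8) (node (nat_lit 5) (nat_lit 49729) (nat_lit 9) (node (nat_lit 4) (nat_lit
  34781) (nat_lit 10) nil nil) nil) nil)) (node (nat_lit 0) (nat_lit 52533) (nat_lit 7) nil nil)))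
  (node (nat_lit 4) (nat_lit 0) (nat_lit 6) (node (nat_lit 5) (nat_lit 52291) (nat_lit 7) (node
  (nat_lit 7) (nat_lit 53510) (nat_lit 8) (node (nat_lit 4) (nat_lit 53788) (nat_lit 9) nil nil)
  (node (nat_lit 3) (nat_lit 53917) (nat_lit 8) nil nil)) (node (nat_lit 3) (nat_lit 50162)
  (nat_lit 7) (node (nat_lit 4) (nat_lit 50664) (nat_lit 8) (node (nat_lit 5) (nat_lit 50177)
  (nat_lit 9) (node (nat_lit 4) (nat_lit 10515) (nat_lit 10) nil nil) nil) nil) (node (nat_lit 0)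
  (nat_lit 52533) (nat_lit 7) nil nil))) (node (nat_lit 3) (nat_lit 49583) (nat_lit 6) (node
  (nat_lit 4) (nat_lit 49715) (nat_lit 7) (node (nat_lit 5) (nat_lit 51848) (nat_lit 8) (node
  (nat_lit 4) (nat_lit 51848) (nat_lit 9) nil nil) (node (nat_lit 7) (nat_lit 49715) (nat_lit 8)
  nil nil)) (node (nat_lit 7) (nat_lit 50517) (nat_lit 7) (node (nat_lit 4) (nat_lit 50700)
  (nat_lit 8) (node (nat_lit 5) (nat_lit 52058) (nat_lit 9) (node (nat_lit 9) (nat_lit 52058)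
  (nat_lit 10) (node (nat_lit 4) (nat_lit 52058) (nat_lit 11) nil nil) nil) nil) (node (nat_lit 9)
  (nat_lit 50700) (nat_lit 8) nil (node (nat_lit 5) (nat_lit 51848) (nat_lit 8) nil nil))) (node
  (nat_lit 5) (nat_lit 53383) (nat_lit 7) (node (nat_lit 4) (nat_lit 53383) (nat_lit 8) (node
  (nat_lit 9) (nat_lit 53383) (nat_lit 9) (node (nat_lit 4) (nat_lit 53383) (nat_lit 10) (node
  (nat_lit 5) (nat_lit 53985) (nat_lit 11) (node (nat_lit 4) (nat_lit 53985) (nat_lit 12) nil nil)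
  nil) nil) (node (nat_lit 5) (nat_lit 53855) (nat_lit 9) (node (nat_lit 9) (nat_lit 53855)
  (nat_lit 10) nil nil) nil)) nil) nil))) (node (nat_lit 0) (nat_lit 52062) (nat_lit 6) nil
  nil)))) (node (nat_lit 4) (nat_lit 0) (nat_lit 5) (node (nat_lit 3) (nat_lit 0) (nat_lit 6)
  (node (nat_lit 4) (nat_lit 32868) (nat_lit 7) (node (nat_lit 7) (nat_lit 32868) (nat_lit 8)
  (node (nat_lit 9) (nat_lit 32868) (nat_lit 9) (node (nat_lit 4) (nat_lit 36424) (nat_lit 10)
  (node (nat_lit 5) (nat_lit 29095) (nat_lit 11) (node (nat_lit 4) (nat_lit 23490) (nat_lit 12)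
  (node (nat_lit 7) (nat_lit 11548) (nat_lit 13) nil nil) nil) nil) (node (nat_lit 7) (nat_lit
  37403) (nat_lit 10) nil nil)) (node (nat_lit 4) (nat_lit 32868) (nat_lit 9) (node (nat_lit 5)
  (nat_lit 36702) (nat_lit 10) nil nil) (node (nat_lit 5) (nat_lit 38806) (nat_lit 9) nil (node
  (nat_lit 0) (nat_lit 38806) (nat_lit 9) nil nil)))) (node (nat_lit 5) (nat_lit 32603) (nat_lit
  8) nil nil)) (node (nat_lit 7) (nat_lit 32868) (nat_lit 7) (node (nat_lit 9) (nat_lit 32868)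
  (nat_lit 8) (node (nat_lit 4) (nat_lit 32868) (nat_lit 9) (node (nat_lit 5) (nat_lit 37000)
  (nat_lit 10) (node (nat_lit 4) (nat_lit 24103) (nat_lit 11) nil nil) (node (nat_lit 7) (nat_lit
  36255) (nat_lit 10) nil (node (nat_lit 9) (nat_lit 32868) (nat_lit 10) nil nil))) nil) (node
  (nat_lit 5) (nat_lit 46627) (nat_lit 8) nil (node (nat_lit 4) (nat_lit 32868) (nat_lit 8) (node
  (nat_lit 5) (nat_lit 41066) (nat_lit 9) nil nil) nil))) (node (nat_lit 5) (nat_lit 50412)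
  (nat_lit 7) (node (nat_lit 9) (nat_lit 50412) (nat_lit 8) (node (nat_lit 4) (nat_lit 50412)
  (nat_lit 9) (node (nat_lit 5) (nat_lit 51063) (nat_lit 10) (node (nat_lit 4) (nat_lit 51063)
  (nat_lit 11) nil nil) nil) nil) (node (nat_lit 4) (nat_lit 50412) (nat_lit 8) nil nil)) (node
  (nat_lit 0) (nat_lit 46598) (nat_lit 7) (node (nat_lit 9) (nat_lit 46598) (nat_lit 8) nil nil)
  nil)))) (node (nat_lit 5) (nat_lit 50421) (nat_lit 6) (node (nat_lit 7) (nat_lit 51073) (nat_lit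
  7) (node (nat_lit 5) (nat_lit 54961) (nat_lit 8) nil (node (nat_lit 4) (nat_lit 52834) (nat_lit
  8) nil nil)) (node (nat_lit 3) (nat_lit 52258) (nat_lit 7) (node (nat_lit 4) (nat_lit 52258)
  (nat_lit 8) (node (nat_lit 5) (nat_lit 53072) (nat_lit 9) (node (nat_lit 4) (nat_lit 53072)
  (nat_lit 10) nil nil) nil) nil) (node (nat_lit 4) (nat_lit 51073) (nat_lit 7) nil nil))) (node
  (nat_lit 0) (nat_lit 51123) (nat_lit 6) (node (nat_lit 7) (nat_lit 51123) (nat_lit 7) nil nil)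
  nil))) (node (nat_lit 0) (nat_lit 0) (nat_lit 5) (node (nat_lit 7) (nat_lit 0) (nat_lit 6) (node
  (nat_lit 4) (nat_lit 49227) (nat_lit 7) (node (nat_lit 8) (nat_lit 51754) (nat_lit 8) nil (node
  (nat_lit 3) (nat_lit 47944) (nat_lit 8) nil nil)) (node (nat_lit 3) (nat_lit 49232) (nat_lit 7)
  (node (nat_lit 4) (nat_lit 49232) (nat_lit 8) nil nil) (node (nat_lit 5) (nat_lit 52439)
  (nat_lit 7) nil (node (nat_lit 0) (nat_lit 51476) (nat_lit 7) nil nil)))) (node (nat_lit 4)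
  (nat_lit 49129) (nat_lit 6) (node (nat_lit 8) (nat_lit 52439) (nat_lit 7) nil nil) (node
  (nat_lit 5) (nat_lit 52219) (nat_lit 6) nil (node (nat_lit 3) (nat_lit 48973) (nat_lit 6) (node
  (nat_lit 4) (nat_lit 48973) (nat_lit 7) (node (nat_lit 5) (nat_lit 50377) (nat_lit 8) nil nil)
  nil) (node (nat_lit 0) (nat_lit 52219) (nat_lit 6) nil nil))))) nil)))) nil))

noncomputable def t151 : Tr :=
  (node (nat_lit 0) (nat_lit 0) (nat_lit 3) (node (nat_lit 3) (nat_lit 0) (nat_lit 4) (node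
  (nat_lit 6) (nat_lit 136620) (nat_lit 5) (node (nat_lit 5) (nat_lit 138968) (nat_lit 6) (node
  (nat_lit 7) (nat_lit 138968) (nat_lit 7) (node (nat_lit 5) (nat_lit 139491) (nat_lit 8) nil nil)
  (node (nat_lit 4) (nat_lit 138968) (nat_lit 7) (node (nat_lit 7) (nat_lit 137240) (nat_lit 8)
  nil (node (nat_lit 5) (nat_lit 139491) (nat_lit 8) nil nil)) nil)) (node (nat_lit 4) (nat_lit
  138528) (nat_lit 6) (node (nat_lit 7) (nat_lit 138528) (nat_lit 7) (node (nat_lit 4) (nat_lit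
  138528) (nat_lit 8) (node (nat_lit 5) (nat_lit 134165) (nat_lit 9) nil nil) nil) nil) nil))
  (node (nat_lit 4) (nat_lit 129643) (nat_lit 5) (node (nat_lit 6) (nat_lit 135037) (nat_lit 6)
  nil (node (nat_lit 5) (nat_lit 135037) (nat_lit 6) (node (nat_lit 6) (nat_lit 66060) (nat_lit 7)
  (node (nat_lit 5) (nat_lit 67222) (nat_lit 8) (node (nat_lit 4) (nat_lit 68026) (nat_lit 9) nil
  nil) nil) nil) nil)) (node (nat_lit 5) (nat_lit 128123) (nat_lit 5) (node (nat_lit 6) (nat_lit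
  139808) (nat_lit 6) nil (node (nat_lit 7) (nat_lit 135896) (nat_lit 6) (node (nat_lit 4)
  (nat_lit 139368) (nat_lit 7) (node (nat_lit 5) (nat_lit 140331) (nat_lit 8) nil nil) nil) (node
  (nat_lit 4) (nat_lit 135967) (nat_lit 6) (node (nat_lit 5) (nat_lit 108852) (nat_lit 7) (node
  (nat_lit 7) (nat_lit 107591) (nat_lit 8) (node (nat_lit 4) (nat_lit 108960) (nat_lit 9) nil nil)
  (node (nat_lit 6) (nat_lit 72676) (nat_lit 8) nil nil)) nil) nil))) (node (nat_lit 0) (nat_lit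
  133947) (nat_lit 5) nil (node (nat_lit 2) (nat_lit 127179) (nat_lit 5) (node (nat_lit 5)
  (nat_lit 132667) (nat_lit 6) nil nil) nil))))) (node (nat_lit 4) (nat_lit 0) (nat_lit 4) (node
  (nat_lit 6) (nat_lit 131029) (nat_lit 5) (node (nat_lit 5) (nat_lit 139520) (nat_lit 6) (node
  (nat_lit 4) (nat_lit 146461) (nat_lit 7) (node (nat_lit 5) (nat_lit 147604) (nat_lit 8) (node
  (nat_lit 6) (nat_lit 147704) (nat_lit 9) (node (nat_lit 4) (nat_lit 147704) (nat_lit 10) nil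
  nil) nil) nil) (node (nat_lit 3) (nat_lit 143285) (nat_lit 7) nil nil)) (node (nat_lit 3)
  (nat_lit 140409) (nat_lit 6) (node (nat_lit 4) (nat_lit 145458) (nat_lit 7) (node (nat_lit 5)
  (nat_lit 146902) (nat_lit 8) nil nil) nil) nil)) (node (nat_lit 3) (nat_lit 129186) (nat_lit 5)
  (node (nat_lit 6) (nat_lit 136703) (nat_lit 6) nil (node (nat_lit 5) (nat_lit 134780) (nat_lit
  6) nil (node (nat_lit 4) (nat_lit 129186) (nat_lit 6) (node (nat_lit 5) (nat_lit 118294)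
  (nat_lit 7) (node (nat_lit 6) (nat_lit 82946) (nat_lit 8) nil nil) nil) nil))) (node (nat_lit 5)
  (nat_lit 123864) (nat_lit 5) (node (nat_lit 4) (nat_lit 138886) (nat_lit 6) nil (node (nat_lit
  3) (nat_lit 141362) (nat_lit 6) nil nil)) (node (nat_lit 0) (nat_lit 137427) (nat_lit 5) nil
  (node (nat_lit 2) (nat_lit 131416) (nat_lit 5) (node (nat_lit 5) (nat_lit 136003) (nat_lit 6)
  (node (nat_lit 4) (nat_lit 122128) (nat_lit 7) (node (nat_lit 5) (nat_lit 110320) (nat_lit 8)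
  nil nil) nil) nil) nil))))) (node (nat_lit 5) (nat_lit 0) (nat_lit 4) (node (nat_lit 3) (nat_lit
  128629) (nat_lit 5) (node (nat_lit 5) (nat_lit 138663) (nat_lit 6) nil (node (nat_lit 4)
  (nat_lit 138870) (nat_lit 6) (node (nat_lit 5) (nat_lit 143751) (nat_lit 7) (node (nat_lit 6)
  (nat_lit 143966) (nat_lit 8) (node (nat_lit 5) (nat_lit 66308) (nat_lit 9) nil nil) nil) nil)
  nil)) (node (nat_lit 4) (nat_lit 127208) (nat_lit 5) (node (nat_lit 3) (nat_lit 137556) (nat_lit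
  6) nil (node (nat_lit 5) (nat_lit 134922) (nat_lit 6) (node (nat_lit 6) (nat_lit 52136) (nat_lit
  7) nil nil) nil)) (node (nat_lit 2) (nat_lit 125798) (nat_lit 5) (node (nat_lit 5) (nat_lit
  134808) (nat_lit 6) (node (nat_lit 4) (nat_lit 123828) (nat_lit 7) nil nil) nil) (node (nat_lit
  0) (nat_lit 135162) (nat_lit 5) nil nil)))) (node (nat_lit 0) (nat_lit 0) (nat_lit 4) (node
  (nat_lit 0) (nat_lit 135012) (nat_lit 5) nil (node (nat_lit 2) (nat_lit 127801) (nat_lit 5)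
  (node (nat_lit 6) (nat_lit 137186) (nat_lit 6) nil (node (nat_lit 5) (nat_lit 128800) (nat_lit
  6) (node (nat_lit 4) (nat_lit 111881) (nat_lit 7) nil nil) (node (nat_lit 4) (nat_lit 131989)
  (nat_lit 6) (node (nat_lit 3) (nat_lit 121005) (nat_lit 7) nil nil) (node (nat_lit 3) (nat_lit
  127364) (nat_lit 6) (node (nat_lit 4) (nat_lit 120557) (nat_lit 7) nil (node (nat_lit 5)
  (nat_lit 129326) (nat_lit 7) nil nil)) nil)))) (node (nat_lit 5) (nat_lit 133378) (nat_lit 5)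
  (node (nat_lit 4) (nat_lit 141917) (nat_lit 6) (node (nat_lit 5) (nat_lit 142666) (nat_lit 7)
  nil nil) nil) (node (nat_lit 3) (nat_lit 131020) (nat_lit 5) (node (nat_lit 4) (nat_lit 136849)
  (nat_lit 6) (node (nat_lit 5) (nat_lit 142666) (nat_lit 7) nil nil) nil) (node (nat_lit 4)
  (nat_lit 135847) (nat_lit 5) (node (nat_lit 3) (nat_lit 131004) (nat_lit 6) nil nil) (node
  (nat_lit 6) (nat_lit 138111) (nat_lit 5) nil nil)))))) (node (nat_lit 2) (nat_lit 0) (nat_lit 4)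
  (node (nat_lit 0) (nat_lit 133713) (nat_lit 5) nil (node (nat_lit 5) (nat_lit 124995) (nat_lit
  5) (node (nat_lit 4) (nat_lit 137242) (nat_lit 6) (node (nat_lit 5) (nat_lit 106941) (nat_lit 7)
  (node (nat_lit 6) (nat_lit 69306) (nat_lit 8) nil nil) nil) nil) (node (nat_lit 3) (nat_lit
  125779) (nat_lit 5) (node (nat_lit 5) (nat_lit 131268) (nat_lit 6) (node (nat_lit 4) (nat_lit
  123141) (nat_lit 7) (node (nat_lit 5) (nat_lit 107652) (nat_lit 8) nil nil) nil) (node (nat_lit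
  4) (nat_lit 127917) (nat_lit 6) (node (nat_lit 5) (nat_lit 92138) (nat_lit 7) nil nil) nil))
  (node (nat_lit 4) (nat_lit 130499) (nat_lit 5) (node (nat_lit 3) (nat_lit 123054) (nat_lit 6)
  (node (nat_lit 5) (nat_lit 118750) (nat_lit 7) (node (nat_lit 4) (nat_lit 114034) (nat_lit 8)
  nil nil) (node (nat_lit 4) (nat_lit 103393) (nat_lit 7) (node (nat_lit 5) (nat_lit 93404)
  (nat_lit 8) nil nil) nil)) (node (nat_lit 5) (nat_lit 135339) (nat_lit 6) nil nil)) (node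
  (nat_lit 6) (nat_lit 134899) (nat_lit 5) (node (nat_lit 5) (nat_lit 135339) (nat_lit 6) nil nil)
  nil))))) nil))))) (node (nat_lit 2) (nat_lit 0) (nat_lit 3) (node (nat_lit 3) (nat_lit 0)
  (nat_lit 4) (node (nat_lit 6) (nat_lit 0) (nat_lit 5) (node (nat_lit 5) (nat_lit 0) (nat_lit 6)
  (node (nat_lit 7) (nat_lit 104782) (nat_lit 7) (node (nat_lit 5) (nat_lit 108913) (nat_lit 8)
  (node (nat_lit 6) (nat_lit 119085) (nat_lit 9) (node (nat_lit 7) (nat_lit 124854) (nat_lit 10)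
  (node (nat_lit 6) (nat_lit 127762) (nat_lit 11) nil nil) nil) nil) (node (nat_lit 4) (nat_lit
  126000) (nat_lit 8) (node (nat_lit 5) (nat_lit 127805) (nat_lit 9) (node (nat_lit 6) (nat_lit
  123662) (nat_lit 10) nil nil) nil) nil)) (node (nat_lit 4) (nat_lit 113653) (nat_lit 7) (node
  (nat_lit 7) (nat_lit 115095) (nat_lit 8) nil (node (nat_lit 5) (nat_lit 103281) (nat_lit 8)
  (node (nat_lit 6) (nat_lit 94699) (nat_lit 9) (node (nat_lit 7) (nat_lit 61265) (nat_lit 10) nil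
  nil) nil) nil)) (node (nat_lit 6) (nat_lit 104782) (nat_lit 7) (node (nat_lit 7) (nat_lit
  108919) (nat_lit 8) (node (nat_lit 5) (nat_lit 118497) (nat_lit 9) nil nil) (node (nat_lit 4)
  (nat_lit 125398) (nat_lit 8) nil nil)) (node (nat_lit 0) (nat_lit 121317) (nat_lit 7) nil
  nil)))) (node (nat_lit 4) (nat_lit 125052) (nat_lit 6) (node (nat_lit 7) (nat_lit 127329)
  (nat_lit 7) (node (nat_lit 4) (nat_lit 124894) (nat_lit 8) (node (nat_lit 5) (nat_lit 115817)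
  (nat_lit 9) nil nil) (node (nat_lit 5) (nat_lit 126427) (nat_lit 8) nil nil)) (node (nat_lit 5)
  (nat_lit 130466) (nat_lit 7) nil (node (nat_lit 6) (nat_lit 127790) (nat_lit 7) nil nil))) (node
  (nat_lit 0) (nat_lit 121610) (nat_lit 6) (node (nat_lit 5) (nat_lit 125578) (nat_lit 7) nil
  (node (nat_lit 7) (nat_lit 124267) (nat_lit 7) (node (nat_lit 4) (nat_lit 126878) (nat_lit 8)
  nil nil) (node (nat_lit 4) (nat_lit 119690) (nat_lit 7) nil nil))) nil))) (node (nat_lit 4)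
  (nat_lit 0) (nat_lit 5) (node (nat_lit 6) (nat_lit 0) (nat_lit 6) (node (nat_lit 4) (nat_lit
  109438) (nat_lit 7) (node (nat_lit 7) (nat_lit 112824) (nat_lit 8) nil (node (nat_lit 5)
  (nat_lit 112824) (nat_lit 8) nil nil)) (node (nat_lit 5) (nat_lit 109438) (nat_lit 7) (node
  (nat_lit 4) (nat_lit 112824) (nat_lit 8) nil (node (nat_lit 7) (nat_lit 111745) (nat_lit 8) nil
  nil)) (node (nat_lit 7) (nat_lit 109438) (nat_lit 7) (node (nat_lit 6) (nat_lit 112824) (nat_lit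
  8) (node (nat_lit 4) (nat_lit 115252) (nat_lit 9) nil nil) (node (nat_lit 5) (nat_lit 112824)
  (nat_lit 8) (node (nat_lit 4) (nat_lit 115252) (nat_lit 9) (node (nat_lit 5) (nat_lit 110708)
  (nat_lit 10) nil nil) nil) nil)) (node (nat_lit 0) (nat_lit 109438) (nat_lit 7) nil nil))))
  (node (nat_lit 5) (nat_lit 81212) (nat_lit 6) (node (nat_lit 6) (nat_lit 66620) (nat_lit 7) nil
  nil) (node (nat_lit 7) (nat_lit 104384) (nat_lit 6) (node (nat_lit 6) (nat_lit 109438) (nat_lit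
  7) (node (nat_lit 7) (nat_lit 112824) (nat_lit 8) (node (nat_lit 4) (nat_lit 115252) (nat_lit 9)
  (node (nat_lit 5) (nat_lit 108805) (nat_lit 10) nil nil) nil) (node (nat_lit 5) (nat_lit 112824)
  (nat_lit 8) nil nil)) (node (nat_lit 5) (nat_lit 109438) (nat_lit 7) (node (nat_lit 4) (nat_lit
  112824) (nat_lit 8) (node (nat_lit 5) (nat_lit 110262) (nat_lit 9) nil nil) (node (nat_lit 7)
  (nat_lit 112824) (nat_lit 8) nil nil)) nil)) (node (nat_lit 0) (nat_lit 104384) (nat_lit 6) nil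
  nil)))) (node (nat_lit 5) (nat_lit 0) (nat_lit 5) (node (nat_lit 7) (nat_lit 98723) (nat_lit 6)
  (node (nat_lit 6) (nat_lit 104812) (nat_lit 7) (node (nat_lit 7) (nat_lit 107155) (nat_lit 8)
  nil (node (nat_lit 5) (nat_lit 108930) (nat_lit 8) nil nil)) (node (nat_lit 4) (nat_lit 124685)
  (nat_lit 7) (node (nat_lit 5) (nat_lit 128667) (nat_lit 8) nil nil) nil)) (node (nat_lit 4)
  (nat_lit 108392) (nat_lit 6) (node (nat_lit 7) (nat_lit 113926) (nat_lit 7) nil (node (nat_lit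
  5) (nat_lit 102071) (nat_lit 7) (node (nat_lit 7) (nat_lit 104046) (nat_lit 8) (node (nat_lit 4)
  (nat_lit 104699) (nat_lit 9) nil nil) (node (nat_lit 6) (nat_lit 64333) (nat_lit 8) nil nil))
  nil)) (node (nat_lit 6) (nat_lit 0) (nat_lit 6) (node (nat_lit 5) (nat_lit 104797) (nat_lit 7)
  (node (nat_lit 7) (nat_lit 108926) (nat_lit 8) (node (nat_lit 4) (nat_lit 125424) (nat_lit 9)
  nil (node (nat_lit 6) (nat_lit 118309) (nat_lit 9) nil nil)) (node (nat_lit 4) (nat_lit 119631)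
  (nat_lit 8) (node (nat_lit 5) (nat_lit 114682) (nat_lit 9) nil nil) nil)) (node (nat_lit 4)
  (nat_lit 124615) (nat_lit 7) (node (nat_lit 5) (nat_lit 124069) (nat_lit 8) nil (node (nat_lit
  7) (nat_lit 128746) (nat_lit 8) (node (nat_lit 4) (nat_lit 127707) (nat_lit 9) nil nil) nil))
  (node (nat_lit 0) (nat_lit 123552) (nat_lit 7) nil nil))) (node (nat_lit 0) (nat_lit 120619)
  (nat_lit 6) nil nil)))) (node (nat_lit 0) (nat_lit 116230) (nat_lit 5) (node (nat_lit 5)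
  (nat_lit 124043) (nat_lit 6) nil (node (nat_lit 7) (nat_lit 124883) (nat_lit 6) nil (node
  (nat_lit 4) (nat_lit 126188) (nat_lit 6) (node (nat_lit 7) (nat_lit 129647) (nat_lit 7) nil nil)
  nil))) nil)))) (node (nat_lit 4) (nat_lit 0) (nat_lit 4) (node (nat_lit 6) (nat_lit 0) (nat_lit
  5) (node (nat_lit 5) (nat_lit 0) (nat_lit 6) (node (nat_lit 4) (nat_lit 121784) (nat_lit 7)
  (node (nat_lit 5) (nat_lit 127125) (nat_lit 8) (node (nat_lit 6) (nat_lit 120397) (nat_lit 9)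
  (node (nat_lit 4) (nat_lit 79363) (nat_lit 10) nil nil) nil) nil) (node (nat_lit 3) (nat_lit
  135227) (nat_lit 7) (node (nat_lit 4) (nat_lit 142036) (nat_lit 8) nil nil) (node (nat_lit 6)
  (nat_lit 117207) (nat_lit 7) (node (nat_lit 4) (nat_lit 132401) (nat_lit 8) nil (node (nat_lit
  3) (nat_lit 129185) (nat_lit 8) nil nil)) (node (nat_lit 0) (nat_lit 139363) (nat_lit 7) nil
  nil)))) (node (nat_lit 3) (nat_lit 126314) (nat_lit 6) (node (nat_lit 4) (nat_lit 127531)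
  (nat_lit 7) (node (nat_lit 9) (nat_lit 127531) (nat_lit 8) nil (node (nat_lit 5) (nat_lit
  123248) (nat_lit 8) (node (nat_lit 6) (nat_lit 103358) (nat_lit 9) (node (nat_lit 4) (nat_lit
  69379) (nat_lit 10) nil nil) nil) nil)) (node (nat_lit 5) (nat_lit 133758) (nat_lit 7) (node
  (nat_lit 4) (nat_lit 126122) (nat_lit 8) (node (nat_lit 5) (nat_lit 122030) (nat_lit 9) nil nil)
  nil) (node (nat_lit 6) (nat_lit 126270) (nat_lit 7) nil nil))) (node (nat_lit 0) (nat_lit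
  133298) (nat_lit 6) (node (nat_lit 5) (nat_lit 138346) (nat_lit 7) nil nil) nil))) (node
  (nat_lit 3) (nat_lit 0) (nat_lit 5) (node (nat_lit 6) (nat_lit 0) (nat_lit 6) (node (nat_lit 8)
  (nat_lit 127456) (nat_lit 7) (node (nat_lit 4) (nat_lit 127456) (nat_lit 8) (node (nat_lit 5)
  (nat_lit 122343) (nat_lit 9) (node (nat_lit 6) (nat_lit 108915) (nat_lit 10) (node (nat_lit 4)
  (nat_lit 92060) (nat_lit 11) (node (nat_lit 8) (nat_lit 68924) (nat_lit 12) nil nil) nil) nil)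
  nil) (node (nat_lit 5) (nat_lit 133578) (nat_lit 8) (node (nat_lit 4) (nat_lit 130239) (nat_lit
  9) nil nil) nil)) (node (nat_lit 5) (nat_lit 131372) (nat_lit 7) (node (nat_lit 8) (nat_lit
  136107) (nat_lit 8) (node (nat_lit 4) (nat_lit 136566) (nat_lit 9) (node (nat_lit 5) (nat_lit
  137853) (nat_lit 10) nil nil) nil) (node (nat_lit 4) (nat_lit 135683) (nat_lit 8) (node (nat_lit
  5) (nat_lit 123702) (nat_lit 9) (node (nat_lit 6) (nat_lit 108781) (nat_lit 10) (node (nat_lit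
  4) (nat_lit 96437) (nat_lit 11) nil nil) nil) nil) nil)) (node (nat_lit 4) (nat_lit 127456)
  (nat_lit 7) (node (nat_lit 6) (nat_lit 127456) (nat_lit 8) (node (nat_lit 8) (nat_lit 124753)
  (nat_lit 9) nil nil) (node (nat_lit 5) (nat_lit 133578) (nat_lit 8) (node (nat_lit 8) (nat_lit
  133578) (nat_lit 9) (node (nat_lit 5) (nat_lit 133894) (nat_lit 10) nil nil) nil) nil)) (node
  (nat_lit 0) (nat_lit 133284) (nat_lit 7) nil nil)))) (node (nat_lit 5) (nat_lit 123394) (nat_lit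
  6) (node (nat_lit 4) (nat_lit 127218) (nat_lit 7) (node (nat_lit 5) (nat_lit 109634) (nat_lit 8)
  (node (nat_lit 6) (nat_lit 95399) (nat_lit 9) (node (nat_lit 4) (nat_lit 73712) (nat_lit 10) nil
  nil) nil) nil) (node (nat_lit 8) (nat_lit 131135) (nat_lit 7) (node (nat_lit 4) (nat_lit 133747)
  (nat_lit 8) (node (nat_lit 5) (nat_lit 135552) (nat_lit 9) nil nil) nil) nil)) (node (nat_lit 4)
  (nat_lit 122548) (nat_lit 6) (node (nat_lit 6) (nat_lit 126210) (nat_lit 7) (node (nat_lit 4)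
  (nat_lit 126210) (nat_lit 8) nil (node (nat_lit 5) (nat_lit 129093) (nat_lit 8) nil nil)) (node
  (nat_lit 5) (nat_lit 102888) (nat_lit 7) (node (nat_lit 8) (nat_lit 106671) (nat_lit 8) nil
  (node (nat_lit 6) (nat_lit 77284) (nat_lit 8) (node (nat_lit 4) (nat_lit 71174) (nat_lit 9) nil
  nil) nil)) nil)) (node (nat_lit 0) (nat_lit 128651) (nat_lit 6) nil nil)))) (node (nat_lit 5)
  (nat_lit 0) (nat_lit 5) (node (nat_lit 4) (nat_lit 109329) (nat_lit 6) (node (nat_lit 6)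
  (nat_lit 124538) (nat_lit 7) (node (nat_lit 4) (nat_lit 135738) (nat_lit 8) nil (node (nat_lit
  5) (nat_lit 134404) (nat_lit 8) nil nil)) (node (nat_lit 3) (nat_lit 135908) (nat_lit 7) nil
  nil)) (node (nat_lit 3) (nat_lit 128348) (nat_lit 6) (node (nat_lit 4) (nat_lit 139569) (nat_lit
  7) (node (nat_lit 5) (nat_lit 141638) (nat_lit 8) nil nil) (node (nat_lit 5) (nat_lit 137078)
  (nat_lit 7) (node (nat_lit 4) (nat_lit 140728) (nat_lit 8) nil nil) nil)) (node (nat_lit 0)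
  (nat_lit 133497) (nat_lit 6) nil nil))) (node (nat_lit 0) (nat_lit 125465) (nat_lit 5) (node
  (nat_lit 5) (nat_lit 135179) (nat_lit 6) nil (node (nat_lit 4) (nat_lit 136776) (nat_lit 6) nil
  (node (nat_lit 3) (nat_lit 135090) (nat_lit 6) nil nil))) nil)))) (node (nat_lit 5) (nat_lit 0)
  (nat_lit 4) (node (nat_lit 3) (nat_lit 0) (nat_lit 5) (node (nat_lit 6) (nat_lit 112025)
  (nat_lit 6) (node (nat_lit 5) (nat_lit 116417) (nat_lit 7) (node (nat_lit 4) (nat_lit 128449)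
  (nat_lit 8) (node (nat_lit 5) (nat_lit 119051) (nat_lit 9) nil nil) nil) (node (nat_lit 8)
  (nat_lit 117147) (nat_lit 7) (node (nat_lit 4) (nat_lit 125245) (nat_lit 8) nil nil) (node
  (nat_lit 4) (nat_lit 127326) (nat_lit 7) nil nil))) (node (nat_lit 4) (nat_lit 133767) (nat_lit
  6) (node (nat_lit 5) (nat_lit 137735) (nat_lit 7) (node (nat_lit 6) (nat_lit 131574) (nat_lit 8)
  (node (nat_lit 5) (nat_lit 58767) (nat_lit 9) nil nil) nil) nil) (node (nat_lit 5) (nat_lit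
  112062) (nat_lit 6) (node (nat_lit 4) (nat_lit 128446) (nat_lit 7) (node (nat_lit 5) (nat_lit
  117915) (nat_lit 8) (node (nat_lit 6) (nat_lit 104549) (nat_lit 9) (node (nat_lit 5) (nat_lit
  69511) (nat_lit 10) nil nil) nil) (node (nat_lit 8) (nat_lit 123199) (nat_lit 8) nil nil)) (node
  (nat_lit 6) (nat_lit 118337) (nat_lit 7) (node (nat_lit 8) (nat_lit 121010) (nat_lit 8) nil nil)
  nil)) (node (nat_lit 0) (nat_lit 129160) (nat_lit 6) nil nil)))) (node (nat_lit 4) (nat_lit 0)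
  (nat_lit 5) (node (nat_lit 6) (nat_lit 98389) (nat_lit 6) (node (nat_lit 5) (nat_lit 107230)
  (nat_lit 7) nil (node (nat_lit 4) (nat_lit 110444) (nat_lit 7) nil (node (nat_lit 3) (nat_lit
  122246) (nat_lit 7) nil nil))) (node (nat_lit 3) (nat_lit 109529) (nat_lit 6) (node (nat_lit 4)
  (nat_lit 110822) (nat_lit 7) (node (nat_lit 5) (nat_lit 109374) (nat_lit 8) nil nil) nil) (node
  (nat_lit 5) (nat_lit 68106) (nat_lit 6) (node (nat_lit 3) (nat_lit 79363) (nat_lit 7) (node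
  (nat_lit 5) (nat_lit 79363) (nat_lit 8) nil (node (nat_lit 4) (nat_lit 79363) (nat_lit 8) nil
  nil)) (node (nat_lit 6) (nat_lit 50642) (nat_lit 7) nil nil)) (node (nat_lit 0) (nat_lit 116896)
  (nat_lit 6) nil nil)))) (node (nat_lit 0) (nat_lit 122349) (nat_lit 5) (node (nat_lit 5)
  (nat_lit 130905) (nat_lit 6) nil nil) nil))) (node (nat_lit 0) (nat_lit 0) (nat_lit 4) (node
  (nat_lit 0) (nat_lit 129914) (nat_lit 5) (node (nat_lit 5) (nat_lit 135834) (nat_lit 6) nil nil)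
  (node (nat_lit 5) (nat_lit 124844) (nat_lit 5) (node (nat_lit 4) (nat_lit 135394) (nat_lit 6)
  (node (nat_lit 5) (nat_lit 139362) (nat_lit 7) nil nil) nil) (node (nat_lit 3) (nat_lit 125171)
  (nat_lit 5) (node (nat_lit 5) (nat_lit 132574) (nat_lit 6) (node (nat_lit 4) (nat_lit 132209)
  (nat_lit 7) nil nil) (node (nat_lit 4) (nat_lit 134346) (nat_lit 6) (node (nat_lit 5) (nat_lit
  138314) (nat_lit 7) nil nil) nil)) (node (nat_lit 4) (nat_lit 128628) (nat_lit 5) (node (nat_lit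
  5) (nat_lit 134988) (nat_lit 6) nil nil) (node (nat_lit 6) (nat_lit 124950) (nat_lit 5) (node
  (nat_lit 5) (nat_lit 134037) (nat_lit 6) nil (node (nat_lit 4) (nat_lit 139031) (nat_lit 6) nil
  (node (nat_lit 3) (nat_lit 134509) (nat_lit 6) nil nil))) nil))))) nil)))) nil))

noncomputable def t152 : Tr :=
  (node (nat_lit 0) (nat_lit 0) (nat_lit 5) (node (nat_lit 4) (nat_lit 0) (nat_lit 6) (node
  (nat_lit 6) (nat_lit 86911) (nat_lit 7) (node (nat_lit 4) (nat_lit 89443) (nat_lit 8) (node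
  (nat_lit 8) (nat_lit 91196) (nat_lit 9) nil (node (nat_lit 5) (nat_lit 86291) (nat_lit 9) (node
  (nat_lit 6) (nat_lit 57735) (nat_lit 10) nil nil) nil)) (node (nat_lit 8) (nat_lit 89443)
  (nat_lit 8) nil (node (nat_lit 5) (nat_lit 89443) (nat_lit 8) (node (nat_lit 4) (nat_lit 87872)
  (nat_lit 9) nil nil) nil))) (node (nat_lit 5) (nat_lit 90897) (nat_lit 7) (node (nat_lit 4)
  (nat_lit 93430) (nat_lit 8) (node (nat_lit 8) (nat_lit 95182) (nat_lit 9) (node (nat_lit 5)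
  (nat_lit 96512) (nat_lit 10) (node (nat_lit 4) (nat_lit 95500) (nat_lit 11) nil nil) nil) (node
  (nat_lit 6) (nat_lit 95182) (nat_lit 9) (node (nat_lit 4) (nat_lit 96512) (nat_lit 10) nil nil)
  nil)) (node (nat_lit 6) (nat_lit 93430) (nat_lit 8) nil (node (nat_lit 8) (nat_lit 93430)
  (nat_lit 8) nil nil))) (node (nat_lit 0) (nat_lit 90635) (nat_lit 7) (node (nat_lit 4) (nat_lit
  88910) (nat_lit 8) nil (node (nat_lit 5) (nat_lit 93168) (nat_lit 8) nil (node (nat_lit 6)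
  (nat_lit 93168) (nat_lit 8) nil nil))) (node (nat_lit 2) (nat_lit 89640) (nat_lit 7) (node
  (nat_lit 4) (nat_lit 92227) (nat_lit 8) nil (node (nat_lit 8) (nat_lit 92173) (nat_lit 8) nil
  (node (nat_lit 5) (nat_lit 87529) (nat_lit 8) (node (nat_lit 4) (nat_lit 74053) (nat_lit 9) nil
  nil) (node (nat_lit 6) (nat_lit 91682) (nat_lit 8) (node (nat_lit 4) (nat_lit 81529) (nat_lit 9)
  nil nil) nil)))) nil)))) (node (nat_lit 6) (nat_lit 0) (nat_lit 6) (node (nat_lit 8) (nat_lit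
  90819) (nat_lit 7) (node (nat_lit 4) (nat_lit 93352) (nat_lit 8) (node (nat_lit 8) (nat_lit
  95104) (nat_lit 9) nil nil) nil) (node (nat_lit 4) (nat_lit 87796) (nat_lit 7) (node (nat_lit 6)
  (nat_lit 90329) (nat_lit 8) nil (node (nat_lit 5) (nat_lit 90329) (nat_lit 8) (node (nat_lit 6)
  (nat_lit 92081) (nat_lit 9) nil nil) nil)) (node (nat_lit 5) (nat_lit 91320) (nat_lit 7) (node
  (nat_lit 4) (nat_lit 93853) (nat_lit 8) (node (nat_lit 6) (nat_lit 95605) (nat_lit 9) nil (node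
  (nat_lit 5) (nat_lit 95605) (nat_lit 9) (node (nat_lit 6) (nat_lit 96936) (nat_lit 10) (node
  (nat_lit 4) (nat_lit 98109) (nat_lit 11) nil nil) nil) nil)) nil) (node (nat_lit 0) (nat_lit
  89992) (nat_lit 7) nil (node (nat_lit 2) (nat_lit 85267) (nat_lit 7) nil nil))))) (node (nat_lit
  5) (nat_lit 86269) (nat_lit 6) (node (nat_lit 4) (nat_lit 87976) (nat_lit 7) (node (nat_lit 5)
  (nat_lit 90508) (nat_lit 8) (node (nat_lit 6) (nat_lit 92261) (nat_lit 9) (node (nat_lit 4)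
  (nat_lit 93591) (nat_lit 10) nil nil) nil) (node (nat_lit 6) (nat_lit 90508) (nat_lit 8) nil
  nil)) (node (nat_lit 6) (nat_lit 90173) (nat_lit 7) (node (nat_lit 4) (nat_lit 92706) (nat_lit
  8) nil nil) (node (nat_lit 8) (nat_lit 92091) (nat_lit 7) nil nil))) (node (nat_lit 0) (nat_lit
  86446) (nat_lit 6) (node (nat_lit 4) (nat_lit 90294) (nat_lit 7) (node (nat_lit 8) (nat_lit
  92826) (nat_lit 8) nil nil) (node (nat_lit 8) (nat_lit 91505) (nat_lit 7) nil (node (nat_lit 6)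
  (nat_lit 90294) (nat_lit 7) nil (node (nat_lit 5) (nat_lit 91505) (nat_lit 7) nil nil)))) (node
  (nat_lit 2) (nat_lit 85325) (nat_lit 6) (node (nat_lit 4) (nat_lit 89405) (nat_lit 7) (node
  (nat_lit 8) (nat_lit 91937) (nat_lit 8) nil (node (nat_lit 6) (nat_lit 90367) (nat_lit 8) nil
  nil)) (node (nat_lit 8) (nat_lit 90973) (nat_lit 7) nil (node (nat_lit 6) (nat_lit 86830)
  (nat_lit 7) nil (node (nat_lit 5) (nat_lit 90973) (nat_lit 7) nil nil)))) nil))))) (node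
  (nat_lit 2) (nat_lit 0) (nat_lit 5) (node (nat_lit 4) (nat_lit 0) (nat_lit 6) (node (nat_lit 6)
  (nat_lit 69874) (nat_lit 7) (node (nat_lit 4) (nat_lit 72406) (nat_lit 8) (node (nat_lit 8)
  (nat_lit 74159) (nat_lit 9) (node (nat_lit 6) (nat_lit 78804) (nat_lit 10) (node (nat_lit 4)
  (nat_lit 81576) (nat_lit 11) (node (nat_lit 6) (nat_lit 82640) (nat_lit 12) nil (node (nat_lit
  5) (nat_lit 79607) (nat_lit 12) (node (nat_lit 6) (nat_lit 80067) (nat_lit 13) nil nil) nil))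
  (node (nat_lit 8) (nat_lit 78192) (nat_lit 11) (node (nat_lit 4) (nat_lit 77503) (nat_lit 12)
  (node (nat_lit 6) (nat_lit 77933) (nat_lit 13) nil nil) nil) nil)) (node (nat_lit 5) (nat_lit
  84610) (nat_lit 10) (node (nat_lit 4) (nat_lit 77321) (nat_lit 11) nil nil) (node (nat_lit 0)
  (nat_lit 79752) (nat_lit 10) nil nil))) (node (nat_lit 5) (nat_lit 78031) (nat_lit 9) (node
  (nat_lit 6) (nat_lit 50210) (nat_lit 10) (node (nat_lit 4) (nat_lit 50748) (nat_lit 11) nil nil)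
  nil) nil)) (node (nat_lit 8) (nat_lit 72406) (nat_lit 8) (node (nat_lit 4) (nat_lit 74159)
  (nat_lit 9) (node (nat_lit 8) (nat_lit 78742) (nat_lit 10) (node (nat_lit 6) (nat_lit 80912)
  (nat_lit 11) (node (nat_lit 4) (nat_lit 82235) (nat_lit 12) nil nil) nil) (node (nat_lit 5)
  (nat_lit 82457) (nat_lit 10) nil nil)) (node (nat_lit 6) (nat_lit 74159) (nat_lit 9) (node
  (nat_lit 4) (nat_lit 77289) (nat_lit 10) nil nil) (node (nat_lit 5) (nat_lit 79882) (nat_lit 9)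
  nil (node (nat_lit 0) (nat_lit 74159) (nat_lit 9) nil nil)))) (node (nat_lit 5) (nat_lit 88266)
  (nat_lit 8) (node (nat_lit 4) (nat_lit 90018) (nat_lit 9) (node (nat_lit 5) (nat_lit 91348)
  (nat_lit 10) (node (nat_lit 6) (nat_lit 92522) (nat_lit 11) (node (nat_lit 4) (nat_lit 93586)
  (nat_lit 12) nil nil) nil) (node (nat_lit 6) (nat_lit 87090) (nat_lit 10) (node (nat_lit 4)
  (nat_lit 86245) (nat_lit 11) nil nil) nil)) (node (nat_lit 6) (nat_lit 88728) (nat_lit 9) (node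
  (nat_lit 4) (nat_lit 90058) (nat_lit 10) nil nil) nil)) (node (nat_lit 0) (nat_lit 83640)
  (nat_lit 8) nil nil)))) (node (nat_lit 5) (nat_lit 88612) (nat_lit 7) (node (nat_lit 4) (nat_lit
  89574) (nat_lit 8) (node (nat_lit 8) (nat_lit 91359) (nat_lit 9) (node (nat_lit 5) (nat_lit
  92064) (nat_lit 10) (node (nat_lit 4) (nat_lit 89676) (nat_lit 11) (node (nat_lit 5) (nat_lit
  89276) (nat_lit 12) (node (nat_lit 6) (nat_lit 79474) (nat_lit 13) nil nil) nil) nil) nil) (node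
  (nat_lit 6) (nat_lit 91326) (nat_lit 9) (node (nat_lit 4) (nat_lit 92657) (nat_lit 10) nil nil)
  nil)) (node (nat_lit 6) (nat_lit 90009) (nat_lit 8) (node (nat_lit 5) (nat_lit 91761) (nat_lit
  9) (node (nat_lit 4) (nat_lit 90414) (nat_lit 10) nil nil) nil) (node (nat_lit 8) (nat_lit
  91717) (nat_lit 8) (node (nat_lit 5) (nat_lit 93906) (nat_lit 9) (node (nat_lit 4) (nat_lit
  92942) (nat_lit 10) nil nil) nil) (node (nat_lit 0) (nat_lit 91145) (nat_lit 8) nil nil))))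
  (node (nat_lit 0) (nat_lit 86817) (nat_lit 7) (node (nat_lit 4) (nat_lit 87780) (nat_lit 8)
  (node (nat_lit 6) (nat_lit 83854) (nat_lit 9) (node (nat_lit 5) (nat_lit 85184) (nat_lit 10) nil
  nil) nil) (node (nat_lit 5) (nat_lit 89350) (nat_lit 8) (node (nat_lit 4) (nat_lit 87779)
  (nat_lit 9) nil nil) (node (nat_lit 8) (nat_lit 81025) (nat_lit 8) nil (node (nat_lit 6)
  (nat_lit 89350) (nat_lit 8) (node (nat_lit 4) (nat_lit 91103) (nat_lit 9) nil nil) nil))))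
  nil))) (node (nat_lit 6) (nat_lit 0) (nat_lit 6) (node (nat_lit 8) (nat_lit 69947) (nat_lit 7)
  (node (nat_lit 4) (nat_lit 72480) (nat_lit 8) (node (nat_lit 8) (nat_lit 74240) (nat_lit 9)
  (node (nat_lit 6) (nat_lit 77944) (nat_lit 10) (node (nat_lit 4) (nat_lit 80898) (nat_lit 11)
  (node (nat_lit 5) (nat_lit 73934) (nat_lit 12) (node (nat_lit 6) (nat_lit 71605) (nat_lit 13)
  nil nil) nil) (node (nat_lit 5) (nat_lit 79118) (nat_lit 11) nil nil)) nil) (node (nat_lit 6)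
  (nat_lit 74233) (nat_lit 9) (node (nat_lit 4) (nat_lit 77003) (nat_lit 10) nil nil) (node
  (nat_lit 5) (nat_lit 85319) (nat_lit 9) nil nil))) (node (nat_lit 5) (nat_lit 88138) (nat_lit 8)
  nil (node (nat_lit 0) (nat_lit 86072) (nat_lit 8) nil nil))) (node (nat_lit 4) (nat_lit 69947)
  (nat_lit 7) (node (nat_lit 6) (nat_lit 72480) (nat_lit 8) (node (nat_lit 8) (nat_lit 74233)
  (nat_lit 9) (node (nat_lit 4) (nat_lit 76448) (nat_lit 10) (node (nat_lit 6) (nat_lit 74299)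
  (nat_lit 11) nil nil) nil) (node (nat_lit 5) (nat_lit 81729) (nat_lit 9) nil nil)) (node
  (nat_lit 5) (nat_lit 79605) (nat_lit 8) (node (nat_lit 6) (nat_lit 47330) (nat_lit 9) nil nil)
  (node (nat_lit 0) (nat_lit 80732) (nat_lit 8) nil nil))) (node (nat_lit 5) (nat_lit 90471)
  (nat_lit 7) (node (nat_lit 4) (nat_lit 92393) (nat_lit 8) (node (nat_lit 6) (nat_lit 94145)
  (nat_lit 9) nil (node (nat_lit 5) (nat_lit 95096) (nat_lit 9) (node (nat_lit 6) (nat_lit 96427)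
  (nat_lit 10) (node (nat_lit 4) (nat_lit 97601) (nat_lit 11) nil nil) nil) nil)) nil) (node
  (nat_lit 0) (nat_lit 86427) (nat_lit 7) nil nil)))) (node (nat_lit 5) (nat_lit 0) (nat_lit 6)
  (node (nat_lit 4) (nat_lit 75001) (nat_lit 7) (node (nat_lit 5) (nat_lit 65314) (nat_lit 8)
  (node (nat_lit 8) (nat_lit 67613) (nat_lit 9) (node (nat_lit 4) (nat_lit 68378) (nat_lit 10)
  (node (nat_lit 8) (nat_lit 69650) (nat_lit 11) (node (nat_lit 5) (nat_lit 68036) (nat_lit 12)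
  (node (nat_lit 4) (nat_lit 66544) (nat_lit 13) nil nil) nil) nil) nil) (node (nat_lit 6)
  (nat_lit 46970) (nat_lit 9) (node (nat_lit 4) (nat_lit 47690) (nat_lit 10) nil nil) nil)) (node
  (nat_lit 6) (nat_lit 79393) (nat_lit 8) (node (nat_lit 5) (nat_lit 82126) (nat_lit 9) nil nil)
  (node (nat_lit 0) (nat_lit 78780) (nat_lit 8) nil nil))) (node (nat_lit 6) (nat_lit 86449)
  (nat_lit 7) (node (nat_lit 4) (nat_lit 88981) (nat_lit 8) nil (node (nat_lit 5) (nat_lit 90270)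
  (nat_lit 8) nil nil)) (node (nat_lit 8) (nat_lit 87510) (nat_lit 7) (node (nat_lit 4) (nat_lit
  90616) (nat_lit 8) nil nil) (node (nat_lit 0) (nat_lit 87977) (nat_lit 7) nil nil)))) (node
  (nat_lit 0) (nat_lit 83412) (nat_lit 6) (node (nat_lit 4) (nat_lit 87413) (nat_lit 7) (node
  (nat_lit 6) (nat_lit 89946) (nat_lit 8) nil nil) (node (nat_lit 8) (nat_lit 88088) (nat_lit 7)
  nil (node (nat_lit 6) (nat_lit 87549) (nat_lit 7) nil (node (nat_lit 5) (nat_lit 88471) (nat_lit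
  7) nil nil)))) nil)))) (node (nat_lit 5) (nat_lit 0) (nat_lit 5) (node (nat_lit 0) (nat_lit 0)
  (nat_lit 6) (node (nat_lit 4) (nat_lit 21735) (nat_lit 7) (node (nat_lit 5) (nat_lit 22620)
  (nat_lit 8) (node (nat_lit 4) (nat_lit 22319) (nat_lit 9) (node (nat_lit 9) (nat_lit 24162)
  (nat_lit 10) (node (nat_lit 5) (nat_lit 24162) (nat_lit 11) nil nil) (node (nat_lit 6) (nat_lit
  24162) (nat_lit 10) (node (nat_lit 5) (nat_lit 24162) (nat_lit 11) nil nil) nil)) (node (nat_lit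
  6) (nat_lit 25066) (nat_lit 9) (node (nat_lit 5) (nat_lit 25066) (nat_lit 10) nil nil) (node
  (nat_lit 0) (nat_lit 24304) (nat_lit 9) nil (node (nat_lit 2) (nat_lit 22620) (nat_lit 9) nil
  nil)))) nil) (node (nat_lit 5) (nat_lit 21430) (nat_lit 7) (node (nat_lit 4) (nat_lit 22369)
  (nat_lit 8) nil nil) (node (nat_lit 6) (nat_lit 23159) (nat_lit 7) (node (nat_lit 5) (nat_lit
  23593) (nat_lit 8) (node (nat_lit 4) (nat_lit 23593) (nat_lit 9) nil nil) nil) (node (nat_lit 0)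
  (nat_lit 22897) (nat_lit 7) nil (node (nat_lit 2) (nat_lit 21761) (nat_lit 7) nil nil))))) (node
  (nat_lit 2) (nat_lit 0) (nat_lit 6) (node (nat_lit 4) (nat_lit 0) (nat_lit 7) (node (nat_lit 5)
  (nat_lit 18070) (nat_lit 8) (node (nat_lit 4) (nat_lit 18070) (nat_lit 9) (node (nat_lit 9)
  (nat_lit 18070) (nat_lit 10) (node (nat_lit 4) (nat_lit 19268) (nat_lit 11) (node (nat_lit 6)
  (nat_lit 21372) (nat_lit 12) nil (node (nat_lit 5) (nat_lit 19834) (nat_lit 12) nil nil)) (node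
  (nat_lit 5) (nat_lit 19268) (nat_lit 11) (node (nat_lit 4) (nat_lit 18257) (nat_lit 12) (node
  (nat_lit 5) (nat_lit 16368) (nat_lit 13) (node (nat_lit 6) (nat_lit 14435) (nat_lit 14) nil nil)
  nil) (node (nat_lit 9) (nat_lit 19834) (nat_lit 12) nil nil)) (node (nat_lit 6) (nat_lit 20782)
  (nat_lit 11) nil (node (nat_lit 0) (nat_lit 20782) (nat_lit 11) nil nil)))) (node (nat_lit 6)
  (nat_lit 23491) (nat_lit 10) (node (nat_lit 5) (nat_lit 23491) (nat_lit 11) nil nil) (node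
  (nat_lit 0) (nat_lit 20670) (nat_lit 10) nil nil))) (node (nat_lit 6) (nat_lit 24892) (nat_lit
  9) (node (nat_lit 5) (nat_lit 24892) (nat_lit 10) nil nil) (node (nat_lit 0) (nat_lit 24008)
  (nat_lit 9) nil nil))) (node (nat_lit 6) (nat_lit 24878) (nat_lit 8) (node (nat_lit 5) (nat_lit
  24970) (nat_lit 9) nil nil) (node (nat_lit 9) (nat_lit 18070) (nat_lit 8) (node (nat_lit 5)
  (nat_lit 18070) (nat_lit 9) nil nil) (node (nat_lit 0) (nat_lit 24396) (nat_lit 8) nil nil))))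
  (node (nat_lit 5) (nat_lit 17939) (nat_lit 7) (node (nat_lit 4) (nat_lit 18070) (nat_lit 8)
  (node (nat_lit 9) (nat_lit 18070) (nat_lit 9) (node (nat_lit 4) (nat_lit 18070) (nat_lit 10)
  (node (nat_lit 5) (nat_lit 20237) (nat_lit 11) (node (nat_lit 9) (nat_lit 18946) (nat_lit 12)
  (node (nat_lit 5) (nat_lit 18739) (nat_lit 13) (node (nat_lit 4) (nat_lit 18443) (nat_lit 14)
  (node (nat_lit 5) (nat_lit 17582) (nat_lit 15) nil nil) nil) nil) nil) nil) nil) nil) (node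
  (nat_lit 6) (nat_lit 24478) (nat_lit 8) nil nil)) (node (nat_lit 6) (nat_lit 23336) (nat_lit 7)
  (node (nat_lit 5) (nat_lit 23818) (nat_lit 8) (node (nat_lit 4) (nat_lit 24394) (nat_lit 9) nil
  nil) nil) (node (nat_lit 0) (nat_lit 23163) (nat_lit 7) (node (nat_lit 5) (nat_lit 23201)
  (nat_lit 8) nil nil) nil)))) (node (nat_lit 4) (nat_lit 0) (nat_lit 6) (node (nat_lit 6)
  (nat_lit 0) (nat_lit 7) (node (nat_lit 0) (nat_lit 24906) (nat_lit 8) (node (nat_lit 6) (nat_lit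
  25995) (nat_lit 9) (node (nat_lit 5) (nat_lit 25995) (nat_lit 10) nil nil) (node (nat_lit 5)
  (nat_lit 25282) (nat_lit 9) nil nil)) (node (nat_lit 5) (nat_lit 0) (nat_lit 8) (node (nat_lit
  4) (nat_lit 23308) (nat_lit 9) (node (nat_lit 5) (nat_lit 24045) (nat_lit 10) nil nil) (node
  (nat_lit 0) (nat_lit 25308) (nat_lit 9) (node (nat_lit 5) (nat_lit 25302) (nat_lit 10) nil nil)
  (node (nat_lit 2) (nat_lit 23585) (nat_lit 9) (node (nat_lit 5) (nat_lit 24294) (nat_lit 10) nil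
  nil) nil))) (node (nat_lit 2) (nat_lit 23948) (nat_lit 8) (node (nat_lit 6) (nat_lit 26145)
  (nat_lit 9) (node (nat_lit 5) (nat_lit 26145) (nat_lit 10) nil nil) (node (nat_lit 5) (nat_lit
  24716) (nat_lit 9) nil (node (nat_lit 4) (nat_lit 24716) (nat_lit 9) nil nil))) nil))) (node
  (nat_lit 0) (nat_lit 23175) (nat_lit 7) (node (nat_lit 5) (nat_lit 23609) (nat_lit 8) (node
  (nat_lit 4) (nat_lit 24334) (nat_lit 9) (node (nat_lit 5) (nat_lit 25041) (nat_lit 10) nil nil)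
  nil) (node (nat_lit 6) (nat_lit 24765) (nat_lit 8) (node (nat_lit 5) (nat_lit 24854) (nat_lit 9)
  (node (nat_lit 4) (nat_lit 24615) (nat_lit 10) nil nil) nil) nil)) (node (nat_lit 2) (nat_lit 0)
  (nat_lit 7) (node (nat_lit 5) (nat_lit 18063) (nat_lit 8) (node (nat_lit 4) (nat_lit 17310)
  (nat_lit 9) (node (nat_lit 5) (nat_lit 18063) (nat_lit 10) nil nil) nil) (node (nat_lit 4)
  (nat_lit 18063) (nat_lit 8) (node (nat_lit 5) (nat_lit 18063) (nat_lit 9) nil nil) (node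
  (nat_lit 6) (nat_lit 24097) (nat_lit 8) (node (nat_lit 5) (nat_lit 24518) (nat_lit 9) (node
  (nat_lit 4) (nat_lit 24280) (nat_lit 10) nil nil) nil) (node (nat_lit 0) (nat_lit 24006)
  (nat_lit 8) nil nil)))) nil))) nil))) (node (nat_lit 6) (nat_lit 0) (nat_lit 5) (node (nat_lit
  0) (nat_lit 0) (nat_lit 6) (node (nat_lit 4) (nat_lit 87589) (nat_lit 7) (node (nat_lit 6)
  (nat_lit 92999) (nat_lit 8) (node (nat_lit 4) (nat_lit 94981) (nat_lit 9) (node (nat_lit 5)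
  (nat_lit 97387) (nat_lit 10) (node (nat_lit 6) (nat_lit 90888) (nat_lit 11) (node (nat_lit 4)
  (nat_lit 79629) (nat_lit 12) (node (nat_lit 6) (nat_lit 51137) (nat_lit 13) nil nil) nil) nil)
  nil) nil) nil) (node (nat_lit 6) (nat_lit 87725) (nat_lit 7) (node (nat_lit 4) (nat_lit 93134)
  (nat_lit 8) (node (nat_lit 5) (nat_lit 95117) (nat_lit 9) (node (nat_lit 6) (nat_lit 96448)
  (nat_lit 10) nil nil) nil) nil) (node (nat_lit 5) (nat_lit 87298) (nat_lit 7) (node (nat_lit 4)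
  (nat_lit 91136) (nat_lit 8) (node (nat_lit 5) (nat_lit 93119) (nat_lit 9) nil nil) nil) (node
  (nat_lit 0) (nat_lit 89102) (nat_lit 7) nil (node (nat_lit 2) (nat_lit 87700) (nat_lit 7) (node
  (nat_lit 6) (nat_lit 93110) (nat_lit 8) nil nil) nil))))) (node (nat_lit 2) (nat_lit 0) (nat_lit
  6) (node (nat_lit 4) (nat_lit 0) (nat_lit 7) (node (nat_lit 6) (nat_lit 72342) (nat_lit 8) (node
  (nat_lit 4) (nat_lit 74324) (nat_lit 9) (node (nat_lit 9) (nat_lit 79283) (nat_lit 10) (node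
  (nat_lit 6) (nat_lit 77133) (nat_lit 11) nil nil) (node (nat_lit 5) (nat_lit 82143) (nat_lit 10)
  (node (nat_lit 6) (nat_lit 76148) (nat_lit 11) (node (nat_lit 4) (nat_lit 50402) (nat_lit 12)
  (node (nat_lit 6) (nat_lit 50800) (nat_lit 13) nil nil) nil) nil) nil)) (node (nat_lit 5)
  (nat_lit 91843) (nat_lit 9) (node (nat_lit 6) (nat_lit 93173) (nat_lit 10) (node (nat_lit 4)
  (nat_lit 94347) (nat_lit 11) (node (nat_lit 6) (nat_lit 95410) (nat_lit 12) (node (nat_lit 5)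
  (nat_lit 96274) (nat_lit 13) nil nil) nil) nil) nil) nil)) (node (nat_lit 9) (nat_lit 72342)
  (nat_lit 8) (node (nat_lit 6) (nat_lit 74324) (nat_lit 9) (node (nat_lit 9) (nat_lit 79465)
  (nat_lit 10) nil (node (nat_lit 4) (nat_lit 78690) (nat_lit 10) nil nil)) nil) (node (nat_lit 5)
  (nat_lit 89700) (nat_lit 8) nil (node (nat_lit 0) (nat_lit 89414) (nat_lit 8) nil nil)))) (node
  (nat_lit 6) (nat_lit 0) (nat_lit 7) (node (nat_lit 4) (nat_lit 72342) (nat_lit 8) (node (nat_lit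
  5) (nat_lit 78756) (nat_lit 9) (node (nat_lit 6) (nat_lit 63727) (nat_lit 10) (node (nat_lit 4)
  (nat_lit 48139) (nat_lit 11) nil nil) nil) (node (nat_lit 9) (nat_lit 74324) (nat_lit 9) nil
  nil)) (node (nat_lit 5) (nat_lit 88486) (nat_lit 8) nil (node (nat_lit 0) (nat_lit 86766)
  (nat_lit 8) nil nil))) (node (nat_lit 5) (nat_lit 87093) (nat_lit 7) (node (nat_lit 4) (nat_lit
  83849) (nat_lit 8) (node (nat_lit 5) (nat_lit 73457) (nat_lit 9) (node (nat_lit 6) (nat_lit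
  65732) (nat_lit 10) (node (nat_lit 4) (nat_lit 46803) (nat_lit 11) nil nil) nil) nil) nil) (node
  (nat_lit 0) (nat_lit 85937) (nat_lit 7) (node (nat_lit 6) (nat_lit 91347) (nat_lit 8) nil nil)
  nil)))) (node (nat_lit 5) (nat_lit 0) (nat_lit 6) (node (nat_lit 4) (nat_lit 70905) (nat_lit 7)
  (node (nat_lit 5) (nat_lit 83407) (nat_lit 8) (node (nat_lit 6) (nat_lit 89645) (nat_lit 9)
  (node (nat_lit 4) (nat_lit 92745) (nat_lit 10) nil nil) nil) (node (nat_lit 6) (nat_lit 81626)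
  (nat_lit 8) nil nil)) (node (nat_lit 0) (nat_lit 90268) (nat_lit 7) nil (node (nat_lit 6)
  (nat_lit 0) (nat_lit 7) (node (nat_lit 4) (nat_lit 0) (nat_lit 8) (node (nat_lit 5) (nat_lit
  90521) (nat_lit 9) nil (node (nat_lit 2) (nat_lit 89846) (nat_lit 9) nil (node (nat_lit 0)
  (nat_lit 91746) (nat_lit 9) nil nil))) (node (nat_lit 0) (nat_lit 96314) (nat_lit 8) nil (node
  (nat_lit 2) (nat_lit 94726) (nat_lit 8) nil nil))) (node (nat_lit 2) (nat_lit 89472) (nat_lit 7)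
  nil nil)))) nil))) nil))))

noncomputable def t153 : Tr :=
  (node (nat_lit 2) (nat_lit 0) (nat_lit 4) (node (nat_lit 4) (nat_lit 0) (nat_lit 5) (node
  (nat_lit 7) (nat_lit 0) (nat_lit 6) (node (nat_lit 6) (nat_lit 133346) (nat_lit 7) (node
  (nat_lit 4) (nat_lit 134121) (nat_lit 8) (node (nat_lit 6) (nat_lit 134729) (nat_lit 9) (node
  (nat_lit 5) (nat_lit 135161) (nat_lit 10) (node (nat_lit 6) (nat_lit 135276) (nat_lit 11) nil
  nil) nil) (node (nat_lit 5) (nat_lit 121877) (nat_lit 9) (node (nat_lit 6) (nat_lit 116642)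
  (nat_lit 10) (node (nat_lit 7) (nat_lit 86332) (nat_lit 11) (node (nat_lit 4) (nat_lit 40100)
  (nat_lit 12) nil nil) nil) nil) nil)) nil) (node (nat_lit 5) (nat_lit 126257) (nat_lit 7) (node
  (nat_lit 4) (nat_lit 121461) (nat_lit 8) (node (nat_lit 5) (nat_lit 115212) (nat_lit 9) (node
  (nat_lit 6) (nat_lit 105801) (nat_lit 10) (node (nat_lit 7) (nat_lit 93760) (nat_lit 11) (node
  (nat_lit 4) (nat_lit 84529) (nat_lit 12) nil nil) nil) nil) (node (nat_lit 6) (nat_lit 122311)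
  (nat_lit 9) (node (nat_lit 5) (nat_lit 122311) (nat_lit 10) (node (nat_lit 6) (nat_lit 123784)
  (nat_lit 11) nil nil) (node (nat_lit 4) (nat_lit 120271) (nat_lit 10) nil nil)) nil)) nil) (node
  (nat_lit 0) (nat_lit 131524) (nat_lit 7) (node (nat_lit 6) (nat_lit 134057) (nat_lit 8) nil
  (node (nat_lit 5) (nat_lit 129799) (nat_lit 8) nil nil)) nil))) (node (nat_lit 6) (nat_lit 0)
  (nat_lit 6) (node (nat_lit 7) (nat_lit 128625) (nat_lit 7) (node (nat_lit 6) (nat_lit 129485)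
  (nat_lit 8) (node (nat_lit 4) (nat_lit 127918) (nat_lit 9) (node (nat_lit 6) (nat_lit 129248)
  (nat_lit 10) nil (node (nat_lit 5) (nat_lit 123849) (nat_lit 10) (node (nat_lit 6) (nat_lit
  116219) (nat_lit 11) (node (nat_lit 7) (nat_lit 103174) (nat_lit 12) (node (nat_lit 4) (nat_lit
  53137) (nat_lit 13) (node (nat_lit 6) (nat_lit 45193) (nat_lit 14) nil nil) nil) nil) nil) nil))
  nil) (node (nat_lit 5) (nat_lit 129239) (nat_lit 8) (node (nat_lit 4) (nat_lit 125031) (nat_lit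
  9) (node (nat_lit 5) (nat_lit 110899) (nat_lit 10) (node (nat_lit 6) (nat_lit 103959) (nat_lit
  11) (node (nat_lit 7) (nat_lit 88856) (nat_lit 12) (node (nat_lit 4) (nat_lit 82499) (nat_lit
  13) nil nil) nil) nil) (node (nat_lit 6) (nat_lit 124980) (nat_lit 10) nil nil)) nil) nil))
  (node (nat_lit 4) (nat_lit 120520) (nat_lit 7) (node (nat_lit 7) (nat_lit 124434) (nat_lit 8)
  (node (nat_lit 6) (nat_lit 122935) (nat_lit 9) (node (nat_lit 4) (nat_lit 117966) (nat_lit 10)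
  nil nil) nil) (node (nat_lit 5) (nat_lit 111651) (nat_lit 8) (node (nat_lit 6) (nat_lit 106328)
  (nat_lit 9) (node (nat_lit 7) (nat_lit 80482) (nat_lit 10) (node (nat_lit 4) (nat_lit 18770)
  (nat_lit 11) nil nil) nil) nil) nil)) (node (nat_lit 5) (nat_lit 131215) (nat_lit 7) (node
  (nat_lit 4) (nat_lit 134735) (nat_lit 8) (node (nat_lit 5) (nat_lit 134735) (nat_lit 9) (node
  (nat_lit 6) (nat_lit 135882) (nat_lit 10) nil nil) nil) (node (nat_lit 6) (nat_lit 134012)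
  (nat_lit 8) (node (nat_lit 4) (nat_lit 134171) (nat_lit 9) (node (nat_lit 5) (nat_lit 133255)
  (nat_lit 10) nil nil) nil) nil)) (node (nat_lit 0) (nat_lit 128493) (nat_lit 7) nil nil))))
  (node (nat_lit 5) (nat_lit 126683) (nat_lit 6) (node (nat_lit 7) (nat_lit 123951) (nat_lit 7)
  (node (nat_lit 5) (nat_lit 119218) (nat_lit 8) (node (nat_lit 4) (nat_lit 114173) (nat_lit 9)
  (node (nat_lit 5) (nat_lit 109936) (nat_lit 10) (node (nat_lit 6) (nat_lit 103722) (nat_lit 11)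
  (node (nat_lit 7) (nat_lit 89987) (nat_lit 12) (node (nat_lit 4) (nat_lit 76820) (nat_lit 13)
  (node (nat_lit 5) (nat_lit 77183) (nat_lit 14) nil nil) nil) nil) nil) nil) nil) (node (nat_lit
  6) (nat_lit 123731) (nat_lit 8) (node (nat_lit 4) (nat_lit 122009) (nat_lit 9) (node (nat_lit 5)
  (nat_lit 115514) (nat_lit 10) (node (nat_lit 6) (nat_lit 111559) (nat_lit 11) nil nil) nil) nil)
  nil)) (node (nat_lit 4) (nat_lit 127026) (nat_lit 7) (node (nat_lit 6) (nat_lit 127068) (nat_lit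
  8) (node (nat_lit 5) (nat_lit 127068) (nat_lit 9) nil nil) nil) (node (nat_lit 6) (nat_lit
  130531) (nat_lit 7) nil nil))) (node (nat_lit 0) (nat_lit 127514) (nat_lit 6) (node (nat_lit 5)
  (nat_lit 125682) (nat_lit 7) (node (nat_lit 4) (nat_lit 123957) (nat_lit 8) nil nil) nil)
  nil)))) (node (nat_lit 5) (nat_lit 0) (nat_lit 5) (node (nat_lit 7) (nat_lit 0) (nat_lit 6)
  (node (nat_lit 6) (nat_lit 118787) (nat_lit 7) (node (nat_lit 5) (nat_lit 124580) (nat_lit 8)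
  (node (nat_lit 6) (nat_lit 128765) (nat_lit 9) nil (node (nat_lit 4) (nat_lit 129260) (nat_lit
  9) (node (nat_lit 5) (nat_lit 130590) (nat_lit 10) (node (nat_lit 6) (nat_lit 131764) (nat_lit
  11) nil nil) nil) nil)) (node (nat_lit 7) (nat_lit 124443) (nat_lit 8) (node (nat_lit 5)
  (nat_lit 126388) (nat_lit 9) nil (node (nat_lit 4) (nat_lit 125338) (nat_lit 9) nil nil)) (node
  (nat_lit 4) (nat_lit 128499) (nat_lit 8) (node (nat_lit 5) (nat_lit 127335) (nat_lit 9) (node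
  (nat_lit 6) (nat_lit 110435) (nat_lit 10) (node (nat_lit 7) (nat_lit 84493) (nat_lit 11) nil
  nil) nil) nil) (node (nat_lit 0) (nat_lit 127223) (nat_lit 8) nil nil)))) (node (nat_lit 4)
  (nat_lit 127918) (nat_lit 7) (node (nat_lit 5) (nat_lit 131255) (nat_lit 8) nil (node (nat_lit
  6) (nat_lit 129658) (nat_lit 8) nil nil)) (node (nat_lit 0) (nat_lit 126407) (nat_lit 7) nil
  nil))) (node (nat_lit 6) (nat_lit 0) (nat_lit 6) (node (nat_lit 5) (nat_lit 117895) (nat_lit 7)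
  (node (nat_lit 7) (nat_lit 123546) (nat_lit 8) (node (nat_lit 6) (nat_lit 126132) (nat_lit 9)
  nil nil) (node (nat_lit 4) (nat_lit 125359) (nat_lit 8) (node (nat_lit 6) (nat_lit 124893)
  (nat_lit 9) (node (nat_lit 4) (nat_lit 118195) (nat_lit 10) (node (nat_lit 5) (nat_lit 115700)
  (nat_lit 11) (node (nat_lit 6) (nat_lit 112177) (nat_lit 12) nil nil) nil) nil) (node (nat_lit
  5) (nat_lit 127111) (nat_lit 9) (node (nat_lit 6) (nat_lit 128442) (nat_lit 10) nil nil) nil))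
  nil)) (node (nat_lit 4) (nat_lit 122491) (nat_lit 7) (node (nat_lit 6) (nat_lit 124906) (nat_lit
  8) (node (nat_lit 5) (nat_lit 123335) (nat_lit 9) nil nil) (node (nat_lit 5) (nat_lit 105119)
  (nat_lit 8) (node (nat_lit 6) (nat_lit 96114) (nat_lit 9) (node (nat_lit 7) (nat_lit 36033)
  (nat_lit 10) nil nil) (node (nat_lit 4) (nat_lit 103548) (nat_lit 9) nil nil)) nil)) (node
  (nat_lit 0) (nat_lit 120745) (nat_lit 7) nil nil))) (node (nat_lit 4) (nat_lit 0) (nat_lit 6)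
  (node (nat_lit 6) (nat_lit 116259) (nat_lit 7) (node (nat_lit 5) (nat_lit 117922) (nat_lit 8)
  (node (nat_lit 4) (nat_lit 118726) (nat_lit 9) (node (nat_lit 5) (nat_lit 119337) (nat_lit 10)
  (node (nat_lit 6) (nat_lit 119875) (nat_lit 11) nil nil) nil) nil) (node (nat_lit 4) (nat_lit
  117422) (nat_lit 8) (node (nat_lit 5) (nat_lit 116613) (nat_lit 9) (node (nat_lit 6) (nat_lit
  110774) (nat_lit 10) nil nil) nil) nil)) (node (nat_lit 7) (nat_lit 116259) (nat_lit 7) (node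
  (nat_lit 6) (nat_lit 117922) (nat_lit 8) nil (node (nat_lit 5) (nat_lit 117922) (nat_lit 8) nil
  nil)) (node (nat_lit 5) (nat_lit 88475) (nat_lit 7) (node (nat_lit 6) (nat_lit 89846) (nat_lit
  8) (node (nat_lit 7) (nat_lit 87471) (nat_lit 9) nil nil) (node (nat_lit 7) (nat_lit 89846)
  (nat_lit 8) nil nil)) (node (nat_lit 0) (nat_lit 116760) (nat_lit 7) nil nil)))) (node (nat_lit
  0) (nat_lit 119540) (nat_lit 6) (node (nat_lit 6) (nat_lit 128152) (nat_lit 7) nil (node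
  (nat_lit 5) (nat_lit 127479) (nat_lit 7) nil nil)) nil)))) (node (nat_lit 6) (nat_lit 0)
  (nat_lit 5) (node (nat_lit 4) (nat_lit 117280) (nat_lit 6) (node (nat_lit 6) (nat_lit 121128)
  (nat_lit 7) nil (node (nat_lit 7) (nat_lit 123979) (nat_lit 7) nil (node (nat_lit 5) (nat_lit
  114396) (nat_lit 7) (node (nat_lit 6) (nat_lit 52802) (nat_lit 8) (node (nat_lit 5) (nat_lit
  54042) (nat_lit 9) (node (nat_lit 4) (nat_lit 53628) (nat_lit 10) nil nil) (node (nat_lit 4)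
  (nat_lit 52316) (nat_lit 9) nil nil)) nil) nil))) (node (nat_lit 5) (nat_lit 0) (nat_lit 6)
  (node (nat_lit 6) (nat_lit 115105) (nat_lit 7) (node (nat_lit 7) (nat_lit 118991) (nat_lit 8)
  (node (nat_lit 5) (nat_lit 123267) (nat_lit 9) (node (nat_lit 4) (nat_lit 113606) (nat_lit 10)
  nil nil) nil) (node (nat_lit 4) (nat_lit 120499) (nat_lit 8) (node (nat_lit 5) (nat_lit 105309)
  (nat_lit 9) (node (nat_lit 6) (nat_lit 105885) (nat_lit 10) (node (nat_lit 7) (nat_lit 74154)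
  (nat_lit 11) nil nil) nil) (node (nat_lit 6) (nat_lit 122251) (nat_lit 9) nil nil)) nil)) (node
  (nat_lit 7) (nat_lit 116472) (nat_lit 7) (node (nat_lit 4) (nat_lit 122811) (nat_lit 8) (node
  (nat_lit 6) (nat_lit 118500) (nat_lit 9) (node (nat_lit 5) (nat_lit 117152) (nat_lit 10) nil
  nil) nil) (node (nat_lit 5) (nat_lit 121585) (nat_lit 8) (node (nat_lit 6) (nat_lit 125166)
  (nat_lit 9) nil nil) (node (nat_lit 6) (nat_lit 120730) (nat_lit 8) (node (nat_lit 4) (nat_lit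
  124927) (nat_lit 9) nil nil) nil))) (node (nat_lit 4) (nat_lit 124591) (nat_lit 7) (node
  (nat_lit 6) (nat_lit 126548) (nat_lit 8) nil (node (nat_lit 5) (nat_lit 127124) (nat_lit 8)
  (node (nat_lit 6) (nat_lit 128877) (nat_lit 9) (node (nat_lit 7) (nat_lit 124972) (nat_lit 10)
  nil nil) nil) nil)) (node (nat_lit 0) (nat_lit 121542) (nat_lit 7) nil nil)))) (node (nat_lit 0)
  (nat_lit 119257) (nat_lit 6) (node (nat_lit 6) (nat_lit 123104) (nat_lit 7) (node (nat_lit 4)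
  (nat_lit 125637) (nat_lit 8) nil nil) (node (nat_lit 5) (nat_lit 125597) (nat_lit 7) nil (node
  (nat_lit 4) (nat_lit 117425) (nat_lit 7) nil nil))) nil))) (node (nat_lit 0) (nat_lit 0)
  (nat_lit 5) (node (nat_lit 7) (nat_lit 128556) (nat_lit 6) (node (nat_lit 6) (nat_lit 129886)
  (nat_lit 7) (node (nat_lit 8) (nat_lit 130661) (nat_lit 8) nil (node (nat_lit 4) (nat_lit
  121185) (nat_lit 8) nil (node (nat_lit 5) (nat_lit 130413) (nat_lit 8) nil nil))) (node (nat_lit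
  4) (nat_lit 127952) (nat_lit 7) (node (nat_lit 6) (nat_lit 127732) (nat_lit 8) nil nil) (node
  (nat_lit 5) (nat_lit 120644) (nat_lit 7) (node (nat_lit 6) (nat_lit 121806) (nat_lit 8) nil
  (node (nat_lit 4) (nat_lit 116239) (nat_lit 8) (node (nat_lit 5) (nat_lit 105719) (nat_lit 9)
  nil nil) nil)) nil))) (node (nat_lit 6) (nat_lit 128557) (nat_lit 6) (node (nat_lit 4) (nat_lit
  131955) (nat_lit 7) (node (nat_lit 5) (nat_lit 133118) (nat_lit 8) nil nil) (node (nat_lit 5)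
  (nat_lit 126726) (nat_lit 7) nil nil)) (node (nat_lit 5) (nat_lit 128187) (nat_lit 6) (node
  (nat_lit 4) (nat_lit 126355) (nat_lit 7) (node (nat_lit 5) (nat_lit 128888) (nat_lit 8) nil nil)
  (node (nat_lit 6) (nat_lit 120129) (nat_lit 7) nil nil)) (node (nat_lit 4) (nat_lit 129064)
  (nat_lit 6) (node (nat_lit 6) (nat_lit 131949) (nat_lit 7) (node (nat_lit 4) (nat_lit 117519)
  (nat_lit 8) nil nil) (node (nat_lit 5) (nat_lit 132227) (nat_lit 7) nil nil)) (node (nat_lit 0)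
  (nat_lit 124217) (nat_lit 6) nil nil))))) nil)))) (node (nat_lit 5) (nat_lit 0) (nat_lit 4)
  (node (nat_lit 0) (nat_lit 0) (nat_lit 5) (node (nat_lit 5) (nat_lit 130886) (nat_lit 6) (node
  (nat_lit 6) (nat_lit 132652) (nat_lit 7) (node (nat_lit 4) (nat_lit 133771) (nat_lit 8) (node
  (nat_lit 5) (nat_lit 130941) (nat_lit 9) (node (nat_lit 6) (nat_lit 120575) (nat_lit 10) (node
  (nat_lit 5) (nat_lit 100405) (nat_lit 11) nil nil) nil) nil) nil) (node (nat_lit 4) (nat_lit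
  131558) (nat_lit 7) (node (nat_lit 5) (nat_lit 132386) (nat_lit 8) (node (nat_lit 6) (nat_lit
  134281) (nat_lit 9) (node (nat_lit 5) (nat_lit 134281) (nat_lit 10) nil nil) nil) nil) nil))
  (node (nat_lit 6) (nat_lit 133233) (nat_lit 6) (node (nat_lit 8) (nat_lit 134972) (nat_lit 7)
  (node (nat_lit 5) (nat_lit 134972) (nat_lit 8) nil nil) (node (nat_lit 5) (nat_lit 131778)
  (nat_lit 7) (node (nat_lit 6) (nat_lit 132131) (nat_lit 8) nil (node (nat_lit 4) (nat_lit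
  130053) (nat_lit 8) nil nil)) (node (nat_lit 4) (nat_lit 134495) (nat_lit 7) (node (nat_lit 5)
  (nat_lit 134495) (nat_lit 8) (node (nat_lit 6) (nat_lit 135482) (nat_lit 9) (node (nat_lit 5)
  (nat_lit 135482) (nat_lit 10) nil nil) nil) nil) nil))) (node (nat_lit 4) (nat_lit 132386)
  (nat_lit 6) (node (nat_lit 6) (nat_lit 133771) (nat_lit 7) (node (nat_lit 4) (nat_lit 124894)
  (nat_lit 8) nil nil) nil) (node (nat_lit 2) (nat_lit 130580) (nat_lit 6) (node (nat_lit 5)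
  (nat_lit 124824) (nat_lit 7) (node (nat_lit 8) (nat_lit 125987) (nat_lit 8) (node (nat_lit 5)
  (nat_lit 126790) (nat_lit 9) nil nil) (node (nat_lit 4) (nat_lit 121721) (nat_lit 8) nil nil))
  (node (nat_lit 6) (nat_lit 126565) (nat_lit 7) nil nil)) (node (nat_lit 0) (nat_lit 132825)
  (nat_lit 6) (node (nat_lit 5) (nat_lit 131725) (nat_lit 7) (node (nat_lit 8) (nat_lit 134073)
  (nat_lit 8) (node (nat_lit 5) (nat_lit 132687) (nat_lit 9) nil nil) nil) nil) nil))))) (node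
  (nat_lit 4) (nat_lit 0) (nat_lit 5) (node (nat_lit 0) (nat_lit 127974) (nat_lit 6) (node
  (nat_lit 5) (nat_lit 133690) (nat_lit 7) (node (nat_lit 4) (nat_lit 134855) (nat_lit 8) (node
  (nat_lit 5) (nat_lit 134855) (nat_lit 9) (node (nat_lit 6) (nat_lit 136698) (nat_lit 10) (node
  (nat_lit 5) (nat_lit 136698) (nat_lit 11) (node (nat_lit 4) (nat_lit 136698) (nat_lit 12) nil
  nil) nil) nil) nil) nil) (node (nat_lit 6) (nat_lit 135368) (nat_lit 7) (node (nat_lit 4)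
  (nat_lit 136024) (nat_lit 8) (node (nat_lit 5) (nat_lit 136024) (nat_lit 9) (node (nat_lit 6)
  (nat_lit 137041) (nat_lit 10) (node (nat_lit 5) (nat_lit 137041) (nat_lit 11) (node (nat_lit 4)
  (nat_lit 137041) (nat_lit 12) nil nil) nil) nil) nil) nil) nil)) (node (nat_lit 2) (nat_lit
  126663) (nat_lit 6) (node (nat_lit 5) (nat_lit 130852) (nat_lit 7) (node (nat_lit 4) (nat_lit
  129997) (nat_lit 8) (node (nat_lit 5) (nat_lit 122589) (nat_lit 9) (node (nat_lit 9) (nat_lit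
  121827) (nat_lit 10) (node (nat_lit 5) (nat_lit 121647) (nat_lit 11) (node (nat_lit 4) (nat_lit
  121275) (nat_lit 12) nil nil) nil) (node (nat_lit 6) (nat_lit 104265) (nat_lit 10) (node
  (nat_lit 5) (nat_lit 92150) (nat_lit 11) (node (nat_lit 4) (nat_lit 90973) (nat_lit 12) nil nil)
  nil) nil)) (node (nat_lit 6) (nat_lit 131303) (nat_lit 9) nil nil)) nil) (node (nat_lit 6)
  (nat_lit 133611) (nat_lit 7) (node (nat_lit 4) (nat_lit 132804) (nat_lit 8) (node (nat_lit 5)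
  (nat_lit 119109) (nat_lit 9) (node (nat_lit 6) (nat_lit 102570) (nat_lit 10) (node (nat_lit 5)
  (nat_lit 80859) (nat_lit 11) (node (nat_lit 4) (nat_lit 53098) (nat_lit 12) nil nil) nil) nil)
  nil) nil) nil)) (node (nat_lit 6) (nat_lit 0) (nat_lit 6) (node (nat_lit 4) (nat_lit 0) (nat_lit
  7) (node (nat_lit 5) (nat_lit 122668) (nat_lit 8) (node (nat_lit 6) (nat_lit 112915) (nat_lit 9)
  (node (nat_lit 5) (nat_lit 98846) (nat_lit 10) (node (nat_lit 4) (nat_lit 25367) (nat_lit 11)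
  (node (nat_lit 5) (nat_lit 25855) (nat_lit 12) (node (nat_lit 6) (nat_lit 27226) (nat_lit 13)
  nil nil) nil) nil) nil) nil) (node (nat_lit 0) (nat_lit 133617) (nat_lit 8) nil (node (nat_lit
  2) (nat_lit 133617) (nat_lit 8) nil nil))) (node (nat_lit 5) (nat_lit 0) (nat_lit 7) (node
  (nat_lit 6) (nat_lit 125367) (nat_lit 8) (node (nat_lit 4) (nat_lit 129898) (nat_lit 9) (node
  (nat_lit 5) (nat_lit 133380) (nat_lit 10) (node (nat_lit 6) (nat_lit 132291) (nat_lit 11) nil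
  nil) nil) nil) (node (nat_lit 2) (nat_lit 133949) (nat_lit 8) nil (node (nat_lit 0) (nat_lit
  134342) (nat_lit 8) nil nil))) (node (nat_lit 0) (nat_lit 133242) (nat_lit 7) nil (node (nat_lit
  2) (nat_lit 132182) (nat_lit 7) nil nil)))) (node (nat_lit 5) (nat_lit 93273) (nat_lit 6) nil
  nil)))) (node (nat_lit 2) (nat_lit 0) (nat_lit 5) (node (nat_lit 5) (nat_lit 0) (nat_lit 6)
  (node (nat_lit 6) (nat_lit 123499) (nat_lit 7) (node (nat_lit 8) (nat_lit 122972) (nat_lit 8)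
  (node (nat_lit 5) (nat_lit 124907) (nat_lit 9) (node (nat_lit 8) (nat_lit 123560) (nat_lit 10)
  (node (nat_lit 6) (nat_lit 123988) (nat_lit 11) nil nil) (node (nat_lit 4) (nat_lit 121132)
  (nat_lit 10) (node (nat_lit 5) (nat_lit 118309) (nat_lit 11) (node (nat_lit 6) (nat_lit 110413)
  (nat_lit 12) (node (nat_lit 5) (nat_lit 104781) (nat_lit 13) (node (nat_lit 8) (nat_lit 91440)
  (nat_lit 14) nil nil) nil) nil) nil) nil)) nil) (node (nat_lit 4) (nat_lit 124661) (nat_lit 8)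
  (node (nat_lit 5) (nat_lit 120853) (nat_lit 9) (node (nat_lit 6) (nat_lit 108130) (nat_lit 10)
  (node (nat_lit 5) (nat_lit 86197) (nat_lit 11) nil nil) nil) nil) (node (nat_lit 5) (nat_lit
  124661) (nat_lit 8) nil nil))) (node (nat_lit 4) (nat_lit 123755) (nat_lit 7) (node (nat_lit 5)
  (nat_lit 105801) (nat_lit 8) (node (nat_lit 8) (nat_lit 105801) (nat_lit 9) (node (nat_lit 4)
  (nat_lit 105801) (nat_lit 10) (node (nat_lit 8) (nat_lit 105801) (nat_lit 11) (node (nat_lit 5)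
  (nat_lit 105801) (nat_lit 12) (node (nat_lit 4) (nat_lit 105801) (nat_lit 13) (node (nat_lit 5)
  (nat_lit 105801) (nat_lit 14) (node (nat_lit 6) (nat_lit 105801) (nat_lit 15) (node (nat_lit 5)
  (nat_lit 105801) (nat_lit 16) nil nil) nil) (node (nat_lit 8) (nat_lit 105801) (nat_lit 14) nil
  nil)) nil) nil) (node (nat_lit 5) (nat_lit 105801) (nat_lit 11) nil nil)) (node (nat_lit 6)
  (nat_lit 105801) (nat_lit 10) nil nil)) (node (nat_lit 6) (nat_lit 104265) (nat_lit 9) (node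
  (nat_lit 5) (nat_lit 91514) (nat_lit 10) nil nil) nil)) (node (nat_lit 6) (nat_lit 124918)
  (nat_lit 8) (node (nat_lit 4) (nat_lit 125721) (nat_lit 9) (node (nat_lit 5) (nat_lit 120846)
  (nat_lit 10) (node (nat_lit 6) (nat_lit 118975) (nat_lit 11) (node (nat_lit 5) (nat_lit 109786)
  (nat_lit 12) (node (nat_lit 8) (nat_lit 53986) (nat_lit 13) nil nil) nil) nil) nil) nil) (node
  (nat_lit 8) (nat_lit 124918) (nat_lit 8) nil (node (nat_lit 0) (nat_lit 124918) (nat_lit 8) nil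
  nil)))) (node (nat_lit 0) (nat_lit 127660) (nat_lit 7) (node (nat_lit 5) (nat_lit 126191)
  (nat_lit 8) nil (node (nat_lit 6) (nat_lit 128822) (nat_lit 8) nil nil)) nil))) (node (nat_lit
  6) (nat_lit 120850) (nat_lit 6) (node (nat_lit 8) (nat_lit 123499) (nat_lit 7) (node (nat_lit 5)
  (nat_lit 122972) (nat_lit 8) (node (nat_lit 8) (nat_lit 121401) (nat_lit 9) (node (nat_lit 6)
  (nat_lit 121669) (nat_lit 10) (node (nat_lit 5) (nat_lit 120657) (nat_lit 11) (node (nat_lit 6)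
  (nat_lit 121150) (nat_lit 12) nil nil) nil) nil) nil) nil) (node (nat_lit 5) (nat_lit 123499)
  (nat_lit 7) (node (nat_lit 6) (nat_lit 124661) (nat_lit 8) (node (nat_lit 4) (nat_lit 125465)
  (nat_lit 9) nil nil) (node (nat_lit 4) (nat_lit 128707) (nat_lit 8) (node (nat_lit 5) (nat_lit
  130459) (nat_lit 9) (node (nat_lit 6) (nat_lit 131790) (nat_lit 10) nil nil) nil) nil)) (node
  (nat_lit 4) (nat_lit 132190) (nat_lit 7) (node (nat_lit 5) (nat_lit 128659) (nat_lit 8) (node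
  (nat_lit 6) (nat_lit 95782) (nat_lit 9) (node (nat_lit 5) (nat_lit 53644) (nat_lit 10) nil nil)
  nil) nil) nil))) (node (nat_lit 0) (nat_lit 130361) (nat_lit 6) (node (nat_lit 5) (nat_lit
  131778) (nat_lit 7) (node (nat_lit 8) (nat_lit 125985) (nat_lit 8) (node (nat_lit 5) (nat_lit
  122633) (nat_lit 9) nil nil) nil) nil) (node (nat_lit 4) (nat_lit 125100) (nat_lit 6) (node
  (nat_lit 6) (nat_lit 133145) (nat_lit 7) (node (nat_lit 4) (nat_lit 128715) (nat_lit 8) nil nil)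
  nil) nil)))) nil))) nil))

noncomputable def t154 : Tr :=
  (node (nat_lit 0) (nat_lit 0) (nat_lit 3) (node (nat_lit 1) (nat_lit 0) (nat_lit 4) (node
  (nat_lit 6) (nat_lit 127643) (nat_lit 5) (node (nat_lit 5) (nat_lit 134390) (nat_lit 6) (node
  (nat_lit 7) (nat_lit 136440) (nat_lit 7) (node (nat_lit 5) (nat_lit 139052) (nat_lit 8) nil nil)
  (node (nat_lit 4) (nat_lit 138358) (nat_lit 7) (node (nat_lit 5) (nat_lit 136264) (nat_lit 8)
  (node (nat_lit 6) (nat_lit 138069) (nat_lit 9) nil nil) nil) nil)) (node (nat_lit 4) (nat_lit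
  134390) (nat_lit 6) (node (nat_lit 7) (nat_lit 139186) (nat_lit 7) (node (nat_lit 4) (nat_lit
  140215) (nat_lit 8) (node (nat_lit 5) (nat_lit 135287) (nat_lit 9) nil nil) nil) nil) nil))
  (node (nat_lit 4) (nat_lit 127643) (nat_lit 5) (node (nat_lit 6) (nat_lit 134390) (nat_lit 6)
  nil (node (nat_lit 5) (nat_lit 133132) (nat_lit 6) (node (nat_lit 6) (nat_lit 20939) (nat_lit 7)
  (node (nat_lit 5) (nat_lit 20939) (nat_lit 8) (node (nat_lit 4) (nat_lit 20939) (nat_lit 9) nil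
  nil) nil) nil) (node (nat_lit 7) (nat_lit 134390) (nat_lit 6) (node (nat_lit 5) (nat_lit 138358)
  (nat_lit 7) nil nil) nil))) (node (nat_lit 5) (nat_lit 127643) (nat_lit 5) (node (nat_lit 6)
  (nat_lit 134390) (nat_lit 6) nil (node (nat_lit 7) (nat_lit 130729) (nat_lit 6) (node (nat_lit
  4) (nat_lit 134697) (nat_lit 7) (node (nat_lit 5) (nat_lit 133229) (nat_lit 8) nil nil) nil)
  (node (nat_lit 4) (nat_lit 130729) (nat_lit 6) (node (nat_lit 5) (nat_lit 128420) (nat_lit 7)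
  (node (nat_lit 6) (nat_lit 131031) (nat_lit 8) (node (nat_lit 7) (nat_lit 84292) (nat_lit 9) nil
  nil) nil) nil) nil))) (node (nat_lit 0) (nat_lit 127643) (nat_lit 5) nil (node (nat_lit 2)
  (nat_lit 127643) (nat_lit 5) (node (nat_lit 5) (nat_lit 122951) (nat_lit 6) nil nil) nil)))))
  (node (nat_lit 4) (nat_lit 0) (nat_lit 4) (node (nat_lit 6) (nat_lit 0) (nat_lit 5) (node
  (nat_lit 5) (nat_lit 127837) (nat_lit 6) (node (nat_lit 4) (nat_lit 131122) (nat_lit 7) (node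
  (nat_lit 5) (nat_lit 135023) (nat_lit 8) (node (nat_lit 6) (nat_lit 137914) (nat_lit 9) (node
  (nat_lit 4) (nat_lit 137095) (nat_lit 10) nil nil) nil) nil) nil) (node (nat_lit 1) (nat_lit
  130719) (nat_lit 6) (node (nat_lit 4) (nat_lit 135768) (nat_lit 7) (node (nat_lit 5) (nat_lit
  138399) (nat_lit 8) (node (nat_lit 6) (nat_lit 140082) (nat_lit 9) (node (nat_lit 4) (nat_lit
  139932) (nat_lit 10) nil nil) nil) nil) (node (nat_lit 5) (nat_lit 129491) (nat_lit 7) nil nil))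
  (node (nat_lit 0) (nat_lit 130719) (nat_lit 6) nil (node (nat_lit 2) (nat_lit 123546) (nat_lit
  6) (node (nat_lit 5) (nat_lit 123146) (nat_lit 7) (node (nat_lit 4) (nat_lit 106082) (nat_lit 8)
  (node (nat_lit 5) (nat_lit 96129) (nat_lit 9) nil nil) nil) nil) nil)))) (node (nat_lit 1)
  (nat_lit 127643) (nat_lit 5) (node (nat_lit 6) (nat_lit 134390) (nat_lit 6) (node (nat_lit 8)
  (nat_lit 138358) (nat_lit 7) (node (nat_lit 4) (nat_lit 140346) (nat_lit 8) nil nil) nil) (node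
  (nat_lit 5) (nat_lit 130729) (nat_lit 6) nil (node (nat_lit 4) (nat_lit 130332) (nat_lit 6)
  (node (nat_lit 5) (nat_lit 120844) (nat_lit 7) (node (nat_lit 6) (nat_lit 86592) (nat_lit 8) nil
  nil) nil) nil))) (node (nat_lit 5) (nat_lit 119893) (nat_lit 5) (node (nat_lit 4) (nat_lit
  127837) (nat_lit 6) nil (node (nat_lit 1) (nat_lit 128316) (nat_lit 6) (node (nat_lit 4)
  (nat_lit 130965) (nat_lit 7) (node (nat_lit 5) (nat_lit 121483) (nat_lit 8) nil nil) (node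
  (nat_lit 5) (nat_lit 133365) (nat_lit 7) nil nil)) nil)) (node (nat_lit 0) (nat_lit 127643)
  (nat_lit 5) (node (nat_lit 5) (nat_lit 122297) (nat_lit 6) (node (nat_lit 4) (nat_lit 119988)
  (nat_lit 7) nil nil) nil) (node (nat_lit 2) (nat_lit 127643) (nat_lit 5) (node (nat_lit 5)
  (nat_lit 129127) (nat_lit 6) (node (nat_lit 4) (nat_lit 119087) (nat_lit 7) (node (nat_lit 5)
  (nat_lit 101630) (nat_lit 8) (node (nat_lit 6) (nat_lit 90569) (nat_lit 9) nil nil) nil) nil)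
  (node (nat_lit 4) (nat_lit 133314) (nat_lit 6) nil (node (nat_lit 1) (nat_lit 131224) (nat_lit
  6) nil nil))) nil))))) (node (nat_lit 5) (nat_lit 0) (nat_lit 4) (node (nat_lit 1) (nat_lit
  127643) (nat_lit 5) (node (nat_lit 4) (nat_lit 133132) (nat_lit 6) (node (nat_lit 5) (nat_lit
  116573) (nat_lit 7) (node (nat_lit 6) (nat_lit 75615) (nat_lit 8) nil nil) nil) nil) (node
  (nat_lit 4) (nat_lit 119893) (nat_lit 5) (node (nat_lit 6) (nat_lit 127837) (nat_lit 6) nil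
  (node (nat_lit 1) (nat_lit 128316) (nat_lit 6) (node (nat_lit 4) (nat_lit 130331) (nat_lit 7)
  (node (nat_lit 5) (nat_lit 120375) (nat_lit 8) nil nil) nil) (node (nat_lit 5) (nat_lit 126579)
  (nat_lit 6) (node (nat_lit 6) (nat_lit 88118) (nat_lit 7) nil nil) nil))) (node (nat_lit 2)
  (nat_lit 127643) (nat_lit 5) nil (node (nat_lit 0) (nat_lit 127643) (nat_lit 5) nil nil))))
  (node (nat_lit 0) (nat_lit 0) (nat_lit 4) (node (nat_lit 0) (nat_lit 127643) (nat_lit 5) nil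
  (node (nat_lit 2) (nat_lit 127643) (nat_lit 5) (node (nat_lit 6) (nat_lit 133132) (nat_lit 6)
  nil (node (nat_lit 5) (nat_lit 121866) (nat_lit 6) (node (nat_lit 4) (nat_lit 107065) (nat_lit
  7) nil nil) (node (nat_lit 4) (nat_lit 125791) (nat_lit 6) nil (node (nat_lit 1) (nat_lit
  128655) (nat_lit 6) (node (nat_lit 4) (nat_lit 112084) (nat_lit 7) nil nil) nil)))) (node
  (nat_lit 5) (nat_lit 127643) (nat_lit 5) (node (nat_lit 4) (nat_lit 130729) (nat_lit 6) (node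
  (nat_lit 5) (nat_lit 134697) (nat_lit 7) nil nil) nil) (node (nat_lit 1) (nat_lit 127643)
  (nat_lit 5) (node (nat_lit 5) (nat_lit 133132) (nat_lit 6) (node (nat_lit 4) (nat_lit 130823)
  (nat_lit 7) (node (nat_lit 5) (nat_lit 128729) (nat_lit 8) nil nil) nil) (node (nat_lit 4)
  (nat_lit 133132) (nat_lit 6) (node (nat_lit 5) (nat_lit 137100) (nat_lit 7) nil nil) nil)) (node
  (nat_lit 4) (nat_lit 127643) (nat_lit 5) nil (node (nat_lit 6) (nat_lit 127643) (nat_lit 5)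
  (node (nat_lit 5) (nat_lit 130729) (nat_lit 6) nil nil) nil)))))) (node (nat_lit 2) (nat_lit 0)
  (nat_lit 4) (node (nat_lit 0) (nat_lit 127643) (nat_lit 5) (node (nat_lit 5) (nat_lit 124700)
  (nat_lit 6) (node (nat_lit 4) (nat_lit 122391) (nat_lit 7) nil nil) nil) (node (nat_lit 5)
  (nat_lit 127643) (nat_lit 5) (node (nat_lit 4) (nat_lit 121544) (nat_lit 6) (node (nat_lit 5)
  (nat_lit 103757) (nat_lit 7) (node (nat_lit 6) (nat_lit 83291) (nat_lit 8) (node (nat_lit 7)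
  (nat_lit 80619) (nat_lit 9) nil nil) nil) nil) nil) (node (nat_lit 1) (nat_lit 127643) (nat_lit
  5) (node (nat_lit 5) (nat_lit 130729) (nat_lit 6) (node (nat_lit 4) (nat_lit 132182) (nat_lit 7)
  (node (nat_lit 5) (nat_lit 130450) (nat_lit 8) nil nil) nil) (node (nat_lit 4) (nat_lit 123055)
  (nat_lit 6) (node (nat_lit 5) (nat_lit 111073) (nat_lit 7) (node (nat_lit 4) (nat_lit 109341)
  (nat_lit 8) nil nil) nil) nil)) (node (nat_lit 4) (nat_lit 127643) (nat_lit 5) (node (nat_lit 1)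
  (nat_lit 130729) (nat_lit 6) (node (nat_lit 5) (nat_lit 132777) (nat_lit 7) (node (nat_lit 4)
  (nat_lit 130683) (nat_lit 8) nil (node (nat_lit 9) (nat_lit 126957) (nat_lit 8) nil nil)) (node
  (nat_lit 4) (nat_lit 120680) (nat_lit 7) (node (nat_lit 5) (nat_lit 110039) (nat_lit 8) nil nil)
  nil)) (node (nat_lit 5) (nat_lit 133132) (nat_lit 6) nil nil)) (node (nat_lit 6) (nat_lit
  127643) (nat_lit 5) (node (nat_lit 5) (nat_lit 130729) (nat_lit 6) nil (node (nat_lit 4)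
  (nat_lit 134390) (nat_lit 6) nil nil)) nil))))) nil))))) (node (nat_lit 2) (nat_lit 0) (nat_lit
  3) (node (nat_lit 1) (nat_lit 0) (nat_lit 4) (node (nat_lit 6) (nat_lit 0) (nat_lit 5) (node
  (nat_lit 5) (nat_lit 0) (nat_lit 6) (node (nat_lit 7) (nat_lit 122835) (nat_lit 7) (node
  (nat_lit 5) (nat_lit 125899) (nat_lit 8) (node (nat_lit 6) (nat_lit 128156) (nat_lit 9) (node
  (nat_lit 7) (nat_lit 128156) (nat_lit 10) nil nil) nil) (node (nat_lit 4) (nat_lit 128156)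
  (nat_lit 8) nil nil)) (node (nat_lit 4) (nat_lit 128156) (nat_lit 7) (node (nat_lit 5) (nat_lit
  112747) (nat_lit 8) (node (nat_lit 6) (nat_lit 88980) (nat_lit 9) (node (nat_lit 7) (nat_lit
  85037) (nat_lit 10) nil nil) nil) nil) (node (nat_lit 6) (nat_lit 122835) (nat_lit 7) nil (node
  (nat_lit 0) (nat_lit 122835) (nat_lit 7) nil nil)))) (node (nat_lit 4) (nat_lit 127350) (nat_lit
  6) (node (nat_lit 7) (nat_lit 128156) (nat_lit 7) (node (nat_lit 4) (nat_lit 128156) (nat_lit 8)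
  (node (nat_lit 5) (nat_lit 128156) (nat_lit 9) nil nil) nil) (node (nat_lit 5) (nat_lit 126498)
  (nat_lit 7) (node (nat_lit 7) (nat_lit 128156) (nat_lit 8) (node (nat_lit 4) (nat_lit 125523)
  (nat_lit 9) (node (nat_lit 5) (nat_lit 120983) (nat_lit 10) nil nil) (node (nat_lit 5) (nat_lit
  128156) (nat_lit 9) nil nil)) nil) nil)) (node (nat_lit 0) (nat_lit 128156) (nat_lit 6) (node
  (nat_lit 5) (nat_lit 128156) (nat_lit 7) nil nil) nil))) (node (nat_lit 4) (nat_lit 97381)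
  (nat_lit 5) (node (nat_lit 6) (nat_lit 107593) (nat_lit 6) (node (nat_lit 4) (nat_lit 114705)
  (nat_lit 7) (node (nat_lit 7) (nat_lit 118969) (nat_lit 8) nil nil) (node (nat_lit 5) (nat_lit
  114705) (nat_lit 7) (node (nat_lit 4) (nat_lit 117088) (nat_lit 8) nil (node (nat_lit 7)
  (nat_lit 117889) (nat_lit 8) (node (nat_lit 5) (nat_lit 119694) (nat_lit 9) (node (nat_lit 6)
  (nat_lit 115551) (nat_lit 10) (node (nat_lit 7) (nat_lit 116047) (nat_lit 11) (node (nat_lit 4)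
  (nat_lit 116109) (nat_lit 12) nil nil) nil) nil) nil) nil)) (node (nat_lit 7) (nat_lit 112154)
  (nat_lit 7) nil nil))) (node (nat_lit 5) (nat_lit 48474) (nat_lit 6) (node (nat_lit 7) (nat_lit
  51068) (nat_lit 7) (node (nat_lit 5) (nat_lit 52802) (nat_lit 8) (node (nat_lit 4) (nat_lit
  54042) (nat_lit 9) nil nil) (node (nat_lit 4) (nat_lit 52802) (nat_lit 8) nil (node (nat_lit 6)
  (nat_lit 52802) (nat_lit 8) (node (nat_lit 7) (nat_lit 54042) (nat_lit 9) nil nil) nil))) (node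
  (nat_lit 4) (nat_lit 51068) (nat_lit 7) (node (nat_lit 7) (nat_lit 52802) (nat_lit 8) (node
  (nat_lit 5) (nat_lit 54042) (nat_lit 9) nil nil) (node (nat_lit 6) (nat_lit 52802) (nat_lit 8)
  nil nil)) nil)) (node (nat_lit 7) (nat_lit 107807) (nat_lit 6) (node (nat_lit 6) (nat_lit
  114919) (nat_lit 7) nil (node (nat_lit 5) (nat_lit 114919) (nat_lit 7) nil nil)) nil))) (node
  (nat_lit 5) (nat_lit 0) (nat_lit 5) (node (nat_lit 7) (nat_lit 118879) (nat_lit 6) (node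
  (nat_lit 4) (nat_lit 128156) (nat_lit 7) (node (nat_lit 5) (nat_lit 120996) (nat_lit 8) nil nil)
  nil) (node (nat_lit 4) (nat_lit 127350) (nat_lit 6) (node (nat_lit 7) (nat_lit 128156) (nat_lit
  7) nil (node (nat_lit 5) (nat_lit 126498) (nat_lit 7) (node (nat_lit 6) (nat_lit 123082)
  (nat_lit 8) nil nil) nil)) (node (nat_lit 6) (nat_lit 118879) (nat_lit 6) (node (nat_lit 5)
  (nat_lit 122847) (nat_lit 7) (node (nat_lit 4) (nat_lit 128156) (nat_lit 8) nil nil) (node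
  (nat_lit 4) (nat_lit 128156) (nat_lit 7) nil nil)) (node (nat_lit 0) (nat_lit 128156) (nat_lit
  6) nil nil)))) (node (nat_lit 0) (nat_lit 125272) (nat_lit 5) nil nil)))) (node (nat_lit 4)
  (nat_lit 0) (nat_lit 4) (node (nat_lit 6) (nat_lit 0) (nat_lit 5) (node (nat_lit 5) (nat_lit 0)
  (nat_lit 6) (node (nat_lit 4) (nat_lit 97993) (nat_lit 7) (node (nat_lit 5) (nat_lit 114138)
  (nat_lit 8) (node (nat_lit 6) (nat_lit 110239) (nat_lit 9) (node (nat_lit 4) (nat_lit 91332)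
  (nat_lit 10) (node (nat_lit 6) (nat_lit 89588) (nat_lit 11) nil nil) nil) nil) (node (nat_lit 1)
  (nat_lit 121198) (nat_lit 8) (node (nat_lit 4) (nat_lit 120555) (nat_lit 9) nil nil) (node
  (nat_lit 6) (nat_lit 117301) (nat_lit 8) (node (nat_lit 4) (nat_lit 121198) (nat_lit 9) nil nil)
  (node (nat_lit 0) (nat_lit 121198) (nat_lit 8) nil nil)))) (node (nat_lit 1) (nat_lit 121198)
  (nat_lit 7) (node (nat_lit 4) (nat_lit 121198) (nat_lit 8) (node (nat_lit 5) (nat_lit 121198)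
  (nat_lit 9) nil nil) nil) (node (nat_lit 6) (nat_lit 97889) (nat_lit 7) (node (nat_lit 4)
  (nat_lit 117085) (nat_lit 8) (node (nat_lit 5) (nat_lit 121198) (nat_lit 9) nil (node (nat_lit
  1) (nat_lit 121198) (nat_lit 9) nil nil)) (node (nat_lit 1) (nat_lit 121198) (nat_lit 8) nil
  (node (nat_lit 0) (nat_lit 121198) (nat_lit 8) nil nil))) (node (nat_lit 0) (nat_lit 121198)
  (nat_lit 7) nil nil)))) (node (nat_lit 1) (nat_lit 121198) (nat_lit 6) (node (nat_lit 4)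
  (nat_lit 121198) (nat_lit 7) (node (nat_lit 5) (nat_lit 121198) (nat_lit 8) (node (nat_lit 6)
  (nat_lit 104391) (nat_lit 9) (node (nat_lit 4) (nat_lit 46197) (nat_lit 10) nil nil) nil) nil)
  (node (nat_lit 5) (nat_lit 121198) (nat_lit 7) (node (nat_lit 4) (nat_lit 121198) (nat_lit 8)
  (node (nat_lit 5) (nat_lit 121198) (nat_lit 9) nil nil) nil) (node (nat_lit 6) (nat_lit 121198)
  (nat_lit 7) nil nil))) (node (nat_lit 0) (nat_lit 121198) (nat_lit 6) (node (nat_lit 5) (nat_lit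
  121198) (nat_lit 7) (node (nat_lit 4) (nat_lit 121198) (nat_lit 8) nil nil) nil) nil))) (node
  (nat_lit 1) (nat_lit 0) (nat_lit 5) (node (nat_lit 6) (nat_lit 128156) (nat_lit 6) (node
  (nat_lit 8) (nat_lit 128156) (nat_lit 7) (node (nat_lit 4) (nat_lit 128156) (nat_lit 8) (node
  (nat_lit 5) (nat_lit 128156) (nat_lit 9) (node (nat_lit 6) (nat_lit 116396) (nat_lit 10) (node
  (nat_lit 4) (nat_lit 100891) (nat_lit 11) (node (nat_lit 8) (nat_lit 29651) (nat_lit 12) nil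
  nil) nil) nil) nil) (node (nat_lit 5) (nat_lit 128156) (nat_lit 8) (node (nat_lit 4) (nat_lit
  128156) (nat_lit 9) nil nil) nil)) (node (nat_lit 5) (nat_lit 128156) (nat_lit 7) (node (nat_lit
  8) (nat_lit 128156) (nat_lit 8) (node (nat_lit 5) (nat_lit 128156) (nat_lit 9) nil nil) (node
  (nat_lit 4) (nat_lit 128156) (nat_lit 8) (node (nat_lit 5) (nat_lit 125187) (nat_lit 9) nil nil)
  nil)) (node (nat_lit 4) (nat_lit 128156) (nat_lit 7) (node (nat_lit 6) (nat_lit 128156) (nat_lit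
  8) (node (nat_lit 8) (nat_lit 127824) (nat_lit 9) (node (nat_lit 4) (nat_lit 126445) (nat_lit
  10) nil nil) nil) (node (nat_lit 5) (nat_lit 128156) (nat_lit 8) (node (nat_lit 8) (nat_lit
  128156) (nat_lit 9) (node (nat_lit 5) (nat_lit 128156) (nat_lit 10) nil nil) nil) nil)) nil)))
  (node (nat_lit 5) (nat_lit 128156) (nat_lit 6) (node (nat_lit 4) (nat_lit 128156) (nat_lit 7)
  (node (nat_lit 5) (nat_lit 128156) (nat_lit 8) (node (nat_lit 6) (nat_lit 128156) (nat_lit 9)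
  (node (nat_lit 4) (nat_lit 128156) (nat_lit 10) nil nil) nil) nil) (node (nat_lit 8) (nat_lit
  128156) (nat_lit 7) (node (nat_lit 4) (nat_lit 128156) (nat_lit 8) (node (nat_lit 5) (nat_lit
  128156) (nat_lit 9) nil nil) nil) nil)) (node (nat_lit 4) (nat_lit 126329) (nat_lit 6) (node
  (nat_lit 6) (nat_lit 126882) (nat_lit 7) (node (nat_lit 5) (nat_lit 125258) (nat_lit 8) nil
  (node (nat_lit 4) (nat_lit 126226) (nat_lit 8) (node (nat_lit 8) (nat_lit 127848) (nat_lit 9)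
  nil nil) nil)) (node (nat_lit 5) (nat_lit 113822) (nat_lit 7) (node (nat_lit 8) (nat_lit 117604)
  (nat_lit 8) (node (nat_lit 5) (nat_lit 119409) (nat_lit 9) nil nil) (node (nat_lit 6) (nat_lit
  84837) (nat_lit 8) nil (node (nat_lit 4) (nat_lit 111728) (nat_lit 8) nil nil))) nil)) (node
  (nat_lit 0) (nat_lit 128156) (nat_lit 6) nil nil)))) (node (nat_lit 5) (nat_lit 0) (nat_lit 5)
  (node (nat_lit 4) (nat_lit 0) (nat_lit 6) (node (nat_lit 6) (nat_lit 97587) (nat_lit 7) (node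
  (nat_lit 4) (nat_lit 111385) (nat_lit 8) (node (nat_lit 5) (nat_lit 109085) (nat_lit 9) nil nil)
  (node (nat_lit 1) (nat_lit 123529) (nat_lit 8) nil (node (nat_lit 5) (nat_lit 114489) (nat_lit
  8) nil nil))) (node (nat_lit 1) (nat_lit 123725) (nat_lit 7) nil (node (nat_lit 0) (nat_lit
  123725) (nat_lit 7) nil nil))) (node (nat_lit 1) (nat_lit 123725) (nat_lit 6) (node (nat_lit 4)
  (nat_lit 111423) (nat_lit 7) (node (nat_lit 5) (nat_lit 106609) (nat_lit 8) nil nil) (node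
  (nat_lit 5) (nat_lit 123725) (nat_lit 7) (node (nat_lit 4) (nat_lit 123725) (nat_lit 8) (node
  (nat_lit 9) (nat_lit 123725) (nat_lit 9) nil (node (nat_lit 5) (nat_lit 123725) (nat_lit 9) nil
  nil)) nil) nil)) (node (nat_lit 0) (nat_lit 122403) (nat_lit 6) nil nil))) (node (nat_lit 0)
  (nat_lit 122006) (nat_lit 5) (node (nat_lit 5) (nat_lit 128156) (nat_lit 6) nil (node (nat_lit
  4) (nat_lit 128156) (nat_lit 6) nil (node (nat_lit 1) (nat_lit 128156) (nat_lit 6) nil nil)))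
  nil)))) (node (nat_lit 5) (nat_lit 0) (nat_lit 4) (node (nat_lit 1) (nat_lit 0) (nat_lit 5)
  (node (nat_lit 6) (nat_lit 118642) (nat_lit 6) (node (nat_lit 5) (nat_lit 122610) (nat_lit 7)
  (node (nat_lit 4) (nat_lit 105247) (nat_lit 8) nil nil) nil) (node (nat_lit 4) (nat_lit 118431)
  (nat_lit 6) (node (nat_lit 5) (nat_lit 97614) (nat_lit 7) (node (nat_lit 6) (nat_lit 72773)
  (nat_lit 8) nil (node (nat_lit 4) (nat_lit 102062) (nat_lit 8) nil nil)) nil) (node (nat_lit 5)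
  (nat_lit 118679) (nat_lit 6) (node (nat_lit 4) (nat_lit 126275) (nat_lit 7) (node (nat_lit 5)
  (nat_lit 127602) (nat_lit 8) nil (node (nat_lit 8) (nat_lit 124690) (nat_lit 8) nil nil)) nil)
  (node (nat_lit 0) (nat_lit 118611) (nat_lit 6) nil nil)))) (node (nat_lit 4) (nat_lit 0)
  (nat_lit 5) (node (nat_lit 6) (nat_lit 0) (nat_lit 6) (node (nat_lit 5) (nat_lit 0) (nat_lit 7)
  (node (nat_lit 6) (nat_lit 117945) (nat_lit 8) (node (nat_lit 4) (nat_lit 121250) (nat_lit 9)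
  nil nil) (node (nat_lit 1) (nat_lit 124805) (nat_lit 8) nil (node (nat_lit 0) (nat_lit 116104)
  (nat_lit 8) nil nil))) (node (nat_lit 4) (nat_lit 0) (nat_lit 7) (node (nat_lit 5) (nat_lit
  120210) (nat_lit 8) nil (node (nat_lit 1) (nat_lit 114937) (nat_lit 8) nil (node (nat_lit 0)
  (nat_lit 123251) (nat_lit 8) nil nil))) (node (nat_lit 1) (nat_lit 123110) (nat_lit 7) nil (node
  (nat_lit 0) (nat_lit 124494) (nat_lit 7) nil nil)))) (node (nat_lit 1) (nat_lit 116301) (nat_lit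
  6) (node (nat_lit 5) (nat_lit 122122) (nat_lit 7) (node (nat_lit 4) (nat_lit 123795) (nat_lit 8)
  (node (nat_lit 5) (nat_lit 125100) (nat_lit 9) nil nil) nil) (node (nat_lit 4) (nat_lit 116496)
  (nat_lit 7) (node (nat_lit 5) (nat_lit 114446) (nat_lit 8) (node (nat_lit 6) (nat_lit 87108)
  (nat_lit 9) nil nil) nil) nil)) (node (nat_lit 5) (nat_lit 85915) (nat_lit 6) (node (nat_lit 1)
  (nat_lit 88118) (nat_lit 7) (node (nat_lit 4) (nat_lit 89568) (nat_lit 8) nil nil) (node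
  (nat_lit 6) (nat_lit 88118) (nat_lit 7) nil nil)) (node (nat_lit 0) (nat_lit 118921) (nat_lit 6)
  nil nil)))) (node (nat_lit 0) (nat_lit 119869) (nat_lit 5) (node (nat_lit 5) (nat_lit 126275)
  (nat_lit 6) nil nil) nil))) (node (nat_lit 0) (nat_lit 0) (nat_lit 4) (node (nat_lit 0) (nat_lit
  127643) (nat_lit 5) (node (nat_lit 5) (nat_lit 128156) (nat_lit 6) nil nil) (node (nat_lit 5)
  (nat_lit 127643) (nat_lit 5) (node (nat_lit 4) (nat_lit 128156) (nat_lit 6) (node (nat_lit 5)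
  (nat_lit 128156) (nat_lit 7) (node (nat_lit 6) (nat_lit 122258) (nat_lit 8) nil nil) nil) nil)
  (node (nat_lit 1) (nat_lit 127643) (nat_lit 5) (node (nat_lit 5) (nat_lit 128156) (nat_lit 6)
  (node (nat_lit 4) (nat_lit 128156) (nat_lit 7) (node (nat_lit 5) (nat_lit 126326) (nat_lit 8)
  nil nil) nil) (node (nat_lit 4) (nat_lit 128156) (nat_lit 6) (node (nat_lit 5) (nat_lit 128156)
  (nat_lit 7) nil nil) nil)) (node (nat_lit 4) (nat_lit 127643) (nat_lit 5) (node (nat_lit 5)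
  (nat_lit 128156) (nat_lit 6) nil nil) (node (nat_lit 6) (nat_lit 127643) (nat_lit 5) (node
  (nat_lit 5) (nat_lit 128156) (nat_lit 6) nil nil) nil))))) nil)))) nil))

noncomputable def t155 : Tr :=
  (node (nat_lit 1) (nat_lit 0) (nat_lit 2) (node (nat_lit 3) (nat_lit 0) (nat_lit 3) t149 (node
  (nat_lit 4) (nat_lit 0) (nat_lit 3) (node (nat_lit 0) (nat_lit 0) (nat_lit 4) (node (nat_lit 3)
  (nat_lit 0) (nat_lit 5) (node (nat_lit 7) (nat_lit 0) (nat_lit 6) (node (nat_lit 4) (nat_lit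
  50860) (nat_lit 7) (node (nat_lit 8) (nat_lit 50860) (nat_lit 8) (node (nat_lit 4) (nat_lit
  50860) (nat_lit 9) (node (nat_lit 5) (nat_lit 51880) (nat_lit 10) (node (nat_lit 4) (nat_lit
  48426) (nat_lit 11) (node (nat_lit 7) (nat_lit 33664) (nat_lit 12) nil nil) nil) nil) nil) (node
  (nat_lit 5) (nat_lit 51507) (nat_lit 8) (node (nat_lit 8) (nat_lit 51507) (nat_lit 9) nil nil)
  nil)) (node (nat_lit 5) (nat_lit 51229) (nat_lit 7) (node (nat_lit 8) (nat_lit 51229) (nat_lit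
  8) nil nil) (node (nat_lit 0) (nat_lit 51229) (nat_lit 7) nil (node (nat_lit 2) (nat_lit 50860)
  (nat_lit 7) nil nil)))) (node (nat_lit 4) (nat_lit 45615) (nat_lit 6) (node (nat_lit 7) (nat_lit
  49776) (nat_lit 7) (node (nat_lit 4) (nat_lit 49776) (nat_lit 8) (node (nat_lit 8) (nat_lit
  49776) (nat_lit 9) (node (nat_lit 4) (nat_lit 49776) (nat_lit 10) (node (nat_lit 5) (nat_lit
  50145) (nat_lit 11) (node (nat_lit 4) (nat_lit 50145) (nat_lit 12) (node (nat_lit 7) (nat_lit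
  50245) (nat_lit 13) (node (nat_lit 8) (nat_lit 38414) (nat_lit 14) nil nil) nil) nil) nil) nil)
  nil) nil) (node (nat_lit 8) (nat_lit 47017) (nat_lit 7) (node (nat_lit 5) (nat_lit 49002)
  (nat_lit 8) nil nil) (node (nat_lit 5) (nat_lit 48725) (nat_lit 7) nil nil))) (node (nat_lit 5)
  (nat_lit 51421) (nat_lit 6) (node (nat_lit 7) (nat_lit 51790) (nat_lit 7) (node (nat_lit 8)
  (nat_lit 51790) (nat_lit 8) nil nil) (node (nat_lit 8) (nat_lit 51421) (nat_lit 7) (node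
  (nat_lit 4) (nat_lit 51421) (nat_lit 8) (node (nat_lit 5) (nat_lit 52277) (nat_lit 9) (node
  (nat_lit 4) (nat_lit 52277) (nat_lit 10) (node (nat_lit 7) (nat_lit 52569) (nat_lit 11) nil nil)
  nil) nil) nil) (node (nat_lit 4) (nat_lit 51421) (nat_lit 7) (node (nat_lit 8) (nat_lit 51421)
  (nat_lit 8) (node (nat_lit 4) (nat_lit 51421) (nat_lit 9) (node (nat_lit 5) (nat_lit 52441)
  (nat_lit 10) nil nil) nil) (node (nat_lit 5) (nat_lit 52068) (nat_lit 8) (node (nat_lit 8)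
  (nat_lit 52068) (nat_lit 9) nil nil) nil)) nil))) (node (nat_lit 0) (nat_lit 49631) (nat_lit 6)
  (node (nat_lit 8) (nat_lit 49631) (nat_lit 7) (node (nat_lit 4) (nat_lit 49631) (nat_lit 8) nil
  nil) nil) (node (nat_lit 2) (nat_lit 45407) (nat_lit 6) (node (nat_lit 4) (nat_lit 45407)
  (nat_lit 7) (node (nat_lit 8) (nat_lit 45407) (nat_lit 8) nil nil) (node (nat_lit 8) (nat_lit
  46265) (nat_lit 7) (node (nat_lit 4) (nat_lit 42583) (nat_lit 8) nil nil) (node (nat_lit 5)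
  (nat_lit 48725) (nat_lit 7) (node (nat_lit 8) (nat_lit 48725) (nat_lit 8) nil nil) nil)))
  nil))))) (node (nat_lit 5) (nat_lit 0) (nat_lit 5) (node (nat_lit 7) (nat_lit 0) (nat_lit 6)
  (node (nat_lit 4) (nat_lit 52517) (nat_lit 7) (node (nat_lit 5) (nat_lit 53778) (nat_lit 8) nil
  (node (nat_lit 7) (nat_lit 54249) (nat_lit 8) nil nil)) (node (nat_lit 3) (nat_lit 52594)
  (nat_lit 7) (node (nat_lit 5) (nat_lit 53240) (nat_lit 8) (node (nat_lit 10) (nat_lit 53240)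
  (nat_lit 9) (node (nat_lit 4) (nat_lit 53240) (nat_lit 10) nil nil) nil) (node (nat_lit 4)
  (nat_lit 52594) (nat_lit 8) (node (nat_lit 5) (nat_lit 53408) (nat_lit 9) (node (nat_lit 4)
  (nat_lit 53408) (nat_lit 10) nil nil) nil) nil)) (node (nat_lit 0) (nat_lit 52979) (nat_lit 7)
  nil (node (nat_lit 2) (nat_lit 52594) (nat_lit 7) nil nil)))) (node (nat_lit 4) (nat_lit 49811)
  (nat_lit 6) (node (nat_lit 5) (nat_lit 54465) (nat_lit 7) nil (node (nat_lit 3) (nat_lit 50769)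
  (nat_lit 7) (node (nat_lit 4) (nat_lit 50825) (nat_lit 8) (node (nat_lit 5) (nat_lit 52373)
  (nat_lit 9) (node (nat_lit 4) (nat_lit 38040) (nat_lit 10) nil nil) nil) nil) nil)) (node
  (nat_lit 3) (nat_lit 49307) (nat_lit 6) (node (nat_lit 4) (nat_lit 49307) (nat_lit 7) (node
  (nat_lit 5) (nat_lit 50710) (nat_lit 8) (node (nat_lit 4) (nat_lit 50710) (nat_lit 9) nil nil)
  nil) (node (nat_lit 7) (nat_lit 51724) (nat_lit 7) nil nil)) (node (nat_lit 0) (nat_lit 52485)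
  (nat_lit 6) nil (node (nat_lit 2) (nat_lit 49765) (nat_lit 6) (node (nat_lit 4) (nat_lit 49765)
  (nat_lit 7) nil nil) nil))))) (node (nat_lit 4) (nat_lit 0) (nat_lit 5) (node (nat_lit 3)
  (nat_lit 45603) (nat_lit 6) (node (nat_lit 4) (nat_lit 45947) (nat_lit 7) (node (nat_lit 5)
  (nat_lit 45128) (nat_lit 8) nil nil) (node (nat_lit 7) (nat_lit 49548) (nat_lit 7) nil nil))
  (node (nat_lit 5) (nat_lit 52258) (nat_lit 6) (node (nat_lit 7) (nat_lit 53862) (nat_lit 7) nil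
  (node (nat_lit 3) (nat_lit 52258) (nat_lit 7) (node (nat_lit 4) (nat_lit 52258) (nat_lit 8)
  (node (nat_lit 5) (nat_lit 53072) (nat_lit 9) (node (nat_lit 4) (nat_lit 53072) (nat_lit 10) nil
  nil) nil) nil) nil)) (node (nat_lit 0) (nat_lit 50801) (nat_lit 6) nil (node (nat_lit 2)
  (nat_lit 45261) (nat_lit 6) (node (nat_lit 4) (nat_lit 46413) (nat_lit 7) (node (nat_lit 7)
  (nat_lit 49002) (nat_lit 8) nil (node (nat_lit 5) (nat_lit 49002) (nat_lit 8) nil nil)) (node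
  (nat_lit 7) (nat_lit 49548) (nat_lit 7) nil (node (nat_lit 5) (nat_lit 49022) (nat_lit 7) nil
  (node (nat_lit 3) (nat_lit 45997) (nat_lit 7) (node (nat_lit 4) (nat_lit 45997) (nat_lit 8) nil
  nil) nil)))) nil)))) (node (nat_lit 0) (nat_lit 0) (nat_lit 5) (node (nat_lit 7) (nat_lit 52060)
  (nat_lit 6) (node (nat_lit 4) (nat_lit 52060) (nat_lit 7) nil (node (nat_lit 3) (nat_lit 52060)
  (nat_lit 7) nil nil)) (node (nat_lit 4) (nat_lit 49377) (nat_lit 6) (node (nat_lit 8) (nat_lit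
  51566) (nat_lit 7) nil nil) (node (nat_lit 3) (nat_lit 49159) (nat_lit 6) (node (nat_lit 4)
  (nat_lit 49159) (nat_lit 7) (node (nat_lit 5) (nat_lit 50562) (nat_lit 8) nil nil) nil) (node
  (nat_lit 5) (nat_lit 51746) (nat_lit 6) nil (node (nat_lit 0) (nat_lit 51439) (nat_lit 6) nil
  (node (nat_lit 2) (nat_lit 49159) (nat_lit 6) (node (nat_lit 5) (nat_lit 50301) (nat_lit 7) nil
  (node (nat_lit 3) (nat_lit 49159) (nat_lit 7) nil (node (nat_lit 4) (nat_lit 49159) (nat_lit 7)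
  nil (node (nat_lit 8) (nat_lit 50301) (nat_lit 7) nil (node (nat_lit 7) (nat_lit 50301) (nat_lit
  7) nil nil))))) nil)))))) (node (nat_lit 2) (nat_lit 0) (nat_lit 5) (node (nat_lit 7) (nat_lit
  50582) (nat_lit 6) (node (nat_lit 4) (nat_lit 50582) (nat_lit 7) nil (node (nat_lit 3) (nat_lit
  50582) (nat_lit 7) nil nil)) (node (nat_lit 4) (nat_lit 0) (nat_lit 6) (node (nat_lit 8)
  (nat_lit 47211) (nat_lit 7) (node (nat_lit 7) (nat_lit 49002) (nat_lit 8) nil (node (nat_lit 5)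
  (nat_lit 49002) (nat_lit 8) nil nil)) (node (nat_lit 3) (nat_lit 45610) (nat_lit 7) (node
  (nat_lit 4) (nat_lit 39628) (nat_lit 8) nil nil) (node (nat_lit 5) (nat_lit 48725) (nat_lit 7)
  nil (node (nat_lit 7) (nat_lit 48725) (nat_lit 7) nil (node (nat_lit 0) (nat_lit 48105) (nat_lit
  7) nil nil))))) (node (nat_lit 3) (nat_lit 45577) (nat_lit 6) (node (nat_lit 4) (nat_lit 45577)
  (nat_lit 7) (node (nat_lit 5) (nat_lit 35503) (nat_lit 8) nil nil) nil) (node (nat_lit 5)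
  (nat_lit 50502) (nat_lit 6) nil (node (nat_lit 0) (nat_lit 49631) (nat_lit 6) nil nil)))))
  nil))))) t150) t151)) (node (nat_lit 3) (nat_lit 0) (nat_lit 2) (node (nat_lit 1) (nat_lit 0)
  (nat_lit 3) (node (nat_lit 0) (nat_lit 0) (nat_lit 4) (node (nat_lit 4) (nat_lit 0) (nat_lit 5)
  (node (nat_lit 7) (nat_lit 132837) (nat_lit 6) (node (nat_lit 6) (nat_lit 133313) (nat_lit 7)
  (node (nat_lit 4) (nat_lit 133313) (nat_lit 8) (node (nat_lit 5) (nat_lit 133313) (nat_lit 9)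
  (node (nat_lit 6) (nat_lit 133983) (nat_lit 10) (node (nat_lit 7) (nat_lit 134123) (nat_lit 11)
  (node (nat_lit 4) (nat_lit 134123) (nat_lit 12) nil nil) nil) nil) nil) nil) (node (nat_lit 5)
  (nat_lit 131778) (nat_lit 7) (node (nat_lit 4) (nat_lit 130053) (nat_lit 8) (node (nat_lit 5)
  (nat_lit 131805) (nat_lit 9) (node (nat_lit 6) (nat_lit 133136) (nat_lit 10) (node (nat_lit 7)
  (nat_lit 134123) (nat_lit 11) (node (nat_lit 4) (nat_lit 133621) (nat_lit 12) nil nil) nil) nil)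
  nil) nil) nil)) (node (nat_lit 6) (nat_lit 132292) (nat_lit 6) (node (nat_lit 7) (nat_lit
  133313) (nat_lit 7) (node (nat_lit 6) (nat_lit 133615) (nat_lit 8) (node (nat_lit 4) (nat_lit
  133615) (nat_lit 9) nil nil) nil) (node (nat_lit 4) (nat_lit 132837) (nat_lit 7) (node (nat_lit
  5) (nat_lit 125624) (nat_lit 8) (node (nat_lit 6) (nat_lit 112186) (nat_lit 9) (node (nat_lit 7)
  (nat_lit 70891) (nat_lit 10) nil nil) nil) nil) (node (nat_lit 5) (nat_lit 130461) (nat_lit 7)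
  nil nil))) (node (nat_lit 5) (nat_lit 130525) (nat_lit 6) (node (nat_lit 7) (nat_lit 133165)
  (nat_lit 7) (node (nat_lit 5) (nat_lit 133165) (nat_lit 8) (node (nat_lit 4) (nat_lit 133165)
  (nat_lit 9) (node (nat_lit 5) (nat_lit 133165) (nat_lit 10) (node (nat_lit 6) (nat_lit 133974)
  (nat_lit 11) (node (nat_lit 7) (nat_lit 134102) (nat_lit 12) (node (nat_lit 4) (nat_lit 134102)
  (nat_lit 13) (node (nat_lit 5) (nat_lit 134102) (nat_lit 14) nil nil) nil) nil) nil) nil) nil)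
  nil) (node (nat_lit 4) (nat_lit 130525) (nat_lit 7) (node (nat_lit 6) (nat_lit 131558) (nat_lit
  8) nil nil) nil)) (node (nat_lit 0) (nat_lit 131203) (nat_lit 6) nil (node (nat_lit 2) (nat_lit
  126838) (nat_lit 6) (node (nat_lit 6) (nat_lit 120133) (nat_lit 7) (node (nat_lit 4) (nat_lit
  117098) (nat_lit 8) nil nil) (node (nat_lit 4) (nat_lit 126359) (nat_lit 7) (node (nat_lit 6)
  (nat_lit 126139) (nat_lit 8) nil nil) (node (nat_lit 5) (nat_lit 114454) (nat_lit 7) (node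
  (nat_lit 4) (nat_lit 107161) (nat_lit 8) nil (node (nat_lit 6) (nat_lit 114234) (nat_lit 8) nil
  nil)) nil))) nil))))) (node (nat_lit 5) (nat_lit 0) (nat_lit 5) (node (nat_lit 7) (nat_lit
  131442) (nat_lit 6) (node (nat_lit 6) (nat_lit 134786) (nat_lit 7) (node (nat_lit 5) (nat_lit
  135948) (nat_lit 8) (node (nat_lit 6) (nat_lit 136645) (nat_lit 9) nil (node (nat_lit 4)
  (nat_lit 135419) (nat_lit 9) nil nil)) (node (nat_lit 4) (nat_lit 135948) (nat_lit 8) (node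
  (nat_lit 5) (nat_lit 136135) (nat_lit 9) (node (nat_lit 6) (nat_lit 136805) (nat_lit 10) (node
  (nat_lit 7) (nat_lit 136944) (nat_lit 11) nil nil) nil) nil) nil)) (node (nat_lit 4) (nat_lit
  133036) (nat_lit 7) (node (nat_lit 5) (nat_lit 134369) (nat_lit 8) nil (node (nat_lit 6)
  (nat_lit 132816) (nat_lit 8) (node (nat_lit 5) (nat_lit 131245) (nat_lit 9) nil nil) nil)) nil))
  (node (nat_lit 6) (nat_lit 132661) (nat_lit 6) (node (nat_lit 5) (nat_lit 134426) (nat_lit 7)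
  (node (nat_lit 4) (nat_lit 134537) (nat_lit 8) (node (nat_lit 5) (nat_lit 134537) (nat_lit 9)
  nil nil) nil) (node (nat_lit 4) (nat_lit 134426) (nat_lit 7) (node (nat_lit 5) (nat_lit 125056)
  (nat_lit 8) (node (nat_lit 6) (nat_lit 100118) (nat_lit 9) (node (nat_lit 7) (nat_lit 56726)
  (nat_lit 10) nil nil) nil) nil) nil)) (node (nat_lit 4) (nat_lit 129777) (nat_lit 6) (node
  (nat_lit 5) (nat_lit 128794) (nat_lit 7) (node (nat_lit 6) (nat_lit 131736) (nat_lit 8) (node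
  (nat_lit 7) (nat_lit 90795) (nat_lit 9) nil nil) nil) (node (nat_lit 6) (nat_lit 132418)
  (nat_lit 7) (node (nat_lit 5) (nat_lit 132418) (nat_lit 8) (node (nat_lit 6) (nat_lit 132928)
  (nat_lit 9) (node (nat_lit 4) (nat_lit 132928) (nat_lit 10) nil nil) (node (nat_lit 4) (nat_lit
  132418) (nat_lit 9) (node (nat_lit 5) (nat_lit 132418) (nat_lit 10) (node (nat_lit 6) (nat_lit
  133227) (nat_lit 11) nil nil) nil) nil)) (node (nat_lit 4) (nat_lit 132418) (nat_lit 8) (node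
  (nat_lit 5) (nat_lit 127369) (nat_lit 9) (node (nat_lit 6) (nat_lit 116407) (nat_lit 10) nil
  nil) nil) nil)) (node (nat_lit 7) (nat_lit 132418) (nat_lit 7) nil nil))) (node (nat_lit 0)
  (nat_lit 130331) (nat_lit 6) (node (nat_lit 6) (nat_lit 132097) (nat_lit 7) (node (nat_lit 5)
  (nat_lit 133259) (nat_lit 8) nil nil) (node (nat_lit 5) (nat_lit 130133) (nat_lit 7) nil nil))
  (node (nat_lit 2) (nat_lit 125481) (nat_lit 6) (node (nat_lit 5) (nat_lit 120191) (nat_lit 7)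
  (node (nat_lit 4) (nat_lit 114256) (nat_lit 8) nil (node (nat_lit 6) (nat_lit 120911) (nat_lit
  8) nil nil)) (node (nat_lit 6) (nat_lit 126614) (nat_lit 7) (node (nat_lit 5) (nat_lit 124889)
  (nat_lit 8) nil nil) (node (nat_lit 4) (nat_lit 127246) (nat_lit 7) (node (nat_lit 6) (nat_lit
  128408) (nat_lit 8) nil (node (nat_lit 5) (nat_lit 128408) (nat_lit 8) nil nil)) nil))) nil)))))
  (node (nat_lit 6) (nat_lit 0) (nat_lit 5) (node (nat_lit 4) (nat_lit 132401) (nat_lit 6) (node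
  (nat_lit 6) (nat_lit 133785) (nat_lit 7) nil (node (nat_lit 5) (nat_lit 132401) (nat_lit 7)
  (node (nat_lit 6) (nat_lit 134088) (nat_lit 8) nil nil) nil)) (node (nat_lit 5) (nat_lit 132401)
  (nat_lit 6) (node (nat_lit 6) (nat_lit 133410) (nat_lit 7) (node (nat_lit 7) (nat_lit 134088)
  (nat_lit 8) nil nil) (node (nat_lit 4) (nat_lit 130845) (nat_lit 7) (node (nat_lit 5) (nat_lit
  132401) (nat_lit 8) (node (nat_lit 6) (nat_lit 134296) (nat_lit 9) (node (nat_lit 7) (nat_lit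
  134456) (nat_lit 10) nil nil) nil) nil) nil)) (node (nat_lit 0) (nat_lit 132222) (nat_lit 6) nil
  (node (nat_lit 2) (nat_lit 125552) (nat_lit 6) (node (nat_lit 6) (nat_lit 118887) (nat_lit 7)
  (node (nat_lit 4) (nat_lit 117041) (nat_lit 8) nil (node (nat_lit 5) (nat_lit 117161) (nat_lit
  8) nil nil)) (node (nat_lit 7) (nat_lit 127317) (nat_lit 7) nil (node (nat_lit 5) (nat_lit
  114454) (nat_lit 7) (node (nat_lit 6) (nat_lit 114234) (nat_lit 8) nil nil) (node (nat_lit 4)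
  (nat_lit 125113) (nat_lit 7) (node (nat_lit 6) (nat_lit 124893) (nat_lit 8) nil nil) nil))))
  nil)))) (node (nat_lit 0) (nat_lit 126174) (nat_lit 5) (node (nat_lit 7) (nat_lit 131900)
  (nat_lit 6) (node (nat_lit 6) (nat_lit 133493) (nat_lit 7) nil (node (nat_lit 5) (nat_lit
  130068) (nat_lit 7) (node (nat_lit 4) (nat_lit 128343) (nat_lit 8) nil nil) nil)) (node (nat_lit
  6) (nat_lit 131900) (nat_lit 6) (node (nat_lit 4) (nat_lit 133017) (nat_lit 7) (node (nat_lit 5)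
  (nat_lit 133017) (nat_lit 8) nil nil) nil) (node (nat_lit 5) (nat_lit 132109) (nat_lit 6) (node
  (nat_lit 4) (nat_lit 131778) (nat_lit 7) (node (nat_lit 5) (nat_lit 132109) (nat_lit 8) nil nil)
  (node (nat_lit 6) (nat_lit 125552) (nat_lit 7) (node (nat_lit 4) (nat_lit 122517) (nat_lit 8)
  nil (node (nat_lit 5) (nat_lit 128084) (nat_lit 8) nil nil)) nil)) (node (nat_lit 4) (nat_lit
  132109) (nat_lit 6) (node (nat_lit 6) (nat_lit 133493) (nat_lit 7) (node (nat_lit 5) (nat_lit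
  133493) (nat_lit 8) nil (node (nat_lit 4) (nat_lit 122517) (nat_lit 8) nil nil)) (node (nat_lit
  5) (nat_lit 132109) (nat_lit 7) nil (node (nat_lit 8) (nat_lit 133493) (nat_lit 7) nil nil)))
  nil)))) (node (nat_lit 2) (nat_lit 0) (nat_lit 5) (node (nat_lit 7) (nat_lit 130344) (nat_lit 6)
  (node (nat_lit 6) (nat_lit 132109) (nat_lit 7) (node (nat_lit 4) (nat_lit 133272) (nat_lit 8)
  nil (node (nat_lit 5) (nat_lit 133272) (nat_lit 8) nil nil)) (node (nat_lit 4) (nat_lit 129447)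
  (nat_lit 7) (node (nat_lit 6) (nat_lit 129227) (nat_lit 8) nil nil) (node (nat_lit 5) (nat_lit
  129447) (nat_lit 7) (node (nat_lit 4) (nat_lit 127722) (nat_lit 8) nil (node (nat_lit 6)
  (nat_lit 129227) (nat_lit 8) nil nil)) nil))) (node (nat_lit 6) (nat_lit 124331) (nat_lit 6)
  (node (nat_lit 8) (nat_lit 122755) (nat_lit 7) (node (nat_lit 5) (nat_lit 118022) (nat_lit 8)
  nil nil) (node (nat_lit 4) (nat_lit 120636) (nat_lit 7) (node (nat_lit 5) (nat_lit 108481)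
  (nat_lit 8) (node (nat_lit 6) (nat_lit 80032) (nat_lit 9) nil nil) nil) (node (nat_lit 5)
  (nat_lit 122500) (nat_lit 7) (node (nat_lit 4) (nat_lit 120775) (nat_lit 8) nil nil) nil)))
  (node (nat_lit 5) (nat_lit 119602) (nat_lit 6) (node (nat_lit 6) (nat_lit 120932) (nat_lit 7)
  (node (nat_lit 4) (nat_lit 117824) (nat_lit 8) (node (nat_lit 5) (nat_lit 111012) (nat_lit 9)
  nil nil) (node (nat_lit 5) (nat_lit 121707) (nat_lit 8) nil nil)) (node (nat_lit 4) (nat_lit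
  114490) (nat_lit 7) (node (nat_lit 5) (nat_lit 100290) (nat_lit 8) (node (nat_lit 6) (nat_lit
  85116) (nat_lit 9) nil nil) nil) nil)) (node (nat_lit 4) (nat_lit 125638) (nat_lit 6) (node
  (nat_lit 6) (nat_lit 125329) (nat_lit 7) (node (nat_lit 5) (nat_lit 123827) (nat_lit 8) nil
  (node (nat_lit 4) (nat_lit 118255) (nat_lit 8) nil nil)) nil) (node (nat_lit 0) (nat_lit 130308)
  (nat_lit 6) nil nil))))) nil))))) (node (nat_lit 4) (nat_lit 0) (nat_lit 4) t152 t153)) (node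
  (nat_lit 4) (nat_lit 0) (nat_lit 3) (node (nat_lit 0) (nat_lit 0) (nat_lit 4) (node (nat_lit 1)
  (nat_lit 83575) (nat_lit 5) (node (nat_lit 7) (nat_lit 86685) (nat_lit 6) nil (node (nat_lit 4)
  (nat_lit 86685) (nat_lit 6) (node (nat_lit 5) (nat_lit 88695) (nat_lit 7) (node (nat_lit 4)
  (nat_lit 85631) (nat_lit 8) nil nil) nil) (node (nat_lit 5) (nat_lit 86685) (nat_lit 6) nil
  nil))) (node (nat_lit 5) (nat_lit 83575) (nat_lit 5) (node (nat_lit 7) (nat_lit 86685) (nat_lit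
  6) nil (node (nat_lit 4) (nat_lit 86685) (nat_lit 6) nil (node (nat_lit 1) (nat_lit 86685)
  (nat_lit 6) nil nil))) (node (nat_lit 4) (nat_lit 83575) (nat_lit 5) (node (nat_lit 5) (nat_lit
  86685) (nat_lit 6) nil nil) (node (nat_lit 0) (nat_lit 83575) (nat_lit 5) (node (nat_lit 4)
  (nat_lit 86685) (nat_lit 6) nil nil) (node (nat_lit 2) (nat_lit 83575) (nat_lit 5) (node
  (nat_lit 7) (nat_lit 86685) (nat_lit 6) nil (node (nat_lit 4) (nat_lit 86685) (nat_lit 6) nil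
  (node (nat_lit 5) (nat_lit 86685) (nat_lit 6) nil nil))) nil))))) (node (nat_lit 1) (nat_lit 0)
  (nat_lit 4) (node (nat_lit 0) (nat_lit 83575) (nat_lit 5) (node (nat_lit 7) (nat_lit 86685)
  (nat_lit 6) (node (nat_lit 4) (nat_lit 88695) (nat_lit 7) (node (nat_lit 5) (nat_lit 90017)
  (nat_lit 8) (node (nat_lit 4) (nat_lit 87509) (nat_lit 9) (node (nat_lit 7) (nat_lit 87560)
  (nat_lit 10) nil nil) nil) nil) nil) (node (nat_lit 4) (nat_lit 86685) (nat_lit 6) nil nil))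
  (node (nat_lit 5) (nat_lit 0) (nat_lit 5) (node (nat_lit 0) (nat_lit 77682) (nat_lit 6) nil
  (node (nat_lit 2) (nat_lit 77682) (nat_lit 6) nil (node (nat_lit 7) (nat_lit 51618) (nat_lit 6)
  (node (nat_lit 4) (nat_lit 70365) (nat_lit 7) (node (nat_lit 5) (nat_lit 71423) (nat_lit 8) nil
  nil) nil) (node (nat_lit 4) (nat_lit 0) (nat_lit 6) (node (nat_lit 5) (nat_lit 69136) (nat_lit
  7) (node (nat_lit 7) (nat_lit 75716) (nat_lit 8) nil nil) (node (nat_lit 0) (nat_lit 73402)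
  (nat_lit 7) nil (node (nat_lit 2) (nat_lit 79799) (nat_lit 7) nil nil))) nil)))) (node (nat_lit
  2) (nat_lit 83575) (nat_lit 5) (node (nat_lit 7) (nat_lit 86685) (nat_lit 6) (node (nat_lit 4)
  (nat_lit 87827) (nat_lit 7) (node (nat_lit 5) (nat_lit 77085) (nat_lit 8) (node (nat_lit 4)
  (nat_lit 62779) (nat_lit 9) nil nil) nil) nil) (node (nat_lit 4) (nat_lit 86685) (nat_lit 6)
  (node (nat_lit 7) (nat_lit 88695) (nat_lit 7) (node (nat_lit 4) (nat_lit 90017) (nat_lit 8)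
  (node (nat_lit 5) (nat_lit 83394) (nat_lit 9) nil nil) nil) nil) (node (nat_lit 5) (nat_lit
  86685) (nat_lit 6) nil nil))) (node (nat_lit 4) (nat_lit 0) (nat_lit 5) (node (nat_lit 0)
  (nat_lit 74269) (nat_lit 6) (node (nat_lit 7) (nat_lit 78828) (nat_lit 7) (node (nat_lit 4)
  (nat_lit 81730) (nat_lit 8) (node (nat_lit 5) (nat_lit 82840) (nat_lit 9) (node (nat_lit 4)
  (nat_lit 80783) (nat_lit 10) (node (nat_lit 7) (nat_lit 80979) (nat_lit 11) (node (nat_lit 4)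
  (nat_lit 80326) (nat_lit 12) nil nil) nil) nil) nil) nil) (node (nat_lit 4) (nat_lit 78828)
  (nat_lit 7) nil (node (nat_lit 5) (nat_lit 78828) (nat_lit 7) nil nil))) (node (nat_lit 2)
  (nat_lit 0) (nat_lit 6) (node (nat_lit 7) (nat_lit 78828) (nat_lit 7) (node (nat_lit 4) (nat_lit
  81730) (nat_lit 8) (node (nat_lit 5) (nat_lit 71555) (nat_lit 9) (node (nat_lit 4) (nat_lit
  63584) (nat_lit 10) (node (nat_lit 7) (nat_lit 40073) (nat_lit 11) nil nil) nil) nil) nil) (node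
  (nat_lit 4) (nat_lit 78828) (nat_lit 7) (node (nat_lit 7) (nat_lit 81730) (nat_lit 8) nil nil)
  (node (nat_lit 5) (nat_lit 78828) (nat_lit 7) (node (nat_lit 7) (nat_lit 81730) (nat_lit 8) nil
  nil) (node (nat_lit 0) (nat_lit 78828) (nat_lit 7) nil nil)))) (node (nat_lit 5) (nat_lit 51605)
  (nat_lit 6) (node (nat_lit 7) (nat_lit 57748) (nat_lit 7) nil nil) nil))) nil)))) (node (nat_lit
  2) (nat_lit 0) (nat_lit 4) (node (nat_lit 1) (nat_lit 83575) (nat_lit 5) (node (nat_lit 7)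
  (nat_lit 86685) (nat_lit 6) (node (nat_lit 4) (nat_lit 88695) (nat_lit 7) (node (nat_lit 8)
  (nat_lit 82729) (nat_lit 8) nil nil) (node (nat_lit 5) (nat_lit 88695) (nat_lit 7) nil nil))
  (node (nat_lit 4) (nat_lit 79070) (nat_lit 6) (node (nat_lit 7) (nat_lit 85492) (nat_lit 7) nil
  (node (nat_lit 5) (nat_lit 66757) (nat_lit 7) nil nil)) (node (nat_lit 5) (nat_lit 86685)
  (nat_lit 6) (node (nat_lit 8) (nat_lit 88695) (nat_lit 7) (node (nat_lit 4) (nat_lit 90017)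
  (nat_lit 8) (node (nat_lit 5) (nat_lit 85838) (nat_lit 9) (node (nat_lit 4) (nat_lit 72559)
  (nat_lit 10) nil nil) nil) nil) nil) nil))) (node (nat_lit 5) (nat_lit 83575) (nat_lit 5) (node
  (nat_lit 7) (nat_lit 86685) (nat_lit 6) (node (nat_lit 4) (nat_lit 88695) (nat_lit 7) (node
  (nat_lit 5) (nat_lit 90017) (nat_lit 8) nil (node (nat_lit 7) (nat_lit 90017) (nat_lit 8) (node
  (nat_lit 5) (nat_lit 90932) (nat_lit 9) nil nil) (node (nat_lit 1) (nat_lit 82729) (nat_lit 8)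
  nil nil))) (node (nat_lit 0) (nat_lit 88695) (nat_lit 7) nil nil)) (node (nat_lit 4) (nat_lit 0)
  (nat_lit 6) (node (nat_lit 5) (nat_lit 88695) (nat_lit 7) (node (nat_lit 7) (nat_lit 85631)
  (nat_lit 8) nil nil) (node (nat_lit 1) (nat_lit 88695) (nat_lit 7) nil (node (nat_lit 0)
  (nat_lit 88695) (nat_lit 7) nil nil))) (node (nat_lit 1) (nat_lit 86685) (nat_lit 6) (node
  (nat_lit 4) (nat_lit 88695) (nat_lit 7) (node (nat_lit 5) (nat_lit 79847) (nat_lit 8) (node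
  (nat_lit 4) (nat_lit 36424) (nat_lit 9) nil nil) nil) nil) nil))) (node (nat_lit 4) (nat_lit
  83575) (nat_lit 5) (node (nat_lit 1) (nat_lit 86685) (nat_lit 6) (node (nat_lit 4) (nat_lit
  88695) (nat_lit 7) (node (nat_lit 5) (nat_lit 90017) (nat_lit 8) (node (nat_lit 4) (nat_lit
  75491) (nat_lit 9) nil nil) nil) nil) (node (nat_lit 5) (nat_lit 86685) (nat_lit 6) (node
  (nat_lit 7) (nat_lit 88695) (nat_lit 7) (node (nat_lit 5) (nat_lit 90017) (nat_lit 8) nil nil)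
  (node (nat_lit 1) (nat_lit 88695) (nat_lit 7) nil nil)) nil)) (node (nat_lit 0) (nat_lit 83575)
  (nat_lit 5) (node (nat_lit 7) (nat_lit 86685) (nat_lit 6) nil (node (nat_lit 4) (nat_lit 86685)
  (nat_lit 6) nil nil)) nil)))) nil))) t154)) nil))

noncomputable def t156 : Tr :=
  (node (nat_lit 2) (nat_lit 0) (nat_lit 4) (node (nat_lit 4) (nat_lit 130505) (nat_lit 5) (node
  (nat_lit 7) (nat_lit 133220) (nat_lit 6) (node (nat_lit 6) (nat_lit 133220) (nat_lit 7) (node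
  (nat_lit 4) (nat_lit 135144) (nat_lit 8) (node (nat_lit 5) (nat_lit 130653) (nat_lit 9) (node
  (nat_lit 6) (nat_lit 120216) (nat_lit 10) (node (nat_lit 7) (nat_lit 76110) (nat_lit 11) (node
  (nat_lit 4) (nat_lit 76110) (nat_lit 12) nil nil) nil) nil) nil) nil) (node (nat_lit 5) (nat_lit
  133220) (nat_lit 7) (node (nat_lit 4) (nat_lit 135030) (nat_lit 8) (node (nat_lit 5) (nat_lit
  131804) (nat_lit 9) (node (nat_lit 6) (nat_lit 123101) (nat_lit 10) (node (nat_lit 7) (nat_lit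
  105235) (nat_lit 11) nil nil) nil) nil) nil) nil)) (node (nat_lit 6) (nat_lit 133220) (nat_lit
  6) (node (nat_lit 4) (nat_lit 134884) (nat_lit 7) (node (nat_lit 5) (nat_lit 134884) (nat_lit 8)
  (node (nat_lit 6) (nat_lit 134884) (nat_lit 9) nil nil) nil) (node (nat_lit 5) (nat_lit 133220)
  (nat_lit 7) (node (nat_lit 6) (nat_lit 133220) (nat_lit 8) (node (nat_lit 4) (nat_lit 135819)
  (nat_lit 9) (node (nat_lit 5) (nat_lit 135221) (nat_lit 10) nil nil) nil) nil) nil)) (node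
  (nat_lit 5) (nat_lit 133220) (nat_lit 6) (node (nat_lit 4) (nat_lit 134884) (nat_lit 7) nil nil)
  nil))) (node (nat_lit 5) (nat_lit 0) (nat_lit 5) (node (nat_lit 7) (nat_lit 0) (nat_lit 6) (node
  (nat_lit 6) (nat_lit 91157) (nat_lit 7) (node (nat_lit 5) (nat_lit 91362) (nat_lit 8) (node
  (nat_lit 6) (nat_lit 105424) (nat_lit 9) (node (nat_lit 7) (nat_lit 111548) (nat_lit 10) (node
  (nat_lit 5) (nat_lit 110728) (nat_lit 11) (node (nat_lit 7) (nat_lit 110019) (nat_lit 12) nil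
  nil) nil) (node (nat_lit 4) (nat_lit 112978) (nat_lit 10) (node (nat_lit 5) (nat_lit 106547)
  (nat_lit 11) nil nil) nil)) (node (nat_lit 4) (nat_lit 110886) (nat_lit 9) (node (nat_lit 6)
  (nat_lit 110886) (nat_lit 10) nil (node (nat_lit 5) (nat_lit 101104) (nat_lit 10) (node (nat_lit
  6) (nat_lit 101406) (nat_lit 11) (node (nat_lit 7) (nat_lit 95088) (nat_lit 12) (node (nat_lit
  5) (nat_lit 82526) (nat_lit 13) nil nil) nil) nil) nil)) (node (nat_lit 0) (nat_lit 113050)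
  (nat_lit 9) nil (node (nat_lit 7) (nat_lit 102253) (nat_lit 9) nil nil)))) (node (nat_lit 7)
  (nat_lit 91062) (nat_lit 8) (node (nat_lit 5) (nat_lit 102253) (nat_lit 9) (node (nat_lit 6)
  (nat_lit 104175) (nat_lit 10) (node (nat_lit 4) (nat_lit 103439) (nat_lit 11) nil nil) (node
  (nat_lit 4) (nat_lit 102538) (nat_lit 10) (node (nat_lit 5) (nat_lit 101655) (nat_lit 11) nil
  nil) nil)) (node (nat_lit 4) (nat_lit 119963) (nat_lit 9) nil (node (nat_lit 0) (nat_lit 113790)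
  (nat_lit 9) nil nil))) (node (nat_lit 4) (nat_lit 118783) (nat_lit 8) (node (nat_lit 5) (nat_lit
  106703) (nat_lit 9) (node (nat_lit 6) (nat_lit 98527) (nat_lit 10) (node (nat_lit 7) (nat_lit
  68511) (nat_lit 11) nil nil) nil) nil) (node (nat_lit 0) (nat_lit 118822) (nat_lit 8) nil
  nil)))) (node (nat_lit 4) (nat_lit 123731) (nat_lit 7) (node (nat_lit 6) (nat_lit 123731)
  (nat_lit 8) nil nil) (node (nat_lit 0) (nat_lit 123567) (nat_lit 7) (node (nat_lit 6) (nat_lit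
  123567) (nat_lit 8) nil (node (nat_lit 5) (nat_lit 123567) (nat_lit 8) nil nil)) nil))) (node
  (nat_lit 6) (nat_lit 0) (nat_lit 6) (node (nat_lit 5) (nat_lit 91161) (nat_lit 7) (node (nat_lit
  7) (nat_lit 91213) (nat_lit 8) (node (nat_lit 6) (nat_lit 105370) (nat_lit 9) nil (node (nat_lit
  5) (nat_lit 106008) (nat_lit 9) nil (node (nat_lit 4) (nat_lit 113941) (nat_lit 9) nil nil)))
  (node (nat_lit 4) (nat_lit 119300) (nat_lit 8) (node (nat_lit 5) (nat_lit 107587) (nat_lit 9)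
  (node (nat_lit 6) (nat_lit 85227) (nat_lit 10) nil nil) nil) nil)) (node (nat_lit 4) (nat_lit
  114054) (nat_lit 7) (node (nat_lit 5) (nat_lit 110639) (nat_lit 8) (node (nat_lit 6) (nat_lit
  76110) (nat_lit 9) (node (nat_lit 5) (nat_lit 76110) (nat_lit 10) nil nil) nil) nil) (node
  (nat_lit 0) (nat_lit 117222) (nat_lit 7) nil nil))) (node (nat_lit 4) (nat_lit 117442) (nat_lit
  6) (node (nat_lit 6) (nat_lit 117442) (nat_lit 7) (node (nat_lit 5) (nat_lit 117442) (nat_lit 8)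
  nil nil) (node (nat_lit 5) (nat_lit 107805) (nat_lit 7) (node (nat_lit 6) (nat_lit 66580)
  (nat_lit 8) (node (nat_lit 7) (nat_lit 60945) (nat_lit 9) nil nil) nil) nil)) (node (nat_lit 0)
  (nat_lit 121060) (nat_lit 6) (node (nat_lit 6) (nat_lit 121060) (nat_lit 7) nil nil) nil))))
  (node (nat_lit 6) (nat_lit 0) (nat_lit 5) (node (nat_lit 4) (nat_lit 120612) (nat_lit 6) (node
  (nat_lit 6) (nat_lit 120612) (nat_lit 7) (node (nat_lit 5) (nat_lit 120612) (nat_lit 8) nil nil)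
  (node (nat_lit 5) (nat_lit 108870) (nat_lit 7) (node (nat_lit 6) (nat_lit 75339) (nat_lit 8) nil
  nil) nil)) (node (nat_lit 5) (nat_lit 0) (nat_lit 6) (node (nat_lit 6) (nat_lit 91149) (nat_lit
  7) (node (nat_lit 7) (nat_lit 91325) (nat_lit 8) (node (nat_lit 5) (nat_lit 106494) (nat_lit 9)
  (node (nat_lit 6) (nat_lit 112321) (nat_lit 10) (node (nat_lit 4) (nat_lit 111429) (nat_lit 11)
  (node (nat_lit 5) (nat_lit 112284) (nat_lit 12) nil nil) (node (nat_lit 5) (nat_lit 111661)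
  (nat_lit 11) (node (nat_lit 4) (nat_lit 110629) (nat_lit 12) nil (node (nat_lit 7) (nat_lit
  109094) (nat_lit 12) nil nil)) nil)) (node (nat_lit 4) (nat_lit 113005) (nat_lit 10) nil (node
  (nat_lit 7) (nat_lit 113184) (nat_lit 10) (node (nat_lit 6) (nat_lit 113330) (nat_lit 11) nil
  nil) (node (nat_lit 0) (nat_lit 113838) (nat_lit 10) nil nil)))) (node (nat_lit 4) (nat_lit
  123771) (nat_lit 9) nil (node (nat_lit 0) (nat_lit 123771) (nat_lit 9) nil nil))) (node (nat_lit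
  4) (nat_lit 114958) (nat_lit 8) (node (nat_lit 5) (nat_lit 104282) (nat_lit 9) (node (nat_lit 6)
  (nat_lit 92816) (nat_lit 10) nil nil) nil) nil)) (node (nat_lit 7) (nat_lit 91149) (nat_lit 7)
  (node (nat_lit 5) (nat_lit 91240) (nat_lit 8) (node (nat_lit 6) (nat_lit 104291) (nat_lit 9) nil
  (node (nat_lit 4) (nat_lit 116226) (nat_lit 9) nil nil)) (node (nat_lit 4) (nat_lit 118815)
  (nat_lit 8) nil (node (nat_lit 6) (nat_lit 91149) (nat_lit 8) (node (nat_lit 4) (nat_lit 105499)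
  (nat_lit 9) nil nil) nil))) (node (nat_lit 4) (nat_lit 119845) (nat_lit 7) (node (nat_lit 6)
  (nat_lit 119845) (nat_lit 8) nil (node (nat_lit 5) (nat_lit 106249) (nat_lit 8) (node (nat_lit
  6) (nat_lit 91905) (nat_lit 9) (node (nat_lit 7) (nat_lit 51484) (nat_lit 10) nil (node (nat_lit
  5) (nat_lit 91905) (nat_lit 10) nil nil)) nil) nil)) (node (nat_lit 0) (nat_lit 117213) (nat_lit
  7) nil nil)))) (node (nat_lit 0) (nat_lit 121020) (nat_lit 6) nil nil))) (node (nat_lit 0)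
  (nat_lit 129406) (nat_lit 5) (node (nat_lit 7) (nat_lit 130129) (nat_lit 6) (node (nat_lit 6)
  (nat_lit 130129) (nat_lit 7) nil (node (nat_lit 5) (nat_lit 126103) (nat_lit 7) nil nil)) (node
  (nat_lit 6) (nat_lit 129869) (nat_lit 6) (node (nat_lit 4) (nat_lit 131793) (nat_lit 7) (node
  (nat_lit 5) (nat_lit 131793) (nat_lit 8) nil nil) nil) (node (nat_lit 5) (nat_lit 130129)
  (nat_lit 6) (node (nat_lit 4) (nat_lit 131793) (nat_lit 7) nil nil) nil))) nil)))) (node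
  (nat_lit 5) (nat_lit 0) (nat_lit 4) (node (nat_lit 0) (nat_lit 0) (nat_lit 5) (node (nat_lit 5)
  (nat_lit 134165) (nat_lit 6) (node (nat_lit 6) (nat_lit 133768) (nat_lit 7) (node (nat_lit 4)
  (nat_lit 127516) (nat_lit 8) (node (nat_lit 5) (nat_lit 120421) (nat_lit 9) (node (nat_lit 6)
  (nat_lit 108253) (nat_lit 10) (node (nat_lit 5) (nat_lit 82363) (nat_lit 11) nil nil) nil) nil)
  nil) (node (nat_lit 4) (nat_lit 137929) (nat_lit 7) (node (nat_lit 5) (nat_lit 138597) (nat_lit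
  8) (node (nat_lit 6) (nat_lit 137396) (nat_lit 9) (node (nat_lit 5) (nat_lit 136797) (nat_lit
  10) nil nil) nil) nil) nil)) (node (nat_lit 6) (nat_lit 134165) (nat_lit 6) (node (nat_lit 8)
  (nat_lit 138597) (nat_lit 7) nil (node (nat_lit 5) (nat_lit 134165) (nat_lit 7) (node (nat_lit
  6) (nat_lit 136699) (nat_lit 8) nil nil) (node (nat_lit 4) (nat_lit 137929) (nat_lit 7) (node
  (nat_lit 5) (nat_lit 138597) (nat_lit 8) (node (nat_lit 6) (nat_lit 138597) (nat_lit 9) (node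
  (nat_lit 5) (nat_lit 139476) (nat_lit 10) nil nil) nil) nil) nil))) (node (nat_lit 4) (nat_lit
  135970) (nat_lit 6) (node (nat_lit 6) (nat_lit 138450) (nat_lit 7) (node (nat_lit 4) (nat_lit
  140506) (nat_lit 8) nil nil) nil) (node (nat_lit 0) (nat_lit 131356) (nat_lit 6) nil (node
  (nat_lit 2) (nat_lit 134093) (nat_lit 6) (node (nat_lit 5) (nat_lit 129520) (nat_lit 7) nil nil)
  nil))))) (node (nat_lit 4) (nat_lit 0) (nat_lit 5) (node (nat_lit 0) (nat_lit 121391) (nat_lit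
  6) (node (nat_lit 5) (nat_lit 130862) (nat_lit 7) (node (nat_lit 4) (nat_lit 134018) (nat_lit 8)
  (node (nat_lit 5) (nat_lit 134018) (nat_lit 9) (node (nat_lit 6) (nat_lit 132787) (nat_lit 10)
  (node (nat_lit 5) (nat_lit 132458) (nat_lit 11) (node (nat_lit 4) (nat_lit 132425) (nat_lit 12)
  nil nil) nil) nil) nil) nil) (node (nat_lit 6) (nat_lit 131057) (nat_lit 7) (node (nat_lit 4)
  (nat_lit 134863) (nat_lit 8) (node (nat_lit 5) (nat_lit 134863) (nat_lit 9) (node (nat_lit 6)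
  (nat_lit 134863) (nat_lit 10) nil nil) nil) nil) (node (nat_lit 4) (nat_lit 130921) (nat_lit 7)
  nil nil))) (node (nat_lit 2) (nat_lit 0) (nat_lit 6) (node (nat_lit 5) (nat_lit 126416) (nat_lit
  7) (node (nat_lit 4) (nat_lit 131753) (nat_lit 8) (node (nat_lit 5) (nat_lit 129821) (nat_lit 9)
  (node (nat_lit 6) (nat_lit 120332) (nat_lit 10) (node (nat_lit 5) (nat_lit 78493) (nat_lit 11)
  (node (nat_lit 4) (nat_lit 68820) (nat_lit 12) nil nil) nil) nil) nil) (node (nat_lit 6)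
  (nat_lit 126416) (nat_lit 8) (node (nat_lit 4) (nat_lit 130216) (nat_lit 9) nil nil) nil)) (node
  (nat_lit 6) (nat_lit 126416) (nat_lit 7) (node (nat_lit 4) (nat_lit 131641) (nat_lit 8) (node
  (nat_lit 5) (nat_lit 111107) (nat_lit 9) (node (nat_lit 6) (nat_lit 96706) (nat_lit 10) (node
  (nat_lit 5) (nat_lit 71142) (nat_lit 11) (node (nat_lit 4) (nat_lit 64087) (nat_lit 12) nil nil)
  nil) nil) nil) nil) (node (nat_lit 4) (nat_lit 128273) (nat_lit 7) nil (node (nat_lit 0)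
  (nat_lit 130362) (nat_lit 7) nil nil)))) (node (nat_lit 6) (nat_lit 0) (nat_lit 6) (node
  (nat_lit 4) (nat_lit 0) (nat_lit 7) (node (nat_lit 5) (nat_lit 124655) (nat_lit 8) (node
  (nat_lit 6) (nat_lit 130792) (nat_lit 9) (node (nat_lit 5) (nat_lit 129131) (nat_lit 10) (node
  (nat_lit 4) (nat_lit 54861) (nat_lit 11) nil nil) nil) nil) (node (nat_lit 0) (nat_lit 133674)
  (nat_lit 8) nil (node (nat_lit 2) (nat_lit 133630) (nat_lit 8) nil nil))) (node (nat_lit 5)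
  (nat_lit 0) (nat_lit 7) (node (nat_lit 6) (nat_lit 125219) (nat_lit 8) (node (nat_lit 4)
  (nat_lit 130630) (nat_lit 9) (node (nat_lit 5) (nat_lit 133642) (nat_lit 10) (node (nat_lit 6)
  (nat_lit 124657) (nat_lit 11) nil nil) nil) nil) (node (nat_lit 0) (nat_lit 133674) (nat_lit 8)
  nil (node (nat_lit 2) (nat_lit 127958) (nat_lit 8) nil nil))) (node (nat_lit 0) (nat_lit 131117)
  (nat_lit 7) nil (node (nat_lit 2) (nat_lit 128046) (nat_lit 7) nil nil)))) (node (nat_lit 5)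
  (nat_lit 0) (nat_lit 6) (node (nat_lit 0) (nat_lit 62221) (nat_lit 7) (node (nat_lit 6) (nat_lit
  65881) (nat_lit 8) (node (nat_lit 4) (nat_lit 67494) (nat_lit 9) (node (nat_lit 5) (nat_lit
  68611) (nat_lit 10) (node (nat_lit 6) (nat_lit 69246) (nat_lit 11) nil nil) nil) nil) (node
  (nat_lit 4) (nat_lit 65926) (nat_lit 8) (node (nat_lit 5) (nat_lit 67538) (nat_lit 9) nil nil)
  (node (nat_lit 5) (nat_lit 65881) (nat_lit 8) (node (nat_lit 4) (nat_lit 67578) (nat_lit 9) nil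
  nil) nil))) (node (nat_lit 2) (nat_lit 0) (nat_lit 7) (node (nat_lit 6) (nat_lit 65728) (nat_lit
  8) (node (nat_lit 4) (nat_lit 67578) (nat_lit 9) (node (nat_lit 5) (nat_lit 68695) (nat_lit 10)
  (node (nat_lit 6) (nat_lit 54959) (nat_lit 11) (node (nat_lit 5) (nat_lit 27341) (nat_lit 12)
  nil nil) nil) nil) nil) (node (nat_lit 4) (nat_lit 65926) (nat_lit 8) (node (nat_lit 5) (nat_lit
  67538) (nat_lit 9) nil nil) (node (nat_lit 5) (nat_lit 65728) (nat_lit 8) (node (nat_lit 4)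
  (nat_lit 67578) (nat_lit 9) nil nil) (node (nat_lit 0) (nat_lit 65926) (nat_lit 8) nil nil))))
  nil)) nil)))) (node (nat_lit 2) (nat_lit 0) (nat_lit 5) (node (nat_lit 5) (nat_lit 0) (nat_lit
  6) (node (nat_lit 6) (nat_lit 91175) (nat_lit 7) (node (nat_lit 8) (nat_lit 91081) (nat_lit 8)
  (node (nat_lit 5) (nat_lit 105394) (nat_lit 9) (node (nat_lit 8) (nat_lit 112101) (nat_lit 10)
  (node (nat_lit 6) (nat_lit 114683) (nat_lit 11) (node (nat_lit 5) (nat_lit 110757) (nat_lit 12)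
  (node (nat_lit 6) (nat_lit 111080) (nat_lit 13) nil nil) (node (nat_lit 4) (nat_lit 114452)
  (nat_lit 12) nil nil)) nil) (node (nat_lit 4) (nat_lit 117410) (nat_lit 10) (node (nat_lit 5)
  (nat_lit 109469) (nat_lit 11) (node (nat_lit 6) (nat_lit 109706) (nat_lit 12) (node (nat_lit 5)
  (nat_lit 103583) (nat_lit 13) (node (nat_lit 8) (nat_lit 96599) (nat_lit 14) nil nil) nil) nil)
  nil) (node (nat_lit 0) (nat_lit 112738) (nat_lit 10) nil nil))) (node (nat_lit 6) (nat_lit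
  105083) (nat_lit 9) (node (nat_lit 5) (nat_lit 109319) (nat_lit 10) (node (nat_lit 8) (nat_lit
  106626) (nat_lit 11) nil nil) (node (nat_lit 4) (nat_lit 112303) (nat_lit 10) nil nil)) (node
  (nat_lit 4) (nat_lit 113811) (nat_lit 9) nil (node (nat_lit 0) (nat_lit 113811) (nat_lit 9) nil
  nil)))) (node (nat_lit 4) (nat_lit 115913) (nat_lit 8) (node (nat_lit 5) (nat_lit 110551)
  (nat_lit 9) (node (nat_lit 6) (nat_lit 97609) (nat_lit 10) (node (nat_lit 5) (nat_lit 84309)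
  (nat_lit 11) nil nil) nil) nil) (node (nat_lit 5) (nat_lit 91175) (nat_lit 8) (node (nat_lit 4)
  (nat_lit 113924) (nat_lit 9) (node (nat_lit 5) (nat_lit 104143) (nat_lit 10) nil nil) (node
  (nat_lit 0) (nat_lit 112877) (nat_lit 9) nil nil)) (node (nat_lit 0) (nat_lit 118853) (nat_lit
  8) nil nil)))) (node (nat_lit 4) (nat_lit 128355) (nat_lit 7) (node (nat_lit 5) (nat_lit 117555)
  (nat_lit 8) (node (nat_lit 8) (nat_lit 117555) (nat_lit 9) (node (nat_lit 4) (nat_lit 118802)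
  (nat_lit 10) (node (nat_lit 8) (nat_lit 118802) (nat_lit 11) (node (nat_lit 5) (nat_lit 118802)
  (nat_lit 12) (node (nat_lit 4) (nat_lit 119388) (nat_lit 13) (node (nat_lit 5) (nat_lit 119388)
  (nat_lit 14) (node (nat_lit 6) (nat_lit 119388) (nat_lit 15) nil nil) nil) nil) nil) nil) (node
  (nat_lit 6) (nat_lit 117555) (nat_lit 10) nil nil)) (node (nat_lit 6) (nat_lit 103212) (nat_lit
  9) (node (nat_lit 5) (nat_lit 71477) (nat_lit 10) nil nil) nil)) (node (nat_lit 6) (nat_lit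
  128355) (nat_lit 8) (node (nat_lit 4) (nat_lit 129290) (nat_lit 9) (node (nat_lit 5) (nat_lit
  129290) (nat_lit 10) (node (nat_lit 6) (nat_lit 129290) (nat_lit 11) (node (nat_lit 5) (nat_lit
  129290) (nat_lit 12) nil nil) nil) nil) (node (nat_lit 5) (nat_lit 128355) (nat_lit 9) nil nil))
  nil)) (node (nat_lit 0) (nat_lit 130404) (nat_lit 7) (node (nat_lit 5) (nat_lit 128945) (nat_lit
  8) (node (nat_lit 6) (nat_lit 128303) (nat_lit 9) nil (node (nat_lit 4) (nat_lit 129894)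
  (nat_lit 9) nil nil)) (node (nat_lit 6) (nat_lit 130404) (nat_lit 8) nil nil)) nil))) (node
  (nat_lit 6) (nat_lit 0) (nat_lit 6) (node (nat_lit 8) (nat_lit 91254) (nat_lit 7) (node (nat_lit
  5) (nat_lit 91350) (nat_lit 8) (node (nat_lit 8) (nat_lit 108629) (nat_lit 9) (node (nat_lit 6)
  (nat_lit 115530) (nat_lit 10) (node (nat_lit 5) (nat_lit 115164) (nat_lit 11) (node (nat_lit 6)
  (nat_lit 117105) (nat_lit 12) nil (node (nat_lit 4) (nat_lit 114933) (nat_lit 12) nil nil))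
  (node (nat_lit 4) (nat_lit 119142) (nat_lit 11) (node (nat_lit 5) (nat_lit 116504) (nat_lit 12)
  (node (nat_lit 6) (nat_lit 112740) (nat_lit 13) (node (nat_lit 5) (nat_lit 116814) (nat_lit 14)
  (node (nat_lit 8) (nat_lit 108650) (nat_lit 15) (node (nat_lit 6) (nat_lit 103774) (nat_lit 16)
  (node (nat_lit 8) (nat_lit 60796) (nat_lit 17) (node (nat_lit 5) (nat_lit 60718) (nat_lit 18)
  nil nil) nil) nil) nil) nil) nil) nil) nil)) nil) (node (nat_lit 6) (nat_lit 108996) (nat_lit 9)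
  (node (nat_lit 5) (nat_lit 113493) (nat_lit 10) nil (node (nat_lit 4) (nat_lit 121442) (nat_lit
  10) nil nil)) (node (nat_lit 4) (nat_lit 118179) (nat_lit 9) nil nil))) (node (nat_lit 4)
  (nat_lit 132592) (nat_lit 8) nil (node (nat_lit 0) (nat_lit 124865) (nat_lit 8) nil nil))) (node
  (nat_lit 5) (nat_lit 91213) (nat_lit 7) (node (nat_lit 6) (nat_lit 91232) (nat_lit 8) (node
  (nat_lit 8) (nat_lit 106964) (nat_lit 9) (node (nat_lit 5) (nat_lit 113714) (nat_lit 10) (node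
  (nat_lit 8) (nat_lit 113275) (nat_lit 11) nil nil) nil) (node (nat_lit 4) (nat_lit 115009)
  (nat_lit 9) nil (node (nat_lit 0) (nat_lit 112935) (nat_lit 9) nil nil))) (node (nat_lit 4)
  (nat_lit 122593) (nat_lit 8) (node (nat_lit 5) (nat_lit 113307) (nat_lit 9) (node (nat_lit 6)
  (nat_lit 112532) (nat_lit 10) nil nil) nil) (node (nat_lit 0) (nat_lit 125797) (nat_lit 8) nil
  nil))) (node (nat_lit 4) (nat_lit 127449) (nat_lit 7) (node (nat_lit 5) (nat_lit 114410)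
  (nat_lit 8) (node (nat_lit 6) (nat_lit 94871) (nat_lit 9) (node (nat_lit 5) (nat_lit 68168)
  (nat_lit 10) nil nil) nil) nil) (node (nat_lit 0) (nat_lit 131521) (nat_lit 7) nil nil)))) (node
  (nat_lit 0) (nat_lit 131229) (nat_lit 6) (node (nat_lit 5) (nat_lit 133733) (nat_lit 7) nil nil)
  (node (nat_lit 4) (nat_lit 135320) (nat_lit 6) (node (nat_lit 6) (nat_lit 137031) (nat_lit 7)
  (node (nat_lit 5) (nat_lit 132628) (nat_lit 8) nil nil) nil) nil)))) nil))) nil))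

noncomputable def t157 : Tr :=
  (node (nat_lit 3) (nat_lit 0) (nat_lit 4) (node (nat_lit 0) (nat_lit 0) (nat_lit 5) (node
  (nat_lit 7) (nat_lit 0) (nat_lit 6) (node (nat_lit 4) (nat_lit 75295) (nat_lit 7) (node (nat_lit
  5) (nat_lit 75295) (nat_lit 8) (node (nat_lit 4) (nat_lit 75614) (nat_lit 9) (node (nat_lit 7)
  (nat_lit 75614) (nat_lit 10) nil nil) nil) nil) (node (nat_lit 5) (nat_lit 74455) (nat_lit 7)
  (node (nat_lit 7) (nat_lit 74455) (nat_lit 8) (node (nat_lit 4) (nat_lit 71124) (nat_lit 9)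
  (node (nat_lit 5) (nat_lit 57752) (nat_lit 10) nil nil) nil) nil) (node (nat_lit 0) (nat_lit
  76783) (nat_lit 7) nil (node (nat_lit 2) (nat_lit 74455) (nat_lit 7) (node (nat_lit 7) (nat_lit
  74455) (nat_lit 8) (node (nat_lit 4) (nat_lit 70950) (nat_lit 9) (node (nat_lit 5) (nat_lit
  67268) (nat_lit 10) nil nil) nil) nil) nil)))) (node (nat_lit 4) (nat_lit 76703) (nat_lit 6)
  (node (nat_lit 8) (nat_lit 76985) (nat_lit 7) (node (nat_lit 7) (nat_lit 76985) (nat_lit 8)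
  (node (nat_lit 4) (nat_lit 77304) (nat_lit 9) nil nil) nil) (node (nat_lit 7) (nat_lit 76703)
  (nat_lit 7) (node (nat_lit 4) (nat_lit 77181) (nat_lit 8) (node (nat_lit 5) (nat_lit 77181)
  (nat_lit 9) nil nil) nil) (node (nat_lit 0) (nat_lit 76985) (nat_lit 7) nil (node (nat_lit 2)
  (nat_lit 74771) (nat_lit 7) (node (nat_lit 7) (nat_lit 74653) (nat_lit 8) nil nil) nil)))) (node
  (nat_lit 5) (nat_lit 74455) (nat_lit 6) (node (nat_lit 7) (nat_lit 74455) (nat_lit 7) (node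
  (nat_lit 4) (nat_lit 72483) (nat_lit 8) (node (nat_lit 5) (nat_lit 66735) (nat_lit 9) nil nil)
  nil) (node (nat_lit 4) (nat_lit 75295) (nat_lit 7) (node (nat_lit 7) (nat_lit 75295) (nat_lit 8)
  nil nil) nil)) (node (nat_lit 0) (nat_lit 76703) (nat_lit 6) (node (nat_lit 7) (nat_lit 76703)
  (nat_lit 7) (node (nat_lit 4) (nat_lit 77181) (nat_lit 8) nil nil) nil) (node (nat_lit 2)
  (nat_lit 74455) (nat_lit 6) (node (nat_lit 7) (nat_lit 74283) (nat_lit 7) (node (nat_lit 4)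
  (nat_lit 74205) (nat_lit 8) nil nil) nil) nil))))) (node (nat_lit 5) (nat_lit 0) (nat_lit 5)
  (node (nat_lit 0) (nat_lit 0) (nat_lit 6) (node (nat_lit 7) (nat_lit 76701) (nat_lit 7) (node
  (nat_lit 5) (nat_lit 76701) (nat_lit 8) (node (nat_lit 7) (nat_lit 76847) (nat_lit 9) (node
  (nat_lit 4) (nat_lit 78125) (nat_lit 10) (node (nat_lit 5) (nat_lit 77462) (nat_lit 11) nil nil)
  nil) nil) (node (nat_lit 4) (nat_lit 77804) (nat_lit 8) (node (nat_lit 5) (nat_lit 77804)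
  (nat_lit 9) nil nil) nil)) (node (nat_lit 5) (nat_lit 76847) (nat_lit 7) (node (nat_lit 7)
  (nat_lit 76847) (nat_lit 8) nil nil) (node (nat_lit 4) (nat_lit 77677) (nat_lit 7) (node
  (nat_lit 7) (nat_lit 77677) (nat_lit 8) (node (nat_lit 4) (nat_lit 78212) (nat_lit 9) nil nil)
  nil) (node (nat_lit 2) (nat_lit 76847) (nat_lit 7) nil (node (nat_lit 0) (nat_lit 77677)
  (nat_lit 7) nil nil))))) (node (nat_lit 2) (nat_lit 0) (nat_lit 6) (node (nat_lit 7) (nat_lit 0)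
  (nat_lit 7) (node (nat_lit 5) (nat_lit 68958) (nat_lit 8) (node (nat_lit 7) (nat_lit 68958)
  (nat_lit 9) (node (nat_lit 9) (nat_lit 68958) (nat_lit 10) (node (nat_lit 7) (nat_lit 69754)
  (nat_lit 11) (node (nat_lit 4) (nat_lit 69917) (nat_lit 12) (node (nat_lit 5) (nat_lit 67704)
  (nat_lit 13) (node (nat_lit 4) (nat_lit 65238) (nat_lit 14) (node (nat_lit 7) (nat_lit 63741)
  (nat_lit 15) nil nil) nil) nil) nil) (node (nat_lit 5) (nat_lit 69180) (nat_lit 11) (node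
  (nat_lit 7) (nat_lit 66844) (nat_lit 12) nil (node (nat_lit 9) (nat_lit 67825) (nat_lit 12) nil
  nil)) (node (nat_lit 4) (nat_lit 72057) (nat_lit 11) nil (node (nat_lit 0) (nat_lit 72057)
  (nat_lit 11) nil nil)))) (node (nat_lit 4) (nat_lit 73771) (nat_lit 10) (node (nat_lit 5)
  (nat_lit 72213) (nat_lit 11) nil nil) (node (nat_lit 0) (nat_lit 71929) (nat_lit 10) nil nil)))
  (node (nat_lit 4) (nat_lit 78062) (nat_lit 9) (node (nat_lit 7) (nat_lit 78062) (nat_lit 10) nil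
  nil) (node (nat_lit 0) (nat_lit 75281) (nat_lit 9) nil nil))) (node (nat_lit 4) (nat_lit 74632)
  (nat_lit 8) (node (nat_lit 5) (nat_lit 65741) (nat_lit 9) (node (nat_lit 4) (nat_lit 44956)
  (nat_lit 10) nil nil) nil) (node (nat_lit 9) (nat_lit 68958) (nat_lit 8) (node (nat_lit 5)
  (nat_lit 68958) (nat_lit 9) nil nil) (node (nat_lit 0) (nat_lit 76966) (nat_lit 8) nil nil))))
  (node (nat_lit 5) (nat_lit 0) (nat_lit 7) (node (nat_lit 7) (nat_lit 68958) (nat_lit 8) (node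
  (nat_lit 9) (nat_lit 68958) (nat_lit 9) (node (nat_lit 7) (nat_lit 68958) (nat_lit 10) (node
  (nat_lit 5) (nat_lit 69180) (nat_lit 11) (node (nat_lit 9) (nat_lit 67825) (nat_lit 12) (node
  (nat_lit 5) (nat_lit 66797) (nat_lit 13) (node (nat_lit 7) (nat_lit 66843) (nat_lit 14) nil nil)
  nil) nil) nil) nil) nil) (node (nat_lit 4) (nat_lit 78108) (nat_lit 8) nil (node (nat_lit 0)
  (nat_lit 78108) (nat_lit 8) nil nil))) (node (nat_lit 4) (nat_lit 77677) (nat_lit 7) (node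
  (nat_lit 7) (nat_lit 77677) (nat_lit 8) (node (nat_lit 4) (nat_lit 78212) (nat_lit 9) nil nil)
  nil) (node (nat_lit 0) (nat_lit 77677) (nat_lit 7) nil nil)))) (node (nat_lit 7) (nat_lit 0)
  (nat_lit 6) (node (nat_lit 4) (nat_lit 0) (nat_lit 7) (node (nat_lit 0) (nat_lit 76179) (nat_lit
  8) (node (nat_lit 7) (nat_lit 78108) (nat_lit 9) nil nil) (node (nat_lit 5) (nat_lit 0) (nat_lit
  8) (node (nat_lit 7) (nat_lit 0) (nat_lit 9) (node (nat_lit 5) (nat_lit 66601) (nat_lit 10)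
  (node (nat_lit 4) (nat_lit 69233) (nat_lit 11) nil nil) (node (nat_lit 2) (nat_lit 66702)
  (nat_lit 10) nil (node (nat_lit 0) (nat_lit 66835) (nat_lit 10) nil nil))) (node (nat_lit 2)
  (nat_lit 63467) (nat_lit 9) (node (nat_lit 5) (nat_lit 67048) (nat_lit 10) nil nil) (node
  (nat_lit 0) (nat_lit 63639) (nat_lit 9) (node (nat_lit 5) (nat_lit 67099) (nat_lit 10) nil nil)
  nil))) (node (nat_lit 2) (nat_lit 76179) (nat_lit 8) (node (nat_lit 7) (nat_lit 77677) (nat_lit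
  9) nil nil) nil))) (node (nat_lit 0) (nat_lit 77677) (nat_lit 7) nil (node (nat_lit 2) (nat_lit
  0) (nat_lit 7) (node (nat_lit 5) (nat_lit 68018) (nat_lit 8) (node (nat_lit 7) (nat_lit 68018)
  (nat_lit 9) nil nil) (node (nat_lit 7) (nat_lit 68018) (nat_lit 8) (node (nat_lit 5) (nat_lit
  68018) (nat_lit 9) nil (node (nat_lit 4) (nat_lit 76963) (nat_lit 9) nil nil)) (node (nat_lit 4)
  (nat_lit 78108) (nat_lit 8) nil (node (nat_lit 0) (nat_lit 78108) (nat_lit 8) nil nil)))) nil)))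
  (node (nat_lit 4) (nat_lit 0) (nat_lit 6) (node (nat_lit 5) (nat_lit 66143) (nat_lit 7) nil
  (node (nat_lit 0) (nat_lit 70057) (nat_lit 7) nil (node (nat_lit 2) (nat_lit 68620) (nat_lit 7)
  nil nil))) nil)))) (node (nat_lit 2) (nat_lit 0) (nat_lit 5) (node (nat_lit 7) (nat_lit 0)
  (nat_lit 6) (node (nat_lit 4) (nat_lit 75074) (nat_lit 7) (node (nat_lit 7) (nat_lit 75962)
  (nat_lit 8) (node (nat_lit 8) (nat_lit 74597) (nat_lit 9) (node (nat_lit 4) (nat_lit 75545)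
  (nat_lit 10) (node (nat_lit 8) (nat_lit 75545) (nat_lit 11) (node (nat_lit 7) (nat_lit 75906)
  (nat_lit 12) (node (nat_lit 4) (nat_lit 76497) (nat_lit 13) nil nil) nil) (node (nat_lit 7)
  (nat_lit 75545) (nat_lit 11) (node (nat_lit 4) (nat_lit 76232) (nat_lit 12) nil nil) nil)) (node
  (nat_lit 5) (nat_lit 73122) (nat_lit 10) (node (nat_lit 7) (nat_lit 73175) (nat_lit 11) nil nil)
  nil)) (node (nat_lit 5) (nat_lit 74148) (nat_lit 9) (node (nat_lit 4) (nat_lit 75096) (nat_lit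
  10) (node (nat_lit 7) (nat_lit 75096) (nat_lit 11) nil nil) nil) nil)) (node (nat_lit 8)
  (nat_lit 75664) (nat_lit 8) (node (nat_lit 4) (nat_lit 76482) (nat_lit 9) (node (nat_lit 7)
  (nat_lit 76482) (nat_lit 10) nil nil) nil) (node (nat_lit 5) (nat_lit 52253) (nat_lit 8) (node
  (nat_lit 7) (nat_lit 53168) (nat_lit 9) nil (node (nat_lit 4) (nat_lit 31587) (nat_lit 9) nil
  nil)) nil))) (node (nat_lit 5) (nat_lit 67119) (nat_lit 7) (node (nat_lit 7) (nat_lit 67417)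
  (nat_lit 8) (node (nat_lit 8) (nat_lit 66267) (nat_lit 9) (node (nat_lit 5) (nat_lit 65665)
  (nat_lit 10) (node (nat_lit 7) (nat_lit 65513) (nat_lit 11) nil nil) nil) (node (nat_lit 4)
  (nat_lit 70685) (nat_lit 9) (node (nat_lit 5) (nat_lit 54661) (nat_lit 10) nil nil) nil)) (node
  (nat_lit 4) (nat_lit 71558) (nat_lit 8) (node (nat_lit 7) (nat_lit 71558) (nat_lit 9) nil nil)
  (node (nat_lit 8) (nat_lit 67082) (nat_lit 8) (node (nat_lit 5) (nat_lit 66070) (nat_lit 9)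
  (node (nat_lit 7) (nat_lit 65906) (nat_lit 10) nil nil) nil) (node (nat_lit 0) (nat_lit 70431)
  (nat_lit 8) nil nil)))) (node (nat_lit 0) (nat_lit 74174) (nat_lit 7) (node (nat_lit 7) (nat_lit
  74174) (nat_lit 8) (node (nat_lit 4) (nat_lit 74662) (nat_lit 9) (node (nat_lit 5) (nat_lit
  74662) (nat_lit 10) nil nil) nil) nil) nil))) (node (nat_lit 4) (nat_lit 77365) (nat_lit 6)
  (node (nat_lit 8) (nat_lit 77365) (nat_lit 7) (node (nat_lit 7) (nat_lit 77365) (nat_lit 8)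
  (node (nat_lit 4) (nat_lit 78146) (nat_lit 9) (node (nat_lit 5) (nat_lit 73523) (nat_lit 10) nil
  nil) nil) nil) (node (nat_lit 7) (nat_lit 77365) (nat_lit 7) (node (nat_lit 4) (nat_lit 78012)
  (nat_lit 8) (node (nat_lit 5) (nat_lit 78012) (nat_lit 9) (node (nat_lit 4) (nat_lit 78212)
  (nat_lit 10) (node (nat_lit 7) (nat_lit 78212) (nat_lit 11) nil nil) nil) (node (nat_lit 8)
  (nat_lit 78012) (nat_lit 9) (node (nat_lit 7) (nat_lit 78012) (nat_lit 10) (node (nat_lit 4)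
  (nat_lit 77887) (nat_lit 11) nil nil) nil) nil)) nil) (node (nat_lit 5) (nat_lit 77365) (nat_lit
  7) (node (nat_lit 7) (nat_lit 74653) (nat_lit 8) (node (nat_lit 4) (nat_lit 70950) (nat_lit 9)
  (node (nat_lit 5) (nat_lit 66805) (nat_lit 10) nil nil) nil) nil) nil))) (node (nat_lit 5)
  (nat_lit 0) (nat_lit 6) (node (nat_lit 7) (nat_lit 68441) (nat_lit 7) (node (nat_lit 5) (nat_lit
  68972) (nat_lit 8) (node (nat_lit 8) (nat_lit 68972) (nat_lit 9) (node (nat_lit 7) (nat_lit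
  68972) (nat_lit 10) (node (nat_lit 8) (nat_lit 69766) (nat_lit 11) (node (nat_lit 5) (nat_lit
  68408) (nat_lit 12) (node (nat_lit 7) (nat_lit 68519) (nat_lit 13) nil nil) nil) nil) nil) nil)
  (node (nat_lit 4) (nat_lit 67747) (nat_lit 8) (node (nat_lit 5) (nat_lit 56697) (nat_lit 9) nil
  nil) (node (nat_lit 0) (nat_lit 71558) (nat_lit 8) nil nil))) (node (nat_lit 4) (nat_lit 75995)
  (nat_lit 7) (node (nat_lit 7) (nat_lit 75995) (nat_lit 8) nil nil) (node (nat_lit 8) (nat_lit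
  67748) (nat_lit 7) (node (nat_lit 7) (nat_lit 67587) (nat_lit 8) nil nil) (node (nat_lit 0)
  (nat_lit 74174) (nat_lit 7) nil nil)))) (node (nat_lit 0) (nat_lit 76681) (nat_lit 6) (node
  (nat_lit 7) (nat_lit 76681) (nat_lit 7) (node (nat_lit 4) (nat_lit 77282) (nat_lit 8) nil nil)
  nil) nil)))) (node (nat_lit 4) (nat_lit 0) (nat_lit 5) (node (nat_lit 0) (nat_lit 74269)
  (nat_lit 6) (node (nat_lit 7) (nat_lit 76207) (nat_lit 7) (node (nat_lit 4) (nat_lit 77766)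
  (nat_lit 8) (node (nat_lit 5) (nat_lit 77766) (nat_lit 9) (node (nat_lit 4) (nat_lit 78087)
  (nat_lit 10) (node (nat_lit 7) (nat_lit 78087) (nat_lit 11) (node (nat_lit 4) (nat_lit 78212)
  (nat_lit 12) nil nil) nil) nil) nil) nil) nil) (node (nat_lit 2) (nat_lit 73495) (nat_lit 6)
  (node (nat_lit 7) (nat_lit 74394) (nat_lit 7) (node (nat_lit 4) (nat_lit 77554) (nat_lit 8)
  (node (nat_lit 7) (nat_lit 77554) (nat_lit 9) nil (node (nat_lit 5) (nat_lit 66536) (nat_lit 9)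
  (node (nat_lit 4) (nat_lit 46062) (nat_lit 10) (node (nat_lit 7) (nat_lit 28474) (nat_lit 11)
  nil nil) nil) nil)) (node (nat_lit 9) (nat_lit 74394) (nat_lit 8) nil nil)) (node (nat_lit 4)
  (nat_lit 77474) (nat_lit 7) (node (nat_lit 7) (nat_lit 77474) (nat_lit 8) nil nil) (node
  (nat_lit 5) (nat_lit 73889) (nat_lit 7) (node (nat_lit 7) (nat_lit 73889) (nat_lit 8) nil nil)
  nil))) (node (nat_lit 5) (nat_lit 0) (nat_lit 6) (node (nat_lit 7) (nat_lit 67725) (nat_lit 7)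
  nil (node (nat_lit 0) (nat_lit 77464) (nat_lit 7) nil (node (nat_lit 2) (nat_lit 73292) (nat_lit
  7) nil nil))) nil))) nil)))) (node (nat_lit 2) (nat_lit 0) (nat_lit 4) (node (nat_lit 3)
  (nat_lit 0) (nat_lit 5) (node (nat_lit 7) (nat_lit 0) (nat_lit 6) (node (nat_lit 4) (nat_lit
  73275) (nat_lit 7) (node (nat_lit 8) (nat_lit 73275) (nat_lit 8) (node (nat_lit 4) (nat_lit
  73515) (nat_lit 9) (node (nat_lit 5) (nat_lit 73515) (nat_lit 10) (node (nat_lit 4) (nat_lit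
  73644) (nat_lit 11) (node (nat_lit 7) (nat_lit 73644) (nat_lit 12) (node (nat_lit 8) (nat_lit
  73644) (nat_lit 13) nil nil) nil) nil) nil) nil) nil) (node (nat_lit 5) (nat_lit 65823) (nat_lit
  7) (node (nat_lit 8) (nat_lit 65823) (nat_lit 8) (node (nat_lit 5) (nat_lit 67103) (nat_lit 9)
  nil (node (nat_lit 4) (nat_lit 62444) (nat_lit 9) (node (nat_lit 5) (nat_lit 55269) (nat_lit 10)
  (node (nat_lit 4) (nat_lit 47339) (nat_lit 11) (node (nat_lit 7) (nat_lit 36516) (nat_lit 12)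
  nil nil) nil) nil) nil)) nil) (node (nat_lit 0) (nat_lit 70409) (nat_lit 7) nil nil))) (node
  (nat_lit 4) (nat_lit 0) (nat_lit 6) (node (nat_lit 7) (nat_lit 61860) (nat_lit 7) (node (nat_lit
  4) (nat_lit 65057) (nat_lit 8) (node (nat_lit 8) (nat_lit 66900) (nat_lit 9) nil nil) (node
  (nat_lit 5) (nat_lit 65270) (nat_lit 8) (node (nat_lit 8) (nat_lit 66946) (nat_lit 9) (node
  (nat_lit 4) (nat_lit 61140) (nat_lit 10) (node (nat_lit 5) (nat_lit 58173) (nat_lit 11) nil nil)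
  nil) nil) nil)) (node (nat_lit 8) (nat_lit 62290) (nat_lit 7) (node (nat_lit 7) (nat_lit 66254)
  (nat_lit 8) nil (node (nat_lit 5) (nat_lit 65178) (nat_lit 8) nil nil)) (node (nat_lit 5)
  (nat_lit 47307) (nat_lit 7) nil (node (nat_lit 0) (nat_lit 61609) (nat_lit 7) nil nil)))) (node
  (nat_lit 5) (nat_lit 66217) (nat_lit 6) (node (nat_lit 7) (nat_lit 68099) (nat_lit 7) (node
  (nat_lit 5) (nat_lit 68099) (nat_lit 8) (node (nat_lit 8) (nat_lit 68098) (nat_lit 9) nil nil)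
  (node (nat_lit 4) (nat_lit 70559) (nat_lit 8) (node (nat_lit 8) (nat_lit 70559) (nat_lit 9) nil
  nil) nil)) (node (nat_lit 8) (nat_lit 66217) (nat_lit 7) (node (nat_lit 4) (nat_lit 63764)
  (nat_lit 8) (node (nat_lit 5) (nat_lit 61586) (nat_lit 9) (node (nat_lit 4) (nat_lit 53760)
  (nat_lit 10) (node (nat_lit 8) (nat_lit 53760) (nat_lit 11) nil (node (nat_lit 7) (nat_lit
  35546) (nat_lit 11) nil nil)) nil) nil) nil) (node (nat_lit 4) (nat_lit 69333) (nat_lit 7) nil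
  nil))) (node (nat_lit 0) (nat_lit 70104) (nat_lit 6) nil nil)))) (node (nat_lit 5) (nat_lit 0)
  (nat_lit 5) (node (nat_lit 7) (nat_lit 0) (nat_lit 6) (node (nat_lit 4) (nat_lit 56876) (nat_lit
  7) (node (nat_lit 5) (nat_lit 72247) (nat_lit 8) (node (nat_lit 4) (nat_lit 78212) (nat_lit 9)
  nil nil) (node (nat_lit 7) (nat_lit 71868) (nat_lit 8) nil (node (nat_lit 3) (nat_lit 78019)
  (nat_lit 8) nil (node (nat_lit 0) (nat_lit 78212) (nat_lit 8) nil nil)))) (node (nat_lit 3)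
  (nat_lit 68972) (nat_lit 7) (node (nat_lit 5) (nat_lit 68972) (nat_lit 8) nil (node (nat_lit 4)
  (nat_lit 76687) (nat_lit 8) (node (nat_lit 5) (nat_lit 62025) (nat_lit 9) (node (nat_lit 4)
  (nat_lit 50049) (nat_lit 10) nil nil) nil) nil)) (node (nat_lit 0) (nat_lit 78019) (nat_lit 7)
  nil nil))) (node (nat_lit 4) (nat_lit 0) (nat_lit 6) (node (nat_lit 5) (nat_lit 56938) (nat_lit
  7) (node (nat_lit 7) (nat_lit 69313) (nat_lit 8) nil (node (nat_lit 3) (nat_lit 73359) (nat_lit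
  8) (node (nat_lit 4) (nat_lit 65757) (nat_lit 9) nil nil) nil)) (node (nat_lit 3) (nat_lit
  73359) (nat_lit 7) (node (nat_lit 4) (nat_lit 74005) (nat_lit 8) (node (nat_lit 5) (nat_lit
  74005) (nat_lit 9) (node (nat_lit 4) (nat_lit 74379) (nat_lit 10) nil nil) nil) nil) (node
  (nat_lit 0) (nat_lit 73727) (nat_lit 7) nil nil))) (node (nat_lit 3) (nat_lit 0) (nat_lit 6)
  (node (nat_lit 4) (nat_lit 74862) (nat_lit 7) (node (nat_lit 5) (nat_lit 58785) (nat_lit 8)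
  (node (nat_lit 4) (nat_lit 37267) (nat_lit 9) nil (node (nat_lit 9) (nat_lit 61680) (nat_lit 9)
  nil nil)) (node (nat_lit 9) (nat_lit 76177) (nat_lit 8) nil nil)) (node (nat_lit 7) (nat_lit
  68972) (nat_lit 7) (node (nat_lit 4) (nat_lit 76605) (nat_lit 8) nil (node (nat_lit 9) (nat_lit
  68972) (nat_lit 8) nil nil)) (node (nat_lit 5) (nat_lit 68972) (nat_lit 7) (node (nat_lit 7)
  (nat_lit 68972) (nat_lit 8) nil nil) (node (nat_lit 0) (nat_lit 77253) (nat_lit 7) nil nil))))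
  (node (nat_lit 0) (nat_lit 77476) (nat_lit 6) nil nil)))) (node (nat_lit 4) (nat_lit 0) (nat_lit
  5) (node (nat_lit 3) (nat_lit 75207) (nat_lit 6) (node (nat_lit 4) (nat_lit 75839) (nat_lit 7)
  (node (nat_lit 5) (nat_lit 75839) (nat_lit 8) (node (nat_lit 4) (nat_lit 76079) (nat_lit 9) nil
  nil) nil) (node (nat_lit 5) (nat_lit 75207) (nat_lit 7) nil nil)) (node (nat_lit 5) (nat_lit 0)
  (nat_lit 6) (node (nat_lit 7) (nat_lit 56838) (nat_lit 7) (node (nat_lit 5) (nat_lit 69954)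
  (nat_lit 8) nil (node (nat_lit 3) (nat_lit 75207) (nat_lit 8) nil (node (nat_lit 4) (nat_lit
  70306) (nat_lit 8) nil nil))) (node (nat_lit 3) (nat_lit 75207) (nat_lit 7) nil (node (nat_lit
  4) (nat_lit 56854) (nat_lit 7) (node (nat_lit 3) (nat_lit 75839) (nat_lit 8) (node (nat_lit 4)
  (nat_lit 76079) (nat_lit 9) (node (nat_lit 5) (nat_lit 76079) (nat_lit 10) nil nil) nil) nil)
  (node (nat_lit 0) (nat_lit 75839) (nat_lit 7) nil nil)))) (node (nat_lit 0) (nat_lit 75635)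
  (nat_lit 6) nil nil))) (node (nat_lit 0) (nat_lit 71359) (nat_lit 5) (node (nat_lit 7) (nat_lit
  74191) (nat_lit 6) nil (node (nat_lit 4) (nat_lit 74693) (nat_lit 6) nil (node (nat_lit 3)
  (nat_lit 74191) (nat_lit 6) nil (node (nat_lit 5) (nat_lit 74191) (nat_lit 6) nil nil))))
  nil)))) nil))

noncomputable def t158 : Tr :=
  (node (nat_lit 0) (nat_lit 0) (nat_lit 3) (node (nat_lit 3) (nat_lit 0) (nat_lit 4) (node
  (nat_lit 6) (nat_lit 0) (nat_lit 5) (node (nat_lit 5) (nat_lit 137648) (nat_lit 6) (node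
  (nat_lit 7) (nat_lit 137648) (nat_lit 7) (node (nat_lit 5) (nat_lit 137648) (nat_lit 8) nil nil)
  (node (nat_lit 4) (nat_lit 138486) (nat_lit 7) (node (nat_lit 5) (nat_lit 138486) (nat_lit 8)
  (node (nat_lit 6) (nat_lit 138696) (nat_lit 9) (node (nat_lit 7) (nat_lit 138696) (nat_lit 10)
  nil nil) nil) nil) nil)) (node (nat_lit 4) (nat_lit 138307) (nat_lit 6) nil (node (nat_lit 0)
  (nat_lit 138307) (nat_lit 6) nil (node (nat_lit 2) (nat_lit 137648) (nat_lit 6) nil nil))))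
  (node (nat_lit 4) (nat_lit 134627) (nat_lit 5) (node (nat_lit 6) (nat_lit 135616) (nat_lit 6)
  nil (node (nat_lit 5) (nat_lit 134627) (nat_lit 6) (node (nat_lit 6) (nat_lit 69983) (nat_lit 7)
  nil nil) nil)) (node (nat_lit 5) (nat_lit 122097) (nat_lit 5) (node (nat_lit 6) (nat_lit 133469)
  (nat_lit 6) (node (nat_lit 5) (nat_lit 133469) (nat_lit 7) (node (nat_lit 4) (nat_lit 134414)
  (nat_lit 8) nil nil) nil) (node (nat_lit 7) (nat_lit 122097) (nat_lit 6) (node (nat_lit 4)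
  (nat_lit 126792) (nat_lit 7) (node (nat_lit 5) (nat_lit 116046) (nat_lit 8) nil nil) nil) (node
  (nat_lit 4) (nat_lit 130059) (nat_lit 6) (node (nat_lit 7) (nat_lit 130059) (nat_lit 7) nil
  (node (nat_lit 5) (nat_lit 118996) (nat_lit 7) (node (nat_lit 6) (nat_lit 78454) (nat_lit 8) nil
  nil) nil)) nil))) (node (nat_lit 0) (nat_lit 132888) (nat_lit 5) (node (nat_lit 5) (nat_lit
  132888) (nat_lit 6) nil nil) (node (nat_lit 2) (nat_lit 122097) (nat_lit 5) (node (nat_lit 5)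
  (nat_lit 122097) (nat_lit 6) (node (nat_lit 7) (nat_lit 113429) (nat_lit 7) nil nil) (node
  (nat_lit 7) (nat_lit 122097) (nat_lit 6) (node (nat_lit 4) (nat_lit 116232) (nat_lit 7) (node
  (nat_lit 5) (nat_lit 81676) (nat_lit 8) nil nil) nil) (node (nat_lit 4) (nat_lit 126387)
  (nat_lit 6) (node (nat_lit 7) (nat_lit 126387) (nat_lit 7) nil nil) nil))) nil))))) (node
  (nat_lit 4) (nat_lit 0) (nat_lit 4) (node (nat_lit 6) (nat_lit 139817) (nat_lit 5) (node
  (nat_lit 5) (nat_lit 139817) (nat_lit 6) (node (nat_lit 4) (nat_lit 140713) (nat_lit 7) (node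
  (nat_lit 5) (nat_lit 140713) (nat_lit 8) (node (nat_lit 6) (nat_lit 141297) (nat_lit 9) (node
  (nat_lit 4) (nat_lit 141482) (nat_lit 10) nil nil) nil) nil) (node (nat_lit 3) (nat_lit 140251)
  (nat_lit 7) nil nil)) (node (nat_lit 3) (nat_lit 140251) (nat_lit 6) (node (nat_lit 4) (nat_lit
  141244) (nat_lit 7) (node (nat_lit 5) (nat_lit 141244) (nat_lit 8) nil nil) nil) nil)) (node
  (nat_lit 3) (nat_lit 138479) (nat_lit 5) (node (nat_lit 5) (nat_lit 138479) (nat_lit 6) (node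
  (nat_lit 6) (nat_lit 139883) (nat_lit 7) nil nil) (node (nat_lit 4) (nat_lit 139633) (nat_lit 6)
  (node (nat_lit 5) (nat_lit 139633) (nat_lit 7) (node (nat_lit 6) (nat_lit 140054) (nat_lit 8)
  nil nil) nil) nil)) (node (nat_lit 5) (nat_lit 134270) (nat_lit 5) (node (nat_lit 4) (nat_lit
  140309) (nat_lit 6) nil nil) (node (nat_lit 0) (nat_lit 139171) (nat_lit 5) nil (node (nat_lit
  2) (nat_lit 138479) (nat_lit 5) (node (nat_lit 5) (nat_lit 126710) (nat_lit 6) (node (nat_lit 4)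
  (nat_lit 122409) (nat_lit 7) nil nil) nil) nil))))) (node (nat_lit 5) (nat_lit 0) (nat_lit 4)
  (node (nat_lit 3) (nat_lit 122137) (nat_lit 5) (node (nat_lit 6) (nat_lit 129836) (nat_lit 6)
  (node (nat_lit 5) (nat_lit 129836) (nat_lit 7) (node (nat_lit 4) (nat_lit 130781) (nat_lit 8)
  nil nil) nil) (node (nat_lit 5) (nat_lit 122137) (nat_lit 6) nil (node (nat_lit 4) (nat_lit
  130099) (nat_lit 6) (node (nat_lit 5) (nat_lit 112998) (nat_lit 7) (node (nat_lit 6) (nat_lit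
  72227) (nat_lit 8) nil nil) (node (nat_lit 8) (nat_lit 130099) (nat_lit 7) (node (nat_lit 5)
  (nat_lit 130099) (nat_lit 8) (node (nat_lit 4) (nat_lit 131287) (nat_lit 9) (node (nat_lit 5)
  (nat_lit 127197) (nat_lit 10) nil nil) nil) nil) nil)) nil))) (node (nat_lit 4) (nat_lit 139112)
  (nat_lit 5) (node (nat_lit 3) (nat_lit 140251) (nat_lit 6) nil (node (nat_lit 5) (nat_lit
  139112) (nat_lit 6) (node (nat_lit 6) (nat_lit 67893) (nat_lit 7) nil nil) nil)) (node (nat_lit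
  0) (nat_lit 137681) (nat_lit 5) nil (node (nat_lit 2) (nat_lit 122137) (nat_lit 5) (node
  (nat_lit 5) (nat_lit 122137) (nat_lit 6) nil nil) nil)))) (node (nat_lit 0) (nat_lit 0) (nat_lit
  4) (node (nat_lit 0) (nat_lit 138813) (nat_lit 5) nil (node (nat_lit 2) (nat_lit 137561)
  (nat_lit 5) (node (nat_lit 6) (nat_lit 139276) (nat_lit 6) nil (node (nat_lit 5) (nat_lit
  130131) (nat_lit 6) (node (nat_lit 4) (nat_lit 126556) (nat_lit 7) nil nil) (node (nat_lit 4)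
  (nat_lit 139276) (nat_lit 6) nil (node (nat_lit 3) (nat_lit 133168) (nat_lit 6) (node (nat_lit
  4) (nat_lit 119597) (nat_lit 7) nil nil) nil)))) (node (nat_lit 5) (nat_lit 137561) (nat_lit 5)
  (node (nat_lit 4) (nat_lit 139276) (nat_lit 6) (node (nat_lit 5) (nat_lit 139276) (nat_lit 7)
  (node (nat_lit 6) (nat_lit 139697) (nat_lit 8) nil nil) nil) nil) (node (nat_lit 3) (nat_lit
  137561) (nat_lit 5) (node (nat_lit 4) (nat_lit 139276) (nat_lit 6) (node (nat_lit 5) (nat_lit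
  139276) (nat_lit 7) nil nil) nil) (node (nat_lit 4) (nat_lit 139929) (nat_lit 5) (node (nat_lit
  3) (nat_lit 139929) (nat_lit 6) nil (node (nat_lit 5) (nat_lit 138983) (nat_lit 6) nil nil))
  (node (nat_lit 6) (nat_lit 138813) (nat_lit 5) (node (nat_lit 5) (nat_lit 138813) (nat_lit 6)
  nil nil) nil)))))) (node (nat_lit 2) (nat_lit 0) (nat_lit 4) (node (nat_lit 0) (nat_lit 131965)
  (nat_lit 5) (node (nat_lit 5) (nat_lit 131965) (nat_lit 6) (node (nat_lit 4) (nat_lit 133939)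
  (nat_lit 7) nil nil) nil) (node (nat_lit 5) (nat_lit 122163) (nat_lit 5) (node (nat_lit 4)
  (nat_lit 130663) (nat_lit 6) (node (nat_lit 5) (nat_lit 118242) (nat_lit 7) (node (nat_lit 6)
  (nat_lit 72268) (nat_lit 8) (node (nat_lit 7) (nat_lit 63280) (nat_lit 9) nil nil) nil) nil)
  nil) (node (nat_lit 3) (nat_lit 122701) (nat_lit 5) (node (nat_lit 5) (nat_lit 122701) (nat_lit
  6) (node (nat_lit 4) (nat_lit 124019) (nat_lit 7) (node (nat_lit 5) (nat_lit 92635) (nat_lit 8)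
  nil nil) nil) (node (nat_lit 4) (nat_lit 119822) (nat_lit 6) (node (nat_lit 5) (nat_lit 74561)
  (nat_lit 7) nil nil) nil)) (node (nat_lit 4) (nat_lit 135841) (nat_lit 5) (node (nat_lit 5)
  (nat_lit 135841) (nat_lit 6) (node (nat_lit 3) (nat_lit 130097) (nat_lit 7) nil nil) (node
  (nat_lit 3) (nat_lit 135841) (nat_lit 6) nil nil)) (node (nat_lit 6) (nat_lit 137329) (nat_lit
  5) (node (nat_lit 5) (nat_lit 137329) (nat_lit 6) nil (node (nat_lit 4) (nat_lit 138232)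
  (nat_lit 6) nil nil)) nil))))) nil))))) (node (nat_lit 2) (nat_lit 0) (nat_lit 3) (node (nat_lit
  3) (nat_lit 0) (nat_lit 4) (node (nat_lit 6) (nat_lit 0) (nat_lit 5) (node (nat_lit 5) (nat_lit
  0) (nat_lit 6) (node (nat_lit 7) (nat_lit 90901) (nat_lit 7) (node (nat_lit 5) (nat_lit 91020)
  (nat_lit 8) (node (nat_lit 6) (nat_lit 107503) (nat_lit 9) (node (nat_lit 7) (nat_lit 115840)
  (nat_lit 10) nil nil) (node (nat_lit 4) (nat_lit 121744) (nat_lit 9) nil nil)) (node (nat_lit 4)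
  (nat_lit 117715) (nat_lit 8) (node (nat_lit 5) (nat_lit 118652) (nat_lit 9) (node (nat_lit 6)
  (nat_lit 102854) (nat_lit 10) (node (nat_lit 7) (nat_lit 68323) (nat_lit 11) nil nil) nil) nil)
  (node (nat_lit 6) (nat_lit 90913) (nat_lit 8) (node (nat_lit 7) (nat_lit 101244) (nat_lit 9) nil
  nil) (node (nat_lit 0) (nat_lit 118831) (nat_lit 8) nil nil)))) (node (nat_lit 4) (nat_lit
  123775) (nat_lit 7) (node (nat_lit 7) (nat_lit 123775) (nat_lit 8) (node (nat_lit 5) (nat_lit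
  123775) (nat_lit 9) nil (node (nat_lit 4) (nat_lit 124738) (nat_lit 9) (node (nat_lit 5)
  (nat_lit 124738) (nat_lit 10) nil nil) nil)) (node (nat_lit 5) (nat_lit 111244) (nat_lit 8)
  (node (nat_lit 6) (nat_lit 96998) (nat_lit 9) (node (nat_lit 7) (nat_lit 57307) (nat_lit 10) nil
  nil) nil) nil)) (node (nat_lit 6) (nat_lit 90901) (nat_lit 7) (node (nat_lit 7) (nat_lit 91146)
  (nat_lit 8) (node (nat_lit 5) (nat_lit 105827) (nat_lit 9) (node (nat_lit 7) (nat_lit 109767)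
  (nat_lit 10) nil (node (nat_lit 4) (nat_lit 113862) (nat_lit 10) nil nil)) (node (nat_lit 4)
  (nat_lit 116605) (nat_lit 9) nil nil)) (node (nat_lit 4) (nat_lit 125737) (nat_lit 8) nil (node
  (nat_lit 0) (nat_lit 118831) (nat_lit 8) nil nil))) (node (nat_lit 0) (nat_lit 124543) (nat_lit
  7) nil nil)))) (node (nat_lit 4) (nat_lit 126525) (nat_lit 6) (node (nat_lit 7) (nat_lit 128050)
  (nat_lit 7) (node (nat_lit 4) (nat_lit 130199) (nat_lit 8) (node (nat_lit 5) (nat_lit 130199)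
  (nat_lit 9) nil nil) (node (nat_lit 5) (nat_lit 130213) (nat_lit 8) nil nil)) (node (nat_lit 5)
  (nat_lit 127375) (nat_lit 7) (node (nat_lit 7) (nat_lit 128709) (nat_lit 8) (node (nat_lit 4)
  (nat_lit 127059) (nat_lit 9) (node (nat_lit 5) (nat_lit 122539) (nat_lit 10) nil nil) nil) nil)
  (node (nat_lit 6) (nat_lit 127564) (nat_lit 7) (node (nat_lit 7) (nat_lit 126904) (nat_lit 8)
  (node (nat_lit 4) (nat_lit 127395) (nat_lit 9) (node (nat_lit 5) (nat_lit 113499) (nat_lit 10)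
  nil nil) nil) nil) nil))) (node (nat_lit 0) (nat_lit 124120) (nat_lit 6) (node (nat_lit 5)
  (nat_lit 124120) (nat_lit 7) nil (node (nat_lit 7) (nat_lit 124120) (nat_lit 7) (node (nat_lit
  4) (nat_lit 125396) (nat_lit 8) nil nil) (node (nat_lit 4) (nat_lit 124848) (nat_lit 7) (node
  (nat_lit 7) (nat_lit 124848) (nat_lit 8) nil nil) nil))) nil))) (node (nat_lit 4) (nat_lit 0)
  (nat_lit 5) (node (nat_lit 6) (nat_lit 0) (nat_lit 6) (node (nat_lit 4) (nat_lit 106687)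
  (nat_lit 7) (node (nat_lit 7) (nat_lit 109013) (nat_lit 8) (node (nat_lit 5) (nat_lit 108156)
  (nat_lit 9) nil nil) nil) (node (nat_lit 5) (nat_lit 106687) (nat_lit 7) (node (nat_lit 4)
  (nat_lit 109013) (nat_lit 8) (node (nat_lit 5) (nat_lit 106727) (nat_lit 9) (node (nat_lit 6)
  (nat_lit 97825) (nat_lit 10) (node (nat_lit 7) (nat_lit 55689) (nat_lit 11) nil nil) nil) nil)
  (node (nat_lit 7) (nat_lit 109013) (nat_lit 8) nil nil)) (node (nat_lit 7) (nat_lit 106883)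
  (nat_lit 7) (node (nat_lit 6) (nat_lit 109208) (nat_lit 8) (node (nat_lit 4) (nat_lit 110910)
  (nat_lit 9) (node (nat_lit 7) (nat_lit 111353) (nat_lit 10) nil nil) nil) (node (nat_lit 5)
  (nat_lit 106487) (nat_lit 8) (node (nat_lit 4) (nat_lit 108203) (nat_lit 9) (node (nat_lit 5)
  (nat_lit 99970) (nat_lit 10) nil nil) nil) nil)) (node (nat_lit 0) (nat_lit 106883) (nat_lit 7)
  nil nil)))) (node (nat_lit 5) (nat_lit 76110) (nat_lit 6) (node (nat_lit 7) (nat_lit 76110)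
  (nat_lit 7) (node (nat_lit 5) (nat_lit 76110) (nat_lit 8) nil nil) (node (nat_lit 4) (nat_lit
  76110) (nat_lit 7) (node (nat_lit 7) (nat_lit 76110) (nat_lit 8) nil nil) (node (nat_lit 6)
  (nat_lit 65545) (nat_lit 7) nil nil))) (node (nat_lit 7) (nat_lit 103469) (nat_lit 6) (node
  (nat_lit 6) (nat_lit 106901) (nat_lit 7) (node (nat_lit 7) (nat_lit 109142) (nat_lit 8) (node
  (nat_lit 4) (nat_lit 110679) (nat_lit 9) (node (nat_lit 5) (nat_lit 97638) (nat_lit 10) nil nil)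
  nil) (node (nat_lit 5) (nat_lit 105992) (nat_lit 8) nil nil)) (node (nat_lit 5) (nat_lit 106901)
  (nat_lit 7) (node (nat_lit 4) (nat_lit 109227) (nat_lit 8) (node (nat_lit 5) (nat_lit 110547)
  (nat_lit 9) nil nil) (node (nat_lit 6) (nat_lit 109227) (nat_lit 8) (node (nat_lit 7) (nat_lit
  109038) (nat_lit 9) (node (nat_lit 4) (nat_lit 103334) (nat_lit 10) nil nil) nil) (node (nat_lit
  7) (nat_lit 109227) (nat_lit 8) nil nil))) nil)) (node (nat_lit 0) (nat_lit 103469) (nat_lit 6)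
  nil nil)))) (node (nat_lit 5) (nat_lit 0) (nat_lit 5) (node (nat_lit 7) (nat_lit 0) (nat_lit 6)
  (node (nat_lit 6) (nat_lit 91020) (nat_lit 7) (node (nat_lit 7) (nat_lit 91043) (nat_lit 8)
  (node (nat_lit 5) (nat_lit 102550) (nat_lit 9) (node (nat_lit 4) (nat_lit 103063) (nat_lit 10)
  nil (node (nat_lit 6) (nat_lit 105975) (nat_lit 10) nil nil)) (node (nat_lit 4) (nat_lit 112829)
  (nat_lit 9) nil nil)) (node (nat_lit 4) (nat_lit 125856) (nat_lit 8) nil (node (nat_lit 5)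
  (nat_lit 91099) (nat_lit 8) nil nil))) (node (nat_lit 4) (nat_lit 114756) (nat_lit 7) (node
  (nat_lit 5) (nat_lit 103812) (nat_lit 8) nil nil) (node (nat_lit 0) (nat_lit 123583) (nat_lit 7)
  nil nil))) (node (nat_lit 4) (nat_lit 119143) (nat_lit 6) (node (nat_lit 7) (nat_lit 119259)
  (nat_lit 7) (node (nat_lit 4) (nat_lit 120535) (nat_lit 8) (node (nat_lit 5) (nat_lit 120535)
  (nat_lit 9) nil nil) nil) (node (nat_lit 5) (nat_lit 95833) (nat_lit 7) (node (nat_lit 7)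
  (nat_lit 97593) (nat_lit 8) (node (nat_lit 4) (nat_lit 100123) (nat_lit 9) nil nil) (node
  (nat_lit 6) (nat_lit 58724) (nat_lit 8) nil nil)) nil)) (node (nat_lit 6) (nat_lit 0) (nat_lit
  6) (node (nat_lit 5) (nat_lit 0) (nat_lit 7) (node (nat_lit 7) (nat_lit 91041) (nat_lit 8) (node
  (nat_lit 4) (nat_lit 113791) (nat_lit 9) (node (nat_lit 5) (nat_lit 110213) (nat_lit 10) nil
  nil) (node (nat_lit 6) (nat_lit 105576) (nat_lit 9) nil (node (nat_lit 5) (nat_lit 106884)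
  (nat_lit 9) nil nil))) (node (nat_lit 4) (nat_lit 121551) (nat_lit 8) (node (nat_lit 5) (nat_lit
  107724) (nat_lit 9) nil nil) (node (nat_lit 0) (nat_lit 118963) (nat_lit 8) nil nil))) (node
  (nat_lit 4) (nat_lit 127493) (nat_lit 7) (node (nat_lit 7) (nat_lit 127493) (nat_lit 8) (node
  (nat_lit 4) (nat_lit 128456) (nat_lit 9) nil nil) nil) (node (nat_lit 0) (nat_lit 120981)
  (nat_lit 7) nil nil))) (node (nat_lit 0) (nat_lit 125000) (nat_lit 6) nil nil)))) (node (nat_lit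
  0) (nat_lit 117579) (nat_lit 5) (node (nat_lit 5) (nat_lit 124155) (nat_lit 6) (node (nat_lit 4)
  (nat_lit 125046) (nat_lit 7) nil nil) (node (nat_lit 7) (nat_lit 124994) (nat_lit 6) (node
  (nat_lit 4) (nat_lit 127712) (nat_lit 7) nil nil) (node (nat_lit 4) (nat_lit 124736) (nat_lit 6)
  (node (nat_lit 7) (nat_lit 124736) (nat_lit 7) nil nil) nil))) nil)))) (node (nat_lit 4)
  (nat_lit 0) (nat_lit 4) (node (nat_lit 6) (nat_lit 0) (nat_lit 5) (node (nat_lit 5) (nat_lit 0)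
  (nat_lit 6) (node (nat_lit 4) (nat_lit 120627) (nat_lit 7) (node (nat_lit 5) (nat_lit 126535)
  (nat_lit 8) (node (nat_lit 6) (nat_lit 129125) (nat_lit 9) (node (nat_lit 4) (nat_lit 86292)
  (nat_lit 10) nil nil) nil) (node (nat_lit 3) (nat_lit 140637) (nat_lit 8) nil nil)) (node
  (nat_lit 3) (nat_lit 137239) (nat_lit 7) nil (node (nat_lit 6) (nat_lit 119490) (nat_lit 7)
  (node (nat_lit 4) (nat_lit 133650) (nat_lit 8) nil nil) (node (nat_lit 0) (nat_lit 140849)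
  (nat_lit 7) nil nil)))) (node (nat_lit 3) (nat_lit 132190) (nat_lit 6) (node (nat_lit 4)
  (nat_lit 130861) (nat_lit 7) (node (nat_lit 5) (nat_lit 129535) (nat_lit 8) (node (nat_lit 6)
  (nat_lit 103867) (nat_lit 9) (node (nat_lit 4) (nat_lit 67381) (nat_lit 10) nil nil) nil) nil)
  (node (nat_lit 5) (nat_lit 134599) (nat_lit 7) (node (nat_lit 4) (nat_lit 123298) (nat_lit 8)
  (node (nat_lit 9) (nat_lit 125122) (nat_lit 9) nil (node (nat_lit 5) (nat_lit 113346) (nat_lit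
  9) nil nil)) nil) nil)) (node (nat_lit 0) (nat_lit 133459) (nat_lit 6) (node (nat_lit 5)
  (nat_lit 137328) (nat_lit 7) nil nil) nil))) (node (nat_lit 3) (nat_lit 134632) (nat_lit 5)
  (node (nat_lit 6) (nat_lit 136248) (nat_lit 6) (node (nat_lit 8) (nat_lit 135967) (nat_lit 7)
  (node (nat_lit 4) (nat_lit 137328) (nat_lit 8) nil nil) (node (nat_lit 5) (nat_lit 133967)
  (nat_lit 7) (node (nat_lit 4) (nat_lit 136338) (nat_lit 8) (node (nat_lit 5) (nat_lit 127083)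
  (nat_lit 9) (node (nat_lit 6) (nat_lit 110199) (nat_lit 10) (node (nat_lit 4) (nat_lit 89704)
  (nat_lit 11) (node (nat_lit 8) (nat_lit 70813) (nat_lit 12) nil nil) nil) nil) nil) nil) nil))
  (node (nat_lit 5) (nat_lit 137105) (nat_lit 6) (node (nat_lit 4) (nat_lit 141305) (nat_lit 7)
  (node (nat_lit 5) (nat_lit 132507) (nat_lit 8) (node (nat_lit 6) (nat_lit 111865) (nat_lit 9)
  (node (nat_lit 4) (nat_lit 75269) (nat_lit 10) (node (nat_lit 8) (nat_lit 73662) (nat_lit 11)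
  nil nil) nil) (node (nat_lit 8) (nat_lit 133308) (nat_lit 9) nil nil)) (node (nat_lit 8)
  (nat_lit 141305) (nat_lit 8) (node (nat_lit 4) (nat_lit 141305) (nat_lit 9) nil nil) nil)) (node
  (nat_lit 8) (nat_lit 137105) (nat_lit 7) (node (nat_lit 4) (nat_lit 140393) (nat_lit 8) (node
  (nat_lit 5) (nat_lit 139251) (nat_lit 9) nil nil) nil) (node (nat_lit 6) (nat_lit 137105)
  (nat_lit 7) (node (nat_lit 5) (nat_lit 137105) (nat_lit 8) (node (nat_lit 8) (nat_lit 135868)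
  (nat_lit 9) nil nil) (node (nat_lit 8) (nat_lit 137105) (nat_lit 8) nil nil)) nil))) (node
  (nat_lit 4) (nat_lit 141074) (nat_lit 6) (node (nat_lit 5) (nat_lit 141074) (nat_lit 7) (node
  (nat_lit 6) (nat_lit 141074) (nat_lit 8) (node (nat_lit 4) (nat_lit 66819) (nat_lit 9) nil nil)
  nil) nil) nil))) (node (nat_lit 5) (nat_lit 0) (nat_lit 5) (node (nat_lit 4) (nat_lit 108143)
  (nat_lit 6) (node (nat_lit 6) (nat_lit 124934) (nat_lit 7) nil (node (nat_lit 3) (nat_lit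
  141305) (nat_lit 7) nil nil)) (node (nat_lit 3) (nat_lit 136624) (nat_lit 6) (node (nat_lit 4)
  (nat_lit 139839) (nat_lit 7) (node (nat_lit 5) (nat_lit 124963) (nat_lit 8) nil nil) nil) (node
  (nat_lit 0) (nat_lit 139098) (nat_lit 6) nil nil))) (node (nat_lit 0) (nat_lit 134669) (nat_lit
  5) nil nil)))) (node (nat_lit 5) (nat_lit 0) (nat_lit 4) (node (nat_lit 3) (nat_lit 0) (nat_lit
  5) (node (nat_lit 6) (nat_lit 0) (nat_lit 6) (node (nat_lit 5) (nat_lit 0) (nat_lit 7) (node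
  (nat_lit 6) (nat_lit 90747) (nat_lit 8) (node (nat_lit 8) (nat_lit 103964) (nat_lit 9) nil nil)
  (node (nat_lit 4) (nat_lit 120545) (nat_lit 8) (node (nat_lit 5) (nat_lit 113692) (nat_lit 9)
  nil nil) (node (nat_lit 0) (nat_lit 118685) (nat_lit 8) nil nil))) (node (nat_lit 8) (nat_lit 0)
  (nat_lit 7) (node (nat_lit 5) (nat_lit 90842) (nat_lit 8) (node (nat_lit 6) (nat_lit 107359)
  (nat_lit 9) nil (node (nat_lit 4) (nat_lit 113870) (nat_lit 9) nil nil)) (node (nat_lit 4)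
  (nat_lit 122788) (nat_lit 8) (node (nat_lit 5) (nat_lit 120342) (nat_lit 9) nil nil) (node
  (nat_lit 0) (nat_lit 120646) (nat_lit 8) nil nil))) (node (nat_lit 4) (nat_lit 132302) (nat_lit
  7) nil (node (nat_lit 0) (nat_lit 127176) (nat_lit 7) nil nil)))) (node (nat_lit 4) (nat_lit
  120466) (nat_lit 6) (node (nat_lit 5) (nat_lit 100156) (nat_lit 7) (node (nat_lit 6) (nat_lit
  76110) (nat_lit 8) nil nil) (node (nat_lit 8) (nat_lit 120466) (nat_lit 7) (node (nat_lit 5)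
  (nat_lit 120466) (nat_lit 8) (node (nat_lit 4) (nat_lit 122183) (nat_lit 9) (node (nat_lit 5)
  (nat_lit 114437) (nat_lit 10) nil nil) nil) nil) nil)) (node (nat_lit 5) (nat_lit 0) (nat_lit 6)
  (node (nat_lit 4) (nat_lit 125691) (nat_lit 7) (node (nat_lit 5) (nat_lit 115402) (nat_lit 8)
  (node (nat_lit 6) (nat_lit 98946) (nat_lit 9) nil nil) nil) (node (nat_lit 6) (nat_lit 90674)
  (nat_lit 7) (node (nat_lit 5) (nat_lit 90674) (nat_lit 8) (node (nat_lit 4) (nat_lit 112645)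
  (nat_lit 9) nil nil) nil) (node (nat_lit 0) (nat_lit 123493) (nat_lit 7) nil nil))) (node
  (nat_lit 0) (nat_lit 128140) (nat_lit 6) nil nil)))) (node (nat_lit 4) (nat_lit 0) (nat_lit 5)
  (node (nat_lit 6) (nat_lit 108251) (nat_lit 6) (node (nat_lit 5) (nat_lit 119474) (nat_lit 7)
  nil (node (nat_lit 4) (nat_lit 119486) (nat_lit 7) nil nil)) (node (nat_lit 3) (nat_lit 126419)
  (nat_lit 6) (node (nat_lit 5) (nat_lit 124168) (nat_lit 7) nil (node (nat_lit 4) (nat_lit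
  128434) (nat_lit 7) (node (nat_lit 5) (nat_lit 128434) (nat_lit 8) nil nil) nil)) (node (nat_lit
  5) (nat_lit 76500) (nat_lit 6) (node (nat_lit 3) (nat_lit 82702) (nat_lit 7) (node (nat_lit 4)
  (nat_lit 79633) (nat_lit 8) nil nil) (node (nat_lit 6) (nat_lit 56054) (nat_lit 7) nil nil))
  (node (nat_lit 0) (nat_lit 128165) (nat_lit 6) nil nil)))) (node (nat_lit 0) (nat_lit 120390)
  (nat_lit 5) (node (nat_lit 5) (nat_lit 129288) (nat_lit 6) nil nil) nil))) (node (nat_lit 0)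
  (nat_lit 0) (nat_lit 4) (node (nat_lit 0) (nat_lit 133949) (nat_lit 5) (node (nat_lit 5)
  (nat_lit 133949) (nat_lit 6) nil nil) (node (nat_lit 5) (nat_lit 131654) (nat_lit 5) (node
  (nat_lit 4) (nat_lit 134203) (nat_lit 6) (node (nat_lit 5) (nat_lit 134203) (nat_lit 7) (node
  (nat_lit 6) (nat_lit 134035) (nat_lit 8) nil nil) nil) nil) (node (nat_lit 3) (nat_lit 131942)
  (nat_lit 5) (node (nat_lit 5) (nat_lit 131942) (nat_lit 6) (node (nat_lit 4) (nat_lit 134931)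
  (nat_lit 7) (node (nat_lit 5) (nat_lit 107526) (nat_lit 8) nil nil) nil) (node (nat_lit 4)
  (nat_lit 134203) (nat_lit 6) (node (nat_lit 5) (nat_lit 134203) (nat_lit 7) nil nil) nil)) (node
  (nat_lit 4) (nat_lit 133949) (nat_lit 5) nil (node (nat_lit 6) (nat_lit 131942) (nat_lit 5)
  (node (nat_lit 5) (nat_lit 131942) (nat_lit 6) nil nil) nil))))) nil)))) nil))

noncomputable def c20 : Tr :=
  (node (nat_lit 3) (nat_lit 0) (nat_lit 1) t155 (node (nat_lit 1) (nat_lit 0) (nat_lit 1) (node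
  (nat_lit 3) (nat_lit 0) (nat_lit 2) (node (nat_lit 3) (nat_lit 0) (nat_lit 3) (node (nat_lit 0)
  (nat_lit 0) (nat_lit 4) (node (nat_lit 4) (nat_lit 132393) (nat_lit 5) (node (nat_lit 7)
  (nat_lit 136956) (nat_lit 6) (node (nat_lit 6) (nat_lit 138166) (nat_lit 7) (node (nat_lit 4)
  (nat_lit 139083) (nat_lit 8) (node (nat_lit 5) (nat_lit 139083) (nat_lit 9) (node (nat_lit 6)
  (nat_lit 139083) (nat_lit 10) nil nil) nil) nil) (node (nat_lit 5) (nat_lit 133360) (nat_lit 7)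
  (node (nat_lit 4) (nat_lit 134730) (nat_lit 8) (node (nat_lit 5) (nat_lit 135679) (nat_lit 9)
  (node (nat_lit 6) (nat_lit 136398) (nat_lit 10) (node (nat_lit 7) (nat_lit 137034) (nat_lit 11)
  nil nil) nil) nil) nil) nil)) (node (nat_lit 6) (nat_lit 136956) (nat_lit 6) (node (nat_lit 5)
  (nat_lit 133945) (nat_lit 7) nil nil) (node (nat_lit 5) (nat_lit 136956) (nat_lit 6) nil nil)))
  (node (nat_lit 5) (nat_lit 130026) (nat_lit 5) (node (nat_lit 7) (nat_lit 136313) (nat_lit 6)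
  (node (nat_lit 6) (nat_lit 136313) (nat_lit 7) (node (nat_lit 5) (nat_lit 135443) (nat_lit 8)
  nil nil) nil) (node (nat_lit 6) (nat_lit 129710) (nat_lit 6) (node (nat_lit 5) (nat_lit 134120)
  (nat_lit 7) (node (nat_lit 4) (nat_lit 129867) (nat_lit 8) nil nil) (node (nat_lit 4) (nat_lit
  128773) (nat_lit 7) (node (nat_lit 5) (nat_lit 116896) (nat_lit 8) (node (nat_lit 6) (nat_lit
  76278) (nat_lit 9) (node (nat_lit 5) (nat_lit 76278) (nat_lit 10) nil nil) nil) nil) nil)) (node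
  (nat_lit 4) (nat_lit 136313) (nat_lit 6) (node (nat_lit 5) (nat_lit 136313) (nat_lit 7) (node
  (nat_lit 6) (nat_lit 136313) (nat_lit 8) nil nil) (node (nat_lit 6) (nat_lit 136313) (nat_lit 7)
  (node (nat_lit 4) (nat_lit 137550) (nat_lit 8) (node (nat_lit 5) (nat_lit 137550) (nat_lit 9)
  (node (nat_lit 6) (nat_lit 137550) (nat_lit 10) nil nil) nil) nil) nil)) nil))) (node (nat_lit
  6) (nat_lit 131777) (nat_lit 5) (node (nat_lit 4) (nat_lit 136313) (nat_lit 6) (node (nat_lit 5)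
  (nat_lit 136313) (nat_lit 7) (node (nat_lit 6) (nat_lit 136313) (nat_lit 8) (node (nat_lit 7)
  (nat_lit 66819) (nat_lit 9) nil nil) nil) nil) (node (nat_lit 5) (nat_lit 132257) (nat_lit 6)
  (node (nat_lit 6) (nat_lit 131698) (nat_lit 7) (node (nat_lit 7) (nat_lit 133160) (nat_lit 8)
  nil nil) (node (nat_lit 4) (nat_lit 130260) (nat_lit 7) (node (nat_lit 6) (nat_lit 131133)
  (nat_lit 8) nil (node (nat_lit 5) (nat_lit 123097) (nat_lit 8) (node (nat_lit 6) (nat_lit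
  101591) (nat_lit 9) (node (nat_lit 7) (nat_lit 66803) (nat_lit 10) nil nil) nil) nil)) nil))
  nil)) (node (nat_lit 0) (nat_lit 132358) (nat_lit 5) (node (nat_lit 7) (nat_lit 136923) (nat_lit
  6) nil (node (nat_lit 6) (nat_lit 134737) (nat_lit 6) (node (nat_lit 4) (nat_lit 138408)
  (nat_lit 7) nil nil) (node (nat_lit 5) (nat_lit 135794) (nat_lit 6) (node (nat_lit 4) (nat_lit
  137363) (nat_lit 7) nil nil) nil))) (node (nat_lit 2) (nat_lit 128909) (nat_lit 5) (node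
  (nat_lit 7) (nat_lit 134006) (nat_lit 6) nil (node (nat_lit 6) (nat_lit 126955) (nat_lit 6)
  (node (nat_lit 4) (nat_lit 116992) (nat_lit 7) (node (nat_lit 5) (nat_lit 105455) (nat_lit 8)
  (node (nat_lit 6) (nat_lit 80634) (nat_lit 9) nil nil) nil) nil) (node (nat_lit 5) (nat_lit
  126021) (nat_lit 6) (node (nat_lit 4) (nat_lit 123266) (nat_lit 7) (node (nat_lit 5) (nat_lit
  105836) (nat_lit 8) nil nil) nil) nil))) nil))))) (node (nat_lit 4) (nat_lit 0) (nat_lit 4)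
  (node (nat_lit 0) (nat_lit 0) (nat_lit 5) (node (nat_lit 4) (nat_lit 97229) (nat_lit 6) (node
  (nat_lit 6) (nat_lit 99312) (nat_lit 7) (node (nat_lit 4) (nat_lit 100682) (nat_lit 8) (node
  (nat_lit 5) (nat_lit 101631) (nat_lit 9) nil nil) nil) (node (nat_lit 5) (nat_lit 99807)
  (nat_lit 7) nil nil)) (node (nat_lit 6) (nat_lit 97229) (nat_lit 6) (node (nat_lit 4) (nat_lit
  99312) (nat_lit 7) (node (nat_lit 5) (nat_lit 100682) (nat_lit 8) (node (nat_lit 6) (nat_lit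
  101631) (nat_lit 9) nil nil) nil) (node (nat_lit 5) (nat_lit 99312) (nat_lit 7) (node (nat_lit
  4) (nat_lit 100215) (nat_lit 8) (node (nat_lit 5) (nat_lit 94580) (nat_lit 9) (node (nat_lit 6)
  (nat_lit 81080) (nat_lit 10) (node (nat_lit 4) (nat_lit 60080) (nat_lit 11) nil nil) nil) nil)
  nil) nil)) (node (nat_lit 5) (nat_lit 98213) (nat_lit 6) (node (nat_lit 4) (nat_lit 100295)
  (nat_lit 7) (node (nat_lit 5) (nat_lit 101666) (nat_lit 8) (node (nat_lit 6) (nat_lit 102614)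
  (nat_lit 9) (node (nat_lit 4) (nat_lit 103334) (nat_lit 10) nil nil) nil) nil) nil) (node
  (nat_lit 0) (nat_lit 98159) (nat_lit 6) (node (nat_lit 6) (nat_lit 100241) (nat_lit 7) nil nil)
  (node (nat_lit 2) (nat_lit 97229) (nat_lit 6) (node (nat_lit 6) (nat_lit 94007) (nat_lit 7) nil
  nil) nil))))) (node (nat_lit 2) (nat_lit 0) (nat_lit 5) (node (nat_lit 4) (nat_lit 0) (nat_lit
  6) (node (nat_lit 6) (nat_lit 90391) (nat_lit 7) (node (nat_lit 4) (nat_lit 91761) (nat_lit 8)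
  (node (nat_lit 8) (nat_lit 92710) (nat_lit 9) (node (nat_lit 6) (nat_lit 89172) (nat_lit 10) nil
  (node (nat_lit 5) (nat_lit 93430) (nat_lit 10) nil nil)) (node (nat_lit 5) (nat_lit 94977)
  (nat_lit 9) nil nil)) (node (nat_lit 8) (nat_lit 91761) (nat_lit 8) nil (node (nat_lit 5)
  (nat_lit 98064) (nat_lit 8) nil nil))) (node (nat_lit 5) (nat_lit 98661) (nat_lit 7) nil (node
  (nat_lit 0) (nat_lit 97610) (nat_lit 7) nil nil))) (node (nat_lit 6) (nat_lit 88382) (nat_lit 6)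
  (node (nat_lit 8) (nat_lit 90464) (nat_lit 7) (node (nat_lit 4) (nat_lit 91835) (nat_lit 8)
  (node (nat_lit 8) (nat_lit 92784) (nat_lit 9) nil nil) nil) (node (nat_lit 4) (nat_lit 90464)
  (nat_lit 7) (node (nat_lit 6) (nat_lit 91835) (nat_lit 8) nil (node (nat_lit 5) (nat_lit 76110)
  (nat_lit 8) (node (nat_lit 6) (nat_lit 74913) (nat_lit 9) nil nil) nil)) (node (nat_lit 5)
  (nat_lit 98733) (nat_lit 7) (node (nat_lit 4) (nat_lit 100104) (nat_lit 8) (node (nat_lit 5)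
  (nat_lit 99413) (nat_lit 9) (node (nat_lit 6) (nat_lit 84040) (nat_lit 10) (node (nat_lit 4)
  (nat_lit 67604) (nat_lit 11) nil nil) nil) nil) nil) nil))) (node (nat_lit 5) (nat_lit 97843)
  (nat_lit 6) (node (nat_lit 4) (nat_lit 100299) (nat_lit 7) (node (nat_lit 5) (nat_lit 100569)
  (nat_lit 8) (node (nat_lit 6) (nat_lit 76030) (nat_lit 9) (node (nat_lit 4) (nat_lit 27772)
  (nat_lit 10) nil nil) nil) nil) nil) (node (nat_lit 0) (nat_lit 96699) (nat_lit 6) (node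
  (nat_lit 6) (nat_lit 98781) (nat_lit 7) nil nil) nil)))) (node (nat_lit 5) (nat_lit 0) (nat_lit
  5) (node (nat_lit 0) (nat_lit 64038) (nat_lit 6) nil (node (nat_lit 2) (nat_lit 62598) (nat_lit
  6) nil (node (nat_lit 4) (nat_lit 54453) (nat_lit 6) nil nil))) (node (nat_lit 6) (nat_lit 0)
  (nat_lit 5) (node (nat_lit 0) (nat_lit 93736) (nat_lit 6) (node (nat_lit 4) (nat_lit 98524)
  (nat_lit 7) (node (nat_lit 6) (nat_lit 101457) (nat_lit 8) (node (nat_lit 4) (nat_lit 102618)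
  (nat_lit 9) (node (nat_lit 5) (nat_lit 103338) (nat_lit 10) (node (nat_lit 6) (nat_lit 103973)
  (nat_lit 11) (node (nat_lit 4) (nat_lit 104549) (nat_lit 12) (node (nat_lit 6) (nat_lit 105017)
  (nat_lit 13) nil nil) nil) nil) nil) nil) nil) (node (nat_lit 6) (nat_lit 98524) (nat_lit 7)
  (node (nat_lit 4) (nat_lit 101457) (nat_lit 8) (node (nat_lit 5) (nat_lit 102618) (nat_lit 9)
  nil nil) nil) (node (nat_lit 5) (nat_lit 98973) (nat_lit 7) (node (nat_lit 4) (nat_lit 101907)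
  (nat_lit 8) (node (nat_lit 5) (nat_lit 103067) (nat_lit 9) nil nil) nil) nil))) (node (nat_lit
  2) (nat_lit 0) (nat_lit 6) (node (nat_lit 4) (nat_lit 88786) (nat_lit 7) (node (nat_lit 6)
  (nat_lit 91720) (nat_lit 8) (node (nat_lit 4) (nat_lit 92881) (nat_lit 9) (node (nat_lit 5)
  (nat_lit 93600) (nat_lit 10) (node (nat_lit 6) (nat_lit 94236) (nat_lit 11) (node (nat_lit 4)
  (nat_lit 94812) (nat_lit 12) (node (nat_lit 6) (nat_lit 95279) (nat_lit 13) nil nil) nil) nil)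
  nil) (node (nat_lit 5) (nat_lit 99565) (nat_lit 9) nil nil)) nil) (node (nat_lit 6) (nat_lit
  88786) (nat_lit 7) (node (nat_lit 4) (nat_lit 91720) (nat_lit 8) (node (nat_lit 5) (nat_lit
  76110) (nat_lit 9) (node (nat_lit 6) (nat_lit 68323) (nat_lit 10) (node (nat_lit 4) (nat_lit
  65111) (nat_lit 11) nil nil) nil) nil) nil) (node (nat_lit 5) (nat_lit 97267) (nat_lit 7) (node
  (nat_lit 4) (nat_lit 100618) (nat_lit 8) (node (nat_lit 5) (nat_lit 96832) (nat_lit 9) nil nil)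
  nil) (node (nat_lit 0) (nat_lit 97096) (nat_lit 7) nil nil)))) (node (nat_lit 5) (nat_lit 0)
  (nat_lit 6) (node (nat_lit 4) (nat_lit 89349) (nat_lit 7) (node (nat_lit 5) (nat_lit 97038)
  (nat_lit 8) (node (nat_lit 6) (nat_lit 84757) (nat_lit 9) (node (nat_lit 4) (nat_lit 45182)
  (nat_lit 10) nil nil) nil) (node (nat_lit 6) (nat_lit 96792) (nat_lit 8) nil nil)) (node
  (nat_lit 0) (nat_lit 98973) (nat_lit 7) nil (node (nat_lit 6) (nat_lit 0) (nat_lit 7) (node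
  (nat_lit 4) (nat_lit 96792) (nat_lit 8) nil (node (nat_lit 2) (nat_lit 101080) (nat_lit 8) nil
  (node (nat_lit 0) (nat_lit 102002) (nat_lit 8) nil nil))) (node (nat_lit 2) (nat_lit 98822)
  (nat_lit 7) nil nil)))) nil))) nil)))) t156)) (node (nat_lit 4) (nat_lit 0) (nat_lit 3) (node
  (nat_lit 0) (nat_lit 0) (nat_lit 4) (node (nat_lit 3) (nat_lit 0) (nat_lit 5) (node (nat_lit 7)
  (nat_lit 72728) (nat_lit 6) nil (node (nat_lit 4) (nat_lit 72728) (nat_lit 6) (node (nat_lit 7)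
  (nat_lit 73011) (nat_lit 7) (node (nat_lit 4) (nat_lit 73207) (nat_lit 8) (node (nat_lit 8)
  (nat_lit 73207) (nat_lit 9) (node (nat_lit 4) (nat_lit 73423) (nat_lit 10) (node (nat_lit 5)
  (nat_lit 73423) (nat_lit 11) (node (nat_lit 4) (nat_lit 73581) (nat_lit 12) (node (nat_lit 7)
  (nat_lit 73641) (nat_lit 13) (node (nat_lit 8) (nat_lit 73641) (nat_lit 14) (node (nat_lit 4)
  (nat_lit 73723) (nat_lit 15) nil nil) nil) nil) nil) nil) nil) nil) nil) (node (nat_lit 8)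
  (nat_lit 72728) (nat_lit 7) (node (nat_lit 5) (nat_lit 72728) (nat_lit 8) (node (nat_lit 4)
  (nat_lit 73330) (nat_lit 9) (node (nat_lit 7) (nat_lit 73423) (nat_lit 10) (node (nat_lit 8)
  (nat_lit 73423) (nat_lit 11) nil nil) nil) nil) nil) (node (nat_lit 5) (nat_lit 72728) (nat_lit
  7) (node (nat_lit 4) (nat_lit 73207) (nat_lit 8) nil nil) nil))) (node (nat_lit 5) (nat_lit
  69549) (nat_lit 6) (node (nat_lit 7) (nat_lit 71385) (nat_lit 7) nil (node (nat_lit 8) (nat_lit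
  69549) (nat_lit 7) (node (nat_lit 4) (nat_lit 68181) (nat_lit 8) (node (nat_lit 5) (nat_lit
  59076) (nat_lit 9) (node (nat_lit 4) (nat_lit 49455) (nat_lit 10) nil nil) nil) nil) nil)) (node
  (nat_lit 0) (nat_lit 71103) (nat_lit 6) nil (node (nat_lit 2) (nat_lit 69549) (nat_lit 6) (node
  (nat_lit 4) (nat_lit 71385) (nat_lit 7) (node (nat_lit 8) (nat_lit 71385) (nat_lit 8) nil nil)
  (node (nat_lit 8) (nat_lit 65704) (nat_lit 7) (node (nat_lit 4) (nat_lit 60862) (nat_lit 8) nil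
  nil) (node (nat_lit 5) (nat_lit 68771) (nat_lit 7) (node (nat_lit 8) (nat_lit 68270) (nat_lit 8)
  nil nil) nil))) nil))))) (node (nat_lit 5) (nat_lit 0) (nat_lit 5) (node (nat_lit 7) (nat_lit
  74782) (nat_lit 6) (node (nat_lit 4) (nat_lit 75064) (nat_lit 7) nil nil) (node (nat_lit 4)
  (nat_lit 72610) (nat_lit 6) nil (node (nat_lit 3) (nat_lit 69430) (nat_lit 6) (node (nat_lit 4)
  (nat_lit 67888) (nat_lit 7) (node (nat_lit 5) (nat_lit 52867) (nat_lit 8) (node (nat_lit 4)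
  (nat_lit 31608) (nat_lit 9) nil nil) nil) nil) (node (nat_lit 0) (nat_lit 72610) (nat_lit 6) nil
  (node (nat_lit 2) (nat_lit 68397) (nat_lit 6) (node (nat_lit 5) (nat_lit 64558) (nat_lit 7) nil
  nil) nil))))) (node (nat_lit 4) (nat_lit 0) (nat_lit 5) (node (nat_lit 3) (nat_lit 74138)
  (nat_lit 6) (node (nat_lit 4) (nat_lit 74978) (nat_lit 7) (node (nat_lit 5) (nat_lit 74978)
  (nat_lit 8) (node (nat_lit 4) (nat_lit 75298) (nat_lit 9) nil nil) nil) nil) (node (nat_lit 5)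
  (nat_lit 74138) (nat_lit 6) nil (node (nat_lit 0) (nat_lit 74696) (nat_lit 6) nil (node (nat_lit
  2) (nat_lit 74138) (nat_lit 6) nil nil)))) (node (nat_lit 0) (nat_lit 73311) (nat_lit 5) (node
  (nat_lit 7) (nat_lit 74568) (nat_lit 6) nil (node (nat_lit 3) (nat_lit 74010) (nat_lit 6) nil
  (node (nat_lit 5) (nat_lit 68563) (nat_lit 6) nil nil))) (node (nat_lit 2) (nat_lit 68149)
  (nat_lit 5) (node (nat_lit 7) (nat_lit 72467) (nat_lit 6) nil (node (nat_lit 4) (nat_lit 72467)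
  (nat_lit 6) nil (node (nat_lit 5) (nat_lit 69549) (nat_lit 6) nil (node (nat_lit 3) (nat_lit
  68149) (nat_lit 6) (node (nat_lit 4) (nat_lit 65063) (nat_lit 7) (node (nat_lit 5) (nat_lit
  35170) (nat_lit 8) nil nil) nil) nil)))) nil))))) t157) t158)) nil) nil))

noncomputable def t474 : Tr :=
  (node (nat_lit 6) (nat_lit 0) (nat_lit 5) (node (nat_lit 5) (nat_lit 0) (nat_lit 6) (node
  (nat_lit 6) (nat_lit 0) (nat_lit 7) (node (nat_lit 0) (nat_lit 0) (nat_lit 8) (node (nat_lit 4)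
  (nat_lit 0) (nat_lit 9) (node (nat_lit 6) (nat_lit 80160) (nat_lit 10) (node (nat_lit 4)
  (nat_lit 84079) (nat_lit 11) (node (nat_lit 5) (nat_lit 86018) (nat_lit 12) (node (nat_lit 6)
  (nat_lit 90477) (nat_lit 13) (node (nat_lit 5) (nat_lit 91327) (nat_lit 14) (node (nat_lit 4)
  (nat_lit 90809) (nat_lit 15) nil nil) nil) (node (nat_lit 4) (nat_lit 88634) (nat_lit 13) (node
  (nat_lit 6) (nat_lit 86822) (nat_lit 14) nil nil) nil)) (node (nat_lit 11) (nat_lit 87125)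
  (nat_lit 12) nil nil)) (node (nat_lit 5) (nat_lit 83516) (nat_lit 11) (node (nat_lit 4) (nat_lit
  85547) (nat_lit 12) (node (nat_lit 5) (nat_lit 86959) (nat_lit 13) nil (node (nat_lit 6)
  (nat_lit 86959) (nat_lit 13) nil nil)) (node (nat_lit 6) (nat_lit 86556) (nat_lit 12) (node
  (nat_lit 4) (nat_lit 87968) (nat_lit 13) nil nil) nil)) (node (nat_lit 11) (nat_lit 88830)
  (nat_lit 11) nil nil))) (node (nat_lit 5) (nat_lit 80375) (nat_lit 10) (node (nat_lit 6)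
  (nat_lit 84909) (nat_lit 11) (node (nat_lit 4) (nat_lit 87656) (nat_lit 12) (node (nat_lit 6)
  (nat_lit 89728) (nat_lit 13) (node (nat_lit 5) (nat_lit 91094) (nat_lit 14) nil nil) (node
  (nat_lit 5) (nat_lit 89189) (nat_lit 13) nil nil)) (node (nat_lit 5) (nat_lit 88064) (nat_lit
  12) (node (nat_lit 4) (nat_lit 89875) (nat_lit 13) nil nil) nil)) (node (nat_lit 4) (nat_lit
  84333) (nat_lit 11) (node (nat_lit 6) (nat_lit 87743) (nat_lit 12) (node (nat_lit 5) (nat_lit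
  90961) (nat_lit 13) nil (node (nat_lit 4) (nat_lit 89794) (nat_lit 13) nil nil)) nil) (node
  (nat_lit 11) (nat_lit 86399) (nat_lit 11) nil nil))) (node (nat_lit 11) (nat_lit 89100) (nat_lit
  10) (node (nat_lit 6) (nat_lit 89100) (nat_lit 11) (node (nat_lit 4) (nat_lit 89100) (nat_lit
  12) nil nil) (node (nat_lit 5) (nat_lit 89100) (nat_lit 11) nil nil)) (node (nat_lit 0) (nat_lit
  82335) (nat_lit 10) nil nil)))) (node (nat_lit 5) (nat_lit 0) (nat_lit 9) (node (nat_lit 4)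
  (nat_lit 79817) (nat_lit 10) (node (nat_lit 6) (nat_lit 82539) (nat_lit 11) (node (nat_lit 5)
  (nat_lit 85718) (nat_lit 12) (node (nat_lit 6) (nat_lit 88261) (nat_lit 13) (node (nat_lit 4)
  (nat_lit 88871) (nat_lit 14) nil nil) (node (nat_lit 4) (nat_lit 87130) (nat_lit 13) nil nil))
  (node (nat_lit 4) (nat_lit 86134) (nat_lit 12) (node (nat_lit 5) (nat_lit 89058) (nat_lit 13)
  nil nil) nil)) (node (nat_lit 5) (nat_lit 84059) (nat_lit 11) (node (nat_lit 6) (nat_lit 86213)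
  (nat_lit 12) (node (nat_lit 4) (nat_lit 87942) (nat_lit 13) nil (node (nat_lit 5) (nat_lit
  88810) (nat_lit 13) (node (nat_lit 4) (nat_lit 88192) (nat_lit 14) nil nil) nil)) nil) (node
  (nat_lit 11) (nat_lit 82377) (nat_lit 11) nil nil))) (node (nat_lit 6) (nat_lit 79309) (nat_lit
  10) (node (nat_lit 5) (nat_lit 84318) (nat_lit 11) (node (nat_lit 4) (nat_lit 88800) (nat_lit
  12) (node (nat_lit 6) (nat_lit 91525) (nat_lit 13) nil (node (nat_lit 5) (nat_lit 90839)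
  (nat_lit 13) (node (nat_lit 6) (nat_lit 90276) (nat_lit 14) nil nil) nil)) (node (nat_lit 11)
  (nat_lit 87364) (nat_lit 12) nil nil)) (node (nat_lit 4) (nat_lit 84992) (nat_lit 11) (node
  (nat_lit 5) (nat_lit 86201) (nat_lit 12) (node (nat_lit 4) (nat_lit 86042) (nat_lit 13) nil
  (node (nat_lit 6) (nat_lit 86158) (nat_lit 13) nil nil)) (node (nat_lit 6) (nat_lit 88614)
  (nat_lit 12) (node (nat_lit 5) (nat_lit 90025) (nat_lit 13) nil nil) nil)) nil)) (node (nat_lit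
  11) (nat_lit 88321) (nat_lit 10) (node (nat_lit 6) (nat_lit 88321) (nat_lit 11) (node (nat_lit
  5) (nat_lit 88321) (nat_lit 12) nil nil) (node (nat_lit 4) (nat_lit 88321) (nat_lit 11) nil
  nil)) (node (nat_lit 0) (nat_lit 81514) (nat_lit 10) nil nil)))) (node (nat_lit 6) (nat_lit 0)
  (nat_lit 9) (node (nat_lit 5) (nat_lit 79129) (nat_lit 10) (node (nat_lit 6) (nat_lit 82681)
  (nat_lit 11) (node (nat_lit 4) (nat_lit 82662) (nat_lit 12) (node (nat_lit 5) (nat_lit 84074)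
  (nat_lit 13) nil (node (nat_lit 6) (nat_lit 82618) (nat_lit 13) nil nil)) nil) (node (nat_lit 4)
  (nat_lit 85001) (nat_lit 11) (node (nat_lit 6) (nat_lit 88112) (nat_lit 12) nil (node (nat_lit
  5) (nat_lit 88366) (nat_lit 12) (node (nat_lit 6) (nat_lit 88323) (nat_lit 13) nil nil) nil))
  nil)) (node (nat_lit 4) (nat_lit 79731) (nat_lit 10) (node (nat_lit 6) (nat_lit 84516) (nat_lit
  11) (node (nat_lit 5) (nat_lit 84707) (nat_lit 12) (node (nat_lit 4) (nat_lit 84547) (nat_lit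
  13) nil (node (nat_lit 6) (nat_lit 86119) (nat_lit 13) nil nil)) nil) (node (nat_lit 5) (nat_lit
  85082) (nat_lit 11) (node (nat_lit 6) (nat_lit 88520) (nat_lit 12) nil (node (nat_lit 4)
  (nat_lit 85082) (nat_lit 12) nil nil)) nil)) (node (nat_lit 0) (nat_lit 79316) (nat_lit 10) nil
  nil))) (node (nat_lit 0) (nat_lit 0) (nat_lit 9) (node (nat_lit 11) (nat_lit 85709) (nat_lit 10)
  nil (node (nat_lit 6) (nat_lit 81366) (nat_lit 10) (node (nat_lit 12) (nat_lit 82513) (nat_lit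
  11) nil nil) (node (nat_lit 5) (nat_lit 81237) (nat_lit 10) nil (node (nat_lit 4) (nat_lit
  81237) (nat_lit 10) nil (node (nat_lit 0) (nat_lit 81847) (nat_lit 10) nil nil))))) nil))))
  (node (nat_lit 4) (nat_lit 0) (nat_lit 8) (node (nat_lit 0) (nat_lit 0) (nat_lit 9) (node
  (nat_lit 4) (nat_lit 0) (nat_lit 10) (node (nat_lit 5) (nat_lit 85401) (nat_lit 11) (node
  (nat_lit 6) (nat_lit 87978) (nat_lit 12) (node (nat_lit 4) (nat_lit 88292) (nat_lit 13) (node
  (nat_lit 6) (nat_lit 88451) (nat_lit 14) nil (node (nat_lit 5) (nat_lit 89711) (nat_lit 14) nil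
  nil)) (node (nat_lit 5) (nat_lit 89164) (nat_lit 13) (node (nat_lit 4) (nat_lit 89094) (nat_lit
  14) nil nil) nil)) (node (nat_lit 4) (nat_lit 87817) (nat_lit 12) (node (nat_lit 6) (nat_lit
  88948) (nat_lit 13) nil nil) (node (nat_lit 12) (nat_lit 88793) (nat_lit 12) nil (node (nat_lit
  0) (nat_lit 88793) (nat_lit 12) nil nil)))) (node (nat_lit 6) (nat_lit 84806) (nat_lit 11) (node
  (nat_lit 5) (nat_lit 86535) (nat_lit 12) (node (nat_lit 4) (nat_lit 87741) (nat_lit 13) (node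
  (nat_lit 5) (nat_lit 89160) (nat_lit 14) nil (node (nat_lit 6) (nat_lit 89160) (nat_lit 14) nil
  nil)) (node (nat_lit 6) (nat_lit 87631) (nat_lit 13) (node (nat_lit 4) (nat_lit 89051) (nat_lit
  14) nil nil) nil)) (node (nat_lit 4) (nat_lit 86868) (nat_lit 12) (node (nat_lit 5) (nat_lit
  86543) (nat_lit 13) (node (nat_lit 6) (nat_lit 86702) (nat_lit 14) nil nil) (node (nat_lit 12)
  (nat_lit 90935) (nat_lit 13) nil nil)) (node (nat_lit 12) (nat_lit 90900) (nat_lit 12) nil (node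
  (nat_lit 0) (nat_lit 88198) (nat_lit 12) nil nil)))) (node (nat_lit 0) (nat_lit 89859) (nat_lit
  11) nil nil))) (node (nat_lit 6) (nat_lit 81775) (nat_lit 10) (node (nat_lit 12) (nat_lit 91145)
  (nat_lit 11) nil (node (nat_lit 4) (nat_lit 85313) (nat_lit 11) (node (nat_lit 6) (nat_lit
  85313) (nat_lit 12) nil nil) (node (nat_lit 5) (nat_lit 81775) (nat_lit 11) nil nil))) (node
  (nat_lit 5) (nat_lit 81843) (nat_lit 10) (node (nat_lit 4) (nat_lit 81843) (nat_lit 11) nil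
  (node (nat_lit 12) (nat_lit 84370) (nat_lit 11) nil nil)) (node (nat_lit 0) (nat_lit 86848)
  (nat_lit 10) nil nil)))) (node (nat_lit 5) (nat_lit 0) (nat_lit 9) (node (nat_lit 0) (nat_lit
  87836) (nat_lit 10) (node (nat_lit 4) (nat_lit 89467) (nat_lit 11) (node (nat_lit 5) (nat_lit
  91577) (nat_lit 12) (node (nat_lit 6) (nat_lit 91232) (nat_lit 13) (node (nat_lit 5) (nat_lit
  91232) (nat_lit 14) nil (node (nat_lit 4) (nat_lit 91232) (nat_lit 14) nil nil)) (node (nat_lit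
  4) (nat_lit 93702) (nat_lit 13) (node (nat_lit 6) (nat_lit 93702) (nat_lit 14) nil nil) nil))
  nil) (node (nat_lit 5) (nat_lit 87836) (nat_lit 11) nil nil)) nil) nil)) nil)) (node (nat_lit 4)
  (nat_lit 0) (nat_lit 7) (node (nat_lit 0) (nat_lit 0) (nat_lit 8) (node (nat_lit 6) (nat_lit
  68136) (nat_lit 9) (node (nat_lit 5) (nat_lit 70264) (nat_lit 10) (node (nat_lit 4) (nat_lit
  71000) (nat_lit 11) nil (node (nat_lit 6) (nat_lit 70264) (nat_lit 11) nil nil)) (node (nat_lit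
  4) (nat_lit 69028) (nat_lit 10) (node (nat_lit 6) (nat_lit 69596) (nat_lit 11) (node (nat_lit 5)
  (nat_lit 69596) (nat_lit 12) nil nil) (node (nat_lit 5) (nat_lit 69028) (nat_lit 11) nil (node
  (nat_lit 11) (nat_lit 71588) (nat_lit 11) nil nil))) (node (nat_lit 11) (nat_lit 75849) (nat_lit
  10) nil nil))) (node (nat_lit 5) (nat_lit 68328) (nat_lit 9) (node (nat_lit 4) (nat_lit 69765)
  (nat_lit 10) (node (nat_lit 5) (nat_lit 71511) (nat_lit 11) (node (nat_lit 6) (nat_lit 71511)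
  (nat_lit 12) nil nil) (node (nat_lit 6) (nat_lit 69765) (nat_lit 11) nil nil)) (node (nat_lit 6)
  (nat_lit 68475) (nat_lit 10) (node (nat_lit 4) (nat_lit 68475) (nat_lit 11) nil (node (nat_lit
  5) (nat_lit 68475) (nat_lit 11) nil nil)) (node (nat_lit 11) (nat_lit 76041) (nat_lit 10) nil
  nil))) (node (nat_lit 4) (nat_lit 68711) (nat_lit 9) (node (nat_lit 5) (nat_lit 70744) (nat_lit
  10) (node (nat_lit 4) (nat_lit 70744) (nat_lit 11) nil (node (nat_lit 6) (nat_lit 70744)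
  (nat_lit 11) nil nil)) (node (nat_lit 6) (nat_lit 69759) (nat_lit 10) (node (nat_lit 4) (nat_lit
  69759) (nat_lit 11) nil (node (nat_lit 5) (nat_lit 69759) (nat_lit 11) nil nil)) nil)) (node
  (nat_lit 0) (nat_lit 72812) (nat_lit 9) nil nil)))) (node (nat_lit 6) (nat_lit 0) (nat_lit 8)
  (node (nat_lit 0) (nat_lit 63436) (nat_lit 9) (node (nat_lit 6) (nat_lit 0) (nat_lit 10) (node
  (nat_lit 5) (nat_lit 65930) (nat_lit 11) (node (nat_lit 4) (nat_lit 65930) (nat_lit 12) nil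
  (node (nat_lit 6) (nat_lit 65930) (nat_lit 12) nil (node (nat_lit 12) (nat_lit 69322) (nat_lit
  12) nil nil))) (node (nat_lit 4) (nat_lit 65706) (nat_lit 11) (node (nat_lit 12) (nat_lit 71801)
  (nat_lit 12) nil (node (nat_lit 5) (nat_lit 65706) (nat_lit 12) nil (node (nat_lit 6) (nat_lit
  65706) (nat_lit 12) nil nil))) (node (nat_lit 0) (nat_lit 69037) (nat_lit 11) nil nil))) (node
  (nat_lit 4) (nat_lit 64784) (nat_lit 10) (node (nat_lit 12) (nat_lit 67311) (nat_lit 11) nil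
  nil) (node (nat_lit 0) (nat_lit 64856) (nat_lit 10) nil nil))) (node (nat_lit 4) (nat_lit 0)
  (nat_lit 9) (node (nat_lit 0) (nat_lit 65117) (nat_lit 10) (node (nat_lit 6) (nat_lit 65946)
  (nat_lit 11) (node (nat_lit 4) (nat_lit 66904) (nat_lit 12) (node (nat_lit 6) (nat_lit 66904)
  (nat_lit 13) nil (node (nat_lit 5) (nat_lit 66904) (nat_lit 13) nil nil)) nil) (node (nat_lit 4)
  (nat_lit 65117) (nat_lit 11) nil nil)) nil) nil)) (node (nat_lit 5) (nat_lit 0) (nat_lit 8)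
  (node (nat_lit 0) (nat_lit 71961) (nat_lit 9) (node (nat_lit 5) (nat_lit 72244) (nat_lit 10)
  (node (nat_lit 4) (nat_lit 72244) (nat_lit 11) nil (node (nat_lit 6) (nat_lit 72244) (nat_lit
  11) nil nil)) (node (nat_lit 4) (nat_lit 71961) (nat_lit 10) nil nil)) (node (nat_lit 6)
  (nat_lit 0) (nat_lit 9) (node (nat_lit 0) (nat_lit 64828) (nat_lit 10) nil nil) nil)) nil)))
  (node (nat_lit 0) (nat_lit 0) (nat_lit 7) (node (nat_lit 4) (nat_lit 66789) (nat_lit 8) (node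
  (nat_lit 5) (nat_lit 72344) (nat_lit 9) (node (nat_lit 6) (nat_lit 75142) (nat_lit 10) (node
  (nat_lit 4) (nat_lit 74975) (nat_lit 11) nil (node (nat_lit 5) (nat_lit 75926) (nat_lit 11)
  (node (nat_lit 4) (nat_lit 76261) (nat_lit 12) nil nil) nil)) (node (nat_lit 4) (nat_lit 76812)
  (nat_lit 10) (node (nat_lit 6) (nat_lit 76812) (nat_lit 11) nil nil) nil)) (node (nat_lit 6)
  (nat_lit 71315) (nat_lit 9) (node (nat_lit 5) (nat_lit 74086) (nat_lit 10) (node (nat_lit 4)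
  (nat_lit 74869) (nat_lit 11) nil (node (nat_lit 6) (nat_lit 74869) (nat_lit 11) nil nil)) (node
  (nat_lit 4) (nat_lit 73191) (nat_lit 10) (node (nat_lit 5) (nat_lit 73191) (nat_lit 11) nil nil)
  nil)) (node (nat_lit 10) (nat_lit 72669) (nat_lit 9) nil nil))) (node (nat_lit 6) (nat_lit
  66115) (nat_lit 8) (node (nat_lit 4) (nat_lit 71412) (nat_lit 9) (node (nat_lit 5) (nat_lit
  74601) (nat_lit 10) (node (nat_lit 6) (nat_lit 75385) (nat_lit 11) (node (nat_lit 5) (nat_lit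
  77852) (nat_lit 12) nil nil) (node (nat_lit 4) (nat_lit 73816) (nat_lit 11) (node (nat_lit 6)
  (nat_lit 74255) (nat_lit 12) nil nil) nil)) (node (nat_lit 6) (nat_lit 72184) (nat_lit 10) (node
  (nat_lit 5) (nat_lit 72184) (nat_lit 11) nil nil) nil)) (node (nat_lit 5) (nat_lit 71806)
  (nat_lit 9) (node (nat_lit 4) (nat_lit 76027) (nat_lit 10) (node (nat_lit 5) (nat_lit 75860)
  (nat_lit 11) (node (nat_lit 6) (nat_lit 76299) (nat_lit 12) nil nil) (node (nat_lit 6) (nat_lit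
  76027) (nat_lit 11) nil nil)) (node (nat_lit 6) (nat_lit 76082) (nat_lit 10) nil nil)) (node
  (nat_lit 10) (nat_lit 75987) (nat_lit 9) nil nil))) (node (nat_lit 5) (nat_lit 66278) (nat_lit
  8) (node (nat_lit 4) (nat_lit 72480) (nat_lit 9) (node (nat_lit 6) (nat_lit 75666) (nat_lit 10)
  (node (nat_lit 4) (nat_lit 75666) (nat_lit 11) (node (nat_lit 5) (nat_lit 78133) (nat_lit 12)
  nil nil) (node (nat_lit 5) (nat_lit 75666) (nat_lit 11) (node (nat_lit 6) (nat_lit 78133)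
  (nat_lit 12) nil nil) nil)) (node (nat_lit 5) (nat_lit 74720) (nat_lit 10) (node (nat_lit 6)
  (nat_lit 74720) (nat_lit 11) nil nil) nil)) (node (nat_lit 6) (nat_lit 71444) (nat_lit 9) (node
  (nat_lit 4) (nat_lit 75850) (nat_lit 10) (node (nat_lit 5) (nat_lit 74228) (nat_lit 11) nil
  (node (nat_lit 6) (nat_lit 76633) (nat_lit 11) nil nil)) (node (nat_lit 5) (nat_lit 73684)
  (nat_lit 10) nil nil)) nil)) (node (nat_lit 0) (nat_lit 66266) (nat_lit 8) nil nil)))) nil)))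
  nil) (node (nat_lit 5) (nat_lit 0) (nat_lit 5) (node (nat_lit 4) (nat_lit 0) (nat_lit 6) (node
  (nat_lit 6) (nat_lit 0) (nat_lit 7) (node (nat_lit 0) (nat_lit 0) (nat_lit 8) (node (nat_lit 5)
  (nat_lit 63386) (nat_lit 9) (node (nat_lit 6) (nat_lit 63386) (nat_lit 10) (node (nat_lit 5)
  (nat_lit 63386) (nat_lit 11) nil (node (nat_lit 4) (nat_lit 63386) (nat_lit 11) nil nil)) (node
  (nat_lit 4) (nat_lit 63386) (nat_lit 10) (node (nat_lit 6) (nat_lit 63386) (nat_lit 11) nil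
  (node (nat_lit 5) (nat_lit 63386) (nat_lit 11) nil nil)) (node (nat_lit 11) (nat_lit 63386)
  (nat_lit 10) nil nil))) (node (nat_lit 4) (nat_lit 63386) (nat_lit 9) (node (nat_lit 6) (nat_lit
  63386) (nat_lit 10) (node (nat_lit 4) (nat_lit 63386) (nat_lit 11) (node (nat_lit 5) (nat_lit
  63386) (nat_lit 12) nil nil) (node (nat_lit 5) (nat_lit 63386) (nat_lit 11) nil nil)) (node
  (nat_lit 5) (nat_lit 63386) (nat_lit 10) (node (nat_lit 6) (nat_lit 63386) (nat_lit 11) nil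
  (node (nat_lit 4) (nat_lit 63386) (nat_lit 11) nil nil)) (node (nat_lit 11) (nat_lit 63386)
  (nat_lit 10) nil nil))) (node (nat_lit 6) (nat_lit 0) (nat_lit 9) (node (nat_lit 4) (nat_lit
  63386) (nat_lit 10) (node (nat_lit 6) (nat_lit 63386) (nat_lit 11) nil (node (nat_lit 5)
  (nat_lit 63386) (nat_lit 11) nil nil)) (node (nat_lit 5) (nat_lit 63386) (nat_lit 10) (node
  (nat_lit 4) (nat_lit 63386) (nat_lit 11) nil (node (nat_lit 6) (nat_lit 63386) (nat_lit 11) nil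
  nil)) (node (nat_lit 0) (nat_lit 63386) (nat_lit 10) nil nil))) (node (nat_lit 0) (nat_lit
  63386) (nat_lit 9) nil nil)))) (node (nat_lit 5) (nat_lit 0) (nat_lit 8) (node (nat_lit 0)
  (nat_lit 60341) (nat_lit 9) (node (nat_lit 5) (nat_lit 0) (nat_lit 10) (node (nat_lit 6)
  (nat_lit 60341) (nat_lit 11) nil (node (nat_lit 4) (nat_lit 60341) (nat_lit 11) nil (node
  (nat_lit 0) (nat_lit 61464) (nat_lit 11) nil nil))) (node (nat_lit 6) (nat_lit 60181) (nat_lit
  10) nil (node (nat_lit 0) (nat_lit 60971) (nat_lit 10) nil nil))) (node (nat_lit 6) (nat_lit 0)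
  (nat_lit 9) (node (nat_lit 0) (nat_lit 63386) (nat_lit 10) (node (nat_lit 5) (nat_lit 63386)
  (nat_lit 11) nil nil) nil) (node (nat_lit 4) (nat_lit 0) (nat_lit 9) (node (nat_lit 0) (nat_lit
  55287) (nat_lit 10) (node (nat_lit 5) (nat_lit 55287) (nat_lit 11) nil nil) nil) nil))) (node
  (nat_lit 4) (nat_lit 0) (nat_lit 8) (node (nat_lit 0) (nat_lit 63386) (nat_lit 9) (node (nat_lit
  4) (nat_lit 63386) (nat_lit 10) nil nil) (node (nat_lit 5) (nat_lit 0) (nat_lit 9) (node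
  (nat_lit 0) (nat_lit 61374) (nat_lit 10) nil nil) nil)) nil))) (node (nat_lit 0) (nat_lit 0)
  (nat_lit 7) (node (nat_lit 4) (nat_lit 60517) (nat_lit 8) (node (nat_lit 6) (nat_lit 60850)
  (nat_lit 9) (node (nat_lit 5) (nat_lit 60850) (nat_lit 10) (node (nat_lit 4) (nat_lit 60850)
  (nat_lit 11) nil (node (nat_lit 6) (nat_lit 60850) (nat_lit 11) nil nil)) nil) (node (nat_lit 5)
  (nat_lit 62018) (nat_lit 9) (node (nat_lit 6) (nat_lit 62018) (nat_lit 10) (node (nat_lit 4)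
  (nat_lit 62018) (nat_lit 11) nil nil) nil) nil)) (node (nat_lit 6) (nat_lit 60490) (nat_lit 8)
  (node (nat_lit 5) (nat_lit 61582) (nat_lit 9) (node (nat_lit 4) (nat_lit 61582) (nat_lit 10) nil
  nil) (node (nat_lit 4) (nat_lit 61409) (nat_lit 9) (node (nat_lit 5) (nat_lit 61409) (nat_lit
  10) nil nil) nil)) (node (nat_lit 5) (nat_lit 60717) (nat_lit 8) (node (nat_lit 4) (nat_lit
  62463) (nat_lit 9) (node (nat_lit 6) (nat_lit 62463) (nat_lit 10) nil nil) (node (nat_lit 6)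
  (nat_lit 61285) (nat_lit 9) nil nil)) (node (nat_lit 0) (nat_lit 59877) (nat_lit 8) nil nil))))
  nil)) nil) nil))

noncomputable def t475 : Tr :=
  (node (nat_lit 3) (nat_lit 0) (nat_lit 3) (node (nat_lit 4) (nat_lit 0) (nat_lit 4) t474 (node
  (nat_lit 5) (nat_lit 0) (nat_lit 4) (node (nat_lit 4) (nat_lit 0) (nat_lit 5) (node (nat_lit 5)
  (nat_lit 0) (nat_lit 6) (node (nat_lit 6) (nat_lit 0) (nat_lit 7) (node (nat_lit 0) (nat_lit 0)
  (nat_lit 8) (node (nat_lit 4) (nat_lit 61348) (nat_lit 9) (node (nat_lit 6) (nat_lit 63300)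
  (nat_lit 10) (node (nat_lit 4) (nat_lit 64166) (nat_lit 11) (node (nat_lit 5) (nat_lit 64826)
  (nat_lit 12) (node (nat_lit 6) (nat_lit 65620) (nat_lit 13) nil nil) nil) (node (nat_lit 5)
  (nat_lit 64432) (nat_lit 11) (node (nat_lit 4) (nat_lit 64432) (nat_lit 12) nil nil) (node
  (nat_lit 11) (nat_lit 64715) (nat_lit 11) nil nil))) (node (nat_lit 5) (nat_lit 62643) (nat_lit
  10) (node (nat_lit 6) (nat_lit 62596) (nat_lit 11) (node (nat_lit 4) (nat_lit 62596) (nat_lit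
  12) nil nil) (node (nat_lit 4) (nat_lit 63830) (nat_lit 11) (node (nat_lit 6) (nat_lit 63761)
  (nat_lit 12) nil nil) nil)) (node (nat_lit 11) (nat_lit 67178) (nat_lit 10) nil nil))) (node
  (nat_lit 5) (nat_lit 61173) (nat_lit 9) (node (nat_lit 6) (nat_lit 63200) (nat_lit 10) (node
  (nat_lit 5) (nat_lit 64879) (nat_lit 11) (node (nat_lit 4) (nat_lit 66398) (nat_lit 12) (node
  (nat_lit 6) (nat_lit 67178) (nat_lit 13) nil nil) nil) (node (nat_lit 4) (nat_lit 62108)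
  (nat_lit 11) (node (nat_lit 5) (nat_lit 62268) (nat_lit 12) nil (node (nat_lit 6) (nat_lit
  62108) (nat_lit 12) nil nil)) nil)) (node (nat_lit 4) (nat_lit 63747) (nat_lit 10) (node
  (nat_lit 6) (nat_lit 64879) (nat_lit 11) (node (nat_lit 5) (nat_lit 64879) (nat_lit 12) nil nil)
  (node (nat_lit 5) (nat_lit 64879) (nat_lit 11) nil nil)) (node (nat_lit 11) (nat_lit 67178)
  (nat_lit 10) nil nil))) (node (nat_lit 6) (nat_lit 0) (nat_lit 9) (node (nat_lit 4) (nat_lit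
  62928) (nat_lit 10) (node (nat_lit 5) (nat_lit 62928) (nat_lit 11) nil (node (nat_lit 6)
  (nat_lit 62928) (nat_lit 11) nil nil)) (node (nat_lit 5) (nat_lit 63080) (nat_lit 10) (node
  (nat_lit 6) (nat_lit 63080) (nat_lit 11) nil (node (nat_lit 4) (nat_lit 63080) (nat_lit 11) nil
  nil)) (node (nat_lit 0) (nat_lit 61587) (nat_lit 10) nil nil))) (node (nat_lit 0) (nat_lit
  65387) (nat_lit 9) nil nil)))) (node (nat_lit 4) (nat_lit 0) (nat_lit 8) (node (nat_lit 0)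
  (nat_lit 63807) (nat_lit 9) (node (nat_lit 4) (nat_lit 0) (nat_lit 10) (node (nat_lit 6)
  (nat_lit 63647) (nat_lit 11) nil (node (nat_lit 5) (nat_lit 63647) (nat_lit 11) nil (node
  (nat_lit 0) (nat_lit 67022) (nat_lit 11) nil nil))) (node (nat_lit 6) (nat_lit 64514) (nat_lit
  10) nil nil)) (node (nat_lit 6) (nat_lit 0) (nat_lit 9) (node (nat_lit 0) (nat_lit 67178)
  (nat_lit 10) (node (nat_lit 4) (nat_lit 67178) (nat_lit 11) nil nil) nil) (node (nat_lit 5)
  (nat_lit 0) (nat_lit 9) (node (nat_lit 0) (nat_lit 67178) (nat_lit 10) (node (nat_lit 4)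
  (nat_lit 67178) (nat_lit 11) nil nil) nil) nil))) nil)) (node (nat_lit 0) (nat_lit 0) (nat_lit
  7) (node (nat_lit 5) (nat_lit 55936) (nat_lit 8) (node (nat_lit 6) (nat_lit 59295) (nat_lit 9)
  (node (nat_lit 4) (nat_lit 62633) (nat_lit 10) (node (nat_lit 5) (nat_lit 62590) (nat_lit 11)
  (node (nat_lit 4) (nat_lit 62006) (nat_lit 12) nil nil) (node (nat_lit 6) (nat_lit 62473)
  (nat_lit 11) (node (nat_lit 5) (nat_lit 61889) (nat_lit 12) nil nil) nil)) (node (nat_lit 5)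
  (nat_lit 59295) (nat_lit 10) nil nil)) (node (nat_lit 4) (nat_lit 59718) (nat_lit 9) (node
  (nat_lit 6) (nat_lit 62579) (nat_lit 10) (node (nat_lit 5) (nat_lit 63991) (nat_lit 11) nil
  (node (nat_lit 4) (nat_lit 63991) (nat_lit 11) (node (nat_lit 5) (nat_lit 65539) (nat_lit 12)
  nil nil) nil)) (node (nat_lit 5) (nat_lit 59718) (nat_lit 10) nil nil)) nil)) (node (nat_lit 6)
  (nat_lit 55547) (nat_lit 8) (node (nat_lit 4) (nat_lit 58873) (nat_lit 9) (node (nat_lit 5)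
  (nat_lit 61065) (nat_lit 10) (node (nat_lit 4) (nat_lit 63115) (nat_lit 11) (node (nat_lit 6)
  (nat_lit 64663) (nat_lit 12) nil nil) (node (nat_lit 6) (nat_lit 62476) (nat_lit 11) nil nil))
  (node (nat_lit 6) (nat_lit 60745) (nat_lit 10) nil nil)) (node (nat_lit 5) (nat_lit 59028)
  (nat_lit 9) (node (nat_lit 4) (nat_lit 61916) (nat_lit 10) (node (nat_lit 5) (nat_lit 63327)
  (nat_lit 11) nil (node (nat_lit 6) (nat_lit 61756) (nat_lit 11) nil nil)) (node (nat_lit 6)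
  (nat_lit 59028) (nat_lit 10) nil nil)) (node (nat_lit 10) (nat_lit 66968) (nat_lit 9) nil nil)))
  (node (nat_lit 4) (nat_lit 56111) (nat_lit 8) (node (nat_lit 5) (nat_lit 59777) (nat_lit 9)
  (node (nat_lit 6) (nat_lit 61740) (nat_lit 10) (node (nat_lit 5) (nat_lit 61698) (nat_lit 11)
  nil (node (nat_lit 4) (nat_lit 61740) (nat_lit 11) nil nil)) (node (nat_lit 4) (nat_lit 59777)
  (nat_lit 10) nil nil)) (node (nat_lit 6) (nat_lit 59515) (nat_lit 9) (node (nat_lit 5) (nat_lit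
  62856) (nat_lit 10) (node (nat_lit 6) (nat_lit 64268) (nat_lit 11) nil (node (nat_lit 4)
  (nat_lit 64268) (nat_lit 11) nil nil)) (node (nat_lit 4) (nat_lit 59515) (nat_lit 10) nil nil))
  (node (nat_lit 10) (nat_lit 67178) (nat_lit 9) nil nil))) (node (nat_lit 0) (nat_lit 55160)
  (nat_lit 8) nil nil)))) nil)) (node (nat_lit 6) (nat_lit 0) (nat_lit 6) (node (nat_lit 0)
  (nat_lit 0) (nat_lit 7) (node (nat_lit 5) (nat_lit 93196) (nat_lit 8) (node (nat_lit 4) (nat_lit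
  97347) (nat_lit 9) (node (nat_lit 6) (nat_lit 98879) (nat_lit 10) nil (node (nat_lit 5) (nat_lit
  97347) (nat_lit 10) nil nil)) (node (nat_lit 6) (nat_lit 97063) (nat_lit 9) (node (nat_lit 4)
  (nat_lit 97063) (nat_lit 10) nil (node (nat_lit 5) (nat_lit 97063) (nat_lit 10) nil nil)) (node
  (nat_lit 10) (nat_lit 100200) (nat_lit 9) nil nil))) (node (nat_lit 6) (nat_lit 92252) (nat_lit
  8) (node (nat_lit 5) (nat_lit 96142) (nat_lit 9) (node (nat_lit 4) (nat_lit 97122) (nat_lit 10)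
  (node (nat_lit 5) (nat_lit 97122) (nat_lit 11) nil (node (nat_lit 6) (nat_lit 97122) (nat_lit
  11) nil nil)) (node (nat_lit 6) (nat_lit 96142) (nat_lit 10) nil nil)) (node (nat_lit 4)
  (nat_lit 96297) (nat_lit 9) (node (nat_lit 5) (nat_lit 97047) (nat_lit 10) (node (nat_lit 4)
  (nat_lit 97047) (nat_lit 11) nil nil) (node (nat_lit 6) (nat_lit 96297) (nat_lit 10) nil nil))
  nil)) (node (nat_lit 4) (nat_lit 92768) (nat_lit 8) (node (nat_lit 5) (nat_lit 95146) (nat_lit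
  9) (node (nat_lit 6) (nat_lit 94428) (nat_lit 10) nil (node (nat_lit 4) (nat_lit 95146) (nat_lit
  10) nil nil)) (node (nat_lit 6) (nat_lit 96680) (nat_lit 9) (node (nat_lit 5) (nat_lit 96680)
  (nat_lit 10) nil (node (nat_lit 4) (nat_lit 96680) (nat_lit 10) nil nil)) (node (nat_lit 10)
  (nat_lit 99772) (nat_lit 9) nil nil))) (node (nat_lit 0) (nat_lit 92624) (nat_lit 8) nil nil))))
  (node (nat_lit 5) (nat_lit 0) (nat_lit 7) (node (nat_lit 0) (nat_lit 0) (nat_lit 8) (node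
  (nat_lit 4) (nat_lit 98162) (nat_lit 9) (node (nat_lit 5) (nat_lit 98162) (nat_lit 10) nil (node
  (nat_lit 11) (nat_lit 102711) (nat_lit 10) nil (node (nat_lit 6) (nat_lit 98162) (nat_lit 10)
  nil nil))) (node (nat_lit 6) (nat_lit 98262) (nat_lit 9) (node (nat_lit 11) (nat_lit 102811)
  (nat_lit 10) nil (node (nat_lit 5) (nat_lit 98262) (nat_lit 10) nil (node (nat_lit 4) (nat_lit
  98262) (nat_lit 10) nil nil))) (node (nat_lit 5) (nat_lit 99726) (nat_lit 9) nil (node (nat_lit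
  0) (nat_lit 101484) (nat_lit 9) nil nil)))) (node (nat_lit 6) (nat_lit 0) (nat_lit 8) (node
  (nat_lit 4) (nat_lit 0) (nat_lit 9) (node (nat_lit 0) (nat_lit 96509) (nat_lit 10) (node
  (nat_lit 6) (nat_lit 97576) (nat_lit 11) (node (nat_lit 4) (nat_lit 99543) (nat_lit 12) (node
  (nat_lit 5) (nat_lit 99897) (nat_lit 13) nil (node (nat_lit 6) (nat_lit 100698) (nat_lit 13) nil
  nil)) nil) (node (nat_lit 4) (nat_lit 96509) (nat_lit 11) nil nil)) nil) (node (nat_lit 0)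
  (nat_lit 103188) (nat_lit 9) (node (nat_lit 6) (nat_lit 103188) (nat_lit 10) nil nil) nil))
  nil)) (node (nat_lit 4) (nat_lit 0) (nat_lit 7) (node (nat_lit 0) (nat_lit 0) (nat_lit 8) (node
  (nat_lit 5) (nat_lit 98705) (nat_lit 9) (node (nat_lit 4) (nat_lit 100933) (nat_lit 10) (node
  (nat_lit 6) (nat_lit 100933) (nat_lit 11) nil (node (nat_lit 5) (nat_lit 100933) (nat_lit 11)
  nil nil)) (node (nat_lit 6) (nat_lit 99236) (nat_lit 10) (node (nat_lit 4) (nat_lit 99236)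
  (nat_lit 11) nil nil) (node (nat_lit 11) (nat_lit 100727) (nat_lit 10) nil nil))) (node (nat_lit
  6) (nat_lit 99169) (nat_lit 9) (node (nat_lit 4) (nat_lit 101411) (nat_lit 10) (node (nat_lit 5)
  (nat_lit 101411) (nat_lit 11) nil (node (nat_lit 6) (nat_lit 101411) (nat_lit 11) nil nil))
  (node (nat_lit 5) (nat_lit 99699) (nat_lit 10) (node (nat_lit 4) (nat_lit 99699) (nat_lit 11)
  nil nil) (node (nat_lit 11) (nat_lit 101191) (nat_lit 10) nil nil))) (node (nat_lit 4) (nat_lit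
  99315) (nat_lit 9) (node (nat_lit 6) (nat_lit 99396) (nat_lit 10) nil (node (nat_lit 5) (nat_lit
  100518) (nat_lit 10) nil nil)) (node (nat_lit 0) (nat_lit 101591) (nat_lit 9) nil nil)))) (node
  (nat_lit 5) (nat_lit 0) (nat_lit 8) (node (nat_lit 6) (nat_lit 0) (nat_lit 9) (node (nat_lit 0)
  (nat_lit 91466) (nat_lit 10) nil nil) (node (nat_lit 0) (nat_lit 98287) (nat_lit 9) (node
  (nat_lit 5) (nat_lit 98287) (nat_lit 10) nil nil) (node (nat_lit 4) (nat_lit 0) (nat_lit 9)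
  (node (nat_lit 0) (nat_lit 103115) (nat_lit 10) nil nil) nil))) nil)) nil))) nil)) nil) nil))
  (node (nat_lit 4) (nat_lit 0) (nat_lit 3) (node (nat_lit 3) (nat_lit 0) (nat_lit 4) (node
  (nat_lit 4) (nat_lit 0) (nat_lit 5) (node (nat_lit 5) (nat_lit 0) (nat_lit 6) (node (nat_lit 7)
  (nat_lit 0) (nat_lit 7) (node (nat_lit 0) (nat_lit 0) (nat_lit 8) (node (nat_lit 4) (nat_lit
  67497) (nat_lit 9) (node (nat_lit 5) (nat_lit 67497) (nat_lit 10) nil (node (nat_lit 7) (nat_lit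
  67497) (nat_lit 10) (node (nat_lit 4) (nat_lit 67497) (nat_lit 11) nil nil) (node (nat_lit 11)
  (nat_lit 68600) (nat_lit 10) nil nil))) (node (nat_lit 5) (nat_lit 67497) (nat_lit 9) (node
  (nat_lit 7) (nat_lit 67497) (nat_lit 10) (node (nat_lit 5) (nat_lit 67497) (nat_lit 11) nil nil)
  (node (nat_lit 4) (nat_lit 67497) (nat_lit 10) nil nil)) (node (nat_lit 7) (nat_lit 67497)
  (nat_lit 9) (node (nat_lit 5) (nat_lit 67497) (nat_lit 10) nil (node (nat_lit 4) (nat_lit 67497)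
  (nat_lit 10) nil nil)) (node (nat_lit 0) (nat_lit 68280) (nat_lit 9) nil nil)))) (node (nat_lit
  4) (nat_lit 0) (nat_lit 8) (node (nat_lit 0) (nat_lit 66291) (nat_lit 9) (node (nat_lit 4)
  (nat_lit 0) (nat_lit 10) (node (nat_lit 7) (nat_lit 66291) (nat_lit 11) (node (nat_lit 4)
  (nat_lit 66291) (nat_lit 12) nil (node (nat_lit 12) (nat_lit 68248) (nat_lit 12) nil nil)) (node
  (nat_lit 5) (nat_lit 66291) (nat_lit 11) nil (node (nat_lit 0) (nat_lit 67750) (nat_lit 11) nil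
  nil))) (node (nat_lit 7) (nat_lit 66291) (nat_lit 10) (node (nat_lit 12) (nat_lit 67750)
  (nat_lit 11) nil nil) (node (nat_lit 0) (nat_lit 67111) (nat_lit 10) nil nil))) (node (nat_lit
  7) (nat_lit 0) (nat_lit 9) (node (nat_lit 0) (nat_lit 67111) (nat_lit 10) (node (nat_lit 4)
  (nat_lit 67111) (nat_lit 11) (node (nat_lit 7) (nat_lit 67111) (nat_lit 12) (node (nat_lit 4)
  (nat_lit 67111) (nat_lit 13) nil nil) nil) (node (nat_lit 7) (nat_lit 67111) (nat_lit 11) nil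
  nil)) nil) nil)) (node (nat_lit 5) (nat_lit 0) (nat_lit 8) (node (nat_lit 0) (nat_lit 66291)
  (nat_lit 9) (node (nat_lit 5) (nat_lit 66291) (nat_lit 10) (node (nat_lit 7) (nat_lit 66291)
  (nat_lit 11) nil (node (nat_lit 4) (nat_lit 66291) (nat_lit 11) nil nil)) (node (nat_lit 7)
  (nat_lit 66291) (nat_lit 10) nil nil)) (node (nat_lit 4) (nat_lit 0) (nat_lit 9) (node (nat_lit
  0) (nat_lit 67111) (nat_lit 10) nil nil) nil)) nil))) (node (nat_lit 0) (nat_lit 0) (nat_lit 7)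
  (node (nat_lit 7) (nat_lit 66023) (nat_lit 8) (node (nat_lit 5) (nat_lit 66023) (nat_lit 9)
  (node (nat_lit 4) (nat_lit 66023) (nat_lit 10) (node (nat_lit 7) (nat_lit 66023) (nat_lit 11)
  nil nil) (node (nat_lit 7) (nat_lit 66023) (nat_lit 10) nil nil)) (node (nat_lit 4) (nat_lit
  66023) (nat_lit 9) (node (nat_lit 5) (nat_lit 66023) (nat_lit 10) nil (node (nat_lit 7) (nat_lit
  66023) (nat_lit 10) nil nil)) nil)) (node (nat_lit 4) (nat_lit 66023) (nat_lit 8) (node (nat_lit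
  7) (nat_lit 66023) (nat_lit 9) (node (nat_lit 5) (nat_lit 66023) (nat_lit 10) (node (nat_lit 7)
  (nat_lit 66023) (nat_lit 11) nil (node (nat_lit 4) (nat_lit 66023) (nat_lit 11) nil nil)) (node
  (nat_lit 4) (nat_lit 66023) (nat_lit 10) nil nil)) (node (nat_lit 5) (nat_lit 66023) (nat_lit 9)
  (node (nat_lit 7) (nat_lit 66023) (nat_lit 10) nil nil) nil)) (node (nat_lit 5) (nat_lit 66023)
  (nat_lit 8) (node (nat_lit 7) (nat_lit 66023) (nat_lit 9) (node (nat_lit 4) (nat_lit 66023)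
  (nat_lit 10) (node (nat_lit 5) (nat_lit 66023) (nat_lit 11) nil nil) (node (nat_lit 5) (nat_lit
  66023) (nat_lit 10) nil nil)) (node (nat_lit 4) (nat_lit 66023) (nat_lit 9) (node (nat_lit 7)
  (nat_lit 66023) (nat_lit 10) (node (nat_lit 5) (nat_lit 66023) (nat_lit 11) nil nil) nil) nil))
  (node (nat_lit 0) (nat_lit 67497) (nat_lit 8) nil nil)))) nil)) nil) (node (nat_lit 5) (nat_lit
  0) (nat_lit 5) (node (nat_lit 7) (nat_lit 0) (nat_lit 6) (node (nat_lit 4) (nat_lit 0) (nat_lit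
  7) (node (nat_lit 0) (nat_lit 0) (nat_lit 8) (node (nat_lit 5) (nat_lit 0) (nat_lit 9) (node
  (nat_lit 4) (nat_lit 62010) (nat_lit 10) (node (nat_lit 5) (nat_lit 63421) (nat_lit 11) (node
  (nat_lit 7) (nat_lit 65706) (nat_lit 12) (node (nat_lit 5) (nat_lit 66490) (nat_lit 13) nil nil)
  nil) (node (nat_lit 7) (nat_lit 64220) (nat_lit 11) (node (nat_lit 5) (nat_lit 64220) (nat_lit
  12) nil nil) nil)) (node (nat_lit 7) (nat_lit 61814) (nat_lit 10) (node (nat_lit 4) (nat_lit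
  63089) (nat_lit 11) (node (nat_lit 5) (nat_lit 63250) (nat_lit 12) nil (node (nat_lit 7)
  (nat_lit 63089) (nat_lit 12) nil nil)) (node (nat_lit 5) (nat_lit 62432) (nat_lit 11) (node
  (nat_lit 4) (nat_lit 64137) (nat_lit 12) (node (nat_lit 7) (nat_lit 64921) (nat_lit 13) nil nil)
  nil) nil)) (node (nat_lit 11) (nat_lit 63666) (nat_lit 10) nil (node (nat_lit 0) (nat_lit 61139)
  (nat_lit 10) nil nil)))) (node (nat_lit 7) (nat_lit 59524) (nat_lit 9) (node (nat_lit 4)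
  (nat_lit 61582) (nat_lit 10) (node (nat_lit 7) (nat_lit 63143) (nat_lit 11) (node (nat_lit 5)
  (nat_lit 65391) (nat_lit 12) (node (nat_lit 4) (nat_lit 64519) (nat_lit 13) nil (node (nat_lit
  7) (nat_lit 66175) (nat_lit 13) nil nil)) nil) (node (nat_lit 5) (nat_lit 62984) (nat_lit 11)
  (node (nat_lit 7) (nat_lit 64404) (nat_lit 12) nil (node (nat_lit 4) (nat_lit 62984) (nat_lit
  12) nil nil)) nil)) (node (nat_lit 5) (nat_lit 61535) (nat_lit 10) (node (nat_lit 4) (nat_lit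
  64528) (nat_lit 11) (node (nat_lit 7) (nat_lit 64459) (nat_lit 12) nil nil) (node (nat_lit 7)
  (nat_lit 63281) (nat_lit 11) (node (nat_lit 4) (nat_lit 64701) (nat_lit 12) nil nil) nil)) (node
  (nat_lit 11) (nat_lit 63156) (nat_lit 10) nil nil))) (node (nat_lit 4) (nat_lit 0) (nat_lit 9)
  (node (nat_lit 7) (nat_lit 61668) (nat_lit 10) (node (nat_lit 5) (nat_lit 64708) (nat_lit 11)
  nil (node (nat_lit 4) (nat_lit 64180) (nat_lit 11) (node (nat_lit 5) (nat_lit 64180) (nat_lit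
  12) nil nil) nil)) (node (nat_lit 5) (nat_lit 61872) (nat_lit 10) (node (nat_lit 7) (nat_lit
  63426) (nat_lit 11) nil (node (nat_lit 4) (nat_lit 61872) (nat_lit 11) nil nil)) (node (nat_lit
  0) (nat_lit 61004) (nat_lit 10) nil nil))) (node (nat_lit 0) (nat_lit 65000) (nat_lit 9) nil
  nil)))) (node (nat_lit 5) (nat_lit 0) (nat_lit 8) (node (nat_lit 0) (nat_lit 57297) (nat_lit 9)
  (node (nat_lit 5) (nat_lit 0) (nat_lit 10) (node (nat_lit 4) (nat_lit 58265) (nat_lit 11) (node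
  (nat_lit 12) (nat_lit 60222) (nat_lit 12) nil (node (nat_lit 7) (nat_lit 58265) (nat_lit 12) nil
  nil)) (node (nat_lit 7) (nat_lit 57965) (nat_lit 11) (node (nat_lit 4) (nat_lit 57965) (nat_lit
  12) nil nil) (node (nat_lit 0) (nat_lit 61021) (nat_lit 11) nil nil))) (node (nat_lit 4)
  (nat_lit 57590) (nat_lit 10) nil (node (nat_lit 0) (nat_lit 58117) (nat_lit 10) nil nil))) (node
  (nat_lit 4) (nat_lit 0) (nat_lit 9) (node (nat_lit 0) (nat_lit 61102) (nat_lit 10) (node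
  (nat_lit 5) (nat_lit 61102) (nat_lit 11) (node (nat_lit 4) (nat_lit 61102) (nat_lit 12) nil nil)
  nil) nil) (node (nat_lit 7) (nat_lit 0) (nat_lit 9) (node (nat_lit 0) (nat_lit 61171) (nat_lit
  10) (node (nat_lit 5) (nat_lit 61171) (nat_lit 11) nil nil) nil) nil))) (node (nat_lit 7)
  (nat_lit 0) (nat_lit 8) (node (nat_lit 0) (nat_lit 63330) (nat_lit 9) (node (nat_lit 7) (nat_lit
  63330) (nat_lit 10) (node (nat_lit 4) (nat_lit 63330) (nat_lit 11) nil nil) (node (nat_lit 4)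
  (nat_lit 63330) (nat_lit 10) nil nil)) (node (nat_lit 5) (nat_lit 0) (nat_lit 9) (node (nat_lit
  0) (nat_lit 67998) (nat_lit 10) nil nil) nil)) nil))) (node (nat_lit 0) (nat_lit 0) (nat_lit 7)
  (node (nat_lit 7) (nat_lit 69505) (nat_lit 8) (node (nat_lit 4) (nat_lit 72507) (nat_lit 9)
  (node (nat_lit 5) (nat_lit 74747) (nat_lit 10) (node (nat_lit 7) (nat_lit 76159) (nat_lit 11)
  (node (nat_lit 5) (nat_lit 76737) (nat_lit 12) nil nil) (node (nat_lit 4) (nat_lit 76159)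
  (nat_lit 11) (node (nat_lit 7) (nat_lit 76737) (nat_lit 12) nil nil) nil)) (node (nat_lit 7)
  (nat_lit 72507) (nat_lit 10) nil nil)) (node (nat_lit 5) (nat_lit 72747) (nat_lit 9) (node
  (nat_lit 4) (nat_lit 73728) (nat_lit 10) (node (nat_lit 7) (nat_lit 73728) (nat_lit 11) nil
  (node (nat_lit 5) (nat_lit 73728) (nat_lit 11) nil nil)) (node (nat_lit 7) (nat_lit 72747)
  (nat_lit 10) nil nil)) nil)) (node (nat_lit 4) (nat_lit 70773) (nat_lit 8) (node (nat_lit 5)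
  (nat_lit 73473) (nat_lit 9) (node (nat_lit 7) (nat_lit 74310) (nat_lit 10) nil (node (nat_lit 4)
  (nat_lit 73473) (nat_lit 10) nil nil)) (node (nat_lit 7) (nat_lit 73182) (nat_lit 9) (node
  (nat_lit 5) (nat_lit 73934) (nat_lit 10) nil nil) nil)) (node (nat_lit 5) (nat_lit 69840)
  (nat_lit 8) (node (nat_lit 7) (nat_lit 72849) (nat_lit 9) (node (nat_lit 4) (nat_lit 72849)
  (nat_lit 10) nil (node (nat_lit 5) (nat_lit 72849) (nat_lit 10) nil nil)) (node (nat_lit 4)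
  (nat_lit 72326) (nat_lit 9) (node (nat_lit 7) (nat_lit 74566) (nat_lit 10) nil nil) nil)) (node
  (nat_lit 0) (nat_lit 70789) (nat_lit 8) nil nil)))) nil)) (node (nat_lit 4) (nat_lit 0) (nat_lit
  6) (node (nat_lit 5) (nat_lit 0) (nat_lit 7) (node (nat_lit 0) (nat_lit 0) (nat_lit 8) (node
  (nat_lit 7) (nat_lit 76737) (nat_lit 9) nil (node (nat_lit 4) (nat_lit 76737) (nat_lit 9) nil
  (node (nat_lit 5) (nat_lit 76737) (nat_lit 9) nil (node (nat_lit 0) (nat_lit 76737) (nat_lit 9)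
  nil nil)))) (node (nat_lit 7) (nat_lit 0) (nat_lit 8) (node (nat_lit 4) (nat_lit 0) (nat_lit 9)
  (node (nat_lit 0) (nat_lit 73805) (nat_lit 10) nil nil) (node (nat_lit 0) (nat_lit 76737)
  (nat_lit 9) (node (nat_lit 7) (nat_lit 76737) (nat_lit 10) nil nil) (node (nat_lit 5) (nat_lit
  0) (nat_lit 9) (node (nat_lit 0) (nat_lit 76737) (nat_lit 10) nil nil) nil))) nil)) (node
  (nat_lit 0) (nat_lit 0) (nat_lit 7) (node (nat_lit 7) (nat_lit 73950) (nat_lit 8) (node (nat_lit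
  4) (nat_lit 73950) (nat_lit 9) nil (node (nat_lit 5) (nat_lit 73950) (nat_lit 9) nil (node
  (nat_lit 10) (nat_lit 76207) (nat_lit 9) nil nil))) (node (nat_lit 5) (nat_lit 76186) (nat_lit
  8) (node (nat_lit 7) (nat_lit 76186) (nat_lit 9) nil (node (nat_lit 4) (nat_lit 76186) (nat_lit
  9) nil (node (nat_lit 10) (nat_lit 76737) (nat_lit 9) nil nil))) (node (nat_lit 4) (nat_lit
  76115) (nat_lit 8) (node (nat_lit 7) (nat_lit 76115) (nat_lit 9) nil (node (nat_lit 5) (nat_lit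
  76115) (nat_lit 9) nil nil)) (node (nat_lit 0) (nat_lit 75431) (nat_lit 8) nil nil)))) nil))
  nil)) nil)) nil) nil))

noncomputable def c67 : Tr :=
  (node (nat_lit 3) (nat_lit 0) (nat_lit 1) (node (nat_lit 3) (nat_lit 0) (nat_lit 2) t475 nil)
  nil)

end Pool.Agent.Work.MP_7cb3ca_co.P3.D
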