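import Pool.Agent.Work.MP_7cb3ca_co.P3.Defs

namespace Pool.Agent.Work.MP_7cb3ca_co.P3.D
open Tr
set_option maxRecDepth 100000

noncomputable def t169 : Tr :=
  (node (nat_lit 4) (nat_lit 0) (nat_lit 5) (node (nat_lit 5) (nat_lit 0) (nat_lit 6) (node
  (nat_lit 0) (nat_lit 0) (nat_lit 7) (node (nat_lit 5) (nat_lit 0) (nat_lit 8) (node (nat_lit 4)
  (nat_lit 70993) (nat_lit 9) (node (nat_lit 6) (nat_lit 70993) (nat_lit 10) nil (node (nat_lit 5)
  (nat_lit 70993) (nat_lit 10) (node (nat_lit 6) (nat_lit 70993) (nat_lit 11) (node (nat_lit 5)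
  (nat_lit 70993) (nat_lit 12) (node (nat_lit 4) (nat_lit 70993) (nat_lit 13) nil nil) nil) nil)
  nil)) (node (nat_lit 6) (nat_lit 70993) (nat_lit 9) (node (nat_lit 4) (nat_lit 70993) (nat_lit
  10) (node (nat_lit 5) (nat_lit 70993) (nat_lit 11) nil nil) (node (nat_lit 5) (nat_lit 70993)
  (nat_lit 10) nil nil)) (node (nat_lit 0) (nat_lit 70993) (nat_lit 9) nil (node (nat_lit 2)
  (nat_lit 70993) (nat_lit 9) nil nil)))) (node (nat_lit 4) (nat_lit 70993) (nat_lit 8) (node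
  (nat_lit 10) (nat_lit 70993) (nat_lit 9) (node (nat_lit 5) (nat_lit 70993) (nat_lit 10) nil nil)
  (node (nat_lit 6) (nat_lit 70993) (nat_lit 9) (node (nat_lit 4) (nat_lit 70993) (nat_lit 10) nil
  nil) nil)) (node (nat_lit 0) (nat_lit 70993) (nat_lit 8) (node (nat_lit 5) (nat_lit 70993)
  (nat_lit 9) nil nil) (node (nat_lit 6) (nat_lit 70993) (nat_lit 8) (node (nat_lit 5) (nat_lit
  70993) (nat_lit 9) (node (nat_lit 4) (nat_lit 70993) (nat_lit 10) nil nil) (node (nat_lit 10)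
  (nat_lit 70993) (nat_lit 9) (node (nat_lit 5) (nat_lit 70993) (nat_lit 10) nil nil) (node
  (nat_lit 4) (nat_lit 70993) (nat_lit 9) (node (nat_lit 5) (nat_lit 70993) (nat_lit 10) (node
  (nat_lit 6) (nat_lit 70993) (nat_lit 11) nil nil) nil) nil))) (node (nat_lit 2) (nat_lit 70993)
  (nat_lit 8) (node (nat_lit 5) (nat_lit 70993) (nat_lit 9) nil nil) nil))))) (node (nat_lit 2)
  (nat_lit 0) (nat_lit 7) (node (nat_lit 5) (nat_lit 0) (nat_lit 8) (node (nat_lit 4) (nat_lit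
  70993) (nat_lit 9) (node (nat_lit 6) (nat_lit 70993) (nat_lit 10) nil (node (nat_lit 5) (nat_lit
  70993) (nat_lit 10) (node (nat_lit 6) (nat_lit 70993) (nat_lit 11) (node (nat_lit 5) (nat_lit
  66159) (nat_lit 12) (node (nat_lit 4) (nat_lit 51708) (nat_lit 13) nil nil) nil) nil) nil))
  (node (nat_lit 6) (nat_lit 70993) (nat_lit 9) (node (nat_lit 4) (nat_lit 70993) (nat_lit 10)
  (node (nat_lit 5) (nat_lit 70993) (nat_lit 11) nil nil) (node (nat_lit 5) (nat_lit 70993)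
  (nat_lit 10) nil nil)) (node (nat_lit 0) (nat_lit 70993) (nat_lit 9) nil nil))) (node (nat_lit
  4) (nat_lit 70993) (nat_lit 8) (node (nat_lit 10) (nat_lit 70993) (nat_lit 9) (node (nat_lit 5)
  (nat_lit 70993) (nat_lit 10) nil nil) (node (nat_lit 6) (nat_lit 70993) (nat_lit 9) (node
  (nat_lit 4) (nat_lit 70993) (nat_lit 10) nil nil) nil)) (node (nat_lit 6) (nat_lit 70993)
  (nat_lit 8) (node (nat_lit 5) (nat_lit 70993) (nat_lit 9) (node (nat_lit 4) (nat_lit 70993)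
  (nat_lit 10) nil nil) (node (nat_lit 10) (nat_lit 70993) (nat_lit 9) (node (nat_lit 5) (nat_lit
  70993) (nat_lit 10) nil nil) (node (nat_lit 4) (nat_lit 70993) (nat_lit 9) (node (nat_lit 5)
  (nat_lit 70993) (nat_lit 10) (node (nat_lit 6) (nat_lit 59430) (nat_lit 11) nil nil) nil) nil)))
  (node (nat_lit 0) (nat_lit 70993) (nat_lit 8) (node (nat_lit 5) (nat_lit 70993) (nat_lit 9) nil
  nil) nil)))) (node (nat_lit 6) (nat_lit 0) (nat_lit 7) (node (nat_lit 0) (nat_lit 51241)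
  (nat_lit 8) (node (nat_lit 5) (nat_lit 51661) (nat_lit 9) (node (nat_lit 6) (nat_lit 51661)
  (nat_lit 10) (node (nat_lit 5) (nat_lit 51787) (nat_lit 11) (node (nat_lit 4) (nat_lit 51787)
  (nat_lit 12) nil nil) (node (nat_lit 4) (nat_lit 51661) (nat_lit 11) (node (nat_lit 5) (nat_lit
  51840) (nat_lit 12) nil nil) nil)) (node (nat_lit 4) (nat_lit 51661) (nat_lit 10) nil nil))
  (node (nat_lit 4) (nat_lit 51241) (nat_lit 9) (node (nat_lit 6) (nat_lit 51241) (nat_lit 10) nil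
  nil) (node (nat_lit 6) (nat_lit 51241) (nat_lit 9) nil nil))) (node (nat_lit 2) (nat_lit 0)
  (nat_lit 8) (node (nat_lit 5) (nat_lit 51484) (nat_lit 9) (node (nat_lit 6) (nat_lit 51484)
  (nat_lit 10) (node (nat_lit 5) (nat_lit 51762) (nat_lit 11) (node (nat_lit 4) (nat_lit 51762)
  (nat_lit 12) nil nil) (node (nat_lit 4) (nat_lit 51484) (nat_lit 11) (node (nat_lit 5) (nat_lit
  51857) (nat_lit 12) nil nil) nil)) (node (nat_lit 4) (nat_lit 51484) (nat_lit 10) nil nil))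
  (node (nat_lit 4) (nat_lit 48480) (nat_lit 9) (node (nat_lit 6) (nat_lit 48591) (nat_lit 10)
  (node (nat_lit 4) (nat_lit 48591) (nat_lit 11) nil nil) nil) (node (nat_lit 6) (nat_lit 48441)
  (nat_lit 9) (node (nat_lit 5) (nat_lit 50900) (nat_lit 10) nil (node (nat_lit 4) (nat_lit 48591)
  (nat_lit 10) nil nil)) (node (nat_lit 0) (nat_lit 51484) (nat_lit 9) nil nil)))) (node (nat_lit
  4) (nat_lit 0) (nat_lit 8) (node (nat_lit 5) (nat_lit 51493) (nat_lit 9) (node (nat_lit 4)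
  (nat_lit 51493) (nat_lit 10) (node (nat_lit 6) (nat_lit 51493) (nat_lit 11) nil nil) nil) (node
  (nat_lit 6) (nat_lit 47137) (nat_lit 9) (node (nat_lit 5) (nat_lit 51767) (nat_lit 10) nil nil)
  (node (nat_lit 0) (nat_lit 51317) (nat_lit 9) nil (node (nat_lit 2) (nat_lit 47137) (nat_lit 9)
  nil nil)))) nil))) nil))) (node (nat_lit 6) (nat_lit 0) (nat_lit 6) (node (nat_lit 0) (nat_lit
  0) (nat_lit 7) (node (nat_lit 6) (nat_lit 0) (nat_lit 8) (node (nat_lit 5) (nat_lit 123169)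
  (nat_lit 9) (node (nat_lit 4) (nat_lit 117041) (nat_lit 10) (node (nat_lit 5) (nat_lit 113488)
  (nat_lit 11) nil nil) nil) (node (nat_lit 4) (nat_lit 123169) (nat_lit 9) (node (nat_lit 5)
  (nat_lit 123730) (nat_lit 10) (node (nat_lit 6) (nat_lit 122308) (nat_lit 11) (node (nat_lit 5)
  (nat_lit 122141) (nat_lit 12) (node (nat_lit 4) (nat_lit 122122) (nat_lit 13) (node (nat_lit 6)
  (nat_lit 122404) (nat_lit 14) nil nil) nil) nil) nil) nil) (node (nat_lit 0) (nat_lit 123169)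
  (nat_lit 9) nil (node (nat_lit 2) (nat_lit 120255) (nat_lit 9) nil nil)))) (node (nat_lit 5)
  (nat_lit 122415) (nat_lit 8) (node (nat_lit 4) (nat_lit 123169) (nat_lit 9) nil nil) (node
  (nat_lit 4) (nat_lit 122839) (nat_lit 8) (node (nat_lit 6) (nat_lit 123593) (nat_lit 9) nil nil)
  (node (nat_lit 0) (nat_lit 122839) (nat_lit 8) (node (nat_lit 6) (nat_lit 120679) (nat_lit 9)
  nil nil) (node (nat_lit 2) (nat_lit 122415) (nat_lit 8) (node (nat_lit 6) (nat_lit 123169)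
  (nat_lit 9) (node (nat_lit 10) (nat_lit 123730) (nat_lit 10) nil nil) (node (nat_lit 5) (nat_lit
  123169) (nat_lit 9) nil nil)) nil))))) (node (nat_lit 2) (nat_lit 0) (nat_lit 7) (node (nat_lit
  6) (nat_lit 0) (nat_lit 8) (node (nat_lit 5) (nat_lit 120123) (nat_lit 9) (node (nat_lit 4)
  (nat_lit 120457) (nat_lit 10) (node (nat_lit 5) (nat_lit 117239) (nat_lit 11) (node (nat_lit 6)
  (nat_lit 112681) (nat_lit 12) (node (nat_lit 5) (nat_lit 105842) (nat_lit 13) (node (nat_lit 4)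
  (nat_lit 70993) (nat_lit 14) (node (nat_lit 6) (nat_lit 70993) (nat_lit 15) nil nil) nil) nil)
  nil) nil) (node (nat_lit 6) (nat_lit 120684) (nat_lit 10) nil nil)) (node (nat_lit 4) (nat_lit
  122498) (nat_lit 9) (node (nat_lit 5) (nat_lit 122154) (nat_lit 10) (node (nat_lit 6) (nat_lit
  114102) (nat_lit 11) (node (nat_lit 5) (nat_lit 105169) (nat_lit 12) (node (nat_lit 4) (nat_lit
  90539) (nat_lit 13) (node (nat_lit 6) (nat_lit 54305) (nat_lit 14) nil nil) nil) nil) nil) nil)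
  (node (nat_lit 0) (nat_lit 120113) (nat_lit 9) (node (nat_lit 6) (nat_lit 118326) (nat_lit 10)
  (node (nat_lit 5) (nat_lit 118026) (nat_lit 11) nil nil) nil) nil))) (node (nat_lit 5) (nat_lit
  119012) (nat_lit 8) (node (nat_lit 4) (nat_lit 119818) (nat_lit 9) (node (nat_lit 5) (nat_lit
  115457) (nat_lit 10) (node (nat_lit 6) (nat_lit 107029) (nat_lit 11) nil nil) nil) (node
  (nat_lit 6) (nat_lit 120752) (nat_lit 9) (node (nat_lit 4) (nat_lit 121313) (nat_lit 10) nil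
  nil) nil)) (node (nat_lit 4) (nat_lit 121804) (nat_lit 8) (node (nat_lit 6) (nat_lit 122559)
  (nat_lit 9) nil nil) (node (nat_lit 0) (nat_lit 121273) (nat_lit 8) (node (nat_lit 6) (nat_lit
  122028) (nat_lit 9) nil nil) nil)))) (node (nat_lit 4) (nat_lit 0) (nat_lit 7) (node (nat_lit 0)
  (nat_lit 122295) (nat_lit 8) (node (nat_lit 6) (nat_lit 123049) (nat_lit 9) (node (nat_lit 4)
  (nat_lit 123610) (nat_lit 10) (node (nat_lit 5) (nat_lit 124104) (nat_lit 11) nil nil) nil)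
  (node (nat_lit 5) (nat_lit 123049) (nat_lit 9) nil nil)) (node (nat_lit 2) (nat_lit 121765)
  (nat_lit 8) (node (nat_lit 6) (nat_lit 122326) (nat_lit 9) (node (nat_lit 4) (nat_lit 122496)
  (nat_lit 10) (node (nat_lit 5) (nat_lit 119526) (nat_lit 11) (node (nat_lit 6) (nat_lit 114755)
  (nat_lit 12) (node (nat_lit 5) (nat_lit 106503) (nat_lit 13) (node (nat_lit 4) (nat_lit 91822)
  (nat_lit 14) nil nil) nil) nil) nil) nil) (node (nat_lit 5) (nat_lit 122520) (nat_lit 9) nil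
  nil)) (node (nat_lit 5) (nat_lit 112510) (nat_lit 8) (node (nat_lit 6) (nat_lit 87380) (nat_lit
  9) (node (nat_lit 5) (nat_lit 77152) (nat_lit 10) nil (node (nat_lit 2) (nat_lit 90835) (nat_lit
  10) nil (node (nat_lit 0) (nat_lit 92493) (nat_lit 10) nil nil))) (node (nat_lit 4) (nat_lit
  119376) (nat_lit 9) nil nil)) nil))) (node (nat_lit 5) (nat_lit 0) (nat_lit 7) (node (nat_lit 0)
  (nat_lit 121625) (nat_lit 8) (node (nat_lit 6) (nat_lit 122379) (nat_lit 9) nil (node (nat_lit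
  5) (nat_lit 122379) (nat_lit 9) nil nil)) (node (nat_lit 2) (nat_lit 118912) (nat_lit 8) (node
  (nat_lit 6) (nat_lit 119651) (nat_lit 9) (node (nat_lit 5) (nat_lit 120913) (nat_lit 10) (node
  (nat_lit 6) (nat_lit 121408) (nat_lit 11) nil (node (nat_lit 4) (nat_lit 122899) (nat_lit 11)
  (node (nat_lit 5) (nat_lit 116029) (nat_lit 12) nil nil) nil)) nil) (node (nat_lit 5) (nat_lit
  119611) (nat_lit 9) nil nil)) (node (nat_lit 6) (nat_lit 0) (nat_lit 8) (node (nat_lit 4)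
  (nat_lit 121633) (nat_lit 9) (node (nat_lit 5) (nat_lit 122897) (nat_lit 10) (node (nat_lit 6)
  (nat_lit 123883) (nat_lit 11) (node (nat_lit 5) (nat_lit 124652) (nat_lit 12) (node (nat_lit 4)
  (nat_lit 122162) (nat_lit 13) nil nil) nil) nil) nil) (node (nat_lit 0) (nat_lit 120352)
  (nat_lit 9) nil (node (nat_lit 2) (nat_lit 117858) (nat_lit 9) nil nil))) nil))) nil)))) (node
  (nat_lit 0) (nat_lit 0) (nat_lit 6) (node (nat_lit 5) (nat_lit 119262) (nat_lit 7) (node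
  (nat_lit 9) (nat_lit 121535) (nat_lit 8) (node (nat_lit 6) (nat_lit 119375) (nat_lit 9) nil nil)
  (node (nat_lit 6) (nat_lit 121535) (nat_lit 8) (node (nat_lit 4) (nat_lit 122289) (nat_lit 9)
  (node (nat_lit 5) (nat_lit 122850) (nat_lit 10) (node (nat_lit 6) (nat_lit 121428) (nat_lit 11)
  (node (nat_lit 5) (nat_lit 121260) (nat_lit 12) (node (nat_lit 4) (nat_lit 121241) (nat_lit 13)
  nil nil) nil) nil) nil) nil) (node (nat_lit 4) (nat_lit 121248) (nat_lit 8) (node (nat_lit 5)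
  (nat_lit 122289) (nat_lit 9) (node (nat_lit 6) (nat_lit 120502) (nat_lit 10) (node (nat_lit 5)
  (nat_lit 120202) (nat_lit 11) (node (nat_lit 4) (nat_lit 120057) (nat_lit 12) nil nil) nil) nil)
  nil) nil))) (node (nat_lit 6) (nat_lit 119262) (nat_lit 7) (node (nat_lit 9) (nat_lit 121535)
  (nat_lit 8) (node (nat_lit 5) (nat_lit 122289) (nat_lit 9) nil nil) (node (nat_lit 4) (nat_lit
  121535) (nat_lit 8) (node (nat_lit 5) (nat_lit 122289) (nat_lit 9) (node (nat_lit 6) (nat_lit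
  120502) (nat_lit 10) (node (nat_lit 5) (nat_lit 120202) (nat_lit 11) nil nil) nil) nil) (node
  (nat_lit 5) (nat_lit 121535) (nat_lit 8) (node (nat_lit 4) (nat_lit 123687) (nat_lit 9) (node
  (nat_lit 5) (nat_lit 121309) (nat_lit 10) (node (nat_lit 6) (nat_lit 113206) (nat_lit 11) (node
  (nat_lit 5) (nat_lit 85157) (nat_lit 12) nil nil) nil) nil) nil) nil))) (node (nat_lit 4)
  (nat_lit 120289) (nat_lit 7) (node (nat_lit 6) (nat_lit 122561) (nat_lit 8) (node (nat_lit 4)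
  (nat_lit 123315) (nat_lit 9) (node (nat_lit 5) (nat_lit 120177) (nat_lit 10) (node (nat_lit 6)
  (nat_lit 113978) (nat_lit 11) (node (nat_lit 5) (nat_lit 95935) (nat_lit 12) nil nil) nil) nil)
  nil) nil) (node (nat_lit 0) (nat_lit 120170) (nat_lit 7) (node (nat_lit 9) (nat_lit 122442)
  (nat_lit 8) (node (nat_lit 5) (nat_lit 123197) (nat_lit 9) nil (node (nat_lit 6) (nat_lit
  120283) (nat_lit 9) nil nil)) (node (nat_lit 4) (nat_lit 122442) (nat_lit 8) nil (node (nat_lit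
  6) (nat_lit 122442) (nat_lit 8) (node (nat_lit 4) (nat_lit 123197) (nat_lit 9) nil nil) (node
  (nat_lit 5) (nat_lit 122442) (nat_lit 8) nil nil)))) (node (nat_lit 2) (nat_lit 119262) (nat_lit
  7) (node (nat_lit 9) (nat_lit 121535) (nat_lit 8) (node (nat_lit 5) (nat_lit 122289) (nat_lit 9)
  nil (node (nat_lit 6) (nat_lit 119375) (nat_lit 9) nil nil)) (node (nat_lit 4) (nat_lit 121535)
  (nat_lit 8) (node (nat_lit 6) (nat_lit 119375) (nat_lit 9) nil nil) (node (nat_lit 6) (nat_lit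
  121535) (nat_lit 8) (node (nat_lit 4) (nat_lit 120959) (nat_lit 9) nil nil) (node (nat_lit 5)
  (nat_lit 121535) (nat_lit 8) nil nil)))) nil))))) (node (nat_lit 2) (nat_lit 0) (nat_lit 6)
  (node (nat_lit 5) (nat_lit 0) (nat_lit 7) (node (nat_lit 9) (nat_lit 119527) (nat_lit 8) (node
  (nat_lit 6) (nat_lit 120292) (nat_lit 9) (node (nat_lit 5) (nat_lit 116827) (nat_lit 10) nil
  (node (nat_lit 4) (nat_lit 114903) (nat_lit 10) (node (nat_lit 5) (nat_lit 111741) (nat_lit 11)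
  nil nil) nil)) nil) (node (nat_lit 6) (nat_lit 119527) (nat_lit 8) (node (nat_lit 4) (nat_lit
  120281) (nat_lit 9) (node (nat_lit 5) (nat_lit 120842) (nat_lit 10) (node (nat_lit 6) (nat_lit
  119420) (nat_lit 11) (node (nat_lit 5) (nat_lit 119253) (nat_lit 12) (node (nat_lit 4) (nat_lit
  119234) (nat_lit 13) nil nil) nil) nil) nil) nil) (node (nat_lit 4) (nat_lit 122212) (nat_lit 8)
  (node (nat_lit 5) (nat_lit 115762) (nat_lit 9) (node (nat_lit 6) (nat_lit 104315) (nat_lit 10)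
  (node (nat_lit 5) (nat_lit 70993) (nat_lit 11) (node (nat_lit 4) (nat_lit 70993) (nat_lit 12)
  nil nil) nil) nil) (node (nat_lit 6) (nat_lit 120052) (nat_lit 9) nil nil)) (node (nat_lit 0)
  (nat_lit 119527) (nat_lit 8) nil nil)))) (node (nat_lit 6) (nat_lit 117166) (nat_lit 7) (node
  (nat_lit 9) (nat_lit 119438) (nat_lit 8) (node (nat_lit 5) (nat_lit 120163) (nat_lit 9) (node
  (nat_lit 4) (nat_lit 122325) (nat_lit 10) (node (nat_lit 5) (nat_lit 111891) (nat_lit 11) nil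
  nil) nil) nil) (node (nat_lit 4) (nat_lit 119438) (nat_lit 8) (node (nat_lit 5) (nat_lit 118015)
  (nat_lit 9) (node (nat_lit 6) (nat_lit 96208) (nat_lit 10) (node (nat_lit 5) (nat_lit 63948)
  (nat_lit 11) nil nil) nil) nil) (node (nat_lit 5) (nat_lit 119438) (nat_lit 8) (node (nat_lit 4)
  (nat_lit 122577) (nat_lit 9) (node (nat_lit 5) (nat_lit 107874) (nat_lit 10) (node (nat_lit 6)
  (nat_lit 104434) (nat_lit 11) (node (nat_lit 5) (nat_lit 100874) (nat_lit 12) nil nil) nil) nil)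
  nil) nil))) (node (nat_lit 4) (nat_lit 119418) (nat_lit 7) (node (nat_lit 6) (nat_lit 121690)
  (nat_lit 8) (node (nat_lit 4) (nat_lit 122445) (nat_lit 9) (node (nat_lit 5) (nat_lit 120778)
  (nat_lit 10) (node (nat_lit 6) (nat_lit 110798) (nat_lit 11) (node (nat_lit 5) (nat_lit 77932)
  (nat_lit 12) nil nil) nil) nil) nil) nil) (node (nat_lit 0) (nat_lit 119039) (nat_lit 7) (node
  (nat_lit 9) (nat_lit 121311) (nat_lit 8) (node (nat_lit 5) (nat_lit 122066) (nat_lit 9) (node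
  (nat_lit 4) (nat_lit 115937) (nat_lit 10) nil nil) (node (nat_lit 6) (nat_lit 119152) (nat_lit
  9) (node (nat_lit 4) (nat_lit 119712) (nat_lit 10) nil nil) nil)) (node (nat_lit 4) (nat_lit
  121311) (nat_lit 8) nil (node (nat_lit 6) (nat_lit 121311) (nat_lit 8) (node (nat_lit 4)
  (nat_lit 122066) (nat_lit 9) nil nil) (node (nat_lit 5) (nat_lit 121311) (nat_lit 8) nil nil))))
  nil)))) nil)))) (node (nat_lit 0) (nat_lit 0) (nat_lit 5) (node (nat_lit 6) (nat_lit 127583)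
  (nat_lit 6) (node (nat_lit 5) (nat_lit 129109) (nat_lit 7) (node (nat_lit 4) (nat_lit 115821)
  (nat_lit 8) (node (nat_lit 5) (nat_lit 108094) (nat_lit 9) (node (nat_lit 6) (nat_lit 92683)
  (nat_lit 10) nil nil) nil) nil) (node (nat_lit 4) (nat_lit 129203) (nat_lit 7) (node (nat_lit 5)
  (nat_lit 130270) (nat_lit 8) (node (nat_lit 6) (nat_lit 128093) (nat_lit 9) (node (nat_lit 5)
  (nat_lit 127542) (nat_lit 10) nil nil) nil) nil) nil)) (node (nat_lit 4) (nat_lit 128352)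
  (nat_lit 6) (node (nat_lit 8) (nat_lit 129973) (nat_lit 7) nil (node (nat_lit 6) (nat_lit
  124994) (nat_lit 7) (node (nat_lit 4) (nat_lit 126061) (nat_lit 8) (node (nat_lit 5) (nat_lit
  120335) (nat_lit 9) (node (nat_lit 6) (nat_lit 108086) (nat_lit 10) (node (nat_lit 5) (nat_lit
  91721) (nat_lit 11) nil nil) nil) nil) nil) nil)) (node (nat_lit 5) (nat_lit 127583) (nat_lit 6)
  (node (nat_lit 4) (nat_lit 129139) (nat_lit 7) (node (nat_lit 5) (nat_lit 130270) (nat_lit 8)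
  (node (nat_lit 6) (nat_lit 128093) (nat_lit 9) (node (nat_lit 5) (nat_lit 127542) (nat_lit 10)
  nil nil) nil) nil) (node (nat_lit 6) (nat_lit 129470) (nat_lit 7) (node (nat_lit 4) (nat_lit
  130537) (nat_lit 8) nil nil) nil)) (node (nat_lit 0) (nat_lit 124495) (nat_lit 6) nil (node
  (nat_lit 2) (nat_lit 126804) (nat_lit 6) (node (nat_lit 5) (nat_lit 124411) (nat_lit 7) (node
  (nat_lit 4) (nat_lit 119110) (nat_lit 8) (node (nat_lit 5) (nat_lit 109443) (nat_lit 9) (node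
  (nat_lit 6) (nat_lit 94174) (nat_lit 10) nil nil) nil) (node (nat_lit 6) (nat_lit 122041)
  (nat_lit 8) nil nil)) (node (nat_lit 6) (nat_lit 122376) (nat_lit 7) nil (node (nat_lit 4)
  (nat_lit 125124) (nat_lit 7) nil nil))) nil))))) (node (nat_lit 2) (nat_lit 0) (nat_lit 5) (node
  (nat_lit 6) (nat_lit 0) (nat_lit 6) (node (nat_lit 5) (nat_lit 108153) (nat_lit 7) (node
  (nat_lit 4) (nat_lit 116829) (nat_lit 8) (node (nat_lit 5) (nat_lit 107422) (nat_lit 9) (node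
  (nat_lit 6) (nat_lit 101294) (nat_lit 10) (node (nat_lit 5) (nat_lit 68939) (nat_lit 11) nil
  nil) nil) nil) (node (nat_lit 6) (nat_lit 109219) (nat_lit 8) nil nil)) (node (nat_lit 8)
  (nat_lit 0) (nat_lit 7) (node (nat_lit 5) (nat_lit 109309) (nat_lit 8) (node (nat_lit 4)
  (nat_lit 117885) (nat_lit 9) (node (nat_lit 5) (nat_lit 111077) (nat_lit 10) (node (nat_lit 6)
  (nat_lit 105290) (nat_lit 11) (node (nat_lit 5) (nat_lit 102660) (nat_lit 12) nil nil) nil) nil)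
  (node (nat_lit 6) (nat_lit 112225) (nat_lit 9) (node (nat_lit 4) (nat_lit 112786) (nat_lit 10)
  nil nil) nil)) (node (nat_lit 4) (nat_lit 117972) (nat_lit 8) nil (node (nat_lit 0) (nat_lit
  109309) (nat_lit 8) nil nil))) (node (nat_lit 4) (nat_lit 118425) (nat_lit 7) (node (nat_lit 5)
  (nat_lit 113544) (nat_lit 8) (node (nat_lit 6) (nat_lit 88485) (nat_lit 9) (node (nat_lit 5)
  (nat_lit 62570) (nat_lit 10) nil nil) nil) nil) (node (nat_lit 0) (nat_lit 120431) (nat_lit 7)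
  nil nil)))) (node (nat_lit 4) (nat_lit 125114) (nat_lit 6) (node (nat_lit 8) (nat_lit 124736)
  (nat_lit 7) (node (nat_lit 6) (nat_lit 121327) (nat_lit 8) nil (node (nat_lit 5) (nat_lit
  124827) (nat_lit 8) nil nil)) (node (nat_lit 6) (nat_lit 128449) (nat_lit 7) (node (nat_lit 5)
  (nat_lit 128171) (nat_lit 8) (node (nat_lit 4) (nat_lit 119837) (nat_lit 9) (node (nat_lit 5)
  (nat_lit 114810) (nat_lit 10) (node (nat_lit 6) (nat_lit 106480) (nat_lit 11) (node (nat_lit 5)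
  (nat_lit 94149) (nat_lit 12) nil nil) nil) nil) nil) (node (nat_lit 4) (nat_lit 125998) (nat_lit
  8) (node (nat_lit 5) (nat_lit 117862) (nat_lit 9) (node (nat_lit 6) (nat_lit 92725) (nat_lit 10)
  (node (nat_lit 5) (nat_lit 88483) (nat_lit 11) nil nil) nil) nil) nil)) nil)) (node (nat_lit 5)
  (nat_lit 105245) (nat_lit 6) (node (nat_lit 4) (nat_lit 119001) (nat_lit 7) (node (nat_lit 5)
  (nat_lit 107765) (nat_lit 8) (node (nat_lit 6) (nat_lit 94111) (nat_lit 9) (node (nat_lit 5)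
  (nat_lit 70900) (nat_lit 10) nil nil) nil) nil) (node (nat_lit 6) (nat_lit 108154) (nat_lit 7)
  (node (nat_lit 8) (nat_lit 109221) (nat_lit 8) nil (node (nat_lit 4) (nat_lit 119759) (nat_lit
  8) (node (nat_lit 5) (nat_lit 120497) (nat_lit 9) (node (nat_lit 6) (nat_lit 118710) (nat_lit
  10) (node (nat_lit 5) (nat_lit 118409) (nat_lit 11) nil nil) nil) nil) (node (nat_lit 5)
  (nat_lit 109221) (nat_lit 8) nil nil))) nil)) (node (nat_lit 0) (nat_lit 122331) (nat_lit 6)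
  (node (nat_lit 5) (nat_lit 124876) (nat_lit 7) nil (node (nat_lit 6) (nat_lit 122998) (nat_lit
  7) nil (node (nat_lit 4) (nat_lit 120650) (nat_lit 7) nil nil))) nil)))) nil)))

noncomputable def t170 : Tr :=
  (node (nat_lit 5) (nat_lit 0) (nat_lit 5) (node (nat_lit 7) (nat_lit 0) (nat_lit 6) (node
  (nat_lit 0) (nat_lit 49140) (nat_lit 7) (node (nat_lit 7) (nat_lit 49140) (nat_lit 8) (node
  (nat_lit 4) (nat_lit 49140) (nat_lit 9) (node (nat_lit 5) (nat_lit 49912) (nat_lit 10) (node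
  (nat_lit 4) (nat_lit 49912) (nat_lit 11) (node (nat_lit 7) (nat_lit 49912) (nat_lit 12) nil nil)
  nil) nil) nil) nil) (node (nat_lit 2) (nat_lit 44987) (nat_lit 7) (node (nat_lit 7) (nat_lit
  45702) (nat_lit 8) (node (nat_lit 4) (nat_lit 45702) (nat_lit 9) (node (nat_lit 5) (nat_lit
  45090) (nat_lit 10) (node (nat_lit 4) (nat_lit 31617) (nat_lit 11) nil nil) nil) nil) (node
  (nat_lit 5) (nat_lit 49990) (nat_lit 8) (node (nat_lit 7) (nat_lit 49990) (nat_lit 9) nil nil)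
  nil)) (node (nat_lit 4) (nat_lit 43649) (nat_lit 7) (node (nat_lit 0) (nat_lit 48940) (nat_lit
  8) nil (node (nat_lit 2) (nat_lit 45239) (nat_lit 8) nil (node (nat_lit 5) (nat_lit 49820)
  (nat_lit 8) (node (nat_lit 4) (nat_lit 49820) (nat_lit 9) nil nil) nil))) nil))) (node (nat_lit
  4) (nat_lit 0) (nat_lit 6) (node (nat_lit 0) (nat_lit 0) (nat_lit 7) (node (nat_lit 4) (nat_lit
  0) (nat_lit 8) (node (nat_lit 7) (nat_lit 50097) (nat_lit 9) (node (nat_lit 5) (nat_lit 51054)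
  (nat_lit 10) (node (nat_lit 7) (nat_lit 51054) (nat_lit 11) (node (nat_lit 4) (nat_lit 51054)
  (nat_lit 12) nil nil) nil) (node (nat_lit 10) (nat_lit 51054) (nat_lit 10) (node (nat_lit 7)
  (nat_lit 51054) (nat_lit 11) (node (nat_lit 4) (nat_lit 51054) (nat_lit 12) nil nil) (node
  (nat_lit 5) (nat_lit 51159) (nat_lit 11) (node (nat_lit 7) (nat_lit 51159) (nat_lit 12) nil nil)
  nil)) (node (nat_lit 4) (nat_lit 50097) (nat_lit 10) (node (nat_lit 10) (nat_lit 51159) (nat_lit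
  11) (node (nat_lit 7) (nat_lit 51159) (nat_lit 12) (node (nat_lit 4) (nat_lit 51159) (nat_lit
  13) nil nil) nil) (node (nat_lit 5) (nat_lit 51159) (nat_lit 11) nil nil)) (node (nat_lit 0)
  (nat_lit 51420) (nat_lit 10) (node (nat_lit 7) (nat_lit 51420) (nat_lit 11) nil nil) (node
  (nat_lit 2) (nat_lit 50097) (nat_lit 10) (node (nat_lit 7) (nat_lit 50097) (nat_lit 11) nil nil)
  nil))))) (node (nat_lit 5) (nat_lit 51667) (nat_lit 9) (node (nat_lit 10) (nat_lit 51731)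
  (nat_lit 10) (node (nat_lit 4) (nat_lit 51731) (nat_lit 11) (node (nat_lit 7) (nat_lit 51731)
  (nat_lit 12) (node (nat_lit 4) (nat_lit 51731) (nat_lit 13) (node (nat_lit 5) (nat_lit 51914)
  (nat_lit 14) nil nil) nil) (node (nat_lit 10) (nat_lit 51840) (nat_lit 12) (node (nat_lit 7)
  (nat_lit 51840) (nat_lit 13) nil nil) nil)) (node (nat_lit 7) (nat_lit 51731) (nat_lit 11) (node
  (nat_lit 4) (nat_lit 51731) (nat_lit 12) nil nil) nil)) (node (nat_lit 7) (nat_lit 51667)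
  (nat_lit 10) (node (nat_lit 4) (nat_lit 51667) (nat_lit 11) nil nil) nil)) (node (nat_lit 0)
  (nat_lit 51667) (nat_lit 9) (node (nat_lit 10) (nat_lit 51731) (nat_lit 10) (node (nat_lit 7)
  (nat_lit 51731) (nat_lit 11) nil nil) (node (nat_lit 4) (nat_lit 51667) (nat_lit 10) (node
  (nat_lit 7) (nat_lit 51667) (nat_lit 11) nil nil) (node (nat_lit 7) (nat_lit 51667) (nat_lit 10)
  (node (nat_lit 4) (nat_lit 51667) (nat_lit 11) nil nil) nil))) (node (nat_lit 2) (nat_lit 50210)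
  (nat_lit 9) (node (nat_lit 10) (nat_lit 51420) (nat_lit 10) (node (nat_lit 7) (nat_lit 51420)
  (nat_lit 11) nil nil) (node (nat_lit 4) (nat_lit 50210) (nat_lit 10) (node (nat_lit 7) (nat_lit
  50210) (nat_lit 11) nil (node (nat_lit 5) (nat_lit 51273) (nat_lit 11) nil nil)) (node (nat_lit
  7) (nat_lit 50210) (nat_lit 10) (node (nat_lit 4) (nat_lit 50210) (nat_lit 11) nil nil) (node
  (nat_lit 5) (nat_lit 51167) (nat_lit 10) (node (nat_lit 7) (nat_lit 51167) (nat_lit 11) nil nil)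
  (node (nat_lit 0) (nat_lit 51167) (nat_lit 10) nil nil))))) nil)))) (node (nat_lit 5) (nat_lit
  51640) (nat_lit 8) (node (nat_lit 10) (nat_lit 51890) (nat_lit 9) (node (nat_lit 4) (nat_lit
  51890) (nat_lit 10) nil nil) (node (nat_lit 7) (nat_lit 51640) (nat_lit 9) (node (nat_lit 4)
  (nat_lit 51640) (nat_lit 10) (node (nat_lit 5) (nat_lit 52011) (nat_lit 11) nil nil) nil) nil))
  (node (nat_lit 0) (nat_lit 51519) (nat_lit 8) (node (nat_lit 4) (nat_lit 51519) (nat_lit 9) nil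
  (node (nat_lit 7) (nat_lit 51519) (nat_lit 9) nil nil)) (node (nat_lit 2) (nat_lit 50223)
  (nat_lit 8) (node (nat_lit 4) (nat_lit 50223) (nat_lit 9) (node (nat_lit 10) (nat_lit 51180)
  (nat_lit 10) (node (nat_lit 7) (nat_lit 51180) (nat_lit 11) nil nil) nil) (node (nat_lit 10)
  (nat_lit 51270) (nat_lit 9) nil (node (nat_lit 7) (nat_lit 50223) (nat_lit 9) nil nil))) (node
  (nat_lit 7) (nat_lit 50223) (nat_lit 8) (node (nat_lit 10) (nat_lit 51059) (nat_lit 9) (node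
  (nat_lit 4) (nat_lit 51059) (nat_lit 10) (node (nat_lit 10) (nat_lit 51286) (nat_lit 11) (node
  (nat_lit 7) (nat_lit 51286) (nat_lit 12) (node (nat_lit 4) (nat_lit 51286) (nat_lit 13) nil nil)
  nil) nil) nil) (node (nat_lit 4) (nat_lit 50223) (nat_lit 9) (node (nat_lit 5) (nat_lit 51180)
  (nat_lit 10) nil nil) nil)) nil))))) (node (nat_lit 2) (nat_lit 0) (nat_lit 7) (node (nat_lit 4)
  (nat_lit 0) (nat_lit 8) (node (nat_lit 7) (nat_lit 47116) (nat_lit 9) (node (nat_lit 5) (nat_lit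
  49317) (nat_lit 10) (node (nat_lit 7) (nat_lit 49317) (nat_lit 11) (node (nat_lit 4) (nat_lit
  49317) (nat_lit 12) (node (nat_lit 5) (nat_lit 49468) (nat_lit 13) (node (nat_lit 4) (nat_lit
  49468) (nat_lit 14) (node (nat_lit 7) (nat_lit 49468) (nat_lit 15) nil nil) nil) nil) nil) nil)
  (node (nat_lit 10) (nat_lit 47116) (nat_lit 10) (node (nat_lit 7) (nat_lit 47116) (nat_lit 11)
  (node (nat_lit 4) (nat_lit 47116) (nat_lit 12) nil nil) (node (nat_lit 4) (nat_lit 47116)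
  (nat_lit 11) (node (nat_lit 10) (nat_lit 47116) (nat_lit 12) (node (nat_lit 7) (nat_lit 47578)
  (nat_lit 13) nil nil) nil) (node (nat_lit 5) (nat_lit 49373) (nat_lit 11) (node (nat_lit 7)
  (nat_lit 49373) (nat_lit 12) nil nil) (node (nat_lit 0) (nat_lit 48634) (nat_lit 11) nil nil))))
  (node (nat_lit 4) (nat_lit 47116) (nat_lit 10) (node (nat_lit 10) (nat_lit 47116) (nat_lit 11)
  (node (nat_lit 7) (nat_lit 47116) (nat_lit 12) (node (nat_lit 4) (nat_lit 47578) (nat_lit 13)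
  nil nil) nil) (node (nat_lit 5) (nat_lit 48634) (nat_lit 11) (node (nat_lit 4) (nat_lit 35851)
  (nat_lit 12) (node (nat_lit 7) (nat_lit 28695) (nat_lit 13) nil nil) nil) nil)) (node (nat_lit
  0) (nat_lit 49317) (nat_lit 10) (node (nat_lit 7) (nat_lit 49317) (nat_lit 11) nil nil) nil))))
  (node (nat_lit 5) (nat_lit 51068) (nat_lit 9) (node (nat_lit 10) (nat_lit 51068) (nat_lit 10)
  (node (nat_lit 4) (nat_lit 51068) (nat_lit 11) (node (nat_lit 7) (nat_lit 51068) (nat_lit 12)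
  (node (nat_lit 4) (nat_lit 51068) (nat_lit 13) (node (nat_lit 5) (nat_lit 51316) (nat_lit 14)
  nil nil) nil) (node (nat_lit 10) (nat_lit 51068) (nat_lit 12) (node (nat_lit 7) (nat_lit 51068)
  (nat_lit 13) nil nil) nil)) (node (nat_lit 7) (nat_lit 51068) (nat_lit 11) (node (nat_lit 4)
  (nat_lit 51068) (nat_lit 12) nil nil) (node (nat_lit 5) (nat_lit 51189) (nat_lit 11) (node
  (nat_lit 7) (nat_lit 51189) (nat_lit 12) nil nil) nil))) (node (nat_lit 7) (nat_lit 51068)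
  (nat_lit 10) (node (nat_lit 4) (nat_lit 51068) (nat_lit 11) (node (nat_lit 5) (nat_lit 51241)
  (nat_lit 12) (node (nat_lit 4) (nat_lit 51241) (nat_lit 13) nil nil) nil) nil) (node (nat_lit 0)
  (nat_lit 51132) (nat_lit 10) (node (nat_lit 7) (nat_lit 51132) (nat_lit 11) nil nil) (node
  (nat_lit 4) (nat_lit 51068) (nat_lit 10) nil nil)))) (node (nat_lit 0) (nat_lit 51032) (nat_lit
  9) (node (nat_lit 10) (nat_lit 51032) (nat_lit 10) (node (nat_lit 4) (nat_lit 51032) (nat_lit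
  11) (node (nat_lit 7) (nat_lit 51032) (nat_lit 12) nil nil) (node (nat_lit 7) (nat_lit 51032)
  (nat_lit 11) nil nil)) (node (nat_lit 4) (nat_lit 51032) (nat_lit 10) (node (nat_lit 7) (nat_lit
  51032) (nat_lit 11) nil nil) (node (nat_lit 7) (nat_lit 51032) (nat_lit 10) (node (nat_lit 4)
  (nat_lit 51032) (nat_lit 11) nil nil) (node (nat_lit 5) (nat_lit 51132) (nat_lit 10) (node
  (nat_lit 7) (nat_lit 51132) (nat_lit 11) nil nil) nil)))) nil))) (node (nat_lit 5) (nat_lit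
  51235) (nat_lit 8) (node (nat_lit 10) (nat_lit 51235) (nat_lit 9) (node (nat_lit 4) (nat_lit
  51235) (nat_lit 10) (node (nat_lit 10) (nat_lit 51235) (nat_lit 11) (node (nat_lit 5) (nat_lit
  51789) (nat_lit 12) (node (nat_lit 7) (nat_lit 51789) (nat_lit 13) (node (nat_lit 4) (nat_lit
  51789) (nat_lit 14) nil nil) nil) nil) nil) nil) (node (nat_lit 7) (nat_lit 51235) (nat_lit 9)
  (node (nat_lit 4) (nat_lit 51235) (nat_lit 10) (node (nat_lit 5) (nat_lit 51697) (nat_lit 11)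
  nil nil) nil) (node (nat_lit 4) (nat_lit 51235) (nat_lit 9) nil nil))) (node (nat_lit 0)
  (nat_lit 51235) (nat_lit 8) (node (nat_lit 4) (nat_lit 51235) (nat_lit 9) nil (node (nat_lit 7)
  (nat_lit 51235) (nat_lit 9) nil nil)) (node (nat_lit 7) (nat_lit 0) (nat_lit 8) (node (nat_lit
  10) (nat_lit 47116) (nat_lit 9) (node (nat_lit 4) (nat_lit 47116) (nat_lit 10) (node (nat_lit
  10) (nat_lit 47116) (nat_lit 11) (node (nat_lit 7) (nat_lit 47116) (nat_lit 12) (node (nat_lit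
  4) (nat_lit 47578) (nat_lit 13) nil nil) nil) nil) nil) (node (nat_lit 4) (nat_lit 47116)
  (nat_lit 9) (node (nat_lit 5) (nat_lit 48517) (nat_lit 10) (node (nat_lit 4) (nat_lit 38181)
  (nat_lit 11) nil nil) (node (nat_lit 7) (nat_lit 47116) (nat_lit 10) nil nil)) (node (nat_lit 5)
  (nat_lit 50822) (nat_lit 9) nil (node (nat_lit 0) (nat_lit 49618) (nat_lit 9) nil nil))))
  nil)))) (node (nat_lit 5) (nat_lit 0) (nat_lit 7) (node (nat_lit 0) (nat_lit 51273) (nat_lit 8)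
  (node (nat_lit 4) (nat_lit 51273) (nat_lit 9) (node (nat_lit 5) (nat_lit 51680) (nat_lit 10)
  (node (nat_lit 7) (nat_lit 51680) (nat_lit 11) (node (nat_lit 4) (nat_lit 51680) (nat_lit 12)
  nil nil) nil) (node (nat_lit 7) (nat_lit 51273) (nat_lit 10) nil nil)) (node (nat_lit 5)
  (nat_lit 51673) (nat_lit 9) (node (nat_lit 7) (nat_lit 51673) (nat_lit 10) nil nil) (node
  (nat_lit 7) (nat_lit 51273) (nat_lit 9) (node (nat_lit 4) (nat_lit 51273) (nat_lit 10) nil nil)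
  nil))) (node (nat_lit 2) (nat_lit 0) (nat_lit 8) (node (nat_lit 4) (nat_lit 49705) (nat_lit 9)
  (node (nat_lit 5) (nat_lit 50944) (nat_lit 10) (node (nat_lit 7) (nat_lit 50944) (nat_lit 11)
  (node (nat_lit 4) (nat_lit 50944) (nat_lit 12) nil nil) nil) (node (nat_lit 11) (nat_lit 49705)
  (nat_lit 10) nil (node (nat_lit 7) (nat_lit 49705) (nat_lit 10) nil nil))) (node (nat_lit 5)
  (nat_lit 51349) (nat_lit 9) (node (nat_lit 7) (nat_lit 51349) (nat_lit 10) nil nil) (node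
  (nat_lit 7) (nat_lit 49707) (nat_lit 9) (node (nat_lit 4) (nat_lit 49707) (nat_lit 10) nil (node
  (nat_lit 5) (nat_lit 50664) (nat_lit 10) nil nil)) (node (nat_lit 0) (nat_lit 51349) (nat_lit 9)
  nil nil)))) (node (nat_lit 7) (nat_lit 49003) (nat_lit 8) (node (nat_lit 4) (nat_lit 49069)
  (nat_lit 9) (node (nat_lit 7) (nat_lit 49069) (nat_lit 10) (node (nat_lit 5) (nat_lit 51952)
  (nat_lit 11) nil nil) nil) (node (nat_lit 5) (nat_lit 51441) (nat_lit 9) nil nil)) nil))) nil)))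
  (node (nat_lit 0) (nat_lit 47651) (nat_lit 6) (node (nat_lit 7) (nat_lit 47651) (nat_lit 7)
  (node (nat_lit 4) (nat_lit 47651) (nat_lit 8) (node (nat_lit 5) (nat_lit 49155) (nat_lit 9) nil
  nil) nil) (node (nat_lit 4) (nat_lit 47651) (nat_lit 7) (node (nat_lit 7) (nat_lit 47651)
  (nat_lit 8) (node (nat_lit 4) (nat_lit 47651) (nat_lit 9) (node (nat_lit 5) (nat_lit 45797)
  (nat_lit 10) nil nil) nil) nil) (node (nat_lit 5) (nat_lit 48932) (nat_lit 7) (node (nat_lit 7)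
  (nat_lit 48932) (nat_lit 8) nil nil) nil))) (node (nat_lit 2) (nat_lit 0) (nat_lit 6) (node
  (nat_lit 7) (nat_lit 45843) (nat_lit 7) (node (nat_lit 9) (nat_lit 46073) (nat_lit 8) (node
  (nat_lit 5) (nat_lit 48366) (nat_lit 9) nil nil) (node (nat_lit 4) (nat_lit 45080) (nat_lit 8)
  (node (nat_lit 5) (nat_lit 43803) (nat_lit 9) (node (nat_lit 4) (nat_lit 28433) (nat_lit 10) nil
  nil) nil) nil)) (node (nat_lit 4) (nat_lit 45029) (nat_lit 7) (node (nat_lit 9) (nat_lit 45499)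
  (nat_lit 8) (node (nat_lit 7) (nat_lit 45499) (nat_lit 9) nil nil) (node (nat_lit 5) (nat_lit
  48173) (nat_lit 8) (node (nat_lit 7) (nat_lit 48173) (nat_lit 9) (node (nat_lit 4) (nat_lit
  48173) (nat_lit 10) nil nil) nil) (node (nat_lit 7) (nat_lit 45029) (nat_lit 8) (node (nat_lit
  4) (nat_lit 45029) (nat_lit 9) (node (nat_lit 5) (nat_lit 44326) (nat_lit 10) (node (nat_lit 4)
  (nat_lit 38525) (nat_lit 11) (node (nat_lit 7) (nat_lit 27203) (nat_lit 12) nil nil) nil) nil)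
  nil) nil))) (node (nat_lit 0) (nat_lit 47917) (nat_lit 7) nil (node (nat_lit 5) (nat_lit 49312)
  (nat_lit 7) (node (nat_lit 7) (nat_lit 49312) (nat_lit 8) (node (nat_lit 4) (nat_lit 49312)
  (nat_lit 9) (node (nat_lit 5) (nat_lit 49912) (nat_lit 10) nil nil) nil) nil) nil)))) nil))))
  (node (nat_lit 4) (nat_lit 0) (nat_lit 5) (node (nat_lit 5) (nat_lit 0) (nat_lit 6) (node
  (nat_lit 0) (nat_lit 0) (nat_lit 7) (node (nat_lit 5) (nat_lit 0) (nat_lit 8) (node (nat_lit 7)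
  (nat_lit 29251) (nat_lit 9) (node (nat_lit 4) (nat_lit 29251) (nat_lit 10) (node (nat_lit 5)
  (nat_lit 29992) (nat_lit 11) (node (nat_lit 4) (nat_lit 29992) (nat_lit 12) (node (nat_lit 7)
  (nat_lit 29992) (nat_lit 13) nil nil) nil) nil) (node (nat_lit 10) (nat_lit 29839) (nat_lit 10)
  (node (nat_lit 7) (nat_lit 29839) (nat_lit 11) nil nil) nil)) (node (nat_lit 4) (nat_lit 29251)
  (nat_lit 9) (node (nat_lit 10) (nat_lit 29839) (nat_lit 10) (node (nat_lit 5) (nat_lit 29992)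
  (nat_lit 11) nil (node (nat_lit 7) (nat_lit 29839) (nat_lit 11) (node (nat_lit 4) (nat_lit
  29839) (nat_lit 12) nil nil) nil)) (node (nat_lit 7) (nat_lit 28966) (nat_lit 10) (node (nat_lit
  4) (nat_lit 26249) (nat_lit 11) (node (nat_lit 5) (nat_lit 25440) (nat_lit 12) nil nil) nil)
  (node (nat_lit 0) (nat_lit 29839) (nat_lit 10) (node (nat_lit 7) (nat_lit 29839) (nat_lit 11)
  nil nil) (node (nat_lit 2) (nat_lit 28523) (nat_lit 10) (node (nat_lit 7) (nat_lit 28704)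
  (nat_lit 11) nil nil) nil)))) (node (nat_lit 0) (nat_lit 29664) (nat_lit 9) (node (nat_lit 10)
  (nat_lit 29839) (nat_lit 10) (node (nat_lit 7) (nat_lit 29839) (nat_lit 11) nil nil) (node
  (nat_lit 5) (nat_lit 29839) (nat_lit 10) (node (nat_lit 7) (nat_lit 29839) (nat_lit 11) nil nil)
  (node (nat_lit 7) (nat_lit 29664) (nat_lit 10) (node (nat_lit 4) (nat_lit 29664) (nat_lit 11)
  nil nil) nil))) (node (nat_lit 2) (nat_lit 27185) (nat_lit 9) (node (nat_lit 10) (nat_lit 27827)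
  (nat_lit 10) (node (nat_lit 5) (nat_lit 28391) (nat_lit 11) nil (node (nat_lit 7) (nat_lit
  28391) (nat_lit 11) nil nil)) (node (nat_lit 5) (nat_lit 27827) (nat_lit 10) (node (nat_lit 7)
  (nat_lit 28391) (nat_lit 11) nil nil) (node (nat_lit 4) (nat_lit 25297) (nat_lit 10) (node
  (nat_lit 7) (nat_lit 25477) (nat_lit 11) nil nil) (node (nat_lit 7) (nat_lit 27235) (nat_lit 10)
  (node (nat_lit 4) (nat_lit 26165) (nat_lit 11) nil nil) (node (nat_lit 0) (nat_lit 27827)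
  (nat_lit 10) nil nil))))) nil)))) (node (nat_lit 4) (nat_lit 28027) (nat_lit 8) (node (nat_lit
  7) (nat_lit 28027) (nat_lit 9) (node (nat_lit 4) (nat_lit 26437) (nat_lit 10) (node (nat_lit 5)
  (nat_lit 24718) (nat_lit 11) nil nil) nil) (node (nat_lit 10) (nat_lit 29234) (nat_lit 9) nil
  (node (nat_lit 5) (nat_lit 29234) (nat_lit 9) (node (nat_lit 7) (nat_lit 29234) (nat_lit 10) nil
  nil) nil))) (node (nat_lit 7) (nat_lit 28027) (nat_lit 8) (node (nat_lit 4) (nat_lit 28027)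
  (nat_lit 9) (node (nat_lit 5) (nat_lit 29409) (nat_lit 10) nil nil) (node (nat_lit 10) (nat_lit
  29234) (nat_lit 9) nil (node (nat_lit 5) (nat_lit 29234) (nat_lit 9) (node (nat_lit 7) (nat_lit
  29234) (nat_lit 10) nil nil) nil))) (node (nat_lit 0) (nat_lit 28966) (nat_lit 8) (node (nat_lit
  5) (nat_lit 29484) (nat_lit 9) nil (node (nat_lit 7) (nat_lit 29071) (nat_lit 9) nil nil)) (node
  (nat_lit 2) (nat_lit 26932) (nat_lit 8) (node (nat_lit 5) (nat_lit 27954) (nat_lit 9) (node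
  (nat_lit 10) (nat_lit 28447) (nat_lit 10) (node (nat_lit 7) (nat_lit 28882) (nat_lit 11) nil
  nil) nil) (node (nat_lit 10) (nat_lit 27954) (nat_lit 9) nil (node (nat_lit 7) (nat_lit 25007)
  (nat_lit 9) nil nil))) nil))))) (node (nat_lit 2) (nat_lit 0) (nat_lit 7) (node (nat_lit 5)
  (nat_lit 0) (nat_lit 8) (node (nat_lit 7) (nat_lit 29251) (nat_lit 9) (node (nat_lit 4) (nat_lit
  29251) (nat_lit 10) (node (nat_lit 5) (nat_lit 29992) (nat_lit 11) (node (nat_lit 4) (nat_lit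
  29495) (nat_lit 12) (node (nat_lit 7) (nat_lit 29650) (nat_lit 13) nil nil) nil) nil) (node
  (nat_lit 10) (nat_lit 29251) (nat_lit 10) (node (nat_lit 7) (nat_lit 28619) (nat_lit 11) (node
  (nat_lit 4) (nat_lit 27134) (nat_lit 12) nil nil) nil) (node (nat_lit 5) (nat_lit 29839)
  (nat_lit 10) (node (nat_lit 4) (nat_lit 28574) (nat_lit 11) (node (nat_lit 7) (nat_lit 28805)
  (nat_lit 12) (node (nat_lit 4) (nat_lit 28424) (nat_lit 13) (node (nat_lit 5) (nat_lit 28157)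
  (nat_lit 14) nil nil) nil) nil) nil) (node (nat_lit 0) (nat_lit 29839) (nat_lit 10) nil nil))))
  (node (nat_lit 4) (nat_lit 29251) (nat_lit 9) (node (nat_lit 10) (nat_lit 29251) (nat_lit 10)
  (node (nat_lit 5) (nat_lit 29992) (nat_lit 11) (node (nat_lit 7) (nat_lit 29992) (nat_lit 12)
  (node (nat_lit 4) (nat_lit 29992) (nat_lit 13) nil nil) nil) (node (nat_lit 7) (nat_lit 28382)
  (nat_lit 11) (node (nat_lit 4) (nat_lit 27782) (nat_lit 12) nil nil) nil)) (node (nat_lit 7)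
  (nat_lit 29251) (nat_lit 10) (node (nat_lit 4) (nat_lit 28202) (nat_lit 11) (node (nat_lit 5)
  (nat_lit 25268) (nat_lit 12) nil nil) nil) nil)) (node (nat_lit 0) (nat_lit 29434) (nat_lit 9)
  (node (nat_lit 10) (nat_lit 27545) (nat_lit 10) (node (nat_lit 7) (nat_lit 27726) (nat_lit 11)
  nil nil) (node (nat_lit 5) (nat_lit 29839) (nat_lit 10) (node (nat_lit 7) (nat_lit 29839)
  (nat_lit 11) nil nil) (node (nat_lit 7) (nat_lit 29664) (nat_lit 10) (node (nat_lit 4) (nat_lit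
  29664) (nat_lit 11) nil nil) nil))) nil))) (node (nat_lit 4) (nat_lit 26829) (nat_lit 8) (node
  (nat_lit 7) (nat_lit 26829) (nat_lit 9) (node (nat_lit 4) (nat_lit 27799) (nat_lit 10) (node
  (nat_lit 5) (nat_lit 24718) (nat_lit 11) nil nil) nil) (node (nat_lit 10) (nat_lit 26829)
  (nat_lit 9) (node (nat_lit 5) (nat_lit 28876) (nat_lit 10) (node (nat_lit 10) (nat_lit 27374)
  (nat_lit 11) nil nil) nil) (node (nat_lit 5) (nat_lit 29809) (nat_lit 9) (node (nat_lit 7)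
  (nat_lit 29809) (nat_lit 10) nil nil) nil))) (node (nat_lit 7) (nat_lit 26695) (nat_lit 8) (node
  (nat_lit 4) (nat_lit 26695) (nat_lit 9) (node (nat_lit 5) (nat_lit 25121) (nat_lit 10) nil nil)
  (node (nat_lit 10) (nat_lit 26695) (nat_lit 9) (node (nat_lit 5) (nat_lit 29046) (nat_lit 10)
  (node (nat_lit 10) (nat_lit 28193) (nat_lit 11) (node (nat_lit 7) (nat_lit 28423) (nat_lit 12)
  nil nil) nil) nil) (node (nat_lit 5) (nat_lit 28871) (nat_lit 9) (node (nat_lit 7) (nat_lit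
  28871) (nat_lit 10) nil nil) nil))) (node (nat_lit 0) (nat_lit 28677) (nat_lit 8) (node (nat_lit
  5) (nat_lit 29090) (nat_lit 9) nil (node (nat_lit 7) (nat_lit 28677) (nat_lit 9) nil nil))
  nil)))) (node (nat_lit 7) (nat_lit 0) (nat_lit 7) (node (nat_lit 0) (nat_lit 28792) (nat_lit 8)
  (node (nat_lit 5) (nat_lit 29204) (nat_lit 9) (node (nat_lit 7) (nat_lit 29204) (nat_lit 10)
  (node (nat_lit 4) (nat_lit 29204) (nat_lit 11) (node (nat_lit 5) (nat_lit 29672) (nat_lit 12)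
  nil nil) nil) nil) (node (nat_lit 7) (nat_lit 28792) (nat_lit 9) (node (nat_lit 4) (nat_lit
  28792) (nat_lit 10) nil nil) nil)) (node (nat_lit 2) (nat_lit 25404) (nat_lit 8) (node (nat_lit
  5) (nat_lit 28384) (nat_lit 9) (node (nat_lit 7) (nat_lit 28384) (nat_lit 10) (node (nat_lit 4)
  (nat_lit 28384) (nat_lit 11) (node (nat_lit 5) (nat_lit 28852) (nat_lit 12) nil nil) nil) nil)
  (node (nat_lit 4) (nat_lit 24589) (nat_lit 9) (node (nat_lit 7) (nat_lit 25558) (nat_lit 10)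
  (node (nat_lit 4) (nat_lit 25651) (nat_lit 11) nil nil) nil) (node (nat_lit 7) (nat_lit 25766)
  (nat_lit 9) (node (nat_lit 4) (nat_lit 26736) (nat_lit 10) nil nil) nil))) (node (nat_lit 4)
  (nat_lit 0) (nat_lit 8) (node (nat_lit 7) (nat_lit 25620) (nat_lit 9) (node (nat_lit 5) (nat_lit
  28068) (nat_lit 10) (node (nat_lit 7) (nat_lit 29349) (nat_lit 11) nil (node (nat_lit 4)
  (nat_lit 29349) (nat_lit 11) nil nil)) nil) (node (nat_lit 2) (nat_lit 25476) (nat_lit 9) nil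
  (node (nat_lit 0) (nat_lit 26427) (nat_lit 9) nil nil))) (node (nat_lit 5) (nat_lit 23355)
  (nat_lit 8) (node (nat_lit 4) (nat_lit 26427) (nat_lit 9) (node (nat_lit 7) (nat_lit 27673)
  (nat_lit 10) nil nil) nil) nil)))) nil))) (node (nat_lit 0) (nat_lit 0) (nat_lit 6) (node
  (nat_lit 7) (nat_lit 38436) (nat_lit 7) (node (nat_lit 9) (nat_lit 41100) (nat_lit 8) nil (node
  (nat_lit 5) (nat_lit 41100) (nat_lit 8) nil (node (nat_lit 4) (nat_lit 41100) (nat_lit 8) (node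
  (nat_lit 5) (nat_lit 42119) (nat_lit 9) (node (nat_lit 4) (nat_lit 40230) (nat_lit 10) nil nil)
  nil) nil))) (node (nat_lit 5) (nat_lit 38436) (nat_lit 7) (node (nat_lit 7) (nat_lit 41100)
  (nat_lit 8) nil (node (nat_lit 9) (nat_lit 41100) (nat_lit 8) (node (nat_lit 7) (nat_lit 42119)
  (nat_lit 9) nil nil) (node (nat_lit 4) (nat_lit 36730) (nat_lit 8) nil nil))) (node (nat_lit 4)
  (nat_lit 38037) (nat_lit 7) nil (node (nat_lit 0) (nat_lit 38436) (nat_lit 7) (node (nat_lit 9)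
  (nat_lit 41100) (nat_lit 8) nil (node (nat_lit 7) (nat_lit 41100) (nat_lit 8) nil nil)) (node
  (nat_lit 2) (nat_lit 38436) (nat_lit 7) (node (nat_lit 9) (nat_lit 41100) (nat_lit 8) (node
  (nat_lit 7) (nat_lit 42119) (nat_lit 9) nil nil) (node (nat_lit 4) (nat_lit 38252) (nat_lit 8)
  (node (nat_lit 7) (nat_lit 37140) (nat_lit 9) nil nil) (node (nat_lit 7) (nat_lit 40275)
  (nat_lit 8) (node (nat_lit 4) (nat_lit 31821) (nat_lit 9) nil nil) (node (nat_lit 5) (nat_lit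
  41100) (nat_lit 8) nil nil)))) nil))))) (node (nat_lit 2) (nat_lit 0) (nat_lit 6) (node (nat_lit
  7) (nat_lit 0) (nat_lit 7) (node (nat_lit 9) (nat_lit 0) (nat_lit 8) (node (nat_lit 4) (nat_lit
  29990) (nat_lit 9) (node (nat_lit 7) (nat_lit 29995) (nat_lit 10) (node (nat_lit 4) (nat_lit
  30725) (nat_lit 11) (node (nat_lit 5) (nat_lit 28137) (nat_lit 12) (node (nat_lit 4) (nat_lit
  25085) (nat_lit 13) (node (nat_lit 7) (nat_lit 23961) (nat_lit 14) nil nil) nil) nil) nil) (node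
  (nat_lit 9) (nat_lit 27847) (nat_lit 10) nil nil)) (node (nat_lit 5) (nat_lit 37521) (nat_lit 9)
  nil (node (nat_lit 0) (nat_lit 33369) (nat_lit 9) nil nil))) (node (nat_lit 5) (nat_lit 40275)
  (nat_lit 8) (node (nat_lit 7) (nat_lit 40275) (nat_lit 9) (node (nat_lit 4) (nat_lit 40275)
  (nat_lit 10) (node (nat_lit 5) (nat_lit 40561) (nat_lit 11) (node (nat_lit 4) (nat_lit 40561)
  (nat_lit 12) (node (nat_lit 7) (nat_lit 40561) (nat_lit 13) (node (nat_lit 4) (nat_lit 40561)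
  (nat_lit 14) nil nil) nil) nil) nil) nil) nil) (node (nat_lit 4) (nat_lit 29862) (nat_lit 8)
  (node (nat_lit 5) (nat_lit 32360) (nat_lit 9) nil (node (nat_lit 7) (nat_lit 29862) (nat_lit 9)
  (node (nat_lit 5) (nat_lit 33392) (nat_lit 10) nil (node (nat_lit 9) (nat_lit 27719) (nat_lit
  10) nil nil)) nil)) (node (nat_lit 0) (nat_lit 36967) (nat_lit 8) nil nil)))) (node (nat_lit 5)
  (nat_lit 38436) (nat_lit 7) (node (nat_lit 7) (nat_lit 41100) (nat_lit 8) (node (nat_lit 4)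
  (nat_lit 42119) (nat_lit 9) (node (nat_lit 5) (nat_lit 42760) (nat_lit 10) nil nil) (node
  (nat_lit 5) (nat_lit 42119) (nat_lit 9) (node (nat_lit 4) (nat_lit 40230) (nat_lit 10) (node
  (nat_lit 7) (nat_lit 40411) (nat_lit 11) (node (nat_lit 4) (nat_lit 39811) (nat_lit 12) nil nil)
  nil) nil) nil)) (node (nat_lit 9) (nat_lit 40185) (nat_lit 8) (node (nat_lit 7) (nat_lit 38238)
  (nat_lit 9) (node (nat_lit 4) (nat_lit 31666) (nat_lit 10) (node (nat_lit 5) (nat_lit 29654)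
  (nat_lit 11) nil nil) nil) nil) (node (nat_lit 4) (nat_lit 36730) (nat_lit 8) nil nil))) (node
  (nat_lit 4) (nat_lit 0) (nat_lit 7) (node (nat_lit 7) (nat_lit 29863) (nat_lit 8) (node (nat_lit
  4) (nat_lit 29863) (nat_lit 9) (node (nat_lit 5) (nat_lit 24733) (nat_lit 10) (node (nat_lit 4)
  (nat_lit 16701) (nat_lit 11) nil nil) nil) nil) (node (nat_lit 5) (nat_lit 40351) (nat_lit 8)
  (node (nat_lit 7) (nat_lit 40351) (nat_lit 9) nil nil) (node (nat_lit 0) (nat_lit 40351)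
  (nat_lit 8) nil nil))) (node (nat_lit 0) (nat_lit 38436) (nat_lit 7) (node (nat_lit 7) (nat_lit
  41100) (nat_lit 8) nil nil) nil)))) nil))) (node (nat_lit 0) (nat_lit 45436) (nat_lit 5) (node
  (nat_lit 5) (nat_lit 47753) (nat_lit 6) nil (node (nat_lit 4) (nat_lit 45911) (nat_lit 6) nil
  (node (nat_lit 7) (nat_lit 45911) (nat_lit 6) (node (nat_lit 4) (nat_lit 45853) (nat_lit 7)
  (node (nat_lit 5) (nat_lit 46964) (nat_lit 8) nil nil) nil) nil))) (node (nat_lit 2) (nat_lit 0)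
  (nat_lit 5) (node (nat_lit 5) (nat_lit 47112) (nat_lit 6) (node (nat_lit 7) (nat_lit 47112)
  (nat_lit 7) nil nil) (node (nat_lit 4) (nat_lit 0) (nat_lit 6) (node (nat_lit 8) (nat_lit 30172)
  (nat_lit 7) (node (nat_lit 7) (nat_lit 30172) (nat_lit 8) (node (nat_lit 4) (nat_lit 30172)
  (nat_lit 9) (node (nat_lit 5) (nat_lit 35711) (nat_lit 10) (node (nat_lit 4) (nat_lit 18604)
  (nat_lit 11) nil nil) nil) nil) (node (nat_lit 5) (nat_lit 43195) (nat_lit 8) nil nil)) (node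
  (nat_lit 5) (nat_lit 46448) (nat_lit 7) nil (node (nat_lit 7) (nat_lit 30172) (nat_lit 7) (node
  (nat_lit 5) (nat_lit 43742) (nat_lit 8) nil (node (nat_lit 4) (nat_lit 30172) (nat_lit 8) (node
  (nat_lit 5) (nat_lit 30229) (nat_lit 9) nil nil) nil)) (node (nat_lit 0) (nat_lit 45333)
  (nat_lit 7) nil nil)))) (node (nat_lit 7) (nat_lit 30158) (nat_lit 6) (node (nat_lit 4) (nat_lit
  30158) (nat_lit 7) (node (nat_lit 5) (nat_lit 28761) (nat_lit 8) nil (node (nat_lit 7) (nat_lit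
  30158) (nat_lit 8) nil nil)) (node (nat_lit 5) (nat_lit 47082) (nat_lit 7) nil nil)) (node
  (nat_lit 0) (nat_lit 47345) (nat_lit 6) nil nil)))) nil))))

noncomputable def t171 : Tr :=
  (node (nat_lit 4) (nat_lit 0) (nat_lit 6) (node (nat_lit 0) (nat_lit 0) (nat_lit 7) (node
  (nat_lit 4) (nat_lit 0) (nat_lit 8) (node (nat_lit 5) (nat_lit 23359) (nat_lit 9) (node (nat_lit
  10) (nat_lit 25288) (nat_lit 10) (node (nat_lit 5) (nat_lit 25288) (nat_lit 11) (node (nat_lit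
  4) (nat_lit 25288) (nat_lit 12) nil nil) nil) (node (nat_lit 6) (nat_lit 24893) (nat_lit 10)
  (node (nat_lit 5) (nat_lit 24893) (nat_lit 11) nil nil) (node (nat_lit 0) (nat_lit 24893)
  (nat_lit 10) (node (nat_lit 5) (nat_lit 24893) (nat_lit 11) nil nil) (node (nat_lit 2) (nat_lit
  23335) (nat_lit 10) (node (nat_lit 5) (nat_lit 23837) (nat_lit 11) nil nil) nil)))) (node
  (nat_lit 6) (nat_lit 24737) (nat_lit 9) (node (nat_lit 5) (nat_lit 24737) (nat_lit 10) (node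
  (nat_lit 4) (nat_lit 24737) (nat_lit 11) (node (nat_lit 5) (nat_lit 24737) (nat_lit 12) (node
  (nat_lit 6) (nat_lit 25245) (nat_lit 13) nil nil) nil) nil) (node (nat_lit 10) (nat_lit 24890)
  (nat_lit 10) (node (nat_lit 5) (nat_lit 24890) (nat_lit 11) nil nil) nil)) (node (nat_lit 0)
  (nat_lit 24860) (nat_lit 9) (node (nat_lit 10) (nat_lit 25166) (nat_lit 10) nil (node (nat_lit
  4) (nat_lit 24860) (nat_lit 10) nil (node (nat_lit 5) (nat_lit 24860) (nat_lit 10) (node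
  (nat_lit 4) (nat_lit 24860) (nat_lit 11) (node (nat_lit 5) (nat_lit 24860) (nat_lit 12) nil nil)
  nil) (node (nat_lit 6) (nat_lit 25013) (nat_lit 10) (node (nat_lit 5) (nat_lit 25013) (nat_lit
  11) nil nil) (node (nat_lit 0) (nat_lit 25013) (nat_lit 10) nil (node (nat_lit 2) (nat_lit
  24860) (nat_lit 10) nil nil)))))) (node (nat_lit 2) (nat_lit 23440) (nat_lit 9) (node (nat_lit
  10) (nat_lit 24975) (nat_lit 10) nil (node (nat_lit 4) (nat_lit 23534) (nat_lit 10) (node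
  (nat_lit 10) (nat_lit 24646) (nat_lit 11) nil (node (nat_lit 6) (nat_lit 24646) (nat_lit 11) nil
  (node (nat_lit 5) (nat_lit 24036) (nat_lit 11) nil nil))) (node (nat_lit 5) (nat_lit 23669)
  (nat_lit 10) (node (nat_lit 4) (nat_lit 24171) (nat_lit 11) (node (nat_lit 5) (nat_lit 24494)
  (nat_lit 12) nil nil) nil) (node (nat_lit 6) (nat_lit 24975) (nat_lit 10) (node (nat_lit 5)
  (nat_lit 24975) (nat_lit 11) nil nil) (node (nat_lit 0) (nat_lit 24975) (nat_lit 10) nil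
  nil))))) nil)))) (node (nat_lit 5) (nat_lit 22695) (nat_lit 8) (node (nat_lit 10) (nat_lit
  24689) (nat_lit 9) nil (node (nat_lit 4) (nat_lit 23392) (nat_lit 9) (node (nat_lit 5) (nat_lit
  24072) (nat_lit 10) nil nil) (node (nat_lit 6) (nat_lit 24689) (nat_lit 9) (node (nat_lit 5)
  (nat_lit 24689) (nat_lit 10) nil nil) nil))) (node (nat_lit 0) (nat_lit 23755) (nat_lit 8) (node
  (nat_lit 4) (nat_lit 23755) (nat_lit 9) (node (nat_lit 10) (nat_lit 24232) (nat_lit 10) (node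
  (nat_lit 5) (nat_lit 24232) (nat_lit 11) nil nil) nil) (node (nat_lit 5) (nat_lit 23755)
  (nat_lit 9) nil nil)) (node (nat_lit 2) (nat_lit 22818) (nat_lit 8) (node (nat_lit 4) (nat_lit
  22961) (nat_lit 9) (node (nat_lit 10) (nat_lit 23940) (nat_lit 10) (node (nat_lit 5) (nat_lit
  23940) (nat_lit 11) nil nil) nil) (node (nat_lit 10) (nat_lit 24672) (nat_lit 9) nil (node
  (nat_lit 5) (nat_lit 22940) (nat_lit 9) nil nil))) (node (nat_lit 6) (nat_lit 23806) (nat_lit 8)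
  (node (nat_lit 5) (nat_lit 23892) (nat_lit 9) (node (nat_lit 4) (nat_lit 23662) (nat_lit 10) nil
  nil) (node (nat_lit 10) (nat_lit 24737) (nat_lit 9) nil (node (nat_lit 4) (nat_lit 24090)
  (nat_lit 9) nil nil))) nil))))) (node (nat_lit 2) (nat_lit 0) (nat_lit 7) (node (nat_lit 4)
  (nat_lit 0) (nat_lit 8) (node (nat_lit 5) (nat_lit 16560) (nat_lit 9) (node (nat_lit 10)
  (nat_lit 16560) (nat_lit 10) (node (nat_lit 4) (nat_lit 18871) (nat_lit 11) (node (nat_lit 6)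
  (nat_lit 23516) (nat_lit 12) (node (nat_lit 5) (nat_lit 23516) (nat_lit 13) nil nil) (node
  (nat_lit 10) (nat_lit 20424) (nat_lit 12) (node (nat_lit 5) (nat_lit 21674) (nat_lit 13) (node
  (nat_lit 4) (nat_lit 19107) (nat_lit 14) (node (nat_lit 5) (nat_lit 18582) (nat_lit 15) nil nil)
  nil) (node (nat_lit 6) (nat_lit 21896) (nat_lit 13) nil nil)) (node (nat_lit 0) (nat_lit 22069)
  (nat_lit 12) nil nil))) (node (nat_lit 5) (nat_lit 18186) (nat_lit 11) (node (nat_lit 4)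
  (nat_lit 19044) (nat_lit 12) nil (node (nat_lit 6) (nat_lit 20114) (nat_lit 12) nil nil)) (node
  (nat_lit 6) (nat_lit 22592) (nat_lit 11) (node (nat_lit 5) (nat_lit 22592) (nat_lit 12) nil nil)
  (node (nat_lit 0) (nat_lit 22592) (nat_lit 11) nil nil)))) (node (nat_lit 6) (nat_lit 23412)
  (nat_lit 10) (node (nat_lit 5) (nat_lit 23412) (nat_lit 11) nil nil) (node (nat_lit 0) (nat_lit
  23412) (nat_lit 10) (node (nat_lit 5) (nat_lit 23412) (nat_lit 11) nil nil) (node (nat_lit 4)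
  (nat_lit 16560) (nat_lit 10) nil nil)))) (node (nat_lit 6) (nat_lit 24082) (nat_lit 9) (node
  (nat_lit 5) (nat_lit 24082) (nat_lit 10) (node (nat_lit 4) (nat_lit 24082) (nat_lit 11) (node
  (nat_lit 5) (nat_lit 24082) (nat_lit 12) (node (nat_lit 6) (nat_lit 24591) (nat_lit 13) (node
  (nat_lit 4) (nat_lit 24591) (nat_lit 14) nil nil) nil) nil) nil) (node (nat_lit 10) (nat_lit
  24082) (nat_lit 10) (node (nat_lit 5) (nat_lit 24082) (nat_lit 11) nil nil) (node (nat_lit 0)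
  (nat_lit 24389) (nat_lit 10) (node (nat_lit 5) (nat_lit 24389) (nat_lit 11) nil nil) (node
  (nat_lit 4) (nat_lit 24082) (nat_lit 10) nil nil)))) (node (nat_lit 0) (nat_lit 24155) (nat_lit
  9) (node (nat_lit 10) (nat_lit 24155) (nat_lit 10) nil (node (nat_lit 4) (nat_lit 24155)
  (nat_lit 10) nil (node (nat_lit 5) (nat_lit 24155) (nat_lit 10) (node (nat_lit 4) (nat_lit
  24155) (nat_lit 11) (node (nat_lit 5) (nat_lit 24155) (nat_lit 12) nil nil) nil) (node (nat_lit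
  6) (nat_lit 24286) (nat_lit 10) (node (nat_lit 5) (nat_lit 24286) (nat_lit 11) nil nil) (node
  (nat_lit 0) (nat_lit 24286) (nat_lit 10) nil nil))))) nil))) (node (nat_lit 5) (nat_lit 0)
  (nat_lit 8) (node (nat_lit 10) (nat_lit 16560) (nat_lit 9) (node (nat_lit 4) (nat_lit 16560)
  (nat_lit 10) (node (nat_lit 10) (nat_lit 19206) (nat_lit 11) (node (nat_lit 5) (nat_lit 20713)
  (nat_lit 12) (node (nat_lit 4) (nat_lit 21012) (nat_lit 13) (node (nat_lit 5) (nat_lit 16823)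
  (nat_lit 14) (node (nat_lit 6) (nat_lit 16892) (nat_lit 15) (node (nat_lit 4) (nat_lit 15191)
  (nat_lit 16) (node (nat_lit 5) (nat_lit 12021) (nat_lit 17) nil nil) nil) nil) nil) nil) nil)
  (node (nat_lit 5) (nat_lit 19190) (nat_lit 11) (node (nat_lit 4) (nat_lit 20757) (nat_lit 12)
  nil nil) nil)) nil) (node (nat_lit 4) (nat_lit 16560) (nat_lit 9) (node (nat_lit 5) (nat_lit
  16560) (nat_lit 10) (node (nat_lit 10) (nat_lit 18756) (nat_lit 11) nil nil) (node (nat_lit 6)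
  (nat_lit 19678) (nat_lit 10) nil nil)) (node (nat_lit 6) (nat_lit 21873) (nat_lit 9) (node
  (nat_lit 5) (nat_lit 21873) (nat_lit 10) (node (nat_lit 4) (nat_lit 21873) (nat_lit 11) nil nil)
  nil) (node (nat_lit 0) (nat_lit 21867) (nat_lit 9) nil nil)))) (node (nat_lit 0) (nat_lit 23077)
  (nat_lit 8) (node (nat_lit 4) (nat_lit 22922) (nat_lit 9) (node (nat_lit 10) (nat_lit 22922)
  (nat_lit 10) (node (nat_lit 5) (nat_lit 22922) (nat_lit 11) nil nil) nil) (node (nat_lit 10)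
  (nat_lit 23050) (nat_lit 9) nil (node (nat_lit 5) (nat_lit 22909) (nat_lit 9) nil nil))) (node
  (nat_lit 6) (nat_lit 23164) (nat_lit 8) (node (nat_lit 5) (nat_lit 23569) (nat_lit 9) (node
  (nat_lit 4) (nat_lit 23340) (nat_lit 10) nil nil) (node (nat_lit 10) (nat_lit 23628) (nat_lit 9)
  (node (nat_lit 4) (nat_lit 23768) (nat_lit 10) nil nil) (node (nat_lit 4) (nat_lit 23530)
  (nat_lit 9) nil nil))) nil)))) (node (nat_lit 6) (nat_lit 0) (nat_lit 7) (node (nat_lit 0)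
  (nat_lit 23942) (nat_lit 8) (node (nat_lit 4) (nat_lit 24307) (nat_lit 9) (node (nat_lit 6)
  (nat_lit 25111) (nat_lit 10) (node (nat_lit 5) (nat_lit 25111) (nat_lit 11) (node (nat_lit 4)
  (nat_lit 25111) (nat_lit 12) nil nil) nil) nil) (node (nat_lit 5) (nat_lit 24303) (nat_lit 9)
  (node (nat_lit 6) (nat_lit 25108) (nat_lit 10) (node (nat_lit 5) (nat_lit 25108) (nat_lit 11)
  nil nil) nil) (node (nat_lit 6) (nat_lit 24989) (nat_lit 9) (node (nat_lit 5) (nat_lit 24989)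
  (nat_lit 10) nil nil) nil))) (node (nat_lit 2) (nat_lit 23021) (nat_lit 8) (node (nat_lit 4)
  (nat_lit 23759) (nat_lit 9) (node (nat_lit 6) (nat_lit 25602) (nat_lit 10) (node (nat_lit 5)
  (nat_lit 25602) (nat_lit 11) (node (nat_lit 4) (nat_lit 25602) (nat_lit 12) nil nil) nil) nil)
  (node (nat_lit 5) (nat_lit 23759) (nat_lit 9) (node (nat_lit 6) (nat_lit 25294) (nat_lit 10)
  (node (nat_lit 5) (nat_lit 25294) (nat_lit 11) nil nil) nil) (node (nat_lit 6) (nat_lit 25133)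
  (nat_lit 9) (node (nat_lit 5) (nat_lit 25133) (nat_lit 10) nil nil) nil))) (node (nat_lit 5)
  (nat_lit 0) (nat_lit 8) (node (nat_lit 4) (nat_lit 22405) (nat_lit 9) (node (nat_lit 5) (nat_lit
  23114) (nat_lit 10) nil nil) (node (nat_lit 6) (nat_lit 24182) (nat_lit 9) (node (nat_lit 4)
  (nat_lit 24333) (nat_lit 10) nil nil) (node (nat_lit 0) (nat_lit 24328) (nat_lit 9) nil (node
  (nat_lit 2) (nat_lit 22672) (nat_lit 9) nil nil)))) (node (nat_lit 4) (nat_lit 0) (nat_lit 8)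
  (node (nat_lit 5) (nat_lit 22684) (nat_lit 9) (node (nat_lit 6) (nat_lit 25176) (nat_lit 10) nil
  nil) (node (nat_lit 0) (nat_lit 24328) (nat_lit 9) nil (node (nat_lit 2) (nat_lit 22795)
  (nat_lit 9) nil nil))) nil)))) nil))) (node (nat_lit 0) (nat_lit 0) (nat_lit 6) (node (nat_lit
  4) (nat_lit 0) (nat_lit 7) (node (nat_lit 9) (nat_lit 23672) (nat_lit 8) (node (nat_lit 5)
  (nat_lit 23672) (nat_lit 9) (node (nat_lit 4) (nat_lit 23672) (nat_lit 10) (node (nat_lit 5)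
  (nat_lit 23672) (nat_lit 11) (node (nat_lit 6) (nat_lit 24405) (nat_lit 12) (node (nat_lit 4)
  (nat_lit 24405) (nat_lit 13) nil nil) nil) nil) (node (nat_lit 6) (nat_lit 24149) (nat_lit 10)
  (node (nat_lit 5) (nat_lit 24149) (nat_lit 11) nil nil) nil)) (node (nat_lit 6) (nat_lit 23995)
  (nat_lit 9) (node (nat_lit 5) (nat_lit 23995) (nat_lit 10) (node (nat_lit 4) (nat_lit 23995)
  (nat_lit 11) nil nil) nil) nil)) (node (nat_lit 5) (nat_lit 21745) (nat_lit 8) (node (nat_lit 4)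
  (nat_lit 21455) (nat_lit 9) (node (nat_lit 6) (nat_lit 23227) (nat_lit 10) (node (nat_lit 5)
  (nat_lit 23227) (nat_lit 11) nil nil) nil) (node (nat_lit 6) (nat_lit 24096) (nat_lit 9) (node
  (nat_lit 5) (nat_lit 24096) (nat_lit 10) (node (nat_lit 4) (nat_lit 24096) (nat_lit 11) nil nil)
  nil) nil)) (node (nat_lit 6) (nat_lit 23672) (nat_lit 8) (node (nat_lit 5) (nat_lit 23672)
  (nat_lit 9) (node (nat_lit 4) (nat_lit 23672) (nat_lit 10) nil nil) nil) (node (nat_lit 0)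
  (nat_lit 22189) (nat_lit 8) nil (node (nat_lit 2) (nat_lit 20894) (nat_lit 8) nil nil))))) (node
  (nat_lit 6) (nat_lit 0) (nat_lit 7) (node (nat_lit 9) (nat_lit 23625) (nat_lit 8) (node (nat_lit
  5) (nat_lit 23625) (nat_lit 9) (node (nat_lit 6) (nat_lit 24102) (nat_lit 10) (node (nat_lit 5)
  (nat_lit 24102) (nat_lit 11) (node (nat_lit 4) (nat_lit 24102) (nat_lit 12) (node (nat_lit 5)
  (nat_lit 24102) (nat_lit 13) nil nil) nil) nil) (node (nat_lit 4) (nat_lit 23625) (nat_lit 10)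
  (node (nat_lit 5) (nat_lit 23625) (nat_lit 11) (node (nat_lit 6) (nat_lit 24358) (nat_lit 12)
  nil nil) nil) nil)) (node (nat_lit 4) (nat_lit 23625) (nat_lit 9) (node (nat_lit 6) (nat_lit
  24102) (nat_lit 10) (node (nat_lit 5) (nat_lit 24102) (nat_lit 11) (node (nat_lit 4) (nat_lit
  24102) (nat_lit 12) nil nil) nil) nil) nil)) (node (nat_lit 5) (nat_lit 22680) (nat_lit 8) (node
  (nat_lit 4) (nat_lit 22680) (nat_lit 9) (node (nat_lit 5) (nat_lit 22680) (nat_lit 10) (node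
  (nat_lit 6) (nat_lit 23792) (nat_lit 11) nil nil) nil) (node (nat_lit 9) (nat_lit 23908)
  (nat_lit 9) (node (nat_lit 5) (nat_lit 23908) (nat_lit 10) nil nil) (node (nat_lit 6) (nat_lit
  24535) (nat_lit 9) nil nil))) (node (nat_lit 4) (nat_lit 22676) (nat_lit 8) (node (nat_lit 6)
  (nat_lit 23501) (nat_lit 9) (node (nat_lit 5) (nat_lit 23501) (nat_lit 10) (node (nat_lit 4)
  (nat_lit 23501) (nat_lit 11) (node (nat_lit 5) (nat_lit 23501) (nat_lit 12) nil nil) nil) nil)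
  (node (nat_lit 5) (nat_lit 22676) (nat_lit 9) nil (node (nat_lit 9) (nat_lit 23501) (nat_lit 9)
  nil nil))) (node (nat_lit 2) (nat_lit 22263) (nat_lit 8) nil (node (nat_lit 0) (nat_lit 22764)
  (nat_lit 8) nil nil))))) (node (nat_lit 0) (nat_lit 22010) (nat_lit 7) (node (nat_lit 9)
  (nat_lit 23228) (nat_lit 8) (node (nat_lit 5) (nat_lit 23228) (nat_lit 9) (node (nat_lit 4)
  (nat_lit 23228) (nat_lit 10) nil nil) (node (nat_lit 6) (nat_lit 23551) (nat_lit 9) (node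
  (nat_lit 5) (nat_lit 23551) (nat_lit 10) nil nil) nil)) (node (nat_lit 5) (nat_lit 21689)
  (nat_lit 8) (node (nat_lit 4) (nat_lit 21689) (nat_lit 9) nil nil) (node (nat_lit 6) (nat_lit
  23074) (nat_lit 8) (node (nat_lit 5) (nat_lit 23074) (nat_lit 9) nil nil) nil))) (node (nat_lit
  5) (nat_lit 0) (nat_lit 7) (node (nat_lit 4) (nat_lit 21503) (nat_lit 8) (node (nat_lit 5)
  (nat_lit 21208) (nat_lit 9) nil (node (nat_lit 6) (nat_lit 23854) (nat_lit 9) nil nil)) (node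
  (nat_lit 6) (nat_lit 23640) (nat_lit 8) (node (nat_lit 5) (nat_lit 23640) (nat_lit 9) (node
  (nat_lit 4) (nat_lit 23640) (nat_lit 10) (node (nat_lit 5) (nat_lit 23640) (nat_lit 11) nil nil)
  nil) nil) (node (nat_lit 0) (nat_lit 23379) (nat_lit 8) (node (nat_lit 5) (nat_lit 23379)
  (nat_lit 9) nil nil) (node (nat_lit 2) (nat_lit 21421) (nat_lit 8) (node (nat_lit 5) (nat_lit
  22084) (nat_lit 9) nil (node (nat_lit 6) (nat_lit 23772) (nat_lit 9) nil (node (nat_lit 4)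
  (nat_lit 20347) (nat_lit 9) nil nil))) nil)))) (node (nat_lit 2) (nat_lit 0) (nat_lit 7) (node
  (nat_lit 9) (nat_lit 23697) (nat_lit 8) (node (nat_lit 5) (nat_lit 23697) (nat_lit 9) (node
  (nat_lit 4) (nat_lit 23697) (nat_lit 10) nil nil) (node (nat_lit 6) (nat_lit 24020) (nat_lit 9)
  (node (nat_lit 5) (nat_lit 24020) (nat_lit 10) nil nil) nil)) (node (nat_lit 5) (nat_lit 21393)
  (nat_lit 8) (node (nat_lit 10) (nat_lit 21723) (nat_lit 9) nil (node (nat_lit 4) (nat_lit 19939)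
  (nat_lit 9) nil (node (nat_lit 6) (nat_lit 23012) (nat_lit 9) nil nil))) (node (nat_lit 4)
  (nat_lit 20329) (nat_lit 8) nil (node (nat_lit 6) (nat_lit 23544) (nat_lit 8) (node (nat_lit 5)
  (nat_lit 23544) (nat_lit 9) nil nil) (node (nat_lit 0) (nat_lit 22214) (nat_lit 8) nil nil)))))
  nil))))) (node (nat_lit 2) (nat_lit 0) (nat_lit 6) (node (nat_lit 6) (nat_lit 0) (nat_lit 7)
  (node (nat_lit 9) (nat_lit 0) (nat_lit 8) (node (nat_lit 5) (nat_lit 22917) (nat_lit 9) (node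
  (nat_lit 6) (nat_lit 23895) (nat_lit 10) (node (nat_lit 5) (nat_lit 23895) (nat_lit 11) (node
  (nat_lit 4) (nat_lit 23895) (nat_lit 12) (node (nat_lit 5) (nat_lit 23895) (nat_lit 13) nil nil)
  nil) nil) (node (nat_lit 4) (nat_lit 22917) (nat_lit 10) (node (nat_lit 5) (nat_lit 23419)
  (nat_lit 11) (node (nat_lit 6) (nat_lit 16486) (nat_lit 12) nil nil) nil) (node (nat_lit 9)
  (nat_lit 22917) (nat_lit 10) nil nil))) (node (nat_lit 4) (nat_lit 22896) (nat_lit 9) (node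
  (nat_lit 6) (nat_lit 24432) (nat_lit 10) (node (nat_lit 5) (nat_lit 24432) (nat_lit 11) (node
  (nat_lit 4) (nat_lit 24432) (nat_lit 12) nil nil) nil) nil) (node (nat_lit 0) (nat_lit 23721)
  (nat_lit 9) nil nil))) (node (nat_lit 5) (nat_lit 22896) (nat_lit 8) (node (nat_lit 4) (nat_lit
  23450) (nat_lit 9) (node (nat_lit 5) (nat_lit 23450) (nat_lit 10) (node (nat_lit 6) (nat_lit
  24562) (nat_lit 11) nil nil) nil) (node (nat_lit 6) (nat_lit 24751) (nat_lit 9) nil (node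
  (nat_lit 9) (nat_lit 22560) (nat_lit 9) (node (nat_lit 5) (nat_lit 22560) (nat_lit 10) nil nil)
  nil))) (node (nat_lit 4) (nat_lit 22896) (nat_lit 8) (node (nat_lit 6) (nat_lit 23721) (nat_lit
  9) nil (node (nat_lit 5) (nat_lit 22896) (nat_lit 9) nil (node (nat_lit 9) (nat_lit 22896)
  (nat_lit 9) nil nil))) (node (nat_lit 0) (nat_lit 22934) (nat_lit 8) nil nil)))) (node (nat_lit
  4) (nat_lit 0) (nat_lit 7) (node (nat_lit 9) (nat_lit 0) (nat_lit 8) (node (nat_lit 5) (nat_lit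
  16566) (nat_lit 9) (node (nat_lit 4) (nat_lit 16402) (nat_lit 10) (node (nat_lit 5) (nat_lit
  12792) (nat_lit 11) (node (nat_lit 6) (nat_lit 13148) (nat_lit 12) nil (node (nat_lit 9)
  (nat_lit 12414) (nat_lit 12) nil nil)) (node (nat_lit 6) (nat_lit 17719) (nat_lit 11) (node
  (nat_lit 5) (nat_lit 17719) (nat_lit 12) nil nil) nil)) (node (nat_lit 9) (nat_lit 16575)
  (nat_lit 10) (node (nat_lit 4) (nat_lit 19647) (nat_lit 11) (node (nat_lit 5) (nat_lit 21333)
  (nat_lit 12) nil nil) (node (nat_lit 6) (nat_lit 20735) (nat_lit 11) nil nil)) (node (nat_lit 6)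
  (nat_lit 22339) (nat_lit 10) (node (nat_lit 5) (nat_lit 22339) (nat_lit 11) nil nil) (node
  (nat_lit 0) (nat_lit 22339) (nat_lit 10) nil nil)))) (node (nat_lit 6) (nat_lit 23986) (nat_lit
  9) (node (nat_lit 4) (nat_lit 23986) (nat_lit 10) (node (nat_lit 6) (nat_lit 24273) (nat_lit 11)
  (node (nat_lit 5) (nat_lit 24273) (nat_lit 12) nil nil) nil) (node (nat_lit 5) (nat_lit 23986)
  (nat_lit 10) (node (nat_lit 4) (nat_lit 23986) (nat_lit 11) nil nil) nil)) (node (nat_lit 0)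
  (nat_lit 22626) (nat_lit 9) nil nil))) (node (nat_lit 5) (nat_lit 0) (nat_lit 8) (node (nat_lit
  4) (nat_lit 16566) (nat_lit 9) (node (nat_lit 6) (nat_lit 22582) (nat_lit 10) (node (nat_lit 5)
  (nat_lit 22582) (nat_lit 11) nil nil) (node (nat_lit 9) (nat_lit 16566) (nat_lit 10) nil nil))
  (node (nat_lit 6) (nat_lit 23554) (nat_lit 9) (node (nat_lit 5) (nat_lit 23554) (nat_lit 10)
  (node (nat_lit 4) (nat_lit 23554) (nat_lit 11) nil nil) nil) (node (nat_lit 0) (nat_lit 22010)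
  (nat_lit 9) nil nil))) (node (nat_lit 6) (nat_lit 23915) (nat_lit 8) (node (nat_lit 5) (nat_lit
  24003) (nat_lit 9) (node (nat_lit 4) (nat_lit 23774) (nat_lit 10) (node (nat_lit 5) (nat_lit
  23774) (nat_lit 11) nil nil) nil) (node (nat_lit 4) (nat_lit 23915) (nat_lit 9) (node (nat_lit
  5) (nat_lit 23915) (nat_lit 10) nil nil) (node (nat_lit 9) (nat_lit 23915) (nat_lit 9) nil
  nil))) (node (nat_lit 0) (nat_lit 23451) (nat_lit 8) (node (nat_lit 5) (nat_lit 23451) (nat_lit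
  9) nil nil) nil)))) (node (nat_lit 0) (nat_lit 22266) (nat_lit 7) (node (nat_lit 9) (nat_lit
  22730) (nat_lit 8) (node (nat_lit 5) (nat_lit 23063) (nat_lit 9) (node (nat_lit 10) (nat_lit
  24041) (nat_lit 10) (node (nat_lit 5) (nat_lit 24041) (nat_lit 11) nil nil) (node (nat_lit 4)
  (nat_lit 22463) (nat_lit 10) nil nil)) (node (nat_lit 6) (nat_lit 23555) (nat_lit 9) (node
  (nat_lit 5) (nat_lit 23555) (nat_lit 10) nil nil) (node (nat_lit 4) (nat_lit 22730) (nat_lit 9)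
  nil nil))) (node (nat_lit 5) (nat_lit 22303) (nat_lit 8) (node (nat_lit 4) (nat_lit 22303)
  (nat_lit 9) nil nil) (node (nat_lit 6) (nat_lit 23484) (nat_lit 8) (node (nat_lit 5) (nat_lit
  23484) (nat_lit 9) nil nil) (node (nat_lit 0) (nat_lit 22768) (nat_lit 8) nil nil)))) (node
  (nat_lit 5) (nat_lit 0) (nat_lit 7) (node (nat_lit 4) (nat_lit 16566) (nat_lit 8) (node (nat_lit
  5) (nat_lit 0) (nat_lit 9) (node (nat_lit 9) (nat_lit 0) (nat_lit 10) (node (nat_lit 4) (nat_lit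
  4155) (nat_lit 11) nil nil) nil) (node (nat_lit 6) (nat_lit 23554) (nat_lit 9) (node (nat_lit 5)
  (nat_lit 23554) (nat_lit 10) nil nil) (node (nat_lit 9) (nat_lit 16566) (nat_lit 9) nil nil)))
  (node (nat_lit 6) (nat_lit 23375) (nat_lit 8) (node (nat_lit 5) (nat_lit 23375) (nat_lit 9)
  (node (nat_lit 4) (nat_lit 23375) (nat_lit 10) (node (nat_lit 5) (nat_lit 23649) (nat_lit 11)
  nil nil) nil) (node (nat_lit 4) (nat_lit 23375) (nat_lit 9) nil nil)) (node (nat_lit 0) (nat_lit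
  23375) (nat_lit 8) (node (nat_lit 5) (nat_lit 23375) (nat_lit 9) nil nil) nil))) nil)))) nil)))

noncomputable def t172 : Tr :=
  (node (nat_lit 5) (nat_lit 0) (nat_lit 6) (node (nat_lit 0) (nat_lit 0) (nat_lit 7) (node
  (nat_lit 5) (nat_lit 0) (nat_lit 8) (node (nat_lit 4) (nat_lit 89331) (nat_lit 9) (node (nat_lit
  6) (nat_lit 90552) (nat_lit 10) (node (nat_lit 5) (nat_lit 91630) (nat_lit 11) nil nil) (node
  (nat_lit 10) (nat_lit 90552) (nat_lit 10) nil (node (nat_lit 5) (nat_lit 90552) (nat_lit 10)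
  (node (nat_lit 6) (nat_lit 91630) (nat_lit 11) (node (nat_lit 4) (nat_lit 92605) (nat_lit 12)
  nil nil) nil) nil))) (node (nat_lit 6) (nat_lit 90451) (nat_lit 9) nil (node (nat_lit 0)
  (nat_lit 90451) (nat_lit 9) nil (node (nat_lit 2) (nat_lit 84487) (nat_lit 9) (node (nat_lit 10)
  (nat_lit 85708) (nat_lit 10) nil (node (nat_lit 5) (nat_lit 84352) (nat_lit 10) (node (nat_lit
  4) (nat_lit 82325) (nat_lit 11) nil nil) (node (nat_lit 6) (nat_lit 84489) (nat_lit 10) nil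
  nil))) nil)))) (node (nat_lit 6) (nat_lit 86436) (nat_lit 8) (node (nat_lit 4) (nat_lit 88256)
  (nat_lit 9) (node (nat_lit 5) (nat_lit 89477) (nat_lit 10) (node (nat_lit 6) (nat_lit 90555)
  (nat_lit 11) nil nil) nil) (node (nat_lit 10) (nat_lit 88256) (nat_lit 9) nil nil)) (node
  (nat_lit 4) (nat_lit 86436) (nat_lit 8) nil (node (nat_lit 0) (nat_lit 88548) (nat_lit 8) (node
  (nat_lit 5) (nat_lit 90368) (nat_lit 9) nil nil) (node (nat_lit 2) (nat_lit 88282) (nat_lit 8)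
  (node (nat_lit 5) (nat_lit 90102) (nat_lit 9) nil nil) nil))))) (node (nat_lit 2) (nat_lit 0)
  (nat_lit 7) (node (nat_lit 5) (nat_lit 0) (nat_lit 8) (node (nat_lit 4) (nat_lit 90331) (nat_lit
  9) (node (nat_lit 6) (nat_lit 91552) (nat_lit 10) (node (nat_lit 5) (nat_lit 92630) (nat_lit 11)
  nil nil) (node (nat_lit 5) (nat_lit 90981) (nat_lit 10) (node (nat_lit 6) (nat_lit 83823)
  (nat_lit 11) (node (nat_lit 4) (nat_lit 76684) (nat_lit 12) (node (nat_lit 6) (nat_lit 65622)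
  (nat_lit 13) nil nil) nil) nil) nil)) (node (nat_lit 6) (nat_lit 90331) (nat_lit 9) (node
  (nat_lit 10) (nat_lit 86747) (nat_lit 10) nil nil) (node (nat_lit 0) (nat_lit 90331) (nat_lit 9)
  (node (nat_lit 5) (nat_lit 91552) (nat_lit 10) nil nil) nil))) (node (nat_lit 6) (nat_lit 87186)
  (nat_lit 8) (node (nat_lit 4) (nat_lit 89006) (nat_lit 9) (node (nat_lit 5) (nat_lit 91215)
  (nat_lit 10) (node (nat_lit 6) (nat_lit 86937) (nat_lit 11) (node (nat_lit 4) (nat_lit 56824)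
  (nat_lit 12) nil nil) nil) nil) (node (nat_lit 10) (nat_lit 87068) (nat_lit 9) nil nil)) (node
  (nat_lit 4) (nat_lit 87085) (nat_lit 8) (node (nat_lit 6) (nat_lit 87720) (nat_lit 9) nil (node
  (nat_lit 10) (nat_lit 86967) (nat_lit 9) nil (node (nat_lit 5) (nat_lit 89731) (nat_lit 9) nil
  nil))) (node (nat_lit 0) (nat_lit 88358) (nat_lit 8) (node (nat_lit 5) (nat_lit 90178) (nat_lit
  9) nil nil) nil)))) (node (nat_lit 6) (nat_lit 0) (nat_lit 7) (node (nat_lit 0) (nat_lit 0)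
  (nat_lit 8) (node (nat_lit 5) (nat_lit 90514) (nat_lit 9) (node (nat_lit 6) (nat_lit 91735)
  (nat_lit 10) (node (nat_lit 5) (nat_lit 93193) (nat_lit 11) (node (nat_lit 4) (nat_lit 92560)
  (nat_lit 12) nil (node (nat_lit 11) (nat_lit 94168) (nat_lit 12) nil nil)) (node (nat_lit 4)
  (nat_lit 92713) (nat_lit 11) (node (nat_lit 5) (nat_lit 93688) (nat_lit 12) nil nil) nil)) (node
  (nat_lit 11) (nat_lit 91961) (nat_lit 10) (node (nat_lit 6) (nat_lit 93039) (nat_lit 11) nil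
  nil) (node (nat_lit 4) (nat_lit 91600) (nat_lit 10) nil nil))) (node (nat_lit 6) (nat_lit 90202)
  (nat_lit 9) (node (nat_lit 5) (nat_lit 91961) (nat_lit 10) nil (node (nat_lit 4) (nat_lit 90482)
  (nat_lit 10) nil nil)) (node (nat_lit 4) (nat_lit 90202) (nat_lit 9) (node (nat_lit 6) (nat_lit
  90482) (nat_lit 10) (node (nat_lit 4) (nat_lit 91560) (nat_lit 11) nil nil) nil) (node (nat_lit
  2) (nat_lit 90226) (nat_lit 9) nil (node (nat_lit 0) (nat_lit 90514) (nat_lit 9) nil nil)))))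
  (node (nat_lit 2) (nat_lit 0) (nat_lit 8) (node (nat_lit 5) (nat_lit 88508) (nat_lit 9) (node
  (nat_lit 6) (nat_lit 90081) (nat_lit 10) (node (nat_lit 5) (nat_lit 91158) (nat_lit 11) (node
  (nat_lit 4) (nat_lit 90525) (nat_lit 12) nil nil) (node (nat_lit 4) (nat_lit 91158) (nat_lit 11)
  (node (nat_lit 5) (nat_lit 92133) (nat_lit 12) nil nil) nil)) (node (nat_lit 11) (nat_lit 90081)
  (nat_lit 10) (node (nat_lit 6) (nat_lit 91158) (nat_lit 11) nil nil) (node (nat_lit 4) (nat_lit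
  89136) (nat_lit 10) nil nil))) (node (nat_lit 4) (nat_lit 88768) (nat_lit 9) (node (nat_lit 6)
  (nat_lit 89121) (nat_lit 10) (node (nat_lit 4) (nat_lit 90198) (nat_lit 11) nil (node (nat_lit
  5) (nat_lit 90198) (nat_lit 11) nil nil)) (node (nat_lit 5) (nat_lit 91355) (nat_lit 10) nil
  nil)) (node (nat_lit 6) (nat_lit 88768) (nat_lit 9) (node (nat_lit 5) (nat_lit 91355) (nat_lit
  10) nil (node (nat_lit 4) (nat_lit 89800) (nat_lit 10) nil nil)) (node (nat_lit 0) (nat_lit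
  90220) (nat_lit 9) nil nil)))) (node (nat_lit 4) (nat_lit 0) (nat_lit 8) (node (nat_lit 5)
  (nat_lit 83088) (nat_lit 9) (node (nat_lit 4) (nat_lit 87190) (nat_lit 10) (node (nat_lit 6)
  (nat_lit 89409) (nat_lit 11) (node (nat_lit 5) (nat_lit 91461) (nat_lit 12) nil nil) nil) (node
  (nat_lit 0) (nat_lit 87347) (nat_lit 10) nil (node (nat_lit 2) (nat_lit 87190) (nat_lit 10) nil
  nil))) (node (nat_lit 0) (nat_lit 84212) (nat_lit 9) nil (node (nat_lit 2) (nat_lit 82468)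
  (nat_lit 9) nil nil))) nil))) (node (nat_lit 4) (nat_lit 0) (nat_lit 7) (node (nat_lit 0)
  (nat_lit 88036) (nat_lit 8) (node (nat_lit 5) (nat_lit 90202) (nat_lit 9) (node (nat_lit 4)
  (nat_lit 91423) (nat_lit 10) (node (nat_lit 5) (nat_lit 92500) (nat_lit 11) nil nil) nil) (node
  (nat_lit 6) (nat_lit 89856) (nat_lit 9) nil nil)) (node (nat_lit 2) (nat_lit 86636) (nat_lit 8)
  (node (nat_lit 5) (nat_lit 88454) (nat_lit 9) (node (nat_lit 4) (nat_lit 89263) (nat_lit 10)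
  (node (nat_lit 5) (nat_lit 88116) (nat_lit 11) (node (nat_lit 6) (nat_lit 83594) (nat_lit 12)
  (node (nat_lit 4) (nat_lit 74134) (nat_lit 13) (node (nat_lit 6) (nat_lit 67810) (nat_lit 14)
  (node (nat_lit 5) (nat_lit 46635) (nat_lit 15) nil nil) nil) nil) nil) nil) nil) (node (nat_lit
  6) (nat_lit 87462) (nat_lit 9) (node (nat_lit 4) (nat_lit 88684) (nat_lit 10) (node (nat_lit 5)
  (nat_lit 91303) (nat_lit 11) nil nil) nil) (node (nat_lit 4) (nat_lit 88768) (nat_lit 9) nil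
  nil))) (node (nat_lit 6) (nat_lit 0) (nat_lit 8) (node (nat_lit 4) (nat_lit 79616) (nat_lit 9)
  (node (nat_lit 5) (nat_lit 83674) (nat_lit 10) (node (nat_lit 6) (nat_lit 85893) (nat_lit 11)
  nil nil) nil) (node (nat_lit 2) (nat_lit 81504) (nat_lit 9) nil (node (nat_lit 0) (nat_lit
  83413) (nat_lit 9) nil nil))) (node (nat_lit 5) (nat_lit 0) (nat_lit 8) (node (nat_lit 6)
  (nat_lit 82284) (nat_lit 9) (node (nat_lit 4) (nat_lit 85129) (nat_lit 10) nil nil) (node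
  (nat_lit 2) (nat_lit 83943) (nat_lit 9) nil (node (nat_lit 0) (nat_lit 83751) (nat_lit 9) nil
  nil))) nil)))) nil)))) (node (nat_lit 0) (nat_lit 0) (nat_lit 6) (node (nat_lit 4) (nat_lit 0)
  (nat_lit 7) (node (nat_lit 9) (nat_lit 86505) (nat_lit 8) (node (nat_lit 6) (nat_lit 88325)
  (nat_lit 9) (node (nat_lit 4) (nat_lit 89546) (nat_lit 10) (node (nat_lit 5) (nat_lit 90624)
  (nat_lit 11) (node (nat_lit 6) (nat_lit 91599) (nat_lit 12) nil nil) nil) nil) (node (nat_lit 5)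
  (nat_lit 88325) (nat_lit 9) (node (nat_lit 4) (nat_lit 87088) (nat_lit 10) (node (nat_lit 5)
  (nat_lit 88166) (nat_lit 11) (node (nat_lit 6) (nat_lit 89141) (nat_lit 12) (node (nat_lit 4)
  (nat_lit 89934) (nat_lit 13) (node (nat_lit 6) (nat_lit 90551) (nat_lit 14) nil nil) nil) nil)
  nil) nil) nil)) (node (nat_lit 6) (nat_lit 85362) (nat_lit 8) (node (nat_lit 4) (nat_lit 87182)
  (nat_lit 9) (node (nat_lit 5) (nat_lit 89390) (nat_lit 10) (node (nat_lit 6) (nat_lit 84680)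
  (nat_lit 11) (node (nat_lit 4) (nat_lit 74169) (nat_lit 12) nil nil) nil) nil) nil) (node
  (nat_lit 5) (nat_lit 86505) (nat_lit 8) (node (nat_lit 4) (nat_lit 88325) (nat_lit 9) (node
  (nat_lit 6) (nat_lit 85638) (nat_lit 10) nil nil) (node (nat_lit 9) (nat_lit 88325) (nat_lit 9)
  nil nil)) (node (nat_lit 2) (nat_lit 77359) (nat_lit 8) nil (node (nat_lit 0) (nat_lit 85362)
  (nat_lit 8) nil nil))))) (node (nat_lit 5) (nat_lit 0) (nat_lit 7) (node (nat_lit 4) (nat_lit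
  83653) (nat_lit 8) (node (nat_lit 6) (nat_lit 85473) (nat_lit 9) (node (nat_lit 4) (nat_lit
  86694) (nat_lit 10) (node (nat_lit 5) (nat_lit 77981) (nat_lit 11) (node (nat_lit 6) (nat_lit
  72708) (nat_lit 12) nil nil) nil) nil) (node (nat_lit 5) (nat_lit 85473) (nat_lit 9) (node
  (nat_lit 6) (nat_lit 86694) (nat_lit 10) (node (nat_lit 4) (nat_lit 87771) (nat_lit 11) (node
  (nat_lit 6) (nat_lit 88747) (nat_lit 12) nil nil) nil) nil) nil)) (node (nat_lit 9) (nat_lit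
  85886) (nat_lit 8) (node (nat_lit 6) (nat_lit 87706) (nat_lit 9) (node (nat_lit 4) (nat_lit
  88927) (nat_lit 10) (node (nat_lit 5) (nat_lit 90005) (nat_lit 11) (node (nat_lit 6) (nat_lit
  90980) (nat_lit 12) nil nil) nil) nil) (node (nat_lit 4) (nat_lit 87706) (nat_lit 9) (node
  (nat_lit 6) (nat_lit 85019) (nat_lit 10) nil nil) nil)) (node (nat_lit 6) (nat_lit 83653)
  (nat_lit 8) (node (nat_lit 5) (nat_lit 85473) (nat_lit 9) (node (nat_lit 4) (nat_lit 84236)
  (nat_lit 10) (node (nat_lit 5) (nat_lit 85313) (nat_lit 11) (node (nat_lit 6) (nat_lit 86289)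
  (nat_lit 12) nil nil) nil) nil) (node (nat_lit 4) (nat_lit 85473) (nat_lit 9) nil nil)) (node
  (nat_lit 2) (nat_lit 81361) (nat_lit 8) (node (nat_lit 6) (nat_lit 77968) (nat_lit 9) nil (node
  (nat_lit 5) (nat_lit 81702) (nat_lit 9) nil nil)) (node (nat_lit 0) (nat_lit 85095) (nat_lit 8)
  nil nil))))) (node (nat_lit 6) (nat_lit 0) (nat_lit 7) (node (nat_lit 4) (nat_lit 85487)
  (nat_lit 8) (node (nat_lit 5) (nat_lit 87307) (nat_lit 9) (node (nat_lit 6) (nat_lit 88528)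
  (nat_lit 10) (node (nat_lit 4) (nat_lit 89605) (nat_lit 11) (node (nat_lit 6) (nat_lit 90581)
  (nat_lit 12) nil nil) nil) nil) nil) (node (nat_lit 5) (nat_lit 86105) (nat_lit 8) (node
  (nat_lit 4) (nat_lit 87925) (nat_lit 9) (node (nat_lit 5) (nat_lit 89146) (nat_lit 10) (node
  (nat_lit 6) (nat_lit 90223) (nat_lit 11) (node (nat_lit 4) (nat_lit 91198) (nat_lit 12) (node
  (nat_lit 6) (nat_lit 91992) (nat_lit 13) nil nil) nil) nil) nil) nil) (node (nat_lit 0) (nat_lit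
  85487) (nat_lit 8) (node (nat_lit 5) (nat_lit 87307) (nat_lit 9) nil (node (nat_lit 6) (nat_lit
  87307) (nat_lit 9) nil nil)) (node (nat_lit 2) (nat_lit 81753) (nat_lit 8) (node (nat_lit 6)
  (nat_lit 78360) (nat_lit 9) nil (node (nat_lit 5) (nat_lit 82094) (nat_lit 9) nil (node (nat_lit
  4) (nat_lit 80522) (nat_lit 9) nil nil))) nil)))) (node (nat_lit 0) (nat_lit 0) (nat_lit 7)
  (node (nat_lit 9) (nat_lit 86751) (nat_lit 8) (node (nat_lit 6) (nat_lit 88571) (nat_lit 9)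
  (node (nat_lit 4) (nat_lit 89792) (nat_lit 10) nil nil) (node (nat_lit 5) (nat_lit 88571)
  (nat_lit 9) (node (nat_lit 4) (nat_lit 87334) (nat_lit 10) nil nil) nil)) (node (nat_lit 6)
  (nat_lit 86751) (nat_lit 8) (node (nat_lit 4) (nat_lit 88571) (nat_lit 9) nil (node (nat_lit 5)
  (nat_lit 88571) (nat_lit 9) nil nil)) (node (nat_lit 5) (nat_lit 86751) (nat_lit 8) (node
  (nat_lit 4) (nat_lit 85520) (nat_lit 9) nil nil) (node (nat_lit 4) (nat_lit 86751) (nat_lit 8)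
  nil (node (nat_lit 0) (nat_lit 86751) (nat_lit 8) nil (node (nat_lit 2) (nat_lit 78748) (nat_lit
  8) nil nil)))))) (node (nat_lit 2) (nat_lit 0) (nat_lit 7) (node (nat_lit 9) (nat_lit 86608)
  (nat_lit 8) (node (nat_lit 4) (nat_lit 88428) (nat_lit 9) (node (nat_lit 6) (nat_lit 85741)
  (nat_lit 10) nil nil) (node (nat_lit 6) (nat_lit 88428) (nat_lit 9) (node (nat_lit 4) (nat_lit
  89649) (nat_lit 10) nil nil) (node (nat_lit 5) (nat_lit 88428) (nat_lit 9) (node (nat_lit 4)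
  (nat_lit 87192) (nat_lit 10) nil nil) nil))) (node (nat_lit 6) (nat_lit 85464) (nat_lit 8) (node
  (nat_lit 4) (nat_lit 87284) (nat_lit 9) nil (node (nat_lit 10) (nat_lit 84370) (nat_lit 9) nil
  (node (nat_lit 5) (nat_lit 87284) (nat_lit 9) nil nil))) (node (nat_lit 5) (nat_lit 86608)
  (nat_lit 8) (node (nat_lit 4) (nat_lit 85778) (nat_lit 9) nil nil) (node (nat_lit 4) (nat_lit
  84023) (nat_lit 8) (node (nat_lit 6) (nat_lit 80631) (nat_lit 9) nil nil) (node (nat_lit 0)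
  (nat_lit 85464) (nat_lit 8) nil nil))))) nil))))) (node (nat_lit 2) (nat_lit 0) (nat_lit 6)
  (node (nat_lit 4) (nat_lit 0) (nat_lit 7) (node (nat_lit 9) (nat_lit 0) (nat_lit 8) (node
  (nat_lit 6) (nat_lit 68221) (nat_lit 9) (node (nat_lit 4) (nat_lit 72228) (nat_lit 10) (node
  (nat_lit 5) (nat_lit 72283) (nat_lit 11) (node (nat_lit 6) (nat_lit 69327) (nat_lit 12) (node
  (nat_lit 4) (nat_lit 67540) (nat_lit 13) (node (nat_lit 6) (nat_lit 44061) (nat_lit 14) nil nil)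
  nil) nil) (node (nat_lit 6) (nat_lit 72606) (nat_lit 11) (node (nat_lit 5) (nat_lit 75773)
  (nat_lit 12) (node (nat_lit 4) (nat_lit 75318) (nat_lit 13) nil nil) nil) nil)) (node (nat_lit
  9) (nat_lit 72940) (nat_lit 10) (node (nat_lit 4) (nat_lit 73275) (nat_lit 11) nil (node
  (nat_lit 5) (nat_lit 79427) (nat_lit 11) nil nil)) (node (nat_lit 5) (nat_lit 76630) (nat_lit
  10) (node (nat_lit 4) (nat_lit 75701) (nat_lit 11) nil nil) (node (nat_lit 0) (nat_lit 75840)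
  (nat_lit 10) nil nil)))) (node (nat_lit 5) (nat_lit 81390) (nat_lit 9) (node (nat_lit 4)
  (nat_lit 80515) (nat_lit 10) (node (nat_lit 5) (nat_lit 75620) (nat_lit 11) (node (nat_lit 6)
  (nat_lit 74756) (nat_lit 12) (node (nat_lit 4) (nat_lit 72053) (nat_lit 13) (node (nat_lit 6)
  (nat_lit 56628) (nat_lit 14) (node (nat_lit 9) (nat_lit 40374) (nat_lit 15) nil nil) nil) nil)
  nil) (node (nat_lit 6) (nat_lit 81593) (nat_lit 11) nil nil)) nil) (node (nat_lit 0) (nat_lit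
  80405) (nat_lit 9) nil nil))) (node (nat_lit 6) (nat_lit 0) (nat_lit 8) (node (nat_lit 5)
  (nat_lit 84301) (nat_lit 9) (node (nat_lit 4) (nat_lit 85523) (nat_lit 10) (node (nat_lit 5)
  (nat_lit 86600) (nat_lit 11) (node (nat_lit 6) (nat_lit 87575) (nat_lit 12) nil nil) nil) (node
  (nat_lit 6) (nat_lit 85523) (nat_lit 10) nil nil)) (node (nat_lit 4) (nat_lit 68221) (nat_lit 9)
  (node (nat_lit 5) (nat_lit 75398) (nat_lit 10) (node (nat_lit 6) (nat_lit 69895) (nat_lit 11)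
  (node (nat_lit 4) (nat_lit 46264) (nat_lit 12) nil nil) nil) (node (nat_lit 9) (nat_lit 72772)
  (nat_lit 10) nil nil)) (node (nat_lit 0) (nat_lit 68221) (nat_lit 9) nil nil))) (node (nat_lit
  5) (nat_lit 82334) (nat_lit 8) (node (nat_lit 4) (nat_lit 84154) (nat_lit 9) (node (nat_lit 6)
  (nat_lit 85375) (nat_lit 10) nil nil) (node (nat_lit 9) (nat_lit 78189) (nat_lit 9) nil (node
  (nat_lit 6) (nat_lit 84154) (nat_lit 9) nil nil))) (node (nat_lit 0) (nat_lit 82072) (nat_lit 8)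
  (node (nat_lit 6) (nat_lit 83891) (nat_lit 9) nil nil) nil)))) (node (nat_lit 5) (nat_lit 0)
  (nat_lit 7) (node (nat_lit 4) (nat_lit 76963) (nat_lit 8) (node (nat_lit 6) (nat_lit 78967)
  (nat_lit 9) (node (nat_lit 5) (nat_lit 81362) (nat_lit 10) (node (nat_lit 4) (nat_lit 82440)
  (nat_lit 11) nil nil) (node (nat_lit 4) (nat_lit 80189) (nat_lit 10) (node (nat_lit 5) (nat_lit
  81925) (nat_lit 11) (node (nat_lit 6) (nat_lit 77875) (nat_lit 12) nil nil) nil) nil)) (node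
  (nat_lit 5) (nat_lit 67426) (nat_lit 9) (node (nat_lit 6) (nat_lit 60335) (nat_lit 10) (node
  (nat_lit 4) (nat_lit 42960) (nat_lit 11) (node (nat_lit 6) (nat_lit 43489) (nat_lit 12) nil nil)
  nil) nil) (node (nat_lit 9) (nat_lit 78251) (nat_lit 9) (node (nat_lit 4) (nat_lit 77015)
  (nat_lit 10) nil nil) nil))) (node (nat_lit 9) (nat_lit 0) (nat_lit 8) (node (nat_lit 6)
  (nat_lit 87000) (nat_lit 9) (node (nat_lit 5) (nat_lit 87940) (nat_lit 10) (node (nat_lit 4)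
  (nat_lit 87224) (nat_lit 11) nil nil) (node (nat_lit 4) (nat_lit 86492) (nat_lit 10) (node
  (nat_lit 5) (nat_lit 85165) (nat_lit 11) (node (nat_lit 6) (nat_lit 81115) (nat_lit 12) nil nil)
  nil) nil)) (node (nat_lit 4) (nat_lit 85293) (nat_lit 9) (node (nat_lit 6) (nat_lit 85653)
  (nat_lit 10) nil nil) (node (nat_lit 0) (nat_lit 87391) (nat_lit 9) nil nil))) (node (nat_lit 6)
  (nat_lit 85091) (nat_lit 8) (node (nat_lit 5) (nat_lit 87385) (nat_lit 9) (node (nat_lit 4)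
  (nat_lit 88606) (nat_lit 10) (node (nat_lit 6) (nat_lit 86633) (nat_lit 11) nil (node (nat_lit
  5) (nat_lit 89684) (nat_lit 11) (node (nat_lit 6) (nat_lit 90659) (nat_lit 12) nil nil) nil))
  nil) (node (nat_lit 4) (nat_lit 86911) (nat_lit 9) nil nil)) (node (nat_lit 0) (nat_lit 84907)
  (nat_lit 8) (node (nat_lit 6) (nat_lit 86727) (nat_lit 9) nil (node (nat_lit 5) (nat_lit 86727)
  (nat_lit 9) nil nil)) nil)))) (node (nat_lit 6) (nat_lit 0) (nat_lit 7) (node (nat_lit 4)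
  (nat_lit 66402) (nat_lit 8) (node (nat_lit 5) (nat_lit 72289) (nat_lit 9) (node (nat_lit 6)
  (nat_lit 58495) (nat_lit 10) (node (nat_lit 4) (nat_lit 44186) (nat_lit 11) nil nil) nil) (node
  (nat_lit 6) (nat_lit 68221) (nat_lit 9) (node (nat_lit 5) (nat_lit 74529) (nat_lit 10) nil nil)
  (node (nat_lit 9) (nat_lit 68221) (nat_lit 9) nil nil))) (node (nat_lit 5) (nat_lit 81220)
  (nat_lit 8) (node (nat_lit 4) (nat_lit 83040) (nat_lit 9) (node (nat_lit 5) (nat_lit 84261)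
  (nat_lit 10) (node (nat_lit 6) (nat_lit 85338) (nat_lit 11) (node (nat_lit 4) (nat_lit 86314)
  (nat_lit 12) (node (nat_lit 6) (nat_lit 87107) (nat_lit 13) nil nil) nil) nil) (node (nat_lit 6)
  (nat_lit 84261) (nat_lit 10) nil nil)) (node (nat_lit 6) (nat_lit 83040) (nat_lit 9) nil nil))
  (node (nat_lit 0) (nat_lit 79641) (nat_lit 8) (node (nat_lit 6) (nat_lit 81461) (nat_lit 9) nil
  (node (nat_lit 5) (nat_lit 81461) (nat_lit 9) nil (node (nat_lit 4) (nat_lit 78410) (nat_lit 9)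
  nil nil))) nil))) (node (nat_lit 0) (nat_lit 0) (nat_lit 7) (node (nat_lit 9) (nat_lit 84373)
  (nat_lit 8) (node (nat_lit 4) (nat_lit 86193) (nat_lit 9) (node (nat_lit 6) (nat_lit 83505)
  (nat_lit 10) nil nil) (node (nat_lit 6) (nat_lit 86193) (nat_lit 9) (node (nat_lit 4) (nat_lit
  80201) (nat_lit 10) nil nil) (node (nat_lit 5) (nat_lit 87067) (nat_lit 9) (node (nat_lit 4)
  (nat_lit 87426) (nat_lit 10) nil nil) nil))) (node (nat_lit 6) (nat_lit 83846) (nat_lit 8) (node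
  (nat_lit 4) (nat_lit 85666) (nat_lit 9) nil (node (nat_lit 5) (nat_lit 85666) (nat_lit 9) nil
  nil)) (node (nat_lit 5) (nat_lit 84114) (nat_lit 8) (node (nat_lit 4) (nat_lit 82883) (nat_lit
  9) nil nil) (node (nat_lit 4) (nat_lit 82405) (nat_lit 8) (node (nat_lit 6) (nat_lit 79013)
  (nat_lit 9) nil nil) (node (nat_lit 0) (nat_lit 83846) (nat_lit 8) nil nil))))) nil)))) nil)))

noncomputable def t173 : Tr :=
  (node (nat_lit 4) (nat_lit 0) (nat_lit 5) (node (nat_lit 5) (nat_lit 0) (nat_lit 6) (node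
  (nat_lit 0) (nat_lit 117162) (nat_lit 7) nil (node (nat_lit 2) (nat_lit 110834) (nat_lit 7) nil
  (node (nat_lit 6) (nat_lit 63252) (nat_lit 7) (node (nat_lit 0) (nat_lit 73793) (nat_lit 8) nil
  (node (nat_lit 2) (nat_lit 76263) (nat_lit 8) nil nil)) nil))) (node (nat_lit 6) (nat_lit 0)
  (nat_lit 6) (node (nat_lit 0) (nat_lit 0) (nat_lit 7) (node (nat_lit 6) (nat_lit 127012)
  (nat_lit 8) (node (nat_lit 5) (nat_lit 126036) (nat_lit 9) (node (nat_lit 4) (nat_lit 124799)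
  (nat_lit 10) (node (nat_lit 5) (nat_lit 125877) (nat_lit 11) nil nil) nil) (node (nat_lit 4)
  (nat_lit 127767) (nat_lit 9) (node (nat_lit 5) (nat_lit 128327) (nat_lit 10) (node (nat_lit 6)
  (nat_lit 128822) (nat_lit 11) (node (nat_lit 5) (nat_lit 129268) (nat_lit 12) (node (nat_lit 4)
  (nat_lit 129633) (nat_lit 13) (node (nat_lit 6) (nat_lit 129916) (nat_lit 14) nil nil) nil) nil)
  nil) nil) nil)) (node (nat_lit 5) (nat_lit 127012) (nat_lit 8) (node (nat_lit 4) (nat_lit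
  126036) (nat_lit 9) nil nil) (node (nat_lit 4) (nat_lit 127012) (nat_lit 8) nil (node (nat_lit
  0) (nat_lit 127012) (nat_lit 8) nil (node (nat_lit 2) (nat_lit 123279) (nat_lit 8) (node
  (nat_lit 6) (nat_lit 123974) (nat_lit 9) nil (node (nat_lit 5) (nat_lit 121923) (nat_lit 9) nil
  nil)) nil))))) (node (nat_lit 2) (nat_lit 0) (nat_lit 7) (node (nat_lit 6) (nat_lit 122151)
  (nat_lit 8) (node (nat_lit 5) (nat_lit 120921) (nat_lit 9) (node (nat_lit 4) (nat_lit 119684)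
  (nat_lit 10) (node (nat_lit 5) (nat_lit 120761) (nat_lit 11) (node (nat_lit 6) (nat_lit 121737)
  (nat_lit 12) nil nil) nil) (node (nat_lit 6) (nat_lit 120823) (nat_lit 10) nil nil)) (node
  (nat_lit 4) (nat_lit 124123) (nat_lit 9) (node (nat_lit 5) (nat_lit 121412) (nat_lit 10) (node
  (nat_lit 6) (nat_lit 116715) (nat_lit 11) (node (nat_lit 5) (nat_lit 111876) (nat_lit 12) (node
  (nat_lit 4) (nat_lit 96680) (nat_lit 13) (node (nat_lit 6) (nat_lit 51353) (nat_lit 14) nil nil)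
  nil) nil) nil) nil) nil)) (node (nat_lit 5) (nat_lit 126599) (nat_lit 8) (node (nat_lit 4)
  (nat_lit 125330) (nat_lit 9) (node (nat_lit 5) (nat_lit 121391) (nat_lit 10) nil nil) (node
  (nat_lit 6) (nat_lit 123432) (nat_lit 9) nil nil)) (node (nat_lit 4) (nat_lit 126599) (nat_lit
  8) (node (nat_lit 10) (nat_lit 122580) (nat_lit 9) (node (nat_lit 6) (nat_lit 122483) (nat_lit
  10) nil nil) (node (nat_lit 6) (nat_lit 127353) (nat_lit 9) (node (nat_lit 4) (nat_lit 127914)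
  (nat_lit 10) nil nil) nil)) (node (nat_lit 0) (nat_lit 126599) (nat_lit 8) nil nil)))) (node
  (nat_lit 4) (nat_lit 0) (nat_lit 7) (node (nat_lit 0) (nat_lit 122645) (nat_lit 8) (node
  (nat_lit 6) (nat_lit 124465) (nat_lit 9) (node (nat_lit 4) (nat_lit 125687) (nat_lit 10) (node
  (nat_lit 5) (nat_lit 126764) (nat_lit 11) nil nil) nil) (node (nat_lit 5) (nat_lit 124465)
  (nat_lit 9) nil nil)) (node (nat_lit 2) (nat_lit 122645) (nat_lit 8) (node (nat_lit 6) (nat_lit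
  123282) (nat_lit 9) (node (nat_lit 4) (nat_lit 124503) (nat_lit 10) (node (nat_lit 5) (nat_lit
  123552) (nat_lit 11) (node (nat_lit 6) (nat_lit 109581) (nat_lit 12) (node (nat_lit 5) (nat_lit
  102936) (nat_lit 13) (node (nat_lit 4) (nat_lit 88537) (nat_lit 14) nil nil) nil) nil) nil) nil)
  (node (nat_lit 5) (nat_lit 117487) (nat_lit 9) (node (nat_lit 4) (nat_lit 115200) (nat_lit 10)
  (node (nat_lit 5) (nat_lit 112230) (nat_lit 11) nil nil) nil) nil)) (node (nat_lit 5) (nat_lit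
  112596) (nat_lit 8) (node (nat_lit 6) (nat_lit 104519) (nat_lit 9) (node (nat_lit 5) (nat_lit
  90729) (nat_lit 10) nil nil) (node (nat_lit 4) (nat_lit 118566) (nat_lit 9) (node (nat_lit 6)
  (nat_lit 121626) (nat_lit 10) nil nil) nil)) nil))) (node (nat_lit 5) (nat_lit 0) (nat_lit 7)
  (node (nat_lit 0) (nat_lit 123311) (nat_lit 8) (node (nat_lit 6) (nat_lit 125131) (nat_lit 9)
  nil (node (nat_lit 5) (nat_lit 125131) (nat_lit 9) nil nil)) (node (nat_lit 2) (nat_lit 123311)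
  (nat_lit 8) (node (nat_lit 6) (nat_lit 123947) (nat_lit 9) (node (nat_lit 5) (nat_lit 122711)
  (nat_lit 10) nil nil) (node (nat_lit 5) (nat_lit 122896) (nat_lit 9) nil nil)) (node (nat_lit 6)
  (nat_lit 0) (nat_lit 8) (node (nat_lit 4) (nat_lit 119231) (nat_lit 9) (node (nat_lit 5)
  (nat_lit 122428) (nat_lit 10) (node (nat_lit 6) (nat_lit 121428) (nat_lit 11) (node (nat_lit 5)
  (nat_lit 118024) (nat_lit 12) (node (nat_lit 4) (nat_lit 109287) (nat_lit 13) nil nil) nil) nil)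
  nil) (node (nat_lit 2) (nat_lit 119231) (nat_lit 9) nil (node (nat_lit 0) (nat_lit 119231)
  (nat_lit 9) nil nil))) nil))) nil)))) (node (nat_lit 0) (nat_lit 0) (nat_lit 6) (node (nat_lit
  5) (nat_lit 122712) (nat_lit 7) (node (nat_lit 9) (nat_lit 126525) (nat_lit 8) nil (node
  (nat_lit 6) (nat_lit 125590) (nat_lit 8) (node (nat_lit 4) (nat_lit 124834) (nat_lit 9) (node
  (nat_lit 5) (nat_lit 114680) (nat_lit 10) (node (nat_lit 6) (nat_lit 108977) (nat_lit 11) (node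
  (nat_lit 5) (nat_lit 97645) (nat_lit 12) (node (nat_lit 4) (nat_lit 77879) (nat_lit 13) nil nil)
  nil) nil) nil) nil) (node (nat_lit 4) (nat_lit 126525) (nat_lit 8) (node (nat_lit 5) (nat_lit
  127280) (nat_lit 9) (node (nat_lit 6) (nat_lit 127840) (nat_lit 10) (node (nat_lit 5) (nat_lit
  128334) (nat_lit 11) (node (nat_lit 4) (nat_lit 128781) (nat_lit 12) nil nil) nil) nil) nil)
  nil))) (node (nat_lit 6) (nat_lit 124253) (nat_lit 7) (node (nat_lit 9) (nat_lit 126525)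
  (nat_lit 8) nil (node (nat_lit 4) (nat_lit 126525) (nat_lit 8) (node (nat_lit 5) (nat_lit
  127280) (nat_lit 9) (node (nat_lit 6) (nat_lit 127840) (nat_lit 10) nil nil) nil) (node (nat_lit
  5) (nat_lit 125169) (nat_lit 8) (node (nat_lit 4) (nat_lit 123938) (nat_lit 9) (node (nat_lit 5)
  (nat_lit 125159) (nat_lit 10) (node (nat_lit 6) (nat_lit 126237) (nat_lit 11) nil nil) nil) nil)
  nil))) (node (nat_lit 4) (nat_lit 122712) (nat_lit 7) (node (nat_lit 6) (nat_lit 124260)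
  (nat_lit 8) (node (nat_lit 5) (nat_lit 123029) (nat_lit 9) (node (nat_lit 4) (nat_lit 121793)
  (nat_lit 10) nil nil) (node (nat_lit 4) (nat_lit 123503) (nat_lit 9) (node (nat_lit 5) (nat_lit
  118476) (nat_lit 10) (node (nat_lit 6) (nat_lit 110398) (nat_lit 11) nil nil) nil) nil)) nil)
  (node (nat_lit 0) (nat_lit 124253) (nat_lit 7) (node (nat_lit 9) (nat_lit 126525) (nat_lit 8)
  nil (node (nat_lit 6) (nat_lit 126525) (nat_lit 8) (node (nat_lit 4) (nat_lit 127280) (nat_lit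
  9) nil nil) (node (nat_lit 5) (nat_lit 125169) (nat_lit 8) nil nil))) (node (nat_lit 2) (nat_lit
  0) (nat_lit 7) (node (nat_lit 9) (nat_lit 121547) (nat_lit 8) (node (nat_lit 5) (nat_lit 122301)
  (nat_lit 9) nil (node (nat_lit 6) (nat_lit 122301) (nat_lit 9) (node (nat_lit 4) (nat_lit
  122862) (nat_lit 10) nil nil) nil)) (node (nat_lit 4) (nat_lit 121547) (nat_lit 8) (node
  (nat_lit 6) (nat_lit 122301) (nat_lit 9) nil nil) (node (nat_lit 6) (nat_lit 121547) (nat_lit 8)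
  (node (nat_lit 4) (nat_lit 121011) (nat_lit 9) nil nil) (node (nat_lit 5) (nat_lit 119312)
  (nat_lit 8) (node (nat_lit 4) (nat_lit 117490) (nat_lit 9) (node (nat_lit 5) (nat_lit 111802)
  (nat_lit 10) nil nil) (node (nat_lit 6) (nat_lit 120066) (nat_lit 9) nil nil)) (node (nat_lit 0)
  (nat_lit 121547) (nat_lit 8) nil nil))))) nil))))) (node (nat_lit 2) (nat_lit 0) (nat_lit 6)
  (node (nat_lit 5) (nat_lit 0) (nat_lit 7) (node (nat_lit 9) (nat_lit 125089) (nat_lit 8) (node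
  (nat_lit 4) (nat_lit 125130) (nat_lit 9) nil (node (nat_lit 6) (nat_lit 125882) (nat_lit 9) nil
  nil)) (node (nat_lit 6) (nat_lit 125089) (nat_lit 8) (node (nat_lit 5) (nat_lit 125882) (nat_lit
  9) (node (nat_lit 4) (nat_lit 126313) (nat_lit 10) nil nil) (node (nat_lit 4) (nat_lit 123131)
  (nat_lit 9) (node (nat_lit 5) (nat_lit 117201) (nat_lit 10) (node (nat_lit 6) (nat_lit 111498)
  (nat_lit 11) (node (nat_lit 5) (nat_lit 100166) (nat_lit 12) (node (nat_lit 4) (nat_lit 80400)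
  (nat_lit 13) nil nil) nil) nil) nil) nil)) (node (nat_lit 4) (nat_lit 121542) (nat_lit 8) (node
  (nat_lit 5) (nat_lit 115568) (nat_lit 9) (node (nat_lit 6) (nat_lit 96512) (nat_lit 10) (node
  (nat_lit 5) (nat_lit 84583) (nat_lit 11) (node (nat_lit 4) (nat_lit 83503) (nat_lit 12) nil nil)
  (node (nat_lit 4) (nat_lit 96512) (nat_lit 11) nil nil)) nil) (node (nat_lit 6) (nat_lit 122334)
  (nat_lit 9) (node (nat_lit 4) (nat_lit 122766) (nat_lit 10) (node (nat_lit 5) (nat_lit 122277)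
  (nat_lit 11) nil nil) nil) nil)) (node (nat_lit 0) (nat_lit 125089) (nat_lit 8) nil nil))))
  (node (nat_lit 6) (nat_lit 122970) (nat_lit 7) (node (nat_lit 9) (nat_lit 121509) (nat_lit 8)
  (node (nat_lit 4) (nat_lit 122263) (nat_lit 9) (node (nat_lit 6) (nat_lit 122824) (nat_lit 10)
  (node (nat_lit 4) (nat_lit 123318) (nat_lit 11) (node (nat_lit 5) (nat_lit 123049) (nat_lit 12)
  (node (nat_lit 6) (nat_lit 120654) (nat_lit 13) (node (nat_lit 5) (nat_lit 117252) (nat_lit 14)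
  (node (nat_lit 4) (nat_lit 109539) (nat_lit 15) (node (nat_lit 9) (nat_lit 94725) (nat_lit 16)
  (node (nat_lit 6) (nat_lit 78119) (nat_lit 17) nil nil) nil) nil) nil) nil) nil) nil) nil) (node
  (nat_lit 5) (nat_lit 120628) (nat_lit 9) (node (nat_lit 4) (nat_lit 119868) (nat_lit 10) (node
  (nat_lit 5) (nat_lit 116124) (nat_lit 11) nil nil) nil) nil)) (node (nat_lit 4) (nat_lit 121899)
  (nat_lit 8) (node (nat_lit 5) (nat_lit 109329) (nat_lit 9) (node (nat_lit 6) (nat_lit 94148)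
  (nat_lit 10) (node (nat_lit 5) (nat_lit 74219) (nat_lit 11) nil nil) nil) nil) (node (nat_lit 5)
  (nat_lit 125159) (nat_lit 8) (node (nat_lit 4) (nat_lit 123928) (nat_lit 9) (node (nat_lit 5)
  (nat_lit 125150) (nat_lit 10) (node (nat_lit 6) (nat_lit 126227) (nat_lit 11) nil nil) nil) nil)
  nil))) (node (nat_lit 4) (nat_lit 124253) (nat_lit 7) (node (nat_lit 6) (nat_lit 126525)
  (nat_lit 8) (node (nat_lit 4) (nat_lit 121468) (nat_lit 9) (node (nat_lit 5) (nat_lit 116441)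
  (nat_lit 10) (node (nat_lit 6) (nat_lit 112158) (nat_lit 11) (node (nat_lit 5) (nat_lit 101304)
  (nat_lit 12) nil nil) nil) nil) nil) (node (nat_lit 5) (nat_lit 125130) (nat_lit 8) nil nil))
  (node (nat_lit 0) (nat_lit 124145) (nat_lit 7) (node (nat_lit 9) (nat_lit 121107) (nat_lit 8)
  (node (nat_lit 5) (nat_lit 118242) (nat_lit 9) (node (nat_lit 4) (nat_lit 115684) (nat_lit 10)
  nil (node (nat_lit 6) (nat_lit 118488) (nat_lit 10) nil nil)) (node (nat_lit 6) (nat_lit 121828)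
  (nat_lit 9) (node (nat_lit 4) (nat_lit 121728) (nat_lit 10) nil nil) nil)) (node (nat_lit 6)
  (nat_lit 126525) (nat_lit 8) (node (nat_lit 4) (nat_lit 127280) (nat_lit 9) nil nil) (node
  (nat_lit 5) (nat_lit 124841) (nat_lit 8) nil nil))) nil)))) nil)))) (node (nat_lit 0) (nat_lit
  0) (nat_lit 5) (node (nat_lit 6) (nat_lit 122293) (nat_lit 6) (node (nat_lit 8) (nat_lit 123913)
  (nat_lit 7) (node (nat_lit 5) (nat_lit 124587) (nat_lit 8) nil nil) (node (nat_lit 5) (nat_lit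
  120957) (nat_lit 7) (node (nat_lit 4) (nat_lit 119374) (nat_lit 8) (node (nat_lit 5) (nat_lit
  120982) (nat_lit 9) (node (nat_lit 6) (nat_lit 122204) (nat_lit 10) (node (nat_lit 5) (nat_lit
  123281) (nat_lit 11) nil nil) nil) nil) nil) (node (nat_lit 4) (nat_lit 123913) (nat_lit 7)
  (node (nat_lit 5) (nat_lit 124980) (nat_lit 8) (node (nat_lit 6) (nat_lit 125717) (nat_lit 9)
  (node (nat_lit 5) (nat_lit 126278) (nat_lit 10) nil nil) nil) nil) nil))) (node (nat_lit 4)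
  (nat_lit 122145) (nat_lit 6) (node (nat_lit 8) (nat_lit 123766) (nat_lit 7) (node (nat_lit 6)
  (nat_lit 124832) (nat_lit 8) nil (node (nat_lit 5) (nat_lit 124412) (nat_lit 8) nil nil)) (node
  (nat_lit 6) (nat_lit 123766) (nat_lit 7) (node (nat_lit 5) (nat_lit 124746) (nat_lit 8) nil
  (node (nat_lit 4) (nat_lit 114639) (nat_lit 8) (node (nat_lit 5) (nat_lit 107301) (nat_lit 9)
  (node (nat_lit 6) (nat_lit 96358) (nat_lit 10) (node (nat_lit 5) (nat_lit 79444) (nat_lit 11)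
  nil nil) nil) nil) nil)) nil)) (node (nat_lit 5) (nat_lit 120139) (nat_lit 6) (node (nat_lit 4)
  (nat_lit 120755) (nat_lit 7) (node (nat_lit 5) (nat_lit 122826) (nat_lit 8) (node (nat_lit 6)
  (nat_lit 123564) (nat_lit 9) (node (nat_lit 5) (nat_lit 124124) (nat_lit 10) nil nil) nil) nil)
  (node (nat_lit 6) (nat_lit 121759) (nat_lit 7) (node (nat_lit 4) (nat_lit 122826) (nat_lit 8)
  (node (nat_lit 5) (nat_lit 121997) (nat_lit 9) (node (nat_lit 6) (nat_lit 112293) (nat_lit 10)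
  (node (nat_lit 5) (nat_lit 92161) (nat_lit 11) nil nil) nil) nil) nil) nil)) (node (nat_lit 0)
  (nat_lit 121918) (nat_lit 6) (node (nat_lit 5) (nat_lit 120909) (nat_lit 7) (node (nat_lit 4)
  (nat_lit 119325) (nat_lit 8) nil nil) (node (nat_lit 6) (nat_lit 123539) (nat_lit 7) nil (node
  (nat_lit 4) (nat_lit 120909) (nat_lit 7) (node (nat_lit 6) (nat_lit 121233) (nat_lit 8) nil nil)
  nil))) (node (nat_lit 2) (nat_lit 0) (nat_lit 6) (node (nat_lit 5) (nat_lit 114575) (nat_lit 7)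
  (node (nat_lit 4) (nat_lit 111726) (nat_lit 8) (node (nat_lit 5) (nat_lit 97113) (nat_lit 9)
  (node (nat_lit 6) (nat_lit 87346) (nat_lit 10) nil nil) nil) (node (nat_lit 6) (nat_lit 115641)
  (nat_lit 8) nil nil)) (node (nat_lit 6) (nat_lit 116172) (nat_lit 7) (node (nat_lit 4) (nat_lit
  114780) (nat_lit 8) (node (nat_lit 5) (nat_lit 107442) (nat_lit 9) (node (nat_lit 6) (nat_lit
  96499) (nat_lit 10) nil nil) nil) (node (nat_lit 5) (nat_lit 114589) (nat_lit 8) nil nil)) (node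
  (nat_lit 4) (nat_lit 121258) (nat_lit 7) (node (nat_lit 6) (nat_lit 121582) (nat_lit 8) nil nil)
  (node (nat_lit 8) (nat_lit 121496) (nat_lit 7) nil (node (nat_lit 0) (nat_lit 121496) (nat_lit
  7) nil nil))))) nil))))) (node (nat_lit 2) (nat_lit 0) (nat_lit 5) (node (nat_lit 6) (nat_lit 0)
  (nat_lit 6) (node (nat_lit 5) (nat_lit 113358) (nat_lit 7) (node (nat_lit 4) (nat_lit 118138)
  (nat_lit 8) (node (nat_lit 5) (nat_lit 119747) (nat_lit 9) (node (nat_lit 6) (nat_lit 120968)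
  (nat_lit 10) (node (nat_lit 5) (nat_lit 121481) (nat_lit 11) nil nil) nil) nil) nil) (node
  (nat_lit 8) (nat_lit 113358) (nat_lit 7) (node (nat_lit 5) (nat_lit 112875) (nat_lit 8) (node
  (nat_lit 4) (nat_lit 111241) (nat_lit 9) (node (nat_lit 5) (nat_lit 106872) (nat_lit 10) (node
  (nat_lit 6) (nat_lit 94627) (nat_lit 11) (node (nat_lit 5) (nat_lit 91078) (nat_lit 12) nil nil)
  nil) nil) nil) (node (nat_lit 4) (nat_lit 118138) (nat_lit 8) nil nil)) (node (nat_lit 4)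
  (nat_lit 121335) (nat_lit 7) (node (nat_lit 5) (nat_lit 118457) (nat_lit 8) (node (nat_lit 6)
  (nat_lit 87917) (nat_lit 9) (node (nat_lit 5) (nat_lit 49239) (nat_lit 10) (node (nat_lit 4)
  (nat_lit 49734) (nat_lit 11) nil nil) nil) nil) nil) (node (nat_lit 0) (nat_lit 120659) (nat_lit
  7) nil nil)))) (node (nat_lit 4) (nat_lit 120258) (nat_lit 6) (node (nat_lit 8) (nat_lit 122836)
  (nat_lit 7) (node (nat_lit 6) (nat_lit 122528) (nat_lit 8) (node (nat_lit 4) (nat_lit 120547)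
  (nat_lit 9) (node (nat_lit 5) (nat_lit 116471) (nat_lit 10) (node (nat_lit 6) (nat_lit 101629)
  (nat_lit 11) nil nil) nil) (node (nat_lit 5) (nat_lit 121498) (nat_lit 9) nil nil)) (node
  (nat_lit 5) (nat_lit 118067) (nat_lit 8) (node (nat_lit 4) (nat_lit 116016) (nat_lit 9) (node
  (nat_lit 5) (nat_lit 110540) (nat_lit 10) (node (nat_lit 6) (nat_lit 105675) (nat_lit 11) nil
  nil) nil) (node (nat_lit 6) (nat_lit 118805) (nat_lit 9) nil nil)) nil)) (node (nat_lit 6)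
  (nat_lit 124115) (nat_lit 7) (node (nat_lit 5) (nat_lit 122531) (nat_lit 8) (node (nat_lit 4)
  (nat_lit 121089) (nat_lit 9) (node (nat_lit 5) (nat_lit 122310) (nat_lit 10) (node (nat_lit 6)
  (nat_lit 123388) (nat_lit 11) nil nil) nil) nil) (node (nat_lit 4) (nat_lit 122723) (nat_lit 8)
  (node (nat_lit 5) (nat_lit 113800) (nat_lit 9) (node (nat_lit 6) (nat_lit 103686) (nat_lit 10)
  (node (nat_lit 5) (nat_lit 87528) (nat_lit 11) nil nil) nil) nil) nil)) (node (nat_lit 5)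
  (nat_lit 123723) (nat_lit 7) nil nil))) (node (nat_lit 5) (nat_lit 110926) (nat_lit 6) (node
  (nat_lit 4) (nat_lit 113593) (nat_lit 7) (node (nat_lit 6) (nat_lit 114660) (nat_lit 8) (node
  (nat_lit 4) (nat_lit 115398) (nat_lit 9) (node (nat_lit 5) (nat_lit 115173) (nat_lit 10) (node
  (nat_lit 6) (nat_lit 111197) (nat_lit 11) (node (nat_lit 5) (nat_lit 100771) (nat_lit 12) nil
  nil) nil) nil) nil) (node (nat_lit 5) (nat_lit 97113) (nat_lit 8) (node (nat_lit 6) (nat_lit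
  96512) (nat_lit 9) (node (nat_lit 5) (nat_lit 84000) (nat_lit 10) nil nil) nil) nil)) (node
  (nat_lit 6) (nat_lit 113358) (nat_lit 7) (node (nat_lit 4) (nat_lit 114425) (nat_lit 8) (node
  (nat_lit 5) (nat_lit 113786) (nat_lit 9) (node (nat_lit 6) (nat_lit 99251) (nat_lit 10) (node
  (nat_lit 5) (nat_lit 79120) (nat_lit 11) nil nil) nil) nil) nil) nil)) (node (nat_lit 0)
  (nat_lit 119657) (nat_lit 6) (node (nat_lit 5) (nat_lit 120957) (nat_lit 7) (node (nat_lit 4)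
  (nat_lit 119374) (nat_lit 8) nil nil) (node (nat_lit 6) (nat_lit 121277) (nat_lit 7) nil nil))
  nil)))) nil)))

noncomputable def t174 : Tr :=
  (node (nat_lit 1) (nat_lit 0) (nat_lit 3) (node (nat_lit 4) (nat_lit 0) (nat_lit 4) (node
  (nat_lit 5) (nat_lit 0) (nat_lit 5) t171 (node (nat_lit 6) (nat_lit 0) (nat_lit 5) t172 (node
  (nat_lit 0) (nat_lit 0) (nat_lit 5) (node (nat_lit 5) (nat_lit 79185) (nat_lit 6) (node (nat_lit
  8) (nat_lit 84529) (nat_lit 7) (node (nat_lit 4) (nat_lit 86854) (nat_lit 8) (node (nat_lit 6)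
  (nat_lit 88463) (nat_lit 9) (node (nat_lit 5) (nat_lit 89684) (nat_lit 10) nil nil) nil) (node
  (nat_lit 6) (nat_lit 86854) (nat_lit 8) (node (nat_lit 4) (nat_lit 88463) (nat_lit 9) (node
  (nat_lit 5) (nat_lit 89684) (nat_lit 10) (node (nat_lit 6) (nat_lit 90761) (nat_lit 11) nil nil)
  nil) nil) nil)) (node (nat_lit 4) (nat_lit 80752) (nat_lit 7) (node (nat_lit 6) (nat_lit 83077)
  (nat_lit 8) nil (node (nat_lit 5) (nat_lit 83077) (nat_lit 8) (node (nat_lit 6) (nat_lit 84685)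
  (nat_lit 9) (node (nat_lit 4) (nat_lit 85906) (nat_lit 10) nil nil) nil) nil)) (node (nat_lit 6)
  (nat_lit 82769) (nat_lit 7) (node (nat_lit 4) (nat_lit 85094) (nat_lit 8) nil (node (nat_lit 5)
  (nat_lit 85094) (nat_lit 8) (node (nat_lit 4) (nat_lit 83652) (nat_lit 9) nil nil) nil)) nil)))
  (node (nat_lit 6) (nat_lit 0) (nat_lit 6) (node (nat_lit 8) (nat_lit 83362) (nat_lit 7) (node
  (nat_lit 5) (nat_lit 85686) (nat_lit 8) (node (nat_lit 4) (nat_lit 84244) (nat_lit 9) (node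
  (nat_lit 5) (nat_lit 85465) (nat_lit 10) (node (nat_lit 6) (nat_lit 86543) (nat_lit 11) (node
  (nat_lit 4) (nat_lit 87519) (nat_lit 12) nil nil) nil) nil) nil) nil) (node (nat_lit 5) (nat_lit
  83821) (nat_lit 7) (node (nat_lit 4) (nat_lit 86146) (nat_lit 8) (node (nat_lit 6) (nat_lit
  87755) (nat_lit 9) (node (nat_lit 4) (nat_lit 81236) (nat_lit 10) (node (nat_lit 5) (nat_lit
  79317) (nat_lit 11) nil nil) nil) (node (nat_lit 5) (nat_lit 87755) (nat_lit 9) (node (nat_lit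
  6) (nat_lit 88976) (nat_lit 10) (node (nat_lit 4) (nat_lit 90053) (nat_lit 11) nil nil) nil)
  nil)) nil) (node (nat_lit 4) (nat_lit 80587) (nat_lit 7) (node (nat_lit 5) (nat_lit 82911)
  (nat_lit 8) (node (nat_lit 6) (nat_lit 84520) (nat_lit 9) (node (nat_lit 4) (nat_lit 85741)
  (nat_lit 10) nil nil) nil) nil) (node (nat_lit 0) (nat_lit 82603) (nat_lit 7) nil (node (nat_lit
  2) (nat_lit 78265) (nat_lit 7) nil nil))))) (node (nat_lit 4) (nat_lit 77800) (nat_lit 6) (node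
  (nat_lit 6) (nat_lit 79774) (nat_lit 7) (node (nat_lit 5) (nat_lit 82099) (nat_lit 8) nil nil)
  (node (nat_lit 5) (nat_lit 83433) (nat_lit 7) (node (nat_lit 4) (nat_lit 85758) (nat_lit 8) nil
  nil) nil)) (node (nat_lit 0) (nat_lit 79348) (nat_lit 6) (node (nat_lit 5) (nat_lit 83991)
  (nat_lit 7) (node (nat_lit 4) (nat_lit 82408) (nat_lit 8) (node (nat_lit 5) (nat_lit 84016)
  (nat_lit 9) nil nil) nil) (node (nat_lit 6) (nat_lit 82879) (nat_lit 7) (node (nat_lit 4)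
  (nat_lit 85204) (nat_lit 8) (node (nat_lit 5) (nat_lit 86813) (nat_lit 9) (node (nat_lit 6)
  (nat_lit 88034) (nat_lit 10) nil nil) nil) (node (nat_lit 5) (nat_lit 85204) (nat_lit 8) nil
  nil)) (node (nat_lit 4) (nat_lit 82879) (nat_lit 7) (node (nat_lit 6) (nat_lit 85204) (nat_lit
  8) nil nil) (node (nat_lit 8) (nat_lit 83991) (nat_lit 7) nil nil)))) (node (nat_lit 2) (nat_lit
  0) (nat_lit 6) (node (nat_lit 5) (nat_lit 83503) (nat_lit 7) (node (nat_lit 4) (nat_lit 80637)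
  (nat_lit 8) (node (nat_lit 5) (nat_lit 75322) (nat_lit 9) (node (nat_lit 6) (nat_lit 50531)
  (nat_lit 10) nil nil) nil) nil) (node (nat_lit 6) (nat_lit 79700) (nat_lit 7) (node (nat_lit 4)
  (nat_lit 80111) (nat_lit 8) (node (nat_lit 5) (nat_lit 64803) (nat_lit 9) (node (nat_lit 6)
  (nat_lit 36761) (nat_lit 10) nil nil) nil) (node (nat_lit 5) (nat_lit 82025) (nat_lit 8) (node
  (nat_lit 4) (nat_lit 80583) (nat_lit 9) nil nil) nil)) (node (nat_lit 4) (nat_lit 82063)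
  (nat_lit 7) (node (nat_lit 6) (nat_lit 82947) (nat_lit 8) (node (nat_lit 5) (nat_lit 84556)
  (nat_lit 9) nil nil) nil) (node (nat_lit 8) (nat_lit 83503) (nat_lit 7) nil (node (nat_lit 0)
  (nat_lit 81851) (nat_lit 7) nil nil))))) nil))))) (node (nat_lit 2) (nat_lit 0) (nat_lit 5)
  (node (nat_lit 5) (nat_lit 0) (nat_lit 6) (node (nat_lit 8) (nat_lit 80324) (nat_lit 7) (node
  (nat_lit 6) (nat_lit 83170) (nat_lit 8) (node (nat_lit 4) (nat_lit 84779) (nat_lit 9) (node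
  (nat_lit 5) (nat_lit 83352) (nat_lit 10) (node (nat_lit 6) (nat_lit 79070) (nat_lit 11) (node
  (nat_lit 4) (nat_lit 68217) (nat_lit 12) nil nil) nil) nil) (node (nat_lit 5) (nat_lit 85604)
  (nat_lit 9) (node (nat_lit 4) (nat_lit 86826) (nat_lit 10) nil nil) nil)) (node (nat_lit 4)
  (nat_lit 83175) (nat_lit 8) (node (nat_lit 6) (nat_lit 84206) (nat_lit 9) (node (nat_lit 4)
  (nat_lit 85427) (nat_lit 10) nil nil) nil) nil)) (node (nat_lit 4) (nat_lit 68843) (nat_lit 7)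
  (node (nat_lit 6) (nat_lit 72873) (nat_lit 8) (node (nat_lit 5) (nat_lit 75382) (nat_lit 9)
  (node (nat_lit 4) (nat_lit 75661) (nat_lit 10) nil nil) (node (nat_lit 4) (nat_lit 75086)
  (nat_lit 9) (node (nat_lit 5) (nat_lit 77295) (nat_lit 10) (node (nat_lit 6) (nat_lit 78372)
  (nat_lit 11) nil nil) nil) nil)) (node (nat_lit 5) (nat_lit 59951) (nat_lit 8) (node (nat_lit 6)
  (nat_lit 43113) (nat_lit 9) (node (nat_lit 4) (nat_lit 43774) (nat_lit 10) nil nil) nil) (node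
  (nat_lit 8) (nat_lit 72832) (nat_lit 8) (node (nat_lit 4) (nat_lit 74516) (nat_lit 9) nil nil)
  nil))) (node (nat_lit 6) (nat_lit 79350) (nat_lit 7) (node (nat_lit 4) (nat_lit 81675) (nat_lit
  8) nil (node (nat_lit 5) (nat_lit 82858) (nat_lit 8) (node (nat_lit 4) (nat_lit 84466) (nat_lit
  9) nil nil) nil)) (node (nat_lit 0) (nat_lit 80753) (nat_lit 7) nil nil)))) (node (nat_lit 6)
  (nat_lit 0) (nat_lit 6) (node (nat_lit 8) (nat_lit 0) (nat_lit 7) (node (nat_lit 4) (nat_lit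
  66529) (nat_lit 8) (node (nat_lit 6) (nat_lit 68137) (nat_lit 9) (node (nat_lit 5) (nat_lit
  74445) (nat_lit 10) nil (node (nat_lit 4) (nat_lit 70680) (nat_lit 10) (node (nat_lit 5)
  (nat_lit 70499) (nat_lit 11) (node (nat_lit 6) (nat_lit 63846) (nat_lit 12) nil nil) nil) nil))
  (node (nat_lit 8) (nat_lit 68144) (nat_lit 9) nil (node (nat_lit 5) (nat_lit 78313) (nat_lit 9)
  nil nil))) (node (nat_lit 5) (nat_lit 80900) (nat_lit 8) (node (nat_lit 4) (nat_lit 78971)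
  (nat_lit 9) (node (nat_lit 5) (nat_lit 66312) (nat_lit 10) (node (nat_lit 6) (nat_lit 54966)
  (nat_lit 11) (node (nat_lit 4) (nat_lit 40156) (nat_lit 12) nil nil) nil) nil) nil) (node
  (nat_lit 0) (nat_lit 79004) (nat_lit 8) nil nil))) (node (nat_lit 5) (nat_lit 83042) (nat_lit 7)
  (node (nat_lit 4) (nat_lit 84806) (nat_lit 8) (node (nat_lit 5) (nat_lit 87288) (nat_lit 9)
  (node (nat_lit 6) (nat_lit 88509) (nat_lit 10) (node (nat_lit 4) (nat_lit 89586) (nat_lit 11)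
  nil nil) nil) nil) nil) (node (nat_lit 4) (nat_lit 64204) (nat_lit 7) (node (nat_lit 5) (nat_lit
  73068) (nat_lit 8) (node (nat_lit 6) (nat_lit 43443) (nat_lit 9) nil nil) (node (nat_lit 6)
  (nat_lit 66529) (nat_lit 8) nil nil)) (node (nat_lit 0) (nat_lit 79330) (nat_lit 7) nil nil))))
  (node (nat_lit 4) (nat_lit 0) (nat_lit 6) (node (nat_lit 6) (nat_lit 64136) (nat_lit 7) (node
  (nat_lit 5) (nat_lit 81018) (nat_lit 8) (node (nat_lit 4) (nat_lit 82626) (nat_lit 9) (node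
  (nat_lit 5) (nat_lit 83848) (nat_lit 10) (node (nat_lit 6) (nat_lit 84925) (nat_lit 11) (node
  (nat_lit 4) (nat_lit 85901) (nat_lit 12) nil nil) nil) nil) (node (nat_lit 6) (nat_lit 81442)
  (nat_lit 9) (node (nat_lit 4) (nat_lit 82663) (nat_lit 10) nil nil) nil)) (node (nat_lit 8)
  (nat_lit 66461) (nat_lit 8) (node (nat_lit 4) (nat_lit 68069) (nat_lit 9) nil (node (nat_lit 6)
  (nat_lit 68069) (nat_lit 9) nil nil)) (node (nat_lit 4) (nat_lit 66461) (nat_lit 8) (node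
  (nat_lit 5) (nat_lit 71624) (nat_lit 9) (node (nat_lit 6) (nat_lit 46087) (nat_lit 10) nil nil)
  nil) nil))) (node (nat_lit 5) (nat_lit 81336) (nat_lit 7) (node (nat_lit 6) (nat_lit 82618)
  (nat_lit 8) (node (nat_lit 5) (nat_lit 84226) (nat_lit 9) nil nil) nil) (node (nat_lit 0)
  (nat_lit 79689) (nat_lit 7) nil nil))) (node (nat_lit 0) (nat_lit 0) (nat_lit 6) (node (nat_lit
  5) (nat_lit 81207) (nat_lit 7) (node (nat_lit 4) (nat_lit 83532) (nat_lit 8) (node (nat_lit 5)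
  (nat_lit 85140) (nat_lit 9) nil nil) nil) (node (nat_lit 6) (nat_lit 80360) (nat_lit 7) (node
  (nat_lit 4) (nat_lit 82685) (nat_lit 8) (node (nat_lit 5) (nat_lit 84293) (nat_lit 9) (node
  (nat_lit 6) (nat_lit 85514) (nat_lit 10) nil nil) nil) (node (nat_lit 5) (nat_lit 82685)
  (nat_lit 8) (node (nat_lit 4) (nat_lit 81242) (nat_lit 9) nil nil) nil)) (node (nat_lit 4)
  (nat_lit 80235) (nat_lit 7) (node (nat_lit 6) (nat_lit 82560) (nat_lit 8) nil nil) (node
  (nat_lit 8) (nat_lit 80855) (nat_lit 7) nil (node (nat_lit 0) (nat_lit 80095) (nat_lit 7) nil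
  nil))))) nil)))) nil)))) (node (nat_lit 5) (nat_lit 0) (nat_lit 4) t173 nil)) (node (nat_lit 4)
  (nat_lit 0) (nat_lit 3) (node (nat_lit 1) (nat_lit 0) (nat_lit 4) (node (nat_lit 5) (nat_lit 0)
  (nat_lit 5) (node (nat_lit 7) (nat_lit 0) (nat_lit 6) (node (nat_lit 0) (nat_lit 75488) (nat_lit
  7) nil (node (nat_lit 2) (nat_lit 75488) (nat_lit 7) nil (node (nat_lit 4) (nat_lit 64588)
  (nat_lit 7) (node (nat_lit 5) (nat_lit 65558) (nat_lit 8) (node (nat_lit 4) (nat_lit 63388)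
  (nat_lit 9) nil nil) nil) nil))) (node (nat_lit 4) (nat_lit 0) (nat_lit 6) (node (nat_lit 0)
  (nat_lit 67374) (nat_lit 7) nil (node (nat_lit 2) (nat_lit 73246) (nat_lit 7) nil (node (nat_lit
  5) (nat_lit 63459) (nat_lit 7) (node (nat_lit 7) (nat_lit 69498) (nat_lit 8) (node (nat_lit 4)
  (nat_lit 71021) (nat_lit 9) nil nil) nil) nil))) (node (nat_lit 0) (nat_lit 71303) (nat_lit 6)
  nil (node (nat_lit 2) (nat_lit 71303) (nat_lit 6) nil nil)))) (node (nat_lit 4) (nat_lit 0)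
  (nat_lit 5) (node (nat_lit 5) (nat_lit 0) (nat_lit 6) (node (nat_lit 0) (nat_lit 0) (nat_lit 7)
  (node (nat_lit 5) (nat_lit 0) (nat_lit 8) (node (nat_lit 7) (nat_lit 65955) (nat_lit 9) (node
  (nat_lit 4) (nat_lit 66947) (nat_lit 10) (node (nat_lit 5) (nat_lit 67454) (nat_lit 11) (node
  (nat_lit 4) (nat_lit 60060) (nat_lit 12) (node (nat_lit 7) (nat_lit 45191) (nat_lit 13) (node
  (nat_lit 4) (nat_lit 33072) (nat_lit 14) nil nil) nil) nil) nil) nil) (node (nat_lit 4) (nat_lit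
  66266) (nat_lit 9) nil (node (nat_lit 0) (nat_lit 65955) (nat_lit 9) nil (node (nat_lit 2)
  (nat_lit 65955) (nat_lit 9) (node (nat_lit 5) (nat_lit 64066) (nat_lit 10) (node (nat_lit 7)
  (nat_lit 64247) (nat_lit 11) nil nil) nil) nil)))) (node (nat_lit 4) (nat_lit 65201) (nat_lit 8)
  nil (node (nat_lit 7) (nat_lit 64936) (nat_lit 8) (node (nat_lit 4) (nat_lit 65955) (nat_lit 9)
  (node (nat_lit 5) (nat_lit 66596) (nat_lit 10) nil nil) nil) (node (nat_lit 0) (nat_lit 65201)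
  (nat_lit 8) nil (node (nat_lit 2) (nat_lit 64936) (nat_lit 8) (node (nat_lit 5) (nat_lit 65955)
  (nat_lit 9) nil nil) nil))))) (node (nat_lit 2) (nat_lit 0) (nat_lit 7) (node (nat_lit 5)
  (nat_lit 0) (nat_lit 8) (node (nat_lit 7) (nat_lit 62639) (nat_lit 9) (node (nat_lit 4) (nat_lit
  65209) (nat_lit 10) (node (nat_lit 5) (nat_lit 65773) (nat_lit 11) (node (nat_lit 4) (nat_lit
  60060) (nat_lit 12) (node (nat_lit 7) (nat_lit 44207) (nat_lit 13) (node (nat_lit 4) (nat_lit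
  33420) (nat_lit 14) nil nil) nil) nil) nil) (node (nat_lit 10) (nat_lit 60750) (nat_lit 10) nil
  nil)) (node (nat_lit 4) (nat_lit 65348) (nat_lit 9) (node (nat_lit 10) (nat_lit 63459) (nat_lit
  10) nil nil) (node (nat_lit 0) (nat_lit 65348) (nat_lit 9) nil nil))) (node (nat_lit 4) (nat_lit
  64987) (nat_lit 8) (node (nat_lit 7) (nat_lit 66006) (nat_lit 9) nil nil) (node (nat_lit 7)
  (nat_lit 60939) (nat_lit 8) (node (nat_lit 4) (nat_lit 64993) (nat_lit 9) (node (nat_lit 5)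
  (nat_lit 65634) (nat_lit 10) (node (nat_lit 4) (nat_lit 42395) (nat_lit 11) nil nil) nil) (node
  (nat_lit 10) (nat_lit 62582) (nat_lit 9) nil nil)) (node (nat_lit 0) (nat_lit 64987) (nat_lit 8)
  nil nil)))) (node (nat_lit 7) (nat_lit 0) (nat_lit 7) (node (nat_lit 0) (nat_lit 64808) (nat_lit
  8) (node (nat_lit 7) (nat_lit 65828) (nat_lit 9) nil nil) (node (nat_lit 2) (nat_lit 61009)
  (nat_lit 8) (node (nat_lit 5) (nat_lit 62456) (nat_lit 9) (node (nat_lit 7) (nat_lit 63098)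
  (nat_lit 10) nil nil) (node (nat_lit 4) (nat_lit 65227) (nat_lit 9) nil (node (nat_lit 7)
  (nat_lit 62348) (nat_lit 9) nil nil))) (node (nat_lit 4) (nat_lit 0) (nat_lit 8) (node (nat_lit
  7) (nat_lit 62121) (nat_lit 9) (node (nat_lit 5) (nat_lit 63762) (nat_lit 10) nil nil) (node
  (nat_lit 0) (nat_lit 62232) (nat_lit 9) nil (node (nat_lit 2) (nat_lit 62121) (nat_lit 9) nil
  nil))) (node (nat_lit 5) (nat_lit 0) (nat_lit 8) (node (nat_lit 4) (nat_lit 62308) (nat_lit 9)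
  (node (nat_lit 7) (nat_lit 63948) (nat_lit 10) nil nil) (node (nat_lit 0) (nat_lit 62220)
  (nat_lit 9) nil (node (nat_lit 2) (nat_lit 58472) (nat_lit 9) nil nil))) nil)))) nil))) (node
  (nat_lit 0) (nat_lit 0) (nat_lit 6) (node (nat_lit 7) (nat_lit 72355) (nat_lit 7) (node (nat_lit
  9) (nat_lit 75019) (nat_lit 8) nil (node (nat_lit 5) (nat_lit 70650) (nat_lit 8) (node (nat_lit
  7) (nat_lit 71059) (nat_lit 9) (node (nat_lit 4) (nat_lit 69466) (nat_lit 10) (node (nat_lit 5)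
  (nat_lit 67454) (nat_lit 11) (node (nat_lit 4) (nat_lit 60727) (nat_lit 12) (node (nat_lit 7)
  (nat_lit 53293) (nat_lit 13) (node (nat_lit 4) (nat_lit 42706) (nat_lit 14) nil nil) nil) nil)
  nil) nil) nil) (node (nat_lit 4) (nat_lit 75019) (nat_lit 8) (node (nat_lit 5) (nat_lit 76038)
  (nat_lit 9) (node (nat_lit 4) (nat_lit 74149) (nat_lit 10) (node (nat_lit 7) (nat_lit 74330)
  (nat_lit 11) nil nil) nil) nil) nil))) (node (nat_lit 5) (nat_lit 72355) (nat_lit 7) (node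
  (nat_lit 7) (nat_lit 68330) (nat_lit 8) (node (nat_lit 4) (nat_lit 65740) (nat_lit 9) (node
  (nat_lit 5) (nat_lit 62664) (nat_lit 10) (node (nat_lit 4) (nat_lit 52216) (nat_lit 11) (node
  (nat_lit 7) (nat_lit 40282) (nat_lit 12) nil nil) nil) nil) nil) (node (nat_lit 9) (nat_lit
  75019) (nat_lit 8) nil (node (nat_lit 4) (nat_lit 70650) (nat_lit 8) nil nil))) (node (nat_lit
  4) (nat_lit 72355) (nat_lit 7) (node (nat_lit 7) (nat_lit 75019) (nat_lit 8) nil (node (nat_lit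
  5) (nat_lit 75019) (nat_lit 8) nil nil)) (node (nat_lit 0) (nat_lit 72355) (nat_lit 7) (node
  (nat_lit 7) (nat_lit 75019) (nat_lit 8) (node (nat_lit 4) (nat_lit 76038) (nat_lit 9) nil nil)
  (node (nat_lit 5) (nat_lit 70650) (nat_lit 8) (node (nat_lit 7) (nat_lit 71059) (nat_lit 9) nil
  nil) nil)) (node (nat_lit 2) (nat_lit 72355) (nat_lit 7) (node (nat_lit 9) (nat_lit 75019)
  (nat_lit 8) (node (nat_lit 7) (nat_lit 76038) (nat_lit 9) nil nil) (node (nat_lit 4) (nat_lit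
  74011) (nat_lit 8) (node (nat_lit 7) (nat_lit 71059) (nat_lit 9) nil nil) (node (nat_lit 7)
  (nat_lit 75019) (nat_lit 8) (node (nat_lit 4) (nat_lit 65740) (nat_lit 9) nil nil) nil)))
  nil))))) (node (nat_lit 2) (nat_lit 0) (nat_lit 6) (node (nat_lit 7) (nat_lit 72355) (nat_lit 7)
  (node (nat_lit 9) (nat_lit 75019) (nat_lit 8) nil (node (nat_lit 5) (nat_lit 70650) (nat_lit 8)
  (node (nat_lit 7) (nat_lit 71059) (nat_lit 9) (node (nat_lit 4) (nat_lit 69466) (nat_lit 10)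
  (node (nat_lit 5) (nat_lit 67454) (nat_lit 11) (node (nat_lit 4) (nat_lit 60727) (nat_lit 12)
  (node (nat_lit 7) (nat_lit 53293) (nat_lit 13) (node (nat_lit 4) (nat_lit 42706) (nat_lit 14)
  nil nil) nil) nil) nil) nil) nil) (node (nat_lit 4) (nat_lit 75019) (nat_lit 8) (node (nat_lit
  5) (nat_lit 65679) (nat_lit 9) (node (nat_lit 4) (nat_lit 58363) (nat_lit 10) (node (nat_lit 7)
  (nat_lit 36783) (nat_lit 11) nil nil) nil) (node (nat_lit 7) (nat_lit 76038) (nat_lit 9) nil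
  nil)) nil))) (node (nat_lit 5) (nat_lit 72355) (nat_lit 7) (node (nat_lit 7) (nat_lit 75019)
  (nat_lit 8) nil (node (nat_lit 9) (nat_lit 70650) (nat_lit 8) nil (node (nat_lit 4) (nat_lit
  70650) (nat_lit 8) nil nil))) (node (nat_lit 4) (nat_lit 72355) (nat_lit 7) (node (nat_lit 7)
  (nat_lit 75019) (nat_lit 8) (node (nat_lit 4) (nat_lit 73912) (nat_lit 9) (node (nat_lit 5)
  (nat_lit 70836) (nat_lit 10) (node (nat_lit 4) (nat_lit 55413) (nat_lit 11) (node (nat_lit 7)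
  (nat_lit 43334) (nat_lit 12) nil nil) nil) nil) nil) (node (nat_lit 5) (nat_lit 75019) (nat_lit
  8) (node (nat_lit 7) (nat_lit 76038) (nat_lit 9) nil nil) nil)) (node (nat_lit 0) (nat_lit
  72355) (nat_lit 7) (node (nat_lit 9) (nat_lit 70650) (nat_lit 8) nil (node (nat_lit 4) (nat_lit
  70650) (nat_lit 8) (node (nat_lit 7) (nat_lit 71059) (nat_lit 9) nil nil) (node (nat_lit 7)
  (nat_lit 75019) (nat_lit 8) (node (nat_lit 4) (nat_lit 76038) (nat_lit 9) nil nil) nil)))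
  nil)))) nil))) (node (nat_lit 0) (nat_lit 0) (nat_lit 5) (node (nat_lit 5) (nat_lit 79567)
  (nat_lit 6) (node (nat_lit 7) (nat_lit 81412) (nat_lit 7) (node (nat_lit 4) (nat_lit 66587)
  (nat_lit 8) (node (nat_lit 5) (nat_lit 60503) (nat_lit 9) (node (nat_lit 4) (nat_lit 45130)
  (nat_lit 10) (node (nat_lit 7) (nat_lit 27315) (nat_lit 11) nil nil) nil) nil) nil) nil) (node
  (nat_lit 4) (nat_lit 79567) (nat_lit 6) nil (node (nat_lit 7) (nat_lit 79567) (nat_lit 6) (node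
  (nat_lit 4) (nat_lit 81412) (nat_lit 7) (node (nat_lit 5) (nat_lit 82625) (nat_lit 8) nil nil)
  nil) (node (nat_lit 0) (nat_lit 79567) (nat_lit 6) nil (node (nat_lit 2) (nat_lit 79567)
  (nat_lit 6) nil nil))))) (node (nat_lit 2) (nat_lit 0) (nat_lit 5) (node (nat_lit 5) (nat_lit
  79567) (nat_lit 6) (node (nat_lit 7) (nat_lit 81412) (nat_lit 7) (node (nat_lit 4) (nat_lit
  82625) (nat_lit 8) (node (nat_lit 5) (nat_lit 83465) (nat_lit 9) (node (nat_lit 4) (nat_lit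
  74090) (nat_lit 10) (node (nat_lit 7) (nat_lit 63129) (nat_lit 11) nil nil) nil) nil) nil) nil)
  (node (nat_lit 4) (nat_lit 79567) (nat_lit 6) (node (nat_lit 8) (nat_lit 81412) (nat_lit 7)
  (node (nat_lit 7) (nat_lit 82625) (nat_lit 8) (node (nat_lit 4) (nat_lit 83465) (nat_lit 9)
  (node (nat_lit 5) (nat_lit 68732) (nat_lit 10) nil nil) nil) nil) (node (nat_lit 7) (nat_lit
  81412) (nat_lit 7) nil nil)) (node (nat_lit 7) (nat_lit 79567) (nat_lit 6) (node (nat_lit 4)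
  (nat_lit 80615) (nat_lit 7) (node (nat_lit 5) (nat_lit 70755) (nat_lit 8) (node (nat_lit 4)
  (nat_lit 57624) (nat_lit 9) nil nil) nil) nil) (node (nat_lit 0) (nat_lit 79567) (nat_lit 6) nil
  nil)))) nil)))) nil) nil))

noncomputable def t175 : Tr :=
  (node (nat_lit 5) (nat_lit 0) (nat_lit 6) (node (nat_lit 0) (nat_lit 0) (nat_lit 7) (node
  (nat_lit 5) (nat_lit 0) (nat_lit 8) (node (nat_lit 4) (nat_lit 62029) (nat_lit 9) (node (nat_lit
  10) (nat_lit 63054) (nat_lit 10) (node (nat_lit 5) (nat_lit 63969) (nat_lit 11) (node (nat_lit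
  10) (nat_lit 64766) (nat_lit 12) (node (nat_lit 4) (nat_lit 65404) (nat_lit 13) nil (node
  (nat_lit 6) (nat_lit 65195) (nat_lit 13) nil nil)) (node (nat_lit 6) (nat_lit 64766) (nat_lit
  12) (node (nat_lit 5) (nat_lit 65195) (nat_lit 13) nil (node (nat_lit 4) (nat_lit 65404)
  (nat_lit 13) nil nil)) nil)) (node (nat_lit 4) (nat_lit 63969) (nat_lit 11) (node (nat_lit 5)
  (nat_lit 64766) (nat_lit 12) nil (node (nat_lit 6) (nat_lit 64497) (nat_lit 12) nil nil)) (node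
  (nat_lit 6) (nat_lit 63969) (nat_lit 11) (node (nat_lit 4) (nat_lit 64497) (nat_lit 12) nil nil)
  (node (nat_lit 2) (nat_lit 61631) (nat_lit 11) nil (node (nat_lit 0) (nat_lit 63637) (nat_lit
  11) nil nil))))) (node (nat_lit 6) (nat_lit 63054) (nat_lit 10) (node (nat_lit 4) (nat_lit
  63969) (nat_lit 11) nil (node (nat_lit 5) (nat_lit 63969) (nat_lit 11) (node (nat_lit 4)
  (nat_lit 64497) (nat_lit 12) nil nil) (node (nat_lit 10) (nat_lit 63637) (nat_lit 11) nil nil)))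
  (node (nat_lit 0) (nat_lit 63054) (nat_lit 10) (node (nat_lit 5) (nat_lit 63969) (nat_lit 11)
  nil (node (nat_lit 6) (nat_lit 63637) (nat_lit 11) nil (node (nat_lit 4) (nat_lit 63637)
  (nat_lit 11) nil nil))) (node (nat_lit 2) (nat_lit 61798) (nat_lit 10) (node (nat_lit 5)
  (nat_lit 62429) (nat_lit 11) nil (node (nat_lit 4) (nat_lit 62712) (nat_lit 11) nil (node
  (nat_lit 6) (nat_lit 62712) (nat_lit 11) nil (node (nat_lit 10) (nat_lit 62382) (nat_lit 11) nil
  nil)))) (node (nat_lit 5) (nat_lit 63054) (nat_lit 10) (node (nat_lit 6) (nat_lit 63637)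
  (nat_lit 11) (node (nat_lit 5) (nat_lit 64166) (nat_lit 12) (node (nat_lit 4) (nat_lit 64595)
  (nat_lit 13) nil nil) nil) nil) nil))))) (node (nat_lit 6) (nat_lit 61952) (nat_lit 9) (node
  (nat_lit 4) (nat_lit 62977) (nat_lit 10) (node (nat_lit 6) (nat_lit 63891) (nat_lit 11) (node
  (nat_lit 5) (nat_lit 64689) (nat_lit 12) nil nil) (node (nat_lit 5) (nat_lit 63891) (nat_lit 11)
  (node (nat_lit 6) (nat_lit 64689) (nat_lit 12) (node (nat_lit 5) (nat_lit 43719) (nat_lit 13)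
  nil nil) nil) (node (nat_lit 10) (nat_lit 63560) (nat_lit 11) nil nil))) (node (nat_lit 10)
  (nat_lit 62977) (nat_lit 10) (node (nat_lit 6) (nat_lit 63891) (nat_lit 11) (node (nat_lit 5)
  (nat_lit 64689) (nat_lit 12) nil (node (nat_lit 4) (nat_lit 64420) (nat_lit 12) nil nil)) (node
  (nat_lit 5) (nat_lit 63891) (nat_lit 11) (node (nat_lit 4) (nat_lit 64420) (nat_lit 12) nil nil)
  (node (nat_lit 4) (nat_lit 63891) (nat_lit 11) (node (nat_lit 6) (nat_lit 64420) (nat_lit 12)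
  nil nil) (node (nat_lit 0) (nat_lit 63560) (nat_lit 11) nil (node (nat_lit 2) (nat_lit 61554)
  (nat_lit 11) nil nil))))) (node (nat_lit 5) (nat_lit 62977) (nat_lit 10) (node (nat_lit 4)
  (nat_lit 63560) (nat_lit 11) nil (node (nat_lit 10) (nat_lit 63891) (nat_lit 11) (node (nat_lit
  6) (nat_lit 64420) (nat_lit 12) nil nil) nil)) (node (nat_lit 0) (nat_lit 62977) (nat_lit 10)
  (node (nat_lit 6) (nat_lit 63891) (nat_lit 11) nil (node (nat_lit 5) (nat_lit 63891) (nat_lit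
  11) nil (node (nat_lit 4) (nat_lit 63560) (nat_lit 11) nil nil))) (node (nat_lit 2) (nat_lit
  61721) (nat_lit 10) (node (nat_lit 6) (nat_lit 62635) (nat_lit 11) nil (node (nat_lit 5)
  (nat_lit 62352) (nat_lit 11) nil (node (nat_lit 4) (nat_lit 62304) (nat_lit 11) nil nil)))
  nil))))) (node (nat_lit 0) (nat_lit 62029) (nat_lit 9) (node (nat_lit 10) (nat_lit 63054)
  (nat_lit 10) (node (nat_lit 5) (nat_lit 63969) (nat_lit 11) (node (nat_lit 4) (nat_lit 64497)
  (nat_lit 12) nil (node (nat_lit 6) (nat_lit 64766) (nat_lit 12) nil nil)) (node (nat_lit 12)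
  (nat_lit 63637) (nat_lit 11) nil (node (nat_lit 6) (nat_lit 63637) (nat_lit 11) nil (node
  (nat_lit 4) (nat_lit 63637) (nat_lit 11) nil nil)))) (node (nat_lit 5) (nat_lit 63054) (nat_lit
  10) (node (nat_lit 4) (nat_lit 63969) (nat_lit 11) nil (node (nat_lit 6) (nat_lit 63969)
  (nat_lit 11) nil nil)) (node (nat_lit 6) (nat_lit 63054) (nat_lit 10) (node (nat_lit 5) (nat_lit
  63969) (nat_lit 11) nil (node (nat_lit 4) (nat_lit 63637) (nat_lit 11) nil nil)) (node (nat_lit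
  4) (nat_lit 63054) (nat_lit 10) (node (nat_lit 6) (nat_lit 63637) (nat_lit 11) nil (node
  (nat_lit 5) (nat_lit 63637) (nat_lit 11) nil nil)) (node (nat_lit 2) (nat_lit 61798) (nat_lit
  10) (node (nat_lit 5) (nat_lit 62429) (nat_lit 11) nil nil) (node (nat_lit 0) (nat_lit 63054)
  (nat_lit 10) (node (nat_lit 5) (nat_lit 63969) (nat_lit 11) nil nil) nil)))))) (node (nat_lit 2)
  (nat_lit 61952) (nat_lit 9) (node (nat_lit 10) (nat_lit 62977) (nat_lit 10) (node (nat_lit 5)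
  (nat_lit 63891) (nat_lit 11) (node (nat_lit 4) (nat_lit 64420) (nat_lit 12) nil (node (nat_lit
  6) (nat_lit 64689) (nat_lit 12) nil nil)) (node (nat_lit 12) (nat_lit 62884) (nat_lit 11) (node
  (nat_lit 5) (nat_lit 61804) (nat_lit 12) nil nil) (node (nat_lit 6) (nat_lit 63560) (nat_lit 11)
  nil (node (nat_lit 4) (nat_lit 63560) (nat_lit 11) nil nil)))) (node (nat_lit 5) (nat_lit 62977)
  (nat_lit 10) (node (nat_lit 10) (nat_lit 63891) (nat_lit 11) nil (node (nat_lit 4) (nat_lit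
  63891) (nat_lit 11) nil (node (nat_lit 6) (nat_lit 63891) (nat_lit 11) nil nil))) (node (nat_lit
  6) (nat_lit 62977) (nat_lit 10) (node (nat_lit 5) (nat_lit 63891) (nat_lit 11) nil (node
  (nat_lit 4) (nat_lit 63891) (nat_lit 11) nil nil)) (node (nat_lit 4) (nat_lit 62977) (nat_lit
  10) (node (nat_lit 5) (nat_lit 63560) (nat_lit 11) nil (node (nat_lit 6) (nat_lit 63560)
  (nat_lit 11) nil nil)) (node (nat_lit 0) (nat_lit 62977) (nat_lit 10) (node (nat_lit 5) (nat_lit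
  63891) (nat_lit 11) nil nil) nil))))) nil)))) (node (nat_lit 4) (nat_lit 0) (nat_lit 8) (node
  (nat_lit 10) (nat_lit 62029) (nat_lit 9) (node (nat_lit 5) (nat_lit 63054) (nat_lit 10) (node
  (nat_lit 10) (nat_lit 63969) (nat_lit 11) (node (nat_lit 4) (nat_lit 64766) (nat_lit 12) (node
  (nat_lit 5) (nat_lit 65195) (nat_lit 13) nil (node (nat_lit 6) (nat_lit 65195) (nat_lit 13) nil
  nil)) nil) (node (nat_lit 4) (nat_lit 63969) (nat_lit 11) (node (nat_lit 5) (nat_lit 64766)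
  (nat_lit 12) nil nil) nil)) nil) (node (nat_lit 6) (nat_lit 61992) (nat_lit 9) (node (nat_lit 5)
  (nat_lit 63017) (nat_lit 10) (node (nat_lit 4) (nat_lit 63932) (nat_lit 11) nil nil) (node
  (nat_lit 4) (nat_lit 63017) (nat_lit 10) (node (nat_lit 5) (nat_lit 63600) (nat_lit 11) nil nil)
  nil)) (node (nat_lit 5) (nat_lit 61992) (nat_lit 9) (node (nat_lit 4) (nat_lit 63087) (nat_lit
  10) (node (nat_lit 10) (nat_lit 64028) (nat_lit 11) nil nil) (node (nat_lit 6) (nat_lit 63017)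
  (nat_lit 10) nil nil)) (node (nat_lit 2) (nat_lit 60454) (nat_lit 9) (node (nat_lit 5) (nat_lit
  58656) (nat_lit 10) nil nil) (node (nat_lit 0) (nat_lit 61992) (nat_lit 9) nil nil))))) (node
  (nat_lit 0) (nat_lit 60513) (nat_lit 8) (node (nat_lit 5) (nat_lit 61992) (nat_lit 9) (node
  (nat_lit 10) (nat_lit 63017) (nat_lit 10) (node (nat_lit 5) (nat_lit 63932) (nat_lit 11) nil
  (node (nat_lit 6) (nat_lit 63600) (nat_lit 11) nil nil)) (node (nat_lit 4) (nat_lit 63017)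
  (nat_lit 10) nil (node (nat_lit 6) (nat_lit 63017) (nat_lit 10) nil nil))) (node (nat_lit 10)
  (nat_lit 61992) (nat_lit 9) (node (nat_lit 5) (nat_lit 63017) (nat_lit 10) nil nil) (node
  (nat_lit 6) (nat_lit 61992) (nat_lit 9) nil (node (nat_lit 4) (nat_lit 61992) (nat_lit 9) nil
  nil)))) (node (nat_lit 6) (nat_lit 60471) (nat_lit 8) (node (nat_lit 5) (nat_lit 61952) (nat_lit
  9) (node (nat_lit 4) (nat_lit 62977) (nat_lit 10) nil (node (nat_lit 6) (nat_lit 62977) (nat_lit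
  10) nil nil)) (node (nat_lit 10) (nat_lit 62029) (nat_lit 9) (node (nat_lit 5) (nat_lit 63054)
  (nat_lit 10) (node (nat_lit 10) (nat_lit 63969) (nat_lit 11) (node (nat_lit 6) (nat_lit 64497)
  (nat_lit 12) nil nil) nil) nil) (node (nat_lit 4) (nat_lit 61952) (nat_lit 9) (node (nat_lit 5)
  (nat_lit 62977) (nat_lit 10) (node (nat_lit 6) (nat_lit 63560) (nat_lit 11) nil nil) nil) nil)))
  (node (nat_lit 2) (nat_lit 60471) (nat_lit 8) (node (nat_lit 5) (nat_lit 61952) (nat_lit 9)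
  (node (nat_lit 10) (nat_lit 62977) (nat_lit 10) (node (nat_lit 5) (nat_lit 63891) (nat_lit 11)
  nil (node (nat_lit 6) (nat_lit 63560) (nat_lit 11) nil nil)) (node (nat_lit 4) (nat_lit 62977)
  (nat_lit 10) nil (node (nat_lit 6) (nat_lit 62871) (nat_lit 10) nil nil))) (node (nat_lit 10)
  (nat_lit 61952) (nat_lit 9) (node (nat_lit 5) (nat_lit 62977) (nat_lit 10) nil nil) (node
  (nat_lit 6) (nat_lit 61952) (nat_lit 9) nil (node (nat_lit 4) (nat_lit 61952) (nat_lit 9) nil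
  nil)))) nil))))) (node (nat_lit 2) (nat_lit 0) (nat_lit 7) (node (nat_lit 5) (nat_lit 0)
  (nat_lit 8) (node (nat_lit 4) (nat_lit 62029) (nat_lit 9) (node (nat_lit 10) (nat_lit 63054)
  (nat_lit 10) (node (nat_lit 5) (nat_lit 63969) (nat_lit 11) (node (nat_lit 10) (nat_lit 64766)
  (nat_lit 12) (node (nat_lit 4) (nat_lit 65404) (nat_lit 13) nil (node (nat_lit 6) (nat_lit
  63129) (nat_lit 13) nil nil)) (node (nat_lit 6) (nat_lit 64766) (nat_lit 12) (node (nat_lit 5)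
  (nat_lit 65195) (nat_lit 13) nil (node (nat_lit 4) (nat_lit 65483) (nat_lit 13) nil nil)) nil))
  (node (nat_lit 4) (nat_lit 63969) (nat_lit 11) (node (nat_lit 5) (nat_lit 64766) (nat_lit 12)
  nil (node (nat_lit 6) (nat_lit 64497) (nat_lit 12) nil nil)) (node (nat_lit 6) (nat_lit 63969)
  (nat_lit 11) (node (nat_lit 4) (nat_lit 64766) (nat_lit 12) nil nil) (node (nat_lit 0) (nat_lit
  63637) (nat_lit 11) nil nil)))) (node (nat_lit 6) (nat_lit 63054) (nat_lit 10) (node (nat_lit 4)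
  (nat_lit 63969) (nat_lit 11) nil (node (nat_lit 5) (nat_lit 63969) (nat_lit 11) (node (nat_lit
  4) (nat_lit 64497) (nat_lit 12) nil nil) (node (nat_lit 10) (nat_lit 61631) (nat_lit 11) nil
  nil))) (node (nat_lit 0) (nat_lit 63054) (nat_lit 10) (node (nat_lit 5) (nat_lit 63969) (nat_lit
  11) nil (node (nat_lit 6) (nat_lit 63637) (nat_lit 11) nil (node (nat_lit 4) (nat_lit 63637)
  (nat_lit 11) nil nil))) (node (nat_lit 5) (nat_lit 63054) (nat_lit 10) (node (nat_lit 6)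
  (nat_lit 63969) (nat_lit 11) (node (nat_lit 5) (nat_lit 61682) (nat_lit 12) (node (nat_lit 4)
  (nat_lit 62111) (nat_lit 13) nil nil) nil) nil) nil)))) (node (nat_lit 6) (nat_lit 61810)
  (nat_lit 9) (node (nat_lit 4) (nat_lit 63087) (nat_lit 10) (node (nat_lit 6) (nat_lit 64001)
  (nat_lit 11) (node (nat_lit 5) (nat_lit 64798) (nat_lit 12) nil nil) (node (nat_lit 5) (nat_lit
  62688) (nat_lit 11) (node (nat_lit 6) (nat_lit 51417) (nat_lit 12) (node (nat_lit 5) (nat_lit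
  30447) (nat_lit 13) nil nil) nil) (node (nat_lit 10) (nat_lit 62995) (nat_lit 11) nil (node
  (nat_lit 0) (nat_lit 63670) (nat_lit 11) nil nil)))) (node (nat_lit 10) (nat_lit 62835) (nat_lit
  10) (node (nat_lit 6) (nat_lit 63750) (nat_lit 11) (node (nat_lit 5) (nat_lit 64547) (nat_lit
  12) nil (node (nat_lit 4) (nat_lit 64547) (nat_lit 12) nil nil)) (node (nat_lit 5) (nat_lit
  63750) (nat_lit 11) (node (nat_lit 4) (nat_lit 64279) (nat_lit 12) nil nil) (node (nat_lit 4)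
  (nat_lit 63750) (nat_lit 11) (node (nat_lit 6) (nat_lit 64279) (nat_lit 12) nil nil) (node
  (nat_lit 0) (nat_lit 63419) (nat_lit 11) nil nil)))) (node (nat_lit 5) (nat_lit 62835) (nat_lit
  10) (node (nat_lit 4) (nat_lit 63750) (nat_lit 11) nil (node (nat_lit 10) (nat_lit 63768)
  (nat_lit 11) (node (nat_lit 6) (nat_lit 64565) (nat_lit 12) nil nil) nil)) (node (nat_lit 0)
  (nat_lit 62835) (nat_lit 10) (node (nat_lit 6) (nat_lit 63750) (nat_lit 11) nil (node (nat_lit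
  5) (nat_lit 63750) (nat_lit 11) nil (node (nat_lit 4) (nat_lit 63419) (nat_lit 11) nil nil)))
  nil)))) (node (nat_lit 0) (nat_lit 62029) (nat_lit 9) (node (nat_lit 10) (nat_lit 63054)
  (nat_lit 10) (node (nat_lit 5) (nat_lit 63969) (nat_lit 11) (node (nat_lit 4) (nat_lit 64497)
  (nat_lit 12) nil (node (nat_lit 6) (nat_lit 64766) (nat_lit 12) nil (node (nat_lit 10) (nat_lit
  64766) (nat_lit 12) nil nil))) (node (nat_lit 12) (nat_lit 63637) (nat_lit 11) nil (node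
  (nat_lit 6) (nat_lit 63969) (nat_lit 11) nil (node (nat_lit 4) (nat_lit 63637) (nat_lit 11) nil
  nil)))) (node (nat_lit 5) (nat_lit 63054) (nat_lit 10) (node (nat_lit 10) (nat_lit 62961)
  (nat_lit 11) nil (node (nat_lit 4) (nat_lit 63969) (nat_lit 11) nil (node (nat_lit 6) (nat_lit
  63969) (nat_lit 11) nil nil))) (node (nat_lit 6) (nat_lit 63054) (nat_lit 10) (node (nat_lit 5)
  (nat_lit 63969) (nat_lit 11) nil (node (nat_lit 4) (nat_lit 63637) (nat_lit 11) nil nil)) (node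
  (nat_lit 4) (nat_lit 63054) (nat_lit 10) (node (nat_lit 6) (nat_lit 63637) (nat_lit 11) nil
  (node (nat_lit 5) (nat_lit 63637) (nat_lit 11) nil nil)) (node (nat_lit 0) (nat_lit 63054)
  (nat_lit 10) (node (nat_lit 5) (nat_lit 63969) (nat_lit 11) nil nil) nil))))) nil))) (node
  (nat_lit 4) (nat_lit 0) (nat_lit 8) (node (nat_lit 10) (nat_lit 61992) (nat_lit 9) (node
  (nat_lit 5) (nat_lit 63017) (nat_lit 10) (node (nat_lit 10) (nat_lit 63932) (nat_lit 11) (node
  (nat_lit 4) (nat_lit 64729) (nat_lit 12) (node (nat_lit 5) (nat_lit 65158) (nat_lit 13) nil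
  (node (nat_lit 6) (nat_lit 65158) (nat_lit 13) nil nil)) nil) (node (nat_lit 4) (nat_lit 63932)
  (nat_lit 11) (node (nat_lit 5) (nat_lit 64729) (nat_lit 12) nil nil) nil)) nil) (node (nat_lit
  6) (nat_lit 61992) (nat_lit 9) (node (nat_lit 5) (nat_lit 63017) (nat_lit 10) (node (nat_lit 4)
  (nat_lit 63932) (nat_lit 11) nil nil) (node (nat_lit 4) (nat_lit 63017) (nat_lit 10) (node
  (nat_lit 5) (nat_lit 63600) (nat_lit 11) nil nil) nil)) (node (nat_lit 5) (nat_lit 61992)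
  (nat_lit 9) (node (nat_lit 4) (nat_lit 63087) (nat_lit 10) (node (nat_lit 10) (nat_lit 64001)
  (nat_lit 11) nil nil) (node (nat_lit 6) (nat_lit 63017) (nat_lit 10) nil nil)) (node (nat_lit 0)
  (nat_lit 61992) (nat_lit 9) nil nil)))) (node (nat_lit 6) (nat_lit 60331) (nat_lit 8) (node
  (nat_lit 5) (nat_lit 61810) (nat_lit 9) (node (nat_lit 4) (nat_lit 62835) (nat_lit 10) nil (node
  (nat_lit 6) (nat_lit 62835) (nat_lit 10) nil nil)) (node (nat_lit 10) (nat_lit 61810) (nat_lit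
  9) (node (nat_lit 5) (nat_lit 62835) (nat_lit 10) (node (nat_lit 10) (nat_lit 63750) (nat_lit
  11) (node (nat_lit 6) (nat_lit 64547) (nat_lit 12) (node (nat_lit 5) (nat_lit 63727) (nat_lit
  13) nil nil) nil) nil) nil) (node (nat_lit 4) (nat_lit 62029) (nat_lit 9) (node (nat_lit 5)
  (nat_lit 63054) (nat_lit 10) (node (nat_lit 6) (nat_lit 50446) (nat_lit 11) nil nil) nil) nil)))
  (node (nat_lit 0) (nat_lit 60513) (nat_lit 8) (node (nat_lit 5) (nat_lit 61992) (nat_lit 9)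
  (node (nat_lit 10) (nat_lit 63017) (nat_lit 10) (node (nat_lit 5) (nat_lit 63932) (nat_lit 11)
  (node (nat_lit 4) (nat_lit 64460) (nat_lit 12) nil nil) (node (nat_lit 6) (nat_lit 63932)
  (nat_lit 11) nil nil)) (node (nat_lit 4) (nat_lit 63017) (nat_lit 10) nil (node (nat_lit 6)
  (nat_lit 63017) (nat_lit 10) nil nil))) (node (nat_lit 10) (nat_lit 61992) (nat_lit 9) (node
  (nat_lit 5) (nat_lit 63017) (nat_lit 10) nil nil) (node (nat_lit 6) (nat_lit 61992) (nat_lit 9)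
  nil (node (nat_lit 4) (nat_lit 61992) (nat_lit 9) nil nil)))) nil)))) (node (nat_lit 6) (nat_lit
  0) (nat_lit 7) (node (nat_lit 0) (nat_lit 58259) (nat_lit 8) (node (nat_lit 5) (nat_lit 60316)
  (nat_lit 9) (node (nat_lit 6) (nat_lit 60930) (nat_lit 10) (node (nat_lit 4) (nat_lit 57353)
  (nat_lit 11) nil nil) nil) nil) (node (nat_lit 2) (nat_lit 58078) (nat_lit 8) (node (nat_lit 5)
  (nat_lit 59413) (nat_lit 9) nil nil) (node (nat_lit 4) (nat_lit 53702) (nat_lit 8) (node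
  (nat_lit 6) (nat_lit 56717) (nat_lit 9) nil nil) nil))) nil))) (node (nat_lit 6) (nat_lit 0)
  (nat_lit 6) (node (nat_lit 0) (nat_lit 0) (nat_lit 7) (node (nat_lit 6) (nat_lit 124729)
  (nat_lit 8) (node (nat_lit 5) (nat_lit 124729) (nat_lit 9) (node (nat_lit 4) (nat_lit 122884)
  (nat_lit 10) (node (nat_lit 5) (nat_lit 119914) (nat_lit 11) (node (nat_lit 6) (nat_lit 114052)
  (nat_lit 12) (node (nat_lit 5) (nat_lit 108956) (nat_lit 13) (node (nat_lit 4) (nat_lit 97461)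
  (nat_lit 14) (node (nat_lit 6) (nat_lit 76704) (nat_lit 15) nil nil) nil) nil) nil) nil) nil)
  (node (nat_lit 4) (nat_lit 126163) (nat_lit 9) (node (nat_lit 5) (nat_lit 126163) (nat_lit 10)
  (node (nat_lit 6) (nat_lit 126163) (nat_lit 11) (node (nat_lit 5) (nat_lit 126163) (nat_lit 12)
  (node (nat_lit 4) (nat_lit 126925) (nat_lit 13) (node (nat_lit 6) (nat_lit 126925) (nat_lit 14)
  nil nil) nil) nil) nil) nil) nil)) (node (nat_lit 5) (nat_lit 124729) (nat_lit 8) (node (nat_lit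
  4) (nat_lit 126163) (nat_lit 9) (node (nat_lit 5) (nat_lit 126163) (nat_lit 10) nil nil) nil)
  (node (nat_lit 4) (nat_lit 125316) (nat_lit 8) nil (node (nat_lit 0) (nat_lit 125316) (nat_lit
  8) (node (nat_lit 6) (nat_lit 124222) (nat_lit 9) nil nil) (node (nat_lit 2) (nat_lit 124073)
  (nat_lit 8) (node (nat_lit 6) (nat_lit 123393) (nat_lit 9) (node (nat_lit 10) (nat_lit 124614)
  (nat_lit 10) (node (nat_lit 6) (nat_lit 123775) (nat_lit 11) nil nil) nil) nil) nil))))) (node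
  (nat_lit 2) (nat_lit 0) (nat_lit 7) (node (nat_lit 6) (nat_lit 0) (nat_lit 8) (node (nat_lit 5)
  (nat_lit 120678) (nat_lit 9) (node (nat_lit 4) (nat_lit 116960) (nat_lit 10) (node (nat_lit 5)
  (nat_lit 113486) (nat_lit 11) (node (nat_lit 6) (nat_lit 108394) (nat_lit 12) (node (nat_lit 5)
  (nat_lit 101507) (nat_lit 13) (node (nat_lit 4) (nat_lit 93421) (nat_lit 14) (node (nat_lit 6)
  (nat_lit 71492) (nat_lit 15) nil nil) nil) nil) nil) nil) (node (nat_lit 6) (nat_lit 121256)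
  (nat_lit 10) nil nil)) (node (nat_lit 4) (nat_lit 124977) (nat_lit 9) (node (nat_lit 5) (nat_lit
  121273) (nat_lit 10) (node (nat_lit 6) (nat_lit 113090) (nat_lit 11) (node (nat_lit 5) (nat_lit
  102244) (nat_lit 12) (node (nat_lit 4) (nat_lit 85467) (nat_lit 13) (node (nat_lit 6) (nat_lit
  53402) (nat_lit 14) nil nil) nil) nil) nil) nil) (node (nat_lit 0) (nat_lit 124977) (nat_lit 9)
  nil nil))) (node (nat_lit 5) (nat_lit 120890) (nat_lit 8) (node (nat_lit 4) (nat_lit 122929)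
  (nat_lit 9) (node (nat_lit 5) (nat_lit 117125) (nat_lit 10) (node (nat_lit 6) (nat_lit 110000)
  (nat_lit 11) nil nil) nil) (node (nat_lit 6) (nat_lit 119050) (nat_lit 9) (node (nat_lit 4)
  (nat_lit 117370) (nat_lit 10) nil nil) nil)) (node (nat_lit 4) (nat_lit 124459) (nat_lit 8) nil
  (node (nat_lit 0) (nat_lit 124459) (nat_lit 8) (node (nat_lit 6) (nat_lit 123901) (nat_lit 9)
  nil nil) nil)))) (node (nat_lit 4) (nat_lit 0) (nat_lit 7) (node (nat_lit 0) (nat_lit 122698)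
  (nat_lit 8) (node (nat_lit 6) (nat_lit 122594) (nat_lit 9) (node (nat_lit 4) (nat_lit 123816)
  (nat_lit 10) (node (nat_lit 5) (nat_lit 124893) (nat_lit 11) (node (nat_lit 6) (nat_lit 124332)
  (nat_lit 12) (node (nat_lit 5) (nat_lit 124596) (nat_lit 13) (node (nat_lit 4) (nat_lit 124931)
  (nat_lit 14) (node (nat_lit 6) (nat_lit 125384) (nat_lit 15) nil nil) nil) nil) nil) nil) nil)
  nil) (node (nat_lit 2) (nat_lit 122657) (nat_lit 8) (node (nat_lit 6) (nat_lit 123072) (nat_lit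
  9) (node (nat_lit 4) (nat_lit 123993) (nat_lit 10) (node (nat_lit 5) (nat_lit 123993) (nat_lit
  11) (node (nat_lit 6) (nat_lit 120726) (nat_lit 12) (node (nat_lit 5) (nat_lit 113717) (nat_lit
  13) (node (nat_lit 4) (nat_lit 98755) (nat_lit 14) (node (nat_lit 6) (nat_lit 63131) (nat_lit
  15) nil nil) nil) nil) nil) nil) nil) (node (nat_lit 5) (nat_lit 124682) (nat_lit 9) nil nil))
  (node (nat_lit 5) (nat_lit 114419) (nat_lit 8) (node (nat_lit 6) (nat_lit 120052) (nat_lit 9)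
  (node (nat_lit 5) (nat_lit 118528) (nat_lit 10) nil nil) (node (nat_lit 4) (nat_lit 119244)
  (nat_lit 9) nil nil)) nil))) (node (nat_lit 5) (nat_lit 0) (nat_lit 7) (node (nat_lit 0)
  (nat_lit 122698) (nat_lit 8) (node (nat_lit 6) (nat_lit 121604) (nat_lit 9) (node (nat_lit 5)
  (nat_lit 118912) (nat_lit 10) (node (nat_lit 4) (nat_lit 119380) (nat_lit 11) nil nil) nil)
  (node (nat_lit 5) (nat_lit 121467) (nat_lit 9) nil nil)) (node (nat_lit 2) (nat_lit 120102)
  (nat_lit 8) (node (nat_lit 6) (nat_lit 120102) (nat_lit 9) (node (nat_lit 5) (nat_lit 120091)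
  (nat_lit 10) (node (nat_lit 6) (nat_lit 120733) (nat_lit 11) nil (node (nat_lit 4) (nat_lit
  120922) (nat_lit 11) (node (nat_lit 5) (nat_lit 119559) (nat_lit 12) nil nil) nil)) nil) (node
  (nat_lit 5) (nat_lit 120102) (nat_lit 9) nil nil)) (node (nat_lit 6) (nat_lit 114937) (nat_lit
  8) (node (nat_lit 4) (nat_lit 119904) (nat_lit 9) (node (nat_lit 5) (nat_lit 123521) (nat_lit
  10) (node (nat_lit 6) (nat_lit 114421) (nat_lit 11) (node (nat_lit 5) (nat_lit 116437) (nat_lit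
  12) (node (nat_lit 4) (nat_lit 108864) (nat_lit 13) nil nil) nil) nil) nil) nil) nil))) nil))))
  (node (nat_lit 0) (nat_lit 0) (nat_lit 6) (node (nat_lit 5) (nat_lit 120116) (nat_lit 7) (node
  (nat_lit 9) (nat_lit 124053) (nat_lit 8) nil (node (nat_lit 6) (nat_lit 119890) (nat_lit 8)
  (node (nat_lit 4) (nat_lit 121686) (nat_lit 9) (node (nat_lit 5) (nat_lit 114503) (nat_lit 10)
  (node (nat_lit 6) (nat_lit 106884) (nat_lit 11) (node (nat_lit 5) (nat_lit 94437) (nat_lit 12)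
  (node (nat_lit 4) (nat_lit 74494) (nat_lit 13) nil nil) nil) nil) nil) nil) (node (nat_lit 4)
  (nat_lit 124053) (nat_lit 8) (node (nat_lit 5) (nat_lit 124053) (nat_lit 9) (node (nat_lit 6)
  (nat_lit 122913) (nat_lit 10) (node (nat_lit 5) (nat_lit 122608) (nat_lit 11) (node (nat_lit 4)
  (nat_lit 122578) (nat_lit 12) nil nil) nil) nil) nil) nil))) (node (nat_lit 6) (nat_lit 120296)
  (nat_lit 7) (node (nat_lit 9) (nat_lit 125261) (nat_lit 8) nil (node (nat_lit 4) (nat_lit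
  125261) (nat_lit 8) (node (nat_lit 5) (nat_lit 126312) (nat_lit 9) (node (nat_lit 6) (nat_lit
  125505) (nat_lit 10) nil nil) nil) (node (nat_lit 5) (nat_lit 123209) (nat_lit 8) (node (nat_lit
  4) (nat_lit 118912) (nat_lit 9) (node (nat_lit 5) (nat_lit 113884) (nat_lit 10) (node (nat_lit
  6) (nat_lit 106122) (nat_lit 11) (node (nat_lit 5) (nat_lit 94794) (nat_lit 12) nil nil) nil)
  nil) (node (nat_lit 6) (nat_lit 122379) (nat_lit 9) (node (nat_lit 4) (nat_lit 122280) (nat_lit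
  10) (node (nat_lit 5) (nat_lit 119118) (nat_lit 11) nil nil) nil) nil)) nil))) (node (nat_lit 4)
  (nat_lit 120171) (nat_lit 7) (node (nat_lit 6) (nat_lit 121403) (nat_lit 8) (node (nat_lit 4)
  (nat_lit 123223) (nat_lit 9) (node (nat_lit 5) (nat_lit 124444) (nat_lit 10) nil nil) nil) nil)
  (node (nat_lit 0) (nat_lit 120116) (nat_lit 7) (node (nat_lit 9) (nat_lit 125082) (nat_lit 8)
  (node (nat_lit 5) (nat_lit 123851) (nat_lit 9) nil (node (nat_lit 6) (nat_lit 123988) (nat_lit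
  9) nil nil)) (node (nat_lit 5) (nat_lit 125748) (nat_lit 8) (node (nat_lit 4) (nat_lit 126539)
  (nat_lit 9) (node (nat_lit 5) (nat_lit 126539) (nat_lit 10) nil nil) nil) (node (nat_lit 6)
  (nat_lit 121348) (nat_lit 8) (node (nat_lit 4) (nat_lit 123168) (nat_lit 9) nil nil) nil)))
  (node (nat_lit 2) (nat_lit 120116) (nat_lit 7) (node (nat_lit 9) (nat_lit 125082) (nat_lit 8)
  nil (node (nat_lit 4) (nat_lit 125082) (nat_lit 8) nil (node (nat_lit 5) (nat_lit 122255)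
  (nat_lit 8) (node (nat_lit 4) (nat_lit 117779) (nat_lit 9) (node (nat_lit 5) (nat_lit 112751)
  (nat_lit 10) nil nil) nil) (node (nat_lit 6) (nat_lit 122255) (nat_lit 8) (node (nat_lit 4)
  (nat_lit 116551) (nat_lit 9) nil nil) nil)))) nil))))) (node (nat_lit 2) (nat_lit 0) (nat_lit 6)
  (node (nat_lit 5) (nat_lit 0) (nat_lit 7) (node (nat_lit 9) (nat_lit 118624) (nat_lit 8) (node
  (nat_lit 6) (nat_lit 118305) (nat_lit 9) (node (nat_lit 5) (nat_lit 116860) (nat_lit 10) nil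
  (node (nat_lit 4) (nat_lit 117084) (nat_lit 10) (node (nat_lit 5) (nat_lit 113922) (nat_lit 11)
  nil nil) nil)) nil) (node (nat_lit 6) (nat_lit 119819) (nat_lit 8) (node (nat_lit 4) (nat_lit
  119524) (nat_lit 9) (node (nat_lit 5) (nat_lit 115887) (nat_lit 10) (node (nat_lit 6) (nat_lit
  104723) (nat_lit 11) (node (nat_lit 5) (nat_lit 93251) (nat_lit 12) (node (nat_lit 4) (nat_lit
  76095) (nat_lit 13) nil nil) nil) nil) nil) nil) (node (nat_lit 4) (nat_lit 121133) (nat_lit 8)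
  (node (nat_lit 5) (nat_lit 119161) (nat_lit 9) (node (nat_lit 6) (nat_lit 110451) (nat_lit 10)
  (node (nat_lit 5) (nat_lit 72048) (nat_lit 11) (node (nat_lit 4) (nat_lit 63169) (nat_lit 12)
  nil nil) nil) nil) nil) (node (nat_lit 0) (nat_lit 122565) (nat_lit 8) nil nil)))) (node
  (nat_lit 6) (nat_lit 120209) (nat_lit 7) (node (nat_lit 9) (nat_lit 120864) (nat_lit 8) (node
  (nat_lit 5) (nat_lit 118576) (nat_lit 9) (node (nat_lit 4) (nat_lit 118476) (nat_lit 10) nil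
  nil) nil) (node (nat_lit 4) (nat_lit 120832) (nat_lit 8) (node (nat_lit 9) (nat_lit 119737)
  (nat_lit 9) nil (node (nat_lit 6) (nat_lit 119737) (nat_lit 9) nil (node (nat_lit 5) (nat_lit
  101984) (nat_lit 9) (node (nat_lit 6) (nat_lit 88766) (nat_lit 10) (node (nat_lit 5) (nat_lit
  65300) (nat_lit 11) nil nil) nil) nil))) (node (nat_lit 5) (nat_lit 120031) (nat_lit 8) (node
  (nat_lit 4) (nat_lit 119938) (nat_lit 9) (node (nat_lit 5) (nat_lit 114911) (nat_lit 10) (node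
  (nat_lit 6) (nat_lit 107149) (nat_lit 11) (node (nat_lit 5) (nat_lit 89178) (nat_lit 12) nil
  nil) nil) nil) nil) nil))) (node (nat_lit 4) (nat_lit 0) (nat_lit 7) (node (nat_lit 6) (nat_lit
  124050) (nat_lit 8) (node (nat_lit 4) (nat_lit 125435) (nat_lit 9) (node (nat_lit 5) (nat_lit
  125435) (nat_lit 10) nil nil) nil) (node (nat_lit 5) (nat_lit 122706) (nat_lit 8) nil (node
  (nat_lit 0) (nat_lit 122706) (nat_lit 8) nil nil))) (node (nat_lit 0) (nat_lit 120036) (nat_lit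
  7) (node (nat_lit 9) (nat_lit 123255) (nat_lit 8) (node (nat_lit 5) (nat_lit 120390) (nat_lit 9)
  (node (nat_lit 4) (nat_lit 120290) (nat_lit 10) nil nil) (node (nat_lit 6) (nat_lit 121062)
  (nat_lit 9) (node (nat_lit 4) (nat_lit 120962) (nat_lit 10) nil (node (nat_lit 5) (nat_lit
  118713) (nat_lit 10) nil nil)) (node (nat_lit 4) (nat_lit 125075) (nat_lit 9) nil nil))) (node
  (nat_lit 4) (nat_lit 125001) (nat_lit 8) nil (node (nat_lit 5) (nat_lit 124811) (nat_lit 8)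
  (node (nat_lit 4) (nat_lit 125435) (nat_lit 9) (node (nat_lit 5) (nat_lit 125435) (nat_lit 10)
  nil nil) (node (nat_lit 6) (nat_lit 119205) (nat_lit 9) nil nil)) (node (nat_lit 6) (nat_lit
  124811) (nat_lit 8) (node (nat_lit 4) (nat_lit 125435) (nat_lit 9) nil nil) nil)))) nil))))
  nil))))

noncomputable def t176 : Tr :=
  (node (nat_lit 4) (nat_lit 0) (nat_lit 4) (node (nat_lit 5) (nat_lit 0) (nat_lit 5) (node
  (nat_lit 4) (nat_lit 49982) (nat_lit 6) nil (node (nat_lit 0) (nat_lit 61559) (nat_lit 6) nil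
  (node (nat_lit 2) (nat_lit 60174) (nat_lit 6) nil nil))) (node (nat_lit 6) (nat_lit 0) (nat_lit
  5) (node (nat_lit 5) (nat_lit 0) (nat_lit 6) (node (nat_lit 0) (nat_lit 0) (nat_lit 7) (node
  (nat_lit 5) (nat_lit 0) (nat_lit 8) (node (nat_lit 4) (nat_lit 94692) (nat_lit 9) (node (nat_lit
  6) (nat_lit 95353) (nat_lit 10) nil (node (nat_lit 5) (nat_lit 95353) (nat_lit 10) (node
  (nat_lit 6) (nat_lit 95936) (nat_lit 11) (node (nat_lit 4) (nat_lit 96465) (nat_lit 12) nil nil)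
  nil) nil)) (node (nat_lit 6) (nat_lit 94692) (nat_lit 9) nil (node (nat_lit 0) (nat_lit 94692)
  (nat_lit 9) nil (node (nat_lit 2) (nat_lit 91642) (nat_lit 9) (node (nat_lit 10) (nat_lit 92302)
  (nat_lit 10) nil (node (nat_lit 5) (nat_lit 92302) (nat_lit 10) (node (nat_lit 4) (nat_lit
  92885) (nat_lit 11) nil nil) (node (nat_lit 6) (nat_lit 91083) (nat_lit 10) (node (nat_lit 4)
  (nat_lit 90568) (nat_lit 11) nil nil) nil))) nil)))) (node (nat_lit 6) (nat_lit 93539) (nat_lit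
  8) (node (nat_lit 4) (nat_lit 94604) (nat_lit 9) (node (nat_lit 5) (nat_lit 95265) (nat_lit 10)
  (node (nat_lit 6) (nat_lit 95848) (nat_lit 11) nil nil) nil) nil) (node (nat_lit 4) (nat_lit
  93539) (nat_lit 8) nil (node (nat_lit 0) (nat_lit 93539) (nat_lit 8) (node (nat_lit 5) (nat_lit
  94604) (nat_lit 9) nil nil) (node (nat_lit 2) (nat_lit 93539) (nat_lit 8) (node (nat_lit 5)
  (nat_lit 94604) (nat_lit 9) nil nil) nil))))) (node (nat_lit 2) (nat_lit 0) (nat_lit 7) (node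
  (nat_lit 5) (nat_lit 0) (nat_lit 8) (node (nat_lit 4) (nat_lit 94692) (nat_lit 9) (node (nat_lit
  6) (nat_lit 95353) (nat_lit 10) nil (node (nat_lit 5) (nat_lit 95353) (nat_lit 10) (node
  (nat_lit 6) (nat_lit 89174) (nat_lit 11) (node (nat_lit 4) (nat_lit 79897) (nat_lit 12) (node
  (nat_lit 6) (nat_lit 61799) (nat_lit 13) nil nil) nil) nil) nil)) (node (nat_lit 6) (nat_lit
  93702) (nat_lit 9) (node (nat_lit 10) (nat_lit 92251) (nat_lit 10) nil nil) (node (nat_lit 0)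
  (nat_lit 94692) (nat_lit 9) (node (nat_lit 5) (nat_lit 95353) (nat_lit 10) (node (nat_lit 4)
  (nat_lit 95936) (nat_lit 11) nil nil) (node (nat_lit 6) (nat_lit 95353) (nat_lit 10) nil (node
  (nat_lit 4) (nat_lit 95353) (nat_lit 10) nil nil))) nil))) (node (nat_lit 6) (nat_lit 93401)
  (nat_lit 8) (node (nat_lit 4) (nat_lit 92824) (nat_lit 9) (node (nat_lit 5) (nat_lit 87096)
  (nat_lit 10) (node (nat_lit 6) (nat_lit 83467) (nat_lit 11) (node (nat_lit 4) (nat_lit 63243)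
  (nat_lit 12) (node (nat_lit 6) (nat_lit 61059) (nat_lit 13) nil nil) nil) nil) nil) (node
  (nat_lit 10) (nat_lit 93702) (nat_lit 9) nil (node (nat_lit 5) (nat_lit 93702) (nat_lit 9) (node
  (nat_lit 4) (nat_lit 95127) (nat_lit 10) nil nil) nil))) (node (nat_lit 4) (nat_lit 93401)
  (nat_lit 8) (node (nat_lit 10) (nat_lit 94419) (nat_lit 9) nil nil) (node (nat_lit 0) (nat_lit
  93627) (nat_lit 8) (node (nat_lit 5) (nat_lit 94692) (nat_lit 9) nil (node (nat_lit 6) (nat_lit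
  94692) (nat_lit 9) nil nil)) nil)))) (node (nat_lit 6) (nat_lit 0) (nat_lit 7) (node (nat_lit 0)
  (nat_lit 93627) (nat_lit 8) (node (nat_lit 5) (nat_lit 94758) (nat_lit 9) (node (nat_lit 6)
  (nat_lit 95418) (nat_lit 10) (node (nat_lit 5) (nat_lit 96112) (nat_lit 11) (node (nat_lit 4)
  (nat_lit 96640) (nat_lit 12) nil nil) nil) (node (nat_lit 4) (nat_lit 95418) (nat_lit 10) nil
  nil)) (node (nat_lit 6) (nat_lit 94692) (nat_lit 9) (node (nat_lit 5) (nat_lit 95476) (nat_lit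
  10) nil nil) (node (nat_lit 4) (nat_lit 94692) (nat_lit 9) (node (nat_lit 6) (nat_lit 95353)
  (nat_lit 10) (node (nat_lit 4) (nat_lit 95936) (nat_lit 11) nil nil) nil) nil))) (node (nat_lit
  2) (nat_lit 93401) (nat_lit 8) (node (nat_lit 5) (nat_lit 94079) (nat_lit 9) (node (nat_lit 6)
  (nat_lit 94079) (nat_lit 10) (node (nat_lit 5) (nat_lit 94079) (nat_lit 11) (node (nat_lit 4)
  (nat_lit 96640) (nat_lit 12) nil nil) nil) (node (nat_lit 4) (nat_lit 95418) (nat_lit 10) nil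
  nil)) (node (nat_lit 4) (nat_lit 94466) (nat_lit 9) (node (nat_lit 6) (nat_lit 95127) (nat_lit
  10) (node (nat_lit 4) (nat_lit 95710) (nat_lit 11) nil nil) nil) (node (nat_lit 6) (nat_lit
  94079) (nat_lit 9) (node (nat_lit 5) (nat_lit 94079) (nat_lit 10) nil nil) nil))) (node (nat_lit
  4) (nat_lit 88844) (nat_lit 8) (node (nat_lit 5) (nat_lit 91159) (nat_lit 9) (node (nat_lit 4)
  (nat_lit 92740) (nat_lit 10) (node (nat_lit 6) (nat_lit 93973) (nat_lit 11) (node (nat_lit 5)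
  (nat_lit 95089) (nat_lit 12) nil nil) nil) nil) nil) nil))) (node (nat_lit 4) (nat_lit 0)
  (nat_lit 7) (node (nat_lit 0) (nat_lit 93627) (nat_lit 8) (node (nat_lit 5) (nat_lit 94692)
  (nat_lit 9) (node (nat_lit 4) (nat_lit 95353) (nat_lit 10) (node (nat_lit 5) (nat_lit 95936)
  (nat_lit 11) (node (nat_lit 6) (nat_lit 96465) (nat_lit 12) (node (nat_lit 4) (nat_lit 96893)
  (nat_lit 13) nil nil) nil) nil) nil) (node (nat_lit 6) (nat_lit 94692) (nat_lit 9) (node
  (nat_lit 4) (nat_lit 95353) (nat_lit 10) nil nil) nil)) (node (nat_lit 2) (nat_lit 93401)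
  (nat_lit 8) (node (nat_lit 5) (nat_lit 94466) (nat_lit 9) (node (nat_lit 4) (nat_lit 95127)
  (nat_lit 10) (node (nat_lit 5) (nat_lit 95710) (nat_lit 11) (node (nat_lit 6) (nat_lit 93886)
  (nat_lit 12) (node (nat_lit 4) (nat_lit 87089) (nat_lit 13) (node (nat_lit 6) (nat_lit 73311)
  (nat_lit 14) nil nil) nil) nil) nil) nil) (node (nat_lit 6) (nat_lit 94466) (nat_lit 9) (node
  (nat_lit 4) (nat_lit 93191) (nat_lit 10) (node (nat_lit 5) (nat_lit 91615) (nat_lit 11) nil nil)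
  nil) (node (nat_lit 4) (nat_lit 94466) (nat_lit 9) nil nil))) (node (nat_lit 6) (nat_lit 0)
  (nat_lit 8) (node (nat_lit 4) (nat_lit 90868) (nat_lit 9) (node (nat_lit 5) (nat_lit 92799)
  (nat_lit 10) (node (nat_lit 6) (nat_lit 94032) (nat_lit 11) nil nil) nil) (node (nat_lit 2)
  (nat_lit 90868) (nat_lit 9) nil (node (nat_lit 0) (nat_lit 91159) (nat_lit 9) nil nil))) (node
  (nat_lit 5) (nat_lit 0) (nat_lit 8) (node (nat_lit 6) (nat_lit 77797) (nat_lit 9) (node (nat_lit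
  4) (nat_lit 41472) (nat_lit 10) nil nil) (node (nat_lit 2) (nat_lit 90450) (nat_lit 9) nil (node
  (nat_lit 0) (nat_lit 91159) (nat_lit 9) nil nil))) nil)))) nil)))) (node (nat_lit 0) (nat_lit 0)
  (nat_lit 6) (node (nat_lit 4) (nat_lit 90433) (nat_lit 7) (node (nat_lit 9) (nat_lit 93126)
  (nat_lit 8) (node (nat_lit 6) (nat_lit 94192) (nat_lit 9) nil nil) (node (nat_lit 6) (nat_lit
  93126) (nat_lit 8) (node (nat_lit 4) (nat_lit 94192) (nat_lit 9) (node (nat_lit 5) (nat_lit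
  94853) (nat_lit 10) (node (nat_lit 6) (nat_lit 95436) (nat_lit 11) nil nil) nil) nil) (node
  (nat_lit 5) (nat_lit 93126) (nat_lit 8) nil nil))) (node (nat_lit 5) (nat_lit 90846) (nat_lit 7)
  (node (nat_lit 4) (nat_lit 93539) (nat_lit 8) (node (nat_lit 6) (nat_lit 94604) (nat_lit 9) nil
  (node (nat_lit 5) (nat_lit 94604) (nat_lit 9) (node (nat_lit 6) (nat_lit 95265) (nat_lit 10)
  (node (nat_lit 4) (nat_lit 95848) (nat_lit 11) (node (nat_lit 6) (nat_lit 96377) (nat_lit 12)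
  nil nil) nil) nil) nil)) (node (nat_lit 9) (nat_lit 93539) (nat_lit 8) (node (nat_lit 6)
  (nat_lit 94604) (nat_lit 9) (node (nat_lit 4) (nat_lit 95265) (nat_lit 10) nil nil) nil) (node
  (nat_lit 6) (nat_lit 93539) (nat_lit 8) (node (nat_lit 5) (nat_lit 94604) (nat_lit 9) (node
  (nat_lit 4) (nat_lit 95265) (nat_lit 10) nil nil) nil) nil))) (node (nat_lit 6) (nat_lit 90433)
  (nat_lit 7) (node (nat_lit 5) (nat_lit 93126) (nat_lit 8) (node (nat_lit 4) (nat_lit 94192)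
  (nat_lit 9) (node (nat_lit 5) (nat_lit 94853) (nat_lit 10) (node (nat_lit 6) (nat_lit 92060)
  (nat_lit 11) (node (nat_lit 4) (nat_lit 81206) (nat_lit 12) (node (nat_lit 6) (nat_lit 59597)
  (nat_lit 13) nil nil) nil) nil) nil) nil) (node (nat_lit 4) (nat_lit 93126) (nat_lit 8) (node
  (nat_lit 5) (nat_lit 94192) (nat_lit 9) (node (nat_lit 6) (nat_lit 94853) (nat_lit 10) (node
  (nat_lit 4) (nat_lit 95436) (nat_lit 11) (node (nat_lit 6) (nat_lit 95964) (nat_lit 12) nil nil)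
  nil) nil) nil) nil)) (node (nat_lit 0) (nat_lit 90818) (nat_lit 7) (node (nat_lit 9) (nat_lit
  93511) (nat_lit 8) (node (nat_lit 6) (nat_lit 94577) (nat_lit 9) nil nil) (node (nat_lit 6)
  (nat_lit 93511) (nat_lit 8) (node (nat_lit 4) (nat_lit 94577) (nat_lit 9) nil nil) (node
  (nat_lit 5) (nat_lit 93511) (nat_lit 8) (node (nat_lit 4) (nat_lit 94577) (nat_lit 9) nil nil)
  (node (nat_lit 4) (nat_lit 93511) (nat_lit 8) nil nil)))) (node (nat_lit 2) (nat_lit 90405)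
  (nat_lit 7) (node (nat_lit 9) (nat_lit 93098) (nat_lit 8) (node (nat_lit 6) (nat_lit 94164)
  (nat_lit 9) nil (node (nat_lit 5) (nat_lit 94164) (nat_lit 9) nil nil)) (node (nat_lit 6)
  (nat_lit 91226) (nat_lit 8) (node (nat_lit 4) (nat_lit 85199) (nat_lit 9) nil (node (nat_lit 5)
  (nat_lit 92291) (nat_lit 9) nil nil)) (node (nat_lit 5) (nat_lit 93098) (nat_lit 8) (node
  (nat_lit 4) (nat_lit 94164) (nat_lit 9) nil nil) (node (nat_lit 4) (nat_lit 93098) (nat_lit 8)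
  nil nil)))) nil))))) (node (nat_lit 2) (nat_lit 0) (nat_lit 6) (node (nat_lit 4) (nat_lit 0)
  (nat_lit 7) (node (nat_lit 9) (nat_lit 84188) (nat_lit 8) (node (nat_lit 6) (nat_lit 85254)
  (nat_lit 9) (node (nat_lit 4) (nat_lit 86176) (nat_lit 10) (node (nat_lit 5) (nat_lit 82093)
  (nat_lit 11) (node (nat_lit 6) (nat_lit 80062) (nat_lit 12) (node (nat_lit 4) (nat_lit 69861)
  (nat_lit 13) (node (nat_lit 6) (nat_lit 69861) (nat_lit 14) nil nil) nil) nil) nil) nil) (node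
  (nat_lit 5) (nat_lit 91390) (nat_lit 9) nil nil)) (node (nat_lit 6) (nat_lit 84188) (nat_lit 8)
  (node (nat_lit 5) (nat_lit 91390) (nat_lit 9) nil (node (nat_lit 4) (nat_lit 85254) (nat_lit 9)
  (node (nat_lit 5) (nat_lit 85915) (nat_lit 10) (node (nat_lit 6) (nat_lit 86498) (nat_lit 11)
  (node (nat_lit 4) (nat_lit 87026) (nat_lit 12) nil nil) nil) nil) nil)) (node (nat_lit 5)
  (nat_lit 90683) (nat_lit 8) (node (nat_lit 4) (nat_lit 91748) (nat_lit 9) nil nil) (node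
  (nat_lit 0) (nat_lit 90683) (nat_lit 8) nil nil)))) (node (nat_lit 5) (nat_lit 89662) (nat_lit
  7) (node (nat_lit 4) (nat_lit 92356) (nat_lit 8) (node (nat_lit 6) (nat_lit 93421) (nat_lit 9)
  nil (node (nat_lit 5) (nat_lit 89631) (nat_lit 9) (node (nat_lit 6) (nat_lit 70658) (nat_lit 10)
  (node (nat_lit 4) (nat_lit 58221) (nat_lit 11) (node (nat_lit 6) (nat_lit 37749) (nat_lit 12)
  nil nil) nil) nil) nil)) (node (nat_lit 9) (nat_lit 92221) (nat_lit 8) (node (nat_lit 6)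
  (nat_lit 92287) (nat_lit 9) (node (nat_lit 4) (nat_lit 91674) (nat_lit 10) (node (nat_lit 5)
  (nat_lit 84875) (nat_lit 11) (node (nat_lit 6) (nat_lit 79155) (nat_lit 12) nil nil) nil) nil)
  (node (nat_lit 4) (nat_lit 93253) (nat_lit 9) nil nil)) (node (nat_lit 6) (nat_lit 92356)
  (nat_lit 8) (node (nat_lit 5) (nat_lit 93421) (nat_lit 9) (node (nat_lit 4) (nat_lit 94082)
  (nat_lit 10) nil nil) nil) nil))) (node (nat_lit 6) (nat_lit 0) (nat_lit 7) (node (nat_lit 4)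
  (nat_lit 84188) (nat_lit 8) (node (nat_lit 5) (nat_lit 69861) (nat_lit 9) (node (nat_lit 6)
  (nat_lit 63243) (nat_lit 10) (node (nat_lit 4) (nat_lit 59765) (nat_lit 11) nil nil) nil) (node
  (nat_lit 6) (nat_lit 85254) (nat_lit 9) nil nil)) (node (nat_lit 5) (nat_lit 89360) (nat_lit 8)
  (node (nat_lit 4) (nat_lit 90425) (nat_lit 9) (node (nat_lit 5) (nat_lit 88319) (nat_lit 10)
  (node (nat_lit 6) (nat_lit 81206) (nat_lit 11) nil nil) nil) nil) (node (nat_lit 0) (nat_lit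
  88182) (nat_lit 8) (node (nat_lit 5) (nat_lit 89248) (nat_lit 9) nil (node (nat_lit 6) (nat_lit
  89248) (nat_lit 9) nil nil)) nil))) (node (nat_lit 0) (nat_lit 89123) (nat_lit 7) (node (nat_lit
  9) (nat_lit 91816) (nat_lit 8) (node (nat_lit 6) (nat_lit 92613) (nat_lit 9) (node (nat_lit 4)
  (nat_lit 86329) (nat_lit 10) nil nil) (node (nat_lit 5) (nat_lit 92882) (nat_lit 9) (node
  (nat_lit 4) (nat_lit 93542) (nat_lit 10) nil nil) nil)) (node (nat_lit 6) (nat_lit 91816)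
  (nat_lit 8) (node (nat_lit 4) (nat_lit 92882) (nat_lit 9) nil nil) (node (nat_lit 5) (nat_lit
  91816) (nat_lit 8) (node (nat_lit 4) (nat_lit 92882) (nat_lit 9) nil nil) (node (nat_lit 4)
  (nat_lit 91816) (nat_lit 8) (node (nat_lit 6) (nat_lit 92882) (nat_lit 9) nil nil) nil))))
  nil)))) nil))) (node (nat_lit 0) (nat_lit 0) (nat_lit 5) (node (nat_lit 5) (nat_lit 90148)
  (nat_lit 6) (node (nat_lit 8) (nat_lit 92060) (nat_lit 7) nil (node (nat_lit 4) (nat_lit 92060)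
  (nat_lit 7) (node (nat_lit 6) (nat_lit 93318) (nat_lit 8) nil (node (nat_lit 5) (nat_lit 93318)
  (nat_lit 8) (node (nat_lit 6) (nat_lit 94188) (nat_lit 9) (node (nat_lit 4) (nat_lit 94849)
  (nat_lit 10) nil nil) nil) nil)) nil)) (node (nat_lit 6) (nat_lit 89245) (nat_lit 6) (node
  (nat_lit 5) (nat_lit 91157) (nat_lit 7) (node (nat_lit 4) (nat_lit 91986) (nat_lit 8) (node
  (nat_lit 5) (nat_lit 86814) (nat_lit 9) (node (nat_lit 6) (nat_lit 74422) (nat_lit 10) (node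
  (nat_lit 4) (nat_lit 55147) (nat_lit 11) nil nil) nil) nil) nil) (node (nat_lit 4) (nat_lit
  91157) (nat_lit 7) (node (nat_lit 5) (nat_lit 92415) (nat_lit 8) (node (nat_lit 6) (nat_lit
  93286) (nat_lit 9) (node (nat_lit 4) (nat_lit 93946) (nat_lit 10) nil nil) nil) nil) nil)) (node
  (nat_lit 4) (nat_lit 89245) (nat_lit 6) (node (nat_lit 6) (nat_lit 91157) (nat_lit 7) (node
  (nat_lit 5) (nat_lit 92415) (nat_lit 8) (node (nat_lit 4) (nat_lit 93286) (nat_lit 9) nil nil)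
  nil) nil) (node (nat_lit 0) (nat_lit 90098) (nat_lit 6) (node (nat_lit 5) (nat_lit 92010)
  (nat_lit 7) nil (node (nat_lit 6) (nat_lit 92010) (nat_lit 7) nil nil)) (node (nat_lit 2)
  (nat_lit 89245) (nat_lit 6) (node (nat_lit 5) (nat_lit 91157) (nat_lit 7) nil (node (nat_lit 6)
  (nat_lit 86288) (nat_lit 7) (node (nat_lit 5) (nat_lit 87546) (nat_lit 8) nil nil) nil))
  nil))))) (node (nat_lit 2) (nat_lit 0) (nat_lit 5) (node (nat_lit 5) (nat_lit 90152) (nat_lit 6)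
  (node (nat_lit 8) (nat_lit 92063) (nat_lit 7) nil (node (nat_lit 4) (nat_lit 92063) (nat_lit 7)
  (node (nat_lit 5) (nat_lit 92099) (nat_lit 8) (node (nat_lit 6) (nat_lit 69787) (nat_lit 9)
  (node (nat_lit 4) (nat_lit 25491) (nat_lit 10) nil nil) nil) nil) nil)) (node (nat_lit 6)
  (nat_lit 81125) (nat_lit 6) (node (nat_lit 8) (nat_lit 83036) (nat_lit 7) (node (nat_lit 4)
  (nat_lit 84294) (nat_lit 8) (node (nat_lit 6) (nat_lit 85165) (nat_lit 9) nil nil) (node
  (nat_lit 5) (nat_lit 90303) (nat_lit 8) nil nil)) (node (nat_lit 5) (nat_lit 90626) (nat_lit 7)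
  (node (nat_lit 4) (nat_lit 91884) (nat_lit 8) (node (nat_lit 5) (nat_lit 91486) (nat_lit 9)
  (node (nat_lit 6) (nat_lit 77139) (nat_lit 10) (node (nat_lit 4) (nat_lit 62052) (nat_lit 11)
  nil nil) nil) nil) nil) (node (nat_lit 4) (nat_lit 83036) (nat_lit 7) (node (nat_lit 5) (nat_lit
  69861) (nat_lit 8) (node (nat_lit 6) (nat_lit 68762) (nat_lit 9) nil nil) nil) nil))) (node
  (nat_lit 4) (nat_lit 81057) (nat_lit 6) (node (nat_lit 6) (nat_lit 82968) (nat_lit 7) (node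
  (nat_lit 5) (nat_lit 90012) (nat_lit 8) nil (node (nat_lit 4) (nat_lit 84226) (nat_lit 8) (node
  (nat_lit 5) (nat_lit 87178) (nat_lit 9) nil nil) nil)) (node (nat_lit 5) (nat_lit 90559)
  (nat_lit 7) nil nil)) (node (nat_lit 0) (nat_lit 88758) (nat_lit 6) (node (nat_lit 5) (nat_lit
  90670) (nat_lit 7) nil (node (nat_lit 6) (nat_lit 90670) (nat_lit 7) nil nil)) nil)))) nil))))
  (node (nat_lit 5) (nat_lit 0) (nat_lit 4) (node (nat_lit 4) (nat_lit 0) (nat_lit 5) t175 (node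
  (nat_lit 0) (nat_lit 0) (nat_lit 5) (node (nat_lit 6) (nat_lit 124126) (nat_lit 6) (node
  (nat_lit 5) (nat_lit 126829) (nat_lit 7) (node (nat_lit 4) (nat_lit 124864) (nat_lit 8) (node
  (nat_lit 5) (nat_lit 120513) (nat_lit 9) (node (nat_lit 6) (nat_lit 108916) (nat_lit 10) (node
  (nat_lit 5) (nat_lit 74912) (nat_lit 11) nil nil) nil) nil) nil) (node (nat_lit 4) (nat_lit
  126604) (nat_lit 7) (node (nat_lit 5) (nat_lit 127862) (nat_lit 8) (node (nat_lit 6) (nat_lit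
  128677) (nat_lit 9) (node (nat_lit 5) (nat_lit 128693) (nat_lit 10) nil nil) nil) nil) nil))
  (node (nat_lit 4) (nat_lit 124805) (nat_lit 6) (node (nat_lit 8) (nat_lit 126861) (nat_lit 7)
  (node (nat_lit 6) (nat_lit 126928) (nat_lit 8) nil (node (nat_lit 5) (nat_lit 124211) (nat_lit
  8) nil nil)) (node (nat_lit 6) (nat_lit 127081) (nat_lit 7) (node (nat_lit 5) (nat_lit 118326)
  (nat_lit 8) (node (nat_lit 4) (nat_lit 117358) (nat_lit 9) (node (nat_lit 5) (nat_lit 112331)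
  (nat_lit 10) (node (nat_lit 6) (nat_lit 104569) (nat_lit 11) nil nil) nil) nil) (node (nat_lit
  4) (nat_lit 129181) (nat_lit 8) (node (nat_lit 5) (nat_lit 129181) (nat_lit 9) (node (nat_lit 6)
  (nat_lit 129181) (nat_lit 10) (node (nat_lit 5) (nat_lit 129181) (nat_lit 11) nil nil) nil) nil)
  nil)) nil)) (node (nat_lit 5) (nat_lit 124145) (nat_lit 6) (node (nat_lit 4) (nat_lit 126604)
  (nat_lit 7) (node (nat_lit 5) (nat_lit 127311) (nat_lit 8) (node (nat_lit 6) (nat_lit 127179)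
  (nat_lit 9) (node (nat_lit 5) (nat_lit 126625) (nat_lit 10) nil nil) nil) nil) (node (nat_lit 6)
  (nat_lit 123821) (nat_lit 7) (node (nat_lit 4) (nat_lit 117046) (nat_lit 8) (node (nat_lit 5)
  (nat_lit 110533) (nat_lit 9) (node (nat_lit 6) (nat_lit 99364) (nat_lit 10) (node (nat_lit 5)
  (nat_lit 75600) (nat_lit 11) nil nil) nil) nil) nil) nil)) (node (nat_lit 0) (nat_lit 120570)
  (nat_lit 6) (node (nat_lit 5) (nat_lit 118889) (nat_lit 7) (node (nat_lit 6) (nat_lit 115480)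
  (nat_lit 8) nil nil) (node (nat_lit 6) (nat_lit 119123) (nat_lit 7) nil nil)) (node (nat_lit 2)
  (nat_lit 123957) (nat_lit 6) (node (nat_lit 5) (nat_lit 118884) (nat_lit 7) (node (nat_lit 4)
  (nat_lit 115304) (nat_lit 8) nil (node (nat_lit 6) (nat_lit 110262) (nat_lit 8) nil nil)) (node
  (nat_lit 6) (nat_lit 121630) (nat_lit 7) (node (nat_lit 4) (nat_lit 113106) (nat_lit 8) (node
  (nat_lit 5) (nat_lit 105768) (nat_lit 9) (node (nat_lit 6) (nat_lit 93090) (nat_lit 10) nil nil)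
  nil) (node (nat_lit 5) (nat_lit 118652) (nat_lit 8) nil nil)) nil)) nil))))) (node (nat_lit 2)
  (nat_lit 0) (nat_lit 5) (node (nat_lit 6) (nat_lit 0) (nat_lit 6) (node (nat_lit 5) (nat_lit
  83621) (nat_lit 7) (node (nat_lit 4) (nat_lit 115165) (nat_lit 8) (node (nat_lit 5) (nat_lit
  107991) (nat_lit 9) (node (nat_lit 6) (nat_lit 103982) (nat_lit 10) (node (nat_lit 5) (nat_lit
  72914) (nat_lit 11) nil nil) nil) nil) (node (nat_lit 6) (nat_lit 83639) (nat_lit 8) (node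
  (nat_lit 4) (nat_lit 110557) (nat_lit 9) (node (nat_lit 5) (nat_lit 105691) (nat_lit 10) nil
  nil) (node (nat_lit 8) (nat_lit 98061) (nat_lit 9) nil nil)) nil)) (node (nat_lit 8) (nat_lit 0)
  (nat_lit 7) (node (nat_lit 5) (nat_lit 0) (nat_lit 8) (node (nat_lit 6) (nat_lit 99924) (nat_lit
  9) (node (nat_lit 4) (nat_lit 114991) (nat_lit 10) nil (node (nat_lit 5) (nat_lit 104047)
  (nat_lit 10) nil nil)) (node (nat_lit 4) (nat_lit 108343) (nat_lit 9) (node (nat_lit 5) (nat_lit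
  98444) (nat_lit 10) (node (nat_lit 6) (nat_lit 96294) (nat_lit 11) (node (nat_lit 5) (nat_lit
  96478) (nat_lit 12) nil nil) nil) nil) (node (nat_lit 8) (nat_lit 99588) (nat_lit 9) nil (node
  (nat_lit 0) (nat_lit 113996) (nat_lit 9) nil nil)))) (node (nat_lit 4) (nat_lit 123557) (nat_lit
  8) nil (node (nat_lit 0) (nat_lit 114472) (nat_lit 8) nil nil))) (node (nat_lit 4) (nat_lit
  116841) (nat_lit 7) (node (nat_lit 5) (nat_lit 109256) (nat_lit 8) (node (nat_lit 6) (nat_lit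
  87081) (nat_lit 9) (node (nat_lit 5) (nat_lit 62570) (nat_lit 10) nil nil) nil) nil) (node
  (nat_lit 0) (nat_lit 120575) (nat_lit 7) nil nil)))) (node (nat_lit 4) (nat_lit 124209) (nat_lit
  6) (node (nat_lit 8) (nat_lit 125236) (nat_lit 7) (node (nat_lit 6) (nat_lit 119281) (nat_lit 8)
  (node (nat_lit 5) (nat_lit 117101) (nat_lit 9) nil nil) (node (nat_lit 5) (nat_lit 123962)
  (nat_lit 8) (node (nat_lit 6) (nat_lit 121808) (nat_lit 9) nil nil) nil)) (node (nat_lit 6)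
  (nat_lit 125779) (nat_lit 7) (node (nat_lit 4) (nat_lit 127773) (nat_lit 8) (node (nat_lit 5)
  (nat_lit 127773) (nat_lit 9) (node (nat_lit 6) (nat_lit 127773) (nat_lit 10) (node (nat_lit 5)
  (nat_lit 127773) (nat_lit 11) nil nil) nil) nil) nil) nil)) (node (nat_lit 5) (nat_lit 0)
  (nat_lit 6) (node (nat_lit 4) (nat_lit 117672) (nat_lit 7) (node (nat_lit 6) (nat_lit 117672)
  (nat_lit 8) (node (nat_lit 4) (nat_lit 118529) (nat_lit 9) (node (nat_lit 5) (nat_lit 118529)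
  (nat_lit 10) (node (nat_lit 6) (nat_lit 118529) (nat_lit 11) (node (nat_lit 5) (nat_lit 118529)
  (nat_lit 12) nil nil) nil) nil) nil) (node (nat_lit 5) (nat_lit 107771) (nat_lit 8) (node
  (nat_lit 6) (nat_lit 95537) (nat_lit 9) (node (nat_lit 5) (nat_lit 65608) (nat_lit 10) nil nil)
  nil) nil)) (node (nat_lit 6) (nat_lit 83587) (nat_lit 7) (node (nat_lit 8) (nat_lit 83500)
  (nat_lit 8) (node (nat_lit 5) (nat_lit 96622) (nat_lit 9) nil (node (nat_lit 6) (nat_lit 96337)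
  (nat_lit 9) nil (node (nat_lit 4) (nat_lit 104338) (nat_lit 9) nil nil))) (node (nat_lit 4)
  (nat_lit 106265) (nat_lit 8) (node (nat_lit 5) (nat_lit 101350) (nat_lit 9) (node (nat_lit 6)
  (nat_lit 89485) (nat_lit 10) (node (nat_lit 5) (nat_lit 77292) (nat_lit 11) nil nil) nil) nil)
  (node (nat_lit 5) (nat_lit 83587) (nat_lit 8) (node (nat_lit 4) (nat_lit 104442) (nat_lit 9)
  (node (nat_lit 5) (nat_lit 95475) (nat_lit 10) nil nil) nil) nil))) (node (nat_lit 0) (nat_lit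
  119551) (nat_lit 7) nil nil))) (node (nat_lit 0) (nat_lit 120454) (nat_lit 6) (node (nat_lit 5)
  (nat_lit 122603) (nat_lit 7) (node (nat_lit 4) (nat_lit 123737) (nat_lit 8) nil nil) (node
  (nat_lit 6) (nat_lit 119136) (nat_lit 7) nil nil)) nil)))) nil))) nil))

noncomputable def t177 : Tr :=
  (node (nat_lit 7) (nat_lit 0) (nat_lit 6) (node (nat_lit 0) (nat_lit 0) (nat_lit 7) (node
  (nat_lit 7) (nat_lit 0) (nat_lit 8) (node (nat_lit 5) (nat_lit 72970) (nat_lit 9) (node (nat_lit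
  10) (nat_lit 73473) (nat_lit 10) nil (node (nat_lit 4) (nat_lit 73473) (nat_lit 10) (node
  (nat_lit 7) (nat_lit 73473) (nat_lit 11) nil nil) (node (nat_lit 0) (nat_lit 73473) (nat_lit 10)
  (node (nat_lit 7) (nat_lit 73473) (nat_lit 11) nil nil) (node (nat_lit 2) (nat_lit 72970)
  (nat_lit 10) (node (nat_lit 7) (nat_lit 72970) (nat_lit 11) nil nil) nil)))) (node (nat_lit 4)
  (nat_lit 73452) (nat_lit 9) (node (nat_lit 5) (nat_lit 73452) (nat_lit 10) (node (nat_lit 4)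
  (nat_lit 73473) (nat_lit 11) (node (nat_lit 7) (nat_lit 73473) (nat_lit 12) (node (nat_lit 5)
  (nat_lit 73473) (nat_lit 13) (node (nat_lit 7) (nat_lit 73473) (nat_lit 14) nil nil) nil) nil)
  nil) nil) (node (nat_lit 0) (nat_lit 73452) (nat_lit 9) (node (nat_lit 7) (nat_lit 73452)
  (nat_lit 10) (node (nat_lit 4) (nat_lit 73473) (nat_lit 11) nil nil) nil) (node (nat_lit 2)
  (nat_lit 72896) (nat_lit 9) (node (nat_lit 10) (nat_lit 73473) (nat_lit 10) (node (nat_lit 7)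
  (nat_lit 73473) (nat_lit 11) nil nil) (node (nat_lit 7) (nat_lit 72946) (nat_lit 10) (node
  (nat_lit 4) (nat_lit 72031) (nat_lit 11) nil nil) (node (nat_lit 4) (nat_lit 73473) (nat_lit 10)
  (node (nat_lit 7) (nat_lit 73473) (nat_lit 11) nil nil) nil))) nil)))) (node (nat_lit 5)
  (nat_lit 72970) (nat_lit 8) (node (nat_lit 10) (nat_lit 73452) (nat_lit 9) (node (nat_lit 7)
  (nat_lit 73452) (nat_lit 10) nil nil) (node (nat_lit 7) (nat_lit 72970) (nat_lit 9) (node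
  (nat_lit 4) (nat_lit 73473) (nat_lit 10) nil nil) (node (nat_lit 4) (nat_lit 73452) (nat_lit 9)
  (node (nat_lit 7) (nat_lit 73452) (nat_lit 10) nil nil) nil))) (node (nat_lit 0) (nat_lit 73376)
  (nat_lit 8) (node (nat_lit 7) (nat_lit 73376) (nat_lit 9) nil nil) (node (nat_lit 2) (nat_lit
  72970) (nat_lit 8) (node (nat_lit 7) (nat_lit 72970) (nat_lit 9) (node (nat_lit 10) (nat_lit
  73473) (nat_lit 10) (node (nat_lit 7) (nat_lit 73473) (nat_lit 11) nil nil) (node (nat_lit 4)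
  (nat_lit 73195) (nat_lit 10) nil nil)) (node (nat_lit 10) (nat_lit 73452) (nat_lit 9) (node
  (nat_lit 7) (nat_lit 73452) (nat_lit 10) nil nil) nil)) (node (nat_lit 4) (nat_lit 73376)
  (nat_lit 8) (node (nat_lit 7) (nat_lit 73376) (nat_lit 9) (node (nat_lit 4) (nat_lit 73473)
  (nat_lit 10) nil nil) (node (nat_lit 10) (nat_lit 73473) (nat_lit 9) (node (nat_lit 7) (nat_lit
  73473) (nat_lit 10) nil nil) nil)) nil))))) (node (nat_lit 2) (nat_lit 0) (nat_lit 7) (node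
  (nat_lit 7) (nat_lit 0) (nat_lit 8) (node (nat_lit 5) (nat_lit 62357) (nat_lit 9) (node (nat_lit
  10) (nat_lit 62377) (nat_lit 10) (node (nat_lit 7) (nat_lit 65391) (nat_lit 11) (node (nat_lit
  4) (nat_lit 67169) (nat_lit 12) (node (nat_lit 5) (nat_lit 65522) (nat_lit 13) (node (nat_lit 4)
  (nat_lit 62930) (nat_lit 14) (node (nat_lit 7) (nat_lit 60236) (nat_lit 15) (node (nat_lit 5)
  (nat_lit 60235) (nat_lit 16) (node (nat_lit 7) (nat_lit 53437) (nat_lit 17) (node (nat_lit 10)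
  (nat_lit 41663) (nat_lit 18) nil nil) nil) nil) nil) nil) nil) (node (nat_lit 10) (nat_lit
  66194) (nat_lit 12) (node (nat_lit 5) (nat_lit 65252) (nat_lit 13) (node (nat_lit 7) (nat_lit
  65294) (nat_lit 14) nil nil) (node (nat_lit 4) (nat_lit 67876) (nat_lit 13) nil nil)) (node
  (nat_lit 0) (nat_lit 67594) (nat_lit 12) (node (nat_lit 7) (nat_lit 67594) (nat_lit 13) nil nil)
  nil))) (node (nat_lit 5) (nat_lit 64605) (nat_lit 11) (node (nat_lit 7) (nat_lit 65524) (nat_lit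
  12) nil (node (nat_lit 4) (nat_lit 66808) (nat_lit 12) nil nil)) (node (nat_lit 4) (nat_lit
  68788) (nat_lit 11) nil (node (nat_lit 0) (nat_lit 68788) (nat_lit 11) nil nil)))) (node
  (nat_lit 4) (nat_lit 71366) (nat_lit 10) (node (nat_lit 7) (nat_lit 71366) (nat_lit 11) (node
  (nat_lit 4) (nat_lit 71475) (nat_lit 12) (node (nat_lit 5) (nat_lit 71475) (nat_lit 13) nil nil)
  nil) nil) (node (nat_lit 0) (nat_lit 71049) (nat_lit 10) (node (nat_lit 7) (nat_lit 71049)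
  (nat_lit 11) nil nil) (node (nat_lit 7) (nat_lit 62357) (nat_lit 10) (node (nat_lit 4) (nat_lit
  68534) (nat_lit 11) nil nil) nil)))) (node (nat_lit 4) (nat_lit 72283) (nat_lit 9) (node
  (nat_lit 5) (nat_lit 70186) (nat_lit 10) (node (nat_lit 4) (nat_lit 62157) (nat_lit 11) (node
  (nat_lit 7) (nat_lit 51974) (nat_lit 12) (node (nat_lit 5) (nat_lit 36504) (nat_lit 13) nil nil)
  nil) (node (nat_lit 7) (nat_lit 70186) (nat_lit 11) nil (node (nat_lit 10) (nat_lit 68850)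
  (nat_lit 11) nil (node (nat_lit 0) (nat_lit 70650) (nat_lit 11) nil nil)))) (node (nat_lit 10)
  (nat_lit 72283) (nat_lit 10) nil (node (nat_lit 0) (nat_lit 72434) (nat_lit 10) nil nil))) (node
  (nat_lit 0) (nat_lit 72283) (nat_lit 9) (node (nat_lit 10) (nat_lit 72283) (nat_lit 10) (node
  (nat_lit 7) (nat_lit 72283) (nat_lit 11) (node (nat_lit 4) (nat_lit 72643) (nat_lit 12) nil nil)
  nil) (node (nat_lit 7) (nat_lit 72283) (nat_lit 10) (node (nat_lit 4) (nat_lit 72551) (nat_lit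
  11) nil nil) (node (nat_lit 5) (nat_lit 72283) (nat_lit 10) (node (nat_lit 7) (nat_lit 72283)
  (nat_lit 11) nil nil) (node (nat_lit 4) (nat_lit 72434) (nat_lit 10) (node (nat_lit 7) (nat_lit
  72434) (nat_lit 11) nil nil) nil)))) nil))) (node (nat_lit 5) (nat_lit 0) (nat_lit 8) (node
  (nat_lit 10) (nat_lit 62357) (nat_lit 9) (node (nat_lit 7) (nat_lit 62366) (nat_lit 10) (node
  (nat_lit 10) (nat_lit 65570) (nat_lit 11) (node (nat_lit 5) (nat_lit 66760) (nat_lit 12) (node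
  (nat_lit 7) (nat_lit 66932) (nat_lit 13) (node (nat_lit 4) (nat_lit 65343) (nat_lit 14) nil nil)
  (node (nat_lit 4) (nat_lit 68442) (nat_lit 13) nil nil)) nil) (node (nat_lit 5) (nat_lit 66318)
  (nat_lit 11) (node (nat_lit 7) (nat_lit 66326) (nat_lit 12) nil nil) nil)) nil) (node (nat_lit
  7) (nat_lit 62357) (nat_lit 9) (node (nat_lit 5) (nat_lit 62314) (nat_lit 10) (node (nat_lit 4)
  (nat_lit 73324) (nat_lit 11) nil (node (nat_lit 10) (nat_lit 66536) (nat_lit 11) (node (nat_lit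
  7) (nat_lit 67739) (nat_lit 12) nil nil) nil)) (node (nat_lit 4) (nat_lit 72892) (nat_lit 10)
  nil nil)) (node (nat_lit 4) (nat_lit 72283) (nat_lit 9) (node (nat_lit 7) (nat_lit 72283)
  (nat_lit 10) nil nil) (node (nat_lit 0) (nat_lit 72283) (nat_lit 9) (node (nat_lit 7) (nat_lit
  72283) (nat_lit 10) nil nil) nil)))) (node (nat_lit 0) (nat_lit 72865) (nat_lit 8) (node
  (nat_lit 7) (nat_lit 72865) (nat_lit 9) (node (nat_lit 10) (nat_lit 72865) (nat_lit 10) (node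
  (nat_lit 7) (nat_lit 72865) (nat_lit 11) nil nil) (node (nat_lit 4) (nat_lit 73209) (nat_lit 10)
  nil nil)) (node (nat_lit 10) (nat_lit 72865) (nat_lit 9) (node (nat_lit 7) (nat_lit 72865)
  (nat_lit 10) nil nil) nil)) (node (nat_lit 4) (nat_lit 72865) (nat_lit 8) (node (nat_lit 7)
  (nat_lit 72865) (nat_lit 9) (node (nat_lit 4) (nat_lit 73209) (nat_lit 10) nil nil) (node
  (nat_lit 10) (nat_lit 72865) (nat_lit 9) (node (nat_lit 7) (nat_lit 72865) (nat_lit 10) nil nil)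
  nil)) nil)))) (node (nat_lit 4) (nat_lit 0) (nat_lit 7) (node (nat_lit 0) (nat_lit 69924)
  (nat_lit 8) (node (nat_lit 7) (nat_lit 71824) (nat_lit 9) (node (nat_lit 4) (nat_lit 72466)
  (nat_lit 10) (node (nat_lit 5) (nat_lit 73030) (nat_lit 11) (node (nat_lit 4) (nat_lit 73473)
  (nat_lit 12) (node (nat_lit 7) (nat_lit 73473) (nat_lit 13) nil nil) nil) nil) nil) (node
  (nat_lit 5) (nat_lit 71865) (nat_lit 9) nil (node (nat_lit 4) (nat_lit 71386) (nat_lit 9) (node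
  (nat_lit 7) (nat_lit 72028) (nat_lit 10) nil nil) nil))) (node (nat_lit 2) (nat_lit 69924)
  (nat_lit 8) (node (nat_lit 7) (nat_lit 71824) (nat_lit 9) (node (nat_lit 4) (nat_lit 73093)
  (nat_lit 10) (node (nat_lit 5) (nat_lit 72534) (nat_lit 11) (node (nat_lit 4) (nat_lit 69590)
  (nat_lit 12) (node (nat_lit 7) (nat_lit 61837) (nat_lit 13) (node (nat_lit 5) (nat_lit 26416)
  (nat_lit 14) nil nil) nil) nil) nil) nil) (node (nat_lit 5) (nat_lit 71865) (nat_lit 9) nil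
  (node (nat_lit 4) (nat_lit 71386) (nat_lit 9) (node (nat_lit 7) (nat_lit 72028) (nat_lit 10) nil
  nil) nil))) (node (nat_lit 5) (nat_lit 0) (nat_lit 8) (node (nat_lit 4) (nat_lit 0) (nat_lit 9)
  (node (nat_lit 7) (nat_lit 19988) (nat_lit 10) (node (nat_lit 4) (nat_lit 21268) (nat_lit 11)
  nil nil) (node (nat_lit 0) (nat_lit 54184) (nat_lit 10) nil (node (nat_lit 2) (nat_lit 54098)
  (nat_lit 10) nil nil))) (node (nat_lit 7) (nat_lit 0) (nat_lit 9) (node (nat_lit 5) (nat_lit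
  61132) (nat_lit 10) (node (nat_lit 4) (nat_lit 63548) (nat_lit 11) nil nil) (node (nat_lit 0)
  (nat_lit 61347) (nat_lit 10) nil (node (nat_lit 2) (nat_lit 61224) (nat_lit 10) nil nil))) (node
  (nat_lit 0) (nat_lit 58414) (nat_lit 9) nil (node (nat_lit 2) (nat_lit 58256) (nat_lit 9) nil
  nil)))) (node (nat_lit 7) (nat_lit 0) (nat_lit 8) (node (nat_lit 5) (nat_lit 68498) (nat_lit 9)
  (node (nat_lit 4) (nat_lit 71192) (nat_lit 10) (node (nat_lit 7) (nat_lit 72473) (nat_lit 11)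
  nil nil) nil) (node (nat_lit 2) (nat_lit 68966) (nat_lit 9) nil (node (nat_lit 0) (nat_lit
  68966) (nat_lit 9) nil nil))) nil)))) nil))) (node (nat_lit 4) (nat_lit 0) (nat_lit 6) (node
  (nat_lit 0) (nat_lit 65367) (nat_lit 7) nil (node (nat_lit 2) (nat_lit 64348) (nat_lit 7) (node
  (nat_lit 4) (nat_lit 68027) (nat_lit 8) nil (node (nat_lit 7) (nat_lit 64578) (nat_lit 8) (node
  (nat_lit 4) (nat_lit 61550) (nat_lit 9) (node (nat_lit 5) (nat_lit 57556) (nat_lit 10) nil nil)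
  nil) nil)) (node (nat_lit 5) (nat_lit 63164) (nat_lit 7) (node (nat_lit 7) (nat_lit 63050)
  (nat_lit 8) (node (nat_lit 4) (nat_lit 66208) (nat_lit 9) nil nil) nil) nil))) (node (nat_lit 0)
  (nat_lit 0) (nat_lit 6) (node (nat_lit 7) (nat_lit 0) (nat_lit 7) (node (nat_lit 9) (nat_lit
  72875) (nat_lit 8) (node (nat_lit 4) (nat_lit 73068) (nat_lit 9) (node (nat_lit 7) (nat_lit
  73068) (nat_lit 10) (node (nat_lit 4) (nat_lit 73336) (nat_lit 11) (node (nat_lit 5) (nat_lit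
  73336) (nat_lit 12) nil nil) nil) nil) nil) (node (nat_lit 5) (nat_lit 72191) (nat_lit 8) (node
  (nat_lit 7) (nat_lit 72191) (nat_lit 9) (node (nat_lit 4) (nat_lit 73218) (nat_lit 10) (node
  (nat_lit 5) (nat_lit 71101) (nat_lit 11) (node (nat_lit 4) (nat_lit 67169) (nat_lit 12) (node
  (nat_lit 7) (nat_lit 59661) (nat_lit 13) (node (nat_lit 5) (nat_lit 27157) (nat_lit 14) nil nil)
  nil) nil) nil) nil) (node (nat_lit 4) (nat_lit 73068) (nat_lit 9) (node (nat_lit 7) (nat_lit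
  73068) (nat_lit 10) nil nil) nil)) (node (nat_lit 4) (nat_lit 72875) (nat_lit 8) (node (nat_lit
  5) (nat_lit 72875) (nat_lit 9) (node (nat_lit 4) (nat_lit 73218) (nat_lit 10) (node (nat_lit 7)
  (nat_lit 73218) (nat_lit 11) (node (nat_lit 5) (nat_lit 73218) (nat_lit 12) nil nil) nil) nil)
  nil) (node (nat_lit 0) (nat_lit 72875) (nat_lit 8) nil (node (nat_lit 2) (nat_lit 70650)
  (nat_lit 8) nil nil))))) (node (nat_lit 4) (nat_lit 72355) (nat_lit 7) (node (nat_lit 9)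
  (nat_lit 73154) (nat_lit 8) (node (nat_lit 5) (nat_lit 72896) (nat_lit 9) (node (nat_lit 7)
  (nat_lit 72946) (nat_lit 10) (node (nat_lit 4) (nat_lit 72031) (nat_lit 11) (node (nat_lit 5)
  (nat_lit 70016) (nat_lit 12) nil nil) nil) nil) (node (nat_lit 7) (nat_lit 73154) (nat_lit 9)
  (node (nat_lit 4) (nat_lit 73473) (nat_lit 10) (node (nat_lit 5) (nat_lit 73473) (nat_lit 11)
  (node (nat_lit 4) (nat_lit 73473) (nat_lit 12) (node (nat_lit 7) (nat_lit 73473) (nat_lit 13)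
  (node (nat_lit 5) (nat_lit 73473) (nat_lit 14) nil nil) nil) nil) nil) nil) nil)) (node (nat_lit
  5) (nat_lit 72898) (nat_lit 8) (node (nat_lit 7) (nat_lit 72898) (nat_lit 9) (node (nat_lit 4)
  (nat_lit 71304) (nat_lit 10) (node (nat_lit 5) (nat_lit 60941) (nat_lit 11) nil nil) nil) (node
  (nat_lit 9) (nat_lit 73347) (nat_lit 9) (node (nat_lit 7) (nat_lit 73347) (nat_lit 10) (node
  (nat_lit 4) (nat_lit 73473) (nat_lit 11) nil nil) nil) (node (nat_lit 4) (nat_lit 73347)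
  (nat_lit 9) (node (nat_lit 7) (nat_lit 73347) (nat_lit 10) nil nil) nil))) (node (nat_lit 7)
  (nat_lit 72898) (nat_lit 8) (node (nat_lit 4) (nat_lit 73347) (nat_lit 9) (node (nat_lit 5)
  (nat_lit 73347) (nat_lit 10) (node (nat_lit 4) (nat_lit 73473) (nat_lit 11) (node (nat_lit 7)
  (nat_lit 73473) (nat_lit 12) (node (nat_lit 5) (nat_lit 73473) (nat_lit 13) nil nil) nil) nil)
  nil) (node (nat_lit 9) (nat_lit 73347) (nat_lit 9) (node (nat_lit 7) (nat_lit 73347) (nat_lit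
  10) nil nil) nil)) nil))) (node (nat_lit 0) (nat_lit 72355) (nat_lit 7) (node (nat_lit 9)
  (nat_lit 73154) (nat_lit 8) (node (nat_lit 7) (nat_lit 73154) (nat_lit 9) (node (nat_lit 4)
  (nat_lit 73473) (nat_lit 10) nil nil) (node (nat_lit 4) (nat_lit 73347) (nat_lit 9) (node
  (nat_lit 7) (nat_lit 73347) (nat_lit 10) nil nil) nil)) (node (nat_lit 5) (nat_lit 70650)
  (nat_lit 8) (node (nat_lit 7) (nat_lit 71059) (nat_lit 9) nil nil) (node (nat_lit 7) (nat_lit
  72898) (nat_lit 8) (node (nat_lit 4) (nat_lit 73347) (nat_lit 9) nil nil) (node (nat_lit 4)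
  (nat_lit 73154) (nat_lit 8) (node (nat_lit 7) (nat_lit 73154) (nat_lit 9) nil nil) nil)))) (node
  (nat_lit 5) (nat_lit 0) (nat_lit 7) (node (nat_lit 7) (nat_lit 72191) (nat_lit 8) (node (nat_lit
  4) (nat_lit 72856) (nat_lit 9) (node (nat_lit 5) (nat_lit 70383) (nat_lit 10) (node (nat_lit 4)
  (nat_lit 57683) (nat_lit 11) (node (nat_lit 7) (nat_lit 46366) (nat_lit 12) (node (nat_lit 5)
  (nat_lit 24286) (nat_lit 13) nil nil) nil) nil) nil) nil) (node (nat_lit 4) (nat_lit 72875)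
  (nat_lit 8) (node (nat_lit 7) (nat_lit 72875) (nat_lit 9) (node (nat_lit 4) (nat_lit 73218)
  (nat_lit 10) (node (nat_lit 5) (nat_lit 73218) (nat_lit 11) nil nil) nil) nil) (node (nat_lit 0)
  (nat_lit 72875) (nat_lit 8) (node (nat_lit 7) (nat_lit 72875) (nat_lit 9) nil nil) (node
  (nat_lit 2) (nat_lit 72191) (nat_lit 8) (node (nat_lit 7) (nat_lit 71059) (nat_lit 9) nil nil)
  nil)))) (node (nat_lit 2) (nat_lit 0) (nat_lit 7) (node (nat_lit 9) (nat_lit 72875) (nat_lit 8)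
  (node (nat_lit 7) (nat_lit 72875) (nat_lit 9) (node (nat_lit 4) (nat_lit 73218) (nat_lit 10) nil
  nil) (node (nat_lit 4) (nat_lit 73068) (nat_lit 9) (node (nat_lit 7) (nat_lit 73068) (nat_lit
  10) nil nil) nil)) (node (nat_lit 5) (nat_lit 72191) (nat_lit 8) (node (nat_lit 7) (nat_lit
  71059) (nat_lit 9) nil nil) (node (nat_lit 7) (nat_lit 72191) (nat_lit 8) (node (nat_lit 4)
  (nat_lit 71019) (nat_lit 9) nil nil) (node (nat_lit 4) (nat_lit 72875) (nat_lit 8) (node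
  (nat_lit 7) (nat_lit 72875) (nat_lit 9) nil nil) (node (nat_lit 0) (nat_lit 72875) (nat_lit 8)
  nil nil))))) nil))))) (node (nat_lit 2) (nat_lit 0) (nat_lit 6) (node (nat_lit 7) (nat_lit 0)
  (nat_lit 7) (node (nat_lit 9) (nat_lit 0) (nat_lit 8) (node (nat_lit 5) (nat_lit 63218) (nat_lit
  9) (node (nat_lit 7) (nat_lit 63218) (nat_lit 10) (node (nat_lit 5) (nat_lit 65515) (nat_lit 11)
  (node (nat_lit 4) (nat_lit 67719) (nat_lit 12) (node (nat_lit 7) (nat_lit 67719) (nat_lit 13)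
  nil nil) (node (nat_lit 9) (nat_lit 65845) (nat_lit 12) nil nil)) (node (nat_lit 4) (nat_lit
  66059) (nat_lit 11) (node (nat_lit 5) (nat_lit 64530) (nat_lit 12) (node (nat_lit 4) (nat_lit
  58013) (nat_lit 13) (node (nat_lit 7) (nat_lit 56672) (nat_lit 14) nil nil) nil) nil) nil))
  (node (nat_lit 9) (nat_lit 63218) (nat_lit 10) (node (nat_lit 7) (nat_lit 65457) (nat_lit 11)
  (node (nat_lit 5) (nat_lit 66424) (nat_lit 12) nil nil) (node (nat_lit 4) (nat_lit 69629)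
  (nat_lit 11) nil nil)) (node (nat_lit 4) (nat_lit 69361) (nat_lit 10) (node (nat_lit 7) (nat_lit
  69361) (nat_lit 11) nil nil) (node (nat_lit 0) (nat_lit 69361) (nat_lit 10) nil nil)))) (node
  (nat_lit 4) (nat_lit 72480) (nat_lit 9) (node (nat_lit 7) (nat_lit 72480) (nat_lit 10) (node
  (nat_lit 4) (nat_lit 72748) (nat_lit 11) (node (nat_lit 5) (nat_lit 72748) (nat_lit 12) nil nil)
  nil) (node (nat_lit 5) (nat_lit 72480) (nat_lit 10) (node (nat_lit 7) (nat_lit 72480) (nat_lit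
  11) nil nil) nil)) (node (nat_lit 0) (nat_lit 72480) (nat_lit 9) nil nil))) (node (nat_lit 5)
  (nat_lit 0) (nat_lit 8) (node (nat_lit 7) (nat_lit 63218) (nat_lit 9) (node (nat_lit 4) (nat_lit
  69094) (nat_lit 10) (node (nat_lit 5) (nat_lit 66316) (nat_lit 11) (node (nat_lit 4) (nat_lit
  59672) (nat_lit 12) (node (nat_lit 7) (nat_lit 55351) (nat_lit 13) nil nil) nil) nil) (node
  (nat_lit 9) (nat_lit 63218) (nat_lit 10) nil nil)) (node (nat_lit 4) (nat_lit 72213) (nat_lit 9)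
  (node (nat_lit 7) (nat_lit 72213) (nat_lit 10) nil nil) (node (nat_lit 0) (nat_lit 69015)
  (nat_lit 9) nil nil))) (node (nat_lit 4) (nat_lit 70402) (nat_lit 8) (node (nat_lit 5) (nat_lit
  61892) (nat_lit 9) (node (nat_lit 7) (nat_lit 62445) (nat_lit 10) nil (node (nat_lit 4) (nat_lit
  41565) (nat_lit 10) (node (nat_lit 7) (nat_lit 32854) (nat_lit 11) nil nil) nil)) (node (nat_lit
  7) (nat_lit 70845) (nat_lit 9) (node (nat_lit 5) (nat_lit 69533) (nat_lit 10) (node (nat_lit 4)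
  (nat_lit 70097) (nat_lit 11) nil nil) nil) (node (nat_lit 9) (nat_lit 70845) (nat_lit 9) (node
  (nat_lit 4) (nat_lit 71680) (nat_lit 10) nil nil) nil))) (node (nat_lit 0) (nat_lit 71755)
  (nat_lit 8) (node (nat_lit 7) (nat_lit 71755) (nat_lit 9) nil nil) nil)))) (node (nat_lit 4)
  (nat_lit 0) (nat_lit 7) (node (nat_lit 9) (nat_lit 72110) (nat_lit 8) (node (nat_lit 5) (nat_lit
  72110) (nat_lit 9) (node (nat_lit 4) (nat_lit 72710) (nat_lit 10) (node (nat_lit 7) (nat_lit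
  72710) (nat_lit 11) nil nil) (node (nat_lit 7) (nat_lit 69232) (nat_lit 10) (node (nat_lit 4)
  (nat_lit 68318) (nat_lit 11) (node (nat_lit 5) (nat_lit 66303) (nat_lit 12) nil nil) nil) nil))
  (node (nat_lit 7) (nat_lit 72110) (nat_lit 9) (node (nat_lit 4) (nat_lit 72710) (nat_lit 10)
  (node (nat_lit 5) (nat_lit 69862) (nat_lit 11) (node (nat_lit 4) (nat_lit 65728) (nat_lit 12)
  (node (nat_lit 7) (nat_lit 60126) (nat_lit 13) (node (nat_lit 5) (nat_lit 47859) (nat_lit 14)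
  nil nil) nil) nil) nil) nil) nil)) (node (nat_lit 5) (nat_lit 72110) (nat_lit 8) (node (nat_lit
  7) (nat_lit 72110) (nat_lit 9) (node (nat_lit 4) (nat_lit 71138) (nat_lit 10) (node (nat_lit 5)
  (nat_lit 60774) (nat_lit 11) nil nil) nil) (node (nat_lit 9) (nat_lit 72110) (nat_lit 9) (node
  (nat_lit 7) (nat_lit 72110) (nat_lit 10) (node (nat_lit 4) (nat_lit 72031) (nat_lit 11) nil nil)
  nil) (node (nat_lit 4) (nat_lit 72559) (nat_lit 9) (node (nat_lit 7) (nat_lit 72559) (nat_lit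
  10) nil nil) nil))) (node (nat_lit 7) (nat_lit 72110) (nat_lit 8) (node (nat_lit 4) (nat_lit
  72559) (nat_lit 9) (node (nat_lit 5) (nat_lit 72559) (nat_lit 10) (node (nat_lit 4) (nat_lit
  72827) (nat_lit 11) (node (nat_lit 7) (nat_lit 72827) (nat_lit 12) (node (nat_lit 5) (nat_lit
  72827) (nat_lit 13) nil nil) nil) nil) nil) (node (nat_lit 9) (nat_lit 72110) (nat_lit 9) (node
  (nat_lit 7) (nat_lit 72110) (nat_lit 10) nil nil) nil)) (node (nat_lit 0) (nat_lit 72366)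
  (nat_lit 8) nil nil)))) (node (nat_lit 0) (nat_lit 0) (nat_lit 7) (node (nat_lit 9) (nat_lit
  70650) (nat_lit 8) (node (nat_lit 5) (nat_lit 68527) (nat_lit 9) (node (nat_lit 7) (nat_lit
  68577) (nat_lit 10) nil nil) (node (nat_lit 7) (nat_lit 71059) (nat_lit 9) (node (nat_lit 4)
  (nat_lit 69363) (nat_lit 10) nil nil) (node (nat_lit 4) (nat_lit 71669) (nat_lit 9) (node
  (nat_lit 7) (nat_lit 72310) (nat_lit 10) nil nil) nil))) (node (nat_lit 5) (nat_lit 70650)
  (nat_lit 8) (node (nat_lit 7) (nat_lit 71059) (nat_lit 9) nil nil) (node (nat_lit 7) (nat_lit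
  72110) (nat_lit 8) (node (nat_lit 4) (nat_lit 72559) (nat_lit 9) nil nil) (node (nat_lit 4)
  (nat_lit 72366) (nat_lit 8) (node (nat_lit 7) (nat_lit 72366) (nat_lit 9) nil nil) (node
  (nat_lit 0) (nat_lit 72366) (nat_lit 8) nil nil))))) (node (nat_lit 5) (nat_lit 0) (nat_lit 7)
  (node (nat_lit 7) (nat_lit 63218) (nat_lit 8) (node (nat_lit 4) (nat_lit 69015) (nat_lit 9)
  (node (nat_lit 5) (nat_lit 67447) (nat_lit 10) (node (nat_lit 4) (nat_lit 57234) (nat_lit 11)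
  (node (nat_lit 7) (nat_lit 48609) (nat_lit 12) (node (nat_lit 5) (nat_lit 31804) (nat_lit 13)
  nil nil) nil) nil) nil) (node (nat_lit 5) (nat_lit 63218) (nat_lit 9) (node (nat_lit 9) (nat_lit
  63227) (nat_lit 10) (node (nat_lit 7) (nat_lit 65757) (nat_lit 11) (node (nat_lit 5) (nat_lit
  65234) (nat_lit 12) nil nil) nil) (node (nat_lit 4) (nat_lit 69361) (nat_lit 10) nil nil)) (node
  (nat_lit 9) (nat_lit 63218) (nat_lit 9) nil nil))) (node (nat_lit 4) (nat_lit 71755) (nat_lit 8)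
  (node (nat_lit 7) (nat_lit 71755) (nat_lit 9) (node (nat_lit 4) (nat_lit 72098) (nat_lit 10)
  (node (nat_lit 5) (nat_lit 72098) (nat_lit 11) nil nil) nil) nil) (node (nat_lit 0) (nat_lit
  71755) (nat_lit 8) (node (nat_lit 7) (nat_lit 71755) (nat_lit 9) nil nil) nil))) nil)))) nil))))

noncomputable def t178 : Tr :=
  (node (nat_lit 3) (nat_lit 0) (nat_lit 1) (node (nat_lit 1) (nat_lit 0) (nat_lit 2) (node
  (nat_lit 3) (nat_lit 0) (nat_lit 3) (node (nat_lit 4) (nat_lit 0) (nat_lit 4) (node (nat_lit 5)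
  (nat_lit 0) (nat_lit 5) (node (nat_lit 4) (nat_lit 0) (nat_lit 6) (node (nat_lit 0) (nat_lit
  63372) (nat_lit 7) (node (nat_lit 4) (nat_lit 66195) (nat_lit 8) (node (nat_lit 6) (nat_lit
  64035) (nat_lit 9) nil nil) (node (nat_lit 5) (nat_lit 65645) (nat_lit 8) nil nil)) (node
  (nat_lit 2) (nat_lit 62054) (nat_lit 7) (node (nat_lit 4) (nat_lit 66103) (nat_lit 8) (node
  (nat_lit 6) (nat_lit 66858) (nat_lit 9) (node (nat_lit 5) (nat_lit 63149) (nat_lit 10) nil nil)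
  nil) (node (nat_lit 5) (nat_lit 64204) (nat_lit 8) (node (nat_lit 4) (nat_lit 66567) (nat_lit 9)
  (node (nat_lit 5) (nat_lit 64631) (nat_lit 10) (node (nat_lit 6) (nat_lit 58334) (nat_lit 11)
  (node (nat_lit 4) (nat_lit 47759) (nat_lit 12) nil nil) nil) nil) nil) nil)) (node (nat_lit 6)
  (nat_lit 0) (nat_lit 7) (node (nat_lit 0) (nat_lit 65696) (nat_lit 8) nil (node (nat_lit 2)
  (nat_lit 64008) (nat_lit 8) nil (node (nat_lit 5) (nat_lit 60103) (nat_lit 8) nil (node (nat_lit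
  4) (nat_lit 62734) (nat_lit 8) nil nil)))) nil))) (node (nat_lit 0) (nat_lit 0) (nat_lit 6)
  (node (nat_lit 4) (nat_lit 63442) (nat_lit 7) nil (node (nat_lit 6) (nat_lit 62221) (nat_lit 7)
  (node (nat_lit 9) (nat_lit 64494) (nat_lit 8) nil (node (nat_lit 5) (nat_lit 63605) (nat_lit 8)
  (node (nat_lit 4) (nat_lit 60939) (nat_lit 9) (node (nat_lit 5) (nat_lit 56198) (nat_lit 10)
  (node (nat_lit 6) (nat_lit 47853) (nat_lit 11) (node (nat_lit 4) (nat_lit 31310) (nat_lit 12)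
  nil nil) nil) nil) nil) (node (nat_lit 4) (nat_lit 64494) (nat_lit 8) nil nil))) (node (nat_lit
  0) (nat_lit 62221) (nat_lit 7) nil (node (nat_lit 5) (nat_lit 62257) (nat_lit 7) (node (nat_lit
  4) (nat_lit 64529) (nat_lit 8) (node (nat_lit 5) (nat_lit 65284) (nat_lit 9) (node (nat_lit 6)
  (nat_lit 63497) (nat_lit 10) (node (nat_lit 4) (nat_lit 63991) (nat_lit 11) nil nil) nil) nil)
  nil) (node (nat_lit 2) (nat_lit 57243) (nat_lit 7) nil nil))))) (node (nat_lit 2) (nat_lit 0)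
  (nat_lit 6) (node (nat_lit 6) (nat_lit 57580) (nat_lit 7) (node (nat_lit 9) (nat_lit 60800)
  (nat_lit 8) (node (nat_lit 5) (nat_lit 61040) (nat_lit 9) (node (nat_lit 4) (nat_lit 59635)
  (nat_lit 10) (node (nat_lit 5) (nat_lit 57172) (nat_lit 11) nil nil) nil) (node (nat_lit 4)
  (nat_lit 62121) (nat_lit 9) nil nil)) (node (nat_lit 5) (nat_lit 59918) (nat_lit 8) (node
  (nat_lit 4) (nat_lit 60458) (nat_lit 9) (node (nat_lit 5) (nat_lit 56198) (nat_lit 10) (node
  (nat_lit 6) (nat_lit 47853) (nat_lit 11) (node (nat_lit 4) (nat_lit 32138) (nat_lit 12) nil nil)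
  nil) nil) nil) (node (nat_lit 4) (nat_lit 59852) (nat_lit 8) nil nil))) (node (nat_lit 4)
  (nat_lit 62864) (nat_lit 7) (node (nat_lit 9) (nat_lit 64982) (nat_lit 8) (node (nat_lit 5)
  (nat_lit 60678) (nat_lit 9) (node (nat_lit 4) (nat_lit 59135) (nat_lit 10) (node (nat_lit 5)
  (nat_lit 56018) (nat_lit 11) (node (nat_lit 6) (nat_lit 50484) (nat_lit 12) (node (nat_lit 4)
  (nat_lit 44823) (nat_lit 13) (node (nat_lit 5) (nat_lit 33276) (nat_lit 14) nil nil) nil) nil)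
  nil) nil) nil) nil) (node (nat_lit 0) (nat_lit 61842) (nat_lit 7) nil (node (nat_lit 5) (nat_lit
  58113) (nat_lit 7) (node (nat_lit 4) (nat_lit 60899) (nat_lit 8) (node (nat_lit 5) (nat_lit
  43554) (nat_lit 9) (node (nat_lit 6) (nat_lit 35229) (nat_lit 10) nil nil) nil) nil) nil))))
  nil))) (node (nat_lit 6) (nat_lit 0) (nat_lit 5) (node (nat_lit 5) (nat_lit 0) (nat_lit 6) (node
  (nat_lit 0) (nat_lit 129774) (nat_lit 7) (node (nat_lit 5) (nat_lit 134740) (nat_lit 8) (node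
  (nat_lit 4) (nat_lit 133509) (nat_lit 9) (node (nat_lit 5) (nat_lit 134730) (nat_lit 10) (node
  (nat_lit 6) (nat_lit 133892) (nat_lit 11) (node (nat_lit 4) (nat_lit 134867) (nat_lit 12) nil
  nil) nil) nil) nil) (node (nat_lit 6) (nat_lit 134740) (nat_lit 8) (node (nat_lit 4) (nat_lit
  135915) (nat_lit 9) (node (nat_lit 5) (nat_lit 136475) (nat_lit 10) (node (nat_lit 6) (nat_lit
  135053) (nat_lit 11) nil nil) nil) nil) nil)) (node (nat_lit 2) (nat_lit 0) (nat_lit 7) (node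
  (nat_lit 5) (nat_lit 129836) (nat_lit 8) (node (nat_lit 4) (nat_lit 131073) (nat_lit 9) (node
  (nat_lit 5) (nat_lit 130412) (nat_lit 10) (node (nat_lit 6) (nat_lit 122737) (nat_lit 11) (node
  (nat_lit 4) (nat_lit 106611) (nat_lit 12) (node (nat_lit 6) (nat_lit 70993) (nat_lit 13) nil
  nil) nil) nil) nil) nil) (node (nat_lit 6) (nat_lit 130936) (nat_lit 8) (node (nat_lit 4)
  (nat_lit 131690) (nat_lit 9) (node (nat_lit 5) (nat_lit 127168) (nat_lit 10) (node (nat_lit 6)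
  (nat_lit 122762) (nat_lit 11) (node (nat_lit 4) (nat_lit 95906) (nat_lit 12) (node (nat_lit 6)
  (nat_lit 64793) (nat_lit 13) (node (nat_lit 5) (nat_lit 59321) (nat_lit 14) nil nil) nil) nil)
  nil) nil) nil) (node (nat_lit 4) (nat_lit 132483) (nat_lit 8) nil (node (nat_lit 0) (nat_lit
  132483) (nat_lit 8) nil nil)))) (node (nat_lit 6) (nat_lit 115556) (nat_lit 7) nil (node
  (nat_lit 4) (nat_lit 0) (nat_lit 7) (node (nat_lit 0) (nat_lit 134126) (nat_lit 8) nil (node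
  (nat_lit 2) (nat_lit 131542) (nat_lit 8) nil (node (nat_lit 6) (nat_lit 125827) (nat_lit 8)
  (node (nat_lit 4) (nat_lit 131949) (nat_lit 9) (node (nat_lit 5) (nat_lit 133574) (nat_lit 10)
  (node (nat_lit 6) (nat_lit 126389) (nat_lit 11) nil nil) nil) nil) (node (nat_lit 5) (nat_lit
  121490) (nat_lit 8) (node (nat_lit 6) (nat_lit 113654) (nat_lit 9) (node (nat_lit 4) (nat_lit
  70993) (nat_lit 10) nil nil) nil) nil)))) nil)))) (node (nat_lit 0) (nat_lit 0) (nat_lit 6)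
  (node (nat_lit 4) (nat_lit 132672) (nat_lit 7) nil (node (nat_lit 5) (nat_lit 132479) (nat_lit
  7) (node (nat_lit 4) (nat_lit 133817) (nat_lit 8) (node (nat_lit 5) (nat_lit 134791) (nat_lit 9)
  (node (nat_lit 6) (nat_lit 133719) (nat_lit 10) (node (nat_lit 4) (nat_lit 134214) (nat_lit 11)
  (node (nat_lit 6) (nat_lit 133124) (nat_lit 12) nil nil) nil) nil) nil) nil) (node (nat_lit 6)
  (nat_lit 132479) (nat_lit 7) (node (nat_lit 4) (nat_lit 133978) (nat_lit 8) (node (nat_lit 5)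
  (nat_lit 134791) (nat_lit 9) (node (nat_lit 6) (nat_lit 133719) (nat_lit 10) nil nil) nil) nil)
  (node (nat_lit 0) (nat_lit 132479) (nat_lit 7) nil (node (nat_lit 2) (nat_lit 129024) (nat_lit
  7) (node (nat_lit 6) (nat_lit 127562) (nat_lit 8) (node (nat_lit 4) (nat_lit 122952) (nat_lit 9)
  nil nil) (node (nat_lit 5) (nat_lit 127435) (nat_lit 8) (node (nat_lit 4) (nat_lit 125208)
  (nat_lit 9) nil nil) nil)) nil))))) (node (nat_lit 2) (nat_lit 0) (nat_lit 6) (node (nat_lit 4)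
  (nat_lit 0) (nat_lit 7) (node (nat_lit 9) (nat_lit 119645) (nat_lit 8) (node (nat_lit 6)
  (nat_lit 119645) (nat_lit 9) (node (nat_lit 4) (nat_lit 121182) (nat_lit 10) (node (nat_lit 5)
  (nat_lit 120602) (nat_lit 11) (node (nat_lit 6) (nat_lit 116703) (nat_lit 12) (node (nat_lit 4)
  (nat_lit 114553) (nat_lit 13) (node (nat_lit 6) (nat_lit 103688) (nat_lit 14) (node (nat_lit 9)
  (nat_lit 86690) (nat_lit 15) (node (nat_lit 4) (nat_lit 58757) (nat_lit 16) (node (nat_lit 9)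
  (nat_lit 58460) (nat_lit 17) nil nil) nil) nil) nil) nil) nil) (node (nat_lit 6) (nat_lit
  120383) (nat_lit 11) (node (nat_lit 5) (nat_lit 123840) (nat_lit 12) nil nil) nil)) (node
  (nat_lit 5) (nat_lit 125952) (nat_lit 10) nil nil)) (node (nat_lit 5) (nat_lit 126090) (nat_lit
  9) (node (nat_lit 4) (nat_lit 126090) (nat_lit 10) nil nil) nil)) (node (nat_lit 6) (nat_lit
  119645) (nat_lit 8) (node (nat_lit 5) (nat_lit 126090) (nat_lit 9) nil (node (nat_lit 4)
  (nat_lit 119645) (nat_lit 9) (node (nat_lit 5) (nat_lit 119314) (nat_lit 10) (node (nat_lit 6)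
  (nat_lit 113700) (nat_lit 11) (node (nat_lit 4) (nat_lit 111893) (nat_lit 12) nil nil) nil) nil)
  nil)) (node (nat_lit 5) (nat_lit 125721) (nat_lit 8) nil (node (nat_lit 0) (nat_lit 125721)
  (nat_lit 8) nil nil)))) (node (nat_lit 5) (nat_lit 126915) (nat_lit 7) (node (nat_lit 4)
  (nat_lit 128484) (nat_lit 8) (node (nat_lit 6) (nat_lit 126447) (nat_lit 9) nil (node (nat_lit
  5) (nat_lit 118011) (nat_lit 9) (node (nat_lit 6) (nat_lit 107644) (nat_lit 10) (node (nat_lit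
  4) (nat_lit 70993) (nat_lit 11) (node (nat_lit 6) (nat_lit 57374) (nat_lit 12) nil nil) nil)
  nil) nil)) nil) (node (nat_lit 6) (nat_lit 119645) (nat_lit 7) (node (nat_lit 4) (nat_lit
  119645) (nat_lit 8) (node (nat_lit 5) (nat_lit 110550) (nat_lit 9) (node (nat_lit 6) (nat_lit
  99513) (nat_lit 10) (node (nat_lit 4) (nat_lit 90580) (nat_lit 11) (node (nat_lit 6) (nat_lit
  62294) (nat_lit 12) nil nil) nil) nil) nil) (node (nat_lit 5) (nat_lit 125721) (nat_lit 8) (node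
  (nat_lit 4) (nat_lit 122861) (nat_lit 9) nil nil) nil)) (node (nat_lit 0) (nat_lit 125233)
  (nat_lit 7) (node (nat_lit 6) (nat_lit 125233) (nat_lit 8) nil nil) nil)))) nil))) (node
  (nat_lit 0) (nat_lit 122784) (nat_lit 5) (node (nat_lit 5) (nat_lit 127334) (nat_lit 6) (node
  (nat_lit 4) (nat_lit 125653) (nat_lit 7) (node (nat_lit 5) (nat_lit 127978) (nat_lit 8) (node
  (nat_lit 6) (nat_lit 126673) (nat_lit 9) (node (nat_lit 4) (nat_lit 127894) (nat_lit 10) nil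
  nil) nil) nil) nil) (node (nat_lit 6) (nat_lit 128040) (nat_lit 6) (node (nat_lit 5) (nat_lit
  131572) (nat_lit 7) (node (nat_lit 4) (nat_lit 131526) (nat_lit 8) (node (nat_lit 5) (nat_lit
  126143) (nat_lit 9) (node (nat_lit 6) (nat_lit 112049) (nat_lit 10) (node (nat_lit 4) (nat_lit
  93232) (nat_lit 11) nil nil) nil) nil) nil) (node (nat_lit 4) (nat_lit 131572) (nat_lit 7) (node
  (nat_lit 5) (nat_lit 132641) (nat_lit 8) (node (nat_lit 6) (nat_lit 130464) (nat_lit 9) nil nil)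
  nil) nil)) (node (nat_lit 4) (nat_lit 128156) (nat_lit 6) (node (nat_lit 6) (nat_lit 121673)
  (nat_lit 7) nil nil) nil))) (node (nat_lit 2) (nat_lit 0) (nat_lit 5) (node (nat_lit 5) (nat_lit
  126632) (nat_lit 6) (node (nat_lit 4) (nat_lit 123917) (nat_lit 7) (node (nat_lit 5) (nat_lit
  107532) (nat_lit 8) (node (nat_lit 6) (nat_lit 94355) (nat_lit 9) (node (nat_lit 4) (nat_lit
  70450) (nat_lit 10) nil nil) nil) nil) nil) (node (nat_lit 6) (nat_lit 0) (nat_lit 6) (node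
  (nat_lit 8) (nat_lit 117344) (nat_lit 7) (node (nat_lit 4) (nat_lit 117344) (nat_lit 8) nil nil)
  (node (nat_lit 5) (nat_lit 125465) (nat_lit 7) (node (nat_lit 4) (nat_lit 125465) (nat_lit 8)
  (node (nat_lit 5) (nat_lit 113646) (nat_lit 9) (node (nat_lit 6) (nat_lit 104331) (nat_lit 10)
  (node (nat_lit 4) (nat_lit 89805) (nat_lit 11) nil nil) nil) nil) nil) (node (nat_lit 4)
  (nat_lit 117873) (nat_lit 7) (node (nat_lit 5) (nat_lit 107423) (nat_lit 8) (node (nat_lit 6)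
  (nat_lit 88668) (nat_lit 9) (node (nat_lit 4) (nat_lit 69323) (nat_lit 10) nil nil) nil) (node
  (nat_lit 6) (nat_lit 117873) (nat_lit 8) nil nil)) (node (nat_lit 0) (nat_lit 123359) (nat_lit
  7) nil nil)))) (node (nat_lit 4) (nat_lit 117671) (nat_lit 6) (node (nat_lit 6) (nat_lit 117671)
  (nat_lit 7) (node (nat_lit 4) (nat_lit 117671) (nat_lit 8) (node (nat_lit 5) (nat_lit 109705)
  (nat_lit 9) (node (nat_lit 6) (nat_lit 105727) (nat_lit 10) nil nil) nil) nil) (node (nat_lit 5)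
  (nat_lit 125465) (nat_lit 7) nil nil)) (node (nat_lit 0) (nat_lit 124819) (nat_lit 6) nil
  nil)))) nil)))) (node (nat_lit 5) (nat_lit 0) (nat_lit 4) t169 nil)) (node (nat_lit 4) (nat_lit
  0) (nat_lit 3) (node (nat_lit 3) (nat_lit 0) (nat_lit 4) t170 nil) nil)) (node (nat_lit 3)
  (nat_lit 0) (nat_lit 2) t174 nil)) (node (nat_lit 1) (nat_lit 0) (nat_lit 1) (node (nat_lit 3)
  (nat_lit 0) (nat_lit 2) (node (nat_lit 3) (nat_lit 0) (nat_lit 3) t176 (node (nat_lit 4)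
  (nat_lit 0) (nat_lit 3) (node (nat_lit 3) (nat_lit 0) (nat_lit 4) (node (nat_lit 5) (nat_lit 0)
  (nat_lit 5) t177 (node (nat_lit 4) (nat_lit 0) (nat_lit 5) (node (nat_lit 5) (nat_lit 0)
  (nat_lit 6) (node (nat_lit 0) (nat_lit 72355) (nat_lit 7) (node (nat_lit 5) (nat_lit 72771)
  (nat_lit 8) (node (nat_lit 7) (nat_lit 71059) (nat_lit 9) (node (nat_lit 4) (nat_lit 69466)
  (nat_lit 10) (node (nat_lit 5) (nat_lit 67454) (nat_lit 11) (node (nat_lit 4) (nat_lit 61717)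
  (nat_lit 12) (node (nat_lit 7) (nat_lit 56772) (nat_lit 13) nil nil) nil) nil) nil) nil) (node
  (nat_lit 7) (nat_lit 72771) (nat_lit 8) (node (nat_lit 4) (nat_lit 73390) (nat_lit 9) (node
  (nat_lit 5) (nat_lit 73390) (nat_lit 10) nil nil) nil) nil)) (node (nat_lit 2) (nat_lit 68851)
  (nat_lit 7) (node (nat_lit 5) (nat_lit 68851) (nat_lit 8) (node (nat_lit 7) (nat_lit 68851)
  (nat_lit 9) (node (nat_lit 4) (nat_lit 69466) (nat_lit 10) (node (nat_lit 5) (nat_lit 66722)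
  (nat_lit 11) nil nil) nil) (node (nat_lit 4) (nat_lit 70635) (nat_lit 9) nil nil)) (node
  (nat_lit 4) (nat_lit 71448) (nat_lit 8) nil (node (nat_lit 7) (nat_lit 68851) (nat_lit 8) (node
  (nat_lit 4) (nat_lit 70635) (nat_lit 9) (node (nat_lit 5) (nat_lit 66858) (nat_lit 10) nil nil)
  nil) nil))) (node (nat_lit 7) (nat_lit 0) (nat_lit 7) (node (nat_lit 0) (nat_lit 72099) (nat_lit
  8) nil (node (nat_lit 2) (nat_lit 68655) (nat_lit 8) (node (nat_lit 5) (nat_lit 68655) (nat_lit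
  9) (node (nat_lit 7) (nat_lit 68655) (nat_lit 10) (node (nat_lit 4) (nat_lit 69455) (nat_lit 11)
  nil nil) nil) (node (nat_lit 7) (nat_lit 68655) (nat_lit 9) nil nil)) (node (nat_lit 4) (nat_lit
  69951) (nat_lit 8) (node (nat_lit 7) (nat_lit 72054) (nat_lit 9) nil nil) (node (nat_lit 5)
  (nat_lit 67219) (nat_lit 8) nil nil)))) nil))) (node (nat_lit 0) (nat_lit 0) (nat_lit 6) (node
  (nat_lit 7) (nat_lit 72155) (nat_lit 7) (node (nat_lit 9) (nat_lit 73054) (nat_lit 8) nil (node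
  (nat_lit 5) (nat_lit 70650) (nat_lit 8) (node (nat_lit 7) (nat_lit 71059) (nat_lit 9) (node
  (nat_lit 4) (nat_lit 69466) (nat_lit 10) (node (nat_lit 5) (nat_lit 67454) (nat_lit 11) (node
  (nat_lit 4) (nat_lit 62384) (nat_lit 12) (node (nat_lit 7) (nat_lit 55209) (nat_lit 13) (node
  (nat_lit 4) (nat_lit 45236) (nat_lit 14) nil nil) nil) nil) nil) nil) nil) (node (nat_lit 4)
  (nat_lit 73054) (nat_lit 8) (node (nat_lit 5) (nat_lit 73054) (nat_lit 9) (node (nat_lit 4)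
  (nat_lit 73356) (nat_lit 10) (node (nat_lit 7) (nat_lit 73356) (nat_lit 11) (node (nat_lit 4)
  (nat_lit 73473) (nat_lit 12) nil nil) nil) nil) nil) nil))) (node (nat_lit 5) (nat_lit 0)
  (nat_lit 7) (node (nat_lit 7) (nat_lit 72155) (nat_lit 8) (node (nat_lit 4) (nat_lit 73014)
  (nat_lit 9) (node (nat_lit 5) (nat_lit 70028) (nat_lit 10) (node (nat_lit 4) (nat_lit 54282)
  (nat_lit 11) (node (nat_lit 7) (nat_lit 43672) (nat_lit 12) nil nil) nil) nil) nil) (node
  (nat_lit 9) (nat_lit 73054) (nat_lit 8) (node (nat_lit 7) (nat_lit 73054) (nat_lit 9) (node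
  (nat_lit 4) (nat_lit 73356) (nat_lit 10) (node (nat_lit 5) (nat_lit 73356) (nat_lit 11) nil nil)
  nil) nil) (node (nat_lit 4) (nat_lit 73054) (nat_lit 8) (node (nat_lit 7) (nat_lit 73054)
  (nat_lit 9) nil nil) (node (nat_lit 0) (nat_lit 73054) (nat_lit 8) nil (node (nat_lit 2)
  (nat_lit 70650) (nat_lit 8) nil nil))))) (node (nat_lit 4) (nat_lit 72355) (nat_lit 7) (node
  (nat_lit 7) (nat_lit 72852) (nat_lit 8) (node (nat_lit 4) (nat_lit 73301) (nat_lit 9) (node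
  (nat_lit 5) (nat_lit 73301) (nat_lit 10) (node (nat_lit 4) (nat_lit 73473) (nat_lit 11) (node
  (nat_lit 7) (nat_lit 73473) (nat_lit 12) nil nil) nil) nil) nil) nil) (node (nat_lit 0) (nat_lit
  72355) (nat_lit 7) (node (nat_lit 7) (nat_lit 72852) (nat_lit 8) (node (nat_lit 4) (nat_lit
  73301) (nat_lit 9) nil nil) nil) (node (nat_lit 2) (nat_lit 0) (nat_lit 7) (node (nat_lit 9)
  (nat_lit 73054) (nat_lit 8) (node (nat_lit 7) (nat_lit 73054) (nat_lit 9) (node (nat_lit 4)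
  (nat_lit 73356) (nat_lit 10) nil nil) nil) (node (nat_lit 4) (nat_lit 73054) (nat_lit 8) (node
  (nat_lit 7) (nat_lit 73054) (nat_lit 9) nil nil) (node (nat_lit 7) (nat_lit 68330) (nat_lit 8)
  (node (nat_lit 4) (nat_lit 65740) (nat_lit 9) nil nil) (node (nat_lit 5) (nat_lit 70650)
  (nat_lit 8) (node (nat_lit 7) (nat_lit 71059) (nat_lit 9) nil nil) (node (nat_lit 0) (nat_lit
  73054) (nat_lit 8) nil nil))))) nil))))) (node (nat_lit 2) (nat_lit 0) (nat_lit 6) (node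
  (nat_lit 7) (nat_lit 0) (nat_lit 7) (node (nat_lit 9) (nat_lit 0) (nat_lit 8) (node (nat_lit 4)
  (nat_lit 72171) (nat_lit 9) (node (nat_lit 7) (nat_lit 72171) (nat_lit 10) (node (nat_lit 4)
  (nat_lit 72438) (nat_lit 11) (node (nat_lit 5) (nat_lit 72438) (nat_lit 12) (node (nat_lit 4)
  (nat_lit 72602) (nat_lit 13) (node (nat_lit 7) (nat_lit 72602) (nat_lit 14) nil nil) nil) nil)
  nil) (node (nat_lit 9) (nat_lit 72171) (nat_lit 10) (node (nat_lit 7) (nat_lit 72171) (nat_lit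
  11) nil nil) (node (nat_lit 5) (nat_lit 72171) (nat_lit 10) (node (nat_lit 7) (nat_lit 72171)
  (nat_lit 11) nil nil) nil))) (node (nat_lit 5) (nat_lit 69887) (nat_lit 9) (node (nat_lit 7)
  (nat_lit 69887) (nat_lit 10) (node (nat_lit 4) (nat_lit 71837) (nat_lit 11) nil nil) nil) (node
  (nat_lit 0) (nat_lit 71671) (nat_lit 9) nil nil))) (node (nat_lit 5) (nat_lit 69887) (nat_lit 8)
  (node (nat_lit 7) (nat_lit 68152) (nat_lit 9) (node (nat_lit 4) (nat_lit 68126) (nat_lit 10)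
  (node (nat_lit 5) (nat_lit 64942) (nat_lit 11) (node (nat_lit 4) (nat_lit 58634) (nat_lit 12)
  (node (nat_lit 7) (nat_lit 50899) (nat_lit 13) (node (nat_lit 4) (nat_lit 43411) (nat_lit 14)
  nil nil) nil) nil) nil) nil) (node (nat_lit 9) (nat_lit 69765) (nat_lit 9) nil nil)) (node
  (nat_lit 4) (nat_lit 71977) (nat_lit 8) (node (nat_lit 5) (nat_lit 61072) (nat_lit 9) (node
  (nat_lit 4) (nat_lit 42279) (nat_lit 10) (node (nat_lit 7) (nat_lit 26529) (nat_lit 11) nil nil)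
  nil) (node (nat_lit 7) (nat_lit 71977) (nat_lit 9) nil nil)) (node (nat_lit 0) (nat_lit 71977)
  (nat_lit 8) (node (nat_lit 7) (nat_lit 71977) (nat_lit 9) nil nil) nil)))) (node (nat_lit 5)
  (nat_lit 0) (nat_lit 7) (node (nat_lit 7) (nat_lit 69412) (nat_lit 8) (node (nat_lit 4) (nat_lit
  70573) (nat_lit 9) (node (nat_lit 5) (nat_lit 64993) (nat_lit 10) (node (nat_lit 4) (nat_lit
  44495) (nat_lit 11) (node (nat_lit 7) (nat_lit 33454) (nat_lit 12) nil nil) nil) nil) (node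
  (nat_lit 5) (nat_lit 69412) (nat_lit 9) nil (node (nat_lit 9) (nat_lit 69412) (nat_lit 9) (node
  (nat_lit 7) (nat_lit 69412) (nat_lit 10) nil nil) nil))) (node (nat_lit 9) (nat_lit 69412)
  (nat_lit 8) (node (nat_lit 4) (nat_lit 71196) (nat_lit 9) (node (nat_lit 7) (nat_lit 71196)
  (nat_lit 10) nil nil) (node (nat_lit 7) (nat_lit 69412) (nat_lit 9) (node (nat_lit 4) (nat_lit
  69466) (nat_lit 10) (node (nat_lit 5) (nat_lit 67454) (nat_lit 11) nil nil) nil) nil)) (node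
  (nat_lit 4) (nat_lit 71977) (nat_lit 8) (node (nat_lit 5) (nat_lit 71977) (nat_lit 9) (node
  (nat_lit 7) (nat_lit 71977) (nat_lit 10) (node (nat_lit 4) (nat_lit 71876) (nat_lit 11) nil nil)
  nil) (node (nat_lit 7) (nat_lit 71977) (nat_lit 9) nil nil)) (node (nat_lit 0) (nat_lit 70982)
  (nat_lit 8) nil nil)))) (node (nat_lit 4) (nat_lit 72355) (nat_lit 7) (node (nat_lit 7) (nat_lit
  72675) (nat_lit 8) (node (nat_lit 4) (nat_lit 73125) (nat_lit 9) (node (nat_lit 5) (nat_lit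
  73125) (nat_lit 10) (node (nat_lit 4) (nat_lit 73393) (nat_lit 11) (node (nat_lit 7) (nat_lit
  73393) (nat_lit 12) nil nil) nil) nil) nil) (node (nat_lit 5) (nat_lit 70650) (nat_lit 8) (node
  (nat_lit 7) (nat_lit 71059) (nat_lit 9) (node (nat_lit 4) (nat_lit 69466) (nat_lit 10) nil nil)
  nil) nil)) (node (nat_lit 0) (nat_lit 72355) (nat_lit 7) (node (nat_lit 9) (nat_lit 70650)
  (nat_lit 8) (node (nat_lit 7) (nat_lit 71059) (nat_lit 9) nil (node (nat_lit 5) (nat_lit 68527)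
  (nat_lit 9) (node (nat_lit 7) (nat_lit 68577) (nat_lit 10) nil nil) nil)) (node (nat_lit 7)
  (nat_lit 72675) (nat_lit 8) (node (nat_lit 4) (nat_lit 73125) (nat_lit 9) nil nil) nil)) nil))))
  nil))) (node (nat_lit 0) (nat_lit 0) (nat_lit 5) (node (nat_lit 5) (nat_lit 69944) (nat_lit 6)
  (node (nat_lit 8) (nat_lit 70733) (nat_lit 7) (node (nat_lit 7) (nat_lit 70733) (nat_lit 8)
  (node (nat_lit 4) (nat_lit 71033) (nat_lit 9) (node (nat_lit 5) (nat_lit 71033) (nat_lit 10)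
  (node (nat_lit 4) (nat_lit 71198) (nat_lit 11) (node (nat_lit 7) (nat_lit 71198) (nat_lit 12)
  nil nil) nil) nil) nil) nil) (node (nat_lit 7) (nat_lit 69944) (nat_lit 7) (node (nat_lit 4)
  (nat_lit 67532) (nat_lit 8) (node (nat_lit 5) (nat_lit 62176) (nat_lit 9) (node (nat_lit 4)
  (nat_lit 50008) (nat_lit 10) (node (nat_lit 7) (nat_lit 32576) (nat_lit 11) nil nil) nil) nil)
  nil) (node (nat_lit 4) (nat_lit 70733) (nat_lit 7) (node (nat_lit 7) (nat_lit 70733) (nat_lit 8)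
  (node (nat_lit 4) (nat_lit 71033) (nat_lit 9) (node (nat_lit 5) (nat_lit 71033) (nat_lit 10) nil
  nil) nil) nil) nil))) (node (nat_lit 4) (nat_lit 71533) (nat_lit 6) (node (nat_lit 8) (nat_lit
  71871) (nat_lit 7) (node (nat_lit 7) (nat_lit 71871) (nat_lit 8) (node (nat_lit 4) (nat_lit
  72317) (nat_lit 9) (node (nat_lit 5) (nat_lit 72317) (nat_lit 10) (node (nat_lit 4) (nat_lit
  72585) (nat_lit 11) nil nil) nil) nil) nil) (node (nat_lit 5) (nat_lit 71533) (nat_lit 7) (node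
  (nat_lit 7) (nat_lit 71533) (nat_lit 8) (node (nat_lit 4) (nat_lit 66927) (nat_lit 9) (node
  (nat_lit 5) (nat_lit 55672) (nat_lit 10) nil nil) nil) nil) (node (nat_lit 7) (nat_lit 71533)
  (nat_lit 7) (node (nat_lit 4) (nat_lit 72125) (nat_lit 8) (node (nat_lit 5) (nat_lit 72125)
  (nat_lit 9) (node (nat_lit 4) (nat_lit 72468) (nat_lit 10) (node (nat_lit 7) (nat_lit 72468)
  (nat_lit 11) nil nil) nil) nil) nil) nil))) (node (nat_lit 7) (nat_lit 69944) (nat_lit 6) (node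
  (nat_lit 4) (nat_lit 70733) (nat_lit 7) (node (nat_lit 5) (nat_lit 70733) (nat_lit 8) (node
  (nat_lit 4) (nat_lit 71033) (nat_lit 9) (node (nat_lit 7) (nat_lit 71033) (nat_lit 10) nil nil)
  nil) nil) nil) (node (nat_lit 0) (nat_lit 71533) (nat_lit 6) (node (nat_lit 5) (nat_lit 68631)
  (nat_lit 7) (node (nat_lit 7) (nat_lit 68523) (nat_lit 8) nil nil) (node (nat_lit 4) (nat_lit
  71871) (nat_lit 7) nil (node (nat_lit 7) (nat_lit 71533) (nat_lit 7) (node (nat_lit 4) (nat_lit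
  72125) (nat_lit 8) (node (nat_lit 5) (nat_lit 72125) (nat_lit 9) nil nil) nil) nil))) (node
  (nat_lit 2) (nat_lit 69944) (nat_lit 6) (node (nat_lit 4) (nat_lit 70733) (nat_lit 7) (node
  (nat_lit 7) (nat_lit 70733) (nat_lit 8) nil nil) (node (nat_lit 7) (nat_lit 69944) (nat_lit 7)
  (node (nat_lit 4) (nat_lit 69137) (nat_lit 8) (node (nat_lit 5) (nat_lit 59300) (nat_lit 9)
  (node (nat_lit 4) (nat_lit 40248) (nat_lit 10) nil nil) nil) nil) nil)) nil))))) (node (nat_lit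
  2) (nat_lit 0) (nat_lit 5) (node (nat_lit 5) (nat_lit 0) (nat_lit 6) (node (nat_lit 8) (nat_lit
  63231) (nat_lit 7) (node (nat_lit 7) (nat_lit 63231) (nat_lit 8) (node (nat_lit 4) (nat_lit
  65124) (nat_lit 9) (node (nat_lit 5) (nat_lit 57472) (nat_lit 10) (node (nat_lit 4) (nat_lit
  49433) (nat_lit 11) (node (nat_lit 7) (nat_lit 41354) (nat_lit 12) nil nil) nil) nil) nil) (node
  (nat_lit 4) (nat_lit 67812) (nat_lit 8) (node (nat_lit 7) (nat_lit 67812) (nat_lit 9) nil (node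
  (nat_lit 5) (nat_lit 67542) (nat_lit 9) (node (nat_lit 7) (nat_lit 67589) (nat_lit 10) nil nil)
  nil)) nil)) (node (nat_lit 7) (nat_lit 63231) (nat_lit 7) (node (nat_lit 4) (nat_lit 62184)
  (nat_lit 8) (node (nat_lit 5) (nat_lit 54143) (nat_lit 9) (node (nat_lit 4) (nat_lit 39737)
  (nat_lit 10) (node (nat_lit 7) (nat_lit 33668) (nat_lit 11) nil nil) (node (nat_lit 7) (nat_lit
  54143) (nat_lit 10) nil nil)) nil) (node (nat_lit 8) (nat_lit 63231) (nat_lit 8) (node (nat_lit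
  7) (nat_lit 63231) (nat_lit 9) nil nil) (node (nat_lit 5) (nat_lit 63231) (nat_lit 8) nil nil)))
  (node (nat_lit 4) (nat_lit 69670) (nat_lit 7) (node (nat_lit 7) (nat_lit 69670) (nat_lit 8)
  (node (nat_lit 4) (nat_lit 70116) (nat_lit 9) (node (nat_lit 5) (nat_lit 70116) (nat_lit 10)
  (node (nat_lit 4) (nat_lit 70384) (nat_lit 11) nil nil) nil) nil) nil) (node (nat_lit 0)
  (nat_lit 68001) (nat_lit 7) nil nil)))) (node (nat_lit 4) (nat_lit 70926) (nat_lit 6) (node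
  (nat_lit 8) (nat_lit 70926) (nat_lit 7) (node (nat_lit 7) (nat_lit 70926) (nat_lit 8) (node
  (nat_lit 4) (nat_lit 71711) (nat_lit 9) (node (nat_lit 5) (nat_lit 67486) (nat_lit 10) (node
  (nat_lit 4) (nat_lit 61078) (nat_lit 11) (node (nat_lit 7) (nat_lit 38054) (nat_lit 12) nil nil)
  nil) nil) nil) (node (nat_lit 5) (nat_lit 70926) (nat_lit 8) (node (nat_lit 7) (nat_lit 70926)
  (nat_lit 9) nil nil) nil)) (node (nat_lit 5) (nat_lit 70926) (nat_lit 7) (node (nat_lit 7)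
  (nat_lit 68523) (nat_lit 8) (node (nat_lit 4) (nat_lit 65124) (nat_lit 9) (node (nat_lit 5)
  (nat_lit 61320) (nat_lit 10) (node (nat_lit 4) (nat_lit 54292) (nat_lit 11) (node (nat_lit 7)
  (nat_lit 43249) (nat_lit 12) nil nil) nil) nil) nil) nil) (node (nat_lit 7) (nat_lit 70926)
  (nat_lit 7) (node (nat_lit 5) (nat_lit 70926) (nat_lit 8) (node (nat_lit 4) (nat_lit 71711)
  (nat_lit 9) (node (nat_lit 7) (nat_lit 71711) (nat_lit 10) nil nil) nil) (node (nat_lit 4)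
  (nat_lit 71519) (nat_lit 8) (node (nat_lit 5) (nat_lit 71519) (nat_lit 9) (node (nat_lit 4)
  (nat_lit 71861) (nat_lit 10) (node (nat_lit 7) (nat_lit 71861) (nat_lit 11) nil nil) nil) nil)
  nil)) nil))) (node (nat_lit 7) (nat_lit 0) (nat_lit 6) (node (nat_lit 4) (nat_lit 69491)
  (nat_lit 7) (node (nat_lit 5) (nat_lit 47962) (nat_lit 8) (node (nat_lit 4) (nat_lit 28993)
  (nat_lit 9) nil nil) (node (nat_lit 8) (nat_lit 69670) (nat_lit 8) nil nil)) (node (nat_lit 5)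
  (nat_lit 63052) (nat_lit 7) (node (nat_lit 4) (nat_lit 65602) (nat_lit 8) nil (node (nat_lit 7)
  (nat_lit 63231) (nat_lit 8) (node (nat_lit 4) (nat_lit 65124) (nat_lit 9) nil nil) nil)) (node
  (nat_lit 0) (nat_lit 68001) (nat_lit 7) nil nil))) (node (nat_lit 0) (nat_lit 70299) (nat_lit 6)
  (node (nat_lit 5) (nat_lit 70299) (nat_lit 7) (node (nat_lit 7) (nat_lit 68411) (nat_lit 8) nil
  nil) (node (nat_lit 4) (nat_lit 70637) (nat_lit 7) (node (nat_lit 7) (nat_lit 70637) (nat_lit 8)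
  nil nil) (node (nat_lit 7) (nat_lit 70299) (nat_lit 7) (node (nat_lit 4) (nat_lit 70892)
  (nat_lit 8) (node (nat_lit 5) (nat_lit 70892) (nat_lit 9) nil nil) nil) nil))) nil)))) nil))))
  nil) nil)) nil) nil))

noncomputable def c40 : Tr :=
  t178

noncomputable def t179 : Tr :=
  (node (nat_lit 4) (nat_lit 51692) (nat_lit 5) (node (nat_lit 6) (nat_lit 59305) (nat_lit 6)
  (node (nat_lit 5) (nat_lit 64239) (nat_lit 7) (node (nat_lit 6) (nat_lit 68107) (nat_lit 8)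
  (node (nat_lit 4) (nat_lit 70139) (nat_lit 9) (node (nat_lit 5) (nat_lit 71035) (nat_lit 10)
  (node (nat_lit 4) (nat_lit 71735) (nat_lit 11) (node (nat_lit 6) (nat_lit 72280) (nat_lit 12)
  (node (nat_lit 4) (nat_lit 72706) (nat_lit 13) nil nil) (node (nat_lit 3) (nat_lit 71167)
  (nat_lit 12) nil nil)) (node (nat_lit 6) (nat_lit 71735) (nat_lit 11) (node (nat_lit 5) (nat_lit
  72280) (nat_lit 12) nil nil) (node (nat_lit 3) (nat_lit 70299) (nat_lit 11) (node (nat_lit 4)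
  (nat_lit 70845) (nat_lit 12) nil nil) nil))) (node (nat_lit 6) (nat_lit 71035) (nat_lit 10)
  (node (nat_lit 5) (nat_lit 71735) (nat_lit 11) (node (nat_lit 4) (nat_lit 72280) (nat_lit 12)
  nil (node (nat_lit 3) (nat_lit 71167) (nat_lit 12) nil nil)) (node (nat_lit 3) (nat_lit 70299)
  (nat_lit 11) nil (node (nat_lit 0) (nat_lit 71735) (nat_lit 11) nil nil))) (node (nat_lit 3)
  (nat_lit 69246) (nat_lit 10) (node (nat_lit 4) (nat_lit 69945) (nat_lit 11) (node (nat_lit 5)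
  (nat_lit 70491) (nat_lit 12) (node (nat_lit 6) (nat_lit 69715) (nat_lit 13) (node (nat_lit 5)
  (nat_lit 66233) (nat_lit 14) (node (nat_lit 4) (nat_lit 57957) (nat_lit 15) (node (nat_lit 6)
  (nat_lit 32605) (nat_lit 16) nil nil) nil) nil) nil) nil) (node (nat_lit 5) (nat_lit 69178)
  (nat_lit 11) nil nil)) (node (nat_lit 0) (nat_lit 71035) (nat_lit 10) nil nil)))) (node (nat_lit
  3) (nat_lit 67145) (nat_lit 9) (node (nat_lit 5) (nat_lit 67135) (nat_lit 10) (node (nat_lit 4)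
  (nat_lit 67155) (nat_lit 11) (node (nat_lit 5) (nat_lit 65139) (nat_lit 12) (node (nat_lit 6)
  (nat_lit 63511) (nat_lit 13) nil nil) nil) nil) (node (nat_lit 4) (nat_lit 68041) (nat_lit 10)
  nil (node (nat_lit 6) (nat_lit 68041) (nat_lit 10) nil (node (nat_lit 0) (nat_lit 68041)
  (nat_lit 10) nil nil)))) (node (nat_lit 0) (nat_lit 69338) (nat_lit 9) nil nil))) (node (nat_lit
  3) (nat_lit 68353) (nat_lit 8) (node (nat_lit 5) (nat_lit 67719) (nat_lit 9) (node (nat_lit 4)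
  (nat_lit 67013) (nat_lit 10) (node (nat_lit 5) (nat_lit 64822) (nat_lit 11) (node (nat_lit 6)
  (nat_lit 61658) (nat_lit 12) nil (node (nat_lit 11) (nat_lit 64050) (nat_lit 12) (node (nat_lit
  4) (nat_lit 64308) (nat_lit 13) nil nil) nil)) (node (nat_lit 11) (nat_lit 67364) (nat_lit 11)
  nil nil)) (node (nat_lit 6) (nat_lit 68117) (nat_lit 10) (node (nat_lit 11) (nat_lit 67109)
  (nat_lit 11) nil nil) (node (nat_lit 0) (nat_lit 68117) (nat_lit 10) nil nil))) (node (nat_lit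
  4) (nat_lit 68131) (nat_lit 9) (node (nat_lit 11) (nat_lit 67359) (nat_lit 10) nil (node
  (nat_lit 5) (nat_lit 62709) (nat_lit 10) (node (nat_lit 6) (nat_lit 62988) (nat_lit 11) (node
  (nat_lit 5) (nat_lit 47667) (nat_lit 12) (node (nat_lit 4) (nat_lit 37495) (nat_lit 13) nil nil)
  nil) nil) nil)) (node (nat_lit 6) (nat_lit 69056) (nat_lit 9) (node (nat_lit 11) (nat_lit 67789)
  (nat_lit 10) nil nil) (node (nat_lit 0) (nat_lit 69056) (nat_lit 9) nil nil)))) (node (nat_lit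
  0) (nat_lit 70713) (nat_lit 8) (node (nat_lit 5) (nat_lit 71416) (nat_lit 9) (node (nat_lit 3)
  (nat_lit 68860) (nat_lit 10) nil nil) (node (nat_lit 6) (nat_lit 71416) (nat_lit 9) nil (node
  (nat_lit 4) (nat_lit 71183) (nat_lit 9) nil (node (nat_lit 3) (nat_lit 69350) (nat_lit 9) (node
  (nat_lit 5) (nat_lit 68714) (nat_lit 10) nil nil) nil)))) nil))) (node (nat_lit 4) (nat_lit
  65195) (nat_lit 7) (node (nat_lit 5) (nat_lit 68818) (nat_lit 8) (node (nat_lit 6) (nat_lit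
  70048) (nat_lit 9) (node (nat_lit 4) (nat_lit 70945) (nat_lit 10) (node (nat_lit 6) (nat_lit
  71644) (nat_lit 11) (node (nat_lit 5) (nat_lit 72189) (nat_lit 12) nil nil) nil) nil) (node
  (nat_lit 4) (nat_lit 70048) (nat_lit 9) nil (node (nat_lit 3) (nat_lit 66906) (nat_lit 9) (node
  (nat_lit 4) (nat_lit 67529) (nat_lit 10) (node (nat_lit 5) (nat_lit 65790) (nat_lit 11) (node
  (nat_lit 6) (nat_lit 63749) (nat_lit 12) (node (nat_lit 5) (nat_lit 57962) (nat_lit 13) (node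
  (nat_lit 4) (nat_lit 48247) (nat_lit 14) (node (nat_lit 6) (nat_lit 37255) (nat_lit 15) nil nil)
  nil) nil) nil) nil) (node (nat_lit 5) (nat_lit 67392) (nat_lit 10) nil nil)) nil))) (node
  (nat_lit 3) (nat_lit 68586) (nat_lit 8) (node (nat_lit 4) (nat_lit 63008) (nat_lit 9) (node
  (nat_lit 5) (nat_lit 59749) (nat_lit 10) (node (nat_lit 6) (nat_lit 55927) (nat_lit 11) (node
  (nat_lit 5) (nat_lit 39820) (nat_lit 12) nil nil) nil) nil) (node (nat_lit 6) (nat_lit 69342)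
  (nat_lit 9) nil nil)) (node (nat_lit 0) (nat_lit 67931) (nat_lit 8) nil nil))) (node (nat_lit 3)
  (nat_lit 65998) (nat_lit 7) (node (nat_lit 4) (nat_lit 67442) (nat_lit 8) nil (node (nat_lit 5)
  (nat_lit 65561) (nat_lit 8) (node (nat_lit 4) (nat_lit 63910) (nat_lit 9) (node (nat_lit 5)
  (nat_lit 60155) (nat_lit 10) (node (nat_lit 6) (nat_lit 55014) (nat_lit 11) (node (nat_lit 5)
  (nat_lit 49212) (nat_lit 12) (node (nat_lit 4) (nat_lit 42558) (nat_lit 13) nil nil) nil) nil)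
  nil) nil) (node (nat_lit 6) (nat_lit 67442) (nat_lit 8) (node (nat_lit 5) (nat_lit 68146)
  (nat_lit 9) nil nil) nil))) (node (nat_lit 0) (nat_lit 66508) (nat_lit 7) (node (nat_lit 5)
  (nat_lit 65819) (nat_lit 8) nil (node (nat_lit 0) (nat_lit 68852) (nat_lit 8) nil nil)) nil))))
  (node (nat_lit 5) (nat_lit 59335) (nat_lit 6) (node (nat_lit 6) (nat_lit 37344) (nat_lit 7)
  (node (nat_lit 4) (nat_lit 45155) (nat_lit 8) (node (nat_lit 6) (nat_lit 48854) (nat_lit 9)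
  (node (nat_lit 5) (nat_lit 48955) (nat_lit 10) (node (nat_lit 4) (nat_lit 48065) (nat_lit 11)
  (node (nat_lit 6) (nat_lit 48375) (nat_lit 12) (node (nat_lit 4) (nat_lit 47858) (nat_lit 13)
  (node (nat_lit 5) (nat_lit 47467) (nat_lit 14) nil (node (nat_lit 3) (nat_lit 47804) (nat_lit
  14) nil nil)) nil) (node (nat_lit 5) (nat_lit 47385) (nat_lit 12) (node (nat_lit 3) (nat_lit
  47313) (nat_lit 13) (node (nat_lit 5) (nat_lit 47510) (nat_lit 14) nil nil) nil) (node (nat_lit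
  3) (nat_lit 47971) (nat_lit 12) nil (node (nat_lit 0) (nat_lit 48375) (nat_lit 12) nil nil))))
  nil) nil) (node (nat_lit 5) (nat_lit 48202) (nat_lit 9) (node (nat_lit 4) (nat_lit 47079)
  (nat_lit 10) (node (nat_lit 6) (nat_lit 47422) (nat_lit 11) (node (nat_lit 5) (nat_lit 46743)
  (nat_lit 12) nil nil) nil) (node (nat_lit 3) (nat_lit 48035) (nat_lit 10) (node (nat_lit 4)
  (nat_lit 48084) (nat_lit 11) nil nil) nil)) (node (nat_lit 3) (nat_lit 46737) (nat_lit 9) (node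
  (nat_lit 4) (nat_lit 44603) (nat_lit 10) nil (node (nat_lit 5) (nat_lit 45307) (nat_lit 10) nil
  nil)) (node (nat_lit 0) (nat_lit 49152) (nat_lit 9) nil nil)))) (node (nat_lit 3) (nat_lit
  48192) (nat_lit 8) nil (node (nat_lit 0) (nat_lit 48192) (nat_lit 8) nil nil))) (node (nat_lit
  3) (nat_lit 64432) (nat_lit 7) (node (nat_lit 4) (nat_lit 65875) (nat_lit 8) (node (nat_lit 5)
  (nat_lit 60912) (nat_lit 9) (node (nat_lit 6) (nat_lit 48728) (nat_lit 10) (node (nat_lit 5)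
  (nat_lit 29724) (nat_lit 11) nil nil) nil) nil) (node (nat_lit 5) (nat_lit 63994) (nat_lit 8)
  nil nil)) (node (nat_lit 0) (nat_lit 65361) (nat_lit 7) nil nil))) (node (nat_lit 3) (nat_lit
  65850) (nat_lit 6) (node (nat_lit 5) (nat_lit 68433) (nat_lit 7) (node (nat_lit 9) (nat_lit
  69469) (nat_lit 8) (node (nat_lit 4) (nat_lit 70179) (nat_lit 9) (node (nat_lit 5) (nat_lit
  67784) (nat_lit 10) (node (nat_lit 6) (nat_lit 55520) (nat_lit 11) (node (nat_lit 5) (nat_lit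
  42274) (nat_lit 12) (node (nat_lit 4) (nat_lit 22645) (nat_lit 13) nil nil) nil) nil) nil) nil)
  (node (nat_lit 4) (nat_lit 66520) (nat_lit 8) (node (nat_lit 5) (nat_lit 59062) (nat_lit 9)
  (node (nat_lit 9) (nat_lit 57794) (nat_lit 10) nil (node (nat_lit 6) (nat_lit 49469) (nat_lit
  10) (node (nat_lit 5) (nat_lit 47165) (nat_lit 11) nil nil) nil)) (node (nat_lit 6) (nat_lit
  67231) (nat_lit 9) nil nil)) (node (nat_lit 6) (nat_lit 69469) (nat_lit 8) (node (nat_lit 4)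
  (nat_lit 70179) (nat_lit 9) (node (nat_lit 5) (nat_lit 70476) (nat_lit 10) nil nil) (node
  (nat_lit 9) (nat_lit 68558) (nat_lit 9) (node (nat_lit 6) (nat_lit 68870) (nat_lit 10) nil (node
  (nat_lit 4) (nat_lit 68870) (nat_lit 10) nil (node (nat_lit 5) (nat_lit 68329) (nat_lit 10) nil
  nil))) (node (nat_lit 0) (nat_lit 70179) (nat_lit 9) nil nil))) (node (nat_lit 0) (nat_lit
  69469) (nat_lit 8) (node (nat_lit 4) (nat_lit 70179) (nat_lit 9) nil (node (nat_lit 9) (nat_lit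
  68558) (nat_lit 9) nil (node (nat_lit 5) (nat_lit 70179) (nat_lit 9) nil (node (nat_lit 0)
  (nat_lit 70179) (nat_lit 9) nil nil)))) nil)))) (node (nat_lit 4) (nat_lit 65321) (nat_lit 7)
  (node (nat_lit 5) (nat_lit 63375) (nat_lit 8) (node (nat_lit 9) (nat_lit 62664) (nat_lit 9) nil
  (node (nat_lit 6) (nat_lit 49326) (nat_lit 9) (node (nat_lit 5) (nat_lit 22391) (nat_lit 10)
  (node (nat_lit 4) (nat_lit 22057) (nat_lit 11) nil nil) (node (nat_lit 4) (nat_lit 47896)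
  (nat_lit 10) nil nil)) nil)) (node (nat_lit 6) (nat_lit 66035) (nat_lit 8) (node (nat_lit 4)
  (nat_lit 64999) (nat_lit 9) nil (node (nat_lit 5) (nat_lit 64999) (nat_lit 9) nil (node (nat_lit
  9) (nat_lit 65324) (nat_lit 9) nil nil))) (node (nat_lit 0) (nat_lit 67666) (nat_lit 8) nil
  nil))) (node (nat_lit 6) (nat_lit 68433) (nat_lit 7) (node (nat_lit 4) (nat_lit 68818) (nat_lit
  8) nil (node (nat_lit 9) (nat_lit 67466) (nat_lit 8) (node (nat_lit 4) (nat_lit 68169) (nat_lit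
  9) nil nil) nil)) (node (nat_lit 0) (nat_lit 68644) (nat_lit 7) (node (nat_lit 4) (nat_lit
  68782) (nat_lit 8) (node (nat_lit 9) (nat_lit 67297) (nat_lit 9) nil nil) (node (nat_lit 9)
  (nat_lit 67466) (nat_lit 8) (node (nat_lit 5) (nat_lit 66971) (nat_lit 9) nil nil) (node
  (nat_lit 5) (nat_lit 68782) (nat_lit 8) nil nil))) nil)))) (node (nat_lit 0) (nat_lit 66791)
  (nat_lit 6) (node (nat_lit 5) (nat_lit 68644) (nat_lit 7) (node (nat_lit 4) (nat_lit 70048)
  (nat_lit 8) nil nil) (node (nat_lit 4) (nat_lit 68644) (nat_lit 7) (node (nat_lit 5) (nat_lit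
  70048) (nat_lit 8) nil (node (nat_lit 3) (nat_lit 67466) (nat_lit 8) nil nil)) (node (nat_lit 6)
  (nat_lit 68644) (nat_lit 7) nil (node (nat_lit 3) (nat_lit 65111) (nat_lit 7) nil (node (nat_lit
  0) (nat_lit 68644) (nat_lit 7) nil nil))))) nil)))) (node (nat_lit 3) (nat_lit 53295) (nat_lit
  5) (node (nat_lit 4) (nat_lit 59958) (nat_lit 6) (node (nat_lit 5) (nat_lit 48343) (nat_lit 7)
  (node (nat_lit 4) (nat_lit 49781) (nat_lit 8) (node (nat_lit 8) (nat_lit 50254) (nat_lit 9)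
  (node (nat_lit 5) (nat_lit 50983) (nat_lit 10) (node (nat_lit 4) (nat_lit 50431) (nat_lit 11)
  nil (node (nat_lit 8) (nat_lit 51632) (nat_lit 11) nil nil)) (node (nat_lit 4) (nat_lit 49492)
  (nat_lit 10) (node (nat_lit 5) (nat_lit 47279) (nat_lit 11) (node (nat_lit 6) (nat_lit 40941)
  (nat_lit 12) nil nil) nil) (node (nat_lit 6) (nat_lit 50750) (nat_lit 10) nil nil))) (node
  (nat_lit 6) (nat_lit 50864) (nat_lit 9) (node (nat_lit 5) (nat_lit 51594) (nat_lit 10) nil (node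
  (nat_lit 8) (nat_lit 51360) (nat_lit 10) nil nil)) (node (nat_lit 0) (nat_lit 50434) (nat_lit 9)
  nil nil))) (node (nat_lit 8) (nat_lit 49034) (nat_lit 8) (node (nat_lit 5) (nat_lit 49951)
  (nat_lit 9) (node (nat_lit 4) (nat_lit 50680) (nat_lit 10) (node (nat_lit 5) (nat_lit 49545)
  (nat_lit 11) (node (nat_lit 6) (nat_lit 49940) (nat_lit 12) (node (nat_lit 5) (nat_lit 43675)
  (nat_lit 13) (node (nat_lit 8) (nat_lit 29272) (nat_lit 14) (node (nat_lit 4) (nat_lit 19613)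
  (nat_lit 15) nil nil) nil) nil) nil) nil) (node (nat_lit 6) (nat_lit 50447) (nat_lit 10) nil
  nil)) (node (nat_lit 6) (nat_lit 48843) (nat_lit 9) (node (nat_lit 4) (nat_lit 47413) (nat_lit
  10) nil nil) (node (nat_lit 0) (nat_lit 49686) (nat_lit 9) nil nil))) (node (nat_lit 6) (nat_lit
  29724) (nat_lit 8) (node (nat_lit 4) (nat_lit 29724) (nat_lit 9) (node (nat_lit 6) (nat_lit
  29724) (nat_lit 10) (node (nat_lit 5) (nat_lit 29724) (nat_lit 11) nil (node (nat_lit 8)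
  (nat_lit 29724) (nat_lit 11) nil nil)) (node (nat_lit 8) (nat_lit 29724) (nat_lit 10) (node
  (nat_lit 4) (nat_lit 29724) (nat_lit 11) nil nil) (node (nat_lit 5) (nat_lit 29724) (nat_lit 10)
  nil nil))) (node (nat_lit 8) (nat_lit 29724) (nat_lit 9) (node (nat_lit 5) (nat_lit 29724)
  (nat_lit 10) (node (nat_lit 8) (nat_lit 29724) (nat_lit 11) nil (node (nat_lit 4) (nat_lit
  29724) (nat_lit 11) nil nil)) nil) (node (nat_lit 5) (nat_lit 20282) (nat_lit 9) nil nil)))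
  (node (nat_lit 0) (nat_lit 49781) (nat_lit 8) (node (nat_lit 4) (nat_lit 50671) (nat_lit 9) nil
  (node (nat_lit 8) (nat_lit 50434) (nat_lit 9) nil (node (nat_lit 5) (nat_lit 50671) (nat_lit 9)
  nil (node (nat_lit 0) (nat_lit 50434) (nat_lit 9) nil nil)))) nil)))) (node (nat_lit 8) (nat_lit
  64230) (nat_lit 7) (node (nat_lit 5) (nat_lit 66779) (nat_lit 8) (node (nat_lit 4) (nat_lit
  66402) (nat_lit 9) (node (nat_lit 5) (nat_lit 60944) (nat_lit 10) (node (nat_lit 8) (nat_lit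
  60071) (nat_lit 11) nil (node (nat_lit 6) (nat_lit 53283) (nat_lit 11) (node (nat_lit 5)
  (nat_lit 46272) (nat_lit 12) (node (nat_lit 8) (nat_lit 39687) (nat_lit 13) nil nil) nil) nil))
  nil) (node (nat_lit 6) (nat_lit 68111) (nat_lit 9) (node (nat_lit 8) (nat_lit 67339) (nat_lit
  10) nil nil) nil)) (node (nat_lit 6) (nat_lit 65934) (nat_lit 8) (node (nat_lit 4) (nat_lit
  64718) (nat_lit 9) nil (node (nat_lit 8) (nat_lit 65043) (nat_lit 9) nil (node (nat_lit 5)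
  (nat_lit 64718) (nat_lit 9) nil nil))) (node (nat_lit 0) (nat_lit 65854) (nat_lit 8) nil nil)))
  (node (nat_lit 6) (nat_lit 63935) (nat_lit 7) (node (nat_lit 8) (nat_lit 66483) (nat_lit 8)
  (node (nat_lit 4) (nat_lit 67129) (nat_lit 9) nil nil) (node (nat_lit 4) (nat_lit 66318)
  (nat_lit 8) (node (nat_lit 8) (nat_lit 65316) (nat_lit 9) nil nil) (node (nat_lit 5) (nat_lit
  62524) (nat_lit 8) nil (node (nat_lit 0) (nat_lit 65558) (nat_lit 8) nil nil)))) (node (nat_lit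
  0) (nat_lit 64357) (nat_lit 7) (node (nat_lit 4) (nat_lit 66739) (nat_lit 8) (node (nat_lit 5)
  (nat_lit 65524) (nat_lit 9) nil (node (nat_lit 8) (nat_lit 62040) (nat_lit 9) nil nil)) (node
  (nat_lit 8) (nat_lit 62678) (nat_lit 8) (node (nat_lit 5) (nat_lit 60275) (nat_lit 9) nil (node
  (nat_lit 4) (nat_lit 63854) (nat_lit 9) nil nil)) (node (nat_lit 5) (nat_lit 62947) (nat_lit 8)
  nil (node (nat_lit 6) (nat_lit 65981) (nat_lit 8) nil nil)))) nil)))) (node (nat_lit 5) (nat_lit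
  59844) (nat_lit 6) (node (nat_lit 6) (nat_lit 61029) (nat_lit 7) (node (nat_lit 8) (nat_lit
  61751) (nat_lit 8) (node (nat_lit 6) (nat_lit 64340) (nat_lit 9) (node (nat_lit 5) (nat_lit
  65240) (nat_lit 10) (node (nat_lit 8) (nat_lit 65603) (nat_lit 11) (node (nat_lit 6) (nat_lit
  65639) (nat_lit 12) (node (nat_lit 8) (nat_lit 65940) (nat_lit 13) (node (nat_lit 5) (nat_lit
  66048) (nat_lit 14) nil nil) (node (nat_lit 4) (nat_lit 65897) (nat_lit 13) nil (node (nat_lit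
  0) (nat_lit 65897) (nat_lit 13) nil nil))) (node (nat_lit 4) (nat_lit 65921) (nat_lit 12) (node
  (nat_lit 5) (nat_lit 66179) (nat_lit 13) (node (nat_lit 6) (nat_lit 66379) (nat_lit 14) nil nil)
  nil) (node (nat_lit 5) (nat_lit 64675) (nat_lit 12) (node (nat_lit 4) (nat_lit 65167) (nat_lit
  13) (node (nat_lit 5) (nat_lit 64460) (nat_lit 14) nil nil) (node (nat_lit 0) (nat_lit 64933)
  (nat_lit 13) nil nil)) (node (nat_lit 0) (nat_lit 65921) (nat_lit 12) nil nil)))) (node (nat_lit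
  6) (nat_lit 65591) (nat_lit 11) nil nil)) nil) (node (nat_lit 5) (nat_lit 63894) (nat_lit 9)
  (node (nat_lit 8) (nat_lit 64356) (nat_lit 10) (node (nat_lit 6) (nat_lit 64707) (nat_lit 11)
  nil nil) (node (nat_lit 4) (nat_lit 61188) (nat_lit 10) (node (nat_lit 5) (nat_lit 58940)
  (nat_lit 11) (node (nat_lit 6) (nat_lit 49469) (nat_lit 12) (node (nat_lit 5) (nat_lit 49469)
  (nat_lit 13) (node (nat_lit 8) (nat_lit 49469) (nat_lit 14) nil nil) nil) nil) nil) nil)) (node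
  (nat_lit 4) (nat_lit 65549) (nat_lit 9) (node (nat_lit 8) (nat_lit 64281) (nat_lit 10) nil nil)
  (node (nat_lit 0) (nat_lit 64021) (nat_lit 9) nil nil)))) (node (nat_lit 4) (nat_lit 64769)
  (nat_lit 8) nil (node (nat_lit 0) (nat_lit 64769) (nat_lit 8) nil (node (nat_lit 5) (nat_lit
  61751) (nat_lit 8) nil nil)))) (node (nat_lit 4) (nat_lit 61170) (nat_lit 7) (node (nat_lit 5)
  (nat_lit 49469) (nat_lit 8) (node (nat_lit 8) (nat_lit 49469) (nat_lit 9) (node (nat_lit 4)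
  (nat_lit 49469) (nat_lit 10) (node (nat_lit 5) (nat_lit 48932) (nat_lit 11) (node (nat_lit 6)
  (nat_lit 46044) (nat_lit 12) (node (nat_lit 5) (nat_lit 40255) (nat_lit 13) nil nil) nil) nil)
  nil) (node (nat_lit 6) (nat_lit 46481) (nat_lit 9) (node (nat_lit 5) (nat_lit 43687) (nat_lit
  10) (node (nat_lit 8) (nat_lit 43822) (nat_lit 11) nil nil) nil) (node (nat_lit 0) (nat_lit
  49469) (nat_lit 9) nil nil))) (node (nat_lit 8) (nat_lit 61893) (nat_lit 8) (node (nat_lit 5)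
  (nat_lit 62416) (nat_lit 9) nil nil) (node (nat_lit 6) (nat_lit 61893) (nat_lit 8) (node
  (nat_lit 4) (nat_lit 62416) (nat_lit 9) nil (node (nat_lit 5) (nat_lit 62416) (nat_lit 9) nil
  (node (nat_lit 8) (nat_lit 62416) (nat_lit 9) nil nil))) (node (nat_lit 0) (nat_lit 61893)
  (nat_lit 8) nil nil)))) (node (nat_lit 0) (nat_lit 63709) (nat_lit 7) (node (nat_lit 8) (nat_lit
  61809) (nat_lit 8) nil nil) nil))) (node (nat_lit 6) (nat_lit 59844) (nat_lit 6) (node (nat_lit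
  8) (nat_lit 61029) (nat_lit 7) (node (nat_lit 5) (nat_lit 61751) (nat_lit 8) (node (nat_lit 6)
  (nat_lit 63817) (nat_lit 9) (node (nat_lit 8) (nat_lit 64500) (nat_lit 10) (node (nat_lit 6)
  (nat_lit 64968) (nat_lit 11) (node (nat_lit 5) (nat_lit 65079) (nat_lit 12) (node (nat_lit 8)
  (nat_lit 65336) (nat_lit 13) (node (nat_lit 6) (nat_lit 65400) (nat_lit 14) (node (nat_lit 8)
  (nat_lit 65567) (nat_lit 15) (node (nat_lit 5) (nat_lit 64981) (nat_lit 16) nil nil) nil) nil)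
  nil) nil) nil) (node (nat_lit 5) (nat_lit 64215) (nat_lit 10) nil nil)) (node (nat_lit 8)
  (nat_lit 62274) (nat_lit 9) (node (nat_lit 6) (nat_lit 61858) (nat_lit 10) (node (nat_lit 5)
  (nat_lit 62209) (nat_lit 11) nil nil) (node (nat_lit 4) (nat_lit 61285) (nat_lit 10) nil nil))
  (node (nat_lit 4) (nat_lit 64066) (nat_lit 9) (node (nat_lit 5) (nat_lit 58534) (nat_lit 10)
  (node (nat_lit 6) (nat_lit 49469) (nat_lit 11) (node (nat_lit 5) (nat_lit 49469) (nat_lit 12)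
  (node (nat_lit 8) (nat_lit 43838) (nat_lit 13) nil nil) nil) nil) (node (nat_lit 8) (nat_lit
  64464) (nat_lit 10) nil nil)) (node (nat_lit 0) (nat_lit 62274) (nat_lit 9) nil nil)))) (node
  (nat_lit 4) (nat_lit 65485) (nat_lit 8) nil (node (nat_lit 0) (nat_lit 63423) (nat_lit 8) nil
  nil))) (node (nat_lit 5) (nat_lit 61029) (nat_lit 7) (node (nat_lit 6) (nat_lit 61751) (nat_lit
  8) (node (nat_lit 8) (nat_lit 63099) (nat_lit 9) (node (nat_lit 5) (nat_lit 64309) (nat_lit 10)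
  (node (nat_lit 8) (nat_lit 64660) (nat_lit 11) nil nil) (node (nat_lit 6) (nat_lit 63858)
  (nat_lit 10) (node (nat_lit 5) (nat_lit 64209) (nat_lit 11) nil nil) (node (nat_lit 4) (nat_lit
  63497) (nat_lit 10) nil nil))) (node (nat_lit 4) (nat_lit 66173) (nat_lit 9) nil (node (nat_lit
  0) (nat_lit 64021) (nat_lit 9) nil nil))) (node (nat_lit 4) (nat_lit 65485) (nat_lit 8) (node
  (nat_lit 8) (nat_lit 66008) (nat_lit 9) (node (nat_lit 5) (nat_lit 62636) (nat_lit 10) nil nil)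
  nil) (node (nat_lit 0) (nat_lit 65485) (nat_lit 8) nil nil))) (node (nat_lit 4) (nat_lit 67309)
  (nat_lit 7) (node (nat_lit 8) (nat_lit 66606) (nat_lit 8) (node (nat_lit 4) (nat_lit 67129)
  (nat_lit 9) (node (nat_lit 5) (nat_lit 66834) (nat_lit 10) (node (nat_lit 6) (nat_lit 61842)
  (nat_lit 11) (node (nat_lit 5) (nat_lit 48919) (nat_lit 12) nil nil) nil) nil) nil) (node
  (nat_lit 6) (nat_lit 68032) (nat_lit 8) (node (nat_lit 5) (nat_lit 68555) (nat_lit 9) nil nil)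
  (node (nat_lit 5) (nat_lit 68032) (nat_lit 8) nil nil))) (node (nat_lit 0) (nat_lit 66208)
  (nat_lit 7) (node (nat_lit 5) (nat_lit 66368) (nat_lit 8) nil (node (nat_lit 0) (nat_lit 66931)
  (nat_lit 8) nil nil)) nil)))) (node (nat_lit 0) (nat_lit 65393) (nat_lit 6) (node (nat_lit 5)
  (nat_lit 66577) (nat_lit 7) (node (nat_lit 8) (nat_lit 64678) (nat_lit 8) nil nil) (node
  (nat_lit 8) (nat_lit 66577) (nat_lit 7) (node (nat_lit 5) (nat_lit 63874) (nat_lit 8) nil (node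
  (nat_lit 4) (nat_lit 67300) (nat_lit 8) nil nil)) (node (nat_lit 4) (nat_lit 66577) (nat_lit 7)
  nil (node (nat_lit 6) (nat_lit 66577) (nat_lit 7) nil (node (nat_lit 0) (nat_lit 66577) (nat_lit
  7) nil nil))))) nil)))) (node (nat_lit 0) (nat_lit 63223) (nat_lit 5) (node (nat_lit 6) (nat_lit
  67321) (nat_lit 6) (node (nat_lit 5) (nat_lit 67897) (nat_lit 7) (node (nat_lit 6) (nat_lit
  68619) (nat_lit 8) (node (nat_lit 8) (nat_lit 69142) (nat_lit 9) (node (nat_lit 5) (nat_lit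
  69540) (nat_lit 10) nil (node (nat_lit 6) (nat_lit 69540) (nat_lit 10) nil nil)) (node (nat_lit
  4) (nat_lit 69063) (nat_lit 9) nil (node (nat_lit 0) (nat_lit 69142) (nat_lit 9) nil (node
  (nat_lit 3) (nat_lit 67076) (nat_lit 9) nil nil)))) (node (nat_lit 4) (nat_lit 67768) (nat_lit
  8) (node (nat_lit 5) (nat_lit 66029) (nat_lit 9) nil (node (nat_lit 8) (nat_lit 68420) (nat_lit
  9) nil (node (nat_lit 3) (nat_lit 66337) (nat_lit 9) nil nil))) (node (nat_lit 3) (nat_lit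
  65997) (nat_lit 8) (node (nat_lit 5) (nat_lit 65333) (nat_lit 9) nil (node (nat_lit 4) (nat_lit
  66520) (nat_lit 9) (node (nat_lit 5) (nat_lit 57969) (nat_lit 10) (node (nat_lit 6) (nat_lit
  52644) (nat_lit 11) nil nil) nil) (node (nat_lit 8) (nat_lit 66520) (nat_lit 9) nil nil))) (node
  (nat_lit 0) (nat_lit 68619) (nat_lit 8) nil nil)))) (node (nat_lit 8) (nat_lit 68506) (nat_lit
  7) (node (nat_lit 5) (nat_lit 69228) (nat_lit 8) nil nil) (node (nat_lit 4) (nat_lit 68506)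
  (nat_lit 7) (node (nat_lit 3) (nat_lit 66606) (nat_lit 8) nil nil) (node (nat_lit 3) (nat_lit
  64973) (nat_lit 7) (node (nat_lit 5) (nat_lit 64128) (nat_lit 8) nil (node (nat_lit 4) (nat_lit
  65696) (nat_lit 8) nil nil)) (node (nat_lit 0) (nat_lit 68506) (nat_lit 7) nil nil))))) (node
  (nat_lit 5) (nat_lit 65734) (nat_lit 6) (node (nat_lit 6) (nat_lit 68158) (nat_lit 7) (node
  (nat_lit 8) (nat_lit 68880) (nat_lit 8) (node (nat_lit 5) (nat_lit 69403) (nat_lit 9) nil nil)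
  (node (nat_lit 4) (nat_lit 68880) (nat_lit 8) nil (node (nat_lit 5) (nat_lit 68880) (nat_lit 8)
  nil nil))) (node (nat_lit 4) (nat_lit 66919) (nat_lit 7) nil (node (nat_lit 3) (nat_lit 65664)
  (nat_lit 7) (node (nat_lit 5) (nat_lit 64819) (nat_lit 8) (node (nat_lit 4) (nat_lit 58449)
  (nat_lit 9) nil nil) (node (nat_lit 4) (nat_lit 64106) (nat_lit 8) (node (nat_lit 5) (nat_lit
  59957) (nat_lit 9) (node (nat_lit 6) (nat_lit 45283) (nat_lit 10) nil nil) nil) nil)) (node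
  (nat_lit 0) (nat_lit 66919) (nat_lit 7) nil nil)))) (node (nat_lit 4) (nat_lit 67230) (nat_lit
  6) (node (nat_lit 5) (nat_lit 68415) (nat_lit 7) (node (nat_lit 3) (nat_lit 66515) (nat_lit 8)
  nil nil) (node (nat_lit 6) (nat_lit 68415) (nat_lit 7) (node (nat_lit 4) (nat_lit 69137)
  (nat_lit 8) nil nil) (node (nat_lit 8) (nat_lit 68415) (nat_lit 7) nil (node (nat_lit 3)
  (nat_lit 64882) (nat_lit 7) (node (nat_lit 4) (nat_lit 65248) (nat_lit 8) (node (nat_lit 5)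
  (nat_lit 51007) (nat_lit 9) nil nil) nil) nil)))) (node (nat_lit 3) (nat_lit 65547) (nat_lit 6)
  (node (nat_lit 5) (nat_lit 61916) (nat_lit 7) (node (nat_lit 9) (nat_lit 62639) (nat_lit 8) nil
  (node (nat_lit 4) (nat_lit 59355) (nat_lit 8) (node (nat_lit 5) (nat_lit 47737) (nat_lit 9) nil
  nil) nil)) (node (nat_lit 4) (nat_lit 66732) (nat_lit 7) nil (node (nat_lit 8) (nat_lit 66732)
  (nat_lit 7) nil (node (nat_lit 6) (nat_lit 66732) (nat_lit 7) (node (nat_lit 9) (nat_lit 64832)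
  (nat_lit 8) (node (nat_lit 5) (nat_lit 64168) (nat_lit 9) nil nil) nil) (node (nat_lit 0)
  (nat_lit 66732) (nat_lit 7) nil nil))))) (node (nat_lit 0) (nat_lit 67067) (nat_lit 6) (node
  (nat_lit 5) (nat_lit 68252) (nat_lit 7) nil (node (nat_lit 3) (nat_lit 64719) (nat_lit 7) (node
  (nat_lit 5) (nat_lit 63874) (nat_lit 8) nil nil) (node (nat_lit 4) (nat_lit 68252) (nat_lit 7)
  nil (node (nat_lit 8) (nat_lit 68252) (nat_lit 7) nil (node (nat_lit 6) (nat_lit 68252) (nat_lit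
  7) nil nil))))) nil))))) nil)))

noncomputable def t180 : Tr :=
  (node (nat_lit 4) (nat_lit 0) (nat_lit 4) (node (nat_lit 6) (nat_lit 51861) (nat_lit 5) (node
  (nat_lit 5) (nat_lit 59002) (nat_lit 6) (node (nat_lit 6) (nat_lit 63277) (nat_lit 7) (node
  (nat_lit 4) (nat_lit 68125) (nat_lit 8) (node (nat_lit 5) (nat_lit 69472) (nat_lit 9) (node
  (nat_lit 4) (nat_lit 70369) (nat_lit 10) (node (nat_lit 6) (nat_lit 71068) (nat_lit 11) (node
  (nat_lit 5) (nat_lit 71613) (nat_lit 12) (node (nat_lit 4) (nat_lit 72040) (nat_lit 13) nil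
  (node (nat_lit 3) (nat_lit 71186) (nat_lit 13) nil nil)) (node (nat_lit 4) (nat_lit 71613)
  (nat_lit 12) (node (nat_lit 5) (nat_lit 72040) (nat_lit 13) nil (node (nat_lit 3) (nat_lit
  71186) (nat_lit 13) nil nil)) (node (nat_lit 3) (nat_lit 70500) (nat_lit 12) nil nil))) (node
  (nat_lit 3) (nat_lit 69633) (nat_lit 11) (node (nat_lit 5) (nat_lit 69498) (nat_lit 12) nil
  (node (nat_lit 4) (nat_lit 70178) (nat_lit 12) nil nil)) (node (nat_lit 0) (nat_lit 71068)
  (nat_lit 11) nil nil))) (node (nat_lit 6) (nat_lit 70369) (nat_lit 10) (node (nat_lit 5)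
  (nat_lit 71068) (nat_lit 11) (node (nat_lit 4) (nat_lit 71613) (nat_lit 12) (node (nat_lit 5)
  (nat_lit 72040) (nat_lit 13) nil nil) (node (nat_lit 3) (nat_lit 70500) (nat_lit 12) nil nil))
  (node (nat_lit 3) (nat_lit 69633) (nat_lit 11) (node (nat_lit 5) (nat_lit 69498) (nat_lit 12)
  nil nil) (node (nat_lit 0) (nat_lit 71068) (nat_lit 11) nil nil))) (node (nat_lit 3) (nat_lit
  68579) (nat_lit 10) (node (nat_lit 4) (nat_lit 69279) (nat_lit 11) (node (nat_lit 5) (nat_lit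
  69595) (nat_lit 12) nil nil) (node (nat_lit 5) (nat_lit 68476) (nat_lit 11) (node (nat_lit 6)
  (nat_lit 69021) (nat_lit 12) nil nil) (node (nat_lit 6) (nat_lit 69279) (nat_lit 11) nil nil)))
  (node (nat_lit 0) (nat_lit 70369) (nat_lit 10) nil nil)))) (node (nat_lit 3) (nat_lit 67163)
  (nat_lit 9) (node (nat_lit 4) (nat_lit 68059) (nat_lit 10) (node (nat_lit 5) (nat_lit 68759)
  (nat_lit 11) (node (nat_lit 6) (nat_lit 68956) (nat_lit 12) (node (nat_lit 4) (nat_lit 65573)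
  (nat_lit 13) (node (nat_lit 6) (nat_lit 53297) (nat_lit 14) (node (nat_lit 5) (nat_lit 20852)
  (nat_lit 15) nil nil) nil) nil) nil) nil) (node (nat_lit 6) (nat_lit 68059) (nat_lit 10) nil
  (node (nat_lit 5) (nat_lit 67224) (nat_lit 10) (node (nat_lit 4) (nat_lit 66992) (nat_lit 11)
  nil (node (nat_lit 12) (nat_lit 67923) (nat_lit 11) nil nil)) (node (nat_lit 0) (nat_lit 68059)
  (nat_lit 10) nil nil)))) (node (nat_lit 0) (nat_lit 69355) (nat_lit 9) (node (nat_lit 6)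
  (nat_lit 70252) (nat_lit 10) nil (node (nat_lit 4) (nat_lit 70252) (nat_lit 10) nil (node
  (nat_lit 5) (nat_lit 70252) (nat_lit 10) nil nil))) nil))) (node (nat_lit 3) (nat_lit 65595)
  (nat_lit 8) nil (node (nat_lit 0) (nat_lit 67850) (nat_lit 8) nil nil))) (node (nat_lit 4)
  (nat_lit 65017) (nat_lit 7) (node (nat_lit 5) (nat_lit 68653) (nat_lit 8) (node (nat_lit 6)
  (nat_lit 69883) (nat_lit 9) (node (nat_lit 4) (nat_lit 70780) (nat_lit 10) (node (nat_lit 5)
  (nat_lit 71479) (nat_lit 11) nil (node (nat_lit 6) (nat_lit 47117) (nat_lit 11) nil nil)) (node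
  (nat_lit 5) (nat_lit 70780) (nat_lit 10) nil nil)) (node (nat_lit 3) (nat_lit 67191) (nat_lit 9)
  nil (node (nat_lit 0) (nat_lit 69883) (nat_lit 9) nil nil))) (node (nat_lit 6) (nat_lit 68653)
  (nat_lit 8) (node (nat_lit 4) (nat_lit 69883) (nat_lit 9) (node (nat_lit 5) (nat_lit 69495)
  (nat_lit 10) (node (nat_lit 6) (nat_lit 70631) (nat_lit 11) nil (node (nat_lit 4) (nat_lit
  69059) (nat_lit 11) nil (node (nat_lit 3) (nat_lit 68530) (nat_lit 11) nil nil))) (node (nat_lit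
  3) (nat_lit 68991) (nat_lit 10) nil nil)) (node (nat_lit 0) (nat_lit 69883) (nat_lit 9) nil
  nil)) (node (nat_lit 3) (nat_lit 68474) (nat_lit 8) (node (nat_lit 4) (nat_lit 66272) (nat_lit
  9) nil (node (nat_lit 6) (nat_lit 69177) (nat_lit 9) nil nil)) (node (nat_lit 0) (nat_lit 67987)
  (nat_lit 8) nil nil)))) (node (nat_lit 3) (nat_lit 65228) (nat_lit 7) (node (nat_lit 4) (nat_lit
  66095) (nat_lit 8) (node (nat_lit 5) (nat_lit 61894) (nat_lit 9) (node (nat_lit 6) (nat_lit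
  53240) (nat_lit 10) (node (nat_lit 4) (nat_lit 37115) (nat_lit 11) nil nil) nil) nil) (node
  (nat_lit 6) (nat_lit 66672) (nat_lit 8) (node (nat_lit 5) (nat_lit 67375) (nat_lit 9) nil nil)
  (node (nat_lit 5) (nat_lit 64976) (nat_lit 8) (node (nat_lit 4) (nat_lit 62408) (nat_lit 9) nil
  nil) (node (nat_lit 0) (nat_lit 66672) (nat_lit 8) nil nil)))) (node (nat_lit 0) (nat_lit 66992)
  (nat_lit 7) nil nil)))) (node (nat_lit 3) (nat_lit 62213) (nat_lit 6) (node (nat_lit 4) (nat_lit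
  64066) (nat_lit 7) nil (node (nat_lit 6) (nat_lit 64066) (nat_lit 7) nil (node (nat_lit 5)
  (nat_lit 59975) (nat_lit 7) (node (nat_lit 4) (nat_lit 58437) (nat_lit 8) (node (nat_lit 5)
  (nat_lit 53584) (nat_lit 9) (node (nat_lit 6) (nat_lit 49469) (nat_lit 10) (node (nat_lit 4)
  (nat_lit 43507) (nat_lit 11) (node (nat_lit 6) (nat_lit 43902) (nat_lit 12) nil nil) nil) nil)
  nil) (node (nat_lit 9) (nat_lit 61419) (nat_lit 8) nil nil)) (node (nat_lit 0) (nat_lit 64066)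
  (nat_lit 7) nil nil)))) (node (nat_lit 0) (nat_lit 66942) (nat_lit 6) (node (nat_lit 4) (nat_lit
  68795) (nat_lit 7) nil (node (nat_lit 5) (nat_lit 68795) (nat_lit 7) nil (node (nat_lit 3)
  (nat_lit 65262) (nat_lit 7) nil nil))) nil))) (node (nat_lit 5) (nat_lit 52188) (nat_lit 5)
  (node (nat_lit 4) (nat_lit 59917) (nat_lit 6) (node (nat_lit 6) (nat_lit 64395) (nat_lit 7)
  (node (nat_lit 5) (nat_lit 68332) (nat_lit 8) (node (nat_lit 6) (nat_lit 69563) (nat_lit 9)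
  (node (nat_lit 4) (nat_lit 70760) (nat_lit 10) (node (nat_lit 5) (nat_lit 71460) (nat_lit 11)
  nil (node (nat_lit 6) (nat_lit 71460) (nat_lit 11) (node (nat_lit 5) (nat_lit 72005) (nat_lit
  12) nil (node (nat_lit 3) (nat_lit 70891) (nat_lit 12) (node (nat_lit 4) (nat_lit 71318)
  (nat_lit 13) nil nil) (node (nat_lit 0) (nat_lit 72005) (nat_lit 12) nil nil))) (node (nat_lit
  3) (nat_lit 70024) (nat_lit 11) (node (nat_lit 4) (nat_lit 70569) (nat_lit 12) (node (nat_lit 5)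
  (nat_lit 70996) (nat_lit 13) nil nil) (node (nat_lit 6) (nat_lit 70569) (nat_lit 12) nil (node
  (nat_lit 5) (nat_lit 69678) (nat_lit 12) (node (nat_lit 4) (nat_lit 68971) (nat_lit 13) nil nil)
  nil))) (node (nat_lit 0) (nat_lit 71460) (nat_lit 11) (node (nat_lit 4) (nat_lit 72005) (nat_lit
  12) nil nil) nil)))) (node (nat_lit 3) (nat_lit 68670) (nat_lit 10) (node (nat_lit 4) (nat_lit
  69369) (nat_lit 11) nil nil) (node (nat_lit 0) (nat_lit 70459) (nat_lit 10) nil nil))) (node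
  (nat_lit 4) (nat_lit 69563) (nat_lit 9) (node (nat_lit 5) (nat_lit 70459) (nat_lit 10) (node
  (nat_lit 6) (nat_lit 71159) (nat_lit 11) (node (nat_lit 4) (nat_lit 71704) (nat_lit 12) (node
  (nat_lit 5) (nat_lit 72130) (nat_lit 13) (node (nat_lit 4) (nat_lit 72463) (nat_lit 14) (node
  (nat_lit 6) (nat_lit 45717) (nat_lit 15) nil nil) nil) nil) nil) nil) (node (nat_lit 3) (nat_lit
  68670) (nat_lit 10) (node (nat_lit 4) (nat_lit 69369) (nat_lit 11) nil nil) (node (nat_lit 0)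
  (nat_lit 70459) (nat_lit 10) nil nil))) (node (nat_lit 3) (nat_lit 67370) (nat_lit 9) (node
  (nat_lit 4) (nat_lit 68267) (nat_lit 10) nil nil) (node (nat_lit 0) (nat_lit 69563) (nat_lit 9)
  nil nil)))) (node (nat_lit 3) (nat_lit 67874) (nat_lit 8) (node (nat_lit 0) (nat_lit 68578)
  (nat_lit 9) nil (node (nat_lit 5) (nat_lit 67376) (nat_lit 9) (node (nat_lit 4) (nat_lit 66369)
  (nat_lit 10) nil nil) nil)) (node (nat_lit 4) (nat_lit 64885) (nat_lit 8) (node (nat_lit 5)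
  (nat_lit 63146) (nat_lit 9) nil nil) (node (nat_lit 0) (nat_lit 69336) (nat_lit 8) (node
  (nat_lit 3) (nat_lit 68625) (nat_lit 9) nil nil) nil)))) (node (nat_lit 3) (nat_lit 69390)
  (nat_lit 7) (node (nat_lit 5) (nat_lit 65605) (nat_lit 8) (node (nat_lit 4) (nat_lit 63933)
  (nat_lit 9) (node (nat_lit 5) (nat_lit 61349) (nat_lit 10) (node (nat_lit 6) (nat_lit 56142)
  (nat_lit 11) (node (nat_lit 4) (nat_lit 47579) (nat_lit 12) (node (nat_lit 5) (nat_lit 42377)
  (nat_lit 13) (node (nat_lit 4) (nat_lit 41878) (nat_lit 14) nil nil) nil) nil) nil) nil) nil)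
  (node (nat_lit 4) (nat_lit 67607) (nat_lit 8) (node (nat_lit 5) (nat_lit 57890) (nat_lit 9) nil
  nil) (node (nat_lit 6) (nat_lit 70834) (nat_lit 8) (node (nat_lit 5) (nat_lit 71537) (nat_lit 9)
  nil nil) nil))) (node (nat_lit 0) (nat_lit 67167) (nat_lit 7) (node (nat_lit 5) (nat_lit 66478)
  (nat_lit 8) nil nil) nil))) (node (nat_lit 3) (nat_lit 60962) (nat_lit 6) (node (nat_lit 4)
  (nat_lit 60849) (nat_lit 7) (node (nat_lit 5) (nat_lit 54702) (nat_lit 8) (node (nat_lit 6)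
  (nat_lit 29724) (nat_lit 9) (node (nat_lit 4) (nat_lit 17901) (nat_lit 10) nil nil) nil) (node
  (nat_lit 6) (nat_lit 63194) (nat_lit 8) nil nil)) (node (nat_lit 5) (nat_lit 59940) (nat_lit 7)
  (node (nat_lit 4) (nat_lit 57901) (nat_lit 8) (node (nat_lit 5) (nat_lit 53114) (nat_lit 9)
  (node (nat_lit 6) (nat_lit 49469) (nat_lit 10) (node (nat_lit 4) (nat_lit 39209) (nat_lit 11)
  nil nil) nil) nil) nil) (node (nat_lit 6) (nat_lit 62815) (nat_lit 7) (node (nat_lit 5) (nat_lit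
  64259) (nat_lit 8) nil nil) (node (nat_lit 0) (nat_lit 62815) (nat_lit 7) nil nil)))) (node
  (nat_lit 0) (nat_lit 64849) (nat_lit 6) (node (nat_lit 4) (nat_lit 66701) (nat_lit 7) nil (node
  (nat_lit 5) (nat_lit 66701) (nat_lit 7) (node (nat_lit 6) (nat_lit 68145) (nat_lit 8) nil nil)
  nil)) nil))) (node (nat_lit 3) (nat_lit 61132) (nat_lit 5) (node (nat_lit 6) (nat_lit 67491)
  (nat_lit 6) (node (nat_lit 8) (nat_lit 68989) (nat_lit 7) (node (nat_lit 4) (nat_lit 69711)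
  (nat_lit 8) (node (nat_lit 6) (nat_lit 70235) (nat_lit 9) nil nil) (node (nat_lit 5) (nat_lit
  67527) (nat_lit 8) (node (nat_lit 4) (nat_lit 62821) (nat_lit 9) nil nil) (node (nat_lit 0)
  (nat_lit 69711) (nat_lit 8) nil nil))) (node (nat_lit 5) (nat_lit 68945) (nat_lit 7) (node
  (nat_lit 6) (nat_lit 69668) (nat_lit 8) nil (node (nat_lit 8) (nat_lit 67045) (nat_lit 8) (node
  (nat_lit 4) (nat_lit 67569) (nat_lit 9) (node (nat_lit 5) (nat_lit 58852) (nat_lit 10) (node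
  (nat_lit 6) (nat_lit 54149) (nat_lit 11) (node (nat_lit 4) (nat_lit 42709) (nat_lit 12) nil nil)
  nil) nil) nil) (node (nat_lit 4) (nat_lit 69668) (nat_lit 8) (node (nat_lit 8) (nat_lit 68124)
  (nat_lit 9) nil nil) nil))) (node (nat_lit 4) (nat_lit 68763) (nat_lit 7) nil (node (nat_lit 0)
  (nat_lit 68763) (nat_lit 7) nil nil)))) (node (nat_lit 5) (nat_lit 67034) (nat_lit 6) (node
  (nat_lit 4) (nat_lit 63581) (nat_lit 7) (node (nat_lit 5) (nat_lit 53679) (nat_lit 8) (node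
  (nat_lit 8) (nat_lit 52468) (nat_lit 9) (node (nat_lit 4) (nat_lit 51950) (nat_lit 10) (node
  (nat_lit 5) (nat_lit 50480) (nat_lit 11) (node (nat_lit 6) (nat_lit 47837) (nat_lit 12) nil nil)
  nil) nil) (node (nat_lit 6) (nat_lit 40379) (nat_lit 9) (node (nat_lit 4) (nat_lit 38778)
  (nat_lit 10) nil nil) nil)) (node (nat_lit 8) (nat_lit 63598) (nat_lit 8) (node (nat_lit 4)
  (nat_lit 62421) (nat_lit 9) (node (nat_lit 5) (nat_lit 60341) (nat_lit 10) (node (nat_lit 6)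
  (nat_lit 55653) (nat_lit 11) (node (nat_lit 4) (nat_lit 45344) (nat_lit 12) nil nil) nil) nil)
  nil) (node (nat_lit 6) (nat_lit 64699) (nat_lit 8) nil nil))) (node (nat_lit 8) (nat_lit 68219)
  (nat_lit 7) (node (nat_lit 4) (nat_lit 66821) (nat_lit 8) (node (nat_lit 5) (nat_lit 62778)
  (nat_lit 9) (node (nat_lit 6) (nat_lit 54532) (nat_lit 10) (node (nat_lit 4) (nat_lit 42649)
  (nat_lit 11) (node (nat_lit 8) (nat_lit 20156) (nat_lit 12) nil nil) nil) nil) nil) (node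
  (nat_lit 6) (nat_lit 68942) (nat_lit 8) nil nil)) (node (nat_lit 0) (nat_lit 68219) (nat_lit 7)
  nil nil))) (node (nat_lit 4) (nat_lit 59414) (nat_lit 6) (node (nat_lit 5) (nat_lit 50129)
  (nat_lit 7) (node (nat_lit 6) (nat_lit 37106) (nat_lit 8) (node (nat_lit 4) (nat_lit 19995)
  (nat_lit 9) nil nil) (node (nat_lit 4) (nat_lit 51861) (nat_lit 8) (node (nat_lit 8) (nat_lit
  52578) (nat_lit 9) (node (nat_lit 5) (nat_lit 51148) (nat_lit 10) (node (nat_lit 4) (nat_lit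
  50631) (nat_lit 11) nil nil) (node (nat_lit 4) (nat_lit 48458) (nat_lit 10) nil nil)) (node
  (nat_lit 6) (nat_lit 53036) (nat_lit 9) nil nil)) (node (nat_lit 8) (nat_lit 51752) (nat_lit 8)
  (node (nat_lit 5) (nat_lit 52928) (nat_lit 9) (node (nat_lit 4) (nat_lit 52063) (nat_lit 10) nil
  nil) (node (nat_lit 6) (nat_lit 52928) (nat_lit 9) nil nil)) nil))) (node (nat_lit 6) (nat_lit
  62670) (nat_lit 7) (node (nat_lit 5) (nat_lit 64705) (nat_lit 8) (node (nat_lit 6) (nat_lit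
  65881) (nat_lit 9) (node (nat_lit 4) (nat_lit 64848) (nat_lit 10) nil nil) nil) nil) (node
  (nat_lit 0) (nat_lit 62076) (nat_lit 7) nil nil))) (node (nat_lit 0) (nat_lit 67034) (nat_lit 6)
  (node (nat_lit 4) (nat_lit 66508) (nat_lit 7) nil (node (nat_lit 8) (nat_lit 64686) (nat_lit 7)
  nil nil)) nil)))) (node (nat_lit 0) (nat_lit 65248) (nat_lit 5) (node (nat_lit 5) (nat_lit
  67240) (nat_lit 6) (node (nat_lit 4) (nat_lit 67250) (nat_lit 7) nil (node (nat_lit 6) (nat_lit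
  68425) (nat_lit 7) nil (node (nat_lit 8) (nat_lit 68425) (nat_lit 7) nil (node (nat_lit 3)
  (nat_lit 64892) (nat_lit 7) (node (nat_lit 4) (nat_lit 59604) (nat_lit 8) (node (nat_lit 5)
  (nat_lit 54999) (nat_lit 9) nil nil) (node (nat_lit 6) (nat_lit 65615) (nat_lit 8) nil nil))
  nil)))) (node (nat_lit 6) (nat_lit 67754) (nat_lit 6) (node (nat_lit 8) (nat_lit 68938) (nat_lit
  7) nil (node (nat_lit 5) (nat_lit 68938) (nat_lit 7) nil (node (nat_lit 3) (nat_lit 65406)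
  (nat_lit 7) (node (nat_lit 5) (nat_lit 64485) (nat_lit 8) nil nil) nil))) (node (nat_lit 4)
  (nat_lit 67754) (nat_lit 6) (node (nat_lit 6) (nat_lit 68938) (nat_lit 7) nil (node (nat_lit 5)
  (nat_lit 67250) (nat_lit 7) nil (node (nat_lit 3) (nat_lit 65406) (nat_lit 7) (node (nat_lit 4)
  (nat_lit 62379) (nat_lit 8) (node (nat_lit 5) (nat_lit 47858) (nat_lit 9) nil nil) nil) nil)))
  (node (nat_lit 3) (nat_lit 63543) (nat_lit 6) (node (nat_lit 4) (nat_lit 64728) (nat_lit 7) nil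
  (node (nat_lit 8) (nat_lit 64728) (nat_lit 7) nil (node (nat_lit 5) (nat_lit 61853) (nat_lit 7)
  (node (nat_lit 4) (nat_lit 58508) (nat_lit 8) (node (nat_lit 5) (nat_lit 50702) (nat_lit 9) nil
  nil) nil) (node (nat_lit 0) (nat_lit 64728) (nat_lit 7) nil nil)))) (node (nat_lit 0) (nat_lit
  67240) (nat_lit 6) (node (nat_lit 3) (nat_lit 64892) (nat_lit 7) nil (node (nat_lit 5) (nat_lit
  68425) (nat_lit 7) nil nil)) nil))))) nil)))) (node (nat_lit 3) (nat_lit 0) (nat_lit 4) (node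
  (nat_lit 4) (nat_lit 66281) (nat_lit 5) (node (nat_lit 5) (nat_lit 67994) (nat_lit 6) (node
  (nat_lit 7) (nat_lit 65645) (nat_lit 7) (node (nat_lit 5) (nat_lit 64428) (nat_lit 8) (node
  (nat_lit 4) (nat_lit 62693) (nat_lit 9) nil nil) nil) (node (nat_lit 4) (nat_lit 69178) (nat_lit
  7) nil (node (nat_lit 6) (nat_lit 19708) (nat_lit 7) nil nil))) (node (nat_lit 6) (nat_lit
  68236) (nat_lit 6) (node (nat_lit 5) (nat_lit 69421) (nat_lit 7) nil (node (nat_lit 7) (nat_lit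
  65888) (nat_lit 7) nil (node (nat_lit 4) (nat_lit 69421) (nat_lit 7) nil nil))) (node (nat_lit
  7) (nat_lit 68136) (nat_lit 6) (node (nat_lit 5) (nat_lit 64258) (nat_lit 7) (node (nat_lit 4)
  (nat_lit 57744) (nat_lit 8) nil nil) nil) (node (nat_lit 0) (nat_lit 68274) (nat_lit 6) nil
  nil)))) (node (nat_lit 5) (nat_lit 0) (nat_lit 5) (node (nat_lit 7) (nat_lit 59877) (nat_lit 6)
  (node (nat_lit 6) (nat_lit 61061) (nat_lit 7) (node (nat_lit 5) (nat_lit 61776) (nat_lit 8)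
  (node (nat_lit 6) (nat_lit 64424) (nat_lit 9) (node (nat_lit 7) (nat_lit 65921) (nat_lit 10)
  (node (nat_lit 5) (nat_lit 65951) (nat_lit 11) (node (nat_lit 7) (nat_lit 66269) (nat_lit 12)
  (node (nat_lit 4) (nat_lit 66527) (nat_lit 13) (node (nat_lit 5) (nat_lit 66727) (nat_lit 14)
  nil nil) nil) nil) (node (nat_lit 6) (nat_lit 66271) (nat_lit 11) nil nil)) nil) (node (nat_lit
  7) (nat_lit 64331) (nat_lit 9) (node (nat_lit 4) (nat_lit 64729) (nat_lit 10) nil nil) nil))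
  (node (nat_lit 7) (nat_lit 61784) (nat_lit 8) (node (nat_lit 5) (nat_lit 63909) (nat_lit 9) nil
  nil) (node (nat_lit 4) (nat_lit 61784) (nat_lit 8) nil nil))) (node (nat_lit 4) (nat_lit 65348)
  (nat_lit 7) (node (nat_lit 5) (nat_lit 61258) (nat_lit 8) (node (nat_lit 6) (nat_lit 40870)
  (nat_lit 9) (node (nat_lit 7) (nat_lit 15857) (nat_lit 10) nil nil) nil) nil) (node (nat_lit 0)
  (nat_lit 61061) (nat_lit 7) (node (nat_lit 5) (nat_lit 61784) (nat_lit 8) nil nil) nil))) (node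
  (nat_lit 4) (nat_lit 55300) (nat_lit 6) (node (nat_lit 7) (nat_lit 56485) (nat_lit 7) (node
  (nat_lit 6) (nat_lit 57207) (nat_lit 8) nil (node (nat_lit 4) (nat_lit 55636) (nat_lit 8) (node
  (nat_lit 5) (nat_lit 51321) (nat_lit 9) (node (nat_lit 6) (nat_lit 41323) (nat_lit 10) (node
  (nat_lit 7) (nat_lit 29982) (nat_lit 11) nil nil) nil) nil) (node (nat_lit 5) (nat_lit 55958)
  (nat_lit 8) nil nil))) (node (nat_lit 5) (nat_lit 49469) (nat_lit 7) (node (nat_lit 7) (nat_lit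
  48382) (nat_lit 8) (node (nat_lit 4) (nat_lit 46272) (nat_lit 9) (node (nat_lit 5) (nat_lit
  42790) (nat_lit 10) (node (nat_lit 6) (nat_lit 27531) (nat_lit 11) nil nil) nil) nil) (node
  (nat_lit 6) (nat_lit 46904) (nat_lit 8) (node (nat_lit 7) (nat_lit 47416) (nat_lit 9) nil nil)
  nil)) (node (nat_lit 6) (nat_lit 56485) (nat_lit 7) (node (nat_lit 5) (nat_lit 57207) (nat_lit
  8) (node (nat_lit 7) (nat_lit 55664) (nat_lit 9) nil nil) nil) (node (nat_lit 0) (nat_lit 56485)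
  (nat_lit 7) nil nil)))) (node (nat_lit 6) (nat_lit 59867) (nat_lit 6) (node (nat_lit 5) (nat_lit
  61052) (nat_lit 7) (node (nat_lit 7) (nat_lit 61773) (nat_lit 8) (node (nat_lit 6) (nat_lit
  64488) (nat_lit 9) (node (nat_lit 5) (nat_lit 64886) (nat_lit 10) nil nil) (node (nat_lit 5)
  (nat_lit 64413) (nat_lit 9) (node (nat_lit 4) (nat_lit 59583) (nat_lit 10) nil nil) (node
  (nat_lit 4) (nat_lit 61635) (nat_lit 9) (node (nat_lit 5) (nat_lit 59046) (nat_lit 10) (node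
  (nat_lit 6) (nat_lit 55224) (nat_lit 11) (node (nat_lit 7) (nat_lit 45499) (nat_lit 12) (node
  (nat_lit 5) (nat_lit 28631) (nat_lit 13) nil nil) nil) nil) nil) nil))) (node (nat_lit 4)
  (nat_lit 60943) (nat_lit 8) nil (node (nat_lit 0) (nat_lit 61774) (nat_lit 8) nil nil))) (node
  (nat_lit 4) (nat_lit 64533) (nat_lit 7) (node (nat_lit 7) (nat_lit 62633) (nat_lit 8) nil nil)
  (node (nat_lit 0) (nat_lit 64873) (nat_lit 7) nil nil))) (node (nat_lit 0) (nat_lit 63395)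
  (nat_lit 6) (node (nat_lit 5) (nat_lit 64580) (nat_lit 7) (node (nat_lit 6) (nat_lit 65302)
  (nat_lit 8) nil nil) (node (nat_lit 0) (nat_lit 64580) (nat_lit 7) nil nil)) nil)))) (node
  (nat_lit 6) (nat_lit 57871) (nat_lit 5) (node (nat_lit 5) (nat_lit 59864) (nat_lit 6) (node
  (nat_lit 6) (nat_lit 61049) (nat_lit 7) (node (nat_lit 7) (nat_lit 61775) (nat_lit 8) (node
  (nat_lit 5) (nat_lit 64742) (nat_lit 9) (node (nat_lit 7) (nat_lit 66043) (nat_lit 10) (node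
  (nat_lit 6) (nat_lit 65776) (nat_lit 11) (node (nat_lit 5) (nat_lit 66094) (nat_lit 12) (node
  (nat_lit 7) (nat_lit 65506) (nat_lit 13) nil nil) nil) (node (nat_lit 4) (nat_lit 66394)
  (nat_lit 11) (node (nat_lit 5) (nat_lit 66712) (nat_lit 12) nil nil) nil)) (node (nat_lit 6)
  (nat_lit 65674) (nat_lit 10) (node (nat_lit 5) (nat_lit 65407) (nat_lit 11) (node (nat_lit 7)
  (nat_lit 65775) (nat_lit 12) (node (nat_lit 5) (nat_lit 64461) (nat_lit 13) nil (node (nat_lit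
  4) (nat_lit 66033) (nat_lit 13) nil nil)) nil) nil) (node (nat_lit 4) (nat_lit 64581) (nat_lit
  10) (node (nat_lit 5) (nat_lit 63218) (nat_lit 11) (node (nat_lit 6) (nat_lit 57729) (nat_lit
  12) (node (nat_lit 7) (nat_lit 49469) (nat_lit 13) (node (nat_lit 6) (nat_lit 49469) (nat_lit
  14) (node (nat_lit 5) (nat_lit 43984) (nat_lit 15) nil nil) nil) nil) nil) nil) (node (nat_lit
  0) (nat_lit 65139) (nat_lit 10) nil nil)))) (node (nat_lit 4) (nat_lit 67353) (nat_lit 9) nil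
  (node (nat_lit 0) (nat_lit 66197) (nat_lit 9) nil nil))) (node (nat_lit 4) (nat_lit 61771)
  (nat_lit 8) nil (node (nat_lit 0) (nat_lit 61771) (nat_lit 8) nil nil))) (node (nat_lit 7)
  (nat_lit 55175) (nat_lit 7) nil nil)) (node (nat_lit 4) (nat_lit 67059) (nat_lit 6) (node
  (nat_lit 7) (nat_lit 63930) (nat_lit 7) (node (nat_lit 4) (nat_lit 62698) (nat_lit 8) nil nil)
  nil) (node (nat_lit 0) (nat_lit 59863) (nat_lit 6) nil nil))) (node (nat_lit 0) (nat_lit 63289)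
  (nat_lit 5) (node (nat_lit 6) (nat_lit 65282) (nat_lit 6) nil (node (nat_lit 5) (nat_lit 65282)
  (nat_lit 6) (node (nat_lit 7) (nat_lit 62378) (nat_lit 7) nil nil) (node (nat_lit 7) (nat_lit
  65667) (nat_lit 6) (node (nat_lit 5) (nat_lit 64618) (nat_lit 7) (node (nat_lit 7) (nat_lit
  64856) (nat_lit 8) nil nil) (node (nat_lit 4) (nat_lit 66852) (nat_lit 7) nil nil)) (node
  (nat_lit 4) (nat_lit 65282) (nat_lit 6) (node (nat_lit 7) (nat_lit 62378) (nat_lit 7) nil nil)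
  (node (nat_lit 0) (nat_lit 65282) (nat_lit 6) nil nil))))) nil)))) (node (nat_lit 0) (nat_lit 0)
  (nat_lit 4) (node (nat_lit 5) (nat_lit 63380) (nat_lit 5) (node (nat_lit 6) (nat_lit 66885)
  (nat_lit 6) (node (nat_lit 5) (nat_lit 68070) (nat_lit 7) (node (nat_lit 7) (nat_lit 68793)
  (nat_lit 8) (node (nat_lit 5) (nat_lit 69316) (nat_lit 9) (node (nat_lit 3) (nat_lit 68048)
  (nat_lit 10) nil nil) nil) (node (nat_lit 4) (nat_lit 68723) (nat_lit 8) nil (node (nat_lit 3)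
  (nat_lit 66170) (nat_lit 8) (node (nat_lit 4) (nat_lit 66694) (nat_lit 9) nil nil) (node
  (nat_lit 0) (nat_lit 68793) (nat_lit 8) nil nil)))) (node (nat_lit 4) (nat_lit 68070) (nat_lit
  7) (node (nat_lit 7) (nat_lit 68793) (nat_lit 8) nil nil) (node (nat_lit 3) (nat_lit 64537)
  (nat_lit 7) (node (nat_lit 5) (nat_lit 63320) (nat_lit 8) nil nil) (node (nat_lit 0) (nat_lit
  68070) (nat_lit 7) nil nil)))) (node (nat_lit 7) (nat_lit 66094) (nat_lit 6) (node (nat_lit 6)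
  (nat_lit 67278) (nat_lit 7) (node (nat_lit 5) (nat_lit 68001) (nat_lit 8) nil nil) nil) (node
  (nat_lit 4) (nat_lit 66955) (nat_lit 6) (node (nat_lit 6) (nat_lit 68139) (nat_lit 7) nil (node
  (nat_lit 3) (nat_lit 64188) (nat_lit 7) (node (nat_lit 5) (nat_lit 60838) (nat_lit 8) nil nil)
  nil)) (node (nat_lit 3) (nat_lit 62225) (nat_lit 6) (node (nat_lit 6) (nat_lit 63410) (nat_lit
  7) nil (node (nat_lit 4) (nat_lit 60646) (nat_lit 7) (node (nat_lit 5) (nat_lit 48744) (nat_lit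
  8) (node (nat_lit 6) (nat_lit 19961) (nat_lit 9) nil nil) nil) nil)) (node (nat_lit 0) (nat_lit
  65373) (nat_lit 6) nil nil))))) (node (nat_lit 6) (nat_lit 65009) (nat_lit 5) (node (nat_lit 5)
  (nat_lit 66999) (nat_lit 6) (node (nat_lit 6) (nat_lit 68184) (nat_lit 7) (node (nat_lit 7)
  (nat_lit 68906) (nat_lit 8) (node (nat_lit 5) (nat_lit 69429) (nat_lit 9) nil nil) nil) (node
  (nat_lit 3) (nat_lit 64424) (nat_lit 7) nil nil)) (node (nat_lit 4) (nat_lit 67001) (nat_lit 6)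
  (node (nat_lit 6) (nat_lit 68186) (nat_lit 7) nil nil) (node (nat_lit 3) (nat_lit 62272)
  (nat_lit 6) (node (nat_lit 5) (nat_lit 60455) (nat_lit 7) nil (node (nat_lit 4) (nat_lit 63456)
  (nat_lit 7) nil nil)) (node (nat_lit 0) (nat_lit 67001) (nat_lit 6) nil nil)))) (node (nat_lit
  4) (nat_lit 65761) (nat_lit 5) (node (nat_lit 6) (nat_lit 67753) (nat_lit 6) nil (node (nat_lit
  7) (nat_lit 67753) (nat_lit 6) nil (node (nat_lit 5) (nat_lit 66415) (nat_lit 6) nil (node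
  (nat_lit 3) (nat_lit 62862) (nat_lit 6) (node (nat_lit 4) (nat_lit 52940) (nat_lit 7) (node
  (nat_lit 5) (nat_lit 38051) (nat_lit 8) nil nil) nil) nil)))) (node (nat_lit 3) (nat_lit 62374)
  (nat_lit 5) (node (nat_lit 4) (nat_lit 64360) (nat_lit 6) (node (nat_lit 8) (nat_lit 62573)
  (nat_lit 7) nil nil) (node (nat_lit 5) (nat_lit 58818) (nat_lit 6) (node (nat_lit 4) (nat_lit
  52175) (nat_lit 7) nil nil) nil)) (node (nat_lit 0) (nat_lit 64887) (nat_lit 5) (node (nat_lit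
  5) (nat_lit 65712) (nat_lit 6) nil (node (nat_lit 4) (nat_lit 65712) (nat_lit 6) nil (node
  (nat_lit 3) (nat_lit 62150) (nat_lit 6) (node (nat_lit 5) (nat_lit 60334) (nat_lit 7) nil nil)
  nil))) nil))))) nil)))

noncomputable def t181 : Tr :=
  (node (nat_lit 4) (nat_lit 0) (nat_lit 4) (node (nat_lit 0) (nat_lit 0) (nat_lit 5) (node
  (nat_lit 5) (nat_lit 34541) (nat_lit 6) (node (nat_lit 6) (nat_lit 38380) (nat_lit 7) (node
  (nat_lit 5) (nat_lit 40220) (nat_lit 8) nil (node (nat_lit 8) (nat_lit 39955) (nat_lit 8) nil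
  nil)) (node (nat_lit 4) (nat_lit 38575) (nat_lit 7) (node (nat_lit 8) (nat_lit 39092) (nat_lit
  8) (node (nat_lit 4) (nat_lit 38068) (nat_lit 9) nil (node (nat_lit 6) (nat_lit 38166) (nat_lit
  9) (node (nat_lit 5) (nat_lit 38354) (nat_lit 10) (node (nat_lit 4) (nat_lit 36353) (nat_lit 11)
  nil nil) (node (nat_lit 4) (nat_lit 39032) (nat_lit 10) nil nil)) nil)) (node (nat_lit 5)
  (nat_lit 40150) (nat_lit 8) nil (node (nat_lit 6) (nat_lit 38573) (nat_lit 8) (node (nat_lit 5)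
  (nat_lit 38638) (nat_lit 9) (node (nat_lit 4) (nat_lit 34931) (nat_lit 10) (node (nat_lit 5)
  (nat_lit 33438) (nat_lit 11) (node (nat_lit 6) (nat_lit 29684) (nat_lit 12) nil nil) nil) nil)
  (node (nat_lit 4) (nat_lit 36636) (nat_lit 9) nil nil)) (node (nat_lit 0) (nat_lit 40150)
  (nat_lit 8) nil nil)))) (node (nat_lit 8) (nat_lit 37714) (nat_lit 7) (node (nat_lit 4) (nat_lit
  39298) (nat_lit 8) (node (nat_lit 5) (nat_lit 40439) (nat_lit 9) (node (nat_lit 4) (nat_lit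
  39562) (nat_lit 10) nil nil) (node (nat_lit 6) (nat_lit 34674) (nat_lit 9) (node (nat_lit 4)
  (nat_lit 33766) (nat_lit 10) nil nil) nil)) (node (nat_lit 6) (nat_lit 39860) (nat_lit 8) (node
  (nat_lit 5) (nat_lit 38252) (nat_lit 9) (node (nat_lit 4) (nat_lit 35601) (nat_lit 10) (node
  (nat_lit 8) (nat_lit 36366) (nat_lit 11) nil nil) nil) nil) nil)) (node (nat_lit 0) (nat_lit
  37123) (nat_lit 7) nil nil)))) (node (nat_lit 4) (nat_lit 29563) (nat_lit 6) (node (nat_lit 6)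
  (nat_lit 32204) (nat_lit 7) (node (nat_lit 8) (nat_lit 33779) (nat_lit 8) (node (nat_lit 6)
  (nat_lit 34920) (nat_lit 9) (node (nat_lit 4) (nat_lit 36874) (nat_lit 10) (node (nat_lit 8)
  (nat_lit 37639) (nat_lit 11) (node (nat_lit 6) (nat_lit 37242) (nat_lit 12) nil nil) nil) nil)
  (node (nat_lit 5) (nat_lit 40383) (nat_lit 9) (node (nat_lit 6) (nat_lit 39584) (nat_lit 10) nil
  nil) nil)) (node (nat_lit 4) (nat_lit 28721) (nat_lit 8) (node (nat_lit 5) (nat_lit 32296)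
  (nat_lit 9) (node (nat_lit 6) (nat_lit 20584) (nat_lit 10) (node (nat_lit 4) (nat_lit 16252)
  (nat_lit 11) nil nil) nil) (node (nat_lit 8) (nat_lit 29244) (nat_lit 9) nil (node (nat_lit 0)
  (nat_lit 29244) (nat_lit 9) nil nil))) (node (nat_lit 5) (nat_lit 36301) (nat_lit 8) (node
  (nat_lit 4) (nat_lit 34086) (nat_lit 9) (node (nat_lit 5) (nat_lit 24366) (nat_lit 10) (node
  (nat_lit 6) (nat_lit 18215) (nat_lit 11) (node (nat_lit 4) (nat_lit 9359) (nat_lit 12) nil nil)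
  nil) nil) nil) (node (nat_lit 0) (nat_lit 33779) (nat_lit 8) nil nil)))) (node (nat_lit 5)
  (nat_lit 39024) (nat_lit 7) (node (nat_lit 8) (nat_lit 40598) (nat_lit 8) (node (nat_lit 6)
  (nat_lit 39673) (nat_lit 9) nil nil) (node (nat_lit 6) (nat_lit 37976) (nat_lit 8) nil nil))
  (node (nat_lit 0) (nat_lit 36139) (nat_lit 7) nil nil))) (node (nat_lit 6) (nat_lit 29564)
  (nat_lit 6) (node (nat_lit 8) (nat_lit 32204) (nat_lit 7) (node (nat_lit 4) (nat_lit 33779)
  (nat_lit 8) (node (nat_lit 6) (nat_lit 34560) (nat_lit 9) (node (nat_lit 4) (nat_lit 34679)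
  (nat_lit 10) (node (nat_lit 8) (nat_lit 35444) (nat_lit 11) (node (nat_lit 6) (nat_lit 35046)
  (nat_lit 12) nil nil) nil) nil) (node (nat_lit 8) (nat_lit 34920) (nat_lit 9) nil (node (nat_lit
  5) (nat_lit 34920) (nat_lit 9) nil nil))) (node (nat_lit 5) (nat_lit 33779) (nat_lit 8) nil
  (node (nat_lit 0) (nat_lit 33779) (nat_lit 8) nil nil))) (node (nat_lit 5) (nat_lit 36974)
  (nat_lit 7) (node (nat_lit 4) (nat_lit 34573) (nat_lit 8) (node (nat_lit 5) (nat_lit 26121)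
  (nat_lit 9) (node (nat_lit 6) (nat_lit 9139) (nat_lit 10) (node (nat_lit 5) (nat_lit 9553)
  (nat_lit 11) nil nil) (node (nat_lit 8) (nat_lit 26987) (nat_lit 10) nil nil)) (node (nat_lit 6)
  (nat_lit 35607) (nat_lit 9) nil (node (nat_lit 8) (nat_lit 35714) (nat_lit 9) nil nil))) (node
  (nat_lit 8) (nat_lit 39030) (nat_lit 8) (node (nat_lit 5) (nat_lit 40170) (nat_lit 9) (node
  (nat_lit 6) (nat_lit 39371) (nat_lit 10) nil nil) nil) (node (nat_lit 6) (nat_lit 38548)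
  (nat_lit 8) nil nil))) (node (nat_lit 4) (nat_lit 32204) (nat_lit 7) (node (nat_lit 6) (nat_lit
  33779) (nat_lit 8) (node (nat_lit 8) (nat_lit 34920) (nat_lit 9) (node (nat_lit 4) (nat_lit
  34043) (nat_lit 10) nil nil) nil) (node (nat_lit 5) (nat_lit 38057) (nat_lit 8) (node (nat_lit
  8) (nat_lit 39198) (nat_lit 9) nil nil) nil)) (node (nat_lit 0) (nat_lit 35834) (nat_lit 7) nil
  nil)))) (node (nat_lit 0) (nat_lit 33912) (nat_lit 6) (node (nat_lit 4) (nat_lit 36716) (nat_lit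
  7) (node (nat_lit 6) (nat_lit 30493) (nat_lit 8) nil nil) (node (nat_lit 8) (nat_lit 36494)
  (nat_lit 7) nil (node (nat_lit 6) (nat_lit 37118) (nat_lit 7) nil (node (nat_lit 5) (nat_lit
  36494) (nat_lit 7) nil (node (nat_lit 0) (nat_lit 36494) (nat_lit 7) nil nil))))) nil)))) (node
  (nat_lit 6) (nat_lit 0) (nat_lit 5) (node (nat_lit 5) (nat_lit 18827) (nat_lit 6) (node (nat_lit
  4) (nat_lit 20252) (nat_lit 7) (node (nat_lit 5) (nat_lit 23485) (nat_lit 8) (node (nat_lit 6)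
  (nat_lit 11623) (nat_lit 9) (node (nat_lit 4) (nat_lit 7654) (nat_lit 10) (node (nat_lit 5)
  (nat_lit 9052) (nat_lit 11) (node (nat_lit 4) (nat_lit 9735) (nat_lit 12) (node (nat_lit 6)
  (nat_lit 10268) (nat_lit 13) (node (nat_lit 4) (nat_lit 0) (nat_lit 14) (node (nat_lit 5)
  (nat_lit 11228) (nat_lit 15) (node (nat_lit 6) (nat_lit 11482) (nat_lit 16) (node (nat_lit 4)
  (nat_lit 11679) (nat_lit 17) (node (nat_lit 6) (nat_lit 7104) (nat_lit 18) nil nil) nil) nil)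
  (node (nat_lit 0) (nat_lit 11009) (nat_lit 15) nil nil)) (node (nat_lit 0) (nat_lit 10684)
  (nat_lit 14) nil (node (nat_lit 5) (nat_lit 10684) (nat_lit 14) nil nil))) (node (nat_lit 0)
  (nat_lit 10268) (nat_lit 13) nil nil)) (node (nat_lit 0) (nat_lit 9735) (nat_lit 12) (node
  (nat_lit 5) (nat_lit 10268) (nat_lit 13) nil (node (nat_lit 4) (nat_lit 9260) (nat_lit 13) nil
  (node (nat_lit 6) (nat_lit 10268) (nat_lit 13) nil nil))) nil)) (node (nat_lit 0) (nat_lit 8600)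
  (nat_lit 11) (node (nat_lit 5) (nat_lit 9284) (nat_lit 12) nil (node (nat_lit 4) (nat_lit 9445)
  (nat_lit 12) (node (nat_lit 6) (nat_lit 8572) (nat_lit 13) nil nil) (node (nat_lit 6) (nat_lit
  9284) (nat_lit 12) (node (nat_lit 5) (nat_lit 9817) (nat_lit 13) nil nil) (node (nat_lit 0)
  (nat_lit 9284) (nat_lit 12) nil nil)))) nil)) (node (nat_lit 5) (nat_lit 14931) (nat_lit 10)
  (node (nat_lit 4) (nat_lit 17260) (nat_lit 11) (node (nat_lit 6) (nat_lit 18526) (nat_lit 12)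
  (node (nat_lit 4) (nat_lit 19375) (nat_lit 13) nil nil) (node (nat_lit 0) (nat_lit 18489)
  (nat_lit 12) nil nil)) (node (nat_lit 0) (nat_lit 16976) (nat_lit 11) (node (nat_lit 5) (nat_lit
  18205) (nat_lit 12) nil (node (nat_lit 4) (nat_lit 16889) (nat_lit 12) nil (node (nat_lit 6)
  (nat_lit 17091) (nat_lit 12) nil nil))) nil)) (node (nat_lit 0) (nat_lit 14510) (nat_lit 10)
  (node (nat_lit 4) (nat_lit 16156) (nat_lit 11) nil (node (nat_lit 5) (nat_lit 16084) (nat_lit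
  11) nil (node (nat_lit 6) (nat_lit 15301) (nat_lit 11) nil (node (nat_lit 0) (nat_lit 16084)
  (nat_lit 11) nil nil)))) nil))) (node (nat_lit 0) (nat_lit 27650) (nat_lit 9) (node (nat_lit 5)
  (nat_lit 29668) (nat_lit 10) nil nil) nil)) (node (nat_lit 6) (nat_lit 26022) (nat_lit 8) (node
  (nat_lit 4) (nat_lit 24768) (nat_lit 9) (node (nat_lit 5) (nat_lit 25664) (nat_lit 10) (node
  (nat_lit 6) (nat_lit 24928) (nat_lit 11) nil nil) nil) (node (nat_lit 0) (nat_lit 28689)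
  (nat_lit 9) nil nil)) (node (nat_lit 0) (nat_lit 31753) (nat_lit 8) (node (nat_lit 5) (nat_lit
  33375) (nat_lit 9) nil (node (nat_lit 6) (nat_lit 31309) (nat_lit 9) nil (node (nat_lit 4)
  (nat_lit 31211) (nat_lit 9) nil nil))) nil))) (node (nat_lit 6) (nat_lit 25071) (nat_lit 7)
  (node (nat_lit 4) (nat_lit 31079) (nat_lit 8) (node (nat_lit 5) (nat_lit 35017) (nat_lit 9)
  (node (nat_lit 4) (nat_lit 34920) (nat_lit 10) nil (node (nat_lit 6) (nat_lit 35246) (nat_lit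
  10) nil nil)) (node (nat_lit 0) (nat_lit 33746) (nat_lit 9) nil nil)) (node (nat_lit 0) (nat_lit
  36865) (nat_lit 8) (node (nat_lit 4) (nat_lit 36323) (nat_lit 9) nil (node (nat_lit 5) (nat_lit
  38487) (nat_lit 9) nil nil)) nil)) (node (nat_lit 0) (nat_lit 33905) (nat_lit 7) (node (nat_lit
  4) (nat_lit 38684) (nat_lit 8) (node (nat_lit 6) (nat_lit 40855) (nat_lit 9) (node (nat_lit 10)
  (nat_lit 41722) (nat_lit 10) nil (node (nat_lit 4) (nat_lit 36622) (nat_lit 10) (node (nat_lit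
  5) (nat_lit 35497) (nat_lit 11) (node (nat_lit 6) (nat_lit 32324) (nat_lit 12) nil nil) nil)
  (node (nat_lit 0) (nat_lit 41722) (nat_lit 10) nil nil))) (node (nat_lit 5) (nat_lit 40306)
  (nat_lit 9) nil nil)) (node (nat_lit 6) (nat_lit 38320) (nat_lit 8) (node (nat_lit 5) (nat_lit
  36118) (nat_lit 9) nil nil) (node (nat_lit 5) (nat_lit 39033) (nat_lit 8) (node (nat_lit 6)
  (nat_lit 40959) (nat_lit 9) (node (nat_lit 10) (nat_lit 41825) (nat_lit 10) nil nil) nil) (node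
  (nat_lit 0) (nat_lit 37423) (nat_lit 8) nil nil)))) nil))) (node (nat_lit 0) (nat_lit 24815)
  (nat_lit 6) (node (nat_lit 4) (nat_lit 29348) (nat_lit 7) (node (nat_lit 9) (nat_lit 32866)
  (nat_lit 8) (node (nat_lit 6) (nat_lit 34493) (nat_lit 9) (node (nat_lit 9) (nat_lit 35359)
  (nat_lit 10) nil nil) (node (nat_lit 0) (nat_lit 34488) (nat_lit 9) nil nil)) (node (nat_lit 5)
  (nat_lit 38418) (nat_lit 8) nil (node (nat_lit 6) (nat_lit 32421) (nat_lit 8) (node (nat_lit 4)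
  (nat_lit 28795) (nat_lit 9) nil nil) (node (nat_lit 0) (nat_lit 32866) (nat_lit 8) nil nil))))
  (node (nat_lit 6) (nat_lit 29348) (nat_lit 7) (node (nat_lit 4) (nat_lit 32866) (nat_lit 8)
  (node (nat_lit 9) (nat_lit 34488) (nat_lit 9) nil (node (nat_lit 6) (nat_lit 32422) (nat_lit 9)
  nil nil)) (node (nat_lit 5) (nat_lit 37115) (nat_lit 8) nil (node (nat_lit 0) (nat_lit 32866)
  (nat_lit 8) nil nil))) (node (nat_lit 5) (nat_lit 36377) (nat_lit 7) (node (nat_lit 6) (nat_lit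
  40283) (nat_lit 8) (node (nat_lit 5) (nat_lit 41491) (nat_lit 9) (node (nat_lit 4) (nat_lit
  36105) (nat_lit 10) nil nil) (node (nat_lit 9) (nat_lit 41491) (nat_lit 9) nil nil)) (node
  (nat_lit 4) (nat_lit 37166) (nat_lit 8) nil (node (nat_lit 9) (nat_lit 39894) (nat_lit 8) nil
  nil))) (node (nat_lit 0) (nat_lit 36215) (nat_lit 7) (node (nat_lit 4) (nat_lit 36704) (nat_lit
  8) nil (node (nat_lit 6) (nat_lit 37110) (nat_lit 8) nil nil)) nil)))) nil)) (node (nat_lit 5)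
  (nat_lit 0) (nat_lit 5) (node (nat_lit 4) (nat_lit 0) (nat_lit 6) (node (nat_lit 6) (nat_lit
  16588) (nat_lit 7) (node (nat_lit 5) (nat_lit 18244) (nat_lit 8) (node (nat_lit 6) (nat_lit
  19714) (nat_lit 9) (node (nat_lit 4) (nat_lit 21932) (nat_lit 10) (node (nat_lit 6) (nat_lit
  22631) (nat_lit 11) (node (nat_lit 5) (nat_lit 21061) (nat_lit 12) (node (nat_lit 4) (nat_lit
  21011) (nat_lit 13) nil nil) nil) (node (nat_lit 0) (nat_lit 22631) (nat_lit 11) nil nil)) nil)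
  (node (nat_lit 4) (nat_lit 20452) (nat_lit 9) (node (nat_lit 5) (nat_lit 17073) (nat_lit 10) nil
  nil) nil)) (node (nat_lit 4) (nat_lit 19373) (nat_lit 8) (node (nat_lit 5) (nat_lit 20603)
  (nat_lit 9) nil nil) (node (nat_lit 0) (nat_lit 20628) (nat_lit 8) nil nil))) (node (nat_lit 0)
  (nat_lit 19626) (nat_lit 7) (node (nat_lit 5) (nat_lit 21069) (nat_lit 8) nil (node (nat_lit 6)
  (nat_lit 20984) (nat_lit 8) (node (nat_lit 4) (nat_lit 21687) (nat_lit 9) nil nil) nil)) nil))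
  (node (nat_lit 0) (nat_lit 15806) (nat_lit 6) (node (nat_lit 4) (nat_lit 20533) (nat_lit 7)
  (node (nat_lit 6) (nat_lit 21977) (nat_lit 8) (node (nat_lit 4) (nat_lit 22681) (nat_lit 9) nil
  (node (nat_lit 5) (nat_lit 18983) (nat_lit 9) nil nil)) nil) (node (nat_lit 5) (nat_lit 18302)
  (nat_lit 7) (node (nat_lit 4) (nat_lit 19746) (nat_lit 8) nil (node (nat_lit 6) (nat_lit 20308)
  (nat_lit 8) (node (nat_lit 9) (nat_lit 21012) (nat_lit 9) (node (nat_lit 4) (nat_lit 21410)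
  (nat_lit 10) (node (nat_lit 5) (nat_lit 21760) (nat_lit 11) nil nil) (node (nat_lit 6) (nat_lit
  20607) (nat_lit 10) (node (nat_lit 5) (nat_lit 19596) (nat_lit 11) nil nil) (node (nat_lit 0)
  (nat_lit 21410) (nat_lit 10) nil nil))) (node (nat_lit 5) (nat_lit 21012) (nat_lit 9) (node
  (nat_lit 4) (nat_lit 21686) (nat_lit 10) nil nil) (node (nat_lit 0) (nat_lit 21677) (nat_lit 9)
  nil nil))) nil)) (node (nat_lit 6) (nat_lit 18282) (nat_lit 7) (node (nat_lit 5) (nat_lit 19772)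
  (nat_lit 8) (node (nat_lit 4) (nat_lit 19512) (nat_lit 9) (node (nat_lit 5) (nat_lit 11433)
  (nat_lit 10) nil nil) nil) (node (nat_lit 9) (nat_lit 19726) (nat_lit 8) nil nil)) (node
  (nat_lit 0) (nat_lit 19788) (nat_lit 7) nil nil)))) nil)) nil))) (node (nat_lit 0) (nat_lit 0)
  (nat_lit 4) (node (nat_lit 5) (nat_lit 0) (nat_lit 5) (node (nat_lit 6) (nat_lit 54186) (nat_lit
  6) (node (nat_lit 5) (nat_lit 55371) (nat_lit 7) (node (nat_lit 7) (nat_lit 56093) (nat_lit 8)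
  (node (nat_lit 5) (nat_lit 58725) (nat_lit 9) (node (nat_lit 6) (nat_lit 60100) (nat_lit 10)
  (node (nat_lit 7) (nat_lit 60346) (nat_lit 11) (node (nat_lit 6) (nat_lit 60254) (nat_lit 12)
  (node (nat_lit 5) (nat_lit 60197) (nat_lit 13) (node (nat_lit 6) (nat_lit 60397) (nat_lit 14)
  nil nil) nil) (node (nat_lit 5) (nat_lit 60664) (nat_lit 12) nil nil)) (node (nat_lit 4)
  (nat_lit 60451) (nat_lit 11) nil nil)) (node (nat_lit 4) (nat_lit 61016) (nat_lit 10) (node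
  (nat_lit 7) (nat_lit 61367) (nat_lit 11) nil (node (nat_lit 6) (nat_lit 60008) (nat_lit 11) nil
  nil)) (node (nat_lit 0) (nat_lit 61016) (nat_lit 10) (node (nat_lit 7) (nat_lit 61367) (nat_lit
  11) nil (node (nat_lit 5) (nat_lit 61367) (nat_lit 11) nil nil)) nil))) (node (nat_lit 6)
  (nat_lit 58661) (nat_lit 9) (node (nat_lit 5) (nat_lit 58301) (nat_lit 10) (node (nat_lit 6)
  (nat_lit 58652) (nat_lit 11) nil (node (nat_lit 4) (nat_lit 58098) (nat_lit 11) nil nil)) (node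
  (nat_lit 7) (nat_lit 59225) (nat_lit 10) (node (nat_lit 5) (nat_lit 59576) (nat_lit 11) (node
  (nat_lit 6) (nat_lit 58804) (nat_lit 12) (node (nat_lit 5) (nat_lit 58579) (nat_lit 13) nil nil)
  nil) nil) nil)) (node (nat_lit 4) (nat_lit 60479) (nat_lit 9) (node (nat_lit 6) (nat_lit 59099)
  (nat_lit 10) nil nil) (node (nat_lit 0) (nat_lit 60516) (nat_lit 9) nil nil)))) (node (nat_lit
  4) (nat_lit 55776) (nat_lit 8) (node (nat_lit 6) (nat_lit 56299) (nat_lit 9) nil (node (nat_lit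
  5) (nat_lit 53018) (nat_lit 9) (node (nat_lit 6) (nat_lit 41094) (nat_lit 10) (node (nat_lit 7)
  (nat_lit 33731) (nat_lit 11) nil nil) nil) nil)) (node (nat_lit 0) (nat_lit 60531) (nat_lit 8)
  nil nil))) (node (nat_lit 4) (nat_lit 61971) (nat_lit 7) (node (nat_lit 7) (nat_lit 62836)
  (nat_lit 8) (node (nat_lit 6) (nat_lit 61292) (nat_lit 9) nil (node (nat_lit 5) (nat_lit 61292)
  (nat_lit 9) nil nil)) (node (nat_lit 5) (nat_lit 49564) (nat_lit 8) (node (nat_lit 7) (nat_lit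
  50705) (nat_lit 9) nil (node (nat_lit 6) (nat_lit 40923) (nat_lit 9) (node (nat_lit 5) (nat_lit
  41230) (nat_lit 10) nil (node (nat_lit 7) (nat_lit 19964) (nat_lit 10) nil nil)) nil)) (node
  (nat_lit 6) (nat_lit 60646) (nat_lit 8) (node (nat_lit 5) (nat_lit 58435) (nat_lit 9) (node
  (nat_lit 6) (nat_lit 58431) (nat_lit 10) nil nil) nil) nil))) (node (nat_lit 0) (nat_lit 61533)
  (nat_lit 7) nil nil))) (node (nat_lit 4) (nat_lit 62273) (nat_lit 6) (node (nat_lit 7) (nat_lit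
  63458) (nat_lit 7) (node (nat_lit 6) (nat_lit 61558) (nat_lit 8) nil (node (nat_lit 5) (nat_lit
  64067) (nat_lit 8) (node (nat_lit 6) (nat_lit 62637) (nat_lit 9) nil nil) nil)) (node (nat_lit
  6) (nat_lit 59925) (nat_lit 7) (node (nat_lit 5) (nat_lit 57860) (nat_lit 8) (node (nat_lit 6)
  (nat_lit 57659) (nat_lit 9) nil (node (nat_lit 4) (nat_lit 56869) (nat_lit 9) nil nil)) (node
  (nat_lit 4) (nat_lit 54227) (nat_lit 8) (node (nat_lit 5) (nat_lit 49877) (nat_lit 9) (node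
  (nat_lit 6) (nat_lit 39964) (nat_lit 10) (node (nat_lit 7) (nat_lit 28181) (nat_lit 11) nil nil)
  nil) nil) nil)) nil)) (node (nat_lit 7) (nat_lit 54186) (nat_lit 6) (node (nat_lit 6) (nat_lit
  55371) (nat_lit 7) (node (nat_lit 5) (nat_lit 56093) (nat_lit 8) (node (nat_lit 7) (nat_lit
  58602) (nat_lit 9) (node (nat_lit 5) (nat_lit 58501) (nat_lit 10) (node (nat_lit 6) (nat_lit
  57493) (nat_lit 11) nil nil) nil) (node (nat_lit 6) (nat_lit 56617) (nat_lit 9) nil (node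
  (nat_lit 4) (nat_lit 49012) (nat_lit 9) nil nil))) (node (nat_lit 4) (nat_lit 60435) (nat_lit 8)
  nil nil)) (node (nat_lit 4) (nat_lit 54089) (nat_lit 7) nil (node (nat_lit 0) (nat_lit 55371)
  (nat_lit 7) nil nil))) (node (nat_lit 0) (nat_lit 60922) (nat_lit 6) nil nil)))) (node (nat_lit
  4) (nat_lit 0) (nat_lit 5) (node (nat_lit 6) (nat_lit 53685) (nat_lit 6) (node (nat_lit 4)
  (nat_lit 52273) (nat_lit 7) (node (nat_lit 7) (nat_lit 54843) (nat_lit 8) (node (nat_lit 6)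
  (nat_lit 55984) (nat_lit 9) nil (node (nat_lit 4) (nat_lit 56687) (nat_lit 9) (node (nat_lit 5)
  (nat_lit 57554) (nat_lit 10) nil (node (nat_lit 0) (nat_lit 57554) (nat_lit 10) nil nil)) (node
  (nat_lit 5) (nat_lit 57909) (nat_lit 9) (node (nat_lit 6) (nat_lit 56564) (nat_lit 10) (node
  (nat_lit 7) (nat_lit 57329) (nat_lit 11) nil nil) nil) nil))) (node (nat_lit 5) (nat_lit 47175)
  (nat_lit 8) (node (nat_lit 6) (nat_lit 42516) (nat_lit 9) (node (nat_lit 7) (nat_lit 22270)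
  (nat_lit 10) nil (node (nat_lit 5) (nat_lit 42985) (nat_lit 10) (node (nat_lit 4) (nat_lit
  41851) (nat_lit 11) nil nil) nil)) (node (nat_lit 7) (nat_lit 48316) (nat_lit 9) nil (node
  (nat_lit 4) (nat_lit 46152) (nat_lit 9) nil nil))) (node (nat_lit 0) (nat_lit 53848) (nat_lit 8)
  nil nil))) (node (nat_lit 5) (nat_lit 56302) (nat_lit 7) (node (nat_lit 4) (nat_lit 55484)
  (nat_lit 8) (node (nat_lit 5) (nat_lit 49608) (nat_lit 9) (node (nat_lit 6) (nat_lit 43792)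
  (nat_lit 10) (node (nat_lit 7) (nat_lit 33903) (nat_lit 11) nil nil) nil) (node (nat_lit 7)
  (nat_lit 56625) (nat_lit 9) nil (node (nat_lit 6) (nat_lit 56757) (nat_lit 9) nil nil))) (node
  (nat_lit 7) (nat_lit 57877) (nat_lit 8) (node (nat_lit 5) (nat_lit 56854) (nat_lit 9) nil nil)
  (node (nat_lit 6) (nat_lit 58921) (nat_lit 8) nil nil))) (node (nat_lit 0) (nat_lit 57903)
  (nat_lit 7) nil (node (nat_lit 7) (nat_lit 58149) (nat_lit 7) nil nil)))) (node (nat_lit 7)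
  (nat_lit 58788) (nat_lit 6) (node (nat_lit 6) (nat_lit 57837) (nat_lit 7) (node (nat_lit 5)
  (nat_lit 54727) (nat_lit 8) nil nil) nil) (node (nat_lit 5) (nat_lit 61309) (nat_lit 6) (node
  (nat_lit 7) (nat_lit 63649) (nat_lit 7) nil (node (nat_lit 4) (nat_lit 60192) (nat_lit 7) nil
  nil)) (node (nat_lit 0) (nat_lit 55066) (nat_lit 6) nil nil)))) (node (nat_lit 6) (nat_lit 0)
  (nat_lit 5) (node (nat_lit 5) (nat_lit 53778) (nat_lit 6) (node (nat_lit 7) (nat_lit 55364)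
  (nat_lit 7) (node (nat_lit 5) (nat_lit 56087) (nat_lit 8) (node (nat_lit 6) (nat_lit 58777)
  (nat_lit 9) (node (nat_lit 7) (nat_lit 60379) (nat_lit 10) (node (nat_lit 6) (nat_lit 61281)
  (nat_lit 11) (node (nat_lit 5) (nat_lit 59901) (nat_lit 12) (node (nat_lit 6) (nat_lit 60159)
  (nat_lit 13) nil nil) nil) (node (nat_lit 5) (nat_lit 60730) (nat_lit 11) nil (node (nat_lit 4)
  (nat_lit 60730) (nat_lit 11) nil nil))) nil) nil) nil) (node (nat_lit 6) (nat_lit 55364)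
  (nat_lit 7) (node (nat_lit 7) (nat_lit 56087) (nat_lit 8) nil (node (nat_lit 4) (nat_lit 55429)
  (nat_lit 8) (node (nat_lit 5) (nat_lit 46465) (nat_lit 9) (node (nat_lit 6) (nat_lit 36740)
  (nat_lit 10) nil nil) nil) (node (nat_lit 0) (nat_lit 56087) (nat_lit 8) nil nil))) (node
  (nat_lit 4) (nat_lit 53434) (nat_lit 7) (node (nat_lit 5) (nat_lit 43792) (nat_lit 8) (node
  (nat_lit 6) (nat_lit 32903) (nat_lit 9) nil nil) (node (nat_lit 7) (nat_lit 55009) (nat_lit 8)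
  nil (node (nat_lit 6) (nat_lit 49537) (nat_lit 8) nil nil))) (node (nat_lit 0) (nat_lit 55364)
  (nat_lit 7) nil nil)))) (node (nat_lit 4) (nat_lit 58978) (nat_lit 6) (node (nat_lit 7) (nat_lit
  62453) (nat_lit 7) (node (nat_lit 4) (nat_lit 61734) (nat_lit 8) (node (nat_lit 6) (nat_lit
  59467) (nat_lit 9) nil nil) (node (nat_lit 5) (nat_lit 61734) (nat_lit 8) nil nil)) (node
  (nat_lit 6) (nat_lit 58027) (nat_lit 7) nil nil)) (node (nat_lit 0) (nat_lit 60655) (nat_lit 6)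
  (node (nat_lit 4) (nat_lit 59538) (nat_lit 7) nil nil) nil))) (node (nat_lit 0) (nat_lit 55654)
  (nat_lit 5) (node (nat_lit 6) (nat_lit 56268) (nat_lit 6) (node (nat_lit 5) (nat_lit 54452)
  (nat_lit 7) (node (nat_lit 6) (nat_lit 55174) (nat_lit 8) nil nil) nil) (node (nat_lit 5)
  (nat_lit 60998) (nat_lit 6) nil (node (nat_lit 7) (nat_lit 60168) (nat_lit 6) nil (node (nat_lit
  4) (nat_lit 60998) (nat_lit 6) (node (nat_lit 6) (nat_lit 53678) (nat_lit 7) nil nil) (node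
  (nat_lit 0) (nat_lit 60168) (nat_lit 6) nil nil))))) nil)))) (node (nat_lit 5) (nat_lit 0)
  (nat_lit 4) (node (nat_lit 0) (nat_lit 0) (nat_lit 5) (node (nat_lit 4) (nat_lit 57335) (nat_lit
  6) (node (nat_lit 6) (nat_lit 59776) (nat_lit 7) (node (nat_lit 8) (nat_lit 60499) (nat_lit 8)
  nil (node (nat_lit 5) (nat_lit 56313) (nat_lit 8) (node (nat_lit 4) (nat_lit 52623) (nat_lit 9)
  nil nil) (node (nat_lit 4) (nat_lit 58333) (nat_lit 8) (node (nat_lit 5) (nat_lit 51943)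
  (nat_lit 9) (node (nat_lit 6) (nat_lit 42030) (nat_lit 10) (node (nat_lit 5) (nat_lit 29684)
  (nat_lit 11) nil nil) nil) nil) (node (nat_lit 0) (nat_lit 60499) (nat_lit 8) nil nil)))) nil)
  (node (nat_lit 6) (nat_lit 52905) (nat_lit 6) (node (nat_lit 5) (nat_lit 55217) (nat_lit 7)
  (node (nat_lit 6) (nat_lit 55939) (nat_lit 8) (node (nat_lit 8) (nat_lit 56462) (nat_lit 9)
  (node (nat_lit 6) (nat_lit 55195) (nat_lit 10) (node (nat_lit 5) (nat_lit 54982) (nat_lit 11)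
  nil nil) nil) nil) nil) (node (nat_lit 8) (nat_lit 55217) (nat_lit 7) nil (node (nat_lit 4)
  (nat_lit 55487) (nat_lit 7) (node (nat_lit 8) (nat_lit 57061) (nat_lit 8) nil nil) nil))) (node
  (nat_lit 5) (nat_lit 53123) (nat_lit 6) (node (nat_lit 6) (nat_lit 55217) (nat_lit 7) (node
  (nat_lit 8) (nat_lit 55940) (nat_lit 8) (node (nat_lit 6) (nat_lit 56864) (nat_lit 9) (node
  (nat_lit 5) (nat_lit 54433) (nat_lit 10) nil nil) nil) (node (nat_lit 4) (nat_lit 54533)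
  (nat_lit 8) (node (nat_lit 5) (nat_lit 41192) (nat_lit 9) (node (nat_lit 6) (nat_lit 31044)
  (nat_lit 10) (node (nat_lit 5) (nat_lit 24993) (nat_lit 11) (node (nat_lit 8) (nat_lit 11508)
  (nat_lit 12) nil nil) nil) nil) nil) nil)) (node (nat_lit 4) (nat_lit 58331) (nat_lit 7) nil
  (node (nat_lit 0) (nat_lit 55242) (nat_lit 7) (node (nat_lit 8) (nat_lit 55964) (nat_lit 8) nil
  nil) nil))) (node (nat_lit 0) (nat_lit 54013) (nat_lit 6) nil nil)))) (node (nat_lit 4) (nat_lit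
  0) (nat_lit 5) (node (nat_lit 6) (nat_lit 40265) (nat_lit 6) (node (nat_lit 4) (nat_lit 43792)
  (nat_lit 7) (node (nat_lit 5) (nat_lit 43792) (nat_lit 8) (node (nat_lit 6) (nat_lit 28396)
  (nat_lit 9) (node (nat_lit 4) (nat_lit 29518) (nat_lit 10) nil nil) nil) (node (nat_lit 0)
  (nat_lit 43792) (nat_lit 8) nil nil)) (node (nat_lit 5) (nat_lit 41865) (nat_lit 7) (node
  (nat_lit 6) (nat_lit 43192) (nat_lit 8) (node (nat_lit 4) (nat_lit 43110) (nat_lit 9) (node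
  (nat_lit 5) (nat_lit 40078) (nat_lit 10) (node (nat_lit 6) (nat_lit 34840) (nat_lit 11) (node
  (nat_lit 5) (nat_lit 27654) (nat_lit 12) (node (nat_lit 4) (nat_lit 16784) (nat_lit 13) nil nil)
  nil) nil) nil) nil) (node (nat_lit 0) (nat_lit 43792) (nat_lit 8) nil nil)) (node (nat_lit 0)
  (nat_lit 43792) (nat_lit 7) nil nil))) (node (nat_lit 0) (nat_lit 43792) (nat_lit 6) (node
  (nat_lit 6) (nat_lit 43792) (nat_lit 7) nil (node (nat_lit 4) (nat_lit 43792) (nat_lit 7) (node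
  (nat_lit 6) (nat_lit 43792) (nat_lit 8) (node (nat_lit 5) (nat_lit 43792) (nat_lit 9) (node
  (nat_lit 4) (nat_lit 43792) (nat_lit 10) nil nil) nil) nil) (node (nat_lit 5) (nat_lit 43792)
  (nat_lit 7) (node (nat_lit 6) (nat_lit 43792) (nat_lit 8) (node (nat_lit 4) (nat_lit 43792)
  (nat_lit 9) (node (nat_lit 5) (nat_lit 43792) (nat_lit 10) nil nil) nil) nil) (node (nat_lit 0)
  (nat_lit 43792) (nat_lit 7) nil nil)))) (node (nat_lit 5) (nat_lit 19550) (nat_lit 6) (node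
  (nat_lit 6) (nat_lit 26725) (nat_lit 7) (node (nat_lit 4) (nat_lit 32669) (nat_lit 8) (node
  (nat_lit 5) (nat_lit 34105) (nat_lit 9) nil nil) nil) (node (nat_lit 0) (nat_lit 35106) (nat_lit
  7) (node (nat_lit 5) (nat_lit 34152) (nat_lit 8) (node (nat_lit 6) (nat_lit 34140) (nat_lit 9)
  (node (nat_lit 5) (nat_lit 34608) (nat_lit 10) nil nil) nil) nil) nil)) nil))) nil)) nil)))

noncomputable def t182 : Tr :=
  (node (nat_lit 4) (nat_lit 64343) (nat_lit 5) (node (nat_lit 6) (nat_lit 69159) (nat_lit 6)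
  (node (nat_lit 4) (nat_lit 81655) (nat_lit 7) (node (nat_lit 5) (nat_lit 86825) (nat_lit 8)
  (node (nat_lit 6) (nat_lit 80656) (nat_lit 9) (node (nat_lit 5) (nat_lit 71902) (nat_lit 10)
  (node (nat_lit 4) (nat_lit 48918) (nat_lit 11) (node (nat_lit 5) (nat_lit 49314) (nat_lit 12)
  nil nil) (node (nat_lit 3) (nat_lit 72898) (nat_lit 11) (node (nat_lit 6) (nat_lit 73190)
  (nat_lit 12) (node (nat_lit 5) (nat_lit 73723) (nat_lit 13) (node (nat_lit 6) (nat_lit 74139)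
  (nat_lit 14) (node (nat_lit 14) (nat_lit 73872) (nat_lit 15) nil nil) nil) (node (nat_lit 4)
  (nat_lit 73096) (nat_lit 13) nil (node (nat_lit 14) (nat_lit 73723) (nat_lit 13) nil nil)))
  (node (nat_lit 5) (nat_lit 73581) (nat_lit 12) (node (nat_lit 6) (nat_lit 74114) (nat_lit 13)
  (node (nat_lit 14) (nat_lit 73762) (nat_lit 14) nil nil) (node (nat_lit 4) (nat_lit 73106)
  (nat_lit 13) nil nil)) (node (nat_lit 4) (nat_lit 72265) (nat_lit 12) (node (nat_lit 5) (nat_lit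
  72798) (nat_lit 13) nil nil) (node (nat_lit 0) (nat_lit 73581) (nat_lit 12) nil nil)))) (node
  (nat_lit 0) (nat_lit 74072) (nat_lit 11) (node (nat_lit 6) (nat_lit 74755) (nat_lit 12) (node
  (nat_lit 5) (nat_lit 75288) (nat_lit 13) nil (node (nat_lit 14) (nat_lit 75288) (nat_lit 13) nil
  nil)) (node (nat_lit 5) (nat_lit 74755) (nat_lit 12) (node (nat_lit 6) (nat_lit 75288) (nat_lit
  13) nil nil) (node (nat_lit 4) (nat_lit 73439) (nat_lit 12) nil (node (nat_lit 3) (nat_lit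
  73439) (nat_lit 12) nil (node (nat_lit 0) (nat_lit 74755) (nat_lit 12) nil nil))))) nil))) (node
  (nat_lit 4) (nat_lit 83694) (nat_lit 10) (node (nat_lit 6) (nat_lit 85613) (nat_lit 11) (node
  (nat_lit 5) (nat_lit 86386) (nat_lit 12) (node (nat_lit 6) (nat_lit 0) (nat_lit 13) (node
  (nat_lit 4) (nat_lit 0) (nat_lit 14) (node (nat_lit 5) (nat_lit 87660) (nat_lit 15) nil (node
  (nat_lit 3) (nat_lit 87069) (nat_lit 15) nil (node (nat_lit 0) (nat_lit 87660) (nat_lit 15) nil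
  nil))) (node (nat_lit 0) (nat_lit 87335) (nat_lit 14) (node (nat_lit 4) (nat_lit 87069) (nat_lit
  15) nil nil) (node (nat_lit 3) (nat_lit 86567) (nat_lit 14) (node (nat_lit 4) (nat_lit 86301)
  (nat_lit 15) (node (nat_lit 5) (nat_lit 86025) (nat_lit 16) (node (nat_lit 6) (nat_lit 83430)
  (nat_lit 17) nil nil) nil) (node (nat_lit 6) (nat_lit 86666) (nat_lit 15) nil (node (nat_lit 5)
  (nat_lit 86892) (nat_lit 15) nil nil))) nil))) (node (nat_lit 4) (nat_lit 86920) (nat_lit 13)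
  (node (nat_lit 5) (nat_lit 87335) (nat_lit 14) nil (node (nat_lit 6) (nat_lit 86036) (nat_lit
  14) nil (node (nat_lit 3) (nat_lit 86135) (nat_lit 14) nil nil))) (node (nat_lit 3) (nat_lit
  85912) (nat_lit 13) (node (nat_lit 6) (nat_lit 86036) (nat_lit 14) nil nil) (node (nat_lit 0)
  (nat_lit 86920) (nat_lit 13) nil nil)))) (node (nat_lit 3) (nat_lit 86386) (nat_lit 12) (node
  (nat_lit 4) (nat_lit 85912) (nat_lit 13) nil (node (nat_lit 6) (nat_lit 85245) (nat_lit 13) nil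
  (node (nat_lit 5) (nat_lit 86920) (nat_lit 13) nil nil))) (node (nat_lit 0) (nat_lit 86386)
  (nat_lit 12) nil nil))) (node (nat_lit 0) (nat_lit 85480) (nat_lit 11) (node (nat_lit 4)
  (nat_lit 85070) (nat_lit 12) (node (nat_lit 6) (nat_lit 85147) (nat_lit 13) nil nil) (node
  (nat_lit 6) (nat_lit 85298) (nat_lit 12) nil (node (nat_lit 5) (nat_lit 86386) (nat_lit 12) nil
  nil))) (node (nat_lit 3) (nat_lit 85703) (nat_lit 11) (node (nat_lit 4) (nat_lit 86110) (nat_lit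
  12) (node (nat_lit 5) (nat_lit 85757) (nat_lit 13) (node (nat_lit 6) (nat_lit 83457) (nat_lit
  14) (node (nat_lit 5) (nat_lit 79562) (nat_lit 15) nil nil) nil) (node (nat_lit 6) (nat_lit
  85691) (nat_lit 13) nil nil)) (node (nat_lit 6) (nat_lit 86386) (nat_lit 12) (node (nat_lit 4)
  (nat_lit 84727) (nat_lit 13) nil nil) (node (nat_lit 5) (nat_lit 86386) (nat_lit 12) nil nil)))
  nil))) (node (nat_lit 0) (nat_lit 84545) (nat_lit 10) (node (nat_lit 6) (nat_lit 85607) (nat_lit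
  11) (node (nat_lit 5) (nat_lit 86386) (nat_lit 12) nil (node (nat_lit 4) (nat_lit 85424)
  (nat_lit 12) nil (node (nat_lit 3) (nat_lit 83282) (nat_lit 12) nil nil))) (node (nat_lit 5)
  (nat_lit 85703) (nat_lit 11) (node (nat_lit 6) (nat_lit 86038) (nat_lit 12) nil (node (nat_lit
  4) (nat_lit 84722) (nat_lit 12) nil (node (nat_lit 13) (nat_lit 86386) (nat_lit 12) nil nil)))
  (node (nat_lit 4) (nat_lit 85703) (nat_lit 11) (node (nat_lit 6) (nat_lit 84062) (nat_lit 12)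
  nil nil) (node (nat_lit 3) (nat_lit 84007) (nat_lit 11) nil (node (nat_lit 0) (nat_lit 85703)
  (nat_lit 11) nil nil))))) (node (nat_lit 3) (nat_lit 84392) (nat_lit 10) (node (nat_lit 4)
  (nat_lit 85703) (nat_lit 11) (node (nat_lit 5) (nat_lit 84341) (nat_lit 12) (node (nat_lit 6)
  (nat_lit 80861) (nat_lit 13) (node (nat_lit 5) (nat_lit 70962) (nat_lit 14) nil nil) nil) (node
  (nat_lit 6) (nat_lit 86386) (nat_lit 12) nil (node (nat_lit 13) (nat_lit 85070) (nat_lit 12) nil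
  nil))) (node (nat_lit 5) (nat_lit 85703) (nat_lit 11) (node (nat_lit 6) (nat_lit 86386) (nat_lit
  12) nil (node (nat_lit 4) (nat_lit 84205) (nat_lit 12) nil (node (nat_lit 13) (nat_lit 85070)
  (nat_lit 12) nil nil))) (node (nat_lit 6) (nat_lit 85703) (nat_lit 11) (node (nat_lit 4)
  (nat_lit 85521) (nat_lit 12) (node (nat_lit 5) (nat_lit 85493) (nat_lit 13) (node (nat_lit 6)
  (nat_lit 80878) (nat_lit 14) nil nil) nil) (node (nat_lit 5) (nat_lit 86386) (nat_lit 12) nil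
  nil)) (node (nat_lit 0) (nat_lit 85703) (nat_lit 11) nil nil)))) nil)))) (node (nat_lit 4)
  (nat_lit 94778) (nat_lit 9) (node (nat_lit 6) (nat_lit 97856) (nat_lit 10) (node (nat_lit 5)
  (nat_lit 97923) (nat_lit 11) (node (nat_lit 6) (nat_lit 97741) (nat_lit 12) nil (node (nat_lit
  4) (nat_lit 97741) (nat_lit 12) nil (node (nat_lit 3) (nat_lit 97686) (nat_lit 12) nil nil)))
  (node (nat_lit 3) (nat_lit 98110) (nat_lit 11) (node (nat_lit 4) (nat_lit 97105) (nat_lit 12)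
  nil (node (nat_lit 6) (nat_lit 98798) (nat_lit 12) nil nil)) (node (nat_lit 0) (nat_lit 99167)
  (nat_lit 11) nil nil))) (node (nat_lit 0) (nat_lit 96396) (nat_lit 10) nil (node (nat_lit 3)
  (nat_lit 96687) (nat_lit 10) (node (nat_lit 4) (nat_lit 95848) (nat_lit 11) nil nil) nil)))
  (node (nat_lit 3) (nat_lit 96752) (nat_lit 9) (node (nat_lit 4) (nat_lit 96254) (nat_lit 10) nil
  (node (nat_lit 6) (nat_lit 95713) (nat_lit 10) (node (nat_lit 4) (nat_lit 95242) (nat_lit 11)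
  nil nil) (node (nat_lit 5) (nat_lit 98370) (nat_lit 10) nil nil))) (node (nat_lit 0) (nat_lit
  97546) (nat_lit 9) (node (nat_lit 4) (nat_lit 95122) (nat_lit 10) nil (node (nat_lit 5) (nat_lit
  99164) (nat_lit 10) nil nil)) nil)))) (node (nat_lit 3) (nat_lit 100803) (nat_lit 8) (node
  (nat_lit 6) (nat_lit 99421) (nat_lit 9) (node (nat_lit 4) (nat_lit 99917) (nat_lit 10) (node
  (nat_lit 6) (nat_lit 98782) (nat_lit 11) nil (node (nat_lit 5) (nat_lit 100002) (nat_lit 11)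
  (node (nat_lit 6) (nat_lit 96514) (nat_lit 12) (node (nat_lit 5) (nat_lit 91014) (nat_lit 13)
  (node (nat_lit 4) (nat_lit 78722) (nat_lit 14) (node (nat_lit 6) (nat_lit 51523) (nat_lit 15)
  nil nil) nil) nil) nil) nil)) (node (nat_lit 11) (nat_lit 99210) (nat_lit 10) (node (nat_lit 4)
  (nat_lit 99214) (nat_lit 11) nil nil) nil)) (node (nat_lit 4) (nat_lit 98520) (nat_lit 9) (node
  (nat_lit 6) (nat_lit 96623) (nat_lit 10) (node (nat_lit 11) (nat_lit 95749) (nat_lit 11) nil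
  nil) (node (nat_lit 5) (nat_lit 94151) (nat_lit 10) (node (nat_lit 6) (nat_lit 89589) (nat_lit
  11) (node (nat_lit 5) (nat_lit 77399) (nat_lit 12) (node (nat_lit 4) (nat_lit 69566) (nat_lit
  13) (node (nat_lit 6) (nat_lit 48814) (nat_lit 14) nil nil) nil) nil) nil) nil)) (node (nat_lit
  5) (nat_lit 101813) (nat_lit 9) nil (node (nat_lit 0) (nat_lit 101813) (nat_lit 9) nil nil))))
  (node (nat_lit 0) (nat_lit 100333) (nat_lit 8) (node (nat_lit 4) (nat_lit 99540) (nat_lit 9)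
  (node (nat_lit 6) (nat_lit 97643) (nat_lit 10) nil (node (nat_lit 3) (nat_lit 96365) (nat_lit
  10) nil nil)) (node (nat_lit 3) (nat_lit 99741) (nat_lit 9) nil nil)) nil))) (node (nat_lit 3)
  (nat_lit 97598) (nat_lit 7) (node (nat_lit 4) (nat_lit 100776) (nat_lit 8) (node (nat_lit 10)
  (nat_lit 99666) (nat_lit 9) (node (nat_lit 6) (nat_lit 98287) (nat_lit 10) nil nil) (node
  (nat_lit 6) (nat_lit 100898) (nat_lit 9) (node (nat_lit 4) (nat_lit 99685) (nat_lit 10) (node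
  (nat_lit 5) (nat_lit 95566) (nat_lit 11) nil nil) nil) (node (nat_lit 5) (nat_lit 93483)
  (nat_lit 9) (node (nat_lit 6) (nat_lit 80078) (nat_lit 10) (node (nat_lit 5) (nat_lit 51770)
  (nat_lit 11) (node (nat_lit 4) (nat_lit 47510) (nat_lit 12) nil nil) nil) (node (nat_lit 4)
  (nat_lit 91607) (nat_lit 10) (node (nat_lit 6) (nat_lit 90401) (nat_lit 11) nil nil) (node
  (nat_lit 10) (nat_lit 93534) (nat_lit 10) nil nil))) nil))) (node (nat_lit 6) (nat_lit 100284)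
  (nat_lit 8) (node (nat_lit 4) (nat_lit 100343) (nat_lit 9) (node (nat_lit 5) (nat_lit 97591)
  (nat_lit 10) (node (nat_lit 6) (nat_lit 91378) (nat_lit 11) (node (nat_lit 5) (nat_lit 83657)
  (nat_lit 12) (node (nat_lit 4) (nat_lit 72024) (nat_lit 13) (node (nat_lit 6) (nat_lit 48089)
  (nat_lit 14) nil nil) nil) nil) nil) nil) nil) (node (nat_lit 5) (nat_lit 100573) (nat_lit 8)
  nil (node (nat_lit 0) (nat_lit 100573) (nat_lit 8) nil nil)))) (node (nat_lit 0) (nat_lit 98816)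
  (nat_lit 7) (node (nat_lit 5) (nat_lit 101568) (nat_lit 8) nil (node (nat_lit 6) (nat_lit 98594)
  (nat_lit 8) (node (nat_lit 3) (nat_lit 97238) (nat_lit 9) nil nil) (node (nat_lit 4) (nat_lit
  98594) (nat_lit 8) (node (nat_lit 6) (nat_lit 96855) (nat_lit 9) (node (nat_lit 4) (nat_lit
  95279) (nat_lit 10) (node (nat_lit 5) (nat_lit 93255) (nat_lit 11) (node (nat_lit 6) (nat_lit
  89009) (nat_lit 12) (node (nat_lit 5) (nat_lit 83794) (nat_lit 13) (node (nat_lit 4) (nat_lit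
  72584) (nat_lit 14) nil nil) nil) nil) nil) nil) nil) (node (nat_lit 3) (nat_lit 98762) (nat_lit
  8) nil nil)))) (node (nat_lit 5) (nat_lit 82128) (nat_lit 7) (node (nat_lit 6) (nat_lit 90709)
  (nat_lit 8) (node (nat_lit 4) (nat_lit 90406) (nat_lit 9) (node (nat_lit 5) (nat_lit 92024)
  (nat_lit 10) (node (nat_lit 4) (nat_lit 91764) (nat_lit 11) (node (nat_lit 6) (nat_lit 91290)
  (nat_lit 12) (node (nat_lit 4) (nat_lit 90633) (nat_lit 13) (node (nat_lit 5) (nat_lit 90883)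
  (nat_lit 14) (node (nat_lit 6) (nat_lit 90063) (nat_lit 15) (node (nat_lit 5) (nat_lit 88864)
  (nat_lit 16) (node (nat_lit 4) (nat_lit 86949) (nat_lit 17) (node (nat_lit 6) (nat_lit 82671)
  (nat_lit 18) (node (nat_lit 5) (nat_lit 78245) (nat_lit 19) (node (nat_lit 6) (nat_lit 68878)
  (nat_lit 20) (node (nat_lit 4) (nat_lit 55669) (nat_lit 21) (node (nat_lit 5) (nat_lit 45234)
  (nat_lit 22) nil nil) nil) nil) nil) nil) nil) nil) nil) nil) nil) nil) nil) nil) nil) (node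
  (nat_lit 3) (nat_lit 84987) (nat_lit 8) nil (node (nat_lit 0) (nat_lit 88016) (nat_lit 8) nil
  nil))) nil)))) (node (nat_lit 5) (nat_lit 69112) (nat_lit 6) (node (nat_lit 6) (nat_lit 82135)
  (nat_lit 7) (node (nat_lit 4) (nat_lit 92797) (nat_lit 8) (node (nat_lit 5) (nat_lit 96361)
  (nat_lit 9) (node (nat_lit 4) (nat_lit 96261) (nat_lit 10) (node (nat_lit 6) (nat_lit 93444)
  (nat_lit 11) nil nil) (node (nat_lit 0) (nat_lit 97979) (nat_lit 10) nil (node (nat_lit 3)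
  (nat_lit 95863) (nat_lit 10) nil nil))) (node (nat_lit 6) (nat_lit 96681) (nat_lit 9) (node
  (nat_lit 3) (nat_lit 95859) (nat_lit 10) nil nil) (node (nat_lit 3) (nat_lit 96019) (nat_lit 9)
  (node (nat_lit 4) (nat_lit 93913) (nat_lit 10) (node (nat_lit 5) (nat_lit 87944) (nat_lit 11)
  (node (nat_lit 6) (nat_lit 84478) (nat_lit 12) nil nil) nil) nil) (node (nat_lit 0) (nat_lit
  94886) (nat_lit 9) nil nil)))) (node (nat_lit 3) (nat_lit 96721) (nat_lit 8) (node (nat_lit 4)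
  (nat_lit 94609) (nat_lit 9) (node (nat_lit 5) (nat_lit 89143) (nat_lit 10) (node (nat_lit 6)
  (nat_lit 85643) (nat_lit 11) (node (nat_lit 5) (nat_lit 60867) (nat_lit 12) (node (nat_lit 4)
  (nat_lit 50447) (nat_lit 13) nil nil) nil) nil) (node (nat_lit 11) (nat_lit 93830) (nat_lit 10)
  nil nil)) (node (nat_lit 6) (nat_lit 97361) (nat_lit 9) nil (node (nat_lit 5) (nat_lit 97750)
  (nat_lit 9) nil nil))) (node (nat_lit 0) (nat_lit 96382) (nat_lit 8) nil nil))) (node (nat_lit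
  3) (nat_lit 100727) (nat_lit 7) (node (nat_lit 4) (nat_lit 101628) (nat_lit 8) nil (node
  (nat_lit 6) (nat_lit 98594) (nat_lit 8) (node (nat_lit 4) (nat_lit 96855) (nat_lit 9) (node
  (nat_lit 5) (nat_lit 86848) (nat_lit 10) (node (nat_lit 6) (nat_lit 80178) (nat_lit 11) (node
  (nat_lit 5) (nat_lit 75844) (nat_lit 12) (node (nat_lit 4) (nat_lit 64446) (nat_lit 13) nil nil)
  nil) nil) nil) nil) (node (nat_lit 5) (nat_lit 101628) (nat_lit 8) nil nil))) (node (nat_lit 0)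
  (nat_lit 98816) (nat_lit 7) (node (nat_lit 4) (nat_lit 95728) (nat_lit 8) nil (node (nat_lit 6)
  (nat_lit 98594) (nat_lit 8) nil (node (nat_lit 3) (nat_lit 98762) (nat_lit 8) nil (node (nat_lit
  5) (nat_lit 101568) (nat_lit 8) nil (node (nat_lit 0) (nat_lit 101568) (nat_lit 8) nil nil)))))
  nil))) (node (nat_lit 3) (nat_lit 93742) (nat_lit 6) (node (nat_lit 6) (nat_lit 95865) (nat_lit
  7) (node (nat_lit 4) (nat_lit 92523) (nat_lit 8) (node (nat_lit 5) (nat_lit 87309) (nat_lit 9)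
  (node (nat_lit 6) (nat_lit 75863) (nat_lit 10) (node (nat_lit 5) (nat_lit 49550) (nat_lit 11)
  (node (nat_lit 4) (nat_lit 42264) (nat_lit 12) nil nil) nil) nil) (node (nat_lit 9) (nat_lit
  93319) (nat_lit 9) nil nil)) (node (nat_lit 9) (nat_lit 93175) (nat_lit 8) nil nil)) (node
  (nat_lit 4) (nat_lit 92256) (nat_lit 7) (node (nat_lit 5) (nat_lit 86962) (nat_lit 8) (node
  (nat_lit 6) (nat_lit 74662) (nat_lit 9) (node (nat_lit 5) (nat_lit 50292) (nat_lit 10) nil nil)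
  (node (nat_lit 4) (nat_lit 87945) (nat_lit 9) (node (nat_lit 9) (nat_lit 85613) (nat_lit 10) nil
  nil) (node (nat_lit 9) (nat_lit 87615) (nat_lit 9) nil nil))) (node (nat_lit 6) (nat_lit 90059)
  (nat_lit 8) (node (nat_lit 4) (nat_lit 87405) (nat_lit 9) (node (nat_lit 5) (nat_lit 83943)
  (nat_lit 10) nil nil) nil) nil)) (node (nat_lit 5) (nat_lit 98320) (nat_lit 7) nil (node
  (nat_lit 0) (nat_lit 96749) (nat_lit 7) nil nil)))) (node (nat_lit 0) (nat_lit 97219) (nat_lit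
  6) (node (nat_lit 5) (nat_lit 100069) (nat_lit 7) nil (node (nat_lit 6) (nat_lit 95982) (nat_lit
  7) nil (node (nat_lit 4) (nat_lit 96512) (nat_lit 7) (node (nat_lit 3) (nat_lit 95276) (nat_lit
  8) nil nil) (node (nat_lit 3) (nat_lit 97664) (nat_lit 7) nil (node (nat_lit 0) (nat_lit 100069)
  (nat_lit 7) nil nil))))) nil)))) (node (nat_lit 3) (nat_lit 93683) (nat_lit 5) (node (nat_lit 6)
  (nat_lit 100348) (nat_lit 6) (node (nat_lit 8) (nat_lit 103293) (nat_lit 7) (node (nat_lit 5)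
  (nat_lit 102567) (nat_lit 8) (node (nat_lit 8) (nat_lit 102728) (nat_lit 9) (node (nat_lit 6)
  (nat_lit 102653) (nat_lit 10) (node (nat_lit 5) (nat_lit 103091) (nat_lit 11) nil nil) nil)
  (node (nat_lit 6) (nat_lit 100827) (nat_lit 9) nil nil)) (node (nat_lit 4) (nat_lit 100488)
  (nat_lit 8) (node (nat_lit 6) (nat_lit 100786) (nat_lit 9) nil (node (nat_lit 5) (nat_lit 96022)
  (nat_lit 9) (node (nat_lit 6) (nat_lit 82798) (nat_lit 10) (node (nat_lit 5) (nat_lit 62883)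
  (nat_lit 11) (node (nat_lit 8) (nat_lit 49306) (nat_lit 12) nil nil) (node (nat_lit 8) (nat_lit
  81006) (nat_lit 11) nil nil)) nil) nil)) nil)) (node (nat_lit 4) (nat_lit 101795) (nat_lit 7)
  (node (nat_lit 8) (nat_lit 101016) (nat_lit 8) (node (nat_lit 4) (nat_lit 95159) (nat_lit 9)
  (node (nat_lit 5) (nat_lit 91971) (nat_lit 10) (node (nat_lit 6) (nat_lit 85758) (nat_lit 11)
  nil nil) nil) nil) (node (nat_lit 5) (nat_lit 93341) (nat_lit 8) (node (nat_lit 6) (nat_lit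
  71893) (nat_lit 9) (node (nat_lit 5) (nat_lit 53343) (nat_lit 10) nil (node (nat_lit 4) (nat_lit
  72361) (nat_lit 10) nil (node (nat_lit 8) (nat_lit 70618) (nat_lit 10) nil nil))) (node (nat_lit
  4) (nat_lit 90762) (nat_lit 9) nil nil)) (node (nat_lit 6) (nat_lit 100683) (nat_lit 8) nil
  nil))) (node (nat_lit 0) (nat_lit 103223) (nat_lit 7) nil nil))) (node (nat_lit 4) (nat_lit
  96537) (nat_lit 6) (node (nat_lit 6) (nat_lit 93219) (nat_lit 7) (node (nat_lit 4) (nat_lit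
  88655) (nat_lit 8) (node (nat_lit 5) (nat_lit 83912) (nat_lit 9) (node (nat_lit 6) (nat_lit
  73836) (nat_lit 10) (node (nat_lit 5) (nat_lit 62140) (nat_lit 11) (node (nat_lit 8) (nat_lit
  51246) (nat_lit 12) nil nil) nil) nil) nil) (node (nat_lit 8) (nat_lit 91215) (nat_lit 8) nil
  nil)) nil) (node (nat_lit 5) (nat_lit 98146) (nat_lit 6) nil (node (nat_lit 0) (nat_lit 98146)
  (nat_lit 6) nil nil)))) (node (nat_lit 0) (nat_lit 93745) (nat_lit 5) (node (nat_lit 6) (nat_lit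
  91428) (nat_lit 6) (node (nat_lit 3) (nat_lit 90797) (nat_lit 7) nil nil) (node (nat_lit 4)
  (nat_lit 91138) (nat_lit 6) (node (nat_lit 3) (nat_lit 88506) (nat_lit 7) nil (node (nat_lit 6)
  (nat_lit 87820) (nat_lit 7) (node (nat_lit 4) (nat_lit 83256) (nat_lit 8) (node (nat_lit 5)
  (nat_lit 78513) (nat_lit 9) (node (nat_lit 6) (nat_lit 68437) (nat_lit 10) (node (nat_lit 5)
  (nat_lit 56741) (nat_lit 11) nil nil) nil) nil) nil) nil)) (node (nat_lit 5) (nat_lit 96900)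
  (nat_lit 6) nil (node (nat_lit 3) (nat_lit 94094) (nat_lit 6) (node (nat_lit 6) (nat_lit 90776)
  (nat_lit 7) nil nil) (node (nat_lit 0) (nat_lit 96900) (nat_lit 6) nil nil))))) nil)))

noncomputable def t183 : Tr :=
  (node (nat_lit 4) (nat_lit 0) (nat_lit 4) (node (nat_lit 6) (nat_lit 64324) (nat_lit 5) (node
  (nat_lit 5) (nat_lit 69029) (nat_lit 6) (node (nat_lit 6) (nat_lit 79492) (nat_lit 7) (node
  (nat_lit 0) (nat_lit 94835) (nat_lit 8) (node (nat_lit 5) (nat_lit 95488) (nat_lit 9) nil (node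
  (nat_lit 6) (nat_lit 93096) (nat_lit 9) nil nil)) (node (nat_lit 3) (nat_lit 96405) (nat_lit 8)
  (node (nat_lit 5) (nat_lit 97058) (nat_lit 9) nil (node (nat_lit 6) (nat_lit 97058) (nat_lit 9)
  nil (node (nat_lit 4) (nat_lit 95005) (nat_lit 9) nil nil))) (node (nat_lit 4) (nat_lit 86503)
  (nat_lit 8) (node (nat_lit 5) (nat_lit 90152) (nat_lit 9) (node (nat_lit 4) (nat_lit 87728)
  (nat_lit 10) nil nil) (node (nat_lit 3) (nat_lit 82176) (nat_lit 9) nil nil)) nil))) (node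
  (nat_lit 4) (nat_lit 80931) (nat_lit 7) (node (nat_lit 6) (nat_lit 91946) (nat_lit 8) (node
  (nat_lit 4) (nat_lit 96492) (nat_lit 9) (node (nat_lit 5) (nat_lit 95168) (nat_lit 10) (node
  (nat_lit 6) (nat_lit 90869) (nat_lit 11) (node (nat_lit 4) (nat_lit 82428) (nat_lit 12) (node
  (nat_lit 6) (nat_lit 77055) (nat_lit 13) (node (nat_lit 5) (nat_lit 63951) (nat_lit 14) (node
  (nat_lit 4) (nat_lit 43731) (nat_lit 15) nil (node (nat_lit 6) (nat_lit 63902) (nat_lit 15) nil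
  nil)) nil) (node (nat_lit 3) (nat_lit 83087) (nat_lit 13) nil (node (nat_lit 0) (nat_lit 83283)
  (nat_lit 13) nil nil))) nil) nil) (node (nat_lit 3) (nat_lit 95742) (nat_lit 10) nil nil)) (node
  (nat_lit 3) (nat_lit 96201) (nat_lit 9) (node (nat_lit 4) (nat_lit 92155) (nat_lit 10) (node
  (nat_lit 5) (nat_lit 93430) (nat_lit 11) (node (nat_lit 6) (nat_lit 89158) (nat_lit 12) (node
  (nat_lit 4) (nat_lit 82388) (nat_lit 13) (node (nat_lit 6) (nat_lit 73396) (nat_lit 14) (node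
  (nat_lit 5) (nat_lit 48628) (nat_lit 15) (node (nat_lit 4) (nat_lit 48423) (nat_lit 16) nil nil)
  nil) nil) nil) nil) nil) (node (nat_lit 6) (nat_lit 96849) (nat_lit 10) nil nil)) nil)) (node
  (nat_lit 5) (nat_lit 93478) (nat_lit 8) (node (nat_lit 6) (nat_lit 98400) (nat_lit 9) (node
  (nat_lit 5) (nat_lit 98923) (nat_lit 10) nil (node (nat_lit 3) (nat_lit 94874) (nat_lit 10) nil
  nil)) (node (nat_lit 3) (nat_lit 92975) (nat_lit 9) nil nil)) (node (nat_lit 3) (nat_lit 92811)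
  (nat_lit 8) (node (nat_lit 6) (nat_lit 91195) (nat_lit 9) nil (node (nat_lit 4) (nat_lit 87763)
  (nat_lit 9) (node (nat_lit 5) (nat_lit 88865) (nat_lit 10) (node (nat_lit 6) (nat_lit 82397)
  (nat_lit 11) (node (nat_lit 4) (nat_lit 73414) (nat_lit 12) (node (nat_lit 6) (nat_lit 60247)
  (nat_lit 13) (node (nat_lit 5) (nat_lit 46201) (nat_lit 14) nil nil) nil) nil) nil) nil) nil))
  (node (nat_lit 0) (nat_lit 95604) (nat_lit 8) nil nil)))) (node (nat_lit 3) (nat_lit 93710)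
  (nat_lit 7) (node (nat_lit 6) (nat_lit 92247) (nat_lit 8) (node (nat_lit 4) (nat_lit 89374)
  (nat_lit 9) (node (nat_lit 5) (nat_lit 87056) (nat_lit 10) (node (nat_lit 6) (nat_lit 80321)
  (nat_lit 11) (node (nat_lit 4) (nat_lit 66986) (nat_lit 12) (node (nat_lit 6) (nat_lit 53070)
  (nat_lit 13) (node (nat_lit 5) (nat_lit 43178) (nat_lit 14) nil nil) nil) nil) nil) nil) nil)
  (node (nat_lit 4) (nat_lit 93657) (nat_lit 8) nil nil)) (node (nat_lit 0) (nat_lit 96966)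
  (nat_lit 7) (node (nat_lit 4) (nat_lit 93879) (nat_lit 8) nil (node (nat_lit 3) (nat_lit 96913)
  (nat_lit 8) nil nil)) nil)))) (node (nat_lit 3) (nat_lit 94628) (nat_lit 6) (node (nat_lit 4)
  (nat_lit 93659) (nat_lit 7) (node (nat_lit 9) (nat_lit 93606) (nat_lit 8) (node (nat_lit 6)
  (nat_lit 92116) (nat_lit 9) (node (nat_lit 9) (nat_lit 92727) (nat_lit 10) nil nil) nil) (node
  (nat_lit 6) (nat_lit 95451) (nat_lit 8) nil (node (nat_lit 5) (nat_lit 86334) (nat_lit 8) (node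
  (nat_lit 6) (nat_lit 74136) (nat_lit 9) (node (nat_lit 4) (nat_lit 51770) (nat_lit 10) (node
  (nat_lit 6) (nat_lit 49439) (nat_lit 11) nil nil) nil) nil) nil))) (node (nat_lit 6) (nat_lit
  95479) (nat_lit 7) (node (nat_lit 4) (nat_lit 92439) (nat_lit 8) nil (node (nat_lit 5) (nat_lit
  98454) (nat_lit 8) nil nil)) (node (nat_lit 5) (nat_lit 98897) (nat_lit 7) nil nil))) (node
  (nat_lit 0) (nat_lit 96713) (nat_lit 6) (node (nat_lit 4) (nat_lit 93070) (nat_lit 7) nil (node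
  (nat_lit 5) (nat_lit 99013) (nat_lit 7) nil (node (nat_lit 3) (nat_lit 97158) (nat_lit 7) nil
  (node (nat_lit 0) (nat_lit 99013) (nat_lit 7) nil nil)))) nil))) (node (nat_lit 5) (nat_lit 0)
  (nat_lit 5) (node (nat_lit 4) (nat_lit 35733) (nat_lit 6) (node (nat_lit 6) (nat_lit 37214)
  (nat_lit 7) (node (nat_lit 4) (nat_lit 45332) (nat_lit 8) (node (nat_lit 5) (nat_lit 49259)
  (nat_lit 9) (node (nat_lit 6) (nat_lit 50071) (nat_lit 10) (node (nat_lit 5) (nat_lit 50799)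
  (nat_lit 11) (node (nat_lit 4) (nat_lit 51118) (nat_lit 12) (node (nat_lit 5) (nat_lit 51440)
  (nat_lit 13) (node (nat_lit 6) (nat_lit 50941) (nat_lit 14) nil nil) nil) nil) (node (nat_lit 4)
  (nat_lit 48537) (nat_lit 11) (node (nat_lit 6) (nat_lit 49101) (nat_lit 12) nil nil) nil)) (node
  (nat_lit 3) (nat_lit 49755) (nat_lit 10) nil (node (nat_lit 0) (nat_lit 49755) (nat_lit 10) nil
  nil))) (node (nat_lit 0) (nat_lit 52296) (nat_lit 9) (node (nat_lit 6) (nat_lit 51771) (nat_lit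
  10) (node (nat_lit 4) (nat_lit 50636) (nat_lit 11) (node (nat_lit 6) (nat_lit 49770) (nat_lit
  12) nil nil) nil) (node (nat_lit 4) (nat_lit 51771) (nat_lit 10) nil nil)) (node (nat_lit 3)
  (nat_lit 50057) (nat_lit 9) (node (nat_lit 6) (nat_lit 50553) (nat_lit 10) (node (nat_lit 4)
  (nat_lit 50991) (nat_lit 11) nil nil) (node (nat_lit 4) (nat_lit 48907) (nat_lit 10) (node
  (nat_lit 5) (nat_lit 48785) (nat_lit 11) (node (nat_lit 6) (nat_lit 46863) (nat_lit 12) (node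
  (nat_lit 4) (nat_lit 41578) (nat_lit 13) (node (nat_lit 5) (nat_lit 26550) (nat_lit 14) nil nil)
  nil) nil) nil) (node (nat_lit 5) (nat_lit 50553) (nat_lit 10) (node (nat_lit 12) (nat_lit 50991)
  (nat_lit 11) nil (node (nat_lit 6) (nat_lit 49418) (nat_lit 11) nil nil)) nil))) nil))) (node
  (nat_lit 5) (nat_lit 44737) (nat_lit 8) (node (nat_lit 6) (nat_lit 47015) (nat_lit 9) (node
  (nat_lit 4) (nat_lit 46240) (nat_lit 10) (node (nat_lit 5) (nat_lit 46878) (nat_lit 11) (node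
  (nat_lit 6) (nat_lit 46012) (nat_lit 12) nil nil) nil) (node (nat_lit 3) (nat_lit 44483)
  (nat_lit 10) nil nil)) (node (nat_lit 4) (nat_lit 48834) (nat_lit 9) (node (nat_lit 5) (nat_lit
  49331) (nat_lit 10) (node (nat_lit 6) (nat_lit 48195) (nat_lit 11) nil nil) (node (nat_lit 3)
  (nat_lit 46302) (nat_lit 10) nil nil)) (node (nat_lit 3) (nat_lit 49733) (nat_lit 9) nil (node
  (nat_lit 0) (nat_lit 48549) (nat_lit 9) nil nil)))) (node (nat_lit 3) (nat_lit 48478) (nat_lit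
  8) (node (nat_lit 4) (nat_lit 45747) (nat_lit 9) (node (nat_lit 5) (nat_lit 41973) (nat_lit 10)
  (node (nat_lit 6) (nat_lit 31202) (nat_lit 11) (node (nat_lit 4) (nat_lit 27187) (nat_lit 12)
  nil nil) nil) nil) (node (nat_lit 5) (nat_lit 49131) (nat_lit 9) nil nil)) (node (nat_lit 0)
  (nat_lit 50174) (nat_lit 8) (node (nat_lit 4) (nat_lit 48435) (nat_lit 9) nil (node (nat_lit 6)
  (nat_lit 48435) (nat_lit 9) (node (nat_lit 3) (nat_lit 48295) (nat_lit 10) nil nil) (node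
  (nat_lit 5) (nat_lit 50827) (nat_lit 9) nil (node (nat_lit 0) (nat_lit 50827) (nat_lit 9) nil
  nil)))) nil)))) (node (nat_lit 3) (nat_lit 47568) (nat_lit 7) (node (nat_lit 4) (nat_lit 44588)
  (nat_lit 8) (node (nat_lit 5) (nat_lit 36311) (nat_lit 9) (node (nat_lit 6) (nat_lit 21020)
  (nat_lit 10) nil nil) nil) (node (nat_lit 6) (nat_lit 47660) (nat_lit 8) (node (nat_lit 5)
  (nat_lit 48313) (nat_lit 9) nil nil) nil)) (node (nat_lit 0) (nat_lit 48961) (nat_lit 7) nil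
  nil))) (node (nat_lit 3) (nat_lit 48249) (nat_lit 6) (node (nat_lit 6) (nat_lit 51517) (nat_lit
  7) (node (nat_lit 4) (nat_lit 50153) (nat_lit 8) (node (nat_lit 6) (nat_lit 48413) (nat_lit 9)
  nil (node (nat_lit 9) (nat_lit 50141) (nat_lit 9) (node (nat_lit 5) (nat_lit 50637) (nat_lit 10)
  nil nil) nil)) (node (nat_lit 9) (nat_lit 51967) (nat_lit 8) (node (nat_lit 4) (nat_lit 50197)
  (nat_lit 9) (node (nat_lit 5) (nat_lit 40793) (nat_lit 10) (node (nat_lit 6) (nat_lit 30233)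
  (nat_lit 11) (node (nat_lit 4) (nat_lit 20876) (nat_lit 12) nil nil) nil) nil) (node (nat_lit 5)
  (nat_lit 52620) (nat_lit 9) nil nil)) (node (nat_lit 5) (nat_lit 52418) (nat_lit 8) nil nil)))
  (node (nat_lit 4) (nat_lit 49490) (nat_lit 7) (node (nat_lit 9) (nat_lit 50391) (nat_lit 8) nil
  nil) (node (nat_lit 5) (nat_lit 49727) (nat_lit 7) nil nil))) (node (nat_lit 0) (nat_lit 47484)
  (nat_lit 6) (node (nat_lit 4) (nat_lit 44874) (nat_lit 7) nil (node (nat_lit 6) (nat_lit 44874)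
  (nat_lit 7) nil (node (nat_lit 5) (nat_lit 48961) (nat_lit 7) nil (node (nat_lit 3) (nat_lit
  48961) (nat_lit 7) nil (node (nat_lit 0) (nat_lit 48961) (nat_lit 7) nil nil))))) nil))) (node
  (nat_lit 3) (nat_lit 86937) (nat_lit 5) (node (nat_lit 5) (nat_lit 95525) (nat_lit 6) (node
  (nat_lit 8) (nat_lit 96744) (nat_lit 7) nil (node (nat_lit 4) (nat_lit 97002) (nat_lit 7) (node
  (nat_lit 6) (nat_lit 93785) (nat_lit 8) nil nil) nil)) (node (nat_lit 6) (nat_lit 92973)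
  (nat_lit 6) (node (nat_lit 8) (nat_lit 94040) (nat_lit 7) (node (nat_lit 4) (nat_lit 91641)
  (nat_lit 8) (node (nat_lit 8) (nat_lit 92153) (nat_lit 9) nil (node (nat_lit 5) (nat_lit 82250)
  (nat_lit 9) nil nil)) nil) (node (nat_lit 4) (nat_lit 93699) (nat_lit 7) (node (nat_lit 6)
  (nat_lit 93763) (nat_lit 8) (node (nat_lit 8) (nat_lit 92481) (nat_lit 9) (node (nat_lit 4)
  (nat_lit 90052) (nat_lit 10) nil nil) nil) (node (nat_lit 5) (nat_lit 85745) (nat_lit 8) (node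
  (nat_lit 6) (nat_lit 60690) (nat_lit 9) (node (nat_lit 4) (nat_lit 42828) (nat_lit 10) nil nil)
  nil) nil)) nil)) (node (nat_lit 4) (nat_lit 88072) (nat_lit 6) (node (nat_lit 6) (nat_lit 89211)
  (nat_lit 7) (node (nat_lit 8) (nat_lit 87942) (nat_lit 8) (node (nat_lit 4) (nat_lit 86838)
  (nat_lit 9) nil nil) (node (nat_lit 4) (nat_lit 85815) (nat_lit 8) (node (nat_lit 8) (nat_lit
  84327) (nat_lit 9) nil nil) nil)) (node (nat_lit 5) (nat_lit 72954) (nat_lit 7) (node (nat_lit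
  8) (nat_lit 73707) (nat_lit 8) (node (nat_lit 6) (nat_lit 74355) (nat_lit 9) (node (nat_lit 4)
  (nat_lit 71620) (nat_lit 10) (node (nat_lit 8) (nat_lit 72233) (nat_lit 11) nil (node (nat_lit
  5) (nat_lit 70662) (nat_lit 11) nil nil)) nil) nil) (node (nat_lit 6) (nat_lit 50292) (nat_lit
  8) (node (nat_lit 4) (nat_lit 49450) (nat_lit 9) nil nil) (node (nat_lit 4) (nat_lit 69561)
  (nat_lit 8) nil nil))) (node (nat_lit 0) (nat_lit 90314) (nat_lit 7) nil nil))) (node (nat_lit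
  0) (nat_lit 91400) (nat_lit 6) nil nil)))) (node (nat_lit 0) (nat_lit 90415) (nat_lit 5) (node
  (nat_lit 6) (nat_lit 89406) (nat_lit 6) nil (node (nat_lit 4) (nat_lit 84231) (nat_lit 6) (node
  (nat_lit 6) (nat_lit 80589) (nat_lit 7) (node (nat_lit 4) (nat_lit 75553) (nat_lit 8) nil nil)
  nil) (node (nat_lit 5) (nat_lit 94878) (nat_lit 6) nil (node (nat_lit 3) (nat_lit 89703)
  (nat_lit 6) (node (nat_lit 6) (nat_lit 86061) (nat_lit 7) nil nil) (node (nat_lit 0) (nat_lit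
  94878) (nat_lit 6) nil nil))))) nil)))) (node (nat_lit 5) (nat_lit 0) (nat_lit 4) t182 (node
  (nat_lit 3) (nat_lit 0) (nat_lit 4) (node (nat_lit 4) (nat_lit 65094) (nat_lit 5) (node (nat_lit
  5) (nat_lit 51770) (nat_lit 6) (node (nat_lit 7) (nat_lit 51770) (nat_lit 7) (node (nat_lit 6)
  (nat_lit 51770) (nat_lit 8) (node (nat_lit 7) (nat_lit 51770) (nat_lit 9) (node (nat_lit 4)
  (nat_lit 51770) (nat_lit 10) nil nil) (node (nat_lit 4) (nat_lit 51770) (nat_lit 9) nil nil))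
  (node (nat_lit 4) (nat_lit 51770) (nat_lit 8) nil nil)) (node (nat_lit 4) (nat_lit 51770)
  (nat_lit 7) (node (nat_lit 6) (nat_lit 51770) (nat_lit 8) (node (nat_lit 7) (nat_lit 51770)
  (nat_lit 9) (node (nat_lit 4) (nat_lit 50760) (nat_lit 10) nil nil) (node (nat_lit 4) (nat_lit
  51770) (nat_lit 9) nil nil)) (node (nat_lit 7) (nat_lit 51770) (nat_lit 8) (node (nat_lit 4)
  (nat_lit 51064) (nat_lit 9) (node (nat_lit 5) (nat_lit 50839) (nat_lit 10) nil nil) nil) nil))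
  (node (nat_lit 6) (nat_lit 47048) (nat_lit 7) nil nil))) (node (nat_lit 6) (nat_lit 68160)
  (nat_lit 6) (node (nat_lit 4) (nat_lit 70389) (nat_lit 7) (node (nat_lit 7) (nat_lit 69399)
  (nat_lit 8) (node (nat_lit 6) (nat_lit 66935) (nat_lit 9) nil (node (nat_lit 4) (nat_lit 66246)
  (nat_lit 9) (node (nat_lit 5) (nat_lit 63855) (nat_lit 10) nil nil) nil)) (node (nat_lit 5)
  (nat_lit 65343) (nat_lit 8) (node (nat_lit 6) (nat_lit 51025) (nat_lit 9) (node (nat_lit 7)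
  (nat_lit 21703) (nat_lit 10) nil nil) nil) nil)) (node (nat_lit 7) (nat_lit 70389) (nat_lit 7)
  (node (nat_lit 6) (nat_lit 71827) (nat_lit 8) (node (nat_lit 4) (nat_lit 72910) (nat_lit 9)
  (node (nat_lit 6) (nat_lit 71480) (nat_lit 10) nil (node (nat_lit 7) (nat_lit 73640) (nat_lit
  10) (node (nat_lit 4) (nat_lit 74288) (nat_lit 11) nil nil) (node (nat_lit 5) (nat_lit 72111)
  (nat_lit 10) nil nil))) nil) (node (nat_lit 5) (nat_lit 71827) (nat_lit 8) (node (nat_lit 6)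
  (nat_lit 72744) (nat_lit 9) (node (nat_lit 7) (nat_lit 70207) (nat_lit 10) nil nil) nil) nil))
  (node (nat_lit 5) (nat_lit 70389) (nat_lit 7) (node (nat_lit 4) (nat_lit 71827) (nat_lit 8)
  (node (nat_lit 6) (nat_lit 70088) (nat_lit 9) nil nil) (node (nat_lit 6) (nat_lit 71827)
  (nat_lit 8) (node (nat_lit 4) (nat_lit 72744) (nat_lit 9) nil (node (nat_lit 7) (nat_lit 72744)
  (nat_lit 9) nil nil)) (node (nat_lit 7) (nat_lit 71290) (nat_lit 8) (node (nat_lit 6) (nat_lit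
  69551) (nat_lit 9) nil nil) nil))) (node (nat_lit 0) (nat_lit 70389) (nat_lit 7) (node (nat_lit
  6) (nat_lit 68256) (nat_lit 8) nil nil) nil)))) (node (nat_lit 7) (nat_lit 68160) (nat_lit 6)
  (node (nat_lit 6) (nat_lit 70389) (nat_lit 7) (node (nat_lit 4) (nat_lit 71827) (nat_lit 8)
  (node (nat_lit 6) (nat_lit 72910) (nat_lit 9) (node (nat_lit 7) (nat_lit 73790) (nat_lit 10)
  (node (nat_lit 4) (nat_lit 70140) (nat_lit 11) nil nil) nil) (node (nat_lit 5) (nat_lit 71636)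
  (nat_lit 9) (node (nat_lit 6) (nat_lit 64254) (nat_lit 10) (node (nat_lit 7) (nat_lit 41367)
  (nat_lit 11) nil nil) nil) (node (nat_lit 7) (nat_lit 72744) (nat_lit 9) nil nil))) (node
  (nat_lit 7) (nat_lit 71827) (nat_lit 8) (node (nat_lit 4) (nat_lit 72910) (nat_lit 9) (node
  (nat_lit 5) (nat_lit 71949) (nat_lit 10) (node (nat_lit 6) (nat_lit 55457) (nat_lit 11) nil nil)
  nil) nil) (node (nat_lit 5) (nat_lit 71827) (nat_lit 8) (node (nat_lit 6) (nat_lit 72744)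
  (nat_lit 9) (node (nat_lit 7) (nat_lit 70207) (nat_lit 10) nil nil) nil) nil))) (node (nat_lit
  5) (nat_lit 70389) (nat_lit 7) (node (nat_lit 4) (nat_lit 71827) (nat_lit 8) (node (nat_lit 6)
  (nat_lit 72744) (nat_lit 9) (node (nat_lit 7) (nat_lit 73473) (nat_lit 10) (node (nat_lit 4)
  (nat_lit 72267) (nat_lit 11) (node (nat_lit 5) (nat_lit 69418) (nat_lit 12) nil nil) nil) nil)
  nil) (node (nat_lit 6) (nat_lit 71080) (nat_lit 8) nil (node (nat_lit 7) (nat_lit 71290)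
  (nat_lit 8) nil nil))) (node (nat_lit 0) (nat_lit 69637) (nat_lit 7) nil nil))) (node (nat_lit
  0) (nat_lit 68160) (nat_lit 6) (node (nat_lit 4) (nat_lit 70389) (nat_lit 7) (node (nat_lit 5)
  (nat_lit 71290) (nat_lit 8) nil nil) (node (nat_lit 7) (nat_lit 69637) (nat_lit 7) nil (node
  (nat_lit 6) (nat_lit 69460) (nat_lit 7) nil nil))) nil)))) (node (nat_lit 5) (nat_lit 83471)
  (nat_lit 5) (node (nat_lit 7) (nat_lit 92254) (nat_lit 6) (node (nat_lit 6) (nat_lit 94739)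
  (nat_lit 7) (node (nat_lit 7) (nat_lit 96269) (nat_lit 8) (node (nat_lit 0) (nat_lit 96922)
  (nat_lit 9) nil (node (nat_lit 4) (nat_lit 97236) (nat_lit 9) (node (nat_lit 6) (nat_lit 97331)
  (nat_lit 10) nil (node (nat_lit 7) (nat_lit 96457) (nat_lit 10) nil (node (nat_lit 5) (nat_lit
  88038) (nat_lit 10) (node (nat_lit 4) (nat_lit 88572) (nat_lit 11) nil (node (nat_lit 6)
  (nat_lit 80794) (nat_lit 11) (node (nat_lit 7) (nat_lit 77808) (nat_lit 12) (node (nat_lit 5)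
  (nat_lit 51770) (nat_lit 13) nil nil) nil) (node (nat_lit 7) (nat_lit 88475) (nat_lit 11) nil
  nil))) nil))) nil)) (node (nat_lit 4) (nat_lit 93104) (nat_lit 8) (node (nat_lit 5) (nat_lit
  83469) (nat_lit 9) (node (nat_lit 6) (nat_lit 76041) (nat_lit 10) (node (nat_lit 7) (nat_lit
  41681) (nat_lit 11) nil nil) nil) nil) nil)) (node (nat_lit 4) (nat_lit 92302) (nat_lit 7) nil
  nil)) (node (nat_lit 4) (nat_lit 92254) (nat_lit 6) (node (nat_lit 6) (nat_lit 94739) (nat_lit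
  7) (node (nat_lit 4) (nat_lit 95362) (nat_lit 8) (node (nat_lit 5) (nat_lit 87859) (nat_lit 9)
  (node (nat_lit 6) (nat_lit 81844) (nat_lit 10) (node (nat_lit 7) (nat_lit 68284) (nat_lit 11)
  (node (nat_lit 5) (nat_lit 44935) (nat_lit 12) nil nil) nil) nil) (node (nat_lit 7) (nat_lit
  93919) (nat_lit 9) nil nil)) (node (nat_lit 7) (nat_lit 91352) (nat_lit 8) (node (nat_lit 4)
  (nat_lit 88501) (nat_lit 9) (node (nat_lit 5) (nat_lit 82536) (nat_lit 10) (node (nat_lit 6)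
  (nat_lit 80260) (nat_lit 11) nil nil) nil) nil) nil)) (node (nat_lit 7) (nat_lit 89475) (nat_lit
  7) (node (nat_lit 4) (nat_lit 84554) (nat_lit 8) (node (nat_lit 5) (nat_lit 79715) (nat_lit 9)
  (node (nat_lit 6) (nat_lit 67393) (nat_lit 10) nil nil) nil) (node (nat_lit 6) (nat_lit 87342)
  (nat_lit 8) nil nil)) nil)) (node (nat_lit 6) (nat_lit 92339) (nat_lit 6) (node (nat_lit 5)
  (nat_lit 94824) (nat_lit 7) (node (nat_lit 7) (nat_lit 96462) (nat_lit 8) (node (nat_lit 6)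
  (nat_lit 95347) (nat_lit 9) (node (nat_lit 7) (nat_lit 95201) (nat_lit 10) (node (nat_lit 5)
  (nat_lit 95638) (nat_lit 11) (node (nat_lit 6) (nat_lit 94773) (nat_lit 12) (node (nat_lit 7)
  (nat_lit 94783) (nat_lit 13) nil nil) nil) nil) nil) nil) nil) (node (nat_lit 4) (nat_lit 92013)
  (nat_lit 7) (node (nat_lit 7) (nat_lit 91529) (nat_lit 8) (node (nat_lit 4) (nat_lit 88852)
  (nat_lit 9) (node (nat_lit 5) (nat_lit 80700) (nat_lit 10) (node (nat_lit 6) (nat_lit 74487)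
  (nat_lit 11) nil nil) nil) nil) nil) nil)) (node (nat_lit 0) (nat_lit 90041) (nat_lit 6) (node
  (nat_lit 7) (nat_lit 89217) (nat_lit 7) nil nil) nil)))) (node (nat_lit 6) (nat_lit 0) (nat_lit
  5) (node (nat_lit 4) (nat_lit 80824) (nat_lit 6) (node (nat_lit 7) (nat_lit 86804) (nat_lit 7)
  (node (nat_lit 4) (nat_lit 88068) (nat_lit 8) (node (nat_lit 6) (nat_lit 83020) (nat_lit 9)
  (node (nat_lit 4) (nat_lit 81046) (nat_lit 10) nil nil) (node (nat_lit 5) (nat_lit 81625)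
  (nat_lit 9) (node (nat_lit 6) (nat_lit 70407) (nat_lit 10) (node (nat_lit 7) (nat_lit 48632)
  (nat_lit 11) nil nil) nil) nil)) (node (nat_lit 5) (nat_lit 88557) (nat_lit 8) (node (nat_lit 6)
  (nat_lit 87436) (nat_lit 9) (node (nat_lit 7) (nat_lit 86015) (nat_lit 10) nil nil) nil) (node
  (nat_lit 6) (nat_lit 85523) (nat_lit 8) nil nil))) (node (nat_lit 5) (nat_lit 73606) (nat_lit 7)
  (node (nat_lit 6) (nat_lit 44382) (nat_lit 8) (node (nat_lit 7) (nat_lit 40947) (nat_lit 9) nil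
  nil) nil) (node (nat_lit 6) (nat_lit 87084) (nat_lit 7) (node (nat_lit 7) (nat_lit 80620)
  (nat_lit 8) nil (node (nat_lit 5) (nat_lit 88838) (nat_lit 8) nil nil)) (node (nat_lit 0)
  (nat_lit 83698) (nat_lit 7) nil nil)))) (node (nat_lit 5) (nat_lit 92150) (nat_lit 6) (node
  (nat_lit 7) (nat_lit 91541) (nat_lit 7) (node (nat_lit 6) (nat_lit 88486) (nat_lit 8) nil nil)
  (node (nat_lit 6) (nat_lit 90836) (nat_lit 7) nil (node (nat_lit 4) (nat_lit 92802) (nat_lit 7)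
  (node (nat_lit 6) (nat_lit 86049) (nat_lit 8) nil nil) nil))) (node (nat_lit 0) (nat_lit 87150)
  (nat_lit 6) nil nil))) (node (nat_lit 0) (nat_lit 85331) (nat_lit 5) (node (nat_lit 6) (nat_lit
  87267) (nat_lit 6) (node (nat_lit 7) (nat_lit 83066) (nat_lit 7) nil nil) (node (nat_lit 7)
  (nat_lit 88693) (nat_lit 6) (node (nat_lit 6) (nat_lit 83585) (nat_lit 7) nil nil) (node
  (nat_lit 5) (nat_lit 89795) (nat_lit 6) nil (node (nat_lit 4) (nat_lit 83221) (nat_lit 6) (node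
  (nat_lit 6) (nat_lit 79453) (nat_lit 7) nil nil) (node (nat_lit 0) (nat_lit 89795) (nat_lit 6)
  nil nil))))) nil)))) (node (nat_lit 0) (nat_lit 0) (nat_lit 4) (node (nat_lit 5) (nat_lit 95362)
  (nat_lit 5) (node (nat_lit 6) (nat_lit 94352) (nat_lit 6) nil nil) (node (nat_lit 6) (nat_lit
  95730) (nat_lit 5) (node (nat_lit 5) (nat_lit 98719) (nat_lit 6) nil (node (nat_lit 4) (nat_lit
  94388) (nat_lit 6) (node (nat_lit 3) (nat_lit 91155) (nat_lit 7) (node (nat_lit 5) (nat_lit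
  92908) (nat_lit 8) nil (node (nat_lit 4) (nat_lit 86986) (nat_lit 8) nil nil)) nil) (node
  (nat_lit 3) (nat_lit 87293) (nat_lit 6) (node (nat_lit 4) (nat_lit 74252) (nat_lit 7) (node
  (nat_lit 5) (nat_lit 56075) (nat_lit 8) (node (nat_lit 6) (nat_lit 48616) (nat_lit 9) nil nil)
  nil) nil) nil))) (node (nat_lit 4) (nat_lit 93316) (nat_lit 5) (node (nat_lit 6) (nat_lit 89886)
  (nat_lit 6) (node (nat_lit 4) (nat_lit 82473) (nat_lit 7) (node (nat_lit 5) (nat_lit 62804)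
  (nat_lit 8) (node (nat_lit 6) (nat_lit 50913) (nat_lit 9) (node (nat_lit 7) (nat_lit 40768)
  (nat_lit 10) nil nil) nil) (node (nat_lit 7) (nat_lit 84226) (nat_lit 8) nil (node (nat_lit 3)
  (nat_lit 80096) (nat_lit 8) nil nil))) (node (nat_lit 7) (nat_lit 92760) (nat_lit 7) nil nil))
  (node (nat_lit 7) (nat_lit 97779) (nat_lit 6) nil (node (nat_lit 3) (nat_lit 83657) (nat_lit 6)
  (node (nat_lit 4) (nat_lit 74498) (nat_lit 7) (node (nat_lit 5) (nat_lit 50560) (nat_lit 8) nil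
  nil) (node (nat_lit 6) (nat_lit 79890) (nat_lit 7) nil nil)) nil))) (node (nat_lit 3) (nat_lit
  89383) (nat_lit 5) (node (nat_lit 6) (nat_lit 84619) (nat_lit 6) (node (nat_lit 8) (nat_lit
  85235) (nat_lit 7) nil (node (nat_lit 4) (nat_lit 78188) (nat_lit 7) nil nil)) (node (nat_lit 7)
  (nat_lit 93846) (nat_lit 6) nil (node (nat_lit 4) (nat_lit 88671) (nat_lit 6) nil (node (nat_lit
  5) (nat_lit 93846) (nat_lit 6) nil nil)))) (node (nat_lit 0) (nat_lit 94244) (nat_lit 5) nil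
  nil))))) nil))))

noncomputable def t184 : Tr :=
  (node (nat_lit 4) (nat_lit 0) (nat_lit 3) (node (nat_lit 3) (nat_lit 0) (nat_lit 4) (node
  (nat_lit 4) (nat_lit 56060) (nat_lit 5) (node (nat_lit 5) (nat_lit 57519) (nat_lit 6) (node
  (nat_lit 4) (nat_lit 37418) (nat_lit 7) (node (nat_lit 0) (nat_lit 48833) (nat_lit 8) (node
  (nat_lit 5) (nat_lit 49429) (nat_lit 9) (node (nat_lit 4) (nat_lit 48087) (nat_lit 10) (node
  (nat_lit 5) (nat_lit 48486) (nat_lit 11) nil nil) nil) (node (nat_lit 4) (nat_lit 47200)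
  (nat_lit 9) nil nil)) (node (nat_lit 3) (nat_lit 47912) (nat_lit 8) (node (nat_lit 5) (nat_lit
  48509) (nat_lit 9) (node (nat_lit 4) (nat_lit 48962) (nat_lit 10) (node (nat_lit 5) (nat_lit
  49360) (nat_lit 11) nil nil) nil) (node (nat_lit 4) (nat_lit 41590) (nat_lit 9) nil nil)) nil))
  (node (nat_lit 7) (nat_lit 63196) (nat_lit 7) (node (nat_lit 4) (nat_lit 66975) (nat_lit 8)
  (node (nat_lit 7) (nat_lit 68466) (nat_lit 9) (node (nat_lit 5) (nat_lit 69630) (nat_lit 10)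
  (node (nat_lit 4) (nat_lit 68864) (nat_lit 11) (node (nat_lit 7) (nat_lit 69458) (nat_lit 12)
  (node (nat_lit 4) (nat_lit 69065) (nat_lit 13) (node (nat_lit 5) (nat_lit 69610) (nat_lit 14)
  (node (nat_lit 4) (nat_lit 67847) (nat_lit 15) (node (nat_lit 7) (nat_lit 66356) (nat_lit 16)
  nil nil) nil) nil) (node (nat_lit 3) (nat_lit 69017) (nat_lit 13) (node (nat_lit 4) (nat_lit
  68691) (nat_lit 14) nil nil) (node (nat_lit 0) (nat_lit 70012) (nat_lit 13) nil nil))) nil)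
  (node (nat_lit 7) (nat_lit 70539) (nat_lit 11) nil nil)) (node (nat_lit 3) (nat_lit 67241)
  (nat_lit 10) (node (nat_lit 4) (nat_lit 65537) (nat_lit 11) nil nil) (node (nat_lit 0) (nat_lit
  69630) (nat_lit 10) nil nil))) (node (nat_lit 3) (nat_lit 65909) (nat_lit 9) (node (nat_lit 7)
  (nat_lit 67008) (nat_lit 10) nil (node (nat_lit 4) (nat_lit 64986) (nat_lit 10) (node (nat_lit
  5) (nat_lit 60823) (nat_lit 11) (node (nat_lit 4) (nat_lit 55265) (nat_lit 12) (node (nat_lit 7)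
  (nat_lit 49027) (nat_lit 13) nil nil) nil) nil) nil)) (node (nat_lit 0) (nat_lit 68466) (nat_lit
  9) nil nil))) (node (nat_lit 5) (nat_lit 66524) (nat_lit 8) (node (nat_lit 4) (nat_lit 67928)
  (nat_lit 9) (node (nat_lit 5) (nat_lit 68842) (nat_lit 10) (node (nat_lit 7) (nat_lit 69555)
  (nat_lit 11) (node (nat_lit 4) (nat_lit 69754) (nat_lit 12) nil nil) nil) (node (nat_lit 3)
  (nat_lit 67203) (nat_lit 10) (node (nat_lit 4) (nat_lit 65833) (nat_lit 11) nil nil) nil)) (node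
  (nat_lit 3) (nat_lit 65458) (nat_lit 9) nil (node (nat_lit 0) (nat_lit 68015) (nat_lit 9) nil
  nil))) (node (nat_lit 3) (nat_lit 66833) (nat_lit 8) (node (nat_lit 7) (nat_lit 67309) (nat_lit
  9) (node (nat_lit 4) (nat_lit 65883) (nat_lit 10) nil nil) (node (nat_lit 4) (nat_lit 65514)
  (nat_lit 9) (node (nat_lit 5) (nat_lit 62548) (nat_lit 10) (node (nat_lit 4) (nat_lit 55022)
  (nat_lit 11) (node (nat_lit 7) (nat_lit 46106) (nat_lit 12) (node (nat_lit 4) (nat_lit 29878)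
  (nat_lit 13) nil nil) nil) nil) nil) (node (nat_lit 5) (nat_lit 67742) (nat_lit 9) nil nil)))
  (node (nat_lit 0) (nat_lit 69338) (nat_lit 8) nil nil)))) (node (nat_lit 3) (nat_lit 64383)
  (nat_lit 7) (node (nat_lit 4) (nat_lit 63258) (nat_lit 8) (node (nat_lit 7) (nat_lit 63734)
  (nat_lit 9) nil nil) (node (nat_lit 7) (nat_lit 65173) (nat_lit 8) (node (nat_lit 4) (nat_lit
  63530) (nat_lit 9) (node (nat_lit 5) (nat_lit 60702) (nat_lit 10) (node (nat_lit 4) (nat_lit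
  53623) (nat_lit 11) (node (nat_lit 7) (nat_lit 45124) (nat_lit 12) (node (nat_lit 4) (nat_lit
  43545) (nat_lit 13) nil nil) nil) nil) nil) nil) (node (nat_lit 0) (nat_lit 66358) (nat_lit 8)
  nil (node (nat_lit 5) (nat_lit 66358) (nat_lit 8) nil nil)))) (node (nat_lit 0) (nat_lit 67138)
  (nat_lit 7) (node (nat_lit 4) (nat_lit 64008) (nat_lit 8) nil (node (nat_lit 7) (nat_lit 67107)
  (nat_lit 8) nil (node (nat_lit 3) (nat_lit 66836) (nat_lit 8) nil (node (nat_lit 0) (nat_lit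
  69936) (nat_lit 8) nil nil)))) nil)))) (node (nat_lit 3) (nat_lit 76276) (nat_lit 6) (node
  (nat_lit 7) (nat_lit 77731) (nat_lit 7) (node (nat_lit 9) (nat_lit 76572) (nat_lit 8) nil (node
  (nat_lit 4) (nat_lit 74783) (nat_lit 8) (node (nat_lit 5) (nat_lit 64825) (nat_lit 9) (node
  (nat_lit 4) (nat_lit 50876) (nat_lit 10) (node (nat_lit 7) (nat_lit 47604) (nat_lit 11) nil nil)
  nil) nil) (node (nat_lit 5) (nat_lit 80528) (nat_lit 8) nil nil))) (node (nat_lit 4) (nat_lit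
  76215) (nat_lit 7) (node (nat_lit 7) (nat_lit 75422) (nat_lit 8) nil (node (nat_lit 5) (nat_lit
  69671) (nat_lit 8) (node (nat_lit 4) (nat_lit 53525) (nat_lit 9) (node (nat_lit 7) (nat_lit
  29736) (nat_lit 10) nil (node (nat_lit 9) (nat_lit 52245) (nat_lit 10) nil nil)) nil) nil))
  (node (nat_lit 5) (nat_lit 78973) (nat_lit 7) (node (nat_lit 4) (nat_lit 77646) (nat_lit 8) nil
  nil) nil))) (node (nat_lit 0) (nat_lit 73911) (nat_lit 6) (node (nat_lit 4) (nat_lit 70188)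
  (nat_lit 7) nil (node (nat_lit 5) (nat_lit 77956) (nat_lit 7) (node (nat_lit 4) (nat_lit 74826)
  (nat_lit 8) nil nil) (node (nat_lit 7) (nat_lit 74147) (nat_lit 7) nil (node (nat_lit 3)
  (nat_lit 73997) (nat_lit 7) nil (node (nat_lit 0) (nat_lit 77956) (nat_lit 7) nil nil)))))
  nil))) (node (nat_lit 5) (nat_lit 63991) (nat_lit 5) (node (nat_lit 7) (nat_lit 69720) (nat_lit
  6) (node (nat_lit 4) (nat_lit 82467) (nat_lit 7) (node (nat_lit 5) (nat_lit 92724) (nat_lit 8)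
  (node (nat_lit 4) (nat_lit 91067) (nat_lit 9) (node (nat_lit 7) (nat_lit 90824) (nat_lit 10)
  (node (nat_lit 5) (nat_lit 45648) (nat_lit 11) nil nil) nil) nil) (node (nat_lit 7) (nat_lit
  90937) (nat_lit 8) (node (nat_lit 5) (nat_lit 93024) (nat_lit 9) nil nil) (node (nat_lit 3)
  (nat_lit 89345) (nat_lit 8) nil (node (nat_lit 0) (nat_lit 88272) (nat_lit 8) nil nil)))) (node
  (nat_lit 3) (nat_lit 84779) (nat_lit 7) (node (nat_lit 7) (nat_lit 86806) (nat_lit 8) nil (node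
  (nat_lit 4) (nat_lit 80324) (nat_lit 8) (node (nat_lit 5) (nat_lit 77175) (nat_lit 9) (node
  (nat_lit 4) (nat_lit 65188) (nat_lit 10) (node (nat_lit 7) (nat_lit 40882) (nat_lit 11) (node
  (nat_lit 5) (nat_lit 41245) (nat_lit 12) nil nil) nil) nil) nil) nil)) (node (nat_lit 0)
  (nat_lit 89347) (nat_lit 7) nil nil))) (node (nat_lit 3) (nat_lit 91589) (nat_lit 6) (node
  (nat_lit 4) (nat_lit 90326) (nat_lit 7) (node (nat_lit 7) (nat_lit 91531) (nat_lit 8) nil nil)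
  (node (nat_lit 7) (nat_lit 88128) (nat_lit 7) (node (nat_lit 4) (nat_lit 83945) (nat_lit 8)
  (node (nat_lit 5) (nat_lit 79958) (nat_lit 9) (node (nat_lit 4) (nat_lit 66385) (nat_lit 10)
  (node (nat_lit 7) (nat_lit 51884) (nat_lit 11) (node (nat_lit 5) (nat_lit 39244) (nat_lit 12)
  nil nil) nil) nil) nil) nil) nil)) (node (nat_lit 4) (nat_lit 69724) (nat_lit 6) (node (nat_lit
  5) (nat_lit 82253) (nat_lit 7) (node (nat_lit 7) (nat_lit 82157) (nat_lit 8) nil (node (nat_lit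
  3) (nat_lit 85294) (nat_lit 8) nil nil)) (node (nat_lit 3) (nat_lit 84144) (nat_lit 7) (node
  (nat_lit 7) (nat_lit 83344) (nat_lit 8) (node (nat_lit 4) (nat_lit 79745) (nat_lit 9) (node
  (nat_lit 5) (nat_lit 77171) (nat_lit 10) (node (nat_lit 4) (nat_lit 69548) (nat_lit 11) nil nil)
  nil) nil) (node (nat_lit 4) (nat_lit 72755) (nat_lit 8) (node (nat_lit 5) (nat_lit 68147)
  (nat_lit 9) (node (nat_lit 4) (nat_lit 56974) (nat_lit 10) (node (nat_lit 7) (nat_lit 43488)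
  (nat_lit 11) nil nil) nil) nil) nil)) (node (nat_lit 0) (nat_lit 87638) (nat_lit 7) nil nil)))
  (node (nat_lit 0) (nat_lit 84999) (nat_lit 6) (node (nat_lit 4) (nat_lit 81275) (nat_lit 7) nil
  (node (nat_lit 3) (nat_lit 85084) (nat_lit 7) nil nil)) nil)))) (node (nat_lit 3) (nat_lit
  89235) (nat_lit 5) (node (nat_lit 4) (nat_lit 84154) (nat_lit 6) (node (nat_lit 8) (nat_lit
  83456) (nat_lit 7) (node (nat_lit 7) (nat_lit 81488) (nat_lit 8) (node (nat_lit 4) (nat_lit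
  78197) (nat_lit 9) (node (nat_lit 5) (nat_lit 76056) (nat_lit 10) (node (nat_lit 4) (nat_lit
  70407) (nat_lit 11) (node (nat_lit 7) (nat_lit 62044) (nat_lit 12) (node (nat_lit 8) (nat_lit
  45832) (nat_lit 13) (node (nat_lit 4) (nat_lit 34414) (nat_lit 14) nil nil) nil) nil) nil) nil)
  nil) (node (nat_lit 5) (nat_lit 84589) (nat_lit 8) nil nil)) (node (nat_lit 7) (nat_lit 84902)
  (nat_lit 7) (node (nat_lit 4) (nat_lit 80313) (nat_lit 8) (node (nat_lit 8) (nat_lit 78933)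
  (nat_lit 9) (node (nat_lit 4) (nat_lit 76630) (nat_lit 10) (node (nat_lit 5) (nat_lit 75470)
  (nat_lit 11) (node (nat_lit 4) (nat_lit 71102) (nat_lit 12) (node (nat_lit 7) (nat_lit 66728)
  (nat_lit 13) (node (nat_lit 8) (nat_lit 58547) (nat_lit 14) (node (nat_lit 4) (nat_lit 45423)
  (nat_lit 15) nil nil) nil) nil) nil) nil) nil) (node (nat_lit 5) (nat_lit 75941) (nat_lit 9)
  (node (nat_lit 4) (nat_lit 65208) (nat_lit 10) (node (nat_lit 7) (nat_lit 46478) (nat_lit 11)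
  nil nil) nil) nil)) nil) (node (nat_lit 5) (nat_lit 71788) (nat_lit 7) (node (nat_lit 4)
  (nat_lit 44555) (nat_lit 8) (node (nat_lit 8) (nat_lit 42923) (nat_lit 9) nil nil) (node
  (nat_lit 8) (nat_lit 70759) (nat_lit 8) (node (nat_lit 4) (nat_lit 69945) (nat_lit 9) nil nil)
  (node (nat_lit 7) (nat_lit 70759) (nat_lit 8) (node (nat_lit 4) (nat_lit 69945) (nat_lit 9) nil
  nil) nil))) nil))) (node (nat_lit 7) (nat_lit 92730) (nat_lit 6) (node (nat_lit 4) (nat_lit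
  88368) (nat_lit 7) (node (nat_lit 8) (nat_lit 88562) (nat_lit 8) (node (nat_lit 4) (nat_lit
  85271) (nat_lit 9) (node (nat_lit 7) (nat_lit 84317) (nat_lit 10) nil (node (nat_lit 5) (nat_lit
  83823) (nat_lit 10) (node (nat_lit 4) (nat_lit 77255) (nat_lit 11) (node (nat_lit 7) (nat_lit
  65991) (nat_lit 12) (node (nat_lit 8) (nat_lit 54712) (nat_lit 13) nil nil) nil) nil) nil)) nil)
  (node (nat_lit 5) (nat_lit 75559) (nat_lit 8) (node (nat_lit 4) (nat_lit 62864) (nat_lit 9)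
  (node (nat_lit 7) (nat_lit 43177) (nat_lit 10) (node (nat_lit 4) (nat_lit 42110) (nat_lit 11)
  nil nil) nil) nil) nil)) nil) (node (nat_lit 5) (nat_lit 92170) (nat_lit 6) nil nil))) (node
  (nat_lit 0) (nat_lit 91310) (nat_lit 5) (node (nat_lit 4) (nat_lit 85926) (nat_lit 6) (node
  (nat_lit 7) (nat_lit 82980) (nat_lit 7) (node (nat_lit 4) (nat_lit 77370) (nat_lit 8) nil nil)
  nil) nil) nil)))) (node (nat_lit 0) (nat_lit 0) (nat_lit 4) (node (nat_lit 5) (nat_lit 95718)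
  (nat_lit 5) (node (nat_lit 4) (nat_lit 90334) (nat_lit 6) (node (nat_lit 3) (nat_lit 87388)
  (nat_lit 7) nil nil) nil) (node (nat_lit 4) (nat_lit 92595) (nat_lit 5) (node (nat_lit 5)
  (nat_lit 97247) (nat_lit 6) (node (nat_lit 7) (nat_lit 99431) (nat_lit 7) nil nil) (node
  (nat_lit 3) (nat_lit 90216) (nat_lit 6) (node (nat_lit 4) (nat_lit 83569) (nat_lit 7) (node
  (nat_lit 5) (nat_lit 63533) (nat_lit 8) (node (nat_lit 4) (nat_lit 42100) (nat_lit 9) (node
  (nat_lit 7) (nat_lit 42553) (nat_lit 10) nil nil) nil) nil) nil) (node (nat_lit 0) (nat_lit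
  97247) (nat_lit 6) nil nil))) (node (nat_lit 3) (nat_lit 88437) (nat_lit 5) (node (nat_lit 4)
  (nat_lit 87636) (nat_lit 6) (node (nat_lit 5) (nat_lit 88984) (nat_lit 7) (node (nat_lit 4)
  (nat_lit 86838) (nat_lit 8) (node (nat_lit 7) (nat_lit 37620) (nat_lit 9) nil nil) nil) (node
  (nat_lit 8) (nat_lit 85175) (nat_lit 7) nil nil)) (node (nat_lit 7) (nat_lit 92736) (nat_lit 6)
  nil (node (nat_lit 3) (nat_lit 84870) (nat_lit 6) (node (nat_lit 4) (nat_lit 77744) (nat_lit 7)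
  (node (nat_lit 5) (nat_lit 70274) (nat_lit 8) nil nil) (node (nat_lit 8) (nat_lit 85733)
  (nat_lit 7) nil nil)) nil))) (node (nat_lit 0) (nat_lit 88799) (nat_lit 5) nil nil)))) nil))
  (node (nat_lit 0) (nat_lit 0) (nat_lit 3) (node (nat_lit 5) (nat_lit 0) (nat_lit 4) (node
  (nat_lit 4) (nat_lit 100777) (nat_lit 5) (node (nat_lit 6) (nat_lit 105754) (nat_lit 6) (node
  (nat_lit 5) (nat_lit 106847) (nat_lit 7) (node (nat_lit 6) (nat_lit 106847) (nat_lit 8) nil
  (node (nat_lit 3) (nat_lit 105099) (nat_lit 8) nil nil)) (node (nat_lit 4) (nat_lit 102516)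
  (nat_lit 7) (node (nat_lit 5) (nat_lit 103757) (nat_lit 8) (node (nat_lit 6) (nat_lit 104480)
  (nat_lit 9) nil (node (nat_lit 4) (nat_lit 101028) (nat_lit 9) nil nil)) (node (nat_lit 3)
  (nat_lit 100412) (nat_lit 8) (node (nat_lit 4) (nat_lit 98163) (nat_lit 9) (node (nat_lit 5)
  (nat_lit 89432) (nat_lit 10) (node (nat_lit 6) (nat_lit 85259) (nat_lit 11) (node (nat_lit 5)
  (nat_lit 76306) (nat_lit 12) nil nil) nil) nil) nil) (node (nat_lit 0) (nat_lit 103757) (nat_lit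
  8) nil nil))) (node (nat_lit 3) (nat_lit 103145) (nat_lit 7) (node (nat_lit 3) (nat_lit 102719)
  (nat_lit 8) nil nil) (node (nat_lit 0) (nat_lit 106847) (nat_lit 7) nil nil)))) (node (nat_lit
  3) (nat_lit 93632) (nat_lit 6) (node (nat_lit 4) (nat_lit 84727) (nat_lit 7) (node (nat_lit 5)
  (nat_lit 76719) (nat_lit 8) (node (nat_lit 6) (nat_lit 47839) (nat_lit 9) (node (nat_lit 5)
  (nat_lit 45840) (nat_lit 10) nil nil) nil) nil) (node (nat_lit 3) (nat_lit 91232) (nat_lit 7)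
  nil nil)) (node (nat_lit 5) (nat_lit 104322) (nat_lit 6) nil (node (nat_lit 0) (nat_lit 104322)
  (nat_lit 6) nil nil)))) (node (nat_lit 3) (nat_lit 96576) (nat_lit 5) (node (nat_lit 6) (nat_lit
  99789) (nat_lit 6) (node (nat_lit 8) (nat_lit 97179) (nat_lit 7) (node (nat_lit 5) (nat_lit
  98080) (nat_lit 8) nil nil) (node (nat_lit 5) (nat_lit 101266) (nat_lit 7) nil nil)) (node
  (nat_lit 4) (nat_lit 94317) (nat_lit 6) (node (nat_lit 8) (nat_lit 91707) (nat_lit 7) nil (node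
  (nat_lit 3) (nat_lit 92048) (nat_lit 7) nil nil)) (node (nat_lit 3) (nat_lit 88396) (nat_lit 6)
  (node (nat_lit 4) (nat_lit 81707) (nat_lit 7) (node (nat_lit 5) (nat_lit 64939) (nat_lit 8)
  (node (nat_lit 6) (nat_lit 50904) (nat_lit 9) (node (nat_lit 5) (nat_lit 45907) (nat_lit 10) nil
  nil) nil) nil) (node (nat_lit 8) (nat_lit 89543) (nat_lit 7) (node (nat_lit 4) (nat_lit 85028)
  (nat_lit 8) nil nil) nil)) (node (nat_lit 5) (nat_lit 99789) (nat_lit 6) (node (nat_lit 6)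
  (nat_lit 101266) (nat_lit 7) nil nil) (node (nat_lit 0) (nat_lit 99789) (nat_lit 6) nil nil)))))
  (node (nat_lit 0) (nat_lit 99341) (nat_lit 5) (node (nat_lit 6) (nat_lit 102985) (nat_lit 6) nil
  (node (nat_lit 5) (nat_lit 102985) (nat_lit 6) nil nil)) nil))) (node (nat_lit 3) (nat_lit 0)
  (nat_lit 4) (node (nat_lit 4) (nat_lit 95765) (nat_lit 5) (node (nat_lit 7) (nat_lit 93083)
  (nat_lit 6) (node (nat_lit 6) (nat_lit 94257) (nat_lit 7) (node (nat_lit 5) (nat_lit 94878)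
  (nat_lit 8) nil nil) (node (nat_lit 5) (nat_lit 94257) (nat_lit 7) nil nil)) (node (nat_lit 6)
  (nat_lit 97415) (nat_lit 6) nil (node (nat_lit 3) (nat_lit 85544) (nat_lit 6) (node (nat_lit 4)
  (nat_lit 76748) (nat_lit 7) (node (nat_lit 5) (nat_lit 69437) (nat_lit 8) nil nil) nil) nil)))
  (node (nat_lit 6) (nat_lit 94594) (nat_lit 5) (node (nat_lit 4) (nat_lit 87535) (nat_lit 6) nil
  nil) (node (nat_lit 5) (nat_lit 94594) (nat_lit 5) (node (nat_lit 7) (nat_lit 93007) (nat_lit 6)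
  nil nil) (node (nat_lit 3) (nat_lit 93187) (nat_lit 5) (node (nat_lit 7) (nat_lit 90935)
  (nat_lit 6) (node (nat_lit 5) (nat_lit 93103) (nat_lit 7) nil (node (nat_lit 4) (nat_lit 73225)
  (nat_lit 7) (node (nat_lit 5) (nat_lit 63815) (nat_lit 8) nil nil) nil)) (node (nat_lit 4)
  (nat_lit 78352) (nat_lit 6) (node (nat_lit 5) (nat_lit 48778) (nat_lit 7) nil (node (nat_lit 7)
  (nat_lit 76705) (nat_lit 7) (node (nat_lit 5) (nat_lit 78508) (nat_lit 8) nil nil) (node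
  (nat_lit 8) (nat_lit 78786) (nat_lit 7) (node (nat_lit 7) (nat_lit 72082) (nat_lit 8) nil nil)
  nil))) (node (nat_lit 5) (nat_lit 95254) (nat_lit 6) nil (node (nat_lit 6) (nat_lit 95254)
  (nat_lit 6) nil nil)))) (node (nat_lit 0) (nat_lit 94594) (nat_lit 5) nil nil))))) (node
  (nat_lit 4) (nat_lit 0) (nat_lit 4) (node (nat_lit 6) (nat_lit 97231) (nat_lit 5) (node (nat_lit
  5) (nat_lit 105301) (nat_lit 6) (node (nat_lit 6) (nat_lit 106779) (nat_lit 7) (node (nat_lit 4)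
  (nat_lit 104469) (nat_lit 8) nil nil) (node (nat_lit 4) (nat_lit 102056) (nat_lit 7) (node
  (nat_lit 3) (nat_lit 99683) (nat_lit 8) nil nil) nil)) (node (nat_lit 3) (nat_lit 95644)
  (nat_lit 6) nil (node (nat_lit 0) (nat_lit 101116) (nat_lit 6) nil nil))) (node (nat_lit 3)
  (nat_lit 92896) (nat_lit 5) (node (nat_lit 4) (nat_lit 85789) (nat_lit 6) (node (nat_lit 5)
  (nat_lit 76748) (nat_lit 7) (node (nat_lit 6) (nat_lit 53423) (nat_lit 8) (node (nat_lit 4)
  (nat_lit 36998) (nat_lit 9) nil nil) (node (nat_lit 8) (nat_lit 75669) (nat_lit 8) nil nil))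
  (node (nat_lit 6) (nat_lit 88137) (nat_lit 7) nil (node (nat_lit 3) (nat_lit 80314) (nat_lit 7)
  nil nil))) (node (nat_lit 6) (nat_lit 95254) (nat_lit 6) (node (nat_lit 5) (nat_lit 96732)
  (nat_lit 7) nil nil) (node (nat_lit 5) (nat_lit 95254) (nat_lit 6) nil (node (nat_lit 3)
  (nat_lit 87953) (nat_lit 6) (node (nat_lit 4) (nat_lit 81329) (nat_lit 7) (node (nat_lit 5)
  (nat_lit 65811) (nat_lit 8) nil nil) (node (nat_lit 8) (nat_lit 88490) (nat_lit 7) (node
  (nat_lit 4) (nat_lit 83503) (nat_lit 8) nil nil) (node (nat_lit 5) (nat_lit 90908) (nat_lit 7)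
  (node (nat_lit 6) (nat_lit 92710) (nat_lit 8) nil nil) nil))) nil)))) (node (nat_lit 5) (nat_lit
  100839) (nat_lit 5) (node (nat_lit 4) (nat_lit 98136) (nat_lit 6) (node (nat_lit 6) (nat_lit
  101092) (nat_lit 7) nil nil) nil) (node (nat_lit 0) (nat_lit 94853) (nat_lit 5) (node (nat_lit
  6) (nat_lit 98738) (nat_lit 6) nil (node (nat_lit 5) (nat_lit 98738) (nat_lit 6) nil nil))
  nil)))) (node (nat_lit 0) (nat_lit 0) (nat_lit 4) (node (nat_lit 6) (nat_lit 97206) (nat_lit 5)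
  (node (nat_lit 5) (nat_lit 101091) (nat_lit 6) nil nil) (node (nat_lit 3) (nat_lit 89475)
  (nat_lit 5) (node (nat_lit 7) (nat_lit 93360) (nat_lit 6) nil (node (nat_lit 6) (nat_lit 93360)
  (nat_lit 6) nil (node (nat_lit 4) (nat_lit 87888) (nat_lit 6) nil (node (nat_lit 3) (nat_lit
  83882) (nat_lit 6) nil nil)))) (node (nat_lit 5) (nat_lit 97206) (nat_lit 5) nil (node (nat_lit
  4) (nat_lit 86161) (nat_lit 5) (node (nat_lit 6) (nat_lit 90046) (nat_lit 6) nil (node (nat_lit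
  7) (nat_lit 90046) (nat_lit 6) nil (node (nat_lit 3) (nat_lit 80945) (nat_lit 6) nil nil)))
  (node (nat_lit 0) (nat_lit 97206) (nat_lit 5) nil nil))))) nil)))) nil))

noncomputable def t185 : Tr :=
  (node (nat_lit 5) (nat_lit 118331) (nat_lit 5) (node (nat_lit 7) (nat_lit 129591) (nat_lit 6)
  (node (nat_lit 6) (nat_lit 136729) (nat_lit 7) (node (nat_lit 5) (nat_lit 140801) (nat_lit 8)
  (node (nat_lit 6) (nat_lit 140808) (nat_lit 9) (node (nat_lit 7) (nat_lit 138782) (nat_lit 10)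
  (node (nat_lit 6) (nat_lit 137977) (nat_lit 11) nil nil) nil) (node (nat_lit 7) (nat_lit 136440)
  (nat_lit 9) nil nil)) (node (nat_lit 7) (nat_lit 137534) (nat_lit 8) (node (nat_lit 5) (nat_lit
  133307) (nat_lit 9) nil nil) (node (nat_lit 4) (nat_lit 135505) (nat_lit 8) (node (nat_lit 5)
  (nat_lit 119210) (nat_lit 9) (node (nat_lit 6) (nat_lit 107632) (nat_lit 10) nil nil) nil)
  nil))) (node (nat_lit 4) (nat_lit 134691) (nat_lit 7) (node (nat_lit 5) (nat_lit 129590)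
  (nat_lit 8) (node (nat_lit 6) (nat_lit 123802) (nat_lit 9) (node (nat_lit 7) (nat_lit 94168)
  (nat_lit 10) (node (nat_lit 5) (nat_lit 92783) (nat_lit 11) nil nil) nil) nil) (node (nat_lit 6)
  (nat_lit 131230) (nat_lit 8) (node (nat_lit 7) (nat_lit 124706) (nat_lit 9) nil nil) nil)) (node
  (nat_lit 0) (nat_lit 133650) (nat_lit 7) nil nil))) (node (nat_lit 4) (nat_lit 131042) (nat_lit
  6) (node (nat_lit 7) (nat_lit 139142) (nat_lit 7) (node (nat_lit 6) (nat_lit 135927) (nat_lit 8)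
  (node (nat_lit 5) (nat_lit 131700) (nat_lit 9) nil (node (nat_lit 7) (nat_lit 134601) (nat_lit
  9) (node (nat_lit 5) (nat_lit 131326) (nat_lit 10) nil nil) nil)) nil) (node (nat_lit 5)
  (nat_lit 119590) (nat_lit 7) (node (nat_lit 7) (nat_lit 121491) (nat_lit 8) (node (nat_lit 4)
  (nat_lit 121286) (nat_lit 9) nil nil) (node (nat_lit 6) (nat_lit 93104) (nat_lit 8) (node
  (nat_lit 4) (nat_lit 96233) (nat_lit 9) (node (nat_lit 6) (nat_lit 98156) (nat_lit 10) (node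
  (nat_lit 5) (nat_lit 95976) (nat_lit 11) nil nil) (node (nat_lit 7) (nat_lit 98722) (nat_lit 10)
  (node (nat_lit 5) (nat_lit 99886) (nat_lit 11) (node (nat_lit 4) (nat_lit 100656) (nat_lit 12)
  nil nil) (node (nat_lit 6) (nat_lit 95609) (nat_lit 11) nil nil)) (node (nat_lit 0) (nat_lit
  97198) (nat_lit 10) nil nil))) (node (nat_lit 7) (nat_lit 88123) (nat_lit 9) nil (node (nat_lit
  5) (nat_lit 95161) (nat_lit 9) (node (nat_lit 7) (nat_lit 91348) (nat_lit 10) nil (node (nat_lit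
  4) (nat_lit 96126) (nat_lit 10) nil nil)) (node (nat_lit 0) (nat_lit 96003) (nat_lit 9) (node
  (nat_lit 7) (nat_lit 95224) (nat_lit 10) nil (node (nat_lit 4) (nat_lit 96968) (nat_lit 10) nil
  nil)) nil)))) (node (nat_lit 0) (nat_lit 122066) (nat_lit 8) nil nil))) (node (nat_lit 6)
  (nat_lit 138049) (nat_lit 7) (node (nat_lit 5) (nat_lit 139785) (nat_lit 8) (node (nat_lit 7)
  (nat_lit 133260) (nat_lit 9) nil (node (nat_lit 4) (nat_lit 133974) (nat_lit 9) nil nil)) nil)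
  (node (nat_lit 0) (nat_lit 135101) (nat_lit 7) nil nil)))) (node (nat_lit 6) (nat_lit 129527)
  (nat_lit 6) (node (nat_lit 5) (nat_lit 136667) (nat_lit 7) (node (nat_lit 7) (nat_lit 136221)
  (nat_lit 8) (node (nat_lit 6) (nat_lit 132214) (nat_lit 9) nil nil) (node (nat_lit 4) (nat_lit
  128056) (nat_lit 8) nil nil)) (node (nat_lit 4) (nat_lit 129477) (nat_lit 7) (node (nat_lit 5)
  (nat_lit 109932) (nat_lit 8) (node (nat_lit 6) (nat_lit 101150) (nat_lit 9) (node (nat_lit 7)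
  (nat_lit 82951) (nat_lit 10) nil nil) nil) nil) nil)) (node (nat_lit 0) (nat_lit 132945)
  (nat_lit 6) (node (nat_lit 7) (nat_lit 129773) (nat_lit 7) nil (node (nat_lit 6) (nat_lit
  134049) (nat_lit 7) (node (nat_lit 5) (nat_lit 128806) (nat_lit 8) nil nil) nil)) nil)))) (node
  (nat_lit 4) (nat_lit 105827) (nat_lit 5) (node (nat_lit 5) (nat_lit 94600) (nat_lit 6) (node
  (nat_lit 6) (nat_lit 96672) (nat_lit 7) (node (nat_lit 4) (nat_lit 97525) (nat_lit 8) nil (node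
  (nat_lit 5) (nat_lit 97525) (nat_lit 8) nil (node (nat_lit 0) (nat_lit 97525) (nat_lit 8) nil
  nil))) (node (nat_lit 7) (nat_lit 96664) (nat_lit 7) (node (nat_lit 5) (nat_lit 97516) (nat_lit
  8) (node (nat_lit 4) (nat_lit 98133) (nat_lit 9) (node (nat_lit 5) (nat_lit 92218) (nat_lit 10)
  (node (nat_lit 6) (nat_lit 92982) (nat_lit 11) (node (nat_lit 7) (nat_lit 88159) (nat_lit 12)
  (node (nat_lit 4) (nat_lit 75068) (nat_lit 13) (node (nat_lit 5) (nat_lit 45240) (nat_lit 14)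
  nil nil) nil) nil) nil) nil) nil) (node (nat_lit 6) (nat_lit 99241) (nat_lit 8) (node (nat_lit
  4) (nat_lit 99999) (nat_lit 9) nil (node (nat_lit 5) (nat_lit 99999) (nat_lit 9) (node (nat_lit
  7) (nat_lit 100467) (nat_lit 10) (node (nat_lit 5) (nat_lit 99458) (nat_lit 11) nil nil) (node
  (nat_lit 6) (nat_lit 97433) (nat_lit 10) nil nil)) nil)) (node (nat_lit 4) (nat_lit 97516)
  (nat_lit 8) (node (nat_lit 7) (nat_lit 98209) (nat_lit 9) (node (nat_lit 5) (nat_lit 98262)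
  (nat_lit 10) (node (nat_lit 4) (nat_lit 97100) (nat_lit 11) (node (nat_lit 5) (nat_lit 96408)
  (nat_lit 12) (node (nat_lit 7) (nat_lit 95238) (nat_lit 13) (node (nat_lit 4) (nat_lit 95675)
  (nat_lit 14) nil nil) nil) nil) nil) nil) (node (nat_lit 6) (nat_lit 100090) (nat_lit 9) (node
  (nat_lit 5) (nat_lit 100559) (nat_lit 10) (node (nat_lit 7) (nat_lit 99549) (nat_lit 11) nil
  nil) (node (nat_lit 7) (nat_lit 98815) (nat_lit 10) nil nil)) nil)) (node (nat_lit 0) (nat_lit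
  97516) (nat_lit 8) nil nil)))) (node (nat_lit 4) (nat_lit 96664) (nat_lit 7) (node (nat_lit 7)
  (nat_lit 97516) (nat_lit 8) (node (nat_lit 5) (nat_lit 97762) (nat_lit 9) (node (nat_lit 7)
  (nat_lit 96487) (nat_lit 10) nil nil) (node (nat_lit 6) (nat_lit 99842) (nat_lit 9) (node
  (nat_lit 7) (nat_lit 100311) (nat_lit 10) nil nil) nil)) (node (nat_lit 6) (nat_lit 99381)
  (nat_lit 8) (node (nat_lit 5) (nat_lit 99999) (nat_lit 9) (node (nat_lit 7) (nat_lit 100467)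
  (nat_lit 10) (node (nat_lit 4) (nat_lit 100881) (nat_lit 11) nil nil) nil) nil) (node (nat_lit
  0) (nat_lit 97516) (nat_lit 8) nil nil))) (node (nat_lit 0) (nat_lit 98215) (nat_lit 7) nil
  nil)))) (node (nat_lit 6) (nat_lit 114459) (nat_lit 6) (node (nat_lit 4) (nat_lit 119682)
  (nat_lit 7) (node (nat_lit 7) (nat_lit 122452) (nat_lit 8) (node (nat_lit 6) (nat_lit 123925)
  (nat_lit 9) (node (nat_lit 7) (nat_lit 124218) (nat_lit 10) (node (nat_lit 4) (nat_lit 125318)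
  (nat_lit 11) (node (nat_lit 6) (nat_lit 126089) (nat_lit 12) nil nil) nil) nil) (node (nat_lit
  4) (nat_lit 123722) (nat_lit 9) nil (node (nat_lit 5) (nat_lit 123971) (nat_lit 9) nil nil)))
  (node (nat_lit 5) (nat_lit 118401) (nat_lit 8) nil (node (nat_lit 0) (nat_lit 121435) (nat_lit
  8) nil nil))) (node (nat_lit 5) (nat_lit 119445) (nat_lit 7) (node (nat_lit 4) (nat_lit 122216)
  (nat_lit 8) (node (nat_lit 5) (nat_lit 121759) (nat_lit 9) (node (nat_lit 6) (nat_lit 120209)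
  (nat_lit 10) (node (nat_lit 7) (nat_lit 96057) (nat_lit 11) (node (nat_lit 4) (nat_lit 66338)
  (nat_lit 12) nil nil) nil) nil) nil) (node (nat_lit 7) (nat_lit 122216) (nat_lit 8) (node
  (nat_lit 5) (nat_lit 124282) (nat_lit 9) (node (nat_lit 6) (nat_lit 125727) (nat_lit 10) (node
  (nat_lit 7) (nat_lit 126318) (nat_lit 11) nil (node (nat_lit 5) (nat_lit 125005) (nat_lit 11)
  nil nil)) (node (nat_lit 4) (nat_lit 125246) (nat_lit 10) nil nil)) (node (nat_lit 6) (nat_lit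
  124109) (nat_lit 9) (node (nat_lit 7) (nat_lit 122040) (nat_lit 10) nil nil) (node (nat_lit 4)
  (nat_lit 123798) (nat_lit 9) (node (nat_lit 5) (nat_lit 113676) (nat_lit 10) (node (nat_lit 6)
  (nat_lit 107463) (nat_lit 11) (node (nat_lit 7) (nat_lit 99975) (nat_lit 12) nil nil) nil) nil)
  nil))) (node (nat_lit 6) (nat_lit 119794) (nat_lit 8) nil nil))) (node (nat_lit 7) (nat_lit
  119581) (nat_lit 7) (node (nat_lit 6) (nat_lit 122351) (nat_lit 8) (node (nat_lit 4) (nat_lit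
  123933) (nat_lit 9) (node (nat_lit 7) (nat_lit 124898) (nat_lit 10) nil nil) nil) (node (nat_lit
  5) (nat_lit 117396) (nat_lit 8) (node (nat_lit 4) (nat_lit 116931) (nat_lit 9) (node (nat_lit 5)
  (nat_lit 113011) (nat_lit 10) nil nil) nil) nil)) (node (nat_lit 0) (nat_lit 118001) (nat_lit 7)
  nil nil)))) (node (nat_lit 7) (nat_lit 114141) (nat_lit 6) (node (nat_lit 6) (nat_lit 119593)
  (nat_lit 7) (node (nat_lit 4) (nat_lit 121143) (nat_lit 8) (node (nat_lit 6) (nat_lit 123539)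
  (nat_lit 9) (node (nat_lit 7) (nat_lit 124554) (nat_lit 10) (node (nat_lit 4) (nat_lit 125655)
  (nat_lit 11) (node (nat_lit 6) (nat_lit 126425) (nat_lit 12) (node (nat_lit 4) (nat_lit 127051)
  (nat_lit 13) nil nil) nil) nil) nil) (node (nat_lit 5) (nat_lit 116688) (nat_lit 9) (node
  (nat_lit 6) (nat_lit 110629) (nat_lit 10) (node (nat_lit 7) (nat_lit 75838) (nat_lit 11) (node
  (nat_lit 4) (nat_lit 73386) (nat_lit 12) nil nil) nil) nil) nil)) (node (nat_lit 7) (nat_lit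
  122364) (nat_lit 8) (node (nat_lit 5) (nat_lit 124393) (nat_lit 9) (node (nat_lit 6) (nat_lit
  125021) (nat_lit 10) nil (node (nat_lit 4) (nat_lit 124311) (nat_lit 10) nil nil)) (node
  (nat_lit 4) (nat_lit 123946) (nat_lit 9) (node (nat_lit 5) (nat_lit 125186) (nat_lit 10) (node
  (nat_lit 6) (nat_lit 108321) (nat_lit 11) (node (nat_lit 7) (nat_lit 99975) (nat_lit 12) (node
  (nat_lit 4) (nat_lit 100279) (nat_lit 13) nil nil) nil) nil) nil) (node (nat_lit 0) (nat_lit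
  123634) (nat_lit 9) nil nil))) (node (nat_lit 5) (nat_lit 122364) (nat_lit 8) (node (nat_lit 7)
  (nat_lit 119112) (nat_lit 9) nil (node (nat_lit 4) (nat_lit 118953) (nat_lit 9) nil nil)) (node
  (nat_lit 0) (nat_lit 121347) (nat_lit 8) nil nil)))) (node (nat_lit 5) (nat_lit 118534) (nat_lit
  7) (node (nat_lit 4) (nat_lit 120893) (nat_lit 8) (node (nat_lit 5) (nat_lit 122475) (nat_lit 9)
  (node (nat_lit 6) (nat_lit 110926) (nat_lit 10) (node (nat_lit 7) (nat_lit 106677) (nat_lit 11)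
  (node (nat_lit 4) (nat_lit 67226) (nat_lit 12) (node (nat_lit 7) (nat_lit 66966) (nat_lit 13)
  nil nil) nil) nil) nil) (node (nat_lit 6) (nat_lit 122647) (nat_lit 9) (node (nat_lit 7)
  (nat_lit 118835) (nat_lit 10) nil nil) nil)) (node (nat_lit 6) (nat_lit 122364) (nat_lit 8)
  (node (nat_lit 4) (nat_lit 115903) (nat_lit 9) nil nil) (node (nat_lit 7) (nat_lit 118148)
  (nat_lit 8) nil (node (nat_lit 0) (nat_lit 120287) (nat_lit 8) nil nil)))) (node (nat_lit 0)
  (nat_lit 119755) (nat_lit 7) (node (nat_lit 6) (nat_lit 117092) (nat_lit 8) nil (node (nat_lit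
  7) (nat_lit 117381) (nat_lit 8) nil nil)) nil))) (node (nat_lit 0) (nat_lit 114788) (nat_lit 6)
  (node (nat_lit 7) (nat_lit 119775) (nat_lit 7) (node (nat_lit 6) (nat_lit 117523) (nat_lit 8)
  nil (node (nat_lit 5) (nat_lit 116736) (nat_lit 8) nil nil)) (node (nat_lit 4) (nat_lit 118330)
  (nat_lit 7) nil (node (nat_lit 6) (nat_lit 119775) (nat_lit 7) nil (node (nat_lit 5) (nat_lit
  119775) (nat_lit 7) (node (nat_lit 6) (nat_lit 111640) (nat_lit 8) nil nil) (node (nat_lit 0)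
  (nat_lit 118330) (nat_lit 7) nil nil))))) nil)))) (node (nat_lit 6) (nat_lit 114723) (nat_lit 5)
  (node (nat_lit 5) (nat_lit 126443) (nat_lit 6) (node (nat_lit 7) (nat_lit 132653) (nat_lit 7)
  (node (nat_lit 5) (nat_lit 137925) (nat_lit 8) (node (nat_lit 6) (nat_lit 140799) (nat_lit 9)
  (node (nat_lit 7) (nat_lit 139440) (nat_lit 10) (node (nat_lit 5) (nat_lit 138343) (nat_lit 11)
  (node (nat_lit 7) (nat_lit 137936) (nat_lit 12) nil nil) nil) (node (nat_lit 5) (nat_lit 140656)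
  (nat_lit 10) (node (nat_lit 7) (nat_lit 136684) (nat_lit 11) nil (node (nat_lit 4) (nat_lit
  137898) (nat_lit 11) (node (nat_lit 5) (nat_lit 136955) (nat_lit 12) (node (nat_lit 6) (nat_lit
  133140) (nat_lit 13) (node (nat_lit 7) (nat_lit 129236) (nat_lit 14) (node (nat_lit 6) (nat_lit
  123391) (nat_lit 15) nil nil) nil) nil) nil) nil)) (node (nat_lit 4) (nat_lit 140374) (nat_lit
  10) (node (nat_lit 5) (nat_lit 138133) (nat_lit 11) (node (nat_lit 6) (nat_lit 133163) (nat_lit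
  12) (node (nat_lit 7) (nat_lit 127393) (nat_lit 13) (node (nat_lit 6) (nat_lit 117708) (nat_lit
  14) (node (nat_lit 5) (nat_lit 100809) (nat_lit 15) nil nil) nil) nil) nil) nil) nil))) (node
  (nat_lit 4) (nat_lit 132438) (nat_lit 9) nil nil)) (node (nat_lit 6) (nat_lit 135517) (nat_lit
  8) (node (nat_lit 7) (nat_lit 136162) (nat_lit 9) (node (nat_lit 5) (nat_lit 132887) (nat_lit
  10) nil nil) (node (nat_lit 4) (nat_lit 130030) (nat_lit 9) nil nil)) (node (nat_lit 4) (nat_lit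
  132830) (nat_lit 8) (node (nat_lit 5) (nat_lit 128543) (nat_lit 9) (node (nat_lit 6) (nat_lit
  116255) (nat_lit 10) (node (nat_lit 7) (nat_lit 97796) (nat_lit 11) (node (nat_lit 6) (nat_lit
  91940) (nat_lit 12) (node (nat_lit 5) (nat_lit 84394) (nat_lit 13) nil nil) nil) nil) nil) nil)
  (node (nat_lit 0) (nat_lit 135129) (nat_lit 8) nil nil)))) (node (nat_lit 6) (nat_lit 130747)
  (nat_lit 7) (node (nat_lit 7) (nat_lit 134492) (nat_lit 8) (node (nat_lit 5) (nat_lit 127642)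
  (nat_lit 9) nil (node (nat_lit 4) (nat_lit 129004) (nat_lit 9) nil nil)) (node (nat_lit 4)
  (nat_lit 134055) (nat_lit 8) (node (nat_lit 5) (nat_lit 129115) (nat_lit 9) (node (nat_lit 6)
  (nat_lit 118317) (nat_lit 10) (node (nat_lit 7) (nat_lit 90385) (nat_lit 11) (node (nat_lit 6)
  (nat_lit 90008) (nat_lit 12) (node (nat_lit 5) (nat_lit 89127) (nat_lit 13) nil nil) nil) nil)
  nil) nil) nil)) (node (nat_lit 4) (nat_lit 135765) (nat_lit 7) (node (nat_lit 7) (nat_lit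
  139362) (nat_lit 8) (node (nat_lit 6) (nat_lit 137722) (nat_lit 9) (node (nat_lit 4) (nat_lit
  134070) (nat_lit 10) (node (nat_lit 5) (nat_lit 126766) (nat_lit 11) (node (nat_lit 6) (nat_lit
  121077) (nat_lit 12) (node (nat_lit 7) (nat_lit 114699) (nat_lit 13) nil nil) nil) nil) (node
  (nat_lit 7) (nat_lit 136777) (nat_lit 10) (node (nat_lit 4) (nat_lit 137204) (nat_lit 11) nil
  (node (nat_lit 5) (nat_lit 134257) (nat_lit 11) nil nil)) nil)) nil) (node (nat_lit 6) (nat_lit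
  135207) (nat_lit 8) nil (node (nat_lit 5) (nat_lit 135207) (nat_lit 8) (node (nat_lit 6)
  (nat_lit 122891) (nat_lit 9) (node (nat_lit 7) (nat_lit 88960) (nat_lit 10) (node (nat_lit 6)
  (nat_lit 81151) (nat_lit 11) nil nil) (node (nat_lit 4) (nat_lit 124253) (nat_lit 10) nil nil))
  nil) nil))) (node (nat_lit 0) (nat_lit 135747) (nat_lit 7) (node (nat_lit 6) (nat_lit 132567)
  (nat_lit 8) nil (node (nat_lit 5) (nat_lit 132444) (nat_lit 8) nil (node (nat_lit 7) (nat_lit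
  132856) (nat_lit 8) nil nil))) nil)))) (node (nat_lit 4) (nat_lit 120893) (nat_lit 6) (node
  (nat_lit 7) (nat_lit 130361) (nat_lit 7) (node (nat_lit 4) (nat_lit 132836) (nat_lit 8) nil
  (node (nat_lit 5) (nat_lit 135344) (nat_lit 8) nil (node (nat_lit 6) (nat_lit 133877) (nat_lit
  8) nil nil))) (node (nat_lit 5) (nat_lit 124041) (nat_lit 7) (node (nat_lit 6) (nat_lit 92567)
  (nat_lit 8) (node (nat_lit 7) (nat_lit 90732) (nat_lit 9) nil (node (nat_lit 4) (nat_lit 93743)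
  (nat_lit 9) nil (node (nat_lit 5) (nat_lit 94827) (nat_lit 9) (node (nat_lit 7) (nat_lit 94459)
  (nat_lit 10) nil (node (nat_lit 4) (nat_lit 95721) (nat_lit 10) nil nil)) (node (nat_lit 0)
  (nat_lit 93743) (nat_lit 9) nil nil)))) (node (nat_lit 7) (nat_lit 126578) (nat_lit 8) (node
  (nat_lit 4) (nat_lit 124446) (nat_lit 9) nil nil) (node (nat_lit 4) (nat_lit 126517) (nat_lit 8)
  nil nil))) (node (nat_lit 6) (nat_lit 129085) (nat_lit 7) (node (nat_lit 7) (nat_lit 133334)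
  (nat_lit 8) (node (nat_lit 4) (nat_lit 134218) (nat_lit 9) nil nil) (node (nat_lit 5) (nat_lit
  132237) (nat_lit 8) nil (node (nat_lit 0) (nat_lit 131560) (nat_lit 8) nil nil))) (node (nat_lit
  0) (nat_lit 130401) (nat_lit 7) (node (nat_lit 7) (nat_lit 127509) (nat_lit 8) nil nil) nil))))
  (node (nat_lit 0) (nat_lit 128766) (nat_lit 6) (node (nat_lit 7) (nat_lit 136102) (nat_lit 7)
  (node (nat_lit 6) (nat_lit 139007) (nat_lit 8) (node (nat_lit 7) (nat_lit 137680) (nat_lit 9)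
  nil nil) (node (nat_lit 5) (nat_lit 127326) (nat_lit 8) nil nil)) (node (nat_lit 5) (nat_lit
  135412) (nat_lit 7) nil (node (nat_lit 6) (nat_lit 136035) (nat_lit 7) (node (nat_lit 5)
  (nat_lit 127259) (nat_lit 8) nil (node (nat_lit 7) (nat_lit 131818) (nat_lit 8) nil nil)) (node
  (nat_lit 4) (nat_lit 132825) (nat_lit 7) nil (node (nat_lit 0) (nat_lit 132825) (nat_lit 7) nil
  nil))))) nil))) (node (nat_lit 0) (nat_lit 122087) (nat_lit 5) (node (nat_lit 5) (nat_lit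
  133159) (nat_lit 6) (node (nat_lit 7) (nat_lit 131467) (nat_lit 7) (node (nat_lit 6) (nat_lit
  126512) (nat_lit 8) nil nil) nil) (node (nat_lit 6) (nat_lit 133171) (nat_lit 6) (node (nat_lit
  7) (nat_lit 138289) (nat_lit 7) nil (node (nat_lit 5) (nat_lit 128750) (nat_lit 7) nil nil))
  (node (nat_lit 7) (nat_lit 133304) (nat_lit 6) (node (nat_lit 6) (nat_lit 136673) (nat_lit 7)
  nil (node (nat_lit 5) (nat_lit 127484) (nat_lit 7) nil nil)) (node (nat_lit 4) (nat_lit 131303)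
  (nat_lit 6) nil (node (nat_lit 0) (nat_lit 133159) (nat_lit 6) nil nil))))) nil))))

noncomputable def t186 : Tr :=
  (node (nat_lit 4) (nat_lit 0) (nat_lit 4) (node (nat_lit 5) (nat_lit 0) (nat_lit 5) (node
  (nat_lit 4) (nat_lit 70420) (nat_lit 6) (node (nat_lit 6) (nat_lit 81312) (nat_lit 7) (node
  (nat_lit 4) (nat_lit 92346) (nat_lit 8) (node (nat_lit 5) (nat_lit 97667) (nat_lit 9) (node
  (nat_lit 6) (nat_lit 100937) (nat_lit 10) (node (nat_lit 5) (nat_lit 103016) (nat_lit 11) (node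
  (nat_lit 4) (nat_lit 103603) (nat_lit 12) (node (nat_lit 5) (nat_lit 102218) (nat_lit 13) (node
  (nat_lit 6) (nat_lit 101058) (nat_lit 14) (node (nat_lit 4) (nat_lit 100177) (nat_lit 15) (node
  (nat_lit 5) (nat_lit 100545) (nat_lit 16) (node (nat_lit 4) (nat_lit 96993) (nat_lit 17) (node
  (nat_lit 6) (nat_lit 88827) (nat_lit 18) (node (nat_lit 4) (nat_lit 74055) (nat_lit 19) (node
  (nat_lit 5) (nat_lit 51785) (nat_lit 20) (node (nat_lit 6) (nat_lit 48900) (nat_lit 21) nil nil)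
  nil) nil) nil) nil) nil) nil) nil) nil) nil) (node (nat_lit 4) (nat_lit 102074) (nat_lit 11) nil
  nil)) (node (nat_lit 3) (nat_lit 97240) (nat_lit 10) nil (node (nat_lit 0) (nat_lit 99060)
  (nat_lit 10) nil nil))) (node (nat_lit 0) (nat_lit 102770) (nat_lit 9) nil (node (nat_lit 3)
  (nat_lit 100408) (nat_lit 9) nil nil))) (node (nat_lit 5) (nat_lit 91726) (nat_lit 8) (node
  (nat_lit 4) (nat_lit 94142) (nat_lit 9) (node (nat_lit 5) (nat_lit 93465) (nat_lit 10) (node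
  (nat_lit 6) (nat_lit 92770) (nat_lit 11) (node (nat_lit 4) (nat_lit 88275) (nat_lit 12) (node
  (nat_lit 5) (nat_lit 77685) (nat_lit 13) (node (nat_lit 4) (nat_lit 46310) (nat_lit 14) (node
  (nat_lit 6) (nat_lit 45924) (nat_lit 15) nil nil) nil) nil) nil) nil) nil) (node (nat_lit 6)
  (nat_lit 98145) (nat_lit 9) nil (node (nat_lit 3) (nat_lit 96663) (nat_lit 9) nil (node (nat_lit
  0) (nat_lit 93609) (nat_lit 9) nil nil)))) (node (nat_lit 3) (nat_lit 101309) (nat_lit 8) (node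
  (nat_lit 4) (nat_lit 95061) (nat_lit 9) nil nil) (node (nat_lit 0) (nat_lit 100065) (nat_lit 8)
  nil nil)))) (node (nat_lit 3) (nat_lit 99409) (nat_lit 7) (node (nat_lit 5) (nat_lit 97024)
  (nat_lit 8) nil (node (nat_lit 6) (nat_lit 96097) (nat_lit 8) nil nil)) (node (nat_lit 0)
  (nat_lit 99177) (nat_lit 7) (node (nat_lit 6) (nat_lit 95866) (nat_lit 8) nil (node (nat_lit 3)
  (nat_lit 98900) (nat_lit 8) nil nil)) nil))) (node (nat_lit 3) (nat_lit 92694) (nat_lit 6) (node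
  (nat_lit 4) (nat_lit 94432) (nat_lit 7) (node (nat_lit 9) (nat_lit 94154) (nat_lit 8) nil (node
  (nat_lit 6) (nat_lit 94835) (nat_lit 8) nil (node (nat_lit 5) (nat_lit 83632) (nat_lit 8) (node
  (nat_lit 6) (nat_lit 64845) (nat_lit 9) (node (nat_lit 4) (nat_lit 48657) (nat_lit 10) nil nil)
  nil) nil))) (node (nat_lit 5) (nat_lit 96570) (nat_lit 7) (node (nat_lit 4) (nat_lit 95205)
  (nat_lit 8) nil nil) (node (nat_lit 6) (nat_lit 97948) (nat_lit 7) (node (nat_lit 5) (nat_lit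
  100368) (nat_lit 8) (node (nat_lit 6) (nat_lit 99333) (nat_lit 9) (node (nat_lit 9) (nat_lit
  98208) (nat_lit 10) nil nil) nil) (node (nat_lit 9) (nat_lit 92495) (nat_lit 8) (node (nat_lit
  4) (nat_lit 91422) (nat_lit 9) nil nil) nil)) (node (nat_lit 0) (nat_lit 96025) (nat_lit 7) nil
  nil)))) (node (nat_lit 0) (nat_lit 95839) (nat_lit 6) (node (nat_lit 4) (nat_lit 99169) (nat_lit
  7) nil (node (nat_lit 5) (nat_lit 95082) (nat_lit 7) nil (node (nat_lit 6) (nat_lit 96243)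
  (nat_lit 7) nil nil))) nil))) (node (nat_lit 6) (nat_lit 0) (nat_lit 5) (node (nat_lit 5)
  (nat_lit 97453) (nat_lit 6) (node (nat_lit 4) (nat_lit 108852) (nat_lit 7) (node (nat_lit 5)
  (nat_lit 115815) (nat_lit 8) (node (nat_lit 6) (nat_lit 117571) (nat_lit 9) (node (nat_lit 4)
  (nat_lit 89102) (nat_lit 10) (node (nat_lit 5) (nat_lit 90116) (nat_lit 11) (node (nat_lit 4)
  (nat_lit 90799) (nat_lit 12) (node (nat_lit 6) (nat_lit 91333) (nat_lit 13) (node (nat_lit 5)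
  (nat_lit 91285) (nat_lit 14) (node (nat_lit 4) (nat_lit 91795) (nat_lit 15) nil nil) nil) nil)
  (node (nat_lit 3) (nat_lit 88061) (nat_lit 12) nil nil)) (node (nat_lit 6) (nat_lit 76675)
  (nat_lit 11) nil (node (nat_lit 3) (nat_lit 88420) (nat_lit 11) (node (nat_lit 6) (nat_lit
  87894) (nat_lit 12) nil nil) (node (nat_lit 0) (nat_lit 90116) (nat_lit 11) nil nil)))) (node
  (nat_lit 5) (nat_lit 120194) (nat_lit 10) (node (nat_lit 4) (nat_lit 122561) (nat_lit 11) (node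
  (nat_lit 6) (nat_lit 123789) (nat_lit 12) nil nil) (node (nat_lit 3) (nat_lit 118041) (nat_lit
  11) nil nil)) (node (nat_lit 3) (nat_lit 115684) (nat_lit 10) nil (node (nat_lit 0) (nat_lit
  119589) (nat_lit 10) nil nil)))) (node (nat_lit 3) (nat_lit 116678) (nat_lit 9) (node (nat_lit
  4) (nat_lit 113778) (nat_lit 10) (node (nat_lit 5) (nat_lit 114270) (nat_lit 11) (node (nat_lit
  6) (nat_lit 109367) (nat_lit 12) nil nil) nil) (node (nat_lit 6) (nat_lit 116967) (nat_lit 10)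
  (node (nat_lit 5) (nat_lit 117031) (nat_lit 11) nil nil) nil)) (node (nat_lit 0) (nat_lit
  119135) (nat_lit 9) nil nil))) (node (nat_lit 6) (nat_lit 120111) (nat_lit 8) (node (nat_lit 4)
  (nat_lit 125261) (nat_lit 9) (node (nat_lit 5) (nat_lit 125169) (nat_lit 10) (node (nat_lit 6)
  (nat_lit 124172) (nat_lit 11) (node (nat_lit 5) (nat_lit 123855) (nat_lit 12) (node (nat_lit 4)
  (nat_lit 124695) (nat_lit 13) (node (nat_lit 5) (nat_lit 124878) (nat_lit 14) (node (nat_lit 6)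
  (nat_lit 123374) (nat_lit 15) (node (nat_lit 4) (nat_lit 122564) (nat_lit 16) (node (nat_lit 6)
  (nat_lit 120328) (nat_lit 17) (node (nat_lit 5) (nat_lit 116982) (nat_lit 18) (node (nat_lit 4)
  (nat_lit 110502) (nat_lit 19) (node (nat_lit 6) (nat_lit 102690) (nat_lit 20) (node (nat_lit 4)
  (nat_lit 87929) (nat_lit 21) (node (nat_lit 5) (nat_lit 80277) (nat_lit 22) (node (nat_lit 6)
  (nat_lit 77150) (nat_lit 23) nil nil) nil) nil) nil) nil) nil) nil) nil) nil) nil) nil) (node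
  (nat_lit 4) (nat_lit 125796) (nat_lit 12) (node (nat_lit 6) (nat_lit 125246) (nat_lit 13) (node
  (nat_lit 5) (nat_lit 125032) (nat_lit 14) (node (nat_lit 4) (nat_lit 87363) (nat_lit 15) nil
  nil) nil) nil) nil)) nil) nil) (node (nat_lit 3) (nat_lit 121567) (nat_lit 9) (node (nat_lit 6)
  (nat_lit 121856) (nat_lit 10) nil (node (nat_lit 4) (nat_lit 120465) (nat_lit 10) nil nil))
  (node (nat_lit 0) (nat_lit 123430) (nat_lit 9) nil nil))) (node (nat_lit 3) (nat_lit 123656)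
  (nat_lit 8) nil (node (nat_lit 0) (nat_lit 129307) (nat_lit 8) nil nil)))) (node (nat_lit 6)
  (nat_lit 108191) (nat_lit 7) (node (nat_lit 4) (nat_lit 118634) (nat_lit 8) nil (node (nat_lit
  3) (nat_lit 124879) (nat_lit 8) (node (nat_lit 5) (nat_lit 124054) (nat_lit 9) nil (node
  (nat_lit 4) (nat_lit 124398) (nat_lit 9) (node (nat_lit 5) (nat_lit 115872) (nat_lit 10) (node
  (nat_lit 6) (nat_lit 109010) (nat_lit 11) nil nil) nil) nil)) (node (nat_lit 0) (nat_lit 118118)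
  (nat_lit 8) nil nil))) (node (nat_lit 3) (nat_lit 121999) (nat_lit 7) (node (nat_lit 4) (nat_lit
  118017) (nat_lit 8) (node (nat_lit 5) (nat_lit 114031) (nat_lit 9) (node (nat_lit 6) (nat_lit
  99790) (nat_lit 10) (node (nat_lit 4) (nat_lit 78527) (nat_lit 11) (node (nat_lit 6) (nat_lit
  74070) (nat_lit 12) (node (nat_lit 5) (nat_lit 68473) (nat_lit 13) nil nil) nil) nil) nil) nil)
  (node (nat_lit 6) (nat_lit 122931) (nat_lit 8) (node (nat_lit 5) (nat_lit 124004) (nat_lit 9)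
  nil (node (nat_lit 4) (nat_lit 123069) (nat_lit 9) nil nil)) (node (nat_lit 5) (nat_lit 121189)
  (nat_lit 8) nil nil))) (node (nat_lit 0) (nat_lit 121821) (nat_lit 7) (node (nat_lit 3) (nat_lit
  119688) (nat_lit 8) nil nil) nil)))) (node (nat_lit 3) (nat_lit 116243) (nat_lit 6) (node
  (nat_lit 4) (nat_lit 119228) (nat_lit 7) (node (nat_lit 9) (nat_lit 119175) (nat_lit 8) (node
  (nat_lit 6) (nat_lit 116516) (nat_lit 9) nil nil) (node (nat_lit 5) (nat_lit 114659) (nat_lit 8)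
  (node (nat_lit 6) (nat_lit 104771) (nat_lit 9) (node (nat_lit 4) (nat_lit 71165) (nat_lit 10)
  (node (nat_lit 6) (nat_lit 65353) (nat_lit 11) nil nil) nil) nil) nil)) (node (nat_lit 6)
  (nat_lit 120512) (nat_lit 7) (node (nat_lit 5) (nat_lit 120453) (nat_lit 8) (node (nat_lit 6)
  (nat_lit 119633) (nat_lit 9) nil (node (nat_lit 4) (nat_lit 121427) (nat_lit 9) (node (nat_lit
  5) (nat_lit 117580) (nat_lit 10) (node (nat_lit 6) (nat_lit 110718) (nat_lit 11) (node (nat_lit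
  4) (nat_lit 102457) (nat_lit 12) (node (nat_lit 6) (nat_lit 85529) (nat_lit 13) nil nil) nil)
  nil) nil) nil)) (node (nat_lit 4) (nat_lit 121452) (nat_lit 8) (node (nat_lit 5) (nat_lit
  111746) (nat_lit 9) (node (nat_lit 6) (nat_lit 106153) (nat_lit 10) (node (nat_lit 4) (nat_lit
  91731) (nat_lit 11) (node (nat_lit 6) (nat_lit 90093) (nat_lit 12) nil nil) nil) nil) nil) nil))
  (node (nat_lit 5) (nat_lit 120990) (nat_lit 7) (node (nat_lit 9) (nat_lit 120231) (nat_lit 8)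
  nil (node (nat_lit 4) (nat_lit 122427) (nat_lit 8) (node (nat_lit 5) (nat_lit 116753) (nat_lit
  9) (node (nat_lit 6) (nat_lit 96910) (nat_lit 10) (node (nat_lit 4) (nat_lit 82771) (nat_lit 11)
  (node (nat_lit 6) (nat_lit 76981) (nat_lit 12) nil nil) nil) nil) nil) nil)) (node (nat_lit 0)
  (nat_lit 120512) (nat_lit 7) nil nil)))) (node (nat_lit 0) (nat_lit 118817) (nat_lit 6) (node
  (nat_lit 4) (nat_lit 124938) (nat_lit 7) nil (node (nat_lit 5) (nat_lit 120851) (nat_lit 7) nil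
  (node (nat_lit 6) (nat_lit 117318) (nat_lit 7) nil (node (nat_lit 3) (nat_lit 117582) (nat_lit
  7) nil nil)))) nil))) (node (nat_lit 3) (nat_lit 117195) (nat_lit 5) (node (nat_lit 6) (nat_lit
  121155) (nat_lit 6) (node (nat_lit 5) (nat_lit 122551) (nat_lit 7) (node (nat_lit 8) (nat_lit
  120658) (nat_lit 8) (node (nat_lit 4) (nat_lit 115309) (nat_lit 9) (node (nat_lit 5) (nat_lit
  112918) (nat_lit 10) (node (nat_lit 6) (nat_lit 106705) (nat_lit 11) nil nil) nil) (node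
  (nat_lit 5) (nat_lit 121276) (nat_lit 9) nil (node (nat_lit 6) (nat_lit 119695) (nat_lit 9) nil
  nil))) (node (nat_lit 4) (nat_lit 123404) (nat_lit 8) (node (nat_lit 5) (nat_lit 119067)
  (nat_lit 9) (node (nat_lit 6) (nat_lit 108346) (nat_lit 10) (node (nat_lit 4) (nat_lit 94207)
  (nat_lit 11) (node (nat_lit 8) (nat_lit 79708) (nat_lit 12) (node (nat_lit 6) (nat_lit 70609)
  (nat_lit 13) nil nil) nil) nil) nil) nil) (node (nat_lit 6) (nat_lit 123404) (nat_lit 8) nil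
  nil))) (node (nat_lit 8) (nat_lit 122551) (nat_lit 7) (node (nat_lit 4) (nat_lit 123001)
  (nat_lit 8) (node (nat_lit 8) (nat_lit 121857) (nat_lit 9) (node (nat_lit 5) (nat_lit 121146)
  (nat_lit 10) nil nil) (node (nat_lit 5) (nat_lit 113823) (nat_lit 9) (node (nat_lit 6) (nat_lit
  107664) (nat_lit 10) (node (nat_lit 4) (nat_lit 81022) (nat_lit 11) (node (nat_lit 8) (nat_lit
  64524) (nat_lit 12) (node (nat_lit 6) (nat_lit 64546) (nat_lit 13) nil nil) nil) nil) nil) nil))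
  (node (nat_lit 5) (nat_lit 122269) (nat_lit 8) (node (nat_lit 6) (nat_lit 121017) (nat_lit 9)
  nil (node (nat_lit 4) (nat_lit 122920) (nat_lit 9) (node (nat_lit 5) (nat_lit 119000) (nat_lit
  10) nil nil) nil)) nil)) (node (nat_lit 4) (nat_lit 113163) (nat_lit 7) (node (nat_lit 6)
  (nat_lit 113163) (nat_lit 8) nil (node (nat_lit 5) (nat_lit 107838) (nat_lit 8) (node (nat_lit
  6) (nat_lit 98669) (nat_lit 9) (node (nat_lit 4) (nat_lit 97470) (nat_lit 10) nil nil) nil)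
  nil)) (node (nat_lit 0) (nat_lit 122551) (nat_lit 7) nil nil)))) (node (nat_lit 5) (nat_lit
  127558) (nat_lit 6) (node (nat_lit 4) (nat_lit 126469) (nat_lit 7) (node (nat_lit 5) (nat_lit
  117541) (nat_lit 8) (node (nat_lit 6) (nat_lit 100840) (nat_lit 9) (node (nat_lit 4) (nat_lit
  77343) (nat_lit 10) (node (nat_lit 8) (nat_lit 75006) (nat_lit 11) nil nil) nil) nil) nil) (node
  (nat_lit 8) (nat_lit 121741) (nat_lit 7) (node (nat_lit 4) (nat_lit 120462) (nat_lit 8) (node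
  (nat_lit 5) (nat_lit 117037) (nat_lit 9) (node (nat_lit 6) (nat_lit 106317) (nat_lit 10) (node
  (nat_lit 4) (nat_lit 92588) (nat_lit 11) (node (nat_lit 8) (nat_lit 67229) (nat_lit 12) nil nil)
  nil) nil) nil) (node (nat_lit 6) (nat_lit 117083) (nat_lit 8) nil nil)) nil)) (node (nat_lit 4)
  (nat_lit 121106) (nat_lit 6) (node (nat_lit 6) (nat_lit 120367) (nat_lit 7) nil (node (nat_lit
  5) (nat_lit 122503) (nat_lit 7) (node (nat_lit 6) (nat_lit 123230) (nat_lit 8) (node (nat_lit 4)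
  (nat_lit 64359) (nat_lit 9) nil nil) nil) nil)) (node (nat_lit 0) (nat_lit 121128) (nat_lit 6)
  nil nil)))) (node (nat_lit 0) (nat_lit 119121) (nat_lit 5) (node (nat_lit 6) (nat_lit 126916)
  (nat_lit 6) (node (nat_lit 5) (nat_lit 124567) (nat_lit 7) (node (nat_lit 4) (nat_lit 123288)
  (nat_lit 8) (node (nat_lit 5) (nat_lit 113230) (nat_lit 9) (node (nat_lit 6) (nat_lit 102508)
  (nat_lit 10) (node (nat_lit 4) (nat_lit 88370) (nat_lit 11) nil nil) nil) nil) nil) (node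
  (nat_lit 3) (nat_lit 116695) (nat_lit 7) nil nil)) (node (nat_lit 5) (nat_lit 126916) (nat_lit
  6) (node (nat_lit 3) (nat_lit 117018) (nat_lit 7) nil nil) (node (nat_lit 4) (nat_lit 125576)
  (nat_lit 6) nil (node (nat_lit 3) (nat_lit 115349) (nat_lit 6) (node (nat_lit 6) (nat_lit
  109360) (nat_lit 7) nil (node (nat_lit 5) (nat_lit 112446) (nat_lit 7) nil nil)) (node (nat_lit
  0) (nat_lit 125576) (nat_lit 6) nil nil))))) nil)))) (node (nat_lit 3) (nat_lit 0) (nat_lit 4)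
  t185 (node (nat_lit 5) (nat_lit 0) (nat_lit 4) (node (nat_lit 4) (nat_lit 0) (nat_lit 5) (node
  (nat_lit 5) (nat_lit 82438) (nat_lit 6) (node (nat_lit 6) (nat_lit 80977) (nat_lit 7) (node
  (nat_lit 4) (nat_lit 93250) (nat_lit 8) (node (nat_lit 6) (nat_lit 95628) (nat_lit 9) (node
  (nat_lit 5) (nat_lit 93996) (nat_lit 10) (node (nat_lit 6) (nat_lit 93294) (nat_lit 11) (node
  (nat_lit 4) (nat_lit 94308) (nat_lit 12) (node (nat_lit 5) (nat_lit 92847) (nat_lit 13) (node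
  (nat_lit 6) (nat_lit 91993) (nat_lit 14) (node (nat_lit 5) (nat_lit 89057) (nat_lit 15) (node
  (nat_lit 4) (nat_lit 86467) (nat_lit 16) (node (nat_lit 5) (nat_lit 80871) (nat_lit 17) (node
  (nat_lit 6) (nat_lit 71915) (nat_lit 18) (node (nat_lit 4) (nat_lit 57168) (nat_lit 19) nil nil)
  nil) nil) nil) nil) nil) nil) nil) (node (nat_lit 4) (nat_lit 95308) (nat_lit 11) nil (node
  (nat_lit 3) (nat_lit 92849) (nat_lit 11) nil nil))) nil) (node (nat_lit 5) (nat_lit 96420)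
  (nat_lit 9) (node (nat_lit 4) (nat_lit 98038) (nat_lit 10) nil nil) (node (nat_lit 3) (nat_lit
  96220) (nat_lit 9) nil (node (nat_lit 0) (nat_lit 95339) (nat_lit 9) nil nil)))) (node (nat_lit
  3) (nat_lit 96954) (nat_lit 8) (node (nat_lit 4) (nat_lit 95435) (nat_lit 9) (node (nat_lit 5)
  (nat_lit 93420) (nat_lit 10) (node (nat_lit 6) (nat_lit 89189) (nat_lit 11) (node (nat_lit 5)
  (nat_lit 63831) (nat_lit 12) (node (nat_lit 4) (nat_lit 53288) (nat_lit 13) nil nil) nil) nil)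
  nil) (node (nat_lit 5) (nat_lit 93970) (nat_lit 9) (node (nat_lit 4) (nat_lit 94935) (nat_lit
  10) nil nil) (node (nat_lit 6) (nat_lit 94566) (nat_lit 9) nil nil))) (node (nat_lit 0) (nat_lit
  98481) (nat_lit 8) nil nil))) (node (nat_lit 3) (nat_lit 98581) (nat_lit 7) (node (nat_lit 4)
  (nat_lit 98163) (nat_lit 8) (node (nat_lit 5) (nat_lit 97533) (nat_lit 9) (node (nat_lit 6)
  (nat_lit 91769) (nat_lit 10) (node (nat_lit 5) (nat_lit 80055) (nat_lit 11) (node (nat_lit 4)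
  (nat_lit 47565) (nat_lit 12) nil nil) nil) nil) (node (nat_lit 10) (nat_lit 97570) (nat_lit 9)
  nil nil)) (node (nat_lit 5) (nat_lit 101412) (nat_lit 8) (node (nat_lit 4) (nat_lit 102983)
  (nat_lit 9) (node (nat_lit 5) (nat_lit 102022) (nat_lit 10) (node (nat_lit 6) (nat_lit 95133)
  (nat_lit 11) nil nil) nil) nil) (node (nat_lit 6) (nat_lit 103246) (nat_lit 8) nil (node
  (nat_lit 0) (nat_lit 101556) (nat_lit 8) nil nil)))) (node (nat_lit 0) (nat_lit 97857) (nat_lit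
  7) (node (nat_lit 4) (nat_lit 100832) (nat_lit 8) nil (node (nat_lit 6) (nat_lit 101847)
  (nat_lit 8) nil (node (nat_lit 3) (nat_lit 97803) (nat_lit 8) nil (node (nat_lit 5) (nat_lit
  101335) (nat_lit 8) nil (node (nat_lit 0) (nat_lit 100832) (nat_lit 8) nil nil))))) nil))) (node
  (nat_lit 6) (nat_lit 103977) (nat_lit 6) (node (nat_lit 5) (nat_lit 122900) (nat_lit 7) (node
  (nat_lit 6) (nat_lit 127862) (nat_lit 8) (node (nat_lit 4) (nat_lit 129662) (nat_lit 9) (node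
  (nat_lit 5) (nat_lit 126097) (nat_lit 10) (node (nat_lit 6) (nat_lit 118987) (nat_lit 11) (node
  (nat_lit 5) (nat_lit 110829) (nat_lit 12) (node (nat_lit 4) (nat_lit 97074) (nat_lit 13) nil
  nil) nil) nil) (node (nat_lit 6) (nat_lit 128461) (nat_lit 10) (node (nat_lit 5) (nat_lit
  126435) (nat_lit 11) (node (nat_lit 4) (nat_lit 127994) (nat_lit 12) (node (nat_lit 5) (nat_lit
  127095) (nat_lit 13) (node (nat_lit 6) (nat_lit 125290) (nat_lit 14) (node (nat_lit 5) (nat_lit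
  123091) (nat_lit 15) (node (nat_lit 4) (nat_lit 120283) (nat_lit 16) (node (nat_lit 6) (nat_lit
  115270) (nat_lit 17) (node (nat_lit 5) (nat_lit 105735) (nat_lit 18) (node (nat_lit 6) (nat_lit
  93652) (nat_lit 19) (node (nat_lit 4) (nat_lit 83410) (nat_lit 20) nil nil) nil) nil) nil) nil)
  nil) nil) nil) nil) nil) nil)) nil) nil) (node (nat_lit 4) (nat_lit 123117) (nat_lit 7) (node
  (nat_lit 5) (nat_lit 132260) (nat_lit 8) (node (nat_lit 6) (nat_lit 130995) (nat_lit 9) (node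
  (nat_lit 5) (nat_lit 130676) (nat_lit 10) (node (nat_lit 4) (nat_lit 83568) (nat_lit 11) nil
  nil) nil) nil) nil) (node (nat_lit 3) (nat_lit 129899) (nat_lit 7) (node (nat_lit 4) (nat_lit
  123753) (nat_lit 8) (node (nat_lit 5) (nat_lit 119393) (nat_lit 9) (node (nat_lit 6) (nat_lit
  108672) (nat_lit 10) (node (nat_lit 5) (nat_lit 96302) (nat_lit 11) nil nil) nil) nil) nil)
  (node (nat_lit 0) (nat_lit 115606) (nat_lit 7) nil nil)))) (node (nat_lit 3) (nat_lit 127159)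
  (nat_lit 6) (node (nat_lit 6) (nat_lit 131510) (nat_lit 7) (node (nat_lit 5) (nat_lit 128299)
  (nat_lit 8) nil (node (nat_lit 4) (nat_lit 125364) (nat_lit 8) (node (nat_lit 5) (nat_lit
  119234) (nat_lit 9) (node (nat_lit 6) (nat_lit 107891) (nat_lit 10) (node (nat_lit 5) (nat_lit
  95522) (nat_lit 11) (node (nat_lit 4) (nat_lit 86150) (nat_lit 12) (node (nat_lit 9) (nat_lit
  81132) (nat_lit 13) nil nil) nil) nil) nil) nil) (node (nat_lit 9) (nat_lit 128206) (nat_lit 8)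
  nil nil))) (node (nat_lit 5) (nat_lit 122818) (nat_lit 7) nil nil)) (node (nat_lit 0) (nat_lit
  119830) (nat_lit 6) nil nil)))) (node (nat_lit 3) (nat_lit 118150) (nat_lit 5) (node (nat_lit 6)
  (nat_lit 132898) (nat_lit 6) (node (nat_lit 8) (nat_lit 134754) (nat_lit 7) (node (nat_lit 5)
  (nat_lit 130729) (nat_lit 8) (node (nat_lit 6) (nat_lit 127743) (nat_lit 9) (node (nat_lit 5)
  (nat_lit 126418) (nat_lit 10) nil nil) nil) nil) (node (nat_lit 5) (nat_lit 133259) (nat_lit 7)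
  nil (node (nat_lit 4) (nat_lit 132722) (nat_lit 7) (node (nat_lit 5) (nat_lit 108472) (nat_lit
  8) (node (nat_lit 6) (nat_lit 92244) (nat_lit 9) (node (nat_lit 5) (nat_lit 85356) (nat_lit 10)
  (node (nat_lit 8) (nat_lit 84483) (nat_lit 11) nil nil) nil) nil) nil) nil))) (node (nat_lit 4)
  (nat_lit 130104) (nat_lit 6) (node (nat_lit 5) (nat_lit 117142) (nat_lit 7) (node (nat_lit 6)
  (nat_lit 96870) (nat_lit 8) (node (nat_lit 5) (nat_lit 87798) (nat_lit 9) nil (node (nat_lit 8)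
  (nat_lit 93781) (nat_lit 9) nil nil)) nil) nil) (node (nat_lit 5) (nat_lit 132066) (nat_lit 6)
  (node (nat_lit 6) (nat_lit 130265) (nat_lit 7) (node (nat_lit 8) (nat_lit 126361) (nat_lit 8)
  nil nil) (node (nat_lit 4) (nat_lit 137396) (nat_lit 7) (node (nat_lit 5) (nat_lit 129455)
  (nat_lit 8) (node (nat_lit 6) (nat_lit 111859) (nat_lit 9) (node (nat_lit 5) (nat_lit 92843)
  (nat_lit 10) (node (nat_lit 8) (nat_lit 87444) (nat_lit 11) nil nil) nil) nil) nil) nil)) (node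
  (nat_lit 0) (nat_lit 124605) (nat_lit 6) nil nil)))) (node (nat_lit 0) (nat_lit 124698) (nat_lit
  5) (node (nat_lit 5) (nat_lit 129844) (nat_lit 6) (node (nat_lit 6) (nat_lit 124177) (nat_lit 7)
  nil nil) (node (nat_lit 6) (nat_lit 133898) (nat_lit 6) (node (nat_lit 5) (nat_lit 127621)
  (nat_lit 7) (node (nat_lit 6) (nat_lit 125660) (nat_lit 8) nil nil) nil) (node (nat_lit 3)
  (nat_lit 125288) (nat_lit 6) nil nil))) nil))) (node (nat_lit 0) (nat_lit 0) (nat_lit 4) (node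
  (nat_lit 5) (nat_lit 135447) (nat_lit 5) (node (nat_lit 7) (nat_lit 141902) (nat_lit 6) nil
  (node (nat_lit 6) (nat_lit 137068) (nat_lit 6) (node (nat_lit 5) (nat_lit 136261) (nat_lit 7)
  nil (node (nat_lit 4) (nat_lit 134109) (nat_lit 7) (node (nat_lit 5) (nat_lit 120869) (nat_lit
  8) (node (nat_lit 6) (nat_lit 104607) (nat_lit 9) nil nil) nil) nil)) (node (nat_lit 3) (nat_lit
  132398) (nat_lit 6) (node (nat_lit 6) (nat_lit 126283) (nat_lit 7) nil nil) nil))) (node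
  (nat_lit 6) (nat_lit 135438) (nat_lit 5) (node (nat_lit 5) (nat_lit 139560) (nat_lit 6) (node
  (nat_lit 6) (nat_lit 136879) (nat_lit 7) nil (node (nat_lit 4) (nat_lit 137886) (nat_lit 7)
  (node (nat_lit 5) (nat_lit 123093) (nat_lit 8) (node (nat_lit 6) (nat_lit 104441) (nat_lit 9)
  nil nil) nil) (node (nat_lit 3) (nat_lit 133735) (nat_lit 7) nil nil))) (node (nat_lit 3)
  (nat_lit 136333) (nat_lit 6) (node (nat_lit 6) (nat_lit 133162) (nat_lit 7) nil nil) nil)) (node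
  (nat_lit 4) (nat_lit 136087) (nat_lit 5) (node (nat_lit 6) (nat_lit 144005) (nat_lit 6) (node
  (nat_lit 5) (nat_lit 135432) (nat_lit 7) nil nil) nil) (node (nat_lit 3) (nat_lit 129647)
  (nat_lit 5) (node (nat_lit 6) (nat_lit 136191) (nat_lit 6) (node (nat_lit 8) (nat_lit 128987)
  (nat_lit 7) nil nil) (node (nat_lit 7) (nat_lit 136103) (nat_lit 6) nil (node (nat_lit 5)
  (nat_lit 131122) (nat_lit 6) (node (nat_lit 4) (nat_lit 129962) (nat_lit 7) nil nil) (node
  (nat_lit 4) (nat_lit 136103) (nat_lit 6) nil (node (nat_lit 0) (nat_lit 136103) (nat_lit 6) nil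
  nil))))) (node (nat_lit 0) (nat_lit 135563) (nat_lit 5) (node (nat_lit 6) (nat_lit 136439)
  (nat_lit 6) (node (nat_lit 5) (nat_lit 129712) (nat_lit 7) (node (nat_lit 6) (nat_lit 127380)
  (nat_lit 8) nil nil) nil) (node (nat_lit 5) (nat_lit 131371) (nat_lit 6) nil (node (nat_lit 3)
  (nat_lit 132113) (nat_lit 6) nil nil))) nil))))) nil))))

noncomputable def t187 : Tr :=
  (node (nat_lit 3) (nat_lit 0) (nat_lit 4) (node (nat_lit 5) (nat_lit 63680) (nat_lit 5) (node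
  (nat_lit 7) (nat_lit 69360) (nat_lit 6) (node (nat_lit 4) (nat_lit 79536) (nat_lit 7) (node
  (nat_lit 5) (nat_lit 88342) (nat_lit 8) (node (nat_lit 4) (nat_lit 91040) (nat_lit 9) (node
  (nat_lit 7) (nat_lit 76974) (nat_lit 10) (node (nat_lit 5) (nat_lit 53133) (nat_lit 11) (node
  (nat_lit 4) (nat_lit 53495) (nat_lit 12) nil nil) (node (nat_lit 4) (nat_lit 77883) (nat_lit 11)
  (node (nat_lit 5) (nat_lit 78591) (nat_lit 12) nil (node (nat_lit 3) (nat_lit 77292) (nat_lit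
  12) (node (nat_lit 7) (nat_lit 77710) (nat_lit 13) nil nil) (node (nat_lit 0) (nat_lit 78591)
  (nat_lit 12) nil nil))) (node (nat_lit 3) (nat_lit 77883) (nat_lit 11) (node (nat_lit 7)
  (nat_lit 76802) (nat_lit 12) nil (node (nat_lit 4) (nat_lit 78591) (nat_lit 12) (node (nat_lit
  5) (nat_lit 77045) (nat_lit 13) nil nil) (node (nat_lit 5) (nat_lit 77292) (nat_lit 12) (node
  (nat_lit 7) (nat_lit 77710) (nat_lit 13) nil nil) nil))) (node (nat_lit 0) (nat_lit 77883)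
  (nat_lit 11) (node (nat_lit 7) (nat_lit 78591) (nat_lit 12) nil nil) nil)))) (node (nat_lit 3)
  (nat_lit 98587) (nat_lit 10) (node (nat_lit 7) (nat_lit 96236) (nat_lit 11) nil nil) (node
  (nat_lit 0) (nat_lit 96877) (nat_lit 10) nil nil))) (node (nat_lit 7) (nat_lit 96237) (nat_lit
  9) (node (nat_lit 5) (nat_lit 99540) (nat_lit 10) (node (nat_lit 4) (nat_lit 100465) (nat_lit
  11) (node (nat_lit 7) (nat_lit 100359) (nat_lit 12) nil nil) nil) (node (nat_lit 3) (nat_lit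
  101183) (nat_lit 10) (node (nat_lit 7) (nat_lit 100298) (nat_lit 11) nil nil) (node (nat_lit 0)
  (nat_lit 97854) (nat_lit 10) nil nil))) (node (nat_lit 3) (nat_lit 99753) (nat_lit 9) (node
  (nat_lit 7) (nat_lit 102612) (nat_lit 10) nil (node (nat_lit 4) (nat_lit 96142) (nat_lit 10) nil
  (node (nat_lit 5) (nat_lit 99283) (nat_lit 10) nil nil))) (node (nat_lit 0) (nat_lit 98802)
  (nat_lit 9) nil nil)))) (node (nat_lit 3) (nat_lit 107152) (nat_lit 8) (node (nat_lit 5)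
  (nat_lit 104200) (nat_lit 9) nil nil) (node (nat_lit 7) (nat_lit 93278) (nat_lit 8) (node
  (nat_lit 5) (nat_lit 100916) (nat_lit 9) (node (nat_lit 4) (nat_lit 102533) (nat_lit 10) (node
  (nat_lit 5) (nat_lit 100700) (nat_lit 11) (node (nat_lit 7) (nat_lit 100479) (nat_lit 12) (node
  (nat_lit 4) (nat_lit 100524) (nat_lit 13) (node (nat_lit 5) (nat_lit 99978) (nat_lit 14) (node
  (nat_lit 4) (nat_lit 100050) (nat_lit 15) (node (nat_lit 7) (nat_lit 98148) (nat_lit 16) (node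
  (nat_lit 5) (nat_lit 96259) (nat_lit 17) (node (nat_lit 7) (nat_lit 92058) (nat_lit 18) (node
  (nat_lit 4) (nat_lit 87427) (nat_lit 19) (node (nat_lit 7) (nat_lit 78070) (nat_lit 20) (node
  (nat_lit 5) (nat_lit 65850) (nat_lit 21) (node (nat_lit 4) (nat_lit 49508) (nat_lit 22) nil nil)
  nil) nil) nil) nil) nil) nil) nil) nil) nil) nil) nil) nil) nil) (node (nat_lit 0) (nat_lit
  104634) (nat_lit 8) nil nil)))) (node (nat_lit 3) (nat_lit 106093) (nat_lit 7) (node (nat_lit 5)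
  (nat_lit 108890) (nat_lit 8) (node (nat_lit 7) (nat_lit 106862) (nat_lit 9) nil (node (nat_lit
  10) (nat_lit 104634) (nat_lit 9) nil nil)) (node (nat_lit 7) (nat_lit 108890) (nat_lit 8) nil
  (node (nat_lit 4) (nat_lit 107468) (nat_lit 8) (node (nat_lit 5) (nat_lit 102503) (nat_lit 9)
  (node (nat_lit 4) (nat_lit 87573) (nat_lit 10) (node (nat_lit 7) (nat_lit 77409) (nat_lit 11)
  (node (nat_lit 5) (nat_lit 53994) (nat_lit 12) nil nil) nil) nil) nil) nil))) (node (nat_lit 0)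
  (nat_lit 108119) (nat_lit 7) (node (nat_lit 3) (nat_lit 107817) (nat_lit 8) nil nil) nil)))
  (node (nat_lit 4) (nat_lit 69383) (nat_lit 6) (node (nat_lit 5) (nat_lit 82135) (nat_lit 7)
  (node (nat_lit 7) (nat_lit 94101) (nat_lit 8) (node (nat_lit 4) (nat_lit 98576) (nat_lit 9)
  (node (nat_lit 5) (nat_lit 93858) (nat_lit 10) (node (nat_lit 4) (nat_lit 94813) (nat_lit 11)
  (node (nat_lit 7) (nat_lit 95494) (nat_lit 12) (node (nat_lit 5) (nat_lit 79753) (nat_lit 13)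
  (node (nat_lit 4) (nat_lit 48203) (nat_lit 14) (node (nat_lit 5) (nat_lit 47838) (nat_lit 15)
  nil nil) (node (nat_lit 7) (nat_lit 79630) (nat_lit 14) nil nil)) nil) nil) nil) (node (nat_lit
  7) (nat_lit 97590) (nat_lit 10) (node (nat_lit 5) (nat_lit 96423) (nat_lit 11) (node (nat_lit 7)
  (nat_lit 97284) (nat_lit 12) (node (nat_lit 4) (nat_lit 97745) (nat_lit 13) (node (nat_lit 5)
  (nat_lit 97406) (nat_lit 14) (node (nat_lit 4) (nat_lit 97676) (nat_lit 15) (node (nat_lit 7)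
  (nat_lit 97470) (nat_lit 16) (node (nat_lit 5) (nat_lit 96901) (nat_lit 17) (node (nat_lit 4)
  (nat_lit 94462) (nat_lit 18) (node (nat_lit 5) (nat_lit 91849) (nat_lit 19) (node (nat_lit 7)
  (nat_lit 83551) (nat_lit 20) (node (nat_lit 4) (nat_lit 71100) (nat_lit 21) nil nil) nil) nil)
  nil) nil) nil) nil) nil) nil) nil) nil) nil)) (node (nat_lit 5) (nat_lit 96964) (nat_lit 9)
  (node (nat_lit 3) (nat_lit 96871) (nat_lit 10) nil nil) (node (nat_lit 3) (nat_lit 94975)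
  (nat_lit 9) nil nil))) (node (nat_lit 3) (nat_lit 102653) (nat_lit 8) (node (nat_lit 4) (nat_lit
  96554) (nat_lit 9) nil nil) (node (nat_lit 0) (nat_lit 95805) (nat_lit 8) nil nil))) (node
  (nat_lit 3) (nat_lit 106317) (nat_lit 7) (node (nat_lit 7) (nat_lit 101557) (nat_lit 8) nil nil)
  (node (nat_lit 0) (nat_lit 97854) (nat_lit 7) nil nil))) (node (nat_lit 3) (nat_lit 101490)
  (nat_lit 6) (node (nat_lit 7) (nat_lit 107954) (nat_lit 7) (node (nat_lit 4) (nat_lit 106825)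
  (nat_lit 8) (node (nat_lit 5) (nat_lit 100611) (nat_lit 9) (node (nat_lit 4) (nat_lit 90627)
  (nat_lit 10) (node (nat_lit 7) (nat_lit 76398) (nat_lit 11) (node (nat_lit 5) (nat_lit 55556)
  (nat_lit 12) (node (nat_lit 9) (nat_lit 53215) (nat_lit 13) nil nil) nil) nil) nil) nil) (node
  (nat_lit 9) (nat_lit 106022) (nat_lit 8) nil (node (nat_lit 5) (nat_lit 107652) (nat_lit 8) nil
  nil))) (node (nat_lit 5) (nat_lit 108155) (nat_lit 7) (node (nat_lit 7) (nat_lit 108124)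
  (nat_lit 8) (node (nat_lit 9) (nat_lit 106696) (nat_lit 9) nil nil) nil) (node (nat_lit 4)
  (nat_lit 100638) (nat_lit 7) (node (nat_lit 5) (nat_lit 93906) (nat_lit 8) (node (nat_lit 4)
  (nat_lit 70160) (nat_lit 9) (node (nat_lit 7) (nat_lit 54407) (nat_lit 10) (node (nat_lit 5)
  (nat_lit 53341) (nat_lit 11) nil nil) nil) (node (nat_lit 7) (nat_lit 89650) (nat_lit 9) nil
  nil)) nil) (node (nat_lit 0) (nat_lit 105535) (nat_lit 7) nil nil)))) (node (nat_lit 0) (nat_lit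
  104769) (nat_lit 6) (node (nat_lit 7) (nat_lit 105005) (nat_lit 7) nil (node (nat_lit 5)
  (nat_lit 101045) (nat_lit 7) nil (node (nat_lit 0) (nat_lit 108814) (nat_lit 7) nil nil)))
  nil)))) (node (nat_lit 4) (nat_lit 63667) (nat_lit 5) (node (nat_lit 5) (nat_lit 69316) (nat_lit
  6) (node (nat_lit 7) (nat_lit 81489) (nat_lit 7) (node (nat_lit 5) (nat_lit 94503) (nat_lit 8)
  (node (nat_lit 4) (nat_lit 98407) (nat_lit 9) (node (nat_lit 7) (nat_lit 98631) (nat_lit 10)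
  (node (nat_lit 5) (nat_lit 97464) (nat_lit 11) (node (nat_lit 7) (nat_lit 98325) (nat_lit 12)
  (node (nat_lit 4) (nat_lit 96616) (nat_lit 13) nil nil) nil) (node (nat_lit 0) (nat_lit 99938)
  (nat_lit 11) nil (node (nat_lit 3) (nat_lit 96071) (nat_lit 11) nil (node (nat_lit 4) (nat_lit
  99938) (nat_lit 11) nil nil)))) (node (nat_lit 5) (nat_lit 96613) (nat_lit 10) (node (nat_lit 7)
  (nat_lit 96800) (nat_lit 11) (node (nat_lit 4) (nat_lit 97370) (nat_lit 12) (node (nat_lit 5)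
  (nat_lit 96919) (nat_lit 13) (node (nat_lit 4) (nat_lit 97279) (nat_lit 14) (node (nat_lit 7)
  (nat_lit 97016) (nat_lit 15) (node (nat_lit 4) (nat_lit 95112) (nat_lit 16) (node (nat_lit 5)
  (nat_lit 91617) (nat_lit 17) (node (nat_lit 7) (nat_lit 85921) (nat_lit 18) (node (nat_lit 5)
  (nat_lit 75514) (nat_lit 19) (node (nat_lit 4) (nat_lit 58029) (nat_lit 20) (node (nat_lit 5)
  (nat_lit 45995) (nat_lit 21) nil nil) nil) nil) nil) nil) nil) nil) nil) nil) nil) nil) nil))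
  (node (nat_lit 3) (nat_lit 98193) (nat_lit 9) nil (node (nat_lit 0) (nat_lit 96591) (nat_lit 9)
  nil nil))) (node (nat_lit 4) (nat_lit 95416) (nat_lit 8) (node (nat_lit 7) (nat_lit 99934)
  (nat_lit 9) (node (nat_lit 5) (nat_lit 101118) (nat_lit 10) (node (nat_lit 4) (nat_lit 102425)
  (nat_lit 11) nil (node (nat_lit 7) (nat_lit 98767) (nat_lit 11) nil (node (nat_lit 3) (nat_lit
  98558) (nat_lit 11) nil nil))) (node (nat_lit 3) (nat_lit 96842) (nat_lit 10) nil nil)) (node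
  (nat_lit 3) (nat_lit 100994) (nat_lit 9) nil (node (nat_lit 0) (nat_lit 97503) (nat_lit 9) nil
  nil))) (node (nat_lit 3) (nat_lit 103988) (nat_lit 8) (node (nat_lit 7) (nat_lit 101961)
  (nat_lit 9) nil (node (nat_lit 4) (nat_lit 102494) (nat_lit 9) nil nil)) (node (nat_lit 0)
  (nat_lit 103772) (nat_lit 8) nil nil)))) (node (nat_lit 4) (nat_lit 37060) (nat_lit 7) (node
  (nat_lit 3) (nat_lit 54087) (nat_lit 8) nil (node (nat_lit 0) (nat_lit 51695) (nat_lit 8) nil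
  nil)) (node (nat_lit 3) (nat_lit 103155) (nat_lit 7) (node (nat_lit 7) (nat_lit 103124) (nat_lit
  8) nil (node (nat_lit 4) (nat_lit 101659) (nat_lit 8) (node (nat_lit 5) (nat_lit 95379) (nat_lit
  9) (node (nat_lit 4) (nat_lit 86739) (nat_lit 10) (node (nat_lit 7) (nat_lit 74637) (nat_lit 11)
  (node (nat_lit 4) (nat_lit 55170) (nat_lit 12) (node (nat_lit 5) (nat_lit 55464) (nat_lit 13)
  nil nil) nil) nil) nil) nil) (node (nat_lit 5) (nat_lit 105952) (nat_lit 8) nil (node (nat_lit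
  0) (nat_lit 105952) (nat_lit 8) nil nil)))) (node (nat_lit 0) (nat_lit 101348) (nat_lit 7) nil
  nil)))) (node (nat_lit 3) (nat_lit 103745) (nat_lit 6) (node (nat_lit 7) (nat_lit 107443)
  (nat_lit 7) (node (nat_lit 4) (nat_lit 106139) (nat_lit 8) (node (nat_lit 5) (nat_lit 99858)
  (nat_lit 9) (node (nat_lit 4) (nat_lit 89440) (nat_lit 10) (node (nat_lit 7) (nat_lit 79116)
  (nat_lit 11) (node (nat_lit 4) (nat_lit 55313) (nat_lit 12) nil nil) nil) nil) nil) (node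
  (nat_lit 9) (nat_lit 105511) (nat_lit 8) nil nil)) (node (nat_lit 4) (nat_lit 107790) (nat_lit
  7) nil (node (nat_lit 5) (nat_lit 107249) (nat_lit 7) (node (nat_lit 9) (nat_lit 107581)
  (nat_lit 8) nil (node (nat_lit 7) (nat_lit 107938) (nat_lit 8) nil nil)) (node (nat_lit 0)
  (nat_lit 107790) (nat_lit 7) nil nil)))) (node (nat_lit 0) (nat_lit 101440) (nat_lit 6) (node
  (nat_lit 4) (nat_lit 105485) (nat_lit 7) nil (node (nat_lit 7) (nat_lit 104863) (nat_lit 7) nil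
  (node (nat_lit 5) (nat_lit 101197) (nat_lit 7) nil (node (nat_lit 3) (nat_lit 101526) (nat_lit
  7) nil nil)))) nil))) (node (nat_lit 3) (nat_lit 94959) (nat_lit 5) (node (nat_lit 5) (nat_lit
  103390) (nat_lit 6) (node (nat_lit 7) (nat_lit 107435) (nat_lit 7) (node (nat_lit 5) (nat_lit
  106251) (nat_lit 8) (node (nat_lit 8) (nat_lit 104510) (nat_lit 9) (node (nat_lit 7) (nat_lit
  103228) (nat_lit 10) nil nil) nil) (node (nat_lit 8) (nat_lit 104493) (nat_lit 8) (node (nat_lit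
  7) (nat_lit 104980) (nat_lit 9) nil (node (nat_lit 4) (nat_lit 103378) (nat_lit 9) (node
  (nat_lit 5) (nat_lit 91129) (nat_lit 10) nil nil) nil)) (node (nat_lit 4) (nat_lit 105681)
  (nat_lit 8) (node (nat_lit 5) (nat_lit 98299) (nat_lit 9) (node (nat_lit 4) (nat_lit 87517)
  (nat_lit 10) (node (nat_lit 7) (nat_lit 82046) (nat_lit 11) (node (nat_lit 8) (nat_lit 56532)
  (nat_lit 12) nil nil) nil) nil) nil) nil))) (node (nat_lit 8) (nat_lit 107046) (nat_lit 7) (node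
  (nat_lit 7) (nat_lit 105862) (nat_lit 8) (node (nat_lit 5) (nat_lit 102597) (nat_lit 9) nil nil)
  (node (nat_lit 4) (nat_lit 107945) (nat_lit 8) (node (nat_lit 5) (nat_lit 102188) (nat_lit 9)
  (node (nat_lit 4) (nat_lit 94603) (nat_lit 10) (node (nat_lit 7) (nat_lit 79003) (nat_lit 11)
  (node (nat_lit 8) (nat_lit 51771) (nat_lit 12) (node (nat_lit 5) (nat_lit 51152) (nat_lit 13)
  nil nil) nil) nil) nil) nil) nil)) (node (nat_lit 4) (nat_lit 106087) (nat_lit 7) nil (node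
  (nat_lit 0) (nat_lit 106087) (nat_lit 7) nil nil)))) (node (nat_lit 4) (nat_lit 90426) (nat_lit
  6) (node (nat_lit 8) (nat_lit 95924) (nat_lit 7) (node (nat_lit 7) (nat_lit 99397) (nat_lit 8)
  (node (nat_lit 4) (nat_lit 101269) (nat_lit 9) (node (nat_lit 5) (nat_lit 93033) (nat_lit 10)
  nil nil) (node (nat_lit 8) (nat_lit 97057) (nat_lit 9) nil nil)) (node (nat_lit 5) (nat_lit
  98653) (nat_lit 8) (node (nat_lit 7) (nat_lit 94084) (nat_lit 9) (node (nat_lit 4) (nat_lit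
  93051) (nat_lit 10) nil nil) nil) (node (nat_lit 0) (nat_lit 97568) (nat_lit 8) nil nil))) (node
  (nat_lit 5) (nat_lit 85564) (nat_lit 7) (node (nat_lit 4) (nat_lit 56978) (nat_lit 8) (node
  (nat_lit 7) (nat_lit 53962) (nat_lit 9) nil nil) (node (nat_lit 8) (nat_lit 87208) (nat_lit 8)
  (node (nat_lit 7) (nat_lit 82639) (nat_lit 9) nil nil) (node (nat_lit 7) (nat_lit 87208)
  (nat_lit 8) (node (nat_lit 4) (nat_lit 80670) (nat_lit 9) nil (node (nat_lit 8) (nat_lit 84341)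
  (nat_lit 9) nil nil)) nil))) (node (nat_lit 7) (nat_lit 95627) (nat_lit 7) (node (nat_lit 4)
  (nat_lit 98569) (nat_lit 8) nil (node (nat_lit 5) (nat_lit 98604) (nat_lit 8) nil nil)) (node
  (nat_lit 0) (nat_lit 95454) (nat_lit 7) (node (nat_lit 0) (nat_lit 97098) (nat_lit 8) nil nil)
  nil)))) (node (nat_lit 7) (nat_lit 104492) (nat_lit 6) (node (nat_lit 4) (nat_lit 106658)
  (nat_lit 7) (node (nat_lit 5) (nat_lit 99360) (nat_lit 8) (node (nat_lit 4) (nat_lit 86345)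
  (nat_lit 9) (node (nat_lit 7) (nat_lit 53607) (nat_lit 10) (node (nat_lit 8) (nat_lit 51939)
  (nat_lit 11) nil nil) nil) nil) nil) (node (nat_lit 5) (nat_lit 104367) (nat_lit 7) (node
  (nat_lit 8) (nat_lit 104868) (nat_lit 8) (node (nat_lit 5) (nat_lit 103832) (nat_lit 9) nil
  (node (nat_lit 4) (nat_lit 102453) (nat_lit 9) nil nil)) (node (nat_lit 7) (nat_lit 104868)
  (nat_lit 8) (node (nat_lit 8) (nat_lit 103128) (nat_lit 9) (node (nat_lit 5) (nat_lit 100443)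
  (nat_lit 10) (node (nat_lit 7) (nat_lit 100969) (nat_lit 11) nil nil) nil) (node (nat_lit 4)
  (nat_lit 103060) (nat_lit 9) (node (nat_lit 5) (nat_lit 99315) (nat_lit 10) nil nil) nil)) (node
  (nat_lit 4) (nat_lit 106011) (nat_lit 8) nil nil))) (node (nat_lit 0) (nat_lit 107188) (nat_lit
  7) nil nil))) (node (nat_lit 0) (nat_lit 103586) (nat_lit 6) (node (nat_lit 7) (nat_lit 102473)
  (nat_lit 7) nil (node (nat_lit 8) (nat_lit 102473) (nat_lit 7) nil nil)) nil)))) (node (nat_lit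
  0) (nat_lit 98229) (nat_lit 5) (node (nat_lit 4) (nat_lit 106631) (nat_lit 6) (node (nat_lit 7)
  (nat_lit 105518) (nat_lit 7) nil (node (nat_lit 5) (nat_lit 101709) (nat_lit 7) nil (node
  (nat_lit 8) (nat_lit 109327) (nat_lit 7) nil (node (nat_lit 3) (nat_lit 105518) (nat_lit 7) nil
  nil)))) (node (nat_lit 5) (nat_lit 106296) (nat_lit 6) (node (nat_lit 7) (nat_lit 104966)
  (nat_lit 7) nil (node (nat_lit 4) (nat_lit 108993) (nat_lit 7) nil (node (nat_lit 3) (nat_lit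
  106406) (nat_lit 7) (node (nat_lit 7) (nat_lit 104301) (nat_lit 8) nil (node (nat_lit 4)
  (nat_lit 106549) (nat_lit 8) (node (nat_lit 5) (nat_lit 89689) (nat_lit 9) nil nil) nil)) nil)))
  (node (nat_lit 7) (nat_lit 106855) (nat_lit 6) (node (nat_lit 5) (nat_lit 105331) (nat_lit 7)
  (node (nat_lit 7) (nat_lit 99417) (nat_lit 8) nil nil) (node (nat_lit 3) (nat_lit 106964)
  (nat_lit 7) (node (nat_lit 7) (nat_lit 107688) (nat_lit 8) nil (node (nat_lit 4) (nat_lit 97248)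
  (nat_lit 8) nil nil)) nil)) (node (nat_lit 3) (nat_lit 107289) (nat_lit 6) (node (nat_lit 7)
  (nat_lit 109363) (nat_lit 7) (node (nat_lit 9) (nat_lit 111852) (nat_lit 8) nil (node (nat_lit
  4) (nat_lit 108589) (nat_lit 8) (node (nat_lit 5) (nat_lit 93393) (nat_lit 9) nil nil) nil))
  (node (nat_lit 8) (nat_lit 109986) (nat_lit 7) nil (node (nat_lit 5) (nat_lit 109169) (nat_lit
  7) (node (nat_lit 7) (nat_lit 103256) (nat_lit 8) nil nil) (node (nat_lit 0) (nat_lit 109986)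
  (nat_lit 7) nil nil)))) (node (nat_lit 0) (nat_lit 105666) (nat_lit 6) (node (nat_lit 3)
  (nat_lit 104554) (nat_lit 7) nil nil) nil))))) nil)))) (node (nat_lit 0) (nat_lit 0) (nat_lit 4)
  (node (nat_lit 5) (nat_lit 101592) (nat_lit 5) (node (nat_lit 4) (nat_lit 108671) (nat_lit 6)
  (node (nat_lit 5) (nat_lit 110925) (nat_lit 7) (node (nat_lit 7) (nat_lit 112058) (nat_lit 8)
  nil (node (nat_lit 3) (nat_lit 106015) (nat_lit 8) (node (nat_lit 4) (nat_lit 104714) (nat_lit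
  9) (node (nat_lit 5) (nat_lit 100281) (nat_lit 10) (node (nat_lit 4) (nat_lit 97575) (nat_lit
  11) (node (nat_lit 7) (nat_lit 73500) (nat_lit 12) (node (nat_lit 5) (nat_lit 60181) (nat_lit
  13) nil nil) nil) nil) nil) (node (nat_lit 3) (nat_lit 101485) (nat_lit 9) nil nil)) (node
  (nat_lit 0) (nat_lit 112058) (nat_lit 8) nil nil))) (node (nat_lit 3) (nat_lit 107973) (nat_lit
  7) nil (node (nat_lit 0) (nat_lit 110914) (nat_lit 7) nil nil))) (node (nat_lit 7) (nat_lit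
  108671) (nat_lit 6) nil (node (nat_lit 3) (nat_lit 104095) (nat_lit 6) (node (nat_lit 4)
  (nat_lit 99304) (nat_lit 7) (node (nat_lit 5) (nat_lit 82070) (nat_lit 8) (node (nat_lit 4)
  (nat_lit 64716) (nat_lit 9) (node (nat_lit 7) (nat_lit 51151) (nat_lit 10) nil nil) nil) nil)
  (node (nat_lit 3) (nat_lit 96049) (nat_lit 7) (node (nat_lit 5) (nat_lit 92037) (nat_lit 8) nil
  nil) nil)) (node (nat_lit 0) (nat_lit 106407) (nat_lit 6) nil nil)))) (node (nat_lit 3) (nat_lit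
  103626) (nat_lit 5) (node (nat_lit 4) (nat_lit 108442) (nat_lit 6) nil (node (nat_lit 5)
  (nat_lit 106311) (nat_lit 6) (node (nat_lit 8) (nat_lit 105430) (nat_lit 7) (node (nat_lit 4)
  (nat_lit 98326) (nat_lit 8) (node (nat_lit 5) (nat_lit 92071) (nat_lit 9) (node (nat_lit 4)
  (nat_lit 84486) (nat_lit 10) (node (nat_lit 7) (nat_lit 70352) (nat_lit 11) (node (nat_lit 8)
  (nat_lit 54547) (nat_lit 12) nil nil) nil) nil) nil) nil) (node (nat_lit 3) (nat_lit 98265)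
  (nat_lit 7) nil nil)) (node (nat_lit 7) (nat_lit 108442) (nat_lit 6) nil (node (nat_lit 3)
  (nat_lit 105199) (nat_lit 6) (node (nat_lit 4) (nat_lit 100502) (nat_lit 7) (node (nat_lit 5)
  (nat_lit 82241) (nat_lit 8) (node (nat_lit 4) (nat_lit 68093) (nat_lit 9) nil nil) nil) (node
  (nat_lit 8) (nat_lit 105122) (nat_lit 7) nil nil)) (node (nat_lit 0) (nat_lit 108442) (nat_lit
  6) nil nil))))) (node (nat_lit 4) (nat_lit 101575) (nat_lit 5) (node (nat_lit 5) (nat_lit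
  108643) (nat_lit 6) (node (nat_lit 7) (nat_lit 110886) (nat_lit 7) (node (nat_lit 5) (nat_lit
  107695) (nat_lit 8) nil nil) (node (nat_lit 3) (nat_lit 102047) (nat_lit 7) nil nil)) (node
  (nat_lit 3) (nat_lit 104582) (nat_lit 6) (node (nat_lit 4) (nat_lit 106825) (nat_lit 7) nil
  (node (nat_lit 5) (nat_lit 100941) (nat_lit 7) nil (node (nat_lit 3) (nat_lit 101657) (nat_lit
  7) nil nil))) (node (nat_lit 0) (nat_lit 106391) (nat_lit 6) nil nil))) (node (nat_lit 0)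
  (nat_lit 103600) (nat_lit 5) (node (nat_lit 4) (nat_lit 108416) (nat_lit 6) nil (node (nat_lit
  3) (nat_lit 99993) (nat_lit 6) nil (node (nat_lit 7) (nat_lit 108416) (nat_lit 6) nil (node
  (nat_lit 5) (nat_lit 106690) (nat_lit 6) nil (node (nat_lit 0) (nat_lit 108416) (nat_lit 6) nil
  nil))))) nil)))) nil))

noncomputable def t188 : Tr :=
  (node (nat_lit 3) (nat_lit 0) (nat_lit 1) (node (nat_lit 3) (nat_lit 0) (nat_lit 2) (node
  (nat_lit 0) (nat_lit 0) (nat_lit 3) (node (nat_lit 5) (nat_lit 0) (nat_lit 4) t179 t180) (node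
  (nat_lit 4) (nat_lit 0) (nat_lit 3) (node (nat_lit 0) (nat_lit 0) (nat_lit 4) (node (nat_lit 5)
  (nat_lit 0) (nat_lit 5) (node (nat_lit 4) (nat_lit 36316) (nat_lit 6) (node (nat_lit 5) (nat_lit
  37673) (nat_lit 7) (node (nat_lit 7) (nat_lit 45043) (nat_lit 8) (node (nat_lit 4) (nat_lit
  45043) (nat_lit 9) (node (nat_lit 7) (nat_lit 45043) (nat_lit 10) (node (nat_lit 5) (nat_lit
  45043) (nat_lit 11) (node (nat_lit 4) (nat_lit 44396) (nat_lit 12) nil nil) nil) (node (nat_lit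
  5) (nat_lit 44482) (nat_lit 10) (node (nat_lit 4) (nat_lit 43415) (nat_lit 11) nil nil) (node
  (nat_lit 3) (nat_lit 45043) (nat_lit 10) nil (node (nat_lit 0) (nat_lit 45043) (nat_lit 10) nil
  nil)))) (node (nat_lit 5) (nat_lit 45043) (nat_lit 9) (node (nat_lit 4) (nat_lit 44482) (nat_lit
  10) (node (nat_lit 7) (nat_lit 44881) (nat_lit 11) (node (nat_lit 4) (nat_lit 44067) (nat_lit
  12) (node (nat_lit 5) (nat_lit 43448) (nat_lit 13) nil nil) nil) nil) (node (nat_lit 3) (nat_lit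
  45043) (nat_lit 10) nil (node (nat_lit 0) (nat_lit 45043) (nat_lit 10) nil nil))) (node (nat_lit
  3) (nat_lit 45043) (nat_lit 9) nil (node (nat_lit 0) (nat_lit 45043) (nat_lit 9) nil nil))))
  (node (nat_lit 3) (nat_lit 45043) (nat_lit 8) (node (nat_lit 4) (nat_lit 45043) (nat_lit 9)
  (node (nat_lit 5) (nat_lit 44442) (nat_lit 10) (node (nat_lit 4) (nat_lit 39831) (nat_lit 11)
  (node (nat_lit 7) (nat_lit 27864) (nat_lit 12) (node (nat_lit 11) (nat_lit 28158) (nat_lit 13)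
  nil (node (nat_lit 4) (nat_lit 27246) (nat_lit 13) nil nil)) nil) nil) (node (nat_lit 11)
  (nat_lit 45043) (nat_lit 10) nil nil)) (node (nat_lit 5) (nat_lit 45043) (nat_lit 9) nil (node
  (nat_lit 7) (nat_lit 45043) (nat_lit 9) nil (node (nat_lit 0) (nat_lit 45043) (nat_lit 9) nil
  nil)))) (node (nat_lit 0) (nat_lit 45043) (nat_lit 8) (node (nat_lit 5) (nat_lit 45043) (nat_lit
  9) nil nil) nil))) (node (nat_lit 3) (nat_lit 45043) (nat_lit 7) (node (nat_lit 5) (nat_lit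
  45043) (nat_lit 8) (node (nat_lit 4) (nat_lit 45043) (nat_lit 9) nil nil) (node (nat_lit 4)
  (nat_lit 45043) (nat_lit 8) (node (nat_lit 5) (nat_lit 41276) (nat_lit 9) (node (nat_lit 4)
  (nat_lit 14242) (nat_lit 10) (node (nat_lit 10) (nat_lit 14369) (nat_lit 11) (node (nat_lit 5)
  (nat_lit 13555) (nat_lit 12) (node (nat_lit 10) (nat_lit 13665) (nat_lit 13) (node (nat_lit 4)
  (nat_lit 13509) (nat_lit 14) (node (nat_lit 5) (nat_lit 13256) (nat_lit 15) nil nil) nil) nil)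
  nil) nil) nil) nil) (node (nat_lit 7) (nat_lit 45043) (nat_lit 8) nil nil))) (node (nat_lit 0)
  (nat_lit 45043) (nat_lit 7) (node (nat_lit 4) (nat_lit 45043) (nat_lit 8) nil nil) nil))) (node
  (nat_lit 7) (nat_lit 36335) (nat_lit 6) (node (nat_lit 4) (nat_lit 37727) (nat_lit 7) (node
  (nat_lit 7) (nat_lit 45043) (nat_lit 8) (node (nat_lit 5) (nat_lit 45043) (nat_lit 9) (node
  (nat_lit 4) (nat_lit 45043) (nat_lit 10) (node (nat_lit 5) (nat_lit 44484) (nat_lit 11) (node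
  (nat_lit 7) (nat_lit 44846) (nat_lit 12) nil nil) nil) nil) (node (nat_lit 0) (nat_lit 45043)
  (nat_lit 9) nil (node (nat_lit 3) (nat_lit 45043) (nat_lit 9) nil nil))) (node (nat_lit 5)
  (nat_lit 45043) (nat_lit 8) (node (nat_lit 7) (nat_lit 45043) (nat_lit 9) (node (nat_lit 5)
  (nat_lit 44952) (nat_lit 10) nil nil) nil) (node (nat_lit 3) (nat_lit 43796) (nat_lit 8) nil
  (node (nat_lit 0) (nat_lit 45043) (nat_lit 8) nil nil)))) (node (nat_lit 3) (nat_lit 45043)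
  (nat_lit 7) nil (node (nat_lit 0) (nat_lit 45043) (nat_lit 7) nil nil))) (node (nat_lit 3)
  (nat_lit 45043) (nat_lit 6) (node (nat_lit 7) (nat_lit 45043) (nat_lit 7) nil (node (nat_lit 4)
  (nat_lit 45043) (nat_lit 7) (node (nat_lit 5) (nat_lit 38036) (nat_lit 8) nil nil) (node
  (nat_lit 5) (nat_lit 45043) (nat_lit 7) nil nil))) (node (nat_lit 0) (nat_lit 44548) (nat_lit 6)
  nil nil)))) (node (nat_lit 4) (nat_lit 0) (nat_lit 5) (node (nat_lit 5) (nat_lit 36299) (nat_lit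
  6) (node (nat_lit 7) (nat_lit 37604) (nat_lit 7) (node (nat_lit 5) (nat_lit 44804) (nat_lit 8)
  (node (nat_lit 4) (nat_lit 45043) (nat_lit 9) (node (nat_lit 7) (nat_lit 45043) (nat_lit 10)
  (node (nat_lit 4) (nat_lit 45043) (nat_lit 11) (node (nat_lit 5) (nat_lit 44675) (nat_lit 12)
  (node (nat_lit 4) (nat_lit 44057) (nat_lit 13) nil nil) nil) (node (nat_lit 5) (nat_lit 45043)
  (nat_lit 11) (node (nat_lit 3) (nat_lit 45043) (nat_lit 12) nil nil) (node (nat_lit 3) (nat_lit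
  45043) (nat_lit 11) (node (nat_lit 4) (nat_lit 45043) (nat_lit 12) nil nil) (node (nat_lit 0)
  (nat_lit 45043) (nat_lit 11) nil nil)))) (node (nat_lit 5) (nat_lit 45043) (nat_lit 10) (node
  (nat_lit 7) (nat_lit 45043) (nat_lit 11) nil (node (nat_lit 3) (nat_lit 45043) (nat_lit 11) nil
  nil)) (node (nat_lit 3) (nat_lit 45043) (nat_lit 10) nil nil))) (node (nat_lit 3) (nat_lit
  45043) (nat_lit 9) (node (nat_lit 4) (nat_lit 45043) (nat_lit 10) (node (nat_lit 5) (nat_lit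
  38990) (nat_lit 11) nil nil) nil) nil)) (node (nat_lit 4) (nat_lit 44946) (nat_lit 8) (node
  (nat_lit 7) (nat_lit 45043) (nat_lit 9) (node (nat_lit 5) (nat_lit 44200) (nat_lit 10) nil nil)
  (node (nat_lit 3) (nat_lit 45043) (nat_lit 9) (node (nat_lit 4) (nat_lit 44119) (nat_lit 10)
  (node (nat_lit 5) (nat_lit 41317) (nat_lit 11) nil nil) nil) (node (nat_lit 0) (nat_lit 45043)
  (nat_lit 9) nil nil))) (node (nat_lit 3) (nat_lit 45043) (nat_lit 8) nil (node (nat_lit 0)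
  (nat_lit 45043) (nat_lit 8) (node (nat_lit 3) (nat_lit 45043) (nat_lit 9) nil nil) nil)))) (node
  (nat_lit 3) (nat_lit 45043) (nat_lit 7) (node (nat_lit 4) (nat_lit 42872) (nat_lit 8) (node
  (nat_lit 5) (nat_lit 37911) (nat_lit 9) (node (nat_lit 4) (nat_lit 27020) (nat_lit 10) nil nil)
  nil) (node (nat_lit 7) (nat_lit 45043) (nat_lit 8) nil nil)) (node (nat_lit 0) (nat_lit 45043)
  (nat_lit 7) nil (node (nat_lit 4) (nat_lit 37647) (nat_lit 7) nil nil)))) (node (nat_lit 3)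
  (nat_lit 45043) (nat_lit 6) (node (nat_lit 4) (nat_lit 41948) (nat_lit 7) (node (nat_lit 5)
  (nat_lit 40691) (nat_lit 8) (node (nat_lit 4) (nat_lit 26818) (nat_lit 9) (node (nat_lit 9)
  (nat_lit 26328) (nat_lit 10) nil nil) nil) nil) (node (nat_lit 7) (nat_lit 45043) (nat_lit 7)
  nil (node (nat_lit 5) (nat_lit 45043) (nat_lit 7) nil nil))) (node (nat_lit 0) (nat_lit 44438)
  (nat_lit 6) (node (nat_lit 5) (nat_lit 41977) (nat_lit 7) nil (node (nat_lit 3) (nat_lit 45043)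
  (nat_lit 7) nil nil)) nil))) (node (nat_lit 3) (nat_lit 45043) (nat_lit 5) (node (nat_lit 4)
  (nat_lit 45043) (nat_lit 6) (node (nat_lit 5) (nat_lit 45043) (nat_lit 7) (node (nat_lit 8)
  (nat_lit 45043) (nat_lit 8) nil (node (nat_lit 4) (nat_lit 45043) (nat_lit 8) nil nil)) (node
  (nat_lit 8) (nat_lit 45043) (nat_lit 7) (node (nat_lit 5) (nat_lit 45043) (nat_lit 8) (node
  (nat_lit 4) (nat_lit 45043) (nat_lit 9) nil nil) nil) (node (nat_lit 7) (nat_lit 45043) (nat_lit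
  7) nil nil))) (node (nat_lit 5) (nat_lit 45043) (nat_lit 6) (node (nat_lit 8) (nat_lit 45043)
  (nat_lit 7) nil nil) (node (nat_lit 7) (nat_lit 45043) (nat_lit 6) nil (node (nat_lit 0)
  (nat_lit 45043) (nat_lit 6) nil nil)))) (node (nat_lit 0) (nat_lit 45043) (nat_lit 5) (node
  (nat_lit 4) (nat_lit 45043) (nat_lit 6) (node (nat_lit 5) (nat_lit 43482) (nat_lit 7) (node
  (nat_lit 7) (nat_lit 44304) (nat_lit 8) nil (node (nat_lit 4) (nat_lit 41476) (nat_lit 8) nil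
  nil)) (node (nat_lit 3) (nat_lit 43255) (nat_lit 7) nil nil)) (node (nat_lit 5) (nat_lit 45043)
  (nat_lit 6) (node (nat_lit 3) (nat_lit 45043) (nat_lit 7) nil nil) (node (nat_lit 7) (nat_lit
  45043) (nat_lit 6) nil (node (nat_lit 3) (nat_lit 45043) (nat_lit 6) nil (node (nat_lit 0)
  (nat_lit 45043) (nat_lit 6) nil nil))))) nil)))) (node (nat_lit 3) (nat_lit 0) (nat_lit 4) (node
  (nat_lit 0) (nat_lit 43757) (nat_lit 5) (node (nat_lit 5) (nat_lit 45043) (nat_lit 6) (node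
  (nat_lit 4) (nat_lit 45043) (nat_lit 7) nil (node (nat_lit 7) (nat_lit 45043) (nat_lit 7) (node
  (nat_lit 4) (nat_lit 41864) (nat_lit 8) (node (nat_lit 5) (nat_lit 37242) (nat_lit 9) (node
  (nat_lit 4) (nat_lit 25008) (nat_lit 10) nil (node (nat_lit 7) (nat_lit 37695) (nat_lit 10) nil
  nil)) nil) nil) (node (nat_lit 8) (nat_lit 45043) (nat_lit 7) nil (node (nat_lit 0) (nat_lit
  45043) (nat_lit 7) nil nil)))) (node (nat_lit 7) (nat_lit 45043) (nat_lit 6) (node (nat_lit 4)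
  (nat_lit 45043) (nat_lit 7) (node (nat_lit 8) (nat_lit 45043) (nat_lit 8) (node (nat_lit 4)
  (nat_lit 45043) (nat_lit 9) (node (nat_lit 7) (nat_lit 45043) (nat_lit 10) nil nil) nil) nil)
  nil) (node (nat_lit 4) (nat_lit 45043) (nat_lit 6) (node (nat_lit 8) (nat_lit 45043) (nat_lit 7)
  nil (node (nat_lit 7) (nat_lit 44520) (nat_lit 7) (node (nat_lit 4) (nat_lit 40916) (nat_lit 8)
  (node (nat_lit 5) (nat_lit 35672) (nat_lit 9) (node (nat_lit 4) (nat_lit 24060) (nat_lit 10) nil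
  nil) nil) nil) (node (nat_lit 5) (nat_lit 45043) (nat_lit 7) nil nil))) (node (nat_lit 0)
  (nat_lit 45043) (nat_lit 6) nil nil)))) (node (nat_lit 5) (nat_lit 0) (nat_lit 5) (node (nat_lit
  7) (nat_lit 38330) (nat_lit 6) (node (nat_lit 4) (nat_lit 42059) (nat_lit 7) (node (nat_lit 5)
  (nat_lit 34444) (nat_lit 8) (node (nat_lit 4) (nat_lit 23572) (nat_lit 9) nil (node (nat_lit 7)
  (nat_lit 38120) (nat_lit 9) nil nil)) nil) (node (nat_lit 0) (nat_lit 44098) (nat_lit 7) nil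
  nil)) (node (nat_lit 0) (nat_lit 45043) (nat_lit 6) (node (nat_lit 7) (nat_lit 45043) (nat_lit
  7) nil (node (nat_lit 4) (nat_lit 45043) (nat_lit 7) nil (node (nat_lit 5) (nat_lit 45043)
  (nat_lit 7) nil (node (nat_lit 0) (nat_lit 45043) (nat_lit 7) nil nil)))) (node (nat_lit 4)
  (nat_lit 38607) (nat_lit 6) (node (nat_lit 5) (nat_lit 38047) (nat_lit 7) (node (nat_lit 7)
  (nat_lit 39187) (nat_lit 8) (node (nat_lit 4) (nat_lit 37804) (nat_lit 9) (node (nat_lit 5)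
  (nat_lit 35486) (nat_lit 10) (node (nat_lit 4) (nat_lit 30110) (nat_lit 11) (node (nat_lit 7)
  (nat_lit 21354) (nat_lit 12) (node (nat_lit 5) (nat_lit 8832) (nat_lit 13) nil nil) nil) nil)
  nil) nil) nil) (node (nat_lit 0) (nat_lit 44375) (nat_lit 7) nil nil)) nil))) (node (nat_lit 4)
  (nat_lit 0) (nat_lit 5) (node (nat_lit 5) (nat_lit 0) (nat_lit 6) (node (nat_lit 7) (nat_lit
  13961) (nat_lit 7) (node (nat_lit 4) (nat_lit 15871) (nat_lit 8) (node (nat_lit 0) (nat_lit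
  17362) (nat_lit 9) nil nil) (node (nat_lit 5) (nat_lit 16202) (nat_lit 8) (node (nat_lit 4)
  (nat_lit 17484) (nat_lit 9) nil (node (nat_lit 0) (nat_lit 17693) (nat_lit 9) nil nil)) (node
  (nat_lit 0) (nat_lit 19280) (nat_lit 8) nil nil))) (node (nat_lit 0) (nat_lit 17689) (nat_lit 7)
  (node (nat_lit 7) (nat_lit 19664) (nat_lit 8) (node (nat_lit 4) (nat_lit 20573) (nat_lit 9)
  (node (nat_lit 10) (nat_lit 21029) (nat_lit 10) nil (node (nat_lit 7) (nat_lit 21029) (nat_lit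
  10) nil (node (nat_lit 0) (nat_lit 21029) (nat_lit 10) nil nil))) nil) (node (nat_lit 5)
  (nat_lit 16564) (nat_lit 8) nil nil)) nil)) (node (nat_lit 0) (nat_lit 18829) (nat_lit 6) (node
  (nat_lit 4) (nat_lit 23112) (nat_lit 7) (node (nat_lit 7) (nat_lit 25888) (nat_lit 8) (node
  (nat_lit 4) (nat_lit 19517) (nat_lit 9) nil nil) (node (nat_lit 5) (nat_lit 21988) (nat_lit 8)
  nil nil)) (node (nat_lit 5) (nat_lit 23112) (nat_lit 7) (node (nat_lit 4) (nat_lit 25786)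
  (nat_lit 8) (node (nat_lit 7) (nat_lit 23229) (nat_lit 9) nil (node (nat_lit 9) (nat_lit 26695)
  (nat_lit 9) nil nil)) (node (nat_lit 7) (nat_lit 20358) (nat_lit 8) nil nil)) (node (nat_lit 7)
  (nat_lit 23198) (nat_lit 7) (node (nat_lit 4) (nat_lit 25173) (nat_lit 8) nil (node (nat_lit 9)
  (nat_lit 25173) (nat_lit 8) nil nil)) (node (nat_lit 0) (nat_lit 23178) (nat_lit 7) nil nil))))
  nil)) nil))) nil)) (node (nat_lit 3) (nat_lit 0) (nat_lit 3) t181 nil))) (node (nat_lit 0)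
  (nat_lit 0) (nat_lit 2) (node (nat_lit 3) (nat_lit 0) (nat_lit 3) t183 t184) nil)) (node
  (nat_lit 0) (nat_lit 0) (nat_lit 1) (node (nat_lit 3) (nat_lit 0) (nat_lit 2) (node (nat_lit 3)
  (nat_lit 0) (nat_lit 3) t186 (node (nat_lit 4) (nat_lit 0) (nat_lit 3) t187 (node (nat_lit 0)
  (nat_lit 0) (nat_lit 3) (node (nat_lit 3) (nat_lit 0) (nat_lit 4) (node (nat_lit 5) (nat_lit
  151560) (nat_lit 5) (node (nat_lit 7) (nat_lit 150548) (nat_lit 6) (node (nat_lit 6) (nat_lit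
  152973) (nat_lit 7) nil (node (nat_lit 4) (nat_lit 145039) (nat_lit 7) (node (nat_lit 5)
  (nat_lit 136660) (nat_lit 8) (node (nat_lit 6) (nat_lit 123558) (nat_lit 9) (node (nat_lit 7)
  (nat_lit 105853) (nat_lit 10) (node (nat_lit 5) (nat_lit 89120) (nat_lit 11) nil nil) nil) nil)
  nil) nil)) (node (nat_lit 3) (nat_lit 138974) (nat_lit 6) (node (nat_lit 4) (nat_lit 137274)
  (nat_lit 7) nil nil) (node (nat_lit 4) (nat_lit 149005) (nat_lit 6) (node (nat_lit 5) (nat_lit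
  129286) (nat_lit 7) (node (nat_lit 6) (nat_lit 102791) (nat_lit 8) (node (nat_lit 7) (nat_lit
  101704) (nat_lit 9) nil nil) nil) nil) (node (nat_lit 6) (nat_lit 155956) (nat_lit 6) nil
  nil)))) (node (nat_lit 6) (nat_lit 147679) (nat_lit 5) nil (node (nat_lit 3) (nat_lit 142777)
  (nat_lit 5) (node (nat_lit 7) (nat_lit 140022) (nat_lit 6) (node (nat_lit 5) (nat_lit 132986)
  (nat_lit 7) nil nil) (node (nat_lit 5) (nat_lit 133284) (nat_lit 6) nil (node (nat_lit 4)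
  (nat_lit 129504) (nat_lit 6) (node (nat_lit 5) (nat_lit 108806) (nat_lit 7) (node (nat_lit 6)
  (nat_lit 94038) (nat_lit 8) nil nil) nil) nil))) (node (nat_lit 4) (nat_lit 147679) (nat_lit 5)
  (node (nat_lit 5) (nat_lit 148085) (nat_lit 6) (node (nat_lit 6) (nat_lit 98952) (nat_lit 7) nil
  nil) nil) (node (nat_lit 0) (nat_lit 147679) (nat_lit 5) nil nil))))) (node (nat_lit 5) (nat_lit
  0) (nat_lit 4) (node (nat_lit 3) (nat_lit 150857) (nat_lit 5) (node (nat_lit 5) (nat_lit 145031)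
  (nat_lit 6) nil (node (nat_lit 3) (nat_lit 143677) (nat_lit 6) (node (nat_lit 5) (nat_lit
  137091) (nat_lit 7) nil (node (nat_lit 8) (nat_lit 142476) (nat_lit 7) nil (node (nat_lit 4)
  (nat_lit 137019) (nat_lit 7) nil nil))) (node (nat_lit 4) (nat_lit 141622) (nat_lit 6) (node
  (nat_lit 5) (nat_lit 125688) (nat_lit 7) (node (nat_lit 6) (nat_lit 95069) (nat_lit 8) nil nil)
  nil) nil))) (node (nat_lit 4) (nat_lit 147603) (nat_lit 5) (node (nat_lit 5) (nat_lit 152059)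
  (nat_lit 6) (node (nat_lit 6) (nat_lit 101436) (nat_lit 7) nil nil) nil) (node (nat_lit 0)
  (nat_lit 144373) (nat_lit 5) nil nil))) (node (nat_lit 4) (nat_lit 0) (nat_lit 4) (node (nat_lit
  3) (nat_lit 151288) (nat_lit 5) (node (nat_lit 5) (nat_lit 146369) (nat_lit 6) (node (nat_lit 4)
  (nat_lit 136793) (nat_lit 7) (node (nat_lit 5) (nat_lit 124136) (nat_lit 8) nil nil) (node
  (nat_lit 8) (nat_lit 144290) (nat_lit 7) (node (nat_lit 4) (nat_lit 136393) (nat_lit 8) (node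
  (nat_lit 5) (nat_lit 130611) (nat_lit 9) (node (nat_lit 6) (nat_lit 123510) (nat_lit 10) (node
  (nat_lit 4) (nat_lit 109805) (nat_lit 11) (node (nat_lit 8) (nat_lit 95358) (nat_lit 12) nil
  nil) nil) nil) nil) nil) nil)) (node (nat_lit 3) (nat_lit 147909) (nat_lit 6) (node (nat_lit 4)
  (nat_lit 137382) (nat_lit 7) nil (node (nat_lit 8) (nat_lit 146384) (nat_lit 7) nil nil)) (node
  (nat_lit 4) (nat_lit 157166) (nat_lit 6) (node (nat_lit 5) (nat_lit 157218) (nat_lit 7) (node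
  (nat_lit 6) (nat_lit 159743) (nat_lit 8) (node (nat_lit 4) (nat_lit 102457) (nat_lit 9) nil nil)
  nil) nil) nil))) (node (nat_lit 6) (nat_lit 149793) (nat_lit 5) (node (nat_lit 5) (nat_lit
  155852) (nat_lit 6) (node (nat_lit 4) (nat_lit 160759) (nat_lit 7) (node (nat_lit 5) (nat_lit
  158091) (nat_lit 8) (node (nat_lit 6) (nat_lit 160627) (nat_lit 9) (node (nat_lit 4) (nat_lit
  161754) (nat_lit 10) (node (nat_lit 6) (nat_lit 100347) (nat_lit 11) nil nil) nil) nil) nil)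
  nil) nil) (node (nat_lit 0) (nat_lit 152037) (nat_lit 5) nil (node (nat_lit 5) (nat_lit 149606)
  (nat_lit 5) (node (nat_lit 3) (nat_lit 146062) (nat_lit 6) (node (nat_lit 4) (nat_lit 133670)
  (nat_lit 7) (node (nat_lit 5) (nat_lit 125390) (nat_lit 8) nil nil) nil) nil) nil)))) (node
  (nat_lit 0) (nat_lit 0) (nat_lit 4) (node (nat_lit 5) (nat_lit 154461) (nat_lit 5) (node
  (nat_lit 7) (nat_lit 159745) (nat_lit 6) nil (node (nat_lit 3) (nat_lit 148752) (nat_lit 6) nil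
  nil)) (node (nat_lit 6) (nat_lit 156046) (nat_lit 5) nil (node (nat_lit 3) (nat_lit 152905)
  (nat_lit 5) (node (nat_lit 5) (nat_lit 136885) (nat_lit 6) nil (node (nat_lit 3) (nat_lit
  137627) (nat_lit 6) (node (nat_lit 8) (nat_lit 135976) (nat_lit 7) nil nil) nil)) (node (nat_lit
  4) (nat_lit 147909) (nat_lit 5) nil (node (nat_lit 0) (nat_lit 147909) (nat_lit 5) nil nil)))))
  nil)))) nil))) (node (nat_lit 0) (nat_lit 0) (nat_lit 2) (node (nat_lit 3) (nat_lit 0) (nat_lit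
  3) (node (nat_lit 3) (nat_lit 149793) (nat_lit 4) (node (nat_lit 5) (nat_lit 159232) (nat_lit 5)
  nil (node (nat_lit 6) (nat_lit 147346) (nat_lit 5) (node (nat_lit 5) (nat_lit 153065) (nat_lit
  6) nil (node (nat_lit 4) (nat_lit 141882) (nat_lit 6) (node (nat_lit 7) (nat_lit 142147)
  (nat_lit 7) nil (node (nat_lit 5) (nat_lit 131303) (nat_lit 7) (node (nat_lit 6) (nat_lit
  107957) (nat_lit 8) (node (nat_lit 7) (nat_lit 90420) (nat_lit 9) nil nil) nil) (node (nat_lit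
  6) (nat_lit 138059) (nat_lit 7) nil nil))) (node (nat_lit 3) (nat_lit 141696) (nat_lit 6) nil
  nil))) (node (nat_lit 3) (nat_lit 144342) (nat_lit 5) (node (nat_lit 7) (nat_lit 141943)
  (nat_lit 6) (node (nat_lit 6) (nat_lit 135566) (nat_lit 7) nil nil) (node (nat_lit 6) (nat_lit
  136049) (nat_lit 6) (node (nat_lit 7) (nat_lit 134444) (nat_lit 7) (node (nat_lit 6) (nat_lit
  132291) (nat_lit 8) nil nil) (node (nat_lit 8) (nat_lit 134055) (nat_lit 7) nil (node (nat_lit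
  5) (nat_lit 140401) (nat_lit 7) nil nil))) (node (nat_lit 4) (nat_lit 140258) (nat_lit 6) (node
  (nat_lit 5) (nat_lit 110292) (nat_lit 7) (node (nat_lit 6) (nat_lit 100024) (nat_lit 8) nil nil)
  (node (nat_lit 6) (nat_lit 136435) (nat_lit 7) nil nil)) nil))) (node (nat_lit 4) (nat_lit
  145919) (nat_lit 5) (node (nat_lit 6) (nat_lit 146193) (nat_lit 6) nil (node (nat_lit 5)
  (nat_lit 108221) (nat_lit 6) (node (nat_lit 6) (nat_lit 105612) (nat_lit 7) nil nil) (node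
  (nat_lit 7) (nat_lit 143616) (nat_lit 6) (node (nat_lit 6) (nat_lit 139882) (nat_lit 7) (node
  (nat_lit 4) (nat_lit 139475) (nat_lit 8) nil nil) nil) nil))) nil)))) (node (nat_lit 4) (nat_lit
  0) (nat_lit 4) (node (nat_lit 5) (nat_lit 104228) (nat_lit 5) (node (nat_lit 4) (nat_lit 107549)
  (nat_lit 6) (node (nat_lit 6) (nat_lit 109912) (nat_lit 7) (node (nat_lit 4) (nat_lit 113800)
  (nat_lit 8) (node (nat_lit 5) (nat_lit 115105) (nat_lit 9) (node (nat_lit 6) (nat_lit 112245)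
  (nat_lit 10) nil nil) nil) nil) (node (nat_lit 3) (nat_lit 106741) (nat_lit 7) nil (node
  (nat_lit 0) (nat_lit 109897) (nat_lit 7) nil nil))) (node (nat_lit 3) (nat_lit 110002) (nat_lit
  6) nil (node (nat_lit 0) (nat_lit 116869) (nat_lit 6) nil nil))) (node (nat_lit 6) (nat_lit
  161489) (nat_lit 5) (node (nat_lit 5) (nat_lit 166585) (nat_lit 6) nil (node (nat_lit 3)
  (nat_lit 152897) (nat_lit 6) (node (nat_lit 4) (nat_lit 149268) (nat_lit 7) (node (nat_lit 5)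
  (nat_lit 141722) (nat_lit 8) (node (nat_lit 6) (nat_lit 126162) (nat_lit 9) (node (nat_lit 4)
  (nat_lit 104621) (nat_lit 10) (node (nat_lit 6) (nat_lit 99141) (nat_lit 11) nil nil) nil) nil)
  nil) (node (nat_lit 6) (nat_lit 150861) (nat_lit 7) nil nil)) nil)) (node (nat_lit 3) (nat_lit
  154703) (nat_lit 5) (node (nat_lit 6) (nat_lit 141716) (nat_lit 6) (node (nat_lit 8) (nat_lit
  139848) (nat_lit 7) (node (nat_lit 4) (nat_lit 138747) (nat_lit 8) nil nil) (node (nat_lit 4)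
  (nat_lit 140576) (nat_lit 7) nil nil)) (node (nat_lit 4) (nat_lit 160421) (nat_lit 6) (node
  (nat_lit 5) (nat_lit 163944) (nat_lit 7) (node (nat_lit 6) (nat_lit 161133) (nat_lit 8) (node
  (nat_lit 4) (nat_lit 101224) (nat_lit 9) nil nil) nil) nil) nil)) (node (nat_lit 0) (nat_lit
  164699) (nat_lit 5) nil nil)))) (node (nat_lit 5) (nat_lit 0) (nat_lit 4) (node (nat_lit 4)
  (nat_lit 160219) (nat_lit 5) (node (nat_lit 6) (nat_lit 155904) (nat_lit 6) (node (nat_lit 4)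
  (nat_lit 160603) (nat_lit 7) (node (nat_lit 5) (nat_lit 162405) (nat_lit 8) (node (nat_lit 6)
  (nat_lit 158927) (nat_lit 9) (node (nat_lit 5) (nat_lit 159919) (nat_lit 10) (node (nat_lit 4)
  (nat_lit 100809) (nat_lit 11) nil nil) nil) nil) nil) nil) nil) (node (nat_lit 3) (nat_lit
  150837) (nat_lit 5) (node (nat_lit 6) (nat_lit 143316) (nat_lit 6) (node (nat_lit 4) (nat_lit
  142111) (nat_lit 7) nil nil) nil) (node (nat_lit 0) (nat_lit 164707) (nat_lit 5) nil nil)))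
  (node (nat_lit 0) (nat_lit 152634) (nat_lit 4) (node (nat_lit 6) (nat_lit 148252) (nat_lit 5)
  (node (nat_lit 3) (nat_lit 140381) (nat_lit 6) nil nil) (node (nat_lit 3) (nat_lit 148378)
  (nat_lit 5) nil nil)) nil)))) (node (nat_lit 0) (nat_lit 0) (nat_lit 3) (node (nat_lit 3)
  (nat_lit 156086) (nat_lit 4) (node (nat_lit 3) (nat_lit 149097) (nat_lit 5) (node (nat_lit 7)
  (nat_lit 142202) (nat_lit 6) (node (nat_lit 4) (nat_lit 141417) (nat_lit 7) nil nil) (node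
  (nat_lit 4) (nat_lit 129233) (nat_lit 6) nil (node (nat_lit 3) (nat_lit 140351) (nat_lit 6) nil
  nil))) (node (nat_lit 5) (nat_lit 165591) (nat_lit 5) nil (node (nat_lit 4) (nat_lit 165591)
  (nat_lit 5) (node (nat_lit 5) (nat_lit 171419) (nat_lit 6) (node (nat_lit 6) (nat_lit 108799)
  (nat_lit 7) nil nil) nil) nil))) (node (nat_lit 4) (nat_lit 0) (nat_lit 4) (node (nat_lit 6)
  (nat_lit 174615) (nat_lit 5) (node (nat_lit 5) (nat_lit 178780) (nat_lit 6) (node (nat_lit 4)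
  (nat_lit 181363) (nat_lit 7) nil nil) nil) (node (nat_lit 3) (nat_lit 164236) (nat_lit 5) (node
  (nat_lit 4) (nat_lit 168401) (nat_lit 6) nil (node (nat_lit 6) (nat_lit 168401) (nat_lit 6) nil
  (node (nat_lit 5) (nat_lit 168401) (nat_lit 6) nil nil))) (node (nat_lit 5) (nat_lit 172689)
  (nat_lit 5) nil (node (nat_lit 0) (nat_lit 172689) (nat_lit 5) nil nil)))) (node (nat_lit 5)
  (nat_lit 165121) (nat_lit 4) (node (nat_lit 4) (nat_lit 173218) (nat_lit 5) nil (node (nat_lit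
  3) (nat_lit 159165) (nat_lit 5) nil nil)) (node (nat_lit 0) (nat_lit 158494) (nat_lit 4) nil
  nil)))) (node (nat_lit 4) (nat_lit 0) (nat_lit 3) (node (nat_lit 3) (nat_lit 0) (nat_lit 4)
  (node (nat_lit 4) (nat_lit 158610) (nat_lit 5) (node (nat_lit 5) (nat_lit 165364) (nat_lit 6)
  (node (nat_lit 4) (nat_lit 110559) (nat_lit 7) nil nil) nil) (node (nat_lit 5) (nat_lit 158610)
  (nat_lit 5) nil (node (nat_lit 3) (nat_lit 142913) (nat_lit 5) (node (nat_lit 7) (nat_lit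
  142860) (nat_lit 6) (node (nat_lit 4) (nat_lit 141175) (nat_lit 7) (node (nat_lit 5) (nat_lit
  135743) (nat_lit 8) (node (nat_lit 4) (nat_lit 124606) (nat_lit 9) (node (nat_lit 7) (nat_lit
  105418) (nat_lit 10) nil nil) nil) nil) nil) (node (nat_lit 4) (nat_lit 141063) (nat_lit 6)
  (node (nat_lit 5) (nat_lit 129818) (nat_lit 7) (node (nat_lit 4) (nat_lit 112671) (nat_lit 8)
  (node (nat_lit 7) (nat_lit 103608) (nat_lit 9) nil nil) nil) nil) (node (nat_lit 3) (nat_lit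
  138778) (nat_lit 6) nil nil))) (node (nat_lit 0) (nat_lit 165317) (nat_lit 5) nil nil)))) (node
  (nat_lit 0) (nat_lit 0) (nat_lit 4) (node (nat_lit 4) (nat_lit 171654) (nat_lit 5) (node
  (nat_lit 5) (nat_lit 175891) (nat_lit 6) (node (nat_lit 7) (nat_lit 177239) (nat_lit 7) nil nil)
  nil) (node (nat_lit 5) (nat_lit 171654) (nat_lit 5) nil (node (nat_lit 3) (nat_lit 157092)
  (nat_lit 5) (node (nat_lit 5) (nat_lit 162823) (nat_lit 6) nil nil) (node (nat_lit 0) (nat_lit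
  171654) (nat_lit 5) nil nil)))) nil)) nil))) nil)) nil))

noncomputable def c3 : Tr :=
  t188

noncomputable def t189 : Tr :=
  (node (nat_lit 5) (nat_lit 0) (nat_lit 6) (node (nat_lit 0) (nat_lit 0) (nat_lit 7) (node
  (nat_lit 4) (nat_lit 66981) (nat_lit 8) (node (nat_lit 10) (nat_lit 66981) (nat_lit 9) (node
  (nat_lit 5) (nat_lit 66981) (nat_lit 10) (node (nat_lit 4) (nat_lit 66981) (nat_lit 11) (node
  (nat_lit 5) (nat_lit 66981) (nat_lit 12) (node (nat_lit 6) (nat_lit 66981) (nat_lit 13) (node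
  (nat_lit 5) (nat_lit 66981) (nat_lit 14) (node (nat_lit 4) (nat_lit 66981) (nat_lit 15) nil nil)
  nil) nil) nil) (node (nat_lit 6) (nat_lit 66981) (nat_lit 11) nil nil)) (node (nat_lit 6)
  (nat_lit 66981) (nat_lit 10) (node (nat_lit 4) (nat_lit 66981) (nat_lit 11) (node (nat_lit 5)
  (nat_lit 66981) (nat_lit 12) (node (nat_lit 6) (nat_lit 66981) (nat_lit 13) nil nil) nil) (node
  (nat_lit 5) (nat_lit 66981) (nat_lit 11) nil nil)) nil)) (node (nat_lit 6) (nat_lit 66981)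
  (nat_lit 9) (node (nat_lit 4) (nat_lit 66981) (nat_lit 10) (node (nat_lit 5) (nat_lit 66981)
  (nat_lit 11) (node (nat_lit 6) (nat_lit 66981) (nat_lit 12) (node (nat_lit 5) (nat_lit 64721)
  (nat_lit 13) (node (nat_lit 4) (nat_lit 53506) (nat_lit 14) (node (nat_lit 5) (nat_lit 37476)
  (nat_lit 15) nil nil) nil) nil) nil) nil) nil) (node (nat_lit 5) (nat_lit 66981) (nat_lit 9) nil
  nil))) (node (nat_lit 6) (nat_lit 66981) (nat_lit 8) (node (nat_lit 10) (nat_lit 66981) (nat_lit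
  9) (node (nat_lit 5) (nat_lit 66981) (nat_lit 10) (node (nat_lit 6) (nat_lit 66981) (nat_lit 11)
  nil (node (nat_lit 4) (nat_lit 66981) (nat_lit 11) nil nil)) nil) (node (nat_lit 5) (nat_lit
  66981) (nat_lit 9) (node (nat_lit 6) (nat_lit 66981) (nat_lit 10) (node (nat_lit 4) (nat_lit
  66981) (nat_lit 11) (node (nat_lit 5) (nat_lit 66981) (nat_lit 12) nil nil) nil) (node (nat_lit
  4) (nat_lit 66981) (nat_lit 10) (node (nat_lit 5) (nat_lit 66981) (nat_lit 11) (node (nat_lit 6)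
  (nat_lit 66981) (nat_lit 12) nil nil) nil) nil)) (node (nat_lit 4) (nat_lit 66981) (nat_lit 9)
  (node (nat_lit 5) (nat_lit 66981) (nat_lit 10) (node (nat_lit 6) (nat_lit 66981) (nat_lit 11)
  nil nil) nil) nil))) (node (nat_lit 0) (nat_lit 66981) (nat_lit 8) (node (nat_lit 10) (nat_lit
  66981) (nat_lit 9) nil (node (nat_lit 5) (nat_lit 66981) (nat_lit 9) (node (nat_lit 6) (nat_lit
  66981) (nat_lit 10) nil nil) (node (nat_lit 6) (nat_lit 66981) (nat_lit 9) nil nil))) (node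
  (nat_lit 2) (nat_lit 66981) (nat_lit 8) (node (nat_lit 10) (nat_lit 66981) (nat_lit 9) nil (node
  (nat_lit 5) (nat_lit 66981) (nat_lit 9) (node (nat_lit 6) (nat_lit 66981) (nat_lit 10) nil nil)
  (node (nat_lit 6) (nat_lit 66981) (nat_lit 9) nil nil))) (node (nat_lit 5) (nat_lit 66981)
  (nat_lit 8) (node (nat_lit 4) (nat_lit 66981) (nat_lit 9) (node (nat_lit 6) (nat_lit 66981)
  (nat_lit 10) nil (node (nat_lit 5) (nat_lit 66981) (nat_lit 10) (node (nat_lit 6) (nat_lit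
  66981) (nat_lit 11) (node (nat_lit 5) (nat_lit 66981) (nat_lit 12) (node (nat_lit 4) (nat_lit
  66981) (nat_lit 13) nil nil) nil) nil) nil)) (node (nat_lit 6) (nat_lit 66981) (nat_lit 9) (node
  (nat_lit 4) (nat_lit 66981) (nat_lit 10) (node (nat_lit 5) (nat_lit 66981) (nat_lit 11) nil nil)
  nil) nil)) nil))))) (node (nat_lit 2) (nat_lit 0) (nat_lit 7) (node (nat_lit 4) (nat_lit 66981)
  (nat_lit 8) (node (nat_lit 10) (nat_lit 66981) (nat_lit 9) (node (nat_lit 5) (nat_lit 66981)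
  (nat_lit 10) (node (nat_lit 4) (nat_lit 66981) (nat_lit 11) (node (nat_lit 5) (nat_lit 66981)
  (nat_lit 12) (node (nat_lit 6) (nat_lit 66981) (nat_lit 13) (node (nat_lit 5) (nat_lit 66981)
  (nat_lit 14) (node (nat_lit 4) (nat_lit 64642) (nat_lit 15) nil nil) nil) nil) nil) (node
  (nat_lit 6) (nat_lit 66981) (nat_lit 11) nil nil)) (node (nat_lit 6) (nat_lit 66981) (nat_lit
  10) (node (nat_lit 4) (nat_lit 66981) (nat_lit 11) (node (nat_lit 5) (nat_lit 66981) (nat_lit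
  12) (node (nat_lit 6) (nat_lit 66981) (nat_lit 13) nil nil) nil) (node (nat_lit 5) (nat_lit
  66981) (nat_lit 11) nil nil)) nil)) (node (nat_lit 6) (nat_lit 66981) (nat_lit 9) (node (nat_lit
  4) (nat_lit 66981) (nat_lit 10) (node (nat_lit 5) (nat_lit 66981) (nat_lit 11) (node (nat_lit 6)
  (nat_lit 66981) (nat_lit 12) (node (nat_lit 5) (nat_lit 66981) (nat_lit 13) (node (nat_lit 4)
  (nat_lit 57268) (nat_lit 14) (node (nat_lit 5) (nat_lit 40659) (nat_lit 15) nil nil) nil) nil)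
  nil) nil) nil) (node (nat_lit 5) (nat_lit 66981) (nat_lit 9) nil nil))) (node (nat_lit 6)
  (nat_lit 66981) (nat_lit 8) (node (nat_lit 10) (nat_lit 66981) (nat_lit 9) (node (nat_lit 5)
  (nat_lit 66981) (nat_lit 10) (node (nat_lit 4) (nat_lit 66981) (nat_lit 11) nil nil) nil) (node
  (nat_lit 5) (nat_lit 66981) (nat_lit 9) (node (nat_lit 6) (nat_lit 66981) (nat_lit 10) (node
  (nat_lit 4) (nat_lit 66981) (nat_lit 11) (node (nat_lit 5) (nat_lit 66981) (nat_lit 12) nil nil)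
  nil) (node (nat_lit 4) (nat_lit 66981) (nat_lit 10) (node (nat_lit 5) (nat_lit 66981) (nat_lit
  11) (node (nat_lit 6) (nat_lit 66981) (nat_lit 12) nil nil) nil) nil)) (node (nat_lit 4)
  (nat_lit 66981) (nat_lit 9) (node (nat_lit 5) (nat_lit 66981) (nat_lit 10) (node (nat_lit 6)
  (nat_lit 56071) (nat_lit 11) (node (nat_lit 5) (nat_lit 35594) (nat_lit 12) nil nil) nil) nil)
  nil))) (node (nat_lit 0) (nat_lit 66981) (nat_lit 8) (node (nat_lit 10) (nat_lit 66981) (nat_lit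
  9) nil (node (nat_lit 5) (nat_lit 66981) (nat_lit 9) (node (nat_lit 6) (nat_lit 66981) (nat_lit
  10) nil nil) (node (nat_lit 6) (nat_lit 66981) (nat_lit 9) nil nil))) (node (nat_lit 5) (nat_lit
  66981) (nat_lit 8) (node (nat_lit 4) (nat_lit 66981) (nat_lit 9) (node (nat_lit 6) (nat_lit
  66981) (nat_lit 10) nil (node (nat_lit 5) (nat_lit 66981) (nat_lit 10) (node (nat_lit 6)
  (nat_lit 66981) (nat_lit 11) (node (nat_lit 5) (nat_lit 62421) (nat_lit 12) (node (nat_lit 4)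
  (nat_lit 48786) (nat_lit 13) nil nil) nil) nil) nil)) (node (nat_lit 6) (nat_lit 66981) (nat_lit
  9) (node (nat_lit 4) (nat_lit 66981) (nat_lit 10) (node (nat_lit 5) (nat_lit 66981) (nat_lit 11)
  nil nil) nil) nil)) nil)))) (node (nat_lit 6) (nat_lit 0) (nat_lit 7) (node (nat_lit 0) (nat_lit
  0) (nat_lit 8) (node (nat_lit 6) (nat_lit 0) (nat_lit 9) (node (nat_lit 5) (nat_lit 48470)
  (nat_lit 10) (node (nat_lit 11) (nat_lit 48584) (nat_lit 11) (node (nat_lit 6) (nat_lit 48584)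
  (nat_lit 12) (node (nat_lit 4) (nat_lit 48584) (nat_lit 13) (node (nat_lit 5) (nat_lit 48797)
  (nat_lit 14) nil nil) nil) (node (nat_lit 5) (nat_lit 48674) (nat_lit 12) nil nil)) (node
  (nat_lit 4) (nat_lit 48470) (nat_lit 11) (node (nat_lit 5) (nat_lit 48674) (nat_lit 12) (node
  (nat_lit 6) (nat_lit 48674) (nat_lit 13) nil nil) nil) (node (nat_lit 6) (nat_lit 48470)
  (nat_lit 11) nil nil))) (node (nat_lit 4) (nat_lit 48137) (nat_lit 10) (node (nat_lit 5)
  (nat_lit 48584) (nat_lit 11) (node (nat_lit 6) (nat_lit 48584) (nat_lit 12) (node (nat_lit 5)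
  (nat_lit 48743) (nat_lit 13) (node (nat_lit 4) (nat_lit 48743) (nat_lit 14) nil nil) nil) nil)
  nil) (node (nat_lit 0) (nat_lit 48470) (nat_lit 10) nil (node (nat_lit 2) (nat_lit 48137)
  (nat_lit 10) nil nil)))) (node (nat_lit 5) (nat_lit 48626) (nat_lit 9) (node (nat_lit 4)
  (nat_lit 48626) (nat_lit 10) (node (nat_lit 5) (nat_lit 48875) (nat_lit 11) (node (nat_lit 6)
  (nat_lit 48875) (nat_lit 12) nil nil) (node (nat_lit 6) (nat_lit 48626) (nat_lit 11) nil nil))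
  (node (nat_lit 11) (nat_lit 48772) (nat_lit 10) (node (nat_lit 6) (nat_lit 48772) (nat_lit 11)
  (node (nat_lit 11) (nat_lit 48926) (nat_lit 12) (node (nat_lit 5) (nat_lit 48968) (nat_lit 13)
  nil nil) nil) nil) (node (nat_lit 6) (nat_lit 48626) (nat_lit 10) (node (nat_lit 5) (nat_lit
  48875) (nat_lit 11) nil (node (nat_lit 4) (nat_lit 48626) (nat_lit 11) nil nil)) nil))) (node
  (nat_lit 4) (nat_lit 48137) (nat_lit 9) (node (nat_lit 6) (nat_lit 48137) (nat_lit 10) (node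
  (nat_lit 4) (nat_lit 48137) (nat_lit 11) nil nil) nil) (node (nat_lit 0) (nat_lit 48626)
  (nat_lit 9) (node (nat_lit 6) (nat_lit 48626) (nat_lit 10) nil nil) (node (nat_lit 2) (nat_lit
  48137) (nat_lit 9) (node (nat_lit 6) (nat_lit 48137) (nat_lit 10) nil nil) nil))))) (node
  (nat_lit 2) (nat_lit 0) (nat_lit 8) (node (nat_lit 6) (nat_lit 0) (nat_lit 9) (node (nat_lit 5)
  (nat_lit 47981) (nat_lit 10) (node (nat_lit 11) (nat_lit 47981) (nat_lit 11) (node (nat_lit 6)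
  (nat_lit 47981) (nat_lit 12) (node (nat_lit 4) (nat_lit 47981) (nat_lit 13) (node (nat_lit 5)
  (nat_lit 48217) (nat_lit 14) nil nil) nil) (node (nat_lit 5) (nat_lit 48143) (nat_lit 12) nil
  nil)) (node (nat_lit 4) (nat_lit 47981) (nat_lit 11) (node (nat_lit 5) (nat_lit 48143) (nat_lit
  12) (node (nat_lit 6) (nat_lit 48143) (nat_lit 13) nil nil) (node (nat_lit 6) (nat_lit 47981)
  (nat_lit 12) nil nil)) (node (nat_lit 6) (nat_lit 47981) (nat_lit 11) nil nil))) (node (nat_lit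
  4) (nat_lit 45647) (nat_lit 10) (node (nat_lit 5) (nat_lit 46672) (nat_lit 11) (node (nat_lit 6)
  (nat_lit 46672) (nat_lit 12) (node (nat_lit 5) (nat_lit 41320) (nat_lit 13) (node (nat_lit 4)
  (nat_lit 15688) (nat_lit 14) nil nil) nil) nil) (node (nat_lit 11) (nat_lit 45647) (nat_lit 11)
  nil (node (nat_lit 6) (nat_lit 45647) (nat_lit 11) nil nil))) (node (nat_lit 0) (nat_lit 47981)
  (nat_lit 10) (node (nat_lit 11) (nat_lit 47981) (nat_lit 11) (node (nat_lit 6) (nat_lit 47981)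
  (nat_lit 12) nil nil) (node (nat_lit 6) (nat_lit 47981) (nat_lit 11) nil (node (nat_lit 5)
  (nat_lit 48093) (nat_lit 11) nil nil))) nil))) (node (nat_lit 5) (nat_lit 48365) (nat_lit 9)
  (node (nat_lit 4) (nat_lit 48365) (nat_lit 10) (node (nat_lit 5) (nat_lit 48626) (nat_lit 11)
  (node (nat_lit 6) (nat_lit 48626) (nat_lit 12) nil nil) (node (nat_lit 6) (nat_lit 48365)
  (nat_lit 11) nil nil)) (node (nat_lit 11) (nat_lit 48365) (nat_lit 10) (node (nat_lit 6)
  (nat_lit 48365) (nat_lit 11) (node (nat_lit 11) (nat_lit 48365) (nat_lit 12) (node (nat_lit 5)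
  (nat_lit 48784) (nat_lit 13) nil nil) nil) nil) (node (nat_lit 6) (nat_lit 48365) (nat_lit 10)
  (node (nat_lit 5) (nat_lit 48626) (nat_lit 11) nil (node (nat_lit 4) (nat_lit 48365) (nat_lit
  11) nil nil)) nil))) (node (nat_lit 4) (nat_lit 45647) (nat_lit 9) (node (nat_lit 11) (nat_lit
  45647) (nat_lit 10) (node (nat_lit 6) (nat_lit 45647) (nat_lit 11) nil nil) (node (nat_lit 6)
  (nat_lit 45647) (nat_lit 10) (node (nat_lit 4) (nat_lit 45647) (nat_lit 11) nil nil) (node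
  (nat_lit 5) (nat_lit 47981) (nat_lit 10) nil nil))) (node (nat_lit 0) (nat_lit 48365) (nat_lit
  9) (node (nat_lit 6) (nat_lit 48365) (nat_lit 10) nil nil) nil)))) (node (nat_lit 4) (nat_lit 0)
  (nat_lit 8) (node (nat_lit 0) (nat_lit 48315) (nat_lit 9) (node (nat_lit 6) (nat_lit 48315)
  (nat_lit 10) (node (nat_lit 4) (nat_lit 48315) (nat_lit 11) (node (nat_lit 5) (nat_lit 48793)
  (nat_lit 12) (node (nat_lit 6) (nat_lit 48793) (nat_lit 13) nil nil) nil) nil) (node (nat_lit 5)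
  (nat_lit 48583) (nat_lit 10) (node (nat_lit 4) (nat_lit 48583) (nat_lit 11) (node (nat_lit 5)
  (nat_lit 48793) (nat_lit 12) nil nil) nil) (node (nat_lit 4) (nat_lit 48315) (nat_lit 10) (node
  (nat_lit 6) (nat_lit 48315) (nat_lit 11) nil nil) nil))) (node (nat_lit 2) (nat_lit 44281)
  (nat_lit 9) (node (nat_lit 6) (nat_lit 44281) (nat_lit 10) (node (nat_lit 4) (nat_lit 44281)
  (nat_lit 11) (node (nat_lit 5) (nat_lit 44757) (nat_lit 12) (node (nat_lit 6) (nat_lit 41748)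
  (nat_lit 13) nil nil) (node (nat_lit 6) (nat_lit 44281) (nat_lit 12) nil nil)) nil) (node
  (nat_lit 5) (nat_lit 47783) (nat_lit 10) (node (nat_lit 4) (nat_lit 47783) (nat_lit 11) (node
  (nat_lit 5) (nat_lit 47992) (nat_lit 12) nil nil) nil) (node (nat_lit 4) (nat_lit 44281)
  (nat_lit 10) (node (nat_lit 6) (nat_lit 44281) (nat_lit 11) nil nil) nil))) (node (nat_lit 5)
  (nat_lit 48416) (nat_lit 9) nil nil))) nil))) nil))) (node (nat_lit 6) (nat_lit 0) (nat_lit 6)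
  (node (nat_lit 0) (nat_lit 0) (nat_lit 7) (node (nat_lit 5) (nat_lit 115498) (nat_lit 8) (node
  (nat_lit 10) (nat_lit 116210) (nat_lit 9) nil (node (nat_lit 4) (nat_lit 116210) (nat_lit 9)
  (node (nat_lit 6) (nat_lit 114524) (nat_lit 10) nil (node (nat_lit 5) (nat_lit 116739) (nat_lit
  10) (node (nat_lit 6) (nat_lit 115397) (nat_lit 11) (node (nat_lit 5) (nat_lit 115239) (nat_lit
  12) (node (nat_lit 4) (nat_lit 115221) (nat_lit 13) (node (nat_lit 6) (nat_lit 115488) (nat_lit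
  14) nil nil) nil) nil) nil) nil)) (node (nat_lit 6) (nat_lit 116210) (nat_lit 9) (node (nat_lit
  4) (nat_lit 116739) (nat_lit 10) nil nil) nil))) (node (nat_lit 4) (nat_lit 115898) (nat_lit 8)
  (node (nat_lit 10) (nat_lit 116610) (nat_lit 9) nil (node (nat_lit 6) (nat_lit 116610) (nat_lit
  9) (node (nat_lit 4) (nat_lit 117139) (nat_lit 10) (node (nat_lit 5) (nat_lit 116792) (nat_lit
  11) (node (nat_lit 6) (nat_lit 111261) (nat_lit 12) (node (nat_lit 5) (nat_lit 105112) (nat_lit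
  13) (node (nat_lit 4) (nat_lit 91672) (nat_lit 14) (node (nat_lit 6) (nat_lit 78307) (nat_lit
  15) (node (nat_lit 10) (nat_lit 61538) (nat_lit 16) nil nil) nil) nil) nil) nil) nil) nil) nil))
  (node (nat_lit 6) (nat_lit 115498) (nat_lit 8) (node (nat_lit 5) (nat_lit 116210) (nat_lit 9)
  nil (node (nat_lit 4) (nat_lit 116210) (nat_lit 9) (node (nat_lit 5) (nat_lit 116739) (nat_lit
  10) (node (nat_lit 6) (nat_lit 115397) (nat_lit 11) (node (nat_lit 5) (nat_lit 115239) (nat_lit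
  12) (node (nat_lit 4) (nat_lit 115221) (nat_lit 13) (node (nat_lit 6) (nat_lit 115488) (nat_lit
  14) nil nil) nil) nil) nil) nil) nil)) (node (nat_lit 0) (nat_lit 115898) (nat_lit 8) (node
  (nat_lit 6) (nat_lit 113860) (nat_lit 9) (node (nat_lit 4) (nat_lit 114389) (nat_lit 10) nil
  nil) (node (nat_lit 5) (nat_lit 116610) (nat_lit 9) nil nil)) (node (nat_lit 2) (nat_lit 115498)
  (nat_lit 8) (node (nat_lit 6) (nat_lit 116210) (nat_lit 9) (node (nat_lit 4) (nat_lit 116739)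
  (nat_lit 10) (node (nat_lit 5) (nat_lit 115416) (nat_lit 11) nil nil) (node (nat_lit 5) (nat_lit
  112616) (nat_lit 10) nil nil)) (node (nat_lit 10) (nat_lit 116210) (nat_lit 9) (node (nat_lit 6)
  (nat_lit 114524) (nat_lit 10) nil nil) (node (nat_lit 5) (nat_lit 116210) (nat_lit 9) (node
  (nat_lit 4) (nat_lit 110427) (nat_lit 10) (node (nat_lit 5) (nat_lit 107075) (nat_lit 11) nil
  nil) nil) nil))) nil))))) (node (nat_lit 2) (nat_lit 0) (nat_lit 7) (node (nat_lit 5) (nat_lit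
  112287) (nat_lit 8) (node (nat_lit 10) (nat_lit 112998) (nat_lit 9) (node (nat_lit 6) (nat_lit
  111313) (nat_lit 10) nil nil) (node (nat_lit 4) (nat_lit 113048) (nat_lit 9) (node (nat_lit 5)
  (nat_lit 108933) (nat_lit 10) (node (nat_lit 6) (nat_lit 100981) (nat_lit 11) (node (nat_lit 5)
  (nat_lit 82691) (nat_lit 12) (node (nat_lit 4) (nat_lit 66981) (nat_lit 13) (node (nat_lit 6)
  (nat_lit 64560) (nat_lit 14) nil nil) nil) nil) nil) nil) (node (nat_lit 6) (nat_lit 113929)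
  (nat_lit 9) (node (nat_lit 4) (nat_lit 114458) (nat_lit 10) nil (node (nat_lit 5) (nat_lit
  110335) (nat_lit 10) (node (nat_lit 4) (nat_lit 110227) (nat_lit 11) nil nil) nil)) nil))) (node
  (nat_lit 4) (nat_lit 114922) (nat_lit 8) (node (nat_lit 10) (nat_lit 115633) (nat_lit 9) (node
  (nat_lit 6) (nat_lit 113948) (nat_lit 10) nil (node (nat_lit 5) (nat_lit 112040) (nat_lit 10)
  (node (nat_lit 4) (nat_lit 111931) (nat_lit 11) nil nil) nil)) (node (nat_lit 6) (nat_lit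
  115633) (nat_lit 9) (node (nat_lit 4) (nat_lit 116162) (nat_lit 10) (node (nat_lit 5) (nat_lit
  114358) (nat_lit 11) (node (nat_lit 6) (nat_lit 108827) (nat_lit 12) (node (nat_lit 5) (nat_lit
  102678) (nat_lit 13) (node (nat_lit 4) (nat_lit 89237) (nat_lit 14) (node (nat_lit 6) (nat_lit
  75873) (nat_lit 15) nil nil) nil) nil) nil) nil) nil) nil)) (node (nat_lit 6) (nat_lit 112614)
  (nat_lit 8) (node (nat_lit 5) (nat_lit 113336) (nat_lit 9) nil (node (nat_lit 4) (nat_lit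
  115576) (nat_lit 9) (node (nat_lit 5) (nat_lit 115251) (nat_lit 10) (node (nat_lit 6) (nat_lit
  107654) (nat_lit 11) (node (nat_lit 5) (nat_lit 99226) (nat_lit 12) (node (nat_lit 4) (nat_lit
  85423) (nat_lit 13) (node (nat_lit 6) (nat_lit 51236) (nat_lit 14) nil nil) nil) nil) nil) nil)
  nil)) (node (nat_lit 0) (nat_lit 114421) (nat_lit 8) (node (nat_lit 6) (nat_lit 115132) (nat_lit
  9) (node (nat_lit 4) (nat_lit 115661) (nat_lit 10) nil nil) (node (nat_lit 10) (nat_lit 112383)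
  (nat_lit 9) nil (node (nat_lit 5) (nat_lit 115132) (nat_lit 9) nil nil))) nil)))) (node (nat_lit
  5) (nat_lit 0) (nat_lit 7) (node (nat_lit 0) (nat_lit 114753) (nat_lit 8) (node (nat_lit 5)
  (nat_lit 115464) (nat_lit 9) (node (nat_lit 4) (nat_lit 115993) (nat_lit 10) (node (nat_lit 5)
  (nat_lit 116460) (nat_lit 11) nil nil) nil) (node (nat_lit 6) (nat_lit 115464) (nat_lit 9) (node
  (nat_lit 4) (nat_lit 115993) (nat_lit 10) nil nil) nil)) (node (nat_lit 2) (nat_lit 112193)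
  (nat_lit 8) (node (nat_lit 5) (nat_lit 112853) (nat_lit 9) (node (nat_lit 4) (nat_lit 112197)
  (nat_lit 10) (node (nat_lit 5) (nat_lit 112353) (nat_lit 11) (node (nat_lit 6) (nat_lit 108271)
  (nat_lit 12) nil nil) (node (nat_lit 6) (nat_lit 110855) (nat_lit 11) nil nil)) (node (nat_lit
  6) (nat_lit 111167) (nat_lit 10) nil nil)) (node (nat_lit 6) (nat_lit 112890) (nat_lit 9) (node
  (nat_lit 4) (nat_lit 115283) (nat_lit 10) (node (nat_lit 5) (nat_lit 113940) (nat_lit 11) (node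
  (nat_lit 6) (nat_lit 108820) (nat_lit 12) nil nil) nil) nil) (node (nat_lit 0) (nat_lit 112904)
  (nat_lit 9) nil nil))) (node (nat_lit 6) (nat_lit 0) (nat_lit 8) (node (nat_lit 0) (nat_lit
  113551) (nat_lit 9) (node (nat_lit 5) (nat_lit 114744) (nat_lit 10) nil nil) (node (nat_lit 2)
  (nat_lit 111198) (nat_lit 9) (node (nat_lit 5) (nat_lit 112310) (nat_lit 10) (node (nat_lit 6)
  (nat_lit 111332) (nat_lit 11) nil nil) (node (nat_lit 6) (nat_lit 111875) (nat_lit 10) nil nil))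
  (node (nat_lit 4) (nat_lit 114760) (nat_lit 9) (node (nat_lit 5) (nat_lit 115953) (nat_lit 10)
  nil nil) nil))) nil))) (node (nat_lit 4) (nat_lit 0) (nat_lit 7) (node (nat_lit 0) (nat_lit
  115385) (nat_lit 8) (node (nat_lit 6) (nat_lit 116096) (nat_lit 9) (node (nat_lit 4) (nat_lit
  116625) (nat_lit 10) (node (nat_lit 5) (nat_lit 117092) (nat_lit 11) nil nil) nil) (node
  (nat_lit 5) (nat_lit 116096) (nat_lit 9) nil nil)) (node (nat_lit 2) (nat_lit 114885) (nat_lit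
  8) (node (nat_lit 6) (nat_lit 115414) (nat_lit 9) (node (nat_lit 4) (nat_lit 115574) (nat_lit
  10) (node (nat_lit 5) (nat_lit 112772) (nat_lit 11) nil nil) nil) (node (nat_lit 5) (nat_lit
  115596) (nat_lit 9) nil nil)) (node (nat_lit 5) (nat_lit 0) (nat_lit 8) (node (nat_lit 6)
  (nat_lit 0) (nat_lit 9) (node (nat_lit 4) (nat_lit 87371) (nat_lit 10) (node (nat_lit 6)
  (nat_lit 89423) (nat_lit 11) (node (nat_lit 5) (nat_lit 91056) (nat_lit 12) nil nil) nil) (node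
  (nat_lit 5) (nat_lit 72793) (nat_lit 10) nil (node (nat_lit 0) (nat_lit 87267) (nat_lit 10) nil
  (node (nat_lit 2) (nat_lit 85702) (nat_lit 10) nil nil)))) (node (nat_lit 0) (nat_lit 112190)
  (nat_lit 9) (node (nat_lit 6) (nat_lit 114675) (nat_lit 10) nil nil) (node (nat_lit 2) (nat_lit
  110829) (nat_lit 9) (node (nat_lit 5) (nat_lit 113513) (nat_lit 10) nil (node (nat_lit 6)
  (nat_lit 112596) (nat_lit 10) nil nil)) nil))) nil))) nil)))) (node (nat_lit 0) (nat_lit 0)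
  (nat_lit 6) (node (nat_lit 5) (nat_lit 112523) (nat_lit 7) (node (nat_lit 4) (nat_lit 114397)
  (nat_lit 8) (node (nat_lit 5) (nat_lit 115379) (nat_lit 9) (node (nat_lit 6) (nat_lit 113693)
  (nat_lit 10) (node (nat_lit 5) (nat_lit 113410) (nat_lit 11) (node (nat_lit 4) (nat_lit 113273)
  (nat_lit 12) nil nil) nil) nil) nil) (node (nat_lit 6) (nat_lit 114667) (nat_lit 8) (node
  (nat_lit 4) (nat_lit 115379) (nat_lit 9) (node (nat_lit 5) (nat_lit 115908) (nat_lit 10) nil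
  nil) nil) nil)) (node (nat_lit 6) (nat_lit 112523) (nat_lit 7) (node (nat_lit 5) (nat_lit
  114667) (nat_lit 8) (node (nat_lit 4) (nat_lit 116698) (nat_lit 9) nil nil) (node (nat_lit 4)
  (nat_lit 114667) (nat_lit 8) (node (nat_lit 5) (nat_lit 115379) (nat_lit 9) (node (nat_lit 6)
  (nat_lit 113693) (nat_lit 10) (node (nat_lit 5) (nat_lit 113410) (nat_lit 11) (node (nat_lit 4)
  (nat_lit 113273) (nat_lit 12) nil nil) nil) nil) nil) nil)) (node (nat_lit 4) (nat_lit 113492)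
  (nat_lit 7) (node (nat_lit 6) (nat_lit 115636) (nat_lit 8) (node (nat_lit 5) (nat_lit 116347)
  (nat_lit 9) (node (nat_lit 4) (nat_lit 110565) (nat_lit 10) nil nil) (node (nat_lit 4) (nat_lit
  116347) (nat_lit 9) (node (nat_lit 5) (nat_lit 113386) (nat_lit 10) (node (nat_lit 6) (nat_lit
  107538) (nat_lit 11) nil nil) nil) nil)) nil) (node (nat_lit 0) (nat_lit 113380) (nat_lit 7)
  (node (nat_lit 6) (nat_lit 115524) (nat_lit 8) nil (node (nat_lit 5) (nat_lit 115524) (nat_lit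
  8) nil nil)) (node (nat_lit 2) (nat_lit 112523) (nat_lit 7) (node (nat_lit 6) (nat_lit 114667)
  (nat_lit 8) (node (nat_lit 4) (nat_lit 114124) (nat_lit 9) (node (nat_lit 5) (nat_lit 109380)
  (nat_lit 10) nil nil) (node (nat_lit 5) (nat_lit 110314) (nat_lit 9) nil nil)) (node (nat_lit 5)
  (nat_lit 114667) (nat_lit 8) (node (nat_lit 4) (nat_lit 106142) (nat_lit 9) nil nil) nil))
  nil))))) (node (nat_lit 2) (nat_lit 0) (nat_lit 6) (node (nat_lit 5) (nat_lit 110629) (nat_lit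
  7) (node (nat_lit 4) (nat_lit 115306) (nat_lit 8) (node (nat_lit 5) (nat_lit 107853) (nat_lit 9)
  (node (nat_lit 6) (nat_lit 99191) (nat_lit 10) (node (nat_lit 5) (nat_lit 66981) (nat_lit 11)
  (node (nat_lit 4) (nat_lit 66981) (nat_lit 12) nil nil) nil) nil) nil) (node (nat_lit 6)
  (nat_lit 112773) (nat_lit 8) (node (nat_lit 4) (nat_lit 113485) (nat_lit 9) (node (nat_lit 5)
  (nat_lit 114014) (nat_lit 10) nil nil) nil) (node (nat_lit 9) (nat_lit 112773) (nat_lit 8) nil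
  nil))) (node (nat_lit 6) (nat_lit 110545) (nat_lit 7) (node (nat_lit 5) (nat_lit 112689)
  (nat_lit 8) (node (nat_lit 4) (nat_lit 114555) (nat_lit 9) (node (nat_lit 5) (nat_lit 101778)
  (nat_lit 10) (node (nat_lit 6) (nat_lit 98533) (nat_lit 11) nil nil) nil) nil) (node (nat_lit 9)
  (nat_lit 112689) (nat_lit 8) nil (node (nat_lit 4) (nat_lit 112689) (nat_lit 8) (node (nat_lit
  5) (nat_lit 111346) (nat_lit 9) (node (nat_lit 6) (nat_lit 90772) (nat_lit 10) (node (nat_lit 5)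
  (nat_lit 60335) (nat_lit 11) (node (nat_lit 4) (nat_lit 60198) (nat_lit 12) nil nil) nil) nil)
  nil) nil))) (node (nat_lit 4) (nat_lit 112670) (nat_lit 7) (node (nat_lit 6) (nat_lit 114814)
  (nat_lit 8) nil (node (nat_lit 5) (nat_lit 114814) (nat_lit 8) nil nil)) (node (nat_lit 0)
  (nat_lit 112313) (nat_lit 7) (node (nat_lit 6) (nat_lit 114457) (nat_lit 8) nil (node (nat_lit
  5) (nat_lit 114457) (nat_lit 8) (node (nat_lit 4) (nat_lit 115168) (nat_lit 9) nil nil) (node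
  (nat_lit 4) (nat_lit 114457) (nat_lit 8) nil nil))) nil)))) nil))))

noncomputable def t190 : Tr :=
  (node (nat_lit 5) (nat_lit 0) (nat_lit 5) (node (nat_lit 7) (nat_lit 0) (nat_lit 6) (node
  (nat_lit 0) (nat_lit 46324) (nat_lit 7) (node (nat_lit 4) (nat_lit 46324) (nat_lit 8) (node
  (nat_lit 7) (nat_lit 46324) (nat_lit 9) (node (nat_lit 4) (nat_lit 46324) (nat_lit 10) (node
  (nat_lit 5) (nat_lit 46998) (nat_lit 11) (node (nat_lit 4) (nat_lit 43043) (nat_lit 12) (node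
  (nat_lit 7) (nat_lit 34749) (nat_lit 13) (node (nat_lit 5) (nat_lit 22335) (nat_lit 14) nil nil)
  nil) nil) nil) nil) nil) (node (nat_lit 7) (nat_lit 46324) (nat_lit 8) (node (nat_lit 4)
  (nat_lit 46324) (nat_lit 9) (node (nat_lit 5) (nat_lit 46888) (nat_lit 10) nil nil) nil) nil))
  (node (nat_lit 4) (nat_lit 0) (nat_lit 7) (node (nat_lit 0) (nat_lit 45975) (nat_lit 8) nil
  (node (nat_lit 2) (nat_lit 42893) (nat_lit 8) (node (nat_lit 4) (nat_lit 42893) (nat_lit 9) nil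
  (node (nat_lit 7) (nat_lit 42344) (nat_lit 9) nil nil)) (node (nat_lit 5) (nat_lit 46802)
  (nat_lit 8) nil (node (nat_lit 7) (nat_lit 41335) (nat_lit 8) nil nil)))) (node (nat_lit 2)
  (nat_lit 0) (nat_lit 7) (node (nat_lit 4) (nat_lit 42654) (nat_lit 8) (node (nat_lit 5) (nat_lit
  44955) (nat_lit 9) (node (nat_lit 7) (nat_lit 44955) (nat_lit 10) (node (nat_lit 4) (nat_lit
  44955) (nat_lit 11) nil nil) nil) (node (nat_lit 7) (nat_lit 42654) (nat_lit 9) (node (nat_lit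
  4) (nat_lit 43529) (nat_lit 10) (node (nat_lit 5) (nat_lit 42055) (nat_lit 11) (node (nat_lit 4)
  (nat_lit 37017) (nat_lit 12) (node (nat_lit 7) (nat_lit 28402) (nat_lit 13) (node (nat_lit 5)
  (nat_lit 22301) (nat_lit 14) nil nil) nil) nil) nil) nil) nil)) (node (nat_lit 5) (nat_lit
  46961) (nat_lit 8) nil (node (nat_lit 0) (nat_lit 44683) (nat_lit 8) nil (node (nat_lit 7)
  (nat_lit 43332) (nat_lit 8) (node (nat_lit 4) (nat_lit 43332) (nat_lit 9) (node (nat_lit 5)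
  (nat_lit 42587) (nat_lit 10) (node (nat_lit 4) (nat_lit 29862) (nat_lit 11) nil nil) nil) nil)
  nil)))) nil))) (node (nat_lit 4) (nat_lit 0) (nat_lit 6) (node (nat_lit 0) (nat_lit 0) (nat_lit
  7) (node (nat_lit 7) (nat_lit 47618) (nat_lit 8) (node (nat_lit 10) (nat_lit 48164) (nat_lit 9)
  (node (nat_lit 4) (nat_lit 48164) (nat_lit 10) (node (nat_lit 7) (nat_lit 48164) (nat_lit 11)
  (node (nat_lit 4) (nat_lit 48164) (nat_lit 12) (node (nat_lit 5) (nat_lit 48569) (nat_lit 13)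
  nil nil) nil) nil) (node (nat_lit 5) (nat_lit 48305) (nat_lit 10) (node (nat_lit 7) (nat_lit
  48305) (nat_lit 11) (node (nat_lit 4) (nat_lit 48305) (nat_lit 12) (node (nat_lit 5) (nat_lit
  48569) (nat_lit 13) (node (nat_lit 4) (nat_lit 48569) (nat_lit 14) nil nil) nil) nil) nil) nil))
  (node (nat_lit 4) (nat_lit 47618) (nat_lit 9) (node (nat_lit 5) (nat_lit 48305) (nat_lit 10)
  (node (nat_lit 4) (nat_lit 48305) (nat_lit 11) (node (nat_lit 7) (nat_lit 48305) (nat_lit 12)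
  nil nil) nil) nil) (node (nat_lit 5) (nat_lit 48164) (nat_lit 9) (node (nat_lit 7) (nat_lit
  48164) (nat_lit 10) (node (nat_lit 4) (nat_lit 48164) (nat_lit 11) (node (nat_lit 5) (nat_lit
  48502) (nat_lit 12) nil nil) nil) nil) nil))) (node (nat_lit 5) (nat_lit 48511) (nat_lit 8)
  (node (nat_lit 10) (nat_lit 48911) (nat_lit 9) (node (nat_lit 4) (nat_lit 48911) (nat_lit 10)
  (node (nat_lit 7) (nat_lit 48911) (nat_lit 11) (node (nat_lit 4) (nat_lit 48911) (nat_lit 12)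
  nil nil) (node (nat_lit 5) (nat_lit 49087) (nat_lit 11) (node (nat_lit 7) (nat_lit 49087)
  (nat_lit 12) (node (nat_lit 4) (nat_lit 49087) (nat_lit 13) nil nil) nil) nil)) (node (nat_lit
  7) (nat_lit 48911) (nat_lit 10) (node (nat_lit 4) (nat_lit 48911) (nat_lit 11) (node (nat_lit 5)
  (nat_lit 49137) (nat_lit 12) nil nil) nil) nil)) (node (nat_lit 7) (nat_lit 48511) (nat_lit 9)
  (node (nat_lit 4) (nat_lit 48511) (nat_lit 10) (node (nat_lit 5) (nat_lit 48944) (nat_lit 11)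
  (node (nat_lit 4) (nat_lit 48944) (nat_lit 12) (node (nat_lit 7) (nat_lit 48944) (nat_lit 13)
  (node (nat_lit 5) (nat_lit 49150) (nat_lit 14) nil nil) nil) nil) nil) nil) (node (nat_lit 4)
  (nat_lit 48511) (nat_lit 9) (node (nat_lit 7) (nat_lit 48511) (nat_lit 10) (node (nat_lit 4)
  (nat_lit 48511) (nat_lit 11) nil nil) (node (nat_lit 5) (nat_lit 48834) (nat_lit 10) (node
  (nat_lit 7) (nat_lit 48834) (nat_lit 11) (node (nat_lit 4) (nat_lit 48834) (nat_lit 12) nil nil)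
  nil) nil)) nil))) (node (nat_lit 4) (nat_lit 0) (nat_lit 8) (node (nat_lit 7) (nat_lit 47498)
  (nat_lit 9) (node (nat_lit 4) (nat_lit 47498) (nat_lit 10) (node (nat_lit 5) (nat_lit 48415)
  (nat_lit 11) nil nil) nil) (node (nat_lit 5) (nat_lit 48660) (nat_lit 9) (node (nat_lit 7)
  (nat_lit 48660) (nat_lit 10) (node (nat_lit 4) (nat_lit 48660) (nat_lit 11) nil nil) nil) (node
  (nat_lit 0) (nat_lit 48660) (nat_lit 9) nil (node (nat_lit 2) (nat_lit 47606) (nat_lit 9) nil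
  nil)))) (node (nat_lit 0) (nat_lit 48425) (nat_lit 8) (node (nat_lit 10) (nat_lit 48607)
  (nat_lit 9) (node (nat_lit 7) (nat_lit 48607) (nat_lit 10) (node (nat_lit 4) (nat_lit 48607)
  (nat_lit 11) nil nil) nil) (node (nat_lit 4) (nat_lit 48425) (nat_lit 9) (node (nat_lit 7)
  (nat_lit 48425) (nat_lit 10) nil nil) (node (nat_lit 5) (nat_lit 48607) (nat_lit 9) (node
  (nat_lit 7) (nat_lit 48607) (nat_lit 10) nil nil) (node (nat_lit 7) (nat_lit 48425) (nat_lit 9)
  (node (nat_lit 4) (nat_lit 48425) (nat_lit 10) nil nil) nil)))) (node (nat_lit 2) (nat_lit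
  47618) (nat_lit 8) (node (nat_lit 10) (nat_lit 48164) (nat_lit 9) (node (nat_lit 4) (nat_lit
  48164) (nat_lit 10) (node (nat_lit 7) (nat_lit 48164) (nat_lit 11) nil nil) (node (nat_lit 7)
  (nat_lit 48164) (nat_lit 10) (node (nat_lit 4) (nat_lit 48164) (nat_lit 11) nil nil) nil)) (node
  (nat_lit 4) (nat_lit 47618) (nat_lit 9) (node (nat_lit 7) (nat_lit 47618) (nat_lit 10) (node
  (nat_lit 4) (nat_lit 47618) (nat_lit 11) nil nil) nil) (node (nat_lit 5) (nat_lit 48164)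
  (nat_lit 9) (node (nat_lit 7) (nat_lit 48164) (nat_lit 10) nil nil) (node (nat_lit 7) (nat_lit
  47618) (nat_lit 9) (node (nat_lit 4) (nat_lit 47618) (nat_lit 10) nil nil) nil)))) nil)))))
  (node (nat_lit 2) (nat_lit 0) (nat_lit 7) (node (nat_lit 7) (nat_lit 0) (nat_lit 8) (node
  (nat_lit 10) (nat_lit 0) (nat_lit 9) (node (nat_lit 4) (nat_lit 44261) (nat_lit 10) (node
  (nat_lit 7) (nat_lit 44261) (nat_lit 11) (node (nat_lit 4) (nat_lit 44261) (nat_lit 12) (node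
  (nat_lit 5) (nat_lit 45841) (nat_lit 13) (node (nat_lit 4) (nat_lit 39840) (nat_lit 14) (node
  (nat_lit 7) (nat_lit 35798) (nat_lit 15) (node (nat_lit 5) (nat_lit 32355) (nat_lit 16) (node
  (nat_lit 4) (nat_lit 33082) (nat_lit 17) nil nil) nil) nil) nil) nil) (node (nat_lit 5) (nat_lit
  45774) (nat_lit 12) nil nil)) (node (nat_lit 5) (nat_lit 45687) (nat_lit 11) (node (nat_lit 7)
  (nat_lit 45687) (nat_lit 12) nil nil) (node (nat_lit 10) (nat_lit 44261) (nat_lit 11) (node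
  (nat_lit 7) (nat_lit 44261) (nat_lit 12) nil nil) nil))) (node (nat_lit 5) (nat_lit 46889)
  (nat_lit 10) (node (nat_lit 7) (nat_lit 46889) (nat_lit 11) (node (nat_lit 4) (nat_lit 46889)
  (nat_lit 12) (node (nat_lit 5) (nat_lit 47032) (nat_lit 13) (node (nat_lit 4) (nat_lit 47032)
  (nat_lit 14) nil nil) nil) nil) nil) (node (nat_lit 0) (nat_lit 46889) (nat_lit 10) nil nil)))
  (node (nat_lit 4) (nat_lit 44261) (nat_lit 9) (node (nat_lit 10) (nat_lit 44261) (nat_lit 10)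
  (node (nat_lit 4) (nat_lit 44261) (nat_lit 11) (node (nat_lit 7) (nat_lit 44261) (nat_lit 12)
  (node (nat_lit 4) (nat_lit 44695) (nat_lit 13) (node (nat_lit 5) (nat_lit 44613) (nat_lit 14)
  nil nil) nil) nil) nil) (node (nat_lit 5) (nat_lit 45577) (nat_lit 10) (node (nat_lit 4)
  (nat_lit 36061) (nat_lit 11) (node (nat_lit 7) (nat_lit 28341) (nat_lit 12) nil nil) nil) (node
  (nat_lit 7) (nat_lit 44261) (nat_lit 10) (node (nat_lit 5) (nat_lit 45687) (nat_lit 11) nil nil)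
  nil))) (node (nat_lit 5) (nat_lit 47795) (nat_lit 9) (node (nat_lit 7) (nat_lit 47795) (nat_lit
  10) (node (nat_lit 4) (nat_lit 47795) (nat_lit 11) (node (nat_lit 5) (nat_lit 48129) (nat_lit
  12) (node (nat_lit 4) (nat_lit 48129) (nat_lit 13) (node (nat_lit 7) (nat_lit 48129) (nat_lit
  14) nil nil) nil) nil) nil) (node (nat_lit 4) (nat_lit 47795) (nat_lit 10) (node (nat_lit 7)
  (nat_lit 47795) (nat_lit 11) nil nil) nil)) (node (nat_lit 0) (nat_lit 46762) (nat_lit 9) (node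
  (nat_lit 7) (nat_lit 46762) (nat_lit 10) nil nil) nil)))) (node (nat_lit 5) (nat_lit 0) (nat_lit
  8) (node (nat_lit 10) (nat_lit 48131) (nat_lit 9) (node (nat_lit 4) (nat_lit 48131) (nat_lit 10)
  (node (nat_lit 7) (nat_lit 48131) (nat_lit 11) (node (nat_lit 4) (nat_lit 48131) (nat_lit 12)
  nil nil) (node (nat_lit 5) (nat_lit 48564) (nat_lit 11) (node (nat_lit 7) (nat_lit 48564)
  (nat_lit 12) (node (nat_lit 4) (nat_lit 48564) (nat_lit 13) nil nil) nil) nil)) (node (nat_lit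
  7) (nat_lit 48131) (nat_lit 10) (node (nat_lit 4) (nat_lit 48131) (nat_lit 11) (node (nat_lit 5)
  (nat_lit 48651) (nat_lit 12) nil nil) nil) nil)) (node (nat_lit 7) (nat_lit 48131) (nat_lit 9)
  (node (nat_lit 4) (nat_lit 48131) (nat_lit 10) (node (nat_lit 5) (nat_lit 48564) (nat_lit 11)
  (node (nat_lit 4) (nat_lit 48564) (nat_lit 12) (node (nat_lit 7) (nat_lit 48564) (nat_lit 13)
  (node (nat_lit 5) (nat_lit 48770) (nat_lit 14) nil nil) nil) nil) nil) nil) (node (nat_lit 4)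
  (nat_lit 48131) (nat_lit 9) (node (nat_lit 7) (nat_lit 48131) (nat_lit 10) (node (nat_lit 4)
  (nat_lit 48131) (nat_lit 11) nil nil) (node (nat_lit 5) (nat_lit 48454) (nat_lit 10) (node
  (nat_lit 7) (nat_lit 48454) (nat_lit 11) (node (nat_lit 4) (nat_lit 48454) (nat_lit 12) nil nil)
  nil) nil)) (node (nat_lit 0) (nat_lit 48313) (nat_lit 9) nil nil)))) (node (nat_lit 0) (nat_lit
  48131) (nat_lit 8) (node (nat_lit 10) (nat_lit 48131) (nat_lit 9) (node (nat_lit 4) (nat_lit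
  48131) (nat_lit 10) (node (nat_lit 7) (nat_lit 48131) (nat_lit 11) nil nil) (node (nat_lit 7)
  (nat_lit 48131) (nat_lit 10) (node (nat_lit 4) (nat_lit 48131) (nat_lit 11) nil nil) nil)) (node
  (nat_lit 4) (nat_lit 48131) (nat_lit 9) (node (nat_lit 7) (nat_lit 48131) (nat_lit 10) nil nil)
  (node (nat_lit 5) (nat_lit 48313) (nat_lit 9) (node (nat_lit 7) (nat_lit 48313) (nat_lit 10) nil
  nil) (node (nat_lit 7) (nat_lit 48131) (nat_lit 9) (node (nat_lit 4) (nat_lit 48131) (nat_lit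
  10) nil nil) nil)))) (node (nat_lit 4) (nat_lit 0) (nat_lit 8) (node (nat_lit 7) (nat_lit 44261)
  (nat_lit 9) (node (nat_lit 5) (nat_lit 46544) (nat_lit 10) nil (node (nat_lit 4) (nat_lit 44261)
  (nat_lit 10) (node (nat_lit 5) (nat_lit 45687) (nat_lit 11) (node (nat_lit 4) (nat_lit 33875)
  (nat_lit 12) nil nil) nil) nil)) (node (nat_lit 5) (nat_lit 48197) (nat_lit 9) (node (nat_lit 7)
  (nat_lit 48197) (nat_lit 10) (node (nat_lit 4) (nat_lit 48197) (nat_lit 11) nil nil) nil) (node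
  (nat_lit 0) (nat_lit 47940) (nat_lit 9) (node (nat_lit 7) (nat_lit 47940) (nat_lit 10) nil nil)
  nil))) nil)))) (node (nat_lit 5) (nat_lit 0) (nat_lit 7) (node (nat_lit 0) (nat_lit 0) (nat_lit
  8) (node (nat_lit 5) (nat_lit 48768) (nat_lit 9) (node (nat_lit 7) (nat_lit 48768) (nat_lit 10)
  (node (nat_lit 4) (nat_lit 48768) (nat_lit 11) (node (nat_lit 5) (nat_lit 48932) (nat_lit 12)
  (node (nat_lit 4) (nat_lit 48932) (nat_lit 13) nil nil) nil) nil) (node (nat_lit 4) (nat_lit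
  48768) (nat_lit 10) (node (nat_lit 7) (nat_lit 48768) (nat_lit 11) (node (nat_lit 4) (nat_lit
  48768) (nat_lit 12) nil nil) nil) nil)) (node (nat_lit 4) (nat_lit 48368) (nat_lit 9) (node
  (nat_lit 7) (nat_lit 48368) (nat_lit 10) (node (nat_lit 4) (nat_lit 48368) (nat_lit 11) (node
  (nat_lit 5) (nat_lit 48888) (nat_lit 12) nil nil) nil) nil) (node (nat_lit 7) (nat_lit 48368)
  (nat_lit 9) (node (nat_lit 4) (nat_lit 48368) (nat_lit 10) (node (nat_lit 5) (nat_lit 48802)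
  (nat_lit 11) nil nil) nil) (node (nat_lit 2) (nat_lit 48368) (nat_lit 9) nil (node (nat_lit 0)
  (nat_lit 48550) (nat_lit 9) nil nil))))) (node (nat_lit 2) (nat_lit 0) (nat_lit 8) (node
  (nat_lit 5) (nat_lit 48406) (nat_lit 9) (node (nat_lit 7) (nat_lit 48406) (nat_lit 10) (node
  (nat_lit 4) (nat_lit 48406) (nat_lit 11) (node (nat_lit 5) (nat_lit 48626) (nat_lit 12) (node
  (nat_lit 4) (nat_lit 48626) (nat_lit 13) (node (nat_lit 7) (nat_lit 48626) (nat_lit 14) nil nil)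
  nil) nil) nil) (node (nat_lit 4) (nat_lit 48406) (nat_lit 10) (node (nat_lit 7) (nat_lit 48406)
  (nat_lit 11) (node (nat_lit 4) (nat_lit 48406) (nat_lit 12) nil nil) nil) nil)) (node (nat_lit
  4) (nat_lit 47126) (nat_lit 9) (node (nat_lit 7) (nat_lit 47126) (nat_lit 10) (node (nat_lit 4)
  (nat_lit 47126) (nat_lit 11) (node (nat_lit 5) (nat_lit 48054) (nat_lit 12) nil nil) nil) (node
  (nat_lit 5) (nat_lit 47857) (nat_lit 10) nil nil)) (node (nat_lit 7) (nat_lit 47129) (nat_lit 9)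
  (node (nat_lit 4) (nat_lit 47129) (nat_lit 10) (node (nat_lit 5) (nat_lit 47968) (nat_lit 11)
  nil nil) (node (nat_lit 5) (nat_lit 47857) (nat_lit 10) nil nil)) (node (nat_lit 0) (nat_lit
  48406) (nat_lit 9) nil nil)))) (node (nat_lit 7) (nat_lit 0) (nat_lit 8) (node (nat_lit 0)
  (nat_lit 48118) (nat_lit 9) (node (nat_lit 5) (nat_lit 48657) (nat_lit 10) (node (nat_lit 7)
  (nat_lit 48657) (nat_lit 11) (node (nat_lit 4) (nat_lit 48657) (nat_lit 12) (node (nat_lit 5)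
  (nat_lit 48971) (nat_lit 13) nil nil) nil) nil) (node (nat_lit 7) (nat_lit 48118) (nat_lit 10)
  nil nil)) (node (nat_lit 2) (nat_lit 46096) (nat_lit 9) (node (nat_lit 5) (nat_lit 48211)
  (nat_lit 10) (node (nat_lit 7) (nat_lit 48211) (nat_lit 11) (node (nat_lit 4) (nat_lit 48211)
  (nat_lit 12) (node (nat_lit 5) (nat_lit 48530) (nat_lit 13) nil nil) nil) nil) (node (nat_lit 4)
  (nat_lit 46096) (nat_lit 10) (node (nat_lit 7) (nat_lit 46096) (nat_lit 11) nil nil) (node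
  (nat_lit 7) (nat_lit 46096) (nat_lit 10) nil nil))) (node (nat_lit 4) (nat_lit 46096) (nat_lit
  9) (node (nat_lit 5) (nat_lit 48832) (nat_lit 10) (node (nat_lit 4) (nat_lit 48832) (nat_lit 11)
  (node (nat_lit 7) (nat_lit 48832) (nat_lit 12) nil nil) nil) nil) nil))) nil))) nil))) (node
  (nat_lit 0) (nat_lit 45180) (nat_lit 6) (node (nat_lit 4) (nat_lit 45180) (nat_lit 7) nil nil)
  (node (nat_lit 2) (nat_lit 0) (nat_lit 6) (node (nat_lit 7) (nat_lit 43465) (nat_lit 7) (node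
  (nat_lit 4) (nat_lit 42741) (nat_lit 8) (node (nat_lit 5) (nat_lit 41328) (nat_lit 9) nil nil)
  nil) (node (nat_lit 4) (nat_lit 42693) (nat_lit 7) (node (nat_lit 7) (nat_lit 42693) (nat_lit 8)
  (node (nat_lit 4) (nat_lit 42693) (nat_lit 9) (node (nat_lit 5) (nat_lit 41865) (nat_lit 10) nil
  nil) nil) (node (nat_lit 5) (nat_lit 45254) (nat_lit 8) (node (nat_lit 7) (nat_lit 45254)
  (nat_lit 9) nil nil) nil)) (node (nat_lit 5) (nat_lit 46324) (nat_lit 7) (node (nat_lit 7)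
  (nat_lit 46324) (nat_lit 8) nil nil) (node (nat_lit 0) (nat_lit 45014) (nat_lit 7) (node
  (nat_lit 7) (nat_lit 45014) (nat_lit 8) nil nil) nil)))) nil)))) (node (nat_lit 4) (nat_lit 0)
  (nat_lit 5) (node (nat_lit 5) (nat_lit 0) (nat_lit 6) (node (nat_lit 0) (nat_lit 0) (nat_lit 7)
  (node (nat_lit 7) (nat_lit 26622) (nat_lit 8) (node (nat_lit 10) (nat_lit 27769) (nat_lit 9) nil
  (node (nat_lit 4) (nat_lit 26622) (nat_lit 9) (node (nat_lit 5) (nat_lit 27935) (nat_lit 10)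
  (node (nat_lit 4) (nat_lit 27480) (nat_lit 11) nil nil) nil) nil)) (node (nat_lit 4) (nat_lit
  26622) (nat_lit 8) (node (nat_lit 10) (nat_lit 27769) (nat_lit 9) (node (nat_lit 7) (nat_lit
  27769) (nat_lit 10) (node (nat_lit 4) (nat_lit 27769) (nat_lit 11) (node (nat_lit 5) (nat_lit
  28214) (nat_lit 12) (node (nat_lit 4) (nat_lit 28214) (nat_lit 13) (node (nat_lit 7) (nat_lit
  28214) (nat_lit 14) nil nil) nil) nil) nil) nil) (node (nat_lit 7) (nat_lit 26622) (nat_lit 9)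
  (node (nat_lit 4) (nat_lit 25138) (nat_lit 10) (node (nat_lit 5) (nat_lit 23503) (nat_lit 11)
  (node (nat_lit 4) (nat_lit 13618) (nat_lit 12) nil nil) nil) nil) nil)) (node (nat_lit 0)
  (nat_lit 27329) (nat_lit 8) (node (nat_lit 10) (nat_lit 28007) (nat_lit 9) nil (node (nat_lit 7)
  (nat_lit 27615) (nat_lit 9) (node (nat_lit 4) (nat_lit 27615) (nat_lit 10) nil nil) nil)) (node
  (nat_lit 2) (nat_lit 25609) (nat_lit 8) (node (nat_lit 10) (nat_lit 26581) (nat_lit 9) (node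
  (nat_lit 7) (nat_lit 27049) (nat_lit 10) (node (nat_lit 4) (nat_lit 27463) (nat_lit 11) nil nil)
  nil) (node (nat_lit 7) (nat_lit 23594) (nat_lit 9) (node (nat_lit 4) (nat_lit 22091) (nat_lit
  10) (node (nat_lit 5) (nat_lit 20192) (nat_lit 11) nil nil) nil) (node (nat_lit 5) (nat_lit
  26581) (nat_lit 9) (node (nat_lit 7) (nat_lit 27049) (nat_lit 10) nil nil) (node (nat_lit 4)
  (nat_lit 24282) (nat_lit 9) (node (nat_lit 7) (nat_lit 24346) (nat_lit 10) nil nil) nil))))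
  (node (nat_lit 5) (nat_lit 27652) (nat_lit 8) (node (nat_lit 7) (nat_lit 27786) (nat_lit 9)
  (node (nat_lit 4) (nat_lit 27786) (nat_lit 10) (node (nat_lit 5) (nat_lit 28490) (nat_lit 11)
  (node (nat_lit 4) (nat_lit 28490) (nat_lit 12) nil nil) nil) nil) nil) nil))))) (node (nat_lit
  2) (nat_lit 0) (nat_lit 7) (node (nat_lit 7) (nat_lit 25357) (nat_lit 8) (node (nat_lit 10)
  (nat_lit 25357) (nat_lit 9) (node (nat_lit 5) (nat_lit 27591) (nat_lit 10) (node (nat_lit 7)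
  (nat_lit 27591) (nat_lit 11) nil nil) (node (nat_lit 4) (nat_lit 24818) (nat_lit 10) nil nil))
  (node (nat_lit 5) (nat_lit 27411) (nat_lit 9) (node (nat_lit 7) (nat_lit 27425) (nat_lit 10)
  (node (nat_lit 4) (nat_lit 27425) (nat_lit 11) (node (nat_lit 5) (nat_lit 27869) (nat_lit 12)
  (node (nat_lit 4) (nat_lit 27869) (nat_lit 13) nil nil) nil) nil) nil) (node (nat_lit 4)
  (nat_lit 25357) (nat_lit 9) (node (nat_lit 5) (nat_lit 23701) (nat_lit 10) (node (nat_lit 4)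
  (nat_lit 4844) (nat_lit 11) nil (node (nat_lit 7) (nat_lit 24234) (nat_lit 11) nil nil)) (node
  (nat_lit 7) (nat_lit 26278) (nat_lit 10) nil nil)) nil))) (node (nat_lit 4) (nat_lit 25485)
  (nat_lit 8) (node (nat_lit 10) (nat_lit 25485) (nat_lit 9) (node (nat_lit 7) (nat_lit 26406)
  (nat_lit 10) (node (nat_lit 4) (nat_lit 24421) (nat_lit 11) (node (nat_lit 5) (nat_lit 23330)
  (nat_lit 12) (node (nat_lit 4) (nat_lit 18837) (nat_lit 13) (node (nat_lit 7) (nat_lit 14221)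
  (nat_lit 14) nil nil) nil) nil) nil) (node (nat_lit 5) (nat_lit 27244) (nat_lit 10) (node
  (nat_lit 7) (nat_lit 27719) (nat_lit 11) (node (nat_lit 4) (nat_lit 27719) (nat_lit 12) nil nil)
  nil) nil)) (node (nat_lit 7) (nat_lit 25485) (nat_lit 9) (node (nat_lit 4) (nat_lit 26406)
  (nat_lit 10) (node (nat_lit 5) (nat_lit 23503) (nat_lit 11) (node (nat_lit 4) (nat_lit 13618)
  (nat_lit 12) nil nil) nil) nil) (node (nat_lit 5) (nat_lit 28316) (nat_lit 9) nil nil))) (node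
  (nat_lit 0) (nat_lit 27241) (nat_lit 8) (node (nat_lit 10) (nat_lit 25326) (nat_lit 9) nil (node
  (nat_lit 7) (nat_lit 27241) (nat_lit 9) (node (nat_lit 4) (nat_lit 27241) (nat_lit 10) nil nil)
  (node (nat_lit 5) (nat_lit 27633) (nat_lit 9) (node (nat_lit 7) (nat_lit 27633) (nat_lit 10) nil
  nil) (node (nat_lit 4) (nat_lit 25326) (nat_lit 9) (node (nat_lit 7) (nat_lit 25374) (nat_lit
  10) nil nil) nil)))) (node (nat_lit 5) (nat_lit 26809) (nat_lit 8) (node (nat_lit 7) (nat_lit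
  27771) (nat_lit 9) (node (nat_lit 4) (nat_lit 27786) (nat_lit 10) (node (nat_lit 5) (nat_lit
  28490) (nat_lit 11) (node (nat_lit 4) (nat_lit 27828) (nat_lit 12) nil nil) nil) nil) nil)
  nil)))) (node (nat_lit 7) (nat_lit 0) (nat_lit 7) (node (nat_lit 0) (nat_lit 27329) (nat_lit 8)
  (node (nat_lit 7) (nat_lit 27349) (nat_lit 9) (node (nat_lit 4) (nat_lit 27349) (nat_lit 10)
  (node (nat_lit 5) (nat_lit 28053) (nat_lit 11) (node (nat_lit 4) (nat_lit 28053) (nat_lit 12)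
  (node (nat_lit 7) (nat_lit 28053) (nat_lit 13) nil nil) nil) nil) nil) nil) (node (nat_lit 2)
  (nat_lit 24131) (nat_lit 8) (node (nat_lit 7) (nat_lit 24475) (nat_lit 9) (node (nat_lit 4)
  (nat_lit 25396) (nat_lit 10) (node (nat_lit 5) (nat_lit 23028) (nat_lit 11) (node (nat_lit 4)
  (nat_lit 18152) (nat_lit 12) nil nil) nil) nil) (node (nat_lit 5) (nat_lit 26962) (nat_lit 9)
  (node (nat_lit 7) (nat_lit 26962) (nat_lit 10) nil nil) (node (nat_lit 4) (nat_lit 23357)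
  (nat_lit 9) (node (nat_lit 7) (nat_lit 24278) (nat_lit 10) (node (nat_lit 4) (nat_lit 24201)
  (nat_lit 11) nil nil) nil) nil))) (node (nat_lit 4) (nat_lit 0) (nat_lit 8) (node (nat_lit 0)
  (nat_lit 24934) (nat_lit 9) (node (nat_lit 7) (nat_lit 26482) (nat_lit 10) (node (nat_lit 4)
  (nat_lit 26705) (nat_lit 11) (node (nat_lit 5) (nat_lit 27720) (nat_lit 12) nil nil) nil) nil)
  (node (nat_lit 2) (nat_lit 24225) (nat_lit 9) (node (nat_lit 7) (nat_lit 25216) (nat_lit 10)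
  (node (nat_lit 4) (nat_lit 24985) (nat_lit 11) (node (nat_lit 5) (nat_lit 24736) (nat_lit 12)
  (node (nat_lit 4) (nat_lit 17413) (nat_lit 13) nil nil) nil) nil) (node (nat_lit 4) (nat_lit
  23273) (nat_lit 10) (node (nat_lit 7) (nat_lit 24120) (nat_lit 11) nil nil) (node (nat_lit 5)
  (nat_lit 25425) (nat_lit 10) nil nil))) (node (nat_lit 7) (nat_lit 24337) (nat_lit 9) nil nil)))
  (node (nat_lit 5) (nat_lit 0) (nat_lit 8) (node (nat_lit 0) (nat_lit 24934) (nat_lit 9) (node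
  (nat_lit 7) (nat_lit 26482) (nat_lit 10) (node (nat_lit 4) (nat_lit 26619) (nat_lit 11) nil nil)
  (node (nat_lit 5) (nat_lit 26482) (nat_lit 10) nil (node (nat_lit 4) (nat_lit 23706) (nat_lit
  10) nil nil))) (node (nat_lit 2) (nat_lit 24020) (nat_lit 9) (node (nat_lit 7) (nat_lit 25360)
  (nat_lit 10) (node (nat_lit 4) (nat_lit 24985) (nat_lit 11) nil nil) (node (nat_lit 5) (nat_lit
  25425) (nat_lit 10) (node (nat_lit 7) (nat_lit 26362) (nat_lit 11) nil nil) (node (nat_lit 4)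
  (nat_lit 23273) (nat_lit 10) nil nil))) (node (nat_lit 4) (nat_lit 24934) (nat_lit 9) (node
  (nat_lit 7) (nat_lit 26286) (nat_lit 10) nil nil) nil))) nil)))) nil))) (node (nat_lit 0)
  (nat_lit 0) (nat_lit 6) (node (nat_lit 5) (nat_lit 36264) (nat_lit 7) (node (nat_lit 7) (nat_lit
  38777) (nat_lit 8) nil nil) (node (nat_lit 7) (nat_lit 36264) (nat_lit 7) (node (nat_lit 4)
  (nat_lit 38777) (nat_lit 8) (node (nat_lit 5) (nat_lit 39739) (nat_lit 9) (node (nat_lit 4)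
  (nat_lit 37957) (nat_lit 10) nil nil) nil) nil) (node (nat_lit 4) (nat_lit 35888) (nat_lit 7)
  (node (nat_lit 7) (nat_lit 36953) (nat_lit 8) nil nil) (node (nat_lit 0) (nat_lit 36264)
  (nat_lit 7) (node (nat_lit 7) (nat_lit 38777) (nat_lit 8) nil nil) (node (nat_lit 2) (nat_lit
  36264) (nat_lit 7) (node (nat_lit 5) (nat_lit 38777) (nat_lit 8) nil (node (nat_lit 4) (nat_lit
  36091) (nat_lit 8) (node (nat_lit 7) (nat_lit 35042) (nat_lit 9) nil nil) (node (nat_lit 7)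
  (nat_lit 37999) (nat_lit 8) nil nil))) nil))))) (node (nat_lit 2) (nat_lit 0) (nat_lit 6) (node
  (nat_lit 5) (nat_lit 36264) (nat_lit 7) (node (nat_lit 7) (nat_lit 38777) (nat_lit 8) (node
  (nat_lit 4) (nat_lit 39739) (nat_lit 9) (node (nat_lit 5) (nat_lit 40344) (nat_lit 10) (node
  (nat_lit 4) (nat_lit 38927) (nat_lit 11) (node (nat_lit 7) (nat_lit 39145) (nat_lit 12) nil nil)
  nil) nil) nil) nil) (node (nat_lit 7) (nat_lit 28053) (nat_lit 7) (node (nat_lit 4) (nat_lit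
  28053) (nat_lit 8) (node (nat_lit 5) (nat_lit 30541) (nat_lit 9) nil nil) (node (nat_lit 9)
  (nat_lit 28173) (nat_lit 8) (node (nat_lit 5) (nat_lit 35248) (nat_lit 9) nil (node (nat_lit 4)
  (nat_lit 28173) (nat_lit 9) (node (nat_lit 7) (nat_lit 28177) (nat_lit 10) nil nil) nil)) (node
  (nat_lit 5) (nat_lit 37859) (nat_lit 8) nil nil))) (node (nat_lit 4) (nat_lit 28099) (nat_lit 7)
  (node (nat_lit 7) (nat_lit 28054) (nat_lit 8) (node (nat_lit 5) (nat_lit 35129) (nat_lit 9) nil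
  (node (nat_lit 4) (nat_lit 28054) (nat_lit 9) (node (nat_lit 5) (nat_lit 23450) (nat_lit 10) nil
  nil) nil)) (node (nat_lit 5) (nat_lit 37907) (nat_lit 8) (node (nat_lit 7) (nat_lit 37907)
  (nat_lit 9) nil nil) nil)) (node (nat_lit 0) (nat_lit 36264) (nat_lit 7) (node (nat_lit 7)
  (nat_lit 38659) (nat_lit 8) nil nil) nil)))) nil))) nil))

noncomputable def t191 : Tr :=
  (node (nat_lit 4) (nat_lit 0) (nat_lit 6) (node (nat_lit 0) (nat_lit 0) (nat_lit 7) (node
  (nat_lit 6) (nat_lit 0) (nat_lit 8) (node (nat_lit 10) (nat_lit 23497) (nat_lit 9) (node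
  (nat_lit 4) (nat_lit 23497) (nat_lit 10) nil (node (nat_lit 5) (nat_lit 23497) (nat_lit 10)
  (node (nat_lit 6) (nat_lit 23770) (nat_lit 11) (node (nat_lit 5) (nat_lit 23770) (nat_lit 12)
  nil nil) (node (nat_lit 4) (nat_lit 23497) (nat_lit 11) (node (nat_lit 5) (nat_lit 23497)
  (nat_lit 12) nil nil) nil)) nil)) (node (nat_lit 5) (nat_lit 22695) (nat_lit 9) (node (nat_lit
  4) (nat_lit 22477) (nat_lit 10) (node (nat_lit 5) (nat_lit 22477) (nat_lit 11) (node (nat_lit 6)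
  (nat_lit 23173) (nat_lit 12) (node (nat_lit 4) (nat_lit 23173) (nat_lit 13) nil nil) nil) nil)
  (node (nat_lit 10) (nat_lit 23148) (nat_lit 10) (node (nat_lit 5) (nat_lit 23148) (nat_lit 11)
  nil nil) (node (nat_lit 6) (nat_lit 23148) (nat_lit 10) nil nil))) (node (nat_lit 4) (nat_lit
  22883) (nat_lit 9) (node (nat_lit 6) (nat_lit 23336) (nat_lit 10) (node (nat_lit 5) (nat_lit
  23336) (nat_lit 11) (node (nat_lit 4) (nat_lit 23336) (nat_lit 12) nil nil) nil) (node (nat_lit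
  10) (nat_lit 23336) (nat_lit 10) (node (nat_lit 5) (nat_lit 23336) (nat_lit 11) nil nil) nil))
  (node (nat_lit 0) (nat_lit 22920) (nat_lit 9) nil (node (nat_lit 2) (nat_lit 22613) (nat_lit 9)
  nil nil))))) (node (nat_lit 5) (nat_lit 0) (nat_lit 8) (node (nat_lit 10) (nat_lit 23452)
  (nat_lit 9) (node (nat_lit 6) (nat_lit 23598) (nat_lit 10) (node (nat_lit 5) (nat_lit 23598)
  (nat_lit 11) (node (nat_lit 4) (nat_lit 23598) (nat_lit 12) (node (nat_lit 5) (nat_lit 23598)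
  (nat_lit 13) nil nil) nil) nil) nil) (node (nat_lit 4) (nat_lit 22220) (nat_lit 9) (node
  (nat_lit 5) (nat_lit 22866) (nat_lit 10) (node (nat_lit 6) (nat_lit 23922) (nat_lit 11) nil nil)
  nil) (node (nat_lit 6) (nat_lit 23452) (nat_lit 9) (node (nat_lit 5) (nat_lit 23452) (nat_lit
  10) (node (nat_lit 4) (nat_lit 23452) (nat_lit 11) nil nil) nil) (node (nat_lit 2) (nat_lit
  21558) (nat_lit 9) nil (node (nat_lit 0) (nat_lit 22341) (nat_lit 9) nil nil))))) (node (nat_lit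
  0) (nat_lit 22565) (nat_lit 8) (node (nat_lit 10) (nat_lit 23316) (nat_lit 9) (node (nat_lit 5)
  (nat_lit 23316) (nat_lit 10) (node (nat_lit 4) (nat_lit 23316) (nat_lit 11) nil nil) (node
  (nat_lit 6) (nat_lit 23462) (nat_lit 10) (node (nat_lit 5) (nat_lit 23462) (nat_lit 11) nil nil)
  nil)) (node (nat_lit 4) (nat_lit 22565) (nat_lit 9) nil (node (nat_lit 5) (nat_lit 22565)
  (nat_lit 9) (node (nat_lit 4) (nat_lit 22565) (nat_lit 10) (node (nat_lit 5) (nat_lit 22565)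
  (nat_lit 11) nil nil) nil) (node (nat_lit 6) (nat_lit 23316) (nat_lit 9) (node (nat_lit 5)
  (nat_lit 23316) (nat_lit 10) nil nil) nil)))) (node (nat_lit 2) (nat_lit 0) (nat_lit 8) (node
  (nat_lit 10) (nat_lit 23436) (nat_lit 9) (node (nat_lit 5) (nat_lit 23436) (nat_lit 10) (node
  (nat_lit 4) (nat_lit 23436) (nat_lit 11) nil nil) (node (nat_lit 6) (nat_lit 23582) (nat_lit 10)
  (node (nat_lit 5) (nat_lit 23582) (nat_lit 11) nil nil) nil)) (node (nat_lit 4) (nat_lit 21811)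
  (nat_lit 9) (node (nat_lit 11) (nat_lit 22029) (nat_lit 10) nil (node (nat_lit 6) (nat_lit
  22740) (nat_lit 10) nil (node (nat_lit 5) (nat_lit 21811) (nat_lit 10) nil nil))) (node (nat_lit
  5) (nat_lit 21790) (nat_lit 9) (node (nat_lit 4) (nat_lit 21790) (nat_lit 10) (node (nat_lit 5)
  (nat_lit 19987) (nat_lit 11) nil nil) nil) (node (nat_lit 6) (nat_lit 23436) (nat_lit 9) (node
  (nat_lit 5) (nat_lit 23436) (nat_lit 10) nil nil) (node (nat_lit 0) (nat_lit 22458) (nat_lit 9)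
  nil nil))))) (node (nat_lit 4) (nat_lit 0) (nat_lit 8) (node (nat_lit 5) (nat_lit 22188)
  (nat_lit 9) (node (nat_lit 6) (nat_lit 23646) (nat_lit 10) (node (nat_lit 5) (nat_lit 23646)
  (nat_lit 11) nil nil) nil) (node (nat_lit 6) (nat_lit 23497) (nat_lit 9) (node (nat_lit 5)
  (nat_lit 23497) (nat_lit 10) (node (nat_lit 4) (nat_lit 23497) (nat_lit 11) nil nil) nil) (node
  (nat_lit 0) (nat_lit 23614) (nat_lit 9) (node (nat_lit 5) (nat_lit 23614) (nat_lit 10) nil nil)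
  (node (nat_lit 2) (nat_lit 22266) (nat_lit 9) (node (nat_lit 5) (nat_lit 22483) (nat_lit 10) nil
  (node (nat_lit 4) (nat_lit 22355) (nat_lit 10) nil nil)) nil)))) nil))))) (node (nat_lit 6)
  (nat_lit 0) (nat_lit 7) (node (nat_lit 0) (nat_lit 0) (nat_lit 8) (node (nat_lit 6) (nat_lit 0)
  (nat_lit 9) (node (nat_lit 5) (nat_lit 23737) (nat_lit 10) (node (nat_lit 4) (nat_lit 23737)
  (nat_lit 11) (node (nat_lit 5) (nat_lit 23737) (nat_lit 12) (node (nat_lit 6) (nat_lit 24220)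
  (nat_lit 13) nil nil) nil) (node (nat_lit 11) (nat_lit 24010) (nat_lit 11) (node (nat_lit 5)
  (nat_lit 24010) (nat_lit 12) nil nil) nil)) (node (nat_lit 4) (nat_lit 23737) (nat_lit 10) nil
  (node (nat_lit 0) (nat_lit 24029) (nat_lit 10) nil (node (nat_lit 2) (nat_lit 23737) (nat_lit
  10) nil nil)))) (node (nat_lit 4) (nat_lit 23089) (nat_lit 9) (node (nat_lit 11) (nat_lit 23853)
  (nat_lit 10) nil nil) (node (nat_lit 5) (nat_lit 23086) (nat_lit 9) (node (nat_lit 4) (nat_lit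
  22766) (nat_lit 10) nil nil) (node (nat_lit 0) (nat_lit 23626) (nat_lit 9) nil (node (nat_lit 2)
  (nat_lit 22716) (nat_lit 9) nil nil))))) (node (nat_lit 2) (nat_lit 0) (nat_lit 8) (node
  (nat_lit 6) (nat_lit 0) (nat_lit 9) (node (nat_lit 5) (nat_lit 23874) (nat_lit 10) (node
  (nat_lit 4) (nat_lit 23874) (nat_lit 11) (node (nat_lit 5) (nat_lit 23874) (nat_lit 12) (node
  (nat_lit 6) (nat_lit 24356) (nat_lit 13) (node (nat_lit 4) (nat_lit 24356) (nat_lit 14) nil nil)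
  nil) nil) (node (nat_lit 11) (nat_lit 23874) (nat_lit 11) (node (nat_lit 5) (nat_lit 23874)
  (nat_lit 12) nil nil) nil)) (node (nat_lit 4) (nat_lit 23874) (nat_lit 10) nil (node (nat_lit 0)
  (nat_lit 24019) (nat_lit 10) nil nil))) (node (nat_lit 4) (nat_lit 22569) (nat_lit 9) (node
  (nat_lit 11) (nat_lit 22963) (nat_lit 10) (node (nat_lit 6) (nat_lit 24019) (nat_lit 11) nil
  nil) (node (nat_lit 5) (nat_lit 22098) (nat_lit 10) nil (node (nat_lit 6) (nat_lit 24319)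
  (nat_lit 10) (node (nat_lit 5) (nat_lit 24319) (nat_lit 11) nil nil) nil))) (node (nat_lit 5)
  (nat_lit 22569) (nat_lit 9) (node (nat_lit 4) (nat_lit 22467) (nat_lit 10) nil (node (nat_lit 6)
  (nat_lit 24027) (nat_lit 10) nil nil)) (node (nat_lit 0) (nat_lit 23762) (nat_lit 9) nil nil))))
  (node (nat_lit 5) (nat_lit 0) (nat_lit 8) (node (nat_lit 0) (nat_lit 23110) (nat_lit 9) (node
  (nat_lit 6) (nat_lit 23806) (nat_lit 10) (node (nat_lit 5) (nat_lit 23806) (nat_lit 11) (node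
  (nat_lit 4) (nat_lit 23806) (nat_lit 12) (node (nat_lit 5) (nat_lit 23806) (nat_lit 13) nil nil)
  nil) nil) (node (nat_lit 5) (nat_lit 23104) (nat_lit 10) nil nil)) (node (nat_lit 2) (nat_lit
  21536) (nat_lit 9) (node (nat_lit 6) (nat_lit 23909) (nat_lit 10) (node (nat_lit 5) (nat_lit
  23909) (nat_lit 11) (node (nat_lit 4) (nat_lit 23909) (nat_lit 12) (node (nat_lit 5) (nat_lit
  23909) (nat_lit 13) nil nil) nil) nil) (node (nat_lit 5) (nat_lit 22183) (nat_lit 10) (node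
  (nat_lit 6) (nat_lit 23448) (nat_lit 11) nil nil) (node (nat_lit 4) (nat_lit 22115) (nat_lit 10)
  (node (nat_lit 5) (nat_lit 22128) (nat_lit 11) nil nil) nil))) (node (nat_lit 4) (nat_lit 21283)
  (nat_lit 9) (node (nat_lit 5) (nat_lit 21956) (nat_lit 10) nil nil) nil))) (node (nat_lit 4)
  (nat_lit 0) (nat_lit 8) (node (nat_lit 0) (nat_lit 23110) (nat_lit 9) (node (nat_lit 6) (nat_lit
  23806) (nat_lit 10) (node (nat_lit 5) (nat_lit 23806) (nat_lit 11) nil nil) (node (nat_lit 5)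
  (nat_lit 23104) (nat_lit 10) (node (nat_lit 4) (nat_lit 23104) (nat_lit 11) (node (nat_lit 5)
  (nat_lit 23104) (nat_lit 12) nil nil) nil) nil)) (node (nat_lit 2) (nat_lit 21653) (nat_lit 9)
  (node (nat_lit 6) (nat_lit 23802) (nat_lit 10) (node (nat_lit 5) (nat_lit 23802) (nat_lit 11)
  nil nil) (node (nat_lit 4) (nat_lit 22183) (nat_lit 10) nil (node (nat_lit 5) (nat_lit 22011)
  (nat_lit 10) (node (nat_lit 4) (nat_lit 22758) (nat_lit 11) (node (nat_lit 5) (nat_lit 22629)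
  (nat_lit 12) nil nil) nil) nil))) nil)) nil)))) (node (nat_lit 2) (nat_lit 0) (nat_lit 7) (node
  (nat_lit 6) (nat_lit 0) (nat_lit 8) (node (nat_lit 10) (nat_lit 0) (nat_lit 9) (node (nat_lit 4)
  (nat_lit 22577) (nat_lit 10) (node (nat_lit 6) (nat_lit 23600) (nat_lit 11) nil (node (nat_lit
  5) (nat_lit 22087) (nat_lit 11) nil (node (nat_lit 10) (nat_lit 22577) (nat_lit 11) nil nil)))
  (node (nat_lit 5) (nat_lit 22608) (nat_lit 10) (node (nat_lit 6) (nat_lit 23188) (nat_lit 11)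
  (node (nat_lit 5) (nat_lit 23188) (nat_lit 12) (node (nat_lit 4) (nat_lit 23188) (nat_lit 13)
  nil nil) nil) (node (nat_lit 4) (nat_lit 22773) (nat_lit 11) (node (nat_lit 5) (nat_lit 23080)
  (nat_lit 12) nil nil) nil)) (node (nat_lit 0) (nat_lit 22897) (nat_lit 10) nil nil))) (node
  (nat_lit 5) (nat_lit 22388) (nat_lit 9) (node (nat_lit 4) (nat_lit 22171) (nat_lit 10) (node
  (nat_lit 5) (nat_lit 22171) (nat_lit 11) (node (nat_lit 6) (nat_lit 22867) (nat_lit 12) (node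
  (nat_lit 4) (nat_lit 22867) (nat_lit 13) nil nil) nil) nil) (node (nat_lit 10) (nat_lit 22388)
  (nat_lit 10) (node (nat_lit 5) (nat_lit 22388) (nat_lit 11) nil nil) (node (nat_lit 6) (nat_lit
  22841) (nat_lit 10) nil nil))) (node (nat_lit 4) (nat_lit 22351) (nat_lit 9) (node (nat_lit 6)
  (nat_lit 23114) (nat_lit 10) (node (nat_lit 5) (nat_lit 23114) (nat_lit 11) (node (nat_lit 4)
  (nat_lit 23114) (nat_lit 12) nil nil) nil) (node (nat_lit 10) (nat_lit 22351) (nat_lit 10) (node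
  (nat_lit 5) (nat_lit 22351) (nat_lit 11) nil nil) (node (nat_lit 5) (nat_lit 22351) (nat_lit 10)
  nil nil))) (node (nat_lit 0) (nat_lit 22476) (nat_lit 9) nil nil)))) (node (nat_lit 5) (nat_lit
  0) (nat_lit 8) (node (nat_lit 10) (nat_lit 0) (nat_lit 9) (node (nat_lit 4) (nat_lit 15556)
  (nat_lit 10) (node (nat_lit 5) (nat_lit 18027) (nat_lit 11) (node (nat_lit 4) (nat_lit 19499)
  (nat_lit 12) (node (nat_lit 6) (nat_lit 20829) (nat_lit 13) nil nil) (node (nat_lit 6) (nat_lit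
  20735) (nat_lit 12) (node (nat_lit 5) (nat_lit 20735) (nat_lit 13) nil nil) nil)) (node (nat_lit
  10) (nat_lit 18043) (nat_lit 11) (node (nat_lit 5) (nat_lit 19458) (nat_lit 12) (node (nat_lit
  4) (nat_lit 19739) (nat_lit 13) nil nil) (node (nat_lit 6) (nat_lit 21048) (nat_lit 12) nil
  nil)) (node (nat_lit 6) (nat_lit 22089) (nat_lit 11) (node (nat_lit 5) (nat_lit 22089) (nat_lit
  12) (node (nat_lit 4) (nat_lit 22089) (nat_lit 13) nil nil) nil) (node (nat_lit 0) (nat_lit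
  21189) (nat_lit 11) nil nil)))) (node (nat_lit 6) (nat_lit 21537) (nat_lit 10) (node (nat_lit 5)
  (nat_lit 21537) (nat_lit 11) (node (nat_lit 4) (nat_lit 21537) (nat_lit 12) (node (nat_lit 5)
  (nat_lit 21537) (nat_lit 13) (node (nat_lit 6) (nat_lit 21948) (nat_lit 14) nil nil) nil) nil)
  nil) (node (nat_lit 0) (nat_lit 20898) (nat_lit 10) (node (nat_lit 5) (nat_lit 20898) (nat_lit
  11) nil nil) nil))) (node (nat_lit 4) (nat_lit 15556) (nat_lit 9) (node (nat_lit 5) (nat_lit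
  15556) (nat_lit 10) (node (nat_lit 6) (nat_lit 14535) (nat_lit 11) nil (node (nat_lit 10)
  (nat_lit 17764) (nat_lit 11) nil nil)) (node (nat_lit 6) (nat_lit 18692) (nat_lit 10) (node
  (nat_lit 5) (nat_lit 18461) (nat_lit 11) nil nil) nil)) (node (nat_lit 6) (nat_lit 20777)
  (nat_lit 9) (node (nat_lit 4) (nat_lit 20777) (nat_lit 10) nil (node (nat_lit 10) (nat_lit
  20777) (nat_lit 10) nil (node (nat_lit 5) (nat_lit 20777) (nat_lit 10) (node (nat_lit 4)
  (nat_lit 20777) (nat_lit 11) nil nil) nil))) (node (nat_lit 0) (nat_lit 20771) (nat_lit 9) (node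
  (nat_lit 5) (nat_lit 20771) (nat_lit 10) nil nil) nil)))) (node (nat_lit 0) (nat_lit 0) (nat_lit
  8) (node (nat_lit 10) (nat_lit 0) (nat_lit 9) (node (nat_lit 4) (nat_lit 21895) (nat_lit 10)
  (node (nat_lit 11) (nat_lit 22475) (nat_lit 11) nil nil) (node (nat_lit 5) (nat_lit 21895)
  (nat_lit 10) (node (nat_lit 4) (nat_lit 21895) (nat_lit 11) nil nil) (node (nat_lit 6) (nat_lit
  22659) (nat_lit 10) (node (nat_lit 5) (nat_lit 22659) (nat_lit 11) nil nil) (node (nat_lit 0)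
  (nat_lit 22348) (nat_lit 10) nil nil)))) (node (nat_lit 4) (nat_lit 21774) (nat_lit 9) (node
  (nat_lit 11) (nat_lit 22227) (nat_lit 10) nil nil) (node (nat_lit 5) (nat_lit 21761) (nat_lit 9)
  (node (nat_lit 4) (nat_lit 21761) (nat_lit 10) (node (nat_lit 5) (nat_lit 21761) (nat_lit 11)
  nil nil) nil) (node (nat_lit 6) (nat_lit 22942) (nat_lit 9) (node (nat_lit 5) (nat_lit 22942)
  (nat_lit 10) nil nil) (node (nat_lit 0) (nat_lit 22228) (nat_lit 9) nil nil))))) (node (nat_lit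
  4) (nat_lit 0) (nat_lit 8) (node (nat_lit 5) (nat_lit 15556) (nat_lit 9) (node (nat_lit 6)
  (nat_lit 21993) (nat_lit 10) (node (nat_lit 5) (nat_lit 21993) (nat_lit 11) nil nil) (node
  (nat_lit 4) (nat_lit 15556) (nat_lit 10) (node (nat_lit 6) (nat_lit 19466) (nat_lit 11) nil nil)
  (node (nat_lit 10) (nat_lit 15556) (nat_lit 10) nil nil))) (node (nat_lit 6) (nat_lit 22876)
  (nat_lit 9) (node (nat_lit 5) (nat_lit 22876) (nat_lit 10) (node (nat_lit 4) (nat_lit 22876)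
  (nat_lit 11) nil nil) nil) (node (nat_lit 0) (nat_lit 22691) (nat_lit 9) (node (nat_lit 5)
  (nat_lit 22691) (nat_lit 10) nil nil) nil))) nil)))) nil))) (node (nat_lit 0) (nat_lit 0)
  (nat_lit 6) (node (nat_lit 4) (nat_lit 19847) (nat_lit 7) (node (nat_lit 5) (nat_lit 20655)
  (nat_lit 8) (node (nat_lit 6) (nat_lit 22888) (nat_lit 9) nil (node (nat_lit 4) (nat_lit 20380)
  (nat_lit 9) nil nil)) (node (nat_lit 9) (nat_lit 22486) (nat_lit 8) (node (nat_lit 5) (nat_lit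
  22486) (nat_lit 9) (node (nat_lit 4) (nat_lit 22486) (nat_lit 10) nil nil) nil) nil)) (node
  (nat_lit 6) (nat_lit 21147) (nat_lit 7) (node (nat_lit 4) (nat_lit 21540) (nat_lit 8) nil (node
  (nat_lit 5) (nat_lit 21543) (nat_lit 8) (node (nat_lit 4) (nat_lit 21543) (nat_lit 9) (node
  (nat_lit 5) (nat_lit 21543) (nat_lit 10) (node (nat_lit 6) (nat_lit 22600) (nat_lit 11) nil nil)
  nil) nil) (node (nat_lit 9) (nat_lit 22442) (nat_lit 8) (node (nat_lit 5) (nat_lit 22442)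
  (nat_lit 9) (node (nat_lit 4) (nat_lit 22442) (nat_lit 10) nil nil) nil) nil))) (node (nat_lit
  5) (nat_lit 19569) (nat_lit 7) (node (nat_lit 4) (nat_lit 20426) (nat_lit 8) (node (nat_lit 5)
  (nat_lit 20146) (nat_lit 9) nil nil) (node (nat_lit 6) (nat_lit 22455) (nat_lit 8) nil nil))
  (node (nat_lit 0) (nat_lit 20908) (nat_lit 7) (node (nat_lit 4) (nat_lit 20908) (nat_lit 8) nil
  (node (nat_lit 5) (nat_lit 20603) (nat_lit 8) (node (nat_lit 4) (nat_lit 20603) (nat_lit 9) nil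
  nil) (node (nat_lit 6) (nat_lit 21918) (nat_lit 8) (node (nat_lit 5) (nat_lit 21918) (nat_lit 9)
  nil nil) nil))) (node (nat_lit 2) (nat_lit 19871) (nat_lit 7) (node (nat_lit 4) (nat_lit 19310)
  (nat_lit 8) (node (nat_lit 6) (nat_lit 20848) (nat_lit 9) (node (nat_lit 5) (nat_lit 20848)
  (nat_lit 10) nil nil) (node (nat_lit 5) (nat_lit 19310) (nat_lit 9) nil nil)) (node (nat_lit 5)
  (nat_lit 20321) (nat_lit 8) (node (nat_lit 4) (nat_lit 18812) (nat_lit 9) nil nil) (node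
  (nat_lit 6) (nat_lit 22364) (nat_lit 8) (node (nat_lit 5) (nat_lit 22364) (nat_lit 9) nil nil)
  nil))) nil))))) (node (nat_lit 2) (nat_lit 0) (nat_lit 6) (node (nat_lit 4) (nat_lit 0) (nat_lit
  7) (node (nat_lit 6) (nat_lit 22717) (nat_lit 8) (node (nat_lit 5) (nat_lit 22800) (nat_lit 9)
  (node (nat_lit 4) (nat_lit 22583) (nat_lit 10) (node (nat_lit 5) (nat_lit 22583) (nat_lit 11)
  (node (nat_lit 6) (nat_lit 23279) (nat_lit 12) nil nil) nil) nil) (node (nat_lit 4) (nat_lit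
  22717) (nat_lit 9) nil nil)) (node (nat_lit 5) (nat_lit 15562) (nat_lit 8) (node (nat_lit 4)
  (nat_lit 15562) (nat_lit 9) (node (nat_lit 6) (nat_lit 21450) (nat_lit 10) nil nil) (node
  (nat_lit 6) (nat_lit 22127) (nat_lit 9) (node (nat_lit 5) (nat_lit 22127) (nat_lit 10) (node
  (nat_lit 4) (nat_lit 22127) (nat_lit 11) nil nil) nil) nil)) (node (nat_lit 9) (nat_lit 0)
  (nat_lit 8) (node (nat_lit 5) (nat_lit 15562) (nat_lit 9) (node (nat_lit 4) (nat_lit 15551)
  (nat_lit 10) (node (nat_lit 5) (nat_lit 12151) (nat_lit 11) nil (node (nat_lit 6) (nat_lit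
  16800) (nat_lit 11) nil nil)) (node (nat_lit 6) (nat_lit 20986) (nat_lit 10) nil nil)) (node
  (nat_lit 6) (nat_lit 22698) (nat_lit 9) nil (node (nat_lit 0) (nat_lit 21493) (nat_lit 9) nil
  nil))) (node (nat_lit 0) (nat_lit 22276) (nat_lit 8) nil nil)))) (node (nat_lit 6) (nat_lit
  21309) (nat_lit 7) (node (nat_lit 4) (nat_lit 21749) (nat_lit 8) nil (node (nat_lit 5) (nat_lit
  21749) (nat_lit 8) (node (nat_lit 4) (nat_lit 22275) (nat_lit 9) (node (nat_lit 6) (nat_lit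
  23205) (nat_lit 10) nil (node (nat_lit 5) (nat_lit 22275) (nat_lit 10) (node (nat_lit 6)
  (nat_lit 23332) (nat_lit 11) nil nil) nil)) nil) (node (nat_lit 9) (nat_lit 21749) (nat_lit 8)
  (node (nat_lit 5) (nat_lit 21769) (nat_lit 9) (node (nat_lit 4) (nat_lit 21769) (nat_lit 10) nil
  nil) (node (nat_lit 4) (nat_lit 21749) (nat_lit 9) (node (nat_lit 6) (nat_lit 23208) (nat_lit
  10) (node (nat_lit 5) (nat_lit 23208) (nat_lit 11) nil nil) nil) nil)) nil))) (node (nat_lit 5)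
  (nat_lit 15450) (nat_lit 7) (node (nat_lit 4) (nat_lit 15562) (nat_lit 8) (node (nat_lit 9)
  (nat_lit 15562) (nat_lit 9) nil nil) (node (nat_lit 6) (nat_lit 22087) (nat_lit 8) (node
  (nat_lit 5) (nat_lit 22087) (nat_lit 9) (node (nat_lit 4) (nat_lit 22087) (nat_lit 10) nil nil)
  nil) nil)) (node (nat_lit 0) (nat_lit 21150) (nat_lit 7) (node (nat_lit 4) (nat_lit 21150)
  (nat_lit 8) nil (node (nat_lit 5) (nat_lit 21186) (nat_lit 8) (node (nat_lit 4) (nat_lit 21186)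
  (nat_lit 9) nil nil) (node (nat_lit 6) (nat_lit 22307) (nat_lit 8) (node (nat_lit 5) (nat_lit
  22307) (nat_lit 9) nil nil) nil))) nil)))) nil)))

noncomputable def t192 : Tr :=
  (node (nat_lit 5) (nat_lit 0) (nat_lit 6) (node (nat_lit 0) (nat_lit 0) (nat_lit 7) (node
  (nat_lit 4) (nat_lit 81552) (nat_lit 8) (node (nat_lit 10) (nat_lit 83269) (nat_lit 9) (node
  (nat_lit 5) (nat_lit 84421) (nat_lit 10) nil (node (nat_lit 6) (nat_lit 84421) (nat_lit 10) nil
  nil)) (node (nat_lit 5) (nat_lit 83269) (nat_lit 9) nil (node (nat_lit 6) (nat_lit 83269)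
  (nat_lit 9) (node (nat_lit 5) (nat_lit 84421) (nat_lit 10) nil (node (nat_lit 4) (nat_lit 84421)
  (nat_lit 10) (node (nat_lit 5) (nat_lit 86103) (nat_lit 11) (node (nat_lit 6) (nat_lit 87024)
  (nat_lit 12) nil nil) nil) nil)) nil))) (node (nat_lit 6) (nat_lit 81552) (nat_lit 8) (node
  (nat_lit 10) (nat_lit 83269) (nat_lit 9) (node (nat_lit 4) (nat_lit 82102) (nat_lit 10) nil nil)
  (node (nat_lit 4) (nat_lit 83269) (nat_lit 9) (node (nat_lit 5) (nat_lit 84421) (nat_lit 10)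
  (node (nat_lit 6) (nat_lit 85438) (nat_lit 11) (node (nat_lit 4) (nat_lit 86358) (nat_lit 12)
  nil nil) nil) nil) (node (nat_lit 5) (nat_lit 84094) (nat_lit 9) (node (nat_lit 4) (nat_lit
  82927) (nat_lit 10) nil nil) nil))) (node (nat_lit 0) (nat_lit 83545) (nat_lit 8) (node (nat_lit
  10) (nat_lit 85262) (nat_lit 9) nil (node (nat_lit 5) (nat_lit 85262) (nat_lit 9) (node (nat_lit
  4) (nat_lit 84095) (nat_lit 10) nil nil) (node (nat_lit 4) (nat_lit 82384) (nat_lit 9) nil (node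
  (nat_lit 6) (nat_lit 85262) (nat_lit 9) (node (nat_lit 4) (nat_lit 86414) (nat_lit 10) nil nil)
  nil)))) (node (nat_lit 2) (nat_lit 83294) (nat_lit 8) (node (nat_lit 10) (nat_lit 85011)
  (nat_lit 9) nil (node (nat_lit 4) (nat_lit 85011) (nat_lit 9) (node (nat_lit 6) (nat_lit 82135)
  (nat_lit 10) nil nil) (node (nat_lit 5) (nat_lit 85011) (nat_lit 9) (node (nat_lit 4) (nat_lit
  83844) (nat_lit 10) (node (nat_lit 5) (nat_lit 75624) (nat_lit 11) nil nil) nil) (node (nat_lit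
  6) (nat_lit 85011) (nat_lit 9) (node (nat_lit 4) (nat_lit 86163) (nat_lit 10) (node (nat_lit 5)
  (nat_lit 77943) (nat_lit 11) nil nil) nil) nil)))) (node (nat_lit 5) (nat_lit 83623) (nat_lit 8)
  (node (nat_lit 4) (nat_lit 84283) (nat_lit 9) (node (nat_lit 6) (nat_lit 85435) (nat_lit 10)
  (node (nat_lit 5) (nat_lit 86452) (nat_lit 11) nil (node (nat_lit 4) (nat_lit 81387) (nat_lit
  11) (node (nat_lit 5) (nat_lit 81061) (nat_lit 12) nil nil) nil)) (node (nat_lit 5) (nat_lit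
  85435) (nat_lit 10) (node (nat_lit 6) (nat_lit 86452) (nat_lit 11) (node (nat_lit 4) (nat_lit
  87372) (nat_lit 12) (node (nat_lit 6) (nat_lit 88121) (nat_lit 13) nil nil) nil) nil) nil)) nil)
  nil))))) (node (nat_lit 2) (nat_lit 0) (nat_lit 7) (node (nat_lit 4) (nat_lit 0) (nat_lit 8)
  (node (nat_lit 10) (nat_lit 82053) (nat_lit 9) (node (nat_lit 5) (nat_lit 82527) (nat_lit 10)
  (node (nat_lit 4) (nat_lit 80906) (nat_lit 11) (node (nat_lit 5) (nat_lit 80549) (nat_lit 12)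
  (node (nat_lit 6) (nat_lit 77214) (nat_lit 13) (node (nat_lit 4) (nat_lit 73402) (nat_lit 14)
  (node (nat_lit 6) (nat_lit 67510) (nat_lit 15) (node (nat_lit 5) (nat_lit 56211) (nat_lit 16)
  nil nil) nil) nil) nil) nil) nil) (node (nat_lit 6) (nat_lit 83205) (nat_lit 10) (node (nat_lit
  4) (nat_lit 84222) (nat_lit 11) (node (nat_lit 5) (nat_lit 78831) (nat_lit 12) (node (nat_lit 6)
  (nat_lit 75580) (nat_lit 13) nil nil) nil) nil) nil)) (node (nat_lit 5) (nat_lit 84661) (nat_lit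
  9) nil (node (nat_lit 6) (nat_lit 82763) (nat_lit 9) (node (nat_lit 5) (nat_lit 83916) (nat_lit
  10) (node (nat_lit 4) (nat_lit 83039) (nat_lit 11) (node (nat_lit 5) (nat_lit 83959) (nat_lit
  12) nil nil) nil) (node (nat_lit 4) (nat_lit 83916) (nat_lit 10) (node (nat_lit 5) (nat_lit
  85962) (nat_lit 11) (node (nat_lit 6) (nat_lit 85955) (nat_lit 12) nil nil) nil) nil)) (node
  (nat_lit 0) (nat_lit 83881) (nat_lit 9) nil nil)))) (node (nat_lit 6) (nat_lit 82259) (nat_lit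
  8) (node (nat_lit 10) (nat_lit 82148) (nat_lit 9) (node (nat_lit 4) (nat_lit 83300) (nat_lit 10)
  (node (nat_lit 6) (nat_lit 81439) (nat_lit 11) nil nil) (node (nat_lit 5) (nat_lit 82101)
  (nat_lit 10) (node (nat_lit 4) (nat_lit 76160) (nat_lit 11) nil nil) nil)) (node (nat_lit 4)
  (nat_lit 83976) (nat_lit 9) (node (nat_lit 5) (nat_lit 86061) (nat_lit 10) (node (nat_lit 6)
  (nat_lit 82025) (nat_lit 11) (node (nat_lit 4) (nat_lit 53613) (nat_lit 12) (node (nat_lit 6)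
  (nat_lit 45525) (nat_lit 13) nil nil) nil) nil) (node (nat_lit 6) (nat_lit 85128) (nat_lit 10)
  nil nil)) (node (nat_lit 5) (nat_lit 84756) (nat_lit 9) (node (nat_lit 4) (nat_lit 85908)
  (nat_lit 10) nil nil) nil))) (node (nat_lit 0) (nat_lit 83365) (nat_lit 8) (node (nat_lit 10)
  (nat_lit 85082) (nat_lit 9) (node (nat_lit 5) (nat_lit 82206) (nat_lit 10) nil (node (nat_lit 6)
  (nat_lit 82206) (nat_lit 10) (node (nat_lit 4) (nat_lit 82186) (nat_lit 11) nil nil) (node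
  (nat_lit 4) (nat_lit 83916) (nat_lit 10) nil nil))) (node (nat_lit 4) (nat_lit 84026) (nat_lit
  9) nil (node (nat_lit 5) (nat_lit 85082) (nat_lit 9) (node (nat_lit 4) (nat_lit 83916) (nat_lit
  10) nil nil) (node (nat_lit 6) (nat_lit 85082) (nat_lit 9) (node (nat_lit 4) (nat_lit 86235)
  (nat_lit 10) nil nil) nil)))) (node (nat_lit 5) (nat_lit 0) (nat_lit 8) (node (nat_lit 4)
  (nat_lit 85227) (nat_lit 9) (node (nat_lit 6) (nat_lit 86379) (nat_lit 10) nil (node (nat_lit 5)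
  (nat_lit 86379) (nat_lit 10) (node (nat_lit 6) (nat_lit 79086) (nat_lit 11) (node (nat_lit 4)
  (nat_lit 72917) (nat_lit 12) (node (nat_lit 6) (nat_lit 62399) (nat_lit 13) nil nil) nil) nil)
  nil)) (node (nat_lit 6) (nat_lit 85227) (nat_lit 9) nil (node (nat_lit 0) (nat_lit 85227)
  (nat_lit 9) nil nil))) nil)))) (node (nat_lit 6) (nat_lit 0) (nat_lit 7) (node (nat_lit 0)
  (nat_lit 0) (nat_lit 8) (node (nat_lit 6) (nat_lit 0) (nat_lit 9) (node (nat_lit 4) (nat_lit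
  85369) (nat_lit 10) (node (nat_lit 5) (nat_lit 86386) (nat_lit 11) (node (nat_lit 6) (nat_lit
  87306) (nat_lit 12) (node (nat_lit 4) (nat_lit 88055) (nat_lit 13) nil nil) nil) (node (nat_lit
  6) (nat_lit 86386) (nat_lit 11) nil (node (nat_lit 11) (nat_lit 86386) (nat_lit 11) nil nil)))
  (node (nat_lit 5) (nat_lit 86765) (nat_lit 10) (node (nat_lit 11) (nat_lit 87781) (nat_lit 11)
  (node (nat_lit 6) (nat_lit 88702) (nat_lit 12) nil nil) (node (nat_lit 4) (nat_lit 87781)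
  (nat_lit 11) (node (nat_lit 5) (nat_lit 88702) (nat_lit 12) nil (node (nat_lit 6) (nat_lit
  86383) (nat_lit 12) nil nil)) nil)) (node (nat_lit 0) (nat_lit 86257) (nat_lit 10) (node
  (nat_lit 6) (nat_lit 87274) (nat_lit 11) nil (node (nat_lit 5) (nat_lit 87274) (nat_lit 11) nil
  nil)) (node (nat_lit 2) (nat_lit 86279) (nat_lit 10) (node (nat_lit 11) (nat_lit 87296) (nat_lit
  11) (node (nat_lit 6) (nat_lit 88216) (nat_lit 12) nil nil) (node (nat_lit 6) (nat_lit 87296)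
  (nat_lit 11) nil (node (nat_lit 5) (nat_lit 86879) (nat_lit 11) nil nil))) nil)))) (node
  (nat_lit 5) (nat_lit 85400) (nat_lit 9) (node (nat_lit 4) (nat_lit 86424) (nat_lit 10) (node
  (nat_lit 5) (nat_lit 87441) (nat_lit 11) (node (nat_lit 6) (nat_lit 88361) (nat_lit 12) nil nil)
  (node (nat_lit 6) (nat_lit 87441) (nat_lit 11) nil nil)) (node (nat_lit 11) (nat_lit 86765)
  (nat_lit 10) (node (nat_lit 6) (nat_lit 87781) (nat_lit 11) nil nil) (node (nat_lit 6) (nat_lit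
  86552) (nat_lit 10) (node (nat_lit 5) (nat_lit 87927) (nat_lit 11) nil (node (nat_lit 4)
  (nat_lit 87474) (nat_lit 11) nil nil)) nil))) (node (nat_lit 4) (nat_lit 85105) (nat_lit 9)
  (node (nat_lit 6) (nat_lit 85369) (nat_lit 10) (node (nat_lit 4) (nat_lit 86386) (nat_lit 11)
  nil (node (nat_lit 5) (nat_lit 86386) (nat_lit 11) nil nil)) (node (nat_lit 11) (nat_lit 86765)
  (nat_lit 10) nil (node (nat_lit 5) (nat_lit 86765) (nat_lit 10) nil nil))) (node (nat_lit 2)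
  (nat_lit 85127) (nat_lit 9) (node (nat_lit 6) (nat_lit 86279) (nat_lit 10) nil nil) (node
  (nat_lit 0) (nat_lit 85400) (nat_lit 9) (node (nat_lit 6) (nat_lit 86552) (nat_lit 10) nil nil)
  nil))))) (node (nat_lit 2) (nat_lit 0) (nat_lit 8) (node (nat_lit 6) (nat_lit 0) (nat_lit 9)
  (node (nat_lit 4) (nat_lit 84726) (nat_lit 10) (node (nat_lit 5) (nat_lit 87197) (nat_lit 11)
  (node (nat_lit 6) (nat_lit 83690) (nat_lit 12) (node (nat_lit 4) (nat_lit 74322) (nat_lit 13)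
  (node (nat_lit 6) (nat_lit 45958) (nat_lit 14) (node (nat_lit 5) (nat_lit 46154) (nat_lit 15)
  nil nil) nil) nil) nil) (node (nat_lit 6) (nat_lit 85743) (nat_lit 11) nil (node (nat_lit 11)
  (nat_lit 85877) (nat_lit 11) nil nil))) (node (nat_lit 5) (nat_lit 86193) (nat_lit 10) (node
  (nat_lit 11) (nat_lit 87210) (nat_lit 11) (node (nat_lit 6) (nat_lit 88130) (nat_lit 12) nil
  (node (nat_lit 5) (nat_lit 85811) (nat_lit 12) nil nil)) (node (nat_lit 4) (nat_lit 87210)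
  (nat_lit 11) (node (nat_lit 5) (nat_lit 88130) (nat_lit 12) nil (node (nat_lit 6) (nat_lit
  85811) (nat_lit 12) nil nil)) nil)) (node (nat_lit 0) (nat_lit 84904) (nat_lit 10) (node
  (nat_lit 11) (nat_lit 82220) (nat_lit 11) nil (node (nat_lit 6) (nat_lit 85921) (nat_lit 11) nil
  (node (nat_lit 5) (nat_lit 85921) (nat_lit 11) nil nil))) nil))) (node (nat_lit 5) (nat_lit
  83507) (nat_lit 9) (node (nat_lit 4) (nat_lit 84099) (nat_lit 10) (node (nat_lit 5) (nat_lit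
  83164) (nat_lit 11) (node (nat_lit 6) (nat_lit 80702) (nat_lit 12) nil nil) (node (nat_lit 6)
  (nat_lit 84438) (nat_lit 11) nil nil)) (node (nat_lit 11) (nat_lit 84991) (nat_lit 10) (node
  (nat_lit 6) (nat_lit 86007) (nat_lit 11) nil nil) (node (nat_lit 6) (nat_lit 84991) (nat_lit 10)
  (node (nat_lit 5) (nat_lit 86007) (nat_lit 11) nil nil) nil))) (node (nat_lit 4) (nat_lit 83752)
  (nat_lit 9) (node (nat_lit 6) (nat_lit 84085) (nat_lit 10) (node (nat_lit 4) (nat_lit 85101)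
  (nat_lit 11) nil (node (nat_lit 5) (nat_lit 85101) (nat_lit 11) nil nil)) (node (nat_lit 11)
  (nat_lit 83584) (nat_lit 10) nil (node (nat_lit 5) (nat_lit 86193) (nat_lit 10) nil nil))) (node
  (nat_lit 0) (nat_lit 85122) (nat_lit 9) (node (nat_lit 6) (nat_lit 86274) (nat_lit 10) nil nil)
  nil)))) (node (nat_lit 4) (nat_lit 0) (nat_lit 8) (node (nat_lit 0) (nat_lit 79454) (nat_lit 9)
  (node (nat_lit 6) (nat_lit 82138) (nat_lit 10) (node (nat_lit 4) (nat_lit 84232) (nat_lit 11)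
  (node (nat_lit 6) (nat_lit 85865) (nat_lit 12) nil (node (nat_lit 5) (nat_lit 85865) (nat_lit
  12) (node (nat_lit 6) (nat_lit 87141) (nat_lit 13) nil nil) nil)) nil) (node (nat_lit 4)
  (nat_lit 82138) (nat_lit 10) (node (nat_lit 6) (nat_lit 84232) (nat_lit 11) nil nil) (node
  (nat_lit 5) (nat_lit 82350) (nat_lit 10) (node (nat_lit 4) (nat_lit 84444) (nat_lit 11) (node
  (nat_lit 5) (nat_lit 86077) (nat_lit 12) nil nil) nil) nil))) (node (nat_lit 2) (nat_lit 77808)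
  (nat_lit 9) (node (nat_lit 6) (nat_lit 80062) (nat_lit 10) (node (nat_lit 4) (nat_lit 82457)
  (nat_lit 11) (node (nat_lit 6) (nat_lit 84091) (nat_lit 12) (node (nat_lit 12) (nat_lit 82892)
  (nat_lit 13) nil nil) (node (nat_lit 5) (nat_lit 85674) (nat_lit 12) (node (nat_lit 6) (nat_lit
  86924) (nat_lit 13) nil nil) nil)) nil) (node (nat_lit 4) (nat_lit 80493) (nat_lit 10) (node
  (nat_lit 6) (nat_lit 82586) (nat_lit 11) nil nil) (node (nat_lit 5) (nat_lit 80178) (nat_lit 10)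
  (node (nat_lit 4) (nat_lit 82238) (nat_lit 11) (node (nat_lit 5) (nat_lit 82498) (nat_lit 12)
  nil nil) nil) nil))) (node (nat_lit 5) (nat_lit 78393) (nat_lit 9) (node (nat_lit 6) (nat_lit
  82024) (nat_lit 10) (node (nat_lit 5) (nat_lit 84494) (nat_lit 11) (node (nat_lit 4) (nat_lit
  86000) (nat_lit 12) nil nil) nil) (node (nat_lit 4) (nat_lit 82264) (nat_lit 10) nil nil))
  nil))) nil))) (node (nat_lit 4) (nat_lit 0) (nat_lit 7) (node (nat_lit 0) (nat_lit 83062)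
  (nat_lit 8) (node (nat_lit 4) (nat_lit 83661) (nat_lit 9) (node (nat_lit 6) (nat_lit 84813)
  (nat_lit 10) (node (nat_lit 4) (nat_lit 85830) (nat_lit 11) (node (nat_lit 5) (nat_lit 80439)
  (nat_lit 12) nil nil) nil) nil) (node (nat_lit 5) (nat_lit 85105) (nat_lit 9) (node (nat_lit 4)
  (nat_lit 86257) (nat_lit 10) (node (nat_lit 5) (nat_lit 87274) (nat_lit 11) nil nil) nil) (node
  (nat_lit 6) (nat_lit 84779) (nat_lit 9) (node (nat_lit 4) (nat_lit 85931) (nat_lit 10) (node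
  (nat_lit 5) (nat_lit 86947) (nat_lit 11) nil nil) nil) nil))) (node (nat_lit 2) (nat_lit 0)
  (nat_lit 8) (node (nat_lit 4) (nat_lit 83752) (nat_lit 9) (node (nat_lit 6) (nat_lit 84904)
  (nat_lit 10) (node (nat_lit 5) (nat_lit 85921) (nat_lit 11) nil (node (nat_lit 4) (nat_lit
  85921) (nat_lit 11) nil nil)) nil) (node (nat_lit 5) (nat_lit 83456) (nat_lit 9) (node (nat_lit
  4) (nat_lit 84219) (nat_lit 10) (node (nat_lit 5) (nat_lit 83137) (nat_lit 11) nil nil) nil)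
  (node (nat_lit 6) (nat_lit 82520) (nat_lit 9) (node (nat_lit 4) (nat_lit 83672) (nat_lit 10)
  (node (nat_lit 5) (nat_lit 86144) (nat_lit 11) nil nil) nil) (node (nat_lit 0) (nat_lit 83457)
  (nat_lit 9) nil nil)))) (node (nat_lit 6) (nat_lit 0) (nat_lit 8) (node (nat_lit 0) (nat_lit
  78699) (nat_lit 9) (node (nat_lit 4) (nat_lit 80495) (nat_lit 10) (node (nat_lit 6) (nat_lit
  82589) (nat_lit 11) (node (nat_lit 5) (nat_lit 84222) (nat_lit 12) nil nil) nil) (node (nat_lit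
  6) (nat_lit 81384) (nat_lit 10) nil (node (nat_lit 5) (nat_lit 81384) (nat_lit 10) nil nil)))
  (node (nat_lit 2) (nat_lit 76898) (nat_lit 9) (node (nat_lit 4) (nat_lit 79914) (nat_lit 10)
  (node (nat_lit 6) (nat_lit 82008) (nat_lit 11) (node (nat_lit 5) (nat_lit 83641) (nat_lit 12)
  nil nil) nil) (node (nat_lit 6) (nat_lit 79583) (nat_lit 10) (node (nat_lit 4) (nat_lit 81676)
  (nat_lit 11) nil nil) (node (nat_lit 5) (nat_lit 79283) (nat_lit 10) nil nil))) (node (nat_lit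
  4) (nat_lit 0) (nat_lit 9) (node (nat_lit 2) (nat_lit 78243) (nat_lit 10) (node (nat_lit 5)
  (nat_lit 81516) (nat_lit 11) nil nil) (node (nat_lit 0) (nat_lit 79788) (nat_lit 10) nil nil))
  nil))) (node (nat_lit 5) (nat_lit 0) (nat_lit 8) (node (nat_lit 0) (nat_lit 79019) (nat_lit 9)
  (node (nat_lit 4) (nat_lit 81703) (nat_lit 10) nil (node (nat_lit 5) (nat_lit 81703) (nat_lit
  10) (node (nat_lit 4) (nat_lit 81541) (nat_lit 11) nil nil) (node (nat_lit 6) (nat_lit 81703)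
  (nat_lit 10) nil nil))) (node (nat_lit 2) (nat_lit 79199) (nat_lit 9) (node (nat_lit 4) (nat_lit
  81884) (nat_lit 10) (node (nat_lit 5) (nat_lit 83977) (nat_lit 11) nil nil) (node (nat_lit 5)
  (nat_lit 82369) (nat_lit 10) (node (nat_lit 4) (nat_lit 84463) (nat_lit 11) nil nil) (node
  (nat_lit 6) (nat_lit 81884) (nat_lit 10) nil nil))) (node (nat_lit 6) (nat_lit 77635) (nat_lit
  9) (node (nat_lit 4) (nat_lit 80319) (nat_lit 10) nil nil) nil))) nil)))) nil)))) (node (nat_lit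
  0) (nat_lit 0) (nat_lit 6) (node (nat_lit 5) (nat_lit 75601) (nat_lit 7) (node (nat_lit 4)
  (nat_lit 78926) (nat_lit 8) (node (nat_lit 6) (nat_lit 80643) (nat_lit 9) (node (nat_lit 5)
  (nat_lit 81795) (nat_lit 10) nil nil) (node (nat_lit 5) (nat_lit 80643) (nat_lit 9) (node
  (nat_lit 6) (nat_lit 81795) (nat_lit 10) (node (nat_lit 4) (nat_lit 82812) (nat_lit 11) nil nil)
  nil) nil)) (node (nat_lit 9) (nat_lit 81033) (nat_lit 8) (node (nat_lit 4) (nat_lit 82750)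
  (nat_lit 9) (node (nat_lit 6) (nat_lit 80215) (nat_lit 10) nil nil) (node (nat_lit 6) (nat_lit
  82750) (nat_lit 9) (node (nat_lit 4) (nat_lit 83902) (nat_lit 10) (node (nat_lit 5) (nat_lit
  84919) (nat_lit 11) nil nil) nil) nil)) (node (nat_lit 6) (nat_lit 78926) (nat_lit 8) (node
  (nat_lit 5) (nat_lit 80643) (nat_lit 9) nil nil) nil))) (node (nat_lit 4) (nat_lit 75854)
  (nat_lit 7) (node (nat_lit 6) (nat_lit 80539) (nat_lit 8) (node (nat_lit 5) (nat_lit 82256)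
  (nat_lit 9) nil (node (nat_lit 4) (nat_lit 82256) (nat_lit 9) (node (nat_lit 5) (nat_lit 84339)
  (nat_lit 10) (node (nat_lit 6) (nat_lit 80520) (nat_lit 11) nil nil) nil) nil)) (node (nat_lit
  9) (nat_lit 81617) (nat_lit 8) (node (nat_lit 6) (nat_lit 83334) (nat_lit 9) (node (nat_lit 4)
  (nat_lit 84486) (nat_lit 10) nil nil) nil) (node (nat_lit 5) (nat_lit 81617) (nat_lit 8) nil
  nil))) (node (nat_lit 6) (nat_lit 75971) (nat_lit 7) (node (nat_lit 4) (nat_lit 80656) (nat_lit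
  8) (node (nat_lit 5) (nat_lit 82373) (nat_lit 9) (node (nat_lit 6) (nat_lit 83526) (nat_lit 10)
  (node (nat_lit 4) (nat_lit 84542) (nat_lit 11) (node (nat_lit 6) (nat_lit 85462) (nat_lit 12)
  nil nil) nil) nil) nil) (node (nat_lit 5) (nat_lit 81239) (nat_lit 8) (node (nat_lit 4) (nat_lit
  82956) (nat_lit 9) (node (nat_lit 5) (nat_lit 84108) (nat_lit 10) (node (nat_lit 6) (nat_lit
  85125) (nat_lit 11) (node (nat_lit 4) (nat_lit 86045) (nat_lit 12) (node (nat_lit 6) (nat_lit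
  86794) (nat_lit 13) nil nil) nil) nil) nil) nil) nil)) (node (nat_lit 0) (nat_lit 77164)
  (nat_lit 7) (node (nat_lit 5) (nat_lit 81849) (nat_lit 8) (node (nat_lit 4) (nat_lit 80688)
  (nat_lit 9) nil nil) (node (nat_lit 6) (nat_lit 81849) (nat_lit 8) (node (nat_lit 4) (nat_lit
  83566) (nat_lit 9) (node (nat_lit 5) (nat_lit 84718) (nat_lit 10) nil nil) nil) (node (nat_lit
  4) (nat_lit 81849) (nat_lit 8) nil nil))) (node (nat_lit 2) (nat_lit 0) (nat_lit 7) (node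
  (nat_lit 5) (nat_lit 81714) (nat_lit 8) (node (nat_lit 4) (nat_lit 80931) (nat_lit 9) nil (node
  (nat_lit 6) (nat_lit 83431) (nat_lit 9) nil nil)) (node (nat_lit 6) (nat_lit 80635) (nat_lit 8)
  (node (nat_lit 4) (nat_lit 82352) (nat_lit 9) nil (node (nat_lit 5) (nat_lit 82352) (nat_lit 9)
  nil nil)) (node (nat_lit 4) (nat_lit 79276) (nat_lit 8) (node (nat_lit 6) (nat_lit 76074)
  (nat_lit 9) (node (nat_lit 5) (nat_lit 77227) (nat_lit 10) nil nil) (node (nat_lit 5) (nat_lit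
  80993) (nat_lit 9) nil nil)) (node (nat_lit 9) (nat_lit 81714) (nat_lit 8) nil (node (nat_lit 0)
  (nat_lit 80635) (nat_lit 8) nil nil))))) nil))))) (node (nat_lit 2) (nat_lit 0) (nat_lit 6)
  (node (nat_lit 5) (nat_lit 0) (nat_lit 7) (node (nat_lit 4) (nat_lit 72615) (nat_lit 8) (node
  (nat_lit 6) (nat_lit 74505) (nat_lit 9) (node (nat_lit 5) (nat_lit 76765) (nat_lit 10) (node
  (nat_lit 6) (nat_lit 77781) (nat_lit 11) nil nil) (node (nat_lit 4) (nat_lit 75658) (nat_lit 10)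
  (node (nat_lit 5) (nat_lit 77394) (nat_lit 11) (node (nat_lit 6) (nat_lit 74050) (nat_lit 12)
  nil nil) nil) nil)) (node (nat_lit 5) (nat_lit 63616) (nat_lit 9) (node (nat_lit 6) (nat_lit
  56925) (nat_lit 10) (node (nat_lit 4) (nat_lit 40532) (nat_lit 11) nil nil) (node (nat_lit 9)
  (nat_lit 60234) (nat_lit 10) nil nil)) (node (nat_lit 9) (nat_lit 73829) (nat_lit 9) nil nil)))
  (node (nat_lit 9) (nat_lit 80736) (nat_lit 8) (node (nat_lit 4) (nat_lit 81103) (nat_lit 9)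
  (node (nat_lit 6) (nat_lit 81446) (nat_lit 10) nil nil) (node (nat_lit 6) (nat_lit 82453)
  (nat_lit 9) (node (nat_lit 4) (nat_lit 82243) (nat_lit 10) (node (nat_lit 5) (nat_lit 80982)
  (nat_lit 11) nil nil) nil) nil)) (node (nat_lit 6) (nat_lit 80283) (nat_lit 8) (node (nat_lit 4)
  (nat_lit 82000) (nat_lit 9) nil (node (nat_lit 5) (nat_lit 82447) (nat_lit 9) nil nil)) (node
  (nat_lit 0) (nat_lit 80109) (nat_lit 8) nil nil)))) (node (nat_lit 4) (nat_lit 0) (nat_lit 7)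
  (node (nat_lit 6) (nat_lit 62649) (nat_lit 8) (node (nat_lit 5) (nat_lit 79538) (nat_lit 9)
  (node (nat_lit 6) (nat_lit 80690) (nat_lit 10) nil (node (nat_lit 4) (nat_lit 80690) (nat_lit
  10) (node (nat_lit 5) (nat_lit 81707) (nat_lit 11) nil nil) nil)) (node (nat_lit 4) (nat_lit
  64366) (nat_lit 9) (node (nat_lit 5) (nat_lit 71137) (nat_lit 10) (node (nat_lit 6) (nat_lit
  65946) (nat_lit 11) nil nil) nil) nil)) (node (nat_lit 9) (nat_lit 62649) (nat_lit 8) (node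
  (nat_lit 5) (nat_lit 76791) (nat_lit 9) (node (nat_lit 4) (nat_lit 75966) (nat_lit 10) nil nil)
  (node (nat_lit 6) (nat_lit 64366) (nat_lit 9) (node (nat_lit 4) (nat_lit 68147) (nat_lit 10)
  (node (nat_lit 5) (nat_lit 68199) (nat_lit 11) (node (nat_lit 6) (nat_lit 65410) (nat_lit 12)
  nil nil) nil) (node (nat_lit 5) (nat_lit 72300) (nat_lit 10) nil nil)) nil)) (node (nat_lit 5)
  (nat_lit 77682) (nat_lit 8) (node (nat_lit 6) (nat_lit 79399) (nat_lit 9) nil (node (nat_lit 4)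
  (nat_lit 79399) (nat_lit 9) nil nil)) (node (nat_lit 0) (nat_lit 77434) (nat_lit 8) nil nil))))
  (node (nat_lit 6) (nat_lit 57964) (nat_lit 7) (node (nat_lit 4) (nat_lit 62649) (nat_lit 8)
  (node (nat_lit 5) (nat_lit 68204) (nat_lit 9) (node (nat_lit 6) (nat_lit 55189) (nat_lit 10)
  (node (nat_lit 4) (nat_lit 41689) (nat_lit 11) (node (nat_lit 6) (nat_lit 28458) (nat_lit 12)
  nil nil) nil) nil) (node (nat_lit 6) (nat_lit 64366) (nat_lit 9) (node (nat_lit 5) (nat_lit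
  70318) (nat_lit 10) nil nil) (node (nat_lit 9) (nat_lit 64366) (nat_lit 9) nil nil))) (node
  (nat_lit 5) (nat_lit 76630) (nat_lit 8) (node (nat_lit 4) (nat_lit 78347) (nat_lit 9) (node
  (nat_lit 5) (nat_lit 79500) (nat_lit 10) (node (nat_lit 6) (nat_lit 80516) (nat_lit 11) (node
  (nat_lit 4) (nat_lit 81436) (nat_lit 12) (node (nat_lit 6) (nat_lit 82185) (nat_lit 13) nil nil)
  nil) nil) (node (nat_lit 6) (nat_lit 79500) (nat_lit 10) nil nil)) nil) nil)) (node (nat_lit 0)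
  (nat_lit 74424) (nat_lit 7) (node (nat_lit 5) (nat_lit 79361) (nat_lit 8) (node (nat_lit 4)
  (nat_lit 78200) (nat_lit 9) nil nil) (node (nat_lit 6) (nat_lit 79109) (nat_lit 8) (node
  (nat_lit 4) (nat_lit 80826) (nat_lit 9) nil (node (nat_lit 5) (nat_lit 80826) (nat_lit 9) nil
  nil)) (node (nat_lit 4) (nat_lit 77749) (nat_lit 8) (node (nat_lit 6) (nat_lit 74548) (nat_lit
  9) nil (node (nat_lit 5) (nat_lit 79466) (nat_lit 9) nil nil)) (node (nat_lit 9) (nat_lit 79605)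
  (nat_lit 8) nil nil)))) nil)))) nil)))

noncomputable def t193 : Tr :=
  (node (nat_lit 1) (nat_lit 0) (nat_lit 3) (node (nat_lit 4) (nat_lit 0) (nat_lit 4) (node
  (nat_lit 5) (nat_lit 0) (nat_lit 5) t191 (node (nat_lit 6) (nat_lit 0) (nat_lit 5) t192 nil))
  (node (nat_lit 5) (nat_lit 0) (nat_lit 4) (node (nat_lit 4) (nat_lit 0) (nat_lit 5) (node
  (nat_lit 5) (nat_lit 0) (nat_lit 6) (node (nat_lit 0) (nat_lit 110542) (nat_lit 7) (node
  (nat_lit 5) (nat_lit 111198) (nat_lit 8) (node (nat_lit 4) (nat_lit 110037) (nat_lit 9) (node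
  (nat_lit 5) (nat_lit 111189) (nat_lit 10) (node (nat_lit 6) (nat_lit 112206) (nat_lit 11) (node
  (nat_lit 5) (nat_lit 113126) (nat_lit 12) (node (nat_lit 4) (nat_lit 112697) (nat_lit 13) nil
  nil) nil) nil) nil) nil) nil) (node (nat_lit 2) (nat_lit 104571) (nat_lit 7) nil (node (nat_lit
  6) (nat_lit 59678) (nat_lit 7) (node (nat_lit 0) (nat_lit 69623) (nat_lit 8) nil (node (nat_lit
  2) (nat_lit 71953) (nat_lit 8) nil nil)) nil))) (node (nat_lit 6) (nat_lit 0) (nat_lit 6) (node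
  (nat_lit 0) (nat_lit 0) (nat_lit 7) (node (nat_lit 5) (nat_lit 119835) (nat_lit 8) (node
  (nat_lit 4) (nat_lit 118914) (nat_lit 9) (node (nat_lit 5) (nat_lit 120066) (nat_lit 10) (node
  (nat_lit 6) (nat_lit 121083) (nat_lit 11) nil nil) nil) nil) (node (nat_lit 4) (nat_lit 119835)
  (nat_lit 8) (node (nat_lit 10) (nat_lit 120547) (nat_lit 9) nil (node (nat_lit 6) (nat_lit
  120547) (nat_lit 9) (node (nat_lit 4) (nat_lit 121076) (nat_lit 10) (node (nat_lit 5) (nat_lit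
  119299) (nat_lit 11) (node (nat_lit 6) (nat_lit 115217) (nat_lit 12) (node (nat_lit 5) (nat_lit
  109568) (nat_lit 13) (node (nat_lit 4) (nat_lit 96393) (nat_lit 14) (node (nat_lit 6) (nat_lit
  75310) (nat_lit 15) nil nil) nil) nil) nil) nil) nil) nil)) (node (nat_lit 6) (nat_lit 119835)
  (nat_lit 8) (node (nat_lit 4) (nat_lit 120547) (nat_lit 9) (node (nat_lit 5) (nat_lit 121076)
  (nat_lit 10) (node (nat_lit 6) (nat_lit 121542) (nat_lit 11) (node (nat_lit 5) (nat_lit 121964)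
  (nat_lit 12) (node (nat_lit 4) (nat_lit 122308) (nat_lit 13) (node (nat_lit 6) (nat_lit 122575)
  (nat_lit 14) nil nil) nil) nil) nil) nil) nil) (node (nat_lit 0) (nat_lit 119835) (nat_lit 8)
  (node (nat_lit 6) (nat_lit 120547) (nat_lit 9) nil nil) (node (nat_lit 2) (nat_lit 116313)
  (nat_lit 8) (node (nat_lit 6) (nat_lit 116968) (nat_lit 9) (node (nat_lit 5) (nat_lit 115802)
  (nat_lit 10) nil (node (nat_lit 4) (nat_lit 117129) (nat_lit 10) nil nil)) (node (nat_lit 10)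
  (nat_lit 117024) (nat_lit 9) nil (node (nat_lit 5) (nat_lit 115034) (nat_lit 9) (node (nat_lit
  4) (nat_lit 112875) (nat_lit 10) (node (nat_lit 5) (nat_lit 105811) (nat_lit 11) nil nil) (node
  (nat_lit 6) (nat_lit 114942) (nat_lit 10) nil nil)) nil))) nil))))) (node (nat_lit 2) (nat_lit
  0) (nat_lit 7) (node (nat_lit 5) (nat_lit 119445) (nat_lit 8) (node (nat_lit 10) (nat_lit
  118898) (nat_lit 9) (node (nat_lit 6) (nat_lit 118806) (nat_lit 10) nil nil) (node (nat_lit 4)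
  (nat_lit 118248) (nat_lit 9) (node (nat_lit 6) (nat_lit 115278) (nat_lit 10) nil (node (nat_lit
  5) (nat_lit 114532) (nat_lit 10) (node (nat_lit 6) (nat_lit 107962) (nat_lit 11) (node (nat_lit
  5) (nat_lit 88471) (nat_lit 12) (node (nat_lit 4) (nat_lit 73373) (nat_lit 13) (node (nat_lit 6)
  (nat_lit 73303) (nat_lit 14) nil nil) nil) nil) nil) nil)) (node (nat_lit 6) (nat_lit 116457)
  (nat_lit 9) (node (nat_lit 4) (nat_lit 116618) (nat_lit 10) nil nil) nil))) (node (nat_lit 4)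
  (nat_lit 119445) (nat_lit 8) (node (nat_lit 10) (nat_lit 115654) (nat_lit 9) nil (node (nat_lit
  6) (nat_lit 120157) (nat_lit 9) (node (nat_lit 4) (nat_lit 120686) (nat_lit 10) (node (nat_lit
  5) (nat_lit 118365) (nat_lit 11) (node (nat_lit 6) (nat_lit 114283) (nat_lit 12) (node (nat_lit
  5) (nat_lit 108634) (nat_lit 13) (node (nat_lit 4) (nat_lit 95459) (nat_lit 14) (node (nat_lit
  6) (nat_lit 74799) (nat_lit 15) nil nil) nil) nil) nil) nil) nil) nil)) (node (nat_lit 6)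
  (nat_lit 115249) (nat_lit 8) (node (nat_lit 5) (nat_lit 114088) (nat_lit 9) nil (node (nat_lit
  4) (nat_lit 117110) (nat_lit 9) (node (nat_lit 5) (nat_lit 114552) (nat_lit 10) (node (nat_lit
  6) (nat_lit 110120) (nat_lit 11) (node (nat_lit 5) (nat_lit 105554) (nat_lit 12) (node (nat_lit
  4) (nat_lit 91217) (nat_lit 13) (node (nat_lit 6) (nat_lit 48451) (nat_lit 14) nil nil) nil)
  nil) nil) nil) nil)) (node (nat_lit 0) (nat_lit 119445) (nat_lit 8) (node (nat_lit 6) (nat_lit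
  120157) (nat_lit 9) nil nil) nil)))) (node (nat_lit 5) (nat_lit 0) (nat_lit 7) (node (nat_lit 0)
  (nat_lit 116343) (nat_lit 8) (node (nat_lit 5) (nat_lit 118060) (nat_lit 9) (node (nat_lit 4)
  (nat_lit 116893) (nat_lit 10) (node (nat_lit 5) (nat_lit 117910) (nat_lit 11) nil (node (nat_lit
  6) (nat_lit 117264) (nat_lit 11) nil nil)) (node (nat_lit 6) (nat_lit 115090) (nat_lit 10) nil
  nil)) (node (nat_lit 6) (nat_lit 118060) (nat_lit 9) nil nil)) (node (nat_lit 2) (nat_lit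
  116343) (nat_lit 8) (node (nat_lit 5) (nat_lit 115952) (nat_lit 9) (node (nat_lit 4) (nat_lit
  114537) (nat_lit 10) (node (nat_lit 5) (nat_lit 104874) (nat_lit 11) (node (nat_lit 6) (nat_lit
  100922) (nat_lit 12) nil nil) nil) (node (nat_lit 6) (nat_lit 115468) (nat_lit 10) nil nil))
  (node (nat_lit 6) (nat_lit 116944) (nat_lit 9) (node (nat_lit 4) (nat_lit 118096) (nat_lit 10)
  (node (nat_lit 5) (nat_lit 118744) (nat_lit 11) (node (nat_lit 6) (nat_lit 105529) (nat_lit 12)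
  nil nil) nil) nil) nil)) (node (nat_lit 6) (nat_lit 0) (nat_lit 8) (node (nat_lit 0) (nat_lit
  112494) (nat_lit 9) (node (nat_lit 5) (nat_lit 112364) (nat_lit 10) (node (nat_lit 6) (nat_lit
  114308) (nat_lit 11) (node (nat_lit 5) (nat_lit 115941) (nat_lit 12) nil nil) nil) (node
  (nat_lit 6) (nat_lit 115178) (nat_lit 10) nil nil)) (node (nat_lit 2) (nat_lit 112494) (nat_lit
  9) (node (nat_lit 5) (nat_lit 115225) (nat_lit 10) (node (nat_lit 6) (nat_lit 114639) (nat_lit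
  11) nil nil) (node (nat_lit 6) (nat_lit 114102) (nat_lit 10) nil nil)) (node (nat_lit 4)
  (nat_lit 112494) (nat_lit 9) (node (nat_lit 5) (nat_lit 115510) (nat_lit 10) nil nil) nil)))
  nil))) (node (nat_lit 4) (nat_lit 0) (nat_lit 7) (node (nat_lit 0) (nat_lit 115715) (nat_lit 8)
  (node (nat_lit 6) (nat_lit 117432) (nat_lit 9) (node (nat_lit 4) (nat_lit 118585) (nat_lit 10)
  (node (nat_lit 5) (nat_lit 119601) (nat_lit 11) nil nil) nil) (node (nat_lit 5) (nat_lit 117432)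
  (nat_lit 9) nil nil)) (node (nat_lit 2) (nat_lit 115715) (nat_lit 8) (node (nat_lit 4) (nat_lit
  116168) (nat_lit 9) nil (node (nat_lit 6) (nat_lit 116316) (nat_lit 9) (node (nat_lit 4)
  (nat_lit 117468) (nat_lit 10) (node (nat_lit 5) (nat_lit 116570) (nat_lit 11) nil nil) nil)
  (node (nat_lit 5) (nat_lit 110849) (nat_lit 9) (node (nat_lit 4) (nat_lit 108690) (nat_lit 10)
  (node (nat_lit 5) (nat_lit 105888) (nat_lit 11) nil nil) nil) nil))) (node (nat_lit 5) (nat_lit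
  0) (nat_lit 8) (node (nat_lit 6) (nat_lit 98717) (nat_lit 9) (node (nat_lit 4) (nat_lit 99518)
  (nat_lit 10) nil (node (nat_lit 5) (nat_lit 85602) (nat_lit 10) nil nil)) (node (nat_lit 0)
  (nat_lit 111866) (nat_lit 9) (node (nat_lit 6) (nat_lit 114551) (nat_lit 10) nil (node (nat_lit
  5) (nat_lit 114551) (nat_lit 10) nil nil)) (node (nat_lit 2) (nat_lit 111866) (nat_lit 9) (node
  (nat_lit 6) (nat_lit 112590) (nat_lit 10) nil (node (nat_lit 5) (nat_lit 114541) (nat_lit 10)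
  (node (nat_lit 4) (nat_lit 113854) (nat_lit 11) nil nil) (node (nat_lit 4) (nat_lit 114551)
  (nat_lit 10) nil nil))) nil))) nil))) nil)))) (node (nat_lit 0) (nat_lit 0) (nat_lit 6) (node
  (nat_lit 5) (nat_lit 115778) (nat_lit 7) (node (nat_lit 4) (nat_lit 119376) (nat_lit 8) (node
  (nat_lit 5) (nat_lit 120088) (nat_lit 9) (node (nat_lit 6) (nat_lit 120617) (nat_lit 10) (node
  (nat_lit 5) (nat_lit 121083) (nat_lit 11) (node (nat_lit 4) (nat_lit 121504) (nat_lit 12) nil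
  nil) nil) nil) nil) (node (nat_lit 6) (nat_lit 118494) (nat_lit 8) nil nil)) (node (nat_lit 6)
  (nat_lit 117232) (nat_lit 7) (node (nat_lit 5) (nat_lit 118096) (nat_lit 8) nil (node (nat_lit
  4) (nat_lit 119376) (nat_lit 8) (node (nat_lit 5) (nat_lit 120088) (nat_lit 9) (node (nat_lit 6)
  (nat_lit 120617) (nat_lit 10) (node (nat_lit 5) (nat_lit 121083) (nat_lit 11) (node (nat_lit 4)
  (nat_lit 121504) (nat_lit 12) nil nil) nil) nil) nil) nil)) (node (nat_lit 4) (nat_lit 115778)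
  (nat_lit 7) (node (nat_lit 6) (nat_lit 117238) (nat_lit 8) (node (nat_lit 5) (nat_lit 116077)
  (nat_lit 9) nil nil) nil) (node (nat_lit 0) (nat_lit 117232) (nat_lit 7) (node (nat_lit 6)
  (nat_lit 119376) (nat_lit 8) nil (node (nat_lit 5) (nat_lit 118096) (nat_lit 8) nil nil)) (node
  (nat_lit 2) (nat_lit 112534) (nat_lit 7) (node (nat_lit 6) (nat_lit 114679) (nat_lit 8) (node
  (nat_lit 4) (nat_lit 114173) (nat_lit 9) (node (nat_lit 5) (nat_lit 109430) (nat_lit 10) nil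
  nil) (node (nat_lit 5) (nat_lit 113726) (nat_lit 9) nil nil)) (node (nat_lit 5) (nat_lit 112570)
  (nat_lit 8) (node (nat_lit 4) (nat_lit 110851) (nat_lit 9) (node (nat_lit 5) (nat_lit 105485)
  (nat_lit 10) nil nil) (node (nat_lit 6) (nat_lit 113282) (nat_lit 9) nil nil)) (node (nat_lit 4)
  (nat_lit 114679) (nat_lit 8) (node (nat_lit 6) (nat_lit 115390) (nat_lit 9) nil nil) nil)))
  nil))))) (node (nat_lit 2) (nat_lit 0) (nat_lit 6) (node (nat_lit 5) (nat_lit 117232) (nat_lit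
  7) (node (nat_lit 4) (nat_lit 115572) (nat_lit 8) (node (nat_lit 6) (nat_lit 116325) (nat_lit 9)
  (node (nat_lit 4) (nat_lit 116735) (nat_lit 10) (node (nat_lit 5) (nat_lit 115368) (nat_lit 11)
  nil nil) nil) (node (nat_lit 5) (nat_lit 109891) (nat_lit 9) (node (nat_lit 6) (nat_lit 91155)
  (nat_lit 10) (node (nat_lit 5) (nat_lit 79803) (nat_lit 11) (node (nat_lit 4) (nat_lit 78785)
  (nat_lit 12) nil nil) nil) nil) nil)) (node (nat_lit 9) (nat_lit 117549) (nat_lit 8) (node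
  (nat_lit 6) (nat_lit 119494) (nat_lit 9) nil nil) (node (nat_lit 6) (nat_lit 118945) (nat_lit 8)
  (node (nat_lit 4) (nat_lit 116174) (nat_lit 9) (node (nat_lit 5) (nat_lit 110579) (nat_lit 10)
  nil nil) nil) nil))) (node (nat_lit 6) (nat_lit 116021) (nat_lit 7) (node (nat_lit 5) (nat_lit
  118087) (nat_lit 8) (node (nat_lit 4) (nat_lit 116926) (nat_lit 9) (node (nat_lit 5) (nat_lit
  118078) (nat_lit 10) (node (nat_lit 6) (nat_lit 119095) (nat_lit 11) nil nil) nil) nil) (node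
  (nat_lit 4) (nat_lit 115011) (nat_lit 8) (node (nat_lit 5) (nat_lit 103151) (nat_lit 9) (node
  (nat_lit 6) (nat_lit 88828) (nat_lit 10) (node (nat_lit 5) (nat_lit 70025) (nat_lit 11) (node
  (nat_lit 4) (nat_lit 45984) (nat_lit 12) nil nil) nil) nil) nil) nil)) (node (nat_lit 4)
  (nat_lit 117232) (nat_lit 7) (node (nat_lit 6) (nat_lit 119376) (nat_lit 8) (node (nat_lit 5)
  (nat_lit 120088) (nat_lit 9) nil nil) nil) (node (nat_lit 0) (nat_lit 117130) (nat_lit 7) (node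
  (nat_lit 6) (nat_lit 119376) (nat_lit 8) nil (node (nat_lit 5) (nat_lit 117787) (nat_lit 8) nil
  nil)) nil)))) nil)))) nil) nil)) (node (nat_lit 4) (nat_lit 0) (nat_lit 3) (node (nat_lit 1)
  (nat_lit 0) (nat_lit 4) (node (nat_lit 5) (nat_lit 0) (nat_lit 5) (node (nat_lit 7) (nat_lit 0)
  (nat_lit 6) (node (nat_lit 0) (nat_lit 71222) (nat_lit 7) nil (node (nat_lit 4) (nat_lit 60938)
  (nat_lit 7) (node (nat_lit 5) (nat_lit 61854) (nat_lit 8) nil nil) (node (nat_lit 2) (nat_lit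
  71222) (nat_lit 7) nil nil))) (node (nat_lit 4) (nat_lit 0) (nat_lit 6) (node (nat_lit 0)
  (nat_lit 63567) (nat_lit 7) (node (nat_lit 7) (nat_lit 66080) (nat_lit 8) (node (nat_lit 4)
  (nat_lit 67042) (nat_lit 9) (node (nat_lit 5) (nat_lit 67647) (nat_lit 10) (node (nat_lit 4)
  (nat_lit 66230) (nat_lit 11) (node (nat_lit 7) (nat_lit 66448) (nat_lit 12) nil nil) nil) nil)
  nil) nil) (node (nat_lit 2) (nat_lit 69108) (nat_lit 7) nil (node (nat_lit 5) (nat_lit 59873)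
  (nat_lit 7) (node (nat_lit 7) (nat_lit 65571) (nat_lit 8) (node (nat_lit 4) (nat_lit 67008)
  (nat_lit 9) (node (nat_lit 5) (nat_lit 65511) (nat_lit 10) (node (nat_lit 4) (nat_lit 66683)
  (nat_lit 11) (node (nat_lit 7) (nat_lit 67879) (nat_lit 12) nil nil) nil) nil) nil) nil) nil)))
  (node (nat_lit 0) (nat_lit 67274) (nat_lit 6) nil (node (nat_lit 2) (nat_lit 67274) (nat_lit 6)
  nil nil)))) (node (nat_lit 4) (nat_lit 0) (nat_lit 5) (node (nat_lit 5) (nat_lit 0) (nat_lit 6)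
  (node (nat_lit 0) (nat_lit 0) (nat_lit 7) (node (nat_lit 7) (nat_lit 61266) (nat_lit 8) (node
  (nat_lit 10) (nat_lit 62522) (nat_lit 9) (node (nat_lit 5) (nat_lit 63127) (nat_lit 10) nil nil)
  (node (nat_lit 5) (nat_lit 59263) (nat_lit 9) nil (node (nat_lit 4) (nat_lit 62228) (nat_lit 9)
  (node (nat_lit 5) (nat_lit 62833) (nat_lit 10) (node (nat_lit 4) (nat_lit 61417) (nat_lit 11)
  (node (nat_lit 7) (nat_lit 61634) (nat_lit 12) nil nil) nil) nil) nil))) (node (nat_lit 4)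
  (nat_lit 61516) (nat_lit 8) (node (nat_lit 10) (nat_lit 62478) (nat_lit 9) nil (node (nat_lit 7)
  (nat_lit 62478) (nat_lit 9) (node (nat_lit 4) (nat_lit 63164) (nat_lit 10) (node (nat_lit 5)
  (nat_lit 63642) (nat_lit 11) (node (nat_lit 4) (nat_lit 47484) (nat_lit 12) nil nil) nil) nil)
  nil)) (node (nat_lit 0) (nat_lit 61516) (nat_lit 8) (node (nat_lit 10) (nat_lit 62478) (nat_lit
  9) nil (node (nat_lit 7) (nat_lit 62478) (nat_lit 9) (node (nat_lit 4) (nat_lit 63083) (nat_lit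
  10) nil nil) nil)) (node (nat_lit 2) (nat_lit 61266) (nat_lit 8) (node (nat_lit 10) (nat_lit
  62228) (nat_lit 9) nil (node (nat_lit 7) (nat_lit 62228) (nat_lit 9) (node (nat_lit 4) (nat_lit
  63164) (nat_lit 10) (node (nat_lit 5) (nat_lit 54460) (nat_lit 11) nil nil) nil) (node (nat_lit
  5) (nat_lit 62228) (nat_lit 9) nil (node (nat_lit 4) (nat_lit 62522) (nat_lit 9) (node (nat_lit
  7) (nat_lit 63127) (nat_lit 10) nil nil) nil)))) (node (nat_lit 5) (nat_lit 61266) (nat_lit 8)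
  (node (nat_lit 7) (nat_lit 62228) (nat_lit 9) (node (nat_lit 4) (nat_lit 63164) (nat_lit 10)
  (node (nat_lit 5) (nat_lit 63642) (nat_lit 11) (node (nat_lit 4) (nat_lit 56667) (nat_lit 12)
  nil nil) nil) nil) nil) nil))))) (node (nat_lit 2) (nat_lit 0) (nat_lit 7) (node (nat_lit 7)
  (nat_lit 0) (nat_lit 8) (node (nat_lit 10) (nat_lit 59046) (nat_lit 9) (node (nat_lit 5)
  (nat_lit 59619) (nat_lit 10) (node (nat_lit 7) (nat_lit 57402) (nat_lit 11) (node (nat_lit 4)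
  (nat_lit 56836) (nat_lit 12) nil nil) nil) (node (nat_lit 4) (nat_lit 61470) (nat_lit 10) (node
  (nat_lit 7) (nat_lit 62003) (nat_lit 11) (node (nat_lit 4) (nat_lit 58687) (nat_lit 12) (node
  (nat_lit 5) (nat_lit 58180) (nat_lit 13) nil nil) nil) nil) nil)) (node (nat_lit 5) (nat_lit
  58751) (nat_lit 9) (node (nat_lit 7) (nat_lit 59324) (nat_lit 10) (node (nat_lit 4) (nat_lit
  61131) (nat_lit 11) (node (nat_lit 5) (nat_lit 59939) (nat_lit 12) (node (nat_lit 4) (nat_lit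
  57441) (nat_lit 13) (node (nat_lit 7) (nat_lit 41166) (nat_lit 14) (node (nat_lit 4) (nat_lit
  34491) (nat_lit 15) nil nil) nil) nil) nil) nil) nil) (node (nat_lit 4) (nat_lit 61320) (nat_lit
  9) (node (nat_lit 5) (nat_lit 61925) (nat_lit 10) (node (nat_lit 4) (nat_lit 39999) (nat_lit 11)
  (node (nat_lit 7) (nat_lit 28739) (nat_lit 12) nil nil) nil) nil) (node (nat_lit 0) (nat_lit
  58458) (nat_lit 9) nil nil)))) (node (nat_lit 4) (nat_lit 61315) (nat_lit 8) (node (nat_lit 10)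
  (nat_lit 62276) (nat_lit 9) (node (nat_lit 7) (nat_lit 62881) (nat_lit 10) (node (nat_lit 4)
  (nat_lit 63692) (nat_lit 11) (node (nat_lit 5) (nat_lit 62928) (nat_lit 12) (node (nat_lit 4)
  (nat_lit 58108) (nat_lit 13) (node (nat_lit 7) (nat_lit 53984) (nat_lit 14) (node (nat_lit 4)
  (nat_lit 43059) (nat_lit 15) (node (nat_lit 5) (nat_lit 31801) (nat_lit 16) nil nil) nil) nil)
  nil) nil) nil) nil) (node (nat_lit 7) (nat_lit 62276) (nat_lit 9) (node (nat_lit 5) (nat_lit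
  62881) (nat_lit 10) nil (node (nat_lit 4) (nat_lit 63176) (nat_lit 10) (node (nat_lit 5)
  (nat_lit 63642) (nat_lit 11) (node (nat_lit 4) (nat_lit 47496) (nat_lit 12) nil nil) nil) nil))
  (node (nat_lit 5) (nat_lit 62276) (nat_lit 9) (node (nat_lit 7) (nat_lit 59359) (nat_lit 10)
  (node (nat_lit 4) (nat_lit 58349) (nat_lit 11) nil nil) nil) nil))) (node (nat_lit 0) (nat_lit
  61315) (nat_lit 8) (node (nat_lit 10) (nat_lit 62276) (nat_lit 9) (node (nat_lit 7) (nat_lit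
  59359) (nat_lit 10) (node (nat_lit 4) (nat_lit 58349) (nat_lit 11) nil nil) nil) (node (nat_lit
  7) (nat_lit 62276) (nat_lit 9) (node (nat_lit 4) (nat_lit 62881) (nat_lit 10) nil nil) nil))
  (node (nat_lit 5) (nat_lit 0) (nat_lit 8) (node (nat_lit 7) (nat_lit 59100) (nat_lit 9) (node
  (nat_lit 4) (nat_lit 61524) (nat_lit 10) (node (nat_lit 5) (nat_lit 62057) (nat_lit 11) (node
  (nat_lit 4) (nat_lit 56667) (nat_lit 12) nil nil) nil) nil) (node (nat_lit 4) (nat_lit 61655)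
  (nat_lit 9) nil (node (nat_lit 0) (nat_lit 61655) (nat_lit 9) nil nil))) nil)))) (node (nat_lit
  7) (nat_lit 0) (nat_lit 7) (node (nat_lit 0) (nat_lit 61146) (nat_lit 8) (node (nat_lit 7)
  (nat_lit 62108) (nat_lit 9) (node (nat_lit 4) (nat_lit 62713) (nat_lit 10) (node (nat_lit 5)
  (nat_lit 63246) (nat_lit 11) (node (nat_lit 4) (nat_lit 62165) (nat_lit 12) (node (nat_lit 7)
  (nat_lit 62312) (nat_lit 13) nil nil) nil) nil) nil) (node (nat_lit 4) (nat_lit 62358) (nat_lit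
  9) nil nil)) (node (nat_lit 2) (nat_lit 0) (nat_lit 8) (node (nat_lit 7) (nat_lit 58825)
  (nat_lit 9) (node (nat_lit 4) (nat_lit 61482) (nat_lit 10) (node (nat_lit 5) (nat_lit 57824)
  (nat_lit 11) (node (nat_lit 4) (nat_lit 57295) (nat_lit 12) (node (nat_lit 7) (nat_lit 50281)
  (nat_lit 13) nil nil) nil) nil) nil) (node (nat_lit 5) (nat_lit 58927) (nat_lit 9) nil (node
  (nat_lit 4) (nat_lit 61541) (nat_lit 9) nil (node (nat_lit 0) (nat_lit 61541) (nat_lit 9) nil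
  nil)))) (node (nat_lit 4) (nat_lit 0) (nat_lit 8) (node (nat_lit 0) (nat_lit 58715) (nat_lit 9)
  (node (nat_lit 7) (nat_lit 60263) (nat_lit 10) (node (nat_lit 4) (nat_lit 61471) (nat_lit 11)
  (node (nat_lit 5) (nat_lit 62414) (nat_lit 12) nil nil) nil) (node (nat_lit 5) (nat_lit 60263)
  (nat_lit 10) nil nil)) (node (nat_lit 2) (nat_lit 58611) (nat_lit 9) (node (nat_lit 7) (nat_lit
  60159) (nat_lit 10) (node (nat_lit 4) (nat_lit 61616) (nat_lit 11) (node (nat_lit 5) (nat_lit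
  62559) (nat_lit 12) (node (nat_lit 4) (nat_lit 51843) (nat_lit 13) nil nil) nil) nil) (node
  (nat_lit 5) (nat_lit 60159) (nat_lit 10) nil nil)) (node (nat_lit 7) (nat_lit 0) (nat_lit 9)
  (node (nat_lit 0) (nat_lit 60344) (nat_lit 10) (node (nat_lit 7) (nat_lit 61552) (nat_lit 11)
  nil nil) (node (nat_lit 2) (nat_lit 60159) (nat_lit 10) (node (nat_lit 7) (nat_lit 61367)
  (nat_lit 11) nil nil) nil)) nil))) (node (nat_lit 5) (nat_lit 0) (nat_lit 8) (node (nat_lit 0)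
  (nat_lit 58704) (nat_lit 9) (node (nat_lit 7) (nat_lit 60252) (nat_lit 10) nil (node (nat_lit 5)
  (nat_lit 60252) (nat_lit 10) nil (node (nat_lit 4) (nat_lit 60333) (nat_lit 10) nil nil))) (node
  (nat_lit 2) (nat_lit 55168) (nat_lit 9) (node (nat_lit 7) (nat_lit 56716) (nat_lit 10) (node
  (nat_lit 4) (nat_lit 60948) (nat_lit 11) nil nil) (node (nat_lit 5) (nat_lit 56716) (nat_lit 10)
  (node (nat_lit 7) (nat_lit 57924) (nat_lit 11) nil nil) (node (nat_lit 4) (nat_lit 59677)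
  (nat_lit 10) nil nil))) (node (nat_lit 4) (nat_lit 58787) (nat_lit 9) nil nil))) nil)))) nil)))
  (node (nat_lit 0) (nat_lit 0) (nat_lit 6) (node (nat_lit 5) (nat_lit 68267) (nat_lit 7) (node
  (nat_lit 7) (nat_lit 64468) (nat_lit 8) (node (nat_lit 4) (nat_lit 62025) (nat_lit 9) (node
  (nat_lit 5) (nat_lit 59123) (nat_lit 10) (node (nat_lit 4) (nat_lit 49266) (nat_lit 11) (node
  (nat_lit 7) (nat_lit 38006) (nat_lit 12) nil nil) nil) nil) nil) (node (nat_lit 9) (nat_lit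
  70780) (nat_lit 8) nil nil)) (node (nat_lit 7) (nat_lit 68267) (nat_lit 7) (node (nat_lit 4)
  (nat_lit 70780) (nat_lit 8) (node (nat_lit 5) (nat_lit 71741) (nat_lit 9) (node (nat_lit 4)
  (nat_lit 69959) (nat_lit 10) (node (nat_lit 7) (nat_lit 70130) (nat_lit 11) (node (nat_lit 4)
  (nat_lit 69564) (nat_lit 12) nil nil) nil) nil) nil) nil) (node (nat_lit 4) (nat_lit 68267)
  (nat_lit 7) (node (nat_lit 7) (nat_lit 70780) (nat_lit 8) nil (node (nat_lit 5) (nat_lit 70780)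
  (nat_lit 8) nil nil)) (node (nat_lit 0) (nat_lit 68267) (nat_lit 7) (node (nat_lit 7) (nat_lit
  70780) (nat_lit 8) nil nil) (node (nat_lit 2) (nat_lit 68267) (nat_lit 7) (node (nat_lit 5)
  (nat_lit 69903) (nat_lit 8) nil (node (nat_lit 4) (nat_lit 69903) (nat_lit 8) (node (nat_lit 7)
  (nat_lit 67044) (nat_lit 9) nil nil) (node (nat_lit 7) (nat_lit 70780) (nat_lit 8) nil nil)))
  nil))))) (node (nat_lit 2) (nat_lit 0) (nat_lit 6) (node (nat_lit 5) (nat_lit 68267) (nat_lit 7)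
  (node (nat_lit 7) (nat_lit 70780) (nat_lit 8) (node (nat_lit 4) (nat_lit 68704) (nat_lit 9)
  (node (nat_lit 5) (nat_lit 65802) (nat_lit 10) (node (nat_lit 4) (nat_lit 55945) (nat_lit 11)
  (node (nat_lit 7) (nat_lit 44685) (nat_lit 12) nil nil) nil) nil) nil) (node (nat_lit 9)
  (nat_lit 66657) (nat_lit 8) nil nil)) (node (nat_lit 7) (nat_lit 68267) (nat_lit 7) (node
  (nat_lit 4) (nat_lit 70780) (nat_lit 8) (node (nat_lit 5) (nat_lit 61968) (nat_lit 9) (node
  (nat_lit 4) (nat_lit 55065) (nat_lit 10) (node (nat_lit 7) (nat_lit 34704) (nat_lit 11) nil nil)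
  nil) nil) (node (nat_lit 9) (nat_lit 70780) (nat_lit 8) nil nil)) (node (nat_lit 4) (nat_lit
  68267) (nat_lit 7) (node (nat_lit 7) (nat_lit 70780) (nat_lit 8) (node (nat_lit 4) (nat_lit
  69735) (nat_lit 9) (node (nat_lit 5) (nat_lit 66833) (nat_lit 10) nil nil) nil) (node (nat_lit
  5) (nat_lit 70780) (nat_lit 8) (node (nat_lit 7) (nat_lit 71741) (nat_lit 9) nil nil) nil))
  (node (nat_lit 0) (nat_lit 68267) (nat_lit 7) (node (nat_lit 7) (nat_lit 70780) (nat_lit 8) nil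
  nil) nil)))) nil))) nil)) nil) nil))

noncomputable def t194 : Tr :=
  (node (nat_lit 5) (nat_lit 42816) (nat_lit 5) (node (nat_lit 4) (nat_lit 47158) (nat_lit 6)
  (node (nat_lit 6) (nat_lit 57904) (nat_lit 7) nil nil) nil) (node (nat_lit 6) (nat_lit 0)
  (nat_lit 5) (node (nat_lit 5) (nat_lit 0) (nat_lit 6) (node (nat_lit 0) (nat_lit 0) (nat_lit 7)
  (node (nat_lit 4) (nat_lit 88253) (nat_lit 8) (node (nat_lit 10) (nat_lit 89259) (nat_lit 9)
  (node (nat_lit 5) (nat_lit 89882) (nat_lit 10) (node (nat_lit 4) (nat_lit 90432) (nat_lit 11)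
  (node (nat_lit 5) (nat_lit 90931) (nat_lit 12) (node (nat_lit 6) (nat_lit 91335) (nat_lit 13)
  (node (nat_lit 4) (nat_lit 91650) (nat_lit 14) nil nil) nil) nil) nil) (node (nat_lit 6)
  (nat_lit 89882) (nat_lit 10) nil nil)) (node (nat_lit 5) (nat_lit 89259) (nat_lit 9) nil (node
  (nat_lit 6) (nat_lit 89259) (nat_lit 9) (node (nat_lit 4) (nat_lit 89882) (nat_lit 10) (node
  (nat_lit 5) (nat_lit 90432) (nat_lit 11) (node (nat_lit 6) (nat_lit 90931) (nat_lit 12) nil nil)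
  nil) nil) nil))) (node (nat_lit 6) (nat_lit 88253) (nat_lit 8) (node (nat_lit 10) (nat_lit
  89259) (nat_lit 9) (node (nat_lit 4) (nat_lit 89882) (nat_lit 10) nil nil) (node (nat_lit 4)
  (nat_lit 89259) (nat_lit 9) (node (nat_lit 5) (nat_lit 89882) (nat_lit 10) (node (nat_lit 6)
  (nat_lit 90432) (nat_lit 11) nil nil) nil) (node (nat_lit 5) (nat_lit 89259) (nat_lit 9) (node
  (nat_lit 4) (nat_lit 89882) (nat_lit 10) (node (nat_lit 5) (nat_lit 90432) (nat_lit 11) (node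
  (nat_lit 6) (nat_lit 90931) (nat_lit 12) nil nil) nil) nil) nil))) (node (nat_lit 0) (nat_lit
  88253) (nat_lit 8) (node (nat_lit 10) (nat_lit 89259) (nat_lit 9) nil (node (nat_lit 5) (nat_lit
  89259) (nat_lit 9) (node (nat_lit 4) (nat_lit 89882) (nat_lit 10) nil nil) (node (nat_lit 6)
  (nat_lit 89259) (nat_lit 9) (node (nat_lit 4) (nat_lit 89882) (nat_lit 10) nil nil) nil))) (node
  (nat_lit 2) (nat_lit 88253) (nat_lit 8) (node (nat_lit 10) (nat_lit 89259) (nat_lit 9) (node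
  (nat_lit 5) (nat_lit 89882) (nat_lit 10) nil (node (nat_lit 6) (nat_lit 89882) (nat_lit 10)
  (node (nat_lit 4) (nat_lit 90432) (nat_lit 11) nil nil) nil)) (node (nat_lit 4) (nat_lit 89259)
  (nat_lit 9) (node (nat_lit 6) (nat_lit 89882) (nat_lit 10) nil nil) (node (nat_lit 5) (nat_lit
  89259) (nat_lit 9) (node (nat_lit 4) (nat_lit 89882) (nat_lit 10) nil nil) (node (nat_lit 6)
  (nat_lit 89259) (nat_lit 9) (node (nat_lit 4) (nat_lit 88319) (nat_lit 10) (node (nat_lit 5)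
  (nat_lit 81195) (nat_lit 11) nil nil) (node (nat_lit 5) (nat_lit 89882) (nat_lit 10) nil nil))
  nil)))) (node (nat_lit 5) (nat_lit 88336) (nat_lit 8) (node (nat_lit 4) (nat_lit 89342) (nat_lit
  9) (node (nat_lit 6) (nat_lit 89965) (nat_lit 10) nil (node (nat_lit 5) (nat_lit 89965) (nat_lit
  10) (node (nat_lit 6) (nat_lit 90515) (nat_lit 11) (node (nat_lit 4) (nat_lit 91014) (nat_lit
  12) (node (nat_lit 6) (nat_lit 91418) (nat_lit 13) nil nil) nil) nil) nil)) (node (nat_lit 6)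
  (nat_lit 89342) (nat_lit 9) nil nil)) nil))))) (node (nat_lit 2) (nat_lit 0) (nat_lit 7) (node
  (nat_lit 4) (nat_lit 0) (nat_lit 8) (node (nat_lit 10) (nat_lit 89129) (nat_lit 9) (node
  (nat_lit 5) (nat_lit 89752) (nat_lit 10) (node (nat_lit 4) (nat_lit 90302) (nat_lit 11) (node
  (nat_lit 6) (nat_lit 90801) (nat_lit 12) nil (node (nat_lit 5) (nat_lit 90801) (nat_lit 12)
  (node (nat_lit 6) (nat_lit 91205) (nat_lit 13) (node (nat_lit 4) (nat_lit 91520) (nat_lit 14)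
  nil nil) nil) nil)) nil) (node (nat_lit 6) (nat_lit 89373) (nat_lit 10) (node (nat_lit 4)
  (nat_lit 89079) (nat_lit 11) (node (nat_lit 5) (nat_lit 88316) (nat_lit 12) (node (nat_lit 6)
  (nat_lit 85441) (nat_lit 13) (node (nat_lit 4) (nat_lit 71667) (nat_lit 14) nil nil) nil) nil)
  nil) nil)) (node (nat_lit 5) (nat_lit 89129) (nat_lit 9) (node (nat_lit 4) (nat_lit 89752)
  (nat_lit 10) (node (nat_lit 6) (nat_lit 90302) (nat_lit 11) nil nil) nil) (node (nat_lit 6)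
  (nat_lit 89129) (nat_lit 9) (node (nat_lit 4) (nat_lit 89752) (nat_lit 10) (node (nat_lit 5)
  (nat_lit 90302) (nat_lit 11) (node (nat_lit 6) (nat_lit 90801) (nat_lit 12) nil nil) nil) nil)
  (node (nat_lit 0) (nat_lit 89129) (nat_lit 9) nil nil)))) (node (nat_lit 6) (nat_lit 88123)
  (nat_lit 8) (node (nat_lit 10) (nat_lit 88400) (nat_lit 9) (node (nat_lit 4) (nat_lit 89752)
  (nat_lit 10) (node (nat_lit 6) (nat_lit 90302) (nat_lit 11) (node (nat_lit 5) (nat_lit 90801)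
  (nat_lit 12) nil nil) nil) (node (nat_lit 5) (nat_lit 89752) (nat_lit 10) (node (nat_lit 4)
  (nat_lit 90302) (nat_lit 11) nil nil) nil)) (node (nat_lit 4) (nat_lit 88264) (nat_lit 9) (node
  (nat_lit 5) (nat_lit 82295) (nat_lit 10) (node (nat_lit 6) (nat_lit 79367) (nat_lit 11) (node
  (nat_lit 4) (nat_lit 59732) (nat_lit 12) (node (nat_lit 6) (nat_lit 57609) (nat_lit 13) nil nil)
  nil) nil) nil) (node (nat_lit 5) (nat_lit 88400) (nat_lit 9) (node (nat_lit 4) (nat_lit 89752)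
  (nat_lit 10) nil nil) nil))) (node (nat_lit 0) (nat_lit 88336) (nat_lit 8) (node (nat_lit 10)
  (nat_lit 89342) (nat_lit 9) (node (nat_lit 5) (nat_lit 89965) (nat_lit 10) (node (nat_lit 4)
  (nat_lit 90515) (nat_lit 11) nil nil) (node (nat_lit 6) (nat_lit 89373) (nat_lit 10) (node
  (nat_lit 4) (nat_lit 85450) (nat_lit 11) nil nil) (node (nat_lit 4) (nat_lit 89965) (nat_lit 10)
  nil nil))) (node (nat_lit 4) (nat_lit 89342) (nat_lit 9) nil (node (nat_lit 5) (nat_lit 89342)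
  (nat_lit 9) (node (nat_lit 4) (nat_lit 89965) (nat_lit 10) nil nil) (node (nat_lit 6) (nat_lit
  89342) (nat_lit 9) (node (nat_lit 4) (nat_lit 89965) (nat_lit 10) nil nil) nil)))) (node
  (nat_lit 5) (nat_lit 0) (nat_lit 8) (node (nat_lit 4) (nat_lit 89342) (nat_lit 9) (node (nat_lit
  6) (nat_lit 89965) (nat_lit 10) nil (node (nat_lit 5) (nat_lit 89965) (nat_lit 10) (node
  (nat_lit 6) (nat_lit 84224) (nat_lit 11) (node (nat_lit 4) (nat_lit 75461) (nat_lit 12) (node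
  (nat_lit 6) (nat_lit 58307) (nat_lit 13) nil nil) nil) nil) nil)) (node (nat_lit 6) (nat_lit
  88400) (nat_lit 9) nil (node (nat_lit 0) (nat_lit 89342) (nat_lit 9) nil nil))) nil)))) (node
  (nat_lit 4) (nat_lit 0) (nat_lit 7) (node (nat_lit 0) (nat_lit 88336) (nat_lit 8) (node (nat_lit
  4) (nat_lit 89342) (nat_lit 9) nil (node (nat_lit 5) (nat_lit 89342) (nat_lit 9) (node (nat_lit
  4) (nat_lit 89965) (nat_lit 10) (node (nat_lit 5) (nat_lit 90515) (nat_lit 11) nil nil) nil)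
  (node (nat_lit 6) (nat_lit 89342) (nat_lit 9) (node (nat_lit 4) (nat_lit 89965) (nat_lit 10)
  (node (nat_lit 5) (nat_lit 90515) (nat_lit 11) nil nil) nil) nil))) (node (nat_lit 2) (nat_lit
  0) (nat_lit 8) (node (nat_lit 4) (nat_lit 89129) (nat_lit 9) (node (nat_lit 6) (nat_lit 89752)
  (nat_lit 10) nil nil) (node (nat_lit 5) (nat_lit 89129) (nat_lit 9) (node (nat_lit 4) (nat_lit
  89752) (nat_lit 10) (node (nat_lit 5) (nat_lit 90302) (nat_lit 11) nil nil) nil) (node (nat_lit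
  6) (nat_lit 89129) (nat_lit 9) (node (nat_lit 4) (nat_lit 87925) (nat_lit 10) (node (nat_lit 5)
  (nat_lit 86439) (nat_lit 11) nil nil) nil) (node (nat_lit 0) (nat_lit 89129) (nat_lit 9) nil
  nil)))) (node (nat_lit 6) (nat_lit 0) (nat_lit 8) (node (nat_lit 0) (nat_lit 86008) (nat_lit 9)
  (node (nat_lit 4) (nat_lit 87500) (nat_lit 10) (node (nat_lit 6) (nat_lit 88663) (nat_lit 11)
  nil nil) (node (nat_lit 6) (nat_lit 87500) (nat_lit 10) (node (nat_lit 4) (nat_lit 88663)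
  (nat_lit 11) nil nil) (node (nat_lit 5) (nat_lit 87500) (nat_lit 10) nil nil))) (node (nat_lit
  2) (nat_lit 85734) (nat_lit 9) (node (nat_lit 4) (nat_lit 87225) (nat_lit 10) (node (nat_lit 6)
  (nat_lit 88389) (nat_lit 11) nil nil) (node (nat_lit 6) (nat_lit 87225) (nat_lit 10) (node
  (nat_lit 4) (nat_lit 87670) (nat_lit 11) nil nil) (node (nat_lit 5) (nat_lit 87225) (nat_lit 10)
  nil nil))) (node (nat_lit 4) (nat_lit 0) (nat_lit 9) (node (nat_lit 2) (nat_lit 87225) (nat_lit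
  10) (node (nat_lit 5) (nat_lit 88389) (nat_lit 11) nil (node (nat_lit 6) (nat_lit 87937)
  (nat_lit 11) nil nil)) (node (nat_lit 0) (nat_lit 87555) (nat_lit 10) (node (nat_lit 5) (nat_lit
  88718) (nat_lit 11) nil (node (nat_lit 6) (nat_lit 88718) (nat_lit 11) nil nil)) nil)) nil)))
  (node (nat_lit 5) (nat_lit 0) (nat_lit 8) (node (nat_lit 0) (nat_lit 86008) (nat_lit 9) (node
  (nat_lit 4) (nat_lit 87500) (nat_lit 10) nil (node (nat_lit 5) (nat_lit 87500) (nat_lit 10)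
  (node (nat_lit 4) (nat_lit 88663) (nat_lit 11) nil nil) (node (nat_lit 6) (nat_lit 87500)
  (nat_lit 10) nil nil))) (node (nat_lit 2) (nat_lit 85339) (nat_lit 9) (node (nat_lit 4) (nat_lit
  87438) (nat_lit 10) nil (node (nat_lit 5) (nat_lit 86912) (nat_lit 10) (node (nat_lit 4)
  (nat_lit 87714) (nat_lit 11) nil nil) (node (nat_lit 6) (nat_lit 85644) (nat_lit 10) nil nil)))
  (node (nat_lit 6) (nat_lit 0) (nat_lit 9) (node (nat_lit 5) (nat_lit 76959) (nat_lit 10) (node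
  (nat_lit 4) (nat_lit 80044) (nat_lit 11) nil nil) (node (nat_lit 4) (nat_lit 39128) (nat_lit 10)
  nil (node (nat_lit 2) (nat_lit 76842) (nat_lit 10) nil (node (nat_lit 0) (nat_lit 77295)
  (nat_lit 10) nil nil)))) nil))) nil)))) (node (nat_lit 6) (nat_lit 0) (nat_lit 7) (node (nat_lit
  0) (nat_lit 0) (nat_lit 8) (node (nat_lit 6) (nat_lit 89342) (nat_lit 9) (node (nat_lit 4)
  (nat_lit 89965) (nat_lit 10) (node (nat_lit 5) (nat_lit 90515) (nat_lit 11) (node (nat_lit 6)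
  (nat_lit 91014) (nat_lit 12) nil nil) nil) (node (nat_lit 5) (nat_lit 90081) (nat_lit 10) (node
  (nat_lit 11) (nat_lit 90632) (nat_lit 11) (node (nat_lit 6) (nat_lit 91130) (nat_lit 12) nil
  nil) (node (nat_lit 4) (nat_lit 90632) (nat_lit 11) (node (nat_lit 5) (nat_lit 91130) (nat_lit
  12) nil nil) nil)) nil)) (node (nat_lit 5) (nat_lit 89403) (nat_lit 9) (node (nat_lit 4)
  (nat_lit 90026) (nat_lit 10) (node (nat_lit 5) (nat_lit 90577) (nat_lit 11) (node (nat_lit 6)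
  (nat_lit 91075) (nat_lit 12) nil nil) nil) (node (nat_lit 11) (nat_lit 90081) (nat_lit 10) (node
  (nat_lit 6) (nat_lit 90632) (nat_lit 11) nil nil) nil)) (node (nat_lit 4) (nat_lit 89342)
  (nat_lit 9) (node (nat_lit 6) (nat_lit 89965) (nat_lit 10) nil nil) (node (nat_lit 2) (nat_lit
  89342) (nat_lit 9) (node (nat_lit 6) (nat_lit 89965) (nat_lit 10) nil nil) (node (nat_lit 0)
  (nat_lit 89403) (nat_lit 9) (node (nat_lit 6) (nat_lit 90026) (nat_lit 10) nil nil) nil)))))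
  (node (nat_lit 2) (nat_lit 0) (nat_lit 8) (node (nat_lit 6) (nat_lit 88379) (nat_lit 9) (node
  (nat_lit 4) (nat_lit 89752) (nat_lit 10) (node (nat_lit 5) (nat_lit 90681) (nat_lit 11) (node
  (nat_lit 6) (nat_lit 82366) (nat_lit 12) (node (nat_lit 4) (nat_lit 65414) (nat_lit 13) (node
  (nat_lit 6) (nat_lit 59732) (nat_lit 14) (node (nat_lit 5) (nat_lit 57626) (nat_lit 15) nil nil)
  nil) nil) nil) nil) (node (nat_lit 5) (nat_lit 88379) (nat_lit 10) (node (nat_lit 11) (nat_lit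
  88379) (nat_lit 11) (node (nat_lit 6) (nat_lit 89441) (nat_lit 12) nil nil) (node (nat_lit 4)
  (nat_lit 90632) (nat_lit 11) (node (nat_lit 5) (nat_lit 91130) (nat_lit 12) nil nil) nil)) nil))
  (node (nat_lit 5) (nat_lit 88379) (nat_lit 9) (node (nat_lit 4) (nat_lit 90026) (nat_lit 10)
  (node (nat_lit 5) (nat_lit 89010) (nat_lit 11) (node (nat_lit 6) (nat_lit 83952) (nat_lit 12)
  nil nil) nil) (node (nat_lit 11) (nat_lit 88379) (nat_lit 10) (node (nat_lit 6) (nat_lit 88332)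
  (nat_lit 11) nil nil) nil)) (node (nat_lit 4) (nat_lit 89129) (nat_lit 9) (node (nat_lit 6)
  (nat_lit 89752) (nat_lit 10) (node (nat_lit 4) (nat_lit 90302) (nat_lit 11) nil nil) nil) (node
  (nat_lit 0) (nat_lit 89403) (nat_lit 9) (node (nat_lit 6) (nat_lit 90026) (nat_lit 10) nil nil)
  nil)))) (node (nat_lit 4) (nat_lit 0) (nat_lit 8) (node (nat_lit 0) (nat_lit 86008) (nat_lit 9)
  (node (nat_lit 6) (nat_lit 87500) (nat_lit 10) (node (nat_lit 4) (nat_lit 88663) (nat_lit 11)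
  (node (nat_lit 5) (nat_lit 89571) (nat_lit 12) (node (nat_lit 6) (nat_lit 90281) (nat_lit 13)
  nil nil) nil) nil) (node (nat_lit 5) (nat_lit 87500) (nat_lit 10) (node (nat_lit 4) (nat_lit
  88663) (nat_lit 11) nil nil) (node (nat_lit 4) (nat_lit 87500) (nat_lit 10) nil nil))) (node
  (nat_lit 2) (nat_lit 85734) (nat_lit 9) (node (nat_lit 6) (nat_lit 87225) (nat_lit 10) (node
  (nat_lit 4) (nat_lit 88389) (nat_lit 11) (node (nat_lit 5) (nat_lit 88359) (nat_lit 12) (node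
  (nat_lit 6) (nat_lit 85663) (nat_lit 13) nil nil) nil) nil) (node (nat_lit 4) (nat_lit 87225)
  (nat_lit 10) nil (node (nat_lit 5) (nat_lit 87225) (nat_lit 10) (node (nat_lit 4) (nat_lit
  88389) (nat_lit 11) nil nil) nil))) (node (nat_lit 5) (nat_lit 86008) (nat_lit 9) (node (nat_lit
  6) (nat_lit 87500) (nat_lit 10) (node (nat_lit 5) (nat_lit 88768) (nat_lit 11) (node (nat_lit 4)
  (nat_lit 89676) (nat_lit 12) nil nil) nil) nil) nil))) nil))) nil)))) (node (nat_lit 0) (nat_lit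
  0) (nat_lit 6) (node (nat_lit 5) (nat_lit 85712) (nat_lit 7) (node (nat_lit 4) (nat_lit 88253)
  (nat_lit 8) (node (nat_lit 6) (nat_lit 89259) (nat_lit 9) nil (node (nat_lit 5) (nat_lit 89259)
  (nat_lit 9) (node (nat_lit 6) (nat_lit 89882) (nat_lit 10) (node (nat_lit 4) (nat_lit 90432)
  (nat_lit 11) nil nil) nil) nil)) (node (nat_lit 9) (nat_lit 88253) (nat_lit 8) nil (node
  (nat_lit 6) (nat_lit 88253) (nat_lit 8) nil nil))) (node (nat_lit 4) (nat_lit 85323) (nat_lit 7)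
  nil (node (nat_lit 6) (nat_lit 85323) (nat_lit 7) (node (nat_lit 4) (nat_lit 87864) (nat_lit 8)
  (node (nat_lit 5) (nat_lit 88870) (nat_lit 9) (node (nat_lit 6) (nat_lit 89493) (nat_lit 10)
  (node (nat_lit 4) (nat_lit 90043) (nat_lit 11) (node (nat_lit 6) (nat_lit 90542) (nat_lit 12)
  nil nil) nil) nil) nil) (node (nat_lit 5) (nat_lit 87864) (nat_lit 8) (node (nat_lit 4) (nat_lit
  88870) (nat_lit 9) nil nil) nil)) (node (nat_lit 0) (nat_lit 85687) (nat_lit 7) (node (nat_lit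
  5) (nat_lit 88227) (nat_lit 8) nil (node (nat_lit 6) (nat_lit 88227) (nat_lit 8) (node (nat_lit
  4) (nat_lit 89233) (nat_lit 9) nil nil) (node (nat_lit 4) (nat_lit 88227) (nat_lit 8) nil nil)))
  (node (nat_lit 2) (nat_lit 85297) (nat_lit 7) (node (nat_lit 5) (nat_lit 87837) (nat_lit 8) nil
  (node (nat_lit 6) (nat_lit 86071) (nat_lit 8) (node (nat_lit 4) (nat_lit 80385) (nat_lit 9)
  (node (nat_lit 5) (nat_lit 76269) (nat_lit 10) nil nil) nil) (node (nat_lit 4) (nat_lit 87837)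
  (nat_lit 8) nil nil))) nil))))) (node (nat_lit 2) (nat_lit 0) (nat_lit 6) (node (nat_lit 5)
  (nat_lit 84596) (nat_lit 7) (node (nat_lit 4) (nat_lit 87137) (nat_lit 8) (node (nat_lit 6)
  (nat_lit 88142) (nat_lit 9) nil (node (nat_lit 5) (nat_lit 84656) (nat_lit 9) (node (nat_lit 6)
  (nat_lit 66736) (nat_lit 10) (node (nat_lit 4) (nat_lit 54932) (nat_lit 11) nil nil) nil) nil))
  (node (nat_lit 9) (nat_lit 87137) (nat_lit 8) nil (node (nat_lit 6) (nat_lit 87137) (nat_lit 8)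
  nil nil))) (node (nat_lit 4) (nat_lit 76890) (nat_lit 7) (node (nat_lit 6) (nat_lit 79431)
  (nat_lit 8) (node (nat_lit 5) (nat_lit 86226) (nat_lit 9) nil (node (nat_lit 4) (nat_lit 80437)
  (nat_lit 9) (node (nat_lit 5) (nat_lit 81060) (nat_lit 10) (node (nat_lit 6) (nat_lit 81610)
  (nat_lit 11) nil nil) nil) nil)) (node (nat_lit 9) (nat_lit 79431) (nat_lit 8) (node (nat_lit 5)
  (nat_lit 86226) (nat_lit 9) nil (node (nat_lit 6) (nat_lit 80437) (nat_lit 9) nil nil)) (node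
  (nat_lit 5) (nat_lit 85559) (nat_lit 8) nil nil))) (node (nat_lit 6) (nat_lit 76890) (nat_lit 7)
  (node (nat_lit 4) (nat_lit 79431) (nat_lit 8) (node (nat_lit 5) (nat_lit 65913) (nat_lit 9)
  (node (nat_lit 6) (nat_lit 59732) (nat_lit 10) (node (nat_lit 4) (nat_lit 56387) (nat_lit 11)
  (node (nat_lit 6) (nat_lit 55360) (nat_lit 12) nil nil) nil) nil) nil) (node (nat_lit 5)
  (nat_lit 84310) (nat_lit 8) (node (nat_lit 4) (nat_lit 85316) (nat_lit 9) (node (nat_lit 5)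
  (nat_lit 83839) (nat_lit 10) (node (nat_lit 6) (nat_lit 76730) (nat_lit 11) (node (nat_lit 4)
  (nat_lit 69010) (nat_lit 12) (node (nat_lit 6) (nat_lit 49052) (nat_lit 13) nil nil) nil) nil)
  nil) nil) nil)) (node (nat_lit 0) (nat_lit 84087) (nat_lit 7) (node (nat_lit 5) (nat_lit 86628)
  (nat_lit 8) nil (node (nat_lit 6) (nat_lit 86628) (nat_lit 8) (node (nat_lit 4) (nat_lit 87633)
  (nat_lit 9) nil nil) (node (nat_lit 4) (nat_lit 86628) (nat_lit 8) nil nil))) nil)))) nil)))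
  nil))

noncomputable def t195 : Tr :=
  (node (nat_lit 0) (nat_lit 0) (nat_lit 7) (node (nat_lit 4) (nat_lit 0) (nat_lit 8) (node
  (nat_lit 10) (nat_lit 0) (nat_lit 9) (node (nat_lit 5) (nat_lit 59491) (nat_lit 10) (node
  (nat_lit 4) (nat_lit 60354) (nat_lit 11) (node (nat_lit 5) (nat_lit 61106) (nat_lit 12) (node
  (nat_lit 6) (nat_lit 61511) (nat_lit 13) (node (nat_lit 5) (nat_lit 61826) (nat_lit 14) (node
  (nat_lit 4) (nat_lit 62057) (nat_lit 15) nil nil) nil) nil) (node (nat_lit 6) (nat_lit 60853)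
  (nat_lit 12) nil nil)) (node (nat_lit 10) (nat_lit 60354) (nat_lit 11) (node (nat_lit 6)
  (nat_lit 60853) (nat_lit 12) nil (node (nat_lit 4) (nat_lit 61106) (nat_lit 12) nil nil)) (node
  (nat_lit 6) (nat_lit 60354) (nat_lit 11) (node (nat_lit 4) (nat_lit 61106) (nat_lit 12) (node
  (nat_lit 5) (nat_lit 61708) (nat_lit 13) nil nil) (node (nat_lit 5) (nat_lit 60853) (nat_lit 12)
  nil nil)) nil))) (node (nat_lit 6) (nat_lit 59491) (nat_lit 10) (node (nat_lit 4) (nat_lit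
  60354) (nat_lit 11) (node (nat_lit 5) (nat_lit 60853) (nat_lit 12) (node (nat_lit 6) (nat_lit
  61257) (nat_lit 13) (node (nat_lit 5) (nat_lit 61572) (nat_lit 14) nil nil) nil) nil) (node
  (nat_lit 5) (nat_lit 60354) (nat_lit 11) (node (nat_lit 4) (nat_lit 60853) (nat_lit 12) nil nil)
  nil)) (node (nat_lit 2) (nat_lit 58306) (nat_lit 10) nil (node (nat_lit 0) (nat_lit 59147)
  (nat_lit 10) nil nil)))) (node (nat_lit 6) (nat_lit 58489) (nat_lit 9) (node (nat_lit 5)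
  (nat_lit 59456) (nat_lit 10) (node (nat_lit 4) (nat_lit 60319) (nat_lit 11) nil (node (nat_lit
  6) (nat_lit 57042) (nat_lit 11) nil nil)) (node (nat_lit 4) (nat_lit 59456) (nat_lit 10) (node
  (nat_lit 5) (nat_lit 60007) (nat_lit 11) (node (nat_lit 6) (nat_lit 60505) (nat_lit 12) (node
  (nat_lit 5) (nat_lit 60910) (nat_lit 13) (node (nat_lit 4) (nat_lit 61225) (nat_lit 14) (node
  (nat_lit 5) (nat_lit 61456) (nat_lit 15) nil nil) nil) nil) nil) nil) (node (nat_lit 10)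
  (nat_lit 59456) (nat_lit 10) (node (nat_lit 6) (nat_lit 60007) (nat_lit 11) nil nil) nil)))
  (node (nat_lit 5) (nat_lit 58489) (nat_lit 9) (node (nat_lit 4) (nat_lit 59522) (nat_lit 10)
  (node (nat_lit 6) (nat_lit 60384) (nat_lit 11) (node (nat_lit 5) (nat_lit 61136) (nat_lit 12)
  nil nil) nil) (node (nat_lit 6) (nat_lit 59456) (nat_lit 10) (node (nat_lit 5) (nat_lit 60319)
  (nat_lit 11) nil nil) nil)) (node (nat_lit 0) (nat_lit 58489) (nat_lit 9) nil (node (nat_lit 2)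
  (nat_lit 57038) (nat_lit 9) (node (nat_lit 4) (nat_lit 57661) (nat_lit 10) nil nil) nil)))))
  (node (nat_lit 6) (nat_lit 0) (nat_lit 8) (node (nat_lit 10) (nat_lit 0) (nat_lit 9) (node
  (nat_lit 5) (nat_lit 59491) (nat_lit 10) (node (nat_lit 6) (nat_lit 60354) (nat_lit 11) (node
  (nat_lit 4) (nat_lit 61106) (nat_lit 12) (node (nat_lit 5) (nat_lit 61708) (nat_lit 13) (node
  (nat_lit 6) (nat_lit 55712) (nat_lit 14) nil nil) nil) (node (nat_lit 5) (nat_lit 60853)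
  (nat_lit 12) nil nil)) (node (nat_lit 4) (nat_lit 60354) (nat_lit 11) (node (nat_lit 5) (nat_lit
  60853) (nat_lit 12) (node (nat_lit 6) (nat_lit 61257) (nat_lit 13) nil nil) (node (nat_lit 6)
  (nat_lit 60853) (nat_lit 12) nil nil)) (node (nat_lit 10) (nat_lit 60354) (nat_lit 11) nil
  nil))) (node (nat_lit 4) (nat_lit 59491) (nat_lit 10) (node (nat_lit 6) (nat_lit 60354) (nat_lit
  11) (node (nat_lit 4) (nat_lit 60853) (nat_lit 12) (node (nat_lit 5) (nat_lit 61257) (nat_lit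
  13) (node (nat_lit 6) (nat_lit 61572) (nat_lit 14) nil nil) nil) (node (nat_lit 5) (nat_lit
  61106) (nat_lit 12) nil nil)) (node (nat_lit 5) (nat_lit 60354) (nat_lit 11) nil nil)) (node
  (nat_lit 2) (nat_lit 56828) (nat_lit 10) nil (node (nat_lit 0) (nat_lit 59147) (nat_lit 10) nil
  nil)))) (node (nat_lit 5) (nat_lit 58451) (nat_lit 9) (node (nat_lit 4) (nat_lit 59418) (nat_lit
  10) (node (nat_lit 5) (nat_lit 59968) (nat_lit 11) (node (nat_lit 6) (nat_lit 60467) (nat_lit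
  12) (node (nat_lit 5) (nat_lit 60872) (nat_lit 13) (node (nat_lit 4) (nat_lit 60622) (nat_lit
  14) nil nil) nil) nil) (node (nat_lit 6) (nat_lit 59968) (nat_lit 11) nil nil)) (node (nat_lit
  6) (nat_lit 59418) (nat_lit 10) (node (nat_lit 4) (nat_lit 60281) (nat_lit 11) (node (nat_lit 5)
  (nat_lit 61033) (nat_lit 12) nil nil) nil) (node (nat_lit 10) (nat_lit 59418) (nat_lit 10) (node
  (nat_lit 5) (nat_lit 60281) (nat_lit 11) (node (nat_lit 6) (nat_lit 61033) (nat_lit 12) nil nil)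
  (node (nat_lit 4) (nat_lit 59968) (nat_lit 11) nil nil)) nil))) (node (nat_lit 4) (nat_lit
  58451) (nat_lit 9) (node (nat_lit 5) (nat_lit 59418) (nat_lit 10) (node (nat_lit 6) (nat_lit
  59968) (nat_lit 11) nil nil) (node (nat_lit 10) (nat_lit 59418) (nat_lit 10) nil (node (nat_lit
  6) (nat_lit 59418) (nat_lit 10) (node (nat_lit 5) (nat_lit 60281) (nat_lit 11) (node (nat_lit 4)
  (nat_lit 60780) (nat_lit 12) nil nil) nil) nil))) (node (nat_lit 2) (nat_lit 56998) (nat_lit 9)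
  (node (nat_lit 6) (nat_lit 53499) (nat_lit 10) nil nil) (node (nat_lit 0) (nat_lit 58451)
  (nat_lit 9) (node (nat_lit 6) (nat_lit 59074) (nat_lit 10) nil nil) nil))))) (node (nat_lit 0)
  (nat_lit 0) (nat_lit 8) (node (nat_lit 10) (nat_lit 0) (nat_lit 9) (node (nat_lit 5) (nat_lit
  59456) (nat_lit 10) (node (nat_lit 11) (nat_lit 60007) (nat_lit 11) nil (node (nat_lit 4)
  (nat_lit 60007) (nat_lit 11) nil (node (nat_lit 6) (nat_lit 60319) (nat_lit 11) nil nil))) (node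
  (nat_lit 6) (nat_lit 59456) (nat_lit 10) (node (nat_lit 4) (nat_lit 60007) (nat_lit 11) nil
  (node (nat_lit 5) (nat_lit 58113) (nat_lit 11) nil nil)) (node (nat_lit 4) (nat_lit 59456)
  (nat_lit 10) (node (nat_lit 6) (nat_lit 60007) (nat_lit 11) nil nil) (node (nat_lit 0) (nat_lit
  59112) (nat_lit 10) nil (node (nat_lit 2) (nat_lit 56793) (nat_lit 10) nil nil))))) (node
  (nat_lit 5) (nat_lit 58489) (nat_lit 9) (node (nat_lit 4) (nat_lit 59456) (nat_lit 10) (node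
  (nat_lit 5) (nat_lit 60007) (nat_lit 11) nil nil) (node (nat_lit 6) (nat_lit 59456) (nat_lit 10)
  nil (node (nat_lit 11) (nat_lit 59456) (nat_lit 10) nil nil))) (node (nat_lit 4) (nat_lit 58489)
  (nat_lit 9) (node (nat_lit 6) (nat_lit 59456) (nat_lit 10) nil (node (nat_lit 5) (nat_lit 59112)
  (nat_lit 10) nil nil)) (node (nat_lit 6) (nat_lit 58489) (nat_lit 9) (node (nat_lit 4) (nat_lit
  59112) (nat_lit 10) (node (nat_lit 5) (nat_lit 59662) (nat_lit 11) nil nil) (node (nat_lit 5)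
  (nat_lit 59456) (nat_lit 10) nil nil)) (node (nat_lit 2) (nat_lit 55221) (nat_lit 9) nil (node
  (nat_lit 0) (nat_lit 58099) (nat_lit 9) nil nil)))))) (node (nat_lit 2) (nat_lit 0) (nat_lit 8)
  (node (nat_lit 10) (nat_lit 0) (nat_lit 9) (node (nat_lit 5) (nat_lit 59418) (nat_lit 10) (node
  (nat_lit 11) (nat_lit 58075) (nat_lit 11) nil (node (nat_lit 4) (nat_lit 59968) (nat_lit 11) nil
  (node (nat_lit 6) (nat_lit 60281) (nat_lit 11) nil nil))) (node (nat_lit 6) (nat_lit 59418)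
  (nat_lit 10) (node (nat_lit 4) (nat_lit 59968) (nat_lit 11) nil (node (nat_lit 5) (nat_lit
  58075) (nat_lit 11) nil nil)) (node (nat_lit 4) (nat_lit 59418) (nat_lit 10) (node (nat_lit 6)
  (nat_lit 59968) (nat_lit 11) nil nil) (node (nat_lit 0) (nat_lit 59074) (nat_lit 10) nil nil))))
  (node (nat_lit 5) (nat_lit 58451) (nat_lit 9) (node (nat_lit 4) (nat_lit 59418) (nat_lit 10)
  (node (nat_lit 5) (nat_lit 59968) (nat_lit 11) nil nil) (node (nat_lit 11) (nat_lit 59418)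
  (nat_lit 10) nil (node (nat_lit 6) (nat_lit 59318) (nat_lit 10) nil nil))) (node (nat_lit 4)
  (nat_lit 58451) (nat_lit 9) (node (nat_lit 6) (nat_lit 59418) (nat_lit 10) nil (node (nat_lit 5)
  (nat_lit 59074) (nat_lit 10) nil nil)) (node (nat_lit 6) (nat_lit 58451) (nat_lit 9) (node
  (nat_lit 4) (nat_lit 59418) (nat_lit 10) (node (nat_lit 5) (nat_lit 50252) (nat_lit 11) nil nil)
  (node (nat_lit 5) (nat_lit 59418) (nat_lit 10) nil nil)) (node (nat_lit 0) (nat_lit 58060)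
  (nat_lit 9) nil nil))))) (node (nat_lit 5) (nat_lit 0) (nat_lit 8) (node (nat_lit 4) (nat_lit
  58524) (nat_lit 9) (node (nat_lit 6) (nat_lit 59491) (nat_lit 10) (node (nat_lit 4) (nat_lit
  60354) (nat_lit 11) (node (nat_lit 5) (nat_lit 60853) (nat_lit 12) nil nil) (node (nat_lit 5)
  (nat_lit 60354) (nat_lit 11) nil nil)) (node (nat_lit 5) (nat_lit 59491) (nat_lit 10) (node
  (nat_lit 6) (nat_lit 60041) (nat_lit 11) (node (nat_lit 5) (nat_lit 60540) (nat_lit 12) (node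
  (nat_lit 4) (nat_lit 60945) (nat_lit 13) nil nil) nil) nil) (node (nat_lit 10) (nat_lit 59491)
  (nat_lit 10) nil nil))) (node (nat_lit 6) (nat_lit 58451) (nat_lit 9) (node (nat_lit 4) (nat_lit
  59418) (nat_lit 10) (node (nat_lit 5) (nat_lit 60281) (nat_lit 11) nil nil) (node (nat_lit 5)
  (nat_lit 59418) (nat_lit 10) (node (nat_lit 4) (nat_lit 59968) (nat_lit 11) nil nil) (node
  (nat_lit 10) (nat_lit 59418) (nat_lit 10) nil nil))) (node (nat_lit 0) (nat_lit 58524) (nat_lit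
  9) (node (nat_lit 5) (nat_lit 59491) (nat_lit 10) nil (node (nat_lit 6) (nat_lit 59491) (nat_lit
  10) nil (node (nat_lit 4) (nat_lit 59491) (nat_lit 10) nil nil))) (node (nat_lit 2) (nat_lit
  58451) (nat_lit 9) (node (nat_lit 5) (nat_lit 59418) (nat_lit 10) nil (node (nat_lit 6) (nat_lit
  59418) (nat_lit 10) nil (node (nat_lit 4) (nat_lit 59418) (nat_lit 10) nil nil))) nil))))
  nil))))) (node (nat_lit 2) (nat_lit 0) (nat_lit 7) (node (nat_lit 4) (nat_lit 0) (nat_lit 8)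
  (node (nat_lit 10) (nat_lit 0) (nat_lit 9) (node (nat_lit 5) (nat_lit 59456) (nat_lit 10) (node
  (nat_lit 4) (nat_lit 60319) (nat_lit 11) (node (nat_lit 5) (nat_lit 61071) (nat_lit 12) (node
  (nat_lit 6) (nat_lit 61476) (nat_lit 13) (node (nat_lit 5) (nat_lit 61791) (nat_lit 14) (node
  (nat_lit 4) (nat_lit 61454) (nat_lit 15) nil nil) nil) nil) (node (nat_lit 6) (nat_lit 60818)
  (nat_lit 12) nil nil)) (node (nat_lit 10) (nat_lit 60319) (nat_lit 11) (node (nat_lit 6)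
  (nat_lit 61071) (nat_lit 12) nil (node (nat_lit 4) (nat_lit 61071) (nat_lit 12) nil nil)) (node
  (nat_lit 6) (nat_lit 60319) (nat_lit 11) (node (nat_lit 4) (nat_lit 61181) (nat_lit 12) (node
  (nat_lit 5) (nat_lit 60604) (nat_lit 13) nil nil) (node (nat_lit 5) (nat_lit 60818) (nat_lit 12)
  nil nil)) nil))) (node (nat_lit 6) (nat_lit 59456) (nat_lit 10) (node (nat_lit 4) (nat_lit
  60319) (nat_lit 11) (node (nat_lit 5) (nat_lit 60144) (nat_lit 12) (node (nat_lit 6) (nat_lit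
  59636) (nat_lit 13) (node (nat_lit 5) (nat_lit 56417) (nat_lit 14) (node (nat_lit 4) (nat_lit
  36458) (nat_lit 15) (node (nat_lit 5) (nat_lit 25472) (nat_lit 16) nil nil) nil) nil) nil) nil)
  (node (nat_lit 5) (nat_lit 60319) (nat_lit 11) (node (nat_lit 4) (nat_lit 60818) (nat_lit 12)
  nil nil) nil)) (node (nat_lit 0) (nat_lit 59456) (nat_lit 10) nil nil))) (node (nat_lit 6)
  (nat_lit 58489) (nat_lit 9) (node (nat_lit 5) (nat_lit 59456) (nat_lit 10) (node (nat_lit 4)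
  (nat_lit 60319) (nat_lit 11) nil (node (nat_lit 6) (nat_lit 57042) (nat_lit 11) nil nil)) (node
  (nat_lit 4) (nat_lit 59456) (nat_lit 10) (node (nat_lit 5) (nat_lit 60007) (nat_lit 11) (node
  (nat_lit 6) (nat_lit 60505) (nat_lit 12) (node (nat_lit 5) (nat_lit 60910) (nat_lit 13) (node
  (nat_lit 4) (nat_lit 61225) (nat_lit 14) (node (nat_lit 5) (nat_lit 61456) (nat_lit 15) nil nil)
  nil) nil) nil) nil) (node (nat_lit 10) (nat_lit 59456) (nat_lit 10) (node (nat_lit 6) (nat_lit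
  57042) (nat_lit 11) nil nil) nil))) (node (nat_lit 5) (nat_lit 58489) (nat_lit 9) (node (nat_lit
  4) (nat_lit 59522) (nat_lit 10) (node (nat_lit 6) (nat_lit 60384) (nat_lit 11) (node (nat_lit 5)
  (nat_lit 61136) (nat_lit 12) nil nil) (node (nat_lit 10) (nat_lit 60384) (nat_lit 11) nil nil))
  (node (nat_lit 6) (nat_lit 59456) (nat_lit 10) (node (nat_lit 5) (nat_lit 60319) (nat_lit 11)
  nil nil) nil)) (node (nat_lit 0) (nat_lit 58489) (nat_lit 9) nil nil)))) (node (nat_lit 6)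
  (nat_lit 0) (nat_lit 8) (node (nat_lit 10) (nat_lit 0) (nat_lit 9) (node (nat_lit 5) (nat_lit
  59285) (nat_lit 10) (node (nat_lit 6) (nat_lit 59814) (nat_lit 11) (node (nat_lit 4) (nat_lit
  59967) (nat_lit 12) (node (nat_lit 5) (nat_lit 59384) (nat_lit 13) (node (nat_lit 6) (nat_lit
  54061) (nat_lit 14) nil nil) nil) (node (nat_lit 5) (nat_lit 60313) (nat_lit 12) (node (nat_lit
  4) (nat_lit 60717) (nat_lit 13) nil nil) nil)) (node (nat_lit 4) (nat_lit 60148) (nat_lit 11)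
  (node (nat_lit 5) (nat_lit 60647) (nat_lit 12) (node (nat_lit 6) (nat_lit 61051) (nat_lit 13)
  nil nil) (node (nat_lit 6) (nat_lit 60647) (nat_lit 12) nil nil)) (node (nat_lit 10) (nat_lit
  60148) (nat_lit 11) nil nil))) (node (nat_lit 4) (nat_lit 59285) (nat_lit 10) (node (nat_lit 6)
  (nat_lit 60148) (nat_lit 11) (node (nat_lit 4) (nat_lit 60647) (nat_lit 12) (node (nat_lit 5)
  (nat_lit 61051) (nat_lit 13) (node (nat_lit 6) (nat_lit 61366) (nat_lit 14) nil nil) nil) (node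
  (nat_lit 5) (nat_lit 60900) (nat_lit 12) nil nil)) (node (nat_lit 5) (nat_lit 60148) (nat_lit
  11) nil nil)) (node (nat_lit 0) (nat_lit 59285) (nat_lit 10) nil nil))) (node (nat_lit 5)
  (nat_lit 58317) (nat_lit 9) (node (nat_lit 4) (nat_lit 59285) (nat_lit 10) (node (nat_lit 5)
  (nat_lit 59835) (nat_lit 11) (node (nat_lit 6) (nat_lit 60334) (nat_lit 12) (node (nat_lit 5)
  (nat_lit 53947) (nat_lit 13) (node (nat_lit 4) (nat_lit 52866) (nat_lit 14) nil nil) nil) nil)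
  (node (nat_lit 6) (nat_lit 59835) (nat_lit 11) nil nil)) (node (nat_lit 6) (nat_lit 59285)
  (nat_lit 10) (node (nat_lit 4) (nat_lit 60148) (nat_lit 11) (node (nat_lit 5) (nat_lit 60900)
  (nat_lit 12) nil nil) nil) (node (nat_lit 10) (nat_lit 59285) (nat_lit 10) (node (nat_lit 5)
  (nat_lit 60165) (nat_lit 11) (node (nat_lit 6) (nat_lit 59061) (nat_lit 12) nil nil) (node
  (nat_lit 4) (nat_lit 59835) (nat_lit 11) nil nil)) nil))) (node (nat_lit 4) (nat_lit 58524)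
  (nat_lit 9) (node (nat_lit 5) (nat_lit 59491) (nat_lit 10) (node (nat_lit 6) (nat_lit 47596)
  (nat_lit 11) (node (nat_lit 5) (nat_lit 23678) (nat_lit 12) nil nil) nil) (node (nat_lit 10)
  (nat_lit 59491) (nat_lit 10) (node (nat_lit 4) (nat_lit 60041) (nat_lit 11) nil nil) (node
  (nat_lit 6) (nat_lit 59491) (nat_lit 10) (node (nat_lit 5) (nat_lit 60354) (nat_lit 11) (node
  (nat_lit 4) (nat_lit 60853) (nat_lit 12) nil nil) nil) nil))) (node (nat_lit 0) (nat_lit 58317)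
  (nat_lit 9) (node (nat_lit 6) (nat_lit 58941) (nat_lit 10) nil nil) nil)))) (node (nat_lit 0)
  (nat_lit 0) (nat_lit 8) (node (nat_lit 10) (nat_lit 0) (nat_lit 9) (node (nat_lit 5) (nat_lit
  59456) (nat_lit 10) (node (nat_lit 11) (nat_lit 60007) (nat_lit 11) nil (node (nat_lit 4)
  (nat_lit 60007) (nat_lit 11) nil (node (nat_lit 6) (nat_lit 57738) (nat_lit 11) nil nil))) (node
  (nat_lit 6) (nat_lit 59456) (nat_lit 10) (node (nat_lit 4) (nat_lit 55309) (nat_lit 11) nil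
  (node (nat_lit 5) (nat_lit 58113) (nat_lit 11) nil nil)) (node (nat_lit 4) (nat_lit 59456)
  (nat_lit 10) (node (nat_lit 6) (nat_lit 60007) (nat_lit 11) nil nil) (node (nat_lit 0) (nat_lit
  59112) (nat_lit 10) nil nil)))) (node (nat_lit 5) (nat_lit 58489) (nat_lit 9) (node (nat_lit 4)
  (nat_lit 59456) (nat_lit 10) (node (nat_lit 5) (nat_lit 60007) (nat_lit 11) nil nil) (node
  (nat_lit 6) (nat_lit 59456) (nat_lit 10) nil (node (nat_lit 11) (nat_lit 59456) (nat_lit 10) nil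
  nil))) (node (nat_lit 4) (nat_lit 58489) (nat_lit 9) (node (nat_lit 6) (nat_lit 59456) (nat_lit
  10) nil (node (nat_lit 5) (nat_lit 59112) (nat_lit 10) nil nil)) (node (nat_lit 6) (nat_lit
  58489) (nat_lit 9) (node (nat_lit 4) (nat_lit 59112) (nat_lit 10) (node (nat_lit 5) (nat_lit
  59662) (nat_lit 11) nil nil) (node (nat_lit 5) (nat_lit 59456) (nat_lit 10) nil nil)) (node
  (nat_lit 0) (nat_lit 58099) (nat_lit 9) nil nil))))) (node (nat_lit 5) (nat_lit 0) (nat_lit 8)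
  (node (nat_lit 4) (nat_lit 58524) (nat_lit 9) (node (nat_lit 6) (nat_lit 59491) (nat_lit 10)
  (node (nat_lit 4) (nat_lit 60354) (nat_lit 11) (node (nat_lit 5) (nat_lit 60853) (nat_lit 12)
  nil nil) (node (nat_lit 5) (nat_lit 60354) (nat_lit 11) nil nil)) (node (nat_lit 5) (nat_lit
  59491) (nat_lit 10) (node (nat_lit 6) (nat_lit 60354) (nat_lit 11) (node (nat_lit 5) (nat_lit
  58196) (nat_lit 12) (node (nat_lit 4) (nat_lit 58601) (nat_lit 13) nil nil) nil) nil) (node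
  (nat_lit 10) (nat_lit 59491) (nat_lit 10) nil nil))) (node (nat_lit 6) (nat_lit 58317) (nat_lit
  9) (node (nat_lit 4) (nat_lit 59522) (nat_lit 10) (node (nat_lit 5) (nat_lit 59146) (nat_lit 11)
  nil (node (nat_lit 6) (nat_lit 60384) (nat_lit 11) nil nil)) (node (nat_lit 5) (nat_lit 59285)
  (nat_lit 10) (node (nat_lit 4) (nat_lit 60148) (nat_lit 11) nil nil) (node (nat_lit 10) (nat_lit
  59285) (nat_lit 10) nil nil))) (node (nat_lit 0) (nat_lit 58524) (nat_lit 9) (node (nat_lit 5)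
  (nat_lit 59491) (nat_lit 10) nil (node (nat_lit 6) (nat_lit 59491) (nat_lit 10) nil (node
  (nat_lit 4) (nat_lit 59491) (nat_lit 10) nil nil))) nil))) nil)))) (node (nat_lit 6) (nat_lit 0)
  (nat_lit 7) (node (nat_lit 0) (nat_lit 54967) (nat_lit 8) (node (nat_lit 6) (nat_lit 56908)
  (nat_lit 9) (node (nat_lit 5) (nat_lit 55212) (nat_lit 10) (node (nat_lit 4) (nat_lit 55762)
  (nat_lit 11) nil nil) (node (nat_lit 4) (nat_lit 57531) (nat_lit 10) (node (nat_lit 5) (nat_lit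
  58081) (nat_lit 11) (node (nat_lit 6) (nat_lit 58580) (nat_lit 12) nil nil) nil) nil)) (node
  (nat_lit 5) (nat_lit 56908) (nat_lit 9) (node (nat_lit 4) (nat_lit 57531) (nat_lit 10) nil (node
  (nat_lit 6) (nat_lit 57487) (nat_lit 10) nil nil)) nil)) (node (nat_lit 2) (nat_lit 54796)
  (nat_lit 8) (node (nat_lit 6) (nat_lit 56735) (nat_lit 9) (node (nat_lit 5) (nat_lit 55039)
  (nat_lit 10) nil (node (nat_lit 4) (nat_lit 56626) (nat_lit 10) (node (nat_lit 5) (nat_lit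
  48921) (nat_lit 11) (node (nat_lit 6) (nat_lit 45912) (nat_lit 12) (node (nat_lit 5) (nat_lit
  33910) (nat_lit 13) (node (nat_lit 4) (nat_lit 25891) (nat_lit 14) nil nil) nil) nil) nil) nil))
  (node (nat_lit 5) (nat_lit 56056) (nat_lit 9) (node (nat_lit 4) (nat_lit 56679) (nat_lit 10) nil
  (node (nat_lit 6) (nat_lit 53236) (nat_lit 10) nil nil)) nil)) (node (nat_lit 4) (nat_lit 50668)
  (nat_lit 8) (node (nat_lit 0) (nat_lit 53546) (nat_lit 9) (node (nat_lit 6) (nat_lit 55038)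
  (nat_lit 10) nil nil) (node (nat_lit 2) (nat_lit 53513) (nat_lit 9) (node (nat_lit 6) (nat_lit
  55500) (nat_lit 10) (node (nat_lit 4) (nat_lit 52199) (nat_lit 11) (node (nat_lit 5) (nat_lit
  50604) (nat_lit 12) (node (nat_lit 6) (nat_lit 49277) (nat_lit 13) nil nil) nil) nil) (node
  (nat_lit 5) (nat_lit 53360) (nat_lit 10) (node (nat_lit 4) (nat_lit 54524) (nat_lit 11) nil nil)
  nil)) nil)) nil))) nil)))

noncomputable def t196 : Tr :=
  (node (nat_lit 7) (nat_lit 0) (nat_lit 6) (node (nat_lit 0) (nat_lit 0) (nat_lit 7) (node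
  (nat_lit 4) (nat_lit 69027) (nat_lit 8) (node (nat_lit 10) (nat_lit 69209) (nat_lit 9) (node
  (nat_lit 7) (nat_lit 69209) (nat_lit 10) (node (nat_lit 4) (nat_lit 69316) (nat_lit 11) (node
  (nat_lit 5) (nat_lit 69316) (nat_lit 12) (node (nat_lit 4) (nat_lit 69316) (nat_lit 13) (node
  (nat_lit 7) (nat_lit 69316) (nat_lit 14) (node (nat_lit 5) (nat_lit 69316) (nat_lit 15) (node
  (nat_lit 7) (nat_lit 69316) (nat_lit 16) nil nil) nil) nil) nil) nil) nil) (node (nat_lit 5)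
  (nat_lit 69209) (nat_lit 10) (node (nat_lit 7) (nat_lit 69209) (nat_lit 11) (node (nat_lit 4)
  (nat_lit 69316) (nat_lit 12) nil nil) nil) nil)) (node (nat_lit 7) (nat_lit 69027) (nat_lit 9)
  (node (nat_lit 4) (nat_lit 69316) (nat_lit 10) (node (nat_lit 5) (nat_lit 69316) (nat_lit 11)
  (node (nat_lit 4) (nat_lit 69316) (nat_lit 12) (node (nat_lit 7) (nat_lit 69316) (nat_lit 13)
  (node (nat_lit 5) (nat_lit 69316) (nat_lit 14) nil nil) nil) nil) nil) (node (nat_lit 10)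
  (nat_lit 69316) (nat_lit 10) (node (nat_lit 7) (nat_lit 69316) (nat_lit 11) (node (nat_lit 4)
  (nat_lit 69316) (nat_lit 12) nil nil) nil) nil)) (node (nat_lit 5) (nat_lit 68777) (nat_lit 9)
  (node (nat_lit 7) (nat_lit 68824) (nat_lit 10) (node (nat_lit 4) (nat_lit 67961) (nat_lit 11)
  nil nil) (node (nat_lit 4) (nat_lit 69316) (nat_lit 10) (node (nat_lit 7) (nat_lit 69316)
  (nat_lit 11) nil nil) nil)) nil))) (node (nat_lit 5) (nat_lit 68580) (nat_lit 8) (node (nat_lit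
  10) (nat_lit 69002) (nat_lit 9) (node (nat_lit 7) (nat_lit 69002) (nat_lit 10) (node (nat_lit 4)
  (nat_lit 69253) (nat_lit 11) (node (nat_lit 5) (nat_lit 69253) (nat_lit 12) (node (nat_lit 4)
  (nat_lit 69316) (nat_lit 13) nil nil) nil) nil) (node (nat_lit 4) (nat_lit 69143) (nat_lit 10)
  (node (nat_lit 7) (nat_lit 69143) (nat_lit 11) nil nil) nil)) (node (nat_lit 7) (nat_lit 68580)
  (nat_lit 9) (node (nat_lit 4) (nat_lit 69143) (nat_lit 10) (node (nat_lit 5) (nat_lit 67174)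
  (nat_lit 11) (node (nat_lit 4) (nat_lit 64150) (nat_lit 12) (node (nat_lit 7) (nat_lit 56235)
  (nat_lit 13) nil nil) nil) nil) nil) (node (nat_lit 4) (nat_lit 69002) (nat_lit 9) (node
  (nat_lit 7) (nat_lit 69002) (nat_lit 10) (node (nat_lit 4) (nat_lit 69253) (nat_lit 11) (node
  (nat_lit 5) (nat_lit 69253) (nat_lit 12) nil nil) nil) (node (nat_lit 5) (nat_lit 69002)
  (nat_lit 10) (node (nat_lit 7) (nat_lit 69002) (nat_lit 11) nil nil) nil)) nil))) (node (nat_lit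
  0) (nat_lit 69027) (nat_lit 8) (node (nat_lit 10) (nat_lit 69209) (nat_lit 9) (node (nat_lit 7)
  (nat_lit 69209) (nat_lit 10) (node (nat_lit 4) (nat_lit 69316) (nat_lit 11) nil nil) nil) (node
  (nat_lit 7) (nat_lit 69027) (nat_lit 9) (node (nat_lit 4) (nat_lit 69316) (nat_lit 10) (node
  (nat_lit 5) (nat_lit 69316) (nat_lit 11) nil nil) nil) (node (nat_lit 4) (nat_lit 69209)
  (nat_lit 9) (node (nat_lit 7) (nat_lit 69209) (nat_lit 10) (node (nat_lit 4) (nat_lit 69316)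
  (nat_lit 11) nil nil) nil) nil))) (node (nat_lit 2) (nat_lit 68580) (nat_lit 8) (node (nat_lit
  10) (nat_lit 69002) (nat_lit 9) (node (nat_lit 7) (nat_lit 69002) (nat_lit 10) (node (nat_lit 4)
  (nat_lit 69253) (nat_lit 11) nil nil) (node (nat_lit 5) (nat_lit 69002) (nat_lit 10) (node
  (nat_lit 7) (nat_lit 69002) (nat_lit 11) nil nil) nil)) (node (nat_lit 7) (nat_lit 68580)
  (nat_lit 9) (node (nat_lit 4) (nat_lit 69059) (nat_lit 10) (node (nat_lit 5) (nat_lit 63163)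
  (nat_lit 11) nil nil) nil) (node (nat_lit 4) (nat_lit 69002) (nat_lit 9) (node (nat_lit 7)
  (nat_lit 69002) (nat_lit 10) (node (nat_lit 4) (nat_lit 69253) (nat_lit 11) nil nil) nil) (node
  (nat_lit 5) (nat_lit 68580) (nat_lit 9) (node (nat_lit 7) (nat_lit 68580) (nat_lit 10) nil nil)
  nil)))) (node (nat_lit 7) (nat_lit 0) (nat_lit 8) (node (nat_lit 5) (nat_lit 68580) (nat_lit 9)
  (node (nat_lit 4) (nat_lit 69143) (nat_lit 10) (node (nat_lit 7) (nat_lit 69143) (nat_lit 11)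
  nil nil) nil) (node (nat_lit 4) (nat_lit 69002) (nat_lit 9) (node (nat_lit 5) (nat_lit 69002)
  (nat_lit 10) (node (nat_lit 4) (nat_lit 69253) (nat_lit 11) (node (nat_lit 7) (nat_lit 69253)
  (nat_lit 12) (node (nat_lit 5) (nat_lit 69253) (nat_lit 13) (node (nat_lit 7) (nat_lit 69253)
  (nat_lit 14) nil nil) nil) nil) nil) nil) (node (nat_lit 0) (nat_lit 69002) (nat_lit 9) nil
  (node (nat_lit 2) (nat_lit 68580) (nat_lit 9) nil nil)))) nil))))) (node (nat_lit 4) (nat_lit 0)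
  (nat_lit 7) (node (nat_lit 0) (nat_lit 0) (nat_lit 8) (node (nat_lit 4) (nat_lit 0) (nat_lit 9)
  (node (nat_lit 5) (nat_lit 68549) (nat_lit 10) (node (nat_lit 7) (nat_lit 66332) (nat_lit 11)
  (node (nat_lit 4) (nat_lit 65537) (nat_lit 12) nil nil) nil) (node (nat_lit 7) (nat_lit 67958)
  (nat_lit 10) (node (nat_lit 4) (nat_lit 68490) (nat_lit 11) nil nil) (node (nat_lit 0) (nat_lit
  67958) (nat_lit 10) nil (node (nat_lit 2) (nat_lit 65570) (nat_lit 10) nil nil)))) (node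
  (nat_lit 7) (nat_lit 67766) (nat_lit 9) (node (nat_lit 4) (nat_lit 68371) (nat_lit 10) (node
  (nat_lit 5) (nat_lit 68904) (nat_lit 11) nil nil) nil) (node (nat_lit 5) (nat_lit 67804)
  (nat_lit 9) (node (nat_lit 7) (nat_lit 69001) (nat_lit 10) nil nil) (node (nat_lit 0) (nat_lit
  68358) (nat_lit 9) nil (node (nat_lit 2) (nat_lit 68358) (nat_lit 9) nil nil))))) (node (nat_lit
  2) (nat_lit 0) (nat_lit 8) (node (nat_lit 4) (nat_lit 67352) (nat_lit 9) (node (nat_lit 5)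
  (nat_lit 68549) (nat_lit 10) (node (nat_lit 7) (nat_lit 66332) (nat_lit 11) nil (node (nat_lit
  11) (nat_lit 67133) (nat_lit 11) nil nil)) (node (nat_lit 7) (nat_lit 67958) (nat_lit 10) (node
  (nat_lit 4) (nat_lit 68490) (nat_lit 11) nil nil) nil)) (node (nat_lit 7) (nat_lit 67766)
  (nat_lit 9) (node (nat_lit 4) (nat_lit 68963) (nat_lit 10) (node (nat_lit 5) (nat_lit 68435)
  (nat_lit 11) nil nil) nil) (node (nat_lit 5) (nat_lit 67804) (nat_lit 9) (node (nat_lit 7)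
  (nat_lit 68415) (nat_lit 10) nil nil) (node (nat_lit 0) (nat_lit 68358) (nat_lit 9) nil nil))))
  (node (nat_lit 5) (nat_lit 0) (nat_lit 8) (node (nat_lit 0) (nat_lit 55113) (nat_lit 9) (node
  (nat_lit 4) (nat_lit 58109) (nat_lit 10) (node (nat_lit 5) (nat_lit 60493) (nat_lit 11) (node
  (nat_lit 7) (nat_lit 62365) (nat_lit 12) (node (nat_lit 4) (nat_lit 60223) (nat_lit 13) nil nil)
  (node (nat_lit 4) (nat_lit 61334) (nat_lit 12) nil nil)) nil) (node (nat_lit 5) (nat_lit 58109)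
  (nat_lit 10) (node (nat_lit 4) (nat_lit 60493) (nat_lit 11) nil nil) (node (nat_lit 7) (nat_lit
  58109) (nat_lit 10) (node (nat_lit 5) (nat_lit 60493) (nat_lit 11) (node (nat_lit 7) (nat_lit
  61550) (nat_lit 12) nil nil) nil) nil))) (node (nat_lit 2) (nat_lit 54964) (nat_lit 9) (node
  (nat_lit 4) (nat_lit 57750) (nat_lit 10) (node (nat_lit 5) (nat_lit 59974) (nat_lit 11) (node
  (nat_lit 7) (nat_lit 60566) (nat_lit 12) (node (nat_lit 4) (nat_lit 58424) (nat_lit 13) nil nil)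
  (node (nat_lit 4) (nat_lit 61845) (nat_lit 12) nil nil)) nil) (node (nat_lit 5) (nat_lit 58065)
  (nat_lit 10) (node (nat_lit 4) (nat_lit 60493) (nat_lit 11) nil nil) (node (nat_lit 7) (nat_lit
  58065) (nat_lit 10) (node (nat_lit 5) (nat_lit 60449) (nat_lit 11) (node (nat_lit 7) (nat_lit
  62321) (nat_lit 12) nil nil) nil) nil))) (node (nat_lit 7) (nat_lit 54778) (nat_lit 9) (node
  (nat_lit 5) (nat_lit 57678) (nat_lit 10) nil nil) nil))) (node (nat_lit 7) (nat_lit 0) (nat_lit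
  8) (node (nat_lit 0) (nat_lit 65069) (nat_lit 9) (node (nat_lit 4) (nat_lit 66678) (nat_lit 10)
  (node (nat_lit 7) (nat_lit 67886) (nat_lit 11) (node (nat_lit 4) (nat_lit 68828) (nat_lit 12)
  (node (nat_lit 5) (nat_lit 69316) (nat_lit 13) nil nil) nil) nil) (node (nat_lit 7) (nat_lit
  67170) (nat_lit 10) (node (nat_lit 4) (nat_lit 68378) (nat_lit 11) nil nil) (node (nat_lit 5)
  (nat_lit 66571) (nat_lit 10) (node (nat_lit 7) (nat_lit 68241) (nat_lit 11) nil nil) nil)))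
  (node (nat_lit 2) (nat_lit 65069) (nat_lit 9) (node (nat_lit 4) (nat_lit 66678) (nat_lit 10)
  (node (nat_lit 7) (nat_lit 67886) (nat_lit 11) (node (nat_lit 4) (nat_lit 68826) (nat_lit 12)
  (node (nat_lit 5) (nat_lit 68826) (nat_lit 13) nil nil) nil) nil) (node (nat_lit 7) (nat_lit
  67170) (nat_lit 10) (node (nat_lit 4) (nat_lit 68378) (nat_lit 11) nil nil) (node (nat_lit 5)
  (nat_lit 66571) (nat_lit 10) (node (nat_lit 7) (nat_lit 66663) (nat_lit 11) nil nil) nil)))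
  nil)) nil)))) (node (nat_lit 2) (nat_lit 0) (nat_lit 7) (node (nat_lit 4) (nat_lit 0) (nat_lit
  8) (node (nat_lit 10) (nat_lit 68450) (nat_lit 9) (node (nat_lit 7) (nat_lit 68450) (nat_lit 10)
  (node (nat_lit 4) (nat_lit 68884) (nat_lit 11) (node (nat_lit 5) (nat_lit 68884) (nat_lit 12)
  (node (nat_lit 4) (nat_lit 67308) (nat_lit 13) (node (nat_lit 7) (nat_lit 61718) (nat_lit 14)
  (node (nat_lit 5) (nat_lit 56176) (nat_lit 15) (node (nat_lit 7) (nat_lit 45030) (nat_lit 16)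
  nil nil) nil) nil) nil) nil) nil) (node (nat_lit 5) (nat_lit 68450) (nat_lit 10) (node (nat_lit
  4) (nat_lit 68884) (nat_lit 11) (node (nat_lit 7) (nat_lit 68884) (nat_lit 12) nil nil) (node
  (nat_lit 7) (nat_lit 68450) (nat_lit 11) (node (nat_lit 4) (nat_lit 68970) (nat_lit 12) nil nil)
  nil)) nil)) (node (nat_lit 5) (nat_lit 68450) (nat_lit 9) (node (nat_lit 7) (nat_lit 68450)
  (nat_lit 10) (node (nat_lit 4) (nat_lit 68884) (nat_lit 11) (node (nat_lit 5) (nat_lit 63834)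
  (nat_lit 12) (node (nat_lit 4) (nat_lit 61794) (nat_lit 13) (node (nat_lit 7) (nat_lit 56205)
  (nat_lit 14) (node (nat_lit 5) (nat_lit 49187) (nat_lit 15) (node (nat_lit 7) (nat_lit 38303)
  (nat_lit 16) nil nil) nil) nil) nil) nil) nil) (node (nat_lit 4) (nat_lit 68773) (nat_lit 10)
  (node (nat_lit 7) (nat_lit 68773) (nat_lit 11) nil nil) nil)) (node (nat_lit 7) (nat_lit 68450)
  (nat_lit 9) (node (nat_lit 4) (nat_lit 68773) (nat_lit 10) (node (nat_lit 5) (nat_lit 68773)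
  (nat_lit 11) (node (nat_lit 4) (nat_lit 68970) (nat_lit 12) (node (nat_lit 7) (nat_lit 68970)
  (nat_lit 13) (node (nat_lit 5) (nat_lit 68970) (nat_lit 14) nil nil) nil) nil) nil) (node
  (nat_lit 10) (nat_lit 68450) (nat_lit 10) (node (nat_lit 7) (nat_lit 68450) (nat_lit 11) (node
  (nat_lit 4) (nat_lit 68970) (nat_lit 12) nil nil) nil) nil)) (node (nat_lit 0) (nat_lit 68632)
  (nat_lit 9) nil nil)))) (node (nat_lit 5) (nat_lit 0) (nat_lit 8) (node (nat_lit 10) (nat_lit 0)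
  (nat_lit 9) (node (nat_lit 7) (nat_lit 58588) (nat_lit 10) (node (nat_lit 5) (nat_lit 62300)
  (nat_lit 11) (node (nat_lit 7) (nat_lit 62308) (nat_lit 12) (node (nat_lit 4) (nat_lit 60592)
  (nat_lit 13) (node (nat_lit 5) (nat_lit 59674) (nat_lit 14) (node (nat_lit 4) (nat_lit 59026)
  (nat_lit 15) (node (nat_lit 7) (nat_lit 57903) (nat_lit 16) nil nil) nil) nil) nil) (node
  (nat_lit 4) (nat_lit 66914) (nat_lit 12) (node (nat_lit 7) (nat_lit 66914) (nat_lit 13) nil nil)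
  nil)) (node (nat_lit 10) (nat_lit 61597) (nat_lit 11) (node (nat_lit 5) (nat_lit 62715) (nat_lit
  12) (node (nat_lit 7) (nat_lit 62877) (nat_lit 13) nil nil) (node (nat_lit 4) (nat_lit 63667)
  (nat_lit 12) nil nil)) (node (nat_lit 4) (nat_lit 64540) (nat_lit 11) (node (nat_lit 5) (nat_lit
  64459) (nat_lit 12) (node (nat_lit 4) (nat_lit 55822) (nat_lit 13) nil nil) nil) (node (nat_lit
  0) (nat_lit 64611) (nat_lit 11) nil nil)))) (node (nat_lit 4) (nat_lit 68424) (nat_lit 10) (node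
  (nat_lit 5) (nat_lit 68424) (nat_lit 11) (node (nat_lit 7) (nat_lit 68424) (nat_lit 12) (node
  (nat_lit 4) (nat_lit 68566) (nat_lit 13) nil nil) nil) (node (nat_lit 7) (nat_lit 68424)
  (nat_lit 11) nil nil)) (node (nat_lit 0) (nat_lit 68424) (nat_lit 10) nil nil))) (node (nat_lit
  7) (nat_lit 0) (nat_lit 9) (node (nat_lit 5) (nat_lit 58539) (nat_lit 10) (node (nat_lit 4)
  (nat_lit 68881) (nat_lit 11) (node (nat_lit 7) (nat_lit 68881) (nat_lit 12) (node (nat_lit 4)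
  (nat_lit 69035) (nat_lit 13) nil nil) nil) (node (nat_lit 10) (nat_lit 62505) (nat_lit 11) nil
  nil)) (node (nat_lit 4) (nat_lit 68476) (nat_lit 10) (node (nat_lit 5) (nat_lit 68476) (nat_lit
  11) nil nil) (node (nat_lit 0) (nat_lit 68476) (nat_lit 10) nil nil))) (node (nat_lit 4)
  (nat_lit 67904) (nat_lit 9) (node (nat_lit 7) (nat_lit 67904) (nat_lit 10) (node (nat_lit 4)
  (nat_lit 68155) (nat_lit 11) (node (nat_lit 5) (nat_lit 68155) (nat_lit 12) nil nil) nil) (node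
  (nat_lit 5) (nat_lit 67904) (nat_lit 10) (node (nat_lit 7) (nat_lit 67904) (nat_lit 11) (node
  (nat_lit 4) (nat_lit 68242) (nat_lit 12) nil nil) nil) nil)) (node (nat_lit 0) (nat_lit 67904)
  (nat_lit 9) nil nil)))) (node (nat_lit 0) (nat_lit 68450) (nat_lit 8) (node (nat_lit 10)
  (nat_lit 68450) (nat_lit 9) (node (nat_lit 7) (nat_lit 68450) (nat_lit 10) (node (nat_lit 11)
  (nat_lit 68884) (nat_lit 11) nil (node (nat_lit 4) (nat_lit 67961) (nat_lit 11) nil nil)) (node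
  (nat_lit 5) (nat_lit 66995) (nat_lit 10) nil (node (nat_lit 4) (nat_lit 68773) (nat_lit 10)
  (node (nat_lit 7) (nat_lit 68773) (nat_lit 11) nil nil) nil))) (node (nat_lit 7) (nat_lit 68450)
  (nat_lit 9) (node (nat_lit 4) (nat_lit 68773) (nat_lit 10) (node (nat_lit 5) (nat_lit 68773)
  (nat_lit 11) nil nil) nil) (node (nat_lit 4) (nat_lit 68632) (nat_lit 9) (node (nat_lit 7)
  (nat_lit 68632) (nat_lit 10) (node (nat_lit 4) (nat_lit 68884) (nat_lit 11) nil nil) nil) (node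
  (nat_lit 5) (nat_lit 68450) (nat_lit 9) (node (nat_lit 7) (nat_lit 68450) (nat_lit 10) nil nil)
  nil)))) (node (nat_lit 7) (nat_lit 0) (nat_lit 8) (node (nat_lit 5) (nat_lit 58579) (nat_lit 9)
  (node (nat_lit 4) (nat_lit 67354) (nat_lit 10) (node (nat_lit 7) (nat_lit 67354) (nat_lit 11)
  nil nil) (node (nat_lit 7) (nat_lit 58579) (nat_lit 10) (node (nat_lit 4) (nat_lit 64601)
  (nat_lit 11) (node (nat_lit 5) (nat_lit 57256) (nat_lit 12) nil nil) nil) (node (nat_lit 10)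
  (nat_lit 58598) (nat_lit 10) nil nil))) (node (nat_lit 4) (nat_lit 67904) (nat_lit 9) (node
  (nat_lit 5) (nat_lit 66317) (nat_lit 10) (node (nat_lit 4) (nat_lit 58645) (nat_lit 11) (node
  (nat_lit 7) (nat_lit 49037) (nat_lit 12) (node (nat_lit 5) (nat_lit 34441) (nat_lit 13) nil nil)
  nil) nil) nil) (node (nat_lit 0) (nat_lit 67904) (nat_lit 9) (node (nat_lit 7) (nat_lit 67904)
  (nat_lit 10) nil nil) nil))) nil)))) nil))) (node (nat_lit 4) (nat_lit 0) (nat_lit 6) (node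
  (nat_lit 0) (nat_lit 61673) (nat_lit 7) (node (nat_lit 7) (nat_lit 63214) (nat_lit 8) (node
  (nat_lit 4) (nat_lit 64833) (nat_lit 9) (node (nat_lit 5) (nat_lit 64833) (nat_lit 10) (node
  (nat_lit 4) (nat_lit 65063) (nat_lit 11) (node (nat_lit 7) (nat_lit 65063) (nat_lit 12) nil nil)
  nil) nil) nil) nil) (node (nat_lit 2) (nat_lit 60776) (nat_lit 7) (node (nat_lit 7) (nat_lit
  60929) (nat_lit 8) (node (nat_lit 4) (nat_lit 58072) (nat_lit 9) (node (nat_lit 5) (nat_lit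
  54304) (nat_lit 10) (node (nat_lit 4) (nat_lit 38433) (nat_lit 11) (node (nat_lit 7) (nat_lit
  28016) (nat_lit 12) nil nil) nil) nil) nil) nil) (node (nat_lit 5) (nat_lit 59682) (nat_lit 7)
  (node (nat_lit 7) (nat_lit 59574) (nat_lit 8) (node (nat_lit 4) (nat_lit 62559) (nat_lit 9)
  (node (nat_lit 5) (nat_lit 59760) (nat_lit 10) (node (nat_lit 4) (nat_lit 60094) (nat_lit 11)
  (node (nat_lit 7) (nat_lit 53741) (nat_lit 12) nil nil) nil) nil) nil) nil) nil))) (node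
  (nat_lit 0) (nat_lit 0) (nat_lit 6) (node (nat_lit 7) (nat_lit 67900) (nat_lit 7) (node (nat_lit
  4) (nat_lit 68459) (nat_lit 8) (node (nat_lit 5) (nat_lit 68459) (nat_lit 9) (node (nat_lit 4)
  (nat_lit 68782) (nat_lit 10) (node (nat_lit 7) (nat_lit 68782) (nat_lit 11) (node (nat_lit 5)
  (nat_lit 68782) (nat_lit 12) nil nil) nil) nil) nil) (node (nat_lit 5) (nat_lit 67900) (nat_lit
  8) (node (nat_lit 7) (nat_lit 67900) (nat_lit 9) (node (nat_lit 4) (nat_lit 68782) (nat_lit 10)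
  (node (nat_lit 5) (nat_lit 67083) (nat_lit 11) nil nil) nil) nil) (node (nat_lit 9) (nat_lit
  68459) (nat_lit 8) nil nil))) (node (nat_lit 4) (nat_lit 68267) (nat_lit 7) (node (nat_lit 7)
  (nat_lit 68482) (nat_lit 8) (node (nat_lit 4) (nat_lit 68904) (nat_lit 9) (node (nat_lit 5)
  (nat_lit 68904) (nat_lit 10) (node (nat_lit 4) (nat_lit 69155) (nat_lit 11) nil nil) nil) nil)
  (node (nat_lit 5) (nat_lit 68482) (nat_lit 8) (node (nat_lit 7) (nat_lit 68482) (nat_lit 9)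
  (node (nat_lit 4) (nat_lit 67275) (nat_lit 10) nil nil) nil) (node (nat_lit 9) (nat_lit 68722)
  (nat_lit 8) (node (nat_lit 5) (nat_lit 68722) (nat_lit 9) (node (nat_lit 7) (nat_lit 68722)
  (nat_lit 10) nil nil) (node (nat_lit 7) (nat_lit 68722) (nat_lit 9) (node (nat_lit 4) (nat_lit
  69045) (nat_lit 10) (node (nat_lit 5) (nat_lit 69045) (nat_lit 11) nil nil) nil) nil)) nil)))
  (node (nat_lit 5) (nat_lit 67900) (nat_lit 7) (node (nat_lit 7) (nat_lit 67900) (nat_lit 8)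
  (node (nat_lit 4) (nat_lit 67878) (nat_lit 9) (node (nat_lit 5) (nat_lit 65574) (nat_lit 10)
  (node (nat_lit 4) (nat_lit 54424) (nat_lit 11) (node (nat_lit 7) (nat_lit 43746) (nat_lit 12)
  (node (nat_lit 5) (nat_lit 22913) (nat_lit 13) nil nil) nil) nil) nil) nil) (node (nat_lit 4)
  (nat_lit 68459) (nat_lit 8) (node (nat_lit 7) (nat_lit 68459) (nat_lit 9) nil nil) nil)) (node
  (nat_lit 0) (nat_lit 68267) (nat_lit 7) (node (nat_lit 7) (nat_lit 68482) (nat_lit 8) (node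
  (nat_lit 4) (nat_lit 68904) (nat_lit 9) (node (nat_lit 5) (nat_lit 68904) (nat_lit 10) nil nil)
  nil) (node (nat_lit 5) (nat_lit 66657) (nat_lit 8) (node (nat_lit 7) (nat_lit 67044) (nat_lit 9)
  nil nil) (node (nat_lit 4) (nat_lit 68722) (nat_lit 8) (node (nat_lit 7) (nat_lit 68722)
  (nat_lit 9) nil nil) nil))) (node (nat_lit 2) (nat_lit 67900) (nat_lit 7) (node (nat_lit 7)
  (nat_lit 67900) (nat_lit 8) (node (nat_lit 4) (nat_lit 67006) (nat_lit 9) (node (nat_lit 5)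
  (nat_lit 57215) (nat_lit 10) nil nil) nil) (node (nat_lit 5) (nat_lit 67629) (nat_lit 8) (node
  (nat_lit 7) (nat_lit 67044) (nat_lit 9) nil nil) (node (nat_lit 4) (nat_lit 68459) (nat_lit 8)
  (node (nat_lit 7) (nat_lit 68459) (nat_lit 9) nil nil) nil))) nil))))) (node (nat_lit 2)
  (nat_lit 0) (nat_lit 6) (node (nat_lit 7) (nat_lit 0) (nat_lit 7) (node (nat_lit 4) (nat_lit
  66424) (nat_lit 8) (node (nat_lit 5) (nat_lit 58395) (nat_lit 9) (node (nat_lit 7) (nat_lit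
  59000) (nat_lit 10) nil (node (nat_lit 4) (nat_lit 39217) (nat_lit 10) (node (nat_lit 7)
  (nat_lit 30998) (nat_lit 11) nil nil) nil)) (node (nat_lit 7) (nat_lit 66940) (nat_lit 9) nil
  nil)) (node (nat_lit 5) (nat_lit 59388) (nat_lit 8) (node (nat_lit 7) (nat_lit 59388) (nat_lit
  9) (node (nat_lit 4) (nat_lit 65159) (nat_lit 10) (node (nat_lit 5) (nat_lit 62569) (nat_lit 11)
  nil nil) nil) (node (nat_lit 4) (nat_lit 67838) (nat_lit 9) nil nil)) (node (nat_lit 9) (nat_lit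
  0) (nat_lit 8) (node (nat_lit 5) (nat_lit 59388) (nat_lit 9) (node (nat_lit 7) (nat_lit 59388)
  (nat_lit 10) (node (nat_lit 4) (nat_lit 62057) (nat_lit 11) nil nil) (node (nat_lit 4) (nat_lit
  65159) (nat_lit 10) nil nil)) (node (nat_lit 4) (nat_lit 68089) (nat_lit 9) (node (nat_lit 7)
  (nat_lit 68089) (nat_lit 10) nil nil) (node (nat_lit 0) (nat_lit 68089) (nat_lit 9) nil nil)))
  (node (nat_lit 0) (nat_lit 67407) (nat_lit 8) nil nil)))) (node (nat_lit 4) (nat_lit 67741)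
  (nat_lit 7) (node (nat_lit 7) (nat_lit 67741) (nat_lit 8) (node (nat_lit 4) (nat_lit 68163)
  (nat_lit 9) (node (nat_lit 5) (nat_lit 68163) (nat_lit 10) (node (nat_lit 4) (nat_lit 68415)
  (nat_lit 11) nil nil) nil) nil) (node (nat_lit 5) (nat_lit 67741) (nat_lit 8) (node (nat_lit 7)
  (nat_lit 67741) (nat_lit 9) (node (nat_lit 4) (nat_lit 67118) (nat_lit 10) nil nil) nil) (node
  (nat_lit 9) (nat_lit 67741) (nat_lit 8) (node (nat_lit 7) (nat_lit 67741) (nat_lit 9) (node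
  (nat_lit 4) (nat_lit 68305) (nat_lit 10) (node (nat_lit 5) (nat_lit 65914) (nat_lit 11) nil nil)
  nil) nil) nil))) (node (nat_lit 5) (nat_lit 59388) (nat_lit 7) (node (nat_lit 7) (nat_lit 59388)
  (nat_lit 8) (node (nat_lit 4) (nat_lit 64834) (nat_lit 9) (node (nat_lit 5) (nat_lit 63730)
  (nat_lit 10) (node (nat_lit 4) (nat_lit 53766) (nat_lit 11) (node (nat_lit 7) (nat_lit 45929)
  (nat_lit 12) (node (nat_lit 5) (nat_lit 30007) (nat_lit 13) nil nil) nil) nil) nil) (node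
  (nat_lit 9) (nat_lit 59388) (nat_lit 9) nil nil)) (node (nat_lit 4) (nat_lit 67407) (nat_lit 8)
  (node (nat_lit 7) (nat_lit 67407) (nat_lit 9) (node (nat_lit 4) (nat_lit 67730) (nat_lit 10)
  (node (nat_lit 5) (nat_lit 67730) (nat_lit 11) nil nil) nil) nil) nil)) (node (nat_lit 0)
  (nat_lit 67741) (nat_lit 7) (node (nat_lit 7) (nat_lit 67741) (nat_lit 8) (node (nat_lit 4)
  (nat_lit 68163) (nat_lit 9) (node (nat_lit 5) (nat_lit 68163) (nat_lit 10) nil nil) nil) (node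
  (nat_lit 5) (nat_lit 66657) (nat_lit 8) (node (nat_lit 7) (nat_lit 67044) (nat_lit 9) nil nil)
  (node (nat_lit 4) (nat_lit 67982) (nat_lit 8) (node (nat_lit 7) (nat_lit 67982) (nat_lit 9) nil
  nil) nil))) nil)))) nil))))

noncomputable def t197 : Tr :=
  (node (nat_lit 3) (nat_lit 0) (nat_lit 3) (node (nat_lit 4) (nat_lit 0) (nat_lit 4) t194 (node
  (nat_lit 5) (nat_lit 0) (nat_lit 4) (node (nat_lit 4) (nat_lit 0) (nat_lit 5) (node (nat_lit 5)
  (nat_lit 0) (nat_lit 6) t195 (node (nat_lit 6) (nat_lit 0) (nat_lit 6) (node (nat_lit 0)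
  (nat_lit 0) (nat_lit 7) (node (nat_lit 5) (nat_lit 118259) (nat_lit 8) (node (nat_lit 4)
  (nat_lit 119619) (nat_lit 9) (node (nat_lit 5) (nat_lit 119619) (nat_lit 10) (node (nat_lit 6)
  (nat_lit 119619) (nat_lit 11) (node (nat_lit 5) (nat_lit 119619) (nat_lit 12) (node (nat_lit 4)
  (nat_lit 119954) (nat_lit 13) (node (nat_lit 6) (nat_lit 119954) (nat_lit 14) nil nil) nil) nil)
  nil) nil) (node (nat_lit 6) (nat_lit 118223) (nat_lit 9) nil nil)) (node (nat_lit 4) (nat_lit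
  118235) (nat_lit 8) (node (nat_lit 6) (nat_lit 117203) (nat_lit 9) (node (nat_lit 4) (nat_lit
  118355) (nat_lit 10) (node (nat_lit 5) (nat_lit 119371) (nat_lit 11) (node (nat_lit 6) (nat_lit
  118842) (nat_lit 12) (node (nat_lit 5) (nat_lit 119091) (nat_lit 13) (node (nat_lit 4) (nat_lit
  119407) (nat_lit 14) (node (nat_lit 6) (nat_lit 119834) (nat_lit 15) nil nil) nil) nil) nil)
  nil) nil) nil) (node (nat_lit 6) (nat_lit 118259) (nat_lit 8) (node (nat_lit 5) (nat_lit 118259)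
  (nat_lit 9) nil (node (nat_lit 4) (nat_lit 119619) (nat_lit 9) (node (nat_lit 5) (nat_lit
  119619) (nat_lit 10) (node (nat_lit 6) (nat_lit 119619) (nat_lit 11) (node (nat_lit 5) (nat_lit
  119619) (nat_lit 12) (node (nat_lit 4) (nat_lit 119954) (nat_lit 13) (node (nat_lit 6) (nat_lit
  119954) (nat_lit 14) nil nil) nil) nil) nil) nil) nil)) (node (nat_lit 0) (nat_lit 118235)
  (nat_lit 8) (node (nat_lit 6) (nat_lit 117203) (nat_lit 9) (node (nat_lit 4) (nat_lit 118355)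
  (nat_lit 10) nil nil) (node (nat_lit 5) (nat_lit 117074) (nat_lit 9) nil nil)) (node (nat_lit 2)
  (nat_lit 117062) (nat_lit 8) (node (nat_lit 6) (nat_lit 116420) (nat_lit 9) (node (nat_lit 4)
  (nat_lit 117657) (nat_lit 10) (node (nat_lit 5) (nat_lit 108803) (nat_lit 11) nil nil) (node
  (nat_lit 5) (nat_lit 113881) (nat_lit 10) nil nil)) (node (nat_lit 10) (nat_lit 118780) (nat_lit
  9) nil (node (nat_lit 5) (nat_lit 118259) (nat_lit 9) (node (nat_lit 4) (nat_lit 113290)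
  (nat_lit 10) (node (nat_lit 5) (nat_lit 110488) (nat_lit 11) nil nil) nil) nil))) nil))))) (node
  (nat_lit 2) (nat_lit 0) (nat_lit 7) (node (nat_lit 5) (nat_lit 114619) (nat_lit 8) (node
  (nat_lit 10) (nat_lit 114619) (nat_lit 9) (node (nat_lit 6) (nat_lit 113950) (nat_lit 10) nil
  nil) (node (nat_lit 4) (nat_lit 115983) (nat_lit 9) (node (nat_lit 5) (nat_lit 110623) (nat_lit
  10) (node (nat_lit 6) (nat_lit 103894) (nat_lit 11) (node (nat_lit 5) (nat_lit 87807) (nat_lit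
  12) (node (nat_lit 4) (nat_lit 68866) (nat_lit 13) (node (nat_lit 6) (nat_lit 59175) (nat_lit
  14) nil nil) nil) nil) nil) nil) (node (nat_lit 6) (nat_lit 112441) (nat_lit 9) (node (nat_lit
  4) (nat_lit 110738) (nat_lit 10) (node (nat_lit 5) (nat_lit 107936) (nat_lit 11) (node (nat_lit
  6) (nat_lit 102405) (nat_lit 12) (node (nat_lit 5) (nat_lit 96121) (nat_lit 13) (node (nat_lit
  4) (nat_lit 83717) (nat_lit 14) (node (nat_lit 6) (nat_lit 67167) (nat_lit 15) nil nil) nil)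
  nil) nil) nil) nil) nil))) (node (nat_lit 4) (nat_lit 117848) (nat_lit 8) (node (nat_lit 10)
  (nat_lit 116467) (nat_lit 9) nil (node (nat_lit 6) (nat_lit 117530) (nat_lit 9) (node (nat_lit
  4) (nat_lit 118464) (nat_lit 10) (node (nat_lit 5) (nat_lit 118464) (nat_lit 11) (node (nat_lit
  6) (nat_lit 118464) (nat_lit 12) (node (nat_lit 5) (nat_lit 118464) (nat_lit 13) (node (nat_lit
  4) (nat_lit 119069) (nat_lit 14) (node (nat_lit 6) (nat_lit 119069) (nat_lit 15) nil nil) nil)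
  nil) nil) nil) nil) nil)) (node (nat_lit 6) (nat_lit 114619) (nat_lit 8) (node (nat_lit 5)
  (nat_lit 113978) (nat_lit 9) nil (node (nat_lit 4) (nat_lit 118195) (nat_lit 9) (node (nat_lit
  5) (nat_lit 114541) (nat_lit 10) (node (nat_lit 6) (nat_lit 106812) (nat_lit 11) (node (nat_lit
  5) (nat_lit 96569) (nat_lit 12) (node (nat_lit 4) (nat_lit 80637) (nat_lit 13) (node (nat_lit 6)
  (nat_lit 50437) (nat_lit 14) nil nil) nil) nil) nil) nil) nil)) (node (nat_lit 0) (nat_lit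
  117848) (nat_lit 8) (node (nat_lit 6) (nat_lit 116900) (nat_lit 9) (node (nat_lit 4) (nat_lit
  118052) (nat_lit 10) nil nil) (node (nat_lit 5) (nat_lit 116771) (nat_lit 9) (node (nat_lit 4)
  (nat_lit 117923) (nat_lit 10) nil nil) nil)) nil)))) (node (nat_lit 5) (nat_lit 0) (nat_lit 7)
  (node (nat_lit 0) (nat_lit 115765) (nat_lit 8) (node (nat_lit 5) (nat_lit 114603) (nat_lit 9)
  (node (nat_lit 4) (nat_lit 115756) (nat_lit 10) (node (nat_lit 5) (nat_lit 116772) (nat_lit 11)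
  nil nil) nil) (node (nat_lit 6) (nat_lit 114732) (nat_lit 9) (node (nat_lit 4) (nat_lit 115885)
  (nat_lit 10) (node (nat_lit 5) (nat_lit 116901) (nat_lit 11) (node (nat_lit 6) (nat_lit 116372)
  (nat_lit 12) nil nil) nil) nil) nil)) (node (nat_lit 2) (nat_lit 0) (nat_lit 8) (node (nat_lit
  5) (nat_lit 113677) (nat_lit 9) (node (nat_lit 4) (nat_lit 113085) (nat_lit 10) (node (nat_lit
  5) (nat_lit 110283) (nat_lit 11) (node (nat_lit 6) (nat_lit 105380) (nat_lit 12) nil nil) nil)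
  (node (nat_lit 6) (nat_lit 113059) (nat_lit 10) (node (nat_lit 4) (nat_lit 113501) (nat_lit 11)
  (node (nat_lit 5) (nat_lit 112215) (nat_lit 12) nil nil) nil) nil)) (node (nat_lit 6) (nat_lit
  113677) (nat_lit 9) (node (nat_lit 4) (nat_lit 113891) (nat_lit 10) (node (nat_lit 5) (nat_lit
  111089) (nat_lit 11) (node (nat_lit 6) (nat_lit 106186) (nat_lit 12) (node (nat_lit 5) (nat_lit
  91841) (nat_lit 13) (node (nat_lit 4) (nat_lit 79437) (nat_lit 14) (node (nat_lit 6) (nat_lit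
  62887) (nat_lit 15) nil nil) nil) nil) nil) nil) (node (nat_lit 5) (nat_lit 113647) (nat_lit 10)
  (node (nat_lit 4) (nat_lit 114089) (nat_lit 11) nil nil) nil)) (node (nat_lit 0) (nat_lit
  115916) (nat_lit 9) nil (node (nat_lit 4) (nat_lit 115916) (nat_lit 9) nil nil)))) (node
  (nat_lit 6) (nat_lit 0) (nat_lit 8) (node (nat_lit 0) (nat_lit 113128) (nat_lit 9) (node
  (nat_lit 5) (nat_lit 116541) (nat_lit 10) nil nil) (node (nat_lit 2) (nat_lit 110006) (nat_lit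
  9) (node (nat_lit 5) (nat_lit 110702) (nat_lit 10) (node (nat_lit 6) (nat_lit 110702) (nat_lit
  11) nil nil) (node (nat_lit 6) (nat_lit 110702) (nat_lit 10) nil (node (nat_lit 4) (nat_lit
  112690) (nat_lit 10) nil nil))) (node (nat_lit 4) (nat_lit 113128) (nat_lit 9) (node (nat_lit 5)
  (nat_lit 116541) (nat_lit 10) nil nil) nil))) nil))) (node (nat_lit 4) (nat_lit 0) (nat_lit 7)
  (node (nat_lit 0) (nat_lit 115765) (nat_lit 8) (node (nat_lit 6) (nat_lit 115667) (nat_lit 9)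
  (node (nat_lit 4) (nat_lit 116819) (nat_lit 10) (node (nat_lit 5) (nat_lit 117836) (nat_lit 11)
  nil nil) nil) (node (nat_lit 5) (nat_lit 114603) (nat_lit 9) (node (nat_lit 4) (nat_lit 115756)
  (nat_lit 10) (node (nat_lit 5) (nat_lit 116772) (nat_lit 11) nil nil) nil) nil)) (node (nat_lit
  2) (nat_lit 115726) (nat_lit 8) (node (nat_lit 6) (nat_lit 116240) (nat_lit 9) (node (nat_lit 4)
  (nat_lit 117110) (nat_lit 10) (node (nat_lit 5) (nat_lit 117110) (nat_lit 11) nil nil) nil)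
  (node (nat_lit 5) (nat_lit 117760) (nat_lit 9) (node (nat_lit 4) (nat_lit 119182) (nat_lit 10)
  nil nil) nil)) (node (nat_lit 5) (nat_lit 0) (nat_lit 8) (node (nat_lit 6) (nat_lit 113269)
  (nat_lit 9) (node (nat_lit 5) (nat_lit 111831) (nat_lit 10) nil nil) (node (nat_lit 0) (nat_lit
  112506) (nat_lit 9) (node (nat_lit 5) (nat_lit 115919) (nat_lit 10) nil (node (nat_lit 6)
  (nat_lit 112811) (nat_lit 10) nil nil)) (node (nat_lit 2) (nat_lit 112434) (nat_lit 9) (node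
  (nat_lit 5) (nat_lit 115846) (nat_lit 10) nil (node (nat_lit 6) (nat_lit 115868) (nat_lit 10)
  nil nil)) nil))) nil))) nil)))) (node (nat_lit 0) (nat_lit 0) (nat_lit 6) (node (nat_lit 5)
  (nat_lit 113329) (nat_lit 7) (node (nat_lit 4) (nat_lit 117166) (nat_lit 8) (node (nat_lit 5)
  (nat_lit 117166) (nat_lit 9) (node (nat_lit 6) (nat_lit 116089) (nat_lit 10) (node (nat_lit 5)
  (nat_lit 115802) (nat_lit 11) (node (nat_lit 4) (nat_lit 115773) (nat_lit 12) nil nil) nil) nil)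
  nil) (node (nat_lit 6) (nat_lit 113234) (nat_lit 8) (node (nat_lit 4) (nat_lit 114931) (nat_lit
  9) (node (nat_lit 5) (nat_lit 108033) (nat_lit 10) nil nil) nil) nil)) (node (nat_lit 6)
  (nat_lit 113498) (nat_lit 7) (node (nat_lit 5) (nat_lit 116369) (nat_lit 8) (node (nat_lit 4)
  (nat_lit 112193) (nat_lit 9) (node (nat_lit 5) (nat_lit 107449) (nat_lit 10) (node (nat_lit 6)
  (nat_lit 100126) (nat_lit 11) (node (nat_lit 5) (nat_lit 89438) (nat_lit 12) nil nil) nil) nil)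
  nil) (node (nat_lit 4) (nat_lit 118183) (nat_lit 8) (node (nat_lit 5) (nat_lit 119365) (nat_lit
  9) (node (nat_lit 6) (nat_lit 118538) (nat_lit 10) (node (nat_lit 5) (nat_lit 118250) (nat_lit
  11) (node (nat_lit 4) (nat_lit 118222) (nat_lit 12) nil nil) nil) nil) nil) nil)) (node (nat_lit
  4) (nat_lit 113381) (nat_lit 7) (node (nat_lit 6) (nat_lit 114543) (nat_lit 8) nil nil) (node
  (nat_lit 0) (nat_lit 113329) (nat_lit 7) (node (nat_lit 6) (nat_lit 114491) (nat_lit 8) (node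
  (nat_lit 4) (nat_lit 116208) (nat_lit 9) nil nil) (node (nat_lit 5) (nat_lit 118643) (nat_lit 8)
  (node (nat_lit 4) (nat_lit 119524) (nat_lit 9) nil nil) nil)) (node (nat_lit 2) (nat_lit 113329)
  (nat_lit 7) (node (nat_lit 5) (nat_lit 115347) (nat_lit 8) (node (nat_lit 4) (nat_lit 111123)
  (nat_lit 9) nil nil) (node (nat_lit 6) (nat_lit 115468) (nat_lit 8) (node (nat_lit 4) (nat_lit
  109966) (nat_lit 9) (node (nat_lit 5) (nat_lit 105222) (nat_lit 10) nil nil) (node (nat_lit 5)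
  (nat_lit 112714) (nat_lit 9) nil nil)) (node (nat_lit 4) (nat_lit 118014) (nat_lit 8) (node
  (nat_lit 6) (nat_lit 116982) (nat_lit 9) nil nil) nil))) nil))))) (node (nat_lit 2) (nat_lit 0)
  (nat_lit 6) (node (nat_lit 5) (nat_lit 110954) (nat_lit 7) (node (nat_lit 4) (nat_lit 114288)
  (nat_lit 8) (node (nat_lit 5) (nat_lit 112428) (nat_lit 9) (node (nat_lit 6) (nat_lit 104210)
  (nat_lit 10) (node (nat_lit 5) (nat_lit 67977) (nat_lit 11) (node (nat_lit 4) (nat_lit 59600)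
  (nat_lit 12) nil nil) nil) nil) nil) (node (nat_lit 9) (nat_lit 112039) (nat_lit 8) nil (node
  (nat_lit 6) (nat_lit 113167) (nat_lit 8) (node (nat_lit 4) (nat_lit 112770) (nat_lit 9) (node
  (nat_lit 5) (nat_lit 109339) (nat_lit 10) (node (nat_lit 6) (nat_lit 98909) (nat_lit 11) (node
  (nat_lit 5) (nat_lit 88074) (nat_lit 12) (node (nat_lit 4) (nat_lit 71795) (nat_lit 13) nil nil)
  nil) nil) nil) nil) nil))) (node (nat_lit 6) (nat_lit 113417) (nat_lit 7) (node (nat_lit 5)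
  (nat_lit 113368) (nat_lit 8) (node (nat_lit 4) (nat_lit 113161) (nat_lit 9) (node (nat_lit 5)
  (nat_lit 108418) (nat_lit 10) (node (nat_lit 6) (nat_lit 101094) (nat_lit 11) (node (nat_lit 5)
  (nat_lit 84139) (nat_lit 12) (node (nat_lit 4) (nat_lit 60004) (nat_lit 13) nil nil) nil) nil)
  nil) nil) (node (nat_lit 4) (nat_lit 114004) (nat_lit 8) (node (nat_lit 5) (nat_lit 96221)
  (nat_lit 9) (node (nat_lit 6) (nat_lit 83750) (nat_lit 10) (node (nat_lit 5) (nat_lit 61610)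
  (nat_lit 11) (node (nat_lit 4) (nat_lit 55501) (nat_lit 12) nil nil) nil) nil) nil) nil)) (node
  (nat_lit 4) (nat_lit 111087) (nat_lit 7) (node (nat_lit 6) (nat_lit 117040) (nat_lit 8) nil
  (node (nat_lit 5) (nat_lit 115772) (nat_lit 8) nil nil)) (node (nat_lit 0) (nat_lit 113253)
  (nat_lit 7) (node (nat_lit 5) (nat_lit 117882) (nat_lit 8) (node (nat_lit 4) (nat_lit 118692)
  (nat_lit 9) (node (nat_lit 5) (nat_lit 118692) (nat_lit 10) nil nil) (node (nat_lit 6) (nat_lit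
  112469) (nat_lit 9) nil nil)) (node (nat_lit 6) (nat_lit 117882) (nat_lit 8) (node (nat_lit 4)
  (nat_lit 118692) (nat_lit 9) (node (nat_lit 5) (nat_lit 118692) (nat_lit 10) nil nil) (node
  (nat_lit 5) (nat_lit 111840) (nat_lit 9) nil nil)) (node (nat_lit 4) (nat_lit 117938) (nat_lit
  8) (node (nat_lit 6) (nat_lit 116906) (nat_lit 9) nil nil) nil))) nil)))) nil)))) nil) nil))
  (node (nat_lit 4) (nat_lit 0) (nat_lit 3) (node (nat_lit 3) (nat_lit 0) (nat_lit 4) (node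
  (nat_lit 5) (nat_lit 0) (nat_lit 5) t196 (node (nat_lit 4) (nat_lit 0) (nat_lit 5) (node
  (nat_lit 5) (nat_lit 0) (nat_lit 6) (node (nat_lit 0) (nat_lit 0) (nat_lit 7) (node (nat_lit 7)
  (nat_lit 68654) (nat_lit 8) (node (nat_lit 4) (nat_lit 69208) (nat_lit 9) (node (nat_lit 5)
  (nat_lit 69208) (nat_lit 10) (node (nat_lit 4) (nat_lit 69316) (nat_lit 11) (node (nat_lit 7)
  (nat_lit 69316) (nat_lit 12) nil nil) nil) nil) nil) (node (nat_lit 4) (nat_lit 69026) (nat_lit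
  8) nil (node (nat_lit 0) (nat_lit 69026) (nat_lit 8) (node (nat_lit 7) (nat_lit 69026) (nat_lit
  9) nil nil) (node (nat_lit 2) (nat_lit 66657) (nat_lit 8) (node (nat_lit 7) (nat_lit 67044)
  (nat_lit 9) nil nil) (node (nat_lit 5) (nat_lit 68654) (nat_lit 8) (node (nat_lit 7) (nat_lit
  67044) (nat_lit 9) (node (nat_lit 4) (nat_lit 65541) (nat_lit 10) (node (nat_lit 5) (nat_lit
  63642) (nat_lit 11) nil nil) nil) nil) nil))))) (node (nat_lit 2) (nat_lit 0) (nat_lit 7) (node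
  (nat_lit 7) (nat_lit 64956) (nat_lit 8) (node (nat_lit 10) (nat_lit 64956) (nat_lit 9) (node
  (nat_lit 4) (nat_lit 66722) (nat_lit 10) (node (nat_lit 7) (nat_lit 66722) (nat_lit 11) nil nil)
  nil) (node (nat_lit 5) (nat_lit 64956) (nat_lit 9) (node (nat_lit 7) (nat_lit 64956) (nat_lit
  10) (node (nat_lit 4) (nat_lit 66411) (nat_lit 11) (node (nat_lit 5) (nat_lit 65648) (nat_lit
  12) (node (nat_lit 4) (nat_lit 62040) (nat_lit 13) (node (nat_lit 7) (nat_lit 57524) (nat_lit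
  14) nil nil) nil) nil) nil) nil) (node (nat_lit 4) (nat_lit 66639) (nat_lit 9) (node (nat_lit 5)
  (nat_lit 63080) (nat_lit 10) (node (nat_lit 4) (nat_lit 46806) (nat_lit 11) (node (nat_lit 7)
  (nat_lit 38573) (nat_lit 12) nil nil) nil) nil) nil))) (node (nat_lit 4) (nat_lit 67119)
  (nat_lit 8) (node (nat_lit 10) (nat_lit 67119) (nat_lit 9) nil (node (nat_lit 7) (nat_lit 67119)
  (nat_lit 9) (node (nat_lit 4) (nat_lit 67442) (nat_lit 10) (node (nat_lit 5) (nat_lit 67442)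
  (nat_lit 11) nil nil) nil) nil)) (node (nat_lit 0) (nat_lit 67119) (nat_lit 8) nil (node
  (nat_lit 5) (nat_lit 64956) (nat_lit 8) (node (nat_lit 7) (nat_lit 64956) (nat_lit 9) (node
  (nat_lit 4) (nat_lit 65541) (nat_lit 10) (node (nat_lit 5) (nat_lit 63044) (nat_lit 11) (node
  (nat_lit 4) (nat_lit 58042) (nat_lit 12) (node (nat_lit 7) (nat_lit 51280) (nat_lit 13) nil nil)
  nil) nil) nil) nil) nil)))) (node (nat_lit 7) (nat_lit 0) (nat_lit 7) (node (nat_lit 0) (nat_lit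
  67798) (nat_lit 8) (node (nat_lit 7) (nat_lit 67798) (nat_lit 9) (node (nat_lit 4) (nat_lit
  68121) (nat_lit 10) nil nil) nil) (node (nat_lit 2) (nat_lit 64771) (nat_lit 8) (node (nat_lit
  7) (nat_lit 64771) (nat_lit 9) (node (nat_lit 4) (nat_lit 66104) (nat_lit 10) (node (nat_lit 5)
  (nat_lit 64600) (nat_lit 11) (node (nat_lit 4) (nat_lit 52157) (nat_lit 12) nil nil) nil) nil)
  (node (nat_lit 5) (nat_lit 64771) (nat_lit 9) nil nil)) (node (nat_lit 4) (nat_lit 0) (nat_lit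
  8) (node (nat_lit 0) (nat_lit 67982) (nat_lit 9) (node (nat_lit 7) (nat_lit 68093) (nat_lit 10)
  (node (nat_lit 4) (nat_lit 68632) (nat_lit 11) (node (nat_lit 5) (nat_lit 68632) (nat_lit 12)
  nil nil) nil) nil) (node (nat_lit 2) (nat_lit 66577) (nat_lit 9) nil (node (nat_lit 7) (nat_lit
  0) (nat_lit 9) (node (nat_lit 2) (nat_lit 66754) (nat_lit 10) nil (node (nat_lit 0) (nat_lit
  68396) (nat_lit 10) nil nil)) nil))) (node (nat_lit 5) (nat_lit 63146) (nat_lit 8) (node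
  (nat_lit 0) (nat_lit 67084) (nat_lit 9) nil (node (nat_lit 2) (nat_lit 63146) (nat_lit 9) (node
  (nat_lit 7) (nat_lit 63146) (nat_lit 10) nil nil) nil)) nil)))) nil))) (node (nat_lit 0)
  (nat_lit 0) (nat_lit 6) (node (nat_lit 5) (nat_lit 68073) (nat_lit 7) (node (nat_lit 7) (nat_lit
  68073) (nat_lit 8) (node (nat_lit 4) (nat_lit 68025) (nat_lit 9) (node (nat_lit 5) (nat_lit
  65773) (nat_lit 10) (node (nat_lit 4) (nat_lit 51215) (nat_lit 11) (node (nat_lit 7) (nat_lit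
  41204) (nat_lit 12) nil nil) nil) nil) nil) (node (nat_lit 9) (nat_lit 68679) (nat_lit 8) (node
  (nat_lit 7) (nat_lit 68679) (nat_lit 9) (node (nat_lit 4) (nat_lit 69002) (nat_lit 10) (node
  (nat_lit 5) (nat_lit 69002) (nat_lit 11) (node (nat_lit 4) (nat_lit 69199) (nat_lit 12) nil nil)
  nil) nil) nil) (node (nat_lit 4) (nat_lit 68679) (nat_lit 8) (node (nat_lit 7) (nat_lit 68679)
  (nat_lit 9) nil nil) nil))) (node (nat_lit 7) (nat_lit 68073) (nat_lit 7) (node (nat_lit 4)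
  (nat_lit 68679) (nat_lit 8) (node (nat_lit 5) (nat_lit 68679) (nat_lit 9) (node (nat_lit 4)
  (nat_lit 69002) (nat_lit 10) (node (nat_lit 7) (nat_lit 69002) (nat_lit 11) nil nil) nil) nil)
  nil) (node (nat_lit 4) (nat_lit 68267) (nat_lit 7) (node (nat_lit 7) (nat_lit 68438) (nat_lit 8)
  (node (nat_lit 4) (nat_lit 68860) (nat_lit 9) (node (nat_lit 5) (nat_lit 68860) (nat_lit 10) nil
  nil) nil) (node (nat_lit 5) (nat_lit 66657) (nat_lit 8) (node (nat_lit 7) (nat_lit 67044)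
  (nat_lit 9) (node (nat_lit 4) (nat_lit 65541) (nat_lit 10) nil nil) nil) nil)) (node (nat_lit 0)
  (nat_lit 68267) (nat_lit 7) (node (nat_lit 7) (nat_lit 68438) (nat_lit 8) (node (nat_lit 4)
  (nat_lit 68860) (nat_lit 9) (node (nat_lit 5) (nat_lit 68860) (nat_lit 10) nil nil) nil) nil)
  (node (nat_lit 2) (nat_lit 68073) (nat_lit 7) (node (nat_lit 5) (nat_lit 66657) (nat_lit 8)
  (node (nat_lit 7) (nat_lit 67044) (nat_lit 9) nil (node (nat_lit 4) (nat_lit 67619) (nat_lit 9)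
  nil nil)) (node (nat_lit 4) (nat_lit 68679) (nat_lit 8) (node (nat_lit 7) (nat_lit 68679)
  (nat_lit 9) nil nil) (node (nat_lit 7) (nat_lit 64468) (nat_lit 8) (node (nat_lit 4) (nat_lit
  62025) (nat_lit 9) (node (nat_lit 5) (nat_lit 59123) (nat_lit 10) nil nil) nil) nil))) nil)))))
  (node (nat_lit 2) (nat_lit 0) (nat_lit 6) (node (nat_lit 5) (nat_lit 65485) (nat_lit 7) (node
  (nat_lit 7) (nat_lit 65485) (nat_lit 8) (node (nat_lit 4) (nat_lit 66655) (nat_lit 9) (node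
  (nat_lit 5) (nat_lit 61385) (nat_lit 10) (node (nat_lit 4) (nat_lit 41981) (nat_lit 11) (node
  (nat_lit 7) (nat_lit 31564) (nat_lit 12) nil nil) nil) nil) (node (nat_lit 9) (nat_lit 65485)
  (nat_lit 9) nil nil)) (node (nat_lit 9) (nat_lit 65485) (nat_lit 8) (node (nat_lit 7) (nat_lit
  65485) (nat_lit 9) (node (nat_lit 4) (nat_lit 65541) (nat_lit 10) (node (nat_lit 5) (nat_lit
  63642) (nat_lit 11) (node (nat_lit 4) (nat_lit 58230) (nat_lit 12) nil nil) nil) nil) (node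
  (nat_lit 4) (nat_lit 67168) (nat_lit 9) (node (nat_lit 7) (nat_lit 67168) (nat_lit 10) nil nil)
  nil)) (node (nat_lit 4) (nat_lit 67617) (nat_lit 8) (node (nat_lit 7) (nat_lit 67617) (nat_lit
  9) nil nil) nil))) (node (nat_lit 7) (nat_lit 65933) (nat_lit 7) (node (nat_lit 4) (nat_lit
  67617) (nat_lit 8) (node (nat_lit 5) (nat_lit 57621) (nat_lit 9) (node (nat_lit 4) (nat_lit
  39890) (nat_lit 10) (node (nat_lit 7) (nat_lit 25226) (nat_lit 11) nil nil) (node (nat_lit 7)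
  (nat_lit 58227) (nat_lit 10) nil nil)) nil) (node (nat_lit 9) (nat_lit 65933) (nat_lit 8) (node
  (nat_lit 5) (nat_lit 65933) (nat_lit 9) nil (node (nat_lit 4) (nat_lit 67798) (nat_lit 9) (node
  (nat_lit 7) (nat_lit 67798) (nat_lit 10) nil nil) nil)) (node (nat_lit 5) (nat_lit 65933)
  (nat_lit 8) (node (nat_lit 7) (nat_lit 64395) (nat_lit 9) nil nil) nil))) (node (nat_lit 4)
  (nat_lit 68267) (nat_lit 7) (node (nat_lit 7) (nat_lit 68272) (nat_lit 8) (node (nat_lit 4)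
  (nat_lit 68694) (nat_lit 9) (node (nat_lit 5) (nat_lit 68694) (nat_lit 10) (node (nat_lit 4)
  (nat_lit 68946) (nat_lit 11) (node (nat_lit 7) (nat_lit 68946) (nat_lit 12) nil nil) nil) nil)
  nil) (node (nat_lit 5) (nat_lit 66657) (nat_lit 8) (node (nat_lit 7) (nat_lit 67044) (nat_lit 9)
  (node (nat_lit 4) (nat_lit 65541) (nat_lit 10) nil nil) nil) nil)) (node (nat_lit 0) (nat_lit
  68267) (nat_lit 7) (node (nat_lit 5) (nat_lit 66657) (nat_lit 8) (node (nat_lit 7) (nat_lit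
  67044) (nat_lit 9) nil nil) (node (nat_lit 4) (nat_lit 68513) (nat_lit 8) (node (nat_lit 7)
  (nat_lit 68513) (nat_lit 9) nil nil) (node (nat_lit 7) (nat_lit 68272) (nat_lit 8) (node
  (nat_lit 4) (nat_lit 68694) (nat_lit 9) (node (nat_lit 5) (nat_lit 68694) (nat_lit 10) nil nil)
  nil) nil))) nil)))) nil))) nil)) nil) nil))

noncomputable def c50 : Tr :=
  (node (nat_lit 3) (nat_lit 0) (nat_lit 1) (node (nat_lit 1) (nat_lit 0) (nat_lit 2) (node
  (nat_lit 3) (nat_lit 0) (nat_lit 3) (node (nat_lit 4) (nat_lit 0) (nat_lit 4) (node (nat_lit 5)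
  (nat_lit 0) (nat_lit 5) (node (nat_lit 4) (nat_lit 0) (nat_lit 6) (node (nat_lit 0) (nat_lit
  59791) (nat_lit 7) (node (nat_lit 6) (nat_lit 58413) (nat_lit 8) (node (nat_lit 5) (nat_lit
  57511) (nat_lit 9) (node (nat_lit 4) (nat_lit 56273) (nat_lit 10) (node (nat_lit 5) (nat_lit
  53926) (nat_lit 11) (node (nat_lit 6) (nat_lit 49391) (nat_lit 12) (node (nat_lit 4) (nat_lit
  41295) (nat_lit 13) nil nil) nil) nil) nil) nil) (node (nat_lit 5) (nat_lit 61935) (nat_lit 8)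
  (node (nat_lit 4) (nat_lit 62647) (nat_lit 9) (node (nat_lit 5) (nat_lit 63176) (nat_lit 10)
  (node (nat_lit 6) (nat_lit 61835) (nat_lit 11) (node (nat_lit 4) (nat_lit 62256) (nat_lit 12)
  nil nil) nil) nil) nil) nil)) (node (nat_lit 6) (nat_lit 0) (nat_lit 7) (node (nat_lit 0)
  (nat_lit 61984) (nat_lit 8) nil (node (nat_lit 2) (nat_lit 60391) (nat_lit 8) (node (nat_lit 6)
  (nat_lit 58353) (nat_lit 9) nil (node (nat_lit 4) (nat_lit 61103) (nat_lit 9) nil nil)) (node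
  (nat_lit 5) (nat_lit 56707) (nat_lit 8) nil (node (nat_lit 4) (nat_lit 0) (nat_lit 8) (node
  (nat_lit 0) (nat_lit 60826) (nat_lit 9) nil (node (nat_lit 2) (nat_lit 57910) (nat_lit 9) nil
  nil)) nil)))) (node (nat_lit 2) (nat_lit 0) (nat_lit 7) (node (nat_lit 6) (nat_lit 60577)
  (nat_lit 8) (node (nat_lit 5) (nat_lit 56152) (nat_lit 9) (node (nat_lit 4) (nat_lit 54915)
  (nat_lit 10) (node (nat_lit 5) (nat_lit 52568) (nat_lit 11) (node (nat_lit 6) (nat_lit 48033)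
  (nat_lit 12) (node (nat_lit 4) (nat_lit 39936) (nat_lit 13) nil nil) nil) nil) nil) (node
  (nat_lit 4) (nat_lit 61289) (nat_lit 9) nil nil)) (node (nat_lit 5) (nat_lit 60576) (nat_lit 8)
  (node (nat_lit 4) (nat_lit 62019) (nat_lit 9) (node (nat_lit 5) (nat_lit 60215) (nat_lit 10)
  (node (nat_lit 6) (nat_lit 55095) (nat_lit 11) (node (nat_lit 4) (nat_lit 45413) (nat_lit 12)
  nil nil) nil) nil) nil) (node (nat_lit 0) (nat_lit 60691) (nat_lit 8) nil (node (nat_lit 4)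
  (nat_lit 62368) (nat_lit 8) nil nil)))) nil))) (node (nat_lit 0) (nat_lit 56241) (nat_lit 6)
  (node (nat_lit 4) (nat_lit 59857) (nat_lit 7) nil (node (nat_lit 6) (nat_lit 58705) (nat_lit 7)
  nil (node (nat_lit 5) (nat_lit 58739) (nat_lit 7) (node (nat_lit 4) (nat_lit 60883) (nat_lit 8)
  (node (nat_lit 5) (nat_lit 61595) (nat_lit 9) (node (nat_lit 6) (nat_lit 59909) (nat_lit 10)
  (node (nat_lit 4) (nat_lit 60375) (nat_lit 11) nil nil) nil) nil) nil) nil))) (node (nat_lit 2)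
  (nat_lit 0) (nat_lit 6) (node (nat_lit 4) (nat_lit 59312) (nat_lit 7) (node (nat_lit 6) (nat_lit
  60542) (nat_lit 8) (node (nat_lit 5) (nat_lit 57249) (nat_lit 9) (node (nat_lit 4) (nat_lit
  55793) (nat_lit 10) (node (nat_lit 5) (nat_lit 52852) (nat_lit 11) nil nil) nil) nil) nil) (node
  (nat_lit 6) (nat_lit 54326) (nat_lit 7) (node (nat_lit 4) (nat_lit 56470) (nat_lit 8) nil (node
  (nat_lit 5) (nat_lit 56532) (nat_lit 8) (node (nat_lit 4) (nat_lit 57489) (nat_lit 9) (node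
  (nat_lit 5) (nat_lit 53023) (nat_lit 10) (node (nat_lit 6) (nat_lit 45149) (nat_lit 11) (node
  (nat_lit 4) (nat_lit 30322) (nat_lit 12) nil nil) nil) nil) nil) nil)) (node (nat_lit 5)
  (nat_lit 54830) (nat_lit 7) (node (nat_lit 4) (nat_lit 57791) (nat_lit 8) (node (nat_lit 5)
  (nat_lit 41093) (nat_lit 9) (node (nat_lit 6) (nat_lit 33238) (nat_lit 10) (node (nat_lit 4)
  (nat_lit 21051) (nat_lit 11) nil nil) nil) nil) nil) (node (nat_lit 0) (nat_lit 58348) (nat_lit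
  7) (node (nat_lit 5) (nat_lit 60492) (nat_lit 8) (node (nat_lit 4) (nat_lit 61204) (nat_lit 9)
  nil nil) nil) nil)))) nil))) (node (nat_lit 6) (nat_lit 0) (nat_lit 5) (node (nat_lit 5)
  (nat_lit 0) (nat_lit 6) (node (nat_lit 0) (nat_lit 0) (nat_lit 7) (node (nat_lit 4) (nat_lit
  127126) (nat_lit 8) nil (node (nat_lit 6) (nat_lit 127126) (nat_lit 8) (node (nat_lit 4)
  (nat_lit 128235) (nat_lit 9) (node (nat_lit 5) (nat_lit 128764) (nat_lit 10) (node (nat_lit 6)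
  (nat_lit 127422) (nat_lit 11) nil nil) nil) nil) (node (nat_lit 0) (nat_lit 127126) (nat_lit 8)
  nil (node (nat_lit 2) (nat_lit 127265) (nat_lit 8) (node (nat_lit 6) (nat_lit 128235) (nat_lit
  9) (node (nat_lit 4) (nat_lit 123329) (nat_lit 10) nil (node (nat_lit 5) (nat_lit 124736)
  (nat_lit 10) nil nil)) (node (nat_lit 5) (nat_lit 128235) (nat_lit 9) (node (nat_lit 4) (nat_lit
  121010) (nat_lit 10) nil nil) nil)) (node (nat_lit 5) (nat_lit 127126) (nat_lit 8) (node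
  (nat_lit 4) (nat_lit 125965) (nat_lit 9) (node (nat_lit 5) (nat_lit 127117) (nat_lit 10) (node
  (nat_lit 6) (nat_lit 126326) (nat_lit 11) (node (nat_lit 4) (nat_lit 127246) (nat_lit 12) nil
  nil) nil) nil) nil) nil))))) (node (nat_lit 2) (nat_lit 0) (nat_lit 7) (node (nat_lit 4)
  (nat_lit 124997) (nat_lit 8) (node (nat_lit 10) (nat_lit 122959) (nat_lit 9) nil (node (nat_lit
  6) (nat_lit 123475) (nat_lit 9) (node (nat_lit 4) (nat_lit 122958) (nat_lit 10) (node (nat_lit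
  5) (nat_lit 121543) (nat_lit 11) (node (nat_lit 6) (nat_lit 115119) (nat_lit 12) nil nil) nil)
  nil) nil)) (node (nat_lit 6) (nat_lit 123537) (nat_lit 8) (node (nat_lit 10) (nat_lit 125295)
  (nat_lit 9) nil (node (nat_lit 4) (nat_lit 124249) (nat_lit 9) (node (nat_lit 5) (nat_lit
  119982) (nat_lit 10) (node (nat_lit 6) (nat_lit 115825) (nat_lit 11) (node (nat_lit 4) (nat_lit
  90487) (nat_lit 12) (node (nat_lit 6) (nat_lit 61132) (nat_lit 13) (node (nat_lit 5) (nat_lit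
  55969) (nat_lit 14) nil nil) nil) nil) nil) nil) (node (nat_lit 5) (nat_lit 124149) (nat_lit 9)
  (node (nat_lit 4) (nat_lit 121412) (nat_lit 10) (node (nat_lit 5) (nat_lit 119998) (nat_lit 11)
  (node (nat_lit 6) (nat_lit 113573) (nat_lit 12) nil nil) nil) nil) nil))) (node (nat_lit 0)
  (nat_lit 124997) (nat_lit 8) (node (nat_lit 10) (nat_lit 122959) (nat_lit 9) nil (node (nat_lit
  6) (nat_lit 122959) (nat_lit 9) (node (nat_lit 4) (nat_lit 123488) (nat_lit 10) nil nil) (node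
  (nat_lit 5) (nat_lit 125708) (nat_lit 9) (node (nat_lit 4) (nat_lit 126237) (nat_lit 10) nil
  nil) nil))) (node (nat_lit 5) (nat_lit 122500) (nat_lit 8) (node (nat_lit 4) (nat_lit 123666)
  (nat_lit 9) (node (nat_lit 5) (nat_lit 123043) (nat_lit 10) (node (nat_lit 6) (nat_lit 115802)
  (nat_lit 11) (node (nat_lit 4) (nat_lit 100587) (nat_lit 12) (node (nat_lit 6) (nat_lit 66981)
  (nat_lit 13) nil nil) nil) nil) nil) nil) nil)))) (node (nat_lit 4) (nat_lit 0) (nat_lit 7)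
  (node (nat_lit 0) (nat_lit 126547) (nat_lit 8) nil (node (nat_lit 2) (nat_lit 124239) (nat_lit
  8) (node (nat_lit 4) (nat_lit 124184) (nat_lit 9) nil (node (nat_lit 5) (nat_lit 125448)
  (nat_lit 9) (node (nat_lit 4) (nat_lit 119696) (nat_lit 10) (node (nat_lit 5) (nat_lit 118389)
  (nat_lit 11) nil nil) nil) (node (nat_lit 6) (nat_lit 124381) (nat_lit 9) (node (nat_lit 4)
  (nat_lit 120767) (nat_lit 10) (node (nat_lit 5) (nat_lit 119747) (nat_lit 11) nil nil) nil)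
  nil))) (node (nat_lit 6) (nat_lit 0) (nat_lit 8) (node (nat_lit 0) (nat_lit 124353) (nat_lit 9)
  nil (node (nat_lit 2) (nat_lit 122992) (nat_lit 9) (node (nat_lit 4) (nat_lit 122862) (nat_lit
  10) (node (nat_lit 6) (nat_lit 122983) (nat_lit 11) nil nil) (node (nat_lit 6) (nat_lit 119268)
  (nat_lit 10) (node (nat_lit 4) (nat_lit 120071) (nat_lit 11) nil nil) (node (nat_lit 5) (nat_lit
  121648) (nat_lit 10) nil nil))) (node (nat_lit 4) (nat_lit 124493) (nat_lit 9) nil nil))) (node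
  (nat_lit 5) (nat_lit 0) (nat_lit 8) (node (nat_lit 0) (nat_lit 119331) (nat_lit 9) (node
  (nat_lit 5) (nat_lit 121037) (nat_lit 10) (node (nat_lit 4) (nat_lit 121853) (nat_lit 11) nil
  nil) (node (nat_lit 6) (nat_lit 118657) (nat_lit 10) nil nil)) (node (nat_lit 2) (nat_lit
  119331) (nat_lit 9) (node (nat_lit 4) (nat_lit 119201) (nat_lit 10) nil (node (nat_lit 5)
  (nat_lit 121037) (nat_lit 10) (node (nat_lit 4) (nat_lit 121605) (nat_lit 11) nil nil) (node
  (nat_lit 6) (nat_lit 119425) (nat_lit 10) (node (nat_lit 5) (nat_lit 118961) (nat_lit 11) nil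
  nil) nil))) (node (nat_lit 6) (nat_lit 0) (nat_lit 9) (node (nat_lit 5) (nat_lit 112317)
  (nat_lit 10) (node (nat_lit 4) (nat_lit 113307) (nat_lit 11) nil nil) (node (nat_lit 4) (nat_lit
  66981) (nat_lit 10) nil (node (nat_lit 0) (nat_lit 112317) (nat_lit 10) nil (node (nat_lit 2)
  (nat_lit 109589) (nat_lit 10) nil nil)))) nil))) nil)))) (node (nat_lit 6) (nat_lit 109141)
  (nat_lit 7) nil nil)))) (node (nat_lit 0) (nat_lit 0) (nat_lit 6) (node (nat_lit 5) (nat_lit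
  124993) (nat_lit 7) (node (nat_lit 4) (nat_lit 126189) (nat_lit 8) (node (nat_lit 5) (nat_lit
  126624) (nat_lit 9) (node (nat_lit 6) (nat_lit 126163) (nat_lit 10) nil nil) nil) nil) (node
  (nat_lit 4) (nat_lit 125175) (nat_lit 7) (node (nat_lit 6) (nat_lit 119434) (nat_lit 8) nil nil)
  (node (nat_lit 6) (nat_lit 124993) (nat_lit 7) (node (nat_lit 4) (nat_lit 125861) (nat_lit 8)
  (node (nat_lit 5) (nat_lit 126624) (nat_lit 9) (node (nat_lit 6) (nat_lit 126163) (nat_lit 10)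
  (node (nat_lit 4) (nat_lit 126624) (nat_lit 11) (node (nat_lit 6) (nat_lit 125602) (nat_lit 12)
  nil nil) nil) nil) nil) nil) (node (nat_lit 0) (nat_lit 124993) (nat_lit 7) nil (node (nat_lit
  2) (nat_lit 121733) (nat_lit 7) (node (nat_lit 5) (nat_lit 120234) (nat_lit 8) nil (node
  (nat_lit 6) (nat_lit 120354) (nat_lit 8) (node (nat_lit 4) (nat_lit 116004) (nat_lit 9) nil nil)
  (node (nat_lit 4) (nat_lit 123498) (nat_lit 8) nil nil))) nil))))) (node (nat_lit 2) (nat_lit 0)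
  (nat_lit 6) (node (nat_lit 5) (nat_lit 119743) (nat_lit 7) (node (nat_lit 4) (nat_lit 121049)
  (nat_lit 8) (node (nat_lit 6) (nat_lit 119302) (nat_lit 9) nil (node (nat_lit 5) (nat_lit
  112099) (nat_lit 9) (node (nat_lit 6) (nat_lit 101562) (nat_lit 10) (node (nat_lit 4) (nat_lit
  66981) (nat_lit 11) (node (nat_lit 6) (nat_lit 54189) (nat_lit 12) nil nil) nil) nil) nil)) nil)
  (node (nat_lit 4) (nat_lit 112396) (nat_lit 7) (node (nat_lit 6) (nat_lit 112396) (nat_lit 8)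
  (node (nat_lit 5) (nat_lit 118451) (nat_lit 9) nil (node (nat_lit 4) (nat_lit 112396) (nat_lit
  9) (node (nat_lit 5) (nat_lit 112085) (nat_lit 10) (node (nat_lit 6) (nat_lit 106812) (nat_lit
  11) nil nil) nil) nil)) (node (nat_lit 9) (nat_lit 112396) (nat_lit 8) (node (nat_lit 6)
  (nat_lit 112396) (nat_lit 9) (node (nat_lit 4) (nat_lit 113840) (nat_lit 10) nil nil) nil) (node
  (nat_lit 5) (nat_lit 118104) (nat_lit 8) nil nil))) (node (nat_lit 6) (nat_lit 112396) (nat_lit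
  7) (node (nat_lit 4) (nat_lit 112396) (nat_lit 8) (node (nat_lit 5) (nat_lit 104413) (nat_lit 9)
  (node (nat_lit 6) (nat_lit 93989) (nat_lit 10) (node (nat_lit 4) (nat_lit 85461) (nat_lit 11)
  (node (nat_lit 6) (nat_lit 58774) (nat_lit 12) nil nil) nil) nil) nil) (node (nat_lit 5)
  (nat_lit 118104) (nat_lit 8) (node (nat_lit 4) (nat_lit 116487) (nat_lit 9) (node (nat_lit 5)
  (nat_lit 111881) (nat_lit 10) (node (nat_lit 6) (nat_lit 103574) (nat_lit 11) (node (nat_lit 4)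
  (nat_lit 92834) (nat_lit 12) (node (nat_lit 6) (nat_lit 72042) (nat_lit 13) nil nil) nil) nil)
  nil) nil) nil)) (node (nat_lit 0) (nat_lit 117646) (nat_lit 7) (node (nat_lit 5) (nat_lit
  118104) (nat_lit 8) nil nil) nil)))) nil))) nil)) (node (nat_lit 5) (nat_lit 0) (nat_lit 4)
  (node (nat_lit 4) (nat_lit 0) (nat_lit 5) t189 nil) nil)) (node (nat_lit 4) (nat_lit 0) (nat_lit
  3) (node (nat_lit 3) (nat_lit 0) (nat_lit 4) t190 nil) nil)) (node (nat_lit 3) (nat_lit 0)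
  (nat_lit 2) t193 nil)) (node (nat_lit 1) (nat_lit 0) (nat_lit 1) (node (nat_lit 3) (nat_lit 0)
  (nat_lit 2) t197 nil) nil))

noncomputable def t198 : Tr :=
  (node (nat_lit 6) (nat_lit 0) (nat_lit 9) (node (nat_lit 4) (nat_lit 0) (nat_lit 10) (node
  (nat_lit 5) (nat_lit 0) (nat_lit 11) (node (nat_lit 4) (nat_lit 0) (nat_lit 12) (node (nat_lit
  6) (nat_lit 0) (nat_lit 13) (node (nat_lit 5) (nat_lit 0) (nat_lit 14) (node (nat_lit 4)
  (nat_lit 0) (nat_lit 15) (node (nat_lit 5) (nat_lit 0) (nat_lit 16) (node (nat_lit 6) (nat_lit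
  0) (nat_lit 17) (node (nat_lit 5) (nat_lit 37719) (nat_lit 18) (node (nat_lit 4) (nat_lit 38064)
  (nat_lit 19) (node (nat_lit 6) (nat_lit 38335) (nat_lit 20) (node (nat_lit 4) (nat_lit 38545)
  (nat_lit 21) (node (nat_lit 5) (nat_lit 38711) (nat_lit 22) (node (nat_lit 6) (nat_lit 38841)
  (nat_lit 23) (node (nat_lit 4) (nat_lit 38940) (nat_lit 24) (node (nat_lit 6) (nat_lit 39018)
  (nat_lit 25) (node (nat_lit 5) (nat_lit 39079) (nat_lit 26) (node (nat_lit 4) (nat_lit 34157)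
  (nat_lit 27) nil nil) nil) nil) nil) nil) nil) (node (nat_lit 5) (nat_lit 38545) (nat_lit 21)
  nil nil)) nil) nil) (node (nat_lit 4) (nat_lit 37719) (nat_lit 18) (node (nat_lit 6) (nat_lit
  38064) (nat_lit 19) (node (nat_lit 5) (nat_lit 38335) (nat_lit 20) (node (nat_lit 4) (nat_lit
  38161) (nat_lit 21) (node (nat_lit 6) (nat_lit 38221) (nat_lit 22) (node (nat_lit 4) (nat_lit
  38222) (nat_lit 23) (node (nat_lit 5) (nat_lit 38260) (nat_lit 24) nil nil) nil) (node (nat_lit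
  5) (nat_lit 38327) (nat_lit 22) nil nil)) nil) nil) nil) (node (nat_lit 0) (nat_lit 37719)
  (nat_lit 18) nil nil))) (node (nat_lit 0) (nat_lit 37275) (nat_lit 17) (node (nat_lit 4)
  (nat_lit 36915) (nat_lit 18) (node (nat_lit 5) (nat_lit 37261) (nat_lit 19) nil nil) (node
  (nat_lit 5) (nat_lit 37719) (nat_lit 18) nil (node (nat_lit 6) (nat_lit 37719) (nat_lit 18) nil
  nil))) nil)) (node (nat_lit 0) (nat_lit 36579) (nat_lit 16) (node (nat_lit 4) (nat_lit 37149)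
  (nat_lit 17) (node (nat_lit 6) (nat_lit 37592) (nat_lit 18) (node (nat_lit 5) (nat_lit 37938)
  (nat_lit 19) nil nil) (node (nat_lit 5) (nat_lit 37592) (nat_lit 18) nil nil)) (node (nat_lit 5)
  (nat_lit 37275) (nat_lit 17) (node (nat_lit 4) (nat_lit 37719) (nat_lit 18) nil nil) (node
  (nat_lit 6) (nat_lit 37149) (nat_lit 17) (node (nat_lit 5) (nat_lit 37592) (nat_lit 18) nil nil)
  nil))) nil)) (node (nat_lit 6) (nat_lit 0) (nat_lit 15) (node (nat_lit 4) (nat_lit 0) (nat_lit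
  16) (node (nat_lit 6) (nat_lit 37149) (nat_lit 17) (node (nat_lit 5) (nat_lit 37719) (nat_lit
  18) (node (nat_lit 4) (nat_lit 38064) (nat_lit 19) (node (nat_lit 5) (nat_lit 38335) (nat_lit
  20) (node (nat_lit 6) (nat_lit 38545) (nat_lit 21) (node (nat_lit 4) (nat_lit 38711) (nat_lit
  22) (node (nat_lit 6) (nat_lit 38841) (nat_lit 23) nil nil) (node (nat_lit 5) (nat_lit 38711)
  (nat_lit 22) (node (nat_lit 4) (nat_lit 38606) (nat_lit 23) nil nil) nil)) nil) (node (nat_lit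
  6) (nat_lit 37532) (nat_lit 20) nil nil)) nil) nil) (node (nat_lit 5) (nat_lit 37275) (nat_lit
  17) (node (nat_lit 6) (nat_lit 37719) (nat_lit 18) (node (nat_lit 5) (nat_lit 38064) (nat_lit
  19) (node (nat_lit 4) (nat_lit 37845) (nat_lit 20) (node (nat_lit 5) (nat_lit 38055) (nat_lit
  21) (node (nat_lit 6) (nat_lit 38221) (nat_lit 22) (node (nat_lit 4) (nat_lit 38350) (nat_lit
  23) (node (nat_lit 6) (nat_lit 38450) (nat_lit 24) (node (nat_lit 5) (nat_lit 38528) (nat_lit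
  25) (node (nat_lit 4) (nat_lit 38477) (nat_lit 26) nil nil) nil) nil) nil) nil) nil) nil) nil)
  nil) (node (nat_lit 0) (nat_lit 37149) (nat_lit 17) nil nil))) (node (nat_lit 0) (nat_lit 36579)
  (nat_lit 16) nil nil)) (node (nat_lit 0) (nat_lit 35850) (nat_lit 15) (node (nat_lit 6) (nat_lit
  36579) (nat_lit 16) (node (nat_lit 5) (nat_lit 37149) (nat_lit 17) nil (node (nat_lit 4)
  (nat_lit 37149) (nat_lit 17) nil nil)) (node (nat_lit 5) (nat_lit 36579) (nat_lit 16) (node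
  (nat_lit 4) (nat_lit 36120) (nat_lit 17) nil nil) (node (nat_lit 4) (nat_lit 36579) (nat_lit 16)
  (node (nat_lit 6) (nat_lit 35446) (nat_lit 17) nil (node (nat_lit 5) (nat_lit 37149) (nat_lit
  17) nil nil)) nil))) nil))) (node (nat_lit 4) (nat_lit 0) (nat_lit 14) (node (nat_lit 5)
  (nat_lit 35929) (nat_lit 15) (node (nat_lit 6) (nat_lit 36658) (nat_lit 16) (node (nat_lit 5)
  (nat_lit 37275) (nat_lit 17) (node (nat_lit 4) (nat_lit 37719) (nat_lit 18) (node (nat_lit 6)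
  (nat_lit 38064) (nat_lit 19) nil (node (nat_lit 5) (nat_lit 38064) (nat_lit 19) (node (nat_lit
  6) (nat_lit 38335) (nat_lit 20) (node (nat_lit 4) (nat_lit 38545) (nat_lit 21) (node (nat_lit 6)
  (nat_lit 38711) (nat_lit 22) (node (nat_lit 5) (nat_lit 38841) (nat_lit 23) (node (nat_lit 4)
  (nat_lit 38757) (nat_lit 24) (node (nat_lit 5) (nat_lit 38835) (nat_lit 25) (node (nat_lit 6)
  (nat_lit 38896) (nat_lit 26) nil nil) nil) nil) nil) nil) nil) nil) nil)) nil) (node (nat_lit 4)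
  (nat_lit 37228) (nat_lit 17) (node (nat_lit 6) (nat_lit 37672) (nat_lit 18) (node (nat_lit 5)
  (nat_lit 38064) (nat_lit 19) (node (nat_lit 4) (nat_lit 38335) (nat_lit 20) nil nil) nil) nil)
  nil)) nil) (node (nat_lit 0) (nat_lit 35445) (nat_lit 15) nil nil)) (node (nat_lit 0) (nat_lit
  34509) (nat_lit 14) (node (nat_lit 5) (nat_lit 35445) (nat_lit 15) (node (nat_lit 6) (nat_lit
  36174) (nat_lit 16) nil (node (nat_lit 4) (nat_lit 34854) (nat_lit 16) nil nil)) (node (nat_lit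
  4) (nat_lit 35445) (nat_lit 15) (node (nat_lit 6) (nat_lit 36174) (nat_lit 16) (node (nat_lit 4)
  (nat_lit 33882) (nat_lit 17) nil nil) (node (nat_lit 5) (nat_lit 36174) (nat_lit 16) nil nil))
  (node (nat_lit 6) (nat_lit 35445) (nat_lit 15) (node (nat_lit 5) (nat_lit 36174) (nat_lit 16)
  (node (nat_lit 4) (nat_lit 35715) (nat_lit 17) nil nil) (node (nat_lit 4) (nat_lit 36174)
  (nat_lit 16) nil nil)) nil))) nil))) (node (nat_lit 0) (nat_lit 33312) (nat_lit 13) nil nil))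
  (node (nat_lit 0) (nat_lit 31779) (nat_lit 12) (node (nat_lit 4) (nat_lit 33312) (nat_lit 13)
  nil (node (nat_lit 5) (nat_lit 33312) (nat_lit 13) nil (node (nat_lit 6) (nat_lit 33312)
  (nat_lit 13) nil nil))) nil)) (node (nat_lit 0) (nat_lit 28670) (nat_lit 11) (node (nat_lit 4)
  (nat_lit 30695) (nat_lit 12) (node (nat_lit 6) (nat_lit 32229) (nat_lit 13) (node (nat_lit 4)
  (nat_lit 27418) (nat_lit 14) nil (node (nat_lit 5) (nat_lit 33426) (nat_lit 14) nil nil)) (node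
  (nat_lit 5) (nat_lit 32229) (nat_lit 13) (node (nat_lit 4) (nat_lit 31216) (nat_lit 14) nil nil)
  nil)) (node (nat_lit 5) (nat_lit 31711) (nat_lit 12) (node (nat_lit 4) (nat_lit 33245) (nat_lit
  13) nil (node (nat_lit 6) (nat_lit 33245) (nat_lit 13) nil nil)) (node (nat_lit 6) (nat_lit
  30685) (nat_lit 12) (node (nat_lit 4) (nat_lit 32229) (nat_lit 13) nil (node (nat_lit 14)
  (nat_lit 32218) (nat_lit 13) nil (node (nat_lit 5) (nat_lit 32218) (nat_lit 13) nil nil))) (node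
  (nat_lit 0) (nat_lit 30637) (nat_lit 12) nil nil)))) (node (nat_lit 6) (nat_lit 0) (nat_lit 11)
  (node (nat_lit 0) (nat_lit 30695) (nat_lit 12) (node (nat_lit 4) (nat_lit 31673) (nat_lit 13)
  (node (nat_lit 6) (nat_lit 32934) (nat_lit 14) (node (nat_lit 4) (nat_lit 30560) (nat_lit 15)
  nil nil) nil) (node (nat_lit 6) (nat_lit 32229) (nat_lit 13) (node (nat_lit 5) (nat_lit 33426)
  (nat_lit 14) nil nil) (node (nat_lit 5) (nat_lit 32229) (nat_lit 13) nil nil))) nil) nil)))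
  (node (nat_lit 5) (nat_lit 0) (nat_lit 10) (node (nat_lit 4) (nat_lit 0) (nat_lit 11) (node
  (nat_lit 6) (nat_lit 0) (nat_lit 12) (node (nat_lit 4) (nat_lit 0) (nat_lit 13) (node (nat_lit
  5) (nat_lit 0) (nat_lit 14) (node (nat_lit 6) (nat_lit 0) (nat_lit 15) (node (nat_lit 5)
  (nat_lit 0) (nat_lit 16) (node (nat_lit 4) (nat_lit 0) (nat_lit 17) (node (nat_lit 5) (nat_lit
  73831) (nat_lit 18) (node (nat_lit 6) (nat_lit 74651) (nat_lit 19) (node (nat_lit 4) (nat_lit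
  75024) (nat_lit 20) (node (nat_lit 6) (nat_lit 75497) (nat_lit 21) (node (nat_lit 5) (nat_lit
  75740) (nat_lit 22) (node (nat_lit 4) (nat_lit 75695) (nat_lit 23) (node (nat_lit 5) (nat_lit
  58568) (nat_lit 24) (node (nat_lit 6) (nat_lit 51721) (nat_lit 25) (node (nat_lit 5) (nat_lit
  42674) (nat_lit 26) (node (nat_lit 4) (nat_lit 38804) (nat_lit 27) (node (nat_lit 6) (nat_lit
  38818) (nat_lit 28) (node (nat_lit 4) (nat_lit 38818) (nat_lit 29) (node (nat_lit 5) (nat_lit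
  38827) (nat_lit 30) (node (nat_lit 6) (nat_lit 38764) (nat_lit 31) nil nil) nil) nil) nil) nil)
  nil) nil) nil) nil) nil) nil) nil) nil) (node (nat_lit 0) (nat_lit 73577) (nat_lit 18) nil nil))
  (node (nat_lit 0) (nat_lit 72451) (nat_lit 17) nil nil)) (node (nat_lit 4) (nat_lit 0) (nat_lit
  16) (node (nat_lit 6) (nat_lit 72740) (nat_lit 17) (node (nat_lit 5) (nat_lit 73919) (nat_lit
  18) (node (nat_lit 4) (nat_lit 72864) (nat_lit 19) (node (nat_lit 6) (nat_lit 72546) (nat_lit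
  20) nil nil) (node (nat_lit 6) (nat_lit 74542) (nat_lit 19) nil nil)) nil) (node (nat_lit 0)
  (nat_lit 72415) (nat_lit 17) nil nil)) (node (nat_lit 0) (nat_lit 70883) (nat_lit 16) nil nil)))
  (node (nat_lit 4) (nat_lit 0) (nat_lit 15) (node (nat_lit 6) (nat_lit 71367) (nat_lit 16) (node
  (nat_lit 5) (nat_lit 72844) (nat_lit 17) (node (nat_lit 6) (nat_lit 73897) (nat_lit 18) (node
  (nat_lit 4) (nat_lit 74376) (nat_lit 19) (node (nat_lit 5) (nat_lit 74862) (nat_lit 20) nil nil)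
  nil) (node (nat_lit 4) (nat_lit 73952) (nat_lit 18) (node (nat_lit 5) (nat_lit 74772) (nat_lit
  19) (node (nat_lit 6) (nat_lit 75412) (nat_lit 20) (node (nat_lit 4) (nat_lit 75939) (nat_lit
  21) (node (nat_lit 6) (nat_lit 76331) (nat_lit 22) (node (nat_lit 5) (nat_lit 76638) (nat_lit
  23) (node (nat_lit 4) (nat_lit 69081) (nat_lit 24) nil nil) nil) nil) (node (nat_lit 5) (nat_lit
  75913) (nat_lit 21) nil nil)) nil) nil) nil)) nil) (node (nat_lit 0) (nat_lit 70950) (nat_lit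
  16) nil nil)) (node (nat_lit 0) (nat_lit 68654) (nat_lit 15) (node (nat_lit 6) (nat_lit 70284)
  (nat_lit 16) nil (node (nat_lit 4) (nat_lit 68644) (nat_lit 16) nil (node (nat_lit 5) (nat_lit
  69964) (nat_lit 16) nil nil))) nil))) (node (nat_lit 0) (nat_lit 65405) (nat_lit 14) nil nil))
  (node (nat_lit 5) (nat_lit 0) (nat_lit 13) (node (nat_lit 6) (nat_lit 0) (nat_lit 14) (node
  (nat_lit 4) (nat_lit 69537) (nat_lit 15) (node (nat_lit 5) (nat_lit 71493) (nat_lit 16) (node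
  (nat_lit 6) (nat_lit 72844) (nat_lit 17) (node (nat_lit 5) (nat_lit 73897) (nat_lit 18) (node
  (nat_lit 4) (nat_lit 74090) (nat_lit 19) (node (nat_lit 5) (nat_lit 72707) (nat_lit 20) (node
  (nat_lit 6) (nat_lit 71730) (nat_lit 21) (node (nat_lit 4) (nat_lit 71190) (nat_lit 22) (node
  (nat_lit 6) (nat_lit 70833) (nat_lit 23) (node (nat_lit 5) (nat_lit 69033) (nat_lit 24) (node
  (nat_lit 4) (nat_lit 68650) (nat_lit 25) (node (nat_lit 5) (nat_lit 66318) (nat_lit 26) (node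
  (nat_lit 6) (nat_lit 62740) (nat_lit 27) (node (nat_lit 5) (nat_lit 58318) (nat_lit 28) (node
  (nat_lit 4) (nat_lit 53367) (nat_lit 29) (node (nat_lit 6) (nat_lit 41612) (nat_lit 30) (node
  (nat_lit 5) (nat_lit 38392) (nat_lit 31) (node (nat_lit 6) (nat_lit 38406) (nat_lit 32) (node
  (nat_lit 4) (nat_lit 38417) (nat_lit 33) (node (nat_lit 5) (nat_lit 38425) (nat_lit 34) nil nil)
  nil) nil) nil) nil) nil) nil) nil) nil) nil) nil) nil) nil) nil) nil) nil) nil) (node (nat_lit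
  4) (nat_lit 72282) (nat_lit 17) (node (nat_lit 6) (nat_lit 73281) (nat_lit 18) nil nil) nil))
  (node (nat_lit 6) (nat_lit 71264) (nat_lit 16) (node (nat_lit 5) (nat_lit 72615) (nat_lit 17)
  (node (nat_lit 4) (nat_lit 72920) (nat_lit 18) (node (nat_lit 5) (nat_lit 73740) (nat_lit 19)
  (node (nat_lit 6) (nat_lit 74380) (nat_lit 20) (node (nat_lit 4) (nat_lit 74906) (nat_lit 21)
  nil nil) nil) (node (nat_lit 6) (nat_lit 73317) (nat_lit 19) (node (nat_lit 4) (nat_lit 73529)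
  (nat_lit 20) (node (nat_lit 5) (nat_lit 73771) (nat_lit 21) (node (nat_lit 6) (nat_lit 73045)
  (nat_lit 22) nil nil) nil) nil) nil)) nil) nil) nil)) (node (nat_lit 0) (nat_lit 68825) (nat_lit
  15) nil nil)) (node (nat_lit 0) (nat_lit 65958) (nat_lit 14) (node (nat_lit 6) (nat_lit 66201)
  (nat_lit 15) nil (node (nat_lit 4) (nat_lit 65938) (nat_lit 15) nil nil)) nil)) (node (nat_lit
  0) (nat_lit 62250) (nat_lit 13) (node (nat_lit 5) (nat_lit 65087) (nat_lit 14) nil (node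
  (nat_lit 4) (nat_lit 63903) (nat_lit 14) nil (node (nat_lit 6) (nat_lit 62534) (nat_lit 14) nil
  nil))) nil))) (node (nat_lit 0) (nat_lit 60152) (nat_lit 12) (node (nat_lit 4) (nat_lit 62699)
  (nat_lit 13) (node (nat_lit 6) (nat_lit 65004) (nat_lit 14) (node (nat_lit 4) (nat_lit 61870)
  (nat_lit 15) nil (node (nat_lit 5) (nat_lit 63786) (nat_lit 15) nil nil)) (node (nat_lit 5)
  (nat_lit 65536) (nat_lit 14) (node (nat_lit 6) (nat_lit 65778) (nat_lit 15) nil nil) nil)) (node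
  (nat_lit 5) (nat_lit 64306) (nat_lit 13) (node (nat_lit 4) (nat_lit 66021) (nat_lit 14) nil
  (node (nat_lit 6) (nat_lit 67142) (nat_lit 14) nil nil)) (node (nat_lit 6) (nat_lit 63788)
  (nat_lit 13) (node (nat_lit 4) (nat_lit 65441) (nat_lit 14) nil (node (nat_lit 5) (nat_lit
  63181) (nat_lit 14) nil nil)) (node (nat_lit 0) (nat_lit 62913) (nat_lit 13) nil nil)))) nil))
  (node (nat_lit 0) (nat_lit 54511) (nat_lit 11) (node (nat_lit 5) (nat_lit 59556) (nat_lit 12)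
  (node (nat_lit 4) (nat_lit 63778) (nat_lit 13) (node (nat_lit 6) (nat_lit 64062) (nat_lit 14)
  (node (nat_lit 4) (nat_lit 60927) (nat_lit 15) nil nil) (node (nat_lit 5) (nat_lit 65930)
  (nat_lit 14) nil nil)) (node (nat_lit 6) (nat_lit 63193) (nat_lit 13) (node (nat_lit 4) (nat_lit
  65345) (nat_lit 14) nil (node (nat_lit 14) (nat_lit 64845) (nat_lit 14) nil nil)) (node (nat_lit
  0) (nat_lit 62317) (nat_lit 13) nil nil))) (node (nat_lit 4) (nat_lit 59708) (nat_lit 12) (node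
  (nat_lit 6) (nat_lit 63345) (nat_lit 13) (node (nat_lit 4) (nat_lit 59490) (nat_lit 14) (node
  (nat_lit 5) (nat_lit 61232) (nat_lit 15) (node (nat_lit 6) (nat_lit 58659) (nat_lit 16) nil nil)
  nil) (node (nat_lit 5) (nat_lit 61710) (nat_lit 14) nil nil)) (node (nat_lit 5) (nat_lit 63345)
  (nat_lit 13) (node (nat_lit 6) (nat_lit 63628) (nat_lit 14) nil (node (nat_lit 4) (nat_lit
  63287) (nat_lit 14) nil nil)) (node (nat_lit 14) (nat_lit 62469) (nat_lit 13) nil nil))) (node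
  (nat_lit 6) (nat_lit 59171) (nat_lit 12) (node (nat_lit 5) (nat_lit 63325) (nat_lit 13) (node
  (nat_lit 6) (nat_lit 66161) (nat_lit 14) nil (node (nat_lit 4) (nat_lit 66786) (nat_lit 14) nil
  nil)) (node (nat_lit 4) (nat_lit 63127) (nat_lit 13) (node (nat_lit 5) (nat_lit 65280) (nat_lit
  14) nil nil) (node (nat_lit 14) (nat_lit 62807) (nat_lit 13) nil nil))) (node (nat_lit 0)
  (nat_lit 59171) (nat_lit 12) nil nil)))) nil)) (node (nat_lit 0) (nat_lit 47399) (nat_lit 10)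
  (node (nat_lit 5) (nat_lit 54489) (nat_lit 11) (node (nat_lit 6) (nat_lit 59149) (nat_lit 12)
  (node (nat_lit 5) (nat_lit 62785) (nat_lit 13) nil nil) (node (nat_lit 4) (nat_lit 58182)
  (nat_lit 12) (node (nat_lit 6) (nat_lit 53606) (nat_lit 13) nil (node (nat_lit 5) (nat_lit
  60942) (nat_lit 13) nil nil)) (node (nat_lit 13) (nat_lit 58025) (nat_lit 12) nil nil))) (node
  (nat_lit 4) (nat_lit 54074) (nat_lit 11) (node (nat_lit 6) (nat_lit 58777) (nat_lit 12) (node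
  (nat_lit 4) (nat_lit 61538) (nat_lit 13) (node (nat_lit 5) (nat_lit 64942) (nat_lit 14) nil nil)
  (node (nat_lit 5) (nat_lit 57943) (nat_lit 13) nil nil)) (node (nat_lit 5) (nat_lit 58734)
  (nat_lit 12) (node (nat_lit 6) (nat_lit 59040) (nat_lit 13) nil nil) (node (nat_lit 13) (nat_lit
  57610) (nat_lit 12) nil nil))) (node (nat_lit 6) (nat_lit 53599) (nat_lit 11) (node (nat_lit 5)
  (nat_lit 59318) (nat_lit 12) (node (nat_lit 4) (nat_lit 60639) (nat_lit 13) nil nil) (node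
  (nat_lit 4) (nat_lit 58839) (nat_lit 12) (node (nat_lit 5) (nat_lit 61600) (nat_lit 13) nil nil)
  nil)) (node (nat_lit 0) (nat_lit 52689) (nat_lit 11) nil nil)))) nil))) (node (nat_lit 0)
  (nat_lit 0) (nat_lit 9) (node (nat_lit 6) (nat_lit 97621) (nat_lit 10) (node (nat_lit 5)
  (nat_lit 106244) (nat_lit 11) (node (nat_lit 4) (nat_lit 110416) (nat_lit 12) (node (nat_lit 5)
  (nat_lit 102383) (nat_lit 13) (node (nat_lit 6) (nat_lit 96835) (nat_lit 14) nil nil) nil) (node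
  (nat_lit 6) (nat_lit 109781) (nat_lit 12) nil nil)) (node (nat_lit 4) (nat_lit 102115) (nat_lit
  11) (node (nat_lit 5) (nat_lit 105651) (nat_lit 12) nil (node (nat_lit 6) (nat_lit 104972)
  (nat_lit 12) nil nil)) nil)) (node (nat_lit 4) (nat_lit 97846) (nat_lit 10) (node (nat_lit 6)
  (nat_lit 104904) (nat_lit 11) (node (nat_lit 5) (nat_lit 106770) (nat_lit 12) nil (node (nat_lit
  4) (nat_lit 108369) (nat_lit 12) nil nil)) (node (nat_lit 5) (nat_lit 106827) (nat_lit 11) (node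
  (nat_lit 4) (nat_lit 110363) (nat_lit 12) nil (node (nat_lit 6) (nat_lit 107482) (nat_lit 12)
  nil nil)) nil)) (node (nat_lit 5) (nat_lit 97875) (nat_lit 10) (node (nat_lit 4) (nat_lit
  104951) (nat_lit 11) (node (nat_lit 6) (nat_lit 102249) (nat_lit 12) nil nil) (node (nat_lit 6)
  (nat_lit 102407) (nat_lit 11) (node (nat_lit 4) (nat_lit 105943) (nat_lit 12) nil nil) nil))
  (node (nat_lit 0) (nat_lit 98047) (nat_lit 10) nil nil)))) nil))

noncomputable def t199 : Tr :=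
  (node (nat_lit 4) (nat_lit 0) (nat_lit 7) (node (nat_lit 5) (nat_lit 0) (nat_lit 8) t198 (node
  (nat_lit 6) (nat_lit 0) (nat_lit 8) (node (nat_lit 4) (nat_lit 0) (nat_lit 9) (node (nat_lit 5)
  (nat_lit 0) (nat_lit 10) (node (nat_lit 4) (nat_lit 0) (nat_lit 11) (node (nat_lit 6) (nat_lit
  0) (nat_lit 12) (node (nat_lit 5) (nat_lit 0) (nat_lit 13) (node (nat_lit 6) (nat_lit 0)
  (nat_lit 14) (node (nat_lit 4) (nat_lit 0) (nat_lit 15) (node (nat_lit 5) (nat_lit 134213)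
  (nat_lit 16) (node (nat_lit 6) (nat_lit 134783) (nat_lit 17) (node (nat_lit 5) (nat_lit 135227)
  (nat_lit 18) (node (nat_lit 4) (nat_lit 134944) (nat_lit 19) (node (nat_lit 5) (nat_lit 135215)
  (nat_lit 20) (node (nat_lit 6) (nat_lit 134361) (nat_lit 21) (node (nat_lit 4) (nat_lit 133773)
  (nat_lit 22) (node (nat_lit 6) (nat_lit 132778) (nat_lit 23) (node (nat_lit 5) (nat_lit 132522)
  (nat_lit 24) (node (nat_lit 4) (nat_lit 130233) (nat_lit 25) (node (nat_lit 6) (nat_lit 129370)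
  (nat_lit 26) (node (nat_lit 4) (nat_lit 125607) (nat_lit 27) (node (nat_lit 5) (nat_lit 121200)
  (nat_lit 28) (node (nat_lit 4) (nat_lit 116277) (nat_lit 29) (node (nat_lit 6) (nat_lit 104487)
  (nat_lit 30) (node (nat_lit 5) (nat_lit 85256) (nat_lit 31) (node (nat_lit 6) (nat_lit 61267)
  (nat_lit 32) (node (nat_lit 4) (nat_lit 38076) (nat_lit 33) (node (nat_lit 5) (nat_lit 38084)
  (nat_lit 34) (node (nat_lit 6) (nat_lit 38091) (nat_lit 35) nil nil) nil) nil) nil) nil) nil)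
  nil) nil) nil) nil) nil) nil) nil) nil) nil) nil) nil) nil) (node (nat_lit 4) (nat_lit 133754)
  (nat_lit 17) (node (nat_lit 6) (nat_lit 133907) (nat_lit 18) (node (nat_lit 4) (nat_lit 133894)
  (nat_lit 19) (node (nat_lit 5) (nat_lit 133975) (nat_lit 20) (node (nat_lit 6) (nat_lit 133153)
  (nat_lit 21) (node (nat_lit 4) (nat_lit 132432) (nat_lit 22) (node (nat_lit 6) (nat_lit 131532)
  (nat_lit 23) (node (nat_lit 5) (nat_lit 131298) (nat_lit 24) (node (nat_lit 4) (nat_lit 129024)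
  (nat_lit 25) (node (nat_lit 6) (nat_lit 128112) (nat_lit 26) (node (nat_lit 4) (nat_lit 124312)
  (nat_lit 27) (node (nat_lit 5) (nat_lit 119874) (nat_lit 28) (node (nat_lit 4) (nat_lit 114930)
  (nat_lit 29) (node (nat_lit 6) (nat_lit 103156) (nat_lit 30) (node (nat_lit 5) (nat_lit 97737)
  (nat_lit 31) (node (nat_lit 6) (nat_lit 82807) (nat_lit 32) (node (nat_lit 4) (nat_lit 67291)
  (nat_lit 33) (node (nat_lit 5) (nat_lit 67298) (nat_lit 34) nil nil) nil) nil) nil) nil) nil)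
  nil) nil) nil) nil) nil) nil) nil) nil) nil) nil) nil) nil)) (node (nat_lit 6) (nat_lit 134213)
  (nat_lit 16) (node (nat_lit 5) (nat_lit 133626) (nat_lit 17) (node (nat_lit 4) (nat_lit 133144)
  (nat_lit 18) (node (nat_lit 5) (nat_lit 133492) (nat_lit 19) (node (nat_lit 6) (nat_lit 132230)
  (nat_lit 20) (node (nat_lit 4) (nat_lit 131515) (nat_lit 21) (node (nat_lit 6) (nat_lit 130433)
  (nat_lit 22) nil nil) nil) nil) (node (nat_lit 6) (nat_lit 133541) (nat_lit 19) (node (nat_lit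
  4) (nat_lit 133754) (nat_lit 20) (node (nat_lit 5) (nat_lit 133996) (nat_lit 21) (node (nat_lit
  6) (nat_lit 133269) (nat_lit 22) nil nil) nil) nil) nil)) nil) nil) (node (nat_lit 0) (nat_lit
  134213) (nat_lit 16) nil nil))) (node (nat_lit 0) (nat_lit 132165) (nat_lit 15) (node (nat_lit
  6) (nat_lit 132360) (nat_lit 16) (node (nat_lit 5) (nat_lit 132798) (nat_lit 17) nil nil) (node
  (nat_lit 4) (nat_lit 132155) (nat_lit 16) nil (node (nat_lit 5) (nat_lit 133475) (nat_lit 16)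
  nil nil))) nil)) (node (nat_lit 4) (nat_lit 0) (nat_lit 14) (node (nat_lit 5) (nat_lit 0)
  (nat_lit 15) (node (nat_lit 6) (nat_lit 132723) (nat_lit 16) (node (nat_lit 5) (nat_lit 132045)
  (nat_lit 17) (node (nat_lit 4) (nat_lit 131564) (nat_lit 18) (node (nat_lit 6) (nat_lit 131961)
  (nat_lit 19) (node (nat_lit 4) (nat_lit 132174) (nat_lit 20) (node (nat_lit 5) (nat_lit 132416)
  (nat_lit 21) (node (nat_lit 6) (nat_lit 131689) (nat_lit 22) (node (nat_lit 4) (nat_lit 131231)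
  (nat_lit 23) (node (nat_lit 6) (nat_lit 130418) (nat_lit 24) (node (nat_lit 5) (nat_lit 130087)
  (nat_lit 25) (node (nat_lit 4) (nat_lit 128147) (nat_lit 26) nil nil) nil) nil) nil) nil) nil)
  nil) nil) nil) (node (nat_lit 4) (nat_lit 134074) (nat_lit 17) (node (nat_lit 6) (nat_lit
  135126) (nat_lit 18) (node (nat_lit 5) (nat_lit 135755) (nat_lit 19) (node (nat_lit 4) (nat_lit
  113202) (nat_lit 20) (node (nat_lit 6) (nat_lit 112031) (nat_lit 21) (node (nat_lit 4) (nat_lit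
  88877) (nat_lit 22) (node (nat_lit 5) (nat_lit 70456) (nat_lit 23) (node (nat_lit 4) (nat_lit
  37839) (nat_lit 24) nil (node (nat_lit 6) (nat_lit 70031) (nat_lit 24) nil nil)) nil) nil) nil)
  nil) nil) nil) nil)) (node (nat_lit 0) (nat_lit 134395) (nat_lit 16) (node (nat_lit 4) (nat_lit
  133936) (nat_lit 17) nil (node (nat_lit 6) (nat_lit 134805) (nat_lit 17) nil nil)) nil)) (node
  (nat_lit 0) (nat_lit 132165) (nat_lit 15) (node (nat_lit 4) (nat_lit 132155) (nat_lit 16) (node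
  (nat_lit 5) (nat_lit 133181) (nat_lit 17) nil (node (nat_lit 6) (nat_lit 131926) (nat_lit 17)
  nil nil)) (node (nat_lit 5) (nat_lit 133475) (nat_lit 16) (node (nat_lit 4) (nat_lit 133471)
  (nat_lit 17) nil nil) (node (nat_lit 6) (nat_lit 132360) (nat_lit 16) (node (nat_lit 5) (nat_lit
  132798) (nat_lit 17) nil (node (nat_lit 4) (nat_lit 133385) (nat_lit 17) nil nil)) nil))) nil))
  (node (nat_lit 0) (nat_lit 130709) (nat_lit 14) (node (nat_lit 5) (nat_lit 132392) (nat_lit 15)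
  (node (nat_lit 6) (nat_lit 132587) (nat_lit 16) nil (node (nat_lit 4) (nat_lit 132383) (nat_lit
  16) (node (nat_lit 6) (nat_lit 132154) (nat_lit 17) nil nil) nil)) (node (nat_lit 4) (nat_lit
  132392) (nat_lit 15) (node (nat_lit 6) (nat_lit 132587) (nat_lit 16) (node (nat_lit 4) (nat_lit
  130752) (nat_lit 17) nil nil) (node (nat_lit 5) (nat_lit 133703) (nat_lit 16) nil nil)) (node
  (nat_lit 6) (nat_lit 132856) (nat_lit 15) (node (nat_lit 5) (nat_lit 132537) (nat_lit 16) nil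
  (node (nat_lit 4) (nat_lit 134166) (nat_lit 16) nil nil)) (node (nat_lit 0) (nat_lit 132392)
  (nat_lit 15) nil nil)))) nil))) (node (nat_lit 0) (nat_lit 126495) (nat_lit 13) (node (nat_lit
  4) (nat_lit 129828) (nat_lit 14) (node (nat_lit 6) (nat_lit 132319) (nat_lit 15) (node (nat_lit
  4) (nat_lit 129891) (nat_lit 16) (node (nat_lit 5) (nat_lit 130135) (nat_lit 17) (node (nat_lit
  6) (nat_lit 128620) (nat_lit 18) nil nil) nil) nil) (node (nat_lit 5) (nat_lit 131511) (nat_lit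
  15) nil nil)) (node (nat_lit 6) (nat_lit 129246) (nat_lit 14) (node (nat_lit 5) (nat_lit 131848)
  (nat_lit 15) (node (nat_lit 4) (nat_lit 129563) (nat_lit 16) nil nil) (node (nat_lit 4) (nat_lit
  131256) (nat_lit 15) (node (nat_lit 6) (nat_lit 131451) (nat_lit 16) nil nil) nil)) (node
  (nat_lit 5) (nat_lit 129307) (nat_lit 14) (node (nat_lit 6) (nat_lit 131523) (nat_lit 15) (node
  (nat_lit 5) (nat_lit 130624) (nat_lit 16) nil nil) (node (nat_lit 4) (nat_lit 130990) (nat_lit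
  15) nil nil)) (node (nat_lit 0) (nat_lit 128647) (nat_lit 14) nil nil)))) nil)) (node (nat_lit
  0) (nat_lit 122052) (nat_lit 12) (node (nat_lit 5) (nat_lit 126800) (nat_lit 13) (node (nat_lit
  4) (nat_lit 129733) (nat_lit 14) (node (nat_lit 6) (nat_lit 130630) (nat_lit 15) (node (nat_lit
  5) (nat_lit 129731) (nat_lit 16) nil (node (nat_lit 4) (nat_lit 128202) (nat_lit 16) (node
  (nat_lit 5) (nat_lit 128835) (nat_lit 17) (node (nat_lit 6) (nat_lit 128068) (nat_lit 18) nil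
  nil) nil) nil)) (node (nat_lit 5) (nat_lit 131416) (nat_lit 15) nil nil)) (node (nat_lit 6)
  (nat_lit 128992) (nat_lit 14) (node (nat_lit 4) (nat_lit 130674) (nat_lit 15) nil (node (nat_lit
  5) (nat_lit 131208) (nat_lit 15) (node (nat_lit 4) (nat_lit 127461) (nat_lit 16) nil nil) nil))
  (node (nat_lit 15) (nat_lit 128952) (nat_lit 14) nil nil))) (node (nat_lit 6) (nat_lit 126539)
  (nat_lit 13) (node (nat_lit 5) (nat_lit 129678) (nat_lit 14) (node (nat_lit 4) (nat_lit 129411)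
  (nat_lit 15) (node (nat_lit 5) (nat_lit 126686) (nat_lit 16) (node (nat_lit 6) (nat_lit 120416)
  (nat_lit 17) (node (nat_lit 4) (nat_lit 118925) (nat_lit 18) (node (nat_lit 6) (nat_lit 115210)
  (nat_lit 19) nil nil) nil) nil) nil) (node (nat_lit 6) (nat_lit 131361) (nat_lit 15) nil nil))
  (node (nat_lit 4) (nat_lit 129601) (nat_lit 14) (node (nat_lit 6) (nat_lit 130273) (nat_lit 15)
  (node (nat_lit 5) (nat_lit 129599) (nat_lit 16) (node (nat_lit 4) (nat_lit 128944) (nat_lit 17)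
  nil nil) nil) (node (nat_lit 5) (nat_lit 131284) (nat_lit 15) nil nil)) (node (nat_lit 15)
  (nat_lit 128691) (nat_lit 14) nil nil))) (node (nat_lit 4) (nat_lit 126539) (nat_lit 13) (node
  (nat_lit 6) (nat_lit 129313) (nat_lit 14) (node (nat_lit 4) (nat_lit 130996) (nat_lit 15) (node
  (nat_lit 5) (nat_lit 127156) (nat_lit 16) (node (nat_lit 6) (nat_lit 126036) (nat_lit 17) nil
  nil) nil) (node (nat_lit 5) (nat_lit 131481) (nat_lit 15) (node (nat_lit 4) (nat_lit 127734)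
  (nat_lit 16) nil nil) nil)) (node (nat_lit 5) (nat_lit 128860) (nat_lit 14) (node (nat_lit 4)
  (nat_lit 128840) (nat_lit 15) nil (node (nat_lit 6) (nat_lit 131076) (nat_lit 15) nil nil))
  (node (nat_lit 0) (nat_lit 128691) (nat_lit 14) nil nil))) (node (nat_lit 0) (nat_lit 125008)
  (nat_lit 13) (node (nat_lit 4) (nat_lit 124951) (nat_lit 14) nil nil) nil)))) nil)) (node
  (nat_lit 6) (nat_lit 0) (nat_lit 11) (node (nat_lit 4) (nat_lit 0) (nat_lit 12) (node (nat_lit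
  6) (nat_lit 0) (nat_lit 13) (node (nat_lit 5) (nat_lit 0) (nat_lit 14) (node (nat_lit 6)
  (nat_lit 71556) (nat_lit 15) (node (nat_lit 4) (nat_lit 72137) (nat_lit 16) (node (nat_lit 5)
  (nat_lit 72593) (nat_lit 17) (node (nat_lit 4) (nat_lit 72949) (nat_lit 18) (node (nat_lit 6)
  (nat_lit 72694) (nat_lit 19) (node (nat_lit 4) (nat_lit 72909) (nat_lit 20) (node (nat_lit 5)
  (nat_lit 73079) (nat_lit 21) (node (nat_lit 6) (nat_lit 72956) (nat_lit 22) (node (nat_lit 4)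
  (nat_lit 73060) (nat_lit 23) (node (nat_lit 6) (nat_lit 72984) (nat_lit 24) (node (nat_lit 5)
  (nat_lit 72968) (nat_lit 25) nil nil) nil) nil) nil) nil) nil) nil) (node (nat_lit 6) (nat_lit
  72269) (nat_lit 18) (node (nat_lit 5) (nat_lit 72197) (nat_lit 19) nil nil) nil)) nil) nil)
  (node (nat_lit 4) (nat_lit 71966) (nat_lit 15) (node (nat_lit 5) (nat_lit 72547) (nat_lit 16)
  (node (nat_lit 6) (nat_lit 72472) (nat_lit 17) (node (nat_lit 5) (nat_lit 72039) (nat_lit 18)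
  (node (nat_lit 4) (nat_lit 71957) (nat_lit 19) (node (nat_lit 6) (nat_lit 72172) (nat_lit 20)
  (node (nat_lit 4) (nat_lit 72342) (nat_lit 21) (node (nat_lit 5) (nat_lit 72474) (nat_lit 22)
  nil nil) nil) nil) nil) (node (nat_lit 4) (nat_lit 71770) (nat_lit 18) (node (nat_lit 6)
  (nat_lit 69461) (nat_lit 19) nil nil) nil)) nil) nil) (node (nat_lit 0) (nat_lit 71556) (nat_lit
  15) nil nil))) (node (nat_lit 0) (nat_lit 70808) (nat_lit 14) (node (nat_lit 4) (nat_lit 71556)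
  (nat_lit 15) (node (nat_lit 6) (nat_lit 71022) (nat_lit 16) nil nil) (node (nat_lit 5) (nat_lit
  71556) (nat_lit 15) nil (node (nat_lit 6) (nat_lit 70116) (nat_lit 15) nil nil))) nil)) (node
  (nat_lit 0) (nat_lit 91394) (nat_lit 13) (node (nat_lit 4) (nat_lit 92349) (nat_lit 14) (node
  (nat_lit 6) (nat_lit 91657) (nat_lit 15) nil nil) (node (nat_lit 6) (nat_lit 92840) (nat_lit 14)
  nil (node (nat_lit 5) (nat_lit 92349) (nat_lit 14) nil nil))) nil)) (node (nat_lit 5) (nat_lit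
  0) (nat_lit 12) (node (nat_lit 4) (nat_lit 0) (nat_lit 13) (node (nat_lit 6) (nat_lit 0)
  (nat_lit 14) (node (nat_lit 5) (nat_lit 130855) (nat_lit 15) (node (nat_lit 6) (nat_lit 132166)
  (nat_lit 16) (node (nat_lit 4) (nat_lit 133191) (nat_lit 17) (node (nat_lit 6) (nat_lit 133311)
  (nat_lit 18) (node (nat_lit 5) (nat_lit 133585) (nat_lit 19) (node (nat_lit 4) (nat_lit 133307)
  (nat_lit 20) (node (nat_lit 5) (nat_lit 133549) (nat_lit 21) nil nil) nil) nil) nil) nil) nil)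
  (node (nat_lit 4) (nat_lit 130634) (nat_lit 15) nil (node (nat_lit 0) (nat_lit 130855) (nat_lit
  15) nil nil))) (node (nat_lit 5) (nat_lit 129173) (nat_lit 14) (node (nat_lit 6) (nat_lit
  131389) (nat_lit 15) (node (nat_lit 4) (nat_lit 130043) (nat_lit 16) (node (nat_lit 6) (nat_lit
  127127) (nat_lit 17) (node (nat_lit 5) (nat_lit 122420) (nat_lit 18) (node (nat_lit 4) (nat_lit
  109251) (nat_lit 19) (node (nat_lit 6) (nat_lit 60524) (nat_lit 20) (node (nat_lit 4) (nat_lit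
  60522) (nat_lit 21) (node (nat_lit 5) (nat_lit 37235) (nat_lit 22) (node (nat_lit 6) (nat_lit
  36777) (nat_lit 23) nil nil) nil) nil) nil) nil) nil) nil) nil) nil) (node (nat_lit 0) (nat_lit
  128488) (nat_lit 14) nil nil))) (node (nat_lit 0) (nat_lit 125799) (nat_lit 13) (node (nat_lit
  4) (nat_lit 125741) (nat_lit 14) nil (node (nat_lit 5) (nat_lit 127951) (nat_lit 14) nil (node
  (nat_lit 6) (nat_lit 126082) (nat_lit 14) nil nil))) nil)) (node (nat_lit 0) (nat_lit 121923)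
  (nat_lit 12) (node (nat_lit 5) (nat_lit 124729) (nat_lit 13) (node (nat_lit 6) (nat_lit 125013)
  (nat_lit 14) nil nil) (node (nat_lit 4) (nat_lit 124877) (nat_lit 13) (node (nat_lit 6) (nat_lit
  121374) (nat_lit 14) nil (node (nat_lit 5) (nat_lit 127030) (nat_lit 14) nil nil)) (node
  (nat_lit 6) (nat_lit 125456) (nat_lit 13) (node (nat_lit 5) (nat_lit 123822) (nat_lit 14) nil
  (node (nat_lit 4) (nat_lit 127609) (nat_lit 14) nil nil)) nil))) nil))) (node (nat_lit 0)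
  (nat_lit 116209) (nat_lit 11) (node (nat_lit 5) (nat_lit 122018) (nat_lit 12) (node (nat_lit 4)
  (nat_lit 124314) (nat_lit 13) (node (nat_lit 6) (nat_lit 120811) (nat_lit 14) nil (node (nat_lit
  5) (nat_lit 126467) (nat_lit 14) nil nil)) (node (nat_lit 6) (nat_lit 125655) (nat_lit 13) (node
  (nat_lit 5) (nat_lit 124020) (nat_lit 14) nil nil) (node (nat_lit 0) (nat_lit 124779) (nat_lit
  13) nil nil))) (node (nat_lit 4) (nat_lit 121848) (nat_lit 12) (node (nat_lit 5) (nat_lit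
  125485) (nat_lit 13) (node (nat_lit 4) (nat_lit 125427) (nat_lit 14) nil nil) (node (nat_lit 6)
  (nat_lit 123225) (nat_lit 13) nil nil)) (node (nat_lit 6) (nat_lit 121848) (nat_lit 12) (node
  (nat_lit 5) (nat_lit 125485) (nat_lit 13) (node (nat_lit 4) (nat_lit 119420) (nat_lit 14) nil
  nil) (node (nat_lit 4) (nat_lit 123946) (nat_lit 13) nil nil)) (node (nat_lit 0) (nat_lit
  119746) (nat_lit 12) nil nil)))) nil))) (node (nat_lit 0) (nat_lit 107003) (nat_lit 10) (node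
  (nat_lit 5) (nat_lit 115923) (nat_lit 11) (node (nat_lit 4) (nat_lit 115672) (nat_lit 12) nil
  (node (nat_lit 6) (nat_lit 116255) (nat_lit 12) nil nil)) (node (nat_lit 6) (nat_lit 114390)
  (nat_lit 11) (node (nat_lit 5) (nat_lit 111837) (nat_lit 12) nil (node (nat_lit 4) (nat_lit
  117926) (nat_lit 12) nil nil)) (node (nat_lit 4) (nat_lit 114390) (nat_lit 11) nil nil))) nil))
  (node (nat_lit 0) (nat_lit 0) (nat_lit 9) (node (nat_lit 6) (nat_lit 106793) (nat_lit 10) (node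
  (nat_lit 5) (nat_lit 116064) (nat_lit 11) (node (nat_lit 4) (nat_lit 121569) (nat_lit 12) (node
  (nat_lit 5) (nat_lit 113536) (nat_lit 13) (node (nat_lit 6) (nat_lit 107988) (nat_lit 14) (node
  (nat_lit 4) (nat_lit 103585) (nat_lit 15) nil nil) nil) (node (nat_lit 6) (nat_lit 120234)
  (nat_lit 13) nil nil)) nil) (node (nat_lit 4) (nat_lit 114179) (nat_lit 11) (node (nat_lit 5)
  (nat_lit 117715) (nat_lit 12) nil nil) nil)) (node (nat_lit 5) (nat_lit 108867) (nat_lit 10)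
  (node (nat_lit 4) (nat_lit 114593) (nat_lit 11) (node (nat_lit 6) (nat_lit 116340) (nat_lit 12)
  nil (node (nat_lit 5) (nat_lit 118129) (nat_lit 12) nil nil)) (node (nat_lit 6) (nat_lit 116255)
  (nat_lit 11) (node (nat_lit 4) (nat_lit 118897) (nat_lit 12) nil (node (nat_lit 5) (nat_lit
  120915) (nat_lit 12) nil nil)) (node (nat_lit 12) (nat_lit 112200) (nat_lit 11) nil nil))) (node
  (nat_lit 4) (nat_lit 106418) (nat_lit 10) (node (nat_lit 5) (nat_lit 115689) (nat_lit 11) (node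
  (nat_lit 6) (nat_lit 120348) (nat_lit 12) (node (nat_lit 5) (nat_lit 119013) (nat_lit 13) nil
  nil) (node (nat_lit 4) (nat_lit 115438) (nat_lit 12) nil nil)) (node (nat_lit 6) (nat_lit
  113804) (nat_lit 11) (node (nat_lit 4) (nat_lit 117340) (nat_lit 12) nil (node (nat_lit 5)
  (nat_lit 115070) (nat_lit 12) nil nil)) (node (nat_lit 12) (nat_lit 113473) (nat_lit 11) nil
  nil))) (node (nat_lit 0) (nat_lit 108336) (nat_lit 10) nil nil)))) nil)) nil)) (node (nat_lit 6)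
  (nat_lit 0) (nat_lit 7) (node (nat_lit 4) (nat_lit 0) (nat_lit 8) (node (nat_lit 5) (nat_lit 0)
  (nat_lit 9) (node (nat_lit 4) (nat_lit 0) (nat_lit 10) (node (nat_lit 6) (nat_lit 0) (nat_lit
  11) (node (nat_lit 5) (nat_lit 0) (nat_lit 12) (node (nat_lit 6) (nat_lit 0) (nat_lit 13) (node
  (nat_lit 4) (nat_lit 0) (nat_lit 14) (node (nat_lit 6) (nat_lit 0) (nat_lit 15) (node (nat_lit
  5) (nat_lit 134442) (nat_lit 16) (node (nat_lit 4) (nat_lit 133983) (nat_lit 17) (node (nat_lit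
  5) (nat_lit 134427) (nat_lit 18) (node (nat_lit 6) (nat_lit 134772) (nat_lit 19) (node (nat_lit
  4) (nat_lit 135043) (nat_lit 20) (node (nat_lit 6) (nat_lit 135254) (nat_lit 21) (node (nat_lit
  5) (nat_lit 135419) (nat_lit 22) (node (nat_lit 6) (nat_lit 135549) (nat_lit 23) (node (nat_lit
  4) (nat_lit 132038) (nat_lit 24) (node (nat_lit 5) (nat_lit 126162) (nat_lit 25) (node (nat_lit
  4) (nat_lit 115421) (nat_lit 26) (node (nat_lit 6) (nat_lit 99835) (nat_lit 27) (node (nat_lit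
  5) (nat_lit 71363) (nat_lit 28) nil nil) nil) nil) nil) nil) nil) nil) nil) nil) nil) (node
  (nat_lit 6) (nat_lit 134136) (nat_lit 18) (node (nat_lit 4) (nat_lit 134123) (nat_lit 19) (node
  (nat_lit 5) (nat_lit 134204) (nat_lit 20) (node (nat_lit 6) (nat_lit 133421) (nat_lit 21) (node
  (nat_lit 4) (nat_lit 133244) (nat_lit 22) (node (nat_lit 6) (nat_lit 131696) (nat_lit 23) (node
  (nat_lit 5) (nat_lit 130670) (nat_lit 24) nil nil) nil) nil) nil) nil) nil) nil)) nil) (node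
  (nat_lit 0) (nat_lit 134081) (nat_lit 16) nil nil)) (node (nat_lit 0) (nat_lit 133352) (nat_lit
  15) (node (nat_lit 5) (nat_lit 134081) (nat_lit 16) nil (node (nat_lit 4) (nat_lit 132761)
  (nat_lit 16) nil (node (nat_lit 6) (nat_lit 134081) (nat_lit 16) nil nil))) nil)) (node (nat_lit
  0) (nat_lit 132417) (nat_lit 14) nil nil)) (node (nat_lit 4) (nat_lit 0) (nat_lit 13) (node
  (nat_lit 5) (nat_lit 0) (nat_lit 14) (node (nat_lit 6) (nat_lit 133587) (nat_lit 15) (node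
  (nat_lit 4) (nat_lit 134210) (nat_lit 16) (node (nat_lit 5) (nat_lit 134886) (nat_lit 17) (node
  (nat_lit 4) (nat_lit 134526) (nat_lit 18) (node (nat_lit 6) (nat_lit 134646) (nat_lit 19) (node
  (nat_lit 4) (nat_lit 134644) (nat_lit 20) (node (nat_lit 5) (nat_lit 134716) (nat_lit 21) (node
  (nat_lit 6) (nat_lit 134142) (nat_lit 22) nil nil) nil) nil) nil) nil) (node (nat_lit 6)
  (nat_lit 133995) (nat_lit 17) (node (nat_lit 5) (nat_lit 133293) (nat_lit 18) (node (nat_lit 6)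
  (nat_lit 92688) (nat_lit 19) (node (nat_lit 4) (nat_lit 91824) (nat_lit 20) (node (nat_lit 5)
  (nat_lit 60931) (nat_lit 21) (node (nat_lit 4) (nat_lit 38285) (nat_lit 22) (node (nat_lit 6)
  (nat_lit 38331) (nat_lit 23) nil nil) nil) nil) nil) (node (nat_lit 4) (nat_lit 131609) (nat_lit
  19) nil nil)) nil) nil)) (node (nat_lit 5) (nat_lit 134316) (nat_lit 16) (node (nat_lit 4)
  (nat_lit 133857) (nat_lit 17) (node (nat_lit 6) (nat_lit 134010) (nat_lit 18) nil nil) nil)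
  nil)) (node (nat_lit 0) (nat_lit 133587) (nat_lit 15) nil nil)) (node (nat_lit 0) (nat_lit
  132417) (nat_lit 14) (node (nat_lit 6) (nat_lit 133352) (nat_lit 15) nil (node (nat_lit 5)
  (nat_lit 133352) (nat_lit 15) nil nil)) nil)) (node (nat_lit 0) (nat_lit 131220) (nat_lit 13)
  (node (nat_lit 5) (nat_lit 132417) (nat_lit 14) nil (node (nat_lit 4) (nat_lit 130207) (nat_lit
  14) nil (node (nat_lit 6) (nat_lit 132417) (nat_lit 14) nil nil))) nil))) (node (nat_lit 4)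
  (nat_lit 0) (nat_lit 12) (node (nat_lit 5) (nat_lit 131352) (nat_lit 13) (node (nat_lit 6)
  (nat_lit 132549) (nat_lit 14) (node (nat_lit 5) (nat_lit 133666) (nat_lit 15) (node (nat_lit 4)
  (nat_lit 134395) (nat_lit 16) (node (nat_lit 5) (nat_lit 134965) (nat_lit 17) (node (nat_lit 6)
  (nat_lit 135409) (nat_lit 18) (node (nat_lit 4) (nat_lit 135755) (nat_lit 19) (node (nat_lit 6)
  (nat_lit 136026) (nat_lit 20) (node (nat_lit 5) (nat_lit 136236) (nat_lit 21) (node (nat_lit 6)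
  (nat_lit 136402) (nat_lit 22) (node (nat_lit 4) (nat_lit 136531) (nat_lit 23) (node (nat_lit 5)
  (nat_lit 131912) (nat_lit 24) (node (nat_lit 4) (nat_lit 112010) (nat_lit 25) (node (nat_lit 6)
  (nat_lit 95625) (nat_lit 26) (node (nat_lit 4) (nat_lit 38849) (nat_lit 27) (node (nat_lit 5)
  (nat_lit 38863) (nat_lit 28) (node (nat_lit 6) (nat_lit 38768) (nat_lit 29) nil nil) nil) nil)
  nil) nil) nil) nil) nil) nil) nil) nil) nil) (node (nat_lit 6) (nat_lit 134965) (nat_lit 17)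
  (node (nat_lit 5) (nat_lit 135409) (nat_lit 18) nil nil) nil)) nil) (node (nat_lit 4) (nat_lit
  133484) (nat_lit 15) (node (nat_lit 6) (nat_lit 134213) (nat_lit 16) (node (nat_lit 5) (nat_lit
  135012) (nat_lit 17) (node (nat_lit 6) (nat_lit 96555) (nat_lit 18) (node (nat_lit 4) (nat_lit
  65865) (nat_lit 19) (node (nat_lit 5) (nat_lit 66080) (nat_lit 20) nil nil) nil) (node (nat_lit
  4) (nat_lit 134652) (nat_lit 18) (node (nat_lit 5) (nat_lit 134998) (nat_lit 19) (node (nat_lit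
  6) (nat_lit 135269) (nat_lit 20) nil nil) nil) nil)) nil) nil) nil)) nil) (node (nat_lit 0)
  (nat_lit 130499) (nat_lit 13) (node (nat_lit 6) (nat_lit 131696) (nat_lit 14) nil nil) nil))
  (node (nat_lit 0) (nat_lit 129018) (nat_lit 12) (node (nat_lit 4) (nat_lit 130552) (nat_lit 13)
  (node (nat_lit 6) (nat_lit 131749) (nat_lit 14) (node (nat_lit 4) (nat_lit 127867) (nat_lit 15)
  (node (nat_lit 5) (nat_lit 128263) (nat_lit 16) nil nil) nil) (node (nat_lit 5) (nat_lit 131749)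
  (nat_lit 14) nil (node (nat_lit 15) (nat_lit 131749) (nat_lit 14) nil nil))) (node (nat_lit 6)
  (nat_lit 130552) (nat_lit 13) (node (nat_lit 5) (nat_lit 131741) (nat_lit 14) (node (nat_lit 4)
  (nat_lit 130691) (nat_lit 15) nil nil) (node (nat_lit 4) (nat_lit 131749) (nat_lit 14) (node
  (nat_lit 5) (nat_lit 132684) (nat_lit 15) nil nil) nil)) (node (nat_lit 5) (nat_lit 131345)
  (nat_lit 13) (node (nat_lit 6) (nat_lit 132542) (nat_lit 14) nil (node (nat_lit 4) (nat_lit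
  132542) (nat_lit 14) nil nil)) (node (nat_lit 0) (nat_lit 130552) (nat_lit 13) nil nil))))
  nil))) (node (nat_lit 0) (nat_lit 126951) (nat_lit 11) (node (nat_lit 4) (nat_lit 128918)
  (nat_lit 12) (node (nat_lit 6) (nat_lit 130552) (nat_lit 13) (node (nat_lit 4) (nat_lit 131749)
  (nat_lit 14) (node (nat_lit 5) (nat_lit 126736) (nat_lit 15) nil nil) (node (nat_lit 5) (nat_lit
  131741) (nat_lit 14) nil nil)) (node (nat_lit 5) (nat_lit 130451) (nat_lit 13) (node (nat_lit 6)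
  (nat_lit 131648) (nat_lit 14) nil nil) nil)) (node (nat_lit 5) (nat_lit 129679) (nat_lit 12)
  (node (nat_lit 4) (nat_lit 131213) (nat_lit 13) nil (node (nat_lit 6) (nat_lit 131213) (nat_lit
  13) nil nil)) (node (nat_lit 6) (nat_lit 128918) (nat_lit 12) (node (nat_lit 5) (nat_lit 130451)
  (nat_lit 13) nil (node (nat_lit 4) (nat_lit 130451) (nat_lit 13) nil nil)) (node (nat_lit 0)
  (nat_lit 128918) (nat_lit 12) nil nil)))) nil)) (node (nat_lit 6) (nat_lit 0) (nat_lit 10) (node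
  (nat_lit 5) (nat_lit 0) (nat_lit 11) (node (nat_lit 4) (nat_lit 0) (nat_lit 12) (node (nat_lit
  6) (nat_lit 0) (nat_lit 13) (node (nat_lit 4) (nat_lit 132246) (nat_lit 14) (node (nat_lit 5)
  (nat_lit 133666) (nat_lit 15) (node (nat_lit 6) (nat_lit 134395) (nat_lit 16) (node (nat_lit 4)
  (nat_lit 134965) (nat_lit 17) (node (nat_lit 6) (nat_lit 135409) (nat_lit 18) (node (nat_lit 5)
  (nat_lit 135801) (nat_lit 19) (node (nat_lit 6) (nat_lit 136072) (nat_lit 20) (node (nat_lit 4)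
  (nat_lit 97737) (nat_lit 21) (node (nat_lit 5) (nat_lit 97737) (nat_lit 22) (node (nat_lit 6)
  (nat_lit 68213) (nat_lit 23) (node (nat_lit 5) (nat_lit 68191) (nat_lit 24) (node (nat_lit 4)
  (nat_lit 68176) (nat_lit 25) nil nil) nil) nil) nil) nil) nil) nil) nil) nil) (node (nat_lit 4)
  (nat_lit 134395) (nat_lit 16) (node (nat_lit 6) (nat_lit 134965) (nat_lit 17) (node (nat_lit 5)
  (nat_lit 135409) (nat_lit 18) nil nil) nil) nil)) nil) (node (nat_lit 5) (nat_lit 0) (nat_lit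
  14) (node (nat_lit 6) (nat_lit 133182) (nat_lit 15) (node (nat_lit 4) (nat_lit 133911) (nat_lit
  16) (node (nat_lit 5) (nat_lit 134480) (nat_lit 17) (node (nat_lit 4) (nat_lit 134121) (nat_lit
  18) (node (nat_lit 6) (nat_lit 134241) (nat_lit 19) (node (nat_lit 4) (nat_lit 134239) (nat_lit
  20) (node (nat_lit 5) (nat_lit 134311) (nat_lit 21) (node (nat_lit 6) (nat_lit 133737) (nat_lit
  22) nil nil) nil) nil) nil) nil) (node (nat_lit 6) (nat_lit 134480) (nat_lit 17) (node (nat_lit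
  5) (nat_lit 134924) (nat_lit 18) (node (nat_lit 4) (nat_lit 134642) (nat_lit 19) nil nil) nil)
  nil)) nil) (node (nat_lit 0) (nat_lit 133182) (nat_lit 15) nil nil)) (node (nat_lit 0) (nat_lit
  132246) (nat_lit 14) nil nil))) (node (nat_lit 5) (nat_lit 131049) (nat_lit 13) (node (nat_lit
  6) (nat_lit 132246) (nat_lit 14) (node (nat_lit 4) (nat_lit 133182) (nat_lit 15) (node (nat_lit
  6) (nat_lit 127465) (nat_lit 16) (node (nat_lit 5) (nat_lit 110648) (nat_lit 17) (node (nat_lit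
  4) (nat_lit 110167) (nat_lit 18) (node (nat_lit 6) (nat_lit 110564) (nat_lit 19) (node (nat_lit
  4) (nat_lit 110777) (nat_lit 20) (node (nat_lit 5) (nat_lit 111018) (nat_lit 21) (node (nat_lit
  6) (nat_lit 110321) (nat_lit 22) (node (nat_lit 4) (nat_lit 110280) (nat_lit 23) (node (nat_lit
  6) (nat_lit 108971) (nat_lit 24) nil nil) nil) nil) nil) nil) nil) (node (nat_lit 6) (nat_lit
  94144) (nat_lit 18) (node (nat_lit 4) (nat_lit 77696) (nat_lit 19) (node (nat_lit 5) (nat_lit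
  37804) (nat_lit 20) nil nil) nil) nil)) nil) nil) nil) nil) (node (nat_lit 0) (nat_lit 131049)
  (nat_lit 13) nil nil))) (node (nat_lit 0) (nat_lit 129516) (nat_lit 12) (node (nat_lit 6)
  (nat_lit 131049) (nat_lit 13) nil nil) nil)) (node (nat_lit 0) (nat_lit 126889) (nat_lit 11)
  (node (nat_lit 6) (nat_lit 128797) (nat_lit 12) (node (nat_lit 4) (nat_lit 130389) (nat_lit 13)
  nil (node (nat_lit 5) (nat_lit 129880) (nat_lit 13) nil nil)) (node (nat_lit 5) (nat_lit 129679)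
  (nat_lit 12) nil (node (nat_lit 4) (nat_lit 125069) (nat_lit 12) nil nil))) nil)) (node (nat_lit
  0) (nat_lit 121796) (nat_lit 10) (node (nat_lit 4) (nat_lit 125620) (nat_lit 11) (node (nat_lit
  6) (nat_lit 128811) (nat_lit 12) (node (nat_lit 4) (nat_lit 123930) (nat_lit 13) (node (nat_lit
  5) (nat_lit 123249) (nat_lit 14) nil nil) nil) (node (nat_lit 5) (nat_lit 128811) (nat_lit 12)
  (node (nat_lit 4) (nat_lit 127443) (nat_lit 13) nil nil) nil)) (node (nat_lit 6) (nat_lit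
  126844) (nat_lit 11) (node (nat_lit 5) (nat_lit 128811) (nat_lit 12) (node (nat_lit 6) (nat_lit
  130344) (nat_lit 13) nil nil) (node (nat_lit 4) (nat_lit 128811) (nat_lit 12) nil nil)) (node
  (nat_lit 5) (nat_lit 127543) (nat_lit 11) (node (nat_lit 4) (nat_lit 129510) (nat_lit 12) nil
  (node (nat_lit 6) (nat_lit 128797) (nat_lit 12) nil nil)) (node (nat_lit 0) (nat_lit 126327)
  (nat_lit 11) nil nil)))) nil))) (node (nat_lit 0) (nat_lit 111003) (nat_lit 9) (node (nat_lit 6)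
  (nat_lit 117173) (nat_lit 10) (node (nat_lit 5) (nat_lit 126038) (nat_lit 11) (node (nat_lit 4)
  (nat_lit 128126) (nat_lit 12) (node (nat_lit 5) (nat_lit 121258) (nat_lit 13) (node (nat_lit 6)
  (nat_lit 116459) (nat_lit 14) (node (nat_lit 4) (nat_lit 112555) (nat_lit 15) (node (nat_lit 6)
  (nat_lit 100288) (nat_lit 16) (node (nat_lit 5) (nat_lit 82382) (nat_lit 17) (node (nat_lit 6)
  (nat_lit 57267) (nat_lit 18) (node (nat_lit 4) (nat_lit 36143) (nat_lit 19) nil nil) nil) nil)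
  nil) nil) nil) nil) nil) (node (nat_lit 4) (nat_lit 121703) (nat_lit 11) nil nil)) (node
  (nat_lit 4) (nat_lit 117173) (nat_lit 10) (node (nat_lit 6) (nat_lit 121703) (nat_lit 11) nil
  (node (nat_lit 5) (nat_lit 126038) (nat_lit 11) nil nil)) (node (nat_lit 5) (nat_lit 121513)
  (nat_lit 10) (node (nat_lit 4) (nat_lit 126043) (nat_lit 11) nil nil) nil))) nil)) nil) nil))

noncomputable def t200 : Tr :=
  (node (nat_lit 6) (nat_lit 0) (nat_lit 9) (node (nat_lit 4) (nat_lit 0) (nat_lit 10) (node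
  (nat_lit 6) (nat_lit 0) (nat_lit 11) (node (nat_lit 5) (nat_lit 0) (nat_lit 12) (node (nat_lit
  4) (nat_lit 0) (nat_lit 13) (node (nat_lit 6) (nat_lit 0) (nat_lit 14) (node (nat_lit 4)
  (nat_lit 0) (nat_lit 15) (node (nat_lit 5) (nat_lit 0) (nat_lit 16) (node (nat_lit 6) (nat_lit
  75025) (nat_lit 17) (node (nat_lit 5) (nat_lit 75382) (nat_lit 18) (node (nat_lit 4) (nat_lit
  75817) (nat_lit 19) (node (nat_lit 5) (nat_lit 76032) (nat_lit 20) (node (nat_lit 6) (nat_lit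
  76201) (nat_lit 21) (node (nat_lit 4) (nat_lit 76333) (nat_lit 22) (node (nat_lit 5) (nat_lit
  71620) (nat_lit 23) (node (nat_lit 4) (nat_lit 71367) (nat_lit 24) (node (nat_lit 6) (nat_lit
  69099) (nat_lit 25) (node (nat_lit 5) (nat_lit 68154) (nat_lit 26) (node (nat_lit 6) (nat_lit
  64391) (nat_lit 27) (node (nat_lit 4) (nat_lit 59888) (nat_lit 28) (node (nat_lit 6) (nat_lit
  53346) (nat_lit 29) (node (nat_lit 5) (nat_lit 44246) (nat_lit 30) (node (nat_lit 4) (nat_lit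
  23993) (nat_lit 31) nil nil) nil) nil) nil) nil) nil) nil) nil) nil) nil) nil) (node (nat_lit 6)
  (nat_lit 76032) (nat_lit 20) nil nil)) nil) (node (nat_lit 4) (nat_lit 75382) (nat_lit 18) (node
  (nat_lit 6) (nat_lit 75127) (nat_lit 19) (node (nat_lit 5) (nat_lit 75070) (nat_lit 20) (node
  (nat_lit 4) (nat_lit 75014) (nat_lit 21) nil nil) nil) nil) nil)) (node (nat_lit 4) (nat_lit
  75169) (nat_lit 17) (node (nat_lit 6) (nat_lit 75525) (nat_lit 18) (node (nat_lit 5) (nat_lit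
  75802) (nat_lit 19) (node (nat_lit 6) (nat_lit 76017) (nat_lit 20) (node (nat_lit 4) (nat_lit
  76186) (nat_lit 21) (node (nat_lit 5) (nat_lit 76318) (nat_lit 22) (node (nat_lit 6) (nat_lit
  76224) (nat_lit 23) (node (nat_lit 5) (nat_lit 76201) (nat_lit 24) (node (nat_lit 4) (nat_lit
  76180) (nat_lit 25) nil nil) nil) nil) nil) nil) (node (nat_lit 4) (nat_lit 76032) (nat_lit 20)
  (node (nat_lit 5) (nat_lit 76201) (nat_lit 21) (node (nat_lit 6) (nat_lit 76333) (nat_lit 22)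
  (node (nat_lit 4) (nat_lit 76437) (nat_lit 23) (node (nat_lit 5) (nat_lit 76517) (nat_lit 24)
  (node (nat_lit 4) (nat_lit 76580) (nat_lit 25) (node (nat_lit 6) (nat_lit 70526) (nat_lit 26)
  nil nil) nil) nil) nil) nil) nil) nil)) nil) nil) (node (nat_lit 0) (nat_lit 75025) (nat_lit 17)
  nil nil))) (node (nat_lit 0) (nat_lit 74570) (nat_lit 16) (node (nat_lit 6) (nat_lit 74154)
  (nat_lit 17) (node (nat_lit 4) (nat_lit 74510) (nat_lit 18) nil nil) (node (nat_lit 4) (nat_lit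
  75025) (nat_lit 17) nil (node (nat_lit 5) (nat_lit 75025) (nat_lit 17) nil nil))) nil)) (node
  (nat_lit 0) (nat_lit 73749) (nat_lit 15) (node (nat_lit 6) (nat_lit 74331) (nat_lit 16) (node
  (nat_lit 5) (nat_lit 74786) (nat_lit 17) (node (nat_lit 4) (nat_lit 75540) (nat_lit 18) nil nil)
  (node (nat_lit 4) (nat_lit 74786) (nat_lit 17) nil nil)) (node (nat_lit 5) (nat_lit 74331)
  (nat_lit 16) (node (nat_lit 6) (nat_lit 73915) (nat_lit 17) nil (node (nat_lit 4) (nat_lit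
  74786) (nat_lit 17) nil nil)) (node (nat_lit 4) (nat_lit 74331) (nat_lit 16) (node (nat_lit 6)
  (nat_lit 73915) (nat_lit 17) nil (node (nat_lit 5) (nat_lit 74786) (nat_lit 17) nil nil)) nil)))
  nil)) (node (nat_lit 5) (nat_lit 0) (nat_lit 14) (node (nat_lit 6) (nat_lit 0) (nat_lit 15)
  (node (nat_lit 4) (nat_lit 0) (nat_lit 16) (node (nat_lit 6) (nat_lit 75105) (nat_lit 17) (node
  (nat_lit 5) (nat_lit 75461) (nat_lit 18) nil nil) (node (nat_lit 5) (nat_lit 75105) (nat_lit 17)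
  (node (nat_lit 4) (nat_lit 75540) (nat_lit 18) (node (nat_lit 6) (nat_lit 65840) (nat_lit 19)
  (node (nat_lit 5) (nat_lit 53637) (nat_lit 20) (node (nat_lit 4) (nat_lit 53807) (nat_lit 21)
  (node (nat_lit 5) (nat_lit 54067) (nat_lit 22) (node (nat_lit 6) (nat_lit 54171) (nat_lit 23)
  nil nil) nil) nil) nil) nil) nil) (node (nat_lit 0) (nat_lit 75105) (nat_lit 17) nil nil)))
  (node (nat_lit 5) (nat_lit 0) (nat_lit 16) (node (nat_lit 4) (nat_lit 75169) (nat_lit 17) (node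
  (nat_lit 6) (nat_lit 75525) (nat_lit 18) (node (nat_lit 5) (nat_lit 75802) (nat_lit 19) (node
  (nat_lit 6) (nat_lit 76017) (nat_lit 20) nil nil) (node (nat_lit 4) (nat_lit 75802) (nat_lit 19)
  nil nil)) nil) (node (nat_lit 0) (nat_lit 74786) (nat_lit 17) nil nil)) (node (nat_lit 0)
  (nat_lit 74331) (nat_lit 16) (node (nat_lit 6) (nat_lit 73915) (nat_lit 17) nil (node (nat_lit
  5) (nat_lit 74786) (nat_lit 17) nil (node (nat_lit 4) (nat_lit 74786) (nat_lit 17) nil nil)))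
  nil))) (node (nat_lit 0) (nat_lit 73749) (nat_lit 15) (node (nat_lit 5) (nat_lit 74331) (nat_lit
  16) nil (node (nat_lit 4) (nat_lit 74331) (nat_lit 16) nil (node (nat_lit 6) (nat_lit 73215)
  (nat_lit 16) nil nil))) nil)) (node (nat_lit 0) (nat_lit 73002) (nat_lit 14) (node (nat_lit 4)
  (nat_lit 73883) (nat_lit 15) (node (nat_lit 5) (nat_lit 74465) (nat_lit 16) nil (node (nat_lit
  6) (nat_lit 73350) (nat_lit 16) (node (nat_lit 5) (nat_lit 73218) (nat_lit 17) nil nil) nil))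
  (node (nat_lit 6) (nat_lit 73749) (nat_lit 15) (node (nat_lit 5) (nat_lit 74331) (nat_lit 16)
  (node (nat_lit 4) (nat_lit 71885) (nat_lit 17) nil nil) (node (nat_lit 4) (nat_lit 74331)
  (nat_lit 16) nil nil)) (node (nat_lit 5) (nat_lit 73749) (nat_lit 15) (node (nat_lit 4) (nat_lit
  74331) (nat_lit 16) nil (node (nat_lit 6) (nat_lit 73215) (nat_lit 16) nil nil)) nil))) nil)))
  (node (nat_lit 0) (nat_lit 71020) (nat_lit 13) (node (nat_lit 4) (nat_lit 72780) (nat_lit 14)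
  (node (nat_lit 5) (nat_lit 73527) (nat_lit 15) nil (node (nat_lit 6) (nat_lit 73527) (nat_lit
  15) nil nil)) (node (nat_lit 6) (nat_lit 71975) (nat_lit 14) (node (nat_lit 4) (nat_lit 72722)
  (nat_lit 15) nil (node (nat_lit 5) (nat_lit 72722) (nat_lit 15) (node (nat_lit 4) (nat_lit
  69517) (nat_lit 16) nil nil) nil)) (node (nat_lit 5) (nat_lit 71975) (nat_lit 14) (node (nat_lit
  6) (nat_lit 72722) (nat_lit 15) (node (nat_lit 5) (nat_lit 71094) (nat_lit 16) nil nil) (node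
  (nat_lit 4) (nat_lit 73632) (nat_lit 15) (node (nat_lit 6) (nat_lit 73098) (nat_lit 16) nil nil)
  nil)) (node (nat_lit 0) (nat_lit 71975) (nat_lit 14) nil nil)))) nil)) (node (nat_lit 0)
  (nat_lit 69792) (nat_lit 12) (node (nat_lit 4) (nat_lit 71690) (nat_lit 13) (node (nat_lit 6)
  (nat_lit 72645) (nat_lit 14) (node (nat_lit 5) (nat_lit 73393) (nat_lit 15) (node (nat_lit 4)
  (nat_lit 74293) (nat_lit 16) (node (nat_lit 5) (nat_lit 74749) (nat_lit 17) (node (nat_lit 6)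
  (nat_lit 69633) (nat_lit 18) nil nil) nil) nil) (node (nat_lit 4) (nat_lit 73393) (nat_lit 15)
  (node (nat_lit 5) (nat_lit 73974) (nat_lit 16) nil (node (nat_lit 15) (nat_lit 73974) (nat_lit
  16) nil nil)) nil)) (node (nat_lit 5) (nat_lit 72645) (nat_lit 14) (node (nat_lit 6) (nat_lit
  71953) (nat_lit 15) nil (node (nat_lit 4) (nat_lit 73393) (nat_lit 15) nil nil)) (node (nat_lit
  15) (nat_lit 72645) (nat_lit 14) nil nil))) (node (nat_lit 6) (nat_lit 71020) (nat_lit 13) (node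
  (nat_lit 5) (nat_lit 71975) (nat_lit 14) (node (nat_lit 4) (nat_lit 73632) (nat_lit 15) (node
  (nat_lit 5) (nat_lit 73919) (nat_lit 16) (node (nat_lit 6) (nat_lit 67850) (nat_lit 17) (node
  (nat_lit 4) (nat_lit 65439) (nat_lit 18) nil nil) nil) nil) (node (nat_lit 6) (nat_lit 72722)
  (nat_lit 15) nil nil)) (node (nat_lit 4) (nat_lit 72780) (nat_lit 14) (node (nat_lit 5) (nat_lit
  73527) (nat_lit 15) nil (node (nat_lit 6) (nat_lit 72414) (nat_lit 15) (node (nat_lit 5)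
  (nat_lit 71899) (nat_lit 16) nil nil) (node (nat_lit 15) (nat_lit 73527) (nat_lit 15) nil nil)))
  (node (nat_lit 0) (nat_lit 71975) (nat_lit 14) nil nil))) (node (nat_lit 5) (nat_lit 71020)
  (nat_lit 13) (node (nat_lit 6) (nat_lit 71975) (nat_lit 14) (node (nat_lit 5) (nat_lit 72722)
  (nat_lit 15) (node (nat_lit 4) (nat_lit 69517) (nat_lit 16) (node (nat_lit 5) (nat_lit 68942)
  (nat_lit 17) nil nil) nil) (node (nat_lit 4) (nat_lit 72722) (nat_lit 15) nil nil)) (node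
  (nat_lit 4) (nat_lit 72780) (nat_lit 14) (node (nat_lit 6) (nat_lit 73527) (nat_lit 15) (node
  (nat_lit 5) (nat_lit 71899) (nat_lit 16) nil nil) (node (nat_lit 5) (nat_lit 73527) (nat_lit 15)
  nil nil)) (node (nat_lit 15) (nat_lit 71975) (nat_lit 14) nil nil))) (node (nat_lit 0) (nat_lit
  71020) (nat_lit 13) (node (nat_lit 6) (nat_lit 70106) (nat_lit 14) nil nil) nil)))) nil)) (node
  (nat_lit 5) (nat_lit 0) (nat_lit 11) (node (nat_lit 6) (nat_lit 0) (nat_lit 12) (node (nat_lit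
  5) (nat_lit 0) (nat_lit 13) (node (nat_lit 4) (nat_lit 0) (nat_lit 14) (node (nat_lit 6)
  (nat_lit 73527) (nat_lit 15) (node (nat_lit 4) (nat_lit 74109) (nat_lit 16) (node (nat_lit 5)
  (nat_lit 74564) (nat_lit 17) (node (nat_lit 4) (nat_lit 74920) (nat_lit 18) (node (nat_lit 6)
  (nat_lit 74666) (nat_lit 19) nil nil) nil) nil) (node (nat_lit 5) (nat_lit 74109) (nat_lit 16)
  (node (nat_lit 6) (nat_lit 74564) (nat_lit 17) (node (nat_lit 4) (nat_lit 74920) (nat_lit 18)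
  nil nil) nil) nil)) (node (nat_lit 5) (nat_lit 73527) (nat_lit 15) (node (nat_lit 6) (nat_lit
  74109) (nat_lit 16) (node (nat_lit 4) (nat_lit 74813) (nat_lit 17) (node (nat_lit 5) (nat_lit
  74912) (nat_lit 18) (node (nat_lit 4) (nat_lit 72420) (nat_lit 19) (node (nat_lit 6) (nat_lit
  60438) (nat_lit 20) (node (nat_lit 5) (nat_lit 41152) (nat_lit 21) (node (nat_lit 6) (nat_lit
  17270) (nat_lit 22) nil nil) nil) nil) nil) nil) nil) nil) (node (nat_lit 0) (nat_lit 73527)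
  (nat_lit 15) nil nil))) (node (nat_lit 0) (nat_lit 71975) (nat_lit 14) (node (nat_lit 6)
  (nat_lit 72722) (nat_lit 15) (node (nat_lit 5) (nat_lit 71094) (nat_lit 16) nil nil) (node
  (nat_lit 5) (nat_lit 72722) (nat_lit 15) nil (node (nat_lit 4) (nat_lit 72722) (nat_lit 15) nil
  nil))) nil)) (node (nat_lit 0) (nat_lit 71020) (nat_lit 13) (node (nat_lit 6) (nat_lit 71975)
  (nat_lit 14) (node (nat_lit 5) (nat_lit 69821) (nat_lit 15) nil (node (nat_lit 4) (nat_lit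
  72722) (nat_lit 15) nil nil)) (node (nat_lit 5) (nat_lit 71975) (nat_lit 14) nil (node (nat_lit
  4) (nat_lit 71975) (nat_lit 14) nil nil))) nil)) (node (nat_lit 0) (nat_lit 69792) (nat_lit 12)
  (node (nat_lit 4) (nat_lit 71020) (nat_lit 13) nil (node (nat_lit 5) (nat_lit 71020) (nat_lit
  13) (node (nat_lit 4) (nat_lit 71975) (nat_lit 14) nil (node (nat_lit 6) (nat_lit 70106)
  (nat_lit 14) nil nil)) (node (nat_lit 6) (nat_lit 71020) (nat_lit 13) (node (nat_lit 5) (nat_lit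
  68188) (nat_lit 14) nil (node (nat_lit 4) (nat_lit 71975) (nat_lit 14) nil nil)) nil))) (node
  (nat_lit 4) (nat_lit 0) (nat_lit 12) (node (nat_lit 0) (nat_lit 71520) (nat_lit 13) (node
  (nat_lit 6) (nat_lit 70606) (nat_lit 14) nil (node (nat_lit 4) (nat_lit 72475) (nat_lit 14) nil
  (node (nat_lit 5) (nat_lit 72475) (nat_lit 14) nil nil))) nil) nil))) (node (nat_lit 0) (nat_lit
  68223) (nat_lit 11) (node (nat_lit 4) (nat_lit 70292) (nat_lit 12) (node (nat_lit 6) (nat_lit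
  71520) (nat_lit 13) (node (nat_lit 5) (nat_lit 72475) (nat_lit 14) nil nil) (node (nat_lit 5)
  (nat_lit 71520) (nat_lit 13) nil nil)) (node (nat_lit 6) (nat_lit 69792) (nat_lit 12) (node
  (nat_lit 4) (nat_lit 71521) (nat_lit 13) (node (nat_lit 6) (nat_lit 70607) (nat_lit 14) (node
  (nat_lit 5) (nat_lit 70322) (nat_lit 15) nil nil) nil) (node (nat_lit 5) (nat_lit 71020)
  (nat_lit 13) (node (nat_lit 4) (nat_lit 72780) (nat_lit 14) nil nil) nil)) (node (nat_lit 5)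
  (nat_lit 69792) (nat_lit 12) (node (nat_lit 4) (nat_lit 71020) (nat_lit 13) nil (node (nat_lit
  6) (nat_lit 71020) (nat_lit 13) (node (nat_lit 5) (nat_lit 68188) (nat_lit 14) nil nil) nil))
  (node (nat_lit 0) (nat_lit 69792) (nat_lit 12) nil nil)))) nil))) (node (nat_lit 0) (nat_lit
  61001) (nat_lit 10) (node (nat_lit 5) (nat_lit 63014) (nat_lit 11) (node (nat_lit 6) (nat_lit
  64584) (nat_lit 12) (node (nat_lit 5) (nat_lit 64788) (nat_lit 13) (node (nat_lit 4) (nat_lit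
  61748) (nat_lit 14) nil nil) nil) (node (nat_lit 4) (nat_lit 64584) (nat_lit 12) nil nil)) (node
  (nat_lit 4) (nat_lit 67154) (nat_lit 11) (node (nat_lit 6) (nat_lit 68724) (nat_lit 12) nil
  (node (nat_lit 5) (nat_lit 68724) (nat_lit 12) nil nil)) (node (nat_lit 6) (nat_lit 63014)
  (nat_lit 11) nil (node (nat_lit 0) (nat_lit 65463) (nat_lit 11) nil nil)))) nil)) (node (nat_lit
  4) (nat_lit 0) (nat_lit 9) (node (nat_lit 5) (nat_lit 0) (nat_lit 10) (node (nat_lit 6) (nat_lit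
  0) (nat_lit 11) (node (nat_lit 4) (nat_lit 0) (nat_lit 12) (node (nat_lit 6) (nat_lit 0)
  (nat_lit 13) (node (nat_lit 5) (nat_lit 0) (nat_lit 14) (node (nat_lit 6) (nat_lit 40810)
  (nat_lit 15) (node (nat_lit 4) (nat_lit 41391) (nat_lit 16) (node (nat_lit 5) (nat_lit 41847)
  (nat_lit 17) (node (nat_lit 6) (nat_lit 41523) (nat_lit 18) (node (nat_lit 5) (nat_lit 41451)
  (nat_lit 19) (node (nat_lit 4) (nat_lit 41375) (nat_lit 20) (node (nat_lit 5) (nat_lit 41186)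
  (nat_lit 21) (node (nat_lit 6) (nat_lit 40873) (nat_lit 22) (node (nat_lit 4) (nat_lit 39944)
  (nat_lit 23) (node (nat_lit 5) (nat_lit 39138) (nat_lit 24) (node (nat_lit 4) (nat_lit 38171)
  (nat_lit 25) (node (nat_lit 6) (nat_lit 37791) (nat_lit 26) (node (nat_lit 5) (nat_lit 35472)
  (nat_lit 27) nil nil) nil) nil) nil) nil) nil) nil) nil) nil) (node (nat_lit 4) (nat_lit 42203)
  (nat_lit 18) (node (nat_lit 6) (nat_lit 41949) (nat_lit 19) (node (nat_lit 5) (nat_lit 41891)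
  (nat_lit 20) (node (nat_lit 4) (nat_lit 41835) (nat_lit 21) (node (nat_lit 5) (nat_lit 41694)
  (nat_lit 22) (node (nat_lit 6) (nat_lit 41462) (nat_lit 23) nil nil) nil) nil) nil) nil) nil))
  nil) nil) (node (nat_lit 4) (nat_lit 39716) (nat_lit 15) (node (nat_lit 6) (nat_lit 40297)
  (nat_lit 16) nil (node (nat_lit 5) (nat_lit 39171) (nat_lit 16) nil nil)) (node (nat_lit 0)
  (nat_lit 40810) (nat_lit 15) nil nil))) (node (nat_lit 0) (nat_lit 41395) (nat_lit 14) nil nil))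
  (node (nat_lit 0) (nat_lit 42894) (nat_lit 13) (node (nat_lit 5) (nat_lit 43850) (nat_lit 14)
  nil (node (nat_lit 6) (nat_lit 41981) (nat_lit 14) nil nil)) nil)) (node (nat_lit 5) (nat_lit 0)
  (nat_lit 12) (node (nat_lit 4) (nat_lit 71036) (nat_lit 13) (node (nat_lit 6) (nat_lit 71770)
  (nat_lit 14) (node (nat_lit 4) (nat_lit 72355) (nat_lit 15) nil nil) nil) (node (nat_lit 0)
  (nat_lit 70236) (nat_lit 13) nil nil)) (node (nat_lit 0) (nat_lit 69009) (nat_lit 12) (node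
  (nat_lit 5) (nat_lit 70236) (nat_lit 13) (node (nat_lit 4) (nat_lit 71191) (nat_lit 14) nil nil)
  (node (nat_lit 4) (nat_lit 70236) (nat_lit 13) nil (node (nat_lit 6) (nat_lit 70236) (nat_lit
  13) nil nil))) nil))) (node (nat_lit 0) (nat_lit 67439) (nat_lit 11) (node (nat_lit 6) (nat_lit
  69009) (nat_lit 12) (node (nat_lit 4) (nat_lit 70236) (nat_lit 13) nil (node (nat_lit 5)
  (nat_lit 65354) (nat_lit 13) nil nil)) (node (nat_lit 5) (nat_lit 69009) (nat_lit 12) (node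
  (nat_lit 6) (nat_lit 67781) (nat_lit 13) nil nil) (node (nat_lit 4) (nat_lit 69650) (nat_lit 12)
  nil nil))) nil)) (node (nat_lit 0) (nat_lit 65426) (nat_lit 10) (node (nat_lit 6) (nat_lit
  67439) (nat_lit 11) (node (nat_lit 4) (nat_lit 69009) (nat_lit 12) nil (node (nat_lit 5)
  (nat_lit 69009) (nat_lit 12) (node (nat_lit 4) (nat_lit 63812) (nat_lit 13) nil nil) nil)) (node
  (nat_lit 5) (nat_lit 67439) (nat_lit 11) (node (nat_lit 6) (nat_lit 69009) (nat_lit 12) nil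
  (node (nat_lit 4) (nat_lit 69009) (nat_lit 12) nil nil)) (node (nat_lit 4) (nat_lit 68080)
  (nat_lit 11) (node (nat_lit 5) (nat_lit 69650) (nat_lit 12) nil (node (nat_lit 6) (nat_lit
  69650) (nat_lit 12) nil nil)) (node (nat_lit 0) (nat_lit 67439) (nat_lit 11) nil nil)))) nil))
  (node (nat_lit 0) (nat_lit 0) (nat_lit 9) (node (nat_lit 5) (nat_lit 61001) (nat_lit 10) (node
  (nat_lit 4) (nat_lit 65463) (nat_lit 11) nil (node (nat_lit 6) (nat_lit 63014) (nat_lit 11) nil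
  nil)) (node (nat_lit 6) (nat_lit 61001) (nat_lit 10) (node (nat_lit 5) (nat_lit 63014) (nat_lit
  11) (node (nat_lit 4) (nat_lit 67251) (nat_lit 12) (node (nat_lit 5) (nat_lit 58279) (nat_lit
  13) nil nil) nil) (node (nat_lit 4) (nat_lit 65463) (nat_lit 11) (node (nat_lit 5) (nat_lit
  67033) (nat_lit 12) nil nil) nil)) (node (nat_lit 4) (nat_lit 64859) (nat_lit 10) (node (nat_lit
  6) (nat_lit 66873) (nat_lit 11) (node (nat_lit 5) (nat_lit 63424) (nat_lit 12) (node (nat_lit 4)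
  (nat_lit 63245) (nat_lit 13) nil nil) nil) (node (nat_lit 5) (nat_lit 66873) (nat_lit 11) nil
  nil)) (node (nat_lit 0) (nat_lit 64859) (nat_lit 10) nil nil)))) nil)))

noncomputable def t201 : Tr :=
  (node (nat_lit 5) (nat_lit 0) (nat_lit 10) (node (nat_lit 6) (nat_lit 0) (nat_lit 11) (node
  (nat_lit 5) (nat_lit 0) (nat_lit 12) (node (nat_lit 4) (nat_lit 0) (nat_lit 13) (node (nat_lit
  6) (nat_lit 0) (nat_lit 14) (node (nat_lit 4) (nat_lit 0) (nat_lit 15) (node (nat_lit 5)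
  (nat_lit 0) (nat_lit 16) (node (nat_lit 6) (nat_lit 132159) (nat_lit 17) (node (nat_lit 4)
  (nat_lit 132603) (nat_lit 18) (node (nat_lit 6) (nat_lit 132948) (nat_lit 19) (node (nat_lit 5)
  (nat_lit 132729) (nat_lit 20) (node (nat_lit 6) (nat_lit 132810) (nat_lit 21) (node (nat_lit 4)
  (nat_lit 132916) (nat_lit 22) (node (nat_lit 5) (nat_lit 132696) (nat_lit 23) (node (nat_lit 6)
  (nat_lit 132504) (nat_lit 24) (node (nat_lit 5) (nat_lit 132224) (nat_lit 25) (node (nat_lit 4)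
  (nat_lit 131982) (nat_lit 26) (node (nat_lit 6) (nat_lit 130969) (nat_lit 27) (node (nat_lit 5)
  (nat_lit 130050) (nat_lit 28) nil nil) nil) nil) nil) nil) nil) nil) nil) nil) nil) (node
  (nat_lit 5) (nat_lit 132239) (nat_lit 18) nil nil)) (node (nat_lit 4) (nat_lit 132159) (nat_lit
  17) (node (nat_lit 6) (nat_lit 132603) (nat_lit 18) (node (nat_lit 5) (nat_lit 133065) (nat_lit
  19) (node (nat_lit 6) (nat_lit 133336) (nat_lit 20) (node (nat_lit 4) (nat_lit 133546) (nat_lit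
  21) nil nil) (node (nat_lit 4) (nat_lit 133336) (nat_lit 20) (node (nat_lit 5) (nat_lit 133546)
  (nat_lit 21) (node (nat_lit 6) (nat_lit 133712) (nat_lit 22) nil nil) nil) nil)) nil) nil) (node
  (nat_lit 0) (nat_lit 132159) (nat_lit 17) nil nil))) (node (nat_lit 0) (nat_lit 131210) (nat_lit
  16) nil nil)) (node (nat_lit 5) (nat_lit 0) (nat_lit 15) (node (nat_lit 0) (nat_lit 43650)
  (nat_lit 16) (node (nat_lit 5) (nat_lit 43962) (nat_lit 17) (node (nat_lit 6) (nat_lit 44247)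
  (nat_lit 18) (node (nat_lit 4) (nat_lit 44524) (nat_lit 19) nil nil) (node (nat_lit 4) (nat_lit
  44318) (nat_lit 18) (node (nat_lit 6) (nat_lit 44063) (nat_lit 19) nil nil) nil)) (node (nat_lit
  6) (nat_lit 44301) (nat_lit 17) (node (nat_lit 5) (nat_lit 44809) (nat_lit 18) nil nil) (node
  (nat_lit 4) (nat_lit 44570) (nat_lit 17) (node (nat_lit 6) (nat_lit 44247) (nat_lit 18) nil nil)
  nil))) nil) (node (nat_lit 0) (nat_lit 130482) (nat_lit 15) (node (nat_lit 4) (nat_lit 131210)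
  (nat_lit 16) (node (nat_lit 6) (nat_lit 130102) (nat_lit 17) nil (node (nat_lit 5) (nat_lit
  131780) (nat_lit 17) nil nil)) (node (nat_lit 6) (nat_lit 131210) (nat_lit 16) (node (nat_lit 5)
  (nat_lit 130752) (nat_lit 17) nil nil) (node (nat_lit 5) (nat_lit 131589) (nat_lit 16) (node
  (nat_lit 4) (nat_lit 131130) (nat_lit 17) nil (node (nat_lit 6) (nat_lit 130481) (nat_lit 17)
  nil nil)) nil))) nil))) (node (nat_lit 5) (nat_lit 0) (nat_lit 14) (node (nat_lit 6) (nat_lit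
  140696) (nat_lit 15) (node (nat_lit 4) (nat_lit 142792) (nat_lit 16) (node (nat_lit 6) (nat_lit
  144127) (nat_lit 17) (node (nat_lit 5) (nat_lit 145122) (nat_lit 18) (node (nat_lit 6) (nat_lit
  145934) (nat_lit 19) (node (nat_lit 4) (nat_lit 146802) (nat_lit 20) (node (nat_lit 5) (nat_lit
  147275) (nat_lit 21) (node (nat_lit 4) (nat_lit 147647) (nat_lit 22) (node (nat_lit 6) (nat_lit
  147773) (nat_lit 23) (node (nat_lit 4) (nat_lit 147536) (nat_lit 24) (node (nat_lit 5) (nat_lit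
  147465) (nat_lit 25) (node (nat_lit 6) (nat_lit 147303) (nat_lit 26) (node (nat_lit 5) (nat_lit
  147131) (nat_lit 27) (node (nat_lit 4) (nat_lit 147015) (nat_lit 28) nil nil) nil) nil) nil)
  (node (nat_lit 5) (nat_lit 147899) (nat_lit 24) nil nil)) nil) (node (nat_lit 6) (nat_lit
  147392) (nat_lit 22) (node (nat_lit 5) (nat_lit 147447) (nat_lit 23) (node (nat_lit 4) (nat_lit
  147577) (nat_lit 24) (node (nat_lit 6) (nat_lit 147711) (nat_lit 25) (node (nat_lit 5) (nat_lit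
  147846) (nat_lit 26) (node (nat_lit 6) (nat_lit 147953) (nat_lit 27) (node (nat_lit 4) (nat_lit
  148037) (nat_lit 28) nil nil) nil) nil) nil) nil) nil) nil)) nil) nil) (node (nat_lit 4)
  (nat_lit 146118) (nat_lit 19) (node (nat_lit 5) (nat_lit 144394) (nat_lit 20) (node (nat_lit 6)
  (nat_lit 143758) (nat_lit 21) (node (nat_lit 5) (nat_lit 143059) (nat_lit 22) (node (nat_lit 4)
  (nat_lit 142618) (nat_lit 23) (node (nat_lit 6) (nat_lit 140777) (nat_lit 24) (node (nat_lit 5)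
  (nat_lit 139405) (nat_lit 25) (node (nat_lit 6) (nat_lit 137996) (nat_lit 26) (node (nat_lit 4)
  (nat_lit 136211) (nat_lit 27) (node (nat_lit 5) (nat_lit 130427) (nat_lit 28) (node (nat_lit 6)
  (nat_lit 125428) (nat_lit 29) (node (nat_lit 5) (nat_lit 113568) (nat_lit 30) (node (nat_lit 4)
  (nat_lit 101001) (nat_lit 31) (node (nat_lit 5) (nat_lit 100683) (nat_lit 32) (node (nat_lit 6)
  (nat_lit 72524) (nat_lit 33) (node (nat_lit 4) (nat_lit 72532) (nat_lit 34) nil nil) nil) nil)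
  nil) nil) nil) nil) nil) nil) nil) nil) nil) nil) nil) nil) nil)) nil) (node (nat_lit 5)
  (nat_lit 144070) (nat_lit 17) (node (nat_lit 4) (nat_lit 144337) (nat_lit 18) (node (nat_lit 6)
  (nat_lit 143412) (nat_lit 19) nil nil) nil) nil)) nil) (node (nat_lit 0) (nat_lit 139645)
  (nat_lit 15) nil nil)) (node (nat_lit 0) (nat_lit 137820) (nat_lit 14) (node (nat_lit 5)
  (nat_lit 139529) (nat_lit 15) (node (nat_lit 4) (nat_lit 139960) (nat_lit 16) nil (node (nat_lit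
  6) (nat_lit 137544) (nat_lit 16) nil nil)) (node (nat_lit 4) (nat_lit 140447) (nat_lit 15) (node
  (nat_lit 6) (nat_lit 140392) (nat_lit 16) nil (node (nat_lit 5) (nat_lit 141757) (nat_lit 16)
  nil nil)) (node (nat_lit 6) (nat_lit 140313) (nat_lit 15) (node (nat_lit 4) (nat_lit 141623)
  (nat_lit 16) nil (node (nat_lit 5) (nat_lit 138123) (nat_lit 16) nil nil)) nil))) nil))) (node
  (nat_lit 0) (nat_lit 195324) (nat_lit 13) nil nil)) (node (nat_lit 0) (nat_lit 196102) (nat_lit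
  12) (node (nat_lit 6) (nat_lit 199498) (nat_lit 13) nil (node (nat_lit 5) (nat_lit 195962)
  (nat_lit 13) nil (node (nat_lit 4) (nat_lit 195962) (nat_lit 13) nil nil))) nil)) (node (nat_lit
  4) (nat_lit 0) (nat_lit 11) (node (nat_lit 6) (nat_lit 0) (nat_lit 12) (node (nat_lit 4)
  (nat_lit 202688) (nat_lit 13) (node (nat_lit 5) (nat_lit 203144) (nat_lit 14) (node (nat_lit 6)
  (nat_lit 204291) (nat_lit 15) (node (nat_lit 5) (nat_lit 204590) (nat_lit 16) (node (nat_lit 4)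
  (nat_lit 205129) (nat_lit 17) (node (nat_lit 6) (nat_lit 205485) (nat_lit 18) (node (nat_lit 5)
  (nat_lit 200852) (nat_lit 19) (node (nat_lit 6) (nat_lit 177827) (nat_lit 20) (node (nat_lit 4)
  (nat_lit 138156) (nat_lit 21) (node (nat_lit 5) (nat_lit 44937) (nat_lit 22) (node (nat_lit 6)
  (nat_lit 44842) (nat_lit 23) (node (nat_lit 5) (nat_lit 44825) (nat_lit 24) (node (nat_lit 4)
  (nat_lit 44859) (nat_lit 25) nil nil) nil) nil) nil) nil) nil) nil) (node (nat_lit 5) (nat_lit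
  201698) (nat_lit 18) (node (nat_lit 6) (nat_lit 200349) (nat_lit 19) nil nil) nil)) nil) nil)
  nil) nil) (node (nat_lit 5) (nat_lit 202138) (nat_lit 13) (node (nat_lit 4) (nat_lit 203857)
  (nat_lit 14) (node (nat_lit 5) (nat_lit 204605) (nat_lit 15) (node (nat_lit 6) (nat_lit 205186)
  (nat_lit 16) (node (nat_lit 5) (nat_lit 205642) (nat_lit 17) (node (nat_lit 4) (nat_lit 206241)
  (nat_lit 18) (node (nat_lit 6) (nat_lit 206667) (nat_lit 19) (node (nat_lit 5) (nat_lit 203123)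
  (nat_lit 20) (node (nat_lit 6) (nat_lit 161341) (nat_lit 21) (node (nat_lit 4) (nat_lit 157320)
  (nat_lit 22) (node (nat_lit 5) (nat_lit 121761) (nat_lit 23) (node (nat_lit 4) (nat_lit 120611)
  (nat_lit 24) (node (nat_lit 6) (nat_lit 120641) (nat_lit 25) nil nil) nil) nil) nil) nil) nil)
  nil) nil) nil) nil) nil) (node (nat_lit 6) (nat_lit 203094) (nat_lit 14) nil nil)) (node
  (nat_lit 0) (nat_lit 201813) (nat_lit 13) nil nil))) (node (nat_lit 0) (nat_lit 198566) (nat_lit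
  12) (node (nat_lit 5) (nat_lit 199793) (nat_lit 13) (node (nat_lit 4) (nat_lit 200749) (nat_lit
  14) nil nil) (node (nat_lit 4) (nat_lit 199793) (nat_lit 13) (node (nat_lit 6) (nat_lit 198880)
  (nat_lit 14) nil nil) (node (nat_lit 6) (nat_lit 197339) (nat_lit 13) nil nil))) nil)) (node
  (nat_lit 0) (nat_lit 195255) (nat_lit 11) (node (nat_lit 5) (nat_lit 195930) (nat_lit 12) (node
  (nat_lit 4) (nat_lit 197158) (nat_lit 13) (node (nat_lit 6) (nat_lit 196244) (nat_lit 14) nil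
  nil) (node (nat_lit 6) (nat_lit 197792) (nat_lit 13) (node (nat_lit 4) (nat_lit 198747) (nat_lit
  14) nil nil) nil)) (node (nat_lit 4) (nat_lit 197948) (nat_lit 12) (node (nat_lit 5) (nat_lit
  199176) (nat_lit 13) nil (node (nat_lit 6) (nat_lit 196721) (nat_lit 13) nil nil)) (node
  (nat_lit 6) (nat_lit 197671) (nat_lit 12) (node (nat_lit 5) (nat_lit 198450) (nat_lit 13) nil
  (node (nat_lit 4) (nat_lit 198899) (nat_lit 13) nil nil)) (node (nat_lit 0) (nat_lit 196825)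
  (nat_lit 12) nil nil)))) nil))) (node (nat_lit 6) (nat_lit 0) (nat_lit 10) (node (nat_lit 5)
  (nat_lit 0) (nat_lit 11) (node (nat_lit 4) (nat_lit 0) (nat_lit 12) (node (nat_lit 5) (nat_lit
  201150) (nat_lit 13) (node (nat_lit 6) (nat_lit 0) (nat_lit 14) (node (nat_lit 4) (nat_lit
  203344) (nat_lit 15) (node (nat_lit 6) (nat_lit 202810) (nat_lit 16) (node (nat_lit 5) (nat_lit
  202702) (nat_lit 17) (node (nat_lit 6) (nat_lit 203059) (nat_lit 18) (node (nat_lit 4) (nat_lit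
  203335) (nat_lit 19) (node (nat_lit 5) (nat_lit 203550) (nat_lit 20) (node (nat_lit 6) (nat_lit
  203395) (nat_lit 21) (node (nat_lit 5) (nat_lit 203368) (nat_lit 22) (node (nat_lit 4) (nat_lit
  203424) (nat_lit 23) (node (nat_lit 6) (nat_lit 203504) (nat_lit 24) (node (nat_lit 5) (nat_lit
  203567) (nat_lit 25) (node (nat_lit 6) (nat_lit 203616) (nat_lit 26) (node (nat_lit 4) (nat_lit
  203653) (nat_lit 27) (node (nat_lit 6) (nat_lit 203624) (nat_lit 28) (node (nat_lit 5) (nat_lit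
  203124) (nat_lit 29) (node (nat_lit 4) (nat_lit 192649) (nat_lit 30) (node (nat_lit 5) (nat_lit
  177401) (nat_lit 31) (node (nat_lit 6) (nat_lit 149269) (nat_lit 32) (node (nat_lit 4) (nat_lit
  117567) (nat_lit 33) (node (nat_lit 6) (nat_lit 70745) (nat_lit 34) (node (nat_lit 5) (nat_lit
  42200) (nat_lit 35) nil nil) nil) nil) nil) nil) nil) nil) nil) nil) nil) nil) nil) nil) nil)
  (node (nat_lit 4) (nat_lit 203720) (nat_lit 21) (node (nat_lit 6) (nat_lit 203597) (nat_lit 22)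
  (node (nat_lit 4) (nat_lit 203701) (nat_lit 23) (node (nat_lit 5) (nat_lit 203780) (nat_lit 24)
  (node (nat_lit 6) (nat_lit 203722) (nat_lit 25) (node (nat_lit 5) (nat_lit 203713) (nat_lit 26)
  (node (nat_lit 4) (nat_lit 203731) (nat_lit 27) nil nil) nil) nil) nil) nil) nil) nil)) nil)
  nil) nil) nil) (node (nat_lit 5) (nat_lit 203925) (nat_lit 16) (node (nat_lit 4) (nat_lit
  204381) (nat_lit 17) (node (nat_lit 6) (nat_lit 204057) (nat_lit 18) (node (nat_lit 4) (nat_lit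
  204334) (nat_lit 19) (node (nat_lit 5) (nat_lit 204549) (nat_lit 20) (node (nat_lit 6) (nat_lit
  204394) (nat_lit 21) (node (nat_lit 5) (nat_lit 204367) (nat_lit 22) (node (nat_lit 4) (nat_lit
  204423) (nat_lit 23) (node (nat_lit 6) (nat_lit 204502) (nat_lit 24) (node (nat_lit 5) (nat_lit
  204565) (nat_lit 25) (node (nat_lit 6) (nat_lit 204614) (nat_lit 26) (node (nat_lit 4) (nat_lit
  204652) (nat_lit 27) (node (nat_lit 6) (nat_lit 204622) (nat_lit 28) (node (nat_lit 5) (nat_lit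
  204617) (nat_lit 29) (node (nat_lit 4) (nat_lit 204627) (nat_lit 30) (node (nat_lit 5) (nat_lit
  192362) (nat_lit 31) (node (nat_lit 6) (nat_lit 163795) (nat_lit 32) (node (nat_lit 4) (nat_lit
  123549) (nat_lit 33) (node (nat_lit 5) (nat_lit 96360) (nat_lit 34) (node (nat_lit 4) (nat_lit
  43219) (nat_lit 35) nil nil) nil) nil) nil) nil) nil) nil) nil) nil) nil) nil) nil) nil) nil)
  nil) nil) (node (nat_lit 5) (nat_lit 203998) (nat_lit 19) (node (nat_lit 4) (nat_lit 204113)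
  (nat_lit 20) (node (nat_lit 5) (nat_lit 203695) (nat_lit 21) (node (nat_lit 6) (nat_lit 203066)
  (nat_lit 22) nil nil) nil) (node (nat_lit 6) (nat_lit 204213) (nat_lit 20) (node (nat_lit 4)
  (nat_lit 204382) (nat_lit 21) (node (nat_lit 5) (nat_lit 204514) (nat_lit 22) nil nil) nil)
  nil)) nil)) nil) nil) nil)) (node (nat_lit 5) (nat_lit 202973) (nat_lit 15) (node (nat_lit 4)
  (nat_lit 203695) (nat_lit 16) (node (nat_lit 6) (nat_lit 194064) (nat_lit 17) (node (nat_lit 5)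
  (nat_lit 144302) (nat_lit 18) (node (nat_lit 6) (nat_lit 130986) (nat_lit 19) (node (nat_lit 4)
  (nat_lit 130142) (nat_lit 20) (node (nat_lit 5) (nat_lit 129765) (nat_lit 21) (node (nat_lit 6)
  (nat_lit 129424) (nat_lit 22) (node (nat_lit 5) (nat_lit 128902) (nat_lit 23) nil nil) nil)
  (node (nat_lit 6) (nat_lit 130352) (nat_lit 21) nil nil)) nil) nil) (node (nat_lit 4) (nat_lit
  192995) (nat_lit 18) (node (nat_lit 5) (nat_lit 192585) (nat_lit 19) (node (nat_lit 6) (nat_lit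
  191769) (nat_lit 20) nil nil) nil) nil)) nil) nil) (node (nat_lit 0) (nat_lit 203344) (nat_lit
  15) nil nil))) nil) (node (nat_lit 6) (nat_lit 0) (nat_lit 13) (node (nat_lit 4) (nat_lit
  203413) (nat_lit 14) (node (nat_lit 5) (nat_lit 204160) (nat_lit 15) (node (nat_lit 6) (nat_lit
  203626) (nat_lit 16) (node (nat_lit 5) (nat_lit 203519) (nat_lit 17) (node (nat_lit 4) (nat_lit
  203685) (nat_lit 18) (node (nat_lit 6) (nat_lit 203961) (nat_lit 19) (node (nat_lit 5) (nat_lit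
  204176) (nat_lit 20) (node (nat_lit 6) (nat_lit 199767) (nat_lit 21) (node (nat_lit 4) (nat_lit
  175234) (nat_lit 22) (node (nat_lit 6) (nat_lit 94250) (nat_lit 23) (node (nat_lit 5) (nat_lit
  43024) (nat_lit 24) (node (nat_lit 4) (nat_lit 43058) (nat_lit 25) nil nil) nil) nil) nil) nil)
  nil) (node (nat_lit 5) (nat_lit 202929) (nat_lit 19) (node (nat_lit 6) (nat_lit 201842) (nat_lit
  20) nil nil) nil)) nil) nil) (node (nat_lit 4) (nat_lit 204742) (nat_lit 16) (node (nat_lit 6)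
  (nat_lit 204326) (nat_lit 17) (node (nat_lit 5) (nat_lit 204251) (nat_lit 18) (node (nat_lit 4)
  (nat_lit 204390) (nat_lit 19) (node (nat_lit 5) (nat_lit 203835) (nat_lit 20) (node (nat_lit 6)
  (nat_lit 202989) (nat_lit 21) nil nil) nil) nil) nil) nil) nil)) nil) (node (nat_lit 0) (nat_lit
  203413) (nat_lit 14) nil nil)) (node (nat_lit 0) (nat_lit 201150) (nat_lit 13) (node (nat_lit 5)
  (nat_lit 202106) (nat_lit 14) nil (node (nat_lit 4) (nat_lit 202106) (nat_lit 14) nil (node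
  (nat_lit 6) (nat_lit 200237) (nat_lit 14) nil nil))) nil))) (node (nat_lit 0) (nat_lit 198566)
  (nat_lit 12) (node (nat_lit 6) (nat_lit 200429) (nat_lit 13) (node (nat_lit 5) (nat_lit 200931)
  (nat_lit 14) nil (node (nat_lit 4) (nat_lit 201384) (nat_lit 14) nil nil)) (node (nat_lit 5)
  (nat_lit 199131) (nat_lit 13) (node (nat_lit 6) (nat_lit 200578) (nat_lit 14) (node (nat_lit 4)
  (nat_lit 201326) (nat_lit 15) nil nil) (node (nat_lit 4) (nat_lit 200087) (nat_lit 14) nil nil))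
  (node (nat_lit 4) (nat_lit 200669) (nat_lit 13) (node (nat_lit 6) (nat_lit 199756) (nat_lit 14)
  nil (node (nat_lit 5) (nat_lit 201625) (nat_lit 14) nil nil)) (node (nat_lit 0) (nat_lit 199793)
  (nat_lit 13) nil nil)))) nil)) (node (nat_lit 0) (nat_lit 195255) (nat_lit 11) (node (nat_lit 4)
  (nat_lit 197948) (nat_lit 12) (node (nat_lit 6) (nat_lit 200051) (nat_lit 13) (node (nat_lit 4)
  (nat_lit 201007) (nat_lit 14) (node (nat_lit 5) (nat_lit 201754) (nat_lit 15) (node (nat_lit 6)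
  (nat_lit 201220) (nat_lit 16) (node (nat_lit 5) (nat_lit 201113) (nat_lit 17) nil nil) nil) nil)
  nil) (node (nat_lit 5) (nat_lit 199176) (nat_lit 13) nil (node (nat_lit 14) (nat_lit 199176)
  (nat_lit 13) nil nil))) (node (nat_lit 6) (nat_lit 197671) (nat_lit 12) (node (nat_lit 5)
  (nat_lit 198450) (nat_lit 13) (node (nat_lit 4) (nat_lit 197944) (nat_lit 14) nil (node (nat_lit
  6) (nat_lit 199406) (nat_lit 14) nil nil)) (node (nat_lit 4) (nat_lit 199775) (nat_lit 13) nil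
  nil)) (node (nat_lit 5) (nat_lit 195930) (nat_lit 12) (node (nat_lit 6) (nat_lit 197792)
  (nat_lit 13) (node (nat_lit 4) (nat_lit 198747) (nat_lit 14) nil (node (nat_lit 5) (nat_lit
  195009) (nat_lit 14) nil nil)) (node (nat_lit 4) (nat_lit 197158) (nat_lit 13) (node (nat_lit 6)
  (nat_lit 196244) (nat_lit 14) nil nil) (node (nat_lit 14) (nat_lit 197158) (nat_lit 13) nil
  nil))) (node (nat_lit 0) (nat_lit 196825) (nat_lit 12) nil nil)))) nil)) (node (nat_lit 0)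
  (nat_lit 191042) (nat_lit 10) (node (nat_lit 5) (nat_lit 191857) (nat_lit 11) (node (nat_lit 6)
  (nat_lit 194274) (nat_lit 12) (node (nat_lit 4) (nat_lit 195502) (nat_lit 13) nil nil) (node
  (nat_lit 4) (nat_lit 194551) (nat_lit 12) (node (nat_lit 5) (nat_lit 195778) (nat_lit 13) nil
  nil) (node (nat_lit 13) (nat_lit 193426) (nat_lit 12) nil nil))) (node (nat_lit 6) (nat_lit
  194259) (nat_lit 11) (node (nat_lit 5) (nat_lit 195393) (nat_lit 12) (node (nat_lit 4) (nat_lit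
  195782) (nat_lit 13) nil (node (nat_lit 6) (nat_lit 196620) (nat_lit 13) nil nil)) (node
  (nat_lit 4) (nat_lit 196953) (nat_lit 12) (node (nat_lit 6) (nat_lit 195726) (nat_lit 13) nil
  nil) nil)) (node (nat_lit 4) (nat_lit 194494) (nat_lit 11) (node (nat_lit 6) (nat_lit 197187)
  (nat_lit 12) (node (nat_lit 4) (nat_lit 198414) (nat_lit 13) nil nil) (node (nat_lit 5) (nat_lit
  195169) (nat_lit 12) (node (nat_lit 6) (nat_lit 193941) (nat_lit 13) nil nil) nil)) (node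
  (nat_lit 0) (nat_lit 194494) (nat_lit 11) nil nil)))) nil)))

noncomputable def t202 : Tr :=
  (node (nat_lit 5) (nat_lit 0) (nat_lit 7) (node (nat_lit 6) (nat_lit 0) (nat_lit 8) (node
  (nat_lit 4) (nat_lit 0) (nat_lit 9) t201 (node (nat_lit 0) (nat_lit 0) (nat_lit 9) (node
  (nat_lit 5) (nat_lit 189445) (nat_lit 10) (node (nat_lit 6) (nat_lit 192051) (nat_lit 11) (node
  (nat_lit 4) (nat_lit 193620) (nat_lit 12) (node (nat_lit 5) (nat_lit 194848) (nat_lit 13) nil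
  nil) (node (nat_lit 5) (nat_lit 188454) (nat_lit 12) nil nil)) (node (nat_lit 4) (nat_lit
  192692) (nat_lit 11) (node (nat_lit 6) (nat_lit 191057) (nat_lit 12) nil (node (nat_lit 5)
  (nat_lit 194261) (nat_lit 12) nil nil)) nil)) (node (nat_lit 6) (nat_lit 188399) (nat_lit 10)
  (node (nat_lit 5) (nat_lit 189780) (nat_lit 11) (node (nat_lit 4) (nat_lit 191210) (nat_lit 12)
  (node (nat_lit 5) (nat_lit 188421) (nat_lit 13) (node (nat_lit 6) (nat_lit 170882) (nat_lit 14)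
  nil nil) nil) nil) (node (nat_lit 4) (nat_lit 192877) (nat_lit 11) nil nil)) (node (nat_lit 4)
  (nat_lit 192163) (nat_lit 10) (node (nat_lit 6) (nat_lit 195263) (nat_lit 11) (node (nat_lit 5)
  (nat_lit 196876) (nat_lit 12) nil (node (nat_lit 4) (nat_lit 196833) (nat_lit 12) nil nil))
  (node (nat_lit 5) (nat_lit 194176) (nat_lit 11) nil nil)) (node (nat_lit 0) (nat_lit 191042)
  (nat_lit 10) nil nil)))) nil)) nil) (node (nat_lit 4) (nat_lit 0) (nat_lit 7) (node (nat_lit 5)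
  (nat_lit 0) (nat_lit 8) (node (nat_lit 6) (nat_lit 0) (nat_lit 9) (node (nat_lit 5) (nat_lit 0)
  (nat_lit 10) (node (nat_lit 4) (nat_lit 0) (nat_lit 11) (node (nat_lit 5) (nat_lit 0) (nat_lit
  12) (node (nat_lit 6) (nat_lit 40238) (nat_lit 13) (node (nat_lit 4) (nat_lit 41957) (nat_lit
  14) (node (nat_lit 6) (nat_lit 42704) (nat_lit 15) (node (nat_lit 5) (nat_lit 43286) (nat_lit
  16) (node (nat_lit 4) (nat_lit 44104) (nat_lit 17) (node (nat_lit 5) (nat_lit 44461) (nat_lit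
  18) (node (nat_lit 6) (nat_lit 39389) (nat_lit 19) (node (nat_lit 5) (nat_lit 39008) (nat_lit
  20) (node (nat_lit 4) (nat_lit 36790) (nat_lit 21) (node (nat_lit 6) (nat_lit 35440) (nat_lit
  22) (node (nat_lit 4) (nat_lit 33693) (nat_lit 23) (node (nat_lit 5) (nat_lit 28022) (nat_lit
  24) (node (nat_lit 6) (nat_lit 23045) (nat_lit 25) (node (nat_lit 5) (nat_lit 11254) (nat_lit
  26) nil nil) nil) nil) nil) nil) nil) nil) nil) (node (nat_lit 6) (nat_lit 44461) (nat_lit 18)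
  (node (nat_lit 4) (nat_lit 44737) (nat_lit 19) (node (nat_lit 5) (nat_lit 44952) (nat_lit 20)
  (node (nat_lit 6) (nat_lit 44797) (nat_lit 21) (node (nat_lit 5) (nat_lit 44770) (nat_lit 22)
  (node (nat_lit 4) (nat_lit 44826) (nat_lit 23) (node (nat_lit 6) (nat_lit 44906) (nat_lit 24)
  nil nil) nil) nil) nil) nil) nil) nil)) (node (nat_lit 6) (nat_lit 43741) (nat_lit 17) (node
  (nat_lit 4) (nat_lit 44097) (nat_lit 18) (node (nat_lit 5) (nat_lit 44374) (nat_lit 19) (node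
  (nat_lit 6) (nat_lit 44173) (nat_lit 20) nil nil) nil) nil) nil)) nil) (node (nat_lit 5)
  (nat_lit 42704) (nat_lit 15) (node (nat_lit 4) (nat_lit 43555) (nat_lit 16) (node (nat_lit 6)
  (nat_lit 44011) (nat_lit 17) (node (nat_lit 4) (nat_lit 44367) (nat_lit 18) (node (nat_lit 5)
  (nat_lit 44644) (nat_lit 19) (node (nat_lit 6) (nat_lit 44443) (nat_lit 20) nil nil) nil) (node
  (nat_lit 5) (nat_lit 44367) (nat_lit 18) nil nil)) nil) nil) nil)) nil) (node (nat_lit 0)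
  (nat_lit 39809) (nat_lit 13) (node (nat_lit 4) (nat_lit 40764) (nat_lit 14) nil nil) nil)) (node
  (nat_lit 0) (nat_lit 37225) (nat_lit 12) (node (nat_lit 5) (nat_lit 37790) (nat_lit 13) (node
  (nat_lit 4) (nat_lit 39429) (nat_lit 14) nil (node (nat_lit 6) (nat_lit 39237) (nat_lit 14)
  (node (nat_lit 4) (nat_lit 39984) (nat_lit 15) nil nil) nil)) (node (nat_lit 4) (nat_lit 39328)
  (nat_lit 13) (node (nat_lit 6) (nat_lit 40968) (nat_lit 14) (node (nat_lit 4) (nat_lit 41715)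
  (nat_lit 15) nil nil) (node (nat_lit 5) (nat_lit 39785) (nat_lit 14) nil nil)) (node (nat_lit 6)
  (nat_lit 39087) (nat_lit 13) (node (nat_lit 5) (nat_lit 39589) (nat_lit 14) (node (nat_lit 4)
  (nat_lit 36206) (nat_lit 15) nil nil) (node (nat_lit 4) (nat_lit 40727) (nat_lit 14) nil nil))
  (node (nat_lit 0) (nat_lit 38452) (nat_lit 13) nil nil)))) nil)) (node (nat_lit 0) (nat_lit
  94033) (nat_lit 11) (node (nat_lit 5) (nat_lit 96675) (nat_lit 12) (node (nat_lit 4) (nat_lit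
  101442) (nat_lit 13) (node (nat_lit 5) (nat_lit 103594) (nat_lit 14) nil (node (nat_lit 6)
  (nat_lit 101726) (nat_lit 14) nil nil)) (node (nat_lit 6) (nat_lit 100070) (nat_lit 13) (node
  (nat_lit 4) (nat_lit 104357) (nat_lit 14) nil nil) (node (nat_lit 0) (nat_lit 99436) (nat_lit
  13) nil nil))) (node (nat_lit 4) (nat_lit 102024) (nat_lit 12) (node (nat_lit 6) (nat_lit
  105660) (nat_lit 13) (node (nat_lit 4) (nat_lit 102662) (nat_lit 14) (node (nat_lit 5) (nat_lit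
  103071) (nat_lit 15) (node (nat_lit 6) (nat_lit 100748) (nat_lit 16) nil nil) nil) nil) (node
  (nat_lit 5) (nat_lit 104784) (nat_lit 13) nil nil)) (node (nat_lit 6) (nat_lit 98416) (nat_lit
  12) (node (nat_lit 5) (nat_lit 100729) (nat_lit 13) (node (nat_lit 6) (nat_lit 103636) (nat_lit
  14) nil nil) (node (nat_lit 4) (nat_lit 101177) (nat_lit 13) nil (node (nat_lit 14) (nat_lit
  101177) (nat_lit 13) nil nil))) (node (nat_lit 0) (nat_lit 99410) (nat_lit 12) nil nil)))) nil))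
  (node (nat_lit 4) (nat_lit 0) (nat_lit 10) (node (nat_lit 6) (nat_lit 0) (nat_lit 11) (node
  (nat_lit 5) (nat_lit 0) (nat_lit 12) (node (nat_lit 4) (nat_lit 0) (nat_lit 13) (node (nat_lit
  5) (nat_lit 0) (nat_lit 14) (node (nat_lit 6) (nat_lit 141986) (nat_lit 15) (node (nat_lit 5)
  (nat_lit 142899) (nat_lit 16) (node (nat_lit 4) (nat_lit 144009) (nat_lit 17) (node (nat_lit 6)
  (nat_lit 145061) (nat_lit 18) (node (nat_lit 4) (nat_lit 135793) (nat_lit 19) (node (nat_lit 5)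
  (nat_lit 101281) (nat_lit 20) (node (nat_lit 6) (nat_lit 79094) (nat_lit 21) (node (nat_lit 4)
  (nat_lit 61015) (nat_lit 22) (node (nat_lit 6) (nat_lit 61144) (nat_lit 23) nil nil) (node
  (nat_lit 5) (nat_lit 78565) (nat_lit 22) (node (nat_lit 4) (nat_lit 76839) (nat_lit 23) nil nil)
  nil)) nil) nil) nil) nil) nil) (node (nat_lit 4) (nat_lit 0) (nat_lit 16) (node (nat_lit 5)
  (nat_lit 144885) (nat_lit 17) (node (nat_lit 4) (nat_lit 145876) (nat_lit 18) (node (nat_lit 6)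
  (nat_lit 146577) (nat_lit 19) (node (nat_lit 4) (nat_lit 147063) (nat_lit 20) (node (nat_lit 5)
  (nat_lit 147442) (nat_lit 21) (node (nat_lit 6) (nat_lit 147486) (nat_lit 22) (node (nat_lit 5)
  (nat_lit 147595) (nat_lit 23) (node (nat_lit 4) (nat_lit 147737) (nat_lit 24) (node (nat_lit 6)
  (nat_lit 147878) (nat_lit 25) nil nil) nil) nil) nil) nil) nil) nil) nil) (node (nat_lit 6)
  (nat_lit 143767) (nat_lit 17) nil (node (nat_lit 0) (nat_lit 144638) (nat_lit 17) nil nil)))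
  nil)) (node (nat_lit 0) (nat_lit 141631) (nat_lit 15) nil nil)) (node (nat_lit 6) (nat_lit 0)
  (nat_lit 14) (node (nat_lit 4) (nat_lit 142536) (nat_lit 15) (node (nat_lit 5) (nat_lit 143847)
  (nat_lit 16) (node (nat_lit 6) (nat_lit 144872) (nat_lit 17) (node (nat_lit 5) (nat_lit 145672)
  (nat_lit 18) (node (nat_lit 4) (nat_lit 146633) (nat_lit 19) (node (nat_lit 5) (nat_lit 146470)
  (nat_lit 20) (node (nat_lit 6) (nat_lit 146353) (nat_lit 21) nil nil) (node (nat_lit 6) (nat_lit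
  147119) (nat_lit 20) nil nil)) nil) nil) (node (nat_lit 4) (nat_lit 144872) (nat_lit 17) (node
  (nat_lit 6) (nat_lit 144992) (nat_lit 18) (node (nat_lit 5) (nat_lit 144650) (nat_lit 19) nil
  nil) nil) nil)) nil) (node (nat_lit 0) (nat_lit 142189) (nat_lit 15) nil nil)) (node (nat_lit 0)
  (nat_lit 140289) (nat_lit 14) nil nil))) (node (nat_lit 6) (nat_lit 137377) (nat_lit 13) (node
  (nat_lit 4) (nat_lit 139529) (nat_lit 14) (node (nat_lit 5) (nat_lit 141212) (nat_lit 15) (node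
  (nat_lit 4) (nat_lit 142522) (nat_lit 16) (node (nat_lit 6) (nat_lit 140998) (nat_lit 17) (node
  (nat_lit 5) (nat_lit 140564) (nat_lit 18) (node (nat_lit 4) (nat_lit 141048) (nat_lit 19) (node
  (nat_lit 5) (nat_lit 140765) (nat_lit 20) (node (nat_lit 6) (nat_lit 140168) (nat_lit 21) (node
  (nat_lit 5) (nat_lit 139963) (nat_lit 22) (node (nat_lit 4) (nat_lit 138237) (nat_lit 23) (node
  (nat_lit 6) (nat_lit 137148) (nat_lit 24) (node (nat_lit 4) (nat_lit 135989) (nat_lit 25) (node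
  (nat_lit 5) (nat_lit 135001) (nat_lit 26) (node (nat_lit 6) (nat_lit 130653) (nat_lit 27) (node
  (nat_lit 4) (nat_lit 128084) (nat_lit 28) (node (nat_lit 6) (nat_lit 120536) (nat_lit 29) (node
  (nat_lit 5) (nat_lit 110047) (nat_lit 30) (node (nat_lit 6) (nat_lit 99023) (nat_lit 31) (node
  (nat_lit 4) (nat_lit 72940) (nat_lit 32) (node (nat_lit 5) (nat_lit 60779) (nat_lit 33) (node
  (nat_lit 4) (nat_lit 60770) (nat_lit 34) nil nil) nil) nil) nil) nil) nil) nil) nil) nil) nil)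
  nil) nil) nil) nil) nil) nil) (node (nat_lit 4) (nat_lit 141608) (nat_lit 18) (node (nat_lit 5)
  (nat_lit 141198) (nat_lit 19) (node (nat_lit 6) (nat_lit 140431) (nat_lit 20) (node (nat_lit 5)
  (nat_lit 140215) (nat_lit 21) (node (nat_lit 4) (nat_lit 138193) (nat_lit 22) nil nil) nil) nil)
  nil) nil)) nil) (node (nat_lit 6) (nat_lit 141407) (nat_lit 16) (node (nat_lit 5) (nat_lit
  141869) (nat_lit 17) (node (nat_lit 4) (nat_lit 138553) (nat_lit 18) (node (nat_lit 6) (nat_lit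
  132877) (nat_lit 19) (node (nat_lit 4) (nat_lit 122797) (nat_lit 20) (node (nat_lit 5) (nat_lit
  107358) (nat_lit 21) (node (nat_lit 6) (nat_lit 44117) (nat_lit 22) (node (nat_lit 4) (nat_lit
  42457) (nat_lit 23) (node (nat_lit 6) (nat_lit 42381) (nat_lit 24) (node (nat_lit 5) (nat_lit
  42368) (nat_lit 25) nil nil) nil) nil) nil) nil) nil) nil) nil) nil) nil)) nil) nil) (node
  (nat_lit 0) (nat_lit 137261) (nat_lit 13) nil nil))) (node (nat_lit 0) (nat_lit 132481) (nat_lit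
  12) (node (nat_lit 4) (nat_lit 132341) (nat_lit 13) nil nil) nil)) (node (nat_lit 0) (nat_lit
  127204) (nat_lit 11) (node (nat_lit 4) (nat_lit 131863) (nat_lit 12) (node (nat_lit 5) (nat_lit
  134624) (nat_lit 13) nil (node (nat_lit 6) (nat_lit 133682) (nat_lit 13) nil nil)) (node
  (nat_lit 6) (nat_lit 131587) (nat_lit 12) nil (node (nat_lit 5) (nat_lit 126953) (nat_lit 12)
  nil nil))) nil)) (node (nat_lit 0) (nat_lit 122229) (nat_lit 10) (node (nat_lit 4) (nat_lit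
  127846) (nat_lit 11) (node (nat_lit 6) (nat_lit 132232) (nat_lit 12) (node (nat_lit 4) (nat_lit
  129045) (nat_lit 13) (node (nat_lit 5) (nat_lit 128430) (nat_lit 14) nil nil) (node (nat_lit 5)
  (nat_lit 127275) (nat_lit 13) nil nil)) (node (nat_lit 5) (nat_lit 130705) (nat_lit 12) nil
  nil)) (node (nat_lit 5) (nat_lit 125851) (nat_lit 11) (node (nat_lit 4) (nat_lit 130238)
  (nat_lit 12) (node (nat_lit 5) (nat_lit 132998) (nat_lit 13) nil nil) (node (nat_lit 6) (nat_lit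
  130026) (nat_lit 12) (node (nat_lit 4) (nat_lit 126839) (nat_lit 13) nil (node (nat_lit 5)
  (nat_lit 127970) (nat_lit 13) nil nil)) nil)) (node (nat_lit 6) (nat_lit 126207) (nat_lit 11)
  (node (nat_lit 5) (nat_lit 129308) (nat_lit 12) nil (node (nat_lit 4) (nat_lit 130868) (nat_lit
  12) nil nil)) (node (nat_lit 0) (nat_lit 127204) (nat_lit 11) nil nil)))) nil))) (node (nat_lit
  4) (nat_lit 0) (nat_lit 9) (node (nat_lit 6) (nat_lit 0) (nat_lit 10) (node (nat_lit 5) (nat_lit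
  0) (nat_lit 11) (node (nat_lit 6) (nat_lit 199735) (nat_lit 12) (node (nat_lit 4) (nat_lit
  202464) (nat_lit 13) (node (nat_lit 5) (nat_lit 203420) (nat_lit 14) (node (nat_lit 4) (nat_lit
  204167) (nat_lit 15) (node (nat_lit 6) (nat_lit 203633) (nat_lit 16) (node (nat_lit 4) (nat_lit
  204089) (nat_lit 17) (node (nat_lit 5) (nat_lit 204445) (nat_lit 18) (node (nat_lit 6) (nat_lit
  204190) (nat_lit 19) (node (nat_lit 5) (nat_lit 204142) (nat_lit 20) (node (nat_lit 4) (nat_lit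
  204235) (nat_lit 21) (node (nat_lit 6) (nat_lit 203873) (nat_lit 22) (node (nat_lit 4) (nat_lit
  200258) (nat_lit 23) (node (nat_lit 5) (nat_lit 195713) (nat_lit 24) (node (nat_lit 4) (nat_lit
  190793) (nat_lit 25) (node (nat_lit 6) (nat_lit 178988) (nat_lit 26) (node (nat_lit 5) (nat_lit
  164283) (nat_lit 27) (node (nat_lit 6) (nat_lit 135800) (nat_lit 28) (node (nat_lit 4) (nat_lit
  95577) (nat_lit 29) (node (nat_lit 5) (nat_lit 76207) (nat_lit 30) nil nil) nil) nil) nil) nil)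
  nil) nil) nil) nil) nil) nil) nil) nil) nil) nil) (node (nat_lit 6) (nat_lit 202727) (nat_lit
  15) (node (nat_lit 5) (nat_lit 202400) (nat_lit 16) (node (nat_lit 4) (nat_lit 194138) (nat_lit
  17) (node (nat_lit 6) (nat_lit 185569) (nat_lit 18) (node (nat_lit 4) (nat_lit 165806) (nat_lit
  19) (node (nat_lit 5) (nat_lit 141507) (nat_lit 20) (node (nat_lit 4) (nat_lit 109782) (nat_lit
  21) (node (nat_lit 6) (nat_lit 92380) (nat_lit 22) (node (nat_lit 5) (nat_lit 42283) (nat_lit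
  23) nil nil) nil) nil) nil) nil) (node (nat_lit 5) (nat_lit 193605) (nat_lit 18) (node (nat_lit
  6) (nat_lit 192666) (nat_lit 19) nil nil) nil)) nil) nil) nil)) (node (nat_lit 6) (nat_lit
  203420) (nat_lit 14) (node (nat_lit 5) (nat_lit 204167) (nat_lit 15) (node (nat_lit 4) (nat_lit
  205213) (nat_lit 16) (node (nat_lit 5) (nat_lit 200787) (nat_lit 17) (node (nat_lit 6) (nat_lit
  199338) (nat_lit 18) (node (nat_lit 5) (nat_lit 198975) (nat_lit 19) (node (nat_lit 4) (nat_lit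
  196459) (nat_lit 20) (node (nat_lit 6) (nat_lit 194777) (nat_lit 21) (node (nat_lit 4) (nat_lit
  189077) (nat_lit 22) (node (nat_lit 5) (nat_lit 182663) (nat_lit 23) (node (nat_lit 4) (nat_lit
  173648) (nat_lit 24) (node (nat_lit 6) (nat_lit 161341) (nat_lit 25) (node (nat_lit 5) (nat_lit
  141895) (nat_lit 26) (node (nat_lit 6) (nat_lit 118698) (nat_lit 27) (node (nat_lit 4) (nat_lit
  118722) (nat_lit 28) nil nil) nil) nil) nil) nil) nil) nil) nil) nil) nil) nil) (node (nat_lit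
  6) (nat_lit 205669) (nat_lit 17) (node (nat_lit 4) (nat_lit 206025) (nat_lit 18) (node (nat_lit
  5) (nat_lit 206302) (nat_lit 19) (node (nat_lit 6) (nat_lit 206101) (nat_lit 20) nil nil) nil)
  nil) nil)) nil) nil) nil)) nil) (node (nat_lit 4) (nat_lit 200585) (nat_lit 12) (node (nat_lit
  5) (nat_lit 201150) (nat_lit 13) (node (nat_lit 6) (nat_lit 202596) (nat_lit 14) (node (nat_lit
  4) (nat_lit 203344) (nat_lit 15) (node (nat_lit 6) (nat_lit 202810) (nat_lit 16) (node (nat_lit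
  5) (nat_lit 202702) (nat_lit 17) (node (nat_lit 6) (nat_lit 203059) (nat_lit 18) (node (nat_lit
  4) (nat_lit 203335) (nat_lit 19) (node (nat_lit 5) (nat_lit 203550) (nat_lit 20) (node (nat_lit
  6) (nat_lit 203395) (nat_lit 21) (node (nat_lit 5) (nat_lit 203368) (nat_lit 22) (node (nat_lit
  4) (nat_lit 203424) (nat_lit 23) nil nil) nil) nil) nil) nil) nil) nil) (node (nat_lit 5)
  (nat_lit 203925) (nat_lit 16) (node (nat_lit 4) (nat_lit 204381) (nat_lit 17) (node (nat_lit 6)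
  (nat_lit 204057) (nat_lit 18) (node (nat_lit 4) (nat_lit 204334) (nat_lit 19) (node (nat_lit 5)
  (nat_lit 204549) (nat_lit 20) (node (nat_lit 6) (nat_lit 204394) (nat_lit 21) (node (nat_lit 5)
  (nat_lit 204367) (nat_lit 22) nil nil) nil) nil) nil) nil) nil) nil)) (node (nat_lit 5) (nat_lit
  179020) (nat_lit 15) (node (nat_lit 4) (nat_lit 167543) (nat_lit 16) (node (nat_lit 6) (nat_lit
  161341) (nat_lit 17) (node (nat_lit 4) (nat_lit 121993) (nat_lit 18) (node (nat_lit 5) (nat_lit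
  121246) (nat_lit 19) (node (nat_lit 4) (nat_lit 121027) (nat_lit 20) (node (nat_lit 6) (nat_lit
  121109) (nat_lit 21) nil nil) (node (nat_lit 6) (nat_lit 120680) (nat_lit 20) nil nil)) nil)
  nil) nil) nil) nil)) nil) nil) (node (nat_lit 0) (nat_lit 199461) (nat_lit 12) nil nil))) (node
  (nat_lit 0) (nat_lit 195255) (nat_lit 11) (node (nat_lit 6) (nat_lit 197671) (nat_lit 12) nil
  (node (nat_lit 5) (nat_lit 196383) (nat_lit 12) nil (node (nat_lit 4) (nat_lit 196383) (nat_lit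
  12) nil nil))) nil)) (node (nat_lit 0) (nat_lit 188869) (nat_lit 10) (node (nat_lit 5) (nat_lit
  191857) (nat_lit 11) (node (nat_lit 6) (nat_lit 189454) (nat_lit 12) nil (node (nat_lit 4)
  (nat_lit 193426) (nat_lit 12) nil nil)) (node (nat_lit 6) (nat_lit 194259) (nat_lit 11) (node
  (nat_lit 4) (nat_lit 195829) (nat_lit 12) nil (node (nat_lit 5) (nat_lit 188198) (nat_lit 12)
  nil nil)) (node (nat_lit 4) (nat_lit 194494) (nat_lit 11) nil (node (nat_lit 0) (nat_lit 193055)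
  (nat_lit 11) nil nil)))) nil)) (node (nat_lit 0) (nat_lit 180011) (nat_lit 9) (node (nat_lit 4)
  (nat_lit 192163) (nat_lit 10) (node (nat_lit 6) (nat_lit 192322) (nat_lit 11) nil (node (nat_lit
  5) (nat_lit 194176) (nat_lit 11) nil nil)) (node (nat_lit 5) (nat_lit 186437) (nat_lit 10) (node
  (nat_lit 4) (nat_lit 191439) (nat_lit 11) nil (node (nat_lit 6) (nat_lit 192514) (nat_lit 11)
  nil nil)) (node (nat_lit 6) (nat_lit 186347) (nat_lit 10) (node (nat_lit 5) (nat_lit 191599)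
  (nat_lit 11) nil (node (nat_lit 4) (nat_lit 190877) (nat_lit 11) nil nil)) nil))) nil))) nil)
  nil))

noncomputable def t203 : Tr :=
  (node (nat_lit 6) (nat_lit 0) (nat_lit 9) (node (nat_lit 5) (nat_lit 0) (nat_lit 10) (node
  (nat_lit 6) (nat_lit 0) (nat_lit 11) (node (nat_lit 4) (nat_lit 0) (nat_lit 12) (node (nat_lit
  5) (nat_lit 0) (nat_lit 13) (node (nat_lit 4) (nat_lit 0) (nat_lit 14) (node (nat_lit 6)
  (nat_lit 0) (nat_lit 15) (node (nat_lit 4) (nat_lit 0) (nat_lit 16) (node (nat_lit 5) (nat_lit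
  136677) (nat_lit 17) (node (nat_lit 6) (nat_lit 137561) (nat_lit 18) (node (nat_lit 5) (nat_lit
  138250) (nat_lit 19) (node (nat_lit 4) (nat_lit 138786) (nat_lit 20) (node (nat_lit 5) (nat_lit
  139209) (nat_lit 21) (node (nat_lit 6) (nat_lit 139538) (nat_lit 22) (node (nat_lit 4) (nat_lit
  139793) (nat_lit 23) (node (nat_lit 6) (nat_lit 136289) (nat_lit 24) (node (nat_lit 5) (nat_lit
  121343) (nat_lit 25) (node (nat_lit 6) (nat_lit 92934) (nat_lit 26) (node (nat_lit 4) (nat_lit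
  61970) (nat_lit 27) (node (nat_lit 5) (nat_lit 37051) (nat_lit 28) nil nil) nil) nil) nil) nil)
  nil) nil) nil) nil) (node (nat_lit 4) (nat_lit 0) (nat_lit 19) (node (nat_lit 6) (nat_lit
  138521) (nat_lit 20) (node (nat_lit 5) (nat_lit 138347) (nat_lit 21) nil nil) (node (nat_lit 0)
  (nat_lit 138521) (nat_lit 20) nil nil)) nil)) nil) (node (nat_lit 0) (nat_lit 136113) (nat_lit
  17) nil nil)) (node (nat_lit 5) (nat_lit 0) (nat_lit 16) (node (nat_lit 4) (nat_lit 0) (nat_lit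
  17) (node (nat_lit 5) (nat_lit 0) (nat_lit 18) (node (nat_lit 6) (nat_lit 138250) (nat_lit 19)
  (node (nat_lit 4) (nat_lit 138521) (nat_lit 20) nil (node (nat_lit 5) (nat_lit 138521) (nat_lit
  20) (node (nat_lit 4) (nat_lit 138347) (nat_lit 21) nil nil) nil)) (node (nat_lit 0) (nat_lit
  137907) (nat_lit 19) nil nil)) (node (nat_lit 0) (nat_lit 137121) (nat_lit 18) nil nil)) (node
  (nat_lit 6) (nat_lit 0) (nat_lit 17) (node (nat_lit 4) (nat_lit 137561) (nat_lit 18) (node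
  (nat_lit 6) (nat_lit 137907) (nat_lit 19) nil nil) (node (nat_lit 0) (nat_lit 137121) (nat_lit
  18) nil nil)) (node (nat_lit 0) (nat_lit 135628) (nat_lit 17) (node (nat_lit 6) (nat_lit 136072)
  (nat_lit 18) nil (node (nat_lit 5) (nat_lit 135269) (nat_lit 18) nil nil)) nil))) (node (nat_lit
  0) (nat_lit 134200) (nat_lit 16) (node (nat_lit 6) (nat_lit 134767) (nat_lit 17) nil (node
  (nat_lit 4) (nat_lit 135020) (nat_lit 17) nil (node (nat_lit 5) (nat_lit 135084) (nat_lit 17)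
  nil nil))) nil))) (node (nat_lit 0) (nat_lit 132372) (nat_lit 15) (node (nat_lit 4) (nat_lit
  133411) (nat_lit 16) (node (nat_lit 6) (nat_lit 132302) (nat_lit 17) nil (node (nat_lit 5)
  (nat_lit 133981) (nat_lit 17) nil nil)) (node (nat_lit 5) (nat_lit 133554) (nat_lit 16) nil
  (node (nat_lit 6) (nat_lit 133098) (nat_lit 16) nil nil))) nil)) (node (nat_lit 6) (nat_lit 0)
  (nat_lit 14) (node (nat_lit 5) (nat_lit 0) (nat_lit 15) (node (nat_lit 4) (nat_lit 0) (nat_lit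
  16) (node (nat_lit 6) (nat_lit 136677) (nat_lit 17) (node (nat_lit 4) (nat_lit 137561) (nat_lit
  18) (node (nat_lit 5) (nat_lit 138250) (nat_lit 19) (node (nat_lit 6) (nat_lit 138786) (nat_lit
  20) (node (nat_lit 4) (nat_lit 138997) (nat_lit 21) nil nil) nil) nil) (node (nat_lit 5)
  (nat_lit 136834) (nat_lit 18) (node (nat_lit 6) (nat_lit 136163) (nat_lit 19) (node (nat_lit 4)
  (nat_lit 136335) (nat_lit 20) (node (nat_lit 5) (nat_lit 135982) (nat_lit 21) nil nil) nil) nil)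
  nil)) (node (nat_lit 5) (nat_lit 113680) (nat_lit 17) (node (nat_lit 6) (nat_lit 106681)
  (nat_lit 18) (node (nat_lit 4) (nat_lit 84887) (nat_lit 19) (node (nat_lit 5) (nat_lit 85423)
  (nat_lit 20) (node (nat_lit 4) (nat_lit 85249) (nat_lit 21) nil nil) nil) nil) nil) (node
  (nat_lit 0) (nat_lit 136113) (nat_lit 17) nil nil))) (node (nat_lit 0) (nat_lit 134169) (nat_lit
  16) (node (nat_lit 6) (nat_lit 134735) (nat_lit 17) (node (nat_lit 5) (nat_lit 134375) (nat_lit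
  18) nil nil) (node (nat_lit 5) (nat_lit 135099) (nat_lit 17) nil (node (nat_lit 4) (nat_lit
  134988) (nat_lit 17) nil nil))) nil)) (node (nat_lit 0) (nat_lit 132342) (nat_lit 15) (node
  (nat_lit 6) (nat_lit 133067) (nat_lit 16) (node (nat_lit 4) (nat_lit 134201) (nat_lit 17) nil
  (node (nat_lit 5) (nat_lit 133998) (nat_lit 17) (node (nat_lit 4) (nat_lit 133638) (nat_lit 18)
  nil nil) nil)) (node (nat_lit 4) (nat_lit 133380) (nat_lit 16) (node (nat_lit 6) (nat_lit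
  132272) (nat_lit 17) (node (nat_lit 4) (nat_lit 132525) (nat_lit 18) nil nil) (node (nat_lit 5)
  (nat_lit 133950) (nat_lit 17) nil nil)) (node (nat_lit 5) (nat_lit 133524) (nat_lit 16) (node
  (nat_lit 6) (nat_lit 132416) (nat_lit 17) nil (node (nat_lit 4) (nat_lit 133065) (nat_lit 17)
  nil nil)) nil))) nil)) (node (nat_lit 0) (nat_lit 131957) (nat_lit 14) (node (nat_lit 5)
  (nat_lit 133817) (nat_lit 15) (node (nat_lit 6) (nat_lit 135269) (nat_lit 16) (node (nat_lit 4)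
  (nat_lit 134143) (nat_lit 17) nil nil) (node (nat_lit 4) (nat_lit 135269) (nat_lit 16) nil nil))
  (node (nat_lit 4) (nat_lit 133484) (nat_lit 15) (node (nat_lit 6) (nat_lit 132191) (nat_lit 16)
  (node (nat_lit 4) (nat_lit 130307) (nat_lit 17) (node (nat_lit 5) (nat_lit 129467) (nat_lit 18)
  nil nil) nil) (node (nat_lit 5) (nat_lit 134789) (nat_lit 16) nil nil)) (node (nat_lit 6)
  (nat_lit 133129) (nat_lit 15) (node (nat_lit 4) (nat_lit 133858) (nat_lit 16) nil (node (nat_lit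
  5) (nat_lit 134068) (nat_lit 16) (node (nat_lit 6) (nat_lit 132960) (nat_lit 17) nil nil) nil))
  (node (nat_lit 0) (nat_lit 132892) (nat_lit 15) nil nil)))) nil))) (node (nat_lit 0) (nat_lit
  129816) (nat_lit 13) (node (nat_lit 5) (nat_lit 132201) (nat_lit 14) (node (nat_lit 4) (nat_lit
  134060) (nat_lit 15) (node (nat_lit 5) (nat_lit 134789) (nat_lit 16) nil nil) (node (nat_lit 6)
  (nat_lit 134060) (nat_lit 15) (node (nat_lit 4) (nat_lit 131584) (nat_lit 16) (node (nat_lit 5)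
  (nat_lit 130541) (nat_lit 17) nil nil) nil) nil)) (node (nat_lit 4) (nat_lit 132201) (nat_lit
  14) (node (nat_lit 6) (nat_lit 133129) (nat_lit 15) (node (nat_lit 4) (nat_lit 131667) (nat_lit
  16) (node (nat_lit 5) (nat_lit 127420) (nat_lit 17) nil nil) nil) (node (nat_lit 5) (nat_lit
  134060) (nat_lit 15) (node (nat_lit 6) (nat_lit 134789) (nat_lit 16) nil nil) nil)) (node
  (nat_lit 6) (nat_lit 132201) (nat_lit 14) (node (nat_lit 4) (nat_lit 134060) (nat_lit 15) (node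
  (nat_lit 6) (nat_lit 134789) (nat_lit 16) nil nil) (node (nat_lit 5) (nat_lit 132501) (nat_lit
  15) (node (nat_lit 4) (nat_lit 131910) (nat_lit 16) nil nil) nil)) (node (nat_lit 0) (nat_lit
  131013) (nat_lit 14) nil nil)))) nil)) (node (nat_lit 0) (nat_lit 126221) (nat_lit 12) (node
  (nat_lit 5) (nat_lit 129272) (nat_lit 13) (node (nat_lit 6) (nat_lit 131657) (nat_lit 14) (node
  (nat_lit 4) (nat_lit 134060) (nat_lit 15) (node (nat_lit 5) (nat_lit 132711) (nat_lit 16) (node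
  (nat_lit 6) (nat_lit 131300) (nat_lit 17) (node (nat_lit 5) (nat_lit 123029) (nat_lit 18) nil
  nil) nil) (node (nat_lit 6) (nat_lit 134789) (nat_lit 16) nil nil)) (node (nat_lit 5) (nat_lit
  133516) (nat_lit 15) (node (nat_lit 4) (nat_lit 132925) (nat_lit 16) (node (nat_lit 5) (nat_lit
  133495) (nat_lit 17) nil nil) (node (nat_lit 15) (nat_lit 134245) (nat_lit 16) nil nil)) nil))
  (node (nat_lit 4) (nat_lit 131657) (nat_lit 14) (node (nat_lit 6) (nat_lit 129731) (nat_lit 15)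
  (node (nat_lit 4) (nat_lit 130116) (nat_lit 16) (node (nat_lit 5) (nat_lit 129073) (nat_lit 17)
  (node (nat_lit 6) (nat_lit 129543) (nat_lit 18) nil nil) nil) nil) (node (nat_lit 5) (nat_lit
  132592) (nat_lit 15) nil nil)) (node (nat_lit 15) (nat_lit 130639) (nat_lit 14) nil nil))) (node
  (nat_lit 6) (nat_lit 129272) (nat_lit 13) (node (nat_lit 5) (nat_lit 131657) (nat_lit 14) (node
  (nat_lit 4) (nat_lit 133516) (nat_lit 15) (node (nat_lit 5) (nat_lit 134245) (nat_lit 16) (node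
  (nat_lit 6) (nat_lit 134814) (nat_lit 17) nil nil) nil) (node (nat_lit 6) (nat_lit 131423)
  (nat_lit 15) (node (nat_lit 4) (nat_lit 128947) (nat_lit 16) nil nil) (node (nat_lit 15)
  (nat_lit 132592) (nat_lit 15) nil nil))) (node (nat_lit 4) (nat_lit 131657) (nat_lit 14) (node
  (nat_lit 5) (nat_lit 133516) (nat_lit 15) nil (node (nat_lit 6) (nat_lit 132592) (nat_lit 15)
  nil nil)) (node (nat_lit 0) (nat_lit 130469) (nat_lit 14) nil nil))) (node (nat_lit 4) (nat_lit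
  129846) (nat_lit 13) (node (nat_lit 6) (nat_lit 132231) (nat_lit 14) (node (nat_lit 4) (nat_lit
  130458) (nat_lit 15) (node (nat_lit 5) (nat_lit 125180) (nat_lit 16) (node (nat_lit 6) (nat_lit
  125809) (nat_lit 17) (node (nat_lit 5) (nat_lit 123485) (nat_lit 18) (node (nat_lit 4) (nat_lit
  119397) (nat_lit 19) nil nil) nil) nil) nil) (node (nat_lit 5) (nat_lit 131464) (nat_lit 15) nil
  nil)) (node (nat_lit 5) (nat_lit 132231) (nat_lit 14) (node (nat_lit 6) (nat_lit 134090)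
  (nat_lit 15) nil (node (nat_lit 4) (nat_lit 131464) (nat_lit 15) nil nil)) (node (nat_lit 15)
  (nat_lit 131043) (nat_lit 14) nil nil))) (node (nat_lit 0) (nat_lit 126938) (nat_lit 13) (node
  (nat_lit 6) (nat_lit 128136) (nat_lit 14) nil nil) nil)))) nil)) (node (nat_lit 4) (nat_lit 0)
  (nat_lit 11) (node (nat_lit 6) (nat_lit 0) (nat_lit 12) (node (nat_lit 4) (nat_lit 0) (nat_lit
  13) (node (nat_lit 5) (nat_lit 0) (nat_lit 14) (node (nat_lit 6) (nat_lit 0) (nat_lit 15) (node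
  (nat_lit 5) (nat_lit 135543) (nat_lit 16) (node (nat_lit 4) (nat_lit 136677) (nat_lit 17) (node
  (nat_lit 5) (nat_lit 137561) (nat_lit 18) (node (nat_lit 6) (nat_lit 127731) (nat_lit 19) (node
  (nat_lit 4) (nat_lit 109817) (nat_lit 20) (node (nat_lit 6) (nat_lit 45028) (nat_lit 21) (node
  (nat_lit 5) (nat_lit 40353) (nat_lit 22) nil nil) nil) nil) nil) (node (nat_lit 6) (nat_lit
  137117) (nat_lit 18) nil nil)) nil) (node (nat_lit 4) (nat_lit 135543) (nat_lit 16) (node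
  (nat_lit 6) (nat_lit 136110) (nat_lit 17) (node (nat_lit 5) (nat_lit 135750) (nat_lit 18) (node
  (nat_lit 6) (nat_lit 135883) (nat_lit 19) (node (nat_lit 4) (nat_lit 136055) (nat_lit 20) (node
  (nat_lit 5) (nat_lit 135702) (nat_lit 21) nil nil) nil) (node (nat_lit 4) (nat_lit 135467)
  (nat_lit 19) nil nil)) nil) nil) (node (nat_lit 0) (nat_lit 134819) (nat_lit 16) nil nil)))
  (node (nat_lit 4) (nat_lit 134090) (nat_lit 15) (node (nat_lit 6) (nat_lit 134816) (nat_lit 16)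
  (node (nat_lit 5) (nat_lit 135746) (nat_lit 17) (node (nat_lit 4) (nat_lit 136190) (nat_lit 18)
  (node (nat_lit 5) (nat_lit 136536) (nat_lit 19) (node (nat_lit 6) (nat_lit 136807) (nat_lit 20)
  (node (nat_lit 5) (nat_lit 137017) (nat_lit 21) (node (nat_lit 4) (nat_lit 136883) (nat_lit 22)
  nil nil) nil) nil) nil) (node (nat_lit 6) (nat_lit 136377) (nat_lit 18) (node (nat_lit 4)
  (nat_lit 136932) (nat_lit 19) nil nil) nil)) nil) nil) (node (nat_lit 0) (nat_lit 133167)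
  (nat_lit 15) nil nil))) (node (nat_lit 0) (nat_lit 130013) (nat_lit 14) (node (nat_lit 6)
  (nat_lit 130942) (nat_lit 15) (node (nat_lit 4) (nat_lit 131671) (nat_lit 16) nil nil) (node
  (nat_lit 4) (nat_lit 131331) (nat_lit 15) nil (node (nat_lit 5) (nat_lit 131515) (nat_lit 15)
  nil nil))) nil)) (node (nat_lit 0) (nat_lit 126861) (nat_lit 13) (node (nat_lit 6) (nat_lit
  128044) (nat_lit 14) (node (nat_lit 5) (nat_lit 127277) (nat_lit 15) nil (node (nat_lit 4)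
  (nat_lit 128980) (nat_lit 15) nil nil)) (node (nat_lit 4) (nat_lit 128519) (nat_lit 14) (node
  (nat_lit 6) (nat_lit 126593) (nat_lit 15) nil nil) (node (nat_lit 5) (nat_lit 128726) (nat_lit
  14) (node (nat_lit 6) (nat_lit 126832) (nat_lit 15) nil nil) nil))) nil)) (node (nat_lit 5)
  (nat_lit 0) (nat_lit 12) (node (nat_lit 6) (nat_lit 0) (nat_lit 13) (node (nat_lit 5) (nat_lit
  132084) (nat_lit 14) (node (nat_lit 4) (nat_lit 133943) (nat_lit 15) (node (nat_lit 6) (nat_lit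
  134668) (nat_lit 16) (node (nat_lit 4) (nat_lit 135804) (nat_lit 17) (node (nat_lit 5) (nat_lit
  136687) (nat_lit 18) (node (nat_lit 6) (nat_lit 137376) (nat_lit 19) nil nil) nil) (node
  (nat_lit 5) (nat_lit 134210) (nat_lit 17) (node (nat_lit 6) (nat_lit 134380) (nat_lit 18) nil
  nil) nil)) nil) nil) (node (nat_lit 0) (nat_lit 130896) (nat_lit 14) nil nil)) (node (nat_lit 0)
  (nat_lit 126822) (nat_lit 13) (node (nat_lit 6) (nat_lit 128005) (nat_lit 14) nil (node (nat_lit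
  5) (nat_lit 125809) (nat_lit 14) nil (node (nat_lit 4) (nat_lit 125809) (nat_lit 14) nil nil)))
  nil)) (node (nat_lit 0) (nat_lit 124641) (nat_lit 12) (node (nat_lit 5) (nat_lit 127067)
  (nat_lit 13) (node (nat_lit 4) (nat_lit 126054) (nat_lit 14) nil nil) (node (nat_lit 6) (nat_lit
  126134) (nat_lit 13) (node (nat_lit 4) (nat_lit 127331) (nat_lit 14) nil (node (nat_lit 5)
  (nat_lit 125121) (nat_lit 14) nil nil)) (node (nat_lit 4) (nat_lit 127693) (nat_lit 13) (node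
  (nat_lit 5) (nat_lit 130076) (nat_lit 14) nil (node (nat_lit 6) (nat_lit 125152) (nat_lit 14)
  nil nil)) nil))) nil))) (node (nat_lit 0) (nat_lit 122306) (nat_lit 11) (node (nat_lit 5)
  (nat_lit 126221) (nat_lit 12) (node (nat_lit 6) (nat_lit 128960) (nat_lit 13) (node (nat_lit 4)
  (nat_lit 127205) (nat_lit 14) (node (nat_lit 5) (nat_lit 121726) (nat_lit 15) nil nil) nil)
  (node (nat_lit 4) (nat_lit 129272) (nat_lit 13) (node (nat_lit 6) (nat_lit 126731) (nat_lit 14)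
  nil nil) nil)) (node (nat_lit 4) (nat_lit 126687) (nat_lit 12) (node (nat_lit 6) (nat_lit
  127012) (nat_lit 13) (node (nat_lit 4) (nat_lit 124945) (nat_lit 14) (node (nat_lit 5) (nat_lit
  119467) (nat_lit 15) nil nil) nil) (node (nat_lit 5) (nat_lit 129683) (nat_lit 13) (node
  (nat_lit 6) (nat_lit 130880) (nat_lit 14) nil nil) nil)) (node (nat_lit 6) (nat_lit 126221)
  (nat_lit 12) (node (nat_lit 5) (nat_lit 129272) (nat_lit 13) (node (nat_lit 6) (nat_lit 128258)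
  (nat_lit 14) (node (nat_lit 4) (nat_lit 125063) (nat_lit 15) nil nil) (node (nat_lit 4) (nat_lit
  128259) (nat_lit 14) nil nil)) (node (nat_lit 4) (nat_lit 129272) (nat_lit 13) nil (node
  (nat_lit 14) (nat_lit 127755) (nat_lit 13) nil nil))) (node (nat_lit 0) (nat_lit 124272)
  (nat_lit 12) nil nil)))) nil))) (node (nat_lit 0) (nat_lit 117296) (nat_lit 10) (node (nat_lit
  4) (nat_lit 121935) (nat_lit 11) (node (nat_lit 6) (nat_lit 123732) (nat_lit 12) (node (nat_lit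
  4) (nat_lit 125325) (nat_lit 13) (node (nat_lit 5) (nat_lit 123527) (nat_lit 14) (node (nat_lit
  6) (nat_lit 122612) (nat_lit 15) (node (nat_lit 5) (nat_lit 117508) (nat_lit 16) (node (nat_lit
  4) (nat_lit 99118) (nat_lit 17) (node (nat_lit 5) (nat_lit 89291) (nat_lit 18) (node (nat_lit 6)
  (nat_lit 69732) (nat_lit 19) (node (nat_lit 4) (nat_lit 50908) (nat_lit 20) (node (nat_lit 6)
  (nat_lit 18253) (nat_lit 21) nil nil) nil) nil) nil) nil) nil) nil) nil) nil) (node (nat_lit 5)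
  (nat_lit 123902) (nat_lit 12) nil nil)) (node (nat_lit 5) (nat_lit 122306) (nat_lit 11) (node
  (nat_lit 6) (nat_lit 121028) (nat_lit 12) nil (node (nat_lit 4) (nat_lit 120485) (nat_lit 12)
  nil nil)) (node (nat_lit 6) (nat_lit 122306) (nat_lit 11) nil (node (nat_lit 0) (nat_lit 119812)
  (nat_lit 11) nil nil)))) nil)) (node (nat_lit 5) (nat_lit 0) (nat_lit 9) (node (nat_lit 4)
  (nat_lit 0) (nat_lit 10) (node (nat_lit 6) (nat_lit 0) (nat_lit 11) (node (nat_lit 5) (nat_lit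
  0) (nat_lit 12) (node (nat_lit 6) (nat_lit 0) (nat_lit 13) (node (nat_lit 4) (nat_lit 0)
  (nat_lit 14) (node (nat_lit 6) (nat_lit 133248) (nat_lit 15) (node (nat_lit 5) (nat_lit 134701)
  (nat_lit 16) (node (nat_lit 4) (nat_lit 135835) (nat_lit 17) (node (nat_lit 5) (nat_lit 136719)
  (nat_lit 18) (node (nat_lit 6) (nat_lit 137065) (nat_lit 19) (node (nat_lit 4) (nat_lit 137336)
  (nat_lit 20) nil (node (nat_lit 5) (nat_lit 137336) (nat_lit 20) (node (nat_lit 4) (nat_lit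
  137162) (nat_lit 21) nil nil) nil)) nil) (node (nat_lit 6) (nat_lit 134977) (nat_lit 18) (node
  (nat_lit 4) (nat_lit 135185) (nat_lit 19) (node (nat_lit 5) (nat_lit 134715) (nat_lit 20) (node
  (nat_lit 6) (nat_lit 134651) (nat_lit 21) (node (nat_lit 5) (nat_lit 133484) (nat_lit 22) (node
  (nat_lit 4) (nat_lit 132285) (nat_lit 23) (node (nat_lit 5) (nat_lit 131258) (nat_lit 24) nil
  nil) nil) nil) nil) nil) nil) nil)) nil) nil) (node (nat_lit 5) (nat_lit 133248) (nat_lit 15)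
  (node (nat_lit 6) (nat_lit 134701) (nat_lit 16) (node (nat_lit 5) (nat_lit 135835) (nat_lit 17)
  (node (nat_lit 4) (nat_lit 136719) (nat_lit 18) (node (nat_lit 5) (nat_lit 136027) (nat_lit 19)
  (node (nat_lit 6) (nat_lit 127466) (nat_lit 20) (node (nat_lit 4) (nat_lit 110556) (nat_lit 21)
  (node (nat_lit 5) (nat_lit 70041) (nat_lit 22) (node (nat_lit 4) (nat_lit 61022) (nat_lit 23)
  (node (nat_lit 6) (nat_lit 35242) (nat_lit 24) nil nil) nil) nil) nil) nil) nil) nil) nil) nil)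
  (node (nat_lit 0) (nat_lit 132325) (nat_lit 15) nil nil))) (node (nat_lit 0) (nat_lit 129987)
  (nat_lit 14) nil nil)) (node (nat_lit 4) (nat_lit 0) (nat_lit 13) (node (nat_lit 5) (nat_lit 0)
  (nat_lit 14) (node (nat_lit 6) (nat_lit 133925) (nat_lit 15) (node (nat_lit 4) (nat_lit 135377)
  (nat_lit 16) (node (nat_lit 6) (nat_lit 135944) (nat_lit 17) (node (nat_lit 5) (nat_lit 135584)
  (nat_lit 18) (node (nat_lit 4) (nat_lit 135301) (nat_lit 19) nil nil) nil) nil) (node (nat_lit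
  5) (nat_lit 135377) (nat_lit 16) (node (nat_lit 4) (nat_lit 136511) (nat_lit 17) (node (nat_lit
  6) (nat_lit 136952) (nat_lit 18) (node (nat_lit 4) (nat_lit 135857) (nat_lit 19) nil nil) nil)
  nil) nil)) (node (nat_lit 0) (nat_lit 133001) (nat_lit 15) nil nil)) (node (nat_lit 0) (nat_lit
  129848) (nat_lit 14) (node (nat_lit 5) (nat_lit 129080) (nat_lit 15) nil (node (nat_lit 6)
  (nat_lit 130783) (nat_lit 15) nil nil)) nil)) (node (nat_lit 0) (nat_lit 126376) (nat_lit 13)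
  (node (nat_lit 4) (nat_lit 128033) (nat_lit 14) nil (node (nat_lit 6) (nat_lit 127573) (nat_lit
  14) nil nil)) nil))) (node (nat_lit 4) (nat_lit 0) (nat_lit 12) (node (nat_lit 5) (nat_lit
  129287) (nat_lit 13) (node (nat_lit 6) (nat_lit 131672) (nat_lit 14) (node (nat_lit 5) (nat_lit
  133531) (nat_lit 15) (node (nat_lit 4) (nat_lit 133157) (nat_lit 16) (node (nat_lit 6) (nat_lit
  132049) (nat_lit 17) (node (nat_lit 5) (nat_lit 131689) (nat_lit 18) (node (nat_lit 6) (nat_lit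
  131822) (nat_lit 19) (node (nat_lit 4) (nat_lit 131994) (nat_lit 20) (node (nat_lit 5) (nat_lit
  131641) (nat_lit 21) (node (nat_lit 6) (nat_lit 131617) (nat_lit 22) (node (nat_lit 5) (nat_lit
  130714) (nat_lit 23) nil nil) nil) nil) nil) nil) nil) (node (nat_lit 5) (nat_lit 121125)
  (nat_lit 17) (node (nat_lit 6) (nat_lit 109139) (nat_lit 18) (node (nat_lit 4) (nat_lit 62664)
  (nat_lit 19) (node (nat_lit 5) (nat_lit 39706) (nat_lit 20) nil nil) nil) nil) nil)) nil) (node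
  (nat_lit 4) (nat_lit 132607) (nat_lit 15) nil nil)) nil) (node (nat_lit 0) (nat_lit 127770)
  (nat_lit 13) nil nil)) (node (nat_lit 0) (nat_lit 123065) (nat_lit 12) (node (nat_lit 4)
  (nat_lit 125588) (nat_lit 13) (node (nat_lit 6) (nat_lit 123047) (nat_lit 14) nil (node (nat_lit
  5) (nat_lit 126786) (nat_lit 14) nil nil)) (node (nat_lit 5) (nat_lit 125489) (nat_lit 13) (node
  (nat_lit 6) (nat_lit 122948) (nat_lit 14) nil (node (nat_lit 4) (nat_lit 124477) (nat_lit 14)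
  nil nil)) (node (nat_lit 6) (nat_lit 124556) (nat_lit 13) nil nil))) nil))) (node (nat_lit 0)
  (nat_lit 122665) (nat_lit 11) (node (nat_lit 4) (nat_lit 126687) (nat_lit 12) (node (nat_lit 6)
  (nat_lit 123403) (nat_lit 13) nil (node (nat_lit 5) (nat_lit 128221) (nat_lit 13) nil nil))
  (node (nat_lit 6) (nat_lit 126580) (nat_lit 12) (node (nat_lit 5) (nat_lit 125212) (nat_lit 13)
  nil (node (nat_lit 4) (nat_lit 128113) (nat_lit 13) nil nil)) (node (nat_lit 5) (nat_lit 126580)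
  (nat_lit 12) nil nil))) nil)) (node (nat_lit 0) (nat_lit 117171) (nat_lit 10) (node (nat_lit 6)
  (nat_lit 121396) (nat_lit 11) (node (nat_lit 5) (nat_lit 125311) (nat_lit 12) (node (nat_lit 6)
  (nat_lit 122027) (nat_lit 13) nil nil) (node (nat_lit 4) (nat_lit 123363) (nat_lit 12) nil nil))
  (node (nat_lit 4) (nat_lit 122000) (nat_lit 11) (node (nat_lit 6) (nat_lit 122463) (nat_lit 12)
  (node (nat_lit 4) (nat_lit 118049) (nat_lit 13) nil nil) (node (nat_lit 5) (nat_lit 123966)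
  (nat_lit 12) nil nil)) (node (nat_lit 5) (nat_lit 121972) (nat_lit 11) (node (nat_lit 4)
  (nat_lit 125887) (nat_lit 12) nil (node (nat_lit 6) (nat_lit 125887) (nat_lit 12) nil nil))
  (node (nat_lit 0) (nat_lit 117732) (nat_lit 11) nil nil)))) nil)) (node (nat_lit 0) (nat_lit 0)
  (nat_lit 9) (node (nat_lit 6) (nat_lit 117296) (nat_lit 10) (node (nat_lit 5) (nat_lit 122306)
  (nat_lit 11) (node (nat_lit 4) (nat_lit 120485) (nat_lit 12) (node (nat_lit 5) (nat_lit 122018)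
  (nat_lit 13) (node (nat_lit 6) (nat_lit 123215) (nat_lit 14) nil nil) nil) (node (nat_lit 6)
  (nat_lit 119106) (nat_lit 12) nil nil)) (node (nat_lit 4) (nat_lit 122773) (nat_lit 11) nil
  nil)) (node (nat_lit 4) (nat_lit 117655) (nat_lit 10) (node (nat_lit 6) (nat_lit 122665)
  (nat_lit 11) (node (nat_lit 4) (nat_lit 121447) (nat_lit 12) (node (nat_lit 5) (nat_lit 115592)
  (nat_lit 13) (node (nat_lit 6) (nat_lit 114152) (nat_lit 14) nil nil) nil) nil) (node (nat_lit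
  5) (nat_lit 122665) (nat_lit 11) nil nil)) (node (nat_lit 5) (nat_lit 117296) (nat_lit 10) (node
  (nat_lit 6) (nat_lit 122306) (nat_lit 11) (node (nat_lit 4) (nat_lit 121530) (nat_lit 12) (node
  (nat_lit 5) (nat_lit 112663) (nat_lit 13) nil nil) nil) (node (nat_lit 4) (nat_lit 122306)
  (nat_lit 11) nil nil)) (node (nat_lit 0) (nat_lit 117296) (nat_lit 10) nil nil)))) nil)))

noncomputable def t204 : Tr :=
  (node (nat_lit 4) (nat_lit 0) (nat_lit 9) (node (nat_lit 7) (nat_lit 0) (nat_lit 10) (node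
  (nat_lit 4) (nat_lit 0) (nat_lit 11) (node (nat_lit 5) (nat_lit 0) (nat_lit 12) (node (nat_lit
  7) (nat_lit 0) (nat_lit 13) (node (nat_lit 4) (nat_lit 0) (nat_lit 14) (node (nat_lit 7)
  (nat_lit 0) (nat_lit 15) (node (nat_lit 5) (nat_lit 0) (nat_lit 16) (node (nat_lit 4) (nat_lit
  37103) (nat_lit 17) (node (nat_lit 5) (nat_lit 37651) (nat_lit 18) (node (nat_lit 7) (nat_lit
  38009) (nat_lit 19) (node (nat_lit 4) (nat_lit 38291) (nat_lit 20) (node (nat_lit 5) (nat_lit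
  38516) (nat_lit 21) (node (nat_lit 4) (nat_lit 38688) (nat_lit 22) (node (nat_lit 7) (nat_lit
  38822) (nat_lit 23) (node (nat_lit 5) (nat_lit 38927) (nat_lit 24) (node (nat_lit 7) (nat_lit
  34678) (nat_lit 25) (node (nat_lit 4) (nat_lit 32763) (nat_lit 26) nil nil) nil) nil) nil) nil)
  nil) nil) nil) (node (nat_lit 7) (nat_lit 37564) (nat_lit 18) (node (nat_lit 4) (nat_lit 37923)
  (nat_lit 19) (node (nat_lit 5) (nat_lit 38298) (nat_lit 20) (node (nat_lit 4) (nat_lit 38516)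
  (nat_lit 21) (node (nat_lit 7) (nat_lit 38688) (nat_lit 22) (node (nat_lit 5) (nat_lit 38822)
  (nat_lit 23) (node (nat_lit 7) (nat_lit 33523) (nat_lit 24) (node (nat_lit 4) (nat_lit 31263)
  (nat_lit 25) nil nil) nil) nil) nil) nil) nil) nil) nil)) (node (nat_lit 7) (nat_lit 37103)
  (nat_lit 17) (node (nat_lit 4) (nat_lit 37564) (nat_lit 18) (node (nat_lit 5) (nat_lit 38016)
  (nat_lit 19) (node (nat_lit 4) (nat_lit 38298) (nat_lit 20) (node (nat_lit 7) (nat_lit 38516)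
  (nat_lit 21) (node (nat_lit 5) (nat_lit 38688) (nat_lit 22) (node (nat_lit 7) (nat_lit 38822)
  (nat_lit 23) (node (nat_lit 4) (nat_lit 38927) (nat_lit 24) nil nil) (node (nat_lit 4) (nat_lit
  38822) (nat_lit 23) (node (nat_lit 5) (nat_lit 38747) (nat_lit 24) nil nil) nil)) nil) nil)
  (node (nat_lit 7) (nat_lit 38298) (nat_lit 20) nil nil)) nil) nil) (node (nat_lit 0) (nat_lit
  37103) (nat_lit 17) nil nil))) (node (nat_lit 0) (nat_lit 36133) (nat_lit 16) (node (nat_lit 4)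
  (nat_lit 35709) (nat_lit 17) (node (nat_lit 7) (nat_lit 36071) (nat_lit 18) nil nil) (node
  (nat_lit 7) (nat_lit 36725) (nat_lit 17) nil (node (nat_lit 5) (nat_lit 35709) (nat_lit 17) nil
  nil))) nil)) (node (nat_lit 0) (nat_lit 35377) (nat_lit 15) (node (nat_lit 4) (nat_lit 36133)
  (nat_lit 16) (node (nat_lit 7) (nat_lit 36725) (nat_lit 17) nil (node (nat_lit 5) (nat_lit
  37152) (nat_lit 17) nil nil)) (node (nat_lit 5) (nat_lit 36511) (nat_lit 16) (node (nat_lit 4)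
  (nat_lit 36087) (nat_lit 17) nil (node (nat_lit 7) (nat_lit 35663) (nat_lit 17) nil nil)) (node
  (nat_lit 7) (nat_lit 36133) (nat_lit 16) (node (nat_lit 4) (nat_lit 36725) (nat_lit 17) nil
  (node (nat_lit 5) (nat_lit 35709) (nat_lit 17) nil nil)) nil))) nil)) (node (nat_lit 5) (nat_lit
  0) (nat_lit 14) (node (nat_lit 4) (nat_lit 0) (nat_lit 15) (node (nat_lit 7) (nat_lit 0)
  (nat_lit 16) (node (nat_lit 4) (nat_lit 0) (nat_lit 17) (node (nat_lit 5) (nat_lit 37658)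
  (nat_lit 18) (node (nat_lit 4) (nat_lit 38016) (nat_lit 19) (node (nat_lit 7) (nat_lit 38298)
  (nat_lit 20) (node (nat_lit 5) (nat_lit 38516) (nat_lit 21) (node (nat_lit 7) (nat_lit 38688)
  (nat_lit 22) (node (nat_lit 4) (nat_lit 38822) (nat_lit 23) (node (nat_lit 5) (nat_lit 38927)
  (nat_lit 24) (node (nat_lit 4) (nat_lit 15283) (nat_lit 25) (node (nat_lit 7) (nat_lit 4419)
  (nat_lit 26) nil nil) nil) nil) nil) nil) nil) nil) nil) (node (nat_lit 0) (nat_lit 37508)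
  (nat_lit 18) nil nil)) (node (nat_lit 5) (nat_lit 0) (nat_lit 17) (node (nat_lit 7) (nat_lit 0)
  (nat_lit 18) (node (nat_lit 4) (nat_lit 38016) (nat_lit 19) (node (nat_lit 5) (nat_lit 38298)
  (nat_lit 20) (node (nat_lit 4) (nat_lit 38516) (nat_lit 21) (node (nat_lit 7) (nat_lit 38688)
  (nat_lit 22) (node (nat_lit 5) (nat_lit 38822) (nat_lit 23) nil nil) nil) (node (nat_lit 7)
  (nat_lit 38516) (nat_lit 21) nil nil)) (node (nat_lit 7) (nat_lit 38298) (nat_lit 20) nil nil))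
  (node (nat_lit 0) (nat_lit 38016) (nat_lit 19) nil nil)) (node (nat_lit 0) (nat_lit 37658)
  (nat_lit 18) nil nil)) (node (nat_lit 0) (nat_lit 37047) (nat_lit 17) (node (nat_lit 4) (nat_lit
  36714) (nat_lit 18) nil (node (nat_lit 7) (nat_lit 37508) (nat_lit 18) nil nil)) nil))) (node
  (nat_lit 5) (nat_lit 0) (nat_lit 16) (node (nat_lit 7) (nat_lit 37190) (nat_lit 17) (node
  (nat_lit 4) (nat_lit 37651) (nat_lit 18) (node (nat_lit 5) (nat_lit 38016) (nat_lit 19) (node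
  (nat_lit 4) (nat_lit 38298) (nat_lit 20) (node (nat_lit 7) (nat_lit 38516) (nat_lit 21) (node
  (nat_lit 5) (nat_lit 38688) (nat_lit 22) (node (nat_lit 7) (nat_lit 38822) (nat_lit 23) (node
  (nat_lit 4) (nat_lit 29495) (nat_lit 24) (node (nat_lit 5) (nat_lit 27595) (nat_lit 25) nil nil)
  nil) nil) nil) nil) nil) (node (nat_lit 7) (nat_lit 38009) (nat_lit 19) (node (nat_lit 5)
  (nat_lit 37807) (nat_lit 20) nil nil) nil)) nil) (node (nat_lit 0) (nat_lit 37190) (nat_lit 17)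
  nil nil)) (node (nat_lit 0) (nat_lit 36455) (nat_lit 16) (node (nat_lit 4) (nat_lit 36031)
  (nat_lit 17) nil (node (nat_lit 5) (nat_lit 36031) (nat_lit 17) nil (node (nat_lit 7) (nat_lit
  37047) (nat_lit 17) nil nil))) nil))) (node (nat_lit 0) (nat_lit 35699) (nat_lit 15) (node
  (nat_lit 5) (nat_lit 35153) (nat_lit 16) (node (nat_lit 7) (nat_lit 35607) (nat_lit 17) nil
  (node (nat_lit 4) (nat_lit 34729) (nat_lit 17) nil nil)) (node (nat_lit 7) (nat_lit 36455)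
  (nat_lit 16) nil (node (nat_lit 4) (nat_lit 35153) (nat_lit 16) nil nil))) nil)) (node (nat_lit
  0) (nat_lit 34405) (nat_lit 14) (node (nat_lit 7) (nat_lit 35377) (nat_lit 15) (node (nat_lit 5)
  (nat_lit 36511) (nat_lit 16) nil (node (nat_lit 4) (nat_lit 36133) (nat_lit 16) (node (nat_lit
  5) (nat_lit 36725) (nat_lit 17) nil nil) nil)) (node (nat_lit 4) (nat_lit 35377) (nat_lit 15)
  (node (nat_lit 7) (nat_lit 36133) (nat_lit 16) (node (nat_lit 4) (nat_lit 33824) (nat_lit 17)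
  (node (nat_lit 5) (nat_lit 33448) (nat_lit 18) nil nil) nil) (node (nat_lit 5) (nat_lit 36511)
  (nat_lit 16) nil nil)) (node (nat_lit 5) (nat_lit 35692) (nat_lit 15) (node (nat_lit 7) (nat_lit
  36448) (nat_lit 16) nil (node (nat_lit 4) (nat_lit 36448) (nat_lit 16) nil nil)) (node (nat_lit
  0) (nat_lit 35377) (nat_lit 15) nil nil)))) nil))) (node (nat_lit 0) (nat_lit 33164) (nat_lit
  13) (node (nat_lit 7) (nat_lit 34405) (nat_lit 14) (node (nat_lit 5) (nat_lit 35692) (nat_lit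
  15) (node (nat_lit 7) (nat_lit 34579) (nat_lit 16) nil nil) (node (nat_lit 4) (nat_lit 35377)
  (nat_lit 15) nil nil)) (node (nat_lit 4) (nat_lit 34405) (nat_lit 14) (node (nat_lit 7) (nat_lit
  35377) (nat_lit 15) (node (nat_lit 4) (nat_lit 32345) (nat_lit 16) (node (nat_lit 5) (nat_lit
  31907) (nat_lit 17) nil nil) nil) (node (nat_lit 5) (nat_lit 35692) (nat_lit 15) nil nil)) (node
  (nat_lit 5) (nat_lit 34641) (nat_lit 14) (node (nat_lit 7) (nat_lit 35613) (nat_lit 15) (node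
  (nat_lit 4) (nat_lit 36369) (nat_lit 16) nil nil) (node (nat_lit 4) (nat_lit 35613) (nat_lit 15)
  (node (nat_lit 5) (nat_lit 35066) (nat_lit 16) nil nil) nil)) (node (nat_lit 0) (nat_lit 34405)
  (nat_lit 14) nil nil)))) nil)) (node (nat_lit 0) (nat_lit 29579) (nat_lit 12) (node (nat_lit 7)
  (nat_lit 31173) (nat_lit 13) (node (nat_lit 4) (nat_lit 32414) (nat_lit 14) (node (nat_lit 7)
  (nat_lit 33386) (nat_lit 15) (node (nat_lit 5) (nat_lit 34668) (nat_lit 16) nil (node (nat_lit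
  15) (nat_lit 34141) (nat_lit 16) nil nil)) (node (nat_lit 5) (nat_lit 34718) (nat_lit 15) (node
  (nat_lit 7) (nat_lit 35474) (nat_lit 16) nil (node (nat_lit 4) (nat_lit 34172) (nat_lit 16) nil
  nil)) nil)) (node (nat_lit 5) (nat_lit 33666) (nat_lit 14) (node (nat_lit 4) (nat_lit 32960)
  (nat_lit 15) nil (node (nat_lit 7) (nat_lit 32996) (nat_lit 15) (node (nat_lit 4) (nat_lit
  31606) (nat_lit 16) nil nil) nil)) (node (nat_lit 15) (nat_lit 32414) (nat_lit 14) nil nil)))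
  (node (nat_lit 4) (nat_lit 31173) (nat_lit 13) (node (nat_lit 5) (nat_lit 33666) (nat_lit 14)
  (node (nat_lit 7) (nat_lit 34638) (nat_lit 15) (node (nat_lit 4) (nat_lit 35393) (nat_lit 16)
  nil nil) (node (nat_lit 4) (nat_lit 34638) (nat_lit 15) nil nil)) (node (nat_lit 7) (nat_lit
  32414) (nat_lit 14) (node (nat_lit 5) (nat_lit 34718) (nat_lit 15) nil (node (nat_lit 4)
  (nat_lit 32336) (nat_lit 15) (node (nat_lit 5) (nat_lit 29963) (nat_lit 16) nil nil) (node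
  (nat_lit 15) (nat_lit 33386) (nat_lit 15) nil nil))) (node (nat_lit 0) (nat_lit 32414) (nat_lit
  14) nil nil))) (node (nat_lit 5) (nat_lit 32746) (nat_lit 13) (node (nat_lit 7) (nat_lit 33987)
  (nat_lit 14) (node (nat_lit 4) (nat_lit 34959) (nat_lit 15) (node (nat_lit 5) (nat_lit 35960)
  (nat_lit 16) (node (nat_lit 4) (nat_lit 29588) (nat_lit 17) (node (nat_lit 7) (nat_lit 27182)
  (nat_lit 18) nil nil) nil) nil) (node (nat_lit 5) (nat_lit 34959) (nat_lit 15) nil nil)) (node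
  (nat_lit 4) (nat_lit 33987) (nat_lit 14) (node (nat_lit 5) (nat_lit 35141) (nat_lit 15) (node
  (nat_lit 7) (nat_lit 34417) (nat_lit 16) (node (nat_lit 4) (nat_lit 33588) (nat_lit 17) nil nil)
  nil) (node (nat_lit 7) (nat_lit 32504) (nat_lit 15) (node (nat_lit 4) (nat_lit 31927) (nat_lit
  16) (node (nat_lit 5) (nat_lit 31489) (nat_lit 17) nil nil) nil) nil)) (node (nat_lit 15)
  (nat_lit 33987) (nat_lit 14) nil nil))) (node (nat_lit 0) (nat_lit 32322) (nat_lit 13) (node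
  (nat_lit 4) (nat_lit 31383) (nat_lit 14) nil (node (nat_lit 15) (nat_lit 33563) (nat_lit 14) nil
  nil)) nil)))) nil)) (node (nat_lit 0) (nat_lit 27540) (nat_lit 11) (node (nat_lit 7) (nat_lit
  29579) (nat_lit 12) (node (nat_lit 4) (nat_lit 31173) (nat_lit 13) (node (nat_lit 5) (nat_lit
  32414) (nat_lit 14) nil nil) (node (nat_lit 5) (nat_lit 32322) (nat_lit 13) nil nil)) (node
  (nat_lit 4) (nat_lit 29579) (nat_lit 12) (node (nat_lit 7) (nat_lit 31173) (nat_lit 13) (node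
  (nat_lit 4) (nat_lit 32414) (nat_lit 14) (node (nat_lit 5) (nat_lit 34718) (nat_lit 15) nil nil)
  nil) (node (nat_lit 5) (nat_lit 32322) (nat_lit 13) nil (node (nat_lit 14) (nat_lit 31173)
  (nat_lit 13) nil nil))) (node (nat_lit 5) (nat_lit 30596) (nat_lit 12) (node (nat_lit 7)
  (nat_lit 32190) (nat_lit 13) (node (nat_lit 4) (nat_lit 33431) (nat_lit 14) nil nil) (node
  (nat_lit 4) (nat_lit 32190) (nat_lit 13) (node (nat_lit 5) (nat_lit 31251) (nat_lit 14) nil nil)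
  nil)) (node (nat_lit 0) (nat_lit 29579) (nat_lit 12) nil nil)))) nil)) (node (nat_lit 0)
  (nat_lit 103112) (nat_lit 10) (node (nat_lit 5) (nat_lit 107186) (nat_lit 11) (node (nat_lit 4)
  (nat_lit 111156) (nat_lit 12) (node (nat_lit 5) (nat_lit 109889) (nat_lit 13) nil nil) (node
  (nat_lit 7) (nat_lit 104074) (nat_lit 12) nil nil)) (node (nat_lit 7) (nat_lit 110677) (nat_lit
  11) (node (nat_lit 4) (nat_lit 114666) (nat_lit 12) nil (node (nat_lit 5) (nat_lit 108978)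
  (nat_lit 12) nil nil)) (node (nat_lit 4) (nat_lit 108046) (nat_lit 11) nil (node (nat_lit 0)
  (nat_lit 106501) (nat_lit 11) nil nil)))) nil)) (node (nat_lit 7) (nat_lit 0) (nat_lit 9) (node
  (nat_lit 5) (nat_lit 0) (nat_lit 10) (node (nat_lit 4) (nat_lit 0) (nat_lit 11) (node (nat_lit
  7) (nat_lit 0) (nat_lit 12) (node (nat_lit 4) (nat_lit 0) (nat_lit 13) (node (nat_lit 5)
  (nat_lit 0) (nat_lit 14) (node (nat_lit 4) (nat_lit 141465) (nat_lit 15) (node (nat_lit 7)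
  (nat_lit 142354) (nat_lit 16) (node (nat_lit 5) (nat_lit 143320) (nat_lit 17) (node (nat_lit 7)
  (nat_lit 142508) (nat_lit 18) (node (nat_lit 4) (nat_lit 140363) (nat_lit 19) (node (nat_lit 5)
  (nat_lit 115668) (nat_lit 20) (node (nat_lit 7) (nat_lit 66161) (nat_lit 21) (node (nat_lit 5)
  (nat_lit 55471) (nat_lit 22) nil nil) nil) nil) nil) nil) nil) nil) (node (nat_lit 7) (nat_lit
  141465) (nat_lit 15) (node (nat_lit 4) (nat_lit 142945) (nat_lit 16) nil nil) (node (nat_lit 0)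
  (nat_lit 140542) (nat_lit 15) nil nil))) (node (nat_lit 0) (nat_lit 137352) (nat_lit 14) nil
  nil)) (node (nat_lit 5) (nat_lit 0) (nat_lit 13) (node (nat_lit 7) (nat_lit 0) (nat_lit 14)
  (node (nat_lit 4) (nat_lit 141551) (nat_lit 15) (node (nat_lit 5) (nat_lit 142414) (nat_lit 16)
  (node (nat_lit 4) (nat_lit 143268) (nat_lit 17) (node (nat_lit 7) (nat_lit 144072) (nat_lit 18)
  (node (nat_lit 5) (nat_lit 144774) (nat_lit 19) (node (nat_lit 4) (nat_lit 145055) (nat_lit 20)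
  nil nil) (node (nat_lit 4) (nat_lit 144232) (nat_lit 19) nil nil)) nil) nil) (node (nat_lit 7)
  (nat_lit 143030) (nat_lit 16) (node (nat_lit 5) (nat_lit 143706) (nat_lit 17) (node (nat_lit 4)
  (nat_lit 144371) (nat_lit 18) nil nil) nil) nil)) (node (nat_lit 0) (nat_lit 140627) (nat_lit
  15) nil nil)) (node (nat_lit 0) (nat_lit 137352) (nat_lit 14) (node (nat_lit 4) (nat_lit 136646)
  (nat_lit 15) nil (node (nat_lit 7) (nat_lit 138324) (nat_lit 15) nil nil)) nil)) (node (nat_lit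
  0) (nat_lit 137141) (nat_lit 13) (node (nat_lit 5) (nat_lit 136535) (nat_lit 14) nil (node
  (nat_lit 4) (nat_lit 136202) (nat_lit 14) nil nil)) nil))) (node (nat_lit 5) (nat_lit 0)
  (nat_lit 12) (node (nat_lit 7) (nat_lit 136797) (nat_lit 13) (node (nat_lit 4) (nat_lit 139225)
  (nat_lit 14) (node (nat_lit 7) (nat_lit 140191) (nat_lit 15) (node (nat_lit 5) (nat_lit 140801)
  (nat_lit 16) (node (nat_lit 4) (nat_lit 140377) (nat_lit 17) (node (nat_lit 7) (nat_lit 140739)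
  (nat_lit 18) (node (nat_lit 4) (nat_lit 140510) (nat_lit 19) (node (nat_lit 5) (nat_lit 140314)
  (nat_lit 20) (node (nat_lit 4) (nat_lit 139879) (nat_lit 21) (node (nat_lit 7) (nat_lit 138681)
  (nat_lit 22) (node (nat_lit 5) (nat_lit 137490) (nat_lit 23) (node (nat_lit 7) (nat_lit 136446)
  (nat_lit 24) (node (nat_lit 4) (nat_lit 136092) (nat_lit 25) (node (nat_lit 5) (nat_lit 133426)
  (nat_lit 26) (node (nat_lit 7) (nat_lit 131624) (nat_lit 27) (node (nat_lit 5) (nat_lit 125830)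
  (nat_lit 28) (node (nat_lit 4) (nat_lit 119289) (nat_lit 29) (node (nat_lit 5) (nat_lit 110174)
  (nat_lit 30) (node (nat_lit 7) (nat_lit 89939) (nat_lit 31) (node (nat_lit 4) (nat_lit 58591)
  (nat_lit 32) (node (nat_lit 7) (nat_lit 25738) (nat_lit 33) nil nil) nil) nil) nil) nil) nil)
  nil) nil) nil) nil) nil) nil) nil) nil) nil) nil) (node (nat_lit 7) (nat_lit 139953) (nat_lit
  17) (node (nat_lit 4) (nat_lit 139645) (nat_lit 18) (node (nat_lit 5) (nat_lit 139352) (nat_lit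
  19) (node (nat_lit 4) (nat_lit 138806) (nat_lit 20) (node (nat_lit 7) (nat_lit 137300) (nat_lit
  21) nil nil) nil) nil) nil) nil)) nil) (node (nat_lit 5) (nat_lit 140335) (nat_lit 15) (node
  (nat_lit 4) (nat_lit 141416) (nat_lit 16) (node (nat_lit 7) (nat_lit 141871) (nat_lit 17) (node
  (nat_lit 5) (nat_lit 142623) (nat_lit 18) (node (nat_lit 7) (nat_lit 143254) (nat_lit 19) (node
  (nat_lit 4) (nat_lit 143388) (nat_lit 20) (node (nat_lit 5) (nat_lit 129223) (nat_lit 21) (node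
  (nat_lit 7) (nat_lit 109696) (nat_lit 22) (node (nat_lit 5) (nat_lit 64419) (nat_lit 23) (node
  (nat_lit 4) (nat_lit 37116) (nat_lit 24) nil nil) nil) nil) nil) nil) nil) nil) nil) nil) nil))
  nil) (node (nat_lit 0) (nat_lit 135279) (nat_lit 13) nil nil)) (node (nat_lit 0) (nat_lit
  133685) (nat_lit 12) (node (nat_lit 5) (nat_lit 136758) (nat_lit 13) (node (nat_lit 7) (nat_lit
  134795) (nat_lit 14) nil (node (nat_lit 4) (nat_lit 135819) (nat_lit 14) nil nil)) (node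
  (nat_lit 7) (nat_lit 136797) (nat_lit 13) (node (nat_lit 5) (nat_lit 135858) (nat_lit 14) nil
  (node (nat_lit 4) (nat_lit 138039) (nat_lit 14) nil nil)) (node (nat_lit 4) (nat_lit 136713)
  (nat_lit 13) nil nil))) nil))) (node (nat_lit 0) (nat_lit 129698) (nat_lit 11) (node (nat_lit 4)
  (nat_lit 133685) (nat_lit 12) (node (nat_lit 7) (nat_lit 131149) (nat_lit 13) (node (nat_lit 4)
  (nat_lit 130432) (nat_lit 14) (node (nat_lit 5) (nat_lit 131079) (nat_lit 15) nil nil) nil)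
  (node (nat_lit 5) (nat_lit 132418) (nat_lit 13) nil nil)) (node (nat_lit 5) (nat_lit 133685)
  (nat_lit 12) (node (nat_lit 4) (nat_lit 132418) (nat_lit 13) nil (node (nat_lit 7) (nat_lit
  131149) (nat_lit 13) nil nil)) (node (nat_lit 7) (nat_lit 133969) (nat_lit 12) nil nil))) nil))
  (node (nat_lit 0) (nat_lit 124653) (nat_lit 10) (node (nat_lit 4) (nat_lit 129761) (nat_lit 11)
  (node (nat_lit 7) (nat_lit 133891) (nat_lit 12) (node (nat_lit 4) (nat_lit 129199) (nat_lit 13)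
  nil nil) (node (nat_lit 5) (nat_lit 132017) (nat_lit 12) nil nil)) (node (nat_lit 5) (nat_lit
  129761) (nat_lit 11) (node (nat_lit 4) (nat_lit 133748) (nat_lit 12) nil (node (nat_lit 7)
  (nat_lit 133748) (nat_lit 12) nil nil)) (node (nat_lit 7) (nat_lit 129982) (nat_lit 11) (node
  (nat_lit 5) (nat_lit 133969) (nat_lit 12) nil (node (nat_lit 4) (nat_lit 133969) (nat_lit 12)
  nil nil)) (node (nat_lit 0) (nat_lit 124971) (nat_lit 11) nil nil)))) nil)) (node (nat_lit 0)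
  (nat_lit 0) (nat_lit 9) (node (nat_lit 5) (nat_lit 122869) (nat_lit 10) (node (nat_lit 7)
  (nat_lit 129747) (nat_lit 11) (node (nat_lit 4) (nat_lit 133735) (nat_lit 12) (node (nat_lit 5)
  (nat_lit 122808) (nat_lit 13) (node (nat_lit 4) (nat_lit 119232) (nat_lit 14) (node (nat_lit 7)
  (nat_lit 112396) (nat_lit 15) (node (nat_lit 5) (nat_lit 100636) (nat_lit 16) (node (nat_lit 7)
  (nat_lit 87136) (nat_lit 17) (node (nat_lit 4) (nat_lit 58537) (nat_lit 18) nil nil) nil) nil)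
  nil) nil) nil) nil) (node (nat_lit 4) (nat_lit 127914) (nat_lit 11) nil nil)) (node (nat_lit 4)
  (nat_lit 121933) (nat_lit 10) (node (nat_lit 5) (nat_lit 127601) (nat_lit 11) (node (nat_lit 7)
  (nat_lit 131588) (nat_lit 12) nil nil) (node (nat_lit 7) (nat_lit 128813) (nat_lit 11) (node
  (nat_lit 5) (nat_lit 127114) (nat_lit 12) nil (node (nat_lit 4) (nat_lit 132801) (nat_lit 12)
  nil nil)) nil)) (node (nat_lit 7) (nat_lit 124330) (nat_lit 10) (node (nat_lit 4) (nat_lit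
  129438) (nat_lit 11) (node (nat_lit 5) (nat_lit 131694) (nat_lit 12) nil nil) (node (nat_lit 5)
  (nat_lit 129438) (nat_lit 11) nil nil)) (node (nat_lit 0) (nat_lit 124330) (nat_lit 10) nil
  nil)))) nil)))

noncomputable def t205 : Tr :=
  (node (nat_lit 7) (nat_lit 0) (nat_lit 6) (node (nat_lit 4) (nat_lit 0) (nat_lit 7) (node
  (nat_lit 5) (nat_lit 0) (nat_lit 8) t204 (node (nat_lit 7) (nat_lit 0) (nat_lit 8) (node
  (nat_lit 5) (nat_lit 0) (nat_lit 9) (node (nat_lit 4) (nat_lit 0) (nat_lit 10) (node (nat_lit 7)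
  (nat_lit 0) (nat_lit 11) (node (nat_lit 4) (nat_lit 0) (nat_lit 12) (node (nat_lit 5) (nat_lit
  0) (nat_lit 13) (node (nat_lit 7) (nat_lit 0) (nat_lit 14) (node (nat_lit 4) (nat_lit 0)
  (nat_lit 15) (node (nat_lit 7) (nat_lit 0) (nat_lit 16) (node (nat_lit 5) (nat_lit 169874)
  (nat_lit 17) (node (nat_lit 7) (nat_lit 169874) (nat_lit 18) (node (nat_lit 4) (nat_lit 169874)
  (nat_lit 19) (node (nat_lit 5) (nat_lit 169874) (nat_lit 20) (node (nat_lit 4) (nat_lit 169874)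
  (nat_lit 21) (node (nat_lit 7) (nat_lit 169874) (nat_lit 22) (node (nat_lit 5) (nat_lit 169874)
  (nat_lit 23) (node (nat_lit 7) (nat_lit 169874) (nat_lit 24) (node (nat_lit 4) (nat_lit 169874)
  (nat_lit 25) (node (nat_lit 7) (nat_lit 169874) (nat_lit 26) (node (nat_lit 5) (nat_lit 169874)
  (nat_lit 27) (node (nat_lit 4) (nat_lit 164503) (nat_lit 28) (node (nat_lit 7) (nat_lit 158443)
  (nat_lit 29) (node (nat_lit 4) (nat_lit 147963) (nat_lit 30) (node (nat_lit 5) (nat_lit 132719)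
  (nat_lit 31) (node (nat_lit 7) (nat_lit 104643) (nat_lit 32) (node (nat_lit 4) (nat_lit 72934)
  (nat_lit 33) (node (nat_lit 7) (nat_lit 12667) (nat_lit 34) nil nil) nil) nil) nil) nil) nil)
  nil) nil) nil) nil) nil) nil) nil) nil) nil) nil) (node (nat_lit 4) (nat_lit 169874) (nat_lit
  18) (node (nat_lit 5) (nat_lit 169874) (nat_lit 19) (node (nat_lit 7) (nat_lit 169874) (nat_lit
  20) (node (nat_lit 4) (nat_lit 169874) (nat_lit 21) (node (nat_lit 5) (nat_lit 169874) (nat_lit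
  22) (node (nat_lit 4) (nat_lit 169874) (nat_lit 23) (node (nat_lit 7) (nat_lit 169874) (nat_lit
  24) (node (nat_lit 5) (nat_lit 169874) (nat_lit 25) nil nil) nil) nil) nil) nil) nil) nil) nil))
  (node (nat_lit 0) (nat_lit 169874) (nat_lit 17) nil nil)) (node (nat_lit 0) (nat_lit 169874)
  (nat_lit 16) (node (nat_lit 4) (nat_lit 169874) (nat_lit 17) nil (node (nat_lit 7) (nat_lit
  169874) (nat_lit 17) nil (node (nat_lit 5) (nat_lit 169874) (nat_lit 17) nil nil))) nil)) (node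
  (nat_lit 5) (nat_lit 0) (nat_lit 15) (node (nat_lit 4) (nat_lit 169874) (nat_lit 16) (node
  (nat_lit 5) (nat_lit 169874) (nat_lit 17) (node (nat_lit 7) (nat_lit 169874) (nat_lit 18) (node
  (nat_lit 4) (nat_lit 169874) (nat_lit 19) (node (nat_lit 5) (nat_lit 169874) (nat_lit 20) (node
  (nat_lit 4) (nat_lit 169874) (nat_lit 21) (node (nat_lit 7) (nat_lit 169874) (nat_lit 22) (node
  (nat_lit 5) (nat_lit 169874) (nat_lit 23) (node (nat_lit 7) (nat_lit 169874) (nat_lit 24) (node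
  (nat_lit 4) (nat_lit 169874) (nat_lit 25) (node (nat_lit 7) (nat_lit 169874) (nat_lit 26) (node
  (nat_lit 5) (nat_lit 169064) (nat_lit 27) (node (nat_lit 4) (nat_lit 163201) (nat_lit 28) (node
  (nat_lit 7) (nat_lit 156709) (nat_lit 29) (node (nat_lit 4) (nat_lit 147600) (nat_lit 30) (node
  (nat_lit 5) (nat_lit 131925) (nat_lit 31) (node (nat_lit 7) (nat_lit 103413) (nat_lit 32) (node
  (nat_lit 5) (nat_lit 66555) (nat_lit 33) (node (nat_lit 4) (nat_lit 11347) (nat_lit 34) nil nil)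
  nil) nil) nil) nil) nil) nil) nil) nil) nil) nil) nil) nil) nil) (node (nat_lit 7) (nat_lit
  169874) (nat_lit 20) (node (nat_lit 5) (nat_lit 169874) (nat_lit 21) (node (nat_lit 7) (nat_lit
  169874) (nat_lit 22) (node (nat_lit 4) (nat_lit 169874) (nat_lit 23) (node (nat_lit 5) (nat_lit
  169874) (nat_lit 24) (node (nat_lit 4) (nat_lit 169874) (nat_lit 25) (node (nat_lit 7) (nat_lit
  169874) (nat_lit 26) nil nil) nil) nil) nil) nil) nil) nil)) nil) nil) (node (nat_lit 7)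
  (nat_lit 169874) (nat_lit 17) nil nil)) (node (nat_lit 0) (nat_lit 169874) (nat_lit 16) nil
  nil)) (node (nat_lit 0) (nat_lit 169874) (nat_lit 15) (node (nat_lit 4) (nat_lit 169874)
  (nat_lit 16) nil (node (nat_lit 5) (nat_lit 169874) (nat_lit 16) (node (nat_lit 7) (nat_lit
  169874) (nat_lit 17) nil nil) (node (nat_lit 7) (nat_lit 169874) (nat_lit 16) nil nil))) nil)))
  (node (nat_lit 4) (nat_lit 0) (nat_lit 14) (node (nat_lit 7) (nat_lit 169874) (nat_lit 15) (node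
  (nat_lit 5) (nat_lit 169874) (nat_lit 16) (node (nat_lit 7) (nat_lit 132319) (nat_lit 17) (node
  (nat_lit 4) (nat_lit 132229) (nat_lit 18) (node (nat_lit 7) (nat_lit 92507) (nat_lit 19) (node
  (nat_lit 5) (nat_lit 67093) (nat_lit 20) nil nil) (node (nat_lit 5) (nat_lit 132636) (nat_lit
  19) (node (nat_lit 4) (nat_lit 133039) (nat_lit 20) (node (nat_lit 7) (nat_lit 133428) (nat_lit
  21) nil nil) nil) nil)) nil) (node (nat_lit 4) (nat_lit 169874) (nat_lit 17) (node (nat_lit 5)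
  (nat_lit 169874) (nat_lit 18) (node (nat_lit 7) (nat_lit 169874) (nat_lit 19) nil nil) nil)
  nil)) nil) (node (nat_lit 0) (nat_lit 169874) (nat_lit 15) nil nil)) (node (nat_lit 0) (nat_lit
  169874) (nat_lit 14) (node (nat_lit 4) (nat_lit 169874) (nat_lit 15) (node (nat_lit 5) (nat_lit
  169874) (nat_lit 16) nil (node (nat_lit 7) (nat_lit 169874) (nat_lit 16) nil nil)) (node
  (nat_lit 7) (nat_lit 169874) (nat_lit 15) nil (node (nat_lit 5) (nat_lit 169874) (nat_lit 15)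
  (node (nat_lit 7) (nat_lit 169874) (nat_lit 16) nil nil) nil))) nil))) (node (nat_lit 0)
  (nat_lit 169874) (nat_lit 13) nil nil)) (node (nat_lit 0) (nat_lit 169874) (nat_lit 12) (node
  (nat_lit 7) (nat_lit 169874) (nat_lit 13) nil (node (nat_lit 4) (nat_lit 169874) (nat_lit 13)
  nil (node (nat_lit 5) (nat_lit 169874) (nat_lit 13) nil nil))) nil)) (node (nat_lit 5) (nat_lit
  0) (nat_lit 11) (node (nat_lit 7) (nat_lit 0) (nat_lit 12) (node (nat_lit 4) (nat_lit 0)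
  (nat_lit 13) (node (nat_lit 5) (nat_lit 169874) (nat_lit 14) (node (nat_lit 4) (nat_lit 169818)
  (nat_lit 15) (node (nat_lit 7) (nat_lit 167404) (nat_lit 16) (node (nat_lit 4) (nat_lit 167189)
  (nat_lit 17) (node (nat_lit 5) (nat_lit 167001) (nat_lit 18) nil nil) (node (nat_lit 5) (nat_lit
  164973) (nat_lit 17) (node (nat_lit 7) (nat_lit 158690) (nat_lit 18) (node (nat_lit 4) (nat_lit
  151966) (nat_lit 19) (node (nat_lit 7) (nat_lit 96346) (nat_lit 20) (node (nat_lit 5) (nat_lit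
  74197) (nat_lit 21) (node (nat_lit 4) (nat_lit 34081) (nat_lit 22) nil nil) nil) nil) nil) nil)
  nil)) nil) nil) (node (nat_lit 7) (nat_lit 169874) (nat_lit 14) (node (nat_lit 5) (nat_lit
  169874) (nat_lit 15) (node (nat_lit 7) (nat_lit 169874) (nat_lit 16) (node (nat_lit 4) (nat_lit
  169874) (nat_lit 17) (node (nat_lit 5) (nat_lit 169874) (nat_lit 18) (node (nat_lit 4) (nat_lit
  169874) (nat_lit 19) (node (nat_lit 7) (nat_lit 169874) (nat_lit 20) (node (nat_lit 5) (nat_lit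
  169701) (nat_lit 21) (node (nat_lit 7) (nat_lit 168583) (nat_lit 22) (node (nat_lit 4) (nat_lit
  166748) (nat_lit 23) (node (nat_lit 7) (nat_lit 164216) (nat_lit 24) (node (nat_lit 5) (nat_lit
  156602) (nat_lit 25) (node (nat_lit 4) (nat_lit 146089) (nat_lit 26) (node (nat_lit 5) (nat_lit
  130819) (nat_lit 27) (node (nat_lit 7) (nat_lit 102757) (nat_lit 28) (node (nat_lit 4) (nat_lit
  71021) (nat_lit 29) nil nil) nil) nil) nil) nil) nil) nil) nil) nil) nil) nil) nil) nil) nil)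
  nil) (node (nat_lit 0) (nat_lit 169874) (nat_lit 14) nil nil))) (node (nat_lit 5) (nat_lit
  169874) (nat_lit 13) (node (nat_lit 4) (nat_lit 169874) (nat_lit 14) (node (nat_lit 7) (nat_lit
  169874) (nat_lit 15) (node (nat_lit 4) (nat_lit 169874) (nat_lit 16) (node (nat_lit 5) (nat_lit
  169874) (nat_lit 17) (node (nat_lit 4) (nat_lit 169874) (nat_lit 18) (node (nat_lit 7) (nat_lit
  169874) (nat_lit 19) (node (nat_lit 5) (nat_lit 169874) (nat_lit 20) (node (nat_lit 7) (nat_lit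
  166291) (nat_lit 21) (node (nat_lit 4) (nat_lit 161739) (nat_lit 22) (node (nat_lit 7) (nat_lit
  156954) (nat_lit 23) (node (nat_lit 5) (nat_lit 145165) (nat_lit 24) (node (nat_lit 4) (nat_lit
  129872) (nat_lit 25) (node (nat_lit 5) (nat_lit 94407) (nat_lit 26) (node (nat_lit 7) (nat_lit
  61580) (nat_lit 27) nil nil) nil) nil) nil) nil) nil) nil) nil) nil) nil) nil) (node (nat_lit 5)
  (nat_lit 169874) (nat_lit 16) (node (nat_lit 7) (nat_lit 169874) (nat_lit 17) (node (nat_lit 4)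
  (nat_lit 169874) (nat_lit 18) (node (nat_lit 5) (nat_lit 169874) (nat_lit 19) nil nil) nil) nil)
  nil)) nil) nil) (node (nat_lit 0) (nat_lit 169874) (nat_lit 13) nil nil))) (node (nat_lit 0)
  (nat_lit 169874) (nat_lit 12) (node (nat_lit 4) (nat_lit 169874) (nat_lit 13) nil (node (nat_lit
  5) (nat_lit 169874) (nat_lit 13) nil (node (nat_lit 7) (nat_lit 169874) (nat_lit 13) nil nil)))
  nil)) (node (nat_lit 0) (nat_lit 167008) (nat_lit 11) (node (nat_lit 4) (nat_lit 169266)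
  (nat_lit 12) (node (nat_lit 7) (nat_lit 167283) (nat_lit 13) (node (nat_lit 4) (nat_lit 165738)
  (nat_lit 14) nil nil) (node (nat_lit 5) (nat_lit 168552) (nat_lit 13) (node (nat_lit 7) (nat_lit
  169450) (nat_lit 14) nil nil) nil)) (node (nat_lit 7) (nat_lit 169048) (nat_lit 12) (node
  (nat_lit 4) (nat_lit 169874) (nat_lit 13) nil (node (nat_lit 5) (nat_lit 167780) (nat_lit 13)
  nil nil)) (node (nat_lit 5) (nat_lit 168539) (nat_lit 12) (node (nat_lit 4) (nat_lit 167272)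
  (nat_lit 13) nil (node (nat_lit 7) (nat_lit 166003) (nat_lit 13) nil nil)) (node (nat_lit 0)
  (nat_lit 169048) (nat_lit 12) nil nil)))) nil))) (node (nat_lit 0) (nat_lit 163340) (nat_lit 10)
  (node (nat_lit 4) (nat_lit 164209) (nat_lit 11) (node (nat_lit 5) (nat_lit 162510) (nat_lit 12)
  nil (node (nat_lit 7) (nat_lit 165938) (nat_lit 12) nil nil)) (node (nat_lit 7) (nat_lit 165775)
  (nat_lit 11) (node (nat_lit 4) (nat_lit 167814) (nat_lit 12) nil (node (nat_lit 5) (nat_lit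
  164076) (nat_lit 12) (node (nat_lit 7) (nat_lit 165278) (nat_lit 13) nil nil) nil)) (node
  (nat_lit 5) (nat_lit 161949) (nat_lit 11) (node (nat_lit 7) (nat_lit 165724) (nat_lit 12) (node
  (nat_lit 4) (nat_lit 160894) (nat_lit 13) nil nil) (node (nat_lit 4) (nat_lit 164799) (nat_lit
  12) (node (nat_lit 7) (nat_lit 162262) (nat_lit 13) nil nil) nil)) (node (nat_lit 0) (nat_lit
  165955) (nat_lit 11) nil nil)))) nil)) (node (nat_lit 0) (nat_lit 0) (nat_lit 9) (node (nat_lit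
  5) (nat_lit 163304) (nat_lit 10) (node (nat_lit 7) (nat_lit 164752) (nat_lit 11) (node (nat_lit
  4) (nat_lit 160722) (nat_lit 12) (node (nat_lit 5) (nat_lit 155349) (nat_lit 13) (node (nat_lit
  4) (nat_lit 151773) (nat_lit 14) (node (nat_lit 7) (nat_lit 144505) (nat_lit 15) nil nil) nil)
  nil) nil) (node (nat_lit 4) (nat_lit 161474) (nat_lit 11) (node (nat_lit 7) (nat_lit 163322)
  (nat_lit 12) nil nil) nil)) (node (nat_lit 4) (nat_lit 163169) (nat_lit 10) (node (nat_lit 5)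
  (nat_lit 164207) (nat_lit 11) (node (nat_lit 7) (nat_lit 164088) (nat_lit 12) (node (nat_lit 5)
  (nat_lit 165682) (nat_lit 13) nil nil) nil) (node (nat_lit 7) (nat_lit 163257) (nat_lit 11)
  (node (nat_lit 4) (nat_lit 157312) (nat_lit 12) nil nil) nil)) (node (nat_lit 7) (nat_lit
  165035) (nat_lit 10) (node (nat_lit 4) (nat_lit 167650) (nat_lit 11) (node (nat_lit 5) (nat_lit
  169689) (nat_lit 12) nil nil) (node (nat_lit 5) (nat_lit 162832) (nat_lit 11) nil nil)) (node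
  (nat_lit 0) (nat_lit 162879) (nat_lit 10) nil nil)))) nil)) nil)) nil) (node (nat_lit 4)
  (nat_lit 0) (nat_lit 6) (node (nat_lit 5) (nat_lit 0) (nat_lit 7) (node (nat_lit 7) (nat_lit 0)
  (nat_lit 8) (node (nat_lit 4) (nat_lit 0) (nat_lit 9) (node (nat_lit 7) (nat_lit 0) (nat_lit 10)
  (node (nat_lit 5) (nat_lit 0) (nat_lit 11) (node (nat_lit 4) (nat_lit 0) (nat_lit 12) (node
  (nat_lit 7) (nat_lit 0) (nat_lit 13) (node (nat_lit 4) (nat_lit 169844) (nat_lit 14) (node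
  (nat_lit 5) (nat_lit 169646) (nat_lit 15) (node (nat_lit 4) (nat_lit 168655) (nat_lit 16) (node
  (nat_lit 7) (nat_lit 168224) (nat_lit 17) (node (nat_lit 5) (nat_lit 165479) (nat_lit 18) (node
  (nat_lit 4) (nat_lit 162664) (nat_lit 19) (node (nat_lit 5) (nat_lit 157682) (nat_lit 20) (node
  (nat_lit 7) (nat_lit 138504) (nat_lit 21) (node (nat_lit 4) (nat_lit 90379) (nat_lit 22) (node
  (nat_lit 7) (nat_lit 90583) (nat_lit 23) (node (nat_lit 5) (nat_lit 65333) (nat_lit 24) nil nil)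
  nil) nil) nil) nil) nil) nil) nil) (node (nat_lit 7) (nat_lit 169874) (nat_lit 16) (node
  (nat_lit 4) (nat_lit 169874) (nat_lit 17) (node (nat_lit 7) (nat_lit 169874) (nat_lit 18) nil
  nil) nil) nil)) nil) (node (nat_lit 0) (nat_lit 169874) (nat_lit 14) nil nil)) (node (nat_lit 0)
  (nat_lit 169874) (nat_lit 13) (node (nat_lit 7) (nat_lit 169874) (nat_lit 14) nil (node (nat_lit
  4) (nat_lit 169874) (nat_lit 14) nil (node (nat_lit 5) (nat_lit 169874) (nat_lit 14) nil nil)))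
  (node (nat_lit 5) (nat_lit 0) (nat_lit 13) (node (nat_lit 0) (nat_lit 169592) (nat_lit 14) nil
  nil) nil))) (node (nat_lit 0) (nat_lit 169874) (nat_lit 12) (node (nat_lit 7) (nat_lit 169874)
  (nat_lit 13) (node (nat_lit 5) (nat_lit 169874) (nat_lit 14) nil (node (nat_lit 4) (nat_lit
  169874) (nat_lit 14) nil nil)) (node (nat_lit 5) (nat_lit 169874) (nat_lit 13) (node (nat_lit 7)
  (nat_lit 169874) (nat_lit 14) (node (nat_lit 4) (nat_lit 169874) (nat_lit 15) nil nil) (node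
  (nat_lit 4) (nat_lit 169531) (nat_lit 14) nil nil)) (node (nat_lit 4) (nat_lit 169874) (nat_lit
  13) (node (nat_lit 7) (nat_lit 169874) (nat_lit 14) nil (node (nat_lit 5) (nat_lit 169531)
  (nat_lit 14) nil nil)) nil))) (node (nat_lit 7) (nat_lit 0) (nat_lit 12) (node (nat_lit 4)
  (nat_lit 169874) (nat_lit 13) (node (nat_lit 5) (nat_lit 169874) (nat_lit 14) (node (nat_lit 4)
  (nat_lit 169229) (nat_lit 15) (node (nat_lit 7) (nat_lit 168191) (nat_lit 16) (node (nat_lit 5)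
  (nat_lit 164009) (nat_lit 17) (node (nat_lit 4) (nat_lit 159933) (nat_lit 18) (node (nat_lit 5)
  (nat_lit 151117) (nat_lit 19) (node (nat_lit 7) (nat_lit 133940) (nat_lit 20) (node (nat_lit 4)
  (nat_lit 80858) (nat_lit 21) (node (nat_lit 5) (nat_lit 80963) (nat_lit 22) (node (nat_lit 4)
  (nat_lit 81083) (nat_lit 23) (node (nat_lit 7) (nat_lit 79065) (nat_lit 24) nil nil) nil) nil)
  nil) nil) nil) nil) (node (nat_lit 4) (nat_lit 167975) (nat_lit 17) (node (nat_lit 5) (nat_lit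
  167763) (nat_lit 18) nil nil) nil)) nil) (node (nat_lit 7) (nat_lit 169874) (nat_lit 15) (node
  (nat_lit 5) (nat_lit 169874) (nat_lit 16) nil nil) nil)) nil) (node (nat_lit 0) (nat_lit 169874)
  (nat_lit 13) (node (nat_lit 5) (nat_lit 169874) (nat_lit 14) nil nil) nil)) nil))) (node
  (nat_lit 0) (nat_lit 166748) (nat_lit 11) (node (nat_lit 7) (nat_lit 168690) (nat_lit 12) (node
  (nat_lit 5) (nat_lit 167423) (nat_lit 13) (node (nat_lit 7) (nat_lit 168321) (nat_lit 14) nil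
  nil) (node (nat_lit 4) (nat_lit 169874) (nat_lit 13) nil nil)) (node (nat_lit 5) (nat_lit
  168525) (nat_lit 12) (node (nat_lit 7) (nat_lit 166941) (nat_lit 13) nil (node (nat_lit 4)
  (nat_lit 167258) (nat_lit 13) nil nil)) (node (nat_lit 4) (nat_lit 167553) (nat_lit 12) (node
  (nat_lit 7) (nat_lit 168871) (nat_lit 13) (node (nat_lit 4) (nat_lit 164023) (nat_lit 14) nil
  nil) (node (nat_lit 5) (nat_lit 166286) (nat_lit 13) nil nil)) (node (nat_lit 0) (nat_lit
  168787) (nat_lit 12) nil nil)))) nil)) (node (nat_lit 5) (nat_lit 0) (nat_lit 10) (node (nat_lit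
  4) (nat_lit 0) (nat_lit 11) (node (nat_lit 7) (nat_lit 0) (nat_lit 12) (node (nat_lit 5)
  (nat_lit 0) (nat_lit 13) (node (nat_lit 7) (nat_lit 93206) (nat_lit 14) (node (nat_lit 4)
  (nat_lit 94589) (nat_lit 15) (node (nat_lit 5) (nat_lit 95050) (nat_lit 16) (node (nat_lit 7)
  (nat_lit 95643) (nat_lit 17) (node (nat_lit 5) (nat_lit 96104) (nat_lit 18) nil nil) (node
  (nat_lit 4) (nat_lit 95591) (nat_lit 17) nil nil)) (node (nat_lit 7) (nat_lit 95666) (nat_lit
  16) (node (nat_lit 5) (nat_lit 96029) (nat_lit 17) (node (nat_lit 4) (nat_lit 96450) (nat_lit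
  18) (node (nat_lit 5) (nat_lit 96189) (nat_lit 19) nil nil) nil) nil) nil)) nil) (node (nat_lit
  0) (nat_lit 92680) (nat_lit 14) nil nil)) (node (nat_lit 4) (nat_lit 149643) (nat_lit 13) (node
  (nat_lit 5) (nat_lit 149987) (nat_lit 14) (node (nat_lit 7) (nat_lit 152217) (nat_lit 15) nil
  nil) nil) (node (nat_lit 0) (nat_lit 151733) (nat_lit 13) nil nil))) (node (nat_lit 0) (nat_lit
  158608) (nat_lit 12) nil nil)) (node (nat_lit 0) (nat_lit 158398) (nat_lit 11) (node (nat_lit 5)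
  (nat_lit 160654) (nat_lit 12) (node (nat_lit 7) (nat_lit 161529) (nat_lit 13) nil (node (nat_lit
  4) (nat_lit 159387) (nat_lit 13) nil nil)) (node (nat_lit 4) (nat_lit 160339) (nat_lit 12) nil
  (node (nat_lit 7) (nat_lit 160437) (nat_lit 12) nil nil))) nil)) (node (nat_lit 0) (nat_lit
  164693) (nat_lit 10) (node (nat_lit 5) (nat_lit 164072) (nat_lit 11) (node (nat_lit 4) (nat_lit
  164876) (nat_lit 12) nil (node (nat_lit 7) (nat_lit 164857) (nat_lit 12) (node (nat_lit 4)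
  (nat_lit 163017) (nat_lit 13) nil nil) nil)) (node (nat_lit 7) (nat_lit 167129) (nat_lit 11)
  (node (nat_lit 5) (nat_lit 168522) (nat_lit 12) nil (node (nat_lit 4) (nat_lit 169168) (nat_lit
  12) nil nil)) (node (nat_lit 4) (nat_lit 166574) (nat_lit 11) (node (nat_lit 7) (nat_lit 166930)
  (nat_lit 12) (node (nat_lit 4) (nat_lit 163851) (nat_lit 13) nil nil) (node (nat_lit 5) (nat_lit
  164875) (nat_lit 12) nil nil)) (node (nat_lit 0) (nat_lit 167307) (nat_lit 11) nil nil))))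
  nil))) (node (nat_lit 5) (nat_lit 0) (nat_lit 9) (node (nat_lit 4) (nat_lit 0) (nat_lit 10)
  (node (nat_lit 7) (nat_lit 0) (nat_lit 11) (node (nat_lit 4) (nat_lit 169525) (nat_lit 12) (node
  (nat_lit 5) (nat_lit 169161) (nat_lit 13) (node (nat_lit 7) (nat_lit 169774) (nat_lit 14) (node
  (nat_lit 4) (nat_lit 169874) (nat_lit 15) (node (nat_lit 7) (nat_lit 169874) (nat_lit 16) (node
  (nat_lit 5) (nat_lit 169874) (nat_lit 17) (node (nat_lit 7) (nat_lit 169874) (nat_lit 18) (node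
  (nat_lit 4) (nat_lit 169874) (nat_lit 19) (node (nat_lit 5) (nat_lit 169874) (nat_lit 20) (node
  (nat_lit 4) (nat_lit 169874) (nat_lit 21) (node (nat_lit 7) (nat_lit 169867) (nat_lit 22) (node
  (nat_lit 5) (nat_lit 169023) (nat_lit 23) (node (nat_lit 4) (nat_lit 168911) (nat_lit 24) (node
  (nat_lit 5) (nat_lit 167740) (nat_lit 25) (node (nat_lit 7) (nat_lit 167045) (nat_lit 26) (node
  (nat_lit 5) (nat_lit 166054) (nat_lit 27) (node (nat_lit 4) (nat_lit 160192) (nat_lit 28) (node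
  (nat_lit 7) (nat_lit 154132) (nat_lit 29) (node (nat_lit 4) (nat_lit 143652) (nat_lit 30) (node
  (nat_lit 5) (nat_lit 128406) (nat_lit 31) (node (nat_lit 7) (nat_lit 100330) (nat_lit 32) (node
  (nat_lit 4) (nat_lit 68621) (nat_lit 33) (node (nat_lit 7) (nat_lit 8354) (nat_lit 34) nil nil)
  nil) nil) nil) nil) nil) nil) nil) nil) nil) nil) nil) nil) nil) nil) nil) nil) nil) nil) (node
  (nat_lit 5) (nat_lit 169874) (nat_lit 15) (node (nat_lit 4) (nat_lit 169874) (nat_lit 16) (node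
  (nat_lit 5) (nat_lit 169774) (nat_lit 17) (node (nat_lit 7) (nat_lit 169874) (nat_lit 18) (node
  (nat_lit 4) (nat_lit 169839) (nat_lit 19) (node (nat_lit 5) (nat_lit 169729) (nat_lit 20) (node
  (nat_lit 4) (nat_lit 169326) (nat_lit 21) (node (nat_lit 7) (nat_lit 169224) (nat_lit 22) (node
  (nat_lit 5) (nat_lit 168380) (nat_lit 23) (node (nat_lit 4) (nat_lit 168268) (nat_lit 24) (node
  (nat_lit 5) (nat_lit 167098) (nat_lit 25) (node (nat_lit 7) (nat_lit 166402) (nat_lit 26) (node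
  (nat_lit 5) (nat_lit 164752) (nat_lit 27) (node (nat_lit 4) (nat_lit 158890) (nat_lit 28) (node
  (nat_lit 7) (nat_lit 152398) (nat_lit 29) (node (nat_lit 4) (nat_lit 143288) (nat_lit 30) (node
  (nat_lit 5) (nat_lit 127612) (nat_lit 31) (node (nat_lit 7) (nat_lit 99101) (nat_lit 32) nil
  nil) nil) nil) nil) nil) nil) nil) nil) nil) nil) nil) nil) nil) nil) nil) nil) nil) nil)) (node
  (nat_lit 4) (nat_lit 166400) (nat_lit 14) (node (nat_lit 7) (nat_lit 164519) (nat_lit 15) (node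
  (nat_lit 5) (nat_lit 156824) (nat_lit 16) (node (nat_lit 4) (nat_lit 140375) (nat_lit 17) (node
  (nat_lit 5) (nat_lit 113060) (nat_lit 18) (node (nat_lit 7) (nat_lit 91338) (nat_lit 19) nil
  nil) nil) nil) nil) nil) nil)) nil) (node (nat_lit 5) (nat_lit 168867) (nat_lit 12) (node
  (nat_lit 7) (nat_lit 169459) (nat_lit 13) (node (nat_lit 4) (nat_lit 169107) (nat_lit 14) (node
  (nat_lit 5) (nat_lit 168909) (nat_lit 15) (node (nat_lit 4) (nat_lit 167917) (nat_lit 16) (node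
  (nat_lit 7) (nat_lit 167486) (nat_lit 17) (node (nat_lit 5) (nat_lit 164628) (nat_lit 18) (node
  (nat_lit 4) (nat_lit 162584) (nat_lit 19) (node (nat_lit 5) (nat_lit 153043) (nat_lit 20) (node
  (nat_lit 7) (nat_lit 133809) (nat_lit 21) (node (nat_lit 5) (nat_lit 110131) (nat_lit 22) (node
  (nat_lit 4) (nat_lit 78539) (nat_lit 23) (node (nat_lit 7) (nat_lit 35386) (nat_lit 24) nil nil)
  nil) nil) nil) nil) nil) nil) nil) nil) (node (nat_lit 7) (nat_lit 169585) (nat_lit 15) nil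
  nil)) nil) nil) (node (nat_lit 0) (nat_lit 169874) (nat_lit 12) nil nil))) (node (nat_lit 0)
  (nat_lit 165920) (nat_lit 11) (node (nat_lit 4) (nat_lit 164221) (nat_lit 12) nil (node (nat_lit
  7) (nat_lit 167959) (nat_lit 12) nil (node (nat_lit 5) (nat_lit 164221) (nat_lit 12) nil nil)))
  nil)) (node (nat_lit 0) (nat_lit 162831) (nat_lit 10) (node (nat_lit 7) (nat_lit 165267)
  (nat_lit 11) (node (nat_lit 4) (nat_lit 167306) (nat_lit 12) nil (node (nat_lit 5) (nat_lit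
  163568) (nat_lit 12) nil nil)) (node (nat_lit 4) (nat_lit 163943) (nat_lit 11) (node (nat_lit 7)
  (nat_lit 160832) (nat_lit 12) nil nil) (node (nat_lit 5) (nat_lit 163542) (nat_lit 11) nil (node
  (nat_lit 0) (nat_lit 165446) (nat_lit 11) nil nil)))) nil)) (node (nat_lit 0) (nat_lit 156845)
  (nat_lit 9) (node (nat_lit 5) (nat_lit 161347) (nat_lit 10) (node (nat_lit 4) (nat_lit 159144)
  (nat_lit 11) nil nil) (node (nat_lit 7) (nat_lit 163393) (nat_lit 10) (node (nat_lit 5) (nat_lit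
  161190) (nat_lit 11) nil nil) (node (nat_lit 4) (nat_lit 160156) (nat_lit 10) nil nil))) nil)))
  nil) nil) nil))

noncomputable def t206 : Tr :=
  (node (nat_lit 5) (nat_lit 0) (nat_lit 8) (node (nat_lit 4) (nat_lit 0) (nat_lit 9) (node
  (nat_lit 7) (nat_lit 0) (nat_lit 10) (node (nat_lit 5) (nat_lit 0) (nat_lit 11) (node (nat_lit
  7) (nat_lit 0) (nat_lit 12) (node (nat_lit 4) (nat_lit 0) (nat_lit 13) (node (nat_lit 5)
  (nat_lit 0) (nat_lit 14) (node (nat_lit 7) (nat_lit 0) (nat_lit 15) (node (nat_lit 5) (nat_lit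
  0) (nat_lit 16) (node (nat_lit 4) (nat_lit 0) (nat_lit 17) (node (nat_lit 5) (nat_lit 74199)
  (nat_lit 18) (node (nat_lit 7) (nat_lit 74557) (nat_lit 19) (node (nat_lit 4) (nat_lit 74839)
  (nat_lit 20) (node (nat_lit 7) (nat_lit 75057) (nat_lit 21) (node (nat_lit 5) (nat_lit 74933)
  (nat_lit 22) nil nil) (node (nat_lit 5) (nat_lit 75057) (nat_lit 21) (node (nat_lit 4) (nat_lit
  75229) (nat_lit 22) (node (nat_lit 7) (nat_lit 75363) (nat_lit 23) (node (nat_lit 4) (nat_lit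
  75468) (nat_lit 24) (node (nat_lit 5) (nat_lit 75142) (nat_lit 25) nil nil) nil) nil) nil) nil))
  nil) nil) (node (nat_lit 7) (nat_lit 0) (nat_lit 18) (node (nat_lit 4) (nat_lit 74557) (nat_lit
  19) (node (nat_lit 5) (nat_lit 74839) (nat_lit 20) (node (nat_lit 7) (nat_lit 75057) (nat_lit
  21) (node (nat_lit 4) (nat_lit 75229) (nat_lit 22) nil nil) (node (nat_lit 4) (nat_lit 75057)
  (nat_lit 21) (node (nat_lit 7) (nat_lit 75229) (nat_lit 22) nil nil) nil)) nil) (node (nat_lit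
  0) (nat_lit 74557) (nat_lit 19) nil nil)) (node (nat_lit 0) (nat_lit 74199) (nat_lit 18) nil
  nil))) (node (nat_lit 0) (nat_lit 73737) (nat_lit 17) (node (nat_lit 7) (nat_lit 74199) (nat_lit
  18) (node (nat_lit 5) (nat_lit 73938) (nat_lit 19) nil nil) (node (nat_lit 5) (nat_lit 73404)
  (nat_lit 18) (node (nat_lit 7) (nat_lit 73686) (nat_lit 19) nil nil) (node (nat_lit 4) (nat_lit
  73404) (nat_lit 18) nil nil))) nil)) (node (nat_lit 0) (nat_lit 73145) (nat_lit 16) (node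
  (nat_lit 7) (nat_lit 73737) (nat_lit 17) (node (nat_lit 5) (nat_lit 73404) (nat_lit 18) nil
  (node (nat_lit 4) (nat_lit 74199) (nat_lit 18) nil nil)) (node (nat_lit 5) (nat_lit 73737)
  (nat_lit 17) (node (nat_lit 7) (nat_lit 74199) (nat_lit 18) (node (nat_lit 4) (nat_lit 72879)
  (nat_lit 19) nil nil) nil) (node (nat_lit 4) (nat_lit 73737) (nat_lit 17) (node (nat_lit 5)
  (nat_lit 73404) (nat_lit 18) nil nil) nil))) nil)) (node (nat_lit 4) (nat_lit 0) (nat_lit 15)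
  (node (nat_lit 7) (nat_lit 0) (nat_lit 16) (node (nat_lit 4) (nat_lit 73737) (nat_lit 17) (node
  (nat_lit 5) (nat_lit 70282) (nat_lit 18) (node (nat_lit 7) (nat_lit 61642) (nat_lit 19) (node
  (nat_lit 5) (nat_lit 46188) (nat_lit 20) nil nil) nil) nil) (node (nat_lit 5) (nat_lit 73737)
  (nat_lit 17) (node (nat_lit 4) (nat_lit 74199) (nat_lit 18) (node (nat_lit 5) (nat_lit 74557)
  (nat_lit 19) (node (nat_lit 7) (nat_lit 74159) (nat_lit 20) nil nil) nil) nil) (node (nat_lit 0)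
  (nat_lit 73737) (nat_lit 17) nil nil))) (node (nat_lit 0) (nat_lit 73145) (nat_lit 16) nil nil))
  (node (nat_lit 0) (nat_lit 72390) (nat_lit 15) (node (nat_lit 4) (nat_lit 73145) (nat_lit 16)
  (node (nat_lit 5) (nat_lit 72721) (nat_lit 17) nil (node (nat_lit 7) (nat_lit 72297) (nat_lit
  17) nil nil)) (node (nat_lit 5) (nat_lit 73145) (nat_lit 16) (node (nat_lit 7) (nat_lit 72297)
  (nat_lit 17) nil nil) (node (nat_lit 7) (nat_lit 73145) (nat_lit 16) (node (nat_lit 4) (nat_lit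
  73737) (nat_lit 17) nil (node (nat_lit 5) (nat_lit 72721) (nat_lit 17) nil nil)) nil))) nil)))
  (node (nat_lit 7) (nat_lit 0) (nat_lit 14) (node (nat_lit 5) (nat_lit 72390) (nat_lit 15) (node
  (nat_lit 4) (nat_lit 73145) (nat_lit 16) (node (nat_lit 5) (nat_lit 73737) (nat_lit 17) (node
  (nat_lit 7) (nat_lit 74199) (nat_lit 18) (node (nat_lit 4) (nat_lit 74557) (nat_lit 19) (node
  (nat_lit 5) (nat_lit 72970) (nat_lit 20) (node (nat_lit 4) (nat_lit 71778) (nat_lit 21) (node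
  (nat_lit 7) (nat_lit 71075) (nat_lit 22) (node (nat_lit 4) (nat_lit 70613) (nat_lit 23) (node
  (nat_lit 5) (nat_lit 68699) (nat_lit 24) (node (nat_lit 7) (nat_lit 67408) (nat_lit 25) (node
  (nat_lit 5) (nat_lit 65990) (nat_lit 26) (node (nat_lit 4) (nat_lit 64100) (nat_lit 27) (node
  (nat_lit 7) (nat_lit 58380) (nat_lit 28) (node (nat_lit 5) (nat_lit 53438) (nat_lit 29) (node
  (nat_lit 7) (nat_lit 41675) (nat_lit 30) (node (nat_lit 4) (nat_lit 27007) (nat_lit 31) nil nil)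
  nil) nil) nil) nil) nil) nil) nil) nil) nil) nil) nil) (node (nat_lit 5) (nat_lit 74557)
  (nat_lit 19) (node (nat_lit 4) (nat_lit 74355) (nat_lit 20) (node (nat_lit 7) (nat_lit 74526)
  (nat_lit 21) (node (nat_lit 4) (nat_lit 74434) (nat_lit 22) (node (nat_lit 5) (nat_lit 74492)
  (nat_lit 23) (node (nat_lit 4) (nat_lit 73969) (nat_lit 24) (node (nat_lit 7) (nat_lit 73671)
  (nat_lit 25) nil nil) nil) nil) nil) nil) nil) nil)) nil) (node (nat_lit 7) (nat_lit 73737)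
  (nat_lit 17) (node (nat_lit 4) (nat_lit 74199) (nat_lit 18) (node (nat_lit 5) (nat_lit 72102)
  (nat_lit 19) (node (nat_lit 4) (nat_lit 70568) (nat_lit 20) (node (nat_lit 7) (nat_lit 69708)
  (nat_lit 21) nil nil) nil) nil) nil) nil)) nil) (node (nat_lit 0) (nat_lit 72390) (nat_lit 15)
  nil nil)) (node (nat_lit 0) (nat_lit 71418) (nat_lit 14) (node (nat_lit 5) (nat_lit 72390)
  (nat_lit 15) (node (nat_lit 4) (nat_lit 73145) (nat_lit 16) nil (node (nat_lit 7) (nat_lit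
  71277) (nat_lit 16) nil nil)) (node (nat_lit 7) (nat_lit 72390) (nat_lit 15) (node (nat_lit 4)
  (nat_lit 73145) (nat_lit 16) nil (node (nat_lit 5) (nat_lit 71843) (nat_lit 16) nil nil)) (node
  (nat_lit 4) (nat_lit 72390) (nat_lit 15) (node (nat_lit 5) (nat_lit 73145) (nat_lit 16) nil
  (node (nat_lit 7) (nat_lit 73145) (nat_lit 16) nil nil)) nil))) nil))) (node (nat_lit 0)
  (nat_lit 69022) (nat_lit 13) nil nil)) (node (nat_lit 0) (nat_lit 67427) (nat_lit 12) (node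
  (nat_lit 7) (nat_lit 69022) (nat_lit 13) nil (node (nat_lit 5) (nat_lit 69022) (nat_lit 13) nil
  (node (nat_lit 4) (nat_lit 66160) (nat_lit 13) nil nil))) nil)) (node (nat_lit 4) (nat_lit 0)
  (nat_lit 11) (node (nat_lit 5) (nat_lit 0) (nat_lit 12) (node (nat_lit 4) (nat_lit 70177)
  (nat_lit 13) (node (nat_lit 7) (nat_lit 71418) (nat_lit 14) (node (nat_lit 5) (nat_lit 72390)
  (nat_lit 15) (node (nat_lit 7) (nat_lit 73145) (nat_lit 16) (node (nat_lit 4) (nat_lit 73576)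
  (nat_lit 17) (node (nat_lit 5) (nat_lit 73632) (nat_lit 18) (node (nat_lit 4) (nat_lit 69057)
  (nat_lit 19) (node (nat_lit 7) (nat_lit 68151) (nat_lit 20) (node (nat_lit 4) (nat_lit 67730)
  (nat_lit 21) (node (nat_lit 5) (nat_lit 65398) (nat_lit 22) (node (nat_lit 7) (nat_lit 61726)
  (nat_lit 23) (node (nat_lit 5) (nat_lit 59194) (nat_lit 24) (node (nat_lit 4) (nat_lit 51148)
  (nat_lit 25) (node (nat_lit 7) (nat_lit 42103) (nat_lit 26) (node (nat_lit 4) (nat_lit 21828)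
  (nat_lit 27) nil nil) nil) nil) nil) nil) nil) nil) nil) (node (nat_lit 7) (nat_lit 73810)
  (nat_lit 19) nil nil)) nil) nil) (node (nat_lit 4) (nat_lit 73145) (nat_lit 16) (node (nat_lit
  5) (nat_lit 72721) (nat_lit 17) nil nil) nil)) nil) nil) (node (nat_lit 0) (nat_lit 70137)
  (nat_lit 13) nil nil)) (node (nat_lit 0) (nat_lit 68543) (nat_lit 12) (node (nat_lit 7) (nat_lit
  70137) (nat_lit 13) (node (nat_lit 4) (nat_lit 71378) (nat_lit 14) nil nil) (node (nat_lit 4)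
  (nat_lit 70177) (nat_lit 13) (node (nat_lit 5) (nat_lit 69238) (nat_lit 14) nil nil) (node
  (nat_lit 5) (nat_lit 70137) (nat_lit 13) nil nil))) nil)) (node (nat_lit 0) (nat_lit 65388)
  (nat_lit 11) (node (nat_lit 7) (nat_lit 67427) (nat_lit 12) (node (nat_lit 4) (nat_lit 69022)
  (nat_lit 13) (node (nat_lit 7) (nat_lit 70263) (nat_lit 14) nil nil) (node (nat_lit 5) (nat_lit
  69022) (nat_lit 13) (node (nat_lit 7) (nat_lit 67058) (nat_lit 14) nil nil) nil)) (node (nat_lit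
  5) (nat_lit 67427) (nat_lit 12) (node (nat_lit 7) (nat_lit 69022) (nat_lit 13) nil (node
  (nat_lit 4) (nat_lit 70014) (nat_lit 13) nil nil)) (node (nat_lit 4) (nat_lit 68254) (nat_lit
  12) (node (nat_lit 7) (nat_lit 69848) (nat_lit 13) (node (nat_lit 4) (nat_lit 71384) (nat_lit
  14) nil nil) (node (nat_lit 14) (nat_lit 69848) (nat_lit 13) nil (node (nat_lit 5) (nat_lit
  67315) (nat_lit 13) nil nil))) (node (nat_lit 0) (nat_lit 67427) (nat_lit 12) nil nil)))) nil)))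
  (node (nat_lit 5) (nat_lit 0) (nat_lit 10) (node (nat_lit 7) (nat_lit 0) (nat_lit 11) (node
  (nat_lit 4) (nat_lit 0) (nat_lit 12) (node (nat_lit 7) (nat_lit 0) (nat_lit 13) (node (nat_lit
  5) (nat_lit 0) (nat_lit 14) (node (nat_lit 4) (nat_lit 0) (nat_lit 15) (node (nat_lit 5)
  (nat_lit 73145) (nat_lit 16) (node (nat_lit 7) (nat_lit 0) (nat_lit 17) (node (nat_lit 5)
  (nat_lit 74199) (nat_lit 18) (node (nat_lit 4) (nat_lit 73938) (nat_lit 19) (node (nat_lit 7)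
  (nat_lit 74159) (nat_lit 20) (node (nat_lit 4) (nat_lit 74041) (nat_lit 21) (node (nat_lit 5)
  (nat_lit 74113) (nat_lit 22) (node (nat_lit 4) (nat_lit 73429) (nat_lit 23) (node (nat_lit 7)
  (nat_lit 73033) (nat_lit 24) nil nil) nil) nil) nil) nil) nil) (node (nat_lit 0) (nat_lit 74199)
  (nat_lit 18) nil nil)) nil) (node (nat_lit 7) (nat_lit 73145) (nat_lit 16) (node (nat_lit 4)
  (nat_lit 73737) (nat_lit 17) (node (nat_lit 5) (nat_lit 74199) (nat_lit 18) (node (nat_lit 7)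
  (nat_lit 74557) (nat_lit 19) (node (nat_lit 5) (nat_lit 74839) (nat_lit 20) nil nil) (node
  (nat_lit 4) (nat_lit 73408) (nat_lit 19) (node (nat_lit 7) (nat_lit 72706) (nat_lit 20) nil nil)
  nil)) nil) nil) (node (nat_lit 0) (nat_lit 73145) (nat_lit 16) nil nil))) (node (nat_lit 7)
  (nat_lit 0) (nat_lit 15) (node (nat_lit 4) (nat_lit 73145) (nat_lit 16) (node (nat_lit 5)
  (nat_lit 73737) (nat_lit 17) (node (nat_lit 4) (nat_lit 73749) (nat_lit 18) (node (nat_lit 7)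
  (nat_lit 72983) (nat_lit 19) (node (nat_lit 4) (nat_lit 72706) (nat_lit 20) (node (nat_lit 5)
  (nat_lit 69770) (nat_lit 21) (node (nat_lit 7) (nat_lit 67695) (nat_lit 22) (node (nat_lit 5)
  (nat_lit 61493) (nat_lit 23) (node (nat_lit 4) (nat_lit 54599) (nat_lit 24) (node (nat_lit 5)
  (nat_lit 40179) (nat_lit 25) (node (nat_lit 7) (nat_lit 12137) (nat_lit 26) nil nil) nil) nil)
  nil) nil) nil) nil) nil) (node (nat_lit 7) (nat_lit 74199) (nat_lit 18) (node (nat_lit 5)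
  (nat_lit 74557) (nat_lit 19) (node (nat_lit 4) (nat_lit 74355) (nat_lit 20) (node (nat_lit 7)
  (nat_lit 74526) (nat_lit 21) nil nil) nil) nil) nil)) nil) (node (nat_lit 0) (nat_lit 73145)
  (nat_lit 16) nil nil)) (node (nat_lit 0) (nat_lit 72390) (nat_lit 15) (node (nat_lit 4) (nat_lit
  71843) (nat_lit 16) nil (node (nat_lit 7) (nat_lit 73145) (nat_lit 16) nil (node (nat_lit 5)
  (nat_lit 71843) (nat_lit 16) nil nil))) nil))) (node (nat_lit 0) (nat_lit 71418) (nat_lit 14)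
  nil nil)) (node (nat_lit 5) (nat_lit 0) (nat_lit 13) (node (nat_lit 4) (nat_lit 71418) (nat_lit
  14) (node (nat_lit 7) (nat_lit 72390) (nat_lit 15) (node (nat_lit 5) (nat_lit 73145) (nat_lit
  16) (node (nat_lit 4) (nat_lit 73737) (nat_lit 17) (node (nat_lit 5) (nat_lit 73404) (nat_lit
  18) (node (nat_lit 7) (nat_lit 73686) (nat_lit 19) (node (nat_lit 4) (nat_lit 73536) (nat_lit
  20) nil nil) nil) nil) (node (nat_lit 7) (nat_lit 73737) (nat_lit 17) (node (nat_lit 4) (nat_lit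
  74199) (nat_lit 18) (node (nat_lit 5) (nat_lit 72102) (nat_lit 19) nil nil) nil) nil)) (node
  (nat_lit 4) (nat_lit 72067) (nat_lit 16) (node (nat_lit 5) (nat_lit 56933) (nat_lit 17) (node
  (nat_lit 7) (nat_lit 44699) (nat_lit 18) (node (nat_lit 4) (nat_lit 45057) (nat_lit 19) nil nil)
  nil) nil) nil)) nil) (node (nat_lit 0) (nat_lit 71418) (nat_lit 14) nil nil)) (node (nat_lit 0)
  (nat_lit 70177) (nat_lit 13) (node (nat_lit 5) (nat_lit 71418) (nat_lit 14) nil (node (nat_lit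
  7) (nat_lit 71418) (nat_lit 14) nil (node (nat_lit 4) (nat_lit 69238) (nat_lit 14) nil nil)))
  nil))) (node (nat_lit 0) (nat_lit 67427) (nat_lit 12) (node (nat_lit 7) (nat_lit 69022) (nat_lit
  13) (node (nat_lit 5) (nat_lit 70263) (nat_lit 14) nil (node (nat_lit 4) (nat_lit 70263)
  (nat_lit 14) nil nil)) (node (nat_lit 5) (nat_lit 69022) (nat_lit 13) (node (nat_lit 7) (nat_lit
  70263) (nat_lit 14) nil (node (nat_lit 4) (nat_lit 71384) (nat_lit 14) nil nil)) (node (nat_lit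
  4) (nat_lit 70014) (nat_lit 13) (node (nat_lit 7) (nat_lit 71256) (nat_lit 14) (node (nat_lit 4)
  (nat_lit 67410) (nat_lit 15) nil nil) (node (nat_lit 5) (nat_lit 71256) (nat_lit 14) nil nil))
  (node (nat_lit 0) (nat_lit 69022) (nat_lit 13) nil nil)))) nil)) (node (nat_lit 0) (nat_lit
  65388) (nat_lit 11) (node (nat_lit 5) (nat_lit 67427) (nat_lit 12) (node (nat_lit 7) (nat_lit
  69022) (nat_lit 13) (node (nat_lit 4) (nat_lit 71384) (nat_lit 14) nil (node (nat_lit 5)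
  (nat_lit 70263) (nat_lit 14) nil nil)) (node (nat_lit 4) (nat_lit 70014) (nat_lit 13) (node
  (nat_lit 7) (nat_lit 68051) (nat_lit 14) nil nil) (node (nat_lit 0) (nat_lit 69022) (nat_lit 13)
  nil nil))) (node (nat_lit 7) (nat_lit 67427) (nat_lit 12) (node (nat_lit 4) (nat_lit 69022)
  (nat_lit 13) nil (node (nat_lit 5) (nat_lit 69022) (nat_lit 13) (node (nat_lit 4) (nat_lit
  68083) (nat_lit 14) nil (node (nat_lit 7) (nat_lit 67058) (nat_lit 14) nil nil)) (node (nat_lit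
  14) (nat_lit 69022) (nat_lit 13) nil nil))) (node (nat_lit 4) (nat_lit 68254) (nat_lit 12) (node
  (nat_lit 5) (nat_lit 69848) (nat_lit 13) nil (node (nat_lit 7) (nat_lit 69848) (nat_lit 13)
  (node (nat_lit 4) (nat_lit 65082) (nat_lit 14) nil nil) (node (nat_lit 14) (nat_lit 69848)
  (nat_lit 13) nil nil))) (node (nat_lit 0) (nat_lit 67427) (nat_lit 12) nil nil)))) nil)) (node
  (nat_lit 0) (nat_lit 62774) (nat_lit 10) (node (nat_lit 5) (nat_lit 65388) (nat_lit 11) (node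
  (nat_lit 4) (nat_lit 67593) (nat_lit 12) (node (nat_lit 5) (nat_lit 66326) (nat_lit 13) nil nil)
  (node (nat_lit 7) (nat_lit 67427) (nat_lit 12) (node (nat_lit 4) (nat_lit 70014) (nat_lit 13)
  nil (node (nat_lit 5) (nat_lit 69022) (nat_lit 13) nil nil)) (node (nat_lit 13) (nat_lit 67427)
  (nat_lit 12) nil nil))) (node (nat_lit 7) (nat_lit 65388) (nat_lit 11) (node (nat_lit 4)
  (nat_lit 67427) (nat_lit 12) (node (nat_lit 7) (nat_lit 69022) (nat_lit 13) nil nil) (node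
  (nat_lit 5) (nat_lit 67427) (nat_lit 12) nil (node (nat_lit 13) (nat_lit 67427) (nat_lit 12) nil
  nil))) (node (nat_lit 4) (nat_lit 66005) (nat_lit 11) (node (nat_lit 5) (nat_lit 67685) (nat_lit
  12) nil (node (nat_lit 7) (nat_lit 68044) (nat_lit 12) nil nil)) (node (nat_lit 0) (nat_lit
  65388) (nat_lit 11) nil nil)))) nil))) (node (nat_lit 0) (nat_lit 0) (nat_lit 9) (node (nat_lit
  4) (nat_lit 60968) (nat_lit 10) (node (nat_lit 5) (nat_lit 63557) (nat_lit 11) (node (nat_lit 7)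
  (nat_lit 65152) (nat_lit 12) nil nil) (node (nat_lit 7) (nat_lit 63583) (nat_lit 11) (node
  (nat_lit 5) (nat_lit 61884) (nat_lit 12) nil (node (nat_lit 4) (nat_lit 66103) (nat_lit 12) nil
  nil)) nil)) (node (nat_lit 7) (nat_lit 55497) (nat_lit 10) (node (nat_lit 4) (nat_lit 64072)
  (nat_lit 11) (node (nat_lit 5) (nat_lit 66111) (nat_lit 12) nil nil) (node (nat_lit 5) (nat_lit
  58112) (nat_lit 11) nil nil)) (node (nat_lit 5) (nat_lit 55497) (nat_lit 10) (node (nat_lit 7)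
  (nat_lit 58112) (nat_lit 11) (node (nat_lit 4) (nat_lit 63655) (nat_lit 12) (node (nat_lit 5)
  (nat_lit 58582) (nat_lit 13) nil nil) nil) (node (nat_lit 4) (nat_lit 63557) (nat_lit 11) (node
  (nat_lit 7) (nat_lit 61320) (nat_lit 12) nil nil) nil)) (node (nat_lit 0) (nat_lit 60968)
  (nat_lit 10) nil nil)))) nil)) (node (nat_lit 4) (nat_lit 0) (nat_lit 8) (node (nat_lit 7)
  (nat_lit 0) (nat_lit 9) (node (nat_lit 5) (nat_lit 0) (nat_lit 10) (node (nat_lit 7) (nat_lit 0)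
  (nat_lit 11) (node (nat_lit 4) (nat_lit 0) (nat_lit 12) (node (nat_lit 5) (nat_lit 0) (nat_lit
  13) (node (nat_lit 4) (nat_lit 0) (nat_lit 14) (node (nat_lit 7) (nat_lit 0) (nat_lit 15) (node
  (nat_lit 5) (nat_lit 0) (nat_lit 16) (node (nat_lit 4) (nat_lit 73737) (nat_lit 17) (node
  (nat_lit 5) (nat_lit 73404) (nat_lit 18) (node (nat_lit 7) (nat_lit 73686) (nat_lit 19) (node
  (nat_lit 4) (nat_lit 73536) (nat_lit 20) (node (nat_lit 5) (nat_lit 73617) (nat_lit 21) (node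
  (nat_lit 4) (nat_lit 72724) (nat_lit 22) (node (nat_lit 7) (nat_lit 72137) (nat_lit 23) (node
  (nat_lit 4) (nat_lit 71246) (nat_lit 24) nil nil) nil) nil) nil) nil) nil) nil) (node (nat_lit
  7) (nat_lit 73737) (nat_lit 17) (node (nat_lit 4) (nat_lit 74199) (nat_lit 18) nil nil) (node
  (nat_lit 0) (nat_lit 73737) (nat_lit 17) nil nil))) (node (nat_lit 4) (nat_lit 73145) (nat_lit
  16) (node (nat_lit 5) (nat_lit 65842) (nat_lit 17) (node (nat_lit 7) (nat_lit 58669) (nat_lit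
  18) (node (nat_lit 5) (nat_lit 59171) (nat_lit 19) (node (nat_lit 4) (nat_lit 59564) (nat_lit
  20) nil nil) nil) nil) nil) (node (nat_lit 0) (nat_lit 73145) (nat_lit 16) (node (nat_lit 4)
  (nat_lit 72721) (nat_lit 17) nil (node (nat_lit 7) (nat_lit 73737) (nat_lit 17) nil nil)) nil)))
  (node (nat_lit 0) (nat_lit 72390) (nat_lit 15) (node (nat_lit 4) (nat_lit 71843) (nat_lit 16)
  (node (nat_lit 7) (nat_lit 72297) (nat_lit 17) nil nil) (node (nat_lit 7) (nat_lit 73145)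
  (nat_lit 16) nil (node (nat_lit 5) (nat_lit 71843) (nat_lit 16) nil nil))) nil)) (node (nat_lit
  7) (nat_lit 0) (nat_lit 14) (node (nat_lit 5) (nat_lit 0) (nat_lit 15) (node (nat_lit 4)
  (nat_lit 73145) (nat_lit 16) (node (nat_lit 5) (nat_lit 73737) (nat_lit 17) (node (nat_lit 7)
  (nat_lit 74199) (nat_lit 18) (node (nat_lit 4) (nat_lit 74557) (nat_lit 19) (node (nat_lit 5)
  (nat_lit 72970) (nat_lit 20) (node (nat_lit 4) (nat_lit 71778) (nat_lit 21) (node (nat_lit 7)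
  (nat_lit 71026) (nat_lit 22) (node (nat_lit 4) (nat_lit 69927) (nat_lit 23) (node (nat_lit 5)
  (nat_lit 69638) (nat_lit 24) (node (nat_lit 7) (nat_lit 67508) (nat_lit 25) (node (nat_lit 4)
  (nat_lit 66640) (nat_lit 26) (node (nat_lit 7) (nat_lit 62889) (nat_lit 27) (node (nat_lit 5)
  (nat_lit 58325) (nat_lit 28) (node (nat_lit 7) (nat_lit 51833) (nat_lit 29) (node (nat_lit 4)
  (nat_lit 42725) (nat_lit 30) (node (nat_lit 5) (nat_lit 27069) (nat_lit 31) nil nil) nil) nil)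
  nil) nil) nil) nil) nil) nil) nil) nil) nil) nil) nil) (node (nat_lit 7) (nat_lit 73737)
  (nat_lit 17) (node (nat_lit 4) (nat_lit 74199) (nat_lit 18) (node (nat_lit 5) (nat_lit 74557)
  (nat_lit 19) (node (nat_lit 7) (nat_lit 74839) (nat_lit 20) (node (nat_lit 4) (nat_lit 75057)
  (nat_lit 21) nil nil) (node (nat_lit 4) (nat_lit 70568) (nat_lit 20) (node (nat_lit 7) (nat_lit
  69644) (nat_lit 21) nil nil) nil)) nil) nil) nil)) (node (nat_lit 0) (nat_lit 73145) (nat_lit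
  16) (node (nat_lit 7) (nat_lit 73737) (nat_lit 17) nil (node (nat_lit 4) (nat_lit 72721)
  (nat_lit 17) nil (node (nat_lit 5) (nat_lit 72721) (nat_lit 17) nil nil))) nil)) (node (nat_lit
  0) (nat_lit 72390) (nat_lit 15) (node (nat_lit 7) (nat_lit 73145) (nat_lit 16) (node (nat_lit 5)
  (nat_lit 72721) (nat_lit 17) nil (node (nat_lit 4) (nat_lit 73737) (nat_lit 17) nil nil)) (node
  (nat_lit 5) (nat_lit 73145) (nat_lit 16) (node (nat_lit 7) (nat_lit 72297) (nat_lit 17) nil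
  (node (nat_lit 4) (nat_lit 72721) (nat_lit 17) nil nil)) (node (nat_lit 4) (nat_lit 73145)
  (nat_lit 16) (node (nat_lit 7) (nat_lit 72297) (nat_lit 17) nil (node (nat_lit 5) (nat_lit
  72721) (nat_lit 17) nil nil)) nil))) nil)) (node (nat_lit 0) (nat_lit 71418) (nat_lit 14) (node
  (nat_lit 5) (nat_lit 72390) (nat_lit 15) (node (nat_lit 7) (nat_lit 73145) (nat_lit 16) (node
  (nat_lit 4) (nat_lit 73737) (nat_lit 17) nil nil) (node (nat_lit 4) (nat_lit 73145) (nat_lit 16)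
  nil nil)) (node (nat_lit 7) (nat_lit 72390) (nat_lit 15) (node (nat_lit 4) (nat_lit 73145)
  (nat_lit 16) nil (node (nat_lit 5) (nat_lit 71843) (nat_lit 16) nil nil)) (node (nat_lit 4)
  (nat_lit 72390) (nat_lit 15) (node (nat_lit 7) (nat_lit 73145) (nat_lit 16) (node (nat_lit 4)
  (nat_lit 70876) (nat_lit 17) nil nil) (node (nat_lit 5) (nat_lit 73145) (nat_lit 16) nil nil))
  (node (nat_lit 0) (nat_lit 72390) (nat_lit 15) nil nil)))) nil))) (node (nat_lit 0) (nat_lit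
  70177) (nat_lit 13) (node (nat_lit 7) (nat_lit 71418) (nat_lit 14) (node (nat_lit 4) (nat_lit
  72390) (nat_lit 15) nil (node (nat_lit 5) (nat_lit 72390) (nat_lit 15) nil nil)) (node (nat_lit
  4) (nat_lit 71418) (nat_lit 14) (node (nat_lit 5) (nat_lit 72390) (nat_lit 15) (node (nat_lit 7)
  (nat_lit 73145) (nat_lit 16) nil nil) (node (nat_lit 7) (nat_lit 72390) (nat_lit 15) (node
  (nat_lit 4) (nat_lit 73145) (nat_lit 16) nil nil) nil)) (node (nat_lit 5) (nat_lit 71418)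
  (nat_lit 14) (node (nat_lit 4) (nat_lit 72390) (nat_lit 15) nil (node (nat_lit 7) (nat_lit
  72390) (nat_lit 15) (node (nat_lit 4) (nat_lit 69407) (nat_lit 16) nil nil) nil)) (node (nat_lit
  0) (nat_lit 71418) (nat_lit 14) nil nil)))) nil)) (node (nat_lit 0) (nat_lit 66445) (nat_lit 12)
  (node (nat_lit 5) (nat_lit 68039) (nat_lit 13) (node (nat_lit 7) (nat_lit 69281) (nat_lit 14)
  (node (nat_lit 4) (nat_lit 71919) (nat_lit 15) (node (nat_lit 5) (nat_lit 67995) (nat_lit 16)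
  (node (nat_lit 4) (nat_lit 65826) (nat_lit 17) (node (nat_lit 7) (nat_lit 63897) (nat_lit 18)
  (node (nat_lit 4) (nat_lit 59887) (nat_lit 19) nil nil) nil) nil) nil) (node (nat_lit 5)
  (nat_lit 70252) (nat_lit 15) nil nil)) (node (nat_lit 4) (nat_lit 70847) (nat_lit 14) (node
  (nat_lit 7) (nat_lit 69364) (nat_lit 15) (node (nat_lit 4) (nat_lit 68836) (nat_lit 16) (node
  (nat_lit 5) (nat_lit 69036) (nat_lit 17) nil nil) nil) (node (nat_lit 5) (nat_lit 70711)
  (nat_lit 15) nil nil)) (node (nat_lit 15) (nat_lit 69281) (nat_lit 14) nil nil))) (node (nat_lit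
  4) (nat_lit 70177) (nat_lit 13) (node (nat_lit 5) (nat_lit 71418) (nat_lit 14) (node (nat_lit 7)
  (nat_lit 72390) (nat_lit 15) (node (nat_lit 5) (nat_lit 73145) (nat_lit 16) nil (node (nat_lit
  4) (nat_lit 69407) (nat_lit 16) nil nil)) (node (nat_lit 4) (nat_lit 70711) (nat_lit 15) nil
  nil)) (node (nat_lit 7) (nat_lit 71418) (nat_lit 14) (node (nat_lit 4) (nat_lit 72390) (nat_lit
  15) (node (nat_lit 5) (nat_lit 73145) (nat_lit 16) (node (nat_lit 4) (nat_lit 66297) (nat_lit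
  17) nil nil) nil) (node (nat_lit 5) (nat_lit 70711) (nat_lit 15) nil nil)) (node (nat_lit 15)
  (nat_lit 71418) (nat_lit 14) nil nil))) (node (nat_lit 7) (nat_lit 68039) (nat_lit 13) (node
  (nat_lit 4) (nat_lit 70847) (nat_lit 14) (node (nat_lit 7) (nat_lit 71819) (nat_lit 15) nil
  (node (nat_lit 5) (nat_lit 71819) (nat_lit 15) nil nil)) (node (nat_lit 5) (nat_lit 69281)
  (nat_lit 14) (node (nat_lit 7) (nat_lit 70252) (nat_lit 15) (node (nat_lit 4) (nat_lit 67270)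
  (nat_lit 16) nil nil) (node (nat_lit 4) (nat_lit 71919) (nat_lit 15) nil nil)) (node (nat_lit 0)
  (nat_lit 69281) (nat_lit 14) nil nil))) (node (nat_lit 0) (nat_lit 69477) (nat_lit 13) (node
  (nat_lit 7) (nat_lit 70718) (nat_lit 14) nil nil) nil)))) nil)) (node (nat_lit 4) (nat_lit 0)
  (nat_lit 11) (node (nat_lit 7) (nat_lit 0) (nat_lit 12) (node (nat_lit 4) (nat_lit 0) (nat_lit
  13) (node (nat_lit 5) (nat_lit 0) (nat_lit 14) (node (nat_lit 4) (nat_lit 72390) (nat_lit 15)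
  (node (nat_lit 7) (nat_lit 73145) (nat_lit 16) (node (nat_lit 5) (nat_lit 73737) (nat_lit 17)
  (node (nat_lit 7) (nat_lit 74199) (nat_lit 18) (node (nat_lit 4) (nat_lit 74557) (nat_lit 19)
  nil nil) (node (nat_lit 4) (nat_lit 74199) (nat_lit 18) nil nil)) nil) nil) (node (nat_lit 7)
  (nat_lit 72390) (nat_lit 15) (node (nat_lit 5) (nat_lit 73145) (nat_lit 16) (node (nat_lit 4)
  (nat_lit 73737) (nat_lit 17) (node (nat_lit 5) (nat_lit 73404) (nat_lit 18) (node (nat_lit 7)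
  (nat_lit 73686) (nat_lit 19) (node (nat_lit 4) (nat_lit 73536) (nat_lit 20) nil nil) nil) (node
  (nat_lit 7) (nat_lit 73083) (nat_lit 18) nil nil)) nil) (node (nat_lit 0) (nat_lit 73145)
  (nat_lit 16) nil nil)) (node (nat_lit 0) (nat_lit 72390) (nat_lit 15) nil nil))) (node (nat_lit
  0) (nat_lit 71418) (nat_lit 14) (node (nat_lit 7) (nat_lit 72390) (nat_lit 15) (node (nat_lit 4)
  (nat_lit 73145) (nat_lit 16) nil nil) (node (nat_lit 5) (nat_lit 70711) (nat_lit 15) nil (node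
  (nat_lit 4) (nat_lit 70711) (nat_lit 15) nil nil))) nil)) (node (nat_lit 0) (nat_lit 69960)
  (nat_lit 13) (node (nat_lit 7) (nat_lit 71202) (nat_lit 14) (node (nat_lit 4) (nat_lit 72174)
  (nat_lit 15) nil nil) (node (nat_lit 4) (nat_lit 71418) (nat_lit 14) (node (nat_lit 7) (nat_lit
  69935) (nat_lit 15) nil nil) (node (nat_lit 5) (nat_lit 71202) (nat_lit 14) (node (nat_lit 7)
  (nat_lit 69719) (nat_lit 15) nil nil) nil))) nil)) (node (nat_lit 5) (nat_lit 0) (nat_lit 12)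
  (node (nat_lit 7) (nat_lit 0) (nat_lit 13) (node (nat_lit 4) (nat_lit 71418) (nat_lit 14) (node
  (nat_lit 5) (nat_lit 72390) (nat_lit 15) (node (nat_lit 4) (nat_lit 73145) (nat_lit 16) (node
  (nat_lit 7) (nat_lit 73737) (nat_lit 17) (node (nat_lit 4) (nat_lit 74199) (nat_lit 18) (node
  (nat_lit 5) (nat_lit 74557) (nat_lit 19) (node (nat_lit 7) (nat_lit 66763) (nat_lit 20) (node
  (nat_lit 4) (nat_lit 25749) (nat_lit 21) nil nil) nil) nil) nil) nil) nil) (node (nat_lit 7)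
  (nat_lit 72390) (nat_lit 15) nil nil)) (node (nat_lit 5) (nat_lit 71202) (nat_lit 14) (node
  (nat_lit 4) (nat_lit 72390) (nat_lit 15) (node (nat_lit 7) (nat_lit 73145) (nat_lit 16) (node
  (nat_lit 4) (nat_lit 73737) (nat_lit 17) (node (nat_lit 5) (nat_lit 74199) (nat_lit 18) (node
  (nat_lit 4) (nat_lit 74557) (nat_lit 19) (node (nat_lit 7) (nat_lit 74334) (nat_lit 20) nil nil)
  nil) nil) nil) nil) nil) (node (nat_lit 0) (nat_lit 71202) (nat_lit 14) nil nil))) (node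
  (nat_lit 0) (nat_lit 69960) (nat_lit 13) (node (nat_lit 7) (nat_lit 71202) (nat_lit 14) nil
  (node (nat_lit 5) (nat_lit 69022) (nat_lit 14) nil (node (nat_lit 4) (nat_lit 69022) (nat_lit
  14) nil nil))) nil)) (node (nat_lit 0) (nat_lit 68366) (nat_lit 12) (node (nat_lit 5) (nat_lit
  69960) (nat_lit 13) (node (nat_lit 4) (nat_lit 69022) (nat_lit 14) nil nil) (node (nat_lit 7)
  (nat_lit 69960) (nat_lit 13) (node (nat_lit 4) (nat_lit 71202) (nat_lit 14) nil (node (nat_lit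
  5) (nat_lit 69022) (nat_lit 14) nil nil)) (node (nat_lit 4) (nat_lit 70177) (nat_lit 13) (node
  (nat_lit 7) (nat_lit 68213) (nat_lit 14) nil (node (nat_lit 5) (nat_lit 69238) (nat_lit 14) nil
  nil)) nil))) nil))) (node (nat_lit 0) (nat_lit 64406) (nat_lit 11) (node (nat_lit 5) (nat_lit
  66445) (nat_lit 12) (node (nat_lit 7) (nat_lit 68039) (nat_lit 13) (node (nat_lit 4) (nat_lit
  70847) (nat_lit 14) (node (nat_lit 5) (nat_lit 65871) (nat_lit 15) nil nil) nil) (node (nat_lit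
  4) (nat_lit 69477) (nat_lit 13) nil nil)) (node (nat_lit 7) (nat_lit 66445) (nat_lit 12) (node
  (nat_lit 5) (nat_lit 68039) (nat_lit 13) (node (nat_lit 7) (nat_lit 67997) (nat_lit 14) (node
  (nat_lit 4) (nat_lit 65435) (nat_lit 15) nil nil) nil) (node (nat_lit 4) (nat_lit 68039)
  (nat_lit 13) nil nil)) (node (nat_lit 4) (nat_lit 67717) (nat_lit 12) (node (nat_lit 7) (nat_lit
  69311) (nat_lit 13) (node (nat_lit 4) (nat_lit 64545) (nat_lit 14) nil nil) (node (nat_lit 5)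
  (nat_lit 69311) (nat_lit 13) nil nil)) (node (nat_lit 0) (nat_lit 66445) (nat_lit 12) nil
  nil)))) nil))) (node (nat_lit 0) (nat_lit 61791) (nat_lit 10) (node (nat_lit 5) (nat_lit 64406)
  (nat_lit 11) (node (nat_lit 7) (nat_lit 61295) (nat_lit 12) nil (node (nat_lit 4) (nat_lit
  62707) (nat_lit 12) nil nil)) (node (nat_lit 4) (nat_lit 65468) (nat_lit 11) (node (nat_lit 5)
  (nat_lit 63769) (nat_lit 12) nil (node (nat_lit 7) (nat_lit 67507) (nat_lit 12) nil nil)) (node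
  (nat_lit 7) (nat_lit 64406) (nat_lit 11) nil nil))) nil)) (node (nat_lit 0) (nat_lit 0) (nat_lit
  9) (node (nat_lit 4) (nat_lit 62582) (nat_lit 10) (node (nat_lit 5) (nat_lit 64003) (nat_lit 11)
  (node (nat_lit 7) (nat_lit 65599) (nat_lit 12) (node (nat_lit 4) (nat_lit 62416) (nat_lit 13)
  nil nil) nil) (node (nat_lit 7) (nat_lit 65197) (nat_lit 11) (node (nat_lit 5) (nat_lit 63498)
  (nat_lit 12) nil (node (nat_lit 4) (nat_lit 67068) (nat_lit 12) (node (nat_lit 5) (nat_lit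
  58879) (nat_lit 13) nil nil) nil)) nil)) (node (nat_lit 5) (nat_lit 61791) (nat_lit 10) (node
  (nat_lit 7) (nat_lit 64406) (nat_lit 11) (node (nat_lit 4) (nat_lit 67068) (nat_lit 12) (node
  (nat_lit 5) (nat_lit 67270) (nat_lit 13) (node (nat_lit 4) (nat_lit 51747) (nat_lit 14) nil nil)
  nil) nil) (node (nat_lit 4) (nat_lit 64003) (nat_lit 11) (node (nat_lit 7) (nat_lit 65599)
  (nat_lit 12) (node (nat_lit 4) (nat_lit 62687) (nat_lit 13) nil nil) nil) nil)) (node (nat_lit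
  7) (nat_lit 61791) (nat_lit 10) (node (nat_lit 5) (nat_lit 64406) (nat_lit 11) (node (nat_lit 4)
  (nat_lit 67344) (nat_lit 12) (node (nat_lit 5) (nat_lit 66365) (nat_lit 13) nil nil) (node
  (nat_lit 7) (nat_lit 61654) (nat_lit 12) nil nil)) (node (nat_lit 4) (nat_lit 64406) (nat_lit
  11) (node (nat_lit 5) (nat_lit 66445) (nat_lit 12) nil nil) nil)) (node (nat_lit 0) (nat_lit
  62582) (nat_lit 10) nil nil)))) nil)) nil))

noncomputable def c83 : Tr :=
  (node (nat_lit 3) (nat_lit 0) (nat_lit 1) (node (nat_lit 3) (nat_lit 0) (nat_lit 2) (node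
  (nat_lit 3) (nat_lit 0) (nat_lit 3) (node (nat_lit 4) (nat_lit 0) (nat_lit 4) (node (nat_lit 6)
  (nat_lit 0) (nat_lit 5) (node (nat_lit 5) (nat_lit 0) (nat_lit 6) t199 nil) (node (nat_lit 5)
  (nat_lit 0) (nat_lit 5) (node (nat_lit 4) (nat_lit 0) (nat_lit 6) (node (nat_lit 6) (nat_lit 0)
  (nat_lit 7) (node (nat_lit 5) (nat_lit 0) (nat_lit 8) t200 (node (nat_lit 4) (nat_lit 0)
  (nat_lit 8) (node (nat_lit 5) (nat_lit 0) (nat_lit 9) (node (nat_lit 6) (nat_lit 0) (nat_lit 10)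
  (node (nat_lit 4) (nat_lit 0) (nat_lit 11) (node (nat_lit 6) (nat_lit 0) (nat_lit 12) (node
  (nat_lit 5) (nat_lit 0) (nat_lit 13) (node (nat_lit 4) (nat_lit 0) (nat_lit 14) (node (nat_lit
  6) (nat_lit 0) (nat_lit 15) (node (nat_lit 4) (nat_lit 0) (nat_lit 16) (node (nat_lit 5)
  (nat_lit 75049) (nat_lit 17) (node (nat_lit 4) (nat_lit 75405) (nat_lit 18) (node (nat_lit 6)
  (nat_lit 75150) (nat_lit 19) (node (nat_lit 5) (nat_lit 75093) (nat_lit 20) (node (nat_lit 4)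
  (nat_lit 75037) (nat_lit 21) (node (nat_lit 5) (nat_lit 74896) (nat_lit 22) (node (nat_lit 6)
  (nat_lit 74663) (nat_lit 23) (node (nat_lit 4) (nat_lit 74002) (nat_lit 24) (node (nat_lit 5)
  (nat_lit 73791) (nat_lit 25) (node (nat_lit 4) (nat_lit 72508) (nat_lit 26) nil nil) nil) nil)
  nil) nil) nil) nil) nil) (node (nat_lit 6) (nat_lit 74725) (nat_lit 18) (node (nat_lit 5)
  (nat_lit 74653) (nat_lit 19) (node (nat_lit 4) (nat_lit 74577) (nat_lit 20) (node (nat_lit 5)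
  (nat_lit 74388) (nat_lit 21) (node (nat_lit 6) (nat_lit 74075) (nat_lit 22) (node (nat_lit 4)
  (nat_lit 73186) (nat_lit 23) nil nil) nil) nil) nil) nil) nil)) (node (nat_lit 0) (nat_lit
  75049) (nat_lit 17) nil nil)) (node (nat_lit 0) (nat_lit 74409) (nat_lit 16) (node (nat_lit 6)
  (nat_lit 73993) (nat_lit 17) (node (nat_lit 5) (nat_lit 73901) (nat_lit 18) (node (nat_lit 4)
  (nat_lit 73795) (nat_lit 19) nil nil) nil) (node (nat_lit 4) (nat_lit 74864) (nat_lit 17) (node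
  (nat_lit 6) (nat_lit 74541) (nat_lit 18) nil nil) (node (nat_lit 5) (nat_lit 74864) (nat_lit 17)
  nil nil))) nil)) (node (nat_lit 5) (nat_lit 0) (nat_lit 15) (node (nat_lit 6) (nat_lit 74409)
  (nat_lit 16) (node (nat_lit 5) (nat_lit 74864) (nat_lit 17) (node (nat_lit 4) (nat_lit 75518)
  (nat_lit 18) (node (nat_lit 6) (nat_lit 75795) (nat_lit 19) nil nil) nil) (node (nat_lit 4)
  (nat_lit 75113) (nat_lit 17) (node (nat_lit 5) (nat_lit 75469) (nat_lit 18) (node (nat_lit 4)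
  (nat_lit 71862) (nat_lit 19) (node (nat_lit 6) (nat_lit 66268) (nat_lit 20) (node (nat_lit 4)
  (nat_lit 59739) (nat_lit 21) (node (nat_lit 5) (nat_lit 35628) (nat_lit 22) nil nil) nil) nil)
  nil) nil) nil)) (node (nat_lit 0) (nat_lit 74409) (nat_lit 16) nil nil)) (node (nat_lit 0)
  (nat_lit 73827) (nat_lit 15) (node (nat_lit 5) (nat_lit 74409) (nat_lit 16) (node (nat_lit 4)
  (nat_lit 74864) (nat_lit 17) nil nil) (node (nat_lit 4) (nat_lit 74409) (nat_lit 16) nil (node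
  (nat_lit 6) (nat_lit 73293) (nat_lit 16) (node (nat_lit 5) (nat_lit 73162) (nat_lit 17) nil nil)
  nil))) nil))) (node (nat_lit 6) (nat_lit 0) (nat_lit 14) (node (nat_lit 4) (nat_lit 73681)
  (nat_lit 15) (node (nat_lit 5) (nat_lit 74263) (nat_lit 16) (node (nat_lit 4) (nat_lit 74863)
  (nat_lit 17) (node (nat_lit 6) (nat_lit 75219) (nat_lit 18) (node (nat_lit 4) (nat_lit 75584)
  (nat_lit 19) (node (nat_lit 5) (nat_lit 75799) (nat_lit 20) (node (nat_lit 6) (nat_lit 75643)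
  (nat_lit 21) (node (nat_lit 5) (nat_lit 75609) (nat_lit 22) (node (nat_lit 4) (nat_lit 75575)
  (nat_lit 23) (node (nat_lit 5) (nat_lit 75489) (nat_lit 24) (node (nat_lit 6) (nat_lit 75354)
  (nat_lit 25) (node (nat_lit 4) (nat_lit 74972) (nat_lit 26) nil nil) nil) nil) nil) nil) nil)
  nil) (node (nat_lit 5) (nat_lit 75496) (nat_lit 19) nil nil)) nil) (node (nat_lit 6) (nat_lit
  74718) (nat_lit 17) (node (nat_lit 5) (nat_lit 75074) (nat_lit 18) (node (nat_lit 4) (nat_lit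
  75584) (nat_lit 19) (node (nat_lit 5) (nat_lit 73618) (nat_lit 20) (node (nat_lit 6) (nat_lit
  73188) (nat_lit 21) (node (nat_lit 4) (nat_lit 72037) (nat_lit 22) nil nil) nil) nil) nil) nil)
  nil)) nil) (node (nat_lit 0) (nat_lit 73053) (nat_lit 15) nil nil)) (node (nat_lit 0) (nat_lit
  72306) (nat_lit 14) (node (nat_lit 6) (nat_lit 73053) (nat_lit 15) (node (nat_lit 5) (nat_lit
  73635) (nat_lit 16) nil (node (nat_lit 4) (nat_lit 73635) (nat_lit 16) nil nil)) (node (nat_lit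
  4) (nat_lit 73053) (nat_lit 15) (node (nat_lit 5) (nat_lit 73635) (nat_lit 16) nil (node
  (nat_lit 6) (nat_lit 72519) (nat_lit 16) nil nil)) (node (nat_lit 5) (nat_lit 73053) (nat_lit
  15) (node (nat_lit 4) (nat_lit 73635) (nat_lit 16) nil (node (nat_lit 6) (nat_lit 72519)
  (nat_lit 16) nil nil)) nil))) nil))) (node (nat_lit 0) (nat_lit 71350) (nat_lit 13) nil nil))
  (node (nat_lit 0) (nat_lit 70123) (nat_lit 12) (node (nat_lit 4) (nat_lit 71350) (nat_lit 13)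
  nil (node (nat_lit 6) (nat_lit 68895) (nat_lit 13) nil (node (nat_lit 5) (nat_lit 71350)
  (nat_lit 13) nil nil))) nil)) (node (nat_lit 5) (nat_lit 0) (nat_lit 11) (node (nat_lit 4)
  (nat_lit 0) (nat_lit 12) (node (nat_lit 6) (nat_lit 0) (nat_lit 13) (node (nat_lit 5) (nat_lit
  72606) (nat_lit 14) (node (nat_lit 6) (nat_lit 73353) (nat_lit 15) (node (nat_lit 4) (nat_lit
  73935) (nat_lit 16) (node (nat_lit 6) (nat_lit 73519) (nat_lit 17) (node (nat_lit 5) (nat_lit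
  73427) (nat_lit 18) (node (nat_lit 4) (nat_lit 73320) (nat_lit 19) (node (nat_lit 5) (nat_lit
  73058) (nat_lit 20) (node (nat_lit 6) (nat_lit 72628) (nat_lit 21) (node (nat_lit 4) (nat_lit
  71476) (nat_lit 22) (node (nat_lit 5) (nat_lit 71188) (nat_lit 23) (node (nat_lit 4) (nat_lit
  69309) (nat_lit 24) (node (nat_lit 6) (nat_lit 67980) (nat_lit 25) (node (nat_lit 4) (nat_lit
  67097) (nat_lit 26) (node (nat_lit 5) (nat_lit 63334) (nat_lit 27) (node (nat_lit 6) (nat_lit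
  58771) (nat_lit 28) (node (nat_lit 5) (nat_lit 52247) (nat_lit 29) (node (nat_lit 4) (nat_lit
  43147) (nat_lit 30) (node (nat_lit 6) (nat_lit 27499) (nat_lit 31) nil nil) nil) nil) nil) nil)
  nil) nil) nil) nil) nil) nil) nil) nil) nil) (node (nat_lit 5) (nat_lit 74390) (nat_lit 17)
  (node (nat_lit 4) (nat_lit 74746) (nat_lit 18) nil nil) nil)) nil) nil) (node (nat_lit 4)
  (nat_lit 72910) (nat_lit 14) (node (nat_lit 5) (nat_lit 73658) (nat_lit 15) (node (nat_lit 4)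
  (nat_lit 74239) (nat_lit 16) (node (nat_lit 6) (nat_lit 73824) (nat_lit 17) (node (nat_lit 5)
  (nat_lit 73731) (nat_lit 18) (node (nat_lit 4) (nat_lit 73625) (nat_lit 19) nil nil) nil) nil)
  nil) nil) (node (nat_lit 0) (nat_lit 72606) (nat_lit 14) nil nil))) (node (nat_lit 5) (nat_lit
  71650) (nat_lit 13) (node (nat_lit 6) (nat_lit 72606) (nat_lit 14) (node (nat_lit 4) (nat_lit
  70974) (nat_lit 15) (node (nat_lit 6) (nat_lit 70708) (nat_lit 16) (node (nat_lit 5) (nat_lit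
  70645) (nat_lit 17) (node (nat_lit 4) (nat_lit 70571) (nat_lit 18) nil nil) nil) (node (nat_lit
  5) (nat_lit 66380) (nat_lit 16) (node (nat_lit 4) (nat_lit 55192) (nat_lit 17) (node (nat_lit 6)
  (nat_lit 47858) (nat_lit 18) nil nil) nil) nil)) nil) nil) (node (nat_lit 0) (nat_lit 71650)
  (nat_lit 13) nil nil))) (node (nat_lit 0) (nat_lit 68072) (nat_lit 12) (node (nat_lit 6)
  (nat_lit 69299) (nat_lit 13) (node (nat_lit 5) (nat_lit 66467) (nat_lit 14) (node (nat_lit 4)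
  (nat_lit 66121) (nat_lit 15) nil nil) nil) (node (nat_lit 5) (nat_lit 69299) (nat_lit 13) nil
  (node (nat_lit 4) (nat_lit 69299) (nat_lit 13) nil nil))) nil)) (node (nat_lit 0) (nat_lit
  66502) (nat_lit 11) (node (nat_lit 6) (nat_lit 68072) (nat_lit 12) (node (nat_lit 5) (nat_lit
  69299) (nat_lit 13) (node (nat_lit 4) (nat_lit 66126) (nat_lit 14) nil nil) (node (nat_lit 4)
  (nat_lit 69299) (nat_lit 13) nil nil)) (node (nat_lit 4) (nat_lit 69392) (nat_lit 12) (node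
  (nat_lit 6) (nat_lit 68805) (nat_lit 13) nil (node (nat_lit 5) (nat_lit 70619) (nat_lit 13) nil
  nil)) (node (nat_lit 5) (nat_lit 68072) (nat_lit 12) (node (nat_lit 6) (nat_lit 69299) (nat_lit
  13) (node (nat_lit 5) (nat_lit 66467) (nat_lit 14) nil nil) (node (nat_lit 4) (nat_lit 69299)
  (nat_lit 13) nil nil)) (node (nat_lit 0) (nat_lit 68072) (nat_lit 12) nil nil)))) nil))) (node
  (nat_lit 0) (nat_lit 64489) (nat_lit 10) (node (nat_lit 6) (nat_lit 66502) (nat_lit 11) (node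
  (nat_lit 5) (nat_lit 68072) (nat_lit 12) (node (nat_lit 4) (nat_lit 64336) (nat_lit 13) nil nil)
  (node (nat_lit 4) (nat_lit 68072) (nat_lit 12) nil nil)) (node (nat_lit 4) (nat_lit 67604)
  (nat_lit 11) (node (nat_lit 5) (nat_lit 69173) (nat_lit 12) nil (node (nat_lit 6) (nat_lit
  69173) (nat_lit 12) nil nil)) (node (nat_lit 5) (nat_lit 66502) (nat_lit 11) (node (nat_lit 4)
  (nat_lit 69392) (nat_lit 12) nil (node (nat_lit 6) (nat_lit 68072) (nat_lit 12) nil nil)) (node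
  (nat_lit 0) (nat_lit 67604) (nat_lit 11) nil nil)))) nil)) (node (nat_lit 0) (nat_lit 0)
  (nat_lit 9) (node (nat_lit 5) (nat_lit 64489) (nat_lit 10) (node (nat_lit 4) (nat_lit 67322)
  (nat_lit 11) (node (nat_lit 6) (nat_lit 65687) (nat_lit 12) nil nil) (node (nat_lit 6) (nat_lit
  66502) (nat_lit 11) (node (nat_lit 4) (nat_lit 68072) (nat_lit 12) nil nil) nil)) (node (nat_lit
  6) (nat_lit 64489) (nat_lit 10) (node (nat_lit 5) (nat_lit 66502) (nat_lit 11) (node (nat_lit 4)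
  (nat_lit 68461) (nat_lit 12) (node (nat_lit 5) (nat_lit 67302) (nat_lit 13) (node (nat_lit 6)
  (nat_lit 64376) (nat_lit 14) (node (nat_lit 4) (nat_lit 59131) (nat_lit 15) nil nil) nil) nil)
  nil) (node (nat_lit 4) (nat_lit 66502) (nat_lit 11) nil nil)) (node (nat_lit 4) (nat_lit 65669)
  (nat_lit 10) (node (nat_lit 6) (nat_lit 67682) (nat_lit 11) (node (nat_lit 5) (nat_lit 64233)
  (nat_lit 12) nil nil) (node (nat_lit 5) (nat_lit 67682) (nat_lit 11) nil nil)) (node (nat_lit 0)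
  (nat_lit 65309) (nat_lit 10) nil nil)))) nil)) nil)) nil) nil) nil)) (node (nat_lit 5) (nat_lit
  0) (nat_lit 4) (node (nat_lit 4) (nat_lit 0) (nat_lit 5) (node (nat_lit 6) (nat_lit 0) (nat_lit
  6) t202 (node (nat_lit 5) (nat_lit 0) (nat_lit 6) (node (nat_lit 6) (nat_lit 0) (nat_lit 7)
  (node (nat_lit 4) (nat_lit 0) (nat_lit 8) t203 nil) nil) nil)) nil) nil)) (node (nat_lit 4)
  (nat_lit 0) (nat_lit 3) (node (nat_lit 3) (nat_lit 0) (nat_lit 4) (node (nat_lit 5) (nat_lit 0)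
  (nat_lit 5) t205 (node (nat_lit 4) (nat_lit 0) (nat_lit 5) (node (nat_lit 5) (nat_lit 0)
  (nat_lit 6) (node (nat_lit 7) (nat_lit 0) (nat_lit 7) t206 nil) nil) nil)) nil) nil)) nil) nil)

noncomputable def t207 : Tr :=
  (node (nat_lit 0) (nat_lit 0) (nat_lit 7) (node (nat_lit 4) (nat_lit 0) (nat_lit 8) (node
  (nat_lit 5) (nat_lit 0) (nat_lit 9) (node (nat_lit 6) (nat_lit 109090) (nat_lit 10) (node
  (nat_lit 5) (nat_lit 109090) (nat_lit 11) (node (nat_lit 4) (nat_lit 109090) (nat_lit 12) (node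
  (nat_lit 5) (nat_lit 109090) (nat_lit 13) (node (nat_lit 6) (nat_lit 109090) (nat_lit 14) (node
  (nat_lit 4) (nat_lit 113150) (nat_lit 15) (node (nat_lit 6) (nat_lit 115981) (nat_lit 16) (node
  (nat_lit 5) (nat_lit 117418) (nat_lit 17) nil nil) nil) nil) nil) (node (nat_lit 6) (nat_lit
  109090) (nat_lit 13) nil nil)) nil) (node (nat_lit 4) (nat_lit 109090) (nat_lit 11) (node
  (nat_lit 5) (nat_lit 109090) (nat_lit 12) (node (nat_lit 4) (nat_lit 109090) (nat_lit 13) (node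
  (nat_lit 6) (nat_lit 109090) (nat_lit 14) nil nil) nil) (node (nat_lit 6) (nat_lit 109090)
  (nat_lit 12) (node (nat_lit 5) (nat_lit 109090) (nat_lit 13) (node (nat_lit 6) (nat_lit 109090)
  (nat_lit 14) nil nil) nil) nil)) nil)) (node (nat_lit 4) (nat_lit 109090) (nat_lit 10) (node
  (nat_lit 6) (nat_lit 109090) (nat_lit 11) (node (nat_lit 5) (nat_lit 109090) (nat_lit 12) (node
  (nat_lit 6) (nat_lit 109090) (nat_lit 13) (node (nat_lit 4) (nat_lit 109090) (nat_lit 14) (node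
  (nat_lit 6) (nat_lit 108081) (nat_lit 15) nil (node (nat_lit 5) (nat_lit 110752) (nat_lit 15)
  nil nil)) nil) (node (nat_lit 4) (nat_lit 109090) (nat_lit 13) (node (nat_lit 5) (nat_lit
  109090) (nat_lit 14) (node (nat_lit 6) (nat_lit 113409) (nat_lit 15) (node (nat_lit 4) (nat_lit
  116541) (nat_lit 16) nil nil) nil) nil) nil)) (node (nat_lit 4) (nat_lit 109090) (nat_lit 12)
  (node (nat_lit 5) (nat_lit 109090) (nat_lit 13) (node (nat_lit 6) (nat_lit 109090) (nat_lit 14)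
  (node (nat_lit 4) (nat_lit 112162) (nat_lit 15) (node (nat_lit 6) (nat_lit 112853) (nat_lit 16)
  (node (nat_lit 5) (nat_lit 114037) (nat_lit 17) nil nil) nil) nil) (node (nat_lit 4) (nat_lit
  109090) (nat_lit 14) nil nil)) nil) nil)) (node (nat_lit 10) (nat_lit 116704) (nat_lit 11) nil
  (node (nat_lit 0) (nat_lit 113852) (nat_lit 11) nil nil))) (node (nat_lit 10) (nat_lit 119479)
  (nat_lit 10) nil (node (nat_lit 0) (nat_lit 113061) (nat_lit 10) nil nil)))) (node (nat_lit 6)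
  (nat_lit 109090) (nat_lit 9) (node (nat_lit 5) (nat_lit 109090) (nat_lit 10) (node (nat_lit 4)
  (nat_lit 109090) (nat_lit 11) (node (nat_lit 6) (nat_lit 109090) (nat_lit 12) (node (nat_lit 4)
  (nat_lit 109090) (nat_lit 13) (node (nat_lit 5) (nat_lit 108768) (nat_lit 14) (node (nat_lit 6)
  (nat_lit 107923) (nat_lit 15) (node (nat_lit 4) (nat_lit 109365) (nat_lit 16) nil nil) nil) nil)
  nil) (node (nat_lit 5) (nat_lit 109090) (nat_lit 12) (node (nat_lit 6) (nat_lit 109090) (nat_lit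
  13) (node (nat_lit 4) (nat_lit 109090) (nat_lit 14) (node (nat_lit 6) (nat_lit 113212) (nat_lit
  15) (node (nat_lit 5) (nat_lit 115945) (nat_lit 16) nil nil) nil) nil) nil) nil)) (node (nat_lit
  6) (nat_lit 109090) (nat_lit 11) (node (nat_lit 4) (nat_lit 109090) (nat_lit 12) (node (nat_lit
  5) (nat_lit 109090) (nat_lit 13) nil (node (nat_lit 6) (nat_lit 109090) (nat_lit 13) (node
  (nat_lit 5) (nat_lit 109090) (nat_lit 14) nil nil) nil)) nil) nil)) (node (nat_lit 4) (nat_lit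
  109090) (nat_lit 10) (node (nat_lit 5) (nat_lit 109090) (nat_lit 11) (node (nat_lit 6) (nat_lit
  109090) (nat_lit 12) (node (nat_lit 5) (nat_lit 109090) (nat_lit 13) (node (nat_lit 4) (nat_lit
  109090) (nat_lit 14) (node (nat_lit 5) (nat_lit 113133) (nat_lit 15) (node (nat_lit 6) (nat_lit
  114977) (nat_lit 16) (node (nat_lit 4) (nat_lit 117019) (nat_lit 17) (node (nat_lit 6) (nat_lit
  118513) (nat_lit 18) (node (nat_lit 5) (nat_lit 119292) (nat_lit 19) nil nil) nil) nil) nil)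
  (node (nat_lit 6) (nat_lit 110752) (nat_lit 15) nil nil)) nil) (node (nat_lit 4) (nat_lit
  109090) (nat_lit 13) (node (nat_lit 6) (nat_lit 109090) (nat_lit 14) nil nil) nil)) (node
  (nat_lit 4) (nat_lit 109090) (nat_lit 12) (node (nat_lit 6) (nat_lit 109090) (nat_lit 13) (node
  (nat_lit 5) (nat_lit 109090) (nat_lit 14) nil nil) nil) nil)) nil) (node (nat_lit 10) (nat_lit
  118304) (nat_lit 10) nil nil))) (node (nat_lit 10) (nat_lit 120082) (nat_lit 9) (node (nat_lit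
  5) (nat_lit 120082) (nat_lit 10) (node (nat_lit 4) (nat_lit 120082) (nat_lit 11) (node (nat_lit
  6) (nat_lit 120082) (nat_lit 12) (node (nat_lit 4) (nat_lit 120082) (nat_lit 13) (node (nat_lit
  5) (nat_lit 120082) (nat_lit 14) (node (nat_lit 6) (nat_lit 120082) (nat_lit 15) (node (nat_lit
  4) (nat_lit 120082) (nat_lit 16) (node (nat_lit 6) (nat_lit 119890) (nat_lit 17) (node (nat_lit
  5) (nat_lit 120126) (nat_lit 18) nil nil) nil) nil) nil) nil) nil) nil) nil) (node (nat_lit 6)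
  (nat_lit 120082) (nat_lit 10) nil nil)) (node (nat_lit 0) (nat_lit 113823) (nat_lit 9) nil
  nil)))) (node (nat_lit 6) (nat_lit 0) (nat_lit 8) (node (nat_lit 4) (nat_lit 109090) (nat_lit 9)
  (node (nat_lit 5) (nat_lit 109090) (nat_lit 10) (node (nat_lit 6) (nat_lit 109090) (nat_lit 11)
  (node (nat_lit 4) (nat_lit 109090) (nat_lit 12) (node (nat_lit 6) (nat_lit 109090) (nat_lit 13)
  (node (nat_lit 5) (nat_lit 109090) (nat_lit 14) (node (nat_lit 10) (nat_lit 62867) (nat_lit 15)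
  nil (node (nat_lit 4) (nat_lit 107957) (nat_lit 15) nil nil)) nil) nil) (node (nat_lit 5)
  (nat_lit 109090) (nat_lit 12) (node (nat_lit 4) (nat_lit 109090) (nat_lit 13) (node (nat_lit 5)
  (nat_lit 109090) (nat_lit 14) (node (nat_lit 6) (nat_lit 111802) (nat_lit 15) nil nil) nil) nil)
  nil)) (node (nat_lit 4) (nat_lit 109090) (nat_lit 11) (node (nat_lit 6) (nat_lit 109090)
  (nat_lit 12) (node (nat_lit 5) (nat_lit 109090) (nat_lit 13) nil (node (nat_lit 4) (nat_lit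
  109090) (nat_lit 13) (node (nat_lit 5) (nat_lit 109090) (nat_lit 14) (node (nat_lit 6) (nat_lit
  108874) (nat_lit 15) nil nil) nil) nil)) nil) nil)) (node (nat_lit 6) (nat_lit 109090) (nat_lit
  10) (node (nat_lit 5) (nat_lit 109090) (nat_lit 11) (node (nat_lit 4) (nat_lit 109090) (nat_lit
  12) (node (nat_lit 5) (nat_lit 109090) (nat_lit 13) (node (nat_lit 6) (nat_lit 109090) (nat_lit
  14) (node (nat_lit 4) (nat_lit 112736) (nat_lit 15) (node (nat_lit 6) (nat_lit 115808) (nat_lit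
  16) (node (nat_lit 5) (nat_lit 117384) (nat_lit 17) nil nil) nil) nil) nil) (node (nat_lit 6)
  (nat_lit 109090) (nat_lit 13) (node (nat_lit 4) (nat_lit 109090) (nat_lit 14) nil nil) nil))
  (node (nat_lit 6) (nat_lit 109090) (nat_lit 12) (node (nat_lit 4) (nat_lit 109090) (nat_lit 13)
  (node (nat_lit 5) (nat_lit 109090) (nat_lit 14) nil nil) nil) nil)) nil) (node (nat_lit 10)
  (nat_lit 118304) (nat_lit 10) nil nil))) (node (nat_lit 5) (nat_lit 0) (nat_lit 9) (node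
  (nat_lit 6) (nat_lit 109090) (nat_lit 10) (node (nat_lit 4) (nat_lit 109090) (nat_lit 11) (node
  (nat_lit 5) (nat_lit 109090) (nat_lit 12) (node (nat_lit 4) (nat_lit 109090) (nat_lit 13) (node
  (nat_lit 6) (nat_lit 109090) (nat_lit 14) (node (nat_lit 4) (nat_lit 112895) (nat_lit 15) (node
  (nat_lit 5) (nat_lit 115293) (nat_lit 16) (node (nat_lit 6) (nat_lit 115216) (nat_lit 17) nil
  nil) nil) (node (nat_lit 5) (nat_lit 111217) (nat_lit 15) nil nil)) nil) (node (nat_lit 6)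
  (nat_lit 109090) (nat_lit 13) (node (nat_lit 5) (nat_lit 109090) (nat_lit 14) nil nil) nil))
  (node (nat_lit 6) (nat_lit 109090) (nat_lit 12) (node (nat_lit 5) (nat_lit 109090) (nat_lit 13)
  (node (nat_lit 4) (nat_lit 109090) (nat_lit 14) (node (nat_lit 5) (nat_lit 113684) (nat_lit 15)
  nil nil) (node (nat_lit 6) (nat_lit 109090) (nat_lit 14) nil nil)) nil) nil)) (node (nat_lit 10)
  (nat_lit 115374) (nat_lit 11) nil nil)) (node (nat_lit 4) (nat_lit 109090) (nat_lit 10) (node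
  (nat_lit 6) (nat_lit 109090) (nat_lit 11) (node (nat_lit 5) (nat_lit 109090) (nat_lit 12) (node
  (nat_lit 6) (nat_lit 109090) (nat_lit 13) (node (nat_lit 4) (nat_lit 109090) (nat_lit 14) nil
  nil) nil) (node (nat_lit 4) (nat_lit 109090) (nat_lit 12) (node (nat_lit 5) (nat_lit 109090)
  (nat_lit 13) (node (nat_lit 6) (nat_lit 109090) (nat_lit 14) (node (nat_lit 4) (nat_lit 112862)
  (nat_lit 15) nil nil) nil) nil) nil)) (node (nat_lit 5) (nat_lit 109090) (nat_lit 11) (node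
  (nat_lit 6) (nat_lit 109090) (nat_lit 12) (node (nat_lit 4) (nat_lit 109090) (nat_lit 13) nil
  (node (nat_lit 5) (nat_lit 109090) (nat_lit 13) nil nil)) nil) nil)) (node (nat_lit 0) (nat_lit
  113061) (nat_lit 10) nil nil))) (node (nat_lit 10) (nat_lit 118746) (nat_lit 9) (node (nat_lit
  5) (nat_lit 118746) (nat_lit 10) (node (nat_lit 6) (nat_lit 118746) (nat_lit 11) (node (nat_lit
  5) (nat_lit 118746) (nat_lit 12) (node (nat_lit 4) (nat_lit 118746) (nat_lit 13) (node (nat_lit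
  5) (nat_lit 118746) (nat_lit 14) (node (nat_lit 6) (nat_lit 118746) (nat_lit 15) (node (nat_lit
  4) (nat_lit 119134) (nat_lit 16) (node (nat_lit 6) (nat_lit 120774) (nat_lit 17) (node (nat_lit
  5) (nat_lit 122054) (nat_lit 18) nil nil) nil) nil) nil) nil) nil) nil) nil) (node (nat_lit 4)
  (nat_lit 118746) (nat_lit 10) nil nil)) (node (nat_lit 0) (nat_lit 113749) (nat_lit 9) nil
  nil)))) (node (nat_lit 5) (nat_lit 0) (nat_lit 8) (node (nat_lit 6) (nat_lit 109090) (nat_lit 9)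
  (node (nat_lit 5) (nat_lit 109090) (nat_lit 10) (node (nat_lit 4) (nat_lit 109090) (nat_lit 11)
  (node (nat_lit 6) (nat_lit 109090) (nat_lit 12) (node (nat_lit 5) (nat_lit 109090) (nat_lit 13)
  nil (node (nat_lit 4) (nat_lit 109090) (nat_lit 13) (node (nat_lit 5) (nat_lit 109090) (nat_lit
  14) (node (nat_lit 6) (nat_lit 109231) (nat_lit 15) nil nil) nil) nil)) (node (nat_lit 5)
  (nat_lit 109090) (nat_lit 12) (node (nat_lit 6) (nat_lit 109090) (nat_lit 13) (node (nat_lit 4)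
  (nat_lit 109090) (nat_lit 14) (node (nat_lit 6) (nat_lit 112903) (nat_lit 15) (node (nat_lit 5)
  (nat_lit 115314) (nat_lit 16) nil nil) nil) nil) nil) nil)) (node (nat_lit 10) (nat_lit 116704)
  (nat_lit 11) nil nil)) (node (nat_lit 4) (nat_lit 109090) (nat_lit 10) (node (nat_lit 6)
  (nat_lit 109090) (nat_lit 11) (node (nat_lit 5) (nat_lit 109090) (nat_lit 12) (node (nat_lit 4)
  (nat_lit 109090) (nat_lit 13) (node (nat_lit 5) (nat_lit 109090) (nat_lit 14) (node (nat_lit 6)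
  (nat_lit 113589) (nat_lit 15) (node (nat_lit 4) (nat_lit 116348) (nat_lit 16) nil nil) nil) nil)
  (node (nat_lit 6) (nat_lit 109090) (nat_lit 13) nil nil)) nil) (node (nat_lit 5) (nat_lit
  109090) (nat_lit 11) (node (nat_lit 4) (nat_lit 109090) (nat_lit 12) nil (node (nat_lit 6)
  (nat_lit 109090) (nat_lit 12) nil nil)) nil)) (node (nat_lit 10) (nat_lit 115440) (nat_lit 10)
  nil nil))) (node (nat_lit 4) (nat_lit 0) (nat_lit 9) (node (nat_lit 6) (nat_lit 109090) (nat_lit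
  10) (node (nat_lit 4) (nat_lit 109090) (nat_lit 11) (node (nat_lit 5) (nat_lit 109090) (nat_lit
  12) (node (nat_lit 6) (nat_lit 109090) (nat_lit 13) (node (nat_lit 4) (nat_lit 109090) (nat_lit
  14) (node (nat_lit 6) (nat_lit 109968) (nat_lit 15) (node (nat_lit 5) (nat_lit 110193) (nat_lit
  16) nil nil) nil) nil) (node (nat_lit 4) (nat_lit 109090) (nat_lit 13) nil nil)) nil) (node
  (nat_lit 5) (nat_lit 109090) (nat_lit 11) (node (nat_lit 6) (nat_lit 109090) (nat_lit 12) nil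
  (node (nat_lit 4) (nat_lit 109090) (nat_lit 12) nil nil)) nil)) (node (nat_lit 5) (nat_lit
  109090) (nat_lit 10) (node (nat_lit 6) (nat_lit 109090) (nat_lit 11) (node (nat_lit 4) (nat_lit
  109090) (nat_lit 12) (node (nat_lit 6) (nat_lit 109090) (nat_lit 13) nil (node (nat_lit 5)
  (nat_lit 109090) (nat_lit 13) nil nil)) (node (nat_lit 5) (nat_lit 109090) (nat_lit 12) (node
  (nat_lit 4) (nat_lit 109090) (nat_lit 13) nil nil) nil)) (node (nat_lit 10) (nat_lit 113852)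
  (nat_lit 11) nil nil)) (node (nat_lit 10) (nat_lit 113061) (nat_lit 10) nil (node (nat_lit 0)
  (nat_lit 113061) (nat_lit 10) nil nil)))) (node (nat_lit 0) (nat_lit 118280) (nat_lit 9) nil
  nil))) (node (nat_lit 0) (nat_lit 0) (nat_lit 8) (node (nat_lit 10) (nat_lit 118436) (nat_lit 9)
  nil (node (nat_lit 5) (nat_lit 116559) (nat_lit 9) (node (nat_lit 11) (nat_lit 118869) (nat_lit
  10) nil nil) (node (nat_lit 4) (nat_lit 116559) (nat_lit 9) nil (node (nat_lit 6) (nat_lit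
  116559) (nat_lit 9) nil (node (nat_lit 0) (nat_lit 117857) (nat_lit 9) nil nil))))) nil))))
  (node (nat_lit 4) (nat_lit 0) (nat_lit 7) (node (nat_lit 0) (nat_lit 0) (nat_lit 8) (node
  (nat_lit 4) (nat_lit 0) (nat_lit 9) (node (nat_lit 5) (nat_lit 100697) (nat_lit 10) (node
  (nat_lit 6) (nat_lit 100697) (nat_lit 11) (node (nat_lit 5) (nat_lit 100697) (nat_lit 12) (node
  (nat_lit 4) (nat_lit 100697) (nat_lit 13) (node (nat_lit 6) (nat_lit 100697) (nat_lit 14) (node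
  (nat_lit 5) (nat_lit 100697) (nat_lit 15) nil (node (nat_lit 4) (nat_lit 100697) (nat_lit 15)
  nil nil)) (node (nat_lit 5) (nat_lit 100697) (nat_lit 14) (node (nat_lit 6) (nat_lit 100697)
  (nat_lit 15) (node (nat_lit 4) (nat_lit 104324) (nat_lit 16) (node (nat_lit 6) (nat_lit 107014)
  (nat_lit 17) nil nil) nil) nil) nil)) nil) (node (nat_lit 4) (nat_lit 100697) (nat_lit 12) (node
  (nat_lit 6) (nat_lit 100697) (nat_lit 13) (node (nat_lit 5) (nat_lit 100697) (nat_lit 14) (node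
  (nat_lit 4) (nat_lit 100697) (nat_lit 15) (node (nat_lit 5) (nat_lit 104133) (nat_lit 16) (node
  (nat_lit 6) (nat_lit 106813) (nat_lit 17) (node (nat_lit 4) (nat_lit 108557) (nat_lit 18) nil
  nil) nil) nil) (node (nat_lit 6) (nat_lit 100697) (nat_lit 15) nil nil)) nil) (node (nat_lit 5)
  (nat_lit 100697) (nat_lit 13) (node (nat_lit 4) (nat_lit 100697) (nat_lit 14) (node (nat_lit 6)
  (nat_lit 100697) (nat_lit 15) nil nil) nil) nil)) (node (nat_lit 0) (nat_lit 104414) (nat_lit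
  12) nil (node (nat_lit 11) (nat_lit 104414) (nat_lit 12) nil nil)))) (node (nat_lit 4) (nat_lit
  100697) (nat_lit 11) (node (nat_lit 6) (nat_lit 100697) (nat_lit 12) (node (nat_lit 5) (nat_lit
  100697) (nat_lit 13) nil (node (nat_lit 4) (nat_lit 100697) (nat_lit 13) (node (nat_lit 5)
  (nat_lit 100697) (nat_lit 14) nil nil) nil)) (node (nat_lit 11) (nat_lit 111587) (nat_lit 12)
  nil nil)) (node (nat_lit 11) (nat_lit 111322) (nat_lit 11) (node (nat_lit 4) (nat_lit 111322)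
  (nat_lit 12) nil nil) (node (nat_lit 0) (nat_lit 109780) (nat_lit 11) nil nil)))) (node (nat_lit
  6) (nat_lit 100697) (nat_lit 10) (node (nat_lit 5) (nat_lit 100697) (nat_lit 11) (node (nat_lit
  4) (nat_lit 100697) (nat_lit 12) (node (nat_lit 5) (nat_lit 100697) (nat_lit 13) (node (nat_lit
  6) (nat_lit 100697) (nat_lit 14) (node (nat_lit 4) (nat_lit 100697) (nat_lit 15) (node (nat_lit
  6) (nat_lit 104133) (nat_lit 16) (node (nat_lit 5) (nat_lit 106813) (nat_lit 17) (node (nat_lit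
  4) (nat_lit 107093) (nat_lit 18) nil nil) nil) nil) (node (nat_lit 5) (nat_lit 100697) (nat_lit
  15) nil nil)) nil) (node (nat_lit 6) (nat_lit 100697) (nat_lit 13) (node (nat_lit 4) (nat_lit
  100697) (nat_lit 14) (node (nat_lit 5) (nat_lit 100649) (nat_lit 15) (node (nat_lit 6) (nat_lit
  100671) (nat_lit 16) nil nil) nil) nil) nil)) (node (nat_lit 6) (nat_lit 100697) (nat_lit 12)
  (node (nat_lit 4) (nat_lit 100697) (nat_lit 13) (node (nat_lit 5) (nat_lit 100697) (nat_lit 14)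
  (node (nat_lit 4) (nat_lit 100697) (nat_lit 15) nil nil) (node (nat_lit 6) (nat_lit 100697)
  (nat_lit 14) (node (nat_lit 5) (nat_lit 100697) (nat_lit 15) nil nil) nil)) nil) (node (nat_lit
  11) (nat_lit 104414) (nat_lit 12) nil (node (nat_lit 0) (nat_lit 104414) (nat_lit 12) nil
  nil)))) (node (nat_lit 4) (nat_lit 100697) (nat_lit 11) (node (nat_lit 5) (nat_lit 100697)
  (nat_lit 12) (node (nat_lit 4) (nat_lit 100697) (nat_lit 13) (node (nat_lit 6) (nat_lit 100697)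
  (nat_lit 14) nil nil) (node (nat_lit 6) (nat_lit 100697) (nat_lit 13) (node (nat_lit 5) (nat_lit
  100697) (nat_lit 14) nil (node (nat_lit 4) (nat_lit 100697) (nat_lit 14) nil nil)) nil)) (node
  (nat_lit 11) (nat_lit 111587) (nat_lit 12) nil (node (nat_lit 0) (nat_lit 104414) (nat_lit 12)
  nil nil))) (node (nat_lit 11) (nat_lit 109780) (nat_lit 11) nil (node (nat_lit 0) (nat_lit
  109780) (nat_lit 11) nil nil)))) (node (nat_lit 0) (nat_lit 109435) (nat_lit 10) (node (nat_lit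
  11) (nat_lit 110765) (nat_lit 11) nil (node (nat_lit 4) (nat_lit 109435) (nat_lit 11) nil (node
  (nat_lit 6) (nat_lit 109435) (nat_lit 11) nil nil))) nil))) (node (nat_lit 5) (nat_lit 0)
  (nat_lit 9) (node (nat_lit 11) (nat_lit 108854) (nat_lit 10) (node (nat_lit 4) (nat_lit 108854)
  (nat_lit 11) (node (nat_lit 11) (nat_lit 110261) (nat_lit 12) nil nil) nil) (node (nat_lit 4)
  (nat_lit 100697) (nat_lit 10) (node (nat_lit 5) (nat_lit 100697) (nat_lit 11) (node (nat_lit 11)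
  (nat_lit 106952) (nat_lit 12) nil nil) nil) (node (nat_lit 6) (nat_lit 100697) (nat_lit 10)
  (node (nat_lit 4) (nat_lit 100697) (nat_lit 11) nil nil) (node (nat_lit 0) (nat_lit 105799)
  (nat_lit 10) nil nil)))) (node (nat_lit 6) (nat_lit 100697) (nat_lit 9) (node (nat_lit 4)
  (nat_lit 100697) (nat_lit 10) (node (nat_lit 6) (nat_lit 100697) (nat_lit 11) nil nil) (node
  (nat_lit 11) (nat_lit 107399) (nat_lit 10) (node (nat_lit 4) (nat_lit 107399) (nat_lit 11) nil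
  nil) nil)) (node (nat_lit 0) (nat_lit 106493) (nat_lit 9) (node (nat_lit 4) (nat_lit 106493)
  (nat_lit 10) (node (nat_lit 11) (nat_lit 108296) (nat_lit 11) nil nil) (node (nat_lit 11)
  (nat_lit 108196) (nat_lit 10) nil nil)) nil)))) (node (nat_lit 5) (nat_lit 0) (nat_lit 8) (node
  (nat_lit 0) (nat_lit 0) (nat_lit 9) (node (nat_lit 4) (nat_lit 101573) (nat_lit 10) (node
  (nat_lit 5) (nat_lit 101573) (nat_lit 11) (node (nat_lit 4) (nat_lit 101573) (nat_lit 12) (node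
  (nat_lit 6) (nat_lit 101573) (nat_lit 13) (node (nat_lit 5) (nat_lit 101573) (nat_lit 14) (node
  (nat_lit 6) (nat_lit 101573) (nat_lit 15) (node (nat_lit 4) (nat_lit 101573) (nat_lit 16) (node
  (nat_lit 6) (nat_lit 101869) (nat_lit 17) nil (node (nat_lit 5) (nat_lit 103541) (nat_lit 17)
  nil nil)) nil) (node (nat_lit 4) (nat_lit 101573) (nat_lit 15) (node (nat_lit 5) (nat_lit
  101573) (nat_lit 16) (node (nat_lit 6) (nat_lit 105210) (nat_lit 17) (node (nat_lit 4) (nat_lit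
  108048) (nat_lit 18) (node (nat_lit 6) (nat_lit 110264) (nat_lit 19) nil nil) nil) nil) nil)
  nil)) (node (nat_lit 4) (nat_lit 101573) (nat_lit 14) (node (nat_lit 5) (nat_lit 101573)
  (nat_lit 15) (node (nat_lit 6) (nat_lit 101573) (nat_lit 16) (node (nat_lit 4) (nat_lit 104353)
  (nat_lit 17) (node (nat_lit 6) (nat_lit 104584) (nat_lit 18) (node (nat_lit 5) (nat_lit 105385)
  (nat_lit 19) nil nil) nil) nil) nil) nil) (node (nat_lit 12) (nat_lit 107941) (nat_lit 14) nil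
  (node (nat_lit 0) (nat_lit 107941) (nat_lit 14) nil nil)))) (node (nat_lit 12) (nat_lit 112096)
  (nat_lit 13) nil (node (nat_lit 0) (nat_lit 107211) (nat_lit 13) nil nil))) (node (nat_lit 6)
  (nat_lit 101573) (nat_lit 12) (node (nat_lit 4) (nat_lit 101573) (nat_lit 13) (node (nat_lit 6)
  (nat_lit 101573) (nat_lit 14) (node (nat_lit 5) (nat_lit 101573) (nat_lit 15) (node (nat_lit 6)
  (nat_lit 101573) (nat_lit 16) (node (nat_lit 4) (nat_lit 103541) (nat_lit 17) nil nil) (node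
  (nat_lit 4) (nat_lit 101573) (nat_lit 16) nil nil)) nil) (node (nat_lit 5) (nat_lit 101573)
  (nat_lit 14) (node (nat_lit 4) (nat_lit 101573) (nat_lit 15) nil nil) (node (nat_lit 12)
  (nat_lit 107941) (nat_lit 14) nil nil))) (node (nat_lit 5) (nat_lit 101573) (nat_lit 13) (node
  (nat_lit 4) (nat_lit 101573) (nat_lit 14) (node (nat_lit 6) (nat_lit 101573) (nat_lit 15) (node
  (nat_lit 5) (nat_lit 101573) (nat_lit 16) nil nil) (node (nat_lit 5) (nat_lit 101573) (nat_lit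
  15) (node (nat_lit 6) (nat_lit 101573) (nat_lit 16) (node (nat_lit 4) (nat_lit 105219) (nat_lit
  17) nil nil) nil) nil)) (node (nat_lit 12) (nat_lit 107941) (nat_lit 14) nil nil)) (node
  (nat_lit 12) (nat_lit 107211) (nat_lit 13) nil (node (nat_lit 0) (nat_lit 107211) (nat_lit 13)
  nil nil)))) (node (nat_lit 0) (nat_lit 107929) (nat_lit 12) nil nil))) (node (nat_lit 12)
  (nat_lit 108420) (nat_lit 11) (node (nat_lit 5) (nat_lit 108420) (nat_lit 12) nil nil) nil))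
  (node (nat_lit 5) (nat_lit 101573) (nat_lit 10) (node (nat_lit 4) (nat_lit 101573) (nat_lit 11)
  (node (nat_lit 12) (nat_lit 109674) (nat_lit 12) (node (nat_lit 4) (nat_lit 109674) (nat_lit 13)
  nil nil) nil) nil) (node (nat_lit 6) (nat_lit 101573) (nat_lit 10) (node (nat_lit 5) (nat_lit
  101573) (nat_lit 11) nil nil) (node (nat_lit 0) (nat_lit 103541) (nat_lit 10) nil nil)))) nil)
  (node (nat_lit 6) (nat_lit 0) (nat_lit 8) (node (nat_lit 0) (nat_lit 91041) (nat_lit 9) (node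
  (nat_lit 4) (nat_lit 91383) (nat_lit 10) (node (nat_lit 6) (nat_lit 91938) (nat_lit 11) (node
  (nat_lit 5) (nat_lit 91857) (nat_lit 12) (node (nat_lit 4) (nat_lit 91857) (nat_lit 13) (node
  (nat_lit 5) (nat_lit 91857) (nat_lit 14) (node (nat_lit 6) (nat_lit 91857) (nat_lit 15) nil nil)
  (node (nat_lit 6) (nat_lit 91857) (nat_lit 14) nil nil)) (node (nat_lit 6) (nat_lit 91857)
  (nat_lit 13) (node (nat_lit 4) (nat_lit 91857) (nat_lit 14) nil nil) (node (nat_lit 12) (nat_lit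
  99477) (nat_lit 13) nil (node (nat_lit 0) (nat_lit 97495) (nat_lit 13) nil nil)))) (node
  (nat_lit 4) (nat_lit 92317) (nat_lit 12) (node (nat_lit 5) (nat_lit 92801) (nat_lit 13) (node
  (nat_lit 6) (nat_lit 92801) (nat_lit 14) (node (nat_lit 5) (nat_lit 92801) (nat_lit 15) nil nil)
  (node (nat_lit 4) (nat_lit 92801) (nat_lit 14) nil nil)) (node (nat_lit 12) (nat_lit 102027)
  (nat_lit 13) nil (node (nat_lit 0) (nat_lit 99936) (nat_lit 13) nil nil))) (node (nat_lit 0)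
  (nat_lit 98980) (nat_lit 12) nil nil))) nil) (node (nat_lit 6) (nat_lit 91041) (nat_lit 10)
  (node (nat_lit 4) (nat_lit 91041) (nat_lit 11) (node (nat_lit 12) (nat_lit 95744) (nat_lit 12)
  nil nil) nil) nil)) nil) nil))) (node (nat_lit 6) (nat_lit 0) (nat_lit 7) (node (nat_lit 0)
  (nat_lit 0) (nat_lit 8) (node (nat_lit 6) (nat_lit 0) (nat_lit 9) (node (nat_lit 4) (nat_lit
  113208) (nat_lit 10) (node (nat_lit 5) (nat_lit 113208) (nat_lit 11) (node (nat_lit 6) (nat_lit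
  113208) (nat_lit 12) (node (nat_lit 4) (nat_lit 113208) (nat_lit 13) (node (nat_lit 6) (nat_lit
  113208) (nat_lit 14) (node (nat_lit 5) (nat_lit 113208) (nat_lit 15) (node (nat_lit 6) (nat_lit
  114506) (nat_lit 16) (node (nat_lit 11) (nat_lit 64778) (nat_lit 17) nil nil) nil) nil) nil)
  (node (nat_lit 5) (nat_lit 113208) (nat_lit 13) (node (nat_lit 4) (nat_lit 113208) (nat_lit 14)
  (node (nat_lit 6) (nat_lit 113208) (nat_lit 15) nil nil) nil) nil)) (node (nat_lit 4) (nat_lit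
  113208) (nat_lit 12) (node (nat_lit 6) (nat_lit 113208) (nat_lit 13) (node (nat_lit 5) (nat_lit
  113208) (nat_lit 14) nil (node (nat_lit 4) (nat_lit 113208) (nat_lit 14) (node (nat_lit 5)
  (nat_lit 113315) (nat_lit 15) (node (nat_lit 6) (nat_lit 114402) (nat_lit 16) nil nil) nil)
  nil)) nil) nil)) (node (nat_lit 6) (nat_lit 113208) (nat_lit 11) (node (nat_lit 5) (nat_lit
  113208) (nat_lit 12) (node (nat_lit 4) (nat_lit 113208) (nat_lit 13) (node (nat_lit 5) (nat_lit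
  113208) (nat_lit 14) (node (nat_lit 6) (nat_lit 113208) (nat_lit 15) (node (nat_lit 4) (nat_lit
  116526) (nat_lit 16) nil nil) nil) nil) nil) (node (nat_lit 11) (nat_lit 116925) (nat_lit 12)
  nil nil)) (node (nat_lit 11) (nat_lit 120057) (nat_lit 11) nil (node (nat_lit 0) (nat_lit
  120057) (nat_lit 11) nil nil)))) (node (nat_lit 5) (nat_lit 113208) (nat_lit 10) (node (nat_lit
  4) (nat_lit 113208) (nat_lit 11) (node (nat_lit 6) (nat_lit 113208) (nat_lit 12) (node (nat_lit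
  4) (nat_lit 113208) (nat_lit 13) (node (nat_lit 5) (nat_lit 113208) (nat_lit 14) (node (nat_lit
  6) (nat_lit 113208) (nat_lit 15) (node (nat_lit 4) (nat_lit 116645) (nat_lit 16) nil nil) nil)
  nil) (node (nat_lit 5) (nat_lit 113208) (nat_lit 13) (node (nat_lit 6) (nat_lit 113208) (nat_lit
  14) nil nil) nil)) (node (nat_lit 5) (nat_lit 113208) (nat_lit 12) (node (nat_lit 6) (nat_lit
  113208) (nat_lit 13) nil nil) (node (nat_lit 0) (nat_lit 116925) (nat_lit 12) nil (node (nat_lit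
  11) (nat_lit 116925) (nat_lit 12) nil nil)))) (node (nat_lit 11) (nat_lit 122292) (nat_lit 11)
  (node (nat_lit 6) (nat_lit 122292) (nat_lit 12) nil nil) (node (nat_lit 0) (nat_lit 118427)
  (nat_lit 11) nil (node (nat_lit 6) (nat_lit 113208) (nat_lit 11) nil nil)))) (node (nat_lit 0)
  (nat_lit 120937) (nat_lit 10) nil nil))) (node (nat_lit 5) (nat_lit 113208) (nat_lit 9) (node
  (nat_lit 11) (nat_lit 120990) (nat_lit 10) (node (nat_lit 6) (nat_lit 120990) (nat_lit 11) nil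
  nil) (node (nat_lit 6) (nat_lit 113208) (nat_lit 10) nil nil)) (node (nat_lit 0) (nat_lit
  116075) (nat_lit 9) nil (node (nat_lit 4) (nat_lit 113208) (nat_lit 9) nil nil)))) (node
  (nat_lit 4) (nat_lit 0) (nat_lit 8) (node (nat_lit 0) (nat_lit 114364) (nat_lit 9) (node
  (nat_lit 6) (nat_lit 114364) (nat_lit 10) (node (nat_lit 4) (nat_lit 114364) (nat_lit 11) (node
  (nat_lit 6) (nat_lit 114364) (nat_lit 12) (node (nat_lit 5) (nat_lit 114364) (nat_lit 13) nil
  nil) (node (nat_lit 5) (nat_lit 114364) (nat_lit 12) (node (nat_lit 6) (nat_lit 114364) (nat_lit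
  13) nil (node (nat_lit 4) (nat_lit 114364) (nat_lit 13) nil nil)) (node (nat_lit 0) (nat_lit
  119067) (nat_lit 12) nil nil))) nil) nil) nil) nil)) nil)))

noncomputable def t208 : Tr :=
  (node (nat_lit 0) (nat_lit 0) (nat_lit 7) (node (nat_lit 5) (nat_lit 0) (nat_lit 8) (node
  (nat_lit 6) (nat_lit 64927) (nat_lit 9) (node (nat_lit 4) (nat_lit 64927) (nat_lit 10) (node
  (nat_lit 5) (nat_lit 64927) (nat_lit 11) (node (nat_lit 6) (nat_lit 64927) (nat_lit 12) (node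
  (nat_lit 5) (nat_lit 64927) (nat_lit 13) (node (nat_lit 4) (nat_lit 65149) (nat_lit 14) (node
  (nat_lit 5) (nat_lit 67815) (nat_lit 15) (node (nat_lit 6) (nat_lit 68956) (nat_lit 16) (node
  (nat_lit 4) (nat_lit 70450) (nat_lit 17) nil nil) nil) nil) nil) nil) (node (nat_lit 4) (nat_lit
  64927) (nat_lit 12) (node (nat_lit 6) (nat_lit 64927) (nat_lit 13) nil nil) nil)) (node (nat_lit
  6) (nat_lit 64927) (nat_lit 11) (node (nat_lit 5) (nat_lit 64927) (nat_lit 12) (node (nat_lit 4)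
  (nat_lit 64927) (nat_lit 13) (node (nat_lit 5) (nat_lit 64927) (nat_lit 14) (node (nat_lit 6)
  (nat_lit 68676) (nat_lit 15) (node (nat_lit 4) (nat_lit 69962) (nat_lit 16) (node (nat_lit 5)
  (nat_lit 70575) (nat_lit 17) (node (nat_lit 4) (nat_lit 70683) (nat_lit 18) nil nil) nil) nil)
  nil) (node (nat_lit 6) (nat_lit 64927) (nat_lit 14) nil nil)) (node (nat_lit 6) (nat_lit 64927)
  (nat_lit 13) (node (nat_lit 4) (nat_lit 64927) (nat_lit 14) nil nil) nil)) nil) nil)) (node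
  (nat_lit 5) (nat_lit 64927) (nat_lit 10) (node (nat_lit 4) (nat_lit 64927) (nat_lit 11) (node
  (nat_lit 6) (nat_lit 64927) (nat_lit 12) (node (nat_lit 4) (nat_lit 64927) (nat_lit 13) (node
  (nat_lit 5) (nat_lit 64927) (nat_lit 14) nil nil) (node (nat_lit 5) (nat_lit 64927) (nat_lit 13)
  nil nil)) (node (nat_lit 5) (nat_lit 64927) (nat_lit 12) (node (nat_lit 6) (nat_lit 64927)
  (nat_lit 13) (node (nat_lit 4) (nat_lit 65149) (nat_lit 14) (node (nat_lit 5) (nat_lit 66611)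
  (nat_lit 15) nil nil) nil) nil) nil)) nil) (node (nat_lit 10) (nat_lit 68018) (nat_lit 10) nil
  nil))) (node (nat_lit 4) (nat_lit 65160) (nat_lit 9) (node (nat_lit 5) (nat_lit 65199) (nat_lit
  10) (node (nat_lit 6) (nat_lit 65201) (nat_lit 11) (node (nat_lit 4) (nat_lit 65201) (nat_lit
  12) (node (nat_lit 6) (nat_lit 65201) (nat_lit 13) (node (nat_lit 5) (nat_lit 65201) (nat_lit
  14) nil nil) (node (nat_lit 5) (nat_lit 65201) (nat_lit 13) (node (nat_lit 4) (nat_lit 65201)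
  (nat_lit 14) nil nil) nil)) (node (nat_lit 5) (nat_lit 65201) (nat_lit 12) (node (nat_lit 4)
  (nat_lit 65201) (nat_lit 13) (node (nat_lit 6) (nat_lit 65201) (nat_lit 14) nil nil) nil) nil))
  (node (nat_lit 10) (nat_lit 68906) (nat_lit 11) nil nil)) (node (nat_lit 6) (nat_lit 65283)
  (nat_lit 10) (node (nat_lit 5) (nat_lit 65334) (nat_lit 11) (node (nat_lit 6) (nat_lit 65334)
  (nat_lit 12) (node (nat_lit 4) (nat_lit 65334) (nat_lit 13) nil nil) (node (nat_lit 4) (nat_lit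
  65334) (nat_lit 12) (node (nat_lit 5) (nat_lit 65334) (nat_lit 13) (node (nat_lit 6) (nat_lit
  65225) (nat_lit 14) (node (nat_lit 4) (nat_lit 68417) (nat_lit 15) (node (nat_lit 5) (nat_lit
  70914) (nat_lit 16) nil nil) nil) nil) nil) nil)) (node (nat_lit 4) (nat_lit 65283) (nat_lit 11)
  (node (nat_lit 5) (nat_lit 65283) (nat_lit 12) (node (nat_lit 6) (nat_lit 65283) (nat_lit 13)
  nil nil) nil) nil)) nil)) (node (nat_lit 10) (nat_lit 72310) (nat_lit 9) (node (nat_lit 4)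
  (nat_lit 72310) (nat_lit 10) (node (nat_lit 5) (nat_lit 72310) (nat_lit 11) (node (nat_lit 6)
  (nat_lit 72310) (nat_lit 12) (node (nat_lit 5) (nat_lit 72310) (nat_lit 13) (node (nat_lit 4)
  (nat_lit 72310) (nat_lit 14) (node (nat_lit 5) (nat_lit 72310) (nat_lit 15) (node (nat_lit 6)
  (nat_lit 72445) (nat_lit 16) (node (nat_lit 4) (nat_lit 72777) (nat_lit 17) nil nil) nil) nil)
  nil) nil) (node (nat_lit 4) (nat_lit 72310) (nat_lit 12) (node (nat_lit 6) (nat_lit 72310)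
  (nat_lit 13) (node (nat_lit 5) (nat_lit 72310) (nat_lit 14) (node (nat_lit 4) (nat_lit 72310)
  (nat_lit 15) (node (nat_lit 5) (nat_lit 72373) (nat_lit 16) (node (nat_lit 6) (nat_lit 72777)
  (nat_lit 17) nil nil) nil) nil) nil) nil) nil)) nil) (node (nat_lit 6) (nat_lit 72310) (nat_lit
  10) nil nil)) (node (nat_lit 0) (nat_lit 69300) (nat_lit 9) nil nil)))) (node (nat_lit 6)
  (nat_lit 0) (nat_lit 8) (node (nat_lit 4) (nat_lit 64958) (nat_lit 9) (node (nat_lit 6) (nat_lit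
  64958) (nat_lit 10) (node (nat_lit 5) (nat_lit 64958) (nat_lit 11) (node (nat_lit 4) (nat_lit
  64958) (nat_lit 12) (node (nat_lit 5) (nat_lit 64958) (nat_lit 13) (node (nat_lit 6) (nat_lit
  65181) (nat_lit 14) (node (nat_lit 4) (nat_lit 67926) (nat_lit 15) (node (nat_lit 5) (nat_lit
  70435) (nat_lit 16) (node (nat_lit 4) (nat_lit 71417) (nat_lit 17) nil nil) nil) (node (nat_lit
  5) (nat_lit 66474) (nat_lit 15) nil nil)) nil) (node (nat_lit 6) (nat_lit 64958) (nat_lit 13)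
  (node (nat_lit 4) (nat_lit 64958) (nat_lit 14) nil nil) nil)) (node (nat_lit 6) (nat_lit 64958)
  (nat_lit 12) (node (nat_lit 4) (nat_lit 64958) (nat_lit 13) (node (nat_lit 5) (nat_lit 64958)
  (nat_lit 14) nil nil) nil) nil)) (node (nat_lit 10) (nat_lit 68665) (nat_lit 11) nil nil)) (node
  (nat_lit 5) (nat_lit 64958) (nat_lit 10) (node (nat_lit 6) (nat_lit 64958) (nat_lit 11) (node
  (nat_lit 4) (nat_lit 64958) (nat_lit 12) nil (node (nat_lit 5) (nat_lit 64958) (nat_lit 12)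
  (node (nat_lit 4) (nat_lit 64958) (nat_lit 13) nil nil) nil)) (node (nat_lit 4) (nat_lit 64958)
  (nat_lit 11) (node (nat_lit 6) (nat_lit 64958) (nat_lit 12) (node (nat_lit 5) (nat_lit 64958)
  (nat_lit 13) nil nil) nil) nil)) (node (nat_lit 10) (nat_lit 70913) (nat_lit 10) nil nil)))
  (node (nat_lit 5) (nat_lit 64958) (nat_lit 9) (node (nat_lit 4) (nat_lit 64958) (nat_lit 10)
  (node (nat_lit 6) (nat_lit 64958) (nat_lit 11) (node (nat_lit 5) (nat_lit 64958) (nat_lit 12)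
  (node (nat_lit 6) (nat_lit 64958) (nat_lit 13) (node (nat_lit 4) (nat_lit 64958) (nat_lit 14)
  nil nil) nil) (node (nat_lit 4) (nat_lit 64958) (nat_lit 12) (node (nat_lit 5) (nat_lit 64958)
  (nat_lit 13) nil nil) nil)) (node (nat_lit 5) (nat_lit 64958) (nat_lit 11) (node (nat_lit 6)
  (nat_lit 64958) (nat_lit 12) (node (nat_lit 4) (nat_lit 64958) (nat_lit 13) nil (node (nat_lit
  5) (nat_lit 64958) (nat_lit 13) nil nil)) nil) nil)) (node (nat_lit 6) (nat_lit 64958) (nat_lit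
  10) (node (nat_lit 4) (nat_lit 64958) (nat_lit 11) (node (nat_lit 5) (nat_lit 64958) (nat_lit
  12) (node (nat_lit 4) (nat_lit 64958) (nat_lit 13) (node (nat_lit 6) (nat_lit 64958) (nat_lit
  14) nil nil) (node (nat_lit 6) (nat_lit 64958) (nat_lit 13) (node (nat_lit 5) (nat_lit 64958)
  (nat_lit 14) nil nil) nil)) (node (nat_lit 6) (nat_lit 64958) (nat_lit 12) (node (nat_lit 5)
  (nat_lit 64958) (nat_lit 13) (node (nat_lit 4) (nat_lit 64958) (nat_lit 14) nil nil) nil) nil))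
  nil) (node (nat_lit 10) (nat_lit 68050) (nat_lit 10) nil nil))) (node (nat_lit 10) (nat_lit
  71548) (nat_lit 9) (node (nat_lit 4) (nat_lit 71548) (nat_lit 10) (node (nat_lit 6) (nat_lit
  71548) (nat_lit 11) nil nil) (node (nat_lit 5) (nat_lit 71548) (nat_lit 10) nil nil)) (node
  (nat_lit 0) (nat_lit 69395) (nat_lit 9) nil nil)))) (node (nat_lit 4) (nat_lit 0) (nat_lit 8)
  (node (nat_lit 5) (nat_lit 65187) (nat_lit 9) (node (nat_lit 6) (nat_lit 65187) (nat_lit 10)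
  (node (nat_lit 5) (nat_lit 65187) (nat_lit 11) (node (nat_lit 4) (nat_lit 65187) (nat_lit 12)
  (node (nat_lit 5) (nat_lit 65187) (nat_lit 13) (node (nat_lit 6) (nat_lit 65308) (nat_lit 14)
  (node (nat_lit 4) (nat_lit 68075) (nat_lit 15) (node (nat_lit 5) (nat_lit 69216) (nat_lit 16)
  (node (nat_lit 4) (nat_lit 70173) (nat_lit 17) nil nil) nil) nil) nil) (node (nat_lit 6)
  (nat_lit 65187) (nat_lit 13) nil nil)) nil) (node (nat_lit 4) (nat_lit 65187) (nat_lit 11) (node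
  (nat_lit 6) (nat_lit 65187) (nat_lit 12) nil (node (nat_lit 5) (nat_lit 65187) (nat_lit 12) nil
  nil)) nil)) (node (nat_lit 4) (nat_lit 65187) (nat_lit 10) (node (nat_lit 6) (nat_lit 65187)
  (nat_lit 11) (node (nat_lit 5) (nat_lit 65187) (nat_lit 12) (node (nat_lit 4) (nat_lit 65187)
  (nat_lit 13) (node (nat_lit 5) (nat_lit 65292) (nat_lit 14) (node (nat_lit 6) (nat_lit 68432)
  (nat_lit 15) (node (nat_lit 4) (nat_lit 68995) (nat_lit 16) nil nil) nil) nil) (node (nat_lit 6)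
  (nat_lit 65187) (nat_lit 13) nil nil)) (node (nat_lit 4) (nat_lit 65187) (nat_lit 12) (node
  (nat_lit 5) (nat_lit 65187) (nat_lit 13) nil nil) nil)) nil) (node (nat_lit 10) (nat_lit 67009)
  (nat_lit 10) nil nil))) (node (nat_lit 6) (nat_lit 65263) (nat_lit 9) (node (nat_lit 5) (nat_lit
  65314) (nat_lit 10) (node (nat_lit 4) (nat_lit 65314) (nat_lit 11) (node (nat_lit 5) (nat_lit
  65314) (nat_lit 12) (node (nat_lit 6) (nat_lit 65314) (nat_lit 13) (node (nat_lit 4) (nat_lit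
  65314) (nat_lit 14) (node (nat_lit 5) (nat_lit 68536) (nat_lit 15) (node (nat_lit 4) (nat_lit
  69574) (nat_lit 16) nil nil) nil) nil) nil) (node (nat_lit 6) (nat_lit 65314) (nat_lit 12) nil
  nil)) (node (nat_lit 6) (nat_lit 65314) (nat_lit 11) (node (nat_lit 4) (nat_lit 65314) (nat_lit
  12) nil nil) nil)) (node (nat_lit 4) (nat_lit 65263) (nat_lit 10) (node (nat_lit 5) (nat_lit
  65263) (nat_lit 11) (node (nat_lit 6) (nat_lit 65263) (nat_lit 12) (node (nat_lit 4) (nat_lit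
  65263) (nat_lit 13) nil nil) (node (nat_lit 4) (nat_lit 65263) (nat_lit 12) (node (nat_lit 6)
  (nat_lit 65263) (nat_lit 13) nil nil) nil)) nil) (node (nat_lit 10) (nat_lit 67086) (nat_lit 10)
  nil nil))) (node (nat_lit 0) (nat_lit 69456) (nat_lit 9) nil nil))) (node (nat_lit 0) (nat_lit
  69651) (nat_lit 8) (node (nat_lit 10) (nat_lit 70661) (nat_lit 9) nil (node (nat_lit 4) (nat_lit
  69651) (nat_lit 9) nil (node (nat_lit 6) (nat_lit 69651) (nat_lit 9) nil (node (nat_lit 5)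
  (nat_lit 69651) (nat_lit 9) nil nil)))) nil)))) (node (nat_lit 6) (nat_lit 0) (nat_lit 7) (node
  (nat_lit 0) (nat_lit 0) (nat_lit 8) (node (nat_lit 6) (nat_lit 0) (nat_lit 9) (node (nat_lit 4)
  (nat_lit 68316) (nat_lit 10) (node (nat_lit 5) (nat_lit 68316) (nat_lit 11) (node (nat_lit 6)
  (nat_lit 68316) (nat_lit 12) (node (nat_lit 4) (nat_lit 68316) (nat_lit 13) (node (nat_lit 6)
  (nat_lit 68316) (nat_lit 14) nil nil) (node (nat_lit 5) (nat_lit 68316) (nat_lit 13) (node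
  (nat_lit 4) (nat_lit 68316) (nat_lit 14) (node (nat_lit 6) (nat_lit 68316) (nat_lit 15) nil nil)
  nil) nil)) (node (nat_lit 4) (nat_lit 68316) (nat_lit 12) (node (nat_lit 6) (nat_lit 68316)
  (nat_lit 13) (node (nat_lit 5) (nat_lit 68316) (nat_lit 14) nil (node (nat_lit 4) (nat_lit
  68316) (nat_lit 14) nil nil)) nil) (node (nat_lit 0) (nat_lit 70022) (nat_lit 12) nil (node
  (nat_lit 11) (nat_lit 70022) (nat_lit 12) nil nil)))) (node (nat_lit 6) (nat_lit 68316) (nat_lit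
  11) (node (nat_lit 5) (nat_lit 68316) (nat_lit 12) (node (nat_lit 4) (nat_lit 68316) (nat_lit
  13) nil (node (nat_lit 6) (nat_lit 68316) (nat_lit 13) nil nil)) (node (nat_lit 11) (nat_lit
  72560) (nat_lit 12) nil nil)) (node (nat_lit 11) (nat_lit 72777) (nat_lit 11) (node (nat_lit 6)
  (nat_lit 72777) (nat_lit 12) nil nil) (node (nat_lit 0) (nat_lit 71857) (nat_lit 11) nil nil))))
  (node (nat_lit 5) (nat_lit 68316) (nat_lit 10) (node (nat_lit 4) (nat_lit 68316) (nat_lit 11)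
  (node (nat_lit 6) (nat_lit 68316) (nat_lit 12) (node (nat_lit 5) (nat_lit 68316) (nat_lit 13)
  (node (nat_lit 6) (nat_lit 68316) (nat_lit 14) nil nil) (node (nat_lit 4) (nat_lit 68316)
  (nat_lit 13) (node (nat_lit 5) (nat_lit 68316) (nat_lit 14) (node (nat_lit 6) (nat_lit 68316)
  (nat_lit 15) nil nil) nil) nil)) (node (nat_lit 5) (nat_lit 68316) (nat_lit 12) (node (nat_lit
  6) (nat_lit 68316) (nat_lit 13) (node (nat_lit 4) (nat_lit 68316) (nat_lit 14) nil (node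
  (nat_lit 5) (nat_lit 68316) (nat_lit 14) nil nil)) nil) (node (nat_lit 0) (nat_lit 70022)
  (nat_lit 12) nil nil))) (node (nat_lit 6) (nat_lit 68316) (nat_lit 11) (node (nat_lit 4)
  (nat_lit 68316) (nat_lit 12) (node (nat_lit 5) (nat_lit 68316) (nat_lit 13) (node (nat_lit 4)
  (nat_lit 68316) (nat_lit 14) nil (node (nat_lit 6) (nat_lit 68316) (nat_lit 14) nil nil)) (node
  (nat_lit 6) (nat_lit 68316) (nat_lit 13) nil nil)) (node (nat_lit 11) (nat_lit 72560) (nat_lit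
  12) nil (node (nat_lit 0) (nat_lit 70022) (nat_lit 12) nil nil))) (node (nat_lit 11) (nat_lit
  71857) (nat_lit 11) nil (node (nat_lit 0) (nat_lit 71857) (nat_lit 11) nil nil)))) (node
  (nat_lit 0) (nat_lit 72619) (nat_lit 10) (node (nat_lit 6) (nat_lit 72619) (nat_lit 11) nil
  (node (nat_lit 11) (nat_lit 72777) (nat_lit 11) nil nil)) nil))) (node (nat_lit 4) (nat_lit 0)
  (nat_lit 9) (node (nat_lit 11) (nat_lit 72619) (nat_lit 10) (node (nat_lit 6) (nat_lit 72619)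
  (nat_lit 11) nil nil) (node (nat_lit 6) (nat_lit 68316) (nat_lit 10) (node (nat_lit 4) (nat_lit
  68316) (nat_lit 11) (node (nat_lit 11) (nat_lit 70022) (nat_lit 12) nil nil) nil) (node (nat_lit
  5) (nat_lit 68316) (nat_lit 10) nil (node (nat_lit 0) (nat_lit 69376) (nat_lit 10) nil nil))))
  (node (nat_lit 5) (nat_lit 68316) (nat_lit 9) (node (nat_lit 11) (nat_lit 69376) (nat_lit 10)
  nil (node (nat_lit 6) (nat_lit 68316) (nat_lit 10) nil nil)) (node (nat_lit 0) (nat_lit 71632)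
  (nat_lit 9) (node (nat_lit 6) (nat_lit 71632) (nat_lit 10) nil (node (nat_lit 11) (nat_lit
  72096) (nat_lit 10) nil nil)) nil)))) (node (nat_lit 4) (nat_lit 0) (nat_lit 8) (node (nat_lit
  0) (nat_lit 69256) (nat_lit 9) (node (nat_lit 6) (nat_lit 69256) (nat_lit 10) (node (nat_lit 4)
  (nat_lit 69256) (nat_lit 11) (node (nat_lit 5) (nat_lit 69256) (nat_lit 12) (node (nat_lit 6)
  (nat_lit 69256) (nat_lit 13) (node (nat_lit 5) (nat_lit 69256) (nat_lit 14) (node (nat_lit 4)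
  (nat_lit 69256) (nat_lit 15) (node (nat_lit 5) (nat_lit 69391) (nat_lit 16) (node (nat_lit 6)
  (nat_lit 71059) (nat_lit 17) (node (nat_lit 4) (nat_lit 72230) (nat_lit 18) (node (nat_lit 5)
  (nat_lit 72763) (nat_lit 19) nil nil) nil) nil) nil) nil) (node (nat_lit 4) (nat_lit 69256)
  (nat_lit 14) nil nil)) (node (nat_lit 4) (nat_lit 69256) (nat_lit 13) (node (nat_lit 6) (nat_lit
  69256) (nat_lit 14) nil nil) (node (nat_lit 12) (nat_lit 71760) (nat_lit 13) nil nil))) (node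
  (nat_lit 6) (nat_lit 69256) (nat_lit 12) (node (nat_lit 5) (nat_lit 69256) (nat_lit 13) (node
  (nat_lit 4) (nat_lit 69256) (nat_lit 14) (node (nat_lit 5) (nat_lit 69256) (nat_lit 15) (node
  (nat_lit 6) (nat_lit 69256) (nat_lit 16) (node (nat_lit 4) (nat_lit 71548) (nat_lit 17) (node
  (nat_lit 5) (nat_lit 72230) (nat_lit 18) nil nil) nil) nil) (node (nat_lit 6) (nat_lit 69256)
  (nat_lit 15) nil nil)) (node (nat_lit 6) (nat_lit 69256) (nat_lit 14) (node (nat_lit 4) (nat_lit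
  69256) (nat_lit 15) nil nil) nil)) (node (nat_lit 12) (nat_lit 71760) (nat_lit 13) nil (node
  (nat_lit 0) (nat_lit 71760) (nat_lit 13) nil nil))) (node (nat_lit 0) (nat_lit 71345) (nat_lit
  12) nil nil))) (node (nat_lit 12) (nat_lit 70812) (nat_lit 11) nil nil)) (node (nat_lit 4)
  (nat_lit 69256) (nat_lit 10) (node (nat_lit 6) (nat_lit 69256) (nat_lit 11) (node (nat_lit 12)
  (nat_lit 71345) (nat_lit 12) nil nil) nil) nil)) nil) (node (nat_lit 5) (nat_lit 0) (nat_lit 8)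
  (node (nat_lit 0) (nat_lit 70553) (nat_lit 9) (node (nat_lit 6) (nat_lit 70553) (nat_lit 10)
  (node (nat_lit 5) (nat_lit 70553) (nat_lit 11) (node (nat_lit 4) (nat_lit 70553) (nat_lit 12)
  (node (nat_lit 6) (nat_lit 70553) (nat_lit 13) (node (nat_lit 5) (nat_lit 70553) (nat_lit 14)
  nil (node (nat_lit 4) (nat_lit 70553) (nat_lit 14) (node (nat_lit 5) (nat_lit 70553) (nat_lit
  15) nil nil) nil)) (node (nat_lit 5) (nat_lit 70553) (nat_lit 13) (node (nat_lit 6) (nat_lit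
  70553) (nat_lit 14) (node (nat_lit 4) (nat_lit 70553) (nat_lit 15) nil (node (nat_lit 5)
  (nat_lit 70553) (nat_lit 15) nil nil)) nil) (node (nat_lit 12) (nat_lit 72777) (nat_lit 13) nil
  nil))) (node (nat_lit 6) (nat_lit 70553) (nat_lit 12) (node (nat_lit 4) (nat_lit 70553) (nat_lit
  13) (node (nat_lit 5) (nat_lit 70553) (nat_lit 14) (node (nat_lit 4) (nat_lit 70553) (nat_lit
  15) nil nil) (node (nat_lit 6) (nat_lit 70553) (nat_lit 14) nil nil)) (node (nat_lit 12)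
  (nat_lit 72777) (nat_lit 13) nil (node (nat_lit 0) (nat_lit 72777) (nat_lit 13) nil nil))) (node
  (nat_lit 0) (nat_lit 72642) (nat_lit 12) nil nil))) nil) (node (nat_lit 5) (nat_lit 70553)
  (nat_lit 10) nil (node (nat_lit 4) (nat_lit 70553) (nat_lit 10) nil nil))) nil) nil))) nil))

noncomputable def t209 : Tr :=
  (node (nat_lit 6) (nat_lit 0) (nat_lit 5) (node (nat_lit 5) (nat_lit 0) (nat_lit 6) t207 (node
  (nat_lit 0) (nat_lit 0) (nat_lit 6) (node (nat_lit 4) (nat_lit 113034) (nat_lit 7) (node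
  (nat_lit 5) (nat_lit 113084) (nat_lit 8) (node (nat_lit 6) (nat_lit 113084) (nat_lit 9) (node
  (nat_lit 4) (nat_lit 113084) (nat_lit 10) (node (nat_lit 6) (nat_lit 113084) (nat_lit 11) (node
  (nat_lit 5) (nat_lit 113084) (nat_lit 12) (node (nat_lit 4) (nat_lit 113084) (nat_lit 13) (node
  (nat_lit 5) (nat_lit 117754) (nat_lit 14) (node (nat_lit 6) (nat_lit 119416) (nat_lit 15) nil
  nil) nil) (node (nat_lit 6) (nat_lit 113084) (nat_lit 13) (node (nat_lit 4) (nat_lit 115214)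
  (nat_lit 14) nil nil) nil)) nil) (node (nat_lit 5) (nat_lit 113084) (nat_lit 11) (node (nat_lit
  4) (nat_lit 113084) (nat_lit 12) nil nil) nil)) (node (nat_lit 5) (nat_lit 113084) (nat_lit 10)
  (node (nat_lit 4) (nat_lit 113084) (nat_lit 11) (node (nat_lit 6) (nat_lit 113084) (nat_lit 12)
  (node (nat_lit 4) (nat_lit 113084) (nat_lit 13) (node (nat_lit 5) (nat_lit 118140) (nat_lit 14)
  (node (nat_lit 6) (nat_lit 117403) (nat_lit 15) (node (nat_lit 4) (nat_lit 119178) (nat_lit 16)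
  nil nil) nil) nil) (node (nat_lit 5) (nat_lit 113084) (nat_lit 13) (node (nat_lit 6) (nat_lit
  115214) (nat_lit 14) nil nil) nil)) (node (nat_lit 5) (nat_lit 113084) (nat_lit 12) (node
  (nat_lit 6) (nat_lit 113084) (nat_lit 13) (node (nat_lit 4) (nat_lit 117212) (nat_lit 14) (node
  (nat_lit 6) (nat_lit 119416) (nat_lit 15) nil nil) nil) nil) nil)) nil) (node (nat_lit 9)
  (nat_lit 119185) (nat_lit 10) nil nil))) (node (nat_lit 4) (nat_lit 113084) (nat_lit 9) (node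
  (nat_lit 6) (nat_lit 113084) (nat_lit 10) (node (nat_lit 5) (nat_lit 113084) (nat_lit 11) (node
  (nat_lit 4) (nat_lit 113084) (nat_lit 12) (node (nat_lit 5) (nat_lit 113084) (nat_lit 13) (node
  (nat_lit 6) (nat_lit 117754) (nat_lit 14) (node (nat_lit 4) (nat_lit 119416) (nat_lit 15) nil
  nil) nil) nil) (node (nat_lit 6) (nat_lit 113084) (nat_lit 12) nil nil)) (node (nat_lit 4)
  (nat_lit 113084) (nat_lit 11) (node (nat_lit 5) (nat_lit 113084) (nat_lit 12) (node (nat_lit 6)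
  (nat_lit 113257) (nat_lit 13) (node (nat_lit 4) (nat_lit 116529) (nat_lit 14) (node (nat_lit 6)
  (nat_lit 117015) (nat_lit 15) nil nil) nil) nil) nil) nil)) (node (nat_lit 9) (nat_lit 119185)
  (nat_lit 10) nil nil)) (node (nat_lit 9) (nat_lit 118173) (nat_lit 9) nil nil))) (node (nat_lit
  6) (nat_lit 113266) (nat_lit 8) (node (nat_lit 5) (nat_lit 113362) (nat_lit 9) (node (nat_lit 4)
  (nat_lit 113401) (nat_lit 10) (node (nat_lit 5) (nat_lit 113401) (nat_lit 11) (node (nat_lit 6)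
  (nat_lit 113401) (nat_lit 12) (node (nat_lit 4) (nat_lit 113401) (nat_lit 13) (node (nat_lit 6)
  (nat_lit 117002) (nat_lit 14) (node (nat_lit 9) (nat_lit 66584) (nat_lit 15) nil nil) nil) (node
  (nat_lit 5) (nat_lit 113194) (nat_lit 13) (node (nat_lit 4) (nat_lit 113441) (nat_lit 14) nil
  nil) nil)) nil) (node (nat_lit 6) (nat_lit 113401) (nat_lit 11) (node (nat_lit 4) (nat_lit
  113401) (nat_lit 12) (node (nat_lit 5) (nat_lit 113317) (nat_lit 13) (node (nat_lit 6) (nat_lit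
  114518) (nat_lit 14) nil nil) nil) nil) nil)) (node (nat_lit 6) (nat_lit 113362) (nat_lit 10)
  (node (nat_lit 4) (nat_lit 113362) (nat_lit 11) (node (nat_lit 5) (nat_lit 113362) (nat_lit 12)
  (node (nat_lit 4) (nat_lit 113215) (nat_lit 13) (node (nat_lit 6) (nat_lit 113983) (nat_lit 14)
  nil nil) (node (nat_lit 6) (nat_lit 113362) (nat_lit 13) nil nil)) (node (nat_lit 6) (nat_lit
  113362) (nat_lit 12) (node (nat_lit 5) (nat_lit 113362) (nat_lit 13) (node (nat_lit 4) (nat_lit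
  113845) (nat_lit 14) nil nil) nil) nil)) nil) nil)) (node (nat_lit 4) (nat_lit 113296) (nat_lit
  9) (node (nat_lit 5) (nat_lit 113296) (nat_lit 10) (node (nat_lit 4) (nat_lit 113296) (nat_lit
  11) nil (node (nat_lit 6) (nat_lit 113296) (nat_lit 11) nil nil)) (node (nat_lit 9) (nat_lit
  119398) (nat_lit 10) nil nil)) nil)) (node (nat_lit 9) (nat_lit 119097) (nat_lit 8) (node
  (nat_lit 6) (nat_lit 119097) (nat_lit 9) nil (node (nat_lit 5) (nat_lit 119097) (nat_lit 9) nil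
  nil)) nil))) (node (nat_lit 5) (nat_lit 112882) (nat_lit 7) (node (nat_lit 6) (nat_lit 112882)
  (nat_lit 8) (node (nat_lit 4) (nat_lit 112882) (nat_lit 9) (node (nat_lit 5) (nat_lit 112882)
  (nat_lit 10) (node (nat_lit 4) (nat_lit 112882) (nat_lit 11) (node (nat_lit 6) (nat_lit 112882)
  (nat_lit 12) (node (nat_lit 5) (nat_lit 112882) (nat_lit 13) nil (node (nat_lit 4) (nat_lit
  113055) (nat_lit 13) (node (nat_lit 5) (nat_lit 116327) (nat_lit 14) nil nil) nil)) nil) (node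
  (nat_lit 6) (nat_lit 112882) (nat_lit 11) (node (nat_lit 5) (nat_lit 112882) (nat_lit 12) nil
  nil) nil)) (node (nat_lit 6) (nat_lit 112882) (nat_lit 10) (node (nat_lit 5) (nat_lit 112882)
  (nat_lit 11) (node (nat_lit 4) (nat_lit 112882) (nat_lit 12) (node (nat_lit 5) (nat_lit 112882)
  (nat_lit 13) (node (nat_lit 6) (nat_lit 117779) (nat_lit 14) (node (nat_lit 4) (nat_lit 119441)
  (nat_lit 15) nil nil) nil) (node (nat_lit 6) (nat_lit 112963) (nat_lit 13) (node (nat_lit 4)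
  (nat_lit 117188) (nat_lit 14) nil nil) nil)) (node (nat_lit 6) (nat_lit 112882) (nat_lit 12)
  (node (nat_lit 4) (nat_lit 112882) (nat_lit 13) nil nil) nil)) nil) (node (nat_lit 9) (nat_lit
  118983) (nat_lit 10) nil nil))) (node (nat_lit 5) (nat_lit 112882) (nat_lit 9) (node (nat_lit 4)
  (nat_lit 112882) (nat_lit 10) (node (nat_lit 6) (nat_lit 112882) (nat_lit 11) (node (nat_lit 4)
  (nat_lit 112882) (nat_lit 12) (node (nat_lit 5) (nat_lit 113055) (nat_lit 13) (node (nat_lit 6)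
  (nat_lit 113907) (nat_lit 14) (node (nat_lit 4) (nat_lit 117447) (nat_lit 15) (node (nat_lit 6)
  (nat_lit 116765) (nat_lit 16) nil nil) nil) nil) nil) (node (nat_lit 5) (nat_lit 112882)
  (nat_lit 12) (node (nat_lit 6) (nat_lit 112882) (nat_lit 13) nil nil) nil)) (node (nat_lit 5)
  (nat_lit 112882) (nat_lit 11) nil nil)) (node (nat_lit 9) (nat_lit 118983) (nat_lit 10) nil
  nil)) (node (nat_lit 9) (nat_lit 117972) (nat_lit 9) nil nil))) (node (nat_lit 4) (nat_lit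
  112882) (nat_lit 8) (node (nat_lit 6) (nat_lit 112882) (nat_lit 9) (node (nat_lit 4) (nat_lit
  112882) (nat_lit 10) (node (nat_lit 5) (nat_lit 112882) (nat_lit 11) (node (nat_lit 6) (nat_lit
  112882) (nat_lit 12) (node (nat_lit 5) (nat_lit 112655) (nat_lit 13) (node (nat_lit 4) (nat_lit
  112902) (nat_lit 14) (node (nat_lit 5) (nat_lit 115629) (nat_lit 15) (node (nat_lit 6) (nat_lit
  116991) (nat_lit 16) (node (nat_lit 4) (nat_lit 117942) (nat_lit 17) nil nil) nil) nil) nil)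
  (node (nat_lit 4) (nat_lit 112882) (nat_lit 13) (node (nat_lit 6) (nat_lit 111231) (nat_lit 14)
  (node (nat_lit 9) (nat_lit 67989) (nat_lit 15) nil nil) nil) nil)) (node (nat_lit 4) (nat_lit
  112882) (nat_lit 12) (node (nat_lit 6) (nat_lit 112882) (nat_lit 13) nil nil) nil)) nil) (node
  (nat_lit 5) (nat_lit 112882) (nat_lit 10) (node (nat_lit 6) (nat_lit 112882) (nat_lit 11) (node
  (nat_lit 4) (nat_lit 112882) (nat_lit 12) (node (nat_lit 6) (nat_lit 112882) (nat_lit 13) nil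
  (node (nat_lit 5) (nat_lit 112882) (nat_lit 13) nil nil)) nil) (node (nat_lit 4) (nat_lit
  112882) (nat_lit 11) (node (nat_lit 5) (nat_lit 112882) (nat_lit 12) (node (nat_lit 6) (nat_lit
  112882) (nat_lit 13) (node (nat_lit 4) (nat_lit 117671) (nat_lit 14) (node (nat_lit 6) (nat_lit
  119441) (nat_lit 15) nil nil) nil) nil) nil) nil)) (node (nat_lit 9) (nat_lit 118983) (nat_lit
  10) nil nil))) (node (nat_lit 5) (nat_lit 112882) (nat_lit 9) (node (nat_lit 6) (nat_lit 112882)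
  (nat_lit 10) (node (nat_lit 4) (nat_lit 112882) (nat_lit 11) nil (node (nat_lit 5) (nat_lit
  112882) (nat_lit 11) nil nil)) (node (nat_lit 9) (nat_lit 118983) (nat_lit 10) nil nil)) (node
  (nat_lit 9) (nat_lit 117972) (nat_lit 9) nil nil))) (node (nat_lit 9) (nat_lit 123270) (nat_lit
  8) (node (nat_lit 4) (nat_lit 123270) (nat_lit 9) (node (nat_lit 6) (nat_lit 123270) (nat_lit
  10) (node (nat_lit 5) (nat_lit 123270) (nat_lit 11) (node (nat_lit 4) (nat_lit 123270) (nat_lit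
  12) (node (nat_lit 5) (nat_lit 123270) (nat_lit 13) (node (nat_lit 6) (nat_lit 123270) (nat_lit
  14) (node (nat_lit 4) (nat_lit 123270) (nat_lit 15) (node (nat_lit 6) (nat_lit 124568) (nat_lit
  16) nil nil) nil) nil) nil) nil) nil) nil) nil) nil))) (node (nat_lit 6) (nat_lit 112958)
  (nat_lit 7) (node (nat_lit 4) (nat_lit 113287) (nat_lit 8) (node (nat_lit 5) (nat_lit 113287)
  (nat_lit 9) (node (nat_lit 6) (nat_lit 113287) (nat_lit 10) (node (nat_lit 5) (nat_lit 113287)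
  (nat_lit 11) (node (nat_lit 4) (nat_lit 113287) (nat_lit 12) (node (nat_lit 6) (nat_lit 113287)
  (nat_lit 13) nil (node (nat_lit 5) (nat_lit 113287) (nat_lit 13) (node (nat_lit 6) (nat_lit
  116357) (nat_lit 14) nil nil) nil)) nil) (node (nat_lit 4) (nat_lit 113287) (nat_lit 11) (node
  (nat_lit 6) (nat_lit 113287) (nat_lit 12) (node (nat_lit 5) (nat_lit 113287) (nat_lit 13) nil
  (node (nat_lit 9) (nat_lit 71330) (nat_lit 13) nil nil)) nil) nil)) (node (nat_lit 4) (nat_lit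
  113287) (nat_lit 10) (node (nat_lit 6) (nat_lit 113287) (nat_lit 11) (node (nat_lit 5) (nat_lit
  113287) (nat_lit 12) (node (nat_lit 6) (nat_lit 113287) (nat_lit 13) (node (nat_lit 4) (nat_lit
  115417) (nat_lit 14) nil nil) (node (nat_lit 4) (nat_lit 113287) (nat_lit 13) (node (nat_lit 5)
  (nat_lit 117693) (nat_lit 14) nil nil) nil)) (node (nat_lit 4) (nat_lit 113287) (nat_lit 12)
  (node (nat_lit 5) (nat_lit 113381) (nat_lit 13) (node (nat_lit 6) (nat_lit 114251) (nat_lit 14)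
  (node (nat_lit 4) (nat_lit 116716) (nat_lit 15) (node (nat_lit 6) (nat_lit 116033) (nat_lit 16)
  nil nil) nil) nil) nil) nil)) nil) nil)) (node (nat_lit 6) (nat_lit 113287) (nat_lit 9) (node
  (nat_lit 5) (nat_lit 113287) (nat_lit 10) (node (nat_lit 4) (nat_lit 113287) (nat_lit 11) (node
  (nat_lit 6) (nat_lit 113287) (nat_lit 12) (node (nat_lit 4) (nat_lit 113287) (nat_lit 13) nil
  nil) (node (nat_lit 5) (nat_lit 113287) (nat_lit 12) (node (nat_lit 6) (nat_lit 113287) (nat_lit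
  13) (node (nat_lit 4) (nat_lit 117212) (nat_lit 14) nil nil) nil) nil)) (node (nat_lit 6)
  (nat_lit 113287) (nat_lit 11) nil nil)) nil) (node (nat_lit 9) (nat_lit 118377) (nat_lit 9) nil
  nil))) (node (nat_lit 5) (nat_lit 113346) (nat_lit 8) (node (nat_lit 4) (nat_lit 113386)
  (nat_lit 9) (node (nat_lit 6) (nat_lit 113386) (nat_lit 10) (node (nat_lit 4) (nat_lit 113386)
  (nat_lit 11) (node (nat_lit 5) (nat_lit 113386) (nat_lit 12) (node (nat_lit 6) (nat_lit 113386)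
  (nat_lit 13) (node (nat_lit 4) (nat_lit 117987) (nat_lit 14) (node (nat_lit 6) (nat_lit 117105)
  (nat_lit 15) (node (nat_lit 9) (nat_lit 75202) (nat_lit 16) nil nil) nil) nil) (node (nat_lit 4)
  (nat_lit 113386) (nat_lit 13) nil nil)) nil) (node (nat_lit 5) (nat_lit 113386) (nat_lit 11)
  (node (nat_lit 6) (nat_lit 113386) (nat_lit 12) nil nil) nil)) (node (nat_lit 5) (nat_lit
  113386) (nat_lit 10) (node (nat_lit 6) (nat_lit 113386) (nat_lit 11) (node (nat_lit 4) (nat_lit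
  113386) (nat_lit 12) (node (nat_lit 6) (nat_lit 113386) (nat_lit 13) (node (nat_lit 5) (nat_lit
  118056) (nat_lit 14) nil (node (nat_lit 9) (nat_lit 50249) (nat_lit 14) nil nil)) (node (nat_lit
  5) (nat_lit 113386) (nat_lit 13) nil nil)) (node (nat_lit 5) (nat_lit 113386) (nat_lit 12) (node
  (nat_lit 4) (nat_lit 113386) (nat_lit 13) nil nil) nil)) nil) nil)) (node (nat_lit 6) (nat_lit
  113346) (nat_lit 9) (node (nat_lit 4) (nat_lit 113346) (nat_lit 10) (node (nat_lit 5) (nat_lit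
  113346) (nat_lit 11) (node (nat_lit 6) (nat_lit 113346) (nat_lit 12) (node (nat_lit 5) (nat_lit
  113200) (nat_lit 13) (node (nat_lit 4) (nat_lit 113446) (nat_lit 14) (node (nat_lit 5) (nat_lit
  116098) (nat_lit 15) (node (nat_lit 6) (nat_lit 117395) (nat_lit 16) (node (nat_lit 4) (nat_lit
  118180) (nat_lit 17) (node (nat_lit 6) (nat_lit 118608) (nat_lit 18) nil nil) nil) nil) nil)
  nil) nil) nil) (node (nat_lit 6) (nat_lit 113346) (nat_lit 11) nil nil)) nil) (node (nat_lit 9)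
  (nat_lit 118436) (nat_lit 9) nil nil))) nil)) (node (nat_lit 0) (nat_lit 117397) (nat_lit 7) nil
  nil)))) nil)) (node (nat_lit 5) (nat_lit 0) (nat_lit 5) (node (nat_lit 4) (nat_lit 0) (nat_lit
  6) t208 (node (nat_lit 0) (nat_lit 0) (nat_lit 6) (node (nat_lit 4) (nat_lit 62467) (nat_lit 7)
  (node (nat_lit 6) (nat_lit 62949) (nat_lit 8) (node (nat_lit 5) (nat_lit 62949) (nat_lit 9)
  (node (nat_lit 4) (nat_lit 62949) (nat_lit 10) (node (nat_lit 5) (nat_lit 62949) (nat_lit 11)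
  (node (nat_lit 6) (nat_lit 62949) (nat_lit 12) (node (nat_lit 4) (nat_lit 62949) (nat_lit 13)
  (node (nat_lit 6) (nat_lit 60505) (nat_lit 14) nil (node (nat_lit 5) (nat_lit 66332) (nat_lit
  14) (node (nat_lit 9) (nat_lit 12156) (nat_lit 15) nil nil) nil)) (node (nat_lit 5) (nat_lit
  62722) (nat_lit 13) (node (nat_lit 4) (nat_lit 65398) (nat_lit 14) nil nil) nil)) nil) (node
  (nat_lit 6) (nat_lit 62949) (nat_lit 11) (node (nat_lit 4) (nat_lit 62949) (nat_lit 12) nil nil)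
  nil)) (node (nat_lit 6) (nat_lit 62949) (nat_lit 10) (node (nat_lit 4) (nat_lit 62949) (nat_lit
  11) (node (nat_lit 5) (nat_lit 62949) (nat_lit 12) (node (nat_lit 6) (nat_lit 62949) (nat_lit
  13) nil (node (nat_lit 4) (nat_lit 62949) (nat_lit 13) nil nil)) (node (nat_lit 6) (nat_lit
  62949) (nat_lit 12) (node (nat_lit 5) (nat_lit 62949) (nat_lit 13) nil nil) nil)) nil) (node
  (nat_lit 9) (nat_lit 65749) (nat_lit 10) nil nil))) (node (nat_lit 4) (nat_lit 63133) (nat_lit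
  9) (node (nat_lit 5) (nat_lit 63133) (nat_lit 10) (node (nat_lit 4) (nat_lit 63133) (nat_lit 11)
  (node (nat_lit 6) (nat_lit 63133) (nat_lit 12) (node (nat_lit 5) (nat_lit 63266) (nat_lit 13)
  (node (nat_lit 4) (nat_lit 65485) (nat_lit 14) (node (nat_lit 5) (nat_lit 67101) (nat_lit 15)
  (node (nat_lit 6) (nat_lit 68581) (nat_lit 16) (node (nat_lit 4) (nat_lit 69912) (nat_lit 17)
  (node (nat_lit 5) (nat_lit 70791) (nat_lit 18) nil nil) nil) nil) nil) nil) nil) nil) (node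
  (nat_lit 6) (nat_lit 63133) (nat_lit 11) (node (nat_lit 4) (nat_lit 63133) (nat_lit 12) nil nil)
  nil)) nil) (node (nat_lit 9) (nat_lit 66909) (nat_lit 9) nil nil))) (node (nat_lit 5) (nat_lit
  62942) (nat_lit 8) (node (nat_lit 6) (nat_lit 62849) (nat_lit 9) (node (nat_lit 4) (nat_lit
  62849) (nat_lit 10) (node (nat_lit 6) (nat_lit 62849) (nat_lit 11) (node (nat_lit 5) (nat_lit
  62849) (nat_lit 12) (node (nat_lit 4) (nat_lit 62849) (nat_lit 13) (node (nat_lit 5) (nat_lit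
  67025) (nat_lit 14) (node (nat_lit 6) (nat_lit 69399) (nat_lit 15) nil nil) nil) (node (nat_lit
  6) (nat_lit 62849) (nat_lit 13) nil nil)) nil) (node (nat_lit 5) (nat_lit 62849) (nat_lit 11)
  (node (nat_lit 4) (nat_lit 62849) (nat_lit 12) (node (nat_lit 6) (nat_lit 62849) (nat_lit 13)
  nil nil) nil) nil)) (node (nat_lit 5) (nat_lit 63088) (nat_lit 10) (node (nat_lit 4) (nat_lit
  63391) (nat_lit 11) (node (nat_lit 6) (nat_lit 63391) (nat_lit 12) (node (nat_lit 5) (nat_lit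
  63391) (nat_lit 13) nil (node (nat_lit 4) (nat_lit 63391) (nat_lit 13) (node (nat_lit 5)
  (nat_lit 64368) (nat_lit 14) nil nil) nil)) (node (nat_lit 5) (nat_lit 63391) (nat_lit 12) (node
  (nat_lit 6) (nat_lit 63481) (nat_lit 13) (node (nat_lit 4) (nat_lit 66347) (nat_lit 14) (node
  (nat_lit 5) (nat_lit 67393) (nat_lit 15) nil nil) nil) nil) nil)) nil) nil)) (node (nat_lit 4)
  (nat_lit 63408) (nat_lit 9) (node (nat_lit 6) (nat_lit 63634) (nat_lit 10) (node (nat_lit 5)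
  (nat_lit 63634) (nat_lit 11) (node (nat_lit 4) (nat_lit 63634) (nat_lit 12) (node (nat_lit 5)
  (nat_lit 63766) (nat_lit 13) (node (nat_lit 6) (nat_lit 67041) (nat_lit 14) (node (nat_lit 4)
  (nat_lit 68350) (nat_lit 15) nil nil) nil) nil) nil) nil) (node (nat_lit 9) (nat_lit 66208)
  (nat_lit 10) nil nil)) nil)) (node (nat_lit 9) (nat_lit 71222) (nat_lit 8) nil nil))) (node
  (nat_lit 5) (nat_lit 62227) (nat_lit 7) (node (nat_lit 4) (nat_lit 63028) (nat_lit 8) (node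
  (nat_lit 6) (nat_lit 63722) (nat_lit 9) (node (nat_lit 4) (nat_lit 63722) (nat_lit 10) (node
  (nat_lit 5) (nat_lit 63722) (nat_lit 11) (node (nat_lit 6) (nat_lit 63722) (nat_lit 12) (node
  (nat_lit 5) (nat_lit 63686) (nat_lit 13) (node (nat_lit 4) (nat_lit 66362) (nat_lit 14) (node
  (nat_lit 5) (nat_lit 68190) (nat_lit 15) (node (nat_lit 6) (nat_lit 68849) (nat_lit 16) (node
  (nat_lit 4) (nat_lit 69861) (nat_lit 17) nil nil) nil) nil) nil) (node (nat_lit 4) (nat_lit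
  63722) (nat_lit 13) nil nil)) (node (nat_lit 4) (nat_lit 63722) (nat_lit 12) (node (nat_lit 6)
  (nat_lit 63722) (nat_lit 13) nil nil) nil)) nil) (node (nat_lit 5) (nat_lit 63852) (nat_lit 10)
  (node (nat_lit 6) (nat_lit 63852) (nat_lit 11) (node (nat_lit 4) (nat_lit 63852) (nat_lit 12)
  (node (nat_lit 5) (nat_lit 63852) (nat_lit 13) nil (node (nat_lit 6) (nat_lit 63852) (nat_lit
  13) nil nil)) nil) (node (nat_lit 4) (nat_lit 63852) (nat_lit 11) (node (nat_lit 5) (nat_lit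
  63852) (nat_lit 12) (node (nat_lit 6) (nat_lit 63710) (nat_lit 13) (node (nat_lit 4) (nat_lit
  67067) (nat_lit 14) nil nil) nil) nil) nil)) nil)) (node (nat_lit 5) (nat_lit 63198) (nat_lit 9)
  (node (nat_lit 6) (nat_lit 63198) (nat_lit 10) (node (nat_lit 4) (nat_lit 63198) (nat_lit 11)
  (node (nat_lit 5) (nat_lit 63198) (nat_lit 12) nil nil) nil) nil) (node (nat_lit 9) (nat_lit
  65363) (nat_lit 9) nil nil))) (node (nat_lit 6) (nat_lit 63112) (nat_lit 8) (node (nat_lit 4)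
  (nat_lit 63755) (nat_lit 9) (node (nat_lit 6) (nat_lit 63836) (nat_lit 10) (node (nat_lit 5)
  (nat_lit 63856) (nat_lit 11) (node (nat_lit 4) (nat_lit 63856) (nat_lit 12) (node (nat_lit 5)
  (nat_lit 63856) (nat_lit 13) (node (nat_lit 6) (nat_lit 67915) (nat_lit 14) (node (nat_lit 4)
  (nat_lit 68618) (nat_lit 15) (node (nat_lit 5) (nat_lit 69378) (nat_lit 16) nil nil) nil) nil)
  (node (nat_lit 6) (nat_lit 63856) (nat_lit 13) nil nil)) (node (nat_lit 6) (nat_lit 63856)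
  (nat_lit 12) (node (nat_lit 4) (nat_lit 63856) (nat_lit 13) nil nil) nil)) nil) (node (nat_lit
  5) (nat_lit 63905) (nat_lit 10) (node (nat_lit 4) (nat_lit 64089) (nat_lit 11) (node (nat_lit 6)
  (nat_lit 64089) (nat_lit 12) (node (nat_lit 5) (nat_lit 64222) (nat_lit 13) (node (nat_lit 4)
  (nat_lit 66441) (nat_lit 14) (node (nat_lit 5) (nat_lit 68058) (nat_lit 15) nil nil) nil) (node
  (nat_lit 4) (nat_lit 64089) (nat_lit 13) nil nil)) nil) (node (nat_lit 6) (nat_lit 63905)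
  (nat_lit 11) (node (nat_lit 5) (nat_lit 63905) (nat_lit 12) nil nil) nil)) nil)) (node (nat_lit
  5) (nat_lit 63499) (nat_lit 9) (node (nat_lit 4) (nat_lit 63499) (nat_lit 10) (node (nat_lit 6)
  (nat_lit 63499) (nat_lit 11) (node (nat_lit 5) (nat_lit 63499) (nat_lit 12) nil nil) nil) nil)
  (node (nat_lit 9) (nat_lit 67073) (nat_lit 9) nil nil))) nil)) (node (nat_lit 6) (nat_lit 62400)
  (nat_lit 7) (node (nat_lit 4) (nat_lit 62958) (nat_lit 8) (node (nat_lit 5) (nat_lit 62910)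
  (nat_lit 9) (node (nat_lit 6) (nat_lit 62990) (nat_lit 10) (node (nat_lit 5) (nat_lit 62990)
  (nat_lit 11) (node (nat_lit 4) (nat_lit 62990) (nat_lit 12) (node (nat_lit 6) (nat_lit 62990)
  (nat_lit 13) nil (node (nat_lit 5) (nat_lit 62990) (nat_lit 13) nil nil)) nil) (node (nat_lit 4)
  (nat_lit 62990) (nat_lit 11) (node (nat_lit 6) (nat_lit 62990) (nat_lit 12) (node (nat_lit 5)
  (nat_lit 62990) (nat_lit 13) (node (nat_lit 4) (nat_lit 65897) (nat_lit 14) (node (nat_lit 5)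
  (nat_lit 68672) (nat_lit 15) nil nil) nil) nil) nil) nil)) (node (nat_lit 4) (nat_lit 62910)
  (nat_lit 10) (node (nat_lit 6) (nat_lit 62910) (nat_lit 11) (node (nat_lit 5) (nat_lit 62910)
  (nat_lit 12) (node (nat_lit 6) (nat_lit 62910) (nat_lit 13) (node (nat_lit 4) (nat_lit 63888)
  (nat_lit 14) nil nil) (node (nat_lit 4) (nat_lit 63044) (nat_lit 13) (node (nat_lit 5) (nat_lit
  65737) (nat_lit 14) (node (nat_lit 6) (nat_lit 68052) (nat_lit 15) nil nil) nil) nil)) (node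
  (nat_lit 4) (nat_lit 62910) (nat_lit 12) (node (nat_lit 5) (nat_lit 62910) (nat_lit 13) nil nil)
  nil)) nil) nil)) (node (nat_lit 6) (nat_lit 63222) (nat_lit 9) (node (nat_lit 5) (nat_lit 63222)
  (nat_lit 10) (node (nat_lit 4) (nat_lit 63222) (nat_lit 11) (node (nat_lit 5) (nat_lit 63222)
  (nat_lit 12) (node (nat_lit 6) (nat_lit 63222) (nat_lit 13) (node (nat_lit 4) (nat_lit 65995)
  (nat_lit 14) (node (nat_lit 5) (nat_lit 68793) (nat_lit 15) nil nil) nil) nil) (node (nat_lit 6)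
  (nat_lit 63222) (nat_lit 12) nil nil)) (node (nat_lit 6) (nat_lit 63222) (nat_lit 11) nil nil))
  (node (nat_lit 9) (nat_lit 66022) (nat_lit 10) nil nil)) (node (nat_lit 9) (nat_lit 66919)
  (nat_lit 9) nil nil))) (node (nat_lit 5) (nat_lit 62731) (nat_lit 8) (node (nat_lit 4) (nat_lit
  62731) (nat_lit 9) (node (nat_lit 5) (nat_lit 62731) (nat_lit 10) (node (nat_lit 6) (nat_lit
  62731) (nat_lit 11) (node (nat_lit 4) (nat_lit 62731) (nat_lit 12) (node (nat_lit 6) (nat_lit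
  62731) (nat_lit 13) (node (nat_lit 5) (nat_lit 63708) (nat_lit 14) nil nil) (node (nat_lit 5)
  (nat_lit 62731) (nat_lit 13) nil nil)) (node (nat_lit 5) (nat_lit 62731) (nat_lit 12) (node
  (nat_lit 4) (nat_lit 62731) (nat_lit 13) nil nil) nil)) nil) (node (nat_lit 6) (nat_lit 62731)
  (nat_lit 10) (node (nat_lit 4) (nat_lit 62731) (nat_lit 11) (node (nat_lit 5) (nat_lit 62731)
  (nat_lit 12) (node (nat_lit 6) (nat_lit 62731) (nat_lit 13) nil (node (nat_lit 4) (nat_lit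
  62731) (nat_lit 13) nil nil)) nil) (node (nat_lit 5) (nat_lit 62731) (nat_lit 11) (node (nat_lit
  6) (nat_lit 62731) (nat_lit 12) (node (nat_lit 4) (nat_lit 62731) (nat_lit 13) nil nil) nil)
  nil)) (node (nat_lit 9) (nat_lit 65531) (nat_lit 10) nil nil))) (node (nat_lit 6) (nat_lit
  62984) (nat_lit 9) (node (nat_lit 4) (nat_lit 62984) (nat_lit 10) (node (nat_lit 5) (nat_lit
  62984) (nat_lit 11) (node (nat_lit 6) (nat_lit 62984) (nat_lit 12) nil nil) nil) (node (nat_lit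
  9) (nat_lit 65784) (nat_lit 10) nil nil)) (node (nat_lit 9) (nat_lit 66692) (nat_lit 9) nil
  nil))) (node (nat_lit 9) (nat_lit 71151) (nat_lit 8) (node (nat_lit 5) (nat_lit 71151) (nat_lit
  9) nil (node (nat_lit 4) (nat_lit 71151) (nat_lit 9) nil nil)) nil))) (node (nat_lit 0) (nat_lit
  68551) (nat_lit 7) nil nil)))) nil)) nil))

noncomputable def t210 : Tr :=
  (node (nat_lit 0) (nat_lit 0) (nat_lit 7) (node (nat_lit 4) (nat_lit 0) (nat_lit 8) (node
  (nat_lit 6) (nat_lit 0) (nat_lit 9) (node (nat_lit 5) (nat_lit 120712) (nat_lit 10) (node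
  (nat_lit 4) (nat_lit 120693) (nat_lit 11) (node (nat_lit 6) (nat_lit 120693) (nat_lit 12) (node
  (nat_lit 4) (nat_lit 120693) (nat_lit 13) (node (nat_lit 5) (nat_lit 120693) (nat_lit 14) (node
  (nat_lit 6) (nat_lit 122413) (nat_lit 15) (node (nat_lit 5) (nat_lit 124785) (nat_lit 16) (node
  (nat_lit 4) (nat_lit 126736) (nat_lit 17) (node (nat_lit 6) (nat_lit 127696) (nat_lit 18) nil
  nil) nil) nil) nil) nil) nil) (node (nat_lit 5) (nat_lit 120750) (nat_lit 12) (node (nat_lit 6)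
  (nat_lit 120750) (nat_lit 13) (node (nat_lit 5) (nat_lit 121207) (nat_lit 14) (node (nat_lit 4)
  (nat_lit 120261) (nat_lit 15) (node (nat_lit 6) (nat_lit 120830) (nat_lit 16) nil nil) nil)
  (node (nat_lit 4) (nat_lit 120750) (nat_lit 14) nil nil)) nil) nil)) (node (nat_lit 6) (nat_lit
  120769) (nat_lit 11) (node (nat_lit 4) (nat_lit 120718) (nat_lit 12) (node (nat_lit 5) (nat_lit
  120718) (nat_lit 13) (node (nat_lit 6) (nat_lit 120718) (nat_lit 14) (node (nat_lit 5) (nat_lit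
  122460) (nat_lit 15) (node (nat_lit 4) (nat_lit 123812) (nat_lit 16) (node (nat_lit 6) (nat_lit
  124781) (nat_lit 17) nil nil) nil) nil) nil) (node (nat_lit 6) (nat_lit 120718) (nat_lit 13)
  (node (nat_lit 5) (nat_lit 120718) (nat_lit 14) nil nil) nil)) nil) nil)) (node (nat_lit 4)
  (nat_lit 122013) (nat_lit 10) (node (nat_lit 5) (nat_lit 122013) (nat_lit 11) (node (nat_lit 6)
  (nat_lit 122013) (nat_lit 12) (node (nat_lit 5) (nat_lit 122013) (nat_lit 13) (node (nat_lit 4)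
  (nat_lit 122013) (nat_lit 14) (node (nat_lit 5) (nat_lit 125884) (nat_lit 15) (node (nat_lit 6)
  (nat_lit 127176) (nat_lit 16) nil nil) (node (nat_lit 6) (nat_lit 123515) (nat_lit 15) (node
  (nat_lit 10) (nat_lit 72960) (nat_lit 16) nil nil) nil)) nil) (node (nat_lit 4) (nat_lit 122013)
  (nat_lit 13) (node (nat_lit 6) (nat_lit 122013) (nat_lit 14) nil nil) nil)) (node (nat_lit 4)
  (nat_lit 122013) (nat_lit 12) (node (nat_lit 6) (nat_lit 122013) (nat_lit 13) (node (nat_lit 5)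
  (nat_lit 122013) (nat_lit 14) nil (node (nat_lit 4) (nat_lit 122013) (nat_lit 14) nil nil)) nil)
  nil)) (node (nat_lit 10) (nat_lit 129676) (nat_lit 11) nil (node (nat_lit 0) (nat_lit 126776)
  (nat_lit 11) nil nil))) (node (nat_lit 0) (nat_lit 124885) (nat_lit 10) nil nil))) (node
  (nat_lit 5) (nat_lit 120616) (nat_lit 9) (node (nat_lit 6) (nat_lit 121237) (nat_lit 10) (node
  (nat_lit 4) (nat_lit 121237) (nat_lit 11) (node (nat_lit 5) (nat_lit 121237) (nat_lit 12) (node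
  (nat_lit 4) (nat_lit 121237) (nat_lit 13) (node (nat_lit 6) (nat_lit 121237) (nat_lit 14) (node
  (nat_lit 4) (nat_lit 125730) (nat_lit 15) (node (nat_lit 5) (nat_lit 128555) (nat_lit 16) (node
  (nat_lit 6) (nat_lit 129361) (nat_lit 17) (node (nat_lit 5) (nat_lit 130393) (nat_lit 18) (node
  (nat_lit 4) (nat_lit 130070) (nat_lit 19) nil nil) nil) nil) nil) (node (nat_lit 5) (nat_lit
  120104) (nat_lit 15) nil nil)) nil) nil) (node (nat_lit 6) (nat_lit 121237) (nat_lit 12) (node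
  (nat_lit 5) (nat_lit 121237) (nat_lit 13) nil nil) nil)) (node (nat_lit 5) (nat_lit 121752)
  (nat_lit 11) (node (nat_lit 4) (nat_lit 122013) (nat_lit 12) (node (nat_lit 6) (nat_lit 122013)
  (nat_lit 13) (node (nat_lit 4) (nat_lit 122013) (nat_lit 14) (node (nat_lit 5) (nat_lit 126356)
  (nat_lit 15) (node (nat_lit 6) (nat_lit 127313) (nat_lit 16) nil nil) nil) nil) (node (nat_lit
  5) (nat_lit 122013) (nat_lit 13) nil nil)) nil) nil)) (node (nat_lit 4) (nat_lit 121021)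
  (nat_lit 10) (node (nat_lit 6) (nat_lit 121058) (nat_lit 11) (node (nat_lit 4) (nat_lit 121007)
  (nat_lit 12) (node (nat_lit 5) (nat_lit 121007) (nat_lit 13) (node (nat_lit 6) (nat_lit 121007)
  (nat_lit 14) (node (nat_lit 5) (nat_lit 125360) (nat_lit 15) (node (nat_lit 4) (nat_lit 128346)
  (nat_lit 16) (node (nat_lit 6) (nat_lit 128498) (nat_lit 17) nil nil) nil) (node (nat_lit 4)
  (nat_lit 122669) (nat_lit 15) nil nil)) nil) nil) (node (nat_lit 5) (nat_lit 121114) (nat_lit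
  12) (node (nat_lit 6) (nat_lit 120705) (nat_lit 13) (node (nat_lit 4) (nat_lit 120705) (nat_lit
  14) (node (nat_lit 5) (nat_lit 122080) (nat_lit 15) nil (node (nat_lit 6) (nat_lit 119697)
  (nat_lit 15) nil nil)) nil) (node (nat_lit 4) (nat_lit 121114) (nat_lit 13) (node (nat_lit 5)
  (nat_lit 121114) (nat_lit 14) nil nil) nil)) nil)) nil) (node (nat_lit 10) (nat_lit 131636)
  (nat_lit 10) nil nil))) (node (nat_lit 10) (nat_lit 133268) (nat_lit 9) (node (nat_lit 6)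
  (nat_lit 133268) (nat_lit 10) (node (nat_lit 4) (nat_lit 133268) (nat_lit 11) (node (nat_lit 6)
  (nat_lit 133268) (nat_lit 12) (node (nat_lit 5) (nat_lit 133268) (nat_lit 13) (node (nat_lit 4)
  (nat_lit 133268) (nat_lit 14) (node (nat_lit 5) (nat_lit 133268) (nat_lit 15) (node (nat_lit 6)
  (nat_lit 133432) (nat_lit 16) (node (nat_lit 5) (nat_lit 134593) (nat_lit 17) (node (nat_lit 4)
  (nat_lit 134175) (nat_lit 18) (node (nat_lit 6) (nat_lit 134462) (nat_lit 19) nil nil) nil) nil)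
  nil) nil) nil) nil) (node (nat_lit 5) (nat_lit 133268) (nat_lit 12) nil nil)) nil) (node
  (nat_lit 5) (nat_lit 133268) (nat_lit 10) (node (nat_lit 4) (nat_lit 133268) (nat_lit 11) nil
  nil) nil)) (node (nat_lit 0) (nat_lit 126782) (nat_lit 9) nil nil)))) (node (nat_lit 5) (nat_lit
  0) (nat_lit 8) (node (nat_lit 4) (nat_lit 0) (nat_lit 9) (node (nat_lit 6) (nat_lit 121240)
  (nat_lit 10) (node (nat_lit 5) (nat_lit 121612) (nat_lit 11) (node (nat_lit 4) (nat_lit 121612)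
  (nat_lit 12) (node (nat_lit 5) (nat_lit 121612) (nat_lit 13) (node (nat_lit 6) (nat_lit 122013)
  (nat_lit 14) (node (nat_lit 5) (nat_lit 123919) (nat_lit 15) (node (nat_lit 4) (nat_lit 123200)
  (nat_lit 16) (node (nat_lit 6) (nat_lit 123663) (nat_lit 17) nil nil) nil) (node (nat_lit 4)
  (nat_lit 123675) (nat_lit 15) nil nil)) nil) nil) (node (nat_lit 6) (nat_lit 121612) (nat_lit
  12) (node (nat_lit 4) (nat_lit 121612) (nat_lit 13) (node (nat_lit 5) (nat_lit 121612) (nat_lit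
  14) (node (nat_lit 6) (nat_lit 122881) (nat_lit 15) (node (nat_lit 5) (nat_lit 122853) (nat_lit
  16) nil nil) nil) nil) nil) nil)) (node (nat_lit 4) (nat_lit 121221) (nat_lit 11) (node (nat_lit
  5) (nat_lit 121221) (nat_lit 12) (node (nat_lit 6) (nat_lit 121221) (nat_lit 13) (node (nat_lit
  5) (nat_lit 121678) (nat_lit 14) (node (nat_lit 4) (nat_lit 125962) (nat_lit 15) (node (nat_lit
  6) (nat_lit 127346) (nat_lit 16) (node (nat_lit 10) (nat_lit 68971) (nat_lit 17) nil nil) (node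
  (nat_lit 5) (nat_lit 126821) (nat_lit 16) nil nil)) nil) (node (nat_lit 4) (nat_lit 121221)
  (nat_lit 14) nil nil)) (node (nat_lit 4) (nat_lit 121221) (nat_lit 13) nil nil)) nil) nil))
  (node (nat_lit 5) (nat_lit 121776) (nat_lit 10) (node (nat_lit 6) (nat_lit 122013) (nat_lit 11)
  (node (nat_lit 4) (nat_lit 122013) (nat_lit 12) (node (nat_lit 6) (nat_lit 122013) (nat_lit 13)
  (node (nat_lit 5) (nat_lit 122013) (nat_lit 14) (node (nat_lit 4) (nat_lit 126098) (nat_lit 15)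
  nil nil) nil) (node (nat_lit 5) (nat_lit 122013) (nat_lit 13) (node (nat_lit 4) (nat_lit 122013)
  (nat_lit 14) nil nil) nil)) (node (nat_lit 5) (nat_lit 122013) (nat_lit 12) (node (nat_lit 4)
  (nat_lit 122013) (nat_lit 13) (node (nat_lit 6) (nat_lit 122013) (nat_lit 14) nil nil) nil)
  nil)) nil) (node (nat_lit 10) (nat_lit 130751) (nat_lit 10) nil (node (nat_lit 0) (nat_lit
  124768) (nat_lit 10) nil nil)))) (node (nat_lit 6) (nat_lit 0) (nat_lit 9) (node (nat_lit 5)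
  (nat_lit 121295) (nat_lit 10) (node (nat_lit 4) (nat_lit 121661) (nat_lit 11) (node (nat_lit 6)
  (nat_lit 122013) (nat_lit 12) (node (nat_lit 4) (nat_lit 122013) (nat_lit 13) (node (nat_lit 5)
  (nat_lit 122013) (nat_lit 14) (node (nat_lit 6) (nat_lit 123239) (nat_lit 15) (node (nat_lit 5)
  (nat_lit 125611) (nat_lit 16) (node (nat_lit 4) (nat_lit 127562) (nat_lit 17) nil nil) nil)
  (node (nat_lit 4) (nat_lit 124687) (nat_lit 15) nil nil)) nil) (node (nat_lit 5) (nat_lit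
  122013) (nat_lit 13) (node (nat_lit 6) (nat_lit 122052) (nat_lit 14) (node (nat_lit 4) (nat_lit
  125647) (nat_lit 15) nil nil) nil) nil)) (node (nat_lit 5) (nat_lit 121945) (nat_lit 12) (node
  (nat_lit 6) (nat_lit 121535) (nat_lit 13) (node (nat_lit 4) (nat_lit 121076) (nat_lit 14) nil
  (node (nat_lit 5) (nat_lit 121535) (nat_lit 14) nil nil)) nil) nil)) (node (nat_lit 10) (nat_lit
  128958) (nat_lit 11) nil (node (nat_lit 0) (nat_lit 126058) (nat_lit 11) nil nil))) (node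
  (nat_lit 4) (nat_lit 121017) (nat_lit 10) (node (nat_lit 5) (nat_lit 121017) (nat_lit 11) (node
  (nat_lit 4) (nat_lit 121017) (nat_lit 12) (node (nat_lit 6) (nat_lit 121017) (nat_lit 13) nil
  nil) (node (nat_lit 6) (nat_lit 121017) (nat_lit 12) (node (nat_lit 5) (nat_lit 121017) (nat_lit
  13) (node (nat_lit 4) (nat_lit 121017) (nat_lit 14) nil nil) nil) nil)) (node (nat_lit 6)
  (nat_lit 121017) (nat_lit 11) (node (nat_lit 5) (nat_lit 121017) (nat_lit 12) (node (nat_lit 6)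
  (nat_lit 121017) (nat_lit 13) (node (nat_lit 4) (nat_lit 120822) (nat_lit 14) (node (nat_lit 5)
  (nat_lit 122091) (nat_lit 15) nil nil) nil) (node (nat_lit 4) (nat_lit 121017) (nat_lit 13) nil
  nil)) nil) nil)) (node (nat_lit 10) (nat_lit 131467) (nat_lit 10) (node (nat_lit 6) (nat_lit
  131467) (nat_lit 11) nil nil) (node (nat_lit 0) (nat_lit 124718) (nat_lit 10) nil nil)))) (node
  (nat_lit 10) (nat_lit 133936) (nat_lit 9) (node (nat_lit 6) (nat_lit 133936) (nat_lit 10) (node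
  (nat_lit 5) (nat_lit 133936) (nat_lit 11) (node (nat_lit 6) (nat_lit 133936) (nat_lit 12) (node
  (nat_lit 4) (nat_lit 133936) (nat_lit 13) (node (nat_lit 5) (nat_lit 133936) (nat_lit 14) (node
  (nat_lit 6) (nat_lit 133936) (nat_lit 15) (node (nat_lit 5) (nat_lit 134050) (nat_lit 16) (node
  (nat_lit 4) (nat_lit 135602) (nat_lit 17) (node (nat_lit 6) (nat_lit 136888) (nat_lit 18) nil
  nil) nil) nil) nil) nil) nil) (node (nat_lit 4) (nat_lit 133936) (nat_lit 12) (node (nat_lit 6)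
  (nat_lit 133936) (nat_lit 13) (node (nat_lit 4) (nat_lit 133936) (nat_lit 14) (node (nat_lit 5)
  (nat_lit 133936) (nat_lit 15) (node (nat_lit 6) (nat_lit 133936) (nat_lit 16) (node (nat_lit 5)
  (nat_lit 136580) (nat_lit 17) (node (nat_lit 4) (nat_lit 138647) (nat_lit 18) nil nil) nil) nil)
  nil) nil) nil) nil)) nil) (node (nat_lit 4) (nat_lit 133936) (nat_lit 10) (node (nat_lit 5)
  (nat_lit 133936) (nat_lit 11) nil nil) nil)) (node (nat_lit 0) (nat_lit 126538) (nat_lit 9) nil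
  nil)))) (node (nat_lit 6) (nat_lit 0) (nat_lit 8) (node (nat_lit 4) (nat_lit 121017) (nat_lit 9)
  (node (nat_lit 5) (nat_lit 121813) (nat_lit 10) (node (nat_lit 4) (nat_lit 121813) (nat_lit 11)
  (node (nat_lit 6) (nat_lit 121813) (nat_lit 12) (node (nat_lit 4) (nat_lit 121813) (nat_lit 13)
  (node (nat_lit 5) (nat_lit 121813) (nat_lit 14) (node (nat_lit 6) (nat_lit 123636) (nat_lit 15)
  (node (nat_lit 5) (nat_lit 126015) (nat_lit 16) (node (nat_lit 4) (nat_lit 127791) (nat_lit 17)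
  (node (nat_lit 6) (nat_lit 128967) (nat_lit 18) nil nil) nil) nil) nil) nil) (node (nat_lit 5)
  (nat_lit 121813) (nat_lit 13) (node (nat_lit 6) (nat_lit 121813) (nat_lit 14) (node (nat_lit 4)
  (nat_lit 124893) (nat_lit 15) (node (nat_lit 5) (nat_lit 125884) (nat_lit 16) (node (nat_lit 6)
  (nat_lit 126020) (nat_lit 17) (node (nat_lit 5) (nat_lit 126003) (nat_lit 18) nil nil) nil) nil)
  nil) nil) nil)) nil) (node (nat_lit 6) (nat_lit 122013) (nat_lit 11) (node (nat_lit 5) (nat_lit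
  122013) (nat_lit 12) (node (nat_lit 4) (nat_lit 122013) (nat_lit 13) (node (nat_lit 6) (nat_lit
  122013) (nat_lit 14) (node (nat_lit 10) (nat_lit 46600) (nat_lit 15) nil nil) nil) nil) (node
  (nat_lit 4) (nat_lit 122013) (nat_lit 12) nil nil)) nil)) (node (nat_lit 6) (nat_lit 121809)
  (nat_lit 10) (node (nat_lit 5) (nat_lit 121809) (nat_lit 11) (node (nat_lit 4) (nat_lit 121809)
  (nat_lit 12) (node (nat_lit 5) (nat_lit 121809) (nat_lit 13) (node (nat_lit 6) (nat_lit 122013)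
  (nat_lit 14) (node (nat_lit 5) (nat_lit 124117) (nat_lit 15) (node (nat_lit 4) (nat_lit 123397)
  (nat_lit 16) nil nil) nil) nil) (node (nat_lit 6) (nat_lit 121809) (nat_lit 13) (node (nat_lit
  4) (nat_lit 121809) (nat_lit 14) (node (nat_lit 5) (nat_lit 126200) (nat_lit 15) (node (nat_lit
  6) (nat_lit 127506) (nat_lit 16) nil nil) nil) nil) nil)) (node (nat_lit 6) (nat_lit 121809)
  (nat_lit 12) (node (nat_lit 4) (nat_lit 121809) (nat_lit 13) (node (nat_lit 5) (nat_lit 121809)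
  (nat_lit 14) (node (nat_lit 6) (nat_lit 122674) (nat_lit 15) (node (nat_lit 5) (nat_lit 122647)
  (nat_lit 16) (node (nat_lit 4) (nat_lit 123012) (nat_lit 17) nil nil) nil) nil) nil) nil) nil))
  (node (nat_lit 10) (nat_lit 129472) (nat_lit 11) nil nil)) (node (nat_lit 10) (nat_lit 128218)
  (nat_lit 10) nil nil))) (node (nat_lit 5) (nat_lit 120775) (nat_lit 9) (node (nat_lit 4)
  (nat_lit 121974) (nat_lit 10) (node (nat_lit 6) (nat_lit 121489) (nat_lit 11) (node (nat_lit 4)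
  (nat_lit 121489) (nat_lit 12) (node (nat_lit 5) (nat_lit 121489) (nat_lit 13) (node (nat_lit 6)
  (nat_lit 121489) (nat_lit 14) (node (nat_lit 5) (nat_lit 125832) (nat_lit 15) (node (nat_lit 4)
  (nat_lit 128091) (nat_lit 16) (node (nat_lit 6) (nat_lit 128243) (nat_lit 17) nil nil) nil) nil)
  nil) nil) (node (nat_lit 5) (nat_lit 121489) (nat_lit 12) nil nil)) (node (nat_lit 5) (nat_lit
  122013) (nat_lit 11) (node (nat_lit 6) (nat_lit 122013) (nat_lit 12) (node (nat_lit 5) (nat_lit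
  122013) (nat_lit 13) (node (nat_lit 4) (nat_lit 122013) (nat_lit 14) (node (nat_lit 6) (nat_lit
  124205) (nat_lit 15) (node (nat_lit 10) (nat_lit 78146) (nat_lit 16) nil nil) nil) nil) (node
  (nat_lit 4) (nat_lit 122013) (nat_lit 13) nil nil)) nil) nil)) (node (nat_lit 6) (nat_lit
  121777) (nat_lit 10) (node (nat_lit 4) (nat_lit 122013) (nat_lit 11) (node (nat_lit 5) (nat_lit
  122013) (nat_lit 12) (node (nat_lit 6) (nat_lit 122013) (nat_lit 13) (node (nat_lit 5) (nat_lit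
  122013) (nat_lit 14) (node (nat_lit 4) (nat_lit 125272) (nat_lit 15) nil nil) nil) (node
  (nat_lit 4) (nat_lit 122013) (nat_lit 13) nil nil)) (node (nat_lit 6) (nat_lit 122013) (nat_lit
  12) (node (nat_lit 5) (nat_lit 122013) (nat_lit 13) nil nil) nil)) (node (nat_lit 10) (nat_lit
  126539) (nat_lit 11) nil nil)) (node (nat_lit 10) (nat_lit 124746) (nat_lit 10) nil nil))) (node
  (nat_lit 0) (nat_lit 127556) (nat_lit 9) nil nil))) (node (nat_lit 0) (nat_lit 0) (nat_lit 8)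
  (node (nat_lit 10) (nat_lit 131785) (nat_lit 9) nil (node (nat_lit 6) (nat_lit 128748) (nat_lit
  9) (node (nat_lit 11) (nat_lit 131058) (nat_lit 10) nil nil) (node (nat_lit 4) (nat_lit 128748)
  (nat_lit 9) nil (node (nat_lit 5) (nat_lit 128748) (nat_lit 9) nil (node (nat_lit 0) (nat_lit
  130046) (nat_lit 9) nil nil))))) nil)))) (node (nat_lit 5) (nat_lit 0) (nat_lit 7) (node
  (nat_lit 0) (nat_lit 0) (nat_lit 8) (node (nat_lit 5) (nat_lit 0) (nat_lit 9) (node (nat_lit 4)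
  (nat_lit 116820) (nat_lit 10) (node (nat_lit 6) (nat_lit 117351) (nat_lit 11) (node (nat_lit 5)
  (nat_lit 117599) (nat_lit 12) (node (nat_lit 4) (nat_lit 117599) (nat_lit 13) (node (nat_lit 5)
  (nat_lit 117599) (nat_lit 14) (node (nat_lit 6) (nat_lit 117599) (nat_lit 15) (node (nat_lit 5)
  (nat_lit 121027) (nat_lit 16) (node (nat_lit 4) (nat_lit 120847) (nat_lit 17) (node (nat_lit 6)
  (nat_lit 121322) (nat_lit 18) nil nil) nil) nil) nil) nil) (node (nat_lit 6) (nat_lit 117903)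
  (nat_lit 13) (node (nat_lit 4) (nat_lit 117903) (nat_lit 14) (node (nat_lit 5) (nat_lit 118124)
  (nat_lit 15) (node (nat_lit 6) (nat_lit 119046) (nat_lit 16) nil nil) (node (nat_lit 6) (nat_lit
  117903) (nat_lit 15) nil nil)) nil) nil)) (node (nat_lit 4) (nat_lit 117484) (nat_lit 12) (node
  (nat_lit 5) (nat_lit 117517) (nat_lit 13) (node (nat_lit 6) (nat_lit 117517) (nat_lit 14) (node
  (nat_lit 5) (nat_lit 117517) (nat_lit 15) (node (nat_lit 4) (nat_lit 121460) (nat_lit 16) (node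
  (nat_lit 6) (nat_lit 122955) (nat_lit 17) (node (nat_lit 5) (nat_lit 125231) (nat_lit 18) (node
  (nat_lit 11) (nat_lit 68458) (nat_lit 19) nil nil) nil) nil) nil) (node (nat_lit 4) (nat_lit
  117517) (nat_lit 15) nil nil)) (node (nat_lit 4) (nat_lit 117517) (nat_lit 14) (node (nat_lit 6)
  (nat_lit 117517) (nat_lit 15) nil nil) nil)) (node (nat_lit 11) (nat_lit 121682) (nat_lit 13)
  nil nil)) (node (nat_lit 11) (nat_lit 125468) (nat_lit 12) nil (node (nat_lit 0) (nat_lit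
  125468) (nat_lit 12) nil nil)))) (node (nat_lit 5) (nat_lit 116927) (nat_lit 11) (node (nat_lit
  6) (nat_lit 116927) (nat_lit 12) (node (nat_lit 4) (nat_lit 116927) (nat_lit 13) (node (nat_lit
  6) (nat_lit 116927) (nat_lit 14) nil (node (nat_lit 5) (nat_lit 116927) (nat_lit 14) nil nil))
  (node (nat_lit 5) (nat_lit 116927) (nat_lit 13) (node (nat_lit 4) (nat_lit 116927) (nat_lit 14)
  nil nil) nil)) (node (nat_lit 11) (nat_lit 127560) (nat_lit 12) nil (node (nat_lit 0) (nat_lit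
  125044) (nat_lit 12) nil nil))) (node (nat_lit 11) (nat_lit 126566) (nat_lit 11) nil (node
  (nat_lit 0) (nat_lit 127526) (nat_lit 11) nil nil)))) (node (nat_lit 6) (nat_lit 116735)
  (nat_lit 10) (node (nat_lit 4) (nat_lit 117297) (nat_lit 11) (node (nat_lit 5) (nat_lit 117510)
  (nat_lit 12) (node (nat_lit 4) (nat_lit 117510) (nat_lit 13) (node (nat_lit 6) (nat_lit 117510)
  (nat_lit 14) (node (nat_lit 5) (nat_lit 117510) (nat_lit 15) nil (node (nat_lit 4) (nat_lit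
  117510) (nat_lit 15) nil nil)) nil) (node (nat_lit 6) (nat_lit 117510) (nat_lit 13) (node
  (nat_lit 5) (nat_lit 117510) (nat_lit 14) (node (nat_lit 4) (nat_lit 117510) (nat_lit 15) nil
  nil) nil) nil)) (node (nat_lit 6) (nat_lit 117297) (nat_lit 12) (node (nat_lit 5) (nat_lit
  117297) (nat_lit 13) (node (nat_lit 4) (nat_lit 117297) (nat_lit 14) (node (nat_lit 5) (nat_lit
  117297) (nat_lit 15) nil (node (nat_lit 6) (nat_lit 117297) (nat_lit 15) nil nil)) (node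
  (nat_lit 6) (nat_lit 117297) (nat_lit 14) nil nil)) nil) (node (nat_lit 11) (nat_lit 125414)
  (nat_lit 12) nil (node (nat_lit 0) (nat_lit 125414) (nat_lit 12) nil nil)))) (node (nat_lit 5)
  (nat_lit 116839) (nat_lit 11) (node (nat_lit 4) (nat_lit 116839) (nat_lit 12) (node (nat_lit 6)
  (nat_lit 116839) (nat_lit 13) nil (node (nat_lit 5) (nat_lit 116839) (nat_lit 13) nil nil))
  (node (nat_lit 11) (nat_lit 129173) (nat_lit 12) nil nil)) (node (nat_lit 11) (nat_lit 130582)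
  (nat_lit 11) (node (nat_lit 5) (nat_lit 130582) (nat_lit 12) nil nil) (node (nat_lit 0) (nat_lit
  125137) (nat_lit 11) nil nil)))) (node (nat_lit 0) (nat_lit 127812) (nat_lit 10) (node (nat_lit
  11) (nat_lit 129538) (nat_lit 11) nil (node (nat_lit 5) (nat_lit 127812) (nat_lit 11) nil (node
  (nat_lit 4) (nat_lit 127812) (nat_lit 11) nil nil))) nil))) (node (nat_lit 6) (nat_lit 0)
  (nat_lit 9) (node (nat_lit 5) (nat_lit 116958) (nat_lit 10) (node (nat_lit 6) (nat_lit 117250)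
  (nat_lit 11) (node (nat_lit 11) (nat_lit 126001) (nat_lit 12) (node (nat_lit 5) (nat_lit 126001)
  (nat_lit 13) (node (nat_lit 11) (nat_lit 128018) (nat_lit 14) (node (nat_lit 6) (nat_lit 128018)
  (nat_lit 15) (node (nat_lit 5) (nat_lit 128018) (nat_lit 16) (node (nat_lit 6) (nat_lit 128018)
  (nat_lit 17) (node (nat_lit 4) (nat_lit 128018) (nat_lit 18) (node (nat_lit 5) (nat_lit 128018)
  (nat_lit 19) (node (nat_lit 6) (nat_lit 128018) (nat_lit 20) (node (nat_lit 5) (nat_lit 128068)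
  (nat_lit 21) (node (nat_lit 4) (nat_lit 128672) (nat_lit 22) nil nil) nil) nil) nil) nil) nil)
  nil) nil) nil) nil) nil) nil) (node (nat_lit 11) (nat_lit 127938) (nat_lit 10) (node (nat_lit 5)
  (nat_lit 127938) (nat_lit 11) (node (nat_lit 11) (nat_lit 131011) (nat_lit 12) (node (nat_lit 6)
  (nat_lit 131011) (nat_lit 13) nil nil) nil) nil) (node (nat_lit 4) (nat_lit 116283) (nat_lit 10)
  nil (node (nat_lit 0) (nat_lit 118593) (nat_lit 10) nil nil)))) (node (nat_lit 4) (nat_lit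
  116173) (nat_lit 9) (node (nat_lit 11) (nat_lit 125737) (nat_lit 10) nil (node (nat_lit 5)
  (nat_lit 116358) (nat_lit 10) (node (nat_lit 4) (nat_lit 116358) (nat_lit 11) nil nil) nil))
  (node (nat_lit 0) (nat_lit 123593) (nat_lit 9) (node (nat_lit 5) (nat_lit 123593) (nat_lit 10)
  (node (nat_lit 11) (nat_lit 125396) (nat_lit 11) nil nil) (node (nat_lit 11) (nat_lit 126177)
  (nat_lit 10) nil nil)) nil)))) (node (nat_lit 6) (nat_lit 0) (nat_lit 8) (node (nat_lit 0)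
  (nat_lit 116976) (nat_lit 9) (node (nat_lit 5) (nat_lit 116987) (nat_lit 10) (node (nat_lit 6)
  (nat_lit 117136) (nat_lit 11) (node (nat_lit 5) (nat_lit 117204) (nat_lit 12) (node (nat_lit 4)
  (nat_lit 117208) (nat_lit 13) (node (nat_lit 6) (nat_lit 117208) (nat_lit 14) (node (nat_lit 4)
  (nat_lit 117208) (nat_lit 15) (node (nat_lit 5) (nat_lit 117208) (nat_lit 16) (node (nat_lit 6)
  (nat_lit 117503) (nat_lit 17) nil nil) nil) (node (nat_lit 5) (nat_lit 117208) (nat_lit 15)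
  (node (nat_lit 6) (nat_lit 117208) (nat_lit 16) nil nil) nil)) (node (nat_lit 5) (nat_lit
  117208) (nat_lit 14) (node (nat_lit 6) (nat_lit 117208) (nat_lit 15) (node (nat_lit 4) (nat_lit
  117208) (nat_lit 16) nil nil) nil) (node (nat_lit 12) (nat_lit 123575) (nat_lit 14) nil (node
  (nat_lit 0) (nat_lit 123575) (nat_lit 14) nil nil)))) (node (nat_lit 12) (nat_lit 129454)
  (nat_lit 13) nil (node (nat_lit 0) (nat_lit 128247) (nat_lit 13) nil nil))) (node (nat_lit 4)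
  (nat_lit 117307) (nat_lit 12) (node (nat_lit 5) (nat_lit 117308) (nat_lit 13) (node (nat_lit 4)
  (nat_lit 117308) (nat_lit 14) (node (nat_lit 6) (nat_lit 117308) (nat_lit 15) (node (nat_lit 4)
  (nat_lit 117308) (nat_lit 16) (node (nat_lit 5) (nat_lit 121050) (nat_lit 17) (node (nat_lit 6)
  (nat_lit 122896) (nat_lit 18) nil nil) nil) nil) nil) (node (nat_lit 6) (nat_lit 117308)
  (nat_lit 14) (node (nat_lit 5) (nat_lit 117308) (nat_lit 15) nil nil) (node (nat_lit 12)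
  (nat_lit 123676) (nat_lit 14) nil nil))) (node (nat_lit 6) (nat_lit 117307) (nat_lit 13) (node
  (nat_lit 5) (nat_lit 117307) (nat_lit 14) (node (nat_lit 4) (nat_lit 117307) (nat_lit 15) nil
  (node (nat_lit 6) (nat_lit 117307) (nat_lit 15) nil nil)) (node (nat_lit 12) (nat_lit 123674)
  (nat_lit 14) nil nil)) (node (nat_lit 12) (nat_lit 126379) (nat_lit 13) nil (node (nat_lit 0)
  (nat_lit 122944) (nat_lit 13) nil nil)))) (node (nat_lit 0) (nat_lit 126356) (nat_lit 12) nil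
  nil))) (node (nat_lit 12) (nat_lit 123848) (nat_lit 11) (node (nat_lit 6) (nat_lit 123848)
  (nat_lit 12) nil nil) nil)) (node (nat_lit 6) (nat_lit 116988) (nat_lit 10) (node (nat_lit 5)
  (nat_lit 117159) (nat_lit 11) (node (nat_lit 12) (nat_lit 127208) (nat_lit 12) (node (nat_lit 5)
  (nat_lit 127208) (nat_lit 13) nil nil) nil) nil) (node (nat_lit 4) (nat_lit 116976) (nat_lit 10)
  nil nil))) nil) nil)) (node (nat_lit 4) (nat_lit 0) (nat_lit 7) (node (nat_lit 0) (nat_lit 0)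
  (nat_lit 8) (node (nat_lit 4) (nat_lit 0) (nat_lit 9) (node (nat_lit 5) (nat_lit 123489)
  (nat_lit 10) (node (nat_lit 6) (nat_lit 123489) (nat_lit 11) (node (nat_lit 5) (nat_lit 123489)
  (nat_lit 12) (node (nat_lit 4) (nat_lit 123489) (nat_lit 13) (node (nat_lit 6) (nat_lit 123489)
  (nat_lit 14) (node (nat_lit 4) (nat_lit 123489) (nat_lit 15) (node (nat_lit 5) (nat_lit 127625)
  (nat_lit 16) (node (nat_lit 6) (nat_lit 128953) (nat_lit 17) nil nil) nil) nil) (node (nat_lit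
  5) (nat_lit 123489) (nat_lit 14) nil nil)) (node (nat_lit 11) (nat_lit 127687) (nat_lit 13) nil
  nil)) (node (nat_lit 4) (nat_lit 123489) (nat_lit 12) (node (nat_lit 6) (nat_lit 123489)
  (nat_lit 13) (node (nat_lit 5) (nat_lit 123489) (nat_lit 14) (node (nat_lit 4) (nat_lit 123489)
  (nat_lit 15) nil (node (nat_lit 6) (nat_lit 123489) (nat_lit 15) nil nil)) nil) (node (nat_lit
  5) (nat_lit 123489) (nat_lit 13) (node (nat_lit 4) (nat_lit 123489) (nat_lit 14) (node (nat_lit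
  6) (nat_lit 123489) (nat_lit 15) nil nil) nil) nil)) (node (nat_lit 11) (nat_lit 127206)
  (nat_lit 12) nil (node (nat_lit 0) (nat_lit 127206) (nat_lit 12) nil nil)))) (node (nat_lit 4)
  (nat_lit 123489) (nat_lit 11) (node (nat_lit 6) (nat_lit 123489) (nat_lit 12) (node (nat_lit 4)
  (nat_lit 123489) (nat_lit 13) (node (nat_lit 5) (nat_lit 123489) (nat_lit 14) (node (nat_lit 6)
  (nat_lit 123489) (nat_lit 15) (node (nat_lit 5) (nat_lit 127632) (nat_lit 16) (node (nat_lit 4)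
  (nat_lit 130597) (nat_lit 17) (node (nat_lit 6) (nat_lit 132154) (nat_lit 18) nil nil) nil) nil)
  nil) nil) (node (nat_lit 5) (nat_lit 123489) (nat_lit 13) (node (nat_lit 6) (nat_lit 123489)
  (nat_lit 14) nil (node (nat_lit 4) (nat_lit 123489) (nat_lit 14) nil nil)) nil)) (node (nat_lit
  11) (nat_lit 131606) (nat_lit 12) nil (node (nat_lit 0) (nat_lit 127206) (nat_lit 12) nil nil)))
  (node (nat_lit 11) (nat_lit 132377) (nat_lit 11) nil (node (nat_lit 0) (nat_lit 130259) (nat_lit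
  11) nil nil)))) (node (nat_lit 6) (nat_lit 123489) (nat_lit 10) (node (nat_lit 5) (nat_lit
  123489) (nat_lit 11) (node (nat_lit 4) (nat_lit 123489) (nat_lit 12) (node (nat_lit 5) (nat_lit
  123489) (nat_lit 13) (node (nat_lit 6) (nat_lit 123489) (nat_lit 14) (node (nat_lit 5) (nat_lit
  123489) (nat_lit 15) (node (nat_lit 4) (nat_lit 124580) (nat_lit 16) (node (nat_lit 6) (nat_lit
  125600) (nat_lit 17) nil nil) nil) (node (nat_lit 4) (nat_lit 123489) (nat_lit 15) nil nil))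
  nil) (node (nat_lit 6) (nat_lit 123489) (nat_lit 13) (node (nat_lit 4) (nat_lit 123489) (nat_lit
  14) (node (nat_lit 5) (nat_lit 123489) (nat_lit 15) (node (nat_lit 6) (nat_lit 125540) (nat_lit
  16) nil nil) nil) nil) nil)) (node (nat_lit 6) (nat_lit 123489) (nat_lit 12) (node (nat_lit 4)
  (nat_lit 123489) (nat_lit 13) (node (nat_lit 5) (nat_lit 123489) (nat_lit 14) (node (nat_lit 6)
  (nat_lit 123489) (nat_lit 15) (node (nat_lit 5) (nat_lit 126108) (nat_lit 16) (node (nat_lit 4)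
  (nat_lit 128301) (nat_lit 17) nil nil) nil) (node (nat_lit 4) (nat_lit 123489) (nat_lit 15) nil
  nil)) (node (nat_lit 6) (nat_lit 123489) (nat_lit 14) nil nil)) nil) (node (nat_lit 0) (nat_lit
  127206) (nat_lit 12) nil (node (nat_lit 11) (nat_lit 127206) (nat_lit 12) nil nil)))) (node
  (nat_lit 4) (nat_lit 123489) (nat_lit 11) (node (nat_lit 5) (nat_lit 123489) (nat_lit 12) (node
  (nat_lit 6) (nat_lit 123489) (nat_lit 13) nil (node (nat_lit 4) (nat_lit 123489) (nat_lit 13)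
  nil nil)) nil) (node (nat_lit 11) (nat_lit 132377) (nat_lit 11) nil (node (nat_lit 0) (nat_lit
  130259) (nat_lit 11) nil nil)))) (node (nat_lit 0) (nat_lit 132821) (nat_lit 10) nil nil)))
  (node (nat_lit 6) (nat_lit 0) (nat_lit 9) (node (nat_lit 4) (nat_lit 123489) (nat_lit 10) (node
  (nat_lit 6) (nat_lit 123489) (nat_lit 11) (node (nat_lit 11) (nat_lit 131606) (nat_lit 12) nil
  nil) nil) (node (nat_lit 11) (nat_lit 131812) (nat_lit 10) (node (nat_lit 4) (nat_lit 131812)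
  (nat_lit 11) nil nil) (node (nat_lit 5) (nat_lit 123489) (nat_lit 10) nil (node (nat_lit 0)
  (nat_lit 125798) (nat_lit 10) nil nil)))) (node (nat_lit 5) (nat_lit 123489) (nat_lit 9) (node
  (nat_lit 4) (nat_lit 123489) (nat_lit 10) (node (nat_lit 5) (nat_lit 123489) (nat_lit 11) nil
  nil) (node (nat_lit 11) (nat_lit 131018) (nat_lit 10) nil (node (nat_lit 6) (nat_lit 123489)
  (nat_lit 10) nil nil))) (node (nat_lit 0) (nat_lit 130022) (nat_lit 9) (node (nat_lit 4)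
  (nat_lit 130022) (nat_lit 10) nil (node (nat_lit 11) (nat_lit 131034) (nat_lit 10) nil nil))
  nil)))) (node (nat_lit 5) (nat_lit 0) (nat_lit 8) (node (nat_lit 0) (nat_lit 107976) (nat_lit 9)
  (node (nat_lit 4) (nat_lit 107976) (nat_lit 10) (node (nat_lit 5) (nat_lit 107976) (nat_lit 11)
  (node (nat_lit 6) (nat_lit 107976) (nat_lit 12) (node (nat_lit 4) (nat_lit 107976) (nat_lit 13)
  (node (nat_lit 6) (nat_lit 107976) (nat_lit 14) nil nil) (node (nat_lit 5) (nat_lit 107976)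
  (nat_lit 13) (node (nat_lit 4) (nat_lit 107976) (nat_lit 14) nil nil) (node (nat_lit 12)
  (nat_lit 117047) (nat_lit 13) nil nil))) (node (nat_lit 4) (nat_lit 107976) (nat_lit 12) (node
  (nat_lit 6) (nat_lit 107976) (nat_lit 13) (node (nat_lit 5) (nat_lit 107976) (nat_lit 14) (node
  (nat_lit 6) (nat_lit 107976) (nat_lit 15) nil nil) (node (nat_lit 4) (nat_lit 107976) (nat_lit
  14) nil nil)) (node (nat_lit 12) (nat_lit 119601) (nat_lit 13) nil (node (nat_lit 0) (nat_lit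
  117047) (nat_lit 13) nil nil))) (node (nat_lit 0) (nat_lit 117195) (nat_lit 12) nil nil))) nil)
  (node (nat_lit 5) (nat_lit 107976) (nat_lit 10) (node (nat_lit 4) (nat_lit 107976) (nat_lit 11)
  nil nil) nil)) nil) nil)) nil)))

noncomputable def t211 : Tr :=
  (node (nat_lit 5) (nat_lit 0) (nat_lit 6) (node (nat_lit 0) (nat_lit 0) (nat_lit 7) (node
  (nat_lit 4) (nat_lit 84255) (nat_lit 8) (node (nat_lit 5) (nat_lit 84255) (nat_lit 9) (node
  (nat_lit 4) (nat_lit 84255) (nat_lit 10) (node (nat_lit 6) (nat_lit 84255) (nat_lit 11) (node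
  (nat_lit 5) (nat_lit 84255) (nat_lit 12) (node (nat_lit 6) (nat_lit 84255) (nat_lit 13) (node
  (nat_lit 4) (nat_lit 84255) (nat_lit 14) (node (nat_lit 5) (nat_lit 85795) (nat_lit 15) nil
  (node (nat_lit 6) (nat_lit 85155) (nat_lit 15) nil nil)) nil) (node (nat_lit 4) (nat_lit 84255)
  (nat_lit 13) (node (nat_lit 5) (nat_lit 84255) (nat_lit 14) (node (nat_lit 6) (nat_lit 85155)
  (nat_lit 15) (node (nat_lit 5) (nat_lit 85857) (nat_lit 16) nil nil) nil) nil) nil)) (node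
  (nat_lit 4) (nat_lit 84255) (nat_lit 12) (node (nat_lit 5) (nat_lit 84255) (nat_lit 13) (node
  (nat_lit 6) (nat_lit 84255) (nat_lit 14) (node (nat_lit 5) (nat_lit 87845) (nat_lit 15) (node
  (nat_lit 4) (nat_lit 89770) (nat_lit 16) nil nil) nil) nil) nil) nil)) (node (nat_lit 10)
  (nat_lit 86832) (nat_lit 11) nil nil)) (node (nat_lit 6) (nat_lit 84255) (nat_lit 10) (node
  (nat_lit 4) (nat_lit 84255) (nat_lit 11) (node (nat_lit 5) (nat_lit 84255) (nat_lit 12) (node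
  (nat_lit 4) (nat_lit 84255) (nat_lit 13) (node (nat_lit 6) (nat_lit 84255) (nat_lit 14) (node
  (nat_lit 4) (nat_lit 88205) (nat_lit 15) (node (nat_lit 5) (nat_lit 89770) (nat_lit 16) (node
  (nat_lit 6) (nat_lit 89770) (nat_lit 17) (node (nat_lit 5) (nat_lit 89770) (nat_lit 18) (node
  (nat_lit 4) (nat_lit 89770) (nat_lit 19) nil nil) nil) nil) nil) nil) nil) nil) nil) nil) nil))
  (node (nat_lit 6) (nat_lit 84255) (nat_lit 9) (node (nat_lit 5) (nat_lit 84255) (nat_lit 10)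
  (node (nat_lit 4) (nat_lit 84255) (nat_lit 11) (node (nat_lit 6) (nat_lit 84255) (nat_lit 12)
  (node (nat_lit 4) (nat_lit 84255) (nat_lit 13) (node (nat_lit 5) (nat_lit 84255) (nat_lit 14)
  (node (nat_lit 6) (nat_lit 88081) (nat_lit 15) (node (nat_lit 5) (nat_lit 89770) (nat_lit 16)
  (node (nat_lit 4) (nat_lit 89770) (nat_lit 17) nil nil) nil) nil) nil) nil) (node (nat_lit 5)
  (nat_lit 84255) (nat_lit 12) (node (nat_lit 6) (nat_lit 84255) (nat_lit 13) (node (nat_lit 5)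
  (nat_lit 84255) (nat_lit 14) (node (nat_lit 4) (nat_lit 82360) (nat_lit 15) nil nil) nil) nil)
  nil)) (node (nat_lit 6) (nat_lit 84255) (nat_lit 11) (node (nat_lit 4) (nat_lit 84255) (nat_lit
  12) (node (nat_lit 5) (nat_lit 84255) (nat_lit 13) (node (nat_lit 6) (nat_lit 84255) (nat_lit
  14) (node (nat_lit 5) (nat_lit 85938) (nat_lit 15) (node (nat_lit 4) (nat_lit 87119) (nat_lit
  16) nil nil) nil) nil) nil) nil) nil)) (node (nat_lit 4) (nat_lit 84255) (nat_lit 10) (node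
  (nat_lit 5) (nat_lit 84255) (nat_lit 11) (node (nat_lit 6) (nat_lit 84255) (nat_lit 12) (node
  (nat_lit 5) (nat_lit 84255) (nat_lit 13) (node (nat_lit 4) (nat_lit 84255) (nat_lit 14) (node
  (nat_lit 5) (nat_lit 85155) (nat_lit 15) (node (nat_lit 10) (nat_lit 29103) (nat_lit 16) nil
  nil) nil) nil) nil) (node (nat_lit 4) (nat_lit 84255) (nat_lit 12) nil nil)) nil) nil)) (node
  (nat_lit 10) (nat_lit 89770) (nat_lit 9) (node (nat_lit 5) (nat_lit 89770) (nat_lit 10) nil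
  (node (nat_lit 6) (nat_lit 89770) (nat_lit 10) nil nil)) nil))) (node (nat_lit 6) (nat_lit
  84255) (nat_lit 8) (node (nat_lit 5) (nat_lit 84255) (nat_lit 9) (node (nat_lit 6) (nat_lit
  84255) (nat_lit 10) (node (nat_lit 4) (nat_lit 84255) (nat_lit 11) (node (nat_lit 5) (nat_lit
  84255) (nat_lit 12) (node (nat_lit 4) (nat_lit 84255) (nat_lit 13) (node (nat_lit 6) (nat_lit
  84255) (nat_lit 14) (node (nat_lit 4) (nat_lit 88219) (nat_lit 15) (node (nat_lit 5) (nat_lit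
  89770) (nat_lit 16) (node (nat_lit 6) (nat_lit 89770) (nat_lit 17) (node (nat_lit 5) (nat_lit
  89770) (nat_lit 18) (node (nat_lit 4) (nat_lit 89770) (nat_lit 19) (node (nat_lit 5) (nat_lit
  89770) (nat_lit 20) nil nil) nil) nil) nil) nil) (node (nat_lit 5) (nat_lit 86167) (nat_lit 15)
  nil nil)) nil) (node (nat_lit 6) (nat_lit 84255) (nat_lit 13) (node (nat_lit 5) (nat_lit 84255)
  (nat_lit 14) (node (nat_lit 4) (nat_lit 82360) (nat_lit 15) nil nil) nil) nil)) (node (nat_lit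
  6) (nat_lit 84255) (nat_lit 12) (node (nat_lit 5) (nat_lit 84255) (nat_lit 13) nil nil) nil))
  (node (nat_lit 10) (nat_lit 86832) (nat_lit 11) nil nil)) (node (nat_lit 4) (nat_lit 84255)
  (nat_lit 10) (node (nat_lit 6) (nat_lit 84255) (nat_lit 11) (node (nat_lit 4) (nat_lit 84255)
  (nat_lit 12) (node (nat_lit 5) (nat_lit 84255) (nat_lit 13) (node (nat_lit 6) (nat_lit 84255)
  (nat_lit 14) (node (nat_lit 5) (nat_lit 88033) (nat_lit 15) (node (nat_lit 4) (nat_lit 89770)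
  (nat_lit 16) nil nil) nil) nil) nil) (node (nat_lit 5) (nat_lit 84255) (nat_lit 12) (node
  (nat_lit 6) (nat_lit 84255) (nat_lit 13) (node (nat_lit 4) (nat_lit 84217) (nat_lit 14) (node
  (nat_lit 5) (nat_lit 85795) (nat_lit 15) nil nil) nil) nil) nil)) (node (nat_lit 5) (nat_lit
  84255) (nat_lit 11) nil nil)) (node (nat_lit 10) (nat_lit 88824) (nat_lit 10) nil nil))) (node
  (nat_lit 4) (nat_lit 84255) (nat_lit 9) (node (nat_lit 5) (nat_lit 84255) (nat_lit 10) (node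
  (nat_lit 6) (nat_lit 84255) (nat_lit 11) (node (nat_lit 5) (nat_lit 84255) (nat_lit 12) (node
  (nat_lit 4) (nat_lit 84255) (nat_lit 13) (node (nat_lit 5) (nat_lit 84255) (nat_lit 14) nil nil)
  nil) nil) (node (nat_lit 4) (nat_lit 84255) (nat_lit 11) (node (nat_lit 6) (nat_lit 84255)
  (nat_lit 12) (node (nat_lit 4) (nat_lit 84255) (nat_lit 13) (node (nat_lit 5) (nat_lit 84255)
  (nat_lit 14) (node (nat_lit 6) (nat_lit 87996) (nat_lit 15) nil nil) nil) nil) nil) nil)) (node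
  (nat_lit 6) (nat_lit 84255) (nat_lit 10) (node (nat_lit 5) (nat_lit 84255) (nat_lit 11) (node
  (nat_lit 4) (nat_lit 84255) (nat_lit 12) (node (nat_lit 5) (nat_lit 84255) (nat_lit 13) (node
  (nat_lit 6) (nat_lit 84255) (nat_lit 14) (node (nat_lit 5) (nat_lit 85155) (nat_lit 15) (node
  (nat_lit 4) (nat_lit 83675) (nat_lit 16) nil nil) nil) nil) nil) (node (nat_lit 6) (nat_lit
  84255) (nat_lit 12) (node (nat_lit 4) (nat_lit 84255) (nat_lit 13) (node (nat_lit 5) (nat_lit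
  84337) (nat_lit 14) (node (nat_lit 6) (nat_lit 87266) (nat_lit 15) (node (nat_lit 5) (nat_lit
  88385) (nat_lit 16) nil nil) nil) nil) nil) nil)) nil) (node (nat_lit 10) (nat_lit 86404)
  (nat_lit 10) nil nil))) (node (nat_lit 10) (nat_lit 89770) (nat_lit 9) (node (nat_lit 5)
  (nat_lit 89770) (nat_lit 10) (node (nat_lit 6) (nat_lit 89770) (nat_lit 11) nil nil) (node
  (nat_lit 4) (nat_lit 89770) (nat_lit 10) nil nil)) nil))) (node (nat_lit 5) (nat_lit 84255)
  (nat_lit 8) (node (nat_lit 6) (nat_lit 84255) (nat_lit 9) (node (nat_lit 4) (nat_lit 84255)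
  (nat_lit 10) (node (nat_lit 6) (nat_lit 84255) (nat_lit 11) (node (nat_lit 5) (nat_lit 84255)
  (nat_lit 12) (node (nat_lit 4) (nat_lit 84255) (nat_lit 13) (node (nat_lit 5) (nat_lit 84255)
  (nat_lit 14) (node (nat_lit 6) (nat_lit 85155) (nat_lit 15) (node (nat_lit 5) (nat_lit 85857)
  (nat_lit 16) (node (nat_lit 4) (nat_lit 84701) (nat_lit 17) nil nil) nil) nil) nil) (node
  (nat_lit 6) (nat_lit 84255) (nat_lit 13) (node (nat_lit 4) (nat_lit 84337) (nat_lit 14) (node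
  (nat_lit 5) (nat_lit 85795) (nat_lit 15) nil nil) nil) nil)) nil) (node (nat_lit 5) (nat_lit
  84255) (nat_lit 11) (node (nat_lit 6) (nat_lit 84255) (nat_lit 12) (node (nat_lit 5) (nat_lit
  84255) (nat_lit 13) (node (nat_lit 4) (nat_lit 84255) (nat_lit 14) (node (nat_lit 5) (nat_lit
  86167) (nat_lit 15) (node (nat_lit 10) (nat_lit 24896) (nat_lit 16) nil nil) nil) nil) nil) nil)
  nil)) (node (nat_lit 5) (nat_lit 84255) (nat_lit 10) (node (nat_lit 4) (nat_lit 84255) (nat_lit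
  11) (node (nat_lit 6) (nat_lit 84255) (nat_lit 12) (node (nat_lit 4) (nat_lit 84255) (nat_lit
  13) (node (nat_lit 5) (nat_lit 84255) (nat_lit 14) (node (nat_lit 6) (nat_lit 87743) (nat_lit
  15) nil nil) nil) nil) nil) nil) nil)) (node (nat_lit 4) (nat_lit 84255) (nat_lit 9) (node
  (nat_lit 6) (nat_lit 84255) (nat_lit 10) (node (nat_lit 4) (nat_lit 84255) (nat_lit 11) (node
  (nat_lit 5) (nat_lit 84255) (nat_lit 12) (node (nat_lit 6) (nat_lit 84255) (nat_lit 13) (node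
  (nat_lit 5) (nat_lit 84255) (nat_lit 14) (node (nat_lit 4) (nat_lit 87588) (nat_lit 15) (node
  (nat_lit 5) (nat_lit 89618) (nat_lit 16) (node (nat_lit 10) (nat_lit 30843) (nat_lit 17) nil
  nil) nil) nil) nil) nil) nil) (node (nat_lit 5) (nat_lit 84255) (nat_lit 11) (node (nat_lit 4)
  (nat_lit 84255) (nat_lit 12) (node (nat_lit 5) (nat_lit 84255) (nat_lit 13) (node (nat_lit 6)
  (nat_lit 84255) (nat_lit 14) (node (nat_lit 5) (nat_lit 85155) (nat_lit 15) (node (nat_lit 4)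
  (nat_lit 83675) (nat_lit 16) nil nil) nil) nil) nil) nil) nil)) nil) nil)) (node (nat_lit 0)
  (nat_lit 88121) (nat_lit 8) (node (nat_lit 10) (nat_lit 88823) (nat_lit 9) nil nil) nil))))
  (node (nat_lit 6) (nat_lit 0) (nat_lit 7) (node (nat_lit 0) (nat_lit 0) (nat_lit 8) (node
  (nat_lit 6) (nat_lit 0) (nat_lit 9) (node (nat_lit 4) (nat_lit 86056) (nat_lit 10) (node
  (nat_lit 5) (nat_lit 86056) (nat_lit 11) (node (nat_lit 6) (nat_lit 86056) (nat_lit 12) (node
  (nat_lit 5) (nat_lit 86056) (nat_lit 13) (node (nat_lit 4) (nat_lit 86056) (nat_lit 14) (node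
  (nat_lit 5) (nat_lit 86056) (nat_lit 15) (node (nat_lit 6) (nat_lit 86758) (nat_lit 16) nil nil)
  nil) nil) (node (nat_lit 4) (nat_lit 86056) (nat_lit 13) nil nil)) (node (nat_lit 4) (nat_lit
  86056) (nat_lit 12) (node (nat_lit 6) (nat_lit 86056) (nat_lit 13) (node (nat_lit 4) (nat_lit
  86056) (nat_lit 14) (node (nat_lit 5) (nat_lit 86056) (nat_lit 15) (node (nat_lit 6) (nat_lit
  89721) (nat_lit 16) (node (nat_lit 5) (nat_lit 89770) (nat_lit 17) nil nil) nil) nil) (node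
  (nat_lit 5) (nat_lit 86056) (nat_lit 14) nil nil)) nil) (node (nat_lit 0) (nat_lit 88067)
  (nat_lit 12) nil nil))) (node (nat_lit 6) (nat_lit 86056) (nat_lit 11) (node (nat_lit 5)
  (nat_lit 86056) (nat_lit 12) (node (nat_lit 4) (nat_lit 86056) (nat_lit 13) nil (node (nat_lit
  6) (nat_lit 86056) (nat_lit 13) nil nil)) (node (nat_lit 11) (nat_lit 88067) (nat_lit 12) nil
  nil)) (node (nat_lit 11) (nat_lit 89770) (nat_lit 11) nil (node (nat_lit 0) (nat_lit 87733)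
  (nat_lit 11) nil nil)))) (node (nat_lit 5) (nat_lit 86056) (nat_lit 10) (node (nat_lit 4)
  (nat_lit 86056) (nat_lit 11) (node (nat_lit 6) (nat_lit 86056) (nat_lit 12) (node (nat_lit 4)
  (nat_lit 86056) (nat_lit 13) (node (nat_lit 5) (nat_lit 86056) (nat_lit 14) (node (nat_lit 6)
  (nat_lit 86056) (nat_lit 15) (node (nat_lit 5) (nat_lit 89750) (nat_lit 16) (node (nat_lit 4)
  (nat_lit 89770) (nat_lit 17) nil nil) nil) nil) nil) (node (nat_lit 5) (nat_lit 86056) (nat_lit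
  13) nil nil)) (node (nat_lit 5) (nat_lit 86056) (nat_lit 12) (node (nat_lit 6) (nat_lit 86056)
  (nat_lit 13) nil nil) (node (nat_lit 0) (nat_lit 88067) (nat_lit 12) nil nil))) (node (nat_lit
  6) (nat_lit 86056) (nat_lit 11) (node (nat_lit 4) (nat_lit 86056) (nat_lit 12) nil (node
  (nat_lit 11) (nat_lit 88067) (nat_lit 12) nil nil)) (node (nat_lit 11) (nat_lit 89770) (nat_lit
  11) (node (nat_lit 6) (nat_lit 89770) (nat_lit 12) nil nil) (node (nat_lit 0) (nat_lit 87733)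
  (nat_lit 11) nil nil)))) (node (nat_lit 0) (nat_lit 89770) (nat_lit 10) nil nil))) (node
  (nat_lit 5) (nat_lit 86056) (nat_lit 9) (node (nat_lit 11) (nat_lit 89770) (nat_lit 10) (node
  (nat_lit 6) (nat_lit 89770) (nat_lit 11) nil nil) (node (nat_lit 6) (nat_lit 86056) (nat_lit 10)
  nil nil)) (node (nat_lit 0) (nat_lit 89249) (nat_lit 9) (node (nat_lit 6) (nat_lit 89249)
  (nat_lit 10) nil nil) (node (nat_lit 4) (nat_lit 86056) (nat_lit 9) nil nil)))) (node (nat_lit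
  4) (nat_lit 0) (nat_lit 8) (node (nat_lit 0) (nat_lit 87701) (nat_lit 9) (node (nat_lit 6)
  (nat_lit 87701) (nat_lit 10) (node (nat_lit 4) (nat_lit 87701) (nat_lit 11) (node (nat_lit 5)
  (nat_lit 87701) (nat_lit 12) (node (nat_lit 6) (nat_lit 87701) (nat_lit 13) (node (nat_lit 5)
  (nat_lit 87701) (nat_lit 14) nil nil) (node (nat_lit 4) (nat_lit 87701) (nat_lit 13) (node
  (nat_lit 6) (nat_lit 87701) (nat_lit 14) nil nil) nil)) (node (nat_lit 6) (nat_lit 87701)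
  (nat_lit 12) (node (nat_lit 5) (nat_lit 87701) (nat_lit 13) (node (nat_lit 4) (nat_lit 87701)
  (nat_lit 14) (node (nat_lit 5) (nat_lit 87701) (nat_lit 15) (node (nat_lit 6) (nat_lit 87701)
  (nat_lit 16) (node (nat_lit 5) (nat_lit 88795) (nat_lit 17) nil nil) nil) nil) nil) nil) (node
  (nat_lit 0) (nat_lit 89770) (nat_lit 12) nil nil))) nil) (node (nat_lit 4) (nat_lit 87701)
  (nat_lit 10) nil nil)) nil) nil)) nil)) (node (nat_lit 0) (nat_lit 0) (nat_lit 6) (node (nat_lit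
  6) (nat_lit 119097) (nat_lit 7) (node (nat_lit 4) (nat_lit 121401) (nat_lit 8) (node (nat_lit 5)
  (nat_lit 122412) (nat_lit 9) (node (nat_lit 6) (nat_lit 123072) (nat_lit 10) (node (nat_lit 5)
  (nat_lit 123072) (nat_lit 11) (node (nat_lit 4) (nat_lit 123072) (nat_lit 12) (node (nat_lit 6)
  (nat_lit 123072) (nat_lit 13) nil (node (nat_lit 5) (nat_lit 123072) (nat_lit 13) (node (nat_lit
  6) (nat_lit 121781) (nat_lit 14) nil nil) (node (nat_lit 9) (nat_lit 45885) (nat_lit 13) nil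
  nil))) nil) (node (nat_lit 4) (nat_lit 123072) (nat_lit 11) (node (nat_lit 6) (nat_lit 123072)
  (nat_lit 12) (node (nat_lit 5) (nat_lit 123932) (nat_lit 13) (node (nat_lit 4) (nat_lit 122938)
  (nat_lit 14) nil nil) nil) nil) nil)) (node (nat_lit 4) (nat_lit 123072) (nat_lit 10) (node
  (nat_lit 6) (nat_lit 123072) (nat_lit 11) (node (nat_lit 4) (nat_lit 123072) (nat_lit 12) (node
  (nat_lit 5) (nat_lit 123072) (nat_lit 13) (node (nat_lit 6) (nat_lit 124951) (nat_lit 14) (node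
  (nat_lit 5) (nat_lit 127275) (nat_lit 15) (node (nat_lit 4) (nat_lit 128637) (nat_lit 16) nil
  nil) nil) nil) nil) (node (nat_lit 5) (nat_lit 123072) (nat_lit 12) (node (nat_lit 4) (nat_lit
  123932) (nat_lit 13) (node (nat_lit 5) (nat_lit 125603) (nat_lit 14) nil nil) (node (nat_lit 6)
  (nat_lit 123932) (nat_lit 13) nil nil)) nil)) nil) (node (nat_lit 9) (nat_lit 128513) (nat_lit
  10) nil nil))) (node (nat_lit 6) (nat_lit 122807) (nat_lit 9) (node (nat_lit 5) (nat_lit 122807)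
  (nat_lit 10) (node (nat_lit 4) (nat_lit 122807) (nat_lit 11) (node (nat_lit 5) (nat_lit 122807)
  (nat_lit 12) (node (nat_lit 6) (nat_lit 123667) (nat_lit 13) (node (nat_lit 5) (nat_lit 126255)
  (nat_lit 14) (node (nat_lit 4) (nat_lit 125309) (nat_lit 15) nil nil) nil) nil) (node (nat_lit
  6) (nat_lit 122807) (nat_lit 12) (node (nat_lit 4) (nat_lit 122807) (nat_lit 13) (node (nat_lit
  5) (nat_lit 128310) (nat_lit 14) nil nil) nil) nil)) (node (nat_lit 6) (nat_lit 122807) (nat_lit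
  11) (node (nat_lit 4) (nat_lit 122807) (nat_lit 12) (node (nat_lit 5) (nat_lit 122807) (nat_lit
  13) (node (nat_lit 6) (nat_lit 123915) (nat_lit 14) (node (nat_lit 5) (nat_lit 124666) (nat_lit
  15) (node (nat_lit 4) (nat_lit 125065) (nat_lit 16) nil nil) nil) nil) nil) nil) nil)) (node
  (nat_lit 9) (nat_lit 128909) (nat_lit 10) nil nil)) (node (nat_lit 9) (nat_lit 126491) (nat_lit
  9) nil nil))) (node (nat_lit 5) (nat_lit 121127) (nat_lit 8) (node (nat_lit 4) (nat_lit 121197)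
  (nat_lit 9) (node (nat_lit 6) (nat_lit 121315) (nat_lit 10) (node (nat_lit 4) (nat_lit 121315)
  (nat_lit 11) (node (nat_lit 5) (nat_lit 121315) (nat_lit 12) (node (nat_lit 6) (nat_lit 121315)
  (nat_lit 13) (node (nat_lit 5) (nat_lit 126663) (nat_lit 14) (node (nat_lit 4) (nat_lit 129893)
  (nat_lit 15) nil nil) nil) (node (nat_lit 4) (nat_lit 121315) (nat_lit 13) (node (nat_lit 6)
  (nat_lit 120024) (nat_lit 14) nil nil) nil)) nil) (node (nat_lit 5) (nat_lit 121315) (nat_lit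
  11) (node (nat_lit 6) (nat_lit 121315) (nat_lit 12) (node (nat_lit 4) (nat_lit 120937) (nat_lit
  13) (node (nat_lit 5) (nat_lit 122406) (nat_lit 14) nil nil) nil) nil) nil)) (node (nat_lit 5)
  (nat_lit 121858) (nat_lit 10) (node (nat_lit 6) (nat_lit 122687) (nat_lit 11) (node (nat_lit 4)
  (nat_lit 123151) (nat_lit 12) (node (nat_lit 5) (nat_lit 123151) (nat_lit 13) nil (node (nat_lit
  6) (nat_lit 124010) (nat_lit 13) nil nil)) (node (nat_lit 5) (nat_lit 122687) (nat_lit 12) (node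
  (nat_lit 4) (nat_lit 123546) (nat_lit 13) (node (nat_lit 9) (nat_lit 84152) (nat_lit 14) nil
  (node (nat_lit 6) (nat_lit 125676) (nat_lit 14) nil nil)) nil) nil)) nil) nil)) (node (nat_lit
  6) (nat_lit 122692) (nat_lit 9) (node (nat_lit 4) (nat_lit 122692) (nat_lit 10) (node (nat_lit
  5) (nat_lit 122692) (nat_lit 11) (node (nat_lit 6) (nat_lit 122692) (nat_lit 12) (node (nat_lit
  5) (nat_lit 122692) (nat_lit 13) (node (nat_lit 4) (nat_lit 127023) (nat_lit 14) nil nil) nil)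
  (node (nat_lit 4) (nat_lit 122692) (nat_lit 12) nil nil)) (node (nat_lit 6) (nat_lit 122692)
  (nat_lit 11) nil nil)) (node (nat_lit 9) (nat_lit 128794) (nat_lit 10) nil nil)) (node (nat_lit
  9) (nat_lit 130822) (nat_lit 9) nil nil))) (node (nat_lit 9) (nat_lit 136304) (nat_lit 8) (node
  (nat_lit 4) (nat_lit 136304) (nat_lit 9) nil (node (nat_lit 5) (nat_lit 136304) (nat_lit 9) nil
  nil)) nil))) (node (nat_lit 4) (nat_lit 119022) (nat_lit 7) (node (nat_lit 5) (nat_lit 121105)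
  (nat_lit 8) (node (nat_lit 6) (nat_lit 122115) (nat_lit 9) (node (nat_lit 4) (nat_lit 122115)
  (nat_lit 10) (node (nat_lit 6) (nat_lit 122115) (nat_lit 11) (node (nat_lit 5) (nat_lit 122115)
  (nat_lit 12) (node (nat_lit 4) (nat_lit 122974) (nat_lit 13) (node (nat_lit 5) (nat_lit 124645)
  (nat_lit 14) (node (nat_lit 6) (nat_lit 126226) (nat_lit 15) (node (nat_lit 5) (nat_lit 127210)
  (nat_lit 16) (node (nat_lit 4) (nat_lit 126165) (nat_lit 17) nil nil) nil) nil) nil) (node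
  (nat_lit 6) (nat_lit 122974) (nat_lit 13) (node (nat_lit 4) (nat_lit 127351) (nat_lit 14) nil
  nil) nil)) nil) (node (nat_lit 5) (nat_lit 122115) (nat_lit 11) (node (nat_lit 4) (nat_lit
  122115) (nat_lit 12) nil nil) nil)) (node (nat_lit 5) (nat_lit 122115) (nat_lit 10) (node
  (nat_lit 4) (nat_lit 122115) (nat_lit 11) (node (nat_lit 6) (nat_lit 122115) (nat_lit 12) (node
  (nat_lit 4) (nat_lit 122974) (nat_lit 13) (node (nat_lit 5) (nat_lit 128616) (nat_lit 14) (node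
  (nat_lit 6) (nat_lit 129361) (nat_lit 15) nil nil) nil) (node (nat_lit 5) (nat_lit 122115)
  (nat_lit 13) nil nil)) (node (nat_lit 5) (nat_lit 122115) (nat_lit 12) (node (nat_lit 6)
  (nat_lit 122115) (nat_lit 13) nil nil) nil)) nil) nil)) (node (nat_lit 4) (nat_lit 122309)
  (nat_lit 9) (node (nat_lit 6) (nat_lit 122309) (nat_lit 10) (node (nat_lit 5) (nat_lit 122309)
  (nat_lit 11) (node (nat_lit 6) (nat_lit 122309) (nat_lit 12) (node (nat_lit 4) (nat_lit 122309)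
  (nat_lit 13) (node (nat_lit 5) (nat_lit 123997) (nat_lit 14) (node (nat_lit 6) (nat_lit 124112)
  (nat_lit 15) (node (nat_lit 5) (nat_lit 124012) (nat_lit 16) (node (nat_lit 4) (nat_lit 124326)
  (nat_lit 17) nil nil) nil) nil) nil) nil) (node (nat_lit 4) (nat_lit 122309) (nat_lit 12) (node
  (nat_lit 5) (nat_lit 121890) (nat_lit 13) (node (nat_lit 6) (nat_lit 124214) (nat_lit 14) (node
  (nat_lit 5) (nat_lit 125338) (nat_lit 15) (node (nat_lit 4) (nat_lit 123821) (nat_lit 16) nil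
  nil) nil) nil) nil) nil)) (node (nat_lit 4) (nat_lit 122309) (nat_lit 11) (node (nat_lit 5)
  (nat_lit 122309) (nat_lit 12) (node (nat_lit 6) (nat_lit 122309) (nat_lit 13) (node (nat_lit 5)
  (nat_lit 127416) (nat_lit 14) (node (nat_lit 4) (nat_lit 130567) (nat_lit 15) nil nil) nil) nil)
  nil) nil)) nil) (node (nat_lit 9) (nat_lit 126195) (nat_lit 9) nil nil))) (node (nat_lit 6)
  (nat_lit 121453) (nat_lit 8) (node (nat_lit 5) (nat_lit 122957) (nat_lit 9) (node (nat_lit 4)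
  (nat_lit 123141) (nat_lit 10) (node (nat_lit 5) (nat_lit 123141) (nat_lit 11) (node (nat_lit 6)
  (nat_lit 123141) (nat_lit 12) (node (nat_lit 5) (nat_lit 124000) (nat_lit 13) (node (nat_lit 4)
  (nat_lit 123006) (nat_lit 14) nil nil) (node (nat_lit 4) (nat_lit 122721) (nat_lit 13) nil nil))
  nil) (node (nat_lit 6) (nat_lit 123141) (nat_lit 11) (node (nat_lit 4) (nat_lit 123141) (nat_lit
  12) (node (nat_lit 5) (nat_lit 123141) (nat_lit 13) (node (nat_lit 6) (nat_lit 125222) (nat_lit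
  14) (node (nat_lit 5) (nat_lit 127206) (nat_lit 15) (node (nat_lit 4) (nat_lit 128568) (nat_lit
  16) nil nil) nil) nil) nil) nil) nil)) (node (nat_lit 6) (nat_lit 123650) (nat_lit 10) (node
  (nat_lit 4) (nat_lit 123609) (nat_lit 11) (node (nat_lit 5) (nat_lit 123155) (nat_lit 12) (node
  (nat_lit 6) (nat_lit 123155) (nat_lit 13) (node (nat_lit 5) (nat_lit 125607) (nat_lit 14) (node
  (nat_lit 4) (nat_lit 127249) (nat_lit 15) nil nil) nil) (node (nat_lit 4) (nat_lit 122631)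
  (nat_lit 13) (node (nat_lit 6) (nat_lit 121920) (nat_lit 14) nil nil) nil)) (node (nat_lit 6)
  (nat_lit 123609) (nat_lit 12) (node (nat_lit 5) (nat_lit 124469) (nat_lit 13) (node (nat_lit 4)
  (nat_lit 123474) (nat_lit 14) nil nil) nil) nil)) nil) nil)) (node (nat_lit 4) (nat_lit 122863)
  (nat_lit 9) (node (nat_lit 5) (nat_lit 122863) (nat_lit 10) (node (nat_lit 6) (nat_lit 122863)
  (nat_lit 11) (node (nat_lit 4) (nat_lit 122863) (nat_lit 12) nil nil) (node (nat_lit 4) (nat_lit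
  122863) (nat_lit 11) nil nil)) nil) (node (nat_lit 9) (nat_lit 126543) (nat_lit 9) nil nil)))
  nil)) (node (nat_lit 5) (nat_lit 118971) (nat_lit 7) (node (nat_lit 4) (nat_lit 121400) (nat_lit
  8) (node (nat_lit 6) (nat_lit 121949) (nat_lit 9) (node (nat_lit 5) (nat_lit 122609) (nat_lit
  10) (node (nat_lit 6) (nat_lit 122609) (nat_lit 11) (node (nat_lit 4) (nat_lit 122609) (nat_lit
  12) (node (nat_lit 5) (nat_lit 122609) (nat_lit 13) (node (nat_lit 6) (nat_lit 123699) (nat_lit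
  14) (node (nat_lit 5) (nat_lit 123552) (nat_lit 15) (node (nat_lit 4) (nat_lit 123951) (nat_lit
  16) nil nil) nil) nil) (node (nat_lit 6) (nat_lit 122609) (nat_lit 13) (node (nat_lit 5)
  (nat_lit 121158) (nat_lit 14) nil nil) nil)) nil) (node (nat_lit 4) (nat_lit 122609) (nat_lit
  11) (node (nat_lit 5) (nat_lit 122609) (nat_lit 12) (node (nat_lit 6) (nat_lit 123468) (nat_lit
  13) (node (nat_lit 5) (nat_lit 126056) (nat_lit 14) (node (nat_lit 4) (nat_lit 125111) (nat_lit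
  15) nil nil) nil) nil) nil) nil)) (node (nat_lit 4) (nat_lit 121949) (nat_lit 10) (node (nat_lit
  5) (nat_lit 121949) (nat_lit 11) (node (nat_lit 6) (nat_lit 121949) (nat_lit 12) (node (nat_lit
  5) (nat_lit 122809) (nat_lit 13) (node (nat_lit 4) (nat_lit 121815) (nat_lit 14) (node (nat_lit
  5) (nat_lit 122926) (nat_lit 15) nil nil) nil) (node (nat_lit 4) (nat_lit 121949) (nat_lit 13)
  nil nil)) (node (nat_lit 4) (nat_lit 121949) (nat_lit 12) (node (nat_lit 6) (nat_lit 121949)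
  (nat_lit 13) nil nil) nil)) nil) (node (nat_lit 9) (nat_lit 128051) (nat_lit 10) nil nil)))
  (node (nat_lit 5) (nat_lit 122746) (nat_lit 9) (node (nat_lit 6) (nat_lit 122746) (nat_lit 10)
  (node (nat_lit 4) (nat_lit 122746) (nat_lit 11) (node (nat_lit 5) (nat_lit 122746) (nat_lit 12)
  (node (nat_lit 4) (nat_lit 122746) (nat_lit 13) (node (nat_lit 6) (nat_lit 122051) (nat_lit 14)
  (node (nat_lit 4) (nat_lit 125800) (nat_lit 15) (node (nat_lit 5) (nat_lit 128096) (nat_lit 16)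
  (node (nat_lit 6) (nat_lit 125464) (nat_lit 17) (node (nat_lit 5) (nat_lit 119724) (nat_lit 18)
  (node (nat_lit 4) (nat_lit 113240) (nat_lit 19) nil nil) nil) nil) nil) nil) nil) nil) nil)
  (node (nat_lit 5) (nat_lit 122746) (nat_lit 11) nil nil)) (node (nat_lit 9) (nat_lit 128848)
  (nat_lit 10) nil nil)) nil)) (node (nat_lit 6) (nat_lit 121018) (nat_lit 8) (node (nat_lit 4)
  (nat_lit 122521) (nat_lit 9) (node (nat_lit 6) (nat_lit 122494) (nat_lit 10) (node (nat_lit 5)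
  (nat_lit 122494) (nat_lit 11) (node (nat_lit 4) (nat_lit 122494) (nat_lit 12) (node (nat_lit 5)
  (nat_lit 122075) (nat_lit 13) (node (nat_lit 6) (nat_lit 124398) (nat_lit 14) (node (nat_lit 5)
  (nat_lit 125523) (nat_lit 15) (node (nat_lit 4) (nat_lit 124005) (nat_lit 16) nil nil) nil) nil)
  (node (nat_lit 6) (nat_lit 123353) (nat_lit 13) (node (nat_lit 4) (nat_lit 128371) (nat_lit 14)
  nil nil) nil)) (node (nat_lit 6) (nat_lit 122494) (nat_lit 12) (node (nat_lit 4) (nat_lit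
  122494) (nat_lit 13) nil nil) nil)) nil) (node (nat_lit 5) (nat_lit 123575) (nat_lit 10) (node
  (nat_lit 4) (nat_lit 123575) (nat_lit 11) (node (nat_lit 6) (nat_lit 123575) (nat_lit 12) (node
  (nat_lit 5) (nat_lit 124435) (nat_lit 13) (node (nat_lit 4) (nat_lit 127023) (nat_lit 14) nil
  nil) (node (nat_lit 4) (nat_lit 124435) (nat_lit 13) (node (nat_lit 5) (nat_lit 126565) (nat_lit
  14) nil nil) nil)) nil) (node (nat_lit 6) (nat_lit 123575) (nat_lit 11) (node (nat_lit 5)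
  (nat_lit 123575) (nat_lit 12) (node (nat_lit 4) (nat_lit 123575) (nat_lit 13) (node (nat_lit 9)
  (nat_lit 68960) (nat_lit 14) nil nil) nil) nil) nil)) (node (nat_lit 9) (nat_lit 128622)
  (nat_lit 10) nil nil))) (node (nat_lit 5) (nat_lit 121595) (nat_lit 9) (node (nat_lit 4)
  (nat_lit 121595) (nat_lit 10) (node (nat_lit 6) (nat_lit 121595) (nat_lit 11) (node (nat_lit 5)
  (nat_lit 121595) (nat_lit 12) nil nil) (node (nat_lit 5) (nat_lit 121595) (nat_lit 11) nil nil))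
  (node (nat_lit 9) (nat_lit 127697) (nat_lit 10) nil nil)) (node (nat_lit 9) (nat_lit 129208)
  (nat_lit 9) nil nil))) (node (nat_lit 9) (nat_lit 135102) (nat_lit 8) (node (nat_lit 4) (nat_lit
  135102) (nat_lit 9) nil (node (nat_lit 6) (nat_lit 135102) (nat_lit 9) nil nil)) nil))) (node
  (nat_lit 0) (nat_lit 126747) (nat_lit 7) (node (nat_lit 6) (nat_lit 126747) (nat_lit 8) nil
  (node (nat_lit 5) (nat_lit 126747) (nat_lit 8) nil nil)) nil)))) nil))

noncomputable def t212 : Tr :=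
  (node (nat_lit 0) (nat_lit 0) (nat_lit 7) (node (nat_lit 5) (nat_lit 0) (nat_lit 8) (node
  (nat_lit 4) (nat_lit 92405) (nat_lit 9) (node (nat_lit 7) (nat_lit 92405) (nat_lit 10) (node
  (nat_lit 5) (nat_lit 92405) (nat_lit 11) (node (nat_lit 4) (nat_lit 92405) (nat_lit 12) (node
  (nat_lit 5) (nat_lit 92405) (nat_lit 13) nil nil) (node (nat_lit 7) (nat_lit 92405) (nat_lit 12)
  (node (nat_lit 4) (nat_lit 92405) (nat_lit 13) (node (nat_lit 5) (nat_lit 92405) (nat_lit 14)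
  (node (nat_lit 4) (nat_lit 96505) (nat_lit 15) (node (nat_lit 7) (nat_lit 97258) (nat_lit 16)
  nil nil) nil) nil) nil) nil)) (node (nat_lit 4) (nat_lit 92405) (nat_lit 11) (node (nat_lit 5)
  (nat_lit 92405) (nat_lit 12) (node (nat_lit 7) (nat_lit 92405) (nat_lit 13) nil (node (nat_lit
  4) (nat_lit 92405) (nat_lit 13) (node (nat_lit 7) (nat_lit 92405) (nat_lit 14) (node (nat_lit 5)
  (nat_lit 95271) (nat_lit 15) nil nil) nil) nil)) nil) nil)) (node (nat_lit 5) (nat_lit 92405)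
  (nat_lit 10) (node (nat_lit 7) (nat_lit 92405) (nat_lit 11) (node (nat_lit 4) (nat_lit 92405)
  (nat_lit 12) (node (nat_lit 5) (nat_lit 92405) (nat_lit 13) (node (nat_lit 4) (nat_lit 92405)
  (nat_lit 14) (node (nat_lit 7) (nat_lit 96068) (nat_lit 15) (node (nat_lit 5) (nat_lit 97258)
  (nat_lit 16) nil nil) nil) nil) (node (nat_lit 7) (nat_lit 92405) (nat_lit 13) (node (nat_lit 5)
  (nat_lit 92405) (nat_lit 14) nil nil) nil)) (node (nat_lit 5) (nat_lit 92405) (nat_lit 12) (node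
  (nat_lit 4) (nat_lit 92405) (nat_lit 13) (node (nat_lit 7) (nat_lit 92405) (nat_lit 14) nil nil)
  nil) nil)) nil) (node (nat_lit 10) (nat_lit 96906) (nat_lit 10) nil nil))) (node (nat_lit 7)
  (nat_lit 92405) (nat_lit 9) (node (nat_lit 5) (nat_lit 92405) (nat_lit 10) (node (nat_lit 4)
  (nat_lit 92405) (nat_lit 11) (node (nat_lit 7) (nat_lit 92405) (nat_lit 12) (node (nat_lit 4)
  (nat_lit 92405) (nat_lit 13) (node (nat_lit 5) (nat_lit 92405) (nat_lit 14) (node (nat_lit 4)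
  (nat_lit 95271) (nat_lit 15) (node (nat_lit 7) (nat_lit 95637) (nat_lit 16) (node (nat_lit 5)
  (nat_lit 96534) (nat_lit 17) (node (nat_lit 7) (nat_lit 97237) (nat_lit 18) nil nil) nil) nil)
  (node (nat_lit 7) (nat_lit 94289) (nat_lit 15) nil nil)) nil) (node (nat_lit 5) (nat_lit 92405)
  (nat_lit 13) (node (nat_lit 7) (nat_lit 92405) (nat_lit 14) (node (nat_lit 4) (nat_lit 96505)
  (nat_lit 15) nil nil) nil) nil)) (node (nat_lit 5) (nat_lit 92405) (nat_lit 12) (node (nat_lit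
  7) (nat_lit 92405) (nat_lit 13) (node (nat_lit 4) (nat_lit 92405) (nat_lit 14) nil nil) nil)
  nil)) (node (nat_lit 10) (nat_lit 94902) (nat_lit 11) nil nil)) (node (nat_lit 4) (nat_lit
  92405) (nat_lit 10) (node (nat_lit 5) (nat_lit 92405) (nat_lit 11) (node (nat_lit 4) (nat_lit
  92405) (nat_lit 12) (node (nat_lit 7) (nat_lit 92405) (nat_lit 13) (node (nat_lit 5) (nat_lit
  92405) (nat_lit 14) (node (nat_lit 7) (nat_lit 94289) (nat_lit 15) (node (nat_lit 10) (nat_lit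
  31033) (nat_lit 16) nil nil) nil) nil) nil) (node (nat_lit 7) (nat_lit 92405) (nat_lit 12) (node
  (nat_lit 5) (nat_lit 92405) (nat_lit 13) nil nil) nil)) (node (nat_lit 7) (nat_lit 92405)
  (nat_lit 11) (node (nat_lit 5) (nat_lit 92405) (nat_lit 12) (node (nat_lit 7) (nat_lit 92405)
  (nat_lit 13) (node (nat_lit 4) (nat_lit 92405) (nat_lit 14) (node (nat_lit 5) (nat_lit 94883)
  (nat_lit 15) nil nil) nil) (node (nat_lit 4) (nat_lit 92405) (nat_lit 13) nil nil)) nil) nil))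
  nil)) (node (nat_lit 10) (nat_lit 97258) (nat_lit 9) (node (nat_lit 7) (nat_lit 97258) (nat_lit
  10) (node (nat_lit 5) (nat_lit 97258) (nat_lit 11) (node (nat_lit 4) (nat_lit 97258) (nat_lit
  12) (node (nat_lit 7) (nat_lit 97258) (nat_lit 13) (node (nat_lit 4) (nat_lit 97258) (nat_lit
  14) (node (nat_lit 5) (nat_lit 97258) (nat_lit 15) (node (nat_lit 4) (nat_lit 97258) (nat_lit
  16) (node (nat_lit 7) (nat_lit 97258) (nat_lit 17) (node (nat_lit 5) (nat_lit 97258) (nat_lit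
  18) nil nil) nil) nil) nil) nil) nil) nil) nil) (node (nat_lit 4) (nat_lit 97258) (nat_lit 10)
  nil nil)) (node (nat_lit 0) (nat_lit 95760) (nat_lit 9) nil nil)))) (node (nat_lit 4) (nat_lit
  0) (nat_lit 8) (node (nat_lit 7) (nat_lit 92405) (nat_lit 9) (node (nat_lit 4) (nat_lit 92405)
  (nat_lit 10) (node (nat_lit 5) (nat_lit 92405) (nat_lit 11) (node (nat_lit 7) (nat_lit 92405)
  (nat_lit 12) (node (nat_lit 5) (nat_lit 92405) (nat_lit 13) (node (nat_lit 4) (nat_lit 92405)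
  (nat_lit 14) (node (nat_lit 7) (nat_lit 93277) (nat_lit 15) nil (node (nat_lit 5) (nat_lit
  90398) (nat_lit 15) nil nil)) nil) (node (nat_lit 4) (nat_lit 92405) (nat_lit 13) (node (nat_lit
  7) (nat_lit 92405) (nat_lit 14) nil nil) nil)) (node (nat_lit 4) (nat_lit 92405) (nat_lit 12)
  (node (nat_lit 7) (nat_lit 92405) (nat_lit 13) (node (nat_lit 5) (nat_lit 92405) (nat_lit 14)
  nil nil) nil) nil)) (node (nat_lit 10) (nat_lit 94902) (nat_lit 11) nil nil)) (node (nat_lit 5)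
  (nat_lit 92405) (nat_lit 10) (node (nat_lit 4) (nat_lit 92405) (nat_lit 11) (node (nat_lit 7)
  (nat_lit 92405) (nat_lit 12) (node (nat_lit 4) (nat_lit 92405) (nat_lit 13) (node (nat_lit 5)
  (nat_lit 92405) (nat_lit 14) (node (nat_lit 4) (nat_lit 94953) (nat_lit 15) (node (nat_lit 7)
  (nat_lit 95318) (nat_lit 16) (node (nat_lit 5) (nat_lit 96215) (nat_lit 17) (node (nat_lit 7)
  (nat_lit 96918) (nat_lit 18) nil nil) nil) nil) nil) nil) nil) (node (nat_lit 5) (nat_lit 92405)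
  (nat_lit 12) (node (nat_lit 7) (nat_lit 92405) (nat_lit 13) nil nil) nil)) (node (nat_lit 7)
  (nat_lit 92405) (nat_lit 11) (node (nat_lit 4) (nat_lit 92405) (nat_lit 12) (node (nat_lit 5)
  (nat_lit 92405) (nat_lit 13) (node (nat_lit 4) (nat_lit 92405) (nat_lit 14) (node (nat_lit 7)
  (nat_lit 96354) (nat_lit 15) nil nil) nil) (node (nat_lit 7) (nat_lit 92405) (nat_lit 13) nil
  nil)) nil) nil)) (node (nat_lit 10) (nat_lit 96906) (nat_lit 10) nil nil))) (node (nat_lit 5)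
  (nat_lit 92405) (nat_lit 9) (node (nat_lit 7) (nat_lit 92405) (nat_lit 10) (node (nat_lit 4)
  (nat_lit 92405) (nat_lit 11) (node (nat_lit 5) (nat_lit 92405) (nat_lit 12) (node (nat_lit 4)
  (nat_lit 92405) (nat_lit 13) (node (nat_lit 7) (nat_lit 92405) (nat_lit 14) (node (nat_lit 5)
  (nat_lit 95812) (nat_lit 15) (node (nat_lit 7) (nat_lit 97258) (nat_lit 16) nil nil) nil) nil)
  nil) (node (nat_lit 7) (nat_lit 92405) (nat_lit 12) (node (nat_lit 5) (nat_lit 92405) (nat_lit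
  13) nil nil) nil)) (node (nat_lit 5) (nat_lit 92405) (nat_lit 11) (node (nat_lit 4) (nat_lit
  92405) (nat_lit 12) (node (nat_lit 7) (nat_lit 92405) (nat_lit 13) (node (nat_lit 4) (nat_lit
  92119) (nat_lit 14) (node (nat_lit 5) (nat_lit 94298) (nat_lit 15) (node (nat_lit 4) (nat_lit
  95662) (nat_lit 16) (node (nat_lit 7) (nat_lit 95744) (nat_lit 17) nil nil) nil) nil) nil) (node
  (nat_lit 5) (nat_lit 92405) (nat_lit 13) nil nil)) nil) nil)) (node (nat_lit 4) (nat_lit 92405)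
  (nat_lit 10) (node (nat_lit 7) (nat_lit 92405) (nat_lit 11) (node (nat_lit 5) (nat_lit 92405)
  (nat_lit 12) (node (nat_lit 7) (nat_lit 92405) (nat_lit 13) (node (nat_lit 4) (nat_lit 92405)
  (nat_lit 14) (node (nat_lit 5) (nat_lit 94606) (nat_lit 15) (node (nat_lit 4) (nat_lit 97184)
  (nat_lit 16) (node (nat_lit 7) (nat_lit 97258) (nat_lit 17) nil nil) nil) (node (nat_lit 7)
  (nat_lit 93277) (nat_lit 15) nil nil)) nil) (node (nat_lit 4) (nat_lit 92405) (nat_lit 13) (node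
  (nat_lit 5) (nat_lit 92405) (nat_lit 14) nil nil) nil)) (node (nat_lit 4) (nat_lit 92405)
  (nat_lit 12) (node (nat_lit 5) (nat_lit 92405) (nat_lit 13) (node (nat_lit 7) (nat_lit 92405)
  (nat_lit 14) nil nil) nil) nil)) nil) (node (nat_lit 10) (nat_lit 96906) (nat_lit 10) nil nil)))
  (node (nat_lit 10) (nat_lit 97258) (nat_lit 9) (node (nat_lit 7) (nat_lit 97258) (nat_lit 10)
  (node (nat_lit 4) (nat_lit 97258) (nat_lit 11) (node (nat_lit 7) (nat_lit 97258) (nat_lit 12)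
  (node (nat_lit 5) (nat_lit 97258) (nat_lit 13) (node (nat_lit 4) (nat_lit 97258) (nat_lit 14)
  (node (nat_lit 7) (nat_lit 97258) (nat_lit 15) (node (nat_lit 4) (nat_lit 97258) (nat_lit 16)
  (node (nat_lit 5) (nat_lit 97258) (nat_lit 17) (node (nat_lit 4) (nat_lit 97258) (nat_lit 18)
  (node (nat_lit 7) (nat_lit 97258) (nat_lit 19) nil nil) nil) nil) nil) nil) nil) nil) nil) nil)
  (node (nat_lit 5) (nat_lit 97258) (nat_lit 10) nil nil)) (node (nat_lit 0) (nat_lit 95760)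
  (nat_lit 9) nil nil)))) (node (nat_lit 7) (nat_lit 0) (nat_lit 8) (node (nat_lit 5) (nat_lit
  92405) (nat_lit 9) (node (nat_lit 4) (nat_lit 92405) (nat_lit 10) (node (nat_lit 7) (nat_lit
  92405) (nat_lit 11) (node (nat_lit 4) (nat_lit 92405) (nat_lit 12) (node (nat_lit 5) (nat_lit
  92405) (nat_lit 13) (node (nat_lit 4) (nat_lit 92405) (nat_lit 14) (node (nat_lit 7) (nat_lit
  93918) (nat_lit 15) (node (nat_lit 5) (nat_lit 95069) (nat_lit 16) nil nil) nil) nil) nil) (node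
  (nat_lit 5) (nat_lit 92405) (nat_lit 12) nil nil)) (node (nat_lit 5) (nat_lit 92405) (nat_lit
  11) (node (nat_lit 7) (nat_lit 92405) (nat_lit 12) nil nil) nil)) (node (nat_lit 7) (nat_lit
  92405) (nat_lit 10) (node (nat_lit 4) (nat_lit 92405) (nat_lit 11) (node (nat_lit 5) (nat_lit
  92405) (nat_lit 12) (node (nat_lit 7) (nat_lit 92405) (nat_lit 13) nil (node (nat_lit 4)
  (nat_lit 92405) (nat_lit 13) (node (nat_lit 7) (nat_lit 92405) (nat_lit 14) (node (nat_lit 5)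
  (nat_lit 94705) (nat_lit 15) nil nil) nil) nil)) (node (nat_lit 7) (nat_lit 92405) (nat_lit 12)
  (node (nat_lit 5) (nat_lit 92405) (nat_lit 13) nil nil) nil)) nil) (node (nat_lit 10) (nat_lit
  94487) (nat_lit 10) nil nil))) (node (nat_lit 4) (nat_lit 92405) (nat_lit 9) (node (nat_lit 5)
  (nat_lit 92405) (nat_lit 10) (node (nat_lit 7) (nat_lit 92405) (nat_lit 11) (node (nat_lit 5)
  (nat_lit 92405) (nat_lit 12) (node (nat_lit 4) (nat_lit 92405) (nat_lit 13) nil nil) (node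
  (nat_lit 4) (nat_lit 92405) (nat_lit 12) nil nil)) (node (nat_lit 4) (nat_lit 92405) (nat_lit
  11) (node (nat_lit 7) (nat_lit 92405) (nat_lit 12) (node (nat_lit 5) (nat_lit 92405) (nat_lit
  13) (node (nat_lit 7) (nat_lit 92405) (nat_lit 14) nil nil) (node (nat_lit 4) (nat_lit 92405)
  (nat_lit 13) nil nil)) nil) nil)) (node (nat_lit 7) (nat_lit 92405) (nat_lit 10) (node (nat_lit
  5) (nat_lit 92405) (nat_lit 11) (node (nat_lit 4) (nat_lit 92405) (nat_lit 12) (node (nat_lit 7)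
  (nat_lit 92405) (nat_lit 13) nil (node (nat_lit 5) (nat_lit 92405) (nat_lit 13) nil nil)) (node
  (nat_lit 7) (nat_lit 92405) (nat_lit 12) (node (nat_lit 4) (nat_lit 92405) (nat_lit 13) nil nil)
  nil)) nil) (node (nat_lit 10) (nat_lit 94487) (nat_lit 10) nil nil))) (node (nat_lit 0) (nat_lit
  97258) (nat_lit 9) nil nil))) (node (nat_lit 0) (nat_lit 97258) (nat_lit 8) (node (nat_lit 10)
  (nat_lit 97258) (nat_lit 9) nil (node (nat_lit 7) (nat_lit 97258) (nat_lit 9) nil (node (nat_lit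
  4) (nat_lit 97258) (nat_lit 9) nil (node (nat_lit 5) (nat_lit 97258) (nat_lit 9) nil nil))))
  nil)))) (node (nat_lit 4) (nat_lit 0) (nat_lit 7) (node (nat_lit 0) (nat_lit 0) (nat_lit 8)
  (node (nat_lit 4) (nat_lit 0) (nat_lit 9) (node (nat_lit 7) (nat_lit 81169) (nat_lit 10) (node
  (nat_lit 5) (nat_lit 81169) (nat_lit 11) (node (nat_lit 4) (nat_lit 81169) (nat_lit 12) (node
  (nat_lit 7) (nat_lit 81169) (nat_lit 13) (node (nat_lit 4) (nat_lit 81169) (nat_lit 14) (node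
  (nat_lit 5) (nat_lit 81169) (nat_lit 15) (node (nat_lit 4) (nat_lit 84405) (nat_lit 16) (node
  (nat_lit 7) (nat_lit 85106) (nat_lit 17) (node (nat_lit 5) (nat_lit 86427) (nat_lit 18) nil nil)
  nil) nil) nil) nil) (node (nat_lit 5) (nat_lit 81169) (nat_lit 13) (node (nat_lit 7) (nat_lit
  81169) (nat_lit 14) (node (nat_lit 4) (nat_lit 81169) (nat_lit 15) nil (node (nat_lit 5)
  (nat_lit 81169) (nat_lit 15) nil nil)) nil) nil)) (node (nat_lit 7) (nat_lit 81169) (nat_lit 12)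
  (node (nat_lit 4) (nat_lit 81169) (nat_lit 13) (node (nat_lit 5) (nat_lit 81169) (nat_lit 14)
  (node (nat_lit 4) (nat_lit 81169) (nat_lit 15) (node (nat_lit 7) (nat_lit 84803) (nat_lit 16)
  (node (nat_lit 5) (nat_lit 86675) (nat_lit 17) (node (nat_lit 7) (nat_lit 88560) (nat_lit 18)
  nil nil) nil) nil) (node (nat_lit 7) (nat_lit 81169) (nat_lit 15) nil nil)) (node (nat_lit 7)
  (nat_lit 81169) (nat_lit 14) (node (nat_lit 5) (nat_lit 81169) (nat_lit 15) nil nil) nil)) nil)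
  (node (nat_lit 0) (nat_lit 87518) (nat_lit 12) nil (node (nat_lit 11) (nat_lit 83118) (nat_lit
  12) nil nil)))) (node (nat_lit 4) (nat_lit 81169) (nat_lit 11) (node (nat_lit 5) (nat_lit 81169)
  (nat_lit 12) (node (nat_lit 7) (nat_lit 81169) (nat_lit 13) nil (node (nat_lit 4) (nat_lit
  81169) (nat_lit 13) (node (nat_lit 7) (nat_lit 81169) (nat_lit 14) nil nil) nil)) (node (nat_lit
  11) (nat_lit 89734) (nat_lit 12) nil nil)) (node (nat_lit 11) (nat_lit 90562) (nat_lit 11) (node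
  (nat_lit 4) (nat_lit 90562) (nat_lit 12) nil nil) (node (nat_lit 0) (nat_lit 88698) (nat_lit 11)
  nil nil)))) (node (nat_lit 5) (nat_lit 81169) (nat_lit 10) (node (nat_lit 7) (nat_lit 81169)
  (nat_lit 11) (node (nat_lit 5) (nat_lit 81169) (nat_lit 12) (node (nat_lit 4) (nat_lit 81169)
  (nat_lit 13) (node (nat_lit 7) (nat_lit 81169) (nat_lit 14) (node (nat_lit 4) (nat_lit 81169)
  (nat_lit 15) (node (nat_lit 5) (nat_lit 83717) (nat_lit 16) nil nil) nil) (node (nat_lit 5)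
  (nat_lit 81169) (nat_lit 14) (node (nat_lit 7) (nat_lit 81169) (nat_lit 15) nil nil) nil)) nil)
  (node (nat_lit 4) (nat_lit 81169) (nat_lit 12) (node (nat_lit 5) (nat_lit 81169) (nat_lit 13)
  (node (nat_lit 4) (nat_lit 81169) (nat_lit 14) (node (nat_lit 7) (nat_lit 81169) (nat_lit 15)
  (node (nat_lit 5) (nat_lit 84574) (nat_lit 16) (node (nat_lit 7) (nat_lit 87111) (nat_lit 17)
  nil nil) nil) nil) nil) (node (nat_lit 7) (nat_lit 81169) (nat_lit 13) (node (nat_lit 5)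
  (nat_lit 81169) (nat_lit 14) (node (nat_lit 4) (nat_lit 81169) (nat_lit 15) nil (node (nat_lit
  7) (nat_lit 81169) (nat_lit 15) nil nil)) nil) nil)) (node (nat_lit 11) (nat_lit 87518) (nat_lit
  12) nil (node (nat_lit 0) (nat_lit 87518) (nat_lit 12) nil nil)))) (node (nat_lit 4) (nat_lit
  81169) (nat_lit 11) (node (nat_lit 7) (nat_lit 81169) (nat_lit 12) (node (nat_lit 5) (nat_lit
  81169) (nat_lit 13) (node (nat_lit 7) (nat_lit 81169) (nat_lit 14) nil (node (nat_lit 4)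
  (nat_lit 81169) (nat_lit 14) nil nil)) (node (nat_lit 4) (nat_lit 81169) (nat_lit 13) (node
  (nat_lit 5) (nat_lit 81169) (nat_lit 14) nil nil) nil)) (node (nat_lit 11) (nat_lit 89734)
  (nat_lit 12) nil (node (nat_lit 0) (nat_lit 83118) (nat_lit 12) nil nil))) (node (nat_lit 11)
  (nat_lit 88698) (nat_lit 11) nil (node (nat_lit 0) (nat_lit 89017) (nat_lit 11) nil nil))))
  (node (nat_lit 0) (nat_lit 89020) (nat_lit 10) (node (nat_lit 4) (nat_lit 89020) (nat_lit 11)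
  nil (node (nat_lit 11) (nat_lit 89435) (nat_lit 11) nil nil)) nil))) (node (nat_lit 7) (nat_lit
  0) (nat_lit 9) (node (nat_lit 11) (nat_lit 89077) (nat_lit 10) (node (nat_lit 4) (nat_lit 89077)
  (nat_lit 11) (node (nat_lit 11) (nat_lit 91072) (nat_lit 12) nil nil) nil) (node (nat_lit 4)
  (nat_lit 81169) (nat_lit 10) (node (nat_lit 7) (nat_lit 81169) (nat_lit 11) (node (nat_lit 11)
  (nat_lit 83118) (nat_lit 12) nil nil) nil) (node (nat_lit 5) (nat_lit 81169) (nat_lit 10) nil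
  (node (nat_lit 0) (nat_lit 82379) (nat_lit 10) nil nil)))) (node (nat_lit 5) (nat_lit 81169)
  (nat_lit 9) (node (nat_lit 11) (nat_lit 88177) (nat_lit 10) (node (nat_lit 4) (nat_lit 88177)
  (nat_lit 11) nil nil) (node (nat_lit 4) (nat_lit 81169) (nat_lit 10) (node (nat_lit 5) (nat_lit
  81169) (nat_lit 11) nil nil) nil)) (node (nat_lit 0) (nat_lit 85996) (nat_lit 9) (node (nat_lit
  4) (nat_lit 85996) (nat_lit 10) nil (node (nat_lit 11) (nat_lit 86526) (nat_lit 10) nil nil))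
  nil)))) (node (nat_lit 7) (nat_lit 0) (nat_lit 8) (node (nat_lit 0) (nat_lit 83376) (nat_lit 9)
  (node (nat_lit 4) (nat_lit 83376) (nat_lit 10) (node (nat_lit 7) (nat_lit 83376) (nat_lit 11)
  (node (nat_lit 5) (nat_lit 83376) (nat_lit 12) (node (nat_lit 4) (nat_lit 83376) (nat_lit 13)
  (node (nat_lit 5) (nat_lit 83376) (nat_lit 14) (node (nat_lit 7) (nat_lit 83376) (nat_lit 15)
  nil nil) (node (nat_lit 7) (nat_lit 83376) (nat_lit 14) nil nil)) (node (nat_lit 7) (nat_lit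
  83376) (nat_lit 13) (node (nat_lit 4) (nat_lit 83376) (nat_lit 14) (node (nat_lit 5) (nat_lit
  83376) (nat_lit 15) (node (nat_lit 4) (nat_lit 83376) (nat_lit 16) (node (nat_lit 7) (nat_lit
  86818) (nat_lit 17) nil nil) nil) nil) nil) (node (nat_lit 12) (nat_lit 86630) (nat_lit 13) nil
  nil))) (node (nat_lit 4) (nat_lit 83376) (nat_lit 12) (node (nat_lit 5) (nat_lit 83376) (nat_lit
  13) (node (nat_lit 7) (nat_lit 83376) (nat_lit 14) (node (nat_lit 5) (nat_lit 83376) (nat_lit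
  15) (node (nat_lit 4) (nat_lit 83376) (nat_lit 16) nil nil) (node (nat_lit 4) (nat_lit 83376)
  (nat_lit 15) nil nil)) (node (nat_lit 4) (nat_lit 83376) (nat_lit 14) (node (nat_lit 7) (nat_lit
  83376) (nat_lit 15) nil nil) nil)) (node (nat_lit 12) (nat_lit 92156) (nat_lit 13) nil (node
  (nat_lit 0) (nat_lit 90064) (nat_lit 13) nil nil))) (node (nat_lit 0) (nat_lit 88954) (nat_lit
  12) nil nil))) (node (nat_lit 12) (nat_lit 85399) (nat_lit 11) nil nil)) (node (nat_lit 7)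
  (nat_lit 83376) (nat_lit 10) (node (nat_lit 4) (nat_lit 83376) (nat_lit 11) (node (nat_lit 12)
  (nat_lit 86090) (nat_lit 12) nil nil) nil) nil)) nil) (node (nat_lit 5) (nat_lit 0) (nat_lit 8)
  (node (nat_lit 0) (nat_lit 66047) (nat_lit 9) (node (nat_lit 4) (nat_lit 66047) (nat_lit 10)
  (node (nat_lit 5) (nat_lit 66047) (nat_lit 11) (node (nat_lit 7) (nat_lit 66047) (nat_lit 12)
  (node (nat_lit 4) (nat_lit 66047) (nat_lit 13) (node (nat_lit 5) (nat_lit 66047) (nat_lit 14)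
  (node (nat_lit 4) (nat_lit 66047) (nat_lit 15) (node (nat_lit 7) (nat_lit 66047) (nat_lit 16)
  (node (nat_lit 5) (nat_lit 68866) (nat_lit 17) nil nil) nil) nil) (node (nat_lit 7) (nat_lit
  66047) (nat_lit 14) (node (nat_lit 5) (nat_lit 66047) (nat_lit 15) nil nil) nil)) (node (nat_lit
  5) (nat_lit 66047) (nat_lit 13) (node (nat_lit 4) (nat_lit 66047) (nat_lit 14) (node (nat_lit 7)
  (nat_lit 66047) (nat_lit 15) nil (node (nat_lit 5) (nat_lit 66047) (nat_lit 15) nil nil)) nil)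
  (node (nat_lit 12) (nat_lit 72734) (nat_lit 13) nil (node (nat_lit 0) (nat_lit 69300) (nat_lit
  13) nil nil)))) (node (nat_lit 4) (nat_lit 66047) (nat_lit 12) (node (nat_lit 7) (nat_lit 66047)
  (nat_lit 13) (node (nat_lit 5) (nat_lit 66047) (nat_lit 14) (node (nat_lit 7) (nat_lit 66047)
  (nat_lit 15) nil nil) (node (nat_lit 4) (nat_lit 66047) (nat_lit 14) nil nil)) (node (nat_lit
  12) (nat_lit 72734) (nat_lit 13) nil (node (nat_lit 0) (nat_lit 72734) (nat_lit 13) nil nil)))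
  (node (nat_lit 0) (nat_lit 71625) (nat_lit 12) nil nil))) nil) (node (nat_lit 5) (nat_lit 66047)
  (nat_lit 10) (node (nat_lit 4) (nat_lit 66047) (nat_lit 11) nil nil) (node (nat_lit 7) (nat_lit
  66047) (nat_lit 10) nil nil))) nil) nil))) nil))

noncomputable def t213 : Tr :=
  (node (nat_lit 0) (nat_lit 0) (nat_lit 7) (node (nat_lit 7) (nat_lit 0) (nat_lit 8) (node
  (nat_lit 5) (nat_lit 86681) (nat_lit 9) (node (nat_lit 4) (nat_lit 86619) (nat_lit 10) (node
  (nat_lit 7) (nat_lit 86721) (nat_lit 11) (node (nat_lit 5) (nat_lit 86721) (nat_lit 12) (node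
  (nat_lit 7) (nat_lit 86721) (nat_lit 13) (node (nat_lit 4) (nat_lit 86721) (nat_lit 14) (node
  (nat_lit 5) (nat_lit 89193) (nat_lit 15) (node (nat_lit 4) (nat_lit 91773) (nat_lit 16) (node
  (nat_lit 7) (nat_lit 93846) (nat_lit 17) (node (nat_lit 5) (nat_lit 95042) (nat_lit 18) nil nil)
  nil) nil) nil) nil) nil) (node (nat_lit 4) (nat_lit 86721) (nat_lit 12) (node (nat_lit 5)
  (nat_lit 86721) (nat_lit 13) (node (nat_lit 4) (nat_lit 87035) (nat_lit 14) (node (nat_lit 7)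
  (nat_lit 87559) (nat_lit 15) (node (nat_lit 5) (nat_lit 88710) (nat_lit 16) (node (nat_lit 4)
  (nat_lit 88994) (nat_lit 17) nil nil) nil) nil) nil) nil) nil)) (node (nat_lit 5) (nat_lit
  86619) (nat_lit 11) (node (nat_lit 7) (nat_lit 86619) (nat_lit 12) (node (nat_lit 4) (nat_lit
  86619) (nat_lit 13) (node (nat_lit 5) (nat_lit 86790) (nat_lit 14) (node (nat_lit 4) (nat_lit
  88988) (nat_lit 15) (node (nat_lit 7) (nat_lit 90977) (nat_lit 16) (node (nat_lit 5) (nat_lit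
  92398) (nat_lit 17) (node (nat_lit 4) (nat_lit 93901) (nat_lit 18) nil nil) nil) nil) nil) (node
  (nat_lit 7) (nat_lit 86619) (nat_lit 14) nil nil)) (node (nat_lit 5) (nat_lit 86619) (nat_lit
  13) nil nil)) nil) nil)) (node (nat_lit 7) (nat_lit 87020) (nat_lit 10) (node (nat_lit 4)
  (nat_lit 87020) (nat_lit 11) (node (nat_lit 5) (nat_lit 87020) (nat_lit 12) (node (nat_lit 4)
  (nat_lit 87020) (nat_lit 13) (node (nat_lit 7) (nat_lit 87097) (nat_lit 14) (node (nat_lit 5)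
  (nat_lit 89397) (nat_lit 15) (node (nat_lit 4) (nat_lit 92006) (nat_lit 16) nil nil) nil) nil)
  (node (nat_lit 7) (nat_lit 87020) (nat_lit 13) (node (nat_lit 5) (nat_lit 87020) (nat_lit 14)
  nil nil) nil)) (node (nat_lit 7) (nat_lit 87020) (nat_lit 12) (node (nat_lit 5) (nat_lit 87020)
  (nat_lit 13) (node (nat_lit 4) (nat_lit 87020) (nat_lit 14) nil nil) nil) nil)) nil) (node
  (nat_lit 10) (nat_lit 94927) (nat_lit 10) nil nil))) (node (nat_lit 4) (nat_lit 0) (nat_lit 9)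
  (node (nat_lit 7) (nat_lit 86714) (nat_lit 10) (node (nat_lit 5) (nat_lit 86380) (nat_lit 11)
  (node (nat_lit 4) (nat_lit 86417) (nat_lit 12) (node (nat_lit 5) (nat_lit 86417) (nat_lit 13)
  (node (nat_lit 7) (nat_lit 85942) (nat_lit 14) (node (nat_lit 4) (nat_lit 88140) (nat_lit 15)
  nil (node (nat_lit 5) (nat_lit 86199) (nat_lit 15) nil nil)) nil) (node (nat_lit 7) (nat_lit
  86417) (nat_lit 13) (node (nat_lit 4) (nat_lit 86417) (nat_lit 14) nil nil) nil)) (node (nat_lit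
  7) (nat_lit 86353) (nat_lit 12) (node (nat_lit 4) (nat_lit 86353) (nat_lit 13) (node (nat_lit 5)
  (nat_lit 86722) (nat_lit 14) (node (nat_lit 4) (nat_lit 90827) (nat_lit 15) (node (nat_lit 7)
  (nat_lit 93821) (nat_lit 16) nil nil) (node (nat_lit 7) (nat_lit 87594) (nat_lit 15) nil nil))
  (node (nat_lit 7) (nat_lit 86353) (nat_lit 14) nil nil)) nil) nil)) (node (nat_lit 10) (nat_lit
  96385) (nat_lit 11) nil nil)) (node (nat_lit 5) (nat_lit 86387) (nat_lit 10) (node (nat_lit 7)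
  (nat_lit 86387) (nat_lit 11) (node (nat_lit 5) (nat_lit 86387) (nat_lit 12) (node (nat_lit 4)
  (nat_lit 86387) (nat_lit 13) nil nil) (node (nat_lit 4) (nat_lit 86387) (nat_lit 12) (node
  (nat_lit 7) (nat_lit 86387) (nat_lit 13) nil nil) nil)) (node (nat_lit 4) (nat_lit 86387)
  (nat_lit 11) (node (nat_lit 7) (nat_lit 86387) (nat_lit 12) (node (nat_lit 5) (nat_lit 86387)
  (nat_lit 13) nil nil) nil) nil)) (node (nat_lit 10) (nat_lit 94633) (nat_lit 10) nil (node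
  (nat_lit 0) (nat_lit 88469) (nat_lit 10) nil nil)))) (node (nat_lit 10) (nat_lit 96458) (nat_lit
  9) (node (nat_lit 4) (nat_lit 96458) (nat_lit 10) (node (nat_lit 7) (nat_lit 96458) (nat_lit 11)
  nil (node (nat_lit 5) (nat_lit 96458) (nat_lit 11) nil nil)) (node (nat_lit 5) (nat_lit 96458)
  (nat_lit 10) (node (nat_lit 7) (nat_lit 96458) (nat_lit 11) nil nil) nil)) (node (nat_lit 0)
  (nat_lit 92107) (nat_lit 9) nil nil)))) (node (nat_lit 5) (nat_lit 0) (nat_lit 8) (node (nat_lit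
  4) (nat_lit 86659) (nat_lit 9) (node (nat_lit 7) (nat_lit 86539) (nat_lit 10) (node (nat_lit 5)
  (nat_lit 86539) (nat_lit 11) (node (nat_lit 7) (nat_lit 86539) (nat_lit 12) (node (nat_lit 4)
  (nat_lit 86539) (nat_lit 13) (node (nat_lit 5) (nat_lit 86539) (nat_lit 14) (node (nat_lit 4)
  (nat_lit 90637) (nat_lit 15) (node (nat_lit 7) (nat_lit 93837) (nat_lit 16) (node (nat_lit 5)
  (nat_lit 94124) (nat_lit 17) nil nil) nil) nil) (node (nat_lit 7) (nat_lit 86539) (nat_lit 14)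
  nil nil)) nil) (node (nat_lit 4) (nat_lit 86539) (nat_lit 12) (node (nat_lit 5) (nat_lit 86539)
  (nat_lit 13) nil nil) nil)) (node (nat_lit 4) (nat_lit 86849) (nat_lit 11) (node (nat_lit 5)
  (nat_lit 87045) (nat_lit 12) (node (nat_lit 4) (nat_lit 87045) (nat_lit 13) (node (nat_lit 7)
  (nat_lit 87045) (nat_lit 14) (node (nat_lit 5) (nat_lit 89779) (nat_lit 15) (node (nat_lit 4)
  (nat_lit 90144) (nat_lit 16) nil nil) nil) nil) (node (nat_lit 7) (nat_lit 87045) (nat_lit 13)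
  nil nil)) nil) nil)) (node (nat_lit 5) (nat_lit 87258) (nat_lit 10) (node (nat_lit 7) (nat_lit
  87608) (nat_lit 11) (node (nat_lit 4) (nat_lit 87608) (nat_lit 12) (node (nat_lit 7) (nat_lit
  87608) (nat_lit 13) (node (nat_lit 5) (nat_lit 87608) (nat_lit 14) (node (nat_lit 4) (nat_lit
  87789) (nat_lit 15) nil (node (nat_lit 7) (nat_lit 88480) (nat_lit 15) nil nil)) nil) (node
  (nat_lit 5) (nat_lit 87608) (nat_lit 13) (node (nat_lit 4) (nat_lit 87779) (nat_lit 14) (node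
  (nat_lit 7) (nat_lit 90722) (nat_lit 15) (node (nat_lit 5) (nat_lit 93090) (nat_lit 16) nil nil)
  nil) nil) nil)) (node (nat_lit 5) (nat_lit 87608) (nat_lit 12) (node (nat_lit 4) (nat_lit 87608)
  (nat_lit 13) (node (nat_lit 7) (nat_lit 87638) (nat_lit 14) (node (nat_lit 4) (nat_lit 90257)
  (nat_lit 15) nil nil) nil) nil) nil)) (node (nat_lit 10) (nat_lit 96534) (nat_lit 11) nil (node
  (nat_lit 0) (nat_lit 89755) (nat_lit 11) nil nil))) nil)) (node (nat_lit 7) (nat_lit 86669)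
  (nat_lit 9) (node (nat_lit 4) (nat_lit 86669) (nat_lit 10) (node (nat_lit 5) (nat_lit 86669)
  (nat_lit 11) (node (nat_lit 7) (nat_lit 86669) (nat_lit 12) (node (nat_lit 5) (nat_lit 86669)
  (nat_lit 13) (node (nat_lit 4) (nat_lit 86669) (nat_lit 14) nil nil) nil) (node (nat_lit 4)
  (nat_lit 86669) (nat_lit 12) (node (nat_lit 7) (nat_lit 86669) (nat_lit 13) nil nil) nil)) (node
  (nat_lit 7) (nat_lit 86669) (nat_lit 11) (node (nat_lit 5) (nat_lit 86669) (nat_lit 12) (node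
  (nat_lit 7) (nat_lit 86669) (nat_lit 13) (node (nat_lit 4) (nat_lit 86669) (nat_lit 14) (node
  (nat_lit 5) (nat_lit 89238) (nat_lit 15) nil nil) nil) (node (nat_lit 4) (nat_lit 86669)
  (nat_lit 13) nil nil)) nil) nil)) (node (nat_lit 5) (nat_lit 86905) (nat_lit 10) (node (nat_lit
  4) (nat_lit 86905) (nat_lit 11) (node (nat_lit 7) (nat_lit 86905) (nat_lit 12) (node (nat_lit 4)
  (nat_lit 86905) (nat_lit 13) (node (nat_lit 5) (nat_lit 87000) (nat_lit 14) (node (nat_lit 4)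
  (nat_lit 89445) (nat_lit 15) (node (nat_lit 7) (nat_lit 89810) (nat_lit 16) (node (nat_lit 5)
  (nat_lit 90708) (nat_lit 17) (node (nat_lit 4) (nat_lit 90931) (nat_lit 18) nil nil) nil) nil)
  (node (nat_lit 7) (nat_lit 87871) (nat_lit 15) nil nil)) nil) (node (nat_lit 5) (nat_lit 86905)
  (nat_lit 13) (node (nat_lit 7) (nat_lit 86905) (nat_lit 14) nil nil) nil)) (node (nat_lit 5)
  (nat_lit 86905) (nat_lit 12) (node (nat_lit 7) (nat_lit 86905) (nat_lit 13) (node (nat_lit 4)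
  (nat_lit 86905) (nat_lit 14) nil nil) nil) nil)) nil) (node (nat_lit 10) (nat_lit 94915)
  (nat_lit 10) nil nil))) (node (nat_lit 10) (nat_lit 96661) (nat_lit 9) (node (nat_lit 7)
  (nat_lit 96661) (nat_lit 10) (node (nat_lit 5) (nat_lit 96661) (nat_lit 11) (node (nat_lit 7)
  (nat_lit 96661) (nat_lit 12) (node (nat_lit 4) (nat_lit 96661) (nat_lit 13) (node (nat_lit 5)
  (nat_lit 96661) (nat_lit 14) (node (nat_lit 4) (nat_lit 96661) (nat_lit 15) (node (nat_lit 7)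
  (nat_lit 96661) (nat_lit 16) (node (nat_lit 5) (nat_lit 97258) (nat_lit 17) nil nil) nil) nil)
  nil) nil) nil) nil) (node (nat_lit 4) (nat_lit 96661) (nat_lit 10) (node (nat_lit 5) (nat_lit
  96661) (nat_lit 11) nil nil) nil)) (node (nat_lit 0) (nat_lit 92192) (nat_lit 9) nil nil))))
  (node (nat_lit 4) (nat_lit 0) (nat_lit 8) (node (nat_lit 7) (nat_lit 86879) (nat_lit 9) (node
  (nat_lit 5) (nat_lit 87397) (nat_lit 10) (node (nat_lit 7) (nat_lit 87500) (nat_lit 11) (node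
  (nat_lit 4) (nat_lit 87526) (nat_lit 12) (node (nat_lit 5) (nat_lit 87526) (nat_lit 13) (node
  (nat_lit 4) (nat_lit 87526) (nat_lit 14) (node (nat_lit 7) (nat_lit 91475) (nat_lit 15) (node
  (nat_lit 5) (nat_lit 93321) (nat_lit 16) (node (nat_lit 4) (nat_lit 93890) (nat_lit 17) nil nil)
  nil) nil) nil) (node (nat_lit 7) (nat_lit 87526) (nat_lit 13) nil nil)) nil) (node (nat_lit 4)
  (nat_lit 87590) (nat_lit 11) (node (nat_lit 7) (nat_lit 87590) (nat_lit 12) (node (nat_lit 4)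
  (nat_lit 87590) (nat_lit 13) (node (nat_lit 5) (nat_lit 87590) (nat_lit 14) (node (nat_lit 4)
  (nat_lit 90760) (nat_lit 15) (node (nat_lit 7) (nat_lit 91125) (nat_lit 16) nil nil) nil) nil)
  nil) (node (nat_lit 5) (nat_lit 87590) (nat_lit 12) (node (nat_lit 7) (nat_lit 87590) (nat_lit
  13) nil nil) nil)) nil)) (node (nat_lit 4) (nat_lit 87069) (nat_lit 10) (node (nat_lit 5)
  (nat_lit 87069) (nat_lit 11) (node (nat_lit 7) (nat_lit 87069) (nat_lit 12) (node (nat_lit 4)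
  (nat_lit 87069) (nat_lit 13) nil (node (nat_lit 5) (nat_lit 87069) (nat_lit 13) nil nil)) (node
  (nat_lit 4) (nat_lit 87069) (nat_lit 12) (node (nat_lit 7) (nat_lit 87069) (nat_lit 13) nil nil)
  nil)) nil) (node (nat_lit 10) (nat_lit 91380) (nat_lit 10) nil nil))) (node (nat_lit 5) (nat_lit
  86771) (nat_lit 9) (node (nat_lit 7) (nat_lit 87355) (nat_lit 10) (node (nat_lit 5) (nat_lit
  87355) (nat_lit 11) (node (nat_lit 4) (nat_lit 87355) (nat_lit 12) (node (nat_lit 7) (nat_lit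
  87355) (nat_lit 13) (node (nat_lit 4) (nat_lit 87355) (nat_lit 14) (node (nat_lit 5) (nat_lit
  89796) (nat_lit 15) (node (nat_lit 4) (nat_lit 91160) (nat_lit 16) (node (nat_lit 7) (nat_lit
  91242) (nat_lit 17) nil nil) nil) nil) nil) nil) nil) (node (nat_lit 4) (nat_lit 87521) (nat_lit
  11) (node (nat_lit 5) (nat_lit 87521) (nat_lit 12) (node (nat_lit 4) (nat_lit 87521) (nat_lit
  13) (node (nat_lit 7) (nat_lit 87339) (nat_lit 14) (node (nat_lit 5) (nat_lit 90390) (nat_lit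
  15) (node (nat_lit 4) (nat_lit 92872) (nat_lit 16) nil nil) nil) nil) nil) (node (nat_lit 7)
  (nat_lit 87521) (nat_lit 12) nil nil)) nil)) (node (nat_lit 4) (nat_lit 86989) (nat_lit 10)
  (node (nat_lit 7) (nat_lit 86989) (nat_lit 11) (node (nat_lit 5) (nat_lit 86989) (nat_lit 12)
  (node (nat_lit 7) (nat_lit 86989) (nat_lit 13) (node (nat_lit 4) (nat_lit 86989) (nat_lit 14)
  (node (nat_lit 5) (nat_lit 89189) (nat_lit 15) nil nil) nil) (node (nat_lit 4) (nat_lit 86989)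
  (nat_lit 13) nil nil)) (node (nat_lit 4) (nat_lit 86989) (nat_lit 12) (node (nat_lit 5) (nat_lit
  86989) (nat_lit 13) nil nil) nil)) (node (nat_lit 10) (nat_lit 95820) (nat_lit 11) nil nil))
  (node (nat_lit 10) (nat_lit 91273) (nat_lit 10) nil nil))) (node (nat_lit 0) (nat_lit 91884)
  (nat_lit 9) nil nil))) (node (nat_lit 0) (nat_lit 0) (nat_lit 8) (node (nat_lit 10) (nat_lit
  95755) (nat_lit 9) (node (nat_lit 4) (nat_lit 95755) (nat_lit 10) nil nil) (node (nat_lit 4)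
  (nat_lit 92599) (nat_lit 9) (node (nat_lit 11) (nat_lit 93810) (nat_lit 10) nil nil) (node
  (nat_lit 5) (nat_lit 92599) (nat_lit 9) nil (node (nat_lit 7) (nat_lit 92599) (nat_lit 9) nil
  (node (nat_lit 0) (nat_lit 93279) (nat_lit 9) nil nil))))) nil)))) (node (nat_lit 5) (nat_lit 0)
  (nat_lit 7) (node (nat_lit 0) (nat_lit 0) (nat_lit 8) (node (nat_lit 5) (nat_lit 0) (nat_lit 9)
  (node (nat_lit 4) (nat_lit 88134) (nat_lit 10) (node (nat_lit 7) (nat_lit 88134) (nat_lit 11)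
  (node (nat_lit 5) (nat_lit 88134) (nat_lit 12) (node (nat_lit 7) (nat_lit 88134) (nat_lit 13)
  (node (nat_lit 4) (nat_lit 88134) (nat_lit 14) (node (nat_lit 5) (nat_lit 88134) (nat_lit 15)
  (node (nat_lit 4) (nat_lit 92079) (nat_lit 16) (node (nat_lit 7) (nat_lit 94618) (nat_lit 17)
  (node (nat_lit 5) (nat_lit 94177) (nat_lit 18) (node (nat_lit 4) (nat_lit 94337) (nat_lit 19)
  (node (nat_lit 5) (nat_lit 94083) (nat_lit 20) nil nil) nil) nil) nil) nil) nil) nil) (node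
  (nat_lit 4) (nat_lit 88134) (nat_lit 13) (node (nat_lit 5) (nat_lit 88134) (nat_lit 14) (node
  (nat_lit 7) (nat_lit 88134) (nat_lit 15) nil nil) nil) nil)) (node (nat_lit 4) (nat_lit 88134)
  (nat_lit 12) (node (nat_lit 5) (nat_lit 88134) (nat_lit 13) (node (nat_lit 4) (nat_lit 88134)
  (nat_lit 14) (node (nat_lit 7) (nat_lit 88134) (nat_lit 15) (node (nat_lit 5) (nat_lit 91029)
  (nat_lit 16) (node (nat_lit 4) (nat_lit 91729) (nat_lit 17) (node (nat_lit 5) (nat_lit 93051)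
  (nat_lit 18) nil nil) nil) nil) nil) (node (nat_lit 7) (nat_lit 88134) (nat_lit 14) (node
  (nat_lit 5) (nat_lit 88134) (nat_lit 15) nil nil) nil)) nil) (node (nat_lit 11) (nat_lit 94483)
  (nat_lit 12) nil (node (nat_lit 0) (nat_lit 90083) (nat_lit 12) nil nil)))) (node (nat_lit 5)
  (nat_lit 88134) (nat_lit 11) (node (nat_lit 7) (nat_lit 88134) (nat_lit 12) (node (nat_lit 4)
  (nat_lit 88134) (nat_lit 13) nil (node (nat_lit 5) (nat_lit 88134) (nat_lit 13) nil nil)) nil)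
  (node (nat_lit 11) (nat_lit 97258) (nat_lit 11) (node (nat_lit 5) (nat_lit 97258) (nat_lit 12)
  nil nil) (node (nat_lit 0) (nat_lit 93429) (nat_lit 11) nil nil)))) (node (nat_lit 7) (nat_lit
  88089) (nat_lit 10) (node (nat_lit 4) (nat_lit 88155) (nat_lit 11) (node (nat_lit 5) (nat_lit
  88155) (nat_lit 12) (node (nat_lit 4) (nat_lit 88155) (nat_lit 13) (node (nat_lit 7) (nat_lit
  88155) (nat_lit 14) (node (nat_lit 5) (nat_lit 88155) (nat_lit 15) nil (node (nat_lit 4)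
  (nat_lit 88155) (nat_lit 15) nil nil)) nil) (node (nat_lit 7) (nat_lit 88155) (nat_lit 13) (node
  (nat_lit 5) (nat_lit 88155) (nat_lit 14) nil nil) nil)) (node (nat_lit 7) (nat_lit 88155)
  (nat_lit 12) (node (nat_lit 5) (nat_lit 88155) (nat_lit 13) (node (nat_lit 4) (nat_lit 88155)
  (nat_lit 14) nil (node (nat_lit 7) (nat_lit 88155) (nat_lit 14) nil nil)) (node (nat_lit 11)
  (nat_lit 90355) (nat_lit 13) nil nil)) (node (nat_lit 11) (nat_lit 94503) (nat_lit 12) nil (node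
  (nat_lit 0) (nat_lit 94503) (nat_lit 12) nil nil)))) (node (nat_lit 5) (nat_lit 88089) (nat_lit
  11) (node (nat_lit 4) (nat_lit 88089) (nat_lit 12) (node (nat_lit 7) (nat_lit 88089) (nat_lit
  13) (node (nat_lit 4) (nat_lit 88089) (nat_lit 14) nil (node (nat_lit 5) (nat_lit 88089)
  (nat_lit 14) nil nil)) (node (nat_lit 5) (nat_lit 88089) (nat_lit 13) (node (nat_lit 7) (nat_lit
  88089) (nat_lit 14) nil nil) nil)) (node (nat_lit 11) (nat_lit 94438) (nat_lit 12) nil (node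
  (nat_lit 0) (nat_lit 90038) (nat_lit 12) nil nil))) (node (nat_lit 11) (nat_lit 95620) (nat_lit
  11) nil (node (nat_lit 0) (nat_lit 95620) (nat_lit 11) nil nil)))) (node (nat_lit 0) (nat_lit
  95398) (nat_lit 10) (node (nat_lit 5) (nat_lit 95398) (nat_lit 11) nil (node (nat_lit 11)
  (nat_lit 95812) (nat_lit 11) nil nil)) nil))) (node (nat_lit 4) (nat_lit 0) (nat_lit 9) (node
  (nat_lit 11) (nat_lit 95690) (nat_lit 10) (node (nat_lit 5) (nat_lit 95690) (nat_lit 11) (node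
  (nat_lit 11) (nat_lit 96428) (nat_lit 12) nil nil) nil) (node (nat_lit 5) (nat_lit 88116)
  (nat_lit 10) (node (nat_lit 4) (nat_lit 88169) (nat_lit 11) (node (nat_lit 11) (nat_lit 94518)
  (nat_lit 12) nil nil) nil) (node (nat_lit 7) (nat_lit 87966) (nat_lit 10) nil (node (nat_lit 0)
  (nat_lit 89094) (nat_lit 10) nil nil)))) (node (nat_lit 7) (nat_lit 88002) (nat_lit 9) (node
  (nat_lit 5) (nat_lit 88002) (nat_lit 10) (node (nat_lit 7) (nat_lit 88002) (nat_lit 11) nil nil)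
  (node (nat_lit 11) (nat_lit 94715) (nat_lit 10) nil (node (nat_lit 4) (nat_lit 88002) (nat_lit
  10) nil nil))) (node (nat_lit 0) (nat_lit 93049) (nat_lit 9) (node (nat_lit 5) (nat_lit 93049)
  (nat_lit 10) (node (nat_lit 11) (nat_lit 93994) (nat_lit 11) nil nil) (node (nat_lit 11)
  (nat_lit 93579) (nat_lit 10) nil nil)) nil)))) (node (nat_lit 7) (nat_lit 0) (nat_lit 8) (node
  (nat_lit 0) (nat_lit 91011) (nat_lit 9) (node (nat_lit 5) (nat_lit 91011) (nat_lit 10) (node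
  (nat_lit 7) (nat_lit 91011) (nat_lit 11) (node (nat_lit 4) (nat_lit 91011) (nat_lit 12) (node
  (nat_lit 5) (nat_lit 91011) (nat_lit 13) (node (nat_lit 4) (nat_lit 91011) (nat_lit 14) nil nil)
  (node (nat_lit 7) (nat_lit 91011) (nat_lit 13) (node (nat_lit 5) (nat_lit 91011) (nat_lit 14)
  nil nil) (node (nat_lit 12) (nat_lit 94264) (nat_lit 13) nil nil))) (node (nat_lit 5) (nat_lit
  91011) (nat_lit 12) (node (nat_lit 4) (nat_lit 91011) (nat_lit 13) (node (nat_lit 7) (nat_lit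
  91011) (nat_lit 14) nil (node (nat_lit 5) (nat_lit 91011) (nat_lit 14) nil nil)) (node (nat_lit
  12) (nat_lit 97258) (nat_lit 13) nil (node (nat_lit 0) (nat_lit 94264) (nat_lit 13) nil nil)))
  (node (nat_lit 0) (nat_lit 96589) (nat_lit 12) nil nil))) nil) (node (nat_lit 7) (nat_lit 91011)
  (nat_lit 10) (node (nat_lit 5) (nat_lit 91011) (nat_lit 11) nil nil) nil)) nil) nil)) nil))

noncomputable def t214 : Tr :=
  (node (nat_lit 0) (nat_lit 0) (nat_lit 7) (node (nat_lit 7) (nat_lit 0) (nat_lit 8) (node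
  (nat_lit 5) (nat_lit 60367) (nat_lit 9) (node (nat_lit 4) (nat_lit 61694) (nat_lit 10) (node
  (nat_lit 7) (nat_lit 62560) (nat_lit 11) (node (nat_lit 5) (nat_lit 62560) (nat_lit 12) (node
  (nat_lit 7) (nat_lit 62560) (nat_lit 13) (node (nat_lit 4) (nat_lit 63190) (nat_lit 14) (node
  (nat_lit 5) (nat_lit 64292) (nat_lit 15) (node (nat_lit 4) (nat_lit 63566) (nat_lit 16) (node
  (nat_lit 7) (nat_lit 63635) (nat_lit 17) nil nil) nil) nil) nil) nil) (node (nat_lit 4) (nat_lit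
  62560) (nat_lit 12) (node (nat_lit 5) (nat_lit 62560) (nat_lit 13) (node (nat_lit 4) (nat_lit
  62011) (nat_lit 14) (node (nat_lit 7) (nat_lit 62265) (nat_lit 15) nil nil) nil) nil) nil))
  (node (nat_lit 5) (nat_lit 62560) (nat_lit 11) (node (nat_lit 7) (nat_lit 63190) (nat_lit 12)
  (node (nat_lit 5) (nat_lit 63190) (nat_lit 13) nil (node (nat_lit 4) (nat_lit 63190) (nat_lit
  13) (node (nat_lit 5) (nat_lit 63190) (nat_lit 14) (node (nat_lit 4) (nat_lit 64177) (nat_lit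
  15) (node (nat_lit 7) (nat_lit 64070) (nat_lit 16) nil nil) nil) nil) nil)) nil) nil)) (node
  (nat_lit 7) (nat_lit 62212) (nat_lit 10) (node (nat_lit 4) (nat_lit 63176) (nat_lit 11) (node
  (nat_lit 5) (nat_lit 63190) (nat_lit 12) (node (nat_lit 4) (nat_lit 63190) (nat_lit 13) (node
  (nat_lit 7) (nat_lit 63190) (nat_lit 14) (node (nat_lit 4) (nat_lit 66230) (nat_lit 15) (node
  (nat_lit 5) (nat_lit 66828) (nat_lit 16) (node (nat_lit 10) (nat_lit 15229) (nat_lit 17) nil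
  nil) nil) (node (nat_lit 5) (nat_lit 61183) (nat_lit 15) nil nil)) nil) (node (nat_lit 7)
  (nat_lit 63190) (nat_lit 13) (node (nat_lit 5) (nat_lit 63190) (nat_lit 14) nil nil) nil)) (node
  (nat_lit 7) (nat_lit 63190) (nat_lit 12) (node (nat_lit 5) (nat_lit 63190) (nat_lit 13) (node
  (nat_lit 4) (nat_lit 63190) (nat_lit 14) nil nil) nil) nil)) (node (nat_lit 10) (nat_lit 64404)
  (nat_lit 11) nil nil)) (node (nat_lit 10) (nat_lit 66029) (nat_lit 10) nil nil))) (node (nat_lit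
  4) (nat_lit 60208) (nat_lit 9) (node (nat_lit 5) (nat_lit 60442) (nat_lit 10) (node (nat_lit 7)
  (nat_lit 60792) (nat_lit 11) (node (nat_lit 5) (nat_lit 60739) (nat_lit 12) (node (nat_lit 4)
  (nat_lit 60739) (nat_lit 13) nil nil) (node (nat_lit 4) (nat_lit 60915) (nat_lit 12) (node
  (nat_lit 7) (nat_lit 60915) (nat_lit 13) nil nil) nil)) (node (nat_lit 4) (nat_lit 61309)
  (nat_lit 11) (node (nat_lit 7) (nat_lit 62398) (nat_lit 12) (node (nat_lit 5) (nat_lit 62398)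
  (nat_lit 13) (node (nat_lit 7) (nat_lit 63190) (nat_lit 14) (node (nat_lit 4) (nat_lit 64130)
  (nat_lit 15) (node (nat_lit 5) (nat_lit 64375) (nat_lit 16) nil nil) nil) nil) (node (nat_lit 4)
  (nat_lit 62398) (nat_lit 13) (node (nat_lit 5) (nat_lit 63190) (nat_lit 14) nil nil) nil)) nil)
  nil)) (node (nat_lit 7) (nat_lit 62061) (nat_lit 10) (node (nat_lit 5) (nat_lit 62985) (nat_lit
  11) (node (nat_lit 4) (nat_lit 63190) (nat_lit 12) (node (nat_lit 5) (nat_lit 63190) (nat_lit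
  13) nil (node (nat_lit 7) (nat_lit 63190) (nat_lit 13) (node (nat_lit 4) (nat_lit 63190)
  (nat_lit 14) (node (nat_lit 5) (nat_lit 64610) (nat_lit 15) nil nil) nil) nil)) (node (nat_lit
  7) (nat_lit 63190) (nat_lit 12) (node (nat_lit 4) (nat_lit 63190) (nat_lit 13) (node (nat_lit 5)
  (nat_lit 63190) (nat_lit 14) (node (nat_lit 4) (nat_lit 64602) (nat_lit 15) (node (nat_lit 7)
  (nat_lit 64495) (nat_lit 16) nil nil) nil) nil) nil) nil)) nil) (node (nat_lit 10) (nat_lit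
  63270) (nat_lit 10) nil nil))) (node (nat_lit 10) (nat_lit 67617) (nat_lit 9) (node (nat_lit 5)
  (nat_lit 67617) (nat_lit 10) (node (nat_lit 7) (nat_lit 67617) (nat_lit 11) (node (nat_lit 5)
  (nat_lit 67617) (nat_lit 12) (node (nat_lit 4) (nat_lit 67617) (nat_lit 13) (node (nat_lit 7)
  (nat_lit 67617) (nat_lit 14) (node (nat_lit 4) (nat_lit 67617) (nat_lit 15) (node (nat_lit 5)
  (nat_lit 67852) (nat_lit 16) (node (nat_lit 4) (nat_lit 67285) (nat_lit 17) (node (nat_lit 7)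
  (nat_lit 67373) (nat_lit 18) nil nil) nil) nil) nil) nil) nil) nil) nil) (node (nat_lit 4)
  (nat_lit 67617) (nat_lit 10) nil nil)) (node (nat_lit 0) (nat_lit 60298) (nat_lit 9) nil nil))))
  (node (nat_lit 4) (nat_lit 0) (nat_lit 8) (node (nat_lit 7) (nat_lit 59862) (nat_lit 9) (node
  (nat_lit 5) (nat_lit 61838) (nat_lit 10) (node (nat_lit 4) (nat_lit 63190) (nat_lit 11) (node
  (nat_lit 7) (nat_lit 63190) (nat_lit 12) (node (nat_lit 4) (nat_lit 63190) (nat_lit 13) (node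
  (nat_lit 5) (nat_lit 63190) (nat_lit 14) (node (nat_lit 4) (nat_lit 64610) (nat_lit 15) (node
  (nat_lit 7) (nat_lit 64388) (nat_lit 16) nil nil) nil) nil) nil) (node (nat_lit 5) (nat_lit
  63190) (nat_lit 12) (node (nat_lit 7) (nat_lit 63190) (nat_lit 13) (node (nat_lit 4) (nat_lit
  63190) (nat_lit 14) (node (nat_lit 5) (nat_lit 66043) (nat_lit 15) (node (nat_lit 4) (nat_lit
  65317) (nat_lit 16) nil nil) nil) nil) nil) nil)) (node (nat_lit 7) (nat_lit 61801) (nat_lit 11)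
  (node (nat_lit 4) (nat_lit 61924) (nat_lit 12) (node (nat_lit 5) (nat_lit 61924) (nat_lit 13)
  (node (nat_lit 4) (nat_lit 61374) (nat_lit 14) (node (nat_lit 7) (nat_lit 61629) (nat_lit 15)
  (node (nat_lit 4) (nat_lit 60921) (nat_lit 16) (node (nat_lit 5) (nat_lit 60089) (nat_lit 17)
  (node (nat_lit 10) (nat_lit 7815) (nat_lit 18) nil nil) nil) nil) nil) nil) (node (nat_lit 7)
  (nat_lit 61924) (nat_lit 13) nil nil)) nil) nil)) (node (nat_lit 4) (nat_lit 60621) (nat_lit 10)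
  (node (nat_lit 5) (nat_lit 61568) (nat_lit 11) (node (nat_lit 7) (nat_lit 62337) (nat_lit 12)
  (node (nat_lit 5) (nat_lit 62337) (nat_lit 13) (node (nat_lit 4) (nat_lit 61787) (nat_lit 14)
  nil nil) (node (nat_lit 4) (nat_lit 62337) (nat_lit 13) nil nil)) (node (nat_lit 4) (nat_lit
  62072) (nat_lit 12) (node (nat_lit 7) (nat_lit 61477) (nat_lit 13) (node (nat_lit 5) (nat_lit
  60928) (nat_lit 14) nil nil) nil) nil)) nil) (node (nat_lit 10) (nat_lit 62925) (nat_lit 10) nil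
  nil))) (node (nat_lit 5) (nat_lit 0) (nat_lit 9) (node (nat_lit 4) (nat_lit 62133) (nat_lit 10)
  (node (nat_lit 7) (nat_lit 63190) (nat_lit 11) (node (nat_lit 5) (nat_lit 63190) (nat_lit 12)
  (node (nat_lit 7) (nat_lit 63190) (nat_lit 13) (node (nat_lit 4) (nat_lit 63190) (nat_lit 14)
  (node (nat_lit 7) (nat_lit 64062) (nat_lit 15) nil (node (nat_lit 5) (nat_lit 66767) (nat_lit
  15) (node (nat_lit 4) (nat_lit 66892) (nat_lit 16) nil nil) nil)) nil) (node (nat_lit 4)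
  (nat_lit 63190) (nat_lit 13) (node (nat_lit 5) (nat_lit 63190) (nat_lit 14) nil nil) nil)) (node
  (nat_lit 4) (nat_lit 63190) (nat_lit 12) (node (nat_lit 5) (nat_lit 63190) (nat_lit 13) (node
  (nat_lit 7) (nat_lit 63190) (nat_lit 14) nil nil) nil) nil)) (node (nat_lit 10) (nat_lit 64324)
  (nat_lit 11) nil nil)) (node (nat_lit 7) (nat_lit 61086) (nat_lit 10) (node (nat_lit 4) (nat_lit
  61953) (nat_lit 11) (node (nat_lit 5) (nat_lit 61953) (nat_lit 12) (node (nat_lit 4) (nat_lit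
  61953) (nat_lit 13) (node (nat_lit 7) (nat_lit 63082) (nat_lit 14) (node (nat_lit 4) (nat_lit
  63684) (nat_lit 15) (node (nat_lit 5) (nat_lit 63929) (nat_lit 16) nil nil) nil) nil) nil) (node
  (nat_lit 7) (nat_lit 61953) (nat_lit 12) (node (nat_lit 5) (nat_lit 61953) (nat_lit 13) nil nil)
  nil)) (node (nat_lit 5) (nat_lit 61086) (nat_lit 11) (node (nat_lit 4) (nat_lit 61086) (nat_lit
  12) (node (nat_lit 7) (nat_lit 61086) (nat_lit 13) nil nil) nil) nil)) (node (nat_lit 0)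
  (nat_lit 62343) (nat_lit 10) nil nil))) (node (nat_lit 10) (nat_lit 67431) (nat_lit 9) (node
  (nat_lit 5) (nat_lit 67431) (nat_lit 10) (node (nat_lit 4) (nat_lit 67431) (nat_lit 11) (node
  (nat_lit 5) (nat_lit 67431) (nat_lit 12) (node (nat_lit 7) (nat_lit 67431) (nat_lit 13) (node
  (nat_lit 4) (nat_lit 67431) (nat_lit 14) (node (nat_lit 5) (nat_lit 67431) (nat_lit 15) (node
  (nat_lit 4) (nat_lit 66706) (nat_lit 16) (node (nat_lit 7) (nat_lit 66774) (nat_lit 17) (node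
  (nat_lit 4) (nat_lit 66409) (nat_lit 18) (node (nat_lit 5) (nat_lit 66220) (nat_lit 19) (node
  (nat_lit 10) (nat_lit 66652) (nat_lit 20) nil nil) nil) nil) nil) nil) nil) nil) nil) nil) nil)
  (node (nat_lit 7) (nat_lit 67431) (nat_lit 10) nil nil)) (node (nat_lit 0) (nat_lit 60245)
  (nat_lit 9) nil nil)))) (node (nat_lit 5) (nat_lit 0) (nat_lit 8) (node (nat_lit 4) (nat_lit
  59977) (nat_lit 9) (node (nat_lit 5) (nat_lit 61559) (nat_lit 10) (node (nat_lit 7) (nat_lit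
  61559) (nat_lit 11) (node (nat_lit 4) (nat_lit 61559) (nat_lit 12) (node (nat_lit 5) (nat_lit
  61559) (nat_lit 13) (node (nat_lit 4) (nat_lit 61010) (nat_lit 14) (node (nat_lit 7) (nat_lit
  61264) (nat_lit 15) (node (nat_lit 4) (nat_lit 60557) (nat_lit 16) nil nil) nil) nil) (node
  (nat_lit 7) (nat_lit 61559) (nat_lit 13) nil nil)) (node (nat_lit 5) (nat_lit 61559) (nat_lit
  12) (node (nat_lit 4) (nat_lit 61559) (nat_lit 13) nil nil) nil)) (node (nat_lit 10) (nat_lit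
  65038) (nat_lit 11) nil nil)) (node (nat_lit 7) (nat_lit 61303) (nat_lit 10) (node (nat_lit 5)
  (nat_lit 61303) (nat_lit 11) (node (nat_lit 7) (nat_lit 61303) (nat_lit 12) (node (nat_lit 4)
  (nat_lit 61303) (nat_lit 13) (node (nat_lit 5) (nat_lit 62432) (nat_lit 14) (node (nat_lit 4)
  (nat_lit 61831) (nat_lit 15) (node (nat_lit 7) (nat_lit 61723) (nat_lit 16) nil nil) nil) nil)
  nil) (node (nat_lit 4) (nat_lit 61303) (nat_lit 12) nil nil)) (node (nat_lit 4) (nat_lit 61303)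
  (nat_lit 11) (node (nat_lit 5) (nat_lit 61303) (nat_lit 12) nil nil) nil)) (node (nat_lit 10)
  (nat_lit 63040) (nat_lit 10) nil nil))) (node (nat_lit 7) (nat_lit 60434) (nat_lit 9) (node
  (nat_lit 4) (nat_lit 62409) (nat_lit 10) (node (nat_lit 7) (nat_lit 62409) (nat_lit 11) (node
  (nat_lit 5) (nat_lit 62409) (nat_lit 12) (node (nat_lit 7) (nat_lit 62409) (nat_lit 13) (node
  (nat_lit 4) (nat_lit 63190) (nat_lit 14) (node (nat_lit 5) (nat_lit 64141) (nat_lit 15) nil nil)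
  nil) nil) nil) (node (nat_lit 5) (nat_lit 62409) (nat_lit 11) (node (nat_lit 4) (nat_lit 62409)
  (nat_lit 12) nil nil) nil)) (node (nat_lit 5) (nat_lit 62286) (nat_lit 10) (node (nat_lit 4)
  (nat_lit 62286) (nat_lit 11) (node (nat_lit 7) (nat_lit 62286) (nat_lit 12) (node (nat_lit 4)
  (nat_lit 62286) (nat_lit 13) (node (nat_lit 5) (nat_lit 63190) (nat_lit 14) (node (nat_lit 4)
  (nat_lit 62814) (nat_lit 15) nil nil) nil) (node (nat_lit 5) (nat_lit 62286) (nat_lit 13) nil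
  nil)) (node (nat_lit 5) (nat_lit 62286) (nat_lit 12) (node (nat_lit 7) (nat_lit 62286) (nat_lit
  13) nil nil) nil)) nil) (node (nat_lit 10) (nat_lit 62410) (nat_lit 10) nil nil))) (node
  (nat_lit 0) (nat_lit 65718) (nat_lit 9) nil nil))) (node (nat_lit 0) (nat_lit 0) (nat_lit 8)
  (node (nat_lit 10) (nat_lit 65664) (nat_lit 9) nil (node (nat_lit 5) (nat_lit 63282) (nat_lit 9)
  nil (node (nat_lit 7) (nat_lit 63282) (nat_lit 9) nil (node (nat_lit 4) (nat_lit 63282) (nat_lit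
  9) nil (node (nat_lit 0) (nat_lit 63885) (nat_lit 9) nil nil))))) nil)))) (node (nat_lit 7)
  (nat_lit 0) (nat_lit 7) (node (nat_lit 0) (nat_lit 0) (nat_lit 8) (node (nat_lit 7) (nat_lit 0)
  (nat_lit 9) (node (nat_lit 5) (nat_lit 65346) (nat_lit 10) (node (nat_lit 4) (nat_lit 65346)
  (nat_lit 11) (node (nat_lit 7) (nat_lit 65346) (nat_lit 12) (node (nat_lit 4) (nat_lit 65346)
  (nat_lit 13) (node (nat_lit 5) (nat_lit 65346) (nat_lit 14) (node (nat_lit 7) (nat_lit 65346)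
  (nat_lit 15) nil (node (nat_lit 4) (nat_lit 65346) (nat_lit 15) (node (nat_lit 7) (nat_lit
  65337) (nat_lit 16) nil nil) nil)) nil) (node (nat_lit 5) (nat_lit 65346) (nat_lit 13) (node
  (nat_lit 7) (nat_lit 65346) (nat_lit 14) nil nil) nil)) (node (nat_lit 5) (nat_lit 65346)
  (nat_lit 12) (node (nat_lit 7) (nat_lit 65346) (nat_lit 13) (node (nat_lit 4) (nat_lit 65346)
  (nat_lit 14) (node (nat_lit 5) (nat_lit 65346) (nat_lit 15) (node (nat_lit 4) (nat_lit 66587)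
  (nat_lit 16) (node (nat_lit 7) (nat_lit 66656) (nat_lit 17) nil nil) nil) nil) (node (nat_lit 5)
  (nat_lit 65346) (nat_lit 14) nil nil)) nil) (node (nat_lit 0) (nat_lit 67294) (nat_lit 12) nil
  nil))) (node (nat_lit 7) (nat_lit 65346) (nat_lit 11) (node (nat_lit 4) (nat_lit 65346) (nat_lit
  12) (node (nat_lit 5) (nat_lit 65346) (nat_lit 13) nil (node (nat_lit 7) (nat_lit 65346)
  (nat_lit 13) nil nil)) (node (nat_lit 11) (nat_lit 68273) (nat_lit 12) nil nil)) (node (nat_lit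
  11) (nat_lit 68077) (nat_lit 11) (node (nat_lit 7) (nat_lit 68077) (nat_lit 12) nil nil) (node
  (nat_lit 0) (nat_lit 68077) (nat_lit 11) nil nil)))) (node (nat_lit 4) (nat_lit 65346) (nat_lit
  10) (node (nat_lit 5) (nat_lit 65346) (nat_lit 11) (node (nat_lit 7) (nat_lit 65346) (nat_lit
  12) (node (nat_lit 5) (nat_lit 65346) (nat_lit 13) (node (nat_lit 4) (nat_lit 65346) (nat_lit
  14) nil nil) (node (nat_lit 4) (nat_lit 65346) (nat_lit 13) (node (nat_lit 7) (nat_lit 65346)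
  (nat_lit 14) nil nil) nil)) (node (nat_lit 4) (nat_lit 65346) (nat_lit 12) (node (nat_lit 7)
  (nat_lit 65346) (nat_lit 13) (node (nat_lit 4) (nat_lit 65346) (nat_lit 14) (node (nat_lit 5)
  (nat_lit 65346) (nat_lit 15) (node (nat_lit 7) (nat_lit 66026) (nat_lit 16) nil nil) nil) (node
  (nat_lit 5) (nat_lit 65346) (nat_lit 14) nil nil)) nil) (node (nat_lit 0) (nat_lit 67294)
  (nat_lit 12) nil nil))) (node (nat_lit 7) (nat_lit 65346) (nat_lit 11) (node (nat_lit 5)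
  (nat_lit 65346) (nat_lit 12) (node (nat_lit 7) (nat_lit 65346) (nat_lit 13) (node (nat_lit 4)
  (nat_lit 65346) (nat_lit 14) (node (nat_lit 5) (nat_lit 65346) (nat_lit 15) (node (nat_lit 4)
  (nat_lit 66892) (nat_lit 16) (node (nat_lit 7) (nat_lit 66960) (nat_lit 17) nil nil) nil) nil)
  nil) (node (nat_lit 4) (nat_lit 65346) (nat_lit 13) (node (nat_lit 5) (nat_lit 65346) (nat_lit
  14) nil (node (nat_lit 7) (nat_lit 65346) (nat_lit 14) nil nil)) nil)) (node (nat_lit 11)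
  (nat_lit 67294) (nat_lit 12) nil (node (nat_lit 0) (nat_lit 67294) (nat_lit 12) nil nil))) (node
  (nat_lit 11) (nat_lit 67858) (nat_lit 11) nil (node (nat_lit 0) (nat_lit 67858) (nat_lit 11) nil
  nil)))) (node (nat_lit 0) (nat_lit 67862) (nat_lit 10) (node (nat_lit 11) (nat_lit 68077)
  (nat_lit 11) nil (node (nat_lit 7) (nat_lit 67862) (nat_lit 11) nil nil)) nil))) (node (nat_lit
  5) (nat_lit 0) (nat_lit 9) (node (nat_lit 11) (nat_lit 67862) (nat_lit 10) (node (nat_lit 7)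
  (nat_lit 67862) (nat_lit 11) nil nil) (node (nat_lit 7) (nat_lit 65346) (nat_lit 10) (node
  (nat_lit 5) (nat_lit 65346) (nat_lit 11) nil nil) (node (nat_lit 4) (nat_lit 63911) (nat_lit 10)
  nil (node (nat_lit 0) (nat_lit 64759) (nat_lit 10) nil nil)))) (node (nat_lit 4) (nat_lit 63700)
  (nat_lit 9) (node (nat_lit 7) (nat_lit 65311) (nat_lit 10) nil (node (nat_lit 11) (nat_lit
  65625) (nat_lit 10) nil nil)) (node (nat_lit 0) (nat_lit 67617) (nat_lit 9) (node (nat_lit 7)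
  (nat_lit 67617) (nat_lit 10) nil (node (nat_lit 11) (nat_lit 67862) (nat_lit 10) nil nil))
  nil)))) (node (nat_lit 5) (nat_lit 0) (nat_lit 8) (node (nat_lit 0) (nat_lit 0) (nat_lit 9)
  (node (nat_lit 7) (nat_lit 64231) (nat_lit 10) (node (nat_lit 5) (nat_lit 64231) (nat_lit 11)
  (node (nat_lit 7) (nat_lit 64231) (nat_lit 12) (node (nat_lit 4) (nat_lit 64231) (nat_lit 13)
  (node (nat_lit 5) (nat_lit 64231) (nat_lit 14) (node (nat_lit 4) (nat_lit 64231) (nat_lit 15)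
  (node (nat_lit 7) (nat_lit 64231) (nat_lit 16) (node (nat_lit 4) (nat_lit 66936) (nat_lit 17)
  (node (nat_lit 5) (nat_lit 67592) (nat_lit 18) (node (nat_lit 7) (nat_lit 67890) (nat_lit 19)
  nil nil) nil) (node (nat_lit 5) (nat_lit 63417) (nat_lit 17) nil nil)) nil) (node (nat_lit 7)
  (nat_lit 64231) (nat_lit 15) (node (nat_lit 5) (nat_lit 64231) (nat_lit 16) nil nil) nil)) (node
  (nat_lit 7) (nat_lit 64231) (nat_lit 14) (node (nat_lit 5) (nat_lit 64231) (nat_lit 15) (node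
  (nat_lit 4) (nat_lit 64231) (nat_lit 16) nil nil) nil) nil)) (node (nat_lit 12) (nat_lit 67890)
  (nat_lit 13) nil (node (nat_lit 0) (nat_lit 67485) (nat_lit 13) nil nil))) (node (nat_lit 4)
  (nat_lit 64231) (nat_lit 12) (node (nat_lit 7) (nat_lit 64231) (nat_lit 13) (node (nat_lit 4)
  (nat_lit 64231) (nat_lit 14) (node (nat_lit 5) (nat_lit 64231) (nat_lit 15) (node (nat_lit 7)
  (nat_lit 64231) (nat_lit 16) nil (node (nat_lit 4) (nat_lit 64231) (nat_lit 16) (node (nat_lit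
  7) (nat_lit 64829) (nat_lit 17) nil nil) nil)) nil) (node (nat_lit 5) (nat_lit 64231) (nat_lit
  14) (node (nat_lit 7) (nat_lit 64231) (nat_lit 15) nil nil) nil)) (node (nat_lit 5) (nat_lit
  64231) (nat_lit 13) (node (nat_lit 7) (nat_lit 64231) (nat_lit 14) (node (nat_lit 4) (nat_lit
  64231) (nat_lit 15) (node (nat_lit 5) (nat_lit 64231) (nat_lit 16) (node (nat_lit 4) (nat_lit
  66305) (nat_lit 17) (node (nat_lit 7) (nat_lit 66692) (nat_lit 18) nil nil) nil) nil) (node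
  (nat_lit 5) (nat_lit 64231) (nat_lit 15) (node (nat_lit 4) (nat_lit 64231) (nat_lit 16) nil nil)
  nil)) nil) (node (nat_lit 12) (nat_lit 67485) (nat_lit 13) nil nil))) (node (nat_lit 0) (nat_lit
  66945) (nat_lit 12) nil nil))) (node (nat_lit 12) (nat_lit 66253) (nat_lit 11) nil nil)) (node
  (nat_lit 5) (nat_lit 64231) (nat_lit 10) (node (nat_lit 7) (nat_lit 64231) (nat_lit 11) (node
  (nat_lit 12) (nat_lit 66945) (nat_lit 12) nil nil) nil) (node (nat_lit 4) (nat_lit 64231)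
  (nat_lit 10) nil (node (nat_lit 0) (nat_lit 65367) (nat_lit 10) nil nil)))) nil) (node (nat_lit
  4) (nat_lit 0) (nat_lit 8) (node (nat_lit 0) (nat_lit 65800) (nat_lit 9) (node (nat_lit 7)
  (nat_lit 65800) (nat_lit 10) (node (nat_lit 4) (nat_lit 65800) (nat_lit 11) (node (nat_lit 5)
  (nat_lit 65800) (nat_lit 12) (node (nat_lit 7) (nat_lit 65800) (nat_lit 13) (node (nat_lit 5)
  (nat_lit 65800) (nat_lit 14) (node (nat_lit 4) (nat_lit 65800) (nat_lit 15) nil nil) (node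
  (nat_lit 4) (nat_lit 65800) (nat_lit 14) nil nil)) (node (nat_lit 4) (nat_lit 65800) (nat_lit
  13) (node (nat_lit 7) (nat_lit 65800) (nat_lit 14) nil nil) (node (nat_lit 12) (nat_lit 67890)
  (nat_lit 13) nil nil))) (node (nat_lit 7) (nat_lit 65800) (nat_lit 12) (node (nat_lit 5)
  (nat_lit 65800) (nat_lit 13) (node (nat_lit 4) (nat_lit 65800) (nat_lit 14) (node (nat_lit 5)
  (nat_lit 65800) (nat_lit 15) nil nil) (node (nat_lit 7) (nat_lit 65800) (nat_lit 14) nil nil))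
  (node (nat_lit 12) (nat_lit 67890) (nat_lit 13) nil (node (nat_lit 0) (nat_lit 67890) (nat_lit
  13) nil nil))) (node (nat_lit 0) (nat_lit 67592) (nat_lit 12) nil nil))) nil) (node (nat_lit 4)
  (nat_lit 65800) (nat_lit 10) nil nil)) nil) nil))) nil))

noncomputable def t215 : Tr :=
  (node (nat_lit 5) (nat_lit 0) (nat_lit 5) (node (nat_lit 7) (nat_lit 0) (nat_lit 6) t212 (node
  (nat_lit 4) (nat_lit 0) (nat_lit 6) t213 (node (nat_lit 0) (nat_lit 0) (nat_lit 6) (node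
  (nat_lit 7) (nat_lit 87531) (nat_lit 7) (node (nat_lit 4) (nat_lit 88541) (nat_lit 8) (node
  (nat_lit 5) (nat_lit 89019) (nat_lit 9) (node (nat_lit 7) (nat_lit 89019) (nat_lit 10) (node
  (nat_lit 5) (nat_lit 89019) (nat_lit 11) (node (nat_lit 4) (nat_lit 89019) (nat_lit 12) (node
  (nat_lit 7) (nat_lit 89372) (nat_lit 13) (node (nat_lit 4) (nat_lit 91361) (nat_lit 14) (node
  (nat_lit 5) (nat_lit 93287) (nat_lit 15) (node (nat_lit 4) (nat_lit 94541) (nat_lit 16) (node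
  (nat_lit 7) (nat_lit 94541) (nat_lit 17) nil nil) nil) nil) nil) (node (nat_lit 5) (nat_lit
  89019) (nat_lit 13) nil nil)) nil) (node (nat_lit 4) (nat_lit 89019) (nat_lit 11) (node (nat_lit
  7) (nat_lit 89019) (nat_lit 12) nil nil) nil)) (node (nat_lit 4) (nat_lit 89416) (nat_lit 10)
  (node (nat_lit 7) (nat_lit 89914) (nat_lit 11) (node (nat_lit 5) (nat_lit 90136) (nat_lit 12)
  (node (nat_lit 4) (nat_lit 90136) (nat_lit 13) nil (node (nat_lit 7) (nat_lit 90136) (nat_lit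
  13) nil nil)) (node (nat_lit 4) (nat_lit 89914) (nat_lit 12) (node (nat_lit 5) (nat_lit 89914)
  (nat_lit 13) nil nil) nil)) nil) (node (nat_lit 9) (nat_lit 92218) (nat_lit 10) nil nil))) (node
  (nat_lit 7) (nat_lit 88853) (nat_lit 9) (node (nat_lit 5) (nat_lit 88881) (nat_lit 10) (node
  (nat_lit 7) (nat_lit 88881) (nat_lit 11) (node (nat_lit 4) (nat_lit 88881) (nat_lit 12) (node
  (nat_lit 5) (nat_lit 88881) (nat_lit 13) (node (nat_lit 4) (nat_lit 93396) (nat_lit 14) (node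
  (nat_lit 7) (nat_lit 94634) (nat_lit 15) nil nil) nil) nil) nil) (node (nat_lit 4) (nat_lit
  88925) (nat_lit 11) (node (nat_lit 7) (nat_lit 88925) (nat_lit 12) (node (nat_lit 4) (nat_lit
  88571) (nat_lit 13) (node (nat_lit 5) (nat_lit 90923) (nat_lit 14) (node (nat_lit 4) (nat_lit
  92469) (nat_lit 15) (node (nat_lit 7) (nat_lit 92435) (nat_lit 16) (node (nat_lit 5) (nat_lit
  93250) (nat_lit 17) nil nil) nil) nil) nil) nil) nil) nil)) (node (nat_lit 9) (nat_lit 92052)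
  (nat_lit 10) nil nil)) (node (nat_lit 9) (nat_lit 94310) (nat_lit 9) nil nil))) (node (nat_lit
  5) (nat_lit 88748) (nat_lit 8) (node (nat_lit 4) (nat_lit 88506) (nat_lit 9) (node (nat_lit 7)
  (nat_lit 88492) (nat_lit 10) (node (nat_lit 4) (nat_lit 88535) (nat_lit 11) (node (nat_lit 5)
  (nat_lit 88220) (nat_lit 12) (node (nat_lit 7) (nat_lit 88220) (nat_lit 13) nil (node (nat_lit
  4) (nat_lit 88573) (nat_lit 13) (node (nat_lit 7) (nat_lit 88949) (nat_lit 14) (node (nat_lit 5)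
  (nat_lit 90264) (nat_lit 15) nil nil) nil) nil)) nil) (node (nat_lit 5) (nat_lit 88492) (nat_lit
  11) (node (nat_lit 7) (nat_lit 88492) (nat_lit 12) (node (nat_lit 4) (nat_lit 88492) (nat_lit
  13) (node (nat_lit 5) (nat_lit 90952) (nat_lit 14) (node (nat_lit 4) (nat_lit 93674) (nat_lit
  15) (node (nat_lit 7) (nat_lit 95877) (nat_lit 16) nil nil) nil) nil) nil) nil) nil)) (node
  (nat_lit 5) (nat_lit 88550) (nat_lit 10) (node (nat_lit 7) (nat_lit 88511) (nat_lit 11) (node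
  (nat_lit 4) (nat_lit 88196) (nat_lit 12) (node (nat_lit 5) (nat_lit 88304) (nat_lit 13) (node
  (nat_lit 4) (nat_lit 90522) (nat_lit 14) (node (nat_lit 7) (nat_lit 92450) (nat_lit 15) (node
  (nat_lit 5) (nat_lit 93886) (nat_lit 16) nil nil) nil) nil) (node (nat_lit 7) (nat_lit 88196)
  (nat_lit 13) (node (nat_lit 5) (nat_lit 85624) (nat_lit 14) nil nil) nil)) (node (nat_lit 5)
  (nat_lit 88511) (nat_lit 12) (node (nat_lit 4) (nat_lit 88511) (nat_lit 13) nil nil) nil)) nil)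
  (node (nat_lit 9) (nat_lit 91705) (nat_lit 10) nil nil))) (node (nat_lit 7) (nat_lit 89726)
  (nat_lit 9) (node (nat_lit 4) (nat_lit 89726) (nat_lit 10) (node (nat_lit 5) (nat_lit 89726)
  (nat_lit 11) (node (nat_lit 7) (nat_lit 89726) (nat_lit 12) nil nil) (node (nat_lit 7) (nat_lit
  89726) (nat_lit 11) nil nil)) (node (nat_lit 9) (nat_lit 92925) (nat_lit 10) nil nil)) nil))
  (node (nat_lit 9) (nat_lit 96556) (nat_lit 8) nil nil))) (node (nat_lit 5) (nat_lit 87496)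
  (nat_lit 7) (node (nat_lit 7) (nat_lit 88850) (nat_lit 8) (node (nat_lit 4) (nat_lit 89464)
  (nat_lit 9) (node (nat_lit 7) (nat_lit 89464) (nat_lit 10) (node (nat_lit 5) (nat_lit 89464)
  (nat_lit 11) (node (nat_lit 4) (nat_lit 89464) (nat_lit 12) (node (nat_lit 5) (nat_lit 89464)
  (nat_lit 13) (node (nat_lit 7) (nat_lit 92727) (nat_lit 14) nil nil) (node (nat_lit 7) (nat_lit
  89816) (nat_lit 13) (node (nat_lit 4) (nat_lit 91805) (nat_lit 14) nil nil) nil)) (node (nat_lit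
  7) (nat_lit 89464) (nat_lit 12) (node (nat_lit 4) (nat_lit 89464) (nat_lit 13) nil nil) nil))
  nil) (node (nat_lit 5) (nat_lit 89687) (nat_lit 10) (node (nat_lit 4) (nat_lit 89687) (nat_lit
  11) (node (nat_lit 7) (nat_lit 89687) (nat_lit 12) (node (nat_lit 5) (nat_lit 89687) (nat_lit
  13) (node (nat_lit 9) (nat_lit 28304) (nat_lit 14) nil nil) (node (nat_lit 4) (nat_lit 89687)
  (nat_lit 13) nil nil)) nil) (node (nat_lit 7) (nat_lit 89687) (nat_lit 11) (node (nat_lit 5)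
  (nat_lit 89687) (nat_lit 12) nil nil) nil)) nil)) (node (nat_lit 5) (nat_lit 89460) (nat_lit 9)
  (node (nat_lit 4) (nat_lit 89460) (nat_lit 10) (node (nat_lit 7) (nat_lit 89460) (nat_lit 11)
  (node (nat_lit 4) (nat_lit 89460) (nat_lit 12) (node (nat_lit 5) (nat_lit 89814) (nat_lit 13)
  (node (nat_lit 4) (nat_lit 92372) (nat_lit 14) (node (nat_lit 7) (nat_lit 92680) (nat_lit 15)
  (node (nat_lit 5) (nat_lit 93720) (nat_lit 16) nil nil) nil) nil) nil) (node (nat_lit 5)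
  (nat_lit 89460) (nat_lit 12) nil nil)) (node (nat_lit 5) (nat_lit 89460) (nat_lit 11) (node
  (nat_lit 7) (nat_lit 89460) (nat_lit 12) (node (nat_lit 4) (nat_lit 89460) (nat_lit 13) (node
  (nat_lit 5) (nat_lit 90993) (nat_lit 14) (node (nat_lit 4) (nat_lit 91842) (nat_lit 15) (node
  (nat_lit 7) (nat_lit 92807) (nat_lit 16) (node (nat_lit 5) (nat_lit 93917) (nat_lit 17) nil nil)
  nil) nil) nil) nil) nil) nil)) nil) (node (nat_lit 9) (nat_lit 91519) (nat_lit 9) nil nil)))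
  (node (nat_lit 4) (nat_lit 88533) (nat_lit 8) (node (nat_lit 7) (nat_lit 89401) (nat_lit 9)
  (node (nat_lit 4) (nat_lit 89949) (nat_lit 10) (node (nat_lit 5) (nat_lit 89949) (nat_lit 11)
  (node (nat_lit 7) (nat_lit 89949) (nat_lit 12) (node (nat_lit 5) (nat_lit 89949) (nat_lit 13)
  (node (nat_lit 4) (nat_lit 87377) (nat_lit 14) nil nil) (node (nat_lit 4) (nat_lit 89949)
  (nat_lit 13) (node (nat_lit 7) (nat_lit 91066) (nat_lit 14) nil nil) nil)) (node (nat_lit 4)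
  (nat_lit 89949) (nat_lit 12) (node (nat_lit 7) (nat_lit 89949) (nat_lit 13) (node (nat_lit 5)
  (nat_lit 93298) (nat_lit 14) nil nil) nil) nil)) nil) (node (nat_lit 5) (nat_lit 89027) (nat_lit
  10) (node (nat_lit 7) (nat_lit 89027) (nat_lit 11) (node (nat_lit 4) (nat_lit 89027) (nat_lit
  12) (node (nat_lit 5) (nat_lit 89027) (nat_lit 13) (node (nat_lit 4) (nat_lit 93533) (nat_lit
  14) (node (nat_lit 7) (nat_lit 94438) (nat_lit 15) nil nil) nil) (node (nat_lit 7) (nat_lit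
  89027) (nat_lit 13) (node (nat_lit 5) (nat_lit 86455) (nat_lit 14) nil nil) nil)) nil) (node
  (nat_lit 4) (nat_lit 89027) (nat_lit 11) (node (nat_lit 5) (nat_lit 89027) (nat_lit 12) nil nil)
  nil)) nil)) (node (nat_lit 5) (nat_lit 89435) (nat_lit 9) (node (nat_lit 7) (nat_lit 89435)
  (nat_lit 10) (node (nat_lit 4) (nat_lit 89435) (nat_lit 11) (node (nat_lit 5) (nat_lit 89435)
  (nat_lit 12) (node (nat_lit 4) (nat_lit 89435) (nat_lit 13) (node (nat_lit 7) (nat_lit 92837)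
  (nat_lit 14) (node (nat_lit 5) (nat_lit 94348) (nat_lit 15) nil nil) nil) nil) nil) (node
  (nat_lit 5) (nat_lit 89435) (nat_lit 11) nil nil)) nil) (node (nat_lit 9) (nat_lit 94302)
  (nat_lit 9) nil nil))) nil)) (node (nat_lit 4) (nat_lit 87344) (nat_lit 7) (node (nat_lit 7)
  (nat_lit 88541) (nat_lit 8) (node (nat_lit 5) (nat_lit 88983) (nat_lit 9) (node (nat_lit 4)
  (nat_lit 89309) (nat_lit 10) (node (nat_lit 5) (nat_lit 89309) (nat_lit 11) (node (nat_lit 7)
  (nat_lit 89309) (nat_lit 12) (node (nat_lit 4) (nat_lit 89309) (nat_lit 13) (node (nat_lit 5)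
  (nat_lit 91153) (nat_lit 14) (node (nat_lit 4) (nat_lit 92001) (nat_lit 15) (node (nat_lit 7)
  (nat_lit 92968) (nat_lit 16) nil nil) nil) (node (nat_lit 7) (nat_lit 90425) (nat_lit 14) nil
  nil)) (node (nat_lit 5) (nat_lit 89309) (nat_lit 13) nil nil)) nil) (node (nat_lit 7) (nat_lit
  89309) (nat_lit 11) (node (nat_lit 4) (nat_lit 89309) (nat_lit 12) (node (nat_lit 5) (nat_lit
  89661) (nat_lit 13) (node (nat_lit 4) (nat_lit 92220) (nat_lit 14) nil nil) nil) nil) nil))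
  (node (nat_lit 7) (nat_lit 88969) (nat_lit 10) (node (nat_lit 4) (nat_lit 88969) (nat_lit 11)
  (node (nat_lit 5) (nat_lit 88969) (nat_lit 12) (node (nat_lit 4) (nat_lit 89322) (nat_lit 13)
  (node (nat_lit 7) (nat_lit 93780) (nat_lit 14) (node (nat_lit 5) (nat_lit 95299) (nat_lit 15)
  nil (node (nat_lit 4) (nat_lit 95087) (nat_lit 15) nil nil)) nil) (node (nat_lit 7) (nat_lit
  88969) (nat_lit 13) nil nil)) (node (nat_lit 7) (nat_lit 88969) (nat_lit 12) (node (nat_lit 5)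
  (nat_lit 88969) (nat_lit 13) nil nil) nil)) nil) nil)) (node (nat_lit 4) (nat_lit 89297)
  (nat_lit 9) (node (nat_lit 5) (nat_lit 89297) (nat_lit 10) (node (nat_lit 7) (nat_lit 89297)
  (nat_lit 11) (node (nat_lit 4) (nat_lit 89297) (nat_lit 12) nil nil) (node (nat_lit 4) (nat_lit
  89297) (nat_lit 11) nil nil)) (node (nat_lit 9) (nat_lit 92496) (nat_lit 10) nil nil)) (node
  (nat_lit 9) (nat_lit 94310) (nat_lit 9) nil nil))) (node (nat_lit 5) (nat_lit 88455) (nat_lit 8)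
  (node (nat_lit 7) (nat_lit 88662) (nat_lit 9) (node (nat_lit 5) (nat_lit 88662) (nat_lit 10)
  (node (nat_lit 4) (nat_lit 88662) (nat_lit 11) (node (nat_lit 7) (nat_lit 88662) (nat_lit 12)
  (node (nat_lit 4) (nat_lit 88309) (nat_lit 13) (node (nat_lit 5) (nat_lit 90661) (nat_lit 14)
  (node (nat_lit 4) (nat_lit 92207) (nat_lit 15) (node (nat_lit 7) (nat_lit 92173) (nat_lit 16)
  (node (nat_lit 5) (nat_lit 92988) (nat_lit 17) nil nil) nil) nil) nil) (node (nat_lit 5)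
  (nat_lit 88662) (nat_lit 13) nil nil)) (node (nat_lit 5) (nat_lit 88662) (nat_lit 12) (node
  (nat_lit 7) (nat_lit 88662) (nat_lit 13) nil nil) nil)) nil) (node (nat_lit 4) (nat_lit 88662)
  (nat_lit 10) (node (nat_lit 7) (nat_lit 88662) (nat_lit 11) (node (nat_lit 5) (nat_lit 88662)
  (nat_lit 12) (node (nat_lit 4) (nat_lit 88662) (nat_lit 13) nil (node (nat_lit 7) (nat_lit
  88662) (nat_lit 13) (node (nat_lit 4) (nat_lit 92715) (nat_lit 14) nil nil) nil)) nil) (node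
  (nat_lit 5) (nat_lit 88662) (nat_lit 11) (node (nat_lit 4) (nat_lit 88662) (nat_lit 12) (node
  (nat_lit 7) (nat_lit 88443) (nat_lit 13) (node (nat_lit 5) (nat_lit 91711) (nat_lit 14) nil nil)
  nil) nil) nil)) (node (nat_lit 9) (nat_lit 91861) (nat_lit 10) nil nil))) (node (nat_lit 4)
  (nat_lit 88977) (nat_lit 9) (node (nat_lit 7) (nat_lit 88977) (nat_lit 10) (node (nat_lit 5)
  (nat_lit 88977) (nat_lit 11) (node (nat_lit 4) (nat_lit 88977) (nat_lit 12) nil nil) (node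
  (nat_lit 4) (nat_lit 88977) (nat_lit 11) nil nil)) (node (nat_lit 9) (nat_lit 92176) (nat_lit
  10) nil nil)) (node (nat_lit 9) (nat_lit 94224) (nat_lit 9) nil nil))) (node (nat_lit 9)
  (nat_lit 97258) (nat_lit 8) (node (nat_lit 5) (nat_lit 97258) (nat_lit 9) nil (node (nat_lit 7)
  (nat_lit 97258) (nat_lit 9) nil nil)) nil))) (node (nat_lit 0) (nat_lit 95721) (nat_lit 7) nil
  nil)))) nil))) (node (nat_lit 4) (nat_lit 0) (nat_lit 5) (node (nat_lit 5) (nat_lit 0) (nat_lit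
  6) t214 (node (nat_lit 0) (nat_lit 0) (nat_lit 6) (node (nat_lit 7) (nat_lit 49847) (nat_lit 7)
  (node (nat_lit 5) (nat_lit 53588) (nat_lit 8) (node (nat_lit 4) (nat_lit 55676) (nat_lit 9)
  (node (nat_lit 7) (nat_lit 58114) (nat_lit 10) (node (nat_lit 4) (nat_lit 60064) (nat_lit 11)
  (node (nat_lit 5) (nat_lit 60668) (nat_lit 12) (node (nat_lit 7) (nat_lit 60668) (nat_lit 13)
  nil (node (nat_lit 4) (nat_lit 60668) (nat_lit 13) (node (nat_lit 7) (nat_lit 60305) (nat_lit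
  14) nil nil) nil)) nil) (node (nat_lit 5) (nat_lit 59196) (nat_lit 11) (node (nat_lit 7)
  (nat_lit 60383) (nat_lit 12) (node (nat_lit 4) (nat_lit 60668) (nat_lit 13) (node (nat_lit 5)
  (nat_lit 62889) (nat_lit 14) (node (nat_lit 4) (nat_lit 62287) (nat_lit 15) (node (nat_lit 7)
  (nat_lit 62180) (nat_lit 16) nil nil) nil) nil) nil) nil) nil)) (node (nat_lit 5) (nat_lit
  58433) (nat_lit 10) (node (nat_lit 7) (nat_lit 60668) (nat_lit 11) (node (nat_lit 4) (nat_lit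
  60668) (nat_lit 12) (node (nat_lit 7) (nat_lit 60668) (nat_lit 13) nil (node (nat_lit 5)
  (nat_lit 60668) (nat_lit 13) (node (nat_lit 4) (nat_lit 63099) (nat_lit 14) (node (nat_lit 7)
  (nat_lit 64305) (nat_lit 15) nil nil) nil) nil)) (node (nat_lit 5) (nat_lit 60668) (nat_lit 12)
  (node (nat_lit 4) (nat_lit 60413) (nat_lit 13) nil nil) nil)) nil) nil)) (node (nat_lit 7)
  (nat_lit 56841) (nat_lit 9) (node (nat_lit 4) (nat_lit 56841) (nat_lit 10) (node (nat_lit 5)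
  (nat_lit 56841) (nat_lit 11) (node (nat_lit 4) (nat_lit 56841) (nat_lit 12) (node (nat_lit 7)
  (nat_lit 58218) (nat_lit 13) (node (nat_lit 4) (nat_lit 59347) (nat_lit 14) nil nil) nil) nil)
  (node (nat_lit 7) (nat_lit 56841) (nat_lit 11) nil nil)) nil) (node (nat_lit 9) (nat_lit 56696)
  (nat_lit 9) nil nil))) (node (nat_lit 4) (nat_lit 53199) (nat_lit 8) (node (nat_lit 5) (nat_lit
  57557) (nat_lit 9) (node (nat_lit 7) (nat_lit 58485) (nat_lit 10) (node (nat_lit 5) (nat_lit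
  58361) (nat_lit 11) (node (nat_lit 4) (nat_lit 57913) (nat_lit 12) (node (nat_lit 7) (nat_lit
  59290) (nat_lit 13) (node (nat_lit 4) (nat_lit 60419) (nat_lit 14) (node (nat_lit 5) (nat_lit
  61022) (nat_lit 15) (node (nat_lit 4) (nat_lit 60296) (nat_lit 16) (node (nat_lit 7) (nat_lit
  60365) (nat_lit 17) nil nil) nil) nil) nil) (node (nat_lit 5) (nat_lit 56940) (nat_lit 13) nil
  nil)) nil) (node (nat_lit 4) (nat_lit 58451) (nat_lit 11) (node (nat_lit 7) (nat_lit 58003)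
  (nat_lit 12) (node (nat_lit 5) (nat_lit 57030) (nat_lit 13) nil nil) nil) nil)) (node (nat_lit
  4) (nat_lit 60335) (nat_lit 10) (node (nat_lit 7) (nat_lit 60668) (nat_lit 11) (node (nat_lit 5)
  (nat_lit 60668) (nat_lit 12) (node (nat_lit 7) (nat_lit 60668) (nat_lit 13) nil (node (nat_lit
  4) (nat_lit 60668) (nat_lit 13) nil nil)) (node (nat_lit 4) (nat_lit 60668) (nat_lit 12) (node
  (nat_lit 5) (nat_lit 60668) (nat_lit 13) nil nil) nil)) nil) nil)) (node (nat_lit 7) (nat_lit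
  57040) (nat_lit 9) (node (nat_lit 5) (nat_lit 57040) (nat_lit 10) (node (nat_lit 7) (nat_lit
  57040) (nat_lit 11) (node (nat_lit 4) (nat_lit 57040) (nat_lit 12) (node (nat_lit 5) (nat_lit
  58417) (nat_lit 13) (node (nat_lit 4) (nat_lit 57868) (nat_lit 14) (node (nat_lit 7) (nat_lit
  58122) (nat_lit 15) (node (nat_lit 4) (nat_lit 57415) (nat_lit 16) nil nil) nil) nil) nil) nil)
  (node (nat_lit 4) (nat_lit 57040) (nat_lit 11) (node (nat_lit 7) (nat_lit 57040) (nat_lit 12)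
  (node (nat_lit 4) (nat_lit 58417) (nat_lit 13) (node (nat_lit 5) (nat_lit 59546) (nat_lit 14)
  nil nil) nil) nil) nil)) (node (nat_lit 9) (nat_lit 60394) (nat_lit 10) nil nil)) nil)) (node
  (nat_lit 9) (nat_lit 63906) (nat_lit 8) (node (nat_lit 4) (nat_lit 63906) (nat_lit 9) nil (node
  (nat_lit 5) (nat_lit 63906) (nat_lit 9) nil nil)) nil))) (node (nat_lit 5) (nat_lit 50476)
  (nat_lit 7) (node (nat_lit 4) (nat_lit 53852) (nat_lit 8) (node (nat_lit 7) (nat_lit 56426)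
  (nat_lit 9) (node (nat_lit 5) (nat_lit 57984) (nat_lit 10) (node (nat_lit 7) (nat_lit 59028)
  (nat_lit 11) (node (nat_lit 4) (nat_lit 59783) (nat_lit 12) (node (nat_lit 5) (nat_lit 60668)
  (nat_lit 13) (node (nat_lit 4) (nat_lit 60610) (nat_lit 14) (node (nat_lit 7) (nat_lit 60865)
  (nat_lit 15) (node (nat_lit 4) (nat_lit 60157) (nat_lit 16) nil nil) nil) nil) (node (nat_lit 7)
  (nat_lit 60668) (nat_lit 13) nil nil)) nil) (node (nat_lit 4) (nat_lit 57984) (nat_lit 11) (node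
  (nat_lit 5) (nat_lit 57984) (nat_lit 12) nil nil) nil)) (node (nat_lit 4) (nat_lit 58756)
  (nat_lit 10) (node (nat_lit 5) (nat_lit 60438) (nat_lit 11) (node (nat_lit 7) (nat_lit 60668)
  (nat_lit 12) (node (nat_lit 5) (nat_lit 60668) (nat_lit 13) nil (node (nat_lit 4) (nat_lit
  60668) (nat_lit 13) nil nil)) (node (nat_lit 4) (nat_lit 60668) (nat_lit 12) (node (nat_lit 7)
  (nat_lit 60668) (nat_lit 13) nil nil) nil)) nil) (node (nat_lit 9) (nat_lit 59779) (nat_lit 10)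
  nil nil))) (node (nat_lit 5) (nat_lit 56857) (nat_lit 9) (node (nat_lit 7) (nat_lit 58343)
  (nat_lit 10) (node (nat_lit 4) (nat_lit 58311) (nat_lit 11) (node (nat_lit 7) (nat_lit 58311)
  (nat_lit 12) nil (node (nat_lit 5) (nat_lit 59497) (nat_lit 12) (node (nat_lit 4) (nat_lit
  58523) (nat_lit 13) (node (nat_lit 7) (nat_lit 59158) (nat_lit 14) (node (nat_lit 4) (nat_lit
  58264) (nat_lit 15) nil nil) nil) nil) nil)) (node (nat_lit 5) (nat_lit 58343) (nat_lit 11) nil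
  nil)) (node (nat_lit 9) (nat_lit 60210) (nat_lit 10) nil nil)) (node (nat_lit 9) (nat_lit 56961)
  (nat_lit 9) nil nil))) (node (nat_lit 7) (nat_lit 54017) (nat_lit 8) (node (nat_lit 4) (nat_lit
  57493) (nat_lit 9) (node (nat_lit 7) (nat_lit 59913) (nat_lit 10) (node (nat_lit 5) (nat_lit
  60668) (nat_lit 11) (node (nat_lit 4) (nat_lit 60668) (nat_lit 12) (node (nat_lit 5) (nat_lit
  60668) (nat_lit 13) (node (nat_lit 7) (nat_lit 63725) (nat_lit 14) nil nil) (node (nat_lit 7)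
  (nat_lit 60668) (nat_lit 13) (node (nat_lit 4) (nat_lit 62487) (nat_lit 14) nil nil) nil)) (node
  (nat_lit 7) (nat_lit 60668) (nat_lit 12) (node (nat_lit 4) (nat_lit 60668) (nat_lit 13) (node
  (nat_lit 5) (nat_lit 64704) (nat_lit 14) nil nil) nil) nil)) nil) (node (nat_lit 5) (nat_lit
  59600) (nat_lit 10) (node (nat_lit 4) (nat_lit 60668) (nat_lit 11) (node (nat_lit 7) (nat_lit
  60668) (nat_lit 12) (node (nat_lit 4) (nat_lit 60668) (nat_lit 13) (node (nat_lit 5) (nat_lit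
  62487) (nat_lit 14) nil nil) (node (nat_lit 5) (nat_lit 60668) (nat_lit 13) nil nil)) nil) (node
  (nat_lit 7) (nat_lit 60668) (nat_lit 11) (node (nat_lit 5) (nat_lit 60668) (nat_lit 12) (node
  (nat_lit 4) (nat_lit 60668) (nat_lit 13) nil nil) nil) nil)) (node (nat_lit 9) (nat_lit 60847)
  (nat_lit 10) nil nil))) (node (nat_lit 5) (nat_lit 57051) (nat_lit 9) (node (nat_lit 4) (nat_lit
  57051) (nat_lit 10) (node (nat_lit 7) (nat_lit 57051) (nat_lit 11) nil nil) (node (nat_lit 9)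
  (nat_lit 60405) (nat_lit 10) nil nil)) (node (nat_lit 9) (nat_lit 59173) (nat_lit 9) nil nil)))
  (node (nat_lit 9) (nat_lit 63906) (nat_lit 8) (node (nat_lit 7) (nat_lit 63906) (nat_lit 9) nil
  (node (nat_lit 4) (nat_lit 63906) (nat_lit 9) nil nil)) nil))) (node (nat_lit 4) (nat_lit 49673)
  (nat_lit 7) (node (nat_lit 7) (nat_lit 53060) (nat_lit 8) (node (nat_lit 5) (nat_lit 57564)
  (nat_lit 9) (node (nat_lit 4) (nat_lit 59949) (nat_lit 10) (node (nat_lit 5) (nat_lit 60668)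
  (nat_lit 11) (node (nat_lit 7) (nat_lit 60668) (nat_lit 12) (node (nat_lit 4) (nat_lit 60668)
  (nat_lit 13) (node (nat_lit 5) (nat_lit 64437) (nat_lit 14) (node (nat_lit 4) (nat_lit 65457)
  (nat_lit 15) (node (nat_lit 7) (nat_lit 65350) (nat_lit 16) nil nil) nil) nil) (node (nat_lit 5)
  (nat_lit 60668) (nat_lit 13) nil nil)) nil) (node (nat_lit 7) (nat_lit 60668) (nat_lit 11) (node
  (nat_lit 4) (nat_lit 60668) (nat_lit 12) (node (nat_lit 5) (nat_lit 60668) (nat_lit 13) (node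
  (nat_lit 4) (nat_lit 61860) (nat_lit 14) nil nil) nil) nil) nil)) (node (nat_lit 7) (nat_lit
  60145) (nat_lit 10) (node (nat_lit 4) (nat_lit 60668) (nat_lit 11) (node (nat_lit 5) (nat_lit
  60668) (nat_lit 12) (node (nat_lit 4) (nat_lit 60668) (nat_lit 13) (node (nat_lit 7) (nat_lit
  63672) (nat_lit 14) (node (nat_lit 4) (nat_lit 62777) (nat_lit 15) nil nil) nil) (node (nat_lit
  7) (nat_lit 60668) (nat_lit 13) nil nil)) (node (nat_lit 7) (nat_lit 60668) (nat_lit 12) (node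
  (nat_lit 5) (nat_lit 60668) (nat_lit 13) nil nil) nil)) nil) nil)) (node (nat_lit 4) (nat_lit
  55785) (nat_lit 9) (node (nat_lit 5) (nat_lit 55785) (nat_lit 10) (node (nat_lit 7) (nat_lit
  55785) (nat_lit 11) (node (nat_lit 4) (nat_lit 55785) (nat_lit 12) (node (nat_lit 7) (nat_lit
  57161) (nat_lit 13) (node (nat_lit 5) (nat_lit 56612) (nat_lit 14) (node (nat_lit 7) (nat_lit
  56867) (nat_lit 15) (node (nat_lit 4) (nat_lit 56159) (nat_lit 16) (node (nat_lit 5) (nat_lit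
  55327) (nat_lit 17) (node (nat_lit 4) (nat_lit 52690) (nat_lit 18) (node (nat_lit 7) (nat_lit
  49895) (nat_lit 19) (node (nat_lit 4) (nat_lit 44516) (nat_lit 20) nil nil) nil) nil) nil) nil)
  nil) nil) nil) nil) nil) nil) (node (nat_lit 9) (nat_lit 58217) (nat_lit 9) nil nil))) (node
  (nat_lit 5) (nat_lit 53523) (nat_lit 8) (node (nat_lit 7) (nat_lit 57626) (nat_lit 9) (node
  (nat_lit 4) (nat_lit 60263) (nat_lit 10) (node (nat_lit 7) (nat_lit 60668) (nat_lit 11) (node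
  (nat_lit 5) (nat_lit 60668) (nat_lit 12) (node (nat_lit 4) (nat_lit 60668) (nat_lit 13) nil
  (node (nat_lit 7) (nat_lit 60668) (nat_lit 13) (node (nat_lit 4) (nat_lit 64260) (nat_lit 14)
  nil nil) nil)) nil) (node (nat_lit 5) (nat_lit 60263) (nat_lit 11) (node (nat_lit 4) (nat_lit
  60263) (nat_lit 12) nil nil) nil)) (node (nat_lit 5) (nat_lit 60475) (nat_lit 10) (node (nat_lit
  4) (nat_lit 60668) (nat_lit 11) (node (nat_lit 7) (nat_lit 60668) (nat_lit 12) (node (nat_lit 4)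
  (nat_lit 60668) (nat_lit 13) (node (nat_lit 5) (nat_lit 62487) (nat_lit 14) (node (nat_lit 4)
  (nat_lit 63906) (nat_lit 15) (node (nat_lit 7) (nat_lit 63685) (nat_lit 16) nil nil) nil) nil)
  (node (nat_lit 5) (nat_lit 60668) (nat_lit 13) nil nil)) (node (nat_lit 5) (nat_lit 60668)
  (nat_lit 12) (node (nat_lit 7) (nat_lit 60732) (nat_lit 13) (node (nat_lit 4) (nat_lit 62728)
  (nat_lit 14) nil nil) nil) nil)) nil) nil)) (node (nat_lit 4) (nat_lit 57191) (nat_lit 9) (node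
  (nat_lit 7) (nat_lit 57191) (nat_lit 10) (node (nat_lit 5) (nat_lit 57191) (nat_lit 11) (node
  (nat_lit 4) (nat_lit 57191) (nat_lit 12) nil nil) nil) nil) (node (nat_lit 9) (nat_lit 56631)
  (nat_lit 9) nil nil))) nil)) (node (nat_lit 0) (nat_lit 57240) (nat_lit 7) nil nil)))) nil))
  nil))

noncomputable def c59 : Tr :=
  (node (nat_lit 3) (nat_lit 0) (nat_lit 1) (node (nat_lit 3) (nat_lit 0) (nat_lit 2) (node
  (nat_lit 3) (nat_lit 0) (nat_lit 3) (node (nat_lit 4) (nat_lit 0) (nat_lit 4) t209 (node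
  (nat_lit 5) (nat_lit 0) (nat_lit 4) (node (nat_lit 4) (nat_lit 0) (nat_lit 5) (node (nat_lit 6)
  (nat_lit 0) (nat_lit 6) t210 t211) nil) nil)) (node (nat_lit 4) (nat_lit 0) (nat_lit 3) (node
  (nat_lit 3) (nat_lit 0) (nat_lit 4) t215 nil) nil)) nil) nil)

noncomputable def t251 : Tr :=
  (node (nat_lit 5) (nat_lit 0) (nat_lit 5) (node (nat_lit 7) (nat_lit 0) (nat_lit 6) (node
  (nat_lit 6) (nat_lit 99722) (nat_lit 7) (node (nat_lit 5) (nat_lit 99722) (nat_lit 8) (node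
  (nat_lit 6) (nat_lit 99722) (nat_lit 9) (node (nat_lit 4) (nat_lit 99722) (nat_lit 10) (node
  (nat_lit 5) (nat_lit 99722) (nat_lit 11) (node (nat_lit 6) (nat_lit 99722) (nat_lit 12) (node
  (nat_lit 5) (nat_lit 99522) (nat_lit 13) (node (nat_lit 4) (nat_lit 101800) (nat_lit 14) (node
  (nat_lit 5) (nat_lit 102763) (nat_lit 15) (node (nat_lit 6) (nat_lit 103515) (nat_lit 16) (node
  (nat_lit 7) (nat_lit 105222) (nat_lit 17) nil nil) nil) (node (nat_lit 6) (nat_lit 99821)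
  (nat_lit 15) nil nil)) nil) nil) (node (nat_lit 4) (nat_lit 99722) (nat_lit 12) (node (nat_lit
  6) (nat_lit 99767) (nat_lit 13) (node (nat_lit 4) (nat_lit 101781) (nat_lit 14) (node (nat_lit
  5) (nat_lit 103332) (nat_lit 15) (node (nat_lit 6) (nat_lit 103322) (nat_lit 16) nil nil) nil)
  (node (nat_lit 5) (nat_lit 101755) (nat_lit 14) nil nil)) nil) nil)) (node (nat_lit 6) (nat_lit
  99722) (nat_lit 11) (node (nat_lit 5) (nat_lit 99722) (nat_lit 12) (node (nat_lit 4) (nat_lit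
  99812) (nat_lit 13) (node (nat_lit 5) (nat_lit 101047) (nat_lit 14) (node (nat_lit 6) (nat_lit
  102010) (nat_lit 15) nil nil) (node (nat_lit 6) (nat_lit 101047) (nat_lit 14) nil nil)) nil)
  nil) (node (nat_lit 0) (nat_lit 103719) (nat_lit 11) nil (node (nat_lit 7) (nat_lit 103719)
  (nat_lit 11) nil nil)))) (node (nat_lit 7) (nat_lit 105312) (nat_lit 10) nil (node (nat_lit 0)
  (nat_lit 103261) (nat_lit 10) nil nil))) (node (nat_lit 4) (nat_lit 99722) (nat_lit 9) (node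
  (nat_lit 6) (nat_lit 99722) (nat_lit 10) (node (nat_lit 4) (nat_lit 99722) (nat_lit 11) (node
  (nat_lit 5) (nat_lit 99722) (nat_lit 12) (node (nat_lit 4) (nat_lit 99722) (nat_lit 13) nil
  (node (nat_lit 6) (nat_lit 99722) (nat_lit 13) nil nil)) nil) (node (nat_lit 5) (nat_lit 99722)
  (nat_lit 11) (node (nat_lit 6) (nat_lit 99722) (nat_lit 12) nil nil) nil)) (node (nat_lit 5)
  (nat_lit 99722) (nat_lit 10) (node (nat_lit 6) (nat_lit 99722) (nat_lit 11) (node (nat_lit 4)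
  (nat_lit 99722) (nat_lit 12) nil (node (nat_lit 5) (nat_lit 99722) (nat_lit 12) (node (nat_lit
  4) (nat_lit 99722) (nat_lit 13) (node (nat_lit 6) (nat_lit 100957) (nat_lit 14) nil nil) nil)
  nil)) nil) (node (nat_lit 7) (nat_lit 103261) (nat_lit 10) nil (node (nat_lit 0) (nat_lit
  103261) (nat_lit 10) nil nil)))) (node (nat_lit 0) (nat_lit 104471) (nat_lit 9) nil nil))) (node
  (nat_lit 4) (nat_lit 99722) (nat_lit 8) (node (nat_lit 5) (nat_lit 99722) (nat_lit 9) (node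
  (nat_lit 6) (nat_lit 99722) (nat_lit 10) nil nil) (node (nat_lit 6) (nat_lit 99722) (nat_lit 9)
  nil (node (nat_lit 7) (nat_lit 102673) (nat_lit 9) nil nil))) (node (nat_lit 7) (nat_lit 103349)
  (nat_lit 8) (node (nat_lit 5) (nat_lit 103349) (nat_lit 9) nil (node (nat_lit 4) (nat_lit
  103349) (nat_lit 9) nil nil)) (node (nat_lit 0) (nat_lit 103349) (nat_lit 8) nil nil)))) (node
  (nat_lit 4) (nat_lit 99722) (nat_lit 7) (node (nat_lit 5) (nat_lit 99722) (nat_lit 8) (node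
  (nat_lit 4) (nat_lit 99722) (nat_lit 9) (node (nat_lit 6) (nat_lit 99722) (nat_lit 10) (node
  (nat_lit 5) (nat_lit 99722) (nat_lit 11) (node (nat_lit 6) (nat_lit 99722) (nat_lit 12) (node
  (nat_lit 4) (nat_lit 99722) (nat_lit 13) (node (nat_lit 5) (nat_lit 100876) (nat_lit 14) nil
  nil) nil) (node (nat_lit 4) (nat_lit 99722) (nat_lit 12) nil nil)) (node (nat_lit 4) (nat_lit
  99722) (nat_lit 11) nil nil)) (node (nat_lit 7) (nat_lit 103261) (nat_lit 10) nil (node (nat_lit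
  0) (nat_lit 103261) (nat_lit 10) nil nil))) (node (nat_lit 6) (nat_lit 99722) (nat_lit 9) (node
  (nat_lit 4) (nat_lit 99722) (nat_lit 10) (node (nat_lit 6) (nat_lit 99722) (nat_lit 11) nil
  (node (nat_lit 5) (nat_lit 99722) (nat_lit 11) nil nil)) (node (nat_lit 5) (nat_lit 99722)
  (nat_lit 10) (node (nat_lit 4) (nat_lit 99722) (nat_lit 11) (node (nat_lit 5) (nat_lit 99722)
  (nat_lit 12) nil (node (nat_lit 6) (nat_lit 99722) (nat_lit 12) nil nil)) nil) nil)) (node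
  (nat_lit 0) (nat_lit 102673) (nat_lit 9) nil nil))) (node (nat_lit 6) (nat_lit 99722) (nat_lit
  8) nil (node (nat_lit 7) (nat_lit 101920) (nat_lit 8) nil nil))) (node (nat_lit 0) (nat_lit
  101800) (nat_lit 7) nil nil))) (node (nat_lit 4) (nat_lit 0) (nat_lit 6) (node (nat_lit 6)
  (nat_lit 79763) (nat_lit 7) (node (nat_lit 5) (nat_lit 80135) (nat_lit 8) (node (nat_lit 4)
  (nat_lit 80135) (nat_lit 9) (node (nat_lit 5) (nat_lit 80135) (nat_lit 10) (node (nat_lit 6)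
  (nat_lit 80135) (nat_lit 11) (node (nat_lit 5) (nat_lit 86891) (nat_lit 12) (node (nat_lit 4)
  (nat_lit 90749) (nat_lit 13) (node (nat_lit 6) (nat_lit 90803) (nat_lit 14) (node (nat_lit 4)
  (nat_lit 90893) (nat_lit 15) (node (nat_lit 5) (nat_lit 90120) (nat_lit 16) nil nil) nil) nil)
  nil) (node (nat_lit 4) (nat_lit 83772) (nat_lit 12) (node (nat_lit 6) (nat_lit 82813) (nat_lit
  13) nil (node (nat_lit 5) (nat_lit 85355) (nat_lit 13) nil nil)) (node (nat_lit 7) (nat_lit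
  71092) (nat_lit 12) (node (nat_lit 5) (nat_lit 56994) (nat_lit 13) nil nil) nil))) nil) (node
  (nat_lit 0) (nat_lit 87355) (nat_lit 10) nil (node (nat_lit 7) (nat_lit 87355) (nat_lit 10) nil
  nil))) (node (nat_lit 6) (nat_lit 80135) (nat_lit 9) (node (nat_lit 4) (nat_lit 80135) (nat_lit
  10) (node (nat_lit 6) (nat_lit 80135) (nat_lit 11) (node (nat_lit 5) (nat_lit 80943) (nat_lit
  12) nil nil) (node (nat_lit 5) (nat_lit 80135) (nat_lit 11) (node (nat_lit 6) (nat_lit 85652)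
  (nat_lit 12) (node (nat_lit 5) (nat_lit 88125) (nat_lit 13) nil nil) (node (nat_lit 4) (nat_lit
  78798) (nat_lit 12) nil nil)) nil)) (node (nat_lit 7) (nat_lit 87355) (nat_lit 10) nil nil))
  (node (nat_lit 7) (nat_lit 86767) (nat_lit 9) nil (node (nat_lit 0) (nat_lit 86767) (nat_lit 9)
  nil nil)))) (node (nat_lit 4) (nat_lit 79894) (nat_lit 8) (node (nat_lit 5) (nat_lit 80000)
  (nat_lit 9) (node (nat_lit 6) (nat_lit 80000) (nat_lit 10) (node (nat_lit 5) (nat_lit 79848)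
  (nat_lit 11) (node (nat_lit 4) (nat_lit 86242) (nat_lit 12) (node (nat_lit 5) (nat_lit 88720)
  (nat_lit 13) (node (nat_lit 6) (nat_lit 89806) (nat_lit 14) (node (nat_lit 7) (nat_lit 76679)
  (nat_lit 15) nil nil) nil) (node (nat_lit 6) (nat_lit 87739) (nat_lit 13) nil nil)) nil) (node
  (nat_lit 4) (nat_lit 80000) (nat_lit 11) (node (nat_lit 6) (nat_lit 78817) (nat_lit 12) nil nil)
  (node (nat_lit 7) (nat_lit 60929) (nat_lit 11) (node (nat_lit 5) (nat_lit 40683) (nat_lit 12)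
  nil nil) nil))) (node (nat_lit 4) (nat_lit 80000) (nat_lit 10) (node (nat_lit 6) (nat_lit 80000)
  (nat_lit 11) (node (nat_lit 5) (nat_lit 85724) (nat_lit 12) nil nil) nil) (node (nat_lit 7)
  (nat_lit 87220) (nat_lit 10) nil (node (nat_lit 0) (nat_lit 87220) (nat_lit 10) nil nil))))
  (node (nat_lit 7) (nat_lit 92610) (nat_lit 9) nil (node (nat_lit 0) (nat_lit 86526) (nat_lit 9)
  nil nil))) (node (nat_lit 7) (nat_lit 91029) (nat_lit 8) nil (node (nat_lit 0) (nat_lit 85642)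
  (nat_lit 8) nil nil)))) (node (nat_lit 5) (nat_lit 0) (nat_lit 7) (node (nat_lit 6) (nat_lit
  79704) (nat_lit 8) (node (nat_lit 4) (nat_lit 79931) (nat_lit 9) (node (nat_lit 6) (nat_lit
  79818) (nat_lit 10) (node (nat_lit 5) (nat_lit 79693) (nat_lit 11) (node (nat_lit 6) (nat_lit
  84295) (nat_lit 12) (node (nat_lit 4) (nat_lit 87211) (nat_lit 13) (node (nat_lit 5) (nat_lit
  88448) (nat_lit 14) (node (nat_lit 6) (nat_lit 86056) (nat_lit 15) nil nil) nil) (node (nat_lit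
  7) (nat_lit 90510) (nat_lit 13) nil nil)) (node (nat_lit 4) (nat_lit 85578) (nat_lit 12) (node
  (nat_lit 5) (nat_lit 88637) (nat_lit 13) (node (nat_lit 6) (nat_lit 90844) (nat_lit 14) nil nil)
  (node (nat_lit 6) (nat_lit 88628) (nat_lit 13) nil nil)) nil)) (node (nat_lit 7) (nat_lit 87496)
  (nat_lit 11) nil nil)) (node (nat_lit 5) (nat_lit 79931) (nat_lit 10) (node (nat_lit 4) (nat_lit
  79931) (nat_lit 11) (node (nat_lit 6) (nat_lit 81833) (nat_lit 12) (node (nat_lit 5) (nat_lit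
  75824) (nat_lit 13) nil nil) nil) nil) (node (nat_lit 7) (nat_lit 93778) (nat_lit 10) nil (node
  (nat_lit 0) (nat_lit 87151) (nat_lit 10) nil nil)))) (node (nat_lit 5) (nat_lit 79828) (nat_lit
  9) (node (nat_lit 4) (nat_lit 79665) (nat_lit 10) (node (nat_lit 6) (nat_lit 79513) (nat_lit 11)
  (node (nat_lit 4) (nat_lit 85086) (nat_lit 12) (node (nat_lit 5) (nat_lit 88763) (nat_lit 13)
  (node (nat_lit 6) (nat_lit 88564) (nat_lit 14) nil nil) nil) (node (nat_lit 5) (nat_lit 85097)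
  (nat_lit 12) (node (nat_lit 6) (nat_lit 81750) (nat_lit 13) nil nil) nil)) (node (nat_lit 5)
  (nat_lit 79665) (nat_lit 11) nil nil)) (node (nat_lit 7) (nat_lit 87048) (nat_lit 10) nil nil))
  (node (nat_lit 7) (nat_lit 50880) (nat_lit 9) nil (node (nat_lit 0) (nat_lit 86336) (nat_lit 9)
  nil nil)))) (node (nat_lit 7) (nat_lit 91828) (nat_lit 8) nil (node (nat_lit 0) (nat_lit 88850)
  (nat_lit 8) nil nil))) (node (nat_lit 7) (nat_lit 100716) (nat_lit 7) (node (nat_lit 4) (nat_lit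
  100716) (nat_lit 8) (node (nat_lit 5) (nat_lit 100716) (nat_lit 9) (node (nat_lit 4) (nat_lit
  100716) (nat_lit 10) (node (nat_lit 6) (nat_lit 100716) (nat_lit 11) (node (nat_lit 5) (nat_lit
  100716) (nat_lit 12) nil nil) nil) nil) nil) (node (nat_lit 6) (nat_lit 100716) (nat_lit 8)
  (node (nat_lit 5) (nat_lit 100716) (nat_lit 9) nil nil) (node (nat_lit 5) (nat_lit 100716)
  (nat_lit 8) nil nil))) (node (nat_lit 0) (nat_lit 91196) (nat_lit 7) nil nil)))) (node (nat_lit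
  6) (nat_lit 0) (nat_lit 6) (node (nat_lit 5) (nat_lit 80220) (nat_lit 7) (node (nat_lit 4)
  (nat_lit 80608) (nat_lit 8) (node (nat_lit 6) (nat_lit 80608) (nat_lit 9) (node (nat_lit 4)
  (nat_lit 80608) (nat_lit 10) (node (nat_lit 5) (nat_lit 80608) (nat_lit 11) (node (nat_lit 4)
  (nat_lit 88675) (nat_lit 12) (node (nat_lit 6) (nat_lit 92017) (nat_lit 13) (node (nat_lit 5)
  (nat_lit 91900) (nat_lit 14) nil nil) nil) (node (nat_lit 6) (nat_lit 88115) (nat_lit 12) (node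
  (nat_lit 4) (nat_lit 89495) (nat_lit 13) nil (node (nat_lit 5) (nat_lit 90238) (nat_lit 13) nil
  (node (nat_lit 7) (nat_lit 80861) (nat_lit 13) nil nil))) (node (nat_lit 7) (nat_lit 88642)
  (nat_lit 12) nil (node (nat_lit 0) (nat_lit 88642) (nat_lit 12) nil nil)))) (node (nat_lit 7)
  (nat_lit 95338) (nat_lit 11) nil (node (nat_lit 0) (nat_lit 88285) (nat_lit 11) nil nil))) (node
  (nat_lit 5) (nat_lit 80608) (nat_lit 10) (node (nat_lit 6) (nat_lit 80655) (nat_lit 11) (node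
  (nat_lit 4) (nat_lit 82742) (nat_lit 12) (node (nat_lit 5) (nat_lit 84662) (nat_lit 13) nil nil)
  (node (nat_lit 7) (nat_lit 88689) (nat_lit 12) nil nil)) (node (nat_lit 7) (nat_lit 88285)
  (nat_lit 11) nil nil)) (node (nat_lit 7) (nat_lit 94456) (nat_lit 10) nil (node (nat_lit 0)
  (nat_lit 92182) (nat_lit 10) nil nil)))) (node (nat_lit 5) (nat_lit 80608) (nat_lit 9) (node
  (nat_lit 6) (nat_lit 80608) (nat_lit 10) (node (nat_lit 4) (nat_lit 80616) (nat_lit 11) (node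
  (nat_lit 6) (nat_lit 86772) (nat_lit 12) (node (nat_lit 5) (nat_lit 80179) (nat_lit 13) nil nil)
  (node (nat_lit 5) (nat_lit 84821) (nat_lit 12) (node (nat_lit 4) (nat_lit 83743) (nat_lit 13)
  nil nil) nil)) (node (nat_lit 7) (nat_lit 69029) (nat_lit 11) (node (nat_lit 5) (nat_lit 47907)
  (nat_lit 12) nil nil) (node (nat_lit 5) (nat_lit 80608) (nat_lit 11) nil nil))) (node (nat_lit
  7) (nat_lit 87827) (nat_lit 10) nil (node (nat_lit 0) (nat_lit 87827) (nat_lit 10) nil nil)))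
  (node (nat_lit 7) (nat_lit 98152) (nat_lit 9) nil (node (nat_lit 0) (nat_lit 93324) (nat_lit 9)
  nil nil)))) (node (nat_lit 7) (nat_lit 102422) (nat_lit 8) (node (nat_lit 6) (nat_lit 102422)
  (nat_lit 9) (node (nat_lit 5) (nat_lit 102422) (nat_lit 10) (node (nat_lit 6) (nat_lit 102422)
  (nat_lit 11) nil nil) nil) nil) (node (nat_lit 0) (nat_lit 96870) (nat_lit 8) nil nil))) (node
  (nat_lit 4) (nat_lit 79375) (nat_lit 7) (node (nat_lit 5) (nat_lit 79608) (nat_lit 8) (node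
  (nat_lit 6) (nat_lit 79608) (nat_lit 9) (node (nat_lit 5) (nat_lit 79608) (nat_lit 10) (node
  (nat_lit 4) (nat_lit 79920) (nat_lit 11) (node (nat_lit 6) (nat_lit 83442) (nat_lit 12) (node
  (nat_lit 4) (nat_lit 86950) (nat_lit 13) (node (nat_lit 5) (nat_lit 88377) (nat_lit 14) (node
  (nat_lit 6) (nat_lit 83594) (nat_lit 15) nil nil) nil) (node (nat_lit 5) (nat_lit 82364)
  (nat_lit 13) nil nil)) (node (nat_lit 5) (nat_lit 84816) (nat_lit 12) (node (nat_lit 6) (nat_lit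
  86569) (nat_lit 13) nil nil) nil)) (node (nat_lit 7) (nat_lit 87286) (nat_lit 11) nil nil))
  (node (nat_lit 7) (nat_lit 69587) (nat_lit 10) (node (nat_lit 5) (nat_lit 39827) (nat_lit 11)
  nil nil) nil)) (node (nat_lit 4) (nat_lit 79624) (nat_lit 9) (node (nat_lit 6) (nat_lit 79624)
  (nat_lit 10) (node (nat_lit 5) (nat_lit 79624) (nat_lit 11) (node (nat_lit 6) (nat_lit 85077)
  (nat_lit 12) (node (nat_lit 4) (nat_lit 88775) (nat_lit 13) (node (nat_lit 5) (nat_lit 88532)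
  (nat_lit 14) nil nil) nil) (node (nat_lit 4) (nat_lit 84185) (nat_lit 12) nil nil)) (node
  (nat_lit 4) (nat_lit 79750) (nat_lit 11) (node (nat_lit 5) (nat_lit 83217) (nat_lit 12) (node
  (nat_lit 6) (nat_lit 83687) (nat_lit 13) nil nil) nil) nil)) nil) (node (nat_lit 7) (nat_lit
  86240) (nat_lit 9) nil nil))) (node (nat_lit 6) (nat_lit 79476) (nat_lit 8) (node (nat_lit 5)
  (nat_lit 79516) (nat_lit 9) (node (nat_lit 6) (nat_lit 79516) (nat_lit 10) (node (nat_lit 4)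
  (nat_lit 79516) (nat_lit 11) (node (nat_lit 5) (nat_lit 82849) (nat_lit 12) (node (nat_lit 6)
  (nat_lit 83222) (nat_lit 13) nil (node (nat_lit 4) (nat_lit 81770) (nat_lit 13) nil nil)) nil)
  nil) (node (nat_lit 4) (nat_lit 79516) (nat_lit 10) (node (nat_lit 6) (nat_lit 79516) (nat_lit
  11) (node (nat_lit 4) (nat_lit 83724) (nat_lit 12) (node (nat_lit 5) (nat_lit 86951) (nat_lit
  13) (node (nat_lit 6) (nat_lit 87462) (nat_lit 14) nil nil) nil) nil) (node (nat_lit 5) (nat_lit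
  79516) (nat_lit 11) (node (nat_lit 6) (nat_lit 78332) (nat_lit 12) nil nil) nil)) nil)) (node
  (nat_lit 7) (nat_lit 90105) (nat_lit 9) nil nil)) (node (nat_lit 7) (nat_lit 92796) (nat_lit 8)
  nil (node (nat_lit 0) (nat_lit 90641) (nat_lit 8) nil nil)))) (node (nat_lit 0) (nat_lit 94973)
  (nat_lit 7) nil nil))) (node (nat_lit 0) (nat_lit 0) (nat_lit 6) (node (nat_lit 5) (nat_lit
  93343) (nat_lit 7) nil (node (nat_lit 6) (nat_lit 93343) (nat_lit 7) nil (node (nat_lit 7)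
  (nat_lit 95724) (nat_lit 7) nil (node (nat_lit 4) (nat_lit 93343) (nat_lit 7) nil (node (nat_lit
  0) (nat_lit 94579) (nat_lit 7) nil nil))))) nil)))) (node (nat_lit 6) (nat_lit 0) (nat_lit 5)
  (node (nat_lit 5) (nat_lit 0) (nat_lit 6) (node (nat_lit 4) (nat_lit 79963) (nat_lit 7) (node
  (nat_lit 5) (nat_lit 79963) (nat_lit 8) (node (nat_lit 6) (nat_lit 79963) (nat_lit 9) (node
  (nat_lit 4) (nat_lit 79963) (nat_lit 10) (node (nat_lit 6) (nat_lit 79963) (nat_lit 11) (node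
  (nat_lit 5) (nat_lit 85553) (nat_lit 12) (node (nat_lit 4) (nat_lit 83568) (nat_lit 13) (node
  (nat_lit 6) (nat_lit 83678) (nat_lit 14) (node (nat_lit 4) (nat_lit 83372) (nat_lit 15) nil nil)
  nil) (node (nat_lit 6) (nat_lit 85434) (nat_lit 13) (node (nat_lit 4) (nat_lit 85248) (nat_lit
  14) nil nil) nil)) nil) (node (nat_lit 5) (nat_lit 79963) (nat_lit 11) nil nil)) (node (nat_lit
  5) (nat_lit 79963) (nat_lit 10) (node (nat_lit 4) (nat_lit 79963) (nat_lit 11) (node (nat_lit 6)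
  (nat_lit 82116) (nat_lit 12) (node (nat_lit 4) (nat_lit 85626) (nat_lit 13) (node (nat_lit 5)
  (nat_lit 84237) (nat_lit 14) (node (nat_lit 6) (nat_lit 78651) (nat_lit 15) nil nil) nil) (node
  (nat_lit 5) (nat_lit 81038) (nat_lit 13) nil nil)) nil) nil) (node (nat_lit 7) (nat_lit 51888)
  (nat_lit 10) nil nil))) (node (nat_lit 7) (nat_lit 86595) (nat_lit 9) nil nil)) (node (nat_lit
  6) (nat_lit 80064) (nat_lit 8) (node (nat_lit 4) (nat_lit 80064) (nat_lit 9) (node (nat_lit 5)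
  (nat_lit 80064) (nat_lit 10) (node (nat_lit 6) (nat_lit 80375) (nat_lit 11) (node (nat_lit 5)
  (nat_lit 82956) (nat_lit 12) (node (nat_lit 4) (nat_lit 82938) (nat_lit 13) nil nil) (node
  (nat_lit 4) (nat_lit 82215) (nat_lit 12) (node (nat_lit 6) (nat_lit 81255) (nat_lit 13) nil nil)
  (node (nat_lit 7) (nat_lit 57642) (nat_lit 12) nil nil))) (node (nat_lit 4) (nat_lit 80064)
  (nat_lit 11) (node (nat_lit 6) (nat_lit 78880) (nat_lit 12) nil nil) nil)) nil) (node (nat_lit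
  5) (nat_lit 80064) (nat_lit 9) (node (nat_lit 6) (nat_lit 80064) (nat_lit 10) (node (nat_lit 4)
  (nat_lit 80014) (nat_lit 11) (node (nat_lit 5) (nat_lit 82549) (nat_lit 12) (node (nat_lit 6)
  (nat_lit 83507) (nat_lit 13) nil nil) (node (nat_lit 6) (nat_lit 78830) (nat_lit 12) nil nil))
  nil) nil) (node (nat_lit 7) (nat_lit 86696) (nat_lit 9) nil nil))) (node (nat_lit 7) (nat_lit
  91229) (nat_lit 8) nil (node (nat_lit 0) (nat_lit 91229) (nat_lit 8) nil nil)))) (node (nat_lit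
  6) (nat_lit 79931) (nat_lit 7) (node (nat_lit 4) (nat_lit 79931) (nat_lit 8) (node (nat_lit 5)
  (nat_lit 79931) (nat_lit 9) (node (nat_lit 6) (nat_lit 79931) (nat_lit 10) (node (nat_lit 5)
  (nat_lit 79780) (nat_lit 11) (node (nat_lit 4) (nat_lit 86186) (nat_lit 12) (node (nat_lit 6)
  (nat_lit 87779) (nat_lit 13) nil (node (nat_lit 5) (nat_lit 88664) (nat_lit 13) nil nil)) nil)
  (node (nat_lit 7) (nat_lit 70373) (nat_lit 11) (node (nat_lit 6) (nat_lit 39929) (nat_lit 12)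
  (node (nat_lit 5) (nat_lit 39929) (nat_lit 13) nil nil) nil) nil)) (node (nat_lit 4) (nat_lit
  79931) (nat_lit 10) (node (nat_lit 6) (nat_lit 79987) (nat_lit 11) (node (nat_lit 4) (nat_lit
  84940) (nat_lit 12) (node (nat_lit 5) (nat_lit 87597) (nat_lit 13) nil nil) (node (nat_lit 5)
  (nat_lit 85709) (nat_lit 12) nil nil)) nil) nil)) (node (nat_lit 6) (nat_lit 79931) (nat_lit 9)
  (node (nat_lit 5) (nat_lit 79931) (nat_lit 10) (node (nat_lit 4) (nat_lit 79931) (nat_lit 11)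
  (node (nat_lit 6) (nat_lit 83898) (nat_lit 12) (node (nat_lit 4) (nat_lit 86745) (nat_lit 13)
  (node (nat_lit 5) (nat_lit 89073) (nat_lit 14) nil nil) nil) (node (nat_lit 5) (nat_lit 85713)
  (nat_lit 12) (node (nat_lit 6) (nat_lit 89051) (nat_lit 13) nil nil) nil)) (node (nat_lit 6)
  (nat_lit 79931) (nat_lit 11) nil nil)) (node (nat_lit 7) (nat_lit 87151) (nat_lit 10) nil nil))
  (node (nat_lit 0) (nat_lit 86563) (nat_lit 9) nil (node (nat_lit 7) (nat_lit 86563) (nat_lit 9)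
  nil nil)))) (node (nat_lit 7) (nat_lit 102873) (nat_lit 8) (node (nat_lit 5) (nat_lit 102873)
  (nat_lit 9) (node (nat_lit 6) (nat_lit 102873) (nat_lit 10) (node (nat_lit 5) (nat_lit 102873)
  (nat_lit 11) (node (nat_lit 7) (nat_lit 104844) (nat_lit 12) nil (node (nat_lit 4) (nat_lit
  102873) (nat_lit 12) nil nil)) nil) (node (nat_lit 7) (nat_lit 104214) (nat_lit 10) nil nil))
  nil) (node (nat_lit 0) (nat_lit 91198) (nat_lit 8) nil nil))) (node (nat_lit 7) (nat_lit 98012)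
  (nat_lit 7) (node (nat_lit 5) (nat_lit 98012) (nat_lit 8) (node (nat_lit 6) (nat_lit 98012)
  (nat_lit 9) (node (nat_lit 5) (nat_lit 98012) (nat_lit 10) nil nil) nil) nil) (node (nat_lit 0)
  (nat_lit 92191) (nat_lit 7) nil nil)))) (node (nat_lit 4) (nat_lit 0) (nat_lit 6) (node (nat_lit
  5) (nat_lit 80324) (nat_lit 7) (node (nat_lit 4) (nat_lit 80363) (nat_lit 8) (node (nat_lit 6)
  (nat_lit 80370) (nat_lit 9) (node (nat_lit 5) (nat_lit 80370) (nat_lit 10) (node (nat_lit 6)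
  (nat_lit 80370) (nat_lit 11) (node (nat_lit 4) (nat_lit 85138) (nat_lit 12) (node (nat_lit 5)
  (nat_lit 86914) (nat_lit 13) (node (nat_lit 6) (nat_lit 87285) (nat_lit 14) nil nil) (node
  (nat_lit 6) (nat_lit 84178) (nat_lit 13) nil nil)) (node (nat_lit 7) (nat_lit 88405) (nat_lit
  12) nil nil)) (node (nat_lit 4) (nat_lit 80370) (nat_lit 11) (node (nat_lit 5) (nat_lit 84107)
  (nat_lit 12) (node (nat_lit 6) (nat_lit 86843) (nat_lit 13) nil nil) nil) nil)) (node (nat_lit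
  4) (nat_lit 80370) (nat_lit 10) (node (nat_lit 5) (nat_lit 80585) (nat_lit 11) (node (nat_lit 6)
  (nat_lit 85312) (nat_lit 12) (node (nat_lit 7) (nat_lit 73471) (nat_lit 13) nil (node (nat_lit
  4) (nat_lit 86894) (nat_lit 13) nil (node (nat_lit 5) (nat_lit 81964) (nat_lit 13) nil nil)))
  nil) nil) (node (nat_lit 7) (nat_lit 87590) (nat_lit 10) nil nil))) (node (nat_lit 7) (nat_lit
  86995) (nat_lit 9) nil nil)) (node (nat_lit 6) (nat_lit 80243) (nat_lit 8) (node (nat_lit 5)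
  (nat_lit 80243) (nat_lit 9) (node (nat_lit 4) (nat_lit 80243) (nat_lit 10) (node (nat_lit 6)
  (nat_lit 80243) (nat_lit 11) (node (nat_lit 4) (nat_lit 85169) (nat_lit 12) (node (nat_lit 5)
  (nat_lit 88646) (nat_lit 13) (node (nat_lit 6) (nat_lit 88814) (nat_lit 14) nil nil) nil) (node
  (nat_lit 5) (nat_lit 83577) (nat_lit 12) (node (nat_lit 6) (nat_lit 80230) (nat_lit 13) nil nil)
  nil)) (node (nat_lit 5) (nat_lit 80243) (nat_lit 11) (node (nat_lit 6) (nat_lit 79060) (nat_lit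
  12) nil nil) nil)) nil) (node (nat_lit 4) (nat_lit 80243) (nat_lit 9) (node (nat_lit 6) (nat_lit
  80243) (nat_lit 10) (node (nat_lit 5) (nat_lit 80243) (nat_lit 11) (node (nat_lit 6) (nat_lit
  84796) (nat_lit 12) (node (nat_lit 4) (nat_lit 87712) (nat_lit 13) nil nil) (node (nat_lit 4)
  (nat_lit 78906) (nat_lit 12) nil nil)) nil) nil) (node (nat_lit 7) (nat_lit 39404) (nat_lit 9)
  nil nil))) (node (nat_lit 7) (nat_lit 91590) (nat_lit 8) nil (node (nat_lit 0) (nat_lit 91590)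
  (nat_lit 8) nil nil)))) (node (nat_lit 6) (nat_lit 80145) (nat_lit 7) (node (nat_lit 5) (nat_lit
  80210) (nat_lit 8) (node (nat_lit 4) (nat_lit 80210) (nat_lit 9) (node (nat_lit 6) (nat_lit
  80210) (nat_lit 10) (node (nat_lit 4) (nat_lit 80210) (nat_lit 11) (node (nat_lit 5) (nat_lit
  83343) (nat_lit 12) (node (nat_lit 6) (nat_lit 82383) (nat_lit 13) nil nil) nil) nil) (node
  (nat_lit 5) (nat_lit 80210) (nat_lit 10) (node (nat_lit 6) (nat_lit 80459) (nat_lit 11) (node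
  (nat_lit 5) (nat_lit 83103) (nat_lit 12) nil (node (nat_lit 4) (nat_lit 82558) (nat_lit 12) nil
  nil)) nil) nil)) (node (nat_lit 6) (nat_lit 80210) (nat_lit 9) (node (nat_lit 4) (nat_lit 80210)
  (nat_lit 10) (node (nat_lit 5) (nat_lit 80210) (nat_lit 11) (node (nat_lit 6) (nat_lit 79027)
  (nat_lit 12) nil nil) (node (nat_lit 6) (nat_lit 80210) (nat_lit 11) nil nil)) (node (nat_lit 7)
  (nat_lit 87430) (nat_lit 10) nil nil)) (node (nat_lit 7) (nat_lit 86842) (nat_lit 9) nil nil)))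
  (node (nat_lit 7) (nat_lit 98311) (nat_lit 8) (node (nat_lit 4) (nat_lit 98311) (nat_lit 9) nil
  nil) (node (nat_lit 0) (nat_lit 91411) (nat_lit 8) nil nil))) (node (nat_lit 7) (nat_lit 96255)
  (nat_lit 7) (node (nat_lit 4) (nat_lit 96255) (nat_lit 8) (node (nat_lit 6) (nat_lit 96255)
  (nat_lit 9) nil nil) nil) (node (nat_lit 0) (nat_lit 93374) (nat_lit 7) nil nil)))) (node
  (nat_lit 0) (nat_lit 0) (nat_lit 6) (node (nat_lit 6) (nat_lit 96230) (nat_lit 7) (node (nat_lit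
  7) (nat_lit 98428) (nat_lit 8) nil nil) (node (nat_lit 7) (nat_lit 98610) (nat_lit 7) nil (node
  (nat_lit 4) (nat_lit 96230) (nat_lit 7) nil (node (nat_lit 5) (nat_lit 96230) (nat_lit 7) nil
  (node (nat_lit 0) (nat_lit 98217) (nat_lit 7) nil nil))))) nil))) (node (nat_lit 0) (nat_lit 0)
  (nat_lit 5) (node (nat_lit 7) (nat_lit 0) (nat_lit 6) (node (nat_lit 6) (nat_lit 98491) (nat_lit
  7) (node (nat_lit 8) (nat_lit 102691) (nat_lit 8) (node (nat_lit 7) (nat_lit 103443) (nat_lit 9)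
  nil (node (nat_lit 6) (nat_lit 102691) (nat_lit 9) nil nil)) (node (nat_lit 7) (nat_lit 102028)
  (nat_lit 8) nil (node (nat_lit 0) (nat_lit 100689) (nat_lit 8) nil (node (nat_lit 4) (nat_lit
  98491) (nat_lit 8) nil (node (nat_lit 5) (nat_lit 98491) (nat_lit 8) nil nil))))) (node (nat_lit
  4) (nat_lit 98491) (nat_lit 7) (node (nat_lit 8) (nat_lit 102028) (nat_lit 8) nil (node (nat_lit
  7) (nat_lit 100689) (nat_lit 8) nil (node (nat_lit 6) (nat_lit 98491) (nat_lit 8) nil (node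
  (nat_lit 5) (nat_lit 98491) (nat_lit 8) nil nil)))) (node (nat_lit 5) (nat_lit 98491) (nat_lit
  7) (node (nat_lit 8) (nat_lit 102028) (nat_lit 8) nil (node (nat_lit 7) (nat_lit 100689)
  (nat_lit 8) nil (node (nat_lit 6) (nat_lit 98491) (nat_lit 8) nil (node (nat_lit 4) (nat_lit
  98491) (nat_lit 8) nil nil)))) (node (nat_lit 0) (nat_lit 101591) (nat_lit 7) (node (nat_lit 8)
  (nat_lit 102554) (nat_lit 8) nil (node (nat_lit 7) (nat_lit 102554) (nat_lit 8) nil nil))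
  nil)))) (node (nat_lit 6) (nat_lit 0) (nat_lit 6) (node (nat_lit 8) (nat_lit 100506) (nat_lit 7)
  (node (nat_lit 7) (nat_lit 102363) (nat_lit 8) (node (nat_lit 8) (nat_lit 102752) (nat_lit 9)
  (node (nat_lit 6) (nat_lit 102752) (nat_lit 10) nil nil) nil) (node (nat_lit 0) (nat_lit 101469)
  (nat_lit 8) nil (node (nat_lit 4) (nat_lit 100506) (nat_lit 8) nil (node (nat_lit 5) (nat_lit
  100506) (nat_lit 8) nil nil)))) (node (nat_lit 5) (nat_lit 91396) (nat_lit 7) nil (node (nat_lit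
  4) (nat_lit 91396) (nat_lit 7) nil (node (nat_lit 7) (nat_lit 96826) (nat_lit 7) (node (nat_lit
  6) (nat_lit 96826) (nat_lit 8) nil nil) (node (nat_lit 0) (nat_lit 96826) (nat_lit 7) nil
  nil))))) (node (nat_lit 4) (nat_lit 0) (nat_lit 6) (node (nat_lit 6) (nat_lit 91396) (nat_lit 7)
  nil (node (nat_lit 8) (nat_lit 96826) (nat_lit 7) nil (node (nat_lit 7) (nat_lit 95930) (nat_lit
  7) nil (node (nat_lit 5) (nat_lit 91396) (nat_lit 7) nil (node (nat_lit 0) (nat_lit 94214)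
  (nat_lit 7) nil nil))))) (node (nat_lit 5) (nat_lit 0) (nat_lit 6) (node (nat_lit 6) (nat_lit
  91396) (nat_lit 7) nil (node (nat_lit 8) (nat_lit 96826) (nat_lit 7) nil (node (nat_lit 7)
  (nat_lit 95930) (nat_lit 7) nil (node (nat_lit 4) (nat_lit 91396) (nat_lit 7) nil (node (nat_lit
  0) (nat_lit 94214) (nat_lit 7) nil nil))))) (node (nat_lit 0) (nat_lit 96679) (nat_lit 6) (node
  (nat_lit 8) (nat_lit 97914) (nat_lit 7) nil (node (nat_lit 7) (nat_lit 97914) (nat_lit 7) nil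
  nil)) nil))))) nil)))

noncomputable def t252 : Tr :=
  (node (nat_lit 0) (nat_lit 0) (nat_lit 5) (node (nat_lit 4) (nat_lit 0) (nat_lit 6) (node
  (nat_lit 6) (nat_lit 62347) (nat_lit 7) (node (nat_lit 5) (nat_lit 62502) (nat_lit 8) (node
  (nat_lit 4) (nat_lit 62561) (nat_lit 9) (node (nat_lit 5) (nat_lit 62561) (nat_lit 10) (node
  (nat_lit 6) (nat_lit 62561) (nat_lit 11) (node (nat_lit 4) (nat_lit 62561) (nat_lit 12) (node
  (nat_lit 6) (nat_lit 66625) (nat_lit 13) (node (nat_lit 5) (nat_lit 69453) (nat_lit 14) (node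
  (nat_lit 4) (nat_lit 69365) (nat_lit 15) nil nil) nil) (node (nat_lit 5) (nat_lit 64649)
  (nat_lit 13) nil (node (nat_lit 8) (nat_lit 43914) (nat_lit 13) nil nil))) (node (nat_lit 5)
  (nat_lit 62561) (nat_lit 12) (node (nat_lit 4) (nat_lit 62572) (nat_lit 13) (node (nat_lit 6)
  (nat_lit 63032) (nat_lit 14) nil nil) nil) (node (nat_lit 8) (nat_lit 68497) (nat_lit 12) nil
  nil))) (node (nat_lit 8) (nat_lit 68140) (nat_lit 11) nil (node (nat_lit 0) (nat_lit 68140)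
  (nat_lit 11) nil nil))) (node (nat_lit 6) (nat_lit 62561) (nat_lit 10) (node (nat_lit 4)
  (nat_lit 62561) (nat_lit 11) (node (nat_lit 5) (nat_lit 62561) (nat_lit 12) (node (nat_lit 4)
  (nat_lit 61482) (nat_lit 13) nil (node (nat_lit 6) (nat_lit 65091) (nat_lit 13) nil nil)) nil)
  (node (nat_lit 8) (nat_lit 68140) (nat_lit 11) nil (node (nat_lit 0) (nat_lit 68140) (nat_lit
  11) nil nil))) (node (nat_lit 8) (nat_lit 73645) (nat_lit 10) nil (node (nat_lit 0) (nat_lit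
  70749) (nat_lit 10) nil nil)))) (node (nat_lit 6) (nat_lit 62502) (nat_lit 9) (node (nat_lit 4)
  (nat_lit 62502) (nat_lit 10) (node (nat_lit 5) (nat_lit 62502) (nat_lit 11) (node (nat_lit 4)
  (nat_lit 62502) (nat_lit 12) (node (nat_lit 6) (nat_lit 65177) (nat_lit 13) (node (nat_lit 5)
  (nat_lit 62977) (nat_lit 14) nil nil) nil) (node (nat_lit 6) (nat_lit 62502) (nat_lit 12) (node
  (nat_lit 5) (nat_lit 65519) (nat_lit 13) (node (nat_lit 4) (nat_lit 65550) (nat_lit 14) nil nil)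
  nil) nil)) (node (nat_lit 6) (nat_lit 62502) (nat_lit 11) (node (nat_lit 5) (nat_lit 62502)
  (nat_lit 12) (node (nat_lit 4) (nat_lit 62573) (nat_lit 13) (node (nat_lit 5) (nat_lit 65042)
  (nat_lit 14) nil nil) nil) nil) (node (nat_lit 8) (nat_lit 68081) (nat_lit 11) nil nil))) (node
  (nat_lit 8) (nat_lit 73586) (nat_lit 10) nil (node (nat_lit 0) (nat_lit 70691) (nat_lit 10) nil
  nil))) (node (nat_lit 8) (nat_lit 75577) (nat_lit 9) (node (nat_lit 6) (nat_lit 75577) (nat_lit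
  10) nil nil) (node (nat_lit 0) (nat_lit 76114) (nat_lit 9) nil nil)))) (node (nat_lit 8)
  (nat_lit 78031) (nat_lit 8) (node (nat_lit 4) (nat_lit 78031) (nat_lit 9) (node (nat_lit 8)
  (nat_lit 80402) (nat_lit 10) (node (nat_lit 6) (nat_lit 80402) (nat_lit 11) (node (nat_lit 4)
  (nat_lit 80402) (nat_lit 12) (node (nat_lit 6) (nat_lit 80402) (nat_lit 13) (node (nat_lit 5)
  (nat_lit 80402) (nat_lit 14) nil (node (nat_lit 8) (nat_lit 81302) (nat_lit 14) nil nil)) (node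
  (nat_lit 5) (nat_lit 80402) (nat_lit 13) nil nil)) (node (nat_lit 8) (nat_lit 81032) (nat_lit
  12) nil (node (nat_lit 5) (nat_lit 80402) (nat_lit 12) nil nil))) (node (nat_lit 5) (nat_lit
  80402) (nat_lit 11) nil (node (nat_lit 0) (nat_lit 80839) (nat_lit 11) nil nil))) (node (nat_lit
  5) (nat_lit 78031) (nat_lit 10) (node (nat_lit 4) (nat_lit 78031) (nat_lit 11) (node (nat_lit 6)
  (nat_lit 78031) (nat_lit 12) (node (nat_lit 5) (nat_lit 78031) (nat_lit 13) nil nil) nil) (node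
  (nat_lit 6) (nat_lit 78031) (nat_lit 11) (node (nat_lit 5) (nat_lit 78031) (nat_lit 12) (node
  (nat_lit 4) (nat_lit 78031) (nat_lit 13) nil nil) nil) (node (nat_lit 8) (nat_lit 79829)
  (nat_lit 11) nil (node (nat_lit 0) (nat_lit 79829) (nat_lit 11) nil nil)))) (node (nat_lit 0)
  (nat_lit 80172) (nat_lit 10) nil nil))) (node (nat_lit 6) (nat_lit 78031) (nat_lit 9) (node
  (nat_lit 4) (nat_lit 78031) (nat_lit 10) (node (nat_lit 8) (nat_lit 79829) (nat_lit 11) nil nil)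
  (node (nat_lit 5) (nat_lit 78031) (nat_lit 10) nil nil)) (node (nat_lit 5) (nat_lit 78031)
  (nat_lit 9) nil (node (nat_lit 0) (nat_lit 78783) (nat_lit 9) nil nil)))) (node (nat_lit 4)
  (nat_lit 62376) (nat_lit 8) (node (nat_lit 5) (nat_lit 62376) (nat_lit 9) (node (nat_lit 6)
  (nat_lit 62376) (nat_lit 10) (node (nat_lit 4) (nat_lit 62376) (nat_lit 11) (node (nat_lit 8)
  (nat_lit 40210) (nat_lit 12) nil nil) (node (nat_lit 5) (nat_lit 62376) (nat_lit 11) (node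
  (nat_lit 4) (nat_lit 62376) (nat_lit 12) nil nil) nil)) (node (nat_lit 4) (nat_lit 62376)
  (nat_lit 10) (node (nat_lit 6) (nat_lit 62376) (nat_lit 11) (node (nat_lit 5) (nat_lit 62376)
  (nat_lit 12) nil nil) nil) (node (nat_lit 8) (nat_lit 69133) (nat_lit 10) nil (node (nat_lit 0)
  (nat_lit 67497) (nat_lit 10) nil nil)))) (node (nat_lit 8) (nat_lit 78260) (nat_lit 9) (node
  (nat_lit 6) (nat_lit 78260) (nat_lit 10) (node (nat_lit 8) (nat_lit 79597) (nat_lit 11) (node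
  (nat_lit 4) (nat_lit 79597) (nat_lit 12) nil nil) (node (nat_lit 4) (nat_lit 78260) (nat_lit 11)
  (node (nat_lit 6) (nat_lit 78260) (nat_lit 12) (node (nat_lit 8) (nat_lit 79942) (nat_lit 13)
  nil nil) nil) nil)) (node (nat_lit 5) (nat_lit 78260) (nat_lit 10) nil (node (nat_lit 0)
  (nat_lit 78848) (nat_lit 10) nil nil))) (node (nat_lit 0) (nat_lit 69625) (nat_lit 9) nil nil)))
  (node (nat_lit 0) (nat_lit 76104) (nat_lit 8) (node (nat_lit 0) (nat_lit 76857) (nat_lit 9) nil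
  (node (nat_lit 8) (nat_lit 76857) (nat_lit 9) nil (node (nat_lit 4) (nat_lit 76104) (nat_lit 9)
  nil (node (nat_lit 6) (nat_lit 76104) (nat_lit 9) nil (node (nat_lit 5) (nat_lit 76104) (nat_lit
  9) nil nil))))) nil)))) (node (nat_lit 5) (nat_lit 62370) (nat_lit 7) (node (nat_lit 6) (nat_lit
  62517) (nat_lit 8) (node (nat_lit 4) (nat_lit 62585) (nat_lit 9) (node (nat_lit 6) (nat_lit
  62669) (nat_lit 10) (node (nat_lit 5) (nat_lit 62669) (nat_lit 11) (node (nat_lit 4) (nat_lit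
  62730) (nat_lit 12) (node (nat_lit 5) (nat_lit 66795) (nat_lit 13) (node (nat_lit 6) (nat_lit
  69622) (nat_lit 14) (node (nat_lit 4) (nat_lit 71239) (nat_lit 15) nil nil) nil) (node (nat_lit
  6) (nat_lit 65822) (nat_lit 13) nil nil)) (node (nat_lit 6) (nat_lit 62669) (nat_lit 12) (node
  (nat_lit 4) (nat_lit 64252) (nat_lit 13) nil nil) (node (nat_lit 8) (nat_lit 68606) (nat_lit 12)
  nil nil))) (node (nat_lit 8) (nat_lit 68249) (nat_lit 11) nil (node (nat_lit 0) (nat_lit 68249)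
  (nat_lit 11) nil nil))) (node (nat_lit 5) (nat_lit 62585) (nat_lit 10) (node (nat_lit 4)
  (nat_lit 62585) (nat_lit 11) (node (nat_lit 6) (nat_lit 62572) (nat_lit 12) (node (nat_lit 4)
  (nat_lit 65850) (nat_lit 13) (node (nat_lit 5) (nat_lit 67620) (nat_lit 14) (node (nat_lit 6)
  (nat_lit 67624) (nat_lit 15) nil nil) nil) (node (nat_lit 5) (nat_lit 65696) (nat_lit 13) nil
  nil)) nil) (node (nat_lit 8) (nat_lit 68164) (nat_lit 11) nil (node (nat_lit 0) (nat_lit 68164)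
  (nat_lit 11) nil nil))) (node (nat_lit 0) (nat_lit 70774) (nat_lit 10) nil nil))) (node (nat_lit
  5) (nat_lit 62553) (nat_lit 9) (node (nat_lit 4) (nat_lit 62562) (nat_lit 10) (node (nat_lit 6)
  (nat_lit 62562) (nat_lit 11) (node (nat_lit 4) (nat_lit 62562) (nat_lit 12) (node (nat_lit 5)
  (nat_lit 66088) (nat_lit 13) (node (nat_lit 6) (nat_lit 66336) (nat_lit 14) (node (nat_lit 4)
  (nat_lit 68335) (nat_lit 15) (node (nat_lit 8) (nat_lit 53294) (nat_lit 16) nil nil) nil) nil)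
  nil) (node (nat_lit 5) (nat_lit 62562) (nat_lit 12) nil (node (nat_lit 8) (nat_lit 68499)
  (nat_lit 12) nil nil))) (node (nat_lit 5) (nat_lit 62562) (nat_lit 11) (node (nat_lit 6)
  (nat_lit 62562) (nat_lit 12) (node (nat_lit 4) (nat_lit 65868) (nat_lit 13) (node (nat_lit 8)
  (nat_lit 45534) (nat_lit 14) nil nil) nil) nil) (node (nat_lit 8) (nat_lit 68142) (nat_lit 11)
  nil (node (nat_lit 0) (nat_lit 68142) (nat_lit 11) nil nil)))) (node (nat_lit 8) (nat_lit 74795)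
  (nat_lit 10) nil (node (nat_lit 0) (nat_lit 70742) (nat_lit 10) nil nil))) (node (nat_lit 8)
  (nat_lit 75592) (nat_lit 9) (node (nat_lit 5) (nat_lit 75592) (nat_lit 10) nil nil) (node
  (nat_lit 0) (nat_lit 76129) (nat_lit 9) nil nil)))) (node (nat_lit 4) (nat_lit 62400) (nat_lit
  8) (node (nat_lit 6) (nat_lit 62400) (nat_lit 9) (node (nat_lit 5) (nat_lit 62400) (nat_lit 10)
  (node (nat_lit 6) (nat_lit 62400) (nat_lit 11) (node (nat_lit 4) (nat_lit 62400) (nat_lit 12)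
  nil nil) (node (nat_lit 4) (nat_lit 62400) (nat_lit 11) (node (nat_lit 5) (nat_lit 62400)
  (nat_lit 12) (node (nat_lit 6) (nat_lit 61441) (nat_lit 13) nil nil) nil) (node (nat_lit 8)
  (nat_lit 67979) (nat_lit 11) nil nil))) (node (nat_lit 4) (nat_lit 62400) (nat_lit 10) (node
  (nat_lit 5) (nat_lit 62400) (nat_lit 11) (node (nat_lit 6) (nat_lit 62400) (nat_lit 12) (node
  (nat_lit 5) (nat_lit 65501) (nat_lit 13) (node (nat_lit 4) (nat_lit 65531) (nat_lit 14) nil nil)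
  (node (nat_lit 4) (nat_lit 63983) (nat_lit 13) nil nil)) nil) nil) (node (nat_lit 8) (nat_lit
  73484) (nat_lit 10) nil (node (nat_lit 0) (nat_lit 67522) (nat_lit 10) nil nil)))) (node
  (nat_lit 8) (nat_lit 77997) (nat_lit 9) (node (nat_lit 5) (nat_lit 77997) (nat_lit 10) (node
  (nat_lit 8) (nat_lit 79043) (nat_lit 11) (node (nat_lit 4) (nat_lit 79043) (nat_lit 12) nil nil)
  (node (nat_lit 4) (nat_lit 77997) (nat_lit 11) nil nil)) nil) (node (nat_lit 0) (nat_lit 76012)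
  (nat_lit 9) nil nil))) (node (nat_lit 8) (nat_lit 76438) (nat_lit 8) (node (nat_lit 5) (nat_lit
  76438) (nat_lit 9) (node (nat_lit 4) (nat_lit 76438) (nat_lit 10) nil nil) (node (nat_lit 4)
  (nat_lit 76438) (nat_lit 9) (node (nat_lit 8) (nat_lit 77779) (nat_lit 10) nil nil) (node
  (nat_lit 6) (nat_lit 76438) (nat_lit 9) nil (node (nat_lit 0) (nat_lit 77191) (nat_lit 9) nil
  nil)))) (node (nat_lit 0) (nat_lit 76703) (nat_lit 8) (node (nat_lit 4) (nat_lit 76703) (nat_lit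
  9) nil (node (nat_lit 5) (nat_lit 76703) (nat_lit 9) nil (node (nat_lit 0) (nat_lit 77456)
  (nat_lit 9) nil (node (nat_lit 8) (nat_lit 77456) (nat_lit 9) nil (node (nat_lit 6) (nat_lit
  76703) (nat_lit 9) nil nil))))) nil)))) (node (nat_lit 0) (nat_lit 74602) (nat_lit 7) (node
  (nat_lit 8) (nat_lit 77589) (nat_lit 8) (node (nat_lit 4) (nat_lit 77589) (nat_lit 9) (node
  (nat_lit 8) (nat_lit 78930) (nat_lit 10) nil (node (nat_lit 0) (nat_lit 78930) (nat_lit 10) nil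
  (node (nat_lit 6) (nat_lit 77589) (nat_lit 10) nil (node (nat_lit 5) (nat_lit 77589) (nat_lit
  10) nil nil)))) (node (nat_lit 10) (nat_lit 78342) (nat_lit 9) nil nil)) (node (nat_lit 4)
  (nat_lit 74602) (nat_lit 8) (node (nat_lit 8) (nat_lit 77346) (nat_lit 9) nil (node (nat_lit 6)
  (nat_lit 74602) (nat_lit 9) nil (node (nat_lit 5) (nat_lit 74602) (nat_lit 9) nil (node (nat_lit
  0) (nat_lit 76317) (nat_lit 9) nil nil)))) (node (nat_lit 6) (nat_lit 74602) (nat_lit 8) (node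
  (nat_lit 8) (nat_lit 76317) (nat_lit 9) nil (node (nat_lit 4) (nat_lit 74602) (nat_lit 9) nil
  (node (nat_lit 10) (nat_lit 76317) (nat_lit 9) nil nil))) (node (nat_lit 0) (nat_lit 76688)
  (nat_lit 8) nil (node (nat_lit 5) (nat_lit 74602) (nat_lit 8) (node (nat_lit 4) (nat_lit 74602)
  (nat_lit 9) nil (node (nat_lit 10) (nat_lit 76317) (nat_lit 9) nil nil)) nil))))) nil))) (node
  (nat_lit 6) (nat_lit 0) (nat_lit 6) (node (nat_lit 8) (nat_lit 74477) (nat_lit 7) (node (nat_lit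
  4) (nat_lit 74477) (nat_lit 8) (node (nat_lit 8) (nat_lit 79209) (nat_lit 9) (node (nat_lit 6)
  (nat_lit 79209) (nat_lit 10) (node (nat_lit 4) (nat_lit 79209) (nat_lit 11) (node (nat_lit 6)
  (nat_lit 79209) (nat_lit 12) (node (nat_lit 5) (nat_lit 79209) (nat_lit 13) (node (nat_lit 4)
  (nat_lit 79209) (nat_lit 14) (node (nat_lit 6) (nat_lit 79209) (nat_lit 15) nil nil) (node
  (nat_lit 6) (nat_lit 79209) (nat_lit 14) (node (nat_lit 4) (nat_lit 79209) (nat_lit 15) nil nil)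
  nil)) (node (nat_lit 8) (nat_lit 80858) (nat_lit 13) nil nil)) (node (nat_lit 5) (nat_lit 79209)
  (nat_lit 12) (node (nat_lit 6) (nat_lit 79209) (nat_lit 13) nil (node (nat_lit 4) (nat_lit
  79209) (nat_lit 13) (node (nat_lit 6) (nat_lit 79209) (nat_lit 14) nil nil) nil)) (node (nat_lit
  8) (nat_lit 80611) (nat_lit 12) (node (nat_lit 4) (nat_lit 80611) (nat_lit 13) nil nil) (node
  (nat_lit 0) (nat_lit 80611) (nat_lit 12) nil nil)))) (node (nat_lit 5) (nat_lit 79209) (nat_lit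
  11) (node (nat_lit 4) (nat_lit 79209) (nat_lit 12) nil (node (nat_lit 6) (nat_lit 79209)
  (nat_lit 12) nil nil)) (node (nat_lit 0) (nat_lit 80254) (nat_lit 11) nil nil))) nil) (node
  (nat_lit 6) (nat_lit 74477) (nat_lit 9) nil nil)) nil) (node (nat_lit 4) (nat_lit 62409)
  (nat_lit 7) (node (nat_lit 6) (nat_lit 62489) (nat_lit 8) (node (nat_lit 8) (nat_lit 75841)
  (nat_lit 9) (node (nat_lit 4) (nat_lit 75841) (nat_lit 10) (node (nat_lit 8) (nat_lit 76351)
  (nat_lit 11) (node (nat_lit 6) (nat_lit 76351) (nat_lit 12) (node (nat_lit 4) (nat_lit 76351)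
  (nat_lit 13) (node (nat_lit 6) (nat_lit 76351) (nat_lit 14) (node (nat_lit 5) (nat_lit 76351)
  (nat_lit 15) (node (nat_lit 4) (nat_lit 76351) (nat_lit 16) (node (nat_lit 6) (nat_lit 76351)
  (nat_lit 17) (node (nat_lit 4) (nat_lit 76568) (nat_lit 18) (node (nat_lit 5) (nat_lit 76742)
  (nat_lit 19) nil nil) nil) nil) nil) nil) nil) nil) nil) nil) nil) (node (nat_lit 5) (nat_lit
  62489) (nat_lit 9) nil nil)) (node (nat_lit 0) (nat_lit 66190) (nat_lit 8) nil (node (nat_lit 5)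
  (nat_lit 62409) (nat_lit 8) nil nil))) (node (nat_lit 5) (nat_lit 61827) (nat_lit 7) (node
  (nat_lit 4) (nat_lit 61827) (nat_lit 8) (node (nat_lit 5) (nat_lit 61827) (nat_lit 9) (node
  (nat_lit 6) (nat_lit 61827) (nat_lit 10) (node (nat_lit 4) (nat_lit 61827) (nat_lit 11) (node
  (nat_lit 8) (nat_lit 27948) (nat_lit 12) (node (nat_lit 6) (nat_lit 27948) (nat_lit 13) nil nil)
  nil) nil) nil) (node (nat_lit 6) (nat_lit 61827) (nat_lit 9) nil nil)) (node (nat_lit 8)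
  (nat_lit 65608) (nat_lit 8) nil (node (nat_lit 6) (nat_lit 61827) (nat_lit 8) nil nil))) (node
  (nat_lit 0) (nat_lit 70203) (nat_lit 7) nil nil)))) (node (nat_lit 5) (nat_lit 0) (nat_lit 6)
  (node (nat_lit 4) (nat_lit 62233) (nat_lit 7) (node (nat_lit 5) (nat_lit 62233) (nat_lit 8)
  (node (nat_lit 8) (nat_lit 68137) (nat_lit 9) (node (nat_lit 4) (nat_lit 68137) (nat_lit 10)
  (node (nat_lit 8) (nat_lit 68646) (nat_lit 11) (node (nat_lit 5) (nat_lit 68646) (nat_lit 12)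
  nil nil) nil) nil) nil) (node (nat_lit 0) (nat_lit 66014) (nat_lit 8) nil (node (nat_lit 6)
  (nat_lit 62233) (nat_lit 8) nil nil))) (node (nat_lit 8) (nat_lit 72852) (nat_lit 7) (node
  (nat_lit 4) (nat_lit 72852) (nat_lit 8) (node (nat_lit 8) (nat_lit 75490) (nat_lit 9) (node
  (nat_lit 5) (nat_lit 75490) (nat_lit 10) (node (nat_lit 4) (nat_lit 75490) (nat_lit 11) (node
  (nat_lit 5) (nat_lit 75490) (nat_lit 12) nil nil) nil) nil) nil) nil) (node (nat_lit 6) (nat_lit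
  61738) (nat_lit 7) (node (nat_lit 4) (nat_lit 61738) (nat_lit 8) nil nil) (node (nat_lit 0)
  (nat_lit 64556) (nat_lit 7) nil nil)))) (node (nat_lit 0) (nat_lit 69887) (nat_lit 6) (node
  (nat_lit 4) (nat_lit 69887) (nat_lit 7) (node (nat_lit 8) (nat_lit 75640) (nat_lit 8) (node
  (nat_lit 4) (nat_lit 75640) (nat_lit 9) (node (nat_lit 9) (nat_lit 76981) (nat_lit 10) nil nil)
  (node (nat_lit 6) (nat_lit 75640) (nat_lit 9) nil (node (nat_lit 0) (nat_lit 76393) (nat_lit 9)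
  nil (node (nat_lit 5) (nat_lit 75640) (nat_lit 9) nil nil)))) (node (nat_lit 9) (nat_lit 73402)
  (nat_lit 8) (node (nat_lit 8) (nat_lit 74155) (nat_lit 9) nil nil) nil)) (node (nat_lit 8)
  (nat_lit 73809) (nat_lit 7) (node (nat_lit 4) (nat_lit 73809) (nat_lit 8) (node (nat_lit 8)
  (nat_lit 75525) (nat_lit 9) (node (nat_lit 9) (nat_lit 76113) (nat_lit 10) nil nil) nil) nil)
  nil)) nil)))) (node (nat_lit 6) (nat_lit 0) (nat_lit 5) (node (nat_lit 0) (nat_lit 0) (nat_lit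
  6) (node (nat_lit 4) (nat_lit 0) (nat_lit 7) (node (nat_lit 6) (nat_lit 65817) (nat_lit 8) (node
  (nat_lit 4) (nat_lit 65836) (nat_lit 9) (node (nat_lit 9) (nat_lit 80141) (nat_lit 10) (node
  (nat_lit 6) (nat_lit 80141) (nat_lit 11) (node (nat_lit 4) (nat_lit 80141) (nat_lit 12) (node
  (nat_lit 6) (nat_lit 80141) (nat_lit 13) (node (nat_lit 9) (nat_lit 81042) (nat_lit 14) nil
  (node (nat_lit 5) (nat_lit 80141) (nat_lit 14) nil nil)) (node (nat_lit 5) (nat_lit 80141)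
  (nat_lit 13) nil nil)) (node (nat_lit 9) (nat_lit 81001) (nat_lit 12) (node (nat_lit 4) (nat_lit
  81001) (nat_lit 13) nil nil) (node (nat_lit 5) (nat_lit 80141) (nat_lit 12) nil (node (nat_lit
  0) (nat_lit 80772) (nat_lit 12) nil nil)))) (node (nat_lit 4) (nat_lit 80141) (nat_lit 11) (node
  (nat_lit 6) (nat_lit 80141) (nat_lit 12) (node (nat_lit 9) (nat_lit 80923) (nat_lit 13) nil
  (node (nat_lit 5) (nat_lit 80141) (nat_lit 13) nil nil)) (node (nat_lit 5) (nat_lit 80141)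
  (nat_lit 12) nil (node (nat_lit 0) (nat_lit 80772) (nat_lit 12) nil nil))) (node (nat_lit 5)
  (nat_lit 80141) (nat_lit 11) nil (node (nat_lit 0) (nat_lit 80579) (nat_lit 11) nil nil))))
  (node (nat_lit 5) (nat_lit 65837) (nat_lit 10) (node (nat_lit 6) (nat_lit 65837) (nat_lit 11)
  (node (nat_lit 5) (nat_lit 65837) (nat_lit 12) (node (nat_lit 4) (nat_lit 65837) (nat_lit 13)
  (node (nat_lit 5) (nat_lit 69337) (nat_lit 14) (node (nat_lit 6) (nat_lit 70545) (nat_lit 15)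
  (node (nat_lit 4) (nat_lit 71707) (nat_lit 16) nil nil) nil) (node (nat_lit 6) (nat_lit 68909)
  (nat_lit 14) (node (nat_lit 4) (nat_lit 69873) (nat_lit 15) nil nil) (node (nat_lit 9) (nat_lit
  70689) (nat_lit 14) nil nil))) (node (nat_lit 9) (nat_lit 70470) (nat_lit 13) nil (node (nat_lit
  0) (nat_lit 70470) (nat_lit 13) nil nil))) (node (nat_lit 4) (nat_lit 65837) (nat_lit 12) (node
  (nat_lit 6) (nat_lit 65837) (nat_lit 13) (node (nat_lit 5) (nat_lit 68064) (nat_lit 14) (node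
  (nat_lit 4) (nat_lit 68279) (nat_lit 15) (node (nat_lit 5) (nat_lit 69942) (nat_lit 16) nil nil)
  nil) (node (nat_lit 9) (nat_lit 41466) (nat_lit 14) (node (nat_lit 4) (nat_lit 41466) (nat_lit
  15) nil nil) nil)) (node (nat_lit 9) (nat_lit 73245) (nat_lit 13) nil (node (nat_lit 0) (nat_lit
  70470) (nat_lit 13) nil nil))) (node (nat_lit 9) (nat_lit 73197) (nat_lit 12) nil (node (nat_lit
  0) (nat_lit 71581) (nat_lit 12) nil nil)))) (node (nat_lit 4) (nat_lit 65837) (nat_lit 11) (node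
  (nat_lit 6) (nat_lit 65837) (nat_lit 12) (node (nat_lit 5) (nat_lit 65837) (nat_lit 13) (node
  (nat_lit 4) (nat_lit 68300) (nat_lit 14) (node (nat_lit 5) (nat_lit 69712) (nat_lit 15) (node
  (nat_lit 6) (nat_lit 71013) (nat_lit 16) nil nil) nil) (node (nat_lit 6) (nat_lit 67498)
  (nat_lit 14) (node (nat_lit 4) (nat_lit 68462) (nat_lit 15) nil nil) nil)) (node (nat_lit 4)
  (nat_lit 65837) (nat_lit 13) nil (node (nat_lit 9) (nat_lit 70470) (nat_lit 13) nil (node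
  (nat_lit 0) (nat_lit 70470) (nat_lit 13) nil nil)))) (node (nat_lit 9) (nat_lit 75261) (nat_lit
  12) nil (node (nat_lit 0) (nat_lit 72798) (nat_lit 12) nil nil))) (node (nat_lit 9) (nat_lit
  76700) (nat_lit 11) nil (node (nat_lit 0) (nat_lit 76700) (nat_lit 11) nil nil)))) (node
  (nat_lit 0) (nat_lit 78989) (nat_lit 10) (node (nat_lit 9) (nat_lit 79447) (nat_lit 11) nil
  (node (nat_lit 4) (nat_lit 78989) (nat_lit 11) nil (node (nat_lit 6) (nat_lit 78989) (nat_lit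
  11) nil (node (nat_lit 5) (nat_lit 78989) (nat_lit 11) nil nil)))) nil))) (node (nat_lit 5)
  (nat_lit 65864) (nat_lit 9) (node (nat_lit 4) (nat_lit 65864) (nat_lit 10) (node (nat_lit 5)
  (nat_lit 65864) (nat_lit 11) (node (nat_lit 6) (nat_lit 65864) (nat_lit 12) (node (nat_lit 5)
  (nat_lit 65864) (nat_lit 13) (node (nat_lit 4) (nat_lit 70276) (nat_lit 14) (node (nat_lit 6)
  (nat_lit 72205) (nat_lit 15) nil nil) nil) (node (nat_lit 4) (nat_lit 65864) (nat_lit 13) (node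
  (nat_lit 6) (nat_lit 67952) (nat_lit 14) (node (nat_lit 9) (nat_lit 46071) (nat_lit 15) nil nil)
  nil) nil)) (node (nat_lit 9) (nat_lit 72826) (nat_lit 12) nil (node (nat_lit 0) (nat_lit 70218)
  (nat_lit 12) nil nil))) (node (nat_lit 6) (nat_lit 65864) (nat_lit 11) (node (nat_lit 4)
  (nat_lit 65864) (nat_lit 12) (node (nat_lit 5) (nat_lit 65864) (nat_lit 13) nil (node (nat_lit
  9) (nat_lit 70497) (nat_lit 13) nil nil)) (node (nat_lit 9) (nat_lit 70218) (nat_lit 12) nil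
  nil)) (node (nat_lit 9) (nat_lit 78026) (nat_lit 11) nil (node (nat_lit 0) (nat_lit 73737)
  (nat_lit 11) nil nil)))) (node (nat_lit 6) (nat_lit 65864) (nat_lit 10) (node (nat_lit 4)
  (nat_lit 65864) (nat_lit 11) (node (nat_lit 5) (nat_lit 65864) (nat_lit 12) (node (nat_lit 6)
  (nat_lit 65864) (nat_lit 13) (node (nat_lit 5) (nat_lit 68524) (nat_lit 14) (node (nat_lit 4)
  (nat_lit 68639) (nat_lit 15) nil nil) nil) (node (nat_lit 4) (nat_lit 65864) (nat_lit 13) (node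
  (nat_lit 6) (nat_lit 65115) (nat_lit 14) nil nil) nil)) (node (nat_lit 6) (nat_lit 65864)
  (nat_lit 12) (node (nat_lit 5) (nat_lit 65864) (nat_lit 13) (node (nat_lit 4) (nat_lit 66144)
  (nat_lit 14) nil nil) nil) (node (nat_lit 9) (nat_lit 70218) (nat_lit 12) nil (node (nat_lit 0)
  (nat_lit 70218) (nat_lit 12) nil nil)))) (node (nat_lit 9) (nat_lit 76550) (nat_lit 11) nil
  (node (nat_lit 0) (nat_lit 74514) (nat_lit 11) nil nil))) (node (nat_lit 9) (nat_lit 78474)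
  (nat_lit 10) (node (nat_lit 6) (nat_lit 78474) (nat_lit 11) nil nil) (node (nat_lit 0) (nat_lit
  76630) (nat_lit 10) nil nil)))) (node (nat_lit 0) (nat_lit 77247) (nat_lit 9) (node (nat_lit 6)
  (nat_lit 77247) (nat_lit 10) nil (node (nat_lit 4) (nat_lit 77247) (nat_lit 10) nil (node
  (nat_lit 9) (nat_lit 77834) (nat_lit 10) nil (node (nat_lit 5) (nat_lit 77247) (nat_lit 10) nil
  (node (nat_lit 0) (nat_lit 77834) (nat_lit 10) nil nil))))) nil))) (node (nat_lit 9) (nat_lit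
  74871) (nat_lit 8) (node (nat_lit 6) (nat_lit 74871) (nat_lit 9) (node (nat_lit 4) (nat_lit
  74871) (nat_lit 10) (node (nat_lit 9) (nat_lit 76669) (nat_lit 11) nil nil) (node (nat_lit 9)
  (nat_lit 76211) (nat_lit 10) nil nil)) nil) (node (nat_lit 5) (nat_lit 65776) (nat_lit 8) nil
  (node (nat_lit 0) (nat_lit 67974) (nat_lit 8) nil nil)))) (node (nat_lit 6) (nat_lit 0) (nat_lit
  7) (node (nat_lit 4) (nat_lit 65824) (nat_lit 8) (node (nat_lit 9) (nat_lit 77825) (nat_lit 9)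
  (node (nat_lit 4) (nat_lit 77825) (nat_lit 10) (node (nat_lit 6) (nat_lit 77825) (nat_lit 11)
  (node (nat_lit 9) (nat_lit 79038) (nat_lit 12) (node (nat_lit 6) (nat_lit 79038) (nat_lit 13)
  (node (nat_lit 4) (nat_lit 79038) (nat_lit 14) (node (nat_lit 6) (nat_lit 79038) (nat_lit 15)
  (node (nat_lit 5) (nat_lit 79038) (nat_lit 16) nil (node (nat_lit 9) (nat_lit 79527) (nat_lit
  16) nil nil)) nil) nil) nil) nil) nil) nil) nil) (node (nat_lit 5) (nat_lit 65777) (nat_lit 8)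
  nil (node (nat_lit 0) (nat_lit 67975) (nat_lit 8) nil nil))) (node (nat_lit 5) (nat_lit 65774)
  (nat_lit 7) (node (nat_lit 6) (nat_lit 65774) (nat_lit 8) nil nil) (node (nat_lit 0) (nat_lit
  69301) (nat_lit 7) nil nil)))) nil) (node (nat_lit 5) (nat_lit 0) (nat_lit 5) (node (nat_lit 0)
  (nat_lit 0) (nat_lit 6) (node (nat_lit 4) (nat_lit 36862) (nat_lit 7) (node (nat_lit 5) (nat_lit
  37016) (nat_lit 8) (node (nat_lit 6) (nat_lit 36993) (nat_lit 9) (node (nat_lit 4) (nat_lit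
  36993) (nat_lit 10) (node (nat_lit 6) (nat_lit 36993) (nat_lit 11) (node (nat_lit 5) (nat_lit
  36993) (nat_lit 12) (node (nat_lit 4) (nat_lit 36993) (nat_lit 13) nil (node (nat_lit 6)
  (nat_lit 36993) (nat_lit 13) nil nil)) nil) (node (nat_lit 5) (nat_lit 36993) (nat_lit 11) (node
  (nat_lit 4) (nat_lit 36993) (nat_lit 12) nil nil) (node (nat_lit 9) (nat_lit 41413) (nat_lit 11)
  nil nil))) (node (nat_lit 5) (nat_lit 36993) (nat_lit 10) (node (nat_lit 4) (nat_lit 36993)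
  (nat_lit 11) (node (nat_lit 5) (nat_lit 36993) (nat_lit 12) (node (nat_lit 6) (nat_lit 36993)
  (nat_lit 13) nil nil) (node (nat_lit 6) (nat_lit 36993) (nat_lit 12) (node (nat_lit 4) (nat_lit
  36993) (nat_lit 13) nil nil) nil)) (node (nat_lit 9) (nat_lit 40104) (nat_lit 11) nil (node
  (nat_lit 0) (nat_lit 38827) (nat_lit 11) nil nil))) (node (nat_lit 9) (nat_lit 42573) (nat_lit
  10) nil (node (nat_lit 0) (nat_lit 41303) (nat_lit 10) nil nil)))) (node (nat_lit 4) (nat_lit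
  37120) (nat_lit 9) (node (nat_lit 6) (nat_lit 37254) (nat_lit 10) (node (nat_lit 5) (nat_lit
  37254) (nat_lit 11) (node (nat_lit 6) (nat_lit 37254) (nat_lit 12) (node (nat_lit 4) (nat_lit
  37254) (nat_lit 13) nil nil) (node (nat_lit 4) (nat_lit 37254) (nat_lit 12) nil nil)) (node
  (nat_lit 4) (nat_lit 37254) (nat_lit 11) (node (nat_lit 5) (nat_lit 37254) (nat_lit 12) nil nil)
  (node (nat_lit 9) (nat_lit 41413) (nat_lit 11) nil (node (nat_lit 0) (nat_lit 40364) (nat_lit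
  11) nil nil)))) (node (nat_lit 9) (nat_lit 43925) (nat_lit 10) (node (nat_lit 4) (nat_lit 43925)
  (nat_lit 11) nil nil) (node (nat_lit 0) (nat_lit 42573) (nat_lit 10) nil nil))) (node (nat_lit
  0) (nat_lit 42843) (nat_lit 9) (node (nat_lit 4) (nat_lit 42843) (nat_lit 10) nil nil) nil)))
  nil) (node (nat_lit 5) (nat_lit 36768) (nat_lit 7) (node (nat_lit 4) (nat_lit 36768) (nat_lit 8)
  (node (nat_lit 9) (nat_lit 40655) (nat_lit 9) (node (nat_lit 4) (nat_lit 40655) (nat_lit 10) nil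
  nil) nil) nil) (node (nat_lit 6) (nat_lit 36768) (nat_lit 7) nil (node (nat_lit 0) (nat_lit
  37334) (nat_lit 7) nil nil)))) nil) nil)))

noncomputable def t253 : Tr :=
  (node (nat_lit 0) (nat_lit 0) (nat_lit 5) (node (nat_lit 5) (nat_lit 0) (nat_lit 6) (node
  (nat_lit 6) (nat_lit 68733) (nat_lit 7) (node (nat_lit 4) (nat_lit 70823) (nat_lit 8) (node
  (nat_lit 5) (nat_lit 71563) (nat_lit 9) (node (nat_lit 4) (nat_lit 71563) (nat_lit 10) (node
  (nat_lit 6) (nat_lit 71563) (nat_lit 11) (node (nat_lit 5) (nat_lit 71563) (nat_lit 12) (node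
  (nat_lit 6) (nat_lit 76280) (nat_lit 13) (node (nat_lit 4) (nat_lit 79178) (nat_lit 14) (node
  (nat_lit 5) (nat_lit 78175) (nat_lit 15) (node (nat_lit 6) (nat_lit 74829) (nat_lit 16) (node
  (nat_lit 5) (nat_lit 69596) (nat_lit 17) nil nil) nil) nil) nil) (node (nat_lit 4) (nat_lit
  75880) (nat_lit 13) nil nil)) (node (nat_lit 4) (nat_lit 71563) (nat_lit 12) (node (nat_lit 5)
  (nat_lit 74718) (nat_lit 13) (node (nat_lit 6) (nat_lit 75243) (nat_lit 14) nil nil) nil) (node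
  (nat_lit 8) (nat_lit 77499) (nat_lit 12) nil nil))) (node (nat_lit 8) (nat_lit 77142) (nat_lit
  11) nil (node (nat_lit 0) (nat_lit 77142) (nat_lit 11) nil nil))) (node (nat_lit 6) (nat_lit
  71563) (nat_lit 10) (node (nat_lit 5) (nat_lit 71563) (nat_lit 11) (node (nat_lit 4) (nat_lit
  71563) (nat_lit 12) (node (nat_lit 5) (nat_lit 74933) (nat_lit 13) (node (nat_lit 6) (nat_lit
  76040) (nat_lit 14) nil nil) (node (nat_lit 6) (nat_lit 73868) (nat_lit 13) nil nil)) (node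
  (nat_lit 8) (nat_lit 58467) (nat_lit 12) (node (nat_lit 5) (nat_lit 26072) (nat_lit 13) nil nil)
  nil)) (node (nat_lit 8) (nat_lit 77142) (nat_lit 11) nil nil)) (node (nat_lit 0) (nat_lit 81439)
  (nat_lit 10) nil (node (nat_lit 8) (nat_lit 81439) (nat_lit 10) nil nil)))) (node (nat_lit 6)
  (nat_lit 71563) (nat_lit 9) (node (nat_lit 5) (nat_lit 71563) (nat_lit 10) (node (nat_lit 6)
  (nat_lit 71563) (nat_lit 11) (node (nat_lit 4) (nat_lit 71563) (nat_lit 12) (node (nat_lit 5)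
  (nat_lit 73629) (nat_lit 13) (node (nat_lit 6) (nat_lit 74035) (nat_lit 14) (node (nat_lit 5)
  (nat_lit 74414) (nat_lit 15) nil nil) nil) nil) nil) (node (nat_lit 4) (nat_lit 71563) (nat_lit
  11) (node (nat_lit 5) (nat_lit 71563) (nat_lit 12) (node (nat_lit 6) (nat_lit 71568) (nat_lit
  13) (node (nat_lit 4) (nat_lit 72803) (nat_lit 14) nil nil) nil) (node (nat_lit 6) (nat_lit
  71563) (nat_lit 12) (node (nat_lit 4) (nat_lit 75139) (nat_lit 13) (node (nat_lit 5) (nat_lit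
  77972) (nat_lit 14) nil nil) nil) nil)) nil)) (node (nat_lit 8) (nat_lit 83307) (nat_lit 10) nil
  (node (nat_lit 0) (nat_lit 79804) (nat_lit 10) nil nil))) (node (nat_lit 0) (nat_lit 85030)
  (nat_lit 9) nil (node (nat_lit 8) (nat_lit 86243) (nat_lit 9) (node (nat_lit 6) (nat_lit 86243)
  (nat_lit 10) nil nil) nil)))) (node (nat_lit 8) (nat_lit 87274) (nat_lit 8) (node (nat_lit 5)
  (nat_lit 87274) (nat_lit 9) (node (nat_lit 8) (nat_lit 89470) (nat_lit 10) (node (nat_lit 6)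
  (nat_lit 89470) (nat_lit 11) (node (nat_lit 5) (nat_lit 89470) (nat_lit 12) (node (nat_lit 6)
  (nat_lit 89470) (nat_lit 13) (node (nat_lit 4) (nat_lit 89470) (nat_lit 14) nil (node (nat_lit
  8) (nat_lit 90459) (nat_lit 14) nil nil)) (node (nat_lit 4) (nat_lit 89470) (nat_lit 13) nil
  (node (nat_lit 8) (nat_lit 90359) (nat_lit 13) nil nil))) (node (nat_lit 8) (nat_lit 90230)
  (nat_lit 12) (node (nat_lit 5) (nat_lit 90230) (nat_lit 13) nil nil) (node (nat_lit 4) (nat_lit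
  89470) (nat_lit 12) nil nil))) (node (nat_lit 4) (nat_lit 89470) (nat_lit 11) nil (node (nat_lit
  0) (nat_lit 89928) (nat_lit 11) nil nil))) (node (nat_lit 4) (nat_lit 87274) (nat_lit 10) (node
  (nat_lit 5) (nat_lit 87274) (nat_lit 11) (node (nat_lit 6) (nat_lit 87274) (nat_lit 12) nil
  (node (nat_lit 8) (nat_lit 89430) (nat_lit 12) nil nil)) (node (nat_lit 6) (nat_lit 87274)
  (nat_lit 11) (node (nat_lit 4) (nat_lit 87274) (nat_lit 12) nil (node (nat_lit 5) (nat_lit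
  87274) (nat_lit 12) nil nil)) (node (nat_lit 8) (nat_lit 89073) (nat_lit 11) nil (node (nat_lit
  0) (nat_lit 89073) (nat_lit 11) nil nil)))) (node (nat_lit 0) (nat_lit 89470) (nat_lit 10) (node
  (nat_lit 5) (nat_lit 89470) (nat_lit 11) nil nil) nil))) (node (nat_lit 6) (nat_lit 87274)
  (nat_lit 9) (node (nat_lit 5) (nat_lit 87274) (nat_lit 10) (node (nat_lit 8) (nat_lit 89073)
  (nat_lit 11) nil nil) (node (nat_lit 4) (nat_lit 87274) (nat_lit 10) nil nil)) (node (nat_lit 4)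
  (nat_lit 87274) (nat_lit 9) nil (node (nat_lit 0) (nat_lit 88027) (nat_lit 9) nil nil)))) (node
  (nat_lit 5) (nat_lit 69997) (nat_lit 8) (node (nat_lit 4) (nat_lit 70563) (nat_lit 9) (node
  (nat_lit 6) (nat_lit 70689) (nat_lit 10) (node (nat_lit 4) (nat_lit 71240) (nat_lit 11) (node
  (nat_lit 5) (nat_lit 71240) (nat_lit 12) nil nil) (node (nat_lit 5) (nat_lit 70689) (nat_lit 11)
  nil nil)) (node (nat_lit 5) (nat_lit 70951) (nat_lit 10) (node (nat_lit 6) (nat_lit 70742)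
  (nat_lit 11) (node (nat_lit 4) (nat_lit 70742) (nat_lit 12) nil nil) nil) (node (nat_lit 8)
  (nat_lit 75684) (nat_lit 10) nil nil))) (node (nat_lit 0) (nat_lit 78850) (nat_lit 9) nil nil))
  (node (nat_lit 0) (nat_lit 85003) (nat_lit 8) (node (nat_lit 6) (nat_lit 85003) (nat_lit 9) nil
  (node (nat_lit 0) (nat_lit 85756) (nat_lit 9) nil (node (nat_lit 8) (nat_lit 85756) (nat_lit 9)
  nil (node (nat_lit 5) (nat_lit 85003) (nat_lit 9) nil nil)))) nil)))) (node (nat_lit 4) (nat_lit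
  68935) (nat_lit 7) (node (nat_lit 6) (nat_lit 70858) (nat_lit 8) (node (nat_lit 5) (nat_lit
  71568) (nat_lit 9) (node (nat_lit 6) (nat_lit 71568) (nat_lit 10) (node (nat_lit 4) (nat_lit
  71568) (nat_lit 11) (node (nat_lit 5) (nat_lit 71568) (nat_lit 12) (node (nat_lit 4) (nat_lit
  72951) (nat_lit 13) nil (node (nat_lit 6) (nat_lit 71573) (nat_lit 13) nil nil)) (node (nat_lit
  6) (nat_lit 71568) (nat_lit 12) (node (nat_lit 5) (nat_lit 70490) (nat_lit 13) nil nil) (node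
  (nat_lit 8) (nat_lit 77505) (nat_lit 12) nil nil))) (node (nat_lit 0) (nat_lit 77147) (nat_lit
  11) nil (node (nat_lit 8) (nat_lit 77147) (nat_lit 11) nil nil))) (node (nat_lit 4) (nat_lit
  71568) (nat_lit 10) (node (nat_lit 5) (nat_lit 71568) (nat_lit 11) (node (nat_lit 6) (nat_lit
  71568) (nat_lit 12) (node (nat_lit 5) (nat_lit 73748) (nat_lit 13) (node (nat_lit 8) (nat_lit
  57213) (nat_lit 14) nil nil) (node (nat_lit 4) (nat_lit 72951) (nat_lit 13) nil nil)) nil) nil)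
  (node (nat_lit 8) (nat_lit 81445) (nat_lit 10) nil (node (nat_lit 0) (nat_lit 81445) (nat_lit
  10) nil nil)))) (node (nat_lit 4) (nat_lit 71568) (nat_lit 9) (node (nat_lit 5) (nat_lit 71568)
  (nat_lit 10) (node (nat_lit 6) (nat_lit 71568) (nat_lit 11) (node (nat_lit 5) (nat_lit 71568)
  (nat_lit 12) (node (nat_lit 4) (nat_lit 76387) (nat_lit 13) (node (nat_lit 5) (nat_lit 78265)
  (nat_lit 14) nil (node (nat_lit 6) (nat_lit 77716) (nat_lit 14) nil nil)) (node (nat_lit 8)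
  (nat_lit 45526) (nat_lit 13) nil nil)) (node (nat_lit 4) (nat_lit 71568) (nat_lit 12) nil (node
  (nat_lit 8) (nat_lit 77505) (nat_lit 12) nil nil))) (node (nat_lit 4) (nat_lit 71568) (nat_lit
  11) (node (nat_lit 6) (nat_lit 71598) (nat_lit 12) (node (nat_lit 5) (nat_lit 75268) (nat_lit
  13) nil nil) nil) (node (nat_lit 8) (nat_lit 77147) (nat_lit 11) nil (node (nat_lit 0) (nat_lit
  77147) (nat_lit 11) nil nil)))) (node (nat_lit 8) (nat_lit 85077) (nat_lit 10) nil (node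
  (nat_lit 0) (nat_lit 81445) (nat_lit 10) nil nil))) (node (nat_lit 0) (nat_lit 85651) (nat_lit
  9) nil (node (nat_lit 8) (nat_lit 85651) (nat_lit 9) nil nil)))) (node (nat_lit 5) (nat_lit
  70639) (nat_lit 8) (node (nat_lit 6) (nat_lit 71436) (nat_lit 9) (node (nat_lit 4) (nat_lit
  71551) (nat_lit 10) (node (nat_lit 6) (nat_lit 71551) (nat_lit 11) (node (nat_lit 5) (nat_lit
  71551) (nat_lit 12) (node (nat_lit 4) (nat_lit 72210) (nat_lit 13) nil nil) nil) (node (nat_lit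
  5) (nat_lit 71551) (nat_lit 11) (node (nat_lit 4) (nat_lit 71551) (nat_lit 12) nil nil) (node
  (nat_lit 8) (nat_lit 77130) (nat_lit 11) nil nil))) (node (nat_lit 5) (nat_lit 71551) (nat_lit
  10) (node (nat_lit 4) (nat_lit 71551) (nat_lit 11) (node (nat_lit 6) (nat_lit 71551) (nat_lit
  12) (node (nat_lit 4) (nat_lit 75547) (nat_lit 13) (node (nat_lit 5) (nat_lit 78592) (nat_lit
  14) (node (nat_lit 6) (nat_lit 79162) (nat_lit 15) nil nil) nil) (node (nat_lit 5) (nat_lit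
  70472) (nat_lit 13) nil nil)) nil) (node (nat_lit 8) (nat_lit 50421) (nat_lit 11) nil nil))
  (node (nat_lit 8) (nat_lit 81334) (nat_lit 10) nil (node (nat_lit 0) (nat_lit 76557) (nat_lit
  10) nil nil)))) (node (nat_lit 8) (nat_lit 87815) (nat_lit 9) (node (nat_lit 4) (nat_lit 87815)
  (nat_lit 10) (node (nat_lit 8) (nat_lit 88861) (nat_lit 11) (node (nat_lit 5) (nat_lit 88861)
  (nat_lit 12) nil nil) (node (nat_lit 5) (nat_lit 87815) (nat_lit 11) nil nil)) nil) (node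
  (nat_lit 0) (nat_lit 84420) (nat_lit 9) nil nil))) (node (nat_lit 8) (nat_lit 86865) (nat_lit 8)
  (node (nat_lit 4) (nat_lit 86865) (nat_lit 9) (node (nat_lit 5) (nat_lit 86865) (nat_lit 10)
  (node (nat_lit 8) (nat_lit 88663) (nat_lit 11) nil nil) nil) (node (nat_lit 5) (nat_lit 86865)
  (nat_lit 9) (node (nat_lit 8) (nat_lit 88205) (nat_lit 10) nil nil) (node (nat_lit 6) (nat_lit
  86865) (nat_lit 9) nil (node (nat_lit 0) (nat_lit 87617) (nat_lit 9) nil nil)))) (node (nat_lit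
  0) (nat_lit 86391) (nat_lit 8) (node (nat_lit 4) (nat_lit 86391) (nat_lit 9) nil (node (nat_lit
  0) (nat_lit 87144) (nat_lit 9) nil (node (nat_lit 5) (nat_lit 86391) (nat_lit 9) nil (node
  (nat_lit 8) (nat_lit 87144) (nat_lit 9) nil nil)))) nil)))) (node (nat_lit 0) (nat_lit 83999)
  (nat_lit 7) (node (nat_lit 8) (nat_lit 86917) (nat_lit 8) (node (nat_lit 5) (nat_lit 86917)
  (nat_lit 9) (node (nat_lit 8) (nat_lit 88258) (nat_lit 10) nil (node (nat_lit 6) (nat_lit 86917)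
  (nat_lit 10) nil (node (nat_lit 4) (nat_lit 86917) (nat_lit 10) nil nil))) (node (nat_lit 10)
  (nat_lit 87670) (nat_lit 9) nil nil)) (node (nat_lit 5) (nat_lit 83999) (nat_lit 8) (node
  (nat_lit 8) (nat_lit 87141) (nat_lit 9) nil (node (nat_lit 6) (nat_lit 83999) (nat_lit 9) nil
  (node (nat_lit 4) (nat_lit 83999) (nat_lit 9) nil nil))) (node (nat_lit 6) (nat_lit 83999)
  (nat_lit 8) (node (nat_lit 5) (nat_lit 83999) (nat_lit 9) nil (node (nat_lit 8) (nat_lit 85715)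
  (nat_lit 9) nil nil)) (node (nat_lit 4) (nat_lit 83999) (nat_lit 8) nil (node (nat_lit 0)
  (nat_lit 86301) (nat_lit 8) nil nil))))) nil))) (node (nat_lit 6) (nat_lit 0) (nat_lit 6) (node
  (nat_lit 8) (nat_lit 83942) (nat_lit 7) (node (nat_lit 5) (nat_lit 83942) (nat_lit 8) (node
  (nat_lit 8) (nat_lit 88529) (nat_lit 9) (node (nat_lit 6) (nat_lit 88529) (nat_lit 10) (node
  (nat_lit 5) (nat_lit 88529) (nat_lit 11) (node (nat_lit 6) (nat_lit 88529) (nat_lit 12) (node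
  (nat_lit 4) (nat_lit 88529) (nat_lit 13) (node (nat_lit 5) (nat_lit 88529) (nat_lit 14) (node
  (nat_lit 6) (nat_lit 88529) (nat_lit 15) nil nil) (node (nat_lit 6) (nat_lit 88529) (nat_lit 14)
  (node (nat_lit 5) (nat_lit 88529) (nat_lit 15) nil nil) nil)) (node (nat_lit 8) (nat_lit 90211)
  (nat_lit 13) nil (node (nat_lit 0) (nat_lit 90211) (nat_lit 13) nil nil))) (node (nat_lit 4)
  (nat_lit 88529) (nat_lit 12) (node (nat_lit 6) (nat_lit 88529) (nat_lit 13) nil (node (nat_lit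
  5) (nat_lit 88529) (nat_lit 13) nil nil)) (node (nat_lit 8) (nat_lit 90395) (nat_lit 12) (node
  (nat_lit 5) (nat_lit 90395) (nat_lit 13) (node (nat_lit 6) (nat_lit 90395) (nat_lit 14) nil nil)
  nil) (node (nat_lit 0) (nat_lit 89932) (nat_lit 12) nil nil)))) (node (nat_lit 4) (nat_lit
  88529) (nat_lit 11) (node (nat_lit 5) (nat_lit 88529) (nat_lit 12) nil (node (nat_lit 6)
  (nat_lit 88529) (nat_lit 12) nil nil)) (node (nat_lit 0) (nat_lit 89575) (nat_lit 11) nil nil)))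
  nil) (node (nat_lit 6) (nat_lit 83942) (nat_lit 9) nil nil)) nil) (node (nat_lit 5) (nat_lit
  68792) (nat_lit 7) (node (nat_lit 6) (nat_lit 70590) (nat_lit 8) (node (nat_lit 8) (nat_lit
  85727) (nat_lit 9) (node (nat_lit 5) (nat_lit 85727) (nat_lit 10) (node (nat_lit 8) (nat_lit
  87470) (nat_lit 11) (node (nat_lit 6) (nat_lit 87470) (nat_lit 12) (node (nat_lit 5) (nat_lit
  87470) (nat_lit 13) (node (nat_lit 6) (nat_lit 87470) (nat_lit 14) nil nil) nil) nil) nil) nil)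
  (node (nat_lit 4) (nat_lit 70590) (nat_lit 9) nil nil)) (node (nat_lit 4) (nat_lit 68792)
  (nat_lit 8) nil nil)) (node (nat_lit 4) (nat_lit 68932) (nat_lit 7) (node (nat_lit 5) (nat_lit
  68932) (nat_lit 8) (node (nat_lit 6) (nat_lit 68932) (nat_lit 9) (node (nat_lit 5) (nat_lit
  68932) (nat_lit 10) (node (nat_lit 8) (nat_lit 21893) (nat_lit 11) nil nil) nil) (node (nat_lit
  4) (nat_lit 68932) (nat_lit 9) nil nil)) (node (nat_lit 8) (nat_lit 72713) (nat_lit 8) nil (node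
  (nat_lit 6) (nat_lit 68932) (nat_lit 8) nil (node (nat_lit 0) (nat_lit 72713) (nat_lit 8) nil
  nil)))) (node (nat_lit 0) (nat_lit 76422) (nat_lit 7) nil nil)))) (node (nat_lit 4) (nat_lit 0)
  (nat_lit 6) (node (nat_lit 5) (nat_lit 69064) (nat_lit 7) (node (nat_lit 4) (nat_lit 69064)
  (nat_lit 8) (node (nat_lit 8) (nat_lit 80625) (nat_lit 9) (node (nat_lit 5) (nat_lit 80625)
  (nat_lit 10) (node (nat_lit 8) (nat_lit 82307) (nat_lit 11) (node (nat_lit 4) (nat_lit 82307)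
  (nat_lit 12) (node (nat_lit 5) (nat_lit 82307) (nat_lit 13) nil nil) nil) nil) nil) (node
  (nat_lit 6) (nat_lit 69064) (nat_lit 9) nil nil)) (node (nat_lit 6) (nat_lit 69064) (nat_lit 8)
  nil (node (nat_lit 0) (nat_lit 72845) (nat_lit 8) nil nil))) (node (nat_lit 8) (nat_lit 82481)
  (nat_lit 7) (node (nat_lit 5) (nat_lit 82481) (nat_lit 8) (node (nat_lit 8) (nat_lit 85790)
  (nat_lit 9) (node (nat_lit 4) (nat_lit 85790) (nat_lit 10) (node (nat_lit 5) (nat_lit 85790)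
  (nat_lit 11) nil nil) nil) nil) nil) (node (nat_lit 6) (nat_lit 67497) (nat_lit 7) (node
  (nat_lit 5) (nat_lit 67497) (nat_lit 8) nil (node (nat_lit 8) (nat_lit 71278) (nat_lit 8) nil
  nil)) (node (nat_lit 0) (nat_lit 74029) (nat_lit 7) nil nil)))) (node (nat_lit 0) (nat_lit
  76953) (nat_lit 6) (node (nat_lit 5) (nat_lit 76999) (nat_lit 7) (node (nat_lit 8) (nat_lit
  83928) (nat_lit 8) (node (nat_lit 5) (nat_lit 83928) (nat_lit 9) (node (nat_lit 9) (nat_lit
  86085) (nat_lit 10) nil nil) (node (nat_lit 6) (nat_lit 83928) (nat_lit 9) nil (node (nat_lit 0)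
  (nat_lit 84681) (nat_lit 9) nil nil))) (node (nat_lit 9) (nat_lit 81340) (nat_lit 8) nil nil))
  (node (nat_lit 8) (nat_lit 81245) (nat_lit 7) (node (nat_lit 5) (nat_lit 81245) (nat_lit 8)
  (node (nat_lit 8) (nat_lit 84006) (nat_lit 9) (node (nat_lit 9) (nat_lit 84594) (nat_lit 10) nil
  nil) nil) nil) nil)) nil)))) (node (nat_lit 4) (nat_lit 0) (nat_lit 5) (node (nat_lit 0)
  (nat_lit 0) (nat_lit 6) (node (nat_lit 5) (nat_lit 70505) (nat_lit 7) (node (nat_lit 4) (nat_lit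
  71674) (nat_lit 8) (node (nat_lit 5) (nat_lit 72341) (nat_lit 9) (node (nat_lit 6) (nat_lit
  72345) (nat_lit 10) (node (nat_lit 4) (nat_lit 72345) (nat_lit 11) (node (nat_lit 6) (nat_lit
  72345) (nat_lit 12) (node (nat_lit 5) (nat_lit 72345) (nat_lit 13) nil nil) (node (nat_lit 5)
  (nat_lit 72345) (nat_lit 12) (node (nat_lit 4) (nat_lit 72345) (nat_lit 13) nil nil) (node
  (nat_lit 9) (nat_lit 76699) (nat_lit 12) nil (node (nat_lit 0) (nat_lit 76699) (nat_lit 12) nil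
  nil)))) (node (nat_lit 5) (nat_lit 72345) (nat_lit 11) (node (nat_lit 4) (nat_lit 72345)
  (nat_lit 12) (node (nat_lit 9) (nat_lit 48835) (nat_lit 13) nil nil) nil) (node (nat_lit 9)
  (nat_lit 79553) (nat_lit 11) nil (node (nat_lit 0) (nat_lit 78776) (nat_lit 11) nil nil))))
  (node (nat_lit 9) (nat_lit 85827) (nat_lit 10) (node (nat_lit 5) (nat_lit 85827) (nat_lit 11)
  (node (nat_lit 4) (nat_lit 85827) (nat_lit 12) nil (node (nat_lit 6) (nat_lit 85827) (nat_lit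
  12) nil nil)) (node (nat_lit 4) (nat_lit 85827) (nat_lit 11) nil nil)) (node (nat_lit 0)
  (nat_lit 84567) (nat_lit 10) nil nil))) (node (nat_lit 6) (nat_lit 71836) (nat_lit 9) (node
  (nat_lit 5) (nat_lit 72063) (nat_lit 10) (node (nat_lit 6) (nat_lit 72063) (nat_lit 11) (node
  (nat_lit 4) (nat_lit 72063) (nat_lit 12) (node (nat_lit 5) (nat_lit 72063) (nat_lit 13) nil
  (node (nat_lit 6) (nat_lit 72063) (nat_lit 13) nil nil)) nil) (node (nat_lit 4) (nat_lit 72063)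
  (nat_lit 11) (node (nat_lit 5) (nat_lit 72063) (nat_lit 12) nil nil) (node (nat_lit 9) (nat_lit
  79952) (nat_lit 11) nil (node (nat_lit 0) (nat_lit 76060) (nat_lit 11) nil nil)))) (node
  (nat_lit 4) (nat_lit 71644) (nat_lit 10) (node (nat_lit 5) (nat_lit 71644) (nat_lit 11) (node
  (nat_lit 4) (nat_lit 71644) (nat_lit 12) (node (nat_lit 6) (nat_lit 71644) (nat_lit 13) nil nil)
  (node (nat_lit 6) (nat_lit 71644) (nat_lit 12) nil nil)) (node (nat_lit 9) (nat_lit 77852)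
  (nat_lit 11) nil (node (nat_lit 0) (nat_lit 75640) (nat_lit 11) nil nil))) (node (nat_lit 9)
  (nat_lit 84567) (nat_lit 10) (node (nat_lit 4) (nat_lit 84567) (nat_lit 11) nil (node (nat_lit
  5) (nat_lit 84567) (nat_lit 11) nil (node (nat_lit 6) (nat_lit 84567) (nat_lit 11) nil nil)))
  (node (nat_lit 0) (nat_lit 79215) (nat_lit 10) nil nil)))) (node (nat_lit 0) (nat_lit 84208)
  (nat_lit 9) (node (nat_lit 5) (nat_lit 84208) (nat_lit 10) nil (node (nat_lit 4) (nat_lit 84208)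
  (nat_lit 10) nil (node (nat_lit 0) (nat_lit 84795) (nat_lit 10) nil (node (nat_lit 9) (nat_lit
  84795) (nat_lit 10) nil (node (nat_lit 6) (nat_lit 84208) (nat_lit 10) nil nil))))) nil))) nil)
  (node (nat_lit 4) (nat_lit 69708) (nat_lit 7) (node (nat_lit 5) (nat_lit 69708) (nat_lit 8)
  (node (nat_lit 9) (nat_lit 76451) (nat_lit 9) (node (nat_lit 5) (nat_lit 76451) (nat_lit 10)
  (node (nat_lit 4) (nat_lit 76451) (nat_lit 11) nil nil) nil) nil) nil) (node (nat_lit 6)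
  (nat_lit 69708) (nat_lit 7) nil (node (nat_lit 0) (nat_lit 72220) (nat_lit 7) nil nil)))) nil)
  nil))

noncomputable def t254 : Tr :=
  (node (nat_lit 5) (nat_lit 0) (nat_lit 5) (node (nat_lit 7) (nat_lit 0) (nat_lit 6) (node
  (nat_lit 4) (nat_lit 61483) (nat_lit 7) (node (nat_lit 5) (nat_lit 61483) (nat_lit 8) (node
  (nat_lit 4) (nat_lit 61483) (nat_lit 9) (node (nat_lit 3) (nat_lit 61483) (nat_lit 10) (node
  (nat_lit 5) (nat_lit 61483) (nat_lit 11) (node (nat_lit 4) (nat_lit 61483) (nat_lit 12) (node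
  (nat_lit 5) (nat_lit 61500) (nat_lit 13) (node (nat_lit 13) (nat_lit 63223) (nat_lit 14) (node
  (nat_lit 4) (nat_lit 63726) (nat_lit 15) nil nil) nil) nil) (node (nat_lit 13) (nat_lit 61483)
  (nat_lit 12) (node (nat_lit 4) (nat_lit 61483) (nat_lit 13) (node (nat_lit 5) (nat_lit 62127)
  (nat_lit 14) nil nil) nil) nil)) (node (nat_lit 4) (nat_lit 61483) (nat_lit 11) (node (nat_lit
  5) (nat_lit 61483) (nat_lit 12) (node (nat_lit 13) (nat_lit 61483) (nat_lit 13) nil nil) nil)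
  (node (nat_lit 0) (nat_lit 63570) (nat_lit 11) nil nil))) (node (nat_lit 7) (nat_lit 64642)
  (nat_lit 10) nil (node (nat_lit 0) (nat_lit 63331) (nat_lit 10) nil nil))) (node (nat_lit 3)
  (nat_lit 61483) (nat_lit 9) (node (nat_lit 4) (nat_lit 61483) (nat_lit 10) (node (nat_lit 12)
  (nat_lit 61483) (nat_lit 11) (node (nat_lit 5) (nat_lit 61483) (nat_lit 12) (node (nat_lit 12)
  (nat_lit 61483) (nat_lit 13) (node (nat_lit 4) (nat_lit 63223) (nat_lit 14) (node (nat_lit 5)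
  (nat_lit 63053) (nat_lit 15) nil nil) nil) (node (nat_lit 4) (nat_lit 61483) (nat_lit 13) nil
  nil)) nil) (node (nat_lit 5) (nat_lit 61483) (nat_lit 11) (node (nat_lit 4) (nat_lit 61483)
  (nat_lit 12) nil nil) nil)) (node (nat_lit 5) (nat_lit 61483) (nat_lit 10) (node (nat_lit 4)
  (nat_lit 61483) (nat_lit 11) (node (nat_lit 12) (nat_lit 61483) (nat_lit 12) nil (node (nat_lit
  5) (nat_lit 61483) (nat_lit 12) (node (nat_lit 12) (nat_lit 61520) (nat_lit 13) (node (nat_lit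
  4) (nat_lit 62731) (nat_lit 14) nil nil) nil) nil)) nil) nil)) (node (nat_lit 0) (nat_lit 63023)
  (nat_lit 9) nil nil))) (node (nat_lit 3) (nat_lit 61483) (nat_lit 8) (node (nat_lit 5) (nat_lit
  61483) (nat_lit 9) (node (nat_lit 4) (nat_lit 61483) (nat_lit 10) nil nil) (node (nat_lit 4)
  (nat_lit 61483) (nat_lit 9) nil nil)) (node (nat_lit 7) (nat_lit 63970) (nat_lit 8) (node
  (nat_lit 5) (nat_lit 63970) (nat_lit 9) nil nil) (node (nat_lit 0) (nat_lit 62631) (nat_lit 8)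
  nil nil)))) (node (nat_lit 3) (nat_lit 61483) (nat_lit 7) (node (nat_lit 5) (nat_lit 61483)
  (nat_lit 8) (node (nat_lit 4) (nat_lit 61483) (nat_lit 9) (node (nat_lit 10) (nat_lit 61483)
  (nat_lit 10) (node (nat_lit 4) (nat_lit 61483) (nat_lit 11) nil nil) (node (nat_lit 5) (nat_lit
  61483) (nat_lit 10) (node (nat_lit 10) (nat_lit 61483) (nat_lit 11) nil nil) nil)) (node
  (nat_lit 10) (nat_lit 61483) (nat_lit 9) (node (nat_lit 4) (nat_lit 61483) (nat_lit 10) (node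
  (nat_lit 5) (nat_lit 61483) (nat_lit 11) nil (node (nat_lit 10) (nat_lit 61483) (nat_lit 11) nil
  nil)) nil) (node (nat_lit 0) (nat_lit 63023) (nat_lit 9) nil nil))) (node (nat_lit 4) (nat_lit
  61483) (nat_lit 8) nil nil)) (node (nat_lit 0) (nat_lit 62880) (nat_lit 7) nil nil))) (node
  (nat_lit 3) (nat_lit 0) (nat_lit 6) (node (nat_lit 4) (nat_lit 49503) (nat_lit 7) (node (nat_lit
  5) (nat_lit 50380) (nat_lit 8) (node (nat_lit 9) (nat_lit 50770) (nat_lit 9) (node (nat_lit 5)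
  (nat_lit 50886) (nat_lit 10) (node (nat_lit 4) (nat_lit 50947) (nat_lit 11) (node (nat_lit 9)
  (nat_lit 54029) (nat_lit 12) (node (nat_lit 4) (nat_lit 52233) (nat_lit 13) (node (nat_lit 5)
  (nat_lit 49797) (nat_lit 14) nil nil) (node (nat_lit 5) (nat_lit 53166) (nat_lit 13) nil nil))
  (node (nat_lit 5) (nat_lit 53292) (nat_lit 12) (node (nat_lit 9) (nat_lit 53088) (nat_lit 13)
  (node (nat_lit 4) (nat_lit 52186) (nat_lit 14) nil nil) nil) nil)) nil) nil) (node (nat_lit 4)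
  (nat_lit 50886) (nat_lit 9) (node (nat_lit 9) (nat_lit 50886) (nat_lit 10) (node (nat_lit 4)
  (nat_lit 50886) (nat_lit 11) (node (nat_lit 5) (nat_lit 53089) (nat_lit 12) nil nil) (node
  (nat_lit 5) (nat_lit 50886) (nat_lit 11) (node (nat_lit 4) (nat_lit 51140) (nat_lit 12) (node
  (nat_lit 5) (nat_lit 49226) (nat_lit 13) nil nil) (node (nat_lit 9) (nat_lit 53324) (nat_lit 12)
  (node (nat_lit 4) (nat_lit 51528) (nat_lit 13) nil nil) nil)) nil)) (node (nat_lit 7) (nat_lit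
  16437) (nat_lit 10) nil nil)) (node (nat_lit 7) (nat_lit 53844) (nat_lit 9) nil (node (nat_lit
  0) (nat_lit 53844) (nat_lit 9) nil nil)))) (node (nat_lit 9) (nat_lit 50495) (nat_lit 8) (node
  (nat_lit 5) (nat_lit 50886) (nat_lit 9) (node (nat_lit 4) (nat_lit 50886) (nat_lit 10) (node
  (nat_lit 5) (nat_lit 50886) (nat_lit 11) (node (nat_lit 9) (nat_lit 53491) (nat_lit 12) (node
  (nat_lit 4) (nat_lit 51695) (nat_lit 13) (node (nat_lit 5) (nat_lit 49260) (nat_lit 14) (node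
  (nat_lit 4) (nat_lit 43668) (nat_lit 15) nil nil) nil) (node (nat_lit 5) (nat_lit 53893)
  (nat_lit 13) nil nil)) nil) (node (nat_lit 9) (nat_lit 50886) (nat_lit 11) (node (nat_lit 4)
  (nat_lit 54076) (nat_lit 12) (node (nat_lit 5) (nat_lit 56242) (nat_lit 13) nil nil) nil) (node
  (nat_lit 7) (nat_lit 54895) (nat_lit 11) nil nil))) (node (nat_lit 9) (nat_lit 50886) (nat_lit
  10) (node (nat_lit 4) (nat_lit 50886) (nat_lit 11) (node (nat_lit 5) (nat_lit 52775) (nat_lit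
  12) nil nil) nil) nil)) (node (nat_lit 7) (nat_lit 57955) (nat_lit 9) nil nil)) (node (nat_lit
  7) (nat_lit 56112) (nat_lit 8) nil (node (nat_lit 0) (nat_lit 52573) (nat_lit 8) nil nil))))
  (node (nat_lit 5) (nat_lit 0) (nat_lit 7) (node (nat_lit 4) (nat_lit 50517) (nat_lit 8) (node
  (nat_lit 9) (nat_lit 50886) (nat_lit 9) (node (nat_lit 4) (nat_lit 50886) (nat_lit 10) (node
  (nat_lit 5) (nat_lit 50886) (nat_lit 11) (node (nat_lit 4) (nat_lit 53404) (nat_lit 12) (node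
  (nat_lit 7) (nat_lit 44317) (nat_lit 13) (node (nat_lit 5) (nat_lit 34496) (nat_lit 14) nil nil)
  nil) (node (nat_lit 9) (nat_lit 53061) (nat_lit 12) (node (nat_lit 4) (nat_lit 53888) (nat_lit
  13) nil nil) nil)) nil) (node (nat_lit 5) (nat_lit 50886) (nat_lit 10) (node (nat_lit 9)
  (nat_lit 50886) (nat_lit 11) (node (nat_lit 4) (nat_lit 54979) (nat_lit 12) (node (nat_lit 5)
  (nat_lit 56136) (nat_lit 13) nil nil) nil) nil) (node (nat_lit 7) (nat_lit 54657) (nat_lit 10)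
  nil nil))) (node (nat_lit 5) (nat_lit 50886) (nat_lit 9) (node (nat_lit 9) (nat_lit 50886)
  (nat_lit 10) (node (nat_lit 4) (nat_lit 50947) (nat_lit 11) (node (nat_lit 9) (nat_lit 51201)
  (nat_lit 12) nil (node (nat_lit 5) (nat_lit 52450) (nat_lit 12) (node (nat_lit 4) (nat_lit
  50535) (nat_lit 13) nil nil) nil)) (node (nat_lit 5) (nat_lit 50886) (nat_lit 11) nil nil)) nil)
  (node (nat_lit 7) (nat_lit 53980) (nat_lit 9) nil (node (nat_lit 0) (nat_lit 53980) (nat_lit 9)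
  nil nil)))) (node (nat_lit 7) (nat_lit 58687) (nat_lit 8) nil (node (nat_lit 0) (nat_lit 56532)
  (nat_lit 8) nil nil))) (node (nat_lit 7) (nat_lit 60724) (nat_lit 7) (node (nat_lit 9) (nat_lit
  60724) (nat_lit 8) (node (nat_lit 5) (nat_lit 60724) (nat_lit 9) (node (nat_lit 9) (nat_lit
  60724) (nat_lit 10) nil nil) nil) (node (nat_lit 5) (nat_lit 60724) (nat_lit 8) nil (node
  (nat_lit 4) (nat_lit 60724) (nat_lit 8) nil nil))) (node (nat_lit 0) (nat_lit 57187) (nat_lit 7)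
  nil nil)))) (node (nat_lit 4) (nat_lit 0) (nat_lit 6) (node (nat_lit 5) (nat_lit 50069) (nat_lit
  7) (node (nat_lit 3) (nat_lit 50962) (nat_lit 8) (node (nat_lit 4) (nat_lit 50962) (nat_lit 9)
  (node (nat_lit 11) (nat_lit 50962) (nat_lit 10) (node (nat_lit 5) (nat_lit 50962) (nat_lit 11)
  (node (nat_lit 11) (nat_lit 55477) (nat_lit 12) (node (nat_lit 4) (nat_lit 57956) (nat_lit 13)
  (node (nat_lit 5) (nat_lit 58850) (nat_lit 14) (node (nat_lit 4) (nat_lit 58575) (nat_lit 15)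
  nil nil) nil) nil) (node (nat_lit 4) (nat_lit 55384) (nat_lit 12) (node (nat_lit 11) (nat_lit
  57174) (nat_lit 13) nil (node (nat_lit 5) (nat_lit 54433) (nat_lit 13) nil nil)) nil)) (node
  (nat_lit 0) (nat_lit 54971) (nat_lit 11) nil (node (nat_lit 7) (nat_lit 54971) (nat_lit 11) nil
  nil))) (node (nat_lit 5) (nat_lit 50962) (nat_lit 10) (node (nat_lit 4) (nat_lit 50962) (nat_lit
  11) (node (nat_lit 7) (nat_lit 43021) (nat_lit 12) (node (nat_lit 5) (nat_lit 31602) (nat_lit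
  13) (node (nat_lit 4) (nat_lit 20408) (nat_lit 14) nil nil) nil) (node (nat_lit 11) (nat_lit
  55818) (nat_lit 12) (node (nat_lit 5) (nat_lit 53903) (nat_lit 13) nil (node (nat_lit 4)
  (nat_lit 58110) (nat_lit 13) nil nil)) nil)) nil) (node (nat_lit 7) (nat_lit 59087) (nat_lit 10)
  nil (node (nat_lit 0) (nat_lit 54732) (nat_lit 10) nil nil)))) (node (nat_lit 5) (nat_lit 50962)
  (nat_lit 9) (node (nat_lit 4) (nat_lit 50962) (nat_lit 10) (node (nat_lit 11) (nat_lit 50962)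
  (nat_lit 11) (node (nat_lit 4) (nat_lit 55429) (nat_lit 12) (node (nat_lit 5) (nat_lit 57357)
  (nat_lit 13) nil nil) (node (nat_lit 5) (nat_lit 54440) (nat_lit 12) (node (nat_lit 11) (nat_lit
  51005) (nat_lit 13) nil nil) nil)) (node (nat_lit 5) (nat_lit 50962) (nat_lit 11) nil nil))
  (node (nat_lit 7) (nat_lit 54732) (nat_lit 10) nil (node (nat_lit 0) (nat_lit 54732) (nat_lit
  10) nil nil))) (node (nat_lit 7) (nat_lit 58421) (nat_lit 9) nil (node (nat_lit 0) (nat_lit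
  58421) (nat_lit 9) nil nil)))) (node (nat_lit 7) (nat_lit 63276) (nat_lit 8) (node (nat_lit 4)
  (nat_lit 63276) (nat_lit 9) (node (nat_lit 5) (nat_lit 63276) (nat_lit 10) nil nil) nil) (node
  (nat_lit 0) (nat_lit 60040) (nat_lit 8) nil nil))) (node (nat_lit 3) (nat_lit 50279) (nat_lit 7)
  (node (nat_lit 5) (nat_lit 50626) (nat_lit 8) (node (nat_lit 4) (nat_lit 50614) (nat_lit 9)
  (node (nat_lit 5) (nat_lit 50614) (nat_lit 10) (node (nat_lit 10) (nat_lit 50233) (nat_lit 11)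
  (node (nat_lit 5) (nat_lit 52794) (nat_lit 12) (node (nat_lit 4) (nat_lit 52641) (nat_lit 13)
  (node (nat_lit 10) (nat_lit 52247) (nat_lit 14) (node (nat_lit 4) (nat_lit 51763) (nat_lit 15)
  (node (nat_lit 5) (nat_lit 50529) (nat_lit 16) nil nil) nil) nil) nil) (node (nat_lit 4)
  (nat_lit 52988) (nat_lit 12) (node (nat_lit 10) (nat_lit 53815) (nat_lit 13) nil (node (nat_lit
  5) (nat_lit 54505) (nat_lit 13) nil nil)) nil)) nil) nil) (node (nat_lit 10) (nat_lit 50582)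
  (nat_lit 9) (node (nat_lit 4) (nat_lit 50421) (nat_lit 10) (node (nat_lit 5) (nat_lit 50916)
  (nat_lit 11) (node (nat_lit 4) (nat_lit 54519) (nat_lit 12) (node (nat_lit 7) (nat_lit 34508)
  (nat_lit 13) nil nil) (node (nat_lit 10) (nat_lit 52013) (nat_lit 12) nil nil)) (node (nat_lit
  10) (nat_lit 50070) (nat_lit 11) (node (nat_lit 5) (nat_lit 47627) (nat_lit 12) nil nil) nil))
  nil) nil)) (node (nat_lit 4) (nat_lit 50984) (nat_lit 8) (node (nat_lit 5) (nat_lit 50984)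
  (nat_lit 9) (node (nat_lit 4) (nat_lit 50984) (nat_lit 10) (node (nat_lit 10) (nat_lit 50984)
  (nat_lit 11) (node (nat_lit 5) (nat_lit 53485) (nat_lit 12) nil nil) (node (nat_lit 7) (nat_lit
  23803) (nat_lit 11) nil nil)) (node (nat_lit 10) (nat_lit 50984) (nat_lit 10) (node (nat_lit 4)
  (nat_lit 50984) (nat_lit 11) nil (node (nat_lit 5) (nat_lit 50984) (nat_lit 11) nil nil)) nil))
  (node (nat_lit 7) (nat_lit 54447) (nat_lit 9) nil nil)) (node (nat_lit 7) (nat_lit 56887)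
  (nat_lit 8) nil (node (nat_lit 0) (nat_lit 53349) (nat_lit 8) nil nil)))) (node (nat_lit 0)
  (nat_lit 57849) (nat_lit 7) nil nil))) (node (nat_lit 0) (nat_lit 0) (nat_lit 6) (node (nat_lit
  5) (nat_lit 58360) (nat_lit 7) nil (node (nat_lit 7) (nat_lit 59005) (nat_lit 7) nil (node
  (nat_lit 4) (nat_lit 58360) (nat_lit 7) nil (node (nat_lit 3) (nat_lit 58360) (nat_lit 7) nil
  (node (nat_lit 0) (nat_lit 59005) (nat_lit 7) nil nil))))) nil)))) (node (nat_lit 4) (nat_lit 0)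
  (nat_lit 5) (node (nat_lit 5) (nat_lit 0) (nat_lit 6) (node (nat_lit 3) (nat_lit 50254) (nat_lit
  7) (node (nat_lit 5) (nat_lit 50958) (nat_lit 8) (node (nat_lit 4) (nat_lit 50958) (nat_lit 9)
  (node (nat_lit 10) (nat_lit 50958) (nat_lit 10) (node (nat_lit 4) (nat_lit 50821) (nat_lit 11)
  (node (nat_lit 5) (nat_lit 53382) (nat_lit 12) (node (nat_lit 4) (nat_lit 54849) (nat_lit 13)
  (node (nat_lit 7) (nat_lit 35036) (nat_lit 14) nil nil) (node (nat_lit 10) (nat_lit 55172)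
  (nat_lit 13) (node (nat_lit 4) (nat_lit 55816) (nat_lit 14) nil nil) nil)) nil) (node (nat_lit
  5) (nat_lit 50958) (nat_lit 11) nil nil)) (node (nat_lit 5) (nat_lit 50958) (nat_lit 10) (node
  (nat_lit 10) (nat_lit 50991) (nat_lit 11) (node (nat_lit 4) (nat_lit 53629) (nat_lit 12) (node
  (nat_lit 5) (nat_lit 54772) (nat_lit 13) (node (nat_lit 4) (nat_lit 55541) (nat_lit 14) nil nil)
  nil) nil) nil) (node (nat_lit 7) (nat_lit 54729) (nat_lit 10) nil nil))) (node (nat_lit 7)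
  (nat_lit 54421) (nat_lit 9) nil nil)) (node (nat_lit 4) (nat_lit 50958) (nat_lit 8) (node
  (nat_lit 10) (nat_lit 50958) (nat_lit 9) (node (nat_lit 5) (nat_lit 50958) (nat_lit 10) (node
  (nat_lit 4) (nat_lit 50958) (nat_lit 11) nil (node (nat_lit 10) (nat_lit 50958) (nat_lit 11)
  (node (nat_lit 4) (nat_lit 54458) (nat_lit 12) (node (nat_lit 5) (nat_lit 55604) (nat_lit 13)
  nil nil) nil) nil)) nil) (node (nat_lit 5) (nat_lit 50958) (nat_lit 9) (node (nat_lit 4)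
  (nat_lit 50958) (nat_lit 10) (node (nat_lit 10) (nat_lit 50958) (nat_lit 11) (node (nat_lit 4)
  (nat_lit 53743) (nat_lit 12) (node (nat_lit 5) (nat_lit 55622) (nat_lit 13) nil nil) (node
  (nat_lit 5) (nat_lit 53289) (nat_lit 12) nil nil)) (node (nat_lit 7) (nat_lit 26274) (nat_lit
  11) nil nil)) nil) (node (nat_lit 7) (nat_lit 54421) (nat_lit 9) nil nil))) (node (nat_lit 7)
  (nat_lit 56513) (nat_lit 8) nil (node (nat_lit 0) (nat_lit 53325) (nat_lit 8) nil nil)))) (node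
  (nat_lit 4) (nat_lit 49614) (nat_lit 7) (node (nat_lit 3) (nat_lit 49608) (nat_lit 8) (node
  (nat_lit 5) (nat_lit 49998) (nat_lit 9) (node (nat_lit 4) (nat_lit 50426) (nat_lit 10) (node
  (nat_lit 5) (nat_lit 50951) (nat_lit 11) (node (nat_lit 11) (nat_lit 52234) (nat_lit 12) (node
  (nat_lit 4) (nat_lit 50935) (nat_lit 13) nil nil) nil) (node (nat_lit 7) (nat_lit 54436)
  (nat_lit 11) nil nil)) (node (nat_lit 11) (nat_lit 50426) (nat_lit 10) (node (nat_lit 4)
  (nat_lit 50076) (nat_lit 11) (node (nat_lit 5) (nat_lit 51809) (nat_lit 12) nil (node (nat_lit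
  11) (nat_lit 50330) (nat_lit 12) nil nil)) nil) nil)) (node (nat_lit 4) (nat_lit 49596) (nat_lit
  9) (node (nat_lit 5) (nat_lit 49435) (nat_lit 10) (node (nat_lit 11) (nat_lit 49085) (nat_lit
  11) (node (nat_lit 4) (nat_lit 50181) (nat_lit 12) nil (node (nat_lit 5) (nat_lit 50181)
  (nat_lit 12) nil nil)) (node (nat_lit 4) (nat_lit 49435) (nat_lit 11) nil nil)) (node (nat_lit
  7) (nat_lit 53367) (nat_lit 10) nil nil)) (node (nat_lit 0) (nat_lit 53071) (nat_lit 9) nil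
  (node (nat_lit 7) (nat_lit 53071) (nat_lit 9) nil nil)))) (node (nat_lit 0) (nat_lit 56223)
  (nat_lit 8) nil nil)) (node (nat_lit 7) (nat_lit 58883) (nat_lit 7) (node (nat_lit 5) (nat_lit
  58883) (nat_lit 8) (node (nat_lit 4) (nat_lit 58883) (nat_lit 9) nil nil) nil) (node (nat_lit 0)
  (nat_lit 57069) (nat_lit 7) nil nil)))) (node (nat_lit 3) (nat_lit 0) (nat_lit 6) (node (nat_lit
  5) (nat_lit 50311) (nat_lit 7) (node (nat_lit 9) (nat_lit 50311) (nat_lit 8) (node (nat_lit 4)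
  (nat_lit 50311) (nat_lit 9) (node (nat_lit 5) (nat_lit 50311) (nat_lit 10) (node (nat_lit 4)
  (nat_lit 50807) (nat_lit 11) (node (nat_lit 9) (nat_lit 51469) (nat_lit 12) (node (nat_lit 4)
  (nat_lit 53042) (nat_lit 13) (node (nat_lit 5) (nat_lit 50562) (nat_lit 14) nil nil) nil) (node
  (nat_lit 7) (nat_lit 33996) (nat_lit 12) nil nil)) (node (nat_lit 9) (nat_lit 50311) (nat_lit
  11) nil nil)) (node (nat_lit 9) (nat_lit 50311) (nat_lit 10) (node (nat_lit 5) (nat_lit 50807)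
  (nat_lit 11) (node (nat_lit 4) (nat_lit 51469) (nat_lit 12) nil nil) nil) (node (nat_lit 7)
  (nat_lit 54082) (nat_lit 10) nil nil))) (node (nat_lit 7) (nat_lit 53775) (nat_lit 9) nil nil))
  (node (nat_lit 4) (nat_lit 50993) (nat_lit 8) (node (nat_lit 5) (nat_lit 50993) (nat_lit 9)
  (node (nat_lit 9) (nat_lit 50993) (nat_lit 10) (node (nat_lit 4) (nat_lit 50993) (nat_lit 11)
  (node (nat_lit 9) (nat_lit 52089) (nat_lit 12) nil (node (nat_lit 5) (nat_lit 52981) (nat_lit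
  12) (node (nat_lit 4) (nat_lit 53944) (nat_lit 13) nil nil) nil)) (node (nat_lit 5) (nat_lit
  50993) (nat_lit 11) nil nil)) nil) (node (nat_lit 9) (nat_lit 50993) (nat_lit 9) (node (nat_lit
  4) (nat_lit 50993) (nat_lit 10) (node (nat_lit 5) (nat_lit 50993) (nat_lit 11) (node (nat_lit 4)
  (nat_lit 54010) (nat_lit 12) (node (nat_lit 7) (nat_lit 32710) (nat_lit 13) nil nil) (node
  (nat_lit 9) (nat_lit 53324) (nat_lit 12) nil nil)) nil) nil) (node (nat_lit 7) (nat_lit 54456)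
  (nat_lit 9) nil nil))) (node (nat_lit 7) (nat_lit 56513) (nat_lit 8) nil (node (nat_lit 0)
  (nat_lit 53382) (nat_lit 8) nil nil)))) (node (nat_lit 4) (nat_lit 50141) (nat_lit 7) (node
  (nat_lit 5) (nat_lit 50194) (nat_lit 8) (node (nat_lit 9) (nat_lit 50150) (nat_lit 9) (node
  (nat_lit 4) (nat_lit 49988) (nat_lit 10) (node (nat_lit 9) (nat_lit 49638) (nat_lit 11) (node
  (nat_lit 5) (nat_lit 47194) (nat_lit 12) nil nil) nil) (node (nat_lit 5) (nat_lit 50150)
  (nat_lit 10) (node (nat_lit 4) (nat_lit 50645) (nat_lit 11) (node (nat_lit 5) (nat_lit 51497)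
  (nat_lit 12) nil (node (nat_lit 9) (nat_lit 51307) (nat_lit 12) nil nil)) nil) nil)) (node
  (nat_lit 4) (nat_lit 50584) (nat_lit 9) (node (nat_lit 9) (nat_lit 50979) (nat_lit 10) (node
  (nat_lit 5) (nat_lit 50979) (nat_lit 11) (node (nat_lit 4) (nat_lit 52075) (nat_lit 12) nil nil)
  (node (nat_lit 4) (nat_lit 50979) (nat_lit 11) nil nil)) (node (nat_lit 7) (nat_lit 31716)
  (nat_lit 10) nil nil)) (node (nat_lit 7) (nat_lit 53657) (nat_lit 9) nil nil))) (node (nat_lit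
  7) (nat_lit 59851) (nat_lit 8) nil (node (nat_lit 0) (nat_lit 56513) (nat_lit 8) nil nil)))
  (node (nat_lit 7) (nat_lit 59070) (nat_lit 7) (node (nat_lit 9) (nat_lit 59070) (nat_lit 8) nil
  nil) (node (nat_lit 0) (nat_lit 57255) (nat_lit 7) nil nil)))) (node (nat_lit 0) (nat_lit 0)
  (nat_lit 6) (node (nat_lit 4) (nat_lit 58209) (nat_lit 7) (node (nat_lit 7) (nat_lit 59358)
  (nat_lit 8) nil nil) (node (nat_lit 7) (nat_lit 59607) (nat_lit 7) nil (node (nat_lit 3)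
  (nat_lit 58209) (nat_lit 7) nil (node (nat_lit 5) (nat_lit 58209) (nat_lit 7) nil (node (nat_lit
  0) (nat_lit 59607) (nat_lit 7) nil nil))))) nil))) (node (nat_lit 0) (nat_lit 0) (nat_lit 5)
  (node (nat_lit 7) (nat_lit 0) (nat_lit 6) (node (nat_lit 4) (nat_lit 60307) (nat_lit 7) (node
  (nat_lit 8) (nat_lit 62794) (nat_lit 8) (node (nat_lit 7) (nat_lit 63186) (nat_lit 9) nil (node
  (nat_lit 4) (nat_lit 62794) (nat_lit 9) nil nil)) (node (nat_lit 7) (nat_lit 62794) (nat_lit 8)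
  nil nil)) (node (nat_lit 3) (nat_lit 60307) (nat_lit 7) (node (nat_lit 8) (nat_lit 62794)
  (nat_lit 8) nil (node (nat_lit 4) (nat_lit 60307) (nat_lit 8) nil nil)) (node (nat_lit 5)
  (nat_lit 60307) (nat_lit 7) (node (nat_lit 8) (nat_lit 62794) (nat_lit 8) nil (node (nat_lit 4)
  (nat_lit 60307) (nat_lit 8) nil nil)) (node (nat_lit 0) (nat_lit 62379) (nat_lit 7) (node
  (nat_lit 8) (nat_lit 62882) (nat_lit 8) nil nil) nil)))) (node (nat_lit 4) (nat_lit 0) (nat_lit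
  6) (node (nat_lit 8) (nat_lit 61309) (nat_lit 7) (node (nat_lit 7) (nat_lit 62400) (nat_lit 8)
  (node (nat_lit 8) (nat_lit 62792) (nat_lit 9) nil nil) (node (nat_lit 0) (nat_lit 61812)
  (nat_lit 8) nil nil)) (node (nat_lit 3) (nat_lit 55825) (nat_lit 7) nil (node (nat_lit 5)
  (nat_lit 55825) (nat_lit 7) nil (node (nat_lit 7) (nat_lit 59637) (nat_lit 7) (node (nat_lit 4)
  (nat_lit 59637) (nat_lit 8) nil nil) (node (nat_lit 0) (nat_lit 59013) (nat_lit 7) nil nil)))))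
  (node (nat_lit 5) (nat_lit 0) (nat_lit 6) (node (nat_lit 4) (nat_lit 55790) (nat_lit 7) nil
  (node (nat_lit 8) (nat_lit 57261) (nat_lit 7) nil (node (nat_lit 3) (nat_lit 55790) (nat_lit 7)
  nil (node (nat_lit 7) (nat_lit 57261) (nat_lit 7) nil (node (nat_lit 0) (nat_lit 57261) (nat_lit
  7) nil nil))))) (node (nat_lit 3) (nat_lit 0) (nat_lit 6) (node (nat_lit 4) (nat_lit 55790)
  (nat_lit 7) nil (node (nat_lit 8) (nat_lit 57261) (nat_lit 7) nil (node (nat_lit 5) (nat_lit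
  55790) (nat_lit 7) nil (node (nat_lit 7) (nat_lit 57261) (nat_lit 7) nil (node (nat_lit 0)
  (nat_lit 57261) (nat_lit 7) nil nil))))) (node (nat_lit 0) (nat_lit 58962) (nat_lit 6) (node
  (nat_lit 7) (nat_lit 59607) (nat_lit 7) nil (node (nat_lit 8) (nat_lit 59607) (nat_lit 7) nil
  nil)) nil))))) nil)))

noncomputable def t255 : Tr :=
  (node (nat_lit 0) (nat_lit 0) (nat_lit 5) (node (nat_lit 7) (nat_lit 0) (nat_lit 6) (node
  (nat_lit 4) (nat_lit 51972) (nat_lit 7) (node (nat_lit 5) (nat_lit 52449) (nat_lit 8) (node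
  (nat_lit 7) (nat_lit 52697) (nat_lit 9) (node (nat_lit 5) (nat_lit 52697) (nat_lit 10) (node
  (nat_lit 4) (nat_lit 52697) (nat_lit 11) (node (nat_lit 7) (nat_lit 52697) (nat_lit 12) (node
  (nat_lit 4) (nat_lit 55962) (nat_lit 13) (node (nat_lit 5) (nat_lit 57320) (nat_lit 14) nil nil)
  (node (nat_lit 5) (nat_lit 50782) (nat_lit 13) nil nil)) (node (nat_lit 5) (nat_lit 52697)
  (nat_lit 12) (node (nat_lit 7) (nat_lit 54488) (nat_lit 13) nil nil) nil)) nil) (node (nat_lit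
  4) (nat_lit 52697) (nat_lit 10) (node (nat_lit 7) (nat_lit 52697) (nat_lit 11) (node (nat_lit 5)
  (nat_lit 52697) (nat_lit 12) (node (nat_lit 7) (nat_lit 55966) (nat_lit 13) (node (nat_lit 4)
  (nat_lit 56518) (nat_lit 14) (node (nat_lit 5) (nat_lit 55187) (nat_lit 15) nil nil) nil) (node
  (nat_lit 4) (nat_lit 52866) (nat_lit 13) nil nil)) nil) (node (nat_lit 8) (nat_lit 55610)
  (nat_lit 11) nil (node (nat_lit 0) (nat_lit 55610) (nat_lit 11) nil nil))) (node (nat_lit 0)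
  (nat_lit 58491) (nat_lit 10) nil (node (nat_lit 8) (nat_lit 60391) (nat_lit 10) nil nil))))
  (node (nat_lit 4) (nat_lit 52697) (nat_lit 9) (node (nat_lit 7) (nat_lit 52697) (nat_lit 10)
  (node (nat_lit 5) (nat_lit 52697) (nat_lit 11) (node (nat_lit 7) (nat_lit 52697) (nat_lit 12)
  (node (nat_lit 4) (nat_lit 56076) (nat_lit 13) (node (nat_lit 5) (nat_lit 57238) (nat_lit 14)
  (node (nat_lit 4) (nat_lit 58745) (nat_lit 15) nil nil) nil) nil) (node (nat_lit 4) (nat_lit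
  52697) (nat_lit 12) (node (nat_lit 5) (nat_lit 54488) (nat_lit 13) nil nil) nil)) (node (nat_lit
  4) (nat_lit 52697) (nat_lit 11) (node (nat_lit 5) (nat_lit 52697) (nat_lit 12) (node (nat_lit 7)
  (nat_lit 54488) (nat_lit 13) nil nil) nil) nil)) (node (nat_lit 8) (nat_lit 61306) (nat_lit 10)
  nil (node (nat_lit 0) (nat_lit 58491) (nat_lit 10) nil nil))) (node (nat_lit 8) (nat_lit 61057)
  (nat_lit 9) nil (node (nat_lit 0) (nat_lit 62733) (nat_lit 9) nil nil)))) (node (nat_lit 8)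
  (nat_lit 63645) (nat_lit 8) (node (nat_lit 7) (nat_lit 63645) (nat_lit 9) (node (nat_lit 8)
  (nat_lit 64642) (nat_lit 10) (node (nat_lit 4) (nat_lit 64642) (nat_lit 11) (node (nat_lit 7)
  (nat_lit 64642) (nat_lit 12) (node (nat_lit 4) (nat_lit 64642) (nat_lit 13) nil nil) (node
  (nat_lit 8) (nat_lit 64642) (nat_lit 12) nil nil)) nil) (node (nat_lit 5) (nat_lit 63645)
  (nat_lit 10) (node (nat_lit 7) (nat_lit 63645) (nat_lit 11) nil (node (nat_lit 4) (nat_lit
  63645) (nat_lit 11) nil nil)) (node (nat_lit 0) (nat_lit 64642) (nat_lit 10) nil nil))) (node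
  (nat_lit 4) (nat_lit 63645) (nat_lit 9) (node (nat_lit 7) (nat_lit 63645) (nat_lit 10) nil nil)
  (node (nat_lit 5) (nat_lit 63645) (nat_lit 9) nil (node (nat_lit 0) (nat_lit 64038) (nat_lit 9)
  nil nil)))) (node (nat_lit 7) (nat_lit 52541) (nat_lit 8) (node (nat_lit 5) (nat_lit 52451)
  (nat_lit 9) (node (nat_lit 4) (nat_lit 52496) (nat_lit 10) (node (nat_lit 7) (nat_lit 52496)
  (nat_lit 11) nil (node (nat_lit 5) (nat_lit 52496) (nat_lit 11) (node (nat_lit 7) (nat_lit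
  52496) (nat_lit 12) nil nil) nil)) (node (nat_lit 7) (nat_lit 52451) (nat_lit 10) (node (nat_lit
  4) (nat_lit 52451) (nat_lit 11) (node (nat_lit 5) (nat_lit 52451) (nat_lit 12) nil nil) nil)
  (node (nat_lit 0) (nat_lit 55126) (nat_lit 10) nil (node (nat_lit 8) (nat_lit 55126) (nat_lit
  10) nil nil)))) (node (nat_lit 8) (nat_lit 64475) (nat_lit 9) (node (nat_lit 4) (nat_lit 64475)
  (nat_lit 10) (node (nat_lit 8) (nat_lit 64642) (nat_lit 11) (node (nat_lit 7) (nat_lit 64642)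
  (nat_lit 12) nil nil) (node (nat_lit 7) (nat_lit 64475) (nat_lit 11) (node (nat_lit 4) (nat_lit
  64475) (nat_lit 12) nil nil) nil)) (node (nat_lit 5) (nat_lit 64475) (nat_lit 10) nil (node
  (nat_lit 0) (nat_lit 64642) (nat_lit 10) nil nil))) (node (nat_lit 0) (nat_lit 59352) (nat_lit
  9) nil nil))) (node (nat_lit 0) (nat_lit 62627) (nat_lit 8) (node (nat_lit 0) (nat_lit 63020)
  (nat_lit 9) nil (node (nat_lit 7) (nat_lit 62627) (nat_lit 9) nil (node (nat_lit 4) (nat_lit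
  62627) (nat_lit 9) nil (node (nat_lit 5) (nat_lit 62627) (nat_lit 9) nil (node (nat_lit 8)
  (nat_lit 63020) (nat_lit 9) nil nil))))) nil)))) (node (nat_lit 5) (nat_lit 52136) (nat_lit 7)
  (node (nat_lit 4) (nat_lit 52697) (nat_lit 8) (node (nat_lit 7) (nat_lit 52697) (nat_lit 9)
  (node (nat_lit 4) (nat_lit 52697) (nat_lit 10) (node (nat_lit 5) (nat_lit 52697) (nat_lit 11)
  (node (nat_lit 7) (nat_lit 52566) (nat_lit 12) (node (nat_lit 5) (nat_lit 52808) (nat_lit 13)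
  nil (node (nat_lit 4) (nat_lit 54357) (nat_lit 13) nil nil)) (node (nat_lit 4) (nat_lit 52697)
  (nat_lit 12) (node (nat_lit 7) (nat_lit 53368) (nat_lit 13) (node (nat_lit 8) (nat_lit 24499)
  (nat_lit 14) nil nil) nil) (node (nat_lit 8) (nat_lit 55797) (nat_lit 12) nil nil))) nil) (node
  (nat_lit 5) (nat_lit 52697) (nat_lit 10) (node (nat_lit 7) (nat_lit 52697) (nat_lit 11) (node
  (nat_lit 4) (nat_lit 52697) (nat_lit 12) (node (nat_lit 7) (nat_lit 52866) (nat_lit 13) nil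
  (node (nat_lit 5) (nat_lit 54465) (nat_lit 13) (node (nat_lit 4) (nat_lit 56428) (nat_lit 14)
  nil nil) nil)) nil) (node (nat_lit 8) (nat_lit 55610) (nat_lit 11) nil (node (nat_lit 0)
  (nat_lit 55610) (nat_lit 11) nil nil))) (node (nat_lit 8) (nat_lit 58491) (nat_lit 10) nil (node
  (nat_lit 0) (nat_lit 58491) (nat_lit 10) nil nil)))) (node (nat_lit 5) (nat_lit 52697) (nat_lit
  9) (node (nat_lit 7) (nat_lit 52697) (nat_lit 10) (node (nat_lit 4) (nat_lit 52697) (nat_lit 11)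
  (node (nat_lit 7) (nat_lit 52697) (nat_lit 12) (node (nat_lit 5) (nat_lit 53241) (nat_lit 13)
  (node (nat_lit 4) (nat_lit 51746) (nat_lit 14) nil nil) nil) (node (nat_lit 5) (nat_lit 52697)
  (nat_lit 12) nil (node (nat_lit 8) (nat_lit 55797) (nat_lit 12) nil nil))) (node (nat_lit 5)
  (nat_lit 52697) (nat_lit 11) (node (nat_lit 4) (nat_lit 52697) (nat_lit 12) (node (nat_lit 7)
  (nat_lit 54168) (nat_lit 13) (node (nat_lit 4) (nat_lit 55304) (nat_lit 14) nil nil) nil) nil)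
  nil)) (node (nat_lit 8) (nat_lit 61386) (nat_lit 10) nil (node (nat_lit 0) (nat_lit 59629)
  (nat_lit 10) nil nil))) (node (nat_lit 8) (nat_lit 62140) (nat_lit 9) nil (node (nat_lit 0)
  (nat_lit 63133) (nat_lit 9) nil nil)))) (node (nat_lit 7) (nat_lit 52697) (nat_lit 8) (node
  (nat_lit 4) (nat_lit 52697) (nat_lit 9) (node (nat_lit 5) (nat_lit 52697) (nat_lit 10) (node
  (nat_lit 4) (nat_lit 52697) (nat_lit 11) (node (nat_lit 7) (nat_lit 52697) (nat_lit 12) (node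
  (nat_lit 8) (nat_lit 32096) (nat_lit 13) nil nil) nil) (node (nat_lit 7) (nat_lit 52697)
  (nat_lit 11) (node (nat_lit 5) (nat_lit 52697) (nat_lit 12) nil nil) nil)) (node (nat_lit 7)
  (nat_lit 52697) (nat_lit 10) (node (nat_lit 5) (nat_lit 52697) (nat_lit 11) (node (nat_lit 4)
  (nat_lit 52697) (nat_lit 12) (node (nat_lit 5) (nat_lit 50782) (nat_lit 13) nil (node (nat_lit
  7) (nat_lit 53523) (nat_lit 13) nil nil)) nil) nil) (node (nat_lit 8) (nat_lit 59657) (nat_lit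
  10) nil (node (nat_lit 0) (nat_lit 55371) (nat_lit 10) nil nil)))) (node (nat_lit 8) (nat_lit
  64398) (nat_lit 9) (node (nat_lit 5) (nat_lit 64398) (nat_lit 10) (node (nat_lit 8) (nat_lit
  64642) (nat_lit 11) nil (node (nat_lit 7) (nat_lit 64398) (nat_lit 11) nil nil)) nil) (node
  (nat_lit 0) (nat_lit 61397) (nat_lit 9) nil nil))) (node (nat_lit 8) (nat_lit 62878) (nat_lit 8)
  (node (nat_lit 5) (nat_lit 62878) (nat_lit 9) (node (nat_lit 7) (nat_lit 62878) (nat_lit 10) nil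
  nil) (node (nat_lit 7) (nat_lit 62878) (nat_lit 9) nil (node (nat_lit 4) (nat_lit 62878)
  (nat_lit 9) nil (node (nat_lit 0) (nat_lit 63270) (nat_lit 9) nil nil)))) (node (nat_lit 0)
  (nat_lit 62715) (nat_lit 8) (node (nat_lit 0) (nat_lit 63108) (nat_lit 9) nil (node (nat_lit 5)
  (nat_lit 62715) (nat_lit 9) nil (node (nat_lit 7) (nat_lit 62715) (nat_lit 9) nil nil))) nil))))
  (node (nat_lit 0) (nat_lit 61640) (nat_lit 7) (node (nat_lit 8) (nat_lit 63335) (nat_lit 8)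
  (node (nat_lit 7) (nat_lit 63335) (nat_lit 9) (node (nat_lit 8) (nat_lit 64035) (nat_lit 10) nil
  nil) (node (nat_lit 10) (nat_lit 63727) (nat_lit 9) nil nil)) (node (nat_lit 7) (nat_lit 61640)
  (nat_lit 8) (node (nat_lit 8) (nat_lit 63582) (nat_lit 9) nil (node (nat_lit 4) (nat_lit 61640)
  (nat_lit 9) nil (node (nat_lit 5) (nat_lit 61640) (nat_lit 9) nil nil))) (node (nat_lit 4)
  (nat_lit 61640) (nat_lit 8) nil (node (nat_lit 0) (nat_lit 63176) (nat_lit 8) nil (node (nat_lit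
  5) (nat_lit 61640) (nat_lit 8) nil nil))))) nil))) (node (nat_lit 4) (nat_lit 0) (nat_lit 6)
  (node (nat_lit 8) (nat_lit 61656) (nat_lit 7) (node (nat_lit 7) (nat_lit 61656) (nat_lit 8)
  (node (nat_lit 8) (nat_lit 64642) (nat_lit 9) (node (nat_lit 4) (nat_lit 64642) (nat_lit 10)
  (node (nat_lit 7) (nat_lit 64642) (nat_lit 11) (node (nat_lit 4) (nat_lit 64642) (nat_lit 12)
  (node (nat_lit 5) (nat_lit 64642) (nat_lit 13) (node (nat_lit 7) (nat_lit 64642) (nat_lit 14)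
  nil nil) (node (nat_lit 8) (nat_lit 64642) (nat_lit 13) nil nil)) (node (nat_lit 5) (nat_lit
  64642) (nat_lit 12) (node (nat_lit 4) (nat_lit 64642) (nat_lit 13) nil nil) (node (nat_lit 8)
  (nat_lit 64642) (nat_lit 12) nil nil))) (node (nat_lit 5) (nat_lit 64642) (nat_lit 11) nil nil))
  nil) (node (nat_lit 4) (nat_lit 61656) (nat_lit 9) nil nil)) nil) (node (nat_lit 7) (nat_lit
  52112) (nat_lit 7) (node (nat_lit 4) (nat_lit 52112) (nat_lit 8) (node (nat_lit 8) (nat_lit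
  60720) (nat_lit 9) (node (nat_lit 7) (nat_lit 60720) (nat_lit 10) (node (nat_lit 8) (nat_lit
  61903) (nat_lit 11) (node (nat_lit 4) (nat_lit 61903) (nat_lit 12) (node (nat_lit 7) (nat_lit
  61903) (nat_lit 13) nil nil) nil) nil) nil) (node (nat_lit 5) (nat_lit 52112) (nat_lit 9) nil
  nil)) (node (nat_lit 0) (nat_lit 54087) (nat_lit 8) nil (node (nat_lit 5) (nat_lit 52112)
  (nat_lit 8) nil nil))) (node (nat_lit 5) (nat_lit 51135) (nat_lit 7) (node (nat_lit 7) (nat_lit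
  51135) (nat_lit 8) (node (nat_lit 5) (nat_lit 51135) (nat_lit 9) nil (node (nat_lit 4) (nat_lit
  51135) (nat_lit 9) nil nil)) nil) (node (nat_lit 0) (nat_lit 56927) (nat_lit 7) nil nil))))
  (node (nat_lit 5) (nat_lit 0) (nat_lit 6) (node (nat_lit 7) (nat_lit 51154) (nat_lit 7) (node
  (nat_lit 5) (nat_lit 51154) (nat_lit 8) (node (nat_lit 8) (nat_lit 57965) (nat_lit 9) (node
  (nat_lit 7) (nat_lit 57965) (nat_lit 10) (node (nat_lit 8) (nat_lit 58511) (nat_lit 11) nil nil)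
  nil) nil) (node (nat_lit 0) (nat_lit 53128) (nat_lit 8) nil nil)) (node (nat_lit 8) (nat_lit
  59242) (nat_lit 7) (node (nat_lit 7) (nat_lit 59242) (nat_lit 8) (node (nat_lit 8) (nat_lit
  61820) (nat_lit 9) (node (nat_lit 5) (nat_lit 61820) (nat_lit 10) (node (nat_lit 7) (nat_lit
  61820) (nat_lit 11) nil nil) nil) nil) nil) (node (nat_lit 4) (nat_lit 51154) (nat_lit 7) (node
  (nat_lit 7) (nat_lit 51154) (nat_lit 8) nil nil) (node (nat_lit 0) (nat_lit 54341) (nat_lit 7)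
  nil nil)))) (node (nat_lit 0) (nat_lit 57785) (nat_lit 6) (node (nat_lit 7) (nat_lit 57785)
  (nat_lit 7) (node (nat_lit 8) (nat_lit 61392) (nat_lit 8) (node (nat_lit 7) (nat_lit 61392)
  (nat_lit 9) (node (nat_lit 9) (nat_lit 62093) (nat_lit 10) nil nil) (node (nat_lit 4) (nat_lit
  61392) (nat_lit 9) nil (node (nat_lit 0) (nat_lit 61785) (nat_lit 9) nil nil))) (node (nat_lit
  9) (nat_lit 58933) (nat_lit 8) nil nil)) (node (nat_lit 8) (nat_lit 60130) (nat_lit 7) (node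
  (nat_lit 7) (nat_lit 60130) (nat_lit 8) (node (nat_lit 8) (nat_lit 61026) (nat_lit 9) nil nil)
  nil) nil)) nil)))) (node (nat_lit 4) (nat_lit 0) (nat_lit 5) (node (nat_lit 0) (nat_lit 0)
  (nat_lit 6) (node (nat_lit 7) (nat_lit 0) (nat_lit 7) (node (nat_lit 4) (nat_lit 30796) (nat_lit
  8) (node (nat_lit 7) (nat_lit 33020) (nat_lit 9) (node (nat_lit 9) (nat_lit 40860) (nat_lit 10)
  (node (nat_lit 4) (nat_lit 40860) (nat_lit 11) (node (nat_lit 7) (nat_lit 40860) (nat_lit 12)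
  (node (nat_lit 4) (nat_lit 40860) (nat_lit 13) (node (nat_lit 9) (nat_lit 41263) (nat_lit 14)
  nil nil) (node (nat_lit 5) (nat_lit 40860) (nat_lit 13) nil nil)) (node (nat_lit 9) (nat_lit
  41098) (nat_lit 12) (node (nat_lit 7) (nat_lit 41098) (nat_lit 13) nil nil) (node (nat_lit 5)
  (nat_lit 40860) (nat_lit 12) nil (node (nat_lit 0) (nat_lit 41098) (nat_lit 12) nil nil))))
  (node (nat_lit 7) (nat_lit 40860) (nat_lit 11) (node (nat_lit 4) (nat_lit 40860) (nat_lit 12)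
  (node (nat_lit 9) (nat_lit 41191) (nat_lit 13) nil (node (nat_lit 5) (nat_lit 40860) (nat_lit
  13) nil nil)) (node (nat_lit 5) (nat_lit 40860) (nat_lit 12) nil (node (nat_lit 0) (nat_lit
  41098) (nat_lit 12) nil nil))) (node (nat_lit 5) (nat_lit 40860) (nat_lit 11) nil (node (nat_lit
  0) (nat_lit 40986) (nat_lit 11) nil nil)))) (node (nat_lit 5) (nat_lit 34581) (nat_lit 10) (node
  (nat_lit 4) (nat_lit 35182) (nat_lit 11) (node (nat_lit 7) (nat_lit 35182) (nat_lit 12) (node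
  (nat_lit 4) (nat_lit 35182) (nat_lit 13) (node (nat_lit 5) (nat_lit 36236) (nat_lit 14) (node
  (nat_lit 4) (nat_lit 37059) (nat_lit 15) (node (nat_lit 7) (nat_lit 36931) (nat_lit 16) nil nil)
  (node (nat_lit 7) (nat_lit 36742) (nat_lit 15) nil nil)) nil) (node (nat_lit 9) (nat_lit 37611)
  (nat_lit 13) nil (node (nat_lit 0) (nat_lit 37611) (nat_lit 13) nil nil))) (node (nat_lit 5)
  (nat_lit 35182) (nat_lit 12) (node (nat_lit 7) (nat_lit 35182) (nat_lit 13) (node (nat_lit 4)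
  (nat_lit 36590) (nat_lit 14) (node (nat_lit 5) (nat_lit 37959) (nat_lit 15) nil (node (nat_lit
  7) (nat_lit 37096) (nat_lit 15) nil nil)) (node (nat_lit 5) (nat_lit 36236) (nat_lit 14) nil
  nil)) (node (nat_lit 9) (nat_lit 37611) (nat_lit 13) nil nil)) (node (nat_lit 9) (nat_lit 37465)
  (nat_lit 12) nil (node (nat_lit 0) (nat_lit 37465) (nat_lit 12) nil nil)))) (node (nat_lit 7)
  (nat_lit 35182) (nat_lit 11) (node (nat_lit 4) (nat_lit 35182) (nat_lit 12) (node (nat_lit 5)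
  (nat_lit 35182) (nat_lit 13) (node (nat_lit 7) (nat_lit 35829) (nat_lit 14) nil (node (nat_lit
  4) (nat_lit 33690) (nat_lit 14) nil nil)) (node (nat_lit 7) (nat_lit 35182) (nat_lit 13) nil
  nil)) (node (nat_lit 9) (nat_lit 37465) (nat_lit 12) nil (node (nat_lit 0) (nat_lit 37465)
  (nat_lit 12) nil nil))) (node (nat_lit 9) (nat_lit 40078) (nat_lit 11) nil (node (nat_lit 0)
  (nat_lit 38595) (nat_lit 11) nil nil)))) (node (nat_lit 0) (nat_lit 40735) (nat_lit 10) (node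
  (nat_lit 9) (nat_lit 40860) (nat_lit 11) nil (node (nat_lit 7) (nat_lit 40735) (nat_lit 11) nil
  (node (nat_lit 4) (nat_lit 40735) (nat_lit 11) nil (node (nat_lit 5) (nat_lit 40735) (nat_lit
  11) nil nil)))) nil))) (node (nat_lit 5) (nat_lit 33249) (nat_lit 9) (node (nat_lit 7) (nat_lit
  34679) (nat_lit 10) (node (nat_lit 5) (nat_lit 35182) (nat_lit 11) (node (nat_lit 4) (nat_lit
  35182) (nat_lit 12) (node (nat_lit 5) (nat_lit 35219) (nat_lit 13) (node (nat_lit 7) (nat_lit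
  37192) (nat_lit 14) (node (nat_lit 4) (nat_lit 37529) (nat_lit 15) (node (nat_lit 5) (nat_lit
  36684) (nat_lit 16) nil nil) nil) nil) (node (nat_lit 7) (nat_lit 35182) (nat_lit 13) nil nil))
  (node (nat_lit 9) (nat_lit 37465) (nat_lit 12) nil (node (nat_lit 0) (nat_lit 37465) (nat_lit
  12) nil nil))) (node (nat_lit 4) (nat_lit 35182) (nat_lit 11) (node (nat_lit 7) (nat_lit 35182)
  (nat_lit 12) (node (nat_lit 5) (nat_lit 35182) (nat_lit 13) nil nil) (node (nat_lit 9) (nat_lit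
  37465) (nat_lit 12) nil nil)) (node (nat_lit 9) (nat_lit 40078) (nat_lit 11) nil (node (nat_lit
  0) (nat_lit 36745) (nat_lit 11) nil nil)))) (node (nat_lit 4) (nat_lit 34666) (nat_lit 10) (node
  (nat_lit 7) (nat_lit 35182) (nat_lit 11) (node (nat_lit 5) (nat_lit 35182) (nat_lit 12) (node
  (nat_lit 4) (nat_lit 35182) (nat_lit 13) (node (nat_lit 5) (nat_lit 33690) (nat_lit 14) nil nil)
  (node (nat_lit 7) (nat_lit 35182) (nat_lit 13) (node (nat_lit 4) (nat_lit 37644) (nat_lit 14)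
  nil nil) nil)) (node (nat_lit 4) (nat_lit 35182) (nat_lit 12) (node (nat_lit 5) (nat_lit 35182)
  (nat_lit 13) (node (nat_lit 7) (nat_lit 35829) (nat_lit 14) nil nil) nil) (node (nat_lit 9)
  (nat_lit 37465) (nat_lit 12) nil nil))) (node (nat_lit 9) (nat_lit 38595) (nat_lit 11) nil (node
  (nat_lit 0) (nat_lit 37277) (nat_lit 11) nil nil))) (node (nat_lit 9) (nat_lit 40860) (nat_lit
  10) (node (nat_lit 4) (nat_lit 40860) (nat_lit 11) nil nil) (node (nat_lit 0) (nat_lit 39516)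
  (nat_lit 10) nil nil)))) (node (nat_lit 0) (nat_lit 39147) (nat_lit 9) (node (nat_lit 7)
  (nat_lit 39147) (nat_lit 10) nil (node (nat_lit 4) (nat_lit 39147) (nat_lit 10) nil (node
  (nat_lit 9) (nat_lit 39290) (nat_lit 10) nil (node (nat_lit 5) (nat_lit 39147) (nat_lit 10) nil
  nil)))) nil))) (node (nat_lit 9) (nat_lit 37286) (nat_lit 8) (node (nat_lit 4) (nat_lit 37286)
  (nat_lit 9) (node (nat_lit 7) (nat_lit 37286) (nat_lit 10) nil nil) nil) (node (nat_lit 5)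
  (nat_lit 28856) (nat_lit 8) nil (node (nat_lit 0) (nat_lit 30306) (nat_lit 8) nil nil)))) (node
  (nat_lit 4) (nat_lit 28755) (nat_lit 7) (node (nat_lit 7) (nat_lit 30715) (nat_lit 8) (node
  (nat_lit 9) (nat_lit 39671) (nat_lit 9) (node (nat_lit 7) (nat_lit 39671) (nat_lit 10) (node
  (nat_lit 4) (nat_lit 39671) (nat_lit 11) (node (nat_lit 9) (nat_lit 40391) (nat_lit 12) (node
  (nat_lit 4) (nat_lit 40391) (nat_lit 13) (node (nat_lit 7) (nat_lit 40391) (nat_lit 14) nil nil)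
  nil) nil) nil) nil) nil) nil) (node (nat_lit 5) (nat_lit 29219) (nat_lit 7) (node (nat_lit 4)
  (nat_lit 29219) (nat_lit 8) nil nil) (node (nat_lit 0) (nat_lit 30985) (nat_lit 7) nil nil))))
  nil) (node (nat_lit 5) (nat_lit 0) (nat_lit 5) (node (nat_lit 0) (nat_lit 0) (nat_lit 6) (node
  (nat_lit 7) (nat_lit 52202) (nat_lit 7) (node (nat_lit 5) (nat_lit 52271) (nat_lit 8) (node
  (nat_lit 4) (nat_lit 52271) (nat_lit 9) (node (nat_lit 7) (nat_lit 52271) (nat_lit 10) (node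
  (nat_lit 4) (nat_lit 52271) (nat_lit 11) (node (nat_lit 5) (nat_lit 52271) (nat_lit 12) (node
  (nat_lit 7) (nat_lit 52271) (nat_lit 13) nil (node (nat_lit 4) (nat_lit 52271) (nat_lit 13) nil
  nil)) (node (nat_lit 9) (nat_lit 54554) (nat_lit 12) nil nil)) (node (nat_lit 5) (nat_lit 52271)
  (nat_lit 11) (node (nat_lit 7) (nat_lit 52271) (nat_lit 12) (node (nat_lit 4) (nat_lit 52271)
  (nat_lit 13) (node (nat_lit 5) (nat_lit 53698) (nat_lit 14) nil nil) nil) nil) (node (nat_lit 9)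
  (nat_lit 58284) (nat_lit 11) nil (node (nat_lit 0) (nat_lit 54367) (nat_lit 11) nil nil))))
  (node (nat_lit 5) (nat_lit 52271) (nat_lit 10) (node (nat_lit 7) (nat_lit 52271) (nat_lit 11)
  (node (nat_lit 5) (nat_lit 52271) (nat_lit 12) (node (nat_lit 4) (nat_lit 52271) (nat_lit 13)
  nil nil) (node (nat_lit 4) (nat_lit 52271) (nat_lit 12) (node (nat_lit 7) (nat_lit 52271)
  (nat_lit 13) nil (node (nat_lit 5) (nat_lit 52271) (nat_lit 13) nil nil)) nil)) (node (nat_lit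
  9) (nat_lit 56801) (nat_lit 11) nil (node (nat_lit 0) (nat_lit 54367) (nat_lit 11) nil nil)))
  (node (nat_lit 9) (nat_lit 60414) (nat_lit 10) nil (node (nat_lit 0) (nat_lit 58491) (nat_lit
  10) nil nil)))) (node (nat_lit 7) (nat_lit 52271) (nat_lit 9) (node (nat_lit 4) (nat_lit 52271)
  (nat_lit 10) (node (nat_lit 5) (nat_lit 52271) (nat_lit 11) (node (nat_lit 4) (nat_lit 52271)
  (nat_lit 12) (node (nat_lit 7) (nat_lit 52271) (nat_lit 13) (node (nat_lit 4) (nat_lit 54008)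
  (nat_lit 14) nil nil) nil) (node (nat_lit 7) (nat_lit 52271) (nat_lit 12) (node (nat_lit 5)
  (nat_lit 52271) (nat_lit 13) nil nil) nil)) (node (nat_lit 7) (nat_lit 52271) (nat_lit 11) (node
  (nat_lit 5) (nat_lit 52271) (nat_lit 12) nil nil) (node (nat_lit 9) (nat_lit 58284) (nat_lit 11)
  nil (node (nat_lit 0) (nat_lit 56801) (nat_lit 11) nil nil)))) (node (nat_lit 9) (nat_lit 60414)
  (nat_lit 10) (node (nat_lit 7) (nat_lit 60414) (nat_lit 11) nil (node (nat_lit 5) (nat_lit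
  60414) (nat_lit 11) nil nil)) (node (nat_lit 0) (nat_lit 60414) (nat_lit 10) nil nil))) (node
  (nat_lit 0) (nat_lit 59590) (nat_lit 9) (node (nat_lit 7) (nat_lit 59590) (nat_lit 10) nil (node
  (nat_lit 5) (nat_lit 59590) (nat_lit 10) nil (node (nat_lit 9) (nat_lit 59898) (nat_lit 10) nil
  nil))) nil))) nil) (node (nat_lit 5) (nat_lit 51753) (nat_lit 7) (node (nat_lit 7) (nat_lit
  51753) (nat_lit 8) (node (nat_lit 9) (nat_lit 56192) (nat_lit 9) (node (nat_lit 7) (nat_lit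
  56192) (nat_lit 10) nil nil) nil) nil) (node (nat_lit 4) (nat_lit 51753) (nat_lit 7) nil (node
  (nat_lit 0) (nat_lit 52399) (nat_lit 7) nil nil)))) nil) nil)))

noncomputable def t256 : Tr :=
  (node (nat_lit 3) (nat_lit 0) (nat_lit 4) (node (nat_lit 4) (nat_lit 0) (nat_lit 5) (node
  (nat_lit 5) (nat_lit 0) (nat_lit 6) (node (nat_lit 7) (nat_lit 88467) (nat_lit 7) (node (nat_lit
  5) (nat_lit 88761) (nat_lit 8) (node (nat_lit 4) (nat_lit 88761) (nat_lit 9) (node (nat_lit 7)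
  (nat_lit 88761) (nat_lit 10) (node (nat_lit 4) (nat_lit 96697) (nat_lit 11) (node (nat_lit 5)
  (nat_lit 101377) (nat_lit 12) (node (nat_lit 4) (nat_lit 101031) (nat_lit 13) nil nil) nil)
  (node (nat_lit 5) (nat_lit 96971) (nat_lit 11) (node (nat_lit 7) (nat_lit 101356) (nat_lit 12)
  (node (nat_lit 4) (nat_lit 104806) (nat_lit 13) nil nil) nil) nil)) (node (nat_lit 5) (nat_lit
  88761) (nat_lit 10) (node (nat_lit 7) (nat_lit 94988) (nat_lit 11) (node (nat_lit 4) (nat_lit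
  97152) (nat_lit 12) nil nil) (node (nat_lit 6) (nat_lit 77304) (nat_lit 11) (node (nat_lit 7)
  (nat_lit 76659) (nat_lit 12) nil nil) nil)) (node (nat_lit 6) (nat_lit 99067) (nat_lit 10) nil
  (node (nat_lit 0) (nat_lit 99067) (nat_lit 10) nil nil)))) (node (nat_lit 6) (nat_lit 98462)
  (nat_lit 9) nil (node (nat_lit 0) (nat_lit 98462) (nat_lit 9) nil nil))) (node (nat_lit 4)
  (nat_lit 88761) (nat_lit 8) (node (nat_lit 7) (nat_lit 88761) (nat_lit 9) (node (nat_lit 5)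
  (nat_lit 88754) (nat_lit 10) (node (nat_lit 4) (nat_lit 97434) (nat_lit 11) (node (nat_lit 5)
  (nat_lit 103646) (nat_lit 12) nil (node (nat_lit 7) (nat_lit 93125) (nat_lit 12) nil nil)) (node
  (nat_lit 7) (nat_lit 96198) (nat_lit 11) nil nil)) nil) nil) (node (nat_lit 6) (nat_lit 105188)
  (nat_lit 8) nil (node (nat_lit 0) (nat_lit 102513) (nat_lit 8) nil nil)))) (node (nat_lit 4)
  (nat_lit 88587) (nat_lit 7) (node (nat_lit 7) (nat_lit 89024) (nat_lit 8) (node (nat_lit 5)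
  (nat_lit 89151) (nat_lit 9) (node (nat_lit 7) (nat_lit 89423) (nat_lit 10) (node (nat_lit 4)
  (nat_lit 97865) (nat_lit 11) (node (nat_lit 5) (nat_lit 98957) (nat_lit 12) (node (nat_lit 7)
  (nat_lit 99010) (nat_lit 13) nil nil) (node (nat_lit 7) (nat_lit 103930) (nat_lit 12) (node
  (nat_lit 5) (nat_lit 101253) (nat_lit 13) (node (nat_lit 4) (nat_lit 98929) (nat_lit 14) nil
  nil) nil) nil)) (node (nat_lit 6) (nat_lit 100200) (nat_lit 11) nil nil)) (node (nat_lit 4)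
  (nat_lit 89188) (nat_lit 10) (node (nat_lit 5) (nat_lit 97679) (nat_lit 11) (node (nat_lit 7)
  (nat_lit 99187) (nat_lit 12) nil (node (nat_lit 6) (nat_lit 92476) (nat_lit 12) nil nil)) nil)
  (node (nat_lit 6) (nat_lit 99457) (nat_lit 10) nil (node (nat_lit 0) (nat_lit 99457) (nat_lit
  10) nil nil)))) (node (nat_lit 4) (nat_lit 89024) (nat_lit 9) (node (nat_lit 5) (nat_lit 89261)
  (nat_lit 10) (node (nat_lit 7) (nat_lit 97042) (nat_lit 11) (node (nat_lit 4) (nat_lit 98947)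
  (nat_lit 12) nil (node (nat_lit 5) (nat_lit 92732) (nat_lit 12) nil nil)) (node (nat_lit 6)
  (nat_lit 89140) (nat_lit 11) nil nil)) (node (nat_lit 6) (nat_lit 99330) (nat_lit 10) nil (node
  (nat_lit 0) (nat_lit 99330) (nat_lit 10) nil nil))) (node (nat_lit 6) (nat_lit 104303) (nat_lit
  9) nil (node (nat_lit 0) (nat_lit 98724) (nat_lit 9) nil nil)))) (node (nat_lit 6) (nat_lit
  111723) (nat_lit 8) nil (node (nat_lit 0) (nat_lit 102633) (nat_lit 8) nil nil))) (node (nat_lit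
  6) (nat_lit 44033) (nat_lit 7) (node (nat_lit 5) (nat_lit 44033) (nat_lit 8) (node (nat_lit 4)
  (nat_lit 44033) (nat_lit 9) (node (nat_lit 6) (nat_lit 44198) (nat_lit 10) nil nil) nil) (node
  (nat_lit 4) (nat_lit 44033) (nat_lit 8) nil nil)) (node (nat_lit 0) (nat_lit 107390) (nat_lit 7)
  nil nil)))) (node (nat_lit 7) (nat_lit 0) (nat_lit 6) (node (nat_lit 5) (nat_lit 88205) (nat_lit
  7) (node (nat_lit 4) (nat_lit 88205) (nat_lit 8) (node (nat_lit 7) (nat_lit 88205) (nat_lit 9)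
  (node (nat_lit 4) (nat_lit 88205) (nat_lit 10) (node (nat_lit 5) (nat_lit 94346) (nat_lit 11)
  nil nil) nil) (node (nat_lit 5) (nat_lit 88205) (nat_lit 9) (node (nat_lit 7) (nat_lit 88205)
  (nat_lit 10) (node (nat_lit 4) (nat_lit 92829) (nat_lit 11) (node (nat_lit 5) (nat_lit 95768)
  (nat_lit 12) nil nil) nil) nil) nil)) (node (nat_lit 7) (nat_lit 88205) (nat_lit 8) (node
  (nat_lit 4) (nat_lit 88205) (nat_lit 9) (node (nat_lit 5) (nat_lit 88205) (nat_lit 10) nil nil)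
  nil) (node (nat_lit 6) (nat_lit 97129) (nat_lit 8) nil nil))) (node (nat_lit 6) (nat_lit 114681)
  (nat_lit 7) (node (nat_lit 7) (nat_lit 114681) (nat_lit 8) (node (nat_lit 4) (nat_lit 114681)
  (nat_lit 9) nil nil) nil) (node (nat_lit 0) (nat_lit 96136) (nat_lit 7) nil nil))) (node
  (nat_lit 6) (nat_lit 113021) (nat_lit 6) (node (nat_lit 7) (nat_lit 113021) (nat_lit 7) (node
  (nat_lit 6) (nat_lit 114030) (nat_lit 8) nil nil) (node (nat_lit 4) (nat_lit 113021) (nat_lit 7)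
  nil nil)) (node (nat_lit 0) (nat_lit 99069) (nat_lit 6) nil nil)))) (node (nat_lit 5) (nat_lit
  0) (nat_lit 5) (node (nat_lit 4) (nat_lit 0) (nat_lit 6) (node (nat_lit 7) (nat_lit 88256)
  (nat_lit 7) (node (nat_lit 4) (nat_lit 88544) (nat_lit 8) (node (nat_lit 5) (nat_lit 88753)
  (nat_lit 9) (node (nat_lit 7) (nat_lit 88996) (nat_lit 10) (node (nat_lit 5) (nat_lit 95061)
  (nat_lit 11) (node (nat_lit 4) (nat_lit 94054) (nat_lit 12) (node (nat_lit 5) (nat_lit 93639)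
  (nat_lit 13) (node (nat_lit 7) (nat_lit 92072) (nat_lit 14) nil nil) nil) nil) (node (nat_lit 4)
  (nat_lit 95150) (nat_lit 11) (node (nat_lit 7) (nat_lit 94032) (nat_lit 12) nil nil) nil)) (node
  (nat_lit 4) (nat_lit 89044) (nat_lit 10) (node (nat_lit 7) (nat_lit 98408) (nat_lit 11) (node
  (nat_lit 5) (nat_lit 91537) (nat_lit 12) nil nil) nil) (node (nat_lit 6) (nat_lit 85011)
  (nat_lit 10) (node (nat_lit 7) (nat_lit 57208) (nat_lit 11) nil nil) (node (nat_lit 0) (nat_lit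
  99059) (nat_lit 10) nil nil)))) (node (nat_lit 6) (nat_lit 98244) (nat_lit 9) nil (node (nat_lit
  0) (nat_lit 98244) (nat_lit 9) nil nil))) (node (nat_lit 5) (nat_lit 88256) (nat_lit 8) (node
  (nat_lit 7) (nat_lit 88256) (nat_lit 9) (node (nat_lit 4) (nat_lit 88433) (nat_lit 10) (node
  (nat_lit 5) (nat_lit 94972) (nat_lit 11) (node (nat_lit 4) (nat_lit 93338) (nat_lit 12) nil nil)
  (node (nat_lit 7) (nat_lit 85955) (nat_lit 11) nil nil)) nil) nil) (node (nat_lit 6) (nat_lit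
  104976) (nat_lit 8) nil (node (nat_lit 0) (nat_lit 102302) (nat_lit 8) nil nil)))) (node
  (nat_lit 5) (nat_lit 88469) (nat_lit 7) (node (nat_lit 7) (nat_lit 88933) (nat_lit 8) (node
  (nat_lit 4) (nat_lit 88996) (nat_lit 9) (node (nat_lit 7) (nat_lit 89135) (nat_lit 10) (node
  (nat_lit 5) (nat_lit 99106) (nat_lit 11) (node (nat_lit 4) (nat_lit 97277) (nat_lit 12) (node
  (nat_lit 7) (nat_lit 93979) (nat_lit 13) nil nil) (node (nat_lit 7) (nat_lit 103816) (nat_lit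
  12) (node (nat_lit 4) (nat_lit 104145) (nat_lit 13) (node (nat_lit 5) (nat_lit 101584) (nat_lit
  14) nil nil) nil) nil)) (node (nat_lit 6) (nat_lit 99913) (nat_lit 11) nil nil)) (node (nat_lit
  5) (nat_lit 89255) (nat_lit 10) (node (nat_lit 4) (nat_lit 97035) (nat_lit 11) (node (nat_lit 7)
  (nat_lit 89443) (nat_lit 12) nil nil) nil) (node (nat_lit 6) (nat_lit 99302) (nat_lit 10) nil
  (node (nat_lit 0) (nat_lit 99302) (nat_lit 10) nil nil)))) (node (nat_lit 5) (nat_lit 88996)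
  (nat_lit 9) (node (nat_lit 4) (nat_lit 88996) (nat_lit 10) (node (nat_lit 7) (nat_lit 96252)
  (nat_lit 11) (node (nat_lit 4) (nat_lit 100684) (nat_lit 12) (node (nat_lit 5) (nat_lit 101520)
  (nat_lit 13) nil nil) (node (nat_lit 5) (nat_lit 95854) (nat_lit 12) nil nil)) nil) (node
  (nat_lit 6) (nat_lit 108338) (nat_lit 10) nil (node (nat_lit 0) (nat_lit 99302) (nat_lit 10) nil
  nil))) (node (nat_lit 6) (nat_lit 104212) (nat_lit 9) nil (node (nat_lit 0) (nat_lit 98633)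
  (nat_lit 9) nil nil)))) (node (nat_lit 6) (nat_lit 64928) (nat_lit 8) (node (nat_lit 7) (nat_lit
  64928) (nat_lit 9) nil nil) (node (nat_lit 0) (nat_lit 102515) (nat_lit 8) nil nil))) (node
  (nat_lit 6) (nat_lit 114681) (nat_lit 7) (node (nat_lit 4) (nat_lit 114681) (nat_lit 8) nil
  (node (nat_lit 7) (nat_lit 114681) (nat_lit 8) (node (nat_lit 4) (nat_lit 114681) (nat_lit 9)
  nil nil) (node (nat_lit 5) (nat_lit 114681) (nat_lit 8) nil nil))) (node (nat_lit 0) (nat_lit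
  108032) (nat_lit 7) nil nil)))) (node (nat_lit 7) (nat_lit 0) (nat_lit 6) (node (nat_lit 4)
  (nat_lit 88438) (nat_lit 7) (node (nat_lit 5) (nat_lit 88429) (nat_lit 8) (node (nat_lit 7)
  (nat_lit 88756) (nat_lit 9) (node (nat_lit 5) (nat_lit 88488) (nat_lit 10) (node (nat_lit 4)
  (nat_lit 94257) (nat_lit 11) (node (nat_lit 5) (nat_lit 93774) (nat_lit 12) nil nil) nil) nil)
  (node (nat_lit 4) (nat_lit 88429) (nat_lit 9) (node (nat_lit 7) (nat_lit 88715) (nat_lit 10)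
  (node (nat_lit 5) (nat_lit 88672) (nat_lit 11) (node (nat_lit 4) (nat_lit 92000) (nat_lit 12)
  (node (nat_lit 5) (nat_lit 91132) (nat_lit 13) nil nil) nil) (node (nat_lit 4) (nat_lit 94376)
  (nat_lit 11) (node (nat_lit 5) (nat_lit 97907) (nat_lit 12) nil nil) nil)) nil) (node (nat_lit
  6) (nat_lit 82327) (nat_lit 9) nil nil))) (node (nat_lit 7) (nat_lit 88438) (nat_lit 8) (node
  (nat_lit 5) (nat_lit 88438) (nat_lit 9) (node (nat_lit 4) (nat_lit 88438) (nat_lit 10) (node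
  (nat_lit 7) (nat_lit 93692) (nat_lit 11) (node (nat_lit 4) (nat_lit 97691) (nat_lit 12) (node
  (nat_lit 5) (nat_lit 96438) (nat_lit 13) nil nil) nil) nil) nil) nil) (node (nat_lit 6) (nat_lit
  97363) (nat_lit 8) nil nil))) (node (nat_lit 6) (nat_lit 114657) (nat_lit 7) (node (nat_lit 7)
  (nat_lit 114657) (nat_lit 8) (node (nat_lit 5) (nat_lit 114657) (nat_lit 9) (node (nat_lit 6)
  (nat_lit 114845) (nat_lit 10) nil (node (nat_lit 4) (nat_lit 114657) (nat_lit 10) nil nil)) nil)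
  nil) (node (nat_lit 0) (nat_lit 95960) (nat_lit 7) nil nil))) (node (nat_lit 6) (nat_lit 111168)
  (nat_lit 6) (node (nat_lit 5) (nat_lit 111168) (nat_lit 7) nil nil) (node (nat_lit 0) (nat_lit
  99013) (nat_lit 6) nil nil)))) (node (nat_lit 6) (nat_lit 0) (nat_lit 5) (node (nat_lit 5)
  (nat_lit 0) (nat_lit 6) (node (nat_lit 4) (nat_lit 113948) (nat_lit 7) (node (nat_lit 7)
  (nat_lit 113948) (nat_lit 8) (node (nat_lit 4) (nat_lit 113948) (nat_lit 9) (node (nat_lit 5)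
  (nat_lit 113948) (nat_lit 10) nil nil) (node (nat_lit 5) (nat_lit 113948) (nat_lit 9) (node
  (nat_lit 4) (nat_lit 113948) (nat_lit 10) nil nil) nil)) (node (nat_lit 5) (nat_lit 113948)
  (nat_lit 8) nil nil)) (node (nat_lit 7) (nat_lit 113948) (nat_lit 7) (node (nat_lit 5) (nat_lit
  113948) (nat_lit 8) (node (nat_lit 6) (nat_lit 114845) (nat_lit 9) nil (node (nat_lit 4)
  (nat_lit 113948) (nat_lit 9) nil nil)) (node (nat_lit 4) (nat_lit 113948) (nat_lit 8) nil nil))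
  (node (nat_lit 6) (nat_lit 114845) (nat_lit 7) nil (node (nat_lit 0) (nat_lit 114845) (nat_lit
  7) nil nil)))) (node (nat_lit 4) (nat_lit 113948) (nat_lit 6) (node (nat_lit 5) (nat_lit 113948)
  (nat_lit 7) (node (nat_lit 7) (nat_lit 113948) (nat_lit 8) (node (nat_lit 4) (nat_lit 113948)
  (nat_lit 9) (node (nat_lit 7) (nat_lit 113948) (nat_lit 10) (node (nat_lit 5) (nat_lit 113948)
  (nat_lit 11) (node (nat_lit 4) (nat_lit 113948) (nat_lit 12) (node (nat_lit 5) (nat_lit 113111)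
  (nat_lit 13) nil nil) nil) nil) (node (nat_lit 5) (nat_lit 113948) (nat_lit 10) nil nil)) (node
  (nat_lit 5) (nat_lit 113948) (nat_lit 9) (node (nat_lit 4) (nat_lit 113948) (nat_lit 10) nil
  nil) nil)) (node (nat_lit 4) (nat_lit 113948) (nat_lit 8) nil nil)) (node (nat_lit 7) (nat_lit
  113948) (nat_lit 7) (node (nat_lit 4) (nat_lit 113948) (nat_lit 8) (node (nat_lit 5) (nat_lit
  113948) (nat_lit 9) nil nil) (node (nat_lit 5) (nat_lit 113948) (nat_lit 8) nil nil)) (node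
  (nat_lit 6) (nat_lit 114845) (nat_lit 7) nil nil))) (node (nat_lit 0) (nat_lit 114674) (nat_lit
  6) nil nil))) (node (nat_lit 0) (nat_lit 98280) (nat_lit 5) (node (nat_lit 5) (nat_lit 98280)
  (nat_lit 6) nil nil) nil)))) (node (nat_lit 5) (nat_lit 0) (nat_lit 4) (node (nat_lit 3)
  (nat_lit 0) (nat_lit 5) (node (nat_lit 4) (nat_lit 0) (nat_lit 6) (node (nat_lit 5) (nat_lit
  89467) (nat_lit 7) (node (nat_lit 4) (nat_lit 89629) (nat_lit 8) (node (nat_lit 8) (nat_lit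
  89629) (nat_lit 9) (node (nat_lit 5) (nat_lit 89550) (nat_lit 10) (node (nat_lit 4) (nat_lit
  97080) (nat_lit 11) (node (nat_lit 5) (nat_lit 102241) (nat_lit 12) (node (nat_lit 6) (nat_lit
  100177) (nat_lit 13) nil nil) nil) (node (nat_lit 8) (nat_lit 96873) (nat_lit 11) (node (nat_lit
  4) (nat_lit 101275) (nat_lit 12) (node (nat_lit 8) (nat_lit 100364) (nat_lit 13) nil nil) nil)
  nil)) (node (nat_lit 4) (nat_lit 89866) (nat_lit 10) (node (nat_lit 5) (nat_lit 95954) (nat_lit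
  11) (node (nat_lit 8) (nat_lit 96071) (nat_lit 12) nil nil) nil) (node (nat_lit 6) (nat_lit
  99935) (nat_lit 10) nil (node (nat_lit 0) (nat_lit 99935) (nat_lit 10) nil nil)))) (node
  (nat_lit 6) (nat_lit 99330) (nat_lit 9) nil (node (nat_lit 0) (nat_lit 99330) (nat_lit 9) nil
  nil))) (node (nat_lit 8) (nat_lit 89467) (nat_lit 8) (node (nat_lit 5) (nat_lit 89467) (nat_lit
  9) (node (nat_lit 4) (nat_lit 89467) (nat_lit 10) (node (nat_lit 8) (nat_lit 92327) (nat_lit 11)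
  (node (nat_lit 4) (nat_lit 96666) (nat_lit 12) (node (nat_lit 5) (nat_lit 99944) (nat_lit 13)
  nil nil) nil) (node (nat_lit 5) (nat_lit 93911) (nat_lit 11) nil nil)) (node (nat_lit 6)
  (nat_lit 99773) (nat_lit 10) nil nil)) nil) (node (nat_lit 6) (nat_lit 69549) (nat_lit 8) (node
  (nat_lit 5) (nat_lit 40814) (nat_lit 9) nil nil) (node (nat_lit 0) (nat_lit 103512) (nat_lit 8)
  nil nil)))) (node (nat_lit 8) (nat_lit 89901) (nat_lit 7) (node (nat_lit 5) (nat_lit 89948)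
  (nat_lit 8) (node (nat_lit 4) (nat_lit 89823) (nat_lit 9) (node (nat_lit 5) (nat_lit 89679)
  (nat_lit 10) (node (nat_lit 8) (nat_lit 97860) (nat_lit 11) (node (nat_lit 4) (nat_lit 100996)
  (nat_lit 12) (node (nat_lit 5) (nat_lit 101138) (nat_lit 13) nil nil) (node (nat_lit 5) (nat_lit
  97722) (nat_lit 12) (node (nat_lit 4) (nat_lit 94231) (nat_lit 13) nil nil) nil)) (node (nat_lit
  6) (nat_lit 81365) (nat_lit 11) nil nil)) (node (nat_lit 8) (nat_lit 89823) (nat_lit 10) (node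
  (nat_lit 4) (nat_lit 96960) (nat_lit 11) (node (nat_lit 5) (nat_lit 101205) (nat_lit 12) nil
  nil) nil) (node (nat_lit 6) (nat_lit 100128) (nat_lit 10) nil (node (nat_lit 0) (nat_lit 100128)
  (nat_lit 10) nil nil)))) (node (nat_lit 8) (nat_lit 89948) (nat_lit 9) (node (nat_lit 4)
  (nat_lit 90203) (nat_lit 10) (node (nat_lit 5) (nat_lit 97483) (nat_lit 11) (node (nat_lit 8)
  (nat_lit 97600) (nat_lit 12) nil (node (nat_lit 4) (nat_lit 97085) (nat_lit 12) nil nil)) nil)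
  (node (nat_lit 6) (nat_lit 100254) (nat_lit 10) nil (node (nat_lit 0) (nat_lit 100254) (nat_lit
  10) nil nil))) (node (nat_lit 6) (nat_lit 105228) (nat_lit 9) nil (node (nat_lit 0) (nat_lit
  99648) (nat_lit 9) nil nil)))) (node (nat_lit 6) (nat_lit 111368) (nat_lit 8) nil (node (nat_lit
  0) (nat_lit 103946) (nat_lit 8) nil nil))) (node (nat_lit 6) (nat_lit 110548) (nat_lit 7) (node
  (nat_lit 5) (nat_lit 110548) (nat_lit 8) nil (node (nat_lit 8) (nat_lit 110548) (nat_lit 8) nil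
  nil)) (node (nat_lit 0) (nat_lit 107786) (nat_lit 7) nil nil)))) (node (nat_lit 5) (nat_lit 0)
  (nat_lit 6) (node (nat_lit 4) (nat_lit 88532) (nat_lit 7) (node (nat_lit 8) (nat_lit 88532)
  (nat_lit 8) (node (nat_lit 5) (nat_lit 88532) (nat_lit 9) (node (nat_lit 8) (nat_lit 88492)
  (nat_lit 10) (node (nat_lit 4) (nat_lit 95149) (nat_lit 11) (node (nat_lit 8) (nat_lit 99441)
  (nat_lit 12) (node (nat_lit 5) (nat_lit 98925) (nat_lit 13) (node (nat_lit 4) (nat_lit 96213)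
  (nat_lit 14) (node (nat_lit 5) (nat_lit 93043) (nat_lit 15) nil nil) nil) nil) (node (nat_lit 5)
  (nat_lit 97733) (nat_lit 12) nil nil)) nil) nil) (node (nat_lit 4) (nat_lit 88532) (nat_lit 9)
  (node (nat_lit 5) (nat_lit 88532) (nat_lit 10) nil nil) nil)) (node (nat_lit 5) (nat_lit 88532)
  (nat_lit 8) (node (nat_lit 8) (nat_lit 88532) (nat_lit 9) (node (nat_lit 4) (nat_lit 88532)
  (nat_lit 10) nil nil) (node (nat_lit 6) (nat_lit 77955) (nat_lit 9) (node (nat_lit 5) (nat_lit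
  60604) (nat_lit 10) nil nil) nil)) (node (nat_lit 6) (nat_lit 102578) (nat_lit 8) nil nil)))
  (node (nat_lit 6) (nat_lit 110330) (nat_lit 7) (node (nat_lit 8) (nat_lit 110330) (nat_lit 8)
  nil nil) (node (nat_lit 0) (nat_lit 96463) (nat_lit 7) nil nil))) (node (nat_lit 6) (nat_lit
  111346) (nat_lit 6) (node (nat_lit 8) (nat_lit 111346) (nat_lit 7) nil (node (nat_lit 5)
  (nat_lit 111346) (nat_lit 7) nil nil)) (node (nat_lit 0) (nat_lit 97216) (nat_lit 6) nil nil))))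
  (node (nat_lit 4) (nat_lit 0) (nat_lit 5) (node (nat_lit 3) (nat_lit 0) (nat_lit 6) (node
  (nat_lit 5) (nat_lit 89237) (nat_lit 7) (node (nat_lit 9) (nat_lit 89435) (nat_lit 8) (node
  (nat_lit 4) (nat_lit 89435) (nat_lit 9) (node (nat_lit 5) (nat_lit 89672) (nat_lit 10) (node
  (nat_lit 4) (nat_lit 92580) (nat_lit 11) (node (nat_lit 9) (nat_lit 91450) (nat_lit 12) (node
  (nat_lit 4) (nat_lit 94624) (nat_lit 13) (node (nat_lit 5) (nat_lit 94215) (nat_lit 14) nil nil)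
  nil) nil) (node (nat_lit 9) (nat_lit 96198) (nat_lit 11) (node (nat_lit 5) (nat_lit 97322)
  (nat_lit 12) (node (nat_lit 4) (nat_lit 93832) (nat_lit 13) nil nil) nil) (node (nat_lit 6)
  (nat_lit 86346) (nat_lit 11) nil nil))) (node (nat_lit 9) (nat_lit 89672) (nat_lit 10) (node
  (nat_lit 5) (nat_lit 97805) (nat_lit 11) (node (nat_lit 4) (nat_lit 95331) (nat_lit 12) nil nil)
  nil) (node (nat_lit 6) (nat_lit 99741) (nat_lit 10) nil (node (nat_lit 0) (nat_lit 99741)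
  (nat_lit 10) nil nil)))) (node (nat_lit 6) (nat_lit 99136) (nat_lit 9) nil (node (nat_lit 0)
  (nat_lit 99136) (nat_lit 9) nil nil))) (node (nat_lit 4) (nat_lit 89435) (nat_lit 8) (node
  (nat_lit 5) (nat_lit 89435) (nat_lit 9) (node (nat_lit 9) (nat_lit 89395) (nat_lit 10) (node
  (nat_lit 4) (nat_lit 94181) (nat_lit 11) nil (node (nat_lit 5) (nat_lit 93416) (nat_lit 11) nil
  nil)) (node (nat_lit 6) (nat_lit 81881) (nat_lit 10) nil nil)) nil) (node (nat_lit 6) (nat_lit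
  105957) (nat_lit 8) nil (node (nat_lit 0) (nat_lit 103283) (nat_lit 8) nil nil)))) (node
  (nat_lit 4) (nat_lit 89193) (nat_lit 7) (node (nat_lit 5) (nat_lit 89337) (nat_lit 8) (node
  (nat_lit 9) (nat_lit 89337) (nat_lit 9) (node (nat_lit 5) (nat_lit 89564) (nat_lit 10) (node
  (nat_lit 4) (nat_lit 101873) (nat_lit 11) (node (nat_lit 5) (nat_lit 106635) (nat_lit 12) (node
  (nat_lit 9) (nat_lit 106595) (nat_lit 13) (node (nat_lit 4) (nat_lit 106573) (nat_lit 14) nil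
  nil) nil) (node (nat_lit 9) (nat_lit 104440) (nat_lit 12) (node (nat_lit 5) (nat_lit 103131)
  (nat_lit 13) nil nil) nil)) nil) (node (nat_lit 4) (nat_lit 89434) (nat_lit 10) (node (nat_lit
  9) (nat_lit 96308) (nat_lit 11) (node (nat_lit 5) (nat_lit 88642) (nat_lit 12) nil nil) nil)
  (node (nat_lit 6) (nat_lit 99643) (nat_lit 10) nil (node (nat_lit 0) (nat_lit 99643) (nat_lit
  10) nil nil)))) (node (nat_lit 4) (nat_lit 89337) (nat_lit 9) (node (nat_lit 9) (nat_lit 89364)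
  (nat_lit 10) (node (nat_lit 5) (nat_lit 95181) (nat_lit 11) (node (nat_lit 4) (nat_lit 98213)
  (nat_lit 12) (node (nat_lit 5) (nat_lit 96292) (nat_lit 13) nil nil) (node (nat_lit 9) (nat_lit
  91957) (nat_lit 12) nil nil)) nil) (node (nat_lit 6) (nat_lit 99643) (nat_lit 10) nil (node
  (nat_lit 0) (nat_lit 99643) (nat_lit 10) nil nil))) (node (nat_lit 6) (nat_lit 73995) (nat_lit
  9) (node (nat_lit 5) (nat_lit 73995) (nat_lit 10) (node (nat_lit 4) (nat_lit 38570) (nat_lit 11)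
  nil nil) nil) (node (nat_lit 0) (nat_lit 99038) (nat_lit 9) nil nil)))) (node (nat_lit 6)
  (nat_lit 109033) (nat_lit 8) nil (node (nat_lit 0) (nat_lit 105914) (nat_lit 8) nil nil))) (node
  (nat_lit 6) (nat_lit 110279) (nat_lit 7) (node (nat_lit 5) (nat_lit 110279) (nat_lit 8) nil nil)
  (node (nat_lit 0) (nat_lit 105665) (nat_lit 7) nil nil)))) (node (nat_lit 5) (nat_lit 0)
  (nat_lit 6) (node (nat_lit 3) (nat_lit 87900) (nat_lit 7) (node (nat_lit 4) (nat_lit 87900)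
  (nat_lit 8) (node (nat_lit 5) (nat_lit 87900) (nat_lit 9) (node (nat_lit 4) (nat_lit 88163)
  (nat_lit 10) (node (nat_lit 10) (nat_lit 92729) (nat_lit 11) (node (nat_lit 4) (nat_lit 98299)
  (nat_lit 12) (node (nat_lit 5) (nat_lit 97565) (nat_lit 13) (node (nat_lit 10) (nat_lit 97486)
  (nat_lit 14) (node (nat_lit 5) (nat_lit 97504) (nat_lit 15) (node (nat_lit 4) (nat_lit 96895)
  (nat_lit 16) (node (nat_lit 5) (nat_lit 95782) (nat_lit 17) nil nil) nil) nil) nil) nil) nil)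
  nil) (node (nat_lit 6) (nat_lit 89316) (nat_lit 10) (node (nat_lit 5) (nat_lit 80013) (nat_lit
  11) (node (nat_lit 4) (nat_lit 67138) (nat_lit 12) nil nil) nil) nil)) (node (nat_lit 10)
  (nat_lit 87900) (nat_lit 9) (node (nat_lit 5) (nat_lit 87997) (nat_lit 10) (node (nat_lit 4)
  (nat_lit 92072) (nat_lit 11) (node (nat_lit 10) (nat_lit 95897) (nat_lit 12) (node (nat_lit 4)
  (nat_lit 98772) (nat_lit 13) (node (nat_lit 5) (nat_lit 97943) (nat_lit 14) nil nil) nil) nil)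
  (node (nat_lit 10) (nat_lit 94110) (nat_lit 11) (node (nat_lit 4) (nat_lit 98347) (nat_lit 12)
  (node (nat_lit 5) (nat_lit 98249) (nat_lit 13) nil nil) nil) nil)) nil) nil)) (node (nat_lit 5)
  (nat_lit 87900) (nat_lit 8) (node (nat_lit 4) (nat_lit 87900) (nat_lit 9) (node (nat_lit 10)
  (nat_lit 87900) (nat_lit 10) (node (nat_lit 5) (nat_lit 93730) (nat_lit 11) (node (nat_lit 10)
  (nat_lit 98116) (nat_lit 12) (node (nat_lit 4) (nat_lit 100531) (nat_lit 13) (node (nat_lit 5)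
  (nat_lit 98067) (nat_lit 14) nil nil) nil) nil) (node (nat_lit 4) (nat_lit 94254) (nat_lit 11)
  (node (nat_lit 5) (nat_lit 98401) (nat_lit 12) nil nil) nil)) nil) nil) (node (nat_lit 6)
  (nat_lit 101946) (nat_lit 8) nil nil))) (node (nat_lit 6) (nat_lit 68131) (nat_lit 7) nil (node
  (nat_lit 0) (nat_lit 95831) (nat_lit 7) nil nil))) (node (nat_lit 6) (nat_lit 108156) (nat_lit
  6) (node (nat_lit 5) (nat_lit 108156) (nat_lit 7) (node (nat_lit 6) (nat_lit 111313) (nat_lit 8)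
  nil (node (nat_lit 3) (nat_lit 110432) (nat_lit 8) nil nil)) (node (nat_lit 4) (nat_lit 108156)
  (nat_lit 7) nil (node (nat_lit 3) (nat_lit 110432) (nat_lit 7) nil nil))) (node (nat_lit 0)
  (nat_lit 97041) (nat_lit 6) nil nil)))) (node (nat_lit 0) (nat_lit 93724) (nat_lit 5) nil nil)))
  (node (nat_lit 0) (nat_lit 0) (nat_lit 4) (node (nat_lit 0) (nat_lit 107110) (nat_lit 5) (node
  (nat_lit 6) (nat_lit 108742) (nat_lit 6) nil nil) (node (nat_lit 5) (nat_lit 101561) (nat_lit 5)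
  nil (node (nat_lit 3) (nat_lit 101561) (nat_lit 5) (node (nat_lit 5) (nat_lit 101561) (nat_lit
  6) nil (node (nat_lit 4) (nat_lit 101561) (nat_lit 6) nil nil)) (node (nat_lit 4) (nat_lit
  101561) (nat_lit 5) (node (nat_lit 5) (nat_lit 101561) (nat_lit 6) nil (node (nat_lit 3)
  (nat_lit 101561) (nat_lit 6) nil nil)) (node (nat_lit 6) (nat_lit 106358) (nat_lit 5) (node
  (nat_lit 0) (nat_lit 107989) (nat_lit 6) nil nil) nil))))) nil)))

noncomputable def t257 : Tr :=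
  (node (nat_lit 4) (nat_lit 0) (nat_lit 3) (node (nat_lit 0) (nat_lit 0) (nat_lit 4) (node
  (nat_lit 3) (nat_lit 0) (nat_lit 5) (node (nat_lit 4) (nat_lit 0) (nat_lit 6) (node (nat_lit 8)
  (nat_lit 49937) (nat_lit 7) (node (nat_lit 5) (nat_lit 50472) (nat_lit 8) (node (nat_lit 4)
  (nat_lit 50894) (nat_lit 9) (node (nat_lit 5) (nat_lit 50894) (nat_lit 10) (node (nat_lit 8)
  (nat_lit 50956) (nat_lit 11) (node (nat_lit 5) (nat_lit 54854) (nat_lit 12) (node (nat_lit 4)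
  (nat_lit 54344) (nat_lit 13) (node (nat_lit 8) (nat_lit 53950) (nat_lit 14) (node (nat_lit 4)
  (nat_lit 53595) (nat_lit 15) (node (nat_lit 5) (nat_lit 52233) (nat_lit 16) (node (nat_lit 4)
  (nat_lit 50627) (nat_lit 17) nil nil) nil) nil) nil) nil) (node (nat_lit 4) (nat_lit 55958)
  (nat_lit 12) (node (nat_lit 5) (nat_lit 57478) (nat_lit 13) (node (nat_lit 4) (nat_lit 58278)
  (nat_lit 14) nil nil) (node (nat_lit 8) (nat_lit 56128) (nat_lit 13) nil nil)) nil)) (node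
  (nat_lit 0) (nat_lit 54904) (nat_lit 11) nil (node (nat_lit 7) (nat_lit 54904) (nat_lit 11) nil
  nil))) (node (nat_lit 8) (nat_lit 50894) (nat_lit 10) (node (nat_lit 4) (nat_lit 50894) (nat_lit
  11) (node (nat_lit 5) (nat_lit 53850) (nat_lit 12) (node (nat_lit 8) (nat_lit 54677) (nat_lit
  13) nil nil) nil) nil) (node (nat_lit 7) (nat_lit 61671) (nat_lit 10) nil (node (nat_lit 0)
  (nat_lit 54665) (nat_lit 10) nil nil)))) (node (nat_lit 8) (nat_lit 50894) (nat_lit 9) (node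
  (nat_lit 4) (nat_lit 50894) (nat_lit 10) (node (nat_lit 5) (nat_lit 50894) (nat_lit 11) (node
  (nat_lit 4) (nat_lit 52770) (nat_lit 12) (node (nat_lit 8) (nat_lit 49336) (nat_lit 13) nil nil)
  (node (nat_lit 8) (nat_lit 53226) (nat_lit 12) nil nil)) (node (nat_lit 8) (nat_lit 50894)
  (nat_lit 11) nil nil)) (node (nat_lit 7) (nat_lit 54665) (nat_lit 10) nil (node (nat_lit 0)
  (nat_lit 54665) (nat_lit 10) nil nil))) (node (nat_lit 7) (nat_lit 61651) (nat_lit 9) nil (node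
  (nat_lit 0) (nat_lit 57932) (nat_lit 9) nil nil)))) (node (nat_lit 7) (nat_lit 63209) (nat_lit
  8) (node (nat_lit 4) (nat_lit 63209) (nat_lit 9) (node (nat_lit 8) (nat_lit 63209) (nat_lit 10)
  nil nil) nil) (node (nat_lit 0) (nat_lit 59908) (nat_lit 8) nil nil))) (node (nat_lit 5)
  (nat_lit 49781) (nat_lit 7) (node (nat_lit 8) (nat_lit 50341) (nat_lit 8) (node (nat_lit 4)
  (nat_lit 50731) (nat_lit 9) (node (nat_lit 8) (nat_lit 50731) (nat_lit 10) (node (nat_lit 5)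
  (nat_lit 50884) (nat_lit 11) (node (nat_lit 4) (nat_lit 54718) (nat_lit 12) nil (node (nat_lit
  8) (nat_lit 54670) (nat_lit 12) (node (nat_lit 4) (nat_lit 54103) (nat_lit 13) (node (nat_lit 5)
  (nat_lit 50872) (nat_lit 14) (node (nat_lit 4) (nat_lit 45869) (nat_lit 15) nil nil) nil) nil)
  nil)) nil) nil) (node (nat_lit 5) (nat_lit 50731) (nat_lit 9) (node (nat_lit 4) (nat_lit 50894)
  (nat_lit 10) (node (nat_lit 5) (nat_lit 50894) (nat_lit 11) (node (nat_lit 8) (nat_lit 51991)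
  (nat_lit 12) nil nil) (node (nat_lit 8) (nat_lit 50894) (nat_lit 11) (node (nat_lit 4) (nat_lit
  53789) (nat_lit 12) (node (nat_lit 5) (nat_lit 55670) (nat_lit 13) nil nil) (node (nat_lit 5)
  (nat_lit 48451) (nat_lit 12) nil nil)) nil)) nil) nil)) (node (nat_lit 4) (nat_lit 50620)
  (nat_lit 8) (node (nat_lit 8) (nat_lit 50894) (nat_lit 9) (node (nat_lit 4) (nat_lit 50894)
  (nat_lit 10) (node (nat_lit 5) (nat_lit 50894) (nat_lit 11) (node (nat_lit 8) (nat_lit 53226)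
  (nat_lit 12) nil nil) nil) (node (nat_lit 5) (nat_lit 50894) (nat_lit 10) (node (nat_lit 4)
  (nat_lit 50894) (nat_lit 11) nil (node (nat_lit 8) (nat_lit 50894) (nat_lit 11) (node (nat_lit
  4) (nat_lit 55067) (nat_lit 12) nil nil) nil)) nil)) nil) (node (nat_lit 7) (nat_lit 56390)
  (nat_lit 8) nil (node (nat_lit 0) (nat_lit 52852) (nat_lit 8) nil nil)))) (node (nat_lit 7)
  (nat_lit 63296) (nat_lit 7) (node (nat_lit 4) (nat_lit 63296) (nat_lit 8) (node (nat_lit 8)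
  (nat_lit 63296) (nat_lit 9) (node (nat_lit 4) (nat_lit 63296) (nat_lit 10) (node (nat_lit 5)
  (nat_lit 63296) (nat_lit 11) (node (nat_lit 8) (nat_lit 63296) (nat_lit 12) nil nil) nil) nil)
  nil) (node (nat_lit 5) (nat_lit 63296) (nat_lit 8) (node (nat_lit 8) (nat_lit 63296) (nat_lit 9)
  nil nil) nil)) (node (nat_lit 0) (nat_lit 57290) (nat_lit 7) nil nil)))) (node (nat_lit 7)
  (nat_lit 0) (nat_lit 6) (node (nat_lit 4) (nat_lit 61488) (nat_lit 7) (node (nat_lit 8) (nat_lit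
  61488) (nat_lit 8) (node (nat_lit 4) (nat_lit 61488) (nat_lit 9) (node (nat_lit 5) (nat_lit
  61488) (nat_lit 10) (node (nat_lit 8) (nat_lit 61488) (nat_lit 11) (node (nat_lit 4) (nat_lit
  61488) (nat_lit 12) (node (nat_lit 8) (nat_lit 61488) (nat_lit 13) (node (nat_lit 5) (nat_lit
  61364) (nat_lit 14) (node (nat_lit 4) (nat_lit 60197) (nat_lit 15) nil (node (nat_lit 8)
  (nat_lit 62770) (nat_lit 15) (node (nat_lit 4) (nat_lit 63604) (nat_lit 16) nil nil) nil)) nil)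
  nil) (node (nat_lit 5) (nat_lit 61488) (nat_lit 12) (node (nat_lit 4) (nat_lit 61488) (nat_lit
  13) (node (nat_lit 5) (nat_lit 59993) (nat_lit 14) nil (node (nat_lit 8) (nat_lit 62132)
  (nat_lit 14) nil nil)) nil) nil)) (node (nat_lit 4) (nat_lit 61488) (nat_lit 11) (node (nat_lit
  8) (nat_lit 61488) (nat_lit 12) (node (nat_lit 5) (nat_lit 61488) (nat_lit 13) nil nil) nil)
  nil)) (node (nat_lit 7) (nat_lit 64642) (nat_lit 10) nil (node (nat_lit 0) (nat_lit 63336)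
  (nat_lit 10) nil nil))) (node (nat_lit 5) (nat_lit 61488) (nat_lit 9) (node (nat_lit 4) (nat_lit
  61488) (nat_lit 10) (node (nat_lit 5) (nat_lit 61488) (nat_lit 11) (node (nat_lit 8) (nat_lit
  61488) (nat_lit 12) (node (nat_lit 4) (nat_lit 61488) (nat_lit 13) nil (node (nat_lit 5)
  (nat_lit 61488) (nat_lit 13) nil nil)) nil) (node (nat_lit 8) (nat_lit 61488) (nat_lit 11) (node
  (nat_lit 4) (nat_lit 61488) (nat_lit 12) nil nil) nil)) (node (nat_lit 8) (nat_lit 61488)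
  (nat_lit 10) (node (nat_lit 4) (nat_lit 61488) (nat_lit 11) (node (nat_lit 5) (nat_lit 61488)
  (nat_lit 12) nil (node (nat_lit 8) (nat_lit 61488) (nat_lit 12) (node (nat_lit 5) (nat_lit
  61488) (nat_lit 13) nil nil) nil)) nil) (node (nat_lit 0) (nat_lit 63336) (nat_lit 10) nil
  nil))) (node (nat_lit 0) (nat_lit 63028) (nat_lit 9) nil nil))) (node (nat_lit 5) (nat_lit
  61488) (nat_lit 8) (node (nat_lit 8) (nat_lit 61488) (nat_lit 9) (node (nat_lit 4) (nat_lit
  61488) (nat_lit 10) nil nil) (node (nat_lit 4) (nat_lit 61488) (nat_lit 9) nil nil)) (node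
  (nat_lit 7) (nat_lit 63975) (nat_lit 8) nil (node (nat_lit 0) (nat_lit 63975) (nat_lit 8) nil
  nil)))) (node (nat_lit 5) (nat_lit 61488) (nat_lit 7) (node (nat_lit 8) (nat_lit 61488) (nat_lit
  8) (node (nat_lit 4) (nat_lit 61488) (nat_lit 9) (node (nat_lit 5) (nat_lit 61488) (nat_lit 10)
  (node (nat_lit 4) (nat_lit 61488) (nat_lit 11) nil (node (nat_lit 8) (nat_lit 61488) (nat_lit
  11) nil nil)) (node (nat_lit 8) (nat_lit 61488) (nat_lit 10) (node (nat_lit 5) (nat_lit 61488)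
  (nat_lit 11) nil nil) nil)) (node (nat_lit 5) (nat_lit 61488) (nat_lit 9) (node (nat_lit 4)
  (nat_lit 61488) (nat_lit 10) (node (nat_lit 8) (nat_lit 61488) (nat_lit 11) nil (node (nat_lit
  5) (nat_lit 61488) (nat_lit 11) nil nil)) (node (nat_lit 7) (nat_lit 63336) (nat_lit 10) nil
  (node (nat_lit 0) (nat_lit 63336) (nat_lit 10) nil nil))) nil)) (node (nat_lit 4) (nat_lit
  61488) (nat_lit 8) nil nil)) (node (nat_lit 0) (nat_lit 62885) (nat_lit 7) nil nil))) (node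
  (nat_lit 5) (nat_lit 0) (nat_lit 6) (node (nat_lit 4) (nat_lit 50166) (nat_lit 7) (node (nat_lit
  8) (nat_lit 50894) (nat_lit 8) (node (nat_lit 5) (nat_lit 50894) (nat_lit 9) (node (nat_lit 8)
  (nat_lit 50894) (nat_lit 10) (node (nat_lit 4) (nat_lit 50894) (nat_lit 11) (node (nat_lit 5)
  (nat_lit 52933) (nat_lit 12) (node (nat_lit 4) (nat_lit 54952) (nat_lit 13) nil (node (nat_lit
  8) (nat_lit 53759) (nat_lit 13) nil nil)) (node (nat_lit 8) (nat_lit 53978) (nat_lit 12) (node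
  (nat_lit 5) (nat_lit 52063) (nat_lit 13) nil nil) nil)) nil) nil) (node (nat_lit 4) (nat_lit
  50894) (nat_lit 9) (node (nat_lit 5) (nat_lit 50894) (nat_lit 10) (node (nat_lit 4) (nat_lit
  50894) (nat_lit 11) (node (nat_lit 8) (nat_lit 51991) (nat_lit 12) nil (node (nat_lit 7)
  (nat_lit 35304) (nat_lit 12) nil nil)) (node (nat_lit 8) (nat_lit 50894) (nat_lit 11) (node
  (nat_lit 4) (nat_lit 53226) (nat_lit 12) (node (nat_lit 8) (nat_lit 54052) (nat_lit 13) nil nil)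
  (node (nat_lit 5) (nat_lit 51991) (nat_lit 12) nil nil)) nil)) nil) (node (nat_lit 7) (nat_lit
  54358) (nat_lit 9) nil (node (nat_lit 0) (nat_lit 54358) (nat_lit 9) nil nil)))) (node (nat_lit
  5) (nat_lit 50894) (nat_lit 8) (node (nat_lit 8) (nat_lit 50894) (nat_lit 9) (node (nat_lit 4)
  (nat_lit 50894) (nat_lit 10) (node (nat_lit 8) (nat_lit 50816) (nat_lit 11) (node (nat_lit 5)
  (nat_lit 51251) (nat_lit 12) (node (nat_lit 4) (nat_lit 50663) (nat_lit 13) nil (node (nat_lit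
  8) (nat_lit 54004) (nat_lit 13) (node (nat_lit 4) (nat_lit 55617) (nat_lit 14) nil nil) nil))
  nil) (node (nat_lit 5) (nat_lit 50894) (nat_lit 11) nil (node (nat_lit 7) (nat_lit 54904)
  (nat_lit 11) nil nil))) (node (nat_lit 5) (nat_lit 50894) (nat_lit 10) (node (nat_lit 4)
  (nat_lit 50894) (nat_lit 11) (node (nat_lit 8) (nat_lit 52575) (nat_lit 12) nil nil) nil) nil))
  (node (nat_lit 7) (nat_lit 58354) (nat_lit 9) nil nil)) (node (nat_lit 7) (nat_lit 56774)
  (nat_lit 8) nil (node (nat_lit 0) (nat_lit 53236) (nat_lit 8) nil nil)))) (node (nat_lit 8)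
  (nat_lit 0) (nat_lit 7) (node (nat_lit 4) (nat_lit 50894) (nat_lit 8) (node (nat_lit 5) (nat_lit
  50894) (nat_lit 9) (node (nat_lit 4) (nat_lit 50894) (nat_lit 10) (node (nat_lit 8) (nat_lit
  50894) (nat_lit 11) (node (nat_lit 4) (nat_lit 54861) (nat_lit 12) (node (nat_lit 5) (nat_lit
  56552) (nat_lit 13) nil nil) (node (nat_lit 5) (nat_lit 53714) (nat_lit 12) (node (nat_lit 8)
  (nat_lit 56802) (nat_lit 13) (node (nat_lit 4) (nat_lit 58678) (nat_lit 14) nil nil) (node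
  (nat_lit 4) (nat_lit 54541) (nat_lit 13) nil nil)) nil)) (node (nat_lit 7) (nat_lit 36325)
  (nat_lit 11) (node (nat_lit 8) (nat_lit 20122) (nat_lit 12) nil nil) nil)) (node (nat_lit 8)
  (nat_lit 50894) (nat_lit 10) (node (nat_lit 5) (nat_lit 50894) (nat_lit 11) (node (nat_lit 4)
  (nat_lit 48451) (nat_lit 12) nil nil) nil) (node (nat_lit 7) (nat_lit 54665) (nat_lit 10) nil
  nil))) (node (nat_lit 8) (nat_lit 50894) (nat_lit 9) (node (nat_lit 5) (nat_lit 50894) (nat_lit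
  10) (node (nat_lit 4) (nat_lit 50917) (nat_lit 11) (node (nat_lit 5) (nat_lit 53248) (nat_lit
  12) nil (node (nat_lit 8) (nat_lit 54450) (nat_lit 12) (node (nat_lit 4) (nat_lit 54182)
  (nat_lit 13) nil nil) nil)) (node (nat_lit 8) (nat_lit 50894) (nat_lit 11) nil nil)) nil) (node
  (nat_lit 7) (nat_lit 54358) (nat_lit 9) nil (node (nat_lit 0) (nat_lit 54358) (nat_lit 9) nil
  nil)))) (node (nat_lit 7) (nat_lit 56616) (nat_lit 8) nil (node (nat_lit 0) (nat_lit 56616)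
  (nat_lit 8) nil nil))) (node (nat_lit 7) (nat_lit 61839) (nat_lit 7) (node (nat_lit 5) (nat_lit
  61839) (nat_lit 8) (node (nat_lit 8) (nat_lit 61839) (nat_lit 9) (node (nat_lit 5) (nat_lit
  61839) (nat_lit 10) nil nil) nil) (node (nat_lit 8) (nat_lit 61839) (nat_lit 8) nil (node
  (nat_lit 4) (nat_lit 61839) (nat_lit 8) nil nil))) (node (nat_lit 0) (nat_lit 56231) (nat_lit 7)
  nil nil)))) (node (nat_lit 0) (nat_lit 0) (nat_lit 6) (node (nat_lit 8) (nat_lit 58613) (nat_lit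
  7) nil (node (nat_lit 7) (nat_lit 59257) (nat_lit 7) nil (node (nat_lit 4) (nat_lit 58613)
  (nat_lit 7) nil (node (nat_lit 5) (nat_lit 58613) (nat_lit 7) nil (node (nat_lit 0) (nat_lit
  59257) (nat_lit 7) nil nil))))) nil)))) t254) (node (nat_lit 3) (nat_lit 0) (nat_lit 4) t255
  nil)) (node (nat_lit 0) (nat_lit 0) (nat_lit 3) (node (nat_lit 4) (nat_lit 0) (nat_lit 4) (node
  (nat_lit 3) (nat_lit 0) (nat_lit 5) (node (nat_lit 5) (nat_lit 0) (nat_lit 6) (node (nat_lit 4)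
  (nat_lit 88645) (nat_lit 7) (node (nat_lit 5) (nat_lit 89182) (nat_lit 8) (node (nat_lit 8)
  (nat_lit 89348) (nat_lit 9) (node (nat_lit 4) (nat_lit 89683) (nat_lit 10) (node (nat_lit 5)
  (nat_lit 97411) (nat_lit 11) (node (nat_lit 4) (nat_lit 97012) (nat_lit 12) nil (node (nat_lit
  6) (nat_lit 94113) (nat_lit 12) nil nil)) (node (nat_lit 8) (nat_lit 95846) (nat_lit 11) (node
  (nat_lit 5) (nat_lit 95839) (nat_lit 12) (node (nat_lit 8) (nat_lit 99184) (nat_lit 13) (node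
  (nat_lit 4) (nat_lit 99306) (nat_lit 14) nil nil) nil) nil) nil)) (node (nat_lit 5) (nat_lit
  89523) (nat_lit 10) (node (nat_lit 4) (nat_lit 97489) (nat_lit 11) (node (nat_lit 8) (nat_lit
  99456) (nat_lit 12) nil nil) nil) (node (nat_lit 6) (nat_lit 99654) (nat_lit 10) nil (node
  (nat_lit 0) (nat_lit 99654) (nat_lit 10) nil nil)))) (node (nat_lit 6) (nat_lit 78853) (nat_lit
  9) (node (nat_lit 4) (nat_lit 66114) (nat_lit 10) (node (nat_lit 8) (nat_lit 66114) (nat_lit 11)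
  nil nil) nil) (node (nat_lit 0) (nat_lit 98883) (nat_lit 9) nil nil))) (node (nat_lit 8)
  (nat_lit 88943) (nat_lit 8) (node (nat_lit 4) (nat_lit 89270) (nat_lit 9) (node (nat_lit 5)
  (nat_lit 89348) (nat_lit 10) (node (nat_lit 8) (nat_lit 94575) (nat_lit 11) (node (nat_lit 5)
  (nat_lit 96562) (nat_lit 12) (node (nat_lit 4) (nat_lit 93300) (nat_lit 13) nil nil) nil) (node
  (nat_lit 4) (nat_lit 91878) (nat_lit 11) nil (node (nat_lit 6) (nat_lit 86379) (nat_lit 11) nil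
  nil))) nil) nil) (node (nat_lit 6) (nat_lit 108484) (nat_lit 8) nil (node (nat_lit 0) (nat_lit
  102690) (nat_lit 8) nil nil)))) (node (nat_lit 8) (nat_lit 88545) (nat_lit 7) (node (nat_lit 4)
  (nat_lit 89298) (nat_lit 8) (node (nat_lit 5) (nat_lit 89359) (nat_lit 9) (node (nat_lit 4)
  (nat_lit 89243) (nat_lit 10) (node (nat_lit 8) (nat_lit 97841) (nat_lit 11) (node (nat_lit 4)
  (nat_lit 101943) (nat_lit 12) (node (nat_lit 5) (nat_lit 104427) (nat_lit 13) (node (nat_lit 8)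
  (nat_lit 103716) (nat_lit 14) nil nil) nil) (node (nat_lit 5) (nat_lit 96002) (nat_lit 12) (node
  (nat_lit 4) (nat_lit 95681) (nat_lit 13) nil nil) nil)) nil) (node (nat_lit 8) (nat_lit 89596)
  (nat_lit 10) (node (nat_lit 5) (nat_lit 98317) (nat_lit 11) (node (nat_lit 4) (nat_lit 97572)
  (nat_lit 12) nil nil) nil) (node (nat_lit 6) (nat_lit 87824) (nat_lit 10) (node (nat_lit 4)
  (nat_lit 70996) (nat_lit 11) (node (nat_lit 8) (nat_lit 57391) (nat_lit 12) nil nil) nil) (node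
  (nat_lit 0) (nat_lit 99665) (nat_lit 10) nil nil)))) (node (nat_lit 8) (nat_lit 89298) (nat_lit
  9) (node (nat_lit 5) (nat_lit 89228) (nat_lit 10) (node (nat_lit 4) (nat_lit 96519) (nat_lit 11)
  (node (nat_lit 5) (nat_lit 97534) (nat_lit 12) (node (nat_lit 8) (nat_lit 92163) (nat_lit 13)
  nil nil) (node (nat_lit 8) (nat_lit 100562) (nat_lit 12) nil nil)) (node (nat_lit 6) (nat_lit
  100005) (nat_lit 11) nil nil)) (node (nat_lit 6) (nat_lit 99604) (nat_lit 10) nil (node (nat_lit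
  0) (nat_lit 99604) (nat_lit 10) nil nil))) (node (nat_lit 6) (nat_lit 104577) (nat_lit 9) nil
  (node (nat_lit 0) (nat_lit 98998) (nat_lit 9) nil nil)))) (node (nat_lit 6) (nat_lit 113131)
  (nat_lit 8) nil (node (nat_lit 0) (nat_lit 102590) (nat_lit 8) nil nil))) (node (nat_lit 6)
  (nat_lit 113809) (nat_lit 7) (node (nat_lit 5) (nat_lit 113809) (nat_lit 8) nil (node (nat_lit
  8) (nat_lit 113809) (nat_lit 8) nil (node (nat_lit 4) (nat_lit 113809) (nat_lit 8) (node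
  (nat_lit 5) (nat_lit 113809) (nat_lit 9) nil nil) nil))) (node (nat_lit 0) (nat_lit 108038)
  (nat_lit 7) nil nil)))) (node (nat_lit 4) (nat_lit 0) (nat_lit 6) (node (nat_lit 5) (nat_lit
  87761) (nat_lit 7) (node (nat_lit 8) (nat_lit 87773) (nat_lit 8) (node (nat_lit 4) (nat_lit
  87773) (nat_lit 9) (node (nat_lit 8) (nat_lit 87675) (nat_lit 10) (node (nat_lit 5) (nat_lit
  92647) (nat_lit 11) (node (nat_lit 8) (nat_lit 97224) (nat_lit 12) (node (nat_lit 4) (nat_lit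
  99142) (nat_lit 13) (node (nat_lit 5) (nat_lit 97073) (nat_lit 14) nil nil) nil) (node (nat_lit
  4) (nat_lit 91660) (nat_lit 12) nil nil)) nil) nil) (node (nat_lit 5) (nat_lit 87773) (nat_lit
  9) (node (nat_lit 4) (nat_lit 88153) (nat_lit 10) (node (nat_lit 8) (nat_lit 91015) (nat_lit 11)
  nil (node (nat_lit 5) (nat_lit 88186) (nat_lit 11) nil nil)) nil) nil)) (node (nat_lit 4)
  (nat_lit 87761) (nat_lit 8) (node (nat_lit 8) (nat_lit 87761) (nat_lit 9) (node (nat_lit 5)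
  (nat_lit 87845) (nat_lit 10) (node (nat_lit 4) (nat_lit 95009) (nat_lit 11) (node (nat_lit 5)
  (nat_lit 100547) (nat_lit 12) (node (nat_lit 8) (nat_lit 100265) (nat_lit 13) (node (nat_lit 4)
  (nat_lit 100387) (nat_lit 14) (node (nat_lit 5) (nat_lit 98587) (nat_lit 15) nil nil) nil) nil)
  nil) (node (nat_lit 8) (nat_lit 94498) (nat_lit 11) (node (nat_lit 4) (nat_lit 98991) (nat_lit
  12) nil nil) nil)) nil) nil) (node (nat_lit 6) (nat_lit 71537) (nat_lit 8) (node (nat_lit 4)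
  (nat_lit 37114) (nat_lit 9) nil nil) nil))) (node (nat_lit 6) (nat_lit 113517) (nat_lit 7) (node
  (nat_lit 4) (nat_lit 113517) (nat_lit 8) (node (nat_lit 8) (nat_lit 113517) (nat_lit 9) nil nil)
  nil) (node (nat_lit 0) (nat_lit 95684) (nat_lit 7) nil nil))) (node (nat_lit 6) (nat_lit 111983)
  (nat_lit 6) (node (nat_lit 4) (nat_lit 111983) (nat_lit 7) nil (node (nat_lit 8) (nat_lit
  111983) (nat_lit 7) nil nil)) (node (nat_lit 0) (nat_lit 98974) (nat_lit 6) nil nil)))) (node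
  (nat_lit 5) (nat_lit 0) (nat_lit 5) (node (nat_lit 3) (nat_lit 0) (nat_lit 6) (node (nat_lit 4)
  (nat_lit 88395) (nat_lit 7) (node (nat_lit 9) (nat_lit 88372) (nat_lit 8) (node (nat_lit 5)
  (nat_lit 88162) (nat_lit 9) (node (nat_lit 4) (nat_lit 88542) (nat_lit 10) (node (nat_lit 5)
  (nat_lit 98698) (nat_lit 11) (node (nat_lit 9) (nat_lit 103803) (nat_lit 12) (node (nat_lit 5)
  (nat_lit 104882) (nat_lit 13) (node (nat_lit 4) (nat_lit 102368) (nat_lit 14) nil nil) nil)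
  (node (nat_lit 6) (nat_lit 88273) (nat_lit 12) nil nil)) (node (nat_lit 9) (nat_lit 96544)
  (nat_lit 11) (node (nat_lit 4) (nat_lit 100295) (nat_lit 12) (node (nat_lit 5) (nat_lit 101048)
  (nat_lit 13) nil nil) nil) nil)) (node (nat_lit 9) (nat_lit 87934) (nat_lit 10) (node (nat_lit
  4) (nat_lit 93860) (nat_lit 11) (node (nat_lit 5) (nat_lit 96390) (nat_lit 12) nil nil) nil)
  (node (nat_lit 6) (nat_lit 98468) (nat_lit 10) nil (node (nat_lit 0) (nat_lit 98468) (nat_lit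
  10) nil nil)))) (node (nat_lit 6) (nat_lit 98073) (nat_lit 9) nil (node (nat_lit 0) (nat_lit
  98073) (nat_lit 9) nil nil))) (node (nat_lit 5) (nat_lit 88385) (nat_lit 8) (node (nat_lit 4)
  (nat_lit 88262) (nat_lit 9) (node (nat_lit 9) (nat_lit 88208) (nat_lit 10) (node (nat_lit 5)
  (nat_lit 94793) (nat_lit 11) (node (nat_lit 9) (nat_lit 99696) (nat_lit 12) (node (nat_lit 4)
  (nat_lit 103188) (nat_lit 13) nil nil) (node (nat_lit 4) (nat_lit 96958) (nat_lit 12) nil nil))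
  (node (nat_lit 4) (nat_lit 94694) (nat_lit 11) (node (nat_lit 5) (nat_lit 98227) (nat_lit 12)
  nil nil) nil)) nil) (node (nat_lit 6) (nat_lit 81153) (nat_lit 9) nil nil)) (node (nat_lit 6)
  (nat_lit 105115) (nat_lit 8) nil (node (nat_lit 0) (nat_lit 102441) (nat_lit 8) nil nil))))
  (node (nat_lit 5) (nat_lit 88794) (nat_lit 7) (node (nat_lit 4) (nat_lit 88958) (nat_lit 8)
  (node (nat_lit 9) (nat_lit 88872) (nat_lit 9) (node (nat_lit 4) (nat_lit 89068) (nat_lit 10)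
  (node (nat_lit 5) (nat_lit 96267) (nat_lit 11) (node (nat_lit 4) (nat_lit 99168) (nat_lit 12)
  (node (nat_lit 9) (nat_lit 93798) (nat_lit 13) nil nil) (node (nat_lit 9) (nat_lit 97030)
  (nat_lit 12) (node (nat_lit 4) (nat_lit 98662) (nat_lit 13) nil nil) nil)) (node (nat_lit 6)
  (nat_lit 99846) (nat_lit 11) nil nil)) (node (nat_lit 5) (nat_lit 88902) (nat_lit 10) (node
  (nat_lit 9) (nat_lit 95593) (nat_lit 11) (node (nat_lit 4) (nat_lit 100277) (nat_lit 12) (node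
  (nat_lit 5) (nat_lit 101380) (nat_lit 13) nil nil) nil) nil) (node (nat_lit 6) (nat_lit 99178)
  (nat_lit 10) nil (node (nat_lit 0) (nat_lit 99178) (nat_lit 10) nil nil)))) (node (nat_lit 5)
  (nat_lit 88958) (nat_lit 9) (node (nat_lit 9) (nat_lit 88983) (nat_lit 10) (node (nat_lit 4)
  (nat_lit 94390) (nat_lit 11) (node (nat_lit 5) (nat_lit 96846) (nat_lit 12) nil (node (nat_lit
  9) (nat_lit 93272) (nat_lit 12) nil nil)) nil) (node (nat_lit 6) (nat_lit 90991) (nat_lit 10)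
  (node (nat_lit 4) (nat_lit 66341) (nat_lit 11) nil nil) (node (nat_lit 0) (nat_lit 99264)
  (nat_lit 10) nil nil))) (node (nat_lit 6) (nat_lit 104239) (nat_lit 9) nil (node (nat_lit 0)
  (nat_lit 98659) (nat_lit 9) nil nil)))) (node (nat_lit 6) (nat_lit 108633) (nat_lit 8) nil (node
  (nat_lit 0) (nat_lit 102840) (nat_lit 8) nil nil))) (node (nat_lit 6) (nat_lit 112312) (nat_lit
  7) (node (nat_lit 4) (nat_lit 112312) (nat_lit 8) nil (node (nat_lit 5) (nat_lit 112312)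
  (nat_lit 8) nil nil)) (node (nat_lit 0) (nat_lit 107124) (nat_lit 7) nil nil)))) (node (nat_lit
  4) (nat_lit 0) (nat_lit 6) (node (nat_lit 3) (nat_lit 88562) (nat_lit 7) (node (nat_lit 5)
  (nat_lit 88562) (nat_lit 8) (node (nat_lit 4) (nat_lit 88562) (nat_lit 9) (node (nat_lit 5)
  (nat_lit 88979) (nat_lit 10) (node (nat_lit 10) (nat_lit 96081) (nat_lit 11) (node (nat_lit 5)
  (nat_lit 95050) (nat_lit 12) (node (nat_lit 4) (nat_lit 94922) (nat_lit 13) (node (nat_lit 10)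
  (nat_lit 95294) (nat_lit 14) (node (nat_lit 4) (nat_lit 95112) (nat_lit 15) (node (nat_lit 5)
  (nat_lit 94255) (nat_lit 16) nil nil) nil) nil) nil) (node (nat_lit 4) (nat_lit 95148) (nat_lit
  12) nil nil)) nil) nil) (node (nat_lit 10) (nat_lit 88562) (nat_lit 9) (node (nat_lit 4)
  (nat_lit 88562) (nat_lit 10) nil nil) (node (nat_lit 6) (nat_lit 98263) (nat_lit 9) nil nil)))
  (node (nat_lit 4) (nat_lit 88562) (nat_lit 8) (node (nat_lit 5) (nat_lit 88562) (nat_lit 9)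
  (node (nat_lit 10) (nat_lit 88942) (nat_lit 10) (node (nat_lit 5) (nat_lit 93442) (nat_lit 11)
  (node (nat_lit 4) (nat_lit 93276) (nat_lit 12) (node (nat_lit 5) (nat_lit 90312) (nat_lit 13)
  nil nil) nil) nil) nil) nil) (node (nat_lit 6) (nat_lit 97487) (nat_lit 8) nil nil))) (node
  (nat_lit 6) (nat_lit 112073) (nat_lit 7) (node (nat_lit 4) (nat_lit 112073) (nat_lit 8) (node
  (nat_lit 5) (nat_lit 112073) (nat_lit 9) (node (nat_lit 6) (nat_lit 114063) (nat_lit 10) nil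
  (node (nat_lit 3) (nat_lit 112073) (nat_lit 10) nil nil)) nil) nil) (node (nat_lit 0) (nat_lit
  96431) (nat_lit 7) nil nil))) (node (nat_lit 0) (nat_lit 99077) (nat_lit 6) nil nil))) (node
  (nat_lit 6) (nat_lit 0) (nat_lit 5) (node (nat_lit 5) (nat_lit 0) (nat_lit 6) (node (nat_lit 3)
  (nat_lit 112819) (nat_lit 7) (node (nat_lit 4) (nat_lit 112819) (nat_lit 8) (node (nat_lit 10)
  (nat_lit 112819) (nat_lit 9) (node (nat_lit 5) (nat_lit 112819) (nat_lit 10) nil nil) (node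
  (nat_lit 5) (nat_lit 112819) (nat_lit 9) (node (nat_lit 10) (nat_lit 112819) (nat_lit 10) nil
  nil) nil)) (node (nat_lit 5) (nat_lit 112819) (nat_lit 8) nil nil)) (node (nat_lit 4) (nat_lit
  109901) (nat_lit 7) (node (nat_lit 5) (nat_lit 109901) (nat_lit 8) (node (nat_lit 6) (nat_lit
  113817) (nat_lit 9) (node (nat_lit 4) (nat_lit 113817) (nat_lit 10) (node (nat_lit 6) (nat_lit
  70647) (nat_lit 11) nil nil) nil) (node (nat_lit 3) (nat_lit 109901) (nat_lit 9) nil nil)) (node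
  (nat_lit 3) (nat_lit 112819) (nat_lit 8) nil nil)) (node (nat_lit 6) (nat_lit 112335) (nat_lit
  7) nil (node (nat_lit 0) (nat_lit 114112) (nat_lit 7) nil nil)))) (node (nat_lit 3) (nat_lit
  112819) (nat_lit 6) (node (nat_lit 5) (nat_lit 112819) (nat_lit 7) (node (nat_lit 4) (nat_lit
  112819) (nat_lit 8) (node (nat_lit 9) (nat_lit 112819) (nat_lit 9) (node (nat_lit 5) (nat_lit
  112819) (nat_lit 10) nil nil) (node (nat_lit 5) (nat_lit 112819) (nat_lit 9) (node (nat_lit 9)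
  (nat_lit 112819) (nat_lit 10) nil nil) nil)) (node (nat_lit 9) (nat_lit 112819) (nat_lit 8) nil
  nil)) (node (nat_lit 4) (nat_lit 112819) (nat_lit 7) (node (nat_lit 9) (nat_lit 112819) (nat_lit
  8) nil (node (nat_lit 5) (nat_lit 112819) (nat_lit 8) nil nil)) nil)) (node (nat_lit 0) (nat_lit
  113545) (nat_lit 6) nil nil))) (node (nat_lit 0) (nat_lit 96466) (nat_lit 5) (node (nat_lit 5)
  (nat_lit 96466) (nat_lit 6) nil nil) nil)))) t256) nil))

noncomputable def c29 : Tr :=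
  (node (nat_lit 3) (nat_lit 0) (nat_lit 1) (node (nat_lit 3) (nat_lit 0) (nat_lit 2) (node
  (nat_lit 3) (nat_lit 0) (nat_lit 3) (node (nat_lit 0) (nat_lit 0) (nat_lit 4) (node (nat_lit 4)
  (nat_lit 0) (nat_lit 5) (node (nat_lit 6) (nat_lit 0) (nat_lit 6) (node (nat_lit 4) (nat_lit
  79894) (nat_lit 7) (node (nat_lit 5) (nat_lit 80168) (nat_lit 8) (node (nat_lit 6) (nat_lit
  80279) (nat_lit 9) (node (nat_lit 5) (nat_lit 80279) (nat_lit 10) (node (nat_lit 4) (nat_lit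
  80148) (nat_lit 11) (node (nat_lit 5) (nat_lit 86987) (nat_lit 12) (node (nat_lit 6) (nat_lit
  89801) (nat_lit 13) (node (nat_lit 4) (nat_lit 91037) (nat_lit 14) nil (node (nat_lit 7)
  (nat_lit 81775) (nat_lit 14) nil nil)) nil) (node (nat_lit 6) (nat_lit 86468) (nat_lit 12) (node
  (nat_lit 4) (nat_lit 89976) (nat_lit 13) (node (nat_lit 5) (nat_lit 92742) (nat_lit 14) nil nil)
  (node (nat_lit 5) (nat_lit 85390) (nat_lit 13) nil nil)) (node (nat_lit 7) (nat_lit 88183)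
  (nat_lit 12) nil (node (nat_lit 0) (nat_lit 88183) (nat_lit 12) nil nil)))) (node (nat_lit 7)
  (nat_lit 95010) (nat_lit 11) nil (node (nat_lit 0) (nat_lit 87957) (nat_lit 11) nil nil))) (node
  (nat_lit 4) (nat_lit 80279) (nat_lit 10) (node (nat_lit 6) (nat_lit 80290) (nat_lit 11) (node
  (nat_lit 5) (nat_lit 87942) (nat_lit 12) (node (nat_lit 4) (nat_lit 87875) (nat_lit 13) nil nil)
  nil) (node (nat_lit 7) (nat_lit 87957) (nat_lit 11) nil nil)) (node (nat_lit 7) (nat_lit 62873)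
  (nat_lit 10) (node (nat_lit 4) (nat_lit 42442) (nat_lit 11) nil nil) (node (nat_lit 0) (nat_lit
  91853) (nat_lit 10) nil nil)))) (node (nat_lit 4) (nat_lit 80243) (nat_lit 9) (node (nat_lit 6)
  (nat_lit 80130) (nat_lit 10) (node (nat_lit 5) (nat_lit 80105) (nat_lit 11) (node (nat_lit 4)
  (nat_lit 85454) (nat_lit 12) (node (nat_lit 5) (nat_lit 87857) (nat_lit 13) (node (nat_lit 6)
  (nat_lit 89956) (nat_lit 14) nil nil) nil) (node (nat_lit 6) (nat_lit 85442) (nat_lit 12) (node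
  (nat_lit 4) (nat_lit 89084) (nat_lit 13) nil nil) nil)) (node (nat_lit 4) (nat_lit 80130)
  (nat_lit 11) nil nil)) (node (nat_lit 0) (nat_lit 94091) (nat_lit 10) nil (node (nat_lit 7)
  (nat_lit 87462) (nat_lit 10) nil nil))) (node (nat_lit 7) (nat_lit 95277) (nat_lit 9) nil (node
  (nat_lit 0) (nat_lit 92884) (nat_lit 9) nil nil)))) (node (nat_lit 7) (nat_lit 102556) (nat_lit
  8) (node (nat_lit 6) (nat_lit 102556) (nat_lit 9) (node (nat_lit 4) (nat_lit 102556) (nat_lit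
  10) (node (nat_lit 6) (nat_lit 102556) (nat_lit 11) nil nil) nil) (node (nat_lit 4) (nat_lit
  102556) (nat_lit 9) nil nil)) (node (nat_lit 0) (nat_lit 98060) (nat_lit 8) nil nil))) (node
  (nat_lit 5) (nat_lit 79585) (nat_lit 7) (node (nat_lit 4) (nat_lit 79823) (nat_lit 8) (node
  (nat_lit 6) (nat_lit 79823) (nat_lit 9) (node (nat_lit 4) (nat_lit 79823) (nat_lit 10) (node
  (nat_lit 5) (nat_lit 79997) (nat_lit 11) (node (nat_lit 6) (nat_lit 83766) (nat_lit 12) (node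
  (nat_lit 5) (nat_lit 86239) (nat_lit 13) (node (nat_lit 4) (nat_lit 85907) (nat_lit 14) nil nil)
  (node (nat_lit 4) (nat_lit 85349) (nat_lit 13) nil nil)) (node (nat_lit 4) (nat_lit 81836)
  (nat_lit 12) nil nil)) nil) nil) (node (nat_lit 5) (nat_lit 79823) (nat_lit 9) (node (nat_lit 6)
  (nat_lit 79823) (nat_lit 10) (node (nat_lit 5) (nat_lit 79672) (nat_lit 11) (node (nat_lit 4)
  (nat_lit 84472) (nat_lit 12) nil nil) (node (nat_lit 4) (nat_lit 79823) (nat_lit 11) (node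
  (nat_lit 6) (nat_lit 78640) (nat_lit 12) nil (node (nat_lit 5) (nat_lit 81922) (nat_lit 12) nil
  nil)) (node (nat_lit 7) (nat_lit 62551) (nat_lit 11) nil nil))) nil) (node (nat_lit 7) (nat_lit
  86455) (nat_lit 9) nil nil))) (node (nat_lit 6) (nat_lit 79823) (nat_lit 8) (node (nat_lit 4)
  (nat_lit 79997) (nat_lit 9) (node (nat_lit 6) (nat_lit 79997) (nat_lit 10) (node (nat_lit 5)
  (nat_lit 79943) (nat_lit 11) (node (nat_lit 4) (nat_lit 85329) (nat_lit 12) (node (nat_lit 5)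
  (nat_lit 88321) (nat_lit 13) (node (nat_lit 6) (nat_lit 88773) (nat_lit 14) nil nil) (node
  (nat_lit 6) (nat_lit 81981) (nat_lit 13) nil nil)) nil) nil) (node (nat_lit 5) (nat_lit 79997)
  (nat_lit 10) (node (nat_lit 6) (nat_lit 79997) (nat_lit 11) (node (nat_lit 5) (nat_lit 83764)
  (nat_lit 12) (node (nat_lit 4) (nat_lit 83747) (nat_lit 13) nil nil) nil) (node (nat_lit 4)
  (nat_lit 79997) (nat_lit 11) (node (nat_lit 6) (nat_lit 78813) (nat_lit 12) nil nil) nil)) nil))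
  (node (nat_lit 7) (nat_lit 92539) (nat_lit 9) nil nil)) (node (nat_lit 7) (nat_lit 90850)
  (nat_lit 8) nil (node (nat_lit 0) (nat_lit 90850) (nat_lit 8) nil nil)))) (node (nat_lit 7)
  (nat_lit 101195) (nat_lit 7) (node (nat_lit 6) (nat_lit 101195) (nat_lit 8) (node (nat_lit 4)
  (nat_lit 101195) (nat_lit 9) (node (nat_lit 6) (nat_lit 101195) (nat_lit 10) (node (nat_lit 5)
  (nat_lit 101195) (nat_lit 11) (node (nat_lit 4) (nat_lit 101195) (nat_lit 12) (node (nat_lit 6)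
  (nat_lit 101195) (nat_lit 13) (node (nat_lit 4) (nat_lit 101195) (nat_lit 14) nil nil) nil)
  (node (nat_lit 6) (nat_lit 101195) (nat_lit 12) nil nil)) (node (nat_lit 7) (nat_lit 103935)
  (nat_lit 11) nil (node (nat_lit 0) (nat_lit 103935) (nat_lit 11) nil nil))) (node (nat_lit 7)
  (nat_lit 103498) (nat_lit 10) nil (node (nat_lit 5) (nat_lit 101195) (nat_lit 10) nil nil)))
  nil) (node (nat_lit 5) (nat_lit 101195) (nat_lit 8) (node (nat_lit 4) (nat_lit 101195) (nat_lit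
  9) nil nil) nil)) (node (nat_lit 0) (nat_lit 94881) (nat_lit 7) nil nil)))) (node (nat_lit 7)
  (nat_lit 0) (nat_lit 6) (node (nat_lit 6) (nat_lit 99827) (nat_lit 7) (node (nat_lit 4) (nat_lit
  99827) (nat_lit 8) (node (nat_lit 6) (nat_lit 99827) (nat_lit 9) (node (nat_lit 5) (nat_lit
  99827) (nat_lit 10) (node (nat_lit 4) (nat_lit 99827) (nat_lit 11) (node (nat_lit 6) (nat_lit
  99827) (nat_lit 12) (node (nat_lit 4) (nat_lit 99827) (nat_lit 13) (node (nat_lit 5) (nat_lit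
  101815) (nat_lit 14) (node (nat_lit 6) (nat_lit 101817) (nat_lit 15) nil nil) nil) nil) (node
  (nat_lit 5) (nat_lit 99827) (nat_lit 12) (node (nat_lit 6) (nat_lit 99827) (nat_lit 13) (node
  (nat_lit 5) (nat_lit 100606) (nat_lit 14) (node (nat_lit 4) (nat_lit 99948) (nat_lit 15) nil
  nil) (node (nat_lit 4) (nat_lit 101062) (nat_lit 14) nil nil)) nil) nil)) (node (nat_lit 6)
  (nat_lit 99827) (nat_lit 11) (node (nat_lit 4) (nat_lit 99827) (nat_lit 12) (node (nat_lit 5)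
  (nat_lit 99827) (nat_lit 13) (node (nat_lit 6) (nat_lit 99078) (nat_lit 14) nil (node (nat_lit
  4) (nat_lit 98985) (nat_lit 14) nil nil)) nil) nil) (node (nat_lit 0) (nat_lit 103803) (nat_lit
  11) nil (node (nat_lit 7) (nat_lit 103803) (nat_lit 11) nil nil)))) (node (nat_lit 7) (nat_lit
  105346) (nat_lit 10) nil (node (nat_lit 0) (nat_lit 103366) (nat_lit 10) nil nil))) (node
  (nat_lit 5) (nat_lit 99827) (nat_lit 9) (node (nat_lit 6) (nat_lit 99827) (nat_lit 10) (node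
  (nat_lit 5) (nat_lit 99827) (nat_lit 11) (node (nat_lit 4) (nat_lit 99827) (nat_lit 12) (node
  (nat_lit 6) (nat_lit 99827) (nat_lit 13) (node (nat_lit 4) (nat_lit 101815) (nat_lit 14) (node
  (nat_lit 5) (nat_lit 103365) (nat_lit 15) nil nil) nil) (node (nat_lit 5) (nat_lit 99827)
  (nat_lit 13) nil nil)) nil) (node (nat_lit 4) (nat_lit 99827) (nat_lit 11) (node (nat_lit 6)
  (nat_lit 99827) (nat_lit 12) nil nil) nil)) (node (nat_lit 4) (nat_lit 99827) (nat_lit 10) (node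
  (nat_lit 6) (nat_lit 99827) (nat_lit 11) (node (nat_lit 5) (nat_lit 99827) (nat_lit 12) (node
  (nat_lit 4) (nat_lit 99827) (nat_lit 13) (node (nat_lit 5) (nat_lit 101062) (nat_lit 14) (node
  (nat_lit 6) (nat_lit 102025) (nat_lit 15) nil nil) nil) nil) (node (nat_lit 4) (nat_lit 99827)
  (nat_lit 12) (node (nat_lit 5) (nat_lit 99827) (nat_lit 13) (node (nat_lit 6) (nat_lit 99078)
  (nat_lit 14) nil nil) nil) nil)) nil) (node (nat_lit 7) (nat_lit 103366) (nat_lit 10) nil (node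
  (nat_lit 0) (nat_lit 103366) (nat_lit 10) nil nil)))) (node (nat_lit 0) (nat_lit 104564)
  (nat_lit 9) nil nil))) (node (nat_lit 5) (nat_lit 99827) (nat_lit 8) (node (nat_lit 4) (nat_lit
  99827) (nat_lit 9) (node (nat_lit 6) (nat_lit 99827) (nat_lit 10) nil nil) (node (nat_lit 6)
  (nat_lit 99827) (nat_lit 9) nil (node (nat_lit 7) (nat_lit 102778) (nat_lit 9) nil (node
  (nat_lit 0) (nat_lit 102778) (nat_lit 9) nil nil)))) (node (nat_lit 7) (nat_lit 103740) (nat_lit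
  8) (node (nat_lit 4) (nat_lit 103740) (nat_lit 9) nil (node (nat_lit 5) (nat_lit 103740)
  (nat_lit 9) nil nil)) (node (nat_lit 0) (nat_lit 103365) (nat_lit 8) nil nil)))) (node (nat_lit
  5) (nat_lit 99827) (nat_lit 7) (node (nat_lit 4) (nat_lit 99827) (nat_lit 8) (node (nat_lit 6)
  (nat_lit 99827) (nat_lit 9) (node (nat_lit 5) (nat_lit 99827) (nat_lit 10) (node (nat_lit 6)
  (nat_lit 99827) (nat_lit 11) (node (nat_lit 4) (nat_lit 99827) (nat_lit 12) nil nil) (node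
  (nat_lit 4) (nat_lit 99827) (nat_lit 11) nil nil)) (node (nat_lit 4) (nat_lit 99827) (nat_lit
  10) (node (nat_lit 5) (nat_lit 99827) (nat_lit 11) (node (nat_lit 4) (nat_lit 99827) (nat_lit
  12) nil (node (nat_lit 6) (nat_lit 99827) (nat_lit 12) nil nil)) nil) nil)) (node (nat_lit 5)
  (nat_lit 99827) (nat_lit 9) (node (nat_lit 6) (nat_lit 99827) (nat_lit 10) (node (nat_lit 4)
  (nat_lit 99827) (nat_lit 11) (node (nat_lit 6) (nat_lit 99827) (nat_lit 12) nil (node (nat_lit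
  5) (nat_lit 99827) (nat_lit 12) nil nil)) (node (nat_lit 5) (nat_lit 99827) (nat_lit 11) nil
  nil)) (node (nat_lit 7) (nat_lit 103366) (nat_lit 10) nil (node (nat_lit 0) (nat_lit 103366)
  (nat_lit 10) nil nil))) (node (nat_lit 0) (nat_lit 102778) (nat_lit 9) nil nil))) (node (nat_lit
  6) (nat_lit 99827) (nat_lit 8) nil (node (nat_lit 7) (nat_lit 102025) (nat_lit 8) nil nil)))
  (node (nat_lit 0) (nat_lit 101815) (nat_lit 7) nil nil))) (node (nat_lit 5) (nat_lit 0) (nat_lit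
  6) (node (nat_lit 6) (nat_lit 79364) (nat_lit 7) (node (nat_lit 4) (nat_lit 79592) (nat_lit 8)
  (node (nat_lit 5) (nat_lit 79625) (nat_lit 9) (node (nat_lit 4) (nat_lit 79625) (nat_lit 10)
  (node (nat_lit 6) (nat_lit 79647) (nat_lit 11) (node (nat_lit 5) (nat_lit 86024) (nat_lit 12)
  (node (nat_lit 6) (nat_lit 89552) (nat_lit 13) (node (nat_lit 4) (nat_lit 90020) (nat_lit 14)
  (node (nat_lit 5) (nat_lit 88364) (nat_lit 15) nil nil) nil) (node (nat_lit 4) (nat_lit 88152)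
  (nat_lit 13) nil nil)) (node (nat_lit 4) (nat_lit 84434) (nat_lit 12) (node (nat_lit 5) (nat_lit
  87091) (nat_lit 13) (node (nat_lit 6) (nat_lit 87462) (nat_lit 14) nil nil) nil) (node (nat_lit
  7) (nat_lit 87682) (nat_lit 12) nil nil))) (node (nat_lit 7) (nat_lit 87303) (nat_lit 11) nil
  nil)) (node (nat_lit 0) (nat_lit 86845) (nat_lit 10) nil (node (nat_lit 7) (nat_lit 86845)
  (nat_lit 10) nil nil))) (node (nat_lit 6) (nat_lit 79577) (nat_lit 9) (node (nat_lit 5) (nat_lit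
  79577) (nat_lit 10) (node (nat_lit 6) (nat_lit 79664) (nat_lit 11) (node (nat_lit 4) (nat_lit
  83487) (nat_lit 12) (node (nat_lit 5) (nat_lit 85072) (nat_lit 13) (node (nat_lit 6) (nat_lit
  85364) (nat_lit 14) nil nil) nil) (node (nat_lit 7) (nat_lit 87699) (nat_lit 12) nil nil)) (node
  (nat_lit 4) (nat_lit 79577) (nat_lit 11) (node (nat_lit 5) (nat_lit 85444) (nat_lit 12) (node
  (nat_lit 6) (nat_lit 88728) (nat_lit 13) nil nil) (node (nat_lit 6) (nat_lit 84300) (nat_lit 12)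
  (node (nat_lit 4) (nat_lit 87147) (nat_lit 13) nil nil) nil)) nil)) nil) (node (nat_lit 7)
  (nat_lit 86224) (nat_lit 9) nil (node (nat_lit 0) (nat_lit 86224) (nat_lit 9) nil nil)))) (node
  (nat_lit 5) (nat_lit 79599) (nat_lit 8) (node (nat_lit 4) (nat_lit 79899) (nat_lit 9) (node
  (nat_lit 6) (nat_lit 79899) (nat_lit 10) (node (nat_lit 4) (nat_lit 80243) (nat_lit 11) (node
  (nat_lit 5) (nat_lit 85888) (nat_lit 12) (node (nat_lit 6) (nat_lit 89295) (nat_lit 13) (node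
  (nat_lit 7) (nat_lit 74950) (nat_lit 14) nil nil) (node (nat_lit 4) (nat_lit 88979) (nat_lit 13)
  nil nil)) nil) (node (nat_lit 5) (nat_lit 79946) (nat_lit 11) (node (nat_lit 6) (nat_lit 84230)
  (nat_lit 12) (node (nat_lit 4) (nat_lit 87594) (nat_lit 13) (node (nat_lit 5) (nat_lit 87159)
  (nat_lit 14) (node (nat_lit 6) (nat_lit 81787) (nat_lit 15) nil nil) nil) nil) nil) (node
  (nat_lit 7) (nat_lit 87577) (nat_lit 11) nil nil))) (node (nat_lit 5) (nat_lit 79899) (nat_lit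
  10) (node (nat_lit 6) (nat_lit 80117) (nat_lit 11) (node (nat_lit 4) (nat_lit 82215) (nat_lit
  12) nil (node (nat_lit 7) (nat_lit 65850) (nat_lit 12) nil nil)) nil) (node (nat_lit 7) (nat_lit
  87119) (nat_lit 10) nil (node (nat_lit 0) (nat_lit 87119) (nat_lit 10) nil nil)))) (node
  (nat_lit 7) (nat_lit 90227) (nat_lit 9) nil (node (nat_lit 0) (nat_lit 86231) (nat_lit 9) nil
  nil))) (node (nat_lit 0) (nat_lit 85244) (nat_lit 8) nil nil))) (node (nat_lit 4) (nat_lit 0)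
  (nat_lit 7) (node (nat_lit 6) (nat_lit 80390) (nat_lit 8) (node (nat_lit 5) (nat_lit 80446)
  (nat_lit 9) (node (nat_lit 6) (nat_lit 80446) (nat_lit 10) (node (nat_lit 4) (nat_lit 80467)
  (nat_lit 11) (node (nat_lit 6) (nat_lit 85749) (nat_lit 12) (node (nat_lit 5) (nat_lit 85125)
  (nat_lit 13) (node (nat_lit 4) (nat_lit 82982) (nat_lit 14) (node (nat_lit 5) (nat_lit 81188)
  (nat_lit 15) (node (nat_lit 6) (nat_lit 78640) (nat_lit 16) nil nil) nil) nil) nil) (node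
  (nat_lit 5) (nat_lit 88155) (nat_lit 12) (node (nat_lit 6) (nat_lit 89148) (nat_lit 13) nil
  (node (nat_lit 4) (nat_lit 88041) (nat_lit 13) nil nil)) nil)) (node (nat_lit 7) (nat_lit 88123)
  (nat_lit 11) nil (node (nat_lit 0) (nat_lit 88123) (nat_lit 11) nil nil))) (node (nat_lit 4)
  (nat_lit 80446) (nat_lit 10) (node (nat_lit 5) (nat_lit 80446) (nat_lit 11) (node (nat_lit 6)
  (nat_lit 84303) (nat_lit 12) nil nil) nil) (node (nat_lit 7) (nat_lit 94293) (nat_lit 10) nil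
  (node (nat_lit 0) (nat_lit 87666) (nat_lit 10) nil nil)))) (node (nat_lit 4) (nat_lit 80446)
  (nat_lit 9) (node (nat_lit 5) (nat_lit 80446) (nat_lit 10) (node (nat_lit 6) (nat_lit 80446)
  (nat_lit 11) (node (nat_lit 5) (nat_lit 83582) (nat_lit 12) (node (nat_lit 4) (nat_lit 83565)
  (nat_lit 13) nil nil) (node (nat_lit 4) (nat_lit 85571) (nat_lit 12) (node (nat_lit 6) (nat_lit
  84611) (nat_lit 13) nil nil) nil)) (node (nat_lit 4) (nat_lit 80446) (nat_lit 11) nil nil))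
  (node (nat_lit 7) (nat_lit 87666) (nat_lit 10) nil nil)) (node (nat_lit 7) (nat_lit 93105)
  (nat_lit 9) nil (node (nat_lit 0) (nat_lit 87022) (nat_lit 9) nil nil)))) (node (nat_lit 7)
  (nat_lit 91335) (nat_lit 8) nil (node (nat_lit 0) (nat_lit 89487) (nat_lit 8) nil nil))) (node
  (nat_lit 7) (nat_lit 100570) (nat_lit 7) (node (nat_lit 5) (nat_lit 100570) (nat_lit 8) (node
  (nat_lit 4) (nat_lit 100570) (nat_lit 9) (node (nat_lit 5) (nat_lit 100570) (nat_lit 10) (node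
  (nat_lit 6) (nat_lit 100570) (nat_lit 11) (node (nat_lit 4) (nat_lit 100570) (nat_lit 12) nil
  nil) nil) nil) nil) (node (nat_lit 4) (nat_lit 100570) (nat_lit 8) nil (node (nat_lit 6)
  (nat_lit 100570) (nat_lit 8) (node (nat_lit 4) (nat_lit 100570) (nat_lit 9) nil nil) nil)))
  (node (nat_lit 0) (nat_lit 92439) (nat_lit 7) nil nil)))) (node (nat_lit 0) (nat_lit 0) (nat_lit
  6) (node (nat_lit 4) (nat_lit 93288) (nat_lit 7) nil (node (nat_lit 6) (nat_lit 93288) (nat_lit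
  7) nil (node (nat_lit 7) (nat_lit 95668) (nat_lit 7) nil (node (nat_lit 5) (nat_lit 93288)
  (nat_lit 7) nil (node (nat_lit 0) (nat_lit 94523) (nat_lit 7) nil nil))))) nil)))) t251) (node
  (nat_lit 4) (nat_lit 0) (nat_lit 4) t252 (node (nat_lit 5) (nat_lit 0) (nat_lit 4) t253 nil)))
  t257) nil) nil)

noncomputable def c32 : Tr :=
  (node (nat_lit 1) (nat_lit 0) (nat_lit 1) (node (nat_lit 1) (nat_lit 0) (nat_lit 2) (node
  (nat_lit 1) (nat_lit 0) (nat_lit 3) (node (nat_lit 4) (nat_lit 0) (nat_lit 4) (node (nat_lit 5)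
  (nat_lit 42424) (nat_lit 5) (node (nat_lit 4) (nat_lit 42815) (nat_lit 6) nil nil) (node
  (nat_lit 6) (nat_lit 90242) (nat_lit 5) nil (node (nat_lit 0) (nat_lit 90242) (nat_lit 5) nil
  (node (nat_lit 2) (nat_lit 90242) (nat_lit 5) nil nil)))) (node (nat_lit 5) (nat_lit 0) (nat_lit
  4) (node (nat_lit 4) (nat_lit 0) (nat_lit 5) (node (nat_lit 5) (nat_lit 90242) (nat_lit 6) (node
  (nat_lit 2) (nat_lit 90242) (nat_lit 7) nil (node (nat_lit 0) (nat_lit 90242) (nat_lit 7) nil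
  nil)) (node (nat_lit 0) (nat_lit 90242) (nat_lit 6) nil (node (nat_lit 2) (nat_lit 90242)
  (nat_lit 6) nil (node (nat_lit 6) (nat_lit 90242) (nat_lit 6) (node (nat_lit 4) (nat_lit 90242)
  (nat_lit 7) (node (nat_lit 5) (nat_lit 90242) (nat_lit 8) nil nil) nil) nil)))) (node (nat_lit
  0) (nat_lit 90242) (nat_lit 5) nil (node (nat_lit 2) (nat_lit 90242) (nat_lit 5) (node (nat_lit
  6) (nat_lit 90242) (nat_lit 6) nil nil) nil))) (node (nat_lit 0) (nat_lit 90242) (nat_lit 4)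
  (node (nat_lit 4) (nat_lit 90242) (nat_lit 5) (node (nat_lit 6) (nat_lit 90242) (nat_lit 6) nil
  nil) (node (nat_lit 5) (nat_lit 90242) (nat_lit 5) (node (nat_lit 4) (nat_lit 90242) (nat_lit 6)
  nil nil) (node (nat_lit 6) (nat_lit 90242) (nat_lit 5) nil nil))) (node (nat_lit 2) (nat_lit
  90210) (nat_lit 4) (node (nat_lit 4) (nat_lit 90242) (nat_lit 5) (node (nat_lit 6) (nat_lit
  90242) (nat_lit 6) nil nil) (node (nat_lit 5) (nat_lit 90242) (nat_lit 5) (node (nat_lit 4)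
  (nat_lit 90242) (nat_lit 6) (node (nat_lit 5) (nat_lit 80951) (nat_lit 7) (node (nat_lit 6)
  (nat_lit 62814) (nat_lit 8) nil nil) nil) nil) (node (nat_lit 6) (nat_lit 90242) (nat_lit 5) nil
  nil))) nil)))) (node (nat_lit 4) (nat_lit 0) (nat_lit 3) (node (nat_lit 1) (nat_lit 42729)
  (nat_lit 4) (node (nat_lit 5) (nat_lit 42729) (nat_lit 5) (node (nat_lit 7) (nat_lit 42729)
  (nat_lit 6) nil nil) nil) (node (nat_lit 0) (nat_lit 42729) (nat_lit 4) nil (node (nat_lit 2)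
  (nat_lit 42729) (nat_lit 4) (node (nat_lit 1) (nat_lit 42729) (nat_lit 5) nil nil) nil))) nil))
  nil) nil)

end Pool.Agent.Work.MP_7cb3ca_co.P3.D
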