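import Pool.Agent.Work.MP_7cb3ca_co.P3.Defs

namespace Pool.Agent.Work.MP_7cb3ca_co.P3.D
open Tr
set_option maxRecDepth 100000

noncomputable def t216 : Tr :=
  (node (nat_lit 0) (nat_lit 0) (nat_lit 8) (node (nat_lit 5) (nat_lit 0) (nat_lit 9) (node
  (nat_lit 4) (nat_lit 116035) (nat_lit 10) (node (nat_lit 6) (nat_lit 116035) (nat_lit 11) (node
  (nat_lit 5) (nat_lit 116035) (nat_lit 12) (node (nat_lit 4) (nat_lit 116035) (nat_lit 13) (node
  (nat_lit 5) (nat_lit 116035) (nat_lit 14) (node (nat_lit 6) (nat_lit 116035) (nat_lit 15) (node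
  (nat_lit 4) (nat_lit 120064) (nat_lit 16) (node (nat_lit 6) (nat_lit 123154) (nat_lit 17) (node
  (nat_lit 5) (nat_lit 125566) (nat_lit 18) (node (nat_lit 4) (nat_lit 125815) (nat_lit 19) nil
  nil) nil) nil) nil) nil) nil) (node (nat_lit 6) (nat_lit 116035) (nat_lit 13) (node (nat_lit 4)
  (nat_lit 116035) (nat_lit 14) nil nil) nil)) (node (nat_lit 4) (nat_lit 116035) (nat_lit 12)
  (node (nat_lit 5) (nat_lit 116035) (nat_lit 13) (node (nat_lit 6) (nat_lit 116035) (nat_lit 14)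
  (node (nat_lit 4) (nat_lit 116035) (nat_lit 15) (node (nat_lit 6) (nat_lit 116153) (nat_lit 16)
  (node (nat_lit 5) (nat_lit 116234) (nat_lit 17) (node (nat_lit 4) (nat_lit 116170) (nat_lit 18)
  nil nil) nil) nil) nil) (node (nat_lit 4) (nat_lit 116035) (nat_lit 14) (node (nat_lit 6)
  (nat_lit 116035) (nat_lit 15) nil nil) nil)) nil) nil)) (node (nat_lit 5) (nat_lit 116035)
  (nat_lit 11) (node (nat_lit 6) (nat_lit 116035) (nat_lit 12) (node (nat_lit 4) (nat_lit 116035)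
  (nat_lit 13) (node (nat_lit 6) (nat_lit 116035) (nat_lit 14) (node (nat_lit 5) (nat_lit 116035)
  (nat_lit 15) (node (nat_lit 4) (nat_lit 115016) (nat_lit 16) (node (nat_lit 11) (nat_lit 59881)
  (nat_lit 17) nil nil) (node (nat_lit 6) (nat_lit 117530) (nat_lit 16) nil nil)) nil) (node
  (nat_lit 5) (nat_lit 116035) (nat_lit 14) (node (nat_lit 4) (nat_lit 116035) (nat_lit 15) nil
  nil) nil)) (node (nat_lit 5) (nat_lit 116035) (nat_lit 13) (node (nat_lit 4) (nat_lit 116035)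
  (nat_lit 14) (node (nat_lit 6) (nat_lit 116035) (nat_lit 15) nil nil) nil) nil)) (node (nat_lit
  11) (nat_lit 120318) (nat_lit 12) nil nil)) nil)) (node (nat_lit 6) (nat_lit 116035) (nat_lit
  10) (node (nat_lit 4) (nat_lit 116035) (nat_lit 11) (node (nat_lit 5) (nat_lit 116035) (nat_lit
  12) (node (nat_lit 6) (nat_lit 116035) (nat_lit 13) (node (nat_lit 5) (nat_lit 116035) (nat_lit
  14) (node (nat_lit 4) (nat_lit 116035) (nat_lit 15) (node (nat_lit 5) (nat_lit 120215) (nat_lit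
  16) (node (nat_lit 6) (nat_lit 122470) (nat_lit 17) (node (nat_lit 4) (nat_lit 124568) (nat_lit
  18) (node (nat_lit 6) (nat_lit 126278) (nat_lit 19) (node (nat_lit 5) (nat_lit 127178) (nat_lit
  20) nil nil) nil) nil) nil) nil) nil) nil) (node (nat_lit 4) (nat_lit 116035) (nat_lit 13) nil
  nil)) (node (nat_lit 6) (nat_lit 116035) (nat_lit 12) (node (nat_lit 5) (nat_lit 116035)
  (nat_lit 13) (node (nat_lit 4) (nat_lit 116035) (nat_lit 14) (node (nat_lit 5) (nat_lit 116035)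
  (nat_lit 15) (node (nat_lit 6) (nat_lit 119994) (nat_lit 16) (node (nat_lit 4) (nat_lit 122569)
  (nat_lit 17) nil nil) nil) nil) (node (nat_lit 6) (nat_lit 116035) (nat_lit 14) nil nil)) nil)
  nil)) (node (nat_lit 5) (nat_lit 116035) (nat_lit 11) (node (nat_lit 4) (nat_lit 116035)
  (nat_lit 12) (node (nat_lit 6) (nat_lit 116035) (nat_lit 13) (node (nat_lit 4) (nat_lit 116035)
  (nat_lit 14) (node (nat_lit 5) (nat_lit 116035) (nat_lit 15) (node (nat_lit 6) (nat_lit 115611)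
  (nat_lit 16) nil nil) nil) (node (nat_lit 5) (nat_lit 116035) (nat_lit 14) nil nil)) (node
  (nat_lit 5) (nat_lit 116035) (nat_lit 13) (node (nat_lit 6) (nat_lit 116035) (nat_lit 14) (node
  (nat_lit 4) (nat_lit 116035) (nat_lit 15) (node (nat_lit 6) (nat_lit 120008) (nat_lit 16) (node
  (nat_lit 5) (nat_lit 122601) (nat_lit 17) (node (nat_lit 4) (nat_lit 123438) (nat_lit 18) nil
  nil) nil) nil) nil) nil) nil)) nil) (node (nat_lit 11) (nat_lit 123622) (nat_lit 11) nil nil)))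
  (node (nat_lit 11) (nat_lit 125470) (nat_lit 10) (node (nat_lit 4) (nat_lit 125470) (nat_lit 11)
  nil (node (nat_lit 6) (nat_lit 125470) (nat_lit 11) nil nil)) (node (nat_lit 0) (nat_lit 121195)
  (nat_lit 10) nil nil)))) (node (nat_lit 6) (nat_lit 0) (nat_lit 9) (node (nat_lit 5) (nat_lit
  116035) (nat_lit 10) (node (nat_lit 4) (nat_lit 116035) (nat_lit 11) (node (nat_lit 6) (nat_lit
  116035) (nat_lit 12) (node (nat_lit 5) (nat_lit 116035) (nat_lit 13) (node (nat_lit 6) (nat_lit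
  116035) (nat_lit 14) (node (nat_lit 4) (nat_lit 116035) (nat_lit 15) nil nil) nil) (node
  (nat_lit 4) (nat_lit 116035) (nat_lit 13) (node (nat_lit 5) (nat_lit 116035) (nat_lit 14) (node
  (nat_lit 6) (nat_lit 116035) (nat_lit 15) (node (nat_lit 4) (nat_lit 119397) (nat_lit 16) (node
  (nat_lit 6) (nat_lit 118944) (nat_lit 17) nil nil) nil) nil) nil) nil)) (node (nat_lit 5)
  (nat_lit 116035) (nat_lit 12) (node (nat_lit 6) (nat_lit 116035) (nat_lit 13) (node (nat_lit 4)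
  (nat_lit 116035) (nat_lit 14) (node (nat_lit 6) (nat_lit 116035) (nat_lit 15) (node (nat_lit 5)
  (nat_lit 119629) (nat_lit 16) (node (nat_lit 4) (nat_lit 119756) (nat_lit 17) (node (nat_lit 11)
  (nat_lit 60120) (nat_lit 18) nil nil) nil) nil) (node (nat_lit 5) (nat_lit 116035) (nat_lit 15)
  nil nil)) (node (nat_lit 5) (nat_lit 116035) (nat_lit 14) nil nil)) nil) nil)) (node (nat_lit 6)
  (nat_lit 116035) (nat_lit 11) (node (nat_lit 4) (nat_lit 116035) (nat_lit 12) (node (nat_lit 5)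
  (nat_lit 116035) (nat_lit 13) (node (nat_lit 4) (nat_lit 116035) (nat_lit 14) (node (nat_lit 6)
  (nat_lit 116035) (nat_lit 15) (node (nat_lit 5) (nat_lit 117530) (nat_lit 16) nil nil) nil)
  (node (nat_lit 6) (nat_lit 116035) (nat_lit 14) nil nil)) (node (nat_lit 6) (nat_lit 116035)
  (nat_lit 13) (node (nat_lit 5) (nat_lit 116035) (nat_lit 14) (node (nat_lit 4) (nat_lit 116035)
  (nat_lit 15) nil nil) nil) nil)) nil) (node (nat_lit 11) (nat_lit 122048) (nat_lit 11) nil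
  nil))) (node (nat_lit 4) (nat_lit 116035) (nat_lit 10) (node (nat_lit 6) (nat_lit 116035)
  (nat_lit 11) (node (nat_lit 5) (nat_lit 116035) (nat_lit 12) (node (nat_lit 4) (nat_lit 116035)
  (nat_lit 13) (node (nat_lit 5) (nat_lit 116035) (nat_lit 14) (node (nat_lit 6) (nat_lit 116035)
  (nat_lit 15) (node (nat_lit 4) (nat_lit 119334) (nat_lit 16) (node (nat_lit 6) (nat_lit 122424)
  (nat_lit 17) (node (nat_lit 5) (nat_lit 124836) (nat_lit 18) nil nil) nil) (node (nat_lit 5)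
  (nat_lit 117530) (nat_lit 16) nil nil)) nil) (node (nat_lit 6) (nat_lit 116035) (nat_lit 14)
  (node (nat_lit 4) (nat_lit 116092) (nat_lit 15) (node (nat_lit 5) (nat_lit 118946) (nat_lit 16)
  nil nil) nil) nil)) (node (nat_lit 6) (nat_lit 116035) (nat_lit 13) (node (nat_lit 4) (nat_lit
  116035) (nat_lit 14) (node (nat_lit 5) (nat_lit 116035) (nat_lit 15) nil nil) nil) nil)) (node
  (nat_lit 11) (nat_lit 120318) (nat_lit 12) nil nil)) (node (nat_lit 5) (nat_lit 116035) (nat_lit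
  11) (node (nat_lit 6) (nat_lit 116035) (nat_lit 12) (node (nat_lit 4) (nat_lit 116035) (nat_lit
  13) (node (nat_lit 6) (nat_lit 116035) (nat_lit 14) nil nil) (node (nat_lit 5) (nat_lit 116035)
  (nat_lit 13) nil nil)) (node (nat_lit 4) (nat_lit 116035) (nat_lit 12) (node (nat_lit 6)
  (nat_lit 116035) (nat_lit 13) (node (nat_lit 4) (nat_lit 116035) (nat_lit 14) (node (nat_lit 5)
  (nat_lit 115747) (nat_lit 15) (node (nat_lit 6) (nat_lit 115166) (nat_lit 16) nil nil) nil) nil)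
  nil) nil)) (node (nat_lit 11) (nat_lit 123179) (nat_lit 11) nil nil))) (node (nat_lit 11)
  (nat_lit 126097) (nat_lit 10) (node (nat_lit 4) (nat_lit 126097) (nat_lit 11) (node (nat_lit 6)
  (nat_lit 126097) (nat_lit 12) (node (nat_lit 4) (nat_lit 126097) (nat_lit 13) (node (nat_lit 5)
  (nat_lit 126097) (nat_lit 14) (node (nat_lit 6) (nat_lit 126097) (nat_lit 15) (node (nat_lit 4)
  (nat_lit 126097) (nat_lit 16) (node (nat_lit 6) (nat_lit 126266) (nat_lit 17) (node (nat_lit 5)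
  (nat_lit 127063) (nat_lit 18) (node (nat_lit 4) (nat_lit 127794) (nat_lit 19) nil nil) nil) nil)
  nil) nil) nil) (node (nat_lit 5) (nat_lit 126097) (nat_lit 13) (node (nat_lit 4) (nat_lit
  126097) (nat_lit 14) (node (nat_lit 5) (nat_lit 126097) (nat_lit 15) (node (nat_lit 6) (nat_lit
  126097) (nat_lit 16) (node (nat_lit 4) (nat_lit 126097) (nat_lit 17) (node (nat_lit 6) (nat_lit
  128508) (nat_lit 18) (node (nat_lit 5) (nat_lit 130391) (nat_lit 19) nil nil) nil) nil) nil)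
  nil) nil) nil)) nil) (node (nat_lit 5) (nat_lit 126097) (nat_lit 11) nil nil)) (node (nat_lit 0)
  (nat_lit 121075) (nat_lit 10) nil nil)))) (node (nat_lit 4) (nat_lit 0) (nat_lit 9) (node
  (nat_lit 5) (nat_lit 116035) (nat_lit 10) (node (nat_lit 6) (nat_lit 116035) (nat_lit 11) (node
  (nat_lit 5) (nat_lit 116035) (nat_lit 12) (node (nat_lit 4) (nat_lit 116035) (nat_lit 13) (node
  (nat_lit 5) (nat_lit 116035) (nat_lit 14) (node (nat_lit 6) (nat_lit 116035) (nat_lit 15) (node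
  (nat_lit 4) (nat_lit 120215) (nat_lit 16) (node (nat_lit 6) (nat_lit 123316) (nat_lit 17) (node
  (nat_lit 5) (nat_lit 125470) (nat_lit 18) (node (nat_lit 4) (nat_lit 126038) (nat_lit 19) nil
  nil) nil) nil) nil) nil) (node (nat_lit 6) (nat_lit 116035) (nat_lit 14) (node (nat_lit 4)
  (nat_lit 116035) (nat_lit 15) (node (nat_lit 5) (nat_lit 118128) (nat_lit 16) (node (nat_lit 6)
  (nat_lit 117675) (nat_lit 17) (node (nat_lit 4) (nat_lit 118785) (nat_lit 18) (node (nat_lit 6)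
  (nat_lit 118508) (nat_lit 19) nil nil) nil) nil) nil) nil) nil)) nil) (node (nat_lit 4) (nat_lit
  116035) (nat_lit 12) (node (nat_lit 6) (nat_lit 116035) (nat_lit 13) nil nil) nil)) (node
  (nat_lit 4) (nat_lit 116035) (nat_lit 11) (node (nat_lit 6) (nat_lit 116035) (nat_lit 12) (node
  (nat_lit 5) (nat_lit 116035) (nat_lit 13) (node (nat_lit 4) (nat_lit 116035) (nat_lit 14) (node
  (nat_lit 5) (nat_lit 116035) (nat_lit 15) (node (nat_lit 6) (nat_lit 120064) (nat_lit 16) (node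
  (nat_lit 4) (nat_lit 123154) (nat_lit 17) nil nil) nil) nil) (node (nat_lit 6) (nat_lit 116035)
  (nat_lit 14) nil nil)) (node (nat_lit 4) (nat_lit 116035) (nat_lit 13) (node (nat_lit 5)
  (nat_lit 116035) (nat_lit 14) (node (nat_lit 6) (nat_lit 116035) (nat_lit 15) (node (nat_lit 4)
  (nat_lit 118801) (nat_lit 16) (node (nat_lit 6) (nat_lit 118349) (nat_lit 17) (node (nat_lit 5)
  (nat_lit 118419) (nat_lit 18) nil nil) nil) nil) nil) nil) nil)) (node (nat_lit 11) (nat_lit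
  120318) (nat_lit 12) nil nil)) (node (nat_lit 11) (nat_lit 119608) (nat_lit 11) nil nil))) (node
  (nat_lit 6) (nat_lit 116035) (nat_lit 10) (node (nat_lit 5) (nat_lit 116035) (nat_lit 11) (node
  (nat_lit 4) (nat_lit 116035) (nat_lit 12) (node (nat_lit 5) (nat_lit 116035) (nat_lit 13) (node
  (nat_lit 6) (nat_lit 116035) (nat_lit 14) (node (nat_lit 4) (nat_lit 116035) (nat_lit 15) (node
  (nat_lit 6) (nat_lit 119994) (nat_lit 16) (node (nat_lit 5) (nat_lit 123084) (nat_lit 17) (node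
  (nat_lit 4) (nat_lit 123404) (nat_lit 18) nil nil) nil) nil) nil) nil) nil) (node (nat_lit 6)
  (nat_lit 116035) (nat_lit 12) (node (nat_lit 4) (nat_lit 116035) (nat_lit 13) nil nil) nil))
  (node (nat_lit 4) (nat_lit 116035) (nat_lit 11) (node (nat_lit 5) (nat_lit 116035) (nat_lit 12)
  (node (nat_lit 6) (nat_lit 116035) (nat_lit 13) (node (nat_lit 4) (nat_lit 116035) (nat_lit 14)
  (node (nat_lit 6) (nat_lit 116035) (nat_lit 15) (node (nat_lit 5) (nat_lit 118393) (nat_lit 16)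
  nil nil) nil) nil) (node (nat_lit 4) (nat_lit 116035) (nat_lit 13) nil nil)) nil) nil)) (node
  (nat_lit 0) (nat_lit 121195) (nat_lit 10) nil nil))) (node (nat_lit 0) (nat_lit 122256) (nat_lit
  9) (node (nat_lit 4) (nat_lit 122256) (nat_lit 10) nil (node (nat_lit 11) (nat_lit 124546)
  (nat_lit 10) nil (node (nat_lit 5) (nat_lit 122256) (nat_lit 10) nil (node (nat_lit 6) (nat_lit
  122256) (nat_lit 10) nil nil)))) nil)))) (node (nat_lit 6) (nat_lit 0) (nat_lit 8) (node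
  (nat_lit 0) (nat_lit 0) (nat_lit 9) (node (nat_lit 6) (nat_lit 0) (nat_lit 10) (node (nat_lit 5)
  (nat_lit 105032) (nat_lit 11) (node (nat_lit 4) (nat_lit 105816) (nat_lit 12) (node (nat_lit 5)
  (nat_lit 106013) (nat_lit 13) (node (nat_lit 6) (nat_lit 106062) (nat_lit 14) (node (nat_lit 4)
  (nat_lit 106062) (nat_lit 15) (node (nat_lit 6) (nat_lit 106062) (nat_lit 16) (node (nat_lit 5)
  (nat_lit 109968) (nat_lit 17) (node (nat_lit 4) (nat_lit 110681) (nat_lit 18) (node (nat_lit 6)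
  (nat_lit 112874) (nat_lit 19) (node (nat_lit 12) (nat_lit 46488) (nat_lit 20) nil nil) nil) nil)
  nil) nil) (node (nat_lit 5) (nat_lit 106062) (nat_lit 15) nil nil)) nil) (node (nat_lit 6)
  (nat_lit 106183) (nat_lit 13) (node (nat_lit 5) (nat_lit 106183) (nat_lit 14) (node (nat_lit 6)
  (nat_lit 106183) (nat_lit 15) (node (nat_lit 4) (nat_lit 106183) (nat_lit 16) nil nil) nil)
  (node (nat_lit 4) (nat_lit 106632) (nat_lit 14) (node (nat_lit 5) (nat_lit 106632) (nat_lit 15)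
  (node (nat_lit 6) (nat_lit 106958) (nat_lit 16) (node (nat_lit 4) (nat_lit 109482) (nat_lit 17)
  nil nil) nil) nil) nil)) (node (nat_lit 12) (nat_lit 112313) (nat_lit 13) nil (node (nat_lit 0)
  (nat_lit 112313) (nat_lit 13) nil nil)))) (node (nat_lit 6) (nat_lit 105190) (nat_lit 12) (node
  (nat_lit 4) (nat_lit 105190) (nat_lit 13) (node (nat_lit 5) (nat_lit 105190) (nat_lit 14) nil
  (node (nat_lit 6) (nat_lit 105190) (nat_lit 14) nil nil)) (node (nat_lit 12) (nat_lit 111687)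
  (nat_lit 13) nil (node (nat_lit 0) (nat_lit 111687) (nat_lit 13) nil nil))) (node (nat_lit 12)
  (nat_lit 112355) (nat_lit 12) nil (node (nat_lit 0) (nat_lit 113136) (nat_lit 12) nil nil))))
  (node (nat_lit 4) (nat_lit 104907) (nat_lit 11) (node (nat_lit 5) (nat_lit 105737) (nat_lit 12)
  (node (nat_lit 6) (nat_lit 106052) (nat_lit 13) (node (nat_lit 5) (nat_lit 106052) (nat_lit 14)
  (node (nat_lit 4) (nat_lit 106052) (nat_lit 15) (node (nat_lit 6) (nat_lit 106052) (nat_lit 16)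
  nil nil) nil) (node (nat_lit 4) (nat_lit 106052) (nat_lit 14) (node (nat_lit 6) (nat_lit 106052)
  (nat_lit 15) nil nil) nil)) (node (nat_lit 4) (nat_lit 105737) (nat_lit 13) (node (nat_lit 6)
  (nat_lit 105737) (nat_lit 14) (node (nat_lit 5) (nat_lit 105737) (nat_lit 15) nil (node (nat_lit
  4) (nat_lit 105737) (nat_lit 15) nil nil)) nil) (node (nat_lit 0) (nat_lit 112234) (nat_lit 13)
  nil (node (nat_lit 12) (nat_lit 112234) (nat_lit 13) nil nil)))) (node (nat_lit 6) (nat_lit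
  105060) (nat_lit 12) (node (nat_lit 5) (nat_lit 105060) (nat_lit 13) (node (nat_lit 4) (nat_lit
  105060) (nat_lit 14) nil (node (nat_lit 6) (nat_lit 105060) (nat_lit 14) nil nil)) (node
  (nat_lit 12) (nat_lit 114777) (nat_lit 13) nil nil)) (node (nat_lit 12) (nat_lit 115813)
  (nat_lit 12) (node (nat_lit 6) (nat_lit 115813) (nat_lit 13) nil nil) (node (nat_lit 0) (nat_lit
  110326) (nat_lit 12) nil nil)))) (node (nat_lit 0) (nat_lit 114464) (nat_lit 11) (node (nat_lit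
  6) (nat_lit 114464) (nat_lit 12) nil (node (nat_lit 12) (nat_lit 115844) (nat_lit 12) nil nil))
  nil))) (node (nat_lit 4) (nat_lit 104605) (nat_lit 10) (node (nat_lit 6) (nat_lit 105237)
  (nat_lit 11) (node (nat_lit 4) (nat_lit 105667) (nat_lit 12) (node (nat_lit 12) (nat_lit 113100)
  (nat_lit 13) (node (nat_lit 6) (nat_lit 113100) (nat_lit 14) (node (nat_lit 12) (nat_lit 114814)
  (nat_lit 15) (node (nat_lit 4) (nat_lit 114814) (nat_lit 16) (node (nat_lit 6) (nat_lit 114814)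
  (nat_lit 17) (node (nat_lit 4) (nat_lit 114814) (nat_lit 18) (node (nat_lit 5) (nat_lit 114814)
  (nat_lit 19) (node (nat_lit 6) (nat_lit 114814) (nat_lit 20) (node (nat_lit 4) (nat_lit 114814)
  (nat_lit 21) (node (nat_lit 6) (nat_lit 114887) (nat_lit 22) (node (nat_lit 5) (nat_lit 115346)
  (nat_lit 23) nil nil) nil) nil) nil) nil) nil) nil) nil) nil) nil) nil) nil) (node (nat_lit 12)
  (nat_lit 114872) (nat_lit 11) (node (nat_lit 6) (nat_lit 114872) (nat_lit 12) (node (nat_lit 12)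
  (nat_lit 117331) (nat_lit 13) nil nil) nil) (node (nat_lit 5) (nat_lit 104605) (nat_lit 11) nil
  nil))) (node (nat_lit 5) (nat_lit 104628) (nat_lit 10) (node (nat_lit 6) (nat_lit 104901)
  (nat_lit 11) (node (nat_lit 5) (nat_lit 104901) (nat_lit 12) nil nil) (node (nat_lit 12)
  (nat_lit 114080) (nat_lit 11) nil nil)) (node (nat_lit 0) (nat_lit 111155) (nat_lit 10) (node
  (nat_lit 6) (nat_lit 111155) (nat_lit 11) nil (node (nat_lit 12) (nat_lit 112925) (nat_lit 11)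
  nil nil)) nil)))) (node (nat_lit 4) (nat_lit 0) (nat_lit 9) (node (nat_lit 0) (nat_lit 106431)
  (nat_lit 10) (node (nat_lit 6) (nat_lit 106447) (nat_lit 11) (node (nat_lit 4) (nat_lit 106667)
  (nat_lit 12) (node (nat_lit 5) (nat_lit 106919) (nat_lit 13) (node (nat_lit 6) (nat_lit 106921)
  (nat_lit 14) (node (nat_lit 5) (nat_lit 106921) (nat_lit 15) (node (nat_lit 4) (nat_lit 106921)
  (nat_lit 16) (node (nat_lit 5) (nat_lit 106921) (nat_lit 17) (node (nat_lit 6) (nat_lit 109541)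
  (nat_lit 18) (node (nat_lit 4) (nat_lit 111926) (nat_lit 19) nil nil) nil) nil) nil) (node
  (nat_lit 4) (nat_lit 106921) (nat_lit 15) nil nil)) (node (nat_lit 4) (nat_lit 106919) (nat_lit
  14) (node (nat_lit 6) (nat_lit 106919) (nat_lit 15) (node (nat_lit 5) (nat_lit 106919) (nat_lit
  16) nil nil) nil) (node (nat_lit 13) (nat_lit 111990) (nat_lit 14) nil nil))) (node (nat_lit 6)
  (nat_lit 106768) (nat_lit 13) (node (nat_lit 5) (nat_lit 106773) (nat_lit 14) (node (nat_lit 4)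
  (nat_lit 106773) (nat_lit 15) (node (nat_lit 5) (nat_lit 106773) (nat_lit 16) (node (nat_lit 6)
  (nat_lit 106773) (nat_lit 17) nil nil) (node (nat_lit 6) (nat_lit 106773) (nat_lit 16) (node
  (nat_lit 4) (nat_lit 106773) (nat_lit 17) nil nil) nil)) (node (nat_lit 6) (nat_lit 106773)
  (nat_lit 15) (node (nat_lit 4) (nat_lit 106773) (nat_lit 16) (node (nat_lit 5) (nat_lit 106773)
  (nat_lit 17) nil nil) nil) nil)) (node (nat_lit 13) (nat_lit 113621) (nat_lit 14) nil (node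
  (nat_lit 0) (nat_lit 111838) (nat_lit 14) nil nil))) (node (nat_lit 0) (nat_lit 110896) (nat_lit
  13) nil nil))) (node (nat_lit 13) (nat_lit 109599) (nat_lit 12) nil nil)) (node (nat_lit 4)
  (nat_lit 106449) (nat_lit 11) (node (nat_lit 6) (nat_lit 106701) (nat_lit 12) (node (nat_lit 13)
  (nat_lit 114594) (nat_lit 13) nil nil) nil) (node (nat_lit 5) (nat_lit 106431) (nat_lit 11) nil
  nil))) nil) nil)) (node (nat_lit 5) (nat_lit 0) (nat_lit 8) (node (nat_lit 0) (nat_lit 0)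
  (nat_lit 9) (node (nat_lit 5) (nat_lit 0) (nat_lit 10) (node (nat_lit 6) (nat_lit 117045)
  (nat_lit 11) (node (nat_lit 4) (nat_lit 117045) (nat_lit 12) (node (nat_lit 5) (nat_lit 117045)
  (nat_lit 13) (node (nat_lit 4) (nat_lit 117045) (nat_lit 14) (node (nat_lit 6) (nat_lit 117045)
  (nat_lit 15) (node (nat_lit 5) (nat_lit 117045) (nat_lit 16) nil nil) nil) (node (nat_lit 6)
  (nat_lit 117045) (nat_lit 14) (node (nat_lit 5) (nat_lit 117045) (nat_lit 15) nil nil) nil))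
  (node (nat_lit 6) (nat_lit 117045) (nat_lit 13) (node (nat_lit 5) (nat_lit 117045) (nat_lit 14)
  (node (nat_lit 4) (nat_lit 117045) (nat_lit 15) (node (nat_lit 5) (nat_lit 117045) (nat_lit 16)
  (node (nat_lit 6) (nat_lit 121236) (nat_lit 17) (node (nat_lit 4) (nat_lit 124106) (nat_lit 18)
  nil nil) nil) nil) (node (nat_lit 6) (nat_lit 117045) (nat_lit 15) nil nil)) nil) nil)) (node
  (nat_lit 5) (nat_lit 117045) (nat_lit 12) (node (nat_lit 4) (nat_lit 117045) (nat_lit 13) (node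
  (nat_lit 5) (nat_lit 117045) (nat_lit 14) (node (nat_lit 6) (nat_lit 117045) (nat_lit 15) (node
  (nat_lit 4) (nat_lit 117045) (nat_lit 16) (node (nat_lit 6) (nat_lit 121247) (nat_lit 17) (node
  (nat_lit 5) (nat_lit 124130) (nat_lit 18) (node (nat_lit 4) (nat_lit 125262) (nat_lit 19) nil
  nil) nil) nil) nil) nil) (node (nat_lit 6) (nat_lit 117045) (nat_lit 14) nil nil)) (node
  (nat_lit 12) (nat_lit 123542) (nat_lit 13) nil nil)) (node (nat_lit 12) (nat_lit 122464)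
  (nat_lit 12) nil (node (nat_lit 0) (nat_lit 122464) (nat_lit 12) nil nil)))) (node (nat_lit 4)
  (nat_lit 117045) (nat_lit 11) (node (nat_lit 6) (nat_lit 117045) (nat_lit 12) (node (nat_lit 5)
  (nat_lit 117045) (nat_lit 13) (node (nat_lit 6) (nat_lit 117045) (nat_lit 14) (node (nat_lit 4)
  (nat_lit 117045) (nat_lit 15) (node (nat_lit 5) (nat_lit 117045) (nat_lit 16) nil nil) nil)
  (node (nat_lit 4) (nat_lit 117045) (nat_lit 14) (node (nat_lit 5) (nat_lit 117045) (nat_lit 15)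
  (node (nat_lit 6) (nat_lit 117045) (nat_lit 16) (node (nat_lit 4) (nat_lit 121236) (nat_lit 17)
  nil nil) nil) nil) nil)) (node (nat_lit 4) (nat_lit 117045) (nat_lit 13) (node (nat_lit 5)
  (nat_lit 117045) (nat_lit 14) (node (nat_lit 6) (nat_lit 117045) (nat_lit 15) (node (nat_lit 4)
  (nat_lit 117045) (nat_lit 16) (node (nat_lit 6) (nat_lit 118997) (nat_lit 17) (node (nat_lit 5)
  (nat_lit 120740) (nat_lit 18) nil nil) nil) nil) (node (nat_lit 4) (nat_lit 117045) (nat_lit 15)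
  nil nil)) nil) nil)) (node (nat_lit 5) (nat_lit 117045) (nat_lit 12) (node (nat_lit 6) (nat_lit
  117045) (nat_lit 13) (node (nat_lit 4) (nat_lit 117045) (nat_lit 14) nil (node (nat_lit 5)
  (nat_lit 117045) (nat_lit 14) nil nil)) nil) (node (nat_lit 12) (nat_lit 122464) (nat_lit 12)
  nil (node (nat_lit 0) (nat_lit 122464) (nat_lit 12) nil nil)))) (node (nat_lit 0) (nat_lit
  125093) (nat_lit 11) nil nil))) (node (nat_lit 4) (nat_lit 117045) (nat_lit 10) (node (nat_lit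
  5) (nat_lit 117045) (nat_lit 11) (node (nat_lit 4) (nat_lit 117045) (nat_lit 12) (node (nat_lit
  12) (nat_lit 123542) (nat_lit 13) nil nil) nil) (node (nat_lit 12) (nat_lit 123595) (nat_lit 11)
  nil (node (nat_lit 6) (nat_lit 117045) (nat_lit 11) nil nil))) (node (nat_lit 6) (nat_lit
  117045) (nat_lit 10) (node (nat_lit 5) (nat_lit 117045) (nat_lit 11) nil (node (nat_lit 12)
  (nat_lit 122503) (nat_lit 11) nil nil)) (node (nat_lit 0) (nat_lit 122630) (nat_lit 10) (node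
  (nat_lit 5) (nat_lit 122630) (nat_lit 11) nil nil) nil)))) (node (nat_lit 6) (nat_lit 0)
  (nat_lit 9) (node (nat_lit 0) (nat_lit 94148) (nat_lit 10) (node (nat_lit 5) (nat_lit 94148)
  (nat_lit 11) (node (nat_lit 6) (nat_lit 94148) (nat_lit 12) (node (nat_lit 5) (nat_lit 94148)
  (nat_lit 13) (node (nat_lit 4) (nat_lit 94148) (nat_lit 14) (node (nat_lit 6) (nat_lit 94148)
  (nat_lit 15) nil nil) (node (nat_lit 13) (nat_lit 101000) (nat_lit 14) nil (node (nat_lit 0)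
  (nat_lit 99218) (nat_lit 14) nil nil))) (node (nat_lit 4) (nat_lit 94148) (nat_lit 13) (node
  (nat_lit 5) (nat_lit 94148) (nat_lit 14) (node (nat_lit 4) (nat_lit 94148) (nat_lit 15) nil nil)
  (node (nat_lit 6) (nat_lit 94148) (nat_lit 14) (node (nat_lit 5) (nat_lit 94148) (nat_lit 15)
  nil nil) (node (nat_lit 13) (nat_lit 99218) (nat_lit 14) nil nil))) (node (nat_lit 0) (nat_lit
  98377) (nat_lit 13) nil nil))) nil) (node (nat_lit 6) (nat_lit 94148) (nat_lit 11) nil nil))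
  nil) nil)) nil)))

noncomputable def t217 : Tr :=
  (node (nat_lit 0) (nat_lit 0) (nat_lit 7) (node (nat_lit 4) (nat_lit 125295) (nat_lit 8) (node
  (nat_lit 5) (nat_lit 125706) (nat_lit 9) (node (nat_lit 6) (nat_lit 125706) (nat_lit 10) (node
  (nat_lit 5) (nat_lit 125706) (nat_lit 11) (node (nat_lit 4) (nat_lit 125706) (nat_lit 12) (node
  (nat_lit 5) (nat_lit 125706) (nat_lit 13) (node (nat_lit 6) (nat_lit 125706) (nat_lit 14) (node
  (nat_lit 4) (nat_lit 130386) (nat_lit 15) (node (nat_lit 6) (nat_lit 133291) (nat_lit 16) (node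
  (nat_lit 5) (nat_lit 134700) (nat_lit 17) nil nil) nil) nil) nil) (node (nat_lit 6) (nat_lit
  125706) (nat_lit 13) (node (nat_lit 5) (nat_lit 125706) (nat_lit 14) nil (node (nat_lit 4)
  (nat_lit 125706) (nat_lit 14) nil nil)) nil)) nil) (node (nat_lit 4) (nat_lit 125706) (nat_lit
  11) (node (nat_lit 6) (nat_lit 125706) (nat_lit 12) (node (nat_lit 5) (nat_lit 125706) (nat_lit
  13) (node (nat_lit 6) (nat_lit 125706) (nat_lit 14) nil (node (nat_lit 4) (nat_lit 125706)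
  (nat_lit 14) nil nil)) nil) (node (nat_lit 5) (nat_lit 125706) (nat_lit 12) (node (nat_lit 4)
  (nat_lit 125706) (nat_lit 13) nil nil) nil)) nil)) (node (nat_lit 4) (nat_lit 125706) (nat_lit
  10) (node (nat_lit 6) (nat_lit 125706) (nat_lit 11) (node (nat_lit 5) (nat_lit 125706) (nat_lit
  12) (node (nat_lit 4) (nat_lit 125706) (nat_lit 13) (node (nat_lit 5) (nat_lit 125706) (nat_lit
  14) (node (nat_lit 6) (nat_lit 130685) (nat_lit 15) nil nil) nil) nil) (node (nat_lit 4)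
  (nat_lit 125706) (nat_lit 12) (node (nat_lit 5) (nat_lit 125706) (nat_lit 13) (node (nat_lit 6)
  (nat_lit 125706) (nat_lit 14) (node (nat_lit 4) (nat_lit 129248) (nat_lit 15) (node (nat_lit 6)
  (nat_lit 129830) (nat_lit 16) (node (nat_lit 5) (nat_lit 129816) (nat_lit 17) nil nil) nil) nil)
  nil) nil) nil)) nil) nil)) (node (nat_lit 6) (nat_lit 125479) (nat_lit 9) (node (nat_lit 5)
  (nat_lit 125320) (nat_lit 10) (node (nat_lit 4) (nat_lit 125098) (nat_lit 11) (node (nat_lit 5)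
  (nat_lit 125098) (nat_lit 12) (node (nat_lit 6) (nat_lit 125098) (nat_lit 13) (node (nat_lit 4)
  (nat_lit 125098) (nat_lit 14) (node (nat_lit 6) (nat_lit 129850) (nat_lit 15) (node (nat_lit 5)
  (nat_lit 132998) (nat_lit 16) nil nil) nil) (node (nat_lit 5) (nat_lit 125098) (nat_lit 14) nil
  nil)) nil) (node (nat_lit 6) (nat_lit 125098) (nat_lit 12) (node (nat_lit 4) (nat_lit 125098)
  (nat_lit 13) (node (nat_lit 5) (nat_lit 124540) (nat_lit 14) (node (nat_lit 6) (nat_lit 123565)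
  (nat_lit 15) nil nil) nil) nil) nil)) (node (nat_lit 6) (nat_lit 125320) (nat_lit 11) (node
  (nat_lit 4) (nat_lit 125320) (nat_lit 12) (node (nat_lit 6) (nat_lit 125320) (nat_lit 13) (node
  (nat_lit 5) (nat_lit 125320) (nat_lit 14) nil nil) (node (nat_lit 5) (nat_lit 125320) (nat_lit
  13) (node (nat_lit 4) (nat_lit 125320) (nat_lit 14) nil (node (nat_lit 6) (nat_lit 125320)
  (nat_lit 14) nil nil)) nil)) nil) nil)) (node (nat_lit 4) (nat_lit 125706) (nat_lit 10) (node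
  (nat_lit 5) (nat_lit 125706) (nat_lit 11) (node (nat_lit 6) (nat_lit 125706) (nat_lit 12) (node
  (nat_lit 4) (nat_lit 125706) (nat_lit 13) (node (nat_lit 6) (nat_lit 125706) (nat_lit 14) (node
  (nat_lit 5) (nat_lit 128955) (nat_lit 15) nil nil) nil) nil) nil) nil) (node (nat_lit 10)
  (nat_lit 130056) (nat_lit 10) nil nil))) (node (nat_lit 10) (nat_lit 137763) (nat_lit 9) nil
  nil))) (node (nat_lit 6) (nat_lit 125170) (nat_lit 8) (node (nat_lit 5) (nat_lit 125706)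
  (nat_lit 9) (node (nat_lit 4) (nat_lit 125706) (nat_lit 10) (node (nat_lit 6) (nat_lit 125706)
  (nat_lit 11) (node (nat_lit 4) (nat_lit 125706) (nat_lit 12) (node (nat_lit 5) (nat_lit 125706)
  (nat_lit 13) (node (nat_lit 6) (nat_lit 125706) (nat_lit 14) (node (nat_lit 4) (nat_lit 129222)
  (nat_lit 15) (node (nat_lit 6) (nat_lit 128478) (nat_lit 16) (node (nat_lit 5) (nat_lit 128464)
  (nat_lit 17) nil nil) nil) nil) (node (nat_lit 4) (nat_lit 125706) (nat_lit 14) nil nil)) nil)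
  (node (nat_lit 5) (nat_lit 125706) (nat_lit 12) nil nil)) (node (nat_lit 5) (nat_lit 125706)
  (nat_lit 11) (node (nat_lit 6) (nat_lit 125706) (nat_lit 12) (node (nat_lit 4) (nat_lit 125706)
  (nat_lit 13) (node (nat_lit 6) (nat_lit 125706) (nat_lit 14) nil (node (nat_lit 5) (nat_lit
  125706) (nat_lit 14) nil nil)) (node (nat_lit 5) (nat_lit 125706) (nat_lit 13) nil nil)) nil)
  nil)) (node (nat_lit 6) (nat_lit 125706) (nat_lit 10) (node (nat_lit 4) (nat_lit 125706)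
  (nat_lit 11) (node (nat_lit 5) (nat_lit 125706) (nat_lit 12) (node (nat_lit 6) (nat_lit 125706)
  (nat_lit 13) (node (nat_lit 5) (nat_lit 125706) (nat_lit 14) (node (nat_lit 4) (nat_lit 126585)
  (nat_lit 15) (node (nat_lit 5) (nat_lit 129667) (nat_lit 16) (node (nat_lit 6) (nat_lit 131140)
  (nat_lit 17) (node (nat_lit 4) (nat_lit 132977) (nat_lit 18) (node (nat_lit 6) (nat_lit 134321)
  (nat_lit 19) (node (nat_lit 5) (nat_lit 135020) (nat_lit 20) nil nil) nil) nil) nil) nil) nil)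
  nil) nil) nil) nil) nil)) (node (nat_lit 4) (nat_lit 125706) (nat_lit 9) (node (nat_lit 5)
  (nat_lit 125706) (nat_lit 10) (node (nat_lit 4) (nat_lit 125706) (nat_lit 11) (node (nat_lit 6)
  (nat_lit 125706) (nat_lit 12) (node (nat_lit 5) (nat_lit 125706) (nat_lit 13) (node (nat_lit 6)
  (nat_lit 125706) (nat_lit 14) nil (node (nat_lit 4) (nat_lit 125706) (nat_lit 14) (node (nat_lit
  5) (nat_lit 129970) (nat_lit 15) nil nil) nil)) (node (nat_lit 4) (nat_lit 125706) (nat_lit 13)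
  nil nil)) nil) (node (nat_lit 6) (nat_lit 125706) (nat_lit 11) (node (nat_lit 5) (nat_lit
  125706) (nat_lit 12) (node (nat_lit 4) (nat_lit 125706) (nat_lit 13) (node (nat_lit 5) (nat_lit
  125706) (nat_lit 14) nil (node (nat_lit 6) (nat_lit 125706) (nat_lit 14) nil nil)) nil) (node
  (nat_lit 4) (nat_lit 125706) (nat_lit 12) (node (nat_lit 6) (nat_lit 125706) (nat_lit 13) (node
  (nat_lit 5) (nat_lit 125706) (nat_lit 14) (node (nat_lit 10) (nat_lit 72444) (nat_lit 15) nil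
  nil) nil) nil) nil)) nil)) (node (nat_lit 6) (nat_lit 125706) (nat_lit 10) (node (nat_lit 5)
  (nat_lit 125706) (nat_lit 11) (node (nat_lit 4) (nat_lit 125706) (nat_lit 12) nil nil) nil)
  (node (nat_lit 10) (nat_lit 130284) (nat_lit 10) nil nil))) (node (nat_lit 10) (nat_lit 134804)
  (nat_lit 9) nil nil))) (node (nat_lit 5) (nat_lit 125317) (nat_lit 8) (node (nat_lit 6) (nat_lit
  125706) (nat_lit 9) (node (nat_lit 4) (nat_lit 125706) (nat_lit 10) (node (nat_lit 5) (nat_lit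
  125706) (nat_lit 11) (node (nat_lit 4) (nat_lit 125706) (nat_lit 12) (node (nat_lit 6) (nat_lit
  125706) (nat_lit 13) (node (nat_lit 5) (nat_lit 125706) (nat_lit 14) nil (node (nat_lit 4)
  (nat_lit 125706) (nat_lit 14) (node (nat_lit 5) (nat_lit 129023) (nat_lit 15) nil nil) nil))
  nil) (node (nat_lit 6) (nat_lit 125706) (nat_lit 12) nil nil)) (node (nat_lit 6) (nat_lit
  125706) (nat_lit 11) (node (nat_lit 5) (nat_lit 125706) (nat_lit 12) (node (nat_lit 4) (nat_lit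
  125706) (nat_lit 13) (node (nat_lit 5) (nat_lit 125706) (nat_lit 14) (node (nat_lit 6) (nat_lit
  130892) (nat_lit 15) (node (nat_lit 4) (nat_lit 133480) (nat_lit 16) nil nil) nil) (node
  (nat_lit 6) (nat_lit 125706) (nat_lit 14) nil nil)) (node (nat_lit 6) (nat_lit 125706) (nat_lit
  13) nil nil)) nil) nil)) (node (nat_lit 5) (nat_lit 125706) (nat_lit 10) (node (nat_lit 4)
  (nat_lit 125706) (nat_lit 11) (node (nat_lit 6) (nat_lit 125706) (nat_lit 12) (node (nat_lit 4)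
  (nat_lit 125706) (nat_lit 13) (node (nat_lit 5) (nat_lit 125706) (nat_lit 14) (node (nat_lit 6)
  (nat_lit 125054) (nat_lit 15) (node (nat_lit 4) (nat_lit 126712) (nat_lit 16) (node (nat_lit 6)
  (nat_lit 126153) (nat_lit 17) (node (nat_lit 5) (nat_lit 126147) (nat_lit 18) nil nil) nil) nil)
  nil) nil) (node (nat_lit 5) (nat_lit 125706) (nat_lit 13) (node (nat_lit 6) (nat_lit 125706)
  (nat_lit 14) nil nil) nil)) (node (nat_lit 5) (nat_lit 125706) (nat_lit 12) (node (nat_lit 6)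
  (nat_lit 125706) (nat_lit 13) (node (nat_lit 4) (nat_lit 125706) (nat_lit 14) (node (nat_lit 6)
  (nat_lit 130101) (nat_lit 15) (node (nat_lit 5) (nat_lit 132879) (nat_lit 16) nil nil) nil) nil)
  nil) nil)) nil) nil)) (node (nat_lit 4) (nat_lit 125706) (nat_lit 9) (node (nat_lit 6) (nat_lit
  125706) (nat_lit 10) (node (nat_lit 5) (nat_lit 125706) (nat_lit 11) (node (nat_lit 4) (nat_lit
  125706) (nat_lit 12) (node (nat_lit 5) (nat_lit 125706) (nat_lit 13) (node (nat_lit 6) (nat_lit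
  125706) (nat_lit 14) (node (nat_lit 4) (nat_lit 130685) (nat_lit 15) (node (nat_lit 6) (nat_lit
  133087) (nat_lit 16) (node (nat_lit 5) (nat_lit 134496) (nat_lit 17) nil nil) nil) nil) nil)
  nil) (node (nat_lit 6) (nat_lit 125706) (nat_lit 12) (node (nat_lit 4) (nat_lit 125706) (nat_lit
  13) (node (nat_lit 6) (nat_lit 125706) (nat_lit 14) nil (node (nat_lit 5) (nat_lit 125706)
  (nat_lit 14) nil nil)) nil) nil)) (node (nat_lit 4) (nat_lit 125706) (nat_lit 11) (node (nat_lit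
  5) (nat_lit 125706) (nat_lit 12) (node (nat_lit 6) (nat_lit 125706) (nat_lit 13) (node (nat_lit
  4) (nat_lit 125706) (nat_lit 14) (node (nat_lit 6) (nat_lit 126180) (nat_lit 15) (node (nat_lit
  5) (nat_lit 126151) (nat_lit 16) nil nil) nil) (node (nat_lit 5) (nat_lit 125551) (nat_lit 14)
  (node (nat_lit 4) (nat_lit 126407) (nat_lit 15) nil nil) nil)) (node (nat_lit 4) (nat_lit
  125706) (nat_lit 13) (node (nat_lit 6) (nat_lit 125706) (nat_lit 14) nil nil) nil)) nil) nil))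
  (node (nat_lit 5) (nat_lit 125706) (nat_lit 10) (node (nat_lit 6) (nat_lit 125706) (nat_lit 11)
  (node (nat_lit 4) (nat_lit 125706) (nat_lit 12) nil nil) nil) nil)) nil)) (node (nat_lit 0)
  (nat_lit 133480) (nat_lit 8) nil nil)))) (node (nat_lit 6) (nat_lit 0) (nat_lit 7) (node
  (nat_lit 0) (nat_lit 0) (nat_lit 8) (node (nat_lit 4) (nat_lit 130455) (nat_lit 9) (node
  (nat_lit 6) (nat_lit 130455) (nat_lit 10) (node (nat_lit 4) (nat_lit 130455) (nat_lit 11) (node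
  (nat_lit 5) (nat_lit 130455) (nat_lit 12) (node (nat_lit 6) (nat_lit 130455) (nat_lit 13) (node
  (nat_lit 5) (nat_lit 130455) (nat_lit 14) (node (nat_lit 4) (nat_lit 130455) (nat_lit 15) (node
  (nat_lit 5) (nat_lit 134979) (nat_lit 16) (node (nat_lit 6) (nat_lit 137305) (nat_lit 17) (node
  (nat_lit 4) (nat_lit 139254) (nat_lit 18) (node (nat_lit 6) (nat_lit 140641) (nat_lit 19) (node
  (nat_lit 5) (nat_lit 141598) (nat_lit 20) (node (nat_lit 6) (nat_lit 142326) (nat_lit 21) nil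
  nil) nil) nil) nil) nil) (node (nat_lit 6) (nat_lit 131949) (nat_lit 16) nil nil)) nil) (node
  (nat_lit 4) (nat_lit 130455) (nat_lit 14) nil nil)) (node (nat_lit 4) (nat_lit 130455) (nat_lit
  13) nil nil)) nil) (node (nat_lit 5) (nat_lit 130455) (nat_lit 11) (node (nat_lit 4) (nat_lit
  130455) (nat_lit 12) (node (nat_lit 5) (nat_lit 130455) (nat_lit 13) (node (nat_lit 6) (nat_lit
  130455) (nat_lit 14) (node (nat_lit 4) (nat_lit 130455) (nat_lit 15) (node (nat_lit 6) (nat_lit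
  134705) (nat_lit 16) (node (nat_lit 5) (nat_lit 137586) (nat_lit 17) nil nil) nil) nil) nil)
  (node (nat_lit 6) (nat_lit 130455) (nat_lit 13) (node (nat_lit 4) (nat_lit 130455) (nat_lit 14)
  (node (nat_lit 5) (nat_lit 130399) (nat_lit 15) (node (nat_lit 6) (nat_lit 131400) (nat_lit 16)
  nil nil) nil) nil) nil)) nil) (node (nat_lit 11) (nat_lit 134027) (nat_lit 11) nil nil))) (node
  (nat_lit 5) (nat_lit 130455) (nat_lit 10) (node (nat_lit 4) (nat_lit 130455) (nat_lit 11) (node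
  (nat_lit 6) (nat_lit 130455) (nat_lit 12) (node (nat_lit 4) (nat_lit 130455) (nat_lit 13) (node
  (nat_lit 5) (nat_lit 130455) (nat_lit 14) (node (nat_lit 6) (nat_lit 130576) (nat_lit 15) (node
  (nat_lit 4) (nat_lit 133572) (nat_lit 16) (node (nat_lit 6) (nat_lit 134187) (nat_lit 17) nil
  nil) nil) nil) nil) (node (nat_lit 5) (nat_lit 130455) (nat_lit 13) nil nil)) nil) (node
  (nat_lit 6) (nat_lit 130455) (nat_lit 11) (node (nat_lit 5) (nat_lit 130455) (nat_lit 12) (node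
  (nat_lit 4) (nat_lit 130455) (nat_lit 13) (node (nat_lit 5) (nat_lit 130455) (nat_lit 14) (node
  (nat_lit 6) (nat_lit 130455) (nat_lit 15) (node (nat_lit 4) (nat_lit 134650) (nat_lit 16) nil
  nil) nil) nil) nil) nil) nil)) (node (nat_lit 11) (nat_lit 138253) (nat_lit 10) nil nil))) (node
  (nat_lit 5) (nat_lit 130455) (nat_lit 9) (node (nat_lit 6) (nat_lit 130455) (nat_lit 10) (node
  (nat_lit 5) (nat_lit 130455) (nat_lit 11) (node (nat_lit 4) (nat_lit 130455) (nat_lit 12) (node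
  (nat_lit 6) (nat_lit 130455) (nat_lit 13) (node (nat_lit 4) (nat_lit 130455) (nat_lit 14) (node
  (nat_lit 5) (nat_lit 130455) (nat_lit 15) (node (nat_lit 6) (nat_lit 131400) (nat_lit 16) nil
  nil) nil) (node (nat_lit 5) (nat_lit 130455) (nat_lit 14) (node (nat_lit 6) (nat_lit 130455)
  (nat_lit 15) nil nil) nil)) (node (nat_lit 5) (nat_lit 130455) (nat_lit 13) (node (nat_lit 6)
  (nat_lit 130455) (nat_lit 14) (node (nat_lit 4) (nat_lit 130455) (nat_lit 15) (node (nat_lit 6)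
  (nat_lit 134427) (nat_lit 16) (node (nat_lit 5) (nat_lit 137020) (nat_lit 17) nil nil) nil) nil)
  nil) nil)) nil) (node (nat_lit 4) (nat_lit 130455) (nat_lit 11) (node (nat_lit 5) (nat_lit
  130455) (nat_lit 12) (node (nat_lit 6) (nat_lit 130455) (nat_lit 13) (node (nat_lit 5) (nat_lit
  130455) (nat_lit 14) (node (nat_lit 4) (nat_lit 130455) (nat_lit 15) (node (nat_lit 5) (nat_lit
  134959) (nat_lit 16) (node (nat_lit 6) (nat_lit 137305) (nat_lit 17) (node (nat_lit 4) (nat_lit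
  139254) (nat_lit 18) (node (nat_lit 6) (nat_lit 140641) (nat_lit 19) (node (nat_lit 5) (nat_lit
  141598) (nat_lit 20) nil nil) nil) nil) nil) nil) nil) nil) nil) nil) nil)) (node (nat_lit 4)
  (nat_lit 130455) (nat_lit 10) (node (nat_lit 6) (nat_lit 130455) (nat_lit 11) (node (nat_lit 5)
  (nat_lit 130455) (nat_lit 12) (node (nat_lit 4) (nat_lit 130455) (nat_lit 13) (node (nat_lit 5)
  (nat_lit 130455) (nat_lit 14) (node (nat_lit 6) (nat_lit 130455) (nat_lit 15) (node (nat_lit 4)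
  (nat_lit 134775) (nat_lit 16) (node (nat_lit 6) (nat_lit 137921) (nat_lit 17) (node (nat_lit 5)
  (nat_lit 139376) (nat_lit 18) nil nil) nil) nil) nil) nil) (node (nat_lit 6) (nat_lit 130455)
  (nat_lit 13) (node (nat_lit 4) (nat_lit 130455) (nat_lit 14) nil nil) nil)) (node (nat_lit 4)
  (nat_lit 130455) (nat_lit 12) (node (nat_lit 5) (nat_lit 130455) (nat_lit 13) (node (nat_lit 6)
  (nat_lit 130455) (nat_lit 14) (node (nat_lit 4) (nat_lit 130455) (nat_lit 15) (node (nat_lit 6)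
  (nat_lit 131611) (nat_lit 16) (node (nat_lit 5) (nat_lit 132318) (nat_lit 17) nil nil) nil) nil)
  nil) nil) nil)) (node (nat_lit 5) (nat_lit 130455) (nat_lit 11) (node (nat_lit 6) (nat_lit
  130455) (nat_lit 12) (node (nat_lit 4) (nat_lit 130455) (nat_lit 13) nil nil) nil) nil)) (node
  (nat_lit 11) (nat_lit 139422) (nat_lit 10) nil nil))) (node (nat_lit 6) (nat_lit 130455)
  (nat_lit 9) (node (nat_lit 4) (nat_lit 130455) (nat_lit 10) (node (nat_lit 5) (nat_lit 130455)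
  (nat_lit 11) (node (nat_lit 4) (nat_lit 130455) (nat_lit 12) (node (nat_lit 6) (nat_lit 130455)
  (nat_lit 13) (node (nat_lit 4) (nat_lit 130455) (nat_lit 14) (node (nat_lit 5) (nat_lit 130576)
  (nat_lit 15) (node (nat_lit 6) (nat_lit 131400) (nat_lit 16) nil nil) nil) nil) nil) (node
  (nat_lit 6) (nat_lit 130455) (nat_lit 12) (node (nat_lit 4) (nat_lit 130455) (nat_lit 13) (node
  (nat_lit 6) (nat_lit 130455) (nat_lit 14) (node (nat_lit 5) (nat_lit 130455) (nat_lit 15) (node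
  (nat_lit 6) (nat_lit 131949) (nat_lit 16) (node (nat_lit 11) (nat_lit 74646) (nat_lit 17) nil
  nil) nil) nil) nil) nil) nil)) (node (nat_lit 6) (nat_lit 130455) (nat_lit 11) (node (nat_lit 5)
  (nat_lit 130455) (nat_lit 12) (node (nat_lit 4) (nat_lit 130455) (nat_lit 13) (node (nat_lit 5)
  (nat_lit 130455) (nat_lit 14) (node (nat_lit 6) (nat_lit 130455) (nat_lit 15) (node (nat_lit 4)
  (nat_lit 134276) (nat_lit 16) nil nil) nil) nil) nil) nil) nil)) (node (nat_lit 5) (nat_lit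
  130455) (nat_lit 10) (node (nat_lit 4) (nat_lit 130455) (nat_lit 11) (node (nat_lit 5) (nat_lit
  130455) (nat_lit 12) (node (nat_lit 6) (nat_lit 130455) (nat_lit 13) (node (nat_lit 4) (nat_lit
  130455) (nat_lit 14) (node (nat_lit 6) (nat_lit 130455) (nat_lit 15) (node (nat_lit 5) (nat_lit
  134048) (nat_lit 16) (node (nat_lit 6) (nat_lit 136008) (nat_lit 17) (node (nat_lit 11) (nat_lit
  61972) (nat_lit 18) nil nil) nil) nil) nil) nil) nil) (node (nat_lit 6) (nat_lit 130455)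
  (nat_lit 12) nil nil)) nil) nil)) (node (nat_lit 0) (nat_lit 134834) (nat_lit 9) nil nil))))
  (node (nat_lit 4) (nat_lit 0) (nat_lit 8) (node (nat_lit 0) (nat_lit 0) (nat_lit 9) (node
  (nat_lit 4) (nat_lit 0) (nat_lit 10) (node (nat_lit 5) (nat_lit 131785) (nat_lit 11) (node
  (nat_lit 6) (nat_lit 131785) (nat_lit 12) (node (nat_lit 5) (nat_lit 131785) (nat_lit 13) (node
  (nat_lit 4) (nat_lit 131785) (nat_lit 14) (node (nat_lit 5) (nat_lit 131785) (nat_lit 15) (node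
  (nat_lit 6) (nat_lit 131785) (nat_lit 16) (node (nat_lit 4) (nat_lit 136160) (nat_lit 17) (node
  (nat_lit 6) (nat_lit 139575) (nat_lit 18) nil nil) nil) nil) nil) nil) (node (nat_lit 4)
  (nat_lit 131785) (nat_lit 13) (node (nat_lit 6) (nat_lit 131785) (nat_lit 14) nil (node (nat_lit
  5) (nat_lit 131785) (nat_lit 14) nil nil)) nil)) (node (nat_lit 4) (nat_lit 131785) (nat_lit 12)
  (node (nat_lit 6) (nat_lit 131785) (nat_lit 13) (node (nat_lit 5) (nat_lit 131785) (nat_lit 14)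
  nil nil) nil) (node (nat_lit 12) (nat_lit 137204) (nat_lit 12) nil nil))) (node (nat_lit 6)
  (nat_lit 131785) (nat_lit 11) (node (nat_lit 5) (nat_lit 131785) (nat_lit 12) (node (nat_lit 4)
  (nat_lit 131785) (nat_lit 13) (node (nat_lit 5) (nat_lit 131785) (nat_lit 14) (node (nat_lit 6)
  (nat_lit 131785) (nat_lit 15) (node (nat_lit 4) (nat_lit 131785) (nat_lit 16) (node (nat_lit 6)
  (nat_lit 136203) (nat_lit 17) (node (nat_lit 5) (nat_lit 139311) (nat_lit 18) nil nil) nil) nil)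
  nil) (node (nat_lit 6) (nat_lit 131785) (nat_lit 14) nil nil)) (node (nat_lit 6) (nat_lit
  131785) (nat_lit 13) (node (nat_lit 4) (nat_lit 131785) (nat_lit 14) nil nil) nil)) (node
  (nat_lit 4) (nat_lit 131785) (nat_lit 12) (node (nat_lit 5) (nat_lit 131785) (nat_lit 13) nil
  nil) (node (nat_lit 12) (nat_lit 137204) (nat_lit 12) nil nil))) (node (nat_lit 0) (nat_lit
  137242) (nat_lit 11) nil nil))) (node (nat_lit 6) (nat_lit 131785) (nat_lit 10) (node (nat_lit
  12) (nat_lit 135823) (nat_lit 11) nil nil) (node (nat_lit 0) (nat_lit 135463) (nat_lit 10) nil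
  (node (nat_lit 5) (nat_lit 131785) (nat_lit 10) nil nil)))) (node (nat_lit 5) (nat_lit 0)
  (nat_lit 9) (node (nat_lit 0) (nat_lit 136849) (nat_lit 10) (node (nat_lit 4) (nat_lit 136849)
  (nat_lit 11) (node (nat_lit 5) (nat_lit 136849) (nat_lit 12) (node (nat_lit 4) (nat_lit 136849)
  (nat_lit 13) (node (nat_lit 6) (nat_lit 136849) (nat_lit 14) nil nil) (node (nat_lit 6) (nat_lit
  136849) (nat_lit 13) (node (nat_lit 4) (nat_lit 136849) (nat_lit 14) nil (node (nat_lit 5)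
  (nat_lit 136849) (nat_lit 14) nil nil)) nil)) nil) nil) nil) nil)) nil)) nil))

noncomputable def t218 : Tr :=
  (node (nat_lit 6) (nat_lit 0) (nat_lit 7) (node (nat_lit 0) (nat_lit 0) (nat_lit 8) (node
  (nat_lit 5) (nat_lit 0) (nat_lit 9) (node (nat_lit 6) (nat_lit 78722) (nat_lit 10) (node
  (nat_lit 5) (nat_lit 78722) (nat_lit 11) (node (nat_lit 4) (nat_lit 78722) (nat_lit 12) (node
  (nat_lit 6) (nat_lit 78722) (nat_lit 13) (node (nat_lit 4) (nat_lit 78722) (nat_lit 14) (node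
  (nat_lit 5) (nat_lit 78722) (nat_lit 15) nil nil) (node (nat_lit 5) (nat_lit 78722) (nat_lit 14)
  nil nil)) (node (nat_lit 5) (nat_lit 78722) (nat_lit 13) (node (nat_lit 6) (nat_lit 78722)
  (nat_lit 14) (node (nat_lit 4) (nat_lit 78722) (nat_lit 15) (node (nat_lit 5) (nat_lit 80804)
  (nat_lit 16) (node (nat_lit 4) (nat_lit 82987) (nat_lit 17) (node (nat_lit 6) (nat_lit 84290)
  (nat_lit 18) nil nil) nil) nil) nil) nil) nil)) (node (nat_lit 11) (nat_lit 80687) (nat_lit 12)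
  nil nil)) (node (nat_lit 4) (nat_lit 78722) (nat_lit 11) (node (nat_lit 6) (nat_lit 78722)
  (nat_lit 12) (node (nat_lit 5) (nat_lit 78722) (nat_lit 13) nil nil) (node (nat_lit 5) (nat_lit
  78722) (nat_lit 12) (node (nat_lit 4) (nat_lit 78722) (nat_lit 13) nil (node (nat_lit 6)
  (nat_lit 78722) (nat_lit 13) nil nil)) nil)) (node (nat_lit 11) (nat_lit 82095) (nat_lit 11) nil
  nil))) (node (nat_lit 4) (nat_lit 78722) (nat_lit 10) (node (nat_lit 6) (nat_lit 78722) (nat_lit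
  11) (node (nat_lit 5) (nat_lit 78722) (nat_lit 12) (node (nat_lit 4) (nat_lit 78722) (nat_lit
  13) (node (nat_lit 5) (nat_lit 78722) (nat_lit 14) (node (nat_lit 6) (nat_lit 78247) (nat_lit
  15) (node (nat_lit 4) (nat_lit 78488) (nat_lit 16) (node (nat_lit 5) (nat_lit 78701) (nat_lit
  17) nil nil) nil) nil) nil) (node (nat_lit 6) (nat_lit 78722) (nat_lit 13) (node (nat_lit 4)
  (nat_lit 78722) (nat_lit 14) nil nil) nil)) (node (nat_lit 4) (nat_lit 78722) (nat_lit 12) (node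
  (nat_lit 5) (nat_lit 78722) (nat_lit 13) nil nil) nil)) (node (nat_lit 5) (nat_lit 78722)
  (nat_lit 11) (node (nat_lit 6) (nat_lit 78722) (nat_lit 12) (node (nat_lit 4) (nat_lit 78722)
  (nat_lit 13) (node (nat_lit 5) (nat_lit 78722) (nat_lit 14) nil nil) (node (nat_lit 5) (nat_lit
  78722) (nat_lit 13) nil nil)) nil) (node (nat_lit 11) (nat_lit 80361) (nat_lit 11) nil nil)))
  (node (nat_lit 11) (nat_lit 83681) (nat_lit 10) (node (nat_lit 6) (nat_lit 83681) (nat_lit 11)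
  (node (nat_lit 5) (nat_lit 83681) (nat_lit 12) (node (nat_lit 4) (nat_lit 83681) (nat_lit 13)
  (node (nat_lit 5) (nat_lit 83681) (nat_lit 14) (node (nat_lit 6) (nat_lit 83681) (nat_lit 15)
  (node (nat_lit 4) (nat_lit 83681) (nat_lit 16) (node (nat_lit 5) (nat_lit 83681) (nat_lit 17)
  (node (nat_lit 4) (nat_lit 84306) (nat_lit 18) (node (nat_lit 6) (nat_lit 84306) (nat_lit 19)
  nil nil) nil) nil) nil) nil) nil) nil) nil) nil) (node (nat_lit 0) (nat_lit 79944) (nat_lit 10)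
  nil nil)))) (node (nat_lit 4) (nat_lit 0) (nat_lit 9) (node (nat_lit 6) (nat_lit 78722) (nat_lit
  10) (node (nat_lit 4) (nat_lit 78722) (nat_lit 11) (node (nat_lit 5) (nat_lit 78722) (nat_lit
  12) (node (nat_lit 6) (nat_lit 78722) (nat_lit 13) (node (nat_lit 5) (nat_lit 78722) (nat_lit
  14) (node (nat_lit 4) (nat_lit 78722) (nat_lit 15) (node (nat_lit 5) (nat_lit 81887) (nat_lit
  16) (node (nat_lit 6) (nat_lit 83511) (nat_lit 17) (node (nat_lit 4) (nat_lit 84306) (nat_lit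
  18) nil nil) nil) (node (nat_lit 6) (nat_lit 79409) (nat_lit 16) nil nil)) nil) (node (nat_lit
  4) (nat_lit 78722) (nat_lit 14) nil nil)) (node (nat_lit 4) (nat_lit 78722) (nat_lit 13) (node
  (nat_lit 6) (nat_lit 78722) (nat_lit 14) (node (nat_lit 5) (nat_lit 78722) (nat_lit 15) nil nil)
  nil) nil)) nil) (node (nat_lit 5) (nat_lit 78722) (nat_lit 11) (node (nat_lit 4) (nat_lit 78722)
  (nat_lit 12) (node (nat_lit 5) (nat_lit 78722) (nat_lit 13) (node (nat_lit 6) (nat_lit 78722)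
  (nat_lit 14) (node (nat_lit 4) (nat_lit 78722) (nat_lit 15) (node (nat_lit 5) (nat_lit 81837)
  (nat_lit 16) nil nil) nil) nil) (node (nat_lit 6) (nat_lit 78722) (nat_lit 13) nil nil)) (node
  (nat_lit 6) (nat_lit 78722) (nat_lit 12) (node (nat_lit 4) (nat_lit 78722) (nat_lit 13) nil nil)
  nil)) nil)) (node (nat_lit 5) (nat_lit 78722) (nat_lit 10) (node (nat_lit 6) (nat_lit 78722)
  (nat_lit 11) (node (nat_lit 4) (nat_lit 78722) (nat_lit 12) (node (nat_lit 6) (nat_lit 78722)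
  (nat_lit 13) (node (nat_lit 5) (nat_lit 78722) (nat_lit 14) nil nil) (node (nat_lit 5) (nat_lit
  78722) (nat_lit 13) nil nil)) (node (nat_lit 5) (nat_lit 78722) (nat_lit 12) (node (nat_lit 4)
  (nat_lit 78722) (nat_lit 13) (node (nat_lit 5) (nat_lit 78722) (nat_lit 14) (node (nat_lit 6)
  (nat_lit 78722) (nat_lit 15) (node (nat_lit 4) (nat_lit 79892) (nat_lit 16) nil nil) nil) (node
  (nat_lit 6) (nat_lit 78722) (nat_lit 14) nil nil)) nil) nil)) (node (nat_lit 4) (nat_lit 78722)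
  (nat_lit 11) (node (nat_lit 6) (nat_lit 78722) (nat_lit 12) (node (nat_lit 5) (nat_lit 78722)
  (nat_lit 13) nil (node (nat_lit 4) (nat_lit 78722) (nat_lit 13) nil nil)) nil) (node (nat_lit
  11) (nat_lit 80361) (nat_lit 11) nil nil))) (node (nat_lit 11) (nat_lit 81762) (nat_lit 10) nil
  (node (nat_lit 0) (nat_lit 79836) (nat_lit 10) nil nil)))) (node (nat_lit 6) (nat_lit 0)
  (nat_lit 9) (node (nat_lit 4) (nat_lit 78722) (nat_lit 10) (node (nat_lit 6) (nat_lit 78722)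
  (nat_lit 11) (node (nat_lit 5) (nat_lit 78722) (nat_lit 12) (node (nat_lit 4) (nat_lit 78722)
  (nat_lit 13) (node (nat_lit 5) (nat_lit 78722) (nat_lit 14) (node (nat_lit 6) (nat_lit 78722)
  (nat_lit 15) (node (nat_lit 4) (nat_lit 80420) (nat_lit 16) nil nil) nil) nil) (node (nat_lit 6)
  (nat_lit 78722) (nat_lit 13) nil nil)) (node (nat_lit 11) (nat_lit 80687) (nat_lit 12) nil nil))
  (node (nat_lit 5) (nat_lit 78722) (nat_lit 11) (node (nat_lit 4) (nat_lit 78722) (nat_lit 12)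
  nil (node (nat_lit 6) (nat_lit 78722) (nat_lit 12) nil nil)) (node (nat_lit 11) (nat_lit 80361)
  (nat_lit 11) nil nil))) (node (nat_lit 5) (nat_lit 78722) (nat_lit 10) (node (nat_lit 4)
  (nat_lit 78722) (nat_lit 11) (node (nat_lit 5) (nat_lit 78722) (nat_lit 12) (node (nat_lit 6)
  (nat_lit 78722) (nat_lit 13) (node (nat_lit 4) (nat_lit 78722) (nat_lit 14) (node (nat_lit 5)
  (nat_lit 78722) (nat_lit 15) (node (nat_lit 4) (nat_lit 81507) (nat_lit 16) (node (nat_lit 6)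
  (nat_lit 81269) (nat_lit 17) nil nil) nil) nil) nil) nil) (node (nat_lit 6) (nat_lit 78722)
  (nat_lit 12) nil nil)) (node (nat_lit 6) (nat_lit 78722) (nat_lit 11) (node (nat_lit 4) (nat_lit
  78722) (nat_lit 12) (node (nat_lit 5) (nat_lit 78722) (nat_lit 13) nil (node (nat_lit 6)
  (nat_lit 78722) (nat_lit 13) nil nil)) nil) nil)) (node (nat_lit 0) (nat_lit 81286) (nat_lit 10)
  nil nil))) (node (nat_lit 0) (nat_lit 82106) (nat_lit 9) (node (nat_lit 6) (nat_lit 82106)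
  (nat_lit 10) nil (node (nat_lit 4) (nat_lit 82106) (nat_lit 10) nil (node (nat_lit 5) (nat_lit
  82106) (nat_lit 10) nil (node (nat_lit 11) (nat_lit 82348) (nat_lit 10) nil nil)))) nil))))
  (node (nat_lit 5) (nat_lit 0) (nat_lit 8) (node (nat_lit 0) (nat_lit 0) (nat_lit 9) (node
  (nat_lit 5) (nat_lit 0) (nat_lit 10) (node (nat_lit 4) (nat_lit 81300) (nat_lit 11) (node
  (nat_lit 6) (nat_lit 81300) (nat_lit 12) (node (nat_lit 5) (nat_lit 81300) (nat_lit 13) (node
  (nat_lit 6) (nat_lit 81300) (nat_lit 14) (node (nat_lit 4) (nat_lit 81300) (nat_lit 15) nil nil)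
  (node (nat_lit 4) (nat_lit 81300) (nat_lit 14) (node (nat_lit 5) (nat_lit 81300) (nat_lit 15)
  (node (nat_lit 6) (nat_lit 81229) (nat_lit 16) (node (nat_lit 4) (nat_lit 82423) (nat_lit 17)
  nil nil) nil) nil) nil)) (node (nat_lit 4) (nat_lit 81300) (nat_lit 13) (node (nat_lit 5)
  (nat_lit 81300) (nat_lit 14) (node (nat_lit 6) (nat_lit 81300) (nat_lit 15) nil nil) nil) nil))
  (node (nat_lit 5) (nat_lit 81300) (nat_lit 12) (node (nat_lit 6) (nat_lit 81300) (nat_lit 13)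
  (node (nat_lit 4) (nat_lit 81300) (nat_lit 14) nil (node (nat_lit 5) (nat_lit 81300) (nat_lit
  14) nil nil)) (node (nat_lit 12) (nat_lit 84186) (nat_lit 13) nil nil)) (node (nat_lit 12)
  (nat_lit 83707) (nat_lit 12) nil (node (nat_lit 0) (nat_lit 83707) (nat_lit 12) nil nil))))
  (node (nat_lit 6) (nat_lit 81300) (nat_lit 11) (node (nat_lit 4) (nat_lit 81300) (nat_lit 12)
  (node (nat_lit 5) (nat_lit 81300) (nat_lit 13) (node (nat_lit 4) (nat_lit 81300) (nat_lit 14)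
  (node (nat_lit 6) (nat_lit 81300) (nat_lit 15) (node (nat_lit 5) (nat_lit 81300) (nat_lit 16)
  nil nil) nil) (node (nat_lit 6) (nat_lit 81300) (nat_lit 14) nil nil)) (node (nat_lit 6)
  (nat_lit 81300) (nat_lit 13) (node (nat_lit 5) (nat_lit 81300) (nat_lit 14) nil nil) nil)) (node
  (nat_lit 5) (nat_lit 81300) (nat_lit 12) (node (nat_lit 4) (nat_lit 81300) (nat_lit 13) (node
  (nat_lit 5) (nat_lit 81300) (nat_lit 14) nil (node (nat_lit 6) (nat_lit 81300) (nat_lit 14) nil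
  nil)) (node (nat_lit 12) (nat_lit 84186) (nat_lit 13) nil nil)) (node (nat_lit 12) (nat_lit
  83707) (nat_lit 12) nil (node (nat_lit 0) (nat_lit 83707) (nat_lit 12) nil nil)))) (node
  (nat_lit 0) (nat_lit 84306) (nat_lit 11) nil nil))) (node (nat_lit 6) (nat_lit 0) (nat_lit 10)
  (node (nat_lit 12) (nat_lit 83094) (nat_lit 11) nil (node (nat_lit 5) (nat_lit 81300) (nat_lit
  11) nil (node (nat_lit 4) (nat_lit 81300) (nat_lit 11) nil (node (nat_lit 0) (nat_lit 83094)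
  (nat_lit 11) nil nil)))) (node (nat_lit 4) (nat_lit 81300) (nat_lit 10) (node (nat_lit 5)
  (nat_lit 81300) (nat_lit 11) nil nil) (node (nat_lit 0) (nat_lit 83945) (nat_lit 10) nil nil))))
  (node (nat_lit 6) (nat_lit 0) (nat_lit 9) (node (nat_lit 0) (nat_lit 83107) (nat_lit 10) (node
  (nat_lit 5) (nat_lit 83107) (nat_lit 11) (node (nat_lit 6) (nat_lit 83107) (nat_lit 12) (node
  (nat_lit 5) (nat_lit 83107) (nat_lit 13) (node (nat_lit 4) (nat_lit 83107) (nat_lit 14) (node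
  (nat_lit 6) (nat_lit 83107) (nat_lit 15) (node (nat_lit 5) (nat_lit 83107) (nat_lit 16) nil
  (node (nat_lit 4) (nat_lit 83107) (nat_lit 16) (node (nat_lit 5) (nat_lit 83107) (nat_lit 17)
  nil nil) nil)) (node (nat_lit 5) (nat_lit 83107) (nat_lit 15) (node (nat_lit 6) (nat_lit 83107)
  (nat_lit 16) (node (nat_lit 4) (nat_lit 83107) (nat_lit 17) (node (nat_lit 5) (nat_lit 84306)
  (nat_lit 18) (node (nat_lit 4) (nat_lit 84306) (nat_lit 19) (node (nat_lit 6) (nat_lit 84306)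
  (nat_lit 20) nil nil) nil) nil) nil) nil) nil)) (node (nat_lit 13) (nat_lit 84306) (nat_lit 14)
  nil nil)) (node (nat_lit 4) (nat_lit 83107) (nat_lit 13) (node (nat_lit 5) (nat_lit 83107)
  (nat_lit 14) (node (nat_lit 4) (nat_lit 83107) (nat_lit 15) (node (nat_lit 6) (nat_lit 83107)
  (nat_lit 16) nil nil) (node (nat_lit 6) (nat_lit 83107) (nat_lit 15) nil nil)) (node (nat_lit 6)
  (nat_lit 83107) (nat_lit 14) (node (nat_lit 5) (nat_lit 83107) (nat_lit 15) (node (nat_lit 4)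
  (nat_lit 83107) (nat_lit 16) nil nil) nil) nil)) nil)) (node (nat_lit 13) (nat_lit 84306)
  (nat_lit 12) nil nil)) (node (nat_lit 6) (nat_lit 83107) (nat_lit 11) (node (nat_lit 5) (nat_lit
  83107) (nat_lit 12) nil nil) (node (nat_lit 4) (nat_lit 83107) (nat_lit 11) nil nil))) nil)
  (node (nat_lit 4) (nat_lit 0) (nat_lit 9) (node (nat_lit 0) (nat_lit 68069) (nat_lit 10) (node
  (nat_lit 5) (nat_lit 68574) (nat_lit 11) (node (nat_lit 4) (nat_lit 69394) (nat_lit 12) (node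
  (nat_lit 6) (nat_lit 69274) (nat_lit 13) (node (nat_lit 5) (nat_lit 69274) (nat_lit 14) (node
  (nat_lit 6) (nat_lit 69274) (nat_lit 15) nil nil) (node (nat_lit 4) (nat_lit 69274) (nat_lit 14)
  (node (nat_lit 5) (nat_lit 69274) (nat_lit 15) nil nil) nil)) (node (nat_lit 5) (nat_lit 69953)
  (nat_lit 13) (node (nat_lit 6) (nat_lit 70668) (nat_lit 14) (node (nat_lit 4) (nat_lit 70668)
  (nat_lit 15) nil nil) nil) (node (nat_lit 0) (nat_lit 70407) (nat_lit 13) nil nil))) nil) (node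
  (nat_lit 4) (nat_lit 68069) (nat_lit 11) nil nil)) nil) nil))) (node (nat_lit 4) (nat_lit 0)
  (nat_lit 8) (node (nat_lit 0) (nat_lit 0) (nat_lit 9) (node (nat_lit 4) (nat_lit 0) (nat_lit 10)
  (node (nat_lit 5) (nat_lit 79804) (nat_lit 11) (node (nat_lit 6) (nat_lit 79804) (nat_lit 12)
  (node (nat_lit 4) (nat_lit 79804) (nat_lit 13) (node (nat_lit 5) (nat_lit 79804) (nat_lit 14)
  nil (node (nat_lit 6) (nat_lit 79804) (nat_lit 14) (node (nat_lit 5) (nat_lit 79804) (nat_lit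
  15) nil nil) nil)) (node (nat_lit 5) (nat_lit 79804) (nat_lit 13) (node (nat_lit 4) (nat_lit
  79804) (nat_lit 14) (node (nat_lit 5) (nat_lit 79804) (nat_lit 15) (node (nat_lit 6) (nat_lit
  79961) (nat_lit 16) (node (nat_lit 4) (nat_lit 82729) (nat_lit 17) nil nil) nil) nil) nil) nil))
  (node (nat_lit 4) (nat_lit 79804) (nat_lit 12) (node (nat_lit 6) (nat_lit 79804) (nat_lit 13)
  nil nil) (node (nat_lit 0) (nat_lit 82211) (nat_lit 12) nil (node (nat_lit 12) (nat_lit 82211)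
  (nat_lit 12) nil nil)))) (node (nat_lit 6) (nat_lit 79804) (nat_lit 11) (node (nat_lit 5)
  (nat_lit 79804) (nat_lit 12) (node (nat_lit 4) (nat_lit 79804) (nat_lit 13) (node (nat_lit 5)
  (nat_lit 79804) (nat_lit 14) (node (nat_lit 6) (nat_lit 79804) (nat_lit 15) (node (nat_lit 4)
  (nat_lit 79804) (nat_lit 16) (node (nat_lit 5) (nat_lit 82962) (nat_lit 17) nil nil) nil) nil)
  (node (nat_lit 6) (nat_lit 79804) (nat_lit 14) nil nil)) (node (nat_lit 6) (nat_lit 79804)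
  (nat_lit 13) nil nil)) (node (nat_lit 12) (nat_lit 82211) (nat_lit 12) nil nil)) (node (nat_lit
  0) (nat_lit 83017) (nat_lit 11) nil nil))) (node (nat_lit 6) (nat_lit 79804) (nat_lit 10) (node
  (nat_lit 12) (nat_lit 81598) (nat_lit 11) nil nil) (node (nat_lit 5) (nat_lit 79804) (nat_lit
  10) nil (node (nat_lit 0) (nat_lit 80812) (nat_lit 10) nil nil)))) (node (nat_lit 5) (nat_lit 0)
  (nat_lit 9) (node (nat_lit 0) (nat_lit 81695) (nat_lit 10) (node (nat_lit 4) (nat_lit 81695)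
  (nat_lit 11) (node (nat_lit 5) (nat_lit 81695) (nat_lit 12) (node (nat_lit 6) (nat_lit 81695)
  (nat_lit 13) nil (node (nat_lit 4) (nat_lit 81695) (nat_lit 13) nil nil)) nil) nil) nil) nil))
  nil))) (node (nat_lit 0) (nat_lit 0) (nat_lit 7) (node (nat_lit 6) (nat_lit 74853) (nat_lit 8)
  (node (nat_lit 4) (nat_lit 74853) (nat_lit 9) (node (nat_lit 5) (nat_lit 74853) (nat_lit 10)
  (node (nat_lit 4) (nat_lit 74853) (nat_lit 11) (node (nat_lit 6) (nat_lit 74853) (nat_lit 12)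
  (node (nat_lit 5) (nat_lit 74853) (nat_lit 13) (node (nat_lit 6) (nat_lit 74853) (nat_lit 14)
  nil (node (nat_lit 4) (nat_lit 74973) (nat_lit 14) (node (nat_lit 5) (nat_lit 78066) (nat_lit
  15) nil nil) nil)) (node (nat_lit 4) (nat_lit 74853) (nat_lit 13) nil nil)) nil) (node (nat_lit
  6) (nat_lit 74853) (nat_lit 11) (node (nat_lit 5) (nat_lit 74853) (nat_lit 12) (node (nat_lit 4)
  (nat_lit 74853) (nat_lit 13) (node (nat_lit 5) (nat_lit 75108) (nat_lit 14) (node (nat_lit 6)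
  (nat_lit 76794) (nat_lit 15) nil nil) (node (nat_lit 6) (nat_lit 74853) (nat_lit 14) nil nil))
  nil) (node (nat_lit 4) (nat_lit 74853) (nat_lit 12) nil nil)) nil)) (node (nat_lit 6) (nat_lit
  74853) (nat_lit 10) (node (nat_lit 5) (nat_lit 74853) (nat_lit 11) (node (nat_lit 4) (nat_lit
  74853) (nat_lit 12) (node (nat_lit 5) (nat_lit 74853) (nat_lit 13) (node (nat_lit 6) (nat_lit
  75108) (nat_lit 14) (node (nat_lit 4) (nat_lit 78273) (nat_lit 15) (node (nat_lit 5) (nat_lit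
  81046) (nat_lit 16) (node (nat_lit 4) (nat_lit 81200) (nat_lit 17) nil nil) nil) nil) nil) (node
  (nat_lit 6) (nat_lit 74853) (nat_lit 13) nil nil)) nil) nil) nil)) (node (nat_lit 5) (nat_lit
  74853) (nat_lit 9) (node (nat_lit 4) (nat_lit 74853) (nat_lit 10) (node (nat_lit 5) (nat_lit
  74853) (nat_lit 11) (node (nat_lit 6) (nat_lit 74853) (nat_lit 12) (node (nat_lit 4) (nat_lit
  74853) (nat_lit 13) (node (nat_lit 6) (nat_lit 74853) (nat_lit 14) nil (node (nat_lit 5)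
  (nat_lit 74853) (nat_lit 14) (node (nat_lit 4) (nat_lit 74322) (nat_lit 15) nil nil) nil)) (node
  (nat_lit 5) (nat_lit 74853) (nat_lit 13) nil nil)) nil) (node (nat_lit 6) (nat_lit 74853)
  (nat_lit 11) (node (nat_lit 5) (nat_lit 74853) (nat_lit 12) (node (nat_lit 6) (nat_lit 74853)
  (nat_lit 13) (node (nat_lit 4) (nat_lit 74853) (nat_lit 14) nil nil) nil) (node (nat_lit 4)
  (nat_lit 74853) (nat_lit 12) (node (nat_lit 5) (nat_lit 74853) (nat_lit 13) (node (nat_lit 6)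
  (nat_lit 74853) (nat_lit 14) nil nil) nil) nil)) nil)) (node (nat_lit 6) (nat_lit 74853)
  (nat_lit 10) (node (nat_lit 4) (nat_lit 74853) (nat_lit 11) (node (nat_lit 5) (nat_lit 74853)
  (nat_lit 12) nil nil) nil) nil)) (node (nat_lit 10) (nat_lit 80506) (nat_lit 9) nil nil))) (node
  (nat_lit 5) (nat_lit 74743) (nat_lit 8) (node (nat_lit 6) (nat_lit 74816) (nat_lit 9) (node
  (nat_lit 4) (nat_lit 74816) (nat_lit 10) (node (nat_lit 6) (nat_lit 74816) (nat_lit 11) (node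
  (nat_lit 5) (nat_lit 74816) (nat_lit 12) (node (nat_lit 4) (nat_lit 74816) (nat_lit 13) (node
  (nat_lit 5) (nat_lit 74816) (nat_lit 14) (node (nat_lit 6) (nat_lit 79137) (nat_lit 15) (node
  (nat_lit 4) (nat_lit 79538) (nat_lit 16) (node (nat_lit 5) (nat_lit 80242) (nat_lit 17) nil nil)
  nil) nil) nil) (node (nat_lit 6) (nat_lit 74816) (nat_lit 13) nil nil)) nil) (node (nat_lit 5)
  (nat_lit 74816) (nat_lit 11) (node (nat_lit 4) (nat_lit 74816) (nat_lit 12) (node (nat_lit 6)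
  (nat_lit 74816) (nat_lit 13) nil nil) (node (nat_lit 6) (nat_lit 74816) (nat_lit 12) nil nil))
  nil)) (node (nat_lit 5) (nat_lit 74816) (nat_lit 10) (node (nat_lit 4) (nat_lit 74816) (nat_lit
  11) (node (nat_lit 6) (nat_lit 74816) (nat_lit 12) nil (node (nat_lit 5) (nat_lit 74816)
  (nat_lit 12) (node (nat_lit 6) (nat_lit 74816) (nat_lit 13) (node (nat_lit 4) (nat_lit 75072)
  (nat_lit 14) (node (nat_lit 5) (nat_lit 76758) (nat_lit 15) (node (nat_lit 4) (nat_lit 78965)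
  (nat_lit 16) nil nil) nil) nil) nil) nil)) nil) nil)) (node (nat_lit 4) (nat_lit 75085) (nat_lit
  9) (node (nat_lit 6) (nat_lit 75227) (nat_lit 10) (node (nat_lit 5) (nat_lit 75285) (nat_lit 11)
  (node (nat_lit 6) (nat_lit 75285) (nat_lit 12) (node (nat_lit 4) (nat_lit 75285) (nat_lit 13)
  nil nil) (node (nat_lit 4) (nat_lit 75285) (nat_lit 12) (node (nat_lit 5) (nat_lit 75285)
  (nat_lit 13) (node (nat_lit 6) (nat_lit 75160) (nat_lit 14) (node (nat_lit 4) (nat_lit 78839)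
  (nat_lit 15) nil nil) nil) nil) nil)) (node (nat_lit 4) (nat_lit 75227) (nat_lit 11) (node
  (nat_lit 5) (nat_lit 75227) (nat_lit 12) (node (nat_lit 6) (nat_lit 75227) (nat_lit 13) (node
  (nat_lit 5) (nat_lit 75010) (nat_lit 14) (node (nat_lit 4) (nat_lit 78050) (nat_lit 15) nil nil)
  nil) (node (nat_lit 4) (nat_lit 75227) (nat_lit 13) (node (nat_lit 6) (nat_lit 75227) (nat_lit
  14) nil nil) nil)) nil) nil)) (node (nat_lit 5) (nat_lit 75130) (nat_lit 10) (node (nat_lit 6)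
  (nat_lit 75130) (nat_lit 11) (node (nat_lit 4) (nat_lit 75130) (nat_lit 12) nil nil) nil) nil))
  (node (nat_lit 10) (nat_lit 76308) (nat_lit 9) nil nil))) (node (nat_lit 4) (nat_lit 74923)
  (nat_lit 8) (node (nat_lit 6) (nat_lit 75204) (nat_lit 9) (node (nat_lit 5) (nat_lit 75262)
  (nat_lit 10) (node (nat_lit 4) (nat_lit 75262) (nat_lit 11) (node (nat_lit 5) (nat_lit 75262)
  (nat_lit 12) (node (nat_lit 6) (nat_lit 75262) (nat_lit 13) (node (nat_lit 4) (nat_lit 75262)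
  (nat_lit 14) (node (nat_lit 5) (nat_lit 78910) (nat_lit 15) (node (nat_lit 4) (nat_lit 79098)
  (nat_lit 16) (node (nat_lit 10) (nat_lit 14161) (nat_lit 17) nil nil) nil) nil) (node (nat_lit
  5) (nat_lit 75262) (nat_lit 14) nil nil)) nil) (node (nat_lit 6) (nat_lit 75262) (nat_lit 12)
  nil nil)) (node (nat_lit 6) (nat_lit 75262) (nat_lit 11) (node (nat_lit 4) (nat_lit 75262)
  (nat_lit 12) (node (nat_lit 5) (nat_lit 75262) (nat_lit 13) (node (nat_lit 4) (nat_lit 75262)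
  (nat_lit 14) nil nil) (node (nat_lit 6) (nat_lit 75262) (nat_lit 13) nil nil)) nil) nil)) (node
  (nat_lit 4) (nat_lit 75204) (nat_lit 10) (node (nat_lit 5) (nat_lit 75204) (nat_lit 11) (node
  (nat_lit 6) (nat_lit 75204) (nat_lit 12) nil nil) nil) nil)) (node (nat_lit 5) (nat_lit 75116)
  (nat_lit 9) (node (nat_lit 6) (nat_lit 75116) (nat_lit 10) (node (nat_lit 5) (nat_lit 75116)
  (nat_lit 11) (node (nat_lit 4) (nat_lit 75116) (nat_lit 12) (node (nat_lit 5) (nat_lit 75116)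
  (nat_lit 13) (node (nat_lit 6) (nat_lit 75255) (nat_lit 14) (node (nat_lit 4) (nat_lit 78445)
  (nat_lit 15) (node (nat_lit 5) (nat_lit 79631) (nat_lit 16) (node (nat_lit 4) (nat_lit 79785)
  (nat_lit 17) nil nil) nil) nil) nil) (node (nat_lit 6) (nat_lit 75116) (nat_lit 13) (node
  (nat_lit 4) (nat_lit 75116) (nat_lit 14) nil nil) nil)) nil) (node (nat_lit 4) (nat_lit 75116)
  (nat_lit 11) (node (nat_lit 6) (nat_lit 75116) (nat_lit 12) (node (nat_lit 5) (nat_lit 75116)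
  (nat_lit 13) nil nil) (node (nat_lit 5) (nat_lit 75116) (nat_lit 12) (node (nat_lit 4) (nat_lit
  75116) (nat_lit 13) nil nil) nil)) nil)) (node (nat_lit 4) (nat_lit 75116) (nat_lit 10) (node
  (nat_lit 6) (nat_lit 75116) (nat_lit 11) (node (nat_lit 5) (nat_lit 75116) (nat_lit 12) nil nil)
  nil) nil)) nil)) (node (nat_lit 0) (nat_lit 76253) (nat_lit 8) nil nil)))) nil))

noncomputable def t219 : Tr :=
  (node (nat_lit 5) (nat_lit 0) (nat_lit 7) (node (nat_lit 0) (nat_lit 0) (nat_lit 8) (node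
  (nat_lit 6) (nat_lit 0) (nat_lit 9) (node (nat_lit 5) (nat_lit 133816) (nat_lit 10) (node
  (nat_lit 4) (nat_lit 133638) (nat_lit 11) (node (nat_lit 6) (nat_lit 133638) (nat_lit 12) (node
  (nat_lit 4) (nat_lit 133638) (nat_lit 13) (node (nat_lit 5) (nat_lit 133638) (nat_lit 14) (node
  (nat_lit 6) (nat_lit 133638) (nat_lit 15) (node (nat_lit 5) (nat_lit 138403) (nat_lit 16) (node
  (nat_lit 4) (nat_lit 142123) (nat_lit 17) (node (nat_lit 6) (nat_lit 143602) (nat_lit 18) nil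
  nil) nil) nil) nil) nil) (node (nat_lit 5) (nat_lit 133638) (nat_lit 13) (node (nat_lit 6)
  (nat_lit 133638) (nat_lit 14) nil nil) nil)) (node (nat_lit 5) (nat_lit 134096) (nat_lit 12)
  (node (nat_lit 6) (nat_lit 134386) (nat_lit 13) (node (nat_lit 5) (nat_lit 134386) (nat_lit 14)
  (node (nat_lit 4) (nat_lit 134386) (nat_lit 15) (node (nat_lit 6) (nat_lit 137135) (nat_lit 16)
  (node (nat_lit 5) (nat_lit 136670) (nat_lit 17) nil nil) nil) nil) (node (nat_lit 4) (nat_lit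
  134386) (nat_lit 14) nil nil)) nil) nil)) (node (nat_lit 6) (nat_lit 134701) (nat_lit 11) (node
  (nat_lit 4) (nat_lit 135217) (nat_lit 12) (node (nat_lit 5) (nat_lit 135217) (nat_lit 13) (node
  (nat_lit 6) (nat_lit 135217) (nat_lit 14) (node (nat_lit 5) (nat_lit 135470) (nat_lit 15) (node
  (nat_lit 4) (nat_lit 138528) (nat_lit 16) (node (nat_lit 6) (nat_lit 141020) (nat_lit 17) nil
  nil) nil) nil) (node (nat_lit 4) (nat_lit 135217) (nat_lit 14) (node (nat_lit 6) (nat_lit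
  135217) (nat_lit 15) (node (nat_lit 5) (nat_lit 134198) (nat_lit 16) nil nil) nil) nil)) (node
  (nat_lit 6) (nat_lit 135217) (nat_lit 13) (node (nat_lit 5) (nat_lit 135217) (nat_lit 14) (node
  (nat_lit 4) (nat_lit 135262) (nat_lit 15) (node (nat_lit 5) (nat_lit 137841) (nat_lit 16) nil
  nil) nil) nil) nil)) (node (nat_lit 11) (nat_lit 145613) (nat_lit 12) nil nil)) nil)) (node
  (nat_lit 4) (nat_lit 133830) (nat_lit 10) (node (nat_lit 6) (nat_lit 134179) (nat_lit 11) (node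
  (nat_lit 5) (nat_lit 134179) (nat_lit 12) (node (nat_lit 4) (nat_lit 134179) (nat_lit 13) (node
  (nat_lit 5) (nat_lit 134179) (nat_lit 14) (node (nat_lit 6) (nat_lit 134319) (nat_lit 15) (node
  (nat_lit 5) (nat_lit 136643) (nat_lit 16) (node (nat_lit 4) (nat_lit 136178) (nat_lit 17) (node
  (nat_lit 6) (nat_lit 136720) (nat_lit 18) (node (nat_lit 5) (nat_lit 136437) (nat_lit 19) nil
  nil) nil) nil) nil) nil) (node (nat_lit 6) (nat_lit 134179) (nat_lit 14) nil nil)) (node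
  (nat_lit 6) (nat_lit 134179) (nat_lit 13) (node (nat_lit 4) (nat_lit 134179) (nat_lit 14) (node
  (nat_lit 5) (nat_lit 134179) (nat_lit 15) nil nil) nil) nil)) nil) (node (nat_lit 5) (nat_lit
  133830) (nat_lit 11) (node (nat_lit 6) (nat_lit 133830) (nat_lit 12) (node (nat_lit 4) (nat_lit
  133830) (nat_lit 13) (node (nat_lit 6) (nat_lit 133830) (nat_lit 14) nil nil) (node (nat_lit 5)
  (nat_lit 133830) (nat_lit 13) nil nil)) (node (nat_lit 4) (nat_lit 133830) (nat_lit 12) (node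
  (nat_lit 6) (nat_lit 133830) (nat_lit 13) (node (nat_lit 4) (nat_lit 133830) (nat_lit 14) (node
  (nat_lit 5) (nat_lit 133830) (nat_lit 15) (node (nat_lit 6) (nat_lit 136337) (nat_lit 16) nil
  nil) nil) (node (nat_lit 5) (nat_lit 133830) (nat_lit 14) nil nil)) nil) nil)) (node (nat_lit
  11) (nat_lit 142932) (nat_lit 11) nil nil))) (node (nat_lit 11) (nat_lit 146293) (nat_lit 10)
  (node (nat_lit 4) (nat_lit 146293) (nat_lit 11) (node (nat_lit 6) (nat_lit 146293) (nat_lit 12)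
  (node (nat_lit 4) (nat_lit 146293) (nat_lit 13) (node (nat_lit 5) (nat_lit 146293) (nat_lit 14)
  (node (nat_lit 6) (nat_lit 146293) (nat_lit 15) (node (nat_lit 5) (nat_lit 146293) (nat_lit 16)
  (node (nat_lit 4) (nat_lit 146293) (nat_lit 17) (node (nat_lit 6) (nat_lit 147577) (nat_lit 18)
  nil nil) nil) nil) nil) nil) nil) nil) (node (nat_lit 5) (nat_lit 146293) (nat_lit 11) (node
  (nat_lit 6) (nat_lit 146293) (nat_lit 12) nil nil) nil)) (node (nat_lit 0) (nat_lit 139695)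
  (nat_lit 10) nil nil)))) (node (nat_lit 4) (nat_lit 0) (nat_lit 9) (node (nat_lit 6) (nat_lit
  133848) (nat_lit 10) (node (nat_lit 5) (nat_lit 133757) (nat_lit 11) (node (nat_lit 4) (nat_lit
  133908) (nat_lit 12) (node (nat_lit 6) (nat_lit 133908) (nat_lit 13) (node (nat_lit 4) (nat_lit
  133908) (nat_lit 14) (node (nat_lit 5) (nat_lit 133908) (nat_lit 15) (node (nat_lit 6) (nat_lit
  136271) (nat_lit 16) (node (nat_lit 5) (nat_lit 139075) (nat_lit 17) (node (nat_lit 4) (nat_lit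
  141353) (nat_lit 18) (node (nat_lit 6) (nat_lit 142507) (nat_lit 19) nil nil) nil) nil) nil)
  nil) nil) (node (nat_lit 5) (nat_lit 133908) (nat_lit 13) (node (nat_lit 6) (nat_lit 133908)
  (nat_lit 14) (node (nat_lit 5) (nat_lit 134371) (nat_lit 15) (node (nat_lit 4) (nat_lit 133858)
  (nat_lit 16) (node (nat_lit 6) (nat_lit 134553) (nat_lit 17) (node (nat_lit 5) (nat_lit 134189)
  (nat_lit 18) nil nil) nil) nil) nil) nil) nil)) (node (nat_lit 6) (nat_lit 133757) (nat_lit 12)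
  (node (nat_lit 4) (nat_lit 133757) (nat_lit 13) (node (nat_lit 5) (nat_lit 133757) (nat_lit 14)
  (node (nat_lit 6) (nat_lit 134009) (nat_lit 15) (node (nat_lit 5) (nat_lit 135967) (nat_lit 16)
  (node (nat_lit 4) (nat_lit 137901) (nat_lit 17) (node (nat_lit 6) (nat_lit 139216) (nat_lit 18)
  (node (nat_lit 5) (nat_lit 140822) (nat_lit 19) nil nil) nil) nil) nil) (node (nat_lit 4)
  (nat_lit 133757) (nat_lit 15) nil nil)) (node (nat_lit 6) (nat_lit 133757) (nat_lit 14) nil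
  nil)) nil) nil)) (node (nat_lit 4) (nat_lit 134349) (nat_lit 11) (node (nat_lit 5) (nat_lit
  134349) (nat_lit 12) (node (nat_lit 6) (nat_lit 134349) (nat_lit 13) (node (nat_lit 5) (nat_lit
  134349) (nat_lit 14) (node (nat_lit 4) (nat_lit 134462) (nat_lit 15) (node (nat_lit 6) (nat_lit
  136571) (nat_lit 16) (node (nat_lit 5) (nat_lit 139420) (nat_lit 17) nil nil) nil) nil) (node
  (nat_lit 4) (nat_lit 134349) (nat_lit 14) nil nil)) (node (nat_lit 4) (nat_lit 134349) (nat_lit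
  13) (node (nat_lit 6) (nat_lit 134349) (nat_lit 14) (node (nat_lit 5) (nat_lit 134349) (nat_lit
  15) nil nil) nil) nil)) nil) (node (nat_lit 11) (nat_lit 142950) (nat_lit 11) nil nil))) (node
  (nat_lit 5) (nat_lit 133415) (nat_lit 10) (node (nat_lit 4) (nat_lit 133897) (nat_lit 11) (node
  (nat_lit 6) (nat_lit 133404) (nat_lit 12) (node (nat_lit 5) (nat_lit 133458) (nat_lit 13) (node
  (nat_lit 6) (nat_lit 133458) (nat_lit 14) (node (nat_lit 4) (nat_lit 132757) (nat_lit 15) (node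
  (nat_lit 5) (nat_lit 134715) (nat_lit 16) nil (node (nat_lit 6) (nat_lit 131849) (nat_lit 16)
  nil nil)) nil) (node (nat_lit 4) (nat_lit 133458) (nat_lit 14) nil nil)) (node (nat_lit 4)
  (nat_lit 133364) (nat_lit 13) (node (nat_lit 5) (nat_lit 133364) (nat_lit 14) (node (nat_lit 6)
  (nat_lit 133909) (nat_lit 15) (node (nat_lit 5) (nat_lit 138683) (nat_lit 16) (node (nat_lit 4)
  (nat_lit 142099) (nat_lit 17) nil nil) nil) nil) nil) nil)) (node (nat_lit 11) (nat_lit 144809)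
  (nat_lit 12) nil nil)) (node (nat_lit 6) (nat_lit 133415) (nat_lit 11) (node (nat_lit 4)
  (nat_lit 133415) (nat_lit 12) (node (nat_lit 5) (nat_lit 133415) (nat_lit 13) (node (nat_lit 4)
  (nat_lit 133415) (nat_lit 14) nil nil) (node (nat_lit 6) (nat_lit 133415) (nat_lit 13) nil nil))
  (node (nat_lit 5) (nat_lit 133415) (nat_lit 12) (node (nat_lit 4) (nat_lit 133415) (nat_lit 13)
  nil nil) nil)) (node (nat_lit 11) (nat_lit 142516) (nat_lit 11) nil nil))) (node (nat_lit 11)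
  (nat_lit 145993) (nat_lit 10) (node (nat_lit 5) (nat_lit 145993) (nat_lit 11) (node (nat_lit 4)
  (nat_lit 145993) (nat_lit 12) nil nil) (node (nat_lit 6) (nat_lit 145993) (nat_lit 11) nil nil))
  (node (nat_lit 0) (nat_lit 139569) (nat_lit 10) nil nil)))) (node (nat_lit 5) (nat_lit 0)
  (nat_lit 9) (node (nat_lit 6) (nat_lit 133981) (nat_lit 10) (node (nat_lit 4) (nat_lit 134844)
  (nat_lit 11) (node (nat_lit 6) (nat_lit 134844) (nat_lit 12) (node (nat_lit 5) (nat_lit 134844)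
  (nat_lit 13) (node (nat_lit 4) (nat_lit 134844) (nat_lit 14) (node (nat_lit 5) (nat_lit 134844)
  (nat_lit 15) (node (nat_lit 6) (nat_lit 137160) (nat_lit 16) (node (nat_lit 5) (nat_lit 138171)
  (nat_lit 17) (node (nat_lit 4) (nat_lit 137508) (nat_lit 18) nil nil) nil) nil) nil) nil) nil)
  (node (nat_lit 5) (nat_lit 135089) (nat_lit 12) (node (nat_lit 6) (nat_lit 135089) (nat_lit 13)
  (node (nat_lit 5) (nat_lit 135089) (nat_lit 14) (node (nat_lit 4) (nat_lit 134820) (nat_lit 15)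
  (node (nat_lit 6) (nat_lit 138037) (nat_lit 16) (node (nat_lit 5) (nat_lit 140698) (nat_lit 17)
  nil nil) nil) nil) nil) nil) nil)) (node (nat_lit 5) (nat_lit 134303) (nat_lit 11) (node
  (nat_lit 4) (nat_lit 134303) (nat_lit 12) (node (nat_lit 6) (nat_lit 134303) (nat_lit 13) (node
  (nat_lit 4) (nat_lit 134303) (nat_lit 14) (node (nat_lit 5) (nat_lit 134303) (nat_lit 15) (node
  (nat_lit 6) (nat_lit 136265) (nat_lit 16) nil nil) nil) (node (nat_lit 5) (nat_lit 134303)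
  (nat_lit 14) nil nil)) (node (nat_lit 5) (nat_lit 134303) (nat_lit 13) nil nil)) (node (nat_lit
  11) (nat_lit 143656) (nat_lit 12) nil nil)) (node (nat_lit 11) (nat_lit 137554) (nat_lit 11) nil
  nil))) (node (nat_lit 4) (nat_lit 134141) (nat_lit 10) (node (nat_lit 6) (nat_lit 134905)
  (nat_lit 11) (node (nat_lit 4) (nat_lit 135058) (nat_lit 12) (node (nat_lit 5) (nat_lit 135096)
  (nat_lit 13) (node (nat_lit 6) (nat_lit 135096) (nat_lit 14) (node (nat_lit 5) (nat_lit 135096)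
  (nat_lit 15) (node (nat_lit 4) (nat_lit 139639) (nat_lit 16) (node (nat_lit 6) (nat_lit 141361)
  (nat_lit 17) (node (nat_lit 5) (nat_lit 143984) (nat_lit 18) nil nil) nil) nil) nil) (node
  (nat_lit 4) (nat_lit 135096) (nat_lit 14) nil nil)) nil) (node (nat_lit 5) (nat_lit 135190)
  (nat_lit 12) (node (nat_lit 4) (nat_lit 135190) (nat_lit 13) (node (nat_lit 5) (nat_lit 135190)
  (nat_lit 14) (node (nat_lit 6) (nat_lit 135190) (nat_lit 15) (node (nat_lit 5) (nat_lit 138584)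
  (nat_lit 16) (node (nat_lit 4) (nat_lit 138119) (nat_lit 17) nil nil) nil) nil) nil) (node
  (nat_lit 6) (nat_lit 135190) (nat_lit 13) nil nil)) nil)) (node (nat_lit 5) (nat_lit 134421)
  (nat_lit 11) (node (nat_lit 6) (nat_lit 134421) (nat_lit 12) (node (nat_lit 4) (nat_lit 134421)
  (nat_lit 13) nil (node (nat_lit 5) (nat_lit 134421) (nat_lit 13) nil nil)) nil) (node (nat_lit
  11) (nat_lit 137713) (nat_lit 11) nil nil))) (node (nat_lit 0) (nat_lit 139239) (nat_lit 10) nil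
  nil))) (node (nat_lit 0) (nat_lit 141300) (nat_lit 9) (node (nat_lit 11) (nat_lit 144955)
  (nat_lit 10) nil (node (nat_lit 5) (nat_lit 141300) (nat_lit 10) nil (node (nat_lit 4) (nat_lit
  141300) (nat_lit 10) nil (node (nat_lit 6) (nat_lit 141300) (nat_lit 10) nil nil)))) nil))))
  (node (nat_lit 6) (nat_lit 0) (nat_lit 8) (node (nat_lit 0) (nat_lit 0) (nat_lit 9) (node
  (nat_lit 6) (nat_lit 0) (nat_lit 10) (node (nat_lit 5) (nat_lit 134707) (nat_lit 11) (node
  (nat_lit 4) (nat_lit 134707) (nat_lit 12) (node (nat_lit 6) (nat_lit 134707) (nat_lit 13) (node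
  (nat_lit 4) (nat_lit 134707) (nat_lit 14) (node (nat_lit 5) (nat_lit 134707) (nat_lit 15) (node
  (nat_lit 6) (nat_lit 134707) (nat_lit 16) (node (nat_lit 5) (nat_lit 139527) (nat_lit 17) (node
  (nat_lit 4) (nat_lit 143290) (nat_lit 18) (node (nat_lit 6) (nat_lit 145113) (nat_lit 19) (node
  (nat_lit 5) (nat_lit 147167) (nat_lit 20) (node (nat_lit 6) (nat_lit 148528) (nat_lit 21) nil
  nil) nil) nil) nil) nil) nil) nil) (node (nat_lit 5) (nat_lit 134707) (nat_lit 14) (node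
  (nat_lit 6) (nat_lit 134707) (nat_lit 15) nil nil) nil)) (node (nat_lit 5) (nat_lit 134707)
  (nat_lit 13) (node (nat_lit 6) (nat_lit 134707) (nat_lit 14) (node (nat_lit 5) (nat_lit 134707)
  (nat_lit 15) (node (nat_lit 4) (nat_lit 134707) (nat_lit 16) (node (nat_lit 6) (nat_lit 137977)
  (nat_lit 17) (node (nat_lit 5) (nat_lit 138228) (nat_lit 18) (node (nat_lit 6) (nat_lit 139567)
  (nat_lit 19) nil nil) nil) nil) nil) (node (nat_lit 4) (nat_lit 134707) (nat_lit 15) nil nil))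
  nil) (node (nat_lit 12) (nat_lit 141204) (nat_lit 13) nil nil))) (node (nat_lit 6) (nat_lit
  134707) (nat_lit 12) (node (nat_lit 4) (nat_lit 134707) (nat_lit 13) (node (nat_lit 5) (nat_lit
  134707) (nat_lit 14) nil (node (nat_lit 6) (nat_lit 134707) (nat_lit 14) nil nil)) nil) (node
  (nat_lit 12) (nat_lit 147071) (nat_lit 12) nil (node (nat_lit 0) (nat_lit 140126) (nat_lit 12)
  nil nil)))) (node (nat_lit 4) (nat_lit 134641) (nat_lit 11) (node (nat_lit 5) (nat_lit 134737)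
  (nat_lit 12) (node (nat_lit 6) (nat_lit 134737) (nat_lit 13) (node (nat_lit 5) (nat_lit 134737)
  (nat_lit 14) (node (nat_lit 4) (nat_lit 134737) (nat_lit 15) (node (nat_lit 6) (nat_lit 134737)
  (nat_lit 16) nil nil) nil) (node (nat_lit 4) (nat_lit 134737) (nat_lit 14) (node (nat_lit 6)
  (nat_lit 134737) (nat_lit 15) nil nil) nil)) (node (nat_lit 4) (nat_lit 134737) (nat_lit 13)
  (node (nat_lit 6) (nat_lit 134737) (nat_lit 14) (node (nat_lit 4) (nat_lit 134737) (nat_lit 15)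
  nil (node (nat_lit 5) (nat_lit 134737) (nat_lit 15) nil nil)) nil) (node (nat_lit 12) (nat_lit
  141234) (nat_lit 13) nil (node (nat_lit 0) (nat_lit 141234) (nat_lit 13) nil nil)))) (node
  (nat_lit 6) (nat_lit 134641) (nat_lit 12) (node (nat_lit 5) (nat_lit 134641) (nat_lit 13) (node
  (nat_lit 4) (nat_lit 134641) (nat_lit 14) nil (node (nat_lit 6) (nat_lit 134641) (nat_lit 14)
  nil nil)) (node (nat_lit 12) (nat_lit 141138) (nat_lit 13) nil nil)) (node (nat_lit 12) (nat_lit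
  143361) (nat_lit 12) nil (node (nat_lit 0) (nat_lit 143361) (nat_lit 12) nil nil)))) (node
  (nat_lit 0) (nat_lit 143645) (nat_lit 11) nil nil))) (node (nat_lit 5) (nat_lit 134337) (nat_lit
  10) (node (nat_lit 12) (nat_lit 144076) (nat_lit 11) (node (nat_lit 6) (nat_lit 144076) (nat_lit
  12) nil nil) (node (nat_lit 6) (nat_lit 134680) (nat_lit 11) (node (nat_lit 5) (nat_lit 134759)
  (nat_lit 12) (node (nat_lit 12) (nat_lit 141256) (nat_lit 13) nil nil) nil) (node (nat_lit 4)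
  (nat_lit 134458) (nat_lit 11) nil nil))) (node (nat_lit 4) (nat_lit 134512) (nat_lit 10) (node
  (nat_lit 6) (nat_lit 134512) (nat_lit 11) (node (nat_lit 4) (nat_lit 134512) (nat_lit 12) nil
  nil) (node (nat_lit 12) (nat_lit 142636) (nat_lit 11) nil nil)) (node (nat_lit 0) (nat_lit
  140960) (nat_lit 10) (node (nat_lit 6) (nat_lit 140960) (nat_lit 11) nil nil) nil)))) (node
  (nat_lit 4) (nat_lit 0) (nat_lit 9) (node (nat_lit 0) (nat_lit 142017) (nat_lit 10) (node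
  (nat_lit 6) (nat_lit 142017) (nat_lit 11) (node (nat_lit 4) (nat_lit 142017) (nat_lit 12) (node
  (nat_lit 5) (nat_lit 142017) (nat_lit 13) (node (nat_lit 6) (nat_lit 142017) (nat_lit 14) (node
  (nat_lit 5) (nat_lit 142017) (nat_lit 15) nil nil) (node (nat_lit 4) (nat_lit 142017) (nat_lit
  14) nil nil)) (node (nat_lit 6) (nat_lit 142017) (nat_lit 13) (node (nat_lit 5) (nat_lit 142017)
  (nat_lit 14) (node (nat_lit 4) (nat_lit 142017) (nat_lit 15) nil nil) (node (nat_lit 13)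
  (nat_lit 147088) (nat_lit 14) nil nil)) (node (nat_lit 0) (nat_lit 146246) (nat_lit 13) nil
  nil))) nil) (node (nat_lit 4) (nat_lit 142017) (nat_lit 11) nil nil)) nil) nil)) nil)) (node
  (nat_lit 0) (nat_lit 0) (nat_lit 7) (node (nat_lit 4) (nat_lit 136753) (nat_lit 8) (node
  (nat_lit 5) (nat_lit 138244) (nat_lit 9) (node (nat_lit 6) (nat_lit 138950) (nat_lit 10) (node
  (nat_lit 4) (nat_lit 138950) (nat_lit 11) (node (nat_lit 6) (nat_lit 138950) (nat_lit 12) (node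
  (nat_lit 5) (nat_lit 138950) (nat_lit 13) (node (nat_lit 4) (nat_lit 139471) (nat_lit 14) (node
  (nat_lit 5) (nat_lit 140759) (nat_lit 15) (node (nat_lit 6) (nat_lit 142315) (nat_lit 16) (node
  (nat_lit 5) (nat_lit 143163) (nat_lit 17) (node (nat_lit 4) (nat_lit 142380) (nat_lit 18) nil
  nil) nil) nil) nil) (node (nat_lit 6) (nat_lit 138950) (nat_lit 14) nil nil)) nil) (node
  (nat_lit 5) (nat_lit 138950) (nat_lit 12) nil nil)) (node (nat_lit 5) (nat_lit 139536) (nat_lit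
  11) (node (nat_lit 4) (nat_lit 140271) (nat_lit 12) (node (nat_lit 6) (nat_lit 140598) (nat_lit
  13) (node (nat_lit 5) (nat_lit 140598) (nat_lit 14) nil (node (nat_lit 4) (nat_lit 140598)
  (nat_lit 14) nil nil)) (node (nat_lit 5) (nat_lit 140271) (nat_lit 13) (node (nat_lit 6)
  (nat_lit 140271) (nat_lit 14) nil nil) nil)) nil) nil)) (node (nat_lit 4) (nat_lit 138704)
  (nat_lit 10) (node (nat_lit 6) (nat_lit 138746) (nat_lit 11) (node (nat_lit 5) (nat_lit 138811)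
  (nat_lit 12) (node (nat_lit 4) (nat_lit 138811) (nat_lit 13) (node (nat_lit 5) (nat_lit 138288)
  (nat_lit 14) (node (nat_lit 6) (nat_lit 140112) (nat_lit 15) (node (nat_lit 5) (nat_lit 141108)
  (nat_lit 16) (node (nat_lit 4) (nat_lit 140053) (nat_lit 17) (node (nat_lit 6) (nat_lit 140474)
  (nat_lit 18) nil nil) nil) nil) nil) nil) nil) (node (nat_lit 4) (nat_lit 138746) (nat_lit 12)
  (node (nat_lit 5) (nat_lit 138746) (nat_lit 13) (node (nat_lit 6) (nat_lit 138746) (nat_lit 14)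
  (node (nat_lit 5) (nat_lit 143763) (nat_lit 15) (node (nat_lit 4) (nat_lit 144304) (nat_lit 16)
  nil nil) nil) nil) nil) nil)) nil) (node (nat_lit 10) (nat_lit 142821) (nat_lit 10) nil nil)))
  (node (nat_lit 6) (nat_lit 138549) (nat_lit 9) (node (nat_lit 5) (nat_lit 138192) (nat_lit 10)
  (node (nat_lit 4) (nat_lit 138171) (nat_lit 11) (node (nat_lit 5) (nat_lit 138235) (nat_lit 12)
  (node (nat_lit 6) (nat_lit 137769) (nat_lit 13) (node (nat_lit 5) (nat_lit 138291) (nat_lit 14)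
  (node (nat_lit 4) (nat_lit 137197) (nat_lit 15) (node (nat_lit 6) (nat_lit 137851) (nat_lit 16)
  nil nil) nil) (node (nat_lit 4) (nat_lit 137769) (nat_lit 14) nil nil)) nil) (node (nat_lit 6)
  (nat_lit 138171) (nat_lit 12) (node (nat_lit 4) (nat_lit 138171) (nat_lit 13) (node (nat_lit 5)
  (nat_lit 138171) (nat_lit 14) (node (nat_lit 6) (nat_lit 140155) (nat_lit 15) (node (nat_lit 5)
  (nat_lit 142887) (nat_lit 16) (node (nat_lit 4) (nat_lit 145136) (nat_lit 17) nil nil) nil) nil)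
  nil) nil) nil)) (node (nat_lit 6) (nat_lit 138257) (nat_lit 11) (node (nat_lit 4) (nat_lit
  138200) (nat_lit 12) (node (nat_lit 5) (nat_lit 137734) (nat_lit 13) (node (nat_lit 6) (nat_lit
  137894) (nat_lit 14) (node (nat_lit 5) (nat_lit 139520) (nat_lit 15) (node (nat_lit 4) (nat_lit
  141079) (nat_lit 16) (node (nat_lit 6) (nat_lit 142195) (nat_lit 17) nil nil) nil) nil) (node
  (nat_lit 4) (nat_lit 137734) (nat_lit 14) nil nil)) (node (nat_lit 6) (nat_lit 138200) (nat_lit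
  13) (node (nat_lit 5) (nat_lit 138200) (nat_lit 14) nil nil) nil)) nil) nil)) (node (nat_lit 4)
  (nat_lit 139994) (nat_lit 10) (node (nat_lit 5) (nat_lit 139994) (nat_lit 11) (node (nat_lit 6)
  (nat_lit 139994) (nat_lit 12) nil nil) nil) nil)) (node (nat_lit 10) (nat_lit 147142) (nat_lit
  9) nil nil))) (node (nat_lit 6) (nat_lit 136701) (nat_lit 8) (node (nat_lit 4) (nat_lit 138700)
  (nat_lit 9) (node (nat_lit 5) (nat_lit 139606) (nat_lit 10) (node (nat_lit 4) (nat_lit 139606)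
  (nat_lit 11) (node (nat_lit 6) (nat_lit 139606) (nat_lit 12) (node (nat_lit 5) (nat_lit 139606)
  (nat_lit 13) (node (nat_lit 6) (nat_lit 139606) (nat_lit 14) (node (nat_lit 4) (nat_lit 142775)
  (nat_lit 15) nil nil) (node (nat_lit 4) (nat_lit 140126) (nat_lit 14) (node (nat_lit 5) (nat_lit
  141414) (nat_lit 15) nil nil) nil)) (node (nat_lit 4) (nat_lit 139606) (nat_lit 13) nil nil))
  nil) (node (nat_lit 6) (nat_lit 139936) (nat_lit 11) (node (nat_lit 5) (nat_lit 139936) (nat_lit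
  12) (node (nat_lit 4) (nat_lit 139936) (nat_lit 13) (node (nat_lit 6) (nat_lit 139936) (nat_lit
  14) (node (nat_lit 10) (nat_lit 52392) (nat_lit 15) nil nil) (node (nat_lit 5) (nat_lit 139936)
  (nat_lit 14) nil nil)) nil) (node (nat_lit 4) (nat_lit 139936) (nat_lit 12) nil nil)) nil))
  (node (nat_lit 6) (nat_lit 139601) (nat_lit 10) (node (nat_lit 5) (nat_lit 139601) (nat_lit 11)
  (node (nat_lit 4) (nat_lit 139601) (nat_lit 12) (node (nat_lit 5) (nat_lit 139601) (nat_lit 13)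
  (node (nat_lit 6) (nat_lit 140123) (nat_lit 14) (node (nat_lit 5) (nat_lit 142251) (nat_lit 15)
  (node (nat_lit 4) (nat_lit 141419) (nat_lit 16) (node (nat_lit 6) (nat_lit 141951) (nat_lit 17)
  nil nil) nil) nil) nil) nil) (node (nat_lit 6) (nat_lit 139601) (nat_lit 12) (node (nat_lit 4)
  (nat_lit 139601) (nat_lit 13) (node (nat_lit 5) (nat_lit 139601) (nat_lit 14) (node (nat_lit 6)
  (nat_lit 140215) (nat_lit 15) (node (nat_lit 5) (nat_lit 140181) (nat_lit 16) (node (nat_lit 4)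
  (nat_lit 140603) (nat_lit 17) (node (nat_lit 6) (nat_lit 141458) (nat_lit 18) nil nil) nil) nil)
  nil) nil) nil) nil)) nil) nil)) (node (nat_lit 5) (nat_lit 138232) (nat_lit 9) (node (nat_lit 4)
  (nat_lit 139513) (nat_lit 10) (node (nat_lit 5) (nat_lit 140323) (nat_lit 11) (node (nat_lit 6)
  (nat_lit 140323) (nat_lit 12) (node (nat_lit 4) (nat_lit 140323) (nat_lit 13) (node (nat_lit 5)
  (nat_lit 140323) (nat_lit 14) nil (node (nat_lit 6) (nat_lit 140323) (nat_lit 14) nil nil))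
  (node (nat_lit 5) (nat_lit 140323) (nat_lit 13) (node (nat_lit 4) (nat_lit 140323) (nat_lit 14)
  (node (nat_lit 6) (nat_lit 143618) (nat_lit 15) nil nil) nil) nil)) nil) (node (nat_lit 6)
  (nat_lit 138961) (nat_lit 11) (node (nat_lit 4) (nat_lit 138961) (nat_lit 12) (node (nat_lit 5)
  (nat_lit 138961) (nat_lit 13) (node (nat_lit 6) (nat_lit 138961) (nat_lit 14) (node (nat_lit 5)
  (nat_lit 143966) (nat_lit 15) (node (nat_lit 4) (nat_lit 144015) (nat_lit 16) nil nil) nil)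
  (node (nat_lit 4) (nat_lit 138961) (nat_lit 14) nil nil)) nil) (node (nat_lit 5) (nat_lit
  138961) (nat_lit 12) nil nil)) nil)) (node (nat_lit 6) (nat_lit 139564) (nat_lit 10) (node
  (nat_lit 4) (nat_lit 139564) (nat_lit 11) (node (nat_lit 5) (nat_lit 139564) (nat_lit 12) (node
  (nat_lit 6) (nat_lit 139564) (nat_lit 13) (node (nat_lit 5) (nat_lit 139564) (nat_lit 14) (node
  (nat_lit 4) (nat_lit 142938) (nat_lit 15) (node (nat_lit 6) (nat_lit 145431) (nat_lit 16) nil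
  nil) nil) nil) nil) nil) nil) (node (nat_lit 10) (nat_lit 142810) (nat_lit 10) nil nil))) nil))
  (node (nat_lit 5) (nat_lit 136476) (nat_lit 8) (node (nat_lit 4) (nat_lit 138244) (nat_lit 9)
  (node (nat_lit 6) (nat_lit 138897) (nat_lit 10) (node (nat_lit 5) (nat_lit 139377) (nat_lit 11)
  (node (nat_lit 6) (nat_lit 139377) (nat_lit 12) (node (nat_lit 4) (nat_lit 139377) (nat_lit 13)
  (node (nat_lit 5) (nat_lit 139377) (nat_lit 14) (node (nat_lit 6) (nat_lit 140451) (nat_lit 15)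
  (node (nat_lit 5) (nat_lit 140417) (nat_lit 16) (node (nat_lit 4) (nat_lit 140840) (nat_lit 17)
  nil nil) nil) nil) (node (nat_lit 6) (nat_lit 139377) (nat_lit 14) nil nil)) nil) (node (nat_lit
  4) (nat_lit 139377) (nat_lit 12) (node (nat_lit 5) (nat_lit 139377) (nat_lit 13) (node (nat_lit
  6) (nat_lit 139898) (nat_lit 14) (node (nat_lit 5) (nat_lit 142027) (nat_lit 15) nil nil) nil)
  nil) nil)) (node (nat_lit 4) (nat_lit 138875) (nat_lit 11) (node (nat_lit 5) (nat_lit 138875)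
  (nat_lit 12) (node (nat_lit 6) (nat_lit 138875) (nat_lit 13) (node (nat_lit 5) (nat_lit 139397)
  (nat_lit 14) (node (nat_lit 4) (nat_lit 144330) (nat_lit 15) (node (nat_lit 6) (nat_lit 145923)
  (nat_lit 16) nil (node (nat_lit 5) (nat_lit 145326) (nat_lit 16) nil nil)) nil) (node (nat_lit
  4) (nat_lit 138875) (nat_lit 14) nil nil)) (node (nat_lit 4) (nat_lit 138875) (nat_lit 13) (node
  (nat_lit 6) (nat_lit 138875) (nat_lit 14) nil nil) nil)) nil) nil)) (node (nat_lit 5) (nat_lit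
  139360) (nat_lit 10) (node (nat_lit 6) (nat_lit 139360) (nat_lit 11) (node (nat_lit 4) (nat_lit
  139360) (nat_lit 12) nil nil) nil) (node (nat_lit 10) (nat_lit 142822) (nat_lit 10) nil nil)))
  (node (nat_lit 6) (nat_lit 138116) (nat_lit 9) (node (nat_lit 4) (nat_lit 138423) (nat_lit 10)
  (node (nat_lit 6) (nat_lit 138423) (nat_lit 11) (node (nat_lit 5) (nat_lit 138423) (nat_lit 12)
  (node (nat_lit 4) (nat_lit 138423) (nat_lit 13) (node (nat_lit 5) (nat_lit 137901) (nat_lit 14)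
  (node (nat_lit 6) (nat_lit 139725) (nat_lit 15) (node (nat_lit 5) (nat_lit 140721) (nat_lit 16)
  (node (nat_lit 4) (nat_lit 139666) (nat_lit 17) (node (nat_lit 6) (nat_lit 140087) (nat_lit 18)
  nil nil) nil) nil) nil) (node (nat_lit 6) (nat_lit 138423) (nat_lit 14) nil nil)) (node (nat_lit
  6) (nat_lit 138423) (nat_lit 13) (node (nat_lit 4) (nat_lit 138423) (nat_lit 14) nil nil) nil))
  nil) (node (nat_lit 5) (nat_lit 138423) (nat_lit 11) (node (nat_lit 4) (nat_lit 138423) (nat_lit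
  12) (node (nat_lit 6) (nat_lit 138423) (nat_lit 13) (node (nat_lit 4) (nat_lit 138423) (nat_lit
  14) (node (nat_lit 5) (nat_lit 142757) (nat_lit 15) nil nil) (node (nat_lit 5) (nat_lit 138423)
  (nat_lit 14) nil nil)) nil) (node (nat_lit 6) (nat_lit 138423) (nat_lit 12) (node (nat_lit 5)
  (nat_lit 138423) (nat_lit 13) (node (nat_lit 4) (nat_lit 138099) (nat_lit 14) (node (nat_lit 6)
  (nat_lit 141275) (nat_lit 15) nil nil) nil) nil) nil)) nil)) (node (nat_lit 5) (nat_lit 138887)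
  (nat_lit 10) (node (nat_lit 4) (nat_lit 138887) (nat_lit 11) (node (nat_lit 6) (nat_lit 138887)
  (nat_lit 12) nil nil) nil) (node (nat_lit 10) (nat_lit 142694) (nat_lit 10) nil nil))) (node
  (nat_lit 10) (nat_lit 148378) (nat_lit 9) nil nil))) (node (nat_lit 0) (nat_lit 147196) (nat_lit
  8) nil nil)))) nil))

noncomputable def t220 : Tr :=
  (node (nat_lit 6) (nat_lit 0) (nat_lit 7) (node (nat_lit 0) (nat_lit 0) (nat_lit 8) (node
  (nat_lit 4) (nat_lit 99164) (nat_lit 9) (node (nat_lit 6) (nat_lit 99164) (nat_lit 10) (node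
  (nat_lit 5) (nat_lit 99164) (nat_lit 11) (node (nat_lit 4) (nat_lit 99164) (nat_lit 12) (node
  (nat_lit 6) (nat_lit 99164) (nat_lit 13) (node (nat_lit 4) (nat_lit 99164) (nat_lit 14) (node
  (nat_lit 5) (nat_lit 99164) (nat_lit 15) (node (nat_lit 6) (nat_lit 103421) (nat_lit 16) (node
  (nat_lit 5) (nat_lit 104794) (nat_lit 17) (node (nat_lit 4) (nat_lit 104794) (nat_lit 18) nil
  nil) nil) nil) nil) nil) (node (nat_lit 5) (nat_lit 99164) (nat_lit 13) (node (nat_lit 6)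
  (nat_lit 99164) (nat_lit 14) (node (nat_lit 5) (nat_lit 99164) (nat_lit 15) (node (nat_lit 4)
  (nat_lit 97459) (nat_lit 16) nil nil) nil) nil) nil)) (node (nat_lit 6) (nat_lit 99164) (nat_lit
  12) (node (nat_lit 4) (nat_lit 99164) (nat_lit 13) (node (nat_lit 5) (nat_lit 99164) (nat_lit
  14) (node (nat_lit 6) (nat_lit 99164) (nat_lit 15) (node (nat_lit 5) (nat_lit 101497) (nat_lit
  16) (node (nat_lit 4) (nat_lit 104032) (nat_lit 17) nil nil) nil) nil) nil) nil) nil)) (node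
  (nat_lit 4) (nat_lit 99164) (nat_lit 11) (node (nat_lit 5) (nat_lit 99164) (nat_lit 12) (node
  (nat_lit 6) (nat_lit 99164) (nat_lit 13) (node (nat_lit 5) (nat_lit 99164) (nat_lit 14) (node
  (nat_lit 4) (nat_lit 99164) (nat_lit 15) (node (nat_lit 5) (nat_lit 102365) (nat_lit 16) (node
  (nat_lit 6) (nat_lit 104029) (nat_lit 17) (node (nat_lit 11) (nat_lit 38552) (nat_lit 18) nil
  nil) nil) nil) nil) (node (nat_lit 4) (nat_lit 99164) (nat_lit 14) nil nil)) (node (nat_lit 4)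
  (nat_lit 99164) (nat_lit 13) (node (nat_lit 6) (nat_lit 99164) (nat_lit 14) nil nil) nil)) nil)
  (node (nat_lit 11) (nat_lit 101098) (nat_lit 11) nil nil))) (node (nat_lit 5) (nat_lit 99164)
  (nat_lit 10) (node (nat_lit 6) (nat_lit 99164) (nat_lit 11) (node (nat_lit 5) (nat_lit 99164)
  (nat_lit 12) (node (nat_lit 4) (nat_lit 99164) (nat_lit 13) (node (nat_lit 6) (nat_lit 99164)
  (nat_lit 14) (node (nat_lit 4) (nat_lit 99164) (nat_lit 15) (node (nat_lit 5) (nat_lit 103627)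
  (nat_lit 16) (node (nat_lit 6) (nat_lit 104794) (nat_lit 17) nil nil) nil) nil) nil) nil) (node
  (nat_lit 4) (nat_lit 99164) (nat_lit 12) nil nil)) (node (nat_lit 4) (nat_lit 99164) (nat_lit
  11) (node (nat_lit 6) (nat_lit 99164) (nat_lit 12) (node (nat_lit 4) (nat_lit 99164) (nat_lit
  13) (node (nat_lit 5) (nat_lit 99164) (nat_lit 14) (node (nat_lit 6) (nat_lit 99164) (nat_lit
  15) (node (nat_lit 5) (nat_lit 103252) (nat_lit 16) (node (nat_lit 4) (nat_lit 104794) (nat_lit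
  17) nil nil) nil) nil) nil) (node (nat_lit 5) (nat_lit 99164) (nat_lit 13) (node (nat_lit 4)
  (nat_lit 99164) (nat_lit 14) (node (nat_lit 5) (nat_lit 99164) (nat_lit 15) (node (nat_lit 6)
  (nat_lit 99973) (nat_lit 16) nil nil) nil) nil) nil)) nil) nil)) (node (nat_lit 11) (nat_lit
  103756) (nat_lit 10) (node (nat_lit 6) (nat_lit 103756) (nat_lit 11) (node (nat_lit 4) (nat_lit
  103756) (nat_lit 12) (node (nat_lit 6) (nat_lit 103756) (nat_lit 13) (node (nat_lit 5) (nat_lit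
  103756) (nat_lit 14) (node (nat_lit 4) (nat_lit 103756) (nat_lit 15) (node (nat_lit 5) (nat_lit
  103756) (nat_lit 16) (node (nat_lit 6) (nat_lit 103756) (nat_lit 17) (node (nat_lit 5) (nat_lit
  104249) (nat_lit 18) (node (nat_lit 4) (nat_lit 103437) (nat_lit 19) nil nil) nil) nil) nil)
  nil) nil) nil) nil) nil) nil))) (node (nat_lit 5) (nat_lit 99164) (nat_lit 9) (node (nat_lit 4)
  (nat_lit 99164) (nat_lit 10) (node (nat_lit 6) (nat_lit 99164) (nat_lit 11) (node (nat_lit 5)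
  (nat_lit 99164) (nat_lit 12) (node (nat_lit 4) (nat_lit 99164) (nat_lit 13) (node (nat_lit 5)
  (nat_lit 99164) (nat_lit 14) (node (nat_lit 6) (nat_lit 99164) (nat_lit 15) (node (nat_lit 5)
  (nat_lit 99973) (nat_lit 16) (node (nat_lit 4) (nat_lit 98642) (nat_lit 17) nil nil) nil) nil)
  nil) (node (nat_lit 6) (nat_lit 99164) (nat_lit 13) (node (nat_lit 4) (nat_lit 99164) (nat_lit
  14) (node (nat_lit 5) (nat_lit 99164) (nat_lit 15) (node (nat_lit 6) (nat_lit 103244) (nat_lit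
  16) (node (nat_lit 5) (nat_lit 104794) (nat_lit 17) nil nil) nil) nil) nil) nil)) (node (nat_lit
  4) (nat_lit 99164) (nat_lit 12) (node (nat_lit 5) (nat_lit 99164) (nat_lit 13) (node (nat_lit 6)
  (nat_lit 99164) (nat_lit 14) (node (nat_lit 5) (nat_lit 99164) (nat_lit 15) (node (nat_lit 4)
  (nat_lit 103021) (nat_lit 16) (node (nat_lit 5) (nat_lit 104794) (nat_lit 17) (node (nat_lit 6)
  (nat_lit 104794) (nat_lit 18) (node (nat_lit 11) (nat_lit 38132) (nat_lit 19) nil nil) nil) nil)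
  nil) nil) nil) nil) nil)) (node (nat_lit 5) (nat_lit 99164) (nat_lit 11) (node (nat_lit 6)
  (nat_lit 99164) (nat_lit 12) nil nil) nil)) (node (nat_lit 6) (nat_lit 99164) (nat_lit 10) (node
  (nat_lit 5) (nat_lit 99164) (nat_lit 11) (node (nat_lit 4) (nat_lit 99164) (nat_lit 12) (node
  (nat_lit 6) (nat_lit 99164) (nat_lit 13) (node (nat_lit 4) (nat_lit 99164) (nat_lit 14) (node
  (nat_lit 5) (nat_lit 99164) (nat_lit 15) (node (nat_lit 6) (nat_lit 103159) (nat_lit 16) (node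
  (nat_lit 5) (nat_lit 104794) (nat_lit 17) nil nil) nil) nil) (node (nat_lit 5) (nat_lit 99164)
  (nat_lit 14) nil nil)) (node (nat_lit 5) (nat_lit 99164) (nat_lit 13) (node (nat_lit 6) (nat_lit
  99164) (nat_lit 14) nil nil) nil)) nil) (node (nat_lit 4) (nat_lit 99164) (nat_lit 11) (node
  (nat_lit 5) (nat_lit 99164) (nat_lit 12) (node (nat_lit 6) (nat_lit 99164) (nat_lit 13) (node
  (nat_lit 5) (nat_lit 99164) (nat_lit 14) (node (nat_lit 4) (nat_lit 99164) (nat_lit 15) (node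
  (nat_lit 5) (nat_lit 102221) (nat_lit 16) (node (nat_lit 6) (nat_lit 104608) (nat_lit 17) nil
  nil) nil) nil) nil) (node (nat_lit 4) (nat_lit 99164) (nat_lit 13) nil nil)) (node (nat_lit 6)
  (nat_lit 99164) (nat_lit 12) nil nil)) nil)) (node (nat_lit 11) (nat_lit 104794) (nat_lit 10)
  (node (nat_lit 6) (nat_lit 104794) (nat_lit 11) (node (nat_lit 5) (nat_lit 104794) (nat_lit 12)
  (node (nat_lit 6) (nat_lit 104794) (nat_lit 13) (node (nat_lit 4) (nat_lit 104794) (nat_lit 14)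
  (node (nat_lit 5) (nat_lit 104794) (nat_lit 15) (node (nat_lit 6) (nat_lit 104794) (nat_lit 16)
  (node (nat_lit 5) (nat_lit 104794) (nat_lit 17) (node (nat_lit 4) (nat_lit 104794) (nat_lit 18)
  (node (nat_lit 5) (nat_lit 104794) (nat_lit 19) (node (nat_lit 6) (nat_lit 104794) (nat_lit 20)
  (node (nat_lit 11) (nat_lit 104794) (nat_lit 21) nil nil) nil) nil) nil) nil) nil) nil) nil)
  nil) nil) nil) nil))) (node (nat_lit 6) (nat_lit 0) (nat_lit 9) (node (nat_lit 5) (nat_lit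
  99164) (nat_lit 10) (node (nat_lit 6) (nat_lit 99164) (nat_lit 11) (node (nat_lit 4) (nat_lit
  99164) (nat_lit 12) (node (nat_lit 5) (nat_lit 99164) (nat_lit 13) (node (nat_lit 6) (nat_lit
  99164) (nat_lit 14) (node (nat_lit 5) (nat_lit 99164) (nat_lit 15) (node (nat_lit 4) (nat_lit
  102601) (nat_lit 16) (node (nat_lit 5) (nat_lit 104794) (nat_lit 17) nil nil) nil) nil) nil)
  (node (nat_lit 6) (nat_lit 99164) (nat_lit 13) nil nil)) nil) (node (nat_lit 4) (nat_lit 99164)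
  (nat_lit 11) (node (nat_lit 6) (nat_lit 99164) (nat_lit 12) (node (nat_lit 4) (nat_lit 99164)
  (nat_lit 13) (node (nat_lit 5) (nat_lit 99164) (nat_lit 14) (node (nat_lit 6) (nat_lit 99164)
  (nat_lit 15) (node (nat_lit 5) (nat_lit 103421) (nat_lit 16) (node (nat_lit 4) (nat_lit 104794)
  (nat_lit 17) nil nil) nil) nil) nil) nil) (node (nat_lit 5) (nat_lit 99164) (nat_lit 12) nil
  nil)) nil)) (node (nat_lit 4) (nat_lit 99164) (nat_lit 10) (node (nat_lit 6) (nat_lit 99164)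
  (nat_lit 11) (node (nat_lit 5) (nat_lit 99164) (nat_lit 12) (node (nat_lit 4) (nat_lit 99164)
  (nat_lit 13) (node (nat_lit 5) (nat_lit 99164) (nat_lit 14) (node (nat_lit 6) (nat_lit 99164)
  (nat_lit 15) (node (nat_lit 5) (nat_lit 99973) (nat_lit 16) nil nil) nil) nil) nil) nil) (node
  (nat_lit 5) (nat_lit 99164) (nat_lit 11) (node (nat_lit 4) (nat_lit 99164) (nat_lit 12) (node
  (nat_lit 6) (nat_lit 99164) (nat_lit 13) (node (nat_lit 4) (nat_lit 99164) (nat_lit 14) (node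
  (nat_lit 5) (nat_lit 99164) (nat_lit 15) (node (nat_lit 6) (nat_lit 103388) (nat_lit 16) nil
  nil) nil) nil) nil) nil) nil)) (node (nat_lit 0) (nat_lit 100605) (nat_lit 10) nil nil))) (node
  (nat_lit 0) (nat_lit 102843) (nat_lit 9) (node (nat_lit 6) (nat_lit 102843) (nat_lit 10) nil
  (node (nat_lit 11) (nat_lit 103475) (nat_lit 10) nil nil)) nil)))) (node (nat_lit 4) (nat_lit 0)
  (nat_lit 8) (node (nat_lit 0) (nat_lit 0) (nat_lit 9) (node (nat_lit 4) (nat_lit 0) (nat_lit 10)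
  (node (nat_lit 5) (nat_lit 101060) (nat_lit 11) (node (nat_lit 6) (nat_lit 101060) (nat_lit 12)
  (node (nat_lit 5) (nat_lit 101060) (nat_lit 13) (node (nat_lit 4) (nat_lit 101060) (nat_lit 14)
  nil nil) (node (nat_lit 4) (nat_lit 101060) (nat_lit 13) (node (nat_lit 6) (nat_lit 101060)
  (nat_lit 14) nil (node (nat_lit 5) (nat_lit 101060) (nat_lit 14) nil nil)) nil)) (node (nat_lit
  4) (nat_lit 101060) (nat_lit 12) (node (nat_lit 6) (nat_lit 101060) (nat_lit 13) (node (nat_lit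
  4) (nat_lit 101060) (nat_lit 14) (node (nat_lit 5) (nat_lit 101060) (nat_lit 15) (node (nat_lit
  6) (nat_lit 101060) (nat_lit 16) (node (nat_lit 5) (nat_lit 104794) (nat_lit 17) (node (nat_lit
  4) (nat_lit 104794) (nat_lit 18) nil nil) nil) nil) nil) (node (nat_lit 5) (nat_lit 101060)
  (nat_lit 14) nil nil)) nil) (node (nat_lit 0) (nat_lit 104072) (nat_lit 12) nil (node (nat_lit
  12) (nat_lit 104072) (nat_lit 12) nil nil)))) (node (nat_lit 6) (nat_lit 101060) (nat_lit 11)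
  (node (nat_lit 5) (nat_lit 101060) (nat_lit 12) (node (nat_lit 4) (nat_lit 101060) (nat_lit 13)
  (node (nat_lit 5) (nat_lit 101060) (nat_lit 14) (node (nat_lit 6) (nat_lit 101060) (nat_lit 15)
  (node (nat_lit 5) (nat_lit 101060) (nat_lit 16) (node (nat_lit 4) (nat_lit 100043) (nat_lit 17)
  nil nil) (node (nat_lit 4) (nat_lit 101060) (nat_lit 16) nil nil)) nil) (node (nat_lit 6)
  (nat_lit 101060) (nat_lit 14) nil nil)) (node (nat_lit 6) (nat_lit 101060) (nat_lit 13) (node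
  (nat_lit 4) (nat_lit 101060) (nat_lit 14) (node (nat_lit 5) (nat_lit 101060) (nat_lit 15) (node
  (nat_lit 6) (nat_lit 101060) (nat_lit 16) (node (nat_lit 5) (nat_lit 103510) (nat_lit 17) (node
  (nat_lit 4) (nat_lit 104794) (nat_lit 18) nil nil) nil) nil) nil) nil) nil)) (node (nat_lit 4)
  (nat_lit 101060) (nat_lit 12) (node (nat_lit 5) (nat_lit 101060) (nat_lit 13) (node (nat_lit 6)
  (nat_lit 101060) (nat_lit 14) nil (node (nat_lit 4) (nat_lit 101060) (nat_lit 14) nil nil))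
  (node (nat_lit 12) (nat_lit 104671) (nat_lit 13) nil nil)) (node (nat_lit 12) (nat_lit 104072)
  (nat_lit 12) nil (node (nat_lit 0) (nat_lit 104072) (nat_lit 12) nil nil)))) (node (nat_lit 0)
  (nat_lit 104794) (nat_lit 11) nil nil))) (node (nat_lit 6) (nat_lit 101060) (nat_lit 10) (node
  (nat_lit 12) (nat_lit 104794) (nat_lit 11) nil (node (nat_lit 4) (nat_lit 101060) (nat_lit 11)
  nil (node (nat_lit 5) (nat_lit 101060) (nat_lit 11) nil nil))) (node (nat_lit 5) (nat_lit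
  101060) (nat_lit 10) nil (node (nat_lit 0) (nat_lit 104561) (nat_lit 10) nil nil)))) (node
  (nat_lit 6) (nat_lit 0) (nat_lit 9) (node (nat_lit 0) (nat_lit 102477) (nat_lit 10) (node
  (nat_lit 4) (nat_lit 102477) (nat_lit 11) (node (nat_lit 6) (nat_lit 102477) (nat_lit 12) (node
  (nat_lit 5) (nat_lit 102477) (nat_lit 13) (node (nat_lit 4) (nat_lit 102477) (nat_lit 14) (node
  (nat_lit 5) (nat_lit 102477) (nat_lit 15) (node (nat_lit 6) (nat_lit 102477) (nat_lit 16) (node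
  (nat_lit 5) (nat_lit 102477) (nat_lit 17) (node (nat_lit 4) (nat_lit 101683) (nat_lit 18) nil
  nil) nil) nil) (node (nat_lit 6) (nat_lit 102477) (nat_lit 15) nil nil)) (node (nat_lit 6)
  (nat_lit 102477) (nat_lit 14) (node (nat_lit 4) (nat_lit 102477) (nat_lit 15) (node (nat_lit 5)
  (nat_lit 102477) (nat_lit 16) (node (nat_lit 6) (nat_lit 102477) (nat_lit 17) (node (nat_lit 5)
  (nat_lit 104387) (nat_lit 18) (node (nat_lit 4) (nat_lit 104794) (nat_lit 19) nil nil) nil) nil)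
  (node (nat_lit 6) (nat_lit 102477) (nat_lit 16) nil nil)) nil) nil)) (node (nat_lit 4) (nat_lit
  102477) (nat_lit 13) (node (nat_lit 5) (nat_lit 102477) (nat_lit 14) (node (nat_lit 6) (nat_lit
  102477) (nat_lit 15) (node (nat_lit 5) (nat_lit 102477) (nat_lit 16) (node (nat_lit 4) (nat_lit
  102477) (nat_lit 17) (node (nat_lit 5) (nat_lit 104794) (nat_lit 18) (node (nat_lit 6) (nat_lit
  104794) (nat_lit 19) (node (nat_lit 4) (nat_lit 104794) (nat_lit 20) nil nil) nil) nil) nil)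
  (node (nat_lit 4) (nat_lit 102477) (nat_lit 16) nil nil)) (node (nat_lit 4) (nat_lit 102477)
  (nat_lit 15) (node (nat_lit 6) (nat_lit 102477) (nat_lit 16) nil nil) nil)) (node (nat_lit 13)
  (nat_lit 104794) (nat_lit 14) nil nil)) nil)) nil) (node (nat_lit 6) (nat_lit 102477) (nat_lit
  11) nil (node (nat_lit 5) (nat_lit 102477) (nat_lit 11) nil nil))) nil) (node (nat_lit 5)
  (nat_lit 0) (nat_lit 9) (node (nat_lit 0) (nat_lit 104794) (nat_lit 10) (node (nat_lit 4)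
  (nat_lit 104794) (nat_lit 11) (node (nat_lit 5) (nat_lit 104794) (nat_lit 12) (node (nat_lit 6)
  (nat_lit 104794) (nat_lit 13) (node (nat_lit 4) (nat_lit 104794) (nat_lit 14) (node (nat_lit 6)
  (nat_lit 104794) (nat_lit 15) nil nil) (node (nat_lit 5) (nat_lit 104794) (nat_lit 14) (node
  (nat_lit 4) (nat_lit 104794) (nat_lit 15) nil nil) nil)) (node (nat_lit 4) (nat_lit 104794)
  (nat_lit 13) (node (nat_lit 6) (nat_lit 104794) (nat_lit 14) (node (nat_lit 5) (nat_lit 104794)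
  (nat_lit 15) nil nil) nil) nil)) nil) (node (nat_lit 5) (nat_lit 104794) (nat_lit 11) nil nil))
  nil) nil))) nil)) (node (nat_lit 0) (nat_lit 97089) (nat_lit 7) (node (nat_lit 4) (nat_lit
  97089) (nat_lit 8) (node (nat_lit 5) (nat_lit 97089) (nat_lit 9) (node (nat_lit 6) (nat_lit
  97089) (nat_lit 10) (node (nat_lit 4) (nat_lit 97089) (nat_lit 11) (node (nat_lit 6) (nat_lit
  97089) (nat_lit 12) (node (nat_lit 5) (nat_lit 97089) (nat_lit 13) (node (nat_lit 4) (nat_lit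
  97089) (nat_lit 14) (node (nat_lit 5) (nat_lit 98126) (nat_lit 15) (node (nat_lit 6) (nat_lit
  98934) (nat_lit 16) (node (nat_lit 5) (nat_lit 99566) (nat_lit 17) (node (nat_lit 4) (nat_lit
  98526) (nat_lit 18) nil nil) nil) nil) nil) nil) nil) nil) nil) (node (nat_lit 4) (nat_lit
  97089) (nat_lit 10) (node (nat_lit 6) (nat_lit 97089) (nat_lit 11) (node (nat_lit 4) (nat_lit
  97089) (nat_lit 12) (node (nat_lit 5) (nat_lit 97089) (nat_lit 13) (node (nat_lit 6) (nat_lit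
  97089) (nat_lit 14) (node (nat_lit 5) (nat_lit 101227) (nat_lit 15) (node (nat_lit 4) (nat_lit
  104058) (nat_lit 16) (node (nat_lit 5) (nat_lit 104794) (nat_lit 17) nil nil) nil) nil) nil)
  nil) (node (nat_lit 5) (nat_lit 97089) (nat_lit 12) (node (nat_lit 4) (nat_lit 97089) (nat_lit
  13) (node (nat_lit 5) (nat_lit 97089) (nat_lit 14) (node (nat_lit 6) (nat_lit 98126) (nat_lit
  15) nil nil) nil) nil) nil)) nil) nil)) (node (nat_lit 6) (nat_lit 97089) (nat_lit 9) (node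
  (nat_lit 5) (nat_lit 97089) (nat_lit 10) (node (nat_lit 4) (nat_lit 97089) (nat_lit 11) (node
  (nat_lit 6) (nat_lit 97089) (nat_lit 12) (node (nat_lit 4) (nat_lit 97089) (nat_lit 13) (node
  (nat_lit 5) (nat_lit 97089) (nat_lit 14) (node (nat_lit 6) (nat_lit 101498) (nat_lit 15) (node
  (nat_lit 5) (nat_lit 104762) (nat_lit 16) (node (nat_lit 4) (nat_lit 104794) (nat_lit 17) nil
  nil) nil) nil) nil) nil) (node (nat_lit 5) (nat_lit 97089) (nat_lit 12) (node (nat_lit 6)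
  (nat_lit 97089) (nat_lit 13) (node (nat_lit 5) (nat_lit 97089) (nat_lit 14) (node (nat_lit 4)
  (nat_lit 94904) (nat_lit 15) nil nil) nil) nil) nil)) (node (nat_lit 6) (nat_lit 97089) (nat_lit
  11) (node (nat_lit 4) (nat_lit 97089) (nat_lit 12) (node (nat_lit 5) (nat_lit 97089) (nat_lit
  13) (node (nat_lit 6) (nat_lit 97089) (nat_lit 14) (node (nat_lit 5) (nat_lit 99030) (nat_lit
  15) (node (nat_lit 4) (nat_lit 100004) (nat_lit 16) nil nil) nil) nil) nil) nil) nil)) (node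
  (nat_lit 4) (nat_lit 97089) (nat_lit 10) (node (nat_lit 5) (nat_lit 97089) (nat_lit 11) (node
  (nat_lit 6) (nat_lit 97089) (nat_lit 12) (node (nat_lit 5) (nat_lit 97089) (nat_lit 13) (node
  (nat_lit 4) (nat_lit 97089) (nat_lit 14) (node (nat_lit 5) (nat_lit 100090) (nat_lit 15) nil
  nil) nil) nil) nil) nil) nil)) (node (nat_lit 10) (nat_lit 98934) (nat_lit 9) nil nil))) (node
  (nat_lit 5) (nat_lit 97089) (nat_lit 8) (node (nat_lit 4) (nat_lit 97089) (nat_lit 9) (node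
  (nat_lit 6) (nat_lit 97089) (nat_lit 10) (node (nat_lit 5) (nat_lit 97089) (nat_lit 11) (node
  (nat_lit 6) (nat_lit 97089) (nat_lit 12) (node (nat_lit 4) (nat_lit 97089) (nat_lit 13) (node
  (nat_lit 5) (nat_lit 97089) (nat_lit 14) (node (nat_lit 6) (nat_lit 101005) (nat_lit 15) (node
  (nat_lit 5) (nat_lit 101459) (nat_lit 16) (node (nat_lit 4) (nat_lit 102147) (nat_lit 17) nil
  nil) nil) nil) (node (nat_lit 6) (nat_lit 97089) (nat_lit 14) nil nil)) nil) (node (nat_lit 4)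
  (nat_lit 97089) (nat_lit 12) (node (nat_lit 5) (nat_lit 97089) (nat_lit 13) (node (nat_lit 6)
  (nat_lit 97089) (nat_lit 14) (node (nat_lit 5) (nat_lit 98126) (nat_lit 15) nil nil) nil) nil)
  nil)) (node (nat_lit 4) (nat_lit 97089) (nat_lit 11) (node (nat_lit 5) (nat_lit 97089) (nat_lit
  12) (node (nat_lit 6) (nat_lit 97089) (nat_lit 13) (node (nat_lit 5) (nat_lit 97089) (nat_lit
  14) (node (nat_lit 4) (nat_lit 100930) (nat_lit 15) (node (nat_lit 5) (nat_lit 103268) (nat_lit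
  16) nil nil) nil) nil) nil) nil) nil)) (node (nat_lit 5) (nat_lit 97089) (nat_lit 10) (node
  (nat_lit 6) (nat_lit 97089) (nat_lit 11) (node (nat_lit 4) (nat_lit 97089) (nat_lit 12) (node
  (nat_lit 5) (nat_lit 97089) (nat_lit 13) (node (nat_lit 4) (nat_lit 97089) (nat_lit 14) (node
  (nat_lit 6) (nat_lit 99612) (nat_lit 15) (node (nat_lit 4) (nat_lit 102561) (nat_lit 16) (node
  (nat_lit 5) (nat_lit 101739) (nat_lit 17) (node (nat_lit 6) (nat_lit 100048) (nat_lit 18) (node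
  (nat_lit 5) (nat_lit 96930) (nat_lit 19) (node (nat_lit 4) (nat_lit 90646) (nat_lit 20) (node
  (nat_lit 5) (nat_lit 82265) (nat_lit 21) nil nil) nil) nil) nil) nil) nil) nil) nil) nil) nil)
  nil) nil)) (node (nat_lit 6) (nat_lit 97089) (nat_lit 9) (node (nat_lit 4) (nat_lit 97089)
  (nat_lit 10) (node (nat_lit 6) (nat_lit 97089) (nat_lit 11) (node (nat_lit 5) (nat_lit 97089)
  (nat_lit 12) (node (nat_lit 4) (nat_lit 97089) (nat_lit 13) (node (nat_lit 5) (nat_lit 97089)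
  (nat_lit 14) (node (nat_lit 6) (nat_lit 98126) (nat_lit 15) (node (nat_lit 5) (nat_lit 98934)
  (nat_lit 16) (node (nat_lit 4) (nat_lit 97603) (nat_lit 17) nil nil) nil) nil) nil) (node
  (nat_lit 6) (nat_lit 97089) (nat_lit 13) (node (nat_lit 4) (nat_lit 97184) (nat_lit 14) (node
  (nat_lit 5) (nat_lit 98482) (nat_lit 15) nil nil) nil) nil)) nil) (node (nat_lit 5) (nat_lit
  97089) (nat_lit 11) (node (nat_lit 4) (nat_lit 97089) (nat_lit 12) (node (nat_lit 6) (nat_lit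
  97089) (nat_lit 13) (node (nat_lit 4) (nat_lit 97089) (nat_lit 14) (node (nat_lit 5) (nat_lit
  100744) (nat_lit 15) nil nil) nil) nil) nil) nil)) nil) nil)) (node (nat_lit 6) (nat_lit 97089)
  (nat_lit 8) (node (nat_lit 5) (nat_lit 97089) (nat_lit 9) (node (nat_lit 4) (nat_lit 97089)
  (nat_lit 10) (node (nat_lit 6) (nat_lit 97089) (nat_lit 11) (node (nat_lit 4) (nat_lit 97089)
  (nat_lit 12) (node (nat_lit 5) (nat_lit 97089) (nat_lit 13) (node (nat_lit 6) (nat_lit 97089)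
  (nat_lit 14) (node (nat_lit 5) (nat_lit 101443) (nat_lit 15) (node (nat_lit 4) (nat_lit 104500)
  (nat_lit 16) (node (nat_lit 5) (nat_lit 104794) (nat_lit 17) nil nil) nil) nil) nil) nil) nil)
  (node (nat_lit 5) (nat_lit 97089) (nat_lit 11) (node (nat_lit 6) (nat_lit 97089) (nat_lit 12)
  nil nil) nil)) (node (nat_lit 6) (nat_lit 97089) (nat_lit 10) (node (nat_lit 4) (nat_lit 97089)
  (nat_lit 11) (node (nat_lit 5) (nat_lit 97089) (nat_lit 12) (node (nat_lit 6) (nat_lit 97089)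
  (nat_lit 13) (node (nat_lit 5) (nat_lit 97089) (nat_lit 14) (node (nat_lit 4) (nat_lit 100392)
  (nat_lit 15) (node (nat_lit 5) (nat_lit 102401) (nat_lit 16) nil nil) nil) nil) nil) nil) nil)
  nil)) (node (nat_lit 4) (nat_lit 97089) (nat_lit 9) (node (nat_lit 5) (nat_lit 97089) (nat_lit
  10) (node (nat_lit 4) (nat_lit 97089) (nat_lit 11) (node (nat_lit 6) (nat_lit 97089) (nat_lit
  12) (node (nat_lit 5) (nat_lit 97089) (nat_lit 13) (node (nat_lit 6) (nat_lit 97089) (nat_lit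
  14) (node (nat_lit 4) (nat_lit 100484) (nat_lit 15) nil nil) (node (nat_lit 4) (nat_lit 97089)
  (nat_lit 14) (node (nat_lit 5) (nat_lit 98126) (nat_lit 15) nil nil) nil)) (node (nat_lit 4)
  (nat_lit 97089) (nat_lit 13) (node (nat_lit 5) (nat_lit 97089) (nat_lit 14) (node (nat_lit 6)
  (nat_lit 101400) (nat_lit 15) nil nil) nil) nil)) nil) (node (nat_lit 6) (nat_lit 97089)
  (nat_lit 11) (node (nat_lit 5) (nat_lit 97089) (nat_lit 12) (node (nat_lit 4) (nat_lit 97089)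
  (nat_lit 13) (node (nat_lit 5) (nat_lit 97089) (nat_lit 14) (node (nat_lit 6) (nat_lit 98126)
  (nat_lit 15) nil nil) nil) nil) nil) nil)) (node (nat_lit 6) (nat_lit 97089) (nat_lit 10) nil
  nil)) (node (nat_lit 10) (nat_lit 98934) (nat_lit 9) nil nil))) nil))) nil))

noncomputable def t221 : Tr :=
  (node (nat_lit 4) (nat_lit 0) (nat_lit 4) (node (nat_lit 6) (nat_lit 0) (nat_lit 5) (node
  (nat_lit 5) (nat_lit 0) (nat_lit 6) (node (nat_lit 4) (nat_lit 0) (nat_lit 7) t216 t217) nil)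
  (node (nat_lit 5) (nat_lit 0) (nat_lit 5) (node (nat_lit 4) (nat_lit 0) (nat_lit 6) t218 nil)
  nil)) (node (nat_lit 5) (nat_lit 0) (nat_lit 4) (node (nat_lit 4) (nat_lit 0) (nat_lit 5) (node
  (nat_lit 6) (nat_lit 0) (nat_lit 6) (node (nat_lit 4) (nat_lit 0) (nat_lit 7) (node (nat_lit 0)
  (nat_lit 0) (nat_lit 8) (node (nat_lit 5) (nat_lit 0) (nat_lit 9) (node (nat_lit 6) (nat_lit
  142300) (nat_lit 10) (node (nat_lit 4) (nat_lit 142300) (nat_lit 11) (node (nat_lit 5) (nat_lit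
  142300) (nat_lit 12) (node (nat_lit 6) (nat_lit 142300) (nat_lit 13) (node (nat_lit 5) (nat_lit
  142300) (nat_lit 14) (node (nat_lit 4) (nat_lit 142300) (nat_lit 15) (node (nat_lit 6) (nat_lit
  146043) (nat_lit 16) (node (nat_lit 4) (nat_lit 148950) (nat_lit 17) nil nil) nil) nil) nil)
  (node (nat_lit 4) (nat_lit 142300) (nat_lit 13) nil nil)) (node (nat_lit 6) (nat_lit 142300)
  (nat_lit 12) (node (nat_lit 5) (nat_lit 142300) (nat_lit 13) (node (nat_lit 4) (nat_lit 142300)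
  (nat_lit 14) (node (nat_lit 5) (nat_lit 141878) (nat_lit 15) (node (nat_lit 6) (nat_lit 143808)
  (nat_lit 16) (node (nat_lit 5) (nat_lit 144818) (nat_lit 17) (node (nat_lit 4) (nat_lit 144156)
  (nat_lit 18) nil nil) nil) nil) nil) (node (nat_lit 6) (nat_lit 142300) (nat_lit 14) nil nil))
  nil) nil)) (node (nat_lit 5) (nat_lit 142300) (nat_lit 11) (node (nat_lit 4) (nat_lit 142300)
  (nat_lit 12) (node (nat_lit 6) (nat_lit 142300) (nat_lit 13) (node (nat_lit 4) (nat_lit 142300)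
  (nat_lit 14) (node (nat_lit 5) (nat_lit 142300) (nat_lit 15) (node (nat_lit 6) (nat_lit 144262)
  (nat_lit 16) (node (nat_lit 5) (nat_lit 147065) (nat_lit 17) (node (nat_lit 4) (nat_lit 149343)
  (nat_lit 18) nil nil) nil) nil) nil) (node (nat_lit 5) (nat_lit 142300) (nat_lit 14) nil nil))
  (node (nat_lit 5) (nat_lit 142300) (nat_lit 13) (node (nat_lit 6) (nat_lit 142300) (nat_lit 14)
  nil nil) nil)) nil) (node (nat_lit 11) (nat_lit 145872) (nat_lit 11) nil nil))) (node (nat_lit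
  4) (nat_lit 142300) (nat_lit 10) (node (nat_lit 6) (nat_lit 142300) (nat_lit 11) (node (nat_lit
  5) (nat_lit 142300) (nat_lit 12) (node (nat_lit 4) (nat_lit 142300) (nat_lit 13) (node (nat_lit
  5) (nat_lit 142300) (nat_lit 14) (node (nat_lit 6) (nat_lit 142300) (nat_lit 15) (node (nat_lit
  5) (nat_lit 144775) (nat_lit 16) (node (nat_lit 4) (nat_lit 144310) (nat_lit 17) (node (nat_lit
  6) (nat_lit 144852) (nat_lit 18) (node (nat_lit 4) (nat_lit 145277) (nat_lit 19) nil nil) nil)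
  nil) nil) nil) nil) (node (nat_lit 6) (nat_lit 142300) (nat_lit 13) nil nil)) (node (nat_lit 4)
  (nat_lit 142300) (nat_lit 12) (node (nat_lit 5) (nat_lit 142300) (nat_lit 13) (node (nat_lit 6)
  (nat_lit 142300) (nat_lit 14) (node (nat_lit 5) (nat_lit 142300) (nat_lit 15) (node (nat_lit 4)
  (nat_lit 146843) (nat_lit 16) nil nil) nil) nil) nil) nil)) (node (nat_lit 5) (nat_lit 142300)
  (nat_lit 11) (node (nat_lit 6) (nat_lit 142300) (nat_lit 12) (node (nat_lit 4) (nat_lit 142300)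
  (nat_lit 13) (node (nat_lit 6) (nat_lit 142300) (nat_lit 14) (node (nat_lit 5) (nat_lit 142300)
  (nat_lit 15) nil nil) (node (nat_lit 5) (nat_lit 142300) (nat_lit 14) nil nil)) (node (nat_lit
  5) (nat_lit 142300) (nat_lit 13) (node (nat_lit 4) (nat_lit 142300) (nat_lit 14) (node (nat_lit
  6) (nat_lit 142300) (nat_lit 15) nil nil) nil) nil)) nil) (node (nat_lit 11) (nat_lit 145872)
  (nat_lit 11) nil nil))) (node (nat_lit 11) (nat_lit 149093) (nat_lit 10) (node (nat_lit 4)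
  (nat_lit 149093) (nat_lit 11) (node (nat_lit 5) (nat_lit 149093) (nat_lit 12) (node (nat_lit 4)
  (nat_lit 149093) (nat_lit 13) (node (nat_lit 6) (nat_lit 149093) (nat_lit 14) (node (nat_lit 5)
  (nat_lit 149093) (nat_lit 15) (node (nat_lit 4) (nat_lit 149093) (nat_lit 16) (node (nat_lit 5)
  (nat_lit 148816) (nat_lit 17) (node (nat_lit 6) (nat_lit 149956) (nat_lit 18) (node (nat_lit 5)
  (nat_lit 150664) (nat_lit 19) (node (nat_lit 4) (nat_lit 150316) (nat_lit 20) nil nil) nil) nil)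
  nil) nil) nil) nil) nil) nil) nil) (node (nat_lit 0) (nat_lit 144962) (nat_lit 10) nil nil))))
  (node (nat_lit 6) (nat_lit 0) (nat_lit 9) (node (nat_lit 4) (nat_lit 142300) (nat_lit 10) (node
  (nat_lit 6) (nat_lit 142300) (nat_lit 11) (node (nat_lit 5) (nat_lit 142300) (nat_lit 12) (node
  (nat_lit 4) (nat_lit 142300) (nat_lit 13) (node (nat_lit 5) (nat_lit 142300) (nat_lit 14) (node
  (nat_lit 6) (nat_lit 142300) (nat_lit 15) (node (nat_lit 5) (nat_lit 145245) (nat_lit 16) (node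
  (nat_lit 4) (nat_lit 144781) (nat_lit 17) (node (nat_lit 6) (nat_lit 145323) (nat_lit 18) (node
  (nat_lit 4) (nat_lit 145748) (nat_lit 19) nil nil) nil) nil) (node (nat_lit 4) (nat_lit 143795)
  (nat_lit 16) nil nil)) nil) (node (nat_lit 6) (nat_lit 142300) (nat_lit 14) (node (nat_lit 4)
  (nat_lit 142300) (nat_lit 15) (node (nat_lit 5) (nat_lit 147066) (nat_lit 16) nil nil) nil)
  nil)) (node (nat_lit 6) (nat_lit 142300) (nat_lit 13) (node (nat_lit 4) (nat_lit 142300)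
  (nat_lit 14) (node (nat_lit 5) (nat_lit 142300) (nat_lit 15) nil nil) nil) nil)) nil) (node
  (nat_lit 5) (nat_lit 142300) (nat_lit 11) (node (nat_lit 6) (nat_lit 142300) (nat_lit 12) (node
  (nat_lit 5) (nat_lit 142300) (nat_lit 13) (node (nat_lit 4) (nat_lit 142300) (nat_lit 14) (node
  (nat_lit 6) (nat_lit 142300) (nat_lit 15) (node (nat_lit 4) (nat_lit 143795) (nat_lit 16) (node
  (nat_lit 11) (nat_lit 55514) (nat_lit 17) nil nil) nil) nil) nil) (node (nat_lit 4) (nat_lit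
  142300) (nat_lit 13) (node (nat_lit 6) (nat_lit 142300) (nat_lit 14) nil nil) nil)) (node
  (nat_lit 4) (nat_lit 142300) (nat_lit 12) (node (nat_lit 6) (nat_lit 142300) (nat_lit 13) (node
  (nat_lit 4) (nat_lit 142300) (nat_lit 14) (node (nat_lit 5) (nat_lit 142300) (nat_lit 15) (node
  (nat_lit 6) (nat_lit 144672) (nat_lit 16) nil nil) nil) nil) nil) nil)) nil)) (node (nat_lit 5)
  (nat_lit 142300) (nat_lit 10) (node (nat_lit 4) (nat_lit 142300) (nat_lit 11) (node (nat_lit 6)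
  (nat_lit 142300) (nat_lit 12) (node (nat_lit 4) (nat_lit 142300) (nat_lit 13) (node (nat_lit 5)
  (nat_lit 142300) (nat_lit 14) (node (nat_lit 6) (nat_lit 142300) (nat_lit 15) (node (nat_lit 5)
  (nat_lit 147066) (nat_lit 16) (node (nat_lit 4) (nat_lit 150786) (nat_lit 17) nil nil) nil) nil)
  nil) (node (nat_lit 5) (nat_lit 142300) (nat_lit 13) (node (nat_lit 6) (nat_lit 142300) (nat_lit
  14) nil nil) nil)) (node (nat_lit 5) (nat_lit 142300) (nat_lit 12) (node (nat_lit 6) (nat_lit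
  142300) (nat_lit 13) (node (nat_lit 5) (nat_lit 142300) (nat_lit 14) (node (nat_lit 4) (nat_lit
  142300) (nat_lit 15) (node (nat_lit 6) (nat_lit 145245) (nat_lit 16) nil nil) nil) (node
  (nat_lit 4) (nat_lit 142300) (nat_lit 14) nil nil)) nil) nil)) (node (nat_lit 6) (nat_lit
  142300) (nat_lit 11) (node (nat_lit 4) (nat_lit 142300) (nat_lit 12) (node (nat_lit 5) (nat_lit
  142300) (nat_lit 13) (node (nat_lit 6) (nat_lit 142300) (nat_lit 14) (node (nat_lit 5) (nat_lit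
  142300) (nat_lit 15) (node (nat_lit 4) (nat_lit 146422) (nat_lit 16) (node (nat_lit 6) (nat_lit
  149102) (nat_lit 17) nil nil) nil) nil) (node (nat_lit 4) (nat_lit 142300) (nat_lit 14) nil
  nil)) (node (nat_lit 6) (nat_lit 142300) (nat_lit 13) (node (nat_lit 5) (nat_lit 142300)
  (nat_lit 14) nil nil) nil)) nil) (node (nat_lit 11) (nat_lit 145872) (nat_lit 11) nil nil)))
  (node (nat_lit 11) (nat_lit 149563) (nat_lit 10) (node (nat_lit 4) (nat_lit 149563) (nat_lit 11)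
  (node (nat_lit 6) (nat_lit 149563) (nat_lit 12) (node (nat_lit 5) (nat_lit 149563) (nat_lit 13)
  (node (nat_lit 4) (nat_lit 149563) (nat_lit 14) (node (nat_lit 5) (nat_lit 149563) (nat_lit 15)
  (node (nat_lit 6) (nat_lit 149563) (nat_lit 16) (node (nat_lit 5) (nat_lit 149895) (nat_lit 17)
  (node (nat_lit 4) (nat_lit 149531) (nat_lit 18) (node (nat_lit 6) (nat_lit 149955) (nat_lit 19)
  nil nil) nil) nil) nil) nil) nil) nil) nil) nil) (node (nat_lit 0) (nat_lit 144962) (nat_lit 10)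
  nil nil)))) (node (nat_lit 4) (nat_lit 0) (nat_lit 9) (node (nat_lit 6) (nat_lit 142300)
  (nat_lit 10) (node (nat_lit 5) (nat_lit 142300) (nat_lit 11) (node (nat_lit 4) (nat_lit 142300)
  (nat_lit 12) (node (nat_lit 5) (nat_lit 142300) (nat_lit 13) (node (nat_lit 6) (nat_lit 142300)
  (nat_lit 14) (node (nat_lit 5) (nat_lit 142300) (nat_lit 15) (node (nat_lit 4) (nat_lit 143247)
  (nat_lit 16) (node (nat_lit 6) (nat_lit 143942) (nat_lit 17) nil nil) nil) nil) nil) (node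
  (nat_lit 6) (nat_lit 142300) (nat_lit 13) nil nil)) (node (nat_lit 6) (nat_lit 142300) (nat_lit
  12) (node (nat_lit 4) (nat_lit 142300) (nat_lit 13) nil nil) nil)) (node (nat_lit 4) (nat_lit
  142300) (nat_lit 11) (node (nat_lit 5) (nat_lit 142300) (nat_lit 12) (node (nat_lit 6) (nat_lit
  142300) (nat_lit 13) (node (nat_lit 5) (nat_lit 142300) (nat_lit 14) (node (nat_lit 4) (nat_lit
  142300) (nat_lit 15) (node (nat_lit 6) (nat_lit 144409) (nat_lit 16) nil nil) nil) (node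
  (nat_lit 4) (nat_lit 142300) (nat_lit 14) nil nil)) (node (nat_lit 4) (nat_lit 142300) (nat_lit
  13) nil nil)) nil) nil)) (node (nat_lit 5) (nat_lit 142300) (nat_lit 10) (node (nat_lit 6)
  (nat_lit 142300) (nat_lit 11) (node (nat_lit 5) (nat_lit 142300) (nat_lit 12) (node (nat_lit 4)
  (nat_lit 142300) (nat_lit 13) nil nil) (node (nat_lit 4) (nat_lit 142300) (nat_lit 12) (node
  (nat_lit 6) (nat_lit 142300) (nat_lit 13) nil nil) nil)) (node (nat_lit 4) (nat_lit 142300)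
  (nat_lit 11) (node (nat_lit 6) (nat_lit 142300) (nat_lit 12) (node (nat_lit 5) (nat_lit 142300)
  (nat_lit 13) nil (node (nat_lit 4) (nat_lit 142300) (nat_lit 13) nil nil)) nil) nil)) (node
  (nat_lit 0) (nat_lit 149148) (nat_lit 10) nil nil))) (node (nat_lit 0) (nat_lit 149056) (nat_lit
  9) (node (nat_lit 4) (nat_lit 149056) (nat_lit 10) nil nil) nil)))) (node (nat_lit 5) (nat_lit
  0) (nat_lit 8) (node (nat_lit 0) (nat_lit 0) (nat_lit 9) (node (nat_lit 5) (nat_lit 0) (nat_lit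
  10) (node (nat_lit 4) (nat_lit 124423) (nat_lit 11) (node (nat_lit 6) (nat_lit 124423) (nat_lit
  12) (node (nat_lit 5) (nat_lit 124423) (nat_lit 13) (node (nat_lit 4) (nat_lit 124423) (nat_lit
  14) (node (nat_lit 5) (nat_lit 124423) (nat_lit 15) (node (nat_lit 6) (nat_lit 124423) (nat_lit
  16) (node (nat_lit 5) (nat_lit 128197) (nat_lit 17) (node (nat_lit 4) (nat_lit 128449) (nat_lit
  18) (node (nat_lit 6) (nat_lit 129787) (nat_lit 19) nil nil) nil) nil) nil) nil) (node (nat_lit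
  6) (nat_lit 124423) (nat_lit 14) (node (nat_lit 4) (nat_lit 124423) (nat_lit 15) (node (nat_lit
  5) (nat_lit 124423) (nat_lit 16) nil nil) nil) nil)) (node (nat_lit 4) (nat_lit 124423) (nat_lit
  13) (node (nat_lit 5) (nat_lit 124423) (nat_lit 14) (node (nat_lit 6) (nat_lit 124423) (nat_lit
  15) (node (nat_lit 5) (nat_lit 124423) (nat_lit 16) (node (nat_lit 4) (nat_lit 128785) (nat_lit
  17) (node (nat_lit 6) (nat_lit 130766) (nat_lit 18) (node (nat_lit 4) (nat_lit 132937) (nat_lit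
  19) nil nil) nil) nil) nil) (node (nat_lit 4) (nat_lit 124423) (nat_lit 15) nil nil)) nil) (node
  (nat_lit 0) (nat_lit 130920) (nat_lit 13) nil nil))) (node (nat_lit 5) (nat_lit 124423) (nat_lit
  12) (node (nat_lit 6) (nat_lit 124423) (nat_lit 13) (node (nat_lit 5) (nat_lit 124423) (nat_lit
  14) nil (node (nat_lit 4) (nat_lit 124423) (nat_lit 14) nil nil)) (node (nat_lit 12) (nat_lit
  134192) (nat_lit 13) nil nil)) (node (nat_lit 12) (nat_lit 135892) (nat_lit 12) nil (node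
  (nat_lit 0) (nat_lit 133141) (nat_lit 12) nil nil)))) (node (nat_lit 6) (nat_lit 124423)
  (nat_lit 11) (node (nat_lit 4) (nat_lit 124423) (nat_lit 12) (node (nat_lit 5) (nat_lit 124423)
  (nat_lit 13) (node (nat_lit 6) (nat_lit 124423) (nat_lit 14) (node (nat_lit 5) (nat_lit 124423)
  (nat_lit 15) (node (nat_lit 4) (nat_lit 124423) (nat_lit 16) (node (nat_lit 6) (nat_lit 128446)
  (nat_lit 17) (node (nat_lit 4) (nat_lit 131409) (nat_lit 18) nil nil) nil) nil) nil) (node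
  (nat_lit 4) (nat_lit 124423) (nat_lit 14) (node (nat_lit 6) (nat_lit 124423) (nat_lit 15) (node
  (nat_lit 5) (nat_lit 124423) (nat_lit 16) nil nil) nil) nil)) (node (nat_lit 6) (nat_lit 124423)
  (nat_lit 13) (node (nat_lit 5) (nat_lit 124423) (nat_lit 14) (node (nat_lit 4) (nat_lit 124423)
  (nat_lit 15) (node (nat_lit 5) (nat_lit 124423) (nat_lit 16) (node (nat_lit 6) (nat_lit 127181)
  (nat_lit 17) nil nil) nil) (node (nat_lit 6) (nat_lit 124423) (nat_lit 15) nil nil)) nil) (node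
  (nat_lit 0) (nat_lit 130920) (nat_lit 13) nil (node (nat_lit 12) (nat_lit 130920) (nat_lit 13)
  nil nil)))) (node (nat_lit 5) (nat_lit 124423) (nat_lit 12) (node (nat_lit 4) (nat_lit 124423)
  (nat_lit 13) (node (nat_lit 6) (nat_lit 124423) (nat_lit 14) nil (node (nat_lit 5) (nat_lit
  124423) (nat_lit 14) nil nil)) (node (nat_lit 12) (nat_lit 134192) (nat_lit 13) nil nil)) (node
  (nat_lit 12) (nat_lit 133141) (nat_lit 12) nil (node (nat_lit 0) (nat_lit 133611) (nat_lit 12)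
  nil nil)))) (node (nat_lit 0) (nat_lit 134228) (nat_lit 11) nil nil))) (node (nat_lit 4)
  (nat_lit 124423) (nat_lit 10) (node (nat_lit 12) (nat_lit 134312) (nat_lit 11) (node (nat_lit 5)
  (nat_lit 134312) (nat_lit 12) (node (nat_lit 12) (nat_lit 136167) (nat_lit 13) nil nil) nil)
  (node (nat_lit 5) (nat_lit 124423) (nat_lit 11) (node (nat_lit 4) (nat_lit 124423) (nat_lit 12)
  nil nil) (node (nat_lit 6) (nat_lit 124423) (nat_lit 11) nil nil))) (node (nat_lit 6) (nat_lit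
  124423) (nat_lit 10) (node (nat_lit 12) (nat_lit 132983) (nat_lit 11) nil (node (nat_lit 5)
  (nat_lit 124423) (nat_lit 11) nil nil)) (node (nat_lit 0) (nat_lit 130546) (nat_lit 10) (node
  (nat_lit 5) (nat_lit 130546) (nat_lit 11) nil nil) nil)))) (node (nat_lit 4) (nat_lit 0)
  (nat_lit 9) (node (nat_lit 0) (nat_lit 130745) (nat_lit 10) (node (nat_lit 5) (nat_lit 130745)
  (nat_lit 11) (node (nat_lit 4) (nat_lit 130745) (nat_lit 12) (node (nat_lit 6) (nat_lit 130745)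
  (nat_lit 13) (node (nat_lit 4) (nat_lit 130745) (nat_lit 14) (node (nat_lit 5) (nat_lit 130745)
  (nat_lit 15) (node (nat_lit 6) (nat_lit 130745) (nat_lit 16) (node (nat_lit 5) (nat_lit 130745)
  (nat_lit 17) (node (nat_lit 4) (nat_lit 134150) (nat_lit 18) nil nil) nil) nil) nil) (node
  (nat_lit 5) (nat_lit 130745) (nat_lit 14) (node (nat_lit 6) (nat_lit 130745) (nat_lit 15) nil
  nil) nil)) (node (nat_lit 5) (nat_lit 130745) (nat_lit 13) (node (nat_lit 6) (nat_lit 130745)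
  (nat_lit 14) (node (nat_lit 4) (nat_lit 130745) (nat_lit 15) (node (nat_lit 6) (nat_lit 130745)
  (nat_lit 16) nil (node (nat_lit 5) (nat_lit 130745) (nat_lit 16) nil nil)) (node (nat_lit 5)
  (nat_lit 130745) (nat_lit 15) nil nil)) (node (nat_lit 13) (nat_lit 138904) (nat_lit 14) nil
  (node (nat_lit 0) (nat_lit 135815) (nat_lit 14) nil nil))) (node (nat_lit 0) (nat_lit 134974)
  (nat_lit 13) nil nil))) nil) (node (nat_lit 4) (nat_lit 130745) (nat_lit 11) (node (nat_lit 5)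
  (nat_lit 130745) (nat_lit 12) nil nil) nil)) nil) (node (nat_lit 6) (nat_lit 0) (nat_lit 9)
  (node (nat_lit 0) (nat_lit 105158) (nat_lit 10) (node (nat_lit 5) (nat_lit 105158) (nat_lit 11)
  (node (nat_lit 6) (nat_lit 105158) (nat_lit 12) (node (nat_lit 4) (nat_lit 105158) (nat_lit 13)
  (node (nat_lit 5) (nat_lit 105158) (nat_lit 14) (node (nat_lit 6) (nat_lit 105158) (nat_lit 15)
  (node (nat_lit 5) (nat_lit 105158) (nat_lit 16) (node (nat_lit 4) (nat_lit 105158) (nat_lit 17)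
  (node (nat_lit 6) (nat_lit 107643) (nat_lit 18) nil nil) nil) nil) (node (nat_lit 4) (nat_lit
  105158) (nat_lit 15) (node (nat_lit 6) (nat_lit 105158) (nat_lit 16) nil nil) nil)) (node
  (nat_lit 6) (nat_lit 105158) (nat_lit 14) (node (nat_lit 5) (nat_lit 105158) (nat_lit 15) nil
  nil) (node (nat_lit 13) (nat_lit 110228) (nat_lit 14) nil nil))) (node (nat_lit 5) (nat_lit
  105158) (nat_lit 13) (node (nat_lit 4) (nat_lit 105158) (nat_lit 14) (node (nat_lit 6) (nat_lit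
  105158) (nat_lit 15) (node (nat_lit 4) (nat_lit 105158) (nat_lit 16) nil nil) nil) (node
  (nat_lit 13) (nat_lit 110228) (nat_lit 14) nil (node (nat_lit 0) (nat_lit 110228) (nat_lit 14)
  nil nil))) (node (nat_lit 0) (nat_lit 109387) (nat_lit 13) nil nil))) nil) (node (nat_lit 6)
  (nat_lit 105158) (nat_lit 11) (node (nat_lit 5) (nat_lit 105158) (nat_lit 12) nil nil) nil))
  nil) nil))) nil)) t219) (node (nat_lit 5) (nat_lit 0) (nat_lit 6) t220 nil)) nil) nil))

noncomputable def t222 : Tr :=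
  (node (nat_lit 0) (nat_lit 0) (nat_lit 8) (node (nat_lit 5) (nat_lit 0) (nat_lit 9) (node
  (nat_lit 4) (nat_lit 93532) (nat_lit 10) (node (nat_lit 5) (nat_lit 93532) (nat_lit 11) (node
  (nat_lit 7) (nat_lit 93532) (nat_lit 12) (node (nat_lit 4) (nat_lit 93532) (nat_lit 13) (node
  (nat_lit 7) (nat_lit 93532) (nat_lit 14) (node (nat_lit 5) (nat_lit 93532) (nat_lit 15) nil nil)
  (node (nat_lit 5) (nat_lit 93532) (nat_lit 14) (node (nat_lit 4) (nat_lit 93532) (nat_lit 15)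
  (node (nat_lit 7) (nat_lit 97455) (nat_lit 16) (node (nat_lit 5) (nat_lit 100163) (nat_lit 17)
  nil nil) nil) nil) nil)) (node (nat_lit 5) (nat_lit 93532) (nat_lit 13) (node (nat_lit 4)
  (nat_lit 93532) (nat_lit 14) (node (nat_lit 7) (nat_lit 93532) (nat_lit 15) nil nil) nil) nil))
  (node (nat_lit 11) (nat_lit 95778) (nat_lit 12) nil nil)) (node (nat_lit 7) (nat_lit 93532)
  (nat_lit 11) (node (nat_lit 4) (nat_lit 93532) (nat_lit 12) (node (nat_lit 5) (nat_lit 93532)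
  (nat_lit 13) (node (nat_lit 4) (nat_lit 93532) (nat_lit 14) (node (nat_lit 7) (nat_lit 93532)
  (nat_lit 15) (node (nat_lit 5) (nat_lit 97073) (nat_lit 16) (node (nat_lit 7) (nat_lit 99337)
  (nat_lit 17) (node (nat_lit 4) (nat_lit 99965) (nat_lit 18) nil nil) nil) nil) nil) nil) nil)
  (node (nat_lit 5) (nat_lit 93532) (nat_lit 12) (node (nat_lit 7) (nat_lit 93532) (nat_lit 13)
  (node (nat_lit 4) (nat_lit 93532) (nat_lit 14) nil nil) (node (nat_lit 4) (nat_lit 93532)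
  (nat_lit 13) nil nil)) nil)) (node (nat_lit 11) (nat_lit 99634) (nat_lit 11) nil nil))) (node
  (nat_lit 7) (nat_lit 93532) (nat_lit 10) (node (nat_lit 4) (nat_lit 93532) (nat_lit 11) (node
  (nat_lit 5) (nat_lit 93532) (nat_lit 12) (node (nat_lit 4) (nat_lit 93532) (nat_lit 13) (node
  (nat_lit 7) (nat_lit 93532) (nat_lit 14) (node (nat_lit 5) (nat_lit 93532) (nat_lit 15) (node
  (nat_lit 7) (nat_lit 97164) (nat_lit 16) (node (nat_lit 4) (nat_lit 99283) (nat_lit 17) nil nil)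
  nil) nil) nil) (node (nat_lit 7) (nat_lit 93532) (nat_lit 13) (node (nat_lit 5) (nat_lit 93532)
  (nat_lit 14) nil nil) nil)) (node (nat_lit 7) (nat_lit 93532) (nat_lit 12) (node (nat_lit 5)
  (nat_lit 93532) (nat_lit 13) nil nil) nil)) (node (nat_lit 5) (nat_lit 93532) (nat_lit 11) (node
  (nat_lit 4) (nat_lit 93532) (nat_lit 12) (node (nat_lit 7) (nat_lit 93532) (nat_lit 13) (node
  (nat_lit 4) (nat_lit 93532) (nat_lit 14) (node (nat_lit 5) (nat_lit 93532) (nat_lit 15) (node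
  (nat_lit 4) (nat_lit 97048) (nat_lit 16) (node (nat_lit 7) (nat_lit 97854) (nat_lit 17) (node
  (nat_lit 5) (nat_lit 99375) (nat_lit 18) (node (nat_lit 7) (nat_lit 100414) (nat_lit 19) (node
  (nat_lit 4) (nat_lit 100653) (nat_lit 20) nil nil) nil) nil) nil) nil) nil) (node (nat_lit 5)
  (nat_lit 93532) (nat_lit 14) nil nil)) (node (nat_lit 5) (nat_lit 93532) (nat_lit 13) (node
  (nat_lit 7) (nat_lit 93532) (nat_lit 14) nil nil) nil)) nil) (node (nat_lit 11) (nat_lit 99634)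
  (nat_lit 11) nil nil))) (node (nat_lit 11) (nat_lit 100433) (nat_lit 10) (node (nat_lit 4)
  (nat_lit 100433) (nat_lit 11) nil nil) (node (nat_lit 0) (nat_lit 94928) (nat_lit 10) nil
  nil)))) (node (nat_lit 7) (nat_lit 0) (nat_lit 9) (node (nat_lit 5) (nat_lit 93532) (nat_lit 10)
  (node (nat_lit 4) (nat_lit 93532) (nat_lit 11) (node (nat_lit 7) (nat_lit 93532) (nat_lit 12)
  (node (nat_lit 5) (nat_lit 93532) (nat_lit 13) nil (node (nat_lit 4) (nat_lit 93532) (nat_lit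
  13) (node (nat_lit 5) (nat_lit 93532) (nat_lit 14) (node (nat_lit 4) (nat_lit 93532) (nat_lit
  15) (node (nat_lit 7) (nat_lit 95082) (nat_lit 16) nil nil) nil) nil) nil)) (node (nat_lit 5)
  (nat_lit 93532) (nat_lit 12) (node (nat_lit 7) (nat_lit 93532) (nat_lit 13) nil nil) nil)) (node
  (nat_lit 7) (nat_lit 93532) (nat_lit 11) (node (nat_lit 4) (nat_lit 93532) (nat_lit 12) (node
  (nat_lit 5) (nat_lit 93532) (nat_lit 13) (node (nat_lit 4) (nat_lit 93532) (nat_lit 14) (node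
  (nat_lit 7) (nat_lit 93532) (nat_lit 15) (node (nat_lit 5) (nat_lit 96461) (nat_lit 16) (node
  (nat_lit 7) (nat_lit 99082) (nat_lit 17) (node (nat_lit 4) (nat_lit 99914) (nat_lit 18) nil nil)
  nil) nil) nil) (node (nat_lit 7) (nat_lit 93532) (nat_lit 14) nil nil)) (node (nat_lit 7)
  (nat_lit 93532) (nat_lit 13) (node (nat_lit 5) (nat_lit 93532) (nat_lit 14) nil nil) nil)) nil)
  (node (nat_lit 11) (nat_lit 99634) (nat_lit 11) nil nil))) (node (nat_lit 4) (nat_lit 93532)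
  (nat_lit 10) (node (nat_lit 7) (nat_lit 93532) (nat_lit 11) (node (nat_lit 5) (nat_lit 93532)
  (nat_lit 12) (node (nat_lit 4) (nat_lit 93532) (nat_lit 13) (node (nat_lit 5) (nat_lit 93532)
  (nat_lit 14) (node (nat_lit 7) (nat_lit 93532) (nat_lit 15) nil nil) (node (nat_lit 7) (nat_lit
  93532) (nat_lit 14) nil nil)) (node (nat_lit 7) (nat_lit 93532) (nat_lit 13) (node (nat_lit 4)
  (nat_lit 93532) (nat_lit 14) (node (nat_lit 5) (nat_lit 93532) (nat_lit 15) (node (nat_lit 4)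
  (nat_lit 97861) (nat_lit 16) nil nil) nil) nil) nil)) (node (nat_lit 11) (nat_lit 95778)
  (nat_lit 12) nil nil)) (node (nat_lit 5) (nat_lit 93532) (nat_lit 11) (node (nat_lit 7) (nat_lit
  93532) (nat_lit 12) (node (nat_lit 5) (nat_lit 93532) (nat_lit 13) nil (node (nat_lit 4)
  (nat_lit 93532) (nat_lit 13) nil nil)) (node (nat_lit 4) (nat_lit 93532) (nat_lit 12) (node
  (nat_lit 7) (nat_lit 93532) (nat_lit 13) nil nil) nil)) nil)) (node (nat_lit 11) (nat_lit
  100379) (nat_lit 10) (node (nat_lit 4) (nat_lit 100379) (nat_lit 11) (node (nat_lit 7) (nat_lit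
  100379) (nat_lit 12) (node (nat_lit 4) (nat_lit 100379) (nat_lit 13) (node (nat_lit 5) (nat_lit
  100379) (nat_lit 14) (node (nat_lit 4) (nat_lit 100379) (nat_lit 15) (node (nat_lit 7) (nat_lit
  100379) (nat_lit 16) (node (nat_lit 5) (nat_lit 100953) (nat_lit 17) (node (nat_lit 7) (nat_lit
  101879) (nat_lit 18) (node (nat_lit 4) (nat_lit 102602) (nat_lit 19) nil nil) nil) nil) nil)
  nil) nil) nil) nil) nil) (node (nat_lit 0) (nat_lit 94928) (nat_lit 10) nil nil)))) (node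
  (nat_lit 4) (nat_lit 0) (nat_lit 9) (node (nat_lit 7) (nat_lit 93532) (nat_lit 10) (node
  (nat_lit 4) (nat_lit 93532) (nat_lit 11) (node (nat_lit 5) (nat_lit 93532) (nat_lit 12) (node
  (nat_lit 4) (nat_lit 93532) (nat_lit 13) (node (nat_lit 7) (nat_lit 93532) (nat_lit 14) (node
  (nat_lit 5) (nat_lit 93532) (nat_lit 15) (node (nat_lit 7) (nat_lit 96708) (nat_lit 16) (node
  (nat_lit 4) (nat_lit 98352) (nat_lit 17) nil nil) nil) nil) nil) (node (nat_lit 7) (nat_lit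
  93532) (nat_lit 13) nil nil)) (node (nat_lit 11) (nat_lit 95778) (nat_lit 12) nil nil)) (node
  (nat_lit 5) (nat_lit 93532) (nat_lit 11) (node (nat_lit 7) (nat_lit 93532) (nat_lit 12) (node
  (nat_lit 4) (nat_lit 93532) (nat_lit 13) (node (nat_lit 5) (nat_lit 93532) (nat_lit 14) (node
  (nat_lit 4) (nat_lit 93532) (nat_lit 15) (node (nat_lit 7) (nat_lit 97721) (nat_lit 16) (node
  (nat_lit 5) (nat_lit 99879) (nat_lit 17) nil nil) nil) nil) nil) nil) (node (nat_lit 4) (nat_lit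
  93532) (nat_lit 12) nil nil)) (node (nat_lit 11) (nat_lit 95405) (nat_lit 11) nil nil))) (node
  (nat_lit 5) (nat_lit 93532) (nat_lit 10) (node (nat_lit 7) (nat_lit 93532) (nat_lit 11) (node
  (nat_lit 5) (nat_lit 93532) (nat_lit 12) (node (nat_lit 4) (nat_lit 93532) (nat_lit 13) nil nil)
  (node (nat_lit 4) (nat_lit 93532) (nat_lit 12) nil nil)) (node (nat_lit 4) (nat_lit 93532)
  (nat_lit 11) (node (nat_lit 7) (nat_lit 93532) (nat_lit 12) (node (nat_lit 5) (nat_lit 93532)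
  (nat_lit 13) nil (node (nat_lit 4) (nat_lit 93532) (nat_lit 13) nil nil)) nil) nil)) (node
  (nat_lit 0) (nat_lit 100167) (nat_lit 10) nil nil))) (node (nat_lit 0) (nat_lit 98723) (nat_lit
  9) (node (nat_lit 4) (nat_lit 98723) (nat_lit 10) nil (node (nat_lit 5) (nat_lit 98723) (nat_lit
  10) nil (node (nat_lit 7) (nat_lit 98723) (nat_lit 10) nil (node (nat_lit 11) (nat_lit 99335)
  (nat_lit 10) nil nil)))) nil)))) (node (nat_lit 5) (nat_lit 0) (nat_lit 8) (node (nat_lit 0)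
  (nat_lit 0) (nat_lit 9) (node (nat_lit 5) (nat_lit 0) (nat_lit 10) (node (nat_lit 4) (nat_lit
  76108) (nat_lit 11) (node (nat_lit 7) (nat_lit 76108) (nat_lit 12) (node (nat_lit 5) (nat_lit
  76108) (nat_lit 13) (node (nat_lit 7) (nat_lit 76108) (nat_lit 14) (node (nat_lit 4) (nat_lit
  76108) (nat_lit 15) (node (nat_lit 5) (nat_lit 76108) (nat_lit 16) (node (nat_lit 4) (nat_lit
  79265) (nat_lit 17) (node (nat_lit 7) (nat_lit 81729) (nat_lit 18) (node (nat_lit 5) (nat_lit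
  83136) (nat_lit 19) nil nil) nil) nil) nil) nil) (node (nat_lit 4) (nat_lit 76108) (nat_lit 14)
  (node (nat_lit 5) (nat_lit 76108) (nat_lit 15) (node (nat_lit 7) (nat_lit 76108) (nat_lit 16)
  nil nil) nil) nil)) (node (nat_lit 4) (nat_lit 76108) (nat_lit 13) (node (nat_lit 5) (nat_lit
  76108) (nat_lit 14) (node (nat_lit 4) (nat_lit 76108) (nat_lit 15) (node (nat_lit 7) (nat_lit
  76108) (nat_lit 16) (node (nat_lit 5) (nat_lit 79548) (nat_lit 17) (node (nat_lit 7) (nat_lit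
  82025) (nat_lit 18) nil nil) nil) nil) (node (nat_lit 7) (nat_lit 76108) (nat_lit 15) (node
  (nat_lit 5) (nat_lit 76108) (nat_lit 16) nil nil) nil)) nil) nil)) (node (nat_lit 5) (nat_lit
  76108) (nat_lit 12) (node (nat_lit 7) (nat_lit 76108) (nat_lit 13) (node (nat_lit 5) (nat_lit
  76108) (nat_lit 14) nil (node (nat_lit 4) (nat_lit 76108) (nat_lit 14) nil nil)) (node (nat_lit
  12) (nat_lit 83813) (nat_lit 13) nil nil)) (node (nat_lit 12) (nat_lit 84811) (nat_lit 12) (node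
  (nat_lit 5) (nat_lit 84811) (nat_lit 13) nil nil) (node (nat_lit 0) (nat_lit 82534) (nat_lit 12)
  nil nil)))) (node (nat_lit 7) (nat_lit 76108) (nat_lit 11) (node (nat_lit 4) (nat_lit 76108)
  (nat_lit 12) (node (nat_lit 5) (nat_lit 76108) (nat_lit 13) (node (nat_lit 4) (nat_lit 76108)
  (nat_lit 14) (node (nat_lit 7) (nat_lit 76108) (nat_lit 15) (node (nat_lit 5) (nat_lit 76108)
  (nat_lit 16) (node (nat_lit 7) (nat_lit 79265) (nat_lit 17) (node (nat_lit 4) (nat_lit 81729)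
  (nat_lit 18) (node (nat_lit 5) (nat_lit 82936) (nat_lit 19) nil nil) nil) nil) nil) nil) (node
  (nat_lit 7) (nat_lit 76108) (nat_lit 14) (node (nat_lit 5) (nat_lit 76108) (nat_lit 15) (node
  (nat_lit 4) (nat_lit 76108) (nat_lit 16) nil nil) nil) nil)) (node (nat_lit 7) (nat_lit 76108)
  (nat_lit 13) (node (nat_lit 5) (nat_lit 76108) (nat_lit 14) (node (nat_lit 4) (nat_lit 76108)
  (nat_lit 15) (node (nat_lit 5) (nat_lit 76108) (nat_lit 16) nil nil) (node (nat_lit 7) (nat_lit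
  76108) (nat_lit 15) nil nil)) nil) nil)) (node (nat_lit 5) (nat_lit 76108) (nat_lit 12) (node
  (nat_lit 4) (nat_lit 76108) (nat_lit 13) (node (nat_lit 7) (nat_lit 76108) (nat_lit 14) nil
  (node (nat_lit 5) (nat_lit 76108) (nat_lit 14) nil nil)) (node (nat_lit 12) (nat_lit 83813)
  (nat_lit 13) nil nil)) (node (nat_lit 12) (nat_lit 82534) (nat_lit 12) nil (node (nat_lit 0)
  (nat_lit 82534) (nat_lit 12) nil nil)))) (node (nat_lit 0) (nat_lit 82593) (nat_lit 11) (node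
  (nat_lit 12) (nat_lit 83390) (nat_lit 12) nil nil) nil))) (node (nat_lit 4) (nat_lit 0) (nat_lit
  10) (node (nat_lit 12) (nat_lit 82948) (nat_lit 11) (node (nat_lit 5) (nat_lit 82948) (nat_lit
  12) nil nil) (node (nat_lit 5) (nat_lit 76108) (nat_lit 11) (node (nat_lit 4) (nat_lit 76108)
  (nat_lit 12) (node (nat_lit 12) (nat_lit 79856) (nat_lit 13) nil nil) nil) (node (nat_lit 7)
  (nat_lit 76108) (nat_lit 11) nil (node (nat_lit 0) (nat_lit 78437) (nat_lit 11) nil nil))))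
  (node (nat_lit 7) (nat_lit 76108) (nat_lit 10) (node (nat_lit 12) (nat_lit 82593) (nat_lit 11)
  nil (node (nat_lit 5) (nat_lit 76108) (nat_lit 11) (node (nat_lit 7) (nat_lit 76108) (nat_lit
  12) nil nil) nil)) (node (nat_lit 0) (nat_lit 80105) (nat_lit 10) (node (nat_lit 5) (nat_lit
  80105) (nat_lit 11) nil (node (nat_lit 12) (nat_lit 81126) (nat_lit 11) nil nil)) nil)))) (node
  (nat_lit 4) (nat_lit 0) (nat_lit 9) (node (nat_lit 0) (nat_lit 80105) (nat_lit 10) (node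
  (nat_lit 5) (nat_lit 80105) (nat_lit 11) (node (nat_lit 4) (nat_lit 80105) (nat_lit 12) (node
  (nat_lit 5) (nat_lit 80105) (nat_lit 13) (node (nat_lit 7) (nat_lit 80105) (nat_lit 14) (node
  (nat_lit 4) (nat_lit 80105) (nat_lit 15) (node (nat_lit 5) (nat_lit 80105) (nat_lit 16) (node
  (nat_lit 4) (nat_lit 80105) (nat_lit 17) (node (nat_lit 7) (nat_lit 82569) (nat_lit 18) (node
  (nat_lit 5) (nat_lit 84492) (nat_lit 19) (node (nat_lit 7) (nat_lit 85993) (nat_lit 20) nil nil)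
  nil) nil) nil) (node (nat_lit 7) (nat_lit 80105) (nat_lit 16) (node (nat_lit 5) (nat_lit 80105)
  (nat_lit 17) nil nil) nil)) (node (nat_lit 5) (nat_lit 80105) (nat_lit 15) (node (nat_lit 4)
  (nat_lit 80105) (nat_lit 16) (node (nat_lit 7) (nat_lit 80105) (nat_lit 17) nil nil) nil) nil))
  (node (nat_lit 13) (nat_lit 86119) (nat_lit 14) nil nil)) (node (nat_lit 7) (nat_lit 80105)
  (nat_lit 13) (node (nat_lit 5) (nat_lit 80105) (nat_lit 14) (node (nat_lit 7) (nat_lit 80105)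
  (nat_lit 15) (node (nat_lit 4) (nat_lit 80105) (nat_lit 16) (node (nat_lit 7) (nat_lit 80105)
  (nat_lit 17) nil nil) nil) (node (nat_lit 4) (nat_lit 80105) (nat_lit 15) nil nil)) (node
  (nat_lit 4) (nat_lit 80105) (nat_lit 14) (node (nat_lit 5) (nat_lit 80105) (nat_lit 15) (node
  (nat_lit 4) (nat_lit 80105) (nat_lit 16) (node (nat_lit 7) (nat_lit 80105) (nat_lit 17) (node
  (nat_lit 5) (nat_lit 82583) (nat_lit 18) nil nil) nil) (node (nat_lit 7) (nat_lit 80105)
  (nat_lit 16) nil nil)) nil) nil)) (node (nat_lit 0) (nat_lit 82545) (nat_lit 13) nil nil)))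
  (node (nat_lit 13) (nat_lit 83842) (nat_lit 12) nil nil)) (node (nat_lit 4) (nat_lit 80105)
  (nat_lit 11) (node (nat_lit 5) (nat_lit 80105) (nat_lit 12) (node (nat_lit 13) (nat_lit 85121)
  (nat_lit 13) nil nil) nil) (node (nat_lit 7) (nat_lit 80105) (nat_lit 11) nil nil))) nil) (node
  (nat_lit 7) (nat_lit 0) (nat_lit 9) (node (nat_lit 0) (nat_lit 79592) (nat_lit 10) (node
  (nat_lit 5) (nat_lit 79592) (nat_lit 11) (node (nat_lit 7) (nat_lit 79592) (nat_lit 12) (node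
  (nat_lit 4) (nat_lit 79592) (nat_lit 13) (node (nat_lit 5) (nat_lit 79592) (nat_lit 14) (node
  (nat_lit 4) (nat_lit 79592) (nat_lit 15) nil nil) (node (nat_lit 7) (nat_lit 79592) (nat_lit 14)
  (node (nat_lit 5) (nat_lit 79592) (nat_lit 15) nil nil) (node (nat_lit 13) (nat_lit 82518)
  (nat_lit 14) nil nil))) (node (nat_lit 5) (nat_lit 79592) (nat_lit 13) (node (nat_lit 4)
  (nat_lit 79592) (nat_lit 14) (node (nat_lit 7) (nat_lit 79592) (nat_lit 15) (node (nat_lit 4)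
  (nat_lit 79592) (nat_lit 16) nil nil) nil) (node (nat_lit 13) (nat_lit 85605) (nat_lit 14) nil
  (node (nat_lit 0) (nat_lit 82518) (nat_lit 14) nil nil))) (node (nat_lit 0) (nat_lit 82032)
  (nat_lit 13) nil nil))) nil) (node (nat_lit 7) (nat_lit 79592) (nat_lit 11) nil nil)) nil)
  nil))) (node (nat_lit 7) (nat_lit 0) (nat_lit 8) (node (nat_lit 0) (nat_lit 0) (nat_lit 9) (node
  (nat_lit 7) (nat_lit 0) (nat_lit 10) (node (nat_lit 5) (nat_lit 96077) (nat_lit 11) (node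
  (nat_lit 4) (nat_lit 96077) (nat_lit 12) (node (nat_lit 7) (nat_lit 96077) (nat_lit 13) (node
  (nat_lit 5) (nat_lit 96077) (nat_lit 14) nil (node (nat_lit 4) (nat_lit 96077) (nat_lit 14)
  (node (nat_lit 5) (nat_lit 96077) (nat_lit 15) nil nil) nil)) (node (nat_lit 5) (nat_lit 96077)
  (nat_lit 13) (node (nat_lit 7) (nat_lit 96077) (nat_lit 14) nil nil) nil)) (node (nat_lit 7)
  (nat_lit 96077) (nat_lit 12) (node (nat_lit 4) (nat_lit 96077) (nat_lit 13) (node (nat_lit 5)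
  (nat_lit 96077) (nat_lit 14) (node (nat_lit 4) (nat_lit 96077) (nat_lit 15) (node (nat_lit 7)
  (nat_lit 96077) (nat_lit 16) (node (nat_lit 5) (nat_lit 99059) (nat_lit 17) nil nil) nil) nil)
  nil) nil) (node (nat_lit 0) (nat_lit 99204) (nat_lit 12) nil (node (nat_lit 12) (nat_lit 99204)
  (nat_lit 12) nil nil)))) (node (nat_lit 4) (nat_lit 96077) (nat_lit 11) (node (nat_lit 5)
  (nat_lit 96077) (nat_lit 12) (node (nat_lit 7) (nat_lit 96077) (nat_lit 13) (node (nat_lit 5)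
  (nat_lit 96077) (nat_lit 14) nil (node (nat_lit 4) (nat_lit 96077) (nat_lit 14) nil nil)) (node
  (nat_lit 4) (nat_lit 96077) (nat_lit 13) nil nil)) (node (nat_lit 12) (nat_lit 102504) (nat_lit
  12) nil (node (nat_lit 0) (nat_lit 99204) (nat_lit 12) nil nil))) (node (nat_lit 0) (nat_lit
  100866) (nat_lit 11) nil nil))) (node (nat_lit 4) (nat_lit 96077) (nat_lit 10) (node (nat_lit
  12) (nat_lit 102363) (nat_lit 11) nil nil) (node (nat_lit 5) (nat_lit 96077) (nat_lit 10) nil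
  (node (nat_lit 0) (nat_lit 97386) (nat_lit 10) nil nil)))) (node (nat_lit 5) (nat_lit 0)
  (nat_lit 9) (node (nat_lit 0) (nat_lit 100403) (nat_lit 10) (node (nat_lit 7) (nat_lit 100403)
  (nat_lit 11) (node (nat_lit 5) (nat_lit 100403) (nat_lit 12) (node (nat_lit 4) (nat_lit 100403)
  (nat_lit 13) nil (node (nat_lit 7) (nat_lit 100403) (nat_lit 13) nil nil)) nil) nil) nil) nil))
  nil)))

noncomputable def t223 : Tr :=
  (node (nat_lit 5) (nat_lit 0) (nat_lit 7) (node (nat_lit 0) (nat_lit 0) (nat_lit 8) (node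
  (nat_lit 4) (nat_lit 0) (nat_lit 9) (node (nat_lit 7) (nat_lit 100996) (nat_lit 10) (node
  (nat_lit 5) (nat_lit 100996) (nat_lit 11) (node (nat_lit 7) (nat_lit 100996) (nat_lit 12) (node
  (nat_lit 4) (nat_lit 100996) (nat_lit 13) (node (nat_lit 5) (nat_lit 100996) (nat_lit 14) (node
  (nat_lit 4) (nat_lit 100996) (nat_lit 15) (node (nat_lit 7) (nat_lit 105406) (nat_lit 16) (node
  (nat_lit 5) (nat_lit 106426) (nat_lit 17) (node (nat_lit 4) (nat_lit 106645) (nat_lit 18) (node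
  (nat_lit 5) (nat_lit 106269) (nat_lit 19) nil nil) nil) nil) nil) nil) (node (nat_lit 7)
  (nat_lit 100996) (nat_lit 14) nil nil)) nil) (node (nat_lit 4) (nat_lit 100996) (nat_lit 12)
  (node (nat_lit 7) (nat_lit 100996) (nat_lit 13) (node (nat_lit 4) (nat_lit 100996) (nat_lit 14)
  (node (nat_lit 5) (nat_lit 101324) (nat_lit 15) (node (nat_lit 4) (nat_lit 104135) (nat_lit 16)
  (node (nat_lit 7) (nat_lit 104940) (nat_lit 17) (node (nat_lit 5) (nat_lit 106461) (nat_lit 18)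
  nil nil) nil) nil) nil) nil) (node (nat_lit 5) (nat_lit 100996) (nat_lit 13) nil nil)) nil))
  (node (nat_lit 4) (nat_lit 100996) (nat_lit 11) (node (nat_lit 5) (nat_lit 100996) (nat_lit 12)
  (node (nat_lit 4) (nat_lit 100996) (nat_lit 13) (node (nat_lit 7) (nat_lit 100996) (nat_lit 14)
  (node (nat_lit 5) (nat_lit 101324) (nat_lit 15) (node (nat_lit 4) (nat_lit 102357) (nat_lit 16)
  nil nil) nil) nil) (node (nat_lit 7) (nat_lit 100996) (nat_lit 13) (node (nat_lit 5) (nat_lit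
  100996) (nat_lit 14) nil (node (nat_lit 4) (nat_lit 100996) (nat_lit 14) nil nil)) nil)) nil)
  (node (nat_lit 11) (nat_lit 102869) (nat_lit 11) nil nil))) (node (nat_lit 5) (nat_lit 101340)
  (nat_lit 10) (node (nat_lit 7) (nat_lit 101522) (nat_lit 11) (node (nat_lit 4) (nat_lit 101597)
  (nat_lit 12) (node (nat_lit 5) (nat_lit 101597) (nat_lit 13) (node (nat_lit 4) (nat_lit 101597)
  (nat_lit 14) (node (nat_lit 7) (nat_lit 101436) (nat_lit 15) (node (nat_lit 5) (nat_lit 105023)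
  (nat_lit 16) (node (nat_lit 4) (nat_lit 107832) (nat_lit 17) nil nil) nil) nil) nil) (node
  (nat_lit 7) (nat_lit 101597) (nat_lit 13) nil nil)) (node (nat_lit 5) (nat_lit 101522) (nat_lit
  12) (node (nat_lit 4) (nat_lit 101522) (nat_lit 13) nil nil) nil)) (node (nat_lit 4) (nat_lit
  101398) (nat_lit 11) (node (nat_lit 7) (nat_lit 101401) (nat_lit 12) (node (nat_lit 5) (nat_lit
  101401) (nat_lit 13) (node (nat_lit 7) (nat_lit 101401) (nat_lit 14) (node (nat_lit 4) (nat_lit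
  101401) (nat_lit 15) nil nil) (node (nat_lit 4) (nat_lit 101401) (nat_lit 14) nil nil)) (node
  (nat_lit 4) (nat_lit 101401) (nat_lit 13) (node (nat_lit 5) (nat_lit 101401) (nat_lit 14) (node
  (nat_lit 7) (nat_lit 101401) (nat_lit 15) nil nil) nil) nil)) (node (nat_lit 11) (nat_lit
  103644) (nat_lit 12) nil nil)) nil)) (node (nat_lit 11) (nat_lit 109892) (nat_lit 10) (node
  (nat_lit 5) (nat_lit 109892) (nat_lit 11) (node (nat_lit 4) (nat_lit 109892) (nat_lit 12) (node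
  (nat_lit 5) (nat_lit 109892) (nat_lit 13) (node (nat_lit 7) (nat_lit 109892) (nat_lit 14) (node
  (nat_lit 4) (nat_lit 109892) (nat_lit 15) (node (nat_lit 5) (nat_lit 109892) (nat_lit 16) (node
  (nat_lit 4) (nat_lit 109986) (nat_lit 17) (node (nat_lit 7) (nat_lit 110231) (nat_lit 18) nil
  nil) nil) nil) nil) nil) (node (nat_lit 7) (nat_lit 109892) (nat_lit 13) (node (nat_lit 4)
  (nat_lit 109892) (nat_lit 14) (node (nat_lit 5) (nat_lit 109892) (nat_lit 15) (node (nat_lit 4)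
  (nat_lit 109892) (nat_lit 16) (node (nat_lit 7) (nat_lit 110092) (nat_lit 17) (node (nat_lit 5)
  (nat_lit 110231) (nat_lit 18) nil nil) nil) nil) nil) nil) nil)) nil) nil) (node (nat_lit 0)
  (nat_lit 105448) (nat_lit 10) nil nil)))) (node (nat_lit 7) (nat_lit 0) (nat_lit 9) (node
  (nat_lit 5) (nat_lit 101043) (nat_lit 10) (node (nat_lit 7) (nat_lit 101043) (nat_lit 11) (node
  (nat_lit 4) (nat_lit 101043) (nat_lit 12) (node (nat_lit 5) (nat_lit 101043) (nat_lit 13) (node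
  (nat_lit 4) (nat_lit 101043) (nat_lit 14) (node (nat_lit 7) (nat_lit 101371) (nat_lit 15) (node
  (nat_lit 5) (nat_lit 104299) (nat_lit 16) (node (nat_lit 4) (nat_lit 107124) (nat_lit 17) (node
  (nat_lit 5) (nat_lit 107888) (nat_lit 18) nil nil) nil) (node (nat_lit 4) (nat_lit 102154)
  (nat_lit 16) nil nil)) nil) (node (nat_lit 7) (nat_lit 101043) (nat_lit 14) nil nil)) (node
  (nat_lit 7) (nat_lit 101043) (nat_lit 13) (node (nat_lit 5) (nat_lit 101043) (nat_lit 14) (node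
  (nat_lit 4) (nat_lit 101043) (nat_lit 15) nil nil) nil) nil)) (node (nat_lit 11) (nat_lit
  103288) (nat_lit 12) nil nil)) (node (nat_lit 4) (nat_lit 101043) (nat_lit 11) (node (nat_lit 7)
  (nat_lit 101043) (nat_lit 12) (node (nat_lit 4) (nat_lit 101043) (nat_lit 13) nil (node (nat_lit
  5) (nat_lit 101043) (nat_lit 13) nil nil)) (node (nat_lit 5) (nat_lit 101043) (nat_lit 12) (node
  (nat_lit 7) (nat_lit 101043) (nat_lit 13) nil nil) nil)) (node (nat_lit 11) (nat_lit 107144)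
  (nat_lit 11) nil nil))) (node (nat_lit 4) (nat_lit 101043) (nat_lit 10) (node (nat_lit 5)
  (nat_lit 101043) (nat_lit 11) (node (nat_lit 7) (nat_lit 101043) (nat_lit 12) (node (nat_lit 4)
  (nat_lit 101043) (nat_lit 13) nil (node (nat_lit 5) (nat_lit 101043) (nat_lit 13) nil nil))
  (node (nat_lit 4) (nat_lit 101043) (nat_lit 12) (node (nat_lit 7) (nat_lit 101043) (nat_lit 13)
  nil nil) nil)) (node (nat_lit 7) (nat_lit 101043) (nat_lit 11) (node (nat_lit 5) (nat_lit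
  101043) (nat_lit 12) (node (nat_lit 4) (nat_lit 101043) (nat_lit 13) (node (nat_lit 5) (nat_lit
  101043) (nat_lit 14) nil (node (nat_lit 7) (nat_lit 101043) (nat_lit 14) nil nil)) (node
  (nat_lit 7) (nat_lit 101043) (nat_lit 13) (node (nat_lit 4) (nat_lit 101043) (nat_lit 14) nil
  nil) nil)) nil) (node (nat_lit 11) (nat_lit 102916) (nat_lit 11) nil nil))) (node (nat_lit 11)
  (nat_lit 108768) (nat_lit 10) (node (nat_lit 5) (nat_lit 108768) (nat_lit 11) nil (node (nat_lit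
  4) (nat_lit 108768) (nat_lit 11) nil nil)) (node (nat_lit 0) (nat_lit 105589) (nat_lit 10) nil
  nil)))) (node (nat_lit 5) (nat_lit 0) (nat_lit 9) (node (nat_lit 4) (nat_lit 101380) (nat_lit
  10) (node (nat_lit 7) (nat_lit 101380) (nat_lit 11) (node (nat_lit 4) (nat_lit 101380) (nat_lit
  12) (node (nat_lit 5) (nat_lit 101380) (nat_lit 13) (node (nat_lit 4) (nat_lit 101380) (nat_lit
  14) (node (nat_lit 7) (nat_lit 101559) (nat_lit 15) (node (nat_lit 5) (nat_lit 104519) (nat_lit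
  16) (node (nat_lit 4) (nat_lit 105325) (nat_lit 17) (node (nat_lit 5) (nat_lit 106051) (nat_lit
  18) nil nil) nil) nil) nil) (node (nat_lit 7) (nat_lit 101380) (nat_lit 14) nil nil)) nil) (node
  (nat_lit 5) (nat_lit 101380) (nat_lit 12) nil nil)) (node (nat_lit 5) (nat_lit 101380) (nat_lit
  11) (node (nat_lit 7) (nat_lit 101380) (nat_lit 12) (node (nat_lit 4) (nat_lit 101380) (nat_lit
  13) (node (nat_lit 5) (nat_lit 101380) (nat_lit 14) (node (nat_lit 4) (nat_lit 101535) (nat_lit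
  15) (node (nat_lit 7) (nat_lit 105045) (nat_lit 16) (node (nat_lit 5) (nat_lit 104998) (nat_lit
  17) nil nil) nil) nil) nil) (node (nat_lit 5) (nat_lit 101380) (nat_lit 13) nil nil)) nil) nil))
  (node (nat_lit 7) (nat_lit 101493) (nat_lit 10) (node (nat_lit 4) (nat_lit 101568) (nat_lit 11)
  (node (nat_lit 5) (nat_lit 101568) (nat_lit 12) (node (nat_lit 4) (nat_lit 101568) (nat_lit 13)
  (node (nat_lit 7) (nat_lit 101568) (nat_lit 14) (node (nat_lit 5) (nat_lit 101568) (nat_lit 15)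
  (node (nat_lit 4) (nat_lit 105199) (nat_lit 16) (node (nat_lit 5) (nat_lit 105853) (nat_lit 17)
  nil nil) nil) nil) nil) nil) (node (nat_lit 7) (nat_lit 101568) (nat_lit 12) (node (nat_lit 5)
  (nat_lit 101568) (nat_lit 13) nil nil) nil)) (node (nat_lit 5) (nat_lit 101493) (nat_lit 11)
  (node (nat_lit 4) (nat_lit 101493) (nat_lit 12) (node (nat_lit 5) (nat_lit 101493) (nat_lit 13)
  nil (node (nat_lit 7) (nat_lit 101493) (nat_lit 13) nil nil)) nil) nil)) (node (nat_lit 0)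
  (nat_lit 105679) (nat_lit 10) nil nil))) (node (nat_lit 0) (nat_lit 106846) (nat_lit 9) (node
  (nat_lit 5) (nat_lit 106846) (nat_lit 10) nil (node (nat_lit 11) (nat_lit 107458) (nat_lit 10)
  nil nil)) nil)))) (node (nat_lit 7) (nat_lit 0) (nat_lit 8) (node (nat_lit 0) (nat_lit 0)
  (nat_lit 9) (node (nat_lit 7) (nat_lit 0) (nat_lit 10) (node (nat_lit 4) (nat_lit 104875)
  (nat_lit 11) (node (nat_lit 5) (nat_lit 104875) (nat_lit 12) (node (nat_lit 7) (nat_lit 104875)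
  (nat_lit 13) (node (nat_lit 5) (nat_lit 104875) (nat_lit 14) (node (nat_lit 4) (nat_lit 104875)
  (nat_lit 15) (node (nat_lit 7) (nat_lit 104875) (nat_lit 16) nil nil) nil) (node (nat_lit 4)
  (nat_lit 104875) (nat_lit 14) (node (nat_lit 7) (nat_lit 104875) (nat_lit 15) nil nil) nil))
  (node (nat_lit 4) (nat_lit 104875) (nat_lit 13) (node (nat_lit 7) (nat_lit 104875) (nat_lit 14)
  (node (nat_lit 5) (nat_lit 104875) (nat_lit 15) nil nil) nil) nil)) (node (nat_lit 7) (nat_lit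
  104875) (nat_lit 12) (node (nat_lit 5) (nat_lit 104875) (nat_lit 13) (node (nat_lit 4) (nat_lit
  104875) (nat_lit 14) nil (node (nat_lit 7) (nat_lit 104875) (nat_lit 14) nil nil)) (node
  (nat_lit 12) (nat_lit 108623) (nat_lit 13) nil nil)) (node (nat_lit 12) (nat_lit 108001)
  (nat_lit 12) nil (node (nat_lit 0) (nat_lit 108001) (nat_lit 12) nil nil)))) (node (nat_lit 5)
  (nat_lit 104875) (nat_lit 11) (node (nat_lit 4) (nat_lit 104875) (nat_lit 12) (node (nat_lit 7)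
  (nat_lit 104875) (nat_lit 13) (node (nat_lit 4) (nat_lit 104875) (nat_lit 14) (node (nat_lit 5)
  (nat_lit 104875) (nat_lit 15) (node (nat_lit 7) (nat_lit 104875) (nat_lit 16) nil nil) nil)
  (node (nat_lit 5) (nat_lit 104875) (nat_lit 14) (node (nat_lit 7) (nat_lit 104875) (nat_lit 15)
  nil nil) nil)) (node (nat_lit 5) (nat_lit 104875) (nat_lit 13) (node (nat_lit 7) (nat_lit
  104875) (nat_lit 14) (node (nat_lit 4) (nat_lit 104875) (nat_lit 15) nil (node (nat_lit 5)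
  (nat_lit 104875) (nat_lit 15) nil nil)) nil) nil)) (node (nat_lit 7) (nat_lit 104875) (nat_lit
  12) (node (nat_lit 4) (nat_lit 104875) (nat_lit 13) (node (nat_lit 5) (nat_lit 104875) (nat_lit
  14) nil (node (nat_lit 7) (nat_lit 104875) (nat_lit 14) nil nil)) (node (nat_lit 12) (nat_lit
  108623) (nat_lit 13) nil nil)) (node (nat_lit 12) (nat_lit 110231) (nat_lit 12) nil (node
  (nat_lit 0) (nat_lit 108001) (nat_lit 12) nil nil)))) (node (nat_lit 0) (nat_lit 109663)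
  (nat_lit 11) nil nil))) (node (nat_lit 5) (nat_lit 104875) (nat_lit 10) (node (nat_lit 7)
  (nat_lit 104875) (nat_lit 11) (node (nat_lit 5) (nat_lit 104875) (nat_lit 12) nil nil) (node
  (nat_lit 12) (nat_lit 109663) (nat_lit 11) nil (node (nat_lit 4) (nat_lit 104875) (nat_lit 11)
  nil nil))) (node (nat_lit 4) (nat_lit 104875) (nat_lit 10) nil (node (nat_lit 0) (nat_lit
  108891) (nat_lit 10) nil nil)))) (node (nat_lit 5) (nat_lit 0) (nat_lit 9) (node (nat_lit 0)
  (nat_lit 108138) (nat_lit 10) (node (nat_lit 7) (nat_lit 108138) (nat_lit 11) (node (nat_lit 5)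
  (nat_lit 108138) (nat_lit 12) (node (nat_lit 7) (nat_lit 108138) (nat_lit 13) (node (nat_lit 4)
  (nat_lit 108138) (nat_lit 14) (node (nat_lit 5) (nat_lit 108138) (nat_lit 15) (node (nat_lit 4)
  (nat_lit 108138) (nat_lit 16) (node (nat_lit 7) (nat_lit 108138) (nat_lit 17) (node (nat_lit 5)
  (nat_lit 110231) (nat_lit 18) (node (nat_lit 4) (nat_lit 110231) (nat_lit 19) nil nil) nil) nil)
  (node (nat_lit 7) (nat_lit 108138) (nat_lit 16) nil nil)) (node (nat_lit 7) (nat_lit 108138)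
  (nat_lit 15) nil nil)) nil) (node (nat_lit 4) (nat_lit 108138) (nat_lit 13) (node (nat_lit 7)
  (nat_lit 108138) (nat_lit 14) (node (nat_lit 4) (nat_lit 108138) (nat_lit 15) (node (nat_lit 5)
  (nat_lit 108138) (nat_lit 16) (node (nat_lit 4) (nat_lit 108338) (nat_lit 17) (node (nat_lit 7)
  (nat_lit 109510) (nat_lit 18) (node (nat_lit 5) (nat_lit 110231) (nat_lit 19) (node (nat_lit 4)
  (nat_lit 110231) (nat_lit 20) nil nil) nil) nil) nil) nil) nil) (node (nat_lit 5) (nat_lit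
  108138) (nat_lit 14) nil nil)) nil)) nil) (node (nat_lit 5) (nat_lit 108138) (nat_lit 11) (node
  (nat_lit 7) (nat_lit 108138) (nat_lit 12) nil nil) nil)) nil) (node (nat_lit 4) (nat_lit 0)
  (nat_lit 9) (node (nat_lit 0) (nat_lit 110053) (nat_lit 10) (node (nat_lit 7) (nat_lit 110053)
  (nat_lit 11) (node (nat_lit 4) (nat_lit 110053) (nat_lit 12) (node (nat_lit 5) (nat_lit 110053)
  (nat_lit 13) (node (nat_lit 7) (nat_lit 110053) (nat_lit 14) (node (nat_lit 5) (nat_lit 110053)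
  (nat_lit 15) nil nil) (node (nat_lit 4) (nat_lit 110053) (nat_lit 14) (node (nat_lit 7) (nat_lit
  110053) (nat_lit 15) nil nil) nil)) (node (nat_lit 7) (nat_lit 110053) (nat_lit 13) (node
  (nat_lit 5) (nat_lit 110053) (nat_lit 14) (node (nat_lit 4) (nat_lit 110053) (nat_lit 15) nil
  nil) nil) nil)) nil) (node (nat_lit 4) (nat_lit 110053) (nat_lit 11) nil nil)) nil) nil))) nil))
  (node (nat_lit 0) (nat_lit 0) (nat_lit 7) (node (nat_lit 5) (nat_lit 98807) (nat_lit 8) (node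
  (nat_lit 7) (nat_lit 99519) (nat_lit 9) (node (nat_lit 4) (nat_lit 99519) (nat_lit 10) (node
  (nat_lit 5) (nat_lit 99519) (nat_lit 11) (node (nat_lit 4) (nat_lit 99519) (nat_lit 12) (node
  (nat_lit 7) (nat_lit 99519) (nat_lit 13) (node (nat_lit 5) (nat_lit 99519) (nat_lit 14) (node
  (nat_lit 4) (nat_lit 103071) (nat_lit 15) (node (nat_lit 10) (nat_lit 19551) (nat_lit 16) nil
  nil) nil) (node (nat_lit 4) (nat_lit 99184) (nat_lit 14) (node (nat_lit 5) (nat_lit 101692)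
  (nat_lit 15) nil nil) nil)) nil) (node (nat_lit 7) (nat_lit 99519) (nat_lit 12) nil nil)) (node
  (nat_lit 7) (nat_lit 99519) (nat_lit 11) (node (nat_lit 5) (nat_lit 99519) (nat_lit 12) (node
  (nat_lit 4) (nat_lit 99519) (nat_lit 13) (node (nat_lit 7) (nat_lit 99519) (nat_lit 14) nil
  (node (nat_lit 5) (nat_lit 99519) (nat_lit 14) nil nil)) (node (nat_lit 7) (nat_lit 99519)
  (nat_lit 13) (node (nat_lit 4) (nat_lit 99519) (nat_lit 14) nil nil) nil)) nil) nil)) (node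
  (nat_lit 5) (nat_lit 99790) (nat_lit 10) (node (nat_lit 4) (nat_lit 99790) (nat_lit 11) (node
  (nat_lit 5) (nat_lit 99790) (nat_lit 12) (node (nat_lit 7) (nat_lit 99790) (nat_lit 13) (node
  (nat_lit 4) (nat_lit 99987) (nat_lit 14) (node (nat_lit 5) (nat_lit 101820) (nat_lit 15) (node
  (nat_lit 4) (nat_lit 103080) (nat_lit 16) (node (nat_lit 7) (nat_lit 104387) (nat_lit 17) (node
  (nat_lit 5) (nat_lit 105666) (nat_lit 18) (node (nat_lit 4) (nat_lit 107002) (nat_lit 19) nil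
  nil) nil) nil) nil) nil) nil) nil) (node (nat_lit 7) (nat_lit 99790) (nat_lit 12) nil nil)) nil)
  (node (nat_lit 10) (nat_lit 101918) (nat_lit 10) nil nil))) (node (nat_lit 4) (nat_lit 99509)
  (nat_lit 9) (node (nat_lit 7) (nat_lit 99371) (nat_lit 10) (node (nat_lit 4) (nat_lit 99725)
  (nat_lit 11) (node (nat_lit 5) (nat_lit 100171) (nat_lit 12) (node (nat_lit 4) (nat_lit 100171)
  (nat_lit 13) (node (nat_lit 7) (nat_lit 100304) (nat_lit 14) (node (nat_lit 5) (nat_lit 103093)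
  (nat_lit 15) (node (nat_lit 4) (nat_lit 103511) (nat_lit 16) nil nil) nil) nil) (node (nat_lit
  7) (nat_lit 100171) (nat_lit 13) (node (nat_lit 5) (nat_lit 100171) (nat_lit 14) nil (node
  (nat_lit 4) (nat_lit 100171) (nat_lit 14) nil nil)) nil)) nil) (node (nat_lit 5) (nat_lit 99371)
  (nat_lit 11) (node (nat_lit 7) (nat_lit 99371) (nat_lit 12) (node (nat_lit 4) (nat_lit 99371)
  (nat_lit 13) (node (nat_lit 5) (nat_lit 99371) (nat_lit 14) (node (nat_lit 4) (nat_lit 104094)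
  (nat_lit 15) (node (nat_lit 7) (nat_lit 106473) (nat_lit 16) nil nil) nil) (node (nat_lit 7)
  (nat_lit 99371) (nat_lit 14) nil nil)) nil) (node (nat_lit 4) (nat_lit 99371) (nat_lit 12) (node
  (nat_lit 5) (nat_lit 99371) (nat_lit 13) nil nil) nil)) nil)) (node (nat_lit 5) (nat_lit 100197)
  (nat_lit 10) (node (nat_lit 7) (nat_lit 100530) (nat_lit 11) (node (nat_lit 4) (nat_lit 100530)
  (nat_lit 12) (node (nat_lit 5) (nat_lit 100530) (nat_lit 13) (node (nat_lit 4) (nat_lit 100726)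
  (nat_lit 14) (node (nat_lit 7) (nat_lit 104118) (nat_lit 15) (node (nat_lit 5) (nat_lit 104925)
  (nat_lit 16) nil nil) nil) nil) nil) nil) nil) nil)) (node (nat_lit 10) (nat_lit 109165)
  (nat_lit 9) nil nil))) (node (nat_lit 7) (nat_lit 98709) (nat_lit 8) (node (nat_lit 5) (nat_lit
  99533) (nat_lit 9) (node (nat_lit 4) (nat_lit 99462) (nat_lit 10) (node (nat_lit 5) (nat_lit
  99462) (nat_lit 11) (node (nat_lit 7) (nat_lit 99462) (nat_lit 12) (node (nat_lit 4) (nat_lit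
  99462) (nat_lit 13) (node (nat_lit 5) (nat_lit 99659) (nat_lit 14) (node (nat_lit 4) (nat_lit
  102192) (nat_lit 15) (node (nat_lit 7) (nat_lit 104485) (nat_lit 16) nil nil) nil) (node
  (nat_lit 7) (nat_lit 99462) (nat_lit 14) nil nil)) (node (nat_lit 5) (nat_lit 99462) (nat_lit
  13) nil nil)) nil) (node (nat_lit 7) (nat_lit 99580) (nat_lit 11) (node (nat_lit 5) (nat_lit
  99580) (nat_lit 12) (node (nat_lit 7) (nat_lit 99580) (nat_lit 13) (node (nat_lit 4) (nat_lit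
  99580) (nat_lit 14) (node (nat_lit 5) (nat_lit 102429) (nat_lit 15) (node (nat_lit 4) (nat_lit
  105400) (nat_lit 16) nil nil) nil) nil) nil) (node (nat_lit 4) (nat_lit 99580) (nat_lit 12)
  (node (nat_lit 5) (nat_lit 99580) (nat_lit 13) (node (nat_lit 4) (nat_lit 99580) (nat_lit 14)
  nil (node (nat_lit 7) (nat_lit 99580) (nat_lit 14) nil nil)) nil) nil)) nil)) (node (nat_lit 7)
  (nat_lit 99922) (nat_lit 10) (node (nat_lit 4) (nat_lit 99922) (nat_lit 11) (node (nat_lit 5)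
  (nat_lit 99922) (nat_lit 12) (node (nat_lit 4) (nat_lit 99922) (nat_lit 13) (node (nat_lit 7)
  (nat_lit 99922) (nat_lit 14) (node (nat_lit 5) (nat_lit 102573) (nat_lit 15) (node (nat_lit 4)
  (nat_lit 105579) (nat_lit 16) nil nil) nil) nil) nil) nil) nil) (node (nat_lit 10) (nat_lit
  101933) (nat_lit 10) nil nil))) (node (nat_lit 4) (nat_lit 99197) (nat_lit 9) (node (nat_lit 5)
  (nat_lit 99197) (nat_lit 10) (node (nat_lit 4) (nat_lit 99197) (nat_lit 11) (node (nat_lit 7)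
  (nat_lit 99197) (nat_lit 12) (node (nat_lit 5) (nat_lit 99197) (nat_lit 13) (node (nat_lit 7)
  (nat_lit 99197) (nat_lit 14) nil (node (nat_lit 4) (nat_lit 99197) (nat_lit 14) nil nil)) (node
  (nat_lit 4) (nat_lit 99197) (nat_lit 13) (node (nat_lit 5) (nat_lit 99197) (nat_lit 14) nil nil)
  nil)) nil) (node (nat_lit 7) (nat_lit 99197) (nat_lit 11) (node (nat_lit 5) (nat_lit 99197)
  (nat_lit 12) (node (nat_lit 4) (nat_lit 99197) (nat_lit 13) nil nil) (node (nat_lit 4) (nat_lit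
  99197) (nat_lit 12) (node (nat_lit 7) (nat_lit 99197) (nat_lit 13) nil nil) nil)) nil)) (node
  (nat_lit 7) (nat_lit 99571) (nat_lit 10) (node (nat_lit 5) (nat_lit 99571) (nat_lit 11) (node
  (nat_lit 4) (nat_lit 99571) (nat_lit 12) nil nil) nil) (node (nat_lit 10) (nat_lit 101597)
  (nat_lit 10) nil nil))) (node (nat_lit 10) (nat_lit 109061) (nat_lit 9) nil nil))) (node
  (nat_lit 4) (nat_lit 98453) (nat_lit 8) (node (nat_lit 5) (nat_lit 99636) (nat_lit 9) (node
  (nat_lit 7) (nat_lit 100661) (nat_lit 10) (node (nat_lit 5) (nat_lit 100661) (nat_lit 11) (node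
  (nat_lit 4) (nat_lit 100661) (nat_lit 12) (node (nat_lit 7) (nat_lit 100661) (nat_lit 13) (node
  (nat_lit 4) (nat_lit 100607) (nat_lit 14) (node (nat_lit 5) (nat_lit 103115) (nat_lit 15) (node
  (nat_lit 4) (nat_lit 104688) (nat_lit 16) (node (nat_lit 7) (nat_lit 104783) (nat_lit 17) (node
  (nat_lit 5) (nat_lit 105590) (nat_lit 18) nil nil) nil) nil) nil) (node (nat_lit 5) (nat_lit
  100661) (nat_lit 14) nil nil)) (node (nat_lit 5) (nat_lit 100661) (nat_lit 13) nil nil)) nil)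
  (node (nat_lit 4) (nat_lit 100852) (nat_lit 11) (node (nat_lit 7) (nat_lit 100852) (nat_lit 12)
  (node (nat_lit 5) (nat_lit 100852) (nat_lit 13) (node (nat_lit 7) (nat_lit 100852) (nat_lit 14)
  nil (node (nat_lit 4) (nat_lit 100852) (nat_lit 14) nil nil)) nil) (node (nat_lit 5) (nat_lit
  100852) (nat_lit 12) (node (nat_lit 4) (nat_lit 100852) (nat_lit 13) (node (nat_lit 7) (nat_lit
  100642) (nat_lit 14) (node (nat_lit 5) (nat_lit 104157) (nat_lit 15) nil nil) nil) nil) nil))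
  nil)) (node (nat_lit 4) (nat_lit 99886) (nat_lit 10) (node (nat_lit 7) (nat_lit 99886) (nat_lit
  11) (node (nat_lit 5) (nat_lit 99886) (nat_lit 12) nil nil) nil) nil)) (node (nat_lit 7)
  (nat_lit 99760) (nat_lit 9) (node (nat_lit 5) (nat_lit 100709) (nat_lit 10) (node (nat_lit 7)
  (nat_lit 100828) (nat_lit 11) (node (nat_lit 4) (nat_lit 100858) (nat_lit 12) (node (nat_lit 5)
  (nat_lit 100858) (nat_lit 13) (node (nat_lit 4) (nat_lit 100858) (nat_lit 14) (node (nat_lit 7)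
  (nat_lit 105408) (nat_lit 15) (node (nat_lit 5) (nat_lit 105321) (nat_lit 16) (node (nat_lit 4)
  (nat_lit 105563) (nat_lit 17) nil nil) nil) nil) (node (nat_lit 7) (nat_lit 100858) (nat_lit 14)
  nil nil)) (node (nat_lit 7) (nat_lit 100858) (nat_lit 13) (node (nat_lit 5) (nat_lit 100858)
  (nat_lit 14) nil nil) nil)) nil) (node (nat_lit 4) (nat_lit 100930) (nat_lit 11) (node (nat_lit
  5) (nat_lit 101202) (nat_lit 12) (node (nat_lit 7) (nat_lit 101202) (nat_lit 13) (node (nat_lit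
  4) (nat_lit 101399) (nat_lit 14) (node (nat_lit 5) (nat_lit 103232) (nat_lit 15) (node (nat_lit
  4) (nat_lit 104493) (nat_lit 16) nil nil) nil) (node (nat_lit 5) (nat_lit 101202) (nat_lit 14)
  nil nil)) nil) (node (nat_lit 7) (nat_lit 100930) (nat_lit 12) nil nil)) nil)) (node (nat_lit 4)
  (nat_lit 100331) (nat_lit 10) (node (nat_lit 5) (nat_lit 100331) (nat_lit 11) (node (nat_lit 7)
  (nat_lit 100331) (nat_lit 12) nil nil) nil) (node (nat_lit 10) (nat_lit 102160) (nat_lit 10) nil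
  nil))) nil)) (node (nat_lit 0) (nat_lit 106347) (nat_lit 8) nil nil)))) nil))

noncomputable def t224 : Tr :=
  (node (nat_lit 7) (nat_lit 0) (nat_lit 7) (node (nat_lit 0) (nat_lit 0) (nat_lit 8) (node
  (nat_lit 5) (nat_lit 0) (nat_lit 9) (node (nat_lit 7) (nat_lit 73677) (nat_lit 10) (node
  (nat_lit 4) (nat_lit 73379) (nat_lit 11) (node (nat_lit 5) (nat_lit 73351) (nat_lit 12) (node
  (nat_lit 7) (nat_lit 73351) (nat_lit 13) nil (node (nat_lit 4) (nat_lit 73435) (nat_lit 13)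
  (node (nat_lit 7) (nat_lit 73435) (nat_lit 14) (node (nat_lit 4) (nat_lit 74110) (nat_lit 15)
  (node (nat_lit 5) (nat_lit 74387) (nat_lit 16) (node (nat_lit 7) (nat_lit 74630) (nat_lit 17)
  nil nil) nil) nil) nil) nil)) (node (nat_lit 7) (nat_lit 73463) (nat_lit 12) (node (nat_lit 5)
  (nat_lit 73388) (nat_lit 13) nil nil) nil)) (node (nat_lit 5) (nat_lit 75300) (nat_lit 11) (node
  (nat_lit 4) (nat_lit 75300) (nat_lit 12) (node (nat_lit 7) (nat_lit 75300) (nat_lit 13) (node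
  (nat_lit 4) (nat_lit 75300) (nat_lit 14) (node (nat_lit 5) (nat_lit 75300) (nat_lit 15) (node
  (nat_lit 4) (nat_lit 77067) (nat_lit 16) (node (nat_lit 7) (nat_lit 77059) (nat_lit 17) nil nil)
  (node (nat_lit 7) (nat_lit 76083) (nat_lit 16) nil nil)) nil) (node (nat_lit 5) (nat_lit 75300)
  (nat_lit 14) nil nil)) (node (nat_lit 5) (nat_lit 75300) (nat_lit 13) (node (nat_lit 7) (nat_lit
  75300) (nat_lit 14) (node (nat_lit 4) (nat_lit 75300) (nat_lit 15) nil nil) nil) nil)) nil)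
  nil)) (node (nat_lit 4) (nat_lit 73237) (nat_lit 10) (node (nat_lit 7) (nat_lit 74155) (nat_lit
  11) (node (nat_lit 5) (nat_lit 74155) (nat_lit 12) (node (nat_lit 4) (nat_lit 74155) (nat_lit
  13) nil (node (nat_lit 7) (nat_lit 74155) (nat_lit 13) nil nil)) (node (nat_lit 4) (nat_lit
  74915) (nat_lit 12) (node (nat_lit 5) (nat_lit 75300) (nat_lit 13) nil nil) nil)) (node (nat_lit
  5) (nat_lit 73835) (nat_lit 11) (node (nat_lit 7) (nat_lit 73890) (nat_lit 12) (node (nat_lit 4)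
  (nat_lit 73973) (nat_lit 13) (node (nat_lit 7) (nat_lit 73369) (nat_lit 14) nil (node (nat_lit
  5) (nat_lit 73973) (nat_lit 14) nil nil)) (node (nat_lit 5) (nat_lit 73815) (nat_lit 13) (node
  (nat_lit 4) (nat_lit 73815) (nat_lit 14) nil nil) nil)) nil) (node (nat_lit 11) (nat_lit 76058)
  (nat_lit 11) nil nil))) (node (nat_lit 11) (nat_lit 78113) (nat_lit 10) (node (nat_lit 7)
  (nat_lit 78113) (nat_lit 11) (node (nat_lit 5) (nat_lit 78113) (nat_lit 12) (node (nat_lit 7)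
  (nat_lit 78113) (nat_lit 13) (node (nat_lit 4) (nat_lit 78113) (nat_lit 14) (node (nat_lit 5)
  (nat_lit 78113) (nat_lit 15) (node (nat_lit 4) (nat_lit 78113) (nat_lit 16) (node (nat_lit 7)
  (nat_lit 78355) (nat_lit 17) (node (nat_lit 4) (nat_lit 78575) (nat_lit 18) (node (nat_lit 5)
  (nat_lit 78754) (nat_lit 19) (node (nat_lit 7) (nat_lit 78894) (nat_lit 20) nil nil) nil) nil)
  nil) nil) nil) nil) nil) nil) (node (nat_lit 4) (nat_lit 78113) (nat_lit 11) nil nil)) (node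
  (nat_lit 0) (nat_lit 72811) (nat_lit 10) nil nil)))) (node (nat_lit 4) (nat_lit 0) (nat_lit 9)
  (node (nat_lit 5) (nat_lit 73504) (nat_lit 10) (node (nat_lit 7) (nat_lit 74159) (nat_lit 11)
  (node (nat_lit 4) (nat_lit 74708) (nat_lit 12) (node (nat_lit 5) (nat_lit 74708) (nat_lit 13)
  (node (nat_lit 4) (nat_lit 74708) (nat_lit 14) (node (nat_lit 7) (nat_lit 75300) (nat_lit 15)
  (node (nat_lit 4) (nat_lit 75661) (nat_lit 16) (node (nat_lit 5) (nat_lit 75904) (nat_lit 17)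
  (node (nat_lit 7) (nat_lit 76123) (nat_lit 18) nil nil) nil) nil) nil) nil) (node (nat_lit 7)
  (nat_lit 74708) (nat_lit 13) nil nil)) (node (nat_lit 5) (nat_lit 74130) (nat_lit 12) (node
  (nat_lit 4) (nat_lit 74130) (nat_lit 13) (node (nat_lit 7) (nat_lit 74130) (nat_lit 14) (node
  (nat_lit 4) (nat_lit 74805) (nat_lit 15) (node (nat_lit 5) (nat_lit 75083) (nat_lit 16) (node
  (nat_lit 4) (nat_lit 74435) (nat_lit 17) nil nil) nil) nil) nil) nil) nil)) (node (nat_lit 4)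
  (nat_lit 74950) (nat_lit 11) (node (nat_lit 7) (nat_lit 75300) (nat_lit 12) (node (nat_lit 5)
  (nat_lit 75300) (nat_lit 13) (node (nat_lit 7) (nat_lit 75300) (nat_lit 14) (node (nat_lit 4)
  (nat_lit 75300) (nat_lit 15) (node (nat_lit 5) (nat_lit 77383) (nat_lit 16) nil nil) nil) (node
  (nat_lit 4) (nat_lit 75300) (nat_lit 14) nil nil)) (node (nat_lit 4) (nat_lit 75300) (nat_lit
  13) (node (nat_lit 5) (nat_lit 75300) (nat_lit 14) nil nil) nil)) nil) (node (nat_lit 11)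
  (nat_lit 76325) (nat_lit 11) nil nil))) (node (nat_lit 7) (nat_lit 73430) (nat_lit 10) (node
  (nat_lit 4) (nat_lit 74240) (nat_lit 11) (node (nat_lit 5) (nat_lit 74780) (nat_lit 12) (node
  (nat_lit 7) (nat_lit 75300) (nat_lit 13) (node (nat_lit 5) (nat_lit 75300) (nat_lit 14) (node
  (nat_lit 4) (nat_lit 75300) (nat_lit 15) nil nil) (node (nat_lit 4) (nat_lit 75300) (nat_lit 14)
  nil nil)) (node (nat_lit 4) (nat_lit 75199) (nat_lit 13) (node (nat_lit 7) (nat_lit 74594)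
  (nat_lit 14) (node (nat_lit 5) (nat_lit 73916) (nat_lit 15) nil nil) nil) nil)) nil) (node
  (nat_lit 5) (nat_lit 73830) (nat_lit 11) (node (nat_lit 4) (nat_lit 73830) (nat_lit 12) (node
  (nat_lit 5) (nat_lit 73830) (nat_lit 13) nil nil) (node (nat_lit 7) (nat_lit 73830) (nat_lit 12)
  (node (nat_lit 4) (nat_lit 73830) (nat_lit 13) nil nil) nil)) (node (nat_lit 11) (nat_lit 76251)
  (nat_lit 11) nil nil))) (node (nat_lit 11) (nat_lit 78472) (nat_lit 10) (node (nat_lit 7)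
  (nat_lit 78472) (nat_lit 11) nil (node (nat_lit 5) (nat_lit 78472) (nat_lit 11) nil nil)) (node
  (nat_lit 0) (nat_lit 72572) (nat_lit 10) nil nil)))) (node (nat_lit 7) (nat_lit 0) (nat_lit 9)
  (node (nat_lit 5) (nat_lit 73830) (nat_lit 10) (node (nat_lit 4) (nat_lit 75005) (nat_lit 11)
  (node (nat_lit 5) (nat_lit 75005) (nat_lit 12) nil (node (nat_lit 7) (nat_lit 75300) (nat_lit
  12) nil nil)) (node (nat_lit 7) (nat_lit 74999) (nat_lit 11) (node (nat_lit 4) (nat_lit 74999)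
  (nat_lit 12) (node (nat_lit 5) (nat_lit 74999) (nat_lit 13) (node (nat_lit 4) (nat_lit 74999)
  (nat_lit 14) (node (nat_lit 7) (nat_lit 75300) (nat_lit 15) (node (nat_lit 4) (nat_lit 75952)
  (nat_lit 16) (node (nat_lit 5) (nat_lit 76195) (nat_lit 17) nil nil) nil) nil) (node (nat_lit 7)
  (nat_lit 74999) (nat_lit 14) nil nil)) (node (nat_lit 7) (nat_lit 74999) (nat_lit 13) nil nil))
  nil) (node (nat_lit 11) (nat_lit 75025) (nat_lit 11) nil nil))) (node (nat_lit 4) (nat_lit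
  73472) (nat_lit 10) (node (nat_lit 5) (nat_lit 75242) (nat_lit 11) (node (nat_lit 7) (nat_lit
  74526) (nat_lit 12) nil (node (nat_lit 4) (nat_lit 75300) (nat_lit 12) (node (nat_lit 7)
  (nat_lit 75300) (nat_lit 13) (node (nat_lit 4) (nat_lit 75300) (nat_lit 14) (node (nat_lit 5)
  (nat_lit 75300) (nat_lit 15) (node (nat_lit 7) (nat_lit 76083) (nat_lit 16) nil nil) nil) nil)
  nil) nil)) (node (nat_lit 7) (nat_lit 74951) (nat_lit 11) (node (nat_lit 5) (nat_lit 75300)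
  (nat_lit 12) (node (nat_lit 4) (nat_lit 75300) (nat_lit 13) nil (node (nat_lit 7) (nat_lit
  75300) (nat_lit 13) nil nil)) nil) nil)) (node (nat_lit 0) (nat_lit 73955) (nat_lit 10) nil
  nil))) (node (nat_lit 0) (nat_lit 76570) (nat_lit 9) (node (nat_lit 7) (nat_lit 76570) (nat_lit
  10) nil (node (nat_lit 11) (nat_lit 76847) (nat_lit 10) nil (node (nat_lit 4) (nat_lit 76570)
  (nat_lit 10) nil (node (nat_lit 5) (nat_lit 76570) (nat_lit 10) nil nil)))) nil)))) (node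
  (nat_lit 4) (nat_lit 0) (nat_lit 8) (node (nat_lit 0) (nat_lit 0) (nat_lit 9) (node (nat_lit 4)
  (nat_lit 0) (nat_lit 10) (node (nat_lit 5) (nat_lit 76181) (nat_lit 11) (node (nat_lit 7)
  (nat_lit 76181) (nat_lit 12) (node (nat_lit 5) (nat_lit 76181) (nat_lit 13) (node (nat_lit 4)
  (nat_lit 76181) (nat_lit 14) (node (nat_lit 7) (nat_lit 76181) (nat_lit 15) nil (node (nat_lit
  5) (nat_lit 76181) (nat_lit 15) nil nil)) nil) (node (nat_lit 4) (nat_lit 76181) (nat_lit 13)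
  (node (nat_lit 5) (nat_lit 76181) (nat_lit 14) (node (nat_lit 4) (nat_lit 76181) (nat_lit 15)
  (node (nat_lit 7) (nat_lit 76181) (nat_lit 16) (node (nat_lit 4) (nat_lit 79326) (nat_lit 17)
  (node (nat_lit 5) (nat_lit 80082) (nat_lit 18) (node (nat_lit 7) (nat_lit 80418) (nat_lit 19)
  nil nil) nil) nil) nil) nil) (node (nat_lit 7) (nat_lit 76181) (nat_lit 14) (node (nat_lit 5)
  (nat_lit 76181) (nat_lit 15) nil nil) nil)) nil)) (node (nat_lit 4) (nat_lit 76181) (nat_lit 12)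
  (node (nat_lit 7) (nat_lit 76181) (nat_lit 13) (node (nat_lit 5) (nat_lit 76181) (nat_lit 14)
  nil (node (nat_lit 4) (nat_lit 76181) (nat_lit 14) nil nil)) (node (nat_lit 12) (nat_lit 79896)
  (nat_lit 13) nil nil)) (node (nat_lit 12) (nat_lit 78671) (nat_lit 12) nil (node (nat_lit 0)
  (nat_lit 79307) (nat_lit 12) nil nil)))) (node (nat_lit 7) (nat_lit 76181) (nat_lit 11) (node
  (nat_lit 5) (nat_lit 76181) (nat_lit 12) (node (nat_lit 4) (nat_lit 76181) (nat_lit 13) (node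
  (nat_lit 5) (nat_lit 76181) (nat_lit 14) (node (nat_lit 7) (nat_lit 76181) (nat_lit 15) (node
  (nat_lit 4) (nat_lit 76181) (nat_lit 16) nil nil) nil) (node (nat_lit 7) (nat_lit 76181)
  (nat_lit 14) (node (nat_lit 4) (nat_lit 76181) (nat_lit 15) nil nil) nil)) (node (nat_lit 7)
  (nat_lit 76181) (nat_lit 13) (node (nat_lit 4) (nat_lit 76181) (nat_lit 14) (node (nat_lit 5)
  (nat_lit 76181) (nat_lit 15) nil nil) nil) nil)) (node (nat_lit 4) (nat_lit 76181) (nat_lit 12)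
  (node (nat_lit 5) (nat_lit 76181) (nat_lit 13) (node (nat_lit 7) (nat_lit 76181) (nat_lit 14)
  nil (node (nat_lit 4) (nat_lit 76181) (nat_lit 14) nil nil)) (node (nat_lit 12) (nat_lit 79188)
  (nat_lit 13) nil nil)) (node (nat_lit 12) (nat_lit 81142) (nat_lit 12) nil (node (nat_lit 0)
  (nat_lit 78589) (nat_lit 12) nil nil)))) (node (nat_lit 0) (nat_lit 79570) (nat_lit 11) nil
  nil))) (node (nat_lit 7) (nat_lit 75816) (nat_lit 10) (node (nat_lit 4) (nat_lit 76181) (nat_lit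
  11) (node (nat_lit 7) (nat_lit 76181) (nat_lit 12) nil nil) (node (nat_lit 12) (nat_lit 79347)
  (nat_lit 11) (node (nat_lit 4) (nat_lit 79347) (nat_lit 12) nil nil) (node (nat_lit 5) (nat_lit
  75816) (nat_lit 11) nil nil))) (node (nat_lit 5) (nat_lit 75630) (nat_lit 10) (node (nat_lit 4)
  (nat_lit 75630) (nat_lit 11) nil (node (nat_lit 12) (nat_lit 76889) (nat_lit 11) nil nil)) (node
  (nat_lit 0) (nat_lit 78143) (nat_lit 10) (node (nat_lit 4) (nat_lit 78143) (nat_lit 11) nil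
  (node (nat_lit 12) (nat_lit 78694) (nat_lit 11) nil nil)) nil)))) (node (nat_lit 7) (nat_lit 0)
  (nat_lit 9) (node (nat_lit 0) (nat_lit 79523) (nat_lit 10) (node (nat_lit 4) (nat_lit 79523)
  (nat_lit 11) (node (nat_lit 7) (nat_lit 79523) (nat_lit 12) (node (nat_lit 5) (nat_lit 79523)
  (nat_lit 13) (node (nat_lit 4) (nat_lit 79523) (nat_lit 14) (node (nat_lit 5) (nat_lit 79523)
  (nat_lit 15) (node (nat_lit 7) (nat_lit 79523) (nat_lit 16) nil nil) (node (nat_lit 7) (nat_lit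
  79523) (nat_lit 15) nil nil)) (node (nat_lit 7) (nat_lit 79523) (nat_lit 14) (node (nat_lit 4)
  (nat_lit 79523) (nat_lit 15) (node (nat_lit 5) (nat_lit 79523) (nat_lit 16) nil nil) nil) nil))
  (node (nat_lit 4) (nat_lit 79523) (nat_lit 13) (node (nat_lit 5) (nat_lit 79523) (nat_lit 14)
  (node (nat_lit 7) (nat_lit 79523) (nat_lit 15) (node (nat_lit 5) (nat_lit 79523) (nat_lit 16)
  (node (nat_lit 4) (nat_lit 79523) (nat_lit 17) nil nil) (node (nat_lit 4) (nat_lit 79523)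
  (nat_lit 16) nil nil)) (node (nat_lit 4) (nat_lit 79523) (nat_lit 15) (node (nat_lit 7) (nat_lit
  79523) (nat_lit 16) nil nil) nil)) (node (nat_lit 13) (nat_lit 82433) (nat_lit 14) nil (node
  (nat_lit 0) (nat_lit 82433) (nat_lit 14) nil nil))) (node (nat_lit 0) (nat_lit 81963) (nat_lit
  13) nil nil))) (node (nat_lit 13) (nat_lit 81328) (nat_lit 12) nil nil)) (node (nat_lit 7)
  (nat_lit 79523) (nat_lit 11) (node (nat_lit 4) (nat_lit 79523) (nat_lit 12) nil nil) (node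
  (nat_lit 5) (nat_lit 79523) (nat_lit 11) nil nil))) nil) nil)) (node (nat_lit 5) (nat_lit 0)
  (nat_lit 8) (node (nat_lit 0) (nat_lit 0) (nat_lit 9) (node (nat_lit 5) (nat_lit 0) (nat_lit 10)
  (node (nat_lit 4) (nat_lit 74015) (nat_lit 11) (node (nat_lit 7) (nat_lit 74015) (nat_lit 12)
  (node (nat_lit 5) (nat_lit 74015) (nat_lit 13) (node (nat_lit 7) (nat_lit 74015) (nat_lit 14)
  (node (nat_lit 4) (nat_lit 74015) (nat_lit 15) nil nil) (node (nat_lit 4) (nat_lit 74015)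
  (nat_lit 14) (node (nat_lit 5) (nat_lit 74015) (nat_lit 15) nil nil) nil)) (node (nat_lit 4)
  (nat_lit 74015) (nat_lit 13) (node (nat_lit 5) (nat_lit 74015) (nat_lit 14) (node (nat_lit 7)
  (nat_lit 74015) (nat_lit 15) nil (node (nat_lit 4) (nat_lit 74015) (nat_lit 15) nil nil)) nil)
  nil)) (node (nat_lit 5) (nat_lit 74015) (nat_lit 12) (node (nat_lit 7) (nat_lit 74015) (nat_lit
  13) (node (nat_lit 5) (nat_lit 74015) (nat_lit 14) nil (node (nat_lit 4) (nat_lit 74015)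
  (nat_lit 14) nil nil)) nil) (node (nat_lit 12) (nat_lit 77142) (nat_lit 12) nil nil))) (node
  (nat_lit 7) (nat_lit 74015) (nat_lit 11) (node (nat_lit 4) (nat_lit 74015) (nat_lit 12) (node
  (nat_lit 5) (nat_lit 74015) (nat_lit 13) (node (nat_lit 4) (nat_lit 74015) (nat_lit 14) (node
  (nat_lit 7) (nat_lit 74015) (nat_lit 15) (node (nat_lit 4) (nat_lit 74015) (nat_lit 16) (node
  (nat_lit 5) (nat_lit 76933) (nat_lit 17) (node (nat_lit 7) (nat_lit 77974) (nat_lit 18) nil nil)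
  nil) (node (nat_lit 5) (nat_lit 74015) (nat_lit 16) nil nil)) nil) (node (nat_lit 7) (nat_lit
  74015) (nat_lit 14) (node (nat_lit 5) (nat_lit 74015) (nat_lit 15) nil nil) nil)) (node (nat_lit
  7) (nat_lit 74015) (nat_lit 13) (node (nat_lit 5) (nat_lit 74015) (nat_lit 14) (node (nat_lit 4)
  (nat_lit 74015) (nat_lit 15) nil nil) nil) nil)) (node (nat_lit 5) (nat_lit 74015) (nat_lit 12)
  (node (nat_lit 4) (nat_lit 74015) (nat_lit 13) (node (nat_lit 7) (nat_lit 74015) (nat_lit 14)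
  nil (node (nat_lit 5) (nat_lit 74015) (nat_lit 14) nil nil)) nil) (node (nat_lit 12) (nat_lit
  77142) (nat_lit 12) nil nil))) (node (nat_lit 0) (nat_lit 76336) (nat_lit 11) nil nil))) (node
  (nat_lit 7) (nat_lit 74015) (nat_lit 10) (node (nat_lit 5) (nat_lit 74015) (nat_lit 11) (node
  (nat_lit 7) (nat_lit 74015) (nat_lit 12) nil nil) (node (nat_lit 12) (nat_lit 76345) (nat_lit
  11) nil (node (nat_lit 4) (nat_lit 74015) (nat_lit 11) nil nil))) (node (nat_lit 4) (nat_lit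
  74015) (nat_lit 10) (node (nat_lit 5) (nat_lit 74015) (nat_lit 11) nil (node (nat_lit 12)
  (nat_lit 76264) (nat_lit 11) nil nil)) (node (nat_lit 0) (nat_lit 76161) (nat_lit 10) nil
  nil)))) (node (nat_lit 4) (nat_lit 0) (nat_lit 9) (node (nat_lit 0) (nat_lit 78517) (nat_lit 10)
  (node (nat_lit 5) (nat_lit 78517) (nat_lit 11) (node (nat_lit 4) (nat_lit 78517) (nat_lit 12)
  (node (nat_lit 5) (nat_lit 78517) (nat_lit 13) (node (nat_lit 7) (nat_lit 78517) (nat_lit 14)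
  (node (nat_lit 4) (nat_lit 78517) (nat_lit 15) nil nil) (node (nat_lit 13) (nat_lit 81443)
  (nat_lit 14) nil nil)) (node (nat_lit 7) (nat_lit 78517) (nat_lit 13) (node (nat_lit 5) (nat_lit
  78517) (nat_lit 14) (node (nat_lit 7) (nat_lit 78517) (nat_lit 15) nil nil) (node (nat_lit 4)
  (nat_lit 78517) (nat_lit 14) (node (nat_lit 5) (nat_lit 78517) (nat_lit 15) nil nil) nil)) (node
  (nat_lit 0) (nat_lit 80957) (nat_lit 13) nil nil))) nil) (node (nat_lit 4) (nat_lit 78517)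
  (nat_lit 11) nil nil)) nil) nil)) nil))) (node (nat_lit 0) (nat_lit 0) (nat_lit 7) (node
  (nat_lit 7) (nat_lit 64880) (nat_lit 8) (node (nat_lit 5) (nat_lit 67871) (nat_lit 9) (node
  (nat_lit 4) (nat_lit 69363) (nat_lit 10) (node (nat_lit 5) (nat_lit 70338) (nat_lit 11) (node
  (nat_lit 7) (nat_lit 70338) (nat_lit 12) (node (nat_lit 5) (nat_lit 70338) (nat_lit 13) nil
  (node (nat_lit 4) (nat_lit 70338) (nat_lit 13) (node (nat_lit 5) (nat_lit 71608) (nat_lit 14)
  (node (nat_lit 4) (nat_lit 70930) (nat_lit 15) nil nil) (node (nat_lit 7) (nat_lit 71608)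
  (nat_lit 14) nil nil)) nil)) nil) (node (nat_lit 7) (nat_lit 70338) (nat_lit 11) (node (nat_lit
  4) (nat_lit 70338) (nat_lit 12) (node (nat_lit 5) (nat_lit 70338) (nat_lit 13) nil nil) (node
  (nat_lit 5) (nat_lit 70338) (nat_lit 12) (node (nat_lit 7) (nat_lit 70338) (nat_lit 13) (node
  (nat_lit 4) (nat_lit 71608) (nat_lit 14) (node (nat_lit 5) (nat_lit 72283) (nat_lit 15) nil nil)
  nil) nil) nil)) nil)) (node (nat_lit 7) (nat_lit 69947) (nat_lit 10) (node (nat_lit 4) (nat_lit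
  69947) (nat_lit 11) (node (nat_lit 5) (nat_lit 69947) (nat_lit 12) (node (nat_lit 4) (nat_lit
  69947) (nat_lit 13) (node (nat_lit 7) (nat_lit 71216) (nat_lit 14) (node (nat_lit 4) (nat_lit
  71892) (nat_lit 15) (node (nat_lit 5) (nat_lit 72169) (nat_lit 16) nil nil) nil) nil) nil) nil)
  nil) nil)) (node (nat_lit 4) (nat_lit 67693) (nat_lit 9) (node (nat_lit 5) (nat_lit 67956)
  (nat_lit 10) (node (nat_lit 7) (nat_lit 68351) (nat_lit 11) (node (nat_lit 5) (nat_lit 68351)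
  (nat_lit 12) (node (nat_lit 4) (nat_lit 68351) (nat_lit 13) nil nil) (node (nat_lit 4) (nat_lit
  68351) (nat_lit 12) nil nil)) (node (nat_lit 4) (nat_lit 68931) (nat_lit 11) (node (nat_lit 7)
  (nat_lit 70155) (nat_lit 12) (node (nat_lit 4) (nat_lit 70155) (nat_lit 13) (node (nat_lit 5)
  (nat_lit 71424) (nat_lit 14) nil nil) (node (nat_lit 5) (nat_lit 70840) (nat_lit 13) (node
  (nat_lit 7) (nat_lit 72109) (nat_lit 14) nil nil) nil)) nil) nil)) (node (nat_lit 7) (nat_lit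
  69777) (nat_lit 10) (node (nat_lit 5) (nat_lit 69777) (nat_lit 11) (node (nat_lit 4) (nat_lit
  69777) (nat_lit 12) nil nil) nil) (node (nat_lit 10) (nat_lit 69915) (nat_lit 10) nil nil)))
  (node (nat_lit 10) (nat_lit 74603) (nat_lit 9) nil nil))) (node (nat_lit 4) (nat_lit 64819)
  (nat_lit 8) (node (nat_lit 5) (nat_lit 67869) (nat_lit 9) (node (nat_lit 7) (nat_lit 68680)
  (nat_lit 10) (node (nat_lit 4) (nat_lit 69654) (nat_lit 11) (node (nat_lit 7) (nat_lit 69654)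
  (nat_lit 12) (node (nat_lit 5) (nat_lit 69654) (nat_lit 13) nil nil) (node (nat_lit 5) (nat_lit
  69654) (nat_lit 12) (node (nat_lit 4) (nat_lit 69654) (nat_lit 13) (node (nat_lit 7) (nat_lit
  70923) (nat_lit 14) (node (nat_lit 4) (nat_lit 71598) (nat_lit 15) (node (nat_lit 5) (nat_lit
  71876) (nat_lit 16) nil nil) nil) nil) nil) nil)) (node (nat_lit 5) (nat_lit 68680) (nat_lit 11)
  (node (nat_lit 4) (nat_lit 68680) (nat_lit 12) (node (nat_lit 7) (nat_lit 68680) (nat_lit 13)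
  (node (nat_lit 4) (nat_lit 69949) (nat_lit 14) (node (nat_lit 5) (nat_lit 70625) (nat_lit 15)
  (node (nat_lit 4) (nat_lit 69811) (nat_lit 16) nil nil) nil) nil) (node (nat_lit 5) (nat_lit
  68680) (nat_lit 13) nil nil)) nil) nil)) (node (nat_lit 4) (nat_lit 69857) (nat_lit 10) (node
  (nat_lit 7) (nat_lit 69857) (nat_lit 11) (node (nat_lit 5) (nat_lit 69857) (nat_lit 12) nil nil)
  nil) nil)) (node (nat_lit 7) (nat_lit 67305) (nat_lit 9) (node (nat_lit 5) (nat_lit 69524)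
  (nat_lit 10) (node (nat_lit 7) (nat_lit 69484) (nat_lit 11) (node (nat_lit 4) (nat_lit 69484)
  (nat_lit 12) (node (nat_lit 5) (nat_lit 69484) (nat_lit 13) (node (nat_lit 4) (nat_lit 68865)
  (nat_lit 14) (node (nat_lit 7) (nat_lit 69151) (nat_lit 15) (node (nat_lit 4) (nat_lit 68357)
  (nat_lit 16) (node (nat_lit 5) (nat_lit 67423) (nat_lit 17) nil nil) nil) nil) (node (nat_lit 7)
  (nat_lit 70753) (nat_lit 14) nil nil)) (node (nat_lit 7) (nat_lit 69484) (nat_lit 13) nil nil))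
  nil) (node (nat_lit 4) (nat_lit 71081) (nat_lit 11) (node (nat_lit 5) (nat_lit 71081) (nat_lit
  12) (node (nat_lit 7) (nat_lit 71081) (nat_lit 13) (node (nat_lit 4) (nat_lit 72350) (nat_lit
  14) (node (nat_lit 5) (nat_lit 73026) (nat_lit 15) nil nil) (node (nat_lit 5) (nat_lit 72350)
  (nat_lit 14) nil nil)) nil) (node (nat_lit 7) (nat_lit 71081) (nat_lit 12) (node (nat_lit 4)
  (nat_lit 71081) (nat_lit 13) nil nil) nil)) nil)) (node (nat_lit 4) (nat_lit 68157) (nat_lit 10)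
  (node (nat_lit 5) (nat_lit 68157) (nat_lit 11) (node (nat_lit 7) (nat_lit 68157) (nat_lit 12)
  nil nil) nil) nil)) (node (nat_lit 10) (nat_lit 74603) (nat_lit 9) nil nil))) (node (nat_lit 5)
  (nat_lit 64747) (nat_lit 8) (node (nat_lit 4) (nat_lit 67434) (nat_lit 9) (node (nat_lit 7)
  (nat_lit 68924) (nat_lit 10) (node (nat_lit 5) (nat_lit 68924) (nat_lit 11) (node (nat_lit 7)
  (nat_lit 68924) (nat_lit 12) (node (nat_lit 4) (nat_lit 68924) (nat_lit 13) (node (nat_lit 5)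
  (nat_lit 70193) (nat_lit 14) (node (nat_lit 4) (nat_lit 69515) (nat_lit 15) (node (nat_lit 7)
  (nat_lit 69396) (nat_lit 16) (node (nat_lit 4) (nat_lit 68933) (nat_lit 17) (node (nat_lit 5)
  (nat_lit 68411) (nat_lit 18) nil nil) nil) nil) nil) (node (nat_lit 7) (nat_lit 70193) (nat_lit
  14) nil nil)) nil) (node (nat_lit 4) (nat_lit 68924) (nat_lit 12) nil nil)) (node (nat_lit 4)
  (nat_lit 68924) (nat_lit 11) (node (nat_lit 5) (nat_lit 68924) (nat_lit 12) (node (nat_lit 7)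
  (nat_lit 68924) (nat_lit 13) (node (nat_lit 5) (nat_lit 70193) (nat_lit 14) nil nil) (node
  (nat_lit 4) (nat_lit 68924) (nat_lit 13) nil nil)) nil) nil)) (node (nat_lit 5) (nat_lit 69211)
  (nat_lit 10) (node (nat_lit 7) (nat_lit 69211) (nat_lit 11) (node (nat_lit 4) (nat_lit 69211)
  (nat_lit 12) (node (nat_lit 5) (nat_lit 69211) (nat_lit 13) (node (nat_lit 4) (nat_lit 68592)
  (nat_lit 14) (node (nat_lit 7) (nat_lit 68879) (nat_lit 15) (node (nat_lit 4) (nat_lit 68084)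
  (nat_lit 16) (node (nat_lit 5) (nat_lit 67150) (nat_lit 17) nil nil) nil) nil) nil) nil) nil)
  nil) nil)) (node (nat_lit 7) (nat_lit 67947) (nat_lit 9) (node (nat_lit 4) (nat_lit 70168)
  (nat_lit 10) (node (nat_lit 5) (nat_lit 70439) (nat_lit 11) (node (nat_lit 7) (nat_lit 70439)
  (nat_lit 12) (node (nat_lit 5) (nat_lit 70439) (nat_lit 13) nil nil) (node (nat_lit 4) (nat_lit
  70439) (nat_lit 12) (node (nat_lit 7) (nat_lit 70439) (nat_lit 13) (node (nat_lit 4) (nat_lit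
  71708) (nat_lit 14) (node (nat_lit 5) (nat_lit 72384) (nat_lit 15) nil nil) (node (nat_lit 5)
  (nat_lit 69820) (nat_lit 14) nil nil)) nil) nil)) (node (nat_lit 7) (nat_lit 71191) (nat_lit 11)
  (node (nat_lit 5) (nat_lit 71131) (nat_lit 12) (node (nat_lit 4) (nat_lit 70461) (nat_lit 13)
  (node (nat_lit 5) (nat_lit 69842) (nat_lit 14) nil nil) (node (nat_lit 7) (nat_lit 71131)
  (nat_lit 13) (node (nat_lit 4) (nat_lit 72400) (nat_lit 14) (node (nat_lit 5) (nat_lit 73075)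
  (nat_lit 15) nil nil) nil) nil)) nil) nil)) (node (nat_lit 5) (nat_lit 70029) (nat_lit 10) (node
  (nat_lit 4) (nat_lit 70029) (nat_lit 11) (node (nat_lit 7) (nat_lit 70029) (nat_lit 12) nil nil)
  nil) nil)) nil)) (node (nat_lit 0) (nat_lit 64845) (nat_lit 8) nil nil)))) nil))

noncomputable def c69 : Tr :=
  (node (nat_lit 3) (nat_lit 0) (nat_lit 1) (node (nat_lit 3) (nat_lit 0) (nat_lit 2) (node
  (nat_lit 3) (nat_lit 0) (nat_lit 3) t221 (node (nat_lit 4) (nat_lit 0) (nat_lit 3) (node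
  (nat_lit 3) (nat_lit 0) (nat_lit 4) (node (nat_lit 5) (nat_lit 0) (nat_lit 5) (node (nat_lit 7)
  (nat_lit 0) (nat_lit 6) (node (nat_lit 4) (nat_lit 0) (nat_lit 7) t222 (node (nat_lit 0)
  (nat_lit 0) (nat_lit 7) (node (nat_lit 4) (nat_lit 106145) (nat_lit 8) (node (nat_lit 7)
  (nat_lit 106145) (nat_lit 9) (node (nat_lit 5) (nat_lit 106145) (nat_lit 10) (node (nat_lit 7)
  (nat_lit 106145) (nat_lit 11) (node (nat_lit 4) (nat_lit 106145) (nat_lit 12) (node (nat_lit 5)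
  (nat_lit 106145) (nat_lit 13) (node (nat_lit 4) (nat_lit 106145) (nat_lit 14) (node (nat_lit 7)
  (nat_lit 110231) (nat_lit 15) (node (nat_lit 5) (nat_lit 110231) (nat_lit 16) nil nil) nil)
  (node (nat_lit 7) (nat_lit 106145) (nat_lit 14) nil nil)) (node (nat_lit 7) (nat_lit 106145)
  (nat_lit 13) nil nil)) nil) (node (nat_lit 4) (nat_lit 106145) (nat_lit 11) (node (nat_lit 5)
  (nat_lit 106145) (nat_lit 12) (node (nat_lit 7) (nat_lit 106145) (nat_lit 13) nil nil) (node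
  (nat_lit 7) (nat_lit 106145) (nat_lit 12) nil nil)) nil)) (node (nat_lit 4) (nat_lit 106145)
  (nat_lit 10) (node (nat_lit 5) (nat_lit 106145) (nat_lit 11) (node (nat_lit 7) (nat_lit 106145)
  (nat_lit 12) nil nil) nil) nil)) (node (nat_lit 5) (nat_lit 106145) (nat_lit 9) (node (nat_lit
  7) (nat_lit 106145) (nat_lit 10) (node (nat_lit 5) (nat_lit 106145) (nat_lit 11) (node (nat_lit
  4) (nat_lit 106145) (nat_lit 12) (node (nat_lit 7) (nat_lit 106145) (nat_lit 13) (node (nat_lit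
  4) (nat_lit 105810) (nat_lit 14) (node (nat_lit 5) (nat_lit 108317) (nat_lit 15) (node (nat_lit
  4) (nat_lit 109890) (nat_lit 16) (node (nat_lit 7) (nat_lit 109985) (nat_lit 17) (node (nat_lit
  5) (nat_lit 110231) (nat_lit 18) nil nil) nil) nil) nil) (node (nat_lit 5) (nat_lit 106145)
  (nat_lit 14) nil nil)) (node (nat_lit 5) (nat_lit 106145) (nat_lit 13) nil nil)) nil) (node
  (nat_lit 4) (nat_lit 106145) (nat_lit 11) (node (nat_lit 5) (nat_lit 106145) (nat_lit 12) (node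
  (nat_lit 4) (nat_lit 106145) (nat_lit 13) (node (nat_lit 7) (nat_lit 106145) (nat_lit 14) (node
  (nat_lit 5) (nat_lit 110071) (nat_lit 15) (node (nat_lit 7) (nat_lit 110231) (nat_lit 16) nil
  nil) nil) nil) nil) (node (nat_lit 7) (nat_lit 106145) (nat_lit 12) (node (nat_lit 5) (nat_lit
  106145) (nat_lit 13) (node (nat_lit 4) (nat_lit 106145) (nat_lit 14) nil nil) nil) nil)) nil))
  (node (nat_lit 4) (nat_lit 106145) (nat_lit 10) (node (nat_lit 7) (nat_lit 106145) (nat_lit 11)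
  (node (nat_lit 5) (nat_lit 106145) (nat_lit 12) nil nil) nil) nil)) (node (nat_lit 10) (nat_lit
  110231) (nat_lit 9) (node (nat_lit 5) (nat_lit 110231) (nat_lit 10) (node (nat_lit 7) (nat_lit
  110231) (nat_lit 11) (node (nat_lit 4) (nat_lit 110231) (nat_lit 12) (node (nat_lit 5) (nat_lit
  110231) (nat_lit 13) (node (nat_lit 4) (nat_lit 110231) (nat_lit 14) (node (nat_lit 7) (nat_lit
  110231) (nat_lit 15) (node (nat_lit 5) (nat_lit 110231) (nat_lit 16) (node (nat_lit 7) (nat_lit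
  110231) (nat_lit 17) nil nil) nil) nil) nil) nil) nil) nil) nil) nil))) (node (nat_lit 5)
  (nat_lit 106480) (nat_lit 8) (node (nat_lit 4) (nat_lit 106480) (nat_lit 9) (node (nat_lit 7)
  (nat_lit 106480) (nat_lit 10) (node (nat_lit 4) (nat_lit 106480) (nat_lit 11) (node (nat_lit 5)
  (nat_lit 106480) (nat_lit 12) (node (nat_lit 7) (nat_lit 106480) (nat_lit 13) (node (nat_lit 5)
  (nat_lit 106480) (nat_lit 14) nil (node (nat_lit 4) (nat_lit 106480) (nat_lit 14) nil nil))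
  (node (nat_lit 4) (nat_lit 106480) (nat_lit 13) (node (nat_lit 7) (nat_lit 106480) (nat_lit 14)
  (node (nat_lit 5) (nat_lit 109431) (nat_lit 15) (node (nat_lit 7) (nat_lit 110231) (nat_lit 16)
  nil nil) nil) nil) nil)) nil) (node (nat_lit 5) (nat_lit 106480) (nat_lit 11) (node (nat_lit 7)
  (nat_lit 106480) (nat_lit 12) (node (nat_lit 4) (nat_lit 106480) (nat_lit 13) (node (nat_lit 5)
  (nat_lit 106480) (nat_lit 14) (node (nat_lit 4) (nat_lit 110231) (nat_lit 15) (node (nat_lit 7)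
  (nat_lit 110231) (nat_lit 16) nil nil) nil) nil) nil) (node (nat_lit 4) (nat_lit 106480)
  (nat_lit 12) nil nil)) nil)) (node (nat_lit 5) (nat_lit 106480) (nat_lit 10) (node (nat_lit 7)
  (nat_lit 106480) (nat_lit 11) (node (nat_lit 4) (nat_lit 106480) (nat_lit 12) (node (nat_lit 5)
  (nat_lit 106480) (nat_lit 13) (node (nat_lit 4) (nat_lit 106480) (nat_lit 14) (node (nat_lit 7)
  (nat_lit 110231) (nat_lit 15) (node (nat_lit 5) (nat_lit 110231) (nat_lit 16) nil nil) nil) nil)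
  nil) nil) nil) nil)) (node (nat_lit 7) (nat_lit 106480) (nat_lit 9) (node (nat_lit 4) (nat_lit
  106480) (nat_lit 10) (node (nat_lit 5) (nat_lit 106480) (nat_lit 11) (node (nat_lit 4) (nat_lit
  106480) (nat_lit 12) (node (nat_lit 7) (nat_lit 106480) (nat_lit 13) (node (nat_lit 5) (nat_lit
  106480) (nat_lit 14) (node (nat_lit 7) (nat_lit 108651) (nat_lit 15) (node (nat_lit 10) (nat_lit
  24569) (nat_lit 16) nil nil) nil) (node (nat_lit 4) (nat_lit 106174) (nat_lit 14) (node (nat_lit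
  5) (nat_lit 108682) (nat_lit 15) nil nil) nil)) nil) (node (nat_lit 7) (nat_lit 106480) (nat_lit
  12) (node (nat_lit 5) (nat_lit 106480) (nat_lit 13) nil nil) nil)) (node (nat_lit 7) (nat_lit
  106480) (nat_lit 11) (node (nat_lit 5) (nat_lit 106480) (nat_lit 12) (node (nat_lit 4) (nat_lit
  106480) (nat_lit 13) (node (nat_lit 5) (nat_lit 106480) (nat_lit 14) nil nil) (node (nat_lit 7)
  (nat_lit 106480) (nat_lit 13) (node (nat_lit 4) (nat_lit 106480) (nat_lit 14) (node (nat_lit 5)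
  (nat_lit 109336) (nat_lit 15) nil nil) nil) nil)) nil) nil)) (node (nat_lit 5) (nat_lit 106480)
  (nat_lit 10) (node (nat_lit 4) (nat_lit 106480) (nat_lit 11) (node (nat_lit 7) (nat_lit 106480)
  (nat_lit 12) nil nil) nil) nil)) (node (nat_lit 10) (nat_lit 108268) (nat_lit 9) nil nil)))
  (node (nat_lit 7) (nat_lit 106188) (nat_lit 8) (node (nat_lit 5) (nat_lit 106480) (nat_lit 9)
  (node (nat_lit 4) (nat_lit 106480) (nat_lit 10) (node (nat_lit 5) (nat_lit 106480) (nat_lit 11)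
  (node (nat_lit 7) (nat_lit 106480) (nat_lit 12) (node (nat_lit 4) (nat_lit 106480) (nat_lit 13)
  (node (nat_lit 5) (nat_lit 106480) (nat_lit 14) (node (nat_lit 4) (nat_lit 109840) (nat_lit 15)
  nil nil) (node (nat_lit 7) (nat_lit 106480) (nat_lit 14) nil nil)) (node (nat_lit 5) (nat_lit
  106480) (nat_lit 13) nil nil)) nil) (node (nat_lit 7) (nat_lit 106480) (nat_lit 11) (node
  (nat_lit 4) (nat_lit 106480) (nat_lit 12) (node (nat_lit 5) (nat_lit 106480) (nat_lit 13) (node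
  (nat_lit 4) (nat_lit 106480) (nat_lit 14) (node (nat_lit 7) (nat_lit 107868) (nat_lit 15) nil
  nil) (node (nat_lit 7) (nat_lit 106480) (nat_lit 14) nil nil)) nil) (node (nat_lit 5) (nat_lit
  106480) (nat_lit 12) (node (nat_lit 7) (nat_lit 106480) (nat_lit 13) nil nil) nil)) nil)) (node
  (nat_lit 7) (nat_lit 106480) (nat_lit 10) (node (nat_lit 4) (nat_lit 106480) (nat_lit 11) (node
  (nat_lit 5) (nat_lit 106480) (nat_lit 12) (node (nat_lit 4) (nat_lit 106480) (nat_lit 13) (node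
  (nat_lit 7) (nat_lit 106480) (nat_lit 14) (node (nat_lit 5) (nat_lit 109131) (nat_lit 15) nil
  nil) nil) (node (nat_lit 7) (nat_lit 106480) (nat_lit 13) nil nil)) nil) nil) nil)) (node
  (nat_lit 4) (nat_lit 106480) (nat_lit 9) (node (nat_lit 5) (nat_lit 106480) (nat_lit 10) (node
  (nat_lit 7) (nat_lit 106480) (nat_lit 11) (node (nat_lit 5) (nat_lit 106480) (nat_lit 12) (node
  (nat_lit 4) (nat_lit 106480) (nat_lit 13) nil nil) (node (nat_lit 4) (nat_lit 106480) (nat_lit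
  12) nil nil)) (node (nat_lit 4) (nat_lit 106480) (nat_lit 11) (node (nat_lit 7) (nat_lit 106480)
  (nat_lit 12) (node (nat_lit 5) (nat_lit 106480) (nat_lit 13) (node (nat_lit 7) (nat_lit 106480)
  (nat_lit 14) (node (nat_lit 4) (nat_lit 110231) (nat_lit 15) nil nil) nil) (node (nat_lit 4)
  (nat_lit 106480) (nat_lit 13) nil nil)) nil) nil)) (node (nat_lit 7) (nat_lit 106480) (nat_lit
  10) (node (nat_lit 5) (nat_lit 106480) (nat_lit 11) (node (nat_lit 4) (nat_lit 106480) (nat_lit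
  12) (node (nat_lit 7) (nat_lit 106480) (nat_lit 13) (node (nat_lit 4) (nat_lit 106263) (nat_lit
  14) (node (nat_lit 5) (nat_lit 108770) (nat_lit 15) (node (nat_lit 4) (nat_lit 110231) (nat_lit
  16) (node (nat_lit 7) (nat_lit 110231) (nat_lit 17) (node (nat_lit 5) (nat_lit 110231) (nat_lit
  18) (node (nat_lit 7) (nat_lit 110231) (nat_lit 19) nil nil) nil) nil) nil) nil) nil) nil) nil)
  nil) nil)) nil)) (node (nat_lit 0) (nat_lit 108267) (nat_lit 8) nil nil)))) nil)) (node (nat_lit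
  4) (nat_lit 0) (nat_lit 6) t223 nil)) (node (nat_lit 4) (nat_lit 0) (nat_lit 5) (node (nat_lit
  5) (nat_lit 0) (nat_lit 6) t224 nil) nil)) nil) nil)) nil) nil)

noncomputable def t225 : Tr :=
  (node (nat_lit 6) (nat_lit 0) (nat_lit 8) (node (nat_lit 0) (nat_lit 0) (nat_lit 9) (node
  (nat_lit 4) (nat_lit 0) (nat_lit 10) (node (nat_lit 6) (nat_lit 127588) (nat_lit 11) (node
  (nat_lit 5) (nat_lit 127477) (nat_lit 12) (node (nat_lit 4) (nat_lit 127477) (nat_lit 13) (node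
  (nat_lit 5) (nat_lit 127477) (nat_lit 14) (node (nat_lit 6) (nat_lit 127477) (nat_lit 15) (node
  (nat_lit 4) (nat_lit 127477) (nat_lit 16) (node (nat_lit 6) (nat_lit 132577) (nat_lit 17) (node
  (nat_lit 5) (nat_lit 136558) (nat_lit 18) (node (nat_lit 4) (nat_lit 137445) (nat_lit 19) nil
  nil) nil) nil) nil) nil) (node (nat_lit 6) (nat_lit 127477) (nat_lit 14) nil nil)) (node
  (nat_lit 6) (nat_lit 127477) (nat_lit 13) (node (nat_lit 4) (nat_lit 127477) (nat_lit 14) (node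
  (nat_lit 6) (nat_lit 127477) (nat_lit 15) nil (node (nat_lit 5) (nat_lit 127477) (nat_lit 15)
  nil nil)) nil) nil)) (node (nat_lit 4) (nat_lit 128107) (nat_lit 12) (node (nat_lit 5) (nat_lit
  128773) (nat_lit 13) (node (nat_lit 6) (nat_lit 128773) (nat_lit 14) (node (nat_lit 4) (nat_lit
  128773) (nat_lit 15) (node (nat_lit 6) (nat_lit 129167) (nat_lit 16) (node (nat_lit 5) (nat_lit
  131605) (nat_lit 17) (node (nat_lit 4) (nat_lit 133671) (nat_lit 18) nil nil) nil) nil) (node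
  (nat_lit 5) (nat_lit 128773) (nat_lit 15) (node (nat_lit 4) (nat_lit 128773) (nat_lit 16) nil
  nil) nil)) (node (nat_lit 4) (nat_lit 128773) (nat_lit 14) (node (nat_lit 6) (nat_lit 128773)
  (nat_lit 15) nil nil) nil)) (node (nat_lit 12) (nat_lit 136014) (nat_lit 13) nil nil)) nil))
  (node (nat_lit 5) (nat_lit 127373) (nat_lit 11) (node (nat_lit 4) (nat_lit 127373) (nat_lit 12)
  (node (nat_lit 6) (nat_lit 127373) (nat_lit 13) (node (nat_lit 5) (nat_lit 127373) (nat_lit 14)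
  (node (nat_lit 6) (nat_lit 127373) (nat_lit 15) (node (nat_lit 4) (nat_lit 127373) (nat_lit 16)
  nil nil) (node (nat_lit 4) (nat_lit 127373) (nat_lit 15) nil nil)) (node (nat_lit 4) (nat_lit
  127373) (nat_lit 14) (node (nat_lit 5) (nat_lit 127373) (nat_lit 15) nil nil) nil)) nil) (node
  (nat_lit 6) (nat_lit 127373) (nat_lit 12) (node (nat_lit 5) (nat_lit 127373) (nat_lit 13) (node
  (nat_lit 4) (nat_lit 127373) (nat_lit 14) (node (nat_lit 5) (nat_lit 127373) (nat_lit 15) (node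
  (nat_lit 6) (nat_lit 127373) (nat_lit 16) (node (nat_lit 4) (nat_lit 132698) (nat_lit 17) nil
  nil) nil) nil) nil) (node (nat_lit 4) (nat_lit 127373) (nat_lit 13) (node (nat_lit 5) (nat_lit
  127373) (nat_lit 14) nil (node (nat_lit 6) (nat_lit 127373) (nat_lit 14) nil nil)) nil)) (node
  (nat_lit 12) (nat_lit 133968) (nat_lit 12) nil nil))) (node (nat_lit 12) (nat_lit 139301)
  (nat_lit 11) (node (nat_lit 5) (nat_lit 139301) (nat_lit 12) (node (nat_lit 4) (nat_lit 139301)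
  (nat_lit 13) (node (nat_lit 5) (nat_lit 139301) (nat_lit 14) (node (nat_lit 6) (nat_lit 139301)
  (nat_lit 15) (node (nat_lit 4) (nat_lit 139301) (nat_lit 16) (node (nat_lit 6) (nat_lit 139301)
  (nat_lit 17) (node (nat_lit 5) (nat_lit 139301) (nat_lit 18) (node (nat_lit 4) (nat_lit 139884)
  (nat_lit 19) nil nil) nil) nil) nil) nil) nil) nil) (node (nat_lit 6) (nat_lit 139301) (nat_lit
  12) nil nil)) (node (nat_lit 0) (nat_lit 131739) (nat_lit 11) nil nil)))) (node (nat_lit 5)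
  (nat_lit 0) (nat_lit 10) (node (nat_lit 4) (nat_lit 127359) (nat_lit 11) (node (nat_lit 6)
  (nat_lit 127217) (nat_lit 12) (node (nat_lit 5) (nat_lit 127453) (nat_lit 13) (node (nat_lit 4)
  (nat_lit 127453) (nat_lit 14) (node (nat_lit 5) (nat_lit 127453) (nat_lit 15) (node (nat_lit 6)
  (nat_lit 127453) (nat_lit 16) (node (nat_lit 4) (nat_lit 132553) (nat_lit 17) (node (nat_lit 6)
  (nat_lit 136534) (nat_lit 18) (node (nat_lit 5) (nat_lit 139640) (nat_lit 19) (node (nat_lit 4)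
  (nat_lit 140331) (nat_lit 20) nil nil) nil) nil) nil) nil) nil) (node (nat_lit 6) (nat_lit
  127453) (nat_lit 14) nil nil)) (node (nat_lit 4) (nat_lit 127217) (nat_lit 13) (node (nat_lit 5)
  (nat_lit 127217) (nat_lit 14) (node (nat_lit 6) (nat_lit 127217) (nat_lit 15) (node (nat_lit 4)
  (nat_lit 127610) (nat_lit 16) (node (nat_lit 6) (nat_lit 128333) (nat_lit 17) (node (nat_lit 5)
  (nat_lit 129529) (nat_lit 18) (node (nat_lit 4) (nat_lit 130159) (nat_lit 19) (node (nat_lit 6)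
  (nat_lit 131556) (nat_lit 20) nil nil) nil) nil) nil) (node (nat_lit 5) (nat_lit 127217)
  (nat_lit 16) nil nil)) nil) nil) nil)) (node (nat_lit 5) (nat_lit 127596) (nat_lit 12) (node
  (nat_lit 6) (nat_lit 127596) (nat_lit 13) (node (nat_lit 4) (nat_lit 127596) (nat_lit 14) (node
  (nat_lit 6) (nat_lit 127596) (nat_lit 15) (node (nat_lit 5) (nat_lit 127596) (nat_lit 16) (node
  (nat_lit 4) (nat_lit 128554) (nat_lit 17) (node (nat_lit 6) (nat_lit 131177) (nat_lit 18) nil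
  nil) nil) nil) (node (nat_lit 5) (nat_lit 127596) (nat_lit 15) nil nil)) (node (nat_lit 5)
  (nat_lit 127596) (nat_lit 14) (node (nat_lit 4) (nat_lit 127596) (nat_lit 15) nil nil) nil))
  nil) (node (nat_lit 12) (nat_lit 133954) (nat_lit 12) nil nil))) (node (nat_lit 6) (nat_lit
  127182) (nat_lit 11) (node (nat_lit 5) (nat_lit 127373) (nat_lit 12) (node (nat_lit 4) (nat_lit
  127244) (nat_lit 13) (node (nat_lit 6) (nat_lit 127244) (nat_lit 14) (node (nat_lit 4) (nat_lit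
  127244) (nat_lit 15) (node (nat_lit 5) (nat_lit 126825) (nat_lit 16) (node (nat_lit 6) (nat_lit
  127548) (nat_lit 17) nil nil) nil) (node (nat_lit 5) (nat_lit 127244) (nat_lit 15) nil nil))
  (node (nat_lit 5) (nat_lit 127244) (nat_lit 14) (node (nat_lit 6) (nat_lit 127244) (nat_lit 15)
  (node (nat_lit 4) (nat_lit 127244) (nat_lit 16) (node (nat_lit 6) (nat_lit 132358) (nat_lit 17)
  (node (nat_lit 5) (nat_lit 135865) (nat_lit 18) nil nil) nil) nil) nil) nil)) (node (nat_lit 12)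
  (nat_lit 135280) (nat_lit 13) nil nil)) (node (nat_lit 4) (nat_lit 127182) (nat_lit 12) (node
  (nat_lit 5) (nat_lit 127182) (nat_lit 13) (node (nat_lit 6) (nat_lit 127182) (nat_lit 14) nil
  nil) (node (nat_lit 6) (nat_lit 127182) (nat_lit 13) nil nil)) (node (nat_lit 12) (nat_lit
  133777) (nat_lit 12) nil nil))) (node (nat_lit 12) (nat_lit 138337) (nat_lit 11) (node (nat_lit
  6) (nat_lit 138337) (nat_lit 12) nil (node (nat_lit 4) (nat_lit 138337) (nat_lit 12) nil nil))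
  (node (nat_lit 0) (nat_lit 131767) (nat_lit 11) nil nil)))) (node (nat_lit 6) (nat_lit 0)
  (nat_lit 10) (node (nat_lit 4) (nat_lit 127190) (nat_lit 11) (node (nat_lit 5) (nat_lit 128191)
  (nat_lit 12) (node (nat_lit 4) (nat_lit 128191) (nat_lit 13) nil (node (nat_lit 6) (nat_lit
  128573) (nat_lit 13) (node (nat_lit 4) (nat_lit 128573) (nat_lit 14) (node (nat_lit 6) (nat_lit
  128573) (nat_lit 15) (node (nat_lit 5) (nat_lit 128154) (nat_lit 16) (node (nat_lit 4) (nat_lit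
  130839) (nat_lit 17) (node (nat_lit 6) (nat_lit 133169) (nat_lit 18) nil nil) nil) nil) nil)
  nil) nil)) (node (nat_lit 6) (nat_lit 127375) (nat_lit 12) (node (nat_lit 5) (nat_lit 127375)
  (nat_lit 13) (node (nat_lit 4) (nat_lit 127375) (nat_lit 14) (node (nat_lit 5) (nat_lit 127375)
  (nat_lit 15) (node (nat_lit 6) (nat_lit 127375) (nat_lit 16) (node (nat_lit 4) (nat_lit 131849)
  (nat_lit 17) nil nil) nil) nil) nil) (node (nat_lit 12) (nat_lit 135282) (nat_lit 13) nil nil))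
  nil)) (node (nat_lit 5) (nat_lit 127340) (nat_lit 11) (node (nat_lit 4) (nat_lit 128287)
  (nat_lit 12) (node (nat_lit 5) (nat_lit 128525) (nat_lit 13) (node (nat_lit 6) (nat_lit 128584)
  (nat_lit 14) (node (nat_lit 4) (nat_lit 128584) (nat_lit 15) (node (nat_lit 6) (nat_lit 128584)
  (nat_lit 16) (node (nat_lit 5) (nat_lit 133338) (nat_lit 17) (node (nat_lit 4) (nat_lit 134204)
  (nat_lit 18) (node (nat_lit 6) (nat_lit 136874) (nat_lit 19) nil nil) nil) nil) nil) nil) nil)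
  (node (nat_lit 6) (nat_lit 128730) (nat_lit 13) nil nil)) (node (nat_lit 6) (nat_lit 127531)
  (nat_lit 12) (node (nat_lit 4) (nat_lit 127531) (nat_lit 13) nil nil) nil)) (node (nat_lit 0)
  (nat_lit 131478) (nat_lit 11) nil nil))) (node (nat_lit 0) (nat_lit 134780) (nat_lit 10) (node
  (nat_lit 12) (nat_lit 137999) (nat_lit 11) nil (node (nat_lit 6) (nat_lit 134780) (nat_lit 11)
  nil nil)) nil)))) (node (nat_lit 4) (nat_lit 0) (nat_lit 9) (node (nat_lit 0) (nat_lit 0)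
  (nat_lit 10) (node (nat_lit 4) (nat_lit 0) (nat_lit 11) (node (nat_lit 6) (nat_lit 129401)
  (nat_lit 12) (node (nat_lit 5) (nat_lit 129401) (nat_lit 13) (node (nat_lit 4) (nat_lit 129401)
  (nat_lit 14) (node (nat_lit 5) (nat_lit 129401) (nat_lit 15) (node (nat_lit 6) (nat_lit 129401)
  (nat_lit 16) (node (nat_lit 4) (nat_lit 129401) (nat_lit 17) (node (nat_lit 6) (nat_lit 133382)
  (nat_lit 18) (node (nat_lit 5) (nat_lit 136488) (nat_lit 19) (node (nat_lit 4) (nat_lit 137179)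
  (nat_lit 20) (node (nat_lit 6) (nat_lit 138701) (nat_lit 21) (node (nat_lit 4) (nat_lit 139511)
  (nat_lit 22) nil nil) nil) nil) nil) nil) nil) nil) (node (nat_lit 6) (nat_lit 129401) (nat_lit
  15) (node (nat_lit 4) (nat_lit 129401) (nat_lit 16) nil nil) nil)) (node (nat_lit 6) (nat_lit
  129401) (nat_lit 14) (node (nat_lit 4) (nat_lit 129401) (nat_lit 15) (node (nat_lit 6) (nat_lit
  129401) (nat_lit 16) nil (node (nat_lit 5) (nat_lit 129401) (nat_lit 16) nil nil)) nil) nil))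
  (node (nat_lit 4) (nat_lit 129401) (nat_lit 13) (node (nat_lit 5) (nat_lit 129401) (nat_lit 14)
  nil nil) (node (nat_lit 13) (nat_lit 138266) (nat_lit 13) nil nil))) (node (nat_lit 5) (nat_lit
  129299) (nat_lit 12) (node (nat_lit 6) (nat_lit 129448) (nat_lit 13) (node (nat_lit 4) (nat_lit
  129448) (nat_lit 14) (node (nat_lit 6) (nat_lit 129448) (nat_lit 15) (node (nat_lit 5) (nat_lit
  129448) (nat_lit 16) nil nil) (node (nat_lit 5) (nat_lit 129448) (nat_lit 15) nil nil)) (node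
  (nat_lit 5) (nat_lit 129448) (nat_lit 14) (node (nat_lit 4) (nat_lit 129448) (nat_lit 15) (node
  (nat_lit 6) (nat_lit 129448) (nat_lit 16) nil nil) nil) nil)) (node (nat_lit 4) (nat_lit 129299)
  (nat_lit 13) (node (nat_lit 6) (nat_lit 129299) (nat_lit 14) (node (nat_lit 5) (nat_lit 129299)
  (nat_lit 15) nil (node (nat_lit 4) (nat_lit 129299) (nat_lit 15) nil nil)) nil) (node (nat_lit
  0) (nat_lit 134446) (nat_lit 13) nil (node (nat_lit 13) (nat_lit 134446) (nat_lit 13) nil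
  nil)))) (node (nat_lit 0) (nat_lit 134829) (nat_lit 12) nil nil))) (node (nat_lit 6) (nat_lit
  129095) (nat_lit 11) (node (nat_lit 4) (nat_lit 129360) (nat_lit 12) (node (nat_lit 6) (nat_lit
  129483) (nat_lit 13) nil nil) (node (nat_lit 13) (nat_lit 136806) (nat_lit 12) (node (nat_lit 4)
  (nat_lit 136806) (nat_lit 13) nil nil) (node (nat_lit 5) (nat_lit 129095) (nat_lit 12) nil
  nil))) (node (nat_lit 5) (nat_lit 129098) (nat_lit 11) (node (nat_lit 4) (nat_lit 129098)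
  (nat_lit 12) nil (node (nat_lit 13) (nat_lit 134281) (nat_lit 12) nil nil)) (node (nat_lit 0)
  (nat_lit 133959) (nat_lit 11) (node (nat_lit 4) (nat_lit 133959) (nat_lit 12) nil nil) nil))))
  (node (nat_lit 5) (nat_lit 0) (nat_lit 10) (node (nat_lit 0) (nat_lit 134701) (nat_lit 11) (node
  (nat_lit 4) (nat_lit 134701) (nat_lit 12) (node (nat_lit 5) (nat_lit 134701) (nat_lit 13) (node
  (nat_lit 4) (nat_lit 134701) (nat_lit 14) (node (nat_lit 6) (nat_lit 134701) (nat_lit 15) nil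
  nil) (node (nat_lit 6) (nat_lit 134701) (nat_lit 14) (node (nat_lit 4) (nat_lit 134701) (nat_lit
  15) nil (node (nat_lit 5) (nat_lit 134701) (nat_lit 15) nil nil)) nil)) nil) (node (nat_lit 5)
  (nat_lit 134701) (nat_lit 12) nil nil)) nil) nil)) nil)) (node (nat_lit 0) (nat_lit 0) (nat_lit
  8) (node (nat_lit 5) (nat_lit 140557) (nat_lit 9) (node (nat_lit 6) (nat_lit 141225) (nat_lit
  10) (node (nat_lit 4) (nat_lit 141225) (nat_lit 11) (node (nat_lit 5) (nat_lit 141225) (nat_lit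
  12) (node (nat_lit 4) (nat_lit 141225) (nat_lit 13) (node (nat_lit 6) (nat_lit 141225) (nat_lit
  14) (node (nat_lit 5) (nat_lit 141225) (nat_lit 15) nil nil) nil) nil) (node (nat_lit 6)
  (nat_lit 141225) (nat_lit 12) (node (nat_lit 5) (nat_lit 141225) (nat_lit 13) (node (nat_lit 4)
  (nat_lit 141225) (nat_lit 14) nil (node (nat_lit 6) (nat_lit 141225) (nat_lit 14) nil nil)) nil)
  nil)) (node (nat_lit 5) (nat_lit 141225) (nat_lit 11) (node (nat_lit 4) (nat_lit 141225)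
  (nat_lit 12) (node (nat_lit 6) (nat_lit 141225) (nat_lit 13) nil (node (nat_lit 5) (nat_lit
  141225) (nat_lit 13) (node (nat_lit 6) (nat_lit 141225) (nat_lit 14) (node (nat_lit 4) (nat_lit
  141225) (nat_lit 15) (node (nat_lit 6) (nat_lit 146061) (nat_lit 16) (node (nat_lit 5) (nat_lit
  149217) (nat_lit 17) nil nil) nil) nil) nil) nil)) nil) nil)) (node (nat_lit 4) (nat_lit 141173)
  (nat_lit 10) (node (nat_lit 6) (nat_lit 140975) (nat_lit 11) (node (nat_lit 5) (nat_lit 140975)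
  (nat_lit 12) (node (nat_lit 6) (nat_lit 140975) (nat_lit 13) (node (nat_lit 4) (nat_lit 140975)
  (nat_lit 14) (node (nat_lit 6) (nat_lit 140975) (nat_lit 15) nil nil) nil) (node (nat_lit 4)
  (nat_lit 140975) (nat_lit 13) (node (nat_lit 5) (nat_lit 140975) (nat_lit 14) (node (nat_lit 6)
  (nat_lit 140975) (nat_lit 15) (node (nat_lit 4) (nat_lit 145880) (nat_lit 16) (node (nat_lit 6)
  (nat_lit 149640) (nat_lit 17) (node (nat_lit 5) (nat_lit 152575) (nat_lit 18) nil nil) nil) nil)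
  nil) nil) nil)) (node (nat_lit 4) (nat_lit 140975) (nat_lit 12) (node (nat_lit 5) (nat_lit
  140975) (nat_lit 13) (node (nat_lit 6) (nat_lit 140975) (nat_lit 14) (node (nat_lit 4) (nat_lit
  141225) (nat_lit 15) (node (nat_lit 6) (nat_lit 140772) (nat_lit 16) (node (nat_lit 5) (nat_lit
  140873) (nat_lit 17) (node (nat_lit 4) (nat_lit 140793) (nat_lit 18) nil nil) nil) nil) (node
  (nat_lit 5) (nat_lit 140975) (nat_lit 15) nil nil)) (node (nat_lit 4) (nat_lit 140975) (nat_lit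
  14) nil nil)) nil) nil)) (node (nat_lit 5) (nat_lit 141225) (nat_lit 11) (node (nat_lit 6)
  (nat_lit 141225) (nat_lit 12) nil nil) nil)) (node (nat_lit 11) (nat_lit 150295) (nat_lit 10)
  nil nil))) (node (nat_lit 4) (nat_lit 140557) (nat_lit 9) (node (nat_lit 5) (nat_lit 141225)
  (nat_lit 10) (node (nat_lit 6) (nat_lit 141225) (nat_lit 11) (node (nat_lit 5) (nat_lit 141225)
  (nat_lit 12) (node (nat_lit 4) (nat_lit 141225) (nat_lit 13) (node (nat_lit 6) (nat_lit 141225)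
  (nat_lit 14) (node (nat_lit 4) (nat_lit 141225) (nat_lit 15) (node (nat_lit 5) (nat_lit 143180)
  (nat_lit 16) nil nil) nil) nil) nil) (node (nat_lit 4) (nat_lit 141225) (nat_lit 12) (node
  (nat_lit 6) (nat_lit 141225) (nat_lit 13) (node (nat_lit 5) (nat_lit 141225) (nat_lit 14) (node
  (nat_lit 4) (nat_lit 141225) (nat_lit 15) nil nil) nil) nil) nil)) (node (nat_lit 4) (nat_lit
  141225) (nat_lit 11) (node (nat_lit 6) (nat_lit 141225) (nat_lit 12) (node (nat_lit 4) (nat_lit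
  141225) (nat_lit 13) (node (nat_lit 5) (nat_lit 141225) (nat_lit 14) (node (nat_lit 6) (nat_lit
  141225) (nat_lit 15) (node (nat_lit 4) (nat_lit 143993) (nat_lit 16) (node (nat_lit 6) (nat_lit
  143439) (nat_lit 17) (node (nat_lit 5) (nat_lit 143525) (nat_lit 18) (node (nat_lit 4) (nat_lit
  143438) (nat_lit 19) nil nil) nil) nil) nil) nil) nil) (node (nat_lit 5) (nat_lit 141225)
  (nat_lit 13) nil nil)) nil) nil)) (node (nat_lit 6) (nat_lit 140925) (nat_lit 10) (node (nat_lit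
  5) (nat_lit 140796) (nat_lit 11) (node (nat_lit 6) (nat_lit 140796) (nat_lit 12) (node (nat_lit
  4) (nat_lit 140796) (nat_lit 13) (node (nat_lit 5) (nat_lit 140796) (nat_lit 14) (node (nat_lit
  4) (nat_lit 140796) (nat_lit 15) nil (node (nat_lit 6) (nat_lit 140796) (nat_lit 15) nil nil))
  (node (nat_lit 6) (nat_lit 140796) (nat_lit 14) (node (nat_lit 5) (nat_lit 140796) (nat_lit 15)
  nil nil) nil)) nil) (node (nat_lit 4) (nat_lit 140796) (nat_lit 12) (node (nat_lit 5) (nat_lit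
  140796) (nat_lit 13) (node (nat_lit 6) (nat_lit 140796) (nat_lit 14) (node (nat_lit 4) (nat_lit
  140796) (nat_lit 15) (node (nat_lit 6) (nat_lit 145614) (nat_lit 16) (node (nat_lit 5) (nat_lit
  149375) (nat_lit 17) nil nil) nil) (node (nat_lit 5) (nat_lit 140796) (nat_lit 15) nil nil))
  nil) nil) nil)) (node (nat_lit 4) (nat_lit 141225) (nat_lit 11) (node (nat_lit 5) (nat_lit
  141225) (nat_lit 12) (node (nat_lit 6) (nat_lit 141225) (nat_lit 13) (node (nat_lit 4) (nat_lit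
  141225) (nat_lit 14) (node (nat_lit 6) (nat_lit 141225) (nat_lit 15) (node (nat_lit 5) (nat_lit
  143499) (nat_lit 16) (node (nat_lit 4) (nat_lit 145055) (nat_lit 17) nil nil) nil) nil) nil)
  nil) nil) nil)) nil)) (node (nat_lit 6) (nat_lit 140413) (nat_lit 9) (node (nat_lit 5) (nat_lit
  140905) (nat_lit 10) (node (nat_lit 4) (nat_lit 141138) (nat_lit 11) (node (nat_lit 6) (nat_lit
  141225) (nat_lit 12) (node (nat_lit 4) (nat_lit 141225) (nat_lit 13) (node (nat_lit 5) (nat_lit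
  141225) (nat_lit 14) (node (nat_lit 6) (nat_lit 141225) (nat_lit 15) (node (nat_lit 4) (nat_lit
  144711) (nat_lit 16) (node (nat_lit 6) (nat_lit 144157) (nat_lit 17) (node (nat_lit 5) (nat_lit
  144244) (nat_lit 18) nil nil) nil) nil) nil) nil) (node (nat_lit 5) (nat_lit 141225) (nat_lit
  13) nil nil)) (node (nat_lit 5) (nat_lit 141138) (nat_lit 12) (node (nat_lit 6) (nat_lit 141138)
  (nat_lit 13) (node (nat_lit 4) (nat_lit 141138) (nat_lit 14) (node (nat_lit 6) (nat_lit 141138)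
  (nat_lit 15) (node (nat_lit 5) (nat_lit 145512) (nat_lit 16) (node (nat_lit 4) (nat_lit 145666)
  (nat_lit 17) nil nil) nil) nil) (node (nat_lit 5) (nat_lit 141138) (nat_lit 14) nil nil)) nil)
  nil)) (node (nat_lit 6) (nat_lit 140909) (nat_lit 11) (node (nat_lit 4) (nat_lit 140909)
  (nat_lit 12) nil nil) nil)) (node (nat_lit 4) (nat_lit 140794) (nat_lit 10) (node (nat_lit 5)
  (nat_lit 140794) (nat_lit 11) (node (nat_lit 4) (nat_lit 140794) (nat_lit 12) (node (nat_lit 6)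
  (nat_lit 140794) (nat_lit 13) (node (nat_lit 5) (nat_lit 140794) (nat_lit 14) (node (nat_lit 6)
  (nat_lit 140794) (nat_lit 15) nil nil) (node (nat_lit 4) (nat_lit 140794) (nat_lit 14) nil nil))
  nil) (node (nat_lit 6) (nat_lit 140794) (nat_lit 12) (node (nat_lit 5) (nat_lit 140794) (nat_lit
  13) (node (nat_lit 4) (nat_lit 140794) (nat_lit 14) (node (nat_lit 5) (nat_lit 140794) (nat_lit
  15) (node (nat_lit 6) (nat_lit 144564) (nat_lit 16) nil nil) nil) nil) (node (nat_lit 4)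
  (nat_lit 140794) (nat_lit 13) (node (nat_lit 6) (nat_lit 140794) (nat_lit 14) (node (nat_lit 5)
  (nat_lit 140288) (nat_lit 15) (node (nat_lit 4) (nat_lit 142253) (nat_lit 16) nil nil) nil) nil)
  nil)) nil)) (node (nat_lit 6) (nat_lit 141025) (nat_lit 11) (node (nat_lit 5) (nat_lit 141025)
  (nat_lit 12) nil nil) nil)) (node (nat_lit 11) (nat_lit 152862) (nat_lit 10) nil nil))) (node
  (nat_lit 0) (nat_lit 148193) (nat_lit 9) nil nil)))) nil))

noncomputable def t226 : Tr :=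
  (node (nat_lit 4) (nat_lit 0) (nat_lit 7) (node (nat_lit 5) (nat_lit 0) (nat_lit 8) (node
  (nat_lit 0) (nat_lit 0) (nat_lit 9) (node (nat_lit 4) (nat_lit 142456) (nat_lit 10) (node
  (nat_lit 5) (nat_lit 142456) (nat_lit 11) (node (nat_lit 4) (nat_lit 142456) (nat_lit 12) (node
  (nat_lit 6) (nat_lit 142456) (nat_lit 13) (node (nat_lit 5) (nat_lit 142456) (nat_lit 14) (node
  (nat_lit 6) (nat_lit 142456) (nat_lit 15) (node (nat_lit 4) (nat_lit 142456) (nat_lit 16) nil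
  nil) (node (nat_lit 4) (nat_lit 142456) (nat_lit 15) (node (nat_lit 5) (nat_lit 142456) (nat_lit
  16) (node (nat_lit 6) (nat_lit 147557) (nat_lit 17) nil nil) nil) nil)) (node (nat_lit 4)
  (nat_lit 142456) (nat_lit 14) (node (nat_lit 5) (nat_lit 142456) (nat_lit 15) nil nil) nil))
  nil) (node (nat_lit 6) (nat_lit 142456) (nat_lit 12) (node (nat_lit 4) (nat_lit 142456) (nat_lit
  13) (node (nat_lit 5) (nat_lit 142456) (nat_lit 14) nil nil) (node (nat_lit 5) (nat_lit 142456)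
  (nat_lit 13) (node (nat_lit 4) (nat_lit 142456) (nat_lit 14) (node (nat_lit 5) (nat_lit 142456)
  (nat_lit 15) (node (nat_lit 6) (nat_lit 142456) (nat_lit 16) (node (nat_lit 4) (nat_lit 147570)
  (nat_lit 17) nil nil) nil) nil) nil) nil)) nil)) (node (nat_lit 6) (nat_lit 142456) (nat_lit 11)
  (node (nat_lit 5) (nat_lit 142456) (nat_lit 12) (node (nat_lit 4) (nat_lit 142456) (nat_lit 13)
  (node (nat_lit 5) (nat_lit 142456) (nat_lit 14) (node (nat_lit 6) (nat_lit 142456) (nat_lit 15)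
  (node (nat_lit 4) (nat_lit 142456) (nat_lit 16) (node (nat_lit 6) (nat_lit 147557) (nat_lit 17)
  (node (nat_lit 5) (nat_lit 151538) (nat_lit 18) nil nil) nil) nil) nil) (node (nat_lit 6)
  (nat_lit 142456) (nat_lit 14) nil nil)) (node (nat_lit 6) (nat_lit 142456) (nat_lit 13) (node
  (nat_lit 4) (nat_lit 142456) (nat_lit 14) (node (nat_lit 5) (nat_lit 142456) (nat_lit 15) nil
  nil) nil) nil)) (node (nat_lit 4) (nat_lit 142456) (nat_lit 12) (node (nat_lit 5) (nat_lit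
  142456) (nat_lit 13) (node (nat_lit 6) (nat_lit 142456) (nat_lit 14) (node (nat_lit 4) (nat_lit
  142456) (nat_lit 15) (node (nat_lit 6) (nat_lit 142456) (nat_lit 16) (node (nat_lit 5) (nat_lit
  146553) (nat_lit 17) (node (nat_lit 4) (nat_lit 148913) (nat_lit 18) nil nil) nil) nil) (node
  (nat_lit 5) (nat_lit 142456) (nat_lit 15) nil nil)) (node (nat_lit 4) (nat_lit 142456) (nat_lit
  14) nil nil)) nil) nil)) (node (nat_lit 12) (nat_lit 147370) (nat_lit 11) nil nil))) (node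
  (nat_lit 6) (nat_lit 142456) (nat_lit 10) (node (nat_lit 4) (nat_lit 142456) (nat_lit 11) (node
  (nat_lit 5) (nat_lit 142456) (nat_lit 12) (node (nat_lit 4) (nat_lit 142456) (nat_lit 13) (node
  (nat_lit 6) (nat_lit 142456) (nat_lit 14) nil nil) (node (nat_lit 6) (nat_lit 142456) (nat_lit
  13) (node (nat_lit 4) (nat_lit 142456) (nat_lit 14) (node (nat_lit 6) (nat_lit 142456) (nat_lit
  15) (node (nat_lit 5) (nat_lit 142456) (nat_lit 16) (node (nat_lit 4) (nat_lit 145962) (nat_lit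
  17) (node (nat_lit 5) (nat_lit 148676) (nat_lit 18) nil nil) nil) nil) nil) nil) nil)) (node
  (nat_lit 6) (nat_lit 142456) (nat_lit 12) (node (nat_lit 5) (nat_lit 142456) (nat_lit 13) (node
  (nat_lit 4) (nat_lit 142456) (nat_lit 14) (node (nat_lit 5) (nat_lit 142456) (nat_lit 15) (node
  (nat_lit 6) (nat_lit 142456) (nat_lit 16) (node (nat_lit 4) (nat_lit 146930) (nat_lit 17) (node
  (nat_lit 6) (nat_lit 150910) (nat_lit 18) (node (nat_lit 5) (nat_lit 154016) (nat_lit 19) nil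
  nil) nil) nil) nil) (node (nat_lit 6) (nat_lit 142456) (nat_lit 15) nil nil)) (node (nat_lit 6)
  (nat_lit 142456) (nat_lit 14) nil nil)) nil) nil)) (node (nat_lit 5) (nat_lit 142456) (nat_lit
  11) (node (nat_lit 4) (nat_lit 142456) (nat_lit 12) (node (nat_lit 6) (nat_lit 142456) (nat_lit
  13) (node (nat_lit 5) (nat_lit 142456) (nat_lit 14) nil nil) (node (nat_lit 5) (nat_lit 142456)
  (nat_lit 13) (node (nat_lit 6) (nat_lit 142456) (nat_lit 14) (node (nat_lit 4) (nat_lit 142456)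
  (nat_lit 15) (node (nat_lit 6) (nat_lit 142456) (nat_lit 16) (node (nat_lit 5) (nat_lit 147210)
  (nat_lit 17) nil nil) nil) nil) nil) nil)) (node (nat_lit 6) (nat_lit 142456) (nat_lit 12) (node
  (nat_lit 4) (nat_lit 142456) (nat_lit 13) (node (nat_lit 5) (nat_lit 142456) (nat_lit 14) (node
  (nat_lit 4) (nat_lit 142456) (nat_lit 15) (node (nat_lit 6) (nat_lit 142456) (nat_lit 16) nil
  nil) (node (nat_lit 6) (nat_lit 142456) (nat_lit 15) nil nil)) (node (nat_lit 6) (nat_lit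
  142456) (nat_lit 14) (node (nat_lit 5) (nat_lit 142456) (nat_lit 15) nil nil) nil)) nil) nil))
  (node (nat_lit 12) (nat_lit 147370) (nat_lit 11) nil nil))) (node (nat_lit 5) (nat_lit 0)
  (nat_lit 10) (node (nat_lit 4) (nat_lit 142456) (nat_lit 11) (node (nat_lit 6) (nat_lit 142456)
  (nat_lit 12) (node (nat_lit 5) (nat_lit 142456) (nat_lit 13) (node (nat_lit 6) (nat_lit 142456)
  (nat_lit 14) nil nil) (node (nat_lit 4) (nat_lit 142456) (nat_lit 13) nil nil)) (node (nat_lit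
  5) (nat_lit 142456) (nat_lit 12) (node (nat_lit 6) (nat_lit 142456) (nat_lit 13) (node (nat_lit
  4) (nat_lit 142456) (nat_lit 14) (node (nat_lit 6) (nat_lit 142456) (nat_lit 15) (node (nat_lit
  5) (nat_lit 142456) (nat_lit 16) (node (nat_lit 4) (nat_lit 143414) (nat_lit 17) nil nil) nil)
  nil) nil) nil) nil)) (node (nat_lit 6) (nat_lit 142456) (nat_lit 11) (node (nat_lit 4) (nat_lit
  142456) (nat_lit 12) (node (nat_lit 5) (nat_lit 142456) (nat_lit 13) nil (node (nat_lit 6)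
  (nat_lit 142456) (nat_lit 13) nil nil)) (node (nat_lit 5) (nat_lit 142456) (nat_lit 12) (node
  (nat_lit 4) (nat_lit 142456) (nat_lit 13) nil nil) nil)) (node (nat_lit 0) (nat_lit 147370)
  (nat_lit 11) nil nil))) (node (nat_lit 0) (nat_lit 149254) (nat_lit 10) nil nil)))) (node
  (nat_lit 6) (nat_lit 0) (nat_lit 9) (node (nat_lit 0) (nat_lit 0) (nat_lit 10) (node (nat_lit 6)
  (nat_lit 0) (nat_lit 11) (node (nat_lit 5) (nat_lit 114587) (nat_lit 12) (node (nat_lit 4)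
  (nat_lit 114587) (nat_lit 13) (node (nat_lit 6) (nat_lit 114587) (nat_lit 14) (node (nat_lit 5)
  (nat_lit 114587) (nat_lit 15) nil (node (nat_lit 4) (nat_lit 114587) (nat_lit 15) (node (nat_lit
  5) (nat_lit 114587) (nat_lit 16) nil nil) nil)) (node (nat_lit 5) (nat_lit 114587) (nat_lit 14)
  (node (nat_lit 6) (nat_lit 114587) (nat_lit 15) (node (nat_lit 4) (nat_lit 114587) (nat_lit 16)
  (node (nat_lit 6) (nat_lit 114587) (nat_lit 17) (node (nat_lit 5) (nat_lit 117853) (nat_lit 18)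
  (node (nat_lit 4) (nat_lit 118182) (nat_lit 19) (node (nat_lit 5) (nat_lit 119909) (nat_lit 20)
  nil nil) nil) nil) nil) nil) nil) nil)) (node (nat_lit 6) (nat_lit 114587) (nat_lit 13) (node
  (nat_lit 4) (nat_lit 114587) (nat_lit 14) (node (nat_lit 6) (nat_lit 114587) (nat_lit 15) nil
  nil) (node (nat_lit 13) (nat_lit 120758) (nat_lit 14) nil nil)) (node (nat_lit 13) (nat_lit
  121543) (nat_lit 13) nil (node (nat_lit 0) (nat_lit 119733) (nat_lit 13) nil nil)))) (node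
  (nat_lit 4) (nat_lit 114587) (nat_lit 12) (node (nat_lit 5) (nat_lit 114587) (nat_lit 13) (node
  (nat_lit 6) (nat_lit 114587) (nat_lit 14) (node (nat_lit 4) (nat_lit 114587) (nat_lit 15) (node
  (nat_lit 6) (nat_lit 114587) (nat_lit 16) (node (nat_lit 5) (nat_lit 114587) (nat_lit 17) (node
  (nat_lit 4) (nat_lit 117324) (nat_lit 18) (node (nat_lit 5) (nat_lit 119185) (nat_lit 19) nil
  nil) nil) nil) nil) (node (nat_lit 5) (nat_lit 114587) (nat_lit 15) (node (nat_lit 4) (nat_lit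
  114587) (nat_lit 16) nil nil) nil)) (node (nat_lit 4) (nat_lit 114587) (nat_lit 14) (node
  (nat_lit 6) (nat_lit 114587) (nat_lit 15) (node (nat_lit 5) (nat_lit 114587) (nat_lit 16) nil
  nil) nil) nil)) (node (nat_lit 6) (nat_lit 114587) (nat_lit 13) (node (nat_lit 5) (nat_lit
  114587) (nat_lit 14) (node (nat_lit 4) (nat_lit 114587) (nat_lit 15) nil (node (nat_lit 6)
  (nat_lit 114587) (nat_lit 15) nil nil)) (node (nat_lit 13) (nat_lit 120758) (nat_lit 14) nil
  nil)) (node (nat_lit 13) (nat_lit 119733) (nat_lit 13) nil (node (nat_lit 0) (nat_lit 119733)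
  (nat_lit 13) nil nil)))) (node (nat_lit 0) (nat_lit 120533) (nat_lit 12) nil nil))) (node
  (nat_lit 5) (nat_lit 114587) (nat_lit 11) (node (nat_lit 13) (nat_lit 120533) (nat_lit 12) nil
  (node (nat_lit 6) (nat_lit 114587) (nat_lit 12) (node (nat_lit 5) (nat_lit 114587) (nat_lit 13)
  nil nil) nil)) (node (nat_lit 4) (nat_lit 114587) (nat_lit 11) (node (nat_lit 13) (nat_lit
  120533) (nat_lit 12) nil (node (nat_lit 6) (nat_lit 114587) (nat_lit 12) nil nil)) (node
  (nat_lit 0) (nat_lit 118436) (nat_lit 11) nil nil)))) (node (nat_lit 4) (nat_lit 0) (nat_lit 10)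
  (node (nat_lit 0) (nat_lit 77747) (nat_lit 11) (node (nat_lit 6) (nat_lit 77747) (nat_lit 12)
  (node (nat_lit 4) (nat_lit 77747) (nat_lit 13) (node (nat_lit 5) (nat_lit 77747) (nat_lit 14)
  (node (nat_lit 6) (nat_lit 77747) (nat_lit 15) (node (nat_lit 4) (nat_lit 77747) (nat_lit 16)
  (node (nat_lit 6) (nat_lit 77747) (nat_lit 17) (node (nat_lit 5) (nat_lit 77747) (nat_lit 18)
  (node (nat_lit 4) (nat_lit 78861) (nat_lit 19) nil nil) nil) nil) (node (nat_lit 5) (nat_lit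
  77747) (nat_lit 16) nil nil)) (node (nat_lit 4) (nat_lit 77747) (nat_lit 15) (node (nat_lit 6)
  (nat_lit 77747) (nat_lit 16) nil nil) nil)) (node (nat_lit 6) (nat_lit 77747) (nat_lit 14) (node
  (nat_lit 5) (nat_lit 77747) (nat_lit 15) (node (nat_lit 4) (nat_lit 77747) (nat_lit 16) nil nil)
  nil) nil)) nil) nil) nil) (node (nat_lit 5) (nat_lit 0) (nat_lit 10) (node (nat_lit 0) (nat_lit
  118716) (nat_lit 11) (node (nat_lit 6) (nat_lit 118716) (nat_lit 12) (node (nat_lit 5) (nat_lit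
  118716) (nat_lit 13) (node (nat_lit 6) (nat_lit 118716) (nat_lit 14) (node (nat_lit 4) (nat_lit
  118716) (nat_lit 15) (node (nat_lit 5) (nat_lit 118716) (nat_lit 16) nil nil) (node (nat_lit 14)
  (nat_lit 123532) (nat_lit 15) nil nil)) (node (nat_lit 4) (nat_lit 118716) (nat_lit 14) (node
  (nat_lit 5) (nat_lit 118716) (nat_lit 15) (node (nat_lit 6) (nat_lit 118716) (nat_lit 16) (node
  (nat_lit 4) (nat_lit 118716) (nat_lit 17) (node (nat_lit 6) (nat_lit 118716) (nat_lit 18) (node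
  (nat_lit 5) (nat_lit 121265) (nat_lit 19) nil nil) nil) nil) nil) (node (nat_lit 6) (nat_lit
  118716) (nat_lit 15) nil nil)) nil)) nil) (node (nat_lit 5) (nat_lit 118716) (nat_lit 12) nil
  nil)) nil) nil))) nil)) t225) (node (nat_lit 6) (nat_lit 0) (nat_lit 7) (node (nat_lit 4)
  (nat_lit 0) (nat_lit 8) (node (nat_lit 0) (nat_lit 0) (nat_lit 9) (node (nat_lit 5) (nat_lit
  160395) (nat_lit 10) (node (nat_lit 4) (nat_lit 160395) (nat_lit 11) (node (nat_lit 6) (nat_lit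
  160395) (nat_lit 12) (node (nat_lit 5) (nat_lit 160395) (nat_lit 13) (node (nat_lit 4) (nat_lit
  160395) (nat_lit 14) (node (nat_lit 5) (nat_lit 160395) (nat_lit 15) (node (nat_lit 6) (nat_lit
  160395) (nat_lit 16) (node (nat_lit 4) (nat_lit 165772) (nat_lit 17) (node (nat_lit 6) (nat_lit
  169969) (nat_lit 18) (node (nat_lit 5) (nat_lit 172921) (nat_lit 19) nil nil) nil) nil) nil)
  nil) (node (nat_lit 6) (nat_lit 160395) (nat_lit 14) nil nil)) (node (nat_lit 4) (nat_lit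
  160395) (nat_lit 13) (node (nat_lit 5) (nat_lit 160395) (nat_lit 14) (node (nat_lit 6) (nat_lit
  160395) (nat_lit 15) (node (nat_lit 4) (nat_lit 160395) (nat_lit 16) (node (nat_lit 6) (nat_lit
  162771) (nat_lit 17) (node (nat_lit 5) (nat_lit 165740) (nat_lit 18) nil nil) nil) nil) nil)
  nil) nil)) (node (nat_lit 5) (nat_lit 160395) (nat_lit 12) (node (nat_lit 6) (nat_lit 160395)
  (nat_lit 13) (node (nat_lit 4) (nat_lit 160395) (nat_lit 14) (node (nat_lit 6) (nat_lit 160395)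
  (nat_lit 15) (node (nat_lit 5) (nat_lit 160395) (nat_lit 16) (node (nat_lit 6) (nat_lit 164125)
  (nat_lit 17) (node (nat_lit 4) (nat_lit 165735) (nat_lit 18) (node (nat_lit 12) (nat_lit 77012)
  (nat_lit 19) nil nil) nil) nil) nil) (node (nat_lit 5) (nat_lit 160395) (nat_lit 15) nil nil))
  (node (nat_lit 5) (nat_lit 160395) (nat_lit 14) nil nil)) nil) nil)) (node (nat_lit 6) (nat_lit
  160395) (nat_lit 11) (node (nat_lit 5) (nat_lit 160395) (nat_lit 12) (node (nat_lit 4) (nat_lit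
  160395) (nat_lit 13) (node (nat_lit 5) (nat_lit 160395) (nat_lit 14) (node (nat_lit 6) (nat_lit
  160395) (nat_lit 15) (node (nat_lit 4) (nat_lit 160395) (nat_lit 16) (node (nat_lit 6) (nat_lit
  165508) (nat_lit 17) (node (nat_lit 5) (nat_lit 169016) (nat_lit 18) nil nil) nil) nil) nil)
  nil) nil) (node (nat_lit 4) (nat_lit 160395) (nat_lit 12) (node (nat_lit 6) (nat_lit 160395)
  (nat_lit 13) (node (nat_lit 5) (nat_lit 160395) (nat_lit 14) (node (nat_lit 4) (nat_lit 160395)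
  (nat_lit 15) (node (nat_lit 5) (nat_lit 160395) (nat_lit 16) (node (nat_lit 6) (nat_lit 166094)
  (nat_lit 17) (node (nat_lit 4) (nat_lit 169899) (nat_lit 18) nil nil) nil) nil) nil) nil) nil)
  nil)) (node (nat_lit 12) (nat_lit 165309) (nat_lit 11) nil nil))) (node (nat_lit 6) (nat_lit
  160395) (nat_lit 10) (node (nat_lit 5) (nat_lit 160395) (nat_lit 11) (node (nat_lit 4) (nat_lit
  160395) (nat_lit 12) (node (nat_lit 6) (nat_lit 160395) (nat_lit 13) (node (nat_lit 5) (nat_lit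
  160395) (nat_lit 14) nil (node (nat_lit 4) (nat_lit 160395) (nat_lit 14) (node (nat_lit 5)
  (nat_lit 160395) (nat_lit 15) (node (nat_lit 6) (nat_lit 160395) (nat_lit 16) (node (nat_lit 4)
  (nat_lit 165496) (nat_lit 17) (node (nat_lit 6) (nat_lit 167647) (nat_lit 18) nil nil) nil) nil)
  nil) nil)) (node (nat_lit 5) (nat_lit 160395) (nat_lit 13) (node (nat_lit 6) (nat_lit 160395)
  (nat_lit 14) (node (nat_lit 4) (nat_lit 160395) (nat_lit 15) (node (nat_lit 6) (nat_lit 160395)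
  (nat_lit 16) (node (nat_lit 5) (nat_lit 165149) (nat_lit 17) (node (nat_lit 6) (nat_lit 168056)
  (nat_lit 18) (node (nat_lit 4) (nat_lit 170208) (nat_lit 19) (node (nat_lit 12) (nat_lit 77140)
  (nat_lit 20) nil nil) nil) nil) nil) nil) nil) nil) nil)) (node (nat_lit 6) (nat_lit 160395)
  (nat_lit 12) nil nil)) (node (nat_lit 4) (nat_lit 160395) (nat_lit 11) (node (nat_lit 6)
  (nat_lit 160395) (nat_lit 12) (node (nat_lit 5) (nat_lit 160395) (nat_lit 13) (node (nat_lit 4)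
  (nat_lit 160395) (nat_lit 14) (node (nat_lit 5) (nat_lit 160395) (nat_lit 15) (node (nat_lit 6)
  (nat_lit 160395) (nat_lit 16) (node (nat_lit 4) (nat_lit 165364) (nat_lit 17) (node (nat_lit 6)
  (nat_lit 169438) (nat_lit 18) nil nil) nil) nil) (node (nat_lit 6) (nat_lit 160395) (nat_lit 15)
  nil nil)) (node (nat_lit 6) (nat_lit 160395) (nat_lit 14) nil nil)) nil) (node (nat_lit 5)
  (nat_lit 160395) (nat_lit 12) (node (nat_lit 6) (nat_lit 160395) (nat_lit 13) (node (nat_lit 4)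
  (nat_lit 160395) (nat_lit 14) (node (nat_lit 6) (nat_lit 160395) (nat_lit 15) (node (nat_lit 5)
  (nat_lit 160395) (nat_lit 16) (node (nat_lit 6) (nat_lit 163901) (nat_lit 17) (node (nat_lit 4)
  (nat_lit 166638) (nat_lit 18) nil nil) nil) nil) nil) nil) nil) nil)) (node (nat_lit 12)
  (nat_lit 167690) (nat_lit 11) (node (nat_lit 4) (nat_lit 167690) (nat_lit 12) (node (nat_lit 6)
  (nat_lit 167690) (nat_lit 13) (node (nat_lit 4) (nat_lit 167690) (nat_lit 14) (node (nat_lit 5)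
  (nat_lit 167690) (nat_lit 15) (node (nat_lit 6) (nat_lit 167690) (nat_lit 16) (node (nat_lit 4)
  (nat_lit 167690) (nat_lit 17) (node (nat_lit 6) (nat_lit 167690) (nat_lit 18) (node (nat_lit 5)
  (nat_lit 170185) (nat_lit 19) (node (nat_lit 6) (nat_lit 172133) (nat_lit 20) (node (nat_lit 4)
  (nat_lit 173277) (nat_lit 21) (node (nat_lit 12) (nat_lit 177048) (nat_lit 22) nil nil) nil)
  nil) nil) nil) nil) nil) nil) nil) nil) nil) nil))) (node (nat_lit 4) (nat_lit 160395) (nat_lit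
  10) (node (nat_lit 6) (nat_lit 160395) (nat_lit 11) (node (nat_lit 4) (nat_lit 160395) (nat_lit
  12) (node (nat_lit 5) (nat_lit 160395) (nat_lit 13) (node (nat_lit 6) (nat_lit 160395) (nat_lit
  14) (node (nat_lit 4) (nat_lit 160395) (nat_lit 15) (node (nat_lit 6) (nat_lit 160395) (nat_lit
  16) (node (nat_lit 5) (nat_lit 164493) (nat_lit 17) (node (nat_lit 6) (nat_lit 167690) (nat_lit
  18) nil nil) nil) nil) nil) nil) nil) (node (nat_lit 5) (nat_lit 160395) (nat_lit 12) (node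
  (nat_lit 4) (nat_lit 160395) (nat_lit 13) (node (nat_lit 5) (nat_lit 160395) (nat_lit 14) (node
  (nat_lit 6) (nat_lit 160395) (nat_lit 15) (node (nat_lit 4) (nat_lit 160395) (nat_lit 16) (node
  (nat_lit 6) (nat_lit 165772) (nat_lit 17) (node (nat_lit 5) (nat_lit 169555) (nat_lit 18) nil
  nil) nil) nil) nil) nil) (node (nat_lit 6) (nat_lit 160395) (nat_lit 13) nil nil)) nil)) (node
  (nat_lit 5) (nat_lit 160395) (nat_lit 11) (node (nat_lit 6) (nat_lit 160395) (nat_lit 12) (node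
  (nat_lit 5) (nat_lit 160395) (nat_lit 13) (node (nat_lit 4) (nat_lit 160395) (nat_lit 14) (node
  (nat_lit 5) (nat_lit 160395) (nat_lit 15) (node (nat_lit 6) (nat_lit 160395) (nat_lit 16) (node
  (nat_lit 4) (nat_lit 165721) (nat_lit 17) nil nil) nil) nil) nil) nil) (node (nat_lit 4)
  (nat_lit 160395) (nat_lit 12) nil nil)) nil)) (node (nat_lit 0) (nat_lit 164871) (nat_lit 10)
  nil nil)))) (node (nat_lit 5) (nat_lit 0) (nat_lit 9) (node (nat_lit 0) (nat_lit 0) (nat_lit 10)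
  (node (nat_lit 5) (nat_lit 0) (nat_lit 11) (node (nat_lit 4) (nat_lit 166559) (nat_lit 12) (node
  (nat_lit 6) (nat_lit 166559) (nat_lit 13) (node (nat_lit 5) (nat_lit 166559) (nat_lit 14) (node
  (nat_lit 6) (nat_lit 166559) (nat_lit 15) (node (nat_lit 4) (nat_lit 166559) (nat_lit 16) nil
  nil) nil) (node (nat_lit 4) (nat_lit 166559) (nat_lit 14) (node (nat_lit 5) (nat_lit 166559)
  (nat_lit 15) (node (nat_lit 6) (nat_lit 166559) (nat_lit 16) (node (nat_lit 4) (nat_lit 166559)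
  (nat_lit 17) (node (nat_lit 6) (nat_lit 168413) (nat_lit 18) (node (nat_lit 5) (nat_lit 169696)
  (nat_lit 19) nil nil) nil) nil) nil) nil) nil)) (node (nat_lit 5) (nat_lit 166559) (nat_lit 13)
  (node (nat_lit 6) (nat_lit 166559) (nat_lit 14) nil nil) nil)) (node (nat_lit 6) (nat_lit
  166559) (nat_lit 12) (node (nat_lit 5) (nat_lit 166559) (nat_lit 13) (node (nat_lit 4) (nat_lit
  166559) (nat_lit 14) (node (nat_lit 5) (nat_lit 166559) (nat_lit 15) (node (nat_lit 6) (nat_lit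
  166559) (nat_lit 16) (node (nat_lit 4) (nat_lit 166559) (nat_lit 17) (node (nat_lit 6) (nat_lit
  170549) (nat_lit 18) (node (nat_lit 5) (nat_lit 173287) (nat_lit 19) nil nil) nil) nil) nil)
  (node (nat_lit 6) (nat_lit 166559) (nat_lit 15) nil nil)) nil) (node (nat_lit 4) (nat_lit
  166559) (nat_lit 13) (node (nat_lit 5) (nat_lit 166559) (nat_lit 14) nil (node (nat_lit 6)
  (nat_lit 166559) (nat_lit 14) (node (nat_lit 5) (nat_lit 166559) (nat_lit 15) nil nil) nil))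
  nil)) (node (nat_lit 0) (nat_lit 170393) (nat_lit 12) nil nil))) (node (nat_lit 4) (nat_lit
  166559) (nat_lit 11) (node (nat_lit 13) (nat_lit 171741) (nat_lit 12) nil nil) (node (nat_lit 0)
  (nat_lit 170052) (nat_lit 11) nil (node (nat_lit 6) (nat_lit 166559) (nat_lit 11) nil nil))))
  (node (nat_lit 4) (nat_lit 0) (nat_lit 10) (node (nat_lit 0) (nat_lit 166802) (nat_lit 11) (node
  (nat_lit 5) (nat_lit 166802) (nat_lit 12) (node (nat_lit 4) (nat_lit 166802) (nat_lit 13) (node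
  (nat_lit 6) (nat_lit 166802) (nat_lit 14) (node (nat_lit 4) (nat_lit 166802) (nat_lit 15) (node
  (nat_lit 5) (nat_lit 166802) (nat_lit 16) (node (nat_lit 6) (nat_lit 166802) (nat_lit 17) (node
  (nat_lit 4) (nat_lit 166802) (nat_lit 18) (node (nat_lit 6) (nat_lit 168247) (nat_lit 19) (node
  (nat_lit 5) (nat_lit 169757) (nat_lit 20) nil nil) nil) nil) nil) nil) (node (nat_lit 5)
  (nat_lit 166802) (nat_lit 15) (node (nat_lit 6) (nat_lit 166802) (nat_lit 16) nil nil) nil))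
  (node (nat_lit 5) (nat_lit 166802) (nat_lit 14) (node (nat_lit 6) (nat_lit 166802) (nat_lit 15)
  (node (nat_lit 4) (nat_lit 166802) (nat_lit 16) (node (nat_lit 6) (nat_lit 166802) (nat_lit 17)
  (node (nat_lit 5) (nat_lit 166802) (nat_lit 18) (node (nat_lit 6) (nat_lit 169074) (nat_lit 19)
  (node (nat_lit 4) (nat_lit 170053) (nat_lit 20) (node (nat_lit 5) (nat_lit 170818) (nat_lit 21)
  nil nil) nil) nil) nil) nil) (node (nat_lit 5) (nat_lit 166802) (nat_lit 16) nil nil)) nil)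
  nil)) nil) (node (nat_lit 4) (nat_lit 166802) (nat_lit 12) nil nil)) nil) (node (nat_lit 6)
  (nat_lit 0) (nat_lit 10) (node (nat_lit 0) (nat_lit 171129) (nat_lit 11) (node (nat_lit 5)
  (nat_lit 171129) (nat_lit 12) (node (nat_lit 6) (nat_lit 171129) (nat_lit 13) (node (nat_lit 4)
  (nat_lit 171129) (nat_lit 14) nil (node (nat_lit 5) (nat_lit 171129) (nat_lit 14) nil nil)) nil)
  nil) nil) nil))) nil)) (node (nat_lit 0) (nat_lit 158775) (nat_lit 8) (node (nat_lit 6) (nat_lit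
  158775) (nat_lit 9) (node (nat_lit 5) (nat_lit 158775) (nat_lit 10) (node (nat_lit 4) (nat_lit
  158775) (nat_lit 11) (node (nat_lit 6) (nat_lit 158775) (nat_lit 12) (node (nat_lit 4) (nat_lit
  158775) (nat_lit 13) (node (nat_lit 5) (nat_lit 158775) (nat_lit 14) (node (nat_lit 6) (nat_lit
  158775) (nat_lit 15) (node (nat_lit 4) (nat_lit 163266) (nat_lit 16) (node (nat_lit 6) (nat_lit
  162713) (nat_lit 17) (node (nat_lit 5) (nat_lit 162800) (nat_lit 18) nil nil) nil) nil) nil)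
  nil) nil) (node (nat_lit 5) (nat_lit 158775) (nat_lit 12) (node (nat_lit 6) (nat_lit 158775)
  (nat_lit 13) (node (nat_lit 4) (nat_lit 158775) (nat_lit 14) (node (nat_lit 6) (nat_lit 158775)
  (nat_lit 15) (node (nat_lit 5) (nat_lit 163149) (nat_lit 16) (node (nat_lit 6) (nat_lit 165534)
  (nat_lit 17) nil nil) nil) nil) nil) nil) nil)) (node (nat_lit 6) (nat_lit 158775) (nat_lit 11)
  (node (nat_lit 4) (nat_lit 158775) (nat_lit 12) (node (nat_lit 5) (nat_lit 158775) (nat_lit 13)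
  (node (nat_lit 6) (nat_lit 158775) (nat_lit 14) (node (nat_lit 5) (nat_lit 158775) (nat_lit 15)
  (node (nat_lit 4) (nat_lit 161093) (nat_lit 16) (node (nat_lit 5) (nat_lit 164431) (nat_lit 17)
  (node (nat_lit 6) (nat_lit 166415) (nat_lit 18) (node (nat_lit 4) (nat_lit 168373) (nat_lit 19)
  (node (nat_lit 6) (nat_lit 169742) (nat_lit 20) (node (nat_lit 5) (nat_lit 170639) (nat_lit 21)
  (node (nat_lit 6) (nat_lit 171329) (nat_lit 22) nil nil) nil) nil) nil) nil) nil) nil) nil) nil)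
  nil) nil) nil)) (node (nat_lit 4) (nat_lit 158775) (nat_lit 10) (node (nat_lit 5) (nat_lit
  158775) (nat_lit 11) (node (nat_lit 4) (nat_lit 158775) (nat_lit 12) (node (nat_lit 6) (nat_lit
  158775) (nat_lit 13) (node (nat_lit 4) (nat_lit 158775) (nat_lit 14) (node (nat_lit 5) (nat_lit
  158924) (nat_lit 15) (node (nat_lit 6) (nat_lit 159331) (nat_lit 16) nil nil) nil) nil) nil)
  (node (nat_lit 6) (nat_lit 158775) (nat_lit 12) (node (nat_lit 5) (nat_lit 158775) (nat_lit 13)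
  (node (nat_lit 4) (nat_lit 158775) (nat_lit 14) (node (nat_lit 5) (nat_lit 158775) (nat_lit 15)
  (node (nat_lit 6) (nat_lit 162859) (nat_lit 16) nil nil) nil) nil) nil) nil)) nil) nil)) (node
  (nat_lit 5) (nat_lit 158775) (nat_lit 9) (node (nat_lit 4) (nat_lit 158775) (nat_lit 10) (node
  (nat_lit 6) (nat_lit 158775) (nat_lit 11) (node (nat_lit 5) (nat_lit 158775) (nat_lit 12) (node
  (nat_lit 4) (nat_lit 158775) (nat_lit 13) (node (nat_lit 5) (nat_lit 158775) (nat_lit 14) (node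
  (nat_lit 6) (nat_lit 158775) (nat_lit 15) (node (nat_lit 4) (nat_lit 164034) (nat_lit 16) (node
  (nat_lit 6) (nat_lit 167863) (nat_lit 17) (node (nat_lit 5) (nat_lit 169634) (nat_lit 18) nil
  nil) nil) nil) nil) nil) (node (nat_lit 6) (nat_lit 158775) (nat_lit 13) nil nil)) (node
  (nat_lit 4) (nat_lit 158775) (nat_lit 12) (node (nat_lit 5) (nat_lit 158775) (nat_lit 13) (node
  (nat_lit 6) (nat_lit 158775) (nat_lit 14) (node (nat_lit 4) (nat_lit 158775) (nat_lit 15) (node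
  (nat_lit 6) (nat_lit 160185) (nat_lit 16) (node (nat_lit 5) (nat_lit 160443) (nat_lit 17) nil
  nil) nil) nil) nil) nil) nil)) (node (nat_lit 5) (nat_lit 158775) (nat_lit 11) (node (nat_lit 6)
  (nat_lit 158775) (nat_lit 12) (node (nat_lit 4) (nat_lit 158775) (nat_lit 13) (node (nat_lit 6)
  (nat_lit 158775) (nat_lit 14) (node (nat_lit 5) (nat_lit 158775) (nat_lit 15) (node (nat_lit 6)
  (nat_lit 161838) (nat_lit 16) nil nil) nil) nil) nil) nil) nil)) (node (nat_lit 6) (nat_lit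
  158775) (nat_lit 10) (node (nat_lit 5) (nat_lit 158775) (nat_lit 11) (node (nat_lit 4) (nat_lit
  158775) (nat_lit 12) (node (nat_lit 5) (nat_lit 158775) (nat_lit 13) (node (nat_lit 6) (nat_lit
  158775) (nat_lit 14) (node (nat_lit 4) (nat_lit 158775) (nat_lit 15) (node (nat_lit 6) (nat_lit
  163611) (nat_lit 16) (node (nat_lit 5) (nat_lit 166765) (nat_lit 17) (node (nat_lit 6) (nat_lit
  168424) (nat_lit 18) nil nil) nil) nil) nil) nil) nil) nil) nil) nil)) (node (nat_lit 4)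
  (nat_lit 158775) (nat_lit 9) (node (nat_lit 6) (nat_lit 158775) (nat_lit 10) (node (nat_lit 5)
  (nat_lit 158775) (nat_lit 11) (node (nat_lit 4) (nat_lit 158775) (nat_lit 12) (node (nat_lit 5)
  (nat_lit 158775) (nat_lit 13) (node (nat_lit 6) (nat_lit 158775) (nat_lit 14) (node (nat_lit 4)
  (nat_lit 158775) (nat_lit 15) (node (nat_lit 6) (nat_lit 163948) (nat_lit 16) (node (nat_lit 5)
  (nat_lit 167455) (nat_lit 17) (node (nat_lit 6) (nat_lit 170334) (nat_lit 18) nil nil) nil) nil)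
  nil) nil) nil) (node (nat_lit 6) (nat_lit 158775) (nat_lit 12) nil nil)) (node (nat_lit 4)
  (nat_lit 158775) (nat_lit 11) (node (nat_lit 5) (nat_lit 158775) (nat_lit 12) (node (nat_lit 6)
  (nat_lit 158775) (nat_lit 13) (node (nat_lit 4) (nat_lit 158775) (nat_lit 14) (node (nat_lit 6)
  (nat_lit 158775) (nat_lit 15) (node (nat_lit 5) (nat_lit 162309) (nat_lit 16) (node (nat_lit 6)
  (nat_lit 164181) (nat_lit 17) nil nil) nil) nil) nil) nil) nil) nil)) (node (nat_lit 5) (nat_lit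
  158775) (nat_lit 10) (node (nat_lit 6) (nat_lit 158775) (nat_lit 11) (node (nat_lit 5) (nat_lit
  158775) (nat_lit 12) (node (nat_lit 4) (nat_lit 158775) (nat_lit 13) (node (nat_lit 6) (nat_lit
  158775) (nat_lit 14) (node (nat_lit 4) (nat_lit 158775) (nat_lit 15) (node (nat_lit 5) (nat_lit
  162453) (nat_lit 16) nil nil) nil) (node (nat_lit 5) (nat_lit 158775) (nat_lit 14) (node
  (nat_lit 6) (nat_lit 158775) (nat_lit 15) (node (nat_lit 4) (nat_lit 163881) (nat_lit 16) nil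
  nil) nil) nil)) nil) (node (nat_lit 4) (nat_lit 158775) (nat_lit 12) nil nil)) nil) nil)) nil)))
  nil)) nil))

noncomputable def t227 : Tr :=
  (node (nat_lit 5) (nat_lit 0) (nat_lit 8) (node (nat_lit 0) (nat_lit 0) (nat_lit 9) (node
  (nat_lit 4) (nat_lit 0) (nat_lit 10) (node (nat_lit 6) (nat_lit 98949) (nat_lit 11) (node
  (nat_lit 5) (nat_lit 98949) (nat_lit 12) (node (nat_lit 4) (nat_lit 98949) (nat_lit 13) (node
  (nat_lit 5) (nat_lit 98949) (nat_lit 14) (node (nat_lit 6) (nat_lit 98949) (nat_lit 15) (node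
  (nat_lit 4) (nat_lit 98949) (nat_lit 16) (node (nat_lit 5) (nat_lit 101860) (nat_lit 17) (node
  (nat_lit 4) (nat_lit 102258) (nat_lit 18) nil nil) nil) nil) nil) (node (nat_lit 6) (nat_lit
  98949) (nat_lit 14) nil nil)) (node (nat_lit 6) (nat_lit 98949) (nat_lit 13) (node (nat_lit 4)
  (nat_lit 98949) (nat_lit 14) nil nil) nil)) (node (nat_lit 4) (nat_lit 98949) (nat_lit 12) (node
  (nat_lit 5) (nat_lit 98949) (nat_lit 13) (node (nat_lit 6) (nat_lit 98949) (nat_lit 14) (node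
  (nat_lit 5) (nat_lit 98949) (nat_lit 15) nil nil) (node (nat_lit 4) (nat_lit 98949) (nat_lit 14)
  nil nil)) nil) nil)) (node (nat_lit 5) (nat_lit 98949) (nat_lit 11) (node (nat_lit 4) (nat_lit
  98949) (nat_lit 12) (node (nat_lit 6) (nat_lit 98949) (nat_lit 13) (node (nat_lit 5) (nat_lit
  98949) (nat_lit 14) (node (nat_lit 6) (nat_lit 98949) (nat_lit 15) (node (nat_lit 4) (nat_lit
  98949) (nat_lit 16) nil nil) (node (nat_lit 4) (nat_lit 98949) (nat_lit 15) (node (nat_lit 5)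
  (nat_lit 99038) (nat_lit 16) (node (nat_lit 6) (nat_lit 101158) (nat_lit 17) nil nil) nil) nil))
  (node (nat_lit 4) (nat_lit 98949) (nat_lit 14) (node (nat_lit 5) (nat_lit 98949) (nat_lit 15)
  nil nil) nil)) nil) (node (nat_lit 6) (nat_lit 98949) (nat_lit 12) (node (nat_lit 5) (nat_lit
  98949) (nat_lit 13) (node (nat_lit 4) (nat_lit 98949) (nat_lit 14) (node (nat_lit 5) (nat_lit
  98949) (nat_lit 15) (node (nat_lit 6) (nat_lit 98499) (nat_lit 16) (node (nat_lit 4) (nat_lit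
  99008) (nat_lit 17) nil nil) nil) nil) nil) (node (nat_lit 4) (nat_lit 98949) (nat_lit 13) nil
  nil)) (node (nat_lit 12) (nat_lit 100713) (nat_lit 12) nil nil))) (node (nat_lit 12) (nat_lit
  102596) (nat_lit 11) (node (nat_lit 5) (nat_lit 102596) (nat_lit 12) (node (nat_lit 4) (nat_lit
  102596) (nat_lit 13) (node (nat_lit 5) (nat_lit 102596) (nat_lit 14) (node (nat_lit 6) (nat_lit
  102596) (nat_lit 15) (node (nat_lit 4) (nat_lit 102596) (nat_lit 16) (node (nat_lit 5) (nat_lit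
  102596) (nat_lit 17) (node (nat_lit 4) (nat_lit 102859) (nat_lit 18) (node (nat_lit 6) (nat_lit
  102681) (nat_lit 19) (node (nat_lit 5) (nat_lit 102713) (nat_lit 20) nil nil) nil) nil) nil)
  nil) nil) nil) nil) nil) (node (nat_lit 0) (nat_lit 99822) (nat_lit 11) nil nil)))) (node
  (nat_lit 6) (nat_lit 0) (nat_lit 10) (node (nat_lit 5) (nat_lit 98949) (nat_lit 11) (node
  (nat_lit 4) (nat_lit 98949) (nat_lit 12) (node (nat_lit 6) (nat_lit 98949) (nat_lit 13) (node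
  (nat_lit 5) (nat_lit 98949) (nat_lit 14) nil (node (nat_lit 4) (nat_lit 98949) (nat_lit 14) nil
  nil)) (node (nat_lit 5) (nat_lit 98949) (nat_lit 13) (node (nat_lit 6) (nat_lit 98949) (nat_lit
  14) (node (nat_lit 4) (nat_lit 98949) (nat_lit 15) (node (nat_lit 5) (nat_lit 98949) (nat_lit
  16) (node (nat_lit 4) (nat_lit 100548) (nat_lit 17) (node (nat_lit 6) (nat_lit 100132) (nat_lit
  18) (node (nat_lit 5) (nat_lit 100217) (nat_lit 19) nil nil) nil) nil) nil) nil) nil) nil))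
  (node (nat_lit 6) (nat_lit 98949) (nat_lit 12) (node (nat_lit 4) (nat_lit 98949) (nat_lit 13)
  (node (nat_lit 5) (nat_lit 98949) (nat_lit 14) (node (nat_lit 4) (nat_lit 98949) (nat_lit 15)
  (node (nat_lit 6) (nat_lit 98949) (nat_lit 16) nil nil) (node (nat_lit 6) (nat_lit 98949)
  (nat_lit 15) nil nil)) (node (nat_lit 6) (nat_lit 98949) (nat_lit 14) (node (nat_lit 5) (nat_lit
  98949) (nat_lit 15) nil nil) nil)) nil) nil)) (node (nat_lit 4) (nat_lit 98949) (nat_lit 11)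
  (node (nat_lit 5) (nat_lit 98949) (nat_lit 12) (node (nat_lit 6) (nat_lit 98949) (nat_lit 13)
  (node (nat_lit 4) (nat_lit 98949) (nat_lit 14) nil (node (nat_lit 5) (nat_lit 98949) (nat_lit
  14) nil nil)) (node (nat_lit 4) (nat_lit 98949) (nat_lit 13) (node (nat_lit 6) (nat_lit 98949)
  (nat_lit 14) nil nil) nil)) (node (nat_lit 6) (nat_lit 98949) (nat_lit 12) (node (nat_lit 5)
  (nat_lit 98949) (nat_lit 13) (node (nat_lit 6) (nat_lit 98949) (nat_lit 14) (node (nat_lit 4)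
  (nat_lit 98949) (nat_lit 15) nil nil) (node (nat_lit 4) (nat_lit 98949) (nat_lit 14) (node
  (nat_lit 5) (nat_lit 98949) (nat_lit 15) (node (nat_lit 6) (nat_lit 98949) (nat_lit 16) (node
  (nat_lit 4) (nat_lit 99702) (nat_lit 17) nil nil) nil) (node (nat_lit 6) (nat_lit 98949)
  (nat_lit 15) nil nil)) nil)) nil) (node (nat_lit 12) (nat_lit 101403) (nat_lit 12) nil nil)))
  (node (nat_lit 12) (nat_lit 101187) (nat_lit 11) nil (node (nat_lit 0) (nat_lit 100009) (nat_lit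
  11) nil nil)))) (node (nat_lit 5) (nat_lit 0) (nat_lit 10) (node (nat_lit 6) (nat_lit 98949)
  (nat_lit 11) (node (nat_lit 4) (nat_lit 98949) (nat_lit 12) (node (nat_lit 6) (nat_lit 98949)
  (nat_lit 13) (node (nat_lit 5) (nat_lit 98949) (nat_lit 14) (node (nat_lit 4) (nat_lit 98949)
  (nat_lit 15) (node (nat_lit 5) (nat_lit 98949) (nat_lit 16) (node (nat_lit 6) (nat_lit 99882)
  (nat_lit 17) (node (nat_lit 4) (nat_lit 100280) (nat_lit 18) (node (nat_lit 5) (nat_lit 100591)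
  (nat_lit 19) (node (nat_lit 4) (nat_lit 100833) (nat_lit 20) nil nil) nil) nil) nil) nil) nil)
  nil) (node (nat_lit 5) (nat_lit 98949) (nat_lit 13) nil nil)) (node (nat_lit 5) (nat_lit 98949)
  (nat_lit 12) (node (nat_lit 4) (nat_lit 98949) (nat_lit 13) (node (nat_lit 5) (nat_lit 98949)
  (nat_lit 14) (node (nat_lit 6) (nat_lit 98949) (nat_lit 15) (node (nat_lit 4) (nat_lit 98949)
  (nat_lit 16) (node (nat_lit 5) (nat_lit 100932) (nat_lit 17) (node (nat_lit 4) (nat_lit 101330)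
  (nat_lit 18) (node (nat_lit 6) (nat_lit 101016) (nat_lit 19) nil nil) nil) nil) nil) nil) (node
  (nat_lit 6) (nat_lit 98949) (nat_lit 14) nil nil)) nil) nil)) (node (nat_lit 4) (nat_lit 98949)
  (nat_lit 11) (node (nat_lit 6) (nat_lit 98949) (nat_lit 12) (node (nat_lit 5) (nat_lit 98949)
  (nat_lit 13) (node (nat_lit 6) (nat_lit 98949) (nat_lit 14) nil nil) (node (nat_lit 4) (nat_lit
  98949) (nat_lit 13) nil nil)) (node (nat_lit 5) (nat_lit 98949) (nat_lit 12) (node (nat_lit 6)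
  (nat_lit 98949) (nat_lit 13) (node (nat_lit 4) (nat_lit 98949) (nat_lit 14) (node (nat_lit 5)
  (nat_lit 98949) (nat_lit 15) (node (nat_lit 4) (nat_lit 98949) (nat_lit 16) (node (nat_lit 6)
  (nat_lit 100295) (nat_lit 17) nil nil) nil) nil) nil) nil) nil)) (node (nat_lit 0) (nat_lit
  100009) (nat_lit 11) nil nil))) (node (nat_lit 0) (nat_lit 101454) (nat_lit 10) (node (nat_lit
  5) (nat_lit 101454) (nat_lit 11) nil (node (nat_lit 12) (nat_lit 101962) (nat_lit 11) nil nil))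
  nil)))) (node (nat_lit 4) (nat_lit 0) (nat_lit 9) (node (nat_lit 0) (nat_lit 0) (nat_lit 10)
  (node (nat_lit 4) (nat_lit 0) (nat_lit 11) (node (nat_lit 6) (nat_lit 83039) (nat_lit 12) (node
  (nat_lit 5) (nat_lit 84262) (nat_lit 13) (node (nat_lit 6) (nat_lit 84570) (nat_lit 14) (node
  (nat_lit 4) (nat_lit 84646) (nat_lit 15) nil nil) (node (nat_lit 4) (nat_lit 84834) (nat_lit 14)
  (node (nat_lit 5) (nat_lit 85535) (nat_lit 15) (node (nat_lit 6) (nat_lit 85535) (nat_lit 16)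
  (node (nat_lit 4) (nat_lit 86043) (nat_lit 17) (node (nat_lit 5) (nat_lit 86442) (nat_lit 18)
  nil nil) nil) nil) (node (nat_lit 6) (nat_lit 84834) (nat_lit 15) nil nil)) nil)) (node (nat_lit
  4) (nat_lit 83286) (nat_lit 13) (node (nat_lit 5) (nat_lit 83286) (nat_lit 14) (node (nat_lit 6)
  (nat_lit 83286) (nat_lit 15) nil nil) nil) (node (nat_lit 0) (nat_lit 84256) (nat_lit 13) nil
  nil))) (node (nat_lit 5) (nat_lit 82845) (nat_lit 12) (node (nat_lit 6) (nat_lit 84139) (nat_lit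
  13) (node (nat_lit 4) (nat_lit 84631) (nat_lit 14) (node (nat_lit 6) (nat_lit 84631) (nat_lit
  15) nil (node (nat_lit 5) (nat_lit 84631) (nat_lit 15) nil nil)) (node (nat_lit 5) (nat_lit
  84139) (nat_lit 14) (node (nat_lit 4) (nat_lit 84139) (nat_lit 15) nil nil) nil)) (node (nat_lit
  4) (nat_lit 83084) (nat_lit 13) (node (nat_lit 6) (nat_lit 83084) (nat_lit 14) nil (node
  (nat_lit 13) (nat_lit 84544) (nat_lit 14) nil nil)) (node (nat_lit 13) (nat_lit 85298) (nat_lit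
  13) nil nil))) (node (nat_lit 0) (nat_lit 86081) (nat_lit 12) nil nil))) (node (nat_lit 5)
  (nat_lit 82374) (nat_lit 11) (node (nat_lit 4) (nat_lit 83359) (nat_lit 12) (node (nat_lit 5)
  (nat_lit 84030) (nat_lit 13) (node (nat_lit 13) (nat_lit 85489) (nat_lit 14) (node (nat_lit 4)
  (nat_lit 85489) (nat_lit 15) (node (nat_lit 13) (nat_lit 85826) (nat_lit 16) (node (nat_lit 5)
  (nat_lit 85826) (nat_lit 17) (node (nat_lit 4) (nat_lit 85826) (nat_lit 18) (node (nat_lit 5)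
  (nat_lit 85826) (nat_lit 19) (node (nat_lit 6) (nat_lit 85826) (nat_lit 20) (node (nat_lit 4)
  (nat_lit 85826) (nat_lit 21) (node (nat_lit 5) (nat_lit 85826) (nat_lit 22) (node (nat_lit 4)
  (nat_lit 85941) (nat_lit 23) (node (nat_lit 6) (nat_lit 85857) (nat_lit 24) nil nil) nil) nil)
  nil) nil) nil) nil) nil) nil) nil) nil) nil) (node (nat_lit 13) (nat_lit 85445) (nat_lit 12) nil
  nil)) (node (nat_lit 6) (nat_lit 82410) (nat_lit 11) (node (nat_lit 4) (nat_lit 82836) (nat_lit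
  12) nil (node (nat_lit 13) (nat_lit 85483) (nat_lit 12) nil nil)) (node (nat_lit 0) (nat_lit
  85025) (nat_lit 11) nil nil)))) (node (nat_lit 5) (nat_lit 0) (nat_lit 10) (node (nat_lit 0)
  (nat_lit 77601) (nat_lit 11) (node (nat_lit 4) (nat_lit 77626) (nat_lit 12) (node (nat_lit 5)
  (nat_lit 77969) (nat_lit 13) (node (nat_lit 6) (nat_lit 78362) (nat_lit 14) (node (nat_lit 4)
  (nat_lit 78365) (nat_lit 15) (node (nat_lit 6) (nat_lit 78365) (nat_lit 16) nil (node (nat_lit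
  5) (nat_lit 78365) (nat_lit 16) nil nil)) (node (nat_lit 5) (nat_lit 78362) (nat_lit 15) (node
  (nat_lit 4) (nat_lit 78362) (nat_lit 16) nil nil) nil)) (node (nat_lit 4) (nat_lit 78126)
  (nat_lit 14) (node (nat_lit 6) (nat_lit 78134) (nat_lit 15) (node (nat_lit 5) (nat_lit 78134)
  (nat_lit 16) (node (nat_lit 6) (nat_lit 78134) (nat_lit 17) nil nil) (node (nat_lit 4) (nat_lit
  78134) (nat_lit 16) nil nil)) nil) nil)) nil) (node (nat_lit 5) (nat_lit 77629) (nat_lit 12)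
  (node (nat_lit 4) (nat_lit 78021) (nat_lit 13) (node (nat_lit 14) (nat_lit 78971) (nat_lit 14)
  nil nil) nil) nil)) nil) nil)) (node (nat_lit 6) (nat_lit 0) (nat_lit 9) (node (nat_lit 0)
  (nat_lit 0) (nat_lit 10) (node (nat_lit 6) (nat_lit 0) (nat_lit 11) (node (nat_lit 4) (nat_lit
  101150) (nat_lit 12) (node (nat_lit 5) (nat_lit 101150) (nat_lit 13) (node (nat_lit 4) (nat_lit
  101150) (nat_lit 14) (node (nat_lit 6) (nat_lit 101150) (nat_lit 15) nil nil) (node (nat_lit 6)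
  (nat_lit 101150) (nat_lit 14) nil nil)) (node (nat_lit 6) (nat_lit 101150) (nat_lit 13) (node
  (nat_lit 5) (nat_lit 101150) (nat_lit 14) nil nil) nil)) (node (nat_lit 5) (nat_lit 101150)
  (nat_lit 12) (node (nat_lit 4) (nat_lit 101150) (nat_lit 13) (node (nat_lit 6) (nat_lit 101150)
  (nat_lit 14) (node (nat_lit 4) (nat_lit 101150) (nat_lit 15) nil nil) (node (nat_lit 5) (nat_lit
  101150) (nat_lit 14) (node (nat_lit 6) (nat_lit 101150) (nat_lit 15) (node (nat_lit 4) (nat_lit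
  101150) (nat_lit 16) (node (nat_lit 5) (nat_lit 101150) (nat_lit 17) (node (nat_lit 4) (nat_lit
  103662) (nat_lit 18) (node (nat_lit 6) (nat_lit 104535) (nat_lit 19) nil nil) nil) nil) nil)
  nil) nil)) (node (nat_lit 6) (nat_lit 101150) (nat_lit 13) (node (nat_lit 4) (nat_lit 101150)
  (nat_lit 14) nil nil) nil)) (node (nat_lit 0) (nat_lit 102853) (nat_lit 12) nil nil))) (node
  (nat_lit 5) (nat_lit 101150) (nat_lit 11) (node (nat_lit 6) (nat_lit 101150) (nat_lit 12) (node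
  (nat_lit 5) (nat_lit 101150) (nat_lit 13) nil nil) (node (nat_lit 13) (nat_lit 102853) (nat_lit
  12) nil (node (nat_lit 4) (nat_lit 101150) (nat_lit 12) nil nil))) (node (nat_lit 4) (nat_lit
  101150) (nat_lit 11) (node (nat_lit 6) (nat_lit 101150) (nat_lit 12) nil nil) (node (nat_lit 0)
  (nat_lit 102863) (nat_lit 11) nil nil)))) (node (nat_lit 4) (nat_lit 0) (nat_lit 10) (node
  (nat_lit 0) (nat_lit 104328) (nat_lit 11) (node (nat_lit 6) (nat_lit 104328) (nat_lit 12) (node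
  (nat_lit 4) (nat_lit 104328) (nat_lit 13) (node (nat_lit 5) (nat_lit 104328) (nat_lit 14) (node
  (nat_lit 6) (nat_lit 104328) (nat_lit 15) nil (node (nat_lit 4) (nat_lit 104328) (nat_lit 15)
  nil nil)) (node (nat_lit 6) (nat_lit 104328) (nat_lit 14) (node (nat_lit 5) (nat_lit 104328)
  (nat_lit 15) nil nil) nil)) nil) (node (nat_lit 4) (nat_lit 104328) (nat_lit 12) nil nil)) nil)
  nil)) nil))) (node (nat_lit 0) (nat_lit 0) (nat_lit 8) (node (nat_lit 5) (nat_lit 95171)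
  (nat_lit 9) (node (nat_lit 6) (nat_lit 95812) (nat_lit 10) (node (nat_lit 4) (nat_lit 95812)
  (nat_lit 11) (node (nat_lit 6) (nat_lit 95812) (nat_lit 12) (node (nat_lit 5) (nat_lit 95812)
  (nat_lit 13) (node (nat_lit 4) (nat_lit 95812) (nat_lit 14) nil nil) nil) (node (nat_lit 5)
  (nat_lit 95812) (nat_lit 12) (node (nat_lit 4) (nat_lit 95812) (nat_lit 13) nil (node (nat_lit
  6) (nat_lit 95812) (nat_lit 13) nil nil)) nil)) (node (nat_lit 5) (nat_lit 95812) (nat_lit 11)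
  (node (nat_lit 4) (nat_lit 95812) (nat_lit 12) (node (nat_lit 5) (nat_lit 95812) (nat_lit 13)
  (node (nat_lit 6) (nat_lit 95812) (nat_lit 14) (node (nat_lit 4) (nat_lit 95812) (nat_lit 15)
  (node (nat_lit 5) (nat_lit 98347) (nat_lit 16) (node (nat_lit 4) (nat_lit 100670) (nat_lit 17)
  (node (nat_lit 6) (nat_lit 100106) (nat_lit 18) nil nil) nil) nil) nil) nil) nil) nil) nil))
  (node (nat_lit 4) (nat_lit 95457) (nat_lit 10) (node (nat_lit 6) (nat_lit 95210) (nat_lit 11)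
  (node (nat_lit 5) (nat_lit 94864) (nat_lit 12) (node (nat_lit 6) (nat_lit 94864) (nat_lit 13)
  (node (nat_lit 4) (nat_lit 94864) (nat_lit 14) nil nil) (node (nat_lit 4) (nat_lit 94864)
  (nat_lit 13) (node (nat_lit 5) (nat_lit 94864) (nat_lit 14) (node (nat_lit 6) (nat_lit 93993)
  (nat_lit 15) (node (nat_lit 4) (nat_lit 94284) (nat_lit 16) nil nil) nil) nil) nil)) (node
  (nat_lit 4) (nat_lit 95210) (nat_lit 12) (node (nat_lit 5) (nat_lit 95210) (nat_lit 13) (node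
  (nat_lit 6) (nat_lit 95210) (nat_lit 14) nil nil) nil) nil)) (node (nat_lit 5) (nat_lit 95812)
  (nat_lit 11) (node (nat_lit 6) (nat_lit 95812) (nat_lit 12) (node (nat_lit 4) (nat_lit 95812)
  (nat_lit 13) (node (nat_lit 5) (nat_lit 95812) (nat_lit 14) (node (nat_lit 4) (nat_lit 95812)
  (nat_lit 15) (node (nat_lit 6) (nat_lit 97890) (nat_lit 16) nil nil) nil) nil) nil) nil) nil))
  (node (nat_lit 11) (nat_lit 101848) (nat_lit 10) nil nil))) (node (nat_lit 6) (nat_lit 95205)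
  (nat_lit 9) (node (nat_lit 4) (nat_lit 95812) (nat_lit 10) (node (nat_lit 5) (nat_lit 95812)
  (nat_lit 11) (node (nat_lit 4) (nat_lit 95812) (nat_lit 12) (node (nat_lit 6) (nat_lit 95812)
  (nat_lit 13) (node (nat_lit 5) (nat_lit 95812) (nat_lit 14) nil nil) nil) (node (nat_lit 6)
  (nat_lit 95812) (nat_lit 12) (node (nat_lit 5) (nat_lit 95812) (nat_lit 13) (node (nat_lit 4)
  (nat_lit 95812) (nat_lit 14) (node (nat_lit 5) (nat_lit 95812) (nat_lit 15) (node (nat_lit 6)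
  (nat_lit 97997) (nat_lit 16) nil nil) nil) nil) nil) nil)) (node (nat_lit 6) (nat_lit 95812)
  (nat_lit 11) (node (nat_lit 5) (nat_lit 95812) (nat_lit 12) (node (nat_lit 4) (nat_lit 95812)
  (nat_lit 13) (node (nat_lit 5) (nat_lit 95812) (nat_lit 14) (node (nat_lit 6) (nat_lit 95812)
  (nat_lit 15) (node (nat_lit 4) (nat_lit 96605) (nat_lit 16) (node (nat_lit 5) (nat_lit 96860)
  (nat_lit 17) (node (nat_lit 4) (nat_lit 97092) (nat_lit 18) (node (nat_lit 6) (nat_lit 96660)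
  (nat_lit 19) nil nil) nil) nil) nil) nil) (node (nat_lit 6) (nat_lit 95812) (nat_lit 14) nil
  nil)) nil) nil) nil)) (node (nat_lit 5) (nat_lit 95812) (nat_lit 10) (node (nat_lit 4) (nat_lit
  95812) (nat_lit 11) (node (nat_lit 6) (nat_lit 95812) (nat_lit 12) (node (nat_lit 5) (nat_lit
  95812) (nat_lit 13) nil (node (nat_lit 4) (nat_lit 95812) (nat_lit 13) nil nil)) (node (nat_lit
  5) (nat_lit 95812) (nat_lit 12) (node (nat_lit 6) (nat_lit 95812) (nat_lit 13) (node (nat_lit 4)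
  (nat_lit 95812) (nat_lit 14) (node (nat_lit 5) (nat_lit 95812) (nat_lit 15) (node (nat_lit 4)
  (nat_lit 98361) (nat_lit 16) (node (nat_lit 6) (nat_lit 97623) (nat_lit 17) nil nil) nil) (node
  (nat_lit 6) (nat_lit 95812) (nat_lit 15) nil nil)) (node (nat_lit 5) (nat_lit 95812) (nat_lit
  14) nil nil)) nil) nil)) (node (nat_lit 6) (nat_lit 95812) (nat_lit 11) (node (nat_lit 4)
  (nat_lit 95812) (nat_lit 12) nil nil) nil)) nil)) (node (nat_lit 4) (nat_lit 94975) (nat_lit 9)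
  (node (nat_lit 6) (nat_lit 95812) (nat_lit 10) (node (nat_lit 5) (nat_lit 95812) (nat_lit 11)
  (node (nat_lit 4) (nat_lit 95812) (nat_lit 12) (node (nat_lit 5) (nat_lit 95812) (nat_lit 13)
  (node (nat_lit 6) (nat_lit 95812) (nat_lit 14) (node (nat_lit 4) (nat_lit 95812) (nat_lit 15)
  (node (nat_lit 5) (nat_lit 98306) (nat_lit 16) (node (nat_lit 4) (nat_lit 98561) (nat_lit 17)
  (node (nat_lit 6) (nat_lit 97997) (nat_lit 18) nil nil) nil) nil) nil) nil) (node (nat_lit 6)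
  (nat_lit 95812) (nat_lit 13) nil nil)) (node (nat_lit 6) (nat_lit 95812) (nat_lit 12) (node
  (nat_lit 4) (nat_lit 95812) (nat_lit 13) (node (nat_lit 5) (nat_lit 95812) (nat_lit 14) nil nil)
  nil) nil)) (node (nat_lit 4) (nat_lit 95812) (nat_lit 11) (node (nat_lit 5) (nat_lit 95812)
  (nat_lit 12) (node (nat_lit 6) (nat_lit 95812) (nat_lit 13) nil nil) nil) nil)) (node (nat_lit
  5) (nat_lit 95812) (nat_lit 10) (node (nat_lit 6) (nat_lit 95812) (nat_lit 11) (node (nat_lit 4)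
  (nat_lit 95812) (nat_lit 12) (node (nat_lit 6) (nat_lit 95812) (nat_lit 13) nil (node (nat_lit
  5) (nat_lit 95812) (nat_lit 13) nil nil)) (node (nat_lit 5) (nat_lit 95812) (nat_lit 12) (node
  (nat_lit 4) (nat_lit 95812) (nat_lit 13) (node (nat_lit 6) (nat_lit 95812) (nat_lit 14) nil nil)
  nil) nil)) (node (nat_lit 4) (nat_lit 95812) (nat_lit 11) (node (nat_lit 6) (nat_lit 95812)
  (nat_lit 12) nil nil) nil)) (node (nat_lit 11) (nat_lit 97299) (nat_lit 10) nil nil))) (node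
  (nat_lit 0) (nat_lit 98629) (nat_lit 9) nil nil)))) (node (nat_lit 4) (nat_lit 0) (nat_lit 8)
  (node (nat_lit 0) (nat_lit 0) (nat_lit 9) (node (nat_lit 6) (nat_lit 97130) (nat_lit 10) (node
  (nat_lit 4) (nat_lit 97130) (nat_lit 11) (node (nat_lit 6) (nat_lit 97130) (nat_lit 12) (node
  (nat_lit 5) (nat_lit 97130) (nat_lit 13) (node (nat_lit 4) (nat_lit 97130) (nat_lit 14) (node
  (nat_lit 5) (nat_lit 97130) (nat_lit 15) (node (nat_lit 6) (nat_lit 97130) (nat_lit 16) (node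
  (nat_lit 4) (nat_lit 100019) (nat_lit 17) nil nil) nil) (node (nat_lit 6) (nat_lit 97130)
  (nat_lit 15) nil nil)) (node (nat_lit 6) (nat_lit 97130) (nat_lit 14) (node (nat_lit 4) (nat_lit
  97130) (nat_lit 15) nil nil) nil)) nil) nil) (node (nat_lit 5) (nat_lit 97130) (nat_lit 11)
  (node (nat_lit 4) (nat_lit 97130) (nat_lit 12) (node (nat_lit 6) (nat_lit 97130) (nat_lit 13)
  nil (node (nat_lit 5) (nat_lit 97130) (nat_lit 13) (node (nat_lit 6) (nat_lit 97130) (nat_lit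
  14) (node (nat_lit 4) (nat_lit 97130) (nat_lit 15) (node (nat_lit 5) (nat_lit 97130) (nat_lit
  16) (node (nat_lit 4) (nat_lit 100349) (nat_lit 17) (node (nat_lit 6) (nat_lit 100909) (nat_lit
  18) nil nil) nil) nil) nil) nil) nil)) (node (nat_lit 6) (nat_lit 97130) (nat_lit 12) (node
  (nat_lit 4) (nat_lit 97130) (nat_lit 13) nil nil) nil)) (node (nat_lit 12) (nat_lit 99313)
  (nat_lit 11) nil nil))) (node (nat_lit 5) (nat_lit 97130) (nat_lit 10) (node (nat_lit 4)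
  (nat_lit 97130) (nat_lit 11) (node (nat_lit 5) (nat_lit 97130) (nat_lit 12) (node (nat_lit 6)
  (nat_lit 97130) (nat_lit 13) nil nil) (node (nat_lit 6) (nat_lit 97130) (nat_lit 12) (node
  (nat_lit 5) (nat_lit 97130) (nat_lit 13) (node (nat_lit 4) (nat_lit 97130) (nat_lit 14) (node
  (nat_lit 5) (nat_lit 97130) (nat_lit 15) (node (nat_lit 6) (nat_lit 97043) (nat_lit 16) (node
  (nat_lit 4) (nat_lit 100019) (nat_lit 17) nil nil) nil) nil) nil) nil) nil)) (node (nat_lit 6)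
  (nat_lit 97130) (nat_lit 11) (node (nat_lit 5) (nat_lit 97130) (nat_lit 12) (node (nat_lit 4)
  (nat_lit 97130) (nat_lit 13) (node (nat_lit 5) (nat_lit 97130) (nat_lit 14) (node (nat_lit 6)
  (nat_lit 97130) (nat_lit 15) (node (nat_lit 4) (nat_lit 97320) (nat_lit 16) (node (nat_lit 5)
  (nat_lit 99660) (nat_lit 17) (node (nat_lit 4) (nat_lit 101723) (nat_lit 18) nil nil) nil) nil)
  nil) nil) nil) (node (nat_lit 4) (nat_lit 97130) (nat_lit 12) nil nil)) (node (nat_lit 12)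
  (nat_lit 99313) (nat_lit 11) nil nil))) (node (nat_lit 4) (nat_lit 97130) (nat_lit 10) (node
  (nat_lit 5) (nat_lit 97130) (nat_lit 11) (node (nat_lit 6) (nat_lit 97130) (nat_lit 12) (node
  (nat_lit 5) (nat_lit 97130) (nat_lit 13) (node (nat_lit 4) (nat_lit 97130) (nat_lit 14) (node
  (nat_lit 5) (nat_lit 97130) (nat_lit 15) (node (nat_lit 6) (nat_lit 97320) (nat_lit 16) (node
  (nat_lit 4) (nat_lit 100019) (nat_lit 17) nil nil) nil) nil) nil) nil) nil) (node (nat_lit 6)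
  (nat_lit 97130) (nat_lit 11) nil nil)) (node (nat_lit 0) (nat_lit 98356) (nat_lit 10) nil
  nil)))) (node (nat_lit 5) (nat_lit 0) (nat_lit 9) (node (nat_lit 0) (nat_lit 99431) (nat_lit 10)
  (node (nat_lit 5) (nat_lit 99431) (nat_lit 11) (node (nat_lit 6) (nat_lit 99431) (nat_lit 12)
  (node (nat_lit 4) (nat_lit 99431) (nat_lit 13) (node (nat_lit 5) (nat_lit 99431) (nat_lit 14)
  nil nil) (node (nat_lit 5) (nat_lit 99431) (nat_lit 13) (node (nat_lit 4) (nat_lit 99431)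
  (nat_lit 14) nil nil) nil)) (node (nat_lit 4) (nat_lit 99431) (nat_lit 12) (node (nat_lit 6)
  (nat_lit 99431) (nat_lit 13) (node (nat_lit 5) (nat_lit 99431) (nat_lit 14) nil nil) (node
  (nat_lit 5) (nat_lit 99431) (nat_lit 13) nil nil)) nil)) (node (nat_lit 4) (nat_lit 99431)
  (nat_lit 11) nil (node (nat_lit 0) (nat_lit 100388) (nat_lit 11) nil nil))) (node (nat_lit 6)
  (nat_lit 0) (nat_lit 10) (node (nat_lit 0) (nat_lit 102648) (nat_lit 11) (node (nat_lit 5)
  (nat_lit 102648) (nat_lit 12) (node (nat_lit 6) (nat_lit 102648) (nat_lit 13) (node (nat_lit 4)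
  (nat_lit 102648) (nat_lit 14) nil nil) nil) nil) nil) nil)) nil)) nil)))

noncomputable def t228 : Tr :=
  (node (nat_lit 5) (nat_lit 0) (nat_lit 8) (node (nat_lit 0) (nat_lit 0) (nat_lit 9) (node
  (nat_lit 6) (nat_lit 151434) (nat_lit 10) (node (nat_lit 5) (nat_lit 151434) (nat_lit 11) (node
  (nat_lit 6) (nat_lit 151434) (nat_lit 12) (node (nat_lit 4) (nat_lit 151434) (nat_lit 13) (node
  (nat_lit 5) (nat_lit 151434) (nat_lit 14) (node (nat_lit 6) (nat_lit 151434) (nat_lit 15) (node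
  (nat_lit 5) (nat_lit 151434) (nat_lit 16) (node (nat_lit 4) (nat_lit 156330) (nat_lit 17) (node
  (nat_lit 6) (nat_lit 159599) (nat_lit 18) nil nil) nil) nil) (node (nat_lit 4) (nat_lit 151434)
  (nat_lit 15) nil nil)) (node (nat_lit 6) (nat_lit 151434) (nat_lit 14) (node (nat_lit 5)
  (nat_lit 151434) (nat_lit 15) (node (nat_lit 4) (nat_lit 151434) (nat_lit 16) nil nil) nil)
  nil)) nil) (node (nat_lit 4) (nat_lit 151434) (nat_lit 12) (node (nat_lit 5) (nat_lit 151434)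
  (nat_lit 13) (node (nat_lit 6) (nat_lit 151434) (nat_lit 14) (node (nat_lit 5) (nat_lit 151434)
  (nat_lit 15) (node (nat_lit 4) (nat_lit 151434) (nat_lit 16) (node (nat_lit 6) (nat_lit 155733)
  (nat_lit 17) (node (nat_lit 4) (nat_lit 158310) (nat_lit 18) (node (nat_lit 5) (nat_lit 158544)
  (nat_lit 19) nil nil) nil) nil) nil) nil) nil) (node (nat_lit 6) (nat_lit 151434) (nat_lit 13)
  (node (nat_lit 4) (nat_lit 151434) (nat_lit 14) nil nil) nil)) (node (nat_lit 12) (nat_lit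
  158029) (nat_lit 12) nil nil))) (node (nat_lit 4) (nat_lit 151434) (nat_lit 11) (node (nat_lit
  6) (nat_lit 151434) (nat_lit 12) (node (nat_lit 5) (nat_lit 151434) (nat_lit 13) (node (nat_lit
  4) (nat_lit 151434) (nat_lit 14) (node (nat_lit 5) (nat_lit 151434) (nat_lit 15) (node (nat_lit
  6) (nat_lit 151434) (nat_lit 16) (node (nat_lit 5) (nat_lit 155695) (nat_lit 17) (node (nat_lit
  4) (nat_lit 155997) (nat_lit 18) (node (nat_lit 6) (nat_lit 157625) (nat_lit 19) (node (nat_lit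
  4) (nat_lit 158664) (nat_lit 20) (node (nat_lit 5) (nat_lit 158583) (nat_lit 21) nil nil) nil)
  nil) nil) nil) nil) (node (nat_lit 6) (nat_lit 151434) (nat_lit 15) nil nil)) (node (nat_lit 6)
  (nat_lit 151434) (nat_lit 14) nil nil)) nil) (node (nat_lit 5) (nat_lit 151434) (nat_lit 12)
  (node (nat_lit 6) (nat_lit 151434) (nat_lit 13) (node (nat_lit 5) (nat_lit 151434) (nat_lit 14)
  (node (nat_lit 4) (nat_lit 151434) (nat_lit 15) (node (nat_lit 6) (nat_lit 151434) (nat_lit 16)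
  (node (nat_lit 4) (nat_lit 155876) (nat_lit 17) (node (nat_lit 5) (nat_lit 158226) (nat_lit 18)
  nil nil) nil) nil) nil) (node (nat_lit 4) (nat_lit 151434) (nat_lit 14) (node (nat_lit 6)
  (nat_lit 151434) (nat_lit 15) nil nil) nil)) (node (nat_lit 4) (nat_lit 151434) (nat_lit 13)
  (node (nat_lit 6) (nat_lit 151434) (nat_lit 14) nil nil) nil)) (node (nat_lit 12) (nat_lit
  158029) (nat_lit 12) nil nil))) (node (nat_lit 12) (nat_lit 160020) (nat_lit 11) nil nil)))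
  (node (nat_lit 4) (nat_lit 151434) (nat_lit 10) (node (nat_lit 6) (nat_lit 151434) (nat_lit 11)
  (node (nat_lit 4) (nat_lit 151434) (nat_lit 12) (node (nat_lit 5) (nat_lit 151434) (nat_lit 13)
  (node (nat_lit 6) (nat_lit 151434) (nat_lit 14) (node (nat_lit 5) (nat_lit 151434) (nat_lit 15)
  (node (nat_lit 4) (nat_lit 151434) (nat_lit 16) (node (nat_lit 6) (nat_lit 154779) (nat_lit 17)
  (node (nat_lit 4) (nat_lit 157912) (nat_lit 18) (node (nat_lit 5) (nat_lit 158465) (nat_lit 19)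
  nil nil) nil) nil) nil) (node (nat_lit 4) (nat_lit 151434) (nat_lit 15) nil nil)) (node (nat_lit
  4) (nat_lit 151434) (nat_lit 14) (node (nat_lit 6) (nat_lit 151434) (nat_lit 15) nil nil) nil))
  nil) (node (nat_lit 5) (nat_lit 151434) (nat_lit 12) (node (nat_lit 4) (nat_lit 151434) (nat_lit
  13) (node (nat_lit 5) (nat_lit 151434) (nat_lit 14) (node (nat_lit 6) (nat_lit 151434) (nat_lit
  15) (node (nat_lit 5) (nat_lit 151434) (nat_lit 16) (node (nat_lit 4) (nat_lit 152629) (nat_lit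
  17) nil nil) nil) nil) (node (nat_lit 6) (nat_lit 151434) (nat_lit 14) nil nil)) (node (nat_lit
  6) (nat_lit 151434) (nat_lit 13) (node (nat_lit 4) (nat_lit 151434) (nat_lit 14) nil nil) nil))
  (node (nat_lit 12) (nat_lit 158029) (nat_lit 12) nil nil))) (node (nat_lit 5) (nat_lit 151434)
  (nat_lit 11) (node (nat_lit 4) (nat_lit 151434) (nat_lit 12) (node (nat_lit 6) (nat_lit 151434)
  (nat_lit 13) (node (nat_lit 5) (nat_lit 151434) (nat_lit 14) (node (nat_lit 6) (nat_lit 151434)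
  (nat_lit 15) nil (node (nat_lit 4) (nat_lit 151434) (nat_lit 15) nil nil)) (node (nat_lit 4)
  (nat_lit 151434) (nat_lit 14) (node (nat_lit 5) (nat_lit 151434) (nat_lit 15) (node (nat_lit 6)
  (nat_lit 151434) (nat_lit 16) (node (nat_lit 5) (nat_lit 156963) (nat_lit 17) nil nil) nil) nil)
  nil)) nil) (node (nat_lit 6) (nat_lit 151434) (nat_lit 12) (node (nat_lit 4) (nat_lit 151434)
  (nat_lit 13) (node (nat_lit 5) (nat_lit 151434) (nat_lit 14) nil nil) (node (nat_lit 5) (nat_lit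
  151434) (nat_lit 13) nil nil)) nil)) (node (nat_lit 12) (nat_lit 159935) (nat_lit 11) (node
  (nat_lit 5) (nat_lit 159935) (nat_lit 12) (node (nat_lit 4) (nat_lit 159935) (nat_lit 13) (node
  (nat_lit 5) (nat_lit 159935) (nat_lit 14) (node (nat_lit 6) (nat_lit 159935) (nat_lit 15) (node
  (nat_lit 5) (nat_lit 159935) (nat_lit 16) (node (nat_lit 4) (nat_lit 159935) (nat_lit 17) (node
  (nat_lit 6) (nat_lit 160831) (nat_lit 18) (node (nat_lit 4) (nat_lit 161530) (nat_lit 19) (node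
  (nat_lit 5) (nat_lit 162076) (nat_lit 20) nil nil) nil) nil) nil) nil) nil) nil) nil) nil)
  nil))) (node (nat_lit 5) (nat_lit 0) (nat_lit 10) (node (nat_lit 4) (nat_lit 151434) (nat_lit
  11) (node (nat_lit 5) (nat_lit 151434) (nat_lit 12) (node (nat_lit 6) (nat_lit 151434) (nat_lit
  13) (node (nat_lit 5) (nat_lit 151434) (nat_lit 14) (node (nat_lit 4) (nat_lit 151434) (nat_lit
  15) (node (nat_lit 6) (nat_lit 151434) (nat_lit 16) (node (nat_lit 4) (nat_lit 155164) (nat_lit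
  17) (node (nat_lit 5) (nat_lit 156774) (nat_lit 18) nil nil) nil) nil) nil) nil) nil) (node
  (nat_lit 6) (nat_lit 151434) (nat_lit 12) (node (nat_lit 4) (nat_lit 151434) (nat_lit 13) (node
  (nat_lit 5) (nat_lit 151434) (nat_lit 14) (node (nat_lit 6) (nat_lit 151434) (nat_lit 15) (node
  (nat_lit 5) (nat_lit 151434) (nat_lit 16) (node (nat_lit 4) (nat_lit 156744) (nat_lit 17) (node
  (nat_lit 6) (nat_lit 159155) (nat_lit 18) nil nil) nil) nil) nil) nil) nil) nil)) (node (nat_lit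
  6) (nat_lit 151434) (nat_lit 11) (node (nat_lit 5) (nat_lit 151434) (nat_lit 12) (node (nat_lit
  4) (nat_lit 151434) (nat_lit 13) nil nil) (node (nat_lit 4) (nat_lit 151434) (nat_lit 12) (node
  (nat_lit 6) (nat_lit 151434) (nat_lit 13) nil nil) nil)) (node (nat_lit 0) (nat_lit 159604)
  (nat_lit 11) nil nil))) (node (nat_lit 0) (nat_lit 158307) (nat_lit 10) (node (nat_lit 5)
  (nat_lit 158307) (nat_lit 11) nil nil) nil)))) (node (nat_lit 6) (nat_lit 0) (nat_lit 9) (node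
  (nat_lit 0) (nat_lit 0) (nat_lit 10) (node (nat_lit 6) (nat_lit 0) (nat_lit 11) (node (nat_lit
  5) (nat_lit 127987) (nat_lit 12) (node (nat_lit 4) (nat_lit 127987) (nat_lit 13) (node (nat_lit
  6) (nat_lit 127987) (nat_lit 14) (node (nat_lit 4) (nat_lit 127987) (nat_lit 15) (node (nat_lit
  5) (nat_lit 127987) (nat_lit 16) (node (nat_lit 6) (nat_lit 127987) (nat_lit 17) (node (nat_lit
  5) (nat_lit 130870) (nat_lit 18) (node (nat_lit 4) (nat_lit 133120) (nat_lit 19) (node (nat_lit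
  6) (nat_lit 134072) (nat_lit 20) nil nil) nil) nil) nil) nil) (node (nat_lit 5) (nat_lit 127987)
  (nat_lit 15) (node (nat_lit 6) (nat_lit 127987) (nat_lit 16) nil nil) nil)) (node (nat_lit 5)
  (nat_lit 127987) (nat_lit 14) (node (nat_lit 6) (nat_lit 127987) (nat_lit 15) (node (nat_lit 5)
  (nat_lit 127987) (nat_lit 16) (node (nat_lit 4) (nat_lit 127987) (nat_lit 17) (node (nat_lit 6)
  (nat_lit 131311) (nat_lit 18) (node (nat_lit 4) (nat_lit 133582) (nat_lit 19) nil nil) nil) nil)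
  (node (nat_lit 4) (nat_lit 127987) (nat_lit 16) nil nil)) nil) nil)) (node (nat_lit 6) (nat_lit
  127987) (nat_lit 13) (node (nat_lit 4) (nat_lit 127987) (nat_lit 14) (node (nat_lit 5) (nat_lit
  127987) (nat_lit 15) nil (node (nat_lit 6) (nat_lit 127987) (nat_lit 15) nil nil)) (node
  (nat_lit 13) (nat_lit 134157) (nat_lit 14) nil nil)) (node (nat_lit 13) (nat_lit 136684)
  (nat_lit 13) nil (node (nat_lit 0) (nat_lit 133133) (nat_lit 13) nil nil)))) (node (nat_lit 4)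
  (nat_lit 127987) (nat_lit 12) (node (nat_lit 5) (nat_lit 127987) (nat_lit 13) (node (nat_lit 6)
  (nat_lit 127987) (nat_lit 14) (node (nat_lit 5) (nat_lit 127987) (nat_lit 15) (node (nat_lit 4)
  (nat_lit 127987) (nat_lit 16) (node (nat_lit 6) (nat_lit 127987) (nat_lit 17) (node (nat_lit 4)
  (nat_lit 130870) (nat_lit 18) (node (nat_lit 5) (nat_lit 133120) (nat_lit 19) (node (nat_lit 6)
  (nat_lit 133760) (nat_lit 20) nil nil) nil) nil) nil) nil) (node (nat_lit 4) (nat_lit 127987)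
  (nat_lit 15) (node (nat_lit 6) (nat_lit 127987) (nat_lit 16) nil nil) nil)) (node (nat_lit 4)
  (nat_lit 127987) (nat_lit 14) (node (nat_lit 6) (nat_lit 127987) (nat_lit 15) (node (nat_lit 5)
  (nat_lit 127987) (nat_lit 16) nil nil) nil) nil)) (node (nat_lit 6) (nat_lit 127987) (nat_lit
  13) (node (nat_lit 5) (nat_lit 127987) (nat_lit 14) (node (nat_lit 4) (nat_lit 127987) (nat_lit
  15) nil (node (nat_lit 6) (nat_lit 127987) (nat_lit 15) nil nil)) (node (nat_lit 13) (nat_lit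
  134157) (nat_lit 14) nil nil)) (node (nat_lit 13) (nat_lit 133133) (nat_lit 13) nil (node
  (nat_lit 0) (nat_lit 133133) (nat_lit 13) nil nil)))) (node (nat_lit 0) (nat_lit 134468)
  (nat_lit 12) nil nil))) (node (nat_lit 5) (nat_lit 127987) (nat_lit 11) (node (nat_lit 6)
  (nat_lit 127987) (nat_lit 12) (node (nat_lit 5) (nat_lit 127987) (nat_lit 13) nil nil) (node
  (nat_lit 13) (nat_lit 135021) (nat_lit 12) (node (nat_lit 6) (nat_lit 135021) (nat_lit 13) nil
  nil) (node (nat_lit 4) (nat_lit 127987) (nat_lit 12) nil nil))) (node (nat_lit 4) (nat_lit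
  127987) (nat_lit 11) (node (nat_lit 6) (nat_lit 127987) (nat_lit 12) nil (node (nat_lit 13)
  (nat_lit 134468) (nat_lit 12) nil nil)) (node (nat_lit 0) (nat_lit 132180) (nat_lit 11) nil
  nil)))) (node (nat_lit 5) (nat_lit 0) (nat_lit 10) (node (nat_lit 0) (nat_lit 132180) (nat_lit
  11) (node (nat_lit 6) (nat_lit 132180) (nat_lit 12) (node (nat_lit 5) (nat_lit 132180) (nat_lit
  13) (node (nat_lit 6) (nat_lit 132180) (nat_lit 14) (node (nat_lit 4) (nat_lit 132180) (nat_lit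
  15) (node (nat_lit 5) (nat_lit 132180) (nat_lit 16) (node (nat_lit 6) (nat_lit 132180) (nat_lit
  17) (node (nat_lit 5) (nat_lit 132180) (nat_lit 18) (node (nat_lit 4) (nat_lit 134430) (nat_lit
  19) (node (nat_lit 6) (nat_lit 136187) (nat_lit 20) (node (nat_lit 4) (nat_lit 137557) (nat_lit
  21) nil nil) nil) nil) nil) (node (nat_lit 4) (nat_lit 132180) (nat_lit 17) (node (nat_lit 6)
  (nat_lit 132180) (nat_lit 18) nil nil) nil)) (node (nat_lit 6) (nat_lit 132180) (nat_lit 16)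
  (node (nat_lit 5) (nat_lit 132180) (nat_lit 17) (node (nat_lit 4) (nat_lit 132180) (nat_lit 18)
  nil nil) nil) nil)) (node (nat_lit 14) (nat_lit 136996) (nat_lit 15) nil nil)) (node (nat_lit 4)
  (nat_lit 132180) (nat_lit 14) (node (nat_lit 5) (nat_lit 132180) (nat_lit 15) (node (nat_lit 6)
  (nat_lit 132180) (nat_lit 16) (node (nat_lit 5) (nat_lit 132180) (nat_lit 17) (node (nat_lit 4)
  (nat_lit 132180) (nat_lit 18) (node (nat_lit 6) (nat_lit 134452) (nat_lit 19) nil nil) nil) nil)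
  nil) (node (nat_lit 6) (nat_lit 132180) (nat_lit 15) (node (nat_lit 4) (nat_lit 132180) (nat_lit
  16) (node (nat_lit 5) (nat_lit 132180) (nat_lit 17) nil nil) (node (nat_lit 5) (nat_lit 132180)
  (nat_lit 16) nil nil)) nil)) nil)) (node (nat_lit 14) (nat_lit 135173) (nat_lit 13) nil nil))
  (node (nat_lit 5) (nat_lit 132180) (nat_lit 12) (node (nat_lit 6) (nat_lit 132180) (nat_lit 13)
  (node (nat_lit 14) (nat_lit 136197) (nat_lit 14) nil nil) nil) (node (nat_lit 4) (nat_lit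
  132180) (nat_lit 12) nil nil))) nil) (node (nat_lit 4) (nat_lit 0) (nat_lit 10) (node (nat_lit
  0) (nat_lit 131380) (nat_lit 11) (node (nat_lit 6) (nat_lit 131380) (nat_lit 12) (node (nat_lit
  4) (nat_lit 131380) (nat_lit 13) (node (nat_lit 5) (nat_lit 131380) (nat_lit 14) (node (nat_lit
  6) (nat_lit 131380) (nat_lit 15) (node (nat_lit 5) (nat_lit 131380) (nat_lit 16) nil nil) (node
  (nat_lit 4) (nat_lit 131380) (nat_lit 15) nil nil)) (node (nat_lit 6) (nat_lit 131380) (nat_lit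
  14) (node (nat_lit 5) (nat_lit 131380) (nat_lit 15) (node (nat_lit 4) (nat_lit 131380) (nat_lit
  16) nil nil) (node (nat_lit 14) (nat_lit 136195) (nat_lit 15) nil nil)) nil)) nil) (node
  (nat_lit 4) (nat_lit 131380) (nat_lit 12) nil nil)) nil) nil))) (node (nat_lit 4) (nat_lit 0)
  (nat_lit 9) (node (nat_lit 0) (nat_lit 159130) (nat_lit 10) (node (nat_lit 4) (nat_lit 0)
  (nat_lit 11) (node (nat_lit 6) (nat_lit 159130) (nat_lit 12) (node (nat_lit 5) (nat_lit 159130)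
  (nat_lit 13) (node (nat_lit 4) (nat_lit 159130) (nat_lit 14) (node (nat_lit 5) (nat_lit 159130)
  (nat_lit 15) nil nil) (node (nat_lit 6) (nat_lit 159130) (nat_lit 14) nil nil)) (node (nat_lit
  4) (nat_lit 159130) (nat_lit 13) (node (nat_lit 5) (nat_lit 159130) (nat_lit 14) (node (nat_lit
  6) (nat_lit 159130) (nat_lit 15) (node (nat_lit 5) (nat_lit 159130) (nat_lit 16) (node (nat_lit
  4) (nat_lit 159130) (nat_lit 17) (node (nat_lit 6) (nat_lit 161739) (nat_lit 18) nil nil) nil)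
  nil) nil) nil) nil)) (node (nat_lit 5) (nat_lit 159130) (nat_lit 12) (node (nat_lit 6) (nat_lit
  159130) (nat_lit 13) (node (nat_lit 4) (nat_lit 159130) (nat_lit 14) nil nil) (node (nat_lit 13)
  (nat_lit 164276) (nat_lit 13) nil nil)) (node (nat_lit 0) (nat_lit 162964) (nat_lit 12) nil
  nil))) (node (nat_lit 5) (nat_lit 159130) (nat_lit 11) (node (nat_lit 13) (nat_lit 165300)
  (nat_lit 12) nil nil) nil)) (node (nat_lit 6) (nat_lit 0) (nat_lit 10) (node (nat_lit 0)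
  (nat_lit 163835) (nat_lit 11) (node (nat_lit 4) (nat_lit 163835) (nat_lit 12) (node (nat_lit 6)
  (nat_lit 163835) (nat_lit 13) nil nil) nil) nil) nil)) nil))) (node (nat_lit 0) (nat_lit 0)
  (nat_lit 8) (node (nat_lit 5) (nat_lit 172669) (nat_lit 9) (node (nat_lit 6) (nat_lit 172669)
  (nat_lit 10) (node (nat_lit 4) (nat_lit 172669) (nat_lit 11) (node (nat_lit 6) (nat_lit 172669)
  (nat_lit 12) (node (nat_lit 5) (nat_lit 172669) (nat_lit 13) (node (nat_lit 4) (nat_lit 172669)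
  (nat_lit 14) (node (nat_lit 5) (nat_lit 172147) (nat_lit 15) (node (nat_lit 6) (nat_lit 174491)
  (nat_lit 16) (node (nat_lit 5) (nat_lit 175722) (nat_lit 17) (node (nat_lit 4) (nat_lit 174916)
  (nat_lit 18) (node (nat_lit 6) (nat_lit 175430) (nat_lit 19) nil nil) nil) nil) nil) nil) (node
  (nat_lit 6) (nat_lit 172669) (nat_lit 14) nil nil)) nil) (node (nat_lit 5) (nat_lit 172669)
  (nat_lit 12) (node (nat_lit 6) (nat_lit 172669) (nat_lit 13) (node (nat_lit 5) (nat_lit 172669)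
  (nat_lit 14) (node (nat_lit 4) (nat_lit 172669) (nat_lit 15) (node (nat_lit 6) (nat_lit 177226)
  (nat_lit 16) (node (nat_lit 4) (nat_lit 180764) (nat_lit 17) nil nil) nil) nil) nil) (node
  (nat_lit 4) (nat_lit 172669) (nat_lit 13) (node (nat_lit 6) (nat_lit 172669) (nat_lit 14) nil
  nil) nil)) nil)) (node (nat_lit 5) (nat_lit 172669) (nat_lit 11) (node (nat_lit 4) (nat_lit
  172669) (nat_lit 12) nil nil) nil)) (node (nat_lit 4) (nat_lit 172669) (nat_lit 10) (node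
  (nat_lit 6) (nat_lit 172669) (nat_lit 11) (node (nat_lit 4) (nat_lit 172669) (nat_lit 12) (node
  (nat_lit 5) (nat_lit 172669) (nat_lit 13) (node (nat_lit 6) (nat_lit 172669) (nat_lit 14) (node
  (nat_lit 5) (nat_lit 172669) (nat_lit 15) (node (nat_lit 4) (nat_lit 178200) (nat_lit 16) (node
  (nat_lit 6) (nat_lit 180296) (nat_lit 17) nil nil) nil) nil) (node (nat_lit 4) (nat_lit 172669)
  (nat_lit 14) nil nil)) nil) (node (nat_lit 5) (nat_lit 172669) (nat_lit 12) (node (nat_lit 6)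
  (nat_lit 172669) (nat_lit 13) (node (nat_lit 4) (nat_lit 172669) (nat_lit 14) nil nil) nil)
  nil)) (node (nat_lit 5) (nat_lit 172669) (nat_lit 11) (node (nat_lit 6) (nat_lit 172669)
  (nat_lit 12) nil nil) nil)) (node (nat_lit 11) (nat_lit 179744) (nat_lit 10) (node (nat_lit 6)
  (nat_lit 179744) (nat_lit 11) (node (nat_lit 4) (nat_lit 179744) (nat_lit 12) (node (nat_lit 5)
  (nat_lit 179744) (nat_lit 13) (node (nat_lit 6) (nat_lit 179744) (nat_lit 14) (node (nat_lit 5)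
  (nat_lit 179744) (nat_lit 15) (node (nat_lit 4) (nat_lit 179744) (nat_lit 16) (node (nat_lit 6)
  (nat_lit 179744) (nat_lit 17) (node (nat_lit 4) (nat_lit 182164) (nat_lit 18) nil nil) nil) nil)
  nil) nil) nil) nil) nil) nil))) (node (nat_lit 6) (nat_lit 173192) (nat_lit 9) (node (nat_lit 5)
  (nat_lit 173192) (nat_lit 10) (node (nat_lit 4) (nat_lit 173192) (nat_lit 11) (node (nat_lit 5)
  (nat_lit 173192) (nat_lit 12) (node (nat_lit 6) (nat_lit 173192) (nat_lit 13) (node (nat_lit 5)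
  (nat_lit 173192) (nat_lit 14) (node (nat_lit 4) (nat_lit 173192) (nat_lit 15) (node (nat_lit 6)
  (nat_lit 176228) (nat_lit 16) (node (nat_lit 4) (nat_lit 178048) (nat_lit 17) nil nil) nil) nil)
  (node (nat_lit 4) (nat_lit 173192) (nat_lit 14) nil nil)) nil) (node (nat_lit 6) (nat_lit
  173192) (nat_lit 12) (node (nat_lit 4) (nat_lit 173192) (nat_lit 13) (node (nat_lit 5) (nat_lit
  173192) (nat_lit 14) (node (nat_lit 6) (nat_lit 173192) (nat_lit 15) (node (nat_lit 5) (nat_lit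
  178993) (nat_lit 16) (node (nat_lit 4) (nat_lit 183520) (nat_lit 17) nil nil) nil) nil) nil)
  nil) nil)) (node (nat_lit 6) (nat_lit 173192) (nat_lit 11) (node (nat_lit 4) (nat_lit 173192)
  (nat_lit 12) (node (nat_lit 5) (nat_lit 173192) (nat_lit 13) (node (nat_lit 6) (nat_lit 173192)
  (nat_lit 14) (node (nat_lit 5) (nat_lit 173192) (nat_lit 15) (node (nat_lit 4) (nat_lit 178210)
  (nat_lit 16) (node (nat_lit 6) (nat_lit 181472) (nat_lit 17) nil nil) nil) nil) nil) nil) nil)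
  nil)) (node (nat_lit 4) (nat_lit 173192) (nat_lit 10) (node (nat_lit 5) (nat_lit 173192)
  (nat_lit 11) (node (nat_lit 6) (nat_lit 173192) (nat_lit 12) (node (nat_lit 5) (nat_lit 173192)
  (nat_lit 13) (node (nat_lit 4) (nat_lit 173192) (nat_lit 14) (node (nat_lit 6) (nat_lit 173192)
  (nat_lit 15) (node (nat_lit 4) (nat_lit 175012) (nat_lit 16) (node (nat_lit 11) (nat_lit 66686)
  (nat_lit 17) nil nil) nil) (node (nat_lit 5) (nat_lit 172715) (nat_lit 15) (node (nat_lit 6)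
  (nat_lit 175060) (nat_lit 16) nil nil) nil)) nil) (node (nat_lit 4) (nat_lit 173192) (nat_lit
  13) nil nil)) (node (nat_lit 4) (nat_lit 173192) (nat_lit 12) (node (nat_lit 6) (nat_lit 173192)
  (nat_lit 13) (node (nat_lit 4) (nat_lit 173192) (nat_lit 14) (node (nat_lit 5) (nat_lit 173192)
  (nat_lit 15) (node (nat_lit 6) (nat_lit 176080) (nat_lit 16) nil nil) nil) (node (nat_lit 5)
  (nat_lit 173192) (nat_lit 14) nil nil)) nil) nil)) (node (nat_lit 6) (nat_lit 173192) (nat_lit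
  11) (node (nat_lit 5) (nat_lit 173192) (nat_lit 12) nil nil) nil)) nil)) (node (nat_lit 4)
  (nat_lit 172736) (nat_lit 9) (node (nat_lit 6) (nat_lit 173192) (nat_lit 10) (node (nat_lit 5)
  (nat_lit 173192) (nat_lit 11) (node (nat_lit 4) (nat_lit 173192) (nat_lit 12) (node (nat_lit 5)
  (nat_lit 173192) (nat_lit 13) (node (nat_lit 6) (nat_lit 173192) (nat_lit 14) (node (nat_lit 5)
  (nat_lit 173192) (nat_lit 15) (node (nat_lit 4) (nat_lit 173790) (nat_lit 16) nil nil) nil) nil)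
  (node (nat_lit 6) (nat_lit 173192) (nat_lit 13) nil nil)) (node (nat_lit 6) (nat_lit 173192)
  (nat_lit 12) (node (nat_lit 4) (nat_lit 173192) (nat_lit 13) (node (nat_lit 5) (nat_lit 173192)
  (nat_lit 14) (node (nat_lit 6) (nat_lit 173192) (nat_lit 15) (node (nat_lit 5) (nat_lit 176866)
  (nat_lit 16) nil nil) nil) nil) nil) nil)) (node (nat_lit 4) (nat_lit 173192) (nat_lit 11) (node
  (nat_lit 5) (nat_lit 173192) (nat_lit 12) (node (nat_lit 6) (nat_lit 173192) (nat_lit 13) (node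
  (nat_lit 5) (nat_lit 173192) (nat_lit 14) (node (nat_lit 4) (nat_lit 173192) (nat_lit 15) (node
  (nat_lit 6) (nat_lit 175760) (nat_lit 16) nil nil) nil) nil) nil) nil) nil)) (node (nat_lit 5)
  (nat_lit 173192) (nat_lit 10) (node (nat_lit 6) (nat_lit 173192) (nat_lit 11) (node (nat_lit 5)
  (nat_lit 173192) (nat_lit 12) (node (nat_lit 4) (nat_lit 173192) (nat_lit 13) (node (nat_lit 6)
  (nat_lit 173192) (nat_lit 14) (node (nat_lit 4) (nat_lit 173192) (nat_lit 15) (node (nat_lit 5)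
  (nat_lit 178993) (nat_lit 16) nil nil) nil) nil) nil) (node (nat_lit 4) (nat_lit 173192)
  (nat_lit 12) (node (nat_lit 6) (nat_lit 173192) (nat_lit 13) nil nil) nil)) (node (nat_lit 4)
  (nat_lit 173192) (nat_lit 11) (node (nat_lit 6) (nat_lit 173192) (nat_lit 12) (node (nat_lit 5)
  (nat_lit 173192) (nat_lit 13) (node (nat_lit 4) (nat_lit 173192) (nat_lit 14) (node (nat_lit 5)
  (nat_lit 172853) (nat_lit 15) (node (nat_lit 6) (nat_lit 175197) (nat_lit 16) (node (nat_lit 5)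
  (nat_lit 176428) (nat_lit 17) (node (nat_lit 4) (nat_lit 175622) (nat_lit 18) (node (nat_lit 6)
  (nat_lit 176136) (nat_lit 19) (node (nat_lit 4) (nat_lit 176539) (nat_lit 20) nil nil) nil) nil)
  nil) nil) nil) nil) nil) nil) nil)) nil)) (node (nat_lit 0) (nat_lit 174413) (nat_lit 9) nil
  nil)))) nil))

noncomputable def t229 : Tr :=
  (node (nat_lit 6) (nat_lit 0) (nat_lit 8) (node (nat_lit 0) (nat_lit 0) (nat_lit 9) (node
  (nat_lit 5) (nat_lit 0) (nat_lit 10) (node (nat_lit 4) (nat_lit 163073) (nat_lit 11) (node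
  (nat_lit 6) (nat_lit 163073) (nat_lit 12) (node (nat_lit 4) (nat_lit 163073) (nat_lit 13) (node
  (nat_lit 5) (nat_lit 163073) (nat_lit 14) (node (nat_lit 6) (nat_lit 163073) (nat_lit 15) (node
  (nat_lit 5) (nat_lit 163073) (nat_lit 16) (node (nat_lit 4) (nat_lit 168729) (nat_lit 17) (node
  (nat_lit 6) (nat_lit 171410) (nat_lit 18) (node (nat_lit 5) (nat_lit 174484) (nat_lit 19) (node
  (nat_lit 6) (nat_lit 176687) (nat_lit 20) nil nil) nil) nil) nil) nil) (node (nat_lit 4)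
  (nat_lit 163073) (nat_lit 15) nil nil)) nil) (node (nat_lit 5) (nat_lit 163073) (nat_lit 13)
  (node (nat_lit 4) (nat_lit 163073) (nat_lit 14) (node (nat_lit 5) (nat_lit 163073) (nat_lit 15)
  (node (nat_lit 6) (nat_lit 163585) (nat_lit 16) (node (nat_lit 5) (nat_lit 166746) (nat_lit 17)
  (node (nat_lit 4) (nat_lit 167048) (nat_lit 18) (node (nat_lit 6) (nat_lit 168675) (nat_lit 19)
  nil nil) nil) nil) nil) nil) (node (nat_lit 6) (nat_lit 163073) (nat_lit 14) nil nil)) nil))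
  (node (nat_lit 5) (nat_lit 163073) (nat_lit 12) (node (nat_lit 6) (nat_lit 163073) (nat_lit 13)
  (node (nat_lit 5) (nat_lit 163073) (nat_lit 14) (node (nat_lit 4) (nat_lit 163073) (nat_lit 15)
  (node (nat_lit 6) (nat_lit 163585) (nat_lit 16) (node (nat_lit 5) (nat_lit 163974) (nat_lit 17)
  nil nil) nil) nil) (node (nat_lit 4) (nat_lit 163073) (nat_lit 14) (node (nat_lit 6) (nat_lit
  163073) (nat_lit 15) nil (node (nat_lit 5) (nat_lit 163073) (nat_lit 15) nil nil)) nil)) nil)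
  nil)) (node (nat_lit 6) (nat_lit 163610) (nat_lit 11) (node (nat_lit 5) (nat_lit 163701)
  (nat_lit 12) (node (nat_lit 4) (nat_lit 163705) (nat_lit 13) (node (nat_lit 6) (nat_lit 163705)
  (nat_lit 14) (node (nat_lit 4) (nat_lit 163705) (nat_lit 15) nil (node (nat_lit 5) (nat_lit
  163705) (nat_lit 15) nil nil)) (node (nat_lit 5) (nat_lit 163705) (nat_lit 14) (node (nat_lit 6)
  (nat_lit 163705) (nat_lit 15) nil nil) nil)) nil) (node (nat_lit 4) (nat_lit 163894) (nat_lit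
  12) (node (nat_lit 5) (nat_lit 164010) (nat_lit 13) (node (nat_lit 6) (nat_lit 164010) (nat_lit
  14) (node (nat_lit 5) (nat_lit 164010) (nat_lit 15) (node (nat_lit 4) (nat_lit 163759) (nat_lit
  16) (node (nat_lit 6) (nat_lit 168132) (nat_lit 17) (node (nat_lit 5) (nat_lit 171558) (nat_lit
  18) nil nil) nil) nil) nil) nil) (node (nat_lit 6) (nat_lit 163894) (nat_lit 13) nil nil)) nil))
  (node (nat_lit 12) (nat_lit 174771) (nat_lit 11) (node (nat_lit 6) (nat_lit 174771) (nat_lit 12)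
  (node (nat_lit 5) (nat_lit 174771) (nat_lit 13) (node (nat_lit 6) (nat_lit 174771) (nat_lit 14)
  (node (nat_lit 4) (nat_lit 174771) (nat_lit 15) (node (nat_lit 5) (nat_lit 174771) (nat_lit 16)
  (node (nat_lit 6) (nat_lit 174771) (nat_lit 17) (node (nat_lit 5) (nat_lit 174918) (nat_lit 18)
  (node (nat_lit 4) (nat_lit 177515) (nat_lit 19) nil nil) nil) nil) nil) nil) (node (nat_lit 4)
  (nat_lit 174771) (nat_lit 14) (node (nat_lit 5) (nat_lit 174771) (nat_lit 15) (node (nat_lit 6)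
  (nat_lit 174771) (nat_lit 16) (node (nat_lit 5) (nat_lit 174771) (nat_lit 17) (node (nat_lit 4)
  (nat_lit 175083) (nat_lit 18) (node (nat_lit 6) (nat_lit 177008) (nat_lit 19) nil nil) nil) nil)
  nil) nil) nil)) nil) nil) (node (nat_lit 0) (nat_lit 167841) (nat_lit 11) nil nil)))) (node
  (nat_lit 4) (nat_lit 0) (nat_lit 10) (node (nat_lit 6) (nat_lit 163146) (nat_lit 11) (node
  (nat_lit 4) (nat_lit 163146) (nat_lit 12) (node (nat_lit 5) (nat_lit 163146) (nat_lit 13) (node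
  (nat_lit 6) (nat_lit 163146) (nat_lit 14) (node (nat_lit 5) (nat_lit 163146) (nat_lit 15) (node
  (nat_lit 4) (nat_lit 163658) (nat_lit 16) (node (nat_lit 6) (nat_lit 167002) (nat_lit 17) (node
  (nat_lit 5) (nat_lit 170454) (nat_lit 18) (node (nat_lit 6) (nat_lit 173221) (nat_lit 19) nil
  nil) nil) nil) nil) (node (nat_lit 4) (nat_lit 163146) (nat_lit 15) nil nil)) (node (nat_lit 4)
  (nat_lit 163146) (nat_lit 14) (node (nat_lit 6) (nat_lit 163146) (nat_lit 15) nil nil) nil))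
  nil) (node (nat_lit 5) (nat_lit 163146) (nat_lit 12) (node (nat_lit 4) (nat_lit 163146) (nat_lit
  13) nil (node (nat_lit 6) (nat_lit 163146) (nat_lit 13) nil nil)) (node (nat_lit 12) (nat_lit
  169740) (nat_lit 12) nil nil))) (node (nat_lit 5) (nat_lit 163146) (nat_lit 11) (node (nat_lit
  4) (nat_lit 163146) (nat_lit 12) (node (nat_lit 6) (nat_lit 163146) (nat_lit 13) (node (nat_lit
  5) (nat_lit 163146) (nat_lit 14) (node (nat_lit 6) (nat_lit 163146) (nat_lit 15) nil (node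
  (nat_lit 4) (nat_lit 163146) (nat_lit 15) nil nil)) (node (nat_lit 4) (nat_lit 163146) (nat_lit
  14) nil nil)) nil) (node (nat_lit 6) (nat_lit 163146) (nat_lit 12) (node (nat_lit 4) (nat_lit
  163146) (nat_lit 13) (node (nat_lit 5) (nat_lit 163146) (nat_lit 14) nil nil) (node (nat_lit 5)
  (nat_lit 163146) (nat_lit 13) (node (nat_lit 4) (nat_lit 163146) (nat_lit 14) nil nil) nil))
  nil)) (node (nat_lit 12) (nat_lit 173018) (nat_lit 11) (node (nat_lit 6) (nat_lit 173018)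
  (nat_lit 12) nil nil) (node (nat_lit 0) (nat_lit 168060) (nat_lit 11) nil nil)))) (node (nat_lit
  6) (nat_lit 0) (nat_lit 10) (node (nat_lit 5) (nat_lit 163673) (nat_lit 11) (node (nat_lit 4)
  (nat_lit 163673) (nat_lit 12) (node (nat_lit 5) (nat_lit 163673) (nat_lit 13) (node (nat_lit 6)
  (nat_lit 163673) (nat_lit 14) (node (nat_lit 5) (nat_lit 163673) (nat_lit 15) (node (nat_lit 4)
  (nat_lit 163951) (nat_lit 16) (node (nat_lit 6) (nat_lit 167345) (nat_lit 17) (node (nat_lit 5)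
  (nat_lit 167648) (nat_lit 18) (node (nat_lit 6) (nat_lit 169276) (nat_lit 19) nil nil) nil) nil)
  nil) nil) nil) (node (nat_lit 6) (nat_lit 163673) (nat_lit 13) nil nil)) (node (nat_lit 6)
  (nat_lit 163673) (nat_lit 12) (node (nat_lit 4) (nat_lit 163673) (nat_lit 13) (node (nat_lit 5)
  (nat_lit 163673) (nat_lit 14) (node (nat_lit 6) (nat_lit 163673) (nat_lit 15) (node (nat_lit 5)
  (nat_lit 163914) (nat_lit 16) (node (nat_lit 4) (nat_lit 168166) (nat_lit 17) (node (nat_lit 6)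
  (nat_lit 171574) (nat_lit 18) nil nil) nil) nil) nil) nil) nil) nil)) (node (nat_lit 4) (nat_lit
  163849) (nat_lit 11) (node (nat_lit 5) (nat_lit 163965) (nat_lit 12) (node (nat_lit 6) (nat_lit
  163965) (nat_lit 13) (node (nat_lit 5) (nat_lit 163965) (nat_lit 14) (node (nat_lit 4) (nat_lit
  163965) (nat_lit 15) (node (nat_lit 6) (nat_lit 163965) (nat_lit 16) (node (nat_lit 5) (nat_lit
  168406) (nat_lit 17) (node (nat_lit 6) (nat_lit 171872) (nat_lit 18) nil nil) nil) nil) nil)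
  nil) (node (nat_lit 4) (nat_lit 163965) (nat_lit 13) nil nil)) (node (nat_lit 6) (nat_lit
  163849) (nat_lit 12) (node (nat_lit 5) (nat_lit 163849) (nat_lit 13) (node (nat_lit 6) (nat_lit
  163849) (nat_lit 14) nil nil) nil) nil)) (node (nat_lit 0) (nat_lit 168201) (nat_lit 11) nil
  nil))) (node (nat_lit 0) (nat_lit 170975) (nat_lit 10) (node (nat_lit 6) (nat_lit 170975)
  (nat_lit 11) nil nil) nil)))) (node (nat_lit 4) (nat_lit 0) (nat_lit 9) (node (nat_lit 0)
  (nat_lit 0) (nat_lit 10) (node (nat_lit 4) (nat_lit 0) (nat_lit 11) (node (nat_lit 6) (nat_lit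
  172849) (nat_lit 12) (node (nat_lit 5) (nat_lit 172849) (nat_lit 13) (node (nat_lit 4) (nat_lit
  172849) (nat_lit 14) (node (nat_lit 5) (nat_lit 172849) (nat_lit 15) (node (nat_lit 6) (nat_lit
  172849) (nat_lit 16) nil nil) (node (nat_lit 6) (nat_lit 172849) (nat_lit 15) nil nil)) (node
  (nat_lit 6) (nat_lit 172849) (nat_lit 14) (node (nat_lit 4) (nat_lit 172849) (nat_lit 15) nil
  nil) nil)) (node (nat_lit 4) (nat_lit 172849) (nat_lit 13) (node (nat_lit 5) (nat_lit 172849)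
  (nat_lit 14) nil nil) (node (nat_lit 13) (nat_lit 177995) (nat_lit 13) nil nil))) (node (nat_lit
  5) (nat_lit 172849) (nat_lit 12) (node (nat_lit 6) (nat_lit 172849) (nat_lit 13) (node (nat_lit
  4) (nat_lit 172849) (nat_lit 14) (node (nat_lit 6) (nat_lit 172849) (nat_lit 15) (node (nat_lit
  5) (nat_lit 172849) (nat_lit 16) nil nil) (node (nat_lit 5) (nat_lit 172849) (nat_lit 15) nil
  nil)) (node (nat_lit 5) (nat_lit 172849) (nat_lit 14) (node (nat_lit 4) (nat_lit 172849)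
  (nat_lit 15) nil nil) nil)) (node (nat_lit 4) (nat_lit 172849) (nat_lit 13) (node (nat_lit 6)
  (nat_lit 172849) (nat_lit 14) (node (nat_lit 5) (nat_lit 172849) (nat_lit 15) nil nil) nil)
  nil)) (node (nat_lit 0) (nat_lit 176683) (nat_lit 12) nil nil))) (node (nat_lit 6) (nat_lit
  172849) (nat_lit 11) (node (nat_lit 4) (nat_lit 172849) (nat_lit 12) nil (node (nat_lit 13)
  (nat_lit 176683) (nat_lit 12) nil nil)) (node (nat_lit 5) (nat_lit 172849) (nat_lit 11) nil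
  (node (nat_lit 0) (nat_lit 177072) (nat_lit 11) nil nil)))) (node (nat_lit 6) (nat_lit 0)
  (nat_lit 10) (node (nat_lit 0) (nat_lit 175897) (nat_lit 11) (node (nat_lit 4) (nat_lit 175897)
  (nat_lit 12) (node (nat_lit 6) (nat_lit 175897) (nat_lit 13) (node (nat_lit 4) (nat_lit 175897)
  (nat_lit 14) (node (nat_lit 5) (nat_lit 175897) (nat_lit 15) (node (nat_lit 6) (nat_lit 175897)
  (nat_lit 16) (node (nat_lit 5) (nat_lit 175897) (nat_lit 17) (node (nat_lit 4) (nat_lit 175897)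
  (nat_lit 18) (node (nat_lit 6) (nat_lit 177931) (nat_lit 19) (node (nat_lit 5) (nat_lit 180035)
  (nat_lit 20) nil nil) nil) nil) nil) nil) nil) (node (nat_lit 5) (nat_lit 175897) (nat_lit 14)
  (node (nat_lit 4) (nat_lit 175897) (nat_lit 15) (node (nat_lit 5) (nat_lit 175897) (nat_lit 16)
  (node (nat_lit 6) (nat_lit 175897) (nat_lit 17) (node (nat_lit 5) (nat_lit 176209) (nat_lit 18)
  (node (nat_lit 4) (nat_lit 176445) (nat_lit 19) (node (nat_lit 6) (nat_lit 177500) (nat_lit 20)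
  (node (nat_lit 5) (nat_lit 177643) (nat_lit 21) nil nil) nil) nil) nil) nil) nil) nil) nil))
  nil) (node (nat_lit 6) (nat_lit 175897) (nat_lit 12) nil nil)) nil) (node (nat_lit 5) (nat_lit
  0) (nat_lit 10) (node (nat_lit 0) (nat_lit 178884) (nat_lit 11) (node (nat_lit 4) (nat_lit
  178884) (nat_lit 12) (node (nat_lit 5) (nat_lit 178884) (nat_lit 13) (node (nat_lit 6) (nat_lit
  178884) (nat_lit 14) (node (nat_lit 5) (nat_lit 178884) (nat_lit 15) (node (nat_lit 4) (nat_lit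
  178884) (nat_lit 16) nil nil) (node (nat_lit 4) (nat_lit 178884) (nat_lit 15) nil nil)) (node
  (nat_lit 4) (nat_lit 178884) (nat_lit 14) (node (nat_lit 6) (nat_lit 178884) (nat_lit 15) nil
  nil) nil)) nil) nil) nil) nil))) nil)) (node (nat_lit 0) (nat_lit 0) (nat_lit 8) (node (nat_lit
  6) (nat_lit 161225) (nat_lit 9) (node (nat_lit 4) (nat_lit 162336) (nat_lit 10) (node (nat_lit
  5) (nat_lit 162336) (nat_lit 11) (node (nat_lit 6) (nat_lit 162336) (nat_lit 12) (node (nat_lit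
  5) (nat_lit 162336) (nat_lit 13) (node (nat_lit 4) (nat_lit 162336) (nat_lit 14) (node (nat_lit
  6) (nat_lit 162336) (nat_lit 15) (node (nat_lit 5) (nat_lit 166310) (nat_lit 16) (node (nat_lit
  11) (nat_lit 66888) (nat_lit 17) nil nil) nil) (node (nat_lit 5) (nat_lit 161814) (nat_lit 15)
  (node (nat_lit 6) (nat_lit 164159) (nat_lit 16) nil nil) nil)) nil) nil) (node (nat_lit 4)
  (nat_lit 162336) (nat_lit 12) (node (nat_lit 6) (nat_lit 162336) (nat_lit 13) (node (nat_lit 5)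
  (nat_lit 162336) (nat_lit 14) nil (node (nat_lit 4) (nat_lit 162336) (nat_lit 14) nil nil)) nil)
  nil)) (node (nat_lit 6) (nat_lit 162758) (nat_lit 11) (node (nat_lit 5) (nat_lit 162758)
  (nat_lit 12) (node (nat_lit 6) (nat_lit 162758) (nat_lit 13) (node (nat_lit 4) (nat_lit 162758)
  (nat_lit 14) (node (nat_lit 5) (nat_lit 163066) (nat_lit 15) (node (nat_lit 6) (nat_lit 164358)
  (nat_lit 16) (node (nat_lit 5) (nat_lit 165102) (nat_lit 17) (node (nat_lit 4) (nat_lit 166185)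
  (nat_lit 18) (node (nat_lit 6) (nat_lit 167436) (nat_lit 19) (node (nat_lit 5) (nat_lit 168940)
  (nat_lit 20) nil nil) nil) nil) nil) nil) nil) nil) nil) nil) nil)) (node (nat_lit 5) (nat_lit
  162320) (nat_lit 10) (node (nat_lit 4) (nat_lit 162105) (nat_lit 11) (node (nat_lit 5) (nat_lit
  162658) (nat_lit 12) (node (nat_lit 6) (nat_lit 163353) (nat_lit 13) (node (nat_lit 5) (nat_lit
  163353) (nat_lit 14) (node (nat_lit 4) (nat_lit 163560) (nat_lit 15) (node (nat_lit 6) (nat_lit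
  166343) (nat_lit 16) (node (nat_lit 5) (nat_lit 165774) (nat_lit 17) nil nil) nil) nil) (node
  (nat_lit 4) (nat_lit 163353) (nat_lit 14) (node (nat_lit 6) (nat_lit 163353) (nat_lit 15) nil
  (node (nat_lit 5) (nat_lit 163353) (nat_lit 15) nil nil)) nil)) nil) (node (nat_lit 6) (nat_lit
  162105) (nat_lit 12) (node (nat_lit 4) (nat_lit 162105) (nat_lit 13) (node (nat_lit 5) (nat_lit
  162105) (nat_lit 14) (node (nat_lit 6) (nat_lit 162105) (nat_lit 15) (node (nat_lit 5) (nat_lit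
  167905) (nat_lit 16) (node (nat_lit 4) (nat_lit 172433) (nat_lit 17) nil nil) nil) nil) nil)
  (node (nat_lit 5) (nat_lit 162105) (nat_lit 13) nil nil)) nil)) (node (nat_lit 6) (nat_lit
  163393) (nat_lit 11) (node (nat_lit 4) (nat_lit 163912) (nat_lit 12) (node (nat_lit 5) (nat_lit
  163912) (nat_lit 13) (node (nat_lit 6) (nat_lit 163912) (nat_lit 14) (node (nat_lit 5) (nat_lit
  164219) (nat_lit 15) (node (nat_lit 4) (nat_lit 167942) (nat_lit 16) (node (nat_lit 6) (nat_lit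
  170974) (nat_lit 17) nil nil) nil) nil) nil) nil) nil) nil)) (node (nat_lit 11) (nat_lit 177486)
  (nat_lit 10) nil nil))) (node (nat_lit 5) (nat_lit 160673) (nat_lit 9) (node (nat_lit 6)
  (nat_lit 162518) (nat_lit 10) (node (nat_lit 4) (nat_lit 164117) (nat_lit 11) (node (nat_lit 6)
  (nat_lit 164117) (nat_lit 12) (node (nat_lit 5) (nat_lit 164117) (nat_lit 13) (node (nat_lit 4)
  (nat_lit 164117) (nat_lit 14) (node (nat_lit 5) (nat_lit 164033) (nat_lit 15) (node (nat_lit 6)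
  (nat_lit 166378) (nat_lit 16) (node (nat_lit 5) (nat_lit 167609) (nat_lit 17) (node (nat_lit 4)
  (nat_lit 166803) (nat_lit 18) (node (nat_lit 6) (nat_lit 167316) (nat_lit 19) nil nil) nil) nil)
  nil) nil) nil) nil) (node (nat_lit 5) (nat_lit 164415) (nat_lit 12) (node (nat_lit 6) (nat_lit
  164415) (nat_lit 13) (node (nat_lit 5) (nat_lit 164415) (nat_lit 14) (node (nat_lit 4) (nat_lit
  164088) (nat_lit 15) (node (nat_lit 6) (nat_lit 168003) (nat_lit 16) nil nil) nil) nil) (node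
  (nat_lit 4) (nat_lit 164415) (nat_lit 13) (node (nat_lit 6) (nat_lit 164415) (nat_lit 14) nil
  nil) nil)) nil)) (node (nat_lit 5) (nat_lit 162908) (nat_lit 11) (node (nat_lit 4) (nat_lit
  162908) (nat_lit 12) nil nil) nil)) (node (nat_lit 4) (nat_lit 162712) (nat_lit 10) (node
  (nat_lit 6) (nat_lit 164192) (nat_lit 11) (node (nat_lit 4) (nat_lit 164378) (nat_lit 12) (node
  (nat_lit 5) (nat_lit 164424) (nat_lit 13) (node (nat_lit 6) (nat_lit 164424) (nat_lit 14) (node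
  (nat_lit 5) (nat_lit 164424) (nat_lit 15) (node (nat_lit 4) (nat_lit 169954) (nat_lit 16) (node
  (nat_lit 6) (nat_lit 172050) (nat_lit 17) (node (nat_lit 5) (nat_lit 175242) (nat_lit 18) nil
  nil) nil) nil) (node (nat_lit 4) (nat_lit 164424) (nat_lit 15) nil nil)) (node (nat_lit 4)
  (nat_lit 164424) (nat_lit 14) nil nil)) nil) (node (nat_lit 5) (nat_lit 164537) (nat_lit 12)
  (node (nat_lit 6) (nat_lit 164961) (nat_lit 13) (node (nat_lit 4) (nat_lit 164961) (nat_lit 14)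
  (node (nat_lit 5) (nat_lit 165268) (nat_lit 15) (node (nat_lit 6) (nat_lit 166560) (nat_lit 16)
  (node (nat_lit 5) (nat_lit 167305) (nat_lit 17) nil nil) nil) nil) nil) nil) nil)) (node
  (nat_lit 5) (nat_lit 163602) (nat_lit 11) (node (nat_lit 6) (nat_lit 163602) (nat_lit 12) nil
  nil) nil)) nil)) (node (nat_lit 4) (nat_lit 161073) (nat_lit 9) (node (nat_lit 6) (nat_lit
  162358) (nat_lit 10) (node (nat_lit 5) (nat_lit 162247) (nat_lit 11) (node (nat_lit 4) (nat_lit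
  162431) (nat_lit 12) (node (nat_lit 6) (nat_lit 162431) (nat_lit 13) (node (nat_lit 4) (nat_lit
  162431) (nat_lit 14) (node (nat_lit 5) (nat_lit 162431) (nat_lit 15) (node (nat_lit 6) (nat_lit
  165308) (nat_lit 16) (node (nat_lit 5) (nat_lit 168720) (nat_lit 17) nil nil) nil) nil) nil)
  (node (nat_lit 5) (nat_lit 162431) (nat_lit 13) (node (nat_lit 6) (nat_lit 162431) (nat_lit 14)
  nil nil) nil)) (node (nat_lit 6) (nat_lit 162247) (nat_lit 12) (node (nat_lit 4) (nat_lit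
  162247) (nat_lit 13) (node (nat_lit 5) (nat_lit 162247) (nat_lit 14) (node (nat_lit 6) (nat_lit
  162554) (nat_lit 15) (node (nat_lit 5) (nat_lit 164939) (nat_lit 16) (node (nat_lit 4) (nat_lit
  167292) (nat_lit 17) nil nil) nil) nil) nil) nil) nil)) (node (nat_lit 4) (nat_lit 162965)
  (nat_lit 11) (node (nat_lit 5) (nat_lit 162965) (nat_lit 12) (node (nat_lit 6) (nat_lit 162965)
  (nat_lit 13) (node (nat_lit 5) (nat_lit 162965) (nat_lit 14) (node (nat_lit 4) (nat_lit 162965)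
  (nat_lit 15) (node (nat_lit 6) (nat_lit 165533) (nat_lit 16) (node (nat_lit 5) (nat_lit 168999)
  (nat_lit 17) nil nil) nil) nil) nil) nil) nil) nil)) (node (nat_lit 5) (nat_lit 161834) (nat_lit
  10) (node (nat_lit 6) (nat_lit 161834) (nat_lit 11) (node (nat_lit 5) (nat_lit 161834) (nat_lit
  12) (node (nat_lit 4) (nat_lit 161834) (nat_lit 13) (node (nat_lit 6) (nat_lit 161834) (nat_lit
  14) nil (node (nat_lit 5) (nat_lit 161834) (nat_lit 14) nil nil)) nil) (node (nat_lit 4)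
  (nat_lit 161834) (nat_lit 12) (node (nat_lit 6) (nat_lit 161834) (nat_lit 13) nil (node (nat_lit
  5) (nat_lit 161834) (nat_lit 13) nil nil)) nil)) (node (nat_lit 4) (nat_lit 162417) (nat_lit 11)
  (node (nat_lit 6) (nat_lit 162417) (nat_lit 12) nil nil) nil)) (node (nat_lit 11) (nat_lit
  177117) (nat_lit 10) nil nil))) (node (nat_lit 0) (nat_lit 171418) (nat_lit 9) nil nil)))) nil))

noncomputable def t230 : Tr :=
  (node (nat_lit 5) (nat_lit 0) (nat_lit 8) (node (nat_lit 0) (nat_lit 0) (nat_lit 9) (node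
  (nat_lit 7) (nat_lit 0) (nat_lit 10) (node (nat_lit 4) (nat_lit 92630) (nat_lit 11) (node
  (nat_lit 5) (nat_lit 92630) (nat_lit 12) (node (nat_lit 4) (nat_lit 92630) (nat_lit 13) (node
  (nat_lit 7) (nat_lit 92630) (nat_lit 14) (node (nat_lit 5) (nat_lit 92630) (nat_lit 15) (node
  (nat_lit 7) (nat_lit 92630) (nat_lit 16) (node (nat_lit 4) (nat_lit 95903) (nat_lit 17) (node
  (nat_lit 5) (nat_lit 97342) (nat_lit 18) nil nil) nil) nil) nil) nil) (node (nat_lit 7) (nat_lit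
  92630) (nat_lit 13) (node (nat_lit 5) (nat_lit 92630) (nat_lit 14) nil (node (nat_lit 4)
  (nat_lit 92630) (nat_lit 14) (node (nat_lit 7) (nat_lit 92630) (nat_lit 15) nil nil) nil)) nil))
  (node (nat_lit 7) (nat_lit 92630) (nat_lit 12) (node (nat_lit 5) (nat_lit 92630) (nat_lit 13)
  (node (nat_lit 4) (nat_lit 92630) (nat_lit 14) (node (nat_lit 5) (nat_lit 92630) (nat_lit 15)
  (node (nat_lit 7) (nat_lit 92630) (nat_lit 16) nil nil) (node (nat_lit 7) (nat_lit 92630)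
  (nat_lit 15) nil nil)) (node (nat_lit 7) (nat_lit 92630) (nat_lit 14) (node (nat_lit 4) (nat_lit
  92630) (nat_lit 15) nil nil) nil)) nil) (node (nat_lit 12) (nat_lit 96436) (nat_lit 12) nil
  nil))) (node (nat_lit 5) (nat_lit 92630) (nat_lit 11) (node (nat_lit 7) (nat_lit 92630) (nat_lit
  12) (node (nat_lit 4) (nat_lit 92630) (nat_lit 13) (node (nat_lit 5) (nat_lit 92630) (nat_lit
  14) (node (nat_lit 4) (nat_lit 92630) (nat_lit 15) (node (nat_lit 7) (nat_lit 92630) (nat_lit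
  16) (node (nat_lit 5) (nat_lit 95444) (nat_lit 17) (node (nat_lit 7) (nat_lit 98442) (nat_lit
  18) (node (nat_lit 4) (nat_lit 100783) (nat_lit 19) nil nil) nil) nil) nil) (node (nat_lit 7)
  (nat_lit 92630) (nat_lit 15) nil nil)) (node (nat_lit 7) (nat_lit 92630) (nat_lit 14) (node
  (nat_lit 5) (nat_lit 92630) (nat_lit 15) nil nil) nil)) nil) (node (nat_lit 4) (nat_lit 92630)
  (nat_lit 12) (node (nat_lit 5) (nat_lit 92630) (nat_lit 13) nil (node (nat_lit 7) (nat_lit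
  92630) (nat_lit 13) (node (nat_lit 5) (nat_lit 92630) (nat_lit 14) nil nil) nil)) (node (nat_lit
  12) (nat_lit 96436) (nat_lit 12) nil nil))) (node (nat_lit 12) (nat_lit 100524) (nat_lit 11)
  (node (nat_lit 5) (nat_lit 100524) (nat_lit 12) (node (nat_lit 7) (nat_lit 100524) (nat_lit 13)
  (node (nat_lit 4) (nat_lit 100524) (nat_lit 14) (node (nat_lit 5) (nat_lit 100524) (nat_lit 15)
  (node (nat_lit 4) (nat_lit 100524) (nat_lit 16) (node (nat_lit 7) (nat_lit 100524) (nat_lit 17)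
  (node (nat_lit 5) (nat_lit 100524) (nat_lit 18) (node (nat_lit 7) (nat_lit 102864) (nat_lit 19)
  (node (nat_lit 4) (nat_lit 104691) (nat_lit 20) nil nil) nil) nil) nil) nil) nil) nil) nil)
  (node (nat_lit 4) (nat_lit 100524) (nat_lit 12) nil nil)) (node (nat_lit 0) (nat_lit 95466)
  (nat_lit 11) nil nil)))) (node (nat_lit 4) (nat_lit 0) (nat_lit 10) (node (nat_lit 5) (nat_lit
  92630) (nat_lit 11) (node (nat_lit 7) (nat_lit 92630) (nat_lit 12) (node (nat_lit 4) (nat_lit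
  92630) (nat_lit 13) (node (nat_lit 5) (nat_lit 92630) (nat_lit 14) (node (nat_lit 4) (nat_lit
  92630) (nat_lit 15) (node (nat_lit 7) (nat_lit 92630) (nat_lit 16) (node (nat_lit 5) (nat_lit
  96582) (nat_lit 17) (node (nat_lit 7) (nat_lit 99581) (nat_lit 18) (node (nat_lit 4) (nat_lit
  101922) (nat_lit 19) (node (nat_lit 5) (nat_lit 103069) (nat_lit 20) nil nil) nil) nil) nil)
  nil) nil) (node (nat_lit 7) (nat_lit 92630) (nat_lit 14) nil nil)) (node (nat_lit 5) (nat_lit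
  92630) (nat_lit 13) (node (nat_lit 4) (nat_lit 92630) (nat_lit 14) (node (nat_lit 7) (nat_lit
  92630) (nat_lit 15) nil (node (nat_lit 5) (nat_lit 92630) (nat_lit 15) nil nil)) nil) nil))
  (node (nat_lit 4) (nat_lit 92630) (nat_lit 12) (node (nat_lit 7) (nat_lit 92630) (nat_lit 13)
  (node (nat_lit 5) (nat_lit 92630) (nat_lit 14) (node (nat_lit 7) (nat_lit 92630) (nat_lit 15)
  (node (nat_lit 4) (nat_lit 92630) (nat_lit 16) nil nil) (node (nat_lit 4) (nat_lit 92630)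
  (nat_lit 15) nil nil)) (node (nat_lit 4) (nat_lit 92630) (nat_lit 14) (node (nat_lit 5) (nat_lit
  92630) (nat_lit 15) nil nil) nil)) nil) nil)) (node (nat_lit 7) (nat_lit 92630) (nat_lit 11)
  (node (nat_lit 5) (nat_lit 92630) (nat_lit 12) (node (nat_lit 4) (nat_lit 92630) (nat_lit 13)
  (node (nat_lit 7) (nat_lit 92630) (nat_lit 14) (node (nat_lit 4) (nat_lit 92630) (nat_lit 15)
  (node (nat_lit 5) (nat_lit 92630) (nat_lit 16) (node (nat_lit 4) (nat_lit 96817) (nat_lit 17)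
  (node (nat_lit 7) (nat_lit 98514) (nat_lit 18) (node (nat_lit 5) (nat_lit 100366) (nat_lit 19)
  (node (nat_lit 7) (nat_lit 101924) (nat_lit 20) (node (nat_lit 4) (nat_lit 102463) (nat_lit 21)
  nil nil) nil) nil) nil) nil) nil) nil) (node (nat_lit 5) (nat_lit 92630) (nat_lit 14) nil nil))
  (node (nat_lit 7) (nat_lit 92630) (nat_lit 13) (node (nat_lit 4) (nat_lit 92630) (nat_lit 14)
  (node (nat_lit 5) (nat_lit 92630) (nat_lit 15) (node (nat_lit 4) (nat_lit 92630) (nat_lit 16)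
  (node (nat_lit 7) (nat_lit 96473) (nat_lit 17) (node (nat_lit 5) (nat_lit 98668) (nat_lit 18)
  nil nil) nil) nil) nil) nil) nil)) (node (nat_lit 4) (nat_lit 92630) (nat_lit 12) (node (nat_lit
  5) (nat_lit 92630) (nat_lit 13) (node (nat_lit 4) (nat_lit 92630) (nat_lit 14) (node (nat_lit 7)
  (nat_lit 92630) (nat_lit 15) (node (nat_lit 5) (nat_lit 92630) (nat_lit 16) (node (nat_lit 7)
  (nat_lit 96494) (nat_lit 17) (node (nat_lit 4) (nat_lit 98718) (nat_lit 18) (node (nat_lit 5)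
  (nat_lit 100993) (nat_lit 19) nil nil) nil) nil) nil) nil) (node (nat_lit 7) (nat_lit 92630)
  (nat_lit 14) (node (nat_lit 5) (nat_lit 92630) (nat_lit 15) (node (nat_lit 4) (nat_lit 92630)
  (nat_lit 16) nil nil) (node (nat_lit 4) (nat_lit 92630) (nat_lit 15) nil nil)) nil)) nil) (node
  (nat_lit 12) (nat_lit 96436) (nat_lit 12) nil nil))) (node (nat_lit 12) (nat_lit 100955)
  (nat_lit 11) (node (nat_lit 5) (nat_lit 100955) (nat_lit 12) nil nil) (node (nat_lit 0) (nat_lit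
  95466) (nat_lit 11) nil nil)))) (node (nat_lit 5) (nat_lit 0) (nat_lit 10) (node (nat_lit 4)
  (nat_lit 92630) (nat_lit 11) (node (nat_lit 7) (nat_lit 92630) (nat_lit 12) (node (nat_lit 4)
  (nat_lit 92630) (nat_lit 13) (node (nat_lit 5) (nat_lit 92630) (nat_lit 14) (node (nat_lit 4)
  (nat_lit 92630) (nat_lit 15) (node (nat_lit 7) (nat_lit 92630) (nat_lit 16) (node (nat_lit 5)
  (nat_lit 96817) (nat_lit 17) (node (nat_lit 7) (nat_lit 99833) (nat_lit 18) (node (nat_lit 4)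
  (nat_lit 101773) (nat_lit 19) (node (nat_lit 5) (nat_lit 103416) (nat_lit 20) nil nil) nil) nil)
  nil) nil) (node (nat_lit 7) (nat_lit 92630) (nat_lit 15) nil nil)) nil) (node (nat_lit 5)
  (nat_lit 92630) (nat_lit 13) nil nil)) (node (nat_lit 5) (nat_lit 92630) (nat_lit 12) (node
  (nat_lit 7) (nat_lit 92630) (nat_lit 13) (node (nat_lit 4) (nat_lit 92630) (nat_lit 14) (node
  (nat_lit 5) (nat_lit 92630) (nat_lit 15) (node (nat_lit 4) (nat_lit 92630) (nat_lit 16) (node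
  (nat_lit 7) (nat_lit 96582) (nat_lit 17) (node (nat_lit 5) (nat_lit 99581) (nat_lit 18) nil nil)
  nil) nil) nil) (node (nat_lit 5) (nat_lit 92630) (nat_lit 14) nil nil)) nil) nil)) (node
  (nat_lit 7) (nat_lit 92630) (nat_lit 11) (node (nat_lit 4) (nat_lit 92630) (nat_lit 12) (node
  (nat_lit 5) (nat_lit 92630) (nat_lit 13) (node (nat_lit 4) (nat_lit 92630) (nat_lit 14) (node
  (nat_lit 7) (nat_lit 92630) (nat_lit 15) (node (nat_lit 5) (nat_lit 92630) (nat_lit 16) (node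
  (nat_lit 7) (nat_lit 96473) (nat_lit 17) (node (nat_lit 4) (nat_lit 99471) (nat_lit 18) (node
  (nat_lit 5) (nat_lit 100941) (nat_lit 19) nil nil) nil) nil) nil) nil) nil) (node (nat_lit 7)
  (nat_lit 92630) (nat_lit 13) nil nil)) (node (nat_lit 5) (nat_lit 92630) (nat_lit 12) (node
  (nat_lit 4) (nat_lit 92630) (nat_lit 13) (node (nat_lit 7) (nat_lit 92630) (nat_lit 14) nil nil)
  nil) nil)) (node (nat_lit 0) (nat_lit 95466) (nat_lit 11) nil nil))) (node (nat_lit 0) (nat_lit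
  97495) (nat_lit 10) (node (nat_lit 5) (nat_lit 97495) (nat_lit 11) nil (node (nat_lit 12)
  (nat_lit 98738) (nat_lit 11) nil nil)) nil)))) (node (nat_lit 7) (nat_lit 0) (nat_lit 9) (node
  (nat_lit 0) (nat_lit 0) (nat_lit 10) (node (nat_lit 7) (nat_lit 0) (nat_lit 11) (node (nat_lit
  4) (nat_lit 96871) (nat_lit 12) (node (nat_lit 5) (nat_lit 96871) (nat_lit 13) (node (nat_lit 4)
  (nat_lit 96871) (nat_lit 14) (node (nat_lit 7) (nat_lit 96871) (nat_lit 15) (node (nat_lit 5)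
  (nat_lit 96871) (nat_lit 16) (node (nat_lit 7) (nat_lit 96871) (nat_lit 17) (node (nat_lit 4)
  (nat_lit 99425) (nat_lit 18) (node (nat_lit 5) (nat_lit 100548) (nat_lit 19) (node (nat_lit 7)
  (nat_lit 102104) (nat_lit 20) nil nil) nil) nil) nil) nil) nil) (node (nat_lit 7) (nat_lit
  96871) (nat_lit 14) (node (nat_lit 5) (nat_lit 96871) (nat_lit 15) (node (nat_lit 4) (nat_lit
  96871) (nat_lit 16) nil nil) (node (nat_lit 4) (nat_lit 96871) (nat_lit 15) (node (nat_lit 7)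
  (nat_lit 96871) (nat_lit 16) nil nil) nil)) nil)) (node (nat_lit 7) (nat_lit 96871) (nat_lit 13)
  (node (nat_lit 5) (nat_lit 96871) (nat_lit 14) (node (nat_lit 4) (nat_lit 96871) (nat_lit 15)
  nil (node (nat_lit 7) (nat_lit 96871) (nat_lit 15) nil nil)) nil) (node (nat_lit 13) (nat_lit
  99841) (nat_lit 13) nil (node (nat_lit 0) (nat_lit 99841) (nat_lit 13) nil nil)))) (node
  (nat_lit 5) (nat_lit 96871) (nat_lit 12) (node (nat_lit 4) (nat_lit 96871) (nat_lit 13) (node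
  (nat_lit 7) (nat_lit 96871) (nat_lit 14) (node (nat_lit 4) (nat_lit 96871) (nat_lit 15) (node
  (nat_lit 5) (nat_lit 96871) (nat_lit 16) nil nil) (node (nat_lit 5) (nat_lit 96871) (nat_lit 15)
  (node (nat_lit 7) (nat_lit 96871) (nat_lit 16) nil nil) nil)) (node (nat_lit 5) (nat_lit 96871)
  (nat_lit 14) (node (nat_lit 7) (nat_lit 96871) (nat_lit 15) (node (nat_lit 4) (nat_lit 96871)
  (nat_lit 16) nil nil) nil) nil)) (node (nat_lit 7) (nat_lit 96871) (nat_lit 13) (node (nat_lit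
  4) (nat_lit 96871) (nat_lit 14) nil (node (nat_lit 13) (nat_lit 100432) (nat_lit 14) nil nil))
  (node (nat_lit 13) (nat_lit 102975) (nat_lit 13) nil nil))) (node (nat_lit 0) (nat_lit 102240)
  (nat_lit 12) nil nil))) (node (nat_lit 5) (nat_lit 96871) (nat_lit 11) (node (nat_lit 7)
  (nat_lit 96871) (nat_lit 12) (node (nat_lit 5) (nat_lit 96871) (nat_lit 13) nil nil) (node
  (nat_lit 13) (nat_lit 103513) (nat_lit 12) (node (nat_lit 7) (nat_lit 103513) (nat_lit 13) nil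
  nil) nil)) (node (nat_lit 4) (nat_lit 96871) (nat_lit 11) (node (nat_lit 7) (nat_lit 96871)
  (nat_lit 12) nil (node (nat_lit 13) (nat_lit 102240) (nat_lit 12) nil nil)) (node (nat_lit 0)
  (nat_lit 100897) (nat_lit 11) (node (nat_lit 7) (nat_lit 100897) (nat_lit 12) nil nil) nil))))
  (node (nat_lit 5) (nat_lit 0) (nat_lit 10) (node (nat_lit 0) (nat_lit 100955) (nat_lit 11) (node
  (nat_lit 7) (nat_lit 100955) (nat_lit 12) (node (nat_lit 5) (nat_lit 100955) (nat_lit 13) (node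
  (nat_lit 4) (nat_lit 100955) (nat_lit 14) (node (nat_lit 7) (nat_lit 100955) (nat_lit 15) (node
  (nat_lit 4) (nat_lit 100955) (nat_lit 16) (node (nat_lit 5) (nat_lit 100955) (nat_lit 17) (node
  (nat_lit 4) (nat_lit 100955) (nat_lit 18) (node (nat_lit 7) (nat_lit 102279) (nat_lit 19) (node
  (nat_lit 5) (nat_lit 103845) (nat_lit 20) nil nil) nil) nil) nil) (node (nat_lit 5) (nat_lit
  100955) (nat_lit 16) nil nil)) (node (nat_lit 5) (nat_lit 100955) (nat_lit 15) (node (nat_lit 7)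
  (nat_lit 100955) (nat_lit 16) nil nil) nil)) (node (nat_lit 7) (nat_lit 100955) (nat_lit 14)
  (node (nat_lit 4) (nat_lit 100955) (nat_lit 15) (node (nat_lit 5) (nat_lit 100955) (nat_lit 16)
  (node (nat_lit 4) (nat_lit 100955) (nat_lit 17) (node (nat_lit 7) (nat_lit 100955) (nat_lit 18)
  nil nil) (node (nat_lit 7) (nat_lit 100955) (nat_lit 17) nil nil)) (node (nat_lit 7) (nat_lit
  100955) (nat_lit 16) (node (nat_lit 5) (nat_lit 100955) (nat_lit 17) nil nil) nil)) (node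
  (nat_lit 14) (nat_lit 103735) (nat_lit 15) nil nil)) nil)) nil) (node (nat_lit 5) (nat_lit
  100955) (nat_lit 12) (node (nat_lit 7) (nat_lit 100955) (nat_lit 13) (node (nat_lit 14) (nat_lit
  105720) (nat_lit 14) nil nil) nil) nil)) nil) nil)) (node (nat_lit 4) (nat_lit 0) (nat_lit 9)
  (node (nat_lit 0) (nat_lit 0) (nat_lit 10) (node (nat_lit 4) (nat_lit 0) (nat_lit 11) (node
  (nat_lit 7) (nat_lit 97495) (nat_lit 12) (node (nat_lit 5) (nat_lit 97495) (nat_lit 13) (node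
  (nat_lit 7) (nat_lit 97495) (nat_lit 14) (node (nat_lit 4) (nat_lit 97495) (nat_lit 15) (node
  (nat_lit 5) (nat_lit 97495) (nat_lit 16) (node (nat_lit 4) (nat_lit 97495) (nat_lit 17) (node
  (nat_lit 7) (nat_lit 100494) (nat_lit 18) (node (nat_lit 5) (nat_lit 102208) (nat_lit 19) nil
  nil) nil) nil) nil) nil) (node (nat_lit 4) (nat_lit 97495) (nat_lit 14) (node (nat_lit 5)
  (nat_lit 97495) (nat_lit 15) (node (nat_lit 7) (nat_lit 97495) (nat_lit 16) nil nil) (node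
  (nat_lit 7) (nat_lit 97495) (nat_lit 15) nil nil)) nil)) (node (nat_lit 4) (nat_lit 97495)
  (nat_lit 13) (node (nat_lit 5) (nat_lit 97495) (nat_lit 14) (node (nat_lit 4) (nat_lit 97495)
  (nat_lit 15) (node (nat_lit 7) (nat_lit 97495) (nat_lit 16) (node (nat_lit 5) (nat_lit 97495)
  (nat_lit 17) (node (nat_lit 7) (nat_lit 100511) (nat_lit 18) (node (nat_lit 4) (nat_lit 102245)
  (nat_lit 19) (node (nat_lit 5) (nat_lit 104022) (nat_lit 20) nil nil) nil) nil) nil) nil) (node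
  (nat_lit 7) (nat_lit 97495) (nat_lit 15) nil nil)) nil) nil)) (node (nat_lit 5) (nat_lit 97495)
  (nat_lit 12) (node (nat_lit 7) (nat_lit 97495) (nat_lit 13) (node (nat_lit 4) (nat_lit 97495)
  (nat_lit 14) (node (nat_lit 5) (nat_lit 97495) (nat_lit 15) (node (nat_lit 4) (nat_lit 97495)
  (nat_lit 16) (node (nat_lit 7) (nat_lit 97495) (nat_lit 17) (node (nat_lit 5) (nat_lit 100494)
  (nat_lit 18) nil nil) nil) nil) (node (nat_lit 7) (nat_lit 97495) (nat_lit 15) (node (nat_lit 5)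
  (nat_lit 97495) (nat_lit 16) nil nil) nil)) (node (nat_lit 5) (nat_lit 97495) (nat_lit 14) (node
  (nat_lit 4) (nat_lit 97495) (nat_lit 15) (node (nat_lit 7) (nat_lit 97495) (nat_lit 16) nil nil)
  nil) nil)) (node (nat_lit 4) (nat_lit 97495) (nat_lit 13) (node (nat_lit 7) (nat_lit 97495)
  (nat_lit 14) nil nil) nil)) (node (nat_lit 0) (nat_lit 102044) (nat_lit 12) nil nil))) (node
  (nat_lit 5) (nat_lit 97495) (nat_lit 11) (node (nat_lit 4) (nat_lit 97495) (nat_lit 12) (node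
  (nat_lit 5) (nat_lit 97495) (nat_lit 13) nil nil) (node (nat_lit 13) (nat_lit 99708) (nat_lit
  12) nil (node (nat_lit 7) (nat_lit 97495) (nat_lit 12) nil nil))) (node (nat_lit 7) (nat_lit
  97495) (nat_lit 11) (node (nat_lit 4) (nat_lit 97495) (nat_lit 12) nil (node (nat_lit 13)
  (nat_lit 99708) (nat_lit 12) nil nil)) (node (nat_lit 0) (nat_lit 100955) (nat_lit 11) nil
  nil)))) (node (nat_lit 7) (nat_lit 0) (nat_lit 10) (node (nat_lit 0) (nat_lit 55072) (nat_lit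
  11) (node (nat_lit 4) (nat_lit 55072) (nat_lit 12) (node (nat_lit 7) (nat_lit 55072) (nat_lit
  13) (node (nat_lit 5) (nat_lit 55072) (nat_lit 14) (node (nat_lit 7) (nat_lit 55072) (nat_lit
  15) nil (node (nat_lit 4) (nat_lit 55072) (nat_lit 15) (node (nat_lit 5) (nat_lit 55072)
  (nat_lit 16) nil nil) nil)) (node (nat_lit 4) (nat_lit 55072) (nat_lit 14) (node (nat_lit 5)
  (nat_lit 55072) (nat_lit 15) (node (nat_lit 7) (nat_lit 55072) (nat_lit 16) nil nil) (node
  (nat_lit 14) (nat_lit 57851) (nat_lit 15) nil nil)) nil)) nil) (node (nat_lit 7) (nat_lit 55072)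
  (nat_lit 12) nil nil)) nil) nil)) nil))) (node (nat_lit 0) (nat_lit 0) (nat_lit 8) (node
  (nat_lit 5) (nat_lit 113837) (nat_lit 9) (node (nat_lit 4) (nat_lit 113837) (nat_lit 10) (node
  (nat_lit 7) (nat_lit 113837) (nat_lit 11) (node (nat_lit 4) (nat_lit 113837) (nat_lit 12) (node
  (nat_lit 5) (nat_lit 113837) (nat_lit 13) (node (nat_lit 4) (nat_lit 113837) (nat_lit 14) (node
  (nat_lit 7) (nat_lit 113837) (nat_lit 15) (node (nat_lit 5) (nat_lit 118147) (nat_lit 16) (node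
  (nat_lit 7) (nat_lit 120346) (nat_lit 17) (node (nat_lit 4) (nat_lit 120723) (nat_lit 18) nil
  nil) nil) nil) nil) (node (nat_lit 7) (nat_lit 113837) (nat_lit 14) nil nil)) nil) (node
  (nat_lit 5) (nat_lit 113837) (nat_lit 12) (node (nat_lit 7) (nat_lit 113837) (nat_lit 13) (node
  (nat_lit 4) (nat_lit 113837) (nat_lit 14) nil nil) (node (nat_lit 4) (nat_lit 113837) (nat_lit
  13) nil nil)) nil)) (node (nat_lit 5) (nat_lit 113837) (nat_lit 11) (node (nat_lit 7) (nat_lit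
  113837) (nat_lit 12) (node (nat_lit 4) (nat_lit 113837) (nat_lit 13) (node (nat_lit 5) (nat_lit
  113837) (nat_lit 14) (node (nat_lit 4) (nat_lit 113837) (nat_lit 15) (node (nat_lit 7) (nat_lit
  118613) (nat_lit 16) nil nil) nil) nil) nil) nil) nil)) (node (nat_lit 7) (nat_lit 113837)
  (nat_lit 10) (node (nat_lit 4) (nat_lit 113837) (nat_lit 11) (node (nat_lit 5) (nat_lit 113837)
  (nat_lit 12) (node (nat_lit 4) (nat_lit 113837) (nat_lit 13) (node (nat_lit 7) (nat_lit 113837)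
  (nat_lit 14) (node (nat_lit 5) (nat_lit 113837) (nat_lit 15) (node (nat_lit 7) (nat_lit 118259)
  (nat_lit 16) (node (nat_lit 4) (nat_lit 120838) (nat_lit 17) nil nil) nil) nil) nil) (node
  (nat_lit 7) (nat_lit 113837) (nat_lit 13) nil nil)) (node (nat_lit 7) (nat_lit 113837) (nat_lit
  12) (node (nat_lit 5) (nat_lit 113837) (nat_lit 13) (node (nat_lit 4) (nat_lit 113837) (nat_lit
  14) nil (node (nat_lit 7) (nat_lit 113837) (nat_lit 14) nil nil)) nil) nil)) (node (nat_lit 5)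
  (nat_lit 113837) (nat_lit 11) (node (nat_lit 4) (nat_lit 113837) (nat_lit 12) (node (nat_lit 7)
  (nat_lit 113837) (nat_lit 13) nil nil) nil) nil)) (node (nat_lit 11) (nat_lit 121285) (nat_lit
  10) nil nil))) (node (nat_lit 4) (nat_lit 113837) (nat_lit 9) (node (nat_lit 7) (nat_lit 113837)
  (nat_lit 10) (node (nat_lit 5) (nat_lit 113837) (nat_lit 11) (node (nat_lit 7) (nat_lit 113837)
  (nat_lit 12) (node (nat_lit 4) (nat_lit 113837) (nat_lit 13) (node (nat_lit 5) (nat_lit 113837)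
  (nat_lit 14) (node (nat_lit 4) (nat_lit 113837) (nat_lit 15) (node (nat_lit 7) (nat_lit 118936)
  (nat_lit 16) (node (nat_lit 5) (nat_lit 120641) (nat_lit 17) nil nil) nil) nil) nil) nil) (node
  (nat_lit 4) (nat_lit 113837) (nat_lit 12) (node (nat_lit 5) (nat_lit 113837) (nat_lit 13) (node
  (nat_lit 7) (nat_lit 113837) (nat_lit 14) nil nil) nil) nil)) (node (nat_lit 4) (nat_lit 113837)
  (nat_lit 11) (node (nat_lit 5) (nat_lit 113837) (nat_lit 12) (node (nat_lit 7) (nat_lit 113837)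
  (nat_lit 13) nil (node (nat_lit 4) (nat_lit 113837) (nat_lit 13) (node (nat_lit 7) (nat_lit
  113837) (nat_lit 14) (node (nat_lit 5) (nat_lit 113837) (nat_lit 15) (node (nat_lit 7) (nat_lit
  117703) (nat_lit 16) (node (nat_lit 4) (nat_lit 119704) (nat_lit 17) nil nil) nil) nil) nil)
  nil)) nil) nil)) (node (nat_lit 5) (nat_lit 113837) (nat_lit 10) (node (nat_lit 7) (nat_lit
  113837) (nat_lit 11) (node (nat_lit 4) (nat_lit 113837) (nat_lit 12) (node (nat_lit 5) (nat_lit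
  113837) (nat_lit 13) (node (nat_lit 4) (nat_lit 113837) (nat_lit 14) (node (nat_lit 7) (nat_lit
  113837) (nat_lit 15) (node (nat_lit 5) (nat_lit 118613) (nat_lit 16) (node (nat_lit 7) (nat_lit
  120028) (nat_lit 17) (node (nat_lit 4) (nat_lit 120405) (nat_lit 18) nil nil) nil) nil) nil)
  nil) (node (nat_lit 7) (nat_lit 113837) (nat_lit 13) (node (nat_lit 5) (nat_lit 113837) (nat_lit
  14) nil nil) nil)) (node (nat_lit 5) (nat_lit 113837) (nat_lit 12) (node (nat_lit 4) (nat_lit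
  113837) (nat_lit 13) (node (nat_lit 7) (nat_lit 113837) (nat_lit 14) (node (nat_lit 4) (nat_lit
  113595) (nat_lit 15) (node (nat_lit 5) (nat_lit 116965) (nat_lit 16) nil nil) nil) nil) nil)
  nil)) (node (nat_lit 4) (nat_lit 113837) (nat_lit 11) (node (nat_lit 7) (nat_lit 113837)
  (nat_lit 12) nil nil) nil)) nil)) (node (nat_lit 7) (nat_lit 113837) (nat_lit 9) (node (nat_lit
  4) (nat_lit 113837) (nat_lit 10) (node (nat_lit 5) (nat_lit 113837) (nat_lit 11) (node (nat_lit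
  7) (nat_lit 113837) (nat_lit 12) (node (nat_lit 5) (nat_lit 113837) (nat_lit 13) (node (nat_lit
  4) (nat_lit 113837) (nat_lit 14) nil nil) (node (nat_lit 4) (nat_lit 113837) (nat_lit 13) nil
  nil)) (node (nat_lit 4) (nat_lit 113837) (nat_lit 12) (node (nat_lit 7) (nat_lit 113837)
  (nat_lit 13) (node (nat_lit 5) (nat_lit 113837) (nat_lit 14) nil nil) nil) nil)) (node (nat_lit
  7) (nat_lit 113837) (nat_lit 11) (node (nat_lit 5) (nat_lit 113837) (nat_lit 12) (node (nat_lit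
  4) (nat_lit 113837) (nat_lit 13) (node (nat_lit 7) (nat_lit 113837) (nat_lit 14) (node (nat_lit
  4) (nat_lit 113837) (nat_lit 15) (node (nat_lit 5) (nat_lit 117243) (nat_lit 16) (node (nat_lit
  4) (nat_lit 119719) (nat_lit 17) (node (nat_lit 7) (nat_lit 120196) (nat_lit 18) (node (nat_lit
  5) (nat_lit 121641) (nat_lit 19) (node (nat_lit 7) (nat_lit 122628) (nat_lit 20) (node (nat_lit
  4) (nat_lit 122853) (nat_lit 21) nil nil) nil) nil) nil) nil) nil) nil) nil) nil) nil) nil))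
  (node (nat_lit 5) (nat_lit 113837) (nat_lit 10) (node (nat_lit 4) (nat_lit 113837) (nat_lit 11)
  (node (nat_lit 7) (nat_lit 113837) (nat_lit 12) (node (nat_lit 4) (nat_lit 113837) (nat_lit 13)
  (node (nat_lit 5) (nat_lit 113837) (nat_lit 14) nil nil) (node (nat_lit 5) (nat_lit 113837)
  (nat_lit 13) nil nil)) (node (nat_lit 5) (nat_lit 113837) (nat_lit 12) (node (nat_lit 7)
  (nat_lit 113837) (nat_lit 13) (node (nat_lit 4) (nat_lit 113837) (nat_lit 14) (node (nat_lit 5)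
  (nat_lit 113837) (nat_lit 15) (node (nat_lit 4) (nat_lit 117498) (nat_lit 16) nil nil) nil)
  (node (nat_lit 5) (nat_lit 113837) (nat_lit 14) nil nil)) nil) nil)) (node (nat_lit 7) (nat_lit
  113837) (nat_lit 11) (node (nat_lit 4) (nat_lit 113837) (nat_lit 12) nil nil) nil)) (node
  (nat_lit 11) (nat_lit 121219) (nat_lit 10) nil nil))) (node (nat_lit 0) (nat_lit 120155)
  (nat_lit 9) nil nil)))) (node (nat_lit 7) (nat_lit 0) (nat_lit 8) (node (nat_lit 0) (nat_lit 0)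
  (nat_lit 9) (node (nat_lit 4) (nat_lit 116936) (nat_lit 10) (node (nat_lit 7) (nat_lit 116936)
  (nat_lit 11) (node (nat_lit 4) (nat_lit 116936) (nat_lit 12) (node (nat_lit 5) (nat_lit 116936)
  (nat_lit 13) (node (nat_lit 7) (nat_lit 116936) (nat_lit 14) (node (nat_lit 5) (nat_lit 116936)
  (nat_lit 15) (node (nat_lit 4) (nat_lit 116936) (nat_lit 16) nil nil) (node (nat_lit 4) (nat_lit
  116936) (nat_lit 15) nil nil)) (node (nat_lit 4) (nat_lit 116936) (nat_lit 14) (node (nat_lit 7)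
  (nat_lit 116936) (nat_lit 15) (node (nat_lit 5) (nat_lit 116936) (nat_lit 16) (node (nat_lit 7)
  (nat_lit 120800) (nat_lit 17) (node (nat_lit 4) (nat_lit 123023) (nat_lit 18) nil nil) nil) nil)
  nil) nil)) nil) (node (nat_lit 5) (nat_lit 116936) (nat_lit 12) (node (nat_lit 4) (nat_lit
  116936) (nat_lit 13) (node (nat_lit 7) (nat_lit 116936) (nat_lit 14) (node (nat_lit 4) (nat_lit
  116936) (nat_lit 15) (node (nat_lit 5) (nat_lit 116936) (nat_lit 16) (node (nat_lit 4) (nat_lit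
  121630) (nat_lit 17) (node (nat_lit 7) (nat_lit 123468) (nat_lit 18) (node (nat_lit 5) (nat_lit
  125087) (nat_lit 19) (node (nat_lit 7) (nat_lit 126142) (nat_lit 20) (node (nat_lit 4) (nat_lit
  126770) (nat_lit 21) nil nil) nil) nil) nil) nil) nil) nil) nil) nil) nil)) (node (nat_lit 5)
  (nat_lit 116936) (nat_lit 11) (node (nat_lit 7) (nat_lit 116936) (nat_lit 12) (node (nat_lit 4)
  (nat_lit 116936) (nat_lit 13) (node (nat_lit 5) (nat_lit 116936) (nat_lit 14) (node (nat_lit 4)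
  (nat_lit 116936) (nat_lit 15) (node (nat_lit 7) (nat_lit 116936) (nat_lit 16) (node (nat_lit 5)
  (nat_lit 121343) (nat_lit 17) (node (nat_lit 7) (nat_lit 124429) (nat_lit 18) (node (nat_lit 4)
  (nat_lit 125278) (nat_lit 19) nil nil) nil) nil) nil) nil) (node (nat_lit 7) (nat_lit 116936)
  (nat_lit 14) nil nil)) (node (nat_lit 5) (nat_lit 116936) (nat_lit 13) nil nil)) (node (nat_lit
  4) (nat_lit 116936) (nat_lit 12) (node (nat_lit 7) (nat_lit 116936) (nat_lit 13) nil nil) nil))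
  (node (nat_lit 12) (nat_lit 124586) (nat_lit 11) nil nil))) (node (nat_lit 5) (nat_lit 116936)
  (nat_lit 10) (node (nat_lit 7) (nat_lit 116936) (nat_lit 11) (node (nat_lit 5) (nat_lit 116936)
  (nat_lit 12) (node (nat_lit 4) (nat_lit 116936) (nat_lit 13) (node (nat_lit 7) (nat_lit 116936)
  (nat_lit 14) (node (nat_lit 4) (nat_lit 116936) (nat_lit 15) (node (nat_lit 5) (nat_lit 116936)
  (nat_lit 16) (node (nat_lit 4) (nat_lit 121660) (nat_lit 17) (node (nat_lit 7) (nat_lit 123468)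
  (nat_lit 18) (node (nat_lit 5) (nat_lit 125087) (nat_lit 19) (node (nat_lit 7) (nat_lit 126142)
  (nat_lit 20) (node (nat_lit 4) (nat_lit 126770) (nat_lit 21) (node (nat_lit 7) (nat_lit 127231)
  (nat_lit 22) nil nil) nil) nil) nil) nil) nil) nil) nil) nil) nil) (node (nat_lit 4) (nat_lit
  116936) (nat_lit 12) (node (nat_lit 5) (nat_lit 116936) (nat_lit 13) (node (nat_lit 4) (nat_lit
  116936) (nat_lit 14) (node (nat_lit 7) (nat_lit 116936) (nat_lit 15) (node (nat_lit 5) (nat_lit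
  116936) (nat_lit 16) (node (nat_lit 7) (nat_lit 121233) (nat_lit 17) (node (nat_lit 4) (nat_lit
  123907) (nat_lit 18) nil nil) nil) nil) nil) nil) nil) nil)) (node (nat_lit 4) (nat_lit 116936)
  (nat_lit 11) (node (nat_lit 5) (nat_lit 116936) (nat_lit 12) (node (nat_lit 7) (nat_lit 116936)
  (nat_lit 13) nil nil) (node (nat_lit 7) (nat_lit 116936) (nat_lit 12) (node (nat_lit 4) (nat_lit
  116936) (nat_lit 13) (node (nat_lit 5) (nat_lit 116936) (nat_lit 14) (node (nat_lit 4) (nat_lit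
  116936) (nat_lit 15) (node (nat_lit 7) (nat_lit 116936) (nat_lit 16) (node (nat_lit 5) (nat_lit
  121147) (nat_lit 17) nil nil) nil) nil) nil) nil) nil)) (node (nat_lit 12) (nat_lit 122763)
  (nat_lit 11) nil nil))) (node (nat_lit 7) (nat_lit 116936) (nat_lit 10) (node (nat_lit 5)
  (nat_lit 116936) (nat_lit 11) (node (nat_lit 7) (nat_lit 116936) (nat_lit 12) (node (nat_lit 4)
  (nat_lit 116936) (nat_lit 13) (node (nat_lit 5) (nat_lit 116936) (nat_lit 14) (node (nat_lit 4)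
  (nat_lit 116936) (nat_lit 15) (node (nat_lit 7) (nat_lit 116936) (nat_lit 16) (node (nat_lit 5)
  (nat_lit 120564) (nat_lit 17) nil nil) nil) nil) nil) nil) nil) (node (nat_lit 4) (nat_lit
  116936) (nat_lit 11) (node (nat_lit 5) (nat_lit 116936) (nat_lit 12) (node (nat_lit 4) (nat_lit
  116936) (nat_lit 13) (node (nat_lit 7) (nat_lit 116936) (nat_lit 14) (node (nat_lit 5) (nat_lit
  116936) (nat_lit 15) (node (nat_lit 7) (nat_lit 116936) (nat_lit 16) (node (nat_lit 4) (nat_lit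
  120209) (nat_lit 17) (node (nat_lit 7) (nat_lit 121445) (nat_lit 18) nil nil) nil) nil) nil)
  nil) nil) nil) nil)) (node (nat_lit 0) (nat_lit 120209) (nat_lit 10) nil nil)))) (node (nat_lit
  5) (nat_lit 0) (nat_lit 9) (node (nat_lit 0) (nat_lit 122200) (nat_lit 10) (node (nat_lit 5)
  (nat_lit 0) (nat_lit 11) (node (nat_lit 4) (nat_lit 122200) (nat_lit 12) (node (nat_lit 7)
  (nat_lit 122200) (nat_lit 13) (node (nat_lit 4) (nat_lit 122200) (nat_lit 14) (node (nat_lit 5)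
  (nat_lit 122200) (nat_lit 15) (node (nat_lit 4) (nat_lit 122200) (nat_lit 16) (node (nat_lit 7)
  (nat_lit 122200) (nat_lit 17) (node (nat_lit 5) (nat_lit 125487) (nat_lit 18) (node (nat_lit 7)
  (nat_lit 128051) (nat_lit 19) nil nil) nil) nil) nil) nil) (node (nat_lit 5) (nat_lit 122200)
  (nat_lit 14) nil nil)) (node (nat_lit 5) (nat_lit 122200) (nat_lit 13) (node (nat_lit 7)
  (nat_lit 122200) (nat_lit 14) nil nil) nil)) (node (nat_lit 7) (nat_lit 122200) (nat_lit 12)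
  (node (nat_lit 4) (nat_lit 122200) (nat_lit 13) (node (nat_lit 5) (nat_lit 122200) (nat_lit 14)
  (node (nat_lit 4) (nat_lit 122200) (nat_lit 15) (node (nat_lit 7) (nat_lit 122200) (nat_lit 16)
  (node (nat_lit 5) (nat_lit 122200) (nat_lit 17) (node (nat_lit 7) (nat_lit 125553) (nat_lit 18)
  (node (nat_lit 4) (nat_lit 127640) (nat_lit 19) nil nil) nil) nil) nil) nil) (node (nat_lit 7)
  (nat_lit 122200) (nat_lit 14) nil nil)) (node (nat_lit 5) (nat_lit 122200) (nat_lit 13) nil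
  nil)) (node (nat_lit 0) (nat_lit 124413) (nat_lit 12) nil nil))) (node (nat_lit 7) (nat_lit
  122200) (nat_lit 11) nil (node (nat_lit 0) (nat_lit 123443) (nat_lit 11) nil nil))) (node
  (nat_lit 4) (nat_lit 0) (nat_lit 10) (node (nat_lit 0) (nat_lit 123344) (nat_lit 11) (node
  (nat_lit 5) (nat_lit 123344) (nat_lit 12) (node (nat_lit 4) (nat_lit 123344) (nat_lit 13) (node
  (nat_lit 7) (nat_lit 123344) (nat_lit 14) nil (node (nat_lit 5) (nat_lit 123344) (nat_lit 14)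
  nil nil)) nil) nil) nil) nil)) nil)) nil)))

noncomputable def t231 : Tr :=
  (node (nat_lit 5) (nat_lit 0) (nat_lit 8) (node (nat_lit 0) (nat_lit 0) (nat_lit 9) (node
  (nat_lit 7) (nat_lit 90083) (nat_lit 10) (node (nat_lit 5) (nat_lit 90083) (nat_lit 11) (node
  (nat_lit 7) (nat_lit 90083) (nat_lit 12) (node (nat_lit 4) (nat_lit 90083) (nat_lit 13) (node
  (nat_lit 5) (nat_lit 90083) (nat_lit 14) (node (nat_lit 4) (nat_lit 90083) (nat_lit 15) (node
  (nat_lit 7) (nat_lit 90083) (nat_lit 16) (node (nat_lit 4) (nat_lit 92345) (nat_lit 17) (node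
  (nat_lit 5) (nat_lit 92862) (nat_lit 18) (node (nat_lit 7) (nat_lit 93265) (nat_lit 19) (node
  (nat_lit 5) (nat_lit 93580) (nat_lit 20) nil nil) nil) nil) nil) nil) (node (nat_lit 7) (nat_lit
  90083) (nat_lit 15) nil nil)) (node (nat_lit 7) (nat_lit 90083) (nat_lit 14) (node (nat_lit 5)
  (nat_lit 90083) (nat_lit 15) nil nil) nil)) nil) (node (nat_lit 4) (nat_lit 90083) (nat_lit 12)
  (node (nat_lit 7) (nat_lit 90083) (nat_lit 13) nil (node (nat_lit 5) (nat_lit 90083) (nat_lit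
  13) nil nil)) nil)) (node (nat_lit 4) (nat_lit 90083) (nat_lit 11) (node (nat_lit 5) (nat_lit
  90083) (nat_lit 12) (node (nat_lit 7) (nat_lit 90083) (nat_lit 13) (node (nat_lit 5) (nat_lit
  90083) (nat_lit 14) nil nil) (node (nat_lit 4) (nat_lit 90083) (nat_lit 13) (node (nat_lit 7)
  (nat_lit 90083) (nat_lit 14) (node (nat_lit 4) (nat_lit 90083) (nat_lit 15) (node (nat_lit 5)
  (nat_lit 90083) (nat_lit 16) (node (nat_lit 7) (nat_lit 92345) (nat_lit 17) nil nil) nil) nil)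
  nil) nil)) (node (nat_lit 7) (nat_lit 90083) (nat_lit 12) (node (nat_lit 5) (nat_lit 90083)
  (nat_lit 13) (node (nat_lit 4) (nat_lit 90083) (nat_lit 14) (node (nat_lit 5) (nat_lit 90083)
  (nat_lit 15) nil nil) (node (nat_lit 7) (nat_lit 90083) (nat_lit 14) nil nil)) nil) nil)) (node
  (nat_lit 12) (nat_lit 92345) (nat_lit 11) (node (nat_lit 5) (nat_lit 92345) (nat_lit 12) (node
  (nat_lit 7) (nat_lit 92345) (nat_lit 13) (node (nat_lit 4) (nat_lit 92345) (nat_lit 14) (node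
  (nat_lit 5) (nat_lit 92345) (nat_lit 15) (node (nat_lit 4) (nat_lit 92345) (nat_lit 16) (node
  (nat_lit 7) (nat_lit 92345) (nat_lit 17) (node (nat_lit 4) (nat_lit 92862) (nat_lit 18) (node
  (nat_lit 5) (nat_lit 93265) (nat_lit 19) (node (nat_lit 7) (nat_lit 93580) (nat_lit 20) nil nil)
  nil) nil) nil) nil) nil) nil) nil) nil) nil))) (node (nat_lit 4) (nat_lit 90083) (nat_lit 10)
  (node (nat_lit 7) (nat_lit 90083) (nat_lit 11) (node (nat_lit 5) (nat_lit 90083) (nat_lit 12)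
  (node (nat_lit 7) (nat_lit 90083) (nat_lit 13) (node (nat_lit 4) (nat_lit 90083) (nat_lit 14)
  (node (nat_lit 5) (nat_lit 90083) (nat_lit 15) (node (nat_lit 4) (nat_lit 89425) (nat_lit 16)
  (node (nat_lit 7) (nat_lit 90103) (nat_lit 17) (node (nat_lit 4) (nat_lit 89859) (nat_lit 18)
  (node (nat_lit 5) (nat_lit 89796) (nat_lit 19) nil nil) nil) nil) nil) nil) nil) (node (nat_lit
  4) (nat_lit 90083) (nat_lit 13) nil nil)) (node (nat_lit 4) (nat_lit 90083) (nat_lit 12) (node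
  (nat_lit 5) (nat_lit 90083) (nat_lit 13) (node (nat_lit 7) (nat_lit 90083) (nat_lit 14) nil
  (node (nat_lit 4) (nat_lit 90083) (nat_lit 14) nil nil)) nil) nil)) (node (nat_lit 5) (nat_lit
  90083) (nat_lit 11) (node (nat_lit 7) (nat_lit 90083) (nat_lit 12) (node (nat_lit 4) (nat_lit
  90083) (nat_lit 13) (node (nat_lit 5) (nat_lit 90083) (nat_lit 14) (node (nat_lit 4) (nat_lit
  90083) (nat_lit 15) (node (nat_lit 7) (nat_lit 90083) (nat_lit 16) (node (nat_lit 4) (nat_lit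
  91611) (nat_lit 17) (node (nat_lit 5) (nat_lit 92128) (nat_lit 18) (node (nat_lit 7) (nat_lit
  92531) (nat_lit 19) (node (nat_lit 5) (nat_lit 92846) (nat_lit 20) nil nil) nil) nil) nil) nil)
  nil) nil) (node (nat_lit 5) (nat_lit 90083) (nat_lit 13) (node (nat_lit 4) (nat_lit 90083)
  (nat_lit 14) nil nil) nil)) (node (nat_lit 4) (nat_lit 90083) (nat_lit 12) (node (nat_lit 7)
  (nat_lit 90083) (nat_lit 13) (node (nat_lit 5) (nat_lit 90083) (nat_lit 14) (node (nat_lit 7)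
  (nat_lit 90083) (nat_lit 15) (node (nat_lit 4) (nat_lit 90083) (nat_lit 16) nil nil) (node
  (nat_lit 4) (nat_lit 90083) (nat_lit 15) nil nil)) (node (nat_lit 4) (nat_lit 90083) (nat_lit
  14) (node (nat_lit 5) (nat_lit 90083) (nat_lit 15) nil nil) nil)) nil) nil)) (node (nat_lit 12)
  (nat_lit 91611) (nat_lit 11) (node (nat_lit 5) (nat_lit 91611) (nat_lit 12) (node (nat_lit 4)
  (nat_lit 91611) (nat_lit 13) (node (nat_lit 5) (nat_lit 91611) (nat_lit 14) (node (nat_lit 7)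
  (nat_lit 91611) (nat_lit 15) (node (nat_lit 4) (nat_lit 91611) (nat_lit 16) (node (nat_lit 5)
  (nat_lit 91611) (nat_lit 17) (node (nat_lit 4) (nat_lit 91179) (nat_lit 18) (node (nat_lit 7)
  (nat_lit 91538) (nat_lit 19) (node (nat_lit 4) (nat_lit 91534) (nat_lit 20) (node (nat_lit 5)
  (nat_lit 91583) (nat_lit 21) nil nil) nil) nil) nil) nil) nil) nil) nil) nil) nil) nil))) (node
  (nat_lit 5) (nat_lit 0) (nat_lit 10) (node (nat_lit 7) (nat_lit 90083) (nat_lit 11) (node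
  (nat_lit 4) (nat_lit 90083) (nat_lit 12) (node (nat_lit 5) (nat_lit 90083) (nat_lit 13) (node
  (nat_lit 4) (nat_lit 90083) (nat_lit 14) (node (nat_lit 7) (nat_lit 90083) (nat_lit 15) (node
  (nat_lit 4) (nat_lit 90083) (nat_lit 16) (node (nat_lit 5) (nat_lit 93150) (nat_lit 17) (node
  (nat_lit 7) (nat_lit 93666) (nat_lit 18) nil nil) nil) nil) nil) nil) (node (nat_lit 7) (nat_lit
  90083) (nat_lit 13) nil nil)) (node (nat_lit 5) (nat_lit 90083) (nat_lit 12) (node (nat_lit 4)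
  (nat_lit 90083) (nat_lit 13) (node (nat_lit 7) (nat_lit 90083) (nat_lit 14) nil nil) nil) nil))
  (node (nat_lit 4) (nat_lit 90083) (nat_lit 11) (node (nat_lit 7) (nat_lit 90083) (nat_lit 12)
  (node (nat_lit 5) (nat_lit 90083) (nat_lit 13) nil (node (nat_lit 4) (nat_lit 90083) (nat_lit
  13) nil nil)) (node (nat_lit 5) (nat_lit 90083) (nat_lit 12) (node (nat_lit 7) (nat_lit 90083)
  (nat_lit 13) nil nil) nil)) (node (nat_lit 0) (nat_lit 91697) (nat_lit 11) nil nil))) (node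
  (nat_lit 0) (nat_lit 91489) (nat_lit 10) nil nil)))) (node (nat_lit 4) (nat_lit 0) (nat_lit 9)
  (node (nat_lit 0) (nat_lit 0) (nat_lit 10) (node (nat_lit 4) (nat_lit 0) (nat_lit 11) (node
  (nat_lit 5) (nat_lit 95563) (nat_lit 12) (node (nat_lit 7) (nat_lit 95563) (nat_lit 13) (node
  (nat_lit 4) (nat_lit 95563) (nat_lit 14) (node (nat_lit 5) (nat_lit 95563) (nat_lit 15) (node
  (nat_lit 4) (nat_lit 95563) (nat_lit 16) (node (nat_lit 7) (nat_lit 95563) (nat_lit 17) (node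
  (nat_lit 4) (nat_lit 97913) (nat_lit 18) (node (nat_lit 5) (nat_lit 98316) (nat_lit 19) (node
  (nat_lit 7) (nat_lit 98631) (nat_lit 20) nil nil) nil) nil) nil) nil) (node (nat_lit 7) (nat_lit
  95563) (nat_lit 15) (node (nat_lit 5) (nat_lit 95563) (nat_lit 16) nil nil) nil)) (node (nat_lit
  5) (nat_lit 95563) (nat_lit 14) (node (nat_lit 4) (nat_lit 95563) (nat_lit 15) nil nil) nil))
  (node (nat_lit 4) (nat_lit 95563) (nat_lit 13) (node (nat_lit 7) (nat_lit 95563) (nat_lit 14)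
  nil (node (nat_lit 13) (nat_lit 98631) (nat_lit 14) nil nil)) (node (nat_lit 13) (nat_lit 98316)
  (nat_lit 13) nil nil))) (node (nat_lit 7) (nat_lit 95563) (nat_lit 12) (node (nat_lit 5)
  (nat_lit 95563) (nat_lit 13) (node (nat_lit 4) (nat_lit 95563) (nat_lit 14) (node (nat_lit 5)
  (nat_lit 95563) (nat_lit 15) nil nil) (node (nat_lit 7) (nat_lit 95563) (nat_lit 14) (node
  (nat_lit 4) (nat_lit 95563) (nat_lit 15) (node (nat_lit 5) (nat_lit 95563) (nat_lit 16) (node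
  (nat_lit 4) (nat_lit 95563) (nat_lit 17) (node (nat_lit 7) (nat_lit 96328) (nat_lit 18) nil nil)
  nil) nil) nil) nil)) (node (nat_lit 4) (nat_lit 95563) (nat_lit 13) (node (nat_lit 5) (nat_lit
  95563) (nat_lit 14) (node (nat_lit 7) (nat_lit 95563) (nat_lit 15) nil nil) nil) (node (nat_lit
  0) (nat_lit 98038) (nat_lit 13) nil nil))) (node (nat_lit 0) (nat_lit 98611) (nat_lit 12) nil
  nil))) (node (nat_lit 5) (nat_lit 95563) (nat_lit 11) (node (nat_lit 13) (nat_lit 98741)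
  (nat_lit 12) nil (node (nat_lit 4) (nat_lit 95563) (nat_lit 12) (node (nat_lit 5) (nat_lit
  95563) (nat_lit 13) nil nil) nil)) (node (nat_lit 7) (nat_lit 95563) (nat_lit 11) (node (nat_lit
  4) (nat_lit 95563) (nat_lit 12) nil (node (nat_lit 13) (nat_lit 97776) (nat_lit 12) nil nil))
  (node (nat_lit 0) (nat_lit 97727) (nat_lit 11) nil nil)))) (node (nat_lit 7) (nat_lit 0)
  (nat_lit 10) (node (nat_lit 0) (nat_lit 98823) (nat_lit 11) (node (nat_lit 4) (nat_lit 98823)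
  (nat_lit 12) (node (nat_lit 7) (nat_lit 98823) (nat_lit 13) (node (nat_lit 5) (nat_lit 98823)
  (nat_lit 14) (node (nat_lit 4) (nat_lit 98823) (nat_lit 15) (node (nat_lit 5) (nat_lit 98823)
  (nat_lit 16) nil nil) (node (nat_lit 7) (nat_lit 98823) (nat_lit 15) (node (nat_lit 4) (nat_lit
  98823) (nat_lit 16) nil nil) nil)) (node (nat_lit 4) (nat_lit 98823) (nat_lit 14) (node (nat_lit
  5) (nat_lit 98823) (nat_lit 15) (node (nat_lit 7) (nat_lit 98823) (nat_lit 16) nil nil) nil)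
  nil)) nil) nil) nil) (node (nat_lit 5) (nat_lit 0) (nat_lit 10) (node (nat_lit 0) (nat_lit
  97757) (nat_lit 11) (node (nat_lit 4) (nat_lit 97757) (nat_lit 12) (node (nat_lit 5) (nat_lit
  97757) (nat_lit 13) (node (nat_lit 4) (nat_lit 97757) (nat_lit 14) (node (nat_lit 7) (nat_lit
  97757) (nat_lit 15) (node (nat_lit 5) (nat_lit 97757) (nat_lit 16) nil nil) nil) (node (nat_lit
  7) (nat_lit 97757) (nat_lit 14) (node (nat_lit 5) (nat_lit 97757) (nat_lit 15) nil (node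
  (nat_lit 4) (nat_lit 97757) (nat_lit 15) nil nil)) nil)) nil) (node (nat_lit 5) (nat_lit 97757)
  (nat_lit 12) nil nil)) nil) nil))) nil)) (node (nat_lit 4) (nat_lit 0) (nat_lit 8) (node
  (nat_lit 0) (nat_lit 0) (nat_lit 9) (node (nat_lit 7) (nat_lit 0) (nat_lit 10) (node (nat_lit 4)
  (nat_lit 91720) (nat_lit 11) (node (nat_lit 5) (nat_lit 91554) (nat_lit 12) (node (nat_lit 7)
  (nat_lit 91554) (nat_lit 13) (node (nat_lit 5) (nat_lit 91554) (nat_lit 14) nil nil) (node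
  (nat_lit 4) (nat_lit 92267) (nat_lit 13) (node (nat_lit 7) (nat_lit 92720) (nat_lit 14) (node
  (nat_lit 4) (nat_lit 92720) (nat_lit 15) (node (nat_lit 5) (nat_lit 92720) (nat_lit 16) (node
  (nat_lit 7) (nat_lit 94676) (nat_lit 17) (node (nat_lit 4) (nat_lit 95192) (nat_lit 18) nil nil)
  nil) nil) (node (nat_lit 5) (nat_lit 92720) (nat_lit 15) nil nil)) nil) nil)) (node (nat_lit 7)
  (nat_lit 92581) (nat_lit 12) (node (nat_lit 5) (nat_lit 92720) (nat_lit 13) (node (nat_lit 4)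
  (nat_lit 92720) (nat_lit 14) (node (nat_lit 7) (nat_lit 92720) (nat_lit 15) nil (node (nat_lit
  5) (nat_lit 92720) (nat_lit 15) (node (nat_lit 7) (nat_lit 92720) (nat_lit 16) nil nil) nil))
  (node (nat_lit 7) (nat_lit 92720) (nat_lit 14) (node (nat_lit 4) (nat_lit 92720) (nat_lit 15)
  (node (nat_lit 5) (nat_lit 92790) (nat_lit 16) (node (nat_lit 4) (nat_lit 94481) (nat_lit 17)
  nil nil) nil) nil) nil)) (node (nat_lit 12) (nat_lit 95012) (nat_lit 13) nil nil)) nil)) (node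
  (nat_lit 5) (nat_lit 91957) (nat_lit 11) (node (nat_lit 7) (nat_lit 92501) (nat_lit 12) (node
  (nat_lit 4) (nat_lit 92501) (nat_lit 13) (node (nat_lit 5) (nat_lit 92501) (nat_lit 14) (node
  (nat_lit 4) (nat_lit 92501) (nat_lit 15) (node (nat_lit 7) (nat_lit 92720) (nat_lit 16) (node
  (nat_lit 4) (nat_lit 94013) (nat_lit 17) (node (nat_lit 5) (nat_lit 94529) (nat_lit 18) (node
  (nat_lit 7) (nat_lit 94932) (nat_lit 19) (node (nat_lit 4) (nat_lit 95248) (nat_lit 20) nil nil)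
  nil) nil) nil) nil) (node (nat_lit 7) (nat_lit 92501) (nat_lit 15) nil nil)) (node (nat_lit 7)
  (nat_lit 92501) (nat_lit 14) (node (nat_lit 5) (nat_lit 92501) (nat_lit 15) nil nil) nil)) nil)
  (node (nat_lit 4) (nat_lit 91957) (nat_lit 12) (node (nat_lit 5) (nat_lit 91957) (nat_lit 13)
  (node (nat_lit 7) (nat_lit 91957) (nat_lit 14) nil nil) (node (nat_lit 7) (nat_lit 91957)
  (nat_lit 13) (node (nat_lit 5) (nat_lit 91957) (nat_lit 14) nil (node (nat_lit 4) (nat_lit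
  91957) (nat_lit 14) nil nil)) nil)) (node (nat_lit 12) (nat_lit 93985) (nat_lit 12) nil nil)))
  (node (nat_lit 12) (nat_lit 95314) (nat_lit 11) nil (node (nat_lit 0) (nat_lit 92586) (nat_lit
  11) nil nil)))) (node (nat_lit 5) (nat_lit 0) (nat_lit 10) (node (nat_lit 7) (nat_lit 91999)
  (nat_lit 11) (node (nat_lit 4) (nat_lit 91999) (nat_lit 12) (node (nat_lit 5) (nat_lit 91999)
  (nat_lit 13) (node (nat_lit 7) (nat_lit 91999) (nat_lit 14) nil (node (nat_lit 4) (nat_lit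
  91999) (nat_lit 14) (node (nat_lit 7) (nat_lit 91999) (nat_lit 15) (node (nat_lit 4) (nat_lit
  92720) (nat_lit 16) (node (nat_lit 5) (nat_lit 93510) (nat_lit 17) (node (nat_lit 7) (nat_lit
  94027) (nat_lit 18) (node (nat_lit 4) (nat_lit 94430) (nat_lit 19) nil nil) nil) nil) nil) nil)
  nil)) (node (nat_lit 7) (nat_lit 91999) (nat_lit 13) (node (nat_lit 5) (nat_lit 91999) (nat_lit
  14) nil nil) nil)) (node (nat_lit 5) (nat_lit 92544) (nat_lit 12) (node (nat_lit 4) (nat_lit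
  92544) (nat_lit 13) (node (nat_lit 7) (nat_lit 92544) (nat_lit 14) (node (nat_lit 4) (nat_lit
  92544) (nat_lit 15) (node (nat_lit 5) (nat_lit 92720) (nat_lit 16) nil nil) nil) (node (nat_lit
  5) (nat_lit 92544) (nat_lit 14) (node (nat_lit 7) (nat_lit 92544) (nat_lit 15) nil nil) nil))
  nil) (node (nat_lit 12) (nat_lit 94027) (nat_lit 12) nil nil))) (node (nat_lit 4) (nat_lit
  91500) (nat_lit 11) (node (nat_lit 5) (nat_lit 92061) (nat_lit 12) (node (nat_lit 7) (nat_lit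
  91422) (nat_lit 13) (node (nat_lit 4) (nat_lit 91505) (nat_lit 14) (node (nat_lit 7) (nat_lit
  91505) (nat_lit 15) (node (nat_lit 5) (nat_lit 90831) (nat_lit 16) nil nil) (node (nat_lit 5)
  (nat_lit 91505) (nat_lit 15) nil nil)) (node (nat_lit 5) (nat_lit 91359) (nat_lit 14) (node
  (nat_lit 4) (nat_lit 91359) (nat_lit 15) (node (nat_lit 7) (nat_lit 92209) (nat_lit 16) nil nil)
  nil) nil)) (node (nat_lit 12) (nat_lit 94492) (nat_lit 13) nil nil)) (node (nat_lit 7) (nat_lit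
  91500) (nat_lit 12) (node (nat_lit 5) (nat_lit 91500) (nat_lit 13) nil (node (nat_lit 4)
  (nat_lit 91500) (nat_lit 13) nil nil)) (node (nat_lit 12) (nat_lit 93528) (nat_lit 12) nil
  nil))) (node (nat_lit 12) (nat_lit 95810) (nat_lit 11) (node (nat_lit 4) (nat_lit 95810)
  (nat_lit 12) nil nil) (node (nat_lit 0) (nat_lit 92362) (nat_lit 11) nil nil)))) (node (nat_lit
  4) (nat_lit 0) (nat_lit 10) (node (nat_lit 7) (nat_lit 92376) (nat_lit 11) (node (nat_lit 5)
  (nat_lit 92720) (nat_lit 12) (node (nat_lit 7) (nat_lit 92720) (nat_lit 13) (node (nat_lit 4)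
  (nat_lit 92720) (nat_lit 14) (node (nat_lit 5) (nat_lit 92720) (nat_lit 15) (node (nat_lit 4)
  (nat_lit 92720) (nat_lit 16) (node (nat_lit 7) (nat_lit 94001) (nat_lit 17) (node (nat_lit 4)
  (nat_lit 93757) (nat_lit 18) (node (nat_lit 5) (nat_lit 93694) (nat_lit 19) nil nil) nil) nil)
  nil) nil) nil) (node (nat_lit 4) (nat_lit 92720) (nat_lit 13) nil nil)) (node (nat_lit 4)
  (nat_lit 92693) (nat_lit 12) (node (nat_lit 5) (nat_lit 92693) (nat_lit 13) (node (nat_lit 7)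
  (nat_lit 92693) (nat_lit 14) nil nil) nil) nil)) (node (nat_lit 5) (nat_lit 92475) (nat_lit 11)
  (node (nat_lit 7) (nat_lit 92720) (nat_lit 12) (node (nat_lit 5) (nat_lit 92720) (nat_lit 13)
  (node (nat_lit 4) (nat_lit 92720) (nat_lit 14) nil nil) (node (nat_lit 4) (nat_lit 92720)
  (nat_lit 13) (node (nat_lit 5) (nat_lit 92720) (nat_lit 14) (node (nat_lit 4) (nat_lit 92720)
  (nat_lit 15) (node (nat_lit 7) (nat_lit 92720) (nat_lit 16) (node (nat_lit 4) (nat_lit 95682)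
  (nat_lit 17) (node (nat_lit 5) (nat_lit 96198) (nat_lit 18) nil nil) nil) nil) nil) nil) nil))
  (node (nat_lit 4) (nat_lit 92720) (nat_lit 12) (node (nat_lit 7) (nat_lit 92720) (nat_lit 13)
  nil nil) nil)) (node (nat_lit 0) (nat_lit 92136) (nat_lit 11) nil nil))) (node (nat_lit 0)
  (nat_lit 93868) (nat_lit 10) (node (nat_lit 4) (nat_lit 93868) (nat_lit 11) nil (node (nat_lit
  12) (nat_lit 94529) (nat_lit 11) nil nil)) nil)))) (node (nat_lit 7) (nat_lit 0) (nat_lit 9)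
  (node (nat_lit 0) (nat_lit 0) (nat_lit 10) (node (nat_lit 7) (nat_lit 0) (nat_lit 11) (node
  (nat_lit 4) (nat_lit 96787) (nat_lit 12) (node (nat_lit 5) (nat_lit 96787) (nat_lit 13) (node
  (nat_lit 7) (nat_lit 96787) (nat_lit 14) (node (nat_lit 5) (nat_lit 96787) (nat_lit 15) (node
  (nat_lit 4) (nat_lit 96787) (nat_lit 16) nil nil) (node (nat_lit 4) (nat_lit 96787) (nat_lit 15)
  nil nil)) (node (nat_lit 4) (nat_lit 96787) (nat_lit 14) (node (nat_lit 7) (nat_lit 96787)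
  (nat_lit 15) (node (nat_lit 4) (nat_lit 96787) (nat_lit 16) (node (nat_lit 5) (nat_lit 96787)
  (nat_lit 17) (node (nat_lit 7) (nat_lit 98350) (nat_lit 18) (node (nat_lit 4) (nat_lit 98753)
  (nat_lit 19) (node (nat_lit 7) (nat_lit 99068) (nat_lit 20) nil nil) nil) nil) nil) nil) nil)
  nil)) (node (nat_lit 7) (nat_lit 96787) (nat_lit 13) (node (nat_lit 5) (nat_lit 96787) (nat_lit
  14) nil nil) (node (nat_lit 13) (nat_lit 98753) (nat_lit 13) nil nil))) (node (nat_lit 5)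
  (nat_lit 96787) (nat_lit 12) (node (nat_lit 4) (nat_lit 96787) (nat_lit 13) (node (nat_lit 7)
  (nat_lit 96787) (nat_lit 14) (node (nat_lit 4) (nat_lit 96787) (nat_lit 15) nil nil) (node
  (nat_lit 5) (nat_lit 96787) (nat_lit 14) (node (nat_lit 7) (nat_lit 96787) (nat_lit 15) nil nil)
  nil)) (node (nat_lit 7) (nat_lit 96787) (nat_lit 13) (node (nat_lit 4) (nat_lit 96787) (nat_lit
  14) (node (nat_lit 5) (nat_lit 96787) (nat_lit 15) nil nil) nil) nil)) (node (nat_lit 0)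
  (nat_lit 99000) (nat_lit 12) nil nil))) (node (nat_lit 4) (nat_lit 96517) (nat_lit 11) (node
  (nat_lit 7) (nat_lit 96787) (nat_lit 12) (node (nat_lit 4) (nat_lit 96787) (nat_lit 13) nil nil)
  (node (nat_lit 13) (nat_lit 97695) (nat_lit 12) nil (node (nat_lit 5) (nat_lit 96705) (nat_lit
  12) nil nil))) (node (nat_lit 5) (nat_lit 96787) (nat_lit 11) (node (nat_lit 7) (nat_lit 96787)
  (nat_lit 12) nil (node (nat_lit 13) (nat_lit 97974) (nat_lit 12) nil nil)) (node (nat_lit 0)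
  (nat_lit 98444) (nat_lit 11) nil nil)))) (node (nat_lit 5) (nat_lit 0) (nat_lit 10) (node
  (nat_lit 0) (nat_lit 99351) (nat_lit 11) (node (nat_lit 7) (nat_lit 99351) (nat_lit 12) (node
  (nat_lit 5) (nat_lit 99351) (nat_lit 13) (node (nat_lit 7) (nat_lit 99351) (nat_lit 14) (node
  (nat_lit 4) (nat_lit 99351) (nat_lit 15) nil nil) (node (nat_lit 4) (nat_lit 99351) (nat_lit 14)
  (node (nat_lit 7) (nat_lit 99351) (nat_lit 15) nil (node (nat_lit 5) (nat_lit 99351) (nat_lit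
  15) nil nil)) nil)) nil) (node (nat_lit 5) (nat_lit 99351) (nat_lit 12) nil nil)) nil) nil))
  nil)) (node (nat_lit 0) (nat_lit 0) (nat_lit 8) (node (nat_lit 5) (nat_lit 86320) (nat_lit 9)
  (node (nat_lit 4) (nat_lit 87976) (nat_lit 10) (node (nat_lit 7) (nat_lit 89077) (nat_lit 11)
  (node (nat_lit 5) (nat_lit 89077) (nat_lit 12) (node (nat_lit 7) (nat_lit 89077) (nat_lit 13)
  (node (nat_lit 4) (nat_lit 89077) (nat_lit 14) (node (nat_lit 5) (nat_lit 89890) (nat_lit 15)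
  (node (nat_lit 4) (nat_lit 88910) (nat_lit 16) (node (nat_lit 7) (nat_lit 89006) (nat_lit 17)
  (node (nat_lit 4) (nat_lit 88509) (nat_lit 18) (node (nat_lit 5) (nat_lit 88257) (nat_lit 19)
  nil nil) nil) nil) nil) nil) nil) nil) (node (nat_lit 4) (nat_lit 89992) (nat_lit 12) (node
  (nat_lit 5) (nat_lit 91138) (nat_lit 13) (node (nat_lit 7) (nat_lit 91647) (nat_lit 14) nil
  (node (nat_lit 4) (nat_lit 91138) (nat_lit 14) nil nil)) nil) nil)) (node (nat_lit 5) (nat_lit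
  88694) (nat_lit 11) (node (nat_lit 7) (nat_lit 88760) (nat_lit 12) (node (nat_lit 4) (nat_lit
  88860) (nat_lit 13) (node (nat_lit 5) (nat_lit 88860) (nat_lit 14) (node (nat_lit 4) (nat_lit
  88045) (nat_lit 15) (node (nat_lit 7) (nat_lit 87901) (nat_lit 16) (node (nat_lit 4) (nat_lit
  87124) (nat_lit 17) (node (nat_lit 5) (nat_lit 86719) (nat_lit 18) (node (nat_lit 7) (nat_lit
  86934) (nat_lit 19) nil nil) nil) nil) nil) nil) nil) nil) nil) nil)) (node (nat_lit 7) (nat_lit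
  88504) (nat_lit 10) (node (nat_lit 4) (nat_lit 88146) (nat_lit 11) (node (nat_lit 5) (nat_lit
  88112) (nat_lit 12) (node (nat_lit 4) (nat_lit 88213) (nat_lit 13) (node (nat_lit 7) (nat_lit
  87486) (nat_lit 14) (node (nat_lit 4) (nat_lit 88299) (nat_lit 15) (node (nat_lit 5) (nat_lit
  88630) (nat_lit 16) (node (nat_lit 7) (nat_lit 88923) (nat_lit 17) nil nil) nil) nil) nil) (node
  (nat_lit 7) (nat_lit 88112) (nat_lit 13) nil nil)) (node (nat_lit 7) (nat_lit 88247) (nat_lit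
  12) (node (nat_lit 5) (nat_lit 88158) (nat_lit 13) (node (nat_lit 4) (nat_lit 87431) (nat_lit
  14) nil (node (nat_lit 7) (nat_lit 88158) (nat_lit 14) nil nil)) nil) nil)) (node (nat_lit 5)
  (nat_lit 90706) (nat_lit 11) (node (nat_lit 4) (nat_lit 90706) (nat_lit 12) nil nil) nil)) (node
  (nat_lit 11) (nat_lit 87464) (nat_lit 10) nil nil))) (node (nat_lit 7) (nat_lit 86238) (nat_lit
  9) (node (nat_lit 5) (nat_lit 88687) (nat_lit 10) (node (nat_lit 4) (nat_lit 90100) (nat_lit 11)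
  (node (nat_lit 5) (nat_lit 90100) (nat_lit 12) (node (nat_lit 7) (nat_lit 90100) (nat_lit 13)
  (node (nat_lit 4) (nat_lit 90100) (nat_lit 14) (node (nat_lit 5) (nat_lit 90912) (nat_lit 15)
  (node (nat_lit 4) (nat_lit 89932) (nat_lit 16) nil nil) nil) nil) nil) (node (nat_lit 7)
  (nat_lit 90615) (nat_lit 12) (node (nat_lit 4) (nat_lit 90615) (nat_lit 13) nil nil) nil)) (node
  (nat_lit 7) (nat_lit 90093) (nat_lit 11) (node (nat_lit 4) (nat_lit 90093) (nat_lit 12) (node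
  (nat_lit 5) (nat_lit 90093) (nat_lit 13) (node (nat_lit 4) (nat_lit 90093) (nat_lit 14) (node
  (nat_lit 7) (nat_lit 90906) (nat_lit 15) (node (nat_lit 4) (nat_lit 91237) (nat_lit 16) (node
  (nat_lit 5) (nat_lit 91530) (nat_lit 17) (node (nat_lit 7) (nat_lit 91793) (nat_lit 18) nil nil)
  nil) nil) nil) nil) nil) nil) nil)) (node (nat_lit 4) (nat_lit 88258) (nat_lit 10) (node
  (nat_lit 5) (nat_lit 90384) (nat_lit 11) (node (nat_lit 4) (nat_lit 91647) (nat_lit 12) (node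
  (nat_lit 7) (nat_lit 91647) (nat_lit 13) (node (nat_lit 4) (nat_lit 91647) (nat_lit 14) (node
  (nat_lit 5) (nat_lit 91647) (nat_lit 15) (node (nat_lit 7) (nat_lit 93798) (nat_lit 16) nil nil)
  nil) (node (nat_lit 5) (nat_lit 91647) (nat_lit 14) nil nil)) nil) (node (nat_lit 7) (nat_lit
  89523) (nat_lit 12) (node (nat_lit 5) (nat_lit 89523) (nat_lit 13) nil nil) nil)) (node (nat_lit
  7) (nat_lit 90035) (nat_lit 11) (node (nat_lit 5) (nat_lit 90035) (nat_lit 12) nil nil) nil))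
  nil)) (node (nat_lit 4) (nat_lit 86032) (nat_lit 9) (node (nat_lit 5) (nat_lit 88297) (nat_lit
  10) (node (nat_lit 7) (nat_lit 89082) (nat_lit 11) (node (nat_lit 4) (nat_lit 89744) (nat_lit
  12) (node (nat_lit 7) (nat_lit 89744) (nat_lit 13) (node (nat_lit 5) (nat_lit 89744) (nat_lit
  14) nil nil) (node (nat_lit 5) (nat_lit 89744) (nat_lit 13) (node (nat_lit 4) (nat_lit 89744)
  (nat_lit 14) (node (nat_lit 7) (nat_lit 90556) (nat_lit 15) (node (nat_lit 4) (nat_lit 90888)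
  (nat_lit 16) nil nil) nil) nil) nil)) (node (nat_lit 5) (nat_lit 89048) (nat_lit 12) (node
  (nat_lit 4) (nat_lit 89048) (nat_lit 13) (node (nat_lit 7) (nat_lit 89048) (nat_lit 14) (node
  (nat_lit 4) (nat_lit 89861) (nat_lit 15) (node (nat_lit 5) (nat_lit 90192) (nat_lit 16) (node
  (nat_lit 4) (nat_lit 89415) (nat_lit 17) nil nil) nil) nil) nil) nil) nil)) (node (nat_lit 4)
  (nat_lit 90033) (nat_lit 11) (node (nat_lit 7) (nat_lit 90033) (nat_lit 12) nil nil) nil)) (node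
  (nat_lit 7) (nat_lit 88208) (nat_lit 10) (node (nat_lit 5) (nat_lit 88687) (nat_lit 11) (node
  (nat_lit 7) (nat_lit 88687) (nat_lit 12) (node (nat_lit 4) (nat_lit 88687) (nat_lit 13) (node
  (nat_lit 5) (nat_lit 88687) (nat_lit 14) (node (nat_lit 4) (nat_lit 87873) (nat_lit 15) (node
  (nat_lit 7) (nat_lit 87729) (nat_lit 16) (node (nat_lit 4) (nat_lit 86952) (nat_lit 17) (node
  (nat_lit 5) (nat_lit 86547) (nat_lit 18) (node (nat_lit 7) (nat_lit 86762) (nat_lit 19) nil nil)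
  nil) nil) nil) nil) (node (nat_lit 7) (nat_lit 88687) (nat_lit 14) nil nil)) nil) (node (nat_lit
  4) (nat_lit 88687) (nat_lit 12) (node (nat_lit 5) (nat_lit 88687) (nat_lit 13) (node (nat_lit 7)
  (nat_lit 88687) (nat_lit 14) nil nil) (node (nat_lit 7) (nat_lit 88687) (nat_lit 13) nil nil))
  nil)) (node (nat_lit 4) (nat_lit 89180) (nat_lit 11) (node (nat_lit 5) (nat_lit 89180) (nat_lit
  12) nil nil) nil)) (node (nat_lit 11) (nat_lit 93346) (nat_lit 10) nil nil))) (node (nat_lit 0)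
  (nat_lit 91981) (nat_lit 9) nil nil)))) nil)))

noncomputable def t232 : Tr :=
  (node (nat_lit 3) (nat_lit 0) (nat_lit 3) (node (nat_lit 4) (nat_lit 0) (nat_lit 4) (node
  (nat_lit 6) (nat_lit 0) (nat_lit 5) (node (nat_lit 5) (nat_lit 0) (nat_lit 6) t226 nil) (node
  (nat_lit 5) (nat_lit 0) (nat_lit 5) (node (nat_lit 4) (nat_lit 0) (nat_lit 6) (node (nat_lit 6)
  (nat_lit 0) (nat_lit 7) t227 nil) nil) nil)) (node (nat_lit 5) (nat_lit 0) (nat_lit 4) (node
  (nat_lit 4) (nat_lit 0) (nat_lit 5) (node (nat_lit 6) (nat_lit 0) (nat_lit 6) (node (nat_lit 4)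
  (nat_lit 0) (nat_lit 7) t228 (node (nat_lit 5) (nat_lit 0) (nat_lit 7) t229 nil)) (node (nat_lit
  5) (nat_lit 0) (nat_lit 6) (node (nat_lit 6) (nat_lit 0) (nat_lit 7) (node (nat_lit 4) (nat_lit
  0) (nat_lit 8) (node (nat_lit 0) (nat_lit 0) (nat_lit 9) (node (nat_lit 6) (nat_lit 123000)
  (nat_lit 10) (node (nat_lit 4) (nat_lit 123000) (nat_lit 11) (node (nat_lit 6) (nat_lit 123000)
  (nat_lit 12) (node (nat_lit 5) (nat_lit 123000) (nat_lit 13) (node (nat_lit 4) (nat_lit 123000)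
  (nat_lit 14) (node (nat_lit 5) (nat_lit 123000) (nat_lit 15) (node (nat_lit 6) (nat_lit 123000)
  (nat_lit 16) (node (nat_lit 5) (nat_lit 124534) (nat_lit 17) (node (nat_lit 4) (nat_lit 123568)
  (nat_lit 18) nil nil) nil) nil) nil) (node (nat_lit 6) (nat_lit 123000) (nat_lit 14) nil nil))
  nil) (node (nat_lit 5) (nat_lit 123000) (nat_lit 12) (node (nat_lit 6) (nat_lit 123000) (nat_lit
  13) (node (nat_lit 5) (nat_lit 123000) (nat_lit 14) (node (nat_lit 4) (nat_lit 123000) (nat_lit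
  15) (node (nat_lit 5) (nat_lit 123000) (nat_lit 16) (node (nat_lit 6) (nat_lit 126215) (nat_lit
  17) (node (nat_lit 4) (nat_lit 128725) (nat_lit 18) nil nil) nil) nil) nil) nil) (node (nat_lit
  4) (nat_lit 123000) (nat_lit 13) nil nil)) nil)) (node (nat_lit 5) (nat_lit 123000) (nat_lit 11)
  (node (nat_lit 6) (nat_lit 123000) (nat_lit 12) (node (nat_lit 4) (nat_lit 123000) (nat_lit 13)
  (node (nat_lit 5) (nat_lit 123000) (nat_lit 14) nil nil) nil) (node (nat_lit 4) (nat_lit 123000)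
  (nat_lit 12) (node (nat_lit 6) (nat_lit 123000) (nat_lit 13) nil nil) nil)) (node (nat_lit 12)
  (nat_lit 129776) (nat_lit 11) (node (nat_lit 4) (nat_lit 129776) (nat_lit 12) (node (nat_lit 6)
  (nat_lit 129776) (nat_lit 13) (node (nat_lit 4) (nat_lit 129776) (nat_lit 14) (node (nat_lit 5)
  (nat_lit 129776) (nat_lit 15) (node (nat_lit 6) (nat_lit 129776) (nat_lit 16) (node (nat_lit 5)
  (nat_lit 129776) (nat_lit 17) (node (nat_lit 4) (nat_lit 129776) (nat_lit 18) (node (nat_lit 5)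
  (nat_lit 132094) (nat_lit 19) (node (nat_lit 6) (nat_lit 132966) (nat_lit 20) (node (nat_lit 4)
  (nat_lit 132966) (nat_lit 21) nil nil) nil) nil) nil) nil) nil) nil) nil) nil) nil) nil))) (node
  (nat_lit 5) (nat_lit 123000) (nat_lit 10) (node (nat_lit 6) (nat_lit 123000) (nat_lit 11) (node
  (nat_lit 4) (nat_lit 123000) (nat_lit 12) (node (nat_lit 5) (nat_lit 123000) (nat_lit 13) (node
  (nat_lit 6) (nat_lit 123000) (nat_lit 14) (node (nat_lit 5) (nat_lit 123000) (nat_lit 15) (node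
  (nat_lit 4) (nat_lit 123000) (nat_lit 16) (node (nat_lit 5) (nat_lit 126670) (nat_lit 17) (node
  (nat_lit 6) (nat_lit 129534) (nat_lit 18) (node (nat_lit 4) (nat_lit 131239) (nat_lit 19) nil
  nil) nil) nil) nil) nil) nil) (node (nat_lit 6) (nat_lit 123000) (nat_lit 13) (node (nat_lit 5)
  (nat_lit 123000) (nat_lit 14) (node (nat_lit 4) (nat_lit 123000) (nat_lit 15) (node (nat_lit 5)
  (nat_lit 123000) (nat_lit 16) (node (nat_lit 6) (nat_lit 124534) (nat_lit 17) (node (nat_lit 5)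
  (nat_lit 125731) (nat_lit 18) nil nil) nil) nil) nil) nil) nil)) (node (nat_lit 5) (nat_lit
  123000) (nat_lit 12) (node (nat_lit 4) (nat_lit 123000) (nat_lit 13) (node (nat_lit 6) (nat_lit
  123000) (nat_lit 14) (node (nat_lit 4) (nat_lit 123000) (nat_lit 15) (node (nat_lit 5) (nat_lit
  123000) (nat_lit 16) (node (nat_lit 6) (nat_lit 127562) (nat_lit 17) nil nil) nil) nil) (node
  (nat_lit 5) (nat_lit 123000) (nat_lit 14) nil nil)) nil) nil)) (node (nat_lit 4) (nat_lit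
  123000) (nat_lit 11) (node (nat_lit 5) (nat_lit 123000) (nat_lit 12) (node (nat_lit 6) (nat_lit
  123000) (nat_lit 13) (node (nat_lit 4) (nat_lit 123000) (nat_lit 14) nil (node (nat_lit 5)
  (nat_lit 123000) (nat_lit 14) nil nil)) nil) (node (nat_lit 6) (nat_lit 123000) (nat_lit 12)
  (node (nat_lit 5) (nat_lit 123000) (nat_lit 13) nil (node (nat_lit 4) (nat_lit 123000) (nat_lit
  13) nil nil)) nil)) (node (nat_lit 12) (nat_lit 128725) (nat_lit 11) nil nil))) (node (nat_lit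
  4) (nat_lit 123000) (nat_lit 10) (node (nat_lit 6) (nat_lit 123000) (nat_lit 11) (node (nat_lit
  4) (nat_lit 123000) (nat_lit 12) (node (nat_lit 5) (nat_lit 123000) (nat_lit 13) (node (nat_lit
  6) (nat_lit 123000) (nat_lit 14) (node (nat_lit 5) (nat_lit 123000) (nat_lit 15) (node (nat_lit
  4) (nat_lit 123000) (nat_lit 16) (node (nat_lit 5) (nat_lit 126806) (nat_lit 17) (node (nat_lit
  6) (nat_lit 128983) (nat_lit 18) nil nil) nil) nil) nil) (node (nat_lit 4) (nat_lit 123000)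
  (nat_lit 14) nil nil)) nil) (node (nat_lit 5) (nat_lit 123000) (nat_lit 12) nil nil)) (node
  (nat_lit 5) (nat_lit 123000) (nat_lit 11) (node (nat_lit 6) (nat_lit 123000) (nat_lit 12) (node
  (nat_lit 5) (nat_lit 123000) (nat_lit 13) nil (node (nat_lit 4) (nat_lit 123000) (nat_lit 13)
  nil nil)) (node (nat_lit 4) (nat_lit 123000) (nat_lit 12) (node (nat_lit 6) (nat_lit 123000)
  (nat_lit 13) nil nil) nil)) nil)) (node (nat_lit 0) (nat_lit 127261) (nat_lit 10) (node (nat_lit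
  4) (nat_lit 127261) (nat_lit 11) nil nil) nil)))) (node (nat_lit 5) (nat_lit 0) (nat_lit 9)
  (node (nat_lit 0) (nat_lit 0) (nat_lit 10) (node (nat_lit 5) (nat_lit 0) (nat_lit 11) (node
  (nat_lit 6) (nat_lit 128101) (nat_lit 12) (node (nat_lit 4) (nat_lit 128101) (nat_lit 13) (node
  (nat_lit 5) (nat_lit 128101) (nat_lit 14) (node (nat_lit 6) (nat_lit 128101) (nat_lit 15) (node
  (nat_lit 5) (nat_lit 128101) (nat_lit 16) (node (nat_lit 4) (nat_lit 128101) (nat_lit 17) (node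
  (nat_lit 5) (nat_lit 130965) (nat_lit 18) (node (nat_lit 6) (nat_lit 132938) (nat_lit 19) (node
  (nat_lit 4) (nat_lit 132966) (nat_lit 20) nil nil) nil) nil) nil) nil) (node (nat_lit 4)
  (nat_lit 128101) (nat_lit 15) nil nil)) (node (nat_lit 6) (nat_lit 128101) (nat_lit 14) nil
  nil)) (node (nat_lit 5) (nat_lit 128101) (nat_lit 13) (node (nat_lit 4) (nat_lit 128101)
  (nat_lit 14) nil nil) nil)) (node (nat_lit 4) (nat_lit 128101) (nat_lit 12) (node (nat_lit 6)
  (nat_lit 128101) (nat_lit 13) (node (nat_lit 5) (nat_lit 128101) (nat_lit 14) (node (nat_lit 6)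
  (nat_lit 128101) (nat_lit 15) nil nil) (node (nat_lit 4) (nat_lit 128101) (nat_lit 14) (node
  (nat_lit 5) (nat_lit 128101) (nat_lit 15) nil nil) nil)) (node (nat_lit 5) (nat_lit 128101)
  (nat_lit 13) (node (nat_lit 6) (nat_lit 128101) (nat_lit 14) nil nil) (node (nat_lit 13)
  (nat_lit 130962) (nat_lit 13) nil nil))) (node (nat_lit 0) (nat_lit 130232) (nat_lit 12) nil
  nil))) (node (nat_lit 4) (nat_lit 128101) (nat_lit 11) (node (nat_lit 5) (nat_lit 128101)
  (nat_lit 12) nil (node (nat_lit 13) (nat_lit 130232) (nat_lit 12) nil nil)) (node (nat_lit 6)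
  (nat_lit 128101) (nat_lit 11) nil (node (nat_lit 0) (nat_lit 130610) (nat_lit 11) nil nil))))
  (node (nat_lit 4) (nat_lit 0) (nat_lit 10) (node (nat_lit 0) (nat_lit 131272) (nat_lit 11) (node
  (nat_lit 5) (nat_lit 131272) (nat_lit 12) (node (nat_lit 4) (nat_lit 131272) (nat_lit 13) (node
  (nat_lit 5) (nat_lit 131272) (nat_lit 14) (node (nat_lit 6) (nat_lit 131272) (nat_lit 15) (node
  (nat_lit 4) (nat_lit 131272) (nat_lit 16) nil (node (nat_lit 5) (nat_lit 131272) (nat_lit 16)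
  nil nil)) nil) (node (nat_lit 6) (nat_lit 131272) (nat_lit 14) (node (nat_lit 5) (nat_lit
  131272) (nat_lit 15) nil (node (nat_lit 4) (nat_lit 131272) (nat_lit 15) (node (nat_lit 5)
  (nat_lit 131272) (nat_lit 16) nil nil) nil)) nil)) nil) (node (nat_lit 4) (nat_lit 131272)
  (nat_lit 12) nil nil)) nil) nil)) (node (nat_lit 6) (nat_lit 0) (nat_lit 9) (node (nat_lit 0)
  (nat_lit 0) (nat_lit 10) (node (nat_lit 6) (nat_lit 124724) (nat_lit 11) (node (nat_lit 4)
  (nat_lit 124724) (nat_lit 12) (node (nat_lit 5) (nat_lit 124724) (nat_lit 13) (node (nat_lit 6)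
  (nat_lit 124724) (nat_lit 14) (node (nat_lit 5) (nat_lit 124724) (nat_lit 15) (node (nat_lit 4)
  (nat_lit 124724) (nat_lit 16) (node (nat_lit 5) (nat_lit 124724) (nat_lit 17) (node (nat_lit 6)
  (nat_lit 127233) (nat_lit 18) (node (nat_lit 4) (nat_lit 129191) (nat_lit 19) nil nil) nil) nil)
  nil) (node (nat_lit 4) (nat_lit 124724) (nat_lit 15) nil nil)) (node (nat_lit 4) (nat_lit
  124724) (nat_lit 14) nil nil)) (node (nat_lit 6) (nat_lit 124724) (nat_lit 13) (node (nat_lit 5)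
  (nat_lit 124724) (nat_lit 14) nil nil) nil)) (node (nat_lit 5) (nat_lit 124724) (nat_lit 12)
  (node (nat_lit 4) (nat_lit 124724) (nat_lit 13) (node (nat_lit 6) (nat_lit 124724) (nat_lit 14)
  nil (node (nat_lit 5) (nat_lit 124724) (nat_lit 14) nil nil)) (node (nat_lit 6) (nat_lit 124724)
  (nat_lit 13) (node (nat_lit 4) (nat_lit 124724) (nat_lit 14) (node (nat_lit 5) (nat_lit 124724)
  (nat_lit 15) nil nil) nil) nil)) nil)) (node (nat_lit 4) (nat_lit 124724) (nat_lit 11) (node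
  (nat_lit 6) (nat_lit 124724) (nat_lit 12) (node (nat_lit 4) (nat_lit 124724) (nat_lit 13) nil
  nil) (node (nat_lit 5) (nat_lit 124724) (nat_lit 12) nil nil)) (node (nat_lit 5) (nat_lit
  124724) (nat_lit 11) (node (nat_lit 6) (nat_lit 124724) (nat_lit 12) nil nil) (node (nat_lit 0)
  (nat_lit 127233) (nat_lit 11) nil nil)))) (node (nat_lit 5) (nat_lit 0) (nat_lit 10) (node
  (nat_lit 0) (nat_lit 129704) (nat_lit 11) (node (nat_lit 6) (nat_lit 129704) (nat_lit 12) (node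
  (nat_lit 5) (nat_lit 129704) (nat_lit 13) (node (nat_lit 4) (nat_lit 129704) (nat_lit 14) (node
  (nat_lit 6) (nat_lit 129704) (nat_lit 15) nil (node (nat_lit 5) (nat_lit 129704) (nat_lit 15)
  nil nil)) (node (nat_lit 6) (nat_lit 129704) (nat_lit 14) (node (nat_lit 4) (nat_lit 129704)
  (nat_lit 15) (node (nat_lit 5) (nat_lit 129704) (nat_lit 16) nil nil) nil) nil)) nil) (node
  (nat_lit 5) (nat_lit 129704) (nat_lit 12) nil nil)) nil) nil)) nil))) (node (nat_lit 0) (nat_lit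
  120692) (nat_lit 8) (node (nat_lit 6) (nat_lit 120692) (nat_lit 9) (node (nat_lit 5) (nat_lit
  120692) (nat_lit 10) (node (nat_lit 4) (nat_lit 120692) (nat_lit 11) (node (nat_lit 6) (nat_lit
  120692) (nat_lit 12) (node (nat_lit 4) (nat_lit 120692) (nat_lit 13) (node (nat_lit 5) (nat_lit
  120692) (nat_lit 14) (node (nat_lit 6) (nat_lit 120692) (nat_lit 15) (node (nat_lit 5) (nat_lit
  125874) (nat_lit 16) (node (nat_lit 4) (nat_lit 129595) (nat_lit 17) (node (nat_lit 5) (nat_lit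
  131000) (nat_lit 18) (node (nat_lit 6) (nat_lit 131221) (nat_lit 19) nil nil) nil) nil) nil)
  nil) nil) nil) (node (nat_lit 5) (nat_lit 120692) (nat_lit 12) nil nil)) (node (nat_lit 6)
  (nat_lit 120692) (nat_lit 11) (node (nat_lit 4) (nat_lit 120692) (nat_lit 12) (node (nat_lit 5)
  (nat_lit 120692) (nat_lit 13) (node (nat_lit 6) (nat_lit 120692) (nat_lit 14) (node (nat_lit 5)
  (nat_lit 120692) (nat_lit 15) (node (nat_lit 4) (nat_lit 124875) (nat_lit 16) (node (nat_lit 5)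
  (nat_lit 128140) (nat_lit 17) (node (nat_lit 6) (nat_lit 130203) (nat_lit 18) nil nil) nil) nil)
  nil) nil) nil) nil) nil)) (node (nat_lit 4) (nat_lit 120692) (nat_lit 10) (node (nat_lit 5)
  (nat_lit 120692) (nat_lit 11) (node (nat_lit 6) (nat_lit 120692) (nat_lit 12) (node (nat_lit 5)
  (nat_lit 120692) (nat_lit 13) (node (nat_lit 4) (nat_lit 120692) (nat_lit 14) (node (nat_lit 5)
  (nat_lit 120692) (nat_lit 15) (node (nat_lit 6) (nat_lit 123831) (nat_lit 16) nil nil) nil) nil)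
  nil) (node (nat_lit 4) (nat_lit 120692) (nat_lit 12) (node (nat_lit 6) (nat_lit 120692) (nat_lit
  13) (node (nat_lit 4) (nat_lit 120692) (nat_lit 14) (node (nat_lit 5) (nat_lit 120692) (nat_lit
  15) (node (nat_lit 6) (nat_lit 125833) (nat_lit 16) nil nil) nil) (node (nat_lit 5) (nat_lit
  120692) (nat_lit 14) nil nil)) nil) nil)) (node (nat_lit 6) (nat_lit 120692) (nat_lit 11) nil
  nil)) nil)) (node (nat_lit 5) (nat_lit 120692) (nat_lit 9) (node (nat_lit 4) (nat_lit 120692)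
  (nat_lit 10) (node (nat_lit 6) (nat_lit 120692) (nat_lit 11) (node (nat_lit 4) (nat_lit 120692)
  (nat_lit 12) (node (nat_lit 5) (nat_lit 120692) (nat_lit 13) (node (nat_lit 6) (nat_lit 120692)
  (nat_lit 14) (node (nat_lit 5) (nat_lit 120692) (nat_lit 15) (node (nat_lit 4) (nat_lit 125387)
  (nat_lit 16) (node (nat_lit 5) (nat_lit 128424) (nat_lit 17) (node (nat_lit 6) (nat_lit 130704)
  (nat_lit 18) nil nil) nil) nil) nil) nil) nil) (node (nat_lit 5) (nat_lit 120692) (nat_lit 12)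
  (node (nat_lit 6) (nat_lit 120692) (nat_lit 13) (node (nat_lit 4) (nat_lit 120692) (nat_lit 14)
  (node (nat_lit 5) (nat_lit 120692) (nat_lit 15) (node (nat_lit 6) (nat_lit 125659) (nat_lit 16)
  nil nil) nil) nil) nil) nil)) (node (nat_lit 5) (nat_lit 120692) (nat_lit 11) nil nil)) (node
  (nat_lit 6) (nat_lit 120692) (nat_lit 10) (node (nat_lit 4) (nat_lit 120692) (nat_lit 11) (node
  (nat_lit 5) (nat_lit 120692) (nat_lit 12) (node (nat_lit 6) (nat_lit 120692) (nat_lit 13) (node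
  (nat_lit 5) (nat_lit 120692) (nat_lit 14) (node (nat_lit 4) (nat_lit 120692) (nat_lit 15) (node
  (nat_lit 5) (nat_lit 124414) (nat_lit 16) (node (nat_lit 6) (nat_lit 127318) (nat_lit 17) nil
  nil) nil) nil) nil) nil) (node (nat_lit 6) (nat_lit 120692) (nat_lit 12) (node (nat_lit 5)
  (nat_lit 120692) (nat_lit 13) (node (nat_lit 4) (nat_lit 120692) (nat_lit 14) (node (nat_lit 5)
  (nat_lit 120692) (nat_lit 15) (node (nat_lit 6) (nat_lit 121677) (nat_lit 16) (node (nat_lit 5)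
  (nat_lit 122445) (nat_lit 17) nil nil) nil) nil) nil) nil) nil)) nil) nil)) (node (nat_lit 4)
  (nat_lit 120692) (nat_lit 9) (node (nat_lit 6) (nat_lit 120692) (nat_lit 10) (node (nat_lit 5)
  (nat_lit 120692) (nat_lit 11) (node (nat_lit 4) (nat_lit 120692) (nat_lit 12) (node (nat_lit 6)
  (nat_lit 120692) (nat_lit 13) (node (nat_lit 4) (nat_lit 120692) (nat_lit 14) (node (nat_lit 5)
  (nat_lit 120692) (nat_lit 15) (node (nat_lit 6) (nat_lit 125874) (nat_lit 16) nil nil) nil) nil)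
  (node (nat_lit 5) (nat_lit 120692) (nat_lit 13) nil nil)) (node (nat_lit 6) (nat_lit 120692)
  (nat_lit 12) (node (nat_lit 4) (nat_lit 120692) (nat_lit 13) (node (nat_lit 5) (nat_lit 120692)
  (nat_lit 14) (node (nat_lit 6) (nat_lit 120692) (nat_lit 15) (node (nat_lit 5) (nat_lit 123531)
  (nat_lit 16) nil nil) nil) nil) nil) nil)) (node (nat_lit 4) (nat_lit 120692) (nat_lit 11) (node
  (nat_lit 5) (nat_lit 120692) (nat_lit 12) (node (nat_lit 6) (nat_lit 120692) (nat_lit 13) (node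
  (nat_lit 5) (nat_lit 120692) (nat_lit 14) (node (nat_lit 4) (nat_lit 120692) (nat_lit 15) (node
  (nat_lit 5) (nat_lit 124588) (nat_lit 16) (node (nat_lit 6) (nat_lit 126613) (nat_lit 17) nil
  nil) nil) nil) nil) nil) nil) nil)) (node (nat_lit 5) (nat_lit 120692) (nat_lit 10) (node
  (nat_lit 6) (nat_lit 120692) (nat_lit 11) nil (node (nat_lit 4) (nat_lit 120692) (nat_lit 11)
  nil nil)) nil)) nil))) nil)) nil) nil)) nil) nil)) (node (nat_lit 4) (nat_lit 0) (nat_lit 3)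
  (node (nat_lit 3) (nat_lit 0) (nat_lit 4) (node (nat_lit 5) (nat_lit 0) (nat_lit 5) (node
  (nat_lit 7) (nat_lit 0) (nat_lit 6) (node (nat_lit 4) (nat_lit 0) (nat_lit 7) t230 nil) (node
  (nat_lit 4) (nat_lit 0) (nat_lit 6) (node (nat_lit 5) (nat_lit 0) (nat_lit 7) (node (nat_lit 7)
  (nat_lit 0) (nat_lit 8) (node (nat_lit 0) (nat_lit 0) (nat_lit 9) (node (nat_lit 4) (nat_lit
  127642) (nat_lit 10) (node (nat_lit 7) (nat_lit 127642) (nat_lit 11) (node (nat_lit 4) (nat_lit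
  127642) (nat_lit 12) (node (nat_lit 5) (nat_lit 127642) (nat_lit 13) (node (nat_lit 4) (nat_lit
  127642) (nat_lit 14) (node (nat_lit 7) (nat_lit 127642) (nat_lit 15) (node (nat_lit 5) (nat_lit
  127642) (nat_lit 16) (node (nat_lit 4) (nat_lit 129818) (nat_lit 17) (node (nat_lit 5) (nat_lit
  132388) (nat_lit 18) (node (nat_lit 7) (nat_lit 133975) (nat_lit 19) nil nil) nil) nil) nil)
  nil) (node (nat_lit 7) (nat_lit 127642) (nat_lit 14) (node (nat_lit 5) (nat_lit 127642) (nat_lit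
  15) nil (node (nat_lit 4) (nat_lit 127642) (nat_lit 15) nil nil)) nil)) nil) (node (nat_lit 5)
  (nat_lit 127642) (nat_lit 12) (node (nat_lit 4) (nat_lit 127642) (nat_lit 13) (node (nat_lit 5)
  (nat_lit 127642) (nat_lit 14) nil nil) (node (nat_lit 7) (nat_lit 127642) (nat_lit 13) (node
  (nat_lit 4) (nat_lit 127642) (nat_lit 14) nil nil) nil)) (node (nat_lit 12) (nat_lit 131447)
  (nat_lit 12) nil nil))) (node (nat_lit 5) (nat_lit 127642) (nat_lit 11) (node (nat_lit 7)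
  (nat_lit 127642) (nat_lit 12) (node (nat_lit 4) (nat_lit 127642) (nat_lit 13) (node (nat_lit 5)
  (nat_lit 127642) (nat_lit 14) (node (nat_lit 4) (nat_lit 127642) (nat_lit 15) (node (nat_lit 7)
  (nat_lit 127494) (nat_lit 16) (node (nat_lit 5) (nat_lit 131747) (nat_lit 17) (node (nat_lit 4)
  (nat_lit 135059) (nat_lit 18) nil nil) nil) nil) nil) (node (nat_lit 7) (nat_lit 127642)
  (nat_lit 14) nil nil)) (node (nat_lit 5) (nat_lit 127642) (nat_lit 13) (node (nat_lit 4)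
  (nat_lit 127642) (nat_lit 14) nil nil) nil)) (node (nat_lit 4) (nat_lit 127642) (nat_lit 12)
  (node (nat_lit 7) (nat_lit 127642) (nat_lit 13) (node (nat_lit 5) (nat_lit 127642) (nat_lit 14)
  nil (node (nat_lit 4) (nat_lit 127642) (nat_lit 14) nil nil)) nil) nil)) (node (nat_lit 12)
  (nat_lit 133470) (nat_lit 11) (node (nat_lit 7) (nat_lit 133470) (nat_lit 12) (node (nat_lit 4)
  (nat_lit 133470) (nat_lit 13) (node (nat_lit 5) (nat_lit 133470) (nat_lit 14) (node (nat_lit 4)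
  (nat_lit 133470) (nat_lit 15) (node (nat_lit 7) (nat_lit 133470) (nat_lit 16) (node (nat_lit 5)
  (nat_lit 133470) (nat_lit 17) (node (nat_lit 4) (nat_lit 133470) (nat_lit 18) (node (nat_lit 5)
  (nat_lit 135464) (nat_lit 19) (node (nat_lit 7) (nat_lit 136418) (nat_lit 20) nil nil) nil) nil)
  nil) nil) nil) nil) nil) nil) nil))) (node (nat_lit 5) (nat_lit 127642) (nat_lit 10) (node
  (nat_lit 7) (nat_lit 127642) (nat_lit 11) (node (nat_lit 5) (nat_lit 127642) (nat_lit 12) (node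
  (nat_lit 4) (nat_lit 127642) (nat_lit 13) (node (nat_lit 7) (nat_lit 127642) (nat_lit 14) (node
  (nat_lit 4) (nat_lit 127642) (nat_lit 15) (node (nat_lit 5) (nat_lit 127642) (nat_lit 16) (node
  (nat_lit 4) (nat_lit 131507) (nat_lit 17) (node (nat_lit 7) (nat_lit 133204) (nat_lit 18) (node
  (nat_lit 5) (nat_lit 134955) (nat_lit 19) nil nil) nil) nil) nil) (node (nat_lit 5) (nat_lit
  127642) (nat_lit 15) nil nil)) (node (nat_lit 5) (nat_lit 127642) (nat_lit 14) (node (nat_lit 7)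
  (nat_lit 127642) (nat_lit 15) nil nil) nil)) nil) (node (nat_lit 4) (nat_lit 127642) (nat_lit
  12) (node (nat_lit 5) (nat_lit 127642) (nat_lit 13) (node (nat_lit 4) (nat_lit 127642) (nat_lit
  14) (node (nat_lit 7) (nat_lit 127642) (nat_lit 15) (node (nat_lit 5) (nat_lit 127642) (nat_lit
  16) (node (nat_lit 4) (nat_lit 131940) (nat_lit 17) nil nil) nil) nil) nil) (node (nat_lit 7)
  (nat_lit 127642) (nat_lit 13) nil nil)) nil)) (node (nat_lit 4) (nat_lit 127642) (nat_lit 11)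
  (node (nat_lit 7) (nat_lit 127642) (nat_lit 12) (node (nat_lit 4) (nat_lit 127642) (nat_lit 13)
  (node (nat_lit 5) (nat_lit 127642) (nat_lit 14) (node (nat_lit 4) (nat_lit 127642) (nat_lit 15)
  (node (nat_lit 7) (nat_lit 127642) (nat_lit 16) (node (nat_lit 5) (nat_lit 131507) (nat_lit 17)
  nil nil) nil) nil) nil) (node (nat_lit 5) (nat_lit 127642) (nat_lit 13) nil nil)) (node (nat_lit
  5) (nat_lit 127642) (nat_lit 12) (node (nat_lit 7) (nat_lit 127642) (nat_lit 13) (node (nat_lit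
  4) (nat_lit 127642) (nat_lit 14) nil (node (nat_lit 5) (nat_lit 127642) (nat_lit 14) nil nil))
  nil) nil)) (node (nat_lit 12) (nat_lit 130477) (nat_lit 11) nil nil))) (node (nat_lit 7)
  (nat_lit 0) (nat_lit 10) (node (nat_lit 5) (nat_lit 127642) (nat_lit 11) (node (nat_lit 7)
  (nat_lit 127642) (nat_lit 12) (node (nat_lit 4) (nat_lit 127642) (nat_lit 13) (node (nat_lit 5)
  (nat_lit 127642) (nat_lit 14) (node (nat_lit 4) (nat_lit 127642) (nat_lit 15) (node (nat_lit 7)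
  (nat_lit 127642) (nat_lit 16) (node (nat_lit 5) (nat_lit 131271) (nat_lit 17) nil nil) nil) nil)
  (node (nat_lit 7) (nat_lit 127642) (nat_lit 14) nil nil)) nil) (node (nat_lit 4) (nat_lit
  127642) (nat_lit 12) (node (nat_lit 5) (nat_lit 127642) (nat_lit 13) nil nil) nil)) (node
  (nat_lit 4) (nat_lit 127642) (nat_lit 11) (node (nat_lit 5) (nat_lit 127642) (nat_lit 12) (node
  (nat_lit 4) (nat_lit 127642) (nat_lit 13) (node (nat_lit 7) (nat_lit 127642) (nat_lit 14) (node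
  (nat_lit 5) (nat_lit 127642) (nat_lit 15) (node (nat_lit 4) (nat_lit 127642) (nat_lit 16) (node
  (nat_lit 5) (nat_lit 130915) (nat_lit 17) (node (nat_lit 7) (nat_lit 133470) (nat_lit 18) nil
  nil) nil) nil) nil) nil) nil) (node (nat_lit 7) (nat_lit 127642) (nat_lit 12) (node (nat_lit 5)
  (nat_lit 127642) (nat_lit 13) nil nil) nil)) (node (nat_lit 0) (nat_lit 130477) (nat_lit 11) nil
  nil))) (node (nat_lit 0) (nat_lit 132531) (nat_lit 10) nil nil)))) (node (nat_lit 4) (nat_lit 0)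
  (nat_lit 9) (node (nat_lit 0) (nat_lit 0) (nat_lit 10) (node (nat_lit 4) (nat_lit 0) (nat_lit
  11) (node (nat_lit 5) (nat_lit 133945) (nat_lit 12) (node (nat_lit 7) (nat_lit 133945) (nat_lit
  13) (node (nat_lit 4) (nat_lit 133945) (nat_lit 14) (node (nat_lit 5) (nat_lit 133945) (nat_lit
  15) (node (nat_lit 4) (nat_lit 133945) (nat_lit 16) (node (nat_lit 7) (nat_lit 133835) (nat_lit
  17) (node (nat_lit 5) (nat_lit 137155) (nat_lit 18) nil nil) nil) nil) (node (nat_lit 7)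
  (nat_lit 133945) (nat_lit 15) nil nil)) (node (nat_lit 5) (nat_lit 133945) (nat_lit 14) nil
  nil)) (node (nat_lit 4) (nat_lit 133945) (nat_lit 13) (node (nat_lit 7) (nat_lit 133945)
  (nat_lit 14) (node (nat_lit 5) (nat_lit 133945) (nat_lit 15) nil nil) nil) nil)) (node (nat_lit
  7) (nat_lit 133945) (nat_lit 12) (node (nat_lit 5) (nat_lit 133945) (nat_lit 13) (node (nat_lit
  4) (nat_lit 133945) (nat_lit 14) nil (node (nat_lit 7) (nat_lit 133945) (nat_lit 14) (node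
  (nat_lit 4) (nat_lit 133945) (nat_lit 15) nil nil) nil)) (node (nat_lit 4) (nat_lit 133945)
  (nat_lit 13) (node (nat_lit 5) (nat_lit 133945) (nat_lit 14) (node (nat_lit 7) (nat_lit 133945)
  (nat_lit 15) nil nil) nil) nil)) (node (nat_lit 0) (nat_lit 136157) (nat_lit 12) nil nil)))
  (node (nat_lit 7) (nat_lit 133945) (nat_lit 11) (node (nat_lit 4) (nat_lit 133945) (nat_lit 12)
  nil nil) (node (nat_lit 5) (nat_lit 133945) (nat_lit 11) nil (node (nat_lit 0) (nat_lit 136499)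
  (nat_lit 11) nil nil)))) (node (nat_lit 7) (nat_lit 0) (nat_lit 10) (node (nat_lit 0) (nat_lit
  135193) (nat_lit 11) (node (nat_lit 4) (nat_lit 135193) (nat_lit 12) (node (nat_lit 7) (nat_lit
  135193) (nat_lit 13) (node (nat_lit 4) (nat_lit 135193) (nat_lit 14) (node (nat_lit 5) (nat_lit
  135193) (nat_lit 15) (node (nat_lit 4) (nat_lit 135193) (nat_lit 16) (node (nat_lit 7) (nat_lit
  135193) (nat_lit 17) (node (nat_lit 5) (nat_lit 135193) (nat_lit 18) (node (nat_lit 4) (nat_lit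
  136517) (nat_lit 19) (node (nat_lit 5) (nat_lit 138039) (nat_lit 20) (node (nat_lit 7) (nat_lit
  138039) (nat_lit 21) nil nil) nil) nil) nil) nil) (node (nat_lit 7) (nat_lit 135193) (nat_lit
  16) nil nil)) nil) (node (nat_lit 5) (nat_lit 135193) (nat_lit 14) (node (nat_lit 4) (nat_lit
  135193) (nat_lit 15) nil (node (nat_lit 7) (nat_lit 135193) (nat_lit 15) nil nil)) nil)) nil)
  (node (nat_lit 7) (nat_lit 135193) (nat_lit 12) nil nil)) nil) (node (nat_lit 5) (nat_lit 0)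
  (nat_lit 10) (node (nat_lit 0) (nat_lit 119198) (nat_lit 11) (node (nat_lit 4) (nat_lit 119198)
  (nat_lit 12) (node (nat_lit 5) (nat_lit 119198) (nat_lit 13) nil nil) nil) nil) nil))) (node
  (nat_lit 5) (nat_lit 0) (nat_lit 9) (node (nat_lit 0) (nat_lit 131613) (nat_lit 10) (node
  (nat_lit 5) (nat_lit 0) (nat_lit 11) (node (nat_lit 4) (nat_lit 131613) (nat_lit 12) (node
  (nat_lit 7) (nat_lit 131613) (nat_lit 13) (node (nat_lit 4) (nat_lit 131613) (nat_lit 14) (node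
  (nat_lit 5) (nat_lit 131613) (nat_lit 15) (node (nat_lit 4) (nat_lit 131613) (nat_lit 16) (node
  (nat_lit 7) (nat_lit 131857) (nat_lit 17) (node (nat_lit 5) (nat_lit 134603) (nat_lit 18) nil
  nil) nil) nil) nil) (node (nat_lit 5) (nat_lit 131613) (nat_lit 14) nil nil)) (node (nat_lit 5)
  (nat_lit 131613) (nat_lit 13) nil nil)) (node (nat_lit 7) (nat_lit 131613) (nat_lit 12) (node
  (nat_lit 4) (nat_lit 131613) (nat_lit 13) (node (nat_lit 5) (nat_lit 131613) (nat_lit 14) (node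
  (nat_lit 4) (nat_lit 131613) (nat_lit 15) (node (nat_lit 7) (nat_lit 131613) (nat_lit 16) (node
  (nat_lit 5) (nat_lit 131613) (nat_lit 17) (node (nat_lit 4) (nat_lit 134967) (nat_lit 18) nil
  nil) nil) nil) nil) nil) nil) (node (nat_lit 0) (nat_lit 133826) (nat_lit 12) nil nil))) (node
  (nat_lit 7) (nat_lit 131613) (nat_lit 11) nil nil)) (node (nat_lit 4) (nat_lit 0) (nat_lit 10)
  (node (nat_lit 0) (nat_lit 132991) (nat_lit 11) (node (nat_lit 5) (nat_lit 132991) (nat_lit 12)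
  (node (nat_lit 4) (nat_lit 132991) (nat_lit 13) nil nil) nil) nil) nil)) nil))) (node (nat_lit
  0) (nat_lit 0) (nat_lit 8) (node (nat_lit 7) (nat_lit 122978) (nat_lit 9) (node (nat_lit 5)
  (nat_lit 122978) (nat_lit 10) (node (nat_lit 4) (nat_lit 122978) (nat_lit 11) (node (nat_lit 7)
  (nat_lit 122978) (nat_lit 12) (node (nat_lit 4) (nat_lit 122978) (nat_lit 13) (node (nat_lit 5)
  (nat_lit 122978) (nat_lit 14) (node (nat_lit 4) (nat_lit 123377) (nat_lit 15) (node (nat_lit 7)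
  (nat_lit 124635) (nat_lit 16) nil nil) nil) nil) nil) (node (nat_lit 5) (nat_lit 122978)
  (nat_lit 12) (node (nat_lit 7) (nat_lit 122978) (nat_lit 13) (node (nat_lit 4) (nat_lit 122978)
  (nat_lit 14) (node (nat_lit 5) (nat_lit 123166) (nat_lit 15) (node (nat_lit 4) (nat_lit 126618)
  (nat_lit 16) nil nil) nil) nil) nil) nil)) (node (nat_lit 7) (nat_lit 122978) (nat_lit 11) (node
  (nat_lit 4) (nat_lit 122978) (nat_lit 12) (node (nat_lit 5) (nat_lit 122978) (nat_lit 13) (node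
  (nat_lit 4) (nat_lit 122978) (nat_lit 14) (node (nat_lit 7) (nat_lit 123377) (nat_lit 15) (node
  (nat_lit 5) (nat_lit 126941) (nat_lit 16) (node (nat_lit 4) (nat_lit 130196) (nat_lit 17) (node
  (nat_lit 5) (nat_lit 129601) (nat_lit 18) nil nil) nil) nil) nil) nil) nil) nil) nil)) (node
  (nat_lit 4) (nat_lit 122978) (nat_lit 10) (node (nat_lit 5) (nat_lit 122978) (nat_lit 11) (node
  (nat_lit 7) (nat_lit 122978) (nat_lit 12) (node (nat_lit 5) (nat_lit 122978) (nat_lit 13) (node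
  (nat_lit 4) (nat_lit 122978) (nat_lit 14) nil nil) (node (nat_lit 4) (nat_lit 122978) (nat_lit
  13) nil nil)) (node (nat_lit 4) (nat_lit 122978) (nat_lit 12) (node (nat_lit 7) (nat_lit 122978)
  (nat_lit 13) (node (nat_lit 5) (nat_lit 122978) (nat_lit 14) (node (nat_lit 4) (nat_lit 122978)
  (nat_lit 15) (node (nat_lit 5) (nat_lit 120780) (nat_lit 16) nil nil) nil) nil) nil) nil)) (node
  (nat_lit 7) (nat_lit 122978) (nat_lit 11) (node (nat_lit 5) (nat_lit 122978) (nat_lit 12) nil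
  nil) nil)) (node (nat_lit 11) (nat_lit 129354) (nat_lit 10) nil nil))) (node (nat_lit 4)
  (nat_lit 122807) (nat_lit 9) (node (nat_lit 7) (nat_lit 122921) (nat_lit 10) (node (nat_lit 5)
  (nat_lit 122921) (nat_lit 11) (node (nat_lit 7) (nat_lit 122921) (nat_lit 12) (node (nat_lit 4)
  (nat_lit 122921) (nat_lit 13) (node (nat_lit 5) (nat_lit 122921) (nat_lit 14) (node (nat_lit 4)
  (nat_lit 122921) (nat_lit 15) (node (nat_lit 7) (nat_lit 128289) (nat_lit 16) (node (nat_lit 5)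
  (nat_lit 127844) (nat_lit 17) (node (nat_lit 4) (nat_lit 128107) (nat_lit 18) nil nil) nil) nil)
  nil) nil) nil) (node (nat_lit 4) (nat_lit 122921) (nat_lit 12) (node (nat_lit 5) (nat_lit
  122921) (nat_lit 13) (node (nat_lit 7) (nat_lit 122921) (nat_lit 14) nil nil) nil) nil)) (node
  (nat_lit 4) (nat_lit 122921) (nat_lit 11) (node (nat_lit 5) (nat_lit 122921) (nat_lit 12) (node
  (nat_lit 4) (nat_lit 122921) (nat_lit 13) (node (nat_lit 7) (nat_lit 122921) (nat_lit 14) (node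
  (nat_lit 5) (nat_lit 123320) (nat_lit 15) (node (nat_lit 4) (nat_lit 124578) (nat_lit 16) (node
  (nat_lit 5) (nat_lit 126951) (nat_lit 17) nil nil) nil) nil) nil) nil) nil) nil)) (node (nat_lit
  5) (nat_lit 123340) (nat_lit 10) (node (nat_lit 7) (nat_lit 123562) (nat_lit 11) (node (nat_lit
  4) (nat_lit 123653) (nat_lit 12) (node (nat_lit 5) (nat_lit 123653) (nat_lit 13) (node (nat_lit
  4) (nat_lit 123653) (nat_lit 14) (node (nat_lit 7) (nat_lit 123457) (nat_lit 15) (node (nat_lit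
  5) (nat_lit 127824) (nat_lit 16) nil nil) nil) nil) (node (nat_lit 7) (nat_lit 123653) (nat_lit
  13) nil nil)) (node (nat_lit 5) (nat_lit 123562) (nat_lit 12) (node (nat_lit 4) (nat_lit 123562)
  (nat_lit 13) (node (nat_lit 7) (nat_lit 123562) (nat_lit 14) (node (nat_lit 4) (nat_lit 123223)
  (nat_lit 15) (node (nat_lit 5) (nat_lit 126593) (nat_lit 16) nil nil) nil) nil) nil) nil)) (node
  (nat_lit 4) (nat_lit 123411) (nat_lit 11) (node (nat_lit 7) (nat_lit 123411) (nat_lit 12) nil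
  nil) nil)) nil)) (node (nat_lit 5) (nat_lit 123088) (nat_lit 9) (node (nat_lit 7) (nat_lit
  123526) (nat_lit 10) (node (nat_lit 4) (nat_lit 123617) (nat_lit 11) (node (nat_lit 5) (nat_lit
  123617) (nat_lit 12) (node (nat_lit 4) (nat_lit 123617) (nat_lit 13) (node (nat_lit 7) (nat_lit
  123617) (nat_lit 14) (node (nat_lit 5) (nat_lit 123617) (nat_lit 15) (node (nat_lit 4) (nat_lit
  127934) (nat_lit 16) (node (nat_lit 5) (nat_lit 127157) (nat_lit 17) (node (nat_lit 11) (nat_lit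
  22609) (nat_lit 18) nil nil) nil) nil) nil) nil) nil) (node (nat_lit 7) (nat_lit 123617)
  (nat_lit 12) (node (nat_lit 5) (nat_lit 123617) (nat_lit 13) (node (nat_lit 4) (nat_lit 123617)
  (nat_lit 14) nil nil) nil) nil)) (node (nat_lit 5) (nat_lit 123526) (nat_lit 11) (node (nat_lit
  4) (nat_lit 123526) (nat_lit 12) nil nil) nil)) (node (nat_lit 4) (nat_lit 123389) (nat_lit 10)
  (node (nat_lit 7) (nat_lit 123389) (nat_lit 11) (node (nat_lit 4) (nat_lit 123389) (nat_lit 12)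
  (node (nat_lit 5) (nat_lit 123389) (nat_lit 13) (node (nat_lit 4) (nat_lit 123389) (nat_lit 14)
  (node (nat_lit 7) (nat_lit 123606) (nat_lit 15) (node (nat_lit 5) (nat_lit 127210) (nat_lit 16)
  (node (nat_lit 4) (nat_lit 127989) (nat_lit 17) (node (nat_lit 5) (nat_lit 127394) (nat_lit 18)
  nil nil) nil) nil) nil) (node (nat_lit 7) (nat_lit 123389) (nat_lit 14) nil nil)) nil) (node
  (nat_lit 5) (nat_lit 123389) (nat_lit 12) (node (nat_lit 7) (nat_lit 123389) (nat_lit 13) (node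
  (nat_lit 4) (nat_lit 123389) (nat_lit 14) nil nil) (node (nat_lit 4) (nat_lit 123389) (nat_lit
  13) nil nil)) nil)) (node (nat_lit 5) (nat_lit 123389) (nat_lit 11) (node (nat_lit 7) (nat_lit
  123389) (nat_lit 12) nil nil) nil)) nil)) (node (nat_lit 0) (nat_lit 123791) (nat_lit 9) nil
  nil)))) nil)) nil) nil)) (node (nat_lit 4) (nat_lit 0) (nat_lit 5) (node (nat_lit 5) (nat_lit 0)
  (nat_lit 6) (node (nat_lit 7) (nat_lit 0) (nat_lit 7) t231 nil) nil) nil)) nil) nil))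

noncomputable def c79 : Tr :=
  (node (nat_lit 3) (nat_lit 0) (nat_lit 1) (node (nat_lit 3) (nat_lit 0) (nat_lit 2) t232 nil)
  nil)

noncomputable def t233 : Tr :=
  (node (nat_lit 0) (nat_lit 0) (nat_lit 6) (node (nat_lit 4) (nat_lit 0) (nat_lit 7) (node
  (nat_lit 5) (nat_lit 0) (nat_lit 8) (node (nat_lit 6) (nat_lit 58057) (nat_lit 9) (node (nat_lit
  4) (nat_lit 58057) (nat_lit 10) (node (nat_lit 6) (nat_lit 58057) (nat_lit 11) (node (nat_lit 5)
  (nat_lit 58057) (nat_lit 12) (node (nat_lit 4) (nat_lit 58057) (nat_lit 13) (node (nat_lit 5)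
  (nat_lit 61900) (nat_lit 14) (node (nat_lit 6) (nat_lit 64900) (nat_lit 15) (node (nat_lit 4)
  (nat_lit 65654) (nat_lit 16) nil nil) nil) nil) (node (nat_lit 6) (nat_lit 58057) (nat_lit 13)
  nil nil)) nil) (node (nat_lit 5) (nat_lit 58057) (nat_lit 11) (node (nat_lit 4) (nat_lit 58057)
  (nat_lit 12) (node (nat_lit 6) (nat_lit 58057) (nat_lit 13) nil nil) nil) nil)) (node (nat_lit
  5) (nat_lit 58280) (nat_lit 10) (node (nat_lit 4) (nat_lit 58421) (nat_lit 11) (node (nat_lit 6)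
  (nat_lit 58421) (nat_lit 12) (node (nat_lit 5) (nat_lit 58421) (nat_lit 13) nil (node (nat_lit
  4) (nat_lit 58421) (nat_lit 13) nil nil)) (node (nat_lit 5) (nat_lit 58421) (nat_lit 12) (node
  (nat_lit 6) (nat_lit 58421) (nat_lit 13) (node (nat_lit 4) (nat_lit 61284) (nat_lit 14) (node
  (nat_lit 5) (nat_lit 62247) (nat_lit 15) nil nil) nil) nil) nil)) nil) nil)) (node (nat_lit 4)
  (nat_lit 58574) (nat_lit 9) (node (nat_lit 6) (nat_lit 58825) (nat_lit 10) (node (nat_lit 5)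
  (nat_lit 58825) (nat_lit 11) (node (nat_lit 6) (nat_lit 58825) (nat_lit 12) (node (nat_lit 4)
  (nat_lit 58825) (nat_lit 13) (node (nat_lit 5) (nat_lit 59854) (nat_lit 14) nil (node (nat_lit
  6) (nat_lit 60351) (nat_lit 14) nil nil)) nil) (node (nat_lit 4) (nat_lit 58825) (nat_lit 12)
  (node (nat_lit 5) (nat_lit 58948) (nat_lit 13) (node (nat_lit 6) (nat_lit 61961) (nat_lit 14)
  (node (nat_lit 4) (nat_lit 64363) (nat_lit 15) nil nil) nil) nil) nil)) (node (nat_lit 4)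
  (nat_lit 58825) (nat_lit 11) (node (nat_lit 5) (nat_lit 58825) (nat_lit 12) (node (nat_lit 6)
  (nat_lit 58847) (nat_lit 13) (node (nat_lit 5) (nat_lit 61627) (nat_lit 14) nil (node (nat_lit
  4) (nat_lit 59746) (nat_lit 14) nil nil)) (node (nat_lit 4) (nat_lit 58825) (nat_lit 13) nil
  nil)) nil) (node (nat_lit 9) (nat_lit 61735) (nat_lit 11) nil nil))) (node (nat_lit 9) (nat_lit
  66914) (nat_lit 10) nil (node (nat_lit 0) (nat_lit 62943) (nat_lit 10) nil nil))) (node (nat_lit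
  0) (nat_lit 60292) (nat_lit 9) nil nil))) (node (nat_lit 6) (nat_lit 58151) (nat_lit 8) (node
  (nat_lit 5) (nat_lit 58151) (nat_lit 9) (node (nat_lit 4) (nat_lit 58151) (nat_lit 10) (node
  (nat_lit 6) (nat_lit 58151) (nat_lit 11) (node (nat_lit 4) (nat_lit 58151) (nat_lit 12) (node
  (nat_lit 5) (nat_lit 58151) (nat_lit 13) (node (nat_lit 6) (nat_lit 55901) (nat_lit 14) nil nil)
  nil) nil) (node (nat_lit 5) (nat_lit 58151) (nat_lit 11) (node (nat_lit 6) (nat_lit 58151)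
  (nat_lit 12) (node (nat_lit 4) (nat_lit 58151) (nat_lit 13) nil nil) nil) nil)) (node (nat_lit
  6) (nat_lit 58151) (nat_lit 10) (node (nat_lit 4) (nat_lit 58151) (nat_lit 11) (node (nat_lit 5)
  (nat_lit 58151) (nat_lit 12) (node (nat_lit 4) (nat_lit 58151) (nat_lit 13) nil nil) (node
  (nat_lit 6) (nat_lit 58151) (nat_lit 12) (node (nat_lit 5) (nat_lit 58151) (nat_lit 13) (node
  (nat_lit 4) (nat_lit 60895) (nat_lit 14) nil nil) nil) nil)) nil) nil)) (node (nat_lit 4)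
  (nat_lit 58320) (nat_lit 9) (node (nat_lit 5) (nat_lit 58320) (nat_lit 10) (node (nat_lit 6)
  (nat_lit 58320) (nat_lit 11) (node (nat_lit 5) (nat_lit 58320) (nat_lit 12) (node (nat_lit 4)
  (nat_lit 58388) (nat_lit 13) (node (nat_lit 5) (nat_lit 61044) (nat_lit 14) (node (nat_lit 6)
  (nat_lit 62008) (nat_lit 15) (node (nat_lit 4) (nat_lit 63201) (nat_lit 16) (node (nat_lit 5)
  (nat_lit 63788) (nat_lit 17) nil nil) nil) nil) (node (nat_lit 6) (nat_lit 59913) (nat_lit 14)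
  nil nil)) nil) (node (nat_lit 4) (nat_lit 58320) (nat_lit 12) (node (nat_lit 6) (nat_lit 58320)
  (nat_lit 13) nil nil) nil)) (node (nat_lit 4) (nat_lit 58320) (nat_lit 11) (node (nat_lit 6)
  (nat_lit 58320) (nat_lit 12) (node (nat_lit 5) (nat_lit 58320) (nat_lit 13) nil nil) nil) nil))
  nil) (node (nat_lit 9) (nat_lit 66222) (nat_lit 9) nil nil))) (node (nat_lit 9) (nat_lit 66928)
  (nat_lit 8) (node (nat_lit 5) (nat_lit 66928) (nat_lit 9) (node (nat_lit 4) (nat_lit 66928)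
  (nat_lit 10) (node (nat_lit 5) (nat_lit 66928) (nat_lit 11) (node (nat_lit 6) (nat_lit 66928)
  (nat_lit 12) nil nil) (node (nat_lit 6) (nat_lit 66928) (nat_lit 11) (node (nat_lit 5) (nat_lit
  66928) (nat_lit 12) nil nil) nil)) (node (nat_lit 6) (nat_lit 66928) (nat_lit 10) nil nil))
  (node (nat_lit 6) (nat_lit 66928) (nat_lit 9) (node (nat_lit 4) (nat_lit 66928) (nat_lit 10)
  (node (nat_lit 6) (nat_lit 66928) (nat_lit 11) (node (nat_lit 5) (nat_lit 66928) (nat_lit 12)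
  (node (nat_lit 4) (nat_lit 66928) (nat_lit 13) (node (nat_lit 5) (nat_lit 66928) (nat_lit 14)
  (node (nat_lit 6) (nat_lit 66928) (nat_lit 15) (node (nat_lit 4) (nat_lit 67905) (nat_lit 16)
  nil nil) nil) nil) nil) nil) (node (nat_lit 5) (nat_lit 66928) (nat_lit 11) nil nil)) nil) nil))
  (node (nat_lit 0) (nat_lit 63718) (nat_lit 8) nil nil)))) (node (nat_lit 6) (nat_lit 0) (nat_lit
  7) (node (nat_lit 4) (nat_lit 58159) (nat_lit 8) (node (nat_lit 5) (nat_lit 58115) (nat_lit 9)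
  (node (nat_lit 6) (nat_lit 58188) (nat_lit 10) (node (nat_lit 4) (nat_lit 58188) (nat_lit 11)
  (node (nat_lit 6) (nat_lit 58188) (nat_lit 12) (node (nat_lit 5) (nat_lit 58188) (nat_lit 13)
  (node (nat_lit 4) (nat_lit 60863) (nat_lit 14) (node (nat_lit 5) (nat_lit 63417) (nat_lit 15)
  (node (nat_lit 6) (nat_lit 65454) (nat_lit 16) (node (nat_lit 4) (nat_lit 66174) (nat_lit 17)
  nil nil) nil) nil) (node (nat_lit 6) (nat_lit 59087) (nat_lit 14) nil nil)) nil) nil) (node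
  (nat_lit 5) (nat_lit 58188) (nat_lit 11) (node (nat_lit 4) (nat_lit 58188) (nat_lit 12) (node
  (nat_lit 5) (nat_lit 58413) (nat_lit 13) (node (nat_lit 6) (nat_lit 59689) (nat_lit 14) (node
  (nat_lit 4) (nat_lit 61217) (nat_lit 15) (node (nat_lit 5) (nat_lit 61969) (nat_lit 16) nil nil)
  nil) nil) (node (nat_lit 6) (nat_lit 58188) (nat_lit 13) nil nil)) nil) nil)) (node (nat_lit 4)
  (nat_lit 58115) (nat_lit 10) (node (nat_lit 6) (nat_lit 58115) (nat_lit 11) (node (nat_lit 5)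
  (nat_lit 58115) (nat_lit 12) (node (nat_lit 4) (nat_lit 58238) (nat_lit 13) (node (nat_lit 5)
  (nat_lit 60715) (nat_lit 14) (node (nat_lit 6) (nat_lit 62846) (nat_lit 15) (node (nat_lit 4)
  (nat_lit 64414) (nat_lit 16) (node (nat_lit 5) (nat_lit 65921) (nat_lit 17) nil nil) nil) nil)
  nil) (node (nat_lit 6) (nat_lit 58115) (nat_lit 13) (node (nat_lit 4) (nat_lit 59014) (nat_lit
  14) nil nil) nil)) (node (nat_lit 4) (nat_lit 58115) (nat_lit 12) (node (nat_lit 5) (nat_lit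
  58115) (nat_lit 13) nil nil) nil)) nil) nil)) (node (nat_lit 6) (nat_lit 58403) (nat_lit 9)
  (node (nat_lit 5) (nat_lit 58403) (nat_lit 10) (node (nat_lit 4) (nat_lit 58403) (nat_lit 11)
  (node (nat_lit 5) (nat_lit 58403) (nat_lit 12) (node (nat_lit 6) (nat_lit 58458) (nat_lit 13)
  (node (nat_lit 4) (nat_lit 61009) (nat_lit 14) (node (nat_lit 5) (nat_lit 63585) (nat_lit 15)
  nil nil) (node (nat_lit 5) (nat_lit 59357) (nat_lit 14) nil nil)) nil) (node (nat_lit 6)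
  (nat_lit 58403) (nat_lit 12) (node (nat_lit 4) (nat_lit 58403) (nat_lit 13) nil nil) nil)) (node
  (nat_lit 6) (nat_lit 58403) (nat_lit 11) (node (nat_lit 4) (nat_lit 58403) (nat_lit 12) (node
  (nat_lit 5) (nat_lit 58403) (nat_lit 13) nil nil) nil) nil)) nil) (node (nat_lit 9) (nat_lit
  66231) (nat_lit 9) nil nil))) (node (nat_lit 5) (nat_lit 0) (nat_lit 8) (node (nat_lit 6)
  (nat_lit 58183) (nat_lit 9) (node (nat_lit 4) (nat_lit 57943) (nat_lit 10) (node (nat_lit 5)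
  (nat_lit 57970) (nat_lit 11) (node (nat_lit 4) (nat_lit 57970) (nat_lit 12) (node (nat_lit 6)
  (nat_lit 57628) (nat_lit 13) (node (nat_lit 5) (nat_lit 60106) (nat_lit 14) nil (node (nat_lit
  4) (nat_lit 58712) (nat_lit 14) nil nil)) nil) (node (nat_lit 6) (nat_lit 57970) (nat_lit 12)
  (node (nat_lit 5) (nat_lit 57970) (nat_lit 13) (node (nat_lit 4) (nat_lit 58869) (nat_lit 14)
  nil nil) nil) nil)) (node (nat_lit 6) (nat_lit 57924) (nat_lit 11) (node (nat_lit 5) (nat_lit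
  57924) (nat_lit 12) (node (nat_lit 4) (nat_lit 58189) (nat_lit 13) (node (nat_lit 5) (nat_lit
  62036) (nat_lit 14) (node (nat_lit 6) (nat_lit 64888) (nat_lit 15) nil nil) (node (nat_lit 6)
  (nat_lit 59714) (nat_lit 14) nil nil)) (node (nat_lit 6) (nat_lit 57924) (nat_lit 13) nil nil))
  nil) (node (nat_lit 9) (nat_lit 60853) (nat_lit 11) nil nil))) (node (nat_lit 9) (nat_lit 66842)
  (nat_lit 10) nil (node (nat_lit 0) (nat_lit 60759) (nat_lit 10) nil nil))) (node (nat_lit 4)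
  (nat_lit 57948) (nat_lit 9) (node (nat_lit 6) (nat_lit 57948) (nat_lit 10) (node (nat_lit 5)
  (nat_lit 57948) (nat_lit 11) (node (nat_lit 6) (nat_lit 57948) (nat_lit 12) (node (nat_lit 4)
  (nat_lit 57948) (nat_lit 13) nil nil) nil) (node (nat_lit 4) (nat_lit 57948) (nat_lit 11) (node
  (nat_lit 5) (nat_lit 57948) (nat_lit 12) (node (nat_lit 4) (nat_lit 57948) (nat_lit 13) nil
  (node (nat_lit 6) (nat_lit 57948) (nat_lit 13) nil nil)) nil) nil)) (node (nat_lit 5) (nat_lit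
  57948) (nat_lit 10) (node (nat_lit 6) (nat_lit 57948) (nat_lit 11) (node (nat_lit 5) (nat_lit
  57948) (nat_lit 12) nil (node (nat_lit 4) (nat_lit 57948) (nat_lit 12) nil nil)) nil) nil))
  (node (nat_lit 9) (nat_lit 66020) (nat_lit 9) (node (nat_lit 5) (nat_lit 66020) (nat_lit 10) nil
  nil) (node (nat_lit 0) (nat_lit 61592) (nat_lit 9) nil nil)))) (node (nat_lit 9) (nat_lit 66782)
  (nat_lit 8) (node (nat_lit 5) (nat_lit 66782) (nat_lit 9) (node (nat_lit 6) (nat_lit 66782)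
  (nat_lit 10) (node (nat_lit 5) (nat_lit 66782) (nat_lit 11) (node (nat_lit 4) (nat_lit 66782)
  (nat_lit 12) (node (nat_lit 6) (nat_lit 66782) (nat_lit 13) nil nil) nil) (node (nat_lit 4)
  (nat_lit 66782) (nat_lit 11) (node (nat_lit 5) (nat_lit 66782) (nat_lit 12) nil nil) nil)) (node
  (nat_lit 4) (nat_lit 66782) (nat_lit 10) nil (node (nat_lit 9) (nat_lit 67758) (nat_lit 10) nil
  nil))) (node (nat_lit 4) (nat_lit 66782) (nat_lit 9) (node (nat_lit 6) (nat_lit 66782) (nat_lit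
  10) (node (nat_lit 5) (nat_lit 66782) (nat_lit 11) nil (node (nat_lit 4) (nat_lit 66782)
  (nat_lit 11) nil nil)) nil) nil)) (node (nat_lit 0) (nat_lit 63657) (nat_lit 8) nil nil))))
  (node (nat_lit 5) (nat_lit 0) (nat_lit 7) (node (nat_lit 4) (nat_lit 0) (nat_lit 8) (node
  (nat_lit 6) (nat_lit 58643) (nat_lit 9) (node (nat_lit 4) (nat_lit 58643) (nat_lit 10) (node
  (nat_lit 5) (nat_lit 58643) (nat_lit 11) (node (nat_lit 6) (nat_lit 58643) (nat_lit 12) (node
  (nat_lit 5) (nat_lit 58643) (nat_lit 13) (node (nat_lit 4) (nat_lit 61296) (nat_lit 14) (node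
  (nat_lit 5) (nat_lit 62977) (nat_lit 15) (node (nat_lit 6) (nat_lit 63584) (nat_lit 16) nil nil)
  nil) nil) nil) (node (nat_lit 4) (nat_lit 58643) (nat_lit 12) nil nil)) nil) (node (nat_lit 5)
  (nat_lit 58763) (nat_lit 10) (node (nat_lit 6) (nat_lit 58763) (nat_lit 11) (node (nat_lit 4)
  (nat_lit 58763) (nat_lit 12) nil nil) (node (nat_lit 4) (nat_lit 58763) (nat_lit 11) (node
  (nat_lit 5) (nat_lit 58763) (nat_lit 12) (node (nat_lit 6) (nat_lit 58632) (nat_lit 13) (node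
  (nat_lit 4) (nat_lit 61722) (nat_lit 14) (node (nat_lit 5) (nat_lit 64207) (nat_lit 15) nil nil)
  nil) nil) nil) nil)) nil)) (node (nat_lit 5) (nat_lit 58380) (nat_lit 9) (node (nat_lit 6)
  (nat_lit 58380) (nat_lit 10) (node (nat_lit 4) (nat_lit 58380) (nat_lit 11) (node (nat_lit 5)
  (nat_lit 58380) (nat_lit 12) (node (nat_lit 4) (nat_lit 58380) (nat_lit 13) nil nil) (node
  (nat_lit 6) (nat_lit 58380) (nat_lit 12) (node (nat_lit 5) (nat_lit 58380) (nat_lit 13) (node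
  (nat_lit 4) (nat_lit 60860) (nat_lit 14) nil nil) nil) nil)) (node (nat_lit 5) (nat_lit 58380)
  (nat_lit 11) (node (nat_lit 4) (nat_lit 58380) (nat_lit 12) (node (nat_lit 6) (nat_lit 58380)
  (nat_lit 13) nil nil) nil) nil)) (node (nat_lit 9) (nat_lit 67299) (nat_lit 10) nil nil)) (node
  (nat_lit 9) (nat_lit 63606) (nat_lit 9) nil (node (nat_lit 0) (nat_lit 60373) (nat_lit 9) nil
  nil)))) (node (nat_lit 6) (nat_lit 0) (nat_lit 8) (node (nat_lit 4) (nat_lit 58673) (nat_lit 9)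
  (node (nat_lit 5) (nat_lit 58812) (nat_lit 10) (node (nat_lit 4) (nat_lit 58812) (nat_lit 11)
  (node (nat_lit 6) (nat_lit 58812) (nat_lit 12) (node (nat_lit 5) (nat_lit 58812) (nat_lit 13)
  nil nil) nil) (node (nat_lit 6) (nat_lit 58812) (nat_lit 11) (node (nat_lit 5) (nat_lit 58812)
  (nat_lit 12) (node (nat_lit 4) (nat_lit 58812) (nat_lit 13) (node (nat_lit 5) (nat_lit 61988)
  (nat_lit 14) (node (nat_lit 6) (nat_lit 62952) (nat_lit 15) nil nil) nil) nil) nil) nil)) (node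
  (nat_lit 6) (nat_lit 58747) (nat_lit 10) (node (nat_lit 5) (nat_lit 58766) (nat_lit 11) (node
  (nat_lit 4) (nat_lit 58766) (nat_lit 12) (node (nat_lit 5) (nat_lit 58766) (nat_lit 13) (node
  (nat_lit 6) (nat_lit 62502) (nat_lit 14) (node (nat_lit 4) (nat_lit 64529) (nat_lit 15) (node
  (nat_lit 5) (nat_lit 65486) (nat_lit 16) nil nil) nil) nil) nil) (node (nat_lit 6) (nat_lit
  58766) (nat_lit 12) (node (nat_lit 4) (nat_lit 58766) (nat_lit 13) nil nil) nil)) nil) nil))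
  (node (nat_lit 5) (nat_lit 58438) (nat_lit 9) (node (nat_lit 4) (nat_lit 58438) (nat_lit 10)
  (node (nat_lit 6) (nat_lit 58438) (nat_lit 11) (node (nat_lit 4) (nat_lit 58438) (nat_lit 12)
  (node (nat_lit 5) (nat_lit 58438) (nat_lit 13) nil nil) (node (nat_lit 5) (nat_lit 58438)
  (nat_lit 12) (node (nat_lit 6) (nat_lit 58438) (nat_lit 13) nil nil) nil)) (node (nat_lit 5)
  (nat_lit 58438) (nat_lit 11) (node (nat_lit 6) (nat_lit 58438) (nat_lit 12) (node (nat_lit 4)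
  (nat_lit 58438) (nat_lit 13) nil nil) nil) nil)) (node (nat_lit 9) (nat_lit 61014) (nat_lit 10)
  nil nil)) (node (nat_lit 9) (nat_lit 63683) (nat_lit 9) nil (node (nat_lit 0) (nat_lit 60450)
  (nat_lit 9) nil nil)))) (node (nat_lit 0) (nat_lit 63497) (nat_lit 8) (node (nat_lit 5) (nat_lit
  63497) (nat_lit 9) nil nil) nil))) (node (nat_lit 0) (nat_lit 0) (nat_lit 7) (node (nat_lit 9)
  (nat_lit 0) (nat_lit 8) (node (nat_lit 5) (nat_lit 66277) (nat_lit 9) nil (node (nat_lit 6)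
  (nat_lit 66277) (nat_lit 9) nil (node (nat_lit 4) (nat_lit 66277) (nat_lit 9) nil (node (nat_lit
  0) (nat_lit 66825) (nat_lit 9) nil nil)))) (node (nat_lit 5) (nat_lit 63309) (nat_lit 8) (node
  (nat_lit 10) (nat_lit 65428) (nat_lit 9) nil (node (nat_lit 6) (nat_lit 63309) (nat_lit 9) nil
  (node (nat_lit 4) (nat_lit 63309) (nat_lit 9) nil nil))) (node (nat_lit 4) (nat_lit 63309)
  (nat_lit 8) nil (node (nat_lit 6) (nat_lit 63309) (nat_lit 8) nil (node (nat_lit 0) (nat_lit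
  64499) (nat_lit 8) nil nil))))) nil)))) (node (nat_lit 4) (nat_lit 0) (nat_lit 6) (node (nat_lit
  0) (nat_lit 0) (nat_lit 7) (node (nat_lit 4) (nat_lit 0) (nat_lit 8) (node (nat_lit 5) (nat_lit
  60102) (nat_lit 9) (node (nat_lit 6) (nat_lit 60102) (nat_lit 10) (node (nat_lit 4) (nat_lit
  60102) (nat_lit 11) (node (nat_lit 6) (nat_lit 60102) (nat_lit 12) (node (nat_lit 5) (nat_lit
  60102) (nat_lit 13) (node (nat_lit 4) (nat_lit 60102) (nat_lit 14) (node (nat_lit 5) (nat_lit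
  63637) (nat_lit 15) (node (nat_lit 6) (nat_lit 66009) (nat_lit 16) (node (nat_lit 4) (nat_lit
  66119) (nat_lit 17) (node (nat_lit 5) (nat_lit 66568) (nat_lit 18) (node (nat_lit 4) (nat_lit
  66647) (nat_lit 19) nil nil) nil) nil) nil) nil) (node (nat_lit 6) (nat_lit 60102) (nat_lit 14)
  nil nil)) nil) (node (nat_lit 5) (nat_lit 60102) (nat_lit 12) (node (nat_lit 4) (nat_lit 60102)
  (nat_lit 13) (node (nat_lit 6) (nat_lit 60102) (nat_lit 14) nil nil) nil) nil)) (node (nat_lit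
  5) (nat_lit 60102) (nat_lit 11) (node (nat_lit 4) (nat_lit 60102) (nat_lit 12) (node (nat_lit 6)
  (nat_lit 60102) (nat_lit 13) (node (nat_lit 5) (nat_lit 60102) (nat_lit 14) nil (node (nat_lit
  4) (nat_lit 60102) (nat_lit 14) nil nil)) (node (nat_lit 5) (nat_lit 60102) (nat_lit 13) (node
  (nat_lit 6) (nat_lit 60102) (nat_lit 14) (node (nat_lit 4) (nat_lit 62883) (nat_lit 15) (node
  (nat_lit 5) (nat_lit 63934) (nat_lit 16) (node (nat_lit 4) (nat_lit 65311) (nat_lit 17) nil nil)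
  nil) nil) nil) nil)) (node (nat_lit 10) (nat_lit 62374) (nat_lit 12) nil nil)) (node (nat_lit
  10) (nat_lit 66673) (nat_lit 11) nil (node (nat_lit 0) (nat_lit 63513) (nat_lit 11) nil nil))))
  (node (nat_lit 10) (nat_lit 68224) (nat_lit 10) (node (nat_lit 4) (nat_lit 68224) (nat_lit 11)
  (node (nat_lit 10) (nat_lit 68224) (nat_lit 12) nil nil) nil) (node (nat_lit 4) (nat_lit 60102)
  (nat_lit 10) (node (nat_lit 6) (nat_lit 60102) (nat_lit 11) (node (nat_lit 5) (nat_lit 60102)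
  (nat_lit 12) (node (nat_lit 6) (nat_lit 60102) (nat_lit 13) nil nil) (node (nat_lit 4) (nat_lit
  60102) (nat_lit 12) (node (nat_lit 5) (nat_lit 60102) (nat_lit 13) nil nil) nil)) nil) (node
  (nat_lit 0) (nat_lit 65582) (nat_lit 10) nil nil)))) (node (nat_lit 6) (nat_lit 60070) (nat_lit
  9) (node (nat_lit 5) (nat_lit 60117) (nat_lit 10) (node (nat_lit 4) (nat_lit 60117) (nat_lit 11)
  (node (nat_lit 5) (nat_lit 60117) (nat_lit 12) (node (nat_lit 6) (nat_lit 60117) (nat_lit 13)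
  (node (nat_lit 4) (nat_lit 60117) (nat_lit 14) nil (node (nat_lit 5) (nat_lit 60117) (nat_lit
  14) nil nil)) nil) (node (nat_lit 6) (nat_lit 60117) (nat_lit 12) (node (nat_lit 4) (nat_lit
  60117) (nat_lit 13) (node (nat_lit 5) (nat_lit 60117) (nat_lit 14) nil nil) nil) nil)) (node
  (nat_lit 6) (nat_lit 60117) (nat_lit 11) (node (nat_lit 4) (nat_lit 60117) (nat_lit 12) (node
  (nat_lit 5) (nat_lit 60117) (nat_lit 13) (node (nat_lit 4) (nat_lit 60117) (nat_lit 14) nil nil)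
  (node (nat_lit 6) (nat_lit 60117) (nat_lit 13) (node (nat_lit 5) (nat_lit 60117) (nat_lit 14)
  nil nil) nil)) (node (nat_lit 10) (nat_lit 63969) (nat_lit 12) nil nil)) (node (nat_lit 10)
  (nat_lit 66688) (nat_lit 11) nil (node (nat_lit 0) (nat_lit 66688) (nat_lit 11) nil nil))))
  (node (nat_lit 4) (nat_lit 60070) (nat_lit 10) (node (nat_lit 5) (nat_lit 60070) (nat_lit 11)
  (node (nat_lit 4) (nat_lit 60070) (nat_lit 12) (node (nat_lit 6) (nat_lit 60070) (nat_lit 13)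
  nil nil) (node (nat_lit 6) (nat_lit 60070) (nat_lit 12) (node (nat_lit 4) (nat_lit 60070)
  (nat_lit 13) nil (node (nat_lit 5) (nat_lit 60070) (nat_lit 13) nil nil)) nil)) (node (nat_lit
  10) (nat_lit 66641) (nat_lit 11) nil (node (nat_lit 0) (nat_lit 63481) (nat_lit 11) nil nil)))
  (node (nat_lit 10) (nat_lit 67156) (nat_lit 10) nil (node (nat_lit 0) (nat_lit 67156) (nat_lit
  10) nil nil)))) (node (nat_lit 0) (nat_lit 66569) (nat_lit 9) (node (nat_lit 10) (nat_lit 67294)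
  (nat_lit 10) nil (node (nat_lit 4) (nat_lit 66569) (nat_lit 10) nil (node (nat_lit 0) (nat_lit
  66996) (nat_lit 10) nil (node (nat_lit 6) (nat_lit 66569) (nat_lit 10) nil (node (nat_lit 5)
  (nat_lit 66569) (nat_lit 10) nil nil))))) nil))) (node (nat_lit 5) (nat_lit 0) (nat_lit 8) (node
  (nat_lit 10) (nat_lit 66779) (nat_lit 9) (node (nat_lit 4) (nat_lit 66779) (nat_lit 10) (node
  (nat_lit 10) (nat_lit 68070) (nat_lit 11) (node (nat_lit 5) (nat_lit 68070) (nat_lit 12) (node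
  (nat_lit 4) (nat_lit 68070) (nat_lit 13) nil nil) nil) nil) nil) (node (nat_lit 4) (nat_lit
  60089) (nat_lit 9) (node (nat_lit 5) (nat_lit 60127) (nat_lit 10) (node (nat_lit 10) (nat_lit
  66698) (nat_lit 11) (node (nat_lit 4) (nat_lit 66698) (nat_lit 12) nil nil) nil) nil) (node
  (nat_lit 6) (nat_lit 59981) (nat_lit 9) nil (node (nat_lit 0) (nat_lit 62041) (nat_lit 9) nil
  nil)))) (node (nat_lit 6) (nat_lit 60007) (nat_lit 8) (node (nat_lit 4) (nat_lit 60007) (nat_lit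
  9) (node (nat_lit 6) (nat_lit 60007) (nat_lit 10) (node (nat_lit 10) (nat_lit 62018) (nat_lit
  11) nil nil) nil) (node (nat_lit 10) (nat_lit 66078) (nat_lit 9) (node (nat_lit 4) (nat_lit
  66078) (nat_lit 10) nil nil) (node (nat_lit 5) (nat_lit 60007) (nat_lit 9) nil nil))) (node
  (nat_lit 0) (nat_lit 64334) (nat_lit 8) (node (nat_lit 4) (nat_lit 64334) (nat_lit 9) (node
  (nat_lit 10) (nat_lit 65988) (nat_lit 10) nil nil) (node (nat_lit 10) (nat_lit 65263) (nat_lit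
  9) (node (nat_lit 4) (nat_lit 65263) (nat_lit 10) nil nil) nil)) nil)))) (node (nat_lit 6)
  (nat_lit 0) (nat_lit 7) (node (nat_lit 0) (nat_lit 62870) (nat_lit 8) (node (nat_lit 4) (nat_lit
  62870) (nat_lit 9) (node (nat_lit 6) (nat_lit 62870) (nat_lit 10) (node (nat_lit 5) (nat_lit
  62870) (nat_lit 11) (node (nat_lit 4) (nat_lit 62870) (nat_lit 12) (node (nat_lit 5) (nat_lit
  62870) (nat_lit 13) (node (nat_lit 6) (nat_lit 62870) (nat_lit 14) nil nil) (node (nat_lit 6)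
  (nat_lit 62870) (nat_lit 13) nil (node (nat_lit 11) (nat_lit 64643) (nat_lit 13) nil nil)))
  (node (nat_lit 6) (nat_lit 62870) (nat_lit 12) (node (nat_lit 4) (nat_lit 62870) (nat_lit 13)
  nil nil) (node (nat_lit 11) (nat_lit 66777) (nat_lit 12) nil (node (nat_lit 0) (nat_lit 64440)
  (nat_lit 12) nil nil)))) (node (nat_lit 4) (nat_lit 62870) (nat_lit 11) (node (nat_lit 5)
  (nat_lit 62870) (nat_lit 12) (node (nat_lit 6) (nat_lit 62870) (nat_lit 13) (node (nat_lit 5)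
  (nat_lit 62870) (nat_lit 14) nil nil) (node (nat_lit 4) (nat_lit 62870) (nat_lit 13) nil nil))
  (node (nat_lit 11) (nat_lit 68224) (nat_lit 12) nil (node (nat_lit 0) (nat_lit 66777) (nat_lit
  12) nil nil))) (node (nat_lit 0) (nat_lit 68186) (nat_lit 11) nil nil))) nil) (node (nat_lit 6)
  (nat_lit 62870) (nat_lit 9) (node (nat_lit 4) (nat_lit 62870) (nat_lit 10) (node (nat_lit 11)
  (nat_lit 64179) (nat_lit 11) nil nil) nil) nil)) nil) nil)) nil))

noncomputable def t234 : Tr :=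
  (node (nat_lit 4) (nat_lit 0) (nat_lit 7) (node (nat_lit 6) (nat_lit 0) (nat_lit 8) (node
  (nat_lit 4) (nat_lit 104266) (nat_lit 9) (node (nat_lit 5) (nat_lit 104268) (nat_lit 10) (node
  (nat_lit 6) (nat_lit 104268) (nat_lit 11) (node (nat_lit 5) (nat_lit 104268) (nat_lit 12) (node
  (nat_lit 4) (nat_lit 104268) (nat_lit 13) (node (nat_lit 5) (nat_lit 108286) (nat_lit 14) (node
  (nat_lit 6) (nat_lit 110078) (nat_lit 15) (node (nat_lit 4) (nat_lit 111917) (nat_lit 16) (node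
  (nat_lit 6) (nat_lit 113260) (nat_lit 17) nil nil) nil) nil) (node (nat_lit 6) (nat_lit 107581)
  (nat_lit 14) nil nil)) nil) (node (nat_lit 4) (nat_lit 104268) (nat_lit 12) (node (nat_lit 6)
  (nat_lit 104268) (nat_lit 13) (node (nat_lit 9) (nat_lit 65803) (nat_lit 14) (node (nat_lit 4)
  (nat_lit 65803) (nat_lit 15) nil nil) (node (nat_lit 5) (nat_lit 109173) (nat_lit 14) nil nil))
  nil) nil)) (node (nat_lit 4) (nat_lit 104268) (nat_lit 11) (node (nat_lit 6) (nat_lit 104268)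
  (nat_lit 12) (node (nat_lit 5) (nat_lit 104268) (nat_lit 13) (node (nat_lit 6) (nat_lit 106228)
  (nat_lit 14) nil (node (nat_lit 4) (nat_lit 106228) (nat_lit 14) nil nil)) (node (nat_lit 4)
  (nat_lit 104268) (nat_lit 13) nil nil)) nil) nil)) (node (nat_lit 9) (nat_lit 114337) (nat_lit
  10) nil (node (nat_lit 0) (nat_lit 109881) (nat_lit 10) nil nil))) (node (nat_lit 5) (nat_lit
  104327) (nat_lit 9) (node (nat_lit 4) (nat_lit 104363) (nat_lit 10) (node (nat_lit 6) (nat_lit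
  104363) (nat_lit 11) (node (nat_lit 4) (nat_lit 104363) (nat_lit 12) (node (nat_lit 5) (nat_lit
  104285) (nat_lit 13) (node (nat_lit 6) (nat_lit 105389) (nat_lit 14) (node (nat_lit 4) (nat_lit
  108711) (nat_lit 15) nil nil) nil) nil) nil) (node (nat_lit 5) (nat_lit 104363) (nat_lit 11)
  (node (nat_lit 6) (nat_lit 104363) (nat_lit 12) (node (nat_lit 4) (nat_lit 104363) (nat_lit 13)
  (node (nat_lit 6) (nat_lit 107676) (nat_lit 14) (node (nat_lit 9) (nat_lit 68252) (nat_lit 15)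
  nil nil) nil) (node (nat_lit 5) (nat_lit 104363) (nat_lit 13) nil nil)) nil) nil)) (node
  (nat_lit 6) (nat_lit 104327) (nat_lit 10) (node (nat_lit 4) (nat_lit 104327) (nat_lit 11) (node
  (nat_lit 6) (nat_lit 104327) (nat_lit 12) (node (nat_lit 5) (nat_lit 104327) (nat_lit 13) (node
  (nat_lit 4) (nat_lit 104770) (nat_lit 14) nil nil) nil) (node (nat_lit 5) (nat_lit 104327)
  (nat_lit 12) (node (nat_lit 4) (nat_lit 104327) (nat_lit 13) nil nil) nil)) nil) nil)) (node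
  (nat_lit 0) (nat_lit 108922) (nat_lit 9) nil nil))) (node (nat_lit 5) (nat_lit 0) (nat_lit 8)
  (node (nat_lit 6) (nat_lit 104071) (nat_lit 9) (node (nat_lit 4) (nat_lit 104071) (nat_lit 10)
  (node (nat_lit 5) (nat_lit 104071) (nat_lit 11) (node (nat_lit 4) (nat_lit 104071) (nat_lit 12)
  (node (nat_lit 6) (nat_lit 104230) (nat_lit 13) (node (nat_lit 4) (nat_lit 108105) (nat_lit 14)
  (node (nat_lit 5) (nat_lit 110454) (nat_lit 15) (node (nat_lit 6) (nat_lit 110803) (nat_lit 16)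
  nil nil) nil) (node (nat_lit 5) (nat_lit 106190) (nat_lit 14) nil nil)) nil) nil) (node (nat_lit
  6) (nat_lit 104071) (nat_lit 11) (node (nat_lit 5) (nat_lit 104071) (nat_lit 12) (node (nat_lit
  4) (nat_lit 104071) (nat_lit 13) (node (nat_lit 5) (nat_lit 108976) (nat_lit 14) (node (nat_lit
  6) (nat_lit 111046) (nat_lit 15) nil nil) nil) (node (nat_lit 6) (nat_lit 104071) (nat_lit 13)
  nil nil)) nil) nil)) (node (nat_lit 5) (nat_lit 104071) (nat_lit 10) (node (nat_lit 4) (nat_lit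
  104071) (nat_lit 11) (node (nat_lit 6) (nat_lit 104071) (nat_lit 12) (node (nat_lit 4) (nat_lit
  104071) (nat_lit 13) (node (nat_lit 5) (nat_lit 108724) (nat_lit 14) (node (nat_lit 6) (nat_lit
  108719) (nat_lit 15) (node (nat_lit 4) (nat_lit 110354) (nat_lit 16) (node (nat_lit 6) (nat_lit
  109866) (nat_lit 17) nil nil) nil) nil) nil) (node (nat_lit 5) (nat_lit 104071) (nat_lit 13) nil
  nil)) (node (nat_lit 5) (nat_lit 104071) (nat_lit 12) (node (nat_lit 6) (nat_lit 104071)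
  (nat_lit 13) (node (nat_lit 4) (nat_lit 108089) (nat_lit 14) nil nil) nil) nil)) nil) nil))
  (node (nat_lit 4) (nat_lit 104071) (nat_lit 9) (node (nat_lit 6) (nat_lit 104071) (nat_lit 10)
  (node (nat_lit 5) (nat_lit 104071) (nat_lit 11) (node (nat_lit 6) (nat_lit 104071) (nat_lit 12)
  (node (nat_lit 4) (nat_lit 104071) (nat_lit 13) (node (nat_lit 6) (nat_lit 102882) (nat_lit 14)
  nil (node (nat_lit 5) (nat_lit 106031) (nat_lit 14) nil nil)) nil) (node (nat_lit 4) (nat_lit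
  104071) (nat_lit 12) (node (nat_lit 5) (nat_lit 104071) (nat_lit 13) (node (nat_lit 6) (nat_lit
  108662) (nat_lit 14) (node (nat_lit 4) (nat_lit 111046) (nat_lit 15) nil nil) nil) nil) nil))
  (node (nat_lit 4) (nat_lit 104071) (nat_lit 11) (node (nat_lit 5) (nat_lit 104071) (nat_lit 12)
  (node (nat_lit 6) (nat_lit 104230) (nat_lit 13) (node (nat_lit 4) (nat_lit 107240) (nat_lit 14)
  nil nil) (node (nat_lit 4) (nat_lit 104071) (nat_lit 13) nil nil)) nil) nil)) (node (nat_lit 9)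
  (nat_lit 109686) (nat_lit 10) nil nil)) (node (nat_lit 9) (nat_lit 114207) (nat_lit 9) (node
  (nat_lit 5) (nat_lit 114207) (nat_lit 10) nil nil) (node (nat_lit 0) (nat_lit 108755) (nat_lit
  9) nil nil)))) (node (nat_lit 9) (nat_lit 116348) (nat_lit 8) (node (nat_lit 6) (nat_lit 116348)
  (nat_lit 9) (node (nat_lit 4) (nat_lit 116348) (nat_lit 10) (node (nat_lit 5) (nat_lit 116348)
  (nat_lit 11) (node (nat_lit 6) (nat_lit 116348) (nat_lit 12) (node (nat_lit 5) (nat_lit 116348)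
  (nat_lit 13) (node (nat_lit 4) (nat_lit 116348) (nat_lit 14) (node (nat_lit 5) (nat_lit 116348)
  (nat_lit 15) (node (nat_lit 6) (nat_lit 117543) (nat_lit 16) (node (nat_lit 4) (nat_lit 118366)
  (nat_lit 17) nil nil) nil) nil) nil) nil) (node (nat_lit 4) (nat_lit 116348) (nat_lit 12) (node
  (nat_lit 6) (nat_lit 116348) (nat_lit 13) (node (nat_lit 4) (nat_lit 116348) (nat_lit 14) (node
  (nat_lit 5) (nat_lit 116445) (nat_lit 15) (node (nat_lit 6) (nat_lit 115960) (nat_lit 16) nil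
  nil) nil) nil) nil) nil)) (node (nat_lit 6) (nat_lit 116348) (nat_lit 11) (node (nat_lit 5)
  (nat_lit 116348) (nat_lit 12) (node (nat_lit 4) (nat_lit 116348) (nat_lit 13) (node (nat_lit 6)
  (nat_lit 116348) (nat_lit 14) (node (nat_lit 4) (nat_lit 116394) (nat_lit 15) (node (nat_lit 5)
  (nat_lit 117878) (nat_lit 16) nil nil) nil) nil) (node (nat_lit 6) (nat_lit 116348) (nat_lit 13)
  nil nil)) nil) nil)) (node (nat_lit 5) (nat_lit 116348) (nat_lit 10) nil nil)) (node (nat_lit 5)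
  (nat_lit 116348) (nat_lit 9) (node (nat_lit 4) (nat_lit 116348) (nat_lit 10) (node (nat_lit 6)
  (nat_lit 116348) (nat_lit 11) nil (node (nat_lit 5) (nat_lit 116348) (nat_lit 11) nil nil)) nil)
  nil)) (node (nat_lit 0) (nat_lit 113111) (nat_lit 8) nil nil)))) (node (nat_lit 5) (nat_lit 0)
  (nat_lit 7) (node (nat_lit 6) (nat_lit 0) (nat_lit 8) (node (nat_lit 5) (nat_lit 104093)
  (nat_lit 9) (node (nat_lit 4) (nat_lit 104093) (nat_lit 10) (node (nat_lit 6) (nat_lit 104093)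
  (nat_lit 11) (node (nat_lit 4) (nat_lit 104093) (nat_lit 12) (node (nat_lit 5) (nat_lit 104253)
  (nat_lit 13) (node (nat_lit 4) (nat_lit 105701) (nat_lit 14) (node (nat_lit 6) (nat_lit 100550)
  (nat_lit 15) nil nil) (node (nat_lit 6) (nat_lit 108811) (nat_lit 14) (node (nat_lit 4) (nat_lit
  112142) (nat_lit 15) (node (nat_lit 6) (nat_lit 112124) (nat_lit 16) nil nil) nil) nil)) nil)
  (node (nat_lit 5) (nat_lit 104093) (nat_lit 12) (node (nat_lit 6) (nat_lit 104093) (nat_lit 13)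
  (node (nat_lit 4) (nat_lit 106053) (nat_lit 14) nil nil) nil) (node (nat_lit 9) (nat_lit 111003)
  (nat_lit 12) nil nil))) (node (nat_lit 5) (nat_lit 104093) (nat_lit 11) (node (nat_lit 6)
  (nat_lit 104093) (nat_lit 12) (node (nat_lit 4) (nat_lit 104093) (nat_lit 13) (node (nat_lit 6)
  (nat_lit 102905) (nat_lit 14) nil nil) (node (nat_lit 5) (nat_lit 104093) (nat_lit 13) nil nil))
  nil) (node (nat_lit 9) (nat_lit 110435) (nat_lit 11) nil nil))) (node (nat_lit 9) (nat_lit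
  114164) (nat_lit 10) nil (node (nat_lit 0) (nat_lit 109708) (nat_lit 10) nil nil))) (node
  (nat_lit 4) (nat_lit 104093) (nat_lit 9) (node (nat_lit 5) (nat_lit 104093) (nat_lit 10) (node
  (nat_lit 6) (nat_lit 104093) (nat_lit 11) (node (nat_lit 5) (nat_lit 104093) (nat_lit 12) (node
  (nat_lit 4) (nat_lit 104093) (nat_lit 13) (node (nat_lit 5) (nat_lit 107883) (nat_lit 14) (node
  (nat_lit 6) (nat_lit 109675) (nat_lit 15) (node (nat_lit 4) (nat_lit 111513) (nat_lit 16) (node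
  (nat_lit 6) (nat_lit 112950) (nat_lit 17) nil nil) nil) nil) (node (nat_lit 6) (nat_lit 106053)
  (nat_lit 14) nil nil)) nil) nil) (node (nat_lit 4) (nat_lit 104093) (nat_lit 11) (node (nat_lit
  6) (nat_lit 104093) (nat_lit 12) (node (nat_lit 5) (nat_lit 104093) (nat_lit 13) nil (node
  (nat_lit 4) (nat_lit 104093) (nat_lit 13) nil nil)) nil) nil)) (node (nat_lit 6) (nat_lit
  104093) (nat_lit 10) (node (nat_lit 5) (nat_lit 104093) (nat_lit 11) (node (nat_lit 4) (nat_lit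
  104093) (nat_lit 12) (node (nat_lit 5) (nat_lit 104093) (nat_lit 13) (node (nat_lit 6) (nat_lit
  108890) (nat_lit 14) nil nil) nil) (node (nat_lit 6) (nat_lit 104093) (nat_lit 12) (node
  (nat_lit 4) (nat_lit 104093) (nat_lit 13) nil nil) nil)) nil) nil)) (node (nat_lit 9) (nat_lit
  116287) (nat_lit 9) (node (nat_lit 6) (nat_lit 116287) (nat_lit 10) (node (nat_lit 5) (nat_lit
  116287) (nat_lit 11) nil nil) nil) (node (nat_lit 0) (nat_lit 108777) (nat_lit 9) nil nil))))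
  (node (nat_lit 4) (nat_lit 0) (nat_lit 8) (node (nat_lit 6) (nat_lit 104093) (nat_lit 9) (node
  (nat_lit 5) (nat_lit 104093) (nat_lit 10) (node (nat_lit 4) (nat_lit 104093) (nat_lit 11) (node
  (nat_lit 5) (nat_lit 104093) (nat_lit 12) (node (nat_lit 6) (nat_lit 104093) (nat_lit 13) (node
  (nat_lit 4) (nat_lit 108500) (nat_lit 14) (node (nat_lit 6) (nat_lit 111068) (nat_lit 15) nil
  nil) (node (nat_lit 5) (nat_lit 106053) (nat_lit 14) nil nil)) nil) nil) (node (nat_lit 6)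
  (nat_lit 104093) (nat_lit 11) (node (nat_lit 4) (nat_lit 104093) (nat_lit 12) (node (nat_lit 5)
  (nat_lit 104093) (nat_lit 13) nil nil) nil) nil)) (node (nat_lit 4) (nat_lit 104093) (nat_lit
  10) (node (nat_lit 5) (nat_lit 104093) (nat_lit 11) (node (nat_lit 6) (nat_lit 104093) (nat_lit
  12) (node (nat_lit 5) (nat_lit 103888) (nat_lit 13) (node (nat_lit 4) (nat_lit 104117) (nat_lit
  14) (node (nat_lit 5) (nat_lit 106626) (nat_lit 15) (node (nat_lit 6) (nat_lit 107879) (nat_lit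
  16) nil nil) nil) nil) (node (nat_lit 4) (nat_lit 104093) (nat_lit 13) nil nil)) (node (nat_lit
  4) (nat_lit 104093) (nat_lit 12) (node (nat_lit 6) (nat_lit 104093) (nat_lit 13) nil nil) nil))
  nil) nil)) (node (nat_lit 5) (nat_lit 104093) (nat_lit 9) (node (nat_lit 6) (nat_lit 104093)
  (nat_lit 10) (node (nat_lit 4) (nat_lit 104093) (nat_lit 11) (node (nat_lit 6) (nat_lit 104093)
  (nat_lit 12) (node (nat_lit 5) (nat_lit 104093) (nat_lit 13) (node (nat_lit 4) (nat_lit 104338)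
  (nat_lit 14) (node (nat_lit 5) (nat_lit 107719) (nat_lit 15) (node (nat_lit 6) (nat_lit 108966)
  (nat_lit 16) nil nil) nil) (node (nat_lit 6) (nat_lit 106680) (nat_lit 14) nil nil)) (node
  (nat_lit 9) (nat_lit 45801) (nat_lit 13) nil nil)) (node (nat_lit 5) (nat_lit 104093) (nat_lit
  12) (node (nat_lit 4) (nat_lit 104093) (nat_lit 13) nil nil) nil)) (node (nat_lit 5) (nat_lit
  104093) (nat_lit 11) (node (nat_lit 4) (nat_lit 104093) (nat_lit 12) (node (nat_lit 6) (nat_lit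
  104093) (nat_lit 13) nil (node (nat_lit 5) (nat_lit 104093) (nat_lit 13) nil nil)) nil) nil))
  nil) (node (nat_lit 9) (nat_lit 114230) (nat_lit 9) (node (nat_lit 4) (nat_lit 114230) (nat_lit
  10) nil nil) (node (nat_lit 0) (nat_lit 108777) (nat_lit 9) nil nil)))) (node (nat_lit 9)
  (nat_lit 115801) (nat_lit 8) (node (nat_lit 6) (nat_lit 115801) (nat_lit 9) (node (nat_lit 5)
  (nat_lit 115801) (nat_lit 10) (node (nat_lit 6) (nat_lit 115801) (nat_lit 11) (node (nat_lit 4)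
  (nat_lit 115801) (nat_lit 12) (node (nat_lit 5) (nat_lit 115801) (nat_lit 13) (node (nat_lit 6)
  (nat_lit 115801) (nat_lit 14) (node (nat_lit 5) (nat_lit 115801) (nat_lit 15) (node (nat_lit 4)
  (nat_lit 114987) (nat_lit 16) (node (nat_lit 5) (nat_lit 115810) (nat_lit 17) (node (nat_lit 6)
  (nat_lit 116203) (nat_lit 18) nil nil) nil) nil) nil) (node (nat_lit 4) (nat_lit 115801)
  (nat_lit 14) nil nil)) (node (nat_lit 6) (nat_lit 115801) (nat_lit 13) nil nil)) nil) (node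
  (nat_lit 4) (nat_lit 115801) (nat_lit 11) (node (nat_lit 6) (nat_lit 115801) (nat_lit 12) (node
  (nat_lit 4) (nat_lit 115801) (nat_lit 13) nil nil) nil) nil)) (node (nat_lit 4) (nat_lit 115801)
  (nat_lit 10) nil nil)) (node (nat_lit 4) (nat_lit 115801) (nat_lit 9) (node (nat_lit 5) (nat_lit
  115801) (nat_lit 10) (node (nat_lit 6) (nat_lit 115801) (nat_lit 11) nil (node (nat_lit 4)
  (nat_lit 115801) (nat_lit 11) nil nil)) nil) nil)) (node (nat_lit 0) (nat_lit 113179) (nat_lit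
  8) nil nil)))) (node (nat_lit 6) (nat_lit 0) (nat_lit 7) (node (nat_lit 4) (nat_lit 0) (nat_lit
  8) (node (nat_lit 5) (nat_lit 104258) (nat_lit 9) (node (nat_lit 6) (nat_lit 104258) (nat_lit
  10) (node (nat_lit 4) (nat_lit 104258) (nat_lit 11) (node (nat_lit 6) (nat_lit 104258) (nat_lit
  12) (node (nat_lit 5) (nat_lit 104258) (nat_lit 13) nil (node (nat_lit 9) (nat_lit 65644)
  (nat_lit 13) nil nil)) nil) (node (nat_lit 5) (nat_lit 104258) (nat_lit 11) (node (nat_lit 4)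
  (nat_lit 104258) (nat_lit 12) (node (nat_lit 5) (nat_lit 104258) (nat_lit 13) (node (nat_lit 6)
  (nat_lit 107304) (nat_lit 14) (node (nat_lit 4) (nat_lit 109660) (nat_lit 15) nil nil) nil) nil)
  nil) nil)) (node (nat_lit 4) (nat_lit 104258) (nat_lit 10) (node (nat_lit 6) (nat_lit 104258)
  (nat_lit 11) (node (nat_lit 5) (nat_lit 104258) (nat_lit 12) (node (nat_lit 6) (nat_lit 104258)
  (nat_lit 13) nil nil) (node (nat_lit 4) (nat_lit 104258) (nat_lit 12) (node (nat_lit 5) (nat_lit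
  104345) (nat_lit 13) (node (nat_lit 6) (nat_lit 105143) (nat_lit 14) (node (nat_lit 4) (nat_lit
  107492) (nat_lit 15) (node (nat_lit 6) (nat_lit 107455) (nat_lit 16) nil nil) nil) nil) nil)
  nil)) nil) nil)) (node (nat_lit 6) (nat_lit 104258) (nat_lit 9) (node (nat_lit 5) (nat_lit
  104258) (nat_lit 10) (node (nat_lit 4) (nat_lit 104258) (nat_lit 11) (node (nat_lit 5) (nat_lit
  104258) (nat_lit 12) (node (nat_lit 6) (nat_lit 104258) (nat_lit 13) (node (nat_lit 4) (nat_lit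
  107870) (nat_lit 14) nil nil) nil) (node (nat_lit 6) (nat_lit 104258) (nat_lit 12) (node
  (nat_lit 4) (nat_lit 104333) (nat_lit 13) (node (nat_lit 5) (nat_lit 108548) (nat_lit 14) (node
  (nat_lit 6) (nat_lit 108025) (nat_lit 15) nil nil) nil) nil) nil)) (node (nat_lit 6) (nat_lit
  104258) (nat_lit 11) (node (nat_lit 4) (nat_lit 104258) (nat_lit 12) (node (nat_lit 5) (nat_lit
  104258) (nat_lit 13) nil nil) nil) nil)) nil) (node (nat_lit 9) (nat_lit 111745) (nat_lit 9) nil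
  (node (nat_lit 0) (nat_lit 108941) (nat_lit 9) nil nil)))) (node (nat_lit 5) (nat_lit 0)
  (nat_lit 8) (node (nat_lit 4) (nat_lit 104349) (nat_lit 9) (node (nat_lit 6) (nat_lit 104349)
  (nat_lit 10) (node (nat_lit 4) (nat_lit 104349) (nat_lit 11) (node (nat_lit 5) (nat_lit 104349)
  (nat_lit 12) (node (nat_lit 6) (nat_lit 104349) (nat_lit 13) (node (nat_lit 4) (nat_lit 108623)
  (nat_lit 14) (node (nat_lit 6) (nat_lit 108441) (nat_lit 15) nil nil) nil) nil) nil) (node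
  (nat_lit 5) (nat_lit 104349) (nat_lit 11) (node (nat_lit 6) (nat_lit 104349) (nat_lit 12) nil
  nil) nil)) (node (nat_lit 5) (nat_lit 104349) (nat_lit 10) (node (nat_lit 6) (nat_lit 104349)
  (nat_lit 11) (node (nat_lit 4) (nat_lit 104349) (nat_lit 12) (node (nat_lit 6) (nat_lit 104349)
  (nat_lit 13) (node (nat_lit 9) (nat_lit 46244) (nat_lit 14) nil nil) nil) (node (nat_lit 5)
  (nat_lit 104349) (nat_lit 12) (node (nat_lit 4) (nat_lit 104349) (nat_lit 13) nil nil) nil))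
  nil) nil)) (node (nat_lit 6) (nat_lit 104312) (nat_lit 9) (node (nat_lit 4) (nat_lit 104312)
  (nat_lit 10) (node (nat_lit 5) (nat_lit 104312) (nat_lit 11) (node (nat_lit 4) (nat_lit 104312)
  (nat_lit 12) (node (nat_lit 6) (nat_lit 104312) (nat_lit 13) nil nil) (node (nat_lit 6) (nat_lit
  104312) (nat_lit 12) (node (nat_lit 5) (nat_lit 104312) (nat_lit 13) nil nil) nil)) (node
  (nat_lit 6) (nat_lit 104312) (nat_lit 11) (node (nat_lit 5) (nat_lit 104312) (nat_lit 12) (node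
  (nat_lit 4) (nat_lit 104312) (nat_lit 13) nil nil) nil) nil)) (node (nat_lit 9) (nat_lit 109927)
  (nat_lit 10) nil nil)) (node (nat_lit 9) (nat_lit 111801) (nat_lit 9) nil (node (nat_lit 0)
  (nat_lit 108996) (nat_lit 9) nil nil)))) (node (nat_lit 0) (nat_lit 114299) (nat_lit 8) (node
  (nat_lit 6) (nat_lit 114299) (nat_lit 9) nil nil) nil))) (node (nat_lit 0) (nat_lit 0) (nat_lit
  7) (node (nat_lit 9) (nat_lit 0) (nat_lit 8) (node (nat_lit 6) (nat_lit 115164) (nat_lit 9) nil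
  (node (nat_lit 5) (nat_lit 115164) (nat_lit 9) nil (node (nat_lit 4) (nat_lit 115164) (nat_lit
  9) nil (node (nat_lit 0) (nat_lit 116358) (nat_lit 9) nil nil)))) (node (nat_lit 6) (nat_lit
  112910) (nat_lit 8) (node (nat_lit 10) (nat_lit 115633) (nat_lit 9) nil nil) (node (nat_lit 4)
  (nat_lit 112910) (nat_lit 8) nil (node (nat_lit 5) (nat_lit 112910) (nat_lit 8) nil (node
  (nat_lit 0) (nat_lit 114439) (nat_lit 8) nil nil))))) nil))))

noncomputable def t235 : Tr :=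
  (node (nat_lit 6) (nat_lit 0) (nat_lit 6) (node (nat_lit 5) (nat_lit 97364) (nat_lit 7) (node
  (nat_lit 4) (nat_lit 0) (nat_lit 8) (node (nat_lit 6) (nat_lit 97707) (nat_lit 9) (node (nat_lit
  4) (nat_lit 97707) (nat_lit 10) (node (nat_lit 5) (nat_lit 97707) (nat_lit 11) (node (nat_lit 6)
  (nat_lit 97961) (nat_lit 12) (node (nat_lit 5) (nat_lit 100145) (nat_lit 13) (node (nat_lit 4)
  (nat_lit 100193) (nat_lit 14) (node (nat_lit 5) (nat_lit 102147) (nat_lit 15) (node (nat_lit 6)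
  (nat_lit 97184) (nat_lit 16) nil nil) nil) nil) (node (nat_lit 4) (nat_lit 102902) (nat_lit 13)
  (node (nat_lit 8) (nat_lit 61546) (nat_lit 14) nil nil) nil)) (node (nat_lit 4) (nat_lit 97544)
  (nat_lit 12) (node (nat_lit 6) (nat_lit 97944) (nat_lit 13) nil nil) nil)) nil) (node (nat_lit
  5) (nat_lit 97707) (nat_lit 10) (node (nat_lit 6) (nat_lit 97707) (nat_lit 11) (node (nat_lit 4)
  (nat_lit 97707) (nat_lit 12) nil nil) nil) (node (nat_lit 8) (nat_lit 105833) (nat_lit 10) nil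
  nil))) (node (nat_lit 5) (nat_lit 97993) (nat_lit 9) (node (nat_lit 6) (nat_lit 98350) (nat_lit
  10) (node (nat_lit 4) (nat_lit 98510) (nat_lit 11) (node (nat_lit 6) (nat_lit 98510) (nat_lit
  12) (node (nat_lit 5) (nat_lit 101021) (nat_lit 13) nil nil) (node (nat_lit 5) (nat_lit 98510)
  (nat_lit 12) (node (nat_lit 4) (nat_lit 96798) (nat_lit 13) nil nil) (node (nat_lit 8) (nat_lit
  44118) (nat_lit 12) (node (nat_lit 6) (nat_lit 44118) (nat_lit 13) nil nil) nil))) (node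
  (nat_lit 5) (nat_lit 98350) (nat_lit 11) (node (nat_lit 4) (nat_lit 98350) (nat_lit 12) (node
  (nat_lit 6) (nat_lit 100861) (nat_lit 13) nil nil) nil) nil)) (node (nat_lit 8) (nat_lit 106119)
  (nat_lit 10) nil nil)) (node (nat_lit 8) (nat_lit 109211) (nat_lit 9) nil (node (nat_lit 0)
  (nat_lit 104902) (nat_lit 9) nil nil)))) (node (nat_lit 6) (nat_lit 97720) (nat_lit 8) (node
  (nat_lit 4) (nat_lit 97740) (nat_lit 9) (node (nat_lit 6) (nat_lit 97740) (nat_lit 10) (node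
  (nat_lit 5) (nat_lit 97740) (nat_lit 11) (node (nat_lit 4) (nat_lit 97836) (nat_lit 12) (node
  (nat_lit 6) (nat_lit 101941) (nat_lit 13) (node (nat_lit 4) (nat_lit 105062) (nat_lit 14) (node
  (nat_lit 5) (nat_lit 104191) (nat_lit 15) (node (nat_lit 6) (nat_lit 99228) (nat_lit 16) (node
  (nat_lit 4) (nat_lit 92879) (nat_lit 17) nil nil) nil) nil) nil) (node (nat_lit 5) (nat_lit
  103590) (nat_lit 13) (node (nat_lit 6) (nat_lit 106440) (nat_lit 14) nil nil) nil)) nil) nil)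
  (node (nat_lit 5) (nat_lit 97772) (nat_lit 10) (node (nat_lit 6) (nat_lit 97772) (nat_lit 11)
  (node (nat_lit 5) (nat_lit 97518) (nat_lit 12) (node (nat_lit 4) (nat_lit 97495) (nat_lit 13)
  (node (nat_lit 5) (nat_lit 100567) (nat_lit 14) (node (nat_lit 6) (nat_lit 102071) (nat_lit 15)
  (node (nat_lit 4) (nat_lit 103850) (nat_lit 16) nil nil) nil) nil) nil) nil) (node (nat_lit 4)
  (nat_lit 97772) (nat_lit 11) nil nil)) nil)) (node (nat_lit 8) (nat_lit 107212) (nat_lit 9) nil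
  nil)) (node (nat_lit 8) (nat_lit 110353) (nat_lit 8) nil nil))) (node (nat_lit 4) (nat_lit
  97508) (nat_lit 7) (node (nat_lit 5) (nat_lit 0) (nat_lit 8) (node (nat_lit 6) (nat_lit 97257)
  (nat_lit 9) (node (nat_lit 5) (nat_lit 97288) (nat_lit 10) (node (nat_lit 4) (nat_lit 97062)
  (nat_lit 11) (node (nat_lit 6) (nat_lit 97062) (nat_lit 12) (node (nat_lit 5) (nat_lit 99573)
  (nat_lit 13) nil (node (nat_lit 4) (nat_lit 102572) (nat_lit 13) (node (nat_lit 5) (nat_lit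
  106238) (nat_lit 14) nil nil) nil)) (node (nat_lit 5) (nat_lit 97315) (nat_lit 12) (node
  (nat_lit 6) (nat_lit 100096) (nat_lit 13) (node (nat_lit 4) (nat_lit 103001) (nat_lit 14) nil
  nil) nil) nil)) nil) (node (nat_lit 4) (nat_lit 97257) (nat_lit 10) (node (nat_lit 6) (nat_lit
  97257) (nat_lit 11) (node (nat_lit 5) (nat_lit 97257) (nat_lit 12) (node (nat_lit 4) (nat_lit
  97312) (nat_lit 13) (node (nat_lit 5) (nat_lit 101228) (nat_lit 14) (node (nat_lit 6) (nat_lit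
  104340) (nat_lit 15) nil nil) nil) nil) nil) (node (nat_lit 8) (nat_lit 62370) (nat_lit 11) nil
  nil)) nil)) (node (nat_lit 4) (nat_lit 97470) (nat_lit 9) (node (nat_lit 6) (nat_lit 97660)
  (nat_lit 10) (node (nat_lit 5) (nat_lit 97434) (nat_lit 11) (node (nat_lit 4) (nat_lit 97511)
  (nat_lit 12) (node (nat_lit 5) (nat_lit 101615) (nat_lit 13) (node (nat_lit 6) (nat_lit 104961)
  (nat_lit 14) (node (nat_lit 4) (nat_lit 107521) (nat_lit 15) nil nil) nil) nil) (node (nat_lit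
  6) (nat_lit 97434) (nat_lit 12) (node (nat_lit 4) (nat_lit 98799) (nat_lit 13) (node (nat_lit 6)
  (nat_lit 97611) (nat_lit 14) nil nil) nil) nil)) (node (nat_lit 4) (nat_lit 97660) (nat_lit 11)
  (node (nat_lit 5) (nat_lit 97725) (nat_lit 12) (node (nat_lit 6) (nat_lit 98260) (nat_lit 13)
  (node (nat_lit 4) (nat_lit 100972) (nat_lit 14) nil nil) nil) nil) nil)) (node (nat_lit 8)
  (nat_lit 105596) (nat_lit 10) nil nil)) (node (nat_lit 8) (nat_lit 106759) (nat_lit 9) nil (node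
  (nat_lit 0) (nat_lit 104462) (nat_lit 9) nil nil)))) (node (nat_lit 6) (nat_lit 98545) (nat_lit
  8) (node (nat_lit 5) (nat_lit 98707) (nat_lit 9) (node (nat_lit 4) (nat_lit 98707) (nat_lit 10)
  (node (nat_lit 6) (nat_lit 98707) (nat_lit 11) (node (nat_lit 4) (nat_lit 98802) (nat_lit 12)
  (node (nat_lit 5) (nat_lit 103665) (nat_lit 13) (node (nat_lit 6) (nat_lit 103417) (nat_lit 14)
  nil nil) nil) nil) (node (nat_lit 5) (nat_lit 98707) (nat_lit 11) nil nil)) (node (nat_lit 6)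
  (nat_lit 98707) (nat_lit 10) (node (nat_lit 4) (nat_lit 98707) (nat_lit 11) nil nil) nil)) (node
  (nat_lit 8) (nat_lit 110048) (nat_lit 9) nil nil)) nil)) (node (nat_lit 8) (nat_lit 113534)
  (nat_lit 7) (node (nat_lit 5) (nat_lit 113534) (nat_lit 8) nil (node (nat_lit 4) (nat_lit
  113534) (nat_lit 8) nil nil)) (node (nat_lit 0) (nat_lit 100764) (nat_lit 7) nil nil)))) (node
  (nat_lit 5) (nat_lit 0) (nat_lit 6) (node (nat_lit 4) (nat_lit 97146) (nat_lit 7) (node (nat_lit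
  6) (nat_lit 0) (nat_lit 8) (node (nat_lit 4) (nat_lit 97294) (nat_lit 9) (node (nat_lit 5)
  (nat_lit 97294) (nat_lit 10) (node (nat_lit 6) (nat_lit 97294) (nat_lit 11) (node (nat_lit 5)
  (nat_lit 97041) (nat_lit 12) (node (nat_lit 4) (nat_lit 101943) (nat_lit 13) (node (nat_lit 5)
  (nat_lit 105014) (nat_lit 14) (node (nat_lit 6) (nat_lit 106519) (nat_lit 15) (node (nat_lit 4)
  (nat_lit 108298) (nat_lit 16) nil nil) nil) nil) nil) (node (nat_lit 4) (nat_lit 97294) (nat_lit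
  12) (node (nat_lit 6) (nat_lit 95772) (nat_lit 13) nil nil) nil)) (node (nat_lit 4) (nat_lit
  97294) (nat_lit 11) (node (nat_lit 6) (nat_lit 97294) (nat_lit 12) (node (nat_lit 5) (nat_lit
  99805) (nat_lit 13) nil nil) nil) nil)) nil) (node (nat_lit 5) (nat_lit 97294) (nat_lit 9) (node
  (nat_lit 6) (nat_lit 97294) (nat_lit 10) (node (nat_lit 4) (nat_lit 97294) (nat_lit 11) (node
  (nat_lit 5) (nat_lit 97294) (nat_lit 12) (node (nat_lit 4) (nat_lit 95583) (nat_lit 13) nil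
  (node (nat_lit 6) (nat_lit 95772) (nat_lit 13) nil nil)) (node (nat_lit 6) (nat_lit 97294)
  (nat_lit 12) (node (nat_lit 5) (nat_lit 102716) (nat_lit 13) nil nil) nil)) nil) (node (nat_lit
  4) (nat_lit 97294) (nat_lit 10) (node (nat_lit 5) (nat_lit 97294) (nat_lit 11) (node (nat_lit 6)
  (nat_lit 97137) (nat_lit 12) (node (nat_lit 4) (nat_lit 101995) (nat_lit 13) nil nil) nil) nil)
  nil)) (node (nat_lit 8) (nat_lit 108798) (nat_lit 9) nil (node (nat_lit 0) (nat_lit 104489)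
  (nat_lit 9) nil nil)))) (node (nat_lit 5) (nat_lit 97702) (nat_lit 8) (node (nat_lit 6) (nat_lit
  97702) (nat_lit 9) (node (nat_lit 4) (nat_lit 97702) (nat_lit 10) (node (nat_lit 6) (nat_lit
  97702) (nat_lit 11) (node (nat_lit 5) (nat_lit 97702) (nat_lit 12) nil nil) (node (nat_lit 5)
  (nat_lit 97702) (nat_lit 11) (node (nat_lit 4) (nat_lit 97702) (nat_lit 12) nil nil) (node
  (nat_lit 8) (nat_lit 43836) (nat_lit 11) nil nil))) (node (nat_lit 5) (nat_lit 97702) (nat_lit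
  10) (node (nat_lit 4) (nat_lit 97702) (nat_lit 11) nil nil) nil)) (node (nat_lit 8) (nat_lit
  109206) (nat_lit 9) nil nil)) (node (nat_lit 8) (nat_lit 110135) (nat_lit 8) nil nil))) (node
  (nat_lit 6) (nat_lit 97371) (nat_lit 7) (node (nat_lit 4) (nat_lit 0) (nat_lit 8) (node (nat_lit
  6) (nat_lit 97643) (nat_lit 9) (node (nat_lit 5) (nat_lit 97643) (nat_lit 10) (node (nat_lit 4)
  (nat_lit 97643) (nat_lit 11) (node (nat_lit 5) (nat_lit 97897) (nat_lit 12) (node (nat_lit 6)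
  (nat_lit 104312) (nat_lit 13) (node (nat_lit 4) (nat_lit 107364) (nat_lit 14) nil (node (nat_lit
  5) (nat_lit 107212) (nat_lit 14) nil nil)) nil) (node (nat_lit 6) (nat_lit 97740) (nat_lit 12)
  (node (nat_lit 4) (nat_lit 102185) (nat_lit 13) (node (nat_lit 5) (nat_lit 105808) (nat_lit 14)
  nil nil) nil) nil)) (node (nat_lit 6) (nat_lit 97643) (nat_lit 11) (node (nat_lit 4) (nat_lit
  97643) (nat_lit 12) (node (nat_lit 5) (nat_lit 100154) (nat_lit 13) nil nil) nil) nil)) (node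
  (nat_lit 8) (nat_lit 105770) (nat_lit 10) nil nil)) (node (nat_lit 5) (nat_lit 97945) (nat_lit
  9) (node (nat_lit 4) (nat_lit 97945) (nat_lit 10) (node (nat_lit 6) (nat_lit 97945) (nat_lit 11)
  (node (nat_lit 5) (nat_lit 97945) (nat_lit 12) (node (nat_lit 4) (nat_lit 101780) (nat_lit 13)
  (node (nat_lit 5) (nat_lit 104350) (nat_lit 14) (node (nat_lit 6) (nat_lit 106574) (nat_lit 15)
  nil nil) nil) (node (nat_lit 6) (nat_lit 101258) (nat_lit 13) nil nil)) (node (nat_lit 4)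
  (nat_lit 97945) (nat_lit 12) (node (nat_lit 5) (nat_lit 100456) (nat_lit 13) nil nil) nil)) nil)
  (node (nat_lit 6) (nat_lit 97945) (nat_lit 10) (node (nat_lit 5) (nat_lit 97945) (nat_lit 11)
  (node (nat_lit 4) (nat_lit 98198) (nat_lit 12) (node (nat_lit 6) (nat_lit 102797) (nat_lit 13)
  (node (nat_lit 4) (nat_lit 106751) (nat_lit 14) nil nil) (node (nat_lit 5) (nat_lit 102547)
  (nat_lit 13) nil nil)) nil) nil) nil)) (node (nat_lit 0) (nat_lit 104848) (nat_lit 9) nil nil)))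
  (node (nat_lit 5) (nat_lit 98103) (nat_lit 8) (node (nat_lit 4) (nat_lit 98103) (nat_lit 9)
  (node (nat_lit 6) (nat_lit 98103) (nat_lit 10) (node (nat_lit 4) (nat_lit 98103) (nat_lit 11)
  (node (nat_lit 5) (nat_lit 98103) (nat_lit 12) (node (nat_lit 6) (nat_lit 98572) (nat_lit 13)
  (node (nat_lit 4) (nat_lit 102543) (nat_lit 14) nil nil) nil) nil) (node (nat_lit 5) (nat_lit
  98103) (nat_lit 11) (node (nat_lit 6) (nat_lit 98103) (nat_lit 12) nil nil) nil)) (node (nat_lit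
  5) (nat_lit 98103) (nat_lit 10) (node (nat_lit 6) (nat_lit 98103) (nat_lit 11) nil nil) nil))
  (node (nat_lit 8) (nat_lit 109606) (nat_lit 9) nil nil)) (node (nat_lit 8) (nat_lit 110360)
  (nat_lit 8) nil nil))) (node (nat_lit 8) (nat_lit 113988) (nat_lit 7) (node (nat_lit 4) (nat_lit
  113988) (nat_lit 8) (node (nat_lit 6) (nat_lit 113988) (nat_lit 9) nil nil) (node (nat_lit 6)
  (nat_lit 113988) (nat_lit 8) (node (nat_lit 4) (nat_lit 113988) (nat_lit 9) nil nil) nil)) (node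
  (nat_lit 0) (nat_lit 100582) (nat_lit 7) nil nil)))) (node (nat_lit 4) (nat_lit 96095) (nat_lit
  6) (node (nat_lit 6) (nat_lit 97643) (nat_lit 7) (node (nat_lit 5) (nat_lit 0) (nat_lit 8) (node
  (nat_lit 4) (nat_lit 98836) (nat_lit 9) (node (nat_lit 5) (nat_lit 98836) (nat_lit 10) (node
  (nat_lit 6) (nat_lit 98836) (nat_lit 11) (node (nat_lit 4) (nat_lit 98836) (nat_lit 12) (node
  (nat_lit 6) (nat_lit 97313) (nat_lit 13) nil (node (nat_lit 8) (nat_lit 64612) (nat_lit 13) nil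
  nil)) (node (nat_lit 5) (nat_lit 98836) (nat_lit 12) (node (nat_lit 4) (nat_lit 97124) (nat_lit
  13) nil nil) nil)) nil) (node (nat_lit 6) (nat_lit 98836) (nat_lit 10) (node (nat_lit 4)
  (nat_lit 98836) (nat_lit 11) (node (nat_lit 5) (nat_lit 98734) (nat_lit 12) (node (nat_lit 6)
  (nat_lit 99622) (nat_lit 13) nil nil) nil) nil) nil)) (node (nat_lit 6) (nat_lit 98582) (nat_lit
  9) (node (nat_lit 4) (nat_lit 98582) (nat_lit 10) (node (nat_lit 5) (nat_lit 98582) (nat_lit 11)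
  (node (nat_lit 4) (nat_lit 98556) (nat_lit 12) (node (nat_lit 6) (nat_lit 105333) (nat_lit 13)
  (node (nat_lit 4) (nat_lit 106295) (nat_lit 14) (node (nat_lit 5) (nat_lit 104415) (nat_lit 15)
  (node (nat_lit 6) (nat_lit 98991) (nat_lit 16) nil nil) nil) nil) nil) (node (nat_lit 6)
  (nat_lit 98835) (nat_lit 12) (node (nat_lit 5) (nat_lit 102775) (nat_lit 13) nil nil) nil))
  (node (nat_lit 6) (nat_lit 98582) (nat_lit 11) (node (nat_lit 5) (nat_lit 98582) (nat_lit 12)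
  (node (nat_lit 4) (nat_lit 96871) (nat_lit 13) nil nil) nil) nil)) (node (nat_lit 8) (nat_lit
  106708) (nat_lit 10) nil nil)) (node (nat_lit 8) (nat_lit 105777) (nat_lit 9) nil (node (nat_lit
  0) (nat_lit 105777) (nat_lit 9) nil nil)))) (node (nat_lit 4) (nat_lit 98203) (nat_lit 8) (node
  (nat_lit 5) (nat_lit 98203) (nat_lit 9) (node (nat_lit 6) (nat_lit 98203) (nat_lit 10) (node
  (nat_lit 5) (nat_lit 98203) (nat_lit 11) (node (nat_lit 4) (nat_lit 98457) (nat_lit 12) (node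
  (nat_lit 5) (nat_lit 102805) (nat_lit 13) (node (nat_lit 6) (nat_lit 104987) (nat_lit 14) (node
  (nat_lit 4) (nat_lit 107263) (nat_lit 15) nil nil) nil) nil) nil) (node (nat_lit 4) (nat_lit
  98203) (nat_lit 11) (node (nat_lit 6) (nat_lit 98203) (nat_lit 12) nil (node (nat_lit 8)
  (nat_lit 63326) (nat_lit 12) (node (nat_lit 4) (nat_lit 63326) (nat_lit 13) nil nil) nil)) nil))
  (node (nat_lit 4) (nat_lit 98203) (nat_lit 10) (node (nat_lit 6) (nat_lit 98203) (nat_lit 11)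
  (node (nat_lit 5) (nat_lit 98203) (nat_lit 12) (node (nat_lit 4) (nat_lit 101815) (nat_lit 13)
  (node (nat_lit 5) (nat_lit 104386) (nat_lit 14) (node (nat_lit 6) (nat_lit 106608) (nat_lit 15)
  (node (nat_lit 4) (nat_lit 108599) (nat_lit 16) nil nil) nil) nil) nil) nil) nil) nil)) (node
  (nat_lit 8) (nat_lit 105397) (nat_lit 9) nil nil)) (node (nat_lit 8) (nat_lit 107238) (nat_lit
  8) nil nil))) (node (nat_lit 5) (nat_lit 97475) (nat_lit 7) (node (nat_lit 6) (nat_lit 0)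
  (nat_lit 8) (node (nat_lit 5) (nat_lit 99012) (nat_lit 9) (node (nat_lit 4) (nat_lit 99027)
  (nat_lit 10) (node (nat_lit 6) (nat_lit 99027) (nat_lit 11) (node (nat_lit 4) (nat_lit 99027)
  (nat_lit 12) (node (nat_lit 5) (nat_lit 102606) (nat_lit 13) (node (nat_lit 6) (nat_lit 101923)
  (nat_lit 14) (node (nat_lit 4) (nat_lit 103998) (nat_lit 15) nil nil) (node (nat_lit 4) (nat_lit
  101271) (nat_lit 14) nil nil)) nil) (node (nat_lit 5) (nat_lit 99027) (nat_lit 12) (node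
  (nat_lit 6) (nat_lit 102340) (nat_lit 13) nil nil) nil)) (node (nat_lit 5) (nat_lit 99027)
  (nat_lit 11) (node (nat_lit 6) (nat_lit 99027) (nat_lit 12) (node (nat_lit 4) (nat_lit 103943)
  (nat_lit 13) nil nil) nil) nil)) (node (nat_lit 8) (nat_lit 107138) (nat_lit 10) nil nil)) (node
  (nat_lit 4) (nat_lit 98400) (nat_lit 9) (node (nat_lit 6) (nat_lit 98532) (nat_lit 10) (node
  (nat_lit 5) (nat_lit 98532) (nat_lit 11) (node (nat_lit 4) (nat_lit 98627) (nat_lit 12) (node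
  (nat_lit 5) (nat_lit 104375) (nat_lit 13) (node (nat_lit 6) (nat_lit 106986) (nat_lit 14) nil
  nil) (node (nat_lit 6) (nat_lit 102732) (nat_lit 13) (node (nat_lit 4) (nat_lit 105854) (nat_lit
  14) nil nil) nil)) (node (nat_lit 6) (nat_lit 98532) (nat_lit 12) (node (nat_lit 4) (nat_lit
  99196) (nat_lit 13) nil nil) nil)) nil) (node (nat_lit 5) (nat_lit 98400) (nat_lit 10) (node
  (nat_lit 4) (nat_lit 98400) (nat_lit 11) (node (nat_lit 6) (nat_lit 98400) (nat_lit 12) nil nil)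
  nil) nil)) (node (nat_lit 8) (nat_lit 105755) (nat_lit 9) nil (node (nat_lit 0) (nat_lit 105755)
  (nat_lit 9) nil nil)))) (node (nat_lit 4) (nat_lit 98401) (nat_lit 8) (node (nat_lit 6) (nat_lit
  98401) (nat_lit 9) (node (nat_lit 5) (nat_lit 98401) (nat_lit 10) (node (nat_lit 4) (nat_lit
  98401) (nat_lit 11) (node (nat_lit 5) (nat_lit 98401) (nat_lit 12) (node (nat_lit 6) (nat_lit
  103356) (nat_lit 13) (node (nat_lit 4) (nat_lit 106402) (nat_lit 14) nil nil) nil) nil) (node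
  (nat_lit 6) (nat_lit 98401) (nat_lit 11) nil nil)) (node (nat_lit 4) (nat_lit 98401) (nat_lit
  10) (node (nat_lit 5) (nat_lit 98401) (nat_lit 11) nil nil) nil)) (node (nat_lit 8) (nat_lit
  105596) (nat_lit 9) nil nil)) (node (nat_lit 8) (nat_lit 110465) (nat_lit 8) nil nil))) nil))
  (node (nat_lit 0) (nat_lit 109055) (nat_lit 6) (node (nat_lit 6) (nat_lit 109055) (nat_lit 7)
  nil (node (nat_lit 5) (nat_lit 109055) (nat_lit 7) nil (node (nat_lit 0) (nat_lit 111016)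
  (nat_lit 7) nil (node (nat_lit 4) (nat_lit 109055) (nat_lit 7) nil nil)))) nil))))

noncomputable def t236 : Tr :=
  (node (nat_lit 6) (nat_lit 0) (nat_lit 7) (node (nat_lit 4) (nat_lit 0) (nat_lit 8) (node
  (nat_lit 5) (nat_lit 113733) (nat_lit 9) (node (nat_lit 6) (nat_lit 114355) (nat_lit 10) (node
  (nat_lit 4) (nat_lit 114355) (nat_lit 11) (node (nat_lit 6) (nat_lit 114355) (nat_lit 12) (node
  (nat_lit 5) (nat_lit 114807) (nat_lit 13) (node (nat_lit 4) (nat_lit 114263) (nat_lit 14) (node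
  (nat_lit 5) (nat_lit 115270) (nat_lit 15) (node (nat_lit 6) (nat_lit 116514) (nat_lit 16) nil
  nil) nil) nil) nil) nil) (node (nat_lit 5) (nat_lit 114355) (nat_lit 11) (node (nat_lit 4)
  (nat_lit 114355) (nat_lit 12) (node (nat_lit 5) (nat_lit 113960) (nat_lit 13) (node (nat_lit 6)
  (nat_lit 116103) (nat_lit 14) nil nil) (node (nat_lit 9) (nat_lit 43046) (nat_lit 13) nil (node
  (nat_lit 6) (nat_lit 114355) (nat_lit 13) nil nil))) nil) nil)) (node (nat_lit 4) (nat_lit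
  114355) (nat_lit 10) (node (nat_lit 6) (nat_lit 114807) (nat_lit 11) (node (nat_lit 4) (nat_lit
  114807) (nat_lit 12) (node (nat_lit 5) (nat_lit 114807) (nat_lit 13) (node (nat_lit 6) (nat_lit
  116534) (nat_lit 14) (node (nat_lit 5) (nat_lit 118896) (nat_lit 15) (node (nat_lit 4) (nat_lit
  120304) (nat_lit 16) nil nil) nil) nil) nil) (node (nat_lit 5) (nat_lit 114807) (nat_lit 12)
  (node (nat_lit 4) (nat_lit 114807) (nat_lit 13) (node (nat_lit 5) (nat_lit 117476) (nat_lit 14)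
  (node (nat_lit 6) (nat_lit 118928) (nat_lit 15) nil nil) nil) (node (nat_lit 6) (nat_lit 114807)
  (nat_lit 13) nil nil)) nil)) nil) nil)) (node (nat_lit 6) (nat_lit 114105) (nat_lit 9) (node
  (nat_lit 5) (nat_lit 114797) (nat_lit 10) (node (nat_lit 4) (nat_lit 114807) (nat_lit 11) (node
  (nat_lit 5) (nat_lit 114807) (nat_lit 12) (node (nat_lit 6) (nat_lit 114807) (nat_lit 13) (node
  (nat_lit 5) (nat_lit 118226) (nat_lit 14) (node (nat_lit 4) (nat_lit 117612) (nat_lit 15) (node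
  (nat_lit 9) (nat_lit 85242) (nat_lit 16) nil nil) nil) (node (nat_lit 4) (nat_lit 116519)
  (nat_lit 14) nil nil)) nil) (node (nat_lit 6) (nat_lit 114807) (nat_lit 12) (node (nat_lit 4)
  (nat_lit 114807) (nat_lit 13) (node (nat_lit 5) (nat_lit 119869) (nat_lit 14) (node (nat_lit 6)
  (nat_lit 121191) (nat_lit 15) nil nil) nil) nil) nil)) (node (nat_lit 6) (nat_lit 114807)
  (nat_lit 11) (node (nat_lit 4) (nat_lit 114807) (nat_lit 12) (node (nat_lit 5) (nat_lit 114807)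
  (nat_lit 13) (node (nat_lit 6) (nat_lit 115825) (nat_lit 14) (node (nat_lit 5) (nat_lit 116649)
  (nat_lit 15) (node (nat_lit 4) (nat_lit 117875) (nat_lit 16) nil nil) nil) (node (nat_lit 4)
  (nat_lit 113471) (nat_lit 14) nil nil)) (node (nat_lit 6) (nat_lit 114807) (nat_lit 13) nil
  nil)) nil) nil)) (node (nat_lit 9) (nat_lit 126763) (nat_lit 10) nil (node (nat_lit 0) (nat_lit
  123140) (nat_lit 10) nil nil))) (node (nat_lit 9) (nat_lit 128991) (nat_lit 9) (node (nat_lit 4)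
  (nat_lit 128991) (nat_lit 10) (node (nat_lit 6) (nat_lit 128991) (nat_lit 11) nil nil) nil)
  (node (nat_lit 0) (nat_lit 120315) (nat_lit 9) nil nil)))) (node (nat_lit 5) (nat_lit 0)
  (nat_lit 8) (node (nat_lit 4) (nat_lit 112833) (nat_lit 9) (node (nat_lit 6) (nat_lit 113085)
  (nat_lit 10) (node (nat_lit 4) (nat_lit 113047) (nat_lit 11) (node (nat_lit 5) (nat_lit 113047)
  (nat_lit 12) (node (nat_lit 6) (nat_lit 113047) (nat_lit 13) (node (nat_lit 5) (nat_lit 117967)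
  (nat_lit 14) (node (nat_lit 4) (nat_lit 121087) (nat_lit 15) nil nil) nil) (node (nat_lit 4)
  (nat_lit 113047) (nat_lit 13) nil nil)) nil) (node (nat_lit 5) (nat_lit 113173) (nat_lit 11)
  (node (nat_lit 6) (nat_lit 113173) (nat_lit 12) (node (nat_lit 4) (nat_lit 112942) (nat_lit 13)
  (node (nat_lit 5) (nat_lit 114295) (nat_lit 14) (node (nat_lit 6) (nat_lit 114403) (nat_lit 15)
  nil nil) (node (nat_lit 6) (nat_lit 111753) (nat_lit 14) nil nil)) nil) nil) nil)) (node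
  (nat_lit 5) (nat_lit 113456) (nat_lit 10) (node (nat_lit 6) (nat_lit 114238) (nat_lit 11) (node
  (nat_lit 4) (nat_lit 114238) (nat_lit 12) (node (nat_lit 6) (nat_lit 114807) (nat_lit 13) (node
  (nat_lit 5) (nat_lit 114146) (nat_lit 14) (node (nat_lit 4) (nat_lit 113279) (nat_lit 15) nil
  nil) nil) (node (nat_lit 5) (nat_lit 114238) (nat_lit 13) nil nil)) (node (nat_lit 5) (nat_lit
  114238) (nat_lit 12) (node (nat_lit 4) (nat_lit 114807) (nat_lit 13) (node (nat_lit 9) (nat_lit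
  77686) (nat_lit 14) nil nil) nil) nil)) nil) nil)) (node (nat_lit 6) (nat_lit 113996) (nat_lit
  9) (node (nat_lit 4) (nat_lit 114660) (nat_lit 10) (node (nat_lit 5) (nat_lit 114807) (nat_lit
  11) (node (nat_lit 4) (nat_lit 114807) (nat_lit 12) (node (nat_lit 6) (nat_lit 114807) (nat_lit
  13) (node (nat_lit 4) (nat_lit 119671) (nat_lit 14) (node (nat_lit 5) (nat_lit 122525) (nat_lit
  15) (node (nat_lit 6) (nat_lit 123267) (nat_lit 16) (node (nat_lit 5) (nat_lit 124540) (nat_lit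
  17) (node (nat_lit 4) (nat_lit 124955) (nat_lit 18) nil nil) nil) nil) nil) (node (nat_lit 5)
  (nat_lit 117961) (nat_lit 14) nil nil)) nil) (node (nat_lit 6) (nat_lit 114807) (nat_lit 12)
  (node (nat_lit 5) (nat_lit 114807) (nat_lit 13) (node (nat_lit 4) (nat_lit 114491) (nat_lit 14)
  nil nil) nil) nil)) (node (nat_lit 6) (nat_lit 114807) (nat_lit 11) (node (nat_lit 5) (nat_lit
  114807) (nat_lit 12) (node (nat_lit 4) (nat_lit 114807) (nat_lit 13) (node (nat_lit 5) (nat_lit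
  117781) (nat_lit 14) (node (nat_lit 6) (nat_lit 119234) (nat_lit 15) nil nil) (node (nat_lit 6)
  (nat_lit 116767) (nat_lit 14) nil nil)) (node (nat_lit 6) (nat_lit 114807) (nat_lit 13) nil
  nil)) nil) nil)) nil) (node (nat_lit 9) (nat_lit 126166) (nat_lit 9) (node (nat_lit 5) (nat_lit
  126166) (nat_lit 10) nil nil) (node (nat_lit 0) (nat_lit 117349) (nat_lit 9) nil nil)))) (node
  (nat_lit 9) (nat_lit 129371) (nat_lit 8) (node (nat_lit 4) (nat_lit 129371) (nat_lit 9) (node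
  (nat_lit 6) (nat_lit 129371) (nat_lit 10) (node (nat_lit 5) (nat_lit 129371) (nat_lit 11) (node
  (nat_lit 6) (nat_lit 129371) (nat_lit 12) (node (nat_lit 4) (nat_lit 129371) (nat_lit 13) (node
  (nat_lit 5) (nat_lit 129371) (nat_lit 14) (node (nat_lit 6) (nat_lit 129371) (nat_lit 15) (node
  (nat_lit 5) (nat_lit 130427) (nat_lit 16) (node (nat_lit 4) (nat_lit 130809) (nat_lit 17) nil
  nil) nil) nil) nil) nil) (node (nat_lit 4) (nat_lit 129371) (nat_lit 12) nil nil)) (node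
  (nat_lit 4) (nat_lit 129371) (nat_lit 11) (node (nat_lit 5) (nat_lit 129371) (nat_lit 12) (node
  (nat_lit 6) (nat_lit 129371) (nat_lit 13) (node (nat_lit 5) (nat_lit 129371) (nat_lit 14) (node
  (nat_lit 4) (nat_lit 129540) (nat_lit 15) (node (nat_lit 5) (nat_lit 130327) (nat_lit 16) (node
  (nat_lit 6) (nat_lit 131321) (nat_lit 17) nil nil) nil) nil) nil) nil) nil) nil)) (node (nat_lit
  5) (nat_lit 129371) (nat_lit 10) nil nil)) (node (nat_lit 5) (nat_lit 129371) (nat_lit 9) (node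
  (nat_lit 6) (nat_lit 129371) (nat_lit 10) (node (nat_lit 4) (nat_lit 129371) (nat_lit 11) nil
  (node (nat_lit 5) (nat_lit 129371) (nat_lit 11) nil nil)) nil) nil)) (node (nat_lit 0) (nat_lit
  119619) (nat_lit 8) nil nil)))) (node (nat_lit 5) (nat_lit 0) (nat_lit 7) (node (nat_lit 6)
  (nat_lit 0) (nat_lit 8) (node (nat_lit 4) (nat_lit 113836) (nat_lit 9) (node (nat_lit 5)
  (nat_lit 114807) (nat_lit 10) (node (nat_lit 6) (nat_lit 114807) (nat_lit 11) (node (nat_lit 5)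
  (nat_lit 114807) (nat_lit 12) (node (nat_lit 4) (nat_lit 114807) (nat_lit 13) (node (nat_lit 5)
  (nat_lit 117787) (nat_lit 14) (node (nat_lit 6) (nat_lit 119157) (nat_lit 15) nil nil) (node
  (nat_lit 9) (nat_lit 64791) (nat_lit 14) (node (nat_lit 5) (nat_lit 43469) (nat_lit 15) nil nil)
  (node (nat_lit 6) (nat_lit 115953) (nat_lit 14) nil nil))) nil) nil) (node (nat_lit 4) (nat_lit
  114807) (nat_lit 11) (node (nat_lit 6) (nat_lit 114807) (nat_lit 12) (node (nat_lit 5) (nat_lit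
  114807) (nat_lit 13) (node (nat_lit 4) (nat_lit 118816) (nat_lit 14) (node (nat_lit 5) (nat_lit
  119824) (nat_lit 15) nil nil) nil) (node (nat_lit 4) (nat_lit 114807) (nat_lit 13) (node
  (nat_lit 5) (nat_lit 118715) (nat_lit 14) nil nil) nil)) nil) nil)) (node (nat_lit 6) (nat_lit
  113809) (nat_lit 10) (node (nat_lit 5) (nat_lit 113898) (nat_lit 11) (node (nat_lit 4) (nat_lit
  113898) (nat_lit 12) (node (nat_lit 5) (nat_lit 113503) (nat_lit 13) (node (nat_lit 6) (nat_lit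
  115646) (nat_lit 14) (node (nat_lit 5) (nat_lit 116667) (nat_lit 15) (node (nat_lit 4) (nat_lit
  115255) (nat_lit 16) (node (nat_lit 9) (nat_lit 81370) (nat_lit 17) nil nil) nil) nil) nil)
  (node (nat_lit 6) (nat_lit 113898) (nat_lit 13) nil nil)) (node (nat_lit 6) (nat_lit 113898)
  (nat_lit 12) (node (nat_lit 4) (nat_lit 113898) (nat_lit 13) (node (nat_lit 5) (nat_lit 115703)
  (nat_lit 14) nil nil) nil) nil)) nil) nil)) (node (nat_lit 5) (nat_lit 112962) (nat_lit 9) (node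
  (nat_lit 4) (nat_lit 113642) (nat_lit 10) (node (nat_lit 6) (nat_lit 114194) (nat_lit 11) (node
  (nat_lit 4) (nat_lit 114194) (nat_lit 12) (node (nat_lit 5) (nat_lit 113799) (nat_lit 13) (node
  (nat_lit 6) (nat_lit 115229) (nat_lit 14) (node (nat_lit 5) (nat_lit 117764) (nat_lit 15) (node
  (nat_lit 4) (nat_lit 119272) (nat_lit 16) nil nil) nil) (node (nat_lit 4) (nat_lit 112463)
  (nat_lit 14) nil nil)) nil) (node (nat_lit 5) (nat_lit 114194) (nat_lit 12) (node (nat_lit 6)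
  (nat_lit 114194) (nat_lit 13) nil nil) nil)) (node (nat_lit 5) (nat_lit 114004) (nat_lit 11)
  (node (nat_lit 6) (nat_lit 113577) (nat_lit 12) (node (nat_lit 4) (nat_lit 113182) (nat_lit 13)
  (node (nat_lit 5) (nat_lit 115143) (nat_lit 14) nil nil) (node (nat_lit 5) (nat_lit 113577)
  (nat_lit 13) nil nil)) nil) nil)) nil) (node (nat_lit 9) (nat_lit 125918) (nat_lit 9) (node
  (nat_lit 6) (nat_lit 125918) (nat_lit 10) nil nil) (node (nat_lit 0) (nat_lit 117100) (nat_lit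
  9) nil nil)))) (node (nat_lit 4) (nat_lit 0) (nat_lit 8) (node (nat_lit 5) (nat_lit 114048)
  (nat_lit 9) (node (nat_lit 6) (nat_lit 114807) (nat_lit 10) (node (nat_lit 4) (nat_lit 114807)
  (nat_lit 11) (node (nat_lit 6) (nat_lit 114807) (nat_lit 12) (node (nat_lit 5) (nat_lit 114807)
  (nat_lit 13) (node (nat_lit 6) (nat_lit 120126) (nat_lit 14) (node (nat_lit 4) (nat_lit 123378)
  (nat_lit 15) (node (nat_lit 5) (nat_lit 124517) (nat_lit 16) nil nil) nil) (node (nat_lit 4)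
  (nat_lit 120864) (nat_lit 14) (node (nat_lit 5) (nat_lit 122483) (nat_lit 15) nil nil) nil))
  nil) (node (nat_lit 5) (nat_lit 114807) (nat_lit 12) (node (nat_lit 4) (nat_lit 114807) (nat_lit
  13) nil nil) nil)) (node (nat_lit 5) (nat_lit 114807) (nat_lit 11) (node (nat_lit 4) (nat_lit
  114807) (nat_lit 12) (node (nat_lit 6) (nat_lit 114807) (nat_lit 13) (node (nat_lit 5) (nat_lit
  113471) (nat_lit 14) nil (node (nat_lit 4) (nat_lit 120067) (nat_lit 14) nil nil)) (node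
  (nat_lit 9) (nat_lit 77498) (nat_lit 13) nil (node (nat_lit 5) (nat_lit 114807) (nat_lit 13) nil
  nil))) nil) (node (nat_lit 9) (nat_lit 121149) (nat_lit 11) nil nil))) (node (nat_lit 9)
  (nat_lit 125750) (nat_lit 10) nil (node (nat_lit 0) (nat_lit 119663) (nat_lit 10) nil nil)))
  (node (nat_lit 6) (nat_lit 113296) (nat_lit 9) (node (nat_lit 5) (nat_lit 113919) (nat_lit 10)
  (node (nat_lit 4) (nat_lit 113919) (nat_lit 11) (node (nat_lit 5) (nat_lit 113919) (nat_lit 12)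
  (node (nat_lit 6) (nat_lit 114730) (nat_lit 13) (node (nat_lit 5) (nat_lit 117122) (nat_lit 14)
  (node (nat_lit 4) (nat_lit 116254) (nat_lit 15) nil nil) (node (nat_lit 4) (nat_lit 116690)
  (nat_lit 14) nil nil)) nil) nil) (node (nat_lit 6) (nat_lit 113919) (nat_lit 11) (node (nat_lit
  4) (nat_lit 113919) (nat_lit 12) (node (nat_lit 5) (nat_lit 113919) (nat_lit 13) (node (nat_lit
  6) (nat_lit 115439) (nat_lit 14) nil nil) (node (nat_lit 6) (nat_lit 113919) (nat_lit 13) nil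
  nil)) nil) nil)) (node (nat_lit 4) (nat_lit 113296) (nat_lit 10) (node (nat_lit 5) (nat_lit
  113296) (nat_lit 11) (node (nat_lit 4) (nat_lit 113296) (nat_lit 12) (node (nat_lit 6) (nat_lit
  113296) (nat_lit 13) nil nil) (node (nat_lit 6) (nat_lit 113296) (nat_lit 12) (node (nat_lit 4)
  (nat_lit 113296) (nat_lit 13) nil (node (nat_lit 5) (nat_lit 113296) (nat_lit 13) nil nil))
  nil)) nil) (node (nat_lit 9) (nat_lit 118911) (nat_lit 10) nil nil))) (node (nat_lit 0) (nat_lit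
  121734) (nat_lit 9) nil nil))) (node (nat_lit 9) (nat_lit 128278) (nat_lit 8) (node (nat_lit 4)
  (nat_lit 128278) (nat_lit 9) (node (nat_lit 5) (nat_lit 128278) (nat_lit 10) (node (nat_lit 4)
  (nat_lit 128278) (nat_lit 11) (node (nat_lit 6) (nat_lit 128278) (nat_lit 12) (node (nat_lit 5)
  (nat_lit 128278) (nat_lit 13) (node (nat_lit 4) (nat_lit 128278) (nat_lit 14) (node (nat_lit 5)
  (nat_lit 127757) (nat_lit 15) (node (nat_lit 6) (nat_lit 129000) (nat_lit 16) (node (nat_lit 5)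
  (nat_lit 129670) (nat_lit 17) (node (nat_lit 4) (nat_lit 129037) (nat_lit 18) (node (nat_lit 9)
  (nat_lit 131577) (nat_lit 19) nil nil) nil) nil) nil) nil) nil) (node (nat_lit 4) (nat_lit
  128278) (nat_lit 13) (node (nat_lit 5) (nat_lit 128278) (nat_lit 14) (node (nat_lit 6) (nat_lit
  128556) (nat_lit 15) (node (nat_lit 5) (nat_lit 130929) (nat_lit 16) (node (nat_lit 4) (nat_lit
  130809) (nat_lit 17) nil nil) nil) nil) nil) nil)) nil) (node (nat_lit 6) (nat_lit 128278)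
  (nat_lit 11) (node (nat_lit 4) (nat_lit 128278) (nat_lit 12) nil nil) nil)) (node (nat_lit 6)
  (nat_lit 128278) (nat_lit 10) nil nil)) (node (nat_lit 6) (nat_lit 128278) (nat_lit 9) (node
  (nat_lit 5) (nat_lit 128278) (nat_lit 10) (node (nat_lit 4) (nat_lit 128278) (nat_lit 11) nil
  nil) nil) nil)) (node (nat_lit 0) (nat_lit 119527) (nat_lit 8) nil nil)))) (node (nat_lit 4)
  (nat_lit 0) (nat_lit 7) (node (nat_lit 5) (nat_lit 0) (nat_lit 8) (node (nat_lit 6) (nat_lit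
  113452) (nat_lit 9) (node (nat_lit 4) (nat_lit 113452) (nat_lit 10) (node (nat_lit 6) (nat_lit
  113452) (nat_lit 11) (node (nat_lit 5) (nat_lit 113452) (nat_lit 12) (node (nat_lit 4) (nat_lit
  114263) (nat_lit 13) (node (nat_lit 5) (nat_lit 115791) (nat_lit 14) (node (nat_lit 6) (nat_lit
  117243) (nat_lit 15) nil nil) nil) nil) nil) (node (nat_lit 5) (nat_lit 113452) (nat_lit 11)
  (node (nat_lit 4) (nat_lit 113452) (nat_lit 12) nil nil) nil)) (node (nat_lit 5) (nat_lit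
  113452) (nat_lit 10) (node (nat_lit 4) (nat_lit 113452) (nat_lit 11) (node (nat_lit 6) (nat_lit
  113452) (nat_lit 12) (node (nat_lit 4) (nat_lit 113452) (nat_lit 13) (node (nat_lit 5) (nat_lit
  118643) (nat_lit 14) (node (nat_lit 6) (nat_lit 119697) (nat_lit 15) nil nil) nil) nil) (node
  (nat_lit 5) (nat_lit 113452) (nat_lit 12) (node (nat_lit 6) (nat_lit 113452) (nat_lit 13) nil
  nil) nil)) nil) nil)) (node (nat_lit 4) (nat_lit 113636) (nat_lit 9) (node (nat_lit 6) (nat_lit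
  113636) (nat_lit 10) (node (nat_lit 5) (nat_lit 113636) (nat_lit 11) (node (nat_lit 4) (nat_lit
  113636) (nat_lit 12) (node (nat_lit 5) (nat_lit 113241) (nat_lit 13) (node (nat_lit 6) (nat_lit
  115384) (nat_lit 14) (node (nat_lit 5) (nat_lit 116405) (nat_lit 15) nil nil) nil) nil) (node
  (nat_lit 6) (nat_lit 113636) (nat_lit 12) (node (nat_lit 4) (nat_lit 113636) (nat_lit 13) (node
  (nat_lit 5) (nat_lit 115697) (nat_lit 14) nil nil) nil) nil)) (node (nat_lit 4) (nat_lit 113636)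
  (nat_lit 11) (node (nat_lit 5) (nat_lit 113636) (nat_lit 12) (node (nat_lit 6) (nat_lit 113636)
  (nat_lit 13) (node (nat_lit 5) (nat_lit 118334) (nat_lit 14) (node (nat_lit 4) (nat_lit 121595)
  (nat_lit 15) nil nil) nil) nil) nil) nil)) (node (nat_lit 9) (nat_lit 127218) (nat_lit 10) (node
  (nat_lit 5) (nat_lit 127218) (nat_lit 11) nil nil) nil)) (node (nat_lit 9) (nat_lit 123944)
  (nat_lit 9) nil (node (nat_lit 0) (nat_lit 117183) (nat_lit 9) nil nil)))) (node (nat_lit 6)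
  (nat_lit 0) (nat_lit 8) (node (nat_lit 5) (nat_lit 114246) (nat_lit 9) (node (nat_lit 6)
  (nat_lit 114246) (nat_lit 10) (node (nat_lit 4) (nat_lit 114246) (nat_lit 11) (node (nat_lit 5)
  (nat_lit 114246) (nat_lit 12) (node (nat_lit 6) (nat_lit 114246) (nat_lit 13) (node (nat_lit 5)
  (nat_lit 116837) (nat_lit 14) (node (nat_lit 4) (nat_lit 118528) (nat_lit 15) nil nil) nil) nil)
  (node (nat_lit 6) (nat_lit 114246) (nat_lit 12) (node (nat_lit 5) (nat_lit 114807) (nat_lit 13)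
  (node (nat_lit 4) (nat_lit 114154) (nat_lit 14) nil nil) nil) nil)) nil) (node (nat_lit 4)
  (nat_lit 114246) (nat_lit 10) (node (nat_lit 5) (nat_lit 114246) (nat_lit 11) (node (nat_lit 6)
  (nat_lit 114246) (nat_lit 12) nil nil) (node (nat_lit 6) (nat_lit 114246) (nat_lit 11) (node
  (nat_lit 4) (nat_lit 114246) (nat_lit 12) nil nil) nil)) nil)) (node (nat_lit 4) (nat_lit
  114158) (nat_lit 9) (node (nat_lit 5) (nat_lit 114158) (nat_lit 10) (node (nat_lit 6) (nat_lit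
  114158) (nat_lit 11) (node (nat_lit 5) (nat_lit 114158) (nat_lit 12) (node (nat_lit 4) (nat_lit
  114807) (nat_lit 13) (node (nat_lit 5) (nat_lit 116497) (nat_lit 14) nil nil) nil) (node
  (nat_lit 4) (nat_lit 114158) (nat_lit 12) (node (nat_lit 6) (nat_lit 114158) (nat_lit 13) nil
  nil) nil)) (node (nat_lit 4) (nat_lit 114158) (nat_lit 11) (node (nat_lit 6) (nat_lit 114158)
  (nat_lit 12) (node (nat_lit 5) (nat_lit 114158) (nat_lit 13) nil nil) nil) nil)) (node (nat_lit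
  9) (nat_lit 123193) (nat_lit 10) nil nil)) (node (nat_lit 9) (nat_lit 121783) (nat_lit 9) nil
  (node (nat_lit 0) (nat_lit 120363) (nat_lit 9) nil nil)))) (node (nat_lit 0) (nat_lit 126713)
  (nat_lit 8) (node (nat_lit 4) (nat_lit 126713) (nat_lit 9) nil nil) nil))) (node (nat_lit 0)
  (nat_lit 0) (nat_lit 7) (node (nat_lit 4) (nat_lit 122198) (nat_lit 8) (node (nat_lit 10)
  (nat_lit 126580) (nat_lit 9) nil nil) (node (nat_lit 9) (nat_lit 0) (nat_lit 8) (node (nat_lit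
  4) (nat_lit 126786) (nat_lit 9) nil (node (nat_lit 6) (nat_lit 126786) (nat_lit 9) nil (node
  (nat_lit 5) (nat_lit 126786) (nat_lit 9) nil (node (nat_lit 0) (nat_lit 127980) (nat_lit 9) nil
  nil)))) (node (nat_lit 6) (nat_lit 122198) (nat_lit 8) nil (node (nat_lit 5) (nat_lit 122198)
  (nat_lit 8) nil (node (nat_lit 0) (nat_lit 125092) (nat_lit 8) nil nil))))) nil))))

noncomputable def t237 : Tr :=
  (node (nat_lit 6) (nat_lit 0) (nat_lit 6) (node (nat_lit 0) (nat_lit 0) (nat_lit 7) (node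
  (nat_lit 6) (nat_lit 0) (nat_lit 8) (node (nat_lit 4) (nat_lit 112288) (nat_lit 9) (node
  (nat_lit 5) (nat_lit 112288) (nat_lit 10) (node (nat_lit 6) (nat_lit 112288) (nat_lit 11) (node
  (nat_lit 5) (nat_lit 112288) (nat_lit 12) (node (nat_lit 4) (nat_lit 112288) (nat_lit 13) (node
  (nat_lit 6) (nat_lit 112288) (nat_lit 14) (node (nat_lit 4) (nat_lit 116284) (nat_lit 15) (node
  (nat_lit 5) (nat_lit 119404) (nat_lit 16) (node (nat_lit 6) (nat_lit 120090) (nat_lit 17) nil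
  nil) nil) (node (nat_lit 10) (nat_lit 43717) (nat_lit 15) nil nil)) (node (nat_lit 5) (nat_lit
  112288) (nat_lit 14) (node (nat_lit 6) (nat_lit 113810) (nat_lit 15) nil nil) nil)) nil) (node
  (nat_lit 4) (nat_lit 112288) (nat_lit 12) (node (nat_lit 6) (nat_lit 112288) (nat_lit 13) (node
  (nat_lit 5) (nat_lit 112288) (nat_lit 14) nil nil) nil) (node (nat_lit 10) (nat_lit 117238)
  (nat_lit 12) nil nil))) (node (nat_lit 4) (nat_lit 112288) (nat_lit 11) (node (nat_lit 6)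
  (nat_lit 112288) (nat_lit 12) (node (nat_lit 5) (nat_lit 112288) (nat_lit 13) (node (nat_lit 4)
  (nat_lit 112288) (nat_lit 14) (node (nat_lit 5) (nat_lit 114708) (nat_lit 15) (node (nat_lit 6)
  (nat_lit 115952) (nat_lit 16) nil nil) nil) (node (nat_lit 6) (nat_lit 112288) (nat_lit 14)
  (node (nat_lit 4) (nat_lit 113817) (nat_lit 15) nil nil) nil)) (node (nat_lit 4) (nat_lit
  112288) (nat_lit 13) (node (nat_lit 5) (nat_lit 112288) (nat_lit 14) (node (nat_lit 6) (nat_lit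
  113965) (nat_lit 15) (node (nat_lit 5) (nat_lit 116153) (nat_lit 16) nil nil) nil) nil) nil))
  (node (nat_lit 10) (nat_lit 117238) (nat_lit 12) nil nil)) (node (nat_lit 10) (nat_lit 119339)
  (nat_lit 11) nil (node (nat_lit 0) (nat_lit 120738) (nat_lit 11) nil nil)))) (node (nat_lit 6)
  (nat_lit 112288) (nat_lit 10) (node (nat_lit 5) (nat_lit 112288) (nat_lit 11) (node (nat_lit 4)
  (nat_lit 112288) (nat_lit 12) (node (nat_lit 6) (nat_lit 112288) (nat_lit 13) nil (node (nat_lit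
  5) (nat_lit 112288) (nat_lit 13) nil nil)) (node (nat_lit 6) (nat_lit 112288) (nat_lit 12) (node
  (nat_lit 4) (nat_lit 112288) (nat_lit 13) nil nil) nil)) (node (nat_lit 10) (nat_lit 124318)
  (nat_lit 11) (node (nat_lit 4) (nat_lit 124318) (nat_lit 12) nil nil) nil)) (node (nat_lit 10)
  (nat_lit 125535) (nat_lit 10) (node (nat_lit 6) (nat_lit 125535) (nat_lit 11) (node (nat_lit 10)
  (nat_lit 126830) (nat_lit 12) nil (node (nat_lit 5) (nat_lit 125535) (nat_lit 12) nil nil))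
  (node (nat_lit 4) (nat_lit 125535) (nat_lit 11) nil nil)) (node (nat_lit 0) (nat_lit 124428)
  (nat_lit 10) nil nil)))) (node (nat_lit 5) (nat_lit 112288) (nat_lit 9) (node (nat_lit 4)
  (nat_lit 112288) (nat_lit 10) (node (nat_lit 6) (nat_lit 112288) (nat_lit 11) (node (nat_lit 4)
  (nat_lit 112288) (nat_lit 12) (node (nat_lit 5) (nat_lit 112288) (nat_lit 13) (node (nat_lit 6)
  (nat_lit 112288) (nat_lit 14) (node (nat_lit 5) (nat_lit 116284) (nat_lit 15) (node (nat_lit 4)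
  (nat_lit 119404) (nat_lit 16) (node (nat_lit 6) (nat_lit 120305) (nat_lit 17) nil nil) nil) nil)
  (node (nat_lit 4) (nat_lit 112288) (nat_lit 14) nil nil)) nil) (node (nat_lit 5) (nat_lit
  112288) (nat_lit 12) (node (nat_lit 6) (nat_lit 112288) (nat_lit 13) (node (nat_lit 4) (nat_lit
  112253) (nat_lit 14) (node (nat_lit 5) (nat_lit 113798) (nat_lit 15) nil nil) nil) nil) nil))
  (node (nat_lit 5) (nat_lit 112288) (nat_lit 11) (node (nat_lit 6) (nat_lit 112288) (nat_lit 12)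
  (node (nat_lit 4) (nat_lit 112288) (nat_lit 13) (node (nat_lit 6) (nat_lit 112288) (nat_lit 14)
  (node (nat_lit 5) (nat_lit 111244) (nat_lit 15) nil nil) (node (nat_lit 5) (nat_lit 112288)
  (nat_lit 14) nil nil)) (node (nat_lit 5) (nat_lit 112288) (nat_lit 13) (node (nat_lit 4)
  (nat_lit 112288) (nat_lit 14) (node (nat_lit 6) (nat_lit 114305) (nat_lit 15) (node (nat_lit 10)
  (nat_lit 71918) (nat_lit 16) nil nil) nil) nil) nil)) (node (nat_lit 10) (nat_lit 117238)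
  (nat_lit 12) nil nil)) (node (nat_lit 10) (nat_lit 119339) (nat_lit 11) nil (node (nat_lit 0)
  (nat_lit 120738) (nat_lit 11) nil nil)))) (node (nat_lit 6) (nat_lit 112288) (nat_lit 10) (node
  (nat_lit 4) (nat_lit 112288) (nat_lit 11) (node (nat_lit 5) (nat_lit 112288) (nat_lit 12) (node
  (nat_lit 6) (nat_lit 112288) (nat_lit 13) nil (node (nat_lit 4) (nat_lit 112288) (nat_lit 13)
  nil nil)) (node (nat_lit 6) (nat_lit 112288) (nat_lit 12) (node (nat_lit 5) (nat_lit 112288)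
  (nat_lit 13) (node (nat_lit 4) (nat_lit 112288) (nat_lit 14) (node (nat_lit 5) (nat_lit 114927)
  (nat_lit 15) (node (nat_lit 6) (nat_lit 116170) (nat_lit 16) nil nil) nil) nil) nil) (node
  (nat_lit 10) (nat_lit 117238) (nat_lit 12) nil nil))) (node (nat_lit 10) (nat_lit 124102)
  (nat_lit 11) nil (node (nat_lit 0) (nat_lit 120738) (nat_lit 11) nil nil))) (node (nat_lit 10)
  (nat_lit 124271) (nat_lit 10) nil (node (nat_lit 0) (nat_lit 124271) (nat_lit 10) nil nil))))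
  (node (nat_lit 0) (nat_lit 123094) (nat_lit 9) (node (nat_lit 10) (nat_lit 125135) (nat_lit 10)
  (node (nat_lit 6) (nat_lit 125135) (nat_lit 11) nil nil) (node (nat_lit 6) (nat_lit 123094)
  (nat_lit 10) nil (node (nat_lit 0) (nat_lit 124026) (nat_lit 10) nil (node (nat_lit 4) (nat_lit
  123094) (nat_lit 10) nil (node (nat_lit 5) (nat_lit 123094) (nat_lit 10) nil nil))))) nil)))
  (node (nat_lit 4) (nat_lit 0) (nat_lit 8) (node (nat_lit 10) (nat_lit 122677) (nat_lit 9) (node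
  (nat_lit 6) (nat_lit 122677) (nat_lit 10) (node (nat_lit 10) (nat_lit 125346) (nat_lit 11) (node
  (nat_lit 4) (nat_lit 125346) (nat_lit 12) nil nil) nil) nil) (node (nat_lit 6) (nat_lit 112288)
  (nat_lit 9) (node (nat_lit 4) (nat_lit 112288) (nat_lit 10) (node (nat_lit 10) (nat_lit 121162)
  (nat_lit 11) nil nil) nil) (node (nat_lit 5) (nat_lit 111257) (nat_lit 9) (node (nat_lit 6)
  (nat_lit 111257) (nat_lit 10) nil nil) (node (nat_lit 0) (nat_lit 118254) (nat_lit 9) nil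
  nil)))) (node (nat_lit 5) (nat_lit 111105) (nat_lit 8) (node (nat_lit 6) (nat_lit 112262)
  (nat_lit 9) (node (nat_lit 5) (nat_lit 112262) (nat_lit 10) (node (nat_lit 10) (nat_lit 116644)
  (nat_lit 11) nil nil) nil) (node (nat_lit 10) (nat_lit 120025) (nat_lit 9) (node (nat_lit 6)
  (nat_lit 120025) (nat_lit 10) nil nil) (node (nat_lit 4) (nat_lit 111105) (nat_lit 9) nil nil)))
  (node (nat_lit 0) (nat_lit 119611) (nat_lit 8) (node (nat_lit 6) (nat_lit 119611) (nat_lit 9)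
  (node (nat_lit 10) (nat_lit 123032) (nat_lit 10) nil nil) (node (nat_lit 10) (nat_lit 122204)
  (nat_lit 9) nil nil)) nil)))) (node (nat_lit 4) (nat_lit 0) (nat_lit 7) (node (nat_lit 0)
  (nat_lit 0) (nat_lit 8) (node (nat_lit 6) (nat_lit 113645) (nat_lit 9) (node (nat_lit 4)
  (nat_lit 113645) (nat_lit 10) (node (nat_lit 6) (nat_lit 113645) (nat_lit 11) (node (nat_lit 5)
  (nat_lit 113645) (nat_lit 12) (node (nat_lit 4) (nat_lit 113645) (nat_lit 13) (node (nat_lit 5)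
  (nat_lit 113645) (nat_lit 14) (node (nat_lit 6) (nat_lit 113645) (nat_lit 15) (node (nat_lit 5)
  (nat_lit 116995) (nat_lit 16) (node (nat_lit 4) (nat_lit 116830) (nat_lit 17) (node (nat_lit 6)
  (nat_lit 117270) (nat_lit 18) nil nil) nil) (node (nat_lit 4) (nat_lit 115668) (nat_lit 16) nil
  nil)) nil) (node (nat_lit 6) (nat_lit 113645) (nat_lit 14) (node (nat_lit 4) (nat_lit 113645)
  (nat_lit 15) (node (nat_lit 5) (nat_lit 117452) (nat_lit 16) (node (nat_lit 6) (nat_lit 118924)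
  (nat_lit 17) (node (nat_lit 5) (nat_lit 120671) (nat_lit 18) nil nil) nil) nil) nil) (node
  (nat_lit 11) (nat_lit 117855) (nat_lit 14) nil nil))) (node (nat_lit 6) (nat_lit 113645)
  (nat_lit 13) (node (nat_lit 4) (nat_lit 113645) (nat_lit 14) (node (nat_lit 5) (nat_lit 113645)
  (nat_lit 15) (node (nat_lit 6) (nat_lit 114918) (nat_lit 16) (node (nat_lit 5) (nat_lit 115283)
  (nat_lit 17) (node (nat_lit 4) (nat_lit 116087) (nat_lit 18) nil nil) nil) (node (nat_lit 4)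
  (nat_lit 112831) (nat_lit 16) nil nil)) (node (nat_lit 6) (nat_lit 113645) (nat_lit 15) nil
  nil)) (node (nat_lit 11) (nat_lit 117855) (nat_lit 14) nil nil)) (node (nat_lit 11) (nat_lit
  122082) (nat_lit 13) nil (node (nat_lit 0) (nat_lit 122082) (nat_lit 13) nil nil)))) (node
  (nat_lit 11) (nat_lit 127252) (nat_lit 12) (node (nat_lit 4) (nat_lit 127252) (nat_lit 13) nil
  nil) (node (nat_lit 0) (nat_lit 123452) (nat_lit 12) nil nil))) (node (nat_lit 5) (nat_lit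
  113645) (nat_lit 11) (node (nat_lit 6) (nat_lit 113645) (nat_lit 12) (node (nat_lit 5) (nat_lit
  113645) (nat_lit 13) (node (nat_lit 4) (nat_lit 113645) (nat_lit 14) (node (nat_lit 6) (nat_lit
  113645) (nat_lit 15) (node (nat_lit 4) (nat_lit 114839) (nat_lit 16) (node (nat_lit 11) (nat_lit
  45489) (nat_lit 17) nil nil) nil) (node (nat_lit 5) (nat_lit 113645) (nat_lit 15) (node (nat_lit
  6) (nat_lit 116682) (nat_lit 16) nil nil) nil)) nil) (node (nat_lit 4) (nat_lit 113645) (nat_lit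
  13) (node (nat_lit 6) (nat_lit 113645) (nat_lit 14) nil nil) (node (nat_lit 11) (nat_lit 122082)
  (nat_lit 13) nil (node (nat_lit 0) (nat_lit 117508) (nat_lit 13) nil nil)))) (node (nat_lit 4)
  (nat_lit 113645) (nat_lit 12) (node (nat_lit 6) (nat_lit 113645) (nat_lit 13) (node (nat_lit 5)
  (nat_lit 113645) (nat_lit 14) (node (nat_lit 4) (nat_lit 113645) (nat_lit 15) (node (nat_lit 5)
  (nat_lit 116329) (nat_lit 16) (node (nat_lit 6) (nat_lit 117539) (nat_lit 17) nil nil) nil) nil)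
  (node (nat_lit 4) (nat_lit 113645) (nat_lit 14) (node (nat_lit 5) (nat_lit 113645) (nat_lit 15)
  (node (nat_lit 6) (nat_lit 115540) (nat_lit 16) nil nil) nil) nil)) (node (nat_lit 11) (nat_lit
  122082) (nat_lit 13) nil (node (nat_lit 0) (nat_lit 117508) (nat_lit 13) nil nil))) (node
  (nat_lit 11) (nat_lit 123452) (nat_lit 12) nil (node (nat_lit 0) (nat_lit 121115) (nat_lit 12)
  nil nil)))) (node (nat_lit 0) (nat_lit 123012) (nat_lit 11) nil nil))) (node (nat_lit 11)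
  (nat_lit 122141) (nat_lit 10) (node (nat_lit 4) (nat_lit 122141) (nat_lit 11) nil nil) (node
  (nat_lit 5) (nat_lit 113645) (nat_lit 10) nil nil))) (node (nat_lit 4) (nat_lit 113645) (nat_lit
  9) (node (nat_lit 6) (nat_lit 113645) (nat_lit 10) (node (nat_lit 11) (nat_lit 124266) (nat_lit
  11) (node (nat_lit 6) (nat_lit 124266) (nat_lit 12) nil nil) nil) nil) (node (nat_lit 5)
  (nat_lit 113645) (nat_lit 9) (node (nat_lit 4) (nat_lit 113645) (nat_lit 10) nil nil) (node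
  (nat_lit 0) (nat_lit 117069) (nat_lit 9) nil nil)))) nil) (node (nat_lit 5) (nat_lit 0) (nat_lit
  7) (node (nat_lit 0) (nat_lit 107207) (nat_lit 8) (node (nat_lit 6) (nat_lit 107453) (nat_lit 9)
  (node (nat_lit 5) (nat_lit 107852) (nat_lit 10) (node (nat_lit 4) (nat_lit 107794) (nat_lit 11)
  (node (nat_lit 6) (nat_lit 107794) (nat_lit 12) (node (nat_lit 4) (nat_lit 107794) (nat_lit 13)
  (node (nat_lit 5) (nat_lit 107794) (nat_lit 14) nil nil) (node (nat_lit 5) (nat_lit 107794)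
  (nat_lit 13) nil (node (nat_lit 11) (nat_lit 111657) (nat_lit 13) nil nil))) (node (nat_lit 5)
  (nat_lit 107794) (nat_lit 12) (node (nat_lit 6) (nat_lit 107794) (nat_lit 13) (node (nat_lit 5)
  (nat_lit 107794) (nat_lit 14) nil (node (nat_lit 4) (nat_lit 107794) (nat_lit 14) nil nil)) nil)
  (node (nat_lit 11) (nat_lit 118189) (nat_lit 12) nil (node (nat_lit 0) (nat_lit 115264) (nat_lit
  12) nil nil)))) (node (nat_lit 6) (nat_lit 108124) (nat_lit 11) (node (nat_lit 4) (nat_lit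
  108472) (nat_lit 12) (node (nat_lit 5) (nat_lit 108472) (nat_lit 13) (node (nat_lit 4) (nat_lit
  108472) (nat_lit 14) (node (nat_lit 6) (nat_lit 108472) (nat_lit 15) nil nil) (node (nat_lit 6)
  (nat_lit 108472) (nat_lit 14) nil nil)) (node (nat_lit 6) (nat_lit 108472) (nat_lit 13) nil
  (node (nat_lit 11) (nat_lit 112335) (nat_lit 13) nil nil))) (node (nat_lit 11) (nat_lit 120020)
  (nat_lit 12) nil (node (nat_lit 0) (nat_lit 118518) (nat_lit 12) nil nil))) (node (nat_lit 0)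
  (nat_lit 117049) (nat_lit 11) nil nil))) nil) (node (nat_lit 5) (nat_lit 107207) (nat_lit 9)
  (node (nat_lit 6) (nat_lit 107207) (nat_lit 10) (node (nat_lit 11) (nat_lit 113438) (nat_lit 11)
  nil nil) nil) (node (nat_lit 4) (nat_lit 107207) (nat_lit 9) nil nil))) nil) nil))) (node
  (nat_lit 5) (nat_lit 0) (nat_lit 6) (node (nat_lit 0) (nat_lit 0) (nat_lit 7) (node (nat_lit 5)
  (nat_lit 0) (nat_lit 8) (node (nat_lit 6) (nat_lit 77538) (nat_lit 9) (node (nat_lit 4) (nat_lit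
  77538) (nat_lit 10) (node (nat_lit 5) (nat_lit 77538) (nat_lit 11) (node (nat_lit 6) (nat_lit
  77538) (nat_lit 12) (node (nat_lit 5) (nat_lit 77538) (nat_lit 13) (node (nat_lit 4) (nat_lit
  77538) (nat_lit 14) (node (nat_lit 5) (nat_lit 79298) (nat_lit 15) (node (nat_lit 10) (nat_lit
  23033) (nat_lit 16) nil nil) nil) nil) nil) (node (nat_lit 4) (nat_lit 77538) (nat_lit 12) (node
  (nat_lit 6) (nat_lit 77538) (nat_lit 13) (node (nat_lit 5) (nat_lit 77538) (nat_lit 14) nil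
  (node (nat_lit 4) (nat_lit 77538) (nat_lit 14) nil nil)) nil) nil)) (node (nat_lit 6) (nat_lit
  77538) (nat_lit 11) (node (nat_lit 5) (nat_lit 77538) (nat_lit 12) (node (nat_lit 4) (nat_lit
  77538) (nat_lit 13) (node (nat_lit 5) (nat_lit 77538) (nat_lit 14) (node (nat_lit 6) (nat_lit
  78365) (nat_lit 15) (node (nat_lit 5) (nat_lit 79012) (nat_lit 16) nil nil) nil) nil) (node
  (nat_lit 6) (nat_lit 77538) (nat_lit 13) (node (nat_lit 4) (nat_lit 77615) (nat_lit 14) (node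
  (nat_lit 5) (nat_lit 79223) (nat_lit 15) nil nil) nil) nil)) nil) (node (nat_lit 10) (nat_lit
  79909) (nat_lit 11) nil (node (nat_lit 0) (nat_lit 79909) (nat_lit 11) nil nil)))) (node
  (nat_lit 5) (nat_lit 77538) (nat_lit 10) (node (nat_lit 4) (nat_lit 77538) (nat_lit 11) (node
  (nat_lit 6) (nat_lit 77538) (nat_lit 12) (node (nat_lit 4) (nat_lit 77538) (nat_lit 13) (node
  (nat_lit 5) (nat_lit 77538) (nat_lit 14) (node (nat_lit 6) (nat_lit 80748) (nat_lit 15) nil nil)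
  nil) nil) (node (nat_lit 5) (nat_lit 77538) (nat_lit 12) nil nil)) (node (nat_lit 10) (nat_lit
  82578) (nat_lit 11) nil (node (nat_lit 0) (nat_lit 79909) (nat_lit 11) nil nil))) (node (nat_lit
  10) (nat_lit 84435) (nat_lit 10) nil (node (nat_lit 0) (nat_lit 84435) (nat_lit 10) nil nil))))
  (node (nat_lit 4) (nat_lit 77538) (nat_lit 9) (node (nat_lit 6) (nat_lit 77538) (nat_lit 10)
  (node (nat_lit 5) (nat_lit 77538) (nat_lit 11) (node (nat_lit 4) (nat_lit 77538) (nat_lit 12)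
  (node (nat_lit 5) (nat_lit 77538) (nat_lit 13) (node (nat_lit 6) (nat_lit 77538) (nat_lit 14)
  (node (nat_lit 5) (nat_lit 78365) (nat_lit 15) (node (nat_lit 4) (nat_lit 77004) (nat_lit 16)
  nil nil) nil) nil) nil) (node (nat_lit 6) (nat_lit 77538) (nat_lit 12) (node (nat_lit 4)
  (nat_lit 77538) (nat_lit 13) (node (nat_lit 5) (nat_lit 77538) (nat_lit 14) (node (nat_lit 6)
  (nat_lit 80834) (nat_lit 15) nil nil) (node (nat_lit 6) (nat_lit 77538) (nat_lit 14) nil nil))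
  nil) nil)) (node (nat_lit 4) (nat_lit 77538) (nat_lit 11) (node (nat_lit 5) (nat_lit 77538)
  (nat_lit 12) (node (nat_lit 6) (nat_lit 77538) (nat_lit 13) nil nil) nil) (node (nat_lit 0)
  (nat_lit 82578) (nat_lit 11) nil (node (nat_lit 10) (nat_lit 82578) (nat_lit 11) nil nil))))
  (node (nat_lit 10) (nat_lit 84708) (nat_lit 10) (node (nat_lit 5) (nat_lit 84708) (nat_lit 11)
  (node (nat_lit 10) (nat_lit 84708) (nat_lit 12) nil nil) nil) (node (nat_lit 5) (nat_lit 77538)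
  (nat_lit 10) nil (node (nat_lit 0) (nat_lit 83264) (nat_lit 10) nil nil)))) (node (nat_lit 0)
  (nat_lit 84563) (nat_lit 9) (node (nat_lit 10) (nat_lit 84708) (nat_lit 10) nil (node (nat_lit
  5) (nat_lit 84563) (nat_lit 10) nil nil)) nil))) (node (nat_lit 4) (nat_lit 77538) (nat_lit 8)
  (node (nat_lit 10) (nat_lit 84601) (nat_lit 9) (node (nat_lit 5) (nat_lit 84601) (nat_lit 10)
  (node (nat_lit 10) (nat_lit 84708) (nat_lit 11) (node (nat_lit 4) (nat_lit 84708) (nat_lit 12)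
  nil nil) nil) nil) (node (nat_lit 5) (nat_lit 77538) (nat_lit 9) (node (nat_lit 4) (nat_lit
  77538) (nat_lit 10) nil nil) nil)) (node (nat_lit 6) (nat_lit 77538) (nat_lit 8) (node (nat_lit
  10) (nat_lit 79012) (nat_lit 9) nil nil) (node (nat_lit 0) (nat_lit 80424) (nat_lit 8) (node
  (nat_lit 5) (nat_lit 80424) (nat_lit 9) nil nil) nil)))) (node (nat_lit 6) (nat_lit 0) (nat_lit
  7) (node (nat_lit 0) (nat_lit 79196) (nat_lit 8) (node (nat_lit 5) (nat_lit 79196) (nat_lit 9)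
  (node (nat_lit 6) (nat_lit 79196) (nat_lit 10) (node (nat_lit 4) (nat_lit 79196) (nat_lit 11)
  (node (nat_lit 6) (nat_lit 79196) (nat_lit 12) nil (node (nat_lit 5) (nat_lit 79196) (nat_lit
  12) nil (node (nat_lit 11) (nat_lit 81046) (nat_lit 12) nil nil))) (node (nat_lit 5) (nat_lit
  79196) (nat_lit 11) (node (nat_lit 4) (nat_lit 79196) (nat_lit 12) (node (nat_lit 6) (nat_lit
  79196) (nat_lit 13) nil nil) (node (nat_lit 11) (nat_lit 81046) (nat_lit 12) nil (node (nat_lit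
  0) (nat_lit 81046) (nat_lit 12) nil nil))) (node (nat_lit 0) (nat_lit 84117) (nat_lit 11) nil
  nil))) nil) (node (nat_lit 6) (nat_lit 79196) (nat_lit 9) nil nil)) nil) nil)) nil))

noncomputable def t238 : Tr :=
  (node (nat_lit 6) (nat_lit 105545) (nat_lit 6) (node (nat_lit 4) (nat_lit 108268) (nat_lit 7)
  (node (nat_lit 5) (nat_lit 0) (nat_lit 8) (node (nat_lit 6) (nat_lit 111519) (nat_lit 9) (node
  (nat_lit 5) (nat_lit 112920) (nat_lit 10) (node (nat_lit 4) (nat_lit 113353) (nat_lit 11) (node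
  (nat_lit 6) (nat_lit 113353) (nat_lit 12) (node (nat_lit 4) (nat_lit 119218) (nat_lit 13) (node
  (nat_lit 5) (nat_lit 122373) (nat_lit 14) nil nil) (node (nat_lit 5) (nat_lit 111642) (nat_lit
  13) nil nil)) (node (nat_lit 5) (nat_lit 113353) (nat_lit 12) (node (nat_lit 6) (nat_lit 117133)
  (nat_lit 13) nil nil) nil)) (node (nat_lit 8) (nat_lit 41345) (nat_lit 11) nil nil)) (node
  (nat_lit 4) (nat_lit 112296) (nat_lit 10) (node (nat_lit 6) (nat_lit 113149) (nat_lit 11) (node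
  (nat_lit 5) (nat_lit 113353) (nat_lit 12) (node (nat_lit 4) (nat_lit 113237) (nat_lit 13) (node
  (nat_lit 5) (nat_lit 114765) (nat_lit 14) (node (nat_lit 6) (nat_lit 116218) (nat_lit 15) nil
  nil) nil) nil) nil) nil) nil)) (node (nat_lit 4) (nat_lit 111748) (nat_lit 9) (node (nat_lit 6)
  (nat_lit 113353) (nat_lit 10) (node (nat_lit 5) (nat_lit 113353) (nat_lit 11) (node (nat_lit 6)
  (nat_lit 113353) (nat_lit 12) (node (nat_lit 4) (nat_lit 119496) (nat_lit 13) (node (nat_lit 5)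
  (nat_lit 120927) (nat_lit 14) (node (nat_lit 6) (nat_lit 121274) (nat_lit 15) nil nil) nil) nil)
  (node (nat_lit 4) (nat_lit 113353) (nat_lit 12) (node (nat_lit 5) (nat_lit 119140) (nat_lit 13)
  (node (nat_lit 6) (nat_lit 121967) (nat_lit 14) nil nil) nil) nil)) (node (nat_lit 4) (nat_lit
  113353) (nat_lit 11) (node (nat_lit 5) (nat_lit 113170) (nat_lit 12) (node (nat_lit 6) (nat_lit
  114612) (nat_lit 13) (node (nat_lit 5) (nat_lit 116617) (nat_lit 14) nil nil) nil) nil) nil))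
  (node (nat_lit 8) (nat_lit 119874) (nat_lit 10) nil nil)) (node (nat_lit 8) (nat_lit 121344)
  (nat_lit 9) nil (node (nat_lit 0) (nat_lit 116963) (nat_lit 9) nil nil)))) (node (nat_lit 6)
  (nat_lit 110605) (nat_lit 8) (node (nat_lit 5) (nat_lit 110605) (nat_lit 9) (node (nat_lit 4)
  (nat_lit 110605) (nat_lit 10) (node (nat_lit 6) (nat_lit 110605) (nat_lit 11) (node (nat_lit 4)
  (nat_lit 110605) (nat_lit 12) (node (nat_lit 5) (nat_lit 116470) (nat_lit 13) (node (nat_lit 6)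
  (nat_lit 116476) (nat_lit 14) nil nil) nil) nil) (node (nat_lit 5) (nat_lit 110605) (nat_lit 11)
  (node (nat_lit 6) (nat_lit 111594) (nat_lit 12) (node (nat_lit 5) (nat_lit 114916) (nat_lit 13)
  nil nil) nil) nil)) (node (nat_lit 6) (nat_lit 110605) (nat_lit 10) (node (nat_lit 4) (nat_lit
  110605) (nat_lit 11) (node (nat_lit 5) (nat_lit 110729) (nat_lit 12) (node (nat_lit 6) (nat_lit
  111556) (nat_lit 13) (node (nat_lit 5) (nat_lit 112327) (nat_lit 14) nil nil) nil) nil) nil)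
  nil)) (node (nat_lit 8) (nat_lit 122181) (nat_lit 9) nil nil)) (node (nat_lit 8) (nat_lit
  120156) (nat_lit 8) nil nil))) (node (nat_lit 5) (nat_lit 108120) (nat_lit 7) (node (nat_lit 4)
  (nat_lit 0) (nat_lit 8) (node (nat_lit 6) (nat_lit 112013) (nat_lit 9) (node (nat_lit 4)
  (nat_lit 111924) (nat_lit 10) (node (nat_lit 5) (nat_lit 111602) (nat_lit 11) (node (nat_lit 6)
  (nat_lit 112591) (nat_lit 12) (node (nat_lit 5) (nat_lit 118500) (nat_lit 13) (node (nat_lit 4)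
  (nat_lit 117597) (nat_lit 14) (node (nat_lit 5) (nat_lit 116269) (nat_lit 15) (node (nat_lit 6)
  (nat_lit 110112) (nat_lit 16) nil nil) nil) (node (nat_lit 8) (nat_lit 74938) (nat_lit 14) nil
  nil)) (node (nat_lit 4) (nat_lit 115102) (nat_lit 13) nil nil)) (node (nat_lit 4) (nat_lit
  110755) (nat_lit 12) (node (nat_lit 6) (nat_lit 109410) (nat_lit 13) nil nil) nil)) nil) (node
  (nat_lit 5) (nat_lit 111989) (nat_lit 10) (node (nat_lit 6) (nat_lit 111667) (nat_lit 11) (node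
  (nat_lit 4) (nat_lit 110908) (nat_lit 12) (node (nat_lit 5) (nat_lit 114281) (nat_lit 13) nil
  nil) nil) nil) nil)) (node (nat_lit 5) (nat_lit 113314) (nat_lit 9) (node (nat_lit 6) (nat_lit
  113553) (nat_lit 10) (node (nat_lit 4) (nat_lit 113553) (nat_lit 11) (node (nat_lit 6) (nat_lit
  113447) (nat_lit 12) (node (nat_lit 5) (nat_lit 116510) (nat_lit 13) (node (nat_lit 6) (nat_lit
  112898) (nat_lit 14) nil nil) nil) (node (nat_lit 5) (nat_lit 113553) (nat_lit 12) (node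
  (nat_lit 4) (nat_lit 111841) (nat_lit 13) nil nil) nil)) (node (nat_lit 5) (nat_lit 113553)
  (nat_lit 11) (node (nat_lit 4) (nat_lit 113553) (nat_lit 12) (node (nat_lit 6) (nat_lit 116411)
  (nat_lit 13) nil nil) (node (nat_lit 8) (nat_lit 80327) (nat_lit 12) nil nil)) nil)) nil) (node
  (nat_lit 8) (nat_lit 118513) (nat_lit 9) nil (node (nat_lit 0) (nat_lit 118513) (nat_lit 9) nil
  nil)))) (node (nat_lit 6) (nat_lit 110900) (nat_lit 8) (node (nat_lit 4) (nat_lit 110900)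
  (nat_lit 9) (node (nat_lit 5) (nat_lit 110900) (nat_lit 10) (node (nat_lit 6) (nat_lit 110900)
  (nat_lit 11) (node (nat_lit 5) (nat_lit 111889) (nat_lit 12) (node (nat_lit 4) (nat_lit 110988)
  (nat_lit 13) nil nil) nil) (node (nat_lit 4) (nat_lit 110900) (nat_lit 11) nil nil)) (node
  (nat_lit 6) (nat_lit 110900) (nat_lit 10) (node (nat_lit 5) (nat_lit 110900) (nat_lit 11) (node
  (nat_lit 4) (nat_lit 111889) (nat_lit 12) (node (nat_lit 5) (nat_lit 114006) (nat_lit 13) (node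
  (nat_lit 6) (nat_lit 116149) (nat_lit 14) (node (nat_lit 5) (nat_lit 117170) (nat_lit 15) nil
  nil) nil) nil) nil) nil) nil)) (node (nat_lit 8) (nat_lit 124090) (nat_lit 9) nil nil)) nil))
  (node (nat_lit 8) (nat_lit 124469) (nat_lit 7) (node (nat_lit 5) (nat_lit 124469) (nat_lit 8)
  nil (node (nat_lit 4) (nat_lit 124469) (nat_lit 8) nil nil)) nil))) (node (nat_lit 4) (nat_lit
  0) (nat_lit 6) (node (nat_lit 6) (nat_lit 108431) (nat_lit 7) (node (nat_lit 5) (nat_lit 0)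
  (nat_lit 8) (node (nat_lit 6) (nat_lit 112666) (nat_lit 9) (node (nat_lit 4) (nat_lit 113208)
  (nat_lit 10) (node (nat_lit 5) (nat_lit 113208) (nat_lit 11) (node (nat_lit 4) (nat_lit 113045)
  (nat_lit 12) (node (nat_lit 6) (nat_lit 117929) (nat_lit 13) (node (nat_lit 4) (nat_lit 121849)
  (nat_lit 14) (node (nat_lit 5) (nat_lit 119426) (nat_lit 15) (node (nat_lit 6) (nat_lit 114129)
  (nat_lit 16) nil nil) nil) nil) nil) (node (nat_lit 6) (nat_lit 113208) (nat_lit 12) (node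
  (nat_lit 5) (nat_lit 115840) (nat_lit 13) (node (nat_lit 8) (nat_lit 78112) (nat_lit 14) nil
  nil) nil) nil)) (node (nat_lit 6) (nat_lit 113208) (nat_lit 11) (node (nat_lit 5) (nat_lit
  113208) (nat_lit 12) (node (nat_lit 4) (nat_lit 114396) (nat_lit 13) nil nil) nil) nil)) (node
  (nat_lit 8) (nat_lit 120792) (nat_lit 10) nil nil)) (node (nat_lit 4) (nat_lit 112441) (nat_lit
  9) (node (nat_lit 5) (nat_lit 113208) (nat_lit 10) (node (nat_lit 6) (nat_lit 113208) (nat_lit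
  11) (node (nat_lit 5) (nat_lit 113208) (nat_lit 12) (node (nat_lit 8) (nat_lit 80222) (nat_lit
  13) (node (nat_lit 4) (nat_lit 80222) (nat_lit 14) nil nil) (node (nat_lit 4) (nat_lit 112803)
  (nat_lit 13) nil nil)) (node (nat_lit 4) (nat_lit 113208) (nat_lit 12) (node (nat_lit 6)
  (nat_lit 111686) (nat_lit 13) nil (node (nat_lit 5) (nat_lit 115719) (nat_lit 13) nil nil))
  nil)) nil) (node (nat_lit 6) (nat_lit 113208) (nat_lit 10) (node (nat_lit 4) (nat_lit 113208)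
  (nat_lit 11) (node (nat_lit 5) (nat_lit 113208) (nat_lit 12) (node (nat_lit 6) (nat_lit 115125)
  (nat_lit 13) (node (nat_lit 5) (nat_lit 116818) (nat_lit 14) nil nil) nil) nil) nil) nil)) (node
  (nat_lit 8) (nat_lit 124913) (nat_lit 9) nil (node (nat_lit 0) (nat_lit 118122) (nat_lit 9) nil
  nil)))) (node (nat_lit 4) (nat_lit 110610) (nat_lit 8) (node (nat_lit 5) (nat_lit 110610)
  (nat_lit 9) (node (nat_lit 6) (nat_lit 110610) (nat_lit 10) (node (nat_lit 4) (nat_lit 110610)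
  (nat_lit 11) nil (node (nat_lit 5) (nat_lit 110610) (nat_lit 11) nil nil)) (node (nat_lit 4)
  (nat_lit 110610) (nat_lit 10) (node (nat_lit 6) (nat_lit 110610) (nat_lit 11) nil nil) nil))
  (node (nat_lit 8) (nat_lit 124596) (nat_lit 9) nil nil)) (node (nat_lit 8) (nat_lit 121791)
  (nat_lit 8) nil nil))) (node (nat_lit 5) (nat_lit 108313) (nat_lit 7) (node (nat_lit 6) (nat_lit
  0) (nat_lit 8) (node (nat_lit 4) (nat_lit 111281) (nat_lit 9) (node (nat_lit 6) (nat_lit 112030)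
  (nat_lit 10) (node (nat_lit 5) (nat_lit 112573) (nat_lit 11) (node (nat_lit 4) (nat_lit 113208)
  (nat_lit 12) (node (nat_lit 5) (nat_lit 115678) (nat_lit 13) (node (nat_lit 6) (nat_lit 117822)
  (nat_lit 14) (node (nat_lit 5) (nat_lit 118842) (nat_lit 15) nil nil) nil) (node (nat_lit 6)
  (nat_lit 115719) (nat_lit 13) nil nil)) (node (nat_lit 6) (nat_lit 113333) (nat_lit 12) (node
  (nat_lit 4) (nat_lit 118194) (nat_lit 13) nil nil) nil)) nil) (node (nat_lit 5) (nat_lit 111281)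
  (nat_lit 10) (node (nat_lit 4) (nat_lit 111281) (nat_lit 11) (node (nat_lit 6) (nat_lit 111281)
  (nat_lit 12) nil nil) nil) nil)) (node (nat_lit 5) (nat_lit 111835) (nat_lit 9) (node (nat_lit
  4) (nat_lit 113043) (nat_lit 10) (node (nat_lit 6) (nat_lit 113208) (nat_lit 11) (node (nat_lit
  4) (nat_lit 113208) (nat_lit 12) (node (nat_lit 5) (nat_lit 119236) (nat_lit 13) (node (nat_lit
  6) (nat_lit 119242) (nat_lit 14) nil (node (nat_lit 4) (nat_lit 117901) (nat_lit 14) nil nil))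
  nil) (node (nat_lit 5) (nat_lit 113266) (nat_lit 12) (node (nat_lit 6) (nat_lit 118812) (nat_lit
  13) nil nil) nil)) (node (nat_lit 5) (nat_lit 113208) (nat_lit 11) (node (nat_lit 6) (nat_lit
  113208) (nat_lit 12) nil nil) nil)) nil) (node (nat_lit 8) (nat_lit 124146) (nat_lit 9) nil
  (node (nat_lit 0) (nat_lit 117356) (nat_lit 9) nil nil)))) (node (nat_lit 4) (nat_lit 110471)
  (nat_lit 8) (node (nat_lit 6) (nat_lit 111538) (nat_lit 9) (node (nat_lit 5) (nat_lit 111515)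
  (nat_lit 10) (node (nat_lit 6) (nat_lit 111515) (nat_lit 11) (node (nat_lit 4) (nat_lit 111640)
  (nat_lit 12) (node (nat_lit 5) (nat_lit 114763) (nat_lit 13) (node (nat_lit 6) (nat_lit 116117)
  (nat_lit 14) (node (nat_lit 5) (nat_lit 115956) (nat_lit 15) nil nil) nil) nil) nil) (node
  (nat_lit 4) (nat_lit 112367) (nat_lit 11) (node (nat_lit 5) (nat_lit 111668) (nat_lit 12) (node
  (nat_lit 6) (nat_lit 114635) (nat_lit 13) (node (nat_lit 5) (nat_lit 115953) (nat_lit 14) nil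
  nil) nil) nil) nil)) (node (nat_lit 4) (nat_lit 111538) (nat_lit 10) (node (nat_lit 5) (nat_lit
  111538) (nat_lit 11) nil nil) nil)) (node (nat_lit 8) (nat_lit 123552) (nat_lit 9) nil nil))
  (node (nat_lit 8) (nat_lit 120202) (nat_lit 8) nil nil))) (node (nat_lit 8) (nat_lit 127410)
  (nat_lit 7) (node (nat_lit 6) (nat_lit 127410) (nat_lit 8) (node (nat_lit 5) (nat_lit 127410)
  (nat_lit 9) (node (nat_lit 4) (nat_lit 127410) (nat_lit 10) (node (nat_lit 6) (nat_lit 127410)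
  (nat_lit 11) (node (nat_lit 4) (nat_lit 127410) (nat_lit 12) (node (nat_lit 5) (nat_lit 127410)
  (nat_lit 13) (node (nat_lit 6) (nat_lit 127410) (nat_lit 14) (node (nat_lit 5) (nat_lit 128112)
  (nat_lit 15) nil nil) nil) nil) nil) nil) nil) nil) (node (nat_lit 5) (nat_lit 127410) (nat_lit
  8) (node (nat_lit 6) (nat_lit 127410) (nat_lit 9) nil nil) nil)) (node (nat_lit 0) (nat_lit
  110360) (nat_lit 7) nil nil)))) (node (nat_lit 5) (nat_lit 105366) (nat_lit 6) (node (nat_lit 6)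
  (nat_lit 108035) (nat_lit 7) (node (nat_lit 4) (nat_lit 0) (nat_lit 8) (node (nat_lit 6)
  (nat_lit 113124) (nat_lit 9) (node (nat_lit 5) (nat_lit 113499) (nat_lit 10) (node (nat_lit 4)
  (nat_lit 113499) (nat_lit 11) (node (nat_lit 5) (nat_lit 113499) (nat_lit 12) (node (nat_lit 6)
  (nat_lit 119698) (nat_lit 13) (node (nat_lit 5) (nat_lit 121016) (nat_lit 14) nil nil) nil)
  (node (nat_lit 6) (nat_lit 113499) (nat_lit 12) (node (nat_lit 4) (nat_lit 119175) (nat_lit 13)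
  nil nil) nil)) (node (nat_lit 6) (nat_lit 113499) (nat_lit 11) (node (nat_lit 4) (nat_lit
  113567) (nat_lit 12) (node (nat_lit 5) (nat_lit 116703) (nat_lit 13) (node (nat_lit 6) (nat_lit
  117285) (nat_lit 14) (node (nat_lit 5) (nat_lit 117123) (nat_lit 15) nil nil) nil) nil) nil)
  nil)) nil) (node (nat_lit 5) (nat_lit 112983) (nat_lit 9) (node (nat_lit 4) (nat_lit 113499)
  (nat_lit 10) (node (nat_lit 6) (nat_lit 113499) (nat_lit 11) (node (nat_lit 5) (nat_lit 113499)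
  (nat_lit 12) (node (nat_lit 4) (nat_lit 118717) (nat_lit 13) (node (nat_lit 5) (nat_lit 121411)
  (nat_lit 14) (node (nat_lit 6) (nat_lit 122863) (nat_lit 15) nil nil) nil) nil) (node (nat_lit
  4) (nat_lit 113499) (nat_lit 12) (node (nat_lit 5) (nat_lit 118215) (nat_lit 13) nil nil) nil))
  nil) (node (nat_lit 6) (nat_lit 113499) (nat_lit 10) (node (nat_lit 5) (nat_lit 113499) (nat_lit
  11) (node (nat_lit 4) (nat_lit 113499) (nat_lit 12) (node (nat_lit 5) (nat_lit 116866) (nat_lit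
  13) nil nil) (node (nat_lit 8) (nat_lit 67859) (nat_lit 12) nil nil)) nil) nil)) (node (nat_lit
  8) (nat_lit 118464) (nat_lit 9) nil (node (nat_lit 0) (nat_lit 118464) (nat_lit 9) nil nil))))
  (node (nat_lit 5) (nat_lit 109992) (nat_lit 8) (node (nat_lit 4) (nat_lit 109992) (nat_lit 9)
  (node (nat_lit 6) (nat_lit 109992) (nat_lit 10) (node (nat_lit 5) (nat_lit 109992) (nat_lit 11)
  (node (nat_lit 6) (nat_lit 110980) (nat_lit 12) (node (nat_lit 4) (nat_lit 113097) (nat_lit 13)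
  (node (nat_lit 6) (nat_lit 115241) (nat_lit 14) (node (nat_lit 5) (nat_lit 113689) (nat_lit 15)
  (node (nat_lit 4) (nat_lit 112277) (nat_lit 16) (node (nat_lit 5) (nat_lit 111314) (nat_lit 17)
  (node (nat_lit 6) (nat_lit 110034) (nat_lit 18) (node (nat_lit 5) (nat_lit 106738) (nat_lit 19)
  nil nil) nil) nil) nil) nil) nil) nil) nil) (node (nat_lit 4) (nat_lit 109992) (nat_lit 11)
  (node (nat_lit 5) (nat_lit 109992) (nat_lit 12) (node (nat_lit 6) (nat_lit 111288) (nat_lit 13)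
  nil nil) nil) nil)) (node (nat_lit 5) (nat_lit 109992) (nat_lit 10) (node (nat_lit 6) (nat_lit
  109992) (nat_lit 11) nil nil) nil)) nil) (node (nat_lit 8) (nat_lit 121395) (nat_lit 8) nil
  nil))) (node (nat_lit 4) (nat_lit 108410) (nat_lit 7) (node (nat_lit 6) (nat_lit 111385)
  (nat_lit 8) (node (nat_lit 4) (nat_lit 113432) (nat_lit 9) (node (nat_lit 5) (nat_lit 113570)
  (nat_lit 10) (node (nat_lit 6) (nat_lit 113570) (nat_lit 11) (node (nat_lit 5) (nat_lit 113570)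
  (nat_lit 12) (node (nat_lit 4) (nat_lit 120742) (nat_lit 13) (node (nat_lit 5) (nat_lit 123722)
  (nat_lit 14) (node (nat_lit 6) (nat_lit 125092) (nat_lit 15) nil nil) nil) (node (nat_lit 8)
  (nat_lit 78087) (nat_lit 13) nil nil)) (node (nat_lit 4) (nat_lit 113570) (nat_lit 12) (node
  (nat_lit 6) (nat_lit 112048) (nat_lit 13) nil nil) nil)) (node (nat_lit 4) (nat_lit 113570)
  (nat_lit 11) (node (nat_lit 6) (nat_lit 113616) (nat_lit 12) (node (nat_lit 5) (nat_lit 113338)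
  (nat_lit 13) nil nil) nil) nil)) nil) (node (nat_lit 5) (nat_lit 113279) (nat_lit 9) (node
  (nat_lit 6) (nat_lit 113570) (nat_lit 10) (node (nat_lit 4) (nat_lit 113570) (nat_lit 11) (node
  (nat_lit 5) (nat_lit 113570) (nat_lit 12) (node (nat_lit 6) (nat_lit 115352) (nat_lit 13) (node
  (nat_lit 5) (nat_lit 115140) (nat_lit 14) (node (nat_lit 8) (nat_lit 88489) (nat_lit 15) nil
  nil) nil) (node (nat_lit 4) (nat_lit 111859) (nat_lit 13) nil nil)) (node (nat_lit 6) (nat_lit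
  113570) (nat_lit 12) (node (nat_lit 5) (nat_lit 114439) (nat_lit 13) nil nil) nil)) nil) (node
  (nat_lit 4) (nat_lit 113279) (nat_lit 10) (node (nat_lit 5) (nat_lit 113279) (nat_lit 11) (node
  (nat_lit 6) (nat_lit 113279) (nat_lit 12) nil nil) nil) nil)) (node (nat_lit 8) (nat_lit 118580)
  (nat_lit 9) nil nil))) (node (nat_lit 5) (nat_lit 111044) (nat_lit 8) (node (nat_lit 6) (nat_lit
  111044) (nat_lit 9) (node (nat_lit 4) (nat_lit 111044) (nat_lit 10) (node (nat_lit 5) (nat_lit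
  111044) (nat_lit 11) (node (nat_lit 4) (nat_lit 110939) (nat_lit 12) (node (nat_lit 6) (nat_lit
  109593) (nat_lit 13) (node (nat_lit 4) (nat_lit 113459) (nat_lit 14) (node (nat_lit 5) (nat_lit
  114215) (nat_lit 15) (node (nat_lit 6) (nat_lit 108791) (nat_lit 16) (node (nat_lit 5) (nat_lit
  101811) (nat_lit 17) nil nil) nil) nil) nil) nil) nil) (node (nat_lit 6) (nat_lit 111044)
  (nat_lit 11) nil nil)) (node (nat_lit 5) (nat_lit 111044) (nat_lit 10) (node (nat_lit 8)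
  (nat_lit 80008) (nat_lit 11) nil (node (nat_lit 4) (nat_lit 111044) (nat_lit 11) nil nil)) nil))
  (node (nat_lit 8) (nat_lit 118239) (nat_lit 9) nil nil)) (node (nat_lit 8) (nat_lit 120299)
  (nat_lit 8) nil nil))) nil)) (node (nat_lit 0) (nat_lit 116500) (nat_lit 6) (node (nat_lit 0)
  (nat_lit 118461) (nat_lit 7) nil (node (nat_lit 4) (nat_lit 116500) (nat_lit 7) nil (node
  (nat_lit 6) (nat_lit 116500) (nat_lit 7) nil (node (nat_lit 8) (nat_lit 118461) (nat_lit 7) nil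
  nil)))) nil))))

noncomputable def t239 : Tr :=
  (node (nat_lit 7) (nat_lit 0) (nat_lit 7) (node (nat_lit 5) (nat_lit 0) (nat_lit 8) (node
  (nat_lit 4) (nat_lit 82017) (nat_lit 9) (node (nat_lit 7) (nat_lit 82003) (nat_lit 10) (node
  (nat_lit 4) (nat_lit 82044) (nat_lit 11) (node (nat_lit 5) (nat_lit 82044) (nat_lit 12) (node
  (nat_lit 7) (nat_lit 82044) (nat_lit 13) nil (node (nat_lit 4) (nat_lit 82372) (nat_lit 13)
  (node (nat_lit 7) (nat_lit 82721) (nat_lit 14) (node (nat_lit 5) (nat_lit 83932) (nat_lit 15)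
  nil nil) nil) nil)) nil) (node (nat_lit 5) (nat_lit 82003) (nat_lit 11) (node (nat_lit 7)
  (nat_lit 82003) (nat_lit 12) (node (nat_lit 4) (nat_lit 82003) (nat_lit 13) (node (nat_lit 5)
  (nat_lit 84266) (nat_lit 14) (node (nat_lit 4) (nat_lit 86772) (nat_lit 15) (node (nat_lit 7)
  (nat_lit 88799) (nat_lit 16) (node (nat_lit 5) (nat_lit 89977) (nat_lit 17) nil nil) nil) nil)
  nil) nil) nil) nil)) (node (nat_lit 5) (nat_lit 82058) (nat_lit 10) (node (nat_lit 7) (nat_lit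
  82021) (nat_lit 11) (node (nat_lit 4) (nat_lit 82021) (nat_lit 12) (node (nat_lit 5) (nat_lit
  82021) (nat_lit 13) (node (nat_lit 4) (nat_lit 84300) (nat_lit 14) (node (nat_lit 7) (nat_lit
  86073) (nat_lit 15) (node (nat_lit 5) (nat_lit 87395) (nat_lit 16) nil nil) nil) nil) (node
  (nat_lit 7) (nat_lit 82021) (nat_lit 13) nil nil)) (node (nat_lit 5) (nat_lit 82021) (nat_lit
  12) (node (nat_lit 4) (nat_lit 82021) (nat_lit 13) (node (nat_lit 7) (nat_lit 83049) (nat_lit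
  14) nil nil) nil) nil)) nil) nil)) (node (nat_lit 7) (nat_lit 82951) (nat_lit 9) (node (nat_lit
  4) (nat_lit 82951) (nat_lit 10) (node (nat_lit 5) (nat_lit 82951) (nat_lit 11) (node (nat_lit 4)
  (nat_lit 82951) (nat_lit 12) (node (nat_lit 7) (nat_lit 82951) (nat_lit 13) (node (nat_lit 5)
  (nat_lit 85058) (nat_lit 14) (node (nat_lit 9) (nat_lit 47357) (nat_lit 15) nil nil) (node
  (nat_lit 4) (nat_lit 86759) (nat_lit 14) (node (nat_lit 5) (nat_lit 88490) (nat_lit 15) nil nil)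
  nil)) nil) (node (nat_lit 7) (nat_lit 82951) (nat_lit 12) (node (nat_lit 5) (nat_lit 82951)
  (nat_lit 13) (node (nat_lit 4) (nat_lit 80584) (nat_lit 14) nil nil) nil) nil)) (node (nat_lit
  7) (nat_lit 82951) (nat_lit 11) (node (nat_lit 5) (nat_lit 82951) (nat_lit 12) (node (nat_lit 4)
  (nat_lit 82951) (nat_lit 13) (node (nat_lit 5) (nat_lit 80584) (nat_lit 14) nil (node (nat_lit
  7) (nat_lit 83979) (nat_lit 14) nil nil)) (node (nat_lit 7) (nat_lit 82951) (nat_lit 13) nil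
  nil)) nil) (node (nat_lit 9) (nat_lit 86277) (nat_lit 11) nil nil))) (node (nat_lit 9) (nat_lit
  91399) (nat_lit 10) nil (node (nat_lit 0) (nat_lit 89316) (nat_lit 10) nil nil))) (node (nat_lit
  0) (nat_lit 87470) (nat_lit 9) nil nil))) (node (nat_lit 4) (nat_lit 0) (nat_lit 8) (node
  (nat_lit 5) (nat_lit 82394) (nat_lit 9) (node (nat_lit 7) (nat_lit 82394) (nat_lit 10) (node
  (nat_lit 4) (nat_lit 82394) (nat_lit 11) (node (nat_lit 7) (nat_lit 82394) (nat_lit 12) (node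
  (nat_lit 5) (nat_lit 82394) (nat_lit 13) (node (nat_lit 7) (nat_lit 86649) (nat_lit 14) (node
  (nat_lit 4) (nat_lit 87387) (nat_lit 15) (node (nat_lit 5) (nat_lit 85644) (nat_lit 16) (node
  (nat_lit 4) (nat_lit 81838) (nat_lit 17) (node (nat_lit 7) (nat_lit 77362) (nat_lit 18) nil nil)
  nil) nil) nil) (node (nat_lit 4) (nat_lit 82608) (nat_lit 14) nil nil)) nil) nil) (node (nat_lit
  5) (nat_lit 82394) (nat_lit 11) (node (nat_lit 4) (nat_lit 82394) (nat_lit 12) (node (nat_lit 7)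
  (nat_lit 82394) (nat_lit 13) nil nil) nil) nil)) (node (nat_lit 4) (nat_lit 82764) (nat_lit 10)
  (node (nat_lit 7) (nat_lit 82951) (nat_lit 11) (node (nat_lit 5) (nat_lit 82951) (nat_lit 12)
  (node (nat_lit 7) (nat_lit 82951) (nat_lit 13) (node (nat_lit 4) (nat_lit 87098) (nat_lit 14)
  (node (nat_lit 5) (nat_lit 88588) (nat_lit 15) nil nil) nil) (node (nat_lit 4) (nat_lit 82951)
  (nat_lit 13) nil nil)) (node (nat_lit 4) (nat_lit 82951) (nat_lit 12) (node (nat_lit 5) (nat_lit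
  82951) (nat_lit 13) nil nil) nil)) nil) nil)) (node (nat_lit 7) (nat_lit 82239) (nat_lit 9)
  (node (nat_lit 5) (nat_lit 82265) (nat_lit 10) (node (nat_lit 4) (nat_lit 82306) (nat_lit 11)
  (node (nat_lit 5) (nat_lit 82012) (nat_lit 12) (node (nat_lit 7) (nat_lit 82012) (nat_lit 13)
  (node (nat_lit 5) (nat_lit 82316) (nat_lit 14) nil (node (nat_lit 4) (nat_lit 84027) (nat_lit
  14) nil nil)) nil) (node (nat_lit 7) (nat_lit 82306) (nat_lit 12) (node (nat_lit 4) (nat_lit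
  82306) (nat_lit 13) nil nil) nil)) (node (nat_lit 7) (nat_lit 82229) (nat_lit 11) (node (nat_lit
  4) (nat_lit 82229) (nat_lit 12) (node (nat_lit 5) (nat_lit 82229) (nat_lit 13) (node (nat_lit 4)
  (nat_lit 86383) (nat_lit 14) (node (nat_lit 7) (nat_lit 89330) (nat_lit 15) (node (nat_lit 5)
  (nat_lit 88801) (nat_lit 16) nil nil) nil) (node (nat_lit 7) (nat_lit 84450) (nat_lit 14) nil
  nil)) (node (nat_lit 7) (nat_lit 82229) (nat_lit 13) nil nil)) nil) nil)) (node (nat_lit 9)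
  (nat_lit 85183) (nat_lit 10) nil nil)) (node (nat_lit 9) (nat_lit 92318) (nat_lit 9) nil (node
  (nat_lit 0) (nat_lit 84404) (nat_lit 9) nil nil)))) (node (nat_lit 9) (nat_lit 92865) (nat_lit
  8) (node (nat_lit 5) (nat_lit 92865) (nat_lit 9) (node (nat_lit 7) (nat_lit 92865) (nat_lit 10)
  (node (nat_lit 5) (nat_lit 92865) (nat_lit 11) (node (nat_lit 4) (nat_lit 92865) (nat_lit 12)
  (node (nat_lit 7) (nat_lit 92865) (nat_lit 13) (node (nat_lit 4) (nat_lit 92865) (nat_lit 14)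
  (node (nat_lit 5) (nat_lit 92983) (nat_lit 15) (node (nat_lit 4) (nat_lit 93052) (nat_lit 16)
  (node (nat_lit 7) (nat_lit 93052) (nat_lit 17) (node (nat_lit 5) (nat_lit 93052) (nat_lit 18)
  nil nil) nil) nil) nil) nil) (node (nat_lit 5) (nat_lit 92865) (nat_lit 13) nil nil)) nil) (node
  (nat_lit 4) (nat_lit 92865) (nat_lit 11) (node (nat_lit 5) (nat_lit 92865) (nat_lit 12) nil nil)
  nil)) (node (nat_lit 4) (nat_lit 92865) (nat_lit 10) nil nil)) (node (nat_lit 4) (nat_lit 92865)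
  (nat_lit 9) (node (nat_lit 7) (nat_lit 92865) (nat_lit 10) (node (nat_lit 4) (nat_lit 92865)
  (nat_lit 11) nil (node (nat_lit 5) (nat_lit 92865) (nat_lit 11) nil nil)) nil) nil)) (node
  (nat_lit 0) (nat_lit 88207) (nat_lit 8) nil nil)))) (node (nat_lit 4) (nat_lit 0) (nat_lit 7)
  (node (nat_lit 7) (nat_lit 0) (nat_lit 8) (node (nat_lit 5) (nat_lit 82396) (nat_lit 9) (node
  (nat_lit 4) (nat_lit 82663) (nat_lit 10) (node (nat_lit 7) (nat_lit 82663) (nat_lit 11) (node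
  (nat_lit 4) (nat_lit 82663) (nat_lit 12) (node (nat_lit 5) (nat_lit 82951) (nat_lit 13) (node
  (nat_lit 7) (nat_lit 85173) (nat_lit 14) nil (node (nat_lit 4) (nat_lit 85348) (nat_lit 14)
  (node (nat_lit 7) (nat_lit 85634) (nat_lit 15) (node (nat_lit 5) (nat_lit 86592) (nat_lit 16)
  nil nil) nil) nil)) nil) nil) (node (nat_lit 5) (nat_lit 82663) (nat_lit 11) (node (nat_lit 7)
  (nat_lit 82663) (nat_lit 12) (node (nat_lit 4) (nat_lit 82663) (nat_lit 13) (node (nat_lit 5)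
  (nat_lit 84602) (nat_lit 14) (node (nat_lit 4) (nat_lit 85385) (nat_lit 15) nil nil) nil) (node
  (nat_lit 5) (nat_lit 82663) (nat_lit 13) nil nil)) nil) nil)) (node (nat_lit 7) (nat_lit 82382)
  (nat_lit 10) (node (nat_lit 4) (nat_lit 82382) (nat_lit 11) (node (nat_lit 5) (nat_lit 82382)
  (nat_lit 12) (node (nat_lit 4) (nat_lit 82711) (nat_lit 13) (node (nat_lit 7) (nat_lit 86815)
  (nat_lit 14) (node (nat_lit 5) (nat_lit 88612) (nat_lit 15) (node (nat_lit 9) (nat_lit 40707)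
  (nat_lit 16) nil nil) (node (nat_lit 4) (nat_lit 88235) (nat_lit 15) nil nil)) nil) (node
  (nat_lit 7) (nat_lit 82382) (nat_lit 13) nil nil)) (node (nat_lit 7) (nat_lit 82382) (nat_lit
  12) (node (nat_lit 5) (nat_lit 82382) (nat_lit 13) nil nil) nil)) nil) nil)) (node (nat_lit 4)
  (nat_lit 82781) (nat_lit 9) (node (nat_lit 5) (nat_lit 82951) (nat_lit 10) (node (nat_lit 7)
  (nat_lit 82951) (nat_lit 11) (node (nat_lit 5) (nat_lit 82951) (nat_lit 12) (node (nat_lit 4)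
  (nat_lit 82951) (nat_lit 13) (node (nat_lit 7) (nat_lit 86913) (nat_lit 14) nil (node (nat_lit
  5) (nat_lit 80584) (nat_lit 14) nil nil)) nil) (node (nat_lit 4) (nat_lit 82951) (nat_lit 12)
  (node (nat_lit 7) (nat_lit 82951) (nat_lit 13) nil nil) nil)) (node (nat_lit 4) (nat_lit 82951)
  (nat_lit 11) (node (nat_lit 7) (nat_lit 82951) (nat_lit 12) (node (nat_lit 5) (nat_lit 82951)
  (nat_lit 13) (node (nat_lit 4) (nat_lit 83979) (nat_lit 14) nil nil) nil) nil) nil)) nil) (node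
  (nat_lit 9) (nat_lit 91683) (nat_lit 9) nil (node (nat_lit 0) (nat_lit 87386) (nat_lit 9) nil
  nil)))) (node (nat_lit 5) (nat_lit 0) (nat_lit 8) (node (nat_lit 4) (nat_lit 82436) (nat_lit 9)
  (node (nat_lit 7) (nat_lit 82698) (nat_lit 10) (node (nat_lit 5) (nat_lit 82951) (nat_lit 11)
  (node (nat_lit 7) (nat_lit 82951) (nat_lit 12) (node (nat_lit 4) (nat_lit 82951) (nat_lit 13)
  (node (nat_lit 5) (nat_lit 84860) (nat_lit 14) (node (nat_lit 4) (nat_lit 87366) (nat_lit 15)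
  (node (nat_lit 7) (nat_lit 89392) (nat_lit 16) nil nil) nil) (node (nat_lit 7) (nat_lit 85900)
  (nat_lit 14) nil nil)) nil) (node (nat_lit 4) (nat_lit 82951) (nat_lit 12) (node (nat_lit 5)
  (nat_lit 82979) (nat_lit 13) (node (nat_lit 7) (nat_lit 86589) (nat_lit 14) nil nil) nil) nil))
  (node (nat_lit 4) (nat_lit 82902) (nat_lit 11) (node (nat_lit 5) (nat_lit 82608) (nat_lit 12)
  (node (nat_lit 7) (nat_lit 82278) (nat_lit 13) (node (nat_lit 5) (nat_lit 83306) (nat_lit 14)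
  nil (node (nat_lit 4) (nat_lit 83306) (nat_lit 14) nil nil)) (node (nat_lit 4) (nat_lit 82608)
  (nat_lit 13) nil nil)) nil) (node (nat_lit 9) (nat_lit 86024) (nat_lit 11) nil nil))) (node
  (nat_lit 9) (nat_lit 90883) (nat_lit 10) nil (node (nat_lit 0) (nat_lit 88801) (nat_lit 10) nil
  nil))) (node (nat_lit 7) (nat_lit 82236) (nat_lit 9) (node (nat_lit 4) (nat_lit 82236) (nat_lit
  10) (node (nat_lit 5) (nat_lit 82236) (nat_lit 11) (node (nat_lit 4) (nat_lit 82236) (nat_lit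
  12) (node (nat_lit 7) (nat_lit 82236) (nat_lit 13) nil nil) nil) (node (nat_lit 7) (nat_lit
  82236) (nat_lit 11) (node (nat_lit 5) (nat_lit 82236) (nat_lit 12) (node (nat_lit 7) (nat_lit
  82236) (nat_lit 13) nil (node (nat_lit 4) (nat_lit 82236) (nat_lit 13) nil nil)) nil) nil))
  (node (nat_lit 5) (nat_lit 82236) (nat_lit 10) (node (nat_lit 4) (nat_lit 82236) (nat_lit 11)
  (node (nat_lit 5) (nat_lit 82236) (nat_lit 12) (node (nat_lit 7) (nat_lit 82096) (nat_lit 13)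
  (node (nat_lit 4) (nat_lit 84035) (nat_lit 14) nil nil) nil) (node (nat_lit 7) (nat_lit 82236)
  (nat_lit 12) nil nil)) nil) nil)) (node (nat_lit 9) (nat_lit 92197) (nat_lit 9) (node (nat_lit
  5) (nat_lit 92197) (nat_lit 10) nil nil) (node (nat_lit 0) (nat_lit 87350) (nat_lit 9) nil
  nil)))) (node (nat_lit 9) (nat_lit 0) (nat_lit 8) (node (nat_lit 5) (nat_lit 93052) (nat_lit 9)
  (node (nat_lit 4) (nat_lit 93052) (nat_lit 10) (node (nat_lit 5) (nat_lit 93052) (nat_lit 11)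
  (node (nat_lit 7) (nat_lit 93052) (nat_lit 12) (node (nat_lit 4) (nat_lit 93052) (nat_lit 13)
  (node (nat_lit 5) (nat_lit 93052) (nat_lit 14) (node (nat_lit 4) (nat_lit 93052) (nat_lit 15)
  (node (nat_lit 7) (nat_lit 93052) (nat_lit 16) (node (nat_lit 5) (nat_lit 93052) (nat_lit 17)
  nil nil) nil) nil) (node (nat_lit 7) (nat_lit 93052) (nat_lit 14) nil nil)) (node (nat_lit 5)
  (nat_lit 93052) (nat_lit 13) nil nil)) nil) (node (nat_lit 7) (nat_lit 93052) (nat_lit 11) (node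
  (nat_lit 5) (nat_lit 93052) (nat_lit 12) (node (nat_lit 7) (nat_lit 93052) (nat_lit 13) (node
  (nat_lit 4) (nat_lit 93052) (nat_lit 14) (node (nat_lit 5) (nat_lit 93052) (nat_lit 15) (node
  (nat_lit 4) (nat_lit 93052) (nat_lit 16) (node (nat_lit 7) (nat_lit 93052) (nat_lit 17) nil nil)
  nil) nil) nil) nil) nil) nil)) (node (nat_lit 7) (nat_lit 93052) (nat_lit 10) nil (node (nat_lit
  9) (nat_lit 93052) (nat_lit 10) nil nil))) (node (nat_lit 7) (nat_lit 93052) (nat_lit 9) (node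
  (nat_lit 4) (nat_lit 93052) (nat_lit 10) (node (nat_lit 5) (nat_lit 93052) (nat_lit 11) nil
  (node (nat_lit 7) (nat_lit 93052) (nat_lit 11) nil nil)) nil) (node (nat_lit 0) (nat_lit 93052)
  (nat_lit 9) nil nil))) (node (nat_lit 0) (nat_lit 88031) (nat_lit 8) nil nil)))) (node (nat_lit
  5) (nat_lit 0) (nat_lit 7) (node (nat_lit 7) (nat_lit 0) (nat_lit 8) (node (nat_lit 4) (nat_lit
  82808) (nat_lit 9) (node (nat_lit 7) (nat_lit 82808) (nat_lit 10) (node (nat_lit 5) (nat_lit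
  82808) (nat_lit 11) (node (nat_lit 4) (nat_lit 82808) (nat_lit 12) (node (nat_lit 5) (nat_lit
  82808) (nat_lit 13) (node (nat_lit 7) (nat_lit 86048) (nat_lit 14) (node (nat_lit 4) (nat_lit
  87562) (nat_lit 15) (node (nat_lit 5) (nat_lit 87276) (nat_lit 16) (node (nat_lit 4) (nat_lit
  84278) (nat_lit 17) nil nil) nil) nil) nil) nil) (node (nat_lit 7) (nat_lit 82808) (nat_lit 12)
  (node (nat_lit 4) (nat_lit 82808) (nat_lit 13) (node (nat_lit 5) (nat_lit 85145) (nat_lit 14)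
  (node (nat_lit 4) (nat_lit 87656) (nat_lit 15) (node (nat_lit 7) (nat_lit 89557) (nat_lit 16)
  (node (nat_lit 5) (nat_lit 90890) (nat_lit 17) nil nil) nil) nil) nil) nil) nil)) nil) (node
  (nat_lit 5) (nat_lit 82951) (nat_lit 10) (node (nat_lit 4) (nat_lit 82951) (nat_lit 11) (node
  (nat_lit 7) (nat_lit 82951) (nat_lit 12) (node (nat_lit 5) (nat_lit 82951) (nat_lit 13) (node
  (nat_lit 9) (nat_lit 28738) (nat_lit 14) nil nil) nil) nil) (node (nat_lit 7) (nat_lit 82951)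
  (nat_lit 11) (node (nat_lit 5) (nat_lit 82951) (nat_lit 12) nil nil) nil)) nil)) (node (nat_lit
  5) (nat_lit 82805) (nat_lit 9) (node (nat_lit 4) (nat_lit 82805) (nat_lit 10) (node (nat_lit 7)
  (nat_lit 82805) (nat_lit 11) (node (nat_lit 4) (nat_lit 82805) (nat_lit 12) (node (nat_lit 5)
  (nat_lit 82951) (nat_lit 13) (node (nat_lit 4) (nat_lit 85490) (nat_lit 14) (node (nat_lit 7)
  (nat_lit 85775) (nat_lit 15) nil nil) nil) nil) (node (nat_lit 5) (nat_lit 82805) (nat_lit 12)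
  (node (nat_lit 7) (nat_lit 82805) (nat_lit 13) (node (nat_lit 4) (nat_lit 86986) (nat_lit 14)
  (node (nat_lit 5) (nat_lit 88727) (nat_lit 15) nil nil) nil) nil) nil)) (node (nat_lit 5)
  (nat_lit 82805) (nat_lit 11) (node (nat_lit 7) (nat_lit 82805) (nat_lit 12) (node (nat_lit 4)
  (nat_lit 82805) (nat_lit 13) (node (nat_lit 5) (nat_lit 84454) (nat_lit 14) (node (nat_lit 4)
  (nat_lit 85237) (nat_lit 15) (node (nat_lit 7) (nat_lit 86124) (nat_lit 16) nil nil) nil) nil)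
  nil) nil) nil)) (node (nat_lit 9) (nat_lit 91253) (nat_lit 10) nil nil)) (node (nat_lit 9)
  (nat_lit 89864) (nat_lit 9) nil (node (nat_lit 0) (nat_lit 84692) (nat_lit 9) nil nil)))) (node
  (nat_lit 4) (nat_lit 0) (nat_lit 8) (node (nat_lit 7) (nat_lit 82923) (nat_lit 9) (node (nat_lit
  5) (nat_lit 82575) (nat_lit 10) (node (nat_lit 7) (nat_lit 82575) (nat_lit 11) (node (nat_lit 4)
  (nat_lit 82575) (nat_lit 12) (node (nat_lit 5) (nat_lit 82575) (nat_lit 13) (node (nat_lit 4)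
  (nat_lit 86722) (nat_lit 14) (node (nat_lit 7) (nat_lit 89147) (nat_lit 15) (node (nat_lit 5)
  (nat_lit 89724) (nat_lit 16) nil nil) nil) nil) nil) nil) (node (nat_lit 4) (nat_lit 82575)
  (nat_lit 11) (node (nat_lit 5) (nat_lit 82575) (nat_lit 12) nil nil) nil)) (node (nat_lit 4)
  (nat_lit 82951) (nat_lit 10) (node (nat_lit 5) (nat_lit 82951) (nat_lit 11) (node (nat_lit 7)
  (nat_lit 82951) (nat_lit 12) nil (node (nat_lit 4) (nat_lit 82951) (nat_lit 12) (node (nat_lit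
  7) (nat_lit 82951) (nat_lit 13) (node (nat_lit 5) (nat_lit 85553) (nat_lit 14) (node (nat_lit 9)
  (nat_lit 36492) (nat_lit 15) nil nil) nil) nil) nil)) nil) nil)) (node (nat_lit 5) (nat_lit
  82782) (nat_lit 9) (node (nat_lit 7) (nat_lit 82951) (nat_lit 10) (node (nat_lit 4) (nat_lit
  82951) (nat_lit 11) (node (nat_lit 5) (nat_lit 82951) (nat_lit 12) (node (nat_lit 4) (nat_lit
  82951) (nat_lit 13) (node (nat_lit 7) (nat_lit 86320) (nat_lit 14) nil nil) nil) (node (nat_lit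
  7) (nat_lit 82951) (nat_lit 12) (node (nat_lit 5) (nat_lit 82951) (nat_lit 13) nil nil) nil))
  (node (nat_lit 5) (nat_lit 82951) (nat_lit 11) (node (nat_lit 4) (nat_lit 82951) (nat_lit 12)
  (node (nat_lit 7) (nat_lit 82951) (nat_lit 13) nil nil) nil) nil)) (node (nat_lit 9) (nat_lit
  89146) (nat_lit 10) nil nil)) (node (nat_lit 9) (nat_lit 87370) (nat_lit 9) nil (node (nat_lit
  0) (nat_lit 84518) (nat_lit 9) nil nil)))) (node (nat_lit 0) (nat_lit 88762) (nat_lit 8) (node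
  (nat_lit 5) (nat_lit 88762) (nat_lit 9) nil nil) nil))) (node (nat_lit 0) (nat_lit 0) (nat_lit
  7) (node (nat_lit 9) (nat_lit 0) (nat_lit 8) (node (nat_lit 5) (nat_lit 91800) (nat_lit 9) nil
  (node (nat_lit 7) (nat_lit 91800) (nat_lit 9) nil (node (nat_lit 4) (nat_lit 91800) (nat_lit 9)
  nil (node (nat_lit 0) (nat_lit 92425) (nat_lit 9) nil nil)))) (node (nat_lit 5) (nat_lit 88816)
  (nat_lit 8) (node (nat_lit 10) (nat_lit 91903) (nat_lit 9) nil (node (nat_lit 4) (nat_lit 88816)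
  (nat_lit 9) nil (node (nat_lit 7) (nat_lit 88816) (nat_lit 9) nil nil))) (node (nat_lit 7)
  (nat_lit 88816) (nat_lit 8) nil (node (nat_lit 4) (nat_lit 88816) (nat_lit 8) nil (node (nat_lit
  0) (nat_lit 90551) (nat_lit 8) nil nil))))) nil))))

noncomputable def t240 : Tr :=
  (node (nat_lit 4) (nat_lit 0) (nat_lit 6) (node (nat_lit 0) (nat_lit 0) (nat_lit 7) (node
  (nat_lit 4) (nat_lit 0) (nat_lit 8) (node (nat_lit 7) (nat_lit 80249) (nat_lit 9) (node (nat_lit
  5) (nat_lit 80631) (nat_lit 10) (node (nat_lit 4) (nat_lit 80809) (nat_lit 11) (node (nat_lit 7)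
  (nat_lit 80809) (nat_lit 12) (node (nat_lit 4) (nat_lit 80809) (nat_lit 13) (node (nat_lit 5)
  (nat_lit 80809) (nat_lit 14) (node (nat_lit 4) (nat_lit 84073) (nat_lit 15) (node (nat_lit 7)
  (nat_lit 84569) (nat_lit 16) (node (nat_lit 5) (nat_lit 85399) (nat_lit 17) nil nil) nil) nil)
  nil) nil) (node (nat_lit 5) (nat_lit 81027) (nat_lit 12) (node (nat_lit 7) (nat_lit 81027)
  (nat_lit 13) (node (nat_lit 4) (nat_lit 81186) (nat_lit 14) (node (nat_lit 5) (nat_lit 82650)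
  (nat_lit 15) nil nil) (node (nat_lit 5) (nat_lit 81027) (nat_lit 14) nil nil)) nil) nil)) (node
  (nat_lit 7) (nat_lit 80726) (nat_lit 11) (node (nat_lit 4) (nat_lit 80750) (nat_lit 12) (node
  (nat_lit 5) (nat_lit 80750) (nat_lit 13) (node (nat_lit 4) (nat_lit 80750) (nat_lit 14) (node
  (nat_lit 7) (nat_lit 84384) (nat_lit 15) (node (nat_lit 5) (nat_lit 86083) (nat_lit 16) (node
  (nat_lit 4) (nat_lit 88080) (nat_lit 17) (node (nat_lit 10) (nat_lit 39040) (nat_lit 18) nil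
  nil) nil) nil) nil) (node (nat_lit 7) (nat_lit 80750) (nat_lit 14) nil nil)) (node (nat_lit 7)
  (nat_lit 80750) (nat_lit 13) (node (nat_lit 5) (nat_lit 80750) (nat_lit 14) nil nil) nil)) (node
  (nat_lit 10) (nat_lit 86336) (nat_lit 12) nil nil)) (node (nat_lit 10) (nat_lit 88758) (nat_lit
  11) nil (node (nat_lit 0) (nat_lit 88758) (nat_lit 11) nil nil)))) (node (nat_lit 4) (nat_lit
  80326) (nat_lit 10) (node (nat_lit 5) (nat_lit 80326) (nat_lit 11) (node (nat_lit 7) (nat_lit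
  80326) (nat_lit 12) (node (nat_lit 4) (nat_lit 80326) (nat_lit 13) nil (node (nat_lit 5)
  (nat_lit 80326) (nat_lit 13) nil nil)) (node (nat_lit 4) (nat_lit 80326) (nat_lit 12) (node
  (nat_lit 7) (nat_lit 80326) (nat_lit 13) nil nil) (node (nat_lit 10) (nat_lit 82921) (nat_lit
  12) nil nil))) (node (nat_lit 10) (nat_lit 90261) (nat_lit 11) nil (node (nat_lit 0) (nat_lit
  88454) (nat_lit 11) nil nil))) (node (nat_lit 10) (nat_lit 89165) (nat_lit 10) nil (node
  (nat_lit 0) (nat_lit 89855) (nat_lit 10) nil nil)))) (node (nat_lit 5) (nat_lit 80188) (nat_lit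
  9) (node (nat_lit 7) (nat_lit 80592) (nat_lit 10) (node (nat_lit 4) (nat_lit 80745) (nat_lit 11)
  (node (nat_lit 7) (nat_lit 80745) (nat_lit 12) (node (nat_lit 5) (nat_lit 80745) (nat_lit 13)
  (node (nat_lit 4) (nat_lit 80745) (nat_lit 14) nil (node (nat_lit 7) (nat_lit 80745) (nat_lit
  14) nil nil)) nil) (node (nat_lit 5) (nat_lit 80745) (nat_lit 12) (node (nat_lit 4) (nat_lit
  80745) (nat_lit 13) (node (nat_lit 7) (nat_lit 80745) (nat_lit 14) nil nil) nil) (node (nat_lit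
  10) (nat_lit 83340) (nat_lit 12) nil nil))) (node (nat_lit 5) (nat_lit 80592) (nat_lit 11) (node
  (nat_lit 4) (nat_lit 80592) (nat_lit 12) (node (nat_lit 7) (nat_lit 80592) (nat_lit 13) (node
  (nat_lit 4) (nat_lit 80592) (nat_lit 14) nil (node (nat_lit 5) (nat_lit 80592) (nat_lit 14) nil
  nil)) (node (nat_lit 5) (nat_lit 80592) (nat_lit 13) (node (nat_lit 7) (nat_lit 80592) (nat_lit
  14) nil nil) nil)) (node (nat_lit 10) (nat_lit 83187) (nat_lit 12) nil nil)) (node (nat_lit 10)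
  (nat_lit 88719) (nat_lit 11) nil (node (nat_lit 0) (nat_lit 88719) (nat_lit 11) nil nil))))
  (node (nat_lit 4) (nat_lit 80263) (nat_lit 10) (node (nat_lit 7) (nat_lit 80263) (nat_lit 11)
  (node (nat_lit 5) (nat_lit 80263) (nat_lit 12) (node (nat_lit 4) (nat_lit 80263) (nat_lit 13)
  nil (node (nat_lit 7) (nat_lit 80263) (nat_lit 13) nil nil)) (node (nat_lit 4) (nat_lit 80263)
  (nat_lit 12) (node (nat_lit 5) (nat_lit 80263) (nat_lit 13) nil nil) nil)) (node (nat_lit 10)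
  (nat_lit 90730) (nat_lit 11) (node (nat_lit 5) (nat_lit 90730) (nat_lit 12) nil nil) nil)) (node
  (nat_lit 10) (nat_lit 92050) (nat_lit 10) (node (nat_lit 4) (nat_lit 92050) (nat_lit 11) (node
  (nat_lit 10) (nat_lit 92729) (nat_lit 12) nil (node (nat_lit 7) (nat_lit 92050) (nat_lit 12) nil
  nil)) nil) (node (nat_lit 0) (nat_lit 88139) (nat_lit 10) nil nil)))) (node (nat_lit 0) (nat_lit
  89572) (nat_lit 9) (node (nat_lit 10) (nat_lit 91300) (nat_lit 10) nil (node (nat_lit 4)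
  (nat_lit 89572) (nat_lit 10) nil (node (nat_lit 0) (nat_lit 90060) (nat_lit 10) nil (node
  (nat_lit 5) (nat_lit 89572) (nat_lit 10) nil (node (nat_lit 7) (nat_lit 89572) (nat_lit 10) nil
  nil))))) nil))) (node (nat_lit 5) (nat_lit 0) (nat_lit 8) (node (nat_lit 4) (nat_lit 80348)
  (nat_lit 9) (node (nat_lit 5) (nat_lit 80558) (nat_lit 10) (node (nat_lit 10) (nat_lit 89141)
  (nat_lit 11) (node (nat_lit 4) (nat_lit 89141) (nat_lit 12) (node (nat_lit 10) (nat_lit 90397)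
  (nat_lit 13) (node (nat_lit 5) (nat_lit 90397) (nat_lit 14) (node (nat_lit 4) (nat_lit 90397)
  (nat_lit 15) (node (nat_lit 5) (nat_lit 90397) (nat_lit 16) (node (nat_lit 7) (nat_lit 90397)
  (nat_lit 17) (node (nat_lit 4) (nat_lit 90397) (nat_lit 18) (node (nat_lit 5) (nat_lit 90397)
  (nat_lit 19) (node (nat_lit 4) (nat_lit 90159) (nat_lit 20) (node (nat_lit 7) (nat_lit 90170)
  (nat_lit 21) nil nil) nil) nil) nil) nil) nil) nil) nil) nil) nil) nil) nil) (node (nat_lit 10)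
  (nat_lit 89662) (nat_lit 9) (node (nat_lit 4) (nat_lit 89662) (nat_lit 10) (node (nat_lit 10)
  (nat_lit 92739) (nat_lit 11) (node (nat_lit 5) (nat_lit 92739) (nat_lit 12) (node (nat_lit 4)
  (nat_lit 92739) (nat_lit 13) nil nil) nil) nil) nil) (node (nat_lit 7) (nat_lit 79864) (nat_lit
  9) (node (nat_lit 4) (nat_lit 79864) (nat_lit 10) nil nil) (node (nat_lit 0) (nat_lit 82951)
  (nat_lit 9) nil nil)))) (node (nat_lit 7) (nat_lit 79785) (nat_lit 8) (node (nat_lit 10)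
  (nat_lit 88082) (nat_lit 9) (node (nat_lit 4) (nat_lit 88082) (nat_lit 10) nil nil) (node
  (nat_lit 4) (nat_lit 79917) (nat_lit 9) (node (nat_lit 7) (nat_lit 79917) (nat_lit 10) nil nil)
  (node (nat_lit 5) (nat_lit 79785) (nat_lit 9) nil nil))) (node (nat_lit 0) (nat_lit 85916)
  (nat_lit 8) (node (nat_lit 4) (nat_lit 85916) (nat_lit 9) (node (nat_lit 10) (nat_lit 88325)
  (nat_lit 10) nil nil) (node (nat_lit 10) (nat_lit 88398) (nat_lit 9) nil nil)) nil)))) (node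
  (nat_lit 5) (nat_lit 0) (nat_lit 7) (node (nat_lit 0) (nat_lit 0) (nat_lit 8) (node (nat_lit 4)
  (nat_lit 81171) (nat_lit 9) (node (nat_lit 5) (nat_lit 81278) (nat_lit 10) (node (nat_lit 4)
  (nat_lit 81327) (nat_lit 11) (node (nat_lit 7) (nat_lit 81330) (nat_lit 12) (node (nat_lit 5)
  (nat_lit 81330) (nat_lit 13) (node (nat_lit 7) (nat_lit 81330) (nat_lit 14) (node (nat_lit 4)
  (nat_lit 81330) (nat_lit 15) (node (nat_lit 5) (nat_lit 82168) (nat_lit 16) nil (node (nat_lit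
  7) (nat_lit 81956) (nat_lit 16) nil nil)) nil) (node (nat_lit 4) (nat_lit 81330) (nat_lit 14)
  (node (nat_lit 5) (nat_lit 81330) (nat_lit 15) nil nil) nil)) (node (nat_lit 4) (nat_lit 81330)
  (nat_lit 13) (node (nat_lit 5) (nat_lit 81330) (nat_lit 14) (node (nat_lit 7) (nat_lit 81330)
  (nat_lit 15) nil (node (nat_lit 4) (nat_lit 81330) (nat_lit 15) nil nil)) (node (nat_lit 11)
  (nat_lit 83537) (nat_lit 14) nil nil)) (node (nat_lit 11) (nat_lit 87929) (nat_lit 13) nil (node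
  (nat_lit 0) (nat_lit 87929) (nat_lit 13) nil nil)))) (node (nat_lit 11) (nat_lit 91918) (nat_lit
  12) (node (nat_lit 5) (nat_lit 91918) (nat_lit 13) nil (node (nat_lit 4) (nat_lit 91918)
  (nat_lit 13) nil nil)) (node (nat_lit 0) (nat_lit 91051) (nat_lit 12) nil nil))) (node (nat_lit
  7) (nat_lit 81401) (nat_lit 11) (node (nat_lit 4) (nat_lit 81402) (nat_lit 12) (node (nat_lit 7)
  (nat_lit 81402) (nat_lit 13) (node (nat_lit 5) (nat_lit 81402) (nat_lit 14) (node (nat_lit 7)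
  (nat_lit 81402) (nat_lit 15) (node (nat_lit 4) (nat_lit 84715) (nat_lit 16) (node (nat_lit 5)
  (nat_lit 86529) (nat_lit 17) nil nil) nil) (node (nat_lit 4) (nat_lit 81402) (nat_lit 15) nil
  nil)) nil) (node (nat_lit 5) (nat_lit 81402) (nat_lit 13) (node (nat_lit 4) (nat_lit 81402)
  (nat_lit 14) nil nil) (node (nat_lit 11) (nat_lit 88001) (nat_lit 13) nil nil))) (node (nat_lit
  5) (nat_lit 81401) (nat_lit 12) (node (nat_lit 4) (nat_lit 81401) (nat_lit 13) (node (nat_lit 7)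
  (nat_lit 81401) (nat_lit 14) (node (nat_lit 5) (nat_lit 81401) (nat_lit 15) nil nil) (node
  (nat_lit 5) (nat_lit 81401) (nat_lit 14) nil nil)) (node (nat_lit 11) (nat_lit 88000) (nat_lit
  13) nil (node (nat_lit 0) (nat_lit 83427) (nat_lit 13) nil nil))) (node (nat_lit 11) (nat_lit
  89710) (nat_lit 12) nil (node (nat_lit 0) (nat_lit 87243) (nat_lit 12) nil nil)))) (node
  (nat_lit 0) (nat_lit 89396) (nat_lit 11) nil nil))) (node (nat_lit 11) (nat_lit 87213) (nat_lit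
  10) (node (nat_lit 5) (nat_lit 87213) (nat_lit 11) nil nil) (node (nat_lit 7) (nat_lit 81171)
  (nat_lit 10) nil nil))) (node (nat_lit 5) (nat_lit 81172) (nat_lit 9) (node (nat_lit 4) (nat_lit
  81295) (nat_lit 10) (node (nat_lit 11) (nat_lit 89649) (nat_lit 11) (node (nat_lit 4) (nat_lit
  89649) (nat_lit 12) nil nil) nil) nil) (node (nat_lit 7) (nat_lit 81164) (nat_lit 9) (node
  (nat_lit 5) (nat_lit 81164) (nat_lit 10) nil nil) (node (nat_lit 0) (nat_lit 81789) (nat_lit 9)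
  nil nil)))) nil) nil)) (node (nat_lit 7) (nat_lit 0) (nat_lit 6) (node (nat_lit 0) (nat_lit 0)
  (nat_lit 7) (node (nat_lit 7) (nat_lit 0) (nat_lit 8) (node (nat_lit 5) (nat_lit 85039) (nat_lit
  9) (node (nat_lit 4) (nat_lit 85039) (nat_lit 10) (node (nat_lit 7) (nat_lit 85039) (nat_lit 11)
  (node (nat_lit 4) (nat_lit 85039) (nat_lit 12) (node (nat_lit 5) (nat_lit 85039) (nat_lit 13)
  (node (nat_lit 7) (nat_lit 85039) (nat_lit 14) (node (nat_lit 5) (nat_lit 85841) (nat_lit 15)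
  nil nil) (node (nat_lit 4) (nat_lit 85039) (nat_lit 14) (node (nat_lit 7) (nat_lit 86625)
  (nat_lit 15) (node (nat_lit 5) (nat_lit 87983) (nat_lit 16) nil nil) nil) nil)) nil) (node
  (nat_lit 5) (nat_lit 85039) (nat_lit 12) (node (nat_lit 7) (nat_lit 85039) (nat_lit 13) (node
  (nat_lit 4) (nat_lit 85039) (nat_lit 14) (node (nat_lit 5) (nat_lit 87315) (nat_lit 15) nil nil)
  nil) nil) nil)) (node (nat_lit 5) (nat_lit 85039) (nat_lit 11) (node (nat_lit 7) (nat_lit 85039)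
  (nat_lit 12) (node (nat_lit 4) (nat_lit 85039) (nat_lit 13) (node (nat_lit 5) (nat_lit 85039)
  (nat_lit 14) (node (nat_lit 4) (nat_lit 87722) (nat_lit 15) (node (nat_lit 7) (nat_lit 89923)
  (nat_lit 16) nil nil) nil) (node (nat_lit 7) (nat_lit 85039) (nat_lit 14) nil nil)) (node
  (nat_lit 5) (nat_lit 85039) (nat_lit 13) (node (nat_lit 4) (nat_lit 85039) (nat_lit 14) nil nil)
  nil)) (node (nat_lit 10) (nat_lit 87634) (nat_lit 12) nil nil)) (node (nat_lit 10) (nat_lit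
  90006) (nat_lit 11) nil (node (nat_lit 0) (nat_lit 90006) (nat_lit 11) nil nil)))) (node
  (nat_lit 10) (nat_lit 93052) (nat_lit 10) (node (nat_lit 7) (nat_lit 93052) (nat_lit 11) nil
  nil) (node (nat_lit 7) (nat_lit 85039) (nat_lit 10) (node (nat_lit 4) (nat_lit 85039) (nat_lit
  11) (node (nat_lit 5) (nat_lit 85039) (nat_lit 12) (node (nat_lit 4) (nat_lit 85039) (nat_lit
  13) nil nil) (node (nat_lit 7) (nat_lit 85039) (nat_lit 12) (node (nat_lit 5) (nat_lit 85039)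
  (nat_lit 13) nil nil) nil)) nil) (node (nat_lit 0) (nat_lit 91818) (nat_lit 10) nil nil))))
  (node (nat_lit 4) (nat_lit 85039) (nat_lit 9) (node (nat_lit 5) (nat_lit 85039) (nat_lit 10)
  (node (nat_lit 7) (nat_lit 85039) (nat_lit 11) (node (nat_lit 5) (nat_lit 85039) (nat_lit 12)
  (node (nat_lit 4) (nat_lit 85039) (nat_lit 13) (node (nat_lit 7) (nat_lit 85039) (nat_lit 14)
  nil (node (nat_lit 5) (nat_lit 85039) (nat_lit 14) nil nil)) nil) (node (nat_lit 4) (nat_lit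
  85039) (nat_lit 12) (node (nat_lit 7) (nat_lit 85039) (nat_lit 13) (node (nat_lit 5) (nat_lit
  85039) (nat_lit 14) nil nil) nil) nil)) (node (nat_lit 4) (nat_lit 85039) (nat_lit 11) (node
  (nat_lit 7) (nat_lit 85039) (nat_lit 12) (node (nat_lit 5) (nat_lit 85039) (nat_lit 13) (node
  (nat_lit 7) (nat_lit 85039) (nat_lit 14) (node (nat_lit 4) (nat_lit 88812) (nat_lit 15) (node
  (nat_lit 5) (nat_lit 90391) (nat_lit 16) nil nil) nil) nil) (node (nat_lit 4) (nat_lit 85039)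
  (nat_lit 13) (node (nat_lit 5) (nat_lit 85039) (nat_lit 14) nil nil) nil)) (node (nat_lit 10)
  (nat_lit 90649) (nat_lit 12) nil nil)) (node (nat_lit 0) (nat_lit 90006) (nat_lit 11) nil (node
  (nat_lit 10) (nat_lit 90006) (nat_lit 11) nil nil)))) (node (nat_lit 7) (nat_lit 85039) (nat_lit
  10) (node (nat_lit 5) (nat_lit 85039) (nat_lit 11) (node (nat_lit 7) (nat_lit 85039) (nat_lit
  12) (node (nat_lit 4) (nat_lit 85039) (nat_lit 13) (node (nat_lit 5) (nat_lit 85039) (nat_lit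
  14) (node (nat_lit 4) (nat_lit 88817) (nat_lit 15) (node (nat_lit 7) (nat_lit 91572) (nat_lit
  16) (node (nat_lit 5) (nat_lit 93052) (nat_lit 17) nil nil) nil) nil) nil) nil) (node (nat_lit
  4) (nat_lit 85039) (nat_lit 12) (node (nat_lit 7) (nat_lit 85039) (nat_lit 13) nil (node
  (nat_lit 5) (nat_lit 85039) (nat_lit 13) nil nil)) nil)) (node (nat_lit 10) (nat_lit 93052)
  (nat_lit 11) nil (node (nat_lit 0) (nat_lit 90006) (nat_lit 11) nil nil))) (node (nat_lit 10)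
  (nat_lit 93052) (nat_lit 10) nil (node (nat_lit 0) (nat_lit 91818) (nat_lit 10) nil nil))))
  (node (nat_lit 0) (nat_lit 93052) (nat_lit 9) (node (nat_lit 10) (nat_lit 93052) (nat_lit 10)
  nil (node (nat_lit 7) (nat_lit 93052) (nat_lit 10) nil (node (nat_lit 4) (nat_lit 93052)
  (nat_lit 10) nil nil))) nil))) (node (nat_lit 5) (nat_lit 0) (nat_lit 8) (node (nat_lit 10)
  (nat_lit 92445) (nat_lit 9) (node (nat_lit 7) (nat_lit 92445) (nat_lit 10) (node (nat_lit 10)
  (nat_lit 93052) (nat_lit 11) (node (nat_lit 5) (nat_lit 93052) (nat_lit 12) nil nil) nil) nil)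
  (node (nat_lit 7) (nat_lit 85039) (nat_lit 9) (node (nat_lit 5) (nat_lit 85039) (nat_lit 10)
  (node (nat_lit 10) (nat_lit 93052) (nat_lit 11) (node (nat_lit 7) (nat_lit 93052) (nat_lit 12)
  nil nil) nil) nil) (node (nat_lit 4) (nat_lit 85039) (nat_lit 9) nil (node (nat_lit 0) (nat_lit
  88125) (nat_lit 9) nil nil)))) (node (nat_lit 4) (nat_lit 85039) (nat_lit 8) (node (nat_lit 7)
  (nat_lit 85039) (nat_lit 9) (node (nat_lit 4) (nat_lit 85039) (nat_lit 10) (node (nat_lit 10)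
  (nat_lit 87337) (nat_lit 11) nil nil) nil) (node (nat_lit 10) (nat_lit 91875) (nat_lit 9) (node
  (nat_lit 7) (nat_lit 91875) (nat_lit 10) nil nil) (node (nat_lit 5) (nat_lit 85039) (nat_lit 9)
  nil nil))) (node (nat_lit 0) (nat_lit 90534) (nat_lit 8) (node (nat_lit 7) (nat_lit 90534)
  (nat_lit 9) (node (nat_lit 10) (nat_lit 91648) (nat_lit 10) nil nil) (node (nat_lit 10) (nat_lit
  91886) (nat_lit 9) (node (nat_lit 7) (nat_lit 91886) (nat_lit 10) nil nil) nil)) nil)))) (node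
  (nat_lit 4) (nat_lit 0) (nat_lit 7) (node (nat_lit 0) (nat_lit 74699) (nat_lit 8) (node (nat_lit
  7) (nat_lit 74699) (nat_lit 9) (node (nat_lit 4) (nat_lit 74699) (nat_lit 10) (node (nat_lit 5)
  (nat_lit 74699) (nat_lit 11) (node (nat_lit 7) (nat_lit 74699) (nat_lit 12) (node (nat_lit 5)
  (nat_lit 74699) (nat_lit 13) (node (nat_lit 4) (nat_lit 74699) (nat_lit 14) nil nil) (node
  (nat_lit 4) (nat_lit 74699) (nat_lit 13) nil (node (nat_lit 11) (nat_lit 76725) (nat_lit 13) nil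
  nil))) (node (nat_lit 4) (nat_lit 74699) (nat_lit 12) (node (nat_lit 7) (nat_lit 74699) (nat_lit
  13) nil (node (nat_lit 11) (nat_lit 76725) (nat_lit 13) nil nil)) (node (nat_lit 11) (nat_lit
  83007) (nat_lit 12) nil (node (nat_lit 0) (nat_lit 76492) (nat_lit 12) nil nil)))) (node
  (nat_lit 7) (nat_lit 74699) (nat_lit 11) (node (nat_lit 5) (nat_lit 74699) (nat_lit 12) (node
  (nat_lit 4) (nat_lit 74699) (nat_lit 13) (node (nat_lit 5) (nat_lit 74699) (nat_lit 14) nil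
  (node (nat_lit 7) (nat_lit 74699) (nat_lit 14) nil nil)) (node (nat_lit 7) (nat_lit 74699)
  (nat_lit 13) nil (node (nat_lit 11) (nat_lit 76725) (nat_lit 13) nil nil))) (node (nat_lit 11)
  (nat_lit 84842) (nat_lit 12) (node (nat_lit 7) (nat_lit 84842) (nat_lit 13) nil nil) (node
  (nat_lit 0) (nat_lit 83007) (nat_lit 12) nil nil))) (node (nat_lit 0) (nat_lit 82816) (nat_lit
  11) nil nil))) nil) (node (nat_lit 4) (nat_lit 74699) (nat_lit 9) (node (nat_lit 7) (nat_lit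
  74699) (nat_lit 10) (node (nat_lit 11) (nat_lit 76195) (nat_lit 11) nil nil) nil) nil)) nil)
  nil)) nil))

noncomputable def t241 : Tr :=
  (node (nat_lit 0) (nat_lit 0) (nat_lit 6) (node (nat_lit 7) (nat_lit 0) (nat_lit 7) (node
  (nat_lit 4) (nat_lit 0) (nat_lit 8) (node (nat_lit 7) (nat_lit 53508) (nat_lit 9) (node (nat_lit
  5) (nat_lit 55832) (nat_lit 10) (node (nat_lit 4) (nat_lit 55832) (nat_lit 11) (node (nat_lit 5)
  (nat_lit 55832) (nat_lit 12) (node (nat_lit 7) (nat_lit 55832) (nat_lit 13) (node (nat_lit 5)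
  (nat_lit 57506) (nat_lit 14) nil (node (nat_lit 4) (nat_lit 57966) (nat_lit 14) nil nil)) nil)
  (node (nat_lit 7) (nat_lit 55832) (nat_lit 12) (node (nat_lit 4) (nat_lit 55832) (nat_lit 13)
  (node (nat_lit 5) (nat_lit 57506) (nat_lit 14) (node (nat_lit 4) (nat_lit 58813) (nat_lit 15)
  nil nil) nil) nil) nil)) (node (nat_lit 7) (nat_lit 55832) (nat_lit 11) (node (nat_lit 4)
  (nat_lit 55832) (nat_lit 12) (node (nat_lit 5) (nat_lit 55832) (nat_lit 13) (node (nat_lit 4)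
  (nat_lit 59438) (nat_lit 14) (node (nat_lit 7) (nat_lit 59797) (nat_lit 15) nil nil) (node
  (nat_lit 7) (nat_lit 56860) (nat_lit 14) nil nil)) (node (nat_lit 7) (nat_lit 55832) (nat_lit
  13) nil nil)) nil) nil)) (node (nat_lit 9) (nat_lit 60627) (nat_lit 10) nil (node (nat_lit 0)
  (nat_lit 56654) (nat_lit 10) nil nil))) (node (nat_lit 5) (nat_lit 53993) (nat_lit 9) (node
  (nat_lit 7) (nat_lit 54862) (nat_lit 10) (node (nat_lit 4) (nat_lit 54831) (nat_lit 11) (node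
  (nat_lit 7) (nat_lit 54831) (nat_lit 12) (node (nat_lit 5) (nat_lit 53918) (nat_lit 13) (node
  (nat_lit 7) (nat_lit 54515) (nat_lit 14) (node (nat_lit 4) (nat_lit 53675) (nat_lit 15) (node
  (nat_lit 5) (nat_lit 52304) (nat_lit 16) (node (nat_lit 4) (nat_lit 48203) (nat_lit 17) (node
  (nat_lit 7) (nat_lit 42773) (nat_lit 18) nil nil) nil) nil) nil) nil) nil) nil) (node (nat_lit
  5) (nat_lit 54748) (nat_lit 11) (node (nat_lit 4) (nat_lit 54328) (nat_lit 12) (node (nat_lit 7)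
  (nat_lit 55619) (nat_lit 13) nil (node (nat_lit 5) (nat_lit 53415) (nat_lit 13) nil nil)) nil)
  nil)) (node (nat_lit 4) (nat_lit 55832) (nat_lit 10) (node (nat_lit 7) (nat_lit 55832) (nat_lit
  11) (node (nat_lit 4) (nat_lit 55832) (nat_lit 12) (node (nat_lit 5) (nat_lit 55832) (nat_lit
  13) nil nil) (node (nat_lit 5) (nat_lit 55832) (nat_lit 12) nil nil)) nil) nil)) (node (nat_lit
  0) (nat_lit 54743) (nat_lit 9) nil nil))) (node (nat_lit 5) (nat_lit 0) (nat_lit 8) (node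
  (nat_lit 4) (nat_lit 52229) (nat_lit 9) (node (nat_lit 7) (nat_lit 54515) (nat_lit 10) (node
  (nat_lit 5) (nat_lit 55531) (nat_lit 11) (node (nat_lit 7) (nat_lit 55832) (nat_lit 12) (node
  (nat_lit 4) (nat_lit 55832) (nat_lit 13) (node (nat_lit 5) (nat_lit 58997) (nat_lit 14) (node
  (nat_lit 4) (nat_lit 58432) (nat_lit 15) (node (nat_lit 7) (nat_lit 58331) (nat_lit 16) nil nil)
  nil) nil) nil) nil) (node (nat_lit 4) (nat_lit 55832) (nat_lit 11) (node (nat_lit 5) (nat_lit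
  55832) (nat_lit 12) (node (nat_lit 7) (nat_lit 55832) (nat_lit 13) nil (node (nat_lit 4)
  (nat_lit 55832) (nat_lit 13) (node (nat_lit 7) (nat_lit 55499) (nat_lit 14) nil nil) nil)) nil)
  nil)) (node (nat_lit 5) (nat_lit 54814) (nat_lit 10) (node (nat_lit 7) (nat_lit 55832) (nat_lit
  11) (node (nat_lit 4) (nat_lit 55832) (nat_lit 12) (node (nat_lit 5) (nat_lit 55832) (nat_lit
  13) (node (nat_lit 4) (nat_lit 58069) (nat_lit 14) (node (nat_lit 7) (nat_lit 59048) (nat_lit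
  15) nil nil) nil) nil) (node (nat_lit 5) (nat_lit 55832) (nat_lit 12) (node (nat_lit 4) (nat_lit
  55832) (nat_lit 13) nil nil) nil)) nil) nil)) (node (nat_lit 7) (nat_lit 53322) (nat_lit 9)
  (node (nat_lit 4) (nat_lit 54871) (nat_lit 10) (node (nat_lit 5) (nat_lit 55832) (nat_lit 11)
  (node (nat_lit 4) (nat_lit 55832) (nat_lit 12) (node (nat_lit 7) (nat_lit 55832) (nat_lit 13)
  (node (nat_lit 4) (nat_lit 57506) (nat_lit 14) (node (nat_lit 9) (nat_lit 15512) (nat_lit 15)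
  nil nil) (node (nat_lit 5) (nat_lit 53465) (nat_lit 14) nil nil)) nil) (node (nat_lit 7)
  (nat_lit 55832) (nat_lit 12) (node (nat_lit 5) (nat_lit 55832) (nat_lit 13) nil nil) nil)) (node
  (nat_lit 7) (nat_lit 55832) (nat_lit 11) (node (nat_lit 5) (nat_lit 55832) (nat_lit 12) (node
  (nat_lit 4) (nat_lit 55832) (nat_lit 13) nil nil) nil) nil)) nil) (node (nat_lit 9) (nat_lit
  56950) (nat_lit 9) nil (node (nat_lit 0) (nat_lit 53186) (nat_lit 9) nil nil)))) (node (nat_lit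
  9) (nat_lit 60425) (nat_lit 8) (node (nat_lit 4) (nat_lit 60425) (nat_lit 9) (node (nat_lit 7)
  (nat_lit 60425) (nat_lit 10) (node (nat_lit 5) (nat_lit 60425) (nat_lit 11) (node (nat_lit 4)
  (nat_lit 60425) (nat_lit 12) nil nil) (node (nat_lit 4) (nat_lit 60425) (nat_lit 11) (node
  (nat_lit 5) (nat_lit 60425) (nat_lit 12) nil nil) nil)) (node (nat_lit 5) (nat_lit 60425)
  (nat_lit 10) nil nil)) (node (nat_lit 5) (nat_lit 60425) (nat_lit 9) (node (nat_lit 7) (nat_lit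
  60425) (nat_lit 10) (node (nat_lit 4) (nat_lit 60425) (nat_lit 11) nil nil) nil) nil)) (node
  (nat_lit 0) (nat_lit 55527) (nat_lit 8) nil nil)))) (node (nat_lit 5) (nat_lit 0) (nat_lit 7)
  (node (nat_lit 4) (nat_lit 0) (nat_lit 8) (node (nat_lit 5) (nat_lit 53337) (nat_lit 9) (node
  (nat_lit 7) (nat_lit 54731) (nat_lit 10) (node (nat_lit 4) (nat_lit 55832) (nat_lit 11) (node
  (nat_lit 7) (nat_lit 55832) (nat_lit 12) (node (nat_lit 5) (nat_lit 55832) (nat_lit 13) (node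
  (nat_lit 7) (nat_lit 58465) (nat_lit 14) (node (nat_lit 4) (nat_lit 57625) (nat_lit 15) (node
  (nat_lit 5) (nat_lit 56254) (nat_lit 16) (node (nat_lit 4) (nat_lit 52487) (nat_lit 17) (node
  (nat_lit 7) (nat_lit 46722) (nat_lit 18) (node (nat_lit 4) (nat_lit 40806) (nat_lit 19) nil nil)
  nil) nil) nil) nil) (node (nat_lit 4) (nat_lit 58233) (nat_lit 14) nil nil)) nil) (node (nat_lit
  5) (nat_lit 55832) (nat_lit 12) (node (nat_lit 4) (nat_lit 55832) (nat_lit 13) (node (nat_lit 7)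
  (nat_lit 55499) (nat_lit 14) nil nil) nil) nil)) (node (nat_lit 5) (nat_lit 55832) (nat_lit 11)
  (node (nat_lit 4) (nat_lit 55832) (nat_lit 12) (node (nat_lit 7) (nat_lit 55832) (nat_lit 13)
  nil nil) nil) (node (nat_lit 9) (nat_lit 58080) (nat_lit 11) nil nil))) (node (nat_lit 9)
  (nat_lit 60627) (nat_lit 10) nil (node (nat_lit 0) (nat_lit 56482) (nat_lit 10) nil nil))) (node
  (nat_lit 7) (nat_lit 52931) (nat_lit 9) (node (nat_lit 5) (nat_lit 54392) (nat_lit 10) (node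
  (nat_lit 4) (nat_lit 55408) (nat_lit 11) (node (nat_lit 5) (nat_lit 55408) (nat_lit 12) (node
  (nat_lit 7) (nat_lit 55805) (nat_lit 13) (node (nat_lit 4) (nat_lit 57760) (nat_lit 14) nil nil)
  nil) nil) (node (nat_lit 7) (nat_lit 55408) (nat_lit 11) (node (nat_lit 4) (nat_lit 55832)
  (nat_lit 12) (node (nat_lit 5) (nat_lit 55832) (nat_lit 13) (node (nat_lit 4) (nat_lit 57300)
  (nat_lit 14) (node (nat_lit 7) (nat_lit 57538) (nat_lit 15) nil nil) nil) (node (nat_lit 7)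
  (nat_lit 55832) (nat_lit 13) nil nil)) nil) nil)) (node (nat_lit 4) (nat_lit 55118) (nat_lit 10)
  (node (nat_lit 5) (nat_lit 55832) (nat_lit 11) (node (nat_lit 7) (nat_lit 55832) (nat_lit 12)
  nil (node (nat_lit 4) (nat_lit 55832) (nat_lit 12) nil nil)) nil) nil)) (node (nat_lit 9)
  (nat_lit 61569) (nat_lit 9) (node (nat_lit 4) (nat_lit 61569) (nat_lit 10) nil nil) (node
  (nat_lit 0) (nat_lit 53433) (nat_lit 9) nil nil)))) (node (nat_lit 7) (nat_lit 50672) (nat_lit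
  8) (node (nat_lit 4) (nat_lit 53933) (nat_lit 9) (node (nat_lit 5) (nat_lit 55832) (nat_lit 10)
  (node (nat_lit 7) (nat_lit 55832) (nat_lit 11) (node (nat_lit 5) (nat_lit 55832) (nat_lit 12)
  (node (nat_lit 4) (nat_lit 55832) (nat_lit 13) nil nil) nil) (node (nat_lit 4) (nat_lit 55832)
  (nat_lit 11) (node (nat_lit 7) (nat_lit 55832) (nat_lit 12) (node (nat_lit 4) (nat_lit 55832)
  (nat_lit 13) nil (node (nat_lit 5) (nat_lit 55832) (nat_lit 13) nil nil)) nil) nil)) (node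
  (nat_lit 7) (nat_lit 55832) (nat_lit 10) (node (nat_lit 5) (nat_lit 55832) (nat_lit 11) (node
  (nat_lit 4) (nat_lit 55832) (nat_lit 12) (node (nat_lit 5) (nat_lit 55832) (nat_lit 13) nil nil)
  (node (nat_lit 7) (nat_lit 55832) (nat_lit 12) (node (nat_lit 4) (nat_lit 55832) (nat_lit 13)
  (node (nat_lit 5) (nat_lit 59547) (nat_lit 14) nil nil) nil) nil)) nil) nil)) (node (nat_lit 5)
  (nat_lit 53519) (nat_lit 9) (node (nat_lit 4) (nat_lit 55832) (nat_lit 10) (node (nat_lit 7)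
  (nat_lit 55832) (nat_lit 11) (node (nat_lit 4) (nat_lit 55832) (nat_lit 12) (node (nat_lit 5)
  (nat_lit 55832) (nat_lit 13) (node (nat_lit 7) (nat_lit 56860) (nat_lit 14) nil (node (nat_lit
  4) (nat_lit 57506) (nat_lit 14) (node (nat_lit 7) (nat_lit 57246) (nat_lit 15) nil nil) nil))
  nil) (node (nat_lit 5) (nat_lit 55832) (nat_lit 12) (node (nat_lit 7) (nat_lit 55832) (nat_lit
  13) nil nil) nil)) (node (nat_lit 5) (nat_lit 55832) (nat_lit 11) (node (nat_lit 7) (nat_lit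
  55832) (nat_lit 12) (node (nat_lit 4) (nat_lit 55891) (nat_lit 13) (node (nat_lit 5) (nat_lit
  59023) (nat_lit 14) (node (nat_lit 4) (nat_lit 60349) (nat_lit 15) nil nil) nil) nil) nil) nil))
  nil) (node (nat_lit 9) (nat_lit 59831) (nat_lit 9) nil nil))) (node (nat_lit 9) (nat_lit 60985)
  (nat_lit 8) (node (nat_lit 4) (nat_lit 60985) (nat_lit 9) (node (nat_lit 5) (nat_lit 60985)
  (nat_lit 10) (node (nat_lit 4) (nat_lit 60985) (nat_lit 11) (node (nat_lit 7) (nat_lit 60985)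
  (nat_lit 12) (node (nat_lit 5) (nat_lit 60985) (nat_lit 13) nil nil) nil) (node (nat_lit 7)
  (nat_lit 60985) (nat_lit 11) (node (nat_lit 4) (nat_lit 60985) (nat_lit 12) nil nil) nil)) (node
  (nat_lit 7) (nat_lit 60985) (nat_lit 10) nil nil)) (node (nat_lit 7) (nat_lit 60985) (nat_lit 9)
  (node (nat_lit 5) (nat_lit 60985) (nat_lit 10) (node (nat_lit 4) (nat_lit 60985) (nat_lit 11)
  nil (node (nat_lit 7) (nat_lit 60985) (nat_lit 11) nil nil)) nil) nil)) (node (nat_lit 0)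
  (nat_lit 56118) (nat_lit 8) nil nil)))) (node (nat_lit 4) (nat_lit 0) (nat_lit 7) (node (nat_lit
  7) (nat_lit 0) (nat_lit 8) (node (nat_lit 5) (nat_lit 53999) (nat_lit 9) (node (nat_lit 7)
  (nat_lit 55832) (nat_lit 10) (node (nat_lit 4) (nat_lit 55832) (nat_lit 11) (node (nat_lit 5)
  (nat_lit 55832) (nat_lit 12) (node (nat_lit 4) (nat_lit 55476) (nat_lit 13) (node (nat_lit 7)
  (nat_lit 56073) (nat_lit 14) (node (nat_lit 4) (nat_lit 55233) (nat_lit 15) (node (nat_lit 9)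
  (nat_lit 6539) (nat_lit 16) nil nil) nil) nil) nil) (node (nat_lit 7) (nat_lit 55832) (nat_lit
  12) nil nil)) nil) (node (nat_lit 4) (nat_lit 55832) (nat_lit 10) (node (nat_lit 7) (nat_lit
  55832) (nat_lit 11) (node (nat_lit 4) (nat_lit 55832) (nat_lit 12) (node (nat_lit 5) (nat_lit
  55832) (nat_lit 13) (node (nat_lit 4) (nat_lit 57016) (nat_lit 14) (node (nat_lit 7) (nat_lit
  57246) (nat_lit 15) nil nil) nil) nil) nil) (node (nat_lit 5) (nat_lit 55832) (nat_lit 11) (node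
  (nat_lit 7) (nat_lit 55832) (nat_lit 12) nil nil) nil)) nil)) (node (nat_lit 4) (nat_lit 52331)
  (nat_lit 9) (node (nat_lit 5) (nat_lit 52317) (nat_lit 10) (node (nat_lit 7) (nat_lit 53333)
  (nat_lit 11) (node (nat_lit 5) (nat_lit 54447) (nat_lit 12) (node (nat_lit 4) (nat_lit 53534)
  (nat_lit 13) nil nil) (node (nat_lit 4) (nat_lit 54447) (nat_lit 12) (node (nat_lit 7) (nat_lit
  55738) (nat_lit 13) nil nil) nil)) (node (nat_lit 4) (nat_lit 52285) (nat_lit 11) (node (nat_lit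
  7) (nat_lit 51865) (nat_lit 12) (node (nat_lit 5) (nat_lit 50952) (nat_lit 13) nil nil) nil)
  nil)) nil) (node (nat_lit 9) (nat_lit 54614) (nat_lit 9) nil (node (nat_lit 0) (nat_lit 52692)
  (nat_lit 9) nil nil)))) (node (nat_lit 5) (nat_lit 0) (nat_lit 8) (node (nat_lit 7) (nat_lit
  54057) (nat_lit 9) (node (nat_lit 4) (nat_lit 55832) (nat_lit 10) (node (nat_lit 5) (nat_lit
  55832) (nat_lit 11) (node (nat_lit 4) (nat_lit 55832) (nat_lit 12) (node (nat_lit 7) (nat_lit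
  55832) (nat_lit 13) (node (nat_lit 4) (nat_lit 58233) (nat_lit 14) (node (nat_lit 9) (nat_lit
  12086) (nat_lit 15) nil nil) nil) nil) nil) (node (nat_lit 7) (nat_lit 55832) (nat_lit 11) (node
  (nat_lit 5) (nat_lit 55832) (nat_lit 12) nil nil) nil)) (node (nat_lit 5) (nat_lit 54057)
  (nat_lit 10) (node (nat_lit 4) (nat_lit 54057) (nat_lit 11) (node (nat_lit 7) (nat_lit 54057)
  (nat_lit 12) (node (nat_lit 4) (nat_lit 55349) (nat_lit 13) (node (nat_lit 5) (nat_lit 56409)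
  (nat_lit 14) (node (nat_lit 4) (nat_lit 55845) (nat_lit 15) (node (nat_lit 7) (nat_lit 55743)
  (nat_lit 16) nil nil) nil) nil) nil) (node (nat_lit 5) (nat_lit 54057) (nat_lit 12) (node
  (nat_lit 7) (nat_lit 55349) (nat_lit 13) (node (nat_lit 4) (nat_lit 56409) (nat_lit 14) nil nil)
  nil) nil)) nil) nil)) (node (nat_lit 4) (nat_lit 53650) (nat_lit 9) (node (nat_lit 7) (nat_lit
  53788) (nat_lit 10) (node (nat_lit 5) (nat_lit 53673) (nat_lit 11) (node (nat_lit 7) (nat_lit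
  53673) (nat_lit 12) (node (nat_lit 4) (nat_lit 54964) (nat_lit 13) (node (nat_lit 5) (nat_lit
  56025) (nat_lit 14) nil nil) nil) (node (nat_lit 4) (nat_lit 53252) (nat_lit 12) (node (nat_lit
  5) (nat_lit 52339) (nat_lit 13) nil nil) nil)) (node (nat_lit 4) (nat_lit 54804) (nat_lit 11)
  (node (nat_lit 5) (nat_lit 55832) (nat_lit 12) (node (nat_lit 7) (nat_lit 55832) (nat_lit 13)
  nil nil) nil) nil)) (node (nat_lit 9) (nat_lit 56796) (nat_lit 10) nil nil)) (node (nat_lit 9)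
  (nat_lit 55047) (nat_lit 9) nil (node (nat_lit 0) (nat_lit 53124) (nat_lit 9) nil nil)))) (node
  (nat_lit 0) (nat_lit 53947) (nat_lit 8) (node (nat_lit 4) (nat_lit 53947) (nat_lit 9) nil nil)
  nil))) (node (nat_lit 0) (nat_lit 0) (nat_lit 7) (node (nat_lit 9) (nat_lit 0) (nat_lit 8) (node
  (nat_lit 4) (nat_lit 58545) (nat_lit 9) nil (node (nat_lit 7) (nat_lit 58545) (nat_lit 9) nil
  (node (nat_lit 5) (nat_lit 58545) (nat_lit 9) nil (node (nat_lit 0) (nat_lit 59110) (nat_lit 9)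
  nil nil)))) (node (nat_lit 4) (nat_lit 53789) (nat_lit 8) (node (nat_lit 10) (nat_lit 57048)
  (nat_lit 9) nil (node (nat_lit 9) (nat_lit 55414) (nat_lit 9) nil nil)) (node (nat_lit 5)
  (nat_lit 53696) (nat_lit 8) nil (node (nat_lit 7) (nat_lit 53696) (nat_lit 8) nil (node (nat_lit
  0) (nat_lit 55767) (nat_lit 8) nil nil))))) nil)))) (node (nat_lit 5) (nat_lit 0) (nat_lit 6)
  (node (nat_lit 0) (nat_lit 0) (nat_lit 7) (node (nat_lit 5) (nat_lit 0) (nat_lit 8) (node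
  (nat_lit 4) (nat_lit 56264) (nat_lit 9) (node (nat_lit 7) (nat_lit 57508) (nat_lit 10) (node
  (nat_lit 5) (nat_lit 58153) (nat_lit 11) (node (nat_lit 7) (nat_lit 58153) (nat_lit 12) (node
  (nat_lit 4) (nat_lit 58153) (nat_lit 13) (node (nat_lit 5) (nat_lit 58153) (nat_lit 14) (node
  (nat_lit 4) (nat_lit 60464) (nat_lit 15) (node (nat_lit 7) (nat_lit 60363) (nat_lit 16) nil nil)
  nil) (node (nat_lit 7) (nat_lit 58153) (nat_lit 14) nil nil)) nil) (node (nat_lit 4) (nat_lit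
  58153) (nat_lit 12) (node (nat_lit 5) (nat_lit 58153) (nat_lit 13) (node (nat_lit 7) (nat_lit
  58153) (nat_lit 14) nil nil) nil) nil)) (node (nat_lit 4) (nat_lit 58153) (nat_lit 11) (node
  (nat_lit 5) (nat_lit 58153) (nat_lit 12) (node (nat_lit 7) (nat_lit 58153) (nat_lit 13) nil
  (node (nat_lit 4) (nat_lit 58153) (nat_lit 13) nil nil)) (node (nat_lit 10) (nat_lit 60538)
  (nat_lit 12) nil nil)) (node (nat_lit 0) (nat_lit 60773) (nat_lit 11) nil (node (nat_lit 10)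
  (nat_lit 59566) (nat_lit 11) nil nil)))) (node (nat_lit 5) (nat_lit 57748) (nat_lit 10) (node
  (nat_lit 7) (nat_lit 57513) (nat_lit 11) (node (nat_lit 5) (nat_lit 57513) (nat_lit 12) nil
  (node (nat_lit 4) (nat_lit 57629) (nat_lit 12) (node (nat_lit 5) (nat_lit 57629) (nat_lit 13)
  nil (node (nat_lit 7) (nat_lit 57629) (nat_lit 13) nil nil)) nil)) (node (nat_lit 10) (nat_lit
  61895) (nat_lit 11) (node (nat_lit 4) (nat_lit 61895) (nat_lit 12) nil nil) nil)) (node (nat_lit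
  10) (nat_lit 61927) (nat_lit 10) (node (nat_lit 5) (nat_lit 61927) (nat_lit 11) nil nil) (node
  (nat_lit 0) (nat_lit 61274) (nat_lit 10) nil nil)))) (node (nat_lit 7) (nat_lit 56692) (nat_lit
  9) (node (nat_lit 4) (nat_lit 58153) (nat_lit 10) (node (nat_lit 5) (nat_lit 58153) (nat_lit 11)
  (node (nat_lit 4) (nat_lit 58153) (nat_lit 12) (node (nat_lit 7) (nat_lit 58153) (nat_lit 13)
  (node (nat_lit 5) (nat_lit 57813) (nat_lit 14) nil (node (nat_lit 4) (nat_lit 58153) (nat_lit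
  14) (node (nat_lit 5) (nat_lit 59460) (nat_lit 15) nil nil) nil)) nil) (node (nat_lit 7)
  (nat_lit 58153) (nat_lit 12) (node (nat_lit 5) (nat_lit 58153) (nat_lit 13) (node (nat_lit 4)
  (nat_lit 58153) (nat_lit 14) nil nil) nil) nil)) (node (nat_lit 7) (nat_lit 58153) (nat_lit 11)
  (node (nat_lit 5) (nat_lit 58153) (nat_lit 12) (node (nat_lit 4) (nat_lit 58153) (nat_lit 13)
  nil (node (nat_lit 7) (nat_lit 58153) (nat_lit 13) (node (nat_lit 4) (nat_lit 58153) (nat_lit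
  14) (node (nat_lit 5) (nat_lit 61545) (nat_lit 15) (node (nat_lit 4) (nat_lit 60864) (nat_lit
  16) nil nil) nil) nil) nil)) (node (nat_lit 10) (nat_lit 60748) (nat_lit 12) nil nil)) (node
  (nat_lit 10) (nat_lit 60451) (nat_lit 11) nil (node (nat_lit 0) (nat_lit 61812) (nat_lit 11) nil
  nil)))) (node (nat_lit 5) (nat_lit 58153) (nat_lit 10) (node (nat_lit 4) (nat_lit 58153)
  (nat_lit 11) (node (nat_lit 7) (nat_lit 58153) (nat_lit 12) (node (nat_lit 4) (nat_lit 58153)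
  (nat_lit 13) nil (node (nat_lit 5) (nat_lit 58153) (nat_lit 13) nil nil)) (node (nat_lit 5)
  (nat_lit 58153) (nat_lit 12) (node (nat_lit 7) (nat_lit 58153) (nat_lit 13) nil nil) nil)) (node
  (nat_lit 10) (nat_lit 61695) (nat_lit 11) nil (node (nat_lit 0) (nat_lit 60451) (nat_lit 11) nil
  nil))) (node (nat_lit 10) (nat_lit 61927) (nat_lit 10) nil (node (nat_lit 0) (nat_lit 61274)
  (nat_lit 10) nil nil)))) (node (nat_lit 0) (nat_lit 61697) (nat_lit 9) (node (nat_lit 10)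
  (nat_lit 61927) (nat_lit 10) nil (node (nat_lit 5) (nat_lit 61697) (nat_lit 10) nil (node
  (nat_lit 0) (nat_lit 61927) (nat_lit 10) nil (node (nat_lit 7) (nat_lit 61697) (nat_lit 10) nil
  (node (nat_lit 4) (nat_lit 61697) (nat_lit 10) nil nil))))) nil))) (node (nat_lit 4) (nat_lit 0)
  (nat_lit 8) (node (nat_lit 10) (nat_lit 61697) (nat_lit 9) (node (nat_lit 5) (nat_lit 61697)
  (nat_lit 10) (node (nat_lit 10) (nat_lit 62130) (nat_lit 11) nil nil) nil) (node (nat_lit 5)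
  (nat_lit 56629) (nat_lit 9) (node (nat_lit 4) (nat_lit 56629) (nat_lit 10) (node (nat_lit 10)
  (nat_lit 58687) (nat_lit 11) nil nil) nil) (node (nat_lit 7) (nat_lit 54083) (nat_lit 9) nil
  (node (nat_lit 0) (nat_lit 56517) (nat_lit 9) nil nil)))) (node (nat_lit 7) (nat_lit 54133)
  (nat_lit 8) (node (nat_lit 10) (nat_lit 58384) (nat_lit 9) nil (node (nat_lit 5) (nat_lit 54133)
  (nat_lit 9) nil (node (nat_lit 4) (nat_lit 54133) (nat_lit 9) nil nil))) (node (nat_lit 0)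
  (nat_lit 59365) (nat_lit 8) (node (nat_lit 5) (nat_lit 59365) (nat_lit 9) (node (nat_lit 10)
  (nat_lit 60159) (nat_lit 10) nil nil) (node (nat_lit 10) (nat_lit 59930) (nat_lit 9) nil nil))
  nil)))) (node (nat_lit 7) (nat_lit 0) (nat_lit 7) (node (nat_lit 0) (nat_lit 58784) (nat_lit 8)
  (node (nat_lit 5) (nat_lit 59957) (nat_lit 9) (node (nat_lit 7) (nat_lit 60137) (nat_lit 10)
  (node (nat_lit 4) (nat_lit 60137) (nat_lit 11) (node (nat_lit 5) (nat_lit 60137) (nat_lit 12)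
  (node (nat_lit 7) (nat_lit 60137) (nat_lit 13) nil (node (nat_lit 4) (nat_lit 60137) (nat_lit
  13) (node (nat_lit 7) (nat_lit 60137) (nat_lit 14) nil nil) nil)) (node (nat_lit 7) (nat_lit
  60137) (nat_lit 12) (node (nat_lit 5) (nat_lit 60137) (nat_lit 13) (node (nat_lit 4) (nat_lit
  60137) (nat_lit 14) nil nil) nil) (node (nat_lit 11) (nat_lit 61930) (nat_lit 12) nil nil)))
  (node (nat_lit 5) (nat_lit 60137) (nat_lit 11) (node (nat_lit 4) (nat_lit 60137) (nat_lit 12)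
  (node (nat_lit 7) (nat_lit 60137) (nat_lit 13) (node (nat_lit 4) (nat_lit 60137) (nat_lit 14)
  (node (nat_lit 5) (nat_lit 60137) (nat_lit 15) (node (nat_lit 4) (nat_lit 61016) (nat_lit 16)
  nil nil) nil) nil) (node (nat_lit 5) (nat_lit 60137) (nat_lit 13) nil nil)) (node (nat_lit 11)
  (nat_lit 61930) (nat_lit 12) nil (node (nat_lit 0) (nat_lit 61930) (nat_lit 12) nil nil))) (node
  (nat_lit 0) (nat_lit 62130) (nat_lit 11) nil nil))) nil) (node (nat_lit 7) (nat_lit 58784)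
  (nat_lit 9) (node (nat_lit 5) (nat_lit 58784) (nat_lit 10) nil nil) (node (nat_lit 4) (nat_lit
  58784) (nat_lit 9) nil nil))) nil) nil)) nil))

noncomputable def t242 : Tr :=
  (node (nat_lit 3) (nat_lit 0) (nat_lit 3) (node (nat_lit 4) (nat_lit 0) (nat_lit 4) (node
  (nat_lit 5) (nat_lit 0) (nat_lit 5) t233 (node (nat_lit 6) (nat_lit 0) (nat_lit 5) (node
  (nat_lit 0) (nat_lit 0) (nat_lit 6) t234 (node (nat_lit 5) (nat_lit 0) (nat_lit 6) (node
  (nat_lit 0) (nat_lit 0) (nat_lit 7) (node (nat_lit 5) (nat_lit 0) (nat_lit 8) (node (nat_lit 6)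
  (nat_lit 100395) (nat_lit 9) (node (nat_lit 4) (nat_lit 100395) (nat_lit 10) (node (nat_lit 5)
  (nat_lit 100395) (nat_lit 11) (node (nat_lit 4) (nat_lit 100395) (nat_lit 12) (node (nat_lit 6)
  (nat_lit 100395) (nat_lit 13) (node (nat_lit 5) (nat_lit 100395) (nat_lit 14) (node (nat_lit 6)
  (nat_lit 101924) (nat_lit 15) nil nil) (node (nat_lit 4) (nat_lit 100395) (nat_lit 14) nil nil))
  nil) (node (nat_lit 6) (nat_lit 100395) (nat_lit 12) (node (nat_lit 5) (nat_lit 100395) (nat_lit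
  13) (node (nat_lit 4) (nat_lit 100395) (nat_lit 14) (node (nat_lit 5) (nat_lit 104248) (nat_lit
  15) (node (nat_lit 6) (nat_lit 105946) (nat_lit 16) (node (nat_lit 4) (nat_lit 107827) (nat_lit
  17) nil nil) nil) nil) nil) nil) (node (nat_lit 10) (nat_lit 105345) (nat_lit 12) nil nil)))
  (node (nat_lit 6) (nat_lit 100395) (nat_lit 11) (node (nat_lit 5) (nat_lit 100395) (nat_lit 12)
  (node (nat_lit 4) (nat_lit 100395) (nat_lit 13) (node (nat_lit 5) (nat_lit 100395) (nat_lit 14)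
  (node (nat_lit 6) (nat_lit 104534) (nat_lit 15) (node (nat_lit 4) (nat_lit 107073) (nat_lit 16)
  (node (nat_lit 6) (nat_lit 109359) (nat_lit 17) nil nil) nil) nil) (node (nat_lit 6) (nat_lit
  100395) (nat_lit 14) nil nil)) (node (nat_lit 6) (nat_lit 100395) (nat_lit 13) (node (nat_lit 4)
  (nat_lit 100395) (nat_lit 14) nil nil) nil)) (node (nat_lit 10) (nat_lit 105345) (nat_lit 12)
  nil nil)) (node (nat_lit 10) (nat_lit 107402) (nat_lit 11) nil (node (nat_lit 0) (nat_lit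
  110562) (nat_lit 11) nil nil)))) (node (nat_lit 5) (nat_lit 100395) (nat_lit 10) (node (nat_lit
  4) (nat_lit 100395) (nat_lit 11) (node (nat_lit 5) (nat_lit 100395) (nat_lit 12) (node (nat_lit
  6) (nat_lit 100395) (nat_lit 13) nil nil) (node (nat_lit 6) (nat_lit 100395) (nat_lit 12) (node
  (nat_lit 5) (nat_lit 100395) (nat_lit 13) nil (node (nat_lit 4) (nat_lit 100395) (nat_lit 13)
  nil nil)) nil)) (node (nat_lit 10) (nat_lit 113977) (nat_lit 11) (node (nat_lit 6) (nat_lit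
  113977) (nat_lit 12) nil nil) (node (nat_lit 0) (nat_lit 104777) (nat_lit 11) nil nil))) (node
  (nat_lit 10) (nat_lit 114001) (nat_lit 10) (node (nat_lit 5) (nat_lit 114001) (nat_lit 11) (node
  (nat_lit 4) (nat_lit 114001) (nat_lit 12) nil (node (nat_lit 10) (nat_lit 115295) (nat_lit 12)
  nil nil)) (node (nat_lit 6) (nat_lit 114001) (nat_lit 11) nil nil)) (node (nat_lit 0) (nat_lit
  112001) (nat_lit 10) nil nil)))) (node (nat_lit 4) (nat_lit 100395) (nat_lit 9) (node (nat_lit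
  6) (nat_lit 100395) (nat_lit 10) (node (nat_lit 5) (nat_lit 100395) (nat_lit 11) (node (nat_lit
  6) (nat_lit 100395) (nat_lit 12) (node (nat_lit 4) (nat_lit 100395) (nat_lit 13) (node (nat_lit
  5) (nat_lit 100395) (nat_lit 14) nil (node (nat_lit 6) (nat_lit 100395) (nat_lit 14) nil nil))
  nil) (node (nat_lit 4) (nat_lit 100395) (nat_lit 12) (node (nat_lit 5) (nat_lit 100395) (nat_lit
  13) (node (nat_lit 6) (nat_lit 100395) (nat_lit 14) (node (nat_lit 4) (nat_lit 104370) (nat_lit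
  15) (node (nat_lit 6) (nat_lit 107386) (nat_lit 16) nil nil) nil) nil) nil) nil)) (node (nat_lit
  4) (nat_lit 100395) (nat_lit 11) (node (nat_lit 5) (nat_lit 100395) (nat_lit 12) (node (nat_lit
  6) (nat_lit 100395) (nat_lit 13) (node (nat_lit 5) (nat_lit 100395) (nat_lit 14) (node (nat_lit
  4) (nat_lit 101181) (nat_lit 15) nil nil) (node (nat_lit 4) (nat_lit 100395) (nat_lit 14) nil
  nil)) (node (nat_lit 4) (nat_lit 100395) (nat_lit 13) (node (nat_lit 6) (nat_lit 100395)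
  (nat_lit 14) nil nil) nil)) (node (nat_lit 10) (nat_lit 105345) (nat_lit 12) nil (node (nat_lit
  0) (nat_lit 105345) (nat_lit 12) nil nil))) (node (nat_lit 10) (nat_lit 109337) (nat_lit 11) nil
  (node (nat_lit 0) (nat_lit 110562) (nat_lit 11) nil nil)))) (node (nat_lit 5) (nat_lit 100395)
  (nat_lit 10) (node (nat_lit 6) (nat_lit 100395) (nat_lit 11) (node (nat_lit 4) (nat_lit 100395)
  (nat_lit 12) (node (nat_lit 6) (nat_lit 100395) (nat_lit 13) (node (nat_lit 5) (nat_lit 100395)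
  (nat_lit 14) (node (nat_lit 10) (nat_lit 48546) (nat_lit 15) nil nil) nil) (node (nat_lit 5)
  (nat_lit 100395) (nat_lit 13) nil nil)) (node (nat_lit 5) (nat_lit 100395) (nat_lit 12) (node
  (nat_lit 4) (nat_lit 100395) (nat_lit 13) (node (nat_lit 6) (nat_lit 100395) (nat_lit 14) nil
  nil) nil) (node (nat_lit 10) (nat_lit 105345) (nat_lit 12) nil nil))) (node (nat_lit 10)
  (nat_lit 113977) (nat_lit 11) (node (nat_lit 4) (nat_lit 113977) (nat_lit 12) nil nil) (node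
  (nat_lit 0) (nat_lit 107402) (nat_lit 11) nil nil))) (node (nat_lit 10) (nat_lit 112001)
  (nat_lit 10) nil (node (nat_lit 0) (nat_lit 112230) (nat_lit 10) nil nil)))) (node (nat_lit 0)
  (nat_lit 111848) (nat_lit 9) (node (nat_lit 10) (nat_lit 113191) (nat_lit 10) nil (node (nat_lit
  5) (nat_lit 111848) (nat_lit 10) nil (node (nat_lit 6) (nat_lit 111848) (nat_lit 10) nil (node
  (nat_lit 0) (nat_lit 112780) (nat_lit 10) nil (node (nat_lit 4) (nat_lit 111848) (nat_lit 10)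
  nil nil))))) nil))) (node (nat_lit 6) (nat_lit 0) (nat_lit 8) (node (nat_lit 10) (nat_lit
  111889) (nat_lit 9) (node (nat_lit 5) (nat_lit 111889) (nat_lit 10) (node (nat_lit 10) (nat_lit
  114980) (nat_lit 11) (node (nat_lit 6) (nat_lit 114980) (nat_lit 12) (node (nat_lit 5) (nat_lit
  114980) (nat_lit 13) nil nil) nil) nil) nil) (node (nat_lit 5) (nat_lit 100395) (nat_lit 9)
  (node (nat_lit 6) (nat_lit 100395) (nat_lit 10) (node (nat_lit 10) (nat_lit 107402) (nat_lit 11)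
  (node (nat_lit 5) (nat_lit 107402) (nat_lit 12) nil nil) nil) nil) (node (nat_lit 4) (nat_lit
  100395) (nat_lit 9) nil (node (nat_lit 0) (nat_lit 104749) (nat_lit 9) nil nil)))) (node
  (nat_lit 4) (nat_lit 100395) (nat_lit 8) (node (nat_lit 5) (nat_lit 100395) (nat_lit 9) (node
  (nat_lit 4) (nat_lit 100395) (nat_lit 10) (node (nat_lit 10) (nat_lit 104777) (nat_lit 11) nil
  nil) nil) (node (nat_lit 10) (nat_lit 108913) (nat_lit 9) (node (nat_lit 5) (nat_lit 108913)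
  (nat_lit 10) (node (nat_lit 10) (nat_lit 110572) (nat_lit 11) nil nil) nil) (node (nat_lit 6)
  (nat_lit 100395) (nat_lit 9) nil nil))) (node (nat_lit 0) (nat_lit 107773) (nat_lit 8) (node
  (nat_lit 5) (nat_lit 107773) (nat_lit 9) (node (nat_lit 10) (nat_lit 109899) (nat_lit 10) nil
  nil) (node (nat_lit 10) (nat_lit 109681) (nat_lit 9) nil nil)) nil)))) (node (nat_lit 6)
  (nat_lit 0) (nat_lit 7) (node (nat_lit 0) (nat_lit 104184) (nat_lit 8) (node (nat_lit 5)
  (nat_lit 104184) (nat_lit 9) (node (nat_lit 6) (nat_lit 104184) (nat_lit 10) (node (nat_lit 5)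
  (nat_lit 104184) (nat_lit 11) (node (nat_lit 4) (nat_lit 104184) (nat_lit 12) (node (nat_lit 6)
  (nat_lit 104184) (nat_lit 13) (node (nat_lit 4) (nat_lit 104184) (nat_lit 14) (node (nat_lit 5)
  (nat_lit 104184) (nat_lit 15) (node (nat_lit 6) (nat_lit 105107) (nat_lit 16) (node (nat_lit 4)
  (nat_lit 106528) (nat_lit 17) nil nil) nil) nil) (node (nat_lit 5) (nat_lit 104184) (nat_lit 14)
  (node (nat_lit 6) (nat_lit 104184) (nat_lit 15) nil nil) nil)) (node (nat_lit 5) (nat_lit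
  104184) (nat_lit 13) (node (nat_lit 6) (nat_lit 104184) (nat_lit 14) (node (nat_lit 4) (nat_lit
  104184) (nat_lit 15) nil nil) nil) (node (nat_lit 11) (nat_lit 108048) (nat_lit 13) nil nil)))
  (node (nat_lit 11) (nat_lit 115710) (nat_lit 12) (node (nat_lit 6) (nat_lit 115710) (nat_lit 13)
  nil nil) (node (nat_lit 0) (nat_lit 114207) (nat_lit 12) nil nil))) (node (nat_lit 4) (nat_lit
  104184) (nat_lit 11) (node (nat_lit 5) (nat_lit 104184) (nat_lit 12) (node (nat_lit 4) (nat_lit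
  104184) (nat_lit 13) (node (nat_lit 6) (nat_lit 104184) (nat_lit 14) (node (nat_lit 4) (nat_lit
  104281) (nat_lit 15) (node (nat_lit 5) (nat_lit 106674) (nat_lit 16) (node (nat_lit 6) (nat_lit
  106949) (nat_lit 17) (node (nat_lit 4) (nat_lit 108059) (nat_lit 18) nil nil) nil) nil) nil)
  nil) (node (nat_lit 6) (nat_lit 104184) (nat_lit 13) (node (nat_lit 5) (nat_lit 104184) (nat_lit
  14) nil nil) (node (nat_lit 11) (nat_lit 108048) (nat_lit 13) nil nil))) (node (nat_lit 6)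
  (nat_lit 104184) (nat_lit 12) (node (nat_lit 5) (nat_lit 104184) (nat_lit 13) (node (nat_lit 4)
  (nat_lit 104184) (nat_lit 14) (node (nat_lit 5) (nat_lit 104184) (nat_lit 15) (node (nat_lit 6)
  (nat_lit 107851) (nat_lit 16) nil nil) nil) nil) nil) (node (nat_lit 11) (nat_lit 111741)
  (nat_lit 12) nil (node (nat_lit 0) (nat_lit 107605) (nat_lit 12) nil nil)))) (node (nat_lit 0)
  (nat_lit 112544) (nat_lit 11) nil nil))) (node (nat_lit 11) (nat_lit 108881) (nat_lit 10) nil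
  nil)) (node (nat_lit 6) (nat_lit 104184) (nat_lit 9) (node (nat_lit 5) (nat_lit 104184) (nat_lit
  10) (node (nat_lit 11) (nat_lit 110487) (nat_lit 11) (node (nat_lit 5) (nat_lit 110487) (nat_lit
  12) nil nil) nil) nil) nil)) nil) (node (nat_lit 4) (nat_lit 0) (nat_lit 7) (node (nat_lit 0)
  (nat_lit 92670) (nat_lit 8) (node (nat_lit 5) (nat_lit 92670) (nat_lit 9) (node (nat_lit 4)
  (nat_lit 92670) (nat_lit 10) (node (nat_lit 6) (nat_lit 92670) (nat_lit 11) (node (nat_lit 5)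
  (nat_lit 92670) (nat_lit 12) (node (nat_lit 4) (nat_lit 92670) (nat_lit 13) (node (nat_lit 5)
  (nat_lit 92670) (nat_lit 14) (node (nat_lit 6) (nat_lit 92670) (nat_lit 15) (node (nat_lit 4)
  (nat_lit 95889) (nat_lit 16) nil nil) nil) nil) (node (nat_lit 6) (nat_lit 92670) (nat_lit 13)
  (node (nat_lit 4) (nat_lit 92670) (nat_lit 14) nil nil) (node (nat_lit 11) (nat_lit 96533)
  (nat_lit 13) nil nil))) (node (nat_lit 4) (nat_lit 92670) (nat_lit 12) (node (nat_lit 5)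
  (nat_lit 92670) (nat_lit 13) (node (nat_lit 4) (nat_lit 92670) (nat_lit 14) nil (node (nat_lit
  6) (nat_lit 92670) (nat_lit 14) nil nil)) nil) (node (nat_lit 11) (nat_lit 102491) (nat_lit 12)
  nil (node (nat_lit 0) (nat_lit 98427) (nat_lit 12) nil nil)))) (node (nat_lit 5) (nat_lit 92670)
  (nat_lit 11) (node (nat_lit 6) (nat_lit 92670) (nat_lit 12) (node (nat_lit 4) (nat_lit 92670)
  (nat_lit 13) (node (nat_lit 6) (nat_lit 92670) (nat_lit 14) (node (nat_lit 5) (nat_lit 92670)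
  (nat_lit 15) nil nil) (node (nat_lit 5) (nat_lit 92670) (nat_lit 14) nil nil)) (node (nat_lit 5)
  (nat_lit 92670) (nat_lit 13) nil (node (nat_lit 11) (nat_lit 96533) (nat_lit 13) nil nil)))
  (node (nat_lit 11) (nat_lit 102491) (nat_lit 12) nil (node (nat_lit 0) (nat_lit 102491) (nat_lit
  12) nil nil))) (node (nat_lit 0) (nat_lit 101029) (nat_lit 11) nil nil))) nil) (node (nat_lit 4)
  (nat_lit 92670) (nat_lit 9) (node (nat_lit 5) (nat_lit 92670) (nat_lit 10) (node (nat_lit 11)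
  (nat_lit 95522) (nat_lit 11) nil nil) nil) (node (nat_lit 6) (nat_lit 92670) (nat_lit 9) nil
  nil))) nil) nil))) nil)) (node (nat_lit 0) (nat_lit 0) (nat_lit 5) t235 nil))) (node (nat_lit 5)
  (nat_lit 0) (nat_lit 4) (node (nat_lit 4) (nat_lit 0) (nat_lit 5) (node (nat_lit 0) (nat_lit 0)
  (nat_lit 6) t236 t237) (node (nat_lit 0) (nat_lit 0) (nat_lit 5) t238 nil)) nil)) (node (nat_lit
  4) (nat_lit 0) (nat_lit 3) (node (nat_lit 3) (nat_lit 0) (nat_lit 4) (node (nat_lit 5) (nat_lit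
  0) (nat_lit 5) (node (nat_lit 0) (nat_lit 0) (nat_lit 6) t239 t240) (node (nat_lit 4) (nat_lit
  0) (nat_lit 5) t241 (node (nat_lit 0) (nat_lit 0) (nat_lit 5) (node (nat_lit 4) (nat_lit 0)
  (nat_lit 6) (node (nat_lit 5) (nat_lit 80944) (nat_lit 7) (node (nat_lit 7) (nat_lit 82024)
  (nat_lit 8) (node (nat_lit 4) (nat_lit 82781) (nat_lit 9) (node (nat_lit 7) (nat_lit 82781)
  (nat_lit 10) (node (nat_lit 5) (nat_lit 82781) (nat_lit 11) (node (nat_lit 4) (nat_lit 83399)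
  (nat_lit 12) (node (nat_lit 5) (nat_lit 80361) (nat_lit 13) nil (node (nat_lit 7) (nat_lit
  86569) (nat_lit 13) nil nil)) (node (nat_lit 7) (nat_lit 83399) (nat_lit 12) (node (nat_lit 4)
  (nat_lit 86240) (nat_lit 13) nil nil) nil)) nil) (node (nat_lit 5) (nat_lit 82781) (nat_lit 10)
  (node (nat_lit 4) (nat_lit 82781) (nat_lit 11) (node (nat_lit 7) (nat_lit 82781) (nat_lit 12)
  (node (nat_lit 8) (nat_lit 45422) (nat_lit 13) nil nil) nil) nil) nil)) (node (nat_lit 5)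
  (nat_lit 82005) (nat_lit 9) (node (nat_lit 4) (nat_lit 82005) (nat_lit 10) (node (nat_lit 7)
  (nat_lit 82005) (nat_lit 11) (node (nat_lit 4) (nat_lit 81704) (nat_lit 12) (node (nat_lit 5)
  (nat_lit 84684) (nat_lit 13) (node (nat_lit 4) (nat_lit 86515) (nat_lit 14) (node (nat_lit 7)
  (nat_lit 86224) (nat_lit 15) nil nil) nil) nil) (node (nat_lit 5) (nat_lit 82622) (nat_lit 12)
  (node (nat_lit 7) (nat_lit 87537) (nat_lit 13) nil nil) nil)) (node (nat_lit 5) (nat_lit 82005)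
  (nat_lit 11) (node (nat_lit 7) (nat_lit 82005) (nat_lit 12) (node (nat_lit 4) (nat_lit 83316)
  (nat_lit 13) nil nil) nil) nil)) (node (nat_lit 8) (nat_lit 86248) (nat_lit 10) nil nil)) (node
  (nat_lit 8) (nat_lit 90163) (nat_lit 9) nil nil))) (node (nat_lit 4) (nat_lit 81359) (nat_lit 8)
  (node (nat_lit 7) (nat_lit 81359) (nat_lit 9) (node (nat_lit 4) (nat_lit 81359) (nat_lit 10) nil
  (node (nat_lit 5) (nat_lit 81359) (nat_lit 10) (node (nat_lit 4) (nat_lit 81359) (nat_lit 11)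
  (node (nat_lit 5) (nat_lit 81359) (nat_lit 12) nil nil) (node (nat_lit 7) (nat_lit 81359)
  (nat_lit 11) nil nil)) nil)) (node (nat_lit 8) (nat_lit 89499) (nat_lit 9) nil nil)) (node
  (nat_lit 8) (nat_lit 89961) (nat_lit 8) nil nil))) (node (nat_lit 7) (nat_lit 81219) (nat_lit 7)
  (node (nat_lit 5) (nat_lit 0) (nat_lit 8) (node (nat_lit 4) (nat_lit 82087) (nat_lit 9) (node
  (nat_lit 5) (nat_lit 82087) (nat_lit 10) (node (nat_lit 7) (nat_lit 82087) (nat_lit 11) (node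
  (nat_lit 4) (nat_lit 82087) (nat_lit 12) (node (nat_lit 5) (nat_lit 84182) (nat_lit 13) (node
  (nat_lit 4) (nat_lit 85099) (nat_lit 14) (node (nat_lit 7) (nat_lit 86185) (nat_lit 15) nil nil)
  nil) (node (nat_lit 7) (nat_lit 83399) (nat_lit 13) nil nil)) (node (nat_lit 5) (nat_lit 82087)
  (nat_lit 12) (node (nat_lit 4) (nat_lit 82357) (nat_lit 13) nil nil) nil)) nil) (node (nat_lit
  7) (nat_lit 82087) (nat_lit 10) (node (nat_lit 4) (nat_lit 82087) (nat_lit 11) (node (nat_lit 5)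
  (nat_lit 82704) (nat_lit 12) (node (nat_lit 4) (nat_lit 85874) (nat_lit 13) (node (nat_lit 7)
  (nat_lit 86219) (nat_lit 14) nil nil) nil) nil) nil) nil)) (node (nat_lit 7) (nat_lit 81613)
  (nat_lit 9) (node (nat_lit 4) (nat_lit 81613) (nat_lit 10) (node (nat_lit 5) (nat_lit 81613)
  (nat_lit 11) (node (nat_lit 7) (nat_lit 81613) (nat_lit 12) (node (nat_lit 5) (nat_lit 82925)
  (nat_lit 13) nil nil) (node (nat_lit 4) (nat_lit 82231) (nat_lit 12) (node (nat_lit 7) (nat_lit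
  82828) (nat_lit 13) (node (nat_lit 4) (nat_lit 84650) (nat_lit 14) nil nil) nil) nil)) (node
  (nat_lit 7) (nat_lit 81613) (nat_lit 11) (node (nat_lit 5) (nat_lit 81613) (nat_lit 12) (node
  (nat_lit 4) (nat_lit 78575) (nat_lit 13) nil nil) nil) nil)) nil) (node (nat_lit 8) (nat_lit
  89753) (nat_lit 9) nil (node (nat_lit 0) (nat_lit 85370) (nat_lit 9) nil nil)))) (node (nat_lit
  4) (nat_lit 82186) (nat_lit 8) (node (nat_lit 5) (nat_lit 82186) (nat_lit 9) (node (nat_lit 7)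
  (nat_lit 82186) (nat_lit 10) (node (nat_lit 4) (nat_lit 82186) (nat_lit 11) (node (nat_lit 7)
  (nat_lit 82186) (nat_lit 12) (node (nat_lit 5) (nat_lit 82998) (nat_lit 13) (node (nat_lit 7)
  (nat_lit 86714) (nat_lit 14) (node (nat_lit 4) (nat_lit 89121) (nat_lit 15) (node (nat_lit 5)
  (nat_lit 87870) (nat_lit 16) (node (nat_lit 4) (nat_lit 83944) (nat_lit 17) (node (nat_lit 7)
  (nat_lit 79802) (nat_lit 18) nil nil) nil) nil) nil) nil) nil) nil) (node (nat_lit 5) (nat_lit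
  82186) (nat_lit 11) nil nil)) (node (nat_lit 4) (nat_lit 82186) (nat_lit 10) nil nil)) (node
  (nat_lit 8) (nat_lit 90325) (nat_lit 9) nil nil)) nil)) (node (nat_lit 8) (nat_lit 93052)
  (nat_lit 7) (node (nat_lit 5) (nat_lit 93052) (nat_lit 8) nil (node (nat_lit 7) (nat_lit 93052)
  (nat_lit 8) nil nil)) (node (nat_lit 0) (nat_lit 81809) (nat_lit 7) nil nil)))) (node (nat_lit
  5) (nat_lit 0) (nat_lit 6) (node (nat_lit 7) (nat_lit 81220) (nat_lit 7) (node (nat_lit 4)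
  (nat_lit 0) (nat_lit 8) (node (nat_lit 7) (nat_lit 82420) (nat_lit 9) (node (nat_lit 5) (nat_lit
  82420) (nat_lit 10) (node (nat_lit 4) (nat_lit 82420) (nat_lit 11) (node (nat_lit 5) (nat_lit
  83037) (nat_lit 12) (node (nat_lit 7) (nat_lit 84349) (nat_lit 13) nil nil) (node (nat_lit 7)
  (nat_lit 83037) (nat_lit 12) (node (nat_lit 4) (nat_lit 85549) (nat_lit 13) nil nil) nil)) (node
  (nat_lit 7) (nat_lit 82420) (nat_lit 11) (node (nat_lit 4) (nat_lit 82420) (nat_lit 12) (node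
  (nat_lit 5) (nat_lit 85081) (nat_lit 13) (node (nat_lit 4) (nat_lit 87773) (nat_lit 14) (node
  (nat_lit 7) (nat_lit 89551) (nat_lit 15) nil nil) nil) nil) nil) nil)) nil) (node (nat_lit 5)
  (nat_lit 82420) (nat_lit 9) (node (nat_lit 4) (nat_lit 82420) (nat_lit 10) (node (nat_lit 7)
  (nat_lit 82420) (nat_lit 11) (node (nat_lit 5) (nat_lit 82420) (nat_lit 12) (node (nat_lit 7)
  (nat_lit 83731) (nat_lit 13) nil (node (nat_lit 4) (nat_lit 83731) (nat_lit 13) nil nil)) (node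
  (nat_lit 4) (nat_lit 82420) (nat_lit 12) (node (nat_lit 5) (nat_lit 82804) (nat_lit 13) nil nil)
  (node (nat_lit 8) (nat_lit 30355) (nat_lit 12) nil nil))) nil) (node (nat_lit 7) (nat_lit 82420)
  (nat_lit 10) (node (nat_lit 5) (nat_lit 82420) (nat_lit 11) (node (nat_lit 4) (nat_lit 83037)
  (nat_lit 12) (node (nat_lit 7) (nat_lit 83635) (nat_lit 13) nil nil) nil) nil) nil)) (node
  (nat_lit 8) (nat_lit 90085) (nat_lit 9) nil (node (nat_lit 0) (nat_lit 85703) (nat_lit 9) nil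
  nil)))) (node (nat_lit 5) (nat_lit 82229) (nat_lit 8) (node (nat_lit 4) (nat_lit 82229) (nat_lit
  9) (node (nat_lit 7) (nat_lit 82229) (nat_lit 10) (node (nat_lit 4) (nat_lit 82229) (nat_lit 11)
  (node (nat_lit 5) (nat_lit 82847) (nat_lit 12) (node (nat_lit 4) (nat_lit 86017) (nat_lit 13)
  (node (nat_lit 7) (nat_lit 86361) (nat_lit 14) nil nil) nil) nil) (node (nat_lit 5) (nat_lit
  82229) (nat_lit 11) (node (nat_lit 7) (nat_lit 82229) (nat_lit 12) (node (nat_lit 4) (nat_lit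
  87493) (nat_lit 13) nil nil) nil) nil)) (node (nat_lit 5) (nat_lit 82229) (nat_lit 10) (node
  (nat_lit 7) (nat_lit 82229) (nat_lit 11) (node (nat_lit 4) (nat_lit 82229) (nat_lit 12) (node
  (nat_lit 5) (nat_lit 84337) (nat_lit 13) (node (nat_lit 4) (nat_lit 85900) (nat_lit 14) (node
  (nat_lit 7) (nat_lit 86986) (nat_lit 15) nil nil) nil) nil) nil) nil) nil)) (node (nat_lit 8)
  (nat_lit 90369) (nat_lit 9) nil nil)) (node (nat_lit 8) (nat_lit 88010) (nat_lit 8) nil nil)))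
  (node (nat_lit 4) (nat_lit 81023) (nat_lit 7) (node (nat_lit 7) (nat_lit 0) (nat_lit 8) (node
  (nat_lit 5) (nat_lit 81158) (nat_lit 9) (node (nat_lit 7) (nat_lit 81158) (nat_lit 10) (node
  (nat_lit 4) (nat_lit 81158) (nat_lit 11) (node (nat_lit 5) (nat_lit 81158) (nat_lit 12) (node
  (nat_lit 4) (nat_lit 86310) (nat_lit 13) (node (nat_lit 7) (nat_lit 89648) (nat_lit 14) nil nil)
  (node (nat_lit 7) (nat_lit 82469) (nat_lit 13) nil nil)) (node (nat_lit 7) (nat_lit 81158)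
  (nat_lit 12) (node (nat_lit 5) (nat_lit 81542) (nat_lit 13) nil nil) nil)) nil) (node (nat_lit
  4) (nat_lit 81158) (nat_lit 10) (node (nat_lit 5) (nat_lit 81158) (nat_lit 11) (node (nat_lit 7)
  (nat_lit 80886) (nat_lit 12) (node (nat_lit 4) (nat_lit 83253) (nat_lit 13) nil (node (nat_lit
  5) (nat_lit 82198) (nat_lit 13) nil nil)) nil) nil) nil)) (node (nat_lit 4) (nat_lit 81548)
  (nat_lit 9) (node (nat_lit 5) (nat_lit 82143) (nat_lit 10) (node (nat_lit 7) (nat_lit 82476)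
  (nat_lit 11) (node (nat_lit 5) (nat_lit 83093) (nat_lit 12) (node (nat_lit 4) (nat_lit 80055)
  (nat_lit 13) nil nil) (node (nat_lit 4) (nat_lit 82476) (nat_lit 12) (node (nat_lit 7) (nat_lit
  83788) (nat_lit 13) nil nil) nil)) (node (nat_lit 4) (nat_lit 82143) (nat_lit 11) (node (nat_lit
  7) (nat_lit 82760) (nat_lit 12) (node (nat_lit 5) (nat_lit 85602) (nat_lit 13) nil (node
  (nat_lit 8) (nat_lit 38174) (nat_lit 13) nil nil)) nil) nil)) (node (nat_lit 8) (nat_lit 85791)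
  (nat_lit 10) nil nil)) (node (nat_lit 0) (nat_lit 84830) (nat_lit 9) nil nil))) (node (nat_lit
  5) (nat_lit 82147) (nat_lit 8) (node (nat_lit 7) (nat_lit 82147) (nat_lit 9) (node (nat_lit 4)
  (nat_lit 82147) (nat_lit 10) (node (nat_lit 7) (nat_lit 82147) (nat_lit 11) nil (node (nat_lit
  5) (nat_lit 82147) (nat_lit 11) (node (nat_lit 4) (nat_lit 82147) (nat_lit 12) (node (nat_lit 7)
  (nat_lit 86569) (nat_lit 13) nil nil) nil) nil)) (node (nat_lit 5) (nat_lit 82147) (nat_lit 10)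
  nil nil)) (node (nat_lit 8) (nat_lit 90287) (nat_lit 9) nil nil)) (node (nat_lit 8) (nat_lit
  91120) (nat_lit 8) nil nil))) (node (nat_lit 8) (nat_lit 93052) (nat_lit 7) (node (nat_lit 7)
  (nat_lit 93052) (nat_lit 8) nil (node (nat_lit 4) (nat_lit 93052) (nat_lit 8) nil nil)) (node
  (nat_lit 0) (nat_lit 81900) (nat_lit 7) nil nil)))) (node (nat_lit 7) (nat_lit 79511) (nat_lit
  6) (node (nat_lit 4) (nat_lit 81007) (nat_lit 7) (node (nat_lit 5) (nat_lit 81732) (nat_lit 8)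
  (node (nat_lit 7) (nat_lit 81732) (nat_lit 9) (node (nat_lit 5) (nat_lit 81732) (nat_lit 10)
  (node (nat_lit 4) (nat_lit 81732) (nat_lit 11) (node (nat_lit 7) (nat_lit 82349) (nat_lit 12)
  (node (nat_lit 4) (nat_lit 84861) (nat_lit 13) (node (nat_lit 5) (nat_lit 87020) (nat_lit 14)
  (node (nat_lit 4) (nat_lit 88526) (nat_lit 15) (node (nat_lit 7) (nat_lit 88398) (nat_lit 16)
  nil nil) nil) nil) nil) (node (nat_lit 5) (nat_lit 82349) (nat_lit 12) (node (nat_lit 7)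
  (nat_lit 86805) (nat_lit 13) nil nil) nil)) nil) (node (nat_lit 4) (nat_lit 81732) (nat_lit 10)
  (node (nat_lit 7) (nat_lit 81732) (nat_lit 11) (node (nat_lit 5) (nat_lit 81732) (nat_lit 12)
  nil nil) nil) nil)) (node (nat_lit 4) (nat_lit 81732) (nat_lit 9) (node (nat_lit 7) (nat_lit
  81732) (nat_lit 10) (node (nat_lit 5) (nat_lit 81732) (nat_lit 11) (node (nat_lit 7) (nat_lit
  82349) (nat_lit 12) (node (nat_lit 4) (nat_lit 87713) (nat_lit 13) (node (nat_lit 5) (nat_lit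
  89272) (nat_lit 14) nil nil) nil) (node (nat_lit 4) (nat_lit 81732) (nat_lit 12) (node (nat_lit
  5) (nat_lit 78694) (nat_lit 13) nil nil) nil)) (node (nat_lit 4) (nat_lit 81732) (nat_lit 11)
  (node (nat_lit 5) (nat_lit 81732) (nat_lit 12) nil nil) nil)) nil) (node (nat_lit 8) (nat_lit
  85489) (nat_lit 9) nil nil))) (node (nat_lit 7) (nat_lit 81872) (nat_lit 8) (node (nat_lit 5)
  (nat_lit 81872) (nat_lit 9) (node (nat_lit 4) (nat_lit 81872) (nat_lit 10) (node (nat_lit 5)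
  (nat_lit 81872) (nat_lit 11) (node (nat_lit 7) (nat_lit 81872) (nat_lit 12) (node (nat_lit 4)
  (nat_lit 84396) (nat_lit 13) (node (nat_lit 5) (nat_lit 85502) (nat_lit 14) (node (nat_lit 4)
  (nat_lit 86229) (nat_lit 15) (node (nat_lit 7) (nat_lit 87077) (nat_lit 16) nil nil) nil) nil)
  nil) nil) (node (nat_lit 7) (nat_lit 81872) (nat_lit 11) (node (nat_lit 4) (nat_lit 81571)
  (nat_lit 12) (node (nat_lit 5) (nat_lit 84551) (nat_lit 13) (node (nat_lit 4) (nat_lit 86382)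
  (nat_lit 14) (node (nat_lit 7) (nat_lit 86092) (nat_lit 15) nil nil) nil) nil) nil) nil)) (node
  (nat_lit 7) (nat_lit 81872) (nat_lit 10) (node (nat_lit 4) (nat_lit 81872) (nat_lit 11) (node
  (nat_lit 5) (nat_lit 81872) (nat_lit 12) (node (nat_lit 4) (nat_lit 86851) (nat_lit 13) (node
  (nat_lit 7) (nat_lit 88795) (nat_lit 14) nil nil) nil) nil) nil) nil)) (node (nat_lit 8)
  (nat_lit 85629) (nat_lit 9) nil nil)) (node (nat_lit 8) (nat_lit 87797) (nat_lit 8) nil nil)))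
  (node (nat_lit 5) (nat_lit 81257) (nat_lit 7) (node (nat_lit 4) (nat_lit 0) (nat_lit 8) (node
  (nat_lit 7) (nat_lit 82469) (nat_lit 9) (node (nat_lit 4) (nat_lit 82469) (nat_lit 10) (node
  (nat_lit 5) (nat_lit 82469) (nat_lit 11) (node (nat_lit 7) (nat_lit 82168) (nat_lit 12) (node
  (nat_lit 5) (nat_lit 83479) (nat_lit 13) nil nil) (node (nat_lit 4) (nat_lit 83086) (nat_lit 12)
  (node (nat_lit 7) (nat_lit 83684) (nat_lit 13) nil nil) nil)) nil) (node (nat_lit 5) (nat_lit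
  82469) (nat_lit 10) (node (nat_lit 7) (nat_lit 82469) (nat_lit 11) (node (nat_lit 4) (nat_lit
  82469) (nat_lit 12) (node (nat_lit 5) (nat_lit 85275) (nat_lit 13) (node (nat_lit 4) (nat_lit
  87724) (nat_lit 14) (node (nat_lit 7) (nat_lit 89502) (nat_lit 15) nil nil) nil) nil) nil) nil)
  nil)) (node (nat_lit 5) (nat_lit 82835) (nat_lit 9) (node (nat_lit 7) (nat_lit 82805) (nat_lit
  10) (node (nat_lit 4) (nat_lit 82479) (nat_lit 11) (node (nat_lit 7) (nat_lit 82103) (nat_lit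
  12) (node (nat_lit 5) (nat_lit 82904) (nat_lit 13) nil nil) (node (nat_lit 5) (nat_lit 82479)
  (nat_lit 12) (node (nat_lit 4) (nat_lit 85552) (nat_lit 13) (node (nat_lit 7) (nat_lit 87755)
  (nat_lit 14) nil nil) nil) nil)) (node (nat_lit 5) (nat_lit 82805) (nat_lit 11) (node (nat_lit
  4) (nat_lit 83423) (nat_lit 12) (node (nat_lit 7) (nat_lit 84020) (nat_lit 13) nil nil) nil)
  nil)) (node (nat_lit 8) (nat_lit 87078) (nat_lit 10) nil nil)) (node (nat_lit 8) (nat_lit 86094)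
  (nat_lit 9) nil (node (nat_lit 0) (nat_lit 86094) (nat_lit 9) nil nil)))) (node (nat_lit 7)
  (nat_lit 82270) (nat_lit 8) (node (nat_lit 4) (nat_lit 82270) (nat_lit 9) (node (nat_lit 5)
  (nat_lit 82270) (nat_lit 10) (node (nat_lit 7) (nat_lit 82270) (nat_lit 11) (node (nat_lit 5)
  (nat_lit 82270) (nat_lit 12) nil nil) (node (nat_lit 4) (nat_lit 82270) (nat_lit 11) nil nil))
  (node (nat_lit 7) (nat_lit 82270) (nat_lit 10) nil nil)) (node (nat_lit 8) (nat_lit 86027)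
  (nat_lit 9) nil nil)) (node (nat_lit 8) (nat_lit 88047) (nat_lit 8) nil nil))) nil)) (node
  (nat_lit 0) (nat_lit 86371) (nat_lit 6) (node (nat_lit 5) (nat_lit 86371) (nat_lit 7) nil (node
  (nat_lit 4) (nat_lit 86371) (nat_lit 7) nil nil)) nil)))) nil))) nil) nil))

noncomputable def c49 : Tr :=
  (node (nat_lit 3) (nat_lit 0) (nat_lit 1) (node (nat_lit 3) (nat_lit 0) (nat_lit 2) t242 nil)
  nil)

noncomputable def t243 : Tr :=
  (node (nat_lit 6) (nat_lit 0) (nat_lit 6) (node (nat_lit 5) (nat_lit 0) (nat_lit 7) (node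
  (nat_lit 4) (nat_lit 79163) (nat_lit 8) (node (nat_lit 6) (nat_lit 79163) (nat_lit 9) (node
  (nat_lit 5) (nat_lit 79163) (nat_lit 10) (node (nat_lit 6) (nat_lit 79163) (nat_lit 11) (node
  (nat_lit 4) (nat_lit 79163) (nat_lit 12) (node (nat_lit 6) (nat_lit 83862) (nat_lit 13) (node
  (nat_lit 5) (nat_lit 85905) (nat_lit 14) (node (nat_lit 4) (nat_lit 83970) (nat_lit 15) (node
  (nat_lit 5) (nat_lit 82538) (nat_lit 16) (node (nat_lit 6) (nat_lit 80474) (nat_lit 17) nil nil)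
  nil) nil) nil) (node (nat_lit 5) (nat_lit 79906) (nat_lit 13) nil nil)) nil) nil) (node (nat_lit
  4) (nat_lit 79163) (nat_lit 10) (node (nat_lit 5) (nat_lit 79163) (nat_lit 11) (node (nat_lit 6)
  (nat_lit 79163) (nat_lit 12) (node (nat_lit 4) (nat_lit 81186) (nat_lit 13) nil nil) (node
  (nat_lit 4) (nat_lit 79163) (nat_lit 12) nil nil)) nil) nil)) (node (nat_lit 5) (nat_lit 79395)
  (nat_lit 9) (node (nat_lit 6) (nat_lit 79513) (nat_lit 10) (node (nat_lit 4) (nat_lit 79513)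
  (nat_lit 11) (node (nat_lit 6) (nat_lit 79513) (nat_lit 12) (node (nat_lit 5) (nat_lit 84145)
  (nat_lit 13) (node (nat_lit 4) (nat_lit 84005) (nat_lit 14) nil nil) nil) (node (nat_lit 8)
  (nat_lit 35687) (nat_lit 12) (node (nat_lit 6) (nat_lit 35687) (nat_lit 13) nil nil) (node
  (nat_lit 5) (nat_lit 79513) (nat_lit 12) nil nil))) (node (nat_lit 5) (nat_lit 79513) (nat_lit
  11) (node (nat_lit 4) (nat_lit 79513) (nat_lit 12) (node (nat_lit 6) (nat_lit 83262) (nat_lit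
  13) nil nil) nil) nil)) (node (nat_lit 8) (nat_lit 85944) (nat_lit 10) nil nil)) (node (nat_lit
  8) (nat_lit 84960) (nat_lit 9) nil nil))) (node (nat_lit 6) (nat_lit 0) (nat_lit 8) (node
  (nat_lit 4) (nat_lit 79188) (nat_lit 9) (node (nat_lit 5) (nat_lit 79214) (nat_lit 10) (node
  (nat_lit 4) (nat_lit 79029) (nat_lit 11) (node (nat_lit 6) (nat_lit 79072) (nat_lit 12) (node
  (nat_lit 4) (nat_lit 82957) (nat_lit 13) (node (nat_lit 5) (nat_lit 85142) (nat_lit 14) (node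
  (nat_lit 6) (nat_lit 85145) (nat_lit 15) (node (nat_lit 4) (nat_lit 86476) (nat_lit 16) nil nil)
  nil) nil) (node (nat_lit 5) (nat_lit 83321) (nat_lit 13) (node (nat_lit 4) (nat_lit 84900)
  (nat_lit 14) nil nil) nil)) nil) (node (nat_lit 6) (nat_lit 79214) (nat_lit 11) (node (nat_lit
  5) (nat_lit 79214) (nat_lit 12) (node (nat_lit 4) (nat_lit 77835) (nat_lit 13) nil nil) nil)
  (node (nat_lit 8) (nat_lit 86347) (nat_lit 11) nil nil))) (node (nat_lit 6) (nat_lit 79165)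
  (nat_lit 10) (node (nat_lit 5) (nat_lit 79165) (nat_lit 11) (node (nat_lit 4) (nat_lit 79165)
  (nat_lit 12) (node (nat_lit 5) (nat_lit 83801) (nat_lit 13) (node (nat_lit 6) (nat_lit 87233)
  (nat_lit 14) (node (nat_lit 4) (nat_lit 88134) (nat_lit 15) nil nil) nil) (node (nat_lit 6)
  (nat_lit 82586) (nat_lit 13) nil nil)) (node (nat_lit 6) (nat_lit 79165) (nat_lit 12) nil nil))
  nil) (node (nat_lit 8) (nat_lit 85736) (nat_lit 10) nil nil))) (node (nat_lit 8) (nat_lit 86820)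
  (nat_lit 9) nil (node (nat_lit 0) (nat_lit 84969) (nat_lit 9) nil nil))) (node (nat_lit 8)
  (nat_lit 95315) (nat_lit 8) (node (nat_lit 5) (nat_lit 95315) (nat_lit 9) (node (nat_lit 6)
  (nat_lit 95315) (nat_lit 10) nil nil) (node (nat_lit 4) (nat_lit 95315) (nat_lit 9) nil nil))
  (node (nat_lit 0) (nat_lit 85263) (nat_lit 8) nil nil)))) (node (nat_lit 4) (nat_lit 0) (nat_lit
  7) (node (nat_lit 6) (nat_lit 79779) (nat_lit 8) (node (nat_lit 5) (nat_lit 79937) (nat_lit 9)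
  (node (nat_lit 4) (nat_lit 79937) (nat_lit 10) (node (nat_lit 5) (nat_lit 79937) (nat_lit 11)
  (node (nat_lit 6) (nat_lit 79937) (nat_lit 12) (node (nat_lit 4) (nat_lit 83933) (nat_lit 13)
  (node (nat_lit 5) (nat_lit 85512) (nat_lit 14) nil (node (nat_lit 6) (nat_lit 82975) (nat_lit
  14) nil (node (nat_lit 8) (nat_lit 66427) (nat_lit 14) nil nil))) (node (nat_lit 5) (nat_lit
  85315) (nat_lit 13) (node (nat_lit 4) (nat_lit 85327) (nat_lit 14) nil nil) nil)) (node (nat_lit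
  8) (nat_lit 87528) (nat_lit 12) nil nil)) (node (nat_lit 6) (nat_lit 79937) (nat_lit 11) (node
  (nat_lit 4) (nat_lit 80014) (nat_lit 12) (node (nat_lit 5) (nat_lit 82444) (nat_lit 13) (node
  (nat_lit 6) (nat_lit 82997) (nat_lit 14) nil nil) nil) nil) (node (nat_lit 0) (nat_lit 87071)
  (nat_lit 11) nil (node (nat_lit 8) (nat_lit 87071) (nat_lit 11) nil nil)))) (node (nat_lit 6)
  (nat_lit 79937) (nat_lit 10) (node (nat_lit 4) (nat_lit 79937) (nat_lit 11) (node (nat_lit 5)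
  (nat_lit 79951) (nat_lit 12) (node (nat_lit 4) (nat_lit 82234) (nat_lit 13) (node (nat_lit 6)
  (nat_lit 76916) (nat_lit 14) nil nil) (node (nat_lit 6) (nat_lit 83186) (nat_lit 13) nil nil))
  (node (nat_lit 6) (nat_lit 79937) (nat_lit 12) nil nil)) nil) (node (nat_lit 8) (nat_lit 90407)
  (nat_lit 10) nil (node (nat_lit 0) (nat_lit 86485) (nat_lit 10) nil nil)))) (node (nat_lit 8)
  (nat_lit 96134) (nat_lit 9) (node (nat_lit 4) (nat_lit 96134) (nat_lit 10) nil nil) (node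
  (nat_lit 0) (nat_lit 92327) (nat_lit 9) nil nil))) (node (nat_lit 5) (nat_lit 78867) (nat_lit 8)
  (node (nat_lit 6) (nat_lit 78858) (nat_lit 9) (node (nat_lit 4) (nat_lit 78858) (nat_lit 10)
  (node (nat_lit 6) (nat_lit 78858) (nat_lit 11) (node (nat_lit 5) (nat_lit 78858) (nat_lit 12)
  (node (nat_lit 4) (nat_lit 78902) (nat_lit 13) (node (nat_lit 5) (nat_lit 82057) (nat_lit 14)
  (node (nat_lit 6) (nat_lit 84565) (nat_lit 15) (node (nat_lit 4) (nat_lit 86267) (nat_lit 16)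
  nil nil) nil) nil) (node (nat_lit 6) (nat_lit 80881) (nat_lit 13) nil nil)) nil) (node (nat_lit
  8) (nat_lit 50610) (nat_lit 11) nil nil)) (node (nat_lit 5) (nat_lit 78884) (nat_lit 10) (node
  (nat_lit 4) (nat_lit 78884) (nat_lit 11) (node (nat_lit 6) (nat_lit 78884) (nat_lit 12) (node
  (nat_lit 4) (nat_lit 83324) (nat_lit 13) (node (nat_lit 5) (nat_lit 86790) (nat_lit 14) (node
  (nat_lit 6) (nat_lit 86517) (nat_lit 15) nil nil) nil) (node (nat_lit 5) (nat_lit 80907)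
  (nat_lit 13) nil nil)) (node (nat_lit 5) (nat_lit 79090) (nat_lit 12) (node (nat_lit 6) (nat_lit
  81333) (nat_lit 13) (node (nat_lit 4) (nat_lit 83674) (nat_lit 14) nil nil) nil) nil)) nil)
  nil)) (node (nat_lit 4) (nat_lit 79033) (nat_lit 9) (node (nat_lit 6) (nat_lit 79098) (nat_lit
  10) (node (nat_lit 5) (nat_lit 79098) (nat_lit 11) (node (nat_lit 4) (nat_lit 79098) (nat_lit
  12) (node (nat_lit 5) (nat_lit 82555) (nat_lit 13) (node (nat_lit 6) (nat_lit 85249) (nat_lit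
  14) (node (nat_lit 4) (nat_lit 87313) (nat_lit 15) nil nil) nil) nil) (node (nat_lit 6) (nat_lit
  79098) (nat_lit 12) nil nil)) (node (nat_lit 4) (nat_lit 79098) (nat_lit 11) (node (nat_lit 5)
  (nat_lit 79098) (nat_lit 12) (node (nat_lit 6) (nat_lit 83569) (nat_lit 13) (node (nat_lit 4)
  (nat_lit 85753) (nat_lit 14) nil nil) nil) nil) nil)) (node (nat_lit 8) (nat_lit 85581) (nat_lit
  10) nil nil)) (node (nat_lit 8) (nat_lit 84664) (nat_lit 9) nil (node (nat_lit 0) (nat_lit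
  84664) (nat_lit 9) nil nil)))) (node (nat_lit 0) (nat_lit 88537) (nat_lit 8) nil nil))) (node
  (nat_lit 8) (nat_lit 0) (nat_lit 7) (node (nat_lit 4) (nat_lit 94870) (nat_lit 8) (node (nat_lit
  6) (nat_lit 94870) (nat_lit 9) (node (nat_lit 4) (nat_lit 94870) (nat_lit 10) (node (nat_lit 5)
  (nat_lit 94870) (nat_lit 11) (node (nat_lit 6) (nat_lit 94870) (nat_lit 12) (node (nat_lit 4)
  (nat_lit 94870) (nat_lit 13) (node (nat_lit 6) (nat_lit 94870) (nat_lit 14) (node (nat_lit 5)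
  (nat_lit 96103) (nat_lit 15) nil nil) nil) (node (nat_lit 5) (nat_lit 94870) (nat_lit 13) (node
  (nat_lit 4) (nat_lit 94944) (nat_lit 14) (node (nat_lit 5) (nat_lit 96220) (nat_lit 15) (node
  (nat_lit 6) (nat_lit 97182) (nat_lit 16) (node (nat_lit 4) (nat_lit 97914) (nat_lit 17) nil nil)
  nil) (node (nat_lit 6) (nat_lit 96177) (nat_lit 15) nil nil)) nil) nil)) (node (nat_lit 4)
  (nat_lit 94870) (nat_lit 12) (node (nat_lit 6) (nat_lit 94870) (nat_lit 13) (node (nat_lit 5)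
  (nat_lit 94870) (nat_lit 14) nil nil) nil) nil)) (node (nat_lit 8) (nat_lit 98231) (nat_lit 11)
  nil nil)) (node (nat_lit 5) (nat_lit 94870) (nat_lit 10) (node (nat_lit 4) (nat_lit 94870)
  (nat_lit 11) (node (nat_lit 5) (nat_lit 94870) (nat_lit 12) (node (nat_lit 6) (nat_lit 94870)
  (nat_lit 13) nil nil) (node (nat_lit 6) (nat_lit 94870) (nat_lit 12) (node (nat_lit 4) (nat_lit
  94870) (nat_lit 13) nil nil) nil)) (node (nat_lit 6) (nat_lit 94870) (nat_lit 11) (node (nat_lit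
  4) (nat_lit 94870) (nat_lit 12) (node (nat_lit 6) (nat_lit 94870) (nat_lit 13) nil nil) nil)
  nil)) (node (nat_lit 0) (nat_lit 97815) (nat_lit 10) nil nil))) (node (nat_lit 5) (nat_lit
  94870) (nat_lit 9) (node (nat_lit 6) (nat_lit 94870) (nat_lit 10) (node (nat_lit 4) (nat_lit
  94870) (nat_lit 11) nil nil) (node (nat_lit 4) (nat_lit 94870) (nat_lit 10) nil nil)) (node
  (nat_lit 8) (nat_lit 97064) (nat_lit 9) nil (node (nat_lit 0) (nat_lit 97064) (nat_lit 9) nil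
  nil)))) (node (nat_lit 5) (nat_lit 94870) (nat_lit 8) (node (nat_lit 6) (nat_lit 94870) (nat_lit
  9) (node (nat_lit 5) (nat_lit 94870) (nat_lit 10) (node (nat_lit 4) (nat_lit 94870) (nat_lit 11)
  (node (nat_lit 6) (nat_lit 94870) (nat_lit 12) (node (nat_lit 4) (nat_lit 94870) (nat_lit 13)
  (node (nat_lit 5) (nat_lit 94870) (nat_lit 14) (node (nat_lit 6) (nat_lit 94737) (nat_lit 15)
  nil nil) nil) nil) nil) nil) (node (nat_lit 4) (nat_lit 94870) (nat_lit 10) (node (nat_lit 6)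
  (nat_lit 94870) (nat_lit 11) (node (nat_lit 5) (nat_lit 94870) (nat_lit 12) nil nil) (node
  (nat_lit 5) (nat_lit 94870) (nat_lit 11) (node (nat_lit 4) (nat_lit 94870) (nat_lit 12) nil nil)
  nil)) nil)) (node (nat_lit 4) (nat_lit 94870) (nat_lit 9) nil nil)) (node (nat_lit 0) (nat_lit
  96103) (nat_lit 8) nil nil))) (node (nat_lit 0) (nat_lit 89922) (nat_lit 7) (node (nat_lit 8)
  (nat_lit 91155) (nat_lit 8) nil (node (nat_lit 6) (nat_lit 89922) (nat_lit 8) nil (node (nat_lit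
  4) (nat_lit 89922) (nat_lit 8) nil nil))) nil)))) (node (nat_lit 4) (nat_lit 0) (nat_lit 6)
  (node (nat_lit 6) (nat_lit 0) (nat_lit 7) (node (nat_lit 5) (nat_lit 79733) (nat_lit 8) (node
  (nat_lit 6) (nat_lit 79733) (nat_lit 9) (node (nat_lit 4) (nat_lit 79733) (nat_lit 10) (node
  (nat_lit 5) (nat_lit 79733) (nat_lit 11) (node (nat_lit 4) (nat_lit 79733) (nat_lit 12) (node
  (nat_lit 6) (nat_lit 85462) (nat_lit 13) (node (nat_lit 5) (nat_lit 86497) (nat_lit 14) (node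
  (nat_lit 4) (nat_lit 85794) (nat_lit 15) (node (nat_lit 5) (nat_lit 84961) (nat_lit 16) nil nil)
  nil) (node (nat_lit 4) (nat_lit 85730) (nat_lit 14) (node (nat_lit 5) (nat_lit 84205) (nat_lit
  15) nil nil) nil)) nil) (node (nat_lit 6) (nat_lit 79733) (nat_lit 12) nil nil)) (node (nat_lit
  6) (nat_lit 79733) (nat_lit 11) (node (nat_lit 5) (nat_lit 79733) (nat_lit 12) (node (nat_lit 4)
  (nat_lit 79823) (nat_lit 13) (node (nat_lit 5) (nat_lit 82981) (nat_lit 14) (node (nat_lit 6)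
  (nat_lit 85410) (nat_lit 15) (node (nat_lit 4) (nat_lit 87210) (nat_lit 16) nil nil) nil) nil)
  nil) nil) (node (nat_lit 8) (nat_lit 86866) (nat_lit 11) nil nil))) nil) (node (nat_lit 4)
  (nat_lit 79898) (nat_lit 9) (node (nat_lit 5) (nat_lit 79898) (nat_lit 10) (node (nat_lit 6)
  (nat_lit 79898) (nat_lit 11) (node (nat_lit 4) (nat_lit 79898) (nat_lit 12) (node (nat_lit 5)
  (nat_lit 81922) (nat_lit 13) nil (node (nat_lit 6) (nat_lit 78671) (nat_lit 13) nil (node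
  (nat_lit 8) (nat_lit 53754) (nat_lit 13) nil nil))) (node (nat_lit 5) (nat_lit 79898) (nat_lit
  12) nil nil)) nil) (node (nat_lit 6) (nat_lit 79898) (nat_lit 10) (node (nat_lit 4) (nat_lit
  79898) (nat_lit 11) (node (nat_lit 5) (nat_lit 79816) (nat_lit 12) (node (nat_lit 6) (nat_lit
  80532) (nat_lit 13) (node (nat_lit 4) (nat_lit 83674) (nat_lit 14) nil nil) nil) nil) nil) nil))
  (node (nat_lit 0) (nat_lit 85530) (nat_lit 9) nil (node (nat_lit 8) (nat_lit 85530) (nat_lit 9)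
  nil nil)))) (node (nat_lit 4) (nat_lit 79565) (nat_lit 8) (node (nat_lit 5) (nat_lit 79565)
  (nat_lit 9) (node (nat_lit 6) (nat_lit 79565) (nat_lit 10) (node (nat_lit 4) (nat_lit 79565)
  (nat_lit 11) (node (nat_lit 6) (nat_lit 79565) (nat_lit 12) (node (nat_lit 5) (nat_lit 84218)
  (nat_lit 13) (node (nat_lit 4) (nat_lit 84236) (nat_lit 14) nil nil) nil) (node (nat_lit 8)
  (nat_lit 51325) (nat_lit 12) nil nil)) (node (nat_lit 5) (nat_lit 79565) (nat_lit 11) (node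
  (nat_lit 4) (nat_lit 79657) (nat_lit 12) (node (nat_lit 5) (nat_lit 83277) (nat_lit 13) (node
  (nat_lit 6) (nat_lit 85036) (nat_lit 14) nil nil) (node (nat_lit 6) (nat_lit 83240) (nat_lit 13)
  nil nil)) nil) nil)) (node (nat_lit 4) (nat_lit 79565) (nat_lit 10) (node (nat_lit 6) (nat_lit
  79565) (nat_lit 11) (node (nat_lit 5) (nat_lit 79565) (nat_lit 12) (node (nat_lit 4) (nat_lit
  82626) (nat_lit 13) (node (nat_lit 5) (nat_lit 84697) (nat_lit 14) (node (nat_lit 6) (nat_lit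
  86488) (nat_lit 15) nil nil) nil) (node (nat_lit 6) (nat_lit 81589) (nat_lit 13) nil nil)) (node
  (nat_lit 4) (nat_lit 79565) (nat_lit 12) nil nil)) nil) nil)) (node (nat_lit 8) (nat_lit 96284)
  (nat_lit 9) (node (nat_lit 6) (nat_lit 96284) (nat_lit 10) (node (nat_lit 4) (nat_lit 96284)
  (nat_lit 11) (node (nat_lit 6) (nat_lit 96284) (nat_lit 12) nil nil) nil) nil) (node (nat_lit 0)
  (nat_lit 85363) (nat_lit 9) nil nil))) (node (nat_lit 8) (nat_lit 92127) (nat_lit 8) (node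
  (nat_lit 6) (nat_lit 92127) (nat_lit 9) (node (nat_lit 4) (nat_lit 92127) (nat_lit 10) nil nil)
  nil) (node (nat_lit 0) (nat_lit 86841) (nat_lit 8) nil nil)))) (node (nat_lit 5) (nat_lit 0)
  (nat_lit 7) (node (nat_lit 6) (nat_lit 79824) (nat_lit 8) (node (nat_lit 5) (nat_lit 79888)
  (nat_lit 9) (node (nat_lit 4) (nat_lit 79900) (nat_lit 10) (node (nat_lit 6) (nat_lit 79900)
  (nat_lit 11) (node (nat_lit 4) (nat_lit 79900) (nat_lit 12) (node (nat_lit 5) (nat_lit 84273)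
  (nat_lit 13) (node (nat_lit 6) (nat_lit 84590) (nat_lit 14) (node (nat_lit 4) (nat_lit 86425)
  (nat_lit 15) nil nil) nil) nil) (node (nat_lit 5) (nat_lit 79900) (nat_lit 12) nil nil)) (node
  (nat_lit 5) (nat_lit 79900) (nat_lit 11) (node (nat_lit 6) (nat_lit 79900) (nat_lit 12) (node
  (nat_lit 4) (nat_lit 83560) (nat_lit 13) (node (nat_lit 8) (nat_lit 53977) (nat_lit 14) nil nil)
  nil) nil) nil)) nil) (node (nat_lit 4) (nat_lit 79692) (nat_lit 9) (node (nat_lit 6) (nat_lit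
  79692) (nat_lit 10) (node (nat_lit 5) (nat_lit 79692) (nat_lit 11) (node (nat_lit 4) (nat_lit
  79692) (nat_lit 12) (node (nat_lit 5) (nat_lit 84324) (nat_lit 13) (node (nat_lit 6) (nat_lit
  87428) (nat_lit 14) (node (nat_lit 4) (nat_lit 88930) (nat_lit 15) nil nil) nil) (node (nat_lit
  6) (nat_lit 81716) (nat_lit 13) nil nil)) (node (nat_lit 6) (nat_lit 79692) (nat_lit 12) nil
  nil)) nil) (node (nat_lit 5) (nat_lit 79692) (nat_lit 10) (node (nat_lit 4) (nat_lit 79692)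
  (nat_lit 11) (node (nat_lit 6) (nat_lit 79692) (nat_lit 12) (node (nat_lit 4) (nat_lit 83713)
  (nat_lit 13) (node (nat_lit 5) (nat_lit 85898) (nat_lit 14) nil nil) nil) nil) nil) nil)) (node
  (nat_lit 0) (nat_lit 85621) (nat_lit 9) nil (node (nat_lit 8) (nat_lit 85621) (nat_lit 9) nil
  nil)))) (node (nat_lit 4) (nat_lit 79587) (nat_lit 8) (node (nat_lit 6) (nat_lit 79694) (nat_lit
  9) (node (nat_lit 5) (nat_lit 79694) (nat_lit 10) (node (nat_lit 4) (nat_lit 79694) (nat_lit 11)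
  (node (nat_lit 5) (nat_lit 79694) (nat_lit 12) (node (nat_lit 6) (nat_lit 83836) (nat_lit 13)
  nil nil) nil) (node (nat_lit 6) (nat_lit 79694) (nat_lit 11) (node (nat_lit 4) (nat_lit 79694)
  (nat_lit 12) (node (nat_lit 6) (nat_lit 78467) (nat_lit 13) nil nil) nil) nil)) (node (nat_lit
  4) (nat_lit 79694) (nat_lit 10) (node (nat_lit 5) (nat_lit 79694) (nat_lit 11) (node (nat_lit 6)
  (nat_lit 79694) (nat_lit 12) nil (node (nat_lit 4) (nat_lit 79694) (nat_lit 12) nil nil)) nil)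
  nil)) (node (nat_lit 8) (nat_lit 91007) (nat_lit 9) nil (node (nat_lit 0) (nat_lit 85385)
  (nat_lit 9) nil nil))) (node (nat_lit 8) (nat_lit 90607) (nat_lit 8) (node (nat_lit 5) (nat_lit
  90607) (nat_lit 9) nil nil) (node (nat_lit 0) (nat_lit 86780) (nat_lit 8) nil nil)))) (node
  (nat_lit 0) (nat_lit 0) (nat_lit 7) (node (nat_lit 4) (nat_lit 90132) (nat_lit 8) nil (node
  (nat_lit 5) (nat_lit 90132) (nat_lit 8) nil (node (nat_lit 6) (nat_lit 90132) (nat_lit 8) nil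
  (node (nat_lit 8) (nat_lit 91365) (nat_lit 8) nil (node (nat_lit 0) (nat_lit 91365) (nat_lit 8)
  nil nil))))) nil))) (node (nat_lit 0) (nat_lit 0) (nat_lit 6) (node (nat_lit 8) (nat_lit 0)
  (nat_lit 7) (node (nat_lit 4) (nat_lit 93791) (nat_lit 8) (node (nat_lit 9) (nat_lit 95985)
  (nat_lit 9) nil (node (nat_lit 8) (nat_lit 95985) (nat_lit 9) nil nil)) (node (nat_lit 5)
  (nat_lit 93791) (nat_lit 8) (node (nat_lit 9) (nat_lit 95985) (nat_lit 9) nil nil) (node
  (nat_lit 6) (nat_lit 93791) (nat_lit 8) (node (nat_lit 9) (nat_lit 95985) (nat_lit 9) nil nil)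
  (node (nat_lit 0) (nat_lit 95761) (nat_lit 8) nil nil)))) (node (nat_lit 4) (nat_lit 0) (nat_lit
  7) (node (nat_lit 9) (nat_lit 94555) (nat_lit 8) (node (nat_lit 8) (nat_lit 95516) (nat_lit 9)
  (node (nat_lit 9) (nat_lit 96267) (nat_lit 10) nil nil) nil) (node (nat_lit 8) (nat_lit 91281)
  (nat_lit 8) nil (node (nat_lit 0) (nat_lit 91281) (nat_lit 8) nil (node (nat_lit 5) (nat_lit
  88469) (nat_lit 8) nil (node (nat_lit 6) (nat_lit 88469) (nat_lit 8) nil nil))))) (node (nat_lit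
  6) (nat_lit 88469) (nat_lit 7) (node (nat_lit 4) (nat_lit 88469) (nat_lit 8) nil (node (nat_lit
  9) (nat_lit 91281) (nat_lit 8) nil (node (nat_lit 8) (nat_lit 91281) (nat_lit 8) nil nil)))
  (node (nat_lit 5) (nat_lit 88469) (nat_lit 7) (node (nat_lit 4) (nat_lit 88469) (nat_lit 8) nil
  (node (nat_lit 9) (nat_lit 91281) (nat_lit 8) nil (node (nat_lit 8) (nat_lit 91281) (nat_lit 8)
  nil nil))) (node (nat_lit 0) (nat_lit 91887) (nat_lit 7) nil nil))))) nil)))

noncomputable def t244 : Tr :=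
  (node (nat_lit 5) (nat_lit 0) (nat_lit 5) (node (nat_lit 0) (nat_lit 0) (nat_lit 6) (node
  (nat_lit 5) (nat_lit 0) (nat_lit 7) (node (nat_lit 4) (nat_lit 47124) (nat_lit 8) (node (nat_lit
  6) (nat_lit 47378) (nat_lit 9) (node (nat_lit 5) (nat_lit 47474) (nat_lit 10) (node (nat_lit 6)
  (nat_lit 47474) (nat_lit 11) (node (nat_lit 4) (nat_lit 47474) (nat_lit 12) (node (nat_lit 5)
  (nat_lit 47474) (nat_lit 13) (node (nat_lit 4) (nat_lit 48199) (nat_lit 14) nil nil) (node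
  (nat_lit 6) (nat_lit 47474) (nat_lit 13) nil nil)) nil) (node (nat_lit 4) (nat_lit 47474)
  (nat_lit 11) (node (nat_lit 5) (nat_lit 47474) (nat_lit 12) (node (nat_lit 6) (nat_lit 47474)
  (nat_lit 13) (node (nat_lit 4) (nat_lit 48199) (nat_lit 14) nil nil) nil) nil) (node (nat_lit 0)
  (nat_lit 49819) (nat_lit 11) nil (node (nat_lit 9) (nat_lit 51451) (nat_lit 11) nil nil))))
  (node (nat_lit 4) (nat_lit 47378) (nat_lit 10) (node (nat_lit 5) (nat_lit 47378) (nat_lit 11)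
  (node (nat_lit 6) (nat_lit 47378) (nat_lit 12) (node (nat_lit 5) (nat_lit 47378) (nat_lit 13)
  nil (node (nat_lit 4) (nat_lit 47378) (nat_lit 13) nil nil)) (node (nat_lit 4) (nat_lit 47378)
  (nat_lit 12) (node (nat_lit 6) (nat_lit 47378) (nat_lit 13) nil nil) nil)) (node (nat_lit 9)
  (nat_lit 51355) (nat_lit 11) nil (node (nat_lit 0) (nat_lit 49723) (nat_lit 11) nil nil))) (node
  (nat_lit 9) (nat_lit 54565) (nat_lit 10) nil (node (nat_lit 0) (nat_lit 54565) (nat_lit 10) nil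
  nil)))) (node (nat_lit 9) (nat_lit 56315) (nat_lit 9) (node (nat_lit 5) (nat_lit 56315) (nat_lit
  10) (node (nat_lit 9) (nat_lit 57271) (nat_lit 11) (node (nat_lit 4) (nat_lit 57271) (nat_lit
  12) (node (nat_lit 5) (nat_lit 57271) (nat_lit 13) nil nil) nil) (node (nat_lit 6) (nat_lit
  56315) (nat_lit 11) nil (node (nat_lit 0) (nat_lit 56928) (nat_lit 11) nil nil))) (node (nat_lit
  4) (nat_lit 56315) (nat_lit 10) nil nil)) (node (nat_lit 5) (nat_lit 47171) (nat_lit 9) (node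
  (nat_lit 6) (nat_lit 47171) (nat_lit 10) (node (nat_lit 4) (nat_lit 47171) (nat_lit 11) (node
  (nat_lit 5) (nat_lit 47171) (nat_lit 12) nil (node (nat_lit 6) (nat_lit 47171) (nat_lit 12) nil
  nil)) (node (nat_lit 5) (nat_lit 47171) (nat_lit 11) (node (nat_lit 4) (nat_lit 47171) (nat_lit
  12) nil nil) nil)) (node (nat_lit 9) (nat_lit 55830) (nat_lit 10) (node (nat_lit 4) (nat_lit
  55830) (nat_lit 11) (node (nat_lit 5) (nat_lit 55830) (nat_lit 12) nil (node (nat_lit 9)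
  (nat_lit 56308) (nat_lit 12) nil nil)) nil) (node (nat_lit 0) (nat_lit 49248) (nat_lit 10) nil
  nil))) (node (nat_lit 0) (nat_lit 53856) (nat_lit 9) (node (nat_lit 5) (nat_lit 53856) (nat_lit
  10) nil nil) nil)))) (node (nat_lit 6) (nat_lit 47162) (nat_lit 8) (node (nat_lit 4) (nat_lit
  47403) (nat_lit 9) (node (nat_lit 5) (nat_lit 47514) (nat_lit 10) (node (nat_lit 4) (nat_lit
  47652) (nat_lit 11) (node (nat_lit 6) (nat_lit 47652) (nat_lit 12) (node (nat_lit 5) (nat_lit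
  47752) (nat_lit 13) (node (nat_lit 6) (nat_lit 48477) (nat_lit 14) nil (node (nat_lit 4)
  (nat_lit 49397) (nat_lit 14) nil nil)) (node (nat_lit 4) (nat_lit 47652) (nat_lit 13) nil nil))
  nil) (node (nat_lit 6) (nat_lit 47514) (nat_lit 11) (node (nat_lit 5) (nat_lit 47514) (nat_lit
  12) (node (nat_lit 4) (nat_lit 47514) (nat_lit 13) (node (nat_lit 5) (nat_lit 50292) (nat_lit
  14) (node (nat_lit 6) (nat_lit 51169) (nat_lit 15) (node (nat_lit 4) (nat_lit 52133) (nat_lit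
  16) nil nil) nil) (node (nat_lit 6) (nat_lit 48240) (nat_lit 14) nil nil)) nil) nil) (node
  (nat_lit 0) (nat_lit 49859) (nat_lit 11) nil nil))) (node (nat_lit 6) (nat_lit 47462) (nat_lit
  10) (node (nat_lit 5) (nat_lit 47477) (nat_lit 11) (node (nat_lit 4) (nat_lit 47477) (nat_lit
  12) (node (nat_lit 5) (nat_lit 47477) (nat_lit 13) (node (nat_lit 6) (nat_lit 50488) (nat_lit
  14) (node (nat_lit 4) (nat_lit 52121) (nat_lit 15) (node (nat_lit 5) (nat_lit 53819) (nat_lit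
  16) (node (nat_lit 9) (nat_lit 24333) (nat_lit 17) nil nil) nil) nil) nil) (node (nat_lit 6)
  (nat_lit 47477) (nat_lit 13) nil nil)) (node (nat_lit 6) (nat_lit 47477) (nat_lit 12) (node
  (nat_lit 4) (nat_lit 47477) (nat_lit 13) (node (nat_lit 5) (nat_lit 48202) (nat_lit 14) nil nil)
  nil) nil)) (node (nat_lit 9) (nat_lit 53335) (nat_lit 11) nil (node (nat_lit 0) (nat_lit 49807)
  (nat_lit 11) nil nil))) (node (nat_lit 9) (nat_lit 54590) (nat_lit 10) nil (node (nat_lit 0)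
  (nat_lit 54590) (nat_lit 10) nil nil)))) (node (nat_lit 5) (nat_lit 47211) (nat_lit 9) (node
  (nat_lit 4) (nat_lit 47211) (nat_lit 10) (node (nat_lit 6) (nat_lit 47211) (nat_lit 11) (node
  (nat_lit 5) (nat_lit 47211) (nat_lit 12) (node (nat_lit 6) (nat_lit 47211) (nat_lit 13) nil nil)
  (node (nat_lit 4) (nat_lit 47211) (nat_lit 12) (node (nat_lit 5) (nat_lit 47211) (nat_lit 13)
  nil nil) nil)) (node (nat_lit 5) (nat_lit 47211) (nat_lit 11) (node (nat_lit 6) (nat_lit 47211)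
  (nat_lit 12) (node (nat_lit 4) (nat_lit 47211) (nat_lit 13) nil nil) nil) (node (nat_lit 9)
  (nat_lit 51188) (nat_lit 11) nil nil))) (node (nat_lit 9) (nat_lit 55535) (nat_lit 10) (node
  (nat_lit 6) (nat_lit 55535) (nat_lit 11) nil nil) (node (nat_lit 0) (nat_lit 54398) (nat_lit 10)
  nil nil))) (node (nat_lit 9) (nat_lit 54501) (nat_lit 9) (node (nat_lit 6) (nat_lit 54501)
  (nat_lit 10) nil nil) (node (nat_lit 0) (nat_lit 54935) (nat_lit 9) (node (nat_lit 6) (nat_lit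
  54935) (nat_lit 10) nil nil) nil)))) (node (nat_lit 0) (nat_lit 54315) (nat_lit 8) (node
  (nat_lit 9) (nat_lit 55844) (nat_lit 9) (node (nat_lit 5) (nat_lit 55844) (nat_lit 10) nil nil)
  (node (nat_lit 5) (nat_lit 54315) (nat_lit 9) (node (nat_lit 9) (nat_lit 55102) (nat_lit 10) nil
  nil) (node (nat_lit 4) (nat_lit 54315) (nat_lit 9) nil (node (nat_lit 6) (nat_lit 54315)
  (nat_lit 9) nil (node (nat_lit 0) (nat_lit 55064) (nat_lit 9) nil nil))))) nil))) (node (nat_lit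
  4) (nat_lit 0) (nat_lit 7) (node (nat_lit 9) (nat_lit 54372) (nat_lit 8) (node (nat_lit 5)
  (nat_lit 54372) (nat_lit 9) (node (nat_lit 9) (nat_lit 56738) (nat_lit 10) (node (nat_lit 4)
  (nat_lit 56738) (nat_lit 11) (node (nat_lit 5) (nat_lit 56738) (nat_lit 12) (node (nat_lit 4)
  (nat_lit 56738) (nat_lit 13) (node (nat_lit 6) (nat_lit 56738) (nat_lit 14) nil nil) (node
  (nat_lit 6) (nat_lit 56738) (nat_lit 13) nil nil)) (node (nat_lit 6) (nat_lit 56738) (nat_lit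
  12) nil nil)) nil) nil) nil) (node (nat_lit 5) (nat_lit 47225) (nat_lit 8) (node (nat_lit 4)
  (nat_lit 47357) (nat_lit 9) (node (nat_lit 9) (nat_lit 54242) (nat_lit 10) (node (nat_lit 5)
  (nat_lit 54242) (nat_lit 11) (node (nat_lit 9) (nat_lit 54516) (nat_lit 12) (node (nat_lit 4)
  (nat_lit 54516) (nat_lit 13) (node (nat_lit 5) (nat_lit 54516) (nat_lit 14) (node (nat_lit 4)
  (nat_lit 54516) (nat_lit 15) (node (nat_lit 6) (nat_lit 54516) (nat_lit 16) (node (nat_lit 5)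
  (nat_lit 54516) (nat_lit 17) (node (nat_lit 4) (nat_lit 54516) (nat_lit 18) (node (nat_lit 5)
  (nat_lit 54621) (nat_lit 19) (node (nat_lit 6) (nat_lit 54437) (nat_lit 20) nil nil) nil) nil)
  nil) nil) nil) nil) nil) nil) nil) (node (nat_lit 6) (nat_lit 47357) (nat_lit 10) nil nil)) nil)
  (node (nat_lit 6) (nat_lit 46920) (nat_lit 8) (node (nat_lit 5) (nat_lit 46920) (nat_lit 9) nil
  nil) (node (nat_lit 0) (nat_lit 50152) (nat_lit 8) nil nil)))) (node (nat_lit 6) (nat_lit 46870)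
  (nat_lit 7) (node (nat_lit 5) (nat_lit 46953) (nat_lit 8) (node (nat_lit 6) (nat_lit 46953)
  (nat_lit 9) (node (nat_lit 9) (nat_lit 49030) (nat_lit 10) nil nil) nil) (node (nat_lit 9)
  (nat_lit 53378) (nat_lit 8) (node (nat_lit 5) (nat_lit 53378) (nat_lit 9) (node (nat_lit 9)
  (nat_lit 53992) (nat_lit 10) nil nil) nil) (node (nat_lit 4) (nat_lit 46870) (nat_lit 8) nil
  nil))) (node (nat_lit 0) (nat_lit 51451) (nat_lit 7) (node (nat_lit 5) (nat_lit 51451) (nat_lit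
  8) (node (nat_lit 9) (nat_lit 53973) (nat_lit 9) (node (nat_lit 5) (nat_lit 53973) (nat_lit 10)
  nil nil) (node (nat_lit 10) (nat_lit 52458) (nat_lit 9) nil nil)) (node (nat_lit 9) (nat_lit
  53577) (nat_lit 8) (node (nat_lit 5) (nat_lit 53577) (nat_lit 9) nil nil) nil)) nil)))) (node
  (nat_lit 4) (nat_lit 0) (nat_lit 6) (node (nat_lit 0) (nat_lit 0) (nat_lit 7) (node (nat_lit 5)
  (nat_lit 48467) (nat_lit 8) (node (nat_lit 4) (nat_lit 48534) (nat_lit 9) (node (nat_lit 5)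
  (nat_lit 48565) (nat_lit 10) (node (nat_lit 6) (nat_lit 48567) (nat_lit 11) (node (nat_lit 4)
  (nat_lit 48567) (nat_lit 12) (node (nat_lit 6) (nat_lit 48567) (nat_lit 13) (node (nat_lit 5)
  (nat_lit 48567) (nat_lit 14) (node (nat_lit 6) (nat_lit 49526) (nat_lit 15) nil (node (nat_lit
  4) (nat_lit 49659) (nat_lit 15) nil nil)) nil) (node (nat_lit 5) (nat_lit 48567) (nat_lit 13)
  (node (nat_lit 4) (nat_lit 48567) (nat_lit 14) (node (nat_lit 6) (nat_lit 47152) (nat_lit 15)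
  nil nil) (node (nat_lit 10) (nat_lit 50689) (nat_lit 14) nil nil)) nil)) (node (nat_lit 5)
  (nat_lit 48567) (nat_lit 12) (node (nat_lit 4) (nat_lit 48567) (nat_lit 13) (node (nat_lit 6)
  (nat_lit 48567) (nat_lit 14) (node (nat_lit 5) (nat_lit 49132) (nat_lit 15) nil (node (nat_lit
  4) (nat_lit 49132) (nat_lit 15) nil nil)) (node (nat_lit 5) (nat_lit 48567) (nat_lit 14) nil
  nil)) (node (nat_lit 10) (nat_lit 51949) (nat_lit 13) nil (node (nat_lit 0) (nat_lit 50561)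
  (nat_lit 13) nil nil))) (node (nat_lit 10) (nat_lit 54547) (nat_lit 12) nil (node (nat_lit 0)
  (nat_lit 54547) (nat_lit 12) nil nil)))) (node (nat_lit 10) (nat_lit 56845) (nat_lit 11) (node
  (nat_lit 4) (nat_lit 56845) (nat_lit 12) (node (nat_lit 5) (nat_lit 56845) (nat_lit 13) nil
  (node (nat_lit 10) (nat_lit 57220) (nat_lit 13) nil nil)) (node (nat_lit 5) (nat_lit 56845)
  (nat_lit 12) nil nil)) (node (nat_lit 0) (nat_lit 56300) (nat_lit 11) nil nil))) (node (nat_lit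
  6) (nat_lit 48612) (nat_lit 10) (node (nat_lit 5) (nat_lit 48612) (nat_lit 11) (node (nat_lit 6)
  (nat_lit 48612) (nat_lit 12) (node (nat_lit 4) (nat_lit 48612) (nat_lit 13) (node (nat_lit 6)
  (nat_lit 48612) (nat_lit 14) (node (nat_lit 5) (nat_lit 51261) (nat_lit 15) (node (nat_lit 4)
  (nat_lit 52843) (nat_lit 16) nil nil) nil) (node (nat_lit 5) (nat_lit 48612) (nat_lit 14) nil
  nil)) (node (nat_lit 10) (nat_lit 50607) (nat_lit 13) nil nil)) (node (nat_lit 4) (nat_lit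
  48612) (nat_lit 12) (node (nat_lit 5) (nat_lit 48612) (nat_lit 13) nil nil) (node (nat_lit 10)
  (nat_lit 54592) (nat_lit 12) nil (node (nat_lit 0) (nat_lit 50442) (nat_lit 12) nil nil))))
  (node (nat_lit 4) (nat_lit 48612) (nat_lit 11) (node (nat_lit 5) (nat_lit 48612) (nat_lit 12)
  (node (nat_lit 6) (nat_lit 48612) (nat_lit 13) (node (nat_lit 4) (nat_lit 48612) (nat_lit 14)
  nil (node (nat_lit 5) (nat_lit 48612) (nat_lit 14) nil nil)) (node (nat_lit 4) (nat_lit 48612)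
  (nat_lit 13) (node (nat_lit 6) (nat_lit 48612) (nat_lit 14) nil nil) nil)) (node (nat_lit 10)
  (nat_lit 54592) (nat_lit 12) nil (node (nat_lit 0) (nat_lit 51716) (nat_lit 12) nil nil))) (node
  (nat_lit 10) (nat_lit 55457) (nat_lit 11) nil (node (nat_lit 0) (nat_lit 53905) (nat_lit 11) nil
  nil)))) (node (nat_lit 0) (nat_lit 54991) (nat_lit 10) nil nil))) (node (nat_lit 10) (nat_lit
  53273) (nat_lit 9) (node (nat_lit 4) (nat_lit 53273) (nat_lit 10) (node (nat_lit 5) (nat_lit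
  53273) (nat_lit 11) nil nil) nil) (node (nat_lit 6) (nat_lit 48467) (nat_lit 9) nil nil))) (node
  (nat_lit 4) (nat_lit 48468) (nat_lit 8) (node (nat_lit 5) (nat_lit 48545) (nat_lit 9) (node
  (nat_lit 10) (nat_lit 55150) (nat_lit 10) (node (nat_lit 5) (nat_lit 55150) (nat_lit 11) (node
  (nat_lit 4) (nat_lit 55150) (nat_lit 12) (node (nat_lit 10) (nat_lit 55793) (nat_lit 13) nil
  nil) nil) nil) nil) nil) (node (nat_lit 6) (nat_lit 48463) (nat_lit 8) (node (nat_lit 4)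
  (nat_lit 48463) (nat_lit 9) nil nil) (node (nat_lit 0) (nat_lit 49421) (nat_lit 8) nil nil))))
  nil) nil)) (node (nat_lit 6) (nat_lit 0) (nat_lit 5) (node (nat_lit 0) (nat_lit 0) (nat_lit 6)
  (node (nat_lit 6) (nat_lit 0) (nat_lit 7) (node (nat_lit 4) (nat_lit 84076) (nat_lit 8) (node
  (nat_lit 5) (nat_lit 84076) (nat_lit 9) (node (nat_lit 6) (nat_lit 84076) (nat_lit 10) (node
  (nat_lit 5) (nat_lit 84076) (nat_lit 11) (node (nat_lit 4) (nat_lit 84076) (nat_lit 12) (node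
  (nat_lit 6) (nat_lit 84076) (nat_lit 13) (node (nat_lit 4) (nat_lit 88383) (nat_lit 14) (node
  (nat_lit 5) (nat_lit 91107) (nat_lit 15) (node (nat_lit 6) (nat_lit 90592) (nat_lit 16) (node
  (nat_lit 4) (nat_lit 91626) (nat_lit 17) (node (nat_lit 6) (nat_lit 91319) (nat_lit 18) nil nil)
  nil) nil) nil) (node (nat_lit 5) (nat_lit 85656) (nat_lit 14) nil nil)) (node (nat_lit 5)
  (nat_lit 84076) (nat_lit 13) (node (nat_lit 6) (nat_lit 86653) (nat_lit 14) (node (nat_lit 4)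
  (nat_lit 88740) (nat_lit 15) nil nil) nil) nil)) nil) (node (nat_lit 4) (nat_lit 84076) (nat_lit
  11) (node (nat_lit 6) (nat_lit 84076) (nat_lit 12) (node (nat_lit 5) (nat_lit 84076) (nat_lit
  13) (node (nat_lit 6) (nat_lit 85656) (nat_lit 14) nil (node (nat_lit 4) (nat_lit 84431)
  (nat_lit 14) nil nil)) (node (nat_lit 9) (nat_lit 52894) (nat_lit 13) nil nil)) nil) (node
  (nat_lit 0) (nat_lit 89187) (nat_lit 11) nil (node (nat_lit 9) (nat_lit 89187) (nat_lit 11) nil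
  nil)))) (node (nat_lit 4) (nat_lit 84076) (nat_lit 10) (node (nat_lit 6) (nat_lit 84076)
  (nat_lit 11) (node (nat_lit 5) (nat_lit 84076) (nat_lit 12) (node (nat_lit 6) (nat_lit 84076)
  (nat_lit 13) (node (nat_lit 4) (nat_lit 85656) (nat_lit 14) nil nil) (node (nat_lit 4) (nat_lit
  84076) (nat_lit 13) (node (nat_lit 5) (nat_lit 87343) (nat_lit 14) (node (nat_lit 6) (nat_lit
  89960) (nat_lit 15) nil nil) nil) nil)) (node (nat_lit 4) (nat_lit 84076) (nat_lit 12) (node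
  (nat_lit 5) (nat_lit 84076) (nat_lit 13) (node (nat_lit 6) (nat_lit 84868) (nat_lit 14) (node
  (nat_lit 4) (nat_lit 86761) (nat_lit 15) (node (nat_lit 6) (nat_lit 87043) (nat_lit 16) nil nil)
  nil) nil) nil) nil)) (node (nat_lit 9) (nat_lit 92247) (nat_lit 11) nil (node (nat_lit 0)
  (nat_lit 89187) (nat_lit 11) nil nil))) (node (nat_lit 9) (nat_lit 95857) (nat_lit 10) nil (node
  (nat_lit 0) (nat_lit 93870) (nat_lit 10) nil nil)))) (node (nat_lit 9) (nat_lit 97996) (nat_lit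
  9) (node (nat_lit 6) (nat_lit 97996) (nat_lit 10) (node (nat_lit 9) (nat_lit 99046) (nat_lit 11)
  (node (nat_lit 4) (nat_lit 99046) (nat_lit 12) (node (nat_lit 6) (nat_lit 99046) (nat_lit 13)
  nil nil) nil) (node (nat_lit 5) (nat_lit 97996) (nat_lit 11) (node (nat_lit 4) (nat_lit 97996)
  (nat_lit 12) nil (node (nat_lit 6) (nat_lit 97996) (nat_lit 12) nil nil)) (node (nat_lit 0)
  (nat_lit 99046) (nat_lit 11) nil nil))) (node (nat_lit 4) (nat_lit 97996) (nat_lit 10) nil (node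
  (nat_lit 5) (nat_lit 97996) (nat_lit 10) nil nil))) (node (nat_lit 6) (nat_lit 84076) (nat_lit
  9) (node (nat_lit 5) (nat_lit 84076) (nat_lit 10) (node (nat_lit 4) (nat_lit 84076) (nat_lit 11)
  (node (nat_lit 5) (nat_lit 84076) (nat_lit 12) nil (node (nat_lit 6) (nat_lit 84076) (nat_lit
  12) nil nil)) (node (nat_lit 6) (nat_lit 84076) (nat_lit 11) (node (nat_lit 4) (nat_lit 84076)
  (nat_lit 12) nil nil) nil)) (node (nat_lit 0) (nat_lit 88601) (nat_lit 10) nil nil)) (node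
  (nat_lit 0) (nat_lit 95559) (nat_lit 9) (node (nat_lit 6) (nat_lit 95559) (nat_lit 10) nil (node
  (nat_lit 4) (nat_lit 95559) (nat_lit 10) nil nil)) nil)))) (node (nat_lit 5) (nat_lit 84056)
  (nat_lit 8) (node (nat_lit 4) (nat_lit 84085) (nat_lit 9) (node (nat_lit 6) (nat_lit 84085)
  (nat_lit 10) (node (nat_lit 4) (nat_lit 84085) (nat_lit 11) (node (nat_lit 5) (nat_lit 84085)
  (nat_lit 12) (node (nat_lit 6) (nat_lit 84085) (nat_lit 13) (node (nat_lit 5) (nat_lit 85665)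
  (nat_lit 14) nil (node (nat_lit 4) (nat_lit 85665) (nat_lit 14) nil nil)) (node (nat_lit 4)
  (nat_lit 84085) (nat_lit 13) nil nil)) nil) (node (nat_lit 5) (nat_lit 84085) (nat_lit 11) (node
  (nat_lit 6) (nat_lit 84085) (nat_lit 12) (node (nat_lit 4) (nat_lit 84085) (nat_lit 13) (node
  (nat_lit 6) (nat_lit 83128) (nat_lit 14) nil (node (nat_lit 5) (nat_lit 85665) (nat_lit 14) nil
  nil)) nil) nil) (node (nat_lit 9) (nat_lit 89196) (nat_lit 11) nil (node (nat_lit 0) (nat_lit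
  89196) (nat_lit 11) nil nil)))) (node (nat_lit 5) (nat_lit 84085) (nat_lit 10) (node (nat_lit 6)
  (nat_lit 84085) (nat_lit 11) (node (nat_lit 4) (nat_lit 84085) (nat_lit 12) (node (nat_lit 6)
  (nat_lit 84085) (nat_lit 13) (node (nat_lit 5) (nat_lit 88038) (nat_lit 14) (node (nat_lit 4)
  (nat_lit 88191) (nat_lit 15) nil nil) (node (nat_lit 9) (nat_lit 37267) (nat_lit 14) nil nil))
  (node (nat_lit 5) (nat_lit 84085) (nat_lit 13) nil nil)) (node (nat_lit 5) (nat_lit 84085)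
  (nat_lit 12) (node (nat_lit 4) (nat_lit 84085) (nat_lit 13) (node (nat_lit 6) (nat_lit 85665)
  (nat_lit 14) nil nil) nil) nil)) (node (nat_lit 9) (nat_lit 95146) (nat_lit 11) nil (node
  (nat_lit 0) (nat_lit 89196) (nat_lit 11) nil nil))) (node (nat_lit 9) (nat_lit 95866) (nat_lit
  10) nil (node (nat_lit 0) (nat_lit 95866) (nat_lit 10) nil nil)))) (node (nat_lit 6) (nat_lit
  84056) (nat_lit 9) (node (nat_lit 4) (nat_lit 84056) (nat_lit 10) (node (nat_lit 6) (nat_lit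
  84056) (nat_lit 11) (node (nat_lit 5) (nat_lit 84056) (nat_lit 12) (node (nat_lit 4) (nat_lit
  84056) (nat_lit 13) (node (nat_lit 5) (nat_lit 88011) (nat_lit 14) (node (nat_lit 6) (nat_lit
  90976) (nat_lit 15) (node (nat_lit 4) (nat_lit 92869) (nat_lit 16) nil nil) nil) nil) nil) nil)
  (node (nat_lit 5) (nat_lit 84056) (nat_lit 11) (node (nat_lit 4) (nat_lit 84056) (nat_lit 12)
  (node (nat_lit 6) (nat_lit 84056) (nat_lit 13) nil nil) (node (nat_lit 6) (nat_lit 84056)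
  (nat_lit 12) (node (nat_lit 5) (nat_lit 84056) (nat_lit 13) nil nil) nil)) (node (nat_lit 9)
  (nat_lit 89167) (nat_lit 11) nil nil))) (node (nat_lit 9) (nat_lit 97733) (nat_lit 10) (node
  (nat_lit 5) (nat_lit 97733) (nat_lit 11) nil nil) (node (nat_lit 0) (nat_lit 93850) (nat_lit 10)
  nil nil))) (node (nat_lit 9) (nat_lit 97325) (nat_lit 9) (node (nat_lit 5) (nat_lit 97325)
  (nat_lit 10) (node (nat_lit 6) (nat_lit 97325) (nat_lit 11) nil nil) (node (nat_lit 6) (nat_lit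
  97325) (nat_lit 10) nil (node (nat_lit 4) (nat_lit 97325) (nat_lit 10) nil nil))) (node (nat_lit
  0) (nat_lit 96549) (nat_lit 9) (node (nat_lit 5) (nat_lit 96549) (nat_lit 10) nil (node (nat_lit
  6) (nat_lit 96549) (nat_lit 10) nil nil)) nil)))) (node (nat_lit 0) (nat_lit 95994) (nat_lit 8)
  (node (nat_lit 9) (nat_lit 97411) (nat_lit 9) (node (nat_lit 6) (nat_lit 97411) (nat_lit 10) nil
  nil) (node (nat_lit 6) (nat_lit 95994) (nat_lit 9) (node (nat_lit 9) (nat_lit 97688) (nat_lit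
  10) nil nil) (node (nat_lit 4) (nat_lit 95994) (nat_lit 9) nil (node (nat_lit 0) (nat_lit 97224)
  (nat_lit 9) nil (node (nat_lit 5) (nat_lit 95994) (nat_lit 9) nil nil))))) nil))) (node (nat_lit
  4) (nat_lit 0) (nat_lit 7) (node (nat_lit 9) (nat_lit 95744) (nat_lit 8) (node (nat_lit 6)
  (nat_lit 95744) (nat_lit 9) (node (nat_lit 9) (nat_lit 98632) (nat_lit 10) (node (nat_lit 4)
  (nat_lit 98632) (nat_lit 11) (node (nat_lit 6) (nat_lit 98632) (nat_lit 12) (node (nat_lit 4)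
  (nat_lit 98632) (nat_lit 13) (node (nat_lit 5) (nat_lit 98632) (nat_lit 14) (node (nat_lit 6)
  (nat_lit 98632) (nat_lit 15) nil nil) nil) (node (nat_lit 5) (nat_lit 98632) (nat_lit 13) nil
  (node (nat_lit 9) (nat_lit 99389) (nat_lit 13) nil nil))) (node (nat_lit 5) (nat_lit 98632)
  (nat_lit 12) nil nil)) nil) (node (nat_lit 4) (nat_lit 95744) (nat_lit 10) nil nil)) nil) (node
  (nat_lit 6) (nat_lit 84068) (nat_lit 8) (node (nat_lit 4) (nat_lit 84092) (nat_lit 9) (node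
  (nat_lit 9) (nat_lit 97481) (nat_lit 10) (node (nat_lit 6) (nat_lit 97481) (nat_lit 11) (node
  (nat_lit 9) (nat_lit 98078) (nat_lit 12) (node (nat_lit 4) (nat_lit 98078) (nat_lit 13) (node
  (nat_lit 6) (nat_lit 98078) (nat_lit 14) nil nil) nil) nil) nil) (node (nat_lit 5) (nat_lit
  84092) (nat_lit 10) nil nil)) nil) (node (nat_lit 5) (nat_lit 84000) (nat_lit 8) (node (nat_lit
  6) (nat_lit 84000) (nat_lit 9) nil nil) (node (nat_lit 0) (nat_lit 90048) (nat_lit 8) nil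
  nil)))) (node (nat_lit 5) (nat_lit 0) (nat_lit 7) (node (nat_lit 6) (nat_lit 84016) (nat_lit 8)
  (node (nat_lit 5) (nat_lit 84016) (nat_lit 9) (node (nat_lit 9) (nat_lit 91251) (nat_lit 10)
  (node (nat_lit 6) (nat_lit 91251) (nat_lit 11) (node (nat_lit 9) (nat_lit 92294) (nat_lit 12)
  nil nil) nil) nil) nil) (node (nat_lit 9) (nat_lit 94945) (nat_lit 8) (node (nat_lit 6) (nat_lit
  94945) (nat_lit 9) (node (nat_lit 9) (nat_lit 96658) (nat_lit 10) (node (nat_lit 5) (nat_lit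
  96658) (nat_lit 11) nil nil) nil) nil) (node (nat_lit 4) (nat_lit 84016) (nat_lit 8) nil (node
  (nat_lit 0) (nat_lit 86828) (nat_lit 8) nil nil)))) (node (nat_lit 0) (nat_lit 91773) (nat_lit
  7) (node (nat_lit 6) (nat_lit 91773) (nat_lit 8) (node (nat_lit 9) (nat_lit 95707) (nat_lit 9)
  (node (nat_lit 6) (nat_lit 95707) (nat_lit 10) (node (nat_lit 10) (nat_lit 97044) (nat_lit 11)
  nil nil) (node (nat_lit 4) (nat_lit 95707) (nat_lit 10) nil nil)) (node (nat_lit 10) (nat_lit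
  93967) (nat_lit 9) nil nil)) (node (nat_lit 9) (nat_lit 94440) (nat_lit 8) (node (nat_lit 6)
  (nat_lit 94440) (nat_lit 9) (node (nat_lit 9) (nat_lit 96153) (nat_lit 10) nil nil) nil) nil))
  nil)))) (node (nat_lit 5) (nat_lit 0) (nat_lit 6) (node (nat_lit 0) (nat_lit 80894) (nat_lit 7)
  (node (nat_lit 6) (nat_lit 80894) (nat_lit 8) (node (nat_lit 5) (nat_lit 80894) (nat_lit 9)
  (node (nat_lit 4) (nat_lit 80894) (nat_lit 10) (node (nat_lit 6) (nat_lit 80894) (nat_lit 11)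
  (node (nat_lit 4) (nat_lit 80894) (nat_lit 12) (node (nat_lit 5) (nat_lit 80894) (nat_lit 13)
  nil nil) (node (nat_lit 5) (nat_lit 80894) (nat_lit 12) (node (nat_lit 6) (nat_lit 80894)
  (nat_lit 13) nil nil) (node (nat_lit 10) (nat_lit 87271) (nat_lit 12) nil nil))) (node (nat_lit
  5) (nat_lit 80894) (nat_lit 11) (node (nat_lit 6) (nat_lit 80894) (nat_lit 12) (node (nat_lit 5)
  (nat_lit 80894) (nat_lit 13) nil (node (nat_lit 4) (nat_lit 80894) (nat_lit 13) nil nil)) (node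
  (nat_lit 10) (nat_lit 86156) (nat_lit 12) nil nil)) (node (nat_lit 10) (nat_lit 92106) (nat_lit
  11) nil (node (nat_lit 0) (nat_lit 86540) (nat_lit 11) nil nil)))) (node (nat_lit 6) (nat_lit
  80894) (nat_lit 10) (node (nat_lit 4) (nat_lit 80894) (nat_lit 11) (node (nat_lit 5) (nat_lit
  80894) (nat_lit 12) (node (nat_lit 4) (nat_lit 80894) (nat_lit 13) (node (nat_lit 6) (nat_lit
  80894) (nat_lit 14) nil nil) (node (nat_lit 6) (nat_lit 80894) (nat_lit 13) nil nil)) (node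
  (nat_lit 6) (nat_lit 80894) (nat_lit 12) (node (nat_lit 5) (nat_lit 80894) (nat_lit 13) nil nil)
  (node (nat_lit 10) (nat_lit 86156) (nat_lit 12) nil (node (nat_lit 0) (nat_lit 84882) (nat_lit
  12) nil nil)))) (node (nat_lit 10) (nat_lit 94170) (nat_lit 11) (node (nat_lit 6) (nat_lit
  94170) (nat_lit 12) nil (node (nat_lit 5) (nat_lit 94170) (nat_lit 12) nil nil)) (node (nat_lit
  0) (nat_lit 92106) (nat_lit 11) nil nil))) (node (nat_lit 0) (nat_lit 92287) (nat_lit 10) (node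
  (nat_lit 5) (nat_lit 92287) (nat_lit 11) nil (node (nat_lit 6) (nat_lit 92287) (nat_lit 11) nil
  nil)) nil))) nil) (node (nat_lit 5) (nat_lit 80894) (nat_lit 8) (node (nat_lit 6) (nat_lit
  80894) (nat_lit 9) (node (nat_lit 10) (nat_lit 85603) (nat_lit 10) (node (nat_lit 6) (nat_lit
  85603) (nat_lit 11) nil nil) nil) nil) (node (nat_lit 0) (nat_lit 82127) (nat_lit 8) nil nil)))
  nil) nil)) nil))

noncomputable def t245 : Tr :=
  (node (nat_lit 6) (nat_lit 0) (nat_lit 6) (node (nat_lit 4) (nat_lit 0) (nat_lit 7) (node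
  (nat_lit 5) (nat_lit 89070) (nat_lit 8) (node (nat_lit 6) (nat_lit 90508) (nat_lit 9) (node
  (nat_lit 5) (nat_lit 91336) (nat_lit 10) (node (nat_lit 4) (nat_lit 91336) (nat_lit 11) (node
  (nat_lit 6) (nat_lit 91336) (nat_lit 12) (node (nat_lit 4) (nat_lit 96444) (nat_lit 13) (node
  (nat_lit 5) (nat_lit 99325) (nat_lit 14) nil nil) (node (nat_lit 5) (nat_lit 89957) (nat_lit 13)
  nil nil)) (node (nat_lit 5) (nat_lit 91336) (nat_lit 12) (node (nat_lit 6) (nat_lit 93150)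
  (nat_lit 13) nil nil) nil)) (node (nat_lit 8) (nat_lit 33516) (nat_lit 11) nil nil)) (node
  (nat_lit 4) (nat_lit 91147) (nat_lit 10) (node (nat_lit 6) (nat_lit 91336) (nat_lit 11) (node
  (nat_lit 5) (nat_lit 91436) (nat_lit 12) (node (nat_lit 4) (nat_lit 96683) (nat_lit 13) (node
  (nat_lit 5) (nat_lit 97906) (nat_lit 14) (node (nat_lit 6) (nat_lit 99076) (nat_lit 15) nil nil)
  nil) (node (nat_lit 6) (nat_lit 95897) (nat_lit 13) (node (nat_lit 4) (nat_lit 98953) (nat_lit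
  14) (node (nat_lit 5) (nat_lit 97827) (nat_lit 15) nil nil) nil) nil)) nil) nil) nil)) (node
  (nat_lit 4) (nat_lit 90696) (nat_lit 9) (node (nat_lit 6) (nat_lit 91336) (nat_lit 10) (node
  (nat_lit 5) (nat_lit 91336) (nat_lit 11) (node (nat_lit 6) (nat_lit 91336) (nat_lit 12) (node
  (nat_lit 4) (nat_lit 96286) (nat_lit 13) (node (nat_lit 5) (nat_lit 97862) (nat_lit 14) (node
  (nat_lit 6) (nat_lit 98143) (nat_lit 15) (node (nat_lit 5) (nat_lit 98042) (nat_lit 16) nil nil)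
  nil) nil) nil) (node (nat_lit 4) (nat_lit 91336) (nat_lit 12) (node (nat_lit 5) (nat_lit 94767)
  (nat_lit 13) (node (nat_lit 6) (nat_lit 96961) (nat_lit 14) nil nil) nil) nil)) (node (nat_lit
  4) (nat_lit 91336) (nat_lit 11) (node (nat_lit 5) (nat_lit 91336) (nat_lit 12) (node (nat_lit 6)
  (nat_lit 92636) (nat_lit 13) nil nil) nil) nil)) (node (nat_lit 8) (nat_lit 97244) (nat_lit 10)
  nil nil)) (node (nat_lit 8) (nat_lit 94868) (nat_lit 9) nil nil))) (node (nat_lit 6) (nat_lit 0)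
  (nat_lit 8) (node (nat_lit 5) (nat_lit 90732) (nat_lit 9) (node (nat_lit 4) (nat_lit 91336)
  (nat_lit 10) (node (nat_lit 5) (nat_lit 91336) (nat_lit 11) (node (nat_lit 6) (nat_lit 91336)
  (nat_lit 12) (node (nat_lit 5) (nat_lit 93665) (nat_lit 13) (node (nat_lit 8) (nat_lit 73460)
  (nat_lit 14) (node (nat_lit 6) (nat_lit 64160) (nat_lit 15) nil nil) nil) (node (nat_lit 4)
  (nat_lit 93104) (nat_lit 13) nil nil)) nil) (node (nat_lit 6) (nat_lit 91336) (nat_lit 11) (node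
  (nat_lit 4) (nat_lit 91336) (nat_lit 12) (node (nat_lit 5) (nat_lit 96247) (nat_lit 13) (node
  (nat_lit 6) (nat_lit 96788) (nat_lit 14) nil nil) nil) nil) nil)) (node (nat_lit 6) (nat_lit
  91336) (nat_lit 10) (node (nat_lit 4) (nat_lit 91336) (nat_lit 11) (node (nat_lit 5) (nat_lit
  91436) (nat_lit 12) (node (nat_lit 6) (nat_lit 92102) (nat_lit 13) nil (node (nat_lit 4)
  (nat_lit 90057) (nat_lit 13) nil nil)) (node (nat_lit 6) (nat_lit 91336) (nat_lit 12) nil nil))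
  nil) nil)) (node (nat_lit 8) (nat_lit 99086) (nat_lit 9) nil (node (nat_lit 0) (nat_lit 95555)
  (nat_lit 9) nil nil))) (node (nat_lit 8) (nat_lit 103249) (nat_lit 8) (node (nat_lit 4) (nat_lit
  103249) (nat_lit 9) (node (nat_lit 6) (nat_lit 103249) (nat_lit 10) nil nil) (node (nat_lit 5)
  (nat_lit 103249) (nat_lit 9) nil nil)) (node (nat_lit 0) (nat_lit 97454) (nat_lit 8) nil nil))))
  (node (nat_lit 5) (nat_lit 0) (nat_lit 7) (node (nat_lit 6) (nat_lit 89997) (nat_lit 8) (node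
  (nat_lit 4) (nat_lit 91460) (nat_lit 9) (node (nat_lit 5) (nat_lit 91460) (nat_lit 10) (node
  (nat_lit 4) (nat_lit 91460) (nat_lit 11) (node (nat_lit 6) (nat_lit 91460) (nat_lit 12) (node
  (nat_lit 4) (nat_lit 97063) (nat_lit 13) (node (nat_lit 5) (nat_lit 99769) (nat_lit 14) (node
  (nat_lit 6) (nat_lit 100178) (nat_lit 15) (node (nat_lit 5) (nat_lit 101229) (nat_lit 16) nil
  nil) nil) nil) (node (nat_lit 5) (nat_lit 96909) (nat_lit 13) (node (nat_lit 4) (nat_lit 98488)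
  (nat_lit 14) nil (node (nat_lit 6) (nat_lit 93997) (nat_lit 14) nil nil)) nil)) nil) (node
  (nat_lit 6) (nat_lit 91460) (nat_lit 11) (node (nat_lit 5) (nat_lit 91460) (nat_lit 12) (node
  (nat_lit 8) (nat_lit 75075) (nat_lit 13) (node (nat_lit 6) (nat_lit 59833) (nat_lit 14) (node
  (nat_lit 5) (nat_lit 34527) (nat_lit 15) nil nil) nil) (node (nat_lit 4) (nat_lit 97621)
  (nat_lit 13) (node (nat_lit 5) (nat_lit 100022) (nat_lit 14) nil nil) nil)) nil) (node (nat_lit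
  8) (nat_lit 98594) (nat_lit 11) nil nil))) (node (nat_lit 6) (nat_lit 91460) (nat_lit 10) (node
  (nat_lit 5) (nat_lit 91460) (nat_lit 11) (node (nat_lit 4) (nat_lit 91460) (nat_lit 12) (node
  (nat_lit 5) (nat_lit 96984) (nat_lit 13) (node (nat_lit 6) (nat_lit 98789) (nat_lit 14) nil nil)
  (node (nat_lit 6) (nat_lit 95363) (nat_lit 13) nil nil)) (node (nat_lit 6) (nat_lit 91460)
  (nat_lit 12) nil nil)) nil) (node (nat_lit 8) (nat_lit 98008) (nat_lit 10) nil (node (nat_lit 0)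
  (nat_lit 98008) (nat_lit 10) nil nil)))) (node (nat_lit 8) (nat_lit 106605) (nat_lit 9) (node
  (nat_lit 5) (nat_lit 106605) (nat_lit 10) nil nil) (node (nat_lit 0) (nat_lit 101304) (nat_lit
  9) nil nil))) (node (nat_lit 4) (nat_lit 90341) (nat_lit 8) (node (nat_lit 6) (nat_lit 90910)
  (nat_lit 9) (node (nat_lit 5) (nat_lit 90890) (nat_lit 10) (node (nat_lit 6) (nat_lit 90890)
  (nat_lit 11) (node (nat_lit 4) (nat_lit 90267) (nat_lit 12) (node (nat_lit 6) (nat_lit 92666)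
  (nat_lit 13) (node (nat_lit 5) (nat_lit 91061) (nat_lit 14) (node (nat_lit 4) (nat_lit 89360)
  (nat_lit 15) (node (nat_lit 5) (nat_lit 87742) (nat_lit 16) (node (nat_lit 6) (nat_lit 85078)
  (nat_lit 17) nil nil) nil) nil) nil) (node (nat_lit 5) (nat_lit 92985) (nat_lit 13) (node
  (nat_lit 6) (nat_lit 94116) (nat_lit 14) nil nil) nil)) nil) nil) (node (nat_lit 4) (nat_lit
  90838) (nat_lit 10) (node (nat_lit 5) (nat_lit 90574) (nat_lit 11) (node (nat_lit 6) (nat_lit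
  91386) (nat_lit 12) (node (nat_lit 5) (nat_lit 95493) (nat_lit 13) (node (nat_lit 8) (nat_lit
  57389) (nat_lit 14) nil nil) nil) (node (nat_lit 4) (nat_lit 90000) (nat_lit 12) nil nil)) nil)
  nil)) (node (nat_lit 5) (nat_lit 91497) (nat_lit 9) (node (nat_lit 6) (nat_lit 91497) (nat_lit
  10) (node (nat_lit 5) (nat_lit 91497) (nat_lit 11) (node (nat_lit 4) (nat_lit 91497) (nat_lit
  12) (node (nat_lit 6) (nat_lit 93799) (nat_lit 13) nil nil) (node (nat_lit 8) (nat_lit 64725)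
  (nat_lit 12) nil nil)) (node (nat_lit 4) (nat_lit 91497) (nat_lit 11) (node (nat_lit 6) (nat_lit
  91497) (nat_lit 12) nil (node (nat_lit 5) (nat_lit 91497) (nat_lit 12) nil nil)) nil)) nil)
  (node (nat_lit 8) (nat_lit 96138) (nat_lit 9) nil nil))) (node (nat_lit 0) (nat_lit 98538)
  (nat_lit 8) nil nil))) (node (nat_lit 8) (nat_lit 0) (nat_lit 7) (node (nat_lit 5) (nat_lit
  105548) (nat_lit 8) (node (nat_lit 6) (nat_lit 105548) (nat_lit 9) (node (nat_lit 5) (nat_lit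
  105548) (nat_lit 10) (node (nat_lit 4) (nat_lit 105548) (nat_lit 11) (node (nat_lit 6) (nat_lit
  105548) (nat_lit 12) (node (nat_lit 5) (nat_lit 105548) (nat_lit 13) (node (nat_lit 6) (nat_lit
  105577) (nat_lit 14) (node (nat_lit 4) (nat_lit 107343) (nat_lit 15) nil nil) nil) (node
  (nat_lit 4) (nat_lit 105548) (nat_lit 13) (node (nat_lit 5) (nat_lit 105548) (nat_lit 14) nil
  nil) nil)) (node (nat_lit 5) (nat_lit 105548) (nat_lit 12) (node (nat_lit 6) (nat_lit 105548)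
  (nat_lit 13) (node (nat_lit 4) (nat_lit 105548) (nat_lit 14) nil nil) nil) nil)) (node (nat_lit
  8) (nat_lit 108397) (nat_lit 11) nil nil)) (node (nat_lit 4) (nat_lit 105548) (nat_lit 10) (node
  (nat_lit 5) (nat_lit 105548) (nat_lit 11) (node (nat_lit 4) (nat_lit 105548) (nat_lit 12) (node
  (nat_lit 6) (nat_lit 105548) (nat_lit 13) (node (nat_lit 4) (nat_lit 105548) (nat_lit 14) (node
  (nat_lit 5) (nat_lit 107343) (nat_lit 15) (node (nat_lit 6) (nat_lit 106239) (nat_lit 16) nil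
  nil) nil) nil) nil) (node (nat_lit 6) (nat_lit 105548) (nat_lit 12) nil nil)) (node (nat_lit 6)
  (nat_lit 105548) (nat_lit 11) (node (nat_lit 5) (nat_lit 105548) (nat_lit 12) (node (nat_lit 6)
  (nat_lit 105548) (nat_lit 13) (node (nat_lit 4) (nat_lit 105609) (nat_lit 14) (node (nat_lit 5)
  (nat_lit 106537) (nat_lit 15) nil nil) nil) nil) nil) nil)) nil)) (node (nat_lit 4) (nat_lit
  105548) (nat_lit 9) (node (nat_lit 6) (nat_lit 105548) (nat_lit 10) nil (node (nat_lit 5)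
  (nat_lit 105548) (nat_lit 10) nil nil)) (node (nat_lit 8) (nat_lit 107742) (nat_lit 9) nil
  nil))) (node (nat_lit 4) (nat_lit 105548) (nat_lit 8) (node (nat_lit 6) (nat_lit 105548)
  (nat_lit 9) (node (nat_lit 5) (nat_lit 105548) (nat_lit 10) (node (nat_lit 4) (nat_lit 105548)
  (nat_lit 11) nil (node (nat_lit 6) (nat_lit 105548) (nat_lit 11) (node (nat_lit 4) (nat_lit
  105548) (nat_lit 12) nil nil) nil)) (node (nat_lit 4) (nat_lit 105548) (nat_lit 10) (node
  (nat_lit 5) (nat_lit 105548) (nat_lit 11) (node (nat_lit 6) (nat_lit 105548) (nat_lit 12) nil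
  nil) nil) nil)) nil) (node (nat_lit 0) (nat_lit 106781) (nat_lit 8) nil nil))) (node (nat_lit 0)
  (nat_lit 100432) (nat_lit 7) nil nil)))) (node (nat_lit 4) (nat_lit 0) (nat_lit 6) (node
  (nat_lit 5) (nat_lit 0) (nat_lit 7) (node (nat_lit 4) (nat_lit 89781) (nat_lit 8) (node (nat_lit
  6) (nat_lit 90658) (nat_lit 9) (node (nat_lit 5) (nat_lit 91350) (nat_lit 10) (node (nat_lit 6)
  (nat_lit 91350) (nat_lit 11) (node (nat_lit 4) (nat_lit 91451) (nat_lit 12) (node (nat_lit 6)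
  (nat_lit 96041) (nat_lit 13) (node (nat_lit 5) (nat_lit 93852) (nat_lit 14) (node (nat_lit 4)
  (nat_lit 92150) (nat_lit 15) (node (nat_lit 5) (nat_lit 90743) (nat_lit 16) (node (nat_lit 6)
  (nat_lit 87869) (nat_lit 17) (node (nat_lit 5) (nat_lit 84734) (nat_lit 18) nil nil) nil) nil)
  nil) nil) (node (nat_lit 5) (nat_lit 97850) (nat_lit 13) (node (nat_lit 6) (nat_lit 98987)
  (nat_lit 14) (node (nat_lit 5) (nat_lit 99241) (nat_lit 15) nil nil) (node (nat_lit 4) (nat_lit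
  96774) (nat_lit 14) nil nil)) nil)) nil) (node (nat_lit 4) (nat_lit 91350) (nat_lit 11) (node
  (nat_lit 5) (nat_lit 91350) (nat_lit 12) (node (nat_lit 6) (nat_lit 94397) (nat_lit 13) nil nil)
  nil) (node (nat_lit 8) (nat_lit 102829) (nat_lit 11) nil nil))) (node (nat_lit 4) (nat_lit
  91350) (nat_lit 10) (node (nat_lit 5) (nat_lit 91350) (nat_lit 11) (node (nat_lit 6) (nat_lit
  91350) (nat_lit 12) (node (nat_lit 5) (nat_lit 92627) (nat_lit 13) nil (node (nat_lit 4)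
  (nat_lit 93374) (nat_lit 13) nil nil)) (node (nat_lit 4) (nat_lit 91350) (nat_lit 12) nil nil))
  nil) (node (nat_lit 8) (nat_lit 103300) (nat_lit 10) nil (node (nat_lit 0) (nat_lit 97206)
  (nat_lit 10) nil nil)))) (node (nat_lit 8) (nat_lit 106496) (nat_lit 9) (node (nat_lit 5)
  (nat_lit 106496) (nat_lit 10) nil nil) (node (nat_lit 0) (nat_lit 101087) (nat_lit 9) nil nil)))
  (node (nat_lit 6) (nat_lit 89526) (nat_lit 8) (node (nat_lit 4) (nat_lit 90444) (nat_lit 9)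
  (node (nat_lit 5) (nat_lit 91083) (nat_lit 10) (node (nat_lit 4) (nat_lit 91083) (nat_lit 11)
  (node (nat_lit 6) (nat_lit 91333) (nat_lit 12) (node (nat_lit 4) (nat_lit 95740) (nat_lit 13)
  (node (nat_lit 5) (nat_lit 98446) (nat_lit 14) (node (nat_lit 6) (nat_lit 98855) (nat_lit 15)
  (node (nat_lit 5) (nat_lit 99965) (nat_lit 16) nil nil) nil) nil) (node (nat_lit 5) (nat_lit
  95819) (nat_lit 13) nil nil)) nil) nil) (node (nat_lit 6) (nat_lit 91083) (nat_lit 10) (node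
  (nat_lit 5) (nat_lit 91350) (nat_lit 11) (node (nat_lit 4) (nat_lit 91350) (nat_lit 12) (node
  (nat_lit 5) (nat_lit 94297) (nat_lit 13) (node (nat_lit 6) (nat_lit 96025) (nat_lit 14) nil nil)
  nil) (node (nat_lit 6) (nat_lit 91350) (nat_lit 12) nil nil)) nil) nil)) (node (nat_lit 5)
  (nat_lit 90901) (nat_lit 9) (node (nat_lit 4) (nat_lit 91350) (nat_lit 10) (node (nat_lit 6)
  (nat_lit 91350) (nat_lit 11) (node (nat_lit 4) (nat_lit 91350) (nat_lit 12) (node (nat_lit 5)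
  (nat_lit 96390) (nat_lit 13) nil nil) (node (nat_lit 5) (nat_lit 91350) (nat_lit 12) nil nil))
  (node (nat_lit 5) (nat_lit 91350) (nat_lit 11) (node (nat_lit 6) (nat_lit 91350) (nat_lit 12)
  (node (nat_lit 4) (nat_lit 93374) (nat_lit 13) nil nil) nil) nil)) nil) (node (nat_lit 8)
  (nat_lit 95323) (nat_lit 9) nil nil))) (node (nat_lit 8) (nat_lit 107462) (nat_lit 8) (node
  (nat_lit 5) (nat_lit 107462) (nat_lit 9) (node (nat_lit 4) (nat_lit 107462) (nat_lit 10) (node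
  (nat_lit 5) (nat_lit 107462) (nat_lit 11) (node (nat_lit 6) (nat_lit 107462) (nat_lit 12) nil
  nil) nil) nil) (node (nat_lit 6) (nat_lit 107462) (nat_lit 9) nil nil)) (node (nat_lit 0)
  (nat_lit 97623) (nat_lit 8) nil nil)))) (node (nat_lit 6) (nat_lit 0) (nat_lit 7) (node (nat_lit
  5) (nat_lit 90156) (nat_lit 8) (node (nat_lit 4) (nat_lit 91350) (nat_lit 9) (node (nat_lit 5)
  (nat_lit 91350) (nat_lit 10) (node (nat_lit 6) (nat_lit 91350) (nat_lit 11) (node (nat_lit 4)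
  (nat_lit 91350) (nat_lit 12) (node (nat_lit 5) (nat_lit 93374) (nat_lit 13) nil nil) (node
  (nat_lit 5) (nat_lit 91350) (nat_lit 12) (node (nat_lit 8) (nat_lit 64771) (nat_lit 13) nil nil)
  nil)) nil) (node (nat_lit 6) (nat_lit 91350) (nat_lit 10) (node (nat_lit 4) (nat_lit 91350)
  (nat_lit 11) (node (nat_lit 5) (nat_lit 91350) (nat_lit 12) (node (nat_lit 6) (nat_lit 92894)
  (nat_lit 13) (node (nat_lit 5) (nat_lit 94848) (nat_lit 14) nil nil) (node (nat_lit 4) (nat_lit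
  94606) (nat_lit 13) nil nil)) nil) nil) nil)) (node (nat_lit 6) (nat_lit 91350) (nat_lit 9)
  (node (nat_lit 4) (nat_lit 91350) (nat_lit 10) (node (nat_lit 5) (nat_lit 91350) (nat_lit 11)
  (node (nat_lit 4) (nat_lit 91221) (nat_lit 12) (node (nat_lit 6) (nat_lit 90138) (nat_lit 13)
  (node (nat_lit 4) (nat_lit 93295) (nat_lit 14) (node (nat_lit 5) (nat_lit 95316) (nat_lit 15)
  nil nil) (node (nat_lit 5) (nat_lit 87821) (nat_lit 14) nil nil)) nil) (node (nat_lit 6)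
  (nat_lit 91350) (nat_lit 12) nil nil)) (node (nat_lit 6) (nat_lit 91350) (nat_lit 11) (node
  (nat_lit 5) (nat_lit 91350) (nat_lit 12) (node (nat_lit 4) (nat_lit 92307) (nat_lit 13) nil nil)
  nil) nil)) (node (nat_lit 8) (nat_lit 97898) (nat_lit 10) nil nil)) (node (nat_lit 8) (nat_lit
  95953) (nat_lit 9) nil nil))) (node (nat_lit 4) (nat_lit 0) (nat_lit 8) (node (nat_lit 5)
  (nat_lit 91350) (nat_lit 9) (node (nat_lit 6) (nat_lit 91350) (nat_lit 10) (node (nat_lit 5)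
  (nat_lit 91350) (nat_lit 11) (node (nat_lit 4) (nat_lit 91350) (nat_lit 12) (node (nat_lit 6)
  (nat_lit 94174) (nat_lit 13) (node (nat_lit 4) (nat_lit 97879) (nat_lit 14) (node (nat_lit 5)
  (nat_lit 99897) (nat_lit 15) nil nil) nil) (node (nat_lit 5) (nat_lit 96053) (nat_lit 13) (node
  (nat_lit 6) (nat_lit 97469) (nat_lit 14) nil nil) nil)) (node (nat_lit 8) (nat_lit 62284)
  (nat_lit 12) (node (nat_lit 4) (nat_lit 34363) (nat_lit 13) nil nil) nil)) (node (nat_lit 4)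
  (nat_lit 91350) (nat_lit 11) (node (nat_lit 6) (nat_lit 91350) (nat_lit 12) nil nil) nil)) (node
  (nat_lit 4) (nat_lit 91350) (nat_lit 10) (node (nat_lit 6) (nat_lit 91350) (nat_lit 11) (node
  (nat_lit 5) (nat_lit 91387) (nat_lit 12) (node (nat_lit 4) (nat_lit 95380) (nat_lit 13) (node
  (nat_lit 5) (nat_lit 97793) (nat_lit 14) nil nil) (node (nat_lit 6) (nat_lit 93411) (nat_lit 13)
  nil nil)) (node (nat_lit 4) (nat_lit 91350) (nat_lit 12) nil nil)) nil) nil)) (node (nat_lit 8)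
  (nat_lit 95693) (nat_lit 9) nil (node (nat_lit 0) (nat_lit 95693) (nat_lit 9) nil nil))) (node
  (nat_lit 8) (nat_lit 105075) (nat_lit 8) (node (nat_lit 6) (nat_lit 105075) (nat_lit 9) (node
  (nat_lit 4) (nat_lit 105075) (nat_lit 10) nil nil) (node (nat_lit 5) (nat_lit 105075) (nat_lit
  9) nil nil)) (node (nat_lit 0) (nat_lit 95887) (nat_lit 8) nil nil)))) (node (nat_lit 8)
  (nat_lit 0) (nat_lit 7) (node (nat_lit 5) (nat_lit 105556) (nat_lit 8) (node (nat_lit 4)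
  (nat_lit 105556) (nat_lit 9) (node (nat_lit 5) (nat_lit 105556) (nat_lit 10) (node (nat_lit 6)
  (nat_lit 105556) (nat_lit 11) (node (nat_lit 4) (nat_lit 105556) (nat_lit 12) (node (nat_lit 5)
  (nat_lit 105556) (nat_lit 13) (node (nat_lit 4) (nat_lit 105556) (nat_lit 14) (node (nat_lit 6)
  (nat_lit 104297) (nat_lit 15) (node (nat_lit 4) (nat_lit 105776) (nat_lit 16) (node (nat_lit 5)
  (nat_lit 106500) (nat_lit 17) nil nil) nil) nil) nil) (node (nat_lit 6) (nat_lit 105556)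
  (nat_lit 13) (node (nat_lit 5) (nat_lit 105556) (nat_lit 14) nil nil) nil)) (node (nat_lit 5)
  (nat_lit 105556) (nat_lit 12) (node (nat_lit 4) (nat_lit 105556) (nat_lit 13) (node (nat_lit 6)
  (nat_lit 105556) (nat_lit 14) nil nil) nil) nil)) (node (nat_lit 8) (nat_lit 108749) (nat_lit
  11) nil nil)) (node (nat_lit 6) (nat_lit 105556) (nat_lit 10) (node (nat_lit 5) (nat_lit 105556)
  (nat_lit 11) (node (nat_lit 6) (nat_lit 105556) (nat_lit 12) (node (nat_lit 4) (nat_lit 105556)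
  (nat_lit 13) nil nil) (node (nat_lit 4) (nat_lit 105556) (nat_lit 12) nil nil)) (node (nat_lit
  4) (nat_lit 105556) (nat_lit 11) (node (nat_lit 5) (nat_lit 105556) (nat_lit 12) (node (nat_lit
  4) (nat_lit 105556) (nat_lit 13) nil nil) nil) nil)) nil)) (node (nat_lit 6) (nat_lit 105556)
  (nat_lit 9) (node (nat_lit 4) (nat_lit 105556) (nat_lit 10) nil (node (nat_lit 5) (nat_lit
  105556) (nat_lit 10) nil nil)) (node (nat_lit 8) (nat_lit 107750) (nat_lit 9) nil (node (nat_lit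
  0) (nat_lit 107750) (nat_lit 9) nil nil)))) (node (nat_lit 6) (nat_lit 105556) (nat_lit 8) (node
  (nat_lit 4) (nat_lit 105556) (nat_lit 9) (node (nat_lit 5) (nat_lit 105556) (nat_lit 10) (node
  (nat_lit 6) (nat_lit 105556) (nat_lit 11) nil (node (nat_lit 4) (nat_lit 105556) (nat_lit 11)
  (node (nat_lit 6) (nat_lit 105556) (nat_lit 12) nil nil) nil)) (node (nat_lit 6) (nat_lit
  105556) (nat_lit 10) (node (nat_lit 5) (nat_lit 105556) (nat_lit 11) (node (nat_lit 4) (nat_lit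
  105556) (nat_lit 12) nil nil) nil) nil)) nil) (node (nat_lit 0) (nat_lit 106789) (nat_lit 8) nil
  nil))) (node (nat_lit 0) (nat_lit 100846) (nat_lit 7) (node (nat_lit 4) (nat_lit 100846)
  (nat_lit 8) nil nil) nil)))) (node (nat_lit 5) (nat_lit 0) (nat_lit 6) (node (nat_lit 6)
  (nat_lit 0) (nat_lit 7) (node (nat_lit 4) (nat_lit 90301) (nat_lit 8) (node (nat_lit 6) (nat_lit
  91454) (nat_lit 9) (node (nat_lit 5) (nat_lit 91454) (nat_lit 10) (node (nat_lit 4) (nat_lit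
  91454) (nat_lit 11) (node (nat_lit 5) (nat_lit 91230) (nat_lit 12) (node (nat_lit 6) (nat_lit
  93629) (nat_lit 13) (node (nat_lit 5) (nat_lit 94680) (nat_lit 14) (node (nat_lit 8) (nat_lit
  68900) (nat_lit 15) nil nil) (node (nat_lit 4) (nat_lit 95208) (nat_lit 14) nil nil)) nil) (node
  (nat_lit 6) (nat_lit 91454) (nat_lit 12) nil nil)) (node (nat_lit 6) (nat_lit 91454) (nat_lit
  11) (node (nat_lit 4) (nat_lit 91508) (nat_lit 12) (node (nat_lit 5) (nat_lit 94034) (nat_lit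
  13) (node (nat_lit 6) (nat_lit 94553) (nat_lit 14) (node (nat_lit 5) (nat_lit 94795) (nat_lit
  15) nil nil) nil) nil) nil) nil)) nil) (node (nat_lit 5) (nat_lit 91454) (nat_lit 9) (node
  (nat_lit 6) (nat_lit 91454) (nat_lit 10) (node (nat_lit 5) (nat_lit 91454) (nat_lit 11) (node
  (nat_lit 4) (nat_lit 91454) (nat_lit 12) (node (nat_lit 5) (nat_lit 94222) (nat_lit 13) (node
  (nat_lit 6) (nat_lit 95946) (nat_lit 14) nil nil) (node (nat_lit 6) (nat_lit 93477) (nat_lit 13)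
  nil nil)) (node (nat_lit 8) (nat_lit 51582) (nat_lit 12) nil nil)) nil) (node (nat_lit 4)
  (nat_lit 91454) (nat_lit 10) (node (nat_lit 6) (nat_lit 91454) (nat_lit 11) (node (nat_lit 4)
  (nat_lit 91454) (nat_lit 12) (node (nat_lit 5) (nat_lit 95393) (nat_lit 13) (node (nat_lit 6)
  (nat_lit 95917) (nat_lit 14) nil nil) nil) (node (nat_lit 5) (nat_lit 91454) (nat_lit 12) nil
  nil)) nil) nil)) (node (nat_lit 8) (nat_lit 96098) (nat_lit 9) nil nil))) (node (nat_lit 5)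
  (nat_lit 89252) (nat_lit 8) (node (nat_lit 4) (nat_lit 89243) (nat_lit 9) (node (nat_lit 6)
  (nat_lit 89882) (nat_lit 10) (node (nat_lit 5) (nat_lit 90583) (nat_lit 11) (node (nat_lit 6)
  (nat_lit 91442) (nat_lit 12) (node (nat_lit 4) (nat_lit 96116) (nat_lit 13) (node (nat_lit 5)
  (nat_lit 97366) (nat_lit 14) nil nil) nil) nil) (node (nat_lit 4) (nat_lit 90583) (nat_lit 11)
  (node (nat_lit 5) (nat_lit 90009) (nat_lit 12) (node (nat_lit 6) (nat_lit 91053) (nat_lit 13)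
  nil (node (nat_lit 4) (nat_lit 88630) (nat_lit 13) nil nil)) nil) nil)) (node (nat_lit 5)
  (nat_lit 89223) (nat_lit 10) (node (nat_lit 6) (nat_lit 88959) (nat_lit 11) (node (nat_lit 4)
  (nat_lit 88385) (nat_lit 12) nil (node (nat_lit 5) (nat_lit 88959) (nat_lit 12) nil nil)) nil)
  nil)) (node (nat_lit 0) (nat_lit 95049) (nat_lit 9) nil nil)) (node (nat_lit 8) (nat_lit 100232)
  (nat_lit 8) (node (nat_lit 6) (nat_lit 100232) (nat_lit 9) nil nil) (node (nat_lit 0) (nat_lit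
  97260) (nat_lit 8) nil nil)))) (node (nat_lit 4) (nat_lit 0) (nat_lit 7) (node (nat_lit 6)
  (nat_lit 90395) (nat_lit 8) (node (nat_lit 5) (nat_lit 91511) (nat_lit 9) (node (nat_lit 6)
  (nat_lit 91511) (nat_lit 10) (node (nat_lit 4) (nat_lit 91511) (nat_lit 11) (node (nat_lit 5)
  (nat_lit 91511) (nat_lit 12) (node (nat_lit 6) (nat_lit 92972) (nat_lit 13) (node (nat_lit 5)
  (nat_lit 93196) (nat_lit 14) nil nil) nil) (node (nat_lit 6) (nat_lit 91511) (nat_lit 12) nil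
  nil)) nil) (node (nat_lit 4) (nat_lit 91511) (nat_lit 10) (node (nat_lit 5) (nat_lit 91511)
  (nat_lit 11) (node (nat_lit 6) (nat_lit 91511) (nat_lit 12) (node (nat_lit 5) (nat_lit 95044)
  (nat_lit 13) (node (nat_lit 8) (nat_lit 71387) (nat_lit 14) nil nil) (node (nat_lit 4) (nat_lit
  93535) (nat_lit 13) nil nil)) nil) nil) nil)) (node (nat_lit 4) (nat_lit 90395) (nat_lit 9)
  (node (nat_lit 5) (nat_lit 90395) (nat_lit 10) (node (nat_lit 6) (nat_lit 90395) (nat_lit 11)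
  (node (nat_lit 5) (nat_lit 91207) (nat_lit 12) (node (nat_lit 4) (nat_lit 90495) (nat_lit 13)
  (node (nat_lit 5) (nat_lit 91719) (nat_lit 14) (node (nat_lit 6) (nat_lit 92888) (nat_lit 15)
  nil nil) nil) (node (nat_lit 8) (nat_lit 56788) (nat_lit 13) nil nil)) (node (nat_lit 4)
  (nat_lit 90395) (nat_lit 12) nil nil)) (node (nat_lit 4) (nat_lit 90395) (nat_lit 11) (node
  (nat_lit 6) (nat_lit 91207) (nat_lit 12) (node (nat_lit 5) (nat_lit 90495) (nat_lit 13) nil nil)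
  nil) nil)) nil) (node (nat_lit 8) (nat_lit 96192) (nat_lit 9) nil nil))) (node (nat_lit 5)
  (nat_lit 90116) (nat_lit 8) (node (nat_lit 6) (nat_lit 90202) (nat_lit 9) (node (nat_lit 4)
  (nat_lit 90130) (nat_lit 10) (node (nat_lit 6) (nat_lit 90130) (nat_lit 11) (node (nat_lit 5)
  (nat_lit 90942) (nat_lit 12) (node (nat_lit 4) (nat_lit 90230) (nat_lit 13) nil (node (nat_lit
  6) (nat_lit 92965) (nat_lit 13) nil nil)) nil) (node (nat_lit 5) (nat_lit 89865) (nat_lit 11)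
  (node (nat_lit 4) (nat_lit 89291) (nat_lit 12) nil nil) nil)) (node (nat_lit 5) (nat_lit 90841)
  (nat_lit 10) (node (nat_lit 4) (nat_lit 91488) (nat_lit 11) (node (nat_lit 6) (nat_lit 91488)
  (nat_lit 12) nil (node (nat_lit 5) (nat_lit 91488) (nat_lit 12) nil nil)) (node (nat_lit 8)
  (nat_lit 64468) (nat_lit 11) nil nil)) nil)) (node (nat_lit 8) (nat_lit 101422) (nat_lit 9) nil
  (node (nat_lit 0) (nat_lit 95913) (nat_lit 9) nil nil))) (node (nat_lit 8) (nat_lit 100539)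
  (nat_lit 8) (node (nat_lit 4) (nat_lit 100539) (nat_lit 9) nil nil) (node (nat_lit 0) (nat_lit
  97566) (nat_lit 8) nil nil)))) (node (nat_lit 0) (nat_lit 0) (nat_lit 7) (node (nat_lit 5)
  (nat_lit 100185) (nat_lit 8) nil (node (nat_lit 4) (nat_lit 100185) (nat_lit 8) nil (node
  (nat_lit 6) (nat_lit 100185) (nat_lit 8) nil (node (nat_lit 8) (nat_lit 101419) (nat_lit 8) nil
  (node (nat_lit 0) (nat_lit 101419) (nat_lit 8) nil nil))))) nil))) (node (nat_lit 0) (nat_lit 0)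
  (nat_lit 6) (node (nat_lit 8) (nat_lit 0) (nat_lit 7) (node (nat_lit 5) (nat_lit 103621)
  (nat_lit 8) (node (nat_lit 9) (nat_lit 105815) (nat_lit 9) nil (node (nat_lit 8) (nat_lit
  105815) (nat_lit 9) nil nil)) (node (nat_lit 6) (nat_lit 103621) (nat_lit 8) (node (nat_lit 9)
  (nat_lit 105815) (nat_lit 9) nil nil) (node (nat_lit 4) (nat_lit 103621) (nat_lit 8) (node
  (nat_lit 9) (nat_lit 105815) (nat_lit 9) nil nil) (node (nat_lit 0) (nat_lit 105960) (nat_lit 8)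
  nil nil)))) (node (nat_lit 5) (nat_lit 0) (nat_lit 7) (node (nat_lit 9) (nat_lit 104207)
  (nat_lit 8) (node (nat_lit 8) (nat_lit 105169) (nat_lit 9) nil nil) (node (nat_lit 8) (nat_lit
  101468) (nat_lit 8) nil (node (nat_lit 0) (nat_lit 100446) (nat_lit 8) nil (node (nat_lit 4)
  (nat_lit 97633) (nat_lit 8) nil (node (nat_lit 6) (nat_lit 97633) (nat_lit 8) nil nil))))) (node
  (nat_lit 4) (nat_lit 97575) (nat_lit 7) (node (nat_lit 5) (nat_lit 97575) (nat_lit 8) nil nil)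
  (node (nat_lit 6) (nat_lit 97575) (nat_lit 7) (node (nat_lit 5) (nat_lit 97575) (nat_lit 8) nil
  nil) (node (nat_lit 0) (nat_lit 101418) (nat_lit 7) nil nil))))) nil))))

noncomputable def t246 : Tr :=
  (node (nat_lit 5) (nat_lit 0) (nat_lit 5) (node (nat_lit 4) (nat_lit 0) (nat_lit 6) (node
  (nat_lit 6) (nat_lit 0) (nat_lit 7) (node (nat_lit 4) (nat_lit 101380) (nat_lit 8) (node
  (nat_lit 5) (nat_lit 101605) (nat_lit 9) (node (nat_lit 6) (nat_lit 101705) (nat_lit 10) (node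
  (nat_lit 5) (nat_lit 101516) (nat_lit 11) (node (nat_lit 4) (nat_lit 107562) (nat_lit 12) (node
  (nat_lit 5) (nat_lit 110737) (nat_lit 13) (node (nat_lit 6) (nat_lit 112133) (nat_lit 14) nil
  nil) (node (nat_lit 6) (nat_lit 103364) (nat_lit 13) nil nil)) nil) (node (nat_lit 7) (nat_lit
  77227) (nat_lit 11) (node (nat_lit 5) (nat_lit 53248) (nat_lit 12) (node (nat_lit 4) (nat_lit
  50612) (nat_lit 13) nil nil) nil) (node (nat_lit 4) (nat_lit 102093) (nat_lit 11) (node (nat_lit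
  6) (nat_lit 106700) (nat_lit 12) (node (nat_lit 5) (nat_lit 99100) (nat_lit 13) nil nil) nil)
  nil))) (node (nat_lit 4) (nat_lit 101605) (nat_lit 10) (node (nat_lit 6) (nat_lit 101605)
  (nat_lit 11) (node (nat_lit 5) (nat_lit 106601) (nat_lit 12) (node (nat_lit 6) (nat_lit 102403)
  (nat_lit 13) nil (node (nat_lit 4) (nat_lit 108625) (nat_lit 13) nil nil)) nil) nil) (node
  (nat_lit 7) (nat_lit 110746) (nat_lit 10) nil nil))) (node (nat_lit 7) (nat_lit 117549) (nat_lit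
  9) nil (node (nat_lit 0) (nat_lit 109770) (nat_lit 9) nil nil))) (node (nat_lit 5) (nat_lit
  101688) (nat_lit 8) (node (nat_lit 6) (nat_lit 101688) (nat_lit 9) (node (nat_lit 4) (nat_lit
  101688) (nat_lit 10) (node (nat_lit 5) (nat_lit 102237) (nat_lit 11) (node (nat_lit 4) (nat_lit
  104292) (nat_lit 12) (node (nat_lit 6) (nat_lit 103096) (nat_lit 13) (node (nat_lit 4) (nat_lit
  105904) (nat_lit 14) (node (nat_lit 5) (nat_lit 104016) (nat_lit 15) nil nil) nil) nil) (node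
  (nat_lit 6) (nat_lit 109930) (nat_lit 12) (node (nat_lit 7) (nat_lit 90955) (nat_lit 13) nil
  (node (nat_lit 5) (nat_lit 105732) (nat_lit 13) nil nil)) nil)) (node (nat_lit 6) (nat_lit
  101974) (nat_lit 11) (node (nat_lit 5) (nat_lit 106605) (nat_lit 12) (node (nat_lit 4) (nat_lit
  105226) (nat_lit 13) nil nil) nil) nil)) (node (nat_lit 7) (nat_lit 110829) (nat_lit 10) nil
  nil)) (node (nat_lit 4) (nat_lit 101688) (nat_lit 9) (node (nat_lit 5) (nat_lit 101688) (nat_lit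
  10) (node (nat_lit 6) (nat_lit 101688) (nat_lit 11) (node (nat_lit 4) (nat_lit 104281) (nat_lit
  12) nil (node (nat_lit 7) (nat_lit 79165) (nat_lit 12) nil (node (nat_lit 5) (nat_lit 104281)
  (nat_lit 12) nil nil))) nil) nil) (node (nat_lit 7) (nat_lit 115189) (nat_lit 9) nil (node
  (nat_lit 0) (nat_lit 110078) (nat_lit 9) nil nil)))) (node (nat_lit 7) (nat_lit 120993) (nat_lit
  8) nil (node (nat_lit 0) (nat_lit 113166) (nat_lit 8) nil nil)))) (node (nat_lit 5) (nat_lit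
  100802) (nat_lit 7) (node (nat_lit 6) (nat_lit 100815) (nat_lit 8) (node (nat_lit 4) (nat_lit
  100835) (nat_lit 9) (node (nat_lit 5) (nat_lit 100835) (nat_lit 10) (node (nat_lit 4) (nat_lit
  100675) (nat_lit 11) (node (nat_lit 6) (nat_lit 99089) (nat_lit 12) (node (nat_lit 4) (nat_lit
  103044) (nat_lit 13) (node (nat_lit 5) (nat_lit 105569) (nat_lit 14) (node (nat_lit 6) (nat_lit
  102390) (nat_lit 15) nil nil) nil) nil) nil) nil) (node (nat_lit 6) (nat_lit 100835) (nat_lit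
  10) (node (nat_lit 5) (nat_lit 100835) (nat_lit 11) nil nil) nil)) (node (nat_lit 5) (nat_lit
  100815) (nat_lit 9) (node (nat_lit 4) (nat_lit 100815) (nat_lit 10) (node (nat_lit 6) (nat_lit
  100875) (nat_lit 11) (node (nat_lit 5) (nat_lit 106049) (nat_lit 12) (node (nat_lit 6) (nat_lit
  110036) (nat_lit 13) (node (nat_lit 4) (nat_lit 111067) (nat_lit 14) (node (nat_lit 5) (nat_lit
  109179) (nat_lit 15) (node (nat_lit 6) (nat_lit 104602) (nat_lit 16) nil nil) nil) nil) nil)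
  (node (nat_lit 4) (nat_lit 107086) (nat_lit 12) (node (nat_lit 5) (nat_lit 110902) (nat_lit 13)
  nil nil) nil)) nil) nil) (node (nat_lit 7) (nat_lit 59612) (nat_lit 9) nil nil))) (node (nat_lit
  7) (nat_lit 119319) (nat_lit 8) (node (nat_lit 5) (nat_lit 119319) (nat_lit 9) nil nil) nil))
  (node (nat_lit 7) (nat_lit 120351) (nat_lit 7) (node (nat_lit 5) (nat_lit 120351) (nat_lit 8)
  nil nil) (node (nat_lit 0) (nat_lit 106513) (nat_lit 7) nil nil)))) (node (nat_lit 6) (nat_lit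
  0) (nat_lit 6) (node (nat_lit 4) (nat_lit 0) (nat_lit 7) (node (nat_lit 5) (nat_lit 100969)
  (nat_lit 8) (node (nat_lit 4) (nat_lit 100988) (nat_lit 9) (node (nat_lit 6) (nat_lit 100846)
  (nat_lit 10) (node (nat_lit 5) (nat_lit 100846) (nat_lit 11) (node (nat_lit 6) (nat_lit 107729)
  (nat_lit 12) (node (nat_lit 4) (nat_lit 112058) (nat_lit 13) nil nil) (node (nat_lit 4) (nat_lit
  106336) (nat_lit 12) (node (nat_lit 5) (nat_lit 108936) (nat_lit 13) (node (nat_lit 6) (nat_lit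
  111198) (nat_lit 14) nil nil) nil) nil)) (node (nat_lit 4) (nat_lit 101005) (nat_lit 11) (node
  (nat_lit 5) (nat_lit 105517) (nat_lit 12) (node (nat_lit 6) (nat_lit 106117) (nat_lit 13) nil
  nil) nil) nil)) nil) (node (nat_lit 6) (nat_lit 100969) (nat_lit 9) (node (nat_lit 5) (nat_lit
  100969) (nat_lit 10) (node (nat_lit 4) (nat_lit 101357) (nat_lit 11) (node (nat_lit 6) (nat_lit
  103984) (nat_lit 12) (node (nat_lit 4) (nat_lit 108470) (nat_lit 13) (node (nat_lit 5) (nat_lit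
  112007) (nat_lit 14) nil nil) nil) (node (nat_lit 5) (nat_lit 105943) (nat_lit 12) (node
  (nat_lit 6) (nat_lit 108184) (nat_lit 13) nil nil) nil)) nil) (node (nat_lit 7) (nat_lit 73225)
  (nat_lit 10) nil nil)) (node (nat_lit 7) (nat_lit 109359) (nat_lit 9) nil (node (nat_lit 0)
  (nat_lit 109359) (nat_lit 9) nil nil)))) (node (nat_lit 6) (nat_lit 100805) (nat_lit 8) (node
  (nat_lit 5) (nat_lit 100924) (nat_lit 9) (node (nat_lit 4) (nat_lit 100782) (nat_lit 10) (node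
  (nat_lit 5) (nat_lit 101171) (nat_lit 11) (node (nat_lit 6) (nat_lit 104997) (nat_lit 12) (node
  (nat_lit 5) (nat_lit 107420) (nat_lit 13) nil (node (nat_lit 4) (nat_lit 107021) (nat_lit 13)
  nil nil)) nil) (node (nat_lit 6) (nat_lit 100831) (nat_lit 11) (node (nat_lit 4) (nat_lit
  106829) (nat_lit 12) (node (nat_lit 5) (nat_lit 110957) (nat_lit 13) (node (nat_lit 6) (nat_lit
  111609) (nat_lit 14) nil nil) nil) nil) nil)) (node (nat_lit 6) (nat_lit 100924) (nat_lit 10)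
  (node (nat_lit 4) (nat_lit 100965) (nat_lit 11) (node (nat_lit 5) (nat_lit 101984) (nat_lit 12)
  (node (nat_lit 6) (nat_lit 102462) (nat_lit 13) nil nil) nil) (node (nat_lit 7) (nat_lit 110651)
  (nat_lit 11) nil nil)) (node (nat_lit 7) (nat_lit 110065) (nat_lit 10) nil nil))) (node (nat_lit
  7) (nat_lit 114305) (nat_lit 9) nil (node (nat_lit 0) (nat_lit 109195) (nat_lit 9) nil nil)))
  (node (nat_lit 7) (nat_lit 119194) (nat_lit 8) nil (node (nat_lit 0) (nat_lit 114993) (nat_lit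
  8) nil nil)))) (node (nat_lit 5) (nat_lit 101841) (nat_lit 7) (node (nat_lit 4) (nat_lit 101943)
  (nat_lit 8) (node (nat_lit 6) (nat_lit 101943) (nat_lit 9) (node (nat_lit 5) (nat_lit 101943)
  (nat_lit 10) (node (nat_lit 6) (nat_lit 102003) (nat_lit 11) (node (nat_lit 4) (nat_lit 108164)
  (nat_lit 12) (node (nat_lit 6) (nat_lit 112525) (nat_lit 13) (node (nat_lit 5) (nat_lit 112962)
  (nat_lit 14) (node (nat_lit 4) (nat_lit 111336) (nat_lit 15) (node (nat_lit 5) (nat_lit 109828)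
  (nat_lit 16) (node (nat_lit 6) (nat_lit 107974) (nat_lit 17) nil nil) nil) nil) nil) (node
  (nat_lit 5) (nat_lit 110032) (nat_lit 13) nil nil)) nil) nil) (node (nat_lit 4) (nat_lit 101943)
  (nat_lit 10) (node (nat_lit 5) (nat_lit 101943) (nat_lit 11) nil nil) nil)) (node (nat_lit 5)
  (nat_lit 101943) (nat_lit 9) (node (nat_lit 6) (nat_lit 101943) (nat_lit 10) nil nil) nil))
  (node (nat_lit 7) (nat_lit 121622) (nat_lit 8) (node (nat_lit 5) (nat_lit 121622) (nat_lit 9)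
  nil nil) nil)) (node (nat_lit 0) (nat_lit 106776) (nat_lit 7) nil nil))) (node (nat_lit 7)
  (nat_lit 122717) (nat_lit 6) (node (nat_lit 6) (nat_lit 122717) (nat_lit 7) (node (nat_lit 4)
  (nat_lit 122717) (nat_lit 8) (node (nat_lit 5) (nat_lit 122717) (nat_lit 9) nil nil) (node
  (nat_lit 5) (nat_lit 122717) (nat_lit 8) nil nil)) (node (nat_lit 4) (nat_lit 122717) (nat_lit
  7) (node (nat_lit 6) (nat_lit 122717) (nat_lit 8) (node (nat_lit 5) (nat_lit 122717) (nat_lit 9)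
  nil nil) (node (nat_lit 5) (nat_lit 122717) (nat_lit 8) nil nil)) nil)) (node (nat_lit 0)
  (nat_lit 107616) (nat_lit 6) nil nil)))) (node (nat_lit 4) (nat_lit 0) (nat_lit 5) (node
  (nat_lit 6) (nat_lit 0) (nat_lit 6) (node (nat_lit 5) (nat_lit 0) (nat_lit 7) (node (nat_lit 6)
  (nat_lit 101202) (nat_lit 8) (node (nat_lit 4) (nat_lit 101202) (nat_lit 9) (node (nat_lit 5)
  (nat_lit 101202) (nat_lit 10) (node (nat_lit 4) (nat_lit 101430) (nat_lit 11) (node (nat_lit 6)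
  (nat_lit 107931) (nat_lit 12) (node (nat_lit 4) (nat_lit 111886) (nat_lit 13) (node (nat_lit 5)
  (nat_lit 109752) (nat_lit 14) (node (nat_lit 6) (nat_lit 103469) (nat_lit 15) nil nil) nil)
  (node (nat_lit 5) (nat_lit 100331) (nat_lit 13) nil nil)) nil) (node (nat_lit 6) (nat_lit
  101590) (nat_lit 11) (node (nat_lit 5) (nat_lit 104805) (nat_lit 12) nil nil) nil)) (node
  (nat_lit 6) (nat_lit 101202) (nat_lit 10) (node (nat_lit 5) (nat_lit 101202) (nat_lit 11) (node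
  (nat_lit 4) (nat_lit 107047) (nat_lit 12) (node (nat_lit 5) (nat_lit 110763) (nat_lit 13) (node
  (nat_lit 6) (nat_lit 113460) (nat_lit 14) nil nil) (node (nat_lit 6) (nat_lit 102849) (nat_lit
  13) nil nil)) nil) (node (nat_lit 7) (nat_lit 110928) (nat_lit 11) nil nil)) (node (nat_lit 7)
  (nat_lit 110343) (nat_lit 10) nil nil))) (node (nat_lit 7) (nat_lit 109592) (nat_lit 9) nil
  (node (nat_lit 0) (nat_lit 109592) (nat_lit 9) nil nil))) (node (nat_lit 4) (nat_lit 101202)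
  (nat_lit 8) (node (nat_lit 5) (nat_lit 101202) (nat_lit 9) (node (nat_lit 6) (nat_lit 101202)
  (nat_lit 10) (node (nat_lit 4) (nat_lit 101202) (nat_lit 11) (node (nat_lit 6) (nat_lit 103543)
  (nat_lit 12) (node (nat_lit 5) (nat_lit 95942) (nat_lit 13) nil nil) (node (nat_lit 5) (nat_lit
  103662) (nat_lit 12) nil nil)) (node (nat_lit 5) (nat_lit 101202) (nat_lit 11) (node (nat_lit 4)
  (nat_lit 107445) (nat_lit 12) (node (nat_lit 6) (nat_lit 103248) (nat_lit 13) nil nil) nil)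
  (node (nat_lit 7) (nat_lit 78187) (nat_lit 11) (node (nat_lit 4) (nat_lit 60055) (nat_lit 12)
  nil nil) nil))) nil) (node (nat_lit 6) (nat_lit 101202) (nat_lit 9) (node (nat_lit 4) (nat_lit
  101202) (nat_lit 10) (node (nat_lit 5) (nat_lit 101491) (nat_lit 11) (node (nat_lit 6) (nat_lit
  107515) (nat_lit 12) nil (node (nat_lit 4) (nat_lit 99724) (nat_lit 12) nil nil)) nil) nil)
  (node (nat_lit 7) (nat_lit 109592) (nat_lit 9) nil (node (nat_lit 0) (nat_lit 109592) (nat_lit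
  9) nil nil)))) (node (nat_lit 7) (nat_lit 120685) (nat_lit 8) (node (nat_lit 4) (nat_lit 120685)
  (nat_lit 9) nil nil) (node (nat_lit 0) (nat_lit 115219) (nat_lit 8) nil nil)))) (node (nat_lit
  4) (nat_lit 101338) (nat_lit 7) (node (nat_lit 5) (nat_lit 101338) (nat_lit 8) (node (nat_lit 6)
  (nat_lit 101338) (nat_lit 9) (node (nat_lit 5) (nat_lit 101338) (nat_lit 10) (node (nat_lit 4)
  (nat_lit 101727) (nat_lit 11) (node (nat_lit 5) (nat_lit 106313) (nat_lit 12) (node (nat_lit 6)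
  (nat_lit 108553) (nat_lit 13) nil nil) nil) nil) (node (nat_lit 4) (nat_lit 101338) (nat_lit 10)
  (node (nat_lit 6) (nat_lit 101338) (nat_lit 11) (node (nat_lit 5) (nat_lit 102881) (nat_lit 12)
  nil nil) nil) (node (nat_lit 7) (nat_lit 76605) (nat_lit 10) nil nil))) (node (nat_lit 4)
  (nat_lit 101338) (nat_lit 9) (node (nat_lit 6) (nat_lit 101338) (nat_lit 10) (node (nat_lit 5)
  (nat_lit 101338) (nat_lit 11) (node (nat_lit 4) (nat_lit 105256) (nat_lit 12) (node (nat_lit 5)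
  (nat_lit 108263) (nat_lit 13) (node (nat_lit 6) (nat_lit 110525) (nat_lit 14) nil nil) nil) nil)
  nil) nil) nil)) (node (nat_lit 7) (nat_lit 120797) (nat_lit 8) (node (nat_lit 4) (nat_lit
  120797) (nat_lit 9) nil nil) nil)) (node (nat_lit 7) (nat_lit 118987) (nat_lit 7) nil (node
  (nat_lit 0) (nat_lit 106549) (nat_lit 7) nil nil)))) (node (nat_lit 5) (nat_lit 0) (nat_lit 6)
  (node (nat_lit 6) (nat_lit 0) (nat_lit 7) (node (nat_lit 5) (nat_lit 100873) (nat_lit 8) (node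
  (nat_lit 4) (nat_lit 101247) (nat_lit 9) (node (nat_lit 6) (nat_lit 101456) (nat_lit 10) (node
  (nat_lit 4) (nat_lit 102004) (nat_lit 11) (node (nat_lit 5) (nat_lit 106720) (nat_lit 12) (node
  (nat_lit 4) (nat_lit 110568) (nat_lit 13) (node (nat_lit 6) (nat_lit 104791) (nat_lit 14) nil
  nil) (node (nat_lit 6) (nat_lit 107413) (nat_lit 13) (node (nat_lit 4) (nat_lit 108992) (nat_lit
  14) nil nil) nil)) nil) (node (nat_lit 5) (nat_lit 101517) (nat_lit 11) (node (nat_lit 6)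
  (nat_lit 107730) (nat_lit 12) (node (nat_lit 4) (nat_lit 112032) (nat_lit 13) nil nil) nil)
  nil)) (node (nat_lit 5) (nat_lit 101247) (nat_lit 10) (node (nat_lit 6) (nat_lit 101635)
  (nat_lit 11) (node (nat_lit 4) (nat_lit 107594) (nat_lit 12) (node (nat_lit 5) (nat_lit 109618)
  (nat_lit 13) nil nil) (node (nat_lit 7) (nat_lit 83780) (nat_lit 12) nil nil)) nil) (node
  (nat_lit 7) (nat_lit 110388) (nat_lit 10) nil nil))) (node (nat_lit 7) (nat_lit 117042) (nat_lit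
  9) nil (node (nat_lit 0) (nat_lit 109263) (nat_lit 9) nil nil))) (node (nat_lit 4) (nat_lit
  100817) (nat_lit 8) (node (nat_lit 6) (nat_lit 100817) (nat_lit 9) (node (nat_lit 5) (nat_lit
  100817) (nat_lit 10) (node (nat_lit 4) (nat_lit 100817) (nat_lit 11) (node (nat_lit 5) (nat_lit
  108733) (nat_lit 12) (node (nat_lit 6) (nat_lit 112856) (nat_lit 13) (node (nat_lit 5) (nat_lit
  109616) (nat_lit 14) nil nil) nil) (node (nat_lit 6) (nat_lit 106646) (nat_lit 12) (node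
  (nat_lit 4) (nat_lit 110286) (nat_lit 13) (node (nat_lit 5) (nat_lit 113264) (nat_lit 14) nil
  nil) nil) nil)) (node (nat_lit 6) (nat_lit 100817) (nat_lit 11) (node (nat_lit 4) (nat_lit
  105231) (nat_lit 12) nil nil) nil)) nil) (node (nat_lit 5) (nat_lit 100817) (nat_lit 9) (node
  (nat_lit 4) (nat_lit 100817) (nat_lit 10) (node (nat_lit 6) (nat_lit 100805) (nat_lit 11) (node
  (nat_lit 5) (nat_lit 107779) (nat_lit 12) (node (nat_lit 6) (nat_lit 112289) (nat_lit 13) nil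
  nil) (node (nat_lit 4) (nat_lit 106958) (nat_lit 12) nil nil)) nil) nil) (node (nat_lit 7)
  (nat_lit 109208) (nat_lit 9) nil (node (nat_lit 0) (nat_lit 109208) (nat_lit 9) nil nil))))
  (node (nat_lit 0) (nat_lit 114896) (nat_lit 8) nil nil))) (node (nat_lit 4) (nat_lit 101539)
  (nat_lit 7) (node (nat_lit 6) (nat_lit 101539) (nat_lit 8) (node (nat_lit 5) (nat_lit 101539)
  (nat_lit 9) (node (nat_lit 6) (nat_lit 101539) (nat_lit 10) (node (nat_lit 4) (nat_lit 101539)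
  (nat_lit 11) (node (nat_lit 5) (nat_lit 104426) (nat_lit 12) (node (nat_lit 6) (nat_lit 105697)
  (nat_lit 13) nil nil) nil) nil) (node (nat_lit 4) (nat_lit 101539) (nat_lit 10) (node (nat_lit
  5) (nat_lit 101539) (nat_lit 11) (node (nat_lit 6) (nat_lit 106912) (nat_lit 12) nil nil) nil)
  nil)) (node (nat_lit 4) (nat_lit 101539) (nat_lit 9) (node (nat_lit 5) (nat_lit 101539) (nat_lit
  10) (node (nat_lit 6) (nat_lit 101539) (nat_lit 11) nil nil) nil) nil)) (node (nat_lit 7)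
  (nat_lit 121320) (nat_lit 8) (node (nat_lit 4) (nat_lit 121320) (nat_lit 9) nil nil) nil)) (node
  (nat_lit 7) (nat_lit 121085) (nat_lit 7) (node (nat_lit 4) (nat_lit 121085) (nat_lit 8) nil nil)
  (node (nat_lit 0) (nat_lit 106567) (nat_lit 7) nil nil)))) (node (nat_lit 7) (nat_lit 123002)
  (nat_lit 6) (node (nat_lit 5) (nat_lit 123002) (nat_lit 7) (node (nat_lit 6) (nat_lit 123002)
  (nat_lit 8) (node (nat_lit 4) (nat_lit 123002) (nat_lit 9) nil nil) (node (nat_lit 4) (nat_lit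
  123002) (nat_lit 8) nil nil)) (node (nat_lit 6) (nat_lit 123002) (nat_lit 7) (node (nat_lit 5)
  (nat_lit 123002) (nat_lit 8) (node (nat_lit 4) (nat_lit 123002) (nat_lit 9) nil nil) (node
  (nat_lit 4) (nat_lit 123002) (nat_lit 8) nil nil)) nil)) (node (nat_lit 0) (nat_lit 107559)
  (nat_lit 6) nil nil)))) (node (nat_lit 6) (nat_lit 0) (nat_lit 5) (node (nat_lit 5) (nat_lit 0)
  (nat_lit 6) (node (nat_lit 4) (nat_lit 0) (nat_lit 7) (node (nat_lit 5) (nat_lit 101579)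
  (nat_lit 8) (node (nat_lit 6) (nat_lit 101579) (nat_lit 9) (node (nat_lit 4) (nat_lit 101579)
  (nat_lit 10) (node (nat_lit 6) (nat_lit 101951) (nat_lit 11) (node (nat_lit 5) (nat_lit 112178)
  (nat_lit 12) (node (nat_lit 6) (nat_lit 114807) (nat_lit 13) (node (nat_lit 4) (nat_lit 115147)
  (nat_lit 14) (node (nat_lit 5) (nat_lit 113026) (nat_lit 15) nil nil) nil) (node (nat_lit 4)
  (nat_lit 111780) (nat_lit 13) nil nil)) nil) (node (nat_lit 5) (nat_lit 101738) (nat_lit 11)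
  (node (nat_lit 4) (nat_lit 104898) (nat_lit 12) nil nil) nil)) (node (nat_lit 5) (nat_lit
  101579) (nat_lit 10) (node (nat_lit 4) (nat_lit 101579) (nat_lit 11) (node (nat_lit 6) (nat_lit
  103096) (nat_lit 12) nil nil) nil) (node (nat_lit 7) (nat_lit 60548) (nat_lit 10) (node (nat_lit
  6) (nat_lit 60548) (nat_lit 11) nil nil) nil))) (node (nat_lit 7) (nat_lit 115079) (nat_lit 9)
  nil (node (nat_lit 0) (nat_lit 109969) (nat_lit 9) nil nil))) (node (nat_lit 6) (nat_lit 101739)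
  (nat_lit 8) (node (nat_lit 4) (nat_lit 101739) (nat_lit 9) (node (nat_lit 5) (nat_lit 101739)
  (nat_lit 10) (node (nat_lit 6) (nat_lit 102127) (nat_lit 11) (node (nat_lit 5) (nat_lit 105341)
  (nat_lit 12) (node (nat_lit 4) (nat_lit 105320) (nat_lit 13) (node (nat_lit 5) (nat_lit 107846)
  (nat_lit 14) (node (nat_lit 6) (nat_lit 105091) (nat_lit 15) nil nil) nil) nil) (node (nat_lit
  4) (nat_lit 104719) (nat_lit 12) nil (node (nat_lit 7) (nat_lit 79019) (nat_lit 12) nil nil)))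
  (node (nat_lit 4) (nat_lit 102127) (nat_lit 11) (node (nat_lit 6) (nat_lit 106445) (nat_lit 12)
  (node (nat_lit 5) (nat_lit 98845) (nat_lit 13) nil nil) nil) nil)) nil) (node (nat_lit 5)
  (nat_lit 101739) (nat_lit 9) (node (nat_lit 6) (nat_lit 101739) (nat_lit 10) (node (nat_lit 4)
  (nat_lit 101674) (nat_lit 11) (node (nat_lit 5) (nat_lit 104826) (nat_lit 12) nil (node (nat_lit
  6) (nat_lit 100102) (nat_lit 12) nil nil)) nil) nil) (node (nat_lit 7) (nat_lit 110129) (nat_lit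
  9) nil (node (nat_lit 0) (nat_lit 110129) (nat_lit 9) nil nil)))) (node (nat_lit 7) (nat_lit
  115895) (nat_lit 8) nil (node (nat_lit 0) (nat_lit 113532) (nat_lit 8) nil nil)))) (node
  (nat_lit 6) (nat_lit 101429) (nat_lit 7) (node (nat_lit 4) (nat_lit 101429) (nat_lit 8) (node
  (nat_lit 5) (nat_lit 101429) (nat_lit 9) (node (nat_lit 6) (nat_lit 101429) (nat_lit 10) (node
  (nat_lit 5) (nat_lit 101239) (nat_lit 11) (node (nat_lit 4) (nat_lit 101346) (nat_lit 12) (node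
  (nat_lit 5) (nat_lit 104521) (nat_lit 13) (node (nat_lit 6) (nat_lit 105918) (nat_lit 14) nil
  nil) nil) nil) (node (nat_lit 7) (nat_lit 86864) (nat_lit 11) (node (nat_lit 6) (nat_lit 71622)
  (nat_lit 12) (node (nat_lit 5) (nat_lit 50528) (nat_lit 13) nil nil) nil) nil)) (node (nat_lit
  4) (nat_lit 101429) (nat_lit 10) (node (nat_lit 6) (nat_lit 101588) (nat_lit 11) (node (nat_lit
  5) (nat_lit 101408) (nat_lit 12) (node (nat_lit 4) (nat_lit 104128) (nat_lit 13) (node (nat_lit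
  5) (nat_lit 106164) (nat_lit 14) (node (nat_lit 6) (nat_lit 102721) (nat_lit 15) nil nil) nil)
  nil) (node (nat_lit 4) (nat_lit 106915) (nat_lit 12) (node (nat_lit 5) (nat_lit 110311) (nat_lit
  13) (node (nat_lit 6) (nat_lit 110785) (nat_lit 14) nil nil) nil) nil)) nil) nil)) (node
  (nat_lit 6) (nat_lit 101429) (nat_lit 9) (node (nat_lit 5) (nat_lit 101429) (nat_lit 10) (node
  (nat_lit 4) (nat_lit 101429) (nat_lit 11) (node (nat_lit 6) (nat_lit 106293) (nat_lit 12) (node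
  (nat_lit 4) (nat_lit 109933) (nat_lit 13) (node (nat_lit 5) (nat_lit 111215) (nat_lit 14) (node
  (nat_lit 6) (nat_lit 105093) (nat_lit 15) nil nil) nil) nil) (node (nat_lit 5) (nat_lit 107152)
  (nat_lit 12) (node (nat_lit 6) (nat_lit 110399) (nat_lit 13) nil nil) nil)) nil) nil) (node
  (nat_lit 7) (nat_lit 109819) (nat_lit 9) nil nil))) (node (nat_lit 7) (nat_lit 115744) (nat_lit
  8) nil nil)) (node (nat_lit 7) (nat_lit 117032) (nat_lit 7) (node (nat_lit 6) (nat_lit 117032)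
  (nat_lit 8) nil nil) (node (nat_lit 0) (nat_lit 106728) (nat_lit 7) nil nil)))) (node (nat_lit
  4) (nat_lit 0) (nat_lit 6) (node (nat_lit 5) (nat_lit 0) (nat_lit 7) (node (nat_lit 6) (nat_lit
  101928) (nat_lit 8) (node (nat_lit 5) (nat_lit 102011) (nat_lit 9) (node (nat_lit 4) (nat_lit
  102011) (nat_lit 10) (node (nat_lit 6) (nat_lit 101881) (nat_lit 11) (node (nat_lit 4) (nat_lit
  108913) (nat_lit 12) (node (nat_lit 5) (nat_lit 112579) (nat_lit 13) nil nil) (node (nat_lit 5)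
  (nat_lit 107056) (nat_lit 12) (node (nat_lit 6) (nat_lit 111043) (nat_lit 13) nil nil) nil))
  (node (nat_lit 5) (nat_lit 102399) (nat_lit 11) (node (nat_lit 6) (nat_lit 105785) (nat_lit 12)
  (node (nat_lit 4) (nat_lit 107809) (nat_lit 13) nil nil) nil) nil)) nil) (node (nat_lit 4)
  (nat_lit 101928) (nat_lit 9) (node (nat_lit 6) (nat_lit 101928) (nat_lit 10) (node (nat_lit 5)
  (nat_lit 101928) (nat_lit 11) (node (nat_lit 4) (nat_lit 101925) (nat_lit 12) (node (nat_lit 5)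
  (nat_lit 105489) (nat_lit 13) (node (nat_lit 6) (nat_lit 108186) (nat_lit 14) nil nil) nil)
  (node (nat_lit 6) (nat_lit 104521) (nat_lit 12) nil nil)) nil) nil) (node (nat_lit 7) (nat_lit
  50291) (nat_lit 9) nil (node (nat_lit 0) (nat_lit 110318) (nat_lit 9) nil nil)))) (node (nat_lit
  4) (nat_lit 102543) (nat_lit 8) (node (nat_lit 6) (nat_lit 102533) (nat_lit 9) (node (nat_lit 5)
  (nat_lit 102328) (nat_lit 10) (node (nat_lit 6) (nat_lit 102092) (nat_lit 11) (node (nat_lit 4)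
  (nat_lit 107439) (nat_lit 12) (node (nat_lit 5) (nat_lit 109033) (nat_lit 13) (node (nat_lit 6)
  (nat_lit 109380) (nat_lit 14) nil nil) (node (nat_lit 6) (nat_lit 105373) (nat_lit 13) nil nil))
  nil) (node (nat_lit 4) (nat_lit 102328) (nat_lit 11) (node (nat_lit 5) (nat_lit 108937) (nat_lit
  12) (node (nat_lit 6) (nat_lit 112346) (nat_lit 13) nil nil) nil) nil)) (node (nat_lit 4)
  (nat_lit 102533) (nat_lit 10) (node (nat_lit 5) (nat_lit 102922) (nat_lit 11) (node (nat_lit 6)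
  (nat_lit 108982) (nat_lit 12) (node (nat_lit 4) (nat_lit 111005) (nat_lit 13) nil (node (nat_lit
  5) (nat_lit 104784) (nat_lit 13) nil nil)) nil) nil) (node (nat_lit 7) (nat_lit 111675) (nat_lit
  10) nil nil))) (node (nat_lit 7) (nat_lit 118711) (nat_lit 9) nil (node (nat_lit 0) (nat_lit
  110933) (nat_lit 9) nil nil))) (node (nat_lit 7) (nat_lit 116261) (nat_lit 8) nil (node (nat_lit
  0) (nat_lit 116261) (nat_lit 8) nil nil)))) (node (nat_lit 6) (nat_lit 101803) (nat_lit 7) (node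
  (nat_lit 5) (nat_lit 101803) (nat_lit 8) (node (nat_lit 4) (nat_lit 101803) (nat_lit 9) (node
  (nat_lit 6) (nat_lit 101803) (nat_lit 10) (node (nat_lit 4) (nat_lit 101803) (nat_lit 11) (node
  (nat_lit 5) (nat_lit 107512) (nat_lit 12) (node (nat_lit 6) (nat_lit 108201) (nat_lit 13) nil
  nil) nil) nil) (node (nat_lit 5) (nat_lit 101803) (nat_lit 10) (node (nat_lit 6) (nat_lit
  101803) (nat_lit 11) nil nil) nil)) (node (nat_lit 6) (nat_lit 101803) (nat_lit 9) (node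
  (nat_lit 4) (nat_lit 101803) (nat_lit 10) (node (nat_lit 5) (nat_lit 101803) (nat_lit 11) nil
  nil) nil) (node (nat_lit 7) (nat_lit 110194) (nat_lit 9) nil nil))) (node (nat_lit 7) (nat_lit
  116119) (nat_lit 8) nil nil)) (node (nat_lit 7) (nat_lit 119218) (nat_lit 7) (node (nat_lit 6)
  (nat_lit 119218) (nat_lit 8) nil nil) (node (nat_lit 0) (nat_lit 106780) (nat_lit 7) nil nil))))
  (node (nat_lit 0) (nat_lit 103235) (nat_lit 6) nil nil))) (node (nat_lit 0) (nat_lit 0) (nat_lit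
  5) (node (nat_lit 4) (nat_lit 113675) (nat_lit 6) (node (nat_lit 6) (nat_lit 113675) (nat_lit 7)
  nil (node (nat_lit 5) (nat_lit 113675) (nat_lit 7) nil nil)) (node (nat_lit 5) (nat_lit 113675)
  (nat_lit 6) (node (nat_lit 4) (nat_lit 113675) (nat_lit 7) nil (node (nat_lit 6) (nat_lit
  113675) (nat_lit 7) nil nil)) (node (nat_lit 0) (nat_lit 116932) (nat_lit 6) nil (node (nat_lit
  7) (nat_lit 115699) (nat_lit 6) nil (node (nat_lit 6) (nat_lit 113675) (nat_lit 6) nil nil)))))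
  nil))))

noncomputable def t247 : Tr :=
  (node (nat_lit 4) (nat_lit 0) (nat_lit 4) (node (nat_lit 0) (nat_lit 0) (nat_lit 5) (node
  (nat_lit 5) (nat_lit 0) (nat_lit 6) (node (nat_lit 6) (nat_lit 0) (nat_lit 7) (node (nat_lit 4)
  (nat_lit 79141) (nat_lit 8) (node (nat_lit 5) (nat_lit 79355) (nat_lit 9) (node (nat_lit 6)
  (nat_lit 79355) (nat_lit 10) (node (nat_lit 5) (nat_lit 79355) (nat_lit 11) (node (nat_lit 4)
  (nat_lit 79536) (nat_lit 12) (node (nat_lit 6) (nat_lit 84639) (nat_lit 13) (node (nat_lit 4)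
  (nat_lit 87825) (nat_lit 14) (node (nat_lit 5) (nat_lit 86569) (nat_lit 15) (node (nat_lit 6)
  (nat_lit 82277) (nat_lit 16) nil nil) nil) nil) (node (nat_lit 5) (nat_lit 83633) (nat_lit 13)
  (node (nat_lit 6) (nat_lit 85392) (nat_lit 14) (node (nat_lit 4) (nat_lit 87227) (nat_lit 15)
  nil nil) nil) nil)) nil) nil) (node (nat_lit 4) (nat_lit 79355) (nat_lit 10) (node (nat_lit 6)
  (nat_lit 79355) (nat_lit 11) (node (nat_lit 4) (nat_lit 79497) (nat_lit 12) (node (nat_lit 5)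
  (nat_lit 82323) (nat_lit 13) (node (nat_lit 6) (nat_lit 82326) (nat_lit 14) (node (nat_lit 4)
  (nat_lit 84032) (nat_lit 15) nil nil) nil) nil) (node (nat_lit 5) (nat_lit 79355) (nat_lit 12)
  (node (nat_lit 4) (nat_lit 82598) (nat_lit 13) (node (nat_lit 5) (nat_lit 84670) (nat_lit 14)
  nil nil) (node (nat_lit 6) (nat_lit 81379) (nat_lit 13) nil nil)) nil)) nil) nil)) (node
  (nat_lit 6) (nat_lit 79133) (nat_lit 9) (node (nat_lit 5) (nat_lit 79133) (nat_lit 10) (node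
  (nat_lit 4) (nat_lit 79133) (nat_lit 11) (node (nat_lit 5) (nat_lit 79339) (nat_lit 12) (node
  (nat_lit 6) (nat_lit 84509) (nat_lit 13) (node (nat_lit 4) (nat_lit 87218) (nat_lit 14) (node
  (nat_lit 8) (nat_lit 61935) (nat_lit 15) nil nil) (node (nat_lit 5) (nat_lit 86981) (nat_lit 14)
  nil nil)) nil) (node (nat_lit 6) (nat_lit 79210) (nat_lit 12) (node (nat_lit 4) (nat_lit 82791)
  (nat_lit 13) (node (nat_lit 5) (nat_lit 85710) (nat_lit 14) (node (nat_lit 6) (nat_lit 85949)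
  (nat_lit 15) (node (nat_lit 4) (nat_lit 87859) (nat_lit 16) nil nil) nil) nil) nil) nil)) (node
  (nat_lit 6) (nat_lit 79133) (nat_lit 11) (node (nat_lit 4) (nat_lit 79133) (nat_lit 12) nil nil)
  nil)) (node (nat_lit 8) (nat_lit 85681) (nat_lit 10) nil nil)) nil)) (node (nat_lit 5) (nat_lit
  0) (nat_lit 8) (node (nat_lit 4) (nat_lit 79672) (nat_lit 9) (node (nat_lit 6) (nat_lit 79672)
  (nat_lit 10) (node (nat_lit 4) (nat_lit 79672) (nat_lit 11) (node (nat_lit 5) (nat_lit 79706)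
  (nat_lit 12) (node (nat_lit 4) (nat_lit 80807) (nat_lit 13) nil (node (nat_lit 6) (nat_lit
  85825) (nat_lit 13) (node (nat_lit 4) (nat_lit 89024) (nat_lit 14) nil (node (nat_lit 5)
  (nat_lit 83045) (nat_lit 14) nil nil)) nil)) nil) (node (nat_lit 5) (nat_lit 79672) (nat_lit 11)
  (node (nat_lit 6) (nat_lit 79672) (nat_lit 12) (node (nat_lit 4) (nat_lit 81695) (nat_lit 13)
  nil nil) nil) (node (nat_lit 8) (nat_lit 86805) (nat_lit 11) nil nil))) (node (nat_lit 5)
  (nat_lit 79672) (nat_lit 10) (node (nat_lit 6) (nat_lit 79672) (nat_lit 11) (node (nat_lit 4)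
  (nat_lit 79672) (nat_lit 12) (node (nat_lit 5) (nat_lit 82342) (nat_lit 13) nil (node (nat_lit
  6) (nat_lit 78445) (nat_lit 13) nil nil)) (node (nat_lit 5) (nat_lit 79672) (nat_lit 12) nil
  nil)) nil) (node (nat_lit 8) (nat_lit 86220) (nat_lit 10) nil nil))) (node (nat_lit 8) (nat_lit
  85362) (nat_lit 9) nil (node (nat_lit 0) (nat_lit 85362) (nat_lit 9) nil nil))) (node (nat_lit
  8) (nat_lit 94921) (nat_lit 8) (node (nat_lit 6) (nat_lit 94921) (nat_lit 9) (node (nat_lit 5)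
  (nat_lit 94921) (nat_lit 10) nil nil) (node (nat_lit 4) (nat_lit 94921) (nat_lit 9) nil nil))
  (node (nat_lit 0) (nat_lit 87143) (nat_lit 8) nil nil)))) (node (nat_lit 4) (nat_lit 0) (nat_lit
  7) (node (nat_lit 5) (nat_lit 79209) (nat_lit 8) (node (nat_lit 6) (nat_lit 79223) (nat_lit 9)
  (node (nat_lit 4) (nat_lit 79399) (nat_lit 10) (node (nat_lit 6) (nat_lit 79399) (nat_lit 11)
  (node (nat_lit 5) (nat_lit 79184) (nat_lit 12) (node (nat_lit 6) (nat_lit 83744) (nat_lit 13)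
  (node (nat_lit 4) (nat_lit 85323) (nat_lit 14) nil nil) (node (nat_lit 4) (nat_lit 83967)
  (nat_lit 13) (node (nat_lit 5) (nat_lit 87122) (nat_lit 14) (node (nat_lit 6) (nat_lit 89629)
  (nat_lit 15) nil nil) nil) nil)) (node (nat_lit 8) (nat_lit 86990) (nat_lit 12) nil nil)) (node
  (nat_lit 5) (nat_lit 79399) (nat_lit 11) (node (nat_lit 4) (nat_lit 79417) (nat_lit 12) (node
  (nat_lit 6) (nat_lit 84276) (nat_lit 13) nil nil) nil) (node (nat_lit 8) (nat_lit 35326)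
  (nat_lit 11) nil (node (nat_lit 0) (nat_lit 86533) (nat_lit 11) nil nil)))) (node (nat_lit 5)
  (nat_lit 79339) (nat_lit 10) (node (nat_lit 4) (nat_lit 79155) (nat_lit 11) (node (nat_lit 6)
  (nat_lit 79114) (nat_lit 12) (node (nat_lit 5) (nat_lit 82743) (nat_lit 13) nil (node (nat_lit
  4) (nat_lit 84203) (nat_lit 13) (node (nat_lit 5) (nat_lit 87576) (nat_lit 14) nil nil) nil))
  (node (nat_lit 5) (nat_lit 79155) (nat_lit 12) nil nil)) (node (nat_lit 0) (nat_lit 86473)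
  (nat_lit 11) nil nil)) (node (nat_lit 8) (nat_lit 89693) (nat_lit 10) nil (node (nat_lit 0)
  (nat_lit 85771) (nat_lit 10) nil nil)))) (node (nat_lit 8) (nat_lit 95764) (nat_lit 9) (node
  (nat_lit 4) (nat_lit 95764) (nat_lit 10) (node (nat_lit 5) (nat_lit 95764) (nat_lit 11) nil nil)
  nil) (node (nat_lit 0) (nat_lit 90629) (nat_lit 9) nil nil))) (node (nat_lit 6) (nat_lit 78936)
  (nat_lit 8) (node (nat_lit 5) (nat_lit 78936) (nat_lit 9) (node (nat_lit 4) (nat_lit 78936)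
  (nat_lit 10) (node (nat_lit 5) (nat_lit 78936) (nat_lit 11) (node (nat_lit 6) (nat_lit 78936)
  (nat_lit 12) (node (nat_lit 4) (nat_lit 80959) (nat_lit 13) nil (node (nat_lit 5) (nat_lit
  80959) (nat_lit 13) nil nil)) nil) nil) (node (nat_lit 6) (nat_lit 78936) (nat_lit 10) (node
  (nat_lit 4) (nat_lit 78936) (nat_lit 11) (node (nat_lit 5) (nat_lit 78936) (nat_lit 12) nil
  (node (nat_lit 6) (nat_lit 78936) (nat_lit 12) (node (nat_lit 5) (nat_lit 80959) (nat_lit 13)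
  nil nil) nil)) nil) nil)) (node (nat_lit 4) (nat_lit 78936) (nat_lit 9) (node (nat_lit 5)
  (nat_lit 78936) (nat_lit 10) (node (nat_lit 4) (nat_lit 78936) (nat_lit 11) (node (nat_lit 6)
  (nat_lit 78848) (nat_lit 12) (node (nat_lit 5) (nat_lit 82091) (nat_lit 13) nil nil) nil) (node
  (nat_lit 6) (nat_lit 78936) (nat_lit 11) (node (nat_lit 4) (nat_lit 78936) (nat_lit 12) nil
  (node (nat_lit 5) (nat_lit 78936) (nat_lit 12) nil nil)) nil)) (node (nat_lit 8) (nat_lit 85484)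
  (nat_lit 10) nil nil)) (node (nat_lit 8) (nat_lit 84733) (nat_lit 9) nil (node (nat_lit 0)
  (nat_lit 84733) (nat_lit 9) nil nil)))) (node (nat_lit 8) (nat_lit 95112) (nat_lit 8) (node
  (nat_lit 4) (nat_lit 95112) (nat_lit 9) (node (nat_lit 5) (nat_lit 95112) (nat_lit 10) (node
  (nat_lit 4) (nat_lit 95112) (nat_lit 11) (node (nat_lit 6) (nat_lit 95112) (nat_lit 12) (node
  (nat_lit 5) (nat_lit 95112) (nat_lit 13) nil nil) nil) nil) nil) (node (nat_lit 6) (nat_lit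
  95112) (nat_lit 9) nil nil)) (node (nat_lit 0) (nat_lit 89279) (nat_lit 8) nil nil)))) (node
  (nat_lit 8) (nat_lit 0) (nat_lit 7) (node (nat_lit 4) (nat_lit 94895) (nat_lit 8) (node (nat_lit
  5) (nat_lit 94895) (nat_lit 9) (node (nat_lit 4) (nat_lit 94895) (nat_lit 10) (node (nat_lit 6)
  (nat_lit 94895) (nat_lit 11) (node (nat_lit 5) (nat_lit 94895) (nat_lit 12) (node (nat_lit 6)
  (nat_lit 94895) (nat_lit 13) (node (nat_lit 4) (nat_lit 94895) (nat_lit 14) (node (nat_lit 6)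
  (nat_lit 94148) (nat_lit 15) nil nil) nil) (node (nat_lit 4) (nat_lit 94895) (nat_lit 13) (node
  (nat_lit 5) (nat_lit 94895) (nat_lit 14) (node (nat_lit 6) (nat_lit 96129) (nat_lit 15) (node
  (nat_lit 4) (nat_lit 97090) (nat_lit 16) nil nil) nil) nil) nil)) (node (nat_lit 4) (nat_lit
  94895) (nat_lit 12) (node (nat_lit 5) (nat_lit 94895) (nat_lit 13) (node (nat_lit 6) (nat_lit
  94895) (nat_lit 14) nil nil) nil) nil)) (node (nat_lit 8) (nat_lit 98139) (nat_lit 11) nil nil))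
  (node (nat_lit 6) (nat_lit 94895) (nat_lit 10) (node (nat_lit 4) (nat_lit 94895) (nat_lit 11)
  (node (nat_lit 6) (nat_lit 94895) (nat_lit 12) (node (nat_lit 5) (nat_lit 94895) (nat_lit 13)
  (node (nat_lit 4) (nat_lit 94895) (nat_lit 14) (node (nat_lit 5) (nat_lit 96129) (nat_lit 15)
  (node (nat_lit 6) (nat_lit 97090) (nat_lit 16) nil nil) nil) nil) nil) (node (nat_lit 5)
  (nat_lit 94895) (nat_lit 12) (node (nat_lit 4) (nat_lit 94895) (nat_lit 13) nil nil) nil)) (node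
  (nat_lit 5) (nat_lit 94895) (nat_lit 11) (node (nat_lit 4) (nat_lit 94895) (nat_lit 12) (node
  (nat_lit 5) (nat_lit 94895) (nat_lit 13) (node (nat_lit 6) (nat_lit 94895) (nat_lit 14) nil nil)
  nil) nil) nil)) (node (nat_lit 0) (nat_lit 97822) (nat_lit 10) nil nil))) (node (nat_lit 6)
  (nat_lit 94895) (nat_lit 9) (node (nat_lit 5) (nat_lit 94895) (nat_lit 10) (node (nat_lit 4)
  (nat_lit 94895) (nat_lit 11) nil nil) (node (nat_lit 4) (nat_lit 94895) (nat_lit 10) nil nil))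
  (node (nat_lit 8) (nat_lit 97704) (nat_lit 9) nil (node (nat_lit 0) (nat_lit 97090) (nat_lit 9)
  nil nil)))) (node (nat_lit 6) (nat_lit 94895) (nat_lit 8) (node (nat_lit 5) (nat_lit 94895)
  (nat_lit 9) (node (nat_lit 4) (nat_lit 94895) (nat_lit 10) (node (nat_lit 6) (nat_lit 94895)
  (nat_lit 11) (node (nat_lit 4) (nat_lit 94895) (nat_lit 12) nil nil) (node (nat_lit 5) (nat_lit
  94895) (nat_lit 11) (node (nat_lit 6) (nat_lit 94895) (nat_lit 12) nil nil) nil)) (node (nat_lit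
  6) (nat_lit 94895) (nat_lit 10) (node (nat_lit 4) (nat_lit 94895) (nat_lit 11) (node (nat_lit 5)
  (nat_lit 94895) (nat_lit 12) nil nil) nil) nil)) (node (nat_lit 4) (nat_lit 94895) (nat_lit 9)
  nil nil)) (node (nat_lit 0) (nat_lit 96129) (nat_lit 8) nil nil))) (node (nat_lit 0) (nat_lit
  89773) (nat_lit 7) (node (nat_lit 8) (nat_lit 91006) (nat_lit 8) nil (node (nat_lit 5) (nat_lit
  89773) (nat_lit 8) nil (node (nat_lit 4) (nat_lit 89773) (nat_lit 8) nil nil))) nil)))) t243)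
  t244) (node (nat_lit 5) (nat_lit 0) (nat_lit 4) (node (nat_lit 0) (nat_lit 0) (nat_lit 5) t245
  (node (nat_lit 4) (nat_lit 0) (nat_lit 5) (node (nat_lit 0) (nat_lit 0) (nat_lit 6) (node
  (nat_lit 4) (nat_lit 0) (nat_lit 7) (node (nat_lit 5) (nat_lit 91319) (nat_lit 8) (node (nat_lit
  6) (nat_lit 92101) (nat_lit 9) (node (nat_lit 4) (nat_lit 92507) (nat_lit 10) (node (nat_lit 5)
  (nat_lit 92507) (nat_lit 11) (node (nat_lit 4) (nat_lit 92507) (nat_lit 12) (node (nat_lit 6)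
  (nat_lit 92507) (nat_lit 13) (node (nat_lit 4) (nat_lit 96510) (nat_lit 14) (node (nat_lit 5)
  (nat_lit 98810) (nat_lit 15) (node (nat_lit 6) (nat_lit 99409) (nat_lit 16) nil nil) nil) (node
  (nat_lit 5) (nat_lit 91431) (nat_lit 14) nil nil)) nil) nil) (node (nat_lit 6) (nat_lit 92507)
  (nat_lit 11) (node (nat_lit 5) (nat_lit 92507) (nat_lit 12) (node (nat_lit 4) (nat_lit 92507)
  (nat_lit 13) (node (nat_lit 5) (nat_lit 96502) (nat_lit 14) (node (nat_lit 6) (nat_lit 97671)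
  (nat_lit 15) nil nil) nil) (node (nat_lit 6) (nat_lit 92507) (nat_lit 13) (node (nat_lit 4)
  (nat_lit 94087) (nat_lit 14) nil nil) nil)) nil) (node (nat_lit 0) (nat_lit 97618) (nat_lit 11)
  nil (node (nat_lit 9) (nat_lit 100731) (nat_lit 11) nil nil)))) (node (nat_lit 5) (nat_lit
  92507) (nat_lit 10) (node (nat_lit 4) (nat_lit 92507) (nat_lit 11) (node (nat_lit 6) (nat_lit
  92507) (nat_lit 12) (node (nat_lit 4) (nat_lit 92507) (nat_lit 13) (node (nat_lit 5) (nat_lit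
  96690) (nat_lit 14) (node (nat_lit 6) (nat_lit 97538) (nat_lit 15) (node (nat_lit 5) (nat_lit
  99182) (nat_lit 16) nil nil) nil) nil) (node (nat_lit 5) (nat_lit 92507) (nat_lit 13) (node
  (nat_lit 6) (nat_lit 94087) (nat_lit 14) nil nil) nil)) (node (nat_lit 5) (nat_lit 92507)
  (nat_lit 12) (node (nat_lit 6) (nat_lit 92507) (nat_lit 13) (node (nat_lit 4) (nat_lit 94087)
  (nat_lit 14) nil nil) nil) nil)) (node (nat_lit 9) (nat_lit 102230) (nat_lit 11) nil (node
  (nat_lit 0) (nat_lit 97618) (nat_lit 11) nil nil))) (node (nat_lit 9) (nat_lit 102327) (nat_lit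
  10) nil (node (nat_lit 0) (nat_lit 105073) (nat_lit 10) nil nil)))) (node (nat_lit 4) (nat_lit
  92252) (nat_lit 9) (node (nat_lit 6) (nat_lit 92105) (nat_lit 10) (node (nat_lit 5) (nat_lit
  92178) (nat_lit 11) (node (nat_lit 6) (nat_lit 92178) (nat_lit 12) nil (node (nat_lit 4)
  (nat_lit 92178) (nat_lit 12) nil nil)) (node (nat_lit 4) (nat_lit 92105) (nat_lit 11) (node
  (nat_lit 5) (nat_lit 92105) (nat_lit 12) (node (nat_lit 6) (nat_lit 92105) (nat_lit 13) nil nil)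
  nil) nil)) (node (nat_lit 9) (nat_lit 107927) (nat_lit 10) (node (nat_lit 5) (nat_lit 107927)
  (nat_lit 11) (node (nat_lit 4) (nat_lit 107927) (nat_lit 12) nil (node (nat_lit 9) (nat_lit
  108969) (nat_lit 12) nil nil)) nil) (node (nat_lit 0) (nat_lit 99533) (nat_lit 10) nil nil)))
  (node (nat_lit 9) (nat_lit 107210) (nat_lit 9) (node (nat_lit 4) (nat_lit 107210) (nat_lit 10)
  (node (nat_lit 9) (nat_lit 109341) (nat_lit 11) (node (nat_lit 5) (nat_lit 109341) (nat_lit 12)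
  nil nil) (node (nat_lit 6) (nat_lit 107210) (nat_lit 11) (node (nat_lit 5) (nat_lit 107210)
  (nat_lit 12) nil (node (nat_lit 4) (nat_lit 107210) (nat_lit 12) nil nil)) (node (nat_lit 0)
  (nat_lit 108547) (nat_lit 11) nil nil))) (node (nat_lit 5) (nat_lit 107210) (nat_lit 10) nil
  nil)) (node (nat_lit 0) (nat_lit 105542) (nat_lit 9) nil nil)))) (node (nat_lit 6) (nat_lit
  91588) (nat_lit 8) (node (nat_lit 5) (nat_lit 92507) (nat_lit 9) (node (nat_lit 4) (nat_lit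
  92507) (nat_lit 10) (node (nat_lit 5) (nat_lit 92507) (nat_lit 11) (node (nat_lit 6) (nat_lit
  92507) (nat_lit 12) (node (nat_lit 4) (nat_lit 92293) (nat_lit 13) (node (nat_lit 6) (nat_lit
  91336) (nat_lit 14) nil (node (nat_lit 5) (nat_lit 93873) (nat_lit 14) nil nil)) (node (nat_lit
  5) (nat_lit 92507) (nat_lit 13) (node (nat_lit 4) (nat_lit 92253) (nat_lit 14) (node (nat_lit 9)
  (nat_lit 60059) (nat_lit 15) nil nil) nil) nil)) nil) (node (nat_lit 6) (nat_lit 92507) (nat_lit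
  11) (node (nat_lit 4) (nat_lit 92507) (nat_lit 12) (node (nat_lit 5) (nat_lit 92507) (nat_lit
  13) (node (nat_lit 6) (nat_lit 94050) (nat_lit 14) (node (nat_lit 5) (nat_lit 96211) (nat_lit
  15) nil nil) (node (nat_lit 4) (nat_lit 91431) (nat_lit 14) nil nil)) nil) nil) (node (nat_lit
  0) (nat_lit 97618) (nat_lit 11) nil (node (nat_lit 9) (nat_lit 97618) (nat_lit 11) nil nil))))
  (node (nat_lit 6) (nat_lit 92507) (nat_lit 10) (node (nat_lit 4) (nat_lit 92507) (nat_lit 11)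
  (node (nat_lit 5) (nat_lit 92507) (nat_lit 12) (node (nat_lit 4) (nat_lit 92507) (nat_lit 13)
  (node (nat_lit 6) (nat_lit 92044) (nat_lit 14) nil nil) (node (nat_lit 6) (nat_lit 92507)
  (nat_lit 13) nil nil)) (node (nat_lit 6) (nat_lit 92507) (nat_lit 12) (node (nat_lit 5) (nat_lit
  92507) (nat_lit 13) (node (nat_lit 4) (nat_lit 93564) (nat_lit 14) (node (nat_lit 5) (nat_lit
  94368) (nat_lit 15) nil nil) nil) nil) nil)) (node (nat_lit 9) (nat_lit 102362) (nat_lit 11) nil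
  (node (nat_lit 0) (nat_lit 100731) (nat_lit 11) nil nil))) (node (nat_lit 9) (nat_lit 104101)
  (nat_lit 10) nil (node (nat_lit 0) (nat_lit 105727) (nat_lit 10) nil nil)))) (node (nat_lit 4)
  (nat_lit 92507) (nat_lit 9) (node (nat_lit 5) (nat_lit 92507) (nat_lit 10) (node (nat_lit 6)
  (nat_lit 92507) (nat_lit 11) (node (nat_lit 5) (nat_lit 92507) (nat_lit 12) (node (nat_lit 4)
  (nat_lit 92507) (nat_lit 13) (node (nat_lit 9) (nat_lit 58670) (nat_lit 14) nil nil) nil) (node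
  (nat_lit 4) (nat_lit 92507) (nat_lit 12) (node (nat_lit 6) (nat_lit 92507) (nat_lit 13) nil nil)
  nil)) (node (nat_lit 4) (nat_lit 92507) (nat_lit 11) (node (nat_lit 6) (nat_lit 92507) (nat_lit
  12) (node (nat_lit 5) (nat_lit 92507) (nat_lit 13) nil nil) nil) (node (nat_lit 9) (nat_lit
  100731) (nat_lit 11) nil nil))) (node (nat_lit 9) (nat_lit 107801) (nat_lit 10) (node (nat_lit
  6) (nat_lit 107801) (nat_lit 11) nil nil) (node (nat_lit 0) (nat_lit 102884) (nat_lit 10) nil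
  nil))) (node (nat_lit 9) (nat_lit 105953) (nat_lit 9) (node (nat_lit 6) (nat_lit 105953)
  (nat_lit 10) nil (node (nat_lit 4) (nat_lit 105953) (nat_lit 10) nil (node (nat_lit 5) (nat_lit
  105953) (nat_lit 10) nil nil))) (node (nat_lit 0) (nat_lit 105686) (nat_lit 9) nil nil)))) (node
  (nat_lit 0) (nat_lit 104750) (nat_lit 8) (node (nat_lit 9) (nat_lit 106701) (nat_lit 9) (node
  (nat_lit 4) (nat_lit 106701) (nat_lit 10) nil nil) (node (nat_lit 4) (nat_lit 104750) (nat_lit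
  9) (node (nat_lit 9) (nat_lit 106463) (nat_lit 10) nil nil) (node (nat_lit 5) (nat_lit 104750)
  (nat_lit 9) nil (node (nat_lit 0) (nat_lit 106442) (nat_lit 9) nil (node (nat_lit 6) (nat_lit
  104750) (nat_lit 9) nil nil))))) nil))) (node (nat_lit 5) (nat_lit 0) (nat_lit 7) (node (nat_lit
  9) (nat_lit 104776) (nat_lit 8) (node (nat_lit 4) (nat_lit 104776) (nat_lit 9) (node (nat_lit 9)
  (nat_lit 108705) (nat_lit 10) (node (nat_lit 5) (nat_lit 108705) (nat_lit 11) (node (nat_lit 4)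
  (nat_lit 108705) (nat_lit 12) (node (nat_lit 5) (nat_lit 108705) (nat_lit 13) (node (nat_lit 6)
  (nat_lit 108705) (nat_lit 14) nil nil) (node (nat_lit 6) (nat_lit 108705) (nat_lit 13) nil nil))
  (node (nat_lit 6) (nat_lit 108705) (nat_lit 12) nil nil)) nil) (node (nat_lit 5) (nat_lit
  104776) (nat_lit 10) nil nil)) nil) (node (nat_lit 4) (nat_lit 91549) (nat_lit 8) (node (nat_lit
  5) (nat_lit 91549) (nat_lit 9) (node (nat_lit 9) (nat_lit 101774) (nat_lit 10) (node (nat_lit 4)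
  (nat_lit 101774) (nat_lit 11) (node (nat_lit 9) (nat_lit 102817) (nat_lit 12) (node (nat_lit 5)
  (nat_lit 102817) (nat_lit 13) nil nil) nil) nil) (node (nat_lit 6) (nat_lit 91549) (nat_lit 10)
  nil nil)) nil) (node (nat_lit 6) (nat_lit 89948) (nat_lit 8) (node (nat_lit 4) (nat_lit 89948)
  (nat_lit 9) nil nil) (node (nat_lit 0) (nat_lit 97028) (nat_lit 8) nil nil)))) (node (nat_lit 6)
  (nat_lit 0) (nat_lit 7) (node (nat_lit 4) (nat_lit 89979) (nat_lit 8) (node (nat_lit 6) (nat_lit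
  89979) (nat_lit 9) (node (nat_lit 9) (nat_lit 97260) (nat_lit 10) (node (nat_lit 4) (nat_lit
  97260) (nat_lit 11) nil nil) nil) nil) (node (nat_lit 9) (nat_lit 100821) (nat_lit 8) (node
  (nat_lit 4) (nat_lit 100821) (nat_lit 9) (node (nat_lit 9) (nat_lit 103577) (nat_lit 10) (node
  (nat_lit 6) (nat_lit 103577) (nat_lit 11) nil nil) nil) nil) (node (nat_lit 5) (nat_lit 89979)
  (nat_lit 8) nil (node (nat_lit 0) (nat_lit 92791) (nat_lit 8) nil nil)))) (node (nat_lit 0)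
  (nat_lit 99489) (nat_lit 7) (node (nat_lit 4) (nat_lit 99489) (nat_lit 8) (node (nat_lit 9)
  (nat_lit 103519) (nat_lit 9) (node (nat_lit 4) (nat_lit 103519) (nat_lit 10) nil nil) nil) (node
  (nat_lit 9) (nat_lit 102276) (nat_lit 8) (node (nat_lit 4) (nat_lit 102276) (nat_lit 9) nil nil)
  nil)) nil)))) (node (nat_lit 5) (nat_lit 0) (nat_lit 6) (node (nat_lit 0) (nat_lit 62477)
  (nat_lit 7) (node (nat_lit 4) (nat_lit 62477) (nat_lit 8) (node (nat_lit 5) (nat_lit 62477)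
  (nat_lit 9) (node (nat_lit 4) (nat_lit 62477) (nat_lit 10) (node (nat_lit 6) (nat_lit 62477)
  (nat_lit 11) (node (nat_lit 5) (nat_lit 62477) (nat_lit 12) (node (nat_lit 4) (nat_lit 62477)
  (nat_lit 13) (node (nat_lit 5) (nat_lit 62477) (nat_lit 14) (node (nat_lit 6) (nat_lit 63144)
  (nat_lit 15) (node (nat_lit 5) (nat_lit 63664) (nat_lit 16) (node (nat_lit 4) (nat_lit 62808)
  (nat_lit 17) nil nil) nil) nil) nil) (node (nat_lit 6) (nat_lit 62477) (nat_lit 13) (node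
  (nat_lit 4) (nat_lit 62477) (nat_lit 14) (node (nat_lit 5) (nat_lit 63724) (nat_lit 15) (node
  (nat_lit 6) (nat_lit 65138) (nat_lit 16) nil nil) (node (nat_lit 6) (nat_lit 63144) (nat_lit 15)
  nil nil)) nil) nil)) (node (nat_lit 4) (nat_lit 62477) (nat_lit 12) (node (nat_lit 5) (nat_lit
  62477) (nat_lit 13) (node (nat_lit 6) (nat_lit 62477) (nat_lit 14) nil nil) nil) (node (nat_lit
  10) (nat_lit 67065) (nat_lit 12) nil (node (nat_lit 0) (nat_lit 64635) (nat_lit 12) nil nil))))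
  (node (nat_lit 10) (nat_lit 71356) (nat_lit 11) (node (nat_lit 5) (nat_lit 71356) (nat_lit 12)
  nil (node (nat_lit 4) (nat_lit 71356) (nat_lit 12) nil nil)) (node (nat_lit 0) (nat_lit 70691)
  (nat_lit 11) nil nil))) (node (nat_lit 6) (nat_lit 62477) (nat_lit 10) (node (nat_lit 4)
  (nat_lit 62477) (nat_lit 11) (node (nat_lit 6) (nat_lit 62477) (nat_lit 12) (node (nat_lit 5)
  (nat_lit 62477) (nat_lit 13) (node (nat_lit 6) (nat_lit 62538) (nat_lit 14) (node (nat_lit 4)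
  (nat_lit 64710) (nat_lit 15) (node (nat_lit 5) (nat_lit 65403) (nat_lit 16) (node (nat_lit 6)
  (nat_lit 66508) (nat_lit 17) nil nil) nil) nil) (node (nat_lit 4) (nat_lit 62477) (nat_lit 14)
  nil nil)) nil) (node (nat_lit 5) (nat_lit 62477) (nat_lit 12) (node (nat_lit 4) (nat_lit 62477)
  (nat_lit 13) nil nil) (node (nat_lit 10) (nat_lit 67065) (nat_lit 12) nil nil))) (node (nat_lit
  5) (nat_lit 62477) (nat_lit 11) (node (nat_lit 4) (nat_lit 62477) (nat_lit 12) (node (nat_lit 6)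
  (nat_lit 62477) (nat_lit 13) (node (nat_lit 4) (nat_lit 62477) (nat_lit 14) (node (nat_lit 5)
  (nat_lit 65450) (nat_lit 15) nil nil) (node (nat_lit 5) (nat_lit 62477) (nat_lit 14) nil nil))
  (node (nat_lit 5) (nat_lit 62477) (nat_lit 13) nil nil)) (node (nat_lit 10) (nat_lit 64635)
  (nat_lit 12) nil nil)) (node (nat_lit 10) (nat_lit 69140) (nat_lit 11) nil (node (nat_lit 0)
  (nat_lit 66539) (nat_lit 11) nil nil)))) (node (nat_lit 0) (nat_lit 69328) (nat_lit 10) nil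
  nil))) (node (nat_lit 10) (nat_lit 66618) (nat_lit 9) nil nil)) (node (nat_lit 5) (nat_lit
  62477) (nat_lit 8) (node (nat_lit 4) (nat_lit 62477) (nat_lit 9) (node (nat_lit 10) (nat_lit
  68035) (nat_lit 10) (node (nat_lit 4) (nat_lit 68035) (nat_lit 11) (node (nat_lit 5) (nat_lit
  68035) (nat_lit 12) nil nil) nil) nil) nil) nil)) nil) (node (nat_lit 6) (nat_lit 0) (nat_lit 6)
  (node (nat_lit 0) (nat_lit 89626) (nat_lit 7) (node (nat_lit 4) (nat_lit 90363) (nat_lit 8)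
  (node (nat_lit 6) (nat_lit 90476) (nat_lit 9) (node (nat_lit 5) (nat_lit 90476) (nat_lit 10)
  (node (nat_lit 4) (nat_lit 90476) (nat_lit 11) (node (nat_lit 5) (nat_lit 90476) (nat_lit 12)
  (node (nat_lit 6) (nat_lit 90476) (nat_lit 13) (node (nat_lit 4) (nat_lit 90476) (nat_lit 14)
  nil nil) nil) (node (nat_lit 6) (nat_lit 90476) (nat_lit 12) (node (nat_lit 4) (nat_lit 90476)
  (nat_lit 13) (node (nat_lit 5) (nat_lit 90476) (nat_lit 14) (node (nat_lit 6) (nat_lit 91753)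
  (nat_lit 15) nil nil) nil) nil) (node (nat_lit 10) (nat_lit 96894) (nat_lit 12) nil nil))) (node
  (nat_lit 6) (nat_lit 90476) (nat_lit 11) (node (nat_lit 4) (nat_lit 90476) (nat_lit 12) (node
  (nat_lit 5) (nat_lit 90476) (nat_lit 13) nil (node (nat_lit 6) (nat_lit 90476) (nat_lit 13)
  (node (nat_lit 5) (nat_lit 90476) (nat_lit 14) nil nil) nil)) (node (nat_lit 10) (nat_lit 94465)
  (nat_lit 12) nil nil)) (node (nat_lit 10) (nat_lit 100778) (nat_lit 11) nil (node (nat_lit 0)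
  (nat_lit 97628) (nat_lit 11) nil nil)))) (node (nat_lit 4) (nat_lit 90476) (nat_lit 10) (node
  (nat_lit 5) (nat_lit 90476) (nat_lit 11) (node (nat_lit 6) (nat_lit 90476) (nat_lit 12) (node
  (nat_lit 5) (nat_lit 90476) (nat_lit 13) (node (nat_lit 4) (nat_lit 90476) (nat_lit 14) (node
  (nat_lit 5) (nat_lit 92262) (nat_lit 15) nil nil) nil) (node (nat_lit 4) (nat_lit 90476)
  (nat_lit 13) nil nil)) (node (nat_lit 4) (nat_lit 90476) (nat_lit 12) (node (nat_lit 6) (nat_lit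
  90476) (nat_lit 13) nil nil) (node (nat_lit 10) (nat_lit 96894) (nat_lit 12) nil (node (nat_lit
  0) (nat_lit 94465) (nat_lit 12) nil nil)))) (node (nat_lit 10) (nat_lit 100778) (nat_lit 11)
  (node (nat_lit 4) (nat_lit 100778) (nat_lit 12) nil nil) (node (nat_lit 0) (nat_lit 100778)
  (nat_lit 11) nil nil))) (node (nat_lit 0) (nat_lit 99932) (nat_lit 10) nil nil))) nil) (node
  (nat_lit 6) (nat_lit 89626) (nat_lit 8) (node (nat_lit 4) (nat_lit 89626) (nat_lit 9) (node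
  (nat_lit 10) (nat_lit 94365) (nat_lit 10) nil nil) nil) (node (nat_lit 5) (nat_lit 89626)
  (nat_lit 8) nil nil))) nil) nil))) nil)) (node (nat_lit 0) (nat_lit 0) (nat_lit 4) t246 nil)))

noncomputable def t248 : Tr :=
  (node (nat_lit 5) (nat_lit 0) (nat_lit 6) (node (nat_lit 7) (nat_lit 0) (nat_lit 7) (node
  (nat_lit 5) (nat_lit 66941) (nat_lit 8) (node (nat_lit 4) (nat_lit 67376) (nat_lit 9) (node
  (nat_lit 7) (nat_lit 67382) (nat_lit 10) (node (nat_lit 4) (nat_lit 67382) (nat_lit 11) (node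
  (nat_lit 5) (nat_lit 67382) (nat_lit 12) (node (nat_lit 4) (nat_lit 70589) (nat_lit 13) (node
  (nat_lit 7) (nat_lit 71028) (nat_lit 14) (node (nat_lit 8) (nat_lit 53200) (nat_lit 15) nil nil)
  nil) (node (nat_lit 7) (nat_lit 69516) (nat_lit 13) nil nil)) (node (nat_lit 8) (nat_lit 71347)
  (nat_lit 12) nil nil)) (node (nat_lit 5) (nat_lit 67382) (nat_lit 11) (node (nat_lit 7) (nat_lit
  67382) (nat_lit 12) (node (nat_lit 4) (nat_lit 71622) (nat_lit 13) (node (nat_lit 5) (nat_lit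
  73279) (nat_lit 14) nil nil) nil) nil) (node (nat_lit 8) (nat_lit 71108) (nat_lit 11) nil nil)))
  (node (nat_lit 5) (nat_lit 67382) (nat_lit 10) (node (nat_lit 7) (nat_lit 67382) (nat_lit 11)
  (node (nat_lit 4) (nat_lit 67382) (nat_lit 12) (node (nat_lit 5) (nat_lit 69079) (nat_lit 13)
  (node (nat_lit 4) (nat_lit 70422) (nat_lit 14) (node (nat_lit 7) (nat_lit 71837) (nat_lit 15)
  nil nil) nil) (node (nat_lit 7) (nat_lit 67599) (nat_lit 13) nil nil)) (node (nat_lit 5)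
  (nat_lit 67382) (nat_lit 12) nil nil)) (node (nat_lit 0) (nat_lit 71108) (nat_lit 11) nil nil))
  (node (nat_lit 0) (nat_lit 70795) (nat_lit 10) nil (node (nat_lit 8) (nat_lit 70795) (nat_lit
  10) nil nil)))) (node (nat_lit 8) (nat_lit 77882) (nat_lit 9) (node (nat_lit 7) (nat_lit 77882)
  (nat_lit 10) nil nil) (node (nat_lit 0) (nat_lit 75651) (nat_lit 9) nil nil))) (node (nat_lit 4)
  (nat_lit 66707) (nat_lit 8) (node (nat_lit 5) (nat_lit 67098) (nat_lit 9) (node (nat_lit 7)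
  (nat_lit 67098) (nat_lit 10) (node (nat_lit 5) (nat_lit 67098) (nat_lit 11) (node (nat_lit 4)
  (nat_lit 67382) (nat_lit 12) (node (nat_lit 7) (nat_lit 68097) (nat_lit 13) (node (nat_lit 4)
  (nat_lit 69555) (nat_lit 14) (node (nat_lit 5) (nat_lit 70390) (nat_lit 15) nil nil) nil) (node
  (nat_lit 5) (nat_lit 64934) (nat_lit 13) nil nil)) nil) nil) (node (nat_lit 4) (nat_lit 67098)
  (nat_lit 10) (node (nat_lit 7) (nat_lit 67098) (nat_lit 11) (node (nat_lit 5) (nat_lit 67098)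
  (nat_lit 12) nil (node (nat_lit 4) (nat_lit 66850) (nat_lit 12) (node (nat_lit 5) (nat_lit
  69254) (nat_lit 13) nil nil) (node (nat_lit 8) (nat_lit 26220) (nat_lit 12) nil nil))) nil)
  nil)) (node (nat_lit 7) (nat_lit 67098) (nat_lit 9) (node (nat_lit 5) (nat_lit 67382) (nat_lit
  10) (node (nat_lit 7) (nat_lit 67382) (nat_lit 11) (node (nat_lit 4) (nat_lit 67382) (nat_lit
  12) (node (nat_lit 5) (nat_lit 69525) (nat_lit 13) (node (nat_lit 4) (nat_lit 71835) (nat_lit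
  14) (node (nat_lit 7) (nat_lit 73364) (nat_lit 15) nil nil) nil) nil) nil) (node (nat_lit 4)
  (nat_lit 67382) (nat_lit 11) (node (nat_lit 7) (nat_lit 67382) (nat_lit 12) (node (nat_lit 4)
  (nat_lit 70117) (nat_lit 13) (node (nat_lit 5) (nat_lit 71855) (nat_lit 14) nil nil) nil) (node
  (nat_lit 5) (nat_lit 67382) (nat_lit 12) nil nil)) nil)) (node (nat_lit 8) (nat_lit 70517)
  (nat_lit 10) nil nil)) (node (nat_lit 8) (nat_lit 69735) (nat_lit 9) nil (node (nat_lit 0)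
  (nat_lit 69735) (nat_lit 9) nil nil)))) (node (nat_lit 8) (nat_lit 77882) (nat_lit 8) (node
  (nat_lit 7) (nat_lit 77882) (nat_lit 9) (node (nat_lit 5) (nat_lit 77882) (nat_lit 10) (node
  (nat_lit 7) (nat_lit 77882) (nat_lit 11) nil nil) nil) (node (nat_lit 4) (nat_lit 77882)
  (nat_lit 9) nil nil)) (node (nat_lit 0) (nat_lit 73371) (nat_lit 8) nil nil)))) (node (nat_lit
  4) (nat_lit 0) (nat_lit 7) (node (nat_lit 7) (nat_lit 66141) (nat_lit 8) (node (nat_lit 5)
  (nat_lit 66300) (nat_lit 9) (node (nat_lit 4) (nat_lit 66355) (nat_lit 10) (node (nat_lit 5)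
  (nat_lit 66355) (nat_lit 11) (node (nat_lit 7) (nat_lit 66210) (nat_lit 12) (node (nat_lit 4)
  (nat_lit 68117) (nat_lit 13) (node (nat_lit 5) (nat_lit 69010) (nat_lit 14) nil nil) (node
  (nat_lit 5) (nat_lit 66518) (nat_lit 13) nil nil)) nil) nil) (node (nat_lit 7) (nat_lit 66276)
  (nat_lit 10) (node (nat_lit 4) (nat_lit 66276) (nat_lit 11) (node (nat_lit 5) (nat_lit 66276)
  (nat_lit 12) (node (nat_lit 4) (nat_lit 70426) (nat_lit 13) (node (nat_lit 7) (nat_lit 73213)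
  (nat_lit 14) nil nil) (node (nat_lit 7) (nat_lit 67332) (nat_lit 13) nil nil)) (node (nat_lit 7)
  (nat_lit 66276) (nat_lit 12) nil nil)) nil) nil)) (node (nat_lit 4) (nat_lit 66533) (nat_lit 9)
  (node (nat_lit 5) (nat_lit 67025) (nat_lit 10) (node (nat_lit 7) (nat_lit 67025) (nat_lit 11)
  (node (nat_lit 5) (nat_lit 67382) (nat_lit 12) (node (nat_lit 4) (nat_lit 68023) (nat_lit 13)
  (node (nat_lit 7) (nat_lit 68303) (nat_lit 14) nil nil) nil) (node (nat_lit 4) (nat_lit 67025)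
  (nat_lit 12) nil nil)) (node (nat_lit 4) (nat_lit 67025) (nat_lit 11) (node (nat_lit 7) (nat_lit
  67382) (nat_lit 12) (node (nat_lit 8) (nat_lit 33346) (nat_lit 13) nil nil) nil) nil)) nil)
  nil)) (node (nat_lit 5) (nat_lit 66872) (nat_lit 8) (node (nat_lit 7) (nat_lit 67290) (nat_lit
  9) (node (nat_lit 4) (nat_lit 67382) (nat_lit 10) (node (nat_lit 7) (nat_lit 67382) (nat_lit 11)
  (node (nat_lit 5) (nat_lit 67382) (nat_lit 12) (node (nat_lit 7) (nat_lit 71498) (nat_lit 13)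
  (node (nat_lit 4) (nat_lit 72243) (nat_lit 14) (node (nat_lit 5) (nat_lit 70110) (nat_lit 15)
  (node (nat_lit 4) (nat_lit 65593) (nat_lit 16) (node (nat_lit 7) (nat_lit 60185) (nat_lit 17)
  nil nil) nil) nil) nil) (node (nat_lit 4) (nat_lit 70422) (nat_lit 13) nil nil)) nil) (node
  (nat_lit 5) (nat_lit 67382) (nat_lit 11) (node (nat_lit 4) (nat_lit 67382) (nat_lit 12) (node
  (nat_lit 7) (nat_lit 68240) (nat_lit 13) nil nil) nil) (node (nat_lit 8) (nat_lit 71108)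
  (nat_lit 11) nil nil))) (node (nat_lit 5) (nat_lit 67382) (nat_lit 10) (node (nat_lit 4)
  (nat_lit 67382) (nat_lit 11) (node (nat_lit 7) (nat_lit 67382) (nat_lit 12) (node (nat_lit 4)
  (nat_lit 70309) (nat_lit 13) (node (nat_lit 5) (nat_lit 72048) (nat_lit 14) nil nil) (node
  (nat_lit 5) (nat_lit 69671) (nat_lit 13) nil nil)) (node (nat_lit 5) (nat_lit 67382) (nat_lit
  12) nil nil)) nil) (node (nat_lit 8) (nat_lit 70709) (nat_lit 10) nil nil))) (node (nat_lit 8)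
  (nat_lit 69900) (nat_lit 9) nil nil)) (node (nat_lit 8) (nat_lit 77050) (nat_lit 8) (node
  (nat_lit 4) (nat_lit 77050) (nat_lit 9) nil (node (nat_lit 7) (nat_lit 77050) (nat_lit 9) nil
  nil)) (node (nat_lit 0) (nat_lit 71506) (nat_lit 8) nil nil)))) (node (nat_lit 8) (nat_lit 0)
  (nat_lit 7) (node (nat_lit 7) (nat_lit 77882) (nat_lit 8) (node (nat_lit 5) (nat_lit 77882)
  (nat_lit 9) (node (nat_lit 7) (nat_lit 77882) (nat_lit 10) (node (nat_lit 4) (nat_lit 77882)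
  (nat_lit 11) (node (nat_lit 5) (nat_lit 77882) (nat_lit 12) (node (nat_lit 4) (nat_lit 77882)
  (nat_lit 13) (node (nat_lit 7) (nat_lit 77882) (nat_lit 14) (node (nat_lit 4) (nat_lit 77882)
  (nat_lit 15) (node (nat_lit 5) (nat_lit 77882) (nat_lit 16) nil nil) nil) nil) nil) (node
  (nat_lit 7) (nat_lit 77882) (nat_lit 12) (node (nat_lit 5) (nat_lit 77882) (nat_lit 13) nil nil)
  nil)) nil) (node (nat_lit 4) (nat_lit 77882) (nat_lit 10) (node (nat_lit 7) (nat_lit 77882)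
  (nat_lit 11) (node (nat_lit 4) (nat_lit 77882) (nat_lit 12) (node (nat_lit 5) (nat_lit 77882)
  (nat_lit 13) nil nil) nil) (node (nat_lit 5) (nat_lit 77882) (nat_lit 11) (node (nat_lit 7)
  (nat_lit 77882) (nat_lit 12) (node (nat_lit 4) (nat_lit 77882) (nat_lit 13) (node (nat_lit 5)
  (nat_lit 77882) (nat_lit 14) (node (nat_lit 4) (nat_lit 77882) (nat_lit 15) (node (nat_lit 7)
  (nat_lit 77882) (nat_lit 16) nil nil) nil) nil) (node (nat_lit 5) (nat_lit 77882) (nat_lit 13)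
  nil nil)) nil) nil)) nil)) (node (nat_lit 4) (nat_lit 77882) (nat_lit 9) (node (nat_lit 5)
  (nat_lit 77882) (nat_lit 10) nil nil) (node (nat_lit 8) (nat_lit 77882) (nat_lit 9) nil (node
  (nat_lit 0) (nat_lit 77882) (nat_lit 9) nil nil)))) (node (nat_lit 4) (nat_lit 77882) (nat_lit
  8) (node (nat_lit 5) (nat_lit 77882) (nat_lit 9) (node (nat_lit 7) (nat_lit 77882) (nat_lit 10)
  (node (nat_lit 5) (nat_lit 77882) (nat_lit 11) (node (nat_lit 4) (nat_lit 77882) (nat_lit 12)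
  nil nil) (node (nat_lit 4) (nat_lit 77882) (nat_lit 11) nil nil)) (node (nat_lit 4) (nat_lit
  77882) (nat_lit 10) (node (nat_lit 7) (nat_lit 77882) (nat_lit 11) (node (nat_lit 5) (nat_lit
  77882) (nat_lit 12) nil nil) nil) nil)) nil) (node (nat_lit 0) (nat_lit 77882) (nat_lit 8) nil
  nil))) (node (nat_lit 0) (nat_lit 72290) (nat_lit 7) (node (nat_lit 8) (nat_lit 72933) (nat_lit
  8) nil (node (nat_lit 5) (nat_lit 72290) (nat_lit 8) nil (node (nat_lit 7) (nat_lit 72290)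
  (nat_lit 8) nil nil))) nil)))) (node (nat_lit 4) (nat_lit 0) (nat_lit 6) (node (nat_lit 5)
  (nat_lit 0) (nat_lit 7) (node (nat_lit 7) (nat_lit 66772) (nat_lit 8) (node (nat_lit 4) (nat_lit
  67382) (nat_lit 9) (node (nat_lit 5) (nat_lit 67382) (nat_lit 10) (node (nat_lit 4) (nat_lit
  67382) (nat_lit 11) (node (nat_lit 7) (nat_lit 67382) (nat_lit 12) (node (nat_lit 4) (nat_lit
  70313) (nat_lit 13) (node (nat_lit 5) (nat_lit 71999) (nat_lit 14) nil nil) (node (nat_lit 5)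
  (nat_lit 69160) (nat_lit 13) nil (node (nat_lit 8) (nat_lit 39401) (nat_lit 13) (node (nat_lit
  4) (nat_lit 26657) (nat_lit 14) nil nil) nil))) nil) nil) (node (nat_lit 7) (nat_lit 67382)
  (nat_lit 10) (node (nat_lit 5) (nat_lit 67382) (nat_lit 11) (node (nat_lit 4) (nat_lit 67382)
  (nat_lit 12) (node (nat_lit 7) (nat_lit 70960) (nat_lit 13) (node (nat_lit 4) (nat_lit 72419)
  (nat_lit 14) nil nil) nil) (node (nat_lit 7) (nat_lit 67382) (nat_lit 12) (node (nat_lit 4)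
  (nat_lit 70896) (nat_lit 13) nil nil) nil)) nil) nil)) (node (nat_lit 5) (nat_lit 66755)
  (nat_lit 9) (node (nat_lit 4) (nat_lit 66811) (nat_lit 10) (node (nat_lit 7) (nat_lit 66811)
  (nat_lit 11) (node (nat_lit 4) (nat_lit 66562) (nat_lit 12) (node (nat_lit 5) (nat_lit 68967)
  (nat_lit 13) (node (nat_lit 4) (nat_lit 70434) (nat_lit 14) (node (nat_lit 7) (nat_lit 70189)
  (nat_lit 15) (node (nat_lit 8) (nat_lit 48996) (nat_lit 16) nil nil) nil) nil) nil) (node
  (nat_lit 5) (nat_lit 66811) (nat_lit 12) nil nil)) (node (nat_lit 5) (nat_lit 66811) (nat_lit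
  11) (node (nat_lit 7) (nat_lit 66811) (nat_lit 12) (node (nat_lit 4) (nat_lit 69002) (nat_lit
  13) nil nil) nil) nil)) (node (nat_lit 8) (nat_lit 70174) (nat_lit 10) nil nil)) (node (nat_lit
  8) (nat_lit 69800) (nat_lit 9) nil nil))) (node (nat_lit 4) (nat_lit 66222) (nat_lit 8) (node
  (nat_lit 7) (nat_lit 66650) (nat_lit 9) (node (nat_lit 5) (nat_lit 66997) (nat_lit 10) (node
  (nat_lit 7) (nat_lit 66997) (nat_lit 11) (node (nat_lit 4) (nat_lit 66749) (nat_lit 12) (node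
  (nat_lit 7) (nat_lit 66965) (nat_lit 13) nil (node (nat_lit 5) (nat_lit 68704) (nat_lit 13)
  (node (nat_lit 4) (nat_lit 71123) (nat_lit 14) (node (nat_lit 7) (nat_lit 72715) (nat_lit 15)
  nil nil) (node (nat_lit 7) (nat_lit 69529) (nat_lit 14) nil nil)) nil)) nil) (node (nat_lit 4)
  (nat_lit 66997) (nat_lit 11) (node (nat_lit 5) (nat_lit 66997) (nat_lit 12) (node (nat_lit 7)
  (nat_lit 68053) (nat_lit 13) nil nil) nil) (node (nat_lit 8) (nat_lit 70722) (nat_lit 11) nil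
  nil))) (node (nat_lit 4) (nat_lit 66877) (nat_lit 10) (node (nat_lit 5) (nat_lit 66609) (nat_lit
  11) (node (nat_lit 7) (nat_lit 66361) (nat_lit 12) (node (nat_lit 5) (nat_lit 67417) (nat_lit
  13) nil (node (nat_lit 4) (nat_lit 68650) (nat_lit 13) nil nil)) (node (nat_lit 4) (nat_lit
  66609) (nat_lit 12) nil nil)) nil) nil)) (node (nat_lit 8) (nat_lit 69250) (nat_lit 9) nil nil))
  (node (nat_lit 8) (nat_lit 76894) (nat_lit 8) (node (nat_lit 5) (nat_lit 76894) (nat_lit 9) nil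
  (node (nat_lit 7) (nat_lit 76894) (nat_lit 9) nil nil)) (node (nat_lit 0) (nat_lit 71349)
  (nat_lit 8) nil nil)))) (node (nat_lit 7) (nat_lit 0) (nat_lit 7) (node (nat_lit 4) (nat_lit
  66905) (nat_lit 8) (node (nat_lit 5) (nat_lit 67382) (nat_lit 9) (node (nat_lit 7) (nat_lit
  67382) (nat_lit 10) (node (nat_lit 5) (nat_lit 67382) (nat_lit 11) (node (nat_lit 4) (nat_lit
  67382) (nat_lit 12) (node (nat_lit 7) (nat_lit 72248) (nat_lit 13) (node (nat_lit 4) (nat_lit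
  74091) (nat_lit 14) nil (node (nat_lit 5) (nat_lit 70337) (nat_lit 14) nil nil)) (node (nat_lit
  5) (nat_lit 71784) (nat_lit 13) (node (nat_lit 7) (nat_lit 74654) (nat_lit 14) (node (nat_lit 4)
  (nat_lit 75842) (nat_lit 15) nil nil) nil) nil)) (node (nat_lit 8) (nat_lit 71347) (nat_lit 12)
  nil nil)) (node (nat_lit 4) (nat_lit 67382) (nat_lit 11) (node (nat_lit 7) (nat_lit 67382)
  (nat_lit 12) (node (nat_lit 5) (nat_lit 64934) (nat_lit 13) nil nil) nil) (node (nat_lit 8)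
  (nat_lit 71108) (nat_lit 11) nil nil))) (node (nat_lit 4) (nat_lit 67382) (nat_lit 10) (node
  (nat_lit 7) (nat_lit 67382) (nat_lit 11) (node (nat_lit 5) (nat_lit 67382) (nat_lit 12) (node
  (nat_lit 4) (nat_lit 67599) (nat_lit 13) nil (node (nat_lit 7) (nat_lit 71747) (nat_lit 13) nil
  nil)) (node (nat_lit 8) (nat_lit 35832) (nat_lit 12) nil (node (nat_lit 4) (nat_lit 67382)
  (nat_lit 12) nil nil))) nil) (node (nat_lit 8) (nat_lit 74790) (nat_lit 10) nil (node (nat_lit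
  0) (nat_lit 70802) (nat_lit 10) nil nil)))) (node (nat_lit 8) (nat_lit 77292) (nat_lit 9) (node
  (nat_lit 7) (nat_lit 77292) (nat_lit 10) nil nil) (node (nat_lit 0) (nat_lit 73464) (nat_lit 9)
  nil nil))) (node (nat_lit 5) (nat_lit 66432) (nat_lit 8) (node (nat_lit 4) (nat_lit 66824)
  (nat_lit 9) (node (nat_lit 7) (nat_lit 66824) (nat_lit 10) (node (nat_lit 4) (nat_lit 66824)
  (nat_lit 11) (node (nat_lit 5) (nat_lit 67334) (nat_lit 12) (node (nat_lit 7) (nat_lit 69623)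
  (nat_lit 13) nil (node (nat_lit 4) (nat_lit 69895) (nat_lit 13) (node (nat_lit 7) (nat_lit
  70174) (nat_lit 14) nil nil) nil)) nil) nil) (node (nat_lit 5) (nat_lit 66824) (nat_lit 10)
  (node (nat_lit 7) (nat_lit 66824) (nat_lit 11) (node (nat_lit 4) (nat_lit 66824) (nat_lit 12)
  (node (nat_lit 7) (nat_lit 67880) (nat_lit 13) nil (node (nat_lit 5) (nat_lit 68836) (nat_lit
  13) nil nil)) (node (nat_lit 5) (nat_lit 66824) (nat_lit 12) nil nil)) nil) nil)) (node (nat_lit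
  7) (nat_lit 66432) (nat_lit 9) (node (nat_lit 4) (nat_lit 66432) (nat_lit 10) (node (nat_lit 5)
  (nat_lit 66432) (nat_lit 11) (node (nat_lit 7) (nat_lit 66432) (nat_lit 12) nil (node (nat_lit
  4) (nat_lit 66432) (nat_lit 12) nil nil)) (node (nat_lit 7) (nat_lit 66432) (nat_lit 11) (node
  (nat_lit 5) (nat_lit 66432) (nat_lit 12) (node (nat_lit 4) (nat_lit 63984) (nat_lit 13) nil nil)
  nil) nil)) nil) (node (nat_lit 8) (nat_lit 72991) (nat_lit 9) nil (node (nat_lit 0) (nat_lit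
  69460) (nat_lit 9) nil nil)))) (node (nat_lit 0) (nat_lit 74263) (nat_lit 8) nil nil))) (node
  (nat_lit 8) (nat_lit 0) (nat_lit 7) (node (nat_lit 7) (nat_lit 77735) (nat_lit 8) (node (nat_lit
  4) (nat_lit 77735) (nat_lit 9) (node (nat_lit 7) (nat_lit 77735) (nat_lit 10) (node (nat_lit 5)
  (nat_lit 77735) (nat_lit 11) (node (nat_lit 4) (nat_lit 77735) (nat_lit 12) (node (nat_lit 7)
  (nat_lit 77735) (nat_lit 13) (node (nat_lit 4) (nat_lit 77408) (nat_lit 14) (node (nat_lit 5)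
  (nat_lit 77882) (nat_lit 15) (node (nat_lit 4) (nat_lit 77882) (nat_lit 16) (node (nat_lit 7)
  (nat_lit 77882) (nat_lit 17) (node (nat_lit 8) (nat_lit 77882) (nat_lit 18) nil nil) nil) nil)
  nil) nil) (node (nat_lit 5) (nat_lit 77735) (nat_lit 13) nil nil)) (node (nat_lit 7) (nat_lit
  77735) (nat_lit 12) (node (nat_lit 4) (nat_lit 77735) (nat_lit 13) (node (nat_lit 5) (nat_lit
  77882) (nat_lit 14) (node (nat_lit 4) (nat_lit 77882) (nat_lit 15) (node (nat_lit 7) (nat_lit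
  77882) (nat_lit 16) nil nil) nil) nil) nil) nil)) nil) (node (nat_lit 5) (nat_lit 77735)
  (nat_lit 10) (node (nat_lit 7) (nat_lit 77735) (nat_lit 11) (node (nat_lit 5) (nat_lit 77735)
  (nat_lit 12) nil nil) (node (nat_lit 4) (nat_lit 77735) (nat_lit 11) (node (nat_lit 7) (nat_lit
  77735) (nat_lit 12) nil nil) nil)) nil)) (node (nat_lit 5) (nat_lit 77735) (nat_lit 9) (node
  (nat_lit 4) (nat_lit 77735) (nat_lit 10) nil (node (nat_lit 7) (nat_lit 77735) (nat_lit 10) nil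
  nil)) (node (nat_lit 8) (nat_lit 77882) (nat_lit 9) nil (node (nat_lit 0) (nat_lit 77882)
  (nat_lit 9) nil nil)))) (node (nat_lit 5) (nat_lit 77735) (nat_lit 8) (node (nat_lit 4) (nat_lit
  77735) (nat_lit 9) (node (nat_lit 5) (nat_lit 77735) (nat_lit 10) (node (nat_lit 7) (nat_lit
  77735) (nat_lit 11) nil nil) (node (nat_lit 7) (nat_lit 77735) (nat_lit 10) (node (nat_lit 4)
  (nat_lit 77735) (nat_lit 11) nil nil) nil)) nil) (node (nat_lit 0) (nat_lit 77882) (nat_lit 8)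
  nil nil))) (node (nat_lit 0) (nat_lit 72232) (nat_lit 7) (node (nat_lit 8) (nat_lit 72875)
  (nat_lit 8) nil (node (nat_lit 4) (nat_lit 72232) (nat_lit 8) nil (node (nat_lit 7) (nat_lit
  72232) (nat_lit 8) nil nil))) nil)))) (node (nat_lit 7) (nat_lit 0) (nat_lit 6) (node (nat_lit
  4) (nat_lit 0) (nat_lit 7) (node (nat_lit 5) (nat_lit 66530) (nat_lit 8) (node (nat_lit 4)
  (nat_lit 66530) (nat_lit 9) (node (nat_lit 7) (nat_lit 66530) (nat_lit 10) (node (nat_lit 5)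
  (nat_lit 66530) (nat_lit 11) (node (nat_lit 7) (nat_lit 66530) (nat_lit 12) (node (nat_lit 4)
  (nat_lit 70851) (nat_lit 13) (node (nat_lit 5) (nat_lit 72339) (nat_lit 14) nil nil) nil) (node
  (nat_lit 4) (nat_lit 66530) (nat_lit 12) nil nil)) (node (nat_lit 4) (nat_lit 66530) (nat_lit
  11) (node (nat_lit 5) (nat_lit 66530) (nat_lit 12) nil nil) nil)) nil) (node (nat_lit 7)
  (nat_lit 66530) (nat_lit 9) (node (nat_lit 5) (nat_lit 66530) (nat_lit 10) (node (nat_lit 4)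
  (nat_lit 66530) (nat_lit 11) (node (nat_lit 7) (nat_lit 67040) (nat_lit 12) (node (nat_lit 4)
  (nat_lit 69058) (nat_lit 13) (node (nat_lit 5) (nat_lit 70796) (nat_lit 14) nil nil) (node
  (nat_lit 5) (nat_lit 64592) (nat_lit 13) nil nil)) (node (nat_lit 5) (nat_lit 66530) (nat_lit
  12) nil nil)) nil) (node (nat_lit 4) (nat_lit 66530) (nat_lit 10) (node (nat_lit 7) (nat_lit
  66530) (nat_lit 11) (node (nat_lit 5) (nat_lit 66530) (nat_lit 12) nil nil) nil) nil)) (node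
  (nat_lit 0) (nat_lit 69558) (nat_lit 9) nil (node (nat_lit 8) (nat_lit 69558) (nat_lit 9) nil
  nil)))) (node (nat_lit 7) (nat_lit 66646) (nat_lit 8) (node (nat_lit 5) (nat_lit 66646) (nat_lit
  9) (node (nat_lit 4) (nat_lit 66646) (nat_lit 10) (node (nat_lit 7) (nat_lit 66646) (nat_lit 11)
  (node (nat_lit 4) (nat_lit 66398) (nat_lit 12) (node (nat_lit 5) (nat_lit 68802) (nat_lit 13)
  (node (nat_lit 4) (nat_lit 70269) (nat_lit 14) nil nil) nil) nil) (node (nat_lit 5) (nat_lit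
  66646) (nat_lit 11) (node (nat_lit 7) (nat_lit 66646) (nat_lit 12) (node (nat_lit 5) (nat_lit
  67703) (nat_lit 13) nil (node (nat_lit 4) (nat_lit 68999) (nat_lit 13) nil nil)) nil) nil))
  (node (nat_lit 7) (nat_lit 66646) (nat_lit 10) (node (nat_lit 4) (nat_lit 66646) (nat_lit 11)
  (node (nat_lit 5) (nat_lit 66646) (nat_lit 12) (node (nat_lit 4) (nat_lit 70657) (nat_lit 13)
  (node (nat_lit 7) (nat_lit 73533) (nat_lit 14) nil nil) nil) (node (nat_lit 7) (nat_lit 66646)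
  (nat_lit 12) nil nil)) nil) nil)) (node (nat_lit 8) (nat_lit 77882) (nat_lit 9) (node (nat_lit
  4) (nat_lit 77882) (nat_lit 10) (node (nat_lit 7) (nat_lit 77882) (nat_lit 11) nil nil) nil)
  (node (nat_lit 0) (nat_lit 69674) (nat_lit 9) nil nil))) (node (nat_lit 8) (nat_lit 75653)
  (nat_lit 8) (node (nat_lit 4) (nat_lit 75653) (nat_lit 9) nil nil) (node (nat_lit 0) (nat_lit
  71401) (nat_lit 8) nil nil)))) (node (nat_lit 5) (nat_lit 0) (nat_lit 7) (node (nat_lit 4)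
  (nat_lit 67030) (nat_lit 8) (node (nat_lit 5) (nat_lit 67030) (nat_lit 9) (node (nat_lit 7)
  (nat_lit 67030) (nat_lit 10) (node (nat_lit 4) (nat_lit 67030) (nat_lit 11) (node (nat_lit 7)
  (nat_lit 67030) (nat_lit 12) nil (node (nat_lit 5) (nat_lit 67030) (nat_lit 12) (node (nat_lit
  4) (nat_lit 69715) (nat_lit 13) (node (nat_lit 7) (nat_lit 71604) (nat_lit 14) nil nil) nil)
  nil)) (node (nat_lit 5) (nat_lit 67030) (nat_lit 11) (node (nat_lit 4) (nat_lit 67382) (nat_lit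
  12) (node (nat_lit 7) (nat_lit 68028) (nat_lit 13) nil nil) nil) nil)) nil) (node (nat_lit 7)
  (nat_lit 67030) (nat_lit 9) (node (nat_lit 4) (nat_lit 67030) (nat_lit 10) (node (nat_lit 5)
  (nat_lit 67030) (nat_lit 11) (node (nat_lit 7) (nat_lit 67030) (nat_lit 12) nil (node (nat_lit
  4) (nat_lit 67030) (nat_lit 12) nil nil)) nil) (node (nat_lit 5) (nat_lit 67030) (nat_lit 10)
  (node (nat_lit 7) (nat_lit 67030) (nat_lit 11) (node (nat_lit 4) (nat_lit 67030) (nat_lit 12)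
  nil nil) nil) nil)) (node (nat_lit 0) (nat_lit 70058) (nat_lit 9) nil (node (nat_lit 8) (nat_lit
  70058) (nat_lit 9) nil nil)))) (node (nat_lit 7) (nat_lit 66974) (nat_lit 8) (node (nat_lit 4)
  (nat_lit 66974) (nat_lit 9) (node (nat_lit 5) (nat_lit 66974) (nat_lit 10) (node (nat_lit 4)
  (nat_lit 66974) (nat_lit 11) (node (nat_lit 7) (nat_lit 67382) (nat_lit 12) (node (nat_lit 4)
  (nat_lit 69502) (nat_lit 13) nil nil) nil) (node (nat_lit 7) (nat_lit 66974) (nat_lit 11) (node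
  (nat_lit 5) (nat_lit 66974) (nat_lit 12) (node (nat_lit 4) (nat_lit 64526) (nat_lit 13) nil nil)
  nil) nil)) (node (nat_lit 7) (nat_lit 66974) (nat_lit 10) (node (nat_lit 5) (nat_lit 66974)
  (nat_lit 11) (node (nat_lit 4) (nat_lit 66974) (nat_lit 12) nil (node (nat_lit 7) (nat_lit
  66974) (nat_lit 12) nil nil)) nil) nil)) (node (nat_lit 8) (nat_lit 75684) (nat_lit 9) nil (node
  (nat_lit 0) (nat_lit 70002) (nat_lit 9) nil nil))) (node (nat_lit 8) (nat_lit 74294) (nat_lit 8)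
  nil (node (nat_lit 0) (nat_lit 73401) (nat_lit 8) nil nil)))) (node (nat_lit 0) (nat_lit 76751)
  (nat_lit 7) (node (nat_lit 7) (nat_lit 76751) (nat_lit 8) nil (node (nat_lit 5) (nat_lit 76751)
  (nat_lit 8) nil (node (nat_lit 4) (nat_lit 76751) (nat_lit 8) nil (node (nat_lit 8) (nat_lit
  77394) (nat_lit 8) nil nil)))) nil))) (node (nat_lit 0) (nat_lit 0) (nat_lit 6) (node (nat_lit
  8) (nat_lit 0) (nat_lit 7) (node (nat_lit 7) (nat_lit 76797) (nat_lit 8) (node (nat_lit 9)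
  (nat_lit 77882) (nat_lit 9) nil nil) (node (nat_lit 4) (nat_lit 76797) (nat_lit 8) nil (node
  (nat_lit 5) (nat_lit 76797) (nat_lit 8) nil (node (nat_lit 0) (nat_lit 77882) (nat_lit 8) nil
  nil)))) (node (nat_lit 7) (nat_lit 0) (nat_lit 7) (node (nat_lit 9) (nat_lit 77311) (nat_lit 8)
  (node (nat_lit 8) (nat_lit 77814) (nat_lit 9) nil nil) (node (nat_lit 8) (nat_lit 74555)
  (nat_lit 8) nil (node (nat_lit 0) (nat_lit 74555) (nat_lit 8) nil (node (nat_lit 4) (nat_lit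
  73087) (nat_lit 8) nil (node (nat_lit 5) (nat_lit 73087) (nat_lit 8) nil nil))))) (node (nat_lit
  4) (nat_lit 73087) (nat_lit 7) (node (nat_lit 7) (nat_lit 73087) (nat_lit 8) nil (node (nat_lit
  9) (nat_lit 74555) (nat_lit 8) nil nil)) (node (nat_lit 5) (nat_lit 73087) (nat_lit 7) (node
  (nat_lit 7) (nat_lit 73087) (nat_lit 8) nil (node (nat_lit 9) (nat_lit 74555) (nat_lit 8) nil
  nil)) (node (nat_lit 0) (nat_lit 75732) (nat_lit 7) nil nil))))) nil))))

noncomputable def t249 : Tr :=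
  (node (nat_lit 5) (nat_lit 0) (nat_lit 5) (node (nat_lit 0) (nat_lit 0) (nat_lit 6) (node
  (nat_lit 5) (nat_lit 0) (nat_lit 7) (node (nat_lit 7) (nat_lit 66839) (nat_lit 8) (node (nat_lit
  4) (nat_lit 66839) (nat_lit 9) (node (nat_lit 5) (nat_lit 66839) (nat_lit 10) (node (nat_lit 4)
  (nat_lit 66839) (nat_lit 11) (node (nat_lit 7) (nat_lit 66839) (nat_lit 12) (node (nat_lit 5)
  (nat_lit 66839) (nat_lit 13) (node (nat_lit 7) (nat_lit 70180) (nat_lit 14) (node (nat_lit 4)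
  (nat_lit 72789) (nat_lit 15) (node (nat_lit 5) (nat_lit 73724) (nat_lit 16) nil nil) nil) (node
  (nat_lit 9) (nat_lit 26106) (nat_lit 14) nil (node (nat_lit 4) (nat_lit 67667) (nat_lit 14) nil
  nil))) (node (nat_lit 4) (nat_lit 66839) (nat_lit 13) (node (nat_lit 5) (nat_lit 68624) (nat_lit
  14) nil nil) nil)) nil) (node (nat_lit 7) (nat_lit 66839) (nat_lit 11) (node (nat_lit 5)
  (nat_lit 66839) (nat_lit 12) (node (nat_lit 4) (nat_lit 66839) (nat_lit 13) (node (nat_lit 7)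
  (nat_lit 67667) (nat_lit 14) nil nil) nil) nil) (node (nat_lit 0) (nat_lit 69519) (nat_lit 11)
  nil (node (nat_lit 9) (nat_lit 72631) (nat_lit 11) nil nil)))) (node (nat_lit 7) (nat_lit 66839)
  (nat_lit 10) (node (nat_lit 5) (nat_lit 66839) (nat_lit 11) (node (nat_lit 4) (nat_lit 66839)
  (nat_lit 12) (node (nat_lit 5) (nat_lit 66839) (nat_lit 13) (node (nat_lit 7) (nat_lit 68629)
  (nat_lit 14) nil nil) (node (nat_lit 7) (nat_lit 66839) (nat_lit 13) (node (nat_lit 4) (nat_lit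
  69189) (nat_lit 14) (node (nat_lit 5) (nat_lit 70618) (nat_lit 15) nil nil) nil) nil)) (node
  (nat_lit 7) (nat_lit 66839) (nat_lit 12) (node (nat_lit 4) (nat_lit 66839) (nat_lit 13) (node
  (nat_lit 5) (nat_lit 68722) (nat_lit 14) (node (nat_lit 4) (nat_lit 70744) (nat_lit 15) nil nil)
  nil) nil) nil)) (node (nat_lit 9) (nat_lit 72631) (nat_lit 11) nil (node (nat_lit 0) (nat_lit
  69519) (nat_lit 11) nil nil))) (node (nat_lit 9) (nat_lit 73646) (nat_lit 10) nil (node (nat_lit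
  0) (nat_lit 74526) (nat_lit 10) nil nil)))) (node (nat_lit 9) (nat_lit 77149) (nat_lit 9) (node
  (nat_lit 5) (nat_lit 77149) (nat_lit 10) (node (nat_lit 9) (nat_lit 77882) (nat_lit 11) (node
  (nat_lit 7) (nat_lit 77882) (nat_lit 12) nil nil) (node (nat_lit 4) (nat_lit 77149) (nat_lit 11)
  (node (nat_lit 7) (nat_lit 77149) (nat_lit 12) nil nil) (node (nat_lit 0) (nat_lit 77849)
  (nat_lit 11) nil nil))) (node (nat_lit 7) (nat_lit 77149) (nat_lit 10) nil nil)) (node (nat_lit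
  5) (nat_lit 66839) (nat_lit 9) (node (nat_lit 4) (nat_lit 66839) (nat_lit 10) (node (nat_lit 7)
  (nat_lit 66839) (nat_lit 11) (node (nat_lit 4) (nat_lit 66839) (nat_lit 12) nil (node (nat_lit
  5) (nat_lit 66839) (nat_lit 12) nil nil)) (node (nat_lit 5) (nat_lit 66839) (nat_lit 11) (node
  (nat_lit 7) (nat_lit 66839) (nat_lit 12) (node (nat_lit 4) (nat_lit 66839) (nat_lit 13) nil nil)
  nil) (node (nat_lit 9) (nat_lit 69519) (nat_lit 11) nil nil))) (node (nat_lit 9) (nat_lit 76777)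
  (nat_lit 10) (node (nat_lit 7) (nat_lit 76777) (nat_lit 11) (node (nat_lit 5) (nat_lit 76777)
  (nat_lit 12) nil nil) nil) (node (nat_lit 0) (nat_lit 69212) (nat_lit 10) nil nil))) (node
  (nat_lit 0) (nat_lit 76452) (nat_lit 9) (node (nat_lit 5) (nat_lit 76452) (nat_lit 10) nil nil)
  nil)))) (node (nat_lit 4) (nat_lit 66839) (nat_lit 8) (node (nat_lit 7) (nat_lit 66839) (nat_lit
  9) (node (nat_lit 5) (nat_lit 66839) (nat_lit 10) (node (nat_lit 7) (nat_lit 66839) (nat_lit 11)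
  (node (nat_lit 4) (nat_lit 66839) (nat_lit 12) (node (nat_lit 5) (nat_lit 66839) (nat_lit 13)
  (node (nat_lit 4) (nat_lit 70180) (nat_lit 14) (node (nat_lit 7) (nat_lit 72789) (nat_lit 15)
  (node (nat_lit 5) (nat_lit 73860) (nat_lit 16) nil nil) nil) (node (nat_lit 7) (nat_lit 67667)
  (nat_lit 14) nil nil)) (node (nat_lit 7) (nat_lit 66839) (nat_lit 13) nil nil)) nil) (node
  (nat_lit 4) (nat_lit 66839) (nat_lit 11) (node (nat_lit 5) (nat_lit 66839) (nat_lit 12) (node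
  (nat_lit 7) (nat_lit 66817) (nat_lit 13) (node (nat_lit 4) (nat_lit 68617) (nat_lit 14) nil nil)
  nil) nil) (node (nat_lit 0) (nat_lit 69519) (nat_lit 11) nil nil))) (node (nat_lit 4) (nat_lit
  66839) (nat_lit 10) (node (nat_lit 5) (nat_lit 66839) (nat_lit 11) (node (nat_lit 7) (nat_lit
  66839) (nat_lit 12) (node (nat_lit 5) (nat_lit 66839) (nat_lit 13) (node (nat_lit 4) (nat_lit
  67011) (nat_lit 14) nil nil) (node (nat_lit 4) (nat_lit 66839) (nat_lit 13) nil nil)) (node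
  (nat_lit 4) (nat_lit 66839) (nat_lit 12) (node (nat_lit 7) (nat_lit 66839) (nat_lit 13) (node
  (nat_lit 5) (nat_lit 68936) (nat_lit 14) (node (nat_lit 9) (nat_lit 32440) (nat_lit 15) nil nil)
  nil) nil) nil)) (node (nat_lit 9) (nat_lit 72631) (nat_lit 11) nil (node (nat_lit 0) (nat_lit
  69519) (nat_lit 11) nil nil))) (node (nat_lit 9) (nat_lit 73646) (nat_lit 10) nil (node (nat_lit
  0) (nat_lit 74526) (nat_lit 10) nil nil)))) (node (nat_lit 5) (nat_lit 66839) (nat_lit 9) (node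
  (nat_lit 7) (nat_lit 66839) (nat_lit 10) (node (nat_lit 4) (nat_lit 66839) (nat_lit 11) (node
  (nat_lit 5) (nat_lit 66839) (nat_lit 12) (node (nat_lit 4) (nat_lit 66839) (nat_lit 13) nil nil)
  (node (nat_lit 7) (nat_lit 66839) (nat_lit 12) (node (nat_lit 5) (nat_lit 66839) (nat_lit 13)
  nil nil) nil)) (node (nat_lit 5) (nat_lit 66839) (nat_lit 11) (node (nat_lit 4) (nat_lit 66839)
  (nat_lit 12) (node (nat_lit 7) (nat_lit 66839) (nat_lit 13) (node (nat_lit 4) (nat_lit 69327)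
  (nat_lit 14) (node (nat_lit 5) (nat_lit 70755) (nat_lit 15) nil nil) nil) nil) nil) (node
  (nat_lit 9) (nat_lit 72631) (nat_lit 11) nil nil))) (node (nat_lit 9) (nat_lit 76641) (nat_lit
  10) (node (nat_lit 4) (nat_lit 76641) (nat_lit 11) nil nil) (node (nat_lit 0) (nat_lit 74526)
  (nat_lit 10) nil nil))) (node (nat_lit 9) (nat_lit 76354) (nat_lit 9) (node (nat_lit 4) (nat_lit
  76354) (nat_lit 10) nil (node (nat_lit 5) (nat_lit 76354) (nat_lit 10) nil (node (nat_lit 7)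
  (nat_lit 76354) (nat_lit 10) nil nil))) (node (nat_lit 0) (nat_lit 76354) (nat_lit 9) (node
  (nat_lit 4) (nat_lit 76354) (nat_lit 10) nil (node (nat_lit 5) (nat_lit 76354) (nat_lit 10) nil
  nil)) nil)))) (node (nat_lit 0) (nat_lit 75109) (nat_lit 8) (node (nat_lit 9) (nat_lit 76897)
  (nat_lit 9) (node (nat_lit 5) (nat_lit 76897) (nat_lit 10) nil nil) (node (nat_lit 5) (nat_lit
  75109) (nat_lit 9) (node (nat_lit 9) (nat_lit 76007) (nat_lit 10) nil nil) (node (nat_lit 7)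
  (nat_lit 75109) (nat_lit 9) nil (node (nat_lit 4) (nat_lit 75109) (nat_lit 9) nil (node (nat_lit
  0) (nat_lit 76200) (nat_lit 9) nil nil))))) nil))) (node (nat_lit 7) (nat_lit 0) (nat_lit 7)
  (node (nat_lit 9) (nat_lit 74847) (nat_lit 8) (node (nat_lit 5) (nat_lit 74847) (nat_lit 9)
  (node (nat_lit 9) (nat_lit 77423) (nat_lit 10) (node (nat_lit 7) (nat_lit 77423) (nat_lit 11)
  (node (nat_lit 5) (nat_lit 77423) (nat_lit 12) (node (nat_lit 7) (nat_lit 77423) (nat_lit 13)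
  (node (nat_lit 4) (nat_lit 77423) (nat_lit 14) nil nil) nil) nil) nil) nil) nil) (node (nat_lit
  5) (nat_lit 66839) (nat_lit 8) (node (nat_lit 7) (nat_lit 66839) (nat_lit 9) (node (nat_lit 9)
  (nat_lit 74792) (nat_lit 10) (node (nat_lit 5) (nat_lit 74792) (nat_lit 11) nil nil) (node
  (nat_lit 4) (nat_lit 66839) (nat_lit 10) nil nil)) nil) (node (nat_lit 4) (nat_lit 66191)
  (nat_lit 8) (node (nat_lit 5) (nat_lit 66191) (nat_lit 9) (node (nat_lit 4) (nat_lit 66191)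
  (nat_lit 10) (node (nat_lit 7) (nat_lit 66191) (nat_lit 11) (node (nat_lit 5) (nat_lit 66191)
  (nat_lit 12) nil nil) nil) nil) nil) (node (nat_lit 0) (nat_lit 72066) (nat_lit 8) nil nil))))
  (node (nat_lit 4) (nat_lit 66095) (nat_lit 7) (node (nat_lit 5) (nat_lit 66823) (nat_lit 8)
  (node (nat_lit 4) (nat_lit 66823) (nat_lit 9) (node (nat_lit 9) (nat_lit 71951) (nat_lit 10) nil
  nil) nil) (node (nat_lit 9) (nat_lit 73179) (nat_lit 8) (node (nat_lit 5) (nat_lit 73179)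
  (nat_lit 9) (node (nat_lit 9) (nat_lit 74077) (nat_lit 10) nil nil) nil) (node (nat_lit 7)
  (nat_lit 66095) (nat_lit 8) nil nil))) (node (nat_lit 0) (nat_lit 72272) (nat_lit 7) (node
  (nat_lit 5) (nat_lit 72272) (nat_lit 8) (node (nat_lit 9) (nat_lit 75575) (nat_lit 9) (node
  (nat_lit 5) (nat_lit 75575) (nat_lit 10) nil nil) (node (nat_lit 10) (nat_lit 73423) (nat_lit 9)
  nil nil)) (node (nat_lit 9) (nat_lit 74549) (nat_lit 8) (node (nat_lit 5) (nat_lit 74549)
  (nat_lit 9) nil nil) nil)) nil)))) (node (nat_lit 7) (nat_lit 0) (nat_lit 6) (node (nat_lit 0)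
  (nat_lit 0) (nat_lit 7) (node (nat_lit 5) (nat_lit 68521) (nat_lit 8) (node (nat_lit 7) (nat_lit
  68521) (nat_lit 9) (node (nat_lit 5) (nat_lit 68521) (nat_lit 10) (node (nat_lit 4) (nat_lit
  68521) (nat_lit 11) (node (nat_lit 7) (nat_lit 68521) (nat_lit 12) (node (nat_lit 4) (nat_lit
  68521) (nat_lit 13) (node (nat_lit 5) (nat_lit 68521) (nat_lit 14) (node (nat_lit 4) (nat_lit
  71274) (nat_lit 15) (node (nat_lit 7) (nat_lit 71674) (nat_lit 16) (node (nat_lit 5) (nat_lit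
  72345) (nat_lit 17) nil nil) nil) (node (nat_lit 7) (nat_lit 70439) (nat_lit 15) nil nil)) nil)
  (node (nat_lit 5) (nat_lit 68521) (nat_lit 13) (node (nat_lit 7) (nat_lit 68521) (nat_lit 14)
  (node (nat_lit 4) (nat_lit 71561) (nat_lit 15) (node (nat_lit 5) (nat_lit 72991) (nat_lit 16)
  (node (nat_lit 4) (nat_lit 74483) (nat_lit 17) nil nil) nil) nil) (node (nat_lit 10) (nat_lit
  70946) (nat_lit 14) nil nil)) (node (nat_lit 10) (nat_lit 73446) (nat_lit 13) nil (node (nat_lit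
  0) (nat_lit 70799) (nat_lit 13) nil nil)))) (node (nat_lit 5) (nat_lit 68521) (nat_lit 12) (node
  (nat_lit 7) (nat_lit 68521) (nat_lit 13) (node (nat_lit 4) (nat_lit 68521) (nat_lit 14) (node
  (nat_lit 5) (nat_lit 69968) (nat_lit 15) (node (nat_lit 4) (nat_lit 70702) (nat_lit 16) (node
  (nat_lit 7) (nat_lit 71601) (nat_lit 17) nil nil) nil) (node (nat_lit 7) (nat_lit 68655)
  (nat_lit 15) nil nil)) (node (nat_lit 5) (nat_lit 68521) (nat_lit 14) nil nil)) (node (nat_lit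
  10) (nat_lit 73446) (nat_lit 13) nil (node (nat_lit 0) (nat_lit 70799) (nat_lit 13) nil nil)))
  (node (nat_lit 10) (nat_lit 75918) (nat_lit 12) nil (node (nat_lit 0) (nat_lit 75918) (nat_lit
  12) nil nil)))) (node (nat_lit 10) (nat_lit 77882) (nat_lit 11) (node (nat_lit 7) (nat_lit
  77882) (nat_lit 12) nil (node (nat_lit 5) (nat_lit 77882) (nat_lit 12) nil nil)) (node (nat_lit
  0) (nat_lit 76539) (nat_lit 11) nil nil))) (node (nat_lit 4) (nat_lit 68521) (nat_lit 10) (node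
  (nat_lit 5) (nat_lit 68521) (nat_lit 11) (node (nat_lit 4) (nat_lit 68521) (nat_lit 12) (node
  (nat_lit 7) (nat_lit 68521) (nat_lit 13) (node (nat_lit 5) (nat_lit 68521) (nat_lit 14) (node
  (nat_lit 7) (nat_lit 69918) (nat_lit 15) (node (nat_lit 10) (nat_lit 27866) (nat_lit 16) nil
  nil) nil) (node (nat_lit 4) (nat_lit 68521) (nat_lit 14) (node (nat_lit 5) (nat_lit 71077)
  (nat_lit 15) nil nil) nil)) (node (nat_lit 10) (nat_lit 70799) (nat_lit 13) nil nil)) (node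
  (nat_lit 7) (nat_lit 68521) (nat_lit 12) (node (nat_lit 5) (nat_lit 68521) (nat_lit 13) nil nil)
  (node (nat_lit 10) (nat_lit 75918) (nat_lit 12) nil (node (nat_lit 0) (nat_lit 73041) (nat_lit
  12) nil nil)))) (node (nat_lit 7) (nat_lit 68521) (nat_lit 11) (node (nat_lit 5) (nat_lit 68521)
  (nat_lit 12) (node (nat_lit 4) (nat_lit 68521) (nat_lit 13) (node (nat_lit 7) (nat_lit 68521)
  (nat_lit 14) (node (nat_lit 4) (nat_lit 70855) (nat_lit 15) (node (nat_lit 5) (nat_lit 72120)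
  (nat_lit 16) nil nil) nil) (node (nat_lit 5) (nat_lit 68521) (nat_lit 14) nil nil)) (node
  (nat_lit 7) (nat_lit 68521) (nat_lit 13) (node (nat_lit 4) (nat_lit 68521) (nat_lit 14) (node
  (nat_lit 5) (nat_lit 70359) (nat_lit 15) nil nil) nil) nil)) (node (nat_lit 10) (nat_lit 75918)
  (nat_lit 12) nil (node (nat_lit 0) (nat_lit 73041) (nat_lit 12) nil nil))) (node (nat_lit 10)
  (nat_lit 76539) (nat_lit 11) nil (node (nat_lit 0) (nat_lit 75070) (nat_lit 11) nil nil))))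
  (node (nat_lit 0) (nat_lit 75956) (nat_lit 10) nil nil))) (node (nat_lit 10) (nat_lit 75014)
  (nat_lit 9) (node (nat_lit 7) (nat_lit 75014) (nat_lit 10) (node (nat_lit 5) (nat_lit 75014)
  (nat_lit 11) nil nil) nil) (node (nat_lit 4) (nat_lit 68521) (nat_lit 9) nil nil))) (node
  (nat_lit 7) (nat_lit 68521) (nat_lit 8) (node (nat_lit 5) (nat_lit 68521) (nat_lit 9) (node
  (nat_lit 10) (nat_lit 76744) (nat_lit 10) (node (nat_lit 5) (nat_lit 76744) (nat_lit 11) (node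
  (nat_lit 7) (nat_lit 76744) (nat_lit 12) nil nil) nil) nil) nil) (node (nat_lit 4) (nat_lit
  68521) (nat_lit 8) (node (nat_lit 7) (nat_lit 68521) (nat_lit 9) nil nil) (node (nat_lit 0)
  (nat_lit 71320) (nat_lit 8) nil nil)))) nil) (node (nat_lit 4) (nat_lit 0) (nat_lit 6) (node
  (nat_lit 0) (nat_lit 64472) (nat_lit 7) (node (nat_lit 5) (nat_lit 64627) (nat_lit 8) (node
  (nat_lit 4) (nat_lit 64878) (nat_lit 9) (node (nat_lit 7) (nat_lit 64841) (nat_lit 10) (node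
  (nat_lit 5) (nat_lit 64841) (nat_lit 11) (node (nat_lit 7) (nat_lit 64841) (nat_lit 12) (node
  (nat_lit 4) (nat_lit 64841) (nat_lit 13) (node (nat_lit 5) (nat_lit 64841) (nat_lit 14) nil nil)
  nil) (node (nat_lit 4) (nat_lit 64841) (nat_lit 12) (node (nat_lit 5) (nat_lit 64841) (nat_lit
  13) nil nil) (node (nat_lit 10) (nat_lit 69362) (nat_lit 12) nil nil))) (node (nat_lit 4)
  (nat_lit 64841) (nat_lit 11) (node (nat_lit 5) (nat_lit 64841) (nat_lit 12) (node (nat_lit 4)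
  (nat_lit 64841) (nat_lit 13) (node (nat_lit 7) (nat_lit 64841) (nat_lit 14) nil nil) (node
  (nat_lit 7) (nat_lit 64841) (nat_lit 13) nil nil)) (node (nat_lit 10) (nat_lit 66933) (nat_lit
  12) nil nil)) (node (nat_lit 10) (nat_lit 73230) (nat_lit 11) nil (node (nat_lit 0) (nat_lit
  71390) (nat_lit 11) nil nil)))) (node (nat_lit 5) (nat_lit 65049) (nat_lit 10) (node (nat_lit 7)
  (nat_lit 65268) (nat_lit 11) (node (nat_lit 4) (nat_lit 65268) (nat_lit 12) (node (nat_lit 7)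
  (nat_lit 65268) (nat_lit 13) (node (nat_lit 5) (nat_lit 65268) (nat_lit 14) nil nil) (node
  (nat_lit 5) (nat_lit 65268) (nat_lit 13) nil nil)) (node (nat_lit 5) (nat_lit 65268) (nat_lit
  12) (node (nat_lit 4) (nat_lit 65268) (nat_lit 13) nil nil) (node (nat_lit 10) (nat_lit 69788)
  (nat_lit 12) nil (node (nat_lit 0) (nat_lit 67359) (nat_lit 12) nil nil)))) (node (nat_lit 10)
  (nat_lit 74381) (nat_lit 11) nil (node (nat_lit 0) (nat_lit 73436) (nat_lit 11) nil nil))) (node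
  (nat_lit 0) (nat_lit 72206) (nat_lit 10) nil nil))) nil) (node (nat_lit 4) (nat_lit 64472)
  (nat_lit 8) (node (nat_lit 5) (nat_lit 64472) (nat_lit 9) (node (nat_lit 10) (nat_lit 69935)
  (nat_lit 10) nil nil) nil) (node (nat_lit 7) (nat_lit 64472) (nat_lit 8) nil nil))) nil) nil)))
  (node (nat_lit 4) (nat_lit 0) (nat_lit 5) (node (nat_lit 0) (nat_lit 0) (nat_lit 6) (node
  (nat_lit 4) (nat_lit 0) (nat_lit 7) (node (nat_lit 7) (nat_lit 40350) (nat_lit 8) (node (nat_lit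
  5) (nat_lit 43774) (nat_lit 9) (node (nat_lit 4) (nat_lit 44986) (nat_lit 10) (node (nat_lit 5)
  (nat_lit 44986) (nat_lit 11) (node (nat_lit 7) (nat_lit 44986) (nat_lit 12) (node (nat_lit 4)
  (nat_lit 44986) (nat_lit 13) (node (nat_lit 7) (nat_lit 45815) (nat_lit 14) nil (node (nat_lit
  5) (nat_lit 47887) (nat_lit 14) nil nil)) (node (nat_lit 5) (nat_lit 44986) (nat_lit 13) nil
  nil)) nil) (node (nat_lit 7) (nat_lit 44986) (nat_lit 11) (node (nat_lit 4) (nat_lit 44986)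
  (nat_lit 12) (node (nat_lit 5) (nat_lit 44986) (nat_lit 13) (node (nat_lit 4) (nat_lit 46335)
  (nat_lit 14) (node (nat_lit 7) (nat_lit 46125) (nat_lit 15) nil nil) (node (nat_lit 7) (nat_lit
  45815) (nat_lit 14) nil nil)) nil) nil) (node (nat_lit 0) (nat_lit 47666) (nat_lit 11) nil (node
  (nat_lit 9) (nat_lit 47666) (nat_lit 11) nil nil)))) (node (nat_lit 7) (nat_lit 44986) (nat_lit
  10) (node (nat_lit 4) (nat_lit 44986) (nat_lit 11) (node (nat_lit 5) (nat_lit 44986) (nat_lit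
  12) (node (nat_lit 4) (nat_lit 44986) (nat_lit 13) nil nil) (node (nat_lit 7) (nat_lit 44986)
  (nat_lit 12) (node (nat_lit 5) (nat_lit 44986) (nat_lit 13) nil nil) nil)) (node (nat_lit 9)
  (nat_lit 47666) (nat_lit 11) nil nil)) (node (nat_lit 9) (nat_lit 49829) (nat_lit 10) nil (node
  (nat_lit 0) (nat_lit 49829) (nat_lit 10) nil nil)))) (node (nat_lit 9) (nat_lit 50613) (nat_lit
  9) (node (nat_lit 4) (nat_lit 50613) (nat_lit 10) (node (nat_lit 9) (nat_lit 50964) (nat_lit 11)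
  (node (nat_lit 7) (nat_lit 50964) (nat_lit 12) (node (nat_lit 4) (nat_lit 50964) (nat_lit 13)
  nil nil) nil) (node (nat_lit 5) (nat_lit 50613) (nat_lit 11) (node (nat_lit 7) (nat_lit 50613)
  (nat_lit 12) nil (node (nat_lit 4) (nat_lit 50613) (nat_lit 12) nil nil)) (node (nat_lit 0)
  (nat_lit 50964) (nat_lit 11) nil nil))) (node (nat_lit 7) (nat_lit 50613) (nat_lit 10) nil nil))
  (node (nat_lit 4) (nat_lit 42421) (nat_lit 9) (node (nat_lit 5) (nat_lit 43348) (nat_lit 10)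
  (node (nat_lit 7) (nat_lit 43555) (nat_lit 11) (node (nat_lit 5) (nat_lit 44457) (nat_lit 12)
  nil (node (nat_lit 4) (nat_lit 43555) (nat_lit 12) nil nil)) (node (nat_lit 4) (nat_lit 43983)
  (nat_lit 11) (node (nat_lit 7) (nat_lit 43642) (nat_lit 12) nil nil) nil)) (node (nat_lit 0)
  (nat_lit 44972) (nat_lit 10) nil nil)) (node (nat_lit 0) (nat_lit 49329) (nat_lit 9) (node
  (nat_lit 4) (nat_lit 49329) (nat_lit 10) nil (node (nat_lit 7) (nat_lit 49329) (nat_lit 10) nil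
  nil)) nil)))) (node (nat_lit 5) (nat_lit 40701) (nat_lit 8) (node (nat_lit 7) (nat_lit 43822)
  (nat_lit 9) (node (nat_lit 4) (nat_lit 44986) (nat_lit 10) (node (nat_lit 7) (nat_lit 44986)
  (nat_lit 11) (node (nat_lit 5) (nat_lit 44986) (nat_lit 12) (node (nat_lit 4) (nat_lit 44986)
  (nat_lit 13) (node (nat_lit 5) (nat_lit 43079) (nat_lit 14) nil nil) (node (nat_lit 7) (nat_lit
  44986) (nat_lit 13) nil nil)) nil) (node (nat_lit 5) (nat_lit 44986) (nat_lit 11) (node (nat_lit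
  4) (nat_lit 44986) (nat_lit 12) (node (nat_lit 7) (nat_lit 44986) (nat_lit 13) (node (nat_lit 4)
  (nat_lit 46921) (nat_lit 14) (node (nat_lit 9) (nat_lit 11881) (nat_lit 15) nil nil) (node
  (nat_lit 5) (nat_lit 43079) (nat_lit 14) nil nil)) nil) nil) (node (nat_lit 0) (nat_lit 47666)
  (nat_lit 11) nil (node (nat_lit 9) (nat_lit 47666) (nat_lit 11) nil nil)))) (node (nat_lit 5)
  (nat_lit 44986) (nat_lit 10) (node (nat_lit 4) (nat_lit 44986) (nat_lit 11) (node (nat_lit 7)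
  (nat_lit 44986) (nat_lit 12) (node (nat_lit 4) (nat_lit 44986) (nat_lit 13) (node (nat_lit 5)
  (nat_lit 46335) (nat_lit 14) (node (nat_lit 4) (nat_lit 47388) (nat_lit 15) nil nil) nil) nil)
  (node (nat_lit 5) (nat_lit 44986) (nat_lit 12) (node (nat_lit 7) (nat_lit 45035) (nat_lit 13)
  (node (nat_lit 4) (nat_lit 46874) (nat_lit 14) nil nil) nil) nil)) (node (nat_lit 9) (nat_lit
  47666) (nat_lit 11) nil (node (nat_lit 0) (nat_lit 47666) (nat_lit 11) nil nil))) (node (nat_lit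
  9) (nat_lit 48850) (nat_lit 10) nil (node (nat_lit 0) (nat_lit 48850) (nat_lit 10) nil nil))))
  (node (nat_lit 4) (nat_lit 43492) (nat_lit 9) (node (nat_lit 7) (nat_lit 44798) (nat_lit 10)
  (node (nat_lit 5) (nat_lit 44986) (nat_lit 11) (node (nat_lit 7) (nat_lit 44986) (nat_lit 12)
  (node (nat_lit 4) (nat_lit 44986) (nat_lit 13) (node (nat_lit 5) (nat_lit 47833) (nat_lit 14)
  nil nil) nil) (node (nat_lit 4) (nat_lit 44986) (nat_lit 12) (node (nat_lit 5) (nat_lit 44986)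
  (nat_lit 13) nil nil) nil)) (node (nat_lit 4) (nat_lit 44986) (nat_lit 11) (node (nat_lit 5)
  (nat_lit 44986) (nat_lit 12) (node (nat_lit 7) (nat_lit 44986) (nat_lit 13) nil nil) nil) (node
  (nat_lit 9) (nat_lit 47513) (nat_lit 11) nil nil))) (node (nat_lit 9) (nat_lit 50529) (nat_lit
  10) (node (nat_lit 5) (nat_lit 50529) (nat_lit 11) nil nil) (node (nat_lit 0) (nat_lit 48850)
  (nat_lit 10) nil nil))) (node (nat_lit 9) (nat_lit 50613) (nat_lit 9) (node (nat_lit 5) (nat_lit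
  50613) (nat_lit 10) nil (node (nat_lit 4) (nat_lit 50613) (nat_lit 10) nil (node (nat_lit 7)
  (nat_lit 50613) (nat_lit 10) nil nil))) (node (nat_lit 0) (nat_lit 50613) (nat_lit 9) (node
  (nat_lit 5) (nat_lit 50613) (nat_lit 10) nil (node (nat_lit 4) (nat_lit 50613) (nat_lit 10) nil
  nil)) nil)))) (node (nat_lit 0) (nat_lit 48827) (nat_lit 8) (node (nat_lit 9) (nat_lit 50613)
  (nat_lit 9) (node (nat_lit 4) (nat_lit 50613) (nat_lit 10) nil nil) (node (nat_lit 4) (nat_lit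
  48827) (nat_lit 9) (node (nat_lit 9) (nat_lit 49470) (nat_lit 10) nil nil) (node (nat_lit 7)
  (nat_lit 48827) (nat_lit 9) nil (node (nat_lit 0) (nat_lit 49790) (nat_lit 9) nil (node (nat_lit
  5) (nat_lit 48827) (nat_lit 9) nil nil))))) nil))) (node (nat_lit 7) (nat_lit 0) (nat_lit 7)
  (node (nat_lit 9) (nat_lit 48983) (nat_lit 8) (node (nat_lit 4) (nat_lit 48983) (nat_lit 9)
  (node (nat_lit 9) (nat_lit 50800) (nat_lit 10) (node (nat_lit 7) (nat_lit 50800) (nat_lit 11)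
  (node (nat_lit 4) (nat_lit 50800) (nat_lit 12) (node (nat_lit 7) (nat_lit 50800) (nat_lit 13)
  (node (nat_lit 5) (nat_lit 50800) (nat_lit 14) nil nil) (node (nat_lit 9) (nat_lit 51234)
  (nat_lit 13) nil (node (nat_lit 5) (nat_lit 50800) (nat_lit 13) nil nil))) (node (nat_lit 5)
  (nat_lit 50800) (nat_lit 12) nil nil)) nil) nil) nil) (node (nat_lit 4) (nat_lit 40455) (nat_lit
  8) (node (nat_lit 7) (nat_lit 43376) (nat_lit 9) (node (nat_lit 9) (nat_lit 47359) (nat_lit 10)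
  (node (nat_lit 4) (nat_lit 47359) (nat_lit 11) (node (nat_lit 9) (nat_lit 47906) (nat_lit 12)
  (node (nat_lit 7) (nat_lit 47906) (nat_lit 13) nil nil) nil) nil) (node (nat_lit 5) (nat_lit
  43376) (nat_lit 10) nil nil)) nil) (node (nat_lit 5) (nat_lit 40751) (nat_lit 8) (node (nat_lit
  4) (nat_lit 40751) (nat_lit 9) nil nil) (node (nat_lit 0) (nat_lit 42359) (nat_lit 8) nil
  nil)))) (node (nat_lit 5) (nat_lit 0) (nat_lit 7) (node (nat_lit 4) (nat_lit 40952) (nat_lit 8)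
  (node (nat_lit 5) (nat_lit 40952) (nat_lit 9) (node (nat_lit 9) (nat_lit 45230) (nat_lit 10) nil
  nil) nil) (node (nat_lit 9) (nat_lit 47388) (nat_lit 8) (node (nat_lit 4) (nat_lit 47388)
  (nat_lit 9) (node (nat_lit 9) (nat_lit 48286) (nat_lit 10) nil nil) nil) (node (nat_lit 7)
  (nat_lit 38385) (nat_lit 8) nil (node (nat_lit 0) (nat_lit 41658) (nat_lit 8) nil nil)))) (node
  (nat_lit 0) (nat_lit 43528) (nat_lit 7) (node (nat_lit 4) (nat_lit 43603) (nat_lit 8) (node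
  (nat_lit 9) (nat_lit 47420) (nat_lit 9) (node (nat_lit 4) (nat_lit 47420) (nat_lit 10) nil nil)
  (node (nat_lit 10) (nat_lit 44919) (nat_lit 9) nil nil)) (node (nat_lit 9) (nat_lit 45868)
  (nat_lit 8) (node (nat_lit 4) (nat_lit 45868) (nat_lit 9) nil nil) nil)) nil)))) (node (nat_lit
  5) (nat_lit 0) (nat_lit 6) (node (nat_lit 0) (nat_lit 42536) (nat_lit 7) (node (nat_lit 4)
  (nat_lit 43842) (nat_lit 8) (node (nat_lit 5) (nat_lit 45757) (nat_lit 9) (node (nat_lit 7)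
  (nat_lit 46022) (nat_lit 10) (node (nat_lit 4) (nat_lit 46395) (nat_lit 11) (node (nat_lit 7)
  (nat_lit 46395) (nat_lit 12) (node (nat_lit 5) (nat_lit 46395) (nat_lit 13) nil nil) (node
  (nat_lit 5) (nat_lit 46395) (nat_lit 12) nil nil)) (node (nat_lit 5) (nat_lit 45708) (nat_lit
  11) (node (nat_lit 4) (nat_lit 45708) (nat_lit 12) (node (nat_lit 5) (nat_lit 45708) (nat_lit
  13) nil (node (nat_lit 7) (nat_lit 45708) (nat_lit 13) nil nil)) nil) (node (nat_lit 10)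
  (nat_lit 49872) (nat_lit 11) nil (node (nat_lit 0) (nat_lit 47690) (nat_lit 11) nil nil))))
  (node (nat_lit 4) (nat_lit 46850) (nat_lit 10) (node (nat_lit 7) (nat_lit 46857) (nat_lit 11)
  (node (nat_lit 5) (nat_lit 46857) (nat_lit 12) (node (nat_lit 7) (nat_lit 46857) (nat_lit 13)
  (node (nat_lit 4) (nat_lit 46857) (nat_lit 14) nil nil) nil) (node (nat_lit 4) (nat_lit 46857)
  (nat_lit 12) nil nil)) (node (nat_lit 10) (nat_lit 49872) (nat_lit 11) nil (node (nat_lit 0)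
  (nat_lit 49872) (nat_lit 11) nil nil))) (node (nat_lit 0) (nat_lit 50065) (nat_lit 10) nil
  nil))) nil) (node (nat_lit 5) (nat_lit 42536) (nat_lit 8) (node (nat_lit 4) (nat_lit 42536)
  (nat_lit 9) (node (nat_lit 10) (nat_lit 44040) (nat_lit 10) nil nil) nil) (node (nat_lit 0)
  (nat_lit 43396) (nat_lit 8) nil nil))) nil) nil)) nil))

noncomputable def t250 : Tr :=
  (node (nat_lit 5) (nat_lit 0) (nat_lit 5) (node (nat_lit 3) (nat_lit 0) (nat_lit 6) (node
  (nat_lit 4) (nat_lit 0) (nat_lit 7) (node (nat_lit 9) (nat_lit 64105) (nat_lit 8) (node (nat_lit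
  5) (nat_lit 65114) (nat_lit 9) (node (nat_lit 4) (nat_lit 65114) (nat_lit 10) (node (nat_lit 5)
  (nat_lit 65114) (nat_lit 11) (node (nat_lit 9) (nat_lit 68466) (nat_lit 12) (node (nat_lit 4)
  (nat_lit 66106) (nat_lit 13) (node (nat_lit 5) (nat_lit 62907) (nat_lit 14) nil nil) nil) nil)
  (node (nat_lit 9) (nat_lit 65114) (nat_lit 11) (node (nat_lit 4) (nat_lit 70107) (nat_lit 12)
  (node (nat_lit 5) (nat_lit 72942) (nat_lit 13) nil nil) nil) (node (nat_lit 7) (nat_lit 70193)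
  (nat_lit 11) nil nil))) (node (nat_lit 9) (nat_lit 65114) (nat_lit 10) (node (nat_lit 4)
  (nat_lit 64999) (nat_lit 11) (node (nat_lit 5) (nat_lit 67260) (nat_lit 12) (node (nat_lit 4)
  (nat_lit 69577) (nat_lit 13) nil (node (nat_lit 9) (nat_lit 68316) (nat_lit 13) nil nil)) nil)
  nil) nil)) (node (nat_lit 7) (nat_lit 73597) (nat_lit 9) nil nil)) (node (nat_lit 5) (nat_lit
  63961) (nat_lit 8) (node (nat_lit 4) (nat_lit 64842) (nat_lit 9) (node (nat_lit 9) (nat_lit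
  65114) (nat_lit 10) (node (nat_lit 5) (nat_lit 65114) (nat_lit 11) (node (nat_lit 9) (nat_lit
  68466) (nat_lit 12) (node (nat_lit 4) (nat_lit 66106) (nat_lit 13) nil nil) (node (nat_lit 4)
  (nat_lit 65392) (nat_lit 12) nil nil)) (node (nat_lit 4) (nat_lit 65114) (nat_lit 11) (node
  (nat_lit 5) (nat_lit 68845) (nat_lit 12) (node (nat_lit 9) (nat_lit 69902) (nat_lit 13) nil nil)
  nil) nil)) (node (nat_lit 7) (nat_lit 22885) (nat_lit 10) nil nil)) (node (nat_lit 9) (nat_lit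
  64449) (nat_lit 9) (node (nat_lit 5) (nat_lit 64986) (nat_lit 10) (node (nat_lit 4) (nat_lit
  65114) (nat_lit 11) (node (nat_lit 9) (nat_lit 66395) (nat_lit 12) (node (nat_lit 4) (nat_lit
  66106) (nat_lit 13) (node (nat_lit 5) (nat_lit 62907) (nat_lit 14) nil nil) nil) (node (nat_lit
  5) (nat_lit 61977) (nat_lit 12) nil nil)) nil) nil) (node (nat_lit 7) (nat_lit 68343) (nat_lit
  9) nil nil))) (node (nat_lit 7) (nat_lit 74018) (nat_lit 8) nil (node (nat_lit 0) (nat_lit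
  71263) (nat_lit 8) nil nil)))) (node (nat_lit 5) (nat_lit 63386) (nat_lit 7) (node (nat_lit 4)
  (nat_lit 63386) (nat_lit 8) (node (nat_lit 9) (nat_lit 63386) (nat_lit 9) (node (nat_lit 5)
  (nat_lit 63386) (nat_lit 10) (node (nat_lit 9) (nat_lit 63386) (nat_lit 11) (node (nat_lit 4)
  (nat_lit 68428) (nat_lit 12) (node (nat_lit 5) (nat_lit 69488) (nat_lit 13) nil nil) nil) nil)
  (node (nat_lit 4) (nat_lit 63386) (nat_lit 10) (node (nat_lit 5) (nat_lit 64008) (nat_lit 11)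
  (node (nat_lit 4) (nat_lit 67451) (nat_lit 12) nil nil) nil) nil)) (node (nat_lit 5) (nat_lit
  63386) (nat_lit 9) (node (nat_lit 9) (nat_lit 63386) (nat_lit 10) (node (nat_lit 4) (nat_lit
  63464) (nat_lit 11) (node (nat_lit 5) (nat_lit 65338) (nat_lit 12) (node (nat_lit 4) (nat_lit
  66879) (nat_lit 13) nil nil) nil) nil) nil) nil)) (node (nat_lit 7) (nat_lit 74086) (nat_lit 8)
  nil nil)) (node (nat_lit 7) (nat_lit 72628) (nat_lit 7) (node (nat_lit 5) (nat_lit 72628)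
  (nat_lit 8) nil nil) (node (nat_lit 0) (nat_lit 65152) (nat_lit 7) nil nil)))) (node (nat_lit 4)
  (nat_lit 0) (nat_lit 6) (node (nat_lit 3) (nat_lit 0) (nat_lit 7) (node (nat_lit 5) (nat_lit
  64272) (nat_lit 8) (node (nat_lit 10) (nat_lit 64216) (nat_lit 9) (node (nat_lit 4) (nat_lit
  64013) (nat_lit 10) (node (nat_lit 5) (nat_lit 64635) (nat_lit 11) (node (nat_lit 4) (nat_lit
  69705) (nat_lit 12) (node (nat_lit 10) (nat_lit 70193) (nat_lit 13) (node (nat_lit 4) (nat_lit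
  69345) (nat_lit 14) (node (nat_lit 5) (nat_lit 66845) (nat_lit 15) nil nil) nil) (node (nat_lit
  7) (nat_lit 39049) (nat_lit 13) nil nil)) (node (nat_lit 10) (nat_lit 67568) (nat_lit 12) nil
  nil)) (node (nat_lit 10) (nat_lit 63480) (nat_lit 11) (node (nat_lit 5) (nat_lit 63989) (nat_lit
  12) nil nil) nil)) nil) (node (nat_lit 4) (nat_lit 64256) (nat_lit 9) (node (nat_lit 5) (nat_lit
  64054) (nat_lit 10) (node (nat_lit 10) (nat_lit 63577) (nat_lit 11) (node (nat_lit 4) (nat_lit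
  67052) (nat_lit 12) nil (node (nat_lit 5) (nat_lit 64931) (nat_lit 12) nil nil)) nil) nil) (node
  (nat_lit 7) (nat_lit 68653) (nat_lit 9) nil nil))) (node (nat_lit 4) (nat_lit 65090) (nat_lit 8)
  (node (nat_lit 5) (nat_lit 65240) (nat_lit 9) (node (nat_lit 10) (nat_lit 65240) (nat_lit 10)
  (node (nat_lit 5) (nat_lit 65173) (nat_lit 11) (node (nat_lit 4) (nat_lit 68453) (nat_lit 12)
  (node (nat_lit 5) (nat_lit 67238) (nat_lit 13) nil (node (nat_lit 10) (nat_lit 64133) (nat_lit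
  13) nil nil)) nil) (node (nat_lit 4) (nat_lit 65240) (nat_lit 11) (node (nat_lit 10) (nat_lit
  65517) (nat_lit 12) nil nil) nil)) (node (nat_lit 4) (nat_lit 65240) (nat_lit 10) (node (nat_lit
  10) (nat_lit 65240) (nat_lit 11) (node (nat_lit 5) (nat_lit 68391) (nat_lit 12) nil nil) (node
  (nat_lit 7) (nat_lit 41958) (nat_lit 11) nil nil)) nil)) (node (nat_lit 7) (nat_lit 69471)
  (nat_lit 9) nil nil)) (node (nat_lit 7) (nat_lit 72238) (nat_lit 8) nil (node (nat_lit 0)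
  (nat_lit 72238) (nat_lit 8) nil nil)))) (node (nat_lit 5) (nat_lit 63572) (nat_lit 7) (node
  (nat_lit 3) (nat_lit 63572) (nat_lit 8) (node (nat_lit 4) (nat_lit 63572) (nat_lit 9) (node
  (nat_lit 5) (nat_lit 63572) (nat_lit 10) (node (nat_lit 4) (nat_lit 64194) (nat_lit 11) (node
  (nat_lit 11) (nat_lit 64981) (nat_lit 12) nil nil) nil) (node (nat_lit 11) (nat_lit 63572)
  (nat_lit 10) (node (nat_lit 5) (nat_lit 63572) (nat_lit 11) nil nil) nil)) (node (nat_lit 5)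
  (nat_lit 63572) (nat_lit 9) (node (nat_lit 4) (nat_lit 63572) (nat_lit 10) (node (nat_lit 11)
  (nat_lit 64194) (nat_lit 11) (node (nat_lit 4) (nat_lit 66879) (nat_lit 12) (node (nat_lit 5)
  (nat_lit 69283) (nat_lit 13) (node (nat_lit 4) (nat_lit 70750) (nat_lit 14) nil nil) nil) nil)
  nil) nil) nil)) (node (nat_lit 7) (nat_lit 74086) (nat_lit 8) (node (nat_lit 5) (nat_lit 74086)
  (nat_lit 9) nil nil) nil)) (node (nat_lit 0) (nat_lit 65059) (nat_lit 7) nil nil))) (node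
  (nat_lit 7) (nat_lit 74515) (nat_lit 6) (node (nat_lit 4) (nat_lit 74515) (nat_lit 7) (node
  (nat_lit 3) (nat_lit 74515) (nat_lit 8) nil (node (nat_lit 5) (nat_lit 74515) (nat_lit 8) nil
  nil)) (node (nat_lit 3) (nat_lit 74515) (nat_lit 7) (node (nat_lit 4) (nat_lit 74515) (nat_lit
  8) nil (node (nat_lit 5) (nat_lit 74515) (nat_lit 8) nil nil)) nil)) (node (nat_lit 0) (nat_lit
  62614) (nat_lit 6) nil nil)))) (node (nat_lit 3) (nat_lit 0) (nat_lit 5) (node (nat_lit 4)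
  (nat_lit 0) (nat_lit 6) (node (nat_lit 5) (nat_lit 0) (nat_lit 7) (node (nat_lit 4) (nat_lit
  64160) (nat_lit 8) (node (nat_lit 8) (nat_lit 64919) (nat_lit 9) (node (nat_lit 5) (nat_lit
  65023) (nat_lit 10) (node (nat_lit 8) (nat_lit 65023) (nat_lit 11) (node (nat_lit 4) (nat_lit
  70168) (nat_lit 12) (node (nat_lit 8) (nat_lit 70385) (nat_lit 13) nil (node (nat_lit 5)
  (nat_lit 71228) (nat_lit 13) nil nil)) nil) (node (nat_lit 4) (nat_lit 65059) (nat_lit 11) (node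
  (nat_lit 5) (nat_lit 69901) (nat_lit 12) nil nil) nil)) (node (nat_lit 4) (nat_lit 65023)
  (nat_lit 10) (node (nat_lit 5) (nat_lit 65023) (nat_lit 11) (node (nat_lit 8) (nat_lit 66377)
  (nat_lit 12) nil nil) (node (nat_lit 7) (nat_lit 70102) (nat_lit 11) nil nil)) nil)) nil) (node
  (nat_lit 8) (nat_lit 63811) (nat_lit 8) (node (nat_lit 5) (nat_lit 64282) (nat_lit 9) (node
  (nat_lit 4) (nat_lit 64624) (nat_lit 10) (node (nat_lit 8) (nat_lit 65023) (nat_lit 11) (node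
  (nat_lit 4) (nat_lit 67930) (nat_lit 12) (node (nat_lit 5) (nat_lit 70335) (nat_lit 13) (node
  (nat_lit 4) (nat_lit 71801) (nat_lit 14) nil nil) nil) (node (nat_lit 5) (nat_lit 67956)
  (nat_lit 12) nil nil)) (node (nat_lit 5) (nat_lit 65102) (nat_lit 11) (node (nat_lit 8) (nat_lit
  69512) (nat_lit 12) nil nil) nil)) nil) (node (nat_lit 4) (nat_lit 63811) (nat_lit 9) (node
  (nat_lit 8) (nat_lit 63811) (nat_lit 10) (node (nat_lit 5) (nat_lit 63811) (nat_lit 11) nil nil)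
  nil) (node (nat_lit 7) (nat_lit 68193) (nat_lit 9) nil nil))) (node (nat_lit 7) (nat_lit 75447)
  (nat_lit 8) nil (node (nat_lit 0) (nat_lit 71510) (nat_lit 8) nil nil)))) (node (nat_lit 8)
  (nat_lit 63302) (nat_lit 7) (node (nat_lit 5) (nat_lit 63973) (nat_lit 8) (node (nat_lit 4)
  (nat_lit 63958) (nat_lit 9) (node (nat_lit 5) (nat_lit 63958) (nat_lit 10) (node (nat_lit 8)
  (nat_lit 64037) (nat_lit 11) (node (nat_lit 4) (nat_lit 67355) (nat_lit 12) (node (nat_lit 5)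
  (nat_lit 69263) (nat_lit 13) (node (nat_lit 4) (nat_lit 69987) (nat_lit 14) nil nil) nil) nil)
  nil) (node (nat_lit 8) (nat_lit 64494) (nat_lit 10) (node (nat_lit 4) (nat_lit 64055) (nat_lit
  11) (node (nat_lit 5) (nat_lit 67274) (nat_lit 12) (node (nat_lit 4) (nat_lit 69160) (nat_lit
  13) nil nil) nil) nil) nil)) (node (nat_lit 8) (nat_lit 63973) (nat_lit 9) (node (nat_lit 4)
  (nat_lit 63973) (nat_lit 10) nil nil) nil)) (node (nat_lit 7) (nat_lit 75407) (nat_lit 8) nil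
  nil)) (node (nat_lit 7) (nat_lit 72657) (nat_lit 7) nil (node (nat_lit 0) (nat_lit 65180)
  (nat_lit 7) nil nil)))) (node (nat_lit 5) (nat_lit 0) (nat_lit 6) (node (nat_lit 4) (nat_lit 0)
  (nat_lit 7) (node (nat_lit 5) (nat_lit 64682) (nat_lit 8) (node (nat_lit 8) (nat_lit 65023)
  (nat_lit 9) (node (nat_lit 4) (nat_lit 65023) (nat_lit 10) (node (nat_lit 8) (nat_lit 64920)
  (nat_lit 11) (node (nat_lit 5) (nat_lit 69346) (nat_lit 12) (node (nat_lit 8) (nat_lit 71891)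
  (nat_lit 13) (node (nat_lit 4) (nat_lit 70609) (nat_lit 14) (node (nat_lit 5) (nat_lit 68476)
  (nat_lit 15) nil nil) nil) (node (nat_lit 4) (nat_lit 66898) (nat_lit 13) nil nil)) nil) (node
  (nat_lit 5) (nat_lit 65023) (nat_lit 11) (node (nat_lit 4) (nat_lit 68032) (nat_lit 12) (node
  (nat_lit 7) (nat_lit 45934) (nat_lit 13) nil nil) nil) nil)) (node (nat_lit 5) (nat_lit 65023)
  (nat_lit 10) (node (nat_lit 4) (nat_lit 65023) (nat_lit 11) (node (nat_lit 8) (nat_lit 67124)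
  (nat_lit 12) (node (nat_lit 5) (nat_lit 64676) (nat_lit 13) nil nil) nil) nil) nil)) (node
  (nat_lit 7) (nat_lit 74174) (nat_lit 9) nil nil)) (node (nat_lit 8) (nat_lit 64541) (nat_lit 8)
  (node (nat_lit 4) (nat_lit 65023) (nat_lit 9) (node (nat_lit 5) (nat_lit 65023) (nat_lit 10)
  (node (nat_lit 8) (nat_lit 65023) (nat_lit 11) (node (nat_lit 4) (nat_lit 67956) (nat_lit 12)
  nil (node (nat_lit 5) (nat_lit 65420) (nat_lit 12) nil nil)) (node (nat_lit 4) (nat_lit 65023)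
  (nat_lit 11) (node (nat_lit 7) (nat_lit 28594) (nat_lit 12) (node (nat_lit 8) (nat_lit 27536)
  (nat_lit 13) nil nil) (node (nat_lit 8) (nat_lit 66122) (nat_lit 12) nil nil)) nil)) nil) (node
  (nat_lit 5) (nat_lit 65023) (nat_lit 9) (node (nat_lit 8) (nat_lit 65023) (nat_lit 10) (node
  (nat_lit 4) (nat_lit 65023) (nat_lit 11) (node (nat_lit 5) (nat_lit 67582) (nat_lit 12) (node
  (nat_lit 4) (nat_lit 69704) (nat_lit 13) nil nil) (node (nat_lit 8) (nat_lit 66377) (nat_lit 12)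
  nil nil)) nil) nil) (node (nat_lit 7) (nat_lit 68923) (nat_lit 9) nil nil))) (node (nat_lit 7)
  (nat_lit 75447) (nat_lit 8) (node (nat_lit 4) (nat_lit 75447) (nat_lit 9) nil nil) (node
  (nat_lit 0) (nat_lit 71992) (nat_lit 8) nil nil)))) (node (nat_lit 8) (nat_lit 63389) (nat_lit
  7) (node (nat_lit 4) (nat_lit 63389) (nat_lit 8) (node (nat_lit 5) (nat_lit 63389) (nat_lit 9)
  (node (nat_lit 4) (nat_lit 63389) (nat_lit 10) (node (nat_lit 8) (nat_lit 63389) (nat_lit 11)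
  nil nil) (node (nat_lit 8) (nat_lit 63389) (nat_lit 10) (node (nat_lit 5) (nat_lit 63389)
  (nat_lit 11) nil nil) nil)) (node (nat_lit 8) (nat_lit 63389) (nat_lit 9) (node (nat_lit 5)
  (nat_lit 63389) (nat_lit 10) nil nil) nil)) (node (nat_lit 7) (nat_lit 75447) (nat_lit 8) nil
  nil)) (node (nat_lit 7) (nat_lit 73656) (nat_lit 7) (node (nat_lit 8) (nat_lit 73656) (nat_lit
  8) nil nil) (node (nat_lit 0) (nat_lit 65254) (nat_lit 7) nil nil)))) (node (nat_lit 7) (nat_lit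
  76364) (nat_lit 6) (node (nat_lit 5) (nat_lit 76364) (nat_lit 7) (node (nat_lit 4) (nat_lit
  76364) (nat_lit 8) (node (nat_lit 8) (nat_lit 76364) (nat_lit 9) (node (nat_lit 5) (nat_lit
  76364) (nat_lit 10) (node (nat_lit 8) (nat_lit 76364) (nat_lit 11) (node (nat_lit 4) (nat_lit
  76364) (nat_lit 12) (node (nat_lit 5) (nat_lit 76364) (nat_lit 13) (node (nat_lit 4) (nat_lit
  77631) (nat_lit 14) nil nil) nil) nil) nil) nil) nil) (node (nat_lit 8) (nat_lit 76364) (nat_lit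
  8) nil nil)) (node (nat_lit 4) (nat_lit 76364) (nat_lit 7) (node (nat_lit 5) (nat_lit 76364)
  (nat_lit 8) (node (nat_lit 8) (nat_lit 76364) (nat_lit 9) nil nil) (node (nat_lit 8) (nat_lit
  76364) (nat_lit 8) nil nil)) nil)) (node (nat_lit 0) (nat_lit 65642) (nat_lit 6) nil nil))))
  (node (nat_lit 4) (nat_lit 0) (nat_lit 5) (node (nat_lit 5) (nat_lit 61770) (nat_lit 6) (node
  (nat_lit 3) (nat_lit 0) (nat_lit 7) (node (nat_lit 5) (nat_lit 64970) (nat_lit 8) (node (nat_lit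
  4) (nat_lit 65206) (nat_lit 9) (node (nat_lit 10) (nat_lit 65206) (nat_lit 10) (node (nat_lit 4)
  (nat_lit 65206) (nat_lit 11) (node (nat_lit 5) (nat_lit 70458) (nat_lit 12) (node (nat_lit 4)
  (nat_lit 72084) (nat_lit 13) (node (nat_lit 10) (nat_lit 69004) (nat_lit 14) nil nil) (node
  (nat_lit 10) (nat_lit 71515) (nat_lit 13) nil nil)) nil) (node (nat_lit 5) (nat_lit 65206)
  (nat_lit 11) (node (nat_lit 10) (nat_lit 68619) (nat_lit 12) nil nil) nil)) (node (nat_lit 5)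
  (nat_lit 65206) (nat_lit 10) (node (nat_lit 10) (nat_lit 65249) (nat_lit 11) (node (nat_lit 4)
  (nat_lit 68575) (nat_lit 12) (node (nat_lit 5) (nat_lit 69997) (nat_lit 13) (node (nat_lit 4)
  (nat_lit 70720) (nat_lit 14) nil nil) (node (nat_lit 10) (nat_lit 69631) (nat_lit 13) nil nil))
  nil) nil) nil)) (node (nat_lit 7) (nat_lit 69352) (nat_lit 9) nil (node (nat_lit 0) (nat_lit
  69352) (nat_lit 9) nil nil))) (node (nat_lit 4) (nat_lit 64881) (nat_lit 8) (node (nat_lit 10)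
  (nat_lit 65206) (nat_lit 9) (node (nat_lit 5) (nat_lit 65206) (nat_lit 10) (node (nat_lit 4)
  (nat_lit 65206) (nat_lit 11) (node (nat_lit 5) (nat_lit 62069) (nat_lit 12) nil (node (nat_lit
  10) (nat_lit 68619) (nat_lit 12) (node (nat_lit 4) (nat_lit 66914) (nat_lit 13) (node (nat_lit
  5) (nat_lit 63341) (nat_lit 14) nil nil) nil) nil)) (node (nat_lit 10) (nat_lit 65206) (nat_lit
  11) (node (nat_lit 4) (nat_lit 69526) (nat_lit 12) nil nil) nil)) nil) (node (nat_lit 5)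
  (nat_lit 65206) (nat_lit 9) (node (nat_lit 4) (nat_lit 65206) (nat_lit 10) (node (nat_lit 10)
  (nat_lit 65206) (nat_lit 11) (node (nat_lit 4) (nat_lit 68677) (nat_lit 12) nil nil) (node
  (nat_lit 7) (nat_lit 35945) (nat_lit 11) nil nil)) nil) (node (nat_lit 7) (nat_lit 69263)
  (nat_lit 9) nil nil))) (node (nat_lit 7) (nat_lit 72207) (nat_lit 8) nil (node (nat_lit 0)
  (nat_lit 72207) (nat_lit 8) nil nil)))) (node (nat_lit 4) (nat_lit 63001) (nat_lit 7) (node
  (nat_lit 3) (nat_lit 63001) (nat_lit 8) (node (nat_lit 5) (nat_lit 63001) (nat_lit 9) (node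
  (nat_lit 4) (nat_lit 63001) (nat_lit 10) (node (nat_lit 5) (nat_lit 63622) (nat_lit 11) (node
  (nat_lit 11) (nat_lit 66307) (nat_lit 12) (node (nat_lit 5) (nat_lit 68712) (nat_lit 13) (node
  (nat_lit 4) (nat_lit 68366) (nat_lit 14) (node (nat_lit 11) (nat_lit 68316) (nat_lit 15) (node
  (nat_lit 4) (nat_lit 67711) (nat_lit 16) (node (nat_lit 5) (nat_lit 67174) (nat_lit 17) (node
  (nat_lit 4) (nat_lit 65169) (nat_lit 18) nil nil) nil) nil) nil) nil) nil) nil) nil) (node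
  (nat_lit 11) (nat_lit 63001) (nat_lit 10) (node (nat_lit 4) (nat_lit 63001) (nat_lit 11) (node
  (nat_lit 5) (nat_lit 65170) (nat_lit 12) nil nil) nil) nil)) (node (nat_lit 4) (nat_lit 63001)
  (nat_lit 9) (node (nat_lit 5) (nat_lit 63001) (nat_lit 10) nil nil) nil)) nil) (node (nat_lit 7)
  (nat_lit 73407) (nat_lit 7) nil nil))) (node (nat_lit 3) (nat_lit 62006) (nat_lit 6) (node
  (nat_lit 5) (nat_lit 0) (nat_lit 7) (node (nat_lit 4) (nat_lit 65068) (nat_lit 8) (node (nat_lit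
  5) (nat_lit 65251) (nat_lit 9) (node (nat_lit 9) (nat_lit 65251) (nat_lit 10) (node (nat_lit 4)
  (nat_lit 65251) (nat_lit 11) (node (nat_lit 5) (nat_lit 67725) (nat_lit 12) (node (nat_lit 4)
  (nat_lit 68648) (nat_lit 13) (node (nat_lit 7) (nat_lit 54768) (nat_lit 14) nil nil) nil) (node
  (nat_lit 9) (nat_lit 65529) (nat_lit 12) nil nil)) (node (nat_lit 5) (nat_lit 65251) (nat_lit
  11) (node (nat_lit 4) (nat_lit 67151) (nat_lit 12) nil nil) nil)) nil) (node (nat_lit 9)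
  (nat_lit 65068) (nat_lit 9) (node (nat_lit 4) (nat_lit 65068) (nat_lit 10) (node (nat_lit 5)
  (nat_lit 65068) (nat_lit 11) nil nil) nil) (node (nat_lit 7) (nat_lit 69449) (nat_lit 9) nil
  nil))) (node (nat_lit 9) (nat_lit 65164) (nat_lit 8) (node (nat_lit 4) (nat_lit 65251) (nat_lit
  9) (node (nat_lit 5) (nat_lit 65251) (nat_lit 10) (node (nat_lit 4) (nat_lit 65251) (nat_lit 11)
  (node (nat_lit 9) (nat_lit 68619) (nat_lit 12) (node (nat_lit 4) (nat_lit 66914) (nat_lit 13)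
  (node (nat_lit 5) (nat_lit 63341) (nat_lit 14) nil nil) nil) (node (nat_lit 7) (nat_lit 33972)
  (nat_lit 12) nil nil)) (node (nat_lit 9) (nat_lit 65251) (nat_lit 11) (node (nat_lit 5) (nat_lit
  65647) (nat_lit 12) nil nil) nil)) (node (nat_lit 9) (nat_lit 65251) (nat_lit 10) (node (nat_lit
  5) (nat_lit 65280) (nat_lit 11) (node (nat_lit 4) (nat_lit 66459) (nat_lit 12) nil nil) nil)
  nil)) (node (nat_lit 7) (nat_lit 69546) (nat_lit 9) nil nil)) (node (nat_lit 7) (nat_lit 72280)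
  (nat_lit 8) nil (node (nat_lit 0) (nat_lit 67755) (nat_lit 8) nil nil)))) (node (nat_lit 4)
  (nat_lit 63662) (nat_lit 7) (node (nat_lit 5) (nat_lit 63662) (nat_lit 8) (node (nat_lit 9)
  (nat_lit 63662) (nat_lit 9) (node (nat_lit 4) (nat_lit 63662) (nat_lit 10) (node (nat_lit 9)
  (nat_lit 63596) (nat_lit 11) (node (nat_lit 5) (nat_lit 64104) (nat_lit 12) (node (nat_lit 9)
  (nat_lit 67591) (nat_lit 13) (node (nat_lit 4) (nat_lit 68892) (nat_lit 14) (node (nat_lit 5)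
  (nat_lit 66124) (nat_lit 15) (node (nat_lit 4) (nat_lit 62238) (nat_lit 16) nil nil) nil) nil)
  nil) nil) nil) (node (nat_lit 5) (nat_lit 63662) (nat_lit 10) (node (nat_lit 4) (nat_lit 63662)
  (nat_lit 11) nil nil) nil)) (node (nat_lit 4) (nat_lit 63662) (nat_lit 9) (node (nat_lit 9)
  (nat_lit 63662) (nat_lit 10) nil (node (nat_lit 7) (nat_lit 30439) (nat_lit 10) nil nil)) nil))
  (node (nat_lit 7) (nat_lit 72066) (nat_lit 8) nil nil)) (node (nat_lit 7) (nat_lit 72718)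
  (nat_lit 7) nil nil))) (node (nat_lit 0) (nat_lit 62502) (nat_lit 6) nil nil))) (node (nat_lit
  0) (nat_lit 0) (nat_lit 5) (node (nat_lit 3) (nat_lit 68447) (nat_lit 6) nil (node (nat_lit 5)
  (nat_lit 68447) (nat_lit 6) nil (node (nat_lit 0) (nat_lit 70737) (nat_lit 6) nil (node (nat_lit
  7) (nat_lit 70737) (nat_lit 6) nil (node (nat_lit 4) (nat_lit 68447) (nat_lit 6) nil nil)))))
  nil))))

noncomputable def c39 : Tr :=
  (node (nat_lit 3) (nat_lit 0) (nat_lit 1) (node (nat_lit 3) (nat_lit 0) (nat_lit 2) (node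
  (nat_lit 3) (nat_lit 0) (nat_lit 3) t247 (node (nat_lit 4) (nat_lit 0) (nat_lit 3) (node
  (nat_lit 3) (nat_lit 0) (nat_lit 4) (node (nat_lit 0) (nat_lit 0) (nat_lit 5) t248 t249) (node
  (nat_lit 0) (nat_lit 0) (nat_lit 4) t250 nil)) nil)) nil) nil)

noncomputable def t258 : Tr :=
  (node (nat_lit 5) (nat_lit 0) (nat_lit 10) (node (nat_lit 4) (nat_lit 0) (nat_lit 11) (node
  (nat_lit 6) (nat_lit 0) (nat_lit 12) (node (nat_lit 5) (nat_lit 0) (nat_lit 13) (node (nat_lit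
  6) (nat_lit 0) (nat_lit 14) (node (nat_lit 4) (nat_lit 0) (nat_lit 15) (node (nat_lit 5)
  (nat_lit 0) (nat_lit 16) (node (nat_lit 4) (nat_lit 69233) (nat_lit 17) (node (nat_lit 6)
  (nat_lit 70395) (nat_lit 18) (node (nat_lit 4) (nat_lit 71043) (nat_lit 19) (node (nat_lit 5)
  (nat_lit 71549) (nat_lit 20) (node (nat_lit 6) (nat_lit 71678) (nat_lit 21) (node (nat_lit 4)
  (nat_lit 68909) (nat_lit 22) (node (nat_lit 6) (nat_lit 68775) (nat_lit 23) (node (nat_lit 5)
  (nat_lit 67392) (nat_lit 24) (node (nat_lit 4) (nat_lit 66839) (nat_lit 25) (node (nat_lit 5)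
  (nat_lit 64494) (nat_lit 26) (node (nat_lit 6) (nat_lit 61452) (nat_lit 27) (node (nat_lit 5)
  (nat_lit 57297) (nat_lit 28) (node (nat_lit 4) (nat_lit 51503) (nat_lit 29) (node (nat_lit 6)
  (nat_lit 38596) (nat_lit 30) (node (nat_lit 5) (nat_lit 23346) (nat_lit 31) (node (nat_lit 6)
  (nat_lit 23355) (nat_lit 32) (node (nat_lit 4) (nat_lit 23363) (nat_lit 33) nil nil) nil) nil)
  nil) nil) nil) nil) nil) nil) nil) nil) nil) nil) nil) (node (nat_lit 5) (nat_lit 71223)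
  (nat_lit 19) (node (nat_lit 4) (nat_lit 71765) (nat_lit 20) (node (nat_lit 5) (nat_lit 72185)
  (nat_lit 21) (node (nat_lit 6) (nat_lit 72513) (nat_lit 22) (node (nat_lit 4) (nat_lit 72770)
  (nat_lit 23) (node (nat_lit 6) (nat_lit 70205) (nat_lit 24) (node (nat_lit 5) (nat_lit 69095)
  (nat_lit 25) nil nil) nil) nil) nil) nil) nil) nil)) nil) (node (nat_lit 6) (nat_lit 69177)
  (nat_lit 17) (node (nat_lit 5) (nat_lit 69899) (nat_lit 18) (node (nat_lit 4) (nat_lit 70613)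
  (nat_lit 19) (node (nat_lit 5) (nat_lit 71150) (nat_lit 20) (node (nat_lit 6) (nat_lit 71571)
  (nat_lit 21) (node (nat_lit 4) (nat_lit 71898) (nat_lit 22) (node (nat_lit 6) (nat_lit 68703)
  (nat_lit 23) (node (nat_lit 5) (nat_lit 67409) (nat_lit 24) nil nil) nil) nil) nil) (node
  (nat_lit 6) (nat_lit 70975) (nat_lit 20) nil nil)) nil) nil) (node (nat_lit 0) (nat_lit 69310)
  (nat_lit 17) nil nil))) (node (nat_lit 6) (nat_lit 0) (nat_lit 16) (node (nat_lit 5) (nat_lit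
  69269) (nat_lit 17) (node (nat_lit 4) (nat_lit 70390) (nat_lit 18) (node (nat_lit 5) (nat_lit 0)
  (nat_lit 19) (node (nat_lit 6) (nat_lit 71863) (nat_lit 20) (node (nat_lit 4) (nat_lit 72368)
  (nat_lit 21) (node (nat_lit 6) (nat_lit 72696) (nat_lit 22) (node (nat_lit 5) (nat_lit 72953)
  (nat_lit 23) (node (nat_lit 6) (nat_lit 73103) (nat_lit 24) nil nil) nil) (node (nat_lit 5)
  (nat_lit 72636) (nat_lit 22) (node (nat_lit 4) (nat_lit 72763) (nat_lit 23) (node (nat_lit 6)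
  (nat_lit 72772) (nat_lit 24) nil nil) nil) nil)) (node (nat_lit 0) (nat_lit 72416) (nat_lit 21)
  nil nil)) (node (nat_lit 0) (nat_lit 71926) (nat_lit 20) nil nil)) (node (nat_lit 6) (nat_lit
  71227) (nat_lit 19) (node (nat_lit 4) (nat_lit 71733) (nat_lit 20) (node (nat_lit 5) (nat_lit
  72128) (nat_lit 21) (node (nat_lit 6) (nat_lit 72229) (nat_lit 22) (node (nat_lit 4) (nat_lit
  72471) (nat_lit 23) (node (nat_lit 6) (nat_lit 72533) (nat_lit 24) (node (nat_lit 5) (nat_lit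
  68714) (nat_lit 25) nil nil) nil) nil) nil) nil) nil) nil)) nil) (node (nat_lit 0) (nat_lit
  69402) (nat_lit 17) nil nil)) (node (nat_lit 0) (nat_lit 68655) (nat_lit 16) nil nil))) (node
  (nat_lit 0) (nat_lit 66907) (nat_lit 15) (node (nat_lit 5) (nat_lit 66371) (nat_lit 16) (node
  (nat_lit 6) (nat_lit 67666) (nat_lit 17) nil (node (nat_lit 4) (nat_lit 66364) (nat_lit 17) nil
  nil)) (node (nat_lit 6) (nat_lit 67576) (nat_lit 16) (node (nat_lit 5) (nat_lit 68413) (nat_lit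
  17) nil (node (nat_lit 4) (nat_lit 68413) (nat_lit 17) nil nil)) (node (nat_lit 4) (nat_lit
  66927) (nat_lit 16) nil nil))) nil)) (node (nat_lit 0) (nat_lit 64824) (nat_lit 14) (node
  (nat_lit 5) (nat_lit 65679) (nat_lit 15) (node (nat_lit 4) (nat_lit 67696) (nat_lit 16) (node
  (nat_lit 6) (nat_lit 68302) (nat_lit 17) nil (node (nat_lit 5) (nat_lit 68533) (nat_lit 17) nil
  nil)) (node (nat_lit 6) (nat_lit 67423) (nat_lit 16) (node (nat_lit 4) (nat_lit 68260) (nat_lit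
  17) nil (node (nat_lit 5) (nat_lit 66848) (nat_lit 17) nil nil)) nil)) (node (nat_lit 6)
  (nat_lit 65679) (nat_lit 15) (node (nat_lit 5) (nat_lit 66867) (nat_lit 16) nil (node (nat_lit
  4) (nat_lit 66774) (nat_lit 16) nil nil)) (node (nat_lit 4) (nat_lit 65921) (nat_lit 15) (node
  (nat_lit 5) (nat_lit 66459) (nat_lit 16) (node (nat_lit 4) (nat_lit 66453) (nat_lit 17) nil nil)
  (node (nat_lit 6) (nat_lit 66745) (nat_lit 16) nil nil)) nil))) nil)) (node (nat_lit 4) (nat_lit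
  0) (nat_lit 13) (node (nat_lit 5) (nat_lit 0) (nat_lit 14) (node (nat_lit 6) (nat_lit 0)
  (nat_lit 15) (node (nat_lit 4) (nat_lit 0) (nat_lit 16) (node (nat_lit 6) (nat_lit 0) (nat_lit
  17) (node (nat_lit 5) (nat_lit 0) (nat_lit 18) (node (nat_lit 4) (nat_lit 56919) (nat_lit 19)
  (node (nat_lit 5) (nat_lit 23977) (nat_lit 20) (node (nat_lit 6) (nat_lit 24224) (nat_lit 21)
  (node (nat_lit 4) (nat_lit 24418) (nat_lit 22) nil nil) nil) (node (nat_lit 6) (nat_lit 57565)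
  (nat_lit 20) (node (nat_lit 4) (nat_lit 58042) (nat_lit 21) (node (nat_lit 5) (nat_lit 58350)
  (nat_lit 22) nil nil) nil) nil)) (node (nat_lit 6) (nat_lit 64716) (nat_lit 19) (node (nat_lit
  4) (nat_lit 65114) (nat_lit 20) (node (nat_lit 5) (nat_lit 65424) (nat_lit 21) nil nil) nil)
  (node (nat_lit 0) (nat_lit 64934) (nat_lit 19) nil nil))) (node (nat_lit 0) (nat_lit 70733)
  (nat_lit 18) nil nil)) (node (nat_lit 0) (nat_lit 69716) (nat_lit 17) nil nil)) (node (nat_lit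
  5) (nat_lit 0) (nat_lit 16) (node (nat_lit 4) (nat_lit 0) (nat_lit 17) (node (nat_lit 5)
  (nat_lit 70172) (nat_lit 18) (node (nat_lit 6) (nat_lit 70863) (nat_lit 19) (node (nat_lit 4)
  (nat_lit 71400) (nat_lit 20) (node (nat_lit 6) (nat_lit 71820) (nat_lit 21) (node (nat_lit 5)
  (nat_lit 72148) (nat_lit 22) (node (nat_lit 4) (nat_lit 72213) (nat_lit 23) (node (nat_lit 5)
  (nat_lit 57257) (nat_lit 24) (node (nat_lit 6) (nat_lit 50429) (nat_lit 25) (node (nat_lit 5)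
  (nat_lit 47840) (nat_lit 26) (node (nat_lit 4) (nat_lit 47807) (nat_lit 27) (node (nat_lit 6)
  (nat_lit 47818) (nat_lit 28) (node (nat_lit 4) (nat_lit 47818) (nat_lit 29) (node (nat_lit 5)
  (nat_lit 47825) (nat_lit 30) (node (nat_lit 6) (nat_lit 47775) (nat_lit 31) nil nil) nil) nil)
  nil) nil) nil) nil) nil) nil) nil) nil) nil) nil) (node (nat_lit 0) (nat_lit 70454) (nat_lit 18)
  nil nil)) (node (nat_lit 0) (nat_lit 69620) (nat_lit 17) nil nil)) (node (nat_lit 0) (nat_lit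
  68670) (nat_lit 16) (node (nat_lit 5) (nat_lit 68457) (nat_lit 17) nil (node (nat_lit 6)
  (nat_lit 68964) (nat_lit 17) nil (node (nat_lit 4) (nat_lit 68670) (nat_lit 17) nil nil)))
  nil))) (node (nat_lit 4) (nat_lit 0) (nat_lit 15) (node (nat_lit 6) (nat_lit 0) (nat_lit 16)
  (node (nat_lit 5) (nat_lit 69324) (nat_lit 17) (node (nat_lit 6) (nat_lit 70385) (nat_lit 18)
  (node (nat_lit 4) (nat_lit 70767) (nat_lit 19) (node (nat_lit 5) (nat_lit 71165) (nat_lit 20)
  nil nil) nil) (node (nat_lit 4) (nat_lit 0) (nat_lit 18) (node (nat_lit 5) (nat_lit 71218)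
  (nat_lit 19) (node (nat_lit 6) (nat_lit 71755) (nat_lit 20) (node (nat_lit 4) (nat_lit 72176)
  (nat_lit 21) (node (nat_lit 6) (nat_lit 72503) (nat_lit 22) (node (nat_lit 5) (nat_lit 66735)
  (nat_lit 23) (node (nat_lit 4) (nat_lit 65520) (nat_lit 24) nil nil) nil) nil) nil) nil) (node
  (nat_lit 0) (nat_lit 71298) (nat_lit 19) nil nil)) nil)) (node (nat_lit 0) (nat_lit 69458)
  (nat_lit 17) nil nil)) (node (nat_lit 0) (nat_lit 68558) (nat_lit 16) nil nil)) (node (nat_lit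
  0) (nat_lit 66960) (nat_lit 15) (node (nat_lit 4) (nat_lit 66980) (nat_lit 16) (node (nat_lit 5)
  (nat_lit 67817) (nat_lit 17) nil nil) (node (nat_lit 5) (nat_lit 66424) (nat_lit 16) (node
  (nat_lit 4) (nat_lit 66417) (nat_lit 17) nil (node (nat_lit 6) (nat_lit 66548) (nat_lit 17) nil
  nil)) (node (nat_lit 6) (nat_lit 67629) (nat_lit 16) (node (nat_lit 5) (nat_lit 68466) (nat_lit
  17) nil nil) nil))) nil))) (node (nat_lit 0) (nat_lit 65030) (nat_lit 14) (node (nat_lit 4)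
  (nat_lit 65053) (nat_lit 15) (node (nat_lit 6) (nat_lit 66418) (nat_lit 16) nil (node (nat_lit
  5) (nat_lit 65858) (nat_lit 16) nil nil)) (node (nat_lit 6) (nat_lit 65885) (nat_lit 15) nil
  (node (nat_lit 5) (nat_lit 64340) (nat_lit 15) nil nil))) nil)) (node (nat_lit 0) (nat_lit
  62351) (nat_lit 13) (node (nat_lit 5) (nat_lit 63449) (nat_lit 14) (node (nat_lit 4) (nat_lit
  65921) (nat_lit 15) (node (nat_lit 5) (nat_lit 66996) (nat_lit 16) nil (node (nat_lit 6)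
  (nat_lit 64513) (nat_lit 16) nil nil)) (node (nat_lit 6) (nat_lit 65679) (nat_lit 15) (node
  (nat_lit 5) (nat_lit 65279) (nat_lit 16) (node (nat_lit 4) (nat_lit 65033) (nat_lit 17) nil nil)
  nil) nil)) (node (nat_lit 6) (nat_lit 63534) (nat_lit 14) (node (nat_lit 5) (nat_lit 65052)
  (nat_lit 15) (node (nat_lit 4) (nat_lit 66422) (nat_lit 16) nil (node (nat_lit 6) (nat_lit
  66128) (nat_lit 16) nil nil)) (node (nat_lit 4) (nat_lit 66006) (nat_lit 15) (node (nat_lit 5)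
  (nat_lit 67082) (nat_lit 16) nil (node (nat_lit 6) (nat_lit 66162) (nat_lit 16) nil nil)) nil))
  (node (nat_lit 4) (nat_lit 63650) (nat_lit 14) (node (nat_lit 6) (nat_lit 65881) (nat_lit 15)
  (node (nat_lit 4) (nat_lit 66956) (nat_lit 16) nil nil) (node (nat_lit 5) (nat_lit 65167)
  (nat_lit 15) (node (nat_lit 4) (nat_lit 65155) (nat_lit 16) nil nil) nil)) (node (nat_lit 0)
  (nat_lit 64347) (nat_lit 14) nil nil)))) nil))) (node (nat_lit 0) (nat_lit 58528) (nat_lit 12)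
  (node (nat_lit 5) (nat_lit 59931) (nat_lit 13) (node (nat_lit 4) (nat_lit 62994) (nat_lit 14)
  (node (nat_lit 5) (nat_lit 64370) (nat_lit 15) nil (node (nat_lit 6) (nat_lit 61128) (nat_lit
  15) nil nil)) (node (nat_lit 6) (nat_lit 62793) (nat_lit 14) (node (nat_lit 5) (nat_lit 62231)
  (nat_lit 15) (node (nat_lit 4) (nat_lit 61938) (nat_lit 16) nil nil) (node (nat_lit 4) (nat_lit
  64168) (nat_lit 15) nil nil)) (node (nat_lit 15) (nat_lit 63070) (nat_lit 14) nil nil))) (node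
  (nat_lit 4) (nat_lit 60082) (nat_lit 13) (node (nat_lit 5) (nat_lit 62943) (nat_lit 14) (node
  (nat_lit 6) (nat_lit 63125) (nat_lit 15) nil (node (nat_lit 4) (nat_lit 62929) (nat_lit 15) nil
  nil)) (node (nat_lit 6) (nat_lit 63525) (nat_lit 14) (node (nat_lit 5) (nat_lit 65042) (nat_lit
  15) nil (node (nat_lit 4) (nat_lit 64900) (nat_lit 15) nil nil)) nil)) (node (nat_lit 6)
  (nat_lit 60445) (nat_lit 13) (node (nat_lit 5) (nat_lit 63307) (nat_lit 14) (node (nat_lit 6)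
  (nat_lit 64683) (nat_lit 15) nil (node (nat_lit 4) (nat_lit 63271) (nat_lit 15) nil nil)) (node
  (nat_lit 4) (nat_lit 63508) (nat_lit 14) (node (nat_lit 6) (nat_lit 64173) (nat_lit 15) (node
  (nat_lit 5) (nat_lit 63395) (nat_lit 16) nil nil) (node (nat_lit 5) (nat_lit 64884) (nat_lit 15)
  nil nil)) (node (nat_lit 15) (nat_lit 63584) (nat_lit 14) nil nil))) (node (nat_lit 0) (nat_lit
  61694) (nat_lit 13) nil nil)))) nil)) (node (nat_lit 0) (nat_lit 0) (nat_lit 11) (node (nat_lit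
  5) (nat_lit 54996) (nat_lit 12) (node (nat_lit 4) (nat_lit 59459) (nat_lit 13) (node (nat_lit 6)
  (nat_lit 62902) (nat_lit 14) (node (nat_lit 4) (nat_lit 64461) (nat_lit 15) (node (nat_lit 5)
  (nat_lit 61659) (nat_lit 16) (node (nat_lit 6) (nat_lit 60242) (nat_lit 17) nil nil) nil) (node
  (nat_lit 5) (nat_lit 64760) (nat_lit 15) nil nil)) (node (nat_lit 5) (nat_lit 62321) (nat_lit
  14) (node (nat_lit 6) (nat_lit 62502) (nat_lit 15) nil nil) (node (nat_lit 0) (nat_lit 62598)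
  (nat_lit 14) nil (node (nat_lit 14) (nat_lit 62598) (nat_lit 14) nil nil)))) (node (nat_lit 6)
  (nat_lit 59173) (nat_lit 13) (node (nat_lit 4) (nat_lit 62886) (nat_lit 14) (node (nat_lit 6)
  (nat_lit 63067) (nat_lit 15) nil (node (nat_lit 5) (nat_lit 64262) (nat_lit 15) nil nil)) (node
  (nat_lit 5) (nat_lit 60653) (nat_lit 14) (node (nat_lit 4) (nat_lit 60183) (nat_lit 15) nil nil)
  (node (nat_lit 14) (nat_lit 63411) (nat_lit 14) nil nil))) (node (nat_lit 0) (nat_lit 60422)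
  (nat_lit 13) nil nil))) (node (nat_lit 6) (nat_lit 55424) (nat_lit 12) (node (nat_lit 5)
  (nat_lit 59087) (nat_lit 13) (node (nat_lit 6) (nat_lit 61949) (nat_lit 14) (node (nat_lit 4)
  (nat_lit 64515) (nat_lit 15) nil nil) (node (nat_lit 4) (nat_lit 62800) (nat_lit 14) (node
  (nat_lit 5) (nat_lit 63827) (nat_lit 15) nil nil) nil)) (node (nat_lit 4) (nat_lit 59887)
  (nat_lit 13) (node (nat_lit 5) (nat_lit 60757) (nat_lit 14) (node (nat_lit 4) (nat_lit 60721)
  (nat_lit 15) nil (node (nat_lit 6) (nat_lit 60939) (nat_lit 15) nil nil)) (node (nat_lit 6)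
  (nat_lit 61700) (nat_lit 14) (node (nat_lit 5) (nat_lit 62188) (nat_lit 15) nil nil) nil)) (node
  (nat_lit 14) (nat_lit 60850) (nat_lit 13) (node (nat_lit 5) (nat_lit 60850) (nat_lit 14) nil
  nil) nil))) (node (nat_lit 4) (nat_lit 56001) (nat_lit 12) (node (nat_lit 5) (nat_lit 59664)
  (nat_lit 13) (node (nat_lit 4) (nat_lit 62642) (nat_lit 14) (node (nat_lit 6) (nat_lit 61507)
  (nat_lit 15) (node (nat_lit 5) (nat_lit 62053) (nat_lit 16) nil (node (nat_lit 4) (nat_lit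
  62215) (nat_lit 16) nil nil)) nil) (node (nat_lit 6) (nat_lit 60957) (nat_lit 14) (node (nat_lit
  5) (nat_lit 61964) (nat_lit 15) (node (nat_lit 4) (nat_lit 61671) (nat_lit 16) nil nil) nil)
  nil)) (node (nat_lit 6) (nat_lit 60178) (nat_lit 13) (node (nat_lit 5) (nat_lit 63040) (nat_lit
  14) (node (nat_lit 4) (nat_lit 64015) (nat_lit 15) (node (nat_lit 5) (nat_lit 61019) (nat_lit
  16) (node (nat_lit 6) (nat_lit 60319) (nat_lit 17) nil nil) nil) (node (nat_lit 6) (nat_lit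
  64416) (nat_lit 15) nil nil)) (node (nat_lit 4) (nat_lit 63040) (nat_lit 14) (node (nat_lit 5)
  (nat_lit 64416) (nat_lit 15) nil nil) nil)) (node (nat_lit 14) (nat_lit 61427) (nat_lit 13) nil
  nil))) (node (nat_lit 0) (nat_lit 57990) (nat_lit 12) (node (nat_lit 5) (nat_lit 56806) (nat_lit
  13) nil (node (nat_lit 14) (nat_lit 60546) (nat_lit 13) nil nil)) nil)))) nil)) (node (nat_lit
  4) (nat_lit 0) (nat_lit 10) (node (nat_lit 5) (nat_lit 0) (nat_lit 11) (node (nat_lit 4)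
  (nat_lit 0) (nat_lit 12) (node (nat_lit 6) (nat_lit 0) (nat_lit 13) (node (nat_lit 5) (nat_lit
  0) (nat_lit 14) (node (nat_lit 6) (nat_lit 44627) (nat_lit 15) (node (nat_lit 4) (nat_lit 45516)
  (nat_lit 16) (node (nat_lit 6) (nat_lit 46209) (nat_lit 17) (node (nat_lit 5) (nat_lit 46411)
  (nat_lit 18) (node (nat_lit 4) (nat_lit 46180) (nat_lit 19) (node (nat_lit 5) (nat_lit 46401)
  (nat_lit 20) (node (nat_lit 6) (nat_lit 46574) (nat_lit 21) (node (nat_lit 4) (nat_lit 46708)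
  (nat_lit 22) (node (nat_lit 6) (nat_lit 46814) (nat_lit 23) (node (nat_lit 5) (nat_lit 46897)
  (nat_lit 24) nil nil) nil) nil) nil) nil) nil) nil) (node (nat_lit 5) (nat_lit 45981) (nat_lit
  17) (node (nat_lit 6) (nat_lit 46345) (nat_lit 18) nil nil) nil)) nil) (node (nat_lit 4)
  (nat_lit 44627) (nat_lit 15) (node (nat_lit 5) (nat_lit 45516) (nat_lit 16) (node (nat_lit 6)
  (nat_lit 46209) (nat_lit 17) (node (nat_lit 4) (nat_lit 46573) (nat_lit 18) (node (nat_lit 6)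
  (nat_lit 46856) (nat_lit 19) (node (nat_lit 5) (nat_lit 47077) (nat_lit 20) (node (nat_lit 4)
  (nat_lit 46936) (nat_lit 21) (node (nat_lit 5) (nat_lit 47071) (nat_lit 22) nil nil) nil) nil)
  nil) (node (nat_lit 5) (nat_lit 46573) (nat_lit 18) (node (nat_lit 4) (nat_lit 46342) (nat_lit
  19) nil nil) nil)) nil) nil) (node (nat_lit 0) (nat_lit 44853) (nat_lit 15) nil nil))) (node
  (nat_lit 4) (nat_lit 0) (nat_lit 14) (node (nat_lit 5) (nat_lit 44627) (nat_lit 15) (node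
  (nat_lit 6) (nat_lit 45675) (nat_lit 16) (node (nat_lit 4) (nat_lit 46204) (nat_lit 17) (node
  (nat_lit 6) (nat_lit 44976) (nat_lit 18) (node (nat_lit 5) (nat_lit 37603) (nat_lit 19) (node
  (nat_lit 4) (nat_lit 25503) (nat_lit 20) (node (nat_lit 5) (nat_lit 10417) (nat_lit 21) nil nil)
  nil) nil) nil) (node (nat_lit 5) (nat_lit 46140) (nat_lit 17) (node (nat_lit 4) (nat_lit 45847)
  (nat_lit 18) (node (nat_lit 5) (nat_lit 46130) (nat_lit 19) (node (nat_lit 6) (nat_lit 46351)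
  (nat_lit 20) (node (nat_lit 4) (nat_lit 46524) (nat_lit 21) nil nil) nil) nil) nil) nil)) nil)
  (node (nat_lit 0) (nat_lit 44853) (nat_lit 15) nil nil)) (node (nat_lit 0) (nat_lit 44256)
  (nat_lit 14) (node (nat_lit 6) (nat_lit 44256) (nat_lit 15) nil (node (nat_lit 5) (nat_lit
  44256) (nat_lit 15) nil nil)) nil))) (node (nat_lit 0) (nat_lit 42499) (nat_lit 13) (node
  (nat_lit 6) (nat_lit 42976) (nat_lit 14) (node (nat_lit 4) (nat_lit 43741) (nat_lit 15) nil
  (node (nat_lit 5) (nat_lit 43741) (nat_lit 15) nil nil)) (node (nat_lit 5) (nat_lit 42976)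
  (nat_lit 14) (node (nat_lit 6) (nat_lit 43741) (nat_lit 15) nil (node (nat_lit 4) (nat_lit
  42701) (nat_lit 15) nil nil)) (node (nat_lit 4) (nat_lit 42976) (nat_lit 14) (node (nat_lit 5)
  (nat_lit 43741) (nat_lit 15) nil (node (nat_lit 6) (nat_lit 43741) (nat_lit 15) nil nil)) nil)))
  nil)) (node (nat_lit 0) (nat_lit 40909) (nat_lit 12) (node (nat_lit 4) (nat_lit 41519) (nat_lit
  13) (node (nat_lit 5) (nat_lit 42499) (nat_lit 14) nil (node (nat_lit 6) (nat_lit 42499)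
  (nat_lit 14) nil nil)) (node (nat_lit 6) (nat_lit 41519) (nat_lit 13) (node (nat_lit 5) (nat_lit
  42499) (nat_lit 14) nil (node (nat_lit 4) (nat_lit 42499) (nat_lit 14) nil nil)) (node (nat_lit
  5) (nat_lit 41519) (nat_lit 13) (node (nat_lit 4) (nat_lit 41122) (nat_lit 14) nil (node
  (nat_lit 6) (nat_lit 42976) (nat_lit 14) nil nil)) nil))) nil)) (node (nat_lit 0) (nat_lit
  38868) (nat_lit 11) (node (nat_lit 4) (nat_lit 39652) (nat_lit 12) (node (nat_lit 6) (nat_lit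
  41519) (nat_lit 13) nil (node (nat_lit 5) (nat_lit 40325) (nat_lit 13) nil nil)) (node (nat_lit
  6) (nat_lit 39652) (nat_lit 12) (node (nat_lit 4) (nat_lit 40909) (nat_lit 13) nil (node
  (nat_lit 5) (nat_lit 40909) (nat_lit 13) nil nil)) (node (nat_lit 5) (nat_lit 39652) (nat_lit
  12) (node (nat_lit 6) (nat_lit 41519) (nat_lit 13) nil (node (nat_lit 4) (nat_lit 39100)
  (nat_lit 13) nil nil)) (node (nat_lit 0) (nat_lit 40124) (nat_lit 12) nil nil)))) (node (nat_lit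
  6) (nat_lit 0) (nat_lit 11) (node (nat_lit 0) (nat_lit 41228) (nat_lit 12) (node (nat_lit 5)
  (nat_lit 40645) (nat_lit 13) nil (node (nat_lit 4) (nat_lit 41839) (nat_lit 13) nil (node
  (nat_lit 6) (nat_lit 41839) (nat_lit 13) nil nil))) nil) nil))) (node (nat_lit 0) (nat_lit
  47994) (nat_lit 10) (node (nat_lit 4) (nat_lit 50949) (nat_lit 11) (node (nat_lit 6) (nat_lit
  55646) (nat_lit 12) (node (nat_lit 4) (nat_lit 57906) (nat_lit 13) nil (node (nat_lit 5)
  (nat_lit 58699) (nat_lit 13) nil nil)) (node (nat_lit 5) (nat_lit 55646) (nat_lit 12) (node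
  (nat_lit 4) (nat_lit 55496) (nat_lit 13) nil (node (nat_lit 6) (nat_lit 55858) (nat_lit 13) nil
  nil)) (node (nat_lit 13) (nat_lit 56103) (nat_lit 12) nil nil))) (node (nat_lit 5) (nat_lit
  50300) (nat_lit 11) (node (nat_lit 6) (nat_lit 55316) (nat_lit 12) (node (nat_lit 5) (nat_lit
  57785) (nat_lit 13) (node (nat_lit 4) (nat_lit 60838) (nat_lit 14) nil nil) (node (nat_lit 4)
  (nat_lit 57576) (nat_lit 13) nil nil)) (node (nat_lit 4) (nat_lit 55730) (nat_lit 12) (node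
  (nat_lit 6) (nat_lit 57067) (nat_lit 13) nil nil) (node (nat_lit 13) (nat_lit 56471) (nat_lit
  12) nil nil))) (node (nat_lit 6) (nat_lit 50619) (nat_lit 11) (node (nat_lit 5) (nat_lit 55316)
  (nat_lit 12) (node (nat_lit 4) (nat_lit 58978) (nat_lit 13) nil nil) (node (nat_lit 4) (nat_lit
  56050) (nat_lit 12) (node (nat_lit 5) (nat_lit 58310) (nat_lit 13) nil nil) nil)) (node (nat_lit
  0) (nat_lit 53193) (nat_lit 11) nil nil)))) nil)))

noncomputable def t259 : Tr :=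
  (node (nat_lit 4) (nat_lit 0) (nat_lit 7) (node (nat_lit 5) (nat_lit 0) (nat_lit 8) (node
  (nat_lit 6) (nat_lit 0) (nat_lit 9) t258 (node (nat_lit 0) (nat_lit 87952) (nat_lit 9) (node
  (nat_lit 4) (nat_lit 91841) (nat_lit 10) nil (node (nat_lit 6) (nat_lit 96716) (nat_lit 10) nil
  (node (nat_lit 5) (nat_lit 92390) (nat_lit 10) nil nil))) nil)) (node (nat_lit 6) (nat_lit 0)
  (nat_lit 8) (node (nat_lit 4) (nat_lit 0) (nat_lit 9) (node (nat_lit 5) (nat_lit 0) (nat_lit 10)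
  (node (nat_lit 6) (nat_lit 0) (nat_lit 11) (node (nat_lit 5) (nat_lit 0) (nat_lit 12) (node
  (nat_lit 4) (nat_lit 0) (nat_lit 13) (node (nat_lit 5) (nat_lit 110184) (nat_lit 14) (node
  (nat_lit 6) (nat_lit 112499) (nat_lit 15) (node (nat_lit 4) (nat_lit 114482) (nat_lit 16) (node
  (nat_lit 5) (nat_lit 115112) (nat_lit 17) (node (nat_lit 4) (nat_lit 115722) (nat_lit 18) (node
  (nat_lit 6) (nat_lit 115749) (nat_lit 19) (node (nat_lit 4) (nat_lit 116027) (nat_lit 20) (node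
  (nat_lit 5) (nat_lit 116137) (nat_lit 21) (node (nat_lit 6) (nat_lit 115578) (nat_lit 22) (node
  (nat_lit 4) (nat_lit 115254) (nat_lit 23) (node (nat_lit 6) (nat_lit 114658) (nat_lit 24) (node
  (nat_lit 5) (nat_lit 114464) (nat_lit 25) (node (nat_lit 4) (nat_lit 113023) (nat_lit 26) nil
  nil) nil) nil) nil) nil) nil) nil) nil) nil) (node (nat_lit 6) (nat_lit 115028) (nat_lit 17)
  (node (nat_lit 5) (nat_lit 114151) (nat_lit 18) (node (nat_lit 4) (nat_lit 98847) (nat_lit 19)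
  (node (nat_lit 6) (nat_lit 67579) (nat_lit 20) (node (nat_lit 4) (nat_lit 60969) (nat_lit 21)
  (node (nat_lit 5) (nat_lit 26008) (nat_lit 22) (node (nat_lit 6) (nat_lit 24702) (nat_lit 23)
  nil nil) nil) nil) nil) nil) nil) nil)) nil) nil) (node (nat_lit 6) (nat_lit 109485) (nat_lit
  14) (node (nat_lit 5) (nat_lit 112177) (nat_lit 15) (node (nat_lit 6) (nat_lit 113253) (nat_lit
  16) (node (nat_lit 4) (nat_lit 114089) (nat_lit 17) (node (nat_lit 6) (nat_lit 114188) (nat_lit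
  18) nil nil) nil) nil) (node (nat_lit 4) (nat_lit 110512) (nat_lit 15) nil nil)) (node (nat_lit
  0) (nat_lit 110970) (nat_lit 14) nil nil))) (node (nat_lit 0) (nat_lit 107930) (nat_lit 13) nil
  nil)) (node (nat_lit 4) (nat_lit 0) (nat_lit 12) (node (nat_lit 6) (nat_lit 0) (nat_lit 13)
  (node (nat_lit 5) (nat_lit 87651) (nat_lit 14) (node (nat_lit 4) (nat_lit 88813) (nat_lit 15)
  (node (nat_lit 5) (nat_lit 89836) (nat_lit 16) (node (nat_lit 6) (nat_lit 90721) (nat_lit 17)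
  (node (nat_lit 4) (nat_lit 91461) (nat_lit 18) (node (nat_lit 5) (nat_lit 91868) (nat_lit 19)
  nil nil) (node (nat_lit 5) (nat_lit 91115) (nat_lit 18) nil nil)) nil) nil) (node (nat_lit 6)
  (nat_lit 89206) (nat_lit 15) (node (nat_lit 4) (nat_lit 90116) (nat_lit 16) (node (nat_lit 5)
  (nat_lit 90912) (nat_lit 17) nil nil) nil) nil)) (node (nat_lit 0) (nat_lit 87671) (nat_lit 14)
  nil nil)) (node (nat_lit 0) (nat_lit 84968) (nat_lit 13) (node (nat_lit 5) (nat_lit 84517)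
  (nat_lit 14) nil (node (nat_lit 6) (nat_lit 85589) (nat_lit 14) nil (node (nat_lit 4) (nat_lit
  84968) (nat_lit 14) nil nil))) nil)) (node (nat_lit 0) (nat_lit 106989) (nat_lit 12) (node
  (nat_lit 5) (nat_lit 105806) (nat_lit 13) nil (node (nat_lit 4) (nat_lit 107213) (nat_lit 13)
  nil (node (nat_lit 6) (nat_lit 106989) (nat_lit 13) nil nil))) nil))) (node (nat_lit 4) (nat_lit
  0) (nat_lit 11) (node (nat_lit 6) (nat_lit 122490) (nat_lit 12) (node (nat_lit 5) (nat_lit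
  126770) (nat_lit 13) (node (nat_lit 6) (nat_lit 129524) (nat_lit 14) (node (nat_lit 4) (nat_lit
  131289) (nat_lit 15) (node (nat_lit 5) (nat_lit 132094) (nat_lit 16) (node (nat_lit 6) (nat_lit
  133162) (nat_lit 17) (node (nat_lit 5) (nat_lit 133671) (nat_lit 18) (node (nat_lit 4) (nat_lit
  133543) (nat_lit 19) (node (nat_lit 5) (nat_lit 133663) (nat_lit 20) (node (nat_lit 6) (nat_lit
  133208) (nat_lit 21) (node (nat_lit 4) (nat_lit 132689) (nat_lit 22) (node (nat_lit 6) (nat_lit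
  132213) (nat_lit 23) (node (nat_lit 5) (nat_lit 132136) (nat_lit 24) (node (nat_lit 4) (nat_lit
  130429) (nat_lit 25) (node (nat_lit 6) (nat_lit 129335) (nat_lit 26) (node (nat_lit 4) (nat_lit
  125664) (nat_lit 27) (node (nat_lit 5) (nat_lit 121522) (nat_lit 28) (node (nat_lit 4) (nat_lit
  115696) (nat_lit 29) (node (nat_lit 6) (nat_lit 102789) (nat_lit 30) (node (nat_lit 5) (nat_lit
  82788) (nat_lit 31) (node (nat_lit 6) (nat_lit 61817) (nat_lit 32) (node (nat_lit 4) (nat_lit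
  45416) (nat_lit 33) (node (nat_lit 5) (nat_lit 45423) (nat_lit 34) nil nil) nil) nil) nil) nil)
  nil) nil) nil) nil) nil) nil) nil) nil) nil) nil) nil) nil) nil) (node (nat_lit 6) (nat_lit
  131823) (nat_lit 16) (node (nat_lit 5) (nat_lit 132463) (nat_lit 17) (node (nat_lit 4) (nat_lit
  132274) (nat_lit 18) (node (nat_lit 5) (nat_lit 132436) (nat_lit 19) (node (nat_lit 6) (nat_lit
  131871) (nat_lit 20) nil nil) nil) nil) nil) nil)) nil) (node (nat_lit 4) (nat_lit 129242)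
  (nat_lit 14) (node (nat_lit 5) (nat_lit 131309) (nat_lit 15) (node (nat_lit 6) (nat_lit 132675)
  (nat_lit 16) (node (nat_lit 4) (nat_lit 133992) (nat_lit 17) (node (nat_lit 6) (nat_lit 135051)
  (nat_lit 18) (node (nat_lit 5) (nat_lit 135647) (nat_lit 19) (node (nat_lit 4) (nat_lit 126593)
  (nat_lit 20) (node (nat_lit 6) (nat_lit 114316) (nat_lit 21) (node (nat_lit 4) (nat_lit 85494)
  (nat_lit 22) (node (nat_lit 5) (nat_lit 68177) (nat_lit 23) nil nil) nil) nil) nil) nil) nil)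
  nil) nil) nil) nil)) nil) (node (nat_lit 0) (nat_lit 123269) (nat_lit 12) nil nil)) (node
  (nat_lit 0) (nat_lit 119206) (nat_lit 11) (node (nat_lit 5) (nat_lit 121925) (nat_lit 12) (node
  (nat_lit 6) (nat_lit 122137) (nat_lit 13) nil (node (nat_lit 4) (nat_lit 121765) (nat_lit 13)
  nil nil)) (node (nat_lit 4) (nat_lit 121954) (nat_lit 12) (node (nat_lit 5) (nat_lit 123614)
  (nat_lit 13) nil (node (nat_lit 6) (nat_lit 123570) (nat_lit 13) nil nil)) (node (nat_lit 6)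
  (nat_lit 121979) (nat_lit 12) (node (nat_lit 5) (nat_lit 125032) (nat_lit 13) nil (node (nat_lit
  4) (nat_lit 123639) (nat_lit 13) nil nil)) nil))) nil))) (node (nat_lit 0) (nat_lit 112762)
  (nat_lit 10) (node (nat_lit 5) (nat_lit 116313) (nat_lit 11) (node (nat_lit 6) (nat_lit 118370)
  (nat_lit 12) (node (nat_lit 5) (nat_lit 120172) (nat_lit 13) (node (nat_lit 4) (nat_lit 120495)
  (nat_lit 14) nil nil) nil) (node (nat_lit 4) (nat_lit 116062) (nat_lit 12) nil nil)) (node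
  (nat_lit 6) (nat_lit 116904) (nat_lit 11) (node (nat_lit 4) (nat_lit 119797) (nat_lit 12) nil
  (node (nat_lit 5) (nat_lit 119797) (nat_lit 12) nil nil)) (node (nat_lit 4) (nat_lit 116313)
  (nat_lit 11) (node (nat_lit 5) (nat_lit 117612) (nat_lit 12) nil (node (nat_lit 6) (nat_lit
  117586) (nat_lit 12) nil nil)) nil))) nil)) (node (nat_lit 0) (nat_lit 104542) (nat_lit 9) (node
  (nat_lit 5) (nat_lit 109091) (nat_lit 10) (node (nat_lit 4) (nat_lit 115247) (nat_lit 11) (node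
  (nat_lit 6) (nat_lit 112181) (nat_lit 12) nil nil) (node (nat_lit 6) (nat_lit 116444) (nat_lit
  11) (node (nat_lit 4) (nat_lit 119338) (nat_lit 12) nil nil) nil)) (node (nat_lit 6) (nat_lit
  109642) (nat_lit 10) (node (nat_lit 4) (nat_lit 116904) (nat_lit 11) nil (node (nat_lit 5)
  (nat_lit 116904) (nat_lit 11) nil nil)) (node (nat_lit 4) (nat_lit 109091) (nat_lit 10) (node
  (nat_lit 5) (nat_lit 116353) (nat_lit 11) nil (node (nat_lit 6) (nat_lit 116353) (nat_lit 11)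
  nil nil)) nil))) nil)) nil)) (node (nat_lit 6) (nat_lit 0) (nat_lit 7) (node (nat_lit 4)
  (nat_lit 0) (nat_lit 8) (node (nat_lit 5) (nat_lit 0) (nat_lit 9) (node (nat_lit 6) (nat_lit 0)
  (nat_lit 10) (node (nat_lit 5) (nat_lit 0) (nat_lit 11) (node (nat_lit 4) (nat_lit 0) (nat_lit
  12) (node (nat_lit 6) (nat_lit 0) (nat_lit 13) (node (nat_lit 5) (nat_lit 0) (nat_lit 14) (node
  (nat_lit 6) (nat_lit 0) (nat_lit 15) (node (nat_lit 4) (nat_lit 0) (nat_lit 16) (node (nat_lit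
  6) (nat_lit 0) (nat_lit 17) (node (nat_lit 5) (nat_lit 153109) (nat_lit 18) (node (nat_lit 4)
  (nat_lit 153356) (nat_lit 19) (node (nat_lit 5) (nat_lit 153577) (nat_lit 20) (node (nat_lit 6)
  (nat_lit 153750) (nat_lit 21) (node (nat_lit 4) (nat_lit 153884) (nat_lit 22) (node (nat_lit 6)
  (nat_lit 153990) (nat_lit 23) (node (nat_lit 5) (nat_lit 154073) (nat_lit 24) (node (nat_lit 6)
  (nat_lit 154136) (nat_lit 25) (node (nat_lit 4) (nat_lit 154186) (nat_lit 26) (node (nat_lit 5)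
  (nat_lit 152825) (nat_lit 27) (node (nat_lit 6) (nat_lit 149008) (nat_lit 28) (node (nat_lit 5)
  (nat_lit 142355) (nat_lit 29) (node (nat_lit 4) (nat_lit 132613) (nat_lit 30) (node (nat_lit 6)
  (nat_lit 114693) (nat_lit 31) (node (nat_lit 5) (nat_lit 94453) (nat_lit 32) (node (nat_lit 6)
  (nat_lit 55965) (nat_lit 33) (node (nat_lit 4) (nat_lit 47905) (nat_lit 34) nil nil) nil) nil)
  nil) nil) nil) nil) nil) nil) nil) nil) nil) nil) nil) (node (nat_lit 6) (nat_lit 153541)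
  (nat_lit 20) (node (nat_lit 4) (nat_lit 153624) (nat_lit 21) (node (nat_lit 5) (nat_lit 153609)
  (nat_lit 22) (node (nat_lit 6) (nat_lit 153293) (nat_lit 23) (node (nat_lit 4) (nat_lit 153241)
  (nat_lit 24) (node (nat_lit 6) (nat_lit 152485) (nat_lit 25) nil nil) nil) nil) nil) nil) nil))
  nil) (node (nat_lit 0) (nat_lit 153555) (nat_lit 18) nil nil)) (node (nat_lit 5) (nat_lit
  152473) (nat_lit 17) (node (nat_lit 4) (nat_lit 0) (nat_lit 18) (node (nat_lit 6) (nat_lit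
  153026) (nat_lit 19) (node (nat_lit 5) (nat_lit 153247) (nat_lit 20) (node (nat_lit 4) (nat_lit
  153420) (nat_lit 21) (node (nat_lit 5) (nat_lit 153554) (nat_lit 22) (node (nat_lit 6) (nat_lit
  153661) (nat_lit 23) (node (nat_lit 4) (nat_lit 153744) (nat_lit 24) nil nil) nil) nil) nil)
  (node (nat_lit 4) (nat_lit 153126) (nat_lit 20) (node (nat_lit 5) (nat_lit 153100) (nat_lit 21)
  (node (nat_lit 6) (nat_lit 152666) (nat_lit 22) nil nil) nil) nil)) (node (nat_lit 0) (nat_lit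
  153296) (nat_lit 19) nil nil)) (node (nat_lit 0) (nat_lit 153121) (nat_lit 18) nil nil)) (node
  (nat_lit 0) (nat_lit 153045) (nat_lit 17) nil nil))) (node (nat_lit 0) (nat_lit 152680) (nat_lit
  16) (node (nat_lit 5) (nat_lit 152680) (nat_lit 17) (node (nat_lit 6) (nat_lit 153045) (nat_lit
  18) nil nil) (node (nat_lit 6) (nat_lit 152680) (nat_lit 17) (node (nat_lit 5) (nat_lit 153045)
  (nat_lit 18) nil nil) (node (nat_lit 4) (nat_lit 152680) (nat_lit 17) nil nil))) nil)) (node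
  (nat_lit 0) (nat_lit 151806) (nat_lit 15) (node (nat_lit 5) (nat_lit 151540) (nat_lit 16) (node
  (nat_lit 4) (nat_lit 151947) (nat_lit 17) (node (nat_lit 6) (nat_lit 152243) (nat_lit 18) nil
  nil) (node (nat_lit 6) (nat_lit 152006) (nat_lit 17) (node (nat_lit 4) (nat_lit 152370) (nat_lit
  18) nil nil) nil)) (node (nat_lit 4) (nat_lit 152096) (nat_lit 16) (node (nat_lit 6) (nat_lit
  152562) (nat_lit 17) nil (node (nat_lit 5) (nat_lit 152562) (nat_lit 17) nil nil)) (node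
  (nat_lit 6) (nat_lit 152096) (nat_lit 16) (node (nat_lit 5) (nat_lit 152356) (nat_lit 17) (node
  (nat_lit 4) (nat_lit 152063) (nat_lit 18) nil nil) (node (nat_lit 4) (nat_lit 152562) (nat_lit
  17) nil nil)) nil))) nil)) (node (nat_lit 4) (nat_lit 0) (nat_lit 14) (node (nat_lit 5) (nat_lit
  0) (nat_lit 15) (node (nat_lit 4) (nat_lit 152096) (nat_lit 16) (node (nat_lit 6) (nat_lit
  152980) (nat_lit 17) (node (nat_lit 5) (nat_lit 153521) (nat_lit 18) (node (nat_lit 4) (nat_lit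
  153804) (nat_lit 19) (node (nat_lit 5) (nat_lit 154025) (nat_lit 20) (node (nat_lit 6) (nat_lit
  154198) (nat_lit 21) (node (nat_lit 4) (nat_lit 154333) (nat_lit 22) (node (nat_lit 6) (nat_lit
  154439) (nat_lit 23) (node (nat_lit 5) (nat_lit 154522) (nat_lit 24) (node (nat_lit 6) (nat_lit
  154585) (nat_lit 25) (node (nat_lit 4) (nat_lit 154635) (nat_lit 26) (node (nat_lit 5) (nat_lit
  152441) (nat_lit 27) (node (nat_lit 6) (nat_lit 148349) (nat_lit 28) (node (nat_lit 5) (nat_lit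
  142572) (nat_lit 29) (node (nat_lit 4) (nat_lit 132554) (nat_lit 30) (node (nat_lit 6) (nat_lit
  114355) (nat_lit 31) (node (nat_lit 4) (nat_lit 90815) (nat_lit 32) (node (nat_lit 5) (nat_lit
  55554) (nat_lit 33) nil nil) nil) nil) nil) nil) nil) nil) nil) nil) nil) nil) nil) nil) nil)
  (node (nat_lit 6) (nat_lit 153804) (nat_lit 19) (node (nat_lit 4) (nat_lit 154025) (nat_lit 20)
  (node (nat_lit 6) (nat_lit 154198) (nat_lit 21) (node (nat_lit 5) (nat_lit 154333) (nat_lit 22)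
  (node (nat_lit 4) (nat_lit 154246) (nat_lit 23) (node (nat_lit 5) (nat_lit 154329) (nat_lit 24)
  (node (nat_lit 6) (nat_lit 154393) (nat_lit 25) nil nil) nil) nil) nil) nil) nil) nil)) nil)
  nil) (node (nat_lit 6) (nat_lit 152256) (nat_lit 16) (node (nat_lit 4) (nat_lit 152949) (nat_lit
  17) (node (nat_lit 6) (nat_lit 151008) (nat_lit 18) (node (nat_lit 5) (nat_lit 147717) (nat_lit
  19) (node (nat_lit 6) (nat_lit 143767) (nat_lit 20) (node (nat_lit 4) (nat_lit 128536) (nat_lit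
  21) (node (nat_lit 5) (nat_lit 106389) (nat_lit 22) (node (nat_lit 6) (nat_lit 106389) (nat_lit
  23) (node (nat_lit 5) (nat_lit 106389) (nat_lit 24) (node (nat_lit 4) (nat_lit 106389) (nat_lit
  25) nil nil) nil) (node (nat_lit 4) (nat_lit 106389) (nat_lit 23) nil nil)) nil) nil) nil) nil)
  nil) nil) (node (nat_lit 0) (nat_lit 152272) (nat_lit 16) nil nil))) (node (nat_lit 0) (nat_lit
  151806) (nat_lit 15) (node (nat_lit 6) (nat_lit 151806) (nat_lit 16) nil (node (nat_lit 4)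
  (nat_lit 151806) (nat_lit 16) nil nil)) nil)) (node (nat_lit 0) (nat_lit 150805) (nat_lit 14)
  (node (nat_lit 4) (nat_lit 151176) (nat_lit 15) (node (nat_lit 6) (nat_lit 152096) (nat_lit 16)
  nil (node (nat_lit 5) (nat_lit 151806) (nat_lit 16) nil nil)) (node (nat_lit 6) (nat_lit 151176)
  (nat_lit 15) (node (nat_lit 5) (nat_lit 151806) (nat_lit 16) nil (node (nat_lit 4) (nat_lit
  151806) (nat_lit 16) nil nil)) (node (nat_lit 5) (nat_lit 150463) (nat_lit 15) (node (nat_lit 6)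
  (nat_lit 150619) (nat_lit 16) nil (node (nat_lit 4) (nat_lit 151009) (nat_lit 16) nil nil))
  nil))) nil))) (node (nat_lit 5) (nat_lit 0) (nat_lit 13) (node (nat_lit 6) (nat_lit 0) (nat_lit
  14) (node (nat_lit 4) (nat_lit 0) (nat_lit 15) (node (nat_lit 6) (nat_lit 128548) (nat_lit 16)
  (node (nat_lit 5) (nat_lit 129555) (nat_lit 17) (node (nat_lit 6) (nat_lit 0) (nat_lit 18) (node
  (nat_lit 4) (nat_lit 89476) (nat_lit 19) (node (nat_lit 5) (nat_lit 47539) (nat_lit 20) (node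
  (nat_lit 4) (nat_lit 47690) (nat_lit 21) (node (nat_lit 6) (nat_lit 47803) (nat_lit 22) (node
  (nat_lit 5) (nat_lit 47909) (nat_lit 23) (node (nat_lit 4) (nat_lit 47992) (nat_lit 24) nil nil)
  (node (nat_lit 4) (nat_lit 47854) (nat_lit 23) (node (nat_lit 5) (nat_lit 47851) (nat_lit 24)
  (node (nat_lit 6) (nat_lit 47670) (nat_lit 25) nil nil) nil) nil)) nil) (node (nat_lit 6)
  (nat_lit 47712) (nat_lit 21) nil nil)) nil) (node (nat_lit 0) (nat_lit 105974) (nat_lit 19) nil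
  nil)) (node (nat_lit 4) (nat_lit 130647) (nat_lit 18) (node (nat_lit 5) (nat_lit 131415)
  (nat_lit 19) (node (nat_lit 6) (nat_lit 132062) (nat_lit 20) nil nil) (node (nat_lit 6) (nat_lit
  130314) (nat_lit 19) nil nil)) nil)) nil) (node (nat_lit 5) (nat_lit 152003) (nat_lit 16) (node
  (nat_lit 4) (nat_lit 152696) (nat_lit 17) (node (nat_lit 6) (nat_lit 153386) (nat_lit 18) (node
  (nat_lit 4) (nat_lit 152413) (nat_lit 19) (node (nat_lit 5) (nat_lit 152360) (nat_lit 20) (node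
  (nat_lit 6) (nat_lit 151797) (nat_lit 21) nil nil) nil) nil) nil) nil) (node (nat_lit 0)
  (nat_lit 152178) (nat_lit 16) nil nil))) (node (nat_lit 0) (nat_lit 151341) (nat_lit 15) nil
  nil)) (node (nat_lit 0) (nat_lit 150310) (nat_lit 14) nil nil)) (node (nat_lit 0) (nat_lit
  148457) (nat_lit 13) (node (nat_lit 5) (nat_lit 148935) (nat_lit 14) (node (nat_lit 4) (nat_lit
  150682) (nat_lit 15) (node (nat_lit 5) (nat_lit 151311) (nat_lit 16) nil nil) (node (nat_lit 6)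
  (nat_lit 150682) (nat_lit 15) nil nil)) (node (nat_lit 6) (nat_lit 148935) (nat_lit 14) (node
  (nat_lit 4) (nat_lit 150682) (nat_lit 15) (node (nat_lit 6) (nat_lit 150837) (nat_lit 16) nil
  nil) (node (nat_lit 5) (nat_lit 149969) (nat_lit 15) nil nil)) (node (nat_lit 4) (nat_lit
  148935) (nat_lit 14) (node (nat_lit 5) (nat_lit 149969) (nat_lit 15) nil (node (nat_lit 6)
  (nat_lit 150682) (nat_lit 15) nil nil)) nil))) nil))) (node (nat_lit 0) (nat_lit 146083)
  (nat_lit 12) nil nil)) (node (nat_lit 0) (nat_lit 143039) (nat_lit 11) (node (nat_lit 6)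
  (nat_lit 143823) (nat_lit 12) (node (nat_lit 5) (nat_lit 146083) (nat_lit 13) nil nil) (node
  (nat_lit 5) (nat_lit 142255) (nat_lit 12) nil (node (nat_lit 4) (nat_lit 143823) (nat_lit 12)
  nil nil))) nil)) (node (nat_lit 4) (nat_lit 0) (nat_lit 10) (node (nat_lit 6) (nat_lit 0)
  (nat_lit 11) (node (nat_lit 5) (nat_lit 0) (nat_lit 12) (node (nat_lit 4) (nat_lit 0) (nat_lit
  13) (node (nat_lit 5) (nat_lit 0) (nat_lit 14) (node (nat_lit 6) (nat_lit 149296) (nat_lit 15)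
  (node (nat_lit 5) (nat_lit 149968) (nat_lit 16) (node (nat_lit 4) (nat_lit 150626) (nat_lit 17)
  (node (nat_lit 6) (nat_lit 151213) (nat_lit 18) (node (nat_lit 4) (nat_lit 151556) (nat_lit 19)
  (node (nat_lit 5) (nat_lit 151679) (nat_lit 20) (node (nat_lit 6) (nat_lit 150988) (nat_lit 21)
  (node (nat_lit 4) (nat_lit 151046) (nat_lit 22) (node (nat_lit 6) (nat_lit 149873) (nat_lit 23)
  (node (nat_lit 5) (nat_lit 149090) (nat_lit 24) (node (nat_lit 6) (nat_lit 148640) (nat_lit 25)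
  (node (nat_lit 4) (nat_lit 146326) (nat_lit 26) (node (nat_lit 5) (nat_lit 143481) (nat_lit 27)
  (node (nat_lit 4) (nat_lit 139368) (nat_lit 28) (node (nat_lit 6) (nat_lit 133558) (nat_lit 29)
  (node (nat_lit 5) (nat_lit 123575) (nat_lit 30) (node (nat_lit 4) (nat_lit 106071) (nat_lit 31)
  (node (nat_lit 5) (nat_lit 106073) (nat_lit 32) (node (nat_lit 6) (nat_lit 106028) (nat_lit 33)
  nil nil) nil) nil) nil) nil) nil) nil) nil) nil) nil) nil) nil) nil) nil) nil) nil) nil) (node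
  (nat_lit 4) (nat_lit 149108) (nat_lit 16) (node (nat_lit 6) (nat_lit 146159) (nat_lit 17) (node
  (nat_lit 5) (nat_lit 142518) (nat_lit 18) (node (nat_lit 6) (nat_lit 107493) (nat_lit 19) (node
  (nat_lit 4) (nat_lit 93740) (nat_lit 20) (node (nat_lit 5) (nat_lit 68420) (nat_lit 21) (node
  (nat_lit 4) (nat_lit 47027) (nat_lit 22) (node (nat_lit 6) (nat_lit 47065) (nat_lit 23) nil nil)
  nil) nil) nil) nil) nil) nil) nil)) (node (nat_lit 0) (nat_lit 151131) (nat_lit 15) nil nil))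
  (node (nat_lit 0) (nat_lit 150025) (nat_lit 14) nil nil)) (node (nat_lit 6) (nat_lit 0) (nat_lit
  13) (node (nat_lit 4) (nat_lit 0) (nat_lit 14) (node (nat_lit 6) (nat_lit 151068) (nat_lit 15)
  (node (nat_lit 5) (nat_lit 151432) (nat_lit 16) (node (nat_lit 4) (nat_lit 151838) (nat_lit 17)
  (node (nat_lit 5) (nat_lit 152203) (nat_lit 18) (node (nat_lit 6) (nat_lit 152486) (nat_lit 19)
  (node (nat_lit 4) (nat_lit 152707) (nat_lit 20) (node (nat_lit 6) (nat_lit 152880) (nat_lit 21)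
  (node (nat_lit 5) (nat_lit 152775) (nat_lit 22) (node (nat_lit 6) (nat_lit 151348) (nat_lit 23)
  (node (nat_lit 4) (nat_lit 146633) (nat_lit 24) (node (nat_lit 5) (nat_lit 140030) (nat_lit 25)
  (node (nat_lit 4) (nat_lit 130272) (nat_lit 26) (node (nat_lit 6) (nat_lit 112387) (nat_lit 27)
  (node (nat_lit 5) (nat_lit 92166) (nat_lit 28) nil nil) nil) nil) nil) nil) nil) nil) nil) nil)
  nil) (node (nat_lit 6) (nat_lit 152135) (nat_lit 18) nil nil)) nil) nil) (node (nat_lit 0)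
  (nat_lit 151326) (nat_lit 15) nil nil)) (node (nat_lit 0) (nat_lit 150219) (nat_lit 14) nil
  nil)) (node (nat_lit 0) (nat_lit 148649) (nat_lit 13) nil nil))) (node (nat_lit 4) (nat_lit 0)
  (nat_lit 12) (node (nat_lit 5) (nat_lit 146886) (nat_lit 13) (node (nat_lit 6) (nat_lit 147606)
  (nat_lit 14) (node (nat_lit 5) (nat_lit 148812) (nat_lit 15) (node (nat_lit 4) (nat_lit 149401)
  (nat_lit 16) (node (nat_lit 5) (nat_lit 149867) (nat_lit 17) (node (nat_lit 6) (nat_lit 150231)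
  (nat_lit 18) (node (nat_lit 4) (nat_lit 150514) (nat_lit 19) (node (nat_lit 6) (nat_lit 149959)
  (nat_lit 20) (node (nat_lit 5) (nat_lit 147361) (nat_lit 21) (node (nat_lit 6) (nat_lit 144546)
  (nat_lit 22) (node (nat_lit 4) (nat_lit 137204) (nat_lit 23) (node (nat_lit 5) (nat_lit 127583)
  (nat_lit 24) (node (nat_lit 4) (nat_lit 104921) (nat_lit 25) (node (nat_lit 6) (nat_lit 84005)
  (nat_lit 26) (node (nat_lit 4) (nat_lit 44805) (nat_lit 27) (node (nat_lit 5) (nat_lit 44817)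
  (nat_lit 28) (node (nat_lit 6) (nat_lit 44739) (nat_lit 29) nil nil) nil) nil) nil) nil) nil)
  nil) nil) nil) nil) nil) nil) (node (nat_lit 6) (nat_lit 149819) (nat_lit 17) (node (nat_lit 5)
  (nat_lit 150184) (nat_lit 18) (node (nat_lit 6) (nat_lit 150467) (nat_lit 19) (node (nat_lit 4)
  (nat_lit 150688) (nat_lit 20) nil nil) nil) nil) nil)) nil) (node (nat_lit 4) (nat_lit 146047)
  (nat_lit 15) (node (nat_lit 6) (nat_lit 139528) (nat_lit 16) (node (nat_lit 5) (nat_lit 135308)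
  (nat_lit 17) (node (nat_lit 6) (nat_lit 106389) (nat_lit 18) (node (nat_lit 4) (nat_lit 106389)
  (nat_lit 19) (node (nat_lit 5) (nat_lit 106389) (nat_lit 20) (node (nat_lit 4) (nat_lit 106389)
  (nat_lit 21) nil nil) nil) nil) (node (nat_lit 4) (nat_lit 135015) (nat_lit 18) nil nil)) nil)
  nil) nil)) nil) (node (nat_lit 0) (nat_lit 148038) (nat_lit 13) nil nil)) (node (nat_lit 0)
  (nat_lit 146275) (nat_lit 12) (node (nat_lit 5) (nat_lit 146275) (nat_lit 13) nil (node (nat_lit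
  4) (nat_lit 146275) (nat_lit 13) nil nil)) nil))) (node (nat_lit 0) (nat_lit 141729) (nat_lit
  11) (node (nat_lit 4) (nat_lit 142513) (nat_lit 12) (node (nat_lit 5) (nat_lit 144773) (nat_lit
  13) nil (node (nat_lit 6) (nat_lit 142725) (nat_lit 13) nil nil)) (node (nat_lit 5) (nat_lit
  142513) (nat_lit 12) (node (nat_lit 6) (nat_lit 142725) (nat_lit 13) nil (node (nat_lit 4)
  (nat_lit 142963) (nat_lit 13) nil nil)) (node (nat_lit 6) (nat_lit 142513) (nat_lit 12) (node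
  (nat_lit 4) (nat_lit 144773) (nat_lit 13) nil (node (nat_lit 5) (nat_lit 144773) (nat_lit 13)
  nil nil)) nil))) nil)) (node (nat_lit 0) (nat_lit 136001) (nat_lit 10) (node (nat_lit 4)
  (nat_lit 137983) (nat_lit 11) (node (nat_lit 5) (nat_lit 140851) (nat_lit 12) (node (nat_lit 4)
  (nat_lit 141301) (nat_lit 13) nil nil) (node (nat_lit 6) (nat_lit 140040) (nat_lit 12) nil nil))
  (node (nat_lit 6) (nat_lit 139151) (nat_lit 11) (node (nat_lit 5) (nat_lit 142197) (nat_lit 12)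
  (node (nat_lit 6) (nat_lit 144457) (nat_lit 13) nil nil) (node (nat_lit 4) (nat_lit 142018)
  (nat_lit 12) (node (nat_lit 5) (nat_lit 144278) (nat_lit 13) nil nil) nil)) (node (nat_lit 5)
  (nat_lit 138447) (nat_lit 11) (node (nat_lit 6) (nat_lit 140858) (nat_lit 12) nil (node (nat_lit
  4) (nat_lit 141668) (nat_lit 12) nil nil)) (node (nat_lit 0) (nat_lit 141201) (nat_lit 11) nil
  nil)))) nil))) (node (nat_lit 0) (nat_lit 128660) (nat_lit 9) (node (nat_lit 5) (nat_lit 130502)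
  (nat_lit 10) (node (nat_lit 6) (nat_lit 136321) (nat_lit 11) (node (nat_lit 4) (nat_lit 139214)
  (nat_lit 12) nil nil) (node (nat_lit 4) (nat_lit 134131) (nat_lit 11) (node (nat_lit 6) (nat_lit
  131998) (nat_lit 12) nil nil) nil)) (node (nat_lit 6) (nat_lit 132206) (nat_lit 10) (node
  (nat_lit 5) (nat_lit 138223) (nat_lit 11) (node (nat_lit 4) (nat_lit 137997) (nat_lit 12) nil
  nil) (node (nat_lit 4) (nat_lit 135835) (nat_lit 11) (node (nat_lit 5) (nat_lit 138728) (nat_lit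
  12) nil nil) nil)) (node (nat_lit 4) (nat_lit 129058) (nat_lit 10) (node (nat_lit 5) (nat_lit
  135593) (nat_lit 11) (node (nat_lit 6) (nat_lit 136866) (nat_lit 12) nil nil) (node (nat_lit 6)
  (nat_lit 137027) (nat_lit 11) (node (nat_lit 5) (nat_lit 136835) (nat_lit 12) nil nil) nil))
  nil))) nil)) nil) nil))

noncomputable def t260 : Tr :=
  (node (nat_lit 6) (nat_lit 0) (nat_lit 9) (node (nat_lit 4) (nat_lit 0) (nat_lit 10) (node
  (nat_lit 6) (nat_lit 0) (nat_lit 11) (node (nat_lit 5) (nat_lit 0) (nat_lit 12) (node (nat_lit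
  4) (nat_lit 0) (nat_lit 13) (node (nat_lit 6) (nat_lit 0) (nat_lit 14) (node (nat_lit 4)
  (nat_lit 0) (nat_lit 15) (node (nat_lit 5) (nat_lit 0) (nat_lit 16) (node (nat_lit 4) (nat_lit
  0) (nat_lit 17) (node (nat_lit 6) (nat_lit 69625) (nat_lit 18) (node (nat_lit 5) (nat_lit 70489)
  (nat_lit 19) (node (nat_lit 6) (nat_lit 71160) (nat_lit 20) (node (nat_lit 4) (nat_lit 71498)
  (nat_lit 21) (node (nat_lit 5) (nat_lit 71823) (nat_lit 22) (node (nat_lit 6) (nat_lit 71914)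
  (nat_lit 23) (node (nat_lit 5) (nat_lit 72034) (nat_lit 24) (node (nat_lit 4) (nat_lit 72163)
  (nat_lit 25) (node (nat_lit 6) (nat_lit 69108) (nat_lit 26) nil nil) nil) nil) nil) nil) nil)
  (node (nat_lit 4) (nat_lit 71160) (nat_lit 20) (node (nat_lit 5) (nat_lit 71581) (nat_lit 21)
  (node (nat_lit 6) (nat_lit 71909) (nat_lit 22) (node (nat_lit 5) (nat_lit 72166) (nat_lit 23)
  (node (nat_lit 4) (nat_lit 71957) (nat_lit 24) nil nil) nil) nil) nil) nil)) nil) (node (nat_lit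
  0) (nat_lit 69686) (nat_lit 18) nil nil)) (node (nat_lit 6) (nat_lit 0) (nat_lit 17) (node
  (nat_lit 5) (nat_lit 0) (nat_lit 18) (node (nat_lit 4) (nat_lit 70489) (nat_lit 19) (node
  (nat_lit 6) (nat_lit 70915) (nat_lit 20) (node (nat_lit 5) (nat_lit 71374) (nat_lit 21) (node
  (nat_lit 6) (nat_lit 71617) (nat_lit 22) (node (nat_lit 4) (nat_lit 71831) (nat_lit 23) nil nil)
  nil) (node (nat_lit 4) (nat_lit 71332) (nat_lit 21) nil nil)) (node (nat_lit 5) (nat_lit 71026)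
  (nat_lit 20) (node (nat_lit 6) (nat_lit 71447) (nat_lit 21) (node (nat_lit 4) (nat_lit 71689)
  (nat_lit 22) nil nil) nil) nil)) (node (nat_lit 0) (nat_lit 70534) (nat_lit 19) nil nil)) (node
  (nat_lit 0) (nat_lit 69915) (nat_lit 18) nil nil)) (node (nat_lit 0) (nat_lit 69176) (nat_lit
  17) nil nil))) (node (nat_lit 0) (nat_lit 67942) (nat_lit 16) (node (nat_lit 6) (nat_lit 68007)
  (nat_lit 17) (node (nat_lit 4) (nat_lit 68717) (nat_lit 18) (node (nat_lit 5) (nat_lit 69227)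
  (nat_lit 19) nil (node (nat_lit 6) (nat_lit 68793) (nat_lit 19) nil nil)) (node (nat_lit 5)
  (nat_lit 68005) (nat_lit 18) nil nil)) (node (nat_lit 4) (nat_lit 68013) (nat_lit 17) (node
  (nat_lit 5) (nat_lit 68668) (nat_lit 18) nil (node (nat_lit 6) (nat_lit 68848) (nat_lit 18) nil
  nil)) (node (nat_lit 5) (nat_lit 68013) (nat_lit 17) nil nil))) nil)) (node (nat_lit 0) (nat_lit
  66282) (nat_lit 15) (node (nat_lit 6) (nat_lit 67024) (nat_lit 16) (node (nat_lit 4) (nat_lit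
  67931) (nat_lit 17) (node (nat_lit 5) (nat_lit 68587) (nat_lit 18) nil nil) (node (nat_lit 5)
  (nat_lit 68439) (nat_lit 17) (node (nat_lit 4) (nat_lit 69316) (nat_lit 18) nil nil) nil)) (node
  (nat_lit 5) (nat_lit 67024) (nat_lit 16) (node (nat_lit 4) (nat_lit 67931) (nat_lit 17) nil
  (node (nat_lit 6) (nat_lit 67148) (nat_lit 17) nil nil)) (node (nat_lit 4) (nat_lit 67105)
  (nat_lit 16) (node (nat_lit 6) (nat_lit 68520) (nat_lit 17) (node (nat_lit 5) (nat_lit 67675)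
  (nat_lit 18) nil nil) (node (nat_lit 5) (nat_lit 67942) (nat_lit 17) nil nil)) nil))) nil))
  (node (nat_lit 5) (nat_lit 0) (nat_lit 14) (node (nat_lit 6) (nat_lit 0) (nat_lit 15) (node
  (nat_lit 5) (nat_lit 67024) (nat_lit 16) (node (nat_lit 4) (nat_lit 66018) (nat_lit 17) (node
  (nat_lit 6) (nat_lit 61374) (nat_lit 18) (node (nat_lit 4) (nat_lit 52184) (nat_lit 19) (node
  (nat_lit 5) (nat_lit 23837) (nat_lit 20) (node (nat_lit 6) (nat_lit 24116) (nat_lit 21) (node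
  (nat_lit 4) (nat_lit 24250) (nat_lit 22) (node (nat_lit 6) (nat_lit 24356) (nat_lit 23) nil nil)
  (node (nat_lit 5) (nat_lit 24333) (nat_lit 22) nil nil)) (node (nat_lit 4) (nat_lit 24116)
  (nat_lit 21) (node (nat_lit 6) (nat_lit 24183) (nat_lit 22) (node (nat_lit 5) (nat_lit 24097)
  (nat_lit 23) nil nil) nil) nil)) nil) (node (nat_lit 5) (nat_lit 61544) (nat_lit 19) nil nil))
  nil) nil) (node (nat_lit 4) (nat_lit 0) (nat_lit 16) (node (nat_lit 5) (nat_lit 68520) (nat_lit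
  17) (node (nat_lit 4) (nat_lit 69625) (nat_lit 18) (node (nat_lit 6) (nat_lit 69741) (nat_lit
  19) (node (nat_lit 4) (nat_lit 70274) (nat_lit 20) (node (nat_lit 5) (nat_lit 70690) (nat_lit
  21) (node (nat_lit 6) (nat_lit 70807) (nat_lit 22) (node (nat_lit 5) (nat_lit 70960) (nat_lit
  23) (node (nat_lit 4) (nat_lit 71128) (nat_lit 24) (node (nat_lit 6) (nat_lit 71210) (nat_lit
  25) nil nil) nil) nil) nil) nil) nil) nil) nil) (node (nat_lit 6) (nat_lit 67229) (nat_lit 17)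
  nil (node (nat_lit 0) (nat_lit 68597) (nat_lit 17) nil nil))) (node (nat_lit 0) (nat_lit 67861)
  (nat_lit 16) nil nil))) (node (nat_lit 0) (nat_lit 66282) (nat_lit 15) (node (nat_lit 4)
  (nat_lit 66282) (nat_lit 16) nil (node (nat_lit 5) (nat_lit 66282) (nat_lit 16) nil nil)) nil))
  (node (nat_lit 0) (nat_lit 64258) (nat_lit 14) (node (nat_lit 5) (nat_lit 65206) (nat_lit 15)
  (node (nat_lit 4) (nat_lit 66375) (nat_lit 16) nil (node (nat_lit 6) (nat_lit 66104) (nat_lit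
  16) nil nil)) (node (nat_lit 6) (nat_lit 65206) (nat_lit 15) (node (nat_lit 5) (nat_lit 65936)
  (nat_lit 16) nil (node (nat_lit 4) (nat_lit 66375) (nat_lit 16) nil nil)) (node (nat_lit 4)
  (nat_lit 65206) (nat_lit 15) (node (nat_lit 6) (nat_lit 65447) (nat_lit 16) nil (node (nat_lit
  5) (nat_lit 66282) (nat_lit 16) nil nil)) nil))) nil))) (node (nat_lit 6) (nat_lit 0) (nat_lit
  13) (node (nat_lit 4) (nat_lit 0) (nat_lit 14) (node (nat_lit 5) (nat_lit 0) (nat_lit 15) (node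
  (nat_lit 4) (nat_lit 67105) (nat_lit 16) (node (nat_lit 6) (nat_lit 68520) (nat_lit 17) (node
  (nat_lit 5) (nat_lit 69625) (nat_lit 18) (node (nat_lit 4) (nat_lit 69122) (nat_lit 19) (node
  (nat_lit 5) (nat_lit 68758) (nat_lit 20) (node (nat_lit 6) (nat_lit 68619) (nat_lit 21) (node
  (nat_lit 5) (nat_lit 68566) (nat_lit 22) (node (nat_lit 4) (nat_lit 67342) (nat_lit 23) (node
  (nat_lit 6) (nat_lit 66617) (nat_lit 24) (node (nat_lit 4) (nat_lit 65801) (nat_lit 25) (node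
  (nat_lit 5) (nat_lit 64547) (nat_lit 26) (node (nat_lit 6) (nat_lit 60857) (nat_lit 27) (node
  (nat_lit 4) (nat_lit 57754) (nat_lit 28) (node (nat_lit 6) (nat_lit 50282) (nat_lit 29) (node
  (nat_lit 5) (nat_lit 40908) (nat_lit 30) (node (nat_lit 6) (nat_lit 23714) (nat_lit 31) (node
  (nat_lit 4) (nat_lit 23721) (nat_lit 32) (node (nat_lit 5) (nat_lit 23705) (nat_lit 33) (node
  (nat_lit 4) (nat_lit 23698) (nat_lit 34) (node (nat_lit 6) (nat_lit 23701) (nat_lit 35) nil nil)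
  nil) nil) nil) nil) nil) nil) nil) nil) nil) nil) nil) nil) nil) nil) nil) (node (nat_lit 6)
  (nat_lit 69303) (nat_lit 19) nil nil)) (node (nat_lit 4) (nat_lit 0) (nat_lit 18) (node (nat_lit
  5) (nat_lit 70180) (nat_lit 19) (node (nat_lit 6) (nat_lit 70821) (nat_lit 20) (node (nat_lit 5)
  (nat_lit 0) (nat_lit 21) (node (nat_lit 4) (nat_lit 71541) (nat_lit 22) (node (nat_lit 6)
  (nat_lit 71678) (nat_lit 23) (node (nat_lit 4) (nat_lit 71877) (nat_lit 24) (node (nat_lit 5)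
  (nat_lit 72030) (nat_lit 25) nil nil) (node (nat_lit 5) (nat_lit 71677) (nat_lit 24) nil nil))
  (node (nat_lit 5) (nat_lit 71397) (nat_lit 23) (node (nat_lit 6) (nat_lit 71357) (nat_lit 24)
  (node (nat_lit 4) (nat_lit 71470) (nat_lit 25) nil nil) nil) nil)) (node (nat_lit 0) (nat_lit
  71611) (nat_lit 22) nil nil)) (node (nat_lit 4) (nat_lit 71132) (nat_lit 21) (node (nat_lit 6)
  (nat_lit 71166) (nat_lit 22) nil nil) nil)) nil) (node (nat_lit 0) (nat_lit 70534) (nat_lit 19)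
  nil nil)) nil)) nil) (node (nat_lit 6) (nat_lit 67075) (nat_lit 16) (node (nat_lit 5) (nat_lit
  68490) (nat_lit 17) (node (nat_lit 4) (nat_lit 68057) (nat_lit 18) (node (nat_lit 6) (nat_lit
  68740) (nat_lit 19) (node (nat_lit 4) (nat_lit 45435) (nat_lit 20) (node (nat_lit 5) (nat_lit
  45572) (nat_lit 21) (node (nat_lit 6) (nat_lit 45473) (nat_lit 22) (node (nat_lit 4) (nat_lit
  45557) (nat_lit 23) (node (nat_lit 6) (nat_lit 45496) (nat_lit 24) (node (nat_lit 5) (nat_lit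
  45485) (nat_lit 25) nil nil) nil) nil) nil) nil) nil) (node (nat_lit 5) (nat_lit 67587) (nat_lit
  19) (node (nat_lit 6) (nat_lit 67436) (nat_lit 20) nil nil) nil)) nil) nil) (node (nat_lit 0)
  (nat_lit 67169) (nat_lit 16) nil nil))) (node (nat_lit 0) (nat_lit 65384) (nat_lit 15) nil nil))
  (node (nat_lit 0) (nat_lit 64000) (nat_lit 14) (node (nat_lit 6) (nat_lit 64000) (nat_lit 15)
  nil nil) nil)) (node (nat_lit 0) (nat_lit 61405) (nat_lit 13) (node (nat_lit 6) (nat_lit 62624)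
  (nat_lit 14) (node (nat_lit 5) (nat_lit 64948) (nat_lit 15) (node (nat_lit 6) (nat_lit 64559)
  (nat_lit 16) nil nil) (node (nat_lit 4) (nat_lit 64116) (nat_lit 15) nil nil)) (node (nat_lit 4)
  (nat_lit 62624) (nat_lit 14) (node (nat_lit 5) (nat_lit 64948) (nat_lit 15) (node (nat_lit 4)
  (nat_lit 64935) (nat_lit 16) nil nil) (node (nat_lit 6) (nat_lit 62911) (nat_lit 15) (node
  (nat_lit 4) (nat_lit 63986) (nat_lit 16) nil nil) nil)) (node (nat_lit 5) (nat_lit 62624)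
  (nat_lit 14) (node (nat_lit 4) (nat_lit 64948) (nat_lit 15) (node (nat_lit 6) (nat_lit 64810)
  (nat_lit 16) nil nil) (node (nat_lit 6) (nat_lit 64948) (nat_lit 15) nil nil)) nil))) nil)))
  (node (nat_lit 0) (nat_lit 57346) (nat_lit 12) nil nil)) (node (nat_lit 0) (nat_lit 53088)
  (nat_lit 11) (node (nat_lit 4) (nat_lit 55086) (nat_lit 12) (node (nat_lit 6) (nat_lit 55298)
  (nat_lit 13) nil (node (nat_lit 5) (nat_lit 57346) (nat_lit 13) nil nil)) (node (nat_lit 6)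
  (nat_lit 55086) (nat_lit 12) nil (node (nat_lit 5) (nat_lit 53258) (nat_lit 12) nil nil))) nil))
  (node (nat_lit 5) (nat_lit 0) (nat_lit 10) (node (nat_lit 4) (nat_lit 0) (nat_lit 11) (node
  (nat_lit 5) (nat_lit 40263) (nat_lit 12) (node (nat_lit 6) (nat_lit 42059) (nat_lit 13) (node
  (nat_lit 4) (nat_lit 43464) (nat_lit 14) (node (nat_lit 6) (nat_lit 44557) (nat_lit 15) (node
  (nat_lit 5) (nat_lit 45310) (nat_lit 16) (node (nat_lit 4) (nat_lit 45717) (nat_lit 17) (node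
  (nat_lit 5) (nat_lit 43085) (nat_lit 18) (node (nat_lit 6) (nat_lit 42734) (nat_lit 19) (node
  (nat_lit 5) (nat_lit 42642) (nat_lit 20) (node (nat_lit 4) (nat_lit 41289) (nat_lit 21) (node
  (nat_lit 6) (nat_lit 39051) (nat_lit 22) (node (nat_lit 4) (nat_lit 37518) (nat_lit 23) (node
  (nat_lit 5) (nat_lit 32444) (nat_lit 24) (node (nat_lit 6) (nat_lit 26715) (nat_lit 25) (node
  (nat_lit 5) (nat_lit 13802) (nat_lit 26) nil nil) nil) nil) nil) nil) nil) nil) nil) (node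
  (nat_lit 6) (nat_lit 46122) (nat_lit 18) (node (nat_lit 4) (nat_lit 46349) (nat_lit 19) (node
  (nat_lit 5) (nat_lit 46526) (nat_lit 20) (node (nat_lit 6) (nat_lit 46398) (nat_lit 21) nil nil)
  nil) nil) nil)) (node (nat_lit 6) (nat_lit 45681) (nat_lit 17) (node (nat_lit 4) (nat_lit 45972)
  (nat_lit 18) (node (nat_lit 5) (nat_lit 46200) (nat_lit 19) nil nil) nil) nil)) nil) (node
  (nat_lit 5) (nat_lit 44557) (nat_lit 15) (node (nat_lit 4) (nat_lit 44764) (nat_lit 16) (node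
  (nat_lit 6) (nat_lit 44422) (nat_lit 17) (node (nat_lit 4) (nat_lit 44713) (nat_lit 18) (node
  (nat_lit 5) (nat_lit 44940) (nat_lit 19) (node (nat_lit 6) (nat_lit 44778) (nat_lit 20) (node
  (nat_lit 5) (nat_lit 44747) (nat_lit 21) (node (nat_lit 4) (nat_lit 44806) (nat_lit 22) nil nil)
  nil) nil) nil) nil) nil) nil) nil)) nil) nil) (node (nat_lit 0) (nat_lit 41241) (nat_lit 12) nil
  nil)) (node (nat_lit 0) (nat_lit 53108) (nat_lit 11) (node (nat_lit 5) (nat_lit 55132) (nat_lit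
  12) (node (nat_lit 4) (nat_lit 57557) (nat_lit 13) nil (node (nat_lit 6) (nat_lit 55344)
  (nat_lit 13) nil nil)) (node (nat_lit 6) (nat_lit 54751) (nat_lit 12) (node (nat_lit 5) (nat_lit
  58610) (nat_lit 13) nil (node (nat_lit 4) (nat_lit 57011) (nat_lit 13) nil nil)) (node (nat_lit
  4) (nat_lit 55107) (nat_lit 12) (node (nat_lit 5) (nat_lit 57367) (nat_lit 13) nil (node
  (nat_lit 6) (nat_lit 55319) (nat_lit 13) nil nil)) nil))) nil)) (node (nat_lit 0) (nat_lit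
  46905) (nat_lit 10) (node (nat_lit 5) (nat_lit 50024) (nat_lit 11) (node (nat_lit 6) (nat_lit
  54922) (nat_lit 12) (node (nat_lit 5) (nat_lit 58163) (nat_lit 13) nil nil) (node (nat_lit 4)
  (nat_lit 53297) (nat_lit 12) nil (node (nat_lit 13) (nat_lit 57175) (nat_lit 12) nil nil)))
  (node (nat_lit 4) (nat_lit 50151) (nat_lit 11) (node (nat_lit 5) (nat_lit 55677) (nat_lit 12)
  (node (nat_lit 6) (nat_lit 55889) (nat_lit 13) nil nil) (node (nat_lit 6) (nat_lit 55043)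
  (nat_lit 12) (node (nat_lit 4) (nat_lit 57303) (nat_lit 13) nil nil) (node (nat_lit 13) (nat_lit
  55304) (nat_lit 12) nil nil))) (node (nat_lit 6) (nat_lit 49502) (nat_lit 11) (node (nat_lit 4)
  (nat_lit 54394) (nat_lit 12) nil (node (nat_lit 5) (nat_lit 54394) (nat_lit 12) nil nil)) (node
  (nat_lit 0) (nat_lit 52358) (nat_lit 11) nil nil)))) nil))) (node (nat_lit 4) (nat_lit 0)
  (nat_lit 9) (node (nat_lit 6) (nat_lit 0) (nat_lit 10) (node (nat_lit 5) (nat_lit 0) (nat_lit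
  11) (node (nat_lit 6) (nat_lit 0) (nat_lit 12) (node (nat_lit 4) (nat_lit 0) (nat_lit 13) (node
  (nat_lit 5) (nat_lit 0) (nat_lit 14) (node (nat_lit 4) (nat_lit 0) (nat_lit 15) (node (nat_lit
  6) (nat_lit 0) (nat_lit 16) (node (nat_lit 4) (nat_lit 0) (nat_lit 17) (node (nat_lit 5)
  (nat_lit 92605) (nat_lit 18) (node (nat_lit 6) (nat_lit 93495) (nat_lit 19) (node (nat_lit 5)
  (nat_lit 94120) (nat_lit 20) (node (nat_lit 4) (nat_lit 94632) (nat_lit 21) (node (nat_lit 6)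
  (nat_lit 94845) (nat_lit 22) (node (nat_lit 4) (nat_lit 84093) (nat_lit 23) (node (nat_lit 5)
  (nat_lit 79868) (nat_lit 24) (node (nat_lit 4) (nat_lit 74202) (nat_lit 25) (node (nat_lit 6)
  (nat_lit 71741) (nat_lit 26) (node (nat_lit 5) (nat_lit 71783) (nat_lit 27) (node (nat_lit 6)
  (nat_lit 71838) (nat_lit 28) (node (nat_lit 4) (nat_lit 71887) (nat_lit 29) (node (nat_lit 5)
  (nat_lit 71879) (nat_lit 30) nil nil) nil) nil) nil) nil) nil) nil) nil) (node (nat_lit 5)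
  (nat_lit 94437) (nat_lit 22) (node (nat_lit 6) (nat_lit 94374) (nat_lit 23) nil nil) nil)) nil)
  nil) nil) (node (nat_lit 0) (nat_lit 92758) (nat_lit 18) nil nil)) (node (nat_lit 0) (nat_lit
  92086) (nat_lit 17) (node (nat_lit 4) (nat_lit 92086) (nat_lit 18) nil (node (nat_lit 6)
  (nat_lit 92086) (nat_lit 18) nil nil)) nil)) (node (nat_lit 0) (nat_lit 90037) (nat_lit 16) nil
  nil)) (node (nat_lit 6) (nat_lit 0) (nat_lit 15) (node (nat_lit 5) (nat_lit 0) (nat_lit 16)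
  (node (nat_lit 4) (nat_lit 91649) (nat_lit 17) (node (nat_lit 6) (nat_lit 91859) (nat_lit 18)
  (node (nat_lit 4) (nat_lit 47007) (nat_lit 19) (node (nat_lit 5) (nat_lit 47184) (nat_lit 20)
  (node (nat_lit 4) (nat_lit 47321) (nat_lit 21) (node (nat_lit 6) (nat_lit 47221) (nat_lit 22)
  (node (nat_lit 5) (nat_lit 47204) (nat_lit 23) nil nil) nil) (node (nat_lit 6) (nat_lit 47055)
  (nat_lit 21) nil nil)) nil) (node (nat_lit 5) (nat_lit 92166) (nat_lit 19) nil nil)) (node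
  (nat_lit 5) (nat_lit 92197) (nat_lit 18) (node (nat_lit 6) (nat_lit 92259) (nat_lit 19) nil nil)
  nil)) (node (nat_lit 0) (nat_lit 91256) (nat_lit 17) nil nil)) (node (nat_lit 0) (nat_lit 90014)
  (nat_lit 16) nil nil)) (node (nat_lit 0) (nat_lit 88199) (nat_lit 15) (node (nat_lit 5) (nat_lit
  88199) (nat_lit 16) nil (node (nat_lit 4) (nat_lit 88199) (nat_lit 16) nil (node (nat_lit 6)
  (nat_lit 88199) (nat_lit 16) nil nil))) nil))) (node (nat_lit 6) (nat_lit 0) (nat_lit 14) (node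
  (nat_lit 5) (nat_lit 0) (nat_lit 15) (node (nat_lit 4) (nat_lit 89830) (nat_lit 16) (node
  (nat_lit 5) (nat_lit 91347) (nat_lit 17) (node (nat_lit 6) (nat_lit 91819) (nat_lit 18) (node
  (nat_lit 5) (nat_lit 92153) (nat_lit 19) (node (nat_lit 4) (nat_lit 90273) (nat_lit 20) (node
  (nat_lit 6) (nat_lit 89152) (nat_lit 21) (node (nat_lit 4) (nat_lit 85382) (nat_lit 22) (node
  (nat_lit 5) (nat_lit 80882) (nat_lit 23) (node (nat_lit 4) (nat_lit 71668) (nat_lit 24) (node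
  (nat_lit 6) (nat_lit 53827) (nat_lit 25) (node (nat_lit 5) (nat_lit 46215) (nat_lit 26) (node
  (nat_lit 6) (nat_lit 46230) (nat_lit 27) (node (nat_lit 4) (nat_lit 46249) (nat_lit 28) nil nil)
  nil) nil) nil) nil) nil) nil) nil) nil) (node (nat_lit 4) (nat_lit 92640) (nat_lit 19) (node
  (nat_lit 5) (nat_lit 93038) (nat_lit 20) nil nil) nil)) nil) (node (nat_lit 6) (nat_lit 0)
  (nat_lit 17) (node (nat_lit 4) (nat_lit 0) (nat_lit 18) (node (nat_lit 5) (nat_lit 93868)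
  (nat_lit 19) (node (nat_lit 6) (nat_lit 94712) (nat_lit 20) (node (nat_lit 5) (nat_lit 94765)
  (nat_lit 21) (node (nat_lit 4) (nat_lit 95154) (nat_lit 22) (node (nat_lit 6) (nat_lit 90517)
  (nat_lit 23) nil nil) nil) (node (nat_lit 4) (nat_lit 95023) (nat_lit 21) nil nil)) (node
  (nat_lit 4) (nat_lit 94586) (nat_lit 20) (node (nat_lit 6) (nat_lit 94123) (nat_lit 21) nil nil)
  nil)) (node (nat_lit 0) (nat_lit 93986) (nat_lit 19) nil nil)) (node (nat_lit 0) (nat_lit 92836)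
  (nat_lit 18) nil nil)) nil)) (node (nat_lit 0) (nat_lit 89345) (nat_lit 16) nil nil)) (node
  (nat_lit 0) (nat_lit 88241) (nat_lit 15) nil nil)) (node (nat_lit 0) (nat_lit 85217) (nat_lit
  14) (node (nat_lit 4) (nat_lit 85704) (nat_lit 15) nil (node (nat_lit 6) (nat_lit 85693)
  (nat_lit 15) (node (nat_lit 4) (nat_lit 86768) (nat_lit 16) nil nil) (node (nat_lit 5) (nat_lit
  85909) (nat_lit 15) (node (nat_lit 4) (nat_lit 85896) (nat_lit 16) nil (node (nat_lit 6)
  (nat_lit 86064) (nat_lit 16) nil nil)) nil))) nil))) (node (nat_lit 0) (nat_lit 81145) (nat_lit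
  13) nil nil)) (node (nat_lit 4) (nat_lit 0) (nat_lit 12) (node (nat_lit 5) (nat_lit 0) (nat_lit
  13) (node (nat_lit 6) (nat_lit 0) (nat_lit 14) (node (nat_lit 4) (nat_lit 87513) (nat_lit 15)
  (node (nat_lit 5) (nat_lit 89830) (nat_lit 16) (node (nat_lit 4) (nat_lit 91127) (nat_lit 17)
  (node (nat_lit 6) (nat_lit 92086) (nat_lit 18) (node (nat_lit 4) (nat_lit 91713) (nat_lit 19)
  (node (nat_lit 5) (nat_lit 91486) (nat_lit 20) (node (nat_lit 6) (nat_lit 91186) (nat_lit 21)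
  (node (nat_lit 5) (nat_lit 91070) (nat_lit 22) (node (nat_lit 4) (nat_lit 90072) (nat_lit 23)
  (node (nat_lit 6) (nat_lit 89977) (nat_lit 24) (node (nat_lit 4) (nat_lit 88600) (nat_lit 25)
  (node (nat_lit 5) (nat_lit 86405) (nat_lit 26) (node (nat_lit 4) (nat_lit 83650) (nat_lit 27)
  (node (nat_lit 6) (nat_lit 80493) (nat_lit 28) (node (nat_lit 5) (nat_lit 73003) (nat_lit 29)
  (node (nat_lit 4) (nat_lit 70971) (nat_lit 30) (node (nat_lit 5) (nat_lit 70968) (nat_lit 31)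
  (node (nat_lit 6) (nat_lit 70943) (nat_lit 32) (node (nat_lit 4) (nat_lit 70965) (nat_lit 33)
  nil nil) nil) nil) nil) nil) nil) nil) nil) nil) nil) nil) nil) nil) nil) (node (nat_lit 5)
  (nat_lit 91987) (nat_lit 19) nil nil)) nil) nil) (node (nat_lit 6) (nat_lit 89471) (nat_lit 16)
  (node (nat_lit 5) (nat_lit 91241) (nat_lit 17) (node (nat_lit 4) (nat_lit 89899) (nat_lit 18)
  nil (node (nat_lit 6) (nat_lit 90824) (nat_lit 18) nil nil)) nil) nil)) (node (nat_lit 5)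
  (nat_lit 86678) (nat_lit 15) (node (nat_lit 4) (nat_lit 78947) (nat_lit 16) (node (nat_lit 6)
  (nat_lit 72163) (nat_lit 17) (node (nat_lit 4) (nat_lit 45819) (nat_lit 18) (node (nat_lit 5)
  (nat_lit 46511) (nat_lit 19) (node (nat_lit 4) (nat_lit 46330) (nat_lit 20) (node (nat_lit 6)
  (nat_lit 46397) (nat_lit 21) nil nil) (node (nat_lit 6) (nat_lit 47068) (nat_lit 20) nil nil))
  nil) (node (nat_lit 5) (nat_lit 73301) (nat_lit 18) (node (nat_lit 6) (nat_lit 73947) (nat_lit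
  19) (node (nat_lit 4) (nat_lit 74499) (nat_lit 20) (node (nat_lit 5) (nat_lit 74346) (nat_lit
  21) nil nil) nil) nil) nil)) nil) nil) (node (nat_lit 0) (nat_lit 86856) (nat_lit 15) nil nil)))
  (node (nat_lit 0) (nat_lit 84705) (nat_lit 14) nil nil)) (node (nat_lit 0) (nat_lit 81498)
  (nat_lit 13) (node (nat_lit 5) (nat_lit 81653) (nat_lit 14) nil (node (nat_lit 6) (nat_lit
  81485) (nat_lit 14) nil (node (nat_lit 4) (nat_lit 81498) (nat_lit 14) nil nil))) nil)) (node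
  (nat_lit 0) (nat_lit 76573) (nat_lit 12) (node (nat_lit 6) (nat_lit 78422) (nat_lit 13) nil
  (node (nat_lit 4) (nat_lit 79178) (nat_lit 13) nil (node (nat_lit 5) (nat_lit 76154) (nat_lit
  13) nil nil))) nil))) (node (nat_lit 0) (nat_lit 71215) (nat_lit 11) (node (nat_lit 6) (nat_lit
  73862) (nat_lit 12) (node (nat_lit 5) (nat_lit 78387) (nat_lit 13) (node (nat_lit 6) (nat_lit
  78148) (nat_lit 14) nil (node (nat_lit 4) (nat_lit 79372) (nat_lit 14) nil nil)) (node (nat_lit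
  4) (nat_lit 78727) (nat_lit 13) (node (nat_lit 5) (nat_lit 80645) (nat_lit 14) nil (node
  (nat_lit 6) (nat_lit 78922) (nat_lit 14) nil nil)) (node (nat_lit 0) (nat_lit 77885) (nat_lit
  13) nil nil))) (node (nat_lit 4) (nat_lit 74888) (nat_lit 12) (node (nat_lit 6) (nat_lit 79037)
  (nat_lit 13) (node (nat_lit 4) (nat_lit 80800) (nat_lit 14) nil (node (nat_lit 5) (nat_lit
  75868) (nat_lit 14) nil nil)) (node (nat_lit 5) (nat_lit 80469) (nat_lit 13) nil (node (nat_lit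
  14) (nat_lit 78912) (nat_lit 13) nil nil))) (node (nat_lit 5) (nat_lit 75191) (nat_lit 12) (node
  (nat_lit 6) (nat_lit 79301) (nat_lit 13) (node (nat_lit 5) (nat_lit 78607) (nat_lit 14) nil nil)
  (node (nat_lit 4) (nat_lit 77857) (nat_lit 13) (node (nat_lit 5) (nat_lit 79620) (nat_lit 14)
  nil nil) (node (nat_lit 14) (nat_lit 79214) (nat_lit 13) nil nil))) (node (nat_lit 0) (nat_lit
  76258) (nat_lit 12) nil nil)))) nil)) (node (nat_lit 0) (nat_lit 63415) (nat_lit 10) (node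
  (nat_lit 6) (nat_lit 68038) (nat_lit 11) (node (nat_lit 5) (nat_lit 74274) (nat_lit 12) (node
  (nat_lit 6) (nat_lit 74071) (nat_lit 13) (node (nat_lit 4) (nat_lit 76948) (nat_lit 14) (node
  (nat_lit 5) (nat_lit 76679) (nat_lit 15) nil nil) nil) (node (nat_lit 4) (nat_lit 75490)
  (nat_lit 13) nil nil)) (node (nat_lit 4) (nat_lit 74274) (nat_lit 12) (node (nat_lit 6) (nat_lit
  75242) (nat_lit 13) nil (node (nat_lit 5) (nat_lit 76115) (nat_lit 13) nil nil)) (node (nat_lit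
  13) (nat_lit 75975) (nat_lit 12) nil nil))) (node (nat_lit 5) (nat_lit 68223) (nat_lit 11) (node
  (nat_lit 4) (nat_lit 74789) (nat_lit 12) (node (nat_lit 5) (nat_lit 78861) (nat_lit 13) nil
  (node (nat_lit 6) (nat_lit 77213) (nat_lit 13) nil nil)) (node (nat_lit 6) (nat_lit 74663)
  (nat_lit 12) (node (nat_lit 4) (nat_lit 78298) (nat_lit 13) nil (node (nat_lit 5) (nat_lit
  73878) (nat_lit 13) nil nil)) (node (nat_lit 13) (nat_lit 76718) (nat_lit 12) nil nil))) (node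
  (nat_lit 4) (nat_lit 67941) (nat_lit 11) (node (nat_lit 5) (nat_lit 74811) (nat_lit 12) (node
  (nat_lit 6) (nat_lit 77192) (nat_lit 13) nil nil) (node (nat_lit 6) (nat_lit 74551) (nat_lit 12)
  (node (nat_lit 5) (nat_lit 78501) (nat_lit 13) nil nil) nil)) (node (nat_lit 0) (nat_lit 70589)
  (nat_lit 11) (node (nat_lit 13) (nat_lit 72848) (nat_lit 12) nil nil) nil)))) nil)) (node
  (nat_lit 0) (nat_lit 53490) (nat_lit 9) (node (nat_lit 6) (nat_lit 59424) (nat_lit 10) (node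
  (nat_lit 4) (nat_lit 67416) (nat_lit 11) (node (nat_lit 5) (nat_lit 70505) (nat_lit 12) nil nil)
  (node (nat_lit 5) (nat_lit 67443) (nat_lit 11) (node (nat_lit 4) (nat_lit 69804) (nat_lit 12)
  nil nil) nil)) (node (nat_lit 4) (nat_lit 59690) (nat_lit 10) (node (nat_lit 6) (nat_lit 67063)
  (nat_lit 11) (node (nat_lit 5) (nat_lit 68686) (nat_lit 12) nil nil) (node (nat_lit 5) (nat_lit
  67787) (nat_lit 11) (node (nat_lit 6) (nat_lit 68041) (nat_lit 12) nil nil) (node (nat_lit 12)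
  (nat_lit 69856) (nat_lit 11) nil nil))) (node (nat_lit 5) (nat_lit 59515) (nat_lit 10) (node
  (nat_lit 6) (nat_lit 67877) (nat_lit 11) (node (nat_lit 4) (nat_lit 72535) (nat_lit 12) nil nil)
  (node (nat_lit 4) (nat_lit 67954) (nat_lit 11) (node (nat_lit 6) (nat_lit 69052) (nat_lit 12)
  nil nil) nil)) nil))) nil)))

noncomputable def t261 : Tr :=
  (node (nat_lit 6) (nat_lit 0) (nat_lit 10) (node (nat_lit 5) (nat_lit 0) (nat_lit 11) (node
  (nat_lit 4) (nat_lit 0) (nat_lit 12) (node (nat_lit 5) (nat_lit 0) (nat_lit 13) (node (nat_lit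
  6) (nat_lit 0) (nat_lit 14) (node (nat_lit 4) (nat_lit 0) (nat_lit 15) (node (nat_lit 5)
  (nat_lit 0) (nat_lit 16) (node (nat_lit 4) (nat_lit 129657) (nat_lit 17) (node (nat_lit 6)
  (nat_lit 130128) (nat_lit 18) (node (nat_lit 4) (nat_lit 130356) (nat_lit 19) (node (nat_lit 5)
  (nat_lit 130533) (nat_lit 20) (node (nat_lit 6) (nat_lit 130404) (nat_lit 21) (node (nat_lit 5)
  (nat_lit 130383) (nat_lit 22) (node (nat_lit 4) (nat_lit 130428) (nat_lit 23) (node (nat_lit 6)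
  (nat_lit 129322) (nat_lit 24) (node (nat_lit 5) (nat_lit 128885) (nat_lit 25) (node (nat_lit 6)
  (nat_lit 126570) (nat_lit 26) (node (nat_lit 4) (nat_lit 123825) (nat_lit 27) (node (nat_lit 6)
  (nat_lit 120687) (nat_lit 28) (node (nat_lit 5) (nat_lit 113174) (nat_lit 29) (node (nat_lit 4)
  (nat_lit 100913) (nat_lit 30) (node (nat_lit 5) (nat_lit 85574) (nat_lit 31) (node (nat_lit 6)
  (nat_lit 70723) (nat_lit 32) (node (nat_lit 4) (nat_lit 70745) (nat_lit 33) (node (nat_lit 5)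
  (nat_lit 70762) (nat_lit 34) nil nil) nil) nil) nil) nil) nil) nil) nil) nil) nil) nil) nil)
  nil) nil) nil) (node (nat_lit 5) (nat_lit 130260) (nat_lit 19) (node (nat_lit 4) (nat_lit
  130489) (nat_lit 20) (node (nat_lit 5) (nat_lit 130056) (nat_lit 21) (node (nat_lit 6) (nat_lit
  129789) (nat_lit 22) (node (nat_lit 5) (nat_lit 129304) (nat_lit 23) nil nil) nil) nil) nil)
  nil)) nil) (node (nat_lit 0) (nat_lit 130161) (nat_lit 17) nil nil)) (node (nat_lit 6) (nat_lit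
  0) (nat_lit 16) (node (nat_lit 5) (nat_lit 129975) (nat_lit 17) (node (nat_lit 6) (nat_lit
  130456) (nat_lit 18) (node (nat_lit 4) (nat_lit 130684) (nat_lit 19) (node (nat_lit 5) (nat_lit
  130861) (nat_lit 20) (node (nat_lit 6) (nat_lit 130642) (nat_lit 21) (node (nat_lit 5) (nat_lit
  130179) (nat_lit 22) (node (nat_lit 4) (nat_lit 130181) (nat_lit 23) (node (nat_lit 6) (nat_lit
  128878) (nat_lit 24) (node (nat_lit 5) (nat_lit 128409) (nat_lit 25) (node (nat_lit 6) (nat_lit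
  126071) (nat_lit 26) (node (nat_lit 4) (nat_lit 123306) (nat_lit 27) (node (nat_lit 6) (nat_lit
  120154) (nat_lit 28) (node (nat_lit 5) (nat_lit 112651) (nat_lit 29) (node (nat_lit 4) (nat_lit
  109215) (nat_lit 30) (node (nat_lit 5) (nat_lit 99664) (nat_lit 31) (node (nat_lit 6) (nat_lit
  89717) (nat_lit 32) (node (nat_lit 4) (nat_lit 89738) (nat_lit 33) nil nil) nil) nil) nil) nil)
  nil) nil) nil) nil) nil) nil) nil) nil) nil) nil) nil) (node (nat_lit 0) (nat_lit 130161)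
  (nat_lit 17) nil nil)) (node (nat_lit 0) (nat_lit 129870) (nat_lit 16) nil nil))) (node (nat_lit
  5) (nat_lit 0) (nat_lit 15) (node (nat_lit 4) (nat_lit 0) (nat_lit 16) (node (nat_lit 6)
  (nat_lit 119566) (nat_lit 17) (node (nat_lit 5) (nat_lit 0) (nat_lit 18) (node (nat_lit 6)
  (nat_lit 84085) (nat_lit 19) (node (nat_lit 4) (nat_lit 84085) (nat_lit 20) (node (nat_lit 5)
  (nat_lit 84085) (nat_lit 21) nil (node (nat_lit 6) (nat_lit 84085) (nat_lit 21) nil nil)) nil)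
  (node (nat_lit 0) (nat_lit 84085) (nat_lit 19) nil nil)) (node (nat_lit 4) (nat_lit 120764)
  (nat_lit 18) (node (nat_lit 5) (nat_lit 120719) (nat_lit 19) (node (nat_lit 6) (nat_lit 120321)
  (nat_lit 20) (node (nat_lit 5) (nat_lit 119772) (nat_lit 21) nil nil) (node (nat_lit 4) (nat_lit
  120716) (nat_lit 20) nil nil)) nil) nil)) (node (nat_lit 0) (nat_lit 125112) (nat_lit 17) nil
  nil)) (node (nat_lit 0) (nat_lit 129491) (nat_lit 16) nil nil)) (node (nat_lit 0) (nat_lit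
  128660) (nat_lit 15) (node (nat_lit 5) (nat_lit 128389) (nat_lit 16) (node (nat_lit 6) (nat_lit
  128508) (nat_lit 17) nil nil) (node (nat_lit 6) (nat_lit 129039) (nat_lit 16) nil (node (nat_lit
  4) (nat_lit 128660) (nat_lit 16) nil nil))) nil))) (node (nat_lit 0) (nat_lit 125794) (nat_lit
  14) (node (nat_lit 5) (nat_lit 125569) (nat_lit 15) (node (nat_lit 4) (nat_lit 126924) (nat_lit
  16) nil (node (nat_lit 6) (nat_lit 126935) (nat_lit 16) nil nil)) (node (nat_lit 6) (nat_lit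
  126270) (nat_lit 15) nil (node (nat_lit 4) (nat_lit 126282) (nat_lit 15) nil nil))) nil)) (node
  (nat_lit 6) (nat_lit 0) (nat_lit 13) (node (nat_lit 4) (nat_lit 0) (nat_lit 14) (node (nat_lit
  5) (nat_lit 0) (nat_lit 15) (node (nat_lit 4) (nat_lit 127653) (nat_lit 16) (node (nat_lit 6)
  (nat_lit 128478) (nat_lit 17) (node (nat_lit 5) (nat_lit 129616) (nat_lit 18) (node (nat_lit 4)
  (nat_lit 129113) (nat_lit 19) (node (nat_lit 5) (nat_lit 128749) (nat_lit 20) (node (nat_lit 6)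
  (nat_lit 128579) (nat_lit 21) (node (nat_lit 5) (nat_lit 128119) (nat_lit 22) (node (nat_lit 4)
  (nat_lit 127933) (nat_lit 23) (node (nat_lit 6) (nat_lit 126671) (nat_lit 24) (node (nat_lit 5)
  (nat_lit 126113) (nat_lit 25) (node (nat_lit 6) (nat_lit 123776) (nat_lit 26) (node (nat_lit 4)
  (nat_lit 120916) (nat_lit 27) (node (nat_lit 6) (nat_lit 116823) (nat_lit 28) (node (nat_lit 5)
  (nat_lit 111001) (nat_lit 29) (node (nat_lit 4) (nat_lit 100996) (nat_lit 30) (node (nat_lit 6)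
  (nat_lit 83763) (nat_lit 31) (node (nat_lit 4) (nat_lit 83769) (nat_lit 32) (node (nat_lit 5)
  (nat_lit 83754) (nat_lit 33) nil nil) nil) nil) nil) nil) nil) nil) nil) nil) nil) nil) nil)
  nil) nil) (node (nat_lit 6) (nat_lit 130263) (nat_lit 19) (node (nat_lit 4) (nat_lit 130815)
  (nat_lit 20) (node (nat_lit 5) (nat_lit 130661) (nat_lit 21) (node (nat_lit 6) (nat_lit 130403)
  (nat_lit 22) (node (nat_lit 5) (nat_lit 129973) (nat_lit 23) (node (nat_lit 4) (nat_lit 129880)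
  (nat_lit 24) (node (nat_lit 6) (nat_lit 128754) (nat_lit 25) nil nil) nil) nil) nil) nil) nil)
  nil)) nil) nil) (node (nat_lit 6) (nat_lit 128950) (nat_lit 16) (node (nat_lit 5) (nat_lit
  130165) (nat_lit 17) (node (nat_lit 4) (nat_lit 130685) (nat_lit 18) (node (nat_lit 6) (nat_lit
  118322) (nat_lit 19) (node (nat_lit 5) (nat_lit 118111) (nat_lit 20) (node (nat_lit 6) (nat_lit
  103628) (nat_lit 21) (node (nat_lit 4) (nat_lit 92101) (nat_lit 22) (node (nat_lit 6) (nat_lit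
  71289) (nat_lit 23) (node (nat_lit 5) (nat_lit 47477) (nat_lit 24) (node (nat_lit 4) (nat_lit
  47504) (nat_lit 25) nil nil) nil) (node (nat_lit 5) (nat_lit 92020) (nat_lit 23) nil nil)) nil)
  nil) nil) (node (nat_lit 5) (nat_lit 128364) (nat_lit 19) (node (nat_lit 6) (nat_lit 127950)
  (nat_lit 20) nil nil) nil)) nil) (node (nat_lit 4) (nat_lit 129787) (nat_lit 17) (node (nat_lit
  6) (nat_lit 129604) (nat_lit 18) nil nil) nil)) (node (nat_lit 0) (nat_lit 128545) (nat_lit 16)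
  nil nil))) (node (nat_lit 0) (nat_lit 128777) (nat_lit 15) (node (nat_lit 6) (nat_lit 128862)
  (nat_lit 16) (node (nat_lit 4) (nat_lit 129698) (nat_lit 17) nil nil) (node (nat_lit 5) (nat_lit
  128768) (nat_lit 16) nil (node (nat_lit 4) (nat_lit 128506) (nat_lit 16) nil nil))) nil)) (node
  (nat_lit 0) (nat_lit 125794) (nat_lit 14) (node (nat_lit 6) (nat_lit 126270) (nat_lit 15) (node
  (nat_lit 4) (nat_lit 127730) (nat_lit 16) (node (nat_lit 5) (nat_lit 128567) (nat_lit 17) nil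
  nil) (node (nat_lit 5) (nat_lit 127577) (nat_lit 16) nil nil)) (node (nat_lit 4) (nat_lit
  127114) (nat_lit 15) (node (nat_lit 6) (nat_lit 127644) (nat_lit 16) nil (node (nat_lit 5)
  (nat_lit 127918) (nat_lit 16) nil nil)) (node (nat_lit 5) (nat_lit 126401) (nat_lit 15) (node
  (nat_lit 6) (nat_lit 127589) (nat_lit 16) nil (node (nat_lit 4) (nat_lit 127485) (nat_lit 16)
  nil nil)) nil))) nil)) (node (nat_lit 0) (nat_lit 122867) (nat_lit 13) (node (nat_lit 6)
  (nat_lit 124564) (nat_lit 14) (node (nat_lit 4) (nat_lit 126427) (nat_lit 15) (node (nat_lit 6)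
  (nat_lit 126583) (nat_lit 16) nil nil) (node (nat_lit 5) (nat_lit 126546) (nat_lit 15) (node
  (nat_lit 4) (nat_lit 126533) (nat_lit 16) nil (node (nat_lit 6) (nat_lit 126449) (nat_lit 16)
  nil nil)) nil)) (node (nat_lit 5) (nat_lit 124860) (nat_lit 14) (node (nat_lit 4) (nat_lit
  126514) (nat_lit 15) (node (nat_lit 5) (nat_lit 127589) (nat_lit 16) nil nil) (node (nat_lit 6)
  (nat_lit 127555) (nat_lit 15) (node (nat_lit 5) (nat_lit 127181) (nat_lit 16) nil nil) nil))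
  (node (nat_lit 4) (nat_lit 124564) (nat_lit 14) (node (nat_lit 6) (nat_lit 126416) (nat_lit 15)
  (node (nat_lit 5) (nat_lit 127723) (nat_lit 16) nil (node (nat_lit 4) (nat_lit 127491) (nat_lit
  16) nil nil)) (node (nat_lit 5) (nat_lit 126546) (nat_lit 15) (node (nat_lit 6) (nat_lit 126701)
  (nat_lit 16) nil (node (nat_lit 4) (nat_lit 126533) (nat_lit 16) nil nil)) nil)) (node (nat_lit
  0) (nat_lit 125939) (nat_lit 14) nil nil)))) nil))) (node (nat_lit 0) (nat_lit 117619) (nat_lit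
  12) (node (nat_lit 6) (nat_lit 120541) (nat_lit 13) (node (nat_lit 5) (nat_lit 124517) (nat_lit
  14) (node (nat_lit 6) (nat_lit 124341) (nat_lit 15) (node (nat_lit 4) (nat_lit 125572) (nat_lit
  16) (node (nat_lit 5) (nat_lit 125441) (nat_lit 17) nil nil) nil) (node (nat_lit 4) (nat_lit
  124481) (nat_lit 15) nil nil)) (node (nat_lit 4) (nat_lit 124001) (nat_lit 14) (node (nat_lit 6)
  (nat_lit 124182) (nat_lit 15) (node (nat_lit 5) (nat_lit 123535) (nat_lit 16) nil nil) (node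
  (nat_lit 5) (nat_lit 125376) (nat_lit 15) nil nil)) (node (nat_lit 15) (nat_lit 123680) (nat_lit
  14) nil nil))) (node (nat_lit 5) (nat_lit 120169) (nat_lit 13) (node (nat_lit 4) (nat_lit
  124216) (nat_lit 14) (node (nat_lit 6) (nat_lit 124614) (nat_lit 15) (node (nat_lit 5) (nat_lit
  122773) (nat_lit 16) nil nil) (node (nat_lit 5) (nat_lit 125592) (nat_lit 15) nil nil)) (node
  (nat_lit 6) (nat_lit 123838) (nat_lit 14) (node (nat_lit 5) (nat_lit 125820) (nat_lit 15) nil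
  (node (nat_lit 4) (nat_lit 125213) (nat_lit 15) nil nil)) (node (nat_lit 0) (nat_lit 123308)
  (nat_lit 14) nil nil))) (node (nat_lit 4) (nat_lit 120208) (nat_lit 13) (node (nat_lit 5)
  (nat_lit 124008) (nat_lit 14) (node (nat_lit 4) (nat_lit 124810) (nat_lit 15) (node (nat_lit 6)
  (nat_lit 123136) (nat_lit 16) nil nil) (node (nat_lit 6) (nat_lit 124190) (nat_lit 15) nil nil))
  (node (nat_lit 6) (nat_lit 123668) (nat_lit 14) (node (nat_lit 5) (nat_lit 121726) (nat_lit 15)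
  nil (node (nat_lit 4) (nat_lit 125043) (nat_lit 15) nil nil)) (node (nat_lit 15) (nat_lit
  123347) (nat_lit 14) nil nil))) (node (nat_lit 0) (nat_lit 121550) (nat_lit 13) nil nil))))
  nil)) (node (nat_lit 0) (nat_lit 0) (nat_lit 11) (node (nat_lit 6) (nat_lit 114021) (nat_lit 12)
  (node (nat_lit 5) (nat_lit 119847) (nat_lit 13) (node (nat_lit 4) (nat_lit 123617) (nat_lit 14)
  (node (nat_lit 6) (nat_lit 122598) (nat_lit 15) nil nil) (node (nat_lit 6) (nat_lit 123307)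
  (nat_lit 14) (node (nat_lit 4) (nat_lit 122229) (nat_lit 15) (node (nat_lit 5) (nat_lit 122589)
  (nat_lit 16) nil nil) nil) nil)) (node (nat_lit 4) (nat_lit 118557) (nat_lit 13) (node (nat_lit
  5) (nat_lit 123422) (nat_lit 14) nil (node (nat_lit 6) (nat_lit 120928) (nat_lit 14) (node
  (nat_lit 5) (nat_lit 118987) (nat_lit 15) nil nil) nil)) (node (nat_lit 0) (nat_lit 120213)
  (nat_lit 13) nil nil))) (node (nat_lit 4) (nat_lit 114188) (nat_lit 12) (node (nat_lit 6)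
  (nat_lit 119115) (nat_lit 13) (node (nat_lit 5) (nat_lit 123137) (nat_lit 14) (node (nat_lit 6)
  (nat_lit 122961) (nat_lit 15) (node (nat_lit 4) (nat_lit 124441) (nat_lit 16) (node (nat_lit 5)
  (nat_lit 124788) (nat_lit 17) nil nil) nil) (node (nat_lit 4) (nat_lit 121431) (nat_lit 15) nil
  nil)) (node (nat_lit 4) (nat_lit 122574) (nat_lit 14) (node (nat_lit 5) (nat_lit 123950)
  (nat_lit 15) nil nil) nil)) (node (nat_lit 5) (nat_lit 119642) (nat_lit 13) (node (nat_lit 4)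
  (nat_lit 122734) (nat_lit 14) (node (nat_lit 6) (nat_lit 120522) (nat_lit 15) nil nil) (node
  (nat_lit 6) (nat_lit 121533) (nat_lit 14) (node (nat_lit 5) (nat_lit 122571) (nat_lit 15) (node
  (nat_lit 4) (nat_lit 122686) (nat_lit 16) nil nil) (node (nat_lit 4) (nat_lit 122908) (nat_lit
  15) nil nil)) nil)) (node (nat_lit 14) (nat_lit 120379) (nat_lit 13) nil nil))) (node (nat_lit
  5) (nat_lit 115387) (nat_lit 12) (node (nat_lit 6) (nat_lit 120396) (nat_lit 13) (node (nat_lit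
  5) (nat_lit 123210) (nat_lit 14) (node (nat_lit 4) (nat_lit 124637) (nat_lit 15) (node (nat_lit
  6) (nat_lit 125294) (nat_lit 16) nil (node (nat_lit 5) (nat_lit 121337) (nat_lit 16) nil nil))
  nil) (node (nat_lit 4) (nat_lit 122783) (nat_lit 14) (node (nat_lit 6) (nat_lit 122964) (nat_lit
  15) nil nil) nil)) (node (nat_lit 4) (nat_lit 120445) (nat_lit 13) (node (nat_lit 6) (nat_lit
  122659) (nat_lit 14) (node (nat_lit 4) (nat_lit 122776) (nat_lit 15) (node (nat_lit 5) (nat_lit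
  119845) (nat_lit 16) (node (nat_lit 6) (nat_lit 119017) (nat_lit 17) (node (nat_lit 5) (nat_lit
  116939) (nat_lit 18) nil nil) nil) nil) (node (nat_lit 5) (nat_lit 120717) (nat_lit 15) nil
  nil)) (node (nat_lit 5) (nat_lit 122832) (nat_lit 14) (node (nat_lit 6) (nat_lit 123014)
  (nat_lit 15) nil nil) nil)) (node (nat_lit 14) (nat_lit 121578) (nat_lit 13) nil nil))) (node
  (nat_lit 0) (nat_lit 116222) (nat_lit 12) (node (nat_lit 6) (nat_lit 116978) (nat_lit 13) nil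
  nil) nil)))) nil)) (node (nat_lit 5) (nat_lit 0) (nat_lit 10) (node (nat_lit 6) (nat_lit 0)
  (nat_lit 11) (node (nat_lit 5) (nat_lit 0) (nat_lit 12) (node (nat_lit 4) (nat_lit 0) (nat_lit
  13) (node (nat_lit 6) (nat_lit 0) (nat_lit 14) (node (nat_lit 4) (nat_lit 0) (nat_lit 15) (node
  (nat_lit 5) (nat_lit 89592) (nat_lit 16) (node (nat_lit 4) (nat_lit 89940) (nat_lit 17) (node
  (nat_lit 6) (nat_lit 90723) (nat_lit 18) (node (nat_lit 5) (nat_lit 91275) (nat_lit 19) (node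
  (nat_lit 6) (nat_lit 91782) (nat_lit 20) (node (nat_lit 4) (nat_lit 92176) (nat_lit 21) nil nil)
  nil) nil) nil) (node (nat_lit 6) (nat_lit 89563) (nat_lit 17) (node (nat_lit 4) (nat_lit 90218)
  (nat_lit 18) (node (nat_lit 6) (nat_lit 90294) (nat_lit 19) nil nil) (node (nat_lit 5) (nat_lit
  87670) (nat_lit 18) nil nil)) nil)) (node (nat_lit 0) (nat_lit 90099) (nat_lit 16) nil nil))
  (node (nat_lit 0) (nat_lit 88891) (nat_lit 15) nil (node (nat_lit 5) (nat_lit 44074) (nat_lit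
  15) nil nil))) (node (nat_lit 5) (nat_lit 0) (nat_lit 14) (node (nat_lit 6) (nat_lit 87925)
  (nat_lit 15) (node (nat_lit 4) (nat_lit 89669) (nat_lit 16) (node (nat_lit 6) (nat_lit 91029)
  (nat_lit 17) (node (nat_lit 5) (nat_lit 91750) (nat_lit 18) (node (nat_lit 6) (nat_lit 92398)
  (nat_lit 19) (node (nat_lit 4) (nat_lit 92905) (nat_lit 20) (node (nat_lit 5) (nat_lit 93137)
  (nat_lit 21) (node (nat_lit 6) (nat_lit 93238) (nat_lit 22) (node (nat_lit 5) (nat_lit 93278)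
  (nat_lit 23) (node (nat_lit 4) (nat_lit 93387) (nat_lit 24) nil nil) nil) nil) nil) nil) nil)
  nil) (node (nat_lit 5) (nat_lit 90595) (nat_lit 17) (node (nat_lit 4) (nat_lit 91204) (nat_lit
  18) nil nil) nil)) nil) (node (nat_lit 0) (nat_lit 88146) (nat_lit 15) nil nil)) (node (nat_lit
  0) (nat_lit 87071) (nat_lit 14) (node (nat_lit 4) (nat_lit 87071) (nat_lit 15) nil (node
  (nat_lit 6) (nat_lit 87071) (nat_lit 15) nil (node (nat_lit 5) (nat_lit 87071) (nat_lit 15) nil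
  nil))) nil))) (node (nat_lit 0) (nat_lit 84596) (nat_lit 13) (node (nat_lit 6) (nat_lit 85695)
  (nat_lit 14) (node (nat_lit 4) (nat_lit 87071) (nat_lit 15) nil (node (nat_lit 5) (nat_lit
  87212) (nat_lit 15) nil nil)) (node (nat_lit 4) (nat_lit 84623) (nat_lit 14) (node (nat_lit 6)
  (nat_lit 84804) (nat_lit 15) nil (node (nat_lit 5) (nat_lit 85998) (nat_lit 15) nil nil)) (node
  (nat_lit 5) (nat_lit 83703) (nat_lit 14) nil nil))) nil)) (node (nat_lit 0) (nat_lit 95054)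
  (nat_lit 12) (node (nat_lit 5) (nat_lit 96909) (nat_lit 13) (node (nat_lit 6) (nat_lit 97725)
  (nat_lit 14) nil (node (nat_lit 4) (nat_lit 96819) (nat_lit 14) nil nil)) (node (nat_lit 6)
  (nat_lit 96458) (nat_lit 13) (node (nat_lit 5) (nat_lit 98400) (nat_lit 14) nil (node (nat_lit
  4) (nat_lit 98221) (nat_lit 14) nil nil)) (node (nat_lit 4) (nat_lit 96458) (nat_lit 13) (node
  (nat_lit 6) (nat_lit 97274) (nat_lit 14) nil (node (nat_lit 5) (nat_lit 98221) (nat_lit 14) nil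
  nil)) nil))) nil)) (node (nat_lit 4) (nat_lit 0) (nat_lit 11) (node (nat_lit 6) (nat_lit 0)
  (nat_lit 12) (node (nat_lit 5) (nat_lit 0) (nat_lit 13) (node (nat_lit 4) (nat_lit 0) (nat_lit
  14) (node (nat_lit 5) (nat_lit 0) (nat_lit 15) (node (nat_lit 6) (nat_lit 128386) (nat_lit 16)
  (node (nat_lit 5) (nat_lit 129594) (nat_lit 17) (node (nat_lit 4) (nat_lit 130654) (nat_lit 18)
  (node (nat_lit 6) (nat_lit 125933) (nat_lit 19) (node (nat_lit 5) (nat_lit 99799) (nat_lit 20)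
  (node (nat_lit 6) (nat_lit 84046) (nat_lit 21) (node (nat_lit 4) (nat_lit 84085) (nat_lit 22)
  (node (nat_lit 5) (nat_lit 83951) (nat_lit 23) (node (nat_lit 4) (nat_lit 83883) (nat_lit 24)
  (node (nat_lit 6) (nat_lit 83908) (nat_lit 25) nil nil) nil) nil) nil) nil) (node (nat_lit 4)
  (nat_lit 126110) (nat_lit 20) nil nil)) nil) nil) (node (nat_lit 4) (nat_lit 129223) (nat_lit
  17) nil nil)) (node (nat_lit 0) (nat_lit 128189) (nat_lit 16) nil nil)) (node (nat_lit 0)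
  (nat_lit 126032) (nat_lit 15) nil nil)) (node (nat_lit 6) (nat_lit 0) (nat_lit 14) (node
  (nat_lit 0) (nat_lit 125891) (nat_lit 15) nil nil) (node (nat_lit 0) (nat_lit 124336) (nat_lit
  14) nil nil))) (node (nat_lit 4) (nat_lit 0) (nat_lit 13) (node (nat_lit 5) (nat_lit 123923)
  (nat_lit 14) (node (nat_lit 6) (nat_lit 124921) (nat_lit 15) (node (nat_lit 5) (nat_lit 124511)
  (nat_lit 16) (node (nat_lit 4) (nat_lit 122636) (nat_lit 17) (node (nat_lit 6) (nat_lit 114878)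
  (nat_lit 18) (node (nat_lit 5) (nat_lit 84257) (nat_lit 19) (node (nat_lit 6) (nat_lit 84653)
  (nat_lit 20) (node (nat_lit 4) (nat_lit 70086) (nat_lit 21) (node (nat_lit 5) (nat_lit 70035)
  (nat_lit 22) (node (nat_lit 4) (nat_lit 47104) (nat_lit 23) nil nil) nil) nil) nil) nil) (node
  (nat_lit 5) (nat_lit 123520) (nat_lit 18) (node (nat_lit 6) (nat_lit 123888) (nat_lit 19) nil
  nil) nil)) nil) (node (nat_lit 4) (nat_lit 125996) (nat_lit 16) (node (nat_lit 6) (nat_lit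
  126120) (nat_lit 17) nil nil) nil)) nil) (node (nat_lit 0) (nat_lit 123124) (nat_lit 14) nil
  nil)) (node (nat_lit 0) (nat_lit 121310) (nat_lit 13) nil nil))) (node (nat_lit 0) (nat_lit
  117035) (nat_lit 12) (node (nat_lit 6) (nat_lit 117792) (nat_lit 13) nil (node (nat_lit 5)
  (nat_lit 116617) (nat_lit 13) nil (node (nat_lit 4) (nat_lit 117811) (nat_lit 13) nil nil)))
  nil)) (node (nat_lit 0) (nat_lit 111281) (nat_lit 11) (node (nat_lit 5) (nat_lit 114695)
  (nat_lit 12) (node (nat_lit 4) (nat_lit 115311) (nat_lit 13) nil (node (nat_lit 6) (nat_lit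
  117076) (nat_lit 13) nil nil)) (node (nat_lit 4) (nat_lit 114092) (nat_lit 12) (node (nat_lit 5)
  (nat_lit 115934) (nat_lit 13) nil (node (nat_lit 6) (nat_lit 114304) (nat_lit 13) nil nil))
  (node (nat_lit 6) (nat_lit 114187) (nat_lit 12) (node (nat_lit 4) (nat_lit 117223) (nat_lit 13)
  nil (node (nat_lit 5) (nat_lit 115002) (nat_lit 13) nil nil)) (node (nat_lit 0) (nat_lit 113541)
  (nat_lit 12) nil nil)))) nil))) (node (nat_lit 0) (nat_lit 102207) (nat_lit 10) (node (nat_lit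
  6) (nat_lit 107112) (nat_lit 11) (node (nat_lit 4) (nat_lit 113348) (nat_lit 12) (node (nat_lit
  6) (nat_lit 115544) (nat_lit 13) (node (nat_lit 5) (nat_lit 113817) (nat_lit 14) nil nil) (node
  (nat_lit 5) (nat_lit 115608) (nat_lit 13) nil nil)) (node (nat_lit 5) (nat_lit 111904) (nat_lit
  12) (node (nat_lit 4) (nat_lit 111743) (nat_lit 13) nil nil) (node (nat_lit 13) (nat_lit 112265)
  (nat_lit 12) nil nil))) (node (nat_lit 5) (nat_lit 107925) (nat_lit 11) (node (nat_lit 4)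
  (nat_lit 114160) (nat_lit 12) (node (nat_lit 5) (nat_lit 116420) (nat_lit 13) nil (node (nat_lit
  6) (nat_lit 110498) (nat_lit 13) nil nil)) (node (nat_lit 6) (nat_lit 113177) (nat_lit 12) (node
  (nat_lit 5) (nat_lit 112392) (nat_lit 13) nil (node (nat_lit 4) (nat_lit 115437) (nat_lit 13)
  nil nil)) nil)) (node (nat_lit 4) (nat_lit 107221) (nat_lit 11) (node (nat_lit 6) (nat_lit
  112600) (nat_lit 12) (node (nat_lit 5) (nat_lit 114415) (nat_lit 13) nil nil) (node (nat_lit 5)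
  (nat_lit 114375) (nat_lit 12) (node (nat_lit 6) (nat_lit 114587) (nat_lit 13) nil nil) nil))
  (node (nat_lit 0) (nat_lit 108663) (nat_lit 11) nil nil)))) nil)))

noncomputable def t262 : Tr :=
  (node (nat_lit 4) (nat_lit 0) (nat_lit 4) (node (nat_lit 6) (nat_lit 0) (nat_lit 5) (node
  (nat_lit 5) (nat_lit 0) (nat_lit 6) t259 nil) (node (nat_lit 5) (nat_lit 0) (nat_lit 5) (node
  (nat_lit 4) (nat_lit 0) (nat_lit 6) (node (nat_lit 6) (nat_lit 0) (nat_lit 7) (node (nat_lit 5)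
  (nat_lit 0) (nat_lit 8) (node (nat_lit 6) (nat_lit 0) (nat_lit 9) (node (nat_lit 4) (nat_lit 0)
  (nat_lit 10) (node (nat_lit 6) (nat_lit 0) (nat_lit 11) (node (nat_lit 5) (nat_lit 0) (nat_lit
  12) (node (nat_lit 4) (nat_lit 0) (nat_lit 13) (node (nat_lit 5) (nat_lit 105335) (nat_lit 14)
  (node (nat_lit 6) (nat_lit 105282) (nat_lit 15) (node (nat_lit 4) (nat_lit 103088) (nat_lit 16)
  (node (nat_lit 5) (nat_lit 100855) (nat_lit 17) (node (nat_lit 4) (nat_lit 95513) (nat_lit 18)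
  (node (nat_lit 6) (nat_lit 84766) (nat_lit 19) (node (nat_lit 5) (nat_lit 51029) (nat_lit 20)
  (node (nat_lit 4) (nat_lit 51234) (nat_lit 21) (node (nat_lit 5) (nat_lit 51418) (nat_lit 22)
  (node (nat_lit 6) (nat_lit 50213) (nat_lit 23) nil nil) nil) nil) nil) nil) nil) nil) (node
  (nat_lit 5) (nat_lit 105621) (nat_lit 16) (node (nat_lit 4) (nat_lit 105857) (nat_lit 17) (node
  (nat_lit 6) (nat_lit 106149) (nat_lit 18) nil nil) nil) nil)) nil) (node (nat_lit 6) (nat_lit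
  105747) (nat_lit 14) (node (nat_lit 4) (nat_lit 106357) (nat_lit 15) (node (nat_lit 5) (nat_lit
  106389) (nat_lit 16) (node (nat_lit 6) (nat_lit 106389) (nat_lit 17) nil (node (nat_lit 4)
  (nat_lit 106389) (nat_lit 17) nil nil)) nil) nil) (node (nat_lit 0) (nat_lit 106357) (nat_lit
  14) nil nil))) (node (nat_lit 0) (nat_lit 105747) (nat_lit 13) nil nil)) (node (nat_lit 0)
  (nat_lit 104963) (nat_lit 12) (node (nat_lit 4) (nat_lit 104963) (nat_lit 13) nil nil) nil))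
  (node (nat_lit 5) (nat_lit 0) (nat_lit 11) (node (nat_lit 6) (nat_lit 0) (nat_lit 12) (node
  (nat_lit 5) (nat_lit 0) (nat_lit 13) (node (nat_lit 4) (nat_lit 105601) (nat_lit 14) (node
  (nat_lit 6) (nat_lit 106357) (nat_lit 15) (node (nat_lit 5) (nat_lit 106389) (nat_lit 16) (node
  (nat_lit 6) (nat_lit 106389) (nat_lit 17) (node (nat_lit 4) (nat_lit 106389) (nat_lit 18) (node
  (nat_lit 6) (nat_lit 106389) (nat_lit 19) nil nil) nil) nil) (node (nat_lit 4) (nat_lit 106389)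
  (nat_lit 16) (node (nat_lit 5) (nat_lit 106389) (nat_lit 17) nil nil) nil)) (node (nat_lit 5)
  (nat_lit 105578) (nat_lit 15) (node (nat_lit 6) (nat_lit 105781) (nat_lit 16) (node (nat_lit 4)
  (nat_lit 104398) (nat_lit 17) (node (nat_lit 5) (nat_lit 102891) (nat_lit 18) (node (nat_lit 4)
  (nat_lit 99935) (nat_lit 19) (node (nat_lit 6) (nat_lit 87859) (nat_lit 20) (node (nat_lit 5)
  (nat_lit 57250) (nat_lit 21) (node (nat_lit 6) (nat_lit 57488) (nat_lit 22) (node (nat_lit 4)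
  (nat_lit 41440) (nat_lit 23) nil nil) nil) nil) nil) nil) (node (nat_lit 6) (nat_lit 104132)
  (nat_lit 18) nil nil)) nil) nil) nil)) (node (nat_lit 0) (nat_lit 106338) (nat_lit 14) nil nil))
  (node (nat_lit 0) (nat_lit 105747) (nat_lit 13) (node (nat_lit 5) (nat_lit 105747) (nat_lit 14)
  nil (node (nat_lit 4) (nat_lit 105747) (nat_lit 14) nil (node (nat_lit 6) (nat_lit 105747)
  (nat_lit 14) nil nil))) nil)) (node (nat_lit 0) (nat_lit 104963) (nat_lit 12) (node (nat_lit 4)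
  (nat_lit 104963) (nat_lit 13) (node (nat_lit 5) (nat_lit 105747) (nat_lit 14) nil nil) (node
  (nat_lit 6) (nat_lit 104963) (nat_lit 13) (node (nat_lit 5) (nat_lit 105747) (nat_lit 14) nil
  (node (nat_lit 4) (nat_lit 105747) (nat_lit 14) nil nil)) (node (nat_lit 5) (nat_lit 104963)
  (nat_lit 13) (node (nat_lit 4) (nat_lit 105747) (nat_lit 14) nil nil) nil))) (node (nat_lit 4)
  (nat_lit 0) (nat_lit 12) (node (nat_lit 0) (nat_lit 105567) (nat_lit 13) nil nil) nil))) (node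
  (nat_lit 0) (nat_lit 103960) (nat_lit 11) (node (nat_lit 4) (nat_lit 103960) (nat_lit 12) (node
  (nat_lit 6) (nat_lit 104963) (nat_lit 13) (node (nat_lit 5) (nat_lit 105747) (nat_lit 14) nil
  nil) (node (nat_lit 5) (nat_lit 104744) (nat_lit 13) nil (node (nat_lit 0) (nat_lit 105747)
  (nat_lit 13) nil nil))) (node (nat_lit 6) (nat_lit 103960) (nat_lit 12) (node (nat_lit 4)
  (nat_lit 104963) (nat_lit 13) (node (nat_lit 5) (nat_lit 105747) (nat_lit 14) nil nil) (node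
  (nat_lit 5) (nat_lit 104963) (nat_lit 13) (node (nat_lit 4) (nat_lit 105747) (nat_lit 14) nil
  nil) (node (nat_lit 14) (nat_lit 105747) (nat_lit 13) nil nil))) (node (nat_lit 5) (nat_lit
  103960) (nat_lit 12) (node (nat_lit 4) (nat_lit 104744) (nat_lit 13) (node (nat_lit 6) (nat_lit
  103959) (nat_lit 14) nil nil) (node (nat_lit 6) (nat_lit 104963) (nat_lit 13) (node (nat_lit 4)
  (nat_lit 105747) (nat_lit 14) nil nil) nil)) (node (nat_lit 0) (nat_lit 104963) (nat_lit 12) nil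
  nil)))) nil))) (node (nat_lit 0) (nat_lit 100676) (nat_lit 10) (node (nat_lit 4) (nat_lit
  101812) (nat_lit 11) (node (nat_lit 5) (nat_lit 102288) (nat_lit 12) (node (nat_lit 4) (nat_lit
  103291) (nat_lit 13) nil nil) (node (nat_lit 6) (nat_lit 102086) (nat_lit 12) nil nil)) (node
  (nat_lit 5) (nat_lit 101191) (nat_lit 11) (node (nat_lit 6) (nat_lit 103319) (nat_lit 12) (node
  (nat_lit 5) (nat_lit 101225) (nat_lit 13) nil nil) (node (nat_lit 4) (nat_lit 101667) (nat_lit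
  12) nil nil)) (node (nat_lit 6) (nat_lit 101917) (nat_lit 11) (node (nat_lit 4) (nat_lit 102394)
  (nat_lit 12) nil (node (nat_lit 5) (nat_lit 103960) (nat_lit 12) nil nil)) (node (nat_lit 0)
  (nat_lit 103265) (nat_lit 11) nil nil)))) nil)) (node (nat_lit 4) (nat_lit 0) (nat_lit 9) (node
  (nat_lit 5) (nat_lit 0) (nat_lit 10) (node (nat_lit 6) (nat_lit 0) (nat_lit 11) (node (nat_lit
  4) (nat_lit 0) (nat_lit 12) (node (nat_lit 6) (nat_lit 0) (nat_lit 13) (node (nat_lit 5)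
  (nat_lit 57647) (nat_lit 14) (node (nat_lit 6) (nat_lit 58945) (nat_lit 15) (node (nat_lit 4)
  (nat_lit 59655) (nat_lit 16) (node (nat_lit 5) (nat_lit 60295) (nat_lit 17) (node (nat_lit 4)
  (nat_lit 60420) (nat_lit 18) (node (nat_lit 6) (nat_lit 60213) (nat_lit 19) nil nil) nil) nil)
  nil) (node (nat_lit 4) (nat_lit 0) (nat_lit 15) (node (nat_lit 6) (nat_lit 59408) (nat_lit 16)
  (node (nat_lit 4) (nat_lit 60074) (nat_lit 17) (node (nat_lit 5) (nat_lit 60366) (nat_lit 18)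
  nil nil) nil) (node (nat_lit 5) (nat_lit 59375) (nat_lit 16) nil (node (nat_lit 0) (nat_lit
  59401) (nat_lit 16) nil nil))) nil)) (node (nat_lit 0) (nat_lit 57374) (nat_lit 14) nil nil))
  (node (nat_lit 0) (nat_lit 56427) (nat_lit 13) nil nil)) (node (nat_lit 5) (nat_lit 91034)
  (nat_lit 12) (node (nat_lit 4) (nat_lit 92257) (nat_lit 13) (node (nat_lit 6) (nat_lit 94466)
  (nat_lit 14) (node (nat_lit 4) (nat_lit 95076) (nat_lit 15) nil nil) nil) nil) (node (nat_lit 0)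
  (nat_lit 93372) (nat_lit 12) nil nil))) (node (nat_lit 0) (nat_lit 96762) (nat_lit 11) nil nil))
  (node (nat_lit 0) (nat_lit 95342) (nat_lit 10) (node (nat_lit 6) (nat_lit 96644) (nat_lit 11)
  nil (node (nat_lit 5) (nat_lit 96582) (nat_lit 11) nil (node (nat_lit 4) (nat_lit 96783)
  (nat_lit 11) nil nil))) nil)) (node (nat_lit 0) (nat_lit 97715) (nat_lit 9) (node (nat_lit 4)
  (nat_lit 97318) (nat_lit 10) (node (nat_lit 6) (nat_lit 99468) (nat_lit 11) (node (nat_lit 5)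
  (nat_lit 99579) (nat_lit 12) nil nil) (node (nat_lit 5) (nat_lit 99480) (nat_lit 11) nil nil))
  (node (nat_lit 5) (nat_lit 98917) (nat_lit 10) (node (nat_lit 6) (nat_lit 100793) (nat_lit 11)
  nil (node (nat_lit 4) (nat_lit 99480) (nat_lit 11) nil nil)) (node (nat_lit 6) (nat_lit 99271)
  (nat_lit 10) (node (nat_lit 4) (nat_lit 101810) (nat_lit 11) nil (node (nat_lit 5) (nat_lit
  102223) (nat_lit 11) nil nil)) nil))) nil))) (node (nat_lit 4) (nat_lit 0) (nat_lit 8) (node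
  (nat_lit 5) (nat_lit 0) (nat_lit 9) (node (nat_lit 6) (nat_lit 0) (nat_lit 10) (node (nat_lit 5)
  (nat_lit 102451) (nat_lit 11) (node (nat_lit 4) (nat_lit 103504) (nat_lit 12) (node (nat_lit 6)
  (nat_lit 104899) (nat_lit 13) (node (nat_lit 5) (nat_lit 105747) (nat_lit 14) (node (nat_lit 6)
  (nat_lit 106357) (nat_lit 15) (node (nat_lit 4) (nat_lit 106389) (nat_lit 16) (node (nat_lit 6)
  (nat_lit 106389) (nat_lit 17) (node (nat_lit 5) (nat_lit 106389) (nat_lit 18) (node (nat_lit 4)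
  (nat_lit 106389) (nat_lit 19) (node (nat_lit 5) (nat_lit 106389) (nat_lit 20) (node (nat_lit 6)
  (nat_lit 106389) (nat_lit 21) (node (nat_lit 4) (nat_lit 106389) (nat_lit 22) (node (nat_lit 5)
  (nat_lit 106389) (nat_lit 23) (node (nat_lit 4) (nat_lit 106389) (nat_lit 24) (node (nat_lit 6)
  (nat_lit 106389) (nat_lit 25) (node (nat_lit 4) (nat_lit 105948) (nat_lit 26) (node (nat_lit 5)
  (nat_lit 102234) (nat_lit 27) (node (nat_lit 6) (nat_lit 98387) (nat_lit 28) (node (nat_lit 5)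
  (nat_lit 91710) (nat_lit 29) (node (nat_lit 4) (nat_lit 81983) (nat_lit 30) (node (nat_lit 6)
  (nat_lit 64058) (nat_lit 31) (node (nat_lit 5) (nat_lit 43808) (nat_lit 32) (node (nat_lit 6)
  (nat_lit 5311) (nat_lit 33) nil nil) nil) nil) nil) nil) nil) nil) nil) nil) nil) nil) nil) nil)
  nil) nil) nil) nil) nil) nil) (node (nat_lit 4) (nat_lit 105747) (nat_lit 14) (node (nat_lit 5)
  (nat_lit 106357) (nat_lit 15) (node (nat_lit 4) (nat_lit 106389) (nat_lit 16) (node (nat_lit 6)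
  (nat_lit 106389) (nat_lit 17) (node (nat_lit 5) (nat_lit 106389) (nat_lit 18) (node (nat_lit 4)
  (nat_lit 106389) (nat_lit 19) (node (nat_lit 5) (nat_lit 106389) (nat_lit 20) (node (nat_lit 6)
  (nat_lit 106389) (nat_lit 21) (node (nat_lit 4) (nat_lit 106389) (nat_lit 22) (node (nat_lit 5)
  (nat_lit 106389) (nat_lit 23) (node (nat_lit 4) (nat_lit 106389) (nat_lit 24) (node (nat_lit 6)
  (nat_lit 106130) (nat_lit 25) (node (nat_lit 4) (nat_lit 105116) (nat_lit 26) (node (nat_lit 5)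
  (nat_lit 101402) (nat_lit 27) (node (nat_lit 6) (nat_lit 97279) (nat_lit 28) (node (nat_lit 5)
  (nat_lit 91477) (nat_lit 29) (node (nat_lit 4) (nat_lit 81476) (nat_lit 30) (node (nat_lit 6)
  (nat_lit 63273) (nat_lit 31) nil nil) nil) nil) nil) nil) nil) nil) nil) nil) nil) nil) nil)
  nil) nil) nil) nil) nil) nil)) (node (nat_lit 5) (nat_lit 102743) (nat_lit 13) (node (nat_lit 6)
  (nat_lit 102325) (nat_lit 14) (node (nat_lit 4) (nat_lit 98019) (nat_lit 15) (node (nat_lit 6)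
  (nat_lit 97577) (nat_lit 16) nil (node (nat_lit 5) (nat_lit 87988) (nat_lit 16) (node (nat_lit
  4) (nat_lit 70907) (nat_lit 17) (node (nat_lit 6) (nat_lit 57320) (nat_lit 18) nil nil) nil)
  nil)) nil) nil) nil)) nil) (node (nat_lit 4) (nat_lit 102030) (nat_lit 11) (node (nat_lit 6)
  (nat_lit 103695) (nat_lit 12) (node (nat_lit 5) (nat_lit 104473) (nat_lit 13) (node (nat_lit 4)
  (nat_lit 105130) (nat_lit 14) (node (nat_lit 5) (nat_lit 105107) (nat_lit 15) (node (nat_lit 6)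
  (nat_lit 105309) (nat_lit 16) (node (nat_lit 4) (nat_lit 103854) (nat_lit 17) (node (nat_lit 5)
  (nat_lit 102840) (nat_lit 18) (node (nat_lit 4) (nat_lit 96971) (nat_lit 19) (node (nat_lit 6)
  (nat_lit 84860) (nat_lit 20) (node (nat_lit 4) (nat_lit 69869) (nat_lit 21) (node (nat_lit 5)
  (nat_lit 49793) (nat_lit 22) (node (nat_lit 6) (nat_lit 22307) (nat_lit 23) nil nil) nil) nil)
  nil) nil) nil) nil) nil) nil) (node (nat_lit 6) (nat_lit 105562) (nat_lit 14) (node (nat_lit 4)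
  (nat_lit 106172) (nat_lit 15) (node (nat_lit 5) (nat_lit 106389) (nat_lit 16) nil nil) nil)
  nil)) nil) nil) (node (nat_lit 0) (nat_lit 103960) (nat_lit 11) nil nil))) (node (nat_lit 0)
  (nat_lit 100147) (nat_lit 10) (node (nat_lit 6) (nat_lit 101450) (nat_lit 11) (node (nat_lit 4)
  (nat_lit 102736) (nat_lit 12) nil nil) (node (nat_lit 4) (nat_lit 99062) (nat_lit 11) nil (node
  (nat_lit 5) (nat_lit 99062) (nat_lit 11) (node (nat_lit 4) (nat_lit 100348) (nat_lit 12) nil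
  nil) nil))) nil)) (node (nat_lit 0) (nat_lit 96525) (nat_lit 9) (node (nat_lit 5) (nat_lit
  97236) (nat_lit 10) nil (node (nat_lit 6) (nat_lit 98082) (nat_lit 10) nil (node (nat_lit 4)
  (nat_lit 96980) (nat_lit 10) nil nil))) nil)) nil)) nil) nil) nil)) (node (nat_lit 5) (nat_lit
  0) (nat_lit 4) (node (nat_lit 4) (nat_lit 0) (nat_lit 5) (node (nat_lit 6) (nat_lit 0) (nat_lit
  6) (node (nat_lit 4) (nat_lit 0) (nat_lit 7) (node (nat_lit 5) (nat_lit 0) (nat_lit 8) t260 nil)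
  (node (nat_lit 5) (nat_lit 0) (nat_lit 7) (node (nat_lit 6) (nat_lit 0) (nat_lit 8) (node
  (nat_lit 4) (nat_lit 0) (nat_lit 9) t261 (node (nat_lit 0) (nat_lit 90943) (nat_lit 9) (node
  (nat_lit 5) (nat_lit 98012) (nat_lit 10) nil (node (nat_lit 4) (nat_lit 98312) (nat_lit 10) nil
  (node (nat_lit 6) (nat_lit 97333) (nat_lit 10) nil nil))) nil)) nil) nil)) (node (nat_lit 5)
  (nat_lit 0) (nat_lit 6) (node (nat_lit 6) (nat_lit 0) (nat_lit 7) (node (nat_lit 4) (nat_lit 0)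
  (nat_lit 8) (node (nat_lit 6) (nat_lit 0) (nat_lit 9) (node (nat_lit 5) (nat_lit 0) (nat_lit 10)
  (node (nat_lit 4) (nat_lit 0) (nat_lit 11) (node (nat_lit 5) (nat_lit 0) (nat_lit 12) (node
  (nat_lit 6) (nat_lit 0) (nat_lit 13) (node (nat_lit 5) (nat_lit 0) (nat_lit 14) (node (nat_lit
  4) (nat_lit 0) (nat_lit 15) (node (nat_lit 6) (nat_lit 83478) (nat_lit 16) (node (nat_lit 4)
  (nat_lit 84085) (nat_lit 17) (node (nat_lit 5) (nat_lit 84085) (nat_lit 18) (node (nat_lit 6)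
  (nat_lit 84085) (nat_lit 19) (node (nat_lit 5) (nat_lit 84085) (nat_lit 20) (node (nat_lit 4)
  (nat_lit 84085) (nat_lit 21) (node (nat_lit 5) (nat_lit 84085) (nat_lit 22) (node (nat_lit 6)
  (nat_lit 83983) (nat_lit 23) (node (nat_lit 4) (nat_lit 80312) (nat_lit 24) (node (nat_lit 6)
  (nat_lit 73513) (nat_lit 25) (node (nat_lit 5) (nat_lit 63605) (nat_lit 26) (node (nat_lit 4)
  (nat_lit 45453) (nat_lit 27) nil nil) nil) nil) nil) nil) nil) nil) (node (nat_lit 4) (nat_lit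
  84085) (nat_lit 20) (node (nat_lit 6) (nat_lit 84085) (nat_lit 21) (node (nat_lit 5) (nat_lit
  84085) (nat_lit 22) nil nil) nil) nil)) (node (nat_lit 4) (nat_lit 84085) (nat_lit 19) nil nil))
  nil) (node (nat_lit 5) (nat_lit 0) (nat_lit 17) (node (nat_lit 6) (nat_lit 0) (nat_lit 18) (node
  (nat_lit 4) (nat_lit 84085) (nat_lit 19) (node (nat_lit 5) (nat_lit 84085) (nat_lit 20) (node
  (nat_lit 6) (nat_lit 84085) (nat_lit 21) (node (nat_lit 5) (nat_lit 83659) (nat_lit 22) (node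
  (nat_lit 4) (nat_lit 83109) (nat_lit 23) nil nil) nil) (node (nat_lit 4) (nat_lit 84085)
  (nat_lit 21) nil nil)) (node (nat_lit 6) (nat_lit 84085) (nat_lit 20) (node (nat_lit 5) (nat_lit
  84085) (nat_lit 21) nil nil) nil)) (node (nat_lit 0) (nat_lit 84085) (nat_lit 19) nil nil))
  (node (nat_lit 0) (nat_lit 84085) (nat_lit 18) nil nil)) nil)) (node (nat_lit 0) (nat_lit 84085)
  (nat_lit 16) nil nil)) (node (nat_lit 0) (nat_lit 83541) (nat_lit 15) nil nil)) (node (nat_lit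
  0) (nat_lit 82478) (nat_lit 14) (node (nat_lit 6) (nat_lit 82100) (nat_lit 15) nil (node
  (nat_lit 5) (nat_lit 82944) (nat_lit 15) nil (node (nat_lit 4) (nat_lit 82944) (nat_lit 15)
  (node (nat_lit 5) (nat_lit 83541) (nat_lit 16) nil nil) nil))) nil)) (node (nat_lit 0) (nat_lit
  81115) (nat_lit 13) nil nil)) (node (nat_lit 6) (nat_lit 0) (nat_lit 12) (node (nat_lit 4)
  (nat_lit 0) (nat_lit 13) (node (nat_lit 5) (nat_lit 81863) (nat_lit 14) (node (nat_lit 6)
  (nat_lit 83026) (nat_lit 15) (node (nat_lit 4) (nat_lit 84055) (nat_lit 16) (node (nat_lit 6)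
  (nat_lit 0) (nat_lit 17) (node (nat_lit 5) (nat_lit 84085) (nat_lit 18) (node (nat_lit 6)
  (nat_lit 84085) (nat_lit 19) (node (nat_lit 4) (nat_lit 84085) (nat_lit 20) (node (nat_lit 5)
  (nat_lit 84085) (nat_lit 21) nil nil) nil) (node (nat_lit 4) (nat_lit 84085) (nat_lit 19) (node
  (nat_lit 5) (nat_lit 84085) (nat_lit 20) (node (nat_lit 6) (nat_lit 84085) (nat_lit 21) (node
  (nat_lit 5) (nat_lit 84085) (nat_lit 22) nil nil) nil) nil) nil)) (node (nat_lit 0) (nat_lit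
  84085) (nat_lit 18) nil nil)) nil) (node (nat_lit 5) (nat_lit 83486) (nat_lit 16) (node (nat_lit
  4) (nat_lit 83503) (nat_lit 17) (node (nat_lit 5) (nat_lit 57925) (nat_lit 18) (node (nat_lit 6)
  (nat_lit 57656) (nat_lit 19) (node (nat_lit 4) (nat_lit 38139) (nat_lit 20) (node (nat_lit 6)
  (nat_lit 23844) (nat_lit 21) (node (nat_lit 5) (nat_lit 24008) (nat_lit 22) nil nil) nil) nil)
  nil) (node (nat_lit 6) (nat_lit 82792) (nat_lit 18) (node (nat_lit 5) (nat_lit 82561) (nat_lit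
  19) nil nil) nil)) nil) nil)) (node (nat_lit 4) (nat_lit 83094) (nat_lit 15) (node (nat_lit 6)
  (nat_lit 83398) (nat_lit 16) (node (nat_lit 5) (nat_lit 83961) (nat_lit 17) (node (nat_lit 4)
  (nat_lit 84085) (nat_lit 18) nil (node (nat_lit 6) (nat_lit 83253) (nat_lit 18) nil nil)) nil)
  nil) nil)) (node (nat_lit 0) (nat_lit 82628) (nat_lit 14) nil nil)) (node (nat_lit 0) (nat_lit
  81115) (nat_lit 13) (node (nat_lit 5) (nat_lit 81712) (nat_lit 14) nil (node (nat_lit 4)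
  (nat_lit 81712) (nat_lit 14) nil (node (nat_lit 6) (nat_lit 81115) (nat_lit 14) nil nil))) nil))
  (node (nat_lit 0) (nat_lit 79371) (nat_lit 12) (node (nat_lit 5) (nat_lit 80136) (nat_lit 13)
  (node (nat_lit 4) (nat_lit 79262) (nat_lit 14) nil nil) (node (nat_lit 4) (nat_lit 80136)
  (nat_lit 13) (node (nat_lit 5) (nat_lit 81115) (nat_lit 14) nil (node (nat_lit 6) (nat_lit
  81115) (nat_lit 14) nil nil)) (node (nat_lit 6) (nat_lit 78724) (nat_lit 13) (node (nat_lit 4)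
  (nat_lit 79703) (nat_lit 14) nil (node (nat_lit 5) (nat_lit 77850) (nat_lit 14) nil nil)) nil)))
  nil))) (node (nat_lit 6) (nat_lit 0) (nat_lit 11) (node (nat_lit 4) (nat_lit 0) (nat_lit 12)
  (node (nat_lit 5) (nat_lit 0) (nat_lit 13) (node (nat_lit 4) (nat_lit 81913) (nat_lit 14) (node
  (nat_lit 6) (nat_lit 83144) (nat_lit 15) (node (nat_lit 4) (nat_lit 84085) (nat_lit 16) (node
  (nat_lit 5) (nat_lit 84085) (nat_lit 17) (node (nat_lit 6) (nat_lit 84085) (nat_lit 18) (node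
  (nat_lit 5) (nat_lit 84085) (nat_lit 19) (node (nat_lit 4) (nat_lit 84085) (nat_lit 20) (node
  (nat_lit 5) (nat_lit 84085) (nat_lit 21) (node (nat_lit 6) (nat_lit 84085) (nat_lit 22) (node
  (nat_lit 4) (nat_lit 83903) (nat_lit 23) (node (nat_lit 6) (nat_lit 71270) (nat_lit 24) (node
  (nat_lit 5) (nat_lit 60865) (nat_lit 25) (node (nat_lit 6) (nat_lit 24641) (nat_lit 26) (node
  (nat_lit 4) (nat_lit 24689) (nat_lit 27) (node (nat_lit 5) (nat_lit 24659) (nat_lit 28) nil nil)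
  nil) nil) nil) nil) nil) nil) nil) nil) nil) nil) nil) (node (nat_lit 5) (nat_lit 84085)
  (nat_lit 16) (node (nat_lit 4) (nat_lit 84085) (nat_lit 17) (node (nat_lit 5) (nat_lit 84085)
  (nat_lit 18) (node (nat_lit 6) (nat_lit 84085) (nat_lit 19) (node (nat_lit 4) (nat_lit 84085)
  (nat_lit 20) nil (node (nat_lit 5) (nat_lit 84085) (nat_lit 20) (node (nat_lit 4) (nat_lit
  84085) (nat_lit 21) nil nil) nil)) nil) nil) (node (nat_lit 6) (nat_lit 83178) (nat_lit 17) nil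
  nil)) nil)) nil) (node (nat_lit 6) (nat_lit 81797) (nat_lit 14) (node (nat_lit 5) (nat_lit
  83028) (nat_lit 15) (node (nat_lit 4) (nat_lit 84085) (nat_lit 16) (node (nat_lit 5) (nat_lit
  60031) (nat_lit 17) (node (nat_lit 6) (nat_lit 40788) (nat_lit 18) (node (nat_lit 4) (nat_lit
  41208) (nat_lit 19) nil nil) nil) (node (nat_lit 6) (nat_lit 84085) (nat_lit 17) (node (nat_lit
  4) (nat_lit 84085) (nat_lit 18) (node (nat_lit 5) (nat_lit 84085) (nat_lit 19) nil nil) nil)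
  nil)) nil) nil) (node (nat_lit 0) (nat_lit 81965) (nat_lit 14) nil nil))) (node (nat_lit 0)
  (nat_lit 80435) (nat_lit 13) nil nil)) (node (nat_lit 0) (nat_lit 78910) (nat_lit 12) (node
  (nat_lit 5) (nat_lit 79675) (nat_lit 13) nil nil) nil)) (node (nat_lit 0) (nat_lit 76707)
  (nat_lit 11) (node (nat_lit 5) (nat_lit 77687) (nat_lit 12) (node (nat_lit 6) (nat_lit 79709)
  (nat_lit 13) (node (nat_lit 4) (nat_lit 81286) (nat_lit 14) nil (node (nat_lit 5) (nat_lit
  80688) (nat_lit 14) nil nil)) (node (nat_lit 4) (nat_lit 79704) (nat_lit 13) (node (nat_lit 6)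
  (nat_lit 80012) (nat_lit 14) nil (node (nat_lit 5) (nat_lit 80683) (nat_lit 14) nil nil)) (node
  (nat_lit 0) (nat_lit 79924) (nat_lit 13) nil nil))) (node (nat_lit 6) (nat_lit 77687) (nat_lit
  12) (node (nat_lit 5) (nat_lit 79709) (nat_lit 13) (node (nat_lit 6) (nat_lit 78208) (nat_lit
  14) (node (nat_lit 4) (nat_lit 79227) (nat_lit 15) nil nil) (node (nat_lit 4) (nat_lit 78835)
  (nat_lit 14) nil nil)) (node (nat_lit 4) (nat_lit 79709) (nat_lit 13) (node (nat_lit 5) (nat_lit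
  80688) (nat_lit 14) nil nil) (node (nat_lit 14) (nat_lit 80688) (nat_lit 13) nil nil))) (node
  (nat_lit 4) (nat_lit 78194) (nat_lit 12) (node (nat_lit 6) (nat_lit 80216) (nat_lit 13) (node
  (nat_lit 4) (nat_lit 81195) (nat_lit 14) nil (node (nat_lit 5) (nat_lit 79342) (nat_lit 14) nil
  nil)) (node (nat_lit 5) (nat_lit 80216) (nat_lit 13) (node (nat_lit 4) (nat_lit 79342) (nat_lit
  14) nil (node (nat_lit 6) (nat_lit 81195) (nat_lit 14) nil nil)) nil)) (node (nat_lit 0)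
  (nat_lit 78944) (nat_lit 12) nil nil)))) nil))) (node (nat_lit 0) (nat_lit 73779) (nat_lit 10)
  (node (nat_lit 5) (nat_lit 75036) (nat_lit 11) (node (nat_lit 4) (nat_lit 77623) (nat_lit 12)
  (node (nat_lit 5) (nat_lit 78880) (nat_lit 13) nil (node (nat_lit 6) (nat_lit 75041) (nat_lit
  13) nil nil)) (node (nat_lit 6) (nat_lit 77623) (nat_lit 12) (node (nat_lit 5) (nat_lit 78880)
  (nat_lit 13) nil nil) nil)) (node (nat_lit 4) (nat_lit 75522) (nat_lit 11) (node (nat_lit 6)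
  (nat_lit 78110) (nat_lit 12) (node (nat_lit 4) (nat_lit 79366) (nat_lit 13) nil (node (nat_lit
  5) (nat_lit 76946) (nat_lit 13) nil nil)) (node (nat_lit 5) (nat_lit 78110) (nat_lit 12) nil
  nil)) (node (nat_lit 6) (nat_lit 75036) (nat_lit 11) (node (nat_lit 5) (nat_lit 77687) (nat_lit
  12) nil (node (nat_lit 4) (nat_lit 77623) (nat_lit 12) nil nil)) (node (nat_lit 0) (nat_lit
  76643) (nat_lit 11) nil nil)))) nil)) (node (nat_lit 5) (nat_lit 0) (nat_lit 9) (node (nat_lit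
  4) (nat_lit 0) (nat_lit 10) (node (nat_lit 6) (nat_lit 0) (nat_lit 11) (node (nat_lit 5)
  (nat_lit 0) (nat_lit 12) (node (nat_lit 6) (nat_lit 0) (nat_lit 13) (node (nat_lit 4) (nat_lit
  0) (nat_lit 14) (node (nat_lit 5) (nat_lit 0) (nat_lit 15) (node (nat_lit 6) (nat_lit 84085)
  (nat_lit 16) (node (nat_lit 5) (nat_lit 84085) (nat_lit 17) (node (nat_lit 4) (nat_lit 84085)
  (nat_lit 18) (node (nat_lit 5) (nat_lit 84085) (nat_lit 19) (node (nat_lit 6) (nat_lit 61655)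
  (nat_lit 20) (node (nat_lit 4) (nat_lit 61828) (nat_lit 21) (node (nat_lit 5) (nat_lit 43099)
  (nat_lit 22) (node (nat_lit 4) (nat_lit 43191) (nat_lit 23) (node (nat_lit 6) (nat_lit 43265)
  (nat_lit 24) nil nil) nil) nil) nil) nil) nil) nil) nil) (node (nat_lit 0) (nat_lit 84085)
  (nat_lit 16) nil (node (nat_lit 4) (nat_lit 82654) (nat_lit 16) nil nil))) (node (nat_lit 6)
  (nat_lit 83144) (nat_lit 15) (node (nat_lit 5) (nat_lit 84085) (nat_lit 16) (node (nat_lit 4)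
  (nat_lit 84085) (nat_lit 17) (node (nat_lit 5) (nat_lit 84085) (nat_lit 18) (node (nat_lit 6)
  (nat_lit 84085) (nat_lit 19) (node (nat_lit 5) (nat_lit 84085) (nat_lit 20) (node (nat_lit 4)
  (nat_lit 84085) (nat_lit 21) nil nil) (node (nat_lit 4) (nat_lit 84085) (nat_lit 20) nil nil))
  nil) nil) nil) nil) (node (nat_lit 0) (nat_lit 83276) (nat_lit 15) nil nil))) (node (nat_lit 0)
  (nat_lit 81771) (nat_lit 14) nil nil)) (node (nat_lit 4) (nat_lit 0) (nat_lit 13) (node (nat_lit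
  5) (nat_lit 0) (nat_lit 14) (node (nat_lit 6) (nat_lit 82835) (nat_lit 15) (node (nat_lit 4)
  (nat_lit 83796) (nat_lit 16) (node (nat_lit 6) (nat_lit 84032) (nat_lit 17) (node (nat_lit 5)
  (nat_lit 84085) (nat_lit 18) (node (nat_lit 6) (nat_lit 84085) (nat_lit 19) (node (nat_lit 4)
  (nat_lit 84085) (nat_lit 20) (node (nat_lit 5) (nat_lit 84085) (nat_lit 21) nil nil) nil) nil)
  nil) nil) (node (nat_lit 5) (nat_lit 83796) (nat_lit 16) (node (nat_lit 4) (nat_lit 84085)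
  (nat_lit 17) (node (nat_lit 6) (nat_lit 84085) (nat_lit 18) nil nil) nil) nil)) (node (nat_lit
  0) (nat_lit 82967) (nat_lit 15) nil nil)) (node (nat_lit 0) (nat_lit 82369) (nat_lit 14) nil
  nil)) (node (nat_lit 0) (nat_lit 81006) (nat_lit 13) nil nil))) (node (nat_lit 4) (nat_lit
  78005) (nat_lit 12) (node (nat_lit 5) (nat_lit 80026) (nat_lit 13) (node (nat_lit 6) (nat_lit
  81604) (nat_lit 14) (node (nat_lit 5) (nat_lit 78717) (nat_lit 15) (node (nat_lit 4) (nat_lit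
  68570) (nat_lit 16) (node (nat_lit 6) (nat_lit 68728) (nat_lit 17) (node (nat_lit 5) (nat_lit
  69346) (nat_lit 18) (node (nat_lit 6) (nat_lit 69765) (nat_lit 19) (node (nat_lit 4) (nat_lit
  70140) (nat_lit 20) (node (nat_lit 5) (nat_lit 69868) (nat_lit 21) (node (nat_lit 6) (nat_lit
  69976) (nat_lit 22) (node (nat_lit 5) (nat_lit 69246) (nat_lit 23) nil nil) nil) nil) nil) nil)
  nil) (node (nat_lit 5) (nat_lit 58491) (nat_lit 17) (node (nat_lit 6) (nat_lit 48346) (nat_lit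
  18) (node (nat_lit 4) (nat_lit 23142) (nat_lit 19) nil nil) nil) nil)) nil) (node (nat_lit 4)
  (nat_lit 82369) (nat_lit 15) nil nil)) nil) nil) (node (nat_lit 0) (nat_lit 79262) (nat_lit 12)
  nil nil))) (node (nat_lit 0) (nat_lit 77026) (nat_lit 11) nil nil)) (node (nat_lit 0) (nat_lit
  73740) (nat_lit 10) (node (nat_lit 6) (nat_lit 72577) (nat_lit 11) nil (node (nat_lit 4)
  (nat_lit 75522) (nat_lit 11) nil (node (nat_lit 5) (nat_lit 74959) (nat_lit 11) nil nil))) nil))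
  (node (nat_lit 0) (nat_lit 68423) (nat_lit 9) (node (nat_lit 5) (nat_lit 71648) (nat_lit 10)
  (node (nat_lit 6) (nat_lit 74968) (nat_lit 11) nil (node (nat_lit 4) (nat_lit 74968) (nat_lit
  11) nil nil)) (node (nat_lit 4) (nat_lit 72094) (nat_lit 10) (node (nat_lit 6) (nat_lit 75414)
  (nat_lit 11) nil (node (nat_lit 5) (nat_lit 74959) (nat_lit 11) nil nil)) (node (nat_lit 6)
  (nat_lit 70866) (nat_lit 10) (node (nat_lit 5) (nat_lit 74968) (nat_lit 11) nil (node (nat_lit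
  4) (nat_lit 74968) (nat_lit 11) nil nil)) nil))) nil))) nil) nil) nil)) nil) nil))

noncomputable def t263 : Tr :=
  (node (nat_lit 4) (nat_lit 0) (nat_lit 9) (node (nat_lit 5) (nat_lit 0) (nat_lit 10) (node
  (nat_lit 4) (nat_lit 0) (nat_lit 11) (node (nat_lit 7) (nat_lit 0) (nat_lit 12) (node (nat_lit
  5) (nat_lit 0) (nat_lit 13) (node (nat_lit 7) (nat_lit 0) (nat_lit 14) (node (nat_lit 4)
  (nat_lit 0) (nat_lit 15) (node (nat_lit 5) (nat_lit 82232) (nat_lit 16) (node (nat_lit 7)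
  (nat_lit 82998) (nat_lit 17) (node (nat_lit 5) (nat_lit 83597) (nat_lit 18) (node (nat_lit 4)
  (nat_lit 83752) (nat_lit 19) (node (nat_lit 5) (nat_lit 84032) (nat_lit 20) (node (nat_lit 7)
  (nat_lit 84280) (nat_lit 21) (node (nat_lit 4) (nat_lit 84279) (nat_lit 22) (node (nat_lit 5)
  (nat_lit 84266) (nat_lit 23) (node (nat_lit 4) (nat_lit 84173) (nat_lit 24) (node (nat_lit 7)
  (nat_lit 84085) (nat_lit 25) (node (nat_lit 5) (nat_lit 83489) (nat_lit 26) (node (nat_lit 4)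
  (nat_lit 82943) (nat_lit 27) nil nil) nil) nil) nil) nil) nil) nil) nil) nil) nil) (node
  (nat_lit 4) (nat_lit 82765) (nat_lit 17) nil nil)) (node (nat_lit 7) (nat_lit 82232) (nat_lit
  16) (node (nat_lit 5) (nat_lit 82998) (nat_lit 17) (node (nat_lit 4) (nat_lit 83671) (nat_lit
  18) (node (nat_lit 5) (nat_lit 84140) (nat_lit 19) (node (nat_lit 7) (nat_lit 84503) (nat_lit
  20) (node (nat_lit 5) (nat_lit 84683) (nat_lit 21) nil nil) nil) (node (nat_lit 7) (nat_lit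
  84140) (nat_lit 19) (node (nat_lit 4) (nat_lit 84503) (nat_lit 20) (node (nat_lit 5) (nat_lit
  84789) (nat_lit 21) nil nil) nil) nil)) nil) nil) (node (nat_lit 0) (nat_lit 82714) (nat_lit 16)
  nil nil))) (node (nat_lit 0) (nat_lit 81626) (nat_lit 15) (node (nat_lit 5) (nat_lit 81626)
  (nat_lit 16) nil (node (nat_lit 7) (nat_lit 81626) (nat_lit 16) nil nil)) nil)) (node (nat_lit
  4) (nat_lit 0) (nat_lit 14) (node (nat_lit 0) (nat_lit 25683) (nat_lit 15) (node (nat_lit 4)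
  (nat_lit 25883) (nat_lit 16) (node (nat_lit 5) (nat_lit 26547) (nat_lit 17) (node (nat_lit 7)
  (nat_lit 27102) (nat_lit 18) nil nil) (node (nat_lit 7) (nat_lit 26593) (nat_lit 17) (node
  (nat_lit 5) (nat_lit 26808) (nat_lit 18) nil nil) nil)) (node (nat_lit 7) (nat_lit 26271)
  (nat_lit 16) (node (nat_lit 5) (nat_lit 26547) (nat_lit 17) nil (node (nat_lit 4) (nat_lit
  26754) (nat_lit 17) nil nil)) (node (nat_lit 5) (nat_lit 26099) (nat_lit 16) (node (nat_lit 4)
  (nat_lit 26906) (nat_lit 17) nil (node (nat_lit 7) (nat_lit 26582) (nat_lit 17) nil nil)) nil)))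
  nil) (node (nat_lit 0) (nat_lit 80539) (nat_lit 14) (node (nat_lit 7) (nat_lit 81005) (nat_lit
  15) (node (nat_lit 5) (nat_lit 80918) (nat_lit 16) nil (node (nat_lit 4) (nat_lit 81990)
  (nat_lit 16) nil nil)) (node (nat_lit 4) (nat_lit 81247) (nat_lit 15) (node (nat_lit 7) (nat_lit
  81574) (nat_lit 16) nil (node (nat_lit 5) (nat_lit 81160) (nat_lit 16) nil nil)) (node (nat_lit
  5) (nat_lit 81005) (nat_lit 15) (node (nat_lit 4) (nat_lit 81333) (nat_lit 16) nil (node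
  (nat_lit 7) (nat_lit 81626) (nat_lit 16) nil nil)) nil))) nil))) (node (nat_lit 4) (nat_lit 0)
  (nat_lit 13) (node (nat_lit 5) (nat_lit 0) (nat_lit 14) (node (nat_lit 7) (nat_lit 0) (nat_lit
  15) (node (nat_lit 5) (nat_lit 89878) (nat_lit 16) (node (nat_lit 4) (nat_lit 90996) (nat_lit
  17) (node (nat_lit 5) (nat_lit 91893) (nat_lit 18) (node (nat_lit 7) (nat_lit 92743) (nat_lit
  19) (node (nat_lit 4) (nat_lit 93274) (nat_lit 20) (node (nat_lit 7) (nat_lit 93692) (nat_lit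
  21) (node (nat_lit 5) (nat_lit 93912) (nat_lit 22) (node (nat_lit 7) (nat_lit 93870) (nat_lit
  23) (node (nat_lit 4) (nat_lit 93910) (nat_lit 24) (node (nat_lit 5) (nat_lit 93874) (nat_lit
  25) (node (nat_lit 4) (nat_lit 93815) (nat_lit 26) (node (nat_lit 7) (nat_lit 93782) (nat_lit
  27) nil nil) nil) nil) nil) (node (nat_lit 4) (nat_lit 94102) (nat_lit 23) nil nil)) nil) (node
  (nat_lit 5) (nat_lit 93529) (nat_lit 21) (node (nat_lit 4) (nat_lit 93703) (nat_lit 22) (node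
  (nat_lit 7) (nat_lit 93896) (nat_lit 23) (node (nat_lit 5) (nat_lit 94068) (nat_lit 24) (node
  (nat_lit 4) (nat_lit 94221) (nat_lit 25) (node (nat_lit 5) (nat_lit 94340) (nat_lit 26) (node
  (nat_lit 7) (nat_lit 94435) (nat_lit 27) nil nil) nil) nil) nil) nil) nil) nil)) nil) nil) (node
  (nat_lit 7) (nat_lit 92011) (nat_lit 18) (node (nat_lit 4) (nat_lit 91205) (nat_lit 19) (node
  (nat_lit 5) (nat_lit 91027) (nat_lit 20) (node (nat_lit 4) (nat_lit 90761) (nat_lit 21) (node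
  (nat_lit 7) (nat_lit 90618) (nat_lit 22) (node (nat_lit 5) (nat_lit 89552) (nat_lit 23) (node
  (nat_lit 4) (nat_lit 88761) (nat_lit 24) (node (nat_lit 5) (nat_lit 87928) (nat_lit 25) (node
  (nat_lit 7) (nat_lit 86838) (nat_lit 26) (node (nat_lit 4) (nat_lit 83184) (nat_lit 27) (node
  (nat_lit 5) (nat_lit 80021) (nat_lit 28) (node (nat_lit 4) (nat_lit 72468) (nat_lit 29) (node
  (nat_lit 7) (nat_lit 64460) (nat_lit 30) (node (nat_lit 4) (nat_lit 64271) (nat_lit 31) (node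
  (nat_lit 5) (nat_lit 46291) (nat_lit 32) (node (nat_lit 7) (nat_lit 46306) (nat_lit 33) nil nil)
  nil) nil) nil) nil) nil) nil) nil) nil) nil) nil) nil) nil) nil) nil) nil)) nil) (node (nat_lit
  4) (nat_lit 89842) (nat_lit 16) (node (nat_lit 7) (nat_lit 90495) (nat_lit 17) (node (nat_lit 5)
  (nat_lit 90282) (nat_lit 18) nil nil) nil) (node (nat_lit 0) (nat_lit 89508) (nat_lit 16) nil
  nil))) (node (nat_lit 0) (nat_lit 87686) (nat_lit 15) nil nil)) (node (nat_lit 0) (nat_lit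
  86394) (nat_lit 14) nil nil)) (node (nat_lit 0) (nat_lit 84435) (nat_lit 13) (node (nat_lit 5)
  (nat_lit 86028) (nat_lit 14) (node (nat_lit 7) (nat_lit 87657) (nat_lit 15) nil (node (nat_lit
  4) (nat_lit 85421) (nat_lit 15) nil nil)) (node (nat_lit 4) (nat_lit 85527) (nat_lit 14) (node
  (nat_lit 7) (nat_lit 86595) (nat_lit 15) nil (node (nat_lit 5) (nat_lit 85051) (nat_lit 15) nil
  nil)) (node (nat_lit 7) (nat_lit 86113) (nat_lit 14) (node (nat_lit 5) (nat_lit 86871) (nat_lit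
  15) nil (node (nat_lit 4) (nat_lit 87743) (nat_lit 15) nil nil)) nil))) nil))) (node (nat_lit 0)
  (nat_lit 120156) (nat_lit 12) nil nil)) (node (nat_lit 0) (nat_lit 119350) (nat_lit 11) (node
  (nat_lit 5) (nat_lit 121519) (nat_lit 12) (node (nat_lit 4) (nat_lit 120434) (nat_lit 13) nil
  (node (nat_lit 7) (nat_lit 122823) (nat_lit 13) nil nil)) (node (nat_lit 4) (nat_lit 119260)
  (nat_lit 12) nil (node (nat_lit 7) (nat_lit 119260) (nat_lit 12) nil nil))) nil)) (node (nat_lit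
  7) (nat_lit 0) (nat_lit 10) (node (nat_lit 5) (nat_lit 0) (nat_lit 11) (node (nat_lit 4)
  (nat_lit 0) (nat_lit 12) (node (nat_lit 7) (nat_lit 0) (nat_lit 13) (node (nat_lit 4) (nat_lit
  123260) (nat_lit 14) (node (nat_lit 5) (nat_lit 123260) (nat_lit 15) (node (nat_lit 4) (nat_lit
  123260) (nat_lit 16) (node (nat_lit 7) (nat_lit 123260) (nat_lit 17) (node (nat_lit 5) (nat_lit
  123260) (nat_lit 18) (node (nat_lit 4) (nat_lit 123260) (nat_lit 19) (node (nat_lit 5) (nat_lit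
  102261) (nat_lit 20) (node (nat_lit 7) (nat_lit 99872) (nat_lit 21) (node (nat_lit 4) (nat_lit
  77293) (nat_lit 22) (node (nat_lit 7) (nat_lit 76668) (nat_lit 23) (node (nat_lit 5) (nat_lit
  76773) (nat_lit 24) nil nil) nil) nil) nil) nil) nil) nil) nil) (node (nat_lit 7) (nat_lit
  123260) (nat_lit 16) (node (nat_lit 5) (nat_lit 123260) (nat_lit 17) nil nil) nil)) nil) (node
  (nat_lit 0) (nat_lit 123260) (nat_lit 14) nil nil)) (node (nat_lit 5) (nat_lit 123260) (nat_lit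
  13) nil (node (nat_lit 0) (nat_lit 123260) (nat_lit 13) nil nil))) (node (nat_lit 7) (nat_lit
  123260) (nat_lit 12) (node (nat_lit 4) (nat_lit 123260) (nat_lit 13) (node (nat_lit 5) (nat_lit
  123260) (nat_lit 14) (node (nat_lit 4) (nat_lit 123260) (nat_lit 15) (node (nat_lit 7) (nat_lit
  123260) (nat_lit 16) (node (nat_lit 5) (nat_lit 123260) (nat_lit 17) (node (nat_lit 4) (nat_lit
  123260) (nat_lit 18) (node (nat_lit 5) (nat_lit 112565) (nat_lit 19) (node (nat_lit 7) (nat_lit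
  87448) (nat_lit 20) (node (nat_lit 4) (nat_lit 28070) (nat_lit 21) (node (nat_lit 5) (nat_lit
  28149) (nat_lit 22) (node (nat_lit 4) (nat_lit 28248) (nat_lit 23) (node (nat_lit 7) (nat_lit
  28355) (nat_lit 24) nil nil) nil) nil) nil) nil) nil) nil) (node (nat_lit 4) (nat_lit 123260)
  (nat_lit 17) (node (nat_lit 5) (nat_lit 123260) (nat_lit 18) nil nil) nil)) nil) (node (nat_lit
  7) (nat_lit 123260) (nat_lit 15) (node (nat_lit 5) (nat_lit 123260) (nat_lit 16) nil nil) nil))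
  nil) nil) (node (nat_lit 0) (nat_lit 123260) (nat_lit 12) nil nil))) (node (nat_lit 0) (nat_lit
  120924) (nat_lit 11) (node (nat_lit 7) (nat_lit 121708) (nat_lit 12) (node (nat_lit 5) (nat_lit
  122428) (nat_lit 13) nil (node (nat_lit 4) (nat_lit 123011) (nat_lit 13) nil nil)) (node
  (nat_lit 4) (nat_lit 121708) (nat_lit 12) (node (nat_lit 5) (nat_lit 120622) (nat_lit 13) nil
  (node (nat_lit 7) (nat_lit 123260) (nat_lit 13) nil nil)) (node (nat_lit 5) (nat_lit 120140)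
  (nat_lit 12) (node (nat_lit 7) (nat_lit 121443) (nat_lit 13) nil (node (nat_lit 4) (nat_lit
  119054) (nat_lit 13) nil nil)) nil))) nil)) (node (nat_lit 0) (nat_lit 117138) (nat_lit 10)
  (node (nat_lit 5) (nat_lit 118682) (nat_lit 11) (node (nat_lit 7) (nat_lit 121137) (nat_lit 12)
  nil (node (nat_lit 4) (nat_lit 120850) (nat_lit 12) (node (nat_lit 5) (nat_lit 119764) (nat_lit
  13) nil nil) nil)) (node (nat_lit 7) (nat_lit 118859) (nat_lit 11) (node (nat_lit 5) (nat_lit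
  119745) (nat_lit 12) nil (node (nat_lit 4) (nat_lit 121314) (nat_lit 12) (node (nat_lit 7)
  (nat_lit 122617) (nat_lit 13) nil nil) nil)) (node (nat_lit 4) (nat_lit 117570) (nat_lit 11)
  (node (nat_lit 5) (nat_lit 120429) (nat_lit 12) nil (node (nat_lit 7) (nat_lit 120024) (nat_lit
  12) nil nil)) (node (nat_lit 0) (nat_lit 119811) (nat_lit 11) nil nil)))) nil))) (node (nat_lit
  5) (nat_lit 0) (nat_lit 9) (node (nat_lit 4) (nat_lit 0) (nat_lit 10) (node (nat_lit 7) (nat_lit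
  0) (nat_lit 11) (node (nat_lit 4) (nat_lit 0) (nat_lit 12) (node (nat_lit 5) (nat_lit 0)
  (nat_lit 13) (node (nat_lit 7) (nat_lit 0) (nat_lit 14) (node (nat_lit 5) (nat_lit 123260)
  (nat_lit 15) (node (nat_lit 4) (nat_lit 0) (nat_lit 16) (node (nat_lit 5) (nat_lit 123260)
  (nat_lit 17) (node (nat_lit 7) (nat_lit 123260) (nat_lit 18) (node (nat_lit 4) (nat_lit 123260)
  (nat_lit 19) (node (nat_lit 5) (nat_lit 123260) (nat_lit 20) (node (nat_lit 4) (nat_lit 123260)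
  (nat_lit 21) (node (nat_lit 7) (nat_lit 123260) (nat_lit 22) (node (nat_lit 5) (nat_lit 123260)
  (nat_lit 23) (node (nat_lit 4) (nat_lit 123260) (nat_lit 24) (node (nat_lit 5) (nat_lit 123260)
  (nat_lit 25) (node (nat_lit 7) (nat_lit 123260) (nat_lit 26) (node (nat_lit 5) (nat_lit 123260)
  (nat_lit 27) (node (nat_lit 4) (nat_lit 123260) (nat_lit 28) (node (nat_lit 7) (nat_lit 122993)
  (nat_lit 29) (node (nat_lit 4) (nat_lit 113272) (nat_lit 30) (node (nat_lit 5) (nat_lit 95313)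
  (nat_lit 31) (node (nat_lit 7) (nat_lit 75069) (nat_lit 32) (node (nat_lit 5) (nat_lit 45165)
  (nat_lit 33) (node (nat_lit 4) (nat_lit 26935) (nat_lit 34) nil nil) nil) nil) nil) nil) nil)
  nil) nil) nil) nil) nil) nil) nil) nil) (node (nat_lit 7) (nat_lit 123260) (nat_lit 20) (node
  (nat_lit 5) (nat_lit 123260) (nat_lit 21) (node (nat_lit 7) (nat_lit 123260) (nat_lit 22) (node
  (nat_lit 4) (nat_lit 123260) (nat_lit 23) (node (nat_lit 5) (nat_lit 123260) (nat_lit 24) (node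
  (nat_lit 4) (nat_lit 123260) (nat_lit 25) (node (nat_lit 7) (nat_lit 123260) (nat_lit 26) nil
  nil) nil) nil) nil) nil) nil) nil)) nil) nil) (node (nat_lit 0) (nat_lit 123260) (nat_lit 17)
  nil nil)) nil) (node (nat_lit 4) (nat_lit 123260) (nat_lit 15) (node (nat_lit 7) (nat_lit
  123260) (nat_lit 16) (node (nat_lit 5) (nat_lit 123260) (nat_lit 17) (node (nat_lit 7) (nat_lit
  123260) (nat_lit 18) (node (nat_lit 4) (nat_lit 123260) (nat_lit 19) (node (nat_lit 5) (nat_lit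
  123260) (nat_lit 20) (node (nat_lit 4) (nat_lit 123260) (nat_lit 21) (node (nat_lit 7) (nat_lit
  123260) (nat_lit 22) (node (nat_lit 5) (nat_lit 123260) (nat_lit 23) (node (nat_lit 4) (nat_lit
  123260) (nat_lit 24) (node (nat_lit 5) (nat_lit 123260) (nat_lit 25) (node (nat_lit 7) (nat_lit
  123260) (nat_lit 26) (node (nat_lit 5) (nat_lit 123260) (nat_lit 27) (node (nat_lit 4) (nat_lit
  123260) (nat_lit 28) (node (nat_lit 7) (nat_lit 123260) (nat_lit 29) (node (nat_lit 4) (nat_lit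
  122830) (nat_lit 30) (node (nat_lit 5) (nat_lit 104593) (nat_lit 31) (node (nat_lit 7) (nat_lit
  78891) (nat_lit 32) (node (nat_lit 4) (nat_lit 61530) (nat_lit 33) (node (nat_lit 7) (nat_lit
  27586) (nat_lit 34) nil nil) nil) nil) nil) nil) nil) nil) nil) nil) nil) nil) nil) nil) nil)
  nil) nil) (node (nat_lit 4) (nat_lit 123260) (nat_lit 18) (node (nat_lit 7) (nat_lit 123260)
  (nat_lit 19) (node (nat_lit 4) (nat_lit 123260) (nat_lit 20) (node (nat_lit 5) (nat_lit 123260)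
  (nat_lit 21) nil nil) nil) (node (nat_lit 5) (nat_lit 123260) (nat_lit 19) (node (nat_lit 7)
  (nat_lit 123260) (nat_lit 20) (node (nat_lit 4) (nat_lit 123260) (nat_lit 21) nil nil) nil)
  nil)) nil)) nil) nil) (node (nat_lit 0) (nat_lit 123260) (nat_lit 15) nil nil))) (node (nat_lit
  4) (nat_lit 0) (nat_lit 14) (node (nat_lit 7) (nat_lit 123260) (nat_lit 15) (node (nat_lit 5)
  (nat_lit 121783) (nat_lit 16) (node (nat_lit 4) (nat_lit 90472) (nat_lit 17) (node (nat_lit 5)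
  (nat_lit 82343) (nat_lit 18) (node (nat_lit 7) (nat_lit 82099) (nat_lit 19) (node (nat_lit 4)
  (nat_lit 82087) (nat_lit 20) (node (nat_lit 5) (nat_lit 82049) (nat_lit 21) (node (nat_lit 4)
  (nat_lit 81855) (nat_lit 22) nil nil) (node (nat_lit 7) (nat_lit 82267) (nat_lit 21) nil nil))
  (node (nat_lit 5) (nat_lit 82462) (nat_lit 20) nil nil)) nil) nil) (node (nat_lit 7) (nat_lit
  121583) (nat_lit 17) (node (nat_lit 4) (nat_lit 121699) (nat_lit 18) (node (nat_lit 5) (nat_lit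
  121473) (nat_lit 19) nil nil) nil) nil)) nil) (node (nat_lit 0) (nat_lit 123260) (nat_lit 15)
  nil nil)) (node (nat_lit 0) (nat_lit 123260) (nat_lit 14) (node (nat_lit 5) (nat_lit 123260)
  (nat_lit 15) nil nil) nil))) (node (nat_lit 0) (nat_lit 123260) (nat_lit 13) nil nil)) (node
  (nat_lit 5) (nat_lit 0) (nat_lit 12) (node (nat_lit 7) (nat_lit 0) (nat_lit 13) (node (nat_lit
  4) (nat_lit 123260) (nat_lit 14) (node (nat_lit 5) (nat_lit 123260) (nat_lit 15) (node (nat_lit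
  4) (nat_lit 123260) (nat_lit 16) (node (nat_lit 7) (nat_lit 123260) (nat_lit 17) (node (nat_lit
  5) (nat_lit 123260) (nat_lit 18) (node (nat_lit 4) (nat_lit 123260) (nat_lit 19) (node (nat_lit
  5) (nat_lit 123260) (nat_lit 20) (node (nat_lit 7) (nat_lit 111317) (nat_lit 21) (node (nat_lit
  5) (nat_lit 59716) (nat_lit 22) (node (nat_lit 4) (nat_lit 27097) (nat_lit 23) (node (nat_lit 7)
  (nat_lit 27205) (nat_lit 24) nil nil) nil) nil) nil) nil) nil) (node (nat_lit 4) (nat_lit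
  123260) (nat_lit 18) (node (nat_lit 5) (nat_lit 123260) (nat_lit 19) nil nil) nil)) nil) (node
  (nat_lit 7) (nat_lit 123260) (nat_lit 16) (node (nat_lit 5) (nat_lit 123260) (nat_lit 17) nil
  nil) nil)) (node (nat_lit 7) (nat_lit 123260) (nat_lit 15) (node (nat_lit 5) (nat_lit 123260)
  (nat_lit 16) (node (nat_lit 4) (nat_lit 123260) (nat_lit 17) (node (nat_lit 7) (nat_lit 123260)
  (nat_lit 18) (node (nat_lit 4) (nat_lit 123260) (nat_lit 19) (node (nat_lit 5) (nat_lit 123260)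
  (nat_lit 20) nil nil) nil) nil) nil) nil) nil)) (node (nat_lit 0) (nat_lit 123260) (nat_lit 14)
  nil nil)) (node (nat_lit 0) (nat_lit 123260) (nat_lit 13) nil nil)) (node (nat_lit 0) (nat_lit
  123260) (nat_lit 12) (node (nat_lit 4) (nat_lit 123260) (nat_lit 13) nil (node (nat_lit 5)
  (nat_lit 123260) (nat_lit 13) nil (node (nat_lit 7) (nat_lit 123260) (nat_lit 13) nil nil)))
  nil))) (node (nat_lit 0) (nat_lit 120924) (nat_lit 11) (node (nat_lit 5) (nat_lit 122114)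
  (nat_lit 12) (node (nat_lit 4) (nat_lit 123260) (nat_lit 13) (node (nat_lit 5) (nat_lit 122928)
  (nat_lit 14) nil nil) (node (nat_lit 7) (nat_lit 123260) (nat_lit 13) nil nil)) (node (nat_lit
  4) (nat_lit 121285) (nat_lit 12) (node (nat_lit 7) (nat_lit 123199) (nat_lit 13) nil (node
  (nat_lit 5) (nat_lit 123260) (nat_lit 13) (node (nat_lit 7) (nat_lit 123260) (nat_lit 14) nil
  (node (nat_lit 4) (nat_lit 122703) (nat_lit 14) nil nil)) nil)) (node (nat_lit 7) (nat_lit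
  122267) (nat_lit 12) (node (nat_lit 4) (nat_lit 123260) (nat_lit 13) nil (node (nat_lit 5)
  (nat_lit 122987) (nat_lit 13) (node (nat_lit 7) (nat_lit 121367) (nat_lit 14) nil nil) nil))
  (node (nat_lit 0) (nat_lit 123011) (nat_lit 12) nil nil)))) nil)) (node (nat_lit 0) (nat_lit
  117138) (nat_lit 10) (node (nat_lit 4) (nat_lit 117570) (nat_lit 11) (node (nat_lit 5) (nat_lit
  120429) (nat_lit 12) (node (nat_lit 4) (nat_lit 119955) (nat_lit 13) nil (node (nat_lit 7)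
  (nat_lit 122343) (nat_lit 13) nil nil)) (node (nat_lit 7) (nat_lit 120024) (nat_lit 12) (node
  (nat_lit 4) (nat_lit 121328) (nat_lit 13) nil (node (nat_lit 5) (nat_lit 120744) (nat_lit 13)
  nil nil)) (node (nat_lit 13) (nat_lit 121328) (nat_lit 12) nil nil))) (node (nat_lit 7) (nat_lit
  118859) (nat_lit 11) (node (nat_lit 5) (nat_lit 121873) (nat_lit 12) (node (nat_lit 7) (nat_lit
  123260) (nat_lit 13) (node (nat_lit 4) (nat_lit 123260) (nat_lit 14) (node (nat_lit 5) (nat_lit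
  123260) (nat_lit 15) (node (nat_lit 4) (nat_lit 123260) (nat_lit 16) nil nil) nil) nil) (node
  (nat_lit 4) (nat_lit 120787) (nat_lit 13) nil nil)) (node (nat_lit 4) (nat_lit 121314) (nat_lit
  12) (node (nat_lit 5) (nat_lit 122617) (nat_lit 13) nil (node (nat_lit 7) (nat_lit 122617)
  (nat_lit 13) nil nil)) (node (nat_lit 13) (nat_lit 122617) (nat_lit 12) nil nil))) (node
  (nat_lit 5) (nat_lit 118682) (nat_lit 11) (node (nat_lit 7) (nat_lit 121696) (nat_lit 12) (node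
  (nat_lit 4) (nat_lit 123000) (nat_lit 13) nil nil) (node (nat_lit 4) (nat_lit 120850) (nat_lit
  12) (node (nat_lit 7) (nat_lit 121830) (nat_lit 13) nil nil) nil)) (node (nat_lit 0) (nat_lit
  119811) (nat_lit 11) nil nil)))) nil)) (node (nat_lit 0) (nat_lit 112305) (nat_lit 9) (node
  (nat_lit 4) (nat_lit 112826) (nat_lit 10) (node (nat_lit 5) (nat_lit 116512) (nat_lit 11) (node
  (nat_lit 7) (nat_lit 118966) (nat_lit 12) nil nil) (node (nat_lit 7) (nat_lit 116689) (nat_lit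
  11) (node (nat_lit 5) (nat_lit 115280) (nat_lit 12) nil nil) nil)) (node (nat_lit 5) (nat_lit
  114360) (nat_lit 10) (node (nat_lit 4) (nat_lit 117226) (nat_lit 11) (node (nat_lit 7) (nat_lit
  119145) (nat_lit 12) nil nil) (node (nat_lit 7) (nat_lit 118223) (nat_lit 11) (node (nat_lit 4)
  (nat_lit 119893) (nat_lit 12) nil nil) nil)) (node (nat_lit 7) (nat_lit 114511) (nat_lit 10)
  (node (nat_lit 4) (nat_lit 117083) (nat_lit 11) (node (nat_lit 5) (nat_lit 117969) (nat_lit 12)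
  nil nil) (node (nat_lit 5) (nat_lit 118373) (nat_lit 11) (node (nat_lit 4) (nat_lit 116965)
  (nat_lit 12) nil nil) nil)) nil))) nil)))

noncomputable def t264 : Tr :=
  (node (nat_lit 5) (nat_lit 0) (nat_lit 10) (node (nat_lit 7) (nat_lit 0) (nat_lit 11) (node
  (nat_lit 4) (nat_lit 0) (nat_lit 12) (node (nat_lit 5) (nat_lit 0) (nat_lit 13) (node (nat_lit
  4) (nat_lit 0) (nat_lit 14) (node (nat_lit 7) (nat_lit 0) (nat_lit 15) (node (nat_lit 5)
  (nat_lit 0) (nat_lit 16) (node (nat_lit 7) (nat_lit 86166) (nat_lit 17) (node (nat_lit 4)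
  (nat_lit 86984) (nat_lit 18) (node (nat_lit 5) (nat_lit 87622) (nat_lit 19) (node (nat_lit 7)
  (nat_lit 87985) (nat_lit 20) (node (nat_lit 5) (nat_lit 88165) (nat_lit 21) nil nil) nil) nil)
  nil) (node (nat_lit 4) (nat_lit 85701) (nat_lit 17) (node (nat_lit 5) (nat_lit 85651) (nat_lit
  18) (node (nat_lit 7) (nat_lit 86056) (nat_lit 19) (node (nat_lit 4) (nat_lit 86059) (nat_lit
  20) nil nil) nil) nil) (node (nat_lit 0) (nat_lit 85979) (nat_lit 17) nil nil))) (node (nat_lit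
  4) (nat_lit 0) (nat_lit 16) (node (nat_lit 5) (nat_lit 66436) (nat_lit 17) (node (nat_lit 7)
  (nat_lit 52890) (nat_lit 18) (node (nat_lit 4) (nat_lit 53528) (nat_lit 19) (node (nat_lit 7)
  (nat_lit 53646) (nat_lit 20) (node (nat_lit 5) (nat_lit 53516) (nat_lit 21) nil nil) nil) nil)
  nil) (node (nat_lit 0) (nat_lit 71286) (nat_lit 17) nil nil)) (node (nat_lit 0) (nat_lit 85241)
  (nat_lit 16) nil nil))) (node (nat_lit 0) (nat_lit 83516) (nat_lit 15) (node (nat_lit 5)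
  (nat_lit 83878) (nat_lit 16) (node (nat_lit 4) (nat_lit 84130) (nat_lit 17) nil (node (nat_lit
  7) (nat_lit 84360) (nat_lit 17) nil nil)) (node (nat_lit 4) (nat_lit 84110) (nat_lit 16) (node
  (nat_lit 5) (nat_lit 83760) (nat_lit 17) nil (node (nat_lit 7) (nat_lit 84593) (nat_lit 17) nil
  nil)) (node (nat_lit 7) (nat_lit 84039) (nat_lit 16) nil nil))) nil)) (node (nat_lit 0) (nat_lit
  81728) (nat_lit 14) (node (nat_lit 5) (nat_lit 82191) (nat_lit 15) (node (nat_lit 4) (nat_lit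
  83407) (nat_lit 16) (node (nat_lit 7) (nat_lit 83659) (nat_lit 17) nil nil) (node (nat_lit 7)
  (nat_lit 83537) (nat_lit 16) (node (nat_lit 4) (nat_lit 84019) (nat_lit 17) nil (node (nat_lit
  5) (nat_lit 84019) (nat_lit 17) nil nil)) nil)) (node (nat_lit 4) (nat_lit 82483) (nat_lit 15)
  (node (nat_lit 5) (nat_lit 82396) (nat_lit 16) nil (node (nat_lit 7) (nat_lit 82811) (nat_lit
  16) nil nil)) (node (nat_lit 7) (nat_lit 82391) (nat_lit 15) (node (nat_lit 5) (nat_lit 82304)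
  (nat_lit 16) (node (nat_lit 7) (nat_lit 82948) (nat_lit 17) nil nil) (node (nat_lit 4) (nat_lit
  83376) (nat_lit 16) nil nil)) nil))) nil)) (node (nat_lit 7) (nat_lit 0) (nat_lit 13) (node
  (nat_lit 5) (nat_lit 0) (nat_lit 14) (node (nat_lit 4) (nat_lit 0) (nat_lit 15) (node (nat_lit
  7) (nat_lit 0) (nat_lit 16) (node (nat_lit 4) (nat_lit 0) (nat_lit 17) (node (nat_lit 5)
  (nat_lit 86984) (nat_lit 18) (node (nat_lit 7) (nat_lit 87452) (nat_lit 19) (node (nat_lit 5)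
  (nat_lit 87681) (nat_lit 20) nil (node (nat_lit 4) (nat_lit 87681) (nat_lit 20) nil nil)) (node
  (nat_lit 4) (nat_lit 87452) (nat_lit 19) (node (nat_lit 7) (nat_lit 87570) (nat_lit 20) nil nil)
  nil)) (node (nat_lit 0) (nat_lit 87060) (nat_lit 18) nil nil)) (node (nat_lit 0) (nat_lit 86263)
  (nat_lit 17) nil nil)) (node (nat_lit 5) (nat_lit 0) (nat_lit 16) (node (nat_lit 7) (nat_lit
  86166) (nat_lit 17) (node (nat_lit 5) (nat_lit 86765) (nat_lit 18) (node (nat_lit 4) (nat_lit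
  86552) (nat_lit 19) nil nil) nil) (node (nat_lit 0) (nat_lit 86263) (nat_lit 17) nil nil)) (node
  (nat_lit 0) (nat_lit 84931) (nat_lit 16) (node (nat_lit 5) (nat_lit 85214) (nat_lit 17) nil
  (node (nat_lit 4) (nat_lit 84701) (nat_lit 17) nil (node (nat_lit 7) (nat_lit 84931) (nat_lit
  17) nil nil))) nil))) (node (nat_lit 7) (nat_lit 0) (nat_lit 15) (node (nat_lit 4) (nat_lit 0)
  (nat_lit 16) (node (nat_lit 5) (nat_lit 86166) (nat_lit 17) (node (nat_lit 4) (nat_lit 86984)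
  (nat_lit 18) (node (nat_lit 7) (nat_lit 87622) (nat_lit 19) (node (nat_lit 4) (nat_lit 88121)
  (nat_lit 20) (node (nat_lit 5) (nat_lit 88511) (nat_lit 21) (node (nat_lit 7) (nat_lit 88813)
  (nat_lit 22) (node (nat_lit 5) (nat_lit 86684) (nat_lit 23) (node (nat_lit 4) (nat_lit 77221)
  (nat_lit 24) (node (nat_lit 5) (nat_lit 59138) (nat_lit 25) (node (nat_lit 7) (nat_lit 39406)
  (nat_lit 26) (node (nat_lit 4) (nat_lit 23526) (nat_lit 27) nil nil) nil) nil) nil) nil) nil)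
  nil) (node (nat_lit 5) (nat_lit 87455) (nat_lit 20) nil nil)) nil) (node (nat_lit 7) (nat_lit 0)
  (nat_lit 18) (node (nat_lit 5) (nat_lit 87452) (nat_lit 19) (node (nat_lit 4) (nat_lit 87570)
  (nat_lit 20) (node (nat_lit 7) (nat_lit 87316) (nat_lit 21) nil nil) nil) (node (nat_lit 0)
  (nat_lit 87681) (nat_lit 19) nil nil)) nil)) (node (nat_lit 0) (nat_lit 85979) (nat_lit 17) nil
  nil)) (node (nat_lit 0) (nat_lit 85241) (nat_lit 16) nil nil)) (node (nat_lit 0) (nat_lit 83536)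
  (nat_lit 15) (node (nat_lit 7) (nat_lit 84060) (nat_lit 16) (node (nat_lit 5) (nat_lit 83710)
  (nat_lit 17) nil nil) (node (nat_lit 5) (nat_lit 83898) (nat_lit 16) (node (nat_lit 7) (nat_lit
  84381) (nat_lit 17) nil (node (nat_lit 4) (nat_lit 83548) (nat_lit 17) nil nil)) (node (nat_lit
  4) (nat_lit 84101) (nat_lit 16) (node (nat_lit 5) (nat_lit 83751) (nat_lit 17) nil nil) nil)))
  nil))) (node (nat_lit 0) (nat_lit 81747) (nat_lit 14) (node (nat_lit 7) (nat_lit 82411) (nat_lit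
  15) (node (nat_lit 4) (nat_lit 83396) (nat_lit 16) nil (node (nat_lit 5) (nat_lit 82323)
  (nat_lit 16) nil nil)) (node (nat_lit 4) (nat_lit 82502) (nat_lit 15) nil (node (nat_lit 5)
  (nat_lit 82211) (nat_lit 15) nil nil))) nil)) (node (nat_lit 0) (nat_lit 80689) (nat_lit 13)
  (node (nat_lit 5) (nat_lit 81438) (nat_lit 14) (node (nat_lit 7) (nat_lit 82696) (nat_lit 15)
  (node (nat_lit 4) (nat_lit 83317) (nat_lit 16) nil (node (nat_lit 5) (nat_lit 83317) (nat_lit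
  16) nil nil)) (node (nat_lit 4) (nat_lit 82831) (nat_lit 15) (node (nat_lit 5) (nat_lit 82744)
  (nat_lit 16) nil nil) nil)) (node (nat_lit 4) (nat_lit 81877) (nat_lit 14) (node (nat_lit 5)
  (nat_lit 83598) (nat_lit 15) (node (nat_lit 7) (nat_lit 83500) (nat_lit 16) nil (node (nat_lit
  4) (nat_lit 83146) (nat_lit 16) nil nil)) (node (nat_lit 7) (nat_lit 83598) (nat_lit 15) (node
  (nat_lit 5) (nat_lit 83146) (nat_lit 16) nil (node (nat_lit 4) (nat_lit 84219) (nat_lit 16) nil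
  nil)) nil)) (node (nat_lit 7) (nat_lit 81665) (nat_lit 14) (node (nat_lit 4) (nat_lit 83291)
  (nat_lit 15) (node (nat_lit 7) (nat_lit 83912) (nat_lit 16) nil nil) (node (nat_lit 5) (nat_lit
  81631) (nat_lit 15) (node (nat_lit 7) (nat_lit 81049) (nat_lit 16) (node (nat_lit 4) (nat_lit
  80994) (nat_lit 17) nil nil) nil) nil)) (node (nat_lit 0) (nat_lit 82079) (nat_lit 14) nil
  nil)))) nil))) (node (nat_lit 0) (nat_lit 78303) (nat_lit 12) (node (nat_lit 5) (nat_lit 79826)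
  (nat_lit 13) (node (nat_lit 7) (nat_lit 82033) (nat_lit 14) (node (nat_lit 5) (nat_lit 83291)
  (nat_lit 15) nil (node (nat_lit 4) (nat_lit 82825) (nat_lit 15) nil nil)) (node (nat_lit 4)
  (nat_lit 81037) (nat_lit 14) (node (nat_lit 5) (nat_lit 80436) (nat_lit 15) nil (node (nat_lit
  7) (nat_lit 81452) (nat_lit 15) nil nil)) nil)) (node (nat_lit 7) (nat_lit 79826) (nat_lit 13)
  (node (nat_lit 5) (nat_lit 81438) (nat_lit 14) (node (nat_lit 4) (nat_lit 80837) (nat_lit 15)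
  nil (node (nat_lit 7) (nat_lit 81297) (nat_lit 15) (node (nat_lit 4) (nat_lit 79204) (nat_lit
  16) nil nil) nil)) (node (nat_lit 4) (nat_lit 82033) (nat_lit 14) (node (nat_lit 5) (nat_lit
  83291) (nat_lit 15) nil nil) nil)) (node (nat_lit 4) (nat_lit 79826) (nat_lit 13) (node (nat_lit
  5) (nat_lit 82033) (nat_lit 14) (node (nat_lit 7) (nat_lit 81244) (nat_lit 15) (node (nat_lit 4)
  (nat_lit 81198) (nat_lit 16) nil nil) nil) (node (nat_lit 7) (nat_lit 82033) (nat_lit 14) (node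
  (nat_lit 4) (nat_lit 83291) (nat_lit 15) nil (node (nat_lit 5) (nat_lit 81432) (nat_lit 15) nil
  nil)) (node (nat_lit 15) (nat_lit 81638) (nat_lit 14) nil nil))) (node (nat_lit 0) (nat_lit
  80086) (nat_lit 13) nil nil)))) nil)) (node (nat_lit 0) (nat_lit 0) (nat_lit 11) (node (nat_lit
  5) (nat_lit 76652) (nat_lit 12) (node (nat_lit 7) (nat_lit 79479) (nat_lit 13) (node (nat_lit 4)
  (nat_lit 81685) (nat_lit 14) (node (nat_lit 7) (nat_lit 82478) (nat_lit 15) nil (node (nat_lit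
  5) (nat_lit 82478) (nat_lit 15) nil nil)) (node (nat_lit 5) (nat_lit 81095) (nat_lit 14) (node
  (nat_lit 4) (nat_lit 80494) (nat_lit 15) nil nil) nil)) (node (nat_lit 4) (nat_lit 79479)
  (nat_lit 13) (node (nat_lit 7) (nat_lit 81685) (nat_lit 14) (node (nat_lit 4) (nat_lit 82944)
  (nat_lit 15) (node (nat_lit 5) (nat_lit 83928) (nat_lit 16) nil nil) (node (nat_lit 5) (nat_lit
  81084) (nat_lit 15) nil nil)) (node (nat_lit 5) (nat_lit 80348) (nat_lit 14) (node (nat_lit 7)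
  (nat_lit 79559) (nat_lit 15) nil nil) (node (nat_lit 14) (nat_lit 81888) (nat_lit 14) nil nil)))
  (node (nat_lit 0) (nat_lit 79738) (nat_lit 13) nil nil))) (node (nat_lit 4) (nat_lit 76652)
  (nat_lit 12) (node (nat_lit 5) (nat_lit 79479) (nat_lit 13) (node (nat_lit 4) (nat_lit 81685)
  (nat_lit 14) (node (nat_lit 7) (nat_lit 82100) (nat_lit 15) nil nil) (node (nat_lit 7) (nat_lit
  82033) (nat_lit 14) (node (nat_lit 5) (nat_lit 83291) (nat_lit 15) nil (node (nat_lit 4)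
  (nat_lit 81964) (nat_lit 15) nil nil)) nil)) (node (nat_lit 7) (nat_lit 79479) (nat_lit 13)
  (node (nat_lit 5) (nat_lit 79267) (nat_lit 14) (node (nat_lit 7) (nat_lit 80306) (nat_lit 15)
  (node (nat_lit 4) (nat_lit 80260) (nat_lit 16) (node (nat_lit 5) (nat_lit 81043) (nat_lit 17)
  nil nil) nil) (node (nat_lit 4) (nat_lit 78666) (nat_lit 15) nil nil)) (node (nat_lit 4)
  (nat_lit 81095) (nat_lit 14) nil nil)) (node (nat_lit 14) (nat_lit 79847) (nat_lit 13) (node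
  (nat_lit 5) (nat_lit 79847) (nat_lit 14) nil nil) nil))) (node (nat_lit 7) (nat_lit 77018)
  (nat_lit 12) (node (nat_lit 5) (nat_lit 79846) (nat_lit 13) (node (nat_lit 7) (nat_lit 79731)
  (nat_lit 14) (node (nat_lit 4) (nat_lit 77152) (nat_lit 15) (node (nat_lit 5) (nat_lit 78175)
  (nat_lit 16) (node (nat_lit 4) (nat_lit 77172) (nat_lit 17) (node (nat_lit 7) (nat_lit 74939)
  (nat_lit 18) nil nil) nil) nil) nil) (node (nat_lit 4) (nat_lit 80374) (nat_lit 14) (node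
  (nat_lit 5) (nat_lit 79773) (nat_lit 15) nil nil) nil)) (node (nat_lit 4) (nat_lit 79846)
  (nat_lit 13) (node (nat_lit 5) (nat_lit 82052) (nat_lit 14) (node (nat_lit 7) (nat_lit 82845)
  (nat_lit 15) nil (node (nat_lit 4) (nat_lit 81451) (nat_lit 15) nil nil)) (node (nat_lit 7)
  (nat_lit 80374) (nat_lit 14) nil nil)) (node (nat_lit 14) (nat_lit 80105) (nat_lit 13) nil
  nil))) (node (nat_lit 0) (nat_lit 76464) (nat_lit 12) (node (nat_lit 5) (nat_lit 77229) (nat_lit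
  13) nil (node (nat_lit 14) (nat_lit 77482) (nat_lit 13) nil nil)) nil)))) nil)) (node (nat_lit
  7) (nat_lit 0) (nat_lit 10) (node (nat_lit 5) (nat_lit 0) (nat_lit 11) (node (nat_lit 7)
  (nat_lit 0) (nat_lit 12) (node (nat_lit 4) (nat_lit 0) (nat_lit 13) (node (nat_lit 5) (nat_lit
  0) (nat_lit 14) (node (nat_lit 4) (nat_lit 0) (nat_lit 15) (node (nat_lit 7) (nat_lit 85118)
  (nat_lit 16) (node (nat_lit 4) (nat_lit 86166) (nat_lit 17) (node (nat_lit 5) (nat_lit 80263)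
  (nat_lit 18) (node (nat_lit 7) (nat_lit 69113) (nat_lit 19) (node (nat_lit 5) (nat_lit 27948)
  (nat_lit 20) (node (nat_lit 4) (nat_lit 25142) (nat_lit 21) nil nil) (node (nat_lit 4) (nat_lit
  69342) (nat_lit 20) nil nil)) nil) nil) (node (nat_lit 5) (nat_lit 85882) (nat_lit 17) (node
  (nat_lit 4) (nat_lit 86260) (nat_lit 18) nil nil) nil)) (node (nat_lit 0) (nat_lit 84876)
  (nat_lit 16) nil nil)) (node (nat_lit 7) (nat_lit 83773) (nat_lit 15) (node (nat_lit 5) (nat_lit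
  84756) (nat_lit 16) (node (nat_lit 4) (nat_lit 85009) (nat_lit 17) (node (nat_lit 7) (nat_lit
  85206) (nat_lit 18) nil (node (nat_lit 5) (nat_lit 85472) (nat_lit 18) (node (nat_lit 7)
  (nat_lit 85877) (nat_lit 19) (node (nat_lit 4) (nat_lit 85880) (nat_lit 20) nil nil) nil) nil))
  nil) nil) (node (nat_lit 0) (nat_lit 83931) (nat_lit 15) nil nil))) (node (nat_lit 7) (nat_lit
  0) (nat_lit 14) (node (nat_lit 5) (nat_lit 83308) (nat_lit 15) (node (nat_lit 4) (nat_lit 84524)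
  (nat_lit 16) (node (nat_lit 7) (nat_lit 85290) (nat_lit 17) (node (nat_lit 4) (nat_lit 85889)
  (nat_lit 18) (node (nat_lit 5) (nat_lit 86357) (nat_lit 19) (node (nat_lit 4) (nat_lit 86720)
  (nat_lit 20) (node (nat_lit 7) (nat_lit 86815) (nat_lit 21) nil nil) nil) nil) nil) (node
  (nat_lit 5) (nat_lit 85409) (nat_lit 17) (node (nat_lit 7) (nat_lit 86142) (nat_lit 18) (node
  (nat_lit 5) (nat_lit 86437) (nat_lit 19) nil nil) nil) nil)) nil) (node (nat_lit 0) (nat_lit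
  83466) (nat_lit 15) nil nil)) (node (nat_lit 0) (nat_lit 82255) (nat_lit 14) (node (nat_lit 4)
  (nat_lit 82255) (nat_lit 15) nil (node (nat_lit 5) (nat_lit 82255) (nat_lit 15) nil (node
  (nat_lit 7) (nat_lit 82255) (nat_lit 15) nil nil))) nil))) (node (nat_lit 0) (nat_lit 79447)
  (nat_lit 13) (node (nat_lit 4) (nat_lit 80407) (nat_lit 14) (node (nat_lit 7) (nat_lit 81199)
  (nat_lit 15) nil (node (nat_lit 5) (nat_lit 79806) (nat_lit 15) nil nil)) (node (nat_lit 5)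
  (nat_lit 80040) (nat_lit 14) (node (nat_lit 4) (nat_lit 79440) (nat_lit 15) nil (node (nat_lit
  7) (nat_lit 81299) (nat_lit 15) nil nil)) (node (nat_lit 7) (nat_lit 80289) (nat_lit 14) (node
  (nat_lit 5) (nat_lit 79688) (nat_lit 15) nil (node (nat_lit 4) (nat_lit 81082) (nat_lit 15) nil
  nil)) nil))) nil)) (node (nat_lit 0) (nat_lit 76415) (nat_lit 12) (node (nat_lit 7) (nat_lit
  77474) (nat_lit 13) (node (nat_lit 5) (nat_lit 77262) (nat_lit 14) nil (node (nat_lit 4)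
  (nat_lit 78492) (nat_lit 14) nil nil)) (node (nat_lit 4) (nat_lit 77606) (nat_lit 13) (node
  (nat_lit 5) (nat_lit 77415) (nat_lit 14) nil (node (nat_lit 7) (nat_lit 78625) (nat_lit 14) nil
  nil)) (node (nat_lit 5) (nat_lit 77171) (nat_lit 13) (node (nat_lit 7) (nat_lit 78787) (nat_lit
  14) nil (node (nat_lit 4) (nat_lit 77699) (nat_lit 14) nil nil)) nil))) nil)) (node (nat_lit 4)
  (nat_lit 0) (nat_lit 11) (node (nat_lit 5) (nat_lit 0) (nat_lit 12) (node (nat_lit 4) (nat_lit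
  79752) (nat_lit 13) (node (nat_lit 7) (nat_lit 81958) (nat_lit 14) (node (nat_lit 5) (nat_lit
  83214) (nat_lit 15) (node (nat_lit 7) (nat_lit 84561) (nat_lit 16) (node (nat_lit 4) (nat_lit
  85607) (nat_lit 17) (node (nat_lit 5) (nat_lit 86426) (nat_lit 18) (node (nat_lit 4) (nat_lit
  82322) (nat_lit 19) (node (nat_lit 7) (nat_lit 81690) (nat_lit 20) (node (nat_lit 4) (nat_lit
  80999) (nat_lit 21) (node (nat_lit 5) (nat_lit 78623) (nat_lit 22) (node (nat_lit 7) (nat_lit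
  75889) (nat_lit 23) (node (nat_lit 5) (nat_lit 72832) (nat_lit 24) (node (nat_lit 4) (nat_lit
  65299) (nat_lit 25) (node (nat_lit 7) (nat_lit 55607) (nat_lit 26) (node (nat_lit 4) (nat_lit
  32957) (nat_lit 27) (node (nat_lit 5) (nat_lit 11972) (nat_lit 28) nil nil) nil) nil) nil) nil)
  nil) nil) nil) nil) (node (nat_lit 7) (nat_lit 86721) (nat_lit 19) nil nil)) nil) nil) (node
  (nat_lit 4) (nat_lit 83542) (nat_lit 16) (node (nat_lit 5) (nat_lit 84133) (nat_lit 17) (node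
  (nat_lit 7) (nat_lit 83592) (nat_lit 18) nil nil) nil) nil)) nil) nil) (node (nat_lit 0)
  (nat_lit 80011) (nat_lit 13) nil nil)) (node (nat_lit 0) (nat_lit 76390) (nat_lit 12) (node
  (nat_lit 5) (nat_lit 77146) (nat_lit 13) nil (node (nat_lit 7) (nat_lit 75743) (nat_lit 13) nil
  (node (nat_lit 4) (nat_lit 75743) (nat_lit 13) nil nil))) nil)) (node (nat_lit 0) (nat_lit
  73693) (nat_lit 11) (node (nat_lit 7) (nat_lit 75643) (nat_lit 12) (node (nat_lit 4) (nat_lit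
  78469) (nat_lit 13) nil (node (nat_lit 5) (nat_lit 75323) (nat_lit 13) nil nil)) (node (nat_lit
  4) (nat_lit 75243) (nat_lit 12) (node (nat_lit 7) (nat_lit 75899) (nat_lit 13) nil (node
  (nat_lit 5) (nat_lit 74157) (nat_lit 13) nil nil)) (node (nat_lit 5) (nat_lit 74647) (nat_lit
  12) (node (nat_lit 4) (nat_lit 75303) (nat_lit 13) nil (node (nat_lit 7) (nat_lit 76715)
  (nat_lit 13) nil nil)) (node (nat_lit 0) (nat_lit 74996) (nat_lit 12) nil nil)))) nil))) (node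
  (nat_lit 0) (nat_lit 70531) (nat_lit 10) (node (nat_lit 7) (nat_lit 73330) (nat_lit 11) (node
  (nat_lit 4) (nat_lit 76914) (nat_lit 12) (node (nat_lit 7) (nat_lit 78218) (nat_lit 13) nil
  (node (nat_lit 5) (nat_lit 78982) (nat_lit 13) nil nil)) (node (nat_lit 5) (nat_lit 75208)
  (nat_lit 12) (node (nat_lit 7) (nat_lit 75191) (nat_lit 13) (node (nat_lit 4) (nat_lit 72709)
  (nat_lit 14) nil nil) (node (nat_lit 4) (nat_lit 74122) (nat_lit 13) nil nil)) (node (nat_lit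
  13) (nat_lit 76304) (nat_lit 12) nil nil))) (node (nat_lit 5) (nat_lit 73032) (nat_lit 11) (node
  (nat_lit 4) (nat_lit 76652) (nat_lit 12) (node (nat_lit 5) (nat_lit 77307) (nat_lit 13) (node
  (nat_lit 7) (nat_lit 76284) (nat_lit 14) nil nil) (node (nat_lit 7) (nat_lit 77308) (nat_lit 13)
  nil nil)) (node (nat_lit 7) (nat_lit 76652) (nat_lit 12) (node (nat_lit 4) (nat_lit 77955)
  (nat_lit 13) nil nil) nil)) (node (nat_lit 4) (nat_lit 73032) (nat_lit 11) (node (nat_lit 5)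
  (nat_lit 76452) (nat_lit 12) (node (nat_lit 7) (nat_lit 76635) (nat_lit 13) nil nil) (node
  (nat_lit 7) (nat_lit 76652) (nat_lit 12) nil nil)) (node (nat_lit 0) (nat_lit 73457) (nat_lit
  11) nil nil)))) nil)))

noncomputable def t265 : Tr :=
  (node (nat_lit 5) (nat_lit 0) (nat_lit 5) (node (nat_lit 7) (nat_lit 0) (nat_lit 6) (node
  (nat_lit 4) (nat_lit 0) (nat_lit 7) (node (nat_lit 5) (nat_lit 0) (nat_lit 8) (node (nat_lit 4)
  (nat_lit 0) (nat_lit 9) (node (nat_lit 7) (nat_lit 0) (nat_lit 10) (node (nat_lit 4) (nat_lit 0)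
  (nat_lit 11) (node (nat_lit 5) (nat_lit 0) (nat_lit 12) (node (nat_lit 7) (nat_lit 0) (nat_lit
  13) (node (nat_lit 5) (nat_lit 23665) (nat_lit 14) (node (nat_lit 4) (nat_lit 24830) (nat_lit
  15) (node (nat_lit 7) (nat_lit 25973) (nat_lit 16) (node (nat_lit 4) (nat_lit 26684) (nat_lit
  17) (node (nat_lit 5) (nat_lit 23822) (nat_lit 18) (node (nat_lit 4) (nat_lit 23873) (nat_lit
  19) (node (nat_lit 7) (nat_lit 22685) (nat_lit 20) (node (nat_lit 5) (nat_lit 22003) (nat_lit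
  21) (node (nat_lit 7) (nat_lit 21026) (nat_lit 22) (node (nat_lit 4) (nat_lit 17512) (nat_lit
  23) (node (nat_lit 5) (nat_lit 14418) (nat_lit 24) (node (nat_lit 4) (nat_lit 6952) (nat_lit 25)
  nil nil) nil) nil) nil) nil) nil) nil) nil) (node (nat_lit 5) (nat_lit 26684) (nat_lit 17) (node
  (nat_lit 7) (nat_lit 27238) (nat_lit 18) (node (nat_lit 4) (nat_lit 27671) (nat_lit 19) (node
  (nat_lit 5) (nat_lit 27801) (nat_lit 20) (node (nat_lit 4) (nat_lit 27964) (nat_lit 21) (node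
  (nat_lit 7) (nat_lit 28139) (nat_lit 22) (node (nat_lit 5) (nat_lit 28300) (nat_lit 23) nil nil)
  nil) (node (nat_lit 7) (nat_lit 27981) (nat_lit 21) nil nil)) nil) nil) nil) nil)) (node
  (nat_lit 5) (nat_lit 25741) (nat_lit 16) (node (nat_lit 7) (nat_lit 26451) (nat_lit 17) (node
  (nat_lit 4) (nat_lit 27007) (nat_lit 18) (node (nat_lit 5) (nat_lit 27173) (nat_lit 19) nil nil)
  nil) nil) nil)) nil) (node (nat_lit 4) (nat_lit 23665) (nat_lit 14) (node (nat_lit 7) (nat_lit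
  25002) (nat_lit 15) (node (nat_lit 5) (nat_lit 25914) (nat_lit 16) (node (nat_lit 4) (nat_lit
  26624) (nat_lit 17) (node (nat_lit 5) (nat_lit 26352) (nat_lit 18) nil nil) (node (nat_lit 7)
  (nat_lit 26624) (nat_lit 17) (node (nat_lit 4) (nat_lit 27179) (nat_lit 18) (node (nat_lit 5)
  (nat_lit 27346) (nat_lit 19) nil nil) nil) nil)) nil) nil) (node (nat_lit 0) (nat_lit 23981)
  (nat_lit 14) nil nil))) (node (nat_lit 0) (nat_lit 22090) (nat_lit 13) nil nil)) (node (nat_lit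
  0) (nat_lit 20797) (nat_lit 12) (node (nat_lit 7) (nat_lit 21407) (nat_lit 13) nil nil) nil))
  (node (nat_lit 0) (nat_lit 17843) (nat_lit 11) (node (nat_lit 7) (nat_lit 19186) (nat_lit 12)
  (node (nat_lit 4) (nat_lit 20782) (nat_lit 13) (node (nat_lit 5) (nat_lit 21800) (nat_lit 14)
  nil (node (nat_lit 7) (nat_lit 21800) (nat_lit 14) nil nil)) (node (nat_lit 5) (nat_lit 21538)
  (nat_lit 13) (node (nat_lit 4) (nat_lit 20727) (nat_lit 14) nil (node (nat_lit 7) (nat_lit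
  23033) (nat_lit 14) nil nil)) (node (nat_lit 0) (nat_lit 21508) (nat_lit 13) nil nil))) (node
  (nat_lit 4) (nat_lit 18204) (nat_lit 12) (node (nat_lit 7) (nat_lit 20554) (nat_lit 13) (node
  (nat_lit 4) (nat_lit 21573) (nat_lit 14) nil (node (nat_lit 5) (nat_lit 19744) (nat_lit 14) nil
  nil)) (node (nat_lit 5) (nat_lit 20432) (nat_lit 13) (node (nat_lit 7) (nat_lit 21927) (nat_lit
  14) nil nil) (node (nat_lit 14) (nat_lit 20526) (nat_lit 13) nil nil))) (node (nat_lit 5)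
  (nat_lit 19032) (nat_lit 12) (node (nat_lit 7) (nat_lit 21384) (nat_lit 13) (node (nat_lit 4)
  (nat_lit 22402) (nat_lit 14) nil nil) (node (nat_lit 4) (nat_lit 20656) (nat_lit 13) (node
  (nat_lit 5) (nat_lit 19846) (nat_lit 14) nil (node (nat_lit 7) (nat_lit 19513) (nat_lit 14) nil
  nil)) nil)) (node (nat_lit 0) (nat_lit 19930) (nat_lit 12) nil nil)))) nil)) (node (nat_lit 0)
  (nat_lit 52467) (nat_lit 10) (node (nat_lit 7) (nat_lit 57573) (nat_lit 11) (node (nat_lit 5)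
  (nat_lit 61566) (nat_lit 12) (node (nat_lit 7) (nat_lit 60954) (nat_lit 13) (node (nat_lit 4)
  (nat_lit 62234) (nat_lit 14) (node (nat_lit 5) (nat_lit 61542) (nat_lit 15) nil nil) nil) (node
  (nat_lit 4) (nat_lit 60481) (nat_lit 13) nil nil)) (node (nat_lit 4) (nat_lit 61006) (nat_lit
  12) (node (nat_lit 7) (nat_lit 62310) (nat_lit 13) nil nil) nil)) (node (nat_lit 5) (nat_lit
  55268) (nat_lit 11) (node (nat_lit 4) (nat_lit 58416) (nat_lit 12) (node (nat_lit 5) (nat_lit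
  61576) (nat_lit 13) nil (node (nat_lit 7) (nat_lit 56428) (nat_lit 13) nil nil)) (node (nat_lit
  7) (nat_lit 58702) (nat_lit 12) nil nil)) (node (nat_lit 4) (nat_lit 54155) (nat_lit 11) (node
  (nat_lit 7) (nat_lit 58871) (nat_lit 12) nil (node (nat_lit 5) (nat_lit 57995) (nat_lit 12) nil
  nil)) (node (nat_lit 0) (nat_lit 57573) (nat_lit 11) nil nil)))) nil)) (node (nat_lit 7)
  (nat_lit 0) (nat_lit 9) (node (nat_lit 5) (nat_lit 0) (nat_lit 10) (node (nat_lit 4) (nat_lit 0)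
  (nat_lit 11) (node (nat_lit 7) (nat_lit 0) (nat_lit 12) (node (nat_lit 4) (nat_lit 0) (nat_lit
  13) (node (nat_lit 5) (nat_lit 0) (nat_lit 14) (node (nat_lit 4) (nat_lit 88473) (nat_lit 15)
  (node (nat_lit 7) (nat_lit 89803) (nat_lit 16) (node (nat_lit 5) (nat_lit 90957) (nat_lit 17)
  (node (nat_lit 7) (nat_lit 85414) (nat_lit 18) (node (nat_lit 4) (nat_lit 63660) (nat_lit 19)
  (node (nat_lit 5) (nat_lit 49713) (nat_lit 20) (node (nat_lit 7) (nat_lit 38343) (nat_lit 21)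
  (node (nat_lit 5) (nat_lit 38564) (nat_lit 22) nil nil) (node (nat_lit 4) (nat_lit 49555)
  (nat_lit 21) (node (nat_lit 7) (nat_lit 48592) (nat_lit 22) nil nil) nil)) (node (nat_lit 7)
  (nat_lit 63888) (nat_lit 20) nil nil)) nil) nil) nil) nil) (node (nat_lit 7) (nat_lit 0)
  (nat_lit 15) (node (nat_lit 4) (nat_lit 90363) (nat_lit 16) (node (nat_lit 7) (nat_lit 91478)
  (nat_lit 17) (node (nat_lit 5) (nat_lit 92304) (nat_lit 18) (node (nat_lit 7) (nat_lit 92910)
  (nat_lit 19) (node (nat_lit 4) (nat_lit 93381) (nat_lit 20) (node (nat_lit 5) (nat_lit 93589)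
  (nat_lit 21) (node (nat_lit 4) (nat_lit 93798) (nat_lit 22) (node (nat_lit 7) (nat_lit 93999)
  (nat_lit 23) (node (nat_lit 5) (nat_lit 94174) (nat_lit 24) nil nil) nil) nil) nil) nil) nil)
  nil) nil) (node (nat_lit 0) (nat_lit 90687) (nat_lit 16) nil (node (nat_lit 5) (nat_lit 89648)
  (nat_lit 16) nil nil))) (node (nat_lit 0) (nat_lit 88510) (nat_lit 15) nil nil))) (node (nat_lit
  0) (nat_lit 87663) (nat_lit 14) nil nil)) (node (nat_lit 5) (nat_lit 0) (nat_lit 13) (node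
  (nat_lit 7) (nat_lit 0) (nat_lit 14) (node (nat_lit 4) (nat_lit 89078) (nat_lit 15) (node
  (nat_lit 5) (nat_lit 90354) (nat_lit 16) (node (nat_lit 4) (nat_lit 91348) (nat_lit 17) (node
  (nat_lit 7) (nat_lit 92340) (nat_lit 18) (node (nat_lit 4) (nat_lit 92531) (nat_lit 19) (node
  (nat_lit 5) (nat_lit 92685) (nat_lit 20) nil nil) (node (nat_lit 5) (nat_lit 92946) (nat_lit 19)
  nil nil)) nil) nil) (node (nat_lit 7) (nat_lit 90354) (nat_lit 16) (node (nat_lit 5) (nat_lit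
  90913) (nat_lit 17) (node (nat_lit 4) (nat_lit 91073) (nat_lit 18) nil nil) nil) nil)) (node
  (nat_lit 0) (nat_lit 88862) (nat_lit 15) nil nil)) (node (nat_lit 0) (nat_lit 88019) (nat_lit
  14) nil nil)) (node (nat_lit 0) (nat_lit 86012) (nat_lit 13) nil nil))) (node (nat_lit 5)
  (nat_lit 81830) (nat_lit 12) (node (nat_lit 7) (nat_lit 84508) (nat_lit 13) (node (nat_lit 4)
  (nat_lit 86602) (nat_lit 14) (node (nat_lit 7) (nat_lit 88232) (nat_lit 15) (node (nat_lit 5)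
  (nat_lit 87879) (nat_lit 16) (node (nat_lit 4) (nat_lit 88084) (nat_lit 17) (node (nat_lit 7)
  (nat_lit 88772) (nat_lit 18) (node (nat_lit 4) (nat_lit 88886) (nat_lit 19) (node (nat_lit 5)
  (nat_lit 88733) (nat_lit 20) (node (nat_lit 4) (nat_lit 88783) (nat_lit 21) (node (nat_lit 7)
  (nat_lit 87819) (nat_lit 22) (node (nat_lit 5) (nat_lit 87233) (nat_lit 23) (node (nat_lit 7)
  (nat_lit 86578) (nat_lit 24) (node (nat_lit 4) (nat_lit 86014) (nat_lit 25) (node (nat_lit 5)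
  (nat_lit 83287) (nat_lit 26) (node (nat_lit 7) (nat_lit 81687) (nat_lit 27) (node (nat_lit 5)
  (nat_lit 76896) (nat_lit 28) (node (nat_lit 4) (nat_lit 70219) (nat_lit 29) (node (nat_lit 5)
  (nat_lit 63196) (nat_lit 30) (node (nat_lit 7) (nat_lit 46546) (nat_lit 31) (node (nat_lit 4)
  (nat_lit 38787) (nat_lit 32) (node (nat_lit 7) (nat_lit 38792) (nat_lit 33) nil nil) nil) nil)
  nil) nil) nil) nil) nil) nil) nil) nil) nil) nil) nil) nil) nil) (node (nat_lit 7) (nat_lit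
  88751) (nat_lit 17) (node (nat_lit 4) (nat_lit 88868) (nat_lit 18) (node (nat_lit 5) (nat_lit
  88673) (nat_lit 19) (node (nat_lit 4) (nat_lit 88763) (nat_lit 20) (node (nat_lit 7) (nat_lit
  87652) (nat_lit 21) nil nil) nil) nil) nil) nil)) nil) (node (nat_lit 5) (nat_lit 87519)
  (nat_lit 15) (node (nat_lit 4) (nat_lit 88436) (nat_lit 16) (node (nat_lit 7) (nat_lit 86799)
  (nat_lit 17) (node (nat_lit 5) (nat_lit 83551) (nat_lit 18) (node (nat_lit 7) (nat_lit 77406)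
  (nat_lit 19) (node (nat_lit 4) (nat_lit 67771) (nat_lit 20) (node (nat_lit 5) (nat_lit 27546)
  (nat_lit 21) (node (nat_lit 7) (nat_lit 26625) (nat_lit 22) (node (nat_lit 5) (nat_lit 26686)
  (nat_lit 23) (node (nat_lit 4) (nat_lit 26764) (nat_lit 24) nil nil) nil) nil) nil) nil) nil)
  nil) nil) nil) nil)) nil) nil) (node (nat_lit 0) (nat_lit 83059) (nat_lit 12) nil nil))) (node
  (nat_lit 0) (nat_lit 78702) (nat_lit 11) nil nil)) (node (nat_lit 0) (nat_lit 73660) (nat_lit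
  10) (node (nat_lit 4) (nat_lit 73500) (nat_lit 11) nil (node (nat_lit 5) (nat_lit 76461)
  (nat_lit 11) nil (node (nat_lit 7) (nat_lit 76637) (nat_lit 11) nil nil))) nil)) (node (nat_lit
  0) (nat_lit 68340) (nat_lit 9) (node (nat_lit 7) (nat_lit 71929) (nat_lit 10) (node (nat_lit 4)
  (nat_lit 75897) (nat_lit 11) (node (nat_lit 5) (nat_lit 77567) (nat_lit 12) nil nil) (node
  (nat_lit 5) (nat_lit 76873) (nat_lit 11) nil nil)) (node (nat_lit 5) (nat_lit 70882) (nat_lit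
  10) (node (nat_lit 4) (nat_lit 75005) (nat_lit 11) nil (node (nat_lit 7) (nat_lit 76001)
  (nat_lit 11) nil nil)) (node (nat_lit 4) (nat_lit 70654) (nat_lit 10) (node (nat_lit 7) (nat_lit
  75599) (nat_lit 11) nil (node (nat_lit 5) (nat_lit 75463) (nat_lit 11) nil nil)) nil))) nil)))
  (node (nat_lit 7) (nat_lit 0) (nat_lit 8) (node (nat_lit 5) (nat_lit 0) (nat_lit 9) (node
  (nat_lit 4) (nat_lit 0) (nat_lit 10) (node (nat_lit 5) (nat_lit 120001) (nat_lit 11) (node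
  (nat_lit 7) (nat_lit 123260) (nat_lit 12) (node (nat_lit 4) (nat_lit 123260) (nat_lit 13) (node
  (nat_lit 7) (nat_lit 123260) (nat_lit 14) (node (nat_lit 5) (nat_lit 123260) (nat_lit 15) (node
  (nat_lit 7) (nat_lit 123260) (nat_lit 16) (node (nat_lit 4) (nat_lit 123260) (nat_lit 17) (node
  (nat_lit 5) (nat_lit 123260) (nat_lit 18) (node (nat_lit 4) (nat_lit 123260) (nat_lit 19) (node
  (nat_lit 7) (nat_lit 123260) (nat_lit 20) (node (nat_lit 5) (nat_lit 123260) (nat_lit 21) (node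
  (nat_lit 7) (nat_lit 123260) (nat_lit 22) (node (nat_lit 4) (nat_lit 123260) (nat_lit 23) (node
  (nat_lit 7) (nat_lit 121593) (nat_lit 24) (node (nat_lit 5) (nat_lit 114118) (nat_lit 25) (node
  (nat_lit 4) (nat_lit 104774) (nat_lit 26) (node (nat_lit 5) (nat_lit 86617) (nat_lit 27) (node
  (nat_lit 7) (nat_lit 60949) (nat_lit 28) (node (nat_lit 4) (nat_lit 48598) (nat_lit 29) nil nil)
  nil) nil) nil) nil) nil) nil) nil) nil) nil) nil) nil) nil) nil) nil) (node (nat_lit 5) (nat_lit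
  123260) (nat_lit 14) (node (nat_lit 4) (nat_lit 123260) (nat_lit 15) (node (nat_lit 7) (nat_lit
  121830) (nat_lit 16) (node (nat_lit 4) (nat_lit 121972) (nat_lit 17) (node (nat_lit 5) (nat_lit
  121751) (nat_lit 18) nil nil) (node (nat_lit 5) (nat_lit 116838) (nat_lit 17) (node (nat_lit 7)
  (nat_lit 104590) (nat_lit 18) (node (nat_lit 4) (nat_lit 89360) (nat_lit 19) (node (nat_lit 7)
  (nat_lit 69320) (nat_lit 20) (node (nat_lit 5) (nat_lit 58382) (nat_lit 21) (node (nat_lit 4)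
  (nat_lit 26514) (nat_lit 22) nil nil) nil) nil) nil) nil) nil)) nil) nil) nil)) (node (nat_lit
  5) (nat_lit 123260) (nat_lit 13) (node (nat_lit 4) (nat_lit 123260) (nat_lit 14) (node (nat_lit
  7) (nat_lit 123260) (nat_lit 15) (node (nat_lit 4) (nat_lit 123260) (nat_lit 16) (node (nat_lit
  5) (nat_lit 123260) (nat_lit 17) (node (nat_lit 4) (nat_lit 123260) (nat_lit 18) (node (nat_lit
  7) (nat_lit 123260) (nat_lit 19) (node (nat_lit 5) (nat_lit 123260) (nat_lit 20) (node (nat_lit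
  7) (nat_lit 120162) (nat_lit 21) (node (nat_lit 4) (nat_lit 116203) (nat_lit 22) (node (nat_lit
  7) (nat_lit 110553) (nat_lit 23) (node (nat_lit 5) (nat_lit 102776) (nat_lit 24) (node (nat_lit
  4) (nat_lit 90419) (nat_lit 25) (node (nat_lit 5) (nat_lit 75649) (nat_lit 26) (node (nat_lit 7)
  (nat_lit 75706) (nat_lit 27) nil nil) nil) nil) nil) nil) nil) nil) nil) nil) nil) nil) (node
  (nat_lit 5) (nat_lit 123260) (nat_lit 16) (node (nat_lit 7) (nat_lit 123260) (nat_lit 17) (node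
  (nat_lit 4) (nat_lit 123260) (nat_lit 18) (node (nat_lit 5) (nat_lit 123260) (nat_lit 19) nil
  nil) nil) nil) nil)) nil) nil) nil)) nil) (node (nat_lit 7) (nat_lit 120544) (nat_lit 11) (node
  (nat_lit 4) (nat_lit 122575) (nat_lit 12) (node (nat_lit 5) (nat_lit 123260) (nat_lit 13) (node
  (nat_lit 7) (nat_lit 123260) (nat_lit 14) (node (nat_lit 5) (nat_lit 123260) (nat_lit 15) (node
  (nat_lit 4) (nat_lit 123260) (nat_lit 16) (node (nat_lit 5) (nat_lit 123260) (nat_lit 17) (node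
  (nat_lit 7) (nat_lit 123260) (nat_lit 18) (node (nat_lit 4) (nat_lit 123260) (nat_lit 19) (node
  (nat_lit 5) (nat_lit 123260) (nat_lit 20) (node (nat_lit 4) (nat_lit 123260) (nat_lit 21) (node
  (nat_lit 7) (nat_lit 123260) (nat_lit 22) nil nil) nil) nil) nil) nil) nil) nil) (node (nat_lit
  4) (nat_lit 123260) (nat_lit 15) (node (nat_lit 7) (nat_lit 123260) (nat_lit 16) (node (nat_lit
  5) (nat_lit 123260) (nat_lit 17) (node (nat_lit 7) (nat_lit 123260) (nat_lit 18) (node (nat_lit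
  4) (nat_lit 123260) (nat_lit 19) (node (nat_lit 5) (nat_lit 123260) (nat_lit 20) (node (nat_lit
  4) (nat_lit 123260) (nat_lit 21) nil nil) nil) nil) nil) nil) nil) nil)) (node (nat_lit 4)
  (nat_lit 110758) (nat_lit 14) (node (nat_lit 7) (nat_lit 104218) (nat_lit 15) (node (nat_lit 5)
  (nat_lit 100876) (nat_lit 16) (node (nat_lit 7) (nat_lit 76219) (nat_lit 17) (node (nat_lit 4)
  (nat_lit 76120) (nat_lit 18) (node (nat_lit 7) (nat_lit 76275) (nat_lit 19) (node (nat_lit 5)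
  (nat_lit 76557) (nat_lit 20) nil nil) (node (nat_lit 5) (nat_lit 76054) (nat_lit 19) nil nil))
  nil) nil) nil) nil) nil)) nil) nil) (node (nat_lit 0) (nat_lit 121496) (nat_lit 11) nil nil)))
  (node (nat_lit 0) (nat_lit 117138) (nat_lit 10) (node (nat_lit 4) (nat_lit 117859) (nat_lit 11)
  (node (nat_lit 7) (nat_lit 119529) (nat_lit 12) nil nil) (node (nat_lit 7) (nat_lit 117859)
  (nat_lit 11) (node (nat_lit 5) (nat_lit 116451) (nat_lit 12) nil nil) (node (nat_lit 5) (nat_lit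
  118682) (nat_lit 11) (node (nat_lit 7) (nat_lit 120352) (nat_lit 12) nil nil) nil))) nil)) (node
  (nat_lit 0) (nat_lit 110917) (nat_lit 9) (node (nat_lit 5) (nat_lit 114360) (nat_lit 10) nil
  (node (nat_lit 4) (nat_lit 112826) (nat_lit 10) nil (node (nat_lit 7) (nat_lit 114511) (nat_lit
  10) nil nil))) nil)) nil)) nil) (node (nat_lit 4) (nat_lit 0) (nat_lit 6) (node (nat_lit 5)
  (nat_lit 0) (nat_lit 7) (node (nat_lit 7) (nat_lit 0) (nat_lit 8) t263 nil) nil) nil)) (node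
  (nat_lit 4) (nat_lit 0) (nat_lit 5) (node (nat_lit 5) (nat_lit 0) (nat_lit 6) (node (nat_lit 7)
  (nat_lit 0) (nat_lit 7) (node (nat_lit 5) (nat_lit 0) (nat_lit 8) (node (nat_lit 4) (nat_lit 0)
  (nat_lit 9) t264 (node (nat_lit 0) (nat_lit 65189) (nat_lit 9) (node (nat_lit 7) (nat_lit 68152)
  (nat_lit 10) nil (node (nat_lit 4) (nat_lit 68389) (nat_lit 10) nil (node (nat_lit 5) (nat_lit
  68389) (nat_lit 10) nil nil))) nil)) (node (nat_lit 4) (nat_lit 0) (nat_lit 8) (node (nat_lit 7)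
  (nat_lit 0) (nat_lit 9) (node (nat_lit 5) (nat_lit 0) (nat_lit 10) (node (nat_lit 4) (nat_lit 0)
  (nat_lit 11) (node (nat_lit 5) (nat_lit 0) (nat_lit 12) (node (nat_lit 7) (nat_lit 0) (nat_lit
  13) (node (nat_lit 5) (nat_lit 81514) (nat_lit 14) (node (nat_lit 4) (nat_lit 83235) (nat_lit
  15) (node (nat_lit 7) (nat_lit 84581) (nat_lit 16) (node (nat_lit 5) (nat_lit 84515) (nat_lit
  17) (node (nat_lit 7) (nat_lit 85026) (nat_lit 18) (node (nat_lit 4) (nat_lit 85021) (nat_lit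
  19) (node (nat_lit 5) (nat_lit 85209) (nat_lit 20) (node (nat_lit 4) (nat_lit 84643) (nat_lit
  21) (node (nat_lit 7) (nat_lit 84016) (nat_lit 22) (node (nat_lit 4) (nat_lit 83470) (nat_lit
  23) nil nil) nil) nil) nil) nil) nil) (node (nat_lit 4) (nat_lit 85628) (nat_lit 17) (node
  (nat_lit 5) (nat_lit 86227) (nat_lit 18) (node (nat_lit 7) (nat_lit 86695) (nat_lit 19) (node
  (nat_lit 4) (nat_lit 86924) (nat_lit 20) (node (nat_lit 7) (nat_lit 87104) (nat_lit 21) nil nil)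
  nil) (node (nat_lit 4) (nat_lit 86695) (nat_lit 19) (node (nat_lit 7) (nat_lit 86813) (nat_lit
  20) nil nil) nil)) nil) nil)) nil) nil) (node (nat_lit 4) (nat_lit 81514) (nat_lit 14) (node
  (nat_lit 5) (nat_lit 83235) (nat_lit 15) (node (nat_lit 4) (nat_lit 84581) (nat_lit 16) (node
  (nat_lit 7) (nat_lit 85628) (nat_lit 17) (node (nat_lit 4) (nat_lit 85564) (nat_lit 18) (node
  (nat_lit 5) (nat_lit 80389) (nat_lit 19) (node (nat_lit 7) (nat_lit 69814) (nat_lit 20) (node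
  (nat_lit 4) (nat_lit 44109) (nat_lit 21) (node (nat_lit 7) (nat_lit 38486) (nat_lit 22) (node
  (nat_lit 5) (nat_lit 22125) (nat_lit 23) nil nil) nil) nil) nil) nil) nil) nil) nil) nil) (node
  (nat_lit 0) (nat_lit 81717) (nat_lit 14) nil nil))) (node (nat_lit 0) (nat_lit 79430) (nat_lit
  13) nil nil)) (node (nat_lit 7) (nat_lit 0) (nat_lit 12) (node (nat_lit 4) (nat_lit 0) (nat_lit
  13) (node (nat_lit 5) (nat_lit 81946) (nat_lit 14) (node (nat_lit 7) (nat_lit 83667) (nat_lit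
  15) (node (nat_lit 5) (nat_lit 84650) (nat_lit 16) (node (nat_lit 4) (nat_lit 84903) (nat_lit
  17) (node (nat_lit 7) (nat_lit 85100) (nat_lit 18) (node (nat_lit 5) (nat_lit 84887) (nat_lit
  19) nil nil) (node (nat_lit 5) (nat_lit 84631) (nat_lit 18) nil nil)) nil) nil) (node (nat_lit
  4) (nat_lit 83667) (nat_lit 15) (node (nat_lit 7) (nat_lit 85012) (nat_lit 16) (node (nat_lit 5)
  (nat_lit 85777) (nat_lit 17) (node (nat_lit 4) (nat_lit 86155) (nat_lit 18) nil (node (nat_lit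
  7) (nat_lit 85455) (nat_lit 18) nil nil)) nil) nil) nil)) (node (nat_lit 0) (nat_lit 82149)
  (nat_lit 14) nil nil)) (node (nat_lit 0) (nat_lit 79342) (nat_lit 13) (node (nat_lit 5) (nat_lit
  79939) (nat_lit 14) nil (node (nat_lit 4) (nat_lit 78851) (nat_lit 14) nil (node (nat_lit 7)
  (nat_lit 79342) (nat_lit 14) nil nil))) nil)) (node (nat_lit 0) (nat_lit 76105) (nat_lit 12)
  (node (nat_lit 5) (nat_lit 76870) (nat_lit 13) nil (node (nat_lit 7) (nat_lit 77164) (nat_lit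
  13) nil (node (nat_lit 4) (nat_lit 76105) (nat_lit 13) nil nil))) nil))) (node (nat_lit 7)
  (nat_lit 0) (nat_lit 11) (node (nat_lit 4) (nat_lit 76661) (nat_lit 12) (node (nat_lit 5)
  (nat_lit 79488) (nat_lit 13) (node (nat_lit 4) (nat_lit 81695) (nat_lit 14) (node (nat_lit 7)
  (nat_lit 82249) (nat_lit 15) (node (nat_lit 5) (nat_lit 82162) (nat_lit 16) (node (nat_lit 4)
  (nat_lit 82414) (nat_lit 17) (node (nat_lit 5) (nat_lit 82877) (nat_lit 18) (node (nat_lit 7)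
  (nat_lit 83282) (nat_lit 19) (node (nat_lit 4) (nat_lit 83285) (nat_lit 20) (node (nat_lit 5)
  (nat_lit 83450) (nat_lit 21) (node (nat_lit 4) (nat_lit 83013) (nat_lit 22) nil nil) nil) nil)
  nil) nil) nil) (node (nat_lit 4) (nat_lit 75182) (nat_lit 16) (node (nat_lit 5) (nat_lit 68007)
  (nat_lit 17) (node (nat_lit 7) (nat_lit 38692) (nat_lit 18) (node (nat_lit 4) (nat_lit 24319)
  (nat_lit 19) nil nil) nil) nil) nil)) nil) (node (nat_lit 7) (nat_lit 81104) (nat_lit 14) (node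
  (nat_lit 5) (nat_lit 81897) (nat_lit 15) nil nil) nil)) nil) (node (nat_lit 0) (nat_lit 76995)
  (nat_lit 12) nil nil)) (node (nat_lit 0) (nat_lit 72686) (nat_lit 11) (node (nat_lit 5) (nat_lit
  73639) (nat_lit 12) (node (nat_lit 4) (nat_lit 72553) (nat_lit 13) nil (node (nat_lit 7)
  (nat_lit 74942) (nat_lit 13) nil nil)) (node (nat_lit 7) (nat_lit 74298) (nat_lit 12) (node
  (nat_lit 5) (nat_lit 73978) (nat_lit 13) nil (node (nat_lit 4) (nat_lit 76367) (nat_lit 13) nil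
  nil)) (node (nat_lit 4) (nat_lit 74235) (nat_lit 12) (node (nat_lit 5) (nat_lit 73915) (nat_lit
  13) nil (node (nat_lit 7) (nat_lit 74892) (nat_lit 13) nil nil)) nil))) nil))) (node (nat_lit 0)
  (nat_lit 70760) (nat_lit 10) (node (nat_lit 5) (nat_lit 73262) (nat_lit 11) (node (nat_lit 4)
  (nat_lit 74058) (nat_lit 12) (node (nat_lit 5) (nat_lit 72972) (nat_lit 13) nil nil) (node
  (nat_lit 7) (nat_lit 75911) (nat_lit 12) nil nil)) (node (nat_lit 4) (nat_lit 73262) (nat_lit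
  11) (node (nat_lit 7) (nat_lit 74932) (nat_lit 12) nil (node (nat_lit 5) (nat_lit 71854)
  (nat_lit 12) nil nil)) (node (nat_lit 7) (nat_lit 73330) (nat_lit 11) (node (nat_lit 5) (nat_lit
  72902) (nat_lit 12) nil (node (nat_lit 4) (nat_lit 75980) (nat_lit 12) nil nil)) nil))) nil))
  (node (nat_lit 0) (nat_lit 65109) (nat_lit 9) (node (nat_lit 5) (nat_lit 67808) (nat_lit 10)
  (node (nat_lit 7) (nat_lit 71206) (nat_lit 11) (node (nat_lit 4) (nat_lit 72876) (nat_lit 12)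
  nil nil) (node (nat_lit 4) (nat_lit 72451) (nat_lit 11) (node (nat_lit 7) (nat_lit 70321)
  (nat_lit 12) nil nil) nil)) (node (nat_lit 4) (nat_lit 68176) (nat_lit 10) (node (nat_lit 7)
  (nat_lit 72819) (nat_lit 11) nil (node (nat_lit 5) (nat_lit 72819) (nat_lit 11) nil nil)) (node
  (nat_lit 7) (nat_lit 68194) (nat_lit 10) (node (nat_lit 5) (nat_lit 70631) (nat_lit 11) nil
  (node (nat_lit 4) (nat_lit 71592) (nat_lit 11) nil nil)) nil))) nil)) nil)) nil) nil) nil))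

noncomputable def c84 : Tr :=
  (node (nat_lit 3) (nat_lit 0) (nat_lit 1) (node (nat_lit 3) (nat_lit 0) (nat_lit 2) (node
  (nat_lit 3) (nat_lit 0) (nat_lit 3) t262 (node (nat_lit 4) (nat_lit 0) (nat_lit 3) (node
  (nat_lit 3) (nat_lit 0) (nat_lit 4) t265 nil) nil)) nil) nil)

noncomputable def t266 : Tr :=
  (node (nat_lit 5) (nat_lit 0) (nat_lit 8) (node (nat_lit 4) (nat_lit 0) (nat_lit 9) (node
  (nat_lit 5) (nat_lit 0) (nat_lit 10) (node (nat_lit 6) (nat_lit 0) (nat_lit 11) (node (nat_lit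
  4) (nat_lit 0) (nat_lit 12) (node (nat_lit 5) (nat_lit 0) (nat_lit 13) (node (nat_lit 0)
  (nat_lit 15670) (nat_lit 14) (node (nat_lit 5) (nat_lit 15803) (nat_lit 15) (node (nat_lit 6)
  (nat_lit 16276) (nat_lit 16) (node (nat_lit 4) (nat_lit 16738) (nat_lit 17) nil (node (nat_lit
  5) (nat_lit 16595) (nat_lit 17) nil nil)) (node (nat_lit 4) (nat_lit 16246) (nat_lit 16) (node
  (nat_lit 6) (nat_lit 16934) (nat_lit 17) nil (node (nat_lit 5) (nat_lit 16564) (nat_lit 17) nil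
  nil)) nil)) (node (nat_lit 4) (nat_lit 15947) (nat_lit 15) (node (nat_lit 5) (nat_lit 16485)
  (nat_lit 16) (node (nat_lit 4) (nat_lit 16804) (nat_lit 17) nil (node (nat_lit 6) (nat_lit
  16190) (nat_lit 17) nil nil)) (node (nat_lit 6) (nat_lit 16269) (nat_lit 16) nil nil)) (node
  (nat_lit 6) (nat_lit 16062) (nat_lit 15) (node (nat_lit 4) (nat_lit 16246) (nat_lit 16) (node
  (nat_lit 5) (nat_lit 16564) (nat_lit 17) nil (node (nat_lit 6) (nat_lit 15950) (nat_lit 17) nil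
  nil)) (node (nat_lit 5) (nat_lit 16384) (nat_lit 16) (node (nat_lit 6) (nat_lit 16702) (nat_lit
  17) nil nil) nil)) (node (nat_lit 0) (nat_lit 15988) (nat_lit 15) nil nil)))) nil) (node
  (nat_lit 6) (nat_lit 0) (nat_lit 13) (node (nat_lit 5) (nat_lit 0) (nat_lit 14) (node (nat_lit
  6) (nat_lit 0) (nat_lit 15) (node (nat_lit 4) (nat_lit 53877) (nat_lit 16) (node (nat_lit 5)
  (nat_lit 54644) (nat_lit 17) (node (nat_lit 4) (nat_lit 55204) (nat_lit 18) (node (nat_lit 6)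
  (nat_lit 55640) (nat_lit 19) (node (nat_lit 5) (nat_lit 55230) (nat_lit 20) nil (node (nat_lit
  4) (nat_lit 55912) (nat_lit 20) (node (nat_lit 5) (nat_lit 56030) (nat_lit 21) nil nil) nil))
  nil) (node (nat_lit 6) (nat_lit 55204) (nat_lit 18) (node (nat_lit 5) (nat_lit 55640) (nat_lit
  19) (node (nat_lit 4) (nat_lit 55983) (nat_lit 20) nil nil) nil) nil)) nil) (node (nat_lit 0)
  (nat_lit 53932) (nat_lit 16) nil nil)) (node (nat_lit 4) (nat_lit 0) (nat_lit 15) (node (nat_lit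
  6) (nat_lit 53877) (nat_lit 16) (node (nat_lit 4) (nat_lit 54595) (nat_lit 17) (node (nat_lit 5)
  (nat_lit 54946) (nat_lit 18) (node (nat_lit 4) (nat_lit 55326) (nat_lit 19) (node (nat_lit 6)
  (nat_lit 55644) (nat_lit 20) (node (nat_lit 5) (nat_lit 55761) (nat_lit 21) (node (nat_lit 4)
  (nat_lit 55844) (nat_lit 22) (node (nat_lit 5) (nat_lit 55854) (nat_lit 23) (node (nat_lit 6)
  (nat_lit 55852) (nat_lit 24) (node (nat_lit 4) (nat_lit 55498) (nat_lit 25) (node (nat_lit 5)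
  (nat_lit 55168) (nat_lit 26) nil nil) nil) nil) nil) (node (nat_lit 6) (nat_lit 55852) (nat_lit
  22) nil nil)) nil) nil) (node (nat_lit 6) (nat_lit 54768) (nat_lit 19) nil nil)) nil) nil) (node
  (nat_lit 5) (nat_lit 0) (nat_lit 16) (node (nat_lit 0) (nat_lit 54482) (nat_lit 17) nil nil)
  (node (nat_lit 0) (nat_lit 53932) (nat_lit 16) nil nil))) (node (nat_lit 0) (nat_lit 54006)
  (nat_lit 15) nil nil))) (node (nat_lit 0) (nat_lit 52962) (nat_lit 14) (node (nat_lit 4)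
  (nat_lit 52962) (nat_lit 15) nil (node (nat_lit 6) (nat_lit 52962) (nat_lit 15) nil (node
  (nat_lit 5) (nat_lit 52962) (nat_lit 15) nil nil))) nil)) (node (nat_lit 0) (nat_lit 51831)
  (nat_lit 13) (node (nat_lit 5) (nat_lit 52303) (nat_lit 14) (node (nat_lit 4) (nat_lit 52245)
  (nat_lit 15) (node (nat_lit 5) (nat_lit 52652) (nat_lit 16) nil nil) (node (nat_lit 6) (nat_lit
  52521) (nat_lit 15) (node (nat_lit 4) (nat_lit 52928) (nat_lit 16) nil (node (nat_lit 5)
  (nat_lit 52928) (nat_lit 16) nil nil)) nil)) (node (nat_lit 6) (nat_lit 52142) (nat_lit 14)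
  (node (nat_lit 4) (nat_lit 52084) (nat_lit 15) (node (nat_lit 6) (nat_lit 51694) (nat_lit 16)
  nil (node (nat_lit 5) (nat_lit 52490) (nat_lit 16) nil nil)) (node (nat_lit 5) (nat_lit 52798)
  (nat_lit 15) (node (nat_lit 6) (nat_lit 53205) (nat_lit 16) nil nil) nil)) (node (nat_lit 4)
  (nat_lit 52142) (nat_lit 14) (node (nat_lit 5) (nat_lit 52360) (nat_lit 15) (node (nat_lit 6)
  (nat_lit 51970) (nat_lit 16) nil (node (nat_lit 4) (nat_lit 52767) (nat_lit 16) nil nil)) (node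
  (nat_lit 6) (nat_lit 52556) (nat_lit 15) nil nil)) nil))) nil))) (node (nat_lit 5) (nat_lit 0)
  (nat_lit 12) (node (nat_lit 4) (nat_lit 0) (nat_lit 13) (node (nat_lit 6) (nat_lit 0) (nat_lit
  14) (node (nat_lit 4) (nat_lit 58057) (nat_lit 15) (node (nat_lit 5) (nat_lit 59209) (nat_lit
  16) (node (nat_lit 6) (nat_lit 60204) (nat_lit 17) (node (nat_lit 4) (nat_lit 60451) (nat_lit
  18) nil (node (nat_lit 5) (nat_lit 59914) (nat_lit 18) (node (nat_lit 4) (nat_lit 59989)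
  (nat_lit 19) (node (nat_lit 5) (nat_lit 59964) (nat_lit 20) (node (nat_lit 6) (nat_lit 59987)
  (nat_lit 21) (node (nat_lit 4) (nat_lit 59367) (nat_lit 22) (node (nat_lit 5) (nat_lit 58912)
  (nat_lit 23) (node (nat_lit 4) (nat_lit 58413) (nat_lit 24) (node (nat_lit 6) (nat_lit 57731)
  (nat_lit 25) (node (nat_lit 5) (nat_lit 55328) (nat_lit 26) (node (nat_lit 4) (nat_lit 53247)
  (nat_lit 27) (node (nat_lit 5) (nat_lit 48233) (nat_lit 28) (node (nat_lit 6) (nat_lit 42910)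
  (nat_lit 29) (node (nat_lit 5) (nat_lit 42797) (nat_lit 30) (node (nat_lit 4) (nat_lit 30821)
  (nat_lit 31) (node (nat_lit 6) (nat_lit 30839) (nat_lit 32) nil nil) nil) nil) nil) nil) nil)
  nil) nil) nil) nil) nil) nil) nil) nil) nil)) (node (nat_lit 4) (nat_lit 0) (nat_lit 17) (node
  (nat_lit 6) (nat_lit 60939) (nat_lit 18) (node (nat_lit 5) (nat_lit 0) (nat_lit 19) (node
  (nat_lit 6) (nat_lit 0) (nat_lit 20) (node (nat_lit 4) (nat_lit 62182) (nat_lit 21) (node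
  (nat_lit 5) (nat_lit 62400) (nat_lit 22) (node (nat_lit 6) (nat_lit 62334) (nat_lit 23) nil
  (node (nat_lit 4) (nat_lit 62472) (nat_lit 23) nil nil)) (node (nat_lit 6) (nat_lit 62246)
  (nat_lit 22) (node (nat_lit 5) (nat_lit 62344) (nat_lit 23) (node (nat_lit 4) (nat_lit 62377)
  (nat_lit 24) (node (nat_lit 5) (nat_lit 62382) (nat_lit 25) (node (nat_lit 6) (nat_lit 62393)
  (nat_lit 26) nil nil) nil) nil) nil) nil)) (node (nat_lit 0) (nat_lit 62199) (nat_lit 21) nil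
  nil)) (node (nat_lit 4) (nat_lit 61809) (nat_lit 20) (node (nat_lit 5) (nat_lit 62043) (nat_lit
  21) (node (nat_lit 6) (nat_lit 62263) (nat_lit 22) (node (nat_lit 4) (nat_lit 62450) (nat_lit
  23) (node (nat_lit 5) (nat_lit 62608) (nat_lit 24) (node (nat_lit 4) (nat_lit 62732) (nat_lit
  25) (node (nat_lit 6) (nat_lit 62828) (nat_lit 26) nil nil) nil) nil) nil) nil) nil) (node
  (nat_lit 0) (nat_lit 61848) (nat_lit 20) nil nil))) nil) (node (nat_lit 0) (nat_lit 60719)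
  (nat_lit 18) nil nil)) nil)) nil) (node (nat_lit 5) (nat_lit 0) (nat_lit 15) (node (nat_lit 6)
  (nat_lit 58875) (nat_lit 16) (node (nat_lit 4) (nat_lit 59051) (nat_lit 17) (node (nat_lit 5)
  (nat_lit 59299) (nat_lit 18) nil (node (nat_lit 6) (nat_lit 58823) (nat_lit 18) nil nil)) nil)
  (node (nat_lit 0) (nat_lit 59005) (nat_lit 16) nil nil)) (node (nat_lit 0) (nat_lit 58535)
  (nat_lit 15) nil nil))) (node (nat_lit 0) (nat_lit 57002) (nat_lit 14) nil nil)) (node (nat_lit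
  0) (nat_lit 55734) (nat_lit 13) (node (nat_lit 5) (nat_lit 55734) (nat_lit 14) nil nil) nil))
  (node (nat_lit 0) (nat_lit 53906) (nat_lit 12) (node (nat_lit 5) (nat_lit 54634) (nat_lit 13)
  (node (nat_lit 6) (nat_lit 55346) (nat_lit 14) (node (nat_lit 5) (nat_lit 55868) (nat_lit 15)
  nil (node (nat_lit 4) (nat_lit 55868) (nat_lit 15) nil nil)) (node (nat_lit 4) (nat_lit 54316)
  (nat_lit 14) (node (nat_lit 6) (nat_lit 53793) (nat_lit 15) nil nil) nil)) (node (nat_lit 4)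
  (nat_lit 54968) (nat_lit 13) (node (nat_lit 5) (nat_lit 54563) (nat_lit 14) (node (nat_lit 6)
  (nat_lit 54040) (nat_lit 15) nil (node (nat_lit 4) (nat_lit 55086) (nat_lit 15) nil nil)) (node
  (nat_lit 6) (nat_lit 56054) (nat_lit 14) (node (nat_lit 4) (nat_lit 56576) (nat_lit 15) nil
  (node (nat_lit 5) (nat_lit 56576) (nat_lit 15) nil nil)) nil)) (node (nat_lit 6) (nat_lit 55024)
  (nat_lit 13) (node (nat_lit 5) (nat_lit 56111) (nat_lit 14) (node (nat_lit 4) (nat_lit 56633)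
  (nat_lit 15) nil nil) (node (nat_lit 4) (nat_lit 55530) (nat_lit 14) (node (nat_lit 5) (nat_lit
  56052) (nat_lit 15) nil (node (nat_lit 6) (nat_lit 55006) (nat_lit 15) nil nil)) nil)) (node
  (nat_lit 0) (nat_lit 54428) (nat_lit 13) nil nil)))) nil))) (node (nat_lit 0) (nat_lit 77049)
  (nat_lit 11) (node (nat_lit 4) (nat_lit 77049) (nat_lit 12) nil (node (nat_lit 6) (nat_lit
  77049) (nat_lit 12) nil nil)) nil)) (node (nat_lit 0) (nat_lit 75655) (nat_lit 10) (node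
  (nat_lit 5) (nat_lit 75595) (nat_lit 11) nil (node (nat_lit 6) (nat_lit 75595) (nat_lit 11) nil
  (node (nat_lit 4) (nat_lit 77101) (nat_lit 11) nil nil))) nil)) (node (nat_lit 6) (nat_lit 0)
  (nat_lit 9) (node (nat_lit 4) (nat_lit 0) (nat_lit 10) (node (nat_lit 6) (nat_lit 0) (nat_lit
  11) (node (nat_lit 5) (nat_lit 0) (nat_lit 12) (node (nat_lit 4) (nat_lit 79119) (nat_lit 13)
  (node (nat_lit 5) (nat_lit 79787) (nat_lit 14) (node (nat_lit 6) (nat_lit 80310) (nat_lit 15)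
  (node (nat_lit 4) (nat_lit 80716) (nat_lit 16) (node (nat_lit 5) (nat_lit 80857) (nat_lit 17)
  (node (nat_lit 4) (nat_lit 74153) (nat_lit 18) (node (nat_lit 6) (nat_lit 57603) (nat_lit 19)
  (node (nat_lit 5) (nat_lit 18173) (nat_lit 20) (node (nat_lit 4) (nat_lit 18344) (nat_lit 21)
  (node (nat_lit 5) (nat_lit 18501) (nat_lit 22) (node (nat_lit 6) (nat_lit 18644) (nat_lit 23)
  nil nil) nil) nil) nil) nil) nil) nil) (node (nat_lit 5) (nat_lit 80716) (nat_lit 16) (node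
  (nat_lit 4) (nat_lit 80857) (nat_lit 17) nil nil) nil)) nil) (node (nat_lit 6) (nat_lit 79787)
  (nat_lit 14) (node (nat_lit 4) (nat_lit 80310) (nat_lit 15) (node (nat_lit 5) (nat_lit 80716)
  (nat_lit 16) nil nil) nil) nil)) (node (nat_lit 0) (nat_lit 80310) (nat_lit 13) nil nil)) (node
  (nat_lit 0) (nat_lit 79787) (nat_lit 12) nil nil)) (node (nat_lit 5) (nat_lit 0) (nat_lit 11)
  (node (nat_lit 6) (nat_lit 0) (nat_lit 12) (node (nat_lit 5) (nat_lit 0) (nat_lit 13) (node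
  (nat_lit 4) (nat_lit 79787) (nat_lit 14) (node (nat_lit 6) (nat_lit 80310) (nat_lit 15) (node
  (nat_lit 4) (nat_lit 80716) (nat_lit 16) (node (nat_lit 5) (nat_lit 80857) (nat_lit 17) (node
  (nat_lit 4) (nat_lit 80857) (nat_lit 18) nil nil) nil) (node (nat_lit 5) (nat_lit 80716)
  (nat_lit 16) nil nil)) (node (nat_lit 5) (nat_lit 80310) (nat_lit 15) (node (nat_lit 6) (nat_lit
  80716) (nat_lit 16) (node (nat_lit 4) (nat_lit 80857) (nat_lit 17) (node (nat_lit 5) (nat_lit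
  80857) (nat_lit 18) (node (nat_lit 4) (nat_lit 67478) (nat_lit 19) (node (nat_lit 6) (nat_lit
  66037) (nat_lit 20) (node (nat_lit 5) (nat_lit 51104) (nat_lit 21) (node (nat_lit 6) (nat_lit
  50779) (nat_lit 22) (node (nat_lit 4) (nat_lit 50921) (nat_lit 23) nil nil) nil) nil) nil) nil)
  (node (nat_lit 6) (nat_lit 80806) (nat_lit 18) nil nil)) nil) nil) nil)) (node (nat_lit 0)
  (nat_lit 80716) (nat_lit 14) nil nil)) (node (nat_lit 0) (nat_lit 80310) (nat_lit 13) nil nil))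
  (node (nat_lit 0) (nat_lit 79787) (nat_lit 12) nil (node (nat_lit 4) (nat_lit 0) (nat_lit 12)
  (node (nat_lit 0) (nat_lit 80310) (nat_lit 13) nil nil) nil))) (node (nat_lit 0) (nat_lit 79119)
  (nat_lit 11) (node (nat_lit 5) (nat_lit 79119) (nat_lit 12) nil (node (nat_lit 6) (nat_lit
  79119) (nat_lit 12) nil nil)) nil))) (node (nat_lit 0) (nat_lit 76704) (nat_lit 10) (node
  (nat_lit 5) (nat_lit 77227) (nat_lit 11) (node (nat_lit 6) (nat_lit 78261) (nat_lit 12) nil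
  (node (nat_lit 4) (nat_lit 76503) (nat_lit 12) nil nil)) (node (nat_lit 4) (nat_lit 76181)
  (nat_lit 11) (node (nat_lit 5) (nat_lit 75457) (nat_lit 12) nil (node (nat_lit 6) (nat_lit
  77050) (nat_lit 12) nil nil)) (node (nat_lit 6) (nat_lit 77227) (nat_lit 11) (node (nat_lit 4)
  (nat_lit 77707) (nat_lit 12) nil nil) nil))) nil)) (node (nat_lit 0) (nat_lit 73081) (nat_lit 9)
  (node (nat_lit 6) (nat_lit 74228) (nat_lit 10) (node (nat_lit 5) (nat_lit 75865) (nat_lit 11)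
  nil (node (nat_lit 4) (nat_lit 74819) (nat_lit 11) (node (nat_lit 5) (nat_lit 75918) (nat_lit
  12) nil nil) nil)) (node (nat_lit 4) (nat_lit 74110) (nat_lit 10) (node (nat_lit 5) (nat_lit
  75555) (nat_lit 11) nil (node (nat_lit 6) (nat_lit 75747) (nat_lit 11) (node (nat_lit 5)
  (nat_lit 76846) (nat_lit 12) nil nil) nil)) (node (nat_lit 5) (nat_lit 73369) (nat_lit 10) (node
  (nat_lit 6) (nat_lit 75005) (nat_lit 11) (node (nat_lit 4) (nat_lit 76104) (nat_lit 12) nil nil)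
  (node (nat_lit 4) (nat_lit 75275) (nat_lit 11) (node (nat_lit 6) (nat_lit 74180) (nat_lit 12)
  nil nil) nil)) nil))) nil))) (node (nat_lit 4) (nat_lit 0) (nat_lit 8) (node (nat_lit 5)
  (nat_lit 0) (nat_lit 9) (node (nat_lit 6) (nat_lit 0) (nat_lit 10) (node (nat_lit 5) (nat_lit 0)
  (nat_lit 11) (node (nat_lit 4) (nat_lit 0) (nat_lit 12) (node (nat_lit 6) (nat_lit 0) (nat_lit
  13) (node (nat_lit 4) (nat_lit 0) (nat_lit 14) (node (nat_lit 5) (nat_lit 0) (nat_lit 15) (node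
  (nat_lit 4) (nat_lit 0) (nat_lit 16) (node (nat_lit 6) (nat_lit 80857) (nat_lit 17) (node
  (nat_lit 5) (nat_lit 80857) (nat_lit 18) (node (nat_lit 6) (nat_lit 80857) (nat_lit 19) (node
  (nat_lit 4) (nat_lit 80857) (nat_lit 20) (node (nat_lit 6) (nat_lit 80857) (nat_lit 21) (node
  (nat_lit 5) (nat_lit 80857) (nat_lit 22) (node (nat_lit 4) (nat_lit 80857) (nat_lit 23) (node
  (nat_lit 5) (nat_lit 80857) (nat_lit 24) (node (nat_lit 6) (nat_lit 80857) (nat_lit 25) nil nil)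
  nil) nil) nil) nil) nil) (node (nat_lit 4) (nat_lit 80857) (nat_lit 19) (node (nat_lit 5)
  (nat_lit 80857) (nat_lit 20) (node (nat_lit 6) (nat_lit 80857) (nat_lit 21) (node (nat_lit 4)
  (nat_lit 80857) (nat_lit 22) (node (nat_lit 5) (nat_lit 80857) (nat_lit 23) (node (nat_lit 4)
  (nat_lit 80857) (nat_lit 24) (node (nat_lit 6) (nat_lit 80857) (nat_lit 25) (node (nat_lit 4)
  (nat_lit 80857) (nat_lit 26) (node (nat_lit 5) (nat_lit 80857) (nat_lit 27) (node (nat_lit 6)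
  (nat_lit 80857) (nat_lit 28) (node (nat_lit 5) (nat_lit 75449) (nat_lit 29) (node (nat_lit 4)
  (nat_lit 63490) (nat_lit 30) (node (nat_lit 6) (nat_lit 50005) (nat_lit 31) (node (nat_lit 4)
  (nat_lit 30079) (nat_lit 32) (node (nat_lit 5) (nat_lit 17932) (nat_lit 33) nil nil) nil) nil)
  nil) nil) nil) nil) nil) nil) nil) nil) nil) nil) nil) nil)) nil) (node (nat_lit 0) (nat_lit
  80857) (nat_lit 17) nil nil)) (node (nat_lit 0) (nat_lit 80857) (nat_lit 16) nil nil)) (node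
  (nat_lit 0) (nat_lit 80857) (nat_lit 15) nil nil)) (node (nat_lit 5) (nat_lit 0) (nat_lit 14)
  (node (nat_lit 6) (nat_lit 0) (nat_lit 15) (node (nat_lit 4) (nat_lit 80716) (nat_lit 16) (node
  (nat_lit 6) (nat_lit 80857) (nat_lit 17) (node (nat_lit 5) (nat_lit 80857) (nat_lit 18) (node
  (nat_lit 4) (nat_lit 80857) (nat_lit 19) (node (nat_lit 5) (nat_lit 80857) (nat_lit 20) (node
  (nat_lit 6) (nat_lit 80857) (nat_lit 21) (node (nat_lit 4) (nat_lit 80857) (nat_lit 22) (node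
  (nat_lit 5) (nat_lit 80857) (nat_lit 23) (node (nat_lit 4) (nat_lit 80857) (nat_lit 24) (node
  (nat_lit 6) (nat_lit 80857) (nat_lit 25) (node (nat_lit 4) (nat_lit 80857) (nat_lit 26) (node
  (nat_lit 5) (nat_lit 80857) (nat_lit 27) (node (nat_lit 6) (nat_lit 80857) (nat_lit 28) (node
  (nat_lit 5) (nat_lit 80857) (nat_lit 29) (node (nat_lit 4) (nat_lit 69677) (nat_lit 30) (node
  (nat_lit 6) (nat_lit 52553) (nat_lit 31) (node (nat_lit 5) (nat_lit 40988) (nat_lit 32) (node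
  (nat_lit 6) (nat_lit 18366) (nat_lit 33) nil nil) nil) nil) nil) nil) nil) nil) nil) nil) nil)
  nil) nil) nil) nil) nil) nil) (node (nat_lit 5) (nat_lit 80857) (nat_lit 17) (node (nat_lit 4)
  (nat_lit 80857) (nat_lit 18) (node (nat_lit 6) (nat_lit 80857) (nat_lit 19) (node (nat_lit 5)
  (nat_lit 80857) (nat_lit 20) nil nil) nil) (node (nat_lit 6) (nat_lit 80857) (nat_lit 18) (node
  (nat_lit 5) (nat_lit 80857) (nat_lit 19) (node (nat_lit 4) (nat_lit 80857) (nat_lit 20) nil nil)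
  nil) nil)) nil)) (node (nat_lit 0) (nat_lit 80857) (nat_lit 16) nil nil)) (node (nat_lit 0)
  (nat_lit 80857) (nat_lit 15) nil nil)) (node (nat_lit 0) (nat_lit 80716) (nat_lit 14) nil nil)))
  (node (nat_lit 5) (nat_lit 0) (nat_lit 13) (node (nat_lit 6) (nat_lit 0) (nat_lit 14) (node
  (nat_lit 4) (nat_lit 79325) (nat_lit 15) (node (nat_lit 6) (nat_lit 79598) (nat_lit 16) (node
  (nat_lit 5) (nat_lit 79994) (nat_lit 17) (node (nat_lit 6) (nat_lit 80242) (nat_lit 18) nil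
  (node (nat_lit 4) (nat_lit 80091) (nat_lit 18) (node (nat_lit 6) (nat_lit 80285) (nat_lit 19)
  nil nil) nil)) nil) (node (nat_lit 5) (nat_lit 0) (nat_lit 16) (node (nat_lit 4) (nat_lit 0)
  (nat_lit 17) (node (nat_lit 6) (nat_lit 53844) (nat_lit 18) (node (nat_lit 5) (nat_lit 54030)
  (nat_lit 19) (node (nat_lit 6) (nat_lit 54302) (nat_lit 20) nil (node (nat_lit 4) (nat_lit
  54156) (nat_lit 20) (node (nat_lit 5) (nat_lit 54145) (nat_lit 21) nil nil) nil)) (node (nat_lit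
  4) (nat_lit 54280) (nat_lit 19) nil nil)) (node (nat_lit 0) (nat_lit 54352) (nat_lit 18) nil
  nil)) (node (nat_lit 0) (nat_lit 59619) (nat_lit 17) nil nil)) nil)) (node (nat_lit 0) (nat_lit
  80857) (nat_lit 15) nil nil)) (node (nat_lit 0) (nat_lit 80716) (nat_lit 14) nil nil)) (node
  (nat_lit 0) (nat_lit 80310) (nat_lit 13) (node (nat_lit 6) (nat_lit 80310) (nat_lit 14) nil
  (node (nat_lit 4) (nat_lit 80310) (nat_lit 14) (node (nat_lit 5) (nat_lit 80310) (nat_lit 15)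
  nil (node (nat_lit 6) (nat_lit 80310) (nat_lit 15) nil nil)) (node (nat_lit 5) (nat_lit 80310)
  (nat_lit 14) nil nil))) nil))) (node (nat_lit 0) (nat_lit 79787) (nat_lit 12) (node (nat_lit 5)
  (nat_lit 79787) (nat_lit 13) nil nil) nil)) (node (nat_lit 4) (nat_lit 0) (nat_lit 11) (node
  (nat_lit 6) (nat_lit 0) (nat_lit 12) (node (nat_lit 5) (nat_lit 0) (nat_lit 13) (node (nat_lit
  4) (nat_lit 79787) (nat_lit 14) (node (nat_lit 6) (nat_lit 80310) (nat_lit 15) (node (nat_lit 4)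
  (nat_lit 80716) (nat_lit 16) (node (nat_lit 5) (nat_lit 80857) (nat_lit 17) (node (nat_lit 6)
  (nat_lit 80806) (nat_lit 18) nil nil) nil) nil) (node (nat_lit 5) (nat_lit 80310) (nat_lit 15)
  (node (nat_lit 6) (nat_lit 80716) (nat_lit 16) (node (nat_lit 4) (nat_lit 80857) (nat_lit 17)
  (node (nat_lit 5) (nat_lit 80857) (nat_lit 18) (node (nat_lit 4) (nat_lit 80857) (nat_lit 19)
  (node (nat_lit 6) (nat_lit 73667) (nat_lit 20) (node (nat_lit 4) (nat_lit 39387) (nat_lit 21)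
  (node (nat_lit 5) (nat_lit 17734) (nat_lit 22) (node (nat_lit 6) (nat_lit 17878) (nat_lit 23)
  nil nil) nil) nil) nil) nil) nil) (node (nat_lit 5) (nat_lit 80857) (nat_lit 17) (node (nat_lit
  4) (nat_lit 80857) (nat_lit 18) nil nil) nil)) nil) nil)) (node (nat_lit 6) (nat_lit 79787)
  (nat_lit 14) (node (nat_lit 4) (nat_lit 80310) (nat_lit 15) (node (nat_lit 5) (nat_lit 80716)
  (nat_lit 16) (node (nat_lit 4) (nat_lit 80857) (nat_lit 17) nil (node (nat_lit 6) (nat_lit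
  80857) (nat_lit 17) (node (nat_lit 5) (nat_lit 80857) (nat_lit 18) (node (nat_lit 4) (nat_lit
  80857) (nat_lit 19) nil nil) nil) nil)) nil) nil) (node (nat_lit 0) (nat_lit 80716) (nat_lit 14)
  nil nil))) (node (nat_lit 0) (nat_lit 80310) (nat_lit 13) nil nil)) (node (nat_lit 0) (nat_lit
  79787) (nat_lit 12) (node (nat_lit 6) (nat_lit 79787) (nat_lit 13) nil (node (nat_lit 5)
  (nat_lit 79787) (nat_lit 13) nil (node (nat_lit 4) (nat_lit 79787) (nat_lit 13) nil nil))) nil))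
  (node (nat_lit 0) (nat_lit 79119) (nat_lit 11) (node (nat_lit 6) (nat_lit 79119) (nat_lit 12)
  (node (nat_lit 5) (nat_lit 79119) (nat_lit 13) nil nil) (node (nat_lit 5) (nat_lit 79119)
  (nat_lit 12) (node (nat_lit 6) (nat_lit 79119) (nat_lit 13) nil (node (nat_lit 4) (nat_lit
  79119) (nat_lit 13) nil nil)) (node (nat_lit 4) (nat_lit 79119) (nat_lit 12) (node (nat_lit 6)
  (nat_lit 79119) (nat_lit 13) nil (node (nat_lit 5) (nat_lit 79119) (nat_lit 13) nil nil)) nil)))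
  nil))) (node (nat_lit 0) (nat_lit 76704) (nat_lit 10) (node (nat_lit 6) (nat_lit 77599) (nat_lit
  11) (node (nat_lit 5) (nat_lit 78261) (nat_lit 12) (node (nat_lit 6) (nat_lit 79119) (nat_lit
  13) nil (node (nat_lit 4) (nat_lit 79119) (nat_lit 13) nil nil)) (node (nat_lit 4) (nat_lit
  78079) (nat_lit 12) (node (nat_lit 6) (nat_lit 77857) (nat_lit 13) nil (node (nat_lit 5)
  (nat_lit 78937) (nat_lit 13) nil nil)) nil)) (node (nat_lit 4) (nat_lit 77497) (nat_lit 11)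
  (node (nat_lit 5) (nat_lit 78261) (nat_lit 12) (node (nat_lit 4) (nat_lit 78897) (nat_lit 13)
  (node (nat_lit 6) (nat_lit 78201) (nat_lit 14) nil nil) (node (nat_lit 6) (nat_lit 77359)
  (nat_lit 13) nil nil)) (node (nat_lit 6) (nat_lit 78261) (nat_lit 12) (node (nat_lit 5) (nat_lit
  79119) (nat_lit 13) nil (node (nat_lit 4) (nat_lit 79119) (nat_lit 13) nil nil)) nil)) (node
  (nat_lit 5) (nat_lit 76945) (nat_lit 11) (node (nat_lit 4) (nat_lit 78261) (nat_lit 12) nil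
  (node (nat_lit 6) (nat_lit 78221) (nat_lit 12) nil nil)) (node (nat_lit 0) (nat_lit 78953)
  (nat_lit 11) nil nil)))) nil)) (node (nat_lit 0) (nat_lit 73081) (nat_lit 9) (node (nat_lit 5)
  (nat_lit 73369) (nat_lit 10) (node (nat_lit 6) (nat_lit 75005) (nat_lit 11) (node (nat_lit 4)
  (nat_lit 76584) (nat_lit 12) nil (node (nat_lit 5) (nat_lit 76973) (nat_lit 12) nil nil)) (node
  (nat_lit 4) (nat_lit 75275) (nat_lit 11) (node (nat_lit 6) (nat_lit 77650) (nat_lit 12) nil nil)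
  (node (nat_lit 12) (nat_lit 77831) (nat_lit 11) nil nil))) (node (nat_lit 6) (nat_lit 74228)
  (nat_lit 10) (node (nat_lit 5) (nat_lit 75865) (nat_lit 11) (node (nat_lit 4) (nat_lit 77833)
  (nat_lit 12) nil nil) (node (nat_lit 4) (nat_lit 76237) (nat_lit 11) (node (nat_lit 5) (nat_lit
  76613) (nat_lit 12) nil nil) (node (nat_lit 12) (nat_lit 78690) (nat_lit 11) nil nil))) (node
  (nat_lit 4) (nat_lit 74110) (nat_lit 10) (node (nat_lit 6) (nat_lit 76119) (nat_lit 11) (node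
  (nat_lit 5) (nat_lit 78088) (nat_lit 12) nil nil) (node (nat_lit 5) (nat_lit 75555) (nat_lit 11)
  (node (nat_lit 6) (nat_lit 77308) (nat_lit 12) nil nil) nil)) nil))) nil)) nil))

noncomputable def t267 : Tr :=
  (node (nat_lit 4) (nat_lit 0) (nat_lit 7) (node (nat_lit 5) (nat_lit 0) (nat_lit 8) (node
  (nat_lit 6) (nat_lit 0) (nat_lit 9) (node (nat_lit 4) (nat_lit 0) (nat_lit 10) (node (nat_lit 5)
  (nat_lit 0) (nat_lit 11) (node (nat_lit 4) (nat_lit 0) (nat_lit 12) (node (nat_lit 6) (nat_lit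
  0) (nat_lit 13) (node (nat_lit 5) (nat_lit 67922) (nat_lit 14) (node (nat_lit 4) (nat_lit 68597)
  (nat_lit 15) (node (nat_lit 5) (nat_lit 0) (nat_lit 16) (node (nat_lit 6) (nat_lit 69505)
  (nat_lit 17) (node (nat_lit 4) (nat_lit 69815) (nat_lit 18) (node (nat_lit 6) (nat_lit 70058)
  (nat_lit 19) (node (nat_lit 5) (nat_lit 70246) (nat_lit 20) (node (nat_lit 4) (nat_lit 70126)
  (nat_lit 21) (node (nat_lit 5) (nat_lit 70242) (nat_lit 22) nil nil) nil) nil) nil) (node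
  (nat_lit 5) (nat_lit 69815) (nat_lit 18) (node (nat_lit 4) (nat_lit 69619) (nat_lit 19) (node
  (nat_lit 6) (nat_lit 69684) (nat_lit 20) nil nil) nil) nil)) (node (nat_lit 0) (nat_lit 70058)
  (nat_lit 17) nil nil)) nil) (node (nat_lit 6) (nat_lit 68597) (nat_lit 15) (node (nat_lit 4)
  (nat_lit 69107) (nat_lit 16) (node (nat_lit 6) (nat_lit 69505) (nat_lit 17) nil (node (nat_lit
  5) (nat_lit 69505) (nat_lit 17) (node (nat_lit 6) (nat_lit 69815) (nat_lit 18) (node (nat_lit 5)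
  (nat_lit 70058) (nat_lit 19) (node (nat_lit 4) (nat_lit 69904) (nat_lit 20) (node (nat_lit 5)
  (nat_lit 70051) (nat_lit 21) nil nil) nil) nil) nil) nil)) nil) nil)) (node (nat_lit 4) (nat_lit
  67403) (nat_lit 14) (node (nat_lit 5) (nat_lit 68191) (nat_lit 15) (node (nat_lit 6) (nat_lit
  67779) (nat_lit 16) (node (nat_lit 4) (nat_lit 67173) (nat_lit 17) (node (nat_lit 6) (nat_lit
  65513) (nat_lit 18) (node (nat_lit 5) (nat_lit 57705) (nat_lit 19) (node (nat_lit 4) (nat_lit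
  37489) (nat_lit 20) (node (nat_lit 5) (nat_lit 37795) (nat_lit 21) (node (nat_lit 6) (nat_lit
  27214) (nat_lit 22) nil nil) nil) nil) nil) nil) (node (nat_lit 5) (nat_lit 68000) (nat_lit 17)
  (node (nat_lit 4) (nat_lit 67748) (nat_lit 18) nil nil) nil)) nil) nil) (node (nat_lit 0)
  (nat_lit 68581) (nat_lit 14) nil nil))) (node (nat_lit 0) (nat_lit 68563) (nat_lit 13) nil nil))
  (node (nat_lit 0) (nat_lit 67515) (nat_lit 12) (node (nat_lit 4) (nat_lit 67515) (nat_lit 13)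
  nil (node (nat_lit 6) (nat_lit 67515) (nat_lit 13) nil (node (nat_lit 5) (nat_lit 67515)
  (nat_lit 13) nil nil))) nil)) (node (nat_lit 0) (nat_lit 66155) (nat_lit 11) (node (nat_lit 4)
  (nat_lit 66155) (nat_lit 12) (node (nat_lit 6) (nat_lit 66677) (nat_lit 13) nil (node (nat_lit
  5) (nat_lit 66155) (nat_lit 13) nil nil)) (node (nat_lit 6) (nat_lit 66155) (nat_lit 12) (node
  (nat_lit 4) (nat_lit 66677) (nat_lit 13) nil (node (nat_lit 5) (nat_lit 66155) (nat_lit 13) nil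
  nil)) (node (nat_lit 5) (nat_lit 66155) (nat_lit 12) (node (nat_lit 4) (nat_lit 66677) (nat_lit
  13) nil (node (nat_lit 6) (nat_lit 66677) (nat_lit 13) nil nil)) nil))) (node (nat_lit 6)
  (nat_lit 0) (nat_lit 11) (node (nat_lit 0) (nat_lit 67395) (nat_lit 12) (node (nat_lit 4)
  (nat_lit 67395) (nat_lit 13) nil (node (nat_lit 5) (nat_lit 67395) (nat_lit 13) nil nil)) nil)
  nil))) (node (nat_lit 5) (nat_lit 0) (nat_lit 10) (node (nat_lit 4) (nat_lit 0) (nat_lit 11)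
  (node (nat_lit 6) (nat_lit 0) (nat_lit 12) (node (nat_lit 4) (nat_lit 0) (nat_lit 13) (node
  (nat_lit 5) (nat_lit 0) (nat_lit 14) (node (nat_lit 6) (nat_lit 81853) (nat_lit 15) (node
  (nat_lit 5) (nat_lit 83244) (nat_lit 16) (node (nat_lit 4) (nat_lit 81326) (nat_lit 17) (node
  (nat_lit 5) (nat_lit 81918) (nat_lit 18) (node (nat_lit 6) (nat_lit 81563) (nat_lit 19) (node
  (nat_lit 4) (nat_lit 81449) (nat_lit 20) (node (nat_lit 6) (nat_lit 81063) (nat_lit 21) (node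
  (nat_lit 5) (nat_lit 78928) (nat_lit 22) (node (nat_lit 4) (nat_lit 76863) (nat_lit 23) (node
  (nat_lit 5) (nat_lit 72013) (nat_lit 24) (node (nat_lit 6) (nat_lit 67635) (nat_lit 25) (node
  (nat_lit 5) (nat_lit 67677) (nat_lit 26) (node (nat_lit 4) (nat_lit 67649) (nat_lit 27) (node
  (nat_lit 6) (nat_lit 67657) (nat_lit 28) (node (nat_lit 4) (nat_lit 67657) (nat_lit 29) (node
  (nat_lit 5) (nat_lit 67663) (nat_lit 30) (node (nat_lit 6) (nat_lit 67621) (nat_lit 31) nil nil)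
  nil) nil) nil) nil) nil) nil) nil) nil) nil) nil) nil) nil) nil) nil) (node (nat_lit 4) (nat_lit
  81755) (nat_lit 16) (node (nat_lit 6) (nat_lit 79280) (nat_lit 17) (node (nat_lit 5) (nat_lit
  72962) (nat_lit 18) (node (nat_lit 4) (nat_lit 50996) (nat_lit 19) (node (nat_lit 5) (nat_lit
  18102) (nat_lit 20) (node (nat_lit 6) (nat_lit 18337) (nat_lit 21) (node (nat_lit 5) (nat_lit
  18086) (nat_lit 22) (node (nat_lit 4) (nat_lit 18067) (nat_lit 23) nil nil) (node (nat_lit 4)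
  (nat_lit 18536) (nat_lit 22) nil nil)) nil) (node (nat_lit 6) (nat_lit 51593) (nat_lit 20) (node
  (nat_lit 4) (nat_lit 51981) (nat_lit 21) (node (nat_lit 5) (nat_lit 51385) (nat_lit 22) nil nil)
  nil) nil)) (node (nat_lit 6) (nat_lit 73399) (nat_lit 19) nil nil)) nil) nil) nil)) (node
  (nat_lit 4) (nat_lit 83387) (nat_lit 15) (node (nat_lit 6) (nat_lit 84934) (nat_lit 16) (node
  (nat_lit 5) (nat_lit 86216) (nat_lit 17) (node (nat_lit 6) (nat_lit 86774) (nat_lit 18) nil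
  (node (nat_lit 4) (nat_lit 86885) (nat_lit 18) nil nil)) nil) nil) (node (nat_lit 0) (nat_lit
  84187) (nat_lit 15) nil nil))) (node (nat_lit 0) (nat_lit 82729) (nat_lit 14) nil nil)) (node
  (nat_lit 5) (nat_lit 0) (nat_lit 13) (node (nat_lit 6) (nat_lit 0) (nat_lit 14) (node (nat_lit
  4) (nat_lit 84014) (nat_lit 15) (node (nat_lit 6) (nat_lit 85404) (nat_lit 16) (node (nat_lit 5)
  (nat_lit 86491) (nat_lit 17) (node (nat_lit 4) (nat_lit 86597) (nat_lit 18) nil nil) nil) (node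
  (nat_lit 5) (nat_lit 85404) (nat_lit 16) (node (nat_lit 4) (nat_lit 85213) (nat_lit 17) (node
  (nat_lit 6) (nat_lit 85080) (nat_lit 18) nil nil) (node (nat_lit 6) (nat_lit 85507) (nat_lit 17)
  nil nil)) nil)) (node (nat_lit 0) (nat_lit 85018) (nat_lit 15) nil nil)) (node (nat_lit 0)
  (nat_lit 83004) (nat_lit 14) nil nil)) (node (nat_lit 0) (nat_lit 82704) (nat_lit 13) nil nil)))
  (node (nat_lit 0) (nat_lit 79861) (nat_lit 12) nil nil)) (node (nat_lit 0) (nat_lit 76970)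
  (nat_lit 11) (node (nat_lit 5) (nat_lit 76970) (nat_lit 12) nil (node (nat_lit 6) (nat_lit
  77377) (nat_lit 12) nil nil)) nil)) (node (nat_lit 0) (nat_lit 72404) (nat_lit 10) (node
  (nat_lit 5) (nat_lit 72644) (nat_lit 11) (node (nat_lit 6) (nat_lit 74880) (nat_lit 12) (node
  (nat_lit 5) (nat_lit 77487) (nat_lit 13) (node (nat_lit 4) (nat_lit 77380) (nat_lit 14) nil nil)
  (node (nat_lit 4) (nat_lit 76791) (nat_lit 13) nil nil)) (node (nat_lit 4) (nat_lit 74798)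
  (nat_lit 12) (node (nat_lit 6) (nat_lit 78246) (nat_lit 13) nil (node (nat_lit 5) (nat_lit
  76727) (nat_lit 13) nil nil)) nil)) (node (nat_lit 4) (nat_lit 73196) (nat_lit 11) (node
  (nat_lit 5) (nat_lit 74947) (nat_lit 12) (node (nat_lit 4) (nat_lit 74256) (nat_lit 13) (node
  (nat_lit 6) (nat_lit 73884) (nat_lit 14) nil nil) (node (nat_lit 6) (nat_lit 76637) (nat_lit 13)
  nil nil)) (node (nat_lit 6) (nat_lit 75287) (nat_lit 12) (node (nat_lit 4) (nat_lit 77215)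
  (nat_lit 13) (node (nat_lit 5) (nat_lit 78722) (nat_lit 14) nil nil) (node (nat_lit 5) (nat_lit
  77371) (nat_lit 13) nil nil)) nil)) (node (nat_lit 6) (nat_lit 73299) (nat_lit 11) (node
  (nat_lit 4) (nat_lit 75389) (nat_lit 12) (node (nat_lit 5) (nat_lit 76777) (nat_lit 13) nil nil)
  (node (nat_lit 5) (nat_lit 75031) (nat_lit 12) (node (nat_lit 4) (nat_lit 78161) (nat_lit 13)
  nil (node (nat_lit 6) (nat_lit 77639) (nat_lit 13) nil nil)) nil)) (node (nat_lit 0) (nat_lit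
  76392) (nat_lit 11) nil nil)))) nil))) (node (nat_lit 0) (nat_lit 90821) (nat_lit 9) (node
  (nat_lit 5) (nat_lit 92774) (nat_lit 10) (node (nat_lit 6) (nat_lit 96235) (nat_lit 11) (node
  (nat_lit 4) (nat_lit 98710) (nat_lit 12) nil nil) (node (nat_lit 4) (nat_lit 96695) (nat_lit 11)
  (node (nat_lit 6) (nat_lit 96976) (nat_lit 12) nil nil) nil)) (node (nat_lit 6) (nat_lit 94982)
  (nat_lit 10) (node (nat_lit 4) (nat_lit 97961) (nat_lit 11) (node (nat_lit 5) (nat_lit 99712)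
  (nat_lit 12) nil nil) (node (nat_lit 5) (nat_lit 97453) (nat_lit 11) (node (nat_lit 4) (nat_lit
  97334) (nat_lit 12) nil nil) nil)) (node (nat_lit 4) (nat_lit 93032) (nat_lit 10) (node (nat_lit
  5) (nat_lit 96549) (nat_lit 11) nil (node (nat_lit 6) (nat_lit 95638) (nat_lit 11) (node
  (nat_lit 5) (nat_lit 98113) (nat_lit 12) nil nil) nil)) nil))) nil)) (node (nat_lit 6) (nat_lit
  0) (nat_lit 8) (node (nat_lit 4) (nat_lit 0) (nat_lit 9) (node (nat_lit 5) (nat_lit 0) (nat_lit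
  10) (node (nat_lit 6) (nat_lit 0) (nat_lit 11) (node (nat_lit 5) (nat_lit 0) (nat_lit 12) (node
  (nat_lit 4) (nat_lit 0) (nat_lit 13) (node (nat_lit 6) (nat_lit 0) (nat_lit 14) (node (nat_lit
  5) (nat_lit 0) (nat_lit 15) (node (nat_lit 6) (nat_lit 0) (nat_lit 16) (node (nat_lit 4)
  (nat_lit 99224) (nat_lit 17) (node (nat_lit 6) (nat_lit 100186) (nat_lit 18) (node (nat_lit 5)
  (nat_lit 100937) (nat_lit 19) (node (nat_lit 4) (nat_lit 101074) (nat_lit 20) (node (nat_lit 6)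
  (nat_lit 101243) (nat_lit 21) nil (node (nat_lit 5) (nat_lit 101478) (nat_lit 21) (node (nat_lit
  6) (nat_lit 101820) (nat_lit 22) (node (nat_lit 4) (nat_lit 102098) (nat_lit 23) nil nil) nil)
  nil)) nil) nil) (node (nat_lit 5) (nat_lit 99782) (nat_lit 18) nil nil)) (node (nat_lit 0)
  (nat_lit 99474) (nat_lit 17) nil nil)) (node (nat_lit 0) (nat_lit 97850) (nat_lit 16) nil nil))
  (node (nat_lit 0) (nat_lit 97503) (nat_lit 15) nil (node (nat_lit 4) (nat_lit 0) (nat_lit 15)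
  (node (nat_lit 0) (nat_lit 97351) (nat_lit 16) nil nil) nil))) (node (nat_lit 5) (nat_lit 0)
  (nat_lit 14) (node (nat_lit 6) (nat_lit 95450) (nat_lit 15) (node (nat_lit 4) (nat_lit 97563)
  (nat_lit 16) (node (nat_lit 6) (nat_lit 94667) (nat_lit 17) (node (nat_lit 5) (nat_lit 80586)
  (nat_lit 18) (node (nat_lit 4) (nat_lit 71286) (nat_lit 19) (node (nat_lit 6) (nat_lit 63924)
  (nat_lit 20) (node (nat_lit 4) (nat_lit 64184) (nat_lit 21) (node (nat_lit 5) (nat_lit 38931)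
  (nat_lit 22) (node (nat_lit 6) (nat_lit 38581) (nat_lit 23) nil nil) nil) nil) (node (nat_lit 5)
  (nat_lit 71522) (nat_lit 20) (node (nat_lit 6) (nat_lit 71145) (nat_lit 21) nil nil) nil)) (node
  (nat_lit 6) (nat_lit 81174) (nat_lit 19) (node (nat_lit 4) (nat_lit 81515) (nat_lit 20) nil nil)
  nil)) nil) (node (nat_lit 5) (nat_lit 98279) (nat_lit 17) nil nil)) nil) (node (nat_lit 0)
  (nat_lit 95723) (nat_lit 15) nil nil)) (node (nat_lit 0) (nat_lit 94166) (nat_lit 14) nil nil)))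
  (node (nat_lit 0) (nat_lit 92503) (nat_lit 13) nil nil)) (node (nat_lit 4) (nat_lit 0) (nat_lit
  12) (node (nat_lit 6) (nat_lit 0) (nat_lit 13) (node (nat_lit 5) (nat_lit 57001) (nat_lit 14)
  (node (nat_lit 4) (nat_lit 58374) (nat_lit 15) (node (nat_lit 5) (nat_lit 59443) (nat_lit 16)
  (node (nat_lit 6) (nat_lit 60423) (nat_lit 17) (node (nat_lit 5) (nat_lit 60798) (nat_lit 18)
  (node (nat_lit 4) (nat_lit 61094) (nat_lit 19) (node (nat_lit 6) (nat_lit 61246) (nat_lit 20)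
  nil nil) nil) (node (nat_lit 4) (nat_lit 61074) (nat_lit 18) nil nil)) nil) nil) (node (nat_lit
  6) (nat_lit 58374) (nat_lit 15) (node (nat_lit 4) (nat_lit 59153) (nat_lit 16) (node (nat_lit 5)
  (nat_lit 59579) (nat_lit 17) (node (nat_lit 4) (nat_lit 59826) (nat_lit 18) nil nil) nil) nil)
  nil)) (node (nat_lit 0) (nat_lit 57786) (nat_lit 14) nil nil)) (node (nat_lit 0) (nat_lit 56817)
  (nat_lit 13) nil nil)) (node (nat_lit 0) (nat_lit 89595) (nat_lit 12) (node (nat_lit 4) (nat_lit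
  89595) (nat_lit 13) nil (node (nat_lit 6) (nat_lit 89595) (nat_lit 13) nil (node (nat_lit 5)
  (nat_lit 89595) (nat_lit 13) nil nil))) nil))) (node (nat_lit 4) (nat_lit 0) (nat_lit 11) (node
  (nat_lit 6) (nat_lit 109042) (nat_lit 12) (node (nat_lit 5) (nat_lit 113839) (nat_lit 13) (node
  (nat_lit 6) (nat_lit 116839) (nat_lit 14) (node (nat_lit 4) (nat_lit 117780) (nat_lit 15) (node
  (nat_lit 5) (nat_lit 118833) (nat_lit 16) (node (nat_lit 6) (nat_lit 120008) (nat_lit 17) (node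
  (nat_lit 5) (nat_lit 120642) (nat_lit 18) (node (nat_lit 4) (nat_lit 120538) (nat_lit 19) (node
  (nat_lit 5) (nat_lit 120912) (nat_lit 20) (node (nat_lit 6) (nat_lit 120535) (nat_lit 21) (node
  (nat_lit 4) (nat_lit 120352) (nat_lit 22) (node (nat_lit 6) (nat_lit 120076) (nat_lit 23) (node
  (nat_lit 5) (nat_lit 119828) (nat_lit 24) (node (nat_lit 4) (nat_lit 118008) (nat_lit 25) (node
  (nat_lit 6) (nat_lit 116989) (nat_lit 26) (node (nat_lit 4) (nat_lit 113823) (nat_lit 27) (node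
  (nat_lit 5) (nat_lit 109403) (nat_lit 28) (node (nat_lit 4) (nat_lit 104720) (nat_lit 29) (node
  (nat_lit 6) (nat_lit 93638) (nat_lit 30) (node (nat_lit 5) (nat_lit 88489) (nat_lit 31) (node
  (nat_lit 6) (nat_lit 88510) (nat_lit 32) nil nil) nil) nil) nil) nil) nil) nil) nil) nil) nil)
  nil) nil) nil) nil) nil) nil) (node (nat_lit 6) (nat_lit 119278) (nat_lit 16) (node (nat_lit 5)
  (nat_lit 120072) (nat_lit 17) (node (nat_lit 4) (nat_lit 119938) (nat_lit 18) (node (nat_lit 5)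
  (nat_lit 120434) (nat_lit 19) (node (nat_lit 6) (nat_lit 120034) (nat_lit 20) nil nil) nil) nil)
  nil) nil)) nil) (node (nat_lit 4) (nat_lit 115957) (nat_lit 14) (node (nat_lit 5) (nat_lit
  117744) (nat_lit 15) (node (nat_lit 6) (nat_lit 117570) (nat_lit 16) (node (nat_lit 4) (nat_lit
  116121) (nat_lit 17) (node (nat_lit 6) (nat_lit 112583) (nat_lit 18) (node (nat_lit 5) (nat_lit
  106597) (nat_lit 19) (node (nat_lit 4) (nat_lit 79780) (nat_lit 20) (node (nat_lit 6) (nat_lit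
  79335) (nat_lit 21) (node (nat_lit 4) (nat_lit 79467) (nat_lit 22) (node (nat_lit 5) (nat_lit
  79621) (nat_lit 23) (node (nat_lit 4) (nat_lit 61979) (nat_lit 24) nil nil) nil) nil) nil) nil)
  nil) nil) nil) nil) nil) nil)) nil) (node (nat_lit 0) (nat_lit 109877) (nat_lit 12) nil nil))
  (node (nat_lit 0) (nat_lit 110748) (nat_lit 11) nil nil))) (node (nat_lit 0) (nat_lit 108175)
  (nat_lit 10) (node (nat_lit 6) (nat_lit 108175) (nat_lit 11) nil (node (nat_lit 5) (nat_lit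
  108175) (nat_lit 11) nil (node (nat_lit 4) (nat_lit 108175) (nat_lit 11) nil nil))) nil)) (node
  (nat_lit 0) (nat_lit 101393) (nat_lit 9) (node (nat_lit 6) (nat_lit 104338) (nat_lit 10) nil
  (node (nat_lit 5) (nat_lit 102154) (nat_lit 10) nil (node (nat_lit 4) (nat_lit 104087) (nat_lit
  10) nil nil))) nil)) nil)) (node (nat_lit 6) (nat_lit 0) (nat_lit 7) (node (nat_lit 4) (nat_lit
  0) (nat_lit 8) (node (nat_lit 5) (nat_lit 0) (nat_lit 9) (node (nat_lit 4) (nat_lit 0) (nat_lit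
  10) (node (nat_lit 6) (nat_lit 139898) (nat_lit 11) (node (nat_lit 5) (nat_lit 143303) (nat_lit
  12) (node (nat_lit 4) (nat_lit 145796) (nat_lit 13) (node (nat_lit 5) (nat_lit 147710) (nat_lit
  14) (node (nat_lit 6) (nat_lit 147954) (nat_lit 15) (node (nat_lit 5) (nat_lit 148965) (nat_lit
  16) (node (nat_lit 4) (nat_lit 149534) (nat_lit 17) (node (nat_lit 6) (nat_lit 150092) (nat_lit
  18) (node (nat_lit 4) (nat_lit 150529) (nat_lit 19) (node (nat_lit 5) (nat_lit 150869) (nat_lit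
  20) (node (nat_lit 6) (nat_lit 150908) (nat_lit 21) (node (nat_lit 4) (nat_lit 151115) (nat_lit
  22) (node (nat_lit 6) (nat_lit 151138) (nat_lit 23) (node (nat_lit 5) (nat_lit 151195) (nat_lit
  24) (node (nat_lit 6) (nat_lit 151000) (nat_lit 25) (node (nat_lit 4) (nat_lit 148600) (nat_lit
  26) (node (nat_lit 5) (nat_lit 146096) (nat_lit 27) (node (nat_lit 4) (nat_lit 141691) (nat_lit
  28) (node (nat_lit 6) (nat_lit 135212) (nat_lit 29) (node (nat_lit 5) (nat_lit 123274) (nat_lit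
  30) (node (nat_lit 4) (nat_lit 109786) (nat_lit 31) (node (nat_lit 5) (nat_lit 84135) (nat_lit
  32) (node (nat_lit 6) (nat_lit 80589) (nat_lit 33) nil nil) nil) nil) nil) nil) nil) nil) nil)
  nil) nil) nil) nil) nil) nil) nil) nil) nil) (node (nat_lit 4) (nat_lit 145542) (nat_lit 16)
  (node (nat_lit 6) (nat_lit 138094) (nat_lit 17) (node (nat_lit 5) (nat_lit 128500) (nat_lit 18)
  (node (nat_lit 6) (nat_lit 115577) (nat_lit 19) (node (nat_lit 4) (nat_lit 108626) (nat_lit 20)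
  (node (nat_lit 5) (nat_lit 87648) (nat_lit 21) (node (nat_lit 4) (nat_lit 70300) (nat_lit 22)
  (node (nat_lit 6) (nat_lit 70331) (nat_lit 23) nil nil) nil) nil) nil) nil) nil) nil) nil)) nil)
  nil) (node (nat_lit 6) (nat_lit 145796) (nat_lit 13) (node (nat_lit 4) (nat_lit 147710) (nat_lit
  14) (node (nat_lit 6) (nat_lit 148907) (nat_lit 15) (node (nat_lit 5) (nat_lit 149823) (nat_lit
  16) (node (nat_lit 4) (nat_lit 150362) (nat_lit 17) (node (nat_lit 6) (nat_lit 150673) (nat_lit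
  18) (node (nat_lit 4) (nat_lit 150915) (nat_lit 19) (node (nat_lit 5) (nat_lit 151104) (nat_lit
  20) (node (nat_lit 6) (nat_lit 151251) (nat_lit 21) (node (nat_lit 4) (nat_lit 151367) (nat_lit
  22) (node (nat_lit 6) (nat_lit 151457) (nat_lit 23) (node (nat_lit 5) (nat_lit 151355) (nat_lit
  24) (node (nat_lit 6) (nat_lit 150734) (nat_lit 25) (node (nat_lit 4) (nat_lit 148300) (nat_lit
  26) (node (nat_lit 5) (nat_lit 145585) (nat_lit 27) (node (nat_lit 4) (nat_lit 141743) (nat_lit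
  28) (node (nat_lit 6) (nat_lit 135097) (nat_lit 29) (node (nat_lit 5) (nat_lit 122978) (nat_lit
  30) nil nil) nil) nil) nil) nil) nil) nil) nil) nil) nil) nil) nil) (node (nat_lit 5) (nat_lit
  150673) (nat_lit 18) (node (nat_lit 6) (nat_lit 150915) (nat_lit 19) (node (nat_lit 4) (nat_lit
  151104) (nat_lit 20) (node (nat_lit 6) (nat_lit 151251) (nat_lit 21) (node (nat_lit 5) (nat_lit
  151367) (nat_lit 22) (node (nat_lit 6) (nat_lit 151398) (nat_lit 23) (node (nat_lit 4) (nat_lit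
  146542) (nat_lit 24) (node (nat_lit 5) (nat_lit 140413) (nat_lit 25) (node (nat_lit 4) (nat_lit
  128306) (nat_lit 26) (node (nat_lit 6) (nat_lit 111234) (nat_lit 27) (node (nat_lit 5) (nat_lit
  103047) (nat_lit 28) nil nil) nil) nil) nil) nil) nil) nil) nil) nil) nil) nil)) nil) nil) nil)
  nil) nil)) (node (nat_lit 4) (nat_lit 141865) (nat_lit 12) (node (nat_lit 5) (nat_lit 143515)
  (nat_lit 13) (node (nat_lit 6) (nat_lit 142151) (nat_lit 14) (node (nat_lit 5) (nat_lit 143033)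
  (nat_lit 15) (node (nat_lit 4) (nat_lit 143008) (nat_lit 16) (node (nat_lit 5) (nat_lit 143547)
  (nat_lit 17) (node (nat_lit 6) (nat_lit 143857) (nat_lit 18) (node (nat_lit 4) (nat_lit 144100)
  (nat_lit 19) (node (nat_lit 6) (nat_lit 142995) (nat_lit 20) (node (nat_lit 5) (nat_lit 140621)
  (nat_lit 21) (node (nat_lit 6) (nat_lit 137062) (nat_lit 22) (node (nat_lit 4) (nat_lit 132039)
  (nat_lit 23) (node (nat_lit 5) (nat_lit 123929) (nat_lit 24) (node (nat_lit 4) (nat_lit 114081)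
  (nat_lit 25) (node (nat_lit 6) (nat_lit 114167) (nat_lit 26) (node (nat_lit 4) (nat_lit 72567)
  (nat_lit 27) (node (nat_lit 5) (nat_lit 63834) (nat_lit 28) (node (nat_lit 6) (nat_lit 63768)
  (nat_lit 29) nil nil) nil) nil) nil) nil) nil) nil) nil) nil) nil) nil) nil) nil) nil) (node
  (nat_lit 4) (nat_lit 136640) (nat_lit 15) (node (nat_lit 6) (nat_lit 126171) (nat_lit 16) (node
  (nat_lit 5) (nat_lit 117652) (nat_lit 17) (node (nat_lit 6) (nat_lit 80857) (nat_lit 18) (node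
  (nat_lit 4) (nat_lit 80857) (nat_lit 19) (node (nat_lit 5) (nat_lit 80857) (nat_lit 20) (node
  (nat_lit 4) (nat_lit 80857) (nat_lit 21) nil nil) nil) nil) (node (nat_lit 4) (nat_lit 117400)
  (nat_lit 18) nil nil)) nil) nil) nil)) nil) nil) nil)) (node (nat_lit 0) (nat_lit 141427)
  (nat_lit 11) nil nil)) (node (nat_lit 6) (nat_lit 0) (nat_lit 10) (node (nat_lit 5) (nat_lit 0)
  (nat_lit 11) (node (nat_lit 4) (nat_lit 143019) (nat_lit 12) (node (nat_lit 6) (nat_lit 145385)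
  (nat_lit 13) (node (nat_lit 4) (nat_lit 146876) (nat_lit 14) (node (nat_lit 5) (nat_lit 148187)
  (nat_lit 15) (node (nat_lit 6) (nat_lit 147337) (nat_lit 16) (node (nat_lit 4) (nat_lit 147378)
  (nat_lit 17) (node (nat_lit 6) (nat_lit 143547) (nat_lit 18) (node (nat_lit 5) (nat_lit 135661)
  (nat_lit 19) (node (nat_lit 6) (nat_lit 126008) (nat_lit 20) (node (nat_lit 4) (nat_lit 112890)
  (nat_lit 21) (node (nat_lit 5) (nat_lit 94775) (nat_lit 22) (node (nat_lit 6) (nat_lit 80248)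
  (nat_lit 23) (node (nat_lit 5) (nat_lit 80234) (nat_lit 24) (node (nat_lit 4) (nat_lit 80224)
  (nat_lit 25) nil nil) nil) nil) nil) nil) nil) nil) nil) nil) (node (nat_lit 4) (nat_lit 148162)
  (nat_lit 16) (node (nat_lit 6) (nat_lit 148406) (nat_lit 17) (node (nat_lit 5) (nat_lit 148717)
  (nat_lit 18) (node (nat_lit 4) (nat_lit 148960) (nat_lit 19) (node (nat_lit 5) (nat_lit 149148)
  (nat_lit 20) (node (nat_lit 6) (nat_lit 149296) (nat_lit 21) nil nil) nil) nil) nil) nil) nil))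
  nil) (node (nat_lit 5) (nat_lit 146892) (nat_lit 14) (node (nat_lit 6) (nat_lit 148068) (nat_lit
  15) (node (nat_lit 4) (nat_lit 148984) (nat_lit 16) (node (nat_lit 6) (nat_lit 149523) (nat_lit
  17) (node (nat_lit 5) (nat_lit 149833) (nat_lit 18) (node (nat_lit 4) (nat_lit 149638) (nat_lit
  19) (node (nat_lit 5) (nat_lit 149826) (nat_lit 20) nil nil) nil) nil) nil) nil) nil) nil))
  (node (nat_lit 5) (nat_lit 137339) (nat_lit 13) (node (nat_lit 6) (nat_lit 134893) (nat_lit 14)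
  (node (nat_lit 4) (nat_lit 133985) (nat_lit 15) (node (nat_lit 6) (nat_lit 118465) (nat_lit 16)
  (node (nat_lit 5) (nat_lit 119116) (nat_lit 17) (node (nat_lit 6) (nat_lit 119777) (nat_lit 18)
  (node (nat_lit 4) (nat_lit 120402) (nat_lit 19) (node (nat_lit 5) (nat_lit 70246) (nat_lit 20)
  (node (nat_lit 6) (nat_lit 70394) (nat_lit 21) nil nil) nil) nil) (node (nat_lit 4) (nat_lit
  119067) (nat_lit 18) nil nil)) nil) nil) nil) nil) nil)) (node (nat_lit 0) (nat_lit 145478)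
  (nat_lit 12) nil nil)) (node (nat_lit 0) (nat_lit 141508) (nat_lit 11) nil nil)) (node (nat_lit
  0) (nat_lit 141501) (nat_lit 10) nil nil))) (node (nat_lit 0) (nat_lit 133579) (nat_lit 9) (node
  (nat_lit 5) (nat_lit 134929) (nat_lit 10) nil nil) nil)) nil) nil))

noncomputable def t268 : Tr :=
  (node (nat_lit 6) (nat_lit 0) (nat_lit 10) (node (nat_lit 5) (nat_lit 0) (nat_lit 11) (node
  (nat_lit 6) (nat_lit 0) (nat_lit 12) (node (nat_lit 4) (nat_lit 0) (nat_lit 13) (node (nat_lit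
  5) (nat_lit 0) (nat_lit 14) (node (nat_lit 6) (nat_lit 0) (nat_lit 15) (node (nat_lit 5)
  (nat_lit 0) (nat_lit 16) (node (nat_lit 4) (nat_lit 0) (nat_lit 17) (node (nat_lit 6) (nat_lit
  0) (nat_lit 18) (node (nat_lit 4) (nat_lit 72880) (nat_lit 19) (node (nat_lit 5) (nat_lit 73385)
  (nat_lit 20) (node (nat_lit 4) (nat_lit 58029) (nat_lit 21) (node (nat_lit 6) (nat_lit 57943)
  (nat_lit 22) (node (nat_lit 5) (nat_lit 57928) (nat_lit 23) nil nil) nil) (node (nat_lit 6)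
  (nat_lit 73553) (nat_lit 21) nil nil)) nil) (node (nat_lit 5) (nat_lit 95270) (nat_lit 19) (node
  (nat_lit 6) (nat_lit 95929) (nat_lit 20) (node (nat_lit 4) (nat_lit 96399) (nat_lit 21) nil nil)
  nil) (node (nat_lit 0) (nat_lit 95293) (nat_lit 19) nil nil))) (node (nat_lit 5) (nat_lit 99448)
  (nat_lit 18) (node (nat_lit 6) (nat_lit 100228) (nat_lit 19) (node (nat_lit 4) (nat_lit 100776)
  (nat_lit 20) nil nil) nil) (node (nat_lit 0) (nat_lit 100058) (nat_lit 18) nil nil))) (node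
  (nat_lit 0) (nat_lit 103634) (nat_lit 17) nil nil)) (node (nat_lit 0) (nat_lit 101988) (nat_lit
  16) (node (nat_lit 5) (nat_lit 101988) (nat_lit 17) nil (node (nat_lit 6) (nat_lit 101988)
  (nat_lit 17) nil (node (nat_lit 4) (nat_lit 101988) (nat_lit 17) nil nil))) nil)) (node (nat_lit
  4) (nat_lit 0) (nat_lit 15) (node (nat_lit 6) (nat_lit 0) (nat_lit 16) (node (nat_lit 4)
  (nat_lit 102069) (nat_lit 17) (node (nat_lit 5) (nat_lit 102946) (nat_lit 18) (node (nat_lit 6)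
  (nat_lit 103368) (nat_lit 19) (node (nat_lit 5) (nat_lit 103805) (nat_lit 20) (node (nat_lit 4)
  (nat_lit 104231) (nat_lit 21) (node (nat_lit 6) (nat_lit 104481) (nat_lit 22) (node (nat_lit 4)
  (nat_lit 94673) (nat_lit 23) (node (nat_lit 5) (nat_lit 90248) (nat_lit 24) (node (nat_lit 4)
  (nat_lit 88622) (nat_lit 25) (node (nat_lit 6) (nat_lit 88609) (nat_lit 26) (node (nat_lit 5)
  (nat_lit 88644) (nat_lit 27) (node (nat_lit 6) (nat_lit 88691) (nat_lit 28) (node (nat_lit 4)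
  (nat_lit 88732) (nat_lit 29) (node (nat_lit 5) (nat_lit 88727) (nat_lit 30) nil nil) nil) nil)
  nil) nil) nil) nil) nil) nil) nil) (node (nat_lit 4) (nat_lit 103709) (nat_lit 20) nil nil))
  nil) nil) (node (nat_lit 0) (nat_lit 102852) (nat_lit 17) nil nil)) (node (nat_lit 0) (nat_lit
  101924) (nat_lit 16) (node (nat_lit 5) (nat_lit 101924) (nat_lit 17) nil nil) nil)) (node
  (nat_lit 0) (nat_lit 99845) (nat_lit 15) (node (nat_lit 4) (nat_lit 99892) (nat_lit 16) (node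
  (nat_lit 5) (nat_lit 99892) (nat_lit 17) nil nil) (node (nat_lit 5) (nat_lit 99888) (nat_lit 16)
  nil (node (nat_lit 6) (nat_lit 99845) (nat_lit 16) nil nil))) nil))) (node (nat_lit 6) (nat_lit
  0) (nat_lit 14) (node (nat_lit 5) (nat_lit 0) (nat_lit 15) (node (nat_lit 4) (nat_lit 100388)
  (nat_lit 16) (node (nat_lit 5) (nat_lit 102357) (nat_lit 17) (node (nat_lit 6) (nat_lit 103595)
  (nat_lit 18) (node (nat_lit 5) (nat_lit 104364) (nat_lit 19) (node (nat_lit 4) (nat_lit 104622)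
  (nat_lit 20) (node (nat_lit 6) (nat_lit 104998) (nat_lit 21) (node (nat_lit 4) (nat_lit 103743)
  (nat_lit 22) (node (nat_lit 5) (nat_lit 97347) (nat_lit 23) (node (nat_lit 4) (nat_lit 85291)
  (nat_lit 24) (node (nat_lit 6) (nat_lit 72203) (nat_lit 25) (node (nat_lit 5) (nat_lit 61614)
  (nat_lit 26) (node (nat_lit 6) (nat_lit 46067) (nat_lit 27) (node (nat_lit 4) (nat_lit 46084)
  (nat_lit 28) nil nil) nil) nil) nil) nil) nil) nil) nil) nil) (node (nat_lit 4) (nat_lit 104185)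
  (nat_lit 19) (node (nat_lit 6) (nat_lit 104236) (nat_lit 20) nil nil) nil)) nil) (node (nat_lit
  6) (nat_lit 0) (nat_lit 17) (node (nat_lit 4) (nat_lit 0) (nat_lit 18) (node (nat_lit 5)
  (nat_lit 104655) (nat_lit 19) (node (nat_lit 6) (nat_lit 105107) (nat_lit 20) (node (nat_lit 5)
  (nat_lit 105157) (nat_lit 21) (node (nat_lit 4) (nat_lit 101477) (nat_lit 22) (node (nat_lit 6)
  (nat_lit 100828) (nat_lit 23) nil nil) nil) nil) nil) (node (nat_lit 0) (nat_lit 104825)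
  (nat_lit 19) nil nil)) (node (nat_lit 0) (nat_lit 104765) (nat_lit 18) nil nil)) nil)) (node
  (nat_lit 0) (nat_lit 101627) (nat_lit 16) nil nil)) (node (nat_lit 0) (nat_lit 99977) (nat_lit
  15) nil nil)) (node (nat_lit 0) (nat_lit 97059) (nat_lit 14) (node (nat_lit 4) (nat_lit 96943)
  (nat_lit 15) (node (nat_lit 6) (nat_lit 97260) (nat_lit 16) nil (node (nat_lit 5) (nat_lit
  96792) (nat_lit 16) nil nil)) (node (nat_lit 6) (nat_lit 97421) (nat_lit 15) (node (nat_lit 4)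
  (nat_lit 97746) (nat_lit 16) nil (node (nat_lit 5) (nat_lit 97421) (nat_lit 16) nil nil)) (node
  (nat_lit 5) (nat_lit 97881) (nat_lit 15) (node (nat_lit 4) (nat_lit 98206) (nat_lit 16) nil
  (node (nat_lit 6) (nat_lit 97881) (nat_lit 16) nil nil)) nil))) nil))) (node (nat_lit 0)
  (nat_lit 93663) (nat_lit 13) (node (nat_lit 6) (nat_lit 94121) (nat_lit 14) (node (nat_lit 4)
  (nat_lit 94599) (nat_lit 15) nil (node (nat_lit 5) (nat_lit 95687) (nat_lit 15) (node (nat_lit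
  4) (nat_lit 95663) (nat_lit 16) nil nil) nil)) (node (nat_lit 5) (nat_lit 94736) (nat_lit 14)
  (node (nat_lit 4) (nat_lit 94736) (nat_lit 15) nil (node (nat_lit 6) (nat_lit 94736) (nat_lit
  15) nil nil)) (node (nat_lit 4) (nat_lit 93512) (nat_lit 14) (node (nat_lit 6) (nat_lit 93512)
  (nat_lit 15) nil (node (nat_lit 5) (nat_lit 93512) (nat_lit 15) nil nil)) nil))) nil)) (node
  (nat_lit 4) (nat_lit 0) (nat_lit 12) (node (nat_lit 5) (nat_lit 0) (nat_lit 13) (node (nat_lit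
  6) (nat_lit 0) (nat_lit 14) (node (nat_lit 4) (nat_lit 0) (nat_lit 15) (node (nat_lit 6)
  (nat_lit 0) (nat_lit 16) (node (nat_lit 5) (nat_lit 102364) (nat_lit 17) (node (nat_lit 6)
  (nat_lit 103353) (nat_lit 18) (node (nat_lit 4) (nat_lit 104127) (nat_lit 19) (node (nat_lit 5)
  (nat_lit 104554) (nat_lit 20) (node (nat_lit 6) (nat_lit 102747) (nat_lit 21) (node (nat_lit 5)
  (nat_lit 102753) (nat_lit 22) (node (nat_lit 4) (nat_lit 101959) (nat_lit 23) (node (nat_lit 6)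
  (nat_lit 101718) (nat_lit 24) (node (nat_lit 4) (nat_lit 100254) (nat_lit 25) (node (nat_lit 5)
  (nat_lit 98301) (nat_lit 26) (node (nat_lit 4) (nat_lit 95592) (nat_lit 27) (node (nat_lit 6)
  (nat_lit 91735) (nat_lit 28) (node (nat_lit 5) (nat_lit 83148) (nat_lit 29) (node (nat_lit 4)
  (nat_lit 73004) (nat_lit 30) (node (nat_lit 5) (nat_lit 72999) (nat_lit 31) (node (nat_lit 6)
  (nat_lit 72980) (nat_lit 32) nil nil) nil) nil) nil) nil) nil) nil) nil) nil) nil) nil) nil)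
  nil) nil) (node (nat_lit 4) (nat_lit 103899) (nat_lit 18) (node (nat_lit 6) (nat_lit 104939)
  (nat_lit 19) (node (nat_lit 4) (nat_lit 105679) (nat_lit 20) (node (nat_lit 5) (nat_lit 106163)
  (nat_lit 21) (node (nat_lit 6) (nat_lit 106365) (nat_lit 22) (node (nat_lit 5) (nat_lit 104729)
  (nat_lit 23) (node (nat_lit 4) (nat_lit 104091) (nat_lit 24) nil nil) nil) nil) nil) nil) nil)
  nil)) (node (nat_lit 0) (nat_lit 102038) (nat_lit 17) nil nil)) (node (nat_lit 5) (nat_lit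
  99980) (nat_lit 16) (node (nat_lit 4) (nat_lit 0) (nat_lit 17) (node (nat_lit 6) (nat_lit
  102448) (nat_lit 18) (node (nat_lit 4) (nat_lit 103243) (nat_lit 19) (node (nat_lit 5) (nat_lit
  103864) (nat_lit 20) (node (nat_lit 6) (nat_lit 104121) (nat_lit 21) (node (nat_lit 5) (nat_lit
  102086) (nat_lit 22) (node (nat_lit 4) (nat_lit 101352) (nat_lit 23) nil nil) nil) nil) nil)
  (node (nat_lit 5) (nat_lit 103128) (nat_lit 19) (node (nat_lit 6) (nat_lit 102914) (nat_lit 20)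
  nil nil) nil)) (node (nat_lit 0) (nat_lit 102480) (nat_lit 18) nil nil)) nil) (node (nat_lit 0)
  (nat_lit 101528) (nat_lit 16) nil nil))) (node (nat_lit 5) (nat_lit 0) (nat_lit 15) (node
  (nat_lit 4) (nat_lit 0) (nat_lit 16) (node (nat_lit 6) (nat_lit 0) (nat_lit 17) (node (nat_lit
  4) (nat_lit 0) (nat_lit 18) (node (nat_lit 5) (nat_lit 0) (nat_lit 19) (node (nat_lit 6)
  (nat_lit 47567) (nat_lit 20) (node (nat_lit 4) (nat_lit 47893) (nat_lit 21) (node (nat_lit 6)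
  (nat_lit 48094) (nat_lit 22) (node (nat_lit 5) (nat_lit 48189) (nat_lit 23) nil nil) nil) (node
  (nat_lit 5) (nat_lit 47933) (nat_lit 21) (node (nat_lit 4) (nat_lit 48221) (nat_lit 22) (node
  (nat_lit 5) (nat_lit 48410) (nat_lit 23) (node (nat_lit 6) (nat_lit 48481) (nat_lit 24) nil nil)
  nil) nil) nil)) (node (nat_lit 4) (nat_lit 46888) (nat_lit 20) (node (nat_lit 6) (nat_lit 46945)
  (nat_lit 21) nil nil) (node (nat_lit 0) (nat_lit 47863) (nat_lit 20) nil nil))) (node (nat_lit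
  0) (nat_lit 47420) (nat_lit 19) nil nil)) (node (nat_lit 5) (nat_lit 81174) (nat_lit 18) (node
  (nat_lit 6) (nat_lit 82026) (nat_lit 19) (node (nat_lit 4) (nat_lit 82544) (nat_lit 20) (node
  (nat_lit 5) (nat_lit 82876) (nat_lit 21) (node (nat_lit 6) (nat_lit 83068) (nat_lit 22) (node
  (nat_lit 5) (nat_lit 83184) (nat_lit 23) (node (nat_lit 4) (nat_lit 80739) (nat_lit 24) nil nil)
  nil) nil) (node (nat_lit 6) (nat_lit 82582) (nat_lit 21) nil nil)) nil) nil) (node (nat_lit 0)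
  (nat_lit 80968) (nat_lit 18) nil nil))) (node (nat_lit 0) (nat_lit 88910) (nat_lit 17) nil nil))
  (node (nat_lit 0) (nat_lit 91795) (nat_lit 16) nil nil)) (node (nat_lit 0) (nat_lit 100042)
  (nat_lit 15) (node (nat_lit 6) (nat_lit 100042) (nat_lit 16) nil (node (nat_lit 5) (nat_lit
  100042) (nat_lit 16) nil nil)) nil))) (node (nat_lit 0) (nat_lit 97010) (nat_lit 14) (node
  (nat_lit 4) (nat_lit 96894) (nat_lit 15) (node (nat_lit 5) (nat_lit 97925) (nat_lit 16) (node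
  (nat_lit 4) (nat_lit 97916) (nat_lit 17) nil (node (nat_lit 6) (nat_lit 98028) (nat_lit 17) nil
  nil)) (node (nat_lit 6) (nat_lit 97211) (nat_lit 16) nil nil)) (node (nat_lit 5) (nat_lit 97852)
  (nat_lit 15) (node (nat_lit 4) (nat_lit 98177) (nat_lit 16) nil (node (nat_lit 6) (nat_lit
  98732) (nat_lit 16) nil nil)) (node (nat_lit 6) (nat_lit 97372) (nat_lit 15) (node (nat_lit 5)
  (nat_lit 97372) (nat_lit 16) nil (node (nat_lit 4) (nat_lit 97372) (nat_lit 16) nil nil)) nil)))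
  nil)) (node (nat_lit 0) (nat_lit 93513) (nat_lit 13) (node (nat_lit 4) (nat_lit 94391) (nat_lit
  14) (node (nat_lit 6) (nat_lit 96633) (nat_lit 15) (node (nat_lit 5) (nat_lit 98275) (nat_lit
  16) nil (node (nat_lit 4) (nat_lit 98429) (nat_lit 16) nil nil)) (node (nat_lit 5) (nat_lit
  96365) (nat_lit 15) (node (nat_lit 6) (nat_lit 98007) (nat_lit 16) nil (node (nat_lit 4)
  (nat_lit 96898) (nat_lit 16) nil nil)) nil)) (node (nat_lit 5) (nat_lit 94586) (nat_lit 14)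
  (node (nat_lit 4) (nat_lit 95320) (nat_lit 15) (node (nat_lit 6) (nat_lit 95440) (nat_lit 16)
  nil (node (nat_lit 5) (nat_lit 96237) (nat_lit 16) nil nil)) (node (nat_lit 6) (nat_lit 95535)
  (nat_lit 15) (node (nat_lit 5) (nat_lit 96451) (nat_lit 16) nil nil) nil)) (node (nat_lit 6)
  (nat_lit 94686) (nat_lit 14) (node (nat_lit 4) (nat_lit 94987) (nat_lit 15) (node (nat_lit 6)
  (nat_lit 96329) (nat_lit 16) (node (nat_lit 5) (nat_lit 95100) (nat_lit 17) nil nil) nil) (node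
  (nat_lit 5) (nat_lit 95892) (nat_lit 15) (node (nat_lit 6) (nat_lit 96809) (nat_lit 16) nil nil)
  nil)) (node (nat_lit 0) (nat_lit 94429) (nat_lit 14) nil nil)))) nil)) (node (nat_lit 0)
  (nat_lit 89996) (nat_lit 12) (node (nat_lit 6) (nat_lit 91512) (nat_lit 13) (node (nat_lit 5)
  (nat_lit 94083) (nat_lit 14) (node (nat_lit 6) (nat_lit 96390) (nat_lit 15) (node (nat_lit 4)
  (nat_lit 97307) (nat_lit 16) nil nil) (node (nat_lit 4) (nat_lit 94023) (nat_lit 15) nil nil))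
  (node (nat_lit 4) (nat_lit 92501) (nat_lit 14) (node (nat_lit 6) (nat_lit 93281) (nat_lit 15)
  (node (nat_lit 5) (nat_lit 93220) (nat_lit 16) nil nil) (node (nat_lit 5) (nat_lit 93677)
  (nat_lit 15) nil nil)) (node (nat_lit 15) (nat_lit 93605) (nat_lit 14) nil nil))) (node (nat_lit
  4) (nat_lit 91227) (nat_lit 13) (node (nat_lit 6) (nat_lit 93713) (nat_lit 14) (node (nat_lit 4)
  (nat_lit 96020) (nat_lit 15) (node (nat_lit 5) (nat_lit 96937) (nat_lit 16) nil nil) (node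
  (nat_lit 5) (nat_lit 94365) (nat_lit 15) (node (nat_lit 4) (nat_lit 94340) (nat_lit 16) nil nil)
  nil)) (node (nat_lit 5) (nat_lit 93642) (nat_lit 14) (node (nat_lit 4) (nat_lit 94493) (nat_lit
  15) (node (nat_lit 6) (nat_lit 94449) (nat_lit 16) nil nil) (node (nat_lit 6) (nat_lit 93772)
  (nat_lit 15) nil nil)) (node (nat_lit 15) (nat_lit 93320) (nat_lit 14) nil nil))) (node (nat_lit
  5) (nat_lit 91576) (nat_lit 13) (node (nat_lit 4) (nat_lit 93735) (nat_lit 14) (node (nat_lit 6)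
  (nat_lit 95759) (nat_lit 15) (node (nat_lit 5) (nat_lit 94142) (nat_lit 16) nil (node (nat_lit
  4) (nat_lit 96676) (nat_lit 16) nil nil)) (node (nat_lit 5) (nat_lit 95327) (nat_lit 15) nil
  nil)) (node (nat_lit 6) (nat_lit 94371) (nat_lit 14) (node (nat_lit 4) (nat_lit 95963) (nat_lit
  15) nil (node (nat_lit 5) (nat_lit 96065) (nat_lit 15) nil nil)) (node (nat_lit 0) (nat_lit
  93669) (nat_lit 14) nil nil))) (node (nat_lit 0) (nat_lit 93429) (nat_lit 13) nil nil)))) nil)))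
  (node (nat_lit 0) (nat_lit 84350) (nat_lit 11) (node (nat_lit 6) (nat_lit 86401) (nat_lit 12)
  (node (nat_lit 5) (nat_lit 90168) (nat_lit 13) (node (nat_lit 4) (nat_lit 93524) (nat_lit 14)
  (node (nat_lit 6) (nat_lit 92648) (nat_lit 15) nil (node (nat_lit 5) (nat_lit 94700) (nat_lit
  15) nil nil)) (node (nat_lit 6) (nat_lit 92591) (nat_lit 14) nil nil)) (node (nat_lit 4)
  (nat_lit 89383) (nat_lit 13) (node (nat_lit 5) (nat_lit 90610) (nat_lit 14) (node (nat_lit 4)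
  (nat_lit 90550) (nat_lit 15) nil (node (nat_lit 6) (nat_lit 90740) (nat_lit 15) nil nil)) (node
  (nat_lit 6) (nat_lit 90786) (nat_lit 14) (node (nat_lit 5) (nat_lit 89331) (nat_lit 15) nil nil)
  nil)) (node (nat_lit 0) (nat_lit 89084) (nat_lit 13) nil nil))) (node (nat_lit 4) (nat_lit
  86301) (nat_lit 12) (node (nat_lit 5) (nat_lit 89016) (nat_lit 13) (node (nat_lit 4) (nat_lit
  89747) (nat_lit 14) (node (nat_lit 6) (nat_lit 89682) (nat_lit 15) nil nil) (node (nat_lit 6)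
  (nat_lit 91716) (nat_lit 14) (node (nat_lit 4) (nat_lit 92892) (nat_lit 15) nil nil) nil)) (node
  (nat_lit 6) (nat_lit 89814) (nat_lit 13) (node (nat_lit 4) (nat_lit 93076) (nat_lit 14) (node
  (nat_lit 5) (nat_lit 94252) (nat_lit 15) nil nil) (node (nat_lit 5) (nat_lit 90604) (nat_lit 14)
  nil nil)) (node (nat_lit 14) (nat_lit 91076) (nat_lit 13) nil nil))) (node (nat_lit 5) (nat_lit
  86643) (nat_lit 12) (node (nat_lit 6) (nat_lit 90156) (nat_lit 13) (node (nat_lit 5) (nat_lit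
  92945) (nat_lit 14) (node (nat_lit 4) (nat_lit 93602) (nat_lit 15) nil nil) (node (nat_lit 4)
  (nat_lit 92180) (nat_lit 14) nil nil)) (node (nat_lit 4) (nat_lit 90022) (nat_lit 13) (node
  (nat_lit 6) (nat_lit 90979) (nat_lit 14) (node (nat_lit 5) (nat_lit 90888) (nat_lit 15) nil nil)
  (node (nat_lit 5) (nat_lit 92446) (nat_lit 14) (node (nat_lit 6) (nat_lit 92576) (nat_lit 15)
  nil nil) nil)) (node (nat_lit 14) (nat_lit 92626) (nat_lit 13) nil nil))) (node (nat_lit 0)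
  (nat_lit 89156) (nat_lit 12) nil nil)))) nil)) (node (nat_lit 0) (nat_lit 0) (nat_lit 10) (node
  (nat_lit 6) (nat_lit 79880) (nat_lit 11) (node (nat_lit 4) (nat_lit 84208) (nat_lit 12) (node
  (nat_lit 6) (nat_lit 88045) (nat_lit 13) (node (nat_lit 5) (nat_lit 87075) (nat_lit 14) (node
  (nat_lit 4) (nat_lit 89297) (nat_lit 15) (node (nat_lit 5) (nat_lit 89545) (nat_lit 16) (node
  (nat_lit 6) (nat_lit 88773) (nat_lit 17) nil nil) nil) (node (nat_lit 6) (nat_lit 88723)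
  (nat_lit 15) nil nil)) nil) (node (nat_lit 5) (nat_lit 87350) (nat_lit 13) (node (nat_lit 4)
  (nat_lit 89127) (nat_lit 14) (node (nat_lit 6) (nat_lit 89062) (nat_lit 15) nil nil) (node
  (nat_lit 6) (nat_lit 87491) (nat_lit 14) nil nil)) (node (nat_lit 13) (nat_lit 88819) (nat_lit
  13) nil nil))) (node (nat_lit 5) (nat_lit 84550) (nat_lit 12) (node (nat_lit 4) (nat_lit 89857)
  (nat_lit 13) (node (nat_lit 6) (nat_lit 92542) (nat_lit 14) (node (nat_lit 4) (nat_lit 91721)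
  (nat_lit 15) (node (nat_lit 5) (nat_lit 92171) (nat_lit 16) nil nil) nil) (node (nat_lit 5)
  (nat_lit 91880) (nat_lit 14) nil nil)) (node (nat_lit 6) (nat_lit 88739) (nat_lit 13) (node
  (nat_lit 4) (nat_lit 91162) (nat_lit 14) (node (nat_lit 5) (nat_lit 92338) (nat_lit 15) nil nil)
  nil) nil)) (node (nat_lit 13) (nat_lit 88990) (nat_lit 12) (node (nat_lit 4) (nat_lit 88990)
  (nat_lit 13) nil nil) (node (nat_lit 0) (nat_lit 83316) (nat_lit 12) nil nil)))) (node (nat_lit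
  5) (nat_lit 79252) (nat_lit 11) (node (nat_lit 6) (nat_lit 84112) (nat_lit 12) (node (nat_lit 4)
  (nat_lit 86479) (nat_lit 13) (node (nat_lit 6) (nat_lit 88654) (nat_lit 14) (node (nat_lit 5)
  (nat_lit 88563) (nat_lit 15) (node (nat_lit 4) (nat_lit 89060) (nat_lit 16) nil nil) nil) (node
  (nat_lit 5) (nat_lit 87706) (nat_lit 14) nil nil)) (node (nat_lit 5) (nat_lit 88326) (nat_lit
  13) (node (nat_lit 4) (nat_lit 90158) (nat_lit 14) (node (nat_lit 6) (nat_lit 89281) (nat_lit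
  15) nil (node (nat_lit 5) (nat_lit 91334) (nat_lit 15) nil nil)) nil) nil)) (node (nat_lit 4)
  (nat_lit 83578) (nat_lit 12) (node (nat_lit 6) (nat_lit 89684) (nat_lit 13) (node (nat_lit 4)
  (nat_lit 92714) (nat_lit 14) (node (nat_lit 5) (nat_lit 93890) (nat_lit 15) nil nil) (node
  (nat_lit 5) (nat_lit 89531) (nat_lit 14) nil nil)) (node (nat_lit 5) (nat_lit 88885) (nat_lit
  13) (node (nat_lit 6) (nat_lit 92379) (nat_lit 14) (node (nat_lit 5) (nat_lit 91502) (nat_lit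
  15) nil (node (nat_lit 4) (nat_lit 93555) (nat_lit 15) nil nil)) nil) nil)) (node (nat_lit 13)
  (nat_lit 88434) (nat_lit 12) (node (nat_lit 4) (nat_lit 88434) (nat_lit 13) nil nil) (node
  (nat_lit 0) (nat_lit 82687) (nat_lit 12) nil nil)))) (node (nat_lit 4) (nat_lit 78967) (nat_lit
  11) (node (nat_lit 6) (nat_lit 83826) (nat_lit 12) (node (nat_lit 5) (nat_lit 89520) (nat_lit
  13) (node (nat_lit 4) (nat_lit 92794) (nat_lit 14) nil (node (nat_lit 6) (nat_lit 92595)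
  (nat_lit 14) (node (nat_lit 4) (nat_lit 91903) (nat_lit 15) (node (nat_lit 5) (nat_lit 91875)
  (nat_lit 16) nil nil) nil) nil)) (node (nat_lit 4) (nat_lit 88740) (nat_lit 13) nil nil)) (node
  (nat_lit 5) (nat_lit 83636) (nat_lit 12) (node (nat_lit 6) (nat_lit 89510) (nat_lit 13) (node
  (nat_lit 5) (nat_lit 91976) (nat_lit 14) (node (nat_lit 4) (nat_lit 92572) (nat_lit 15) nil nil)
  (node (nat_lit 4) (nat_lit 91533) (nat_lit 14) nil nil)) (node (nat_lit 4) (nat_lit 87130)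
  (nat_lit 13) nil nil)) nil)) (node (nat_lit 0) (nat_lit 82766) (nat_lit 11) (node (nat_lit 13)
  (nat_lit 86655) (nat_lit 12) nil (node (nat_lit 4) (nat_lit 82486) (nat_lit 12) nil nil))
  nil)))) nil))

noncomputable def t269 : Tr :=
  (node (nat_lit 4) (nat_lit 0) (nat_lit 7) (node (nat_lit 5) (nat_lit 0) (nat_lit 8) (node
  (nat_lit 4) (nat_lit 0) (nat_lit 9) t268 (node (nat_lit 6) (nat_lit 0) (nat_lit 9) (node
  (nat_lit 4) (nat_lit 0) (nat_lit 10) (node (nat_lit 6) (nat_lit 0) (nat_lit 11) (node (nat_lit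
  5) (nat_lit 0) (nat_lit 12) (node (nat_lit 4) (nat_lit 0) (nat_lit 13) (node (nat_lit 5)
  (nat_lit 0) (nat_lit 14) (node (nat_lit 6) (nat_lit 0) (nat_lit 15) (node (nat_lit 5) (nat_lit
  84979) (nat_lit 16) (node (nat_lit 4) (nat_lit 81895) (nat_lit 17) (node (nat_lit 6) (nat_lit
  74866) (nat_lit 18) (node (nat_lit 4) (nat_lit 48009) (nat_lit 19) (node (nat_lit 5) (nat_lit
  46594) (nat_lit 20) (node (nat_lit 6) (nat_lit 30609) (nat_lit 21) (node (nat_lit 4) (nat_lit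
  30725) (nat_lit 22) (node (nat_lit 6) (nat_lit 30815) (nat_lit 23) nil nil) (node (nat_lit 5)
  (nat_lit 30796) (nat_lit 22) (node (nat_lit 4) (nat_lit 30941) (nat_lit 23) nil nil) nil)) (node
  (nat_lit 4) (nat_lit 46592) (nat_lit 21) nil nil)) nil) (node (nat_lit 5) (nat_lit 75017)
  (nat_lit 19) nil nil)) nil) nil) (node (nat_lit 4) (nat_lit 84637) (nat_lit 16) (node (nat_lit
  5) (nat_lit 85849) (nat_lit 17) (node (nat_lit 4) (nat_lit 85844) (nat_lit 18) (node (nat_lit 6)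
  (nat_lit 85756) (nat_lit 19) nil nil) nil) nil) (node (nat_lit 0) (nat_lit 85093) (nat_lit 16)
  nil nil))) (node (nat_lit 0) (nat_lit 83781) (nat_lit 15) nil nil)) (node (nat_lit 6) (nat_lit
  0) (nat_lit 14) (node (nat_lit 4) (nat_lit 0) (nat_lit 15) (node (nat_lit 5) (nat_lit 84208)
  (nat_lit 16) (node (nat_lit 6) (nat_lit 85298) (nat_lit 17) (node (nat_lit 5) (nat_lit 85115)
  (nat_lit 18) (node (nat_lit 4) (nat_lit 85583) (nat_lit 19) (node (nat_lit 6) (nat_lit 85829)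
  (nat_lit 20) (node (nat_lit 4) (nat_lit 86185) (nat_lit 21) nil nil) nil) nil) nil) (node
  (nat_lit 4) (nat_lit 85475) (nat_lit 17) (node (nat_lit 6) (nat_lit 86149) (nat_lit 18) (node
  (nat_lit 5) (nat_lit 86149) (nat_lit 19) nil nil) nil) nil)) (node (nat_lit 0) (nat_lit 84851)
  (nat_lit 16) nil nil)) (node (nat_lit 0) (nat_lit 83046) (nat_lit 15) nil nil)) (node (nat_lit
  0) (nat_lit 82585) (nat_lit 14) (node (nat_lit 4) (nat_lit 82585) (nat_lit 15) nil (node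
  (nat_lit 5) (nat_lit 82585) (nat_lit 15) nil (node (nat_lit 6) (nat_lit 82585) (nat_lit 15) nil
  nil))) nil))) (node (nat_lit 6) (nat_lit 0) (nat_lit 13) (node (nat_lit 4) (nat_lit 0) (nat_lit
  14) (node (nat_lit 5) (nat_lit 82612) (nat_lit 15) (node (nat_lit 6) (nat_lit 84391) (nat_lit
  16) (node (nat_lit 5) (nat_lit 84689) (nat_lit 17) (node (nat_lit 4) (nat_lit 80644) (nat_lit
  18) (node (nat_lit 6) (nat_lit 73014) (nat_lit 19) (node (nat_lit 4) (nat_lit 63298) (nat_lit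
  20) (node (nat_lit 5) (nat_lit 57146) (nat_lit 21) (node (nat_lit 6) (nat_lit 57060) (nat_lit
  22) (node (nat_lit 4) (nat_lit 57132) (nat_lit 23) (node (nat_lit 6) (nat_lit 57080) (nat_lit
  24) (node (nat_lit 5) (nat_lit 57071) (nat_lit 25) nil nil) nil) nil) nil) nil) nil) (node
  (nat_lit 5) (nat_lit 81322) (nat_lit 19) (node (nat_lit 6) (nat_lit 81726) (nat_lit 20) nil nil)
  nil)) nil) nil) (node (nat_lit 4) (nat_lit 84428) (nat_lit 16) (node (nat_lit 6) (nat_lit 85438)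
  (nat_lit 17) (node (nat_lit 4) (nat_lit 86381) (nat_lit 18) (node (nat_lit 5) (nat_lit 86965)
  (nat_lit 19) (node (nat_lit 6) (nat_lit 87131) (nat_lit 20) (node (nat_lit 4) (nat_lit 87397)
  (nat_lit 21) nil nil) nil) nil) (node (nat_lit 5) (nat_lit 84504) (nat_lit 18) nil nil)) nil)
  nil)) (node (nat_lit 0) (nat_lit 82736) (nat_lit 15) nil nil)) (node (nat_lit 0) (nat_lit 82275)
  (nat_lit 14) nil nil)) (node (nat_lit 0) (nat_lit 80153) (nat_lit 13) (node (nat_lit 4) (nat_lit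
  80153) (nat_lit 14) nil (node (nat_lit 6) (nat_lit 80153) (nat_lit 14) nil (node (nat_lit 5)
  (nat_lit 80153) (nat_lit 14) nil nil))) nil))) (node (nat_lit 0) (nat_lit 75934) (nat_lit 12)
  (node (nat_lit 4) (nat_lit 76647) (nat_lit 13) (node (nat_lit 6) (nat_lit 77303) (nat_lit 14)
  nil (node (nat_lit 5) (nat_lit 76757) (nat_lit 14) (node (nat_lit 6) (nat_lit 76887) (nat_lit
  15) nil nil) nil)) (node (nat_lit 5) (nat_lit 76892) (nat_lit 13) (node (nat_lit 6) (nat_lit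
  77930) (nat_lit 14) (node (nat_lit 5) (nat_lit 79106) (nat_lit 15) nil nil) (node (nat_lit 4)
  (nat_lit 77001) (nat_lit 14) (node (nat_lit 6) (nat_lit 77131) (nat_lit 15) nil nil) nil)) (node
  (nat_lit 6) (nat_lit 76813) (nat_lit 13) (node (nat_lit 4) (nat_lit 76923) (nat_lit 14) nil
  (node (nat_lit 5) (nat_lit 77852) (nat_lit 14) nil nil)) nil))) nil)) (node (nat_lit 0) (nat_lit
  71346) (nat_lit 11) (node (nat_lit 4) (nat_lit 72257) (nat_lit 12) (node (nat_lit 6) (nat_lit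
  73070) (nat_lit 13) nil (node (nat_lit 5) (nat_lit 73580) (nat_lit 13) nil nil)) (node (nat_lit
  6) (nat_lit 72459) (nat_lit 12) (node (nat_lit 4) (nat_lit 72971) (nat_lit 13) (node (nat_lit 6)
  (nat_lit 73112) (nat_lit 14) nil nil) (node (nat_lit 5) (nat_lit 73791) (nat_lit 13) nil (node
  (nat_lit 14) (nat_lit 75141) (nat_lit 13) nil nil))) (node (nat_lit 5) (nat_lit 72547) (nat_lit
  12) (node (nat_lit 4) (nat_lit 73073) (nat_lit 13) nil (node (nat_lit 6) (nat_lit 73880)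
  (nat_lit 13) nil (node (nat_lit 14) (nat_lit 75229) (nat_lit 13) nil nil))) (node (nat_lit 0)
  (nat_lit 72853) (nat_lit 12) nil nil)))) nil)) (node (nat_lit 5) (nat_lit 0) (nat_lit 10) (node
  (nat_lit 4) (nat_lit 0) (nat_lit 11) (node (nat_lit 5) (nat_lit 0) (nat_lit 12) (node (nat_lit
  6) (nat_lit 51586) (nat_lit 13) (node (nat_lit 4) (nat_lit 53092) (nat_lit 14) (node (nat_lit 6)
  (nat_lit 54512) (nat_lit 15) (node (nat_lit 5) (nat_lit 55616) (nat_lit 16) (node (nat_lit 4)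
  (nat_lit 56481) (nat_lit 17) (node (nat_lit 5) (nat_lit 53992) (nat_lit 18) (node (nat_lit 6)
  (nat_lit 53765) (nat_lit 19) (node (nat_lit 5) (nat_lit 53456) (nat_lit 20) (node (nat_lit 4)
  (nat_lit 51990) (nat_lit 21) (node (nat_lit 6) (nat_lit 50259) (nat_lit 22) (node (nat_lit 4)
  (nat_lit 48293) (nat_lit 23) (node (nat_lit 5) (nat_lit 43328) (nat_lit 24) (node (nat_lit 6)
  (nat_lit 36912) (nat_lit 25) (node (nat_lit 5) (nat_lit 21846) (nat_lit 26) (node (nat_lit 4)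
  (nat_lit 7884) (nat_lit 27) nil nil) nil) nil) nil) nil) nil) nil) nil) nil) (node (nat_lit 6)
  (nat_lit 56925) (nat_lit 18) (node (nat_lit 4) (nat_lit 57119) (nat_lit 19) nil nil) nil)) (node
  (nat_lit 6) (nat_lit 55935) (nat_lit 17) (node (nat_lit 4) (nat_lit 56182) (nat_lit 18) (node
  (nat_lit 5) (nat_lit 56376) (nat_lit 19) nil nil) nil) nil)) nil) (node (nat_lit 5) (nat_lit
  53833) (nat_lit 15) (node (nat_lit 4) (nat_lit 54634) (nat_lit 16) (node (nat_lit 6) (nat_lit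
  54592) (nat_lit 17) (node (nat_lit 4) (nat_lit 54839) (nat_lit 18) (node (nat_lit 5) (nat_lit
  55033) (nat_lit 19) (node (nat_lit 6) (nat_lit 54895) (nat_lit 20) (node (nat_lit 5) (nat_lit
  54870) (nat_lit 21) (node (nat_lit 4) (nat_lit 54918) (nat_lit 22) (node (nat_lit 6) (nat_lit
  54990) (nat_lit 23) (node (nat_lit 4) (nat_lit 55047) (nat_lit 24) (node (nat_lit 5) (nat_lit
  55091) (nat_lit 25) nil nil) nil) nil) nil) nil) nil) nil) nil) nil) nil) nil)) nil) (node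
  (nat_lit 0) (nat_lit 51307) (nat_lit 13) nil nil)) (node (nat_lit 0) (nat_lit 50957) (nat_lit
  12) nil nil)) (node (nat_lit 0) (nat_lit 71542) (nat_lit 11) (node (nat_lit 5) (nat_lit 71518)
  (nat_lit 12) nil (node (nat_lit 4) (nat_lit 71658) (nat_lit 12) (node (nat_lit 5) (nat_lit
  71658) (nat_lit 13) nil (node (nat_lit 6) (nat_lit 71658) (nat_lit 13) nil nil)) (node (nat_lit
  6) (nat_lit 71518) (nat_lit 12) nil nil))) nil)) (node (nat_lit 0) (nat_lit 66243) (nat_lit 10)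
  (node (nat_lit 4) (nat_lit 67401) (nat_lit 11) (node (nat_lit 6) (nat_lit 68412) (nat_lit 12)
  (node (nat_lit 4) (nat_lit 70340) (nat_lit 13) nil nil) (node (nat_lit 5) (nat_lit 69083)
  (nat_lit 12) (node (nat_lit 6) (nat_lit 69252) (nat_lit 13) nil nil) (node (nat_lit 13) (nat_lit
  70836) (nat_lit 12) nil nil))) (node (nat_lit 5) (nat_lit 67799) (nat_lit 11) (node (nat_lit 6)
  (nat_lit 69074) (nat_lit 12) (node (nat_lit 5) (nat_lit 71002) (nat_lit 13) nil (node (nat_lit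
  4) (nat_lit 71002) (nat_lit 13) nil nil)) (node (nat_lit 4) (nat_lit 67913) (nat_lit 12) (node
  (nat_lit 6) (nat_lit 68081) (nat_lit 13) nil nil) (node (nat_lit 13) (nat_lit 71234) (nat_lit
  12) nil nil))) (node (nat_lit 6) (nat_lit 68065) (nat_lit 11) (node (nat_lit 4) (nat_lit 68301)
  (nat_lit 12) (node (nat_lit 5) (nat_lit 70229) (nat_lit 13) nil nil) (node (nat_lit 5) (nat_lit
  71194) (nat_lit 12) (node (nat_lit 4) (nat_lit 71042) (nat_lit 13) nil nil) nil)) (node (nat_lit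
  0) (nat_lit 69877) (nat_lit 11) nil nil)))) nil))) (node (nat_lit 0) (nat_lit 67744) (nat_lit 9)
  (node (nat_lit 6) (nat_lit 71580) (nat_lit 10) (node (nat_lit 4) (nat_lit 75963) (nat_lit 11)
  (node (nat_lit 5) (nat_lit 77855) (nat_lit 12) nil (node (nat_lit 6) (nat_lit 78326) (nat_lit
  12) nil nil)) (node (nat_lit 5) (nat_lit 77100) (nat_lit 11) (node (nat_lit 4) (nat_lit 82988)
  (nat_lit 12) nil (node (nat_lit 6) (nat_lit 81950) (nat_lit 12) nil nil)) nil)) (node (nat_lit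
  4) (nat_lit 70948) (nat_lit 10) (node (nat_lit 6) (nat_lit 76981) (nat_lit 11) (node (nat_lit 5)
  (nat_lit 81216) (nat_lit 12) nil (node (nat_lit 4) (nat_lit 79456) (nat_lit 12) nil nil)) (node
  (nat_lit 5) (nat_lit 76705) (nat_lit 11) (node (nat_lit 6) (nat_lit 81124) (nat_lit 12) nil
  (node (nat_lit 4) (nat_lit 81262) (nat_lit 12) nil nil)) (node (nat_lit 12) (nat_lit 79465)
  (nat_lit 11) nil nil))) (node (nat_lit 5) (nat_lit 71161) (nat_lit 10) (node (nat_lit 4)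
  (nat_lit 76572) (nat_lit 11) (node (nat_lit 6) (nat_lit 81610) (nat_lit 12) nil (node (nat_lit
  5) (nat_lit 79047) (nat_lit 12) nil nil)) (node (nat_lit 6) (nat_lit 77195) (nat_lit 11) (node
  (nat_lit 4) (nat_lit 81176) (nat_lit 12) nil (node (nat_lit 5) (nat_lit 79669) (nat_lit 12) nil
  nil)) nil)) nil))) nil))) nil) (node (nat_lit 5) (nat_lit 0) (nat_lit 7) (node (nat_lit 6)
  (nat_lit 0) (nat_lit 8) (node (nat_lit 4) (nat_lit 0) (nat_lit 9) (node (nat_lit 5) (nat_lit 0)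
  (nat_lit 10) (node (nat_lit 4) (nat_lit 0) (nat_lit 11) (node (nat_lit 6) (nat_lit 0) (nat_lit
  12) (node (nat_lit 4) (nat_lit 0) (nat_lit 13) (node (nat_lit 5) (nat_lit 125123) (nat_lit 14)
  (node (nat_lit 6) (nat_lit 128518) (nat_lit 15) (node (nat_lit 5) (nat_lit 130496) (nat_lit 16)
  (node (nat_lit 4) (nat_lit 131028) (nat_lit 17) (node (nat_lit 6) (nat_lit 121696) (nat_lit 18)
  (node (nat_lit 5) (nat_lit 101441) (nat_lit 19) (node (nat_lit 6) (nat_lit 97495) (nat_lit 20)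
  (node (nat_lit 4) (nat_lit 74455) (nat_lit 21) (node (nat_lit 5) (nat_lit 73792) (nat_lit 22)
  (node (nat_lit 4) (nat_lit 57807) (nat_lit 23) nil nil) (node (nat_lit 6) (nat_lit 74485)
  (nat_lit 22) nil nil)) nil) nil) nil) (node (nat_lit 5) (nat_lit 131897) (nat_lit 18) (node
  (nat_lit 6) (nat_lit 132413) (nat_lit 19) nil nil) nil)) nil) (node (nat_lit 4) (nat_lit 129810)
  (nat_lit 16) (node (nat_lit 6) (nat_lit 131274) (nat_lit 17) (node (nat_lit 5) (nat_lit 131847)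
  (nat_lit 18) (node (nat_lit 6) (nat_lit 132469) (nat_lit 19) (node (nat_lit 4) (nat_lit 132883)
  (nat_lit 20) (node (nat_lit 5) (nat_lit 132775) (nat_lit 21) (node (nat_lit 6) (nat_lit 132589)
  (nat_lit 22) (node (nat_lit 5) (nat_lit 132267) (nat_lit 23) (node (nat_lit 4) (nat_lit 132239)
  (nat_lit 24) (node (nat_lit 6) (nat_lit 131377) (nat_lit 25) nil nil) nil) nil) nil) nil) nil)
  (node (nat_lit 4) (nat_lit 131970) (nat_lit 19) (node (nat_lit 5) (nat_lit 131933) (nat_lit 20)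
  (node (nat_lit 6) (nat_lit 131781) (nat_lit 21) (node (nat_lit 5) (nat_lit 131624) (nat_lit 22)
  nil nil) nil) nil) nil)) nil) nil) nil)) nil) (node (nat_lit 0) (nat_lit 124525) (nat_lit 14)
  nil nil)) (node (nat_lit 5) (nat_lit 0) (nat_lit 13) (node (nat_lit 4) (nat_lit 124908) (nat_lit
  14) (node (nat_lit 5) (nat_lit 127698) (nat_lit 15) (node (nat_lit 6) (nat_lit 129870) (nat_lit
  16) (node (nat_lit 5) (nat_lit 130610) (nat_lit 17) (node (nat_lit 4) (nat_lit 127156) (nat_lit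
  18) (node (nat_lit 6) (nat_lit 120390) (nat_lit 19) (node (nat_lit 5) (nat_lit 103253) (nat_lit
  20) (node (nat_lit 6) (nat_lit 99679) (nat_lit 21) (node (nat_lit 4) (nat_lit 88937) (nat_lit
  22) (node (nat_lit 5) (nat_lit 74357) (nat_lit 23) (node (nat_lit 4) (nat_lit 74299) (nat_lit
  24) (node (nat_lit 6) (nat_lit 74321) (nat_lit 25) nil nil) nil) nil) nil) nil) nil) nil) nil)
  nil) nil) nil) (node (nat_lit 6) (nat_lit 0) (nat_lit 14) (node (nat_lit 0) (nat_lit 125460)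
  (nat_lit 15) nil nil) (node (nat_lit 0) (nat_lit 124059) (nat_lit 14) nil nil))) (node (nat_lit
  0) (nat_lit 124267) (nat_lit 13) (node (nat_lit 6) (nat_lit 124267) (nat_lit 14) nil (node
  (nat_lit 4) (nat_lit 124267) (nat_lit 14) nil (node (nat_lit 5) (nat_lit 124267) (nat_lit 14)
  nil nil))) nil))) (node (nat_lit 0) (nat_lit 119540) (nat_lit 12) (node (nat_lit 6) (nat_lit
  119540) (nat_lit 13) nil (node (nat_lit 5) (nat_lit 119540) (nat_lit 13) nil nil)) nil)) (node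
  (nat_lit 6) (nat_lit 0) (nat_lit 11) (node (nat_lit 5) (nat_lit 0) (nat_lit 12) (node (nat_lit
  4) (nat_lit 0) (nat_lit 13) (node (nat_lit 6) (nat_lit 0) (nat_lit 14) (node (nat_lit 4)
  (nat_lit 112134) (nat_lit 15) (node (nat_lit 5) (nat_lit 113809) (nat_lit 16) (node (nat_lit 6)
  (nat_lit 115151) (nat_lit 17) (node (nat_lit 4) (nat_lit 115838) (nat_lit 18) (node (nat_lit 6)
  (nat_lit 115903) (nat_lit 19) (node (nat_lit 5) (nat_lit 115717) (nat_lit 20) nil nil) nil) nil)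
  (node (nat_lit 4) (nat_lit 114607) (nat_lit 17) (node (nat_lit 6) (nat_lit 113760) (nat_lit 18)
  nil nil) nil)) nil) (node (nat_lit 5) (nat_lit 53916) (nat_lit 15) nil (node (nat_lit 0)
  (nat_lit 112430) (nat_lit 15) nil nil))) (node (nat_lit 5) (nat_lit 109883) (nat_lit 14) (node
  (nat_lit 6) (nat_lit 112562) (nat_lit 15) (node (nat_lit 4) (nat_lit 114519) (nat_lit 16) (node
  (nat_lit 6) (nat_lit 115021) (nat_lit 17) (node (nat_lit 5) (nat_lit 114087) (nat_lit 18) nil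
  nil) (node (nat_lit 5) (nat_lit 115488) (nat_lit 17) (node (nat_lit 4) (nat_lit 115483) (nat_lit
  18) nil nil) nil)) nil) nil) (node (nat_lit 0) (nat_lit 109792) (nat_lit 14) nil nil))) (node
  (nat_lit 0) (nat_lit 109024) (nat_lit 13) nil nil)) (node (nat_lit 0) (nat_lit 104175) (nat_lit
  12) (node (nat_lit 4) (nat_lit 104272) (nat_lit 13) nil (node (nat_lit 5) (nat_lit 104261)
  (nat_lit 13) nil (node (nat_lit 6) (nat_lit 104175) (nat_lit 13) nil nil))) nil)) (node (nat_lit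
  0) (nat_lit 115190) (nat_lit 11) (node (nat_lit 5) (nat_lit 115190) (nat_lit 12) nil (node
  (nat_lit 6) (nat_lit 116045) (nat_lit 12) (node (nat_lit 5) (nat_lit 116045) (nat_lit 13) nil
  (node (nat_lit 4) (nat_lit 116045) (nat_lit 13) nil nil)) (node (nat_lit 4) (nat_lit 114911)
  (nat_lit 12) (node (nat_lit 5) (nat_lit 114911) (nat_lit 13) nil (node (nat_lit 6) (nat_lit
  114911) (nat_lit 13) nil nil)) nil))) nil))) (node (nat_lit 6) (nat_lit 0) (nat_lit 10) (node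
  (nat_lit 5) (nat_lit 121491) (nat_lit 11) (node (nat_lit 4) (nat_lit 128703) (nat_lit 12) (node
  (nat_lit 5) (nat_lit 133939) (nat_lit 13) (node (nat_lit 6) (nat_lit 136991) (nat_lit 14) (node
  (nat_lit 4) (nat_lit 138646) (nat_lit 15) (node (nat_lit 5) (nat_lit 140442) (nat_lit 16) (node
  (nat_lit 4) (nat_lit 141807) (nat_lit 17) (node (nat_lit 6) (nat_lit 142549) (nat_lit 18) (node
  (nat_lit 4) (nat_lit 143066) (nat_lit 19) (node (nat_lit 5) (nat_lit 143103) (nat_lit 20) (node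
  (nat_lit 6) (nat_lit 142796) (nat_lit 21) (node (nat_lit 5) (nat_lit 142574) (nat_lit 22) (node
  (nat_lit 4) (nat_lit 142651) (nat_lit 23) (node (nat_lit 6) (nat_lit 141640) (nat_lit 24) (node
  (nat_lit 5) (nat_lit 141010) (nat_lit 25) (node (nat_lit 6) (nat_lit 138638) (nat_lit 26) (node
  (nat_lit 4) (nat_lit 135938) (nat_lit 27) (node (nat_lit 6) (nat_lit 132059) (nat_lit 28) (node
  (nat_lit 5) (nat_lit 123473) (nat_lit 29) (node (nat_lit 4) (nat_lit 110162) (nat_lit 30) (node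
  (nat_lit 5) (nat_lit 96171) (nat_lit 31) (node (nat_lit 6) (nat_lit 85211) (nat_lit 32) (node
  (nat_lit 4) (nat_lit 85229) (nat_lit 33) nil nil) nil) nil) nil) nil) nil) nil) nil) nil) nil)
  nil) nil) nil) nil) (node (nat_lit 5) (nat_lit 142549) (nat_lit 19) (node (nat_lit 4) (nat_lit
  143000) (nat_lit 20) (node (nat_lit 5) (nat_lit 142974) (nat_lit 21) nil nil) nil) nil)) nil)
  nil) nil) (node (nat_lit 5) (nat_lit 133812) (nat_lit 15) (node (nat_lit 4) (nat_lit 130372)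
  (nat_lit 16) (node (nat_lit 6) (nat_lit 111421) (nat_lit 17) (node (nat_lit 5) (nat_lit 101835)
  (nat_lit 18) (node (nat_lit 6) (nat_lit 86598) (nat_lit 19) (node (nat_lit 4) (nat_lit 86705)
  (nat_lit 20) (node (nat_lit 6) (nat_lit 86853) (nat_lit 21) nil nil) nil) nil) (node (nat_lit 4)
  (nat_lit 112087) (nat_lit 18) (node (nat_lit 5) (nat_lit 112147) (nat_lit 19) nil nil) nil))
  nil) nil) nil)) nil) (node (nat_lit 6) (nat_lit 133357) (nat_lit 13) (node (nat_lit 4) (nat_lit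
  136770) (nat_lit 14) (node (nat_lit 5) (nat_lit 138856) (nat_lit 15) (node (nat_lit 6) (nat_lit
  139854) (nat_lit 16) (node (nat_lit 5) (nat_lit 140854) (nat_lit 17) (node (nat_lit 4) (nat_lit
  141663) (nat_lit 18) (node (nat_lit 6) (nat_lit 136064) (nat_lit 19) (node (nat_lit 5) (nat_lit
  128221) (nat_lit 20) (node (nat_lit 6) (nat_lit 109273) (nat_lit 21) (node (nat_lit 4) (nat_lit
  97937) (nat_lit 22) (node (nat_lit 6) (nat_lit 52832) (nat_lit 23) (node (nat_lit 5) (nat_lit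
  52821) (nat_lit 24) (node (nat_lit 4) (nat_lit 52845) (nat_lit 25) nil nil) nil) nil) nil) nil)
  nil) nil) nil) nil) nil) nil) nil) nil)) (node (nat_lit 0) (nat_lit 127400) (nat_lit 12) nil
  nil)) (node (nat_lit 0) (nat_lit 126636) (nat_lit 11) nil nil)) (node (nat_lit 0) (nat_lit
  119126) (nat_lit 10) (node (nat_lit 6) (nat_lit 122033) (nat_lit 11) (node (nat_lit 4) (nat_lit
  122926) (nat_lit 12) (node (nat_lit 5) (nat_lit 124855) (nat_lit 13) nil (node (nat_lit 6)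
  (nat_lit 123095) (nat_lit 13) nil nil)) (node (nat_lit 5) (nat_lit 124489) (nat_lit 12) nil
  nil)) (node (nat_lit 5) (nat_lit 122007) (nat_lit 11) (node (nat_lit 4) (nat_lit 123829)
  (nat_lit 12) (node (nat_lit 6) (nat_lit 123998) (nat_lit 13) nil nil) (node (nat_lit 6) (nat_lit
  123552) (nat_lit 12) nil nil)) (node (nat_lit 4) (nat_lit 121574) (nat_lit 11) (node (nat_lit 5)
  (nat_lit 120992) (nat_lit 12) nil (node (nat_lit 6) (nat_lit 122336) (nat_lit 12) (node (nat_lit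
  5) (nat_lit 122185) (nat_lit 13) nil nil) nil)) nil))) nil))) (node (nat_lit 0) (nat_lit 111072)
  (nat_lit 9) (node (nat_lit 4) (nat_lit 115107) (nat_lit 10) (node (nat_lit 6) (nat_lit 116706)
  (nat_lit 11) nil (node (nat_lit 5) (nat_lit 117009) (nat_lit 11) nil nil)) (node (nat_lit 6)
  (nat_lit 115153) (nat_lit 10) (node (nat_lit 4) (nat_lit 115733) (nat_lit 11) nil (node (nat_lit
  5) (nat_lit 117768) (nat_lit 11) nil nil)) (node (nat_lit 5) (nat_lit 115501) (nat_lit 10) (node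
  (nat_lit 6) (nat_lit 118543) (nat_lit 11) nil (node (nat_lit 4) (nat_lit 116491) (nat_lit 11)
  nil nil)) nil))) nil)) nil) nil))

noncomputable def t270 : Tr :=
  (node (nat_lit 5) (nat_lit 0) (nat_lit 9) (node (nat_lit 4) (nat_lit 0) (nat_lit 10) (node
  (nat_lit 6) (nat_lit 0) (nat_lit 11) (node (nat_lit 5) (nat_lit 0) (nat_lit 12) (node (nat_lit
  4) (nat_lit 0) (nat_lit 13) (node (nat_lit 5) (nat_lit 0) (nat_lit 14) (node (nat_lit 6)
  (nat_lit 0) (nat_lit 15) (node (nat_lit 5) (nat_lit 0) (nat_lit 16) (node (nat_lit 4) (nat_lit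
  0) (nat_lit 17) (node (nat_lit 6) (nat_lit 100464) (nat_lit 18) (node (nat_lit 4) (nat_lit 0)
  (nat_lit 19) (node (nat_lit 5) (nat_lit 100464) (nat_lit 20) (node (nat_lit 6) (nat_lit 100464)
  (nat_lit 21) (node (nat_lit 5) (nat_lit 100464) (nat_lit 22) (node (nat_lit 4) (nat_lit 100464)
  (nat_lit 23) (node (nat_lit 5) (nat_lit 100464) (nat_lit 24) (node (nat_lit 6) (nat_lit 100464)
  (nat_lit 25) (node (nat_lit 4) (nat_lit 100464) (nat_lit 26) (node (nat_lit 5) (nat_lit 99211)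
  (nat_lit 27) (node (nat_lit 4) (nat_lit 94802) (nat_lit 28) (node (nat_lit 6) (nat_lit 88329)
  (nat_lit 29) (node (nat_lit 5) (nat_lit 76398) (nat_lit 30) (node (nat_lit 4) (nat_lit 62918)
  (nat_lit 31) (node (nat_lit 5) (nat_lit 37272) (nat_lit 32) (node (nat_lit 6) (nat_lit 31905)
  (nat_lit 33) nil nil) nil) nil) nil) nil) nil) nil) nil) nil) nil) nil) (node (nat_lit 4)
  (nat_lit 100464) (nat_lit 22) nil nil)) nil) (node (nat_lit 0) (nat_lit 100464) (nat_lit 20) nil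
  nil)) (node (nat_lit 5) (nat_lit 100464) (nat_lit 19) (node (nat_lit 6) (nat_lit 100464)
  (nat_lit 20) (node (nat_lit 4) (nat_lit 100464) (nat_lit 21) (node (nat_lit 5) (nat_lit 100464)
  (nat_lit 22) (node (nat_lit 6) (nat_lit 100464) (nat_lit 23) (node (nat_lit 5) (nat_lit 100464)
  (nat_lit 24) nil nil) nil) nil) nil) nil) nil)) (node (nat_lit 0) (nat_lit 100464) (nat_lit 18)
  nil nil)) (node (nat_lit 0) (nat_lit 100464) (nat_lit 17) nil nil)) (node (nat_lit 4) (nat_lit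
  99827) (nat_lit 16) (node (nat_lit 6) (nat_lit 0) (nat_lit 17) (node (nat_lit 5) (nat_lit 0)
  (nat_lit 18) (node (nat_lit 4) (nat_lit 100464) (nat_lit 19) (node (nat_lit 6) (nat_lit 100464)
  (nat_lit 20) (node (nat_lit 4) (nat_lit 100464) (nat_lit 21) (node (nat_lit 5) (nat_lit 100464)
  (nat_lit 22) (node (nat_lit 6) (nat_lit 100464) (nat_lit 23) nil nil) nil) nil) nil) (node
  (nat_lit 6) (nat_lit 100464) (nat_lit 19) (node (nat_lit 4) (nat_lit 100464) (nat_lit 20) (node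
  (nat_lit 5) (nat_lit 100464) (nat_lit 21) (node (nat_lit 4) (nat_lit 100464) (nat_lit 22) nil
  nil) nil) nil) (node (nat_lit 0) (nat_lit 100464) (nat_lit 19) nil nil))) (node (nat_lit 0)
  (nat_lit 100464) (nat_lit 18) nil nil)) (node (nat_lit 0) (nat_lit 100464) (nat_lit 17) nil
  nil)) (node (nat_lit 0) (nat_lit 100464) (nat_lit 16) (node (nat_lit 6) (nat_lit 100464)
  (nat_lit 17) nil (node (nat_lit 5) (nat_lit 100464) (nat_lit 17) nil (node (nat_lit 4) (nat_lit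
  100464) (nat_lit 17) nil nil))) nil))) (node (nat_lit 0) (nat_lit 100363) (nat_lit 15) (node
  (nat_lit 4) (nat_lit 100363) (nat_lit 16) (node (nat_lit 5) (nat_lit 100464) (nat_lit 17) (node
  (nat_lit 4) (nat_lit 100354) (nat_lit 18) nil (node (nat_lit 6) (nat_lit 100464) (nat_lit 18)
  nil nil)) (node (nat_lit 6) (nat_lit 100363) (nat_lit 17) nil nil)) (node (nat_lit 5) (nat_lit
  100363) (nat_lit 16) (node (nat_lit 6) (nat_lit 100363) (nat_lit 17) nil (node (nat_lit 4)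
  (nat_lit 100464) (nat_lit 17) nil nil)) (node (nat_lit 6) (nat_lit 100363) (nat_lit 16) (node
  (nat_lit 5) (nat_lit 100363) (nat_lit 17) nil (node (nat_lit 4) (nat_lit 100363) (nat_lit 17)
  nil nil)) nil))) nil)) (node (nat_lit 0) (nat_lit 99382) (nat_lit 14) (node (nat_lit 4) (nat_lit
  99205) (nat_lit 15) (node (nat_lit 6) (nat_lit 99476) (nat_lit 16) (node (nat_lit 5) (nat_lit
  100072) (nat_lit 17) (node (nat_lit 4) (nat_lit 99820) (nat_lit 18) nil nil) (node (nat_lit 4)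
  (nat_lit 99874) (nat_lit 17) nil nil)) (node (nat_lit 5) (nat_lit 99516) (nat_lit 16) (node
  (nat_lit 6) (nat_lit 100156) (nat_lit 17) nil (node (nat_lit 4) (nat_lit 99188) (nat_lit 17) nil
  nil)) nil)) (node (nat_lit 5) (nat_lit 99576) (nat_lit 15) (node (nat_lit 4) (nat_lit 99749)
  (nat_lit 16) (node (nat_lit 5) (nat_lit 100147) (nat_lit 17) nil (node (nat_lit 6) (nat_lit
  99952) (nat_lit 17) nil nil)) (node (nat_lit 6) (nat_lit 99886) (nat_lit 16) nil nil)) (node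
  (nat_lit 6) (nat_lit 99576) (nat_lit 15) (node (nat_lit 5) (nat_lit 99886) (nat_lit 16) (node
  (nat_lit 4) (nat_lit 99558) (nat_lit 17) nil (node (nat_lit 6) (nat_lit 100284) (nat_lit 17) nil
  nil)) (node (nat_lit 4) (nat_lit 99886) (nat_lit 16) (node (nat_lit 6) (nat_lit 100284) (nat_lit
  17) nil nil) nil)) (node (nat_lit 0) (nat_lit 99780) (nat_lit 15) nil nil)))) nil)) (node
  (nat_lit 6) (nat_lit 0) (nat_lit 13) (node (nat_lit 4) (nat_lit 0) (nat_lit 14) (node (nat_lit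
  6) (nat_lit 0) (nat_lit 15) (node (nat_lit 5) (nat_lit 100165) (nat_lit 16) (node (nat_lit 4)
  (nat_lit 100464) (nat_lit 17) (node (nat_lit 6) (nat_lit 100464) (nat_lit 18) (node (nat_lit 4)
  (nat_lit 100464) (nat_lit 19) (node (nat_lit 5) (nat_lit 100464) (nat_lit 20) (node (nat_lit 6)
  (nat_lit 100464) (nat_lit 21) (node (nat_lit 5) (nat_lit 100464) (nat_lit 22) (node (nat_lit 4)
  (nat_lit 100464) (nat_lit 23) (node (nat_lit 5) (nat_lit 100464) (nat_lit 24) (node (nat_lit 6)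
  (nat_lit 100464) (nat_lit 25) (node (nat_lit 4) (nat_lit 100464) (nat_lit 26) (node (nat_lit 5)
  (nat_lit 98772) (nat_lit 27) (node (nat_lit 4) (nat_lit 94947) (nat_lit 28) (node (nat_lit 6)
  (nat_lit 88289) (nat_lit 29) (node (nat_lit 5) (nat_lit 76173) (nat_lit 30) (node (nat_lit 6)
  (nat_lit 60493) (nat_lit 31) (node (nat_lit 4) (nat_lit 36998) (nat_lit 32) nil nil) nil) nil)
  nil) nil) nil) nil) nil) nil) nil) nil) nil) nil) nil) (node (nat_lit 5) (nat_lit 100464)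
  (nat_lit 18) (node (nat_lit 6) (nat_lit 100464) (nat_lit 19) (node (nat_lit 5) (nat_lit 100464)
  (nat_lit 20) (node (nat_lit 4) (nat_lit 100464) (nat_lit 21) (node (nat_lit 6) (nat_lit 100464)
  (nat_lit 22) (node (nat_lit 4) (nat_lit 100464) (nat_lit 23) (node (nat_lit 5) (nat_lit 100464)
  (nat_lit 24) nil nil) nil) nil) nil) (node (nat_lit 4) (nat_lit 100464) (nat_lit 20) nil nil))
  nil) nil)) nil) (node (nat_lit 0) (nat_lit 100284) (nat_lit 16) nil nil)) (node (nat_lit 5)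
  (nat_lit 0) (nat_lit 15) (node (nat_lit 6) (nat_lit 100144) (nat_lit 16) (node (nat_lit 5)
  (nat_lit 99248) (nat_lit 17) (node (nat_lit 4) (nat_lit 97365) (nat_lit 18) (node (nat_lit 5)
  (nat_lit 94975) (nat_lit 19) (node (nat_lit 6) (nat_lit 85010) (nat_lit 20) (node (nat_lit 4)
  (nat_lit 70394) (nat_lit 21) (node (nat_lit 5) (nat_lit 70510) (nat_lit 22) (node (nat_lit 4)
  (nat_lit 70599) (nat_lit 23) (node (nat_lit 6) (nat_lit 70670) (nat_lit 24) nil nil) nil) (node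
  (nat_lit 6) (nat_lit 70510) (nat_lit 22) nil nil)) nil) nil) (node (nat_lit 6) (nat_lit 96893)
  (nat_lit 19) nil nil)) nil) nil) (node (nat_lit 4) (nat_lit 98741) (nat_lit 16) nil (node
  (nat_lit 0) (nat_lit 100391) (nat_lit 16) nil nil))) (node (nat_lit 0) (nat_lit 100091) (nat_lit
  15) nil nil))) (node (nat_lit 0) (nat_lit 99382) (nat_lit 14) (node (nat_lit 5) (nat_lit 99382)
  (nat_lit 15) nil (node (nat_lit 6) (nat_lit 99382) (nat_lit 15) nil (node (nat_lit 4) (nat_lit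
  99382) (nat_lit 15) nil nil))) nil)) (node (nat_lit 0) (nat_lit 98205) (nat_lit 13) (node
  (nat_lit 4) (nat_lit 97977) (nat_lit 14) (node (nat_lit 6) (nat_lit 98341) (nat_lit 15) (node
  (nat_lit 5) (nat_lit 97910) (nat_lit 16) nil nil) (node (nat_lit 5) (nat_lit 98081) (nat_lit 15)
  (node (nat_lit 4) (nat_lit 97650) (nat_lit 16) nil nil) nil)) (node (nat_lit 6) (nat_lit 98452)
  (nat_lit 14) (node (nat_lit 5) (nat_lit 99066) (nat_lit 15) (node (nat_lit 6) (nat_lit 99576)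
  (nat_lit 16) nil (node (nat_lit 4) (nat_lit 98634) (nat_lit 16) nil nil)) (node (nat_lit 4)
  (nat_lit 98872) (nat_lit 15) nil nil)) (node (nat_lit 5) (nat_lit 98452) (nat_lit 14) (node
  (nat_lit 4) (nat_lit 98872) (nat_lit 15) (node (nat_lit 6) (nat_lit 99382) (nat_lit 16) nil
  (node (nat_lit 5) (nat_lit 99382) (nat_lit 16) nil nil)) (node (nat_lit 6) (nat_lit 98872)
  (nat_lit 15) nil nil)) nil))) nil))) (node (nat_lit 4) (nat_lit 0) (nat_lit 12) (node (nat_lit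
  5) (nat_lit 0) (nat_lit 13) (node (nat_lit 6) (nat_lit 0) (nat_lit 14) (node (nat_lit 5)
  (nat_lit 83368) (nat_lit 15) (node (nat_lit 4) (nat_lit 84549) (nat_lit 16) (node (nat_lit 5)
  (nat_lit 0) (nat_lit 17) (node (nat_lit 6) (nat_lit 58541) (nat_lit 18) (node (nat_lit 4)
  (nat_lit 30827) (nat_lit 19) (node (nat_lit 6) (nat_lit 0) (nat_lit 20) (node (nat_lit 5)
  (nat_lit 31339) (nat_lit 21) (node (nat_lit 4) (nat_lit 31526) (nat_lit 22) (node (nat_lit 5)
  (nat_lit 31615) (nat_lit 23) (node (nat_lit 6) (nat_lit 31686) (nat_lit 24) (node (nat_lit 5)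
  (nat_lit 31741) (nat_lit 25) (node (nat_lit 4) (nat_lit 31705) (nat_lit 26) nil nil) nil) nil)
  (node (nat_lit 6) (nat_lit 31671) (nat_lit 23) nil nil)) (node (nat_lit 6) (nat_lit 31489)
  (nat_lit 22) (node (nat_lit 4) (nat_lit 31577) (nat_lit 23) (node (nat_lit 5) (nat_lit 31527)
  (nat_lit 24) (node (nat_lit 4) (nat_lit 31481) (nat_lit 25) nil nil) nil) nil) nil)) (node
  (nat_lit 0) (nat_lit 31469) (nat_lit 21) nil nil)) (node (nat_lit 5) (nat_lit 31131) (nat_lit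
  20) nil nil)) nil) (node (nat_lit 0) (nat_lit 69970) (nat_lit 18) nil nil)) (node (nat_lit 6)
  (nat_lit 85675) (nat_lit 17) (node (nat_lit 4) (nat_lit 86498) (nat_lit 18) (node (nat_lit 5)
  (nat_lit 87172) (nat_lit 19) nil nil) (node (nat_lit 5) (nat_lit 85764) (nat_lit 18) nil nil))
  nil)) nil) (node (nat_lit 4) (nat_lit 99004) (nat_lit 15) (node (nat_lit 6) (nat_lit 99976)
  (nat_lit 16) (node (nat_lit 5) (nat_lit 100464) (nat_lit 17) (node (nat_lit 4) (nat_lit 100464)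
  (nat_lit 18) (node (nat_lit 5) (nat_lit 100464) (nat_lit 19) (node (nat_lit 6) (nat_lit 100464)
  (nat_lit 20) (node (nat_lit 5) (nat_lit 100464) (nat_lit 21) (node (nat_lit 4) (nat_lit 100464)
  (nat_lit 22) nil nil) nil) nil) nil) (node (nat_lit 6) (nat_lit 100464) (nat_lit 18) (node
  (nat_lit 4) (nat_lit 100464) (nat_lit 19) (node (nat_lit 5) (nat_lit 100464) (nat_lit 20) nil
  nil) nil) nil)) nil) nil) (node (nat_lit 0) (nat_lit 100028) (nat_lit 15) nil nil))) (node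
  (nat_lit 0) (nat_lit 99072) (nat_lit 14) nil nil)) (node (nat_lit 0) (nat_lit 97875) (nat_lit
  13) (node (nat_lit 4) (nat_lit 97875) (nat_lit 14) nil nil) nil)) (node (nat_lit 0) (nat_lit
  95987) (nat_lit 12) (node (nat_lit 4) (nat_lit 96305) (nat_lit 13) (node (nat_lit 6) (nat_lit
  97470) (nat_lit 14) (node (nat_lit 4) (nat_lit 98542) (nat_lit 15) nil (node (nat_lit 5)
  (nat_lit 96887) (nat_lit 15) nil nil)) (node (nat_lit 5) (nat_lit 97470) (nat_lit 14) (node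
  (nat_lit 6) (nat_lit 98123) (nat_lit 15) nil (node (nat_lit 4) (nat_lit 96887) (nat_lit 15) nil
  nil)) nil)) (node (nat_lit 5) (nat_lit 96305) (nat_lit 13) (node (nat_lit 4) (nat_lit 96995)
  (nat_lit 14) (node (nat_lit 6) (nat_lit 97648) (nat_lit 15) nil (node (nat_lit 5) (nat_lit
  97648) (nat_lit 15) nil nil)) (node (nat_lit 6) (nat_lit 97470) (nat_lit 14) (node (nat_lit 5)
  (nat_lit 98227) (nat_lit 15) nil (node (nat_lit 4) (nat_lit 98123) (nat_lit 15) nil nil)) nil))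
  (node (nat_lit 6) (nat_lit 96305) (nat_lit 13) (node (nat_lit 4) (nat_lit 96995) (nat_lit 14)
  (node (nat_lit 5) (nat_lit 97648) (nat_lit 15) nil nil) (node (nat_lit 5) (nat_lit 97470)
  (nat_lit 14) (node (nat_lit 4) (nat_lit 96887) (nat_lit 15) nil nil) nil)) nil))) nil))) (node
  (nat_lit 0) (nat_lit 93566) (nat_lit 11) (node (nat_lit 5) (nat_lit 93566) (nat_lit 12) nil
  (node (nat_lit 6) (nat_lit 93566) (nat_lit 12) nil (node (nat_lit 4) (nat_lit 93566) (nat_lit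
  12) nil nil))) nil)) (node (nat_lit 0) (nat_lit 90466) (nat_lit 10) (node (nat_lit 4) (nat_lit
  89943) (nat_lit 11) nil (node (nat_lit 6) (nat_lit 90988) (nat_lit 11) nil (node (nat_lit 5)
  (nat_lit 90988) (nat_lit 11) nil nil))) nil)) (node (nat_lit 6) (nat_lit 0) (nat_lit 9) (node
  (nat_lit 5) (nat_lit 0) (nat_lit 10) (node (nat_lit 4) (nat_lit 0) (nat_lit 11) (node (nat_lit
  6) (nat_lit 0) (nat_lit 12) (node (nat_lit 4) (nat_lit 0) (nat_lit 13) (node (nat_lit 5)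
  (nat_lit 96546) (nat_lit 14) (node (nat_lit 4) (nat_lit 97647) (nat_lit 15) (node (nat_lit 6)
  (nat_lit 98596) (nat_lit 16) (node (nat_lit 5) (nat_lit 99385) (nat_lit 17) (node (nat_lit 6)
  (nat_lit 99924) (nat_lit 18) (node (nat_lit 4) (nat_lit 100249) (nat_lit 19) (node (nat_lit 5)
  (nat_lit 99977) (nat_lit 20) (node (nat_lit 6) (nat_lit 100163) (nat_lit 21) (node (nat_lit 5)
  (nat_lit 99497) (nat_lit 22) (node (nat_lit 4) (nat_lit 99064) (nat_lit 23) (node (nat_lit 5)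
  (nat_lit 98835) (nat_lit 24) (node (nat_lit 6) (nat_lit 97348) (nat_lit 25) (node (nat_lit 4)
  (nat_lit 95493) (nat_lit 26) (node (nat_lit 6) (nat_lit 92785) (nat_lit 27) (node (nat_lit 5)
  (nat_lit 88938) (nat_lit 28) (node (nat_lit 4) (nat_lit 82304) (nat_lit 29) (node (nat_lit 6)
  (nat_lit 70650) (nat_lit 30) (node (nat_lit 4) (nat_lit 70664) (nat_lit 31) (node (nat_lit 5)
  (nat_lit 70644) (nat_lit 32) (node (nat_lit 4) (nat_lit 29008) (nat_lit 33) (node (nat_lit 6)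
  (nat_lit 14584) (nat_lit 34) nil nil) nil) nil) nil) nil) nil) nil) nil) nil) nil) nil) nil)
  nil) nil) nil) nil) nil) nil) nil) (node (nat_lit 6) (nat_lit 97074) (nat_lit 15) (node (nat_lit
  5) (nat_lit 95618) (nat_lit 16) (node (nat_lit 4) (nat_lit 93589) (nat_lit 17) (node (nat_lit 5)
  (nat_lit 70551) (nat_lit 18) (node (nat_lit 6) (nat_lit 61626) (nat_lit 19) (node (nat_lit 4)
  (nat_lit 44936) (nat_lit 20) (node (nat_lit 6) (nat_lit 30822) (nat_lit 21) (node (nat_lit 5)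
  (nat_lit 30963) (nat_lit 22) nil nil) (node (nat_lit 5) (nat_lit 45083) (nat_lit 21) nil nil))
  nil) nil) nil) nil) (node (nat_lit 4) (nat_lit 97584) (nat_lit 16) nil nil)) nil)) (node
  (nat_lit 0) (nat_lit 98932) (nat_lit 14) nil nil)) (node (nat_lit 0) (nat_lit 97685) (nat_lit
  13) nil nil)) (node (nat_lit 5) (nat_lit 0) (nat_lit 12) (node (nat_lit 6) (nat_lit 0) (nat_lit
  13) (node (nat_lit 5) (nat_lit 97727) (nat_lit 14) (node (nat_lit 4) (nat_lit 98623) (nat_lit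
  15) (node (nat_lit 6) (nat_lit 99404) (nat_lit 16) (node (nat_lit 4) (nat_lit 100045) (nat_lit
  17) (node (nat_lit 5) (nat_lit 100464) (nat_lit 18) (node (nat_lit 6) (nat_lit 100464) (nat_lit
  19) (node (nat_lit 5) (nat_lit 100464) (nat_lit 20) (node (nat_lit 4) (nat_lit 100464) (nat_lit
  21) (node (nat_lit 5) (nat_lit 100464) (nat_lit 22) (node (nat_lit 6) (nat_lit 97427) (nat_lit
  23) (node (nat_lit 4) (nat_lit 93096) (nat_lit 24) (node (nat_lit 6) (nat_lit 86646) (nat_lit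
  25) (node (nat_lit 5) (nat_lit 74766) (nat_lit 26) (node (nat_lit 4) (nat_lit 61319) (nat_lit
  27) nil nil) nil) nil) nil) nil) nil) nil) nil) (node (nat_lit 4) (nat_lit 100348) (nat_lit 19)
  nil nil)) nil) (node (nat_lit 5) (nat_lit 100000) (nat_lit 17) (node (nat_lit 6) (nat_lit 99381)
  (nat_lit 18) nil nil) nil)) nil) nil) (node (nat_lit 0) (nat_lit 99062) (nat_lit 14) nil nil))
  (node (nat_lit 0) (nat_lit 97815) (nat_lit 13) nil nil)) (node (nat_lit 0) (nat_lit 96115)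
  (nat_lit 12) (node (nat_lit 4) (nat_lit 96115) (nat_lit 13) nil (node (nat_lit 6) (nat_lit
  96115) (nat_lit 13) nil (node (nat_lit 5) (nat_lit 96115) (nat_lit 13) nil nil))) nil))) (node
  (nat_lit 6) (nat_lit 0) (nat_lit 11) (node (nat_lit 4) (nat_lit 0) (nat_lit 12) (node (nat_lit
  5) (nat_lit 94581) (nat_lit 13) (node (nat_lit 4) (nat_lit 96223) (nat_lit 14) (node (nat_lit 6)
  (nat_lit 97269) (nat_lit 15) (node (nat_lit 4) (nat_lit 98090) (nat_lit 16) (node (nat_lit 5)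
  (nat_lit 98730) (nat_lit 17) (node (nat_lit 6) (nat_lit 99230) (nat_lit 18) (node (nat_lit 5)
  (nat_lit 99102) (nat_lit 19) (node (nat_lit 4) (nat_lit 97559) (nat_lit 20) (node (nat_lit 5)
  (nat_lit 95830) (nat_lit 21) (node (nat_lit 6) (nat_lit 91052) (nat_lit 22) (node (nat_lit 4)
  (nat_lit 84727) (nat_lit 23) (node (nat_lit 6) (nat_lit 69691) (nat_lit 24) (node (nat_lit 5)
  (nat_lit 55804) (nat_lit 25) (node (nat_lit 6) (nat_lit 29714) (nat_lit 26) (node (nat_lit 4)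
  (nat_lit 29755) (nat_lit 27) (node (nat_lit 5) (nat_lit 29729) (nat_lit 28) nil nil) nil) nil)
  nil) nil) nil) nil) nil) nil) nil) nil) nil) (node (nat_lit 5) (nat_lit 98058) (nat_lit 16)
  (node (nat_lit 4) (nat_lit 98699) (nat_lit 17) (node (nat_lit 5) (nat_lit 99198) (nat_lit 18)
  (node (nat_lit 6) (nat_lit 99588) (nat_lit 19) (node (nat_lit 4) (nat_lit 99777) (nat_lit 20)
  nil (node (nat_lit 5) (nat_lit 99777) (nat_lit 20) nil nil)) nil) nil) nil) nil)) nil) (node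
  (nat_lit 6) (nat_lit 94380) (nat_lit 14) (node (nat_lit 5) (nat_lit 90688) (nat_lit 15) (node
  (nat_lit 4) (nat_lit 88385) (nat_lit 16) (node (nat_lit 5) (nat_lit 69505) (nat_lit 17) (node
  (nat_lit 6) (nat_lit 69815) (nat_lit 18) (node (nat_lit 4) (nat_lit 70058) (nat_lit 19) (node
  (nat_lit 6) (nat_lit 70246) (nat_lit 20) nil nil) nil) nil) (node (nat_lit 6) (nat_lit 88587)
  (nat_lit 17) nil nil)) nil) nil) nil)) (node (nat_lit 0) (nat_lit 95593) (nat_lit 13) nil nil))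
  (node (nat_lit 0) (nat_lit 95707) (nat_lit 12) nil nil)) (node (nat_lit 0) (nat_lit 93694)
  (nat_lit 11) (node (nat_lit 4) (nat_lit 93694) (nat_lit 12) nil (node (nat_lit 6) (nat_lit
  93694) (nat_lit 12) nil nil)) nil))) (node (nat_lit 0) (nat_lit 89592) (nat_lit 10) (node
  (nat_lit 5) (nat_lit 90115) (nat_lit 11) (node (nat_lit 4) (nat_lit 91622) (nat_lit 12) nil
  (node (nat_lit 6) (nat_lit 91622) (nat_lit 12) nil nil)) (node (nat_lit 4) (nat_lit 90115)
  (nat_lit 11) (node (nat_lit 6) (nat_lit 90415) (nat_lit 12) nil (node (nat_lit 5) (nat_lit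
  90256) (nat_lit 12) nil nil)) (node (nat_lit 6) (nat_lit 90115) (nat_lit 11) (node (nat_lit 5)
  (nat_lit 90256) (nat_lit 12) nil (node (nat_lit 4) (nat_lit 91622) (nat_lit 12) nil nil)) nil)))
  nil)) (node (nat_lit 0) (nat_lit 84399) (nat_lit 9) (node (nat_lit 6) (nat_lit 85720) (nat_lit
  10) (node (nat_lit 5) (nat_lit 87091) (nat_lit 11) (node (nat_lit 4) (nat_lit 85873) (nat_lit
  12) nil nil) (node (nat_lit 4) (nat_lit 87632) (nat_lit 11) nil nil)) (node (nat_lit 5) (nat_lit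
  86499) (nat_lit 10) (node (nat_lit 4) (nat_lit 88529) (nat_lit 11) nil (node (nat_lit 6)
  (nat_lit 88410) (nat_lit 11) nil nil)) (node (nat_lit 4) (nat_lit 86029) (nat_lit 10) (node
  (nat_lit 6) (nat_lit 88177) (nat_lit 11) (node (nat_lit 5) (nat_lit 86958) (nat_lit 12) nil nil)
  (node (nat_lit 5) (nat_lit 87637) (nat_lit 11) (node (nat_lit 6) (nat_lit 89012) (nat_lit 12)
  nil nil) nil)) nil))) nil)))

noncomputable def t271 : Tr :=
  (node (nat_lit 5) (nat_lit 0) (nat_lit 8) (node (nat_lit 7) (nat_lit 0) (nat_lit 9) (node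
  (nat_lit 5) (nat_lit 0) (nat_lit 10) (node (nat_lit 4) (nat_lit 0) (nat_lit 11) (node (nat_lit
  7) (nat_lit 0) (nat_lit 12) (node (nat_lit 5) (nat_lit 0) (nat_lit 13) (node (nat_lit 7)
  (nat_lit 0) (nat_lit 14) (node (nat_lit 4) (nat_lit 0) (nat_lit 15) (node (nat_lit 7) (nat_lit
  0) (nat_lit 16) (node (nat_lit 5) (nat_lit 0) (nat_lit 17) (node (nat_lit 4) (nat_lit 45841)
  (nat_lit 18) (node (nat_lit 5) (nat_lit 0) (nat_lit 19) (node (nat_lit 7) (nat_lit 46962)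
  (nat_lit 20) (node (nat_lit 4) (nat_lit 47331) (nat_lit 21) (node (nat_lit 5) (nat_lit 47512)
  (nat_lit 22) (node (nat_lit 4) (nat_lit 47685) (nat_lit 23) (node (nat_lit 7) (nat_lit 47844)
  (nat_lit 24) (node (nat_lit 5) (nat_lit 45865) (nat_lit 25) nil nil) nil) nil) nil) nil) (node
  (nat_lit 0) (nat_lit 47009) (nat_lit 20) nil nil)) (node (nat_lit 7) (nat_lit 46540) (nat_lit
  19) (node (nat_lit 4) (nat_lit 47017) (nat_lit 20) (node (nat_lit 5) (nat_lit 47389) (nat_lit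
  21) (node (nat_lit 4) (nat_lit 47680) (nat_lit 22) (node (nat_lit 7) (nat_lit 47633) (nat_lit
  23) nil nil) (node (nat_lit 7) (nat_lit 47509) (nat_lit 22) nil nil)) nil) nil) nil)) (node
  (nat_lit 0) (nat_lit 45714) (nat_lit 18) nil nil)) (node (nat_lit 0) (nat_lit 45558) (nat_lit
  17) nil nil)) (node (nat_lit 5) (nat_lit 0) (nat_lit 16) (node (nat_lit 4) (nat_lit 0) (nat_lit
  17) (node (nat_lit 7) (nat_lit 0) (nat_lit 18) (node (nat_lit 4) (nat_lit 46451) (nat_lit 19)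
  (node (nat_lit 5) (nat_lit 46928) (nat_lit 20) (node (nat_lit 7) (nat_lit 47242) (nat_lit 21)
  (node (nat_lit 5) (nat_lit 47362) (nat_lit 22) nil nil) nil) nil) (node (nat_lit 5) (nat_lit
  46377) (nat_lit 19) (node (nat_lit 4) (nat_lit 46879) (nat_lit 20) (node (nat_lit 5) (nat_lit
  47194) (nat_lit 21) (node (nat_lit 7) (nat_lit 47457) (nat_lit 22) nil nil) nil) (node (nat_lit
  7) (nat_lit 46851) (nat_lit 20) nil nil)) (node (nat_lit 0) (nat_lit 46442) (nat_lit 19) nil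
  nil))) (node (nat_lit 0) (nat_lit 46320) (nat_lit 18) nil nil)) (node (nat_lit 0) (nat_lit
  45710) (nat_lit 17) nil nil)) (node (nat_lit 0) (nat_lit 44966) (nat_lit 16) (node (nat_lit 4)
  (nat_lit 44966) (nat_lit 17) nil (node (nat_lit 7) (nat_lit 44966) (nat_lit 17) nil (node
  (nat_lit 5) (nat_lit 44966) (nat_lit 17) nil nil))) nil))) (node (nat_lit 0) (nat_lit 43821)
  (nat_lit 15) (node (nat_lit 5) (nat_lit 43864) (nat_lit 16) (node (nat_lit 7) (nat_lit 44338)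
  (nat_lit 17) (node (nat_lit 4) (nat_lit 45000) (nat_lit 18) nil (node (nat_lit 5) (nat_lit
  44710) (nat_lit 18) nil nil)) (node (nat_lit 4) (nat_lit 43863) (nat_lit 17) nil nil)) (node
  (nat_lit 7) (nat_lit 43868) (nat_lit 16) (node (nat_lit 4) (nat_lit 44305) (nat_lit 17) (node
  (nat_lit 5) (nat_lit 44627) (nat_lit 18) nil nil) (node (nat_lit 5) (nat_lit 44425) (nat_lit 17)
  nil nil)) (node (nat_lit 4) (nat_lit 43868) (nat_lit 16) (node (nat_lit 7) (nat_lit 43868)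
  (nat_lit 17) nil (node (nat_lit 5) (nat_lit 43868) (nat_lit 17) nil nil)) nil))) nil)) (node
  (nat_lit 0) (nat_lit 42300) (nat_lit 14) (node (nat_lit 5) (nat_lit 42795) (nat_lit 15) (node
  (nat_lit 4) (nat_lit 43738) (nat_lit 16) (node (nat_lit 7) (nat_lit 44737) (nat_lit 17) (node
  (nat_lit 5) (nat_lit 44504) (nat_lit 18) nil nil) (node (nat_lit 5) (nat_lit 43437) (nat_lit 17)
  nil nil)) (node (nat_lit 7) (nat_lit 43400) (nat_lit 16) (node (nat_lit 4) (nat_lit 44251)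
  (nat_lit 17) (node (nat_lit 5) (nat_lit 44573) (nat_lit 18) nil nil) (node (nat_lit 5) (nat_lit
  43814) (nat_lit 17) nil nil)) nil)) (node (nat_lit 7) (nat_lit 42849) (nat_lit 15) (node
  (nat_lit 5) (nat_lit 43792) (nat_lit 16) (node (nat_lit 7) (nat_lit 44206) (nat_lit 17) nil
  (node (nat_lit 4) (nat_lit 43643) (nat_lit 17) nil nil)) (node (nat_lit 4) (nat_lit 43407)
  (nat_lit 16) nil nil)) (node (nat_lit 4) (nat_lit 42795) (nat_lit 15) (node (nat_lit 7) (nat_lit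
  43400) (nat_lit 16) (node (nat_lit 5) (nat_lit 43098) (nat_lit 17) nil (node (nat_lit 4)
  (nat_lit 43814) (nat_lit 17) nil nil)) (node (nat_lit 5) (nat_lit 42878) (nat_lit 16) (node
  (nat_lit 4) (nat_lit 42576) (nat_lit 17) nil nil) nil)) (node (nat_lit 0) (nat_lit 42714)
  (nat_lit 15) nil nil)))) nil)) (node (nat_lit 4) (nat_lit 0) (nat_lit 13) (node (nat_lit 5)
  (nat_lit 0) (nat_lit 14) (node (nat_lit 4) (nat_lit 0) (nat_lit 15) (node (nat_lit 7) (nat_lit
  42125) (nat_lit 16) (node (nat_lit 5) (nat_lit 39443) (nat_lit 17) (node (nat_lit 7) (nat_lit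
  33638) (nat_lit 18) (node (nat_lit 4) (nat_lit 14994) (nat_lit 19) (node (nat_lit 5) (nat_lit
  15376) (nat_lit 20) (node (nat_lit 7) (nat_lit 15618) (nat_lit 21) (node (nat_lit 5) (nat_lit
  15809) (nat_lit 22) nil nil) (node (nat_lit 4) (nat_lit 15674) (nat_lit 21) nil nil)) (node
  (nat_lit 7) (nat_lit 15376) (nat_lit 20) (node (nat_lit 5) (nat_lit 15574) (nat_lit 21) (node
  (nat_lit 4) (nat_lit 15636) (nat_lit 22) nil nil) nil) nil)) nil) (node (nat_lit 4) (nat_lit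
  39878) (nat_lit 18) (node (nat_lit 5) (nat_lit 39697) (nat_lit 19) nil nil) nil)) nil) (node
  (nat_lit 0) (nat_lit 43531) (nat_lit 16) nil nil)) (node (nat_lit 7) (nat_lit 0) (nat_lit 15)
  (node (nat_lit 4) (nat_lit 43792) (nat_lit 16) (node (nat_lit 7) (nat_lit 44943) (nat_lit 17)
  (node (nat_lit 5) (nat_lit 45342) (nat_lit 18) (node (nat_lit 7) (nat_lit 45950) (nat_lit 19)
  (node (nat_lit 4) (nat_lit 46424) (nat_lit 20) (node (nat_lit 5) (nat_lit 46654) (nat_lit 21)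
  (node (nat_lit 7) (nat_lit 46774) (nat_lit 22) nil (node (nat_lit 4) (nat_lit 46876) (nat_lit
  22) (node (nat_lit 7) (nat_lit 47081) (nat_lit 23) (node (nat_lit 5) (nat_lit 47209) (nat_lit
  24) nil nil) nil) nil)) nil) nil) (node (nat_lit 4) (nat_lit 45161) (nat_lit 19) nil nil)) nil)
  nil) (node (nat_lit 5) (nat_lit 42932) (nat_lit 16) nil (node (nat_lit 0) (nat_lit 44580)
  (nat_lit 16) nil nil))) (node (nat_lit 0) (nat_lit 43767) (nat_lit 15) nil nil))) (node (nat_lit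
  0) (nat_lit 42300) (nat_lit 14) (node (nat_lit 7) (nat_lit 42300) (nat_lit 15) nil (node
  (nat_lit 4) (nat_lit 42300) (nat_lit 15) nil (node (nat_lit 5) (nat_lit 42300) (nat_lit 15) nil
  nil))) nil)) (node (nat_lit 0) (nat_lit 40423) (nat_lit 13) (node (nat_lit 5) (nat_lit 41055)
  (nat_lit 14) (node (nat_lit 7) (nat_lit 41834) (nat_lit 15) (node (nat_lit 5) (nat_lit 42362)
  (nat_lit 16) nil nil) (node (nat_lit 4) (nat_lit 41541) (nat_lit 15) (node (nat_lit 7) (nat_lit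
  42070) (nat_lit 16) nil (node (nat_lit 5) (nat_lit 41141) (nat_lit 16) nil nil)) nil)) (node
  (nat_lit 4) (nat_lit 41055) (nat_lit 14) (node (nat_lit 7) (nat_lit 41834) (nat_lit 15) (node
  (nat_lit 4) (nat_lit 42362) (nat_lit 16) nil (node (nat_lit 5) (nat_lit 41433) (nat_lit 16) nil
  nil)) (node (nat_lit 5) (nat_lit 41653) (nat_lit 15) (node (nat_lit 4) (nat_lit 41253) (nat_lit
  16) nil nil) nil)) (node (nat_lit 7) (nat_lit 41055) (nat_lit 14) (node (nat_lit 5) (nat_lit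
  41215) (nat_lit 15) (node (nat_lit 4) (nat_lit 40815) (nat_lit 16) nil (node (nat_lit 7)
  (nat_lit 41744) (nat_lit 16) nil nil)) (node (nat_lit 4) (nat_lit 41772) (nat_lit 15) nil nil))
  nil))) nil))) (node (nat_lit 5) (nat_lit 0) (nat_lit 12) (node (nat_lit 7) (nat_lit 0) (nat_lit
  13) (node (nat_lit 4) (nat_lit 0) (nat_lit 14) (node (nat_lit 7) (nat_lit 42320) (nat_lit 15)
  (node (nat_lit 5) (nat_lit 43792) (nat_lit 16) (node (nat_lit 4) (nat_lit 44943) (nat_lit 17)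
  (node (nat_lit 7) (nat_lit 44930) (nat_lit 18) (node (nat_lit 4) (nat_lit 44939) (nat_lit 19)
  (node (nat_lit 5) (nat_lit 45043) (nat_lit 20) (node (nat_lit 4) (nat_lit 45160) (nat_lit 21)
  (node (nat_lit 7) (nat_lit 44464) (nat_lit 22) (node (nat_lit 5) (nat_lit 44074) (nat_lit 23)
  (node (nat_lit 7) (nat_lit 43603) (nat_lit 24) (node (nat_lit 4) (nat_lit 42824) (nat_lit 25)
  (node (nat_lit 5) (nat_lit 40409) (nat_lit 26) (node (nat_lit 7) (nat_lit 38375) (nat_lit 27)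
  (node (nat_lit 5) (nat_lit 33421) (nat_lit 28) (node (nat_lit 4) (nat_lit 27193) (nat_lit 29)
  (node (nat_lit 5) (nat_lit 15747) (nat_lit 30) (node (nat_lit 7) (nat_lit 15766) (nat_lit 31)
  (node (nat_lit 4) (nat_lit 15765) (nat_lit 32) (node (nat_lit 7) (nat_lit 15767) (nat_lit 33)
  (node (nat_lit 5) (nat_lit 15776) (nat_lit 34) nil nil) nil) nil) nil) nil) nil) nil) nil) nil)
  nil) nil) nil) nil) nil) nil) nil) (node (nat_lit 5) (nat_lit 45050) (nat_lit 18) nil nil))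
  (node (nat_lit 7) (nat_lit 0) (nat_lit 17) (node (nat_lit 4) (nat_lit 45635) (nat_lit 18) (node
  (nat_lit 5) (nat_lit 0) (nat_lit 19) (node (nat_lit 4) (nat_lit 0) (nat_lit 20) (node (nat_lit
  7) (nat_lit 47143) (nat_lit 21) (node (nat_lit 5) (nat_lit 47355) (nat_lit 22) (node (nat_lit 7)
  (nat_lit 47580) (nat_lit 23) (node (nat_lit 4) (nat_lit 47755) (nat_lit 24) nil nil) (node
  (nat_lit 4) (nat_lit 47447) (nat_lit 23) (node (nat_lit 5) (nat_lit 47393) (nat_lit 24) nil nil)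
  nil)) (node (nat_lit 4) (nat_lit 47167) (nat_lit 22) (node (nat_lit 5) (nat_lit 47233) (nat_lit
  23) (node (nat_lit 7) (nat_lit 47382) (nat_lit 24) (node (nat_lit 5) (nat_lit 47439) (nat_lit
  25) nil nil) nil) nil) nil)) (node (nat_lit 0) (nat_lit 47403) (nat_lit 21) nil nil)) (node
  (nat_lit 7) (nat_lit 46718) (nat_lit 20) (node (nat_lit 5) (nat_lit 46893) (nat_lit 21) nil nil)
  (node (nat_lit 0) (nat_lit 46784) (nat_lit 20) nil nil))) nil) (node (nat_lit 0) (nat_lit 46320)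
  (nat_lit 18) nil nil)) nil)) nil) (node (nat_lit 5) (nat_lit 0) (nat_lit 15) (node (nat_lit 4)
  (nat_lit 43772) (nat_lit 16) (node (nat_lit 7) (nat_lit 43898) (nat_lit 17) (node (nat_lit 5)
  (nat_lit 44675) (nat_lit 18) (node (nat_lit 7) (nat_lit 29391) (nat_lit 19) (node (nat_lit 4)
  (nat_lit 29679) (nat_lit 20) (node (nat_lit 5) (nat_lit 29766) (nat_lit 21) (node (nat_lit 7)
  (nat_lit 29942) (nat_lit 22) (node (nat_lit 5) (nat_lit 29994) (nat_lit 23) (node (nat_lit 4)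
  (nat_lit 30060) (nat_lit 24) nil nil) nil) nil) nil) nil) nil) (node (nat_lit 4) (nat_lit 43906)
  (nat_lit 18) (node (nat_lit 5) (nat_lit 44058) (nat_lit 19) nil nil) nil)) nil) (node (nat_lit
  0) (nat_lit 43565) (nat_lit 16) nil nil)) (node (nat_lit 0) (nat_lit 43306) (nat_lit 15) nil
  nil))) (node (nat_lit 0) (nat_lit 41702) (nat_lit 14) nil nil)) (node (nat_lit 0) (nat_lit
  40251) (nat_lit 13) (node (nat_lit 5) (nat_lit 40251) (nat_lit 14) nil nil) nil)) (node (nat_lit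
  0) (nat_lit 37842) (nat_lit 12) (node (nat_lit 5) (nat_lit 38655) (nat_lit 13) (node (nat_lit 4)
  (nat_lit 40204) (nat_lit 14) (node (nat_lit 5) (nat_lit 40623) (nat_lit 15) nil (node (nat_lit
  7) (nat_lit 40883) (nat_lit 15) nil nil)) (node (nat_lit 7) (nat_lit 39649) (nat_lit 14) (node
  (nat_lit 4) (nat_lit 40328) (nat_lit 15) nil (node (nat_lit 5) (nat_lit 40328) (nat_lit 15) nil
  nil)) nil)) (node (nat_lit 7) (nat_lit 38655) (nat_lit 13) (node (nat_lit 5) (nat_lit 38846)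
  (nat_lit 14) (node (nat_lit 7) (nat_lit 40241) (nat_lit 15) nil (node (nat_lit 4) (nat_lit
  38305) (nat_lit 15) nil nil)) (node (nat_lit 4) (nat_lit 40204) (nat_lit 14) (node (nat_lit 7)
  (nat_lit 40874) (nat_lit 15) nil (node (nat_lit 5) (nat_lit 40883) (nat_lit 15) nil nil)) nil))
  (node (nat_lit 4) (nat_lit 38655) (nat_lit 13) (node (nat_lit 5) (nat_lit 40204) (nat_lit 14)
  (node (nat_lit 7) (nat_lit 40883) (nat_lit 15) nil nil) (node (nat_lit 7) (nat_lit 40204)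
  (nat_lit 14) (node (nat_lit 5) (nat_lit 40791) (nat_lit 15) nil (node (nat_lit 4) (nat_lit
  40883) (nat_lit 15) nil nil)) nil)) (node (nat_lit 0) (nat_lit 38521) (nat_lit 13) nil nil))))
  nil))) (node (nat_lit 0) (nat_lit 34268) (nat_lit 11) (node (nat_lit 7) (nat_lit 34268) (nat_lit
  12) nil (node (nat_lit 4) (nat_lit 34268) (nat_lit 12) nil (node (nat_lit 5) (nat_lit 34268)
  (nat_lit 12) nil nil))) nil)) (node (nat_lit 0) (nat_lit 30316) (nat_lit 10) (node (nat_lit 5)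
  (nat_lit 31648) (nat_lit 11) nil (node (nat_lit 4) (nat_lit 30429) (nat_lit 11) nil (node
  (nat_lit 7) (nat_lit 31648) (nat_lit 11) nil nil))) nil)) (node (nat_lit 4) (nat_lit 0) (nat_lit
  9) (node (nat_lit 7) (nat_lit 0) (nat_lit 10) (node (nat_lit 4) (nat_lit 0) (nat_lit 11) (node
  (nat_lit 5) (nat_lit 22964) (nat_lit 12) (node (nat_lit 7) (nat_lit 25014) (nat_lit 13) (node
  (nat_lit 5) (nat_lit 26611) (nat_lit 14) (node (nat_lit 4) (nat_lit 27792) (nat_lit 15) (node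
  (nat_lit 7) (nat_lit 28591) (nat_lit 16) (node (nat_lit 4) (nat_lit 27251) (nat_lit 17) (node
  (nat_lit 5) (nat_lit 27339) (nat_lit 18) (node (nat_lit 4) (nat_lit 27530) (nat_lit 19) (node
  (nat_lit 7) (nat_lit 26824) (nat_lit 20) (node (nat_lit 5) (nat_lit 25485) (nat_lit 21) (node
  (nat_lit 7) (nat_lit 24583) (nat_lit 22) (node (nat_lit 4) (nat_lit 21293) (nat_lit 23) (node
  (nat_lit 5) (nat_lit 17548) (nat_lit 24) (node (nat_lit 4) (nat_lit 8997) (nat_lit 25) nil nil)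
  nil) nil) nil) nil) nil) nil) nil) (node (nat_lit 5) (nat_lit 29275) (nat_lit 17) (node (nat_lit
  7) (nat_lit 29749) (nat_lit 18) (node (nat_lit 4) (nat_lit 30119) (nat_lit 19) (node (nat_lit 5)
  (nat_lit 30230) (nat_lit 20) (node (nat_lit 7) (nat_lit 30383) (nat_lit 21) nil nil) nil) nil)
  nil) nil)) (node (nat_lit 5) (nat_lit 28567) (nat_lit 16) (node (nat_lit 7) (nat_lit 29175)
  (nat_lit 17) (node (nat_lit 4) (nat_lit 29649) (nat_lit 18) nil nil) nil) nil)) nil) (node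
  (nat_lit 4) (nat_lit 26611) (nat_lit 14) (node (nat_lit 7) (nat_lit 27428) (nat_lit 15) (node
  (nat_lit 5) (nat_lit 27728) (nat_lit 16) (node (nat_lit 7) (nat_lit 28336) (nat_lit 17) (node
  (nat_lit 4) (nat_lit 28809) (nat_lit 18) (node (nat_lit 5) (nat_lit 28953) (nat_lit 19) (node
  (nat_lit 4) (nat_lit 29129) (nat_lit 20) (node (nat_lit 7) (nat_lit 29321) (nat_lit 21) nil nil)
  nil) nil) nil) (node (nat_lit 4) (nat_lit 27427) (nat_lit 17) nil nil)) nil) nil) nil)) nil)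
  (node (nat_lit 0) (nat_lit 23748) (nat_lit 12) nil nil)) (node (nat_lit 0) (nat_lit 23532)
  (nat_lit 11) (node (nat_lit 5) (nat_lit 23532) (nat_lit 12) nil nil) nil)) (node (nat_lit 0)
  (nat_lit 30329) (nat_lit 10) (node (nat_lit 5) (nat_lit 31425) (nat_lit 11) (node (nat_lit 4)
  (nat_lit 33997) (nat_lit 12) nil (node (nat_lit 7) (nat_lit 32931) (nat_lit 12) nil nil)) (node
  (nat_lit 7) (nat_lit 31662) (nat_lit 11) (node (nat_lit 5) (nat_lit 31803) (nat_lit 12) nil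
  (node (nat_lit 4) (nat_lit 33168) (nat_lit 12) nil nil)) (node (nat_lit 4) (nat_lit 31679)
  (nat_lit 11) (node (nat_lit 7) (nat_lit 33295) (nat_lit 12) nil (node (nat_lit 5) (nat_lit
  31820) (nat_lit 12) nil nil)) nil))) nil)) (node (nat_lit 0) (nat_lit 24766) (nat_lit 9) (node
  (nat_lit 4) (nat_lit 26846) (nat_lit 10) (node (nat_lit 5) (nat_lit 30111) (nat_lit 11) nil
  (node (nat_lit 7) (nat_lit 29027) (nat_lit 11) (node (nat_lit 5) (nat_lit 27896) (nat_lit 12)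
  nil nil) nil)) (node (nat_lit 7) (nat_lit 26930) (nat_lit 10) (node (nat_lit 5) (nat_lit 30191)
  (nat_lit 11) nil (node (nat_lit 4) (nat_lit 30614) (nat_lit 11) (node (nat_lit 5) (nat_lit
  32183) (nat_lit 12) nil nil) nil)) (node (nat_lit 5) (nat_lit 26498) (nat_lit 10) (node (nat_lit
  4) (nat_lit 29759) (nat_lit 11) (node (nat_lit 7) (nat_lit 31187) (nat_lit 12) nil nil) (node
  (nat_lit 7) (nat_lit 29759) (nat_lit 11) (node (nat_lit 4) (nat_lit 31187) (nat_lit 12) nil nil)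
  nil)) nil))) nil))) (node (nat_lit 7) (nat_lit 0) (nat_lit 8) (node (nat_lit 5) (nat_lit 0)
  (nat_lit 9) (node (nat_lit 4) (nat_lit 0) (nat_lit 10) (node (nat_lit 5) (nat_lit 0) (nat_lit
  11) (node (nat_lit 7) (nat_lit 0) (nat_lit 12) (node (nat_lit 4) (nat_lit 0) (nat_lit 13) (node
  (nat_lit 7) (nat_lit 0) (nat_lit 14) (node (nat_lit 5) (nat_lit 0) (nat_lit 15) (node (nat_lit
  7) (nat_lit 0) (nat_lit 16) (node (nat_lit 4) (nat_lit 60262) (nat_lit 17) (node (nat_lit 5)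
  (nat_lit 61177) (nat_lit 18) (node (nat_lit 4) (nat_lit 61846) (nat_lit 19) (node (nat_lit 7)
  (nat_lit 62384) (nat_lit 20) (node (nat_lit 5) (nat_lit 62678) (nat_lit 21) (node (nat_lit 7)
  (nat_lit 55631) (nat_lit 22) (node (nat_lit 4) (nat_lit 52907) (nat_lit 23) (node (nat_lit 7)
  (nat_lit 49203) (nat_lit 24) (node (nat_lit 5) (nat_lit 47620) (nat_lit 25) (node (nat_lit 4)
  (nat_lit 47693) (nat_lit 26) (node (nat_lit 5) (nat_lit 47763) (nat_lit 27) (node (nat_lit 7)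
  (nat_lit 47823) (nat_lit 28) (node (nat_lit 4) (nat_lit 47839) (nat_lit 29) nil nil) nil) nil)
  nil) nil) nil) nil) nil) (node (nat_lit 4) (nat_lit 62406) (nat_lit 21) (node (nat_lit 5)
  (nat_lit 62484) (nat_lit 22) nil nil) nil)) nil) (node (nat_lit 7) (nat_lit 61429) (nat_lit 19)
  nil nil)) nil) (node (nat_lit 0) (nat_lit 60938) (nat_lit 17) nil nil)) (node (nat_lit 0)
  (nat_lit 60238) (nat_lit 16) (node (nat_lit 7) (nat_lit 60238) (nat_lit 17) nil (node (nat_lit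
  5) (nat_lit 60238) (nat_lit 17) nil (node (nat_lit 4) (nat_lit 60238) (nat_lit 17) nil nil)))
  nil)) (node (nat_lit 0) (nat_lit 58550) (nat_lit 15) nil nil)) (node (nat_lit 5) (nat_lit 0)
  (nat_lit 14) (node (nat_lit 4) (nat_lit 0) (nat_lit 15) (node (nat_lit 7) (nat_lit 59211)
  (nat_lit 16) (node (nat_lit 4) (nat_lit 59990) (nat_lit 17) (node (nat_lit 5) (nat_lit 60353)
  (nat_lit 18) (node (nat_lit 7) (nat_lit 60605) (nat_lit 19) nil nil) nil) (node (nat_lit 5)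
  (nat_lit 59765) (nat_lit 17) (node (nat_lit 7) (nat_lit 30187) (nat_lit 18) (node (nat_lit 4)
  (nat_lit 30557) (nat_lit 19) (node (nat_lit 7) (nat_lit 30845) (nat_lit 20) (node (nat_lit 5)
  (nat_lit 30931) (nat_lit 21) (node (nat_lit 4) (nat_lit 31040) (nat_lit 22) nil nil) nil) (node
  (nat_lit 5) (nat_lit 30668) (nat_lit 20) nil nil)) nil) (node (nat_lit 4) (nat_lit 60291)
  (nat_lit 18) (node (nat_lit 5) (nat_lit 60110) (nat_lit 19) nil nil) nil)) nil)) (node (nat_lit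
  0) (nat_lit 59685) (nat_lit 16) nil nil)) (node (nat_lit 0) (nat_lit 58535) (nat_lit 15) nil
  nil)) (node (nat_lit 0) (nat_lit 56911) (nat_lit 14) (node (nat_lit 4) (nat_lit 56911) (nat_lit
  15) nil (node (nat_lit 5) (nat_lit 56911) (nat_lit 15) nil (node (nat_lit 7) (nat_lit 56911)
  (nat_lit 15) nil nil))) nil))) (node (nat_lit 5) (nat_lit 0) (nat_lit 13) (node (nat_lit 4)
  (nat_lit 0) (nat_lit 14) (node (nat_lit 7) (nat_lit 0) (nat_lit 15) (node (nat_lit 4) (nat_lit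
  59009) (nat_lit 16) (node (nat_lit 5) (nat_lit 59738) (nat_lit 17) (node (nat_lit 4) (nat_lit
  60283) (nat_lit 18) (node (nat_lit 7) (nat_lit 59281) (nat_lit 19) (node (nat_lit 5) (nat_lit
  58731) (nat_lit 20) (node (nat_lit 7) (nat_lit 56370) (nat_lit 21) (node (nat_lit 4) (nat_lit
  53490) (nat_lit 22) (node (nat_lit 7) (nat_lit 47441) (nat_lit 23) (node (nat_lit 5) (nat_lit
  35621) (nat_lit 24) (node (nat_lit 4) (nat_lit 30604) (nat_lit 25) (node (nat_lit 5) (nat_lit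
  30659) (nat_lit 26) (node (nat_lit 7) (nat_lit 30705) (nat_lit 27) nil nil) nil) nil) nil) nil)
  nil) nil) nil) nil) (node (nat_lit 7) (nat_lit 60607) (nat_lit 18) (node (nat_lit 4) (nat_lit
  61124) (nat_lit 19) nil nil) nil)) nil) (node (nat_lit 5) (nat_lit 0) (nat_lit 16) (node
  (nat_lit 7) (nat_lit 0) (nat_lit 17) (node (nat_lit 4) (nat_lit 61426) (nat_lit 18) (node
  (nat_lit 5) (nat_lit 62240) (nat_lit 19) (node (nat_lit 4) (nat_lit 62472) (nat_lit 20) (node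
  (nat_lit 7) (nat_lit 62884) (nat_lit 21) (node (nat_lit 5) (nat_lit 59913) (nat_lit 22) nil nil)
  nil) (node (nat_lit 7) (nat_lit 62644) (nat_lit 20) nil nil)) (node (nat_lit 7) (nat_lit 62156)
  (nat_lit 19) (node (nat_lit 5) (nat_lit 62044) (nat_lit 20) nil nil) nil)) (node (nat_lit 0)
  (nat_lit 61953) (nat_lit 18) nil nil)) (node (nat_lit 0) (nat_lit 60990) (nat_lit 17) nil nil))
  (node (nat_lit 0) (nat_lit 58734) (nat_lit 16) nil nil))) (node (nat_lit 0) (nat_lit 58089)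
  (nat_lit 15) nil nil)) (node (nat_lit 0) (nat_lit 56939) (nat_lit 14) (node (nat_lit 7) (nat_lit
  56939) (nat_lit 15) nil nil) nil)) (node (nat_lit 0) (nat_lit 54394) (nat_lit 13) (node (nat_lit
  4) (nat_lit 54856) (nat_lit 14) (node (nat_lit 7) (nat_lit 54847) (nat_lit 15) nil (node
  (nat_lit 5) (nat_lit 54959) (nat_lit 15) nil nil)) (node (nat_lit 7) (nat_lit 54719) (nat_lit
  14) (node (nat_lit 5) (nat_lit 54719) (nat_lit 15) nil (node (nat_lit 4) (nat_lit 54719)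
  (nat_lit 15) nil nil)) (node (nat_lit 5) (nat_lit 54712) (nat_lit 14) (node (nat_lit 7) (nat_lit
  55428) (nat_lit 15) nil (node (nat_lit 4) (nat_lit 54712) (nat_lit 15) nil nil)) nil))) nil)))
  (node (nat_lit 0) (nat_lit 51001) (nat_lit 12) (node (nat_lit 5) (nat_lit 51001) (nat_lit 13)
  nil nil) nil)) (node (nat_lit 7) (nat_lit 0) (nat_lit 11) (node (nat_lit 4) (nat_lit 0) (nat_lit
  12) (node (nat_lit 5) (nat_lit 0) (nat_lit 13) (node (nat_lit 7) (nat_lit 55246) (nat_lit 14)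
  (node (nat_lit 4) (nat_lit 57469) (nat_lit 15) (node (nat_lit 7) (nat_lit 0) (nat_lit 16) (node
  (nat_lit 5) (nat_lit 59916) (nat_lit 17) (node (nat_lit 7) (nat_lit 59989) (nat_lit 18) (node
  (nat_lit 4) (nat_lit 60090) (nat_lit 19) (node (nat_lit 5) (nat_lit 60087) (nat_lit 20) (node
  (nat_lit 4) (nat_lit 60162) (nat_lit 21) (node (nat_lit 7) (nat_lit 59617) (nat_lit 22) (node
  (nat_lit 5) (nat_lit 59646) (nat_lit 23) (node (nat_lit 7) (nat_lit 58801) (nat_lit 24) (node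
  (nat_lit 4) (nat_lit 57395) (nat_lit 25) (node (nat_lit 7) (nat_lit 55604) (nat_lit 26) (node
  (nat_lit 5) (nat_lit 53533) (nat_lit 27) (node (nat_lit 4) (nat_lit 48567) (nat_lit 28) (node
  (nat_lit 7) (nat_lit 47233) (nat_lit 29) (node (nat_lit 4) (nat_lit 47247) (nat_lit 30) (node
  (nat_lit 5) (nat_lit 47245) (nat_lit 31) (node (nat_lit 7) (nat_lit 47269) (nat_lit 32) nil nil)
  nil) nil) nil) nil) nil) nil) nil) nil) nil) nil) nil) nil) nil) (node (nat_lit 4) (nat_lit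
  60172) (nat_lit 18) (node (nat_lit 5) (nat_lit 59991) (nat_lit 19) nil nil) nil)) (node (nat_lit
  0) (nat_lit 59851) (nat_lit 17) nil nil)) nil) (node (nat_lit 5) (nat_lit 57230) (nat_lit 15)
  (node (nat_lit 4) (nat_lit 58939) (nat_lit 16) (node (nat_lit 7) (nat_lit 58458) (nat_lit 17)
  nil (node (nat_lit 5) (nat_lit 59075) (nat_lit 17) nil nil)) nil) nil)) (node (nat_lit 4)
  (nat_lit 54690) (nat_lit 14) (node (nat_lit 7) (nat_lit 50215) (nat_lit 15) (node (nat_lit 5)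
  (nat_lit 46221) (nat_lit 16) (node (nat_lit 7) (nat_lit 29073) (nat_lit 17) (node (nat_lit 4)
  (nat_lit 29857) (nat_lit 18) (node (nat_lit 7) (nat_lit 29988) (nat_lit 19) (node (nat_lit 5)
  (nat_lit 30229) (nat_lit 20) nil nil) (node (nat_lit 5) (nat_lit 30480) (nat_lit 19) nil nil))
  nil) (node (nat_lit 4) (nat_lit 47393) (nat_lit 17) (node (nat_lit 5) (nat_lit 48146) (nat_lit
  18) (node (nat_lit 7) (nat_lit 48766) (nat_lit 19) (node (nat_lit 4) (nat_lit 48861) (nat_lit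
  20) nil nil) nil) nil) nil)) nil) nil) (node (nat_lit 0) (nat_lit 56016) (nat_lit 14) nil nil)))
  (node (nat_lit 0) (nat_lit 54053) (nat_lit 13) nil nil)) (node (nat_lit 0) (nat_lit 51237)
  (nat_lit 12) (node (nat_lit 4) (nat_lit 51340) (nat_lit 13) nil (node (nat_lit 5) (nat_lit
  51228) (nat_lit 13) nil (node (nat_lit 7) (nat_lit 51237) (nat_lit 13) nil nil))) nil)) (node
  (nat_lit 0) (nat_lit 47085) (nat_lit 11) (node (nat_lit 4) (nat_lit 46806) (nat_lit 12) (node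
  (nat_lit 5) (nat_lit 46806) (nat_lit 13) nil nil) (node (nat_lit 5) (nat_lit 48317) (nat_lit 12)
  (node (nat_lit 4) (nat_lit 48317) (nat_lit 13) nil (node (nat_lit 7) (nat_lit 48317) (nat_lit
  13) nil nil)) (node (nat_lit 7) (nat_lit 48821) (nat_lit 12) (node (nat_lit 4) (nat_lit 48821)
  (nat_lit 13) nil (node (nat_lit 5) (nat_lit 48821) (nat_lit 13) nil nil)) nil))) nil))) (node
  (nat_lit 0) (nat_lit 42400) (nat_lit 10) (node (nat_lit 4) (nat_lit 45050) (nat_lit 11) (node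
  (nat_lit 5) (nat_lit 47790) (nat_lit 12) (node (nat_lit 4) (nat_lit 48441) (nat_lit 13) (node
  (nat_lit 7) (nat_lit 47115) (nat_lit 14) nil nil) (node (nat_lit 7) (nat_lit 48903) (nat_lit 13)
  nil nil)) (node (nat_lit 7) (nat_lit 46827) (nat_lit 12) (node (nat_lit 4) (nat_lit 49116)
  (nat_lit 13) nil (node (nat_lit 5) (nat_lit 45888) (nat_lit 13) nil nil)) (node (nat_lit 13)
  (nat_lit 49714) (nat_lit 12) nil nil))) (node (nat_lit 7) (nat_lit 44848) (nat_lit 11) (node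
  (nat_lit 5) (nat_lit 47614) (nat_lit 12) (node (nat_lit 7) (nat_lit 49903) (nat_lit 13) (node
  (nat_lit 4) (nat_lit 50771) (nat_lit 14) nil nil) (node (nat_lit 4) (nat_lit 46615) (nat_lit 13)
  nil nil)) (node (nat_lit 4) (nat_lit 48569) (nat_lit 12) (node (nat_lit 5) (nat_lit 49682)
  (nat_lit 13) nil (node (nat_lit 7) (nat_lit 49682) (nat_lit 13) nil nil)) (node (nat_lit 13)
  (nat_lit 49513) (nat_lit 12) nil nil))) (node (nat_lit 5) (nat_lit 44164) (nat_lit 11) (node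
  (nat_lit 7) (nat_lit 47407) (nat_lit 12) nil (node (nat_lit 4) (nat_lit 47181) (nat_lit 12) nil
  nil)) (node (nat_lit 0) (nat_lit 46875) (nat_lit 11) nil nil)))) nil)) (node (nat_lit 0)
  (nat_lit 35772) (nat_lit 9) (node (nat_lit 5) (nat_lit 38854) (nat_lit 10) (node (nat_lit 4)
  (nat_lit 43011) (nat_lit 11) (node (nat_lit 7) (nat_lit 45250) (nat_lit 12) (node (nat_lit 4)
  (nat_lit 46363) (nat_lit 13) nil nil) (node (nat_lit 5) (nat_lit 44304) (nat_lit 12) nil nil))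
  (node (nat_lit 7) (nat_lit 43011) (nat_lit 11) (node (nat_lit 4) (nat_lit 45666) (nat_lit 12)
  nil nil) (node (nat_lit 12) (nat_lit 46686) (nat_lit 11) nil nil))) (node (nat_lit 4) (nat_lit
  38977) (nat_lit 10) (node (nat_lit 5) (nat_lit 43270) (nat_lit 11) (node (nat_lit 7) (nat_lit
  47121) (nat_lit 12) nil nil) (node (nat_lit 7) (nat_lit 43354) (nat_lit 11) (node (nat_lit 5)
  (nat_lit 46398) (nat_lit 12) nil nil) (node (nat_lit 12) (nat_lit 47181) (nat_lit 11) nil nil)))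
  (node (nat_lit 7) (nat_lit 38789) (nat_lit 10) (node (nat_lit 4) (nat_lit 43369) (nat_lit 11)
  (node (nat_lit 5) (nat_lit 46384) (nat_lit 12) nil nil) (node (nat_lit 5) (nat_lit 43196)
  (nat_lit 11) (node (nat_lit 4) (nat_lit 47257) (nat_lit 12) nil nil) nil)) nil))) nil)) nil))

noncomputable def t272 : Tr :=
  (node (nat_lit 5) (nat_lit 0) (nat_lit 9) (node (nat_lit 4) (nat_lit 0) (nat_lit 10) (node
  (nat_lit 7) (nat_lit 0) (nat_lit 11) (node (nat_lit 5) (nat_lit 0) (nat_lit 12) (node (nat_lit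
  7) (nat_lit 0) (nat_lit 13) (node (nat_lit 4) (nat_lit 0) (nat_lit 14) (node (nat_lit 7)
  (nat_lit 0) (nat_lit 15) (node (nat_lit 5) (nat_lit 83762) (nat_lit 16) (node (nat_lit 4)
  (nat_lit 83963) (nat_lit 17) (node (nat_lit 7) (nat_lit 83963) (nat_lit 18) (node (nat_lit 4)
  (nat_lit 83963) (nat_lit 19) (node (nat_lit 5) (nat_lit 83963) (nat_lit 20) (node (nat_lit 4)
  (nat_lit 83963) (nat_lit 21) (node (nat_lit 7) (nat_lit 83963) (nat_lit 22) (node (nat_lit 5)
  (nat_lit 83963) (nat_lit 23) (node (nat_lit 4) (nat_lit 83808) (nat_lit 24) (node (nat_lit 5)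
  (nat_lit 82308) (nat_lit 25) (node (nat_lit 7) (nat_lit 80446) (nat_lit 26) (node (nat_lit 5)
  (nat_lit 77751) (nat_lit 27) (node (nat_lit 4) (nat_lit 73898) (nat_lit 28) (node (nat_lit 7)
  (nat_lit 67249) (nat_lit 29) (node (nat_lit 5) (nat_lit 55777) (nat_lit 30) (node (nat_lit 7)
  (nat_lit 55795) (nat_lit 31) (node (nat_lit 4) (nat_lit 55795) (nat_lit 32) nil nil) nil) nil)
  nil) nil) nil) nil) nil) nil) nil) nil) nil) nil) nil) (node (nat_lit 5) (nat_lit 0) (nat_lit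
  18) (node (nat_lit 7) (nat_lit 83963) (nat_lit 19) (node (nat_lit 4) (nat_lit 83963) (nat_lit
  20) (node (nat_lit 5) (nat_lit 83963) (nat_lit 21) (node (nat_lit 4) (nat_lit 83963) (nat_lit
  22) (node (nat_lit 7) (nat_lit 83963) (nat_lit 23) (node (nat_lit 5) (nat_lit 83963) (nat_lit
  24) nil nil) nil) nil) (node (nat_lit 7) (nat_lit 83963) (nat_lit 21) nil nil)) (node (nat_lit
  0) (nat_lit 83963) (nat_lit 20) nil nil)) (node (nat_lit 0) (nat_lit 83963) (nat_lit 19) nil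
  nil)) nil)) nil) (node (nat_lit 0) (nat_lit 83948) (nat_lit 16) nil nil)) (node (nat_lit 5)
  (nat_lit 0) (nat_lit 15) (node (nat_lit 4) (nat_lit 83963) (nat_lit 16) (node (nat_lit 7)
  (nat_lit 83963) (nat_lit 17) (node (nat_lit 5) (nat_lit 77727) (nat_lit 18) (node (nat_lit 4)
  (nat_lit 77839) (nat_lit 19) (node (nat_lit 5) (nat_lit 68381) (nat_lit 20) (node (nat_lit 7)
  (nat_lit 60849) (nat_lit 21) (node (nat_lit 5) (nat_lit 47095) (nat_lit 22) (node (nat_lit 4)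
  (nat_lit 31315) (nat_lit 23) (node (nat_lit 7) (nat_lit 31406) (nat_lit 24) nil nil) nil) (node
  (nat_lit 4) (nat_lit 60915) (nat_lit 22) nil nil)) nil) nil) nil) (node (nat_lit 4) (nat_lit
  83963) (nat_lit 18) (node (nat_lit 5) (nat_lit 83963) (nat_lit 19) nil nil) nil)) nil) (node
  (nat_lit 7) (nat_lit 83963) (nat_lit 16) (node (nat_lit 5) (nat_lit 83963) (nat_lit 17) (node
  (nat_lit 4) (nat_lit 83963) (nat_lit 18) nil nil) nil) (node (nat_lit 0) (nat_lit 83963)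
  (nat_lit 16) nil nil))) (node (nat_lit 0) (nat_lit 83963) (nat_lit 15) nil nil))) (node (nat_lit
  0) (nat_lit 83961) (nat_lit 14) (node (nat_lit 5) (nat_lit 83963) (nat_lit 15) (node (nat_lit 7)
  (nat_lit 83963) (nat_lit 16) nil (node (nat_lit 4) (nat_lit 83963) (nat_lit 16) nil nil)) (node
  (nat_lit 7) (nat_lit 83780) (nat_lit 15) (node (nat_lit 5) (nat_lit 83780) (nat_lit 16) nil
  (node (nat_lit 4) (nat_lit 83780) (nat_lit 16) nil nil)) (node (nat_lit 4) (nat_lit 83955)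
  (nat_lit 15) (node (nat_lit 7) (nat_lit 83955) (nat_lit 16) nil (node (nat_lit 5) (nat_lit
  83955) (nat_lit 16) nil nil)) nil))) nil)) (node (nat_lit 0) (nat_lit 81444) (nat_lit 13) (node
  (nat_lit 7) (nat_lit 82324) (nat_lit 14) (node (nat_lit 5) (nat_lit 82677) (nat_lit 15) (node
  (nat_lit 4) (nat_lit 82276) (nat_lit 16) nil (node (nat_lit 7) (nat_lit 83206) (nat_lit 16) nil
  nil)) (node (nat_lit 4) (nat_lit 82860) (nat_lit 15) nil nil)) (node (nat_lit 5) (nat_lit 81761)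
  (nat_lit 14) (node (nat_lit 7) (nat_lit 82734) (nat_lit 15) (node (nat_lit 4) (nat_lit 83821)
  (nat_lit 16) nil nil) (node (nat_lit 4) (nat_lit 82632) (nat_lit 15) (node (nat_lit 7) (nat_lit
  83161) (nat_lit 16) nil nil) nil)) (node (nat_lit 4) (nat_lit 81848) (nat_lit 14) (node (nat_lit
  5) (nat_lit 82640) (nat_lit 15) (node (nat_lit 4) (nat_lit 82240) (nat_lit 16) nil nil) (node
  (nat_lit 7) (nat_lit 82571) (nat_lit 15) nil nil)) (node (nat_lit 0) (nat_lit 81972) (nat_lit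
  14) nil nil)))) nil)) (node (nat_lit 4) (nat_lit 0) (nat_lit 12) (node (nat_lit 5) (nat_lit 0)
  (nat_lit 13) (node (nat_lit 7) (nat_lit 0) (nat_lit 14) (node (nat_lit 4) (nat_lit 0) (nat_lit
  15) (node (nat_lit 7) (nat_lit 0) (nat_lit 16) (node (nat_lit 5) (nat_lit 83963) (nat_lit 17)
  (node (nat_lit 7) (nat_lit 83963) (nat_lit 18) (node (nat_lit 4) (nat_lit 83963) (nat_lit 19)
  (node (nat_lit 5) (nat_lit 83963) (nat_lit 20) (node (nat_lit 4) (nat_lit 83963) (nat_lit 21)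
  (node (nat_lit 7) (nat_lit 83963) (nat_lit 22) (node (nat_lit 5) (nat_lit 83963) (nat_lit 23)
  (node (nat_lit 4) (nat_lit 83963) (nat_lit 24) (node (nat_lit 5) (nat_lit 83963) (nat_lit 25)
  (node (nat_lit 7) (nat_lit 82385) (nat_lit 26) (node (nat_lit 5) (nat_lit 80327) (nat_lit 27)
  (node (nat_lit 4) (nat_lit 75346) (nat_lit 28) (node (nat_lit 7) (nat_lit 67193) (nat_lit 29)
  (node (nat_lit 4) (nat_lit 56984) (nat_lit 30) (node (nat_lit 5) (nat_lit 47098) (nat_lit 31)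
  (node (nat_lit 7) (nat_lit 47123) (nat_lit 32) (node (nat_lit 4) (nat_lit 47141) (nat_lit 33)
  nil nil) nil) nil) nil) nil) nil) nil) nil) nil) nil) nil) nil) nil) nil) nil) (node (nat_lit 4)
  (nat_lit 83963) (nat_lit 18) (node (nat_lit 7) (nat_lit 83963) (nat_lit 19) (node (nat_lit 4)
  (nat_lit 83963) (nat_lit 20) (node (nat_lit 5) (nat_lit 83963) (nat_lit 21) (node (nat_lit 4)
  (nat_lit 83963) (nat_lit 22) nil nil) nil) nil) (node (nat_lit 5) (nat_lit 83963) (nat_lit 19)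
  nil nil)) nil)) (node (nat_lit 0) (nat_lit 83963) (nat_lit 17) nil nil)) (node (nat_lit 0)
  (nat_lit 83963) (nat_lit 16) nil nil)) (node (nat_lit 5) (nat_lit 0) (nat_lit 15) (node (nat_lit
  4) (nat_lit 0) (nat_lit 16) (node (nat_lit 5) (nat_lit 83963) (nat_lit 17) (node (nat_lit 7)
  (nat_lit 83963) (nat_lit 18) (node (nat_lit 4) (nat_lit 83963) (nat_lit 19) (node (nat_lit 5)
  (nat_lit 83963) (nat_lit 20) (node (nat_lit 4) (nat_lit 83963) (nat_lit 21) (node (nat_lit 7)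
  (nat_lit 83963) (nat_lit 22) (node (nat_lit 5) (nat_lit 83963) (nat_lit 23) (node (nat_lit 4)
  (nat_lit 83963) (nat_lit 24) (node (nat_lit 5) (nat_lit 83838) (nat_lit 25) (node (nat_lit 7)
  (nat_lit 82039) (nat_lit 26) (node (nat_lit 5) (nat_lit 79972) (nat_lit 27) (node (nat_lit 4)
  (nat_lit 74997) (nat_lit 28) (node (nat_lit 7) (nat_lit 72728) (nat_lit 29) (node (nat_lit 4)
  (nat_lit 66377) (nat_lit 30) (node (nat_lit 5) (nat_lit 59760) (nat_lit 31) (node (nat_lit 7)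
  (nat_lit 59784) (nat_lit 32) nil nil) nil) nil) nil) nil) nil) nil) nil) nil) nil) nil) nil)
  nil) nil) nil) (node (nat_lit 0) (nat_lit 83963) (nat_lit 17) nil nil)) (node (nat_lit 0)
  (nat_lit 83963) (nat_lit 16) nil nil)) (node (nat_lit 0) (nat_lit 83963) (nat_lit 15) (node
  (nat_lit 7) (nat_lit 83963) (nat_lit 16) nil (node (nat_lit 5) (nat_lit 83963) (nat_lit 16) nil
  (node (nat_lit 4) (nat_lit 83963) (nat_lit 16) nil nil))) nil))) (node (nat_lit 4) (nat_lit 0)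
  (nat_lit 14) (node (nat_lit 7) (nat_lit 0) (nat_lit 15) (node (nat_lit 5) (nat_lit 77821)
  (nat_lit 16) (node (nat_lit 4) (nat_lit 0) (nat_lit 17) (node (nat_lit 5) (nat_lit 54904)
  (nat_lit 18) (node (nat_lit 7) (nat_lit 55156) (nat_lit 19) (node (nat_lit 4) (nat_lit 55353)
  (nat_lit 20) (node (nat_lit 7) (nat_lit 55506) (nat_lit 21) nil nil) (node (nat_lit 5) (nat_lit
  55353) (nat_lit 20) nil nil)) nil) (node (nat_lit 0) (nat_lit 55353) (nat_lit 18) nil nil))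
  (node (nat_lit 7) (nat_lit 79033) (nat_lit 17) (node (nat_lit 4) (nat_lit 79325) (nat_lit 18)
  (node (nat_lit 5) (nat_lit 79312) (nat_lit 19) (node (nat_lit 4) (nat_lit 79143) (nat_lit 20)
  nil nil) (node (nat_lit 7) (nat_lit 79575) (nat_lit 19) nil nil)) nil) nil)) (node (nat_lit 0)
  (nat_lit 82254) (nat_lit 16) nil nil)) (node (nat_lit 0) (nat_lit 83963) (nat_lit 15) nil nil))
  (node (nat_lit 0) (nat_lit 83883) (nat_lit 14) (node (nat_lit 4) (nat_lit 83702) (nat_lit 15)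
  (node (nat_lit 5) (nat_lit 83782) (nat_lit 16) nil (node (nat_lit 7) (nat_lit 83702) (nat_lit
  16) nil nil)) (node (nat_lit 5) (nat_lit 83963) (nat_lit 15) (node (nat_lit 4) (nat_lit 83963)
  (nat_lit 16) nil (node (nat_lit 7) (nat_lit 83963) (nat_lit 16) nil nil)) (node (nat_lit 7)
  (nat_lit 83883) (nat_lit 15) (node (nat_lit 5) (nat_lit 83883) (nat_lit 16) nil (node (nat_lit
  4) (nat_lit 83883) (nat_lit 16) nil nil)) nil))) nil))) (node (nat_lit 0) (nat_lit 81444)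
  (nat_lit 13) (node (nat_lit 4) (nat_lit 81294) (nat_lit 14) (node (nat_lit 5) (nat_lit 82204)
  (nat_lit 15) nil (node (nat_lit 7) (nat_lit 82197) (nat_lit 15) nil nil)) (node (nat_lit 5)
  (nat_lit 81761) (nat_lit 14) (node (nat_lit 4) (nat_lit 81761) (nat_lit 15) nil (node (nat_lit
  7) (nat_lit 81761) (nat_lit 15) nil nil)) (node (nat_lit 7) (nat_lit 81769) (nat_lit 14) (node
  (nat_lit 4) (nat_lit 81769) (nat_lit 15) nil (node (nat_lit 5) (nat_lit 81769) (nat_lit 15) nil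
  nil)) nil))) nil)) (node (nat_lit 0) (nat_lit 78814) (nat_lit 12) (node (nat_lit 4) (nat_lit
  80142) (nat_lit 13) (node (nat_lit 7) (nat_lit 81245) (nat_lit 14) (node (nat_lit 5) (nat_lit
  80704) (nat_lit 15) nil (node (nat_lit 4) (nat_lit 82640) (nat_lit 15) (node (nat_lit 5)
  (nat_lit 83169) (nat_lit 16) nil nil) nil)) (node (nat_lit 5) (nat_lit 81939) (nat_lit 14) (node
  (nat_lit 4) (nat_lit 82368) (nat_lit 15) nil (node (nat_lit 7) (nat_lit 82618) (nat_lit 15) nil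
  nil)) nil)) (node (nat_lit 5) (nat_lit 79945) (nat_lit 13) (node (nat_lit 4) (nat_lit 81266)
  (nat_lit 14) (node (nat_lit 7) (nat_lit 81936) (nat_lit 15) (node (nat_lit 5) (nat_lit 81536)
  (nat_lit 16) nil nil) (node (nat_lit 5) (nat_lit 81880) (nat_lit 15) nil nil)) (node (nat_lit 7)
  (nat_lit 81187) (nat_lit 14) (node (nat_lit 5) (nat_lit 81970) (nat_lit 15) (node (nat_lit 4)
  (nat_lit 81569) (nat_lit 16) nil nil) (node (nat_lit 4) (nat_lit 81866) (nat_lit 15) nil nil))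
  (node (nat_lit 15) (nat_lit 81152) (nat_lit 14) nil nil))) (node (nat_lit 7) (nat_lit 79945)
  (nat_lit 13) (node (nat_lit 5) (nat_lit 81180) (nat_lit 14) (node (nat_lit 4) (nat_lit 82730)
  (nat_lit 15) nil (node (nat_lit 7) (nat_lit 82575) (nat_lit 15) nil nil)) (node (nat_lit 4)
  (nat_lit 81266) (nat_lit 14) (node (nat_lit 5) (nat_lit 82048) (nat_lit 15) nil (node (nat_lit
  7) (nat_lit 81936) (nat_lit 15) nil nil)) nil)) (node (nat_lit 0) (nat_lit 81540) (nat_lit 13)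
  nil nil)))) nil))) (node (nat_lit 0) (nat_lit 74447) (nat_lit 11) (node (nat_lit 4) (nat_lit
  76147) (nat_lit 12) (node (nat_lit 7) (nat_lit 78845) (nat_lit 13) (node (nat_lit 5) (nat_lit
  79978) (nat_lit 14) (node (nat_lit 4) (nat_lit 79430) (nat_lit 15) nil (node (nat_lit 7)
  (nat_lit 78897) (nat_lit 15) nil nil)) (node (nat_lit 4) (nat_lit 80630) (nat_lit 14) nil nil))
  (node (nat_lit 5) (nat_lit 78593) (nat_lit 13) (node (nat_lit 7) (nat_lit 80378) (nat_lit 14)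
  nil (node (nat_lit 4) (nat_lit 80782) (nat_lit 14) (node (nat_lit 7) (nat_lit 79701) (nat_lit
  15) nil nil) nil)) (node (nat_lit 0) (nat_lit 79786) (nat_lit 13) nil nil))) (node (nat_lit 5)
  (nat_lit 76395) (nat_lit 12) (node (nat_lit 4) (nat_lit 79045) (nat_lit 13) (node (nat_lit 5)
  (nat_lit 79796) (nat_lit 14) (node (nat_lit 7) (nat_lit 81296) (nat_lit 15) (node (nat_lit 4)
  (nat_lit 81737) (nat_lit 16) nil nil) nil) (node (nat_lit 7) (nat_lit 79890) (nat_lit 14) nil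
  nil)) (node (nat_lit 7) (nat_lit 78701) (nat_lit 13) (node (nat_lit 4) (nat_lit 80486) (nat_lit
  14) nil (node (nat_lit 5) (nat_lit 79690) (nat_lit 14) (node (nat_lit 4) (nat_lit 79938)
  (nat_lit 15) nil nil) nil)) (node (nat_lit 14) (nat_lit 80034) (nat_lit 13) nil nil))) (node
  (nat_lit 7) (nat_lit 76173) (nat_lit 12) (node (nat_lit 4) (nat_lit 78706) (nat_lit 13) (node
  (nat_lit 7) (nat_lit 80109) (nat_lit 14) (node (nat_lit 5) (nat_lit 79672) (nat_lit 15) nil nil)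
  (node (nat_lit 5) (nat_lit 79696) (nat_lit 14) nil nil)) (node (nat_lit 5) (nat_lit 78479)
  (nat_lit 13) (node (nat_lit 4) (nat_lit 78053) (nat_lit 14) (node (nat_lit 7) (nat_lit 76972)
  (nat_lit 15) nil nil) (node (nat_lit 7) (nat_lit 80264) (nat_lit 14) nil nil)) (node (nat_lit
  14) (nat_lit 79812) (nat_lit 13) nil nil))) (node (nat_lit 0) (nat_lit 77936) (nat_lit 12) nil
  nil)))) nil)) (node (nat_lit 0) (nat_lit 0) (nat_lit 10) (node (nat_lit 4) (nat_lit 71846)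
  (nat_lit 11) (node (nat_lit 5) (nat_lit 75185) (nat_lit 12) (node (nat_lit 7) (nat_lit 77889)
  (nat_lit 13) (node (nat_lit 5) (nat_lit 78879) (nat_lit 14) (node (nat_lit 4) (nat_lit 78338)
  (nat_lit 15) nil nil) (node (nat_lit 4) (nat_lit 78758) (nat_lit 14) nil nil)) (node (nat_lit 4)
  (nat_lit 78174) (nat_lit 13) (node (nat_lit 7) (nat_lit 79994) (nat_lit 14) (node (nat_lit 5)
  (nat_lit 81110) (nat_lit 15) nil (node (nat_lit 4) (nat_lit 78473) (nat_lit 15) nil nil)) nil)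
  nil)) (node (nat_lit 7) (nat_lit 75217) (nat_lit 12) (node (nat_lit 5) (nat_lit 77807) (nat_lit
  13) (node (nat_lit 7) (nat_lit 78753) (nat_lit 14) (node (nat_lit 4) (nat_lit 77478) (nat_lit
  15) (node (nat_lit 5) (nat_lit 77455) (nat_lit 16) (node (nat_lit 4) (nat_lit 76483) (nat_lit
  17) nil nil) nil) nil) (node (nat_lit 4) (nat_lit 77381) (nat_lit 14) nil nil)) (node (nat_lit
  4) (nat_lit 77922) (nat_lit 13) (node (nat_lit 5) (nat_lit 78912) (nat_lit 14) nil nil) nil))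
  (node (nat_lit 13) (nat_lit 77955) (nat_lit 12) nil nil))) (node (nat_lit 7) (nat_lit 71046)
  (nat_lit 11) (node (nat_lit 4) (nat_lit 74682) (nat_lit 12) (node (nat_lit 5) (nat_lit 77056)
  (nat_lit 13) (node (nat_lit 4) (nat_lit 78617) (nat_lit 14) (node (nat_lit 7) (nat_lit 79372)
  (nat_lit 15) nil nil) (node (nat_lit 7) (nat_lit 78841) (nat_lit 14) nil nil)) (node (nat_lit 7)
  (nat_lit 77857) (nat_lit 13) (node (nat_lit 5) (nat_lit 77251) (nat_lit 14) (node (nat_lit 4)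
  (nat_lit 76710) (nat_lit 15) nil (node (nat_lit 7) (nat_lit 76169) (nat_lit 15) nil nil)) nil)
  nil)) (node (nat_lit 5) (nat_lit 74331) (nat_lit 12) (node (nat_lit 4) (nat_lit 78125) (nat_lit
  13) (node (nat_lit 5) (nat_lit 78877) (nat_lit 14) (node (nat_lit 7) (nat_lit 80542) (nat_lit
  15) (node (nat_lit 4) (nat_lit 81302) (nat_lit 16) nil nil) nil) (node (nat_lit 7) (nat_lit
  77857) (nat_lit 14) nil nil)) (node (nat_lit 7) (nat_lit 77750) (nat_lit 13) (node (nat_lit 4)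
  (nat_lit 79536) (nat_lit 14) nil nil) nil)) (node (nat_lit 13) (nat_lit 77155) (nat_lit 12) nil
  nil))) (node (nat_lit 5) (nat_lit 70935) (nat_lit 11) (node (nat_lit 7) (nat_lit 73959) (nat_lit
  12) (node (nat_lit 4) (nat_lit 78315) (nat_lit 13) (node (nat_lit 7) (nat_lit 79184) (nat_lit
  14) nil (node (nat_lit 5) (nat_lit 79184) (nat_lit 14) nil nil)) (node (nat_lit 5) (nat_lit
  76653) (nat_lit 13) nil nil)) (node (nat_lit 4) (nat_lit 74819) (nat_lit 12) (node (nat_lit 7)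
  (nat_lit 78445) (nat_lit 13) (node (nat_lit 5) (nat_lit 78635) (nat_lit 14) nil (node (nat_lit
  4) (nat_lit 79314) (nat_lit 14) nil nil)) (node (nat_lit 5) (nat_lit 78239) (nat_lit 13) nil
  nil)) nil)) (node (nat_lit 0) (nat_lit 73516) (nat_lit 11) (node (nat_lit 5) (nat_lit 74020)
  (nat_lit 12) nil (node (nat_lit 13) (nat_lit 74384) (nat_lit 12) nil nil)) nil)))) nil)) (node
  (nat_lit 4) (nat_lit 0) (nat_lit 9) (node (nat_lit 5) (nat_lit 0) (nat_lit 10) (node (nat_lit 4)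
  (nat_lit 0) (nat_lit 11) (node (nat_lit 7) (nat_lit 0) (nat_lit 12) (node (nat_lit 5) (nat_lit
  0) (nat_lit 13) (node (nat_lit 7) (nat_lit 0) (nat_lit 14) (node (nat_lit 4) (nat_lit 57311)
  (nat_lit 15) (node (nat_lit 7) (nat_lit 58071) (nat_lit 16) (node (nat_lit 5) (nat_lit 59007)
  (nat_lit 17) (node (nat_lit 4) (nat_lit 59697) (nat_lit 18) (node (nat_lit 5) (nat_lit 60287)
  (nat_lit 19) (node (nat_lit 7) (nat_lit 60747) (nat_lit 20) nil nil) (node (nat_lit 7) (nat_lit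
  59335) (nat_lit 19) nil nil)) nil) nil) (node (nat_lit 5) (nat_lit 57820) (nat_lit 16) (node
  (nat_lit 7) (nat_lit 58671) (nat_lit 17) (node (nat_lit 5) (nat_lit 59043) (nat_lit 18) nil nil)
  (node (nat_lit 4) (nat_lit 56972) (nat_lit 17) nil nil)) nil)) (node (nat_lit 0) (nat_lit 58591)
  (nat_lit 15) nil nil)) (node (nat_lit 0) (nat_lit 57372) (nat_lit 14) (node (nat_lit 5) (nat_lit
  57372) (nat_lit 15) nil (node (nat_lit 7) (nat_lit 57372) (nat_lit 15) nil nil)) (node (nat_lit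
  4) (nat_lit 26289) (nat_lit 14) nil nil))) (node (nat_lit 4) (nat_lit 0) (nat_lit 13) (node
  (nat_lit 5) (nat_lit 0) (nat_lit 14) (node (nat_lit 7) (nat_lit 57362) (nat_lit 15) (node
  (nat_lit 5) (nat_lit 58797) (nat_lit 16) (node (nat_lit 4) (nat_lit 59692) (nat_lit 17) (node
  (nat_lit 5) (nat_lit 60446) (nat_lit 18) (node (nat_lit 7) (nat_lit 61036) (nat_lit 19) (node
  (nat_lit 4) (nat_lit 61387) (nat_lit 20) (node (nat_lit 5) (nat_lit 61607) (nat_lit 21) (node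
  (nat_lit 4) (nat_lit 61754) (nat_lit 22) (node (nat_lit 7) (nat_lit 61919) (nat_lit 23) nil nil)
  nil) nil) nil) nil) (node (nat_lit 7) (nat_lit 59217) (nat_lit 18) nil nil)) nil) (node (nat_lit
  4) (nat_lit 58508) (nat_lit 16) (node (nat_lit 7) (nat_lit 59328) (nat_lit 17) (node (nat_lit 5)
  (nat_lit 59095) (nat_lit 18) nil nil) nil) nil)) (node (nat_lit 0) (nat_lit 57142) (nat_lit 15)
  nil nil)) (node (nat_lit 0) (nat_lit 56875) (nat_lit 14) nil nil)) (node (nat_lit 0) (nat_lit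
  55630) (nat_lit 13) (node (nat_lit 7) (nat_lit 55630) (nat_lit 14) nil (node (nat_lit 5)
  (nat_lit 55630) (nat_lit 14) nil (node (nat_lit 4) (nat_lit 55630) (nat_lit 14) nil nil)))
  nil))) (node (nat_lit 0) (nat_lit 53302) (nat_lit 12) (node (nat_lit 5) (nat_lit 54034) (nat_lit
  13) (node (nat_lit 4) (nat_lit 55046) (nat_lit 14) nil (node (nat_lit 7) (nat_lit 54952)
  (nat_lit 14) (node (nat_lit 4) (nat_lit 55630) (nat_lit 15) nil nil) nil)) (node (nat_lit 7)
  (nat_lit 53320) (nat_lit 13) (node (nat_lit 4) (nat_lit 54236) (nat_lit 14) nil (node (nat_lit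
  5) (nat_lit 53440) (nat_lit 14) (node (nat_lit 4) (nat_lit 52900) (nat_lit 15) nil nil) nil))
  (node (nat_lit 4) (nat_lit 52706) (nat_lit 13) (node (nat_lit 7) (nat_lit 52706) (nat_lit 14)
  nil (node (nat_lit 5) (nat_lit 52706) (nat_lit 14) nil nil)) nil))) nil)) (node (nat_lit 0)
  (nat_lit 59405) (nat_lit 11) (node (nat_lit 5) (nat_lit 60341) (nat_lit 12) (node (nat_lit 4)
  (nat_lit 61635) (nat_lit 13) nil (node (nat_lit 7) (nat_lit 61516) (nat_lit 13) nil nil)) (node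
  (nat_lit 4) (nat_lit 60641) (nat_lit 12) (node (nat_lit 5) (nat_lit 61185) (nat_lit 13) nil
  (node (nat_lit 7) (nat_lit 60581) (nat_lit 13) nil nil)) (node (nat_lit 7) (nat_lit 60341)
  (nat_lit 12) (node (nat_lit 5) (nat_lit 60884) (nat_lit 13) nil (node (nat_lit 4) (nat_lit
  61516) (nat_lit 13) nil nil)) (node (nat_lit 0) (nat_lit 60273) (nat_lit 12) nil nil)))) nil))
  (node (nat_lit 7) (nat_lit 0) (nat_lit 10) (node (nat_lit 5) (nat_lit 0) (nat_lit 11) (node
  (nat_lit 4) (nat_lit 0) (nat_lit 12) (node (nat_lit 7) (nat_lit 0) (nat_lit 13) (node (nat_lit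
  4) (nat_lit 0) (nat_lit 14) (node (nat_lit 5) (nat_lit 83172) (nat_lit 15) (node (nat_lit 4)
  (nat_lit 83963) (nat_lit 16) (node (nat_lit 7) (nat_lit 83963) (nat_lit 17) (node (nat_lit 5)
  (nat_lit 82801) (nat_lit 18) (node (nat_lit 4) (nat_lit 65631) (nat_lit 19) (node (nat_lit 5)
  (nat_lit 55327) (nat_lit 20) (node (nat_lit 7) (nat_lit 55506) (nat_lit 21) (node (nat_lit 4)
  (nat_lit 55536) (nat_lit 22) (node (nat_lit 7) (nat_lit 55584) (nat_lit 23) (node (nat_lit 5)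
  (nat_lit 55674) (nat_lit 24) nil nil) nil) nil) nil) nil) (node (nat_lit 7) (nat_lit 83171)
  (nat_lit 19) nil nil)) nil) nil) (node (nat_lit 7) (nat_lit 83963) (nat_lit 16) (node (nat_lit
  4) (nat_lit 83963) (nat_lit 17) nil (node (nat_lit 5) (nat_lit 83963) (nat_lit 17) nil nil))
  nil)) (node (nat_lit 0) (nat_lit 83963) (nat_lit 15) nil nil)) (node (nat_lit 0) (nat_lit 82131)
  (nat_lit 14) nil nil)) (node (nat_lit 5) (nat_lit 0) (nat_lit 13) (node (nat_lit 0) (nat_lit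
  82037) (nat_lit 14) nil nil) (node (nat_lit 0) (nat_lit 80472) (nat_lit 13) nil nil))) (node
  (nat_lit 7) (nat_lit 0) (nat_lit 12) (node (nat_lit 4) (nat_lit 0) (nat_lit 13) (node (nat_lit
  5) (nat_lit 80183) (nat_lit 14) (node (nat_lit 4) (nat_lit 80588) (nat_lit 15) (node (nat_lit 7)
  (nat_lit 79867) (nat_lit 16) (node (nat_lit 5) (nat_lit 75109) (nat_lit 17) (node (nat_lit 4)
  (nat_lit 55019) (nat_lit 18) (node (nat_lit 5) (nat_lit 55535) (nat_lit 19) (node (nat_lit 7)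
  (nat_lit 46021) (nat_lit 20) (node (nat_lit 4) (nat_lit 46140) (nat_lit 21) (node (nat_lit 7)
  (nat_lit 30973) (nat_lit 22) nil nil) nil) nil) nil) nil) (node (nat_lit 4) (nat_lit 80870)
  (nat_lit 17) (node (nat_lit 5) (nat_lit 81438) (nat_lit 18) (node (nat_lit 7) (nat_lit 81690)
  (nat_lit 19) nil nil) nil) nil)) nil) (node (nat_lit 7) (nat_lit 81578) (nat_lit 15) (node
  (nat_lit 5) (nat_lit 82190) (nat_lit 16) (node (nat_lit 4) (nat_lit 81888) (nat_lit 17) nil nil)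
  nil) nil)) (node (nat_lit 0) (nat_lit 80725) (nat_lit 14) nil nil)) (node (nat_lit 0) (nat_lit
  79664) (nat_lit 13) nil nil)) (node (nat_lit 0) (nat_lit 77776) (nat_lit 12) (node (nat_lit 4)
  (nat_lit 77776) (nat_lit 13) nil (node (nat_lit 7) (nat_lit 77776) (nat_lit 13) nil nil)) nil)))
  (node (nat_lit 0) (nat_lit 74058) (nat_lit 11) (node (nat_lit 7) (nat_lit 74575) (nat_lit 12)
  nil (node (nat_lit 5) (nat_lit 74562) (nat_lit 12) (node (nat_lit 7) (nat_lit 74562) (nat_lit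
  13) nil (node (nat_lit 4) (nat_lit 74562) (nat_lit 13) nil nil)) (node (nat_lit 4) (nat_lit
  73779) (nat_lit 12) nil nil))) nil)) (node (nat_lit 0) (nat_lit 69109) (nat_lit 10) (node
  (nat_lit 5) (nat_lit 71046) (nat_lit 11) (node (nat_lit 7) (nat_lit 73070) (nat_lit 12) (node
  (nat_lit 4) (nat_lit 74183) (nat_lit 13) nil nil) (node (nat_lit 4) (nat_lit 71589) (nat_lit 12)
  (node (nat_lit 5) (nat_lit 70650) (nat_lit 13) nil nil) (node (nat_lit 13) (nat_lit 73028)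
  (nat_lit 12) nil nil))) (node (nat_lit 7) (nat_lit 70982) (nat_lit 11) (node (nat_lit 4)
  (nat_lit 72210) (nat_lit 12) (node (nat_lit 7) (nat_lit 73324) (nat_lit 13) nil (node (nat_lit
  5) (nat_lit 73324) (nat_lit 13) nil nil)) (node (nat_lit 5) (nat_lit 71124) (nat_lit 12) nil
  (node (nat_lit 13) (nat_lit 72964) (nat_lit 12) nil nil))) (node (nat_lit 4) (nat_lit 71384)
  (nat_lit 11) (node (nat_lit 5) (nat_lit 72972) (nat_lit 12) nil (node (nat_lit 7) (nat_lit
  71795) (nat_lit 12) (node (nat_lit 5) (nat_lit 70856) (nat_lit 13) nil nil) nil)) (node (nat_lit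
  0) (nat_lit 71728) (nat_lit 11) nil nil)))) nil))) (node (nat_lit 0) (nat_lit 61632) (nat_lit 9)
  (node (nat_lit 4) (nat_lit 65444) (nat_lit 10) (node (nat_lit 7) (nat_lit 69600) (nat_lit 11)
  (node (nat_lit 5) (nat_lit 68587) (nat_lit 12) nil (node (nat_lit 4) (nat_lit 72534) (nat_lit
  12) nil nil)) (node (nat_lit 5) (nat_lit 68945) (nat_lit 11) (node (nat_lit 7) (nat_lit 71879)
  (nat_lit 12) nil (node (nat_lit 4) (nat_lit 69849) (nat_lit 12) nil nil)) nil)) (node (nat_lit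
  5) (nat_lit 64902) (nat_lit 10) (node (nat_lit 7) (nat_lit 69059) (nat_lit 11) (node (nat_lit 4)
  (nat_lit 71993) (nat_lit 12) nil (node (nat_lit 5) (nat_lit 71950) (nat_lit 12) nil nil)) (node
  (nat_lit 4) (nat_lit 68096) (nat_lit 11) (node (nat_lit 7) (nat_lit 69417) (nat_lit 12) nil
  (node (nat_lit 5) (nat_lit 66965) (nat_lit 12) nil nil)) nil)) (node (nat_lit 7) (nat_lit 64974)
  (nat_lit 10) (node (nat_lit 5) (nat_lit 68560) (nat_lit 11) (node (nat_lit 4) (nat_lit 71198)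
  (nat_lit 12) nil (node (nat_lit 7) (nat_lit 69988) (nat_lit 12) nil nil)) (node (nat_lit 4)
  (nat_lit 69743) (nat_lit 11) (node (nat_lit 5) (nat_lit 71312) (nat_lit 12) nil (node (nat_lit
  7) (nat_lit 71171) (nat_lit 12) nil nil)) nil)) nil))) nil)))

noncomputable def c85 : Tr :=
  (node (nat_lit 3) (nat_lit 0) (nat_lit 1) (node (nat_lit 3) (nat_lit 0) (nat_lit 2) (node
  (nat_lit 3) (nat_lit 0) (nat_lit 3) (node (nat_lit 4) (nat_lit 0) (nat_lit 4) (node (nat_lit 5)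
  (nat_lit 0) (nat_lit 5) (node (nat_lit 4) (nat_lit 0) (nat_lit 6) (node (nat_lit 6) (nat_lit 0)
  (nat_lit 7) t266 nil) nil) (node (nat_lit 6) (nat_lit 0) (nat_lit 5) (node (nat_lit 5) (nat_lit
  0) (nat_lit 6) t267 nil) nil)) (node (nat_lit 5) (nat_lit 0) (nat_lit 4) (node (nat_lit 4)
  (nat_lit 0) (nat_lit 5) (node (nat_lit 6) (nat_lit 0) (nat_lit 6) t269 (node (nat_lit 5)
  (nat_lit 0) (nat_lit 6) (node (nat_lit 6) (nat_lit 0) (nat_lit 7) (node (nat_lit 4) (nat_lit 0)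
  (nat_lit 8) t270 nil) nil) nil)) nil) nil)) (node (nat_lit 4) (nat_lit 0) (nat_lit 3) (node
  (nat_lit 3) (nat_lit 0) (nat_lit 4) (node (nat_lit 5) (nat_lit 0) (nat_lit 5) (node (nat_lit 7)
  (nat_lit 0) (nat_lit 6) (node (nat_lit 4) (nat_lit 0) (nat_lit 7) t271 nil) (node (nat_lit 4)
  (nat_lit 0) (nat_lit 6) (node (nat_lit 5) (nat_lit 0) (nat_lit 7) (node (nat_lit 7) (nat_lit 0)
  (nat_lit 8) t272 nil) nil) nil)) (node (nat_lit 4) (nat_lit 0) (nat_lit 5) (node (nat_lit 5)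
  (nat_lit 0) (nat_lit 6) (node (nat_lit 7) (nat_lit 0) (nat_lit 7) (node (nat_lit 5) (nat_lit 0)
  (nat_lit 8) (node (nat_lit 4) (nat_lit 0) (nat_lit 9) (node (nat_lit 7) (nat_lit 0) (nat_lit 10)
  (node (nat_lit 4) (nat_lit 0) (nat_lit 11) (node (nat_lit 5) (nat_lit 0) (nat_lit 12) (node
  (nat_lit 4) (nat_lit 0) (nat_lit 13) (node (nat_lit 7) (nat_lit 0) (nat_lit 14) (node (nat_lit
  5) (nat_lit 0) (nat_lit 15) (node (nat_lit 7) (nat_lit 0) (nat_lit 16) (node (nat_lit 4)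
  (nat_lit 54582) (nat_lit 17) (node (nat_lit 5) (nat_lit 54904) (nat_lit 18) (node (nat_lit 7)
  (nat_lit 55156) (nat_lit 19) (node (nat_lit 5) (nat_lit 55353) (nat_lit 20) (node (nat_lit 4)
  (nat_lit 55506) (nat_lit 21) (node (nat_lit 5) (nat_lit 55419) (nat_lit 22) nil nil) nil) nil)
  (node (nat_lit 4) (nat_lit 55156) (nat_lit 19) (node (nat_lit 7) (nat_lit 55353) (nat_lit 20)
  (node (nat_lit 4) (nat_lit 55506) (nat_lit 21) (node (nat_lit 5) (nat_lit 55558) (nat_lit 22)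
  (node (nat_lit 7) (nat_lit 53203) (nat_lit 23) (node (nat_lit 5) (nat_lit 48744) (nat_lit 24)
  (node (nat_lit 4) (nat_lit 42196) (nat_lit 25) (node (nat_lit 7) (nat_lit 30141) (nat_lit 26)
  nil nil) nil) nil) nil) nil) nil) nil) nil)) (node (nat_lit 7) (nat_lit 54904) (nat_lit 18)
  (node (nat_lit 5) (nat_lit 54723) (nat_lit 19) nil nil) nil)) (node (nat_lit 0) (nat_lit 55156)
  (nat_lit 17) nil nil)) (node (nat_lit 4) (nat_lit 0) (nat_lit 16) (node (nat_lit 5) (nat_lit 0)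
  (nat_lit 17) (node (nat_lit 7) (nat_lit 54904) (nat_lit 18) (node (nat_lit 4) (nat_lit 55156)
  (nat_lit 19) (node (nat_lit 5) (nat_lit 55353) (nat_lit 20) (node (nat_lit 4) (nat_lit 55222)
  (nat_lit 21) (node (nat_lit 7) (nat_lit 54975) (nat_lit 22) nil nil) nil) (node (nat_lit 7)
  (nat_lit 55353) (nat_lit 20) (node (nat_lit 5) (nat_lit 55242) (nat_lit 21) nil nil) nil)) (node
  (nat_lit 5) (nat_lit 55156) (nat_lit 19) (node (nat_lit 4) (nat_lit 55353) (nat_lit 20) (node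
  (nat_lit 7) (nat_lit 55134) (nat_lit 21) nil nil) nil) nil)) (node (nat_lit 0) (nat_lit 55353)
  (nat_lit 18) nil nil)) (node (nat_lit 0) (nat_lit 55156) (nat_lit 17) nil nil)) (node (nat_lit
  0) (nat_lit 54500) (nat_lit 16) nil nil))) (node (nat_lit 0) (nat_lit 54582) (nat_lit 15) nil
  nil)) (node (nat_lit 0) (nat_lit 53806) (nat_lit 14) nil nil)) (node (nat_lit 0) (nat_lit 52568)
  (nat_lit 13) (node (nat_lit 5) (nat_lit 52316) (nat_lit 14) (node (nat_lit 4) (nat_lit 52316)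
  (nat_lit 15) nil (node (nat_lit 7) (nat_lit 52316) (nat_lit 15) nil nil)) (node (nat_lit 4)
  (nat_lit 52879) (nat_lit 14) (node (nat_lit 5) (nat_lit 52879) (nat_lit 15) nil (node (nat_lit
  7) (nat_lit 52879) (nat_lit 15) nil nil)) (node (nat_lit 7) (nat_lit 52879) (nat_lit 14) (node
  (nat_lit 4) (nat_lit 53277) (nat_lit 15) nil (node (nat_lit 5) (nat_lit 52879) (nat_lit 15) nil
  nil)) nil))) nil)) (node (nat_lit 0) (nat_lit 50981) (nat_lit 12) (node (nat_lit 7) (nat_lit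
  50981) (nat_lit 13) nil (node (nat_lit 5) (nat_lit 50981) (nat_lit 13) nil nil)) nil)) (node
  (nat_lit 5) (nat_lit 0) (nat_lit 11) (node (nat_lit 7) (nat_lit 0) (nat_lit 12) (node (nat_lit
  4) (nat_lit 0) (nat_lit 13) (node (nat_lit 5) (nat_lit 52255) (nat_lit 14) (node (nat_lit 7)
  (nat_lit 53620) (nat_lit 15) (node (nat_lit 5) (nat_lit 0) (nat_lit 16) (node (nat_lit 4)
  (nat_lit 54582) (nat_lit 17) (node (nat_lit 5) (nat_lit 54904) (nat_lit 18) (node (nat_lit 7)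
  (nat_lit 55156) (nat_lit 19) (node (nat_lit 4) (nat_lit 55353) (nat_lit 20) (node (nat_lit 7)
  (nat_lit 55506) (nat_lit 21) nil nil) nil) nil) (node (nat_lit 7) (nat_lit 54904) (nat_lit 18)
  (node (nat_lit 4) (nat_lit 55156) (nat_lit 19) (node (nat_lit 5) (nat_lit 55353) (nat_lit 20)
  (node (nat_lit 4) (nat_lit 55506) (nat_lit 21) nil nil) nil) nil) nil)) (node (nat_lit 0)
  (nat_lit 55156) (nat_lit 17) nil nil)) nil) (node (nat_lit 4) (nat_lit 53240) (nat_lit 15) (node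
  (nat_lit 7) (nat_lit 53780) (nat_lit 16) (node (nat_lit 4) (nat_lit 37144) (nat_lit 17) (node
  (nat_lit 5) (nat_lit 37286) (nat_lit 18) (node (nat_lit 7) (nat_lit 24528) (nat_lit 19) (node
  (nat_lit 5) (nat_lit 15195) (nat_lit 20) (node (nat_lit 4) (nat_lit 15457) (nat_lit 21) nil nil)
  nil) nil) nil) (node (nat_lit 5) (nat_lit 53720) (nat_lit 17) (node (nat_lit 4) (nat_lit 53888)
  (nat_lit 18) (node (nat_lit 5) (nat_lit 53707) (nat_lit 19) nil nil) nil) nil)) nil) nil)) (node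
  (nat_lit 7) (nat_lit 52300) (nat_lit 14) (node (nat_lit 5) (nat_lit 53182) (nat_lit 15) (node
  (nat_lit 4) (nat_lit 54086) (nat_lit 16) (node (nat_lit 7) (nat_lit 54582) (nat_lit 17) (node
  (nat_lit 4) (nat_lit 53312) (nat_lit 18) nil nil) (node (nat_lit 5) (nat_lit 54028) (nat_lit 17)
  (node (nat_lit 7) (nat_lit 53553) (nat_lit 18) nil nil) nil)) nil) nil) (node (nat_lit 0)
  (nat_lit 52687) (nat_lit 14) nil nil))) (node (nat_lit 0) (nat_lit 52668) (nat_lit 13) nil nil))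
  (node (nat_lit 0) (nat_lit 50981) (nat_lit 12) (node (nat_lit 4) (nat_lit 51379) (nat_lit 13)
  nil (node (nat_lit 7) (nat_lit 51379) (nat_lit 13) nil (node (nat_lit 5) (nat_lit 50981)
  (nat_lit 13) nil nil))) nil)) (node (nat_lit 0) (nat_lit 48950) (nat_lit 11) (node (nat_lit 7)
  (nat_lit 49460) (nat_lit 12) (node (nat_lit 4) (nat_lit 50113) (nat_lit 13) nil (node (nat_lit
  5) (nat_lit 50113) (nat_lit 13) nil nil)) (node (nat_lit 5) (nat_lit 48519) (nat_lit 12) (node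
  (nat_lit 7) (nat_lit 49171) (nat_lit 13) nil (node (nat_lit 4) (nat_lit 47936) (nat_lit 13) nil
  nil)) (node (nat_lit 4) (nat_lit 49460) (nat_lit 12) (node (nat_lit 7) (nat_lit 48877) (nat_lit
  13) nil (node (nat_lit 5) (nat_lit 49460) (nat_lit 13) nil nil)) nil))) nil))) (node (nat_lit 5)
  (nat_lit 0) (nat_lit 10) (node (nat_lit 7) (nat_lit 0) (nat_lit 11) (node (nat_lit 4) (nat_lit
  0) (nat_lit 12) (node (nat_lit 7) (nat_lit 50645) (nat_lit 13) (node (nat_lit 5) (nat_lit 52334)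
  (nat_lit 14) (node (nat_lit 4) (nat_lit 53640) (nat_lit 15) (node (nat_lit 7) (nat_lit 54168)
  (nat_lit 16) (node (nat_lit 4) (nat_lit 54582) (nat_lit 17) (node (nat_lit 5) (nat_lit 54904)
  (nat_lit 18) (node (nat_lit 7) (nat_lit 55156) (nat_lit 19) (node (nat_lit 5) (nat_lit 55353)
  (nat_lit 20) nil (node (nat_lit 4) (nat_lit 55353) (nat_lit 20) (node (nat_lit 7) (nat_lit
  55506) (nat_lit 21) nil nil) nil)) (node (nat_lit 4) (nat_lit 55156) (nat_lit 19) (node (nat_lit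
  7) (nat_lit 55353) (nat_lit 20) nil nil) nil)) nil) nil) (node (nat_lit 5) (nat_lit 53564)
  (nat_lit 16) nil nil)) (node (nat_lit 7) (nat_lit 53640) (nat_lit 15) (node (nat_lit 4) (nat_lit
  54168) (nat_lit 16) (node (nat_lit 5) (nat_lit 54582) (nat_lit 17) (node (nat_lit 4) (nat_lit
  54904) (nat_lit 18) (node (nat_lit 7) (nat_lit 55156) (nat_lit 19) (node (nat_lit 4) (nat_lit
  55353) (nat_lit 20) (node (nat_lit 5) (nat_lit 55506) (nat_lit 21) (node (nat_lit 7) (nat_lit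
  55504) (nat_lit 22) (node (nat_lit 5) (nat_lit 47175) (nat_lit 23) (node (nat_lit 4) (nat_lit
  40313) (nat_lit 24) (node (nat_lit 5) (nat_lit 16222) (nat_lit 25) (node (nat_lit 7) (nat_lit
  16299) (nat_lit 26) (node (nat_lit 4) (nat_lit 16313) (nat_lit 27) nil nil) nil) nil) nil) nil)
  nil) nil) nil) nil) (node (nat_lit 7) (nat_lit 54904) (nat_lit 18) nil nil)) nil) nil) nil))
  nil) (node (nat_lit 5) (nat_lit 0) (nat_lit 13) (node (nat_lit 4) (nat_lit 52256) (nat_lit 14)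
  (node (nat_lit 7) (nat_lit 53640) (nat_lit 15) (node (nat_lit 4) (nat_lit 38133) (nat_lit 16)
  (node (nat_lit 5) (nat_lit 25720) (nat_lit 17) (node (nat_lit 7) (nat_lit 26322) (nat_lit 18)
  nil nil) nil) (node (nat_lit 5) (nat_lit 54168) (nat_lit 16) (node (nat_lit 7) (nat_lit 54582)
  (nat_lit 17) (node (nat_lit 4) (nat_lit 54904) (nat_lit 18) nil nil) nil) nil)) nil) (node
  (nat_lit 0) (nat_lit 52643) (nat_lit 14) nil nil)) (node (nat_lit 0) (nat_lit 52226) (nat_lit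
  13) nil nil))) (node (nat_lit 0) (nat_lit 50528) (nat_lit 12) nil nil)) (node (nat_lit 0)
  (nat_lit 48643) (nat_lit 11) (node (nat_lit 5) (nat_lit 48643) (nat_lit 12) nil nil) nil)) (node
  (nat_lit 0) (nat_lit 46061) (nat_lit 10) (node (nat_lit 5) (nat_lit 46714) (nat_lit 11) (node
  (nat_lit 4) (nat_lit 48062) (nat_lit 12) (node (nat_lit 5) (nat_lit 48175) (nat_lit 13) (node
  (nat_lit 7) (nat_lit 49723) (nat_lit 14) nil nil) (node (nat_lit 7) (nat_lit 48593) (nat_lit 13)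
  nil nil)) (node (nat_lit 7) (nat_lit 48062) (nat_lit 12) (node (nat_lit 4) (nat_lit 49828)
  (nat_lit 13) nil (node (nat_lit 5) (nat_lit 49175) (nat_lit 13) nil nil)) nil)) (node (nat_lit
  7) (nat_lit 47052) (nat_lit 11) (node (nat_lit 5) (nat_lit 48400) (nat_lit 12) (node (nat_lit 7)
  (nat_lit 50166) (nat_lit 13) (node (nat_lit 4) (nat_lit 51035) (nat_lit 14) nil nil) (node
  (nat_lit 4) (nat_lit 48931) (nat_lit 13) nil nil)) (node (nat_lit 4) (nat_lit 48400) (nat_lit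
  12) (node (nat_lit 7) (nat_lit 48931) (nat_lit 13) nil (node (nat_lit 5) (nat_lit 50166)
  (nat_lit 13) nil nil)) nil)) (node (nat_lit 4) (nat_lit 46714) (nat_lit 11) (node (nat_lit 7)
  (nat_lit 48059) (nat_lit 12) (node (nat_lit 5) (nat_lit 49377) (nat_lit 13) nil nil) (node
  (nat_lit 5) (nat_lit 48062) (nat_lit 12) (node (nat_lit 7) (nat_lit 50227) (nat_lit 13) nil
  (node (nat_lit 4) (nat_lit 49828) (nat_lit 13) nil nil)) nil)) (node (nat_lit 0) (nat_lit 48665)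
  (nat_lit 11) nil nil)))) nil))) (node (nat_lit 0) (nat_lit 42681) (nat_lit 9) (node (nat_lit 5)
  (nat_lit 43519) (nat_lit 10) (node (nat_lit 4) (nat_lit 45286) (nat_lit 11) (node (nat_lit 7)
  (nat_lit 46714) (nat_lit 12) nil nil) (node (nat_lit 7) (nat_lit 45244) (nat_lit 11) (node
  (nat_lit 4) (nat_lit 46672) (nat_lit 12) nil nil) nil)) (node (nat_lit 4) (nat_lit 43519)
  (nat_lit 10) (node (nat_lit 7) (nat_lit 45244) (nat_lit 11) (node (nat_lit 5) (nat_lit 44950)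
  (nat_lit 12) nil nil) (node (nat_lit 5) (nat_lit 45244) (nat_lit 11) (node (nat_lit 7) (nat_lit
  46672) (nat_lit 12) nil nil) nil)) (node (nat_lit 7) (nat_lit 43843) (nat_lit 10) (node (nat_lit
  5) (nat_lit 45568) (nat_lit 11) nil (node (nat_lit 4) (nat_lit 45568) (nat_lit 11) (node
  (nat_lit 5) (nat_lit 46996) (nat_lit 12) nil nil) nil)) nil))) nil)) (node (nat_lit 4) (nat_lit
  0) (nat_lit 8) (node (nat_lit 7) (nat_lit 0) (nat_lit 9) (node (nat_lit 5) (nat_lit 0) (nat_lit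
  10) (node (nat_lit 4) (nat_lit 0) (nat_lit 11) (node (nat_lit 5) (nat_lit 0) (nat_lit 12) (node
  (nat_lit 7) (nat_lit 0) (nat_lit 13) (node (nat_lit 4) (nat_lit 0) (nat_lit 14) (node (nat_lit
  5) (nat_lit 0) (nat_lit 15) (node (nat_lit 4) (nat_lit 0) (nat_lit 16) (node (nat_lit 7)
  (nat_lit 54582) (nat_lit 17) (node (nat_lit 4) (nat_lit 54904) (nat_lit 18) (node (nat_lit 5)
  (nat_lit 40204) (nat_lit 19) (node (nat_lit 7) (nat_lit 40516) (nat_lit 20) (node (nat_lit 4)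
  (nat_lit 28183) (nat_lit 21) (node (nat_lit 7) (nat_lit 28365) (nat_lit 22) (node (nat_lit 5)
  (nat_lit 28507) (nat_lit 23) nil nil) nil) (node (nat_lit 5) (nat_lit 40669) (nat_lit 21) nil
  nil)) nil) nil) (node (nat_lit 5) (nat_lit 54349) (nat_lit 18) nil nil)) (node (nat_lit 0)
  (nat_lit 55156) (nat_lit 17) nil nil)) (node (nat_lit 0) (nat_lit 54904) (nat_lit 16) nil nil))
  (node (nat_lit 0) (nat_lit 54582) (nat_lit 15) nil (node (nat_lit 7) (nat_lit 0) (nat_lit 15)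
  (node (nat_lit 0) (nat_lit 53950) (nat_lit 16) nil nil) nil))) (node (nat_lit 5) (nat_lit 52334)
  (nat_lit 14) (node (nat_lit 4) (nat_lit 53640) (nat_lit 15) (node (nat_lit 7) (nat_lit 54168)
  (nat_lit 16) (node (nat_lit 4) (nat_lit 54582) (nat_lit 17) (node (nat_lit 5) (nat_lit 54904)
  (nat_lit 18) (node (nat_lit 7) (nat_lit 55156) (nat_lit 19) (node (nat_lit 4) (nat_lit 55353)
  (nat_lit 20) nil nil) (node (nat_lit 4) (nat_lit 55156) (nat_lit 19) (node (nat_lit 7) (nat_lit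
  55353) (nat_lit 20) nil nil) nil)) nil) (node (nat_lit 5) (nat_lit 53867) (nat_lit 17) nil nil))
  nil) nil) (node (nat_lit 0) (nat_lit 53629) (nat_lit 14) nil nil))) (node (nat_lit 0) (nat_lit
  52097) (nat_lit 13) nil nil)) (node (nat_lit 7) (nat_lit 0) (nat_lit 12) (node (nat_lit 4)
  (nat_lit 0) (nat_lit 13) (node (nat_lit 5) (nat_lit 52128) (nat_lit 14) (node (nat_lit 7)
  (nat_lit 53447) (nat_lit 15) (node (nat_lit 5) (nat_lit 54133) (nat_lit 16) (node (nat_lit 4)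
  (nat_lit 54582) (nat_lit 17) (node (nat_lit 5) (nat_lit 54904) (nat_lit 18) (node (nat_lit 7)
  (nat_lit 55156) (nat_lit 19) (node (nat_lit 4) (nat_lit 55353) (nat_lit 20) nil nil) nil) nil)
  nil) nil) (node (nat_lit 4) (nat_lit 53447) (nat_lit 15) (node (nat_lit 7) (nat_lit 54168)
  (nat_lit 16) (node (nat_lit 5) (nat_lit 54582) (nat_lit 17) (node (nat_lit 7) (nat_lit 54108)
  (nat_lit 18) nil nil) nil) nil) nil)) (node (nat_lit 0) (nat_lit 53423) (nat_lit 14) nil nil))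
  (node (nat_lit 0) (nat_lit 52496) (nat_lit 13) nil nil)) (node (nat_lit 0) (nat_lit 50909)
  (nat_lit 12) (node (nat_lit 7) (nat_lit 50909) (nat_lit 13) nil (node (nat_lit 4) (nat_lit
  50909) (nat_lit 13) nil (node (nat_lit 5) (nat_lit 50909) (nat_lit 13) nil nil))) nil))) (node
  (nat_lit 7) (nat_lit 45498) (nat_lit 11) (node (nat_lit 4) (nat_lit 48273) (nat_lit 12) (node
  (nat_lit 5) (nat_lit 50439) (nat_lit 13) (node (nat_lit 4) (nat_lit 49383) (nat_lit 14) (node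
  (nat_lit 7) (nat_lit 43297) (nat_lit 15) (node (nat_lit 5) (nat_lit 43931) (nat_lit 16) (node
  (nat_lit 4) (nat_lit 44757) (nat_lit 17) (node (nat_lit 5) (nat_lit 45358) (nat_lit 18) (node
  (nat_lit 7) (nat_lit 45860) (nat_lit 19) (node (nat_lit 4) (nat_lit 45876) (nat_lit 20) (node
  (nat_lit 5) (nat_lit 46100) (nat_lit 21) (node (nat_lit 4) (nat_lit 45734) (nat_lit 22) nil nil)
  nil) nil) nil) nil) nil) (node (nat_lit 4) (nat_lit 37107) (nat_lit 16) (node (nat_lit 5)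
  (nat_lit 30758) (nat_lit 17) (node (nat_lit 7) (nat_lit 14278) (nat_lit 18) (node (nat_lit 5)
  (nat_lit 14530) (nat_lit 19) nil nil) nil) nil) nil)) nil) (node (nat_lit 7) (nat_lit 51817)
  (nat_lit 14) nil nil)) nil) nil) (node (nat_lit 0) (nat_lit 48877) (nat_lit 11) nil nil))) (node
  (nat_lit 0) (nat_lit 46274) (nat_lit 10) nil nil)) (node (nat_lit 0) (nat_lit 42655) (nat_lit 9)
  (node (nat_lit 4) (nat_lit 43468) (nat_lit 10) nil (node (nat_lit 5) (nat_lit 41880) (nat_lit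
  10) nil (node (nat_lit 7) (nat_lit 43843) (nat_lit 10) nil nil))) nil)) nil)) nil) nil) nil))
  nil) nil)) nil) nil)

noncomputable def t361 : Tr :=
  (node (nat_lit 4) (nat_lit 0) (nat_lit 4) (node (nat_lit 6) (nat_lit 0) (nat_lit 5) (node
  (nat_lit 5) (nat_lit 63566) (nat_lit 6) (node (nat_lit 4) (nat_lit 67881) (nat_lit 7) (node
  (nat_lit 5) (nat_lit 72187) (nat_lit 8) (node (nat_lit 3) (nat_lit 76620) (nat_lit 9) (node
  (nat_lit 4) (nat_lit 75844) (nat_lit 10) (node (nat_lit 5) (nat_lit 76562) (nat_lit 11) (node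
  (nat_lit 6) (nat_lit 72681) (nat_lit 12) (node (nat_lit 4) (nat_lit 72306) (nat_lit 13) (node
  (nat_lit 6) (nat_lit 73114) (nat_lit 14) (node (nat_lit 5) (nat_lit 73160) (nat_lit 15) nil nil)
  nil) nil) (node (nat_lit 4) (nat_lit 76276) (nat_lit 12) nil nil)) (node (nat_lit 12) (nat_lit
  75138) (nat_lit 11) (node (nat_lit 5) (nat_lit 74404) (nat_lit 12) nil nil) nil)) (node (nat_lit
  5) (nat_lit 78036) (nat_lit 10) (node (nat_lit 4) (nat_lit 78503) (nat_lit 11) (node (nat_lit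
  12) (nat_lit 77627) (nat_lit 12) nil nil) nil) (node (nat_lit 6) (nat_lit 79773) (nat_lit 10)
  nil (node (nat_lit 0) (nat_lit 79773) (nat_lit 10) nil nil)))) (node (nat_lit 6) (nat_lit 78419)
  (nat_lit 9) (node (nat_lit 4) (nat_lit 78206) (nat_lit 10) (node (nat_lit 6) (nat_lit 46052)
  (nat_lit 11) nil nil) (node (nat_lit 5) (nat_lit 78419) (nat_lit 10) nil (node (nat_lit 3)
  (nat_lit 78419) (nat_lit 10) nil nil))) (node (nat_lit 0) (nat_lit 78210) (nat_lit 9) nil nil)))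
  (node (nat_lit 3) (nat_lit 74871) (nat_lit 8) (node (nat_lit 5) (nat_lit 77093) (nat_lit 9)
  (node (nat_lit 4) (nat_lit 77744) (nat_lit 10) (node (nat_lit 5) (nat_lit 71868) (nat_lit 11)
  (node (nat_lit 6) (nat_lit 62313) (nat_lit 12) (node (nat_lit 4) (nat_lit 61924) (nat_lit 13)
  (node (nat_lit 6) (nat_lit 59060) (nat_lit 14) (node (nat_lit 5) (nat_lit 51923) (nat_lit 15)
  nil nil) nil) nil) (node (nat_lit 11) (nat_lit 69834) (nat_lit 12) nil nil)) nil) (node (nat_lit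
  11) (nat_lit 77054) (nat_lit 10) (node (nat_lit 4) (nat_lit 78027) (nat_lit 11) (node (nat_lit
  5) (nat_lit 72986) (nat_lit 12) nil nil) nil) nil)) (node (nat_lit 4) (nat_lit 77655) (nat_lit
  9) (node (nat_lit 5) (nat_lit 78895) (nat_lit 10) nil nil) (node (nat_lit 6) (nat_lit 78836)
  (nat_lit 9) nil (node (nat_lit 0) (nat_lit 78836) (nat_lit 9) nil nil)))) (node (nat_lit 0)
  (nat_lit 77775) (nat_lit 8) (node (nat_lit 4) (nat_lit 77775) (nat_lit 9) nil (node (nat_lit 3)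
  (nat_lit 77775) (nat_lit 9) nil nil)) (node (nat_lit 6) (nat_lit 73516) (nat_lit 8) nil nil))))
  (node (nat_lit 6) (nat_lit 73802) (nat_lit 7) (node (nat_lit 4) (nat_lit 75540) (nat_lit 8)
  (node (nat_lit 5) (nat_lit 76453) (nat_lit 9) (node (nat_lit 3) (nat_lit 76352) (nat_lit 10) nil
  (node (nat_lit 4) (nat_lit 76184) (nat_lit 10) nil (node (nat_lit 6) (nat_lit 78933) (nat_lit
  10) nil nil))) (node (nat_lit 3) (nat_lit 75720) (nat_lit 9) nil (node (nat_lit 0) (nat_lit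
  77949) (nat_lit 9) nil nil))) (node (nat_lit 3) (nat_lit 78284) (nat_lit 8) (node (nat_lit 5)
  (nat_lit 78928) (nat_lit 9) (node (nat_lit 11) (nat_lit 80168) (nat_lit 10) nil nil) (node
  (nat_lit 4) (nat_lit 78021) (nat_lit 9) nil nil)) (node (nat_lit 0) (nat_lit 77760) (nat_lit 8)
  nil nil))) (node (nat_lit 3) (nat_lit 72458) (nat_lit 7) (node (nat_lit 4) (nat_lit 76909)
  (nat_lit 8) (node (nat_lit 5) (nat_lit 78827) (nat_lit 9) nil nil) (node (nat_lit 5) (nat_lit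
  77080) (nat_lit 8) (node (nat_lit 4) (nat_lit 77866) (nat_lit 9) nil nil) (node (nat_lit 6)
  (nat_lit 78195) (nat_lit 8) nil (node (nat_lit 0) (nat_lit 78195) (nat_lit 8) nil nil)))) (node
  (nat_lit 0) (nat_lit 79070) (nat_lit 7) (node (nat_lit 5) (nat_lit 79070) (nat_lit 8) nil (node
  (nat_lit 4) (nat_lit 79070) (nat_lit 8) nil (node (nat_lit 3) (nat_lit 79070) (nat_lit 8) nil
  nil))) nil)))) (node (nat_lit 3) (nat_lit 71910) (nat_lit 6) (node (nat_lit 4) (nat_lit 73957)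
  (nat_lit 7) (node (nat_lit 9) (nat_lit 76685) (nat_lit 8) (node (nat_lit 6) (nat_lit 80723)
  (nat_lit 9) nil (node (nat_lit 5) (nat_lit 79009) (nat_lit 9) (node (nat_lit 4) (nat_lit 78699)
  (nat_lit 10) (node (nat_lit 5) (nat_lit 76603) (nat_lit 11) (node (nat_lit 6) (nat_lit 71174)
  (nat_lit 12) (node (nat_lit 4) (nat_lit 63055) (nat_lit 13) nil nil) nil) nil) (node (nat_lit 9)
  (nat_lit 77306) (nat_lit 10) nil nil)) (node (nat_lit 0) (nat_lit 80650) (nat_lit 9) nil nil)))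
  (node (nat_lit 5) (nat_lit 77462) (nat_lit 8) (node (nat_lit 4) (nat_lit 79406) (nat_lit 9)
  (node (nat_lit 9) (nat_lit 78224) (nat_lit 10) nil nil) (node (nat_lit 9) (nat_lit 79693)
  (nat_lit 9) nil nil)) (node (nat_lit 0) (nat_lit 79695) (nat_lit 8) nil (node (nat_lit 6)
  (nat_lit 79695) (nat_lit 8) nil nil)))) (node (nat_lit 5) (nat_lit 73620) (nat_lit 7) (node
  (nat_lit 4) (nat_lit 76225) (nat_lit 8) (node (nat_lit 9) (nat_lit 74643) (nat_lit 9) nil nil)
  (node (nat_lit 9) (nat_lit 77153) (nat_lit 8) nil nil)) (node (nat_lit 6) (nat_lit 79960)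
  (nat_lit 7) nil (node (nat_lit 0) (nat_lit 79960) (nat_lit 7) nil nil)))) (node (nat_lit 0)
  (nat_lit 76580) (nat_lit 6) (node (nat_lit 4) (nat_lit 75588) (nat_lit 7) nil (node (nat_lit 5)
  (nat_lit 76580) (nat_lit 7) nil (node (nat_lit 3) (nat_lit 76580) (nat_lit 7) nil (node (nat_lit
  6) (nat_lit 79450) (nat_lit 7) nil (node (nat_lit 0) (nat_lit 78497) (nat_lit 7) nil nil)))))
  nil))) (node (nat_lit 3) (nat_lit 0) (nat_lit 5) (node (nat_lit 5) (nat_lit 67305) (nat_lit 6)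
  (node (nat_lit 4) (nat_lit 72643) (nat_lit 7) (node (nat_lit 8) (nat_lit 74279) (nat_lit 8)
  (node (nat_lit 4) (nat_lit 73492) (nat_lit 9) (node (nat_lit 5) (nat_lit 70144) (nat_lit 10)
  (node (nat_lit 8) (nat_lit 69666) (nat_lit 11) nil (node (nat_lit 6) (nat_lit 53821) (nat_lit
  11) nil nil)) nil) nil) (node (nat_lit 5) (nat_lit 75801) (nat_lit 8) (node (nat_lit 8) (nat_lit
  72958) (nat_lit 9) nil (node (nat_lit 6) (nat_lit 50741) (nat_lit 9) nil nil)) nil)) (node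
  (nat_lit 8) (nat_lit 68043) (nat_lit 7) (node (nat_lit 4) (nat_lit 69451) (nat_lit 8) (node
  (nat_lit 5) (nat_lit 62825) (nat_lit 9) (node (nat_lit 4) (nat_lit 62139) (nat_lit 10) nil (node
  (nat_lit 8) (nat_lit 62366) (nat_lit 10) nil nil)) (node (nat_lit 8) (nat_lit 68957) (nat_lit 9)
  nil nil)) (node (nat_lit 6) (nat_lit 72775) (nat_lit 8) nil nil)) (node (nat_lit 6) (nat_lit
  78152) (nat_lit 7) nil (node (nat_lit 0) (nat_lit 74724) (nat_lit 7) nil nil)))) (node (nat_lit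
  4) (nat_lit 0) (nat_lit 6) (node (nat_lit 5) (nat_lit 74237) (nat_lit 7) (node (nat_lit 8)
  (nat_lit 77305) (nat_lit 8) (node (nat_lit 5) (nat_lit 78095) (nat_lit 9) (node (nat_lit 4)
  (nat_lit 76796) (nat_lit 10) (node (nat_lit 5) (nat_lit 73935) (nat_lit 11) (node (nat_lit 6)
  (nat_lit 65331) (nat_lit 12) (node (nat_lit 4) (nat_lit 65424) (nat_lit 13) (node (nat_lit 8)
  (nat_lit 65617) (nat_lit 14) nil nil) nil) nil) nil) nil) (node (nat_lit 4) (nat_lit 78745)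
  (nat_lit 9) nil (node (nat_lit 6) (nat_lit 80358) (nat_lit 9) nil nil))) (node (nat_lit 4)
  (nat_lit 76642) (nat_lit 8) nil (node (nat_lit 6) (nat_lit 53156) (nat_lit 8) (node (nat_lit 4)
  (nat_lit 33992) (nat_lit 9) nil nil) (node (nat_lit 0) (nat_lit 78969) (nat_lit 8) nil nil))))
  (node (nat_lit 6) (nat_lit 78737) (nat_lit 7) nil (node (nat_lit 0) (nat_lit 75459) (nat_lit 7)
  nil nil))) (node (nat_lit 6) (nat_lit 76360) (nat_lit 6) (node (nat_lit 8) (nat_lit 75908)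
  (nat_lit 7) (node (nat_lit 4) (nat_lit 76153) (nat_lit 8) (node (nat_lit 8) (nat_lit 77395)
  (nat_lit 9) (node (nat_lit 5) (nat_lit 76314) (nat_lit 10) (node (nat_lit 4) (nat_lit 74271)
  (nat_lit 11) nil nil) nil) nil) nil) (node (nat_lit 5) (nat_lit 75813) (nat_lit 7) (node
  (nat_lit 4) (nat_lit 75813) (nat_lit 8) nil nil) (node (nat_lit 4) (nat_lit 76360) (nat_lit 7)
  (node (nat_lit 6) (nat_lit 78784) (nat_lit 8) nil nil) nil))) (node (nat_lit 0) (nat_lit 77063)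
  (nat_lit 6) nil nil)))) (node (nat_lit 5) (nat_lit 0) (nat_lit 5) (node (nat_lit 4) (nat_lit
  58093) (nat_lit 6) (node (nat_lit 3) (nat_lit 67436) (nat_lit 7) (node (nat_lit 5) (nat_lit
  70220) (nat_lit 8) (node (nat_lit 10) (nat_lit 71382) (nat_lit 9) (node (nat_lit 4) (nat_lit
  71590) (nat_lit 10) (node (nat_lit 5) (nat_lit 63533) (nat_lit 11) (node (nat_lit 6) (nat_lit
  60360) (nat_lit 12) (node (nat_lit 4) (nat_lit 60282) (nat_lit 13) (node (nat_lit 5) (nat_lit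
  60239) (nat_lit 14) nil nil) nil) nil) (node (nat_lit 10) (nat_lit 71290) (nat_lit 11) nil nil))
  nil) (node (nat_lit 4) (nat_lit 65580) (nat_lit 9) (node (nat_lit 5) (nat_lit 53920) (nat_lit
  10) nil nil) (node (nat_lit 6) (nat_lit 74185) (nat_lit 9) nil nil))) (node (nat_lit 4) (nat_lit
  65385) (nat_lit 8) (node (nat_lit 5) (nat_lit 64814) (nat_lit 9) (node (nat_lit 6) (nat_lit
  54266) (nat_lit 10) nil nil) nil) (node (nat_lit 6) (nat_lit 73173) (nat_lit 8) nil (node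
  (nat_lit 0) (nat_lit 73173) (nat_lit 8) nil nil)))) (node (nat_lit 6) (nat_lit 71983) (nat_lit
  7) (node (nat_lit 5) (nat_lit 70831) (nat_lit 8) (node (nat_lit 4) (nat_lit 70831) (nat_lit 9)
  nil nil) (node (nat_lit 4) (nat_lit 71983) (nat_lit 8) nil (node (nat_lit 3) (nat_lit 73369)
  (nat_lit 8) nil nil))) (node (nat_lit 0) (nat_lit 71457) (nat_lit 7) nil nil))) (node (nat_lit
  3) (nat_lit 65049) (nat_lit 6) (node (nat_lit 4) (nat_lit 71974) (nat_lit 7) (node (nat_lit 9)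
  (nat_lit 75446) (nat_lit 8) (node (nat_lit 5) (nat_lit 74842) (nat_lit 9) (node (nat_lit 4)
  (nat_lit 70649) (nat_lit 10) (node (nat_lit 5) (nat_lit 67257) (nat_lit 11) nil nil) (node
  (nat_lit 9) (nat_lit 73139) (nat_lit 10) nil nil)) nil) (node (nat_lit 5) (nat_lit 76270)
  (nat_lit 8) (node (nat_lit 4) (nat_lit 75947) (nat_lit 9) nil (node (nat_lit 6) (nat_lit 68565)
  (nat_lit 9) nil nil)) nil)) (node (nat_lit 5) (nat_lit 66652) (nat_lit 7) (node (nat_lit 4)
  (nat_lit 66727) (nat_lit 8) (node (nat_lit 5) (nat_lit 61447) (nat_lit 9) (node (nat_lit 6)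
  (nat_lit 63077) (nat_lit 10) nil nil) (node (nat_lit 9) (nat_lit 67176) (nat_lit 9) nil nil))
  (node (nat_lit 6) (nat_lit 73885) (nat_lit 8) nil nil)) (node (nat_lit 6) (nat_lit 76916)
  (nat_lit 7) nil (node (nat_lit 0) (nat_lit 73338) (nat_lit 7) nil nil)))) (node (nat_lit 0)
  (nat_lit 71420) (nat_lit 6) nil nil))) (node (nat_lit 0) (nat_lit 0) (nat_lit 5) (node (nat_lit
  5) (nat_lit 68464) (nat_lit 6) (node (nat_lit 4) (nat_lit 66475) (nat_lit 7) nil (node (nat_lit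
  3) (nat_lit 68464) (nat_lit 7) nil nil)) (node (nat_lit 4) (nat_lit 67157) (nat_lit 6) (node
  (nat_lit 5) (nat_lit 65262) (nat_lit 7) nil (node (nat_lit 3) (nat_lit 67157) (nat_lit 7) nil
  (node (nat_lit 6) (nat_lit 70906) (nat_lit 7) nil nil))) (node (nat_lit 3) (nat_lit 68531)
  (nat_lit 6) nil (node (nat_lit 6) (nat_lit 73629) (nat_lit 6) nil (node (nat_lit 0) (nat_lit
  71501) (nat_lit 6) nil nil))))) nil)))) (node (nat_lit 0) (nat_lit 0) (nat_lit 4) (node (nat_lit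
  6) (nat_lit 0) (nat_lit 5) (node (nat_lit 5) (nat_lit 73167) (nat_lit 6) (node (nat_lit 7)
  (nat_lit 80137) (nat_lit 7) (node (nat_lit 6) (nat_lit 80877) (nat_lit 8) (node (nat_lit 7)
  (nat_lit 81157) (nat_lit 9) (node (nat_lit 5) (nat_lit 81157) (nat_lit 10) nil nil) (node
  (nat_lit 3) (nat_lit 80877) (nat_lit 9) nil (node (nat_lit 4) (nat_lit 80877) (nat_lit 9) nil
  (node (nat_lit 0) (nat_lit 81157) (nat_lit 9) nil nil)))) (node (nat_lit 5) (nat_lit 80095)
  (nat_lit 8) (node (nat_lit 6) (nat_lit 81157) (nat_lit 9) nil (node (nat_lit 3) (nat_lit 80439)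
  (nat_lit 9) nil (node (nat_lit 4) (nat_lit 79485) (nat_lit 9) nil (node (nat_lit 0) (nat_lit
  81157) (nat_lit 9) nil nil)))) (node (nat_lit 3) (nat_lit 80137) (nat_lit 8) nil (node (nat_lit
  4) (nat_lit 80137) (nat_lit 8) nil (node (nat_lit 0) (nat_lit 80877) (nat_lit 8) nil nil)))))
  (node (nat_lit 4) (nat_lit 73949) (nat_lit 7) (node (nat_lit 5) (nat_lit 73223) (nat_lit 8) nil
  nil) (node (nat_lit 3) (nat_lit 75176) (nat_lit 7) nil (node (nat_lit 6) (nat_lit 79266)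
  (nat_lit 7) (node (nat_lit 7) (nat_lit 80250) (nat_lit 8) nil nil) (node (nat_lit 0) (nat_lit
  79266) (nat_lit 7) nil nil))))) (node (nat_lit 0) (nat_lit 77349) (nat_lit 6) (node (nat_lit 6)
  (nat_lit 79742) (nat_lit 7) (node (nat_lit 7) (nat_lit 80726) (nat_lit 8) nil nil) (node
  (nat_lit 7) (nat_lit 80353) (nat_lit 7) nil (node (nat_lit 5) (nat_lit 77349) (nat_lit 7) nil
  (node (nat_lit 0) (nat_lit 78789) (nat_lit 7) nil (node (nat_lit 3) (nat_lit 77349) (nat_lit 7)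
  nil (node (nat_lit 4) (nat_lit 77349) (nat_lit 7) nil nil)))))) (node (nat_lit 4) (nat_lit
  73032) (nat_lit 6) (node (nat_lit 5) (nat_lit 73988) (nat_lit 7) (node (nat_lit 4) (nat_lit
  74637) (nat_lit 8) nil nil) (node (nat_lit 3) (nat_lit 74541) (nat_lit 7) (node (nat_lit 4)
  (nat_lit 76848) (nat_lit 8) nil nil) (node (nat_lit 7) (nat_lit 80303) (nat_lit 7) (node
  (nat_lit 4) (nat_lit 80303) (nat_lit 8) nil nil) (node (nat_lit 6) (nat_lit 79693) (nat_lit 7)
  nil (node (nat_lit 0) (nat_lit 79131) (nat_lit 7) nil nil))))) (node (nat_lit 3) (nat_lit 74081)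
  (nat_lit 6) (node (nat_lit 5) (nat_lit 74669) (nat_lit 7) (node (nat_lit 9) (nat_lit 77929)
  (nat_lit 8) nil nil) (node (nat_lit 4) (nat_lit 75372) (nat_lit 7) (node (nat_lit 9) (nat_lit
  74996) (nat_lit 8) nil nil) (node (nat_lit 7) (nat_lit 80439) (nat_lit 7) (node (nat_lit 9)
  (nat_lit 80439) (nat_lit 8) nil nil) (node (nat_lit 6) (nat_lit 80233) (nat_lit 7) nil (node
  (nat_lit 0) (nat_lit 80180) (nat_lit 7) nil nil))))) nil)))) (node (nat_lit 5) (nat_lit 0)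
  (nat_lit 5) (node (nat_lit 7) (nat_lit 77072) (nat_lit 6) (node (nat_lit 6) (nat_lit 80076)
  (nat_lit 7) (node (nat_lit 7) (nat_lit 80877) (nat_lit 8) (node (nat_lit 5) (nat_lit 80877)
  (nat_lit 9) (node (nat_lit 6) (nat_lit 81370) (nat_lit 10) (node (nat_lit 5) (nat_lit 81370)
  (nat_lit 11) nil nil) (node (nat_lit 4) (nat_lit 80877) (nat_lit 10) nil (node (nat_lit 3)
  (nat_lit 80877) (nat_lit 10) nil nil))) nil) (node (nat_lit 5) (nat_lit 79607) (nat_lit 8) nil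
  (node (nat_lit 0) (nat_lit 80877) (nat_lit 8) nil nil))) (node (nat_lit 0) (nat_lit 80076)
  (nat_lit 7) nil (node (nat_lit 4) (nat_lit 76576) (nat_lit 7) nil (node (nat_lit 3) (nat_lit
  77683) (nat_lit 7) nil nil)))) (node (nat_lit 3) (nat_lit 68480) (nat_lit 6) (node (nat_lit 5)
  (nat_lit 72743) (nat_lit 7) nil (node (nat_lit 4) (nat_lit 72456) (nat_lit 7) nil (node (nat_lit
  6) (nat_lit 78250) (nat_lit 7) nil (node (nat_lit 7) (nat_lit 75899) (nat_lit 7) nil nil))))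
  (node (nat_lit 4) (nat_lit 66475) (nat_lit 6) (node (nat_lit 5) (nat_lit 67551) (nat_lit 7)
  (node (nat_lit 6) (nat_lit 72283) (nat_lit 8) (node (nat_lit 7) (nat_lit 42171) (nat_lit 9) nil
  nil) nil) (node (nat_lit 3) (nat_lit 68378) (nat_lit 7) nil (node (nat_lit 6) (nat_lit 77472)
  (nat_lit 7) nil (node (nat_lit 7) (nat_lit 73894) (nat_lit 7) nil nil)))) (node (nat_lit 0)
  (nat_lit 77072) (nat_lit 6) (node (nat_lit 6) (nat_lit 78512) (nat_lit 7) nil nil) (node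
  (nat_lit 6) (nat_lit 76914) (nat_lit 6) (node (nat_lit 5) (nat_lit 76914) (nat_lit 7) (node
  (nat_lit 7) (nat_lit 79338) (nat_lit 8) nil nil) nil) nil))))) (node (nat_lit 4) (nat_lit 0)
  (nat_lit 5) (node (nat_lit 3) (nat_lit 67619) (nat_lit 6) (node (nat_lit 5) (nat_lit 66538)
  (nat_lit 7) (node (nat_lit 9) (nat_lit 68434) (nat_lit 8) (node (nat_lit 4) (nat_lit 67048)
  (nat_lit 9) nil nil) nil) (node (nat_lit 4) (nat_lit 72687) (nat_lit 7) nil (node (nat_lit 6)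
  (nat_lit 75038) (nat_lit 7) nil (node (nat_lit 7) (nat_lit 75038) (nat_lit 7) nil nil)))) (node
  (nat_lit 5) (nat_lit 65212) (nat_lit 6) (node (nat_lit 4) (nat_lit 67033) (nat_lit 7) (node
  (nat_lit 7) (nat_lit 71765) (nat_lit 8) nil nil) (node (nat_lit 3) (nat_lit 66663) (nat_lit 7)
  nil (node (nat_lit 7) (nat_lit 72631) (nat_lit 7) nil nil))) (node (nat_lit 7) (nat_lit 74657)
  (nat_lit 6) nil (node (nat_lit 6) (nat_lit 74657) (nat_lit 6) nil (node (nat_lit 0) (nat_lit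
  74657) (nat_lit 6) nil nil))))) (node (nat_lit 3) (nat_lit 0) (nat_lit 5) (node (nat_lit 4)
  (nat_lit 67557) (nat_lit 6) (node (nat_lit 5) (nat_lit 69333) (nat_lit 7) nil (node (nat_lit 8)
  (nat_lit 68720) (nat_lit 7) nil (node (nat_lit 6) (nat_lit 74976) (nat_lit 7) nil (node (nat_lit
  7) (nat_lit 74976) (nat_lit 7) nil nil)))) (node (nat_lit 5) (nat_lit 70021) (nat_lit 6) (node
  (nat_lit 8) (nat_lit 75426) (nat_lit 7) (node (nat_lit 7) (nat_lit 80158) (nat_lit 8) nil nil)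
  (node (nat_lit 4) (nat_lit 68982) (nat_lit 7) nil (node (nat_lit 7) (nat_lit 77441) (nat_lit 7)
  nil nil))) (node (nat_lit 7) (nat_lit 76769) (nat_lit 6) nil (node (nat_lit 6) (nat_lit 76769)
  (nat_lit 6) nil (node (nat_lit 0) (nat_lit 76769) (nat_lit 6) nil nil))))) (node (nat_lit 0)
  (nat_lit 0) (nat_lit 5) (node (nat_lit 5) (nat_lit 70308) (nat_lit 6) nil (node (nat_lit 7)
  (nat_lit 76648) (nat_lit 6) (node (nat_lit 6) (nat_lit 78089) (nat_lit 7) nil nil) (node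
  (nat_lit 6) (nat_lit 76140) (nat_lit 6) nil (node (nat_lit 3) (nat_lit 70308) (nat_lit 6) nil
  (node (nat_lit 4) (nat_lit 70308) (nat_lit 6) nil (node (nat_lit 0) (nat_lit 72615) (nat_lit 6)
  nil nil)))))) nil))))) (node (nat_lit 5) (nat_lit 0) (nat_lit 4) (node (nat_lit 3) (nat_lit 0)
  (nat_lit 5) (node (nat_lit 5) (nat_lit 69668) (nat_lit 6) (node (nat_lit 6) (nat_lit 79997)
  (nat_lit 7) (node (nat_lit 5) (nat_lit 79997) (nat_lit 8) nil nil) (node (nat_lit 4) (nat_lit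
  73813) (nat_lit 7) (node (nat_lit 8) (nat_lit 74511) (nat_lit 8) (node (nat_lit 5) (nat_lit
  73711) (nat_lit 9) nil (node (nat_lit 4) (nat_lit 69229) (nat_lit 9) (node (nat_lit 5) (nat_lit
  56899) (nat_lit 10) nil nil) nil)) (node (nat_lit 5) (nat_lit 76553) (nat_lit 8) (node (nat_lit
  8) (nat_lit 71960) (nat_lit 9) nil (node (nat_lit 6) (nat_lit 62244) (nat_lit 9) (node (nat_lit
  5) (nat_lit 46717) (nat_lit 10) nil nil) nil)) nil)) (node (nat_lit 0) (nat_lit 77087) (nat_lit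
  7) nil nil))) (node (nat_lit 4) (nat_lit 69114) (nat_lit 6) (node (nat_lit 5) (nat_lit 74365)
  (nat_lit 7) (node (nat_lit 8) (nat_lit 77510) (nat_lit 8) (node (nat_lit 5) (nat_lit 78265)
  (nat_lit 9) (node (nat_lit 4) (nat_lit 75752) (nat_lit 10) nil nil) nil) (node (nat_lit 4)
  (nat_lit 75713) (nat_lit 8) (node (nat_lit 8) (nat_lit 73819) (nat_lit 9) nil nil) (node
  (nat_lit 6) (nat_lit 59256) (nat_lit 8) (node (nat_lit 5) (nat_lit 33177) (nat_lit 9) nil nil)
  nil))) (node (nat_lit 8) (nat_lit 73881) (nat_lit 7) (node (nat_lit 5) (nat_lit 75340) (nat_lit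
  8) (node (nat_lit 4) (nat_lit 68567) (nat_lit 9) (node (nat_lit 5) (nat_lit 62744) (nat_lit 10)
  nil nil) (node (nat_lit 8) (nat_lit 72684) (nat_lit 9) nil nil)) nil) (node (nat_lit 6) (nat_lit
  76533) (nat_lit 7) nil (node (nat_lit 0) (nat_lit 76533) (nat_lit 7) nil nil)))) (node (nat_lit
  6) (nat_lit 77376) (nat_lit 6) (node (nat_lit 8) (nat_lit 77376) (nat_lit 7) (node (nat_lit 5)
  (nat_lit 77376) (nat_lit 8) nil nil) nil) (node (nat_lit 0) (nat_lit 76422) (nat_lit 6) nil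
  nil)))) (node (nat_lit 4) (nat_lit 0) (nat_lit 5) (node (nat_lit 5) (nat_lit 57527) (nat_lit 6)
  (node (nat_lit 3) (nat_lit 66593) (nat_lit 7) (node (nat_lit 4) (nat_lit 64679) (nat_lit 8)
  (node (nat_lit 5) (nat_lit 66187) (nat_lit 9) (node (nat_lit 6) (nat_lit 69756) (nat_lit 10) nil
  nil) (node (nat_lit 10) (nat_lit 64660) (nat_lit 9) nil nil)) (node (nat_lit 5) (nat_lit 67508)
  (nat_lit 8) (node (nat_lit 4) (nat_lit 64231) (nat_lit 9) nil nil) nil)) (node (nat_lit 6)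
  (nat_lit 40146) (nat_lit 7) (node (nat_lit 4) (nat_lit 40786) (nat_lit 8) (node (nat_lit 5)
  (nat_lit 41723) (nat_lit 9) (node (nat_lit 4) (nat_lit 42363) (nat_lit 10) nil nil) (node
  (nat_lit 6) (nat_lit 42726) (nat_lit 9) nil (node (nat_lit 3) (nat_lit 40238) (nat_lit 9) nil
  (node (nat_lit 0) (nat_lit 41681) (nat_lit 9) nil nil)))) (node (nat_lit 3) (nat_lit 40359)
  (nat_lit 8) nil (node (nat_lit 0) (nat_lit 41240) (nat_lit 8) nil nil))) (node (nat_lit 0)
  (nat_lit 66704) (nat_lit 7) nil nil))) (node (nat_lit 3) (nat_lit 64361) (nat_lit 6) (node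
  (nat_lit 5) (nat_lit 67851) (nat_lit 7) (node (nat_lit 4) (nat_lit 65928) (nat_lit 8) (node
  (nat_lit 5) (nat_lit 59091) (nat_lit 9) (node (nat_lit 9) (nat_lit 58924) (nat_lit 10) nil (node
  (nat_lit 6) (nat_lit 50856) (nat_lit 10) nil nil)) nil) (node (nat_lit 9) (nat_lit 68967)
  (nat_lit 8) (node (nat_lit 4) (nat_lit 68832) (nat_lit 9) (node (nat_lit 5) (nat_lit 64205)
  (nat_lit 10) nil nil) nil) nil)) (node (nat_lit 4) (nat_lit 69676) (nat_lit 7) (node (nat_lit 5)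
  (nat_lit 72143) (nat_lit 8) (node (nat_lit 9) (nat_lit 72125) (nat_lit 9) nil (node (nat_lit 6)
  (nat_lit 48887) (nat_lit 9) nil nil)) nil) (node (nat_lit 6) (nat_lit 72650) (nat_lit 7) nil
  (node (nat_lit 0) (nat_lit 72650) (nat_lit 7) nil nil)))) (node (nat_lit 6) (nat_lit 67930)
  (nat_lit 6) (node (nat_lit 4) (nat_lit 67930) (nat_lit 7) (node (nat_lit 5) (nat_lit 67930)
  (nat_lit 8) nil nil) (node (nat_lit 3) (nat_lit 69245) (nat_lit 7) nil nil)) (node (nat_lit 0)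
  (nat_lit 67808) (nat_lit 6) nil nil)))) (node (nat_lit 0) (nat_lit 0) (nat_lit 5) (node (nat_lit
  5) (nat_lit 72530) (nat_lit 6) (node (nat_lit 6) (nat_lit 79857) (nat_lit 7) nil (node (nat_lit
  3) (nat_lit 75151) (nat_lit 7) nil (node (nat_lit 4) (nat_lit 70045) (nat_lit 7) nil (node
  (nat_lit 0) (nat_lit 78630) (nat_lit 7) nil nil)))) (node (nat_lit 6) (nat_lit 77130) (nat_lit
  6) (node (nat_lit 8) (nat_lit 78571) (nat_lit 7) nil (node (nat_lit 5) (nat_lit 77130) (nat_lit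
  7) nil nil)) (node (nat_lit 3) (nat_lit 72181) (nat_lit 6) (node (nat_lit 5) (nat_lit 72169)
  (nat_lit 7) nil (node (nat_lit 8) (nat_lit 75930) (nat_lit 7) nil (node (nat_lit 6) (nat_lit
  75930) (nat_lit 7) nil (node (nat_lit 4) (nat_lit 72181) (nat_lit 7) nil nil)))) (node (nat_lit
  4) (nat_lit 68937) (nat_lit 6) (node (nat_lit 5) (nat_lit 67041) (nat_lit 7) nil (node (nat_lit
  8) (nat_lit 75036) (nat_lit 7) nil (node (nat_lit 6) (nat_lit 72685) (nat_lit 7) nil (node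
  (nat_lit 3) (nat_lit 68937) (nat_lit 7) nil nil)))) (node (nat_lit 0) (nat_lit 77130) (nat_lit
  6) (node (nat_lit 6) (nat_lit 78571) (nat_lit 7) nil nil) nil))))) nil))) nil)))

noncomputable def t362 : Tr :=
  (node (nat_lit 5) (nat_lit 57876) (nat_lit 6) (node (nat_lit 7) (nat_lit 70594) (nat_lit 7)
  (node (nat_lit 6) (nat_lit 70807) (nat_lit 8) (node (nat_lit 7) (nat_lit 73357) (nat_lit 9)
  (node (nat_lit 5) (nat_lit 73527) (nat_lit 10) (node (nat_lit 6) (nat_lit 73748) (nat_lit 11)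
  (node (nat_lit 5) (nat_lit 74385) (nat_lit 12) (node (nat_lit 7) (nat_lit 74638) (nat_lit 13)
  nil nil) (node (nat_lit 4) (nat_lit 74213) (nat_lit 12) nil (node (nat_lit 7) (nat_lit 74638)
  (nat_lit 12) nil nil))) (node (nat_lit 7) (nat_lit 74572) (nat_lit 11) (node (nat_lit 6)
  (nat_lit 74572) (nat_lit 12) (node (nat_lit 5) (nat_lit 74572) (nat_lit 13) nil nil) nil) (node
  (nat_lit 4) (nat_lit 73748) (nat_lit 11) nil (node (nat_lit 0) (nat_lit 74400) (nat_lit 11) nil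
  nil)))) (node (nat_lit 4) (nat_lit 73527) (nat_lit 10) (node (nat_lit 6) (nat_lit 72987)
  (nat_lit 11) nil (node (nat_lit 5) (nat_lit 73484) (nat_lit 11) nil (node (nat_lit 7) (nat_lit
  74400) (nat_lit 11) nil (node (nat_lit 0) (nat_lit 74400) (nat_lit 11) nil nil)))) (node
  (nat_lit 0) (nat_lit 74043) (nat_lit 10) (node (nat_lit 6) (nat_lit 74043) (nat_lit 11) nil nil)
  nil))) (node (nat_lit 4) (nat_lit 71543) (nat_lit 9) (node (nat_lit 5) (nat_lit 72917) (nat_lit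
  10) (node (nat_lit 4) (nat_lit 73748) (nat_lit 11) (node (nat_lit 6) (nat_lit 72911) (nat_lit
  12) nil nil) (node (nat_lit 6) (nat_lit 72421) (nat_lit 11) nil nil)) (node (nat_lit 6) (nat_lit
  72917) (nat_lit 10) (node (nat_lit 5) (nat_lit 73599) (nat_lit 11) (node (nat_lit 4) (nat_lit
  73129) (nat_lit 12) (node (nat_lit 5) (nat_lit 73414) (nat_lit 13) (node (nat_lit 6) (nat_lit
  71417) (nat_lit 14) nil nil) nil) (node (nat_lit 6) (nat_lit 72394) (nat_lit 12) nil nil)) (node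
  (nat_lit 7) (nat_lit 74400) (nat_lit 11) nil (node (nat_lit 0) (nat_lit 74400) (nat_lit 11) nil
  nil))) (node (nat_lit 7) (nat_lit 74043) (nat_lit 10) (node (nat_lit 6) (nat_lit 74043) (nat_lit
  11) nil nil) (node (nat_lit 0) (nat_lit 74043) (nat_lit 10) nil nil)))) (node (nat_lit 0)
  (nat_lit 73357) (nat_lit 9) (node (nat_lit 6) (nat_lit 73527) (nat_lit 10) (node (nat_lit 4)
  (nat_lit 73748) (nat_lit 11) nil (node (nat_lit 5) (nat_lit 73484) (nat_lit 11) nil (node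
  (nat_lit 7) (nat_lit 74400) (nat_lit 11) nil (node (nat_lit 0) (nat_lit 74400) (nat_lit 11) nil
  nil)))) (node (nat_lit 4) (nat_lit 73357) (nat_lit 10) (node (nat_lit 6) (nat_lit 73357)
  (nat_lit 11) nil nil) (node (nat_lit 7) (nat_lit 74043) (nat_lit 10) nil (node (nat_lit 5)
  (nat_lit 73357) (nat_lit 10) nil (node (nat_lit 0) (nat_lit 73822) (nat_lit 10) nil nil)))))
  nil))) (node (nat_lit 5) (nat_lit 70839) (nat_lit 8) (node (nat_lit 6) (nat_lit 71575) (nat_lit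
  9) (node (nat_lit 7) (nat_lit 74075) (nat_lit 10) (node (nat_lit 5) (nat_lit 74075) (nat_lit 11)
  (node (nat_lit 7) (nat_lit 74638) (nat_lit 12) nil nil) nil) (node (nat_lit 4) (nat_lit 72779)
  (nat_lit 10) nil (node (nat_lit 5) (nat_lit 72528) (nat_lit 10) nil (node (nat_lit 0) (nat_lit
  73603) (nat_lit 10) nil nil)))) (node (nat_lit 4) (nat_lit 70992) (nat_lit 9) (node (nat_lit 7)
  (nat_lit 73491) (nat_lit 10) nil (node (nat_lit 5) (nat_lit 71945) (nat_lit 10) nil nil)) (node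
  (nat_lit 0) (nat_lit 73202) (nat_lit 9) nil nil))) (node (nat_lit 4) (nat_lit 70807) (nat_lit 8)
  (node (nat_lit 5) (nat_lit 71543) (nat_lit 9) (node (nat_lit 4) (nat_lit 71512) (nat_lit 10) nil
  (node (nat_lit 6) (nat_lit 71053) (nat_lit 10) nil nil)) (node (nat_lit 7) (nat_lit 73170)
  (nat_lit 9) nil (node (nat_lit 6) (nat_lit 71543) (nat_lit 9) (node (nat_lit 4) (nat_lit 72496)
  (nat_lit 10) nil nil) (node (nat_lit 0) (nat_lit 72371) (nat_lit 9) nil nil)))) (node (nat_lit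
  0) (nat_lit 72308) (nat_lit 8) (node (nat_lit 6) (nat_lit 72308) (nat_lit 9) nil (node (nat_lit
  5) (nat_lit 72308) (nat_lit 9) nil nil)) nil)))) (node (nat_lit 4) (nat_lit 64486) (nat_lit 7)
  (node (nat_lit 6) (nat_lit 67573) (nat_lit 8) (node (nat_lit 4) (nat_lit 67516) (nat_lit 9)
  (node (nat_lit 5) (nat_lit 64590) (nat_lit 10) (node (nat_lit 6) (nat_lit 55743) (nat_lit 11)
  (node (nat_lit 7) (nat_lit 44966) (nat_lit 12) nil nil) nil) nil) (node (nat_lit 5) (nat_lit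
  68076) (nat_lit 9) (node (nat_lit 6) (nat_lit 68660) (nat_lit 10) (node (nat_lit 4) (nat_lit
  68187) (nat_lit 11) nil nil) nil) (node (nat_lit 0) (nat_lit 70534) (nat_lit 9) nil (node
  (nat_lit 7) (nat_lit 71609) (nat_lit 9) nil nil)))) (node (nat_lit 5) (nat_lit 68456) (nat_lit
  8) (node (nat_lit 6) (nat_lit 70710) (nat_lit 9) (node (nat_lit 4) (nat_lit 71663) (nat_lit 10)
  nil (node (nat_lit 7) (nat_lit 38288) (nat_lit 10) (node (nat_lit 6) (nat_lit 38288) (nat_lit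
  11) nil nil) nil)) (node (nat_lit 7) (nat_lit 72773) (nat_lit 9) nil (node (nat_lit 0) (nat_lit
  71417) (nat_lit 9) nil nil))) (node (nat_lit 7) (nat_lit 71699) (nat_lit 8) (node (nat_lit 5)
  (nat_lit 71699) (nat_lit 9) nil (node (nat_lit 4) (nat_lit 71699) (nat_lit 9) nil (node (nat_lit
  0) (nat_lit 72310) (nat_lit 9) nil nil))) (node (nat_lit 0) (nat_lit 71699) (nat_lit 8) (node
  (nat_lit 4) (nat_lit 71699) (nat_lit 9) nil (node (nat_lit 5) (nat_lit 71699) (nat_lit 9) nil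
  (node (nat_lit 7) (nat_lit 72310) (nat_lit 9) nil nil))) nil)))) (node (nat_lit 0) (nat_lit
  70611) (nat_lit 7) (node (nat_lit 6) (nat_lit 70824) (nat_lit 8) (node (nat_lit 5) (nat_lit
  71372) (nat_lit 9) (node (nat_lit 6) (nat_lit 72325) (nat_lit 10) nil nil) (node (nat_lit 10)
  (nat_lit 72388) (nat_lit 9) nil (node (nat_lit 4) (nat_lit 70824) (nat_lit 9) nil (node (nat_lit
  7) (nat_lit 72388) (nat_lit 9) nil nil)))) (node (nat_lit 5) (nat_lit 70824) (nat_lit 8) (node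
  (nat_lit 6) (nat_lit 71372) (nat_lit 9) nil (node (nat_lit 7) (nat_lit 72388) (nat_lit 9) nil
  (node (nat_lit 4) (nat_lit 70824) (nat_lit 9) nil nil))) (node (nat_lit 4) (nat_lit 69701)
  (nat_lit 8) (node (nat_lit 5) (nat_lit 69701) (nat_lit 9) nil (node (nat_lit 6) (nat_lit 69701)
  (nat_lit 9) nil (node (nat_lit 10) (nat_lit 71264) (nat_lit 9) nil nil))) (node (nat_lit 7)
  (nat_lit 72325) (nat_lit 8) (node (nat_lit 5) (nat_lit 72325) (nat_lit 9) nil nil) (node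
  (nat_lit 0) (nat_lit 72325) (nat_lit 8) nil nil))))) (node (nat_lit 6) (nat_lit 65348) (nat_lit
  7) (node (nat_lit 7) (nat_lit 72308) (nat_lit 8) (node (nat_lit 5) (nat_lit 72496) (nat_lit 9)
  (node (nat_lit 7) (nat_lit 74043) (nat_lit 10) (node (nat_lit 6) (nat_lit 74043) (nat_lit 11)
  (node (nat_lit 5) (nat_lit 74244) (nat_lit 12) (node (nat_lit 7) (nat_lit 74638) (nat_lit 13)
  nil (node (nat_lit 6) (nat_lit 74572) (nat_lit 13) nil nil)) nil) nil) (node (nat_lit 6)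
  (nat_lit 72747) (nat_lit 10) (node (nat_lit 5) (nat_lit 73357) (nat_lit 11) nil nil) (node
  (nat_lit 4) (nat_lit 72496) (nat_lit 10) nil nil))) (node (nat_lit 4) (nat_lit 72308) (nat_lit
  9) nil (node (nat_lit 0) (nat_lit 72919) (nat_lit 9) nil nil))) (node (nat_lit 4) (nat_lit
  68822) (nat_lit 8) (node (nat_lit 6) (nat_lit 68284) (nat_lit 9) nil nil) (node (nat_lit 0)
  (nat_lit 71901) (nat_lit 8) nil nil))) nil)))) (node (nat_lit 4) (nat_lit 56825) (nat_lit 6)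
  (node (nat_lit 5) (nat_lit 64697) (nat_lit 7) (node (nat_lit 4) (nat_lit 68077) (nat_lit 8)
  (node (nat_lit 6) (nat_lit 66092) (nat_lit 9) (node (nat_lit 5) (nat_lit 66630) (nat_lit 10)
  (node (nat_lit 6) (nat_lit 67059) (nat_lit 11) (node (nat_lit 4) (nat_lit 67068) (nat_lit 12)
  (node (nat_lit 5) (nat_lit 66354) (nat_lit 13) (node (nat_lit 6) (nat_lit 64011) (nat_lit 14)
  nil nil) nil) nil) nil) (node (nat_lit 4) (nat_lit 65597) (nat_lit 10) (node (nat_lit 5)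
  (nat_lit 61974) (nat_lit 11) (node (nat_lit 6) (nat_lit 57762) (nat_lit 12) (node (nat_lit 7)
  (nat_lit 45509) (nat_lit 13) (node (nat_lit 6) (nat_lit 45509) (nat_lit 14) nil nil) nil) nil)
  nil) nil)) (node (nat_lit 7) (nat_lit 72113) (nat_lit 9) nil (node (nat_lit 0) (nat_lit 71038)
  (nat_lit 9) nil nil))) (node (nat_lit 6) (nat_lit 68040) (nat_lit 8) (node (nat_lit 5) (nat_lit
  68522) (nat_lit 9) (node (nat_lit 4) (nat_lit 66517) (nat_lit 10) (node (nat_lit 5) (nat_lit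
  61502) (nat_lit 11) nil nil) nil) (node (nat_lit 4) (nat_lit 69509) (nat_lit 9) (node (nat_lit
  6) (nat_lit 70889) (nat_lit 10) (node (nat_lit 5) (nat_lit 71094) (nat_lit 11) (node (nat_lit 6)
  (nat_lit 71526) (nat_lit 12) nil nil) nil) nil) (node (nat_lit 0) (nat_lit 71001) (nat_lit 9)
  nil (node (nat_lit 7) (nat_lit 34272) (nat_lit 9) nil nil)))) (node (nat_lit 7) (nat_lit 71842)
  (nat_lit 8) (node (nat_lit 4) (nat_lit 71842) (nat_lit 9) nil (node (nat_lit 5) (nat_lit 71842)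
  (nat_lit 9) nil (node (nat_lit 0) (nat_lit 72453) (nat_lit 9) nil nil))) (node (nat_lit 0)
  (nat_lit 71842) (nat_lit 8) (node (nat_lit 5) (nat_lit 71842) (nat_lit 9) nil (node (nat_lit 4)
  (nat_lit 71842) (nat_lit 9) nil (node (nat_lit 6) (nat_lit 71842) (nat_lit 9) nil nil))) nil))))
  (node (nat_lit 7) (nat_lit 69543) (nat_lit 7) (node (nat_lit 4) (nat_lit 69694) (nat_lit 8)
  (node (nat_lit 6) (nat_lit 69922) (nat_lit 9) (node (nat_lit 7) (nat_lit 72993) (nat_lit 10)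
  (node (nat_lit 4) (nat_lit 72993) (nat_lit 11) (node (nat_lit 7) (nat_lit 73668) (nat_lit 12)
  nil nil) nil) (node (nat_lit 4) (nat_lit 71339) (nat_lit 10) (node (nat_lit 7) (nat_lit 72822)
  (nat_lit 11) nil nil) (node (nat_lit 5) (nat_lit 70086) (nat_lit 10) nil (node (nat_lit 0)
  (nat_lit 71949) (nat_lit 10) nil nil)))) (node (nat_lit 5) (nat_lit 70478) (nat_lit 9) nil (node
  (nat_lit 0) (nat_lit 72119) (nat_lit 9) nil nil))) (node (nat_lit 6) (nat_lit 69694) (nat_lit 8)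
  (node (nat_lit 7) (nat_lit 72306) (nat_lit 9) (node (nat_lit 4) (nat_lit 72599) (nat_lit 10)
  (node (nat_lit 6) (nat_lit 72059) (nat_lit 11) nil (node (nat_lit 7) (nat_lit 73472) (nat_lit
  11) nil nil)) (node (nat_lit 5) (nat_lit 72306) (nat_lit 10) nil nil)) (node (nat_lit 5)
  (nat_lit 70491) (nat_lit 9) (node (nat_lit 4) (nat_lit 69934) (nat_lit 10) nil (node (nat_lit 6)
  (nat_lit 71444) (nat_lit 10) nil nil)) (node (nat_lit 0) (nat_lit 72119) (nat_lit 9) nil nil)))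
  (node (nat_lit 5) (nat_lit 70356) (nat_lit 8) (node (nat_lit 4) (nat_lit 71092) (nat_lit 9)
  (node (nat_lit 5) (nat_lit 72045) (nat_lit 10) nil (node (nat_lit 6) (nat_lit 71363) (nat_lit
  10) nil nil)) (node (nat_lit 7) (nat_lit 72719) (nat_lit 9) (node (nat_lit 6) (nat_lit 72719)
  (nat_lit 10) nil nil) (node (nat_lit 6) (nat_lit 70905) (nat_lit 9) nil nil))) (node (nat_lit 0)
  (nat_lit 71661) (nat_lit 8) nil nil)))) (node (nat_lit 6) (nat_lit 64151) (nat_lit 7) (node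
  (nat_lit 7) (nat_lit 71257) (nat_lit 8) (node (nat_lit 4) (nat_lit 71206) (nat_lit 9) (node
  (nat_lit 7) (nat_lit 73162) (nat_lit 10) (node (nat_lit 6) (nat_lit 73300) (nat_lit 11) (node
  (nat_lit 4) (nat_lit 73501) (nat_lit 12) (node (nat_lit 6) (nat_lit 73181) (nat_lit 13) nil
  (node (nat_lit 7) (nat_lit 74338) (nat_lit 13) nil nil)) nil) nil) (node (nat_lit 6) (nat_lit
  71962) (nat_lit 10) (node (nat_lit 4) (nat_lit 72820) (nat_lit 11) (node (nat_lit 7) (nat_lit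
  73959) (nat_lit 12) nil nil) nil) (node (nat_lit 5) (nat_lit 71206) (nat_lit 10) nil (node
  (nat_lit 0) (nat_lit 72280) (nat_lit 10) nil nil)))) (node (nat_lit 5) (nat_lit 71444) (nat_lit
  9) nil (node (nat_lit 0) (nat_lit 72119) (nat_lit 9) nil nil))) (node (nat_lit 5) (nat_lit
  68368) (nat_lit 8) (node (nat_lit 4) (nat_lit 67800) (nat_lit 9) (node (nat_lit 5) (nat_lit
  60255) (nat_lit 10) (node (nat_lit 6) (nat_lit 42958) (nat_lit 11) (node (nat_lit 7) (nat_lit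
  44660) (nat_lit 12) nil nil) nil) nil) (node (nat_lit 6) (nat_lit 66839) (nat_lit 9) (node
  (nat_lit 4) (nat_lit 66365) (nat_lit 10) (node (nat_lit 5) (nat_lit 60992) (nat_lit 11) (node
  (nat_lit 6) (nat_lit 60734) (nat_lit 12) nil nil) nil) nil) (node (nat_lit 7) (nat_lit 72404)
  (nat_lit 9) nil nil))) (node (nat_lit 0) (nat_lit 71173) (nat_lit 8) nil nil))) (node (nat_lit
  0) (nat_lit 70128) (nat_lit 7) (node (nat_lit 4) (nat_lit 69905) (nat_lit 8) (node (nat_lit 6)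
  (nat_lit 69863) (nat_lit 9) nil (node (nat_lit 7) (nat_lit 71468) (nat_lit 9) nil (node (nat_lit
  5) (nat_lit 69905) (nat_lit 9) nil nil))) (node (nat_lit 6) (nat_lit 70279) (nat_lit 8) (node
  (nat_lit 4) (nat_lit 70532) (nat_lit 9) nil (node (nat_lit 10) (nat_lit 71842) (nat_lit 9) nil
  (node (nat_lit 5) (nat_lit 70279) (nat_lit 9) nil (node (nat_lit 7) (nat_lit 71842) (nat_lit 9)
  nil nil)))) (node (nat_lit 5) (nat_lit 70341) (nat_lit 8) (node (nat_lit 6) (nat_lit 70341)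
  (nat_lit 9) nil (node (nat_lit 4) (nat_lit 70341) (nat_lit 9) nil nil)) (node (nat_lit 7)
  (nat_lit 71842) (nat_lit 8) nil (node (nat_lit 0) (nat_lit 71842) (nat_lit 8) nil nil)))))
  nil)))) (node (nat_lit 0) (nat_lit 66356) (nat_lit 6) (node (nat_lit 7) (nat_lit 70434) (nat_lit
  7) (node (nat_lit 6) (nat_lit 70733) (nat_lit 8) (node (nat_lit 7) (nat_lit 73348) (nat_lit 9)
  (node (nat_lit 9) (nat_lit 74203) (nat_lit 10) (node (nat_lit 6) (nat_lit 74203) (nat_lit 11)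
  nil (node (nat_lit 7) (nat_lit 74572) (nat_lit 11) nil nil)) (node (nat_lit 0) (nat_lit 74034)
  (nat_lit 10) nil (node (nat_lit 5) (nat_lit 73348) (nat_lit 10) nil (node (nat_lit 4) (nat_lit
  73348) (nat_lit 10) nil nil)))) (node (nat_lit 5) (nat_lit 71533) (nat_lit 9) (node (nat_lit 6)
  (nat_lit 72486) (nat_lit 10) nil (node (nat_lit 4) (nat_lit 70976) (nat_lit 10) nil (node
  (nat_lit 9) (nat_lit 73561) (nat_lit 10) nil nil))) (node (nat_lit 4) (nat_lit 70749) (nat_lit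
  9) (node (nat_lit 6) (nat_lit 70259) (nat_lit 10) nil (node (nat_lit 5) (nat_lit 71274) (nat_lit
  10) nil (node (nat_lit 9) (nat_lit 72776) (nat_lit 10) nil nil))) (node (nat_lit 0) (nat_lit
  73348) (nat_lit 9) nil nil)))) (node (nat_lit 9) (nat_lit 72299) (nat_lit 8) (node (nat_lit 6)
  (nat_lit 72486) (nat_lit 9) (node (nat_lit 9) (nat_lit 73561) (nat_lit 10) nil (node (nat_lit 7)
  (nat_lit 73561) (nat_lit 10) nil nil)) nil) (node (nat_lit 5) (nat_lit 70797) (nat_lit 8) nil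
  (node (nat_lit 4) (nat_lit 70733) (nat_lit 8) nil (node (nat_lit 0) (nat_lit 72086) (nat_lit 8)
  nil nil))))) (node (nat_lit 6) (nat_lit 66940) (nat_lit 7) (node (nat_lit 7) (nat_lit 71640)
  (nat_lit 8) (node (nat_lit 9) (nat_lit 72902) (nat_lit 9) (node (nat_lit 6) (nat_lit 72902)
  (nat_lit 10) nil (node (nat_lit 7) (nat_lit 73366) (nat_lit 10) nil nil)) (node (nat_lit 5)
  (nat_lit 71640) (nat_lit 9) nil (node (nat_lit 6) (nat_lit 71640) (nat_lit 9) nil (node (nat_lit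
  4) (nat_lit 71640) (nat_lit 9) nil nil)))) (node (nat_lit 5) (nat_lit 68378) (nat_lit 8) (node
  (nat_lit 6) (nat_lit 69776) (nat_lit 9) nil (node (nat_lit 4) (nat_lit 67745) (nat_lit 9) nil
  (node (nat_lit 9) (nat_lit 71340) (nat_lit 9) nil (node (nat_lit 7) (nat_lit 71340) (nat_lit 9)
  nil nil)))) (node (nat_lit 4) (nat_lit 67961) (nat_lit 8) (node (nat_lit 6) (nat_lit 68811)
  (nat_lit 9) nil (node (nat_lit 9) (nat_lit 70922) (nat_lit 9) nil (node (nat_lit 5) (nat_lit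
  69359) (nat_lit 9) nil (node (nat_lit 7) (nat_lit 70922) (nat_lit 9) nil nil)))) (node (nat_lit
  0) (nat_lit 71427) (nat_lit 8) nil nil)))) (node (nat_lit 5) (nat_lit 67015) (nat_lit 7) (node
  (nat_lit 6) (nat_lit 68826) (nat_lit 8) (node (nat_lit 5) (nat_lit 69728) (nat_lit 9) nil (node
  (nat_lit 9) (nat_lit 71788) (nat_lit 9) nil nil)) (node (nat_lit 7) (nat_lit 71896) (nat_lit 8)
  nil (node (nat_lit 4) (nat_lit 68191) (nat_lit 8) (node (nat_lit 5) (nat_lit 69588) (nat_lit 9)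
  nil nil) (node (nat_lit 9) (nat_lit 71683) (nat_lit 8) nil (node (nat_lit 0) (nat_lit 71683)
  (nat_lit 8) nil nil))))) (node (nat_lit 4) (nat_lit 66745) (nat_lit 7) (node (nat_lit 6)
  (nat_lit 68621) (nat_lit 8) (node (nat_lit 4) (nat_lit 70649) (nat_lit 9) nil (node (nat_lit 9)
  (nat_lit 71583) (nat_lit 9) nil nil)) (node (nat_lit 7) (nat_lit 71389) (nat_lit 8) nil (node
  (nat_lit 5) (nat_lit 68331) (nat_lit 8) (node (nat_lit 4) (nat_lit 67698) (nat_lit 9) nil nil)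
  (node (nat_lit 9) (nat_lit 71389) (nat_lit 8) nil (node (nat_lit 0) (nat_lit 70659) (nat_lit 8)
  nil nil))))) (node (nat_lit 0) (nat_lit 70510) (nat_lit 7) (node (nat_lit 6) (nat_lit 70797)
  (nat_lit 8) (node (nat_lit 9) (nat_lit 72361) (nat_lit 9) nil nil) (node (nat_lit 9) (nat_lit
  72086) (nat_lit 8) nil (node (nat_lit 4) (nat_lit 70510) (nat_lit 8) nil (node (nat_lit 5)
  (nat_lit 70510) (nat_lit 8) nil (node (nat_lit 7) (nat_lit 72086) (nat_lit 8) nil (node (nat_lit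
  0) (nat_lit 71463) (nat_lit 8) nil nil)))))) nil))))) nil)))

noncomputable def t363 : Tr :=
  (node (nat_lit 0) (nat_lit 0) (nat_lit 4) (node (nat_lit 6) (nat_lit 0) (nat_lit 5) t362 (node
  (nat_lit 5) (nat_lit 0) (nat_lit 5) (node (nat_lit 7) (nat_lit 66534) (nat_lit 6) (node (nat_lit
  6) (nat_lit 67904) (nat_lit 7) (node (nat_lit 7) (nat_lit 72353) (nat_lit 8) (node (nat_lit 5)
  (nat_lit 72688) (nat_lit 9) (node (nat_lit 6) (nat_lit 73108) (nat_lit 10) (node (nat_lit 5)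
  (nat_lit 74078) (nat_lit 11) (node (nat_lit 7) (nat_lit 74638) (nat_lit 12) (node (nat_lit 6)
  (nat_lit 74638) (nat_lit 13) nil (node (nat_lit 5) (nat_lit 74638) (nat_lit 13) nil nil)) (node
  (nat_lit 4) (nat_lit 74385) (nat_lit 12) (node (nat_lit 6) (nat_lit 73870) (nat_lit 13) nil nil)
  (node (nat_lit 0) (nat_lit 74638) (nat_lit 12) nil nil))) (node (nat_lit 7) (nat_lit 74572)
  (nat_lit 11) (node (nat_lit 6) (nat_lit 74572) (nat_lit 12) (node (nat_lit 5) (nat_lit 74572)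
  (nat_lit 13) (node (nat_lit 6) (nat_lit 74638) (nat_lit 14) nil nil) nil) nil) (node (nat_lit 4)
  (nat_lit 73940) (nat_lit 11) (node (nat_lit 5) (nat_lit 74385) (nat_lit 12) nil (node (nat_lit
  6) (nat_lit 73493) (nat_lit 12) nil nil)) (node (nat_lit 0) (nat_lit 74572) (nat_lit 11) nil
  nil)))) (node (nat_lit 4) (nat_lit 72552) (nat_lit 10) (node (nat_lit 6) (nat_lit 73344)
  (nat_lit 11) (node (nat_lit 5) (nat_lit 72874) (nat_lit 12) nil (node (nat_lit 4) (nat_lit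
  73808) (nat_lit 12) nil nil)) (node (nat_lit 5) (nat_lit 73384) (nat_lit 11) (node (nat_lit 6)
  (nat_lit 72956) (nat_lit 12) nil nil) (node (nat_lit 7) (nat_lit 74035) (nat_lit 11) nil (node
  (nat_lit 0) (nat_lit 74035) (nat_lit 11) nil nil)))) (node (nat_lit 0) (nat_lit 74235) (nat_lit
  10) (node (nat_lit 5) (nat_lit 74235) (nat_lit 11) nil nil) nil))) nil) (node (nat_lit 5)
  (nat_lit 69144) (nat_lit 8) (node (nat_lit 6) (nat_lit 71153) (nat_lit 9) (node (nat_lit 7)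
  (nat_lit 73181) (nat_lit 10) nil nil) nil) nil)) (node (nat_lit 0) (nat_lit 67932) (nat_lit 7)
  nil (node (nat_lit 4) (nat_lit 66534) (nat_lit 7) nil nil))) (node (nat_lit 4) (nat_lit 57131)
  (nat_lit 6) (node (nat_lit 6) (nat_lit 64114) (nat_lit 7) (node (nat_lit 5) (nat_lit 67877)
  (nat_lit 8) (node (nat_lit 4) (nat_lit 61966) (nat_lit 9) (node (nat_lit 5) (nat_lit 49855)
  (nat_lit 10) (node (nat_lit 6) (nat_lit 50372) (nat_lit 11) (node (nat_lit 7) (nat_lit 41947)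
  (nat_lit 12) nil nil) nil) nil) (node (nat_lit 6) (nat_lit 67187) (nat_lit 9) (node (nat_lit 4)
  (nat_lit 66262) (nat_lit 10) (node (nat_lit 5) (nat_lit 63736) (nat_lit 11) nil nil) nil) nil))
  (node (nat_lit 4) (nat_lit 68265) (nat_lit 8) (node (nat_lit 5) (nat_lit 69663) (nat_lit 9) nil
  nil) nil)) (node (nat_lit 5) (nat_lit 64529) (nat_lit 7) (node (nat_lit 6) (nat_lit 68436)
  (nat_lit 8) (node (nat_lit 7) (nat_lit 37814) (nat_lit 9) nil nil) nil) (node (nat_lit 7)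
  (nat_lit 69695) (nat_lit 7) nil (node (nat_lit 0) (nat_lit 69695) (nat_lit 7) nil nil)))) (node
  (nat_lit 6) (nat_lit 57483) (nat_lit 6) (node (nat_lit 5) (nat_lit 64756) (nat_lit 7) (node
  (nat_lit 7) (nat_lit 71570) (nat_lit 8) (node (nat_lit 6) (nat_lit 71570) (nat_lit 9) (node
  (nat_lit 7) (nat_lit 73518) (nat_lit 10) (node (nat_lit 5) (nat_lit 73518) (nat_lit 11) nil nil)
  nil) nil) (node (nat_lit 4) (nat_lit 67844) (nat_lit 8) (node (nat_lit 6) (nat_lit 67456)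
  (nat_lit 9) nil nil) (node (nat_lit 0) (nat_lit 69808) (nat_lit 8) nil nil))) (node (nat_lit 4)
  (nat_lit 62339) (nat_lit 7) (node (nat_lit 6) (nat_lit 65405) (nat_lit 8) nil (node (nat_lit 5)
  (nat_lit 65040) (nat_lit 8) nil nil)) (node (nat_lit 0) (nat_lit 68362) (nat_lit 7) nil nil)))
  (node (nat_lit 0) (nat_lit 66534) (nat_lit 6) (node (nat_lit 6) (nat_lit 66992) (nat_lit 7) nil
  (node (nat_lit 5) (nat_lit 66534) (nat_lit 7) nil (node (nat_lit 7) (nat_lit 69383) (nat_lit 7)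
  nil (node (nat_lit 0) (nat_lit 69383) (nat_lit 7) nil (node (nat_lit 4) (nat_lit 65886) (nat_lit
  7) nil nil))))) nil)))) (node (nat_lit 0) (nat_lit 0) (nat_lit 5) (node (nat_lit 6) (nat_lit
  61736) (nat_lit 6) (node (nat_lit 7) (nat_lit 70624) (nat_lit 7) (node (nat_lit 6) (nat_lit
  70837) (nat_lit 8) (node (nat_lit 8) (nat_lit 73387) (nat_lit 9) (node (nat_lit 6) (nat_lit
  73387) (nat_lit 10) (node (nat_lit 7) (nat_lit 74259) (nat_lit 11) nil (node (nat_lit 4)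
  (nat_lit 73387) (nat_lit 11) nil nil)) (node (nat_lit 7) (nat_lit 73851) (nat_lit 10) nil nil))
  (node (nat_lit 5) (nat_lit 71385) (nat_lit 9) nil (node (nat_lit 4) (nat_lit 71385) (nat_lit 9)
  nil (node (nat_lit 0) (nat_lit 73199) (nat_lit 9) nil nil)))) (node (nat_lit 5) (nat_lit 70837)
  (nat_lit 8) (node (nat_lit 8) (nat_lit 73199) (nat_lit 9) nil (node (nat_lit 6) (nat_lit 70837)
  (nat_lit 9) nil (node (nat_lit 7) (nat_lit 72401) (nat_lit 9) nil nil))) (node (nat_lit 4)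
  (nat_lit 69543) (nat_lit 8) (node (nat_lit 6) (nat_lit 69543) (nat_lit 9) nil (node (nat_lit 7)
  (nat_lit 71107) (nat_lit 9) nil (node (nat_lit 8) (nat_lit 71107) (nat_lit 9) nil nil))) (node
  (nat_lit 0) (nat_lit 72338) (nat_lit 8) (node (nat_lit 6) (nat_lit 72338) (nat_lit 9) nil nil)
  nil)))) (node (nat_lit 5) (nat_lit 63647) (nat_lit 7) nil (node (nat_lit 4) (nat_lit 63215)
  (nat_lit 7) nil (node (nat_lit 8) (nat_lit 70328) (nat_lit 7) (node (nat_lit 7) (nat_lit 71870)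
  (nat_lit 8) (node (nat_lit 6) (nat_lit 71870) (nat_lit 9) nil nil) nil) (node (nat_lit 0)
  (nat_lit 69413) (nat_lit 7) nil nil))))) (node (nat_lit 7) (nat_lit 66834) (nat_lit 6) (node
  (nat_lit 6) (nat_lit 67517) (nat_lit 7) (node (nat_lit 7) (nat_lit 72183) (nat_lit 8) (node
  (nat_lit 8) (nat_lit 73402) (nat_lit 9) (node (nat_lit 6) (nat_lit 73402) (nat_lit 10) (node
  (nat_lit 8) (nat_lit 74274) (nat_lit 11) nil (node (nat_lit 7) (nat_lit 74274) (nat_lit 11) nil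
  nil)) nil) nil) (node (nat_lit 8) (nat_lit 71431) (nat_lit 8) nil nil)) (node (nat_lit 5)
  (nat_lit 66834) (nat_lit 7) nil nil)) (node (nat_lit 5) (nat_lit 61464) (nat_lit 6) (node
  (nat_lit 7) (nat_lit 67913) (nat_lit 7) nil (node (nat_lit 6) (nat_lit 62861) (nat_lit 7) nil
  (node (nat_lit 4) (nat_lit 61464) (nat_lit 7) nil (node (nat_lit 8) (nat_lit 65563) (nat_lit 7)
  nil nil)))) (node (nat_lit 4) (nat_lit 59672) (nat_lit 6) (node (nat_lit 5) (nat_lit 59672)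
  (nat_lit 7) nil (node (nat_lit 6) (nat_lit 59039) (nat_lit 7) nil (node (nat_lit 7) (nat_lit
  63770) (nat_lit 7) nil nil))) (node (nat_lit 0) (nat_lit 66292) (nat_lit 6) nil nil))))) (node
  (nat_lit 4) (nat_lit 0) (nat_lit 5) (node (nat_lit 5) (nat_lit 56607) (nat_lit 6) (node (nat_lit
  6) (nat_lit 63395) (nat_lit 7) (node (nat_lit 4) (nat_lit 67759) (nat_lit 8) (node (nat_lit 6)
  (nat_lit 69448) (nat_lit 9) (node (nat_lit 5) (nat_lit 68235) (nat_lit 10) (node (nat_lit 4)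
  (nat_lit 66700) (nat_lit 11) (node (nat_lit 5) (nat_lit 65657) (nat_lit 12) (node (nat_lit 6)
  (nat_lit 62919) (nat_lit 13) nil nil) nil) nil) nil) nil) (node (nat_lit 5) (nat_lit 61072)
  (nat_lit 8) (node (nat_lit 4) (nat_lit 51616) (nat_lit 9) (node (nat_lit 5) (nat_lit 52566)
  (nat_lit 10) nil nil) nil) nil)) (node (nat_lit 4) (nat_lit 61285) (nat_lit 7) (node (nat_lit 6)
  (nat_lit 58458) (nat_lit 8) (node (nat_lit 4) (nat_lit 52958) (nat_lit 9) (node (nat_lit 5)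
  (nat_lit 49325) (nat_lit 10) (node (nat_lit 6) (nat_lit 41836) (nat_lit 11) nil nil) nil) nil)
  (node (nat_lit 7) (nat_lit 66336) (nat_lit 8) nil nil)) (node (nat_lit 7) (nat_lit 68713)
  (nat_lit 7) nil (node (nat_lit 0) (nat_lit 65135) (nat_lit 7) nil nil)))) (node (nat_lit 7)
  (nat_lit 65180) (nat_lit 6) (node (nat_lit 6) (nat_lit 66111) (nat_lit 7) (node (nat_lit 7)
  (nat_lit 70730) (nat_lit 8) (node (nat_lit 4) (nat_lit 70347) (nat_lit 9) (node (nat_lit 6)
  (nat_lit 71105) (nat_lit 10) (node (nat_lit 4) (nat_lit 72124) (nat_lit 11) (node (nat_lit 7)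
  (nat_lit 73263) (nat_lit 12) nil nil) (node (nat_lit 7) (nat_lit 73367) (nat_lit 11) nil (node
  (nat_lit 5) (nat_lit 70557) (nat_lit 11) nil nil))) (node (nat_lit 5) (nat_lit 71069) (nat_lit
  10) (node (nat_lit 6) (nat_lit 70573) (nat_lit 11) nil (node (nat_lit 4) (nat_lit 70521)
  (nat_lit 11) nil nil)) (node (nat_lit 0) (nat_lit 72295) (nat_lit 10) nil nil))) nil) nil) nil)
  (node (nat_lit 6) (nat_lit 0) (nat_lit 6) (node (nat_lit 4) (nat_lit 62609) (nat_lit 7) (node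
  (nat_lit 7) (nat_lit 69733) (nat_lit 8) (node (nat_lit 6) (nat_lit 69733) (nat_lit 9) (node
  (nat_lit 7) (nat_lit 71680) (nat_lit 10) (node (nat_lit 4) (nat_lit 71680) (nat_lit 11) nil nil)
  nil) nil) (node (nat_lit 5) (nat_lit 65310) (nat_lit 8) nil nil)) (node (nat_lit 5) (nat_lit
  63865) (nat_lit 7) (node (nat_lit 6) (nat_lit 62511) (nat_lit 8) (node (nat_lit 4) (nat_lit
  59446) (nat_lit 9) (node (nat_lit 5) (nat_lit 59721) (nat_lit 10) nil nil) nil) (node (nat_lit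
  4) (nat_lit 65446) (nat_lit 8) nil nil)) (node (nat_lit 7) (nat_lit 64275) (nat_lit 7) nil (node
  (nat_lit 0) (nat_lit 66626) (nat_lit 7) nil nil)))) (node (nat_lit 0) (nat_lit 65845) (nat_lit
  6) (node (nat_lit 6) (nat_lit 65845) (nat_lit 7) nil (node (nat_lit 4) (nat_lit 65845) (nat_lit
  7) nil nil)) nil)))) nil)))) (node (nat_lit 4) (nat_lit 0) (nat_lit 4) (node (nat_lit 0)
  (nat_lit 0) (nat_lit 5) (node (nat_lit 6) (nat_lit 0) (nat_lit 6) (node (nat_lit 4) (nat_lit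
  53443) (nat_lit 7) (node (nat_lit 6) (nat_lit 57639) (nat_lit 8) (node (nat_lit 8) (nat_lit
  61486) (nat_lit 9) (node (nat_lit 6) (nat_lit 61486) (nat_lit 10) (node (nat_lit 4) (nat_lit
  61486) (nat_lit 11) (node (nat_lit 8) (nat_lit 62625) (nat_lit 12) nil nil) (node (nat_lit 0)
  (nat_lit 62358) (nat_lit 11) nil (node (nat_lit 5) (nat_lit 61486) (nat_lit 11) nil nil))) (node
  (nat_lit 4) (nat_lit 61486) (nat_lit 10) nil nil)) (node (nat_lit 5) (nat_lit 59520) (nat_lit 9)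
  (node (nat_lit 4) (nat_lit 58450) (nat_lit 10) (node (nat_lit 5) (nat_lit 55271) (nat_lit 11)
  (node (nat_lit 6) (nat_lit 44285) (nat_lit 12) (node (nat_lit 4) (nat_lit 41680) (nat_lit 13)
  nil nil) nil) nil) (node (nat_lit 8) (nat_lit 61548) (nat_lit 10) nil nil)) (node (nat_lit 0)
  (nat_lit 60601) (nat_lit 9) nil nil))) (node (nat_lit 5) (nat_lit 58162) (nat_lit 8) (node
  (nat_lit 4) (nat_lit 59035) (nat_lit 9) nil (node (nat_lit 6) (nat_lit 60018) (nat_lit 9) (node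
  (nat_lit 4) (nat_lit 60971) (nat_lit 10) (node (nat_lit 8) (nat_lit 34672) (nat_lit 11) nil nil)
  nil) (node (nat_lit 8) (nat_lit 61651) (nat_lit 9) nil (node (nat_lit 0) (nat_lit 61123)
  (nat_lit 9) nil nil)))) (node (nat_lit 0) (nat_lit 60957) (nat_lit 8) nil nil))) (node (nat_lit
  5) (nat_lit 52184) (nat_lit 7) (node (nat_lit 4) (nat_lit 51942) (nat_lit 8) nil (node (nat_lit
  8) (nat_lit 57236) (nat_lit 8) nil nil)) (node (nat_lit 8) (nat_lit 58985) (nat_lit 7) nil (node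
  (nat_lit 0) (nat_lit 54704) (nat_lit 7) nil nil)))) (node (nat_lit 5) (nat_lit 0) (nat_lit 6)
  (node (nat_lit 4) (nat_lit 52592) (nat_lit 7) (node (nat_lit 6) (nat_lit 57313) (nat_lit 8)
  (node (nat_lit 5) (nat_lit 54544) (nat_lit 9) nil nil) (node (nat_lit 5) (nat_lit 56761)
  (nat_lit 8) (node (nat_lit 6) (nat_lit 56223) (nat_lit 9) nil (node (nat_lit 8) (nat_lit 59722)
  (nat_lit 9) nil nil)) (node (nat_lit 0) (nat_lit 57644) (nat_lit 8) nil nil))) (node (nat_lit 6)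
  (nat_lit 52331) (nat_lit 7) (node (nat_lit 5) (nat_lit 55031) (nat_lit 8) nil nil) (node
  (nat_lit 8) (nat_lit 53498) (nat_lit 7) nil (node (nat_lit 0) (nat_lit 53498) (nat_lit 7) nil
  nil)))) (node (nat_lit 4) (nat_lit 0) (nat_lit 6) (node (nat_lit 6) (nat_lit 52219) (nat_lit 7)
  (node (nat_lit 8) (nat_lit 60119) (nat_lit 8) (node (nat_lit 6) (nat_lit 60119) (nat_lit 9) nil
  nil) nil) (node (nat_lit 5) (nat_lit 50873) (nat_lit 7) (node (nat_lit 8) (nat_lit 55925)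
  (nat_lit 8) nil nil) (node (nat_lit 0) (nat_lit 53997) (nat_lit 7) nil nil))) (node (nat_lit 0)
  (nat_lit 54790) (nat_lit 6) (node (nat_lit 4) (nat_lit 54790) (nat_lit 7) nil (node (nat_lit 5)
  (nat_lit 54790) (nat_lit 7) nil nil)) nil)))) (node (nat_lit 5) (nat_lit 0) (nat_lit 5) (node
  (nat_lit 4) (nat_lit 0) (nat_lit 6) (node (nat_lit 6) (nat_lit 0) (nat_lit 7) (node (nat_lit 4)
  (nat_lit 28241) (nat_lit 8) (node (nat_lit 5) (nat_lit 28715) (nat_lit 9) nil (node (nat_lit 0)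
  (nat_lit 32221) (nat_lit 9) nil nil)) (node (nat_lit 5) (nat_lit 28474) (nat_lit 8) (node
  (nat_lit 0) (nat_lit 31033) (nat_lit 9) nil nil) (node (nat_lit 0) (nat_lit 32058) (nat_lit 8)
  nil nil))) (node (nat_lit 0) (nat_lit 31163) (nat_lit 7) nil nil)) (node (nat_lit 0) (nat_lit 0)
  (nat_lit 6) (node (nat_lit 4) (nat_lit 29462) (nat_lit 7) nil (node (nat_lit 5) (nat_lit 29462)
  (nat_lit 7) nil (node (nat_lit 6) (nat_lit 29462) (nat_lit 7) nil (node (nat_lit 0) (nat_lit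
  30579) (nat_lit 7) nil nil)))) nil)) (node (nat_lit 6) (nat_lit 0) (nat_lit 5) (node (nat_lit 5)
  (nat_lit 0) (nat_lit 6) (node (nat_lit 4) (nat_lit 0) (nat_lit 7) (node (nat_lit 6) (nat_lit
  32981) (nat_lit 8) (node (nat_lit 4) (nat_lit 34301) (nat_lit 9) (node (nat_lit 5) (nat_lit
  32499) (nat_lit 10) (node (nat_lit 6) (nat_lit 18584) (nat_lit 11) nil nil) nil) nil) (node
  (nat_lit 0) (nat_lit 37848) (nat_lit 8) nil (node (nat_lit 5) (nat_lit 18793) (nat_lit 8) nil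
  nil))) (node (nat_lit 6) (nat_lit 37207) (nat_lit 7) (node (nat_lit 4) (nat_lit 39953) (nat_lit
  8) nil nil) (node (nat_lit 0) (nat_lit 51448) (nat_lit 7) nil nil))) (node (nat_lit 0) (nat_lit
  50384) (nat_lit 6) (node (nat_lit 5) (nat_lit 50384) (nat_lit 7) nil (node (nat_lit 4) (nat_lit
  50384) (nat_lit 7) nil (node (nat_lit 6) (nat_lit 50384) (nat_lit 7) nil nil))) nil)) nil)))
  (node (nat_lit 5) (nat_lit 0) (nat_lit 4) (node (nat_lit 0) (nat_lit 0) (nat_lit 5) (node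
  (nat_lit 6) (nat_lit 0) (nat_lit 6) (node (nat_lit 5) (nat_lit 48300) (nat_lit 7) (node (nat_lit
  6) (nat_lit 54727) (nat_lit 8) (node (nat_lit 8) (nat_lit 60160) (nat_lit 9) (node (nat_lit 6)
  (nat_lit 60160) (nat_lit 10) (node (nat_lit 5) (nat_lit 60160) (nat_lit 11) nil nil) (node
  (nat_lit 5) (nat_lit 60160) (nat_lit 10) nil nil)) (node (nat_lit 4) (nat_lit 57746) (nat_lit 9)
  (node (nat_lit 5) (nat_lit 58699) (nat_lit 10) nil (node (nat_lit 8) (nat_lit 59773) (nat_lit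
  10) nil (node (nat_lit 6) (nat_lit 57256) (nat_lit 10) nil nil))) (node (nat_lit 0) (nat_lit
  59751) (nat_lit 9) nil nil))) (node (nat_lit 4) (nat_lit 54658) (nat_lit 8) (node (nat_lit 6)
  (nat_lit 56465) (nat_lit 9) (node (nat_lit 4) (nat_lit 55833) (nat_lit 10) (node (nat_lit 5)
  (nat_lit 53173) (nat_lit 11) (node (nat_lit 6) (nat_lit 38344) (nat_lit 12) (node (nat_lit 5)
  (nat_lit 31902) (nat_lit 13) (node (nat_lit 8) (nat_lit 33028) (nat_lit 14) nil nil) nil) nil)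
  nil) (node (nat_lit 8) (nat_lit 59823) (nat_lit 10) nil nil)) (node (nat_lit 5) (nat_lit 57907)
  (nat_lit 9) (node (nat_lit 6) (nat_lit 57417) (nat_lit 10) nil nil) (node (nat_lit 8) (nat_lit
  59751) (nat_lit 9) nil (node (nat_lit 0) (nat_lit 58925) (nat_lit 9) nil nil)))) (node (nat_lit
  0) (nat_lit 58359) (nat_lit 8) (node (nat_lit 5) (nat_lit 58359) (nat_lit 9) nil nil) nil)))
  (node (nat_lit 8) (nat_lit 55045) (nat_lit 7) (node (nat_lit 5) (nat_lit 55639) (nat_lit 8)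
  (node (nat_lit 8) (nat_lit 59265) (nat_lit 9) (node (nat_lit 6) (nat_lit 59265) (nat_lit 10) nil
  nil) (node (nat_lit 6) (nat_lit 57206) (nat_lit 9) nil nil)) (node (nat_lit 4) (nat_lit 55045)
  (nat_lit 8) nil (node (nat_lit 0) (nat_lit 55998) (nat_lit 8) nil nil))) (node (nat_lit 4)
  (nat_lit 47572) (nat_lit 7) (node (nat_lit 5) (nat_lit 50148) (nat_lit 8) nil (node (nat_lit 8)
  (nat_lit 55535) (nat_lit 8) nil (node (nat_lit 6) (nat_lit 47589) (nat_lit 8) nil nil))) (node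
  (nat_lit 0) (nat_lit 54169) (nat_lit 7) nil nil)))) (node (nat_lit 4) (nat_lit 41861) (nat_lit
  6) (node (nat_lit 5) (nat_lit 47315) (nat_lit 7) (node (nat_lit 6) (nat_lit 52673) (nat_lit 8)
  (node (nat_lit 4) (nat_lit 54070) (nat_lit 9) nil nil) (node (nat_lit 4) (nat_lit 52777)
  (nat_lit 8) (node (nat_lit 6) (nat_lit 48453) (nat_lit 9) nil (node (nat_lit 8) (nat_lit 55739)
  (nat_lit 9) nil nil)) (node (nat_lit 0) (nat_lit 55278) (nat_lit 8) nil nil))) (node (nat_lit 6)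
  (nat_lit 46200) (nat_lit 7) (node (nat_lit 8) (nat_lit 51252) (nat_lit 8) nil (node (nat_lit 4)
  (nat_lit 48901) (nat_lit 8) nil nil)) (node (nat_lit 8) (nat_lit 52747) (nat_lit 7) nil (node
  (nat_lit 0) (nat_lit 52747) (nat_lit 7) nil nil)))) (node (nat_lit 5) (nat_lit 0) (nat_lit 6)
  (node (nat_lit 6) (nat_lit 48645) (nat_lit 7) (node (nat_lit 8) (nat_lit 58768) (nat_lit 8)
  (node (nat_lit 6) (nat_lit 58768) (nat_lit 9) (node (nat_lit 5) (nat_lit 58768) (nat_lit 10) nil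
  nil) nil) (node (nat_lit 4) (nat_lit 52663) (nat_lit 8) nil (node (nat_lit 0) (nat_lit 56608)
  (nat_lit 8) nil nil))) (node (nat_lit 4) (nat_lit 47292) (nat_lit 7) (node (nat_lit 5) (nat_lit
  49993) (nat_lit 8) nil (node (nat_lit 6) (nat_lit 47309) (nat_lit 8) nil (node (nat_lit 8)
  (nat_lit 52344) (nat_lit 8) nil nil))) (node (nat_lit 0) (nat_lit 54675) (nat_lit 7) nil nil)))
  (node (nat_lit 0) (nat_lit 50077) (nat_lit 6) (node (nat_lit 5) (nat_lit 49509) (nat_lit 7) nil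
  (node (nat_lit 6) (nat_lit 50077) (nat_lit 7) nil (node (nat_lit 4) (nat_lit 50077) (nat_lit 7)
  nil (node (nat_lit 0) (nat_lit 51475) (nat_lit 7) nil (node (nat_lit 8) (nat_lit 51475) (nat_lit
  7) nil nil))))) nil)))) (node (nat_lit 4) (nat_lit 0) (nat_lit 5) (node (nat_lit 6) (nat_lit 0)
  (nat_lit 6) (node (nat_lit 4) (nat_lit 0) (nat_lit 7) (node (nat_lit 5) (nat_lit 0) (nat_lit 8)
  (node (nat_lit 6) (nat_lit 21344) (nat_lit 9) (node (nat_lit 4) (nat_lit 23698) (nat_lit 10)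
  (node (nat_lit 6) (nat_lit 23951) (nat_lit 11) nil nil) (node (nat_lit 0) (nat_lit 25732)
  (nat_lit 10) nil nil)) (node (nat_lit 4) (nat_lit 19055) (nat_lit 9) (node (nat_lit 6) (nat_lit
  16527) (nat_lit 10) nil nil) (node (nat_lit 0) (nat_lit 21698) (nat_lit 9) nil nil))) (node
  (nat_lit 0) (nat_lit 35846) (nat_lit 8) nil nil)) (node (nat_lit 0) (nat_lit 41719) (nat_lit 7)
  (node (nat_lit 4) (nat_lit 41719) (nat_lit 8) nil nil) (node (nat_lit 5) (nat_lit 19348)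
  (nat_lit 7) (node (nat_lit 6) (nat_lit 16221) (nat_lit 8) nil nil) nil))) (node (nat_lit 5)
  (nat_lit 0) (nat_lit 6) (node (nat_lit 6) (nat_lit 0) (nat_lit 7) (node (nat_lit 4) (nat_lit
  26688) (nat_lit 8) (node (nat_lit 6) (nat_lit 28127) (nat_lit 9) nil nil) (node (nat_lit 0)
  (nat_lit 32126) (nat_lit 8) nil nil)) (node (nat_lit 0) (nat_lit 33490) (nat_lit 7) nil nil))
  (node (nat_lit 0) (nat_lit 43054) (nat_lit 6) (node (nat_lit 5) (nat_lit 43054) (nat_lit 7) nil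
  (node (nat_lit 4) (nat_lit 43054) (nat_lit 7) nil nil)) nil))) nil)) nil)))

noncomputable def t364 : Tr :=
  (node (nat_lit 4) (nat_lit 0) (nat_lit 5) (node (nat_lit 5) (nat_lit 19639) (nat_lit 6) (node
  (nat_lit 7) (nat_lit 28637) (nat_lit 7) (node (nat_lit 4) (nat_lit 31005) (nat_lit 8) (node
  (nat_lit 7) (nat_lit 34357) (nat_lit 9) (node (nat_lit 5) (nat_lit 35174) (nat_lit 10) (node
  (nat_lit 4) (nat_lit 35369) (nat_lit 11) (node (nat_lit 5) (nat_lit 35501) (nat_lit 12) (node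
  (nat_lit 7) (nat_lit 35501) (nat_lit 13) nil (node (nat_lit 3) (nat_lit 35117) (nat_lit 13) nil
  nil)) (node (nat_lit 3) (nat_lit 35501) (nat_lit 12) nil (node (nat_lit 7) (nat_lit 35501)
  (nat_lit 12) nil nil))) (node (nat_lit 7) (nat_lit 35501) (nat_lit 11) (node (nat_lit 4)
  (nat_lit 35501) (nat_lit 12) nil nil) (node (nat_lit 3) (nat_lit 35501) (nat_lit 11) nil (node
  (nat_lit 0) (nat_lit 35501) (nat_lit 11) nil nil)))) (node (nat_lit 3) (nat_lit 35326) (nat_lit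
  10) (node (nat_lit 4) (nat_lit 35501) (nat_lit 11) nil (node (nat_lit 5) (nat_lit 35007)
  (nat_lit 11) nil (node (nat_lit 7) (nat_lit 35501) (nat_lit 11) nil (node (nat_lit 0) (nat_lit
  35501) (nat_lit 11) nil nil)))) (node (nat_lit 0) (nat_lit 35501) (nat_lit 10) nil nil))) (node
  (nat_lit 3) (nat_lit 34158) (nat_lit 9) (node (nat_lit 4) (nat_lit 35501) (nat_lit 10) (node
  (nat_lit 5) (nat_lit 35501) (nat_lit 11) (node (nat_lit 12) (nat_lit 35501) (nat_lit 12) nil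
  nil) (node (nat_lit 7) (nat_lit 35501) (nat_lit 11) nil (node (nat_lit 0) (nat_lit 35501)
  (nat_lit 11) nil nil))) (node (nat_lit 5) (nat_lit 35417) (nat_lit 10) (node (nat_lit 12)
  (nat_lit 35501) (nat_lit 11) (node (nat_lit 4) (nat_lit 35501) (nat_lit 12) (node (nat_lit 5)
  (nat_lit 35355) (nat_lit 13) (node (nat_lit 4) (nat_lit 33221) (nat_lit 14) (node (nat_lit 7)
  (nat_lit 30409) (nat_lit 15) nil nil) nil) nil) nil) (node (nat_lit 4) (nat_lit 34189) (nat_lit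
  11) nil nil)) (node (nat_lit 7) (nat_lit 35501) (nat_lit 10) nil (node (nat_lit 0) (nat_lit
  35501) (nat_lit 10) nil nil)))) (node (nat_lit 0) (nat_lit 34955) (nat_lit 9) (node (nat_lit 4)
  (nat_lit 34891) (nat_lit 10) (node (nat_lit 3) (nat_lit 34538) (nat_lit 11) nil (node (nat_lit
  5) (nat_lit 34572) (nat_lit 11) nil nil)) (node (nat_lit 3) (nat_lit 34955) (nat_lit 10) nil
  (node (nat_lit 7) (nat_lit 35501) (nat_lit 10) nil (node (nat_lit 5) (nat_lit 34955) (nat_lit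
  10) nil (node (nat_lit 0) (nat_lit 35198) (nat_lit 10) nil nil))))) nil))) (node (nat_lit 5)
  (nat_lit 30613) (nat_lit 8) (node (nat_lit 4) (nat_lit 32531) (nat_lit 9) (node (nat_lit 7)
  (nat_lit 34834) (nat_lit 10) (node (nat_lit 5) (nat_lit 34834) (nat_lit 11) nil nil) (node
  (nat_lit 3) (nat_lit 33125) (nat_lit 10) nil (node (nat_lit 5) (nat_lit 31473) (nat_lit 10) nil
  nil))) (node (nat_lit 3) (nat_lit 33086) (nat_lit 9) (node (nat_lit 7) (nat_lit 35018) (nat_lit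
  10) nil (node (nat_lit 5) (nat_lit 33583) (nat_lit 10) nil nil)) (node (nat_lit 0) (nat_lit
  32913) (nat_lit 9) nil nil))) (node (nat_lit 3) (nat_lit 32898) (nat_lit 8) (node (nat_lit 5)
  (nat_lit 34272) (nat_lit 9) (node (nat_lit 11) (nat_lit 34769) (nat_lit 10) nil (node (nat_lit
  4) (nat_lit 33213) (nat_lit 10) nil nil)) (node (nat_lit 7) (nat_lit 34789) (nat_lit 9) nil
  (node (nat_lit 4) (nat_lit 32620) (nat_lit 9) nil nil))) (node (nat_lit 0) (nat_lit 33384)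
  (nat_lit 8) (node (nat_lit 4) (nat_lit 33384) (nat_lit 9) nil nil) nil)))) (node (nat_lit 3)
  (nat_lit 29728) (nat_lit 7) (node (nat_lit 4) (nat_lit 32960) (nat_lit 8) (node (nat_lit 10)
  (nat_lit 33952) (nat_lit 9) (node (nat_lit 5) (nat_lit 33480) (nat_lit 10) nil nil) (node
  (nat_lit 5) (nat_lit 34876) (nat_lit 9) (node (nat_lit 4) (nat_lit 34256) (nat_lit 10) (node
  (nat_lit 10) (nat_lit 32640) (nat_lit 11) nil (node (nat_lit 7) (nat_lit 23006) (nat_lit 11) nil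
  nil)) nil) (node (nat_lit 0) (nat_lit 34506) (nat_lit 9) nil (node (nat_lit 7) (nat_lit 34506)
  (nat_lit 9) nil nil)))) (node (nat_lit 5) (nat_lit 32960) (nat_lit 8) (node (nat_lit 4) (nat_lit
  31269) (nat_lit 9) (node (nat_lit 10) (nat_lit 30895) (nat_lit 10) (node (nat_lit 4) (nat_lit
  29879) (nat_lit 11) (node (nat_lit 5) (nat_lit 28663) (nat_lit 12) nil nil) nil) nil) (node
  (nat_lit 7) (nat_lit 35501) (nat_lit 9) nil (node (nat_lit 0) (nat_lit 34506) (nat_lit 9) nil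
  nil))) (node (nat_lit 7) (nat_lit 34176) (nat_lit 8) (node (nat_lit 5) (nat_lit 34176) (nat_lit
  9) nil (node (nat_lit 10) (nat_lit 34176) (nat_lit 9) nil nil)) (node (nat_lit 0) (nat_lit
  34554) (nat_lit 8) (node (nat_lit 10) (nat_lit 34554) (nat_lit 9) nil (node (nat_lit 5) (nat_lit
  34554) (nat_lit 9) nil nil)) nil)))) (node (nat_lit 0) (nat_lit 32432) (nat_lit 7) (node
  (nat_lit 4) (nat_lit 33260) (nat_lit 8) (node (nat_lit 5) (nat_lit 33199) (nat_lit 9) (node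
  (nat_lit 4) (nat_lit 32141) (nat_lit 10) nil nil) (node (nat_lit 10) (nat_lit 35151) (nat_lit 9)
  nil (node (nat_lit 3) (nat_lit 33260) (nat_lit 9) nil (node (nat_lit 7) (nat_lit 34076) (nat_lit
  9) nil nil)))) (node (nat_lit 5) (nat_lit 33355) (nat_lit 8) (node (nat_lit 4) (nat_lit 32516)
  (nat_lit 9) nil (node (nat_lit 7) (nat_lit 34172) (nat_lit 9) nil (node (nat_lit 3) (nat_lit
  33355) (nat_lit 9) nil nil))) (node (nat_lit 3) (nat_lit 33335) (nat_lit 8) (node (nat_lit 5)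
  (nat_lit 33335) (nat_lit 9) nil (node (nat_lit 4) (nat_lit 33335) (nat_lit 9) nil nil)) (node
  (nat_lit 7) (nat_lit 34355) (nat_lit 8) (node (nat_lit 5) (nat_lit 34355) (nat_lit 9) nil nil)
  (node (nat_lit 0) (nat_lit 34200) (nat_lit 8) nil nil))))) (node (nat_lit 4) (nat_lit 25510)
  (nat_lit 7) (node (nat_lit 3) (nat_lit 30408) (nat_lit 8) (node (nat_lit 4) (nat_lit 31442)
  (nat_lit 9) (node (nat_lit 5) (nat_lit 29945) (nat_lit 10) (node (nat_lit 4) (nat_lit 18352)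
  (nat_lit 11) nil nil) nil) nil) (node (nat_lit 0) (nat_lit 30204) (nat_lit 8) nil nil)) nil))))
  (node (nat_lit 3) (nat_lit 24221) (nat_lit 6) (node (nat_lit 5) (nat_lit 29572) (nat_lit 7)
  (node (nat_lit 9) (nat_lit 30780) (nat_lit 8) (node (nat_lit 4) (nat_lit 27573) (nat_lit 9)
  (node (nat_lit 5) (nat_lit 26365) (nat_lit 10) (node (nat_lit 4) (nat_lit 18394) (nat_lit 11)
  (node (nat_lit 9) (nat_lit 18270) (nat_lit 12) nil (node (nat_lit 7) (nat_lit 19843) (nat_lit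
  12) nil nil)) nil) (node (nat_lit 9) (nat_lit 28071) (nat_lit 10) nil nil)) (node (nat_lit 7)
  (nat_lit 34023) (nat_lit 9) nil (node (nat_lit 0) (nat_lit 32326) (nat_lit 9) nil nil))) (node
  (nat_lit 4) (nat_lit 32595) (nat_lit 8) (node (nat_lit 5) (nat_lit 34426) (nat_lit 9) (node
  (nat_lit 9) (nat_lit 35136) (nat_lit 10) (node (nat_lit 4) (nat_lit 32838) (nat_lit 11) (node
  (nat_lit 5) (nat_lit 30913) (nat_lit 12) nil nil) nil) nil) (node (nat_lit 9) (nat_lit 31428)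
  (nat_lit 9) (node (nat_lit 4) (nat_lit 26755) (nat_lit 10) (node (nat_lit 5) (nat_lit 20596)
  (nat_lit 11) (node (nat_lit 4) (nat_lit 20839) (nat_lit 12) (node (nat_lit 7) (nat_lit 21403)
  (nat_lit 13) (node (nat_lit 4) (nat_lit 21403) (nat_lit 14) nil nil) nil) nil) nil) nil) (node
  (nat_lit 7) (nat_lit 35216) (nat_lit 9) nil (node (nat_lit 0) (nat_lit 34142) (nat_lit 9) nil
  nil)))) (node (nat_lit 7) (nat_lit 34159) (nat_lit 8) (node (nat_lit 9) (nat_lit 33999) (nat_lit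
  9) nil (node (nat_lit 5) (nat_lit 34159) (nat_lit 9) nil (node (nat_lit 0) (nat_lit 34478)
  (nat_lit 9) nil nil))) (node (nat_lit 0) (nat_lit 34633) (nat_lit 8) (node (nat_lit 5) (nat_lit
  34633) (nat_lit 9) nil (node (nat_lit 9) (nat_lit 34633) (nat_lit 9) nil nil)) nil)))) (node
  (nat_lit 7) (nat_lit 33072) (nat_lit 7) (node (nat_lit 9) (nat_lit 33810) (nat_lit 8) (node
  (nat_lit 4) (nat_lit 34853) (nat_lit 9) (node (nat_lit 7) (nat_lit 35501) (nat_lit 10) (node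
  (nat_lit 9) (nat_lit 35501) (nat_lit 11) nil nil) (node (nat_lit 9) (nat_lit 34881) (nat_lit 10)
  nil (node (nat_lit 5) (nat_lit 35350) (nat_lit 10) nil nil))) (node (nat_lit 5) (nat_lit 34272)
  (nat_lit 9) nil (node (nat_lit 0) (nat_lit 35501) (nat_lit 9) nil nil))) (node (nat_lit 4)
  (nat_lit 33810) (nat_lit 8) (node (nat_lit 7) (nat_lit 35501) (nat_lit 9) (node (nat_lit 9)
  (nat_lit 35501) (nat_lit 10) (node (nat_lit 4) (nat_lit 35501) (nat_lit 11) nil nil) nil) (node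
  (nat_lit 5) (nat_lit 34775) (nat_lit 9) nil (node (nat_lit 0) (nat_lit 35501) (nat_lit 9) nil
  nil))) (node (nat_lit 5) (nat_lit 33810) (nat_lit 8) (node (nat_lit 9) (nat_lit 34849) (nat_lit
  9) (node (nat_lit 4) (nat_lit 35346) (nat_lit 10) nil nil) (node (nat_lit 4) (nat_lit 33513)
  (nat_lit 9) nil (node (nat_lit 7) (nat_lit 35501) (nat_lit 9) nil nil))) (node (nat_lit 0)
  (nat_lit 34334) (nat_lit 8) nil nil)))) (node (nat_lit 4) (nat_lit 29950) (nat_lit 7) (node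
  (nat_lit 7) (nat_lit 34923) (nat_lit 8) (node (nat_lit 9) (nat_lit 35384) (nat_lit 9) (node
  (nat_lit 7) (nat_lit 35501) (nat_lit 10) (node (nat_lit 4) (nat_lit 35501) (nat_lit 11) (node
  (nat_lit 9) (nat_lit 35501) (nat_lit 12) nil nil) nil) (node (nat_lit 4) (nat_lit 35501)
  (nat_lit 10) (node (nat_lit 9) (nat_lit 35501) (nat_lit 11) nil nil) nil)) (node (nat_lit 5)
  (nat_lit 34923) (nat_lit 9) nil (node (nat_lit 0) (nat_lit 35241) (nat_lit 9) nil nil))) (node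
  (nat_lit 5) (nat_lit 33029) (nat_lit 8) (node (nat_lit 9) (nat_lit 34370) (nat_lit 9) (node
  (nat_lit 5) (nat_lit 34867) (nat_lit 10) nil nil) (node (nat_lit 4) (nat_lit 32498) (nat_lit 9)
  (node (nat_lit 9) (nat_lit 32123) (nat_lit 10) nil (node (nat_lit 7) (nat_lit 20839) (nat_lit
  10) nil nil)) (node (nat_lit 7) (nat_lit 35473) (nat_lit 9) nil nil))) (node (nat_lit 0)
  (nat_lit 34675) (nat_lit 8) nil nil))) (node (nat_lit 0) (nat_lit 32857) (nat_lit 7) (node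
  (nat_lit 9) (nat_lit 33595) (nat_lit 8) (node (nat_lit 4) (nat_lit 33627) (nat_lit 9) nil (node
  (nat_lit 5) (nat_lit 33595) (nat_lit 9) nil nil)) (node (nat_lit 4) (nat_lit 33024) (nat_lit 8)
  (node (nat_lit 9) (nat_lit 32477) (nat_lit 9) nil (node (nat_lit 10) (nat_lit 34915) (nat_lit 9)
  nil (node (nat_lit 7) (nat_lit 33840) (nat_lit 9) nil nil))) (node (nat_lit 5) (nat_lit 32666)
  (nat_lit 8) (node (nat_lit 4) (nat_lit 32666) (nat_lit 9) nil (node (nat_lit 9) (nat_lit 32666)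
  (nat_lit 9) nil nil)) (node (nat_lit 7) (nat_lit 34451) (nat_lit 8) nil (node (nat_lit 0)
  (nat_lit 34451) (nat_lit 8) nil nil))))) nil)))) (node (nat_lit 0) (nat_lit 29659) (nat_lit 6)
  (node (nat_lit 7) (nat_lit 33129) (nat_lit 7) (node (nat_lit 4) (nat_lit 33867) (nat_lit 8)
  (node (nat_lit 7) (nat_lit 35501) (nat_lit 9) (node (nat_lit 9) (nat_lit 35501) (nat_lit 10)
  (node (nat_lit 4) (nat_lit 35501) (nat_lit 11) nil (node (nat_lit 7) (nat_lit 35501) (nat_lit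
  11) nil nil)) (node (nat_lit 0) (nat_lit 35501) (nat_lit 10) nil (node (nat_lit 5) (nat_lit
  35501) (nat_lit 10) nil (node (nat_lit 3) (nat_lit 35501) (nat_lit 10) nil nil)))) (node
  (nat_lit 5) (nat_lit 34886) (nat_lit 9) (node (nat_lit 4) (nat_lit 34041) (nat_lit 10) nil (node
  (nat_lit 3) (nat_lit 35384) (nat_lit 10) nil (node (nat_lit 9) (nat_lit 35501) (nat_lit 10) nil
  nil))) (node (nat_lit 3) (nat_lit 34889) (nat_lit 9) (node (nat_lit 4) (nat_lit 35387) (nat_lit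
  10) nil (node (nat_lit 5) (nat_lit 33490) (nat_lit 10) nil (node (nat_lit 9) (nat_lit 35501)
  (nat_lit 10) nil nil))) (node (nat_lit 0) (nat_lit 35501) (nat_lit 9) nil nil)))) (node (nat_lit
  9) (nat_lit 34707) (nat_lit 8) (node (nat_lit 4) (nat_lit 34374) (nat_lit 9) (node (nat_lit 9)
  (nat_lit 34935) (nat_lit 10) nil (node (nat_lit 7) (nat_lit 34935) (nat_lit 10) nil nil)) nil)
  (node (nat_lit 5) (nat_lit 32845) (nat_lit 8) nil (node (nat_lit 3) (nat_lit 33779) (nat_lit 8)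
  nil (node (nat_lit 0) (nat_lit 34732) (nat_lit 8) nil nil))))) (node (nat_lit 4) (nat_lit 31281)
  (nat_lit 7) (node (nat_lit 7) (nat_lit 34727) (nat_lit 8) (node (nat_lit 9) (nat_lit 35501)
  (nat_lit 9) (node (nat_lit 4) (nat_lit 35501) (nat_lit 10) nil nil) (node (nat_lit 5) (nat_lit
  34727) (nat_lit 9) nil (node (nat_lit 4) (nat_lit 34727) (nat_lit 9) nil nil))) (node (nat_lit
  5) (nat_lit 33105) (nat_lit 8) (node (nat_lit 4) (nat_lit 32359) (nat_lit 9) nil (node (nat_lit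
  3) (nat_lit 33835) (nat_lit 9) nil nil)) (node (nat_lit 3) (nat_lit 32872) (nat_lit 8) (node
  (nat_lit 4) (nat_lit 34212) (nat_lit 9) nil (node (nat_lit 9) (nat_lit 34418) (nat_lit 9) nil
  nil)) (node (nat_lit 0) (nat_lit 34323) (nat_lit 8) nil nil)))) (node (nat_lit 5) (nat_lit
  31316) (nat_lit 7) (node (nat_lit 4) (nat_lit 32680) (nat_lit 8) (node (nat_lit 5) (nat_lit
  34443) (nat_lit 9) nil (node (nat_lit 9) (nat_lit 34227) (nat_lit 9) nil nil)) (node (nat_lit 7)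
  (nat_lit 34603) (nat_lit 8) nil (node (nat_lit 3) (nat_lit 32920) (nat_lit 8) (node (nat_lit 5)
  (nat_lit 33153) (nat_lit 9) nil nil) (node (nat_lit 9) (nat_lit 34108) (nat_lit 8) nil (node
  (nat_lit 0) (nat_lit 34108) (nat_lit 8) nil nil))))) (node (nat_lit 3) (nat_lit 31481) (nat_lit
  7) (node (nat_lit 4) (nat_lit 32875) (nat_lit 8) (node (nat_lit 10) (nat_lit 33893) (nat_lit 9)
  nil nil) (node (nat_lit 5) (nat_lit 33104) (nat_lit 8) (node (nat_lit 10) (nat_lit 33834)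
  (nat_lit 9) nil nil) (node (nat_lit 7) (nat_lit 34515) (nat_lit 8) nil (node (nat_lit 9)
  (nat_lit 34515) (nat_lit 8) nil (node (nat_lit 0) (nat_lit 34272) (nat_lit 8) nil nil))))) (node
  (nat_lit 0) (nat_lit 32850) (nat_lit 7) (node (nat_lit 4) (nat_lit 32977) (nat_lit 8) (node
  (nat_lit 9) (nat_lit 33793) (nat_lit 9) nil nil) (node (nat_lit 9) (nat_lit 34453) (nat_lit 8)
  nil (node (nat_lit 3) (nat_lit 32850) (nat_lit 8) nil (node (nat_lit 5) (nat_lit 32850) (nat_lit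
  8) nil (node (nat_lit 7) (nat_lit 33958) (nat_lit 8) nil (node (nat_lit 0) (nat_lit 33348)
  (nat_lit 8) nil nil)))))) nil))))) nil))) (node (nat_lit 5) (nat_lit 0) (nat_lit 5) (node
  (nat_lit 7) (nat_lit 25036) (nat_lit 6) (node (nat_lit 4) (nat_lit 26941) (nat_lit 7) (node
  (nat_lit 7) (nat_lit 32239) (nat_lit 8) (node (nat_lit 5) (nat_lit 33792) (nat_lit 9) (node
  (nat_lit 4) (nat_lit 35060) (nat_lit 10) (node (nat_lit 5) (nat_lit 35132) (nat_lit 11) (node
  (nat_lit 7) (nat_lit 35501) (nat_lit 12) (node (nat_lit 4) (nat_lit 35501) (nat_lit 13) nil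
  (node (nat_lit 5) (nat_lit 35501) (nat_lit 13) nil nil)) (node (nat_lit 3) (nat_lit 35501)
  (nat_lit 12) (node (nat_lit 4) (nat_lit 35501) (nat_lit 13) (node (nat_lit 5) (nat_lit 35336)
  (nat_lit 14) nil nil) nil) (node (nat_lit 0) (nat_lit 35501) (nat_lit 12) nil nil))) (node
  (nat_lit 7) (nat_lit 35501) (nat_lit 11) (node (nat_lit 4) (nat_lit 35501) (nat_lit 12) (node
  (nat_lit 5) (nat_lit 35501) (nat_lit 13) nil nil) (node (nat_lit 3) (nat_lit 35501) (nat_lit 12)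
  nil nil)) (node (nat_lit 3) (nat_lit 35501) (nat_lit 11) (node (nat_lit 5) (nat_lit 34947)
  (nat_lit 12) nil (node (nat_lit 4) (nat_lit 35501) (nat_lit 12) nil nil)) (node (nat_lit 0)
  (nat_lit 35501) (nat_lit 11) nil nil)))) (node (nat_lit 3) (nat_lit 35382) (nat_lit 10) (node
  (nat_lit 4) (nat_lit 35501) (nat_lit 11) nil (node (nat_lit 5) (nat_lit 35382) (nat_lit 11) nil
  (node (nat_lit 7) (nat_lit 35501) (nat_lit 11) nil (node (nat_lit 0) (nat_lit 35501) (nat_lit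
  11) nil nil)))) (node (nat_lit 0) (nat_lit 35501) (nat_lit 10) nil nil))) nil) (node (nat_lit 5)
  (nat_lit 30596) (nat_lit 8) (node (nat_lit 4) (nat_lit 32770) (nat_lit 9) (node (nat_lit 7)
  (nat_lit 34702) (nat_lit 10) nil nil) nil) nil)) (node (nat_lit 0) (nat_lit 26719) (nat_lit 7)
  nil (node (nat_lit 3) (nat_lit 25036) (nat_lit 7) nil nil))) (node (nat_lit 3) (nat_lit 23682)
  (nat_lit 6) (node (nat_lit 4) (nat_lit 29410) (nat_lit 7) (node (nat_lit 5) (nat_lit 32541)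
  (nat_lit 8) (node (nat_lit 9) (nat_lit 33270) (nat_lit 9) nil (node (nat_lit 4) (nat_lit 31183)
  (nat_lit 9) nil nil)) (node (nat_lit 9) (nat_lit 30182) (nat_lit 8) (node (nat_lit 5) (nat_lit
  28824) (nat_lit 9) nil nil) nil)) (node (nat_lit 5) (nat_lit 29410) (nat_lit 7) (node (nat_lit
  4) (nat_lit 30607) (nat_lit 8) nil nil) (node (nat_lit 7) (nat_lit 30772) (nat_lit 7) nil (node
  (nat_lit 0) (nat_lit 31677) (nat_lit 7) nil nil)))) (node (nat_lit 4) (nat_lit 19629) (nat_lit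
  6) (node (nat_lit 5) (nat_lit 25507) (nat_lit 7) (node (nat_lit 7) (nat_lit 32395) (nat_lit 8)
  (node (nat_lit 4) (nat_lit 32554) (nat_lit 9) (node (nat_lit 7) (nat_lit 33988) (nat_lit 10)
  (node (nat_lit 5) (nat_lit 33988) (nat_lit 11) nil nil) nil) nil) (node (nat_lit 3) (nat_lit
  26654) (nat_lit 8) (node (nat_lit 4) (nat_lit 27084) (nat_lit 9) (node (nat_lit 5) (nat_lit
  21736) (nat_lit 10) (node (nat_lit 4) (nat_lit 20564) (nat_lit 11) nil nil) nil) nil) (node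
  (nat_lit 0) (nat_lit 28173) (nat_lit 8) nil nil))) (node (nat_lit 3) (nat_lit 28827) (nat_lit 7)
  (node (nat_lit 5) (nat_lit 27439) (nat_lit 8) nil (node (nat_lit 4) (nat_lit 30266) (nat_lit 8)
  nil nil)) (node (nat_lit 0) (nat_lit 27767) (nat_lit 7) nil nil))) (node (nat_lit 0) (nat_lit
  28679) (nat_lit 6) (node (nat_lit 4) (nat_lit 28822) (nat_lit 7) nil (node (nat_lit 5) (nat_lit
  28426) (nat_lit 7) nil (node (nat_lit 0) (nat_lit 31267) (nat_lit 7) nil (node (nat_lit 3)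
  (nat_lit 28974) (nat_lit 7) nil (node (nat_lit 7) (nat_lit 31849) (nat_lit 7) nil nil)))))
  nil)))) (node (nat_lit 0) (nat_lit 0) (nat_lit 5) (node (nat_lit 4) (nat_lit 26676) (nat_lit 6)
  (node (nat_lit 7) (nat_lit 32801) (nat_lit 7) (node (nat_lit 4) (nat_lit 33539) (nat_lit 8)
  (node (nat_lit 8) (nat_lit 35501) (nat_lit 9) (node (nat_lit 4) (nat_lit 35501) (nat_lit 10) nil
  nil) (node (nat_lit 5) (nat_lit 33478) (nat_lit 9) nil (node (nat_lit 3) (nat_lit 33340)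
  (nat_lit 9) nil (node (nat_lit 0) (nat_lit 35430) (nat_lit 9) nil nil)))) (node (nat_lit 5)
  (nat_lit 33296) (nat_lit 8) (node (nat_lit 8) (nat_lit 35187) (nat_lit 9) nil (node (nat_lit 4)
  (nat_lit 33296) (nat_lit 9) nil nil)) (node (nat_lit 3) (nat_lit 33451) (nat_lit 8) (node
  (nat_lit 4) (nat_lit 33451) (nat_lit 9) nil nil) (node (nat_lit 0) (nat_lit 34404) (nat_lit 8)
  (node (nat_lit 4) (nat_lit 34404) (nat_lit 9) nil nil) nil)))) (node (nat_lit 5) (nat_lit 29679)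
  (nat_lit 7) nil (node (nat_lit 3) (nat_lit 28276) (nat_lit 7) nil (node (nat_lit 8) (nat_lit
  32528) (nat_lit 7) (node (nat_lit 7) (nat_lit 33637) (nat_lit 8) nil nil) (node (nat_lit 0)
  (nat_lit 31195) (nat_lit 7) nil nil))))) (node (nat_lit 7) (nat_lit 29547) (nat_lit 6) (node
  (nat_lit 4) (nat_lit 30666) (nat_lit 7) (node (nat_lit 7) (nat_lit 34165) (nat_lit 8) (node
  (nat_lit 8) (nat_lit 35318) (nat_lit 9) (node (nat_lit 4) (nat_lit 35318) (nat_lit 10) nil nil)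
  nil) (node (nat_lit 8) (nat_lit 33458) (nat_lit 8) nil nil)) (node (nat_lit 5) (nat_lit 29547)
  (nat_lit 7) nil nil)) (node (nat_lit 5) (nat_lit 26672) (nat_lit 6) (node (nat_lit 7) (nat_lit
  31192) (nat_lit 7) nil (node (nat_lit 4) (nat_lit 26039) (nat_lit 7) nil (node (nat_lit 3)
  (nat_lit 26672) (nat_lit 7) nil nil))) (node (nat_lit 3) (nat_lit 26676) (nat_lit 6) (node
  (nat_lit 5) (nat_lit 26676) (nat_lit 7) nil (node (nat_lit 4) (nat_lit 28074) (nat_lit 7) nil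
  nil)) (node (nat_lit 0) (nat_lit 29119) (nat_lit 6) nil nil))))) (node (nat_lit 3) (nat_lit 0)
  (nat_lit 5) (node (nat_lit 5) (nat_lit 24278) (nat_lit 6) (node (nat_lit 4) (nat_lit 28981)
  (nat_lit 7) (node (nat_lit 8) (nat_lit 28344) (nat_lit 8) (node (nat_lit 4) (nat_lit 19772)
  (nat_lit 9) (node (nat_lit 5) (nat_lit 19258) (nat_lit 10) nil nil) nil) (node (nat_lit 5)
  (nat_lit 29011) (nat_lit 8) nil nil)) (node (nat_lit 8) (nat_lit 29579) (nat_lit 7) (node
  (nat_lit 4) (nat_lit 31018) (nat_lit 8) nil nil) (node (nat_lit 7) (nat_lit 31368) (nat_lit 7)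
  nil (node (nat_lit 0) (nat_lit 29017) (nat_lit 7) nil nil)))) (node (nat_lit 7) (nat_lit 29663)
  (nat_lit 6) (node (nat_lit 4) (nat_lit 31305) (nat_lit 7) (node (nat_lit 7) (nat_lit 34834)
  (nat_lit 8) (node (nat_lit 8) (nat_lit 35404) (nat_lit 9) (node (nat_lit 4) (nat_lit 35182)
  (nat_lit 10) (node (nat_lit 8) (nat_lit 35464) (nat_lit 11) nil (node (nat_lit 7) (nat_lit
  35501) (nat_lit 11) nil nil)) (node (nat_lit 5) (nat_lit 34920) (nat_lit 10) (node (nat_lit 8)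
  (nat_lit 35239) (nat_lit 11) nil (node (nat_lit 4) (nat_lit 34046) (nat_lit 11) nil nil)) (node
  (nat_lit 0) (nat_lit 35501) (nat_lit 10) nil nil))) nil) nil) nil) (node (nat_lit 4) (nat_lit 0)
  (nat_lit 6) (node (nat_lit 8) (nat_lit 29803) (nat_lit 7) (node (nat_lit 7) (nat_lit 34528)
  (nat_lit 8) (node (nat_lit 4) (nat_lit 34528) (nat_lit 9) (node (nat_lit 7) (nat_lit 35089)
  (nat_lit 10) nil nil) nil) nil) (node (nat_lit 5) (nat_lit 29803) (nat_lit 7) (node (nat_lit 4)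
  (nat_lit 29612) (nat_lit 8) (node (nat_lit 8) (nat_lit 29036) (nat_lit 9) nil nil) (node
  (nat_lit 8) (nat_lit 31242) (nat_lit 8) nil nil)) (node (nat_lit 7) (nat_lit 28969) (nat_lit 7)
  nil (node (nat_lit 0) (nat_lit 31319) (nat_lit 7) nil nil)))) (node (nat_lit 0) (nat_lit 29146)
  (nat_lit 6) (node (nat_lit 4) (nat_lit 29146) (nat_lit 7) nil nil) nil)))) nil))))

noncomputable def t365 : Tr :=
  (node (nat_lit 3) (nat_lit 0) (nat_lit 2) (node (nat_lit 0) (nat_lit 0) (nat_lit 3) (node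
  (nat_lit 3) (nat_lit 0) (nat_lit 4) (node (nat_lit 6) (nat_lit 0) (nat_lit 5) (node (nat_lit 5)
  (nat_lit 74081) (nat_lit 6) (node (nat_lit 7) (nat_lit 75539) (nat_lit 7) (node (nat_lit 5)
  (nat_lit 79044) (nat_lit 8) (node (nat_lit 4) (nat_lit 80439) (nat_lit 9) (node (nat_lit 7)
  (nat_lit 80877) (nat_lit 10) (node (nat_lit 5) (nat_lit 81157) (nat_lit 11) (node (nat_lit 7)
  (nat_lit 81370) (nat_lit 12) (node (nat_lit 4) (nat_lit 81479) (nat_lit 13) nil nil) nil) (node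
  (nat_lit 4) (nat_lit 80652) (nat_lit 11) (node (nat_lit 5) (nat_lit 79471) (nat_lit 12) (node
  (nat_lit 6) (nat_lit 76795) (nat_lit 13) (node (nat_lit 7) (nat_lit 72208) (nat_lit 14) nil nil)
  nil) nil) nil)) (node (nat_lit 5) (nat_lit 80877) (nat_lit 10) (node (nat_lit 7) (nat_lit 80050)
  (nat_lit 11) (node (nat_lit 4) (nat_lit 80263) (nat_lit 12) nil nil) nil) (node (nat_lit 0)
  (nat_lit 81370) (nat_lit 10) nil (node (nat_lit 6) (nat_lit 81370) (nat_lit 10) nil nil))))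
  (node (nat_lit 6) (nat_lit 81157) (nat_lit 9) (node (nat_lit 7) (nat_lit 81157) (nat_lit 10)
  (node (nat_lit 6) (nat_lit 81479) (nat_lit 11) nil nil) (node (nat_lit 5) (nat_lit 81157)
  (nat_lit 10) nil nil)) (node (nat_lit 0) (nat_lit 81157) (nat_lit 9) nil nil))) (node (nat_lit
  4) (nat_lit 78014) (nat_lit 8) (node (nat_lit 5) (nat_lit 80439) (nat_lit 9) (node (nat_lit 7)
  (nat_lit 80877) (nat_lit 10) (node (nat_lit 5) (nat_lit 81157) (nat_lit 11) (node (nat_lit 4)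
  (nat_lit 81370) (nat_lit 12) nil nil) nil) (node (nat_lit 4) (nat_lit 80877) (nat_lit 10) (node
  (nat_lit 7) (nat_lit 78684) (nat_lit 11) nil nil) nil)) (node (nat_lit 7) (nat_lit 80103)
  (nat_lit 9) (node (nat_lit 5) (nat_lit 79909) (nat_lit 10) (node (nat_lit 4) (nat_lit 78672)
  (nat_lit 11) nil nil) nil) (node (nat_lit 6) (nat_lit 81068) (nat_lit 9) nil (node (nat_lit 0)
  (nat_lit 81068) (nat_lit 9) nil nil)))) (node (nat_lit 0) (nat_lit 80877) (nat_lit 8) (node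
  (nat_lit 7) (nat_lit 80877) (nat_lit 9) nil (node (nat_lit 4) (nat_lit 80877) (nat_lit 9) nil
  nil)) (node (nat_lit 6) (nat_lit 80271) (nat_lit 8) nil nil)))) (node (nat_lit 6) (nat_lit
  80439) (nat_lit 7) (node (nat_lit 7) (nat_lit 80439) (nat_lit 8) (node (nat_lit 5) (nat_lit
  80439) (nat_lit 9) nil (node (nat_lit 4) (nat_lit 80439) (nat_lit 9) nil nil)) (node (nat_lit 4)
  (nat_lit 80364) (nat_lit 8) (node (nat_lit 5) (nat_lit 80364) (nat_lit 9) nil (node (nat_lit 7)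
  (nat_lit 80364) (nat_lit 9) nil nil)) (node (nat_lit 0) (nat_lit 80877) (nat_lit 8) nil nil)))
  (node (nat_lit 4) (nat_lit 75324) (nat_lit 7) (node (nat_lit 7) (nat_lit 78806) (nat_lit 8)
  (node (nat_lit 5) (nat_lit 79906) (nat_lit 9) (node (nat_lit 4) (nat_lit 75364) (nat_lit 10)
  (node (nat_lit 5) (nat_lit 72011) (nat_lit 11) nil nil) (node (nat_lit 7) (nat_lit 77856)
  (nat_lit 10) nil nil)) nil) (node (nat_lit 5) (nat_lit 79183) (nat_lit 8) (node (nat_lit 7)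
  (nat_lit 78743) (nat_lit 9) nil nil) (node (nat_lit 6) (nat_lit 80056) (nat_lit 8) nil (node
  (nat_lit 0) (nat_lit 80056) (nat_lit 8) nil nil)))) (node (nat_lit 0) (nat_lit 80439) (nat_lit
  7) (node (nat_lit 7) (nat_lit 80439) (nat_lit 8) nil nil) nil)))) (node (nat_lit 4) (nat_lit
  73717) (nat_lit 6) (node (nat_lit 7) (nat_lit 75365) (nat_lit 7) (node (nat_lit 4) (nat_lit
  78158) (nat_lit 8) (node (nat_lit 6) (nat_lit 81157) (nat_lit 9) (node (nat_lit 4) (nat_lit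
  81157) (nat_lit 10) (node (nat_lit 7) (nat_lit 81157) (nat_lit 11) nil nil) nil) (node (nat_lit
  5) (nat_lit 80277) (nat_lit 9) (node (nat_lit 7) (nat_lit 80877) (nat_lit 10) nil nil) (node
  (nat_lit 0) (nat_lit 81157) (nat_lit 9) nil nil))) (node (nat_lit 5) (nat_lit 78247) (nat_lit 8)
  (node (nat_lit 7) (nat_lit 79344) (nat_lit 9) (node (nat_lit 4) (nat_lit 79102) (nat_lit 10)
  (node (nat_lit 5) (nat_lit 76687) (nat_lit 11) nil nil) nil) (node (nat_lit 4) (nat_lit 79898)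
  (nat_lit 9) (node (nat_lit 7) (nat_lit 77848) (nat_lit 10) nil nil) (node (nat_lit 0) (nat_lit
  81157) (nat_lit 9) nil (node (nat_lit 6) (nat_lit 81157) (nat_lit 9) nil nil)))) (node (nat_lit
  0) (nat_lit 80877) (nat_lit 8) nil nil))) (node (nat_lit 5) (nat_lit 75289) (nat_lit 7) (node
  (nat_lit 7) (nat_lit 78484) (nat_lit 8) (node (nat_lit 4) (nat_lit 79925) (nat_lit 9) nil nil)
  (node (nat_lit 4) (nat_lit 75874) (nat_lit 8) nil nil)) (node (nat_lit 6) (nat_lit 80105)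
  (nat_lit 7) nil (node (nat_lit 0) (nat_lit 80105) (nat_lit 7) nil nil)))) (node (nat_lit 0)
  (nat_lit 78001) (nat_lit 6) (node (nat_lit 7) (nat_lit 78489) (nat_lit 7) nil (node (nat_lit 5)
  (nat_lit 78001) (nat_lit 7) nil (node (nat_lit 4) (nat_lit 78001) (nat_lit 7) nil (node (nat_lit
  0) (nat_lit 79442) (nat_lit 7) nil (node (nat_lit 6) (nat_lit 79442) (nat_lit 7) nil nil)))))
  nil))) (node (nat_lit 5) (nat_lit 0) (nat_lit 5) (node (nat_lit 7) (nat_lit 70258) (nat_lit 6)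
  (node (nat_lit 4) (nat_lit 75247) (nat_lit 7) (node (nat_lit 5) (nat_lit 78587) (nat_lit 8)
  (node (nat_lit 4) (nat_lit 80439) (nat_lit 9) (node (nat_lit 7) (nat_lit 80763) (nat_lit 10)
  (node (nat_lit 5) (nat_lit 77871) (nat_lit 11) nil (node (nat_lit 4) (nat_lit 80337) (nat_lit
  11) nil nil)) nil) (node (nat_lit 6) (nat_lit 65013) (nat_lit 9) (node (nat_lit 7) (nat_lit
  60499) (nat_lit 10) nil nil) (node (nat_lit 7) (nat_lit 78092) (nat_lit 9) nil nil))) (node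
  (nat_lit 7) (nat_lit 77735) (nat_lit 8) (node (nat_lit 5) (nat_lit 77213) (nat_lit 9) nil nil)
  (node (nat_lit 0) (nat_lit 79979) (nat_lit 8) nil (node (nat_lit 6) (nat_lit 79979) (nat_lit 8)
  nil nil)))) (node (nat_lit 6) (nat_lit 80365) (nat_lit 7) (node (nat_lit 5) (nat_lit 80365)
  (nat_lit 8) (node (nat_lit 7) (nat_lit 80365) (nat_lit 9) nil nil) (node (nat_lit 7) (nat_lit
  80365) (nat_lit 8) nil nil)) (node (nat_lit 0) (nat_lit 80027) (nat_lit 7) nil nil))) (node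
  (nat_lit 6) (nat_lit 0) (nat_lit 6) (node (nat_lit 5) (nat_lit 77597) (nat_lit 7) (node (nat_lit
  7) (nat_lit 78459) (nat_lit 8) (node (nat_lit 5) (nat_lit 80003) (nat_lit 9) (node (nat_lit 4)
  (nat_lit 80877) (nat_lit 10) (node (nat_lit 7) (nat_lit 81157) (nat_lit 11) nil nil) (node
  (nat_lit 0) (nat_lit 81370) (nat_lit 10) nil (node (nat_lit 6) (nat_lit 81370) (nat_lit 10) nil
  nil))) (node (nat_lit 6) (nat_lit 81157) (nat_lit 9) nil (node (nat_lit 4) (nat_lit 80439)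
  (nat_lit 9) nil (node (nat_lit 0) (nat_lit 81157) (nat_lit 9) nil nil)))) (node (nat_lit 4)
  (nat_lit 77597) (nat_lit 8) nil (node (nat_lit 0) (nat_lit 80021) (nat_lit 8) nil nil))) (node
  (nat_lit 4) (nat_lit 77030) (nat_lit 7) (node (nat_lit 7) (nat_lit 78234) (nat_lit 8) (node
  (nat_lit 5) (nat_lit 76875) (nat_lit 9) nil (node (nat_lit 4) (nat_lit 80285) (nat_lit 9) nil
  (node (nat_lit 6) (nat_lit 81157) (nat_lit 9) nil nil))) nil) (node (nat_lit 0) (nat_lit 79326)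
  (nat_lit 7) nil nil))) (node (nat_lit 4) (nat_lit 65391) (nat_lit 6) (node (nat_lit 7) (nat_lit
  68133) (nat_lit 7) (node (nat_lit 4) (nat_lit 65334) (nat_lit 8) (node (nat_lit 5) (nat_lit
  52905) (nat_lit 9) (node (nat_lit 7) (nat_lit 52445) (nat_lit 10) nil (node (nat_lit 6) (nat_lit
  55221) (nat_lit 10) nil nil)) nil) (node (nat_lit 5) (nat_lit 69343) (nat_lit 8) (node (nat_lit
  7) (nat_lit 67408) (nat_lit 9) (node (nat_lit 4) (nat_lit 66927) (nat_lit 10) nil nil) nil)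
  nil)) (node (nat_lit 5) (nat_lit 70911) (nat_lit 7) (node (nat_lit 7) (nat_lit 72683) (nat_lit
  8) (node (nat_lit 5) (nat_lit 69727) (nat_lit 9) nil (node (nat_lit 4) (nat_lit 71080) (nat_lit
  9) (node (nat_lit 5) (nat_lit 64373) (nat_lit 10) nil nil) nil)) (node (nat_lit 6) (nat_lit
  43505) (nat_lit 8) (node (nat_lit 7) (nat_lit 43505) (nat_lit 9) nil nil) nil)) (node (nat_lit
  6) (nat_lit 75819) (nat_lit 7) nil (node (nat_lit 0) (nat_lit 72811) (nat_lit 7) nil nil))))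
  (node (nat_lit 0) (nat_lit 76809) (nat_lit 6) nil nil)))) (node (nat_lit 4) (nat_lit 0) (nat_lit
  5) (node (nat_lit 5) (nat_lit 68531) (nat_lit 6) (node (nat_lit 7) (nat_lit 73904) (nat_lit 7)
  (node (nat_lit 4) (nat_lit 77932) (nat_lit 8) (node (nat_lit 7) (nat_lit 77827) (nat_lit 9)
  (node (nat_lit 5) (nat_lit 76656) (nat_lit 10) (node (nat_lit 4) (nat_lit 74703) (nat_lit 11)
  nil nil) nil) nil) (node (nat_lit 5) (nat_lit 71233) (nat_lit 8) (node (nat_lit 4) (nat_lit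
  68225) (nat_lit 9) (node (nat_lit 5) (nat_lit 59778) (nat_lit 10) (node (nat_lit 6) (nat_lit
  61876) (nat_lit 11) (node (nat_lit 7) (nat_lit 61640) (nat_lit 12) nil nil) nil) nil) nil) nil))
  (node (nat_lit 4) (nat_lit 72172) (nat_lit 7) (node (nat_lit 7) (nat_lit 75029) (nat_lit 8)
  (node (nat_lit 5) (nat_lit 75169) (nat_lit 9) (node (nat_lit 7) (nat_lit 73119) (nat_lit 10) nil
  (node (nat_lit 4) (nat_lit 70814) (nat_lit 10) nil nil)) (node (nat_lit 4) (nat_lit 72166)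
  (nat_lit 9) nil nil)) (node (nat_lit 6) (nat_lit 76903) (nat_lit 8) nil nil)) (node (nat_lit 6)
  (nat_lit 33555) (nat_lit 7) nil (node (nat_lit 0) (nat_lit 75950) (nat_lit 7) nil nil)))) (node
  (nat_lit 7) (nat_lit 0) (nat_lit 6) (node (nat_lit 5) (nat_lit 68005) (nat_lit 7) (node (nat_lit
  4) (nat_lit 65758) (nat_lit 8) (node (nat_lit 5) (nat_lit 64881) (nat_lit 9) (node (nat_lit 7)
  (nat_lit 64237) (nat_lit 10) nil (node (nat_lit 6) (nat_lit 53234) (nat_lit 10) (node (nat_lit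
  7) (nat_lit 52522) (nat_lit 11) (node (nat_lit 4) (nat_lit 45045) (nat_lit 12) nil nil) nil)
  nil)) (node (nat_lit 7) (nat_lit 66575) (nat_lit 9) nil (node (nat_lit 6) (nat_lit 68811)
  (nat_lit 9) nil nil))) (node (nat_lit 7) (nat_lit 69448) (nat_lit 8) (node (nat_lit 4) (nat_lit
  68062) (nat_lit 9) (node (nat_lit 5) (nat_lit 66232) (nat_lit 10) nil nil) nil) (node (nat_lit
  6) (nat_lit 72736) (nat_lit 8) nil (node (nat_lit 0) (nat_lit 72736) (nat_lit 8) nil nil))))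
  (node (nat_lit 6) (nat_lit 75303) (nat_lit 7) nil (node (nat_lit 0) (nat_lit 71725) (nat_lit 7)
  nil nil))) (node (nat_lit 6) (nat_lit 76349) (nat_lit 6) (node (nat_lit 4) (nat_lit 76430)
  (nat_lit 7) (node (nat_lit 7) (nat_lit 76931) (nat_lit 8) (node (nat_lit 4) (nat_lit 78982)
  (nat_lit 9) (node (nat_lit 5) (nat_lit 79966) (nat_lit 10) nil nil) nil) nil) (node (nat_lit 5)
  (nat_lit 75157) (nat_lit 7) (node (nat_lit 7) (nat_lit 75157) (nat_lit 8) nil nil) (node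
  (nat_lit 7) (nat_lit 76349) (nat_lit 7) (node (nat_lit 6) (nat_lit 78773) (nat_lit 8) nil nil)
  nil))) (node (nat_lit 0) (nat_lit 75668) (nat_lit 6) nil nil)))) (node (nat_lit 0) (nat_lit 0)
  (nat_lit 5) (node (nat_lit 5) (nat_lit 70109) (nat_lit 6) (node (nat_lit 7) (nat_lit 72236)
  (nat_lit 7) nil (node (nat_lit 4) (nat_lit 70109) (nat_lit 7) nil nil)) (node (nat_lit 7)
  (nat_lit 72079) (nat_lit 6) (node (nat_lit 5) (nat_lit 72271) (nat_lit 7) nil (node (nat_lit 4)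
  (nat_lit 72079) (nat_lit 7) nil (node (nat_lit 6) (nat_lit 75828) (nat_lit 7) nil nil))) (node
  (nat_lit 4) (nat_lit 68082) (nat_lit 6) nil (node (nat_lit 6) (nat_lit 74553) (nat_lit 6) nil
  (node (nat_lit 0) (nat_lit 72426) (nat_lit 6) nil nil))))) nil)))) t361) (node (nat_lit 3)
  (nat_lit 0) (nat_lit 3) t363 (node (nat_lit 4) (nat_lit 0) (nat_lit 3) (node (nat_lit 0)
  (nat_lit 0) (nat_lit 4) t364 (node (nat_lit 3) (nat_lit 0) (nat_lit 4) (node (nat_lit 0)
  (nat_lit 0) (nat_lit 5) (node (nat_lit 4) (nat_lit 0) (nat_lit 6) (node (nat_lit 7) (nat_lit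
  25857) (nat_lit 7) (node (nat_lit 4) (nat_lit 29608) (nat_lit 8) (node (nat_lit 8) (nat_lit
  32430) (nat_lit 9) (node (nat_lit 4) (nat_lit 31995) (nat_lit 10) (node (nat_lit 7) (nat_lit
  32183) (nat_lit 11) (node (nat_lit 8) (nat_lit 32833) (nat_lit 12) nil nil) (node (nat_lit 5)
  (nat_lit 31455) (nat_lit 11) nil (node (nat_lit 0) (nat_lit 32451) (nat_lit 11) nil nil))) (node
  (nat_lit 7) (nat_lit 32430) (nat_lit 10) nil nil)) (node (nat_lit 5) (nat_lit 31255) (nat_lit 9)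
  (node (nat_lit 7) (nat_lit 31753) (nat_lit 10) nil nil) (node (nat_lit 0) (nat_lit 32216)
  (nat_lit 9) nil nil))) (node (nat_lit 5) (nat_lit 29402) (nat_lit 8) (node (nat_lit 7) (nat_lit
  30616) (nat_lit 9) (node (nat_lit 4) (nat_lit 28940) (nat_lit 10) (node (nat_lit 5) (nat_lit
  21760) (nat_lit 11) (node (nat_lit 4) (nat_lit 15691) (nat_lit 12) (node (nat_lit 7) (nat_lit
  16023) (nat_lit 13) nil nil) nil) nil) nil) (node (nat_lit 4) (nat_lit 30720) (nat_lit 9) nil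
  (node (nat_lit 8) (nat_lit 32261) (nat_lit 9) (node (nat_lit 4) (nat_lit 32261) (nat_lit 10) nil
  nil) (node (nat_lit 0) (nat_lit 30948) (nat_lit 9) nil nil)))) (node (nat_lit 0) (nat_lit 31729)
  (nat_lit 8) nil nil))) (node (nat_lit 5) (nat_lit 24989) (nat_lit 7) nil (node (nat_lit 8)
  (nat_lit 28947) (nat_lit 7) nil (node (nat_lit 0) (nat_lit 27920) (nat_lit 7) nil nil)))) (node
  (nat_lit 5) (nat_lit 0) (nat_lit 6) (node (nat_lit 7) (nat_lit 25086) (nat_lit 7) (node (nat_lit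
  4) (nat_lit 27275) (nat_lit 8) nil (node (nat_lit 5) (nat_lit 28146) (nat_lit 8) (node (nat_lit
  4) (nat_lit 26789) (nat_lit 9) nil (node (nat_lit 8) (nat_lit 29692) (nat_lit 9) nil nil)) (node
  (nat_lit 0) (nat_lit 27753) (nat_lit 8) nil nil))) (node (nat_lit 4) (nat_lit 21520) (nat_lit 7)
  (node (nat_lit 5) (nat_lit 20132) (nat_lit 8) nil nil) (node (nat_lit 8) (nat_lit 27131)
  (nat_lit 7) nil (node (nat_lit 0) (nat_lit 22814) (nat_lit 7) nil nil)))) (node (nat_lit 7)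
  (nat_lit 0) (nat_lit 6) (node (nat_lit 4) (nat_lit 24546) (nat_lit 7) (node (nat_lit 8) (nat_lit
  30403) (nat_lit 8) (node (nat_lit 4) (nat_lit 30403) (nat_lit 9) nil nil) nil) (node (nat_lit 5)
  (nat_lit 23728) (nat_lit 7) nil (node (nat_lit 0) (nat_lit 23003) (nat_lit 7) nil nil))) (node
  (nat_lit 0) (nat_lit 24560) (nat_lit 6) (node (nat_lit 7) (nat_lit 24560) (nat_lit 7) nil (node
  (nat_lit 5) (nat_lit 24560) (nat_lit 7) nil nil)) nil)))) (node (nat_lit 5) (nat_lit 0) (nat_lit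
  5) (node (nat_lit 7) (nat_lit 0) (nat_lit 6) (node (nat_lit 4) (nat_lit 0) (nat_lit 7) (node
  (nat_lit 7) (nat_lit 0) (nat_lit 8) (node (nat_lit 5) (nat_lit 5462) (nat_lit 9) nil (node
  (nat_lit 0) (nat_lit 11970) (nat_lit 9) nil nil)) (node (nat_lit 0) (nat_lit 11846) (nat_lit 8)
  nil nil)) (node (nat_lit 0) (nat_lit 19002) (nat_lit 7) (node (nat_lit 5) (nat_lit 19002)
  (nat_lit 8) nil nil) nil)) (node (nat_lit 4) (nat_lit 0) (nat_lit 6) (node (nat_lit 0) (nat_lit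
  21583) (nat_lit 7) (node (nat_lit 5) (nat_lit 21583) (nat_lit 8) nil nil) (node (nat_lit 5)
  (nat_lit 0) (nat_lit 7) (node (nat_lit 7) (nat_lit 0) (nat_lit 8) (node (nat_lit 5) (nat_lit
  15392) (nat_lit 9) nil (node (nat_lit 0) (nat_lit 16960) (nat_lit 9) nil nil)) (node (nat_lit 0)
  (nat_lit 22596) (nat_lit 8) nil nil)) nil)) (node (nat_lit 0) (nat_lit 0) (nat_lit 6) (node
  (nat_lit 5) (nat_lit 19234) (nat_lit 7) (node (nat_lit 7) (nat_lit 19234) (nat_lit 8) nil nil)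
  (node (nat_lit 4) (nat_lit 18093) (nat_lit 7) (node (nat_lit 7) (nat_lit 18093) (nat_lit 8) nil
  nil) (node (nat_lit 7) (nat_lit 18761) (nat_lit 7) nil (node (nat_lit 0) (nat_lit 20117)
  (nat_lit 7) nil nil)))) nil))) (node (nat_lit 4) (nat_lit 0) (nat_lit 5) (node (nat_lit 5)
  (nat_lit 0) (nat_lit 6) (node (nat_lit 7) (nat_lit 0) (nat_lit 7) (node (nat_lit 4) (nat_lit
  12672) (nat_lit 8) (node (nat_lit 7) (nat_lit 13350) (nat_lit 9) nil nil) (node (nat_lit 5)
  (nat_lit 0) (nat_lit 8) (node (nat_lit 0) (nat_lit 14317) (nat_lit 9) nil nil) (node (nat_lit 0)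
  (nat_lit 14274) (nat_lit 8) nil nil))) (node (nat_lit 0) (nat_lit 14352) (nat_lit 7) nil nil))
  (node (nat_lit 0) (nat_lit 13326) (nat_lit 6) (node (nat_lit 5) (nat_lit 13326) (nat_lit 7) nil
  (node (nat_lit 7) (nat_lit 13326) (nat_lit 7) nil (node (nat_lit 4) (nat_lit 13326) (nat_lit 7)
  nil nil))) nil)) nil))) nil)) nil))) (node (nat_lit 0) (nat_lit 0) (nat_lit 2) (node (nat_lit 3)
  (nat_lit 0) (nat_lit 3) (node (nat_lit 5) (nat_lit 0) (nat_lit 4) (node (nat_lit 3) (nat_lit 0)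
  (nat_lit 5) (node (nat_lit 6) (nat_lit 102044) (nat_lit 6) (node (nat_lit 4) (nat_lit 106994)
  (nat_lit 7) (node (nat_lit 8) (nat_lit 107326) (nat_lit 8) (node (nat_lit 4) (nat_lit 99535)
  (nat_lit 9) nil nil) (node (nat_lit 6) (nat_lit 108402) (nat_lit 8) (node (nat_lit 8) (nat_lit
  105262) (nat_lit 9) nil nil) nil)) (node (nat_lit 8) (nat_lit 106450) (nat_lit 7) (node (nat_lit
  4) (nat_lit 105013) (nat_lit 8) nil nil) (node (nat_lit 0) (nat_lit 108402) (nat_lit 7) nil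
  nil))) (node (nat_lit 4) (nat_lit 103705) (nat_lit 6) (node (nat_lit 6) (nat_lit 107829)
  (nat_lit 7) (node (nat_lit 8) (nat_lit 108402) (nat_lit 8) (node (nat_lit 4) (nat_lit 107443)
  (nat_lit 9) nil (node (nat_lit 6) (nat_lit 108402) (nat_lit 9) (node (nat_lit 4) (nat_lit
  108051) (nat_lit 10) nil nil) nil)) (node (nat_lit 4) (nat_lit 107409) (nat_lit 8) (node
  (nat_lit 8) (nat_lit 103770) (nat_lit 9) nil nil) nil)) (node (nat_lit 8) (nat_lit 108063)
  (nat_lit 7) (node (nat_lit 6) (nat_lit 107431) (nat_lit 8) (node (nat_lit 4) (nat_lit 102839)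
  (nat_lit 9) nil nil) nil) nil)) (node (nat_lit 5) (nat_lit 108402) (nat_lit 6) nil (node
  (nat_lit 0) (nat_lit 108402) (nat_lit 6) nil nil)))) (node (nat_lit 4) (nat_lit 0) (nat_lit 5)
  (node (nat_lit 6) (nat_lit 94346) (nat_lit 6) (node (nat_lit 3) (nat_lit 105528) (nat_lit 7)
  (node (nat_lit 4) (nat_lit 105785) (nat_lit 8) nil (node (nat_lit 6) (nat_lit 104446) (nat_lit
  8) (node (nat_lit 4) (nat_lit 102692) (nat_lit 9) nil nil) nil)) (node (nat_lit 4) (nat_lit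
  100928) (nat_lit 7) (node (nat_lit 5) (nat_lit 107257) (nat_lit 8) (node (nat_lit 6) (nat_lit
  107257) (nat_lit 9) (node (nat_lit 5) (nat_lit 84858) (nat_lit 10) (node (nat_lit 4) (nat_lit
  54131) (nat_lit 11) nil nil) nil) nil) (node (nat_lit 3) (nat_lit 103412) (nat_lit 8) (node
  (nat_lit 6) (nat_lit 103572) (nat_lit 9) nil (node (nat_lit 4) (nat_lit 94545) (nat_lit 9) nil
  nil)) nil)) (node (nat_lit 5) (nat_lit 103958) (nat_lit 7) nil (node (nat_lit 0) (nat_lit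
  102115) (nat_lit 7) nil nil)))) (node (nat_lit 3) (nat_lit 101971) (nat_lit 6) (node (nat_lit 6)
  (nat_lit 104685) (nat_lit 7) (node (nat_lit 4) (nat_lit 107090) (nat_lit 8) (node (nat_lit 9)
  (nat_lit 104801) (nat_lit 9) nil nil) (node (nat_lit 9) (nat_lit 106560) (nat_lit 8) (node
  (nat_lit 4) (nat_lit 105483) (nat_lit 9) nil nil) nil)) (node (nat_lit 4) (nat_lit 103625)
  (nat_lit 7) (node (nat_lit 6) (nat_lit 104773) (nat_lit 8) (node (nat_lit 4) (nat_lit 104012)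
  (nat_lit 9) nil (node (nat_lit 9) (nat_lit 102703) (nat_lit 9) nil nil)) nil) (node (nat_lit 5)
  (nat_lit 107613) (nat_lit 7) nil (node (nat_lit 0) (nat_lit 107613) (nat_lit 7) nil nil))))
  (node (nat_lit 0) (nat_lit 105869) (nat_lit 6) nil (node (nat_lit 5) (nat_lit 100822) (nat_lit
  6) (node (nat_lit 6) (nat_lit 99400) (nat_lit 7) (node (nat_lit 4) (nat_lit 99400) (nat_lit 8)
  nil nil) (node (nat_lit 3) (nat_lit 102326) (nat_lit 7) nil nil)) nil)))) (node (nat_lit 0)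
  (nat_lit 104776) (nat_lit 5) (node (nat_lit 6) (nat_lit 104776) (nat_lit 6) nil (node (nat_lit
  4) (nat_lit 104776) (nat_lit 6) nil (node (nat_lit 3) (nat_lit 104776) (nat_lit 6) nil nil)))
  nil))) (node (nat_lit 3) (nat_lit 0) (nat_lit 4) (node (nat_lit 4) (nat_lit 92241) (nat_lit 5)
  (node (nat_lit 6) (nat_lit 96265) (nat_lit 6) (node (nat_lit 4) (nat_lit 89516) (nat_lit 7)
  (node (nat_lit 7) (nat_lit 91580) (nat_lit 8) (node (nat_lit 6) (nat_lit 91156) (nat_lit 9)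
  (node (nat_lit 7) (nat_lit 91672) (nat_lit 10) nil nil) (node (nat_lit 4) (nat_lit 82356)
  (nat_lit 9) nil nil)) (node (nat_lit 5) (nat_lit 85293) (nat_lit 8) (node (nat_lit 6) (nat_lit
  85293) (nat_lit 9) nil nil) nil)) (node (nat_lit 7) (nat_lit 101760) (nat_lit 7) (node (nat_lit
  6) (nat_lit 99281) (nat_lit 8) (node (nat_lit 4) (nat_lit 97229) (nat_lit 9) nil nil) nil) (node
  (nat_lit 5) (nat_lit 102737) (nat_lit 7) nil nil))) (node (nat_lit 7) (nat_lit 101954) (nat_lit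
  6) (node (nat_lit 6) (nat_lit 104939) (nat_lit 7) (node (nat_lit 4) (nat_lit 102900) (nat_lit 8)
  (node (nat_lit 6) (nat_lit 102217) (nat_lit 9) nil nil) (node (nat_lit 7) (nat_lit 105418)
  (nat_lit 8) nil (node (nat_lit 5) (nat_lit 108402) (nat_lit 8) nil nil))) (node (nat_lit 5)
  (nat_lit 108340) (nat_lit 7) nil nil)) (node (nat_lit 5) (nat_lit 77579) (nat_lit 6) (node
  (nat_lit 6) (nat_lit 54093) (nat_lit 7) nil nil) nil))) (node (nat_lit 5) (nat_lit 107905)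
  (nat_lit 5) (node (nat_lit 7) (nat_lit 107905) (nat_lit 6) (node (nat_lit 6) (nat_lit 107905)
  (nat_lit 7) nil nil) (node (nat_lit 6) (nat_lit 107905) (nat_lit 6) (node (nat_lit 5) (nat_lit
  108402) (nat_lit 7) (node (nat_lit 7) (nat_lit 108402) (nat_lit 8) nil nil) (node (nat_lit 4)
  (nat_lit 107965) (nat_lit 7) nil nil)) (node (nat_lit 4) (nat_lit 107905) (nat_lit 6) (node
  (nat_lit 7) (nat_lit 107905) (nat_lit 7) nil nil) nil))) (node (nat_lit 6) (nat_lit 94403)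
  (nat_lit 5) (node (nat_lit 4) (nat_lit 102178) (nat_lit 6) (node (nat_lit 7) (nat_lit 102821)
  (nat_lit 7) (node (nat_lit 4) (nat_lit 98520) (nat_lit 8) nil nil) (node (nat_lit 6) (nat_lit
  102367) (nat_lit 7) nil nil)) (node (nat_lit 5) (nat_lit 108402) (nat_lit 6) (node (nat_lit 6)
  (nat_lit 108402) (nat_lit 7) nil nil) nil)) (node (nat_lit 0) (nat_lit 106253) (nat_lit 5) nil
  nil)))) (node (nat_lit 4) (nat_lit 0) (nat_lit 4) (node (nat_lit 3) (nat_lit 86679) (nat_lit 5)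
  (node (nat_lit 6) (nat_lit 89363) (nat_lit 6) (node (nat_lit 8) (nat_lit 92866) (nat_lit 7)
  (node (nat_lit 4) (nat_lit 94075) (nat_lit 8) (node (nat_lit 6) (nat_lit 94622) (nat_lit 9)
  (node (nat_lit 4) (nat_lit 90968) (nat_lit 10) nil nil) (node (nat_lit 8) (nat_lit 93600)
  (nat_lit 9) nil (node (nat_lit 5) (nat_lit 90200) (nat_lit 9) nil nil))) nil) (node (nat_lit 4)
  (nat_lit 87015) (nat_lit 7) (node (nat_lit 6) (nat_lit 87182) (nat_lit 8) (node (nat_lit 8)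
  (nat_lit 86332) (nat_lit 9) nil nil) (node (nat_lit 5) (nat_lit 85950) (nat_lit 8) nil nil))
  nil)) (node (nat_lit 4) (nat_lit 96945) (nat_lit 6) (node (nat_lit 6) (nat_lit 97700) (nat_lit
  7) (node (nat_lit 8) (nat_lit 97106) (nat_lit 8) nil (node (nat_lit 4) (nat_lit 81659) (nat_lit
  8) nil nil)) (node (nat_lit 5) (nat_lit 83434) (nat_lit 7) nil nil)) (node (nat_lit 5) (nat_lit
  99830) (nat_lit 6) nil nil))) (node (nat_lit 5) (nat_lit 51749) (nat_lit 5) (node (nat_lit 4)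
  (nat_lit 53149) (nat_lit 6) (node (nat_lit 6) (nat_lit 53149) (nat_lit 7) nil (node (nat_lit 3)
  (nat_lit 53149) (nat_lit 7) nil nil)) (node (nat_lit 3) (nat_lit 51191) (nat_lit 6) (node
  (nat_lit 4) (nat_lit 51191) (nat_lit 7) nil nil) nil)) (node (nat_lit 6) (nat_lit 0) (nat_lit 5)
  (node (nat_lit 3) (nat_lit 85009) (nat_lit 6) (node (nat_lit 4) (nat_lit 86606) (nat_lit 7)
  (node (nat_lit 6) (nat_lit 87772) (nat_lit 8) (node (nat_lit 4) (nat_lit 83890) (nat_lit 9) nil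
  nil) nil) (node (nat_lit 6) (nat_lit 86989) (nat_lit 7) (node (nat_lit 4) (nat_lit 84435)
  (nat_lit 8) nil nil) nil)) (node (nat_lit 5) (nat_lit 95294) (nat_lit 6) (node (nat_lit 6)
  (nat_lit 95294) (nat_lit 7) nil nil) (node (nat_lit 0) (nat_lit 85180) (nat_lit 6) nil nil)))
  (node (nat_lit 0) (nat_lit 88069) (nat_lit 5) nil nil)))) (node (nat_lit 0) (nat_lit 96827)
  (nat_lit 4) (node (nat_lit 0) (nat_lit 101412) (nat_lit 5) nil (node (nat_lit 3) (nat_lit 96827)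
  (nat_lit 5) nil (node (nat_lit 6) (nat_lit 96827) (nat_lit 5) nil (node (nat_lit 4) (nat_lit
  96827) (nat_lit 5) (node (nat_lit 6) (nat_lit 96827) (nat_lit 6) (node (nat_lit 4) (nat_lit
  97015) (nat_lit 7) (node (nat_lit 5) (nat_lit 102252) (nat_lit 8) (node (nat_lit 6) (nat_lit
  102252) (nat_lit 9) (node (nat_lit 7) (nat_lit 76402) (nat_lit 10) (node (nat_lit 4) (nat_lit
  49651) (nat_lit 11) nil nil) nil) nil) nil) nil) nil) nil)))) nil)))) (node (nat_lit 0) (nat_lit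
  0) (nat_lit 3) (node (nat_lit 3) (nat_lit 0) (nat_lit 4) (node (nat_lit 5) (nat_lit 101440)
  (nat_lit 5) (node (nat_lit 6) (nat_lit 101440) (nat_lit 6) nil nil) (node (nat_lit 6) (nat_lit
  101440) (nat_lit 5) nil (node (nat_lit 3) (nat_lit 91837) (nat_lit 5) (node (nat_lit 7) (nat_lit
  100319) (nat_lit 6) nil (node (nat_lit 4) (nat_lit 96879) (nat_lit 6) (node (nat_lit 7) (nat_lit
  95193) (nat_lit 7) nil (node (nat_lit 8) (nat_lit 94395) (nat_lit 7) nil nil)) nil)) (node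
  (nat_lit 4) (nat_lit 90071) (nat_lit 5) (node (nat_lit 7) (nat_lit 98502) (nat_lit 6) (node
  (nat_lit 3) (nat_lit 93330) (nat_lit 7) (node (nat_lit 4) (nat_lit 80317) (nat_lit 8) nil nil)
  nil) (node (nat_lit 3) (nat_lit 97060) (nat_lit 6) (node (nat_lit 7) (nat_lit 94275) (nat_lit 7)
  nil (node (nat_lit 4) (nat_lit 95190) (nat_lit 7) nil nil)) (node (nat_lit 5) (nat_lit 99365)
  (nat_lit 6) (node (nat_lit 6) (nat_lit 50720) (nat_lit 7) nil nil) nil))) (node (nat_lit 0)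
  (nat_lit 101440) (nat_lit 5) nil nil))))) (node (nat_lit 0) (nat_lit 0) (nat_lit 4) (node
  (nat_lit 5) (nat_lit 101440) (nat_lit 5) (node (nat_lit 7) (nat_lit 101440) (nat_lit 6) (node
  (nat_lit 6) (nat_lit 101440) (nat_lit 7) nil nil) nil) (node (nat_lit 6) (nat_lit 101440)
  (nat_lit 5) (node (nat_lit 5) (nat_lit 101440) (nat_lit 6) nil nil) (node (nat_lit 3) (nat_lit
  98675) (nat_lit 5) nil (node (nat_lit 0) (nat_lit 101440) (nat_lit 5) nil (node (nat_lit 4)
  (nat_lit 98675) (nat_lit 5) nil nil))))) (node (nat_lit 4) (nat_lit 0) (nat_lit 4) (node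
  (nat_lit 3) (nat_lit 88524) (nat_lit 5) (node (nat_lit 4) (nat_lit 95337) (nat_lit 6) (node
  (nat_lit 3) (nat_lit 90818) (nat_lit 7) nil nil) (node (nat_lit 3) (nat_lit 93766) (nat_lit 6)
  (node (nat_lit 4) (nat_lit 95400) (nat_lit 7) nil (node (nat_lit 8) (nat_lit 94277) (nat_lit 7)
  nil nil)) nil)) (node (nat_lit 5) (nat_lit 101440) (nat_lit 5) nil (node (nat_lit 6) (nat_lit
  101440) (nat_lit 5) nil (node (nat_lit 0) (nat_lit 92155) (nat_lit 5) nil nil)))) (node (nat_lit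
  5) (nat_lit 0) (nat_lit 4) (node (nat_lit 0) (nat_lit 101440) (nat_lit 5) (node (nat_lit 5)
  (nat_lit 101440) (nat_lit 6) nil nil) (node (nat_lit 3) (nat_lit 97814) (nat_lit 5) (node
  (nat_lit 5) (nat_lit 101440) (nat_lit 6) nil nil) (node (nat_lit 4) (nat_lit 98003) (nat_lit 5)
  nil nil))) nil)))) (node (nat_lit 4) (nat_lit 0) (nat_lit 3) (node (nat_lit 3) (nat_lit 0)
  (nat_lit 4) (node (nat_lit 3) (nat_lit 80470) (nat_lit 5) (node (nat_lit 4) (nat_lit 91164)
  (nat_lit 6) (node (nat_lit 8) (nat_lit 98079) (nat_lit 7) (node (nat_lit 7) (nat_lit 98279)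
  (nat_lit 8) (node (nat_lit 4) (nat_lit 95320) (nat_lit 9) nil nil) nil) (node (nat_lit 7)
  (nat_lit 93967) (nat_lit 7) (node (nat_lit 4) (nat_lit 91542) (nat_lit 8) (node (nat_lit 8)
  (nat_lit 90184) (nat_lit 9) nil (node (nat_lit 5) (nat_lit 77897) (nat_lit 9) nil nil)) nil)
  (node (nat_lit 5) (nat_lit 74877) (nat_lit 7) (node (nat_lit 4) (nat_lit 70019) (nat_lit 8)
  (node (nat_lit 7) (nat_lit 48205) (nat_lit 9) nil nil) nil) nil))) (node (nat_lit 7) (nat_lit
  88314) (nat_lit 6) (node (nat_lit 4) (nat_lit 87185) (nat_lit 7) (node (nat_lit 8) (nat_lit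
  88422) (nat_lit 8) (node (nat_lit 4) (nat_lit 84265) (nat_lit 9) nil nil) (node (nat_lit 7)
  (nat_lit 88333) (nat_lit 8) nil (node (nat_lit 5) (nat_lit 91999) (nat_lit 8) (node (nat_lit 4)
  (nat_lit 92220) (nat_lit 9) nil nil) nil))) (node (nat_lit 5) (nat_lit 93053) (nat_lit 7) nil
  nil)) (node (nat_lit 5) (nat_lit 98219) (nat_lit 6) nil nil))) (node (nat_lit 5) (nat_lit 86021)
  (nat_lit 5) (node (nat_lit 7) (nat_lit 91314) (nat_lit 6) (node (nat_lit 4) (nat_lit 90919)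
  (nat_lit 7) nil (node (nat_lit 3) (nat_lit 94041) (nat_lit 7) nil nil)) (node (nat_lit 4)
  (nat_lit 0) (nat_lit 6) (node (nat_lit 5) (nat_lit 97655) (nat_lit 7) (node (nat_lit 7) (nat_lit
  97655) (nat_lit 8) nil nil) (node (nat_lit 3) (nat_lit 95046) (nat_lit 7) (node (nat_lit 7)
  (nat_lit 96226) (nat_lit 8) nil nil) (node (nat_lit 0) (nat_lit 96048) (nat_lit 7) nil nil)))
  (node (nat_lit 3) (nat_lit 94249) (nat_lit 6) (node (nat_lit 7) (nat_lit 94249) (nat_lit 7) nil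
  nil) nil))) (node (nat_lit 4) (nat_lit 0) (nat_lit 5) (node (nat_lit 3) (nat_lit 83547) (nat_lit
  6) (node (nat_lit 7) (nat_lit 83077) (nat_lit 7) (node (nat_lit 4) (nat_lit 76061) (nat_lit 8)
  nil nil) (node (nat_lit 4) (nat_lit 75848) (nat_lit 7) (node (nat_lit 7) (nat_lit 70378)
  (nat_lit 8) nil nil) nil)) (node (nat_lit 5) (nat_lit 70465) (nat_lit 6) (node (nat_lit 4)
  (nat_lit 47219) (nat_lit 7) nil nil) (node (nat_lit 0) (nat_lit 84206) (nat_lit 6) nil nil)))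
  (node (nat_lit 0) (nat_lit 87940) (nat_lit 5) nil nil)))) (node (nat_lit 0) (nat_lit 88152)
  (nat_lit 4) (node (nat_lit 3) (nat_lit 88152) (nat_lit 5) nil (node (nat_lit 4) (nat_lit 88152)
  (nat_lit 5) nil nil)) nil)) nil))) nil))

noncomputable def c15 : Tr :=
  (node (nat_lit 3) (nat_lit 0) (nat_lit 1) t365 nil)

end Pool.Agent.Work.MP_7cb3ca_co.P3.D
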