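import Pool.Agent.Work.MP_7cb3ca_co.P3.Defs

namespace Pool.Agent.Work.MP_7cb3ca_co.P3.D
open Tr
set_option maxRecDepth 100000

noncomputable def t273 : Tr :=
  (node (nat_lit 6) (nat_lit 0) (nat_lit 6) (node (nat_lit 5) (nat_lit 0) (nat_lit 7) (node
  (nat_lit 6) (nat_lit 0) (nat_lit 8) (node (nat_lit 4) (nat_lit 110809) (nat_lit 9) (node
  (nat_lit 0) (nat_lit 112077) (nat_lit 10) (node (nat_lit 6) (nat_lit 111133) (nat_lit 11) nil
  nil) (node (nat_lit 2) (nat_lit 111961) (nat_lit 10) (node (nat_lit 6) (nat_lit 111016) (nat_lit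
  11) nil (node (nat_lit 5) (nat_lit 109574) (nat_lit 11) nil nil)) (node (nat_lit 5) (nat_lit
  111961) (nat_lit 10) (node (nat_lit 6) (nat_lit 112859) (nat_lit 11) (node (nat_lit 5) (nat_lit
  113559) (nat_lit 12) (node (nat_lit 4) (nat_lit 111291) (nat_lit 13) (node (nat_lit 6) (nat_lit
  111717) (nat_lit 14) nil nil) nil) nil) nil) nil))) (node (nat_lit 0) (nat_lit 109641) (nat_lit
  9) (node (nat_lit 6) (nat_lit 110793) (nat_lit 10) (node (nat_lit 4) (nat_lit 111691) (nat_lit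
  11) nil nil) (node (nat_lit 5) (nat_lit 110793) (nat_lit 10) nil nil)) (node (nat_lit 2)
  (nat_lit 107370) (nat_lit 9) (node (nat_lit 6) (nat_lit 108023) (nat_lit 10) (node (nat_lit 4)
  (nat_lit 108922) (nat_lit 11) (node (nat_lit 5) (nat_lit 105889) (nat_lit 12) (node (nat_lit 6)
  (nat_lit 102959) (nat_lit 13) (node (nat_lit 5) (nat_lit 99669) (nat_lit 14) nil nil) nil) nil)
  (node (nat_lit 5) (nat_lit 108291) (nat_lit 11) nil nil)) (node (nat_lit 5) (nat_lit 108443)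
  (nat_lit 10) (node (nat_lit 4) (nat_lit 110460) (nat_lit 11) nil (node (nat_lit 6) (nat_lit
  107499) (nat_lit 11) nil nil)) nil)) nil))) (node (nat_lit 0) (nat_lit 110802) (nat_lit 8) (node
  (nat_lit 4) (nat_lit 111489) (nat_lit 9) nil (node (nat_lit 6) (nat_lit 111489) (nat_lit 9)
  (node (nat_lit 4) (nat_lit 112000) (nat_lit 10) nil nil) (node (nat_lit 5) (nat_lit 111489)
  (nat_lit 9) (node (nat_lit 4) (nat_lit 112000) (nat_lit 10) nil nil) nil))) (node (nat_lit 2)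
  (nat_lit 0) (nat_lit 8) (node (nat_lit 4) (nat_lit 109017) (nat_lit 9) nil (node (nat_lit 6)
  (nat_lit 109003) (nat_lit 9) (node (nat_lit 5) (nat_lit 110153) (nat_lit 10) nil (node (nat_lit
  4) (nat_lit 111313) (nat_lit 10) (node (nat_lit 5) (nat_lit 110017) (nat_lit 11) (node (nat_lit
  6) (nat_lit 105073) (nat_lit 12) (node (nat_lit 5) (nat_lit 91943) (nat_lit 13) (node (nat_lit
  4) (nat_lit 58176) (nat_lit 14) (node (nat_lit 6) (nat_lit 46136) (nat_lit 15) nil nil) nil)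
  nil) nil) nil) nil)) (node (nat_lit 5) (nat_lit 108967) (nat_lit 9) (node (nat_lit 4) (nat_lit
  108334) (nat_lit 10) (node (nat_lit 5) (nat_lit 108484) (nat_lit 11) (node (nat_lit 6) (nat_lit
  104543) (nat_lit 12) nil nil) nil) nil) (node (nat_lit 0) (nat_lit 109017) (nat_lit 9) (node
  (nat_lit 6) (nat_lit 107389) (nat_lit 10) nil nil) nil)))) nil))) (node (nat_lit 4) (nat_lit 0)
  (nat_lit 7) (node (nat_lit 5) (nat_lit 0) (nat_lit 8) (node (nat_lit 6) (nat_lit 0) (nat_lit 9)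
  (node (nat_lit 0) (nat_lit 84262) (nat_lit 10) (node (nat_lit 5) (nat_lit 86284) (nat_lit 11)
  (node (nat_lit 6) (nat_lit 87861) (nat_lit 12) (node (nat_lit 4) (nat_lit 89093) (nat_lit 13)
  (node (nat_lit 5) (nat_lit 90053) (nat_lit 14) nil nil) (node (nat_lit 5) (nat_lit 89093)
  (nat_lit 13) (node (nat_lit 4) (nat_lit 86929) (nat_lit 14) nil nil) nil)) (node (nat_lit 4)
  (nat_lit 87861) (nat_lit 12) nil nil)) (node (nat_lit 6) (nat_lit 86284) (nat_lit 11) (node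
  (nat_lit 5) (nat_lit 87861) (nat_lit 12) nil nil) (node (nat_lit 4) (nat_lit 86474) (nat_lit 11)
  (node (nat_lit 6) (nat_lit 88051) (nat_lit 12) nil nil) nil))) (node (nat_lit 2) (nat_lit 82751)
  (nat_lit 10) (node (nat_lit 5) (nat_lit 84664) (nat_lit 11) (node (nat_lit 6) (nat_lit 86594)
  (nat_lit 12) (node (nat_lit 4) (nat_lit 87827) (nat_lit 13) (node (nat_lit 5) (nat_lit 88787)
  (nat_lit 14) nil nil) (node (nat_lit 5) (nat_lit 87478) (nat_lit 13) (node (nat_lit 4) (nat_lit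
  85313) (nat_lit 14) nil nil) nil)) (node (nat_lit 4) (nat_lit 87362) (nat_lit 12) nil nil))
  (node (nat_lit 6) (nat_lit 85256) (nat_lit 11) (node (nat_lit 5) (nat_lit 86792) (nat_lit 12)
  nil nil) (node (nat_lit 4) (nat_lit 86180) (nat_lit 11) (node (nat_lit 6) (nat_lit 87757)
  (nat_lit 12) nil nil) nil))) (node (nat_lit 4) (nat_lit 0) (nat_lit 10) (node (nat_lit 6)
  (nat_lit 86344) (nat_lit 11) (node (nat_lit 5) (nat_lit 87921) (nat_lit 12) nil nil) (node
  (nat_lit 0) (nat_lit 86474) (nat_lit 11) nil (node (nat_lit 2) (nat_lit 86384) (nat_lit 11) nil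
  nil))) nil))) (node (nat_lit 4) (nat_lit 0) (nat_lit 9) (node (nat_lit 0) (nat_lit 112014)
  (nat_lit 10) (node (nat_lit 5) (nat_lit 112912) (nat_lit 11) nil nil) (node (nat_lit 2) (nat_lit
  111106) (nat_lit 10) (node (nat_lit 5) (nat_lit 112676) (nat_lit 11) nil (node (nat_lit 6)
  (nat_lit 110833) (nat_lit 11) nil nil)) nil)) (node (nat_lit 0) (nat_lit 108328) (nat_lit 9)
  (node (nat_lit 6) (nat_lit 110727) (nat_lit 10) nil (node (nat_lit 5) (nat_lit 110919) (nat_lit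
  10) nil nil)) (node (nat_lit 2) (nat_lit 107013) (nat_lit 9) (node (nat_lit 6) (nat_lit 108719)
  (nat_lit 10) (node (nat_lit 4) (nat_lit 107246) (nat_lit 11) nil nil) (node (nat_lit 5) (nat_lit
  109605) (nat_lit 10) nil nil)) nil)))) (node (nat_lit 0) (nat_lit 111412) (nat_lit 8) (node
  (nat_lit 5) (nat_lit 112099) (nat_lit 9) (node (nat_lit 4) (nat_lit 112610) (nat_lit 10) (node
  (nat_lit 5) (nat_lit 113060) (nat_lit 11) (node (nat_lit 6) (nat_lit 112068) (nat_lit 12) nil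
  nil) nil) nil) (node (nat_lit 6) (nat_lit 112099) (nat_lit 9) nil nil)) (node (nat_lit 2)
  (nat_lit 110929) (nat_lit 8) (node (nat_lit 5) (nat_lit 111616) (nat_lit 9) (node (nat_lit 4)
  (nat_lit 113287) (nat_lit 10) (node (nat_lit 5) (nat_lit 111983) (nat_lit 11) (node (nat_lit 6)
  (nat_lit 108360) (nat_lit 12) (node (nat_lit 5) (nat_lit 101825) (nat_lit 13) (node (nat_lit 4)
  (nat_lit 80596) (nat_lit 14) (node (nat_lit 6) (nat_lit 64675) (nat_lit 15) nil nil) nil) nil)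
  nil) nil) nil) (node (nat_lit 6) (nat_lit 111440) (nat_lit 9) (node (nat_lit 4) (nat_lit 111595)
  (nat_lit 10) (node (nat_lit 5) (nat_lit 108889) (nat_lit 11) (node (nat_lit 6) (nat_lit 104543)
  (nat_lit 12) nil nil) nil) nil) nil)) nil))) (node (nat_lit 0) (nat_lit 0) (nat_lit 7) (node
  (nat_lit 5) (nat_lit 111521) (nat_lit 8) (node (nat_lit 4) (nat_lit 112208) (nat_lit 9) (node
  (nat_lit 5) (nat_lit 112719) (nat_lit 10) (node (nat_lit 6) (nat_lit 111424) (nat_lit 11) nil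
  nil) nil) nil) (node (nat_lit 4) (nat_lit 111908) (nat_lit 8) (node (nat_lit 6) (nat_lit 112595)
  (nat_lit 9) nil nil) (node (nat_lit 6) (nat_lit 111521) (nat_lit 8) (node (nat_lit 5) (nat_lit
  112208) (nat_lit 9) nil (node (nat_lit 4) (nat_lit 112208) (nat_lit 9) (node (nat_lit 5)
  (nat_lit 112719) (nat_lit 10) (node (nat_lit 6) (nat_lit 111424) (nat_lit 11) (node (nat_lit 5)
  (nat_lit 111271) (nat_lit 12) (node (nat_lit 4) (nat_lit 111254) (nat_lit 13) (node (nat_lit 6)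
  (nat_lit 111511) (nat_lit 14) nil nil) nil) nil) nil) nil) nil)) (node (nat_lit 0) (nat_lit
  111908) (nat_lit 8) (node (nat_lit 6) (nat_lit 109940) (nat_lit 9) (node (nat_lit 4) (nat_lit
  110451) (nat_lit 10) nil nil) (node (nat_lit 5) (nat_lit 112595) (nat_lit 9) nil nil)) (node
  (nat_lit 2) (nat_lit 111521) (nat_lit 8) (node (nat_lit 6) (nat_lit 112208) (nat_lit 9) (node
  (nat_lit 4) (nat_lit 112719) (nat_lit 10) nil nil) (node (nat_lit 5) (nat_lit 112208) (nat_lit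
  9) (node (nat_lit 4) (nat_lit 106625) (nat_lit 10) nil (node (nat_lit 6) (nat_lit 110581)
  (nat_lit 10) nil nil)) nil)) nil))))) (node (nat_lit 2) (nat_lit 0) (nat_lit 7) (node (nat_lit
  5) (nat_lit 108421) (nat_lit 8) (node (nat_lit 4) (nat_lit 109155) (nat_lit 9) (node (nat_lit 5)
  (nat_lit 105183) (nat_lit 10) (node (nat_lit 6) (nat_lit 97504) (nat_lit 11) (node (nat_lit 5)
  (nat_lit 79844) (nat_lit 12) nil nil) nil) nil) (node (nat_lit 10) (nat_lit 109108) (nat_lit 9)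
  nil (node (nat_lit 6) (nat_lit 110006) (nat_lit 9) (node (nat_lit 4) (nat_lit 110517) (nat_lit
  10) (node (nat_lit 5) (nat_lit 110967) (nat_lit 11) (node (nat_lit 6) (nat_lit 109975) (nat_lit
  12) nil nil) nil) nil) nil))) (node (nat_lit 4) (nat_lit 110965) (nat_lit 8) (node (nat_lit 6)
  (nat_lit 111652) (nat_lit 9) (node (nat_lit 5) (nat_lit 108183) (nat_lit 10) nil nil) nil) (node
  (nat_lit 6) (nat_lit 108737) (nat_lit 8) (node (nat_lit 5) (nat_lit 109434) (nat_lit 9) (node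
  (nat_lit 4) (nat_lit 109738) (nat_lit 10) (node (nat_lit 5) (nat_lit 106806) (nat_lit 11) (node
  (nat_lit 6) (nat_lit 102653) (nat_lit 12) nil nil) nil) nil) (node (nat_lit 4) (nat_lit 111597)
  (nat_lit 9) (node (nat_lit 5) (nat_lit 111283) (nat_lit 10) (node (nat_lit 6) (nat_lit 103948)
  (nat_lit 11) (node (nat_lit 5) (nat_lit 95810) (nat_lit 12) (node (nat_lit 4) (nat_lit 82482)
  (nat_lit 13) (node (nat_lit 6) (nat_lit 49472) (nat_lit 14) nil nil) nil) nil) nil) nil) nil))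
  (node (nat_lit 0) (nat_lit 110481) (nat_lit 8) (node (nat_lit 6) (nat_lit 111168) (nat_lit 9)
  (node (nat_lit 4) (nat_lit 111679) (nat_lit 10) nil nil) (node (nat_lit 5) (nat_lit 111168)
  (nat_lit 9) (node (nat_lit 4) (nat_lit 111679) (nat_lit 10) nil nil) nil)) nil)))) nil)))) (node
  (nat_lit 5) (nat_lit 0) (nat_lit 6) (node (nat_lit 6) (nat_lit 0) (nat_lit 7) (node (nat_lit 4)
  (nat_lit 0) (nat_lit 8) (node (nat_lit 6) (nat_lit 0) (nat_lit 9) (node (nat_lit 0) (nat_lit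
  46375) (nat_lit 10) (node (nat_lit 4) (nat_lit 46375) (nat_lit 11) (node (nat_lit 6) (nat_lit
  46375) (nat_lit 12) (node (nat_lit 4) (nat_lit 46375) (nat_lit 13) (node (nat_lit 5) (nat_lit
  46996) (nat_lit 14) (node (nat_lit 6) (nat_lit 46996) (nat_lit 15) nil nil) nil) (node (nat_lit
  5) (nat_lit 46892) (nat_lit 13) (node (nat_lit 4) (nat_lit 46892) (nat_lit 14) nil nil) nil))
  nil) (node (nat_lit 6) (nat_lit 46375) (nat_lit 11) (node (nat_lit 4) (nat_lit 46375) (nat_lit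
  12) nil nil) (node (nat_lit 5) (nat_lit 46591) (nat_lit 11) (node (nat_lit 6) (nat_lit 46591)
  (nat_lit 12) nil nil) nil))) (node (nat_lit 2) (nat_lit 42123) (nat_lit 10) (node (nat_lit 4)
  (nat_lit 42123) (nat_lit 11) (node (nat_lit 6) (nat_lit 42123) (nat_lit 12) (node (nat_lit 4)
  (nat_lit 42123) (nat_lit 13) (node (nat_lit 5) (nat_lit 42825) (nat_lit 14) (node (nat_lit 6)
  (nat_lit 41471) (nat_lit 15) nil nil) (node (nat_lit 13) (nat_lit 42637) (nat_lit 14) (node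
  (nat_lit 4) (nat_lit 42268) (nat_lit 15) nil (node (nat_lit 6) (nat_lit 41730) (nat_lit 15) nil
  nil)) (node (nat_lit 0) (nat_lit 44417) (nat_lit 14) nil nil))) (node (nat_lit 5) (nat_lit
  44314) (nat_lit 13) (node (nat_lit 4) (nat_lit 44314) (nat_lit 14) nil nil) (node (nat_lit 0)
  (nat_lit 44314) (nat_lit 13) nil nil))) (node (nat_lit 13) (nat_lit 42123) (nat_lit 12) (node
  (nat_lit 6) (nat_lit 42123) (nat_lit 13) nil nil) (node (nat_lit 5) (nat_lit 45848) (nat_lit 12)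
  nil nil))) (node (nat_lit 6) (nat_lit 42123) (nat_lit 11) (node (nat_lit 4) (nat_lit 42123)
  (nat_lit 12) (node (nat_lit 13) (nat_lit 42123) (nat_lit 13) (node (nat_lit 4) (nat_lit 41645)
  (nat_lit 14) nil nil) nil) nil) (node (nat_lit 5) (nat_lit 45542) (nat_lit 11) (node (nat_lit 6)
  (nat_lit 45542) (nat_lit 12) nil nil) nil))) nil)) (node (nat_lit 0) (nat_lit 0) (nat_lit 9)
  (node (nat_lit 4) (nat_lit 0) (nat_lit 10) (node (nat_lit 6) (nat_lit 45961) (nat_lit 11) (node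
  (nat_lit 4) (nat_lit 45961) (nat_lit 12) (node (nat_lit 5) (nat_lit 46755) (nat_lit 13) nil nil)
  (node (nat_lit 5) (nat_lit 46624) (nat_lit 12) nil nil)) (node (nat_lit 5) (nat_lit 46454)
  (nat_lit 11) nil (node (nat_lit 0) (nat_lit 46454) (nat_lit 11) nil (node (nat_lit 2) (nat_lit
  45961) (nat_lit 11) nil nil)))) (node (nat_lit 6) (nat_lit 45961) (nat_lit 10) (node (nat_lit 4)
  (nat_lit 45961) (nat_lit 11) (node (nat_lit 5) (nat_lit 46624) (nat_lit 12) nil nil) (node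
  (nat_lit 5) (nat_lit 46454) (nat_lit 11) (node (nat_lit 4) (nat_lit 46454) (nat_lit 12) (node
  (nat_lit 5) (nat_lit 46755) (nat_lit 13) nil nil) nil) nil)) (node (nat_lit 5) (nat_lit 46464)
  (nat_lit 10) (node (nat_lit 4) (nat_lit 46464) (nat_lit 11) (node (nat_lit 5) (nat_lit 46815)
  (nat_lit 12) nil nil) nil) (node (nat_lit 0) (nat_lit 46238) (nat_lit 10) nil (node (nat_lit 2)
  (nat_lit 45961) (nat_lit 10) nil nil))))) (node (nat_lit 2) (nat_lit 0) (nat_lit 9) (node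
  (nat_lit 4) (nat_lit 0) (nat_lit 10) (node (nat_lit 6) (nat_lit 42123) (nat_lit 11) (node
  (nat_lit 4) (nat_lit 42123) (nat_lit 12) (node (nat_lit 5) (nat_lit 43623) (nat_lit 13) nil nil)
  (node (nat_lit 12) (nat_lit 42123) (nat_lit 12) (node (nat_lit 4) (nat_lit 42123) (nat_lit 13)
  nil nil) (node (nat_lit 5) (nat_lit 44182) (nat_lit 12) (node (nat_lit 4) (nat_lit 44182)
  (nat_lit 13) nil nil) nil))) (node (nat_lit 5) (nat_lit 45542) (nat_lit 11) nil (node (nat_lit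
  0) (nat_lit 45542) (nat_lit 11) (node (nat_lit 6) (nat_lit 45542) (nat_lit 12) nil nil) nil)))
  (node (nat_lit 6) (nat_lit 42123) (nat_lit 10) (node (nat_lit 4) (nat_lit 42123) (nat_lit 11)
  (node (nat_lit 5) (nat_lit 42988) (nat_lit 12) nil nil) (node (nat_lit 5) (nat_lit 45542)
  (nat_lit 11) (node (nat_lit 4) (nat_lit 45542) (nat_lit 12) (node (nat_lit 5) (nat_lit 45843)
  (nat_lit 13) nil nil) nil) (node (nat_lit 12) (nat_lit 42123) (nat_lit 11) (node (nat_lit 4)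
  (nat_lit 42123) (nat_lit 12) nil nil) nil))) (node (nat_lit 5) (nat_lit 45846) (nat_lit 10)
  (node (nat_lit 4) (nat_lit 45846) (nat_lit 11) (node (nat_lit 5) (nat_lit 46047) (nat_lit 12)
  nil nil) nil) (node (nat_lit 0) (nat_lit 45726) (nat_lit 10) nil nil)))) (node (nat_lit 5)
  (nat_lit 0) (nat_lit 9) (node (nat_lit 0) (nat_lit 46560) (nat_lit 10) (node (nat_lit 4)
  (nat_lit 46560) (nat_lit 11) nil (node (nat_lit 5) (nat_lit 46776) (nat_lit 11) (node (nat_lit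
  4) (nat_lit 46776) (nat_lit 12) nil nil) (node (nat_lit 6) (nat_lit 46560) (nat_lit 11) (node
  (nat_lit 5) (nat_lit 46946) (nat_lit 12) nil nil) nil))) (node (nat_lit 2) (nat_lit 46057)
  (nat_lit 10) (node (nat_lit 4) (nat_lit 46057) (nat_lit 11) (node (nat_lit 5) (nat_lit 46720)
  (nat_lit 12) nil nil) (node (nat_lit 5) (nat_lit 46551) (nat_lit 11) (node (nat_lit 4) (nat_lit
  46551) (nat_lit 12) nil nil) (node (nat_lit 6) (nat_lit 46057) (nat_lit 11) (node (nat_lit 5)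
  (nat_lit 46720) (nat_lit 12) nil nil) nil))) nil)) nil)))) (node (nat_lit 0) (nat_lit 0)
  (nat_lit 8) (node (nat_lit 4) (nat_lit 45791) (nat_lit 9) (node (nat_lit 11) (nat_lit 46108)
  (nat_lit 10) (node (nat_lit 6) (nat_lit 46108) (nat_lit 11) (node (nat_lit 4) (nat_lit 46108)
  (nat_lit 12) (node (nat_lit 5) (nat_lit 46367) (nat_lit 13) (node (nat_lit 6) (nat_lit 46367)
  (nat_lit 14) (node (nat_lit 5) (nat_lit 46460) (nat_lit 15) nil nil) nil) nil) (node (nat_lit 5)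
  (nat_lit 46302) (nat_lit 12) nil nil)) (node (nat_lit 5) (nat_lit 46217) (nat_lit 11) (node
  (nat_lit 4) (nat_lit 46217) (nat_lit 12) (node (nat_lit 5) (nat_lit 46367) (nat_lit 13) (node
  (nat_lit 6) (nat_lit 46367) (nat_lit 14) nil nil) nil) nil) nil)) (node (nat_lit 6) (nat_lit
  45791) (nat_lit 10) (node (nat_lit 4) (nat_lit 45791) (nat_lit 11) (node (nat_lit 5) (nat_lit
  46302) (nat_lit 12) (node (nat_lit 6) (nat_lit 46302) (nat_lit 13) (node (nat_lit 5) (nat_lit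
  46419) (nat_lit 14) (node (nat_lit 4) (nat_lit 45899) (nat_lit 15) nil nil) nil) nil) nil) (node
  (nat_lit 5) (nat_lit 46217) (nat_lit 11) nil nil)) (node (nat_lit 5) (nat_lit 46108) (nat_lit
  10) nil nil))) (node (nat_lit 5) (nat_lit 46256) (nat_lit 9) (node (nat_lit 11) (nat_lit 46395)
  (nat_lit 10) (node (nat_lit 6) (nat_lit 46395) (nat_lit 11) (node (nat_lit 5) (nat_lit 46589)
  (nat_lit 12) nil (node (nat_lit 4) (nat_lit 46395) (nat_lit 12) nil nil)) nil) (node (nat_lit 6)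
  (nat_lit 46256) (nat_lit 10) (node (nat_lit 5) (nat_lit 46504) (nat_lit 11) (node (nat_lit 4)
  (nat_lit 46504) (nat_lit 12) nil nil) (node (nat_lit 4) (nat_lit 46256) (nat_lit 11) (node
  (nat_lit 5) (nat_lit 46589) (nat_lit 12) nil nil) nil)) (node (nat_lit 4) (nat_lit 46256)
  (nat_lit 10) (node (nat_lit 5) (nat_lit 46504) (nat_lit 11) (node (nat_lit 6) (nat_lit 46504)
  (nat_lit 12) (node (nat_lit 5) (nat_lit 46654) (nat_lit 13) nil nil) nil) (node (nat_lit 6)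
  (nat_lit 46256) (nat_lit 11) nil nil)) nil))) (node (nat_lit 6) (nat_lit 45791) (nat_lit 9)
  (node (nat_lit 5) (nat_lit 46108) (nat_lit 10) (node (nat_lit 4) (nat_lit 46108) (nat_lit 11)
  (node (nat_lit 5) (nat_lit 46302) (nat_lit 12) (node (nat_lit 6) (nat_lit 46302) (nat_lit 13)
  nil nil) nil) (node (nat_lit 6) (nat_lit 46108) (nat_lit 11) (node (nat_lit 4) (nat_lit 46108)
  (nat_lit 12) nil nil) nil)) (node (nat_lit 4) (nat_lit 45791) (nat_lit 10) (node (nat_lit 5)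
  (nat_lit 46217) (nat_lit 11) (node (nat_lit 6) (nat_lit 46217) (nat_lit 12) (node (nat_lit 5)
  (nat_lit 46367) (nat_lit 13) nil nil) nil) nil) nil)) (node (nat_lit 2) (nat_lit 45791) (nat_lit
  9) (node (nat_lit 11) (nat_lit 46108) (nat_lit 10) (node (nat_lit 6) (nat_lit 46108) (nat_lit
  11) nil nil) (node (nat_lit 6) (nat_lit 45791) (nat_lit 10) (node (nat_lit 4) (nat_lit 45791)
  (nat_lit 11) nil (node (nat_lit 5) (nat_lit 46217) (nat_lit 11) nil nil)) (node (nat_lit 5)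
  (nat_lit 46108) (nat_lit 10) nil nil))) (node (nat_lit 0) (nat_lit 46256) (nat_lit 9) (node
  (nat_lit 11) (nat_lit 46395) (nat_lit 10) (node (nat_lit 6) (nat_lit 46395) (nat_lit 11) nil
  nil) (node (nat_lit 6) (nat_lit 46256) (nat_lit 10) (node (nat_lit 4) (nat_lit 46256) (nat_lit
  11) nil (node (nat_lit 5) (nat_lit 46504) (nat_lit 11) nil nil)) (node (nat_lit 5) (nat_lit
  46395) (nat_lit 10) nil nil))) nil))))) (node (nat_lit 2) (nat_lit 0) (nat_lit 8) (node (nat_lit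
  4) (nat_lit 43423) (nat_lit 9) (node (nat_lit 11) (nat_lit 43423) (nat_lit 10) (node (nat_lit 6)
  (nat_lit 43423) (nat_lit 11) (node (nat_lit 4) (nat_lit 43423) (nat_lit 12) (node (nat_lit 5)
  (nat_lit 43986) (nat_lit 13) (node (nat_lit 6) (nat_lit 41979) (nat_lit 14) (node (nat_lit 5)
  (nat_lit 38455) (nat_lit 15) (node (nat_lit 4) (nat_lit 32817) (nat_lit 16) (node (nat_lit 5)
  (nat_lit 27830) (nat_lit 17) nil nil) nil) nil) nil) nil) (node (nat_lit 5) (nat_lit 44482)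
  (nat_lit 12) nil nil)) (node (nat_lit 5) (nat_lit 44397) (nat_lit 11) (node (nat_lit 4) (nat_lit
  44397) (nat_lit 12) (node (nat_lit 5) (nat_lit 44548) (nat_lit 13) (node (nat_lit 6) (nat_lit
  44548) (nat_lit 14) nil nil) nil) nil) nil)) (node (nat_lit 6) (nat_lit 43423) (nat_lit 10)
  (node (nat_lit 4) (nat_lit 43423) (nat_lit 11) (node (nat_lit 5) (nat_lit 44364) (nat_lit 12)
  (node (nat_lit 6) (nat_lit 41870) (nat_lit 13) (node (nat_lit 5) (nat_lit 37713) (nat_lit 14)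
  (node (nat_lit 4) (nat_lit 30792) (nat_lit 15) nil nil) nil) nil) nil) (node (nat_lit 5)
  (nat_lit 44397) (nat_lit 11) (node (nat_lit 4) (nat_lit 44397) (nat_lit 12) nil nil) (node
  (nat_lit 11) (nat_lit 43423) (nat_lit 11) nil nil))) (node (nat_lit 5) (nat_lit 45643) (nat_lit
  10) nil nil))) (node (nat_lit 5) (nat_lit 46008) (nat_lit 9) (node (nat_lit 11) (nat_lit 46008)
  (nat_lit 10) (node (nat_lit 6) (nat_lit 46008) (nat_lit 11) (node (nat_lit 5) (nat_lit 46341)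
  (nat_lit 12) nil (node (nat_lit 4) (nat_lit 46008) (nat_lit 12) nil nil)) nil) (node (nat_lit 6)
  (nat_lit 46008) (nat_lit 10) (node (nat_lit 5) (nat_lit 46256) (nat_lit 11) (node (nat_lit 4)
  (nat_lit 46256) (nat_lit 12) nil nil) (node (nat_lit 4) (nat_lit 46008) (nat_lit 11) (node
  (nat_lit 5) (nat_lit 46341) (nat_lit 12) nil nil) nil)) (node (nat_lit 4) (nat_lit 46008)
  (nat_lit 10) (node (nat_lit 5) (nat_lit 46256) (nat_lit 11) (node (nat_lit 6) (nat_lit 46256)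
  (nat_lit 12) (node (nat_lit 5) (nat_lit 46407) (nat_lit 13) nil nil) nil) (node (nat_lit 6)
  (nat_lit 46008) (nat_lit 11) nil nil)) nil))) (node (nat_lit 6) (nat_lit 0) (nat_lit 9) (node
  (nat_lit 5) (nat_lit 45643) (nat_lit 10) (node (nat_lit 4) (nat_lit 45643) (nat_lit 11) (node
  (nat_lit 5) (nat_lit 45837) (nat_lit 12) (node (nat_lit 6) (nat_lit 45837) (nat_lit 13) nil nil)
  nil) (node (nat_lit 6) (nat_lit 45643) (nat_lit 11) (node (nat_lit 4) (nat_lit 45643) (nat_lit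
  12) nil nil) nil)) (node (nat_lit 4) (nat_lit 43423) (nat_lit 10) (node (nat_lit 5) (nat_lit
  44397) (nat_lit 11) (node (nat_lit 6) (nat_lit 44397) (nat_lit 12) (node (nat_lit 5) (nat_lit
  39723) (nat_lit 13) nil nil) nil) nil) (node (nat_lit 0) (nat_lit 45643) (nat_lit 10) nil nil)))
  (node (nat_lit 0) (nat_lit 46008) (nat_lit 9) (node (nat_lit 11) (nat_lit 46008) (nat_lit 10)
  (node (nat_lit 6) (nat_lit 46008) (nat_lit 11) nil nil) (node (nat_lit 6) (nat_lit 46008)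
  (nat_lit 10) (node (nat_lit 4) (nat_lit 46008) (nat_lit 11) nil (node (nat_lit 5) (nat_lit
  46256) (nat_lit 11) nil nil)) (node (nat_lit 5) (nat_lit 46147) (nat_lit 10) nil nil))) nil))))
  nil))) (node (nat_lit 0) (nat_lit 0) (nat_lit 7) (node (nat_lit 4) (nat_lit 64675) (nat_lit 8)
  (node (nat_lit 10) (nat_lit 64675) (nat_lit 9) (node (nat_lit 6) (nat_lit 64675) (nat_lit 10)
  (node (nat_lit 4) (nat_lit 64675) (nat_lit 11) nil nil) nil) (node (nat_lit 6) (nat_lit 64675)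
  (nat_lit 9) nil nil)) (node (nat_lit 6) (nat_lit 64675) (nat_lit 8) (node (nat_lit 5) (nat_lit
  64675) (nat_lit 9) (node (nat_lit 4) (nat_lit 64675) (nat_lit 10) (node (nat_lit 5) (nat_lit
  64675) (nat_lit 11) (node (nat_lit 6) (nat_lit 64675) (nat_lit 12) nil nil) nil) nil) (node
  (nat_lit 4) (nat_lit 64675) (nat_lit 9) (node (nat_lit 5) (nat_lit 64675) (nat_lit 10) (node
  (nat_lit 6) (nat_lit 64675) (nat_lit 11) nil nil) nil) nil)) (node (nat_lit 5) (nat_lit 64675)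
  (nat_lit 8) (node (nat_lit 6) (nat_lit 64675) (nat_lit 9) (node (nat_lit 4) (nat_lit 64675)
  (nat_lit 10) (node (nat_lit 5) (nat_lit 64675) (nat_lit 11) nil nil) nil) (node (nat_lit 4)
  (nat_lit 64675) (nat_lit 9) (node (nat_lit 5) (nat_lit 64675) (nat_lit 10) (node (nat_lit 6)
  (nat_lit 64675) (nat_lit 11) (node (nat_lit 5) (nat_lit 64675) (nat_lit 12) (node (nat_lit 4)
  (nat_lit 64675) (nat_lit 13) nil nil) nil) nil) nil) nil)) (node (nat_lit 0) (nat_lit 64675)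
  (nat_lit 8) (node (nat_lit 6) (nat_lit 64675) (nat_lit 9) nil (node (nat_lit 5) (nat_lit 64675)
  (nat_lit 9) nil nil)) (node (nat_lit 2) (nat_lit 64675) (nat_lit 8) (node (nat_lit 6) (nat_lit
  64675) (nat_lit 9) nil (node (nat_lit 5) (nat_lit 64675) (nat_lit 9) nil nil)) nil))))) (node
  (nat_lit 2) (nat_lit 0) (nat_lit 7) (node (nat_lit 4) (nat_lit 64675) (nat_lit 8) (node (nat_lit
  10) (nat_lit 64675) (nat_lit 9) (node (nat_lit 6) (nat_lit 64675) (nat_lit 10) (node (nat_lit 4)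
  (nat_lit 64675) (nat_lit 11) nil nil) nil) (node (nat_lit 6) (nat_lit 64675) (nat_lit 9) nil
  nil)) (node (nat_lit 6) (nat_lit 64675) (nat_lit 8) (node (nat_lit 5) (nat_lit 64675) (nat_lit
  9) (node (nat_lit 4) (nat_lit 64675) (nat_lit 10) (node (nat_lit 5) (nat_lit 64675) (nat_lit 11)
  (node (nat_lit 6) (nat_lit 64675) (nat_lit 12) nil nil) nil) nil) (node (nat_lit 4) (nat_lit
  64675) (nat_lit 9) (node (nat_lit 5) (nat_lit 64675) (nat_lit 10) (node (nat_lit 6) (nat_lit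
  54141) (nat_lit 11) (node (nat_lit 5) (nat_lit 34369) (nat_lit 12) nil nil) nil) nil) nil))
  (node (nat_lit 5) (nat_lit 64675) (nat_lit 8) (node (nat_lit 6) (nat_lit 64675) (nat_lit 9)
  (node (nat_lit 4) (nat_lit 64675) (nat_lit 10) (node (nat_lit 5) (nat_lit 64675) (nat_lit 11)
  nil nil) nil) (node (nat_lit 4) (nat_lit 64675) (nat_lit 9) (node (nat_lit 5) (nat_lit 64675)
  (nat_lit 10) (node (nat_lit 6) (nat_lit 64675) (nat_lit 11) (node (nat_lit 5) (nat_lit 60272)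
  (nat_lit 12) (node (nat_lit 4) (nat_lit 47106) (nat_lit 13) nil nil) nil) nil) nil) nil)) (node
  (nat_lit 0) (nat_lit 64675) (nat_lit 8) (node (nat_lit 6) (nat_lit 64675) (nat_lit 9) nil (node
  (nat_lit 5) (nat_lit 64675) (nat_lit 9) nil nil)) nil)))) nil))) nil))

noncomputable def t274 : Tr :=
  (node (nat_lit 5) (nat_lit 0) (nat_lit 5) (node (nat_lit 7) (nat_lit 0) (nat_lit 6) (node
  (nat_lit 4) (nat_lit 0) (nat_lit 7) (node (nat_lit 5) (nat_lit 44521) (nat_lit 8) (node (nat_lit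
  4) (nat_lit 44521) (nat_lit 9) nil nil) (node (nat_lit 7) (nat_lit 0) (nat_lit 8) (node (nat_lit
  0) (nat_lit 41753) (nat_lit 9) nil (node (nat_lit 5) (nat_lit 43495) (nat_lit 9) nil (node
  (nat_lit 2) (nat_lit 39527) (nat_lit 9) nil nil))) (node (nat_lit 0) (nat_lit 43734) (nat_lit 8)
  nil (node (nat_lit 2) (nat_lit 41103) (nat_lit 8) (node (nat_lit 7) (nat_lit 40670) (nat_lit 9)
  nil nil) nil)))) (node (nat_lit 0) (nat_lit 44067) (nat_lit 7) (node (nat_lit 7) (nat_lit 44067)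
  (nat_lit 8) (node (nat_lit 4) (nat_lit 44067) (nat_lit 9) (node (nat_lit 5) (nat_lit 44603)
  (nat_lit 10) (node (nat_lit 4) (nat_lit 44603) (nat_lit 11) (node (nat_lit 7) (nat_lit 44603)
  (nat_lit 12) nil nil) nil) nil) nil) nil) (node (nat_lit 2) (nat_lit 40874) (nat_lit 7) (node
  (nat_lit 4) (nat_lit 40874) (nat_lit 8) nil (node (nat_lit 7) (nat_lit 41523) (nat_lit 8) (node
  (nat_lit 4) (nat_lit 41523) (nat_lit 9) (node (nat_lit 5) (nat_lit 40941) (nat_lit 10) (node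
  (nat_lit 4) (nat_lit 28708) (nat_lit 11) nil nil) nil) nil) nil)) nil))) (node (nat_lit 4)
  (nat_lit 0) (nat_lit 6) (node (nat_lit 5) (nat_lit 0) (nat_lit 7) (node (nat_lit 7) (nat_lit 0)
  (nat_lit 8) (node (nat_lit 5) (nat_lit 0) (nat_lit 9) (node (nat_lit 0) (nat_lit 46542) (nat_lit
  10) (node (nat_lit 7) (nat_lit 46542) (nat_lit 11) (node (nat_lit 5) (nat_lit 46943) (nat_lit
  12) (node (nat_lit 7) (nat_lit 46943) (nat_lit 13) nil nil) (node (nat_lit 4) (nat_lit 46542)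
  (nat_lit 12) nil nil)) (node (nat_lit 5) (nat_lit 46767) (nat_lit 11) (node (nat_lit 7) (nat_lit
  46767) (nat_lit 12) nil nil) nil)) (node (nat_lit 2) (nat_lit 46030) (nat_lit 10) (node (nat_lit
  7) (nat_lit 46030) (nat_lit 11) (node (nat_lit 5) (nat_lit 46718) (nat_lit 12) (node (nat_lit 7)
  (nat_lit 46718) (nat_lit 13) nil nil) (node (nat_lit 4) (nat_lit 46030) (nat_lit 12) nil nil))
  (node (nat_lit 5) (nat_lit 46874) (nat_lit 11) (node (nat_lit 7) (nat_lit 46874) (nat_lit 12)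
  nil nil) nil)) nil)) (node (nat_lit 4) (nat_lit 0) (nat_lit 9) (node (nat_lit 0) (nat_lit 46431)
  (nat_lit 10) (node (nat_lit 7) (nat_lit 46431) (nat_lit 11) (node (nat_lit 4) (nat_lit 46431)
  (nat_lit 12) (node (nat_lit 5) (nat_lit 46968) (nat_lit 13) (node (nat_lit 4) (nat_lit 46968)
  (nat_lit 14) nil nil) nil) nil) nil) (node (nat_lit 2) (nat_lit 43850) (nat_lit 10) (node
  (nat_lit 7) (nat_lit 43850) (nat_lit 11) (node (nat_lit 4) (nat_lit 43850) (nat_lit 12) (node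
  (nat_lit 5) (nat_lit 45517) (nat_lit 13) (node (nat_lit 4) (nat_lit 45517) (nat_lit 14) nil nil)
  (node (nat_lit 7) (nat_lit 43850) (nat_lit 13) nil nil)) nil) (node (nat_lit 4) (nat_lit 43850)
  (nat_lit 11) (node (nat_lit 7) (nat_lit 43850) (nat_lit 12) nil nil) (node (nat_lit 5) (nat_lit
  46262) (nat_lit 11) nil nil))) (node (nat_lit 5) (nat_lit 46615) (nat_lit 10) (node (nat_lit 4)
  (nat_lit 46615) (nat_lit 11) (node (nat_lit 7) (nat_lit 46615) (nat_lit 12) nil nil) nil) nil)))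
  (node (nat_lit 0) (nat_lit 45773) (nat_lit 9) (node (nat_lit 7) (nat_lit 45773) (nat_lit 10)
  (node (nat_lit 4) (nat_lit 45773) (nat_lit 11) (node (nat_lit 5) (nat_lit 46462) (nat_lit 12)
  (node (nat_lit 4) (nat_lit 46462) (nat_lit 13) (node (nat_lit 7) (nat_lit 46462) (nat_lit 14)
  nil nil) nil) nil) nil) (node (nat_lit 4) (nat_lit 45773) (nat_lit 10) (node (nat_lit 7)
  (nat_lit 45773) (nat_lit 11) nil nil) (node (nat_lit 5) (nat_lit 46286) (nat_lit 10) (node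
  (nat_lit 7) (nat_lit 46286) (nat_lit 11) nil nil) nil))) (node (nat_lit 2) (nat_lit 0) (nat_lit
  9) (node (nat_lit 7) (nat_lit 0) (nat_lit 10) (node (nat_lit 4) (nat_lit 43850) (nat_lit 11)
  (node (nat_lit 5) (nat_lit 45380) (nat_lit 12) (node (nat_lit 4) (nat_lit 45380) (nat_lit 13)
  (node (nat_lit 7) (nat_lit 42523) (nat_lit 14) (node (nat_lit 5) (nat_lit 23852) (nat_lit 15)
  nil nil) nil) nil) nil) (node (nat_lit 5) (nat_lit 45204) (nat_lit 11) (node (nat_lit 7)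
  (nat_lit 45204) (nat_lit 12) nil nil) (node (nat_lit 0) (nat_lit 45204) (nat_lit 11) nil nil)))
  (node (nat_lit 4) (nat_lit 43850) (nat_lit 10) (node (nat_lit 7) (nat_lit 43850) (nat_lit 11)
  nil nil) (node (nat_lit 5) (nat_lit 45862) (nat_lit 10) (node (nat_lit 7) (nat_lit 45862)
  (nat_lit 11) nil nil) (node (nat_lit 0) (nat_lit 45862) (nat_lit 10) (node (nat_lit 7) (nat_lit
  45862) (nat_lit 11) nil nil) nil)))) nil)))) (node (nat_lit 0) (nat_lit 0) (nat_lit 8) (node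
  (nat_lit 7) (nat_lit 46012) (nat_lit 9) (node (nat_lit 11) (nat_lit 46319) (nat_lit 10) nil
  (node (nat_lit 4) (nat_lit 46012) (nat_lit 10) (node (nat_lit 5) (nat_lit 46424) (nat_lit 11)
  (node (nat_lit 4) (nat_lit 46424) (nat_lit 12) (node (nat_lit 7) (nat_lit 46424) (nat_lit 13)
  (node (nat_lit 5) (nat_lit 46620) (nat_lit 14) nil nil) nil) nil) nil) (node (nat_lit 5)
  (nat_lit 46319) (nat_lit 10) (node (nat_lit 7) (nat_lit 46319) (nat_lit 11) (node (nat_lit 4)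
  (nat_lit 46319) (nat_lit 12) nil nil) nil) nil))) (node (nat_lit 4) (nat_lit 46012) (nat_lit 9)
  (node (nat_lit 11) (nat_lit 46319) (nat_lit 10) (node (nat_lit 7) (nat_lit 46319) (nat_lit 11)
  (node (nat_lit 4) (nat_lit 46319) (nat_lit 12) (node (nat_lit 5) (nat_lit 46570) (nat_lit 13)
  nil nil) nil) nil) (node (nat_lit 7) (nat_lit 46012) (nat_lit 10) (node (nat_lit 4) (nat_lit
  46012) (nat_lit 11) (node (nat_lit 5) (nat_lit 46506) (nat_lit 12) nil nil) nil) (node (nat_lit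
  5) (nat_lit 46319) (nat_lit 10) (node (nat_lit 7) (nat_lit 46319) (nat_lit 11) nil nil) nil)))
  (node (nat_lit 5) (nat_lit 46472) (nat_lit 9) (node (nat_lit 4) (nat_lit 46472) (nat_lit 10)
  (node (nat_lit 7) (nat_lit 46472) (nat_lit 11) (node (nat_lit 4) (nat_lit 46472) (nat_lit 12)
  nil nil) nil) (node (nat_lit 7) (nat_lit 46472) (nat_lit 10) (node (nat_lit 4) (nat_lit 46472)
  (nat_lit 11) (node (nat_lit 5) (nat_lit 46794) (nat_lit 12) nil nil) nil) nil)) (node (nat_lit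
  2) (nat_lit 46012) (nat_lit 9) (node (nat_lit 5) (nat_lit 46319) (nat_lit 10) (node (nat_lit 7)
  (nat_lit 46319) (nat_lit 11) nil nil) (node (nat_lit 7) (nat_lit 46012) (nat_lit 10) nil nil))
  (node (nat_lit 0) (nat_lit 46184) (nat_lit 9) (node (nat_lit 5) (nat_lit 46319) (nat_lit 10)
  (node (nat_lit 7) (nat_lit 46319) (nat_lit 11) nil nil) (node (nat_lit 7) (nat_lit 46184)
  (nat_lit 10) nil nil)) nil))))) (node (nat_lit 2) (nat_lit 0) (nat_lit 8) (node (nat_lit 7)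
  (nat_lit 44989) (nat_lit 9) (node (nat_lit 11) (nat_lit 44989) (nat_lit 10) (node (nat_lit 5)
  (nat_lit 45630) (nat_lit 11) nil (node (nat_lit 4) (nat_lit 44989) (nat_lit 11) (node (nat_lit
  7) (nat_lit 44989) (nat_lit 12) (node (nat_lit 4) (nat_lit 44989) (nat_lit 13) nil nil) nil)
  nil)) (node (nat_lit 4) (nat_lit 44989) (nat_lit 10) (node (nat_lit 5) (nat_lit 45630) (nat_lit
  11) (node (nat_lit 4) (nat_lit 45630) (nat_lit 12) (node (nat_lit 7) (nat_lit 39730) (nat_lit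
  13) (node (nat_lit 5) (nat_lit 12414) (nat_lit 14) nil nil) nil) nil) nil) (node (nat_lit 5)
  (nat_lit 45525) (nat_lit 10) (node (nat_lit 7) (nat_lit 45525) (nat_lit 11) (node (nat_lit 4)
  (nat_lit 45525) (nat_lit 12) (node (nat_lit 5) (nat_lit 45776) (nat_lit 13) nil nil) nil) nil)
  nil))) (node (nat_lit 4) (nat_lit 44989) (nat_lit 9) (node (nat_lit 11) (nat_lit 44989) (nat_lit
  10) (node (nat_lit 7) (nat_lit 44989) (nat_lit 11) (node (nat_lit 4) (nat_lit 44989) (nat_lit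
  12) (node (nat_lit 5) (nat_lit 45776) (nat_lit 13) nil nil) nil) nil) (node (nat_lit 7) (nat_lit
  44989) (nat_lit 10) (node (nat_lit 4) (nat_lit 44989) (nat_lit 11) (node (nat_lit 5) (nat_lit
  45713) (nat_lit 12) nil nil) nil) (node (nat_lit 5) (nat_lit 45525) (nat_lit 10) (node (nat_lit
  7) (nat_lit 45525) (nat_lit 11) nil nil) nil))) (node (nat_lit 5) (nat_lit 46048) (nat_lit 9)
  (node (nat_lit 4) (nat_lit 46048) (nat_lit 10) (node (nat_lit 7) (nat_lit 46048) (nat_lit 11)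
  (node (nat_lit 4) (nat_lit 46048) (nat_lit 12) nil nil) nil) (node (nat_lit 7) (nat_lit 46048)
  (nat_lit 10) (node (nat_lit 4) (nat_lit 46048) (nat_lit 11) (node (nat_lit 5) (nat_lit 46370)
  (nat_lit 12) nil nil) nil) nil)) (node (nat_lit 0) (nat_lit 46048) (nat_lit 9) (node (nat_lit 5)
  (nat_lit 46182) (nat_lit 10) (node (nat_lit 7) (nat_lit 46182) (nat_lit 11) nil nil) (node
  (nat_lit 7) (nat_lit 46048) (nat_lit 10) nil nil)) nil)))) nil))) (node (nat_lit 0) (nat_lit 0)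
  (nat_lit 7) (node (nat_lit 5) (nat_lit 46147) (nat_lit 8) (node (nat_lit 10) (nat_lit 46527)
  (nat_lit 9) (node (nat_lit 7) (nat_lit 46527) (nat_lit 10) (node (nat_lit 4) (nat_lit 46527)
  (nat_lit 11) nil nil) nil) (node (nat_lit 7) (nat_lit 46147) (nat_lit 9) (node (nat_lit 4)
  (nat_lit 46147) (nat_lit 10) (node (nat_lit 5) (nat_lit 46559) (nat_lit 11) (node (nat_lit 4)
  (nat_lit 46559) (nat_lit 12) (node (nat_lit 7) (nat_lit 46559) (nat_lit 13) (node (nat_lit 5)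
  (nat_lit 46755) (nat_lit 14) nil nil) nil) nil) nil) nil) (node (nat_lit 4) (nat_lit 46147)
  (nat_lit 9) (node (nat_lit 7) (nat_lit 46147) (nat_lit 10) (node (nat_lit 4) (nat_lit 46147)
  (nat_lit 11) (node (nat_lit 5) (nat_lit 46642) (nat_lit 12) nil nil) nil) nil) nil))) (node
  (nat_lit 7) (nat_lit 45415) (nat_lit 8) (node (nat_lit 10) (nat_lit 45817) (nat_lit 9) (node
  (nat_lit 5) (nat_lit 45951) (nat_lit 10) (node (nat_lit 7) (nat_lit 45951) (nat_lit 11) nil nil)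
  nil) (node (nat_lit 4) (nat_lit 45415) (nat_lit 9) (node (nat_lit 5) (nat_lit 45951) (nat_lit
  10) (node (nat_lit 4) (nat_lit 45951) (nat_lit 11) (node (nat_lit 7) (nat_lit 45951) (nat_lit
  12) nil nil) nil) nil) (node (nat_lit 5) (nat_lit 45817) (nat_lit 9) (node (nat_lit 7) (nat_lit
  45817) (nat_lit 10) (node (nat_lit 4) (nat_lit 45817) (nat_lit 11) nil nil) nil) nil))) (node
  (nat_lit 4) (nat_lit 45415) (nat_lit 8) (node (nat_lit 7) (nat_lit 45415) (nat_lit 9) (node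
  (nat_lit 4) (nat_lit 45415) (nat_lit 10) (node (nat_lit 5) (nat_lit 46056) (nat_lit 11) nil nil)
  nil) (node (nat_lit 5) (nat_lit 46289) (nat_lit 9) (node (nat_lit 7) (nat_lit 46289) (nat_lit
  10) (node (nat_lit 4) (nat_lit 46289) (nat_lit 11) nil nil) nil) nil)) (node (nat_lit 0)
  (nat_lit 46066) (nat_lit 8) (node (nat_lit 7) (nat_lit 46066) (nat_lit 9) (node (nat_lit 4)
  (nat_lit 46066) (nat_lit 10) nil nil) (node (nat_lit 5) (nat_lit 46238) (nat_lit 9) (node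
  (nat_lit 7) (nat_lit 46238) (nat_lit 10) nil nil) (node (nat_lit 4) (nat_lit 46066) (nat_lit 9)
  (node (nat_lit 7) (nat_lit 46066) (nat_lit 10) nil nil) nil))) (node (nat_lit 2) (nat_lit 45415)
  (nat_lit 8) (node (nat_lit 7) (nat_lit 45415) (nat_lit 9) (node (nat_lit 4) (nat_lit 45415)
  (nat_lit 10) nil nil) (node (nat_lit 4) (nat_lit 45415) (nat_lit 9) (node (nat_lit 7) (nat_lit
  45415) (nat_lit 10) nil nil) (node (nat_lit 5) (nat_lit 45817) (nat_lit 9) (node (nat_lit 7)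
  (nat_lit 45817) (nat_lit 10) nil nil) nil))) nil))))) (node (nat_lit 2) (nat_lit 0) (nat_lit 7)
  (node (nat_lit 5) (nat_lit 45786) (nat_lit 8) (node (nat_lit 10) (nat_lit 45786) (nat_lit 9)
  (node (nat_lit 7) (nat_lit 45786) (nat_lit 10) (node (nat_lit 4) (nat_lit 45786) (nat_lit 11)
  (node (nat_lit 5) (nat_lit 46281) (nat_lit 12) nil nil) nil) nil) (node (nat_lit 7) (nat_lit
  45786) (nat_lit 9) (node (nat_lit 4) (nat_lit 45786) (nat_lit 10) (node (nat_lit 5) (nat_lit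
  46198) (nat_lit 11) (node (nat_lit 4) (nat_lit 46198) (nat_lit 12) (node (nat_lit 7) (nat_lit
  46198) (nat_lit 13) (node (nat_lit 5) (nat_lit 46394) (nat_lit 14) nil nil) nil) nil) nil) nil)
  (node (nat_lit 4) (nat_lit 45786) (nat_lit 9) (node (nat_lit 7) (nat_lit 45786) (nat_lit 10)
  (node (nat_lit 4) (nat_lit 45786) (nat_lit 11) (node (nat_lit 5) (nat_lit 46281) (nat_lit 12)
  nil nil) nil) nil) nil))) (node (nat_lit 7) (nat_lit 0) (nat_lit 8) (node (nat_lit 10) (nat_lit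
  42104) (nat_lit 9) (node (nat_lit 4) (nat_lit 42104) (nat_lit 10) (node (nat_lit 7) (nat_lit
  42104) (nat_lit 11) nil (node (nat_lit 5) (nat_lit 43461) (nat_lit 11) nil nil)) (node (nat_lit
  5) (nat_lit 44779) (nat_lit 10) (node (nat_lit 7) (nat_lit 44779) (nat_lit 11) nil nil) nil))
  (node (nat_lit 4) (nat_lit 42104) (nat_lit 9) (node (nat_lit 5) (nat_lit 43356) (nat_lit 10)
  (node (nat_lit 4) (nat_lit 34667) (nat_lit 11) (node (nat_lit 7) (nat_lit 27246) (nat_lit 12)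
  nil nil) nil) nil) (node (nat_lit 5) (nat_lit 45466) (nat_lit 9) (node (nat_lit 7) (nat_lit
  45466) (nat_lit 10) (node (nat_lit 4) (nat_lit 45466) (nat_lit 11) nil nil) nil) (node (nat_lit
  0) (nat_lit 44483) (nat_lit 9) nil nil)))) (node (nat_lit 4) (nat_lit 42104) (nat_lit 8) (node
  (nat_lit 7) (nat_lit 42104) (nat_lit 9) (node (nat_lit 4) (nat_lit 42104) (nat_lit 10) (node
  (nat_lit 5) (nat_lit 43461) (nat_lit 11) (node (nat_lit 4) (nat_lit 32536) (nat_lit 12) (node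
  (nat_lit 7) (nat_lit 26042) (nat_lit 13) (node (nat_lit 5) (nat_lit 19336) (nat_lit 14) nil nil)
  nil) nil) nil) (node (nat_lit 5) (nat_lit 44657) (nat_lit 10) nil nil)) (node (nat_lit 5)
  (nat_lit 46052) (nat_lit 9) (node (nat_lit 7) (nat_lit 46052) (nat_lit 10) (node (nat_lit 4)
  (nat_lit 46052) (nat_lit 11) nil nil) nil) nil)) (node (nat_lit 0) (nat_lit 45786) (nat_lit 8)
  (node (nat_lit 7) (nat_lit 45786) (nat_lit 9) (node (nat_lit 4) (nat_lit 45786) (nat_lit 10) nil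
  nil) (node (nat_lit 4) (nat_lit 45786) (nat_lit 9) (node (nat_lit 7) (nat_lit 45786) (nat_lit
  10) nil nil) (node (nat_lit 5) (nat_lit 45959) (nat_lit 9) (node (nat_lit 7) (nat_lit 45959)
  (nat_lit 10) nil nil) nil))) nil)))) nil))) nil)) (node (nat_lit 4) (nat_lit 0) (nat_lit 5)
  (node (nat_lit 5) (nat_lit 0) (nat_lit 6) (node (nat_lit 7) (nat_lit 0) (nat_lit 7) (node
  (nat_lit 4) (nat_lit 0) (nat_lit 8) (node (nat_lit 7) (nat_lit 0) (nat_lit 9) (node (nat_lit 0)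
  (nat_lit 25570) (nat_lit 10) nil (node (nat_lit 2) (nat_lit 23058) (nat_lit 10) nil nil)) (node
  (nat_lit 0) (nat_lit 24076) (nat_lit 9) (node (nat_lit 4) (nat_lit 22890) (nat_lit 10) (node
  (nat_lit 7) (nat_lit 24082) (nat_lit 11) nil nil) (node (nat_lit 7) (nat_lit 25570) (nat_lit 10)
  (node (nat_lit 4) (nat_lit 25657) (nat_lit 11) nil nil) nil)) (node (nat_lit 2) (nat_lit 22821)
  (nat_lit 9) (node (nat_lit 4) (nat_lit 21925) (nat_lit 10) (node (nat_lit 7) (nat_lit 22828)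
  (nat_lit 11) (node (nat_lit 4) (nat_lit 22511) (nat_lit 12) nil nil) (node (nat_lit 5) (nat_lit
  22808) (nat_lit 11) (node (nat_lit 7) (nat_lit 23495) (nat_lit 12) nil nil) nil)) (node (nat_lit
  7) (nat_lit 23891) (nat_lit 10) (node (nat_lit 4) (nat_lit 23538) (nat_lit 11) nil nil) (node
  (nat_lit 5) (nat_lit 23952) (nat_lit 10) (node (nat_lit 7) (nat_lit 24835) (nat_lit 11) nil nil)
  nil))) nil))) (node (nat_lit 5) (nat_lit 0) (nat_lit 8) (node (nat_lit 4) (nat_lit 0) (nat_lit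
  9) (node (nat_lit 0) (nat_lit 25570) (nat_lit 10) (node (nat_lit 5) (nat_lit 26428) (nat_lit 11)
  nil (node (nat_lit 7) (nat_lit 26110) (nat_lit 11) (node (nat_lit 4) (nat_lit 26110) (nat_lit
  12) nil nil) nil)) (node (nat_lit 2) (nat_lit 24410) (nat_lit 10) (node (nat_lit 5) (nat_lit
  25292) (nat_lit 11) (node (nat_lit 4) (nat_lit 24718) (nat_lit 12) (node (nat_lit 7) (nat_lit
  25123) (nat_lit 13) nil nil) nil) (node (nat_lit 7) (nat_lit 23921) (nat_lit 11) (node (nat_lit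
  4) (nat_lit 23667) (nat_lit 12) nil nil) (node (nat_lit 4) (nat_lit 23666) (nat_lit 11) nil
  nil))) (node (nat_lit 7) (nat_lit 25254) (nat_lit 10) (node (nat_lit 5) (nat_lit 26737) (nat_lit
  11) (node (nat_lit 7) (nat_lit 27300) (nat_lit 12) (node (nat_lit 4) (nat_lit 27300) (nat_lit
  13) nil nil) nil) (node (nat_lit 4) (nat_lit 25591) (nat_lit 11) (node (nat_lit 5) (nat_lit
  27089) (nat_lit 12) nil nil) nil)) (node (nat_lit 5) (nat_lit 25570) (nat_lit 10) nil nil))))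
  (node (nat_lit 0) (nat_lit 24076) (nat_lit 9) (node (nat_lit 5) (nat_lit 25570) (nat_lit 10) nil
  (node (nat_lit 7) (nat_lit 25570) (nat_lit 10) (node (nat_lit 4) (nat_lit 25574) (nat_lit 11)
  (node (nat_lit 5) (nat_lit 26549) (nat_lit 12) nil nil) nil) (node (nat_lit 4) (nat_lit 22890)
  (nat_lit 10) nil nil))) (node (nat_lit 2) (nat_lit 22821) (nat_lit 9) (node (nat_lit 5) (nat_lit
  23952) (nat_lit 10) (node (nat_lit 7) (nat_lit 24835) (nat_lit 11) (node (nat_lit 4) (nat_lit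
  25523) (nat_lit 12) nil nil) nil) (node (nat_lit 7) (nat_lit 23891) (nat_lit 10) (node (nat_lit
  4) (nat_lit 23538) (nat_lit 11) (node (nat_lit 5) (nat_lit 23303) (nat_lit 12) nil nil) nil)
  (node (nat_lit 4) (nat_lit 21925) (nat_lit 10) (node (nat_lit 5) (nat_lit 22808) (nat_lit 11)
  nil nil) nil))) nil))) (node (nat_lit 0) (nat_lit 26275) (nat_lit 8) (node (nat_lit 4) (nat_lit
  24454) (nat_lit 9) (node (nat_lit 7) (nat_lit 24500) (nat_lit 10) nil nil) (node (nat_lit 7)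
  (nat_lit 26275) (nat_lit 9) (node (nat_lit 4) (nat_lit 26275) (nat_lit 10) (node (nat_lit 5)
  (nat_lit 26952) (nat_lit 11) nil nil) nil) nil)) (node (nat_lit 2) (nat_lit 0) (nat_lit 8) (node
  (nat_lit 4) (nat_lit 22439) (nat_lit 9) (node (nat_lit 11) (nat_lit 21922) (nat_lit 10) (node
  (nat_lit 7) (nat_lit 22326) (nat_lit 11) (node (nat_lit 4) (nat_lit 21797) (nat_lit 12) nil nil)
  nil) (node (nat_lit 7) (nat_lit 23324) (nat_lit 10) (node (nat_lit 4) (nat_lit 23368) (nat_lit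
  11) (node (nat_lit 5) (nat_lit 22463) (nat_lit 12) (node (nat_lit 4) (nat_lit 18396) (nat_lit
  13) nil nil) nil) nil) nil)) (node (nat_lit 5) (nat_lit 25903) (nat_lit 9) (node (nat_lit 7)
  (nat_lit 25903) (nat_lit 10) (node (nat_lit 4) (nat_lit 25903) (nat_lit 11) nil nil) nil) (node
  (nat_lit 7) (nat_lit 23514) (nat_lit 9) (node (nat_lit 4) (nat_lit 24399) (nat_lit 10) (node
  (nat_lit 5) (nat_lit 22235) (nat_lit 11) (node (nat_lit 4) (nat_lit 17101) (nat_lit 12) nil nil)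
  nil) nil) (node (nat_lit 0) (nat_lit 25170) (nat_lit 9) (node (nat_lit 7) (nat_lit 25170)
  (nat_lit 10) nil nil) nil)))) nil)))) (node (nat_lit 0) (nat_lit 0) (nat_lit 7) (node (nat_lit
  4) (nat_lit 25577) (nat_lit 8) (node (nat_lit 7) (nat_lit 25577) (nat_lit 9) (node (nat_lit 4)
  (nat_lit 23682) (nat_lit 10) (node (nat_lit 5) (nat_lit 22142) (nat_lit 11) nil nil) nil) (node
  (nat_lit 10) (nat_lit 26679) (nat_lit 9) (node (nat_lit 7) (nat_lit 26679) (nat_lit 10) (node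
  (nat_lit 4) (nat_lit 26679) (nat_lit 11) nil nil) nil) nil)) (node (nat_lit 7) (nat_lit 25577)
  (nat_lit 8) (node (nat_lit 4) (nat_lit 25577) (nat_lit 9) (node (nat_lit 5) (nat_lit 26838)
  (nat_lit 10) (node (nat_lit 4) (nat_lit 26533) (nat_lit 11) nil nil) nil) nil) (node (nat_lit 5)
  (nat_lit 26694) (nat_lit 8) (node (nat_lit 7) (nat_lit 26694) (nat_lit 9) (node (nat_lit 4)
  (nat_lit 26694) (nat_lit 10) (node (nat_lit 5) (nat_lit 27371) (nat_lit 11) (node (nat_lit 4)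
  (nat_lit 27371) (nat_lit 12) (node (nat_lit 7) (nat_lit 27371) (nat_lit 13) nil nil) nil) nil)
  nil) nil) (node (nat_lit 0) (nat_lit 26388) (nat_lit 8) (node (nat_lit 7) (nat_lit 26531)
  (nat_lit 9) (node (nat_lit 4) (nat_lit 26531) (nat_lit 10) nil nil) (node (nat_lit 5) (nat_lit
  26907) (nat_lit 9) nil nil)) (node (nat_lit 2) (nat_lit 24125) (nat_lit 8) (node (nat_lit 4)
  (nat_lit 22875) (nat_lit 9) (node (nat_lit 7) (nat_lit 22936) (nat_lit 10) nil nil) (node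
  (nat_lit 7) (nat_lit 22781) (nat_lit 9) (node (nat_lit 4) (nat_lit 21330) (nat_lit 10) nil nil)
  (node (nat_lit 5) (nat_lit 25041) (nat_lit 9) (node (nat_lit 7) (nat_lit 25482) (nat_lit 10) nil
  nil) nil))) nil))))) (node (nat_lit 2) (nat_lit 0) (nat_lit 7) (node (nat_lit 4) (nat_lit 24484)
  (nat_lit 8) (node (nat_lit 5) (nat_lit 27204) (nat_lit 9) nil (node (nat_lit 7) (nat_lit 24484)
  (nat_lit 9) (node (nat_lit 4) (nat_lit 25369) (nat_lit 10) (node (nat_lit 5) (nat_lit 22142)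
  (nat_lit 11) nil nil) nil) (node (nat_lit 10) (nat_lit 24484) (nat_lit 9) (node (nat_lit 7)
  (nat_lit 25369) (nat_lit 10) (node (nat_lit 4) (nat_lit 23580) (nat_lit 11) nil nil) nil) nil)))
  (node (nat_lit 7) (nat_lit 24361) (nat_lit 8) (node (nat_lit 4) (nat_lit 24361) (nat_lit 9)
  (node (nat_lit 5) (nat_lit 22691) (nat_lit 10) (node (nat_lit 4) (nat_lit 4677) (nat_lit 11) nil
  nil) nil) (node (nat_lit 10) (nat_lit 24361) (nat_lit 9) nil (node (nat_lit 5) (nat_lit 26348)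
  (nat_lit 9) nil nil))) (node (nat_lit 5) (nat_lit 25886) (nat_lit 8) (node (nat_lit 7) (nat_lit
  26694) (nat_lit 9) (node (nat_lit 4) (nat_lit 26694) (nat_lit 10) (node (nat_lit 5) (nat_lit
  27371) (nat_lit 11) (node (nat_lit 4) (nat_lit 26870) (nat_lit 12) (node (nat_lit 7) (nat_lit
  27012) (nat_lit 13) nil nil) nil) nil) nil) nil) (node (nat_lit 0) (nat_lit 26171) (nat_lit 8)
  (node (nat_lit 4) (nat_lit 24454) (nat_lit 9) (node (nat_lit 7) (nat_lit 24500) (nat_lit 10) nil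
  nil) (node (nat_lit 7) (nat_lit 26171) (nat_lit 9) (node (nat_lit 4) (nat_lit 26171) (nat_lit
  10) nil nil) nil)) nil)))) nil))) nil) nil))

noncomputable def t275 : Tr :=
  (node (nat_lit 4) (nat_lit 0) (nat_lit 7) (node (nat_lit 6) (nat_lit 0) (nat_lit 8) (node
  (nat_lit 4) (nat_lit 0) (nat_lit 9) (node (nat_lit 0) (nat_lit 77041) (nat_lit 10) (node
  (nat_lit 6) (nat_lit 79062) (nat_lit 11) (node (nat_lit 4) (nat_lit 80639) (nat_lit 12) nil nil)
  (node (nat_lit 5) (nat_lit 79062) (nat_lit 11) nil nil)) (node (nat_lit 2) (nat_lit 75549)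
  (nat_lit 10) (node (nat_lit 6) (nat_lit 77571) (nat_lit 11) (node (nat_lit 4) (nat_lit 79148)
  (nat_lit 12) nil nil) (node (nat_lit 5) (nat_lit 78709) (nat_lit 11) nil (node (nat_lit 4)
  (nat_lit 77571) (nat_lit 11) nil nil))) nil)) (node (nat_lit 0) (nat_lit 75990) (nat_lit 9)
  (node (nat_lit 6) (nat_lit 78582) (nat_lit 10) (node (nat_lit 4) (nat_lit 80603) (nat_lit 11)
  nil nil) (node (nat_lit 4) (nat_lit 77723) (nat_lit 10) (node (nat_lit 6) (nat_lit 79745)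
  (nat_lit 11) nil nil) (node (nat_lit 5) (nat_lit 78582) (nat_lit 10) (node (nat_lit 4) (nat_lit
  78425) (nat_lit 11) nil nil) nil))) (node (nat_lit 2) (nat_lit 74251) (nat_lit 9) (node (nat_lit
  6) (nat_lit 76843) (nat_lit 10) (node (nat_lit 4) (nat_lit 78864) (nat_lit 11) (node (nat_lit 5)
  (nat_lit 74347) (nat_lit 12) nil nil) nil) (node (nat_lit 4) (nat_lit 77163) (nat_lit 10) (node
  (nat_lit 6) (nat_lit 79184) (nat_lit 11) nil nil) (node (nat_lit 5) (nat_lit 76554) (nat_lit 10)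
  (node (nat_lit 4) (nat_lit 77642) (nat_lit 11) nil nil) nil))) nil))) (node (nat_lit 5) (nat_lit
  0) (nat_lit 8) (node (nat_lit 6) (nat_lit 0) (nat_lit 9) (node (nat_lit 0) (nat_lit 77554)
  (nat_lit 10) (node (nat_lit 5) (nat_lit 79575) (nat_lit 11) nil nil) (node (nat_lit 2) (nat_lit
  77979) (nat_lit 10) (node (nat_lit 5) (nat_lit 79620) (nat_lit 11) nil (node (nat_lit 6)
  (nat_lit 80000) (nat_lit 11) nil nil)) (node (nat_lit 4) (nat_lit 77554) (nat_lit 10) (node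
  (nat_lit 6) (nat_lit 38906) (nat_lit 11) nil nil) (node (nat_lit 5) (nat_lit 78384) (nat_lit 10)
  nil nil)))) (node (nat_lit 0) (nat_lit 76298) (nat_lit 9) (node (nat_lit 5) (nat_lit 78890)
  (nat_lit 10) (node (nat_lit 4) (nat_lit 78733) (nat_lit 11) nil nil) (node (nat_lit 4) (nat_lit
  78890) (nat_lit 10) nil (node (nat_lit 6) (nat_lit 78890) (nat_lit 10) nil nil))) (node (nat_lit
  2) (nat_lit 76472) (nat_lit 9) (node (nat_lit 5) (nat_lit 79533) (nat_lit 10) (node (nat_lit 4)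
  (nat_lit 81555) (nat_lit 11) nil nil) (node (nat_lit 4) (nat_lit 79064) (nat_lit 10) nil (node
  (nat_lit 6) (nat_lit 79064) (nat_lit 10) (node (nat_lit 4) (nat_lit 81086) (nat_lit 11) nil nil)
  nil))) nil))) (node (nat_lit 0) (nat_lit 0) (nat_lit 8) (node (nat_lit 6) (nat_lit 81860)
  (nat_lit 9) (node (nat_lit 4) (nat_lit 82972) (nat_lit 10) (node (nat_lit 5) (nat_lit 83954)
  (nat_lit 11) nil nil) nil) (node (nat_lit 5) (nat_lit 82175) (nat_lit 9) (node (nat_lit 4)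
  (nat_lit 83287) (nat_lit 10) (node (nat_lit 5) (nat_lit 84269) (nat_lit 11) (node (nat_lit 6)
  (nat_lit 85157) (nat_lit 12) (node (nat_lit 4) (nat_lit 85880) (nat_lit 13) (node (nat_lit 6)
  (nat_lit 86442) (nat_lit 14) (node (nat_lit 5) (nat_lit 86854) (nat_lit 15) nil nil) nil) nil)
  nil) nil) nil) (node (nat_lit 4) (nat_lit 80781) (nat_lit 9) (node (nat_lit 6) (nat_lit 81893)
  (nat_lit 10) nil nil) (node (nat_lit 2) (nat_lit 76426) (nat_lit 9) (node (nat_lit 4) (nat_lit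
  75299) (nat_lit 10) nil (node (nat_lit 5) (nat_lit 76304) (nat_lit 10) nil (node (nat_lit 6)
  (nat_lit 76428) (nat_lit 10) nil nil))) (node (nat_lit 0) (nat_lit 81860) (nat_lit 9) nil
  nil))))) (node (nat_lit 2) (nat_lit 0) (nat_lit 8) (node (nat_lit 6) (nat_lit 79679) (nat_lit 9)
  (node (nat_lit 4) (nat_lit 80792) (nat_lit 10) (node (nat_lit 5) (nat_lit 83178) (nat_lit 11)
  (node (nat_lit 6) (nat_lit 81500) (nat_lit 12) (node (nat_lit 4) (nat_lit 63871) (nat_lit 13)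
  (node (nat_lit 6) (nat_lit 53351) (nat_lit 14) (node (nat_lit 5) (nat_lit 43548) (nat_lit 15)
  (node (nat_lit 4) (nat_lit 27077) (nat_lit 16) nil nil) nil) nil) nil) nil) nil) nil) (node
  (nat_lit 5) (nat_lit 80583) (nat_lit 9) (node (nat_lit 4) (nat_lit 81320) (nat_lit 10) (node
  (nat_lit 5) (nat_lit 80274) (nat_lit 11) (node (nat_lit 6) (nat_lit 76155) (nat_lit 12) (node
  (nat_lit 4) (nat_lit 67537) (nat_lit 13) (node (nat_lit 6) (nat_lit 61776) (nat_lit 14) (node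
  (nat_lit 5) (nat_lit 42485) (nat_lit 15) nil nil) nil) nil) nil) nil) nil) (node (nat_lit 4)
  (nat_lit 80868) (nat_lit 9) (node (nat_lit 6) (nat_lit 81981) (nat_lit 10) nil nil) (node
  (nat_lit 0) (nat_lit 80584) (nat_lit 9) (node (nat_lit 5) (nat_lit 81696) (nat_lit 10) nil (node
  (nat_lit 6) (nat_lit 81696) (nat_lit 10) nil nil)) nil)))) nil)))) (node (nat_lit 6) (nat_lit 0)
  (nat_lit 7) (node (nat_lit 4) (nat_lit 0) (nat_lit 8) (node (nat_lit 0) (nat_lit 0) (nat_lit 9)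
  (node (nat_lit 4) (nat_lit 0) (nat_lit 10) (node (nat_lit 6) (nat_lit 81332) (nat_lit 11) (node
  (nat_lit 5) (nat_lit 82908) (nat_lit 12) nil (node (nat_lit 4) (nat_lit 82908) (nat_lit 12) nil
  nil)) (node (nat_lit 5) (nat_lit 81680) (nat_lit 11) (node (nat_lit 6) (nat_lit 83257) (nat_lit
  12) nil nil) (node (nat_lit 0) (nat_lit 81332) (nat_lit 11) nil (node (nat_lit 2) (nat_lit
  77310) (nat_lit 11) nil nil)))) (node (nat_lit 6) (nat_lit 79310) (nat_lit 10) (node (nat_lit 5)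
  (nat_lit 81332) (nat_lit 11) (node (nat_lit 4) (nat_lit 81218) (nat_lit 12) nil nil) (node
  (nat_lit 4) (nat_lit 81332) (nat_lit 11) (node (nat_lit 5) (nat_lit 82908) (nat_lit 12) nil nil)
  (node (nat_lit 12) (nat_lit 81332) (nat_lit 11) nil nil))) (node (nat_lit 5) (nat_lit 79515)
  (nat_lit 10) (node (nat_lit 4) (nat_lit 81536) (nat_lit 11) (node (nat_lit 5) (nat_lit 83113)
  (nat_lit 12) nil nil) (node (nat_lit 6) (nat_lit 81536) (nat_lit 11) nil (node (nat_lit 12)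
  (nat_lit 81536) (nat_lit 11) nil nil))) (node (nat_lit 2) (nat_lit 79310) (nat_lit 10) (node
  (nat_lit 4) (nat_lit 81332) (nat_lit 11) nil nil) (node (nat_lit 0) (nat_lit 79515) (nat_lit 10)
  (node (nat_lit 4) (nat_lit 79358) (nat_lit 11) nil nil) nil))))) (node (nat_lit 5) (nat_lit 0)
  (nat_lit 9) (node (nat_lit 0) (nat_lit 79574) (nat_lit 10) (node (nat_lit 4) (nat_lit 81596)
  (nat_lit 11) (node (nat_lit 5) (nat_lit 83325) (nat_lit 12) (node (nat_lit 4) (nat_lit 84558)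
  (nat_lit 13) nil (node (nat_lit 6) (nat_lit 84558) (nat_lit 13) nil nil)) nil) (node (nat_lit 5)
  (nat_lit 81680) (nat_lit 11) (node (nat_lit 4) (nat_lit 83257) (nat_lit 12) nil nil) (node
  (nat_lit 6) (nat_lit 81596) (nat_lit 11) (node (nat_lit 5) (nat_lit 83172) (nat_lit 12) nil nil)
  nil))) (node (nat_lit 2) (nat_lit 79431) (nat_lit 10) (node (nat_lit 4) (nat_lit 81453) (nat_lit
  11) (node (nat_lit 5) (nat_lit 83325) (nat_lit 12) (node (nat_lit 4) (nat_lit 84558) (nat_lit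
  13) nil (node (nat_lit 6) (nat_lit 84558) (nat_lit 13) nil nil)) nil) (node (nat_lit 5) (nat_lit
  81680) (nat_lit 11) (node (nat_lit 4) (nat_lit 83257) (nat_lit 12) nil nil) (node (nat_lit 6)
  (nat_lit 81453) (nat_lit 11) (node (nat_lit 5) (nat_lit 83030) (nat_lit 12) nil nil) nil)))
  (node (nat_lit 6) (nat_lit 0) (nat_lit 10) (node (nat_lit 5) (nat_lit 81585) (nat_lit 11) (node
  (nat_lit 4) (nat_lit 83039) (nat_lit 12) nil nil) (node (nat_lit 2) (nat_lit 81374) (nat_lit 11)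
  nil (node (nat_lit 0) (nat_lit 81680) (nat_lit 11) nil nil))) nil))) (node (nat_lit 2) (nat_lit
  0) (nat_lit 9) (node (nat_lit 4) (nat_lit 0) (nat_lit 10) (node (nat_lit 6) (nat_lit 79743)
  (nat_lit 11) (node (nat_lit 5) (nat_lit 81320) (nat_lit 12) nil (node (nat_lit 4) (nat_lit
  81320) (nat_lit 12) nil (node (nat_lit 12) (nat_lit 78200) (nat_lit 12) nil nil))) (node
  (nat_lit 5) (nat_lit 81148) (nat_lit 11) (node (nat_lit 6) (nat_lit 82724) (nat_lit 12) nil nil)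
  (node (nat_lit 0) (nat_lit 79743) (nat_lit 11) nil nil))) (node (nat_lit 6) (nat_lit 77306)
  (nat_lit 10) (node (nat_lit 5) (nat_lit 80732) (nat_lit 11) (node (nat_lit 4) (nat_lit 80618)
  (nat_lit 12) nil nil) (node (nat_lit 4) (nat_lit 79618) (nat_lit 11) (node (nat_lit 6) (nat_lit
  81195) (nat_lit 12) nil (node (nat_lit 5) (nat_lit 82724) (nat_lit 12) nil nil)) (node (nat_lit
  12) (nat_lit 79358) (nat_lit 11) nil nil))) (node (nat_lit 5) (nat_lit 77417) (nat_lit 10) (node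
  (nat_lit 4) (nat_lit 79406) (nat_lit 11) (node (nat_lit 5) (nat_lit 79657) (nat_lit 12) nil nil)
  (node (nat_lit 6) (nat_lit 79439) (nat_lit 11) nil (node (nat_lit 12) (nat_lit 77260) (nat_lit
  11) nil nil))) (node (nat_lit 0) (nat_lit 78966) (nat_lit 10) (node (nat_lit 4) (nat_lit 80987)
  (nat_lit 11) nil nil) nil)))) nil))) (node (nat_lit 0) (nat_lit 0) (nat_lit 8) (node (nat_lit 4)
  (nat_lit 82175) (nat_lit 9) (node (nat_lit 11) (nat_lit 83777) (nat_lit 10) (node (nat_lit 6)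
  (nat_lit 84759) (nat_lit 11) (node (nat_lit 4) (nat_lit 85647) (nat_lit 12) nil (node (nat_lit
  5) (nat_lit 85647) (nat_lit 12) nil nil)) (node (nat_lit 5) (nat_lit 84759) (nat_lit 11) (node
  (nat_lit 4) (nat_lit 84182) (nat_lit 12) nil nil) nil)) (node (nat_lit 6) (nat_lit 82430)
  (nat_lit 10) (node (nat_lit 5) (nat_lit 83412) (nat_lit 11) nil (node (nat_lit 4) (nat_lit
  83412) (nat_lit 11) (node (nat_lit 5) (nat_lit 84978) (nat_lit 12) (node (nat_lit 6) (nat_lit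
  85701) (nat_lit 13) nil nil) nil) nil)) (node (nat_lit 5) (nat_lit 83777) (nat_lit 10) (node
  (nat_lit 4) (nat_lit 84759) (nat_lit 11) (node (nat_lit 6) (nat_lit 83408) (nat_lit 12) nil nil)
  (node (nat_lit 6) (nat_lit 84759) (nat_lit 11) nil nil)) nil))) (node (nat_lit 5) (nat_lit
  82459) (nat_lit 9) (node (nat_lit 4) (nat_lit 83448) (nat_lit 10) (node (nat_lit 5) (nat_lit
  84430) (nat_lit 11) (node (nat_lit 6) (nat_lit 85318) (nat_lit 12) (node (nat_lit 4) (nat_lit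
  86041) (nat_lit 13) nil nil) nil) (node (nat_lit 6) (nat_lit 84430) (nat_lit 11) (node (nat_lit
  5) (nat_lit 85318) (nat_lit 12) nil nil) nil)) (node (nat_lit 11) (nat_lit 83777) (nat_lit 10)
  (node (nat_lit 6) (nat_lit 84759) (nat_lit 11) (node (nat_lit 4) (nat_lit 85647) (nat_lit 12)
  nil (node (nat_lit 5) (nat_lit 85647) (nat_lit 12) nil nil)) (node (nat_lit 4) (nat_lit 82931)
  (nat_lit 11) nil nil)) (node (nat_lit 6) (nat_lit 83572) (nat_lit 10) (node (nat_lit 5) (nat_lit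
  84900) (nat_lit 11) (node (nat_lit 4) (nat_lit 84323) (nat_lit 12) nil nil) (node (nat_lit 4)
  (nat_lit 84462) (nat_lit 11) nil nil)) nil))) (node (nat_lit 6) (nat_lit 82175) (nat_lit 9)
  (node (nat_lit 4) (nat_lit 82430) (nat_lit 10) (node (nat_lit 5) (nat_lit 83412) (nat_lit 11)
  (node (nat_lit 6) (nat_lit 84300) (nat_lit 12) nil nil) nil) (node (nat_lit 5) (nat_lit 83777)
  (nat_lit 10) (node (nat_lit 4) (nat_lit 84759) (nat_lit 11) (node (nat_lit 5) (nat_lit 85647)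
  (nat_lit 12) nil nil) nil) nil)) (node (nat_lit 0) (nat_lit 82459) (nat_lit 9) (node (nat_lit 6)
  (nat_lit 83572) (nat_lit 10) (node (nat_lit 4) (nat_lit 84553) (nat_lit 11) nil (node (nat_lit
  5) (nat_lit 84553) (nat_lit 11) nil nil)) (node (nat_lit 11) (nat_lit 83572) (nat_lit 10) (node
  (nat_lit 6) (nat_lit 84553) (nat_lit 11) nil (node (nat_lit 5) (nat_lit 84553) (nat_lit 11) nil
  nil)) (node (nat_lit 5) (nat_lit 83572) (nat_lit 10) nil (node (nat_lit 4) (nat_lit 83572)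
  (nat_lit 10) nil nil)))) (node (nat_lit 2) (nat_lit 82196) (nat_lit 9) (node (nat_lit 6)
  (nat_lit 83309) (nat_lit 10) (node (nat_lit 4) (nat_lit 79154) (nat_lit 11) nil (node (nat_lit
  5) (nat_lit 84290) (nat_lit 11) nil nil)) (node (nat_lit 11) (nat_lit 83309) (nat_lit 10) (node
  (nat_lit 6) (nat_lit 84290) (nat_lit 11) nil (node (nat_lit 5) (nat_lit 84290) (nat_lit 11) nil
  nil)) (node (nat_lit 5) (nat_lit 83309) (nat_lit 10) nil (node (nat_lit 4) (nat_lit 83309)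
  (nat_lit 10) nil nil)))) nil))))) (node (nat_lit 2) (nat_lit 0) (nat_lit 8) (node (nat_lit 4)
  (nat_lit 80868) (nat_lit 9) (node (nat_lit 11) (nat_lit 80706) (nat_lit 10) (node (nat_lit 6)
  (nat_lit 81688) (nat_lit 11) (node (nat_lit 4) (nat_lit 82576) (nat_lit 12) (node (nat_lit 5)
  (nat_lit 78763) (nat_lit 13) (node (nat_lit 6) (nat_lit 77289) (nat_lit 14) nil nil) nil) (node
  (nat_lit 5) (nat_lit 82576) (nat_lit 12) nil nil)) (node (nat_lit 5) (nat_lit 82610) (nat_lit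
  11) (node (nat_lit 4) (nat_lit 82954) (nat_lit 12) (node (nat_lit 5) (nat_lit 79141) (nat_lit
  13) (node (nat_lit 6) (nat_lit 77667) (nat_lit 14) (node (nat_lit 4) (nat_lit 75732) (nat_lit
  15) nil nil) nil) nil) nil) nil)) (node (nat_lit 6) (nat_lit 81190) (nat_lit 10) (node (nat_lit
  5) (nat_lit 82171) (nat_lit 11) (node (nat_lit 4) (nat_lit 81595) (nat_lit 12) nil nil) (node
  (nat_lit 4) (nat_lit 82171) (nat_lit 11) (node (nat_lit 5) (nat_lit 84556) (nat_lit 12) (node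
  (nat_lit 6) (nat_lit 84680) (nat_lit 13) nil nil) nil) nil)) (node (nat_lit 5) (nat_lit 83225)
  (nat_lit 10) (node (nat_lit 4) (nat_lit 82379) (nat_lit 11) (node (nat_lit 6) (nat_lit 82856)
  (nat_lit 12) nil nil) (node (nat_lit 6) (nat_lit 84207) (nat_lit 11) nil nil)) nil))) (node
  (nat_lit 5) (nat_lit 80631) (nat_lit 9) (node (nat_lit 4) (nat_lit 81204) (nat_lit 10) (node
  (nat_lit 5) (nat_lit 80300) (nat_lit 11) (node (nat_lit 6) (nat_lit 77924) (nat_lit 12) (node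
  (nat_lit 4) (nat_lit 70145) (nat_lit 13) (node (nat_lit 6) (nat_lit 42162) (nat_lit 14) nil nil)
  nil) nil) (node (nat_lit 6) (nat_lit 81531) (nat_lit 11) (node (nat_lit 5) (nat_lit 82419)
  (nat_lit 12) nil nil) nil)) (node (nat_lit 11) (nat_lit 82064) (nat_lit 10) (node (nat_lit 6)
  (nat_lit 83046) (nat_lit 11) (node (nat_lit 4) (nat_lit 83934) (nat_lit 12) nil (node (nat_lit
  5) (nat_lit 83934) (nat_lit 12) nil nil)) (node (nat_lit 4) (nat_lit 83046) (nat_lit 11) nil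
  nil)) (node (nat_lit 6) (nat_lit 82064) (nat_lit 10) (node (nat_lit 5) (nat_lit 83046) (nat_lit
  11) (node (nat_lit 4) (nat_lit 82469) (nat_lit 12) nil nil) nil) nil))) (node (nat_lit 6)
  (nat_lit 0) (nat_lit 9) (node (nat_lit 4) (nat_lit 81809) (nat_lit 10) (node (nat_lit 5)
  (nat_lit 84195) (nat_lit 11) (node (nat_lit 6) (nat_lit 80809) (nat_lit 12) nil nil) (node
  (nat_lit 6) (nat_lit 82790) (nat_lit 11) nil nil)) (node (nat_lit 5) (nat_lit 83225) (nat_lit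
  10) (node (nat_lit 4) (nat_lit 84207) (nat_lit 11) (node (nat_lit 5) (nat_lit 85096) (nat_lit
  12) nil nil) nil) (node (nat_lit 0) (nat_lit 81981) (nat_lit 10) nil nil))) (node (nat_lit 0)
  (nat_lit 82191) (nat_lit 9) (node (nat_lit 6) (nat_lit 83303) (nat_lit 10) (node (nat_lit 4)
  (nat_lit 84285) (nat_lit 11) nil (node (nat_lit 5) (nat_lit 84285) (nat_lit 11) nil nil)) (node
  (nat_lit 11) (nat_lit 83303) (nat_lit 10) (node (nat_lit 6) (nat_lit 81506) (nat_lit 11) nil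
  (node (nat_lit 5) (nat_lit 81506) (nat_lit 11) nil nil)) (node (nat_lit 5) (nat_lit 83303)
  (nat_lit 10) nil (node (nat_lit 4) (nat_lit 83303) (nat_lit 10) nil nil)))) nil)))) nil))) (node
  (nat_lit 0) (nat_lit 0) (nat_lit 7) (node (nat_lit 6) (nat_lit 78744) (nat_lit 8) (node (nat_lit
  5) (nat_lit 81198) (nat_lit 9) (node (nat_lit 4) (nat_lit 80072) (nat_lit 10) (node (nat_lit 6)
  (nat_lit 80513) (nat_lit 11) nil nil) nil) (node (nat_lit 4) (nat_lit 80402) (nat_lit 9) (node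
  (nat_lit 5) (nat_lit 81514) (nat_lit 10) (node (nat_lit 6) (nat_lit 82496) (nat_lit 11) nil nil)
  nil) (node (nat_lit 10) (nat_lit 80402) (nat_lit 9) nil nil))) (node (nat_lit 4) (nat_lit 78744)
  (nat_lit 8) (node (nat_lit 6) (nat_lit 80402) (nat_lit 9) (node (nat_lit 5) (nat_lit 81514)
  (nat_lit 10) nil nil) (node (nat_lit 10) (nat_lit 80402) (nat_lit 9) (node (nat_lit 6) (nat_lit
  81514) (nat_lit 10) nil nil) nil)) (node (nat_lit 5) (nat_lit 80744) (nat_lit 8) (node (nat_lit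
  4) (nat_lit 81381) (nat_lit 9) (node (nat_lit 6) (nat_lit 82494) (nat_lit 10) nil (node (nat_lit
  5) (nat_lit 82494) (nat_lit 10) (node (nat_lit 6) (nat_lit 83475) (nat_lit 11) (node (nat_lit 4)
  (nat_lit 84364) (nat_lit 12) nil nil) nil) nil)) nil) (node (nat_lit 0) (nat_lit 80668) (nat_lit
  8) (node (nat_lit 6) (nat_lit 82326) (nat_lit 9) (node (nat_lit 4) (nat_lit 83439) (nat_lit 10)
  nil nil) (node (nat_lit 5) (nat_lit 82326) (nat_lit 9) (node (nat_lit 4) (nat_lit 81200)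
  (nat_lit 10) nil nil) (node (nat_lit 4) (nat_lit 79547) (nat_lit 9) nil nil))) (node (nat_lit 2)
  (nat_lit 80426) (nat_lit 8) (node (nat_lit 6) (nat_lit 82084) (nat_lit 9) (node (nat_lit 4)
  (nat_lit 83196) (nat_lit 10) nil nil) (node (nat_lit 5) (nat_lit 82084) (nat_lit 9) (node
  (nat_lit 4) (nat_lit 80957) (nat_lit 10) nil nil) (node (nat_lit 4) (nat_lit 82084) (nat_lit 9)
  nil nil))) nil))))) (node (nat_lit 2) (nat_lit 0) (nat_lit 7) (node (nat_lit 6) (nat_lit 79427)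
  (nat_lit 8) (node (nat_lit 5) (nat_lit 81838) (nat_lit 9) (node (nat_lit 4) (nat_lit 82951)
  (nat_lit 10) (node (nat_lit 5) (nat_lit 83932) (nat_lit 11) (node (nat_lit 6) (nat_lit 84821)
  (nat_lit 12) nil nil) nil) nil) (node (nat_lit 4) (nat_lit 81085) (nat_lit 9) (node (nat_lit 5)
  (nat_lit 83098) (nat_lit 10) (node (nat_lit 6) (nat_lit 79201) (nat_lit 11) nil nil) nil) (node
  (nat_lit 10) (nat_lit 79320) (nat_lit 9) (node (nat_lit 4) (nat_lit 80432) (nat_lit 10) nil nil)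
  nil))) (node (nat_lit 4) (nat_lit 79335) (nat_lit 8) (node (nat_lit 6) (nat_lit 79914) (nat_lit
  9) (node (nat_lit 5) (nat_lit 81026) (nat_lit 10) (node (nat_lit 4) (nat_lit 80180) (nat_lit 11)
  nil nil) (node (nat_lit 4) (nat_lit 81026) (nat_lit 10) (node (nat_lit 5) (nat_lit 83003)
  (nat_lit 11) nil nil) nil)) (node (nat_lit 10) (nat_lit 79228) (nat_lit 9) (node (nat_lit 6)
  (nat_lit 80340) (nat_lit 10) nil (node (nat_lit 5) (nat_lit 79686) (nat_lit 10) (node (nat_lit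
  4) (nat_lit 78121) (nat_lit 11) nil nil) nil)) (node (nat_lit 5) (nat_lit 81746) (nat_lit 9) nil
  nil))) (node (nat_lit 5) (nat_lit 80635) (nat_lit 8) (node (nat_lit 4) (nat_lit 82293) (nat_lit
  9) (node (nat_lit 6) (nat_lit 83405) (nat_lit 10) nil (node (nat_lit 5) (nat_lit 81500) (nat_lit
  10) (node (nat_lit 6) (nat_lit 76180) (nat_lit 11) (node (nat_lit 4) (nat_lit 68693) (nat_lit
  12) nil nil) nil) nil)) (node (nat_lit 6) (nat_lit 82293) (nat_lit 9) nil nil)) (node (nat_lit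
  0) (nat_lit 80495) (nat_lit 8) (node (nat_lit 6) (nat_lit 82153) (nat_lit 9) (node (nat_lit 4)
  (nat_lit 83266) (nat_lit 10) nil nil) (node (nat_lit 5) (nat_lit 82153) (nat_lit 9) (node
  (nat_lit 4) (nat_lit 81026) (nat_lit 10) nil nil) (node (nat_lit 4) (nat_lit 81132) (nat_lit 9)
  (node (nat_lit 6) (nat_lit 78355) (nat_lit 10) nil nil) nil))) nil)))) nil))))

noncomputable def t276 : Tr :=
  (node (nat_lit 6) (nat_lit 0) (nat_lit 5) (node (nat_lit 5) (nat_lit 0) (nat_lit 6) t275 nil)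
  (node (nat_lit 5) (nat_lit 0) (nat_lit 5) (node (nat_lit 4) (nat_lit 0) (nat_lit 6) (node
  (nat_lit 6) (nat_lit 0) (nat_lit 7) (node (nat_lit 5) (nat_lit 0) (nat_lit 8) (node (nat_lit 0)
  (nat_lit 0) (nat_lit 9) (node (nat_lit 5) (nat_lit 0) (nat_lit 10) (node (nat_lit 6) (nat_lit
  23022) (nat_lit 11) (node (nat_lit 5) (nat_lit 23022) (nat_lit 12) nil (node (nat_lit 12)
  (nat_lit 23214) (nat_lit 12) (node (nat_lit 5) (nat_lit 23214) (nat_lit 13) nil nil) nil)) (node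
  (nat_lit 4) (nat_lit 22197) (nat_lit 11) (node (nat_lit 5) (nat_lit 22197) (nat_lit 12) (node
  (nat_lit 6) (nat_lit 23098) (nat_lit 13) nil nil) nil) (node (nat_lit 0) (nat_lit 22756)
  (nat_lit 11) (node (nat_lit 5) (nat_lit 22756) (nat_lit 12) nil nil) (node (nat_lit 2) (nat_lit
  22197) (nat_lit 11) (node (nat_lit 5) (nat_lit 22197) (nat_lit 12) nil nil) nil)))) (node
  (nat_lit 6) (nat_lit 22871) (nat_lit 10) (node (nat_lit 12) (nat_lit 23116) (nat_lit 11) (node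
  (nat_lit 5) (nat_lit 23116) (nat_lit 12) nil nil) (node (nat_lit 5) (nat_lit 22871) (nat_lit 11)
  nil nil)) (node (nat_lit 4) (nat_lit 22305) (nat_lit 10) (node (nat_lit 5) (nat_lit 22305)
  (nat_lit 11) nil nil) (node (nat_lit 0) (nat_lit 22768) (nat_lit 10) nil (node (nat_lit 2)
  (nat_lit 22202) (nat_lit 10) (node (nat_lit 5) (nat_lit 22202) (nat_lit 11) nil nil) nil)))))
  (node (nat_lit 6) (nat_lit 0) (nat_lit 9) (node (nat_lit 0) (nat_lit 22970) (nat_lit 10) (node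
  (nat_lit 5) (nat_lit 22970) (nat_lit 11) (node (nat_lit 6) (nat_lit 23635) (nat_lit 12) (node
  (nat_lit 5) (nat_lit 23635) (nat_lit 13) (node (nat_lit 13) (nat_lit 23900) (nat_lit 14) (node
  (nat_lit 5) (nat_lit 23900) (nat_lit 15) nil nil) (node (nat_lit 4) (nat_lit 23635) (nat_lit 14)
  (node (nat_lit 5) (nat_lit 23635) (nat_lit 15) nil nil) nil)) nil) (node (nat_lit 4) (nat_lit
  22970) (nat_lit 12) nil nil)) (node (nat_lit 6) (nat_lit 23432) (nat_lit 11) (node (nat_lit 5)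
  (nat_lit 23432) (nat_lit 12) nil nil) nil)) (node (nat_lit 2) (nat_lit 22452) (nat_lit 10) (node
  (nat_lit 5) (nat_lit 22435) (nat_lit 11) (node (nat_lit 6) (nat_lit 23556) (nat_lit 12) (node
  (nat_lit 5) (nat_lit 23556) (nat_lit 13) (node (nat_lit 13) (nat_lit 23556) (nat_lit 14) (node
  (nat_lit 5) (nat_lit 23556) (nat_lit 15) nil nil) (node (nat_lit 4) (nat_lit 23556) (nat_lit 14)
  (node (nat_lit 5) (nat_lit 23556) (nat_lit 15) nil nil) nil)) nil) (node (nat_lit 13) (nat_lit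
  22576) (nat_lit 12) nil (node (nat_lit 4) (nat_lit 22435) (nat_lit 12) nil nil))) (node (nat_lit
  6) (nat_lit 23516) (nat_lit 11) (node (nat_lit 5) (nat_lit 23516) (nat_lit 12) (node (nat_lit
  13) (nat_lit 23516) (nat_lit 13) (node (nat_lit 5) (nat_lit 23516) (nat_lit 14) nil nil) nil)
  nil) (node (nat_lit 4) (nat_lit 22298) (nat_lit 11) nil nil))) nil)) (node (nat_lit 2) (nat_lit
  0) (nat_lit 9) (node (nat_lit 5) (nat_lit 0) (nat_lit 10) (node (nat_lit 6) (nat_lit 22641)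
  (nat_lit 11) (node (nat_lit 5) (nat_lit 23223) (nat_lit 12) nil (node (nat_lit 12) (nat_lit
  21911) (nat_lit 12) (node (nat_lit 5) (nat_lit 22061) (nat_lit 13) nil nil) nil)) (node (nat_lit
  4) (nat_lit 21570) (nat_lit 11) (node (nat_lit 5) (nat_lit 20278) (nat_lit 12) (node (nat_lit 6)
  (nat_lit 18859) (nat_lit 13) nil nil) (node (nat_lit 12) (nat_lit 22180) (nat_lit 12) nil nil))
  (node (nat_lit 0) (nat_lit 22641) (nat_lit 11) (node (nat_lit 5) (nat_lit 22863) (nat_lit 12)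
  nil nil) nil))) (node (nat_lit 6) (nat_lit 22970) (nat_lit 10) (node (nat_lit 12) (nat_lit
  22970) (nat_lit 11) (node (nat_lit 5) (nat_lit 22970) (nat_lit 12) nil nil) (node (nat_lit 5)
  (nat_lit 22970) (nat_lit 11) nil nil)) (node (nat_lit 4) (nat_lit 21247) (nat_lit 10) (node
  (nat_lit 5) (nat_lit 21259) (nat_lit 11) nil (node (nat_lit 12) (nat_lit 22173) (nat_lit 11)
  (node (nat_lit 5) (nat_lit 21251) (nat_lit 12) nil nil) nil)) (node (nat_lit 0) (nat_lit 22868)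
  (nat_lit 10) nil nil)))) (node (nat_lit 4) (nat_lit 0) (nat_lit 9) (node (nat_lit 0) (nat_lit
  22970) (nat_lit 10) (node (nat_lit 5) (nat_lit 22970) (nat_lit 11) (node (nat_lit 4) (nat_lit
  22970) (nat_lit 12) (node (nat_lit 5) (nat_lit 22970) (nat_lit 13) (node (nat_lit 6) (nat_lit
  23671) (nat_lit 14) nil nil) nil) nil) nil) (node (nat_lit 2) (nat_lit 21282) (nat_lit 10) (node
  (nat_lit 5) (nat_lit 22142) (nat_lit 11) (node (nat_lit 4) (nat_lit 22180) (nat_lit 12) (node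
  (nat_lit 5) (nat_lit 22180) (nat_lit 13) (node (nat_lit 6) (nat_lit 23546) (nat_lit 14) nil nil)
  nil) nil) (node (nat_lit 4) (nat_lit 22180) (nat_lit 11) nil (node (nat_lit 6) (nat_lit 23258)
  (nat_lit 11) nil nil))) nil)) nil)))) (node (nat_lit 4) (nat_lit 0) (nat_lit 8) (node (nat_lit
  0) (nat_lit 0) (nat_lit 9) (node (nat_lit 4) (nat_lit 22305) (nat_lit 10) (node (nat_lit 5)
  (nat_lit 22305) (nat_lit 11) nil (node (nat_lit 6) (nat_lit 22865) (nat_lit 11) nil nil)) (node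
  (nat_lit 6) (nat_lit 22871) (nat_lit 10) (node (nat_lit 5) (nat_lit 22871) (nat_lit 11) (node
  (nat_lit 4) (nat_lit 22871) (nat_lit 12) nil nil) nil) (node (nat_lit 5) (nat_lit 22197)
  (nat_lit 10) (node (nat_lit 4) (nat_lit 22197) (nat_lit 11) (node (nat_lit 5) (nat_lit 22197)
  (nat_lit 12) nil nil) nil) (node (nat_lit 0) (nat_lit 22657) (nat_lit 10) nil (node (nat_lit 2)
  (nat_lit 22202) (nat_lit 10) nil nil))))) (node (nat_lit 5) (nat_lit 0) (nat_lit 9) (node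
  (nat_lit 0) (nat_lit 22970) (nat_lit 10) (node (nat_lit 4) (nat_lit 22970) (nat_lit 11) nil
  (node (nat_lit 5) (nat_lit 22970) (nat_lit 11) (node (nat_lit 4) (nat_lit 22970) (nat_lit 12)
  nil nil) (node (nat_lit 6) (nat_lit 23214) (nat_lit 11) (node (nat_lit 5) (nat_lit 23214)
  (nat_lit 12) nil nil) nil))) (node (nat_lit 2) (nat_lit 21339) (nat_lit 10) (node (nat_lit 4)
  (nat_lit 22168) (nat_lit 11) (node (nat_lit 5) (nat_lit 22180) (nat_lit 12) nil nil) (node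
  (nat_lit 5) (nat_lit 22168) (nat_lit 11) (node (nat_lit 4) (nat_lit 22180) (nat_lit 12) nil nil)
  (node (nat_lit 6) (nat_lit 23314) (nat_lit 11) (node (nat_lit 5) (nat_lit 23314) (nat_lit 12)
  nil nil) nil))) (node (nat_lit 6) (nat_lit 22976) (nat_lit 10) (node (nat_lit 5) (nat_lit 23094)
  (nat_lit 11) (node (nat_lit 4) (nat_lit 23276) (nat_lit 12) nil nil) nil) nil))) (node (nat_lit
  2) (nat_lit 0) (nat_lit 9) (node (nat_lit 4) (nat_lit 0) (nat_lit 10) (node (nat_lit 6) (nat_lit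
  22863) (nat_lit 11) (node (nat_lit 5) (nat_lit 22863) (nat_lit 12) nil nil) (node (nat_lit 5)
  (nat_lit 21402) (nat_lit 11) nil (node (nat_lit 0) (nat_lit 22863) (nat_lit 11) nil nil))) (node
  (nat_lit 6) (nat_lit 22868) (nat_lit 10) (node (nat_lit 5) (nat_lit 22868) (nat_lit 11) (node
  (nat_lit 4) (nat_lit 22868) (nat_lit 12) nil nil) nil) (node (nat_lit 5) (nat_lit 21146)
  (nat_lit 10) (node (nat_lit 4) (nat_lit 21864) (nat_lit 11) (node (nat_lit 5) (nat_lit 21850)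
  (nat_lit 12) nil nil) nil) (node (nat_lit 0) (nat_lit 22868) (nat_lit 10) nil nil)))) nil)))
  (node (nat_lit 0) (nat_lit 0) (nat_lit 8) (node (nat_lit 5) (nat_lit 22179) (nat_lit 9) (node
  (nat_lit 11) (nat_lit 22913) (nat_lit 10) (node (nat_lit 6) (nat_lit 23035) (nat_lit 11) (node
  (nat_lit 5) (nat_lit 23035) (nat_lit 12) (node (nat_lit 4) (nat_lit 23035) (nat_lit 13) nil nil)
  nil) nil) (node (nat_lit 6) (nat_lit 22913) (nat_lit 10) (node (nat_lit 5) (nat_lit 22913)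
  (nat_lit 11) (node (nat_lit 4) (nat_lit 22913) (nat_lit 12) (node (nat_lit 5) (nat_lit 22913)
  (nat_lit 13) nil nil) nil) nil) (node (nat_lit 4) (nat_lit 21872) (nat_lit 10) (node (nat_lit 5)
  (nat_lit 21872) (nat_lit 11) (node (nat_lit 6) (nat_lit 22541) (nat_lit 12) (node (nat_lit 4)
  (nat_lit 22541) (nat_lit 13) nil nil) nil) nil) nil))) (node (nat_lit 4) (nat_lit 22182)
  (nat_lit 9) (node (nat_lit 11) (nat_lit 22916) (nat_lit 10) (node (nat_lit 5) (nat_lit 22916)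
  (nat_lit 11) (node (nat_lit 4) (nat_lit 22916) (nat_lit 12) nil nil) (node (nat_lit 6) (nat_lit
  23038) (nat_lit 11) (node (nat_lit 5) (nat_lit 23038) (nat_lit 12) nil nil) nil)) (node (nat_lit
  6) (nat_lit 22916) (nat_lit 10) nil (node (nat_lit 5) (nat_lit 22182) (nat_lit 10) nil nil)))
  (node (nat_lit 6) (nat_lit 22805) (nat_lit 9) (node (nat_lit 5) (nat_lit 22805) (nat_lit 10)
  (node (nat_lit 4) (nat_lit 22805) (nat_lit 11) (node (nat_lit 5) (nat_lit 22805) (nat_lit 12)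
  (node (nat_lit 6) (nat_lit 23269) (nat_lit 13) nil nil) nil) nil) nil) (node (nat_lit 0)
  (nat_lit 22699) (nat_lit 9) (node (nat_lit 11) (nat_lit 22839) (nat_lit 10) (node (nat_lit 5)
  (nat_lit 22839) (nat_lit 11) nil nil) (node (nat_lit 6) (nat_lit 22839) (nat_lit 10) (node
  (nat_lit 5) (nat_lit 22839) (nat_lit 11) nil nil) (node (nat_lit 5) (nat_lit 22699) (nat_lit 10)
  nil nil))) (node (nat_lit 2) (nat_lit 21824) (nat_lit 9) (node (nat_lit 6) (nat_lit 22558)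
  (nat_lit 10) (node (nat_lit 5) (nat_lit 22558) (nat_lit 11) nil nil) (node (nat_lit 11) (nat_lit
  22259) (nat_lit 10) (node (nat_lit 5) (nat_lit 22259) (nat_lit 11) nil nil) (node (nat_lit 5)
  (nat_lit 21824) (nat_lit 10) nil (node (nat_lit 4) (nat_lit 21824) (nat_lit 10) nil nil))))
  nil))))) (node (nat_lit 2) (nat_lit 0) (nat_lit 8) (node (nat_lit 5) (nat_lit 21683) (nat_lit 9)
  (node (nat_lit 11) (nat_lit 21661) (nat_lit 10) (node (nat_lit 6) (nat_lit 22676) (nat_lit 11)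
  (node (nat_lit 5) (nat_lit 22676) (nat_lit 12) (node (nat_lit 4) (nat_lit 22676) (nat_lit 13)
  nil nil) nil) (node (nat_lit 4) (nat_lit 22119) (nat_lit 11) nil nil)) (node (nat_lit 6)
  (nat_lit 23083) (nat_lit 10) (node (nat_lit 5) (nat_lit 23083) (nat_lit 11) (node (nat_lit 4)
  (nat_lit 23083) (nat_lit 12) (node (nat_lit 5) (nat_lit 23083) (nat_lit 13) nil nil) nil) nil)
  (node (nat_lit 4) (nat_lit 21584) (nat_lit 10) (node (nat_lit 5) (nat_lit 20944) (nat_lit 11)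
  (node (nat_lit 6) (nat_lit 17964) (nat_lit 12) (node (nat_lit 4) (nat_lit 10146) (nat_lit 13)
  nil nil) nil) nil) nil))) (node (nat_lit 4) (nat_lit 21683) (nat_lit 9) (node (nat_lit 11)
  (nat_lit 22061) (nat_lit 10) (node (nat_lit 5) (nat_lit 22519) (nat_lit 11) (node (nat_lit 4)
  (nat_lit 22814) (nat_lit 12) (node (nat_lit 5) (nat_lit 22773) (nat_lit 13) nil nil) nil) (node
  (nat_lit 6) (nat_lit 23076) (nat_lit 11) (node (nat_lit 5) (nat_lit 23076) (nat_lit 12) nil nil)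
  nil)) (node (nat_lit 6) (nat_lit 23364) (nat_lit 10) (node (nat_lit 5) (nat_lit 23364) (nat_lit
  11) (node (nat_lit 4) (nat_lit 23364) (nat_lit 12) nil nil) nil) (node (nat_lit 5) (nat_lit
  21231) (nat_lit 10) (node (nat_lit 4) (nat_lit 21689) (nat_lit 11) nil nil) nil))) (node
  (nat_lit 6) (nat_lit 22936) (nat_lit 9) (node (nat_lit 5) (nat_lit 22936) (nat_lit 10) (node
  (nat_lit 4) (nat_lit 22936) (nat_lit 11) (node (nat_lit 5) (nat_lit 22936) (nat_lit 12) (node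
  (nat_lit 6) (nat_lit 23400) (nat_lit 13) nil nil) nil) nil) nil) (node (nat_lit 0) (nat_lit
  22829) (nat_lit 9) (node (nat_lit 11) (nat_lit 22829) (nat_lit 10) (node (nat_lit 5) (nat_lit
  22829) (nat_lit 11) nil nil) (node (nat_lit 6) (nat_lit 22969) (nat_lit 10) (node (nat_lit 5)
  (nat_lit 22969) (nat_lit 11) nil nil) (node (nat_lit 5) (nat_lit 22829) (nat_lit 10) nil nil)))
  nil)))) nil)))) (node (nat_lit 0) (nat_lit 0) (nat_lit 7) (node (nat_lit 5) (nat_lit 20711)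
  (nat_lit 8) (node (nat_lit 10) (nat_lit 22531) (nat_lit 9) (node (nat_lit 6) (nat_lit 22671)
  (nat_lit 10) (node (nat_lit 5) (nat_lit 22671) (nat_lit 11) nil nil) nil) (node (nat_lit 4)
  (nat_lit 21348) (nat_lit 9) (node (nat_lit 5) (nat_lit 21968) (nat_lit 10) (node (nat_lit 6)
  (nat_lit 22983) (nat_lit 11) nil nil) (node (nat_lit 6) (nat_lit 23110) (nat_lit 10) (node
  (nat_lit 5) (nat_lit 23110) (nat_lit 11) nil nil) nil)) (node (nat_lit 6) (nat_lit 22531)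
  (nat_lit 9) nil nil))) (node (nat_lit 6) (nat_lit 21725) (nat_lit 8) (node (nat_lit 5) (nat_lit
  21804) (nat_lit 9) (node (nat_lit 4) (nat_lit 21594) (nat_lit 10) (node (nat_lit 5) (nat_lit
  21594) (nat_lit 11) (node (nat_lit 6) (nat_lit 22263) (nat_lit 12) (node (nat_lit 4) (nat_lit
  22263) (nat_lit 13) nil nil) nil) nil) nil) (node (nat_lit 10) (nat_lit 22575) (nat_lit 9) (node
  (nat_lit 5) (nat_lit 22575) (nat_lit 10) (node (nat_lit 4) (nat_lit 22575) (nat_lit 11) nil nil)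
  nil) (node (nat_lit 4) (nat_lit 21985) (nat_lit 9) nil nil))) (node (nat_lit 4) (nat_lit 20754)
  (nat_lit 8) (node (nat_lit 5) (nat_lit 21317) (nat_lit 9) nil nil) (node (nat_lit 0) (nat_lit
  21679) (nat_lit 8) (node (nat_lit 5) (nat_lit 21679) (nat_lit 9) (node (nat_lit 4) (nat_lit
  21679) (nat_lit 10) nil nil) (node (nat_lit 4) (nat_lit 21679) (nat_lit 9) nil (node (nat_lit 6)
  (nat_lit 22401) (nat_lit 9) (node (nat_lit 5) (nat_lit 22401) (nat_lit 10) nil nil) nil))) (node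
  (nat_lit 2) (nat_lit 20823) (nat_lit 8) (node (nat_lit 5) (nat_lit 20935) (nat_lit 9) (node
  (nat_lit 4) (nat_lit 20935) (nat_lit 10) nil nil) (node (nat_lit 4) (nat_lit 20955) (nat_lit 9)
  (node (nat_lit 6) (nat_lit 21847) (nat_lit 10) nil (node (nat_lit 5) (nat_lit 20955) (nat_lit
  10) nil nil)) (node (nat_lit 6) (nat_lit 22516) (nat_lit 9) (node (nat_lit 5) (nat_lit 22516)
  (nat_lit 10) nil nil) nil))) nil))))) (node (nat_lit 2) (nat_lit 0) (nat_lit 7) (node (nat_lit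
  6) (nat_lit 21139) (nat_lit 8) (node (nat_lit 5) (nat_lit 21509) (nat_lit 9) (node (nat_lit 4)
  (nat_lit 21300) (nat_lit 10) (node (nat_lit 5) (nat_lit 21300) (nat_lit 11) (node (nat_lit 6)
  (nat_lit 21969) (nat_lit 12) (node (nat_lit 4) (nat_lit 21969) (nat_lit 13) nil nil) nil) nil)
  nil) (node (nat_lit 10) (nat_lit 21562) (nat_lit 9) (node (nat_lit 5) (nat_lit 21720) (nat_lit
  10) (node (nat_lit 4) (nat_lit 21878) (nat_lit 11) nil nil) (node (nat_lit 4) (nat_lit 21691)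
  (nat_lit 10) (node (nat_lit 6) (nat_lit 22673) (nat_lit 11) nil nil) nil)) (node (nat_lit 4)
  (nat_lit 21473) (nat_lit 9) (node (nat_lit 5) (nat_lit 21473) (nat_lit 10) nil nil) nil))) (node
  (nat_lit 5) (nat_lit 0) (nat_lit 8) (node (nat_lit 4) (nat_lit 14798) (nat_lit 9) (node (nat_lit
  5) (nat_lit 14798) (nat_lit 10) nil (node (nat_lit 6) (nat_lit 17958) (nat_lit 10) (node
  (nat_lit 5) (nat_lit 17737) (nat_lit 11) nil nil) nil)) (node (nat_lit 10) (nat_lit 14798)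
  (nat_lit 9) (node (nat_lit 4) (nat_lit 14798) (nat_lit 10) (node (nat_lit 6) (nat_lit 21197)
  (nat_lit 11) (node (nat_lit 5) (nat_lit 21197) (nat_lit 12) nil nil) (node (nat_lit 5) (nat_lit
  17149) (nat_lit 11) (node (nat_lit 4) (nat_lit 18549) (nat_lit 12) nil nil) nil)) (node (nat_lit
  6) (nat_lit 20691) (nat_lit 10) (node (nat_lit 5) (nat_lit 20691) (nat_lit 11) nil nil) nil))
  (node (nat_lit 6) (nat_lit 19961) (nat_lit 9) (node (nat_lit 4) (nat_lit 19961) (nat_lit 10) nil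
  (node (nat_lit 5) (nat_lit 19961) (nat_lit 10) (node (nat_lit 4) (nat_lit 19961) (nat_lit 11)
  nil nil) nil)) (node (nat_lit 0) (nat_lit 19955) (nat_lit 9) nil nil)))) (node (nat_lit 4)
  (nat_lit 14798) (nat_lit 8) (node (nat_lit 6) (nat_lit 21978) (nat_lit 9) (node (nat_lit 5)
  (nat_lit 21978) (nat_lit 10) (node (nat_lit 4) (nat_lit 21978) (nat_lit 11) (node (nat_lit 5)
  (nat_lit 21978) (nat_lit 12) nil nil) nil) nil) (node (nat_lit 5) (nat_lit 14798) (nat_lit 9)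
  (node (nat_lit 6) (nat_lit 20922) (nat_lit 10) nil (node (nat_lit 4) (nat_lit 14798) (nat_lit
  10) (node (nat_lit 6) (nat_lit 18517) (nat_lit 11) nil nil) (node (nat_lit 10) (nat_lit 14798)
  (nat_lit 10) (node (nat_lit 4) (nat_lit 16864) (nat_lit 11) nil nil) nil))) nil)) (node (nat_lit
  0) (nat_lit 21060) (nat_lit 8) (node (nat_lit 5) (nat_lit 20907) (nat_lit 9) (node (nat_lit 4)
  (nat_lit 20907) (nat_lit 10) nil (node (nat_lit 6) (nat_lit 21342) (nat_lit 10) nil nil)) (node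
  (nat_lit 4) (nat_lit 20919) (nat_lit 9) (node (nat_lit 6) (nat_lit 21354) (nat_lit 10) nil (node
  (nat_lit 5) (nat_lit 20919) (nat_lit 10) nil nil)) (node (nat_lit 6) (nat_lit 22041) (nat_lit 9)
  (node (nat_lit 5) (nat_lit 22041) (nat_lit 10) nil (node (nat_lit 4) (nat_lit 22041) (nat_lit
  10) nil nil)) nil))) nil)))) nil))) nil) nil))

noncomputable def t277 : Tr :=
  (node (nat_lit 1) (nat_lit 0) (nat_lit 3) (node (nat_lit 4) (nat_lit 0) (nat_lit 4) t276 (node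
  (nat_lit 5) (nat_lit 0) (nat_lit 4) (node (nat_lit 4) (nat_lit 0) (nat_lit 5) (node (nat_lit 6)
  (nat_lit 0) (nat_lit 6) (node (nat_lit 5) (nat_lit 0) (nat_lit 7) (node (nat_lit 6) (nat_lit 0)
  (nat_lit 8) (node (nat_lit 4) (nat_lit 0) (nat_lit 9) (node (nat_lit 0) (nat_lit 111213)
  (nat_lit 10) (node (nat_lit 6) (nat_lit 113234) (nat_lit 11) nil nil) (node (nat_lit 2) (nat_lit
  111533) (nat_lit 10) (node (nat_lit 6) (nat_lit 113555) (nat_lit 11) (node (nat_lit 4) (nat_lit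
  111730) (nat_lit 12) nil nil) (node (nat_lit 5) (nat_lit 111353) (nat_lit 11) (node (nat_lit 4)
  (nat_lit 107838) (nat_lit 12) nil nil) nil)) (node (nat_lit 5) (nat_lit 111533) (nat_lit 10)
  (node (nat_lit 6) (nat_lit 110622) (nat_lit 11) (node (nat_lit 5) (nat_lit 107521) (nat_lit 12)
  (node (nat_lit 4) (nat_lit 99562) (nat_lit 13) (node (nat_lit 6) (nat_lit 72759) (nat_lit 14)
  nil nil) nil) nil) nil) (node (nat_lit 6) (nat_lit 110356) (nat_lit 10) nil nil)))) (node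
  (nat_lit 0) (nat_lit 108621) (nat_lit 9) (node (nat_lit 6) (nat_lit 111213) (nat_lit 10) nil
  (node (nat_lit 5) (nat_lit 108495) (nat_lit 10) (node (nat_lit 4) (nat_lit 108338) (nat_lit 11)
  nil (node (nat_lit 6) (nat_lit 110372) (nat_lit 11) nil nil)) nil)) (node (nat_lit 2) (nat_lit
  108621) (nat_lit 9) (node (nat_lit 6) (nat_lit 110174) (nat_lit 10) (node (nat_lit 4) (nat_lit
  111640) (nat_lit 11) nil nil) (node (nat_lit 5) (nat_lit 111258) (nat_lit 10) (node (nat_lit 4)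
  (nat_lit 110030) (nat_lit 11) nil (node (nat_lit 6) (nat_lit 110692) (nat_lit 11) nil nil))
  nil)) nil))) (node (nat_lit 0) (nat_lit 112337) (nat_lit 8) (node (nat_lit 6) (nat_lit 113995)
  (nat_lit 9) (node (nat_lit 4) (nat_lit 115108) (nat_lit 10) nil nil) (node (nat_lit 5) (nat_lit
  113995) (nat_lit 9) (node (nat_lit 4) (nat_lit 112869) (nat_lit 10) nil nil) nil)) (node
  (nat_lit 2) (nat_lit 112337) (nat_lit 8) (node (nat_lit 4) (nat_lit 111216) (nat_lit 9) nil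
  (node (nat_lit 6) (nat_lit 112917) (nat_lit 9) (node (nat_lit 5) (nat_lit 111791) (nat_lit 10)
  nil (node (nat_lit 4) (nat_lit 114030) (nat_lit 10) (node (nat_lit 5) (nat_lit 114353) (nat_lit
  11) (node (nat_lit 6) (nat_lit 101896) (nat_lit 12) nil nil) nil) nil)) (node (nat_lit 5)
  (nat_lit 111959) (nat_lit 9) (node (nat_lit 4) (nat_lit 110594) (nat_lit 10) (node (nat_lit 5)
  (nat_lit 101263) (nat_lit 11) (node (nat_lit 6) (nat_lit 97447) (nat_lit 12) (node (nat_lit 5)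
  (nat_lit 83300) (nat_lit 13) nil nil) nil) nil) nil) nil))) nil))) (node (nat_lit 4) (nat_lit 0)
  (nat_lit 7) (node (nat_lit 5) (nat_lit 0) (nat_lit 8) (node (nat_lit 6) (nat_lit 0) (nat_lit 9)
  (node (nat_lit 0) (nat_lit 97203) (nat_lit 10) (node (nat_lit 5) (nat_lit 97203) (nat_lit 11)
  nil nil) (node (nat_lit 2) (nat_lit 94383) (nat_lit 10) (node (nat_lit 5) (nat_lit 95516)
  (nat_lit 11) (node (nat_lit 6) (nat_lit 95702) (nat_lit 12) nil nil) (node (nat_lit 6) (nat_lit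
  97111) (nat_lit 11) nil nil)) (node (nat_lit 4) (nat_lit 95671) (nat_lit 10) nil nil))) (node
  (nat_lit 4) (nat_lit 0) (nat_lit 9) (node (nat_lit 0) (nat_lit 110927) (nat_lit 10) (node
  (nat_lit 5) (nat_lit 110770) (nat_lit 11) nil nil) (node (nat_lit 2) (nat_lit 110927) (nat_lit
  10) (node (nat_lit 5) (nat_lit 110747) (nat_lit 11) (node (nat_lit 4) (nat_lit 111401) (nat_lit
  12) (node (nat_lit 5) (nat_lit 108486) (nat_lit 13) nil nil) nil) (node (nat_lit 6) (nat_lit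
  112949) (nat_lit 11) nil nil)) nil)) (node (nat_lit 0) (nat_lit 108015) (nat_lit 9) (node
  (nat_lit 6) (nat_lit 110607) (nat_lit 10) nil (node (nat_lit 5) (nat_lit 110607) (nat_lit 10)
  nil (node (nat_lit 4) (nat_lit 107889) (nat_lit 10) nil nil))) (node (nat_lit 2) (nat_lit
  108015) (nat_lit 9) (node (nat_lit 6) (nat_lit 108714) (nat_lit 10) (node (nat_lit 4) (nat_lit
  111441) (nat_lit 11) nil nil) (node (nat_lit 5) (nat_lit 110114) (nat_lit 10) (node (nat_lit 6)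
  (nat_lit 112456) (nat_lit 11) nil (node (nat_lit 4) (nat_lit 109454) (nat_lit 11) (node (nat_lit
  5) (nat_lit 108194) (nat_lit 12) (node (nat_lit 6) (nat_lit 100045) (nat_lit 13) nil nil) nil)
  nil)) (node (nat_lit 4) (nat_lit 110607) (nat_lit 10) nil nil))) nil)))) (node (nat_lit 0)
  (nat_lit 111731) (nat_lit 8) (node (nat_lit 5) (nat_lit 113389) (nat_lit 9) (node (nat_lit 4)
  (nat_lit 112263) (nat_lit 10) (node (nat_lit 5) (nat_lit 113244) (nat_lit 11) (node (nat_lit 6)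
  (nat_lit 114133) (nat_lit 12) (node (nat_lit 5) (nat_lit 114856) (nat_lit 13) nil nil) nil) nil)
  nil) (node (nat_lit 6) (nat_lit 113389) (nat_lit 9) (node (nat_lit 4) (nat_lit 114502) (nat_lit
  10) nil nil) nil)) (node (nat_lit 2) (nat_lit 111731) (nat_lit 8) (node (nat_lit 5) (nat_lit
  107032) (nat_lit 9) (node (nat_lit 4) (nat_lit 104948) (nat_lit 10) (node (nat_lit 5) (nat_lit
  102242) (nat_lit 11) (node (nat_lit 6) (nat_lit 99295) (nat_lit 12) (node (nat_lit 5) (nat_lit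
  93242) (nat_lit 13) nil nil) nil) nil) nil) (node (nat_lit 6) (nat_lit 112311) (nat_lit 9) (node
  (nat_lit 4) (nat_lit 113424) (nat_lit 10) (node (nat_lit 5) (nat_lit 112557) (nat_lit 11) (node
  (nat_lit 6) (nat_lit 99829) (nat_lit 12) (node (nat_lit 5) (nat_lit 93776) (nat_lit 13) (node
  (nat_lit 4) (nat_lit 80658) (nat_lit 14) (node (nat_lit 6) (nat_lit 60947) (nat_lit 15) nil nil)
  nil) nil) nil) nil) nil) nil)) nil))) (node (nat_lit 0) (nat_lit 0) (nat_lit 7) (node (nat_lit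
  5) (nat_lit 115709) (nat_lit 8) (node (nat_lit 4) (nat_lit 114820) (nat_lit 9) (node (nat_lit 5)
  (nat_lit 115932) (nat_lit 10) (node (nat_lit 6) (nat_lit 116914) (nat_lit 11) nil nil) nil) nil)
  (node (nat_lit 4) (nat_lit 115709) (nat_lit 8) (node (nat_lit 6) (nat_lit 116397) (nat_lit 9)
  nil nil) (node (nat_lit 6) (nat_lit 115709) (nat_lit 8) (node (nat_lit 4) (nat_lit 116397)
  (nat_lit 9) (node (nat_lit 5) (nat_lit 116907) (nat_lit 10) (node (nat_lit 6) (nat_lit 117358)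
  (nat_lit 11) (node (nat_lit 5) (nat_lit 117765) (nat_lit 12) (node (nat_lit 4) (nat_lit 118097)
  (nat_lit 13) (node (nat_lit 6) (nat_lit 118354) (nat_lit 14) nil nil) nil) nil) nil) nil) nil)
  (node (nat_lit 0) (nat_lit 115709) (nat_lit 8) (node (nat_lit 6) (nat_lit 116397) (nat_lit 9)
  nil (node (nat_lit 5) (nat_lit 114820) (nat_lit 9) nil nil)) (node (nat_lit 2) (nat_lit 112308)
  (nat_lit 8) (node (nat_lit 6) (nat_lit 112941) (nat_lit 9) (node (nat_lit 4) (nat_lit 113096)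
  (nat_lit 10) nil nil) (node (nat_lit 5) (nat_lit 111073) (nat_lit 9) (node (nat_lit 4) (nat_lit
  108989) (nat_lit 10) nil (node (nat_lit 6) (nat_lit 110984) (nat_lit 10) nil nil)) nil))
  nil))))) (node (nat_lit 2) (nat_lit 0) (nat_lit 7) (node (nat_lit 5) (nat_lit 114089) (nat_lit
  8) (node (nat_lit 4) (nat_lit 113204) (nat_lit 9) (node (nat_lit 5) (nat_lit 109339) (nat_lit
  10) (node (nat_lit 6) (nat_lit 104244) (nat_lit 11) (node (nat_lit 5) (nat_lit 85425) (nat_lit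
  12) (node (nat_lit 4) (nat_lit 70847) (nat_lit 13) nil nil) nil) nil) nil) (node (nat_lit 6)
  (nat_lit 112448) (nat_lit 9) (node (nat_lit 4) (nat_lit 112602) (nat_lit 10) nil nil) nil))
  (node (nat_lit 4) (nat_lit 115333) (nat_lit 8) (node (nat_lit 6) (nat_lit 116020) (nat_lit 9)
  nil nil) (node (nat_lit 6) (nat_lit 111281) (nat_lit 8) (node (nat_lit 4) (nat_lit 113077)
  (nat_lit 9) (node (nat_lit 5) (nat_lit 110608) (nat_lit 10) (node (nat_lit 6) (nat_lit 106329)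
  (nat_lit 11) (node (nat_lit 5) (nat_lit 101920) (nat_lit 12) (node (nat_lit 4) (nat_lit 88076)
  (nat_lit 13) (node (nat_lit 6) (nat_lit 46783) (nat_lit 14) nil nil) nil) nil) nil) nil) nil)
  (node (nat_lit 0) (nat_lit 115333) (nat_lit 8) (node (nat_lit 6) (nat_lit 116020) (nat_lit 9)
  nil (node (nat_lit 5) (nat_lit 114326) (nat_lit 9) nil nil)) nil)))) nil)))) (node (nat_lit 5)
  (nat_lit 0) (nat_lit 6) (node (nat_lit 6) (nat_lit 57623) (nat_lit 7) (node (nat_lit 0) (nat_lit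
  67226) (nat_lit 8) nil (node (nat_lit 2) (nat_lit 69476) (nat_lit 8) nil nil)) (node (nat_lit 0)
  (nat_lit 106736) (nat_lit 7) (node (nat_lit 5) (nat_lit 107370) (nat_lit 8) (node (nat_lit 4)
  (nat_lit 106249) (nat_lit 9) (node (nat_lit 5) (nat_lit 107361) (nat_lit 10) (node (nat_lit 6)
  (nat_lit 108343) (nat_lit 11) (node (nat_lit 5) (nat_lit 109231) (nat_lit 12) (node (nat_lit 4)
  (nat_lit 108817) (nat_lit 13) nil nil) nil) nil) nil) nil) nil) (node (nat_lit 2) (nat_lit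
  100971) (nat_lit 7) (node (nat_lit 5) (nat_lit 96677) (nat_lit 8) (node (nat_lit 4) (nat_lit
  93205) (nat_lit 9) (node (nat_lit 5) (nat_lit 92515) (nat_lit 10) (node (nat_lit 6) (nat_lit
  86721) (nat_lit 11) (node (nat_lit 5) (nat_lit 79650) (nat_lit 12) (node (nat_lit 4) (nat_lit
  68183) (nat_lit 13) nil nil) nil) nil) nil) nil) nil) nil))) nil)) nil) nil)) (node (nat_lit 4)
  (nat_lit 0) (nat_lit 3) (node (nat_lit 1) (nat_lit 0) (nat_lit 4) (node (nat_lit 5) (nat_lit 0)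
  (nat_lit 5) (node (nat_lit 7) (nat_lit 0) (nat_lit 6) (node (nat_lit 4) (nat_lit 58840) (nat_lit
  7) (node (nat_lit 5) (nat_lit 59724) (nat_lit 8) (node (nat_lit 4) (nat_lit 57747) (nat_lit 9)
  nil nil) nil) (node (nat_lit 0) (nat_lit 68770) (nat_lit 7) nil (node (nat_lit 2) (nat_lit
  68770) (nat_lit 7) nil nil))) (node (nat_lit 4) (nat_lit 0) (nat_lit 6) (node (nat_lit 5)
  (nat_lit 57812) (nat_lit 7) (node (nat_lit 7) (nat_lit 63314) (nat_lit 8) (node (nat_lit 4)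
  (nat_lit 64701) (nat_lit 9) (node (nat_lit 5) (nat_lit 63255) (nat_lit 10) (node (nat_lit 4)
  (nat_lit 64387) (nat_lit 11) (node (nat_lit 7) (nat_lit 65542) (nat_lit 12) nil nil) nil) nil)
  nil) nil) (node (nat_lit 0) (nat_lit 61379) (nat_lit 7) (node (nat_lit 7) (nat_lit 63805)
  (nat_lit 8) (node (nat_lit 4) (nat_lit 64734) (nat_lit 9) (node (nat_lit 5) (nat_lit 65318)
  (nat_lit 10) nil nil) nil) nil) (node (nat_lit 2) (nat_lit 66728) (nat_lit 7) nil nil))) nil))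
  (node (nat_lit 4) (nat_lit 0) (nat_lit 5) (node (nat_lit 5) (nat_lit 0) (nat_lit 6) (node
  (nat_lit 7) (nat_lit 0) (nat_lit 7) (node (nat_lit 5) (nat_lit 0) (nat_lit 8) (node (nat_lit 4)
  (nat_lit 0) (nat_lit 9) (node (nat_lit 0) (nat_lit 58335) (nat_lit 10) (node (nat_lit 5)
  (nat_lit 59502) (nat_lit 11) nil (node (nat_lit 7) (nat_lit 59502) (nat_lit 11) nil nil)) (node
  (nat_lit 2) (nat_lit 58258) (nat_lit 10) (node (nat_lit 5) (nat_lit 59424) (nat_lit 11) nil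
  (node (nat_lit 7) (nat_lit 59424) (nat_lit 11) nil (node (nat_lit 4) (nat_lit 59537) (nat_lit
  11) nil nil))) (node (nat_lit 7) (nat_lit 58258) (nat_lit 10) (node (nat_lit 4) (nat_lit 59537)
  (nat_lit 11) nil nil) (node (nat_lit 5) (nat_lit 58258) (nat_lit 10) nil nil)))) (node (nat_lit
  0) (nat_lit 56683) (nat_lit 9) (node (nat_lit 5) (nat_lit 58177) (nat_lit 10) nil (node (nat_lit
  7) (nat_lit 58177) (nat_lit 10) (node (nat_lit 4) (nat_lit 59344) (nat_lit 11) (node (nat_lit 5)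
  (nat_lit 60254) (nat_lit 12) nil nil) nil) (node (nat_lit 4) (nat_lit 58255) (nat_lit 10) nil
  nil))) (node (nat_lit 2) (nat_lit 0) (nat_lit 9) (node (nat_lit 5) (nat_lit 54763) (nat_lit 10)
  (node (nat_lit 7) (nat_lit 55930) (nat_lit 11) nil nil) (node (nat_lit 7) (nat_lit 54763)
  (nat_lit 10) (node (nat_lit 4) (nat_lit 58850) (nat_lit 11) (node (nat_lit 5) (nat_lit 58873)
  (nat_lit 12) nil nil) nil) (node (nat_lit 4) (nat_lit 57622) (nat_lit 10) nil (node (nat_lit 0)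
  (nat_lit 57622) (nat_lit 10) nil nil)))) nil))) (node (nat_lit 4) (nat_lit 0) (nat_lit 8) (node
  (nat_lit 7) (nat_lit 0) (nat_lit 9) (node (nat_lit 0) (nat_lit 58266) (nat_lit 10) (node
  (nat_lit 4) (nat_lit 59495) (nat_lit 11) nil (node (nat_lit 7) (nat_lit 59433) (nat_lit 11)
  (node (nat_lit 4) (nat_lit 60343) (nat_lit 12) nil nil) nil)) (node (nat_lit 2) (nat_lit 58088)
  (nat_lit 10) (node (nat_lit 4) (nat_lit 59495) (nat_lit 11) (node (nat_lit 7) (nat_lit 60405)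
  (nat_lit 12) nil nil) (node (nat_lit 7) (nat_lit 59254) (nat_lit 11) (node (nat_lit 4) (nat_lit
  56184) (nat_lit 12) nil nil) nil)) nil)) (node (nat_lit 0) (nat_lit 56694) (nat_lit 9) (node
  (nat_lit 4) (nat_lit 58266) (nat_lit 10) (node (nat_lit 7) (nat_lit 59433) (nat_lit 11) nil nil)
  (node (nat_lit 7) (nat_lit 58188) (nat_lit 10) (node (nat_lit 4) (nat_lit 59355) (nat_lit 11)
  nil nil) nil)) (node (nat_lit 2) (nat_lit 56593) (nat_lit 9) (node (nat_lit 4) (nat_lit 58266)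
  (nat_lit 10) (node (nat_lit 7) (nat_lit 59433) (nat_lit 11) nil nil) (node (nat_lit 7) (nat_lit
  58088) (nat_lit 10) (node (nat_lit 4) (nat_lit 59495) (nat_lit 11) nil nil) (node (nat_lit 5)
  (nat_lit 58088) (nat_lit 10) nil nil))) nil))) (node (nat_lit 0) (nat_lit 0) (nat_lit 8) (node
  (nat_lit 4) (nat_lit 60211) (nat_lit 9) nil (node (nat_lit 5) (nat_lit 59970) (nat_lit 9) nil
  (node (nat_lit 7) (nat_lit 59970) (nat_lit 9) (node (nat_lit 4) (nat_lit 60554) (nat_lit 10)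
  (node (nat_lit 5) (nat_lit 61068) (nat_lit 11) (node (nat_lit 4) (nat_lit 60025) (nat_lit 12)
  nil nil) nil) nil) (node (nat_lit 0) (nat_lit 59970) (nat_lit 9) nil (node (nat_lit 2) (nat_lit
  59970) (nat_lit 9) (node (nat_lit 7) (nat_lit 60554) (nat_lit 10) (node (nat_lit 4) (nat_lit
  55932) (nat_lit 11) nil nil) nil) nil))))) (node (nat_lit 2) (nat_lit 0) (nat_lit 8) (node
  (nat_lit 4) (nat_lit 59422) (nat_lit 9) (node (nat_lit 7) (nat_lit 60006) (nat_lit 10) nil nil)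
  (node (nat_lit 5) (nat_lit 56898) (nat_lit 9) (node (nat_lit 7) (nat_lit 57483) (nat_lit 10)
  (node (nat_lit 4) (nat_lit 59448) (nat_lit 11) (node (nat_lit 5) (nat_lit 53820) (nat_lit 12)
  nil nil) nil) nil) (node (nat_lit 7) (nat_lit 56800) (nat_lit 9) (node (nat_lit 4) (nat_lit
  59365) (nat_lit 10) (node (nat_lit 5) (nat_lit 55833) (nat_lit 11) (node (nat_lit 4) (nat_lit
  55323) (nat_lit 12) (node (nat_lit 7) (nat_lit 48550) (nat_lit 13) nil nil) nil) nil) nil) (node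
  (nat_lit 0) (nat_lit 59422) (nat_lit 9) (node (nat_lit 7) (nat_lit 60006) (nat_lit 10) nil nil)
  nil)))) nil)))) (node (nat_lit 0) (nat_lit 0) (nat_lit 7) (node (nat_lit 4) (nat_lit 59398)
  (nat_lit 8) (node (nat_lit 7) (nat_lit 60327) (nat_lit 9) nil (node (nat_lit 10) (nat_lit 60327)
  (nat_lit 9) nil nil)) (node (nat_lit 7) (nat_lit 59157) (nat_lit 8) (node (nat_lit 4) (nat_lit
  60085) (nat_lit 9) (node (nat_lit 5) (nat_lit 60670) (nat_lit 10) (node (nat_lit 4) (nat_lit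
  59302) (nat_lit 11) (node (nat_lit 7) (nat_lit 59512) (nat_lit 12) nil nil) nil) nil) (node
  (nat_lit 10) (nat_lit 60369) (nat_lit 9) nil nil)) (node (nat_lit 5) (nat_lit 59157) (nat_lit 8)
  (node (nat_lit 7) (nat_lit 60085) (nat_lit 9) (node (nat_lit 4) (nat_lit 60989) (nat_lit 10)
  (node (nat_lit 5) (nat_lit 61451) (nat_lit 11) (node (nat_lit 4) (nat_lit 54715) (nat_lit 12)
  (node (nat_lit 7) (nat_lit 41169) (nat_lit 13) nil nil) nil) nil) nil) nil) (node (nat_lit 0)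
  (nat_lit 59398) (nat_lit 8) (node (nat_lit 4) (nat_lit 57464) (nat_lit 9) nil (node (nat_lit 7)
  (nat_lit 60327) (nat_lit 9) (node (nat_lit 4) (nat_lit 60911) (nat_lit 10) nil nil) nil)) (node
  (nat_lit 2) (nat_lit 59157) (nat_lit 8) (node (nat_lit 4) (nat_lit 60369) (nat_lit 9) (node
  (nat_lit 7) (nat_lit 60953) (nat_lit 10) nil nil) (node (nat_lit 7) (nat_lit 60085) (nat_lit 9)
  (node (nat_lit 4) (nat_lit 60989) (nat_lit 10) nil nil) (node (nat_lit 5) (nat_lit 60085)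
  (nat_lit 9) (node (nat_lit 7) (nat_lit 57268) (nat_lit 10) nil nil) nil))) nil))))) (node
  (nat_lit 2) (nat_lit 0) (nat_lit 7) (node (nat_lit 4) (nat_lit 59203) (nat_lit 8) (node (nat_lit
  5) (nat_lit 60132) (nat_lit 9) nil (node (nat_lit 7) (nat_lit 60132) (nat_lit 9) (node (nat_lit
  5) (nat_lit 60716) (nat_lit 10) nil (node (nat_lit 4) (nat_lit 61001) (nat_lit 10) (node
  (nat_lit 5) (nat_lit 60938) (nat_lit 11) nil nil) nil)) (node (nat_lit 10) (nat_lit 60132)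
  (nat_lit 9) nil nil))) (node (nat_lit 7) (nat_lit 55516) (nat_lit 8) (node (nat_lit 4) (nat_lit
  59209) (nat_lit 9) (node (nat_lit 5) (nat_lit 59793) (nat_lit 10) (node (nat_lit 4) (nat_lit
  38622) (nat_lit 11) (node (nat_lit 7) (nat_lit 27750) (nat_lit 12) nil nil) nil) nil) (node
  (nat_lit 10) (nat_lit 57013) (nat_lit 9) (node (nat_lit 4) (nat_lit 59354) (nat_lit 10) nil
  (node (nat_lit 5) (nat_lit 57566) (nat_lit 10) nil nil)) nil)) (node (nat_lit 5) (nat_lit 55840)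
  (nat_lit 8) (node (nat_lit 7) (nat_lit 57065) (nat_lit 9) (node (nat_lit 4) (nat_lit 59406)
  (nat_lit 10) (node (nat_lit 5) (nat_lit 59920) (nat_lit 11) (node (nat_lit 4) (nat_lit 54715)
  (nat_lit 12) (node (nat_lit 7) (nat_lit 40273) (nat_lit 13) nil nil) nil) nil) nil) (node
  (nat_lit 4) (nat_lit 59532) (nat_lit 9) (node (nat_lit 7) (nat_lit 56715) (nat_lit 10) nil nil)
  nil)) (node (nat_lit 0) (nat_lit 59203) (nat_lit 8) (node (nat_lit 4) (nat_lit 57270) (nat_lit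
  9) nil (node (nat_lit 7) (nat_lit 60132) (nat_lit 9) (node (nat_lit 4) (nat_lit 60716) (nat_lit
  10) nil nil) (node (nat_lit 5) (nat_lit 57270) (nat_lit 9) (node (nat_lit 7) (nat_lit 57315)
  (nat_lit 10) nil nil) nil))) nil)))) nil))) nil) nil)) nil) nil))

noncomputable def t278 : Tr :=
  (node (nat_lit 6) (nat_lit 0) (nat_lit 6) (node (nat_lit 5) (nat_lit 0) (nat_lit 7) (node
  (nat_lit 6) (nat_lit 0) (nat_lit 8) (node (nat_lit 4) (nat_lit 109233) (nat_lit 9) (node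
  (nat_lit 0) (nat_lit 111825) (nat_lit 10) (node (nat_lit 6) (nat_lit 112004) (nat_lit 11) nil
  (node (nat_lit 5) (nat_lit 111668) (nat_lit 11) nil nil)) (node (nat_lit 2) (nat_lit 108868)
  (nat_lit 10) (node (nat_lit 6) (nat_lit 109595) (nat_lit 11) (node (nat_lit 4) (nat_lit 107770)
  (nat_lit 12) (node (nat_lit 5) (nat_lit 107444) (nat_lit 13) (node (nat_lit 6) (nat_lit 105817)
  (nat_lit 14) nil nil) nil) nil) (node (nat_lit 5) (nat_lit 108842) (nat_lit 11) (node (nat_lit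
  4) (nat_lit 110302) (nat_lit 12) nil nil) nil)) (node (nat_lit 5) (nat_lit 112529) (nat_lit 10)
  (node (nat_lit 6) (nat_lit 104239) (nat_lit 11) (node (nat_lit 5) (nat_lit 106075) (nat_lit 12)
  (node (nat_lit 4) (nat_lit 98847) (nat_lit 13) (node (nat_lit 6) (nat_lit 61422) (nat_lit 14)
  nil nil) nil) nil) nil) nil))) (node (nat_lit 0) (nat_lit 109233) (nat_lit 9) (node (nat_lit 6)
  (nat_lit 109528) (nat_lit 10) (node (nat_lit 4) (nat_lit 111549) (nat_lit 11) nil nil) (node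
  (nat_lit 5) (nat_lit 112047) (nat_lit 10) (node (nat_lit 4) (nat_lit 112908) (nat_lit 11) nil
  nil) nil)) (node (nat_lit 2) (nat_lit 0) (nat_lit 9) (node (nat_lit 6) (nat_lit 105308) (nat_lit
  10) (node (nat_lit 4) (nat_lit 109786) (nat_lit 11) (node (nat_lit 5) (nat_lit 110053) (nat_lit
  12) (node (nat_lit 6) (nat_lit 102149) (nat_lit 13) (node (nat_lit 5) (nat_lit 98859) (nat_lit
  14) nil nil) nil) nil) (node (nat_lit 5) (nat_lit 105308) (nat_lit 11) (node (nat_lit 4)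
  (nat_lit 109593) (nat_lit 12) (node (nat_lit 5) (nat_lit 107918) (nat_lit 13) nil nil) nil)
  nil)) (node (nat_lit 5) (nat_lit 105308) (nat_lit 10) (node (nat_lit 4) (nat_lit 109543)
  (nat_lit 11) (node (nat_lit 5) (nat_lit 108315) (nat_lit 12) nil nil) (node (nat_lit 6) (nat_lit
  105308) (nat_lit 11) nil nil)) (node (nat_lit 0) (nat_lit 108810) (nat_lit 10) nil (node
  (nat_lit 4) (nat_lit 108810) (nat_lit 10) nil nil)))) nil))) (node (nat_lit 0) (nat_lit 111779)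
  (nat_lit 8) (node (nat_lit 6) (nat_lit 110782) (nat_lit 9) (node (nat_lit 4) (nat_lit 111895)
  (nat_lit 10) (node (nat_lit 5) (nat_lit 112876) (nat_lit 11) (node (nat_lit 6) (nat_lit 112365)
  (nat_lit 12) nil nil) nil) nil) (node (nat_lit 5) (nat_lit 110658) (nat_lit 9) (node (nat_lit 4)
  (nat_lit 111770) (nat_lit 10) (node (nat_lit 5) (nat_lit 112752) (nat_lit 11) (node (nat_lit 6)
  (nat_lit 112241) (nat_lit 12) nil nil) nil) nil) nil)) (node (nat_lit 2) (nat_lit 0) (nat_lit 8)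
  (node (nat_lit 4) (nat_lit 110268) (nat_lit 9) (node (nat_lit 6) (nat_lit 110268) (nat_lit 10)
  (node (nat_lit 4) (nat_lit 110726) (nat_lit 11) (node (nat_lit 5) (nat_lit 110726) (nat_lit 12)
  (node (nat_lit 6) (nat_lit 110726) (nat_lit 13) (node (nat_lit 5) (nat_lit 110726) (nat_lit 14)
  (node (nat_lit 4) (nat_lit 111174) (nat_lit 15) nil nil) nil) nil) nil) nil) nil) (node (nat_lit
  6) (nat_lit 108138) (nat_lit 9) (node (nat_lit 5) (nat_lit 108138) (nat_lit 10) (node (nat_lit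
  4) (nat_lit 110161) (nat_lit 11) nil nil) (node (nat_lit 4) (nat_lit 109969) (nat_lit 10) (node
  (nat_lit 5) (nat_lit 107264) (nat_lit 11) (node (nat_lit 6) (nat_lit 102530) (nat_lit 12) (node
  (nat_lit 5) (nat_lit 88679) (nat_lit 13) nil nil) nil) nil) (node (nat_lit 11) (nat_lit 108138)
  (nat_lit 10) nil nil))) (node (nat_lit 5) (nat_lit 108138) (nat_lit 9) (node (nat_lit 4)
  (nat_lit 109191) (nat_lit 10) (node (nat_lit 5) (nat_lit 106486) (nat_lit 11) (node (nat_lit 6)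
  (nat_lit 101752) (nat_lit 12) (node (nat_lit 5) (nat_lit 81727) (nat_lit 13) nil nil) nil) nil)
  (node (nat_lit 6) (nat_lit 108138) (nat_lit 10) (node (nat_lit 4) (nat_lit 109593) (nat_lit 11)
  (node (nat_lit 5) (nat_lit 108351) (nat_lit 12) nil nil) nil) nil)) (node (nat_lit 0) (nat_lit
  110268) (nat_lit 9) (node (nat_lit 5) (nat_lit 110268) (nat_lit 10) (node (nat_lit 4) (nat_lit
  110726) (nat_lit 11) nil nil) (node (nat_lit 6) (nat_lit 110268) (nat_lit 10) nil nil)) nil))))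
  nil))) (node (nat_lit 4) (nat_lit 0) (nat_lit 7) (node (nat_lit 5) (nat_lit 0) (nat_lit 8) (node
  (nat_lit 6) (nat_lit 109369) (nat_lit 9) nil (node (nat_lit 4) (nat_lit 0) (nat_lit 9) (node
  (nat_lit 0) (nat_lit 111928) (nat_lit 10) (node (nat_lit 5) (nat_lit 111771) (nat_lit 11) nil
  nil) (node (nat_lit 2) (nat_lit 110565) (nat_lit 10) (node (nat_lit 5) (nat_lit 112797) (nat_lit
  11) nil nil) nil)) (node (nat_lit 0) (nat_lit 108633) (nat_lit 9) (node (nat_lit 6) (nat_lit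
  108927) (nat_lit 10) nil (node (nat_lit 5) (nat_lit 111928) (nat_lit 10) nil nil)) (node
  (nat_lit 2) (nat_lit 108562) (nat_lit 9) (node (nat_lit 6) (nat_lit 111301) (nat_lit 10) nil
  (node (nat_lit 5) (nat_lit 111301) (nat_lit 10) (node (nat_lit 4) (nat_lit 109344) (nat_lit 11)
  nil nil) nil)) nil)))) (node (nat_lit 0) (nat_lit 111779) (nat_lit 8) (node (nat_lit 5) (nat_lit
  110658) (nat_lit 9) (node (nat_lit 4) (nat_lit 111770) (nat_lit 10) (node (nat_lit 5) (nat_lit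
  112752) (nat_lit 11) (node (nat_lit 6) (nat_lit 112241) (nat_lit 12) (node (nat_lit 5) (nat_lit
  112481) (nat_lit 13) nil nil) nil) nil) nil) (node (nat_lit 6) (nat_lit 111685) (nat_lit 9)
  (node (nat_lit 4) (nat_lit 112797) (nat_lit 10) (node (nat_lit 5) (nat_lit 113521) (nat_lit 11)
  (node (nat_lit 6) (nat_lit 113268) (nat_lit 12) nil nil) nil) nil) nil)) (node (nat_lit 2)
  (nat_lit 111742) (nat_lit 8) (node (nat_lit 5) (nat_lit 113052) (nat_lit 9) (node (nat_lit 6)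
  (nat_lit 112165) (nat_lit 10) (node (nat_lit 4) (nat_lit 110329) (nat_lit 11) nil nil) (node
  (nat_lit 4) (nat_lit 113521) (nat_lit 10) (node (nat_lit 5) (nat_lit 112694) (nat_lit 11) (node
  (nat_lit 6) (nat_lit 108348) (nat_lit 12) (node (nat_lit 5) (nat_lit 101813) (nat_lit 13) (node
  (nat_lit 4) (nat_lit 70905) (nat_lit 14) (node (nat_lit 6) (nat_lit 58146) (nat_lit 15) nil nil)
  nil) nil) nil) nil) nil)) (node (nat_lit 6) (nat_lit 111747) (nat_lit 9) (node (nat_lit 5)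
  (nat_lit 109794) (nat_lit 10) (node (nat_lit 4) (nat_lit 110220) (nat_lit 11) nil nil) (node
  (nat_lit 4) (nat_lit 112584) (nat_lit 10) (node (nat_lit 5) (nat_lit 112584) (nat_lit 11) (node
  (nat_lit 6) (nat_lit 109982) (nat_lit 12) (node (nat_lit 5) (nat_lit 103597) (nat_lit 13) nil
  nil) nil) nil) nil)) nil)) nil))) (node (nat_lit 0) (nat_lit 0) (nat_lit 7) (node (nat_lit 5)
  (nat_lit 113185) (nat_lit 8) (node (nat_lit 4) (nat_lit 113951) (nat_lit 9) (node (nat_lit 5)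
  (nat_lit 113951) (nat_lit 10) (node (nat_lit 6) (nat_lit 113951) (nat_lit 11) nil nil) nil)
  (node (nat_lit 6) (nat_lit 113185) (nat_lit 9) (node (nat_lit 4) (nat_lit 109171) (nat_lit 10)
  nil nil) nil)) (node (nat_lit 4) (nat_lit 113621) (nat_lit 8) (node (nat_lit 6) (nat_lit 113167)
  (nat_lit 9) nil nil) (node (nat_lit 6) (nat_lit 113185) (nat_lit 8) (node (nat_lit 5) (nat_lit
  113185) (nat_lit 9) (node (nat_lit 4) (nat_lit 111949) (nat_lit 10) (node (nat_lit 5) (nat_lit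
  109243) (nat_lit 11) (node (nat_lit 6) (nat_lit 103902) (nat_lit 12) nil nil) nil) nil) (node
  (nat_lit 4) (nat_lit 113951) (nat_lit 9) (node (nat_lit 5) (nat_lit 113951) (nat_lit 10) (node
  (nat_lit 6) (nat_lit 113951) (nat_lit 11) (node (nat_lit 5) (nat_lit 113951) (nat_lit 12) (node
  (nat_lit 4) (nat_lit 114325) (nat_lit 13) (node (nat_lit 6) (nat_lit 114325) (nat_lit 14) nil
  nil) nil) nil) nil) nil) nil)) (node (nat_lit 0) (nat_lit 113621) (nat_lit 8) (node (nat_lit 6)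
  (nat_lit 113167) (nat_lit 9) (node (nat_lit 4) (nat_lit 114104) (nat_lit 10) nil nil) (node
  (nat_lit 5) (nat_lit 113043) (nat_lit 9) (node (nat_lit 4) (nat_lit 114104) (nat_lit 10) nil
  nil) nil)) (node (nat_lit 2) (nat_lit 113032) (nat_lit 8) (node (nat_lit 6) (nat_lit 112412)
  (nat_lit 9) (node (nat_lit 4) (nat_lit 113606) (nat_lit 10) nil nil) (node (nat_lit 5) (nat_lit
  113185) (nat_lit 9) (node (nat_lit 4) (nat_lit 109389) (nat_lit 10) nil (node (nat_lit 6)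
  (nat_lit 109364) (nat_lit 10) nil nil)) nil)) nil))))) (node (nat_lit 2) (nat_lit 0) (nat_lit 7)
  (node (nat_lit 5) (nat_lit 109836) (nat_lit 8) (node (nat_lit 4) (nat_lit 111990) (nat_lit 9)
  (node (nat_lit 5) (nat_lit 106348) (nat_lit 10) (node (nat_lit 6) (nat_lit 99878) (nat_lit 11)
  (node (nat_lit 5) (nat_lit 84784) (nat_lit 12) (node (nat_lit 4) (nat_lit 66205) (nat_lit 13)
  nil nil) nil) nil) nil) (node (nat_lit 10) (nat_lit 109836) (nat_lit 9) nil (node (nat_lit 6)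
  (nat_lit 108095) (nat_lit 9) (node (nat_lit 4) (nat_lit 106925) (nat_lit 10) (node (nat_lit 5)
  (nat_lit 104219) (nat_lit 11) (node (nat_lit 6) (nat_lit 98879) (nat_lit 12) nil nil) nil) nil)
  nil))) (node (nat_lit 4) (nat_lit 112106) (nat_lit 8) (node (nat_lit 6) (nat_lit 112106)
  (nat_lit 9) nil nil) (node (nat_lit 6) (nat_lit 109836) (nat_lit 8) (node (nat_lit 5) (nat_lit
  109573) (nat_lit 9) (node (nat_lit 4) (nat_lit 106197) (nat_lit 10) (node (nat_lit 5) (nat_lit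
  103043) (nat_lit 11) (node (nat_lit 6) (nat_lit 98420) (nat_lit 12) nil nil) nil) nil) (node
  (nat_lit 4) (nat_lit 112435) (nat_lit 9) (node (nat_lit 5) (nat_lit 110114) (nat_lit 10) (node
  (nat_lit 6) (nat_lit 102684) (nat_lit 11) (node (nat_lit 5) (nat_lit 92836) (nat_lit 12) (node
  (nat_lit 4) (nat_lit 77861) (nat_lit 13) (node (nat_lit 6) (nat_lit 48488) (nat_lit 14) nil nil)
  nil) nil) nil) nil) nil)) (node (nat_lit 0) (nat_lit 112106) (nat_lit 8) (node (nat_lit 6)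
  (nat_lit 112106) (nat_lit 9) (node (nat_lit 4) (nat_lit 112691) (nat_lit 10) nil nil) (node
  (nat_lit 5) (nat_lit 112106) (nat_lit 9) (node (nat_lit 4) (nat_lit 112691) (nat_lit 10) nil
  nil) nil)) nil)))) nil)))) (node (nat_lit 5) (nat_lit 0) (nat_lit 6) (node (nat_lit 6) (nat_lit
  0) (nat_lit 7) (node (nat_lit 4) (nat_lit 0) (nat_lit 8) (node (nat_lit 6) (nat_lit 51670)
  (nat_lit 9) nil (node (nat_lit 0) (nat_lit 51703) (nat_lit 9) nil (node (nat_lit 2) (nat_lit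
  51670) (nat_lit 9) (node (nat_lit 4) (nat_lit 53111) (nat_lit 10) (node (nat_lit 6) (nat_lit
  54234) (nat_lit 11) nil nil) (node (nat_lit 6) (nat_lit 53589) (nat_lit 10) (node (nat_lit 4)
  (nat_lit 50402) (nat_lit 11) nil (node (nat_lit 5) (nat_lit 52534) (nat_lit 11) nil nil)) (node
  (nat_lit 5) (nat_lit 51523) (nat_lit 10) (node (nat_lit 4) (nat_lit 52646) (nat_lit 11) nil nil)
  nil))) (node (nat_lit 5) (nat_lit 51670) (nat_lit 9) nil nil)))) (node (nat_lit 0) (nat_lit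
  53075) (nat_lit 8) (node (nat_lit 5) (nat_lit 54948) (nat_lit 9) (node (nat_lit 6) (nat_lit
  55508) (nat_lit 10) nil (node (nat_lit 4) (nat_lit 55550) (nat_lit 10) (node (nat_lit 5)
  (nat_lit 56081) (nat_lit 11) (node (nat_lit 6) (nat_lit 56563) (nat_lit 12) nil nil) nil) nil))
  (node (nat_lit 6) (nat_lit 54948) (nat_lit 9) nil nil)) (node (nat_lit 2) (nat_lit 52909)
  (nat_lit 8) (node (nat_lit 5) (nat_lit 53658) (nat_lit 9) (node (nat_lit 4) (nat_lit 54114)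
  (nat_lit 10) (node (nat_lit 5) (nat_lit 54515) (nat_lit 11) (node (nat_lit 6) (nat_lit 54881)
  (nat_lit 12) nil nil) nil) nil) (node (nat_lit 6) (nat_lit 54781) (nat_lit 9) (node (nat_lit 5)
  (nat_lit 53144) (nat_lit 10) nil nil) nil)) nil))) (node (nat_lit 0) (nat_lit 0) (nat_lit 7)
  (node (nat_lit 4) (nat_lit 0) (nat_lit 8) (node (nat_lit 10) (nat_lit 56509) (nat_lit 9) (node
  (nat_lit 5) (nat_lit 57443) (nat_lit 10) (node (nat_lit 4) (nat_lit 58276) (nat_lit 11) (node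
  (nat_lit 5) (nat_lit 59002) (nat_lit 12) (node (nat_lit 6) (nat_lit 59393) (nat_lit 13) nil nil)
  nil) (node (nat_lit 6) (nat_lit 58276) (nat_lit 11) (node (nat_lit 4) (nat_lit 59002) (nat_lit
  12) nil nil) nil)) (node (nat_lit 6) (nat_lit 57443) (nat_lit 10) (node (nat_lit 4) (nat_lit
  58276) (nat_lit 11) nil nil) nil)) (node (nat_lit 6) (nat_lit 56475) (nat_lit 9) (node (nat_lit
  5) (nat_lit 57409) (nat_lit 10) (node (nat_lit 4) (nat_lit 58242) (nat_lit 11) (node (nat_lit 5)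
  (nat_lit 58724) (nat_lit 12) nil nil) nil) (node (nat_lit 4) (nat_lit 57409) (nat_lit 10) (node
  (nat_lit 5) (nat_lit 57940) (nat_lit 11) (node (nat_lit 6) (nat_lit 58422) (nat_lit 12) nil nil)
  nil) nil)) (node (nat_lit 5) (nat_lit 56475) (nat_lit 9) (node (nat_lit 6) (nat_lit 57409)
  (nat_lit 10) (node (nat_lit 4) (nat_lit 58242) (nat_lit 11) nil nil) (node (nat_lit 4) (nat_lit
  57473) (nat_lit 10) (node (nat_lit 6) (nat_lit 58305) (nat_lit 11) nil nil) nil)) (node (nat_lit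
  0) (nat_lit 56475) (nat_lit 9) nil (node (nat_lit 2) (nat_lit 55074) (nat_lit 9) nil nil)))))
  (node (nat_lit 6) (nat_lit 0) (nat_lit 8) (node (nat_lit 5) (nat_lit 56438) (nat_lit 9) (node
  (nat_lit 4) (nat_lit 57372) (nat_lit 10) (node (nat_lit 5) (nat_lit 57904) (nat_lit 11) (node
  (nat_lit 6) (nat_lit 58385) (nat_lit 12) nil nil) nil) (node (nat_lit 6) (nat_lit 57372)
  (nat_lit 10) (node (nat_lit 4) (nat_lit 58206) (nat_lit 11) nil nil) nil)) (node (nat_lit 10)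
  (nat_lit 56509) (nat_lit 9) (node (nat_lit 5) (nat_lit 57443) (nat_lit 10) (node (nat_lit 4)
  (nat_lit 58276) (nat_lit 11) nil (node (nat_lit 6) (nat_lit 58276) (nat_lit 11) nil nil)) (node
  (nat_lit 4) (nat_lit 57443) (nat_lit 10) nil nil)) (node (nat_lit 4) (nat_lit 56438) (nat_lit 9)
  (node (nat_lit 5) (nat_lit 57372) (nat_lit 10) (node (nat_lit 6) (nat_lit 57904) (nat_lit 11)
  nil nil) nil) (node (nat_lit 0) (nat_lit 56438) (nat_lit 9) nil (node (nat_lit 2) (nat_lit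
  55036) (nat_lit 9) nil nil))))) (node (nat_lit 5) (nat_lit 55090) (nat_lit 8) (node (nat_lit 6)
  (nat_lit 56438) (nat_lit 9) (node (nat_lit 4) (nat_lit 57372) (nat_lit 10) (node (nat_lit 5)
  (nat_lit 58206) (nat_lit 11) (node (nat_lit 6) (nat_lit 58932) (nat_lit 12) nil nil) (node
  (nat_lit 6) (nat_lit 58206) (nat_lit 11) nil nil)) (node (nat_lit 5) (nat_lit 57372) (nat_lit
  10) nil nil)) (node (nat_lit 4) (nat_lit 56509) (nat_lit 9) (node (nat_lit 5) (nat_lit 57443)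
  (nat_lit 10) (node (nat_lit 6) (nat_lit 57974) (nat_lit 11) (node (nat_lit 5) (nat_lit 58456)
  (nat_lit 12) (node (nat_lit 4) (nat_lit 58846) (nat_lit 13) nil nil) nil) nil) (node (nat_lit 6)
  (nat_lit 57443) (nat_lit 10) nil (node (nat_lit 10) (nat_lit 57443) (nat_lit 10) nil nil)))
  nil)) (node (nat_lit 0) (nat_lit 55128) (nat_lit 8) (node (nat_lit 6) (nat_lit 56475) (nat_lit
  9) (node (nat_lit 4) (nat_lit 57077) (nat_lit 10) nil (node (nat_lit 5) (nat_lit 57409) (nat_lit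
  10) nil nil)) (node (nat_lit 5) (nat_lit 56475) (nat_lit 9) (node (nat_lit 4) (nat_lit 57409)
  (nat_lit 10) nil (node (nat_lit 6) (nat_lit 57409) (nat_lit 10) nil nil)) (node (nat_lit 4)
  (nat_lit 56475) (nat_lit 9) (node (nat_lit 6) (nat_lit 57409) (nat_lit 10) nil (node (nat_lit 5)
  (nat_lit 57077) (nat_lit 10) nil nil)) nil))) (node (nat_lit 2) (nat_lit 55090) (nat_lit 8)
  (node (nat_lit 6) (nat_lit 56438) (nat_lit 9) (node (nat_lit 4) (nat_lit 57372) (nat_lit 10) nil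
  (node (nat_lit 5) (nat_lit 57372) (nat_lit 10) nil nil)) (node (nat_lit 5) (nat_lit 56438)
  (nat_lit 9) (node (nat_lit 4) (nat_lit 57372) (nat_lit 10) nil (node (nat_lit 6) (nat_lit 57276)
  (nat_lit 10) nil nil)) (node (nat_lit 4) (nat_lit 56438) (nat_lit 9) (node (nat_lit 6) (nat_lit
  57372) (nat_lit 10) nil (node (nat_lit 5) (nat_lit 57040) (nat_lit 10) nil nil)) nil))) nil)))))
  (node (nat_lit 2) (nat_lit 0) (nat_lit 7) (node (nat_lit 4) (nat_lit 0) (nat_lit 8) (node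
  (nat_lit 10) (nat_lit 56475) (nat_lit 9) (node (nat_lit 5) (nat_lit 57409) (nat_lit 10) (node
  (nat_lit 4) (nat_lit 58242) (nat_lit 11) (node (nat_lit 5) (nat_lit 58969) (nat_lit 12) (node
  (nat_lit 6) (nat_lit 59359) (nat_lit 13) nil nil) nil) (node (nat_lit 6) (nat_lit 58242)
  (nat_lit 11) (node (nat_lit 4) (nat_lit 59075) (nat_lit 12) nil nil) nil)) (node (nat_lit 6)
  (nat_lit 57409) (nat_lit 10) (node (nat_lit 4) (nat_lit 58242) (nat_lit 11) nil nil) nil)) (node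
  (nat_lit 6) (nat_lit 56475) (nat_lit 9) (node (nat_lit 5) (nat_lit 57409) (nat_lit 10) (node
  (nat_lit 4) (nat_lit 58242) (nat_lit 11) (node (nat_lit 5) (nat_lit 58724) (nat_lit 12) nil nil)
  nil) (node (nat_lit 4) (nat_lit 57409) (nat_lit 10) (node (nat_lit 5) (nat_lit 57940) (nat_lit
  11) (node (nat_lit 6) (nat_lit 58422) (nat_lit 12) nil nil) nil) nil)) (node (nat_lit 5)
  (nat_lit 56475) (nat_lit 9) (node (nat_lit 6) (nat_lit 57409) (nat_lit 10) (node (nat_lit 4)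
  (nat_lit 58330) (nat_lit 11) nil nil) (node (nat_lit 4) (nat_lit 57473) (nat_lit 10) (node
  (nat_lit 6) (nat_lit 58305) (nat_lit 11) nil nil) nil)) (node (nat_lit 0) (nat_lit 56475)
  (nat_lit 9) nil nil)))) (node (nat_lit 6) (nat_lit 0) (nat_lit 8) (node (nat_lit 5) (nat_lit
  56310) (nat_lit 9) (node (nat_lit 4) (nat_lit 57244) (nat_lit 10) (node (nat_lit 5) (nat_lit
  57775) (nat_lit 11) (node (nat_lit 6) (nat_lit 58256) (nat_lit 12) nil nil) nil) (node (nat_lit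
  6) (nat_lit 57244) (nat_lit 10) (node (nat_lit 4) (nat_lit 58077) (nat_lit 11) nil nil) nil))
  (node (nat_lit 10) (nat_lit 56310) (nat_lit 9) (node (nat_lit 5) (nat_lit 57244) (nat_lit 10)
  (node (nat_lit 4) (nat_lit 58077) (nat_lit 11) nil (node (nat_lit 6) (nat_lit 57754) (nat_lit
  11) nil nil)) (node (nat_lit 4) (nat_lit 57244) (nat_lit 10) nil nil)) (node (nat_lit 4)
  (nat_lit 56509) (nat_lit 9) (node (nat_lit 5) (nat_lit 57443) (nat_lit 10) (node (nat_lit 6)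
  (nat_lit 45957) (nat_lit 11) (node (nat_lit 5) (nat_lit 22862) (nat_lit 12) nil nil) (node
  (nat_lit 4) (nat_lit 57974) (nat_lit 11) nil nil)) nil) (node (nat_lit 0) (nat_lit 56310)
  (nat_lit 9) nil nil)))) (node (nat_lit 5) (nat_lit 54962) (nat_lit 8) (node (nat_lit 6) (nat_lit
  56310) (nat_lit 9) (node (nat_lit 4) (nat_lit 57473) (nat_lit 10) (node (nat_lit 5) (nat_lit
  57109) (nat_lit 11) (node (nat_lit 6) (nat_lit 46841) (nat_lit 12) nil nil) (node (nat_lit 6)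
  (nat_lit 58305) (nat_lit 11) nil nil)) (node (nat_lit 5) (nat_lit 57244) (nat_lit 10) nil nil))
  (node (nat_lit 4) (nat_lit 56509) (nat_lit 9) (node (nat_lit 5) (nat_lit 57443) (nat_lit 10)
  (node (nat_lit 6) (nat_lit 58276) (nat_lit 11) (node (nat_lit 5) (nat_lit 56193) (nat_lit 12)
  (node (nat_lit 4) (nat_lit 56583) (nat_lit 13) nil nil) nil) nil) (node (nat_lit 6) (nat_lit
  57443) (nat_lit 10) nil (node (nat_lit 10) (nat_lit 57443) (nat_lit 10) nil nil))) nil)) (node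
  (nat_lit 0) (nat_lit 55128) (nat_lit 8) (node (nat_lit 6) (nat_lit 56475) (nat_lit 9) (node
  (nat_lit 4) (nat_lit 57077) (nat_lit 10) nil (node (nat_lit 5) (nat_lit 57409) (nat_lit 10) nil
  nil)) (node (nat_lit 5) (nat_lit 56475) (nat_lit 9) (node (nat_lit 4) (nat_lit 57409) (nat_lit
  10) nil (node (nat_lit 6) (nat_lit 57409) (nat_lit 10) nil nil)) (node (nat_lit 4) (nat_lit
  56475) (nat_lit 9) (node (nat_lit 6) (nat_lit 57409) (nat_lit 10) nil (node (nat_lit 5) (nat_lit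
  57077) (nat_lit 10) nil nil)) nil))) nil)))) nil))) nil))

noncomputable def t279 : Tr :=
  (node (nat_lit 4) (nat_lit 0) (nat_lit 7) (node (nat_lit 5) (nat_lit 0) (nat_lit 8) (node
  (nat_lit 0) (nat_lit 0) (nat_lit 9) (node (nat_lit 5) (nat_lit 0) (nat_lit 10) (node (nat_lit 4)
  (nat_lit 58410) (nat_lit 11) (node (nat_lit 7) (nat_lit 58411) (nat_lit 12) (node (nat_lit 4)
  (nat_lit 59122) (nat_lit 13) nil nil) (node (nat_lit 5) (nat_lit 57876) (nat_lit 12) nil (node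
  (nat_lit 12) (nat_lit 60009) (nat_lit 12) (node (nat_lit 5) (nat_lit 59443) (nat_lit 13) nil
  nil) nil))) (node (nat_lit 7) (nat_lit 58410) (nat_lit 11) (node (nat_lit 4) (nat_lit 60009)
  (nat_lit 12) (node (nat_lit 5) (nat_lit 60653) (nat_lit 13) (node (nat_lit 4) (nat_lit 55113)
  (nat_lit 14) nil nil) nil) (node (nat_lit 5) (nat_lit 59320) (nat_lit 12) nil (node (nat_lit 12)
  (nat_lit 59320) (nat_lit 12) nil nil))) (node (nat_lit 0) (nat_lit 58410) (nat_lit 11) (node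
  (nat_lit 12) (nat_lit 59320) (nat_lit 12) nil (node (nat_lit 5) (nat_lit 57653) (nat_lit 12) nil
  nil)) (node (nat_lit 2) (nat_lit 57903) (nat_lit 11) (node (nat_lit 12) (nat_lit 59501) (nat_lit
  12) nil (node (nat_lit 5) (nat_lit 57145) (nat_lit 12) nil (node (nat_lit 4) (nat_lit 58813)
  (nat_lit 12) nil nil))) nil)))) (node (nat_lit 4) (nat_lit 56108) (nat_lit 10) (node (nat_lit 7)
  (nat_lit 58410) (nat_lit 11) (node (nat_lit 5) (nat_lit 60217) (nat_lit 12) nil (node (nat_lit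
  4) (nat_lit 59222) (nat_lit 12) nil nil)) (node (nat_lit 12) (nat_lit 58410) (nat_lit 11) (node
  (nat_lit 5) (nat_lit 59222) (nat_lit 12) nil nil) (node (nat_lit 5) (nat_lit 58410) (nat_lit 11)
  (node (nat_lit 4) (nat_lit 59222) (nat_lit 12) nil nil) nil))) (node (nat_lit 7) (nat_lit 56108)
  (nat_lit 10) (node (nat_lit 5) (nat_lit 58410) (nat_lit 11) (node (nat_lit 7) (nat_lit 59431)
  (nat_lit 12) nil nil) (node (nat_lit 4) (nat_lit 58410) (nat_lit 11) (node (nat_lit 5) (nat_lit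
  59320) (nat_lit 12) nil nil) (node (nat_lit 12) (nat_lit 58410) (nat_lit 11) (node (nat_lit 5)
  (nat_lit 59222) (nat_lit 12) nil nil) nil))) (node (nat_lit 2) (nat_lit 55446) (nat_lit 10)
  (node (nat_lit 5) (nat_lit 56464) (nat_lit 11) nil (node (nat_lit 12) (nat_lit 57748) (nat_lit
  11) nil nil)) (node (nat_lit 0) (nat_lit 56108) (nat_lit 10) (node (nat_lit 5) (nat_lit 57396)
  (nat_lit 11) nil (node (nat_lit 12) (nat_lit 58142) (nat_lit 11) nil nil)) nil))))) (node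
  (nat_lit 4) (nat_lit 0) (nat_lit 9) (node (nat_lit 0) (nat_lit 49362) (nat_lit 10) (node
  (nat_lit 5) (nat_lit 51664) (nat_lit 11) (node (nat_lit 4) (nat_lit 53471) (nat_lit 12) (node
  (nat_lit 5) (nat_lit 53658) (nat_lit 13) (node (nat_lit 13) (nat_lit 53901) (nat_lit 14) nil
  (node (nat_lit 7) (nat_lit 53658) (nat_lit 14) (node (nat_lit 4) (nat_lit 53985) (nat_lit 15)
  nil nil) nil)) (node (nat_lit 7) (nat_lit 53658) (nat_lit 13) (node (nat_lit 4) (nat_lit 53901)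
  (nat_lit 14) nil nil) nil)) (node (nat_lit 13) (nat_lit 53262) (nat_lit 12) nil (node (nat_lit
  7) (nat_lit 53257) (nat_lit 12) nil nil))) (node (nat_lit 4) (nat_lit 51664) (nat_lit 11) (node
  (nat_lit 5) (nat_lit 53471) (nat_lit 12) (node (nat_lit 13) (nat_lit 53995) (nat_lit 13) nil
  nil) nil) (node (nat_lit 7) (nat_lit 51664) (nat_lit 11) (node (nat_lit 4) (nat_lit 53262)
  (nat_lit 12) nil nil) nil))) (node (nat_lit 2) (nat_lit 49284) (nat_lit 10) (node (nat_lit 5)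
  (nat_lit 51586) (nat_lit 11) (node (nat_lit 4) (nat_lit 53393) (nat_lit 12) (node (nat_lit 5)
  (nat_lit 53399) (nat_lit 13) (node (nat_lit 13) (nat_lit 53399) (nat_lit 14) (node (nat_lit 5)
  (nat_lit 53399) (nat_lit 15) nil (node (nat_lit 4) (nat_lit 53727) (nat_lit 15) nil nil)) (node
  (nat_lit 7) (nat_lit 53399) (nat_lit 14) (node (nat_lit 4) (nat_lit 53727) (nat_lit 15) nil nil)
  nil)) (node (nat_lit 7) (nat_lit 53399) (nat_lit 13) (node (nat_lit 4) (nat_lit 53643) (nat_lit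
  14) nil nil) nil)) (node (nat_lit 13) (nat_lit 52711) (nat_lit 12) (node (nat_lit 4) (nat_lit
  53536) (nat_lit 13) nil nil) (node (nat_lit 7) (nat_lit 52711) (nat_lit 12) nil nil))) (node
  (nat_lit 4) (nat_lit 50732) (nat_lit 11) (node (nat_lit 5) (nat_lit 52342) (nat_lit 12) (node
  (nat_lit 13) (nat_lit 52543) (nat_lit 13) nil nil) nil) (node (nat_lit 7) (nat_lit 51586)
  (nat_lit 11) (node (nat_lit 4) (nat_lit 53374) (nat_lit 12) nil nil) nil))) nil)) (node (nat_lit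
  2) (nat_lit 0) (nat_lit 9) (node (nat_lit 5) (nat_lit 0) (nat_lit 10) (node (nat_lit 4) (nat_lit
  58410) (nat_lit 11) (node (nat_lit 7) (nat_lit 58411) (nat_lit 12) (node (nat_lit 4) (nat_lit
  59122) (nat_lit 13) nil nil) (node (nat_lit 5) (nat_lit 57876) (nat_lit 12) nil (node (nat_lit
  12) (nat_lit 59831) (nat_lit 12) (node (nat_lit 5) (nat_lit 59265) (nat_lit 13) nil nil) nil)))
  (node (nat_lit 7) (nat_lit 58368) (nat_lit 11) (node (nat_lit 4) (nat_lit 59965) (nat_lit 12)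
  (node (nat_lit 5) (nat_lit 59510) (nat_lit 13) (node (nat_lit 4) (nat_lit 54993) (nat_lit 14)
  nil nil) nil) (node (nat_lit 5) (nat_lit 59278) (nat_lit 12) nil (node (nat_lit 12) (nat_lit
  57610) (nat_lit 12) nil nil))) (node (nat_lit 0) (nat_lit 58100) (nat_lit 11) (node (nat_lit 12)
  (nat_lit 57342) (nat_lit 12) nil (node (nat_lit 5) (nat_lit 57342) (nat_lit 12) nil nil)) nil)))
  (node (nat_lit 4) (nat_lit 55762) (nat_lit 10) (node (nat_lit 7) (nat_lit 58063) (nat_lit 11)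
  (node (nat_lit 5) (nat_lit 57305) (nat_lit 12) nil (node (nat_lit 4) (nat_lit 58874) (nat_lit
  12) nil nil)) (node (nat_lit 12) (nat_lit 58143) (nat_lit 11) (node (nat_lit 5) (nat_lit 58953)
  (nat_lit 12) (node (nat_lit 12) (nat_lit 58387) (nat_lit 13) nil nil) nil) (node (nat_lit 5)
  (nat_lit 57909) (nat_lit 11) (node (nat_lit 4) (nat_lit 59715) (nat_lit 12) nil nil) nil)))
  (node (nat_lit 7) (nat_lit 56066) (nat_lit 10) (node (nat_lit 5) (nat_lit 58368) (nat_lit 11)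
  (node (nat_lit 7) (nat_lit 60175) (nat_lit 12) nil nil) (node (nat_lit 4) (nat_lit 58368)
  (nat_lit 11) (node (nat_lit 5) (nat_lit 58960) (nat_lit 12) nil nil) (node (nat_lit 12) (nat_lit
  58031) (nat_lit 11) (node (nat_lit 5) (nat_lit 58843) (nat_lit 12) nil nil) nil))) (node
  (nat_lit 0) (nat_lit 55964) (nat_lit 10) (node (nat_lit 5) (nat_lit 57251) (nat_lit 11) nil
  (node (nat_lit 12) (nat_lit 57998) (nat_lit 11) nil nil)) nil)))) (node (nat_lit 7) (nat_lit 0)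
  (nat_lit 9) (node (nat_lit 0) (nat_lit 55888) (nat_lit 10) (node (nat_lit 5) (nat_lit 58188)
  (nat_lit 11) (node (nat_lit 7) (nat_lit 59996) (nat_lit 12) (node (nat_lit 4) (nat_lit 60640)
  (nat_lit 13) (node (nat_lit 5) (nat_lit 57213) (nat_lit 14) nil nil) (node (nat_lit 5) (nat_lit
  60707) (nat_lit 13) nil nil)) nil) (node (nat_lit 7) (nat_lit 58031) (nat_lit 11) nil (node
  (nat_lit 4) (nat_lit 58188) (nat_lit 11) (node (nat_lit 7) (nat_lit 59996) (nat_lit 12) nil nil)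
  nil))) (node (nat_lit 2) (nat_lit 55776) (nat_lit 10) (node (nat_lit 5) (nat_lit 57921) (nat_lit
  11) (node (nat_lit 7) (nat_lit 59727) (nat_lit 12) (node (nat_lit 4) (nat_lit 60371) (nat_lit
  13) (node (nat_lit 5) (nat_lit 56945) (nat_lit 14) nil nil) (node (nat_lit 5) (nat_lit 60438)
  (nat_lit 13) nil nil)) nil) (node (nat_lit 7) (nat_lit 58158) (nat_lit 11) (node (nat_lit 5)
  (nat_lit 59964) (nat_lit 12) nil nil) (node (nat_lit 4) (nat_lit 58025) (nat_lit 11) (node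
  (nat_lit 7) (nat_lit 59832) (nat_lit 12) nil nil) nil))) nil)) nil)))) (node (nat_lit 7)
  (nat_lit 0) (nat_lit 8) (node (nat_lit 0) (nat_lit 0) (nat_lit 9) (node (nat_lit 7) (nat_lit
  64857) (nat_lit 10) (node (nat_lit 5) (nat_lit 63874) (nat_lit 11) (node (nat_lit 7) (nat_lit
  64795) (nat_lit 12) nil nil) (node (nat_lit 4) (nat_lit 65927) (nat_lit 11) (node (nat_lit 5)
  (nat_lit 65927) (nat_lit 12) (node (nat_lit 4) (nat_lit 65954) (nat_lit 13) (node (nat_lit 7)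
  (nat_lit 65954) (nat_lit 14) nil nil) nil) nil) nil)) (node (nat_lit 4) (nat_lit 64382) (nat_lit
  10) (node (nat_lit 7) (nat_lit 65548) (nat_lit 11) (node (nat_lit 4) (nat_lit 65954) (nat_lit
  12) nil nil) (node (nat_lit 12) (nat_lit 65548) (nat_lit 11) (node (nat_lit 7) (nat_lit 65927)
  (nat_lit 12) nil nil) nil)) (node (nat_lit 5) (nat_lit 64279) (nat_lit 10) (node (nat_lit 7)
  (nat_lit 65419) (nat_lit 11) nil nil) (node (nat_lit 0) (nat_lit 64323) (nat_lit 10) (node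
  (nat_lit 7) (nat_lit 65490) (nat_lit 11) nil nil) (node (nat_lit 2) (nat_lit 64769) (nat_lit 10)
  (node (nat_lit 7) (nat_lit 63281) (nat_lit 11) nil (node (nat_lit 12) (nat_lit 65927) (nat_lit
  11) nil nil)) nil))))) (node (nat_lit 5) (nat_lit 0) (nat_lit 9) (node (nat_lit 0) (nat_lit
  64857) (nat_lit 10) (node (nat_lit 7) (nat_lit 65769) (nat_lit 11) nil (node (nat_lit 4)
  (nat_lit 65927) (nat_lit 11) nil nil)) (node (nat_lit 2) (nat_lit 63941) (nat_lit 10) (node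
  (nat_lit 7) (nat_lit 63941) (nat_lit 11) (node (nat_lit 5) (nat_lit 63941) (nat_lit 12) (node
  (nat_lit 7) (nat_lit 63941) (nat_lit 13) (node (nat_lit 4) (nat_lit 65716) (nat_lit 14) nil nil)
  (node (nat_lit 4) (nat_lit 65609) (nat_lit 13) nil nil)) nil) (node (nat_lit 5) (nat_lit 63941)
  (nat_lit 11) (node (nat_lit 7) (nat_lit 63941) (nat_lit 12) nil nil) (node (nat_lit 4) (nat_lit
  65296) (nat_lit 11) nil nil))) (node (nat_lit 4) (nat_lit 64857) (nat_lit 10) (node (nat_lit 7)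
  (nat_lit 65769) (nat_lit 11) (node (nat_lit 4) (nat_lit 65954) (nat_lit 12) (node (nat_lit 5)
  (nat_lit 65954) (nat_lit 13) nil nil) nil) (node (nat_lit 5) (nat_lit 65769) (nat_lit 11) (node
  (nat_lit 7) (nat_lit 65769) (nat_lit 12) nil nil) nil)) nil))) (node (nat_lit 2) (nat_lit 0)
  (nat_lit 9) (node (nat_lit 7) (nat_lit 0) (nat_lit 10) (node (nat_lit 4) (nat_lit 65296)
  (nat_lit 11) (node (nat_lit 5) (nat_lit 64812) (nat_lit 12) (node (nat_lit 4) (nat_lit 63277)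
  (nat_lit 13) (node (nat_lit 7) (nat_lit 55491) (nat_lit 14) nil nil) nil) nil) (node (nat_lit 5)
  (nat_lit 63941) (nat_lit 11) (node (nat_lit 7) (nat_lit 63941) (nat_lit 12) nil nil) (node
  (nat_lit 0) (nat_lit 65296) (nat_lit 11) nil nil))) (node (nat_lit 4) (nat_lit 64382) (nat_lit
  10) (node (nat_lit 7) (nat_lit 65072) (nat_lit 11) (node (nat_lit 4) (nat_lit 65472) (nat_lit
  12) nil nil) (node (nat_lit 12) (nat_lit 63399) (nat_lit 11) (node (nat_lit 7) (nat_lit 64320)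
  (nat_lit 12) nil nil) nil)) (node (nat_lit 5) (nat_lit 63941) (nat_lit 10) (node (nat_lit 7)
  (nat_lit 63941) (nat_lit 11) nil nil) (node (nat_lit 0) (nat_lit 64323) (nat_lit 10) (node
  (nat_lit 7) (nat_lit 65072) (nat_lit 11) nil nil) nil)))) nil))) (node (nat_lit 0) (nat_lit 0)
  (nat_lit 8) (node (nat_lit 5) (nat_lit 65469) (nat_lit 9) (node (nat_lit 11) (nat_lit 65954)
  (nat_lit 10) (node (nat_lit 7) (nat_lit 65954) (nat_lit 11) nil nil) (node (nat_lit 4) (nat_lit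
  65954) (nat_lit 10) (node (nat_lit 7) (nat_lit 65954) (nat_lit 11) nil nil) (node (nat_lit 7)
  (nat_lit 65831) (nat_lit 10) (node (nat_lit 4) (nat_lit 65954) (nat_lit 11) (node (nat_lit 5)
  (nat_lit 65954) (nat_lit 12) (node (nat_lit 4) (nat_lit 59859) (nat_lit 13) nil nil) nil) nil)
  nil))) (node (nat_lit 7) (nat_lit 65433) (nat_lit 9) (node (nat_lit 11) (nat_lit 65954) (nat_lit
  10) nil (node (nat_lit 4) (nat_lit 65954) (nat_lit 10) (node (nat_lit 5) (nat_lit 65954)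
  (nat_lit 11) (node (nat_lit 4) (nat_lit 65954) (nat_lit 12) (node (nat_lit 7) (nat_lit 65954)
  (nat_lit 13) nil nil) nil) nil) nil)) (node (nat_lit 4) (nat_lit 65033) (nat_lit 9) (node
  (nat_lit 7) (nat_lit 65618) (nat_lit 10) (node (nat_lit 4) (nat_lit 65954) (nat_lit 11) (node
  (nat_lit 5) (nat_lit 65954) (nat_lit 12) nil nil) nil) nil) (node (nat_lit 0) (nat_lit 65954)
  (nat_lit 9) (node (nat_lit 7) (nat_lit 65954) (nat_lit 10) nil nil) (node (nat_lit 2) (nat_lit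
  65831) (nat_lit 9) (node (nat_lit 4) (nat_lit 65954) (nat_lit 10) (node (nat_lit 7) (nat_lit
  65954) (nat_lit 11) nil nil) (node (nat_lit 11) (nat_lit 65954) (nat_lit 10) (node (nat_lit 7)
  (nat_lit 65954) (nat_lit 11) nil nil) (node (nat_lit 7) (nat_lit 65831) (nat_lit 10) nil nil)))
  nil))))) (node (nat_lit 2) (nat_lit 0) (nat_lit 8) (node (nat_lit 5) (nat_lit 65081) (nat_lit 9)
  (node (nat_lit 11) (nat_lit 65081) (nat_lit 10) (node (nat_lit 4) (nat_lit 65377) (nat_lit 11)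
  (node (nat_lit 7) (nat_lit 65622) (nat_lit 12) nil nil) (node (nat_lit 7) (nat_lit 64931)
  (nat_lit 11) nil nil)) (node (nat_lit 4) (nat_lit 65617) (nat_lit 10) (node (nat_lit 7) (nat_lit
  65617) (nat_lit 11) nil nil) (node (nat_lit 7) (nat_lit 65081) (nat_lit 10) (node (nat_lit 4)
  (nat_lit 65671) (nat_lit 11) (node (nat_lit 5) (nat_lit 64952) (nat_lit 12) (node (nat_lit 4)
  (nat_lit 59859) (nat_lit 13) nil nil) nil) nil) nil))) (node (nat_lit 7) (nat_lit 65081)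
  (nat_lit 9) (node (nat_lit 11) (nat_lit 65081) (nat_lit 10) nil (node (nat_lit 4) (nat_lit
  65617) (nat_lit 10) (node (nat_lit 5) (nat_lit 65273) (nat_lit 11) (node (nat_lit 4) (nat_lit
  63070) (nat_lit 12) (node (nat_lit 7) (nat_lit 56334) (nat_lit 13) nil nil) nil) nil) (node
  (nat_lit 5) (nat_lit 63712) (nat_lit 10) (node (nat_lit 7) (nat_lit 63876) (nat_lit 11) (node
  (nat_lit 4) (nat_lit 63108) (nat_lit 12) (node (nat_lit 5) (nat_lit 62485) (nat_lit 13) nil nil)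
  nil) nil) nil))) (node (nat_lit 4) (nat_lit 65033) (nat_lit 9) (node (nat_lit 7) (nat_lit 65618)
  (nat_lit 10) (node (nat_lit 4) (nat_lit 65954) (nat_lit 11) (node (nat_lit 5) (nat_lit 65954)
  (nat_lit 12) nil nil) nil) nil) (node (nat_lit 0) (nat_lit 65483) (nat_lit 9) (node (nat_lit 4)
  (nat_lit 65617) (nat_lit 10) (node (nat_lit 7) (nat_lit 65617) (nat_lit 11) nil nil) (node
  (nat_lit 7) (nat_lit 65483) (nat_lit 10) nil nil)) nil)))) nil)))) (node (nat_lit 0) (nat_lit 0)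
  (nat_lit 7) (node (nat_lit 4) (nat_lit 65664) (nat_lit 8) (node (nat_lit 5) (nat_lit 65664)
  (nat_lit 9) (node (nat_lit 7) (nat_lit 65664) (nat_lit 10) (node (nat_lit 4) (nat_lit 65621)
  (nat_lit 11) nil nil) nil) (node (nat_lit 7) (nat_lit 65664) (nat_lit 9) (node (nat_lit 4)
  (nat_lit 65954) (nat_lit 10) (node (nat_lit 5) (nat_lit 65954) (nat_lit 11) nil nil) nil) (node
  (nat_lit 10) (nat_lit 65836) (nat_lit 9) (node (nat_lit 7) (nat_lit 65836) (nat_lit 10) (node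
  (nat_lit 4) (nat_lit 65954) (nat_lit 11) nil nil) nil) nil))) (node (nat_lit 5) (nat_lit 65238)
  (nat_lit 8) (node (nat_lit 7) (nat_lit 65238) (nat_lit 9) (node (nat_lit 4) (nat_lit 65774)
  (nat_lit 10) (node (nat_lit 5) (nat_lit 64861) (nat_lit 11) (node (nat_lit 4) (nat_lit 61941)
  (nat_lit 12) (node (nat_lit 7) (nat_lit 54299) (nat_lit 13) (node (nat_lit 5) (nat_lit 41285)
  (nat_lit 14) nil nil) nil) nil) nil) nil) (node (nat_lit 4) (nat_lit 65639) (nat_lit 9) (node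
  (nat_lit 7) (nat_lit 65639) (nat_lit 10) (node (nat_lit 4) (nat_lit 65879) (nat_lit 11) nil nil)
  nil) nil)) (node (nat_lit 7) (nat_lit 65238) (nat_lit 8) (node (nat_lit 4) (nat_lit 65639)
  (nat_lit 9) (node (nat_lit 5) (nat_lit 65639) (nat_lit 10) (node (nat_lit 4) (nat_lit 65879)
  (nat_lit 11) (node (nat_lit 7) (nat_lit 65879) (nat_lit 12) (node (nat_lit 5) (nat_lit 65879)
  (nat_lit 13) (node (nat_lit 7) (nat_lit 65879) (nat_lit 14) nil nil) nil) nil) nil) nil) nil)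
  (node (nat_lit 0) (nat_lit 65664) (nat_lit 8) (node (nat_lit 7) (nat_lit 65664) (nat_lit 9)
  (node (nat_lit 4) (nat_lit 65954) (nat_lit 10) nil nil) (node (nat_lit 5) (nat_lit 65664)
  (nat_lit 9) (node (nat_lit 7) (nat_lit 65664) (nat_lit 10) nil nil) (node (nat_lit 4) (nat_lit
  65836) (nat_lit 9) (node (nat_lit 7) (nat_lit 65836) (nat_lit 10) nil nil) nil))) (node (nat_lit
  2) (nat_lit 65238) (nat_lit 8) (node (nat_lit 7) (nat_lit 65238) (nat_lit 9) (node (nat_lit 4)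
  (nat_lit 65774) (nat_lit 10) nil nil) (node (nat_lit 5) (nat_lit 65238) (nat_lit 9) (node
  (nat_lit 7) (nat_lit 65238) (nat_lit 10) nil nil) (node (nat_lit 4) (nat_lit 65639) (nat_lit 9)
  (node (nat_lit 7) (nat_lit 65639) (nat_lit 10) nil nil) nil))) nil))))) (node (nat_lit 2)
  (nat_lit 0) (nat_lit 7) (node (nat_lit 4) (nat_lit 65115) (nat_lit 8) (node (nat_lit 5) (nat_lit
  65115) (nat_lit 9) (node (nat_lit 7) (nat_lit 65115) (nat_lit 10) (node (nat_lit 4) (nat_lit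
  65527) (nat_lit 11) nil nil) nil) (node (nat_lit 7) (nat_lit 65115) (nat_lit 9) (node (nat_lit
  4) (nat_lit 65422) (nat_lit 10) (node (nat_lit 5) (nat_lit 65422) (nat_lit 11) (node (nat_lit 4)
  (nat_lit 65610) (nat_lit 12) (node (nat_lit 7) (nat_lit 65610) (nat_lit 13) nil nil) nil) nil)
  nil) (node (nat_lit 10) (nat_lit 65115) (nat_lit 9) (node (nat_lit 7) (nat_lit 65115) (nat_lit
  10) (node (nat_lit 4) (nat_lit 65527) (nat_lit 11) nil nil) nil) nil))) (node (nat_lit 5)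
  (nat_lit 0) (nat_lit 8) (node (nat_lit 7) (nat_lit 55724) (nat_lit 9) (node (nat_lit 4) (nat_lit
  65139) (nat_lit 10) (node (nat_lit 5) (nat_lit 65139) (nat_lit 11) (node (nat_lit 4) (nat_lit
  59015) (nat_lit 12) (node (nat_lit 7) (nat_lit 53999) (nat_lit 13) (node (nat_lit 5) (nat_lit
  36645) (nat_lit 14) nil nil) nil) nil) nil) (node (nat_lit 5) (nat_lit 55686) (nat_lit 10) (node
  (nat_lit 4) (nat_lit 65525) (nat_lit 11) nil nil) nil)) (node (nat_lit 10) (nat_lit 55724)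
  (nat_lit 9) (node (nat_lit 7) (nat_lit 55733) (nat_lit 10) (node (nat_lit 4) (nat_lit 61409)
  (nat_lit 11) (node (nat_lit 5) (nat_lit 61332) (nat_lit 12) (node (nat_lit 4) (nat_lit 53114)
  (nat_lit 13) (node (nat_lit 7) (nat_lit 50902) (nat_lit 14) nil nil) nil) nil) (node (nat_lit 5)
  (nat_lit 59264) (nat_lit 11) (node (nat_lit 7) (nat_lit 59271) (nat_lit 12) nil nil) nil)) (node
  (nat_lit 4) (nat_lit 65139) (nat_lit 10) nil nil)) (node (nat_lit 4) (nat_lit 64595) (nat_lit 9)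
  (node (nat_lit 7) (nat_lit 64595) (nat_lit 10) (node (nat_lit 4) (nat_lit 64834) (nat_lit 11)
  nil nil) nil) (node (nat_lit 0) (nat_lit 64595) (nat_lit 9) nil nil)))) (node (nat_lit 7)
  (nat_lit 55724) (nat_lit 8) (node (nat_lit 4) (nat_lit 64595) (nat_lit 9) (node (nat_lit 5)
  (nat_lit 63696) (nat_lit 10) (node (nat_lit 4) (nat_lit 56520) (nat_lit 11) (node (nat_lit 7)
  (nat_lit 47349) (nat_lit 12) (node (nat_lit 5) (nat_lit 33255) (nat_lit 13) nil nil) nil) nil)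
  nil) (node (nat_lit 5) (nat_lit 55724) (nat_lit 9) (node (nat_lit 4) (nat_lit 64624) (nat_lit
  10) nil (node (nat_lit 7) (nat_lit 55724) (nat_lit 10) (node (nat_lit 4) (nat_lit 61453)
  (nat_lit 11) nil nil) (node (nat_lit 10) (nat_lit 55742) (nat_lit 10) (node (nat_lit 7) (nat_lit
  58436) (nat_lit 11) nil nil) nil))) nil)) (node (nat_lit 0) (nat_lit 65115) (nat_lit 8) (node
  (nat_lit 7) (nat_lit 65115) (nat_lit 9) (node (nat_lit 4) (nat_lit 65422) (nat_lit 10) nil nil)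
  (node (nat_lit 5) (nat_lit 65115) (nat_lit 9) (node (nat_lit 7) (nat_lit 65115) (nat_lit 10) nil
  nil) (node (nat_lit 4) (nat_lit 65288) (nat_lit 9) (node (nat_lit 7) (nat_lit 65288) (nat_lit
  10) nil nil) nil))) nil)))) nil)))

noncomputable def t280 : Tr :=
  (node (nat_lit 3) (nat_lit 0) (nat_lit 3) (node (nat_lit 4) (nat_lit 0) (nat_lit 4) (node
  (nat_lit 6) (nat_lit 0) (nat_lit 5) (node (nat_lit 5) (nat_lit 0) (nat_lit 6) (node (nat_lit 4)
  (nat_lit 0) (nat_lit 7) (node (nat_lit 6) (nat_lit 0) (nat_lit 8) (node (nat_lit 4) (nat_lit 0)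
  (nat_lit 9) (node (nat_lit 0) (nat_lit 84540) (nat_lit 10) (node (nat_lit 6) (nat_lit 85664)
  (nat_lit 11) (node (nat_lit 4) (nat_lit 86540) (nat_lit 12) nil nil) (node (nat_lit 5) (nat_lit
  85664) (nat_lit 11) nil (node (nat_lit 4) (nat_lit 85664) (nat_lit 11) nil nil))) (node (nat_lit
  2) (nat_lit 84222) (nat_lit 10) (node (nat_lit 6) (nat_lit 84909) (nat_lit 11) (node (nat_lit 4)
  (nat_lit 85226) (nat_lit 12) (node (nat_lit 5) (nat_lit 84989) (nat_lit 13) (node (nat_lit 6)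
  (nat_lit 78810) (nat_lit 14) nil nil) nil) nil) (node (nat_lit 4) (nat_lit 85346) (nat_lit 11)
  (node (nat_lit 6) (nat_lit 86222) (nat_lit 12) nil nil) (node (nat_lit 5) (nat_lit 85346)
  (nat_lit 11) nil nil))) nil)) (node (nat_lit 0) (nat_lit 83047) (nat_lit 9) (node (nat_lit 6)
  (nat_lit 84487) (nat_lit 10) (node (nat_lit 4) (nat_lit 85611) (nat_lit 11) nil nil) (node
  (nat_lit 4) (nat_lit 84487) (nat_lit 10) nil (node (nat_lit 5) (nat_lit 84487) (nat_lit 10)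
  (node (nat_lit 4) (nat_lit 85611) (nat_lit 11) nil nil) nil))) (node (nat_lit 2) (nat_lit 82782)
  (nat_lit 9) (node (nat_lit 6) (nat_lit 84222) (nat_lit 10) (node (nat_lit 4) (nat_lit 84652)
  (nat_lit 11) (node (nat_lit 5) (nat_lit 79434) (nat_lit 12) (node (nat_lit 6) (nat_lit 76432)
  (nat_lit 13) nil nil) nil) (node (nat_lit 5) (nat_lit 85346) (nat_lit 11) nil nil)) (node
  (nat_lit 4) (nat_lit 84222) (nat_lit 10) nil (node (nat_lit 5) (nat_lit 84222) (nat_lit 10)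
  (node (nat_lit 4) (nat_lit 85346) (nat_lit 11) nil nil) nil))) nil))) (node (nat_lit 5) (nat_lit
  0) (nat_lit 8) (node (nat_lit 6) (nat_lit 0) (nat_lit 9) (node (nat_lit 0) (nat_lit 74634)
  (nat_lit 10) (node (nat_lit 5) (nat_lit 77225) (nat_lit 11) (node (nat_lit 6) (nat_lit 77372)
  (nat_lit 12) nil nil) (node (nat_lit 4) (nat_lit 77256) (nat_lit 11) nil (node (nat_lit 6)
  (nat_lit 77225) (nat_lit 11) nil nil))) (node (nat_lit 2) (nat_lit 74197) (nat_lit 10) (node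
  (nat_lit 5) (nat_lit 76787) (nat_lit 11) (node (nat_lit 6) (nat_lit 78810) (nat_lit 12) nil nil)
  (node (nat_lit 4) (nat_lit 76976) (nat_lit 11) nil (node (nat_lit 6) (nat_lit 76787) (nat_lit
  11) nil nil))) (node (nat_lit 4) (nat_lit 37781) (nat_lit 10) nil (node (nat_lit 5) (nat_lit 0)
  (nat_lit 10) (node (nat_lit 2) (nat_lit 74721) (nat_lit 11) nil (node (nat_lit 0) (nat_lit
  77288) (nat_lit 11) nil (node (nat_lit 4) (nat_lit 77288) (nat_lit 11) nil nil))) nil)))) (node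
  (nat_lit 0) (nat_lit 83047) (nat_lit 9) (node (nat_lit 5) (nat_lit 84487) (nat_lit 10) (node
  (nat_lit 4) (nat_lit 85611) (nat_lit 11) nil nil) (node (nat_lit 4) (nat_lit 84487) (nat_lit 10)
  nil (node (nat_lit 6) (nat_lit 84487) (nat_lit 10) (node (nat_lit 4) (nat_lit 85611) (nat_lit
  11) nil nil) nil))) (node (nat_lit 2) (nat_lit 0) (nat_lit 9) (node (nat_lit 5) (nat_lit 83919)
  (nat_lit 10) (node (nat_lit 4) (nat_lit 84694) (nat_lit 11) (node (nat_lit 5) (nat_lit 85313)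
  (nat_lit 12) (node (nat_lit 6) (nat_lit 81763) (nat_lit 13) nil nil) nil) nil) (node (nat_lit 4)
  (nat_lit 84428) (nat_lit 10) (node (nat_lit 6) (nat_lit 85171) (nat_lit 11) nil nil) (node
  (nat_lit 6) (nat_lit 82695) (nat_lit 10) (node (nat_lit 4) (nat_lit 84717) (nat_lit 11) nil nil)
  (node (nat_lit 0) (nat_lit 84428) (nat_lit 10) nil nil)))) nil))) (node (nat_lit 0) (nat_lit
  85295) (nat_lit 8) (node (nat_lit 6) (nat_lit 86265) (nat_lit 9) (node (nat_lit 4) (nat_lit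
  86867) (nat_lit 10) (node (nat_lit 5) (nat_lit 87399) (nat_lit 11) (node (nat_lit 6) (nat_lit
  87880) (nat_lit 12) nil nil) nil) nil) (node (nat_lit 5) (nat_lit 86265) (nat_lit 9) (node
  (nat_lit 4) (nat_lit 86867) (nat_lit 10) (node (nat_lit 5) (nat_lit 87399) (nat_lit 11) (node
  (nat_lit 6) (nat_lit 87880) (nat_lit 12) (node (nat_lit 4) (nat_lit 88271) (nat_lit 13) (node
  (nat_lit 6) (nat_lit 88575) (nat_lit 14) (node (nat_lit 5) (nat_lit 88798) (nat_lit 15) nil nil)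
  nil) nil) nil) nil) nil) (node (nat_lit 2) (nat_lit 83486) (nat_lit 9) (node (nat_lit 4)
  (nat_lit 84088) (nat_lit 10) (node (nat_lit 6) (nat_lit 84619) (nat_lit 11) nil nil) (node
  (nat_lit 5) (nat_lit 84088) (nat_lit 10) nil (node (nat_lit 6) (nat_lit 82978) (nat_lit 10) nil
  nil))) (node (nat_lit 0) (nat_lit 86265) (nat_lit 9) (node (nat_lit 5) (nat_lit 86867) (nat_lit
  10) nil nil) nil)))) (node (nat_lit 2) (nat_lit 0) (nat_lit 8) (node (nat_lit 6) (nat_lit 86060)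
  (nat_lit 9) (node (nat_lit 4) (nat_lit 84897) (nat_lit 10) (node (nat_lit 5) (nat_lit 83462)
  (nat_lit 11) (node (nat_lit 6) (nat_lit 78859) (nat_lit 12) (node (nat_lit 4) (nat_lit 65392)
  (nat_lit 13) nil nil) nil) nil) nil) (node (nat_lit 5) (nat_lit 86060) (nat_lit 9) (node
  (nat_lit 4) (nat_lit 86662) (nat_lit 10) (node (nat_lit 5) (nat_lit 87193) (nat_lit 11) (node
  (nat_lit 6) (nat_lit 85531) (nat_lit 12) (node (nat_lit 4) (nat_lit 79339) (nat_lit 13) (node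
  (nat_lit 6) (nat_lit 66787) (nat_lit 14) (node (nat_lit 5) (nat_lit 55222) (nat_lit 15) (node
  (nat_lit 4) (nat_lit 26220) (nat_lit 16) nil nil) nil) nil) nil) nil) nil) nil) (node (nat_lit
  4) (nat_lit 86060) (nat_lit 9) (node (nat_lit 6) (nat_lit 86662) (nat_lit 10) nil nil) (node
  (nat_lit 0) (nat_lit 86060) (nat_lit 9) (node (nat_lit 5) (nat_lit 86662) (nat_lit 10) nil (node
  (nat_lit 6) (nat_lit 86662) (nat_lit 10) nil nil)) nil)))) nil)))) (node (nat_lit 6) (nat_lit 0)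
  (nat_lit 7) (node (nat_lit 4) (nat_lit 0) (nat_lit 8) (node (nat_lit 0) (nat_lit 83047) (nat_lit
  9) (node (nat_lit 4) (nat_lit 84487) (nat_lit 10) (node (nat_lit 6) (nat_lit 85611) (nat_lit 11)
  (node (nat_lit 4) (nat_lit 86487) (nat_lit 12) nil nil) nil) (node (nat_lit 6) (nat_lit 84487)
  (nat_lit 10) (node (nat_lit 5) (nat_lit 85611) (nat_lit 11) nil (node (nat_lit 4) (nat_lit
  85611) (nat_lit 11) (node (nat_lit 5) (nat_lit 86487) (nat_lit 12) nil nil) nil)) (node (nat_lit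
  5) (nat_lit 84487) (nat_lit 10) (node (nat_lit 4) (nat_lit 85611) (nat_lit 11) (node (nat_lit 5)
  (nat_lit 86487) (nat_lit 12) nil nil) nil) nil))) (node (nat_lit 5) (nat_lit 0) (nat_lit 9)
  (node (nat_lit 0) (nat_lit 84540) (nat_lit 10) (node (nat_lit 4) (nat_lit 85664) (nat_lit 11)
  (node (nat_lit 5) (nat_lit 86540) (nat_lit 12) nil nil) (node (nat_lit 5) (nat_lit 85664)
  (nat_lit 11) (node (nat_lit 4) (nat_lit 86540) (nat_lit 12) nil nil) (node (nat_lit 6) (nat_lit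
  85664) (nat_lit 11) nil nil))) (node (nat_lit 2) (nat_lit 84487) (nat_lit 10) (node (nat_lit 4)
  (nat_lit 85611) (nat_lit 11) (node (nat_lit 5) (nat_lit 86487) (nat_lit 12) nil nil) (node
  (nat_lit 5) (nat_lit 85611) (nat_lit 11) (node (nat_lit 4) (nat_lit 86487) (nat_lit 12) nil nil)
  (node (nat_lit 6) (nat_lit 85611) (nat_lit 11) nil nil))) (node (nat_lit 6) (nat_lit 84487)
  (nat_lit 10) (node (nat_lit 5) (nat_lit 85711) (nat_lit 11) (node (nat_lit 4) (nat_lit 86588)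
  (nat_lit 12) nil nil) nil) nil))) (node (nat_lit 2) (nat_lit 82782) (nat_lit 9) (node (nat_lit
  4) (nat_lit 84222) (nat_lit 10) (node (nat_lit 6) (nat_lit 85346) (nat_lit 11) (node (nat_lit 4)
  (nat_lit 86222) (nat_lit 12) nil nil) (node (nat_lit 5) (nat_lit 85346) (nat_lit 11) nil nil))
  (node (nat_lit 6) (nat_lit 84222) (nat_lit 10) (node (nat_lit 5) (nat_lit 85346) (nat_lit 11)
  (node (nat_lit 4) (nat_lit 86222) (nat_lit 12) nil nil) (node (nat_lit 4) (nat_lit 85346)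
  (nat_lit 11) (node (nat_lit 5) (nat_lit 85316) (nat_lit 12) nil nil) nil)) (node (nat_lit 5)
  (nat_lit 84222) (nat_lit 10) (node (nat_lit 4) (nat_lit 85346) (nat_lit 11) (node (nat_lit 5)
  (nat_lit 86222) (nat_lit 12) nil nil) nil) nil))) nil))) (node (nat_lit 0) (nat_lit 0) (nat_lit
  8) (node (nat_lit 4) (nat_lit 86265) (nat_lit 9) (node (nat_lit 11) (nat_lit 86980) (nat_lit 10)
  (node (nat_lit 6) (nat_lit 87511) (nat_lit 11) (node (nat_lit 4) (nat_lit 87993) (nat_lit 12)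
  nil nil) (node (nat_lit 5) (nat_lit 87511) (nat_lit 11) nil nil)) (node (nat_lit 6) (nat_lit
  86867) (nat_lit 10) (node (nat_lit 5) (nat_lit 87399) (nat_lit 11) nil (node (nat_lit 4)
  (nat_lit 87399) (nat_lit 11) (node (nat_lit 5) (nat_lit 87880) (nat_lit 12) (node (nat_lit 6)
  (nat_lit 88271) (nat_lit 13) nil nil) nil) nil)) (node (nat_lit 5) (nat_lit 86867) (nat_lit 10)
  nil nil))) (node (nat_lit 5) (nat_lit 86325) (nat_lit 9) (node (nat_lit 4) (nat_lit 86927)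
  (nat_lit 10) (node (nat_lit 5) (nat_lit 87458) (nat_lit 11) (node (nat_lit 6) (nat_lit 87940)
  (nat_lit 12) (node (nat_lit 4) (nat_lit 88330) (nat_lit 13) nil nil) nil) (node (nat_lit 6)
  (nat_lit 87458) (nat_lit 11) nil nil)) (node (nat_lit 11) (nat_lit 86980) (nat_lit 10) (node
  (nat_lit 6) (nat_lit 87511) (nat_lit 11) (node (nat_lit 4) (nat_lit 87993) (nat_lit 12) nil nil)
  nil) (node (nat_lit 6) (nat_lit 86927) (nat_lit 10) nil nil))) (node (nat_lit 6) (nat_lit 86265)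
  (nat_lit 9) (node (nat_lit 4) (nat_lit 86867) (nat_lit 10) (node (nat_lit 5) (nat_lit 87399)
  (nat_lit 11) (node (nat_lit 6) (nat_lit 87880) (nat_lit 12) nil nil) nil) (node (nat_lit 5)
  (nat_lit 86980) (nat_lit 10) (node (nat_lit 4) (nat_lit 87511) (nat_lit 11) (node (nat_lit 5)
  (nat_lit 87993) (nat_lit 12) nil nil) nil) nil)) (node (nat_lit 0) (nat_lit 86325) (nat_lit 9)
  (node (nat_lit 6) (nat_lit 86927) (nat_lit 10) nil (node (nat_lit 5) (nat_lit 86927) (nat_lit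
  10) nil nil)) (node (nat_lit 2) (nat_lit 86265) (nat_lit 9) (node (nat_lit 6) (nat_lit 86867)
  (nat_lit 10) nil (node (nat_lit 5) (nat_lit 86867) (nat_lit 10) nil nil)) nil))))) (node
  (nat_lit 2) (nat_lit 0) (nat_lit 8) (node (nat_lit 4) (nat_lit 86060) (nat_lit 9) (node (nat_lit
  11) (nat_lit 86662) (nat_lit 10) (node (nat_lit 6) (nat_lit 87193) (nat_lit 11) (node (nat_lit
  4) (nat_lit 87159) (nat_lit 12) nil nil) (node (nat_lit 5) (nat_lit 87193) (nat_lit 11) (node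
  (nat_lit 4) (nat_lit 87674) (nat_lit 12) nil nil) nil)) (node (nat_lit 6) (nat_lit 86662)
  (nat_lit 10) (node (nat_lit 4) (nat_lit 87193) (nat_lit 11) (node (nat_lit 5) (nat_lit 87674)
  (nat_lit 12) (node (nat_lit 6) (nat_lit 88065) (nat_lit 13) nil nil) nil) nil) (node (nat_lit 5)
  (nat_lit 86980) (nat_lit 10) nil nil))) (node (nat_lit 5) (nat_lit 84072) (nat_lit 9) (node
  (nat_lit 4) (nat_lit 86927) (nat_lit 10) (node (nat_lit 5) (nat_lit 85492) (nat_lit 11) (node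
  (nat_lit 6) (nat_lit 80634) (nat_lit 12) (node (nat_lit 4) (nat_lit 76248) (nat_lit 13) nil nil)
  nil) (node (nat_lit 6) (nat_lit 87458) (nat_lit 11) nil nil)) (node (nat_lit 11) (nat_lit 84072)
  (nat_lit 10) (node (nat_lit 6) (nat_lit 84047) (nat_lit 11) (node (nat_lit 4) (nat_lit 85311)
  (nat_lit 12) nil nil) (node (nat_lit 4) (nat_lit 87458) (nat_lit 11) nil nil)) (node (nat_lit 6)
  (nat_lit 84072) (nat_lit 10) (node (nat_lit 5) (nat_lit 84072) (nat_lit 11) (node (nat_lit 4)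
  (nat_lit 87347) (nat_lit 12) nil nil) nil) nil))) (node (nat_lit 6) (nat_lit 84072) (nat_lit 9)
  (node (nat_lit 4) (nat_lit 86662) (nat_lit 10) (node (nat_lit 5) (nat_lit 87469) (nat_lit 11)
  (node (nat_lit 6) (nat_lit 79132) (nat_lit 12) nil nil) nil) (node (nat_lit 5) (nat_lit 84072)
  (nat_lit 10) (node (nat_lit 4) (nat_lit 87511) (nat_lit 11) (node (nat_lit 5) (nat_lit 87670)
  (nat_lit 12) nil nil) nil) nil)) (node (nat_lit 0) (nat_lit 86325) (nat_lit 9) (node (nat_lit 6)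
  (nat_lit 86927) (nat_lit 10) nil (node (nat_lit 5) (nat_lit 86927) (nat_lit 10) nil nil))
  nil)))) nil))) (node (nat_lit 0) (nat_lit 0) (nat_lit 7) (node (nat_lit 6) (nat_lit 85215)
  (nat_lit 8) (node (nat_lit 5) (nat_lit 86185) (nat_lit 9) (node (nat_lit 4) (nat_lit 86787)
  (nat_lit 10) (node (nat_lit 5) (nat_lit 87318) (nat_lit 11) (node (nat_lit 6) (nat_lit 87800)
  (nat_lit 12) nil nil) nil) nil) (node (nat_lit 4) (nat_lit 86185) (nat_lit 9) (node (nat_lit 5)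
  (nat_lit 86787) (nat_lit 10) (node (nat_lit 6) (nat_lit 87318) (nat_lit 11) nil nil) nil) (node
  (nat_lit 10) (nat_lit 86185) (nat_lit 9) nil nil))) (node (nat_lit 4) (nat_lit 85215) (nat_lit
  8) (node (nat_lit 6) (nat_lit 86185) (nat_lit 9) (node (nat_lit 5) (nat_lit 86787) (nat_lit 10)
  nil nil) (node (nat_lit 10) (nat_lit 86185) (nat_lit 9) (node (nat_lit 6) (nat_lit 86787)
  (nat_lit 10) nil nil) nil)) (node (nat_lit 5) (nat_lit 85295) (nat_lit 8) (node (nat_lit 4)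
  (nat_lit 86265) (nat_lit 9) (node (nat_lit 6) (nat_lit 86867) (nat_lit 10) nil (node (nat_lit 5)
  (nat_lit 86867) (nat_lit 10) (node (nat_lit 6) (nat_lit 87399) (nat_lit 11) (node (nat_lit 4)
  (nat_lit 87880) (nat_lit 12) nil nil) nil) nil)) nil) (node (nat_lit 0) (nat_lit 85215) (nat_lit
  8) (node (nat_lit 6) (nat_lit 86185) (nat_lit 9) (node (nat_lit 4) (nat_lit 86787) (nat_lit 10)
  nil nil) (node (nat_lit 5) (nat_lit 86185) (nat_lit 9) (node (nat_lit 4) (nat_lit 86787)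
  (nat_lit 10) nil nil) nil)) (node (nat_lit 2) (nat_lit 85215) (nat_lit 8) (node (nat_lit 6)
  (nat_lit 86185) (nat_lit 9) (node (nat_lit 4) (nat_lit 85278) (nat_lit 10) nil nil) (node
  (nat_lit 5) (nat_lit 86185) (nat_lit 9) (node (nat_lit 4) (nat_lit 86787) (nat_lit 10) nil nil)
  (node (nat_lit 4) (nat_lit 86185) (nat_lit 9) (node (nat_lit 6) (nat_lit 86787) (nat_lit 10) nil
  nil) nil))) nil))))) (node (nat_lit 2) (nat_lit 0) (nat_lit 7) (node (nat_lit 6) (nat_lit 84112)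
  (nat_lit 8) (node (nat_lit 5) (nat_lit 84112) (nat_lit 9) (node (nat_lit 4) (nat_lit 85629)
  (nat_lit 10) (node (nat_lit 5) (nat_lit 86030) (nat_lit 11) (node (nat_lit 6) (nat_lit 83653)
  (nat_lit 12) (node (nat_lit 4) (nat_lit 78064) (nat_lit 13) nil nil) nil) nil) nil) (node
  (nat_lit 4) (nat_lit 83151) (nat_lit 9) (node (nat_lit 5) (nat_lit 79043) (nat_lit 10) (node
  (nat_lit 6) (nat_lit 74770) (nat_lit 11) (node (nat_lit 4) (nat_lit 57423) (nat_lit 12) (node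
  (nat_lit 6) (nat_lit 55626) (nat_lit 13) nil nil) nil) nil) nil) (node (nat_lit 10) (nat_lit
  84112) (nat_lit 9) nil nil))) (node (nat_lit 4) (nat_lit 85089) (nat_lit 8) (node (nat_lit 6)
  (nat_lit 86060) (nat_lit 9) (node (nat_lit 5) (nat_lit 86662) (nat_lit 10) nil nil) (node
  (nat_lit 10) (nat_lit 84580) (nat_lit 9) (node (nat_lit 6) (nat_lit 84196) (nat_lit 10) nil
  (node (nat_lit 5) (nat_lit 85036) (nat_lit 10) (node (nat_lit 4) (nat_lit 85437) (nat_lit 11)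
  nil nil) nil)) nil)) (node (nat_lit 5) (nat_lit 84112) (nat_lit 8) (node (nat_lit 4) (nat_lit
  86265) (nat_lit 9) (node (nat_lit 6) (nat_lit 86867) (nat_lit 10) nil (node (nat_lit 5) (nat_lit
  86867) (nat_lit 10) (node (nat_lit 6) (nat_lit 80968) (nat_lit 11) (node (nat_lit 4) (nat_lit
  72545) (nat_lit 12) (node (nat_lit 6) (nat_lit 56300) (nat_lit 13) (node (nat_lit 5) (nat_lit
  31918) (nat_lit 14) nil nil) nil) nil) nil) nil)) (node (nat_lit 6) (nat_lit 84112) (nat_lit 9)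
  nil nil)) (node (nat_lit 0) (nat_lit 85295) (nat_lit 8) (node (nat_lit 6) (nat_lit 86265)
  (nat_lit 9) (node (nat_lit 4) (nat_lit 86867) (nat_lit 10) nil (node (nat_lit 5) (nat_lit 86867)
  (nat_lit 10) nil nil)) (node (nat_lit 5) (nat_lit 86265) (nat_lit 9) (node (nat_lit 4) (nat_lit
  86867) (nat_lit 10) nil nil) (node (nat_lit 4) (nat_lit 86265) (nat_lit 9) (node (nat_lit 6)
  (nat_lit 86867) (nat_lit 10) nil nil) nil))) nil)))) nil)))) nil) (node (nat_lit 5) (nat_lit 0)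
  (nat_lit 5) (node (nat_lit 4) (nat_lit 45534) (nat_lit 6) (node (nat_lit 6) (nat_lit 55666)
  (nat_lit 7) (node (nat_lit 5) (nat_lit 56230) (nat_lit 8) nil nil) nil) nil) nil)) (node
  (nat_lit 5) (nat_lit 0) (nat_lit 4) (node (nat_lit 4) (nat_lit 0) (nat_lit 5) t278 nil) nil))
  (node (nat_lit 4) (nat_lit 0) (nat_lit 3) (node (nat_lit 3) (nat_lit 0) (nat_lit 4) (node
  (nat_lit 5) (nat_lit 0) (nat_lit 5) (node (nat_lit 7) (nat_lit 0) (nat_lit 6) t279 (node
  (nat_lit 4) (nat_lit 0) (nat_lit 6) (node (nat_lit 5) (nat_lit 57323) (nat_lit 7) (node (nat_lit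
  7) (nat_lit 57220) (nat_lit 8) (node (nat_lit 4) (nat_lit 60087) (nat_lit 9) (node (nat_lit 5)
  (nat_lit 57702) (nat_lit 10) (node (nat_lit 4) (nat_lit 57153) (nat_lit 11) (node (nat_lit 7)
  (nat_lit 51111) (nat_lit 12) nil nil) nil) nil) nil) nil) (node (nat_lit 0) (nat_lit 59550)
  (nat_lit 7) (node (nat_lit 7) (nat_lit 60716) (nat_lit 8) (node (nat_lit 4) (nat_lit 61730)
  (nat_lit 9) (node (nat_lit 5) (nat_lit 61730) (nat_lit 10) nil nil) nil) nil) (node (nat_lit 2)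
  (nat_lit 58427) (nat_lit 7) (node (nat_lit 7) (nat_lit 58831) (nat_lit 8) (node (nat_lit 4)
  (nat_lit 56073) (nat_lit 9) (node (nat_lit 5) (nat_lit 52434) (nat_lit 10) (node (nat_lit 4)
  (nat_lit 37110) (nat_lit 11) (node (nat_lit 7) (nat_lit 27052) (nat_lit 12) nil nil) nil) nil)
  nil) nil) nil))) nil)) (node (nat_lit 4) (nat_lit 0) (nat_lit 5) (node (nat_lit 5) (nat_lit 0)
  (nat_lit 6) (node (nat_lit 7) (nat_lit 0) (nat_lit 7) (node (nat_lit 4) (nat_lit 0) (nat_lit 8)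
  (node (nat_lit 7) (nat_lit 64405) (nat_lit 9) nil (node (nat_lit 0) (nat_lit 64775) (nat_lit 9)
  (node (nat_lit 7) (nat_lit 64775) (nat_lit 10) (node (nat_lit 4) (nat_lit 65288) (nat_lit 11)
  nil nil) nil) (node (nat_lit 2) (nat_lit 64284) (nat_lit 9) (node (nat_lit 7) (nat_lit 62378)
  (nat_lit 10) (node (nat_lit 4) (nat_lit 61809) (nat_lit 11) nil nil) nil) nil))) (node (nat_lit
  5) (nat_lit 0) (nat_lit 8) (node (nat_lit 4) (nat_lit 63459) (nat_lit 9) nil (node (nat_lit 0)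
  (nat_lit 64299) (nat_lit 9) (node (nat_lit 7) (nat_lit 64299) (nat_lit 10) (node (nat_lit 4)
  (nat_lit 64778) (nat_lit 11) (node (nat_lit 5) (nat_lit 64778) (nat_lit 12) nil nil) nil) nil)
  (node (nat_lit 2) (nat_lit 60069) (nat_lit 9) (node (nat_lit 7) (nat_lit 60069) (nat_lit 10)
  (node (nat_lit 4) (nat_lit 61473) (nat_lit 11) (node (nat_lit 5) (nat_lit 60114) (nat_lit 12)
  nil nil) nil) nil) nil))) (node (nat_lit 0) (nat_lit 64494) (nat_lit 8) (node (nat_lit 7)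
  (nat_lit 64494) (nat_lit 9) (node (nat_lit 4) (nat_lit 64801) (nat_lit 10) (node (nat_lit 5)
  (nat_lit 64801) (nat_lit 11) nil nil) nil) nil) (node (nat_lit 2) (nat_lit 0) (nat_lit 8) (node
  (nat_lit 4) (nat_lit 62993) (nat_lit 9) nil (node (nat_lit 5) (nat_lit 61629) (nat_lit 9) (node
  (nat_lit 7) (nat_lit 61629) (nat_lit 10) (node (nat_lit 4) (nat_lit 63033) (nat_lit 11) nil nil)
  nil) (node (nat_lit 7) (nat_lit 61629) (nat_lit 9) (node (nat_lit 4) (nat_lit 63128) (nat_lit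
  10) (node (nat_lit 5) (nat_lit 62375) (nat_lit 11) (node (nat_lit 4) (nat_lit 50141) (nat_lit
  12) (node (nat_lit 7) (nat_lit 43692) (nat_lit 13) nil nil) nil) nil) nil) (node (nat_lit 0)
  (nat_lit 62993) (nat_lit 9) nil nil)))) nil)))) (node (nat_lit 0) (nat_lit 0) (nat_lit 7) (node
  (nat_lit 4) (nat_lit 65663) (nat_lit 8) (node (nat_lit 5) (nat_lit 65663) (nat_lit 9) (node
  (nat_lit 7) (nat_lit 65663) (nat_lit 10) (node (nat_lit 4) (nat_lit 65479) (nat_lit 11) nil nil)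
  nil) nil) (node (nat_lit 7) (nat_lit 65323) (nat_lit 8) (node (nat_lit 4) (nat_lit 65835)
  (nat_lit 9) (node (nat_lit 5) (nat_lit 65835) (nat_lit 10) (node (nat_lit 4) (nat_lit 65954)
  (nat_lit 11) (node (nat_lit 7) (nat_lit 65954) (nat_lit 12) nil nil) nil) nil) nil) (node
  (nat_lit 5) (nat_lit 65323) (nat_lit 8) nil (node (nat_lit 0) (nat_lit 65663) (nat_lit 8) (node
  (nat_lit 7) (nat_lit 65663) (nat_lit 9) (node (nat_lit 4) (nat_lit 65954) (nat_lit 10) nil nil)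
  nil) (node (nat_lit 2) (nat_lit 64362) (nat_lit 8) (node (nat_lit 7) (nat_lit 64736) (nat_lit 9)
  (node (nat_lit 4) (nat_lit 63284) (nat_lit 10) nil nil) nil) nil))))) (node (nat_lit 2) (nat_lit
  0) (nat_lit 7) (node (nat_lit 4) (nat_lit 63848) (nat_lit 8) (node (nat_lit 7) (nat_lit 63848)
  (nat_lit 9) nil nil) (node (nat_lit 7) (nat_lit 61805) (nat_lit 8) (node (nat_lit 4) (nat_lit
  63406) (nat_lit 9) (node (nat_lit 5) (nat_lit 60908) (nat_lit 10) (node (nat_lit 4) (nat_lit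
  44996) (nat_lit 11) (node (nat_lit 7) (nat_lit 37083) (nat_lit 12) nil nil) nil) nil) (node
  (nat_lit 10) (nat_lit 61805) (nat_lit 9) nil nil)) (node (nat_lit 5) (nat_lit 61805) (nat_lit 8)
  (node (nat_lit 7) (nat_lit 61805) (nat_lit 9) (node (nat_lit 4) (nat_lit 63284) (nat_lit 10)
  (node (nat_lit 5) (nat_lit 60553) (nat_lit 11) (node (nat_lit 4) (nat_lit 55748) (nat_lit 12)
  (node (nat_lit 7) (nat_lit 49254) (nat_lit 13) nil nil) nil) nil) nil) nil) (node (nat_lit 0)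
  (nat_lit 63848) (nat_lit 8) (node (nat_lit 7) (nat_lit 63848) (nat_lit 9) (node (nat_lit 4)
  (nat_lit 64155) (nat_lit 10) nil nil) nil) nil)))) nil))) nil) nil)) nil) nil))

noncomputable def c60 : Tr :=
  (node (nat_lit 3) (nat_lit 0) (nat_lit 1) (node (nat_lit 1) (nat_lit 0) (nat_lit 2) (node
  (nat_lit 3) (nat_lit 0) (nat_lit 3) (node (nat_lit 4) (nat_lit 0) (nat_lit 4) (node (nat_lit 6)
  (nat_lit 0) (nat_lit 5) (node (nat_lit 5) (nat_lit 0) (nat_lit 6) (node (nat_lit 4) (nat_lit 0)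
  (nat_lit 7) (node (nat_lit 6) (nat_lit 0) (nat_lit 8) (node (nat_lit 4) (nat_lit 0) (nat_lit 9)
  (node (nat_lit 0) (nat_lit 122799) (nat_lit 10) nil (node (nat_lit 2) (nat_lit 117784) (nat_lit
  10) nil nil)) (node (nat_lit 0) (nat_lit 120072) (nat_lit 9) (node (nat_lit 6) (nat_lit 120366)
  (nat_lit 10) nil nil) (node (nat_lit 2) (nat_lit 118757) (nat_lit 9) (node (nat_lit 6) (nat_lit
  115162) (nat_lit 10) (node (nat_lit 4) (nat_lit 115937) (nat_lit 11) (node (nat_lit 5) (nat_lit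
  116556) (nat_lit 12) (node (nat_lit 6) (nat_lit 113006) (nat_lit 13) nil nil) nil) (node
  (nat_lit 5) (nat_lit 116702) (nat_lit 11) (node (nat_lit 4) (nat_lit 115387) (nat_lit 12) nil
  nil) nil)) (node (nat_lit 4) (nat_lit 118631) (nat_lit 10) (node (nat_lit 6) (nat_lit 118748)
  (nat_lit 11) nil nil) (node (nat_lit 5) (nat_lit 117459) (nat_lit 10) (node (nat_lit 4) (nat_lit
  116056) (nat_lit 11) nil nil) nil))) nil))) (node (nat_lit 5) (nat_lit 0) (nat_lit 8) (node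
  (nat_lit 6) (nat_lit 0) (nat_lit 9) (node (nat_lit 0) (nat_lit 107976) (nat_lit 10) (node
  (nat_lit 5) (nat_lit 109172) (nat_lit 11) nil (node (nat_lit 6) (nat_lit 108928) (nat_lit 11)
  nil nil)) (node (nat_lit 2) (nat_lit 105354) (nat_lit 10) (node (nat_lit 5) (nat_lit 109033)
  (nat_lit 11) (node (nat_lit 6) (nat_lit 109033) (nat_lit 12) (node (nat_lit 5) (nat_lit 109980)
  (nat_lit 13) nil nil) nil) (node (nat_lit 4) (nat_lit 106174) (nat_lit 11) (node (nat_lit 6)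
  (nat_lit 107150) (nat_lit 12) nil nil) (node (nat_lit 6) (nat_lit 106478) (nat_lit 11) (node
  (nat_lit 5) (nat_lit 106639) (nat_lit 12) nil nil) nil))) (node (nat_lit 4) (nat_lit 0) (nat_lit
  10) (node (nat_lit 5) (nat_lit 64675) (nat_lit 11) nil (node (nat_lit 6) (nat_lit 43164)
  (nat_lit 11) nil (node (nat_lit 0) (nat_lit 64675) (nat_lit 11) nil (node (nat_lit 2) (nat_lit
  64675) (nat_lit 11) nil nil)))) (node (nat_lit 5) (nat_lit 107976) (nat_lit 10) (node (nat_lit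
  4) (nat_lit 108928) (nat_lit 11) nil nil) nil)))) (node (nat_lit 0) (nat_lit 115222) (nat_lit 9)
  (node (nat_lit 5) (nat_lit 116870) (nat_lit 10) nil (node (nat_lit 6) (nat_lit 114572) (nat_lit
  10) (node (nat_lit 5) (nat_lit 114989) (nat_lit 11) nil nil) nil)) (node (nat_lit 2) (nat_lit
  115222) (nat_lit 9) (node (nat_lit 5) (nat_lit 116870) (nat_lit 10) (node (nat_lit 4) (nat_lit
  117418) (nat_lit 11) nil nil) (node (nat_lit 4) (nat_lit 115097) (nat_lit 10) (node (nat_lit 6)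
  (nat_lit 115214) (nat_lit 11) nil nil) (node (nat_lit 6) (nat_lit 115313) (nat_lit 10) (node
  (nat_lit 4) (nat_lit 112508) (nat_lit 11) (node (nat_lit 5) (nat_lit 113127) (nat_lit 12) nil
  nil) (node (nat_lit 5) (nat_lit 114865) (nat_lit 11) nil nil)) nil))) nil))) (node (nat_lit 0)
  (nat_lit 122190) (nat_lit 8) (node (nat_lit 6) (nat_lit 121193) (nat_lit 9) nil (node (nat_lit
  5) (nat_lit 123848) (nat_lit 9) (node (nat_lit 4) (nat_lit 122721) (nat_lit 10) (node (nat_lit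
  5) (nat_lit 123703) (nat_lit 11) (node (nat_lit 6) (nat_lit 123192) (nat_lit 12) (node (nat_lit
  4) (nat_lit 123915) (nat_lit 13) (node (nat_lit 6) (nat_lit 123644) (nat_lit 14) (node (nat_lit
  5) (nat_lit 123751) (nat_lit 15) nil nil) nil) nil) nil) nil) nil) nil)) (node (nat_lit 2)
  (nat_lit 119438) (nat_lit 8) (node (nat_lit 6) (nat_lit 120099) (nat_lit 9) (node (nat_lit 4)
  (nat_lit 116609) (nat_lit 10) (node (nat_lit 5) (nat_lit 115624) (nat_lit 11) (node (nat_lit 6)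
  (nat_lit 110028) (nat_lit 12) (node (nat_lit 4) (nat_lit 103836) (nat_lit 13) (node (nat_lit 6)
  (nat_lit 93041) (nat_lit 14) (node (nat_lit 5) (nat_lit 79719) (nat_lit 15) (node (nat_lit 4)
  (nat_lit 56705) (nat_lit 16) nil nil) nil) nil) nil) nil) nil) (node (nat_lit 5) (nat_lit
  119671) (nat_lit 10) (node (nat_lit 4) (nat_lit 117578) (nat_lit 11) nil nil) nil)) (node
  (nat_lit 5) (nat_lit 120600) (nat_lit 9) (node (nat_lit 4) (nat_lit 115070) (nat_lit 10) (node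
  (nat_lit 5) (nat_lit 113814) (nat_lit 11) (node (nat_lit 6) (nat_lit 108774) (nat_lit 12) (node
  (nat_lit 4) (nat_lit 102851) (nat_lit 13) (node (nat_lit 6) (nat_lit 93950) (nat_lit 14) (node
  (nat_lit 5) (nat_lit 80345) (nat_lit 15) (node (nat_lit 4) (nat_lit 62740) (nat_lit 16) nil nil)
  nil) nil) nil) nil) nil) nil) nil)) nil)))) (node (nat_lit 6) (nat_lit 104923) (nat_lit 7) nil
  (node (nat_lit 0) (nat_lit 0) (nat_lit 7) (node (nat_lit 6) (nat_lit 122749) (nat_lit 8) (node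
  (nat_lit 4) (nat_lit 123820) (nat_lit 9) (node (nat_lit 5) (nat_lit 124330) (nat_lit 10) (node
  (nat_lit 6) (nat_lit 123035) (nat_lit 11) nil nil) nil) nil) (node (nat_lit 4) (nat_lit 122749)
  (nat_lit 8) (node (nat_lit 6) (nat_lit 116793) (nat_lit 9) nil nil) (node (nat_lit 5) (nat_lit
  122749) (nat_lit 8) (node (nat_lit 4) (nat_lit 121628) (nat_lit 9) (node (nat_lit 5) (nat_lit
  122741) (nat_lit 10) (node (nat_lit 6) (nat_lit 121977) (nat_lit 11) (node (nat_lit 4) (nat_lit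
  122865) (nat_lit 12) nil nil) nil) nil) nil) (node (nat_lit 0) (nat_lit 122749) (nat_lit 8)
  (node (nat_lit 6) (nat_lit 121165) (nat_lit 9) nil (node (nat_lit 5) (nat_lit 123820) (nat_lit
  9) nil nil)) (node (nat_lit 2) (nat_lit 122883) (nat_lit 8) (node (nat_lit 6) (nat_lit 123820)
  (nat_lit 9) (node (nat_lit 4) (nat_lit 119083) (nat_lit 10) nil nil) (node (nat_lit 5) (nat_lit
  123820) (nat_lit 9) (node (nat_lit 4) (nat_lit 116844) (nat_lit 10) nil nil) (node (nat_lit 4)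
  (nat_lit 121762) (nat_lit 9) nil nil))) nil))))) (node (nat_lit 2) (nat_lit 0) (nat_lit 7) (node
  (nat_lit 6) (nat_lit 119284) (nat_lit 8) (node (nat_lit 5) (nat_lit 119875) (nat_lit 9) (node
  (nat_lit 4) (nat_lit 117232) (nat_lit 10) (node (nat_lit 5) (nat_lit 115866) (nat_lit 11) (node
  (nat_lit 6) (nat_lit 109663) (nat_lit 12) (node (nat_lit 4) (nat_lit 104209) (nat_lit 13) (node
  (nat_lit 6) (nat_lit 91361) (nat_lit 14) (node (nat_lit 5) (nat_lit 64675) (nat_lit 15) nil nil)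
  nil) nil) nil) nil) nil) (node (nat_lit 4) (nat_lit 119971) (nat_lit 9) (node (nat_lit 5)
  (nat_lit 115851) (nat_lit 10) (node (nat_lit 6) (nat_lit 111837) (nat_lit 11) (node (nat_lit 4)
  (nat_lit 87371) (nat_lit 12) (node (nat_lit 6) (nat_lit 59027) (nat_lit 13) (node (nat_lit 5)
  (nat_lit 54042) (nat_lit 14) nil nil) nil) nil) nil) nil) (node (nat_lit 10) (nat_lit 120981)
  (nat_lit 9) nil nil))) (node (nat_lit 4) (nat_lit 120693) (nat_lit 8) (node (nat_lit 6) (nat_lit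
  119223) (nat_lit 9) (node (nat_lit 4) (nat_lit 118437) (nat_lit 10) (node (nat_lit 5) (nat_lit
  117181) (nat_lit 11) (node (nat_lit 6) (nat_lit 111155) (nat_lit 12) nil nil) nil) nil) nil)
  (node (nat_lit 5) (nat_lit 118282) (nat_lit 8) (node (nat_lit 4) (nat_lit 119408) (nat_lit 9)
  (node (nat_lit 5) (nat_lit 118807) (nat_lit 10) (node (nat_lit 6) (nat_lit 111814) (nat_lit 11)
  (node (nat_lit 4) (nat_lit 97123) (nat_lit 12) (node (nat_lit 6) (nat_lit 64675) (nat_lit 13)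
  (node (nat_lit 5) (nat_lit 64675) (nat_lit 14) nil nil) nil) nil) nil) nil) nil) (node (nat_lit
  0) (nat_lit 120693) (nat_lit 8) (node (nat_lit 6) (nat_lit 118726) (nat_lit 9) (node (nat_lit 4)
  (nat_lit 119236) (nat_lit 10) nil (node (nat_lit 5) (nat_lit 118002) (nat_lit 10) nil nil))
  (node (nat_lit 5) (nat_lit 121380) (nat_lit 9) (node (nat_lit 4) (nat_lit 121891) (nat_lit 10)
  nil nil) nil)) nil)))) nil)))) nil) (node (nat_lit 5) (nat_lit 0) (nat_lit 5) (node (nat_lit 4)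
  (nat_lit 0) (nat_lit 6) (node (nat_lit 6) (nat_lit 0) (nat_lit 7) (node (nat_lit 5) (nat_lit
  54754) (nat_lit 8) (node (nat_lit 4) (nat_lit 57698) (nat_lit 9) nil nil) (node (nat_lit 4)
  (nat_lit 0) (nat_lit 8) (node (nat_lit 0) (nat_lit 58732) (nat_lit 9) nil (node (nat_lit 5)
  (nat_lit 58732) (nat_lit 9) nil (node (nat_lit 2) (nat_lit 55916) (nat_lit 9) nil nil))) (node
  (nat_lit 0) (nat_lit 59850) (nat_lit 8) nil (node (nat_lit 2) (nat_lit 58312) (nat_lit 8) (node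
  (nat_lit 5) (nat_lit 58427) (nat_lit 9) (node (nat_lit 4) (nat_lit 57185) (nat_lit 10) (node
  (nat_lit 5) (nat_lit 54967) (nat_lit 11) (node (nat_lit 6) (nat_lit 50588) (nat_lit 12) (node
  (nat_lit 4) (nat_lit 42770) (nat_lit 13) nil nil) nil) nil) nil) (node (nat_lit 4) (nat_lit
  58999) (nat_lit 9) nil nil)) nil)))) (node (nat_lit 0) (nat_lit 57733) (nat_lit 7) (node
  (nat_lit 5) (nat_lit 59803) (nat_lit 8) (node (nat_lit 4) (nat_lit 60490) (nat_lit 9) (node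
  (nat_lit 5) (nat_lit 61001) (nat_lit 10) (node (nat_lit 6) (nat_lit 59706) (nat_lit 11) (node
  (nat_lit 4) (nat_lit 60112) (nat_lit 12) nil nil) nil) nil) nil) (node (nat_lit 4) (nat_lit
  60304) (nat_lit 8) nil nil)) (node (nat_lit 2) (nat_lit 56531) (nat_lit 7) (node (nat_lit 6)
  (nat_lit 58491) (nat_lit 8) (node (nat_lit 5) (nat_lit 54219) (nat_lit 9) (node (nat_lit 4)
  (nat_lit 53024) (nat_lit 10) (node (nat_lit 5) (nat_lit 50758) (nat_lit 11) (node (nat_lit 6)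
  (nat_lit 46379) (nat_lit 12) (node (nat_lit 4) (nat_lit 38561) (nat_lit 13) nil nil) nil) nil)
  nil) nil) (node (nat_lit 5) (nat_lit 58490) (nat_lit 8) (node (nat_lit 4) (nat_lit 58983)
  (nat_lit 9) (node (nat_lit 5) (nat_lit 57268) (nat_lit 10) (node (nat_lit 6) (nat_lit 52546)
  (nat_lit 11) (node (nat_lit 4) (nat_lit 42782) (nat_lit 12) nil nil) nil) nil) nil) (node
  (nat_lit 4) (nat_lit 60221) (nat_lit 8) nil nil))) nil))) nil) nil)) (node (nat_lit 5) (nat_lit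
  0) (nat_lit 4) (node (nat_lit 4) (nat_lit 0) (nat_lit 5) t273 nil) nil)) (node (nat_lit 4)
  (nat_lit 0) (nat_lit 3) (node (nat_lit 3) (nat_lit 0) (nat_lit 4) t274 nil) nil)) (node (nat_lit
  3) (nat_lit 0) (nat_lit 2) t277 nil)) (node (nat_lit 1) (nat_lit 0) (nat_lit 1) (node (nat_lit
  3) (nat_lit 0) (nat_lit 2) t280 nil) nil))

noncomputable def t281 : Tr :=
  (node (nat_lit 5) (nat_lit 0) (nat_lit 9) (node (nat_lit 6) (nat_lit 0) (nat_lit 10) (node
  (nat_lit 5) (nat_lit 0) (nat_lit 11) (node (nat_lit 4) (nat_lit 0) (nat_lit 12) (node (nat_lit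
  6) (nat_lit 0) (nat_lit 13) (node (nat_lit 5) (nat_lit 0) (nat_lit 14) (node (nat_lit 6)
  (nat_lit 0) (nat_lit 15) (node (nat_lit 4) (nat_lit 0) (nat_lit 16) (node (nat_lit 6) (nat_lit
  60682) (nat_lit 17) (node (nat_lit 5) (nat_lit 60916) (nat_lit 18) (node (nat_lit 4) (nat_lit
  61098) (nat_lit 19) (node (nat_lit 5) (nat_lit 61198) (nat_lit 20) (node (nat_lit 6) (nat_lit
  61198) (nat_lit 21) (node (nat_lit 4) (nat_lit 61198) (nat_lit 22) (node (nat_lit 5) (nat_lit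
  61198) (nat_lit 23) (node (nat_lit 4) (nat_lit 61198) (nat_lit 24) (node (nat_lit 6) (nat_lit
  60440) (nat_lit 25) (node (nat_lit 4) (nat_lit 58959) (nat_lit 26) (node (nat_lit 5) (nat_lit
  55320) (nat_lit 27) (node (nat_lit 6) (nat_lit 49345) (nat_lit 28) (node (nat_lit 5) (nat_lit
  41852) (nat_lit 29) (node (nat_lit 4) (nat_lit 34593) (nat_lit 30) (node (nat_lit 6) (nat_lit
  34621) (nat_lit 31) (node (nat_lit 5) (nat_lit 34641) (nat_lit 32) nil nil) nil) nil) nil) nil)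
  nil) nil) nil) nil) nil) nil) nil) nil) nil) nil) (node (nat_lit 5) (nat_lit 0) (nat_lit 17)
  (node (nat_lit 4) (nat_lit 60916) (nat_lit 18) (node (nat_lit 6) (nat_lit 60748) (nat_lit 19)
  nil nil) (node (nat_lit 6) (nat_lit 60916) (nat_lit 18) (node (nat_lit 5) (nat_lit 61098)
  (nat_lit 19) (node (nat_lit 4) (nat_lit 61198) (nat_lit 20) (node (nat_lit 5) (nat_lit 61198)
  (nat_lit 21) nil nil) nil) nil) (node (nat_lit 0) (nat_lit 61198) (nat_lit 18) nil nil))) (node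
  (nat_lit 0) (nat_lit 61198) (nat_lit 17) nil nil))) (node (nat_lit 0) (nat_lit 61098) (nat_lit
  16) nil nil)) (node (nat_lit 0) (nat_lit 60916) (nat_lit 15) nil nil)) (node (nat_lit 4)
  (nat_lit 0) (nat_lit 14) (node (nat_lit 5) (nat_lit 0) (nat_lit 15) (node (nat_lit 4) (nat_lit
  60382) (nat_lit 16) (node (nat_lit 6) (nat_lit 60682) (nat_lit 17) (node (nat_lit 5) (nat_lit
  60916) (nat_lit 18) (node (nat_lit 4) (nat_lit 61098) (nat_lit 19) (node (nat_lit 5) (nat_lit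
  61198) (nat_lit 20) (node (nat_lit 6) (nat_lit 61198) (nat_lit 21) (node (nat_lit 4) (nat_lit
  61198) (nat_lit 22) (node (nat_lit 5) (nat_lit 61198) (nat_lit 23) (node (nat_lit 4) (nat_lit
  61198) (nat_lit 24) (node (nat_lit 6) (nat_lit 60186) (nat_lit 25) (node (nat_lit 4) (nat_lit
  58698) (nat_lit 26) (node (nat_lit 5) (nat_lit 55064) (nat_lit 27) (node (nat_lit 6) (nat_lit
  53416) (nat_lit 28) (node (nat_lit 5) (nat_lit 48760) (nat_lit 29) (node (nat_lit 4) (nat_lit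
  43905) (nat_lit 30) (node (nat_lit 6) (nat_lit 43932) (nat_lit 31) nil nil) nil) nil) nil) nil)
  nil) nil) nil) nil) nil) nil) nil) (node (nat_lit 6) (nat_lit 61098) (nat_lit 19) nil nil)) nil)
  nil) (node (nat_lit 0) (nat_lit 61098) (nat_lit 16) nil nil)) (node (nat_lit 0) (nat_lit 60916)
  (nat_lit 15) nil nil)) (node (nat_lit 0) (nat_lit 60682) (nat_lit 14) (node (nat_lit 4) (nat_lit
  60682) (nat_lit 15) (node (nat_lit 6) (nat_lit 60682) (nat_lit 16) nil nil) (node (nat_lit 6)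
  (nat_lit 60682) (nat_lit 15) (node (nat_lit 4) (nat_lit 60682) (nat_lit 16) nil (node (nat_lit
  5) (nat_lit 60682) (nat_lit 16) nil nil)) (node (nat_lit 5) (nat_lit 60682) (nat_lit 15) nil
  nil))) nil))) (node (nat_lit 5) (nat_lit 0) (nat_lit 13) (node (nat_lit 6) (nat_lit 0) (nat_lit
  14) (node (nat_lit 4) (nat_lit 0) (nat_lit 15) (node (nat_lit 6) (nat_lit 0) (nat_lit 16) (node
  (nat_lit 5) (nat_lit 57271) (nat_lit 17) (node (nat_lit 6) (nat_lit 57689) (nat_lit 18) (node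
  (nat_lit 4) (nat_lit 57871) (nat_lit 19) nil nil) (node (nat_lit 4) (nat_lit 57496) (nat_lit 18)
  (node (nat_lit 5) (nat_lit 57553) (nat_lit 19) nil nil) nil)) (node (nat_lit 0) (nat_lit 57615)
  (nat_lit 17) nil nil)) (node (nat_lit 5) (nat_lit 0) (nat_lit 16) (node (nat_lit 4) (nat_lit 0)
  (nat_lit 17) (node (nat_lit 6) (nat_lit 39731) (nat_lit 18) (node (nat_lit 5) (nat_lit 40057)
  (nat_lit 19) (node (nat_lit 6) (nat_lit 40312) (nat_lit 20) nil nil) (node (nat_lit 4) (nat_lit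
  40057) (nat_lit 19) nil nil)) (node (nat_lit 0) (nat_lit 39981) (nat_lit 18) nil nil)) (node
  (nat_lit 0) (nat_lit 40200) (nat_lit 17) nil nil)) (node (nat_lit 0) (nat_lit 56581) (nat_lit
  16) nil nil))) (node (nat_lit 0) (nat_lit 59659) (nat_lit 15) nil nil)) (node (nat_lit 0)
  (nat_lit 60682) (nat_lit 14) (node (nat_lit 4) (nat_lit 60682) (nat_lit 15) nil (node (nat_lit
  5) (nat_lit 60682) (nat_lit 15) nil nil)) nil)) (node (nat_lit 0) (nat_lit 60323) (nat_lit 13)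
  (node (nat_lit 4) (nat_lit 60382) (nat_lit 14) (node (nat_lit 5) (nat_lit 60382) (nat_lit 15)
  nil (node (nat_lit 6) (nat_lit 60382) (nat_lit 15) nil nil)) (node (nat_lit 5) (nat_lit 60190)
  (nat_lit 14) (node (nat_lit 4) (nat_lit 60249) (nat_lit 15) (node (nat_lit 5) (nat_lit 60249)
  (nat_lit 16) nil nil) (node (nat_lit 6) (nat_lit 60190) (nat_lit 15) nil nil)) (node (nat_lit 6)
  (nat_lit 60323) (nat_lit 14) (node (nat_lit 4) (nat_lit 60323) (nat_lit 15) nil (node (nat_lit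
  5) (nat_lit 60323) (nat_lit 15) nil nil)) nil))) nil))) (node (nat_lit 0) (nat_lit 58146)
  (nat_lit 12) (node (nat_lit 6) (nat_lit 58385) (nat_lit 13) (node (nat_lit 5) (nat_lit 58385)
  (nat_lit 14) nil (node (nat_lit 4) (nat_lit 58385) (nat_lit 14) nil nil)) (node (nat_lit 5)
  (nat_lit 58036) (nat_lit 13) (node (nat_lit 6) (nat_lit 58700) (nat_lit 14) (node (nat_lit 4)
  (nat_lit 58700) (nat_lit 15) nil nil) (node (nat_lit 4) (nat_lit 58705) (nat_lit 14) (node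
  (nat_lit 5) (nat_lit 58705) (nat_lit 15) nil (node (nat_lit 6) (nat_lit 58705) (nat_lit 15) nil
  nil)) nil)) (node (nat_lit 4) (nat_lit 58379) (nat_lit 13) (node (nat_lit 5) (nat_lit 58379)
  (nat_lit 14) nil (node (nat_lit 6) (nat_lit 58379) (nat_lit 14) nil nil)) nil))) nil)) (node
  (nat_lit 4) (nat_lit 0) (nat_lit 11) (node (nat_lit 6) (nat_lit 0) (nat_lit 12) (node (nat_lit
  5) (nat_lit 0) (nat_lit 13) (node (nat_lit 4) (nat_lit 0) (nat_lit 14) (node (nat_lit 5)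
  (nat_lit 0) (nat_lit 15) (node (nat_lit 6) (nat_lit 60382) (nat_lit 16) (node (nat_lit 5)
  (nat_lit 60682) (nat_lit 17) (node (nat_lit 4) (nat_lit 60916) (nat_lit 18) (node (nat_lit 6)
  (nat_lit 61098) (nat_lit 19) nil nil) nil) (node (nat_lit 4) (nat_lit 56095) (nat_lit 17) (node
  (nat_lit 5) (nat_lit 56412) (nat_lit 18) (node (nat_lit 4) (nat_lit 49638) (nat_lit 19) (node
  (nat_lit 6) (nat_lit 44242) (nat_lit 20) (node (nat_lit 4) (nat_lit 34238) (nat_lit 21) (node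
  (nat_lit 5) (nat_lit 22720) (nat_lit 22) (node (nat_lit 6) (nat_lit 22854) (nat_lit 23) nil nil)
  nil) (node (nat_lit 5) (nat_lit 44402) (nat_lit 21) (node (nat_lit 6) (nat_lit 44489) (nat_lit
  22) nil nil) nil)) nil) nil) nil) nil)) (node (nat_lit 0) (nat_lit 61098) (nat_lit 16) nil nil))
  (node (nat_lit 6) (nat_lit 59998) (nat_lit 15) (node (nat_lit 4) (nat_lit 60382) (nat_lit 16)
  (node (nat_lit 5) (nat_lit 60682) (nat_lit 17) (node (nat_lit 4) (nat_lit 60916) (nat_lit 18)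
  nil (node (nat_lit 6) (nat_lit 60465) (nat_lit 18) nil nil)) nil) nil) (node (nat_lit 0)
  (nat_lit 60916) (nat_lit 15) nil nil))) (node (nat_lit 6) (nat_lit 0) (nat_lit 14) (node
  (nat_lit 4) (nat_lit 0) (nat_lit 15) (node (nat_lit 5) (nat_lit 0) (nat_lit 16) (node (nat_lit
  6) (nat_lit 0) (nat_lit 17) (node (nat_lit 5) (nat_lit 60916) (nat_lit 18) (node (nat_lit 4)
  (nat_lit 61098) (nat_lit 19) (node (nat_lit 5) (nat_lit 61198) (nat_lit 20) (node (nat_lit 6)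
  (nat_lit 61198) (nat_lit 21) (node (nat_lit 4) (nat_lit 61198) (nat_lit 22) (node (nat_lit 5)
  (nat_lit 61198) (nat_lit 23) (node (nat_lit 4) (nat_lit 60342) (nat_lit 24) (node (nat_lit 6)
  (nat_lit 59014) (nat_lit 25) (node (nat_lit 4) (nat_lit 57065) (nat_lit 26) (node (nat_lit 5)
  (nat_lit 54255) (nat_lit 27) (node (nat_lit 6) (nat_lit 49386) (nat_lit 28) (node (nat_lit 4)
  (nat_lit 40964) (nat_lit 29) (node (nat_lit 6) (nat_lit 40989) (nat_lit 30) (node (nat_lit 5)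
  (nat_lit 40998) (nat_lit 31) nil nil) nil) nil) nil) nil) nil) nil) nil) nil) nil) nil) (node
  (nat_lit 6) (nat_lit 61198) (nat_lit 20) nil nil)) nil) (node (nat_lit 0) (nat_lit 61198)
  (nat_lit 18) nil nil)) (node (nat_lit 4) (nat_lit 0) (nat_lit 17) (node (nat_lit 6) (nat_lit 0)
  (nat_lit 18) (node (nat_lit 5) (nat_lit 0) (nat_lit 19) (node (nat_lit 4) (nat_lit 61198)
  (nat_lit 20) (node (nat_lit 5) (nat_lit 61198) (nat_lit 21) (node (nat_lit 6) (nat_lit 61198)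
  (nat_lit 22) (node (nat_lit 4) (nat_lit 61198) (nat_lit 23) (node (nat_lit 6) (nat_lit 61198)
  (nat_lit 24) nil nil) (node (nat_lit 5) (nat_lit 61198) (nat_lit 23) nil nil)) nil) nil) (node
  (nat_lit 6) (nat_lit 61198) (nat_lit 20) (node (nat_lit 4) (nat_lit 61198) (nat_lit 21) nil nil)
  (node (nat_lit 0) (nat_lit 61198) (nat_lit 20) nil nil))) (node (nat_lit 4) (nat_lit 61098)
  (nat_lit 19) nil (node (nat_lit 0) (nat_lit 61198) (nat_lit 19) nil nil))) (node (nat_lit 0)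
  (nat_lit 61198) (nat_lit 18) nil nil)) (node (nat_lit 0) (nat_lit 61198) (nat_lit 17) nil nil)))
  (node (nat_lit 0) (nat_lit 60950) (nat_lit 16) nil nil)) (node (nat_lit 0) (nat_lit 60905)
  (nat_lit 15) nil nil)) (node (nat_lit 0) (nat_lit 60682) (nat_lit 14) (node (nat_lit 5) (nat_lit
  60682) (nat_lit 15) nil (node (nat_lit 6) (nat_lit 60682) (nat_lit 15) nil (node (nat_lit 4)
  (nat_lit 60682) (nat_lit 15) nil nil))) nil))) (node (nat_lit 0) (nat_lit 60381) (nat_lit 13)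
  (node (nat_lit 4) (nat_lit 60382) (nat_lit 14) (node (nat_lit 6) (nat_lit 60382) (nat_lit 15)
  (node (nat_lit 5) (nat_lit 60382) (nat_lit 16) nil (node (nat_lit 4) (nat_lit 60382) (nat_lit
  16) nil nil)) (node (nat_lit 5) (nat_lit 60382) (nat_lit 15) nil nil)) (node (nat_lit 5)
  (nat_lit 60376) (nat_lit 14) (node (nat_lit 6) (nat_lit 60376) (nat_lit 15) nil (node (nat_lit
  4) (nat_lit 60376) (nat_lit 15) nil nil)) (node (nat_lit 6) (nat_lit 60248) (nat_lit 14) (node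
  (nat_lit 4) (nat_lit 60248) (nat_lit 15) (node (nat_lit 5) (nat_lit 60248) (nat_lit 16) nil nil)
  (node (nat_lit 5) (nat_lit 60248) (nat_lit 15) nil nil)) nil))) nil)) (node (nat_lit 0) (nat_lit
  58146) (nat_lit 12) (node (nat_lit 6) (nat_lit 58793) (nat_lit 13) (node (nat_lit 4) (nat_lit
  59053) (nat_lit 14) (node (nat_lit 5) (nat_lit 58758) (nat_lit 15) (node (nat_lit 4) (nat_lit
  59142) (nat_lit 16) nil nil) (node (nat_lit 6) (nat_lit 59442) (nat_lit 15) (node (nat_lit 5)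
  (nat_lit 59826) (nat_lit 16) nil nil) nil)) (node (nat_lit 5) (nat_lit 59187) (nat_lit 14) (node
  (nat_lit 6) (nat_lit 59187) (nat_lit 15) nil (node (nat_lit 4) (nat_lit 59187) (nat_lit 15) nil
  nil)) nil)) (node (nat_lit 4) (nat_lit 58379) (nat_lit 13) (node (nat_lit 6) (nat_lit 59095)
  (nat_lit 14) (node (nat_lit 5) (nat_lit 59894) (nat_lit 15) (node (nat_lit 4) (nat_lit 60278)
  (nat_lit 16) nil nil) (node (nat_lit 4) (nat_lit 59095) (nat_lit 15) nil nil)) (node (nat_lit 5)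
  (nat_lit 59020) (nat_lit 14) (node (nat_lit 6) (nat_lit 59409) (nat_lit 15) nil (node (nat_lit
  4) (nat_lit 59020) (nat_lit 15) nil nil)) nil)) (node (nat_lit 5) (nat_lit 58443) (nat_lit 13)
  (node (nat_lit 4) (nat_lit 59025) (nat_lit 14) (node (nat_lit 5) (nat_lit 58731) (nat_lit 15)
  (node (nat_lit 6) (nat_lit 58346) (nat_lit 16) nil nil) (node (nat_lit 6) (nat_lit 59025)
  (nat_lit 15) nil nil)) (node (nat_lit 6) (nat_lit 58975) (nat_lit 14) (node (nat_lit 4) (nat_lit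
  58975) (nat_lit 15) nil (node (nat_lit 5) (nat_lit 58975) (nat_lit 15) nil nil)) nil)) (node
  (nat_lit 0) (nat_lit 58918) (nat_lit 13) nil nil)))) nil)) (node (nat_lit 0) (nat_lit 0)
  (nat_lit 11) (node (nat_lit 6) (nat_lit 56551) (nat_lit 12) (node (nat_lit 4) (nat_lit 57460)
  (nat_lit 13) (node (nat_lit 5) (nat_lit 58600) (nat_lit 14) (node (nat_lit 4) (nat_lit 59092)
  (nat_lit 15) nil (node (nat_lit 6) (nat_lit 58087) (nat_lit 15) nil nil)) (node (nat_lit 6)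
  (nat_lit 58486) (nat_lit 14) nil nil)) (node (nat_lit 5) (nat_lit 57523) (nat_lit 13) (node
  (nat_lit 4) (nat_lit 58098) (nat_lit 14) nil (node (nat_lit 6) (nat_lit 58016) (nat_lit 14) nil
  nil)) nil)) (node (nat_lit 5) (nat_lit 56696) (nat_lit 12) (node (nat_lit 6) (nat_lit 57508)
  (nat_lit 13) (node (nat_lit 4) (nat_lit 57110) (nat_lit 14) (node (nat_lit 6) (nat_lit 56597)
  (nat_lit 15) nil (node (nat_lit 5) (nat_lit 57602) (nat_lit 15) nil nil)) (node (nat_lit 5)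
  (nat_lit 58533) (nat_lit 14) (node (nat_lit 4) (nat_lit 59414) (nat_lit 15) nil nil) nil)) (node
  (nat_lit 4) (nat_lit 58018) (nat_lit 13) (node (nat_lit 5) (nat_lit 58333) (nat_lit 14) (node
  (nat_lit 6) (nat_lit 57821) (nat_lit 15) nil nil) (node (nat_lit 6) (nat_lit 58517) (nat_lit 14)
  (node (nat_lit 4) (nat_lit 59009) (nat_lit 15) nil nil) nil)) (node (nat_lit 14) (nat_lit 57572)
  (nat_lit 13) nil nil))) (node (nat_lit 4) (nat_lit 56551) (nat_lit 12) (node (nat_lit 6)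
  (nat_lit 57465) (nat_lit 13) (node (nat_lit 4) (nat_lit 58041) (nat_lit 14) (node (nat_lit 5)
  (nat_lit 58238) (nat_lit 15) nil nil) (node (nat_lit 5) (nat_lit 57964) (nat_lit 14) nil nil))
  (node (nat_lit 5) (nat_lit 57523) (nat_lit 13) (node (nat_lit 4) (nat_lit 57975) (nat_lit 14)
  (node (nat_lit 6) (nat_lit 57462) (nat_lit 15) nil nil) (node (nat_lit 6) (nat_lit 58016)
  (nat_lit 14) (node (nat_lit 4) (nat_lit 58214) (nat_lit 15) nil (node (nat_lit 5) (nat_lit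
  58508) (nat_lit 15) nil nil)) nil)) (node (nat_lit 14) (nat_lit 58315) (nat_lit 13) nil nil)))
  (node (nat_lit 0) (nat_lit 58216) (nat_lit 12) nil nil)))) nil))) (node (nat_lit 0) (nat_lit
  51878) (nat_lit 10) (node (nat_lit 6) (nat_lit 53147) (nat_lit 11) (node (nat_lit 4) (nat_lit
  54843) (nat_lit 12) (node (nat_lit 5) (nat_lit 54530) (nat_lit 13) (node (nat_lit 6) (nat_lit
  54365) (nat_lit 14) nil (node (nat_lit 4) (nat_lit 55160) (nat_lit 14) nil nil)) (node (nat_lit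
  6) (nat_lit 56156) (nat_lit 13) (node (nat_lit 5) (nat_lit 56786) (nat_lit 14) nil nil) nil))
  (node (nat_lit 5) (nat_lit 55010) (nat_lit 12) (node (nat_lit 4) (nat_lit 55738) (nat_lit 13)
  (node (nat_lit 5) (nat_lit 56368) (nat_lit 14) nil (node (nat_lit 6) (nat_lit 56368) (nat_lit
  14) nil nil)) (node (nat_lit 6) (nat_lit 56042) (nat_lit 13) (node (nat_lit 4) (nat_lit 56351)
  (nat_lit 14) (node (nat_lit 5) (nat_lit 56843) (nat_lit 15) nil nil) nil) nil)) (node (nat_lit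
  13) (nat_lit 56946) (nat_lit 12) nil nil))) (node (nat_lit 4) (nat_lit 53310) (nat_lit 11) (node
  (nat_lit 6) (nat_lit 55006) (nat_lit 12) (node (nat_lit 5) (nat_lit 56319) (nat_lit 13) (node
  (nat_lit 4) (nat_lit 56949) (nat_lit 14) nil (node (nat_lit 6) (nat_lit 56949) (nat_lit 14) nil
  nil)) (node (nat_lit 4) (nat_lit 55734) (nat_lit 13) (node (nat_lit 5) (nat_lit 56546) (nat_lit
  14) nil nil) nil)) (node (nat_lit 5) (nat_lit 55259) (nat_lit 12) (node (nat_lit 6) (nat_lit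
  55881) (nat_lit 13) (node (nat_lit 4) (nat_lit 56511) (nat_lit 14) nil nil) (node (nat_lit 4)
  (nat_lit 55812) (nat_lit 13) (node (nat_lit 6) (nat_lit 57545) (nat_lit 14) (node (nat_lit 5)
  (nat_lit 58361) (nat_lit 15) nil nil) nil) nil)) (node (nat_lit 13) (nat_lit 57109) (nat_lit 12)
  nil nil))) (node (nat_lit 5) (nat_lit 53128) (nat_lit 11) (node (nat_lit 4) (nat_lit 54927)
  (nat_lit 12) (node (nat_lit 6) (nat_lit 56240) (nat_lit 13) nil (node (nat_lit 5) (nat_lit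
  56537) (nat_lit 13) nil nil)) (node (nat_lit 6) (nat_lit 55112) (nat_lit 12) (node (nat_lit 4)
  (nat_lit 55945) (nat_lit 13) (node (nat_lit 6) (nat_lit 55781) (nat_lit 14) nil (node (nat_lit
  5) (nat_lit 56173) (nat_lit 14) nil nil)) (node (nat_lit 5) (nat_lit 56425) (nat_lit 13) nil
  nil)) (node (nat_lit 0) (nat_lit 56927) (nat_lit 12) nil nil))) (node (nat_lit 0) (nat_lit
  55074) (nat_lit 11) (node (nat_lit 13) (nat_lit 55566) (nat_lit 12) nil nil) nil)))) nil)) (node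
  (nat_lit 0) (nat_lit 0) (nat_lit 9) (node (nat_lit 5) (nat_lit 49157) (nat_lit 10) (node
  (nat_lit 4) (nat_lit 51612) (nat_lit 11) (node (nat_lit 6) (nat_lit 53601) (nat_lit 12) (node
  (nat_lit 4) (nat_lit 55137) (nat_lit 13) (node (nat_lit 5) (nat_lit 55370) (nat_lit 14) (node
  (nat_lit 6) (nat_lit 54857) (nat_lit 15) nil nil) nil) (node (nat_lit 5) (nat_lit 55048)
  (nat_lit 13) (node (nat_lit 6) (nat_lit 55678) (nat_lit 14) nil nil) nil)) (node (nat_lit 5)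
  (nat_lit 53810) (nat_lit 12) (node (nat_lit 6) (nat_lit 55957) (nat_lit 13) nil nil) nil)) (node
  (nat_lit 6) (nat_lit 51636) (nat_lit 11) (node (nat_lit 4) (nat_lit 53541) (nat_lit 12) (node
  (nat_lit 6) (nat_lit 55045) (nat_lit 13) (node (nat_lit 5) (nat_lit 54737) (nat_lit 14) (node
  (nat_lit 4) (nat_lit 55212) (nat_lit 15) (node (nat_lit 5) (nat_lit 54881) (nat_lit 16) nil nil)
  nil) nil) (node (nat_lit 5) (nat_lit 54036) (nat_lit 13) (node (nat_lit 4) (nat_lit 54666)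
  (nat_lit 14) nil nil) nil)) (node (nat_lit 5) (nat_lit 53625) (nat_lit 12) nil nil)) (node
  (nat_lit 12) (nat_lit 55088) (nat_lit 11) nil nil))) (node (nat_lit 6) (nat_lit 48568) (nat_lit
  10) (node (nat_lit 5) (nat_lit 51242) (nat_lit 11) (node (nat_lit 4) (nat_lit 52988) (nat_lit
  12) (node (nat_lit 6) (nat_lit 55109) (nat_lit 13) (node (nat_lit 4) (nat_lit 55740) (nat_lit
  14) nil nil) (node (nat_lit 5) (nat_lit 54945) (nat_lit 13) (node (nat_lit 6) (nat_lit 56130)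
  (nat_lit 14) (node (nat_lit 4) (nat_lit 56622) (nat_lit 15) nil nil) nil) nil)) (node (nat_lit
  6) (nat_lit 53577) (nat_lit 12) nil nil)) (node (nat_lit 4) (nat_lit 50984) (nat_lit 11) (node
  (nat_lit 5) (nat_lit 53774) (nat_lit 12) (node (nat_lit 4) (nat_lit 55136) (nat_lit 13) (node
  (nat_lit 6) (nat_lit 56990) (nat_lit 14) (node (nat_lit 5) (nat_lit 58041) (nat_lit 15) nil nil)
  nil) (node (nat_lit 6) (nat_lit 54386) (nat_lit 13) nil nil)) (node (nat_lit 6) (nat_lit 53499)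
  (nat_lit 12) nil nil)) (node (nat_lit 12) (nat_lit 54500) (nat_lit 11) nil nil))) (node (nat_lit
  4) (nat_lit 48487) (nat_lit 10) (node (nat_lit 6) (nat_lit 50711) (nat_lit 11) (node (nat_lit 5)
  (nat_lit 53914) (nat_lit 12) (node (nat_lit 4) (nat_lit 55362) (nat_lit 13) (node (nat_lit 5)
  (nat_lit 55992) (nat_lit 14) nil nil) (node (nat_lit 6) (nat_lit 55362) (nat_lit 13) (node
  (nat_lit 4) (nat_lit 55992) (nat_lit 14) nil nil) nil)) (node (nat_lit 4) (nat_lit 52692)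
  (nat_lit 12) nil nil)) (node (nat_lit 5) (nat_lit 51343) (nat_lit 11) (node (nat_lit 6) (nat_lit
  54010) (nat_lit 12) (node (nat_lit 5) (nat_lit 55457) (nat_lit 13) (node (nat_lit 4) (nat_lit
  56087) (nat_lit 14) nil nil) (node (nat_lit 4) (nat_lit 54958) (nat_lit 13) (node (nat_lit 6)
  (nat_lit 54294) (nat_lit 14) nil nil) nil)) (node (nat_lit 4) (nat_lit 53858) (nat_lit 12) nil
  nil)) nil)) (node (nat_lit 0) (nat_lit 51193) (nat_lit 10) nil nil)))) nil))

noncomputable def t282 : Tr :=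
  (node (nat_lit 6) (nat_lit 0) (nat_lit 11) (node (nat_lit 4) (nat_lit 0) (nat_lit 12) (node
  (nat_lit 6) (nat_lit 0) (nat_lit 13) (node (nat_lit 5) (nat_lit 0) (nat_lit 14) (node (nat_lit
  6) (nat_lit 0) (nat_lit 15) (node (nat_lit 4) (nat_lit 0) (nat_lit 16) (node (nat_lit 5)
  (nat_lit 0) (nat_lit 17) (node (nat_lit 4) (nat_lit 0) (nat_lit 18) (node (nat_lit 6) (nat_lit
  0) (nat_lit 19) (node (nat_lit 5) (nat_lit 34300) (nat_lit 20) (node (nat_lit 6) (nat_lit 34412)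
  (nat_lit 21) nil (node (nat_lit 4) (nat_lit 34545) (nat_lit 21) (node (nat_lit 5) (nat_lit
  34759) (nat_lit 22) (node (nat_lit 6) (nat_lit 34943) (nat_lit 23) (node (nat_lit 4) (nat_lit
  33540) (nat_lit 24) nil nil) nil) nil) nil)) (node (nat_lit 4) (nat_lit 34029) (nat_lit 20)
  (node (nat_lit 5) (nat_lit 34141) (nat_lit 21) (node (nat_lit 6) (nat_lit 34060) (nat_lit 22)
  nil nil) nil) (node (nat_lit 0) (nat_lit 34294) (nat_lit 20) nil nil))) (node (nat_lit 0)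
  (nat_lit 34262) (nat_lit 19) nil nil)) (node (nat_lit 6) (nat_lit 33394) (nat_lit 18) (node
  (nat_lit 5) (nat_lit 33927) (nat_lit 19) (node (nat_lit 4) (nat_lit 34343) (nat_lit 20) (node
  (nat_lit 6) (nat_lit 34543) (nat_lit 21) nil (node (nat_lit 5) (nat_lit 34669) (nat_lit 21)
  (node (nat_lit 6) (nat_lit 34721) (nat_lit 22) nil nil) nil)) nil) nil) (node (nat_lit 0)
  (nat_lit 33316) (nat_lit 18) nil nil))) (node (nat_lit 0) (nat_lit 33111) (nat_lit 17) nil nil))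
  (node (nat_lit 0) (nat_lit 32854) (nat_lit 16) nil nil)) (node (nat_lit 4) (nat_lit 0) (nat_lit
  15) (node (nat_lit 5) (nat_lit 0) (nat_lit 16) (node (nat_lit 6) (nat_lit 0) (nat_lit 17) (node
  (nat_lit 4) (nat_lit 33274) (nat_lit 18) (node (nat_lit 5) (nat_lit 33825) (nat_lit 19) (node
  (nat_lit 4) (nat_lit 34199) (nat_lit 20) (node (nat_lit 6) (nat_lit 34505) (nat_lit 21) nil nil)
  nil) (node (nat_lit 6) (nat_lit 33804) (nat_lit 19) nil nil)) (node (nat_lit 5) (nat_lit 33329)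
  (nat_lit 18) (node (nat_lit 4) (nat_lit 33861) (nat_lit 19) (node (nat_lit 6) (nat_lit 34235)
  (nat_lit 20) (node (nat_lit 4) (nat_lit 34435) (nat_lit 21) (node (nat_lit 5) (nat_lit 34522)
  (nat_lit 22) (node (nat_lit 6) (nat_lit 34458) (nat_lit 23) nil nil) nil) nil) nil) nil) (node
  (nat_lit 0) (nat_lit 33758) (nat_lit 18) nil nil))) (node (nat_lit 0) (nat_lit 33557) (nat_lit
  17) nil nil)) (node (nat_lit 0) (nat_lit 32965) (nat_lit 16) (node (nat_lit 4) (nat_lit 32965)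
  (nat_lit 17) nil (node (nat_lit 5) (nat_lit 32965) (nat_lit 17) nil nil)) nil)) (node (nat_lit
  0) (nat_lit 32237) (nat_lit 15) (node (nat_lit 6) (nat_lit 32237) (nat_lit 16) nil (node
  (nat_lit 5) (nat_lit 32237) (nat_lit 16) nil (node (nat_lit 4) (nat_lit 32237) (nat_lit 16) nil
  nil))) nil))) (node (nat_lit 0) (nat_lit 31160) (nat_lit 14) (node (nat_lit 4) (nat_lit 31191)
  (nat_lit 15) (node (nat_lit 6) (nat_lit 31540) (nat_lit 16) (node (nat_lit 5) (nat_lit 32027)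
  (nat_lit 17) (node (nat_lit 4) (nat_lit 32262) (nat_lit 18) nil nil) (node (nat_lit 4) (nat_lit
  31814) (nat_lit 17) (node (nat_lit 5) (nat_lit 32048) (nat_lit 18) nil nil) nil)) (node (nat_lit
  5) (nat_lit 31191) (nat_lit 16) nil nil)) (node (nat_lit 6) (nat_lit 31194) (nat_lit 15) (node
  (nat_lit 5) (nat_lit 31516) (nat_lit 16) (node (nat_lit 4) (nat_lit 31753) (nat_lit 17) nil nil)
  (node (nat_lit 4) (nat_lit 31604) (nat_lit 16) nil nil)) (node (nat_lit 5) (nat_lit 31194)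
  (nat_lit 15) (node (nat_lit 6) (nat_lit 31194) (nat_lit 16) nil (node (nat_lit 4) (nat_lit
  31194) (nat_lit 16) nil nil)) nil))) nil)) (node (nat_lit 0) (nat_lit 39557) (nat_lit 13) (node
  (nat_lit 4) (nat_lit 40019) (nat_lit 14) (node (nat_lit 5) (nat_lit 41060) (nat_lit 15) (node
  (nat_lit 6) (nat_lit 42135) (nat_lit 16) (node (nat_lit 4) (nat_lit 42638) (nat_lit 17) nil
  (node (nat_lit 5) (nat_lit 42809) (nat_lit 17) nil nil)) (node (nat_lit 4) (nat_lit 41073)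
  (nat_lit 16) nil nil)) (node (nat_lit 6) (nat_lit 40790) (nat_lit 15) (node (nat_lit 5) (nat_lit
  41921) (nat_lit 16) (node (nat_lit 4) (nat_lit 42140) (nat_lit 17) nil nil) (node (nat_lit 4)
  (nat_lit 41328) (nat_lit 16) nil nil)) (node (nat_lit 0) (nat_lit 41221) (nat_lit 15) nil nil)))
  (node (nat_lit 5) (nat_lit 40209) (nat_lit 14) (node (nat_lit 6) (nat_lit 40790) (nat_lit 15)
  (node (nat_lit 4) (nat_lit 40801) (nat_lit 16) (node (nat_lit 5) (nat_lit 41476) (nat_lit 17)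
  nil nil) (node (nat_lit 5) (nat_lit 40876) (nat_lit 16) nil nil)) (node (nat_lit 4) (nat_lit
  40507) (nat_lit 15) (node (nat_lit 5) (nat_lit 40519) (nat_lit 16) (node (nat_lit 6) (nat_lit
  40607) (nat_lit 17) nil nil) nil) nil)) (node (nat_lit 6) (nat_lit 40164) (nat_lit 14) (node
  (nat_lit 4) (nat_lit 41254) (nat_lit 15) (node (nat_lit 5) (nat_lit 40927) (nat_lit 16) nil
  (node (nat_lit 6) (nat_lit 41793) (nat_lit 16) (node (nat_lit 5) (nat_lit 42467) (nat_lit 17)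
  nil nil) nil)) (node (nat_lit 5) (nat_lit 40812) (nat_lit 15) (node (nat_lit 4) (nat_lit 40812)
  (nat_lit 16) nil (node (nat_lit 6) (nat_lit 40812) (nat_lit 16) nil nil)) nil)) (node (nat_lit
  0) (nat_lit 40770) (nat_lit 14) nil nil)))) nil)) (node (nat_lit 5) (nat_lit 0) (nat_lit 12)
  (node (nat_lit 4) (nat_lit 0) (nat_lit 13) (node (nat_lit 5) (nat_lit 0) (nat_lit 14) (node
  (nat_lit 6) (nat_lit 0) (nat_lit 15) (node (nat_lit 4) (nat_lit 0) (nat_lit 16) (node (nat_lit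
  5) (nat_lit 67525) (nat_lit 17) (node (nat_lit 4) (nat_lit 68240) (nat_lit 18) (node (nat_lit 6)
  (nat_lit 68552) (nat_lit 19) nil nil) nil) (node (nat_lit 6) (nat_lit 0) (nat_lit 17) (node
  (nat_lit 5) (nat_lit 0) (nat_lit 18) (node (nat_lit 4) (nat_lit 50461) (nat_lit 19) (node
  (nat_lit 6) (nat_lit 50427) (nat_lit 20) (node (nat_lit 4) (nat_lit 50668) (nat_lit 21) (node
  (nat_lit 5) (nat_lit 39461) (nat_lit 22) (node (nat_lit 6) (nat_lit 39128) (nat_lit 23) nil nil)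
  nil) nil) (node (nat_lit 5) (nat_lit 51002) (nat_lit 20) nil nil)) (node (nat_lit 6) (nat_lit
  50963) (nat_lit 19) (node (nat_lit 4) (nat_lit 51517) (nat_lit 20) (node (nat_lit 5) (nat_lit
  51813) (nat_lit 21) (node (nat_lit 4) (nat_lit 51811) (nat_lit 22) nil nil) nil) nil) (node
  (nat_lit 0) (nat_lit 51249) (nat_lit 19) nil nil))) (node (nat_lit 0) (nat_lit 64445) (nat_lit
  18) nil nil)) (node (nat_lit 0) (nat_lit 68051) (nat_lit 17) nil nil))) (node (nat_lit 0)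
  (nat_lit 69138) (nat_lit 16) nil nil)) (node (nat_lit 0) (nat_lit 69803) (nat_lit 15) nil nil))
  (node (nat_lit 6) (nat_lit 0) (nat_lit 14) (node (nat_lit 5) (nat_lit 0) (nat_lit 15) (node
  (nat_lit 6) (nat_lit 0) (nat_lit 16) (node (nat_lit 4) (nat_lit 71354) (nat_lit 17) (node
  (nat_lit 6) (nat_lit 72607) (nat_lit 18) (node (nat_lit 5) (nat_lit 73600) (nat_lit 19) (node
  (nat_lit 4) (nat_lit 74176) (nat_lit 20) (node (nat_lit 6) (nat_lit 74576) (nat_lit 21) (node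
  (nat_lit 4) (nat_lit 74778) (nat_lit 22) (node (nat_lit 5) (nat_lit 74929) (nat_lit 23) (node
  (nat_lit 6) (nat_lit 74685) (nat_lit 24) (node (nat_lit 4) (nat_lit 74536) (nat_lit 25) nil nil)
  nil) nil) nil) (node (nat_lit 5) (nat_lit 74657) (nat_lit 21) (node (nat_lit 6) (nat_lit 75003)
  (nat_lit 22) (node (nat_lit 4) (nat_lit 75249) (nat_lit 23) nil nil) nil) nil)) nil) nil) (node
  (nat_lit 5) (nat_lit 71617) (nat_lit 18) nil nil)) (node (nat_lit 0) (nat_lit 72060) (nat_lit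
  17) nil nil)) (node (nat_lit 0) (nat_lit 70364) (nat_lit 16) nil nil)) (node (nat_lit 4)
  (nat_lit 0) (nat_lit 15) (node (nat_lit 0) (nat_lit 70177) (nat_lit 16) nil nil) (node (nat_lit
  0) (nat_lit 70575) (nat_lit 15) nil nil))) (node (nat_lit 0) (nat_lit 69504) (nat_lit 14) (node
  (nat_lit 5) (nat_lit 69504) (nat_lit 15) nil (node (nat_lit 4) (nat_lit 69504) (nat_lit 15) nil
  (node (nat_lit 6) (nat_lit 69504) (nat_lit 15) nil nil))) nil))) (node (nat_lit 0) (nat_lit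
  66983) (nat_lit 13) (node (nat_lit 5) (nat_lit 66983) (nat_lit 14) (node (nat_lit 6) (nat_lit
  66983) (nat_lit 15) nil nil) (node (nat_lit 6) (nat_lit 66983) (nat_lit 14) (node (nat_lit 5)
  (nat_lit 66983) (nat_lit 15) nil (node (nat_lit 4) (nat_lit 66983) (nat_lit 15) nil nil)) (node
  (nat_lit 4) (nat_lit 66983) (nat_lit 14) nil nil))) nil)) (node (nat_lit 0) (nat_lit 63906)
  (nat_lit 12) (node (nat_lit 5) (nat_lit 64599) (nat_lit 13) (node (nat_lit 6) (nat_lit 65130)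
  (nat_lit 14) (node (nat_lit 5) (nat_lit 65231) (nat_lit 15) (node (nat_lit 4) (nat_lit 65187)
  (nat_lit 16) nil nil) (node (nat_lit 4) (nat_lit 65133) (nat_lit 15) nil nil)) (node (nat_lit 4)
  (nat_lit 65522) (nat_lit 14) (node (nat_lit 5) (nat_lit 65527) (nat_lit 15) nil (node (nat_lit
  6) (nat_lit 65522) (nat_lit 15) nil nil)) nil)) (node (nat_lit 4) (nat_lit 64718) (nat_lit 13)
  (node (nat_lit 5) (nat_lit 65235) (nat_lit 14) (node (nat_lit 6) (nat_lit 65924) (nat_lit 15)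
  (node (nat_lit 4) (nat_lit 66789) (nat_lit 16) nil nil) (node (nat_lit 4) (nat_lit 65241)
  (nat_lit 15) nil nil)) (node (nat_lit 6) (nat_lit 65248) (nat_lit 14) (node (nat_lit 4) (nat_lit
  65936) (nat_lit 15) (node (nat_lit 5) (nat_lit 66800) (nat_lit 16) nil nil) (node (nat_lit 5)
  (nat_lit 65248) (nat_lit 15) nil nil)) nil)) (node (nat_lit 6) (nat_lit 64599) (nat_lit 13)
  (node (nat_lit 4) (nat_lit 64877) (nat_lit 14) (node (nat_lit 5) (nat_lit 64296) (nat_lit 15)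
  nil (node (nat_lit 6) (nat_lit 65566) (nat_lit 15) nil nil)) (node (nat_lit 5) (nat_lit 65431)
  (nat_lit 14) (node (nat_lit 4) (nat_lit 65431) (nat_lit 15) nil (node (nat_lit 6) (nat_lit
  65431) (nat_lit 15) nil nil)) nil)) (node (nat_lit 0) (nat_lit 64771) (nat_lit 13) nil nil))))
  nil))) (node (nat_lit 4) (nat_lit 0) (nat_lit 11) (node (nat_lit 6) (nat_lit 0) (nat_lit 12)
  (node (nat_lit 5) (nat_lit 0) (nat_lit 13) (node (nat_lit 6) (nat_lit 0) (nat_lit 14) (node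
  (nat_lit 4) (nat_lit 0) (nat_lit 15) (node (nat_lit 5) (nat_lit 74253) (nat_lit 16) (node
  (nat_lit 6) (nat_lit 75099) (nat_lit 17) (node (nat_lit 5) (nat_lit 75633) (nat_lit 18) (node
  (nat_lit 4) (nat_lit 75705) (nat_lit 19) (node (nat_lit 5) (nat_lit 76113) (nat_lit 20) (node
  (nat_lit 6) (nat_lit 75851) (nat_lit 21) (node (nat_lit 4) (nat_lit 75760) (nat_lit 22) (node
  (nat_lit 6) (nat_lit 75565) (nat_lit 23) (node (nat_lit 5) (nat_lit 75111) (nat_lit 24) (node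
  (nat_lit 4) (nat_lit 73334) (nat_lit 25) (node (nat_lit 6) (nat_lit 71885) (nat_lit 26) (node
  (nat_lit 4) (nat_lit 68265) (nat_lit 27) (node (nat_lit 5) (nat_lit 63716) (nat_lit 28) (node
  (nat_lit 4) (nat_lit 55296) (nat_lit 29) (node (nat_lit 6) (nat_lit 55327) (nat_lit 30) (node
  (nat_lit 5) (nat_lit 55348) (nat_lit 31) (node (nat_lit 6) (nat_lit 55365) (nat_lit 32) (node
  (nat_lit 4) (nat_lit 55385) (nat_lit 33) (node (nat_lit 5) (nat_lit 43809) (nat_lit 34) nil nil)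
  nil) nil) nil) nil) nil) nil) nil) nil) nil) nil) nil) nil) nil) nil) nil) nil) (node (nat_lit
  4) (nat_lit 74792) (nat_lit 17) (node (nat_lit 6) (nat_lit 74923) (nat_lit 18) (node (nat_lit 4)
  (nat_lit 75315) (nat_lit 19) (node (nat_lit 5) (nat_lit 75653) (nat_lit 20) (node (nat_lit 6)
  (nat_lit 75234) (nat_lit 21) (node (nat_lit 4) (nat_lit 75095) (nat_lit 22) (node (nat_lit 6)
  (nat_lit 74749) (nat_lit 23) (node (nat_lit 5) (nat_lit 74300) (nat_lit 24) (node (nat_lit 4)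
  (nat_lit 72574) (nat_lit 25) (node (nat_lit 6) (nat_lit 71117) (nat_lit 26) (node (nat_lit 4)
  (nat_lit 67484) (nat_lit 27) (node (nat_lit 5) (nat_lit 63615) (nat_lit 28) (node (nat_lit 4)
  (nat_lit 63566) (nat_lit 29) (node (nat_lit 6) (nat_lit 54761) (nat_lit 30) (node (nat_lit 5)
  (nat_lit 54783) (nat_lit 31) (node (nat_lit 6) (nat_lit 32153) (nat_lit 32) (node (nat_lit 4)
  (nat_lit 32159) (nat_lit 33) nil nil) nil) nil) nil) nil) nil) nil) nil) nil) nil) nil) nil)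
  nil) nil) nil) nil) nil)) (node (nat_lit 6) (nat_lit 0) (nat_lit 16) (node (nat_lit 5) (nat_lit
  0) (nat_lit 17) (node (nat_lit 4) (nat_lit 0) (nat_lit 18) (node (nat_lit 5) (nat_lit 0)
  (nat_lit 19) (node (nat_lit 6) (nat_lit 0) (nat_lit 20) (node (nat_lit 4) (nat_lit 79825)
  (nat_lit 21) (node (nat_lit 6) (nat_lit 80238) (nat_lit 22) (node (nat_lit 5) (nat_lit 80519)
  (nat_lit 23) (node (nat_lit 6) (nat_lit 80638) (nat_lit 24) nil nil) nil) (node (nat_lit 5)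
  (nat_lit 80039) (nat_lit 22) (node (nat_lit 4) (nat_lit 79997) (nat_lit 23) (node (nat_lit 6)
  (nat_lit 79971) (nat_lit 24) nil nil) nil) nil)) (node (nat_lit 5) (nat_lit 79573) (nat_lit 21)
  (node (nat_lit 4) (nat_lit 79889) (nat_lit 22) (node (nat_lit 6) (nat_lit 80175) (nat_lit 23)
  (node (nat_lit 4) (nat_lit 80339) (nat_lit 24) (node (nat_lit 5) (nat_lit 80441) (nat_lit 25)
  nil nil) nil) nil) nil) (node (nat_lit 0) (nat_lit 79974) (nat_lit 21) nil nil))) (node (nat_lit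
  0) (nat_lit 80060) (nat_lit 20) nil nil)) (node (nat_lit 6) (nat_lit 78350) (nat_lit 19) (node
  (nat_lit 4) (nat_lit 78972) (nat_lit 20) (node (nat_lit 5) (nat_lit 79384) (nat_lit 21) (node
  (nat_lit 6) (nat_lit 79550) (nat_lit 22) (node (nat_lit 4) (nat_lit 79818) (nat_lit 23) (node
  (nat_lit 6) (nat_lit 79926) (nat_lit 24) (node (nat_lit 5) (nat_lit 80038) (nat_lit 25) nil nil)
  nil) nil) nil) nil) nil) (node (nat_lit 0) (nat_lit 79194) (nat_lit 19) nil nil))) (node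
  (nat_lit 0) (nat_lit 77486) (nat_lit 18) nil nil)) (node (nat_lit 0) (nat_lit 77577) (nat_lit
  17) nil nil)) (node (nat_lit 0) (nat_lit 74286) (nat_lit 16) nil nil))) (node (nat_lit 0)
  (nat_lit 71946) (nat_lit 15) nil nil)) (node (nat_lit 4) (nat_lit 0) (nat_lit 14) (node (nat_lit
  5) (nat_lit 0) (nat_lit 15) (node (nat_lit 6) (nat_lit 72636) (nat_lit 16) (node (nat_lit 4)
  (nat_lit 74064) (nat_lit 17) (node (nat_lit 6) (nat_lit 63351) (nat_lit 18) (node (nat_lit 5)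
  (nat_lit 63973) (nat_lit 19) (node (nat_lit 4) (nat_lit 64035) (nat_lit 20) (node (nat_lit 6)
  (nat_lit 64324) (nat_lit 21) (node (nat_lit 4) (nat_lit 64445) (nat_lit 22) (node (nat_lit 5)
  (nat_lit 64586) (nat_lit 23) (node (nat_lit 4) (nat_lit 42666) (nat_lit 24) nil nil) nil) nil)
  nil) (node (nat_lit 6) (nat_lit 64294) (nat_lit 20) nil nil)) nil) nil) (node (nat_lit 5)
  (nat_lit 73149) (nat_lit 17) (node (nat_lit 4) (nat_lit 73254) (nat_lit 18) (node (nat_lit 6)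
  (nat_lit 73505) (nat_lit 19) nil nil) nil) nil)) (node (nat_lit 0) (nat_lit 74025) (nat_lit 16)
  nil nil)) (node (nat_lit 0) (nat_lit 73559) (nat_lit 15) nil nil)) (node (nat_lit 0) (nat_lit
  72496) (nat_lit 14) nil nil))) (node (nat_lit 0) (nat_lit 69514) (nat_lit 13) nil nil)) (node
  (nat_lit 0) (nat_lit 66650) (nat_lit 12) (node (nat_lit 4) (nat_lit 66650) (nat_lit 13) nil
  (node (nat_lit 5) (nat_lit 66650) (nat_lit 13) nil (node (nat_lit 6) (nat_lit 66650) (nat_lit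
  13) nil nil))) nil)) (node (nat_lit 0) (nat_lit 62425) (nat_lit 11) (node (nat_lit 4) (nat_lit
  63559) (nat_lit 12) (node (nat_lit 5) (nat_lit 65221) (nat_lit 13) (node (nat_lit 4) (nat_lit
  65914) (nat_lit 14) (node (nat_lit 6) (nat_lit 66017) (nat_lit 15) (node (nat_lit 5) (nat_lit
  66357) (nat_lit 16) nil nil) nil) (node (nat_lit 6) (nat_lit 66105) (nat_lit 14) nil nil)) (node
  (nat_lit 6) (nat_lit 64056) (nat_lit 13) (node (nat_lit 5) (nat_lit 64171) (nat_lit 14) nil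
  (node (nat_lit 4) (nat_lit 64555) (nat_lit 14) nil nil)) nil)) (node (nat_lit 5) (nat_lit 63845)
  (nat_lit 12) (node (nat_lit 6) (nat_lit 65357) (nat_lit 13) (node (nat_lit 4) (nat_lit 66172)
  (nat_lit 14) nil (node (nat_lit 5) (nat_lit 65471) (nat_lit 14) nil nil)) (node (nat_lit 4)
  (nat_lit 65784) (nat_lit 13) (node (nat_lit 6) (nat_lit 66667) (nat_lit 14) nil (node (nat_lit
  5) (nat_lit 65784) (nat_lit 14) nil nil)) nil)) (node (nat_lit 6) (nat_lit 63804) (nat_lit 12)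
  (node (nat_lit 5) (nat_lit 65742) (nat_lit 13) (node (nat_lit 6) (nat_lit 66619) (nat_lit 14)
  (node (nat_lit 4) (nat_lit 67727) (nat_lit 15) nil nil) (node (nat_lit 4) (nat_lit 66625)
  (nat_lit 14) nil nil)) (node (nat_lit 4) (nat_lit 63647) (nat_lit 13) (node (nat_lit 5) (nat_lit
  62864) (nat_lit 14) (node (nat_lit 6) (nat_lit 62968) (nat_lit 15) nil nil) (node (nat_lit 6)
  (nat_lit 65057) (nat_lit 14) (node (nat_lit 5) (nat_lit 66166) (nat_lit 15) nil nil) nil)) (node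
  (nat_lit 14) (nat_lit 65777) (nat_lit 13) nil nil))) (node (nat_lit 0) (nat_lit 64417) (nat_lit
  12) nil nil)))) nil)))

noncomputable def t283 : Tr :=
  (node (nat_lit 4) (nat_lit 0) (nat_lit 7) (node (nat_lit 6) (nat_lit 0) (nat_lit 8) (node
  (nat_lit 4) (nat_lit 0) (nat_lit 9) (node (nat_lit 5) (nat_lit 0) (nat_lit 10) t282 (node
  (nat_lit 0) (nat_lit 75399) (nat_lit 10) (node (nat_lit 5) (nat_lit 75399) (nat_lit 11) nil
  (node (nat_lit 6) (nat_lit 75399) (nat_lit 11) nil (node (nat_lit 4) (nat_lit 75399) (nat_lit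
  11) nil nil))) nil)) (node (nat_lit 0) (nat_lit 69648) (nat_lit 9) (node (nat_lit 4) (nat_lit
  70584) (nat_lit 10) (node (nat_lit 6) (nat_lit 70584) (nat_lit 11) nil (node (nat_lit 5)
  (nat_lit 70584) (nat_lit 11) nil nil)) (node (nat_lit 5) (nat_lit 69687) (nat_lit 10) (node
  (nat_lit 6) (nat_lit 69687) (nat_lit 11) nil (node (nat_lit 4) (nat_lit 69687) (nat_lit 11) nil
  nil)) (node (nat_lit 6) (nat_lit 71691) (nat_lit 10) (node (nat_lit 5) (nat_lit 71691) (nat_lit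
  11) nil (node (nat_lit 4) (nat_lit 71691) (nat_lit 11) nil nil)) nil))) nil)) (node (nat_lit 5)
  (nat_lit 0) (nat_lit 8) (node (nat_lit 6) (nat_lit 0) (nat_lit 9) (node (nat_lit 4) (nat_lit 0)
  (nat_lit 10) (node (nat_lit 5) (nat_lit 0) (nat_lit 11) (node (nat_lit 4) (nat_lit 0) (nat_lit
  12) (node (nat_lit 6) (nat_lit 0) (nat_lit 13) (node (nat_lit 4) (nat_lit 56256) (nat_lit 14)
  (node (nat_lit 5) (nat_lit 57171) (nat_lit 15) (node (nat_lit 6) (nat_lit 57755) (nat_lit 16)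
  (node (nat_lit 5) (nat_lit 58093) (nat_lit 17) (node (nat_lit 4) (nat_lit 57852) (nat_lit 18)
  nil nil) (node (nat_lit 4) (nat_lit 58130) (nat_lit 17) (node (nat_lit 6) (nat_lit 48584)
  (nat_lit 18) (node (nat_lit 5) (nat_lit 47752) (nat_lit 19) (node (nat_lit 4) (nat_lit 36948)
  (nat_lit 20) (node (nat_lit 5) (nat_lit 36848) (nat_lit 21) (node (nat_lit 6) (nat_lit 37061)
  (nat_lit 22) nil nil) nil) nil) nil) nil) nil)) nil) nil) (node (nat_lit 5) (nat_lit 56256)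
  (nat_lit 14) (node (nat_lit 6) (nat_lit 57171) (nat_lit 15) (node (nat_lit 4) (nat_lit 57755)
  (nat_lit 16) (node (nat_lit 6) (nat_lit 58130) (nat_lit 17) (node (nat_lit 5) (nat_lit 58423)
  (nat_lit 18) (node (nat_lit 4) (nat_lit 58237) (nat_lit 19) (node (nat_lit 5) (nat_lit 58416)
  (nat_lit 20) (node (nat_lit 6) (nat_lit 58555) (nat_lit 21) nil nil) (node (nat_lit 6) (nat_lit
  58296) (nat_lit 20) nil nil)) nil) nil) nil) nil) (node (nat_lit 4) (nat_lit 57171) (nat_lit 15)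
  (node (nat_lit 5) (nat_lit 57652) (nat_lit 16) (node (nat_lit 6) (nat_lit 58027) (nat_lit 17)
  (node (nat_lit 4) (nat_lit 58319) (nat_lit 18) (node (nat_lit 6) (nat_lit 58547) (nat_lit 19)
  (node (nat_lit 5) (nat_lit 58726) (nat_lit 20) (node (nat_lit 4) (nat_lit 58613) (nat_lit 21)
  (node (nat_lit 5) (nat_lit 58721) (nat_lit 22) nil nil) nil) nil) nil) nil) nil) nil) nil))
  (node (nat_lit 0) (nat_lit 57344) (nat_lit 14) nil nil))) (node (nat_lit 0) (nat_lit 57652)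
  (nat_lit 13) nil nil)) (node (nat_lit 0) (nat_lit 56872) (nat_lit 12) nil nil)) (node (nat_lit
  0) (nat_lit 55871) (nat_lit 11) (node (nat_lit 4) (nat_lit 55871) (nat_lit 12) nil (node
  (nat_lit 5) (nat_lit 55871) (nat_lit 12) nil (node (nat_lit 6) (nat_lit 55871) (nat_lit 12) nil
  nil))) (node (nat_lit 6) (nat_lit 0) (nat_lit 11) (node (nat_lit 0) (nat_lit 56872) (nat_lit 12)
  nil nil) nil))) (node (nat_lit 5) (nat_lit 0) (nat_lit 10) (node (nat_lit 4) (nat_lit 0)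
  (nat_lit 11) (node (nat_lit 6) (nat_lit 0) (nat_lit 12) (node (nat_lit 4) (nat_lit 0) (nat_lit
  13) (node (nat_lit 5) (nat_lit 74453) (nat_lit 14) (node (nat_lit 6) (nat_lit 76447) (nat_lit
  15) (node (nat_lit 5) (nat_lit 76327) (nat_lit 16) (node (nat_lit 4) (nat_lit 76373) (nat_lit
  17) (node (nat_lit 5) (nat_lit 77041) (nat_lit 18) (node (nat_lit 6) (nat_lit 76931) (nat_lit
  19) (node (nat_lit 4) (nat_lit 76268) (nat_lit 20) (node (nat_lit 6) (nat_lit 75855) (nat_lit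
  21) (node (nat_lit 5) (nat_lit 73630) (nat_lit 22) (node (nat_lit 4) (nat_lit 70874) (nat_lit
  23) (node (nat_lit 5) (nat_lit 64704) (nat_lit 24) (node (nat_lit 6) (nat_lit 58329) (nat_lit
  25) (node (nat_lit 5) (nat_lit 58369) (nat_lit 26) (node (nat_lit 4) (nat_lit 58342) (nat_lit
  27) (node (nat_lit 6) (nat_lit 58351) (nat_lit 28) (node (nat_lit 4) (nat_lit 58351) (nat_lit
  29) (node (nat_lit 5) (nat_lit 58357) (nat_lit 30) nil nil) nil) nil) nil) nil) nil) nil) nil)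
  nil) nil) nil) nil) nil) nil) (node (nat_lit 4) (nat_lit 77919) (nat_lit 16) (node (nat_lit 6)
  (nat_lit 74011) (nat_lit 17) (node (nat_lit 5) (nat_lit 62639) (nat_lit 18) (node (nat_lit 4)
  (nat_lit 34132) (nat_lit 19) (node (nat_lit 5) (nat_lit 20429) (nat_lit 20) (node (nat_lit 6)
  (nat_lit 19714) (nat_lit 21) nil nil) (node (nat_lit 6) (nat_lit 34692) (nat_lit 20) (node
  (nat_lit 4) (nat_lit 35058) (nat_lit 21) (node (nat_lit 5) (nat_lit 35358) (nat_lit 22) nil nil)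
  nil) nil)) nil) nil) nil) nil)) (node (nat_lit 4) (nat_lit 76429) (nat_lit 15) (node (nat_lit 6)
  (nat_lit 77845) (nat_lit 16) (node (nat_lit 5) (nat_lit 78868) (nat_lit 17) nil nil) nil) nil))
  (node (nat_lit 0) (nat_lit 75847) (nat_lit 14) nil nil)) (node (nat_lit 5) (nat_lit 0) (nat_lit
  13) (node (nat_lit 6) (nat_lit 74185) (nat_lit 14) (node (nat_lit 4) (nat_lit 75812) (nat_lit
  15) (node (nat_lit 6) (nat_lit 77124) (nat_lit 16) (node (nat_lit 5) (nat_lit 78147) (nat_lit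
  17) (node (nat_lit 4) (nat_lit 78246) (nat_lit 18) (node (nat_lit 5) (nat_lit 78785) (nat_lit
  19) (node (nat_lit 6) (nat_lit 79248) (nat_lit 20) nil nil) nil) nil) nil) (node (nat_lit 5)
  (nat_lit 76456) (nat_lit 16) (node (nat_lit 4) (nat_lit 76438) (nat_lit 17) (node (nat_lit 6)
  (nat_lit 76297) (nat_lit 18) nil nil) nil) nil)) nil) (node (nat_lit 0) (nat_lit 75847) (nat_lit
  14) nil nil)) (node (nat_lit 0) (nat_lit 73507) (nat_lit 13) nil nil))) (node (nat_lit 0)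
  (nat_lit 72010) (nat_lit 12) nil nil)) (node (nat_lit 0) (nat_lit 71094) (nat_lit 11) nil nil))
  (node (nat_lit 0) (nat_lit 69026) (nat_lit 10) (node (nat_lit 5) (nat_lit 69026) (nat_lit 11)
  nil (node (nat_lit 4) (nat_lit 69026) (nat_lit 11) nil (node (nat_lit 6) (nat_lit 69026)
  (nat_lit 11) nil nil))) nil))) (node (nat_lit 0) (nat_lit 70429) (nat_lit 9) (node (nat_lit 6)
  (nat_lit 71025) (nat_lit 10) (node (nat_lit 5) (nat_lit 72771) (nat_lit 11) nil (node (nat_lit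
  4) (nat_lit 70596) (nat_lit 11) (node (nat_lit 5) (nat_lit 70596) (nat_lit 12) nil nil) nil))
  (node (nat_lit 5) (nat_lit 71807) (nat_lit 10) (node (nat_lit 4) (nat_lit 71910) (nat_lit 11)
  nil (node (nat_lit 6) (nat_lit 73348) (nat_lit 11) (node (nat_lit 4) (nat_lit 73348) (nat_lit
  12) nil nil) nil)) (node (nat_lit 4) (nat_lit 71620) (nat_lit 10) (node (nat_lit 6) (nat_lit
  72195) (nat_lit 11) (node (nat_lit 5) (nat_lit 72195) (nat_lit 12) nil nil) (node (nat_lit 5)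
  (nat_lit 74272) (nat_lit 11) (node (nat_lit 6) (nat_lit 74272) (nat_lit 12) nil nil) nil))
  nil))) nil)) nil)) (node (nat_lit 6) (nat_lit 0) (nat_lit 7) (node (nat_lit 4) (nat_lit 0)
  (nat_lit 8) (node (nat_lit 5) (nat_lit 0) (nat_lit 9) (node (nat_lit 4) (nat_lit 0) (nat_lit 10)
  (node (nat_lit 6) (nat_lit 0) (nat_lit 11) (node (nat_lit 5) (nat_lit 0) (nat_lit 12) (node
  (nat_lit 6) (nat_lit 0) (nat_lit 13) (node (nat_lit 4) (nat_lit 0) (nat_lit 14) (node (nat_lit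
  6) (nat_lit 0) (nat_lit 15) (node (nat_lit 5) (nat_lit 0) (nat_lit 16) (node (nat_lit 4)
  (nat_lit 0) (nat_lit 17) (node (nat_lit 5) (nat_lit 103074) (nat_lit 18) (node (nat_lit 6)
  (nat_lit 103880) (nat_lit 19) (node (nat_lit 4) (nat_lit 104417) (nat_lit 20) (node (nat_lit 6)
  (nat_lit 99485) (nat_lit 21) (node (nat_lit 5) (nat_lit 97677) (nat_lit 22) (node (nat_lit 6)
  (nat_lit 95105) (nat_lit 23) (node (nat_lit 4) (nat_lit 94059) (nat_lit 24) (node (nat_lit 5)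
  (nat_lit 94207) (nat_lit 25) (node (nat_lit 4) (nat_lit 94257) (nat_lit 26) (node (nat_lit 6)
  (nat_lit 94336) (nat_lit 27) (node (nat_lit 5) (nat_lit 94393) (nat_lit 28) nil nil) nil) nil)
  nil) nil) nil) nil) nil) (node (nat_lit 5) (nat_lit 104217) (nat_lit 20) (node (nat_lit 4)
  (nat_lit 104525) (nat_lit 21) (node (nat_lit 6) (nat_lit 104720) (nat_lit 22) (node (nat_lit 4)
  (nat_lit 104872) (nat_lit 23) (node (nat_lit 5) (nat_lit 104991) (nat_lit 24) nil nil) nil) nil)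
  nil) nil)) nil) (node (nat_lit 6) (nat_lit 102768) (nat_lit 18) (node (nat_lit 4) (nat_lit
  103177) (nat_lit 19) (node (nat_lit 5) (nat_lit 103499) (nat_lit 20) (node (nat_lit 6) (nat_lit
  103536) (nat_lit 21) (node (nat_lit 4) (nat_lit 103731) (nat_lit 22) (node (nat_lit 6) (nat_lit
  103752) (nat_lit 23) (node (nat_lit 5) (nat_lit 103805) (nat_lit 24) (node (nat_lit 6) (nat_lit
  103899) (nat_lit 25) (node (nat_lit 4) (nat_lit 103971) (nat_lit 26) (node (nat_lit 5) (nat_lit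
  104027) (nat_lit 27) (node (nat_lit 4) (nat_lit 100095) (nat_lit 28) (node (nat_lit 6) (nat_lit
  91303) (nat_lit 29) (node (nat_lit 5) (nat_lit 81397) (nat_lit 30) (node (nat_lit 6) (nat_lit
  66764) (nat_lit 31) (node (nat_lit 4) (nat_lit 57847) (nat_lit 32) nil nil) nil) nil) nil) nil)
  nil) nil) nil) nil) nil) nil) nil) nil) nil) (node (nat_lit 0) (nat_lit 103564) (nat_lit 18) nil
  nil))) (node (nat_lit 0) (nat_lit 102640) (nat_lit 17) nil nil)) (node (nat_lit 0) (nat_lit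
  102816) (nat_lit 16) nil nil)) (node (nat_lit 0) (nat_lit 101892) (nat_lit 15) (node (nat_lit 6)
  (nat_lit 101892) (nat_lit 16) (node (nat_lit 4) (nat_lit 101892) (nat_lit 17) nil nil) (node
  (nat_lit 4) (nat_lit 101892) (nat_lit 16) nil (node (nat_lit 5) (nat_lit 101892) (nat_lit 16)
  nil nil))) nil)) (node (nat_lit 0) (nat_lit 100123) (nat_lit 14) (node (nat_lit 5) (nat_lit
  100123) (nat_lit 15) nil (node (nat_lit 6) (nat_lit 100123) (nat_lit 15) nil nil)) nil)) (node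
  (nat_lit 4) (nat_lit 0) (nat_lit 13) (node (nat_lit 5) (nat_lit 0) (nat_lit 14) (node (nat_lit
  6) (nat_lit 0) (nat_lit 15) (node (nat_lit 5) (nat_lit 100508) (nat_lit 16) (node (nat_lit 4)
  (nat_lit 101449) (nat_lit 17) (node (nat_lit 6) (nat_lit 102162) (nat_lit 18) (node (nat_lit 4)
  (nat_lit 102571) (nat_lit 19) (node (nat_lit 5) (nat_lit 102893) (nat_lit 20) (node (nat_lit 6)
  (nat_lit 102930) (nat_lit 21) (node (nat_lit 4) (nat_lit 103125) (nat_lit 22) (node (nat_lit 6)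
  (nat_lit 103146) (nat_lit 23) (node (nat_lit 5) (nat_lit 103199) (nat_lit 24) (node (nat_lit 6)
  (nat_lit 103293) (nat_lit 25) (node (nat_lit 4) (nat_lit 103365) (nat_lit 26) (node (nat_lit 5)
  (nat_lit 103421) (nat_lit 27) (node (nat_lit 4) (nat_lit 103466) (nat_lit 28) (node (nat_lit 6)
  (nat_lit 95247) (nat_lit 29) (node (nat_lit 5) (nat_lit 82665) (nat_lit 30) (node (nat_lit 4)
  (nat_lit 74169) (nat_lit 31) (node (nat_lit 5) (nat_lit 57543) (nat_lit 32) (node (nat_lit 6)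
  (nat_lit 44034) (nat_lit 33) nil nil) nil) nil) nil) nil) nil) nil) nil) nil) nil) nil) nil)
  nil) nil) nil) nil) nil) (node (nat_lit 4) (nat_lit 0) (nat_lit 16) (node (nat_lit 6) (nat_lit
  0) (nat_lit 17) (node (nat_lit 5) (nat_lit 80063) (nat_lit 18) (node (nat_lit 6) (nat_lit 80685)
  (nat_lit 19) (node (nat_lit 4) (nat_lit 81069) (nat_lit 20) (node (nat_lit 5) (nat_lit 81400)
  (nat_lit 21) (node (nat_lit 4) (nat_lit 58880) (nat_lit 22) (node (nat_lit 6) (nat_lit 58910)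
  (nat_lit 23) nil nil) nil) nil) nil) (node (nat_lit 4) (nat_lit 80555) (nat_lit 19) (node
  (nat_lit 6) (nat_lit 80342) (nat_lit 20) nil nil) nil)) (node (nat_lit 0) (nat_lit 80773)
  (nat_lit 18) nil nil)) (node (nat_lit 5) (nat_lit 101403) (nat_lit 17) (node (nat_lit 4)
  (nat_lit 101798) (nat_lit 18) (node (nat_lit 6) (nat_lit 101857) (nat_lit 19) nil nil) nil)
  (node (nat_lit 0) (nat_lit 102275) (nat_lit 17) nil nil))) (node (nat_lit 0) (nat_lit 101442)
  (nat_lit 16) nil nil))) (node (nat_lit 0) (nat_lit 101485) (nat_lit 15) nil nil)) (node (nat_lit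
  0) (nat_lit 100112) (nat_lit 14) (node (nat_lit 5) (nat_lit 100112) (nat_lit 15) nil (node
  (nat_lit 4) (nat_lit 100112) (nat_lit 15) nil (node (nat_lit 6) (nat_lit 100112) (nat_lit 15)
  nil nil))) nil)) (node (nat_lit 0) (nat_lit 98139) (nat_lit 13) (node (nat_lit 5) (nat_lit
  98139) (nat_lit 14) nil (node (nat_lit 6) (nat_lit 98139) (nat_lit 14) nil (node (nat_lit 4)
  (nat_lit 98139) (nat_lit 14) nil nil))) nil))) (node (nat_lit 4) (nat_lit 0) (nat_lit 12) (node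
  (nat_lit 5) (nat_lit 0) (nat_lit 13) (node (nat_lit 6) (nat_lit 0) (nat_lit 14) (node (nat_lit
  5) (nat_lit 0) (nat_lit 15) (node (nat_lit 4) (nat_lit 99688) (nat_lit 16) (node (nat_lit 5)
  (nat_lit 100945) (nat_lit 17) (node (nat_lit 6) (nat_lit 100736) (nat_lit 18) (node (nat_lit 4)
  (nat_lit 100741) (nat_lit 19) (node (nat_lit 6) (nat_lit 99326) (nat_lit 20) (node (nat_lit 5)
  (nat_lit 97458) (nat_lit 21) (node (nat_lit 6) (nat_lit 93205) (nat_lit 22) (node (nat_lit 4)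
  (nat_lit 84664) (nat_lit 23) (node (nat_lit 5) (nat_lit 81093) (nat_lit 24) (node (nat_lit 4)
  (nat_lit 81133) (nat_lit 25) (node (nat_lit 6) (nat_lit 81213) (nat_lit 26) (node (nat_lit 4)
  (nat_lit 58747) (nat_lit 27) (node (nat_lit 5) (nat_lit 58757) (nat_lit 28) (node (nat_lit 6)
  (nat_lit 58694) (nat_lit 29) nil nil) nil) nil) nil) nil) nil) nil) nil) nil) nil) nil) nil)
  (node (nat_lit 6) (nat_lit 101072) (nat_lit 17) (node (nat_lit 5) (nat_lit 102123) (nat_lit 18)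
  (node (nat_lit 6) (nat_lit 102532) (nat_lit 19) (node (nat_lit 4) (nat_lit 102854) (nat_lit 20)
  nil nil) nil) (node (nat_lit 4) (nat_lit 100090) (nat_lit 18) nil nil)) nil)) (node (nat_lit 0)
  (nat_lit 100472) (nat_lit 16) nil nil)) (node (nat_lit 4) (nat_lit 0) (nat_lit 15) (node
  (nat_lit 6) (nat_lit 0) (nat_lit 16) (node (nat_lit 5) (nat_lit 0) (nat_lit 17) (node (nat_lit
  4) (nat_lit 83635) (nat_lit 18) (node (nat_lit 5) (nat_lit 84415) (nat_lit 19) (node (nat_lit 6)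
  (nat_lit 85039) (nat_lit 20) (node (nat_lit 4) (nat_lit 83105) (nat_lit 21) nil (node (nat_lit
  5) (nat_lit 84876) (nat_lit 21) nil nil)) nil) (node (nat_lit 6) (nat_lit 84434) (nat_lit 19)
  (node (nat_lit 4) (nat_lit 84747) (nat_lit 20) nil nil) nil)) (node (nat_lit 6) (nat_lit 83757)
  (nat_lit 18) (node (nat_lit 4) (nat_lit 44978) (nat_lit 19) (node (nat_lit 5) (nat_lit 45121)
  (nat_lit 20) nil nil) nil) (node (nat_lit 0) (nat_lit 83881) (nat_lit 18) nil nil))) (node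
  (nat_lit 0) (nat_lit 84391) (nat_lit 17) nil nil)) (node (nat_lit 0) (nat_lit 87235) (nat_lit
  16) nil nil)) (node (nat_lit 0) (nat_lit 99659) (nat_lit 15) nil nil))) (node (nat_lit 0)
  (nat_lit 99784) (nat_lit 14) nil nil)) (node (nat_lit 0) (nat_lit 98160) (nat_lit 13) (node
  (nat_lit 6) (nat_lit 98160) (nat_lit 14) nil (node (nat_lit 4) (nat_lit 98160) (nat_lit 14) nil
  nil)) nil)) (node (nat_lit 0) (nat_lit 95125) (nat_lit 12) (node (nat_lit 4) (nat_lit 95359)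
  (nat_lit 13) (node (nat_lit 6) (nat_lit 95885) (nat_lit 14) nil (node (nat_lit 5) (nat_lit
  95359) (nat_lit 14) nil nil)) (node (nat_lit 5) (nat_lit 95465) (nat_lit 13) (node (nat_lit 6)
  (nat_lit 95458) (nat_lit 14) (node (nat_lit 4) (nat_lit 95458) (nat_lit 15) nil nil) (node
  (nat_lit 4) (nat_lit 95540) (nat_lit 14) (node (nat_lit 6) (nat_lit 95540) (nat_lit 15) nil nil)
  nil)) (node (nat_lit 6) (nat_lit 95364) (nat_lit 13) (node (nat_lit 4) (nat_lit 95364) (nat_lit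
  14) nil (node (nat_lit 5) (nat_lit 95364) (nat_lit 14) nil nil)) nil))) nil))) (node (nat_lit 0)
  (nat_lit 91137) (nat_lit 11) (node (nat_lit 4) (nat_lit 91137) (nat_lit 12) nil (node (nat_lit
  6) (nat_lit 91137) (nat_lit 12) nil (node (nat_lit 5) (nat_lit 91137) (nat_lit 12) nil nil)))
  nil)) (node (nat_lit 6) (nat_lit 0) (nat_lit 10) (node (nat_lit 5) (nat_lit 0) (nat_lit 11)
  (node (nat_lit 4) (nat_lit 0) (nat_lit 12) (node (nat_lit 6) (nat_lit 0) (nat_lit 13) (node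
  (nat_lit 5) (nat_lit 0) (nat_lit 14) (node (nat_lit 6) (nat_lit 0) (nat_lit 15) (node (nat_lit
  4) (nat_lit 100453) (nat_lit 16) (node (nat_lit 6) (nat_lit 101181) (nat_lit 17) (node (nat_lit
  5) (nat_lit 101783) (nat_lit 18) (node (nat_lit 4) (nat_lit 101776) (nat_lit 19) (node (nat_lit
  5) (nat_lit 102153) (nat_lit 20) (node (nat_lit 6) (nat_lit 102003) (nat_lit 21) (node (nat_lit
  4) (nat_lit 102219) (nat_lit 22) (node (nat_lit 6) (nat_lit 101750) (nat_lit 23) (node (nat_lit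
  5) (nat_lit 100834) (nat_lit 24) (node (nat_lit 6) (nat_lit 99611) (nat_lit 25) (node (nat_lit
  4) (nat_lit 98161) (nat_lit 26) (node (nat_lit 5) (nat_lit 94564) (nat_lit 27) (node (nat_lit 6)
  (nat_lit 93628) (nat_lit 28) (node (nat_lit 5) (nat_lit 93672) (nat_lit 29) (node (nat_lit 4)
  (nat_lit 93670) (nat_lit 30) (node (nat_lit 6) (nat_lit 93700) (nat_lit 31) nil nil) nil) nil)
  nil) nil) nil) nil) nil) nil) nil) nil) nil) nil) nil) (node (nat_lit 5) (nat_lit 101278)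
  (nat_lit 17) (node (nat_lit 4) (nat_lit 101139) (nat_lit 18) (node (nat_lit 6) (nat_lit 101039)
  (nat_lit 19) nil nil) nil) nil)) (node (nat_lit 0) (nat_lit 101913) (nat_lit 16) nil nil)) (node
  (nat_lit 0) (nat_lit 99453) (nat_lit 15) nil nil)) (node (nat_lit 4) (nat_lit 0) (nat_lit 14)
  (node (nat_lit 5) (nat_lit 98766) (nat_lit 15) (node (nat_lit 6) (nat_lit 99381) (nat_lit 16)
  (node (nat_lit 4) (nat_lit 100055) (nat_lit 17) (node (nat_lit 6) (nat_lit 100131) (nat_lit 18)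
  (node (nat_lit 5) (nat_lit 95012) (nat_lit 19) (node (nat_lit 6) (nat_lit 70122) (nat_lit 20)
  (node (nat_lit 4) (nat_lit 54449) (nat_lit 21) (node (nat_lit 5) (nat_lit 54750) (nat_lit 22)
  (node (nat_lit 6) (nat_lit 41925) (nat_lit 23) (node (nat_lit 5) (nat_lit 41912) (nat_lit 24)
  nil nil) nil) nil) nil) nil) nil) nil) nil) (node (nat_lit 4) (nat_lit 99835) (nat_lit 16) (node
  (nat_lit 6) (nat_lit 99923) (nat_lit 17) (node (nat_lit 5) (nat_lit 100127) (nat_lit 18) nil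
  nil) nil) nil)) (node (nat_lit 0) (nat_lit 99277) (nat_lit 15) nil nil)) (node (nat_lit 0)
  (nat_lit 96906) (nat_lit 14) nil nil))) (node (nat_lit 5) (nat_lit 0) (nat_lit 13) (node
  (nat_lit 6) (nat_lit 90943) (nat_lit 14) (node (nat_lit 4) (nat_lit 89413) (nat_lit 15) (node
  (nat_lit 6) (nat_lit 77770) (nat_lit 16) (node (nat_lit 5) (nat_lit 79021) (nat_lit 17) (node
  (nat_lit 6) (nat_lit 79645) (nat_lit 18) (node (nat_lit 4) (nat_lit 80232) (nat_lit 19) (node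
  (nat_lit 5) (nat_lit 58830) (nat_lit 20) (node (nat_lit 6) (nat_lit 58969) (nat_lit 21) nil nil)
  nil) nil) (node (nat_lit 4) (nat_lit 79473) (nat_lit 18) (node (nat_lit 6) (nat_lit 79723)
  (nat_lit 19) nil nil) nil)) nil) (node (nat_lit 5) (nat_lit 91243) (nat_lit 16) (node (nat_lit
  4) (nat_lit 92472) (nat_lit 17) (node (nat_lit 6) (nat_lit 93455) (nat_lit 18) (node (nat_lit 5)
  (nat_lit 93934) (nat_lit 19) nil nil) nil) nil) nil)) nil) (node (nat_lit 0) (nat_lit 96497)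
  (nat_lit 14) nil nil)) (node (nat_lit 0) (nat_lit 97481) (nat_lit 13) nil nil))) (node (nat_lit
  0) (nat_lit 94874) (nat_lit 12) nil nil)) (node (nat_lit 0) (nat_lit 91310) (nat_lit 11) (node
  (nat_lit 6) (nat_lit 91310) (nat_lit 12) nil (node (nat_lit 4) (nat_lit 91304) (nat_lit 12)
  (node (nat_lit 6) (nat_lit 91304) (nat_lit 13) nil (node (nat_lit 5) (nat_lit 91304) (nat_lit
  13) nil nil)) (node (nat_lit 5) (nat_lit 91386) (nat_lit 12) (node (nat_lit 6) (nat_lit 91386)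
  (nat_lit 13) nil (node (nat_lit 4) (nat_lit 91386) (nat_lit 13) nil nil)) nil))) nil)) (node
  (nat_lit 0) (nat_lit 86348) (nat_lit 10) (node (nat_lit 6) (nat_lit 87624) (nat_lit 11) (node
  (nat_lit 5) (nat_lit 87624) (nat_lit 12) nil (node (nat_lit 4) (nat_lit 87624) (nat_lit 12) nil
  nil)) (node (nat_lit 4) (nat_lit 87254) (nat_lit 11) (node (nat_lit 5) (nat_lit 87254) (nat_lit
  12) nil (node (nat_lit 6) (nat_lit 87254) (nat_lit 12) nil nil)) (node (nat_lit 5) (nat_lit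
  86142) (nat_lit 11) (node (nat_lit 6) (nat_lit 86142) (nat_lit 12) nil (node (nat_lit 4)
  (nat_lit 86142) (nat_lit 12) nil nil)) nil))) nil))) (node (nat_lit 0) (nat_lit 79307) (nat_lit
  9) (node (nat_lit 5) (nat_lit 81914) (nat_lit 10) (node (nat_lit 6) (nat_lit 83573) (nat_lit 11)
  (node (nat_lit 4) (nat_lit 83514) (nat_lit 12) nil (node (nat_lit 5) (nat_lit 85094) (nat_lit
  12) nil nil)) (node (nat_lit 4) (nat_lit 84416) (nat_lit 11) (node (nat_lit 6) (nat_lit 85865)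
  (nat_lit 12) nil (node (nat_lit 5) (nat_lit 85525) (nat_lit 12) nil nil)) nil)) (node (nat_lit
  6) (nat_lit 81690) (nat_lit 10) (node (nat_lit 5) (nat_lit 84988) (nat_lit 11) (node (nat_lit 4)
  (nat_lit 86438) (nat_lit 12) nil (node (nat_lit 6) (nat_lit 86438) (nat_lit 12) nil nil)) (node
  (nat_lit 4) (nat_lit 84286) (nat_lit 11) (node (nat_lit 5) (nat_lit 82888) (nat_lit 12) nil
  (node (nat_lit 6) (nat_lit 86437) (nat_lit 12) nil nil)) nil)) (node (nat_lit 4) (nat_lit 80781)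
  (nat_lit 10) (node (nat_lit 6) (nat_lit 84134) (nat_lit 11) (node (nat_lit 5) (nat_lit 84134)
  (nat_lit 12) nil nil) (node (nat_lit 5) (nat_lit 83938) (nat_lit 11) (node (nat_lit 6) (nat_lit
  83938) (nat_lit 12) nil nil) nil)) nil))) nil)) nil) nil))

noncomputable def t284 : Tr :=
  (node (nat_lit 4) (nat_lit 0) (nat_lit 7) (node (nat_lit 5) (nat_lit 0) (nat_lit 8) (node
  (nat_lit 6) (nat_lit 0) (nat_lit 9) (node (nat_lit 5) (nat_lit 0) (nat_lit 10) (node (nat_lit 4)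
  (nat_lit 0) (nat_lit 11) (node (nat_lit 5) (nat_lit 0) (nat_lit 12) (node (nat_lit 6) (nat_lit
  0) (nat_lit 13) (node (nat_lit 4) (nat_lit 0) (nat_lit 14) (node (nat_lit 6) (nat_lit 0)
  (nat_lit 15) (node (nat_lit 5) (nat_lit 38775) (nat_lit 16) (node (nat_lit 4) (nat_lit 39311)
  (nat_lit 17) (node (nat_lit 6) (nat_lit 39731) (nat_lit 18) (node (nat_lit 4) (nat_lit 40057)
  (nat_lit 19) (node (nat_lit 5) (nat_lit 40312) (nat_lit 20) (node (nat_lit 6) (nat_lit 40211)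
  (nat_lit 21) (node (nat_lit 5) (nat_lit 40192) (nat_lit 22) (node (nat_lit 4) (nat_lit 40228)
  (nat_lit 23) (node (nat_lit 6) (nat_lit 40281) (nat_lit 24) nil nil) nil) nil) (node (nat_lit 4)
  (nat_lit 40360) (nat_lit 21) nil nil)) nil) nil) (node (nat_lit 5) (nat_lit 39731) (nat_lit 18)
  (node (nat_lit 6) (nat_lit 40057) (nat_lit 19) (node (nat_lit 5) (nat_lit 40312) (nat_lit 20)
  (node (nat_lit 4) (nat_lit 40462) (nat_lit 21) (node (nat_lit 6) (nat_lit 38817) (nat_lit 22)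
  (node (nat_lit 4) (nat_lit 35605) (nat_lit 23) (node (nat_lit 5) (nat_lit 30842) (nat_lit 24)
  (node (nat_lit 6) (nat_lit 22018) (nat_lit 25) nil nil) nil) nil) nil) nil) nil) nil) nil))
  (node (nat_lit 6) (nat_lit 39311) (nat_lit 17) (node (nat_lit 4) (nat_lit 39412) (nat_lit 18)
  (node (nat_lit 5) (nat_lit 39594) (nat_lit 19) (node (nat_lit 6) (nat_lit 39463) (nat_lit 20)
  (node (nat_lit 5) (nat_lit 39439) (nat_lit 21) (node (nat_lit 4) (nat_lit 39483) (nat_lit 22)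
  (node (nat_lit 6) (nat_lit 39550) (nat_lit 23) (node (nat_lit 4) (nat_lit 39603) (nat_lit 24)
  (node (nat_lit 5) (nat_lit 39645) (nat_lit 25) (node (nat_lit 6) (nat_lit 39614) (nat_lit 26)
  nil nil) nil) nil) nil) nil) nil) nil) nil) nil) nil)) (node (nat_lit 0) (nat_lit 39912)
  (nat_lit 16) nil nil)) (node (nat_lit 5) (nat_lit 0) (nat_lit 15) (node (nat_lit 4) (nat_lit 0)
  (nat_lit 16) (node (nat_lit 6) (nat_lit 39311) (nat_lit 17) (node (nat_lit 5) (nat_lit 39731)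
  (nat_lit 18) (node (nat_lit 6) (nat_lit 40057) (nat_lit 19) (node (nat_lit 4) (nat_lit 40118)
  (nat_lit 20) nil nil) (node (nat_lit 4) (nat_lit 40057) (nat_lit 19) (node (nat_lit 5) (nat_lit
  40103) (nat_lit 20) (node (nat_lit 6) (nat_lit 40034) (nat_lit 21) nil nil) nil) nil)) (node
  (nat_lit 4) (nat_lit 39731) (nat_lit 18) (node (nat_lit 5) (nat_lit 40057) (nat_lit 19) (node
  (nat_lit 6) (nat_lit 40039) (nat_lit 20) (node (nat_lit 4) (nat_lit 40151) (nat_lit 21) nil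
  (node (nat_lit 5) (nat_lit 39742) (nat_lit 21) nil nil)) nil) nil) nil)) (node (nat_lit 0)
  (nat_lit 40200) (nat_lit 17) nil nil)) (node (nat_lit 0) (nat_lit 39912) (nat_lit 16) nil nil))
  (node (nat_lit 0) (nat_lit 39248) (nat_lit 15) nil nil))) (node (nat_lit 0) (nat_lit 39074)
  (nat_lit 14) nil nil)) (node (nat_lit 0) (nat_lit 38204) (nat_lit 13) nil nil)) (node (nat_lit
  0) (nat_lit 36909) (nat_lit 12) (node (nat_lit 5) (nat_lit 37138) (nat_lit 13) (node (nat_lit 6)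
  (nat_lit 37138) (nat_lit 14) nil (node (nat_lit 4) (nat_lit 37138) (nat_lit 14) nil nil)) (node
  (nat_lit 4) (nat_lit 36724) (nat_lit 13) (node (nat_lit 5) (nat_lit 36724) (nat_lit 14) nil
  (node (nat_lit 6) (nat_lit 36724) (nat_lit 14) nil nil)) (node (nat_lit 6) (nat_lit 37138)
  (nat_lit 13) (node (nat_lit 5) (nat_lit 37431) (nat_lit 14) nil (node (nat_lit 4) (nat_lit
  37138) (nat_lit 14) nil nil)) nil))) nil)) (node (nat_lit 0) (nat_lit 82008) (nat_lit 11) (node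
  (nat_lit 5) (nat_lit 82008) (nat_lit 12) nil (node (nat_lit 4) (nat_lit 82008) (nat_lit 12) nil
  (node (nat_lit 6) (nat_lit 82008) (nat_lit 12) nil nil))) nil)) (node (nat_lit 4) (nat_lit 0)
  (nat_lit 10) (node (nat_lit 6) (nat_lit 0) (nat_lit 11) (node (nat_lit 5) (nat_lit 0) (nat_lit
  12) (node (nat_lit 4) (nat_lit 0) (nat_lit 13) (node (nat_lit 5) (nat_lit 0) (nat_lit 14) (node
  (nat_lit 6) (nat_lit 86434) (nat_lit 15) (node (nat_lit 5) (nat_lit 75357) (nat_lit 16) (node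
  (nat_lit 4) (nat_lit 75443) (nat_lit 17) (node (nat_lit 6) (nat_lit 66383) (nat_lit 18) (node
  (nat_lit 4) (nat_lit 59822) (nat_lit 19) (node (nat_lit 5) (nat_lit 59811) (nat_lit 20) (node
  (nat_lit 6) (nat_lit 48737) (nat_lit 21) (node (nat_lit 4) (nat_lit 48846) (nat_lit 22) (node
  (nat_lit 6) (nat_lit 48931) (nat_lit 23) nil nil) nil) nil) nil) nil) nil) nil) (node (nat_lit
  4) (nat_lit 87548) (nat_lit 16) (node (nat_lit 5) (nat_lit 88574) (nat_lit 17) (node (nat_lit 4)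
  (nat_lit 89147) (nat_lit 18) (node (nat_lit 6) (nat_lit 89093) (nat_lit 19) (node (nat_lit 4)
  (nat_lit 89522) (nat_lit 20) nil nil) nil) nil) nil) nil)) (node (nat_lit 0) (nat_lit 87729)
  (nat_lit 15) nil nil)) (node (nat_lit 6) (nat_lit 0) (nat_lit 14) (node (nat_lit 4) (nat_lit 0)
  (nat_lit 15) (node (nat_lit 5) (nat_lit 0) (nat_lit 16) (node (nat_lit 6) (nat_lit 89321)
  (nat_lit 17) (node (nat_lit 5) (nat_lit 90212) (nat_lit 18) (node (nat_lit 4) (nat_lit 90905)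
  (nat_lit 19) (node (nat_lit 6) (nat_lit 91138) (nat_lit 20) (node (nat_lit 4) (nat_lit 91474)
  (nat_lit 21) nil nil) (node (nat_lit 5) (nat_lit 91339) (nat_lit 20) nil nil)) nil) nil) (node
  (nat_lit 4) (nat_lit 89321) (nat_lit 17) (node (nat_lit 6) (nat_lit 89889) (nat_lit 18) (node
  (nat_lit 5) (nat_lit 90492) (nat_lit 19) (node (nat_lit 6) (nat_lit 90399) (nat_lit 20) (node
  (nat_lit 4) (nat_lit 90590) (nat_lit 21) nil nil) (node (nat_lit 4) (nat_lit 90044) (nat_lit 20)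
  nil nil)) nil) nil) (node (nat_lit 0) (nat_lit 90114) (nat_lit 17) nil nil))) (node (nat_lit 0)
  (nat_lit 90622) (nat_lit 16) nil nil)) (node (nat_lit 0) (nat_lit 88008) (nat_lit 15) nil nil))
  (node (nat_lit 0) (nat_lit 85981) (nat_lit 14) nil nil))) (node (nat_lit 6) (nat_lit 0) (nat_lit
  13) (node (nat_lit 4) (nat_lit 84213) (nat_lit 14) (node (nat_lit 5) (nat_lit 85683) (nat_lit
  15) (node (nat_lit 6) (nat_lit 86467) (nat_lit 16) (node (nat_lit 5) (nat_lit 84986) (nat_lit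
  17) (node (nat_lit 4) (nat_lit 78477) (nat_lit 18) (node (nat_lit 6) (nat_lit 64019) (nat_lit
  19) (node (nat_lit 4) (nat_lit 64565) (nat_lit 20) (node (nat_lit 5) (nat_lit 57035) (nat_lit
  21) (node (nat_lit 6) (nat_lit 37436) (nat_lit 22) (node (nat_lit 4) (nat_lit 37503) (nat_lit
  23) (node (nat_lit 6) (nat_lit 37454) (nat_lit 24) (node (nat_lit 5) (nat_lit 37446) (nat_lit
  25) nil nil) nil) nil) nil) nil) nil) nil) nil) nil) (node (nat_lit 4) (nat_lit 86667) (nat_lit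
  16) (node (nat_lit 6) (nat_lit 86807) (nat_lit 17) (node (nat_lit 5) (nat_lit 85903) (nat_lit
  18) nil nil) nil) nil)) nil) (node (nat_lit 0) (nat_lit 85632) (nat_lit 14) nil nil)) (node
  (nat_lit 0) (nat_lit 86109) (nat_lit 13) nil nil))) (node (nat_lit 0) (nat_lit 85216) (nat_lit
  12) nil nil)) (node (nat_lit 0) (nat_lit 82097) (nat_lit 11) (node (nat_lit 4) (nat_lit 82097)
  (nat_lit 12) nil (node (nat_lit 5) (nat_lit 82389) (nat_lit 12) (node (nat_lit 4) (nat_lit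
  82389) (nat_lit 13) nil (node (nat_lit 6) (nat_lit 82389) (nat_lit 13) nil nil)) (node (nat_lit
  6) (nat_lit 82389) (nat_lit 12) (node (nat_lit 4) (nat_lit 82389) (nat_lit 13) nil (node
  (nat_lit 5) (nat_lit 82389) (nat_lit 13) nil nil)) nil))) nil)) (node (nat_lit 0) (nat_lit
  78185) (nat_lit 10) (node (nat_lit 4) (nat_lit 77868) (nat_lit 11) (node (nat_lit 6) (nat_lit
  78731) (nat_lit 12) nil (node (nat_lit 5) (nat_lit 77823) (nat_lit 12) nil (node (nat_lit 13)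
  (nat_lit 80394) (nat_lit 12) nil nil))) (node (nat_lit 5) (nat_lit 78560) (nat_lit 11) (node
  (nat_lit 6) (nat_lit 78515) (nat_lit 12) nil (node (nat_lit 4) (nat_lit 78560) (nat_lit 12) nil
  nil)) (node (nat_lit 6) (nat_lit 78560) (nat_lit 11) (node (nat_lit 4) (nat_lit 79040) (nat_lit
  12) nil (node (nat_lit 5) (nat_lit 79424) (nat_lit 12) nil nil)) (node (nat_lit 0) (nat_lit
  79603) (nat_lit 11) nil nil)))) nil))) (node (nat_lit 4) (nat_lit 0) (nat_lit 9) (node (nat_lit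
  6) (nat_lit 0) (nat_lit 10) (node (nat_lit 5) (nat_lit 0) (nat_lit 11) (node (nat_lit 6)
  (nat_lit 0) (nat_lit 12) (node (nat_lit 4) (nat_lit 0) (nat_lit 13) (node (nat_lit 5) (nat_lit
  0) (nat_lit 14) (node (nat_lit 6) (nat_lit 96021) (nat_lit 15) (node (nat_lit 5) (nat_lit 95371)
  (nat_lit 16) (node (nat_lit 4) (nat_lit 91635) (nat_lit 17) (node (nat_lit 6) (nat_lit 0)
  (nat_lit 18) (node (nat_lit 4) (nat_lit 0) (nat_lit 19) (node (nat_lit 5) (nat_lit 53051)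
  (nat_lit 20) (node (nat_lit 4) (nat_lit 53117) (nat_lit 21) (node (nat_lit 6) (nat_lit 53131)
  (nat_lit 22) (node (nat_lit 5) (nat_lit 40216) (nat_lit 23) nil nil) nil) (node (nat_lit 6)
  (nat_lit 53235) (nat_lit 21) nil nil)) (node (nat_lit 0) (nat_lit 53476) (nat_lit 20) nil nil))
  (node (nat_lit 5) (nat_lit 77187) (nat_lit 19) (node (nat_lit 6) (nat_lit 77906) (nat_lit 20)
  (node (nat_lit 4) (nat_lit 77719) (nat_lit 21) nil nil) nil) (node (nat_lit 0) (nat_lit 77370)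
  (nat_lit 19) nil nil))) (node (nat_lit 5) (nat_lit 92669) (nat_lit 18) (node (nat_lit 6)
  (nat_lit 93224) (nat_lit 19) (node (nat_lit 4) (nat_lit 93545) (nat_lit 20) nil nil) nil) nil))
  nil) nil) (node (nat_lit 4) (nat_lit 96672) (nat_lit 15) (node (nat_lit 6) (nat_lit 95357)
  (nat_lit 16) (node (nat_lit 4) (nat_lit 96467) (nat_lit 17) (node (nat_lit 5) (nat_lit 96733)
  (nat_lit 18) (node (nat_lit 6) (nat_lit 96709) (nat_lit 19) (node (nat_lit 5) (nat_lit 96570)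
  (nat_lit 20) (node (nat_lit 4) (nat_lit 95191) (nat_lit 21) (node (nat_lit 6) (nat_lit 93867)
  (nat_lit 22) (node (nat_lit 4) (nat_lit 90453) (nat_lit 23) (node (nat_lit 5) (nat_lit 87351)
  (nat_lit 24) (node (nat_lit 4) (nat_lit 87476) (nat_lit 25) (node (nat_lit 6) (nat_lit 87465)
  (nat_lit 26) (node (nat_lit 5) (nat_lit 87496) (nat_lit 27) (node (nat_lit 6) (nat_lit 87542)
  (nat_lit 28) (node (nat_lit 4) (nat_lit 87580) (nat_lit 29) (node (nat_lit 5) (nat_lit 87576)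
  (nat_lit 30) nil nil) nil) nil) nil) nil) nil) nil) nil) nil) nil) nil) nil) nil) nil) nil)
  (node (nat_lit 0) (nat_lit 97772) (nat_lit 15) nil nil))) (node (nat_lit 6) (nat_lit 95725)
  (nat_lit 14) (node (nat_lit 5) (nat_lit 98359) (nat_lit 15) (node (nat_lit 4) (nat_lit 100472)
  (nat_lit 16) (node (nat_lit 5) (nat_lit 101793) (nat_lit 17) (node (nat_lit 6) (nat_lit 102506)
  (nat_lit 18) (node (nat_lit 5) (nat_lit 103060) (nat_lit 19) (node (nat_lit 4) (nat_lit 103171)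
  (nat_lit 20) (node (nat_lit 6) (nat_lit 103335) (nat_lit 21) (node (nat_lit 4) (nat_lit 97361)
  (nat_lit 22) (node (nat_lit 5) (nat_lit 92226) (nat_lit 23) (node (nat_lit 4) (nat_lit 74506)
  (nat_lit 24) (node (nat_lit 6) (nat_lit 74625) (nat_lit 25) (node (nat_lit 5) (nat_lit 74634)
  (nat_lit 26) (node (nat_lit 6) (nat_lit 62764) (nat_lit 27) (node (nat_lit 4) (nat_lit 62781)
  (nat_lit 28) nil nil) nil) nil) nil) nil) nil) nil) nil) nil) nil) nil) (node (nat_lit 6)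
  (nat_lit 101875) (nat_lit 17) (node (nat_lit 4) (nat_lit 101108) (nat_lit 18) nil nil) nil))
  nil) nil) (node (nat_lit 0) (nat_lit 98001) (nat_lit 14) nil nil))) (node (nat_lit 0) (nat_lit
  95012) (nat_lit 13) nil nil)) (node (nat_lit 4) (nat_lit 0) (nat_lit 12) (node (nat_lit 5)
  (nat_lit 0) (nat_lit 13) (node (nat_lit 6) (nat_lit 0) (nat_lit 14) (node (nat_lit 5) (nat_lit
  0) (nat_lit 15) (node (nat_lit 4) (nat_lit 79448) (nat_lit 16) (node (nat_lit 6) (nat_lit 80643)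
  (nat_lit 17) (node (nat_lit 4) (nat_lit 61350) (nat_lit 18) (node (nat_lit 5) (nat_lit 60965)
  (nat_lit 19) (node (nat_lit 4) (nat_lit 60821) (nat_lit 20) (node (nat_lit 6) (nat_lit 60874)
  (nat_lit 21) nil nil) nil) nil) (node (nat_lit 5) (nat_lit 80636) (nat_lit 18) nil nil)) nil)
  (node (nat_lit 0) (nat_lit 89389) (nat_lit 16) nil nil)) (node (nat_lit 4) (nat_lit 98705)
  (nat_lit 15) (node (nat_lit 6) (nat_lit 99734) (nat_lit 16) (node (nat_lit 5) (nat_lit 100547)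
  (nat_lit 17) (node (nat_lit 4) (nat_lit 99246) (nat_lit 18) nil nil) nil) (node (nat_lit 5)
  (nat_lit 99646) (nat_lit 16) nil nil)) (node (nat_lit 0) (nat_lit 99361) (nat_lit 15) nil nil)))
  (node (nat_lit 0) (nat_lit 98554) (nat_lit 14) nil nil)) (node (nat_lit 0) (nat_lit 96683)
  (nat_lit 13) nil nil)) (node (nat_lit 0) (nat_lit 95291) (nat_lit 12) nil nil))) (node (nat_lit
  0) (nat_lit 90843) (nat_lit 11) nil nil)) (node (nat_lit 0) (nat_lit 85913) (nat_lit 10) (node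
  (nat_lit 5) (nat_lit 86212) (nat_lit 11) nil (node (nat_lit 6) (nat_lit 85913) (nat_lit 11) nil
  nil)) nil)) (node (nat_lit 0) (nat_lit 78837) (nat_lit 9) (node (nat_lit 6) (nat_lit 80148)
  (nat_lit 10) (node (nat_lit 5) (nat_lit 82677) (nat_lit 11) (node (nat_lit 4) (nat_lit 85508)
  (nat_lit 12) nil (node (nat_lit 6) (nat_lit 84485) (nat_lit 12) nil nil)) (node (nat_lit 4)
  (nat_lit 82427) (nat_lit 11) (node (nat_lit 5) (nat_lit 84060) (nat_lit 12) nil (node (nat_lit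
  6) (nat_lit 83218) (nat_lit 12) nil nil)) nil)) (node (nat_lit 4) (nat_lit 79493) (nat_lit 10)
  (node (nat_lit 5) (nat_lit 82129) (nat_lit 11) (node (nat_lit 6) (nat_lit 83925) (nat_lit 12)
  nil (node (nat_lit 4) (nat_lit 84129) (nat_lit 12) nil nil)) (node (nat_lit 6) (nat_lit 82069)
  (nat_lit 11) (node (nat_lit 5) (nat_lit 85903) (nat_lit 12) nil (node (nat_lit 4) (nat_lit
  84306) (nat_lit 12) nil nil)) nil)) (node (nat_lit 5) (nat_lit 79975) (nat_lit 10) (node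
  (nat_lit 4) (nat_lit 82240) (nat_lit 11) (node (nat_lit 6) (nat_lit 86134) (nat_lit 12) nil
  (node (nat_lit 5) (nat_lit 85457) (nat_lit 12) nil nil)) (node (nat_lit 6) (nat_lit 82501)
  (nat_lit 11) (node (nat_lit 4) (nat_lit 84491) (nat_lit 12) (node (nat_lit 6) (nat_lit 84697)
  (nat_lit 13) nil nil) (node (nat_lit 5) (nat_lit 82501) (nat_lit 12) nil nil)) nil)) nil)))
  nil))) nil) (node (nat_lit 5) (nat_lit 0) (nat_lit 7) (node (nat_lit 6) (nat_lit 0) (nat_lit 8)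
  (node (nat_lit 4) (nat_lit 0) (nat_lit 9) (node (nat_lit 5) (nat_lit 0) (nat_lit 10) (node
  (nat_lit 4) (nat_lit 0) (nat_lit 11) (node (nat_lit 6) (nat_lit 0) (nat_lit 12) (node (nat_lit
  5) (nat_lit 0) (nat_lit 13) (node (nat_lit 4) (nat_lit 0) (nat_lit 14) (node (nat_lit 5)
  (nat_lit 0) (nat_lit 15) (node (nat_lit 6) (nat_lit 0) (nat_lit 16) (node (nat_lit 5) (nat_lit
  111657) (nat_lit 17) (node (nat_lit 4) (nat_lit 101926) (nat_lit 18) (node (nat_lit 6) (nat_lit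
  102665) (nat_lit 19) (node (nat_lit 5) (nat_lit 94041) (nat_lit 20) (node (nat_lit 6) (nat_lit
  94017) (nat_lit 21) (node (nat_lit 4) (nat_lit 94273) (nat_lit 22) (node (nat_lit 5) (nat_lit
  73462) (nat_lit 23) (node (nat_lit 4) (nat_lit 73407) (nat_lit 24) (node (nat_lit 6) (nat_lit
  73427) (nat_lit 25) nil nil) nil) nil) nil) nil) (node (nat_lit 4) (nat_lit 103396) (nat_lit 20)
  (node (nat_lit 5) (nat_lit 103899) (nat_lit 21) (node (nat_lit 6) (nat_lit 104131) (nat_lit 22)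
  nil nil) nil) nil)) nil) nil) (node (nat_lit 4) (nat_lit 110951) (nat_lit 17) (node (nat_lit 5)
  (nat_lit 111479) (nat_lit 18) nil (node (nat_lit 6) (nat_lit 111027) (nat_lit 18) nil nil))
  (node (nat_lit 0) (nat_lit 111971) (nat_lit 17) nil nil))) (node (nat_lit 0) (nat_lit 112255)
  (nat_lit 16) nil nil)) (node (nat_lit 0) (nat_lit 110466) (nat_lit 15) (node (nat_lit 5)
  (nat_lit 110466) (nat_lit 16) nil nil) nil)) (node (nat_lit 0) (nat_lit 109447) (nat_lit 14)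
  (node (nat_lit 5) (nat_lit 109447) (nat_lit 15) nil (node (nat_lit 6) (nat_lit 109447) (nat_lit
  15) nil (node (nat_lit 4) (nat_lit 109447) (nat_lit 15) nil nil))) (node (nat_lit 6) (nat_lit 0)
  (nat_lit 14) (node (nat_lit 0) (nat_lit 109398) (nat_lit 15) nil nil) nil))) (node (nat_lit 4)
  (nat_lit 0) (nat_lit 13) (node (nat_lit 5) (nat_lit 0) (nat_lit 14) (node (nat_lit 6) (nat_lit
  107647) (nat_lit 15) (node (nat_lit 5) (nat_lit 106687) (nat_lit 16) (node (nat_lit 4) (nat_lit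
  97242) (nat_lit 17) (node (nat_lit 6) (nat_lit 91115) (nat_lit 18) (node (nat_lit 5) (nat_lit
  86256) (nat_lit 19) (node (nat_lit 6) (nat_lit 86768) (nat_lit 20) (node (nat_lit 4) (nat_lit
  68447) (nat_lit 21) (node (nat_lit 5) (nat_lit 68385) (nat_lit 22) (node (nat_lit 4) (nat_lit
  40465) (nat_lit 23) nil nil) nil) nil) nil) (node (nat_lit 4) (nat_lit 91699) (nat_lit 19) (node
  (nat_lit 5) (nat_lit 91743) (nat_lit 20) nil nil) nil)) (node (nat_lit 5) (nat_lit 98387)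
  (nat_lit 18) (node (nat_lit 6) (nat_lit 99193) (nat_lit 19) (node (nat_lit 4) (nat_lit 99514)
  (nat_lit 20) nil nil) nil) nil)) nil) (node (nat_lit 4) (nat_lit 108817) (nat_lit 16) (node
  (nat_lit 6) (nat_lit 108906) (nat_lit 17) nil nil) nil)) (node (nat_lit 0) (nat_lit 107771)
  (nat_lit 15) nil nil)) (node (nat_lit 0) (nat_lit 106484) (nat_lit 14) nil nil)) (node (nat_lit
  0) (nat_lit 105617) (nat_lit 13) nil nil))) (node (nat_lit 0) (nat_lit 102403) (nat_lit 12) nil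
  nil)) (node (nat_lit 6) (nat_lit 0) (nat_lit 11) (node (nat_lit 5) (nat_lit 0) (nat_lit 12)
  (node (nat_lit 4) (nat_lit 0) (nat_lit 13) (node (nat_lit 6) (nat_lit 0) (nat_lit 14) (node
  (nat_lit 4) (nat_lit 79587) (nat_lit 15) (node (nat_lit 5) (nat_lit 81503) (nat_lit 16) (node
  (nat_lit 4) (nat_lit 82689) (nat_lit 17) (node (nat_lit 6) (nat_lit 83620) (nat_lit 18) (node
  (nat_lit 5) (nat_lit 84286) (nat_lit 19) nil nil) nil) (node (nat_lit 6) (nat_lit 82070)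
  (nat_lit 17) nil nil)) nil) (node (nat_lit 5) (nat_lit 37556) (nat_lit 15) nil (node (nat_lit 0)
  (nat_lit 80363) (nat_lit 15) nil nil))) (node (nat_lit 5) (nat_lit 77188) (nat_lit 14) (node
  (nat_lit 6) (nat_lit 79399) (nat_lit 15) (node (nat_lit 4) (nat_lit 80882) (nat_lit 16) (node
  (nat_lit 5) (nat_lit 81556) (nat_lit 17) nil (node (nat_lit 6) (nat_lit 81389) (nat_lit 17)
  (node (nat_lit 5) (nat_lit 80485) (nat_lit 18) nil nil) nil)) nil) nil) (node (nat_lit 0)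
  (nat_lit 77855) (nat_lit 14) nil nil))) (node (nat_lit 0) (nat_lit 78711) (nat_lit 13) nil nil))
  (node (nat_lit 0) (nat_lit 76452) (nat_lit 12) (node (nat_lit 4) (nat_lit 76452) (nat_lit 13)
  nil (node (nat_lit 5) (nat_lit 76452) (nat_lit 13) nil nil)) nil)) (node (nat_lit 0) (nat_lit
  98282) (nat_lit 11) (node (nat_lit 5) (nat_lit 98282) (nat_lit 12) nil (node (nat_lit 6)
  (nat_lit 98282) (nat_lit 12) nil (node (nat_lit 4) (nat_lit 98282) (nat_lit 12) nil nil)))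
  nil))) (node (nat_lit 6) (nat_lit 0) (nat_lit 10) (node (nat_lit 5) (nat_lit 0) (nat_lit 11)
  (node (nat_lit 4) (nat_lit 112529) (nat_lit 12) (node (nat_lit 5) (nat_lit 115778) (nat_lit 13)
  (node (nat_lit 6) (nat_lit 113412) (nat_lit 14) (node (nat_lit 4) (nat_lit 115761) (nat_lit 15)
  (node (nat_lit 5) (nat_lit 118098) (nat_lit 16) (node (nat_lit 4) (nat_lit 119680) (nat_lit 17)
  (node (nat_lit 6) (nat_lit 120500) (nat_lit 18) (node (nat_lit 4) (nat_lit 121185) (nat_lit 19)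
  (node (nat_lit 5) (nat_lit 121229) (nat_lit 20) (node (nat_lit 6) (nat_lit 121132) (nat_lit 21)
  (node (nat_lit 5) (nat_lit 121018) (nat_lit 22) (node (nat_lit 4) (nat_lit 120957) (nat_lit 23)
  (node (nat_lit 6) (nat_lit 119737) (nat_lit 24) (node (nat_lit 5) (nat_lit 119082) (nat_lit 25)
  (node (nat_lit 6) (nat_lit 116826) (nat_lit 26) (node (nat_lit 4) (nat_lit 113631) (nat_lit 27)
  (node (nat_lit 6) (nat_lit 110194) (nat_lit 28) (node (nat_lit 5) (nat_lit 102059) (nat_lit 29)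
  (node (nat_lit 4) (nat_lit 98292) (nat_lit 30) (node (nat_lit 5) (nat_lit 98298) (nat_lit 31)
  nil nil) nil) nil) nil) nil) nil) nil) nil) nil) nil) nil) nil) (node (nat_lit 5) (nat_lit
  120508) (nat_lit 19) (node (nat_lit 4) (nat_lit 120994) (nat_lit 20) (node (nat_lit 5) (nat_lit
  120975) (nat_lit 21) nil nil) nil) nil)) nil) nil) nil) (node (nat_lit 5) (nat_lit 111070)
  (nat_lit 15) (node (nat_lit 4) (nat_lit 107849) (nat_lit 16) (node (nat_lit 6) (nat_lit 96305)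
  (nat_lit 17) (node (nat_lit 5) (nat_lit 86631) (nat_lit 18) (node (nat_lit 6) (nat_lit 86709)
  (nat_lit 19) (node (nat_lit 4) (nat_lit 86802) (nat_lit 20) (node (nat_lit 6) (nat_lit 86941)
  (nat_lit 21) nil nil) nil) nil) (node (nat_lit 4) (nat_lit 97383) (nat_lit 18) (node (nat_lit 5)
  (nat_lit 97498) (nat_lit 19) nil nil) nil)) nil) nil) nil)) nil) (node (nat_lit 6) (nat_lit
  116920) (nat_lit 13) (node (nat_lit 4) (nat_lit 119652) (nat_lit 14) (node (nat_lit 5) (nat_lit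
  120632) (nat_lit 15) (node (nat_lit 6) (nat_lit 119662) (nat_lit 16) (node (nat_lit 5) (nat_lit
  117332) (nat_lit 17) (node (nat_lit 4) (nat_lit 113334) (nat_lit 18) (node (nat_lit 6) (nat_lit
  94022) (nat_lit 19) (node (nat_lit 5) (nat_lit 94016) (nat_lit 20) (node (nat_lit 6) (nat_lit
  94364) (nat_lit 21) (node (nat_lit 4) (nat_lit 94672) (nat_lit 22) (node (nat_lit 6) (nat_lit
  81719) (nat_lit 23) (node (nat_lit 5) (nat_lit 36429) (nat_lit 24) (node (nat_lit 4) (nat_lit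
  36452) (nat_lit 25) nil nil) nil) nil) nil) nil) nil) nil) nil) nil) nil) nil) nil) nil)) (node
  (nat_lit 0) (nat_lit 111754) (nat_lit 12) nil nil)) (node (nat_lit 0) (nat_lit 109219) (nat_lit
  11) nil nil)) (node (nat_lit 0) (nat_lit 110926) (nat_lit 10) (node (nat_lit 5) (nat_lit 110926)
  (nat_lit 11) nil (node (nat_lit 6) (nat_lit 110926) (nat_lit 11) nil nil)) nil))) (node (nat_lit
  0) (nat_lit 105300) (nat_lit 9) (node (nat_lit 5) (nat_lit 105300) (nat_lit 10) nil (node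
  (nat_lit 4) (nat_lit 105300) (nat_lit 10) nil (node (nat_lit 6) (nat_lit 105300) (nat_lit 10)
  nil nil))) nil)) nil) nil))

noncomputable def t285 : Tr :=
  (node (nat_lit 4) (nat_lit 0) (nat_lit 4) (node (nat_lit 5) (nat_lit 0) (nat_lit 5) (node
  (nat_lit 4) (nat_lit 0) (nat_lit 6) (node (nat_lit 6) (nat_lit 0) (nat_lit 7) (node (nat_lit 4)
  (nat_lit 0) (nat_lit 8) t281 (node (nat_lit 5) (nat_lit 0) (nat_lit 8) (node (nat_lit 4)
  (nat_lit 0) (nat_lit 9) (node (nat_lit 5) (nat_lit 0) (nat_lit 10) (node (nat_lit 6) (nat_lit 0)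
  (nat_lit 11) (node (nat_lit 4) (nat_lit 0) (nat_lit 12) (node (nat_lit 6) (nat_lit 0) (nat_lit
  13) (node (nat_lit 5) (nat_lit 0) (nat_lit 14) (node (nat_lit 6) (nat_lit 40957) (nat_lit 15)
  (node (nat_lit 4) (nat_lit 42029) (nat_lit 16) (node (nat_lit 5) (nat_lit 42836) (nat_lit 17)
  (node (nat_lit 4) (nat_lit 43504) (nat_lit 18) (node (nat_lit 6) (nat_lit 44024) (nat_lit 19)
  (node (nat_lit 5) (nat_lit 43633) (nat_lit 20) nil (node (nat_lit 4) (nat_lit 44167) (nat_lit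
  20) nil nil)) nil) (node (nat_lit 6) (nat_lit 42804) (nat_lit 18) nil nil)) nil) nil) (node
  (nat_lit 4) (nat_lit 40772) (nat_lit 15) (node (nat_lit 6) (nat_lit 41782) (nat_lit 16) (node
  (nat_lit 4) (nat_lit 42355) (nat_lit 17) (node (nat_lit 5) (nat_lit 42589) (nat_lit 18) nil nil)
  nil) (node (nat_lit 5) (nat_lit 40532) (nat_lit 16) nil nil)) (node (nat_lit 0) (nat_lit 41315)
  (nat_lit 15) nil nil))) (node (nat_lit 0) (nat_lit 42022) (nat_lit 14) nil nil)) (node (nat_lit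
  5) (nat_lit 0) (nat_lit 13) (node (nat_lit 0) (nat_lit 18266) (nat_lit 14) nil nil) (node
  (nat_lit 0) (nat_lit 40826) (nat_lit 13) (node (nat_lit 4) (nat_lit 40826) (nat_lit 14) nil
  (node (nat_lit 6) (nat_lit 40826) (nat_lit 14) nil (node (nat_lit 5) (nat_lit 40826) (nat_lit
  14) nil nil))) nil))) (node (nat_lit 5) (nat_lit 0) (nat_lit 12) (node (nat_lit 4) (nat_lit 0)
  (nat_lit 13) (node (nat_lit 6) (nat_lit 39943) (nat_lit 14) (node (nat_lit 5) (nat_lit 41278)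
  (nat_lit 15) (node (nat_lit 6) (nat_lit 42265) (nat_lit 16) (node (nat_lit 4) (nat_lit 42393)
  (nat_lit 17) (node (nat_lit 5) (nat_lit 42627) (nat_lit 18) nil nil) nil) nil) (node (nat_lit 4)
  (nat_lit 41490) (nat_lit 15) (node (nat_lit 5) (nat_lit 42533) (nat_lit 16) (node (nat_lit 4)
  (nat_lit 43386) (nat_lit 17) (node (nat_lit 6) (nat_lit 44055) (nat_lit 18) (node (nat_lit 5)
  (nat_lit 44495) (nat_lit 19) (node (nat_lit 4) (nat_lit 44799) (nat_lit 20) (node (nat_lit 5)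
  (nat_lit 45019) (nat_lit 21) (node (nat_lit 6) (nat_lit 45227) (nat_lit 22) nil nil) nil) nil)
  nil) nil) (node (nat_lit 6) (nat_lit 42483) (nat_lit 17) nil nil)) nil) nil)) (node (nat_lit 0)
  (nat_lit 40957) (nat_lit 14) nil nil)) (node (nat_lit 0) (nat_lit 40461) (nat_lit 13) nil nil))
  (node (nat_lit 0) (nat_lit 39161) (nat_lit 12) (node (nat_lit 5) (nat_lit 39161) (nat_lit 13)
  nil (node (nat_lit 6) (nat_lit 39161) (nat_lit 13) nil (node (nat_lit 4) (nat_lit 39161)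
  (nat_lit 13) nil nil))) nil))) (node (nat_lit 0) (nat_lit 36957) (nat_lit 11) (node (nat_lit 4)
  (nat_lit 37496) (nat_lit 12) (node (nat_lit 6) (nat_lit 38171) (nat_lit 13) (node (nat_lit 5)
  (nat_lit 38669) (nat_lit 14) nil nil) (node (nat_lit 5) (nat_lit 38240) (nat_lit 13) (node
  (nat_lit 6) (nat_lit 38240) (nat_lit 14) nil (node (nat_lit 4) (nat_lit 38240) (nat_lit 14) nil
  nil)) nil)) (node (nat_lit 6) (nat_lit 36971) (nat_lit 12) (node (nat_lit 4) (nat_lit 37059)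
  (nat_lit 13) (node (nat_lit 5) (nat_lit 36662) (nat_lit 14) nil (node (nat_lit 6) (nat_lit
  37059) (nat_lit 14) nil nil)) (node (nat_lit 5) (nat_lit 37644) (nat_lit 13) (node (nat_lit 6)
  (nat_lit 37644) (nat_lit 14) nil (node (nat_lit 4) (nat_lit 37644) (nat_lit 14) nil nil)) nil))
  (node (nat_lit 5) (nat_lit 36519) (nat_lit 12) (node (nat_lit 4) (nat_lit 36519) (nat_lit 13)
  nil (node (nat_lit 6) (nat_lit 36519) (nat_lit 13) nil nil)) (node (nat_lit 0) (nat_lit 37449)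
  (nat_lit 12) nil nil)))) nil)) (node (nat_lit 0) (nat_lit 0) (nat_lit 10) (node (nat_lit 5)
  (nat_lit 41724) (nat_lit 11) (node (nat_lit 4) (nat_lit 42124) (nat_lit 12) (node (nat_lit 5)
  (nat_lit 42124) (nat_lit 13) nil (node (nat_lit 6) (nat_lit 42124) (nat_lit 13) nil nil)) (node
  (nat_lit 6) (nat_lit 41680) (nat_lit 12) (node (nat_lit 4) (nat_lit 41680) (nat_lit 13) nil nil)
  (node (nat_lit 13) (nat_lit 42847) (nat_lit 12) nil nil))) (node (nat_lit 6) (nat_lit 41504)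
  (nat_lit 11) (node (nat_lit 4) (nat_lit 41903) (nat_lit 12) (node (nat_lit 5) (nat_lit 41903)
  (nat_lit 13) nil (node (nat_lit 6) (nat_lit 41903) (nat_lit 13) nil nil)) (node (nat_lit 5)
  (nat_lit 42368) (nat_lit 12) (node (nat_lit 4) (nat_lit 42368) (nat_lit 13) nil nil) (node
  (nat_lit 13) (nat_lit 42626) (nat_lit 12) nil nil))) (node (nat_lit 4) (nat_lit 41504) (nat_lit
  11) (node (nat_lit 5) (nat_lit 42455) (nat_lit 12) (node (nat_lit 6) (nat_lit 42455) (nat_lit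
  13) nil nil) (node (nat_lit 6) (nat_lit 42368) (nat_lit 12) (node (nat_lit 5) (nat_lit 42368)
  (nat_lit 13) nil nil) nil)) (node (nat_lit 0) (nat_lit 42084) (nat_lit 11) nil nil)))) nil))
  (node (nat_lit 6) (nat_lit 0) (nat_lit 9) (node (nat_lit 4) (nat_lit 0) (nat_lit 10) (node
  (nat_lit 6) (nat_lit 0) (nat_lit 11) (node (nat_lit 5) (nat_lit 0) (nat_lit 12) (node (nat_lit
  4) (nat_lit 56096) (nat_lit 13) (node (nat_lit 5) (nat_lit 57024) (nat_lit 14) (node (nat_lit 6)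
  (nat_lit 56986) (nat_lit 15) (node (nat_lit 4) (nat_lit 53871) (nat_lit 16) (node (nat_lit 6)
  (nat_lit 53584) (nat_lit 17) nil (node (nat_lit 5) (nat_lit 39395) (nat_lit 17) (node (nat_lit
  4) (nat_lit 40009) (nat_lit 18) (node (nat_lit 6) (nat_lit 33194) (nat_lit 19) (node (nat_lit 5)
  (nat_lit 33424) (nat_lit 20) (node (nat_lit 6) (nat_lit 22382) (nat_lit 21) nil nil) (node
  (nat_lit 4) (nat_lit 33337) (nat_lit 20) nil nil)) nil) nil) nil)) (node (nat_lit 5) (nat_lit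
  58108) (nat_lit 16) (node (nat_lit 4) (nat_lit 58825) (nat_lit 17) (node (nat_lit 6) (nat_lit
  59245) (nat_lit 18) nil nil) nil) nil)) nil) (node (nat_lit 6) (nat_lit 57752) (nat_lit 14)
  (node (nat_lit 4) (nat_lit 58694) (nat_lit 15) (node (nat_lit 5) (nat_lit 58856) (nat_lit 16)
  nil nil) nil) nil)) (node (nat_lit 0) (nat_lit 58001) (nat_lit 13) nil nil)) (node (nat_lit 0)
  (nat_lit 56837) (nat_lit 12) nil nil)) (node (nat_lit 5) (nat_lit 0) (nat_lit 11) (node (nat_lit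
  6) (nat_lit 0) (nat_lit 12) (node (nat_lit 5) (nat_lit 0) (nat_lit 13) (node (nat_lit 4)
  (nat_lit 0) (nat_lit 14) (node (nat_lit 5) (nat_lit 59998) (nat_lit 15) (node (nat_lit 6)
  (nat_lit 60382) (nat_lit 16) (node (nat_lit 4) (nat_lit 59827) (nat_lit 17) (node (nat_lit 6)
  (nat_lit 60334) (nat_lit 18) (node (nat_lit 5) (nat_lit 59823) (nat_lit 19) nil nil) (node
  (nat_lit 5) (nat_lit 47434) (nat_lit 18) (node (nat_lit 4) (nat_lit 40038) (nat_lit 19) (node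
  (nat_lit 6) (nat_lit 40312) (nat_lit 20) (node (nat_lit 5) (nat_lit 40446) (nat_lit 21) (node
  (nat_lit 6) (nat_lit 40568) (nat_lit 22) (node (nat_lit 4) (nat_lit 40701) (nat_lit 23) nil nil)
  nil) nil) nil) nil) nil)) nil) nil) (node (nat_lit 6) (nat_lit 59998) (nat_lit 15) (node
  (nat_lit 4) (nat_lit 60382) (nat_lit 16) (node (nat_lit 5) (nat_lit 60682) (nat_lit 17) nil nil)
  (node (nat_lit 5) (nat_lit 60382) (nat_lit 16) (node (nat_lit 6) (nat_lit 60682) (nat_lit 17)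
  nil nil) nil)) (node (nat_lit 0) (nat_lit 60335) (nat_lit 15) nil nil))) (node (nat_lit 0)
  (nat_lit 60682) (nat_lit 14) nil nil)) (node (nat_lit 0) (nat_lit 59035) (nat_lit 13) nil nil))
  (node (nat_lit 0) (nat_lit 57431) (nat_lit 12) nil (node (nat_lit 4) (nat_lit 0) (nat_lit 12)
  (node (nat_lit 0) (nat_lit 58966) (nat_lit 13) nil nil) nil))) (node (nat_lit 0) (nat_lit 54956)
  (nat_lit 11) (node (nat_lit 4) (nat_lit 54956) (nat_lit 12) nil (node (nat_lit 5) (nat_lit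
  54956) (nat_lit 12) nil (node (nat_lit 6) (nat_lit 54956) (nat_lit 12) nil nil))) nil))) (node
  (nat_lit 0) (nat_lit 51592) (nat_lit 10) (node (nat_lit 4) (nat_lit 51962) (nat_lit 11) (node
  (nat_lit 6) (nat_lit 51962) (nat_lit 12) nil (node (nat_lit 5) (nat_lit 51962) (nat_lit 12) nil
  nil)) (node (nat_lit 5) (nat_lit 51386) (nat_lit 11) (node (nat_lit 6) (nat_lit 51386) (nat_lit
  12) nil (node (nat_lit 4) (nat_lit 51386) (nat_lit 12) nil nil)) (node (nat_lit 6) (nat_lit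
  51972) (nat_lit 11) (node (nat_lit 5) (nat_lit 51972) (nat_lit 12) nil (node (nat_lit 4)
  (nat_lit 51972) (nat_lit 12) nil nil)) nil))) nil)) (node (nat_lit 0) (nat_lit 47144) (nat_lit
  9) (node (nat_lit 5) (nat_lit 48817) (nat_lit 10) (node (nat_lit 6) (nat_lit 49119) (nat_lit 11)
  (node (nat_lit 4) (nat_lit 48429) (nat_lit 12) nil nil) (node (nat_lit 4) (nat_lit 49985)
  (nat_lit 11) (node (nat_lit 6) (nat_lit 49985) (nat_lit 12) nil nil) nil)) (node (nat_lit 4)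
  (nat_lit 48568) (nat_lit 10) (node (nat_lit 6) (nat_lit 50057) (nat_lit 11) (node (nat_lit 5)
  (nat_lit 50875) (nat_lit 12) nil nil) (node (nat_lit 5) (nat_lit 48968) (nat_lit 11) (node
  (nat_lit 6) (nat_lit 48968) (nat_lit 12) nil nil) nil)) (node (nat_lit 6) (nat_lit 48521)
  (nat_lit 10) (node (nat_lit 4) (nat_lit 48626) (nat_lit 11) (node (nat_lit 5) (nat_lit 48626)
  (nat_lit 12) nil nil) (node (nat_lit 5) (nat_lit 49424) (nat_lit 11) (node (nat_lit 4) (nat_lit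
  50244) (nat_lit 12) nil nil) nil)) nil))) nil))) nil)) nil) nil) (node (nat_lit 6) (nat_lit 0)
  (nat_lit 5) (node (nat_lit 5) (nat_lit 0) (nat_lit 6) t283 nil) nil)) (node (nat_lit 5) (nat_lit
  0) (nat_lit 4) (node (nat_lit 4) (nat_lit 0) (nat_lit 5) (node (nat_lit 6) (nat_lit 0) (nat_lit
  6) t284 (node (nat_lit 5) (nat_lit 0) (nat_lit 6) (node (nat_lit 6) (nat_lit 0) (nat_lit 7)
  (node (nat_lit 4) (nat_lit 0) (nat_lit 8) (node (nat_lit 6) (nat_lit 0) (nat_lit 9) (node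
  (nat_lit 5) (nat_lit 0) (nat_lit 10) (node (nat_lit 4) (nat_lit 0) (nat_lit 11) (node (nat_lit
  6) (nat_lit 0) (nat_lit 12) (node (nat_lit 4) (nat_lit 0) (nat_lit 13) (node (nat_lit 5)
  (nat_lit 0) (nat_lit 14) (node (nat_lit 4) (nat_lit 89706) (nat_lit 15) (node (nat_lit 6)
  (nat_lit 89706) (nat_lit 16) (node (nat_lit 5) (nat_lit 89706) (nat_lit 17) (node (nat_lit 6)
  (nat_lit 89706) (nat_lit 18) (node (nat_lit 4) (nat_lit 89706) (nat_lit 19) (node (nat_lit 5)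
  (nat_lit 89706) (nat_lit 20) (node (nat_lit 6) (nat_lit 89706) (nat_lit 21) (node (nat_lit 5)
  (nat_lit 89706) (nat_lit 22) (node (nat_lit 4) (nat_lit 89706) (nat_lit 23) (node (nat_lit 5)
  (nat_lit 89706) (nat_lit 24) (node (nat_lit 6) (nat_lit 89706) (nat_lit 25) (node (nat_lit 4)
  (nat_lit 89706) (nat_lit 26) (node (nat_lit 6) (nat_lit 89706) (nat_lit 27) (node (nat_lit 5)
  (nat_lit 89706) (nat_lit 28) (node (nat_lit 4) (nat_lit 89706) (nat_lit 29) (node (nat_lit 6)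
  (nat_lit 80685) (nat_lit 30) (node (nat_lit 4) (nat_lit 61833) (nat_lit 31) (node (nat_lit 5)
  (nat_lit 59234) (nat_lit 32) (node (nat_lit 4) (nat_lit 7068) (nat_lit 33) nil nil) nil) nil)
  nil) nil) nil) nil) nil) nil) nil) nil) nil) nil) nil) nil) (node (nat_lit 4) (nat_lit 89706)
  (nat_lit 18) (node (nat_lit 5) (nat_lit 89706) (nat_lit 19) (node (nat_lit 6) (nat_lit 89706)
  (nat_lit 20) (node (nat_lit 5) (nat_lit 89706) (nat_lit 21) (node (nat_lit 4) (nat_lit 89706)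
  (nat_lit 22) nil nil) nil) nil) nil) nil)) nil) nil) (node (nat_lit 6) (nat_lit 89706) (nat_lit
  15) (node (nat_lit 5) (nat_lit 89706) (nat_lit 16) (node (nat_lit 4) (nat_lit 89706) (nat_lit
  17) (node (nat_lit 5) (nat_lit 83957) (nat_lit 18) (node (nat_lit 6) (nat_lit 79073) (nat_lit
  19) (node (nat_lit 4) (nat_lit 63824) (nat_lit 20) (node (nat_lit 6) (nat_lit 51205) (nat_lit
  21) (node (nat_lit 5) (nat_lit 51336) (nat_lit 22) nil nil) nil) nil) nil) nil) nil) (node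
  (nat_lit 4) (nat_lit 89706) (nat_lit 16) (node (nat_lit 6) (nat_lit 89706) (nat_lit 17) (node
  (nat_lit 5) (nat_lit 89706) (nat_lit 18) nil nil) nil) nil)) (node (nat_lit 0) (nat_lit 89706)
  (nat_lit 15) nil nil))) (node (nat_lit 0) (nat_lit 89706) (nat_lit 14) nil nil)) (node (nat_lit
  0) (nat_lit 89706) (nat_lit 13) nil nil)) (node (nat_lit 5) (nat_lit 0) (nat_lit 12) (node
  (nat_lit 6) (nat_lit 0) (nat_lit 13) (node (nat_lit 5) (nat_lit 89706) (nat_lit 14) (node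
  (nat_lit 4) (nat_lit 89706) (nat_lit 15) (node (nat_lit 6) (nat_lit 89706) (nat_lit 16) (node
  (nat_lit 5) (nat_lit 89706) (nat_lit 17) (node (nat_lit 6) (nat_lit 89706) (nat_lit 18) (node
  (nat_lit 4) (nat_lit 89706) (nat_lit 19) (node (nat_lit 5) (nat_lit 89706) (nat_lit 20) (node
  (nat_lit 6) (nat_lit 89706) (nat_lit 21) (node (nat_lit 5) (nat_lit 89706) (nat_lit 22) (node
  (nat_lit 4) (nat_lit 89706) (nat_lit 23) (node (nat_lit 5) (nat_lit 89706) (nat_lit 24) (node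
  (nat_lit 6) (nat_lit 89706) (nat_lit 25) (node (nat_lit 4) (nat_lit 89706) (nat_lit 26) (node
  (nat_lit 6) (nat_lit 89706) (nat_lit 27) (node (nat_lit 5) (nat_lit 89706) (nat_lit 28) (node
  (nat_lit 4) (nat_lit 89706) (nat_lit 29) nil nil) nil) nil) nil) nil) nil) nil) nil) nil) nil)
  nil) nil) (node (nat_lit 4) (nat_lit 89706) (nat_lit 17) (node (nat_lit 5) (nat_lit 89706)
  (nat_lit 18) (node (nat_lit 6) (nat_lit 89706) (nat_lit 19) (node (nat_lit 5) (nat_lit 89706)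
  (nat_lit 20) (node (nat_lit 4) (nat_lit 89706) (nat_lit 21) (node (nat_lit 5) (nat_lit 89706)
  (nat_lit 22) (node (nat_lit 6) (nat_lit 89706) (nat_lit 23) (node (nat_lit 4) (nat_lit 89706)
  (nat_lit 24) (node (nat_lit 6) (nat_lit 89706) (nat_lit 25) (node (nat_lit 5) (nat_lit 81661)
  (nat_lit 26) (node (nat_lit 4) (nat_lit 75671) (nat_lit 27) nil nil) nil) nil) nil) nil) nil)
  nil) nil) nil) nil) nil)) nil) nil) (node (nat_lit 0) (nat_lit 89706) (nat_lit 14) nil nil))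
  (node (nat_lit 0) (nat_lit 89706) (nat_lit 13) nil nil)) (node (nat_lit 0) (nat_lit 89706)
  (nat_lit 12) nil nil))) (node (nat_lit 6) (nat_lit 0) (nat_lit 11) (node (nat_lit 4) (nat_lit 0)
  (nat_lit 12) (node (nat_lit 5) (nat_lit 0) (nat_lit 13) (node (nat_lit 4) (nat_lit 89706)
  (nat_lit 14) (node (nat_lit 6) (nat_lit 89706) (nat_lit 15) (node (nat_lit 4) (nat_lit 89706)
  (nat_lit 16) (node (nat_lit 5) (nat_lit 89706) (nat_lit 17) (node (nat_lit 6) (nat_lit 89706)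
  (nat_lit 18) (node (nat_lit 5) (nat_lit 89706) (nat_lit 19) (node (nat_lit 4) (nat_lit 89706)
  (nat_lit 20) (node (nat_lit 5) (nat_lit 89706) (nat_lit 21) (node (nat_lit 6) (nat_lit 89706)
  (nat_lit 22) (node (nat_lit 4) (nat_lit 89706) (nat_lit 23) (node (nat_lit 6) (nat_lit 83662)
  (nat_lit 24) (node (nat_lit 5) (nat_lit 83777) (nat_lit 25) (node (nat_lit 6) (nat_lit 53224)
  (nat_lit 26) (node (nat_lit 4) (nat_lit 46832) (nat_lit 27) (node (nat_lit 5) (nat_lit 46808)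
  (nat_lit 28) nil nil) nil) nil) nil) nil) nil) nil) nil) nil) nil) nil) nil) (node (nat_lit 5)
  (nat_lit 89706) (nat_lit 16) (node (nat_lit 4) (nat_lit 89706) (nat_lit 17) (node (nat_lit 5)
  (nat_lit 89706) (nat_lit 18) (node (nat_lit 6) (nat_lit 89706) (nat_lit 19) (node (nat_lit 5)
  (nat_lit 89706) (nat_lit 20) (node (nat_lit 4) (nat_lit 89706) (nat_lit 21) nil nil) nil) nil)
  nil) nil) nil)) nil) (node (nat_lit 6) (nat_lit 89706) (nat_lit 14) (node (nat_lit 5) (nat_lit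
  89706) (nat_lit 15) (node (nat_lit 4) (nat_lit 84816) (nat_lit 16) (node (nat_lit 5) (nat_lit
  58130) (nat_lit 17) (node (nat_lit 6) (nat_lit 58423) (nat_lit 18) (node (nat_lit 4) (nat_lit
  58651) (nat_lit 19) (node (nat_lit 6) (nat_lit 58830) (nat_lit 20) nil nil) nil) nil) (node
  (nat_lit 6) (nat_lit 85005) (nat_lit 17) nil nil)) nil) nil) (node (nat_lit 0) (nat_lit 89706)
  (nat_lit 14) nil nil))) (node (nat_lit 0) (nat_lit 89706) (nat_lit 13) nil nil)) (node (nat_lit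
  0) (nat_lit 89706) (nat_lit 12) nil nil)) (node (nat_lit 0) (nat_lit 89706) (nat_lit 11) nil
  nil))) (node (nat_lit 0) (nat_lit 89706) (nat_lit 10) (node (nat_lit 5) (nat_lit 89706) (nat_lit
  11) (node (nat_lit 6) (nat_lit 89706) (nat_lit 12) nil (node (nat_lit 4) (nat_lit 89706)
  (nat_lit 12) nil nil)) (node (nat_lit 4) (nat_lit 89706) (nat_lit 11) (node (nat_lit 6) (nat_lit
  89706) (nat_lit 12) nil (node (nat_lit 5) (nat_lit 89706) (nat_lit 12) nil nil)) (node (nat_lit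
  6) (nat_lit 89706) (nat_lit 11) (node (nat_lit 4) (nat_lit 89706) (nat_lit 12) nil (node
  (nat_lit 5) (nat_lit 89706) (nat_lit 12) nil nil)) nil))) nil)) (node (nat_lit 5) (nat_lit 0)
  (nat_lit 9) (node (nat_lit 4) (nat_lit 0) (nat_lit 10) (node (nat_lit 6) (nat_lit 0) (nat_lit
  11) (node (nat_lit 5) (nat_lit 0) (nat_lit 12) (node (nat_lit 6) (nat_lit 0) (nat_lit 13) (node
  (nat_lit 4) (nat_lit 0) (nat_lit 14) (node (nat_lit 5) (nat_lit 89706) (nat_lit 15) (node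
  (nat_lit 6) (nat_lit 89706) (nat_lit 16) (node (nat_lit 5) (nat_lit 89706) (nat_lit 17) (node
  (nat_lit 4) (nat_lit 89706) (nat_lit 18) (node (nat_lit 5) (nat_lit 89706) (nat_lit 19) (node
  (nat_lit 6) (nat_lit 82388) (nat_lit 20) (node (nat_lit 4) (nat_lit 69205) (nat_lit 21) (node
  (nat_lit 5) (nat_lit 58629) (nat_lit 22) (node (nat_lit 4) (nat_lit 58704) (nat_lit 23) (node
  (nat_lit 6) (nat_lit 58762) (nat_lit 24) nil nil) nil) nil) nil) nil) nil) nil) nil) (node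
  (nat_lit 4) (nat_lit 89706) (nat_lit 16) nil nil)) (node (nat_lit 6) (nat_lit 89706) (nat_lit
  15) (node (nat_lit 5) (nat_lit 89706) (nat_lit 16) (node (nat_lit 4) (nat_lit 89706) (nat_lit
  17) (node (nat_lit 5) (nat_lit 89706) (nat_lit 18) (node (nat_lit 6) (nat_lit 89706) (nat_lit
  19) (node (nat_lit 5) (nat_lit 89706) (nat_lit 20) (node (nat_lit 4) (nat_lit 89706) (nat_lit
  21) nil nil) nil) nil) (node (nat_lit 6) (nat_lit 89706) (nat_lit 18) (node (nat_lit 4) (nat_lit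
  89706) (nat_lit 19) (node (nat_lit 5) (nat_lit 89706) (nat_lit 20) nil nil) nil) nil)) nil) nil)
  (node (nat_lit 0) (nat_lit 89706) (nat_lit 15) nil nil))) (node (nat_lit 0) (nat_lit 89706)
  (nat_lit 14) nil nil)) (node (nat_lit 4) (nat_lit 89706) (nat_lit 13) (node (nat_lit 5) (nat_lit
  89706) (nat_lit 14) (node (nat_lit 6) (nat_lit 89706) (nat_lit 15) (node (nat_lit 5) (nat_lit
  89706) (nat_lit 16) (node (nat_lit 4) (nat_lit 89706) (nat_lit 17) (node (nat_lit 6) (nat_lit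
  89706) (nat_lit 18) (node (nat_lit 4) (nat_lit 89706) (nat_lit 19) nil nil) nil) nil) (node
  (nat_lit 4) (nat_lit 89706) (nat_lit 16) (node (nat_lit 6) (nat_lit 89706) (nat_lit 17) (node
  (nat_lit 5) (nat_lit 89706) (nat_lit 18) nil nil) nil) nil)) nil) nil) (node (nat_lit 0)
  (nat_lit 89706) (nat_lit 13) nil nil))) (node (nat_lit 4) (nat_lit 0) (nat_lit 12) (node
  (nat_lit 5) (nat_lit 0) (nat_lit 13) (node (nat_lit 6) (nat_lit 89706) (nat_lit 14) (node
  (nat_lit 4) (nat_lit 89706) (nat_lit 15) (node (nat_lit 6) (nat_lit 89706) (nat_lit 16) (node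
  (nat_lit 5) (nat_lit 89706) (nat_lit 17) (node (nat_lit 4) (nat_lit 89706) (nat_lit 18) (node
  (nat_lit 5) (nat_lit 89706) (nat_lit 19) (node (nat_lit 6) (nat_lit 89706) (nat_lit 20) (node
  (nat_lit 5) (nat_lit 89706) (nat_lit 21) (node (nat_lit 4) (nat_lit 89706) (nat_lit 22) nil nil)
  nil) nil) nil) nil) nil) nil) (node (nat_lit 5) (nat_lit 84933) (nat_lit 15) (node (nat_lit 4)
  (nat_lit 85892) (nat_lit 16) (node (nat_lit 5) (nat_lit 86754) (nat_lit 17) (node (nat_lit 6)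
  (nat_lit 87506) (nat_lit 18) (node (nat_lit 4) (nat_lit 50847) (nat_lit 19) (node (nat_lit 5)
  (nat_lit 51135) (nat_lit 20) nil nil) nil) nil) (node (nat_lit 6) (nat_lit 86231) (nat_lit 17)
  nil nil)) nil) nil)) (node (nat_lit 0) (nat_lit 89706) (nat_lit 14) nil nil)) (node (nat_lit 0)
  (nat_lit 89706) (nat_lit 13) nil nil)) (node (nat_lit 0) (nat_lit 89706) (nat_lit 12) (node
  (nat_lit 6) (nat_lit 89706) (nat_lit 13) nil (node (nat_lit 5) (nat_lit 89706) (nat_lit 13) nil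
  nil)) nil))) (node (nat_lit 0) (nat_lit 89706) (nat_lit 11) (node (nat_lit 4) (nat_lit 89706)
  (nat_lit 12) (node (nat_lit 5) (nat_lit 89706) (nat_lit 13) nil (node (nat_lit 6) (nat_lit
  89706) (nat_lit 13) nil nil)) (node (nat_lit 5) (nat_lit 89706) (nat_lit 12) (node (nat_lit 4)
  (nat_lit 89706) (nat_lit 13) (node (nat_lit 6) (nat_lit 89706) (nat_lit 14) nil nil) (node
  (nat_lit 6) (nat_lit 89706) (nat_lit 13) nil nil)) (node (nat_lit 6) (nat_lit 89706) (nat_lit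
  12) (node (nat_lit 4) (nat_lit 89706) (nat_lit 13) nil (node (nat_lit 5) (nat_lit 89706)
  (nat_lit 13) (node (nat_lit 4) (nat_lit 89706) (nat_lit 14) nil nil) nil)) nil))) nil)) (node
  (nat_lit 0) (nat_lit 89706) (nat_lit 10) (node (nat_lit 4) (nat_lit 89706) (nat_lit 11) (node
  (nat_lit 5) (nat_lit 89706) (nat_lit 12) (node (nat_lit 6) (nat_lit 89706) (nat_lit 13) nil nil)
  (node (nat_lit 6) (nat_lit 89706) (nat_lit 12) (node (nat_lit 5) (nat_lit 89706) (nat_lit 13)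
  nil nil) nil)) (node (nat_lit 6) (nat_lit 89706) (nat_lit 11) (node (nat_lit 5) (nat_lit 89706)
  (nat_lit 12) nil (node (nat_lit 4) (nat_lit 89706) (nat_lit 12) nil nil)) (node (nat_lit 5)
  (nat_lit 89706) (nat_lit 11) (node (nat_lit 4) (nat_lit 89706) (nat_lit 12) (node (nat_lit 6)
  (nat_lit 89706) (nat_lit 13) nil nil) (node (nat_lit 6) (nat_lit 89706) (nat_lit 12) (node
  (nat_lit 4) (nat_lit 89706) (nat_lit 13) nil nil) nil)) (node (nat_lit 0) (nat_lit 89706)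
  (nat_lit 11) nil nil)))) nil)) (node (nat_lit 0) (nat_lit 89706) (nat_lit 9) (node (nat_lit 5)
  (nat_lit 89706) (nat_lit 10) (node (nat_lit 6) (nat_lit 89706) (nat_lit 11) (node (nat_lit 4)
  (nat_lit 89706) (nat_lit 12) nil nil) (node (nat_lit 4) (nat_lit 89706) (nat_lit 11) (node
  (nat_lit 6) (nat_lit 89706) (nat_lit 12) nil nil) nil)) (node (nat_lit 4) (nat_lit 89706)
  (nat_lit 10) (node (nat_lit 5) (nat_lit 89706) (nat_lit 11) (node (nat_lit 6) (nat_lit 89706)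
  (nat_lit 12) nil nil) (node (nat_lit 6) (nat_lit 89706) (nat_lit 11) (node (nat_lit 5) (nat_lit
  89706) (nat_lit 12) nil nil) nil)) (node (nat_lit 6) (nat_lit 89706) (nat_lit 10) (node (nat_lit
  5) (nat_lit 89706) (nat_lit 11) nil (node (nat_lit 4) (nat_lit 89706) (nat_lit 11) nil nil))
  nil))) nil))) nil) nil) nil)) nil) nil))

noncomputable def t286 : Tr :=
  (node (nat_lit 4) (nat_lit 0) (nat_lit 10) (node (nat_lit 5) (nat_lit 0) (nat_lit 11) (node
  (nat_lit 7) (nat_lit 0) (nat_lit 12) (node (nat_lit 4) (nat_lit 0) (nat_lit 13) (node (nat_lit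
  5) (nat_lit 0) (nat_lit 14) (node (nat_lit 4) (nat_lit 0) (nat_lit 15) (node (nat_lit 7)
  (nat_lit 0) (nat_lit 16) (node (nat_lit 4) (nat_lit 0) (nat_lit 17) (node (nat_lit 5) (nat_lit
  72629) (nat_lit 18) (node (nat_lit 7) (nat_lit 73269) (nat_lit 19) (node (nat_lit 5) (nat_lit
  73455) (nat_lit 20) nil nil) nil) (node (nat_lit 0) (nat_lit 72622) (nat_lit 18) nil nil)) (node
  (nat_lit 5) (nat_lit 0) (nat_lit 17) (node (nat_lit 7) (nat_lit 0) (nat_lit 18) (node (nat_lit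
  4) (nat_lit 53125) (nat_lit 19) (node (nat_lit 7) (nat_lit 42017) (nat_lit 20) (node (nat_lit 5)
  (nat_lit 42098) (nat_lit 21) (node (nat_lit 4) (nat_lit 42199) (nat_lit 22) nil nil) nil) (node
  (nat_lit 5) (nat_lit 53434) (nat_lit 20) nil nil)) (node (nat_lit 0) (nat_lit 53196) (nat_lit
  19) nil nil)) (node (nat_lit 4) (nat_lit 68983) (nat_lit 18) (node (nat_lit 5) (nat_lit 69705)
  (nat_lit 19) (node (nat_lit 7) (nat_lit 70236) (nat_lit 20) (node (nat_lit 5) (nat_lit 70380)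
  (nat_lit 21) nil nil) nil) nil) (node (nat_lit 0) (nat_lit 69566) (nat_lit 18) nil nil))) (node
  (nat_lit 0) (nat_lit 72927) (nat_lit 17) nil nil))) (node (nat_lit 0) (nat_lit 75371) (nat_lit
  16) (node (nat_lit 5) (nat_lit 75371) (nat_lit 17) nil nil) nil)) (node (nat_lit 0) (nat_lit
  73924) (nat_lit 15) (node (nat_lit 4) (nat_lit 73924) (nat_lit 16) nil (node (nat_lit 5)
  (nat_lit 73924) (nat_lit 16) nil (node (nat_lit 7) (nat_lit 73924) (nat_lit 16) nil nil))) nil))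
  (node (nat_lit 7) (nat_lit 0) (nat_lit 14) (node (nat_lit 5) (nat_lit 0) (nat_lit 15) (node
  (nat_lit 7) (nat_lit 0) (nat_lit 16) (node (nat_lit 4) (nat_lit 74324) (nat_lit 17) (node
  (nat_lit 5) (nat_lit 74939) (nat_lit 18) (node (nat_lit 7) (nat_lit 75426) (nat_lit 19) nil
  (node (nat_lit 4) (nat_lit 75497) (nat_lit 19) (node (nat_lit 7) (nat_lit 75996) (nat_lit 20)
  (node (nat_lit 5) (nat_lit 76324) (nat_lit 21) (node (nat_lit 7) (nat_lit 69223) (nat_lit 22)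
  (node (nat_lit 4) (nat_lit 66057) (nat_lit 23) (node (nat_lit 7) (nat_lit 64930) (nat_lit 24)
  (node (nat_lit 5) (nat_lit 64974) (nat_lit 25) (node (nat_lit 4) (nat_lit 65041) (nat_lit 26)
  (node (nat_lit 5) (nat_lit 65109) (nat_lit 27) (node (nat_lit 7) (nat_lit 65164) (nat_lit 28)
  (node (nat_lit 4) (nat_lit 65180) (nat_lit 29) nil nil) nil) nil) nil) nil) nil) nil) nil) nil)
  nil) nil)) nil) (node (nat_lit 0) (nat_lit 74406) (nat_lit 17) nil nil)) (node (nat_lit 0)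
  (nat_lit 74796) (nat_lit 16) nil nil)) (node (nat_lit 0) (nat_lit 73877) (nat_lit 15) (node
  (nat_lit 4) (nat_lit 73877) (nat_lit 16) nil (node (nat_lit 5) (nat_lit 73877) (nat_lit 16) nil
  (node (nat_lit 7) (nat_lit 73877) (nat_lit 16) nil nil))) nil)) (node (nat_lit 0) (nat_lit
  72043) (nat_lit 14) (node (nat_lit 7) (nat_lit 72078) (nat_lit 15) (node (nat_lit 4) (nat_lit
  72078) (nat_lit 16) nil (node (nat_lit 5) (nat_lit 72078) (nat_lit 16) nil nil)) (node (nat_lit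
  4) (nat_lit 72075) (nat_lit 15) (node (nat_lit 7) (nat_lit 72075) (nat_lit 16) nil (node
  (nat_lit 5) (nat_lit 72075) (nat_lit 16) nil nil)) (node (nat_lit 5) (nat_lit 72043) (nat_lit
  15) (node (nat_lit 4) (nat_lit 72043) (nat_lit 16) nil (node (nat_lit 7) (nat_lit 72043)
  (nat_lit 16) nil nil)) nil))) nil))) (node (nat_lit 5) (nat_lit 0) (nat_lit 13) (node (nat_lit
  4) (nat_lit 0) (nat_lit 14) (node (nat_lit 7) (nat_lit 0) (nat_lit 15) (node (nat_lit 4)
  (nat_lit 0) (nat_lit 16) (node (nat_lit 5) (nat_lit 74801) (nat_lit 17) (node (nat_lit 4)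
  (nat_lit 75671) (nat_lit 18) (node (nat_lit 7) (nat_lit 76098) (nat_lit 19) (node (nat_lit 5)
  (nat_lit 76560) (nat_lit 20) (node (nat_lit 7) (nat_lit 75781) (nat_lit 21) (node (nat_lit 4)
  (nat_lit 71190) (nat_lit 22) (node (nat_lit 7) (nat_lit 62411) (nat_lit 23) (node (nat_lit 5)
  (nat_lit 52854) (nat_lit 24) (node (nat_lit 4) (nat_lit 45121) (nat_lit 25) (node (nat_lit 5)
  (nat_lit 33729) (nat_lit 26) (node (nat_lit 7) (nat_lit 33774) (nat_lit 27) nil nil) nil) nil)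
  nil) nil) nil) nil) nil) nil) (node (nat_lit 7) (nat_lit 75540) (nat_lit 18) (node (nat_lit 5)
  (nat_lit 75814) (nat_lit 19) nil (node (nat_lit 4) (nat_lit 75776) (nat_lit 19) nil nil)) nil))
  (node (nat_lit 0) (nat_lit 74617) (nat_lit 17) nil nil)) (node (nat_lit 5) (nat_lit 0) (nat_lit
  16) (node (nat_lit 7) (nat_lit 0) (nat_lit 17) (node (nat_lit 4) (nat_lit 75885) (nat_lit 18)
  (node (nat_lit 5) (nat_lit 76454) (nat_lit 19) (node (nat_lit 4) (nat_lit 76677) (nat_lit 20)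
  (node (nat_lit 7) (nat_lit 74114) (nat_lit 21) (node (nat_lit 5) (nat_lit 73750) (nat_lit 22)
  nil nil) nil) (node (nat_lit 7) (nat_lit 76640) (nat_lit 20) nil nil)) (node (nat_lit 7)
  (nat_lit 76122) (nat_lit 19) nil nil)) (node (nat_lit 0) (nat_lit 76577) (nat_lit 18) nil nil))
  (node (nat_lit 0) (nat_lit 76388) (nat_lit 17) (node (nat_lit 5) (nat_lit 76388) (nat_lit 18)
  nil (node (nat_lit 7) (nat_lit 76388) (nat_lit 18) nil nil)) nil)) (node (nat_lit 0) (nat_lit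
  72984) (nat_lit 16) nil nil))) (node (nat_lit 0) (nat_lit 73658) (nat_lit 15) nil nil)) (node
  (nat_lit 0) (nat_lit 72140) (nat_lit 14) (node (nat_lit 7) (nat_lit 72140) (nat_lit 15) nil
  (node (nat_lit 5) (nat_lit 72140) (nat_lit 15) nil nil)) nil)) (node (nat_lit 0) (nat_lit 69605)
  (nat_lit 13) (node (nat_lit 7) (nat_lit 69520) (nat_lit 14) (node (nat_lit 5) (nat_lit 69753)
  (nat_lit 15) (node (nat_lit 7) (nat_lit 69753) (nat_lit 16) nil nil) (node (nat_lit 4) (nat_lit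
  69409) (nat_lit 15) nil nil)) (node (nat_lit 5) (nat_lit 69872) (nat_lit 14) (node (nat_lit 7)
  (nat_lit 70111) (nat_lit 15) (node (nat_lit 5) (nat_lit 70111) (nat_lit 16) nil nil) (node
  (nat_lit 4) (nat_lit 69872) (nat_lit 15) nil nil)) (node (nat_lit 4) (nat_lit 70210) (nat_lit
  14) (node (nat_lit 7) (nat_lit 70449) (nat_lit 15) (node (nat_lit 5) (nat_lit 70449) (nat_lit
  16) nil nil) (node (nat_lit 5) (nat_lit 70210) (nat_lit 15) nil nil)) nil))) nil))) (node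
  (nat_lit 0) (nat_lit 66608) (nat_lit 12) (node (nat_lit 4) (nat_lit 67398) (nat_lit 13) (node
  (nat_lit 5) (nat_lit 67398) (nat_lit 14) nil (node (nat_lit 7) (nat_lit 67398) (nat_lit 14)
  (node (nat_lit 5) (nat_lit 67398) (nat_lit 15) nil nil) nil)) (node (nat_lit 5) (nat_lit 66945)
  (nat_lit 13) (node (nat_lit 4) (nat_lit 68097) (nat_lit 14) (node (nat_lit 7) (nat_lit 68079)
  (nat_lit 15) nil nil) (node (nat_lit 7) (nat_lit 67297) (nat_lit 14) (node (nat_lit 5) (nat_lit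
  67297) (nat_lit 15) nil (node (nat_lit 4) (nat_lit 67297) (nat_lit 15) nil nil)) nil)) (node
  (nat_lit 7) (nat_lit 66497) (nat_lit 13) (node (nat_lit 5) (nat_lit 66497) (nat_lit 14) nil
  (node (nat_lit 4) (nat_lit 66497) (nat_lit 14) nil nil)) nil))) nil)) (node (nat_lit 7) (nat_lit
  0) (nat_lit 11) (node (nat_lit 4) (nat_lit 0) (nat_lit 12) (node (nat_lit 5) (nat_lit 0)
  (nat_lit 13) (node (nat_lit 7) (nat_lit 0) (nat_lit 14) (node (nat_lit 5) (nat_lit 0) (nat_lit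
  15) (node (nat_lit 4) (nat_lit 73507) (nat_lit 16) (node (nat_lit 5) (nat_lit 74623) (nat_lit
  17) (node (nat_lit 7) (nat_lit 75497) (nat_lit 18) (node (nat_lit 4) (nat_lit 76048) (nat_lit
  19) (node (nat_lit 5) (nat_lit 74904) (nat_lit 20) (node (nat_lit 4) (nat_lit 75053) (nat_lit
  21) (node (nat_lit 7) (nat_lit 74581) (nat_lit 22) (node (nat_lit 5) (nat_lit 74492) (nat_lit
  23) (node (nat_lit 7) (nat_lit 73484) (nat_lit 24) (node (nat_lit 4) (nat_lit 72101) (nat_lit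
  25) (node (nat_lit 7) (nat_lit 70151) (nat_lit 26) (node (nat_lit 5) (nat_lit 67348) (nat_lit
  27) (node (nat_lit 4) (nat_lit 61057) (nat_lit 28) (node (nat_lit 7) (nat_lit 53617) (nat_lit
  29) (node (nat_lit 4) (nat_lit 53629) (nat_lit 30) (node (nat_lit 5) (nat_lit 53627) (nat_lit
  31) nil nil) nil) nil) nil) nil) nil) nil) nil) nil) nil) nil) nil) nil) nil) (node (nat_lit 7)
  (nat_lit 75025) (nat_lit 17) (node (nat_lit 5) (nat_lit 76094) (nat_lit 18) (node (nat_lit 7)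
  (nat_lit 76875) (nat_lit 19) (node (nat_lit 4) (nat_lit 77416) (nat_lit 20) (node (nat_lit 5)
  (nat_lit 77709) (nat_lit 21) (node (nat_lit 4) (nat_lit 76618) (nat_lit 22) (node (nat_lit 7)
  (nat_lit 76238) (nat_lit 23) nil nil) nil) nil) nil) nil) nil) nil)) (node (nat_lit 0) (nat_lit
  74197) (nat_lit 16) nil nil)) (node (nat_lit 4) (nat_lit 0) (nat_lit 15) (node (nat_lit 7)
  (nat_lit 0) (nat_lit 16) (node (nat_lit 5) (nat_lit 73958) (nat_lit 17) (node (nat_lit 7)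
  (nat_lit 74847) (nat_lit 18) (node (nat_lit 4) (nat_lit 75540) (nat_lit 19) (node (nat_lit 5)
  (nat_lit 75915) (nat_lit 20) (node (nat_lit 4) (nat_lit 74562) (nat_lit 21) (node (nat_lit 7)
  (nat_lit 74135) (nat_lit 22) nil nil) nil) nil) nil) (node (nat_lit 4) (nat_lit 74762) (nat_lit
  18) (node (nat_lit 5) (nat_lit 74842) (nat_lit 19) nil nil) nil)) (node (nat_lit 0) (nat_lit
  74708) (nat_lit 17) nil nil)) (node (nat_lit 0) (nat_lit 72684) (nat_lit 16) nil nil)) (node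
  (nat_lit 0) (nat_lit 73586) (nat_lit 15) nil nil))) (node (nat_lit 4) (nat_lit 0) (nat_lit 14)
  (node (nat_lit 7) (nat_lit 0) (nat_lit 15) (node (nat_lit 5) (nat_lit 0) (nat_lit 16) (node
  (nat_lit 4) (nat_lit 0) (nat_lit 17) (node (nat_lit 5) (nat_lit 59243) (nat_lit 18) (node
  (nat_lit 7) (nat_lit 59861) (nat_lit 19) (node (nat_lit 5) (nat_lit 60074) (nat_lit 20) nil
  (node (nat_lit 4) (nat_lit 60290) (nat_lit 20) (node (nat_lit 5) (nat_lit 60576) (nat_lit 21)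
  (node (nat_lit 4) (nat_lit 60774) (nat_lit 22) (node (nat_lit 7) (nat_lit 59064) (nat_lit 23)
  nil nil) nil) (node (nat_lit 7) (nat_lit 60435) (nat_lit 21) nil nil)) nil)) nil) (node (nat_lit
  0) (nat_lit 59183) (nat_lit 18) nil nil)) (node (nat_lit 7) (nat_lit 0) (nat_lit 17) (node
  (nat_lit 4) (nat_lit 0) (nat_lit 18) (node (nat_lit 5) (nat_lit 0) (nat_lit 19) (node (nat_lit
  7) (nat_lit 34563) (nat_lit 20) (node (nat_lit 5) (nat_lit 34855) (nat_lit 21) (node (nat_lit 4)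
  (nat_lit 35037) (nat_lit 22) (node (nat_lit 5) (nat_lit 34973) (nat_lit 23) nil (node (nat_lit
  7) (nat_lit 34912) (nat_lit 23) nil nil)) nil) nil) (node (nat_lit 4) (nat_lit 34592) (nat_lit
  20) (node (nat_lit 7) (nat_lit 34948) (nat_lit 21) (node (nat_lit 4) (nat_lit 35200) (nat_lit
  22) (node (nat_lit 5) (nat_lit 35340) (nat_lit 23) nil nil) nil) nil) (node (nat_lit 0) (nat_lit
  34668) (nat_lit 20) nil nil))) (node (nat_lit 7) (nat_lit 33638) (nat_lit 19) (node (nat_lit 5)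
  (nat_lit 33866) (nat_lit 20) nil nil) (node (nat_lit 0) (nat_lit 34797) (nat_lit 19) nil nil)))
  (node (nat_lit 0) (nat_lit 34359) (nat_lit 18) nil nil)) (node (nat_lit 0) (nat_lit 58887)
  (nat_lit 17) nil nil))) (node (nat_lit 0) (nat_lit 64543) (nat_lit 16) nil nil)) (node (nat_lit
  0) (nat_lit 66428) (nat_lit 15) nil nil)) (node (nat_lit 0) (nat_lit 72188) (nat_lit 14) (node
  (nat_lit 5) (nat_lit 72188) (nat_lit 15) nil (node (nat_lit 4) (nat_lit 72188) (nat_lit 15) nil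
  (node (nat_lit 7) (nat_lit 72188) (nat_lit 15) nil nil))) nil))) (node (nat_lit 0) (nat_lit
  69569) (nat_lit 13) (node (nat_lit 7) (nat_lit 69484) (nat_lit 14) (node (nat_lit 4) (nat_lit
  70242) (nat_lit 15) (node (nat_lit 5) (nat_lit 70318) (nat_lit 16) nil (node (nat_lit 7)
  (nat_lit 70236) (nat_lit 16) nil nil)) (node (nat_lit 5) (nat_lit 69717) (nat_lit 15) nil nil))
  (node (nat_lit 5) (nat_lit 69836) (nat_lit 14) (node (nat_lit 4) (nat_lit 69836) (nat_lit 15)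
  nil (node (nat_lit 7) (nat_lit 69836) (nat_lit 15) nil nil)) (node (nat_lit 4) (nat_lit 70189)
  (nat_lit 14) (node (nat_lit 7) (nat_lit 70428) (nat_lit 15) (node (nat_lit 5) (nat_lit 70428)
  (nat_lit 16) nil nil) (node (nat_lit 5) (nat_lit 70836) (nat_lit 15) (node (nat_lit 7) (nat_lit
  70836) (nat_lit 16) nil nil) nil)) nil))) nil)) (node (nat_lit 0) (nat_lit 66498) (nat_lit 12)
  (node (nat_lit 4) (nat_lit 67287) (nat_lit 13) (node (nat_lit 7) (nat_lit 67827) (nat_lit 14)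
  (node (nat_lit 5) (nat_lit 67915) (nat_lit 15) (node (nat_lit 7) (nat_lit 68415) (nat_lit 16)
  nil nil) (node (nat_lit 4) (nat_lit 68502) (nat_lit 15) (node (nat_lit 5) (nat_lit 69001)
  (nat_lit 16) nil nil) nil)) (node (nat_lit 5) (nat_lit 67985) (nat_lit 14) (node (nat_lit 4)
  (nat_lit 68659) (nat_lit 15) nil (node (nat_lit 7) (nat_lit 67985) (nat_lit 15) nil nil)) nil))
  (node (nat_lit 7) (nat_lit 67144) (nat_lit 13) (node (nat_lit 4) (nat_lit 68596) (nat_lit 14)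
  (node (nat_lit 5) (nat_lit 69803) (nat_lit 15) (node (nat_lit 7) (nat_lit 70303) (nat_lit 16)
  nil nil) (node (nat_lit 7) (nat_lit 68988) (nat_lit 15) nil nil)) (node (nat_lit 5) (nat_lit
  68793) (nat_lit 14) (node (nat_lit 4) (nat_lit 70000) (nat_lit 15) (node (nat_lit 5) (nat_lit
  69602) (nat_lit 16) nil (node (nat_lit 7) (nat_lit 70500) (nat_lit 16) nil nil)) (node (nat_lit
  7) (nat_lit 70114) (nat_lit 15) nil nil)) (node (nat_lit 0) (nat_lit 68032) (nat_lit 14) nil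
  nil))) (node (nat_lit 5) (nat_lit 67361) (nat_lit 13) (node (nat_lit 7) (nat_lit 67582) (nat_lit
  14) (node (nat_lit 5) (nat_lit 68569) (nat_lit 15) (node (nat_lit 4) (nat_lit 68165) (nat_lit
  16) nil nil) (node (nat_lit 4) (nat_lit 67582) (nat_lit 15) nil nil)) (node (nat_lit 4) (nat_lit
  68248) (nat_lit 14) (node (nat_lit 7) (nat_lit 68248) (nat_lit 15) nil (node (nat_lit 5)
  (nat_lit 68922) (nat_lit 15) nil nil)) (node (nat_lit 15) (nat_lit 68249) (nat_lit 14) nil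
  nil))) (node (nat_lit 0) (nat_lit 67671) (nat_lit 13) nil nil)))) nil)) (node (nat_lit 0)
  (nat_lit 0) (nat_lit 11) (node (nat_lit 4) (nat_lit 64435) (nat_lit 12) (node (nat_lit 7)
  (nat_lit 66023) (nat_lit 13) (node (nat_lit 5) (nat_lit 67512) (nat_lit 14) (node (nat_lit 7)
  (nat_lit 68824) (nat_lit 15) nil (node (nat_lit 4) (nat_lit 66961) (nat_lit 15) nil nil)) (node
  (nat_lit 4) (nat_lit 67194) (nat_lit 14) (node (nat_lit 5) (nat_lit 67832) (nat_lit 15) nil nil)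
  nil)) (node (nat_lit 5) (nat_lit 66491) (nat_lit 13) (node (nat_lit 7) (nat_lit 67662) (nat_lit
  14) (node (nat_lit 4) (nat_lit 68300) (nat_lit 15) nil nil) (node (nat_lit 4) (nat_lit 67737)
  (nat_lit 14) nil nil)) (node (nat_lit 0) (nat_lit 67112) (nat_lit 13) nil nil))) (node (nat_lit
  5) (nat_lit 64388) (nat_lit 12) (node (nat_lit 4) (nat_lit 66279) (nat_lit 13) (node (nat_lit 7)
  (nat_lit 66235) (nat_lit 14) (node (nat_lit 4) (nat_lit 66873) (nat_lit 15) nil (node (nat_lit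
  5) (nat_lit 65702) (nat_lit 15) nil nil)) (node (nat_lit 5) (nat_lit 67976) (nat_lit 14) (node
  (nat_lit 7) (nat_lit 69288) (nat_lit 15) (node (nat_lit 4) (nat_lit 69788) (nat_lit 16) nil nil)
  nil) nil)) (node (nat_lit 7) (nat_lit 65116) (nat_lit 13) (node (nat_lit 5) (nat_lit 65689)
  (nat_lit 14) (node (nat_lit 4) (nat_lit 66283) (nat_lit 15) nil nil) (node (nat_lit 4) (nat_lit
  65980) (nat_lit 14) (node (nat_lit 7) (nat_lit 66619) (nat_lit 15) nil nil) nil)) (node (nat_lit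
  14) (nat_lit 67065) (nat_lit 13) nil nil))) (node (nat_lit 7) (nat_lit 64179) (nat_lit 12) (node
  (nat_lit 4) (nat_lit 65955) (nat_lit 13) (node (nat_lit 7) (nat_lit 66581) (nat_lit 14) (node
  (nat_lit 5) (nat_lit 67187) (nat_lit 15) (node (nat_lit 4) (nat_lit 66789) (nat_lit 16) nil
  (node (nat_lit 7) (nat_lit 66392) (nat_lit 16) nil nil)) nil) (node (nat_lit 5) (nat_lit 66050)
  (nat_lit 14) nil nil)) (node (nat_lit 5) (nat_lit 66007) (nat_lit 13) (node (nat_lit 7) (nat_lit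
  67704) (nat_lit 14) (node (nat_lit 4) (nat_lit 69016) (nat_lit 15) (node (nat_lit 5) (nat_lit
  69516) (nat_lit 16) nil nil) nil) (node (nat_lit 4) (nat_lit 66486) (nat_lit 14) (node (nat_lit
  7) (nat_lit 67106) (nat_lit 15) nil (node (nat_lit 5) (nat_lit 65953) (nat_lit 15) nil nil))
  nil)) (node (nat_lit 14) (nat_lit 66856) (nat_lit 13) nil nil))) (node (nat_lit 0) (nat_lit
  66436) (nat_lit 12) nil nil)))) nil))) (node (nat_lit 0) (nat_lit 58303) (nat_lit 10) (node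
  (nat_lit 4) (nat_lit 59989) (nat_lit 11) (node (nat_lit 7) (nat_lit 62474) (nat_lit 12) (node
  (nat_lit 5) (nat_lit 63178) (nat_lit 13) (node (nat_lit 4) (nat_lit 63929) (nat_lit 14) nil
  (node (nat_lit 7) (nat_lit 63996) (nat_lit 14) nil nil)) (node (nat_lit 4) (nat_lit 64257)
  (nat_lit 13) (node (nat_lit 5) (nat_lit 65171) (nat_lit 14) nil nil) nil)) (node (nat_lit 5)
  (nat_lit 62572) (nat_lit 12) (node (nat_lit 7) (nat_lit 64061) (nat_lit 13) (node (nat_lit 5)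
  (nat_lit 64879) (nat_lit 14) nil (node (nat_lit 4) (nat_lit 64879) (nat_lit 14) nil nil)) (node
  (nat_lit 4) (nat_lit 64624) (nat_lit 13) (node (nat_lit 7) (nat_lit 65925) (nat_lit 14) (node
  (nat_lit 4) (nat_lit 66564) (nat_lit 15) nil (node (nat_lit 5) (nat_lit 65392) (nat_lit 15) nil
  nil)) nil) nil)) (node (nat_lit 13) (nat_lit 65846) (nat_lit 12) nil nil))) (node (nat_lit 7)
  (nat_lit 59737) (nat_lit 11) (node (nat_lit 4) (nat_lit 61734) (nat_lit 12) (node (nat_lit 5)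
  (nat_lit 63720) (nat_lit 13) (node (nat_lit 7) (nat_lit 65403) (nat_lit 14) nil (node (nat_lit
  4) (nat_lit 63028) (nat_lit 14) nil nil)) (node (nat_lit 7) (nat_lit 62272) (nat_lit 13) (node
  (nat_lit 5) (nat_lit 63042) (nat_lit 14) (node (nat_lit 4) (nat_lit 62509) (nat_lit 15) nil
  (node (nat_lit 7) (nat_lit 62067) (nat_lit 15) nil nil)) nil) nil)) (node (nat_lit 5) (nat_lit
  62321) (nat_lit 12) (node (nat_lit 4) (nat_lit 62902) (nat_lit 13) (node (nat_lit 7) (nat_lit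
  63720) (nat_lit 14) nil nil) (node (nat_lit 7) (nat_lit 64720) (nat_lit 13) (node (nat_lit 4)
  (nat_lit 66403) (nat_lit 14) (node (nat_lit 5) (nat_lit 67042) (nat_lit 15) nil nil) nil) nil))
  (node (nat_lit 13) (nat_lit 64706) (nat_lit 12) nil nil))) (node (nat_lit 5) (nat_lit 59811)
  (nat_lit 11) (node (nat_lit 7) (nat_lit 62004) (nat_lit 12) (node (nat_lit 4) (nat_lit 62906)
  (nat_lit 13) nil (node (nat_lit 5) (nat_lit 63036) (nat_lit 13) nil nil)) (node (nat_lit 4)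
  (nat_lit 62581) (nat_lit 12) (node (nat_lit 7) (nat_lit 65049) (nat_lit 13) (node (nat_lit 4)
  (nat_lit 66733) (nat_lit 14) nil (node (nat_lit 5) (nat_lit 65224) (nat_lit 14) nil nil)) (node
  (nat_lit 5) (nat_lit 64363) (nat_lit 13) nil nil)) (node (nat_lit 0) (nat_lit 63241) (nat_lit
  12) nil nil))) (node (nat_lit 0) (nat_lit 62656) (nat_lit 11) (node (nat_lit 13) (nat_lit 63294)
  (nat_lit 12) nil nil) nil)))) nil))

noncomputable def t287 : Tr :=
  (node (nat_lit 7) (nat_lit 0) (nat_lit 6) (node (nat_lit 4) (nat_lit 0) (nat_lit 7) (node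
  (nat_lit 7) (nat_lit 0) (nat_lit 8) (node (nat_lit 5) (nat_lit 0) (nat_lit 9) t286 (node
  (nat_lit 0) (nat_lit 0) (nat_lit 9) (node (nat_lit 5) (nat_lit 53965) (nat_lit 10) (node
  (nat_lit 4) (nat_lit 57399) (nat_lit 11) (node (nat_lit 7) (nat_lit 61302) (nat_lit 12) (node
  (nat_lit 4) (nat_lit 63840) (nat_lit 13) (node (nat_lit 5) (nat_lit 64659) (nat_lit 14) nil nil)
  (node (nat_lit 5) (nat_lit 64327) (nat_lit 13) (node (nat_lit 7) (nat_lit 64542) (nat_lit 14)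
  (node (nat_lit 4) (nat_lit 65511) (nat_lit 15) nil nil) nil) nil)) (node (nat_lit 5) (nat_lit
  60480) (nat_lit 12) nil nil)) (node (nat_lit 7) (nat_lit 57148) (nat_lit 11) (node (nat_lit 4)
  (nat_lit 59459) (nat_lit 12) (node (nat_lit 7) (nat_lit 61816) (nat_lit 13) (node (nat_lit 5)
  (nat_lit 62586) (nat_lit 14) (node (nat_lit 4) (nat_lit 62053) (nat_lit 15) nil nil) nil) (node
  (nat_lit 5) (nat_lit 60613) (nat_lit 13) (node (nat_lit 4) (nat_lit 59921) (nat_lit 14) nil nil)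
  nil)) (node (nat_lit 5) (nat_lit 59970) (nat_lit 12) (node (nat_lit 4) (nat_lit 60307) (nat_lit
  13) nil nil) nil)) (node (nat_lit 12) (nat_lit 62533) (nat_lit 11) nil nil))) (node (nat_lit 4)
  (nat_lit 53503) (nat_lit 10) (node (nat_lit 5) (nat_lit 57077) (nat_lit 11) (node (nat_lit 7)
  (nat_lit 58818) (nat_lit 12) (node (nat_lit 4) (nat_lit 60771) (nat_lit 13) (node (nat_lit 7)
  (nat_lit 61589) (nat_lit 14) nil nil) (node (nat_lit 5) (nat_lit 61468) (nat_lit 13) (node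
  (nat_lit 4) (nat_lit 62219) (nat_lit 14) (node (nat_lit 7) (nat_lit 63223) (nat_lit 15) nil nil)
  nil) nil)) (node (nat_lit 4) (nat_lit 60176) (nat_lit 12) nil nil)) (node (nat_lit 7) (nat_lit
  56685) (nat_lit 11) (node (nat_lit 5) (nat_lit 61175) (nat_lit 12) (node (nat_lit 7) (nat_lit
  64454) (nat_lit 13) (node (nat_lit 4) (nat_lit 66137) (nat_lit 14) (node (nat_lit 5) (nat_lit
  66775) (nat_lit 15) nil nil) nil) (node (nat_lit 4) (nat_lit 62113) (nat_lit 13) nil nil)) (node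
  (nat_lit 4) (nat_lit 60587) (nat_lit 12) nil nil)) (node (nat_lit 12) (nat_lit 62125) (nat_lit
  11) nil nil))) (node (nat_lit 7) (nat_lit 53293) (nat_lit 10) (node (nat_lit 4) (nat_lit 56727)
  (nat_lit 11) (node (nat_lit 5) (nat_lit 61047) (nat_lit 12) (node (nat_lit 7) (nat_lit 63585)
  (nat_lit 13) (node (nat_lit 5) (nat_lit 64404) (nat_lit 14) nil nil) (node (nat_lit 4) (nat_lit
  63911) (nat_lit 13) (node (nat_lit 7) (nat_lit 65168) (nat_lit 14) nil nil) nil)) (node (nat_lit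
  7) (nat_lit 59297) (nat_lit 12) nil nil)) (node (nat_lit 5) (nat_lit 56867) (nat_lit 11) (node
  (nat_lit 4) (nat_lit 61055) (nat_lit 12) (node (nat_lit 5) (nat_lit 64366) (nat_lit 13) (node
  (nat_lit 7) (nat_lit 64676) (nat_lit 14) (node (nat_lit 4) (nat_lit 65294) (nat_lit 15) nil nil)
  nil) (node (nat_lit 7) (nat_lit 64513) (nat_lit 13) (node (nat_lit 4) (nat_lit 65331) (nat_lit
  14) nil nil) nil)) (node (nat_lit 7) (nat_lit 60481) (nat_lit 12) nil nil)) nil)) (node (nat_lit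
  0) (nat_lit 57138) (nat_lit 10) nil nil)))) nil)) (node (nat_lit 5) (nat_lit 0) (nat_lit 8)
  (node (nat_lit 7) (nat_lit 0) (nat_lit 9) (node (nat_lit 5) (nat_lit 0) (nat_lit 10) (node
  (nat_lit 4) (nat_lit 0) (nat_lit 11) (node (nat_lit 7) (nat_lit 0) (nat_lit 12) (node (nat_lit
  4) (nat_lit 0) (nat_lit 13) (node (nat_lit 5) (nat_lit 0) (nat_lit 14) (node (nat_lit 4)
  (nat_lit 60222) (nat_lit 15) (node (nat_lit 7) (nat_lit 58453) (nat_lit 16) (node (nat_lit 5)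
  (nat_lit 53673) (nat_lit 17) (node (nat_lit 7) (nat_lit 34226) (nat_lit 18) (node (nat_lit 4)
  (nat_lit 33422) (nat_lit 19) (node (nat_lit 5) (nat_lit 21851) (nat_lit 20) (node (nat_lit 7)
  (nat_lit 22081) (nat_lit 21) (node (nat_lit 5) (nat_lit 22260) (nat_lit 22) nil nil) (node
  (nat_lit 4) (nat_lit 22133) (nat_lit 21) (node (nat_lit 7) (nat_lit 22352) (nat_lit 22) nil nil)
  nil)) (node (nat_lit 7) (nat_lit 33606) (nat_lit 20) (node (nat_lit 5) (nat_lit 33501) (nat_lit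
  21) nil nil) nil)) nil) (node (nat_lit 4) (nat_lit 54088) (nat_lit 18) (node (nat_lit 5)
  (nat_lit 53916) (nat_lit 19) nil nil) nil)) nil) nil) (node (nat_lit 7) (nat_lit 59970) (nat_lit
  15) (node (nat_lit 4) (nat_lit 61361) (nat_lit 16) (node (nat_lit 7) (nat_lit 61747) (nat_lit
  17) (node (nat_lit 5) (nat_lit 61986) (nat_lit 18) nil nil) nil) (node (nat_lit 5) (nat_lit
  60470) (nat_lit 16) nil nil)) (node (nat_lit 0) (nat_lit 61499) (nat_lit 15) nil nil))) (node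
  (nat_lit 0) (nat_lit 60229) (nat_lit 14) nil nil)) (node (nat_lit 5) (nat_lit 0) (nat_lit 13)
  (node (nat_lit 7) (nat_lit 0) (nat_lit 14) (node (nat_lit 4) (nat_lit 0) (nat_lit 15) (node
  (nat_lit 5) (nat_lit 60956) (nat_lit 16) (node (nat_lit 4) (nat_lit 61210) (nat_lit 17) (node
  (nat_lit 7) (nat_lit 61859) (nat_lit 18) (node (nat_lit 5) (nat_lit 62277) (nat_lit 19) (node
  (nat_lit 7) (nat_lit 62724) (nat_lit 20) nil nil) (node (nat_lit 4) (nat_lit 60909) (nat_lit 19)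
  nil nil)) nil) nil) (node (nat_lit 7) (nat_lit 61086) (nat_lit 16) (node (nat_lit 5) (nat_lit
  61971) (nat_lit 17) (node (nat_lit 4) (nat_lit 62275) (nat_lit 18) (node (nat_lit 5) (nat_lit
  62103) (nat_lit 19) nil nil) nil) nil) (node (nat_lit 0) (nat_lit 61085) (nat_lit 16) nil nil)))
  (node (nat_lit 0) (nat_lit 61321) (nat_lit 15) nil nil)) (node (nat_lit 0) (nat_lit 59689)
  (nat_lit 14) nil nil)) (node (nat_lit 0) (nat_lit 58961) (nat_lit 13) (node (nat_lit 7) (nat_lit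
  58961) (nat_lit 14) nil (node (nat_lit 4) (nat_lit 58961) (nat_lit 14) nil (node (nat_lit 5)
  (nat_lit 58961) (nat_lit 14) nil nil))) nil))) (node (nat_lit 5) (nat_lit 0) (nat_lit 12) (node
  (nat_lit 7) (nat_lit 0) (nat_lit 13) (node (nat_lit 4) (nat_lit 0) (nat_lit 14) (node (nat_lit
  5) (nat_lit 59790) (nat_lit 15) (node (nat_lit 4) (nat_lit 60508) (nat_lit 16) (node (nat_lit 7)
  (nat_lit 57922) (nat_lit 17) (node (nat_lit 5) (nat_lit 52615) (nat_lit 18) (node (nat_lit 7)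
  (nat_lit 45707) (nat_lit 19) (node (nat_lit 4) (nat_lit 41368) (nat_lit 20) (node (nat_lit 5)
  (nat_lit 41449) (nat_lit 21) (node (nat_lit 7) (nat_lit 41614) (nat_lit 22) (node (nat_lit 5)
  (nat_lit 41664) (nat_lit 23) (node (nat_lit 4) (nat_lit 41726) (nat_lit 24) nil nil) nil) nil)
  nil) nil) nil) (node (nat_lit 4) (nat_lit 58725) (nat_lit 18) (node (nat_lit 5) (nat_lit 59259)
  (nat_lit 19) nil nil) nil)) nil) nil) (node (nat_lit 7) (nat_lit 59817) (nat_lit 15) (node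
  (nat_lit 5) (nat_lit 61059) (nat_lit 16) (node (nat_lit 7) (nat_lit 62141) (nat_lit 17) (node
  (nat_lit 4) (nat_lit 62875) (nat_lit 18) (node (nat_lit 5) (nat_lit 63234) (nat_lit 19) (node
  (nat_lit 7) (nat_lit 63615) (nat_lit 20) nil nil) nil) nil) (node (nat_lit 4) (nat_lit 60761)
  (nat_lit 17) nil nil)) nil) (node (nat_lit 0) (nat_lit 59674) (nat_lit 15) nil nil))) (node
  (nat_lit 0) (nat_lit 59461) (nat_lit 14) nil nil)) (node (nat_lit 0) (nat_lit 58733) (nat_lit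
  13) nil nil)) (node (nat_lit 0) (nat_lit 56673) (nat_lit 12) (node (nat_lit 5) (nat_lit 56673)
  (nat_lit 13) (node (nat_lit 4) (nat_lit 56673) (nat_lit 14) nil nil) (node (nat_lit 4) (nat_lit
  56673) (nat_lit 13) nil (node (nat_lit 7) (nat_lit 56673) (nat_lit 13) (node (nat_lit 4)
  (nat_lit 56673) (nat_lit 14) nil nil) nil))) nil))) (node (nat_lit 0) (nat_lit 52932) (nat_lit
  11) (node (nat_lit 7) (nat_lit 53456) (nat_lit 12) (node (nat_lit 4) (nat_lit 53537) (nat_lit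
  13) (node (nat_lit 5) (nat_lit 53632) (nat_lit 14) nil (node (nat_lit 7) (nat_lit 53537)
  (nat_lit 14) nil nil)) (node (nat_lit 5) (nat_lit 53938) (nat_lit 13) (node (nat_lit 4) (nat_lit
  53938) (nat_lit 14) nil (node (nat_lit 7) (nat_lit 53938) (nat_lit 14) nil nil)) nil)) (node
  (nat_lit 4) (nat_lit 53636) (nat_lit 12) (node (nat_lit 7) (nat_lit 53716) (nat_lit 13) (node
  (nat_lit 5) (nat_lit 53812) (nat_lit 14) nil (node (nat_lit 4) (nat_lit 53716) (nat_lit 14) nil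
  nil)) (node (nat_lit 5) (nat_lit 54400) (nat_lit 13) (node (nat_lit 4) (nat_lit 55264) (nat_lit
  14) nil (node (nat_lit 7) (nat_lit 54400) (nat_lit 14) nil nil)) nil)) (node (nat_lit 5)
  (nat_lit 53578) (nat_lit 12) (node (nat_lit 7) (nat_lit 53659) (nat_lit 13) (node (nat_lit 4)
  (nat_lit 53659) (nat_lit 14) nil nil) (node (nat_lit 4) (nat_lit 54342) (nat_lit 13) (node
  (nat_lit 7) (nat_lit 54342) (nat_lit 14) nil nil) nil)) (node (nat_lit 0) (nat_lit 53570)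
  (nat_lit 12) nil nil)))) nil)) (node (nat_lit 0) (nat_lit 0) (nat_lit 10) (node (nat_lit 5)
  (nat_lit 49557) (nat_lit 11) (node (nat_lit 7) (nat_lit 49934) (nat_lit 12) (node (nat_lit 5)
  (nat_lit 50038) (nat_lit 13) nil (node (nat_lit 4) (nat_lit 49934) (nat_lit 13) nil nil)) (node
  (nat_lit 4) (nat_lit 50537) (nat_lit 12) (node (nat_lit 7) (nat_lit 50537) (nat_lit 13) nil nil)
  (node (nat_lit 13) (nat_lit 52987) (nat_lit 12) nil nil))) (node (nat_lit 4) (nat_lit 49622)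
  (nat_lit 11) (node (nat_lit 7) (nat_lit 50009) (nat_lit 12) (node (nat_lit 5) (nat_lit 50009)
  (nat_lit 13) nil (node (nat_lit 4) (nat_lit 50009) (nat_lit 13) nil nil)) (node (nat_lit 5)
  (nat_lit 50603) (nat_lit 12) (node (nat_lit 7) (nat_lit 50603) (nat_lit 13) nil nil) (node
  (nat_lit 13) (nat_lit 53052) (nat_lit 12) nil nil))) (node (nat_lit 7) (nat_lit 49409) (nat_lit
  11) (node (nat_lit 5) (nat_lit 50007) (nat_lit 12) (node (nat_lit 4) (nat_lit 50007) (nat_lit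
  13) nil nil) (node (nat_lit 4) (nat_lit 50382) (nat_lit 12) (node (nat_lit 5) (nat_lit 50382)
  (nat_lit 13) nil nil) nil)) (node (nat_lit 0) (nat_lit 50666) (nat_lit 11) nil nil)))) nil))
  (node (nat_lit 4) (nat_lit 0) (nat_lit 9) (node (nat_lit 7) (nat_lit 0) (nat_lit 10) (node
  (nat_lit 4) (nat_lit 0) (nat_lit 11) (node (nat_lit 5) (nat_lit 0) (nat_lit 12) (node (nat_lit
  7) (nat_lit 35314) (nat_lit 13) (node (nat_lit 5) (nat_lit 37177) (nat_lit 14) (node (nat_lit 4)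
  (nat_lit 38627) (nat_lit 15) (node (nat_lit 7) (nat_lit 39763) (nat_lit 16) (node (nat_lit 4)
  (nat_lit 38321) (nat_lit 17) (node (nat_lit 5) (nat_lit 38459) (nat_lit 18) (node (nat_lit 4)
  (nat_lit 38469) (nat_lit 19) (node (nat_lit 7) (nat_lit 37576) (nat_lit 20) (node (nat_lit 5)
  (nat_lit 36447) (nat_lit 21) (node (nat_lit 7) (nat_lit 35114) (nat_lit 22) (node (nat_lit 4)
  (nat_lit 31550) (nat_lit 23) (node (nat_lit 5) (nat_lit 26900) (nat_lit 24) (node (nat_lit 4)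
  (nat_lit 15874) (nat_lit 25) (node (nat_lit 7) (nat_lit 5648) (nat_lit 26) nil nil) nil) nil)
  nil) nil) nil) nil) nil) nil) (node (nat_lit 5) (nat_lit 40479) (nat_lit 17) (node (nat_lit 7)
  (nat_lit 40926) (nat_lit 18) (node (nat_lit 4) (nat_lit 39975) (nat_lit 19) nil nil) nil) nil))
  (node (nat_lit 5) (nat_lit 39361) (nat_lit 16) (node (nat_lit 7) (nat_lit 39932) (nat_lit 17)
  (node (nat_lit 4) (nat_lit 40379) (nat_lit 18) nil nil) nil) nil)) nil) (node (nat_lit 4)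
  (nat_lit 36678) (nat_lit 14) (node (nat_lit 7) (nat_lit 37905) (nat_lit 15) (node (nat_lit 5)
  (nat_lit 38374) (nat_lit 16) (node (nat_lit 7) (nat_lit 38944) (nat_lit 17) (node (nat_lit 4)
  (nat_lit 39392) (nat_lit 18) (node (nat_lit 5) (nat_lit 39527) (nat_lit 19) (node (nat_lit 4)
  (nat_lit 39694) (nat_lit 20) (node (nat_lit 7) (nat_lit 39873) (nat_lit 21) (node (nat_lit 5)
  (nat_lit 40039) (nat_lit 22) (node (nat_lit 7) (nat_lit 40169) (nat_lit 23) (node (nat_lit 4)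
  (nat_lit 40270) (nat_lit 24) nil nil) nil) nil) nil) nil) nil) nil) (node (nat_lit 4) (nat_lit
  38079) (nat_lit 17) nil nil)) nil) nil) nil)) (node (nat_lit 0) (nat_lit 36163) (nat_lit 13) nil
  nil)) (node (nat_lit 0) (nat_lit 35458) (nat_lit 12) nil nil)) (node (nat_lit 0) (nat_lit 34563)
  (nat_lit 11) (node (nat_lit 7) (nat_lit 34563) (nat_lit 12) nil (node (nat_lit 5) (nat_lit
  34563) (nat_lit 12) nil (node (nat_lit 4) (nat_lit 34563) (nat_lit 12) nil nil))) nil)) (node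
  (nat_lit 0) (nat_lit 48883) (nat_lit 10) (node (nat_lit 7) (nat_lit 48968) (nat_lit 11) (node
  (nat_lit 4) (nat_lit 48968) (nat_lit 12) nil (node (nat_lit 5) (nat_lit 48968) (nat_lit 12) nil
  nil)) (node (nat_lit 5) (nat_lit 48865) (nat_lit 11) (node (nat_lit 4) (nat_lit 48865) (nat_lit
  12) nil (node (nat_lit 7) (nat_lit 48865) (nat_lit 12) nil nil)) (node (nat_lit 4) (nat_lit
  48865) (nat_lit 11) (node (nat_lit 5) (nat_lit 48865) (nat_lit 12) nil (node (nat_lit 7)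
  (nat_lit 48865) (nat_lit 12) nil nil)) nil))) nil)) (node (nat_lit 0) (nat_lit 43936) (nat_lit
  9) (node (nat_lit 5) (nat_lit 45276) (nat_lit 10) (node (nat_lit 4) (nat_lit 47577) (nat_lit 11)
  (node (nat_lit 7) (nat_lit 47465) (nat_lit 12) nil nil) (node (nat_lit 7) (nat_lit 45449)
  (nat_lit 11) (node (nat_lit 4) (nat_lit 46867) (nat_lit 12) nil (node (nat_lit 5) (nat_lit
  45449) (nat_lit 12) nil nil)) nil)) (node (nat_lit 7) (nat_lit 44787) (nat_lit 10) (node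
  (nat_lit 4) (nat_lit 46024) (nat_lit 11) (node (nat_lit 5) (nat_lit 46149) (nat_lit 12) nil nil)
  (node (nat_lit 5) (nat_lit 45531) (nat_lit 11) (node (nat_lit 4) (nat_lit 45531) (nat_lit 12)
  nil (node (nat_lit 7) (nat_lit 46949) (nat_lit 12) nil nil)) nil)) (node (nat_lit 4) (nat_lit
  45080) (nat_lit 10) (node (nat_lit 7) (nat_lit 45164) (nat_lit 11) (node (nat_lit 5) (nat_lit
  45288) (nat_lit 12) nil nil) (node (nat_lit 5) (nat_lit 46018) (nat_lit 11) (node (nat_lit 7)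
  (nat_lit 47436) (nat_lit 12) nil nil) nil)) nil))) nil))) nil)) nil) (node (nat_lit 4) (nat_lit
  0) (nat_lit 6) (node (nat_lit 5) (nat_lit 0) (nat_lit 7) (node (nat_lit 7) (nat_lit 0) (nat_lit
  8) (node (nat_lit 4) (nat_lit 0) (nat_lit 9) (node (nat_lit 7) (nat_lit 0) (nat_lit 10) (node
  (nat_lit 5) (nat_lit 0) (nat_lit 11) (node (nat_lit 7) (nat_lit 0) (nat_lit 12) (node (nat_lit
  4) (nat_lit 0) (nat_lit 13) (node (nat_lit 5) (nat_lit 0) (nat_lit 14) (node (nat_lit 4)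
  (nat_lit 88546) (nat_lit 15) (node (nat_lit 7) (nat_lit 88546) (nat_lit 16) (node (nat_lit 5)
  (nat_lit 88113) (nat_lit 17) (node (nat_lit 4) (nat_lit 73522) (nat_lit 18) (node (nat_lit 5)
  (nat_lit 70856) (nat_lit 19) (node (nat_lit 7) (nat_lit 54097) (nat_lit 20) (node (nat_lit 5)
  (nat_lit 54264) (nat_lit 21) (node (nat_lit 4) (nat_lit 54182) (nat_lit 22) nil nil) (node
  (nat_lit 4) (nat_lit 53754) (nat_lit 21) (node (nat_lit 7) (nat_lit 42110) (nat_lit 22) nil nil)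
  nil)) nil) nil) (node (nat_lit 7) (nat_lit 87649) (nat_lit 18) nil nil)) (node (nat_lit 4)
  (nat_lit 88546) (nat_lit 17) (node (nat_lit 5) (nat_lit 88546) (nat_lit 18) (node (nat_lit 7)
  (nat_lit 88546) (nat_lit 19) nil nil) nil) nil)) nil) (node (nat_lit 7) (nat_lit 0) (nat_lit 15)
  (node (nat_lit 5) (nat_lit 0) (nat_lit 16) (node (nat_lit 4) (nat_lit 88546) (nat_lit 17) (node
  (nat_lit 5) (nat_lit 88546) (nat_lit 18) (node (nat_lit 7) (nat_lit 88546) (nat_lit 19) (node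
  (nat_lit 4) (nat_lit 88546) (nat_lit 20) (node (nat_lit 5) (nat_lit 88546) (nat_lit 21) (node
  (nat_lit 4) (nat_lit 88546) (nat_lit 22) (node (nat_lit 7) (nat_lit 88546) (nat_lit 23) (node
  (nat_lit 5) (nat_lit 88546) (nat_lit 24) nil nil) nil) nil) nil) nil) nil) (node (nat_lit 7)
  (nat_lit 88546) (nat_lit 18) (node (nat_lit 4) (nat_lit 88546) (nat_lit 19) (node (nat_lit 5)
  (nat_lit 88546) (nat_lit 20) (node (nat_lit 4) (nat_lit 88546) (nat_lit 21) nil nil) nil) nil)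
  nil)) (node (nat_lit 0) (nat_lit 88546) (nat_lit 17) nil nil)) (node (nat_lit 0) (nat_lit 88546)
  (nat_lit 16) nil nil)) (node (nat_lit 0) (nat_lit 88546) (nat_lit 15) nil nil))) (node (nat_lit
  0) (nat_lit 88546) (nat_lit 14) nil nil)) (node (nat_lit 0) (nat_lit 88546) (nat_lit 13) nil
  nil)) (node (nat_lit 4) (nat_lit 0) (nat_lit 12) (node (nat_lit 7) (nat_lit 0) (nat_lit 13)
  (node (nat_lit 4) (nat_lit 0) (nat_lit 14) (node (nat_lit 5) (nat_lit 88546) (nat_lit 15) (node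
  (nat_lit 4) (nat_lit 88546) (nat_lit 16) (node (nat_lit 7) (nat_lit 88546) (nat_lit 17) (node
  (nat_lit 5) (nat_lit 87457) (nat_lit 18) (node (nat_lit 4) (nat_lit 75091) (nat_lit 19) (node
  (nat_lit 5) (nat_lit 72648) (nat_lit 20) (node (nat_lit 7) (nat_lit 64892) (nat_lit 21) (node
  (nat_lit 4) (nat_lit 54282) (nat_lit 22) (node (nat_lit 7) (nat_lit 54327) (nat_lit 23) (node
  (nat_lit 5) (nat_lit 54412) (nat_lit 24) nil nil) nil) nil) nil) nil) (node (nat_lit 7) (nat_lit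
  87108) (nat_lit 19) nil nil)) nil) nil) (node (nat_lit 7) (nat_lit 88546) (nat_lit 16) (node
  (nat_lit 5) (nat_lit 88546) (nat_lit 17) (node (nat_lit 4) (nat_lit 88546) (nat_lit 18) nil nil)
  (node (nat_lit 4) (nat_lit 88546) (nat_lit 17) nil nil)) nil)) (node (nat_lit 0) (nat_lit 88546)
  (nat_lit 15) nil nil)) (node (nat_lit 0) (nat_lit 88546) (nat_lit 14) nil nil)) (node (nat_lit
  0) (nat_lit 88546) (nat_lit 13) nil (node (nat_lit 5) (nat_lit 0) (nat_lit 13) (node (nat_lit 0)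
  (nat_lit 88546) (nat_lit 14) nil nil) nil))) (node (nat_lit 0) (nat_lit 88546) (nat_lit 12)
  (node (nat_lit 5) (nat_lit 88546) (nat_lit 13) (node (nat_lit 7) (nat_lit 88546) (nat_lit 14)
  nil nil) (node (nat_lit 7) (nat_lit 88546) (nat_lit 13) nil (node (nat_lit 4) (nat_lit 88546)
  (nat_lit 13) nil nil))) nil))) (node (nat_lit 0) (nat_lit 85001) (nat_lit 11) (node (nat_lit 7)
  (nat_lit 85001) (nat_lit 12) nil (node (nat_lit 5) (nat_lit 85001) (nat_lit 12) nil (node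
  (nat_lit 4) (nat_lit 85001) (nat_lit 12) nil nil))) nil)) (node (nat_lit 5) (nat_lit 0) (nat_lit
  10) (node (nat_lit 4) (nat_lit 0) (nat_lit 11) (node (nat_lit 7) (nat_lit 0) (nat_lit 12) (node
  (nat_lit 5) (nat_lit 0) (nat_lit 13) (node (nat_lit 7) (nat_lit 79554) (nat_lit 14) (node
  (nat_lit 4) (nat_lit 81425) (nat_lit 15) (node (nat_lit 5) (nat_lit 82911) (nat_lit 16) (node
  (nat_lit 7) (nat_lit 83805) (nat_lit 17) (node (nat_lit 5) (nat_lit 84157) (nat_lit 18) (node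
  (nat_lit 4) (nat_lit 84257) (nat_lit 19) nil nil) nil) nil) (node (nat_lit 7) (nat_lit 82511)
  (nat_lit 16) (node (nat_lit 5) (nat_lit 82277) (nat_lit 17) (node (nat_lit 4) (nat_lit 82055)
  (nat_lit 18) nil nil) nil) nil)) nil) (node (nat_lit 4) (nat_lit 36739) (nat_lit 14) nil (node
  (nat_lit 0) (nat_lit 81299) (nat_lit 14) nil nil))) (node (nat_lit 4) (nat_lit 0) (nat_lit 13)
  (node (nat_lit 5) (nat_lit 79869) (nat_lit 14) (node (nat_lit 7) (nat_lit 81947) (nat_lit 15)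
  (node (nat_lit 5) (nat_lit 82815) (nat_lit 16) (node (nat_lit 4) (nat_lit 82517) (nat_lit 17)
  nil nil) (node (nat_lit 4) (nat_lit 83159) (nat_lit 16) (node (nat_lit 7) (nat_lit 83544)
  (nat_lit 17) nil nil) nil)) nil) (node (nat_lit 0) (nat_lit 79426) (nat_lit 14) nil nil)) (node
  (nat_lit 0) (nat_lit 78970) (nat_lit 13) nil nil))) (node (nat_lit 0) (nat_lit 77906) (nat_lit
  12) nil nil)) (node (nat_lit 0) (nat_lit 73701) (nat_lit 11) (node (nat_lit 5) (nat_lit 73701)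
  (nat_lit 12) nil (node (nat_lit 7) (nat_lit 73772) (nat_lit 12) (node (nat_lit 5) (nat_lit
  73772) (nat_lit 13) nil (node (nat_lit 4) (nat_lit 73772) (nat_lit 13) nil nil)) (node (nat_lit
  4) (nat_lit 73764) (nat_lit 12) (node (nat_lit 5) (nat_lit 73764) (nat_lit 13) nil (node
  (nat_lit 7) (nat_lit 73764) (nat_lit 13) nil nil)) nil))) nil)) (node (nat_lit 0) (nat_lit
  80983) (nat_lit 10) (node (nat_lit 5) (nat_lit 81612) (nat_lit 11) (node (nat_lit 4) (nat_lit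
  81612) (nat_lit 12) nil (node (nat_lit 7) (nat_lit 81612) (nat_lit 12) nil (node (nat_lit 13)
  (nat_lit 83069) (nat_lit 12) nil nil))) (node (nat_lit 7) (nat_lit 80778) (nat_lit 11) (node
  (nat_lit 4) (nat_lit 80778) (nat_lit 12) nil (node (nat_lit 5) (nat_lit 80778) (nat_lit 12) nil
  nil)) (node (nat_lit 4) (nat_lit 80983) (nat_lit 11) (node (nat_lit 5) (nat_lit 80983) (nat_lit
  12) nil (node (nat_lit 7) (nat_lit 80983) (nat_lit 12) nil nil)) (node (nat_lit 0) (nat_lit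
  81802) (nat_lit 11) nil nil)))) nil))) (node (nat_lit 5) (nat_lit 0) (nat_lit 9) (node (nat_lit
  4) (nat_lit 0) (nat_lit 10) (node (nat_lit 7) (nat_lit 88527) (nat_lit 11) (node (nat_lit 4)
  (nat_lit 0) (nat_lit 12) (node (nat_lit 5) (nat_lit 88546) (nat_lit 13) (node (nat_lit 7)
  (nat_lit 88546) (nat_lit 14) (node (nat_lit 4) (nat_lit 88546) (nat_lit 15) (node (nat_lit 7)
  (nat_lit 88546) (nat_lit 16) (node (nat_lit 5) (nat_lit 88546) (nat_lit 17) (node (nat_lit 7)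
  (nat_lit 88546) (nat_lit 18) (node (nat_lit 4) (nat_lit 88546) (nat_lit 19) (node (nat_lit 5)
  (nat_lit 88546) (nat_lit 20) (node (nat_lit 4) (nat_lit 88546) (nat_lit 21) (node (nat_lit 7)
  (nat_lit 88546) (nat_lit 22) (node (nat_lit 5) (nat_lit 88546) (nat_lit 23) (node (nat_lit 4)
  (nat_lit 88546) (nat_lit 24) (node (nat_lit 5) (nat_lit 88546) (nat_lit 25) (node (nat_lit 7)
  (nat_lit 88546) (nat_lit 26) (node (nat_lit 5) (nat_lit 88546) (nat_lit 27) (node (nat_lit 4)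
  (nat_lit 88546) (nat_lit 28) (node (nat_lit 7) (nat_lit 80944) (nat_lit 29) (node (nat_lit 4)
  (nat_lit 70670) (nat_lit 30) (node (nat_lit 5) (nat_lit 62622) (nat_lit 31) (node (nat_lit 7)
  (nat_lit 62645) (nat_lit 32) nil nil) nil) nil) nil) nil) nil) nil) nil) nil) nil) nil) nil)
  nil) nil) (node (nat_lit 4) (nat_lit 88546) (nat_lit 18) (node (nat_lit 7) (nat_lit 88546)
  (nat_lit 19) (node (nat_lit 4) (nat_lit 88546) (nat_lit 20) nil nil) nil) nil)) nil) nil) (node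
  (nat_lit 5) (nat_lit 88546) (nat_lit 15) nil nil)) (node (nat_lit 4) (nat_lit 88546) (nat_lit
  14) (node (nat_lit 7) (nat_lit 88546) (nat_lit 15) (node (nat_lit 5) (nat_lit 80168) (nat_lit
  16) (node (nat_lit 4) (nat_lit 73507) (nat_lit 17) (node (nat_lit 5) (nat_lit 62606) (nat_lit
  18) (node (nat_lit 7) (nat_lit 62921) (nat_lit 19) (node (nat_lit 5) (nat_lit 63215) (nat_lit
  20) nil nil) nil) nil) (node (nat_lit 7) (nat_lit 81047) (nat_lit 17) (node (nat_lit 4) (nat_lit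
  81395) (nat_lit 18) nil nil) nil)) nil) nil) nil)) (node (nat_lit 0) (nat_lit 88546) (nat_lit
  13) nil nil)) (node (nat_lit 5) (nat_lit 0) (nat_lit 12) (node (nat_lit 7) (nat_lit 88546)
  (nat_lit 13) (node (nat_lit 4) (nat_lit 88546) (nat_lit 14) (node (nat_lit 5) (nat_lit 88546)
  (nat_lit 15) (node (nat_lit 4) (nat_lit 88546) (nat_lit 16) (node (nat_lit 7) (nat_lit 88546)
  (nat_lit 17) (node (nat_lit 5) (nat_lit 88546) (nat_lit 18) (node (nat_lit 4) (nat_lit 88546)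
  (nat_lit 19) (node (nat_lit 5) (nat_lit 79704) (nat_lit 20) (node (nat_lit 7) (nat_lit 71511)
  (nat_lit 21) (node (nat_lit 5) (nat_lit 38452) (nat_lit 22) (node (nat_lit 4) (nat_lit 38532)
  (nat_lit 23) (node (nat_lit 7) (nat_lit 38618) (nat_lit 24) nil nil) nil) nil) nil) nil) nil)
  nil) nil) (node (nat_lit 7) (nat_lit 88546) (nat_lit 16) nil nil)) (node (nat_lit 7) (nat_lit
  88546) (nat_lit 15) (node (nat_lit 5) (nat_lit 88546) (nat_lit 16) nil nil) nil)) nil) (node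
  (nat_lit 0) (nat_lit 88546) (nat_lit 13) nil nil)) (node (nat_lit 0) (nat_lit 88546) (nat_lit
  12) nil nil))) (node (nat_lit 0) (nat_lit 88546) (nat_lit 11) nil nil)) (node (nat_lit 0)
  (nat_lit 88546) (nat_lit 10) nil nil)) (node (nat_lit 0) (nat_lit 82828) (nat_lit 9) (node
  (nat_lit 4) (nat_lit 84947) (nat_lit 10) (node (nat_lit 7) (nat_lit 86287) (nat_lit 11) (node
  (nat_lit 5) (nat_lit 86411) (nat_lit 12) nil (node (nat_lit 4) (nat_lit 86287) (nat_lit 12) nil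
  nil)) (node (nat_lit 5) (nat_lit 86083) (nat_lit 11) (node (nat_lit 7) (nat_lit 86083) (nat_lit
  12) nil (node (nat_lit 4) (nat_lit 86083) (nat_lit 12) nil nil)) nil)) (node (nat_lit 7)
  (nat_lit 84628) (nat_lit 10) (node (nat_lit 5) (nat_lit 85189) (nat_lit 11) (node (nat_lit 4)
  (nat_lit 85077) (nat_lit 12) nil nil) (node (nat_lit 4) (nat_lit 84200) (nat_lit 11) (node
  (nat_lit 5) (nat_lit 84200) (nat_lit 12) nil (node (nat_lit 7) (nat_lit 84200) (nat_lit 12) nil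
  nil)) nil)) (node (nat_lit 5) (nat_lit 84966) (nat_lit 10) (node (nat_lit 7) (nat_lit 85622)
  (nat_lit 11) (node (nat_lit 4) (nat_lit 87041) (nat_lit 12) nil (node (nat_lit 5) (nat_lit
  85747) (nat_lit 12) nil nil)) (node (nat_lit 4) (nat_lit 86772) (nat_lit 11) (node (nat_lit 7)
  (nat_lit 86772) (nat_lit 12) nil (node (nat_lit 5) (nat_lit 86772) (nat_lit 12) nil nil)) nil))
  nil))) nil))) nil) nil) nil))

noncomputable def t288 : Tr :=
  (node (nat_lit 4) (nat_lit 0) (nat_lit 8) (node (nat_lit 7) (nat_lit 0) (nat_lit 9) (node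
  (nat_lit 5) (nat_lit 0) (nat_lit 10) (node (nat_lit 4) (nat_lit 0) (nat_lit 11) (node (nat_lit
  7) (nat_lit 0) (nat_lit 12) (node (nat_lit 4) (nat_lit 0) (nat_lit 13) (node (nat_lit 5)
  (nat_lit 0) (nat_lit 14) (node (nat_lit 4) (nat_lit 0) (nat_lit 15) (node (nat_lit 7) (nat_lit
  0) (nat_lit 16) (node (nat_lit 5) (nat_lit 0) (nat_lit 17) (node (nat_lit 7) (nat_lit 0)
  (nat_lit 18) (node (nat_lit 4) (nat_lit 0) (nat_lit 19) (node (nat_lit 5) (nat_lit 73225)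
  (nat_lit 20) (node (nat_lit 4) (nat_lit 73369) (nat_lit 21) (node (nat_lit 7) (nat_lit 73482)
  (nat_lit 22) (node (nat_lit 4) (nat_lit 73570) (nat_lit 23) (node (nat_lit 5) (nat_lit 73639)
  (nat_lit 24) (node (nat_lit 7) (nat_lit 73692) (nat_lit 25) (node (nat_lit 4) (nat_lit 72813)
  (nat_lit 26) (node (nat_lit 7) (nat_lit 69603) (nat_lit 27) (node (nat_lit 5) (nat_lit 64868)
  (nat_lit 28) (node (nat_lit 4) (nat_lit 56113) (nat_lit 29) (node (nat_lit 7) (nat_lit 46215)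
  (nat_lit 30) (node (nat_lit 4) (nat_lit 27366) (nat_lit 31) (node (nat_lit 5) (nat_lit 23429)
  (nat_lit 32) nil nil) nil) nil) nil) nil) nil) nil) nil) nil) nil) nil) (node (nat_lit 7)
  (nat_lit 73369) (nat_lit 21) (node (nat_lit 5) (nat_lit 73482) (nat_lit 22) nil nil) nil)) (node
  (nat_lit 7) (nat_lit 73225) (nat_lit 20) nil (node (nat_lit 0) (nat_lit 73570) (nat_lit 20) nil
  nil))) (node (nat_lit 0) (nat_lit 73482) (nat_lit 19) nil nil)) (node (nat_lit 4) (nat_lit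
  72803) (nat_lit 18) (node (nat_lit 5) (nat_lit 73040) (nat_lit 19) (node (nat_lit 7) (nat_lit
  73225) (nat_lit 20) (node (nat_lit 4) (nat_lit 73369) (nat_lit 21) (node (nat_lit 5) (nat_lit
  73482) (nat_lit 22) (node (nat_lit 4) (nat_lit 73570) (nat_lit 23) nil nil) nil) (node (nat_lit
  5) (nat_lit 73369) (nat_lit 21) nil nil)) nil) nil) (node (nat_lit 0) (nat_lit 73369) (nat_lit
  18) nil nil))) (node (nat_lit 0) (nat_lit 73225) (nat_lit 17) nil nil)) (node (nat_lit 0)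
  (nat_lit 73040) (nat_lit 16) nil nil)) (node (nat_lit 7) (nat_lit 71142) (nat_lit 15) (node
  (nat_lit 5) (nat_lit 0) (nat_lit 16) (node (nat_lit 4) (nat_lit 0) (nat_lit 17) (node (nat_lit
  7) (nat_lit 72803) (nat_lit 18) (node (nat_lit 5) (nat_lit 73040) (nat_lit 19) (node (nat_lit 7)
  (nat_lit 73225) (nat_lit 20) (node (nat_lit 4) (nat_lit 73369) (nat_lit 21) (node (nat_lit 7)
  (nat_lit 73482) (nat_lit 22) nil (node (nat_lit 5) (nat_lit 73482) (nat_lit 22) nil nil)) nil)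
  nil) nil) (node (nat_lit 5) (nat_lit 72803) (nat_lit 18) (node (nat_lit 7) (nat_lit 73040)
  (nat_lit 19) (node (nat_lit 4) (nat_lit 73225) (nat_lit 20) (node (nat_lit 7) (nat_lit 73369)
  (nat_lit 21) nil nil) nil) nil) (node (nat_lit 0) (nat_lit 73369) (nat_lit 18) nil nil))) (node
  (nat_lit 0) (nat_lit 73225) (nat_lit 17) nil nil)) (node (nat_lit 0) (nat_lit 73040) (nat_lit
  16) nil nil)) (node (nat_lit 0) (nat_lit 72803) (nat_lit 15) (node (nat_lit 4) (nat_lit 72803)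
  (nat_lit 16) nil (node (nat_lit 5) (nat_lit 72803) (nat_lit 16) nil (node (nat_lit 7) (nat_lit
  72803) (nat_lit 16) nil nil))) nil))) (node (nat_lit 0) (nat_lit 72424) (nat_lit 14) (node
  (nat_lit 7) (nat_lit 72424) (nat_lit 15) (node (nat_lit 4) (nat_lit 72499) (nat_lit 16) (node
  (nat_lit 7) (nat_lit 72418) (nat_lit 17) (node (nat_lit 5) (nat_lit 72196) (nat_lit 18) nil nil)
  (node (nat_lit 5) (nat_lit 72499) (nat_lit 17) nil nil)) (node (nat_lit 5) (nat_lit 72424)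
  (nat_lit 16) nil nil)) (node (nat_lit 4) (nat_lit 72424) (nat_lit 15) (node (nat_lit 5) (nat_lit
  72424) (nat_lit 16) (node (nat_lit 7) (nat_lit 72424) (nat_lit 17) nil nil) (node (nat_lit 7)
  (nat_lit 72499) (nat_lit 16) nil nil)) (node (nat_lit 5) (nat_lit 72424) (nat_lit 15) (node
  (nat_lit 4) (nat_lit 72424) (nat_lit 16) nil (node (nat_lit 7) (nat_lit 72424) (nat_lit 16) nil
  nil)) nil))) nil)) (node (nat_lit 0) (nat_lit 71314) (nat_lit 13) (node (nat_lit 7) (nat_lit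
  71184) (nat_lit 14) (node (nat_lit 5) (nat_lit 71383) (nat_lit 15) (node (nat_lit 4) (nat_lit
  71821) (nat_lit 16) (node (nat_lit 7) (nat_lit 72025) (nat_lit 17) nil (node (nat_lit 5)
  (nat_lit 71526) (nat_lit 17) nil nil)) (node (nat_lit 7) (nat_lit 71676) (nat_lit 16) nil nil))
  (node (nat_lit 4) (nat_lit 71412) (nat_lit 15) (node (nat_lit 5) (nat_lit 71883) (nat_lit 16)
  (node (nat_lit 7) (nat_lit 72272) (nat_lit 17) nil nil) (node (nat_lit 7) (nat_lit 71171)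
  (nat_lit 16) nil nil)) nil)) (node (nat_lit 5) (nat_lit 71456) (nat_lit 14) (node (nat_lit 4)
  (nat_lit 71684) (nat_lit 15) (node (nat_lit 7) (nat_lit 71443) (nat_lit 16) (node (nat_lit 5)
  (nat_lit 71148) (nat_lit 17) nil nil) (node (nat_lit 5) (nat_lit 71977) (nat_lit 16) nil nil))
  (node (nat_lit 7) (nat_lit 71684) (nat_lit 15) (node (nat_lit 5) (nat_lit 71977) (nat_lit 16)
  (node (nat_lit 4) (nat_lit 71682) (nat_lit 17) nil nil) nil) nil)) (node (nat_lit 4) (nat_lit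
  71456) (nat_lit 14) (node (nat_lit 7) (nat_lit 71584) (nat_lit 15) (node (nat_lit 5) (nat_lit
  71733) (nat_lit 16) nil (node (nat_lit 4) (nat_lit 71876) (nat_lit 16) (node (nat_lit 5)
  (nat_lit 72265) (nat_lit 17) nil nil) nil)) (node (nat_lit 5) (nat_lit 71684) (nat_lit 15) (node
  (nat_lit 7) (nat_lit 71684) (nat_lit 16) nil (node (nat_lit 4) (nat_lit 71684) (nat_lit 16) nil
  nil)) nil)) (node (nat_lit 0) (nat_lit 71996) (nat_lit 14) nil nil)))) nil)) (node (nat_lit 5)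
  (nat_lit 0) (nat_lit 12) (node (nat_lit 7) (nat_lit 0) (nat_lit 13) (node (nat_lit 5) (nat_lit
  0) (nat_lit 14) (node (nat_lit 4) (nat_lit 0) (nat_lit 15) (node (nat_lit 7) (nat_lit 72110)
  (nat_lit 16) (node (nat_lit 4) (nat_lit 72499) (nat_lit 17) (node (nat_lit 5) (nat_lit 0)
  (nat_lit 18) (node (nat_lit 7) (nat_lit 73040) (nat_lit 19) nil (node (nat_lit 4) (nat_lit
  73040) (nat_lit 19) (node (nat_lit 7) (nat_lit 73225) (nat_lit 20) (node (nat_lit 5) (nat_lit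
  73369) (nat_lit 21) (node (nat_lit 7) (nat_lit 73482) (nat_lit 22) (node (nat_lit 4) (nat_lit
  73570) (nat_lit 23) nil nil) nil) nil) nil) (node (nat_lit 0) (nat_lit 73482) (nat_lit 19) nil
  nil))) nil) (node (nat_lit 5) (nat_lit 72499) (nat_lit 17) (node (nat_lit 7) (nat_lit 72803)
  (nat_lit 18) (node (nat_lit 4) (nat_lit 73040) (nat_lit 19) (node (nat_lit 5) (nat_lit 73225)
  (nat_lit 20) (node (nat_lit 4) (nat_lit 73369) (nat_lit 21) (node (nat_lit 7) (nat_lit 73482)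
  (nat_lit 22) (node (nat_lit 4) (nat_lit 73570) (nat_lit 23) (node (nat_lit 5) (nat_lit 73639)
  (nat_lit 24) (node (nat_lit 7) (nat_lit 73692) (nat_lit 25) (node (nat_lit 4) (nat_lit 72490)
  (nat_lit 26) (node (nat_lit 7) (nat_lit 69710) (nat_lit 27) (node (nat_lit 5) (nat_lit 64838)
  (nat_lit 28) (node (nat_lit 4) (nat_lit 55948) (nat_lit 29) (node (nat_lit 5) (nat_lit 44431)
  (nat_lit 30) (node (nat_lit 7) (nat_lit 27164) (nat_lit 31) nil nil) nil) nil) nil) nil) nil)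
  nil) nil) nil) nil) nil) nil) nil) nil) nil)) (node (nat_lit 0) (nat_lit 72820) (nat_lit 16) nil
  nil)) (node (nat_lit 0) (nat_lit 72671) (nat_lit 15) nil nil)) (node (nat_lit 4) (nat_lit 0)
  (nat_lit 14) (node (nat_lit 5) (nat_lit 0) (nat_lit 15) (node (nat_lit 4) (nat_lit 71215)
  (nat_lit 16) (node (nat_lit 7) (nat_lit 70219) (nat_lit 17) (node (nat_lit 4) (nat_lit 68766)
  (nat_lit 18) (node (nat_lit 5) (nat_lit 61674) (nat_lit 19) (node (nat_lit 7) (nat_lit 51111)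
  (nat_lit 20) (node (nat_lit 4) (nat_lit 51340) (nat_lit 21) (node (nat_lit 7) (nat_lit 51518)
  (nat_lit 22) (node (nat_lit 5) (nat_lit 51659) (nat_lit 23) nil nil) nil) (node (nat_lit 5)
  (nat_lit 51340) (nat_lit 21) (node (nat_lit 4) (nat_lit 51259) (nat_lit 22) nil nil) nil)) nil)
  nil) (node (nat_lit 5) (nat_lit 70177) (nat_lit 18) nil nil)) nil) (node (nat_lit 0) (nat_lit
  72805) (nat_lit 16) nil nil)) (node (nat_lit 0) (nat_lit 72749) (nat_lit 15) nil (node (nat_lit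
  7) (nat_lit 0) (nat_lit 15) (node (nat_lit 0) (nat_lit 71773) (nat_lit 16) nil nil) nil))) (node
  (nat_lit 0) (nat_lit 72224) (nat_lit 14) (node (nat_lit 5) (nat_lit 72224) (nat_lit 15) nil
  (node (nat_lit 7) (nat_lit 72224) (nat_lit 15) nil nil)) nil))) (node (nat_lit 0) (nat_lit
  71314) (nat_lit 13) (node (nat_lit 5) (nat_lit 71314) (nat_lit 14) (node (nat_lit 4) (nat_lit
  71314) (nat_lit 15) nil nil) (node (nat_lit 4) (nat_lit 71314) (nat_lit 14) (node (nat_lit 5)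
  (nat_lit 71314) (nat_lit 15) nil (node (nat_lit 7) (nat_lit 71314) (nat_lit 15) nil nil)) (node
  (nat_lit 7) (nat_lit 71314) (nat_lit 14) nil nil))) nil)) (node (nat_lit 0) (nat_lit 69949)
  (nat_lit 12) (node (nat_lit 5) (nat_lit 70130) (nat_lit 13) (node (nat_lit 4) (nat_lit 70582)
  (nat_lit 14) (node (nat_lit 5) (nat_lit 70957) (nat_lit 15) (node (nat_lit 7) (nat_lit 71456)
  (nat_lit 16) nil nil) (node (nat_lit 7) (nat_lit 70264) (nat_lit 15) nil nil)) (node (nat_lit 7)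
  (nat_lit 70439) (nat_lit 14) (node (nat_lit 4) (nat_lit 70439) (nat_lit 15) nil (node (nat_lit
  5) (nat_lit 70439) (nat_lit 15) nil nil)) nil)) (node (nat_lit 7) (nat_lit 69781) (nat_lit 13)
  (node (nat_lit 5) (nat_lit 70049) (nat_lit 14) (node (nat_lit 4) (nat_lit 69732) (nat_lit 15)
  (node (nat_lit 7) (nat_lit 70231) (nat_lit 16) nil nil) (node (nat_lit 7) (nat_lit 70049)
  (nat_lit 15) nil nil)) (node (nat_lit 4) (nat_lit 69858) (nat_lit 14) (node (nat_lit 7) (nat_lit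
  69541) (nat_lit 15) nil (node (nat_lit 5) (nat_lit 69858) (nat_lit 15) nil nil)) nil)) (node
  (nat_lit 4) (nat_lit 70130) (nat_lit 13) (node (nat_lit 7) (nat_lit 70439) (nat_lit 14) (node
  (nat_lit 5) (nat_lit 70814) (nat_lit 15) nil (node (nat_lit 4) (nat_lit 70814) (nat_lit 15) nil
  nil)) (node (nat_lit 5) (nat_lit 70439) (nat_lit 14) (node (nat_lit 7) (nat_lit 70439) (nat_lit
  15) nil (node (nat_lit 4) (nat_lit 70439) (nat_lit 15) nil nil)) nil)) (node (nat_lit 0)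
  (nat_lit 70448) (nat_lit 13) nil nil)))) nil))) (node (nat_lit 7) (nat_lit 0) (nat_lit 11) (node
  (nat_lit 4) (nat_lit 0) (nat_lit 12) (node (nat_lit 5) (nat_lit 0) (nat_lit 13) (node (nat_lit
  4) (nat_lit 0) (nat_lit 14) (node (nat_lit 7) (nat_lit 0) (nat_lit 15) (node (nat_lit 5)
  (nat_lit 61233) (nat_lit 16) (node (nat_lit 4) (nat_lit 61688) (nat_lit 17) (node (nat_lit 5)
  (nat_lit 61466) (nat_lit 18) nil nil) (node (nat_lit 7) (nat_lit 62228) (nat_lit 17) (node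
  (nat_lit 4) (nat_lit 63028) (nat_lit 18) (node (nat_lit 7) (nat_lit 63264) (nat_lit 19) nil nil)
  nil) nil)) (node (nat_lit 4) (nat_lit 0) (nat_lit 16) (node (nat_lit 5) (nat_lit 0) (nat_lit 17)
  (node (nat_lit 7) (nat_lit 0) (nat_lit 18) (node (nat_lit 5) (nat_lit 0) (nat_lit 19) (node
  (nat_lit 4) (nat_lit 0) (nat_lit 20) (node (nat_lit 7) (nat_lit 22670) (nat_lit 21) (node
  (nat_lit 4) (nat_lit 22848) (nat_lit 22) (node (nat_lit 5) (nat_lit 22988) (nat_lit 23) (node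
  (nat_lit 4) (nat_lit 23097) (nat_lit 24) (node (nat_lit 7) (nat_lit 23124) (nat_lit 25) nil nil)
  nil) nil) (node (nat_lit 5) (nat_lit 22889) (nat_lit 22) (node (nat_lit 7) (nat_lit 22764)
  (nat_lit 23) nil nil) nil)) (node (nat_lit 5) (nat_lit 22643) (nat_lit 21) (node (nat_lit 7)
  (nat_lit 22820) (nat_lit 22) (node (nat_lit 4) (nat_lit 22871) (nat_lit 23) (node (nat_lit 7)
  (nat_lit 22906) (nat_lit 24) nil nil) nil) nil) (node (nat_lit 0) (nat_lit 22802) (nat_lit 21)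
  nil nil))) (node (nat_lit 0) (nat_lit 22829) (nat_lit 20) nil nil)) (node (nat_lit 4) (nat_lit
  22050) (nat_lit 19) nil (node (nat_lit 0) (nat_lit 22268) (nat_lit 19) nil nil))) (node (nat_lit
  0) (nat_lit 42538) (nat_lit 18) nil nil)) (node (nat_lit 0) (nat_lit 50799) (nat_lit 17) nil
  nil)) (node (nat_lit 0) (nat_lit 61335) (nat_lit 16) nil nil))) (node (nat_lit 0) (nat_lit
  60230) (nat_lit 15) nil nil)) (node (nat_lit 7) (nat_lit 0) (nat_lit 14) (node (nat_lit 5)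
  (nat_lit 71251) (nat_lit 15) (node (nat_lit 4) (nat_lit 72110) (nat_lit 16) (node (nat_lit 7)
  (nat_lit 72499) (nat_lit 17) (node (nat_lit 4) (nat_lit 72803) (nat_lit 18) (node (nat_lit 5)
  (nat_lit 73040) (nat_lit 19) (node (nat_lit 4) (nat_lit 73225) (nat_lit 20) (node (nat_lit 7)
  (nat_lit 73369) (nat_lit 21) nil nil) nil) nil) nil) (node (nat_lit 5) (nat_lit 72499) (nat_lit
  17) (node (nat_lit 7) (nat_lit 72803) (nat_lit 18) (node (nat_lit 4) (nat_lit 73040) (nat_lit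
  19) nil nil) nil) nil)) nil) (node (nat_lit 0) (nat_lit 71729) (nat_lit 15) nil nil)) (node
  (nat_lit 0) (nat_lit 72178) (nat_lit 14) nil nil))) (node (nat_lit 0) (nat_lit 71086) (nat_lit
  13) nil nil)) (node (nat_lit 0) (nat_lit 69706) (nat_lit 12) (node (nat_lit 7) (nat_lit 69706)
  (nat_lit 13) nil (node (nat_lit 5) (nat_lit 69706) (nat_lit 13) nil (node (nat_lit 4) (nat_lit
  69706) (nat_lit 13) nil nil))) nil)) (node (nat_lit 0) (nat_lit 67679) (nat_lit 11) (node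
  (nat_lit 7) (nat_lit 67913) (nat_lit 12) (node (nat_lit 5) (nat_lit 68770) (nat_lit 13) (node
  (nat_lit 7) (nat_lit 69558) (nat_lit 14) (node (nat_lit 4) (nat_lit 70197) (nat_lit 15) nil nil)
  (node (nat_lit 4) (nat_lit 68341) (nat_lit 14) nil nil)) (node (nat_lit 4) (nat_lit 68770)
  (nat_lit 13) (node (nat_lit 5) (nat_lit 69250) (nat_lit 14) nil (node (nat_lit 7) (nat_lit
  68341) (nat_lit 14) nil nil)) nil)) (node (nat_lit 5) (nat_lit 67913) (nat_lit 12) (node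
  (nat_lit 4) (nat_lit 68770) (nat_lit 13) (node (nat_lit 7) (nat_lit 68341) (nat_lit 14) nil
  (node (nat_lit 5) (nat_lit 68770) (nat_lit 14) nil nil)) (node (nat_lit 7) (nat_lit 68421)
  (nat_lit 13) (node (nat_lit 4) (nat_lit 68901) (nat_lit 14) nil (node (nat_lit 5) (nat_lit
  68421) (nat_lit 14) nil nil)) nil)) (node (nat_lit 4) (nat_lit 67913) (nat_lit 12) (node
  (nat_lit 5) (nat_lit 68770) (nat_lit 13) (node (nat_lit 4) (nat_lit 69327) (nat_lit 14) nil
  (node (nat_lit 7) (nat_lit 69250) (nat_lit 14) nil nil)) (node (nat_lit 7) (nat_lit 68421)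
  (nat_lit 13) (node (nat_lit 5) (nat_lit 68901) (nat_lit 14) (node (nat_lit 4) (nat_lit 68368)
  (nat_lit 15) nil nil) (node (nat_lit 4) (nat_lit 68901) (nat_lit 14) (node (nat_lit 5) (nat_lit
  69539) (nat_lit 15) nil nil) nil)) (node (nat_lit 14) (nat_lit 69051) (nat_lit 13) nil nil)))
  (node (nat_lit 0) (nat_lit 68318) (nat_lit 12) nil nil)))) nil))) (node (nat_lit 0) (nat_lit
  65080) (nat_lit 10) (node (nat_lit 5) (nat_lit 65080) (nat_lit 11) nil (node (nat_lit 4)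
  (nat_lit 65080) (nat_lit 11) nil (node (nat_lit 7) (nat_lit 65080) (nat_lit 11) nil nil))) nil))
  (node (nat_lit 0) (nat_lit 61750) (nat_lit 9) (node (nat_lit 7) (nat_lit 61366) (nat_lit 10)
  (node (nat_lit 4) (nat_lit 61366) (nat_lit 11) nil (node (nat_lit 5) (nat_lit 61366) (nat_lit
  11) nil nil)) (node (nat_lit 5) (nat_lit 62134) (nat_lit 10) (node (nat_lit 4) (nat_lit 62134)
  (nat_lit 11) nil (node (nat_lit 7) (nat_lit 62134) (nat_lit 11) nil nil)) (node (nat_lit 4)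
  (nat_lit 62134) (nat_lit 10) (node (nat_lit 5) (nat_lit 62134) (nat_lit 11) nil (node (nat_lit
  7) (nat_lit 62134) (nat_lit 11) nil nil)) nil))) nil)) (node (nat_lit 5) (nat_lit 0) (nat_lit 8)
  (node (nat_lit 4) (nat_lit 0) (nat_lit 9) (node (nat_lit 7) (nat_lit 0) (nat_lit 10) (node
  (nat_lit 5) (nat_lit 0) (nat_lit 11) (node (nat_lit 7) (nat_lit 0) (nat_lit 12) (node (nat_lit
  4) (nat_lit 0) (nat_lit 13) (node (nat_lit 7) (nat_lit 68900) (nat_lit 14) (node (nat_lit 5)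
  (nat_lit 70236) (nat_lit 15) (node (nat_lit 4) (nat_lit 71316) (nat_lit 16) (node (nat_lit 5)
  (nat_lit 72101) (nat_lit 17) (node (nat_lit 7) (nat_lit 72645) (nat_lit 18) (node (nat_lit 4)
  (nat_lit 72682) (nat_lit 19) (node (nat_lit 5) (nat_lit 73004) (nat_lit 20) (node (nat_lit 4)
  (nat_lit 72658) (nat_lit 21) (node (nat_lit 7) (nat_lit 72452) (nat_lit 22) (node (nat_lit 4)
  (nat_lit 72372) (nat_lit 23) (node (nat_lit 5) (nat_lit 71347) (nat_lit 24) (node (nat_lit 7)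
  (nat_lit 70036) (nat_lit 25) (node (nat_lit 5) (nat_lit 68087) (nat_lit 26) (node (nat_lit 4)
  (nat_lit 65291) (nat_lit 27) (node (nat_lit 7) (nat_lit 60437) (nat_lit 28) (node (nat_lit 5)
  (nat_lit 51886) (nat_lit 29) (node (nat_lit 7) (nat_lit 51912) (nat_lit 30) (node (nat_lit 4)
  (nat_lit 51909) (nat_lit 31) (node (nat_lit 7) (nat_lit 21298) (nat_lit 32) (node (nat_lit 5)
  (nat_lit 10698) (nat_lit 33) nil nil) nil) nil) nil) nil) nil) nil) nil) nil) nil) nil) nil)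
  nil) nil) nil) nil) (node (nat_lit 7) (nat_lit 70700) (nat_lit 17) nil nil)) nil) nil) (node
  (nat_lit 5) (nat_lit 68479) (nat_lit 14) (node (nat_lit 4) (nat_lit 68046) (nat_lit 15) (node
  (nat_lit 7) (nat_lit 67053) (nat_lit 16) (node (nat_lit 4) (nat_lit 50500) (nat_lit 17) (node
  (nat_lit 5) (nat_lit 44240) (nat_lit 18) (node (nat_lit 7) (nat_lit 32203) (nat_lit 19) (node
  (nat_lit 5) (nat_lit 22008) (nat_lit 20) (node (nat_lit 4) (nat_lit 22256) (nat_lit 21) nil nil)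
  (node (nat_lit 4) (nat_lit 32496) (nat_lit 20) nil nil)) nil) nil) (node (nat_lit 5) (nat_lit
  66759) (nat_lit 17) nil nil)) nil) (node (nat_lit 7) (nat_lit 69492) (nat_lit 15) nil nil))
  (node (nat_lit 0) (nat_lit 69617) (nat_lit 14) nil nil))) (node (nat_lit 0) (nat_lit 70983)
  (nat_lit 13) nil nil)) (node (nat_lit 0) (nat_lit 69566) (nat_lit 12) nil nil)) (node (nat_lit
  4) (nat_lit 0) (nat_lit 11) (node (nat_lit 5) (nat_lit 0) (nat_lit 12) (node (nat_lit 4)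
  (nat_lit 0) (nat_lit 13) (node (nat_lit 7) (nat_lit 0) (nat_lit 14) (node (nat_lit 5) (nat_lit
  70831) (nat_lit 15) (node (nat_lit 7) (nat_lit 71801) (nat_lit 16) (node (nat_lit 4) (nat_lit
  72499) (nat_lit 17) (node (nat_lit 5) (nat_lit 72803) (nat_lit 18) (node (nat_lit 4) (nat_lit
  73040) (nat_lit 19) (node (nat_lit 7) (nat_lit 73225) (nat_lit 20) (node (nat_lit 4) (nat_lit
  73369) (nat_lit 21) (node (nat_lit 5) (nat_lit 71248) (nat_lit 22) (node (nat_lit 7) (nat_lit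
  68151) (nat_lit 23) (node (nat_lit 5) (nat_lit 63476) (nat_lit 24) (node (nat_lit 4) (nat_lit
  54793) (nat_lit 25) (node (nat_lit 7) (nat_lit 44946) (nat_lit 26) nil nil) nil) nil) nil) nil)
  nil) nil) (node (nat_lit 7) (nat_lit 73040) (nat_lit 19) nil nil)) (node (nat_lit 7) (nat_lit
  72718) (nat_lit 18) nil nil)) nil) (node (nat_lit 4) (nat_lit 71768) (nat_lit 16) (node (nat_lit
  5) (nat_lit 71702) (nat_lit 17) (node (nat_lit 7) (nat_lit 71237) (nat_lit 18) nil nil) nil)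
  nil)) (node (nat_lit 0) (nat_lit 71449) (nat_lit 15) nil nil)) (node (nat_lit 0) (nat_lit 70486)
  (nat_lit 14) nil nil)) (node (nat_lit 0) (nat_lit 71078) (nat_lit 13) nil nil)) (node (nat_lit
  0) (nat_lit 69662) (nat_lit 12) nil nil)) (node (nat_lit 0) (nat_lit 67773) (nat_lit 11) (node
  (nat_lit 7) (nat_lit 67773) (nat_lit 12) nil (node (nat_lit 5) (nat_lit 67773) (nat_lit 12) nil
  (node (nat_lit 4) (nat_lit 67773) (nat_lit 12) nil nil))) nil))) (node (nat_lit 5) (nat_lit 0)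
  (nat_lit 10) (node (nat_lit 7) (nat_lit 0) (nat_lit 11) (node (nat_lit 4) (nat_lit 0) (nat_lit
  12) (node (nat_lit 7) (nat_lit 67034) (nat_lit 13) (node (nat_lit 5) (nat_lit 68622) (nat_lit
  14) (node (nat_lit 4) (nat_lit 69841) (nat_lit 15) (node (nat_lit 7) (nat_lit 70812) (nat_lit
  16) (node (nat_lit 4) (nat_lit 71568) (nat_lit 17) (node (nat_lit 5) (nat_lit 72159) (nat_lit
  18) (node (nat_lit 7) (nat_lit 72535) (nat_lit 19) (node (nat_lit 4) (nat_lit 72720) (nat_lit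
  20) nil nil) (node (nat_lit 4) (nat_lit 72535) (nat_lit 19) nil nil)) nil) nil) nil) (node
  (nat_lit 7) (nat_lit 69864) (nat_lit 15) (node (nat_lit 4) (nat_lit 70834) (nat_lit 16) (node
  (nat_lit 5) (nat_lit 71591) (nat_lit 17) (node (nat_lit 4) (nat_lit 71801) (nat_lit 18) (node
  (nat_lit 7) (nat_lit 70903) (nat_lit 19) (node (nat_lit 4) (nat_lit 69817) (nat_lit 20) (node
  (nat_lit 5) (nat_lit 66447) (nat_lit 21) (node (nat_lit 7) (nat_lit 61908) (nat_lit 22) (node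
  (nat_lit 5) (nat_lit 50939) (nat_lit 23) (node (nat_lit 4) (nat_lit 40794) (nat_lit 24) (node
  (nat_lit 5) (nat_lit 21660) (nat_lit 25) (node (nat_lit 7) (nat_lit 21732) (nat_lit 26) (node
  (nat_lit 4) (nat_lit 21746) (nat_lit 27) nil nil) nil) nil) nil) nil) nil) nil) nil) nil) nil)
  nil) nil) nil)) nil) (node (nat_lit 5) (nat_lit 0) (nat_lit 13) (node (nat_lit 4) (nat_lit
  63782) (nat_lit 14) (node (nat_lit 7) (nat_lit 62727) (nat_lit 15) (node (nat_lit 4) (nat_lit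
  49341) (nat_lit 16) (node (nat_lit 5) (nat_lit 49958) (nat_lit 17) (node (nat_lit 7) (nat_lit
  50441) (nat_lit 18) (node (nat_lit 5) (nat_lit 50817) (nat_lit 19) nil nil) nil) nil) (node
  (nat_lit 5) (nat_lit 63375) (nat_lit 16) (node (nat_lit 7) (nat_lit 62759) (nat_lit 17) nil nil)
  nil)) nil) (node (nat_lit 0) (nat_lit 68024) (nat_lit 14) nil nil)) (node (nat_lit 0) (nat_lit
  67783) (nat_lit 13) nil nil))) (node (nat_lit 0) (nat_lit 68028) (nat_lit 12) nil nil)) (node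
  (nat_lit 0) (nat_lit 67473) (nat_lit 11) nil nil)) (node (nat_lit 0) (nat_lit 65174) (nat_lit
  10) (node (nat_lit 5) (nat_lit 65174) (nat_lit 11) nil (node (nat_lit 7) (nat_lit 65174)
  (nat_lit 11) nil (node (nat_lit 4) (nat_lit 65174) (nat_lit 11) nil nil))) nil))) (node (nat_lit
  0) (nat_lit 61107) (nat_lit 9) (node (nat_lit 4) (nat_lit 61492) (nat_lit 10) (node (nat_lit 5)
  (nat_lit 62600) (nat_lit 11) nil (node (nat_lit 7) (nat_lit 62600) (nat_lit 11) (node (nat_lit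
  5) (nat_lit 62600) (nat_lit 12) nil nil) nil)) (node (nat_lit 7) (nat_lit 61492) (nat_lit 10)
  (node (nat_lit 4) (nat_lit 61596) (nat_lit 11) nil (node (nat_lit 5) (nat_lit 61713) (nat_lit
  11) nil nil)) (node (nat_lit 5) (nat_lit 61492) (nat_lit 10) (node (nat_lit 7) (nat_lit 62600)
  (nat_lit 11) nil (node (nat_lit 4) (nat_lit 61596) (nat_lit 11) nil nil)) nil))) nil)) nil))

noncomputable def c86 : Tr :=
  (node (nat_lit 3) (nat_lit 0) (nat_lit 1) (node (nat_lit 3) (nat_lit 0) (nat_lit 2) (node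
  (nat_lit 3) (nat_lit 0) (nat_lit 3) t285 (node (nat_lit 4) (nat_lit 0) (nat_lit 3) (node
  (nat_lit 3) (nat_lit 0) (nat_lit 4) (node (nat_lit 5) (nat_lit 0) (nat_lit 5) t287 (node
  (nat_lit 4) (nat_lit 0) (nat_lit 5) (node (nat_lit 5) (nat_lit 0) (nat_lit 6) (node (nat_lit 7)
  (nat_lit 0) (nat_lit 7) t288 nil) nil) nil)) nil) nil)) nil) nil)

noncomputable def t289 : Tr :=
  (node (nat_lit 6) (nat_lit 0) (nat_lit 5) (node (nat_lit 5) (nat_lit 77677) (nat_lit 6) (node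
  (nat_lit 7) (nat_lit 77677) (nat_lit 7) (node (nat_lit 5) (nat_lit 77677) (nat_lit 8) (node
  (nat_lit 4) (nat_lit 77677) (nat_lit 9) (node (nat_lit 7) (nat_lit 77677) (nat_lit 10) (node
  (nat_lit 5) (nat_lit 77677) (nat_lit 11) (node (nat_lit 7) (nat_lit 77677) (nat_lit 12) (node
  (nat_lit 4) (nat_lit 79739) (nat_lit 13) (node (nat_lit 5) (nat_lit 79978) (nat_lit 14) (node
  (nat_lit 7) (nat_lit 79614) (nat_lit 15) nil (node (nat_lit 4) (nat_lit 79455) (nat_lit 15) nil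
  nil)) (node (nat_lit 7) (nat_lit 81295) (nat_lit 14) (node (nat_lit 5) (nat_lit 81198) (nat_lit
  15) nil nil) nil)) (node (nat_lit 6) (nat_lit 81919) (nat_lit 13) nil nil)) (node (nat_lit 6)
  (nat_lit 81730) (nat_lit 12) nil (node (nat_lit 0) (nat_lit 81730) (nat_lit 12) nil nil))) (node
  (nat_lit 4) (nat_lit 77677) (nat_lit 11) (node (nat_lit 5) (nat_lit 77677) (nat_lit 12) (node
  (nat_lit 7) (nat_lit 79747) (nat_lit 13) (node (nat_lit 4) (nat_lit 80582) (nat_lit 14) nil nil)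
  (node (nat_lit 4) (nat_lit 78418) (nat_lit 13) (node (nat_lit 7) (nat_lit 77615) (nat_lit 14)
  (node (nat_lit 5) (nat_lit 76449) (nat_lit 15) nil nil) nil) nil)) (node (nat_lit 0) (nat_lit
  81730) (nat_lit 12) nil (node (nat_lit 6) (nat_lit 81730) (nat_lit 12) nil nil))) (node (nat_lit
  6) (nat_lit 81488) (nat_lit 11) nil (node (nat_lit 0) (nat_lit 81488) (nat_lit 11) nil nil))))
  (node (nat_lit 5) (nat_lit 77677) (nat_lit 10) (node (nat_lit 7) (nat_lit 77677) (nat_lit 11)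
  (node (nat_lit 4) (nat_lit 77677) (nat_lit 12) (node (nat_lit 7) (nat_lit 76673) (nat_lit 13)
  nil (node (nat_lit 5) (nat_lit 78401) (nat_lit 13) nil nil)) (node (nat_lit 5) (nat_lit 77677)
  (nat_lit 12) nil (node (nat_lit 6) (nat_lit 81730) (nat_lit 12) nil nil))) (node (nat_lit 0)
  (nat_lit 81488) (nat_lit 11) nil (node (nat_lit 6) (nat_lit 81488) (nat_lit 11) nil nil))) (node
  (nat_lit 6) (nat_lit 82800) (nat_lit 10) nil (node (nat_lit 0) (nat_lit 82800) (nat_lit 10) nil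
  nil)))) (node (nat_lit 6) (nat_lit 83950) (nat_lit 9) (node (nat_lit 7) (nat_lit 83950) (nat_lit
  10) (node (nat_lit 6) (nat_lit 83950) (nat_lit 11) nil nil) (node (nat_lit 5) (nat_lit 83950)
  (nat_lit 10) (node (nat_lit 7) (nat_lit 83950) (nat_lit 11) nil nil) (node (nat_lit 4) (nat_lit
  83950) (nat_lit 10) nil nil))) (node (nat_lit 0) (nat_lit 83539) (nat_lit 9) nil nil))) (node
  (nat_lit 4) (nat_lit 77677) (nat_lit 8) (node (nat_lit 7) (nat_lit 77677) (nat_lit 9) (node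
  (nat_lit 5) (nat_lit 77677) (nat_lit 10) (node (nat_lit 4) (nat_lit 77677) (nat_lit 11) (node
  (nat_lit 7) (nat_lit 77677) (nat_lit 12) (node (nat_lit 4) (nat_lit 79417) (nat_lit 13) (node
  (nat_lit 5) (nat_lit 80746) (nat_lit 14) nil nil) nil) (node (nat_lit 5) (nat_lit 77677)
  (nat_lit 12) nil nil)) (node (nat_lit 7) (nat_lit 77677) (nat_lit 11) (node (nat_lit 4) (nat_lit
  77677) (nat_lit 12) (node (nat_lit 5) (nat_lit 78401) (nat_lit 13) nil nil) nil) nil)) (node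
  (nat_lit 6) (nat_lit 81178) (nat_lit 10) nil (node (nat_lit 0) (nat_lit 81178) (nat_lit 10) nil
  nil))) (node (nat_lit 5) (nat_lit 77677) (nat_lit 9) (node (nat_lit 4) (nat_lit 77677) (nat_lit
  10) (node (nat_lit 7) (nat_lit 77677) (nat_lit 11) (node (nat_lit 4) (nat_lit 77677) (nat_lit
  12) (node (nat_lit 5) (nat_lit 78785) (nat_lit 13) nil nil) (node (nat_lit 5) (nat_lit 77677)
  (nat_lit 12) (node (nat_lit 7) (nat_lit 79803) (nat_lit 13) (node (nat_lit 4) (nat_lit 79925)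
  (nat_lit 14) nil nil) nil) nil)) (node (nat_lit 6) (nat_lit 81488) (nat_lit 11) nil (node
  (nat_lit 0) (nat_lit 81488) (nat_lit 11) nil nil))) (node (nat_lit 7) (nat_lit 77677) (nat_lit
  10) (node (nat_lit 5) (nat_lit 77677) (nat_lit 11) (node (nat_lit 4) (nat_lit 77677) (nat_lit
  12) nil nil) (node (nat_lit 6) (nat_lit 81488) (nat_lit 11) nil nil)) (node (nat_lit 0) (nat_lit
  81178) (nat_lit 10) nil (node (nat_lit 6) (nat_lit 81178) (nat_lit 10) nil nil)))) (node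
  (nat_lit 6) (nat_lit 82416) (nat_lit 9) nil (node (nat_lit 0) (nat_lit 82416) (nat_lit 9) nil
  nil)))) (node (nat_lit 0) (nat_lit 83186) (nat_lit 8) nil (node (nat_lit 6) (nat_lit 80273)
  (nat_lit 8) nil nil)))) (node (nat_lit 6) (nat_lit 82897) (nat_lit 7) (node (nat_lit 7) (nat_lit
  82897) (nat_lit 8) (node (nat_lit 5) (nat_lit 82897) (nat_lit 9) nil (node (nat_lit 4) (nat_lit
  82897) (nat_lit 9) nil (node (nat_lit 0) (nat_lit 83897) (nat_lit 9) nil nil))) (node (nat_lit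
  4) (nat_lit 82897) (nat_lit 8) (node (nat_lit 5) (nat_lit 82897) (nat_lit 9) nil nil) (node
  (nat_lit 0) (nat_lit 83549) (nat_lit 8) nil nil))) (node (nat_lit 4) (nat_lit 77677) (nat_lit 7)
  (node (nat_lit 7) (nat_lit 77677) (nat_lit 8) (node (nat_lit 5) (nat_lit 77677) (nat_lit 9)
  (node (nat_lit 7) (nat_lit 77677) (nat_lit 10) nil (node (nat_lit 4) (nat_lit 77677) (nat_lit
  10) nil nil)) (node (nat_lit 4) (nat_lit 77677) (nat_lit 9) nil (node (nat_lit 6) (nat_lit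
  80781) (nat_lit 9) nil nil))) (node (nat_lit 5) (nat_lit 77677) (nat_lit 8) (node (nat_lit 6)
  (nat_lit 80781) (nat_lit 9) nil (node (nat_lit 7) (nat_lit 77677) (nat_lit 9) nil nil)) (node
  (nat_lit 6) (nat_lit 81784) (nat_lit 8) nil (node (nat_lit 0) (nat_lit 81784) (nat_lit 8) nil
  nil)))) (node (nat_lit 0) (nat_lit 82705) (nat_lit 7) nil nil)))) (node (nat_lit 4) (nat_lit
  77677) (nat_lit 6) (node (nat_lit 7) (nat_lit 77677) (nat_lit 7) (node (nat_lit 4) (nat_lit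
  77677) (nat_lit 8) (node (nat_lit 5) (nat_lit 77677) (nat_lit 9) (node (nat_lit 7) (nat_lit
  77677) (nat_lit 10) (node (nat_lit 5) (nat_lit 77677) (nat_lit 11) (node (nat_lit 4) (nat_lit
  77677) (nat_lit 12) nil nil) (node (nat_lit 4) (nat_lit 77677) (nat_lit 11) (node (nat_lit 7)
  (nat_lit 77677) (nat_lit 12) nil nil) nil)) (node (nat_lit 4) (nat_lit 77677) (nat_lit 10) (node
  (nat_lit 7) (nat_lit 77677) (nat_lit 11) nil nil) (node (nat_lit 0) (nat_lit 81178) (nat_lit 10)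
  nil (node (nat_lit 6) (nat_lit 81178) (nat_lit 10) nil nil)))) (node (nat_lit 6) (nat_lit 83539)
  (nat_lit 9) (node (nat_lit 4) (nat_lit 83539) (nat_lit 10) nil nil) (node (nat_lit 0) (nat_lit
  82646) (nat_lit 9) nil nil))) (node (nat_lit 5) (nat_lit 77677) (nat_lit 8) (node (nat_lit 4)
  (nat_lit 77677) (nat_lit 9) (node (nat_lit 5) (nat_lit 77677) (nat_lit 10) (node (nat_lit 7)
  (nat_lit 77677) (nat_lit 11) nil nil) (node (nat_lit 7) (nat_lit 77677) (nat_lit 10) (node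
  (nat_lit 4) (nat_lit 77677) (nat_lit 11) nil nil) (node (nat_lit 6) (nat_lit 81178) (nat_lit 10)
  nil nil))) (node (nat_lit 7) (nat_lit 77677) (nat_lit 9) (node (nat_lit 4) (nat_lit 77677)
  (nat_lit 10) (node (nat_lit 7) (nat_lit 77677) (nat_lit 11) (node (nat_lit 5) (nat_lit 77677)
  (nat_lit 12) nil nil) (node (nat_lit 5) (nat_lit 77677) (nat_lit 11) nil nil)) (node (nat_lit 6)
  (nat_lit 81178) (nat_lit 10) nil nil)) (node (nat_lit 0) (nat_lit 80781) (nat_lit 9) nil (node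
  (nat_lit 6) (nat_lit 80781) (nat_lit 9) nil nil)))) (node (nat_lit 0) (nat_lit 81784) (nat_lit
  8) nil nil))) (node (nat_lit 5) (nat_lit 77677) (nat_lit 7) (node (nat_lit 4) (nat_lit 77677)
  (nat_lit 8) nil nil) (node (nat_lit 6) (nat_lit 80746) (nat_lit 7) nil (node (nat_lit 0)
  (nat_lit 79620) (nat_lit 7) nil nil)))) (node (nat_lit 0) (nat_lit 80518) (nat_lit 6) (node
  (nat_lit 7) (nat_lit 80518) (nat_lit 7) nil nil) nil))) (node (nat_lit 5) (nat_lit 0) (nat_lit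
  5) (node (nat_lit 7) (nat_lit 58095) (nat_lit 6) (node (nat_lit 4) (nat_lit 58509) (nat_lit 7)
  (node (nat_lit 5) (nat_lit 58782) (nat_lit 8) (node (nat_lit 4) (nat_lit 58782) (nat_lit 9)
  (node (nat_lit 7) (nat_lit 58746) (nat_lit 10) (node (nat_lit 4) (nat_lit 66241) (nat_lit 11)
  (node (nat_lit 5) (nat_lit 68886) (nat_lit 12) (node (nat_lit 7) (nat_lit 70425) (nat_lit 13)
  (node (nat_lit 5) (nat_lit 71079) (nat_lit 14) (node (nat_lit 4) (nat_lit 69858) (nat_lit 15)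
  (node (nat_lit 5) (nat_lit 68626) (nat_lit 16) nil nil) nil) nil) (node (nat_lit 6) (nat_lit
  69019) (nat_lit 13) nil nil)) (node (nat_lit 0) (nat_lit 71759) (nat_lit 12) nil (node (nat_lit
  6) (nat_lit 71759) (nat_lit 12) nil nil))) (node (nat_lit 5) (nat_lit 66541) (nat_lit 11) (node
  (nat_lit 4) (nat_lit 68233) (nat_lit 12) (node (nat_lit 5) (nat_lit 67805) (nat_lit 13) nil nil)
  (node (nat_lit 7) (nat_lit 69889) (nat_lit 12) (node (nat_lit 4) (nat_lit 72413) (nat_lit 13)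
  nil nil) (node (nat_lit 6) (nat_lit 72059) (nat_lit 12) nil nil))) (node (nat_lit 6) (nat_lit
  70134) (nat_lit 11) nil (node (nat_lit 0) (nat_lit 70134) (nat_lit 11) nil nil)))) (node
  (nat_lit 6) (nat_lit 75341) (nat_lit 10) nil (node (nat_lit 0) (nat_lit 71730) (nat_lit 10) nil
  nil))) (node (nat_lit 7) (nat_lit 58782) (nat_lit 9) (node (nat_lit 5) (nat_lit 58787) (nat_lit
  10) (node (nat_lit 4) (nat_lit 66216) (nat_lit 11) (node (nat_lit 7) (nat_lit 68071) (nat_lit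
  12) nil (node (nat_lit 5) (nat_lit 65158) (nat_lit 12) nil nil)) (node (nat_lit 6) (nat_lit
  66061) (nat_lit 11) nil nil)) (node (nat_lit 6) (nat_lit 69677) (nat_lit 10) nil (node (nat_lit
  0) (nat_lit 65746) (nat_lit 10) nil nil))) (node (nat_lit 6) (nat_lit 61955) (nat_lit 9) (node
  (nat_lit 7) (nat_lit 51494) (nat_lit 10) (node (nat_lit 5) (nat_lit 29868) (nat_lit 11) nil nil)
  nil) (node (nat_lit 0) (nat_lit 73205) (nat_lit 9) nil nil)))) (node (nat_lit 7) (nat_lit 58763)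
  (nat_lit 8) (node (nat_lit 5) (nat_lit 58706) (nat_lit 9) (node (nat_lit 4) (nat_lit 58693)
  (nat_lit 10) (node (nat_lit 5) (nat_lit 64383) (nat_lit 11) (node (nat_lit 7) (nat_lit 65955)
  (nat_lit 12) (node (nat_lit 4) (nat_lit 62014) (nat_lit 13) nil nil) nil) (node (nat_lit 7)
  (nat_lit 64623) (nat_lit 11) (node (nat_lit 4) (nat_lit 67319) (nat_lit 12) (node (nat_lit 5)
  (nat_lit 69251) (nat_lit 13) nil nil) nil) (node (nat_lit 6) (nat_lit 65967) (nat_lit 11) nil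
  (node (nat_lit 0) (nat_lit 65967) (nat_lit 11) nil nil)))) (node (nat_lit 7) (nat_lit 58706)
  (nat_lit 10) (node (nat_lit 6) (nat_lit 65979) (nat_lit 11) nil nil) (node (nat_lit 6) (nat_lit
  65670) (nat_lit 10) nil (node (nat_lit 0) (nat_lit 65670) (nat_lit 10) nil nil)))) (node
  (nat_lit 6) (nat_lit 70957) (nat_lit 9) nil (node (nat_lit 0) (nat_lit 74351) (nat_lit 9) nil
  nil))) (node (nat_lit 6) (nat_lit 78027) (nat_lit 8) nil (node (nat_lit 0) (nat_lit 74897)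
  (nat_lit 8) nil nil)))) (node (nat_lit 6) (nat_lit 81899) (nat_lit 7) (node (nat_lit 5) (nat_lit
  81899) (nat_lit 8) (node (nat_lit 7) (nat_lit 81899) (nat_lit 9) (node (nat_lit 5) (nat_lit
  81899) (nat_lit 10) (node (nat_lit 4) (nat_lit 81899) (nat_lit 11) nil (node (nat_lit 6)
  (nat_lit 83767) (nat_lit 11) nil nil)) (node (nat_lit 4) (nat_lit 81899) (nat_lit 10) nil nil))
  (node (nat_lit 6) (nat_lit 83059) (nat_lit 9) nil nil)) (node (nat_lit 7) (nat_lit 81899)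
  (nat_lit 8) nil (node (nat_lit 4) (nat_lit 81899) (nat_lit 8) nil (node (nat_lit 0) (nat_lit
  82551) (nat_lit 8) nil nil)))) (node (nat_lit 0) (nat_lit 77907) (nat_lit 7) nil nil))) (node
  (nat_lit 4) (nat_lit 57857) (nat_lit 6) (node (nat_lit 7) (nat_lit 58265) (nat_lit 7) (node
  (nat_lit 5) (nat_lit 58465) (nat_lit 8) (node (nat_lit 7) (nat_lit 58465) (nat_lit 9) (node
  (nat_lit 4) (nat_lit 58632) (nat_lit 10) (node (nat_lit 5) (nat_lit 64522) (nat_lit 11) (node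
  (nat_lit 4) (nat_lit 67254) (nat_lit 12) (node (nat_lit 7) (nat_lit 66511) (nat_lit 13) (node
  (nat_lit 5) (nat_lit 64997) (nat_lit 14) nil nil) nil) (node (nat_lit 7) (nat_lit 64617)
  (nat_lit 12) nil nil)) (node (nat_lit 7) (nat_lit 63510) (nat_lit 11) (node (nat_lit 5) (nat_lit
  62161) (nat_lit 12) (node (nat_lit 4) (nat_lit 59670) (nat_lit 13) (node (nat_lit 5) (nat_lit
  56437) (nat_lit 14) nil nil) nil) nil) (node (nat_lit 6) (nat_lit 65906) (nat_lit 11) nil nil)))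
  (node (nat_lit 0) (nat_lit 65429) (nat_lit 10) nil (node (nat_lit 6) (nat_lit 65429) (nat_lit
  10) nil nil))) (node (nat_lit 6) (nat_lit 65032) (nat_lit 9) nil (node (nat_lit 0) (nat_lit
  65032) (nat_lit 9) nil nil))) (node (nat_lit 4) (nat_lit 58465) (nat_lit 8) (node (nat_lit 5)
  (nat_lit 58548) (nat_lit 9) (node (nat_lit 7) (nat_lit 58548) (nat_lit 10) (node (nat_lit 5)
  (nat_lit 61422) (nat_lit 11) (node (nat_lit 4) (nat_lit 61327) (nat_lit 12) nil nil) (node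
  (nat_lit 4) (nat_lit 60370) (nat_lit 11) nil nil)) (node (nat_lit 4) (nat_lit 58471) (nat_lit
  10) (node (nat_lit 7) (nat_lit 63488) (nat_lit 11) (node (nat_lit 5) (nat_lit 58100) (nat_lit
  12) nil nil) (node (nat_lit 6) (nat_lit 65745) (nat_lit 11) nil (node (nat_lit 0) (nat_lit
  65745) (nat_lit 11) nil nil))) (node (nat_lit 6) (nat_lit 56669) (nat_lit 10) nil (node (nat_lit
  0) (nat_lit 65512) (nat_lit 10) nil nil)))) (node (nat_lit 6) (nat_lit 65032) (nat_lit 9) nil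
  (node (nat_lit 0) (nat_lit 65032) (nat_lit 9) nil nil))) (node (nat_lit 6) (nat_lit 67719)
  (nat_lit 8) nil (node (nat_lit 0) (nat_lit 64324) (nat_lit 8) nil nil)))) (node (nat_lit 5)
  (nat_lit 58408) (nat_lit 7) (node (nat_lit 7) (nat_lit 58637) (nat_lit 8) (node (nat_lit 4)
  (nat_lit 58637) (nat_lit 9) (node (nat_lit 5) (nat_lit 58637) (nat_lit 10) (node (nat_lit 4)
  (nat_lit 62563) (nat_lit 11) (node (nat_lit 7) (nat_lit 61839) (nat_lit 12) nil nil) nil) (node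
  (nat_lit 7) (nat_lit 58637) (nat_lit 10) (node (nat_lit 5) (nat_lit 62165) (nat_lit 11) nil nil)
  nil)) (node (nat_lit 5) (nat_lit 58637) (nat_lit 9) (node (nat_lit 4) (nat_lit 58610) (nat_lit
  10) (node (nat_lit 7) (nat_lit 64559) (nat_lit 11) (node (nat_lit 4) (nat_lit 67556) (nat_lit
  12) (node (nat_lit 5) (nat_lit 66291) (nat_lit 13) nil nil) (node (nat_lit 5) (nat_lit 64310)
  (nat_lit 12) nil nil)) (node (nat_lit 0) (nat_lit 65884) (nat_lit 11) nil (node (nat_lit 6)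
  (nat_lit 65884) (nat_lit 11) nil nil))) nil) (node (nat_lit 6) (nat_lit 65204) (nat_lit 9) nil
  nil))) (node (nat_lit 6) (nat_lit 46092) (nat_lit 8) (node (nat_lit 7) (nat_lit 46092) (nat_lit
  9) nil nil) (node (nat_lit 0) (nat_lit 64466) (nat_lit 8) nil nil))) (node (nat_lit 6) (nat_lit
  72414) (nat_lit 7) nil (node (nat_lit 0) (nat_lit 70603) (nat_lit 7) nil nil)))) (node (nat_lit
  6) (nat_lit 0) (nat_lit 6) (node (nat_lit 5) (nat_lit 80411) (nat_lit 7) (node (nat_lit 7)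
  (nat_lit 80411) (nat_lit 8) (node (nat_lit 5) (nat_lit 80411) (nat_lit 9) (node (nat_lit 4)
  (nat_lit 80411) (nat_lit 10) (node (nat_lit 7) (nat_lit 80411) (nat_lit 11) (node (nat_lit 5)
  (nat_lit 80411) (nat_lit 12) (node (nat_lit 7) (nat_lit 80411) (nat_lit 13) (node (nat_lit 4)
  (nat_lit 81246) (nat_lit 14) nil nil) nil) (node (nat_lit 4) (nat_lit 80411) (nat_lit 12) nil
  nil)) (node (nat_lit 5) (nat_lit 80411) (nat_lit 11) nil (node (nat_lit 6) (nat_lit 83114)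
  (nat_lit 11) nil nil))) (node (nat_lit 6) (nat_lit 83726) (nat_lit 10) (node (nat_lit 7)
  (nat_lit 83726) (nat_lit 11) nil nil) (node (nat_lit 0) (nat_lit 83726) (nat_lit 10) nil nil)))
  (node (nat_lit 6) (nat_lit 83549) (nat_lit 9) nil (node (nat_lit 4) (nat_lit 80411) (nat_lit 9)
  nil (node (nat_lit 0) (nat_lit 82407) (nat_lit 9) nil nil)))) nil) (node (nat_lit 4) (nat_lit
  80411) (nat_lit 7) (node (nat_lit 7) (nat_lit 80411) (nat_lit 8) (node (nat_lit 5) (nat_lit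
  80411) (nat_lit 9) nil (node (nat_lit 4) (nat_lit 80411) (nat_lit 9) nil nil)) nil) (node
  (nat_lit 0) (nat_lit 81246) (nat_lit 7) nil nil))) (node (nat_lit 0) (nat_lit 74103) (nat_lit 6)
  (node (nat_lit 6) (nat_lit 74939) (nat_lit 7) nil nil) nil)))) (node (nat_lit 4) (nat_lit 0)
  (nat_lit 5) (node (nat_lit 5) (nat_lit 57941) (nat_lit 6) (node (nat_lit 7) (nat_lit 58430)
  (nat_lit 7) (node (nat_lit 4) (nat_lit 58447) (nat_lit 8) (node (nat_lit 7) (nat_lit 58447)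
  (nat_lit 9) (node (nat_lit 5) (nat_lit 58458) (nat_lit 10) (node (nat_lit 4) (nat_lit 64764)
  (nat_lit 11) (node (nat_lit 5) (nat_lit 69070) (nat_lit 12) (node (nat_lit 7) (nat_lit 68737)
  (nat_lit 13) (node (nat_lit 4) (nat_lit 68725) (nat_lit 14) nil nil) nil) (node (nat_lit 7)
  (nat_lit 67743) (nat_lit 12) (node (nat_lit 4) (nat_lit 63270) (nat_lit 13) nil nil) nil)) (node
  (nat_lit 7) (nat_lit 64485) (nat_lit 11) (node (nat_lit 4) (nat_lit 66331) (nat_lit 12) (node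
  (nat_lit 5) (nat_lit 67629) (nat_lit 13) nil nil) (node (nat_lit 0) (nat_lit 70004) (nat_lit 12)
  nil nil)) (node (nat_lit 6) (nat_lit 69846) (nat_lit 11) nil (node (nat_lit 0) (nat_lit 65732)
  (nat_lit 11) nil nil)))) (node (nat_lit 6) (nat_lit 69342) (nat_lit 10) nil (node (nat_lit 0)
  (nat_lit 65411) (nat_lit 10) nil nil))) (node (nat_lit 6) (nat_lit 68710) (nat_lit 9) nil (node
  (nat_lit 0) (nat_lit 68710) (nat_lit 9) nil nil))) (node (nat_lit 5) (nat_lit 58422) (nat_lit 8)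
  (node (nat_lit 4) (nat_lit 58422) (nat_lit 9) (node (nat_lit 7) (nat_lit 58422) (nat_lit 10)
  (node (nat_lit 4) (nat_lit 63985) (nat_lit 11) (node (nat_lit 5) (nat_lit 67132) (nat_lit 12)
  nil nil) (node (nat_lit 5) (nat_lit 64032) (nat_lit 11) (node (nat_lit 7) (nat_lit 67378)
  (nat_lit 12) nil nil) nil)) (node (nat_lit 5) (nat_lit 58467) (nat_lit 10) (node (nat_lit 7)
  (nat_lit 62983) (nat_lit 11) (node (nat_lit 4) (nat_lit 64680) (nat_lit 12) (node (nat_lit 5)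
  (nat_lit 61991) (nat_lit 13) nil nil) nil) (node (nat_lit 6) (nat_lit 56529) (nat_lit 11) (node
  (nat_lit 7) (nat_lit 44288) (nat_lit 12) nil nil) (node (nat_lit 0) (nat_lit 65741) (nat_lit 11)
  nil nil))) (node (nat_lit 6) (nat_lit 65387) (nat_lit 10) nil (node (nat_lit 0) (nat_lit 65387)
  (nat_lit 10) nil nil)))) (node (nat_lit 6) (nat_lit 64989) (nat_lit 9) nil (node (nat_lit 0)
  (nat_lit 64989) (nat_lit 9) nil nil))) (node (nat_lit 6) (nat_lit 69658) (nat_lit 8) nil (node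
  (nat_lit 0) (nat_lit 69658) (nat_lit 8) nil nil)))) (node (nat_lit 4) (nat_lit 58434) (nat_lit
  7) (node (nat_lit 7) (nat_lit 58587) (nat_lit 8) (node (nat_lit 5) (nat_lit 58587) (nat_lit 9)
  (node (nat_lit 7) (nat_lit 58723) (nat_lit 10) (node (nat_lit 4) (nat_lit 63834) (nat_lit 11)
  (node (nat_lit 5) (nat_lit 66743) (nat_lit 12) (node (nat_lit 7) (nat_lit 66170) (nat_lit 13)
  nil (node (nat_lit 6) (nat_lit 63640) (nat_lit 13) nil nil)) (node (nat_lit 7) (nat_lit 68292)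
  (nat_lit 12) (node (nat_lit 5) (nat_lit 68280) (nat_lit 13) nil nil) nil)) (node (nat_lit 6)
  (nat_lit 65997) (nat_lit 11) nil (node (nat_lit 0) (nat_lit 65997) (nat_lit 11) nil nil))) (node
  (nat_lit 4) (nat_lit 58611) (nat_lit 10) (node (nat_lit 5) (nat_lit 62802) (nat_lit 11) (node
  (nat_lit 7) (nat_lit 63809) (nat_lit 12) (node (nat_lit 4) (nat_lit 64693) (nat_lit 13) (node
  (nat_lit 5) (nat_lit 62778) (nat_lit 14) nil nil) nil) nil) nil) (node (nat_lit 6) (nat_lit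
  71536) (nat_lit 10) nil (node (nat_lit 0) (nat_lit 65551) (nat_lit 10) nil nil)))) (node
  (nat_lit 4) (nat_lit 58587) (nat_lit 9) (node (nat_lit 5) (nat_lit 58699) (nat_lit 10) (node
  (nat_lit 7) (nat_lit 62631) (nat_lit 11) (node (nat_lit 5) (nat_lit 59768) (nat_lit 12) nil nil)
  (node (nat_lit 6) (nat_lit 58668) (nat_lit 11) nil nil)) (node (nat_lit 6) (nat_lit 65551)
  (nat_lit 10) nil (node (nat_lit 0) (nat_lit 65551) (nat_lit 10) nil nil))) (node (nat_lit 6)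
  (nat_lit 68851) (nat_lit 9) nil (node (nat_lit 0) (nat_lit 68851) (nat_lit 9) nil nil)))) (node
  (nat_lit 6) (nat_lit 73753) (nat_lit 8) nil (node (nat_lit 0) (nat_lit 67888) (nat_lit 8) nil
  nil))) (node (nat_lit 6) (nat_lit 27745) (nat_lit 7) nil (node (nat_lit 0) (nat_lit 67662)
  (nat_lit 7) nil nil)))) (node (nat_lit 7) (nat_lit 0) (nat_lit 6) (node (nat_lit 5) (nat_lit
  58839) (nat_lit 7) (node (nat_lit 4) (nat_lit 58867) (nat_lit 8) (node (nat_lit 5) (nat_lit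
  58867) (nat_lit 9) (node (nat_lit 7) (nat_lit 58878) (nat_lit 10) (node (nat_lit 5) (nat_lit
  65611) (nat_lit 11) (node (nat_lit 4) (nat_lit 67623) (nat_lit 12) (node (nat_lit 7) (nat_lit
  67633) (nat_lit 13) (node (nat_lit 4) (nat_lit 67550) (nat_lit 14) (node (nat_lit 5) (nat_lit
  66898) (nat_lit 15) nil nil) nil) nil) (node (nat_lit 6) (nat_lit 71129) (nat_lit 12) nil nil))
  (node (nat_lit 4) (nat_lit 66255) (nat_lit 11) (node (nat_lit 5) (nat_lit 68653) (nat_lit 12)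
  (node (nat_lit 4) (nat_lit 67816) (nat_lit 13) nil nil) (node (nat_lit 7) (nat_lit 69244)
  (nat_lit 12) (node (nat_lit 5) (nat_lit 69367) (nat_lit 13) nil nil) nil)) (node (nat_lit 0)
  (nat_lit 66152) (nat_lit 11) nil (node (nat_lit 6) (nat_lit 66152) (nat_lit 11) nil nil))))
  (node (nat_lit 6) (nat_lit 62303) (nat_lit 10) (node (nat_lit 7) (nat_lit 54007) (nat_lit 11)
  (node (nat_lit 4) (nat_lit 44334) (nat_lit 12) nil nil) nil) (node (nat_lit 0) (nat_lit 69762)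
  (nat_lit 10) nil nil))) (node (nat_lit 7) (nat_lit 58867) (nat_lit 9) (node (nat_lit 4) (nat_lit
  58867) (nat_lit 10) (node (nat_lit 5) (nat_lit 61589) (nat_lit 11) (node (nat_lit 7) (nat_lit
  60873) (nat_lit 12) nil nil) nil) (node (nat_lit 6) (nat_lit 65831) (nat_lit 10) nil nil)) (node
  (nat_lit 6) (nat_lit 74147) (nat_lit 9) nil (node (nat_lit 0) (nat_lit 69131) (nat_lit 9) nil
  nil)))) (node (nat_lit 7) (nat_lit 58867) (nat_lit 8) (node (nat_lit 4) (nat_lit 58867) (nat_lit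
  9) (node (nat_lit 5) (nat_lit 58879) (nat_lit 10) (node (nat_lit 4) (nat_lit 63675) (nat_lit 11)
  (node (nat_lit 7) (nat_lit 62951) (nat_lit 12) (node (nat_lit 5) (nat_lit 60981) (nat_lit 13)
  nil nil) nil) (node (nat_lit 7) (nat_lit 65309) (nat_lit 11) (node (nat_lit 5) (nat_lit 66146)
  (nat_lit 12) nil nil) (node (nat_lit 6) (nat_lit 54781) (nat_lit 11) nil nil))) (node (nat_lit
  7) (nat_lit 58867) (nat_lit 10) (node (nat_lit 6) (nat_lit 66141) (nat_lit 11) nil (node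
  (nat_lit 0) (nat_lit 66141) (nat_lit 11) nil nil)) (node (nat_lit 6) (nat_lit 65831) (nat_lit
  10) nil nil))) (node (nat_lit 6) (nat_lit 69131) (nat_lit 9) nil (node (nat_lit 0) (nat_lit
  65434) (nat_lit 9) nil nil))) (node (nat_lit 6) (nat_lit 73181) (nat_lit 8) nil (node (nat_lit
  0) (nat_lit 70066) (nat_lit 8) nil nil)))) (node (nat_lit 6) (nat_lit 72778) (nat_lit 7) nil
  (node (nat_lit 0) (nat_lit 71832) (nat_lit 7) nil nil))) (node (nat_lit 6) (nat_lit 79345)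
  (nat_lit 6) (node (nat_lit 4) (nat_lit 79345) (nat_lit 7) (node (nat_lit 7) (nat_lit 79345)
  (nat_lit 8) (node (nat_lit 4) (nat_lit 79345) (nat_lit 9) (node (nat_lit 5) (nat_lit 79345)
  (nat_lit 10) (node (nat_lit 7) (nat_lit 79345) (nat_lit 11) (node (nat_lit 4) (nat_lit 79345)
  (nat_lit 12) nil nil) (node (nat_lit 4) (nat_lit 79345) (nat_lit 11) nil nil)) (node (nat_lit 0)
  (nat_lit 81739) (nat_lit 10) nil nil)) nil) nil) (node (nat_lit 5) (nat_lit 79345) (nat_lit 7)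
  (node (nat_lit 7) (nat_lit 79345) (nat_lit 8) nil nil) (node (nat_lit 7) (nat_lit 79345)
  (nat_lit 7) (node (nat_lit 6) (nat_lit 80833) (nat_lit 8) nil nil) nil))) (node (nat_lit 0)
  (nat_lit 72311) (nat_lit 6) nil nil)))) (node (nat_lit 0) (nat_lit 0) (nat_lit 5) (node (nat_lit
  7) (nat_lit 72857) (nat_lit 6) (node (nat_lit 6) (nat_lit 74801) (nat_lit 7) nil (node (nat_lit
  5) (nat_lit 72857) (nat_lit 7) nil nil)) (node (nat_lit 6) (nat_lit 75513) (nat_lit 6) (node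
  (nat_lit 7) (nat_lit 75513) (nat_lit 7) nil nil) (node (nat_lit 4) (nat_lit 72857) (nat_lit 6)
  nil (node (nat_lit 5) (nat_lit 72857) (nat_lit 6) (node (nat_lit 7) (nat_lit 72857) (nat_lit 7)
  nil nil) (node (nat_lit 0) (nat_lit 74927) (nat_lit 6) nil nil))))) nil))))

noncomputable def t290 : Tr :=
  (node (nat_lit 6) (nat_lit 0) (nat_lit 5) (node (nat_lit 5) (nat_lit 75724) (nat_lit 6) (node
  (nat_lit 4) (nat_lit 75724) (nat_lit 7) (node (nat_lit 5) (nat_lit 75724) (nat_lit 8) (node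
  (nat_lit 3) (nat_lit 75724) (nat_lit 9) (node (nat_lit 4) (nat_lit 75724) (nat_lit 10) (node
  (nat_lit 5) (nat_lit 75724) (nat_lit 11) (node (nat_lit 4) (nat_lit 75630) (nat_lit 12) (node
  (nat_lit 12) (nat_lit 79094) (nat_lit 13) (node (nat_lit 5) (nat_lit 78615) (nat_lit 14) (node
  (nat_lit 4) (nat_lit 77417) (nat_lit 15) nil nil) (node (nat_lit 4) (nat_lit 78953) (nat_lit 14)
  (node (nat_lit 5) (nat_lit 78285) (nat_lit 15) (node (nat_lit 6) (nat_lit 76968) (nat_lit 16)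
  nil nil) nil) nil)) (node (nat_lit 6) (nat_lit 81506) (nat_lit 13) nil (node (nat_lit 0)
  (nat_lit 81506) (nat_lit 13) nil nil))) (node (nat_lit 6) (nat_lit 81336) (nat_lit 12) nil (node
  (nat_lit 0) (nat_lit 81336) (nat_lit 12) nil nil))) (node (nat_lit 12) (nat_lit 75724) (nat_lit
  11) (node (nat_lit 5) (nat_lit 75747) (nat_lit 12) (node (nat_lit 4) (nat_lit 78605) (nat_lit
  13) (node (nat_lit 5) (nat_lit 78263) (nat_lit 14) nil (node (nat_lit 12) (nat_lit 77485)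
  (nat_lit 14) nil nil)) (node (nat_lit 12) (nat_lit 78289) (nat_lit 13) (node (nat_lit 4)
  (nat_lit 78823) (nat_lit 14) (node (nat_lit 5) (nat_lit 78155) (nat_lit 15) nil nil) nil) nil))
  (node (nat_lit 6) (nat_lit 81336) (nat_lit 12) nil (node (nat_lit 0) (nat_lit 81336) (nat_lit
  12) nil nil))) (node (nat_lit 6) (nat_lit 81000) (nat_lit 11) nil (node (nat_lit 0) (nat_lit
  81000) (nat_lit 11) nil nil)))) (node (nat_lit 5) (nat_lit 75724) (nat_lit 10) (node (nat_lit 4)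
  (nat_lit 75724) (nat_lit 11) (node (nat_lit 12) (nat_lit 75770) (nat_lit 12) (node (nat_lit 4)
  (nat_lit 77913) (nat_lit 13) (node (nat_lit 5) (nat_lit 79570) (nat_lit 14) nil nil) (node
  (nat_lit 5) (nat_lit 77913) (nat_lit 13) (node (nat_lit 12) (nat_lit 76793) (nat_lit 14) nil
  nil) nil)) (node (nat_lit 5) (nat_lit 75724) (nat_lit 12) nil (node (nat_lit 6) (nat_lit 81336)
  (nat_lit 12) nil (node (nat_lit 0) (nat_lit 81336) (nat_lit 12) nil nil)))) (node (nat_lit 0)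
  (nat_lit 81000) (nat_lit 11) nil (node (nat_lit 6) (nat_lit 81000) (nat_lit 11) nil nil))) (node
  (nat_lit 6) (nat_lit 81943) (nat_lit 10) nil (node (nat_lit 0) (nat_lit 81943) (nat_lit 10) nil
  nil)))) (node (nat_lit 6) (nat_lit 83528) (nat_lit 9) (node (nat_lit 4) (nat_lit 83528) (nat_lit
  10) (node (nat_lit 6) (nat_lit 51948) (nat_lit 11) nil nil) (node (nat_lit 5) (nat_lit 83528)
  (nat_lit 10) (node (nat_lit 4) (nat_lit 83528) (nat_lit 11) (node (nat_lit 3) (nat_lit 83528)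
  (nat_lit 12) nil nil) nil) (node (nat_lit 3) (nat_lit 83528) (nat_lit 10) nil (node (nat_lit 0)
  (nat_lit 83861) (nat_lit 10) nil nil)))) (node (nat_lit 0) (nat_lit 82773) (nat_lit 9) nil
  nil))) (node (nat_lit 3) (nat_lit 77621) (nat_lit 8) (node (nat_lit 4) (nat_lit 77621) (nat_lit
  9) (node (nat_lit 5) (nat_lit 77621) (nat_lit 10) (node (nat_lit 11) (nat_lit 77621) (nat_lit
  11) (node (nat_lit 4) (nat_lit 77621) (nat_lit 12) (node (nat_lit 11) (nat_lit 77048) (nat_lit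
  13) nil nil) (node (nat_lit 5) (nat_lit 77621) (nat_lit 12) nil nil)) (node (nat_lit 4) (nat_lit
  77621) (nat_lit 11) (node (nat_lit 11) (nat_lit 77640) (nat_lit 12) (node (nat_lit 5) (nat_lit
  78718) (nat_lit 13) nil nil) nil) nil)) (node (nat_lit 0) (nat_lit 81122) (nat_lit 10) nil (node
  (nat_lit 6) (nat_lit 81122) (nat_lit 10) nil nil))) (node (nat_lit 5) (nat_lit 77621) (nat_lit
  9) (node (nat_lit 11) (nat_lit 77621) (nat_lit 10) (node (nat_lit 4) (nat_lit 77621) (nat_lit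
  11) (node (nat_lit 11) (nat_lit 77621) (nat_lit 12) (node (nat_lit 5) (nat_lit 77675) (nat_lit
  13) (node (nat_lit 4) (nat_lit 76917) (nat_lit 14) nil nil) nil) (node (nat_lit 5) (nat_lit
  77621) (nat_lit 12) (node (nat_lit 4) (nat_lit 76784) (nat_lit 13) nil nil) nil)) (node (nat_lit
  6) (nat_lit 81432) (nat_lit 11) nil (node (nat_lit 0) (nat_lit 81432) (nat_lit 11) nil nil)))
  (node (nat_lit 4) (nat_lit 77621) (nat_lit 10) (node (nat_lit 5) (nat_lit 77621) (nat_lit 11)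
  (node (nat_lit 11) (nat_lit 77621) (nat_lit 12) nil nil) (node (nat_lit 6) (nat_lit 81432)
  (nat_lit 11) nil nil)) (node (nat_lit 0) (nat_lit 81122) (nat_lit 10) nil (node (nat_lit 6)
  (nat_lit 81122) (nat_lit 10) nil nil)))) (node (nat_lit 0) (nat_lit 81931) (nat_lit 9) nil (node
  (nat_lit 6) (nat_lit 81931) (nat_lit 9) nil nil)))) (node (nat_lit 0) (nat_lit 83183) (nat_lit
  8) nil (node (nat_lit 6) (nat_lit 79307) (nat_lit 8) nil nil)))) (node (nat_lit 6) (nat_lit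
  81529) (nat_lit 7) (node (nat_lit 4) (nat_lit 81529) (nat_lit 8) (node (nat_lit 5) (nat_lit
  81529) (nat_lit 9) (node (nat_lit 4) (nat_lit 81529) (nat_lit 10) nil (node (nat_lit 6) (nat_lit
  83517) (nat_lit 10) nil (node (nat_lit 3) (nat_lit 81529) (nat_lit 10) nil nil))) (node (nat_lit
  3) (nat_lit 81529) (nat_lit 9) nil (node (nat_lit 0) (nat_lit 83145) (nat_lit 9) nil nil)))
  (node (nat_lit 3) (nat_lit 82694) (nat_lit 8) nil (node (nat_lit 0) (nat_lit 83347) (nat_lit 8)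
  nil nil))) (node (nat_lit 3) (nat_lit 77621) (nat_lit 7) (node (nat_lit 4) (nat_lit 77621)
  (nat_lit 8) (node (nat_lit 5) (nat_lit 77621) (nat_lit 9) (node (nat_lit 4) (nat_lit 77621)
  (nat_lit 10) nil (node (nat_lit 10) (nat_lit 77621) (nat_lit 10) nil nil)) (node (nat_lit 10)
  (nat_lit 77621) (nat_lit 9) nil (node (nat_lit 6) (nat_lit 80725) (nat_lit 9) nil nil))) (node
  (nat_lit 5) (nat_lit 77621) (nat_lit 8) (node (nat_lit 6) (nat_lit 80725) (nat_lit 9) nil (node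
  (nat_lit 4) (nat_lit 77621) (nat_lit 9) nil nil)) (node (nat_lit 6) (nat_lit 81593) (nat_lit 8)
  nil (node (nat_lit 0) (nat_lit 80216) (nat_lit 8) nil nil)))) (node (nat_lit 0) (nat_lit 82009)
  (nat_lit 7) nil nil)))) (node (nat_lit 3) (nat_lit 77621) (nat_lit 6) (node (nat_lit 4) (nat_lit
  77621) (nat_lit 7) (node (nat_lit 9) (nat_lit 77621) (nat_lit 8) (node (nat_lit 5) (nat_lit
  77621) (nat_lit 9) (node (nat_lit 4) (nat_lit 77621) (nat_lit 10) (node (nat_lit 5) (nat_lit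
  77621) (nat_lit 11) (node (nat_lit 9) (nat_lit 77621) (nat_lit 12) (node (nat_lit 4) (nat_lit
  79319) (nat_lit 13) nil nil) nil) (node (nat_lit 9) (nat_lit 77621) (nat_lit 11) (node (nat_lit
  4) (nat_lit 77621) (nat_lit 12) nil nil) nil)) (node (nat_lit 9) (nat_lit 77621) (nat_lit 10)
  (node (nat_lit 4) (nat_lit 77621) (nat_lit 11) nil nil) (node (nat_lit 0) (nat_lit 81122)
  (nat_lit 10) nil (node (nat_lit 6) (nat_lit 81122) (nat_lit 10) nil nil)))) (node (nat_lit 6)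
  (nat_lit 82119) (nat_lit 9) (node (nat_lit 9) (nat_lit 82119) (nat_lit 10) nil nil) (node
  (nat_lit 0) (nat_lit 82119) (nat_lit 9) nil nil))) (node (nat_lit 5) (nat_lit 77621) (nat_lit 8)
  (node (nat_lit 9) (nat_lit 77621) (nat_lit 9) (node (nat_lit 5) (nat_lit 77621) (nat_lit 10)
  (node (nat_lit 4) (nat_lit 77621) (nat_lit 11) nil nil) (node (nat_lit 4) (nat_lit 77621)
  (nat_lit 10) (node (nat_lit 9) (nat_lit 77621) (nat_lit 11) nil nil) (node (nat_lit 6) (nat_lit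
  81122) (nat_lit 10) nil nil))) (node (nat_lit 4) (nat_lit 77621) (nat_lit 9) (node (nat_lit 9)
  (nat_lit 77621) (nat_lit 10) (node (nat_lit 4) (nat_lit 77621) (nat_lit 11) (node (nat_lit 5)
  (nat_lit 77621) (nat_lit 12) nil nil) (node (nat_lit 5) (nat_lit 77621) (nat_lit 11) nil nil))
  (node (nat_lit 6) (nat_lit 81122) (nat_lit 10) nil nil)) (node (nat_lit 0) (nat_lit 80725)
  (nat_lit 9) nil (node (nat_lit 6) (nat_lit 80725) (nat_lit 9) nil nil)))) (node (nat_lit 0)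
  (nat_lit 81819) (nat_lit 8) nil nil))) (node (nat_lit 5) (nat_lit 77621) (nat_lit 7) (node
  (nat_lit 9) (nat_lit 77621) (nat_lit 8) nil nil) (node (nat_lit 6) (nat_lit 80689) (nat_lit 7)
  nil (node (nat_lit 0) (nat_lit 79564) (nat_lit 7) nil nil)))) (node (nat_lit 0) (nat_lit 80508)
  (nat_lit 6) (node (nat_lit 4) (nat_lit 80508) (nat_lit 7) nil nil) nil))) (node (nat_lit 5)
  (nat_lit 0) (nat_lit 5) (node (nat_lit 4) (nat_lit 55352) (nat_lit 6) (node (nat_lit 3) (nat_lit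
  58985) (nat_lit 7) (node (nat_lit 5) (nat_lit 58985) (nat_lit 8) (node (nat_lit 10) (nat_lit
  58985) (nat_lit 9) (node (nat_lit 4) (nat_lit 58985) (nat_lit 10) (node (nat_lit 10) (nat_lit
  67424) (nat_lit 11) (node (nat_lit 5) (nat_lit 71870) (nat_lit 12) (node (nat_lit 4) (nat_lit
  73376) (nat_lit 13) (node (nat_lit 5) (nat_lit 72564) (nat_lit 14) nil nil) nil) (node (nat_lit
  0) (nat_lit 72942) (nat_lit 12) nil (node (nat_lit 6) (nat_lit 72942) (nat_lit 12) nil nil)))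
  (node (nat_lit 5) (nat_lit 67090) (nat_lit 11) (node (nat_lit 4) (nat_lit 69155) (nat_lit 12)
  nil (node (nat_lit 10) (nat_lit 70178) (nat_lit 12) (node (nat_lit 5) (nat_lit 68287) (nat_lit
  13) nil nil) (node (nat_lit 6) (nat_lit 68894) (nat_lit 12) nil nil))) (node (nat_lit 6)
  (nat_lit 70372) (nat_lit 11) nil (node (nat_lit 0) (nat_lit 70372) (nat_lit 11) nil nil))))
  (node (nat_lit 6) (nat_lit 75543) (nat_lit 10) nil (node (nat_lit 0) (nat_lit 71932) (nat_lit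
  10) nil nil))) (node (nat_lit 4) (nat_lit 58985) (nat_lit 9) (node (nat_lit 5) (nat_lit 59009)
  (nat_lit 10) (node (nat_lit 10) (nat_lit 64561) (nat_lit 11) (node (nat_lit 4) (nat_lit 66029)
  (nat_lit 12) nil (node (nat_lit 5) (nat_lit 67200) (nat_lit 12) nil nil)) (node (nat_lit 6)
  (nat_lit 66331) (nat_lit 11) (node (nat_lit 4) (nat_lit 60484) (nat_lit 12) (node (nat_lit 5)
  (nat_lit 47912) (nat_lit 13) nil nil) nil) nil)) (node (nat_lit 6) (nat_lit 69880) (nat_lit 10)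
  nil (node (nat_lit 0) (nat_lit 65949) (nat_lit 10) nil nil))) (node (nat_lit 6) (nat_lit 76444)
  (nat_lit 9) nil (node (nat_lit 0) (nat_lit 73408) (nat_lit 9) nil nil)))) (node (nat_lit 4)
  (nat_lit 58985) (nat_lit 8) (node (nat_lit 5) (nat_lit 58985) (nat_lit 9) (node (nat_lit 10)
  (nat_lit 58989) (nat_lit 10) (node (nat_lit 5) (nat_lit 66425) (nat_lit 11) (node (nat_lit 4)
  (nat_lit 65502) (nat_lit 12) (node (nat_lit 10) (nat_lit 63611) (nat_lit 13) nil nil) nil) (node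
  (nat_lit 4) (nat_lit 64920) (nat_lit 11) (node (nat_lit 10) (nat_lit 64075) (nat_lit 12) nil
  nil) (node (nat_lit 6) (nat_lit 66263) (nat_lit 11) nil (node (nat_lit 0) (nat_lit 66263)
  (nat_lit 11) nil nil)))) (node (nat_lit 4) (nat_lit 58985) (nat_lit 10) (node (nat_lit 6)
  (nat_lit 66259) (nat_lit 11) nil nil) (node (nat_lit 6) (nat_lit 60021) (nat_lit 10) (node
  (nat_lit 4) (nat_lit 49207) (nat_lit 11) nil nil) (node (nat_lit 0) (nat_lit 65949) (nat_lit 10)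
  nil nil)))) (node (nat_lit 6) (nat_lit 71178) (nat_lit 9) nil (node (nat_lit 0) (nat_lit 71178)
  (nat_lit 9) nil nil))) (node (nat_lit 6) (nat_lit 75950) (nat_lit 8) nil (node (nat_lit 0)
  (nat_lit 75373) (nat_lit 8) nil nil)))) (node (nat_lit 6) (nat_lit 80699) (nat_lit 7) (node
  (nat_lit 5) (nat_lit 80699) (nat_lit 8) (node (nat_lit 4) (nat_lit 80699) (nat_lit 9) (node
  (nat_lit 5) (nat_lit 80699) (nat_lit 10) (node (nat_lit 3) (nat_lit 80699) (nat_lit 11) nil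
  (node (nat_lit 6) (nat_lit 83300) (nat_lit 11) nil nil)) (node (nat_lit 3) (nat_lit 80699)
  (nat_lit 10) nil nil)) (node (nat_lit 6) (nat_lit 82315) (nat_lit 9) nil (node (nat_lit 3)
  (nat_lit 80699) (nat_lit 9) nil nil))) (node (nat_lit 4) (nat_lit 80699) (nat_lit 8) nil (node
  (nat_lit 3) (nat_lit 81864) (nat_lit 8) nil (node (nat_lit 0) (nat_lit 82517) (nat_lit 8) nil
  nil)))) (node (nat_lit 0) (nat_lit 77365) (nat_lit 7) nil nil))) (node (nat_lit 3) (nat_lit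
  58004) (nat_lit 6) (node (nat_lit 4) (nat_lit 58301) (nat_lit 7) (node (nat_lit 5) (nat_lit
  58294) (nat_lit 8) (node (nat_lit 4) (nat_lit 58294) (nat_lit 9) (node (nat_lit 9) (nat_lit
  58259) (nat_lit 10) (node (nat_lit 5) (nat_lit 63471) (nat_lit 11) (node (nat_lit 9) (nat_lit
  67155) (nat_lit 12) (node (nat_lit 4) (nat_lit 68994) (nat_lit 13) (node (nat_lit 5) (nat_lit
  67381) (nat_lit 14) nil nil) nil) (node (nat_lit 4) (nat_lit 65161) (nat_lit 12) nil nil)) (node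
  (nat_lit 4) (nat_lit 64075) (nat_lit 11) (node (nat_lit 5) (nat_lit 66359) (nat_lit 12) (node
  (nat_lit 9) (nat_lit 67266) (nat_lit 13) (node (nat_lit 5) (nat_lit 67853) (nat_lit 14) (node
  (nat_lit 4) (nat_lit 66698) (nat_lit 15) nil nil) nil) nil) nil) (node (nat_lit 6) (nat_lit
  65533) (nat_lit 11) nil nil))) (node (nat_lit 0) (nat_lit 65259) (nat_lit 10) nil (node (nat_lit
  6) (nat_lit 69190) (nat_lit 10) nil nil))) (node (nat_lit 6) (nat_lit 59731) (nat_lit 9) (node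
  (nat_lit 4) (nat_lit 43754) (nat_lit 10) nil nil) (node (nat_lit 0) (nat_lit 64862) (nat_lit 9)
  nil nil))) (node (nat_lit 9) (nat_lit 58286) (nat_lit 8) (node (nat_lit 5) (nat_lit 58204)
  (nat_lit 9) (node (nat_lit 4) (nat_lit 58457) (nat_lit 10) (node (nat_lit 5) (nat_lit 65092)
  (nat_lit 11) (node (nat_lit 9) (nat_lit 66269) (nat_lit 12) (node (nat_lit 4) (nat_lit 65680)
  (nat_lit 13) nil nil) (node (nat_lit 6) (nat_lit 60364) (nat_lit 12) nil nil)) (node (nat_lit 9)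
  (nat_lit 63352) (nat_lit 11) nil nil)) (node (nat_lit 9) (nat_lit 58089) (nat_lit 10) (node
  (nat_lit 4) (nat_lit 60611) (nat_lit 11) (node (nat_lit 5) (nat_lit 62317) (nat_lit 12) nil nil)
  (node (nat_lit 6) (nat_lit 65363) (nat_lit 11) nil (node (nat_lit 0) (nat_lit 65363) (nat_lit
  11) nil nil))) (node (nat_lit 6) (nat_lit 65168) (nat_lit 10) nil (node (nat_lit 0) (nat_lit
  65168) (nat_lit 10) nil nil)))) (node (nat_lit 6) (nat_lit 64854) (nat_lit 9) nil (node (nat_lit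
  0) (nat_lit 64854) (nat_lit 9) nil nil))) (node (nat_lit 6) (nat_lit 67755) (nat_lit 8) nil
  (node (nat_lit 0) (nat_lit 64359) (nat_lit 8) nil nil)))) (node (nat_lit 5) (nat_lit 58416)
  (nat_lit 7) (node (nat_lit 4) (nat_lit 58437) (nat_lit 8) (node (nat_lit 9) (nat_lit 58437)
  (nat_lit 9) (node (nat_lit 5) (nat_lit 58437) (nat_lit 10) (node (nat_lit 9) (nat_lit 62589)
  (nat_lit 11) (node (nat_lit 4) (nat_lit 65707) (nat_lit 12) (node (nat_lit 5) (nat_lit 67076)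
  (nat_lit 13) nil nil) nil) nil) (node (nat_lit 4) (nat_lit 58437) (nat_lit 10) (node (nat_lit 5)
  (nat_lit 59828) (nat_lit 11) nil nil) nil)) (node (nat_lit 5) (nat_lit 58437) (nat_lit 9) (node
  (nat_lit 9) (nat_lit 58437) (nat_lit 10) (node (nat_lit 4) (nat_lit 63421) (nat_lit 11) (node
  (nat_lit 9) (nat_lit 62153) (nat_lit 12) nil (node (nat_lit 5) (nat_lit 65078) (nat_lit 12) nil
  nil)) (node (nat_lit 0) (nat_lit 65711) (nat_lit 11) nil (node (nat_lit 6) (nat_lit 65711)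
  (nat_lit 11) nil nil))) (node (nat_lit 6) (nat_lit 51485) (nat_lit 10) nil nil)) (node (nat_lit
  6) (nat_lit 65004) (nat_lit 9) nil nil))) (node (nat_lit 6) (nat_lit 71690) (nat_lit 8) nil
  (node (nat_lit 0) (nat_lit 64475) (nat_lit 8) nil nil))) (node (nat_lit 6) (nat_lit 71547)
  (nat_lit 7) nil (node (nat_lit 0) (nat_lit 67968) (nat_lit 7) nil nil)))) (node (nat_lit 0)
  (nat_lit 74436) (nat_lit 6) (node (nat_lit 6) (nat_lit 75272) (nat_lit 7) nil nil) nil))) (node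
  (nat_lit 3) (nat_lit 0) (nat_lit 5) (node (nat_lit 5) (nat_lit 57805) (nat_lit 6) (node (nat_lit
  4) (nat_lit 58445) (nat_lit 7) (node (nat_lit 8) (nat_lit 58645) (nat_lit 8) (node (nat_lit 4)
  (nat_lit 58704) (nat_lit 9) (node (nat_lit 5) (nat_lit 58735) (nat_lit 10) (node (nat_lit 8)
  (nat_lit 64173) (nat_lit 11) (node (nat_lit 5) (nat_lit 64228) (nat_lit 12) (node (nat_lit 4)
  (nat_lit 62144) (nat_lit 13) (node (nat_lit 8) (nat_lit 62640) (nat_lit 14) nil nil) nil) (node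
  (nat_lit 4) (nat_lit 66007) (nat_lit 12) (node (nat_lit 8) (nat_lit 65434) (nat_lit 13) nil nil)
  nil)) (node (nat_lit 4) (nat_lit 65392) (nat_lit 11) (node (nat_lit 8) (nat_lit 68729) (nat_lit
  12) (node (nat_lit 5) (nat_lit 69402) (nat_lit 13) (node (nat_lit 8) (nat_lit 70284) (nat_lit
  14) (node (nat_lit 4) (nat_lit 70540) (nat_lit 15) nil nil) nil) nil) (node (nat_lit 0) (nat_lit
  70910) (nat_lit 12) nil nil)) (node (nat_lit 6) (nat_lit 61379) (nat_lit 11) (node (nat_lit 4)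
  (nat_lit 54161) (nat_lit 12) nil nil) (node (nat_lit 0) (nat_lit 66009) (nat_lit 11) nil nil))))
  (node (nat_lit 0) (nat_lit 65668) (nat_lit 10) nil (node (nat_lit 6) (nat_lit 65668) (nat_lit
  10) nil nil))) (node (nat_lit 6) (nat_lit 68908) (nat_lit 9) nil (node (nat_lit 0) (nat_lit
  68908) (nat_lit 9) nil nil))) (node (nat_lit 5) (nat_lit 58704) (nat_lit 8) (node (nat_lit 8)
  (nat_lit 58704) (nat_lit 9) (node (nat_lit 4) (nat_lit 58704) (nat_lit 10) (node (nat_lit 5)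
  (nat_lit 63656) (nat_lit 11) (node (nat_lit 4) (nat_lit 65408) (nat_lit 12) nil nil) (node
  (nat_lit 8) (nat_lit 61265) (nat_lit 11) (node (nat_lit 5) (nat_lit 59287) (nat_lit 12) nil nil)
  nil)) (node (nat_lit 5) (nat_lit 58704) (nat_lit 10) (node (nat_lit 4) (nat_lit 62243) (nat_lit
  11) (node (nat_lit 8) (nat_lit 59791) (nat_lit 12) nil nil) (node (nat_lit 6) (nat_lit 65978)
  (nat_lit 11) nil (node (nat_lit 0) (nat_lit 65978) (nat_lit 11) nil nil))) (node (nat_lit 6)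
  (nat_lit 65668) (nat_lit 10) nil (node (nat_lit 0) (nat_lit 65668) (nat_lit 10) nil nil))))
  (node (nat_lit 6) (nat_lit 51330) (nat_lit 9) (node (nat_lit 4) (nat_lit 43720) (nat_lit 10) nil
  nil) (node (nat_lit 0) (nat_lit 65271) (nat_lit 9) nil nil))) (node (nat_lit 6) (nat_lit 69672)
  (nat_lit 8) nil (node (nat_lit 0) (nat_lit 69672) (nat_lit 8) nil nil)))) (node (nat_lit 8)
  (nat_lit 58380) (nat_lit 7) (node (nat_lit 4) (nat_lit 58635) (nat_lit 8) (node (nat_lit 5)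
  (nat_lit 58635) (nat_lit 9) (node (nat_lit 4) (nat_lit 58557) (nat_lit 10) (node (nat_lit 8)
  (nat_lit 65162) (nat_lit 11) (node (nat_lit 5) (nat_lit 66474) (nat_lit 12) (node (nat_lit 4)
  (nat_lit 66335) (nat_lit 13) (node (nat_lit 5) (nat_lit 62801) (nat_lit 14) nil nil) nil) (node
  (nat_lit 4) (nat_lit 68102) (nat_lit 12) (node (nat_lit 5) (nat_lit 66340) (nat_lit 13) (node
  (nat_lit 6) (nat_lit 64916) (nat_lit 14) nil nil) nil) nil)) (node (nat_lit 6) (nat_lit 65831)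
  (nat_lit 11) nil (node (nat_lit 0) (nat_lit 65831) (nat_lit 11) nil nil))) (node (nat_lit 8)
  (nat_lit 58635) (nat_lit 10) (node (nat_lit 5) (nat_lit 61660) (nat_lit 11) (node (nat_lit 4)
  (nat_lit 61710) (nat_lit 12) (node (nat_lit 8) (nat_lit 62343) (nat_lit 13) nil nil) nil) nil)
  (node (nat_lit 6) (nat_lit 57887) (nat_lit 10) (node (nat_lit 4) (nat_lit 45325) (nat_lit 11)
  nil nil) (node (nat_lit 0) (nat_lit 65599) (nat_lit 10) nil nil)))) (node (nat_lit 8) (nat_lit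
  58635) (nat_lit 9) (node (nat_lit 5) (nat_lit 58635) (nat_lit 10) (node (nat_lit 4) (nat_lit
  64530) (nat_lit 11) (node (nat_lit 5) (nat_lit 63472) (nat_lit 12) nil nil) nil) (node (nat_lit
  6) (nat_lit 65599) (nat_lit 10) nil (node (nat_lit 0) (nat_lit 65599) (nat_lit 10) nil nil)))
  (node (nat_lit 6) (nat_lit 68898) (nat_lit 9) nil (node (nat_lit 0) (nat_lit 68898) (nat_lit 9)
  nil nil)))) (node (nat_lit 6) (nat_lit 72733) (nat_lit 8) nil (node (nat_lit 0) (nat_lit 67834)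
  (nat_lit 8) nil nil))) (node (nat_lit 6) (nat_lit 72363) (nat_lit 7) nil (node (nat_lit 0)
  (nat_lit 67793) (nat_lit 7) nil nil)))) (node (nat_lit 4) (nat_lit 0) (nat_lit 6) (node (nat_lit
  5) (nat_lit 58294) (nat_lit 7) (node (nat_lit 8) (nat_lit 58600) (nat_lit 8) (node (nat_lit 5)
  (nat_lit 58542) (nat_lit 9) (node (nat_lit 4) (nat_lit 58478) (nat_lit 10) (node (nat_lit 5)
  (nat_lit 64120) (nat_lit 11) (node (nat_lit 8) (nat_lit 64898) (nat_lit 12) (node (nat_lit 4)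
  (nat_lit 66638) (nat_lit 13) (node (nat_lit 5) (nat_lit 66249) (nat_lit 14) nil nil) nil) (node
  (nat_lit 6) (nat_lit 66829) (nat_lit 12) (node (nat_lit 4) (nat_lit 63140) (nat_lit 13) (node
  (nat_lit 8) (nat_lit 45862) (nat_lit 14) nil nil) nil) nil)) (node (nat_lit 8) (nat_lit 64602)
  (nat_lit 11) (node (nat_lit 5) (nat_lit 68052) (nat_lit 12) (node (nat_lit 8) (nat_lit 66161)
  (nat_lit 13) nil nil) (node (nat_lit 4) (nat_lit 67634) (nat_lit 12) (node (nat_lit 5) (nat_lit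
  68116) (nat_lit 13) nil nil) nil)) (node (nat_lit 0) (nat_lit 65752) (nat_lit 11) nil (node
  (nat_lit 6) (nat_lit 65752) (nat_lit 11) nil nil)))) (node (nat_lit 6) (nat_lit 69437) (nat_lit
  10) nil (node (nat_lit 0) (nat_lit 65506) (nat_lit 10) nil nil))) (node (nat_lit 4) (nat_lit
  58600) (nat_lit 9) (node (nat_lit 8) (nat_lit 58600) (nat_lit 10) (node (nat_lit 5) (nat_lit
  63666) (nat_lit 11) (node (nat_lit 4) (nat_lit 62648) (nat_lit 12) nil nil) nil) (node (nat_lit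
  6) (nat_lit 65564) (nat_lit 10) nil nil)) (node (nat_lit 6) (nat_lit 74187) (nat_lit 9) nil
  (node (nat_lit 0) (nat_lit 68863) (nat_lit 9) nil nil)))) (node (nat_lit 4) (nat_lit 58547)
  (nat_lit 8) (node (nat_lit 8) (nat_lit 58463) (nat_lit 9) (node (nat_lit 5) (nat_lit 58417)
  (nat_lit 10) (node (nat_lit 8) (nat_lit 63397) (nat_lit 11) (node (nat_lit 4) (nat_lit 66746)
  (nat_lit 12) (node (nat_lit 5) (nat_lit 67751) (nat_lit 13) nil nil) nil) (node (nat_lit 4)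
  (nat_lit 64043) (nat_lit 11) (node (nat_lit 5) (nat_lit 62814) (nat_lit 12) nil nil) (node
  (nat_lit 6) (nat_lit 65691) (nat_lit 11) nil nil))) (node (nat_lit 4) (nat_lit 58463) (nat_lit
  10) (node (nat_lit 6) (nat_lit 65737) (nat_lit 11) nil (node (nat_lit 0) (nat_lit 65737)
  (nat_lit 11) nil nil)) (node (nat_lit 6) (nat_lit 65427) (nat_lit 10) nil nil))) (node (nat_lit
  6) (nat_lit 68810) (nat_lit 9) nil (node (nat_lit 0) (nat_lit 65114) (nat_lit 9) nil nil)))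
  (node (nat_lit 6) (nat_lit 50992) (nat_lit 8) (node (nat_lit 4) (nat_lit 26605) (nat_lit 9) nil
  nil) (node (nat_lit 0) (nat_lit 69521) (nat_lit 8) nil nil)))) (node (nat_lit 6) (nat_lit 74091)
  (nat_lit 7) nil (node (nat_lit 0) (nat_lit 71463) (nat_lit 7) nil nil))) (node (nat_lit 6)
  (nat_lit 78849) (nat_lit 6) (node (nat_lit 8) (nat_lit 78849) (nat_lit 7) (node (nat_lit 4)
  (nat_lit 78849) (nat_lit 8) (node (nat_lit 8) (nat_lit 78849) (nat_lit 9) (node (nat_lit 5)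
  (nat_lit 78849) (nat_lit 10) (node (nat_lit 4) (nat_lit 78849) (nat_lit 11) (node (nat_lit 8)
  (nat_lit 78849) (nat_lit 12) nil nil) (node (nat_lit 8) (nat_lit 78849) (nat_lit 11) nil nil))
  (node (nat_lit 0) (nat_lit 81242) (nat_lit 10) nil nil)) nil) nil) (node (nat_lit 5) (nat_lit
  78849) (nat_lit 7) (node (nat_lit 4) (nat_lit 78849) (nat_lit 8) nil nil) (node (nat_lit 4)
  (nat_lit 78849) (nat_lit 7) (node (nat_lit 6) (nat_lit 80337) (nat_lit 8) nil nil) nil))) (node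
  (nat_lit 0) (nat_lit 72164) (nat_lit 6) nil nil)))) (node (nat_lit 0) (nat_lit 0) (nat_lit 5)
  (node (nat_lit 4) (nat_lit 72756) (nat_lit 6) (node (nat_lit 6) (nat_lit 74699) (nat_lit 7) nil
  (node (nat_lit 5) (nat_lit 72756) (nat_lit 7) nil nil)) (node (nat_lit 6) (nat_lit 75413)
  (nat_lit 6) (node (nat_lit 4) (nat_lit 75413) (nat_lit 7) nil nil) (node (nat_lit 3) (nat_lit
  72756) (nat_lit 6) nil (node (nat_lit 5) (nat_lit 72756) (nat_lit 6) (node (nat_lit 4) (nat_lit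
  72756) (nat_lit 7) nil nil) (node (nat_lit 0) (nat_lit 74827) (nat_lit 6) nil nil))))) nil))))

noncomputable def t291 : Tr :=
  (node (nat_lit 5) (nat_lit 0) (nat_lit 4) (node (nat_lit 3) (nat_lit 0) (nat_lit 5) (node
  (nat_lit 4) (nat_lit 58506) (nat_lit 6) (node (nat_lit 8) (nat_lit 58526) (nat_lit 7) (node
  (nat_lit 5) (nat_lit 58530) (nat_lit 8) (node (nat_lit 4) (nat_lit 58530) (nat_lit 9) (node
  (nat_lit 5) (nat_lit 58784) (nat_lit 10) (node (nat_lit 8) (nat_lit 63561) (nat_lit 11) (node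
  (nat_lit 4) (nat_lit 65936) (nat_lit 12) (node (nat_lit 5) (nat_lit 67234) (nat_lit 13) (node
  (nat_lit 4) (nat_lit 66563) (nat_lit 14) nil nil) nil) (node (nat_lit 5) (nat_lit 65341)
  (nat_lit 12) (node (nat_lit 4) (nat_lit 63234) (nat_lit 13) nil nil) nil)) (node (nat_lit 6)
  (nat_lit 61564) (nat_lit 11) nil nil)) (node (nat_lit 8) (nat_lit 58530) (nat_lit 10) (node
  (nat_lit 4) (nat_lit 62441) (nat_lit 11) (node (nat_lit 5) (nat_lit 65307) (nat_lit 12) nil nil)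
  nil) (node (nat_lit 6) (nat_lit 65494) (nat_lit 10) nil nil))) (node (nat_lit 8) (nat_lit 58530)
  (nat_lit 9) (node (nat_lit 4) (nat_lit 58894) (nat_lit 10) (node (nat_lit 5) (nat_lit 63650)
  (nat_lit 11) (node (nat_lit 4) (nat_lit 63402) (nat_lit 12) nil (node (nat_lit 8) (nat_lit
  63745) (nat_lit 12) nil (node (nat_lit 6) (nat_lit 63106) (nat_lit 12) nil nil))) (node (nat_lit
  0) (nat_lit 66168) (nat_lit 11) nil (node (nat_lit 6) (nat_lit 66168) (nat_lit 11) nil nil)))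
  (node (nat_lit 6) (nat_lit 65494) (nat_lit 10) nil nil)) (node (nat_lit 6) (nat_lit 70724)
  (nat_lit 9) nil (node (nat_lit 0) (nat_lit 65097) (nat_lit 9) nil nil)))) (node (nat_lit 6)
  (nat_lit 69754) (nat_lit 8) nil (node (nat_lit 0) (nat_lit 64585) (nat_lit 8) nil nil))) (node
  (nat_lit 5) (nat_lit 58814) (nat_lit 7) (node (nat_lit 4) (nat_lit 58814) (nat_lit 8) (node
  (nat_lit 8) (nat_lit 58814) (nat_lit 9) (node (nat_lit 5) (nat_lit 58814) (nat_lit 10) (node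
  (nat_lit 8) (nat_lit 63895) (nat_lit 11) (node (nat_lit 4) (nat_lit 67141) (nat_lit 12) (node
  (nat_lit 5) (nat_lit 65230) (nat_lit 13) nil nil) nil) (node (nat_lit 4) (nat_lit 63536)
  (nat_lit 11) (node (nat_lit 5) (nat_lit 63781) (nat_lit 12) nil nil) nil)) (node (nat_lit 4)
  (nat_lit 58814) (nat_lit 10) (node (nat_lit 5) (nat_lit 60206) (nat_lit 11) (node (nat_lit 8)
  (nat_lit 59490) (nat_lit 12) nil nil) nil) (node (nat_lit 6) (nat_lit 65778) (nat_lit 10) nil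
  nil))) (node (nat_lit 6) (nat_lit 65381) (nat_lit 9) nil (node (nat_lit 0) (nat_lit 65381)
  (nat_lit 9) nil nil))) (node (nat_lit 8) (nat_lit 58814) (nat_lit 8) (node (nat_lit 5) (nat_lit
  58814) (nat_lit 9) (node (nat_lit 4) (nat_lit 58814) (nat_lit 10) (node (nat_lit 5) (nat_lit
  64687) (nat_lit 11) (node (nat_lit 8) (nat_lit 65245) (nat_lit 12) nil (node (nat_lit 6)
  (nat_lit 59300) (nat_lit 12) nil nil)) (node (nat_lit 8) (nat_lit 61320) (nat_lit 11) nil nil))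
  (node (nat_lit 6) (nat_lit 65778) (nat_lit 10) nil nil)) (node (nat_lit 6) (nat_lit 65381)
  (nat_lit 9) nil nil)) (node (nat_lit 6) (nat_lit 45736) (nat_lit 8) (node (nat_lit 5) (nat_lit
  26302) (nat_lit 9) nil nil) (node (nat_lit 0) (nat_lit 64872) (nat_lit 8) nil nil)))) (node
  (nat_lit 6) (nat_lit 72071) (nat_lit 7) nil (node (nat_lit 0) (nat_lit 71253) (nat_lit 7) nil
  nil)))) (node (nat_lit 5) (nat_lit 58328) (nat_lit 6) (node (nat_lit 4) (nat_lit 58388) (nat_lit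
  7) (node (nat_lit 8) (nat_lit 58366) (nat_lit 8) (node (nat_lit 4) (nat_lit 58366) (nat_lit 9)
  (node (nat_lit 5) (nat_lit 58746) (nat_lit 10) (node (nat_lit 4) (nat_lit 62534) (nat_lit 11)
  (node (nat_lit 8) (nat_lit 57783) (nat_lit 12) nil nil) (node (nat_lit 8) (nat_lit 62157)
  (nat_lit 11) nil nil)) (node (nat_lit 6) (nat_lit 65330) (nat_lit 10) nil nil)) (node (nat_lit
  5) (nat_lit 58283) (nat_lit 9) (node (nat_lit 8) (nat_lit 58103) (nat_lit 10) (node (nat_lit 4)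
  (nat_lit 60453) (nat_lit 11) (node (nat_lit 5) (nat_lit 61428) (nat_lit 12) nil (node (nat_lit
  8) (nat_lit 59738) (nat_lit 12) nil nil)) (node (nat_lit 6) (nat_lit 65377) (nat_lit 11) nil
  nil)) (node (nat_lit 6) (nat_lit 65247) (nat_lit 10) nil (node (nat_lit 0) (nat_lit 65247)
  (nat_lit 10) nil nil))) (node (nat_lit 6) (nat_lit 64932) (nat_lit 9) nil (node (nat_lit 0)
  (nat_lit 64932) (nat_lit 9) nil nil)))) (node (nat_lit 5) (nat_lit 58588) (nat_lit 8) (node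
  (nat_lit 8) (nat_lit 58790) (nat_lit 9) (node (nat_lit 4) (nat_lit 58790) (nat_lit 10) (node
  (nat_lit 5) (nat_lit 60743) (nat_lit 11) nil (node (nat_lit 8) (nat_lit 57922) (nat_lit 11) nil
  nil)) (node (nat_lit 5) (nat_lit 58790) (nat_lit 10) nil nil)) (node (nat_lit 6) (nat_lit 59191)
  (nat_lit 9) (node (nat_lit 5) (nat_lit 43758) (nat_lit 10) (node (nat_lit 8) (nat_lit 43758)
  (nat_lit 11) nil nil) nil) (node (nat_lit 0) (nat_lit 65155) (nat_lit 9) nil nil))) (node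
  (nat_lit 6) (nat_lit 69615) (nat_lit 8) nil (node (nat_lit 0) (nat_lit 64446) (nat_lit 8) nil
  nil)))) (node (nat_lit 6) (nat_lit 78006) (nat_lit 7) (node (nat_lit 8) (nat_lit 78006) (nat_lit
  8) (node (nat_lit 5) (nat_lit 78006) (nat_lit 9) nil nil) (node (nat_lit 5) (nat_lit 78006)
  (nat_lit 8) nil nil)) (node (nat_lit 0) (nat_lit 71399) (nat_lit 7) nil nil))) (node (nat_lit 6)
  (nat_lit 75718) (nat_lit 6) (node (nat_lit 8) (nat_lit 75718) (nat_lit 7) (node (nat_lit 5)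
  (nat_lit 75718) (nat_lit 8) (node (nat_lit 8) (nat_lit 75718) (nat_lit 9) nil nil) nil) nil)
  (node (nat_lit 0) (nat_lit 73314) (nat_lit 6) (node (nat_lit 5) (nat_lit 73314) (nat_lit 7) nil
  nil) nil)))) (node (nat_lit 4) (nat_lit 0) (nat_lit 5) (node (nat_lit 3) (nat_lit 58292)
  (nat_lit 6) (node (nat_lit 4) (nat_lit 58652) (nat_lit 7) (node (nat_lit 5) (nat_lit 58652)
  (nat_lit 8) (node (nat_lit 9) (nat_lit 58652) (nat_lit 9) (node (nat_lit 5) (nat_lit 58582)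
  (nat_lit 10) (node (nat_lit 4) (nat_lit 64753) (nat_lit 11) (node (nat_lit 9) (nat_lit 66119)
  (nat_lit 12) (node (nat_lit 5) (nat_lit 67613) (nat_lit 13) (node (nat_lit 9) (nat_lit 68292)
  (nat_lit 14) nil nil) nil) (node (nat_lit 5) (nat_lit 66909) (nat_lit 12) (node (nat_lit 9)
  (nat_lit 66241) (nat_lit 13) nil (node (nat_lit 6) (nat_lit 61006) (nat_lit 13) nil nil)) nil))
  (node (nat_lit 6) (nat_lit 65857) (nat_lit 11) nil nil)) (node (nat_lit 4) (nat_lit 58652)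
  (nat_lit 10) (node (nat_lit 9) (nat_lit 57785) (nat_lit 11) nil nil) (node (nat_lit 6) (nat_lit
  65617) (nat_lit 10) nil nil))) (node (nat_lit 4) (nat_lit 58652) (nat_lit 9) (node (nat_lit 9)
  (nat_lit 58669) (nat_lit 10) (node (nat_lit 5) (nat_lit 63120) (nat_lit 11) (node (nat_lit 9)
  (nat_lit 66382) (nat_lit 12) (node (nat_lit 4) (nat_lit 66779) (nat_lit 13) (node (nat_lit 5)
  (nat_lit 64755) (nat_lit 14) nil nil) nil) (node (nat_lit 4) (nat_lit 64619) (nat_lit 12) (node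
  (nat_lit 5) (nat_lit 62440) (nat_lit 13) nil nil) nil)) (node (nat_lit 0) (nat_lit 65944)
  (nat_lit 11) nil (node (nat_lit 6) (nat_lit 65944) (nat_lit 11) nil nil))) (node (nat_lit 6)
  (nat_lit 65617) (nat_lit 10) nil nil)) (node (nat_lit 6) (nat_lit 52299) (nat_lit 9) (node
  (nat_lit 5) (nat_lit 27026) (nat_lit 10) (node (nat_lit 4) (nat_lit 27026) (nat_lit 11) nil nil)
  nil) (node (nat_lit 0) (nat_lit 65220) (nat_lit 9) nil nil)))) (node (nat_lit 6) (nat_lit 69880)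
  (nat_lit 8) nil (node (nat_lit 0) (nat_lit 64711) (nat_lit 8) nil nil))) (node (nat_lit 5)
  (nat_lit 58704) (nat_lit 7) (node (nat_lit 9) (nat_lit 58704) (nat_lit 8) (node (nat_lit 4)
  (nat_lit 58704) (nat_lit 9) (node (nat_lit 5) (nat_lit 58863) (nat_lit 10) (node (nat_lit 4)
  (nat_lit 62182) (nat_lit 11) (node (nat_lit 9) (nat_lit 61457) (nat_lit 12) nil nil) (node
  (nat_lit 9) (nat_lit 58938) (nat_lit 11) (node (nat_lit 5) (nat_lit 58742) (nat_lit 12) nil nil)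
  (node (nat_lit 6) (nat_lit 54498) (nat_lit 11) nil nil))) (node (nat_lit 9) (nat_lit 58704)
  (nat_lit 10) (node (nat_lit 5) (nat_lit 61888) (nat_lit 11) (node (nat_lit 4) (nat_lit 61416)
  (nat_lit 12) nil nil) nil) (node (nat_lit 6) (nat_lit 65669) (nat_lit 10) nil nil))) (node
  (nat_lit 6) (nat_lit 65271) (nat_lit 9) nil (node (nat_lit 0) (nat_lit 65271) (nat_lit 9) nil
  nil))) (node (nat_lit 4) (nat_lit 58704) (nat_lit 8) (node (nat_lit 5) (nat_lit 58704) (nat_lit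
  9) (node (nat_lit 9) (nat_lit 58678) (nat_lit 10) (node (nat_lit 5) (nat_lit 61496) (nat_lit 11)
  (node (nat_lit 4) (nat_lit 61399) (nat_lit 12) nil nil) (node (nat_lit 4) (nat_lit 63168)
  (nat_lit 11) (node (nat_lit 5) (nat_lit 65123) (nat_lit 12) nil nil) nil)) (node (nat_lit 6)
  (nat_lit 53031) (nat_lit 10) nil nil)) (node (nat_lit 6) (nat_lit 65271) (nat_lit 9) nil nil))
  (node (nat_lit 6) (nat_lit 69813) (nat_lit 8) nil (node (nat_lit 0) (nat_lit 64763) (nat_lit 8)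
  nil nil)))) (node (nat_lit 6) (nat_lit 71063) (nat_lit 7) nil (node (nat_lit 0) (nat_lit 71039)
  (nat_lit 7) nil nil)))) (node (nat_lit 5) (nat_lit 54971) (nat_lit 6) (node (nat_lit 3) (nat_lit
  57945) (nat_lit 7) (node (nat_lit 4) (nat_lit 58144) (nat_lit 8) (node (nat_lit 10) (nat_lit
  58364) (nat_lit 9) (node (nat_lit 5) (nat_lit 58213) (nat_lit 10) (node (nat_lit 4) (nat_lit
  64028) (nat_lit 11) (node (nat_lit 5) (nat_lit 62969) (nat_lit 12) nil nil) (node (nat_lit 10)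
  (nat_lit 62877) (nat_lit 11) (node (nat_lit 4) (nat_lit 65702) (nat_lit 12) nil nil) nil)) (node
  (nat_lit 6) (nat_lit 65328) (nat_lit 10) nil nil)) (node (nat_lit 5) (nat_lit 58364) (nat_lit 9)
  (node (nat_lit 4) (nat_lit 58555) (nat_lit 10) (node (nat_lit 10) (nat_lit 64490) (nat_lit 11)
  (node (nat_lit 5) (nat_lit 65052) (nat_lit 12) nil (node (nat_lit 4) (nat_lit 65069) (nat_lit
  12) nil nil)) (node (nat_lit 6) (nat_lit 65829) (nat_lit 11) nil nil)) (node (nat_lit 6)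
  (nat_lit 62488) (nat_lit 10) (node (nat_lit 5) (nat_lit 46901) (nat_lit 11) (node (nat_lit 4)
  (nat_lit 45992) (nat_lit 12) nil nil) nil) (node (nat_lit 0) (nat_lit 65328) (nat_lit 10) nil
  nil))) (node (nat_lit 6) (nat_lit 64712) (nat_lit 9) nil (node (nat_lit 0) (nat_lit 64712)
  (nat_lit 9) nil nil)))) (node (nat_lit 5) (nat_lit 57939) (nat_lit 8) (node (nat_lit 4) (nat_lit
  57856) (nat_lit 9) (node (nat_lit 10) (nat_lit 57677) (nat_lit 10) (node (nat_lit 5) (nat_lit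
  62267) (nat_lit 11) (node (nat_lit 10) (nat_lit 65190) (nat_lit 12) (node (nat_lit 4) (nat_lit
  67298) (nat_lit 13) nil nil) nil) (node (nat_lit 4) (nat_lit 63196) (nat_lit 11) (node (nat_lit
  5) (nat_lit 66371) (nat_lit 12) nil nil) nil)) (node (nat_lit 5) (nat_lit 57856) (nat_lit 10)
  nil nil)) (node (nat_lit 6) (nat_lit 70133) (nat_lit 9) nil (node (nat_lit 0) (nat_lit 64506)
  (nat_lit 9) nil nil))) (node (nat_lit 6) (nat_lit 69172) (nat_lit 8) nil (node (nat_lit 0)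
  (nat_lit 69172) (nat_lit 8) nil nil)))) (node (nat_lit 6) (nat_lit 51021) (nat_lit 7) (node
  (nat_lit 4) (nat_lit 51021) (nat_lit 8) (node (nat_lit 5) (nat_lit 51021) (nat_lit 9) (node
  (nat_lit 4) (nat_lit 51021) (nat_lit 10) (node (nat_lit 3) (nat_lit 51021) (nat_lit 11) nil
  (node (nat_lit 6) (nat_lit 51948) (nat_lit 11) nil nil)) (node (nat_lit 3) (nat_lit 51021)
  (nat_lit 10) nil nil)) (node (nat_lit 6) (nat_lit 51948) (nat_lit 9) (node (nat_lit 5) (nat_lit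
  51948) (nat_lit 10) nil nil) (node (nat_lit 0) (nat_lit 51665) (nat_lit 9) nil (node (nat_lit 3)
  (nat_lit 51021) (nat_lit 9) nil nil)))) (node (nat_lit 3) (nat_lit 51021) (nat_lit 8) nil (node
  (nat_lit 0) (nat_lit 51383) (nat_lit 8) nil nil))) (node (nat_lit 0) (nat_lit 72229) (nat_lit 7)
  nil nil))) (node (nat_lit 6) (nat_lit 75028) (nat_lit 6) (node (nat_lit 4) (nat_lit 75028)
  (nat_lit 7) (node (nat_lit 5) (nat_lit 75028) (nat_lit 8) (node (nat_lit 4) (nat_lit 75028)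
  (nat_lit 9) (node (nat_lit 3) (nat_lit 75028) (nat_lit 10) (node (nat_lit 5) (nat_lit 75028)
  (nat_lit 11) nil nil) (node (nat_lit 6) (nat_lit 78361) (nat_lit 10) nil nil)) (node (nat_lit 6)
  (nat_lit 77808) (nat_lit 9) nil nil)) nil) (node (nat_lit 5) (nat_lit 75028) (nat_lit 7) nil
  (node (nat_lit 3) (nat_lit 76522) (nat_lit 7) nil nil))) (node (nat_lit 0) (nat_lit 72613)
  (nat_lit 6) (node (nat_lit 5) (nat_lit 72613) (nat_lit 7) nil nil) nil)))) (node (nat_lit 0)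
  (nat_lit 0) (nat_lit 5) (node (nat_lit 5) (nat_lit 74157) (nat_lit 6) (node (nat_lit 6) (nat_lit
  77814) (nat_lit 7) nil (node (nat_lit 0) (nat_lit 76100) (nat_lit 7) nil (node (nat_lit 3)
  (nat_lit 74157) (nat_lit 7) nil (node (nat_lit 4) (nat_lit 74157) (nat_lit 7) nil nil)))) (node
  (nat_lit 6) (nat_lit 77199) (nat_lit 6) (node (nat_lit 5) (nat_lit 77199) (nat_lit 7) nil (node
  (nat_lit 8) (nat_lit 78034) (nat_lit 7) nil nil)) (node (nat_lit 3) (nat_lit 74157) (nat_lit 6)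
  (node (nat_lit 8) (nat_lit 76100) (nat_lit 7) nil nil) (node (nat_lit 0) (nat_lit 76997)
  (nat_lit 6) (node (nat_lit 6) (nat_lit 77833) (nat_lit 7) nil nil) (node (nat_lit 4) (nat_lit
  74157) (nat_lit 6) (node (nat_lit 8) (nat_lit 76100) (nat_lit 7) nil nil) nil))))) nil))) (node
  (nat_lit 0) (nat_lit 0) (nat_lit 4) (node (nat_lit 6) (nat_lit 0) (nat_lit 5) (node (nat_lit 5)
  (nat_lit 76389) (nat_lit 6) (node (nat_lit 7) (nat_lit 81755) (nat_lit 7) (node (nat_lit 6)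
  (nat_lit 82993) (nat_lit 8) (node (nat_lit 7) (nat_lit 83493) (nat_lit 9) (node (nat_lit 5)
  (nat_lit 83493) (nat_lit 10) nil nil) (node (nat_lit 0) (nat_lit 83493) (nat_lit 9) nil (node
  (nat_lit 4) (nat_lit 82993) (nat_lit 9) nil (node (nat_lit 3) (nat_lit 82993) (nat_lit 9) nil
  nil)))) (node (nat_lit 5) (nat_lit 81755) (nat_lit 8) (node (nat_lit 6) (nat_lit 82916) (nat_lit
  9) nil (node (nat_lit 0) (nat_lit 82916) (nat_lit 9) nil (node (nat_lit 3) (nat_lit 81755)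
  (nat_lit 9) nil (node (nat_lit 4) (nat_lit 81755) (nat_lit 9) nil nil)))) (node (nat_lit 4)
  (nat_lit 81755) (nat_lit 8) nil (node (nat_lit 3) (nat_lit 81755) (nat_lit 8) nil (node (nat_lit
  0) (nat_lit 82408) (nat_lit 8) nil nil))))) (node (nat_lit 6) (nat_lit 81416) (nat_lit 7) (node
  (nat_lit 7) (nat_lit 82068) (nat_lit 8) nil nil) (node (nat_lit 0) (nat_lit 79457) (nat_lit 7)
  nil (node (nat_lit 3) (nat_lit 76389) (nat_lit 7) nil (node (nat_lit 4) (nat_lit 76389) (nat_lit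
  7) nil nil))))) (node (nat_lit 0) (nat_lit 80144) (nat_lit 6) (node (nat_lit 7) (nat_lit 81730)
  (nat_lit 7) (node (nat_lit 6) (nat_lit 82383) (nat_lit 8) nil nil) (node (nat_lit 6) (nat_lit
  81473) (nat_lit 7) (node (nat_lit 7) (nat_lit 82125) (nat_lit 8) nil nil) (node (nat_lit 5)
  (nat_lit 80144) (nat_lit 7) nil (node (nat_lit 0) (nat_lit 80980) (nat_lit 7) nil nil)))) (node
  (nat_lit 4) (nat_lit 76389) (nat_lit 6) (node (nat_lit 7) (nat_lit 81416) (nat_lit 7) (node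
  (nat_lit 4) (nat_lit 81416) (nat_lit 8) nil (node (nat_lit 6) (nat_lit 82068) (nat_lit 8) nil
  nil)) (node (nat_lit 6) (nat_lit 79457) (nat_lit 7) (node (nat_lit 7) (nat_lit 80109) (nat_lit
  8) nil nil) (node (nat_lit 5) (nat_lit 76389) (nat_lit 7) nil (node (nat_lit 3) (nat_lit 76389)
  (nat_lit 7) nil (node (nat_lit 0) (nat_lit 78332) (nat_lit 7) nil nil))))) (node (nat_lit 3)
  (nat_lit 76389) (nat_lit 6) (node (nat_lit 7) (nat_lit 81416) (nat_lit 7) (node (nat_lit 9)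
  (nat_lit 81416) (nat_lit 8) nil (node (nat_lit 6) (nat_lit 82068) (nat_lit 8) nil nil)) (node
  (nat_lit 6) (nat_lit 79457) (nat_lit 7) (node (nat_lit 7) (nat_lit 80109) (nat_lit 8) nil nil)
  (node (nat_lit 5) (nat_lit 76389) (nat_lit 7) nil (node (nat_lit 4) (nat_lit 76389) (nat_lit 7)
  nil (node (nat_lit 0) (nat_lit 78332) (nat_lit 7) nil nil))))) nil)))) (node (nat_lit 5)
  (nat_lit 0) (nat_lit 5) (node (nat_lit 7) (nat_lit 79041) (nat_lit 6) (node (nat_lit 6) (nat_lit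
  81386) (nat_lit 7) (node (nat_lit 7) (nat_lit 82438) (nat_lit 8) (node (nat_lit 5) (nat_lit
  82438) (nat_lit 9) (node (nat_lit 6) (nat_lit 83344) (nat_lit 10) (node (nat_lit 5) (nat_lit
  83344) (nat_lit 11) nil nil) nil) nil) (node (nat_lit 5) (nat_lit 81386) (nat_lit 8) nil nil))
  (node (nat_lit 0) (nat_lit 80627) (nat_lit 7) nil (node (nat_lit 3) (nat_lit 79041) (nat_lit 7)
  nil (node (nat_lit 4) (nat_lit 79041) (nat_lit 7) nil nil)))) (node (nat_lit 4) (nat_lit 68996)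
  (nat_lit 6) (node (nat_lit 5) (nat_lit 68996) (nat_lit 7) nil (node (nat_lit 6) (nat_lit 72404)
  (nat_lit 7) nil (node (nat_lit 7) (nat_lit 72404) (nat_lit 7) nil nil))) (node (nat_lit 3)
  (nat_lit 68996) (nat_lit 6) (node (nat_lit 5) (nat_lit 68996) (nat_lit 7) nil (node (nat_lit 6)
  (nat_lit 72404) (nat_lit 7) nil (node (nat_lit 7) (nat_lit 72404) (nat_lit 7) nil nil))) (node
  (nat_lit 6) (nat_lit 76301) (nat_lit 6) (node (nat_lit 5) (nat_lit 76301) (nat_lit 7) nil nil)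
  (node (nat_lit 0) (nat_lit 75981) (nat_lit 6) nil nil))))) (node (nat_lit 3) (nat_lit 0)
  (nat_lit 5) (node (nat_lit 5) (nat_lit 68978) (nat_lit 6) (node (nat_lit 8) (nat_lit 68978)
  (nat_lit 7) nil (node (nat_lit 7) (nat_lit 72386) (nat_lit 7) nil nil)) (node (nat_lit 7)
  (nat_lit 74446) (nat_lit 6) (node (nat_lit 6) (nat_lit 74945) (nat_lit 7) nil nil) (node
  (nat_lit 4) (nat_lit 68978) (nat_lit 6) nil (node (nat_lit 6) (nat_lit 74446) (nat_lit 6) nil
  (node (nat_lit 0) (nat_lit 72278) (nat_lit 6) nil nil))))) (node (nat_lit 4) (nat_lit 0)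
  (nat_lit 5) (node (nat_lit 5) (nat_lit 68978) (nat_lit 6) (node (nat_lit 4) (nat_lit 68978)
  (nat_lit 7) nil (node (nat_lit 7) (nat_lit 72386) (nat_lit 7) nil nil)) (node (nat_lit 7)
  (nat_lit 74446) (nat_lit 6) (node (nat_lit 6) (nat_lit 74945) (nat_lit 7) nil nil) (node
  (nat_lit 3) (nat_lit 68978) (nat_lit 6) nil (node (nat_lit 6) (nat_lit 74446) (nat_lit 6) nil
  (node (nat_lit 0) (nat_lit 72278) (nat_lit 6) nil nil))))) (node (nat_lit 0) (nat_lit 74772)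
  (nat_lit 5) (node (nat_lit 7) (nat_lit 76842) (nat_lit 6) (node (nat_lit 6) (nat_lit 77678)
  (nat_lit 7) nil nil) (node (nat_lit 6) (nat_lit 76842) (nat_lit 6) (node (nat_lit 7) (nat_lit
  77678) (nat_lit 7) nil nil) (node (nat_lit 5) (nat_lit 74772) (nat_lit 6) nil nil))) nil)))))
  nil))

noncomputable def t292 : Tr :=
  (node (nat_lit 5) (nat_lit 52342) (nat_lit 6) (node (nat_lit 7) (nat_lit 69654) (nat_lit 7)
  (node (nat_lit 6) (nat_lit 69654) (nat_lit 8) (node (nat_lit 7) (nat_lit 72505) (nat_lit 9)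
  (node (nat_lit 5) (nat_lit 72505) (nat_lit 10) (node (nat_lit 6) (nat_lit 72505) (nat_lit 11)
  (node (nat_lit 5) (nat_lit 72505) (nat_lit 12) (node (nat_lit 7) (nat_lit 73572) (nat_lit 13)
  (node (nat_lit 5) (nat_lit 73572) (nat_lit 14) (node (nat_lit 6) (nat_lit 73572) (nat_lit 15)
  nil nil) nil) (node (nat_lit 4) (nat_lit 72505) (nat_lit 13) (node (nat_lit 6) (nat_lit 72505)
  (nat_lit 14) nil (node (nat_lit 5) (nat_lit 72505) (nat_lit 14) nil nil)) nil)) (node (nat_lit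
  4) (nat_lit 72505) (nat_lit 12) (node (nat_lit 6) (nat_lit 72505) (nat_lit 13) nil nil) (node
  (nat_lit 7) (nat_lit 73425) (nat_lit 12) nil (node (nat_lit 0) (nat_lit 73425) (nat_lit 12) nil
  nil)))) (node (nat_lit 7) (nat_lit 73433) (nat_lit 11) (node (nat_lit 6) (nat_lit 73433)
  (nat_lit 12) (node (nat_lit 5) (nat_lit 73433) (nat_lit 13) (node (nat_lit 7) (nat_lit 73572)
  (nat_lit 14) nil nil) nil) nil) (node (nat_lit 4) (nat_lit 72505) (nat_lit 11) (node (nat_lit 6)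
  (nat_lit 72505) (nat_lit 12) nil nil) (node (nat_lit 0) (nat_lit 73191) (nat_lit 11) nil nil))))
  (node (nat_lit 4) (nat_lit 72505) (nat_lit 10) nil (node (nat_lit 0) (nat_lit 73113) (nat_lit
  10) nil nil))) (node (nat_lit 4) (nat_lit 69654) (nat_lit 9) (node (nat_lit 6) (nat_lit 69654)
  (nat_lit 10) (node (nat_lit 5) (nat_lit 69654) (nat_lit 11) (node (nat_lit 4) (nat_lit 69654)
  (nat_lit 12) nil nil) (node (nat_lit 7) (nat_lit 71466) (nat_lit 11) nil (node (nat_lit 0)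
  (nat_lit 71466) (nat_lit 11) nil nil))) (node (nat_lit 5) (nat_lit 69654) (nat_lit 10) (node
  (nat_lit 4) (nat_lit 69654) (nat_lit 11) (node (nat_lit 6) (nat_lit 69654) (nat_lit 12) nil nil)
  (node (nat_lit 6) (nat_lit 69654) (nat_lit 11) nil (node (nat_lit 7) (nat_lit 71466) (nat_lit
  11) nil nil))) (node (nat_lit 7) (nat_lit 72086) (nat_lit 10) nil (node (nat_lit 0) (nat_lit
  72086) (nat_lit 10) nil nil)))) (node (nat_lit 0) (nat_lit 72387) (nat_lit 9) (node (nat_lit 6)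
  (nat_lit 72387) (nat_lit 10) nil (node (nat_lit 7) (nat_lit 72772) (nat_lit 10) nil (node
  (nat_lit 4) (nat_lit 72387) (nat_lit 10) nil (node (nat_lit 0) (nat_lit 72772) (nat_lit 10) nil
  nil)))) nil))) (node (nat_lit 5) (nat_lit 69654) (nat_lit 8) (node (nat_lit 6) (nat_lit 69654)
  (nat_lit 9) (node (nat_lit 7) (nat_lit 72086) (nat_lit 10) (node (nat_lit 5) (nat_lit 72086)
  (nat_lit 11) nil nil) (node (nat_lit 5) (nat_lit 69654) (nat_lit 10) nil nil)) (node (nat_lit 4)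
  (nat_lit 69654) (nat_lit 9) (node (nat_lit 7) (nat_lit 71165) (nat_lit 10) nil nil) (node
  (nat_lit 0) (nat_lit 70780) (nat_lit 9) nil nil))) (node (nat_lit 4) (nat_lit 69654) (nat_lit 8)
  (node (nat_lit 7) (nat_lit 70780) (nat_lit 9) nil nil) (node (nat_lit 0) (nat_lit 70874)
  (nat_lit 8) nil nil)))) (node (nat_lit 4) (nat_lit 52666) (nat_lit 7) (node (nat_lit 6) (nat_lit
  52823) (nat_lit 8) (node (nat_lit 4) (nat_lit 52823) (nat_lit 9) (node (nat_lit 5) (nat_lit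
  52823) (nat_lit 10) (node (nat_lit 6) (nat_lit 52823) (nat_lit 11) (node (nat_lit 5) (nat_lit
  57996) (nat_lit 12) (node (nat_lit 4) (nat_lit 61214) (nat_lit 13) (node (nat_lit 6) (nat_lit
  61979) (nat_lit 14) nil nil) nil) (node (nat_lit 4) (nat_lit 54333) (nat_lit 12) (node (nat_lit
  6) (nat_lit 53727) (nat_lit 13) nil nil) (node (nat_lit 7) (nat_lit 48628) (nat_lit 12) nil
  nil))) (node (nat_lit 4) (nat_lit 52823) (nat_lit 11) (node (nat_lit 6) (nat_lit 55167) (nat_lit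
  12) (node (nat_lit 5) (nat_lit 53162) (nat_lit 13) nil nil) (node (nat_lit 7) (nat_lit 58175)
  (nat_lit 12) nil nil)) (node (nat_lit 7) (nat_lit 60980) (nat_lit 11) nil (node (nat_lit 0)
  (nat_lit 57941) (nat_lit 11) nil nil)))) (node (nat_lit 0) (nat_lit 60496) (nat_lit 10) nil
  (node (nat_lit 7) (nat_lit 60496) (nat_lit 10) nil nil))) (node (nat_lit 5) (nat_lit 52823)
  (nat_lit 9) (node (nat_lit 6) (nat_lit 52823) (nat_lit 10) (node (nat_lit 4) (nat_lit 52823)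
  (nat_lit 11) (node (nat_lit 6) (nat_lit 55365) (nat_lit 12) (node (nat_lit 5) (nat_lit 54963)
  (nat_lit 13) (node (nat_lit 4) (nat_lit 53729) (nat_lit 14) nil nil) nil) (node (nat_lit 5)
  (nat_lit 55626) (nat_lit 12) nil nil)) (node (nat_lit 7) (nat_lit 57941) (nat_lit 11) nil (node
  (nat_lit 0) (nat_lit 57941) (nat_lit 11) nil nil))) (node (nat_lit 7) (nat_lit 61987) (nat_lit
  10) nil (node (nat_lit 0) (nat_lit 61987) (nat_lit 10) nil nil))) (node (nat_lit 7) (nat_lit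
  66869) (nat_lit 9) nil (node (nat_lit 0) (nat_lit 64413) (nat_lit 9) nil nil)))) (node (nat_lit
  5) (nat_lit 52793) (nat_lit 8) (node (nat_lit 6) (nat_lit 52793) (nat_lit 9) (node (nat_lit 4)
  (nat_lit 52793) (nat_lit 10) (node (nat_lit 6) (nat_lit 52793) (nat_lit 11) (node (nat_lit 5)
  (nat_lit 57313) (nat_lit 12) (node (nat_lit 4) (nat_lit 57857) (nat_lit 13) (node (nat_lit 5)
  (nat_lit 57534) (nat_lit 14) nil nil) nil) nil) (node (nat_lit 5) (nat_lit 52793) (nat_lit 11)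
  (node (nat_lit 4) (nat_lit 56675) (nat_lit 12) (node (nat_lit 6) (nat_lit 56086) (nat_lit 13)
  nil nil) nil) (node (nat_lit 7) (nat_lit 57910) (nat_lit 11) nil nil))) (node (nat_lit 5)
  (nat_lit 52793) (nat_lit 10) (node (nat_lit 4) (nat_lit 52793) (nat_lit 11) (node (nat_lit 6)
  (nat_lit 55167) (nat_lit 12) (node (nat_lit 4) (nat_lit 57506) (nat_lit 13) nil (node (nat_lit
  5) (nat_lit 54483) (nat_lit 13) nil nil)) (node (nat_lit 7) (nat_lit 58145) (nat_lit 12) nil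
  nil)) (node (nat_lit 7) (nat_lit 57910) (nat_lit 11) nil nil)) (node (nat_lit 7) (nat_lit 34115)
  (nat_lit 10) nil (node (nat_lit 0) (nat_lit 57609) (nat_lit 10) nil nil)))) (node (nat_lit 7)
  (nat_lit 67307) (nat_lit 9) (node (nat_lit 6) (nat_lit 67307) (nat_lit 10) nil nil) (node
  (nat_lit 0) (nat_lit 64010) (nat_lit 9) nil nil))) (node (nat_lit 0) (nat_lit 68839) (nat_lit 8)
  (node (nat_lit 4) (nat_lit 68839) (nat_lit 9) nil (node (nat_lit 5) (nat_lit 68839) (nat_lit 9)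
  nil nil)) (node (nat_lit 7) (nat_lit 67706) (nat_lit 8) (node (nat_lit 5) (nat_lit 67706)
  (nat_lit 9) nil (node (nat_lit 4) (nat_lit 67706) (nat_lit 9) nil nil)) nil)))) (node (nat_lit
  6) (nat_lit 52648) (nat_lit 7) (node (nat_lit 7) (nat_lit 70829) (nat_lit 8) (node (nat_lit 5)
  (nat_lit 70829) (nat_lit 9) (node (nat_lit 6) (nat_lit 70829) (nat_lit 10) (node (nat_lit 5)
  (nat_lit 70829) (nat_lit 11) (node (nat_lit 7) (nat_lit 73104) (nat_lit 12) (node (nat_lit 6)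
  (nat_lit 73104) (nat_lit 13) nil nil) nil) nil) (node (nat_lit 7) (nat_lit 72478) (nat_lit 10)
  (node (nat_lit 6) (nat_lit 72478) (nat_lit 11) (node (nat_lit 5) (nat_lit 72478) (nat_lit 12)
  (node (nat_lit 6) (nat_lit 72478) (nat_lit 13) nil (node (nat_lit 7) (nat_lit 73143) (nat_lit
  13) nil nil)) nil) nil) (node (nat_lit 0) (nat_lit 71708) (nat_lit 10) nil nil))) (node (nat_lit
  4) (nat_lit 70829) (nat_lit 9) nil (node (nat_lit 0) (nat_lit 71709) (nat_lit 9) nil nil)))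
  (node (nat_lit 4) (nat_lit 52602) (nat_lit 8) (node (nat_lit 5) (nat_lit 52625) (nat_lit 9)
  (node (nat_lit 4) (nat_lit 52625) (nat_lit 10) (node (nat_lit 6) (nat_lit 52625) (nat_lit 11)
  nil nil) (node (nat_lit 6) (nat_lit 52625) (nat_lit 10) (node (nat_lit 7) (nat_lit 43428)
  (nat_lit 11) nil (node (nat_lit 5) (nat_lit 52625) (nat_lit 11) nil nil)) (node (nat_lit 7)
  (nat_lit 57442) (nat_lit 10) nil nil))) (node (nat_lit 6) (nat_lit 52602) (nat_lit 9) (node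
  (nat_lit 5) (nat_lit 52602) (nat_lit 10) (node (nat_lit 4) (nat_lit 52602) (nat_lit 11) nil nil)
  (node (nat_lit 7) (nat_lit 57419) (nat_lit 10) nil (node (nat_lit 0) (nat_lit 57419) (nat_lit
  10) nil nil))) (node (nat_lit 7) (nat_lit 61863) (nat_lit 9) nil (node (nat_lit 0) (nat_lit
  61025) (nat_lit 9) nil nil)))) (node (nat_lit 0) (nat_lit 63786) (nat_lit 8) nil nil))) (node
  (nat_lit 0) (nat_lit 68147) (nat_lit 7) (node (nat_lit 6) (nat_lit 68147) (nat_lit 8) nil (node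
  (nat_lit 5) (nat_lit 68147) (nat_lit 8) nil (node (nat_lit 7) (nat_lit 69366) (nat_lit 8) nil
  (node (nat_lit 0) (nat_lit 69366) (nat_lit 8) nil (node (nat_lit 4) (nat_lit 68147) (nat_lit 8)
  nil nil))))) nil)))) (node (nat_lit 4) (nat_lit 52438) (nat_lit 6) (node (nat_lit 5) (nat_lit
  52800) (nat_lit 7) (node (nat_lit 6) (nat_lit 52835) (nat_lit 8) (node (nat_lit 5) (nat_lit
  52878) (nat_lit 9) (node (nat_lit 4) (nat_lit 52878) (nat_lit 10) (node (nat_lit 6) (nat_lit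
  52842) (nat_lit 11) (node (nat_lit 4) (nat_lit 56469) (nat_lit 12) (node (nat_lit 5) (nat_lit
  58991) (nat_lit 13) (node (nat_lit 6) (nat_lit 59327) (nat_lit 14) nil nil) nil) (node (nat_lit
  5) (nat_lit 56764) (nat_lit 12) (node (nat_lit 6) (nat_lit 54524) (nat_lit 13) nil nil) nil))
  (node (nat_lit 5) (nat_lit 52878) (nat_lit 11) (node (nat_lit 6) (nat_lit 55453) (nat_lit 12)
  (node (nat_lit 7) (nat_lit 44787) (nat_lit 13) nil (node (nat_lit 4) (nat_lit 56528) (nat_lit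
  13) nil nil)) (node (nat_lit 7) (nat_lit 58230) (nat_lit 12) nil nil)) (node (nat_lit 7)
  (nat_lit 62623) (nat_lit 11) nil (node (nat_lit 0) (nat_lit 57996) (nat_lit 11) nil nil))))
  (node (nat_lit 7) (nat_lit 60552) (nat_lit 10) nil (node (nat_lit 0) (nat_lit 60552) (nat_lit
  10) nil nil))) (node (nat_lit 4) (nat_lit 52835) (nat_lit 9) (node (nat_lit 6) (nat_lit 52835)
  (nat_lit 10) (node (nat_lit 5) (nat_lit 52828) (nat_lit 11) (node (nat_lit 6) (nat_lit 56014)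
  (nat_lit 12) (node (nat_lit 4) (nat_lit 57995) (nat_lit 13) (node (nat_lit 5) (nat_lit 58802)
  (nat_lit 14) nil nil) nil) (node (nat_lit 4) (nat_lit 56754) (nat_lit 12) (node (nat_lit 5)
  (nat_lit 58834) (nat_lit 13) nil nil) (node (nat_lit 7) (nat_lit 58181) (nat_lit 12) nil nil)))
  (node (nat_lit 7) (nat_lit 57953) (nat_lit 11) nil (node (nat_lit 0) (nat_lit 57953) (nat_lit
  11) nil nil))) (node (nat_lit 7) (nat_lit 62000) (nat_lit 10) nil (node (nat_lit 0) (nat_lit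
  62000) (nat_lit 10) nil nil))) (node (nat_lit 0) (nat_lit 64426) (nat_lit 9) nil (node (nat_lit
  7) (nat_lit 27860) (nat_lit 9) nil nil)))) (node (nat_lit 4) (nat_lit 52819) (nat_lit 8) (node
  (nat_lit 6) (nat_lit 52823) (nat_lit 9) (node (nat_lit 5) (nat_lit 52823) (nat_lit 10) (node
  (nat_lit 6) (nat_lit 52823) (nat_lit 11) (node (nat_lit 4) (nat_lit 56328) (nat_lit 12) (node
  (nat_lit 5) (nat_lit 56765) (nat_lit 13) (node (nat_lit 6) (nat_lit 57296) (nat_lit 14) (node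
  (nat_lit 7) (nat_lit 51921) (nat_lit 15) nil nil) (node (nat_lit 4) (nat_lit 56212) (nat_lit 14)
  nil nil)) (node (nat_lit 6) (nat_lit 55723) (nat_lit 13) nil nil)) (node (nat_lit 7) (nat_lit
  58176) (nat_lit 12) nil nil)) (node (nat_lit 4) (nat_lit 52823) (nat_lit 11) (node (nat_lit 5)
  (nat_lit 54245) (nat_lit 12) nil nil) (node (nat_lit 7) (nat_lit 62568) (nat_lit 11) nil (node
  (nat_lit 0) (nat_lit 57941) (nat_lit 11) nil nil)))) (node (nat_lit 4) (nat_lit 52823) (nat_lit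
  10) (node (nat_lit 5) (nat_lit 52823) (nat_lit 11) (node (nat_lit 6) (nat_lit 56690) (nat_lit
  12) (node (nat_lit 7) (nat_lit 50393) (nat_lit 13) nil (node (nat_lit 5) (nat_lit 58347)
  (nat_lit 13) nil (node (nat_lit 4) (nat_lit 57765) (nat_lit 13) nil nil))) (node (nat_lit 7)
  (nat_lit 58176) (nat_lit 12) nil nil)) (node (nat_lit 7) (nat_lit 57941) (nat_lit 11) nil (node
  (nat_lit 0) (nat_lit 57941) (nat_lit 11) nil nil))) (node (nat_lit 7) (nat_lit 60497) (nat_lit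
  10) nil (node (nat_lit 0) (nat_lit 60497) (nat_lit 10) nil nil)))) (node (nat_lit 7) (nat_lit
  67967) (nat_lit 9) (node (nat_lit 6) (nat_lit 67967) (nat_lit 10) nil nil) (node (nat_lit 0)
  (nat_lit 64992) (nat_lit 9) nil nil))) (node (nat_lit 0) (nat_lit 69051) (nat_lit 8) (node
  (nat_lit 5) (nat_lit 69051) (nat_lit 9) nil (node (nat_lit 4) (nat_lit 69051) (nat_lit 9) nil
  nil)) (node (nat_lit 7) (nat_lit 68268) (nat_lit 8) (node (nat_lit 4) (nat_lit 68268) (nat_lit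
  9) nil (node (nat_lit 5) (nat_lit 68268) (nat_lit 9) nil nil)) nil)))) (node (nat_lit 6)
  (nat_lit 52740) (nat_lit 7) (node (nat_lit 5) (nat_lit 52740) (nat_lit 8) (node (nat_lit 4)
  (nat_lit 52740) (nat_lit 9) (node (nat_lit 6) (nat_lit 52740) (nat_lit 10) (node (nat_lit 4)
  (nat_lit 52740) (nat_lit 11) (node (nat_lit 5) (nat_lit 53671) (nat_lit 12) nil nil) nil) (node
  (nat_lit 5) (nat_lit 52740) (nat_lit 10) (node (nat_lit 6) (nat_lit 52740) (nat_lit 11) (node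
  (nat_lit 4) (nat_lit 54162) (nat_lit 12) nil (node (nat_lit 7) (nat_lit 47545) (nat_lit 12) nil
  nil)) nil) (node (nat_lit 7) (nat_lit 60414) (nat_lit 10) nil (node (nat_lit 0) (nat_lit 57557)
  (nat_lit 10) nil nil)))) (node (nat_lit 6) (nat_lit 52740) (nat_lit 9) (node (nat_lit 4)
  (nat_lit 52740) (nat_lit 10) (node (nat_lit 5) (nat_lit 52740) (nat_lit 11) (node (nat_lit 4)
  (nat_lit 54769) (nat_lit 12) (node (nat_lit 6) (nat_lit 54178) (nat_lit 13) (node (nat_lit 5)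
  (nat_lit 52782) (nat_lit 14) nil nil) nil) (node (nat_lit 6) (nat_lit 55395) (nat_lit 12) nil
  nil)) (node (nat_lit 6) (nat_lit 52740) (nat_lit 11) nil nil)) (node (nat_lit 7) (nat_lit 57557)
  (nat_lit 10) nil (node (nat_lit 0) (nat_lit 57557) (nat_lit 10) nil nil))) (node (nat_lit 7)
  (nat_lit 66410) (nat_lit 9) nil (node (nat_lit 0) (nat_lit 61164) (nat_lit 9) nil nil)))) (node
  (nat_lit 7) (nat_lit 70655) (nat_lit 8) (node (nat_lit 4) (nat_lit 70655) (nat_lit 9) (node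
  (nat_lit 7) (nat_lit 72194) (nat_lit 10) (node (nat_lit 6) (nat_lit 72194) (nat_lit 11) (node
  (nat_lit 4) (nat_lit 72194) (nat_lit 12) (node (nat_lit 7) (nat_lit 72860) (nat_lit 13) nil nil)
  nil) nil) (node (nat_lit 6) (nat_lit 70655) (nat_lit 10) (node (nat_lit 4) (nat_lit 70655)
  (nat_lit 11) nil nil) nil)) (node (nat_lit 5) (nat_lit 70655) (nat_lit 9) nil (node (nat_lit 0)
  (nat_lit 71148) (nat_lit 9) nil nil))) (node (nat_lit 0) (nat_lit 68103) (nat_lit 8) nil nil)))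
  (node (nat_lit 7) (nat_lit 68446) (nat_lit 7) (node (nat_lit 4) (nat_lit 68446) (nat_lit 8)
  (node (nat_lit 6) (nat_lit 68446) (nat_lit 9) (node (nat_lit 7) (nat_lit 69957) (nat_lit 10) nil
  (node (nat_lit 4) (nat_lit 68446) (nat_lit 10) nil nil)) nil) (node (nat_lit 6) (nat_lit 68446)
  (nat_lit 8) (node (nat_lit 7) (nat_lit 70259) (nat_lit 9) (node (nat_lit 4) (nat_lit 70259)
  (nat_lit 10) nil nil) (node (nat_lit 5) (nat_lit 68446) (nat_lit 9) nil nil)) (node (nat_lit 5)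
  (nat_lit 68446) (nat_lit 8) (node (nat_lit 7) (nat_lit 69572) (nat_lit 9) nil nil) (node
  (nat_lit 0) (nat_lit 69665) (nat_lit 8) nil nil)))) (node (nat_lit 0) (nat_lit 68498) (nat_lit
  7) (node (nat_lit 6) (nat_lit 68498) (nat_lit 8) nil (node (nat_lit 4) (nat_lit 68498) (nat_lit
  8) nil (node (nat_lit 0) (nat_lit 69718) (nat_lit 8) nil (node (nat_lit 7) (nat_lit 69517)
  (nat_lit 8) nil (node (nat_lit 5) (nat_lit 68498) (nat_lit 8) nil nil))))) nil)))) (node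
  (nat_lit 0) (nat_lit 66062) (nat_lit 6) (node (nat_lit 7) (nat_lit 69269) (nat_lit 7) (node
  (nat_lit 6) (nat_lit 69269) (nat_lit 8) (node (nat_lit 7) (nat_lit 71440) (nat_lit 9) (node
  (nat_lit 9) (nat_lit 71825) (nat_lit 10) nil nil) (node (nat_lit 4) (nat_lit 69269) (nat_lit 9)
  nil (node (nat_lit 5) (nat_lit 69269) (nat_lit 9) nil (node (nat_lit 0) (nat_lit 71082) (nat_lit
  9) nil nil)))) (node (nat_lit 9) (nat_lit 70489) (nat_lit 8) (node (nat_lit 6) (nat_lit 70489)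
  (nat_lit 9) nil nil) (node (nat_lit 4) (nat_lit 69269) (nat_lit 8) nil (node (nat_lit 5)
  (nat_lit 69269) (nat_lit 8) nil (node (nat_lit 0) (nat_lit 69902) (nat_lit 8) nil nil))))) (node
  (nat_lit 6) (nat_lit 66062) (nat_lit 7) (node (nat_lit 7) (nat_lit 69904) (nat_lit 8) (node
  (nat_lit 9) (nat_lit 70397) (nat_lit 9) nil nil) (node (nat_lit 5) (nat_lit 66062) (nat_lit 8)
  nil (node (nat_lit 4) (nat_lit 66062) (nat_lit 8) nil (node (nat_lit 0) (nat_lit 68383) (nat_lit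
  8) nil nil)))) (node (nat_lit 5) (nat_lit 66062) (nat_lit 7) (node (nat_lit 6) (nat_lit 66062)
  (nat_lit 8) nil (node (nat_lit 7) (nat_lit 68383) (nat_lit 8) nil (node (nat_lit 9) (nat_lit
  68383) (nat_lit 8) nil nil))) (node (nat_lit 0) (nat_lit 68727) (nat_lit 7) (node (nat_lit 4)
  (nat_lit 68727) (nat_lit 8) nil (node (nat_lit 6) (nat_lit 68727) (nat_lit 8) nil (node (nat_lit
  9) (nat_lit 69360) (nat_lit 8) nil nil))) (node (nat_lit 4) (nat_lit 66062) (nat_lit 7) (node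
  (nat_lit 6) (nat_lit 66062) (nat_lit 8) nil (node (nat_lit 9) (nat_lit 68383) (nat_lit 8) nil
  (node (nat_lit 7) (nat_lit 67505) (nat_lit 8) nil nil))) nil))))) nil)))

noncomputable def t293 : Tr :=
  (node (nat_lit 0) (nat_lit 0) (nat_lit 4) (node (nat_lit 6) (nat_lit 0) (nat_lit 5) t292 (node
  (nat_lit 5) (nat_lit 0) (nat_lit 5) (node (nat_lit 7) (nat_lit 66007) (nat_lit 6) (node (nat_lit
  6) (nat_lit 66007) (nat_lit 7) (node (nat_lit 7) (nat_lit 71401) (nat_lit 8) (node (nat_lit 5)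
  (nat_lit 71401) (nat_lit 9) (node (nat_lit 6) (nat_lit 71401) (nat_lit 10) (node (nat_lit 5)
  (nat_lit 71401) (nat_lit 11) (node (nat_lit 7) (nat_lit 73540) (nat_lit 12) (node (nat_lit 6)
  (nat_lit 73540) (nat_lit 13) (node (nat_lit 5) (nat_lit 73540) (nat_lit 14) nil nil) (node
  (nat_lit 5) (nat_lit 73540) (nat_lit 13) nil nil)) (node (nat_lit 4) (nat_lit 71401) (nat_lit
  12) (node (nat_lit 6) (nat_lit 71401) (nat_lit 13) (node (nat_lit 5) (nat_lit 71401) (nat_lit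
  14) (node (nat_lit 6) (nat_lit 71401) (nat_lit 15) nil nil) (node (nat_lit 4) (nat_lit 71401)
  (nat_lit 14) nil nil)) (node (nat_lit 5) (nat_lit 71401) (nat_lit 13) (node (nat_lit 6) (nat_lit
  71401) (nat_lit 14) (node (nat_lit 4) (nat_lit 71401) (nat_lit 15) nil nil) nil) nil)) (node
  (nat_lit 0) (nat_lit 72814) (nat_lit 12) nil nil))) (node (nat_lit 7) (nat_lit 73298) (nat_lit
  11) (node (nat_lit 6) (nat_lit 73298) (nat_lit 12) (node (nat_lit 5) (nat_lit 73298) (nat_lit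
  13) (node (nat_lit 6) (nat_lit 73298) (nat_lit 14) (node (nat_lit 4) (nat_lit 73298) (nat_lit
  15) nil (node (nat_lit 7) (nat_lit 73572) (nat_lit 15) nil nil)) nil) nil) (node (nat_lit 4)
  (nat_lit 73298) (nat_lit 12) nil nil)) (node (nat_lit 4) (nat_lit 71401) (nat_lit 11) (node
  (nat_lit 6) (nat_lit 71401) (nat_lit 12) (node (nat_lit 5) (nat_lit 71401) (nat_lit 13) nil nil)
  (node (nat_lit 5) (nat_lit 71401) (nat_lit 12) (node (nat_lit 4) (nat_lit 71401) (nat_lit 13)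
  nil (node (nat_lit 6) (nat_lit 71401) (nat_lit 13) nil nil)) (node (nat_lit 7) (nat_lit 72814)
  (nat_lit 12) nil (node (nat_lit 0) (nat_lit 72814) (nat_lit 12) nil nil)))) (node (nat_lit 0)
  (nat_lit 73298) (nat_lit 11) nil nil)))) (node (nat_lit 4) (nat_lit 71401) (nat_lit 10) (node
  (nat_lit 6) (nat_lit 71401) (nat_lit 11) (node (nat_lit 4) (nat_lit 71401) (nat_lit 12) nil nil)
  (node (nat_lit 5) (nat_lit 71401) (nat_lit 11) (node (nat_lit 6) (nat_lit 71401) (nat_lit 12)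
  nil nil) (node (nat_lit 7) (nat_lit 72580) (nat_lit 11) nil (node (nat_lit 0) (nat_lit 72580)
  (nat_lit 11) nil nil)))) (node (nat_lit 0) (nat_lit 72814) (nat_lit 10) nil nil))) nil) (node
  (nat_lit 5) (nat_lit 66007) (nat_lit 8) (node (nat_lit 6) (nat_lit 66007) (nat_lit 9) (node
  (nat_lit 7) (nat_lit 68327) (nat_lit 10) nil nil) nil) nil)) nil) (node (nat_lit 6) (nat_lit
  52445) (nat_lit 6) (node (nat_lit 5) (nat_lit 52486) (nat_lit 7) (node (nat_lit 7) (nat_lit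
  67668) (nat_lit 8) (node (nat_lit 6) (nat_lit 67668) (nat_lit 9) (node (nat_lit 7) (nat_lit
  69413) (nat_lit 10) (node (nat_lit 5) (nat_lit 69413) (nat_lit 11) (node (nat_lit 6) (nat_lit
  69413) (nat_lit 12) (node (nat_lit 5) (nat_lit 69413) (nat_lit 13) (node (nat_lit 4) (nat_lit
  69413) (nat_lit 14) (node (nat_lit 6) (nat_lit 69413) (nat_lit 15) (node (nat_lit 5) (nat_lit
  69413) (nat_lit 16) (node (nat_lit 6) (nat_lit 69524) (nat_lit 17) (node (nat_lit 4) (nat_lit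
  69915) (nat_lit 18) nil nil) nil) nil) (node (nat_lit 5) (nat_lit 69413) (nat_lit 15) nil nil))
  (node (nat_lit 0) (nat_lit 70274) (nat_lit 14) nil nil)) nil) nil) nil) nil) nil) (node (nat_lit
  4) (nat_lit 52486) (nat_lit 8) (node (nat_lit 6) (nat_lit 52486) (nat_lit 9) nil nil) (node
  (nat_lit 0) (nat_lit 56425) (nat_lit 8) nil nil))) (node (nat_lit 4) (nat_lit 52445) (nat_lit 7)
  nil (node (nat_lit 0) (nat_lit 58698) (nat_lit 7) nil nil))) (node (nat_lit 4) (nat_lit 50343)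
  (nat_lit 6) (node (nat_lit 6) (nat_lit 50343) (nat_lit 7) (node (nat_lit 4) (nat_lit 50343)
  (nat_lit 8) (node (nat_lit 5) (nat_lit 50343) (nat_lit 9) (node (nat_lit 6) (nat_lit 50343)
  (nat_lit 10) (node (nat_lit 7) (nat_lit 27961) (nat_lit 11) (node (nat_lit 5) (nat_lit 28363)
  (nat_lit 12) nil nil) (node (nat_lit 5) (nat_lit 51647) (nat_lit 11) nil nil)) (node (nat_lit 4)
  (nat_lit 50343) (nat_lit 10) nil nil)) nil) (node (nat_lit 5) (nat_lit 50343) (nat_lit 8) (node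
  (nat_lit 6) (nat_lit 50343) (nat_lit 9) nil (node (nat_lit 4) (nat_lit 50343) (nat_lit 9) nil
  nil)) nil)) (node (nat_lit 5) (nat_lit 50343) (nat_lit 7) nil (node (nat_lit 7) (nat_lit 56889)
  (nat_lit 7) nil (node (nat_lit 0) (nat_lit 54953) (nat_lit 7) nil nil)))) (node (nat_lit 0)
  (nat_lit 61397) (nat_lit 6) (node (nat_lit 0) (nat_lit 62207) (nat_lit 7) nil (node (nat_lit 6)
  (nat_lit 61397) (nat_lit 7) nil (node (nat_lit 7) (nat_lit 62207) (nat_lit 7) nil nil))) nil))))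
  (node (nat_lit 4) (nat_lit 0) (nat_lit 5) (node (nat_lit 6) (nat_lit 0) (nat_lit 6) (node
  (nat_lit 4) (nat_lit 51865) (nat_lit 7) (node (nat_lit 7) (nat_lit 62314) (nat_lit 8) (node
  (nat_lit 6) (nat_lit 62314) (nat_lit 9) (node (nat_lit 7) (nat_lit 63732) (nat_lit 10) (node
  (nat_lit 4) (nat_lit 63732) (nat_lit 11) (node (nat_lit 6) (nat_lit 63732) (nat_lit 12) (node
  (nat_lit 4) (nat_lit 63732) (nat_lit 13) (node (nat_lit 5) (nat_lit 63732) (nat_lit 14) nil nil)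
  nil) nil) nil) nil) nil) (node (nat_lit 5) (nat_lit 51865) (nat_lit 8) nil nil)) (node (nat_lit
  5) (nat_lit 51865) (nat_lit 7) nil (node (nat_lit 0) (nat_lit 58117) (nat_lit 7) nil (node
  (nat_lit 7) (nat_lit 55171) (nat_lit 7) nil nil)))) (node (nat_lit 7) (nat_lit 63939) (nat_lit
  6) (node (nat_lit 6) (nat_lit 63939) (nat_lit 7) (node (nat_lit 7) (nat_lit 68052) (nat_lit 8)
  (node (nat_lit 4) (nat_lit 68052) (nat_lit 9) (node (nat_lit 6) (nat_lit 68052) (nat_lit 10)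
  (node (nat_lit 4) (nat_lit 68052) (nat_lit 11) (node (nat_lit 7) (nat_lit 69466) (nat_lit 12)
  nil nil) (node (nat_lit 7) (nat_lit 69231) (nat_lit 11) nil nil)) (node (nat_lit 5) (nat_lit
  68052) (nat_lit 10) nil (node (nat_lit 0) (nat_lit 68930) (nat_lit 10) nil nil))) nil) nil) nil)
  (node (nat_lit 5) (nat_lit 49744) (nat_lit 6) (node (nat_lit 6) (nat_lit 49744) (nat_lit 7)
  (node (nat_lit 4) (nat_lit 49744) (nat_lit 8) nil nil) (node (nat_lit 4) (nat_lit 49744)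
  (nat_lit 7) nil (node (nat_lit 7) (nat_lit 52870) (nat_lit 7) nil nil))) (node (nat_lit 0)
  (nat_lit 57182) (nat_lit 6) nil nil)))) (node (nat_lit 0) (nat_lit 0) (nat_lit 5) (node (nat_lit
  6) (nat_lit 60600) (nat_lit 6) (node (nat_lit 7) (nat_lit 67277) (nat_lit 7) (node (nat_lit 6)
  (nat_lit 67277) (nat_lit 8) (node (nat_lit 8) (nat_lit 69448) (nat_lit 9) (node (nat_lit 6)
  (nat_lit 69448) (nat_lit 10) nil nil) (node (nat_lit 0) (nat_lit 68403) (nat_lit 9) nil (node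
  (nat_lit 4) (nat_lit 67277) (nat_lit 9) nil (node (nat_lit 5) (nat_lit 67277) (nat_lit 9) nil
  nil)))) (node (nat_lit 5) (nat_lit 67277) (nat_lit 8) (node (nat_lit 8) (nat_lit 68403) (nat_lit
  9) nil nil) (node (nat_lit 0) (nat_lit 68496) (nat_lit 8) nil (node (nat_lit 4) (nat_lit 67277)
  (nat_lit 8) nil nil)))) (node (nat_lit 8) (nat_lit 64872) (nat_lit 7) (node (nat_lit 7) (nat_lit
  65890) (nat_lit 8) (node (nat_lit 6) (nat_lit 65890) (nat_lit 9) nil nil) nil) (node (nat_lit 0)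
  (nat_lit 62314) (nat_lit 7) nil nil))) (node (nat_lit 7) (nat_lit 64883) (nat_lit 6) (node
  (nat_lit 6) (nat_lit 64883) (nat_lit 7) (node (nat_lit 7) (nat_lit 67663) (nat_lit 8) (node
  (nat_lit 8) (nat_lit 68457) (nat_lit 9) (node (nat_lit 6) (nat_lit 68457) (nat_lit 10) nil nil)
  nil) (node (nat_lit 8) (nat_lit 66326) (nat_lit 8) nil nil)) nil) (node (nat_lit 5) (nat_lit
  60569) (nat_lit 6) nil (node (nat_lit 4) (nat_lit 60569) (nat_lit 6) nil (node (nat_lit 0)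
  (nat_lit 61504) (nat_lit 6) nil nil))))) nil)))) (node (nat_lit 5) (nat_lit 0) (nat_lit 4) (node
  (nat_lit 0) (nat_lit 0) (nat_lit 5) (node (nat_lit 6) (nat_lit 0) (nat_lit 6) (node (nat_lit 5)
  (nat_lit 44698) (nat_lit 7) (node (nat_lit 6) (nat_lit 45846) (nat_lit 8) (node (nat_lit 8)
  (nat_lit 60195) (nat_lit 9) (node (nat_lit 5) (nat_lit 60195) (nat_lit 10) (node (nat_lit 6)
  (nat_lit 60195) (nat_lit 11) (node (nat_lit 5) (nat_lit 60195) (nat_lit 12) (node (nat_lit 8)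
  (nat_lit 61655) (nat_lit 13) (node (nat_lit 5) (nat_lit 61655) (nat_lit 14) (node (nat_lit 6)
  (nat_lit 61655) (nat_lit 15) nil nil) nil) (node (nat_lit 4) (nat_lit 60195) (nat_lit 13) (node
  (nat_lit 6) (nat_lit 60195) (nat_lit 14) nil nil) (node (nat_lit 0) (nat_lit 61298) (nat_lit 13)
  nil nil))) (node (nat_lit 4) (nat_lit 60195) (nat_lit 12) (node (nat_lit 5) (nat_lit 60195)
  (nat_lit 13) nil (node (nat_lit 6) (nat_lit 60195) (nat_lit 13) nil nil)) (node (nat_lit 0)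
  (nat_lit 61115) (nat_lit 12) nil nil))) (node (nat_lit 8) (nat_lit 61379) (nat_lit 11) (node
  (nat_lit 6) (nat_lit 61379) (nat_lit 12) (node (nat_lit 5) (nat_lit 61379) (nat_lit 13) (node
  (nat_lit 8) (nat_lit 61636) (nat_lit 14) (node (nat_lit 5) (nat_lit 61636) (nat_lit 15) nil nil)
  nil) (node (nat_lit 8) (nat_lit 61570) (nat_lit 13) (node (nat_lit 5) (nat_lit 61570) (nat_lit
  14) nil nil) (node (nat_lit 4) (nat_lit 61379) (nat_lit 13) nil nil))) (node (nat_lit 4)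
  (nat_lit 61379) (nat_lit 12) nil (node (nat_lit 0) (nat_lit 61486) (nat_lit 12) nil nil))) (node
  (nat_lit 4) (nat_lit 60195) (nat_lit 11) (node (nat_lit 6) (nat_lit 60195) (nat_lit 12) nil
  (node (nat_lit 8) (nat_lit 61115) (nat_lit 12) nil (node (nat_lit 5) (nat_lit 60195) (nat_lit
  12) nil nil))) (node (nat_lit 0) (nat_lit 61326) (nat_lit 11) nil nil)))) (node (nat_lit 6)
  (nat_lit 60195) (nat_lit 10) (node (nat_lit 5) (nat_lit 60195) (nat_lit 11) (node (nat_lit 8)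
  (nat_lit 61534) (nat_lit 12) (node (nat_lit 5) (nat_lit 61534) (nat_lit 13) (node (nat_lit 6)
  (nat_lit 61534) (nat_lit 14) nil nil) (node (nat_lit 6) (nat_lit 61534) (nat_lit 13) nil nil))
  (node (nat_lit 4) (nat_lit 60195) (nat_lit 12) (node (nat_lit 5) (nat_lit 60195) (nat_lit 13)
  nil (node (nat_lit 6) (nat_lit 60195) (nat_lit 13) nil nil)) (node (nat_lit 0) (nat_lit 61115)
  (nat_lit 12) nil nil))) (node (nat_lit 4) (nat_lit 60195) (nat_lit 11) (node (nat_lit 6)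
  (nat_lit 60195) (nat_lit 12) nil (node (nat_lit 5) (nat_lit 60195) (nat_lit 12) nil (node
  (nat_lit 8) (nat_lit 61115) (nat_lit 12) nil nil))) (node (nat_lit 0) (nat_lit 61326) (nat_lit
  11) nil nil))) (node (nat_lit 4) (nat_lit 60195) (nat_lit 10) (node (nat_lit 6) (nat_lit 60195)
  (nat_lit 11) nil (node (nat_lit 5) (nat_lit 60195) (nat_lit 11) nil (node (nat_lit 8) (nat_lit
  60881) (nat_lit 11) nil nil))) (node (nat_lit 0) (nat_lit 60869) (nat_lit 10) nil nil)))) (node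
  (nat_lit 4) (nat_lit 46646) (nat_lit 9) (node (nat_lit 5) (nat_lit 46954) (nat_lit 10) (node
  (nat_lit 4) (nat_lit 46954) (nat_lit 11) (node (nat_lit 6) (nat_lit 46954) (nat_lit 12) (node
  (nat_lit 5) (nat_lit 50322) (nat_lit 13) (node (nat_lit 6) (nat_lit 51885) (nat_lit 14) nil
  (node (nat_lit 4) (nat_lit 51833) (nat_lit 14) nil nil)) (node (nat_lit 4) (nat_lit 50360)
  (nat_lit 13) (node (nat_lit 5) (nat_lit 51789) (nat_lit 14) (node (nat_lit 6) (nat_lit 52000)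
  (nat_lit 15) nil nil) nil) (node (nat_lit 8) (nat_lit 53552) (nat_lit 13) nil (node (nat_lit 0)
  (nat_lit 51068) (nat_lit 13) nil nil)))) (node (nat_lit 8) (nat_lit 54501) (nat_lit 12) nil
  (node (nat_lit 0) (nat_lit 53257) (nat_lit 12) nil nil))) (node (nat_lit 6) (nat_lit 46954)
  (nat_lit 11) (node (nat_lit 5) (nat_lit 46954) (nat_lit 12) (node (nat_lit 4) (nat_lit 49708)
  (nat_lit 13) (node (nat_lit 5) (nat_lit 50940) (nat_lit 14) (node (nat_lit 6) (nat_lit 51507)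
  (nat_lit 15) nil nil) (node (nat_lit 6) (nat_lit 50887) (nat_lit 14) (node (nat_lit 4) (nat_lit
  52372) (nat_lit 15) nil nil) nil)) (node (nat_lit 8) (nat_lit 38590) (nat_lit 13) (node (nat_lit
  6) (nat_lit 17921) (nat_lit 14) nil nil) (node (nat_lit 0) (nat_lit 51068) (nat_lit 13) nil
  nil))) (node (nat_lit 8) (nat_lit 55921) (nat_lit 12) nil (node (nat_lit 0) (nat_lit 54501)
  (nat_lit 12) nil nil))) (node (nat_lit 8) (nat_lit 55587) (nat_lit 11) nil (node (nat_lit 0)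
  (nat_lit 54760) (nat_lit 11) nil nil)))) (node (nat_lit 6) (nat_lit 46954) (nat_lit 10) (node
  (nat_lit 5) (nat_lit 46954) (nat_lit 11) (node (nat_lit 4) (nat_lit 46954) (nat_lit 12) (node
  (nat_lit 6) (nat_lit 49621) (nat_lit 13) (node (nat_lit 4) (nat_lit 51154) (nat_lit 14) (node
  (nat_lit 5) (nat_lit 52453) (nat_lit 15) nil nil) (node (nat_lit 8) (nat_lit 52803) (nat_lit 14)
  nil nil)) (node (nat_lit 5) (nat_lit 48115) (nat_lit 13) (node (nat_lit 6) (nat_lit 48117)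
  (nat_lit 14) nil nil) (node (nat_lit 8) (nat_lit 51068) (nat_lit 13) nil (node (nat_lit 0)
  (nat_lit 51068) (nat_lit 13) nil nil)))) (node (nat_lit 6) (nat_lit 46954) (nat_lit 12) nil
  (node (nat_lit 8) (nat_lit 53257) (nat_lit 12) nil (node (nat_lit 0) (nat_lit 53257) (nat_lit
  12) nil nil)))) (node (nat_lit 8) (nat_lit 56644) (nat_lit 11) nil (node (nat_lit 0) (nat_lit
  55383) (nat_lit 11) nil nil))) (node (nat_lit 8) (nat_lit 58418) (nat_lit 10) (node (nat_lit 5)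
  (nat_lit 58418) (nat_lit 11) nil nil) (node (nat_lit 0) (nat_lit 57659) (nat_lit 10) nil nil))))
  (node (nat_lit 0) (nat_lit 59541) (nat_lit 9) (node (nat_lit 5) (nat_lit 59541) (nat_lit 10) nil
  (node (nat_lit 8) (nat_lit 60225) (nat_lit 10) nil (node (nat_lit 6) (nat_lit 59541) (nat_lit
  10) nil (node (nat_lit 4) (nat_lit 59541) (nat_lit 10) nil (node (nat_lit 0) (nat_lit 59926)
  (nat_lit 10) nil nil))))) nil))) (node (nat_lit 4) (nat_lit 45978) (nat_lit 8) (node (nat_lit 6)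
  (nat_lit 46710) (nat_lit 9) (node (nat_lit 4) (nat_lit 46968) (nat_lit 10) (node (nat_lit 5)
  (nat_lit 46968) (nat_lit 11) (node (nat_lit 4) (nat_lit 46987) (nat_lit 12) (node (nat_lit 6)
  (nat_lit 51330) (nat_lit 13) (node (nat_lit 5) (nat_lit 53153) (nat_lit 14) (node (nat_lit 4)
  (nat_lit 52996) (nat_lit 15) nil nil) nil) nil) (node (nat_lit 6) (nat_lit 46968) (nat_lit 12)
  (node (nat_lit 5) (nat_lit 49111) (nat_lit 13) (node (nat_lit 8) (nat_lit 41090) (nat_lit 14)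
  nil nil) nil) (node (nat_lit 8) (nat_lit 50899) (nat_lit 12) nil (node (nat_lit 0) (nat_lit
  50899) (nat_lit 12) nil nil)))) (node (nat_lit 8) (nat_lit 55398) (nat_lit 11) nil (node
  (nat_lit 0) (nat_lit 54062) (nat_lit 11) nil nil))) (node (nat_lit 5) (nat_lit 46968) (nat_lit
  10) (node (nat_lit 6) (nat_lit 46968) (nat_lit 11) (node (nat_lit 4) (nat_lit 46968) (nat_lit
  12) nil (node (nat_lit 8) (nat_lit 53271) (nat_lit 12) nil nil)) (node (nat_lit 8) (nat_lit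
  54062) (nat_lit 11) nil (node (nat_lit 0) (nat_lit 50664) (nat_lit 11) nil nil))) (node (nat_lit
  8) (nat_lit 59097) (nat_lit 10) nil (node (nat_lit 0) (nat_lit 55194) (nat_lit 10) nil nil))))
  (node (nat_lit 5) (nat_lit 46703) (nat_lit 9) (node (nat_lit 6) (nat_lit 46968) (nat_lit 10)
  (node (nat_lit 4) (nat_lit 46968) (nat_lit 11) (node (nat_lit 5) (nat_lit 46968) (nat_lit 12)
  (node (nat_lit 4) (nat_lit 48640) (nat_lit 13) (node (nat_lit 6) (nat_lit 48207) (nat_lit 14)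
  nil nil) (node (nat_lit 8) (nat_lit 51081) (nat_lit 13) nil (node (nat_lit 0) (nat_lit 51081)
  (nat_lit 13) nil nil))) (node (nat_lit 6) (nat_lit 46968) (nat_lit 12) (node (nat_lit 5)
  (nat_lit 48919) (nat_lit 13) nil nil) (node (nat_lit 8) (nat_lit 50899) (nat_lit 12) nil nil)))
  (node (nat_lit 5) (nat_lit 46968) (nat_lit 11) (node (nat_lit 4) (nat_lit 46968) (nat_lit 12)
  (node (nat_lit 6) (nat_lit 48517) (nat_lit 13) nil nil) (node (nat_lit 8) (nat_lit 33269)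
  (nat_lit 12) nil nil)) (node (nat_lit 8) (nat_lit 54062) (nat_lit 11) nil (node (nat_lit 0)
  (nat_lit 52893) (nat_lit 11) nil nil)))) (node (nat_lit 8) (nat_lit 57582) (nat_lit 10) nil
  (node (nat_lit 0) (nat_lit 55864) (nat_lit 10) nil nil))) (node (nat_lit 8) (nat_lit 59341)
  (nat_lit 9) (node (nat_lit 5) (nat_lit 59341) (nat_lit 10) nil (node (nat_lit 4) (nat_lit 59341)
  (nat_lit 10) nil nil)) (node (nat_lit 0) (nat_lit 57709) (nat_lit 9) nil nil)))) (node (nat_lit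
  0) (nat_lit 57343) (nat_lit 8) (node (nat_lit 5) (nat_lit 57343) (nat_lit 9) nil (node (nat_lit
  0) (nat_lit 58137) (nat_lit 9) nil (node (nat_lit 8) (nat_lit 58210) (nat_lit 9) nil (node
  (nat_lit 6) (nat_lit 57343) (nat_lit 9) nil (node (nat_lit 4) (nat_lit 57343) (nat_lit 9) nil
  nil))))) nil))) (node (nat_lit 8) (nat_lit 54541) (nat_lit 7) (node (nat_lit 5) (nat_lit 54541)
  (nat_lit 8) (node (nat_lit 6) (nat_lit 54541) (nat_lit 9) (node (nat_lit 8) (nat_lit 56972)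
  (nat_lit 10) (node (nat_lit 6) (nat_lit 56972) (nat_lit 11) (node (nat_lit 5) (nat_lit 56972)
  (nat_lit 12) nil nil) nil) nil) (node (nat_lit 8) (nat_lit 56353) (nat_lit 9) (node (nat_lit 6)
  (nat_lit 56353) (nat_lit 10) nil nil) nil)) (node (nat_lit 4) (nat_lit 54541) (nat_lit 8) nil
  nil)) (node (nat_lit 4) (nat_lit 43684) (nat_lit 7) (node (nat_lit 8) (nat_lit 46021) (nat_lit
  8) nil nil) (node (nat_lit 0) (nat_lit 47436) (nat_lit 7) nil nil)))) (node (nat_lit 5) (nat_lit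
  0) (nat_lit 6) (node (nat_lit 6) (nat_lit 44660) (nat_lit 7) (node (nat_lit 8) (nat_lit 57907)
  (nat_lit 8) (node (nat_lit 6) (nat_lit 57907) (nat_lit 9) (node (nat_lit 5) (nat_lit 57907)
  (nat_lit 10) (node (nat_lit 8) (nat_lit 60076) (nat_lit 11) (node (nat_lit 5) (nat_lit 60076)
  (nat_lit 12) (node (nat_lit 6) (nat_lit 60076) (nat_lit 13) (node (nat_lit 5) (nat_lit 60076)
  (nat_lit 14) (node (nat_lit 4) (nat_lit 60076) (nat_lit 15) (node (nat_lit 6) (nat_lit 60076)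
  (nat_lit 16) nil (node (nat_lit 5) (nat_lit 60076) (nat_lit 16) nil nil)) (node (nat_lit 8)
  (nat_lit 60999) (nat_lit 15) (node (nat_lit 6) (nat_lit 60999) (nat_lit 16) nil nil) (node
  (nat_lit 0) (nat_lit 60749) (nat_lit 15) nil nil))) (node (nat_lit 4) (nat_lit 60076) (nat_lit
  14) nil nil)) nil) nil) nil) nil) nil) (node (nat_lit 0) (nat_lit 47178) (nat_lit 8) nil (node
  (nat_lit 4) (nat_lit 44660) (nat_lit 8) nil nil))) (node (nat_lit 0) (nat_lit 46642) (nat_lit 7)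
  nil (node (nat_lit 4) (nat_lit 43632) (nat_lit 7) nil nil))) (node (nat_lit 4) (nat_lit 43869)
  (nat_lit 6) (node (nat_lit 5) (nat_lit 43869) (nat_lit 7) (node (nat_lit 4) (nat_lit 43869)
  (nat_lit 8) nil (node (nat_lit 6) (nat_lit 43869) (nat_lit 8) nil nil)) (node (nat_lit 8)
  (nat_lit 45590) (nat_lit 7) nil (node (nat_lit 6) (nat_lit 43869) (nat_lit 7) nil nil))) (node
  (nat_lit 0) (nat_lit 47653) (nat_lit 6) (node (nat_lit 6) (nat_lit 47653) (nat_lit 7) nil nil)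
  nil)))) nil) (node (nat_lit 4) (nat_lit 0) (nat_lit 4) (node (nat_lit 0) (nat_lit 0) (nat_lit 5)
  (node (nat_lit 6) (nat_lit 40785) (nat_lit 6) (node (nat_lit 4) (nat_lit 40947) (nat_lit 7)
  (node (nat_lit 6) (nat_lit 41000) (nat_lit 8) (node (nat_lit 8) (nat_lit 51664) (nat_lit 9)
  (node (nat_lit 6) (nat_lit 51664) (nat_lit 10) (node (nat_lit 4) (nat_lit 51664) (nat_lit 11)
  (node (nat_lit 8) (nat_lit 52585) (nat_lit 12) nil nil) (node (nat_lit 5) (nat_lit 51664)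
  (nat_lit 11) nil (node (nat_lit 0) (nat_lit 52350) (nat_lit 11) nil nil))) (node (nat_lit 4)
  (nat_lit 51664) (nat_lit 10) nil (node (nat_lit 5) (nat_lit 51664) (nat_lit 10) nil nil))) (node
  (nat_lit 5) (nat_lit 41069) (nat_lit 9) (node (nat_lit 4) (nat_lit 41069) (nat_lit 10) (node
  (nat_lit 5) (nat_lit 41069) (nat_lit 11) (node (nat_lit 6) (nat_lit 41069) (nat_lit 12) (node
  (nat_lit 5) (nat_lit 43033) (nat_lit 13) nil nil) (node (nat_lit 8) (nat_lit 45000) (nat_lit 12)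
  nil (node (nat_lit 0) (nat_lit 45000) (nat_lit 12) nil nil))) (node (nat_lit 6) (nat_lit 41069)
  (nat_lit 11) (node (nat_lit 4) (nat_lit 41069) (nat_lit 12) nil (node (nat_lit 8) (nat_lit
  45000) (nat_lit 12) nil nil)) (node (nat_lit 8) (nat_lit 44766) (nat_lit 11) nil (node (nat_lit
  0) (nat_lit 44766) (nat_lit 11) nil nil)))) (node (nat_lit 6) (nat_lit 41069) (nat_lit 10) (node
  (nat_lit 4) (nat_lit 41069) (nat_lit 11) (node (nat_lit 5) (nat_lit 41069) (nat_lit 12) nil nil)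
  (node (nat_lit 8) (nat_lit 44766) (nat_lit 11) nil nil)) (node (nat_lit 8) (nat_lit 49672)
  (nat_lit 10) nil (node (nat_lit 0) (nat_lit 48376) (nat_lit 10) nil nil)))) (node (nat_lit 0)
  (nat_lit 50972) (nat_lit 9) (node (nat_lit 4) (nat_lit 50972) (nat_lit 10) nil (node (nat_lit 8)
  (nat_lit 51357) (nat_lit 10) nil (node (nat_lit 5) (nat_lit 50972) (nat_lit 10) nil nil)))
  nil))) (node (nat_lit 5) (nat_lit 40935) (nat_lit 8) (node (nat_lit 6) (nat_lit 40935) (nat_lit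
  9) (node (nat_lit 5) (nat_lit 40935) (nat_lit 10) (node (nat_lit 4) (nat_lit 40935) (nat_lit 11)
  (node (nat_lit 6) (nat_lit 40935) (nat_lit 12) nil (node (nat_lit 5) (nat_lit 40935) (nat_lit
  12) nil nil)) (node (nat_lit 8) (nat_lit 45801) (nat_lit 11) nil (node (nat_lit 0) (nat_lit
  44632) (nat_lit 11) nil nil))) (node (nat_lit 4) (nat_lit 40935) (nat_lit 10) (node (nat_lit 6)
  (nat_lit 40935) (nat_lit 11) (node (nat_lit 5) (nat_lit 40935) (nat_lit 12) (node (nat_lit 4)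
  (nat_lit 40981) (nat_lit 13) nil nil) nil) (node (nat_lit 8) (nat_lit 25979) (nat_lit 11) nil
  nil)) (node (nat_lit 8) (nat_lit 49672) (nat_lit 10) nil (node (nat_lit 0) (nat_lit 45404)
  (nat_lit 10) nil nil)))) (node (nat_lit 4) (nat_lit 40935) (nat_lit 9) (node (nat_lit 6)
  (nat_lit 40935) (nat_lit 10) (node (nat_lit 5) (nat_lit 40935) (nat_lit 11) (node (nat_lit 4)
  (nat_lit 40935) (nat_lit 12) nil (node (nat_lit 6) (nat_lit 40935) (nat_lit 12) nil nil)) (node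
  (nat_lit 4) (nat_lit 40935) (nat_lit 11) (node (nat_lit 5) (nat_lit 40935) (nat_lit 12) (node
  (nat_lit 6) (nat_lit 40330) (nat_lit 13) nil nil) nil) (node (nat_lit 8) (nat_lit 44632)
  (nat_lit 11) nil nil))) (node (nat_lit 8) (nat_lit 48243) (nat_lit 10) nil (node (nat_lit 0)
  (nat_lit 46343) (nat_lit 10) nil nil))) (node (nat_lit 8) (nat_lit 50972) (nat_lit 9) (node
  (nat_lit 6) (nat_lit 50972) (nat_lit 10) nil (node (nat_lit 4) (nat_lit 50972) (nat_lit 10) nil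
  (node (nat_lit 5) (nat_lit 50972) (nat_lit 10) nil (node (nat_lit 0) (nat_lit 51357) (nat_lit
  10) nil nil)))) (node (nat_lit 0) (nat_lit 49337) (nat_lit 9) nil nil)))) (node (nat_lit 0)
  (nat_lit 50195) (nat_lit 8) (node (nat_lit 6) (nat_lit 50195) (nat_lit 9) nil (node (nat_lit 4)
  (nat_lit 50195) (nat_lit 9) nil (node (nat_lit 8) (nat_lit 50846) (nat_lit 9) nil (node (nat_lit
  0) (nat_lit 50688) (nat_lit 9) nil (node (nat_lit 5) (nat_lit 50195) (nat_lit 9) nil nil)))))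
  nil))) (node (nat_lit 8) (nat_lit 42203) (nat_lit 7) nil (node (nat_lit 0) (nat_lit 42203)
  (nat_lit 7) nil nil))) (node (nat_lit 4) (nat_lit 39590) (nat_lit 6) (node (nat_lit 6) (nat_lit
  39590) (nat_lit 7) (node (nat_lit 8) (nat_lit 45397) (nat_lit 8) (node (nat_lit 6) (nat_lit
  45397) (nat_lit 9) (node (nat_lit 4) (nat_lit 45397) (nat_lit 10) (node (nat_lit 8) (nat_lit
  45939) (nat_lit 11) (node (nat_lit 4) (nat_lit 45939) (nat_lit 12) (node (nat_lit 6) (nat_lit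
  45939) (nat_lit 13) nil nil) nil) nil) nil) nil) nil) nil) (node (nat_lit 5) (nat_lit 39590)
  (nat_lit 6) (node (nat_lit 4) (nat_lit 39590) (nat_lit 7) nil nil) (node (nat_lit 0) (nat_lit
  42124) (nat_lit 6) nil nil)))) nil) nil)))

noncomputable def t294 : Tr :=
  (node (nat_lit 4) (nat_lit 0) (nat_lit 5) (node (nat_lit 5) (nat_lit 31960) (nat_lit 6) (node
  (nat_lit 7) (nat_lit 43178) (nat_lit 7) (node (nat_lit 4) (nat_lit 43178) (nat_lit 8) (node
  (nat_lit 7) (nat_lit 44890) (nat_lit 9) (node (nat_lit 5) (nat_lit 44890) (nat_lit 10) (node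
  (nat_lit 4) (nat_lit 44890) (nat_lit 11) (node (nat_lit 5) (nat_lit 44890) (nat_lit 12) (node
  (nat_lit 7) (nat_lit 45900) (nat_lit 13) (node (nat_lit 5) (nat_lit 45900) (nat_lit 14) nil nil)
  (node (nat_lit 3) (nat_lit 44890) (nat_lit 13) (node (nat_lit 4) (nat_lit 44890) (nat_lit 14)
  nil (node (nat_lit 5) (nat_lit 44890) (nat_lit 14) nil nil)) nil)) (node (nat_lit 3) (nat_lit
  44890) (nat_lit 12) (node (nat_lit 4) (nat_lit 44890) (nat_lit 13) nil (node (nat_lit 5)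
  (nat_lit 44890) (nat_lit 13) nil nil)) (node (nat_lit 7) (nat_lit 45826) (nat_lit 12) nil (node
  (nat_lit 0) (nat_lit 45371) (nat_lit 12) nil nil)))) (node (nat_lit 7) (nat_lit 45638) (nat_lit
  11) (node (nat_lit 4) (nat_lit 45638) (nat_lit 12) (node (nat_lit 5) (nat_lit 45638) (nat_lit
  13) nil nil) nil) (node (nat_lit 3) (nat_lit 44890) (nat_lit 11) nil (node (nat_lit 0) (nat_lit
  45249) (nat_lit 11) nil nil)))) (node (nat_lit 3) (nat_lit 44890) (nat_lit 10) (node (nat_lit 4)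
  (nat_lit 44890) (nat_lit 11) nil nil) (node (nat_lit 0) (nat_lit 45326) (nat_lit 10) nil nil)))
  (node (nat_lit 3) (nat_lit 43178) (nat_lit 9) (node (nat_lit 4) (nat_lit 43178) (nat_lit 10)
  (node (nat_lit 5) (nat_lit 43178) (nat_lit 11) (node (nat_lit 12) (nat_lit 43178) (nat_lit 12)
  nil nil) (node (nat_lit 7) (nat_lit 45228) (nat_lit 11) nil (node (nat_lit 0) (nat_lit 44125)
  (nat_lit 11) nil nil))) (node (nat_lit 5) (nat_lit 43178) (nat_lit 10) (node (nat_lit 12)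
  (nat_lit 43178) (nat_lit 11) (node (nat_lit 4) (nat_lit 43178) (nat_lit 12) nil nil) (node
  (nat_lit 4) (nat_lit 43178) (nat_lit 11) nil (node (nat_lit 7) (nat_lit 44125) (nat_lit 11) nil
  nil))) (node (nat_lit 7) (nat_lit 44888) (nat_lit 10) nil (node (nat_lit 0) (nat_lit 44888)
  (nat_lit 10) nil nil)))) (node (nat_lit 0) (nat_lit 44890) (nat_lit 9) (node (nat_lit 4)
  (nat_lit 44890) (nat_lit 10) nil (node (nat_lit 7) (nat_lit 45092) (nat_lit 10) nil (node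
  (nat_lit 3) (nat_lit 44890) (nat_lit 10) nil nil))) nil))) (node (nat_lit 5) (nat_lit 43178)
  (nat_lit 8) (node (nat_lit 4) (nat_lit 43178) (nat_lit 9) (node (nat_lit 7) (nat_lit 44888)
  (nat_lit 10) (node (nat_lit 5) (nat_lit 44888) (nat_lit 11) nil nil) (node (nat_lit 5) (nat_lit
  43178) (nat_lit 10) nil nil)) (node (nat_lit 3) (nat_lit 43178) (nat_lit 9) nil nil)) (node
  (nat_lit 3) (nat_lit 43178) (nat_lit 8) nil (node (nat_lit 0) (nat_lit 43894) (nat_lit 8) nil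
  nil)))) (node (nat_lit 3) (nat_lit 33030) (nat_lit 7) (node (nat_lit 4) (nat_lit 33409) (nat_lit
  8) (node (nat_lit 10) (nat_lit 33409) (nat_lit 9) (node (nat_lit 5) (nat_lit 33409) (nat_lit 10)
  (node (nat_lit 4) (nat_lit 33409) (nat_lit 11) (node (nat_lit 5) (nat_lit 36565) (nat_lit 12)
  (node (nat_lit 10) (nat_lit 38610) (nat_lit 13) (node (nat_lit 4) (nat_lit 38215) (nat_lit 14)
  (node (nat_lit 5) (nat_lit 37137) (nat_lit 15) (node (nat_lit 4) (nat_lit 34715) (nat_lit 16)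
  nil nil) nil) nil) nil) (node (nat_lit 10) (nat_lit 36361) (nat_lit 12) nil nil)) (node (nat_lit
  10) (nat_lit 33409) (nat_lit 11) (node (nat_lit 4) (nat_lit 35766) (nat_lit 12) (node (nat_lit
  5) (nat_lit 36596) (nat_lit 13) nil nil) (node (nat_lit 7) (nat_lit 36203) (nat_lit 12) nil
  nil)) (node (nat_lit 7) (nat_lit 39120) (nat_lit 11) nil (node (nat_lit 0) (nat_lit 36081)
  (nat_lit 11) nil nil)))) (node (nat_lit 0) (nat_lit 38780) (nat_lit 10) nil (node (nat_lit 7)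
  (nat_lit 38780) (nat_lit 10) nil nil))) (node (nat_lit 5) (nat_lit 33409) (nat_lit 9) (node
  (nat_lit 4) (nat_lit 33409) (nat_lit 10) (node (nat_lit 10) (nat_lit 33409) (nat_lit 11) (node
  (nat_lit 4) (nat_lit 35876) (nat_lit 12) (node (nat_lit 5) (nat_lit 37004) (nat_lit 13) nil nil)
  (node (nat_lit 5) (nat_lit 35331) (nat_lit 12) nil nil)) (node (nat_lit 7) (nat_lit 29376)
  (nat_lit 11) (node (nat_lit 4) (nat_lit 8454) (nat_lit 12) nil nil) (node (nat_lit 0) (nat_lit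
  36081) (nat_lit 11) nil nil))) (node (nat_lit 7) (nat_lit 38780) (nat_lit 10) nil (node (nat_lit
  0) (nat_lit 35923) (nat_lit 10) nil nil))) (node (nat_lit 0) (nat_lit 40779) (nat_lit 9) nil
  (node (nat_lit 7) (nat_lit 40779) (nat_lit 9) nil nil)))) (node (nat_lit 5) (nat_lit 33409)
  (nat_lit 8) (node (nat_lit 4) (nat_lit 33409) (nat_lit 9) (node (nat_lit 10) (nat_lit 33409)
  (nat_lit 10) (node (nat_lit 4) (nat_lit 33409) (nat_lit 11) (node (nat_lit 5) (nat_lit 34153)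
  (nat_lit 12) (node (nat_lit 10) (nat_lit 35346) (nat_lit 13) nil nil) nil) (node (nat_lit 5)
  (nat_lit 33409) (nat_lit 11) (node (nat_lit 10) (nat_lit 35981) (nat_lit 12) (node (nat_lit 4)
  (nat_lit 37993) (nat_lit 13) nil nil) nil) nil)) (node (nat_lit 5) (nat_lit 33409) (nat_lit 10)
  (node (nat_lit 10) (nat_lit 33409) (nat_lit 11) (node (nat_lit 4) (nat_lit 35208) (nat_lit 12)
  (node (nat_lit 5) (nat_lit 35977) (nat_lit 13) (node (nat_lit 4) (nat_lit 36594) (nat_lit 14)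
  nil nil) (node (nat_lit 10) (nat_lit 35769) (nat_lit 13) nil nil)) (node (nat_lit 7) (nat_lit
  36203) (nat_lit 12) nil nil)) (node (nat_lit 7) (nat_lit 36081) (nat_lit 11) nil nil)) nil))
  (node (nat_lit 7) (nat_lit 41735) (nat_lit 9) nil (node (nat_lit 0) (nat_lit 39942) (nat_lit 9)
  nil nil))) (node (nat_lit 0) (nat_lit 42360) (nat_lit 8) (node (nat_lit 10) (nat_lit 42360)
  (nat_lit 9) nil (node (nat_lit 5) (nat_lit 42360) (nat_lit 9) nil nil)) (node (nat_lit 7)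
  (nat_lit 42981) (nat_lit 8) (node (nat_lit 5) (nat_lit 42981) (nat_lit 9) nil nil) nil)))) (node
  (nat_lit 4) (nat_lit 32607) (nat_lit 7) (node (nat_lit 3) (nat_lit 32897) (nat_lit 8) (node
  (nat_lit 5) (nat_lit 32961) (nat_lit 9) (node (nat_lit 11) (nat_lit 33243) (nat_lit 10) (node
  (nat_lit 4) (nat_lit 33243) (nat_lit 11) nil nil) (node (nat_lit 4) (nat_lit 32961) (nat_lit 10)
  (node (nat_lit 5) (nat_lit 32961) (nat_lit 11) nil nil) (node (nat_lit 7) (nat_lit 35476)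
  (nat_lit 10) nil nil))) (node (nat_lit 4) (nat_lit 33095) (nat_lit 9) (node (nat_lit 5) (nat_lit
  32988) (nat_lit 10) (node (nat_lit 11) (nat_lit 32988) (nat_lit 11) nil nil) (node (nat_lit 0)
  (nat_lit 35610) (nat_lit 10) nil (node (nat_lit 7) (nat_lit 35610) (nat_lit 10) nil nil))) (node
  (nat_lit 7) (nat_lit 37832) (nat_lit 9) nil (node (nat_lit 0) (nat_lit 35210) (nat_lit 9) nil
  nil)))) (node (nat_lit 0) (nat_lit 39196) (nat_lit 8) nil nil)) (node (nat_lit 0) (nat_lit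
  42016) (nat_lit 7) (node (nat_lit 5) (nat_lit 42016) (nat_lit 8) nil (node (nat_lit 4) (nat_lit
  42016) (nat_lit 8) nil (node (nat_lit 0) (nat_lit 42731) (nat_lit 8) nil (node (nat_lit 7)
  (nat_lit 42731) (nat_lit 8) nil (node (nat_lit 3) (nat_lit 42016) (nat_lit 8) nil nil)))))
  nil)))) (node (nat_lit 3) (nat_lit 32063) (nat_lit 6) (node (nat_lit 5) (nat_lit 33048) (nat_lit
  7) (node (nat_lit 4) (nat_lit 33411) (nat_lit 8) (node (nat_lit 5) (nat_lit 33411) (nat_lit 9)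
  (node (nat_lit 9) (nat_lit 33411) (nat_lit 10) (node (nat_lit 4) (nat_lit 33411) (nat_lit 11)
  (node (nat_lit 9) (nat_lit 34861) (nat_lit 12) (node (nat_lit 5) (nat_lit 33610) (nat_lit 13)
  nil nil) (node (nat_lit 5) (nat_lit 34156) (nat_lit 12) nil nil)) (node (nat_lit 5) (nat_lit
  33411) (nat_lit 11) (node (nat_lit 4) (nat_lit 33601) (nat_lit 12) nil (node (nat_lit 7)
  (nat_lit 36206) (nat_lit 12) nil nil)) (node (nat_lit 7) (nat_lit 39123) (nat_lit 11) nil (node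
  (nat_lit 0) (nat_lit 36083) (nat_lit 11) nil nil)))) (node (nat_lit 0) (nat_lit 38782) (nat_lit
  10) nil (node (nat_lit 7) (nat_lit 38782) (nat_lit 10) nil nil))) (node (nat_lit 9) (nat_lit
  33411) (nat_lit 9) (node (nat_lit 4) (nat_lit 33411) (nat_lit 10) (node (nat_lit 5) (nat_lit
  33411) (nat_lit 11) (node (nat_lit 4) (nat_lit 35269) (nat_lit 12) (node (nat_lit 9) (nat_lit
  32965) (nat_lit 13) nil (node (nat_lit 7) (nat_lit 26075) (nat_lit 13) nil nil)) (node (nat_lit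
  9) (nat_lit 34861) (nat_lit 12) nil nil)) nil) (node (nat_lit 7) (nat_lit 35926) (nat_lit 10)
  nil (node (nat_lit 0) (nat_lit 35926) (nat_lit 10) nil nil))) (node (nat_lit 7) (nat_lit 40782)
  (nat_lit 9) nil (node (nat_lit 0) (nat_lit 40782) (nat_lit 9) nil nil)))) (node (nat_lit 9)
  (nat_lit 33411) (nat_lit 8) (node (nat_lit 4) (nat_lit 33411) (nat_lit 9) (node (nat_lit 5)
  (nat_lit 33411) (nat_lit 10) (node (nat_lit 4) (nat_lit 33411) (nat_lit 11) (node (nat_lit 9)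
  (nat_lit 36620) (nat_lit 12) (node (nat_lit 5) (nat_lit 37862) (nat_lit 13) nil (node (nat_lit
  4) (nat_lit 38143) (nat_lit 13) nil nil)) (node (nat_lit 7) (nat_lit 22872) (nat_lit 12) nil
  nil)) (node (nat_lit 9) (nat_lit 33411) (nat_lit 11) nil (node (nat_lit 7) (nat_lit 39123)
  (nat_lit 11) nil (node (nat_lit 0) (nat_lit 36083) (nat_lit 11) nil nil)))) (node (nat_lit 9)
  (nat_lit 33411) (nat_lit 10) (node (nat_lit 5) (nat_lit 33426) (nat_lit 11) (node (nat_lit 4)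
  (nat_lit 36047) (nat_lit 12) (node (nat_lit 5) (nat_lit 34796) (nat_lit 13) nil (node (nat_lit
  9) (nat_lit 33743) (nat_lit 13) nil nil)) (node (nat_lit 7) (nat_lit 36221) (nat_lit 12) nil
  nil)) (node (nat_lit 7) (nat_lit 36083) (nat_lit 11) nil (node (nat_lit 0) (nat_lit 36083)
  (nat_lit 11) nil nil))) (node (nat_lit 7) (nat_lit 38782) (nat_lit 10) nil (node (nat_lit 0)
  (nat_lit 38782) (nat_lit 10) nil nil)))) (node (nat_lit 7) (nat_lit 42641) (nat_lit 9) nil (node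
  (nat_lit 0) (nat_lit 40782) (nat_lit 9) nil nil))) (node (nat_lit 0) (nat_lit 42678) (nat_lit 8)
  (node (nat_lit 5) (nat_lit 42678) (nat_lit 9) nil (node (nat_lit 9) (nat_lit 42678) (nat_lit 9)
  nil nil)) (node (nat_lit 7) (nat_lit 42678) (nat_lit 8) (node (nat_lit 9) (nat_lit 42678)
  (nat_lit 9) nil nil) nil)))) (node (nat_lit 4) (nat_lit 32935) (nat_lit 7) (node (nat_lit 5)
  (nat_lit 33343) (nat_lit 8) (node (nat_lit 9) (nat_lit 33402) (nat_lit 9) (node (nat_lit 4)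
  (nat_lit 33402) (nat_lit 10) (node (nat_lit 9) (nat_lit 33402) (nat_lit 11) (node (nat_lit 5)
  (nat_lit 31792) (nat_lit 12) nil nil) nil) (node (nat_lit 5) (nat_lit 33402) (nat_lit 10) (node
  (nat_lit 4) (nat_lit 33402) (nat_lit 11) (node (nat_lit 9) (nat_lit 34482) (nat_lit 12) nil nil)
  nil) (node (nat_lit 7) (nat_lit 38774) (nat_lit 10) nil (node (nat_lit 0) (nat_lit 35917)
  (nat_lit 10) nil nil)))) (node (nat_lit 4) (nat_lit 33402) (nat_lit 9) (node (nat_lit 9)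
  (nat_lit 33402) (nat_lit 10) (node (nat_lit 5) (nat_lit 33402) (nat_lit 11) (node (nat_lit 9)
  (nat_lit 36190) (nat_lit 12) (node (nat_lit 4) (nat_lit 37218) (nat_lit 13) (node (nat_lit 5)
  (nat_lit 35514) (nat_lit 14) nil nil) nil) (node (nat_lit 4) (nat_lit 33592) (nat_lit 12) nil
  nil)) (node (nat_lit 4) (nat_lit 33402) (nat_lit 11) nil nil)) (node (nat_lit 7) (nat_lit 23985)
  (nat_lit 10) nil nil)) (node (nat_lit 7) (nat_lit 40725) (nat_lit 9) nil (node (nat_lit 0)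
  (nat_lit 38279) (nat_lit 9) nil nil)))) (node (nat_lit 7) (nat_lit 43786) (nat_lit 8) (node
  (nat_lit 9) (nat_lit 43786) (nat_lit 9) (node (nat_lit 7) (nat_lit 44780) (nat_lit 10) (node
  (nat_lit 4) (nat_lit 44780) (nat_lit 11) (node (nat_lit 9) (nat_lit 44780) (nat_lit 12) nil nil)
  nil) (node (nat_lit 4) (nat_lit 43786) (nat_lit 10) (node (nat_lit 9) (nat_lit 43786) (nat_lit
  11) nil nil) nil)) (node (nat_lit 5) (nat_lit 43786) (nat_lit 9) nil nil)) (node (nat_lit 0)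
  (nat_lit 42047) (nat_lit 8) nil nil))) (node (nat_lit 7) (nat_lit 42969) (nat_lit 7) (node
  (nat_lit 9) (nat_lit 42969) (nat_lit 8) (node (nat_lit 4) (nat_lit 42969) (nat_lit 9) (node
  (nat_lit 7) (nat_lit 44678) (nat_lit 10) nil (node (nat_lit 9) (nat_lit 42969) (nat_lit 10) nil
  nil)) nil) (node (nat_lit 4) (nat_lit 42969) (nat_lit 8) (node (nat_lit 7) (nat_lit 44243)
  (nat_lit 9) nil nil) (node (nat_lit 5) (nat_lit 42969) (nat_lit 8) (node (nat_lit 7) (nat_lit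
  43557) (nat_lit 9) nil nil) (node (nat_lit 0) (nat_lit 43684) (nat_lit 8) nil nil)))) (node
  (nat_lit 0) (nat_lit 42726) (nat_lit 7) (node (nat_lit 9) (nat_lit 42726) (nat_lit 8) nil (node
  (nat_lit 4) (nat_lit 42726) (nat_lit 8) nil (node (nat_lit 0) (nat_lit 43442) (nat_lit 8) nil
  (node (nat_lit 7) (nat_lit 43442) (nat_lit 8) nil (node (nat_lit 5) (nat_lit 42726) (nat_lit 8)
  nil nil))))) nil)))) (node (nat_lit 0) (nat_lit 41079) (nat_lit 6) (node (nat_lit 7) (nat_lit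
  42996) (nat_lit 7) (node (nat_lit 4) (nat_lit 42996) (nat_lit 8) (node (nat_lit 7) (nat_lit
  44270) (nat_lit 9) (node (nat_lit 9) (nat_lit 44471) (nat_lit 10) nil nil) (node (nat_lit 5)
  (nat_lit 42996) (nat_lit 9) nil (node (nat_lit 3) (nat_lit 42996) (nat_lit 9) nil (node (nat_lit
  0) (nat_lit 43583) (nat_lit 9) nil nil)))) (node (nat_lit 9) (nat_lit 43711) (nat_lit 8) nil
  nil)) (node (nat_lit 4) (nat_lit 41079) (nat_lit 7) (node (nat_lit 7) (nat_lit 43440) (nat_lit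
  8) (node (nat_lit 9) (nat_lit 43698) (nat_lit 9) nil nil) (node (nat_lit 3) (nat_lit 41079)
  (nat_lit 8) nil (node (nat_lit 5) (nat_lit 41079) (nat_lit 8) nil (node (nat_lit 0) (nat_lit
  41832) (nat_lit 8) nil nil)))) (node (nat_lit 5) (nat_lit 41079) (nat_lit 7) (node (nat_lit 4)
  (nat_lit 41079) (nat_lit 8) nil (node (nat_lit 7) (nat_lit 42710) (nat_lit 8) nil (node (nat_lit
  9) (nat_lit 41832) (nat_lit 8) nil nil))) (node (nat_lit 0) (nat_lit 42680) (nat_lit 7) (node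
  (nat_lit 3) (nat_lit 42680) (nat_lit 8) nil nil) (node (nat_lit 3) (nat_lit 41079) (nat_lit 7)
  (node (nat_lit 7) (nat_lit 41832) (nat_lit 8) nil (node (nat_lit 4) (nat_lit 41079) (nat_lit 8)
  nil (node (nat_lit 9) (nat_lit 41832) (nat_lit 8) nil nil))) nil))))) nil))) (node (nat_lit 5)
  (nat_lit 0) (nat_lit 5) (node (nat_lit 7) (nat_lit 41049) (nat_lit 6) (node (nat_lit 4) (nat_lit
  41049) (nat_lit 7) (node (nat_lit 7) (nat_lit 44151) (nat_lit 8) (node (nat_lit 5) (nat_lit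
  44151) (nat_lit 9) (node (nat_lit 4) (nat_lit 44151) (nat_lit 10) (node (nat_lit 5) (nat_lit
  44151) (nat_lit 11) (node (nat_lit 7) (nat_lit 45751) (nat_lit 12) (node (nat_lit 4) (nat_lit
  45751) (nat_lit 13) nil (node (nat_lit 5) (nat_lit 45751) (nat_lit 13) nil nil)) (node (nat_lit
  3) (nat_lit 44151) (nat_lit 12) (node (nat_lit 4) (nat_lit 44151) (nat_lit 13) (node (nat_lit 5)
  (nat_lit 44151) (nat_lit 14) nil (node (nat_lit 15) (nat_lit 44151) (nat_lit 14) nil nil)) (node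
  (nat_lit 5) (nat_lit 44151) (nat_lit 13) (node (nat_lit 4) (nat_lit 44151) (nat_lit 14) nil nil)
  nil)) (node (nat_lit 0) (nat_lit 45751) (nat_lit 12) nil nil))) (node (nat_lit 7) (nat_lit
  45722) (nat_lit 11) (node (nat_lit 4) (nat_lit 45722) (nat_lit 12) (node (nat_lit 5) (nat_lit
  45722) (nat_lit 13) (node (nat_lit 4) (nat_lit 45722) (nat_lit 14) (node (nat_lit 7) (nat_lit
  45900) (nat_lit 15) nil nil) nil) nil) nil) (node (nat_lit 3) (nat_lit 44151) (nat_lit 11) (node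
  (nat_lit 4) (nat_lit 44151) (nat_lit 12) (node (nat_lit 5) (nat_lit 44151) (nat_lit 13) nil nil)
  (node (nat_lit 5) (nat_lit 44151) (nat_lit 12) (node (nat_lit 14) (nat_lit 44151) (nat_lit 13)
  nil (node (nat_lit 4) (nat_lit 44151) (nat_lit 13) nil nil)) (node (nat_lit 7) (nat_lit 44889)
  (nat_lit 12) nil nil))) (node (nat_lit 0) (nat_lit 45485) (nat_lit 11) nil nil)))) (node
  (nat_lit 3) (nat_lit 44151) (nat_lit 10) (node (nat_lit 4) (nat_lit 44151) (nat_lit 11) nil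
  (node (nat_lit 5) (nat_lit 44151) (nat_lit 11) nil (node (nat_lit 7) (nat_lit 44767) (nat_lit
  11) nil (node (nat_lit 0) (nat_lit 44767) (nat_lit 11) nil nil)))) (node (nat_lit 0) (nat_lit
  45145) (nat_lit 10) nil nil))) nil) (node (nat_lit 5) (nat_lit 41049) (nat_lit 8) (node (nat_lit
  4) (nat_lit 41049) (nat_lit 9) nil nil) nil)) nil) (node (nat_lit 4) (nat_lit 31990) (nat_lit 6)
  (node (nat_lit 5) (nat_lit 32910) (nat_lit 7) (node (nat_lit 7) (nat_lit 42717) (nat_lit 8)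
  (node (nat_lit 4) (nat_lit 42717) (nat_lit 9) (node (nat_lit 7) (nat_lit 44068) (nat_lit 10)
  (node (nat_lit 5) (nat_lit 44068) (nat_lit 11) (node (nat_lit 4) (nat_lit 44068) (nat_lit 12)
  (node (nat_lit 5) (nat_lit 44068) (nat_lit 13) (node (nat_lit 3) (nat_lit 44068) (nat_lit 14)
  nil nil) nil) nil) nil) nil) nil) (node (nat_lit 3) (nat_lit 32910) (nat_lit 8) (node (nat_lit
  4) (nat_lit 32910) (nat_lit 9) nil nil) (node (nat_lit 0) (nat_lit 34967) (nat_lit 8) nil nil)))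
  (node (nat_lit 3) (nat_lit 31990) (nat_lit 7) nil (node (nat_lit 0) (nat_lit 33716) (nat_lit 7)
  nil nil))) (node (nat_lit 3) (nat_lit 32061) (nat_lit 6) (node (nat_lit 4) (nat_lit 32061)
  (nat_lit 7) (node (nat_lit 9) (nat_lit 32061) (nat_lit 8) (node (nat_lit 5) (nat_lit 32061)
  (nat_lit 9) nil nil) (node (nat_lit 5) (nat_lit 32061) (nat_lit 8) (node (nat_lit 4) (nat_lit
  32061) (nat_lit 9) (node (nat_lit 7) (nat_lit 8074) (nat_lit 10) nil nil) (node (nat_lit 9)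
  (nat_lit 32061) (nat_lit 9) nil nil)) nil)) (node (nat_lit 5) (nat_lit 32061) (nat_lit 7) nil
  (node (nat_lit 7) (nat_lit 35054) (nat_lit 7) nil (node (nat_lit 0) (nat_lit 35054) (nat_lit 7)
  nil nil)))) (node (nat_lit 0) (nat_lit 37199) (nat_lit 6) nil nil)))) (node (nat_lit 3) (nat_lit
  0) (nat_lit 5) (node (nat_lit 4) (nat_lit 0) (nat_lit 6) (node (nat_lit 8) (nat_lit 32129)
  (nat_lit 7) (node (nat_lit 7) (nat_lit 40104) (nat_lit 8) (node (nat_lit 4) (nat_lit 40104)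
  (nat_lit 9) (node (nat_lit 7) (nat_lit 41424) (nat_lit 10) (node (nat_lit 8) (nat_lit 41424)
  (nat_lit 11) (node (nat_lit 4) (nat_lit 41424) (nat_lit 12) (node (nat_lit 8) (nat_lit 41424)
  (nat_lit 13) nil nil) nil) nil) nil) nil) (node (nat_lit 5) (nat_lit 32129) (nat_lit 8) nil
  nil)) (node (nat_lit 5) (nat_lit 32129) (nat_lit 7) (node (nat_lit 4) (nat_lit 32129) (nat_lit
  8) nil nil) (node (nat_lit 0) (nat_lit 35791) (nat_lit 7) nil (node (nat_lit 7) (nat_lit 33855)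
  (nat_lit 7) nil nil)))) (node (nat_lit 7) (nat_lit 40301) (nat_lit 6) (node (nat_lit 4) (nat_lit
  40301) (nat_lit 7) (node (nat_lit 7) (nat_lit 42749) (nat_lit 8) (node (nat_lit 8) (nat_lit
  42749) (nat_lit 9) (node (nat_lit 4) (nat_lit 42749) (nat_lit 10) (node (nat_lit 8) (nat_lit
  42749) (nat_lit 11) nil (node (nat_lit 7) (nat_lit 43365) (nat_lit 11) nil nil)) (node (nat_lit
  5) (nat_lit 42749) (nat_lit 10) nil nil)) nil) nil) nil) (node (nat_lit 5) (nat_lit 31327)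
  (nat_lit 6) (node (nat_lit 4) (nat_lit 31327) (nat_lit 7) (node (nat_lit 8) (nat_lit 31327)
  (nat_lit 8) nil nil) (node (nat_lit 7) (nat_lit 34989) (nat_lit 7) nil nil)) (node (nat_lit 0)
  (nat_lit 35974) (nat_lit 6) nil nil)))) (node (nat_lit 0) (nat_lit 0) (nat_lit 5) (node (nat_lit
  4) (nat_lit 36934) (nat_lit 6) (node (nat_lit 7) (nat_lit 41465) (nat_lit 7) (node (nat_lit 4)
  (nat_lit 41465) (nat_lit 8) (node (nat_lit 8) (nat_lit 43157) (nat_lit 9) (node (nat_lit 4)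
  (nat_lit 43157) (nat_lit 10) nil nil) (node (nat_lit 0) (nat_lit 42053) (nat_lit 9) nil (node
  (nat_lit 3) (nat_lit 41465) (nat_lit 9) nil (node (nat_lit 5) (nat_lit 41465) (nat_lit 9) nil
  nil)))) (node (nat_lit 5) (nat_lit 41465) (nat_lit 8) (node (nat_lit 8) (nat_lit 42053) (nat_lit
  9) nil nil) (node (nat_lit 0) (nat_lit 42181) (nat_lit 8) nil (node (nat_lit 3) (nat_lit 41465)
  (nat_lit 8) nil nil)))) (node (nat_lit 8) (nat_lit 40140) (nat_lit 7) (node (nat_lit 7) (nat_lit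
  40470) (nat_lit 8) nil nil) nil)) (node (nat_lit 7) (nat_lit 39669) (nat_lit 6) (node (nat_lit
  4) (nat_lit 39669) (nat_lit 7) (node (nat_lit 7) (nat_lit 41835) (nat_lit 8) (node (nat_lit 8)
  (nat_lit 42394) (nat_lit 9) (node (nat_lit 4) (nat_lit 42394) (nat_lit 10) nil nil) nil) (node
  (nat_lit 8) (nat_lit 40422) (nat_lit 8) nil nil)) nil) (node (nat_lit 5) (nat_lit 36910)
  (nat_lit 6) nil (node (nat_lit 3) (nat_lit 36910) (nat_lit 6) nil (node (nat_lit 0) (nat_lit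
  37471) (nat_lit 6) nil nil))))) nil))))

noncomputable def t295 : Tr :=
  (node (nat_lit 3) (nat_lit 0) (nat_lit 4) (node (nat_lit 4) (nat_lit 0) (nat_lit 5) (node
  (nat_lit 6) (nat_lit 78865) (nat_lit 6) (node (nat_lit 4) (nat_lit 79290) (nat_lit 7) (node
  (nat_lit 7) (nat_lit 79375) (nat_lit 8) (node (nat_lit 6) (nat_lit 79547) (nat_lit 9) (node
  (nat_lit 7) (nat_lit 89534) (nat_lit 10) (node (nat_lit 4) (nat_lit 94084) (nat_lit 11) (node
  (nat_lit 7) (nat_lit 97202) (nat_lit 12) (node (nat_lit 6) (nat_lit 96516) (nat_lit 13) nil nil)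
  nil) nil) (node (nat_lit 4) (nat_lit 90475) (nat_lit 10) (node (nat_lit 6) (nat_lit 94673)
  (nat_lit 11) (node (nat_lit 7) (nat_lit 95738) (nat_lit 12) nil nil) (node (nat_lit 5) (nat_lit
  96642) (nat_lit 11) nil nil)) (node (nat_lit 5) (nat_lit 89836) (nat_lit 10) nil (node (nat_lit
  0) (nat_lit 89836) (nat_lit 10) nil nil)))) (node (nat_lit 4) (nat_lit 79465) (nat_lit 9) (node
  (nat_lit 6) (nat_lit 89500) (nat_lit 10) (node (nat_lit 7) (nat_lit 93772) (nat_lit 11) nil nil)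
  (node (nat_lit 5) (nat_lit 83888) (nat_lit 10) (node (nat_lit 6) (nat_lit 83558) (nat_lit 11)
  nil nil) (node (nat_lit 0) (nat_lit 89754) (nat_lit 10) nil nil))) (node (nat_lit 5) (nat_lit
  99788) (nat_lit 9) nil (node (nat_lit 0) (nat_lit 99788) (nat_lit 9) nil nil)))) (node (nat_lit
  5) (nat_lit 88280) (nat_lit 8) (node (nat_lit 6) (nat_lit 81757) (nat_lit 9) (node (nat_lit 7)
  (nat_lit 63969) (nat_lit 10) (node (nat_lit 4) (nat_lit 49125) (nat_lit 11) nil nil) nil) nil)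
  (node (nat_lit 0) (nat_lit 98535) (nat_lit 8) nil nil))) (node (nat_lit 7) (nat_lit 79168)
  (nat_lit 7) (node (nat_lit 6) (nat_lit 79335) (nat_lit 8) (node (nat_lit 4) (nat_lit 79372)
  (nat_lit 9) (node (nat_lit 7) (nat_lit 89260) (nat_lit 10) (node (nat_lit 4) (nat_lit 95616)
  (nat_lit 11) (node (nat_lit 6) (nat_lit 93004) (nat_lit 12) nil nil) (node (nat_lit 6) (nat_lit
  89212) (nat_lit 11) nil nil)) (node (nat_lit 6) (nat_lit 87247) (nat_lit 10) (node (nat_lit 7)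
  (nat_lit 80825) (nat_lit 11) nil nil) (node (nat_lit 5) (nat_lit 88140) (nat_lit 10) nil nil)))
  (node (nat_lit 0) (nat_lit 89195) (nat_lit 9) nil (node (nat_lit 5) (nat_lit 89195) (nat_lit 9)
  nil nil))) (node (nat_lit 5) (nat_lit 88479) (nat_lit 8) nil (node (nat_lit 0) (nat_lit 88479)
  (nat_lit 8) nil nil))) (node (nat_lit 5) (nat_lit 106190) (nat_lit 7) (node (nat_lit 6) (nat_lit
  106190) (nat_lit 8) nil nil) (node (nat_lit 0) (nat_lit 101854) (nat_lit 7) nil nil)))) (node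
  (nat_lit 7) (nat_lit 78875) (nat_lit 6) (node (nat_lit 6) (nat_lit 79484) (nat_lit 7) (node
  (nat_lit 4) (nat_lit 79580) (nat_lit 8) (node (nat_lit 6) (nat_lit 79660) (nat_lit 9) (node
  (nat_lit 7) (nat_lit 91153) (nat_lit 10) (node (nat_lit 6) (nat_lit 98516) (nat_lit 11) (node
  (nat_lit 4) (nat_lit 100000) (nat_lit 12) (node (nat_lit 7) (nat_lit 99642) (nat_lit 13) nil
  nil) nil) (node (nat_lit 4) (nat_lit 92928) (nat_lit 11) (node (nat_lit 6) (nat_lit 94373)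
  (nat_lit 12) (node (nat_lit 4) (nat_lit 88045) (nat_lit 13) nil nil) nil) (node (nat_lit 5)
  (nat_lit 99008) (nat_lit 11) nil nil))) (node (nat_lit 5) (nat_lit 95467) (nat_lit 10) nil (node
  (nat_lit 0) (nat_lit 89949) (nat_lit 10) nil nil))) (node (nat_lit 7) (nat_lit 79721) (nat_lit
  9) (node (nat_lit 4) (nat_lit 91301) (nat_lit 10) (node (nat_lit 6) (nat_lit 93850) (nat_lit 11)
  (node (nat_lit 7) (nat_lit 88819) (nat_lit 12) nil nil) (node (nat_lit 5) (nat_lit 96143)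
  (nat_lit 11) nil nil)) (node (nat_lit 5) (nat_lit 90010) (nat_lit 10) nil nil)) (node (nat_lit
  5) (nat_lit 93931) (nat_lit 9) (node (nat_lit 6) (nat_lit 85315) (nat_lit 10) (node (nat_lit 7)
  (nat_lit 78350) (nat_lit 11) nil nil) nil) (node (nat_lit 0) (nat_lit 99994) (nat_lit 9) nil
  nil)))) (node (nat_lit 7) (nat_lit 79484) (nat_lit 8) (node (nat_lit 4) (nat_lit 79570) (nat_lit
  9) (node (nat_lit 6) (nat_lit 90055) (nat_lit 10) (node (nat_lit 4) (nat_lit 90525) (nat_lit 11)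
  (node (nat_lit 7) (nat_lit 85029) (nat_lit 12) nil nil) (node (nat_lit 7) (nat_lit 95258)
  (nat_lit 11) (node (nat_lit 6) (nat_lit 92511) (nat_lit 12) nil nil) nil)) (node (nat_lit 5)
  (nat_lit 91594) (nat_lit 10) nil (node (nat_lit 0) (nat_lit 89859) (nat_lit 10) nil nil))) (node
  (nat_lit 5) (nat_lit 99897) (nat_lit 9) nil (node (nat_lit 0) (nat_lit 99897) (nat_lit 9) nil
  nil))) (node (nat_lit 5) (nat_lit 104441) (nat_lit 8) nil (node (nat_lit 0) (nat_lit 98728)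
  (nat_lit 8) nil nil)))) (node (nat_lit 5) (nat_lit 111132) (nat_lit 7) (node (nat_lit 6)
  (nat_lit 111132) (nat_lit 8) nil nil) (node (nat_lit 0) (nat_lit 101864) (nat_lit 7) nil nil)))
  (node (nat_lit 5) (nat_lit 76012) (nat_lit 6) (node (nat_lit 4) (nat_lit 76012) (nat_lit 7)
  (node (nat_lit 7) (nat_lit 76012) (nat_lit 8) (node (nat_lit 5) (nat_lit 77204) (nat_lit 9)
  (node (nat_lit 7) (nat_lit 77204) (nat_lit 10) (node (nat_lit 4) (nat_lit 77204) (nat_lit 11)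
  (node (nat_lit 5) (nat_lit 77731) (nat_lit 12) nil nil) nil) nil) (node (nat_lit 4) (nat_lit
  76012) (nat_lit 9) nil nil)) (node (nat_lit 6) (nat_lit 76012) (nat_lit 8) nil nil)) (node
  (nat_lit 7) (nat_lit 76012) (nat_lit 7) (node (nat_lit 5) (nat_lit 76838) (nat_lit 8) nil (node
  (nat_lit 4) (nat_lit 76012) (nat_lit 8) nil (node (nat_lit 6) (nat_lit 76012) (nat_lit 8) nil
  (node (nat_lit 0) (nat_lit 76838) (nat_lit 8) nil nil)))) (node (nat_lit 6) (nat_lit 55580)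
  (nat_lit 7) (node (nat_lit 5) (nat_lit 55580) (nat_lit 8) nil (node (nat_lit 4) (nat_lit 55580)
  (nat_lit 8) nil (node (nat_lit 0) (nat_lit 55580) (nat_lit 8) nil nil))) (node (nat_lit 0)
  (nat_lit 76476) (nat_lit 7) nil nil)))) (node (nat_lit 0) (nat_lit 106187) (nat_lit 6) nil
  nil)))) (node (nat_lit 6) (nat_lit 0) (nat_lit 5) (node (nat_lit 4) (nat_lit 78278) (nat_lit 6)
  (node (nat_lit 7) (nat_lit 78284) (nat_lit 7) (node (nat_lit 6) (nat_lit 78284) (nat_lit 8)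
  (node (nat_lit 7) (nat_lit 78234) (nat_lit 9) (node (nat_lit 4) (nat_lit 86692) (nat_lit 10)
  (node (nat_lit 7) (nat_lit 91193) (nat_lit 11) (node (nat_lit 6) (nat_lit 91233) (nat_lit 12)
  (node (nat_lit 4) (nat_lit 89426) (nat_lit 13) nil nil) nil) (node (nat_lit 6) (nat_lit 88344)
  (nat_lit 11) nil nil)) (node (nat_lit 5) (nat_lit 88523) (nat_lit 10) nil nil)) (node (nat_lit
  5) (nat_lit 88144) (nat_lit 9) nil (node (nat_lit 0) (nat_lit 88144) (nat_lit 9) nil nil)))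
  (node (nat_lit 4) (nat_lit 78284) (nat_lit 8) (node (nat_lit 6) (nat_lit 78479) (nat_lit 9)
  (node (nat_lit 7) (nat_lit 85080) (nat_lit 10) (node (nat_lit 4) (nat_lit 88742) (nat_lit 11)
  nil nil) (node (nat_lit 4) (nat_lit 76935) (nat_lit 10) nil nil)) (node (nat_lit 5) (nat_lit
  76772) (nat_lit 9) nil nil)) (node (nat_lit 5) (nat_lit 87595) (nat_lit 8) nil (node (nat_lit 0)
  (nat_lit 87595) (nat_lit 8) nil nil)))) (node (nat_lit 6) (nat_lit 78278) (nat_lit 7) (node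
  (nat_lit 7) (nat_lit 78278) (nat_lit 8) (node (nat_lit 4) (nat_lit 78321) (nat_lit 9) (node
  (nat_lit 6) (nat_lit 84757) (nat_lit 10) (node (nat_lit 4) (nat_lit 86436) (nat_lit 11) (node
  (nat_lit 7) (nat_lit 86859) (nat_lit 12) (node (nat_lit 6) (nat_lit 86004) (nat_lit 13) (node
  (nat_lit 4) (nat_lit 85941) (nat_lit 14) nil nil) nil) nil) nil) (node (nat_lit 7) (nat_lit
  84496) (nat_lit 10) (node (nat_lit 6) (nat_lit 85639) (nat_lit 11) nil nil) nil)) (node (nat_lit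
  5) (nat_lit 88138) (nat_lit 9) nil nil)) (node (nat_lit 5) (nat_lit 87589) (nat_lit 8) nil (node
  (nat_lit 0) (nat_lit 87589) (nat_lit 8) nil nil))) (node (nat_lit 5) (nat_lit 79686) (nat_lit 7)
  (node (nat_lit 6) (nat_lit 63427) (nat_lit 8) (node (nat_lit 7) (nat_lit 48080) (nat_lit 9) nil
  nil) nil) (node (nat_lit 0) (nat_lit 86885) (nat_lit 7) nil nil)))) (node (nat_lit 5) (nat_lit
  112183) (nat_lit 6) (node (nat_lit 6) (nat_lit 112183) (nat_lit 7) (node (nat_lit 7) (nat_lit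
  112183) (nat_lit 8) (node (nat_lit 5) (nat_lit 113291) (nat_lit 9) nil (node (nat_lit 4)
  (nat_lit 112183) (nat_lit 9) nil nil)) nil) (node (nat_lit 7) (nat_lit 112183) (nat_lit 7) nil
  (node (nat_lit 4) (nat_lit 112183) (nat_lit 7) nil nil))) (node (nat_lit 0) (nat_lit 94100)
  (nat_lit 6) nil nil))) (node (nat_lit 5) (nat_lit 109893) (nat_lit 5) (node (nat_lit 7) (nat_lit
  109893) (nat_lit 6) nil (node (nat_lit 6) (nat_lit 109893) (nat_lit 6) (node (nat_lit 5)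
  (nat_lit 112314) (nat_lit 7) nil (node (nat_lit 4) (nat_lit 109893) (nat_lit 7) nil nil)) (node
  (nat_lit 4) (nat_lit 109893) (nat_lit 6) nil nil))) (node (nat_lit 0) (nat_lit 94695) (nat_lit
  5) nil nil)))) (node (nat_lit 4) (nat_lit 0) (nat_lit 4) (node (nat_lit 3) (nat_lit 0) (nat_lit
  5) (node (nat_lit 6) (nat_lit 78629) (nat_lit 6) (node (nat_lit 8) (nat_lit 78764) (nat_lit 7)
  (node (nat_lit 4) (nat_lit 78764) (nat_lit 8) (node (nat_lit 6) (nat_lit 79083) (nat_lit 9)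
  (node (nat_lit 4) (nat_lit 90156) (nat_lit 10) (node (nat_lit 8) (nat_lit 94412) (nat_lit 11)
  (node (nat_lit 4) (nat_lit 96334) (nat_lit 12) (node (nat_lit 6) (nat_lit 95441) (nat_lit 13)
  nil nil) nil) (node (nat_lit 5) (nat_lit 92674) (nat_lit 11) nil nil)) (node (nat_lit 8)
  (nat_lit 89099) (nat_lit 10) (node (nat_lit 6) (nat_lit 92605) (nat_lit 11) (node (nat_lit 4)
  (nat_lit 92048) (nat_lit 12) nil nil) nil) (node (nat_lit 5) (nat_lit 89372) (nat_lit 10) nil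
  (node (nat_lit 0) (nat_lit 89372) (nat_lit 10) nil nil)))) (node (nat_lit 8) (nat_lit 78796)
  (nat_lit 9) (node (nat_lit 6) (nat_lit 89393) (nat_lit 10) (node (nat_lit 4) (nat_lit 89328)
  (nat_lit 11) nil nil) (node (nat_lit 5) (nat_lit 89085) (nat_lit 10) nil (node (nat_lit 0)
  (nat_lit 89085) (nat_lit 10) nil nil))) (node (nat_lit 5) (nat_lit 91984) (nat_lit 9) (node
  (nat_lit 6) (nat_lit 77750) (nat_lit 10) nil nil) (node (nat_lit 0) (nat_lit 99177) (nat_lit 9)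
  nil nil)))) (node (nat_lit 5) (nat_lit 98009) (nat_lit 8) nil (node (nat_lit 0) (nat_lit 98009)
  (nat_lit 8) nil nil))) (node (nat_lit 4) (nat_lit 78624) (nat_lit 7) (node (nat_lit 6) (nat_lit
  78561) (nat_lit 8) (node (nat_lit 8) (nat_lit 78624) (nat_lit 9) (node (nat_lit 4) (nat_lit
  88111) (nat_lit 10) (node (nat_lit 8) (nat_lit 91943) (nat_lit 11) (node (nat_lit 6) (nat_lit
  92789) (nat_lit 12) nil nil) (node (nat_lit 6) (nat_lit 91377) (nat_lit 11) nil nil)) (node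
  (nat_lit 6) (nat_lit 83444) (nat_lit 10) (node (nat_lit 4) (nat_lit 84096) (nat_lit 11) nil nil)
  (node (nat_lit 5) (nat_lit 88913) (nat_lit 10) nil nil))) (node (nat_lit 0) (nat_lit 88421)
  (nat_lit 9) nil (node (nat_lit 5) (nat_lit 88421) (nat_lit 9) nil nil))) (node (nat_lit 5)
  (nat_lit 84232) (nat_lit 8) nil (node (nat_lit 0) (nat_lit 87935) (nat_lit 8) nil nil))) (node
  (nat_lit 5) (nat_lit 104356) (nat_lit 7) nil (node (nat_lit 0) (nat_lit 100858) (nat_lit 7) nil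
  nil)))) (node (nat_lit 4) (nat_lit 78942) (nat_lit 6) (node (nat_lit 6) (nat_lit 79264) (nat_lit
  7) (node (nat_lit 8) (nat_lit 79252) (nat_lit 8) (node (nat_lit 6) (nat_lit 79423) (nat_lit 9)
  (node (nat_lit 4) (nat_lit 90983) (nat_lit 10) (node (nat_lit 6) (nat_lit 97037) (nat_lit 11)
  (node (nat_lit 8) (nat_lit 96038) (nat_lit 12) (node (nat_lit 4) (nat_lit 94164) (nat_lit 13)
  nil nil) nil) (node (nat_lit 8) (nat_lit 92594) (nat_lit 11) (node (nat_lit 6) (nat_lit 93324)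
  (nat_lit 12) (node (nat_lit 8) (nat_lit 91521) (nat_lit 13) nil nil) nil) (node (nat_lit 5)
  (nat_lit 88116) (nat_lit 11) nil nil))) (node (nat_lit 5) (nat_lit 100749) (nat_lit 10) nil
  (node (nat_lit 0) (nat_lit 89712) (nat_lit 10) nil nil))) (node (nat_lit 4) (nat_lit 79400)
  (nat_lit 9) (node (nat_lit 8) (nat_lit 89577) (nat_lit 10) (node (nat_lit 6) (nat_lit 90246)
  (nat_lit 11) (node (nat_lit 4) (nat_lit 89869) (nat_lit 12) nil nil) nil) (node (nat_lit 5)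
  (nat_lit 77904) (nat_lit 10) nil nil)) (node (nat_lit 5) (nat_lit 99665) (nat_lit 9) nil (node
  (nat_lit 0) (nat_lit 99665) (nat_lit 9) nil nil)))) (node (nat_lit 4) (nat_lit 79296) (nat_lit
  8) (node (nat_lit 8) (nat_lit 79309) (nat_lit 9) (node (nat_lit 6) (nat_lit 88560) (nat_lit 10)
  (node (nat_lit 8) (nat_lit 92415) (nat_lit 11) (node (nat_lit 4) (nat_lit 92141) (nat_lit 12)
  nil nil) (node (nat_lit 4) (nat_lit 91772) (nat_lit 11) (node (nat_lit 6) (nat_lit 90830)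
  (nat_lit 12) nil nil) nil)) (node (nat_lit 0) (nat_lit 89598) (nat_lit 10) nil (node (nat_lit 5)
  (nat_lit 89598) (nat_lit 10) nil nil))) (node (nat_lit 5) (nat_lit 95836) (nat_lit 9) (node
  (nat_lit 6) (nat_lit 87479) (nat_lit 10) nil nil) (node (nat_lit 0) (nat_lit 99709) (nat_lit 9)
  nil nil))) (node (nat_lit 5) (nat_lit 104221) (nat_lit 8) nil (node (nat_lit 0) (nat_lit 98508)
  (nat_lit 8) nil nil)))) (node (nat_lit 5) (nat_lit 85653) (nat_lit 7) (node (nat_lit 6) (nat_lit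
  85653) (nat_lit 8) (node (nat_lit 4) (nat_lit 54059) (nat_lit 9) nil nil) nil) (node (nat_lit 0)
  (nat_lit 101931) (nat_lit 7) nil nil))) (node (nat_lit 5) (nat_lit 112108) (nat_lit 6) (node
  (nat_lit 8) (nat_lit 112108) (nat_lit 7) (node (nat_lit 4) (nat_lit 112108) (nat_lit 8) (node
  (nat_lit 5) (nat_lit 113291) (nat_lit 9) (node (nat_lit 6) (nat_lit 113291) (nat_lit 10) (node
  (nat_lit 4) (nat_lit 113291) (nat_lit 11) (node (nat_lit 8) (nat_lit 113291) (nat_lit 12) (node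
  (nat_lit 5) (nat_lit 55580) (nat_lit 13) nil nil) nil) nil) nil) nil) (node (nat_lit 6) (nat_lit
  112108) (nat_lit 8) nil nil)) (node (nat_lit 6) (nat_lit 112108) (nat_lit 7) (node (nat_lit 5)
  (nat_lit 113009) (nat_lit 8) nil (node (nat_lit 8) (nat_lit 112108) (nat_lit 8) nil (node
  (nat_lit 4) (nat_lit 112108) (nat_lit 8) nil (node (nat_lit 0) (nat_lit 113009) (nat_lit 8) nil
  nil)))) (node (nat_lit 4) (nat_lit 112108) (nat_lit 7) (node (nat_lit 8) (nat_lit 112108)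
  (nat_lit 8) nil nil) (node (nat_lit 0) (nat_lit 112647) (nat_lit 7) nil nil)))) (node (nat_lit
  0) (nat_lit 104442) (nat_lit 6) nil nil)))) (node (nat_lit 6) (nat_lit 0) (nat_lit 5) (node
  (nat_lit 3) (nat_lit 78807) (nat_lit 6) (node (nat_lit 4) (nat_lit 78803) (nat_lit 7) (node
  (nat_lit 6) (nat_lit 78970) (nat_lit 8) (node (nat_lit 4) (nat_lit 79046) (nat_lit 9) (node
  (nat_lit 9) (nat_lit 88387) (nat_lit 10) (node (nat_lit 4) (nat_lit 86040) (nat_lit 11) (node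
  (nat_lit 6) (nat_lit 85278) (nat_lit 12) (node (nat_lit 9) (nat_lit 84825) (nat_lit 13) (node
  (nat_lit 6) (nat_lit 85206) (nat_lit 14) (node (nat_lit 4) (nat_lit 84642) (nat_lit 15) nil nil)
  nil) nil) nil) (node (nat_lit 6) (nat_lit 86770) (nat_lit 11) nil nil)) (node (nat_lit 5)
  (nat_lit 79124) (nat_lit 10) nil nil)) (node (nat_lit 5) (nat_lit 88830) (nat_lit 9) nil (node
  (nat_lit 0) (nat_lit 88830) (nat_lit 9) nil nil))) (node (nat_lit 9) (nat_lit 78803) (nat_lit 8)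
  (node (nat_lit 6) (nat_lit 78949) (nat_lit 9) (node (nat_lit 4) (nat_lit 81696) (nat_lit 10)
  (node (nat_lit 9) (nat_lit 85557) (nat_lit 11) (node (nat_lit 4) (nat_lit 84411) (nat_lit 12)
  nil nil) nil) (node (nat_lit 9) (nat_lit 84616) (nat_lit 10) (node (nat_lit 4) (nat_lit 85583)
  (nat_lit 11) nil nil) nil)) (node (nat_lit 5) (nat_lit 88663) (nat_lit 9) nil nil)) (node
  (nat_lit 5) (nat_lit 89661) (nat_lit 8) (node (nat_lit 6) (nat_lit 66391) (nat_lit 9) (node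
  (nat_lit 4) (nat_lit 52569) (nat_lit 10) (node (nat_lit 6) (nat_lit 49092) (nat_lit 11) nil nil)
  nil) nil) (node (nat_lit 0) (nat_lit 88114) (nat_lit 8) nil nil)))) (node (nat_lit 6) (nat_lit
  78807) (nat_lit 7) (node (nat_lit 4) (nat_lit 78807) (nat_lit 8) (node (nat_lit 9) (nat_lit
  79002) (nat_lit 9) (node (nat_lit 6) (nat_lit 84460) (nat_lit 10) (node (nat_lit 9) (nat_lit
  88665) (nat_lit 11) (node (nat_lit 4) (nat_lit 87322) (nat_lit 12) nil nil) nil) (node (nat_lit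
  4) (nat_lit 84074) (nat_lit 10) (node (nat_lit 6) (nat_lit 82832) (nat_lit 11) (node (nat_lit 4)
  (nat_lit 80373) (nat_lit 12) nil nil) nil) nil)) (node (nat_lit 5) (nat_lit 77295) (nat_lit 9)
  nil nil)) (node (nat_lit 5) (nat_lit 88118) (nat_lit 8) nil nil)) (node (nat_lit 5) (nat_lit
  96553) (nat_lit 7) nil (node (nat_lit 0) (nat_lit 87414) (nat_lit 7) nil nil)))) (node (nat_lit
  5) (nat_lit 109983) (nat_lit 6) (node (nat_lit 6) (nat_lit 109983) (nat_lit 7) (node (nat_lit 4)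
  (nat_lit 109983) (nat_lit 8) (node (nat_lit 5) (nat_lit 113375) (nat_lit 9) (node (nat_lit 4)
  (nat_lit 113375) (nat_lit 10) (node (nat_lit 6) (nat_lit 113375) (nat_lit 11) nil nil) (node
  (nat_lit 6) (nat_lit 113375) (nat_lit 10) nil nil)) (node (nat_lit 3) (nat_lit 109983) (nat_lit
  9) (node (nat_lit 5) (nat_lit 113499) (nat_lit 10) nil (node (nat_lit 4) (nat_lit 109983)
  (nat_lit 10) nil nil)) (node (nat_lit 0) (nat_lit 113182) (nat_lit 9) nil nil))) nil) (node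
  (nat_lit 3) (nat_lit 111973) (nat_lit 7) nil nil)) (node (nat_lit 0) (nat_lit 93089) (nat_lit 6)
  nil nil))) (node (nat_lit 5) (nat_lit 54190) (nat_lit 5) (node (nat_lit 4) (nat_lit 54190)
  (nat_lit 6) nil (node (nat_lit 3) (nat_lit 54190) (nat_lit 6) nil nil)) (node (nat_lit 0)
  (nat_lit 93686) (nat_lit 5) nil nil)))) (node (nat_lit 5) (nat_lit 0) (nat_lit 4) (node (nat_lit
  3) (nat_lit 0) (nat_lit 5) (node (nat_lit 4) (nat_lit 109214) (nat_lit 6) (node (nat_lit 6)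
  (nat_lit 109214) (nat_lit 7) (node (nat_lit 8) (nat_lit 109214) (nat_lit 8) (node (nat_lit 4)
  (nat_lit 109214) (nat_lit 9) (node (nat_lit 8) (nat_lit 109214) (nat_lit 10) nil nil) (node
  (nat_lit 6) (nat_lit 109214) (nat_lit 9) (node (nat_lit 4) (nat_lit 109214) (nat_lit 10) (node
  (nat_lit 8) (nat_lit 109214) (nat_lit 11) (node (nat_lit 4) (nat_lit 108084) (nat_lit 12) nil
  nil) nil) nil) nil)) (node (nat_lit 4) (nat_lit 109214) (nat_lit 8) (node (nat_lit 8) (nat_lit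
  109214) (nat_lit 9) (node (nat_lit 6) (nat_lit 109214) (nat_lit 10) (node (nat_lit 8) (nat_lit
  109214) (nat_lit 11) nil nil) (node (nat_lit 4) (nat_lit 109214) (nat_lit 10) nil nil)) nil)
  nil)) (node (nat_lit 8) (nat_lit 109214) (nat_lit 7) (node (nat_lit 6) (nat_lit 109214) (nat_lit
  8) nil nil) (node (nat_lit 5) (nat_lit 112272) (nat_lit 7) nil (node (nat_lit 0) (nat_lit
  112272) (nat_lit 7) nil nil)))) (node (nat_lit 6) (nat_lit 109214) (nat_lit 6) (node (nat_lit 8)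
  (nat_lit 109214) (nat_lit 7) (node (nat_lit 5) (nat_lit 112634) (nat_lit 8) (node (nat_lit 6)
  (nat_lit 112634) (nat_lit 9) nil nil) (node (nat_lit 4) (nat_lit 109214) (nat_lit 8) (node
  (nat_lit 6) (nat_lit 109214) (nat_lit 9) nil nil) nil)) (node (nat_lit 4) (nat_lit 109214)
  (nat_lit 7) (node (nat_lit 8) (nat_lit 109214) (nat_lit 8) nil nil) (node (nat_lit 0) (nat_lit
  112272) (nat_lit 7) nil nil))) (node (nat_lit 5) (nat_lit 112267) (nat_lit 6) nil (node (nat_lit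
  0) (nat_lit 111808) (nat_lit 6) nil nil)))) (node (nat_lit 4) (nat_lit 0) (nat_lit 5) (node
  (nat_lit 3) (nat_lit 109214) (nat_lit 6) (node (nat_lit 6) (nat_lit 109214) (nat_lit 7) (node
  (nat_lit 4) (nat_lit 109214) (nat_lit 8) (node (nat_lit 9) (nat_lit 109214) (nat_lit 9) (node
  (nat_lit 4) (nat_lit 109214) (nat_lit 10) nil nil) (node (nat_lit 6) (nat_lit 109214) (nat_lit
  9) (node (nat_lit 9) (nat_lit 109214) (nat_lit 10) nil nil) nil)) (node (nat_lit 9) (nat_lit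
  109214) (nat_lit 8) (node (nat_lit 4) (nat_lit 109214) (nat_lit 9) (node (nat_lit 6) (nat_lit
  109214) (nat_lit 10) (node (nat_lit 4) (nat_lit 109214) (nat_lit 11) nil nil) (node (nat_lit 9)
  (nat_lit 109214) (nat_lit 10) nil nil)) nil) nil)) (node (nat_lit 4) (nat_lit 109214) (nat_lit
  7) (node (nat_lit 6) (nat_lit 109214) (nat_lit 8) nil nil) (node (nat_lit 5) (nat_lit 112272)
  (nat_lit 7) nil (node (nat_lit 0) (nat_lit 112272) (nat_lit 7) nil nil)))) (node (nat_lit 6)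
  (nat_lit 104521) (nat_lit 6) (node (nat_lit 4) (nat_lit 104521) (nat_lit 7) (node (nat_lit 5)
  (nat_lit 113093) (nat_lit 8) (node (nat_lit 6) (nat_lit 113093) (nat_lit 9) (node (nat_lit 5)
  (nat_lit 92622) (nat_lit 10) (node (nat_lit 4) (nat_lit 57932) (nat_lit 11) nil nil) nil) nil)
  (node (nat_lit 3) (nat_lit 107720) (nat_lit 8) (node (nat_lit 6) (nat_lit 107720) (nat_lit 9)
  nil nil) (node (nat_lit 0) (nat_lit 112105) (nat_lit 8) nil nil))) (node (nat_lit 3) (nat_lit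
  109214) (nat_lit 7) (node (nat_lit 4) (nat_lit 109214) (nat_lit 8) nil nil) (node (nat_lit 5)
  (nat_lit 109847) (nat_lit 7) nil (node (nat_lit 0) (nat_lit 111400) (nat_lit 7) nil nil))))
  (node (nat_lit 5) (nat_lit 110213) (nat_lit 6) (node (nat_lit 6) (nat_lit 110213) (nat_lit 7)
  (node (nat_lit 4) (nat_lit 110213) (nat_lit 8) nil nil) nil) (node (nat_lit 0) (nat_lit 112267)
  (nat_lit 6) nil nil)))) (node (nat_lit 0) (nat_lit 111540) (nat_lit 5) (node (nat_lit 6)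
  (nat_lit 111540) (nat_lit 6) nil nil) nil))) (node (nat_lit 0) (nat_lit 0) (nat_lit 4) (node
  (nat_lit 5) (nat_lit 94402) (nat_lit 5) nil (node (nat_lit 3) (nat_lit 92819) (nat_lit 5) nil
  (node (nat_lit 4) (nat_lit 92819) (nat_lit 5) (node (nat_lit 6) (nat_lit 92819) (nat_lit 6)
  (node (nat_lit 4) (nat_lit 92819) (nat_lit 7) (node (nat_lit 5) (nat_lit 97204) (nat_lit 8)
  (node (nat_lit 6) (nat_lit 97204) (nat_lit 9) (node (nat_lit 7) (nat_lit 74317) (nat_lit 10)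
  (node (nat_lit 4) (nat_lit 49534) (nat_lit 11) nil nil) nil) nil) nil) nil) nil) (node (nat_lit
  6) (nat_lit 92819) (nat_lit 5) nil (node (nat_lit 0) (nat_lit 94402) (nat_lit 5) nil nil)))))
  nil))))

noncomputable def c19 : Tr :=
  (node (nat_lit 3) (nat_lit 0) (nat_lit 1) (node (nat_lit 3) (nat_lit 0) (nat_lit 2) (node
  (nat_lit 0) (nat_lit 0) (nat_lit 3) (node (nat_lit 3) (nat_lit 0) (nat_lit 4) t289 (node
  (nat_lit 4) (nat_lit 0) (nat_lit 4) t290 t291)) (node (nat_lit 3) (nat_lit 0) (nat_lit 3) t293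
  (node (nat_lit 4) (nat_lit 0) (nat_lit 3) (node (nat_lit 0) (nat_lit 0) (nat_lit 4) t294 (node
  (nat_lit 3) (nat_lit 0) (nat_lit 4) (node (nat_lit 0) (nat_lit 0) (nat_lit 5) (node (nat_lit 4)
  (nat_lit 33142) (nat_lit 6) (node (nat_lit 7) (nat_lit 34207) (nat_lit 7) (node (nat_lit 4)
  (nat_lit 34549) (nat_lit 8) (node (nat_lit 8) (nat_lit 43025) (nat_lit 9) (node (nat_lit 4)
  (nat_lit 43025) (nat_lit 10) (node (nat_lit 7) (nat_lit 43025) (nat_lit 11) (node (nat_lit 8)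
  (nat_lit 43506) (nat_lit 12) nil nil) (node (nat_lit 5) (nat_lit 43025) (nat_lit 11) nil (node
  (nat_lit 0) (nat_lit 43384) (nat_lit 11) nil nil))) (node (nat_lit 7) (nat_lit 43025) (nat_lit
  10) nil (node (nat_lit 5) (nat_lit 43025) (nat_lit 10) nil nil))) (node (nat_lit 5) (nat_lit
  34551) (nat_lit 9) (node (nat_lit 7) (nat_lit 34551) (nat_lit 10) (node (nat_lit 5) (nat_lit
  34551) (nat_lit 11) (node (nat_lit 4) (nat_lit 34551) (nat_lit 12) (node (nat_lit 5) (nat_lit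
  33299) (nat_lit 13) nil nil) (node (nat_lit 8) (nat_lit 36603) (nat_lit 12) nil nil)) (node
  (nat_lit 4) (nat_lit 34551) (nat_lit 11) (node (nat_lit 7) (nat_lit 34551) (nat_lit 12) nil
  (node (nat_lit 8) (nat_lit 36603) (nat_lit 12) nil nil)) (node (nat_lit 8) (nat_lit 38710)
  (nat_lit 11) nil (node (nat_lit 0) (nat_lit 38710) (nat_lit 11) nil nil)))) (node (nat_lit 4)
  (nat_lit 34551) (nat_lit 10) (node (nat_lit 7) (nat_lit 34551) (nat_lit 11) (node (nat_lit 5)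
  (nat_lit 34551) (nat_lit 12) nil (node (nat_lit 8) (nat_lit 12989) (nat_lit 12) nil nil)) nil)
  (node (nat_lit 8) (nat_lit 40014) (nat_lit 10) nil (node (nat_lit 0) (nat_lit 39616) (nat_lit
  10) nil nil)))) (node (nat_lit 0) (nat_lit 42380) (nat_lit 9) (node (nat_lit 8) (nat_lit 42581)
  (nat_lit 10) nil (node (nat_lit 5) (nat_lit 42380) (nat_lit 10) nil nil)) nil))) (node (nat_lit
  5) (nat_lit 34290) (nat_lit 8) (node (nat_lit 4) (nat_lit 34406) (nat_lit 9) (node (nat_lit 5)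
  (nat_lit 34406) (nat_lit 10) (node (nat_lit 7) (nat_lit 34406) (nat_lit 11) (node (nat_lit 5)
  (nat_lit 34406) (nat_lit 12) nil (node (nat_lit 4) (nat_lit 34406) (nat_lit 12) nil nil)) (node
  (nat_lit 0) (nat_lit 36337) (nat_lit 11) nil (node (nat_lit 8) (nat_lit 36337) (nat_lit 11) nil
  nil))) (node (nat_lit 7) (nat_lit 34406) (nat_lit 10) (node (nat_lit 4) (nat_lit 34406) (nat_lit
  11) (node (nat_lit 5) (nat_lit 34406) (nat_lit 12) nil nil) nil) (node (nat_lit 8) (nat_lit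
  40219) (nat_lit 10) nil (node (nat_lit 0) (nat_lit 38226) (nat_lit 10) nil nil)))) (node
  (nat_lit 7) (nat_lit 34192) (nat_lit 9) (node (nat_lit 4) (nat_lit 34192) (nat_lit 10) (node
  (nat_lit 7) (nat_lit 34192) (nat_lit 11) (node (nat_lit 5) (nat_lit 34192) (nat_lit 12) (node
  (nat_lit 4) (nat_lit 32941) (nat_lit 13) nil nil) nil) (node (nat_lit 5) (nat_lit 34192)
  (nat_lit 11) (node (nat_lit 4) (nat_lit 34192) (nat_lit 12) nil nil) (node (nat_lit 8) (nat_lit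
  36122) (nat_lit 11) nil nil))) (node (nat_lit 8) (nat_lit 39143) (nat_lit 10) nil (node (nat_lit
  0) (nat_lit 38011) (nat_lit 10) nil nil))) (node (nat_lit 8) (nat_lit 42380) (nat_lit 9) (node
  (nat_lit 4) (nat_lit 42380) (nat_lit 10) nil (node (nat_lit 7) (nat_lit 42380) (nat_lit 10) nil
  (node (nat_lit 5) (nat_lit 42380) (nat_lit 10) nil nil))) (node (nat_lit 0) (nat_lit 39640)
  (nat_lit 9) nil nil)))) (node (nat_lit 0) (nat_lit 41939) (nat_lit 8) (node (nat_lit 4) (nat_lit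
  41939) (nat_lit 9) nil (node (nat_lit 7) (nat_lit 41939) (nat_lit 9) nil (node (nat_lit 0)
  (nat_lit 42497) (nat_lit 9) nil (node (nat_lit 8) (nat_lit 42497) (nat_lit 9) nil (node (nat_lit
  5) (nat_lit 41939) (nat_lit 9) nil nil))))) nil))) (node (nat_lit 0) (nat_lit 33893) (nat_lit 7)
  nil (node (nat_lit 8) (nat_lit 33893) (nat_lit 7) nil nil))) (node (nat_lit 7) (nat_lit 33165)
  (nat_lit 6) (node (nat_lit 4) (nat_lit 33165) (nat_lit 7) (node (nat_lit 8) (nat_lit 37967)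
  (nat_lit 8) (node (nat_lit 4) (nat_lit 37967) (nat_lit 9) (node (nat_lit 7) (nat_lit 37967)
  (nat_lit 10) (node (nat_lit 8) (nat_lit 38583) (nat_lit 11) nil nil) nil) nil) nil) nil) (node
  (nat_lit 5) (nat_lit 32084) (nat_lit 6) nil (node (nat_lit 0) (nat_lit 34573) (nat_lit 6) nil
  nil)))) nil) nil)) nil))) (node (nat_lit 0) (nat_lit 0) (nat_lit 2) (node (nat_lit 3) (nat_lit
  0) (nat_lit 3) t295 (node (nat_lit 4) (nat_lit 0) (nat_lit 3) (node (nat_lit 3) (nat_lit 0)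
  (nat_lit 4) (node (nat_lit 3) (nat_lit 0) (nat_lit 5) (node (nat_lit 4) (nat_lit 80412) (nat_lit
  6) (node (nat_lit 8) (nat_lit 80596) (nat_lit 7) (node (nat_lit 7) (nat_lit 80596) (nat_lit 8)
  (node (nat_lit 4) (nat_lit 80677) (nat_lit 9) (node (nat_lit 7) (nat_lit 88512) (nat_lit 10)
  (node (nat_lit 8) (nat_lit 92212) (nat_lit 11) (node (nat_lit 7) (nat_lit 94854) (nat_lit 12)
  (node (nat_lit 4) (nat_lit 93955) (nat_lit 13) nil nil) nil) nil) (node (nat_lit 8) (nat_lit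
  90471) (nat_lit 10) (node (nat_lit 4) (nat_lit 95713) (nat_lit 11) (node (nat_lit 7) (nat_lit
  93057) (nat_lit 12) nil (node (nat_lit 5) (nat_lit 96153) (nat_lit 12) nil nil)) nil) (node
  (nat_lit 5) (nat_lit 88625) (nat_lit 10) nil (node (nat_lit 0) (nat_lit 90328) (nat_lit 10) nil
  nil)))) (node (nat_lit 8) (nat_lit 80839) (nat_lit 9) (node (nat_lit 4) (nat_lit 90717) (nat_lit
  10) (node (nat_lit 7) (nat_lit 91534) (nat_lit 11) nil nil) (node (nat_lit 5) (nat_lit 90490)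
  (nat_lit 10) nil (node (nat_lit 0) (nat_lit 90490) (nat_lit 10) nil nil))) (node (nat_lit 5)
  (nat_lit 100398) (nat_lit 9) nil (node (nat_lit 0) (nat_lit 100398) (nat_lit 9) nil nil))))
  (node (nat_lit 5) (nat_lit 99263) (nat_lit 8) nil (node (nat_lit 0) (nat_lit 99263) (nat_lit 8)
  nil nil))) (node (nat_lit 7) (nat_lit 80513) (nat_lit 7) (node (nat_lit 4) (nat_lit 80513)
  (nat_lit 8) (node (nat_lit 8) (nat_lit 80493) (nat_lit 9) (node (nat_lit 7) (nat_lit 87004)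
  (nat_lit 10) (node (nat_lit 8) (nat_lit 91250) (nat_lit 11) (node (nat_lit 4) (nat_lit 92060)
  (nat_lit 12) nil nil) (node (nat_lit 4) (nat_lit 89029) (nat_lit 11) nil nil)) (node (nat_lit 4)
  (nat_lit 87424) (nat_lit 10) (node (nat_lit 7) (nat_lit 81536) (nat_lit 11) nil nil) nil)) (node
  (nat_lit 5) (nat_lit 91171) (nat_lit 9) nil (node (nat_lit 0) (nat_lit 89762) (nat_lit 9) nil
  nil))) (node (nat_lit 5) (nat_lit 89247) (nat_lit 8) nil (node (nat_lit 0) (nat_lit 89247)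
  (nat_lit 8) nil nil))) (node (nat_lit 5) (nat_lit 86848) (nat_lit 7) (node (nat_lit 4) (nat_lit
  72136) (nat_lit 8) (node (nat_lit 7) (nat_lit 52744) (nat_lit 9) nil nil) (node (nat_lit 8)
  (nat_lit 86848) (nat_lit 8) nil nil)) (node (nat_lit 0) (nat_lit 102867) (nat_lit 7) nil nil))))
  (node (nat_lit 7) (nat_lit 80612) (nat_lit 6) (node (nat_lit 4) (nat_lit 80709) (nat_lit 7)
  (node (nat_lit 8) (nat_lit 80645) (nat_lit 8) (node (nat_lit 4) (nat_lit 80688) (nat_lit 9)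
  (node (nat_lit 7) (nat_lit 93775) (nat_lit 10) (node (nat_lit 4) (nat_lit 97597) (nat_lit 11)
  (node (nat_lit 8) (nat_lit 96894) (nat_lit 12) (node (nat_lit 7) (nat_lit 96224) (nat_lit 13)
  nil nil) nil) (node (nat_lit 8) (nat_lit 98720) (nat_lit 11) (node (nat_lit 4) (nat_lit 99606)
  (nat_lit 12) (node (nat_lit 8) (nat_lit 98916) (nat_lit 13) nil nil) nil) (node (nat_lit 5)
  (nat_lit 101144) (nat_lit 11) nil nil))) (node (nat_lit 5) (nat_lit 86082) (nat_lit 10) nil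
  (node (nat_lit 0) (nat_lit 90339) (nat_lit 10) nil nil))) (node (nat_lit 7) (nat_lit 80695)
  (nat_lit 9) (node (nat_lit 8) (nat_lit 90465) (nat_lit 10) (node (nat_lit 4) (nat_lit 90738)
  (nat_lit 11) (node (nat_lit 7) (nat_lit 88480) (nat_lit 12) nil nil) nil) (node (nat_lit 5)
  (nat_lit 90346) (nat_lit 10) nil nil)) (node (nat_lit 5) (nat_lit 100447) (nat_lit 9) nil (node
  (nat_lit 0) (nat_lit 100447) (nat_lit 9) nil nil)))) (node (nat_lit 7) (nat_lit 80709) (nat_lit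
  8) (node (nat_lit 8) (nat_lit 80854) (nat_lit 9) (node (nat_lit 4) (nat_lit 90156) (nat_lit 10)
  (node (nat_lit 8) (nat_lit 90326) (nat_lit 11) (node (nat_lit 7) (nat_lit 85716) (nat_lit 12)
  nil nil) (node (nat_lit 7) (nat_lit 93793) (nat_lit 11) (node (nat_lit 4) (nat_lit 91940)
  (nat_lit 12) nil nil) nil)) (node (nat_lit 0) (nat_lit 90505) (nat_lit 10) nil (node (nat_lit 5)
  (nat_lit 90505) (nat_lit 10) nil nil))) (node (nat_lit 5) (nat_lit 100511) (nat_lit 9) nil (node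
  (nat_lit 0) (nat_lit 100511) (nat_lit 9) nil nil))) (node (nat_lit 5) (nat_lit 89411) (nat_lit
  8) (node (nat_lit 4) (nat_lit 79548) (nat_lit 9) (node (nat_lit 7) (nat_lit 71274) (nat_lit 10)
  (node (nat_lit 8) (nat_lit 52701) (nat_lit 11) nil nil) nil) nil) (node (nat_lit 0) (nat_lit
  99376) (nat_lit 8) nil nil)))) (node (nat_lit 5) (nat_lit 108276) (nat_lit 7) (node (nat_lit 4)
  (nat_lit 108276) (nat_lit 8) nil nil) (node (nat_lit 0) (nat_lit 104171) (nat_lit 7) nil nil)))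
  (node (nat_lit 5) (nat_lit 108276) (nat_lit 6) (node (nat_lit 8) (nat_lit 108276) (nat_lit 7)
  (node (nat_lit 7) (nat_lit 108276) (nat_lit 8) (node (nat_lit 5) (nat_lit 108276) (nat_lit 9)
  (node (nat_lit 7) (nat_lit 108276) (nat_lit 10) nil nil) (node (nat_lit 8) (nat_lit 108276)
  (nat_lit 9) nil nil)) (node (nat_lit 4) (nat_lit 108276) (nat_lit 8) nil nil)) (node (nat_lit 4)
  (nat_lit 108276) (nat_lit 7) (node (nat_lit 5) (nat_lit 108276) (nat_lit 8) nil (node (nat_lit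
  8) (nat_lit 108276) (nat_lit 8) nil (node (nat_lit 7) (nat_lit 108276) (nat_lit 8) nil nil)))
  (node (nat_lit 7) (nat_lit 108276) (nat_lit 7) (node (nat_lit 8) (nat_lit 108276) (nat_lit 8)
  nil nil) (node (nat_lit 0) (nat_lit 108276) (nat_lit 7) nil nil)))) (node (nat_lit 0) (nat_lit
  105429) (nat_lit 6) nil nil)))) (node (nat_lit 4) (nat_lit 0) (nat_lit 5) (node (nat_lit 3)
  (nat_lit 79226) (nat_lit 6) (node (nat_lit 7) (nat_lit 79226) (nat_lit 7) (node (nat_lit 4)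
  (nat_lit 79226) (nat_lit 8) (node (nat_lit 7) (nat_lit 79340) (nat_lit 9) (node (nat_lit 9)
  (nat_lit 87688) (nat_lit 10) (node (nat_lit 7) (nat_lit 93637) (nat_lit 11) (node (nat_lit 4)
  (nat_lit 91815) (nat_lit 12) (node (nat_lit 9) (nat_lit 92187) (nat_lit 13) (node (nat_lit 4)
  (nat_lit 91427) (nat_lit 14) (node (nat_lit 7) (nat_lit 91198) (nat_lit 15) (node (nat_lit 4)
  (nat_lit 90677) (nat_lit 16) nil nil) nil) nil) nil) nil) (node (nat_lit 4) (nat_lit 87951)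
  (nat_lit 11) nil nil)) (node (nat_lit 5) (nat_lit 89011) (nat_lit 10) nil nil)) (node (nat_lit
  5) (nat_lit 89219) (nat_lit 9) (node (nat_lit 4) (nat_lit 83269) (nat_lit 10) (node (nat_lit 7)
  (nat_lit 77864) (nat_lit 11) nil nil) nil) (node (nat_lit 0) (nat_lit 88494) (nat_lit 9) nil
  nil))) (node (nat_lit 9) (nat_lit 79226) (nat_lit 8) (node (nat_lit 4) (nat_lit 79275) (nat_lit
  9) (node (nat_lit 7) (nat_lit 83964) (nat_lit 10) (node (nat_lit 9) (nat_lit 87951) (nat_lit 11)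
  (node (nat_lit 7) (nat_lit 90910) (nat_lit 12) (node (nat_lit 4) (nat_lit 89797) (nat_lit 13)
  nil nil) nil) nil) (node (nat_lit 9) (nat_lit 85008) (nat_lit 10) (node (nat_lit 7) (nat_lit
  86116) (nat_lit 11) (node (nat_lit 4) (nat_lit 85201) (nat_lit 12) nil nil) nil) (node (nat_lit
  5) (nat_lit 78735) (nat_lit 10) nil nil))) nil) (node (nat_lit 5) (nat_lit 87977) (nat_lit 8)
  nil (node (nat_lit 0) (nat_lit 87977) (nat_lit 8) nil nil)))) (node (nat_lit 4) (nat_lit 79226)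
  (nat_lit 7) (node (nat_lit 7) (nat_lit 79226) (nat_lit 8) (node (nat_lit 9) (nat_lit 79226)
  (nat_lit 9) (node (nat_lit 4) (nat_lit 84813) (nat_lit 10) (node (nat_lit 9) (nat_lit 89087)
  (nat_lit 11) (node (nat_lit 7) (nat_lit 89458) (nat_lit 12) (node (nat_lit 4) (nat_lit 87508)
  (nat_lit 13) nil nil) nil) nil) (node (nat_lit 7) (nat_lit 85081) (nat_lit 10) (node (nat_lit 4)
  (nat_lit 86144) (nat_lit 11) nil nil) nil)) (node (nat_lit 5) (nat_lit 88494) (nat_lit 9) nil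
  nil)) (node (nat_lit 5) (nat_lit 82562) (nat_lit 8) (node (nat_lit 4) (nat_lit 73678) (nat_lit
  9) nil nil) nil)) (node (nat_lit 5) (nat_lit 101699) (nat_lit 7) nil (node (nat_lit 0) (nat_lit
  87316) (nat_lit 7) nil nil)))) (node (nat_lit 5) (nat_lit 84880) (nat_lit 6) (node (nat_lit 7)
  (nat_lit 84880) (nat_lit 7) (node (nat_lit 5) (nat_lit 86498) (nat_lit 8) nil nil) (node
  (nat_lit 4) (nat_lit 54138) (nat_lit 7) nil (node (nat_lit 3) (nat_lit 87084) (nat_lit 7) nil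
  nil))) (node (nat_lit 0) (nat_lit 94314) (nat_lit 6) nil nil))) (node (nat_lit 5) (nat_lit
  104208) (nat_lit 5) (node (nat_lit 7) (nat_lit 104208) (nat_lit 6) (node (nat_lit 4) (nat_lit
  104208) (nat_lit 7) (node (nat_lit 5) (nat_lit 106990) (nat_lit 8) (node (nat_lit 4) (nat_lit
  106990) (nat_lit 9) (node (nat_lit 7) (nat_lit 106990) (nat_lit 10) (node (nat_lit 5) (nat_lit
  54138) (nat_lit 11) nil nil) nil) nil) nil) nil) (node (nat_lit 4) (nat_lit 0) (nat_lit 6) (node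
  (nat_lit 5) (nat_lit 107897) (nat_lit 7) (node (nat_lit 7) (nat_lit 107897) (nat_lit 8) (node
  (nat_lit 5) (nat_lit 108276) (nat_lit 9) nil nil) nil) (node (nat_lit 3) (nat_lit 108179)
  (nat_lit 7) nil (node (nat_lit 0) (nat_lit 108002) (nat_lit 7) nil nil))) (node (nat_lit 3)
  (nat_lit 108179) (nat_lit 6) nil nil))) (node (nat_lit 0) (nat_lit 93695) (nat_lit 5) nil
  nil)))) (node (nat_lit 0) (nat_lit 89510) (nat_lit 4) (node (nat_lit 3) (nat_lit 89510) (nat_lit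
  5) nil nil) nil)) (node (nat_lit 0) (nat_lit 0) (nat_lit 3) (node (nat_lit 3) (nat_lit 94698)
  (nat_lit 4) (node (nat_lit 5) (nat_lit 98543) (nat_lit 5) nil (node (nat_lit 3) (nat_lit 94698)
  (nat_lit 5) (node (nat_lit 7) (nat_lit 94698) (nat_lit 6) nil (node (nat_lit 4) (nat_lit 94698)
  (nat_lit 6) nil nil)) (node (nat_lit 4) (nat_lit 94698) (nat_lit 5) (node (nat_lit 7) (nat_lit
  94698) (nat_lit 6) nil (node (nat_lit 3) (nat_lit 94698) (nat_lit 6) nil (node (nat_lit 5)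
  (nat_lit 99771) (nat_lit 6) (node (nat_lit 6) (nat_lit 50349) (nat_lit 7) nil nil) nil))) (node
  (nat_lit 0) (nat_lit 98543) (nat_lit 5) nil nil)))) (node (nat_lit 0) (nat_lit 102598) (nat_lit
  4) (node (nat_lit 5) (nat_lit 103627) (nat_lit 5) (node (nat_lit 7) (nat_lit 103627) (nat_lit 6)
  (node (nat_lit 6) (nat_lit 103627) (nat_lit 7) (node (nat_lit 5) (nat_lit 103627) (nat_lit 8)
  nil nil) nil) (node (nat_lit 0) (nat_lit 103627) (nat_lit 6) nil (node (nat_lit 3) (nat_lit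
  103627) (nat_lit 6) nil nil))) (node (nat_lit 6) (nat_lit 103627) (nat_lit 5) nil (node (nat_lit
  0) (nat_lit 103627) (nat_lit 5) nil nil))) (node (nat_lit 5) (nat_lit 101828) (nat_lit 4) (node
  (nat_lit 0) (nat_lit 103627) (nat_lit 5) (node (nat_lit 5) (nat_lit 103627) (nat_lit 6) nil nil)
  (node (nat_lit 3) (nat_lit 101828) (nat_lit 5) nil nil)) (node (nat_lit 4) (nat_lit 94698)
  (nat_lit 4) (node (nat_lit 3) (nat_lit 94698) (nat_lit 5) (node (nat_lit 4) (nat_lit 94698)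
  (nat_lit 6) (node (nat_lit 5) (nat_lit 100699) (nat_lit 7) (node (nat_lit 6) (nat_lit 77558)
  (nat_lit 8) (node (nat_lit 4) (nat_lit 50711) (nat_lit 9) nil nil) nil) nil) nil) (node (nat_lit
  5) (nat_lit 98543) (nat_lit 5) nil nil)) nil)))) nil))) nil)) nil)

noncomputable def t296 : Tr :=
  (node (nat_lit 4) (nat_lit 26706) (nat_lit 5) (node (nat_lit 6) (nat_lit 40660) (nat_lit 6)
  (node (nat_lit 5) (nat_lit 40660) (nat_lit 7) (node (nat_lit 6) (nat_lit 43435) (nat_lit 8)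
  (node (nat_lit 4) (nat_lit 43435) (nat_lit 9) (node (nat_lit 5) (nat_lit 43435) (nat_lit 10)
  (node (nat_lit 4) (nat_lit 43435) (nat_lit 11) (node (nat_lit 6) (nat_lit 45229) (nat_lit 12)
  (node (nat_lit 4) (nat_lit 45229) (nat_lit 13) (node (nat_lit 5) (nat_lit 45229) (nat_lit 14)
  (node (nat_lit 6) (nat_lit 45439) (nat_lit 15) (node (nat_lit 4) (nat_lit 45439) (nat_lit 16)
  (node (nat_lit 6) (nat_lit 45439) (nat_lit 17) nil nil) (node (nat_lit 5) (nat_lit 45439)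
  (nat_lit 16) nil nil)) (node (nat_lit 3) (nat_lit 45229) (nat_lit 15) nil (node (nat_lit 0)
  (nat_lit 45439) (nat_lit 15) nil nil))) (node (nat_lit 3) (nat_lit 45229) (nat_lit 14) nil (node
  (nat_lit 0) (nat_lit 45422) (nat_lit 14) nil nil))) (node (nat_lit 5) (nat_lit 45229) (nat_lit
  13) (node (nat_lit 4) (nat_lit 45229) (nat_lit 14) (node (nat_lit 5) (nat_lit 45229) (nat_lit
  15) nil nil) nil) (node (nat_lit 3) (nat_lit 45229) (nat_lit 13) nil (node (nat_lit 0) (nat_lit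
  45359) (nat_lit 13) nil nil)))) (node (nat_lit 3) (nat_lit 43435) (nat_lit 12) (node (nat_lit 5)
  (nat_lit 43435) (nat_lit 13) (node (nat_lit 4) (nat_lit 43435) (nat_lit 14) nil nil) (node
  (nat_lit 4) (nat_lit 43435) (nat_lit 13) nil (node (nat_lit 6) (nat_lit 44562) (nat_lit 13) nil
  nil))) (node (nat_lit 0) (nat_lit 44433) (nat_lit 12) nil nil))) (node (nat_lit 6) (nat_lit
  44979) (nat_lit 11) (node (nat_lit 5) (nat_lit 44979) (nat_lit 12) (node (nat_lit 4) (nat_lit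
  44979) (nat_lit 13) nil (node (nat_lit 3) (nat_lit 44979) (nat_lit 13) nil nil)) (node (nat_lit
  3) (nat_lit 44979) (nat_lit 12) nil (node (nat_lit 0) (nat_lit 45145) (nat_lit 12) nil nil)))
  (node (nat_lit 3) (nat_lit 43435) (nat_lit 11) (node (nat_lit 4) (nat_lit 43435) (nat_lit 12)
  (node (nat_lit 5) (nat_lit 43435) (nat_lit 13) nil nil) (node (nat_lit 5) (nat_lit 43435)
  (nat_lit 12) (node (nat_lit 4) (nat_lit 43435) (nat_lit 13) nil (node (nat_lit 0) (nat_lit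
  44562) (nat_lit 13) nil nil)) (node (nat_lit 6) (nat_lit 44433) (nat_lit 12) nil (node (nat_lit
  0) (nat_lit 44433) (nat_lit 12) nil nil)))) (node (nat_lit 0) (nat_lit 44805) (nat_lit 11) nil
  nil)))) (node (nat_lit 6) (nat_lit 44698) (nat_lit 10) (node (nat_lit 5) (nat_lit 44698)
  (nat_lit 11) (node (nat_lit 4) (nat_lit 44698) (nat_lit 12) (node (nat_lit 6) (nat_lit 45258)
  (nat_lit 13) (node (nat_lit 4) (nat_lit 45258) (nat_lit 14) (node (nat_lit 5) (nat_lit 45258)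
  (nat_lit 15) (node (nat_lit 6) (nat_lit 45406) (nat_lit 16) nil (node (nat_lit 4) (nat_lit
  45258) (nat_lit 16) nil nil)) nil) nil) (node (nat_lit 5) (nat_lit 44698) (nat_lit 13) (node
  (nat_lit 6) (nat_lit 45306) (nat_lit 14) nil nil) (node (nat_lit 3) (nat_lit 44698) (nat_lit 13)
  (node (nat_lit 4) (nat_lit 44698) (nat_lit 14) nil (node (nat_lit 5) (nat_lit 44698) (nat_lit
  14) nil nil)) (node (nat_lit 0) (nat_lit 45205) (nat_lit 13) nil nil)))) (node (nat_lit 3)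
  (nat_lit 44698) (nat_lit 12) (node (nat_lit 5) (nat_lit 44698) (nat_lit 13) nil nil) (node
  (nat_lit 0) (nat_lit 45076) (nat_lit 12) nil nil))) (node (nat_lit 3) (nat_lit 44698) (nat_lit
  11) (node (nat_lit 6) (nat_lit 45076) (nat_lit 12) nil nil) (node (nat_lit 0) (nat_lit 44910)
  (nat_lit 11) nil nil))) (node (nat_lit 3) (nat_lit 43435) (nat_lit 10) (node (nat_lit 4)
  (nat_lit 43435) (nat_lit 11) nil (node (nat_lit 5) (nat_lit 43435) (nat_lit 11) nil (node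
  (nat_lit 6) (nat_lit 44268) (nat_lit 11) nil (node (nat_lit 0) (nat_lit 44268) (nat_lit 11) nil
  nil)))) (node (nat_lit 0) (nat_lit 44456) (nat_lit 10) (node (nat_lit 6) (nat_lit 44668)
  (nat_lit 11) nil nil) nil)))) (node (nat_lit 3) (nat_lit 43435) (nat_lit 9) (node (nat_lit 5)
  (nat_lit 43435) (nat_lit 10) nil (node (nat_lit 4) (nat_lit 43435) (nat_lit 10) nil (node
  (nat_lit 6) (nat_lit 44055) (nat_lit 10) nil (node (nat_lit 0) (nat_lit 44055) (nat_lit 10) nil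
  nil)))) (node (nat_lit 0) (nat_lit 44184) (nat_lit 9) (node (nat_lit 5) (nat_lit 44184) (nat_lit
  10) nil (node (nat_lit 6) (nat_lit 44456) (nat_lit 10) nil (node (nat_lit 4) (nat_lit 44184)
  (nat_lit 10) nil nil))) nil))) (node (nat_lit 3) (nat_lit 41387) (nat_lit 8) (node (nat_lit 5)
  (nat_lit 41387) (nat_lit 9) (node (nat_lit 4) (nat_lit 41387) (nat_lit 10) (node (nat_lit 5)
  (nat_lit 41387) (nat_lit 11) (node (nat_lit 11) (nat_lit 41387) (nat_lit 12) nil nil) (node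
  (nat_lit 11) (nat_lit 41387) (nat_lit 11) (node (nat_lit 5) (nat_lit 41387) (nat_lit 12) (node
  (nat_lit 11) (nat_lit 41387) (nat_lit 13) nil nil) (node (nat_lit 6) (nat_lit 42849) (nat_lit
  12) nil nil)) (node (nat_lit 6) (nat_lit 42730) (nat_lit 11) nil (node (nat_lit 0) (nat_lit
  42730) (nat_lit 11) nil nil)))) (node (nat_lit 6) (nat_lit 44059) (nat_lit 10) (node (nat_lit
  11) (nat_lit 44059) (nat_lit 11) nil nil) (node (nat_lit 0) (nat_lit 43636) (nat_lit 10) nil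
  nil))) (node (nat_lit 4) (nat_lit 41387) (nat_lit 9) (node (nat_lit 11) (nat_lit 41387) (nat_lit
  10) (node (nat_lit 5) (nat_lit 41387) (nat_lit 11) (node (nat_lit 11) (nat_lit 41387) (nat_lit
  12) nil nil) (node (nat_lit 6) (nat_lit 42730) (nat_lit 11) nil (node (nat_lit 0) (nat_lit
  42730) (nat_lit 11) nil nil))) (node (nat_lit 5) (nat_lit 41387) (nat_lit 10) (node (nat_lit 11)
  (nat_lit 41387) (nat_lit 11) nil (node (nat_lit 4) (nat_lit 41387) (nat_lit 11) nil nil)) (node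
  (nat_lit 6) (nat_lit 43506) (nat_lit 10) nil (node (nat_lit 0) (nat_lit 42578) (nat_lit 10) nil
  nil)))) (node (nat_lit 6) (nat_lit 43971) (nat_lit 9) (node (nat_lit 11) (nat_lit 43971)
  (nat_lit 10) nil (node (nat_lit 5) (nat_lit 43971) (nat_lit 10) nil nil)) (node (nat_lit 0)
  (nat_lit 43971) (nat_lit 9) (node (nat_lit 5) (nat_lit 43971) (nat_lit 10) nil nil) nil))))
  (node (nat_lit 0) (nat_lit 43837) (nat_lit 8) (node (nat_lit 5) (nat_lit 43837) (nat_lit 9)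
  (node (nat_lit 4) (nat_lit 43837) (nat_lit 10) nil (node (nat_lit 6) (nat_lit 44283) (nat_lit
  10) nil (node (nat_lit 3) (nat_lit 43837) (nat_lit 10) nil (node (nat_lit 0) (nat_lit 44283)
  (nat_lit 10) nil nil)))) (node (nat_lit 6) (nat_lit 44312) (nat_lit 9) (node (nat_lit 11)
  (nat_lit 44508) (nat_lit 10) nil nil) (node (nat_lit 4) (nat_lit 43837) (nat_lit 9) nil (node
  (nat_lit 3) (nat_lit 43837) (nat_lit 9) nil (node (nat_lit 0) (nat_lit 44235) (nat_lit 9) nil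
  nil))))) nil))) (node (nat_lit 4) (nat_lit 40660) (nat_lit 7) (node (nat_lit 5) (nat_lit 40660)
  (nat_lit 8) (node (nat_lit 6) (nat_lit 43623) (nat_lit 9) (node (nat_lit 4) (nat_lit 43623)
  (nat_lit 10) (node (nat_lit 6) (nat_lit 44039) (nat_lit 11) (node (nat_lit 5) (nat_lit 44039)
  (nat_lit 12) (node (nat_lit 4) (nat_lit 44039) (nat_lit 13) (node (nat_lit 6) (nat_lit 44246)
  (nat_lit 14) (node (nat_lit 4) (nat_lit 44246) (nat_lit 15) nil nil) nil) nil) nil) nil) nil)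
  (node (nat_lit 4) (nat_lit 40660) (nat_lit 9) (node (nat_lit 6) (nat_lit 42305) (nat_lit 10) nil
  nil) (node (nat_lit 3) (nat_lit 40660) (nat_lit 9) nil (node (nat_lit 0) (nat_lit 42034)
  (nat_lit 9) nil nil)))) (node (nat_lit 3) (nat_lit 41387) (nat_lit 8) (node (nat_lit 6) (nat_lit
  42920) (nat_lit 9) (node (nat_lit 4) (nat_lit 42920) (nat_lit 10) nil nil) nil) (node (nat_lit
  0) (nat_lit 42564) (nat_lit 8) nil nil))) (node (nat_lit 3) (nat_lit 41387) (nat_lit 7) (node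
  (nat_lit 4) (nat_lit 41387) (nat_lit 8) nil (node (nat_lit 6) (nat_lit 42564) (nat_lit 8) nil
  nil)) (node (nat_lit 0) (nat_lit 42554) (nat_lit 7) (node (nat_lit 0) (nat_lit 42875) (nat_lit
  8) nil nil) nil)))) (node (nat_lit 5) (nat_lit 27072) (nat_lit 6) (node (nat_lit 6) (nat_lit
  26353) (nat_lit 7) (node (nat_lit 4) (nat_lit 26353) (nat_lit 8) (node (nat_lit 6) (nat_lit
  27302) (nat_lit 9) (node (nat_lit 5) (nat_lit 27302) (nat_lit 10) (node (nat_lit 4) (nat_lit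
  27302) (nat_lit 11) (node (nat_lit 6) (nat_lit 27816) (nat_lit 12) nil (node (nat_lit 5)
  (nat_lit 27302) (nat_lit 12) (node (nat_lit 6) (nat_lit 27612) (nat_lit 13) nil nil) (node
  (nat_lit 0) (nat_lit 27561) (nat_lit 12) nil nil))) nil) nil) (node (nat_lit 5) (nat_lit 26353)
  (nat_lit 9) (node (nat_lit 4) (nat_lit 26353) (nat_lit 10) (node (nat_lit 6) (nat_lit 27735)
  (nat_lit 11) (node (nat_lit 5) (nat_lit 27735) (nat_lit 12) (node (nat_lit 4) (nat_lit 27735)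
  (nat_lit 13) (node (nat_lit 5) (nat_lit 27735) (nat_lit 14) nil nil) nil) nil) (node (nat_lit 3)
  (nat_lit 26353) (nat_lit 11) nil (node (nat_lit 0) (nat_lit 26863) (nat_lit 11) nil nil))) (node
  (nat_lit 3) (nat_lit 26353) (nat_lit 10) nil (node (nat_lit 0) (nat_lit 26778) (nat_lit 10) nil
  nil))) (node (nat_lit 3) (nat_lit 26353) (nat_lit 9) nil (node (nat_lit 0) (nat_lit 27007)
  (nat_lit 9) nil nil)))) (node (nat_lit 3) (nat_lit 26353) (nat_lit 8) (node (nat_lit 6) (nat_lit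
  26670) (nat_lit 9) nil nil) (node (nat_lit 0) (nat_lit 26869) (nat_lit 8) (node (nat_lit 6)
  (nat_lit 27007) (nat_lit 9) nil nil) nil))) (node (nat_lit 3) (nat_lit 28593) (nat_lit 7) (node
  (nat_lit 4) (nat_lit 28626) (nat_lit 8) (node (nat_lit 10) (nat_lit 28734) (nat_lit 9) (node
  (nat_lit 5) (nat_lit 28734) (nat_lit 10) (node (nat_lit 4) (nat_lit 28058) (nat_lit 11) nil
  (node (nat_lit 6) (nat_lit 32389) (nat_lit 11) nil nil)) (node (nat_lit 6) (nat_lit 32237)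
  (nat_lit 10) nil nil)) (node (nat_lit 5) (nat_lit 28626) (nat_lit 9) (node (nat_lit 4) (nat_lit
  28626) (nat_lit 10) nil (node (nat_lit 6) (nat_lit 28601) (nat_lit 10) nil nil)) (node (nat_lit
  6) (nat_lit 34745) (nat_lit 9) nil (node (nat_lit 0) (nat_lit 31933) (nat_lit 9) nil nil))))
  (node (nat_lit 5) (nat_lit 28668) (nat_lit 8) (node (nat_lit 4) (nat_lit 28627) (nat_lit 9)
  (node (nat_lit 10) (nat_lit 28627) (nat_lit 10) (node (nat_lit 5) (nat_lit 27951) (nat_lit 11)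
  nil nil) (node (nat_lit 5) (nat_lit 28627) (nat_lit 10) nil (node (nat_lit 6) (nat_lit 32130)
  (nat_lit 10) nil (node (nat_lit 0) (nat_lit 32130) (nat_lit 10) nil nil)))) (node (nat_lit 6)
  (nat_lit 34788) (nat_lit 9) nil (node (nat_lit 0) (nat_lit 34788) (nat_lit 9) nil nil))) (node
  (nat_lit 6) (nat_lit 37094) (nat_lit 8) nil (node (nat_lit 0) (nat_lit 35680) (nat_lit 8) nil
  nil)))) (node (nat_lit 0) (nat_lit 38034) (nat_lit 7) (node (nat_lit 4) (nat_lit 38034) (nat_lit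
  8) nil nil) nil))) (node (nat_lit 3) (nat_lit 28668) (nat_lit 6) (node (nat_lit 5) (nat_lit
  28874) (nat_lit 7) (node (nat_lit 9) (nat_lit 28874) (nat_lit 8) (node (nat_lit 4) (nat_lit
  28874) (nat_lit 9) (node (nat_lit 5) (nat_lit 28874) (nat_lit 10) (node (nat_lit 4) (nat_lit
  33052) (nat_lit 11) (node (nat_lit 9) (nat_lit 35533) (nat_lit 12) (node (nat_lit 5) (nat_lit
  35225) (nat_lit 13) (node (nat_lit 4) (nat_lit 35128) (nat_lit 14) (node (nat_lit 5) (nat_lit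
  34459) (nat_lit 15) nil nil) nil) nil) nil) (node (nat_lit 6) (nat_lit 30805) (nat_lit 11) nil
  (node (nat_lit 9) (nat_lit 31569) (nat_lit 11) (node (nat_lit 5) (nat_lit 30108) (nat_lit 12)
  nil nil) (node (nat_lit 0) (nat_lit 32529) (nat_lit 11) nil nil)))) (node (nat_lit 9) (nat_lit
  28874) (nat_lit 10) (node (nat_lit 5) (nat_lit 31660) (nat_lit 11) (node (nat_lit 4) (nat_lit
  31976) (nat_lit 12) (node (nat_lit 5) (nat_lit 31570) (nat_lit 13) nil nil) (node (nat_lit 6)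
  (nat_lit 34450) (nat_lit 12) nil nil)) (node (nat_lit 6) (nat_lit 35653) (nat_lit 11) nil (node
  (nat_lit 0) (nat_lit 32529) (nat_lit 11) nil nil))) (node (nat_lit 6) (nat_lit 37695) (nat_lit
  10) nil (node (nat_lit 0) (nat_lit 35364) (nat_lit 10) nil nil)))) (node (nat_lit 6) (nat_lit
  37184) (nat_lit 9) nil (node (nat_lit 0) (nat_lit 37184) (nat_lit 9) nil nil))) (node (nat_lit
  4) (nat_lit 28874) (nat_lit 8) (node (nat_lit 5) (nat_lit 28874) (nat_lit 9) (node (nat_lit 9)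
  (nat_lit 28874) (nat_lit 10) (node (nat_lit 5) (nat_lit 31778) (nat_lit 11) (node (nat_lit 4)
  (nat_lit 32823) (nat_lit 12) (node (nat_lit 9) (nat_lit 32912) (nat_lit 13) nil nil) (node
  (nat_lit 6) (nat_lit 34568) (nat_lit 12) nil (node (nat_lit 0) (nat_lit 34568) (nat_lit 12) nil
  nil))) (node (nat_lit 4) (nat_lit 31669) (nat_lit 11) (node (nat_lit 5) (nat_lit 32436) (nat_lit
  12) nil (node (nat_lit 9) (nat_lit 31337) (nat_lit 12) nil nil)) (node (nat_lit 6) (nat_lit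
  32529) (nat_lit 11) nil (node (nat_lit 0) (nat_lit 32529) (nat_lit 11) nil nil)))) (node
  (nat_lit 6) (nat_lit 32792) (nat_lit 10) (node (nat_lit 5) (nat_lit 24610) (nat_lit 11) nil nil)
  (node (nat_lit 0) (nat_lit 35364) (nat_lit 10) nil nil))) (node (nat_lit 6) (nat_lit 37646)
  (nat_lit 9) nil (node (nat_lit 0) (nat_lit 36660) (nat_lit 9) nil nil))) (node (nat_lit 6)
  (nat_lit 40144) (nat_lit 8) (node (nat_lit 9) (nat_lit 40144) (nat_lit 9) nil nil) (node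
  (nat_lit 0) (nat_lit 39203) (nat_lit 8) (node (nat_lit 0) (nat_lit 39453) (nat_lit 9) nil nil)
  nil)))) (node (nat_lit 4) (nat_lit 28862) (nat_lit 7) (node (nat_lit 5) (nat_lit 28862) (nat_lit
  8) (node (nat_lit 9) (nat_lit 28862) (nat_lit 9) (node (nat_lit 5) (nat_lit 28862) (nat_lit 10)
  (node (nat_lit 4) (nat_lit 31865) (nat_lit 11) (node (nat_lit 9) (nat_lit 33297) (nat_lit 12)
  (node (nat_lit 5) (nat_lit 32891) (nat_lit 13) nil (node (nat_lit 4) (nat_lit 33735) (nat_lit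
  13) nil nil)) nil) (node (nat_lit 6) (nat_lit 32517) (nat_lit 11) nil nil)) (node (nat_lit 4)
  (nat_lit 28862) (nat_lit 10) (node (nat_lit 9) (nat_lit 32321) (nat_lit 11) (node (nat_lit 5)
  (nat_lit 33633) (nat_lit 12) (node (nat_lit 4) (nat_lit 30920) (nat_lit 13) nil nil) nil) (node
  (nat_lit 6) (nat_lit 32517) (nat_lit 11) nil nil)) (node (nat_lit 6) (nat_lit 34327) (nat_lit
  10) nil (node (nat_lit 0) (nat_lit 32365) (nat_lit 10) nil nil)))) (node (nat_lit 4) (nat_lit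
  28862) (nat_lit 9) (node (nat_lit 9) (nat_lit 28862) (nat_lit 10) (node (nat_lit 5) (nat_lit
  31446) (nat_lit 11) (node (nat_lit 9) (nat_lit 33325) (nat_lit 12) (node (nat_lit 4) (nat_lit
  31580) (nat_lit 13) nil nil) (node (nat_lit 4) (nat_lit 32245) (nat_lit 12) (node (nat_lit 5)
  (nat_lit 32076) (nat_lit 13) nil nil) nil)) (node (nat_lit 6) (nat_lit 35641) (nat_lit 11) nil
  (node (nat_lit 0) (nat_lit 32517) (nat_lit 11) nil nil))) (node (nat_lit 6) (nat_lit 35352)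
  (nat_lit 10) nil (node (nat_lit 0) (nat_lit 32365) (nat_lit 10) nil nil))) (node (nat_lit 6)
  (nat_lit 25006) (nat_lit 9) (node (nat_lit 5) (nat_lit 12448) (nat_lit 10) (node (nat_lit 4)
  (nat_lit 12416) (nat_lit 11) nil nil) nil) (node (nat_lit 0) (nat_lit 34017) (nat_lit 9) nil
  nil)))) (node (nat_lit 6) (nat_lit 40679) (nat_lit 8) (node (nat_lit 4) (nat_lit 40679) (nat_lit
  9) nil (node (nat_lit 5) (nat_lit 40679) (nat_lit 9) nil (node (nat_lit 9) (nat_lit 40679)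
  (nat_lit 9) nil nil))) (node (nat_lit 0) (nat_lit 38727) (nat_lit 8) nil nil))) (node (nat_lit
  6) (nat_lit 40989) (nat_lit 7) (node (nat_lit 4) (nat_lit 40989) (nat_lit 8) (node (nat_lit 6)
  (nat_lit 41560) (nat_lit 9) nil nil) (node (nat_lit 9) (nat_lit 40989) (nat_lit 8) nil (node
  (nat_lit 0) (nat_lit 41310) (nat_lit 8) nil nil))) (node (nat_lit 0) (nat_lit 41186) (nat_lit 7)
  (node (nat_lit 4) (nat_lit 41186) (nat_lit 8) nil (node (nat_lit 9) (nat_lit 41186) (nat_lit 8)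
  nil (node (nat_lit 5) (nat_lit 41186) (nat_lit 8) nil (node (nat_lit 0) (nat_lit 41506) (nat_lit
  8) nil (node (nat_lit 6) (nat_lit 41506) (nat_lit 8) nil nil))))) nil)))) (node (nat_lit 0)
  (nat_lit 40364) (nat_lit 6) (node (nat_lit 5) (nat_lit 40364) (nat_lit 7) (node (nat_lit 4)
  (nat_lit 40364) (nat_lit 8) nil (node (nat_lit 6) (nat_lit 41109) (nat_lit 8) nil (node (nat_lit
  9) (nat_lit 41109) (nat_lit 8) nil nil))) (node (nat_lit 4) (nat_lit 40364) (nat_lit 7) (node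
  (nat_lit 5) (nat_lit 40364) (nat_lit 8) nil (node (nat_lit 6) (nat_lit 41109) (nat_lit 8) nil
  (node (nat_lit 3) (nat_lit 40364) (nat_lit 8) nil nil))) (node (nat_lit 6) (nat_lit 41530)
  (nat_lit 7) nil (node (nat_lit 3) (nat_lit 40364) (nat_lit 7) nil (node (nat_lit 0) (nat_lit
  41530) (nat_lit 7) nil nil))))) nil)))) (node (nat_lit 3) (nat_lit 28210) (nat_lit 5) (node
  (nat_lit 4) (nat_lit 28727) (nat_lit 6) (node (nat_lit 5) (nat_lit 28879) (nat_lit 7) (node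
  (nat_lit 4) (nat_lit 28896) (nat_lit 8) (node (nat_lit 8) (nat_lit 28896) (nat_lit 9) (node
  (nat_lit 5) (nat_lit 28882) (nat_lit 10) (node (nat_lit 8) (nat_lit 31813) (nat_lit 11) (node
  (nat_lit 4) (nat_lit 33066) (nat_lit 12) (node (nat_lit 5) (nat_lit 33757) (nat_lit 13) nil nil)
  nil) (node (nat_lit 4) (nat_lit 31656) (nat_lit 11) (node (nat_lit 5) (nat_lit 31562) (nat_lit
  12) nil nil) (node (nat_lit 6) (nat_lit 32537) (nat_lit 11) nil (node (nat_lit 0) (nat_lit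
  32537) (nat_lit 11) nil nil)))) (node (nat_lit 4) (nat_lit 28896) (nat_lit 10) (node (nat_lit 5)
  (nat_lit 30940) (nat_lit 11) (node (nat_lit 6) (nat_lit 29639) (nat_lit 12) nil (node (nat_lit
  8) (nat_lit 31019) (nat_lit 12) nil nil)) (node (nat_lit 6) (nat_lit 35675) (nat_lit 11) nil
  (node (nat_lit 0) (nat_lit 32550) (nat_lit 11) nil nil))) (node (nat_lit 6) (nat_lit 38326)
  (nat_lit 10) nil (node (nat_lit 0) (nat_lit 35386) (nat_lit 10) nil nil)))) (node (nat_lit 6)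
  (nat_lit 37206) (nat_lit 9) nil (node (nat_lit 0) (nat_lit 37206) (nat_lit 9) nil nil))) (node
  (nat_lit 8) (nat_lit 28879) (nat_lit 8) (node (nat_lit 5) (nat_lit 28879) (nat_lit 9) (node
  (nat_lit 4) (nat_lit 28877) (nat_lit 10) (node (nat_lit 5) (nat_lit 31795) (nat_lit 11) (node
  (nat_lit 6) (nat_lit 31058) (nat_lit 12) nil (node (nat_lit 8) (nat_lit 32437) (nat_lit 12)
  (node (nat_lit 4) (nat_lit 33309) (nat_lit 13) nil nil) nil)) (node (nat_lit 8) (nat_lit 31922)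
  (nat_lit 11) (node (nat_lit 4) (nat_lit 33486) (nat_lit 12) nil (node (nat_lit 5) (nat_lit
  31417) (nat_lit 12) nil nil)) (node (nat_lit 6) (nat_lit 34584) (nat_lit 11) nil (node (nat_lit
  0) (nat_lit 32531) (nat_lit 11) nil nil)))) (node (nat_lit 6) (nat_lit 34345) (nat_lit 10) nil
  (node (nat_lit 0) (nat_lit 34345) (nat_lit 10) nil nil))) (node (nat_lit 6) (nat_lit 36666)
  (nat_lit 9) nil (node (nat_lit 0) (nat_lit 36666) (nat_lit 9) nil nil))) (node (nat_lit 6)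
  (nat_lit 25185) (nat_lit 8) (node (nat_lit 5) (nat_lit 14268) (nat_lit 9) nil nil) (node
  (nat_lit 0) (nat_lit 39209) (nat_lit 8) (node (nat_lit 0) (nat_lit 39459) (nat_lit 9) nil nil)
  nil)))) (node (nat_lit 8) (nat_lit 28873) (nat_lit 7) (node (nat_lit 5) (nat_lit 28875) (nat_lit
  8) (node (nat_lit 4) (nat_lit 28875) (nat_lit 9) (node (nat_lit 5) (nat_lit 28875) (nat_lit 10)
  (node (nat_lit 8) (nat_lit 32433) (nat_lit 11) (node (nat_lit 4) (nat_lit 33843) (nat_lit 12)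
  (node (nat_lit 5) (nat_lit 34609) (nat_lit 13) (node (nat_lit 6) (nat_lit 33079) (nat_lit 14)
  nil nil) (node (nat_lit 8) (nat_lit 33357) (nat_lit 13) nil nil)) (node (nat_lit 5) (nat_lit
  33551) (nat_lit 12) nil nil)) (node (nat_lit 6) (nat_lit 30540) (nat_lit 11) nil (node (nat_lit
  0) (nat_lit 32529) (nat_lit 11) nil nil))) (node (nat_lit 8) (nat_lit 28875) (nat_lit 10) (node
  (nat_lit 4) (nat_lit 30404) (nat_lit 11) nil (node (nat_lit 6) (nat_lit 32529) (nat_lit 11) nil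
  nil)) (node (nat_lit 6) (nat_lit 38305) (nat_lit 10) nil (node (nat_lit 0) (nat_lit 35365)
  (nat_lit 10) nil nil)))) (node (nat_lit 8) (nat_lit 28875) (nat_lit 9) (node (nat_lit 4)
  (nat_lit 28881) (nat_lit 10) (node (nat_lit 5) (nat_lit 32353) (nat_lit 11) (node (nat_lit 6)
  (nat_lit 32066) (nat_lit 12) nil (node (nat_lit 4) (nat_lit 33274) (nat_lit 12) nil (node
  (nat_lit 8) (nat_lit 32647) (nat_lit 12) nil nil))) (node (nat_lit 6) (nat_lit 35660) (nat_lit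
  11) nil (node (nat_lit 0) (nat_lit 32535) (nat_lit 11) nil nil))) (node (nat_lit 6) (nat_lit
  35365) (nat_lit 10) nil (node (nat_lit 0) (nat_lit 35365) (nat_lit 10) nil nil))) (node (nat_lit
  6) (nat_lit 37185) (nat_lit 9) nil (node (nat_lit 0) (nat_lit 37185) (nat_lit 9) nil nil))))
  (node (nat_lit 6) (nat_lit 41280) (nat_lit 8) (node (nat_lit 4) (nat_lit 41280) (nat_lit 9) nil
  (node (nat_lit 8) (nat_lit 41280) (nat_lit 9) nil (node (nat_lit 5) (nat_lit 41280) (nat_lit 9)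
  nil nil))) (node (nat_lit 0) (nat_lit 39426) (nat_lit 8) nil nil))) (node (nat_lit 6) (nat_lit
  41089) (nat_lit 7) (node (nat_lit 8) (nat_lit 41089) (nat_lit 8) (node (nat_lit 6) (nat_lit
  41659) (nat_lit 9) nil nil) (node (nat_lit 4) (nat_lit 41089) (nat_lit 8) nil (node (nat_lit 0)
  (nat_lit 41409) (nat_lit 8) nil nil))) (node (nat_lit 0) (nat_lit 41389) (nat_lit 7) (node
  (nat_lit 4) (nat_lit 41389) (nat_lit 8) nil (node (nat_lit 8) (nat_lit 41389) (nat_lit 8) nil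
  (node (nat_lit 0) (nat_lit 41710) (nat_lit 8) nil (node (nat_lit 6) (nat_lit 41710) (nat_lit 8)
  nil (node (nat_lit 5) (nat_lit 41389) (nat_lit 8) nil nil))))) nil)))) (node (nat_lit 5)
  (nat_lit 28660) (nat_lit 6) (node (nat_lit 6) (nat_lit 42429) (nat_lit 7) (node (nat_lit 8)
  (nat_lit 42429) (nat_lit 8) (node (nat_lit 6) (nat_lit 43971) (nat_lit 9) (node (nat_lit 5)
  (nat_lit 43971) (nat_lit 10) (node (nat_lit 8) (nat_lit 43971) (nat_lit 11) (node (nat_lit 6)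
  (nat_lit 44693) (nat_lit 12) nil (node (nat_lit 4) (nat_lit 43971) (nat_lit 12) nil (node
  (nat_lit 5) (nat_lit 43971) (nat_lit 12) nil (node (nat_lit 0) (nat_lit 44437) (nat_lit 12) nil
  nil)))) nil) nil) (node (nat_lit 5) (nat_lit 42429) (nat_lit 9) (node (nat_lit 8) (nat_lit
  42429) (nat_lit 10) (node (nat_lit 6) (nat_lit 43347) (nat_lit 11) nil nil) nil) (node (nat_lit
  4) (nat_lit 42429) (nat_lit 9) nil (node (nat_lit 0) (nat_lit 43000) (nat_lit 9) nil nil))))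
  (node (nat_lit 4) (nat_lit 42429) (nat_lit 8) nil (node (nat_lit 0) (nat_lit 42939) (nat_lit 8)
  nil nil))) (node (nat_lit 4) (nat_lit 28817) (nat_lit 7) (node (nat_lit 8) (nat_lit 28840)
  (nat_lit 8) (node (nat_lit 4) (nat_lit 28840) (nat_lit 9) (node (nat_lit 5) (nat_lit 28840)
  (nat_lit 10) (node (nat_lit 6) (nat_lit 30502) (nat_lit 11) nil (node (nat_lit 8) (nat_lit
  30783) (nat_lit 11) (node (nat_lit 4) (nat_lit 31549) (nat_lit 12) nil nil) (node (nat_lit 4)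
  (nat_lit 28163) (nat_lit 11) nil nil))) (node (nat_lit 6) (nat_lit 32342) (nat_lit 10) nil nil))
  (node (nat_lit 5) (nat_lit 28840) (nat_lit 9) (node (nat_lit 8) (nat_lit 28840) (nat_lit 10)
  (node (nat_lit 4) (nat_lit 29563) (nat_lit 11) (node (nat_lit 5) (nat_lit 30329) (nat_lit 12)
  nil nil) (node (nat_lit 6) (nat_lit 32494) (nat_lit 11) nil nil)) (node (nat_lit 6) (nat_lit
  32342) (nat_lit 10) nil (node (nat_lit 0) (nat_lit 32342) (nat_lit 10) nil nil))) (node (nat_lit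
  6) (nat_lit 36828) (nat_lit 9) nil (node (nat_lit 0) (nat_lit 34959) (nat_lit 9) nil nil))))
  (node (nat_lit 5) (nat_lit 28840) (nat_lit 8) (node (nat_lit 8) (nat_lit 28840) (nat_lit 9)
  (node (nat_lit 4) (nat_lit 28840) (nat_lit 10) (node (nat_lit 5) (nat_lit 30914) (nat_lit 11)
  (node (nat_lit 4) (nat_lit 30409) (nat_lit 12) nil nil) (node (nat_lit 8) (nat_lit 31671)
  (nat_lit 11) (node (nat_lit 5) (nat_lit 32604) (nat_lit 12) (node (nat_lit 4) (nat_lit 31977)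
  (nat_lit 13) nil nil) nil) (node (nat_lit 6) (nat_lit 32494) (nat_lit 11) nil nil))) (node
  (nat_lit 5) (nat_lit 28840) (nat_lit 10) nil (node (nat_lit 6) (nat_lit 32342) (nat_lit 10) nil
  (node (nat_lit 0) (nat_lit 32342) (nat_lit 10) nil nil)))) (node (nat_lit 6) (nat_lit 30382)
  (nat_lit 9) (node (nat_lit 5) (nat_lit 21580) (nat_lit 10) nil nil) (node (nat_lit 0) (nat_lit
  33994) (nat_lit 9) nil nil))) (node (nat_lit 6) (nat_lit 39948) (nat_lit 8) (node (nat_lit 4)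
  (nat_lit 39948) (nat_lit 9) nil (node (nat_lit 5) (nat_lit 39948) (nat_lit 9) nil nil)) (node
  (nat_lit 0) (nat_lit 36998) (nat_lit 8) nil nil)))) (node (nat_lit 0) (nat_lit 40783) (nat_lit
  7) (node (nat_lit 8) (nat_lit 40783) (nat_lit 8) nil nil) nil))) (node (nat_lit 6) (nat_lit
  40844) (nat_lit 6) (node (nat_lit 8) (nat_lit 40844) (nat_lit 7) (node (nat_lit 5) (nat_lit
  40844) (nat_lit 8) (node (nat_lit 6) (nat_lit 43074) (nat_lit 9) (node (nat_lit 8) (nat_lit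
  43074) (nat_lit 10) (node (nat_lit 6) (nat_lit 43422) (nat_lit 11) nil nil) nil) (node (nat_lit
  8) (nat_lit 40844) (nat_lit 9) (node (nat_lit 6) (nat_lit 42034) (nat_lit 10) nil nil) (node
  (nat_lit 4) (nat_lit 40844) (nat_lit 9) nil (node (nat_lit 0) (nat_lit 41839) (nat_lit 9) nil
  nil)))) (node (nat_lit 4) (nat_lit 40844) (nat_lit 8) nil (node (nat_lit 0) (nat_lit 41589)
  (nat_lit 8) nil nil))) (node (nat_lit 5) (nat_lit 40844) (nat_lit 7) (node (nat_lit 6) (nat_lit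
  42773) (nat_lit 8) (node (nat_lit 8) (nat_lit 42773) (nat_lit 9) (node (nat_lit 5) (nat_lit
  42773) (nat_lit 10) nil nil) nil) (node (nat_lit 4) (nat_lit 40844) (nat_lit 8) nil (node
  (nat_lit 0) (nat_lit 41589) (nat_lit 8) nil nil))) (node (nat_lit 4) (nat_lit 40844) (nat_lit 7)
  (node (nat_lit 8) (nat_lit 40844) (nat_lit 8) nil (node (nat_lit 6) (nat_lit 42246) (nat_lit 8)
  nil (node (nat_lit 5) (nat_lit 40844) (nat_lit 8) nil nil))) (node (nat_lit 0) (nat_lit 42010)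
  (nat_lit 7) (node (nat_lit 0) (nat_lit 42331) (nat_lit 8) nil nil) nil)))) (node (nat_lit 0)
  (nat_lit 40771) (nat_lit 6) (node (nat_lit 5) (nat_lit 40771) (nat_lit 7) (node (nat_lit 8)
  (nat_lit 40771) (nat_lit 8) nil (node (nat_lit 6) (nat_lit 41516) (nat_lit 8) nil (node (nat_lit
  9) (nat_lit 41516) (nat_lit 8) nil nil))) (node (nat_lit 8) (nat_lit 40771) (nat_lit 7) (node
  (nat_lit 5) (nat_lit 40771) (nat_lit 8) nil (node (nat_lit 4) (nat_lit 40771) (nat_lit 8) nil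
  (node (nat_lit 6) (nat_lit 41516) (nat_lit 8) nil nil))) (node (nat_lit 4) (nat_lit 40771)
  (nat_lit 7) nil (node (nat_lit 6) (nat_lit 41861) (nat_lit 7) nil (node (nat_lit 0) (nat_lit
  41938) (nat_lit 7) nil nil))))) nil)))) (node (nat_lit 0) (nat_lit 38643) (nat_lit 5) (node
  (nat_lit 6) (nat_lit 41170) (nat_lit 6) (node (nat_lit 5) (nat_lit 41170) (nat_lit 7) (node
  (nat_lit 6) (nat_lit 43236) (nat_lit 8) (node (nat_lit 8) (nat_lit 43711) (nat_lit 9) (node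
  (nat_lit 5) (nat_lit 43711) (nat_lit 10) nil (node (nat_lit 6) (nat_lit 43906) (nat_lit 10) nil
  nil)) (node (nat_lit 4) (nat_lit 43236) (nat_lit 9) nil (node (nat_lit 0) (nat_lit 43486)
  (nat_lit 9) nil (node (nat_lit 3) (nat_lit 43236) (nat_lit 9) nil nil)))) (node (nat_lit 4)
  (nat_lit 41170) (nat_lit 8) (node (nat_lit 8) (nat_lit 42165) (nat_lit 9) nil nil) (node
  (nat_lit 3) (nat_lit 41170) (nat_lit 8) (node (nat_lit 8) (nat_lit 42165) (nat_lit 9) nil nil)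
  (node (nat_lit 0) (nat_lit 42836) (nat_lit 8) nil nil)))) (node (nat_lit 8) (nat_lit 42337)
  (nat_lit 7) (node (nat_lit 5) (nat_lit 42337) (nat_lit 8) (node (nat_lit 8) (nat_lit 42907)
  (nat_lit 9) nil nil) nil) (node (nat_lit 4) (nat_lit 41170) (nat_lit 7) nil (node (nat_lit 3)
  (nat_lit 41170) (nat_lit 7) nil (node (nat_lit 0) (nat_lit 41837) (nat_lit 7) nil nil))))) (node
  (nat_lit 5) (nat_lit 38643) (nat_lit 6) (node (nat_lit 6) (nat_lit 42008) (nat_lit 7) (node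
  (nat_lit 8) (nat_lit 42617) (nat_lit 8) (node (nat_lit 5) (nat_lit 42617) (nat_lit 9) nil nil)
  (node (nat_lit 4) (nat_lit 42008) (nat_lit 8) nil (node (nat_lit 5) (nat_lit 42008) (nat_lit 8)
  nil nil))) (node (nat_lit 4) (nat_lit 38643) (nat_lit 7) (node (nat_lit 5) (nat_lit 38643)
  (nat_lit 8) nil (node (nat_lit 8) (nat_lit 39950) (nat_lit 8) nil (node (nat_lit 6) (nat_lit
  39950) (nat_lit 8) nil nil))) (node (nat_lit 3) (nat_lit 38643) (nat_lit 7) (node (nat_lit 5)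
  (nat_lit 38643) (nat_lit 8) nil (node (nat_lit 8) (nat_lit 39950) (nat_lit 8) nil (node (nat_lit
  6) (nat_lit 39950) (nat_lit 8) nil nil))) (node (nat_lit 0) (nat_lit 40534) (nat_lit 7) nil
  nil)))) (node (nat_lit 4) (nat_lit 38643) (nat_lit 6) (node (nat_lit 5) (nat_lit 38643) (nat_lit
  7) (node (nat_lit 8) (nat_lit 39950) (nat_lit 8) nil (node (nat_lit 4) (nat_lit 38643) (nat_lit
  8) nil nil)) (node (nat_lit 6) (nat_lit 41014) (nat_lit 7) (node (nat_lit 4) (nat_lit 41014)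
  (nat_lit 8) nil nil) (node (nat_lit 8) (nat_lit 40580) (nat_lit 7) nil (node (nat_lit 3)
  (nat_lit 38643) (nat_lit 7) nil (node (nat_lit 0) (nat_lit 39629) (nat_lit 7) nil nil))))) (node
  (nat_lit 3) (nat_lit 38643) (nat_lit 6) (node (nat_lit 5) (nat_lit 38643) (nat_lit 7) nil (node
  (nat_lit 8) (nat_lit 40365) (nat_lit 7) nil (node (nat_lit 6) (nat_lit 40365) (nat_lit 7) nil
  (node (nat_lit 0) (nat_lit 39629) (nat_lit 7) nil nil)))) (node (nat_lit 0) (nat_lit 40841)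
  (nat_lit 6) (node (nat_lit 5) (nat_lit 40841) (nat_lit 7) nil (node (nat_lit 3) (nat_lit 40841)
  (nat_lit 7) nil (node (nat_lit 4) (nat_lit 40841) (nat_lit 7) nil (node (nat_lit 8) (nat_lit
  41508) (nat_lit 7) nil (node (nat_lit 6) (nat_lit 41265) (nat_lit 7) nil (node (nat_lit 0)
  (nat_lit 41265) (nat_lit 7) nil nil)))))) nil))))) nil)))

noncomputable def t297 : Tr :=
  (node (nat_lit 4) (nat_lit 0) (nat_lit 3) (node (nat_lit 0) (nat_lit 0) (nat_lit 4) (node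
  (nat_lit 5) (nat_lit 0) (nat_lit 5) (node (nat_lit 4) (nat_lit 15515) (nat_lit 6) (node (nat_lit
  5) (nat_lit 15955) (nat_lit 7) (node (nat_lit 7) (nat_lit 22508) (nat_lit 8) (node (nat_lit 4)
  (nat_lit 22508) (nat_lit 9) (node (nat_lit 7) (nat_lit 23188) (nat_lit 10) (node (nat_lit 5)
  (nat_lit 23188) (nat_lit 11) (node (nat_lit 4) (nat_lit 23188) (nat_lit 12) (node (nat_lit 7)
  (nat_lit 23328) (nat_lit 13) (node (nat_lit 4) (nat_lit 23328) (nat_lit 14) (node (nat_lit 5)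
  (nat_lit 23328) (nat_lit 15) (node (nat_lit 7) (nat_lit 23328) (nat_lit 16) nil nil) nil) nil)
  (node (nat_lit 3) (nat_lit 23188) (nat_lit 13) nil (node (nat_lit 0) (nat_lit 23328) (nat_lit
  13) nil nil))) (node (nat_lit 7) (nat_lit 23328) (nat_lit 12) (node (nat_lit 4) (nat_lit 23328)
  (nat_lit 13) (node (nat_lit 5) (nat_lit 23328) (nat_lit 14) nil nil) nil) (node (nat_lit 3)
  (nat_lit 23188) (nat_lit 12) nil (node (nat_lit 0) (nat_lit 23325) (nat_lit 12) nil nil))))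
  (node (nat_lit 3) (nat_lit 23188) (nat_lit 11) (node (nat_lit 4) (nat_lit 23188) (nat_lit 12)
  nil nil) (node (nat_lit 0) (nat_lit 23306) (nat_lit 11) nil nil))) (node (nat_lit 5) (nat_lit
  22508) (nat_lit 10) (node (nat_lit 4) (nat_lit 22508) (nat_lit 11) (node (nat_lit 7) (nat_lit
  23328) (nat_lit 12) (node (nat_lit 4) (nat_lit 23328) (nat_lit 13) (node (nat_lit 5) (nat_lit
  23328) (nat_lit 14) (node (nat_lit 7) (nat_lit 23328) (nat_lit 15) nil nil) (node (nat_lit 3)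
  (nat_lit 23328) (nat_lit 14) nil (node (nat_lit 0) (nat_lit 23328) (nat_lit 14) nil nil))) nil)
  (node (nat_lit 3) (nat_lit 22508) (nat_lit 12) (node (nat_lit 5) (nat_lit 22508) (nat_lit 13)
  nil (node (nat_lit 4) (nat_lit 22508) (nat_lit 13) nil (node (nat_lit 7) (nat_lit 22918)
  (nat_lit 13) nil nil))) (node (nat_lit 0) (nat_lit 23294) (nat_lit 12) nil nil))) (node (nat_lit
  3) (nat_lit 22508) (nat_lit 11) (node (nat_lit 4) (nat_lit 22508) (nat_lit 12) nil (node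
  (nat_lit 5) (nat_lit 22508) (nat_lit 12) nil (node (nat_lit 7) (nat_lit 22871) (nat_lit 12) nil
  nil))) (node (nat_lit 0) (nat_lit 23163) (nat_lit 11) nil nil))) (node (nat_lit 3) (nat_lit
  22508) (nat_lit 10) (node (nat_lit 4) (nat_lit 22508) (nat_lit 11) nil (node (nat_lit 5)
  (nat_lit 22508) (nat_lit 11) nil (node (nat_lit 7) (nat_lit 23163) (nat_lit 11) nil nil))) (node
  (nat_lit 0) (nat_lit 23167) (nat_lit 10) (node (nat_lit 7) (nat_lit 23244) (nat_lit 11) nil nil)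
  nil)))) (node (nat_lit 5) (nat_lit 22508) (nat_lit 9) (node (nat_lit 4) (nat_lit 22508) (nat_lit
  10) (node (nat_lit 7) (nat_lit 23324) (nat_lit 11) (node (nat_lit 4) (nat_lit 23324) (nat_lit
  12) (node (nat_lit 5) (nat_lit 23324) (nat_lit 13) (node (nat_lit 4) (nat_lit 23324) (nat_lit
  14) (node (nat_lit 7) (nat_lit 23328) (nat_lit 15) nil nil) (node (nat_lit 7) (nat_lit 23328)
  (nat_lit 14) nil nil)) (node (nat_lit 3) (nat_lit 23324) (nat_lit 13) nil nil)) (node (nat_lit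
  5) (nat_lit 23324) (nat_lit 12) (node (nat_lit 7) (nat_lit 23328) (nat_lit 13) nil (node
  (nat_lit 3) (nat_lit 23324) (nat_lit 13) nil nil)) (node (nat_lit 3) (nat_lit 23324) (nat_lit
  12) nil (node (nat_lit 0) (nat_lit 23328) (nat_lit 12) nil nil)))) (node (nat_lit 3) (nat_lit
  22508) (nat_lit 11) (node (nat_lit 4) (nat_lit 22508) (nat_lit 12) nil (node (nat_lit 5)
  (nat_lit 22508) (nat_lit 12) nil (node (nat_lit 7) (nat_lit 22871) (nat_lit 12) nil nil))) (node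
  (nat_lit 0) (nat_lit 23163) (nat_lit 11) nil nil))) (node (nat_lit 3) (nat_lit 22508) (nat_lit
  10) (node (nat_lit 4) (nat_lit 22508) (nat_lit 11) nil (node (nat_lit 7) (nat_lit 23163)
  (nat_lit 11) nil (node (nat_lit 5) (nat_lit 22508) (nat_lit 11) nil (node (nat_lit 0) (nat_lit
  22811) (nat_lit 11) nil nil)))) (node (nat_lit 0) (nat_lit 23167) (nat_lit 10) nil nil))) (node
  (nat_lit 3) (nat_lit 22508) (nat_lit 9) (node (nat_lit 4) (nat_lit 22508) (nat_lit 10) nil (node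
  (nat_lit 5) (nat_lit 22508) (nat_lit 10) nil (node (nat_lit 7) (nat_lit 22997) (nat_lit 10) nil
  (node (nat_lit 0) (nat_lit 22734) (nat_lit 10) nil nil)))) (node (nat_lit 0) (nat_lit 22893)
  (nat_lit 9) (node (nat_lit 7) (nat_lit 22992) (nat_lit 10) nil nil) nil)))) (node (nat_lit 3)
  (nat_lit 16262) (nat_lit 8) (node (nat_lit 4) (nat_lit 16380) (nat_lit 9) (node (nat_lit 5)
  (nat_lit 16380) (nat_lit 10) (node (nat_lit 4) (nat_lit 16380) (nat_lit 11) (node (nat_lit 11)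
  (nat_lit 17824) (nat_lit 12) (node (nat_lit 5) (nat_lit 18561) (nat_lit 13) (node (nat_lit 11)
  (nat_lit 19346) (nat_lit 14) nil nil) (node (nat_lit 4) (nat_lit 18581) (nat_lit 13) (node
  (nat_lit 5) (nat_lit 19014) (nat_lit 14) nil nil) nil)) (node (nat_lit 7) (nat_lit 14585)
  (nat_lit 12) (node (nat_lit 5) (nat_lit 6658) (nat_lit 13) nil nil) (node (nat_lit 0) (nat_lit
  19371) (nat_lit 12) nil nil))) (node (nat_lit 7) (nat_lit 21172) (nat_lit 11) nil (node (nat_lit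
  0) (nat_lit 20627) (nat_lit 11) nil nil))) (node (nat_lit 11) (nat_lit 16380) (nat_lit 10) (node
  (nat_lit 5) (nat_lit 16380) (nat_lit 11) (node (nat_lit 11) (nat_lit 18074) (nat_lit 12) (node
  (nat_lit 4) (nat_lit 18907) (nat_lit 13) (node (nat_lit 5) (nat_lit 18818) (nat_lit 14) nil nil)
  (node (nat_lit 7) (nat_lit 19146) (nat_lit 13) nil nil)) (node (nat_lit 4) (nat_lit 18060)
  (nat_lit 12) (node (nat_lit 5) (nat_lit 18944) (nat_lit 13) nil (node (nat_lit 7) (nat_lit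
  19131) (nat_lit 13) nil (node (nat_lit 11) (nat_lit 18924) (nat_lit 13) nil nil))) (node
  (nat_lit 7) (nat_lit 20323) (nat_lit 12) nil (node (nat_lit 0) (nat_lit 19371) (nat_lit 12) nil
  nil)))) (node (nat_lit 7) (nat_lit 20627) (nat_lit 11) nil (node (nat_lit 0) (nat_lit 20150)
  (nat_lit 11) nil nil))) (node (nat_lit 7) (nat_lit 20966) (nat_lit 10) nil (node (nat_lit 0)
  (nat_lit 20649) (nat_lit 10) nil nil)))) (node (nat_lit 5) (nat_lit 16380) (nat_lit 9) (node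
  (nat_lit 4) (nat_lit 16380) (nat_lit 10) (node (nat_lit 11) (nat_lit 16380) (nat_lit 11) (node
  (nat_lit 5) (nat_lit 17791) (nat_lit 12) (node (nat_lit 11) (nat_lit 18663) (nat_lit 13) (node
  (nat_lit 4) (nat_lit 19377) (nat_lit 14) nil nil) (node (nat_lit 7) (nat_lit 20083) (nat_lit 13)
  nil (node (nat_lit 0) (nat_lit 18862) (nat_lit 13) nil nil))) (node (nat_lit 4) (nat_lit 17213)
  (nat_lit 12) (node (nat_lit 5) (nat_lit 17499) (nat_lit 13) nil nil) (node (nat_lit 7) (nat_lit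
  19371) (nat_lit 12) nil (node (nat_lit 0) (nat_lit 19371) (nat_lit 12) nil nil)))) (node
  (nat_lit 7) (nat_lit 20150) (nat_lit 11) nil (node (nat_lit 5) (nat_lit 16380) (nat_lit 11)
  (node (nat_lit 7) (nat_lit 17793) (nat_lit 12) nil nil) (node (nat_lit 0) (nat_lit 20150)
  (nat_lit 11) nil nil)))) (node (nat_lit 7) (nat_lit 21372) (nat_lit 10) nil (node (nat_lit 0)
  (nat_lit 20888) (nat_lit 10) nil nil))) (node (nat_lit 7) (nat_lit 21953) (nat_lit 9) (node
  (nat_lit 4) (nat_lit 21953) (nat_lit 10) nil nil) (node (nat_lit 0) (nat_lit 21662) (nat_lit 9)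
  nil nil)))) (node (nat_lit 0) (nat_lit 22257) (nat_lit 8) (node (nat_lit 4) (nat_lit 22257)
  (nat_lit 9) (node (nat_lit 5) (nat_lit 22257) (nat_lit 10) nil nil) (node (nat_lit 5) (nat_lit
  22257) (nat_lit 9) nil (node (nat_lit 7) (nat_lit 22646) (nat_lit 9) nil (node (nat_lit 3)
  (nat_lit 22257) (nat_lit 9) nil (node (nat_lit 0) (nat_lit 22531) (nat_lit 9) nil nil)))))
  nil))) (node (nat_lit 3) (nat_lit 16006) (nat_lit 7) (node (nat_lit 5) (nat_lit 16286) (nat_lit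
  8) (node (nat_lit 10) (nat_lit 16385) (nat_lit 9) (node (nat_lit 4) (nat_lit 16385) (nat_lit 10)
  (node (nat_lit 5) (nat_lit 16385) (nat_lit 11) (node (nat_lit 4) (nat_lit 17595) (nat_lit 12)
  (node (nat_lit 7) (nat_lit 14064) (nat_lit 13) nil nil) (node (nat_lit 7) (nat_lit 17798)
  (nat_lit 12) nil nil)) (node (nat_lit 10) (nat_lit 16393) (nat_lit 11) (node (nat_lit 5)
  (nat_lit 18446) (nat_lit 12) (node (nat_lit 4) (nat_lit 19430) (nat_lit 13) (node (nat_lit 10)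
  (nat_lit 19585) (nat_lit 14) nil (node (nat_lit 5) (nat_lit 18950) (nat_lit 14) nil nil)) (node
  (nat_lit 7) (nat_lit 19518) (nat_lit 13) nil nil)) (node (nat_lit 7) (nat_lit 17805) (nat_lit
  12) nil nil)) (node (nat_lit 7) (nat_lit 19245) (nat_lit 11) nil (node (nat_lit 0) (nat_lit
  19245) (nat_lit 11) nil nil)))) (node (nat_lit 7) (nat_lit 20894) (nat_lit 10) nil (node
  (nat_lit 0) (nat_lit 20381) (nat_lit 10) nil nil))) (node (nat_lit 4) (nat_lit 16385) (nat_lit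
  9) (node (nat_lit 5) (nat_lit 16385) (nat_lit 10) (node (nat_lit 10) (nat_lit 16385) (nat_lit
  11) (node (nat_lit 4) (nat_lit 16773) (nat_lit 12) nil (node (nat_lit 5) (nat_lit 16773)
  (nat_lit 12) nil nil)) (node (nat_lit 7) (nat_lit 20155) (nat_lit 11) nil nil)) (node (nat_lit
  7) (nat_lit 20381) (nat_lit 10) nil (node (nat_lit 0) (nat_lit 19078) (nat_lit 10) nil nil)))
  (node (nat_lit 7) (nat_lit 22214) (nat_lit 9) (node (nat_lit 5) (nat_lit 22214) (nat_lit 10) nil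
  (node (nat_lit 10) (nat_lit 22214) (nat_lit 10) nil nil)) (node (nat_lit 0) (nat_lit 20717)
  (nat_lit 9) nil nil)))) (node (nat_lit 4) (nat_lit 16284) (nat_lit 8) (node (nat_lit 5) (nat_lit
  16385) (nat_lit 9) (node (nat_lit 10) (nat_lit 16385) (nat_lit 10) (node (nat_lit 4) (nat_lit
  16385) (nat_lit 11) (node (nat_lit 10) (nat_lit 17415) (nat_lit 12) (node (nat_lit 5) (nat_lit
  17533) (nat_lit 13) (node (nat_lit 4) (nat_lit 17053) (nat_lit 14) nil nil) (node (nat_lit 7)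
  (nat_lit 18486) (nat_lit 13) nil nil)) (node (nat_lit 7) (nat_lit 19376) (nat_lit 12) nil (node
  (nat_lit 0) (nat_lit 19376) (nat_lit 12) nil nil))) (node (nat_lit 5) (nat_lit 16385) (nat_lit
  11) (node (nat_lit 4) (nat_lit 17522) (nat_lit 12) nil (node (nat_lit 7) (nat_lit 17798)
  (nat_lit 12) nil nil)) (node (nat_lit 7) (nat_lit 19245) (nat_lit 11) nil (node (nat_lit 0)
  (nat_lit 17738) (nat_lit 11) nil nil)))) (node (nat_lit 4) (nat_lit 16385) (nat_lit 10) (node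
  (nat_lit 10) (nat_lit 16385) (nat_lit 11) (node (nat_lit 5) (nat_lit 17367) (nat_lit 12) (node
  (nat_lit 10) (nat_lit 16217) (nat_lit 13) nil (node (nat_lit 4) (nat_lit 17652) (nat_lit 13) nil
  nil)) (node (nat_lit 7) (nat_lit 17798) (nat_lit 12) nil nil)) (node (nat_lit 7) (nat_lit 12375)
  (nat_lit 11) nil nil)) (node (nat_lit 7) (nat_lit 20381) (nat_lit 10) nil (node (nat_lit 0)
  (nat_lit 19933) (nat_lit 10) nil nil)))) (node (nat_lit 7) (nat_lit 21632) (nat_lit 9) nil (node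
  (nat_lit 0) (nat_lit 20974) (nat_lit 9) nil nil))) (node (nat_lit 7) (nat_lit 22181) (nat_lit 8)
  (node (nat_lit 10) (nat_lit 22181) (nat_lit 9) nil (node (nat_lit 4) (nat_lit 22181) (nat_lit 9)
  (node (nat_lit 7) (nat_lit 22406) (nat_lit 10) nil nil) nil)) (node (nat_lit 0) (nat_lit 21555)
  (nat_lit 8) nil nil)))) (node (nat_lit 0) (nat_lit 21252) (nat_lit 7) (node (nat_lit 4) (nat_lit
  21252) (nat_lit 8) (node (nat_lit 7) (nat_lit 21541) (nat_lit 9) nil nil) (node (nat_lit 5)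
  (nat_lit 21252) (nat_lit 8) nil (node (nat_lit 7) (nat_lit 21747) (nat_lit 8) nil (node (nat_lit
  3) (nat_lit 21252) (nat_lit 8) nil (node (nat_lit 0) (nat_lit 21719) (nat_lit 8) nil nil)))))
  nil))) (node (nat_lit 7) (nat_lit 19962) (nat_lit 6) (node (nat_lit 4) (nat_lit 19962) (nat_lit
  7) (node (nat_lit 7) (nat_lit 21035) (nat_lit 8) (node (nat_lit 5) (nat_lit 21035) (nat_lit 9)
  nil nil) (node (nat_lit 5) (nat_lit 19962) (nat_lit 8) (node (nat_lit 7) (nat_lit 21399)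
  (nat_lit 9) (node (nat_lit 5) (nat_lit 21399) (nat_lit 10) (node (nat_lit 4) (nat_lit 21399)
  (nat_lit 11) (node (nat_lit 7) (nat_lit 21635) (nat_lit 12) nil nil) nil) nil) nil) nil)) (node
  (nat_lit 3) (nat_lit 19962) (nat_lit 7) nil nil)) (node (nat_lit 3) (nat_lit 15126) (nat_lit 6)
  (node (nat_lit 7) (nat_lit 16802) (nat_lit 7) nil (node (nat_lit 4) (nat_lit 15126) (nat_lit 7)
  nil nil)) (node (nat_lit 0) (nat_lit 17237) (nat_lit 6) (node (nat_lit 5) (nat_lit 17237)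
  (nat_lit 7) nil nil) nil)))) (node (nat_lit 4) (nat_lit 0) (nat_lit 5) (node (nat_lit 5)
  (nat_lit 15500) (nat_lit 6) (node (nat_lit 7) (nat_lit 21468) (nat_lit 7) (node (nat_lit 5)
  (nat_lit 21468) (nat_lit 8) (node (nat_lit 4) (nat_lit 21468) (nat_lit 9) (node (nat_lit 7)
  (nat_lit 22688) (nat_lit 10) (node (nat_lit 4) (nat_lit 22688) (nat_lit 11) (node (nat_lit 5)
  (nat_lit 22688) (nat_lit 12) (node (nat_lit 4) (nat_lit 22688) (nat_lit 13) (node (nat_lit 7)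
  (nat_lit 23263) (nat_lit 14) (node (nat_lit 5) (nat_lit 23263) (nat_lit 15) (node (nat_lit 4)
  (nat_lit 23263) (nat_lit 16) nil (node (nat_lit 7) (nat_lit 23314) (nat_lit 16) nil nil)) nil)
  (node (nat_lit 3) (nat_lit 22688) (nat_lit 14) (node (nat_lit 4) (nat_lit 22688) (nat_lit 15)
  nil (node (nat_lit 5) (nat_lit 22688) (nat_lit 15) (node (nat_lit 4) (nat_lit 22688) (nat_lit
  16) nil nil) (node (nat_lit 7) (nat_lit 22938) (nat_lit 15) nil nil))) (node (nat_lit 0)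
  (nat_lit 23167) (nat_lit 14) nil nil))) (node (nat_lit 3) (nat_lit 22688) (nat_lit 13) (node
  (nat_lit 4) (nat_lit 22688) (nat_lit 14) nil nil) (node (nat_lit 0) (nat_lit 22872) (nat_lit 13)
  nil nil))) nil) nil) nil) nil) (node (nat_lit 4) (nat_lit 21468) (nat_lit 8) nil nil)) (node
  (nat_lit 3) (nat_lit 15500) (nat_lit 7) nil (node (nat_lit 0) (nat_lit 17354) (nat_lit 7) nil
  nil))) (node (nat_lit 3) (nat_lit 15106) (nat_lit 6) nil (node (nat_lit 0) (nat_lit 16933)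
  (nat_lit 6) nil nil))) (node (nat_lit 3) (nat_lit 15027) (nat_lit 5) (node (nat_lit 4) (nat_lit
  15027) (nat_lit 6) (node (nat_lit 5) (nat_lit 15027) (nat_lit 7) (node (nat_lit 8) (nat_lit
  15027) (nat_lit 8) nil nil) (node (nat_lit 8) (nat_lit 15027) (nat_lit 7) (node (nat_lit 7)
  (nat_lit 15954) (nat_lit 8) nil nil) (node (nat_lit 0) (nat_lit 15859) (nat_lit 7) nil nil)))
  (node (nat_lit 5) (nat_lit 15027) (nat_lit 6) nil (node (nat_lit 7) (nat_lit 16459) (nat_lit 6)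
  nil (node (nat_lit 0) (nat_lit 15739) (nat_lit 6) nil nil)))) (node (nat_lit 0) (nat_lit 17036)
  (nat_lit 5) (node (nat_lit 4) (nat_lit 17036) (nat_lit 6) nil (node (nat_lit 5) (nat_lit 17036)
  (nat_lit 6) nil (node (nat_lit 7) (nat_lit 17321) (nat_lit 6) nil (node (nat_lit 3) (nat_lit
  17036) (nat_lit 6) nil (node (nat_lit 0) (nat_lit 17321) (nat_lit 6) nil nil))))) nil)))) nil)
  (node (nat_lit 3) (nat_lit 0) (nat_lit 3) (node (nat_lit 0) (nat_lit 0) (nat_lit 4) (node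
  (nat_lit 5) (nat_lit 0) (nat_lit 5) (node (nat_lit 6) (nat_lit 25706) (nat_lit 6) (node (nat_lit
  5) (nat_lit 25858) (nat_lit 7) (node (nat_lit 7) (nat_lit 35061) (nat_lit 8) (node (nat_lit 5)
  (nat_lit 35061) (nat_lit 9) (node (nat_lit 6) (nat_lit 35061) (nat_lit 10) (node (nat_lit 7)
  (nat_lit 35132) (nat_lit 11) (node (nat_lit 6) (nat_lit 35132) (nat_lit 12) (node (nat_lit 5)
  (nat_lit 35132) (nat_lit 13) (node (nat_lit 6) (nat_lit 35132) (nat_lit 14) (node (nat_lit 7)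
  (nat_lit 35132) (nat_lit 15) nil nil) nil) nil) (node (nat_lit 5) (nat_lit 35132) (nat_lit 12)
  nil nil)) (node (nat_lit 4) (nat_lit 35061) (nat_lit 11) (node (nat_lit 6) (nat_lit 35061)
  (nat_lit 12) nil nil) (node (nat_lit 0) (nat_lit 35132) (nat_lit 11) nil nil))) (node (nat_lit
  4) (nat_lit 35061) (nat_lit 10) (node (nat_lit 7) (nat_lit 35132) (nat_lit 11) (node (nat_lit 5)
  (nat_lit 35132) (nat_lit 12) nil nil) (node (nat_lit 5) (nat_lit 35061) (nat_lit 11) nil (node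
  (nat_lit 6) (nat_lit 35061) (nat_lit 11) nil (node (nat_lit 0) (nat_lit 35132) (nat_lit 11) nil
  nil)))) (node (nat_lit 0) (nat_lit 35132) (nat_lit 10) (node (nat_lit 7) (nat_lit 35132)
  (nat_lit 11) (node (nat_lit 5) (nat_lit 35132) (nat_lit 12) nil nil) (node (nat_lit 5) (nat_lit
  35132) (nat_lit 11) nil nil)) nil))) (node (nat_lit 6) (nat_lit 35061) (nat_lit 9) (node
  (nat_lit 5) (nat_lit 35061) (nat_lit 10) (node (nat_lit 6) (nat_lit 35061) (nat_lit 11) nil nil)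
  (node (nat_lit 7) (nat_lit 35132) (nat_lit 10) (node (nat_lit 5) (nat_lit 35132) (nat_lit 11)
  nil nil) (node (nat_lit 4) (nat_lit 35061) (nat_lit 10) nil (node (nat_lit 0) (nat_lit 35132)
  (nat_lit 10) nil nil)))) (node (nat_lit 4) (nat_lit 35061) (nat_lit 9) nil (node (nat_lit 0)
  (nat_lit 35132) (nat_lit 9) nil nil)))) (node (nat_lit 4) (nat_lit 25885) (nat_lit 8) (node
  (nat_lit 6) (nat_lit 25885) (nat_lit 9) (node (nat_lit 4) (nat_lit 25885) (nat_lit 10) (node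
  (nat_lit 5) (nat_lit 25885) (nat_lit 11) (node (nat_lit 6) (nat_lit 25528) (nat_lit 12) nil
  (node (nat_lit 4) (nat_lit 26900) (nat_lit 12) nil nil)) (node (nat_lit 7) (nat_lit 30769)
  (nat_lit 11) nil (node (nat_lit 0) (nat_lit 29982) (nat_lit 11) nil nil))) (node (nat_lit 5)
  (nat_lit 25885) (nat_lit 10) (node (nat_lit 6) (nat_lit 25885) (nat_lit 11) (node (nat_lit 4)
  (nat_lit 26627) (nat_lit 12) nil nil) (node (nat_lit 7) (nat_lit 30769) (nat_lit 11) nil nil))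
  (node (nat_lit 7) (nat_lit 31340) (nat_lit 10) nil (node (nat_lit 0) (nat_lit 31340) (nat_lit
  10) nil nil)))) (node (nat_lit 7) (nat_lit 33532) (nat_lit 9) (node (nat_lit 6) (nat_lit 33532)
  (nat_lit 10) nil nil) (node (nat_lit 5) (nat_lit 25885) (nat_lit 9) (node (nat_lit 6) (nat_lit
  25885) (nat_lit 10) (node (nat_lit 4) (nat_lit 25885) (nat_lit 11) nil (node (nat_lit 5)
  (nat_lit 25885) (nat_lit 11) nil (node (nat_lit 7) (nat_lit 20205) (nat_lit 11) nil nil))) (node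
  (nat_lit 7) (nat_lit 29745) (nat_lit 10) nil (node (nat_lit 0) (nat_lit 28327) (nat_lit 10) nil
  nil))) (node (nat_lit 0) (nat_lit 32883) (nat_lit 9) nil nil)))) (node (nat_lit 0) (nat_lit
  34696) (nat_lit 8) (node (nat_lit 6) (nat_lit 34696) (nat_lit 9) nil (node (nat_lit 4) (nat_lit
  34696) (nat_lit 9) nil (node (nat_lit 7) (nat_lit 35002) (nat_lit 9) nil (node (nat_lit 5)
  (nat_lit 34696) (nat_lit 9) nil (node (nat_lit 0) (nat_lit 34925) (nat_lit 9) nil nil)))))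
  nil))) (node (nat_lit 4) (nat_lit 25733) (nat_lit 7) (node (nat_lit 7) (nat_lit 34696) (nat_lit
  8) (node (nat_lit 6) (nat_lit 34696) (nat_lit 9) (node (nat_lit 5) (nat_lit 34696) (nat_lit 10)
  nil (node (nat_lit 7) (nat_lit 35012) (nat_lit 10) nil (node (nat_lit 4) (nat_lit 34696)
  (nat_lit 10) nil nil))) (node (nat_lit 5) (nat_lit 34696) (nat_lit 9) (node (nat_lit 7) (nat_lit
  35012) (nat_lit 10) nil (node (nat_lit 4) (nat_lit 34696) (nat_lit 10) nil (node (nat_lit 0)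
  (nat_lit 35012) (nat_lit 10) nil nil))) (node (nat_lit 4) (nat_lit 34696) (nat_lit 9) (node
  (nat_lit 5) (nat_lit 34696) (nat_lit 10) nil (node (nat_lit 6) (nat_lit 34696) (nat_lit 10) nil
  nil)) (node (nat_lit 0) (nat_lit 34925) (nat_lit 9) nil nil)))) (node (nat_lit 5) (nat_lit
  25778) (nat_lit 8) (node (nat_lit 4) (nat_lit 25778) (nat_lit 9) (node (nat_lit 6) (nat_lit
  25778) (nat_lit 10) (node (nat_lit 5) (nat_lit 25778) (nat_lit 11) (node (nat_lit 6) (nat_lit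
  26520) (nat_lit 12) nil nil) (node (nat_lit 4) (nat_lit 25778) (nat_lit 11) (node (nat_lit 5)
  (nat_lit 26520) (nat_lit 12) nil nil) (node (nat_lit 7) (nat_lit 28368) (nat_lit 11) nil nil)))
  (node (nat_lit 7) (nat_lit 30827) (nat_lit 10) nil (node (nat_lit 0) (nat_lit 30379) (nat_lit
  10) nil nil))) (node (nat_lit 7) (nat_lit 33611) (nat_lit 9) (node (nat_lit 4) (nat_lit 33611)
  (nat_lit 10) nil (node (nat_lit 5) (nat_lit 33611) (nat_lit 10) nil nil)) (node (nat_lit 6)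
  (nat_lit 25778) (nat_lit 9) (node (nat_lit 5) (nat_lit 25778) (nat_lit 10) (node (nat_lit 4)
  (nat_lit 25778) (nat_lit 11) (node (nat_lit 6) (nat_lit 26538) (nat_lit 12) nil nil) nil) (node
  (nat_lit 7) (nat_lit 22484) (nat_lit 10) nil nil)) (node (nat_lit 0) (nat_lit 31210) (nat_lit 9)
  nil nil)))) (node (nat_lit 6) (nat_lit 25696) (nat_lit 8) (node (nat_lit 5) (nat_lit 25696)
  (nat_lit 9) (node (nat_lit 4) (nat_lit 25696) (nat_lit 10) (node (nat_lit 6) (nat_lit 25696)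
  (nat_lit 11) (node (nat_lit 4) (nat_lit 26438) (nat_lit 12) nil nil) (node (nat_lit 5) (nat_lit
  25696) (nat_lit 11) (node (nat_lit 6) (nat_lit 25339) (nat_lit 12) nil nil) nil)) (node (nat_lit
  6) (nat_lit 25696) (nat_lit 10) (node (nat_lit 4) (nat_lit 25696) (nat_lit 11) (node (nat_lit 5)
  (nat_lit 25727) (nat_lit 12) nil (node (nat_lit 7) (nat_lit 28401) (nat_lit 12) nil nil)) (node
  (nat_lit 0) (nat_lit 28286) (nat_lit 11) nil nil)) (node (nat_lit 7) (nat_lit 30296) (nat_lit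
  10) nil (node (nat_lit 0) (nat_lit 28138) (nat_lit 10) nil nil)))) (node (nat_lit 7) (nat_lit
  32650) (nat_lit 9) nil (node (nat_lit 0) (nat_lit 31487) (nat_lit 9) nil nil))) (node (nat_lit
  0) (nat_lit 33018) (nat_lit 8) nil nil)))) (node (nat_lit 0) (nat_lit 33918) (nat_lit 7) (node
  (nat_lit 6) (nat_lit 33918) (nat_lit 8) nil (node (nat_lit 5) (nat_lit 33918) (nat_lit 8) (node
  (nat_lit 7) (nat_lit 34471) (nat_lit 9) nil (node (nat_lit 4) (nat_lit 33918) (nat_lit 9) nil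
  nil)) (node (nat_lit 4) (nat_lit 33918) (nat_lit 8) nil (node (nat_lit 7) (nat_lit 34692)
  (nat_lit 8) nil (node (nat_lit 0) (nat_lit 34632) (nat_lit 8) nil nil))))) nil))) (node (nat_lit
  4) (nat_lit 24146) (nat_lit 6) (node (nat_lit 7) (nat_lit 25642) (nat_lit 7) nil (node (nat_lit
  6) (nat_lit 24146) (nat_lit 7) nil nil)) (node (nat_lit 7) (nat_lit 27355) (nat_lit 6) (node
  (nat_lit 6) (nat_lit 27355) (nat_lit 7) nil nil) (node (nat_lit 0) (nat_lit 26479) (nat_lit 6)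
  (node (nat_lit 5) (nat_lit 26479) (nat_lit 7) nil nil) nil)))) (node (nat_lit 4) (nat_lit 0)
  (nat_lit 5) (node (nat_lit 6) (nat_lit 23759) (nat_lit 6) (node (nat_lit 4) (nat_lit 23759)
  (nat_lit 7) (node (nat_lit 7) (nat_lit 25437) (nat_lit 8) nil (node (nat_lit 5) (nat_lit 23759)
  (nat_lit 8) nil nil)) (node (nat_lit 5) (nat_lit 23759) (nat_lit 7) (node (nat_lit 4) (nat_lit
  23759) (nat_lit 8) nil (node (nat_lit 7) (nat_lit 25437) (nat_lit 8) nil (node (nat_lit 0)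
  (nat_lit 25437) (nat_lit 8) nil nil))) (node (nat_lit 0) (nat_lit 26071) (nat_lit 7) nil nil)))
  (node (nat_lit 7) (nat_lit 25659) (nat_lit 6) nil (node (nat_lit 5) (nat_lit 23827) (nat_lit 6)
  nil (node (nat_lit 0) (nat_lit 25659) (nat_lit 6) nil nil)))) (node (nat_lit 6) (nat_lit 0)
  (nat_lit 5) (node (nat_lit 5) (nat_lit 24186) (nat_lit 6) (node (nat_lit 7) (nat_lit 30555)
  (nat_lit 7) (node (nat_lit 5) (nat_lit 30555) (nat_lit 8) (node (nat_lit 6) (nat_lit 30555)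
  (nat_lit 9) (node (nat_lit 7) (nat_lit 31741) (nat_lit 10) (node (nat_lit 6) (nat_lit 31741)
  (nat_lit 11) (node (nat_lit 5) (nat_lit 31741) (nat_lit 12) (node (nat_lit 6) (nat_lit 31741)
  (nat_lit 13) (node (nat_lit 7) (nat_lit 32164) (nat_lit 14) (node (nat_lit 5) (nat_lit 32164)
  (nat_lit 15) nil nil) (node (nat_lit 4) (nat_lit 31741) (nat_lit 14) (node (nat_lit 5) (nat_lit
  31741) (nat_lit 15) nil (node (nat_lit 6) (nat_lit 31741) (nat_lit 15) nil nil)) (node (nat_lit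
  0) (nat_lit 32164) (nat_lit 14) nil nil))) (node (nat_lit 4) (nat_lit 31741) (nat_lit 13) (node
  (nat_lit 5) (nat_lit 31741) (nat_lit 14) nil (node (nat_lit 6) (nat_lit 31741) (nat_lit 14) nil
  nil)) (node (nat_lit 0) (nat_lit 32094) (nat_lit 13) nil nil))) nil) nil) nil) nil) nil) nil)
  (node (nat_lit 4) (nat_lit 23955) (nat_lit 6) nil (node (nat_lit 0) (nat_lit 26074) (nat_lit 6)
  nil nil))) (node (nat_lit 0) (nat_lit 27040) (nat_lit 5) (node (nat_lit 6) (nat_lit 27040)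
  (nat_lit 6) nil (node (nat_lit 5) (nat_lit 27040) (nat_lit 6) nil (node (nat_lit 4) (nat_lit
  27040) (nat_lit 6) nil (node (nat_lit 7) (nat_lit 27585) (nat_lit 6) nil (node (nat_lit 0)
  (nat_lit 27585) (nat_lit 6) nil nil))))) nil)))) nil) nil))

noncomputable def t298 : Tr :=
  (node (nat_lit 5) (nat_lit 0) (nat_lit 4) (node (nat_lit 4) (nat_lit 53831) (nat_lit 5) (node
  (nat_lit 6) (nat_lit 53831) (nat_lit 6) (node (nat_lit 4) (nat_lit 53831) (nat_lit 7) (node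
  (nat_lit 5) (nat_lit 62404) (nat_lit 8) (node (nat_lit 6) (nat_lit 62404) (nat_lit 9) (node
  (nat_lit 5) (nat_lit 51006) (nat_lit 10) (node (nat_lit 4) (nat_lit 31810) (nat_lit 11) nil
  (node (nat_lit 3) (nat_lit 51006) (nat_lit 11) (node (nat_lit 6) (nat_lit 51006) (nat_lit 12)
  nil (node (nat_lit 5) (nat_lit 51439) (nat_lit 12) nil nil)) (node (nat_lit 0) (nat_lit 51250)
  (nat_lit 11) (node (nat_lit 5) (nat_lit 51439) (nat_lit 12) nil nil) nil))) (node (nat_lit 4)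
  (nat_lit 62404) (nat_lit 10) (node (nat_lit 6) (nat_lit 62404) (nat_lit 11) (node (nat_lit 5)
  (nat_lit 63153) (nat_lit 12) nil nil) nil) (node (nat_lit 0) (nat_lit 63004) (nat_lit 10) nil
  (node (nat_lit 3) (nat_lit 62404) (nat_lit 10) nil nil)))) (node (nat_lit 4) (nat_lit 62404)
  (nat_lit 9) (node (nat_lit 6) (nat_lit 62404) (nat_lit 10) (node (nat_lit 5) (nat_lit 63089)
  (nat_lit 11) nil (node (nat_lit 3) (nat_lit 62404) (nat_lit 11) (node (nat_lit 6) (nat_lit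
  62404) (nat_lit 12) nil (node (nat_lit 4) (nat_lit 62404) (nat_lit 12) nil nil)) (node (nat_lit
  0) (nat_lit 63089) (nat_lit 11) nil nil))) (node (nat_lit 0) (nat_lit 63004) (nat_lit 10) nil
  (node (nat_lit 3) (nat_lit 62404) (nat_lit 10) (node (nat_lit 4) (nat_lit 62404) (nat_lit 11)
  nil nil) nil))) (node (nat_lit 3) (nat_lit 62404) (nat_lit 9) (node (nat_lit 4) (nat_lit 62404)
  (nat_lit 10) nil (node (nat_lit 6) (nat_lit 62404) (nat_lit 10) nil (node (nat_lit 5) (nat_lit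
  63004) (nat_lit 10) nil nil))) (node (nat_lit 0) (nat_lit 62896) (nat_lit 9) nil nil)))) (node
  (nat_lit 3) (nat_lit 55362) (nat_lit 8) (node (nat_lit 6) (nat_lit 55362) (nat_lit 9) (node
  (nat_lit 4) (nat_lit 55362) (nat_lit 10) (node (nat_lit 6) (nat_lit 55326) (nat_lit 11) (node
  (nat_lit 11) (nat_lit 58272) (nat_lit 12) (node (nat_lit 4) (nat_lit 58787) (nat_lit 13) (node
  (nat_lit 5) (nat_lit 60543) (nat_lit 14) nil (node (nat_lit 6) (nat_lit 58647) (nat_lit 14) nil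
  (node (nat_lit 11) (nat_lit 58370) (nat_lit 14) nil nil))) (node (nat_lit 6) (nat_lit 59422)
  (nat_lit 13) (node (nat_lit 4) (nat_lit 59587) (nat_lit 14) (node (nat_lit 5) (nat_lit 60441)
  (nat_lit 15) nil nil) nil) (node (nat_lit 5) (nat_lit 60557) (nat_lit 13) nil (node (nat_lit 0)
  (nat_lit 60557) (nat_lit 13) nil nil)))) (node (nat_lit 5) (nat_lit 62218) (nat_lit 12) nil
  (node (nat_lit 0) (nat_lit 60591) (nat_lit 12) nil nil))) (node (nat_lit 5) (nat_lit 61953)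
  (nat_lit 11) nil (node (nat_lit 0) (nat_lit 61953) (nat_lit 11) nil nil))) (node (nat_lit 11)
  (nat_lit 55362) (nat_lit 10) (node (nat_lit 4) (nat_lit 55370) (nat_lit 11) (node (nat_lit 6)
  (nat_lit 58088) (nat_lit 12) (node (nat_lit 4) (nat_lit 57595) (nat_lit 13) nil (node (nat_lit
  5) (nat_lit 60373) (nat_lit 13) nil (node (nat_lit 11) (nat_lit 58585) (nat_lit 13) nil nil)))
  (node (nat_lit 11) (nat_lit 57457) (nat_lit 12) (node (nat_lit 6) (nat_lit 57961) (nat_lit 13)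
  (node (nat_lit 4) (nat_lit 57716) (nat_lit 14) nil nil) nil) (node (nat_lit 5) (nat_lit 58383)
  (nat_lit 12) nil (node (nat_lit 0) (nat_lit 58383) (nat_lit 12) nil nil)))) (node (nat_lit 5)
  (nat_lit 61953) (nat_lit 11) nil (node (nat_lit 0) (nat_lit 61953) (nat_lit 11) nil nil))) (node
  (nat_lit 5) (nat_lit 61566) (nat_lit 10) nil (node (nat_lit 0) (nat_lit 61566) (nat_lit 10) nil
  nil)))) (node (nat_lit 4) (nat_lit 55362) (nat_lit 9) (node (nat_lit 6) (nat_lit 55362) (nat_lit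
  10) (node (nat_lit 11) (nat_lit 55379) (nat_lit 11) (node (nat_lit 4) (nat_lit 57306) (nat_lit
  12) (node (nat_lit 11) (nat_lit 57484) (nat_lit 13) nil nil) (node (nat_lit 6) (nat_lit 56643)
  (nat_lit 12) (node (nat_lit 4) (nat_lit 56918) (nat_lit 13) nil nil) (node (nat_lit 5) (nat_lit
  58391) (nat_lit 12) nil (node (nat_lit 0) (nat_lit 58391) (nat_lit 12) nil nil)))) (node
  (nat_lit 5) (nat_lit 61947) (nat_lit 11) nil (node (nat_lit 4) (nat_lit 55362) (nat_lit 11)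
  (node (nat_lit 5) (nat_lit 58374) (nat_lit 12) nil nil) (node (nat_lit 0) (nat_lit 60398)
  (nat_lit 11) nil nil)))) (node (nat_lit 5) (nat_lit 61566) (nat_lit 10) nil (node (nat_lit 0)
  (nat_lit 61566) (nat_lit 10) nil nil))) (node (nat_lit 5) (nat_lit 62220) (nat_lit 9) (node
  (nat_lit 11) (nat_lit 62220) (nat_lit 10) nil nil) (node (nat_lit 0) (nat_lit 62220) (nat_lit 9)
  nil nil)))) (node (nat_lit 0) (nat_lit 62552) (nat_lit 8) (node (nat_lit 6) (nat_lit 62552)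
  (nat_lit 9) nil (node (nat_lit 4) (nat_lit 62552) (nat_lit 9) nil (node (nat_lit 5) (nat_lit
  62738) (nat_lit 9) nil (node (nat_lit 3) (nat_lit 62552) (nat_lit 9) nil (node (nat_lit 0)
  (nat_lit 62738) (nat_lit 9) nil nil))))) nil))) (node (nat_lit 3) (nat_lit 56089) (nat_lit 7)
  (node (nat_lit 4) (nat_lit 56089) (nat_lit 8) (node (nat_lit 10) (nat_lit 56089) (nat_lit 9)
  (node (nat_lit 6) (nat_lit 56089) (nat_lit 10) (node (nat_lit 4) (nat_lit 56089) (nat_lit 11)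
  (node (nat_lit 6) (nat_lit 57411) (nat_lit 12) (node (nat_lit 10) (nat_lit 57189) (nat_lit 13)
  nil nil) nil) (node (nat_lit 10) (nat_lit 56089) (nat_lit 11) (node (nat_lit 4) (nat_lit 57362)
  (nat_lit 12) (node (nat_lit 6) (nat_lit 57678) (nat_lit 13) nil nil) (node (nat_lit 5) (nat_lit
  59101) (nat_lit 12) nil nil)) (node (nat_lit 5) (nat_lit 58974) (nat_lit 11) nil (node (nat_lit
  0) (nat_lit 58974) (nat_lit 11) nil nil)))) (node (nat_lit 5) (nat_lit 61732) (nat_lit 10) nil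
  (node (nat_lit 0) (nat_lit 61732) (nat_lit 10) nil nil))) (node (nat_lit 6) (nat_lit 56089)
  (nat_lit 9) (node (nat_lit 4) (nat_lit 56089) (nat_lit 10) (node (nat_lit 10) (nat_lit 56089)
  (nat_lit 11) (node (nat_lit 6) (nat_lit 55645) (nat_lit 12) nil nil) (node (nat_lit 5) (nat_lit
  58974) (nat_lit 11) nil nil)) (node (nat_lit 5) (nat_lit 61507) (nat_lit 10) nil (node (nat_lit
  0) (nat_lit 58809) (nat_lit 10) nil nil))) (node (nat_lit 5) (nat_lit 61283) (nat_lit 9) nil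
  (node (nat_lit 0) (nat_lit 61283) (nat_lit 9) nil nil)))) (node (nat_lit 6) (nat_lit 56089)
  (nat_lit 8) (node (nat_lit 4) (nat_lit 56089) (nat_lit 9) (node (nat_lit 10) (nat_lit 56089)
  (nat_lit 10) (node (nat_lit 4) (nat_lit 56089) (nat_lit 11) (node (nat_lit 6) (nat_lit 55645)
  (nat_lit 12) nil nil) (node (nat_lit 6) (nat_lit 56089) (nat_lit 11) (node (nat_lit 10) (nat_lit
  57364) (nat_lit 12) (node (nat_lit 4) (nat_lit 57605) (nat_lit 13) nil nil) (node (nat_lit 0)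
  (nat_lit 59101) (nat_lit 12) nil (node (nat_lit 5) (nat_lit 59101) (nat_lit 12) nil nil))) (node
  (nat_lit 5) (nat_lit 58974) (nat_lit 11) nil (node (nat_lit 0) (nat_lit 58974) (nat_lit 11) nil
  nil)))) (node (nat_lit 6) (nat_lit 56089) (nat_lit 10) (node (nat_lit 10) (nat_lit 56096)
  (nat_lit 11) (node (nat_lit 4) (nat_lit 57615) (nat_lit 12) (node (nat_lit 10) (nat_lit 57346)
  (nat_lit 13) (node (nat_lit 6) (nat_lit 56750) (nat_lit 14) nil nil) (node (nat_lit 6) (nat_lit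
  56674) (nat_lit 13) nil nil)) (node (nat_lit 5) (nat_lit 59109) (nat_lit 12) nil (node (nat_lit
  0) (nat_lit 59109) (nat_lit 12) nil nil))) (node (nat_lit 5) (nat_lit 58974) (nat_lit 11) nil
  nil)) (node (nat_lit 5) (nat_lit 58809) (nat_lit 10) nil (node (nat_lit 0) (nat_lit 58809)
  (nat_lit 10) nil nil)))) (node (nat_lit 5) (nat_lit 61283) (nat_lit 9) nil (node (nat_lit 0)
  (nat_lit 61283) (nat_lit 9) nil nil))) (node (nat_lit 5) (nat_lit 61799) (nat_lit 8) nil (node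
  (nat_lit 0) (nat_lit 61799) (nat_lit 8) nil nil)))) (node (nat_lit 0) (nat_lit 62228) (nat_lit
  7) (node (nat_lit 5) (nat_lit 62464) (nat_lit 8) nil (node (nat_lit 6) (nat_lit 62228) (nat_lit
  8) nil (node (nat_lit 4) (nat_lit 62228) (nat_lit 8) nil (node (nat_lit 3) (nat_lit 62228)
  (nat_lit 8) nil (node (nat_lit 0) (nat_lit 62464) (nat_lit 8) nil nil))))) (node (nat_lit 5)
  (nat_lit 58861) (nat_lit 7) nil nil)))) (node (nat_lit 5) (nat_lit 60054) (nat_lit 6) (node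
  (nat_lit 6) (nat_lit 60054) (nat_lit 7) (node (nat_lit 4) (nat_lit 60054) (nat_lit 8) (node
  (nat_lit 5) (nat_lit 62396) (nat_lit 9) (node (nat_lit 4) (nat_lit 62396) (nat_lit 10) nil nil)
  (node (nat_lit 6) (nat_lit 60054) (nat_lit 9) (node (nat_lit 5) (nat_lit 61947) (nat_lit 10) nil
  (node (nat_lit 3) (nat_lit 60054) (nat_lit 10) nil (node (nat_lit 0) (nat_lit 61947) (nat_lit
  10) nil nil))) (node (nat_lit 3) (nat_lit 60054) (nat_lit 9) nil (node (nat_lit 0) (nat_lit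
  61634) (nat_lit 9) nil nil)))) (node (nat_lit 3) (nat_lit 61024) (nat_lit 8) nil (node (nat_lit
  0) (nat_lit 62737) (nat_lit 8) nil nil))) (node (nat_lit 3) (nat_lit 61471) (nat_lit 7) (node
  (nat_lit 4) (nat_lit 61471) (nat_lit 8) (node (nat_lit 10) (nat_lit 61471) (nat_lit 9) nil nil)
  (node (nat_lit 6) (nat_lit 61471) (nat_lit 8) nil (node (nat_lit 5) (nat_lit 62276) (nat_lit 8)
  nil (node (nat_lit 0) (nat_lit 62276) (nat_lit 8) nil nil)))) (node (nat_lit 0) (nat_lit 62425)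
  (nat_lit 7) nil nil))) (node (nat_lit 3) (nat_lit 56089) (nat_lit 6) (node (nat_lit 6) (nat_lit
  56089) (nat_lit 7) (node (nat_lit 4) (nat_lit 56089) (nat_lit 8) (node (nat_lit 6) (nat_lit
  56089) (nat_lit 9) (node (nat_lit 9) (nat_lit 56089) (nat_lit 10) nil nil) (node (nat_lit 9)
  (nat_lit 56089) (nat_lit 9) nil nil)) (node (nat_lit 9) (nat_lit 56089) (nat_lit 8) (node
  (nat_lit 5) (nat_lit 58598) (nat_lit 9) nil nil) (node (nat_lit 5) (nat_lit 59736) (nat_lit 8)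
  nil (node (nat_lit 0) (nat_lit 58328) (nat_lit 8) nil nil)))) (node (nat_lit 4) (nat_lit 56089)
  (nat_lit 7) (node (nat_lit 5) (nat_lit 59736) (nat_lit 8) nil (node (nat_lit 6) (nat_lit 56089)
  (nat_lit 8) nil (node (nat_lit 0) (nat_lit 58328) (nat_lit 8) nil nil))) (node (nat_lit 5)
  (nat_lit 61081) (nat_lit 7) (node (nat_lit 4) (nat_lit 61081) (nat_lit 8) nil (node (nat_lit 9)
  (nat_lit 61081) (nat_lit 8) nil nil)) (node (nat_lit 0) (nat_lit 60552) (nat_lit 7) nil nil))))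
  (node (nat_lit 0) (nat_lit 61135) (nat_lit 6) (node (nat_lit 5) (nat_lit 61593) (nat_lit 7) nil
  (node (nat_lit 6) (nat_lit 61135) (nat_lit 7) nil (node (nat_lit 4) (nat_lit 61135) (nat_lit 7)
  nil (node (nat_lit 3) (nat_lit 61135) (nat_lit 7) nil (node (nat_lit 0) (nat_lit 61593) (nat_lit
  7) nil nil))))) nil)))) (node (nat_lit 3) (nat_lit 56089) (nat_lit 5) (node (nat_lit 6) (nat_lit
  56089) (nat_lit 6) (node (nat_lit 8) (nat_lit 56089) (nat_lit 7) (node (nat_lit 5) (nat_lit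
  62301) (nat_lit 8) (node (nat_lit 8) (nat_lit 62301) (nat_lit 9) (node (nat_lit 6) (nat_lit
  62301) (nat_lit 10) (node (nat_lit 5) (nat_lit 62931) (nat_lit 11) nil nil) nil) (node (nat_lit
  6) (nat_lit 62301) (nat_lit 9) nil nil)) (node (nat_lit 4) (nat_lit 56089) (nat_lit 8) (node
  (nat_lit 6) (nat_lit 56089) (nat_lit 9) (node (nat_lit 4) (nat_lit 56089) (nat_lit 10) (node
  (nat_lit 8) (nat_lit 56089) (nat_lit 11) (node (nat_lit 4) (nat_lit 55766) (nat_lit 12) nil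
  (node (nat_lit 6) (nat_lit 56296) (nat_lit 12) nil nil)) nil) (node (nat_lit 8) (nat_lit 56089)
  (nat_lit 10) (node (nat_lit 6) (nat_lit 56089) (nat_lit 11) (node (nat_lit 5) (nat_lit 59101)
  (nat_lit 12) nil nil) (node (nat_lit 5) (nat_lit 58974) (nat_lit 11) nil nil)) (node (nat_lit 5)
  (nat_lit 58809) (nat_lit 10) nil (node (nat_lit 0) (nat_lit 58809) (nat_lit 10) nil nil))))
  (node (nat_lit 5) (nat_lit 60426) (nat_lit 9) nil (node (nat_lit 8) (nat_lit 56089) (nat_lit 9)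
  (node (nat_lit 6) (nat_lit 56089) (nat_lit 10) nil (node (nat_lit 5) (nat_lit 58809) (nat_lit
  10) nil (node (nat_lit 0) (nat_lit 58809) (nat_lit 10) nil nil))) (node (nat_lit 0) (nat_lit
  60426) (nat_lit 9) nil nil)))) (node (nat_lit 0) (nat_lit 61959) (nat_lit 8) (node (nat_lit 4)
  (nat_lit 61959) (nat_lit 9) nil (node (nat_lit 5) (nat_lit 62229) (nat_lit 9) nil nil)) nil)))
  (node (nat_lit 4) (nat_lit 56089) (nat_lit 7) (node (nat_lit 8) (nat_lit 56089) (nat_lit 8)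
  (node (nat_lit 5) (nat_lit 59993) (nat_lit 9) nil (node (nat_lit 4) (nat_lit 56089) (nat_lit 9)
  (node (nat_lit 6) (nat_lit 56089) (nat_lit 10) (node (nat_lit 4) (nat_lit 56089) (nat_lit 11)
  nil (node (nat_lit 8) (nat_lit 56089) (nat_lit 11) nil nil)) (node (nat_lit 5) (nat_lit 58809)
  (nat_lit 10) nil nil)) (node (nat_lit 6) (nat_lit 56089) (nat_lit 9) (node (nat_lit 8) (nat_lit
  56089) (nat_lit 10) (node (nat_lit 4) (nat_lit 56089) (nat_lit 11) nil nil) (node (nat_lit 5)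
  (nat_lit 58809) (nat_lit 10) nil nil)) (node (nat_lit 0) (nat_lit 58598) (nat_lit 9) nil nil))))
  (node (nat_lit 5) (nat_lit 59877) (nat_lit 8) nil (node (nat_lit 6) (nat_lit 56089) (nat_lit 8)
  (node (nat_lit 8) (nat_lit 56089) (nat_lit 9) (node (nat_lit 6) (nat_lit 56089) (nat_lit 10)
  (node (nat_lit 4) (nat_lit 56089) (nat_lit 11) (node (nat_lit 8) (nat_lit 56916) (nat_lit 12)
  nil nil) (node (nat_lit 5) (nat_lit 58974) (nat_lit 11) nil nil)) (node (nat_lit 4) (nat_lit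
  56089) (nat_lit 10) (node (nat_lit 6) (nat_lit 56089) (nat_lit 11) nil nil) (node (nat_lit 5)
  (nat_lit 58809) (nat_lit 10) nil nil))) (node (nat_lit 5) (nat_lit 59993) (nat_lit 9) nil (node
  (nat_lit 0) (nat_lit 58598) (nat_lit 9) nil nil))) (node (nat_lit 0) (nat_lit 60709) (nat_lit 8)
  nil nil)))) (node (nat_lit 5) (nat_lit 57982) (nat_lit 7) nil (node (nat_lit 0) (nat_lit 61167)
  (nat_lit 7) (node (nat_lit 5) (nat_lit 61513) (nat_lit 8) nil (node (nat_lit 8) (nat_lit 61167)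
  (nat_lit 8) nil nil)) nil)))) (node (nat_lit 4) (nat_lit 56089) (nat_lit 6) (node (nat_lit 6)
  (nat_lit 56089) (nat_lit 7) nil (node (nat_lit 8) (nat_lit 56089) (nat_lit 7) (node (nat_lit 5)
  (nat_lit 58328) (nat_lit 8) nil nil) nil)) (node (nat_lit 5) (nat_lit 59877) (nat_lit 6) (node
  (nat_lit 4) (nat_lit 59877) (nat_lit 7) nil nil) (node (nat_lit 0) (nat_lit 59014) (nat_lit 6)
  nil nil)))) (node (nat_lit 0) (nat_lit 59113) (nat_lit 5) (node (nat_lit 6) (nat_lit 59113)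
  (nat_lit 6) nil (node (nat_lit 4) (nat_lit 59113) (nat_lit 6) nil (node (nat_lit 5) (nat_lit
  59720) (nat_lit 6) nil (node (nat_lit 3) (nat_lit 59113) (nat_lit 6) nil (node (nat_lit 0)
  (nat_lit 59720) (nat_lit 6) nil nil))))) nil))) (node (nat_lit 3) (nat_lit 0) (nat_lit 4) (node
  (nat_lit 4) (nat_lit 38549) (nat_lit 5) (node (nat_lit 5) (nat_lit 36357) (nat_lit 6) (node
  (nat_lit 7) (nat_lit 36357) (nat_lit 7) nil (node (nat_lit 6) (nat_lit 26762) (nat_lit 7) nil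
  nil)) (node (nat_lit 6) (nat_lit 38982) (nat_lit 6) (node (nat_lit 4) (nat_lit 39078) (nat_lit
  7) (node (nat_lit 7) (nat_lit 39078) (nat_lit 8) (node (nat_lit 6) (nat_lit 39078) (nat_lit 9)
  (node (nat_lit 4) (nat_lit 44438) (nat_lit 10) (node (nat_lit 6) (nat_lit 47455) (nat_lit 11)
  (node (nat_lit 7) (nat_lit 44992) (nat_lit 12) nil nil) (node (nat_lit 5) (nat_lit 43076)
  (nat_lit 11) nil nil)) (node (nat_lit 7) (nat_lit 43503) (nat_lit 10) (node (nat_lit 4) (nat_lit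
  45014) (nat_lit 11) (node (nat_lit 7) (nat_lit 44691) (nat_lit 12) nil nil) (node (nat_lit 5)
  (nat_lit 47450) (nat_lit 11) nil nil)) (node (nat_lit 5) (nat_lit 44169) (nat_lit 10) nil (node
  (nat_lit 0) (nat_lit 44169) (nat_lit 10) nil nil)))) (node (nat_lit 4) (nat_lit 39096) (nat_lit
  9) (node (nat_lit 5) (nat_lit 46233) (nat_lit 10) (node (nat_lit 6) (nat_lit 41538) (nat_lit 11)
  nil nil) (node (nat_lit 6) (nat_lit 43494) (nat_lit 10) (node (nat_lit 7) (nat_lit 44266)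
  (nat_lit 11) (node (nat_lit 4) (nat_lit 44062) (nat_lit 12) nil nil) nil) (node (nat_lit 0)
  (nat_lit 49766) (nat_lit 10) nil nil))) (node (nat_lit 5) (nat_lit 49300) (nat_lit 9) nil (node
  (nat_lit 0) (nat_lit 49300) (nat_lit 9) nil nil)))) (node (nat_lit 5) (nat_lit 41696) (nat_lit
  8) (node (nat_lit 6) (nat_lit 38587) (nat_lit 9) nil nil) (node (nat_lit 0) (nat_lit 48726)
  (nat_lit 8) nil nil))) (node (nat_lit 7) (nat_lit 39065) (nat_lit 7) (node (nat_lit 6) (nat_lit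
  39088) (nat_lit 8) (node (nat_lit 4) (nat_lit 39104) (nat_lit 9) (node (nat_lit 6) (nat_lit
  45278) (nat_lit 10) (node (nat_lit 7) (nat_lit 48328) (nat_lit 11) (node (nat_lit 4) (nat_lit
  49911) (nat_lit 12) (node (nat_lit 7) (nat_lit 50856) (nat_lit 13) (node (nat_lit 6) (nat_lit
  50667) (nat_lit 14) nil nil) nil) nil) (node (nat_lit 5) (nat_lit 49224) (nat_lit 11) nil (node
  (nat_lit 0) (nat_lit 53457) (nat_lit 11) nil nil))) (node (nat_lit 7) (nat_lit 44917) (nat_lit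
  10) (node (nat_lit 4) (nat_lit 47652) (nat_lit 11) (node (nat_lit 6) (nat_lit 47552) (nat_lit
  12) (node (nat_lit 7) (nat_lit 48345) (nat_lit 13) (node (nat_lit 4) (nat_lit 46663) (nat_lit
  14) nil nil) nil) nil) (node (nat_lit 6) (nat_lit 47825) (nat_lit 11) (node (nat_lit 7) (nat_lit
  46717) (nat_lit 12) nil nil) (node (nat_lit 5) (nat_lit 48864) (nat_lit 11) nil nil))) (node
  (nat_lit 5) (nat_lit 49576) (nat_lit 10) (node (nat_lit 6) (nat_lit 46808) (nat_lit 11) nil nil)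
  (node (nat_lit 0) (nat_lit 49774) (nat_lit 10) nil nil)))) (node (nat_lit 5) (nat_lit 50817)
  (nat_lit 9) nil (node (nat_lit 0) (nat_lit 49310) (nat_lit 9) nil nil))) (node (nat_lit 5)
  (nat_lit 51548) (nat_lit 8) nil (node (nat_lit 0) (nat_lit 51548) (nat_lit 8) nil nil))) (node
  (nat_lit 5) (nat_lit 51858) (nat_lit 7) nil (node (nat_lit 0) (nat_lit 50897) (nat_lit 7) nil
  nil)))) (node (nat_lit 7) (nat_lit 38959) (nat_lit 6) (node (nat_lit 6) (nat_lit 39115) (nat_lit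
  7) (node (nat_lit 4) (nat_lit 39115) (nat_lit 8) (node (nat_lit 6) (nat_lit 39137) (nat_lit 9)
  (node (nat_lit 7) (nat_lit 44940) (nat_lit 10) (node (nat_lit 4) (nat_lit 47621) (nat_lit 11)
  (node (nat_lit 6) (nat_lit 48175) (nat_lit 12) (node (nat_lit 4) (nat_lit 46458) (nat_lit 13)
  nil nil) (node (nat_lit 5) (nat_lit 49443) (nat_lit 12) nil (node (nat_lit 7) (nat_lit 47298)
  (nat_lit 12) nil nil))) (node (nat_lit 6) (nat_lit 48839) (nat_lit 11) (node (nat_lit 4)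
  (nat_lit 48986) (nat_lit 12) (node (nat_lit 5) (nat_lit 50725) (nat_lit 13) nil nil) nil) (node
  (nat_lit 5) (nat_lit 48886) (nat_lit 11) nil (node (nat_lit 0) (nat_lit 48886) (nat_lit 11) nil
  nil)))) (node (nat_lit 5) (nat_lit 49808) (nat_lit 10) nil (node (nat_lit 0) (nat_lit 49808)
  (nat_lit 10) nil nil))) (node (nat_lit 5) (nat_lit 48675) (nat_lit 9) (node (nat_lit 6) (nat_lit
  43857) (nat_lit 10) nil nil) (node (nat_lit 7) (nat_lit 39124) (nat_lit 9) (node (nat_lit 4)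
  (nat_lit 43201) (nat_lit 10) (node (nat_lit 6) (nat_lit 44668) (nat_lit 11) (node (nat_lit 7)
  (nat_lit 46077) (nat_lit 12) (node (nat_lit 4) (nat_lit 45950) (nat_lit 13) (node (nat_lit 7)
  (nat_lit 45734) (nat_lit 14) nil nil) nil) nil) nil) nil) (node (nat_lit 0) (nat_lit 49337)
  (nat_lit 9) nil nil)))) (node (nat_lit 7) (nat_lit 39115) (nat_lit 8) (node (nat_lit 4) (nat_lit
  39158) (nat_lit 9) (node (nat_lit 6) (nat_lit 44236) (nat_lit 10) (node (nat_lit 4) (nat_lit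
  43794) (nat_lit 11) nil (node (nat_lit 7) (nat_lit 43796) (nat_lit 11) nil nil)) (node (nat_lit
  5) (nat_lit 44237) (nat_lit 10) nil (node (nat_lit 0) (nat_lit 44249) (nat_lit 10) nil nil)))
  (node (nat_lit 5) (nat_lit 49337) (nat_lit 9) nil (node (nat_lit 0) (nat_lit 49337) (nat_lit 9)
  nil nil))) (node (nat_lit 5) (nat_lit 51598) (nat_lit 8) nil (node (nat_lit 0) (nat_lit 51598)
  (nat_lit 8) nil nil)))) (node (nat_lit 5) (nat_lit 54603) (nat_lit 7) (node (nat_lit 4) (nat_lit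
  54603) (nat_lit 8) nil nil) (node (nat_lit 0) (nat_lit 50346) (nat_lit 7) nil nil))) (node
  (nat_lit 0) (nat_lit 49913) (nat_lit 6) nil nil)))) (node (nat_lit 5) (nat_lit 58027) (nat_lit
  5) (node (nat_lit 7) (nat_lit 58027) (nat_lit 6) (node (nat_lit 6) (nat_lit 58027) (nat_lit 7)
  (node (nat_lit 7) (nat_lit 58027) (nat_lit 8) (node (nat_lit 0) (nat_lit 61545) (nat_lit 9) nil
  (node (nat_lit 4) (nat_lit 58027) (nat_lit 9) (node (nat_lit 6) (nat_lit 58027) (nat_lit 10)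
  (node (nat_lit 7) (nat_lit 58027) (nat_lit 11) (node (nat_lit 6) (nat_lit 58027) (nat_lit 12)
  (node (nat_lit 4) (nat_lit 57666) (nat_lit 13) (node (nat_lit 7) (nat_lit 57821) (nat_lit 14)
  nil nil) nil) nil) (node (nat_lit 4) (nat_lit 58027) (nat_lit 11) nil nil)) (node (nat_lit 7)
  (nat_lit 58027) (nat_lit 10) (node (nat_lit 6) (nat_lit 58027) (nat_lit 11) nil nil) (node
  (nat_lit 5) (nat_lit 59919) (nat_lit 10) nil (node (nat_lit 0) (nat_lit 59919) (nat_lit 10) nil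
  nil)))) nil)) nil) nil) (node (nat_lit 4) (nat_lit 58027) (nat_lit 6) (node (nat_lit 6) (nat_lit
  58027) (nat_lit 7) (node (nat_lit 4) (nat_lit 58027) (nat_lit 8) nil (node (nat_lit 5) (nat_lit
  59439) (nat_lit 8) nil (node (nat_lit 7) (nat_lit 58027) (nat_lit 8) nil (node (nat_lit 0)
  (nat_lit 59439) (nat_lit 8) nil nil)))) nil) (node (nat_lit 6) (nat_lit 58027) (nat_lit 6) (node
  (nat_lit 5) (nat_lit 60234) (nat_lit 7) (node (nat_lit 7) (nat_lit 60234) (nat_lit 8) (node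
  (nat_lit 6) (nat_lit 60234) (nat_lit 9) nil nil) nil) nil) (node (nat_lit 0) (nat_lit 58634)
  (nat_lit 6) nil nil)))) (node (nat_lit 6) (nat_lit 0) (nat_lit 5) (node (nat_lit 4) (nat_lit
  39081) (nat_lit 6) (node (nat_lit 7) (nat_lit 39209) (nat_lit 7) (node (nat_lit 4) (nat_lit
  39187) (nat_lit 8) (node (nat_lit 6) (nat_lit 39166) (nat_lit 9) (node (nat_lit 4) (nat_lit
  45222) (nat_lit 10) (node (nat_lit 7) (nat_lit 47354) (nat_lit 11) (node (nat_lit 6) (nat_lit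
  48852) (nat_lit 12) (node (nat_lit 7) (nat_lit 49427) (nat_lit 13) (node (nat_lit 4) (nat_lit
  48961) (nat_lit 14) nil nil) (node (nat_lit 4) (nat_lit 49310) (nat_lit 13) nil nil)) (node
  (nat_lit 0) (nat_lit 50366) (nat_lit 12) nil nil)) (node (nat_lit 5) (nat_lit 52323) (nat_lit
  11) (node (nat_lit 6) (nat_lit 50909) (nat_lit 12) (node (nat_lit 7) (nat_lit 44282) (nat_lit
  13) nil nil) nil) (node (nat_lit 0) (nat_lit 49168) (nat_lit 11) nil nil))) (node (nat_lit 7)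
  (nat_lit 45654) (nat_lit 10) (node (nat_lit 4) (nat_lit 48958) (nat_lit 11) (node (nat_lit 7)
  (nat_lit 48739) (nat_lit 12) nil (node (nat_lit 5) (nat_lit 48421) (nat_lit 12) nil nil)) (node
  (nat_lit 6) (nat_lit 49025) (nat_lit 11) (node (nat_lit 4) (nat_lit 50084) (nat_lit 12) nil nil)
  (node (nat_lit 5) (nat_lit 49600) (nat_lit 11) nil (node (nat_lit 0) (nat_lit 49600) (nat_lit
  11) nil nil)))) (node (nat_lit 5) (nat_lit 49837) (nat_lit 10) nil (node (nat_lit 0) (nat_lit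
  49837) (nat_lit 10) nil nil)))) (node (nat_lit 5) (nat_lit 49563) (nat_lit 9) (node (nat_lit 6)
  (nat_lit 46382) (nat_lit 10) (node (nat_lit 7) (nat_lit 36195) (nat_lit 11) nil nil) nil) (node
  (nat_lit 0) (nat_lit 50916) (nat_lit 9) nil nil))) (node (nat_lit 5) (nat_lit 55657) (nat_lit 8)
  nil (node (nat_lit 6) (nat_lit 39209) (nat_lit 8) (node (nat_lit 7) (nat_lit 39209) (nat_lit 9)
  (node (nat_lit 4) (nat_lit 43505) (nat_lit 10) (node (nat_lit 6) (nat_lit 43902) (nat_lit 11)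
  nil (node (nat_lit 7) (nat_lit 43065) (nat_lit 11) nil nil)) (node (nat_lit 5) (nat_lit 44300)
  (nat_lit 10) nil nil)) (node (nat_lit 5) (nat_lit 49431) (nat_lit 9) nil (node (nat_lit 0)
  (nat_lit 44089) (nat_lit 9) nil nil))) (node (nat_lit 0) (nat_lit 51692) (nat_lit 8) nil nil))))
  (node (nat_lit 5) (nat_lit 46045) (nat_lit 7) (node (nat_lit 6) (nat_lit 36692) (nat_lit 8)
  (node (nat_lit 7) (nat_lit 25857) (nat_lit 9) nil nil) nil) (node (nat_lit 6) (nat_lit 39189)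
  (nat_lit 7) (node (nat_lit 7) (nat_lit 39156) (nat_lit 8) (node (nat_lit 4) (nat_lit 39143)
  (nat_lit 9) (node (nat_lit 7) (nat_lit 44202) (nat_lit 10) (node (nat_lit 6) (nat_lit 46271)
  (nat_lit 11) (node (nat_lit 4) (nat_lit 46728) (nat_lit 12) nil nil) (node (nat_lit 5) (nat_lit
  48148) (nat_lit 11) nil nil)) (node (nat_lit 5) (nat_lit 45452) (nat_lit 10) nil (node (nat_lit
  6) (nat_lit 45076) (nat_lit 10) (node (nat_lit 4) (nat_lit 45988) (nat_lit 11) (node (nat_lit 7)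
  (nat_lit 43525) (nat_lit 12) nil nil) nil) (node (nat_lit 0) (nat_lit 44234) (nat_lit 10) nil
  nil)))) (node (nat_lit 6) (nat_lit 39156) (nat_lit 9) (node (nat_lit 5) (nat_lit 49827) (nat_lit
  10) nil (node (nat_lit 0) (nat_lit 49827) (nat_lit 10) nil nil)) (node (nat_lit 5) (nat_lit
  49378) (nat_lit 9) nil (node (nat_lit 0) (nat_lit 44037) (nat_lit 9) nil nil)))) (node (nat_lit
  5) (nat_lit 51671) (nat_lit 8) nil (node (nat_lit 0) (nat_lit 48836) (nat_lit 8) nil nil)))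
  (node (nat_lit 0) (nat_lit 51957) (nat_lit 7) nil nil)))) (node (nat_lit 5) (nat_lit 54291)
  (nat_lit 6) (node (nat_lit 7) (nat_lit 54291) (nat_lit 7) nil nil) (node (nat_lit 0) (nat_lit
  52920) (nat_lit 6) nil nil))) (node (nat_lit 0) (nat_lit 52766) (nat_lit 5) (node (nat_lit 6)
  (nat_lit 52766) (nat_lit 6) nil (node (nat_lit 7) (nat_lit 52766) (nat_lit 6) nil nil)) nil))))
  (node (nat_lit 0) (nat_lit 0) (nat_lit 4) (node (nat_lit 5) (nat_lit 55240) (nat_lit 5) (node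
  (nat_lit 7) (nat_lit 55847) (nat_lit 6) nil (node (nat_lit 6) (nat_lit 55240) (nat_lit 6) (node
  (nat_lit 5) (nat_lit 56305) (nat_lit 7) nil nil) nil)) (node (nat_lit 6) (nat_lit 52375)
  (nat_lit 5) (node (nat_lit 5) (nat_lit 55300) (nat_lit 6) nil (node (nat_lit 4) (nat_lit 52375)
  (nat_lit 6) nil (node (nat_lit 3) (nat_lit 52375) (nat_lit 6) nil (node (nat_lit 0) (nat_lit
  53809) (nat_lit 6) nil nil)))) (node (nat_lit 4) (nat_lit 52375) (nat_lit 5) (node (nat_lit 6)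
  (nat_lit 52375) (nat_lit 6) nil (node (nat_lit 7) (nat_lit 53809) (nat_lit 6) nil nil)) (node
  (nat_lit 3) (nat_lit 52375) (nat_lit 5) (node (nat_lit 6) (nat_lit 52375) (nat_lit 6) nil (node
  (nat_lit 7) (nat_lit 53809) (nat_lit 6) nil (node (nat_lit 5) (nat_lit 53809) (nat_lit 6) nil
  nil))) (node (nat_lit 0) (nat_lit 54790) (nat_lit 5) nil nil))))) nil)))

noncomputable def t299 : Tr :=
  (node (nat_lit 4) (nat_lit 0) (nat_lit 3) (node (nat_lit 3) (nat_lit 0) (nat_lit 4) (node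
  (nat_lit 4) (nat_lit 35228) (nat_lit 5) (node (nat_lit 5) (nat_lit 45861) (nat_lit 6) (node
  (nat_lit 4) (nat_lit 28328) (nat_lit 7) (node (nat_lit 0) (nat_lit 28328) (nat_lit 8) nil (node
  (nat_lit 3) (nat_lit 28328) (nat_lit 8) nil nil)) (node (nat_lit 7) (nat_lit 45861) (nat_lit 7)
  (node (nat_lit 4) (nat_lit 45861) (nat_lit 8) (node (nat_lit 7) (nat_lit 45861) (nat_lit 9)
  (node (nat_lit 5) (nat_lit 47496) (nat_lit 10) (node (nat_lit 4) (nat_lit 47496) (nat_lit 11)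
  nil nil) (node (nat_lit 3) (nat_lit 45861) (nat_lit 10) (node (nat_lit 4) (nat_lit 45861)
  (nat_lit 11) nil (node (nat_lit 7) (nat_lit 45861) (nat_lit 11) nil nil)) (node (nat_lit 0)
  (nat_lit 47141) (nat_lit 10) nil nil))) (node (nat_lit 3) (nat_lit 45861) (nat_lit 9) nil (node
  (nat_lit 0) (nat_lit 46928) (nat_lit 9) nil nil))) (node (nat_lit 5) (nat_lit 47012) (nat_lit 8)
  (node (nat_lit 4) (nat_lit 47012) (nat_lit 9) (node (nat_lit 5) (nat_lit 47496) (nat_lit 10)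
  (node (nat_lit 7) (nat_lit 47496) (nat_lit 11) nil nil) nil) nil) (node (nat_lit 3) (nat_lit
  46937) (nat_lit 8) nil (node (nat_lit 0) (nat_lit 47563) (nat_lit 8) nil nil)))) (node (nat_lit
  3) (nat_lit 46937) (nat_lit 7) nil (node (nat_lit 0) (nat_lit 47292) (nat_lit 7) nil nil))))
  (node (nat_lit 3) (nat_lit 39125) (nat_lit 6) (node (nat_lit 7) (nat_lit 39193) (nat_lit 7)
  (node (nat_lit 9) (nat_lit 39277) (nat_lit 8) (node (nat_lit 4) (nat_lit 39365) (nat_lit 9)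
  (node (nat_lit 7) (nat_lit 44134) (nat_lit 10) (node (nat_lit 4) (nat_lit 43178) (nat_lit 11)
  nil (node (nat_lit 5) (nat_lit 47843) (nat_lit 11) nil nil)) (node (nat_lit 9) (nat_lit 43837)
  (nat_lit 10) (node (nat_lit 7) (nat_lit 44097) (nat_lit 11) (node (nat_lit 4) (nat_lit 40642)
  (nat_lit 12) nil nil) nil) (node (nat_lit 5) (nat_lit 39381) (nat_lit 10) nil (node (nat_lit 0)
  (nat_lit 44150) (nat_lit 10) nil nil)))) (node (nat_lit 5) (nat_lit 49206) (nat_lit 9) nil (node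
  (nat_lit 0) (nat_lit 43864) (nat_lit 9) nil nil))) (node (nat_lit 4) (nat_lit 39245) (nat_lit 8)
  (node (nat_lit 7) (nat_lit 39249) (nat_lit 9) (node (nat_lit 9) (nat_lit 43657) (nat_lit 10)
  (node (nat_lit 4) (nat_lit 45245) (nat_lit 11) (node (nat_lit 9) (nat_lit 44838) (nat_lit 12)
  nil nil) (node (nat_lit 7) (nat_lit 44604) (nat_lit 11) nil nil)) (node (nat_lit 5) (nat_lit
  49614) (nat_lit 10) nil (node (nat_lit 0) (nat_lit 44035) (nat_lit 10) nil nil))) (node (nat_lit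
  5) (nat_lit 48085) (nat_lit 9) (node (nat_lit 4) (nat_lit 39970) (nat_lit 10) (node (nat_lit 7)
  (nat_lit 39807) (nat_lit 11) nil nil) nil) (node (nat_lit 0) (nat_lit 49174) (nat_lit 9) nil
  nil))) (node (nat_lit 5) (nat_lit 48563) (nat_lit 8) nil (node (nat_lit 0) (nat_lit 48563)
  (nat_lit 8) nil nil)))) (node (nat_lit 4) (nat_lit 39199) (nat_lit 7) (node (nat_lit 7) (nat_lit
  39245) (nat_lit 8) (node (nat_lit 9) (nat_lit 39176) (nat_lit 9) (node (nat_lit 7) (nat_lit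
  42190) (nat_lit 10) (node (nat_lit 4) (nat_lit 42859) (nat_lit 11) nil nil) (node (nat_lit 4)
  (nat_lit 42916) (nat_lit 10) (node (nat_lit 5) (nat_lit 42584) (nat_lit 11) nil (node (nat_lit
  9) (nat_lit 45035) (nat_lit 11) (node (nat_lit 7) (nat_lit 45437) (nat_lit 12) nil nil) nil))
  nil)) (node (nat_lit 4) (nat_lit 39245) (nat_lit 9) (node (nat_lit 5) (nat_lit 39261) (nat_lit
  10) nil (node (nat_lit 0) (nat_lit 44030) (nat_lit 10) nil nil)) (node (nat_lit 5) (nat_lit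
  43832) (nat_lit 9) nil (node (nat_lit 0) (nat_lit 43832) (nat_lit 9) nil nil)))) (node (nat_lit
  5) (nat_lit 47831) (nat_lit 8) (node (nat_lit 4) (nat_lit 39477) (nat_lit 9) (node (nat_lit 7)
  (nat_lit 39769) (nat_lit 10) nil nil) nil) (node (nat_lit 0) (nat_lit 48570) (nat_lit 8) nil
  nil))) (node (nat_lit 5) (nat_lit 51745) (nat_lit 7) nil (node (nat_lit 0) (nat_lit 49762)
  (nat_lit 7) nil nil)))) (node (nat_lit 0) (nat_lit 52896) (nat_lit 6) nil nil))) (node (nat_lit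
  5) (nat_lit 53967) (nat_lit 5) (node (nat_lit 7) (nat_lit 53967) (nat_lit 6) (node (nat_lit 4)
  (nat_lit 53967) (nat_lit 7) (node (nat_lit 5) (nat_lit 56657) (nat_lit 8) (node (nat_lit 4)
  (nat_lit 56657) (nat_lit 9) (node (nat_lit 7) (nat_lit 56657) (nat_lit 10) (node (nat_lit 5)
  (nat_lit 28328) (nat_lit 11) nil nil) nil) nil) (node (nat_lit 7) (nat_lit 53967) (nat_lit 8)
  (node (nat_lit 5) (nat_lit 56657) (nat_lit 9) (node (nat_lit 4) (nat_lit 56657) (nat_lit 10)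
  (node (nat_lit 5) (nat_lit 56657) (nat_lit 11) nil nil) nil) (node (nat_lit 3) (nat_lit 53967)
  (nat_lit 9) (node (nat_lit 4) (nat_lit 53967) (nat_lit 10) nil (node (nat_lit 7) (nat_lit 53967)
  (nat_lit 10) nil nil)) (node (nat_lit 0) (nat_lit 56135) (nat_lit 9) nil nil))) (node (nat_lit
  3) (nat_lit 55329) (nat_lit 8) nil (node (nat_lit 0) (nat_lit 56523) (nat_lit 8) nil nil))))
  (node (nat_lit 3) (nat_lit 55329) (nat_lit 7) nil (node (nat_lit 0) (nat_lit 56331) (nat_lit 7)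
  nil nil))) (node (nat_lit 3) (nat_lit 55902) (nat_lit 6) nil (node (nat_lit 4) (nat_lit 53967)
  (nat_lit 6) (node (nat_lit 5) (nat_lit 55485) (nat_lit 7) nil nil) (node (nat_lit 0) (nat_lit
  55900) (nat_lit 6) nil nil)))) (node (nat_lit 3) (nat_lit 39315) (nat_lit 5) (node (nat_lit 4)
  (nat_lit 39591) (nat_lit 6) (node (nat_lit 8) (nat_lit 39591) (nat_lit 7) (node (nat_lit 7)
  (nat_lit 39591) (nat_lit 8) (node (nat_lit 4) (nat_lit 39652) (nat_lit 9) (node (nat_lit 8)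
  (nat_lit 42719) (nat_lit 10) (node (nat_lit 4) (nat_lit 43735) (nat_lit 11) (node (nat_lit 7)
  (nat_lit 41476) (nat_lit 12) nil nil) (node (nat_lit 5) (nat_lit 46421) (nat_lit 11) nil nil))
  (node (nat_lit 7) (nat_lit 44101) (nat_lit 10) (node (nat_lit 8) (nat_lit 46064) (nat_lit 11)
  (node (nat_lit 4) (nat_lit 44923) (nat_lit 12) nil (node (nat_lit 7) (nat_lit 44991) (nat_lit
  12) nil nil)) nil) (node (nat_lit 5) (nat_lit 42753) (nat_lit 10) nil (node (nat_lit 0) (nat_lit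
  44427) (nat_lit 10) nil nil)))) (node (nat_lit 8) (nat_lit 39591) (nat_lit 9) (node (nat_lit 4)
  (nat_lit 42574) (nat_lit 10) (node (nat_lit 7) (nat_lit 43114) (nat_lit 11) nil nil) (node
  (nat_lit 5) (nat_lit 44366) (nat_lit 10) nil nil)) (node (nat_lit 5) (nat_lit 49510) (nat_lit 9)
  nil (node (nat_lit 0) (nat_lit 44168) (nat_lit 9) nil nil)))) (node (nat_lit 5) (nat_lit 48952)
  (nat_lit 8) nil (node (nat_lit 0) (nat_lit 48952) (nat_lit 8) nil nil))) (node (nat_lit 7)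
  (nat_lit 39591) (nat_lit 7) (node (nat_lit 4) (nat_lit 39591) (nat_lit 8) (node (nat_lit 8)
  (nat_lit 39581) (nat_lit 9) (node (nat_lit 4) (nat_lit 44142) (nat_lit 10) (node (nat_lit 7)
  (nat_lit 45315) (nat_lit 11) (node (nat_lit 8) (nat_lit 43057) (nat_lit 12) nil nil) (node
  (nat_lit 5) (nat_lit 45077) (nat_lit 11) nil (node (nat_lit 0) (nat_lit 47844) (nat_lit 11) nil
  nil))) (node (nat_lit 7) (nat_lit 43492) (nat_lit 10) (node (nat_lit 4) (nat_lit 45238) (nat_lit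
  11) nil (node (nat_lit 8) (nat_lit 42181) (nat_lit 11) nil nil)) (node (nat_lit 0) (nat_lit
  44356) (nat_lit 10) nil nil))) (node (nat_lit 5) (nat_lit 44663) (nat_lit 9) nil (node (nat_lit
  0) (nat_lit 44168) (nat_lit 9) nil nil))) (node (nat_lit 5) (nat_lit 48952) (nat_lit 8) nil
  (node (nat_lit 0) (nat_lit 43915) (nat_lit 8) nil nil))) (node (nat_lit 5) (nat_lit 42836)
  (nat_lit 7) (node (nat_lit 4) (nat_lit 35382) (nat_lit 8) (node (nat_lit 7) (nat_lit 25141)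
  (nat_lit 9) nil nil) nil) (node (nat_lit 0) (nat_lit 48238) (nat_lit 7) nil nil)))) (node
  (nat_lit 7) (nat_lit 39460) (nat_lit 6) (node (nat_lit 4) (nat_lit 39462) (nat_lit 7) (node
  (nat_lit 8) (nat_lit 39462) (nat_lit 8) (node (nat_lit 4) (nat_lit 39532) (nat_lit 9) (node
  (nat_lit 7) (nat_lit 44959) (nat_lit 10) (node (nat_lit 8) (nat_lit 47390) (nat_lit 11) (node
  (nat_lit 4) (nat_lit 48811) (nat_lit 12) (node (nat_lit 8) (nat_lit 48691) (nat_lit 13) (node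
  (nat_lit 7) (nat_lit 48445) (nat_lit 14) nil nil) (node (nat_lit 5) (nat_lit 47039) (nat_lit 13)
  nil nil)) (node (nat_lit 7) (nat_lit 46317) (nat_lit 12) nil nil)) (node (nat_lit 4) (nat_lit
  47465) (nat_lit 11) (node (nat_lit 8) (nat_lit 47177) (nat_lit 12) (node (nat_lit 5) (nat_lit
  49320) (nat_lit 13) nil nil) (node (nat_lit 5) (nat_lit 45232) (nat_lit 12) nil nil)) (node
  (nat_lit 5) (nat_lit 48661) (nat_lit 11) nil (node (nat_lit 0) (nat_lit 48661) (nat_lit 11) nil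
  nil)))) (node (nat_lit 5) (nat_lit 47341) (nat_lit 10) nil (node (nat_lit 0) (nat_lit 44308)
  (nat_lit 10) nil nil))) (node (nat_lit 7) (nat_lit 39462) (nat_lit 9) (node (nat_lit 8) (nat_lit
  41857) (nat_lit 10) (node (nat_lit 4) (nat_lit 42405) (nat_lit 11) nil nil) (node (nat_lit 5)
  (nat_lit 44237) (nat_lit 10) nil nil)) (node (nat_lit 5) (nat_lit 49381) (nat_lit 9) nil (node
  (nat_lit 0) (nat_lit 44039) (nat_lit 9) nil nil)))) (node (nat_lit 7) (nat_lit 39462) (nat_lit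
  8) (node (nat_lit 8) (nat_lit 39608) (nat_lit 9) (node (nat_lit 4) (nat_lit 44367) (nat_lit 10)
  (node (nat_lit 8) (nat_lit 46519) (nat_lit 11) (node (nat_lit 7) (nat_lit 46263) (nat_lit 12)
  (node (nat_lit 4) (nat_lit 45154) (nat_lit 13) nil nil) nil) (node (nat_lit 7) (nat_lit 45975)
  (nat_lit 11) (node (nat_lit 4) (nat_lit 44731) (nat_lit 12) nil nil) (node (nat_lit 5) (nat_lit
  47167) (nat_lit 11) nil nil))) (node (nat_lit 5) (nat_lit 49963) (nat_lit 10) nil (node (nat_lit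
  0) (nat_lit 49963) (nat_lit 10) nil nil))) (node (nat_lit 5) (nat_lit 49381) (nat_lit 9) nil
  (node (nat_lit 0) (nat_lit 44039) (nat_lit 9) nil nil))) (node (nat_lit 5) (nat_lit 46026)
  (nat_lit 8) (node (nat_lit 4) (nat_lit 36334) (nat_lit 9) (node (nat_lit 7) (nat_lit 29455)
  (nat_lit 10) nil nil) nil) (node (nat_lit 0) (nat_lit 48824) (nat_lit 8) nil nil)))) (node
  (nat_lit 5) (nat_lit 52073) (nat_lit 7) nil (node (nat_lit 0) (nat_lit 48108) (nat_lit 7) nil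
  nil))) (node (nat_lit 5) (nat_lit 52985) (nat_lit 6) (node (nat_lit 7) (nat_lit 52985) (nat_lit
  7) nil nil) (node (nat_lit 0) (nat_lit 52662) (nat_lit 6) nil nil)))) (node (nat_lit 0) (nat_lit
  53487) (nat_lit 5) (node (nat_lit 4) (nat_lit 53487) (nat_lit 6) nil (node (nat_lit 7) (nat_lit
  53487) (nat_lit 6) nil (node (nat_lit 5) (nat_lit 54056) (nat_lit 6) nil (node (nat_lit 0)
  (nat_lit 54056) (nat_lit 6) nil nil)))) nil)))) (node (nat_lit 0) (nat_lit 0) (nat_lit 4) (node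
  (nat_lit 5) (nat_lit 56657) (nat_lit 5) (node (nat_lit 7) (nat_lit 56657) (nat_lit 6) (node
  (nat_lit 4) (nat_lit 56657) (nat_lit 7) nil nil) (node (nat_lit 4) (nat_lit 56657) (nat_lit 6)
  (node (nat_lit 5) (nat_lit 56657) (nat_lit 7) nil nil) nil)) (node (nat_lit 4) (nat_lit 53626)
  (nat_lit 5) (node (nat_lit 5) (nat_lit 56657) (nat_lit 6) (node (nat_lit 7) (nat_lit 56657)
  (nat_lit 7) nil (node (nat_lit 3) (nat_lit 56657) (nat_lit 7) nil (node (nat_lit 0) (nat_lit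
  56657) (nat_lit 7) nil nil))) (node (nat_lit 3) (nat_lit 53626) (nat_lit 6) nil (node (nat_lit
  0) (nat_lit 56462) (nat_lit 6) nil nil))) (node (nat_lit 3) (nat_lit 53626) (nat_lit 5) (node
  (nat_lit 4) (nat_lit 53626) (nat_lit 6) (node (nat_lit 5) (nat_lit 55401) (nat_lit 7) (node
  (nat_lit 4) (nat_lit 55401) (nat_lit 8) (node (nat_lit 7) (nat_lit 27989) (nat_lit 9) nil nil)
  nil) nil) (node (nat_lit 7) (nat_lit 56462) (nat_lit 6) nil (node (nat_lit 5) (nat_lit 54971)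
  (nat_lit 6) nil nil))) (node (nat_lit 0) (nat_lit 56580) (nat_lit 5) (node (nat_lit 5) (nat_lit
  56657) (nat_lit 6) nil (node (nat_lit 7) (nat_lit 56657) (nat_lit 6) nil nil)) nil)))) nil))
  (node (nat_lit 0) (nat_lit 0) (nat_lit 3) (node (nat_lit 5) (nat_lit 0) (nat_lit 4) (node
  (nat_lit 4) (nat_lit 55026) (nat_lit 5) (node (nat_lit 6) (nat_lit 60617) (nat_lit 6) (node
  (nat_lit 5) (nat_lit 61752) (nat_lit 7) (node (nat_lit 6) (nat_lit 61752) (nat_lit 8) (node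
  (nat_lit 4) (nat_lit 61752) (nat_lit 9) (node (nat_lit 5) (nat_lit 61752) (nat_lit 10) (node
  (nat_lit 4) (nat_lit 61752) (nat_lit 11) (node (nat_lit 6) (nat_lit 61752) (nat_lit 12) nil nil)
  nil) (node (nat_lit 6) (nat_lit 61752) (nat_lit 10) nil nil)) (node (nat_lit 3) (nat_lit 61752)
  (nat_lit 9) nil (node (nat_lit 0) (nat_lit 61752) (nat_lit 9) nil nil))) (node (nat_lit 3)
  (nat_lit 61752) (nat_lit 8) nil (node (nat_lit 0) (nat_lit 61752) (nat_lit 8) nil nil))) (node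
  (nat_lit 4) (nat_lit 60617) (nat_lit 7) (node (nat_lit 5) (nat_lit 61752) (nat_lit 8) (node
  (nat_lit 6) (nat_lit 61752) (nat_lit 9) nil (node (nat_lit 4) (nat_lit 61752) (nat_lit 9) nil
  nil)) (node (nat_lit 3) (nat_lit 60617) (nat_lit 8) nil (node (nat_lit 0) (nat_lit 61752)
  (nat_lit 8) nil nil))) (node (nat_lit 3) (nat_lit 60617) (nat_lit 7) (node (nat_lit 5) (nat_lit
  61443) (nat_lit 8) nil (node (nat_lit 6) (nat_lit 61443) (nat_lit 8) nil nil)) (node (nat_lit 0)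
  (nat_lit 61588) (nat_lit 7) nil nil)))) (node (nat_lit 3) (nat_lit 55026) (nat_lit 6) (node
  (nat_lit 5) (nat_lit 56972) (nat_lit 7) nil nil) (node (nat_lit 5) (nat_lit 60356) (nat_lit 6)
  (node (nat_lit 6) (nat_lit 61328) (nat_lit 7) nil (node (nat_lit 3) (nat_lit 60356) (nat_lit 7)
  nil nil)) (node (nat_lit 0) (nat_lit 58854) (nat_lit 6) nil nil)))) (node (nat_lit 3) (nat_lit
  55026) (nat_lit 5) (node (nat_lit 6) (nat_lit 60356) (nat_lit 6) (node (nat_lit 8) (nat_lit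
  60356) (nat_lit 7) (node (nat_lit 5) (nat_lit 61183) (nat_lit 8) nil nil) (node (nat_lit 4)
  (nat_lit 60356) (nat_lit 7) nil (node (nat_lit 5) (nat_lit 61328) (nat_lit 7) (node (nat_lit 6)
  (nat_lit 61683) (nat_lit 8) nil nil) nil))) (node (nat_lit 4) (nat_lit 55026) (nat_lit 6) (node
  (nat_lit 8) (nat_lit 55026) (nat_lit 7) nil (node (nat_lit 6) (nat_lit 56972) (nat_lit 7) nil
  nil)) (node (nat_lit 3) (nat_lit 55026) (nat_lit 6) nil (node (nat_lit 5) (nat_lit 58854)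
  (nat_lit 6) (node (nat_lit 6) (nat_lit 59825) (nat_lit 7) nil (node (nat_lit 4) (nat_lit 58854)
  (nat_lit 7) nil nil)) (node (nat_lit 0) (nat_lit 57991) (nat_lit 6) nil nil))))) (node (nat_lit
  0) (nat_lit 58756) (nat_lit 5) (node (nat_lit 6) (nat_lit 60597) (nat_lit 6) (node (nat_lit 8)
  (nat_lit 61068) (nat_lit 7) nil (node (nat_lit 5) (nat_lit 61569) (nat_lit 7) nil nil)) (node
  (nat_lit 4) (nat_lit 58756) (nat_lit 6) nil (node (nat_lit 5) (nat_lit 60400) (nat_lit 6) (node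
  (nat_lit 4) (nat_lit 60400) (nat_lit 7) nil (node (nat_lit 6) (nat_lit 61371) (nat_lit 7) nil
  nil)) (node (nat_lit 3) (nat_lit 58756) (nat_lit 6) nil (node (nat_lit 0) (nat_lit 60022)
  (nat_lit 6) nil nil))))) nil))) (node (nat_lit 3) (nat_lit 0) (nat_lit 4) (node (nat_lit 4)
  (nat_lit 48250) (nat_lit 5) (node (nat_lit 7) (nat_lit 48250) (nat_lit 6) (node (nat_lit 6)
  (nat_lit 51287) (nat_lit 7) nil nil) (node (nat_lit 6) (nat_lit 53430) (nat_lit 6) (node
  (nat_lit 7) (nat_lit 53430) (nat_lit 7) nil nil) (node (nat_lit 5) (nat_lit 50816) (nat_lit 6)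
  (node (nat_lit 6) (nat_lit 25643) (nat_lit 7) nil nil) nil))) (node (nat_lit 6) (nat_lit 54386)
  (nat_lit 5) (node (nat_lit 5) (nat_lit 55393) (nat_lit 6) (node (nat_lit 6) (nat_lit 55864)
  (nat_lit 7) (node (nat_lit 7) (nat_lit 55864) (nat_lit 8) nil nil) nil) (node (nat_lit 4)
  (nat_lit 54386) (nat_lit 6) nil nil)) (node (nat_lit 5) (nat_lit 54386) (nat_lit 5) (node
  (nat_lit 7) (nat_lit 54386) (nat_lit 6) nil (node (nat_lit 6) (nat_lit 55010) (nat_lit 6) nil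
  nil)) (node (nat_lit 3) (nat_lit 48250) (nat_lit 5) (node (nat_lit 7) (nat_lit 48250) (nat_lit
  6) nil (node (nat_lit 4) (nat_lit 48250) (nat_lit 6) nil (node (nat_lit 5) (nat_lit 50816)
  (nat_lit 6) nil (node (nat_lit 6) (nat_lit 50816) (nat_lit 6) nil nil)))) (node (nat_lit 0)
  (nat_lit 52723) (nat_lit 5) nil nil))))) (node (nat_lit 4) (nat_lit 0) (nat_lit 4) (node
  (nat_lit 6) (nat_lit 57910) (nat_lit 5) (node (nat_lit 5) (nat_lit 60333) (nat_lit 6) (node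
  (nat_lit 6) (nat_lit 61611) (nat_lit 7) (node (nat_lit 4) (nat_lit 61611) (nat_lit 8) (node
  (nat_lit 5) (nat_lit 61752) (nat_lit 9) (node (nat_lit 4) (nat_lit 61752) (nat_lit 10) (node
  (nat_lit 6) (nat_lit 61752) (nat_lit 11) nil nil) (node (nat_lit 6) (nat_lit 61752) (nat_lit 10)
  nil nil)) (node (nat_lit 3) (nat_lit 61611) (nat_lit 9) nil (node (nat_lit 0) (nat_lit 61752)
  (nat_lit 9) nil nil))) nil) (node (nat_lit 4) (nat_lit 60333) (nat_lit 7) nil nil)) (node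
  (nat_lit 3) (nat_lit 57910) (nat_lit 6) (node (nat_lit 4) (nat_lit 57910) (nat_lit 7) nil nil)
  (node (nat_lit 0) (nat_lit 59751) (nat_lit 6) nil nil))) (node (nat_lit 3) (nat_lit 48263)
  (nat_lit 5) (node (nat_lit 4) (nat_lit 48263) (nat_lit 6) (node (nat_lit 5) (nat_lit 51126)
  (nat_lit 7) nil (node (nat_lit 6) (nat_lit 51126) (nat_lit 7) nil nil)) (node (nat_lit 6)
  (nat_lit 53444) (nat_lit 6) (node (nat_lit 4) (nat_lit 53444) (nat_lit 7) nil nil) (node
  (nat_lit 5) (nat_lit 53444) (nat_lit 6) (node (nat_lit 8) (nat_lit 53444) (nat_lit 7) nil nil)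
  (node (nat_lit 3) (nat_lit 48263) (nat_lit 6) nil (node (nat_lit 0) (nat_lit 50830) (nat_lit 6)
  nil nil))))) (node (nat_lit 5) (nat_lit 55809) (nat_lit 5) (node (nat_lit 4) (nat_lit 55809)
  (nat_lit 6) (node (nat_lit 6) (nat_lit 56904) (nat_lit 7) nil nil) nil) (node (nat_lit 0)
  (nat_lit 55563) (nat_lit 5) (node (nat_lit 6) (nat_lit 56188) (nat_lit 6) nil (node (nat_lit 5)
  (nat_lit 56188) (nat_lit 6) nil nil)) nil)))) (node (nat_lit 0) (nat_lit 53785) (nat_lit 4)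
  (node (nat_lit 6) (nat_lit 56224) (nat_lit 5) (node (nat_lit 5) (nat_lit 57489) (nat_lit 6) nil
  nil) (node (nat_lit 3) (nat_lit 53785) (nat_lit 5) nil (node (nat_lit 5) (nat_lit 56224)
  (nat_lit 5) (node (nat_lit 6) (nat_lit 57489) (nat_lit 6) nil nil) (node (nat_lit 4) (nat_lit
  53785) (nat_lit 5) nil nil)))) nil)))) nil))

noncomputable def t300 : Tr :=
  (node (nat_lit 3) (nat_lit 0) (nat_lit 2) (node (nat_lit 0) (nat_lit 0) (nat_lit 3) (node
  (nat_lit 5) (nat_lit 0) (nat_lit 4) t296 (node (nat_lit 4) (nat_lit 0) (nat_lit 4) (node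
  (nat_lit 6) (nat_lit 37692) (nat_lit 5) (node (nat_lit 5) (nat_lit 37692) (nat_lit 6) (node
  (nat_lit 6) (nat_lit 42282) (nat_lit 7) (node (nat_lit 4) (nat_lit 42282) (nat_lit 8) (node
  (nat_lit 5) (nat_lit 42282) (nat_lit 9) (node (nat_lit 4) (nat_lit 42282) (nat_lit 10) (node
  (nat_lit 6) (nat_lit 44995) (nat_lit 11) (node (nat_lit 5) (nat_lit 44995) (nat_lit 12) (node
  (nat_lit 4) (nat_lit 44995) (nat_lit 13) (node (nat_lit 5) (nat_lit 44995) (nat_lit 14) (node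
  (nat_lit 6) (nat_lit 45412) (nat_lit 15) (node (nat_lit 4) (nat_lit 45412) (nat_lit 16) (node
  (nat_lit 5) (nat_lit 45412) (nat_lit 17) nil nil) nil) nil) nil) (node (nat_lit 6) (nat_lit
  45289) (nat_lit 13) nil (node (nat_lit 3) (nat_lit 44995) (nat_lit 13) nil (node (nat_lit 0)
  (nat_lit 45289) (nat_lit 13) nil nil)))) (node (nat_lit 4) (nat_lit 44995) (nat_lit 12) (node
  (nat_lit 5) (nat_lit 44995) (nat_lit 13) (node (nat_lit 6) (nat_lit 45365) (nat_lit 14) nil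
  (node (nat_lit 3) (nat_lit 44995) (nat_lit 14) nil nil)) (node (nat_lit 3) (nat_lit 44995)
  (nat_lit 13) nil (node (nat_lit 0) (nat_lit 45289) (nat_lit 13) nil nil))) (node (nat_lit 3)
  (nat_lit 44995) (nat_lit 12) nil (node (nat_lit 0) (nat_lit 45160) (nat_lit 12) nil nil))))
  (node (nat_lit 3) (nat_lit 42282) (nat_lit 11) (node (nat_lit 5) (nat_lit 42282) (nat_lit 12)
  (node (nat_lit 4) (nat_lit 42282) (nat_lit 13) (node (nat_lit 5) (nat_lit 42282) (nat_lit 14)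
  (node (nat_lit 14) (nat_lit 42215) (nat_lit 15) nil nil) nil) (node (nat_lit 14) (nat_lit 42282)
  (nat_lit 13) (node (nat_lit 4) (nat_lit 42282) (nat_lit 14) nil nil) (node (nat_lit 6) (nat_lit
  43855) (nat_lit 13) nil nil))) (node (nat_lit 4) (nat_lit 42282) (nat_lit 12) (node (nat_lit 5)
  (nat_lit 42282) (nat_lit 13) (node (nat_lit 14) (nat_lit 42282) (nat_lit 14) (node (nat_lit 4)
  (nat_lit 42729) (nat_lit 15) nil nil) nil) (node (nat_lit 6) (nat_lit 43855) (nat_lit 13) nil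
  (node (nat_lit 0) (nat_lit 43855) (nat_lit 13) nil nil))) (node (nat_lit 6) (nat_lit 43726)
  (nat_lit 12) nil (node (nat_lit 0) (nat_lit 43726) (nat_lit 12) nil nil)))) (node (nat_lit 0)
  (nat_lit 44716) (nat_lit 11) nil nil))) (node (nat_lit 6) (nat_lit 44678) (nat_lit 10) (node
  (nat_lit 5) (nat_lit 44678) (nat_lit 11) (node (nat_lit 4) (nat_lit 44678) (nat_lit 12) (node
  (nat_lit 5) (nat_lit 44678) (nat_lit 13) (node (nat_lit 6) (nat_lit 45422) (nat_lit 14) (node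
  (nat_lit 4) (nat_lit 45422) (nat_lit 15) (node (nat_lit 5) (nat_lit 45422) (nat_lit 16) nil nil)
  nil) (node (nat_lit 3) (nat_lit 44678) (nat_lit 14) (node (nat_lit 6) (nat_lit 45365) (nat_lit
  15) nil (node (nat_lit 4) (nat_lit 44678) (nat_lit 15) (node (nat_lit 5) (nat_lit 44678)
  (nat_lit 16) nil nil) (node (nat_lit 5) (nat_lit 44678) (nat_lit 15) (node (nat_lit 4) (nat_lit
  44678) (nat_lit 16) nil nil) nil))) (node (nat_lit 0) (nat_lit 45286) (nat_lit 14) nil nil)))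
  (node (nat_lit 6) (nat_lit 45185) (nat_lit 13) nil (node (nat_lit 3) (nat_lit 44678) (nat_lit
  13) nil (node (nat_lit 0) (nat_lit 45185) (nat_lit 13) nil nil)))) (node (nat_lit 3) (nat_lit
  44678) (nat_lit 12) (node (nat_lit 5) (nat_lit 44678) (nat_lit 13) nil nil) (node (nat_lit 0)
  (nat_lit 45056) (nat_lit 12) nil nil))) (node (nat_lit 3) (nat_lit 44678) (nat_lit 11) (node
  (nat_lit 5) (nat_lit 44678) (nat_lit 12) nil nil) (node (nat_lit 0) (nat_lit 44891) (nat_lit 11)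
  nil nil))) (node (nat_lit 3) (nat_lit 42282) (nat_lit 10) (node (nat_lit 4) (nat_lit 42282)
  (nat_lit 11) (node (nat_lit 5) (nat_lit 42282) (nat_lit 12) nil (node (nat_lit 6) (nat_lit
  43726) (nat_lit 12) nil (node (nat_lit 13) (nat_lit 42282) (nat_lit 12) (node (nat_lit 5)
  (nat_lit 42282) (nat_lit 13) nil nil) nil))) (node (nat_lit 5) (nat_lit 42282) (nat_lit 11)
  (node (nat_lit 4) (nat_lit 42282) (nat_lit 12) (node (nat_lit 5) (nat_lit 42282) (nat_lit 13)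
  nil (node (nat_lit 13) (nat_lit 42282) (nat_lit 13) nil nil)) (node (nat_lit 6) (nat_lit 43726)
  (nat_lit 12) nil (node (nat_lit 0) (nat_lit 43726) (nat_lit 12) nil nil))) (node (nat_lit 6)
  (nat_lit 44317) (nat_lit 11) nil (node (nat_lit 0) (nat_lit 44103) (nat_lit 11) nil nil))))
  (node (nat_lit 0) (nat_lit 44587) (nat_lit 10) (node (nat_lit 4) (nat_lit 44587) (nat_lit 11)
  nil (node (nat_lit 6) (nat_lit 44800) (nat_lit 11) nil (node (nat_lit 5) (nat_lit 44587)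
  (nat_lit 11) nil (node (nat_lit 3) (nat_lit 44587) (nat_lit 11) nil nil)))) nil)))) (node
  (nat_lit 3) (nat_lit 42282) (nat_lit 9) (node (nat_lit 6) (nat_lit 44037) (nat_lit 10) nil (node
  (nat_lit 4) (nat_lit 42282) (nat_lit 10) (node (nat_lit 6) (nat_lit 43561) (nat_lit 11) nil
  (node (nat_lit 5) (nat_lit 42282) (nat_lit 11) nil (node (nat_lit 0) (nat_lit 43561) (nat_lit
  11) nil nil))) (node (nat_lit 5) (nat_lit 42282) (nat_lit 10) (node (nat_lit 4) (nat_lit 42282)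
  (nat_lit 11) nil (node (nat_lit 12) (nat_lit 42282) (nat_lit 11) nil (node (nat_lit 6) (nat_lit
  43561) (nat_lit 11) nil nil))) (node (nat_lit 0) (nat_lit 44037) (nat_lit 10) nil nil)))) (node
  (nat_lit 0) (nat_lit 44000) (nat_lit 9) (node (nat_lit 6) (nat_lit 44271) (nat_lit 10) nil (node
  (nat_lit 4) (nat_lit 44000) (nat_lit 10) nil (node (nat_lit 5) (nat_lit 44000) (nat_lit 10) nil
  (node (nat_lit 3) (nat_lit 44000) (nat_lit 10) nil (node (nat_lit 0) (nat_lit 44271) (nat_lit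
  10) nil nil))))) nil))) nil) (node (nat_lit 4) (nat_lit 37692) (nat_lit 7) (node (nat_lit 5)
  (nat_lit 37692) (nat_lit 8) (node (nat_lit 6) (nat_lit 40276) (nat_lit 9) (node (nat_lit 4)
  (nat_lit 40276) (nat_lit 10) (node (nat_lit 6) (nat_lit 25307) (nat_lit 11) nil nil) nil) nil)
  (node (nat_lit 6) (nat_lit 39470) (nat_lit 8) nil nil)) nil)) (node (nat_lit 3) (nat_lit 38610)
  (nat_lit 6) nil nil)) (node (nat_lit 5) (nat_lit 26757) (nat_lit 5) (node (nat_lit 4) (nat_lit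
  27126) (nat_lit 6) (node (nat_lit 6) (nat_lit 40301) (nat_lit 7) (node (nat_lit 5) (nat_lit
  40301) (nat_lit 8) (node (nat_lit 6) (nat_lit 42283) (nat_lit 9) (node (nat_lit 4) (nat_lit
  42283) (nat_lit 10) (node (nat_lit 5) (nat_lit 42283) (nat_lit 11) (node (nat_lit 4) (nat_lit
  42283) (nat_lit 12) (node (nat_lit 3) (nat_lit 42283) (nat_lit 13) (node (nat_lit 5) (nat_lit
  42283) (nat_lit 14) (node (nat_lit 4) (nat_lit 42283) (nat_lit 15) (node (nat_lit 5) (nat_lit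
  42325) (nat_lit 16) (node (nat_lit 16) (nat_lit 42434) (nat_lit 17) nil nil) nil) nil) (node
  (nat_lit 4) (nat_lit 42283) (nat_lit 14) (node (nat_lit 5) (nat_lit 42283) (nat_lit 15) (node
  (nat_lit 16) (nat_lit 42283) (nat_lit 16) nil nil) nil) (node (nat_lit 6) (nat_lit 43162)
  (nat_lit 14) nil nil))) (node (nat_lit 0) (nat_lit 43391) (nat_lit 13) nil nil)) nil) (node
  (nat_lit 6) (nat_lit 42767) (nat_lit 11) nil (node (nat_lit 3) (nat_lit 42283) (nat_lit 11) nil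
  (node (nat_lit 0) (nat_lit 42767) (nat_lit 11) nil nil)))) nil) (node (nat_lit 4) (nat_lit
  40301) (nat_lit 9) (node (nat_lit 5) (nat_lit 40301) (nat_lit 10) (node (nat_lit 6) (nat_lit
  41579) (nat_lit 11) (node (nat_lit 4) (nat_lit 41579) (nat_lit 12) (node (nat_lit 5) (nat_lit
  41579) (nat_lit 13) (node (nat_lit 4) (nat_lit 41579) (nat_lit 14) (node (nat_lit 6) (nat_lit
  25839) (nat_lit 15) nil nil) nil) nil) nil) nil) nil) nil)) (node (nat_lit 0) (nat_lit 41194)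
  (nat_lit 8) nil nil)) (node (nat_lit 3) (nat_lit 28553) (nat_lit 7) (node (nat_lit 5) (nat_lit
  28553) (nat_lit 8) nil (node (nat_lit 4) (nat_lit 28553) (nat_lit 8) nil (node (nat_lit 6)
  (nat_lit 31610) (nat_lit 8) nil nil))) (node (nat_lit 0) (nat_lit 33589) (nat_lit 7) nil nil)))
  (node (nat_lit 3) (nat_lit 28184) (nat_lit 6) (node (nat_lit 4) (nat_lit 28184) (nat_lit 7) nil
  (node (nat_lit 5) (nat_lit 28184) (nat_lit 7) nil nil)) (node (nat_lit 0) (nat_lit 33510)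
  (nat_lit 6) (node (nat_lit 5) (nat_lit 33510) (nat_lit 7) nil nil) nil))) (node (nat_lit 3)
  (nat_lit 27406) (nat_lit 5) (node (nat_lit 6) (nat_lit 33376) (nat_lit 6) (node (nat_lit 5)
  (nat_lit 33376) (nat_lit 7) nil nil) (node (nat_lit 5) (nat_lit 27406) (nat_lit 6) (node
  (nat_lit 4) (nat_lit 27406) (nat_lit 7) (node (nat_lit 5) (nat_lit 27406) (nat_lit 8) (node
  (nat_lit 8) (nat_lit 27406) (nat_lit 9) (node (nat_lit 4) (nat_lit 27406) (nat_lit 10) nil nil)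
  (node (nat_lit 6) (nat_lit 21514) (nat_lit 9) nil nil)) (node (nat_lit 8) (nat_lit 27406)
  (nat_lit 8) (node (nat_lit 4) (nat_lit 27406) (nat_lit 9) (node (nat_lit 5) (nat_lit 27406)
  (nat_lit 10) nil nil) nil) nil)) (node (nat_lit 8) (nat_lit 27406) (nat_lit 7) (node (nat_lit 4)
  (nat_lit 27406) (nat_lit 8) (node (nat_lit 5) (nat_lit 27406) (nat_lit 9) (node (nat_lit 4)
  (nat_lit 27906) (nat_lit 10) (node (nat_lit 8) (nat_lit 27455) (nat_lit 11) nil nil) (node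
  (nat_lit 6) (nat_lit 22324) (nat_lit 10) (node (nat_lit 4) (nat_lit 22479) (nat_lit 11) nil nil)
  nil)) (node (nat_lit 8) (nat_lit 27406) (nat_lit 9) (node (nat_lit 5) (nat_lit 27406) (nat_lit
  10) nil nil) nil)) (node (nat_lit 6) (nat_lit 30463) (nat_lit 8) nil (node (nat_lit 0) (nat_lit
  30463) (nat_lit 8) nil nil))) (node (nat_lit 6) (nat_lit 30142) (nat_lit 7) nil (node (nat_lit
  0) (nat_lit 30142) (nat_lit 7) nil nil)))) (node (nat_lit 4) (nat_lit 27406) (nat_lit 6) (node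
  (nat_lit 5) (nat_lit 27406) (nat_lit 7) (node (nat_lit 6) (nat_lit 17905) (nat_lit 8) (node
  (nat_lit 4) (nat_lit 11253) (nat_lit 9) nil nil) (node (nat_lit 8) (nat_lit 27406) (nat_lit 8)
  nil nil)) (node (nat_lit 6) (nat_lit 30142) (nat_lit 7) nil (node (nat_lit 0) (nat_lit 30142)
  (nat_lit 7) nil nil))) (node (nat_lit 0) (nat_lit 32634) (nat_lit 6) nil nil)))) (node (nat_lit
  0) (nat_lit 35365) (nat_lit 5) (node (nat_lit 5) (nat_lit 35365) (nat_lit 6) nil (node (nat_lit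
  6) (nat_lit 36238) (nat_lit 6) nil (node (nat_lit 4) (nat_lit 35365) (nat_lit 6) nil (node
  (nat_lit 3) (nat_lit 35365) (nat_lit 6) nil (node (nat_lit 0) (nat_lit 36238) (nat_lit 6) nil
  nil))))) nil)))) (node (nat_lit 3) (nat_lit 0) (nat_lit 4) (node (nat_lit 4) (nat_lit 26895)
  (nat_lit 5) (node (nat_lit 5) (nat_lit 26895) (nat_lit 6) (node (nat_lit 7) (nat_lit 26895)
  (nat_lit 7) (node (nat_lit 5) (nat_lit 26895) (nat_lit 8) (node (nat_lit 4) (nat_lit 26895)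
  (nat_lit 9) nil nil) (node (nat_lit 4) (nat_lit 26895) (nat_lit 8) nil nil)) (node (nat_lit 4)
  (nat_lit 26895) (nat_lit 7) (node (nat_lit 7) (nat_lit 26895) (nat_lit 8) nil nil) (node
  (nat_lit 6) (nat_lit 11364) (nat_lit 7) nil nil))) (node (nat_lit 6) (nat_lit 31810) (nat_lit 6)
  (node (nat_lit 5) (nat_lit 31810) (nat_lit 7) nil nil) (node (nat_lit 7) (nat_lit 26895)
  (nat_lit 6) (node (nat_lit 6) (nat_lit 29631) (nat_lit 7) nil (node (nat_lit 5) (nat_lit 26895)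
  (nat_lit 7) nil nil)) (node (nat_lit 0) (nat_lit 29207) (nat_lit 6) nil nil)))) (node (nat_lit
  5) (nat_lit 0) (nat_lit 5) (node (nat_lit 7) (nat_lit 28016) (nat_lit 6) (node (nat_lit 6)
  (nat_lit 37818) (nat_lit 7) (node (nat_lit 5) (nat_lit 37818) (nat_lit 8) (node (nat_lit 6)
  (nat_lit 39439) (nat_lit 9) (node (nat_lit 7) (nat_lit 39439) (nat_lit 10) (node (nat_lit 5)
  (nat_lit 39439) (nat_lit 11) (node (nat_lit 7) (nat_lit 39439) (nat_lit 12) (node (nat_lit 4)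
  (nat_lit 39439) (nat_lit 13) (node (nat_lit 5) (nat_lit 39439) (nat_lit 14) nil nil) (node
  (nat_lit 0) (nat_lit 39998) (nat_lit 13) nil nil)) nil) nil) nil) nil) nil) (node (nat_lit 4)
  (nat_lit 28016) (nat_lit 7) (node (nat_lit 5) (nat_lit 28016) (nat_lit 8) nil nil) (node
  (nat_lit 0) (nat_lit 30752) (nat_lit 7) nil nil))) (node (nat_lit 4) (nat_lit 28016) (nat_lit 6)
  (node (nat_lit 7) (nat_lit 28016) (nat_lit 7) nil (node (nat_lit 5) (nat_lit 28016) (nat_lit 7)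
  (node (nat_lit 6) (nat_lit 19258) (nat_lit 8) nil nil) nil)) (node (nat_lit 6) (nat_lit 32257)
  (nat_lit 6) (node (nat_lit 5) (nat_lit 32257) (nat_lit 7) nil nil) (node (nat_lit 0) (nat_lit
  34130) (nat_lit 6) (node (nat_lit 5) (nat_lit 34130) (nat_lit 7) nil nil) nil)))) (node (nat_lit
  6) (nat_lit 37530) (nat_lit 5) (node (nat_lit 5) (nat_lit 37530) (nat_lit 6) (node (nat_lit 6)
  (nat_lit 41033) (nat_lit 7) (node (nat_lit 7) (nat_lit 41033) (nat_lit 8) (node (nat_lit 5)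
  (nat_lit 41033) (nat_lit 9) (node (nat_lit 7) (nat_lit 41033) (nat_lit 10) (node (nat_lit 6)
  (nat_lit 42493) (nat_lit 11) nil (node (nat_lit 4) (nat_lit 41033) (nat_lit 11) nil (node
  (nat_lit 0) (nat_lit 41951) (nat_lit 11) nil nil))) (node (nat_lit 6) (nat_lit 42487) (nat_lit
  10) nil (node (nat_lit 4) (nat_lit 41033) (nat_lit 10) nil (node (nat_lit 0) (nat_lit 41799)
  (nat_lit 10) nil nil)))) (node (nat_lit 4) (nat_lit 41033) (nat_lit 9) (node (nat_lit 7)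
  (nat_lit 41033) (nat_lit 10) nil nil) (node (nat_lit 0) (nat_lit 41940) (nat_lit 9) nil nil)))
  nil) nil) nil) (node (nat_lit 0) (nat_lit 33279) (nat_lit 5) (node (nat_lit 5) (nat_lit 33279)
  (nat_lit 6) nil (node (nat_lit 7) (nat_lit 33279) (nat_lit 6) nil nil)) nil)))) (node (nat_lit
  0) (nat_lit 0) (nat_lit 4) (node (nat_lit 5) (nat_lit 34192) (nat_lit 5) (node (nat_lit 6)
  (nat_lit 39819) (nat_lit 6) (node (nat_lit 5) (nat_lit 39819) (nat_lit 7) (node (nat_lit 7)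
  (nat_lit 42046) (nat_lit 8) (node (nat_lit 5) (nat_lit 42046) (nat_lit 9) (node (nat_lit 6)
  (nat_lit 42491) (nat_lit 10) nil (node (nat_lit 4) (nat_lit 42046) (nat_lit 10) nil (node
  (nat_lit 3) (nat_lit 42046) (nat_lit 10) nil (node (nat_lit 0) (nat_lit 42491) (nat_lit 10) nil
  nil)))) (node (nat_lit 6) (nat_lit 42296) (nat_lit 9) nil nil)) (node (nat_lit 4) (nat_lit
  39819) (nat_lit 8) nil (node (nat_lit 3) (nat_lit 39819) (nat_lit 8) nil (node (nat_lit 0)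
  (nat_lit 41221) (nat_lit 8) nil nil)))) (node (nat_lit 4) (nat_lit 39819) (nat_lit 7) (node
  (nat_lit 7) (nat_lit 41221) (nat_lit 8) (node (nat_lit 5) (nat_lit 41221) (nat_lit 9) nil nil)
  (node (nat_lit 6) (nat_lit 40564) (nat_lit 8) nil nil)) (node (nat_lit 3) (nat_lit 39819)
  (nat_lit 7) nil (node (nat_lit 0) (nat_lit 40985) (nat_lit 7) (node (nat_lit 6) (nat_lit 41306)
  (nat_lit 8) nil (node (nat_lit 5) (nat_lit 40985) (nat_lit 8) nil nil)) nil)))) (node (nat_lit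
  7) (nat_lit 38388) (nat_lit 6) (node (nat_lit 6) (nat_lit 39330) (nat_lit 7) (node (nat_lit 5)
  (nat_lit 39330) (nat_lit 8) (node (nat_lit 6) (nat_lit 39901) (nat_lit 9) nil nil) nil) nil)
  (node (nat_lit 4) (nat_lit 34192) (nat_lit 6) nil (node (nat_lit 3) (nat_lit 34192) (nat_lit 6)
  nil (node (nat_lit 0) (nat_lit 35987) (nat_lit 6) nil nil))))) (node (nat_lit 6) (nat_lit 37650)
  (nat_lit 5) (node (nat_lit 5) (nat_lit 37650) (nat_lit 6) (node (nat_lit 6) (nat_lit 40533)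
  (nat_lit 7) (node (nat_lit 7) (nat_lit 41373) (nat_lit 8) (node (nat_lit 5) (nat_lit 41373)
  (nat_lit 9) (node (nat_lit 7) (nat_lit 41818) (nat_lit 10) (node (nat_lit 6) (nat_lit 41970)
  (nat_lit 11) nil nil) (node (nat_lit 6) (nat_lit 41818) (nat_lit 10) nil nil)) (node (nat_lit 4)
  (nat_lit 41373) (nat_lit 9) nil (node (nat_lit 0) (nat_lit 41623) (nat_lit 9) nil (node (nat_lit
  3) (nat_lit 41373) (nat_lit 9) nil nil)))) nil) (node (nat_lit 7) (nat_lit 39479) (nat_lit 7)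
  (node (nat_lit 5) (nat_lit 39479) (nat_lit 8) nil nil) nil)) (node (nat_lit 4) (nat_lit 37650)
  (nat_lit 6) nil nil)) (node (nat_lit 4) (nat_lit 33495) (nat_lit 5) (node (nat_lit 6) (nat_lit
  34565) (nat_lit 6) nil nil) (node (nat_lit 3) (nat_lit 33495) (nat_lit 5) (node (nat_lit 6)
  (nat_lit 34565) (nat_lit 6) nil nil) (node (nat_lit 0) (nat_lit 35476) (nat_lit 5) nil nil)))))
  nil)))) t297) (node (nat_lit 0) (nat_lit 0) (nat_lit 2) (node (nat_lit 3) (nat_lit 0) (nat_lit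
  3) (node (nat_lit 4) (nat_lit 0) (nat_lit 4) (node (nat_lit 6) (nat_lit 35224) (nat_lit 5) (node
  (nat_lit 5) (nat_lit 59353) (nat_lit 6) (node (nat_lit 6) (nat_lit 59353) (nat_lit 7) (node
  (nat_lit 0) (nat_lit 61128) (nat_lit 8) nil (node (nat_lit 3) (nat_lit 60323) (nat_lit 8) nil
  nil)) (node (nat_lit 4) (nat_lit 59353) (nat_lit 7) (node (nat_lit 6) (nat_lit 59353) (nat_lit
  8) (node (nat_lit 4) (nat_lit 59353) (nat_lit 9) (node (nat_lit 5) (nat_lit 62934) (nat_lit 10)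
  nil (node (nat_lit 3) (nat_lit 59353) (nat_lit 10) (node (nat_lit 6) (nat_lit 59353) (nat_lit
  11) nil (node (nat_lit 4) (nat_lit 59353) (nat_lit 11) nil nil)) (node (nat_lit 0) (nat_lit
  61245) (nat_lit 10) nil nil))) (node (nat_lit 3) (nat_lit 59353) (nat_lit 9) nil (node (nat_lit
  0) (nat_lit 60933) (nat_lit 9) nil nil))) (node (nat_lit 5) (nat_lit 61597) (nat_lit 8) (node
  (nat_lit 6) (nat_lit 61597) (nat_lit 9) nil nil) (node (nat_lit 3) (nat_lit 60323) (nat_lit 8)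
  nil (node (nat_lit 0) (nat_lit 61128) (nat_lit 8) nil nil)))) (node (nat_lit 3) (nat_lit 60770)
  (nat_lit 7) nil (node (nat_lit 0) (nat_lit 61729) (nat_lit 7) nil nil)))) (node (nat_lit 3)
  (nat_lit 39219) (nat_lit 6) (node (nat_lit 4) (nat_lit 39324) (nat_lit 7) (node (nat_lit 9)
  (nat_lit 39324) (nat_lit 8) (node (nat_lit 6) (nat_lit 39310) (nat_lit 9) (node (nat_lit 9)
  (nat_lit 46731) (nat_lit 10) (node (nat_lit 4) (nat_lit 50512) (nat_lit 11) (node (nat_lit 6)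
  (nat_lit 52507) (nat_lit 12) (node (nat_lit 4) (nat_lit 53054) (nat_lit 13) (node (nat_lit 9)
  (nat_lit 52369) (nat_lit 14) (node (nat_lit 4) (nat_lit 51720) (nat_lit 15) nil nil) (node
  (nat_lit 5) (nat_lit 51772) (nat_lit 14) nil nil)) (node (nat_lit 9) (nat_lit 52238) (nat_lit
  13) nil nil)) (node (nat_lit 5) (nat_lit 53575) (nat_lit 12) nil (node (nat_lit 0) (nat_lit
  53524) (nat_lit 12) nil nil))) (node (nat_lit 5) (nat_lit 54909) (nat_lit 11) nil (node (nat_lit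
  0) (nat_lit 54909) (nat_lit 11) nil nil))) (node (nat_lit 4) (nat_lit 46718) (nat_lit 10) (node
  (nat_lit 6) (nat_lit 49855) (nat_lit 11) (node (nat_lit 9) (nat_lit 50501) (nat_lit 12) nil
  (node (nat_lit 5) (nat_lit 52868) (nat_lit 12) nil nil)) (node (nat_lit 9) (nat_lit 49613)
  (nat_lit 11) (node (nat_lit 4) (nat_lit 49551) (nat_lit 12) nil (node (nat_lit 5) (nat_lit
  52625) (nat_lit 12) nil nil)) (node (nat_lit 5) (nat_lit 53472) (nat_lit 11) nil (node (nat_lit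
  0) (nat_lit 50664) (nat_lit 11) nil nil)))) (node (nat_lit 5) (nat_lit 53136) (nat_lit 10) nil
  (node (nat_lit 0) (nat_lit 53136) (nat_lit 10) nil nil)))) (node (nat_lit 5) (nat_lit 56905)
  (nat_lit 9) nil (node (nat_lit 0) (nat_lit 54135) (nat_lit 9) nil nil))) (node (nat_lit 6)
  (nat_lit 39324) (nat_lit 8) (node (nat_lit 4) (nat_lit 39335) (nat_lit 9) (node (nat_lit 9)
  (nat_lit 45623) (nat_lit 10) (node (nat_lit 6) (nat_lit 47959) (nat_lit 11) (node (nat_lit 4)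
  (nat_lit 45739) (nat_lit 12) nil (node (nat_lit 9) (nat_lit 46850) (nat_lit 12) nil nil)) (node
  (nat_lit 4) (nat_lit 47291) (nat_lit 11) nil nil)) (node (nat_lit 5) (nat_lit 50024) (nat_lit
  10) (node (nat_lit 6) (nat_lit 47781) (nat_lit 11) (node (nat_lit 4) (nat_lit 42960) (nat_lit
  12) nil nil) nil) (node (nat_lit 0) (nat_lit 44426) (nat_lit 10) nil nil))) (node (nat_lit 5)
  (nat_lit 52561) (nat_lit 9) nil (node (nat_lit 0) (nat_lit 49546) (nat_lit 9) nil nil))) (node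
  (nat_lit 5) (nat_lit 51847) (nat_lit 8) (node (nat_lit 6) (nat_lit 47835) (nat_lit 9) (node
  (nat_lit 4) (nat_lit 39541) (nat_lit 10) (node (nat_lit 6) (nat_lit 28719) (nat_lit 11) nil nil)
  nil) nil) (node (nat_lit 0) (nat_lit 54997) (nat_lit 8) nil nil)))) (node (nat_lit 6) (nat_lit
  39317) (nat_lit 7) (node (nat_lit 4) (nat_lit 39295) (nat_lit 8) (node (nat_lit 9) (nat_lit
  39291) (nat_lit 9) (node (nat_lit 4) (nat_lit 45635) (nat_lit 10) (node (nat_lit 6) (nat_lit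
  46946) (nat_lit 11) (node (nat_lit 9) (nat_lit 45536) (nat_lit 12) nil (node (nat_lit 4)
  (nat_lit 43454) (nat_lit 12) nil nil)) (node (nat_lit 5) (nat_lit 45540) (nat_lit 11) nil nil))
  (node (nat_lit 6) (nat_lit 45150) (nat_lit 10) (node (nat_lit 9) (nat_lit 46922) (nat_lit 11)
  (node (nat_lit 4) (nat_lit 47340) (nat_lit 12) nil nil) (node (nat_lit 5) (nat_lit 49096)
  (nat_lit 11) nil nil)) (node (nat_lit 5) (nat_lit 49962) (nat_lit 10) nil (node (nat_lit 0)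
  (nat_lit 49962) (nat_lit 10) nil nil)))) (node (nat_lit 5) (nat_lit 47243) (nat_lit 9) (node
  (nat_lit 6) (nat_lit 43096) (nat_lit 10) nil nil) (node (nat_lit 6) (nat_lit 39295) (nat_lit 9)
  (node (nat_lit 5) (nat_lit 49965) (nat_lit 10) nil (node (nat_lit 0) (nat_lit 44386) (nat_lit
  10) nil nil)) (node (nat_lit 0) (nat_lit 49517) (nat_lit 9) nil nil)))) (node (nat_lit 5)
  (nat_lit 53280) (nat_lit 8) nil (node (nat_lit 0) (nat_lit 54126) (nat_lit 8) nil nil))) (node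
  (nat_lit 5) (nat_lit 57476) (nat_lit 7) (node (nat_lit 4) (nat_lit 57476) (nat_lit 8) nil (node
  (nat_lit 9) (nat_lit 57476) (nat_lit 8) nil nil)) (node (nat_lit 0) (nat_lit 56054) (nat_lit 7)
  nil nil)))) (node (nat_lit 0) (nat_lit 57513) (nat_lit 6) (node (nat_lit 4) (nat_lit 57513)
  (nat_lit 7) nil (node (nat_lit 0) (nat_lit 57972) (nat_lit 7) nil nil)) nil))) (node (nat_lit 5)
  (nat_lit 0) (nat_lit 5) (node (nat_lit 4) (nat_lit 29480) (nat_lit 6) (node (nat_lit 6) (nat_lit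
  29480) (nat_lit 7) (node (nat_lit 4) (nat_lit 29480) (nat_lit 8) (node (nat_lit 5) (nat_lit
  31616) (nat_lit 9) (node (nat_lit 6) (nat_lit 31616) (nat_lit 10) (node (nat_lit 5) (nat_lit
  31809) (nat_lit 11) (node (nat_lit 4) (nat_lit 31809) (nat_lit 12) nil nil) nil) nil) (node
  (nat_lit 0) (nat_lit 31616) (nat_lit 9) (node (nat_lit 6) (nat_lit 31616) (nat_lit 10) nil nil)
  (node (nat_lit 3) (nat_lit 29480) (nat_lit 9) (node (nat_lit 6) (nat_lit 29480) (nat_lit 10)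
  (node (nat_lit 4) (nat_lit 29480) (nat_lit 11) (node (nat_lit 6) (nat_lit 29480) (nat_lit 12)
  (node (nat_lit 12) (nat_lit 30113) (nat_lit 13) (node (nat_lit 4) (nat_lit 30348) (nat_lit 14)
  nil nil) (node (nat_lit 5) (nat_lit 30655) (nat_lit 13) nil nil)) nil) (node (nat_lit 12)
  (nat_lit 29480) (nat_lit 11) nil nil)) (node (nat_lit 4) (nat_lit 29480) (nat_lit 10) (node
  (nat_lit 6) (nat_lit 29480) (nat_lit 11) nil nil) (node (nat_lit 5) (nat_lit 31490) (nat_lit 10)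
  nil (node (nat_lit 0) (nat_lit 30453) (nat_lit 10) nil nil)))) nil))) (node (nat_lit 5) (nat_lit
  31409) (nat_lit 8) (node (nat_lit 6) (nat_lit 31409) (nat_lit 9) nil nil) (node (nat_lit 3)
  (nat_lit 29480) (nat_lit 8) nil (node (nat_lit 0) (nat_lit 30971) (nat_lit 8) nil nil)))) (node
  (nat_lit 3) (nat_lit 29480) (nat_lit 7) nil (node (nat_lit 0) (nat_lit 30028) (nat_lit 7) nil
  nil))) (node (nat_lit 3) (nat_lit 29480) (nat_lit 6) (node (nat_lit 6) (nat_lit 29480) (nat_lit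
  7) (node (nat_lit 4) (nat_lit 29480) (nat_lit 8) nil (node (nat_lit 9) (nat_lit 29480) (nat_lit
  8) nil (node (nat_lit 5) (nat_lit 30206) (nat_lit 8) nil nil))) nil) (node (nat_lit 0) (nat_lit
  30113) (nat_lit 6) nil nil))) (node (nat_lit 3) (nat_lit 38593) (nat_lit 5) (node (nat_lit 5)
  (nat_lit 53176) (nat_lit 6) (node (nat_lit 8) (nat_lit 53176) (nat_lit 7) nil nil) (node
  (nat_lit 6) (nat_lit 38863) (nat_lit 6) (node (nat_lit 8) (nat_lit 38934) (nat_lit 7) (node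
  (nat_lit 4) (nat_lit 38935) (nat_lit 8) (node (nat_lit 8) (nat_lit 38861) (nat_lit 9) (node
  (nat_lit 6) (nat_lit 43062) (nat_lit 10) (node (nat_lit 4) (nat_lit 42712) (nat_lit 11) (node
  (nat_lit 6) (nat_lit 42268) (nat_lit 12) nil nil) nil) (node (nat_lit 5) (nat_lit 49531)
  (nat_lit 10) nil (node (nat_lit 0) (nat_lit 49531) (nat_lit 10) nil nil))) (node (nat_lit 6)
  (nat_lit 39032) (nat_lit 9) (node (nat_lit 4) (nat_lit 43988) (nat_lit 10) (node (nat_lit 8)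
  (nat_lit 45465) (nat_lit 11) (node (nat_lit 6) (nat_lit 44795) (nat_lit 12) nil (node (nat_lit
  4) (nat_lit 41872) (nat_lit 12) nil nil)) (node (nat_lit 5) (nat_lit 45319) (nat_lit 11) nil
  nil)) (node (nat_lit 8) (nat_lit 42917) (nat_lit 10) (node (nat_lit 6) (nat_lit 41564) (nat_lit
  11) nil nil) (node (nat_lit 5) (nat_lit 44123) (nat_lit 10) nil (node (nat_lit 0) (nat_lit
  44123) (nat_lit 10) nil nil)))) (node (nat_lit 5) (nat_lit 44607) (nat_lit 9) nil (node (nat_lit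
  0) (nat_lit 49157) (nat_lit 9) nil nil)))) (node (nat_lit 5) (nat_lit 48582) (nat_lit 8) nil
  (node (nat_lit 0) (nat_lit 48582) (nat_lit 8) nil nil))) (node (nat_lit 4) (nat_lit 38938)
  (nat_lit 7) (node (nat_lit 6) (nat_lit 38938) (nat_lit 8) (node (nat_lit 8) (nat_lit 38988)
  (nat_lit 9) (node (nat_lit 4) (nat_lit 44555) (nat_lit 10) (node (nat_lit 8) (nat_lit 48078)
  (nat_lit 11) (node (nat_lit 6) (nat_lit 49325) (nat_lit 12) (node (nat_lit 4) (nat_lit 48733)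
  (nat_lit 13) (node (nat_lit 8) (nat_lit 48042) (nat_lit 14) nil nil) nil) nil) (node (nat_lit 6)
  (nat_lit 46302) (nat_lit 11) (node (nat_lit 4) (nat_lit 42587) (nat_lit 12) nil nil) (node
  (nat_lit 5) (nat_lit 43193) (nat_lit 11) nil nil))) (node (nat_lit 6) (nat_lit 44399) (nat_lit
  10) (node (nat_lit 4) (nat_lit 45819) (nat_lit 11) (node (nat_lit 8) (nat_lit 46039) (nat_lit
  12) (node (nat_lit 4) (nat_lit 45631) (nat_lit 13) (node (nat_lit 6) (nat_lit 44901) (nat_lit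
  14) nil nil) nil) nil) (node (nat_lit 5) (nat_lit 48345) (nat_lit 11) nil nil)) (node (nat_lit
  5) (nat_lit 49658) (nat_lit 10) nil (node (nat_lit 0) (nat_lit 44079) (nat_lit 10) nil nil))))
  (node (nat_lit 5) (nat_lit 50667) (nat_lit 9) nil (node (nat_lit 0) (nat_lit 49160) (nat_lit 9)
  nil nil))) (node (nat_lit 5) (nat_lit 46617) (nat_lit 8) (node (nat_lit 6) (nat_lit 40490)
  (nat_lit 9) nil nil) (node (nat_lit 0) (nat_lit 48585) (nat_lit 8) nil nil))) (node (nat_lit 5)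
  (nat_lit 50379) (nat_lit 7) nil (node (nat_lit 0) (nat_lit 47775) (nat_lit 7) nil nil)))) (node
  (nat_lit 4) (nat_lit 38962) (nat_lit 6) (node (nat_lit 6) (nat_lit 39058) (nat_lit 7) (node
  (nat_lit 8) (nat_lit 39058) (nat_lit 8) (node (nat_lit 6) (nat_lit 39058) (nat_lit 9) (node
  (nat_lit 4) (nat_lit 42254) (nat_lit 10) (node (nat_lit 8) (nat_lit 40901) (nat_lit 11) nil
  (node (nat_lit 6) (nat_lit 41656) (nat_lit 11) nil nil)) (node (nat_lit 5) (nat_lit 44149)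
  (nat_lit 10) nil (node (nat_lit 0) (nat_lit 44149) (nat_lit 10) nil nil))) (node (nat_lit 4)
  (nat_lit 39058) (nat_lit 9) (node (nat_lit 8) (nat_lit 43466) (nat_lit 10) (node (nat_lit 6)
  (nat_lit 45446) (nat_lit 11) (node (nat_lit 4) (nat_lit 45527) (nat_lit 12) (node (nat_lit 8)
  (nat_lit 45903) (nat_lit 13) nil nil) nil) nil) (node (nat_lit 5) (nat_lit 38472) (nat_lit 10)
  nil (node (nat_lit 0) (nat_lit 44149) (nat_lit 10) nil nil))) (node (nat_lit 5) (nat_lit 43939)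
  (nat_lit 9) nil (node (nat_lit 0) (nat_lit 43939) (nat_lit 9) nil nil)))) (node (nat_lit 4)
  (nat_lit 39058) (nat_lit 8) (node (nat_lit 8) (nat_lit 39048) (nat_lit 9) (node (nat_lit 6)
  (nat_lit 44550) (nat_lit 10) (node (nat_lit 8) (nat_lit 46275) (nat_lit 11) (node (nat_lit 4)
  (nat_lit 45467) (nat_lit 12) (node (nat_lit 6) (nat_lit 45722) (nat_lit 13) nil nil) nil) (node
  (nat_lit 4) (nat_lit 46152) (nat_lit 11) (node (nat_lit 6) (nat_lit 45708) (nat_lit 12) nil nil)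
  (node (nat_lit 5) (nat_lit 48497) (nat_lit 11) nil nil))) (node (nat_lit 5) (nat_lit 49718)
  (nat_lit 10) nil (node (nat_lit 0) (nat_lit 49718) (nat_lit 10) nil nil))) (node (nat_lit 5)
  (nat_lit 41272) (nat_lit 9) nil (node (nat_lit 0) (nat_lit 43939) (nat_lit 9) nil nil))) (node
  (nat_lit 5) (nat_lit 48706) (nat_lit 8) nil (node (nat_lit 0) (nat_lit 43669) (nat_lit 8) nil
  nil)))) (node (nat_lit 5) (nat_lit 43594) (nat_lit 7) (node (nat_lit 6) (nat_lit 43594) (nat_lit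
  8) (node (nat_lit 4) (nat_lit 26728) (nat_lit 9) nil nil) nil) (node (nat_lit 0) (nat_lit 47874)
  (nat_lit 7) nil nil))) (node (nat_lit 0) (nat_lit 51108) (nat_lit 6) nil nil)))) (node (nat_lit
  0) (nat_lit 54324) (nat_lit 5) (node (nat_lit 6) (nat_lit 54324) (nat_lit 6) nil (node (nat_lit
  4) (nat_lit 54324) (nat_lit 6) nil (node (nat_lit 5) (nat_lit 55573) (nat_lit 6) nil (node
  (nat_lit 3) (nat_lit 54324) (nat_lit 6) nil (node (nat_lit 0) (nat_lit 54931) (nat_lit 6) nil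
  nil))))) nil)))) t298) t299) nil))

noncomputable def t301 : Tr :=
  (node (nat_lit 3) (nat_lit 0) (nat_lit 4) (node (nat_lit 5) (nat_lit 80953) (nat_lit 5) (node
  (nat_lit 7) (nat_lit 81239) (nat_lit 6) (node (nat_lit 6) (nat_lit 81271) (nat_lit 7) (node
  (nat_lit 5) (nat_lit 81491) (nat_lit 8) (node (nat_lit 6) (nat_lit 94611) (nat_lit 9) (node
  (nat_lit 7) (nat_lit 101256) (nat_lit 10) (node (nat_lit 6) (nat_lit 105317) (nat_lit 11) (node
  (nat_lit 5) (nat_lit 104541) (nat_lit 12) (node (nat_lit 7) (nat_lit 103404) (nat_lit 13) nil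
  (node (nat_lit 4) (nat_lit 105152) (nat_lit 13) nil nil)) (node (nat_lit 4) (nat_lit 106077)
  (nat_lit 12) nil nil)) (node (nat_lit 5) (nat_lit 96924) (nat_lit 11) nil (node (nat_lit 4)
  (nat_lit 102428) (nat_lit 11) nil (node (nat_lit 0) (nat_lit 106829) (nat_lit 11) nil nil))))
  (node (nat_lit 4) (nat_lit 102766) (nat_lit 10) nil (node (nat_lit 0) (nat_lit 101800) (nat_lit
  10) nil nil))) (node (nat_lit 7) (nat_lit 95318) (nat_lit 9) (node (nat_lit 5) (nat_lit 102132)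
  (nat_lit 10) (node (nat_lit 6) (nat_lit 102808) (nat_lit 11) (node (nat_lit 7) (nat_lit 99586)
  (nat_lit 12) nil nil) (node (nat_lit 4) (nat_lit 107873) (nat_lit 11) nil nil)) (node (nat_lit
  4) (nat_lit 104872) (nat_lit 10) nil (node (nat_lit 0) (nat_lit 102507) (nat_lit 10) nil nil)))
  (node (nat_lit 4) (nat_lit 101361) (nat_lit 9) nil (node (nat_lit 0) (nat_lit 102014) (nat_lit
  9) nil nil)))) (node (nat_lit 7) (nat_lit 81411) (nat_lit 8) (node (nat_lit 5) (nat_lit 95151)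
  (nat_lit 9) (node (nat_lit 6) (nat_lit 98927) (nat_lit 10) (node (nat_lit 5) (nat_lit 96097)
  (nat_lit 11) nil (node (nat_lit 7) (nat_lit 96255) (nat_lit 11) nil nil)) (node (nat_lit 4)
  (nat_lit 98127) (nat_lit 10) nil nil)) (node (nat_lit 4) (nat_lit 99685) (nat_lit 9) (node
  (nat_lit 5) (nat_lit 99558) (nat_lit 10) nil nil) (node (nat_lit 0) (nat_lit 101935) (nat_lit 9)
  nil nil))) (node (nat_lit 4) (nat_lit 110313) (nat_lit 8) (node (nat_lit 5) (nat_lit 104854)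
  (nat_lit 9) nil nil) (node (nat_lit 0) (nat_lit 113072) (nat_lit 8) nil nil)))) (node (nat_lit
  4) (nat_lit 107287) (nat_lit 7) (node (nat_lit 5) (nat_lit 104785) (nat_lit 8) (node (nat_lit 6)
  (nat_lit 97963) (nat_lit 9) (node (nat_lit 7) (nat_lit 92270) (nat_lit 10) (node (nat_lit 5)
  (nat_lit 74240) (nat_lit 11) nil nil) nil) nil) nil) (node (nat_lit 0) (nat_lit 111220) (nat_lit
  7) nil nil))) (node (nat_lit 4) (nat_lit 111180) (nat_lit 6) (node (nat_lit 7) (nat_lit 111180)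
  (nat_lit 7) (node (nat_lit 6) (nat_lit 111180) (nat_lit 8) nil nil) (node (nat_lit 5) (nat_lit
  105538) (nat_lit 7) (node (nat_lit 6) (nat_lit 98101) (nat_lit 8) (node (nat_lit 4) (nat_lit
  99619) (nat_lit 9) nil (node (nat_lit 7) (nat_lit 78712) (nat_lit 9) nil nil)) nil) nil)) (node
  (nat_lit 6) (nat_lit 81106) (nat_lit 6) (node (nat_lit 5) (nat_lit 81146) (nat_lit 7) (node
  (nat_lit 7) (nat_lit 81177) (nat_lit 8) (node (nat_lit 6) (nat_lit 93143) (nat_lit 9) (node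
  (nat_lit 5) (nat_lit 97003) (nat_lit 10) nil (node (nat_lit 7) (nat_lit 100528) (nat_lit 10)
  (node (nat_lit 5) (nat_lit 100149) (nat_lit 11) nil (node (nat_lit 4) (nat_lit 101700) (nat_lit
  11) nil nil)) nil)) (node (nat_lit 5) (nat_lit 90742) (nat_lit 9) (node (nat_lit 6) (nat_lit
  88120) (nat_lit 10) (node (nat_lit 7) (nat_lit 84013) (nat_lit 11) nil nil) (node (nat_lit 4)
  (nat_lit 93718) (nat_lit 10) nil nil)) (node (nat_lit 4) (nat_lit 97416) (nat_lit 9) nil (node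
  (nat_lit 0) (nat_lit 90107) (nat_lit 9) nil nil)))) (node (nat_lit 4) (nat_lit 101346) (nat_lit
  8) nil (node (nat_lit 0) (nat_lit 100805) (nat_lit 8) nil nil))) (node (nat_lit 4) (nat_lit
  98238) (nat_lit 7) nil (node (nat_lit 0) (nat_lit 99658) (nat_lit 7) nil nil))) (node (nat_lit
  0) (nat_lit 114320) (nat_lit 6) nil nil)))) (node (nat_lit 4) (nat_lit 109941) (nat_lit 5) (node
  (nat_lit 5) (nat_lit 102105) (nat_lit 6) (node (nat_lit 6) (nat_lit 82147) (nat_lit 7) (node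
  (nat_lit 4) (nat_lit 83028) (nat_lit 8) nil (node (nat_lit 5) (nat_lit 82147) (nat_lit 8) nil
  nil)) (node (nat_lit 7) (nat_lit 102105) (nat_lit 7) (node (nat_lit 5) (nat_lit 102105) (nat_lit
  8) (node (nat_lit 4) (nat_lit 103851) (nat_lit 9) nil nil) (node (nat_lit 4) (nat_lit 103712)
  (nat_lit 8) nil (node (nat_lit 6) (nat_lit 102105) (nat_lit 8) nil (node (nat_lit 0) (nat_lit
  103712) (nat_lit 8) nil nil)))) (node (nat_lit 4) (nat_lit 103472) (nat_lit 7) (node (nat_lit 7)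
  (nat_lit 103472) (nat_lit 8) (node (nat_lit 5) (nat_lit 103472) (nat_lit 9) nil (node (nat_lit
  4) (nat_lit 103851) (nat_lit 9) nil nil)) (node (nat_lit 6) (nat_lit 103472) (nat_lit 8) (node
  (nat_lit 5) (nat_lit 103472) (nat_lit 9) nil nil) (node (nat_lit 0) (nat_lit 103712) (nat_lit 8)
  nil nil))) (node (nat_lit 0) (nat_lit 103472) (nat_lit 7) nil nil)))) (node (nat_lit 6) (nat_lit
  109941) (nat_lit 6) (node (nat_lit 4) (nat_lit 111625) (nat_lit 7) (node (nat_lit 7) (nat_lit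
  111625) (nat_lit 8) (node (nat_lit 6) (nat_lit 111625) (nat_lit 9) (node (nat_lit 7) (nat_lit
  111625) (nat_lit 10) nil nil) nil) (node (nat_lit 5) (nat_lit 111625) (nat_lit 8) (node (nat_lit
  6) (nat_lit 111625) (nat_lit 9) (node (nat_lit 7) (nat_lit 111625) (nat_lit 10) (node (nat_lit
  4) (nat_lit 70105) (nat_lit 11) nil nil) nil) nil) nil)) (node (nat_lit 5) (nat_lit 109941)
  (nat_lit 7) (node (nat_lit 7) (nat_lit 109941) (nat_lit 8) nil nil) (node (nat_lit 7) (nat_lit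
  109941) (nat_lit 7) (node (nat_lit 6) (nat_lit 109941) (nat_lit 8) (node (nat_lit 4) (nat_lit
  111687) (nat_lit 9) nil nil) (node (nat_lit 5) (nat_lit 109941) (nat_lit 8) nil nil)) (node
  (nat_lit 0) (nat_lit 111625) (nat_lit 7) nil nil)))) (node (nat_lit 7) (nat_lit 109941) (nat_lit
  6) (node (nat_lit 6) (nat_lit 109941) (nat_lit 7) (node (nat_lit 4) (nat_lit 112005) (nat_lit 8)
  (node (nat_lit 6) (nat_lit 112005) (nat_lit 9) (node (nat_lit 7) (nat_lit 112005) (nat_lit 10)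
  (node (nat_lit 4) (nat_lit 112539) (nat_lit 11) (node (nat_lit 6) (nat_lit 112539) (nat_lit 12)
  nil (node (nat_lit 5) (nat_lit 112539) (nat_lit 12) nil nil)) nil) nil) (node (nat_lit 5)
  (nat_lit 112005) (nat_lit 9) (node (nat_lit 6) (nat_lit 112005) (nat_lit 10) (node (nat_lit 7)
  (nat_lit 112005) (nat_lit 11) (node (nat_lit 4) (nat_lit 91404) (nat_lit 12) nil nil) nil) nil)
  nil)) (node (nat_lit 7) (nat_lit 109941) (nat_lit 8) (node (nat_lit 5) (nat_lit 109941) (nat_lit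
  9) nil nil) (node (nat_lit 0) (nat_lit 111548) (nat_lit 8) nil nil))) (node (nat_lit 5) (nat_lit
  109941) (nat_lit 7) (node (nat_lit 4) (nat_lit 111548) (nat_lit 8) nil (node (nat_lit 7)
  (nat_lit 109941) (nat_lit 8) nil nil)) (node (nat_lit 0) (nat_lit 111308) (nat_lit 7) nil nil)))
  (node (nat_lit 0) (nat_lit 111061) (nat_lit 6) nil nil)))) (node (nat_lit 6) (nat_lit 81154)
  (nat_lit 5) (node (nat_lit 5) (nat_lit 81548) (nat_lit 6) (node (nat_lit 7) (nat_lit 81556)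
  (nat_lit 7) (node (nat_lit 5) (nat_lit 81668) (nat_lit 8) (node (nat_lit 6) (nat_lit 97568)
  (nat_lit 9) (node (nat_lit 7) (nat_lit 102612) (nat_lit 10) (node (nat_lit 5) (nat_lit 105285)
  (nat_lit 11) (node (nat_lit 7) (nat_lit 103070) (nat_lit 12) (node (nat_lit 6) (nat_lit 100462)
  (nat_lit 13) nil nil) nil) (node (nat_lit 6) (nat_lit 100007) (nat_lit 11) nil (node (nat_lit 4)
  (nat_lit 103843) (nat_lit 11) nil (node (nat_lit 0) (nat_lit 108184) (nat_lit 11) nil nil))))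
  (node (nat_lit 5) (nat_lit 106028) (nat_lit 10) (node (nat_lit 7) (nat_lit 107444) (nat_lit 11)
  (node (nat_lit 6) (nat_lit 107499) (nat_lit 12) (node (nat_lit 7) (nat_lit 105859) (nat_lit 13)
  nil (node (nat_lit 5) (nat_lit 105820) (nat_lit 13) nil nil)) (node (nat_lit 4) (nat_lit 108154)
  (nat_lit 12) nil nil)) (node (nat_lit 4) (nat_lit 107259) (nat_lit 11) nil (node (nat_lit 0)
  (nat_lit 111600) (nat_lit 11) nil nil))) (node (nat_lit 4) (nat_lit 109136) (nat_lit 10) nil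
  (node (nat_lit 0) (nat_lit 104757) (nat_lit 10) nil nil)))) (node (nat_lit 4) (nat_lit 106908)
  (nat_lit 9) nil (node (nat_lit 0) (nat_lit 102192) (nat_lit 9) nil nil))) (node (nat_lit 6)
  (nat_lit 81686) (nat_lit 8) (node (nat_lit 7) (nat_lit 95816) (nat_lit 9) (node (nat_lit 5)
  (nat_lit 99003) (nat_lit 10) (node (nat_lit 6) (nat_lit 97563) (nat_lit 11) (node (nat_lit 5)
  (nat_lit 95319) (nat_lit 12) nil nil) (node (nat_lit 7) (nat_lit 96331) (nat_lit 11) nil nil))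
  (node (nat_lit 4) (nat_lit 104862) (nat_lit 10) nil (node (nat_lit 0) (nat_lit 103005) (nat_lit
  10) nil nil))) (node (nat_lit 4) (nat_lit 97689) (nat_lit 9) nil (node (nat_lit 0) (nat_lit
  90616) (nat_lit 9) nil nil))) (node (nat_lit 4) (nat_lit 111032) (nat_lit 8) (node (nat_lit 5)
  (nat_lit 107727) (nat_lit 9) (node (nat_lit 6) (nat_lit 105056) (nat_lit 10) nil nil) nil) (node
  (nat_lit 0) (nat_lit 113357) (nat_lit 8) nil nil)))) (node (nat_lit 6) (nat_lit 81560) (nat_lit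
  7) (node (nat_lit 7) (nat_lit 81654) (nat_lit 8) (node (nat_lit 5) (nat_lit 94829) (nat_lit 9)
  (node (nat_lit 7) (nat_lit 98402) (nat_lit 10) (node (nat_lit 6) (nat_lit 95921) (nat_lit 11)
  (node (nat_lit 5) (nat_lit 92527) (nat_lit 12) nil nil) nil) (node (nat_lit 6) (nat_lit 101300)
  (nat_lit 10) (node (nat_lit 5) (nat_lit 100675) (nat_lit 11) nil nil) (node (nat_lit 4) (nat_lit
  97420) (nat_lit 10) nil nil))) (node (nat_lit 4) (nat_lit 102843) (nat_lit 9) nil (node (nat_lit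
  0) (nat_lit 102177) (nat_lit 9) nil nil))) (node (nat_lit 4) (nat_lit 111876) (nat_lit 8) (node
  (nat_lit 5) (nat_lit 108671) (nat_lit 9) nil nil) (node (nat_lit 0) (nat_lit 113361) (nat_lit 8)
  nil nil))) (node (nat_lit 4) (nat_lit 112089) (nat_lit 7) (node (nat_lit 7) (nat_lit 112089)
  (nat_lit 8) nil (node (nat_lit 5) (nat_lit 108306) (nat_lit 8) (node (nat_lit 6) (nat_lit
  105133) (nat_lit 9) (node (nat_lit 7) (nat_lit 92240) (nat_lit 10) (node (nat_lit 6) (nat_lit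
  78448) (nat_lit 11) nil nil) nil) nil) nil)) (node (nat_lit 0) (nat_lit 111528) (nat_lit 7) nil
  nil)))) (node (nat_lit 4) (nat_lit 114121) (nat_lit 6) (node (nat_lit 5) (nat_lit 114121)
  (nat_lit 7) (node (nat_lit 6) (nat_lit 102004) (nat_lit 8) (node (nat_lit 7) (nat_lit 82261)
  (nat_lit 9) nil nil) nil) (node (nat_lit 6) (nat_lit 114121) (nat_lit 7) nil (node (nat_lit 0)
  (nat_lit 114769) (nat_lit 7) nil nil))) (node (nat_lit 0) (nat_lit 115235) (nat_lit 6) nil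
  nil))) (node (nat_lit 0) (nat_lit 117481) (nat_lit 5) (node (nat_lit 5) (nat_lit 117481)
  (nat_lit 6) nil (node (nat_lit 6) (nat_lit 117481) (nat_lit 6) nil (node (nat_lit 7) (nat_lit
  117481) (nat_lit 6) nil (node (nat_lit 4) (nat_lit 118338) (nat_lit 6) nil (node (nat_lit 0)
  (nat_lit 118338) (nat_lit 6) nil nil))))) nil)))) (node (nat_lit 5) (nat_lit 0) (nat_lit 4)
  (node (nat_lit 4) (nat_lit 111880) (nat_lit 5) (node (nat_lit 5) (nat_lit 100090) (nat_lit 6)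
  (node (nat_lit 6) (nat_lit 81334) (nat_lit 7) (node (nat_lit 4) (nat_lit 84249) (nat_lit 8)
  (node (nat_lit 6) (nat_lit 84249) (nat_lit 9) (node (nat_lit 5) (nat_lit 84249) (nat_lit 10)
  (node (nat_lit 6) (nat_lit 84249) (nat_lit 11) (node (nat_lit 4) (nat_lit 84249) (nat_lit 12)
  (node (nat_lit 5) (nat_lit 84249) (nat_lit 13) (node (nat_lit 6) (nat_lit 84249) (nat_lit 14)
  (node (nat_lit 5) (nat_lit 84249) (nat_lit 15) (node (nat_lit 4) (nat_lit 84249) (nat_lit 16)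
  (node (nat_lit 5) (nat_lit 84249) (nat_lit 17) (node (nat_lit 6) (nat_lit 84249) (nat_lit 18)
  (node (nat_lit 4) (nat_lit 76354) (nat_lit 19) (node (nat_lit 6) (nat_lit 63348) (nat_lit 20)
  (node (nat_lit 5) (nat_lit 42158) (nat_lit 21) nil nil) nil) nil) nil) nil) nil) nil) nil) nil)
  nil) (node (nat_lit 4) (nat_lit 84249) (nat_lit 11) nil nil)) nil) (node (nat_lit 5) (nat_lit
  84249) (nat_lit 9) (node (nat_lit 4) (nat_lit 84249) (nat_lit 10) nil nil) (node (nat_lit 0)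
  (nat_lit 84249) (nat_lit 9) nil nil))) (node (nat_lit 3) (nat_lit 82561) (nat_lit 8) (node
  (nat_lit 4) (nat_lit 84249) (nat_lit 9) nil (node (nat_lit 5) (nat_lit 82561) (nat_lit 9) nil
  (node (nat_lit 6) (nat_lit 82561) (nat_lit 9) nil (node (nat_lit 0) (nat_lit 83871) (nat_lit 9)
  nil nil)))) (node (nat_lit 0) (nat_lit 84249) (nat_lit 8) nil nil))) (node (nat_lit 3) (nat_lit
  102235) (nat_lit 7) nil (node (nat_lit 0) (nat_lit 103685) (nat_lit 7) nil nil))) (node (nat_lit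
  6) (nat_lit 111880) (nat_lit 6) (node (nat_lit 4) (nat_lit 114759) (nat_lit 7) (node (nat_lit 5)
  (nat_lit 114759) (nat_lit 8) (node (nat_lit 6) (nat_lit 114759) (nat_lit 9) (node (nat_lit 5)
  (nat_lit 114759) (nat_lit 10) (node (nat_lit 4) (nat_lit 74877) (nat_lit 11) nil nil) nil) nil)
  nil) nil) (node (nat_lit 3) (nat_lit 115633) (nat_lit 6) (node (nat_lit 6) (nat_lit 115633)
  (nat_lit 7) nil nil) nil))) (node (nat_lit 3) (nat_lit 80342) (nat_lit 5) (node (nat_lit 6)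
  (nat_lit 80342) (nat_lit 6) (node (nat_lit 8) (nat_lit 80342) (nat_lit 7) (node (nat_lit 5)
  (nat_lit 80492) (nat_lit 8) (node (nat_lit 6) (nat_lit 87914) (nat_lit 9) (node (nat_lit 8)
  (nat_lit 94177) (nat_lit 10) (node (nat_lit 6) (nat_lit 95752) (nat_lit 11) (node (nat_lit 5)
  (nat_lit 94692) (nat_lit 12) nil nil) nil) (node (nat_lit 5) (nat_lit 84575) (nat_lit 10) nil
  nil)) (node (nat_lit 8) (nat_lit 86311) (nat_lit 9) (node (nat_lit 6) (nat_lit 86815) (nat_lit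
  10) (node (nat_lit 5) (nat_lit 84801) (nat_lit 11) nil nil) nil) (node (nat_lit 4) (nat_lit
  89215) (nat_lit 9) nil (node (nat_lit 0) (nat_lit 89422) (nat_lit 9) nil nil)))) (node (nat_lit
  4) (nat_lit 92093) (nat_lit 8) nil (node (nat_lit 0) (nat_lit 88891) (nat_lit 8) nil nil)))
  (node (nat_lit 5) (nat_lit 80406) (nat_lit 7) (node (nat_lit 6) (nat_lit 80460) (nat_lit 8)
  (node (nat_lit 8) (nat_lit 92527) (nat_lit 9) (node (nat_lit 5) (nat_lit 94490) (nat_lit 10)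
  (node (nat_lit 6) (nat_lit 92067) (nat_lit 11) nil nil) (node (nat_lit 6) (nat_lit 97483)
  (nat_lit 10) (node (nat_lit 5) (nat_lit 98007) (nat_lit 11) (node (nat_lit 8) (nat_lit 98451)
  (nat_lit 12) (node (nat_lit 5) (nat_lit 98419) (nat_lit 13) (node (nat_lit 6) (nat_lit 98017)
  (nat_lit 14) (node (nat_lit 5) (nat_lit 97854) (nat_lit 15) nil nil) nil) nil) nil) nil) nil))
  (node (nat_lit 4) (nat_lit 97075) (nat_lit 9) nil (node (nat_lit 0) (nat_lit 89390) (nat_lit 9)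
  nil nil))) (node (nat_lit 4) (nat_lit 100351) (nat_lit 8) (node (nat_lit 5) (nat_lit 98069)
  (nat_lit 9) (node (nat_lit 6) (nat_lit 95996) (nat_lit 10) nil nil) nil) (node (nat_lit 0)
  (nat_lit 100073) (nat_lit 8) nil nil))) (node (nat_lit 4) (nat_lit 99494) (nat_lit 7) (node
  (nat_lit 5) (nat_lit 90570) (nat_lit 8) (node (nat_lit 6) (nat_lit 85269) (nat_lit 9) (node
  (nat_lit 5) (nat_lit 83935) (nat_lit 10) (node (nat_lit 8) (nat_lit 65874) (nat_lit 11) nil nil)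
  nil) nil) (node (nat_lit 6) (nat_lit 99494) (nat_lit 8) nil nil)) (node (nat_lit 0) (nat_lit
  98901) (nat_lit 7) nil nil)))) (node (nat_lit 4) (nat_lit 103719) (nat_lit 6) (node (nat_lit 5)
  (nat_lit 97483) (nat_lit 7) (node (nat_lit 6) (nat_lit 91597) (nat_lit 8) (node (nat_lit 5)
  (nat_lit 74204) (nat_lit 9) nil nil) nil) nil) (node (nat_lit 5) (nat_lit 80342) (nat_lit 6)
  (node (nat_lit 6) (nat_lit 80342) (nat_lit 7) (node (nat_lit 8) (nat_lit 80433) (nat_lit 8)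
  (node (nat_lit 6) (nat_lit 89030) (nat_lit 9) (node (nat_lit 5) (nat_lit 91249) (nat_lit 10)
  (node (nat_lit 6) (nat_lit 90146) (nat_lit 11) nil (node (nat_lit 8) (nat_lit 87324) (nat_lit
  11) nil nil)) nil) (node (nat_lit 5) (nat_lit 89176) (nat_lit 9) (node (nat_lit 8) (nat_lit
  93796) (nat_lit 10) (node (nat_lit 6) (nat_lit 92988) (nat_lit 11) (node (nat_lit 5) (nat_lit
  92263) (nat_lit 12) (node (nat_lit 8) (nat_lit 92099) (nat_lit 13) nil nil) nil) nil) nil) (node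
  (nat_lit 4) (nat_lit 85321) (nat_lit 9) nil (node (nat_lit 0) (nat_lit 89363) (nat_lit 9) nil
  nil)))) (node (nat_lit 4) (nat_lit 95647) (nat_lit 8) nil (node (nat_lit 0) (nat_lit 88890)
  (nat_lit 8) nil (node (nat_lit 5) (nat_lit 80342) (nat_lit 8) nil nil)))) (node (nat_lit 4)
  (nat_lit 96823) (nat_lit 7) (node (nat_lit 5) (nat_lit 93416) (nat_lit 8) nil nil) (node
  (nat_lit 0) (nat_lit 91973) (nat_lit 7) nil nil))) (node (nat_lit 0) (nat_lit 97459) (nat_lit 6)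
  nil nil)))) (node (nat_lit 0) (nat_lit 104229) (nat_lit 5) (node (nat_lit 5) (nat_lit 104229)
  (nat_lit 6) nil (node (nat_lit 6) (nat_lit 104229) (nat_lit 6) nil nil)) nil))) (node (nat_lit
  0) (nat_lit 103281) (nat_lit 4) (node (nat_lit 5) (nat_lit 103281) (nat_lit 5) (node (nat_lit 4)
  (nat_lit 105306) (nat_lit 6) (node (nat_lit 5) (nat_lit 105306) (nat_lit 7) (node (nat_lit 6)
  (nat_lit 105306) (nat_lit 8) (node (nat_lit 7) (nat_lit 71286) (nat_lit 9) nil nil) nil) nil)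
  nil) (node (nat_lit 4) (nat_lit 104449) (nat_lit 5) (node (nat_lit 6) (nat_lit 104449) (nat_lit
  6) (node (nat_lit 4) (nat_lit 105953) (nat_lit 7) (node (nat_lit 5) (nat_lit 105953) (nat_lit 8)
  (node (nat_lit 6) (nat_lit 105953) (nat_lit 9) (node (nat_lit 7) (nat_lit 107121) (nat_lit 10)
  (node (nat_lit 4) (nat_lit 71708) (nat_lit 11) nil nil) nil) nil) nil) nil) nil) nil)) nil)))

noncomputable def c9 : Tr :=
  (node (nat_lit 3) (nat_lit 0) (nat_lit 1) t300 (node (nat_lit 0) (nat_lit 0) (nat_lit 1) (node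
  (nat_lit 3) (nat_lit 0) (nat_lit 2) (node (nat_lit 3) (nat_lit 0) (nat_lit 3) (node (nat_lit 4)
  (nat_lit 0) (nat_lit 4) (node (nat_lit 5) (nat_lit 0) (nat_lit 5) (node (nat_lit 4) (nat_lit
  81841) (nat_lit 6) (node (nat_lit 6) (nat_lit 81841) (nat_lit 7) (node (nat_lit 4) (nat_lit
  82729) (nat_lit 8) (node (nat_lit 5) (nat_lit 82729) (nat_lit 9) (node (nat_lit 6) (nat_lit
  82729) (nat_lit 10) (node (nat_lit 5) (nat_lit 82729) (nat_lit 11) (node (nat_lit 4) (nat_lit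
  83096) (nat_lit 12) nil nil) nil) nil) nil) (node (nat_lit 5) (nat_lit 81841) (nat_lit 8) nil
  nil)) (node (nat_lit 3) (nat_lit 82569) (nat_lit 7) nil nil)) (node (nat_lit 3) (nat_lit 80420)
  (nat_lit 6) (node (nat_lit 4) (nat_lit 82173) (nat_lit 7) nil nil) (node (nat_lit 0) (nat_lit
  81681) (nat_lit 6) nil nil))) (node (nat_lit 6) (nat_lit 0) (nat_lit 5) (node (nat_lit 5)
  (nat_lit 95321) (nat_lit 6) (node (nat_lit 4) (nat_lit 100397) (nat_lit 7) (node (nat_lit 5)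
  (nat_lit 100397) (nat_lit 8) (node (nat_lit 6) (nat_lit 100397) (nat_lit 9) (node (nat_lit 4)
  (nat_lit 81996) (nat_lit 10) (node (nat_lit 6) (nat_lit 61815) (nat_lit 11) nil nil) nil) nil)
  (node (nat_lit 6) (nat_lit 100397) (nat_lit 8) (node (nat_lit 4) (nat_lit 101790) (nat_lit 9)
  (node (nat_lit 5) (nat_lit 101790) (nat_lit 10) (node (nat_lit 6) (nat_lit 101790) (nat_lit 11)
  (node (nat_lit 4) (nat_lit 102928) (nat_lit 12) (node (nat_lit 6) (nat_lit 102928) (nat_lit 13)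
  (node (nat_lit 5) (nat_lit 102928) (nat_lit 14) (node (nat_lit 4) (nat_lit 82897) (nat_lit 15)
  nil nil) nil) nil) nil) nil) nil) nil) nil)) nil) (node (nat_lit 3) (nat_lit 97994) (nat_lit 6)
  nil (node (nat_lit 0) (nat_lit 100019) (nat_lit 6) nil nil))) (node (nat_lit 3) (nat_lit 99517)
  (nat_lit 5) (node (nat_lit 6) (nat_lit 99517) (nat_lit 6) nil nil) (node (nat_lit 0) (nat_lit
  99162) (nat_lit 5) nil nil)))) t301) (node (nat_lit 4) (nat_lit 0) (nat_lit 3) (node (nat_lit 3)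
  (nat_lit 0) (nat_lit 4) (node (nat_lit 5) (nat_lit 75565) (nat_lit 5) (node (nat_lit 7) (nat_lit
  75565) (nat_lit 6) (node (nat_lit 4) (nat_lit 82554) (nat_lit 7) (node (nat_lit 5) (nat_lit
  82554) (nat_lit 8) (node (nat_lit 4) (nat_lit 75258) (nat_lit 9) (node (nat_lit 7) (nat_lit
  62351) (nat_lit 10) (node (nat_lit 5) (nat_lit 41277) (nat_lit 11) nil (node (nat_lit 4)
  (nat_lit 62541) (nat_lit 11) nil (node (nat_lit 3) (nat_lit 62351) (nat_lit 11) nil (node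
  (nat_lit 0) (nat_lit 62541) (nat_lit 11) nil nil)))) nil) nil) nil) (node (nat_lit 3) (nat_lit
  78937) (nat_lit 7) (node (nat_lit 5) (nat_lit 78937) (nat_lit 8) nil (node (nat_lit 7) (nat_lit
  78937) (nat_lit 8) nil nil)) (node (nat_lit 0) (nat_lit 81896) (nat_lit 7) nil nil))) (node
  (nat_lit 4) (nat_lit 81024) (nat_lit 6) nil (node (nat_lit 3) (nat_lit 79502) (nat_lit 6) (node
  (nat_lit 7) (nat_lit 79502) (nat_lit 7) nil (node (nat_lit 5) (nat_lit 79502) (nat_lit 7) nil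
  (node (nat_lit 4) (nat_lit 82110) (nat_lit 7) (node (nat_lit 5) (nat_lit 82110) (nat_lit 8)
  (node (nat_lit 4) (nat_lit 68314) (nat_lit 9) (node (nat_lit 7) (nat_lit 60425) (nat_lit 10)
  (node (nat_lit 5) (nat_lit 41137) (nat_lit 11) nil nil) nil) nil) nil) nil))) (node (nat_lit 0)
  (nat_lit 81658) (nat_lit 6) nil nil)))) (node (nat_lit 4) (nat_lit 81478) (nat_lit 5) (node
  (nat_lit 5) (nat_lit 81478) (nat_lit 6) (node (nat_lit 7) (nat_lit 81478) (nat_lit 7) (node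
  (nat_lit 5) (nat_lit 81478) (nat_lit 8) (node (nat_lit 4) (nat_lit 82554) (nat_lit 9) nil nil)
  nil) (node (nat_lit 4) (nat_lit 41277) (nat_lit 7) nil nil)) nil) (node (nat_lit 3) (nat_lit
  79519) (nat_lit 5) (node (nat_lit 5) (nat_lit 79519) (nat_lit 6) (node (nat_lit 7) (nat_lit
  79519) (nat_lit 7) (node (nat_lit 5) (nat_lit 79519) (nat_lit 8) (node (nat_lit 8) (nat_lit
  79519) (nat_lit 9) (node (nat_lit 7) (nat_lit 79519) (nat_lit 10) (node (nat_lit 8) (nat_lit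
  80082) (nat_lit 11) nil nil) nil) nil) (node (nat_lit 8) (nat_lit 79519) (nat_lit 8) (node
  (nat_lit 7) (nat_lit 79519) (nat_lit 9) (node (nat_lit 5) (nat_lit 78889) (nat_lit 10) (node
  (nat_lit 7) (nat_lit 78543) (nat_lit 11) nil (node (nat_lit 8) (nat_lit 78543) (nat_lit 11) nil
  nil)) nil) nil) (node (nat_lit 4) (nat_lit 82553) (nat_lit 8) nil (node (nat_lit 0) (nat_lit
  82553) (nat_lit 8) nil nil)))) (node (nat_lit 8) (nat_lit 79519) (nat_lit 7) (node (nat_lit 7)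
  (nat_lit 79519) (nat_lit 8) (node (nat_lit 5) (nat_lit 79519) (nat_lit 9) (node (nat_lit 7)
  (nat_lit 79519) (nat_lit 10) (node (nat_lit 8) (nat_lit 78968) (nat_lit 11) nil nil) nil) (node
  (nat_lit 8) (nat_lit 79519) (nat_lit 9) (node (nat_lit 5) (nat_lit 78889) (nat_lit 10) nil nil)
  nil)) (node (nat_lit 4) (nat_lit 82553) (nat_lit 8) nil (node (nat_lit 0) (nat_lit 82553)
  (nat_lit 8) nil nil))) (node (nat_lit 4) (nat_lit 82291) (nat_lit 7) nil (node (nat_lit 0)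
  (nat_lit 82291) (nat_lit 7) nil nil)))) (node (nat_lit 4) (nat_lit 82338) (nat_lit 6) nil (node
  (nat_lit 7) (nat_lit 79519) (nat_lit 6) (node (nat_lit 4) (nat_lit 82291) (nat_lit 7) nil (node
  (nat_lit 5) (nat_lit 79519) (nat_lit 7) (node (nat_lit 8) (nat_lit 79519) (nat_lit 8) nil nil)
  (node (nat_lit 0) (nat_lit 82291) (nat_lit 7) nil nil))) (node (nat_lit 0) (nat_lit 82338)
  (nat_lit 6) nil nil)))) (node (nat_lit 0) (nat_lit 82554) (nat_lit 5) nil nil)))) (node (nat_lit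
  0) (nat_lit 82300) (nat_lit 4) (node (nat_lit 5) (nat_lit 82300) (nat_lit 5) nil nil) nil))
  (node (nat_lit 0) (nat_lit 0) (nat_lit 3) (node (nat_lit 3) (nat_lit 98997) (nat_lit 4) (node
  (nat_lit 5) (nat_lit 98997) (nat_lit 5) (node (nat_lit 7) (nat_lit 98997) (nat_lit 6) (node
  (nat_lit 4) (nat_lit 101412) (nat_lit 7) (node (nat_lit 5) (nat_lit 101412) (nat_lit 8) (node
  (nat_lit 6) (nat_lit 94950) (nat_lit 9) (node (nat_lit 7) (nat_lit 85445) (nat_lit 10) (node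
  (nat_lit 5) (nat_lit 66942) (nat_lit 11) nil nil) nil) nil) nil) nil) (node (nat_lit 4) (nat_lit
  101412) (nat_lit 6) (node (nat_lit 5) (nat_lit 101412) (nat_lit 7) (node (nat_lit 6) (nat_lit
  80769) (nat_lit 8) (node (nat_lit 7) (nat_lit 68940) (nat_lit 9) nil nil) nil) nil) nil)) nil)
  (node (nat_lit 5) (nat_lit 0) (nat_lit 4) (node (nat_lit 3) (nat_lit 98997) (nat_lit 5) nil
  (node (nat_lit 4) (nat_lit 100800) (nat_lit 5) (node (nat_lit 5) (nat_lit 100800) (nat_lit 6)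
  (node (nat_lit 6) (nat_lit 68940) (nat_lit 7) nil nil) nil) (node (nat_lit 0) (nat_lit 100951)
  (nat_lit 5) nil nil))) (node (nat_lit 4) (nat_lit 100599) (nat_lit 4) (node (nat_lit 3) (nat_lit
  101314) (nat_lit 5) (node (nat_lit 4) (nat_lit 101412) (nat_lit 6) (node (nat_lit 5) (nat_lit
  101412) (nat_lit 7) (node (nat_lit 6) (nat_lit 101412) (nat_lit 8) (node (nat_lit 4) (nat_lit
  66942) (nat_lit 9) nil nil) nil) nil) nil) (node (nat_lit 6) (nat_lit 101261) (nat_lit 5) (node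
  (nat_lit 5) (nat_lit 101261) (nat_lit 6) (node (nat_lit 4) (nat_lit 101412) (nat_lit 7) (node
  (nat_lit 5) (nat_lit 101412) (nat_lit 8) (node (nat_lit 6) (nat_lit 101412) (nat_lit 9) (node
  (nat_lit 4) (nat_lit 101412) (nat_lit 10) (node (nat_lit 6) (nat_lit 68940) (nat_lit 11) nil
  nil) nil) nil) nil) nil) nil) (node (nat_lit 5) (nat_lit 100599) (nat_lit 5) nil nil))) (node
  (nat_lit 0) (nat_lit 101314) (nat_lit 4) (node (nat_lit 5) (nat_lit 101314) (nat_lit 5) nil nil)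
  nil)))) nil))) (node (nat_lit 0) (nat_lit 0) (nat_lit 2) (node (nat_lit 3) (nat_lit 0) (nat_lit
  3) (node (nat_lit 3) (nat_lit 0) (nat_lit 4) (node (nat_lit 5) (nat_lit 99838) (nat_lit 5) nil
  (node (nat_lit 6) (nat_lit 96032) (nat_lit 5) (node (nat_lit 4) (nat_lit 100245) (nat_lit 6)
  (node (nat_lit 5) (nat_lit 93239) (nat_lit 7) (node (nat_lit 6) (nat_lit 82007) (nat_lit 8) nil
  nil) nil) (node (nat_lit 3) (nat_lit 96032) (nat_lit 6) nil nil)) (node (nat_lit 3) (nat_lit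
  96032) (nat_lit 5) (node (nat_lit 7) (nat_lit 96032) (nat_lit 6) nil (node (nat_lit 6) (nat_lit
  96032) (nat_lit 6) nil nil)) (node (nat_lit 4) (nat_lit 101803) (nat_lit 5) (node (nat_lit 5)
  (nat_lit 84330) (nat_lit 6) (node (nat_lit 6) (nat_lit 66327) (nat_lit 7) nil nil) nil) (node
  (nat_lit 0) (nat_lit 99838) (nat_lit 5) nil nil))))) (node (nat_lit 4) (nat_lit 104375) (nat_lit
  4) (node (nat_lit 5) (nat_lit 70564) (nat_lit 5) (node (nat_lit 4) (nat_lit 70564) (nat_lit 6)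
  (node (nat_lit 6) (nat_lit 70564) (nat_lit 7) (node (nat_lit 4) (nat_lit 70564) (nat_lit 8) nil
  nil) nil) nil) (node (nat_lit 6) (nat_lit 104375) (nat_lit 5) nil (node (nat_lit 3) (nat_lit
  104375) (nat_lit 5) (node (nat_lit 4) (nat_lit 104375) (nat_lit 6) (node (nat_lit 5) (nat_lit
  104375) (nat_lit 7) (node (nat_lit 6) (nat_lit 104375) (nat_lit 8) (node (nat_lit 4) (nat_lit
  68392) (nat_lit 9) nil nil) nil) nil) nil) nil))) (node (nat_lit 5) (nat_lit 99153) (nat_lit 4)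
  (node (nat_lit 4) (nat_lit 99838) (nat_lit 5) (node (nat_lit 6) (nat_lit 99838) (nat_lit 6)
  (node (nat_lit 4) (nat_lit 100508) (nat_lit 7) (node (nat_lit 5) (nat_lit 100715) (nat_lit 8)
  (node (nat_lit 6) (nat_lit 100715) (nat_lit 9) (node (nat_lit 5) (nat_lit 100925) (nat_lit 10)
  (node (nat_lit 4) (nat_lit 68595) (nat_lit 11) nil nil) nil) nil) nil) nil) nil) nil) (node
  (nat_lit 0) (nat_lit 104375) (nat_lit 4) nil nil)))) (node (nat_lit 0) (nat_lit 0) (nat_lit 3)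
  (node (nat_lit 3) (nat_lit 111056) (nat_lit 4) nil (node (nat_lit 4) (nat_lit 0) (nat_lit 4)
  (node (nat_lit 6) (nat_lit 115153) (nat_lit 5) (node (nat_lit 5) (nat_lit 115573) (nat_lit 6)
  (node (nat_lit 4) (nat_lit 115573) (nat_lit 7) nil nil) nil) (node (nat_lit 3) (nat_lit 113877)
  (nat_lit 5) nil (node (nat_lit 5) (nat_lit 115153) (nat_lit 5) nil (node (nat_lit 0) (nat_lit
  115153) (nat_lit 5) nil nil)))) (node (nat_lit 5) (nat_lit 0) (nat_lit 4) (node (nat_lit 4)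
  (nat_lit 115153) (nat_lit 5) nil (node (nat_lit 3) (nat_lit 113877) (nat_lit 5) nil (node
  (nat_lit 0) (nat_lit 115153) (nat_lit 5) nil nil))) (node (nat_lit 0) (nat_lit 113877) (nat_lit
  4) nil nil)))) (node (nat_lit 4) (nat_lit 0) (nat_lit 3) (node (nat_lit 3) (nat_lit 108627)
  (nat_lit 4) (node (nat_lit 4) (nat_lit 112072) (nat_lit 5) (node (nat_lit 5) (nat_lit 113214)
  (nat_lit 6) (node (nat_lit 4) (nat_lit 76463) (nat_lit 7) nil nil) nil) nil) (node (nat_lit 0)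
  (nat_lit 0) (nat_lit 4) (node (nat_lit 4) (nat_lit 114695) (nat_lit 5) (node (nat_lit 5)
  (nat_lit 114695) (nat_lit 6) (node (nat_lit 7) (nat_lit 114695) (nat_lit 7) nil nil) nil) (node
  (nat_lit 5) (nat_lit 114695) (nat_lit 5) nil (node (nat_lit 3) (nat_lit 114346) (nat_lit 5) nil
  (node (nat_lit 0) (nat_lit 114695) (nat_lit 5) nil nil)))) nil)) nil))) nil)) nil))

noncomputable def t302 : Tr :=
  (node (nat_lit 4) (nat_lit 0) (nat_lit 7) (node (nat_lit 5) (nat_lit 0) (nat_lit 8) (node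
  (nat_lit 6) (nat_lit 0) (nat_lit 9) (node (nat_lit 4) (nat_lit 0) (nat_lit 10) (node (nat_lit 5)
  (nat_lit 0) (nat_lit 11) (node (nat_lit 4) (nat_lit 0) (nat_lit 12) (node (nat_lit 6) (nat_lit
  0) (nat_lit 13) (node (nat_lit 5) (nat_lit 0) (nat_lit 14) (node (nat_lit 4) (nat_lit 41392)
  (nat_lit 15) (node (nat_lit 5) (nat_lit 0) (nat_lit 16) (node (nat_lit 6) (nat_lit 42430)
  (nat_lit 17) (node (nat_lit 5) (nat_lit 42669) (nat_lit 18) (node (nat_lit 4) (nat_lit 42511)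
  (nat_lit 19) nil nil) (node (nat_lit 4) (nat_lit 42669) (nat_lit 18) (node (nat_lit 6) (nat_lit
  42856) (nat_lit 19) (node (nat_lit 5) (nat_lit 43002) (nat_lit 20) (node (nat_lit 4) (nat_lit
  42908) (nat_lit 21) (node (nat_lit 5) (nat_lit 42997) (nat_lit 22) nil nil) nil) nil) nil) nil))
  (node (nat_lit 0) (nat_lit 43055) (nat_lit 17) nil nil)) nil) (node (nat_lit 6) (nat_lit 0)
  (nat_lit 15) (node (nat_lit 4) (nat_lit 41975) (nat_lit 16) (node (nat_lit 5) (nat_lit 42138)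
  (nat_lit 17) (node (nat_lit 6) (nat_lit 42494) (nat_lit 18) (node (nat_lit 5) (nat_lit 42680)
  (nat_lit 19) nil nil) nil) nil) (node (nat_lit 0) (nat_lit 43230) (nat_lit 16) nil nil)) (node
  (nat_lit 0) (nat_lit 42418) (nat_lit 15) nil nil))) (node (nat_lit 4) (nat_lit 0) (nat_lit 14)
  (node (nat_lit 5) (nat_lit 41392) (nat_lit 15) (node (nat_lit 6) (nat_lit 41433) (nat_lit 16)
  (node (nat_lit 5) (nat_lit 41715) (nat_lit 17) (node (nat_lit 4) (nat_lit 41619) (nat_lit 18)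
  (node (nat_lit 6) (nat_lit 41214) (nat_lit 19) nil (node (nat_lit 5) (nat_lit 41805) (nat_lit
  19) (node (nat_lit 6) (nat_lit 41952) (nat_lit 20) (node (nat_lit 4) (nat_lit 42065) (nat_lit
  21) (node (nat_lit 6) (nat_lit 42154) (nat_lit 22) (node (nat_lit 5) (nat_lit 42223) (nat_lit
  23) (node (nat_lit 4) (nat_lit 42178) (nat_lit 24) (node (nat_lit 5) (nat_lit 42220) (nat_lit
  25) (node (nat_lit 6) (nat_lit 42253) (nat_lit 26) nil nil) nil) nil) nil) nil) nil) nil) nil))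
  nil) (node (nat_lit 4) (nat_lit 35736) (nat_lit 17) (node (nat_lit 6) (nat_lit 34877) (nat_lit
  18) (node (nat_lit 5) (nat_lit 31295) (nat_lit 19) (node (nat_lit 4) (nat_lit 26233) (nat_lit
  20) (node (nat_lit 5) (nat_lit 26425) (nat_lit 21) (node (nat_lit 6) (nat_lit 26600) (nat_lit
  22) nil nil) nil) nil) nil) nil) nil)) nil) (node (nat_lit 0) (nat_lit 42418) (nat_lit 15) nil
  nil)) (node (nat_lit 0) (nat_lit 42970) (nat_lit 14) nil nil))) (node (nat_lit 0) (nat_lit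
  42669) (nat_lit 13) (node (nat_lit 5) (nat_lit 42669) (nat_lit 14) nil nil) nil)) (node (nat_lit
  0) (nat_lit 42281) (nat_lit 12) (node (nat_lit 4) (nat_lit 42281) (nat_lit 13) nil (node
  (nat_lit 5) (nat_lit 42281) (nat_lit 13) nil (node (nat_lit 6) (nat_lit 42281) (nat_lit 13) nil
  nil))) nil)) (node (nat_lit 0) (nat_lit 41784) (nat_lit 11) (node (nat_lit 4) (nat_lit 41784)
  (nat_lit 12) nil (node (nat_lit 6) (nat_lit 41784) (nat_lit 12) nil (node (nat_lit 5) (nat_lit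
  41784) (nat_lit 12) nil nil))) (node (nat_lit 6) (nat_lit 0) (nat_lit 11) (node (nat_lit 0)
  (nat_lit 42281) (nat_lit 12) (node (nat_lit 4) (nat_lit 42281) (nat_lit 13) nil (node (nat_lit
  6) (nat_lit 42281) (nat_lit 13) nil (node (nat_lit 5) (nat_lit 42281) (nat_lit 13) nil nil)))
  nil) nil))) (node (nat_lit 5) (nat_lit 0) (nat_lit 10) (node (nat_lit 4) (nat_lit 0) (nat_lit
  11) (node (nat_lit 6) (nat_lit 0) (nat_lit 12) (node (nat_lit 4) (nat_lit 0) (nat_lit 13) (node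
  (nat_lit 5) (nat_lit 0) (nat_lit 14) (node (nat_lit 6) (nat_lit 0) (nat_lit 15) (node (nat_lit
  4) (nat_lit 0) (nat_lit 16) (node (nat_lit 6) (nat_lit 0) (nat_lit 17) (node (nat_lit 5)
  (nat_lit 0) (nat_lit 18) (node (nat_lit 6) (nat_lit 45134) (nat_lit 19) (node (nat_lit 4)
  (nat_lit 45362) (nat_lit 20) (node (nat_lit 5) (nat_lit 45461) (nat_lit 21) (node (nat_lit 4)
  (nat_lit 45460) (nat_lit 22) (node (nat_lit 6) (nat_lit 45432) (nat_lit 23) nil nil) nil) nil)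
  nil) (node (nat_lit 4) (nat_lit 44806) (nat_lit 19) (node (nat_lit 6) (nat_lit 44617) (nat_lit
  20) nil (node (nat_lit 5) (nat_lit 39431) (nat_lit 20) (node (nat_lit 6) (nat_lit 19433)
  (nat_lit 21) (node (nat_lit 4) (nat_lit 19586) (nat_lit 22) nil nil) nil) nil)) (node (nat_lit
  0) (nat_lit 45667) (nat_lit 19) nil nil))) (node (nat_lit 0) (nat_lit 53513) (nat_lit 18) nil
  nil)) (node (nat_lit 0) (nat_lit 54693) (nat_lit 17) nil nil)) (node (nat_lit 5) (nat_lit 0)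
  (nat_lit 16) (node (nat_lit 4) (nat_lit 59612) (nat_lit 17) (node (nat_lit 5) (nat_lit 60319)
  (nat_lit 18) (node (nat_lit 6) (nat_lit 60847) (nat_lit 19) (node (nat_lit 4) (nat_lit 60386)
  (nat_lit 20) (node (nat_lit 6) (nat_lit 59063) (nat_lit 21) (node (nat_lit 5) (nat_lit 56909)
  (nat_lit 22) (node (nat_lit 4) (nat_lit 52560) (nat_lit 23) (node (nat_lit 5) (nat_lit 42015)
  (nat_lit 24) (node (nat_lit 6) (nat_lit 42057) (nat_lit 25) (node (nat_lit 5) (nat_lit 42090)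
  (nat_lit 26) (node (nat_lit 4) (nat_lit 42068) (nat_lit 27) (node (nat_lit 6) (nat_lit 42075)
  (nat_lit 28) (node (nat_lit 4) (nat_lit 42074) (nat_lit 29) (node (nat_lit 5) (nat_lit 42080)
  (nat_lit 30) nil nil) nil) nil) nil) nil) nil) nil) nil) nil) nil) nil) nil) nil) (node (nat_lit
  0) (nat_lit 61239) (nat_lit 17) nil nil)) (node (nat_lit 0) (nat_lit 60662) (nat_lit 16) nil
  nil))) (node (nat_lit 4) (nat_lit 0) (nat_lit 15) (node (nat_lit 6) (nat_lit 0) (nat_lit 16)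
  (node (nat_lit 5) (nat_lit 60568) (nat_lit 17) (node (nat_lit 6) (nat_lit 61263) (nat_lit 18)
  (node (nat_lit 4) (nat_lit 61598) (nat_lit 19) (node (nat_lit 5) (nat_lit 61862) (nat_lit 20)
  nil nil) nil) (node (nat_lit 4) (nat_lit 61083) (nat_lit 18) (node (nat_lit 5) (nat_lit 61524)
  (nat_lit 19) (node (nat_lit 6) (nat_lit 61903) (nat_lit 20) (node (nat_lit 4) (nat_lit 62212)
  (nat_lit 21) (node (nat_lit 6) (nat_lit 62454) (nat_lit 22) (node (nat_lit 5) (nat_lit 62642)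
  (nat_lit 23) (node (nat_lit 4) (nat_lit 62660) (nat_lit 24) nil nil) nil) nil) nil) nil) nil)
  nil)) (node (nat_lit 0) (nat_lit 61527) (nat_lit 17) nil nil)) (node (nat_lit 0) (nat_lit 60877)
  (nat_lit 16) nil nil)) (node (nat_lit 0) (nat_lit 61572) (nat_lit 15) nil nil))) (node (nat_lit
  0) (nat_lit 61756) (nat_lit 14) nil nil)) (node (nat_lit 5) (nat_lit 0) (nat_lit 13) (node
  (nat_lit 6) (nat_lit 0) (nat_lit 14) (node (nat_lit 4) (nat_lit 0) (nat_lit 15) (node (nat_lit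
  5) (nat_lit 0) (nat_lit 16) (node (nat_lit 4) (nat_lit 0) (nat_lit 17) (node (nat_lit 6)
  (nat_lit 61524) (nat_lit 18) (node (nat_lit 4) (nat_lit 61977) (nat_lit 19) (node (nat_lit 5)
  (nat_lit 61256) (nat_lit 20) nil nil) (node (nat_lit 5) (nat_lit 61387) (nat_lit 19) (node
  (nat_lit 4) (nat_lit 60898) (nat_lit 20) nil nil) nil)) (node (nat_lit 0) (nat_lit 62314)
  (nat_lit 18) nil nil)) (node (nat_lit 6) (nat_lit 60798) (nat_lit 17) (node (nat_lit 5) (nat_lit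
  61402) (nat_lit 18) (node (nat_lit 4) (nat_lit 61476) (nat_lit 19) (node (nat_lit 6) (nat_lit
  61632) (nat_lit 20) nil (node (nat_lit 5) (nat_lit 60755) (nat_lit 20) nil nil)) nil) nil) (node
  (nat_lit 0) (nat_lit 61685) (nat_lit 17) nil nil))) (node (nat_lit 6) (nat_lit 59741) (nat_lit
  16) (node (nat_lit 5) (nat_lit 0) (nat_lit 17) (node (nat_lit 4) (nat_lit 61484) (nat_lit 18)
  (node (nat_lit 6) (nat_lit 61993) (nat_lit 19) (node (nat_lit 4) (nat_lit 62349) (nat_lit 20)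
  (node (nat_lit 5) (nat_lit 62553) (nat_lit 21) (node (nat_lit 6) (nat_lit 62576) (nat_lit 22)
  nil nil) nil) nil) (node (nat_lit 5) (nat_lit 61789) (nat_lit 19) (node (nat_lit 6) (nat_lit
  59942) (nat_lit 20) nil nil) nil)) (node (nat_lit 0) (nat_lit 62314) (nat_lit 18) nil nil)) nil)
  (node (nat_lit 0) (nat_lit 62135) (nat_lit 16) nil nil))) (node (nat_lit 0) (nat_lit 62281)
  (nat_lit 15) (node (nat_lit 5) (nat_lit 62281) (nat_lit 16) nil nil) nil)) (node (nat_lit 0)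
  (nat_lit 61756) (nat_lit 14) (node (nat_lit 5) (nat_lit 61756) (nat_lit 15) nil nil) nil)) (node
  (nat_lit 0) (nat_lit 60825) (nat_lit 13) nil nil))) (node (nat_lit 0) (nat_lit 59967) (nat_lit
  12) (node (nat_lit 6) (nat_lit 59967) (nat_lit 13) nil (node (nat_lit 4) (nat_lit 59967)
  (nat_lit 13) nil (node (nat_lit 5) (nat_lit 59967) (nat_lit 13) nil nil))) nil)) (node (nat_lit
  0) (nat_lit 58543) (nat_lit 11) (node (nat_lit 5) (nat_lit 58543) (nat_lit 12) nil (node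
  (nat_lit 6) (nat_lit 58543) (nat_lit 12) nil (node (nat_lit 4) (nat_lit 58543) (nat_lit 12) nil
  nil))) nil)) (node (nat_lit 0) (nat_lit 0) (nat_lit 10) (node (nat_lit 4) (nat_lit 56745)
  (nat_lit 11) (node (nat_lit 6) (nat_lit 56745) (nat_lit 12) (node (nat_lit 5) (nat_lit 56745)
  (nat_lit 13) nil (node (nat_lit 4) (nat_lit 56745) (nat_lit 13) nil nil)) (node (nat_lit 5)
  (nat_lit 56891) (nat_lit 12) (node (nat_lit 6) (nat_lit 56891) (nat_lit 13) (node (nat_lit 4)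
  (nat_lit 56891) (nat_lit 14) nil (node (nat_lit 5) (nat_lit 56891) (nat_lit 14) nil nil)) (node
  (nat_lit 4) (nat_lit 56891) (nat_lit 13) nil nil)) nil)) (node (nat_lit 5) (nat_lit 56745)
  (nat_lit 11) (node (nat_lit 4) (nat_lit 56745) (nat_lit 12) (node (nat_lit 6) (nat_lit 56745)
  (nat_lit 13) nil nil) (node (nat_lit 6) (nat_lit 56745) (nat_lit 12) (node (nat_lit 5) (nat_lit
  56745) (nat_lit 13) (node (nat_lit 4) (nat_lit 56745) (nat_lit 14) nil nil) (node (nat_lit 4)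
  (nat_lit 56745) (nat_lit 13) nil nil)) nil)) (node (nat_lit 6) (nat_lit 56539) (nat_lit 11)
  (node (nat_lit 5) (nat_lit 56539) (nat_lit 12) (node (nat_lit 4) (nat_lit 56539) (nat_lit 13)
  nil (node (nat_lit 6) (nat_lit 56539) (nat_lit 13) nil nil)) (node (nat_lit 4) (nat_lit 56539)
  (nat_lit 12) (node (nat_lit 5) (nat_lit 56539) (nat_lit 13) nil (node (nat_lit 6) (nat_lit
  56539) (nat_lit 13) nil nil)) nil)) (node (nat_lit 0) (nat_lit 57899) (nat_lit 11) nil nil))))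
  nil))) (node (nat_lit 0) (nat_lit 75679) (nat_lit 9) (node (nat_lit 6) (nat_lit 75679) (nat_lit
  10) (node (nat_lit 4) (nat_lit 75679) (nat_lit 11) nil (node (nat_lit 5) (nat_lit 75679)
  (nat_lit 11) nil nil)) (node (nat_lit 4) (nat_lit 75679) (nat_lit 10) (node (nat_lit 6) (nat_lit
  75679) (nat_lit 11) nil (node (nat_lit 5) (nat_lit 75679) (nat_lit 11) nil nil)) (node (nat_lit
  5) (nat_lit 75679) (nat_lit 10) nil nil))) nil)) (node (nat_lit 6) (nat_lit 0) (nat_lit 8) (node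
  (nat_lit 4) (nat_lit 0) (nat_lit 9) (node (nat_lit 5) (nat_lit 0) (nat_lit 10) (node (nat_lit 6)
  (nat_lit 0) (nat_lit 11) (node (nat_lit 5) (nat_lit 0) (nat_lit 12) (node (nat_lit 4) (nat_lit
  0) (nat_lit 13) (node (nat_lit 5) (nat_lit 0) (nat_lit 14) (node (nat_lit 6) (nat_lit 73247)
  (nat_lit 15) (node (nat_lit 4) (nat_lit 69772) (nat_lit 16) (node (nat_lit 5) (nat_lit 70517)
  (nat_lit 17) (node (nat_lit 4) (nat_lit 70494) (nat_lit 18) nil nil) (node (nat_lit 6) (nat_lit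
  67253) (nat_lit 17) (node (nat_lit 5) (nat_lit 67828) (nat_lit 18) (node (nat_lit 6) (nat_lit
  68163) (nat_lit 19) nil (node (nat_lit 4) (nat_lit 62427) (nat_lit 19) (node (nat_lit 6)
  (nat_lit 62730) (nat_lit 20) (node (nat_lit 4) (nat_lit 62916) (nat_lit 21) (node (nat_lit 5)
  (nat_lit 39181) (nat_lit 22) (node (nat_lit 6) (nat_lit 38946) (nat_lit 23) nil nil) nil) nil)
  nil) nil)) nil) nil)) nil) (node (nat_lit 0) (nat_lit 75042) (nat_lit 15) nil nil)) (node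
  (nat_lit 6) (nat_lit 78116) (nat_lit 14) (node (nat_lit 5) (nat_lit 80539) (nat_lit 15) (node
  (nat_lit 6) (nat_lit 82143) (nat_lit 16) (node (nat_lit 4) (nat_lit 83061) (nat_lit 17) (node
  (nat_lit 6) (nat_lit 83971) (nat_lit 18) (node (nat_lit 5) (nat_lit 83834) (nat_lit 19) (node
  (nat_lit 4) (nat_lit 83080) (nat_lit 20) (node (nat_lit 6) (nat_lit 83205) (nat_lit 21) nil nil)
  nil) nil) nil) nil) nil) (node (nat_lit 0) (nat_lit 81306) (nat_lit 15) nil nil)) (node (nat_lit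
  0) (nat_lit 79029) (nat_lit 14) nil nil))) (node (nat_lit 0) (nat_lit 80471) (nat_lit 13) nil
  nil)) (node (nat_lit 4) (nat_lit 0) (nat_lit 12) (node (nat_lit 6) (nat_lit 0) (nat_lit 13)
  (node (nat_lit 5) (nat_lit 0) (nat_lit 14) (node (nat_lit 6) (nat_lit 0) (nat_lit 15) (node
  (nat_lit 4) (nat_lit 42720) (nat_lit 16) (node (nat_lit 5) (nat_lit 43459) (nat_lit 17) (node
  (nat_lit 4) (nat_lit 43755) (nat_lit 18) (node (nat_lit 6) (nat_lit 44116) (nat_lit 19) (node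
  (nat_lit 5) (nat_lit 43781) (nat_lit 20) nil nil) nil) (node (nat_lit 6) (nat_lit 43578)
  (nat_lit 18) (node (nat_lit 5) (nat_lit 43136) (nat_lit 19) nil nil) nil)) nil) (node (nat_lit
  0) (nat_lit 42982) (nat_lit 16) nil nil)) (node (nat_lit 4) (nat_lit 0) (nat_lit 15) (node
  (nat_lit 5) (nat_lit 0) (nat_lit 16) (node (nat_lit 6) (nat_lit 43665) (nat_lit 17) (node
  (nat_lit 4) (nat_lit 44123) (nat_lit 18) (node (nat_lit 5) (nat_lit 44271) (nat_lit 19) nil
  (node (nat_lit 6) (nat_lit 44557) (nat_lit 19) nil nil)) (node (nat_lit 5) (nat_lit 44222)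
  (nat_lit 18) (node (nat_lit 4) (nat_lit 43434) (nat_lit 19) nil nil) nil)) (node (nat_lit 0)
  (nat_lit 43744) (nat_lit 17) nil nil)) (node (nat_lit 0) (nat_lit 42982) (nat_lit 16) nil nil))
  (node (nat_lit 0) (nat_lit 43997) (nat_lit 15) nil nil))) (node (nat_lit 0) (nat_lit 44014)
  (nat_lit 14) nil nil)) (node (nat_lit 0) (nat_lit 59309) (nat_lit 13) nil nil)) (node (nat_lit
  0) (nat_lit 79698) (nat_lit 12) nil nil))) (node (nat_lit 4) (nat_lit 0) (nat_lit 11) (node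
  (nat_lit 6) (nat_lit 0) (nat_lit 12) (node (nat_lit 5) (nat_lit 0) (nat_lit 13) (node (nat_lit
  6) (nat_lit 0) (nat_lit 14) (node (nat_lit 4) (nat_lit 79019) (nat_lit 15) (node (nat_lit 5)
  (nat_lit 79331) (nat_lit 16) (node (nat_lit 6) (nat_lit 79576) (nat_lit 17) (node (nat_lit 5)
  (nat_lit 79244) (nat_lit 18) nil nil) (node (nat_lit 4) (nat_lit 79292) (nat_lit 17) nil nil))
  (node (nat_lit 0) (nat_lit 81508) (nat_lit 16) nil nil)) (node (nat_lit 0) (nat_lit 81849)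
  (nat_lit 15) nil nil)) (node (nat_lit 4) (nat_lit 0) (nat_lit 14) (node (nat_lit 5) (nat_lit
  78624) (nat_lit 15) (node (nat_lit 6) (nat_lit 76530) (nat_lit 16) (node (nat_lit 4) (nat_lit
  70082) (nat_lit 17) (node (nat_lit 5) (nat_lit 70511) (nat_lit 18) nil (node (nat_lit 6)
  (nat_lit 70934) (nat_lit 18) (node (nat_lit 5) (nat_lit 67641) (nat_lit 19) (node (nat_lit 6)
  (nat_lit 67905) (nat_lit 20) nil (node (nat_lit 4) (nat_lit 57981) (nat_lit 20) (node (nat_lit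
  6) (nat_lit 58211) (nat_lit 21) (node (nat_lit 4) (nat_lit 58299) (nat_lit 22) (node (nat_lit 5)
  (nat_lit 58411) (nat_lit 23) (node (nat_lit 4) (nat_lit 40091) (nat_lit 24) nil nil) nil) nil)
  nil) nil)) nil) nil)) (node (nat_lit 5) (nat_lit 76132) (nat_lit 17) nil nil)) nil) (node
  (nat_lit 0) (nat_lit 80892) (nat_lit 15) nil nil)) (node (nat_lit 0) (nat_lit 78915) (nat_lit
  14) nil nil))) (node (nat_lit 0) (nat_lit 78878) (nat_lit 13) nil nil)) (node (nat_lit 0)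
  (nat_lit 78593) (nat_lit 12) nil nil)) (node (nat_lit 0) (nat_lit 77612) (nat_lit 11) (node
  (nat_lit 5) (nat_lit 77612) (nat_lit 12) nil nil) nil))) (node (nat_lit 0) (nat_lit 75371)
  (nat_lit 10) (node (nat_lit 6) (nat_lit 75371) (nat_lit 11) nil (node (nat_lit 5) (nat_lit
  75371) (nat_lit 11) nil (node (nat_lit 4) (nat_lit 75371) (nat_lit 11) nil nil))) nil)) (node
  (nat_lit 0) (nat_lit 70101) (nat_lit 9) (node (nat_lit 4) (nat_lit 70278) (nat_lit 10) (node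
  (nat_lit 6) (nat_lit 70278) (nat_lit 11) (node (nat_lit 5) (nat_lit 70278) (nat_lit 12) nil nil)
  (node (nat_lit 5) (nat_lit 70278) (nat_lit 11) (node (nat_lit 6) (nat_lit 70278) (nat_lit 12)
  nil nil) nil)) (node (nat_lit 6) (nat_lit 70101) (nat_lit 10) (node (nat_lit 5) (nat_lit 70101)
  (nat_lit 11) nil (node (nat_lit 4) (nat_lit 70101) (nat_lit 11) nil nil)) (node (nat_lit 5)
  (nat_lit 70282) (nat_lit 10) (node (nat_lit 4) (nat_lit 70282) (nat_lit 11) (node (nat_lit 6)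
  (nat_lit 70282) (nat_lit 12) nil nil) (node (nat_lit 6) (nat_lit 70282) (nat_lit 11) (node
  (nat_lit 4) (nat_lit 70282) (nat_lit 12) nil nil) nil)) nil))) nil)) nil)) (node (nat_lit 6)
  (nat_lit 0) (nat_lit 7) (node (nat_lit 4) (nat_lit 0) (nat_lit 8) (node (nat_lit 5) (nat_lit 0)
  (nat_lit 9) (node (nat_lit 4) (nat_lit 0) (nat_lit 10) (node (nat_lit 6) (nat_lit 0) (nat_lit
  11) (node (nat_lit 5) (nat_lit 0) (nat_lit 12) (node (nat_lit 4) (nat_lit 0) (nat_lit 13) (node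
  (nat_lit 5) (nat_lit 0) (nat_lit 14) (node (nat_lit 6) (nat_lit 0) (nat_lit 15) (node (nat_lit
  5) (nat_lit 86079) (nat_lit 16) (node (nat_lit 4) (nat_lit 87249) (nat_lit 17) (node (nat_lit 6)
  (nat_lit 88105) (nat_lit 18) (node (nat_lit 4) (nat_lit 88440) (nat_lit 19) (node (nat_lit 5)
  (nat_lit 88704) (nat_lit 20) (node (nat_lit 6) (nat_lit 88732) (nat_lit 21) (node (nat_lit 4)
  (nat_lit 88892) (nat_lit 22) (node (nat_lit 6) (nat_lit 88910) (nat_lit 23) (node (nat_lit 5)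
  (nat_lit 88953) (nat_lit 24) (node (nat_lit 6) (nat_lit 89028) (nat_lit 25) (node (nat_lit 4)
  (nat_lit 89087) (nat_lit 26) (node (nat_lit 5) (nat_lit 85724) (nat_lit 27) (node (nat_lit 4)
  (nat_lit 80658) (nat_lit 28) (node (nat_lit 6) (nat_lit 76663) (nat_lit 29) (node (nat_lit 5)
  (nat_lit 76691) (nat_lit 30) nil nil) nil) nil) nil) nil) nil) nil) nil) nil) nil) nil) nil)
  nil) nil) (node (nat_lit 4) (nat_lit 0) (nat_lit 16) (node (nat_lit 5) (nat_lit 79271) (nat_lit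
  17) (node (nat_lit 4) (nat_lit 0) (nat_lit 18) (node (nat_lit 6) (nat_lit 80186) (nat_lit 19)
  (node (nat_lit 4) (nat_lit 79698) (nat_lit 20) (node (nat_lit 5) (nat_lit 79850) (nat_lit 21)
  nil nil) (node (nat_lit 5) (nat_lit 79997) (nat_lit 20) nil nil)) (node (nat_lit 0) (nat_lit
  81508) (nat_lit 19) nil nil)) nil) (node (nat_lit 6) (nat_lit 0) (nat_lit 17) (node (nat_lit 5)
  (nat_lit 67843) (nat_lit 18) (node (nat_lit 4) (nat_lit 68043) (nat_lit 19) (node (nat_lit 6)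
  (nat_lit 68292) (nat_lit 20) (node (nat_lit 4) (nat_lit 68364) (nat_lit 21) nil nil) nil) (node
  (nat_lit 6) (nat_lit 68329) (nat_lit 19) (node (nat_lit 4) (nat_lit 68692) (nat_lit 20) (node
  (nat_lit 5) (nat_lit 62543) (nat_lit 21) (node (nat_lit 4) (nat_lit 43044) (nat_lit 22) (node
  (nat_lit 6) (nat_lit 43067) (nat_lit 23) nil nil) nil) nil) nil) nil)) (node (nat_lit 0)
  (nat_lit 69480) (nat_lit 18) nil nil)) (node (nat_lit 0) (nat_lit 81038) (nat_lit 17) nil nil)))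
  (node (nat_lit 0) (nat_lit 86909) (nat_lit 16) nil nil))) (node (nat_lit 0) (nat_lit 89030)
  (nat_lit 15) nil nil)) (node (nat_lit 0) (nat_lit 88658) (nat_lit 14) nil nil)) (node (nat_lit
  6) (nat_lit 0) (nat_lit 13) (node (nat_lit 4) (nat_lit 0) (nat_lit 14) (node (nat_lit 6)
  (nat_lit 86580) (nat_lit 15) (node (nat_lit 5) (nat_lit 87665) (nat_lit 16) (node (nat_lit 4)
  (nat_lit 87808) (nat_lit 17) (node (nat_lit 5) (nat_lit 88319) (nat_lit 18) (node (nat_lit 6)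
  (nat_lit 88086) (nat_lit 19) (node (nat_lit 4) (nat_lit 87784) (nat_lit 20) (node (nat_lit 6)
  (nat_lit 86361) (nat_lit 21) (node (nat_lit 5) (nat_lit 85033) (nat_lit 22) (node (nat_lit 6)
  (nat_lit 85263) (nat_lit 23) (node (nat_lit 4) (nat_lit 85389) (nat_lit 24) (node (nat_lit 5)
  (nat_lit 85507) (nat_lit 25) (node (nat_lit 4) (nat_lit 85549) (nat_lit 26) (node (nat_lit 6)
  (nat_lit 85615) (nat_lit 27) (node (nat_lit 5) (nat_lit 85662) (nat_lit 28) nil nil) nil) nil)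
  nil) nil) nil) nil) nil) nil) nil) nil) nil) nil) (node (nat_lit 0) (nat_lit 87995) (nat_lit 15)
  nil nil)) (node (nat_lit 0) (nat_lit 88982) (nat_lit 14) nil nil)) (node (nat_lit 0) (nat_lit
  88641) (nat_lit 13) nil nil))) (node (nat_lit 4) (nat_lit 0) (nat_lit 12) (node (nat_lit 5)
  (nat_lit 0) (nat_lit 13) (node (nat_lit 6) (nat_lit 0) (nat_lit 14) (node (nat_lit 5) (nat_lit
  0) (nat_lit 15) (node (nat_lit 4) (nat_lit 87416) (nat_lit 16) (node (nat_lit 6) (nat_lit 87361)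
  (nat_lit 17) nil (node (nat_lit 5) (nat_lit 88586) (nat_lit 17) (node (nat_lit 6) (nat_lit
  89221) (nat_lit 18) (node (nat_lit 4) (nat_lit 89756) (nat_lit 19) (node (nat_lit 6) (nat_lit
  87140) (nat_lit 20) (node (nat_lit 5) (nat_lit 84861) (nat_lit 21) (node (nat_lit 6) (nat_lit
  76261) (nat_lit 22) (node (nat_lit 4) (nat_lit 76488) (nat_lit 23) (node (nat_lit 5) (nat_lit
  76624) (nat_lit 24) (node (nat_lit 4) (nat_lit 70744) (nat_lit 25) (node (nat_lit 6) (nat_lit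
  70810) (nat_lit 26) (node (nat_lit 4) (nat_lit 40400) (nat_lit 27) (node (nat_lit 5) (nat_lit
  39754) (nat_lit 28) (node (nat_lit 6) (nat_lit 39702) (nat_lit 29) nil nil) nil) nil) nil) nil)
  nil) nil) nil) nil) nil) nil) nil) nil)) (node (nat_lit 0) (nat_lit 88232) (nat_lit 16) nil
  nil)) (node (nat_lit 4) (nat_lit 82033) (nat_lit 15) (node (nat_lit 6) (nat_lit 77372) (nat_lit
  16) (node (nat_lit 5) (nat_lit 77280) (nat_lit 17) (node (nat_lit 4) (nat_lit 77059) (nat_lit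
  18) nil (node (nat_lit 6) (nat_lit 77972) (nat_lit 18) (node (nat_lit 4) (nat_lit 47937)
  (nat_lit 19) (node (nat_lit 5) (nat_lit 48054) (nat_lit 20) nil nil) nil) nil)) nil) nil) (node
  (nat_lit 0) (nat_lit 86371) (nat_lit 15) nil nil))) (node (nat_lit 0) (nat_lit 88504) (nat_lit
  14) nil nil)) (node (nat_lit 0) (nat_lit 88923) (nat_lit 13) nil nil)) (node (nat_lit 0)
  (nat_lit 89283) (nat_lit 12) nil nil))) (node (nat_lit 0) (nat_lit 86805) (nat_lit 11) nil nil))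
  (node (nat_lit 6) (nat_lit 0) (nat_lit 10) (node (nat_lit 5) (nat_lit 0) (nat_lit 11) (node
  (nat_lit 4) (nat_lit 0) (nat_lit 12) (node (nat_lit 6) (nat_lit 0) (nat_lit 13) (node (nat_lit
  5) (nat_lit 86938) (nat_lit 14) (node (nat_lit 6) (nat_lit 88161) (nat_lit 15) (node (nat_lit 4)
  (nat_lit 88866) (nat_lit 16) nil nil) nil) (node (nat_lit 4) (nat_lit 0) (nat_lit 14) (node
  (nat_lit 5) (nat_lit 88854) (nat_lit 15) (node (nat_lit 4) (nat_lit 88790) (nat_lit 16) (node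
  (nat_lit 6) (nat_lit 87892) (nat_lit 17) nil nil) (node (nat_lit 6) (nat_lit 89351) (nat_lit 16)
  (node (nat_lit 4) (nat_lit 90052) (nat_lit 17) (node (nat_lit 6) (nat_lit 85815) (nat_lit 18)
  (node (nat_lit 5) (nat_lit 81958) (nat_lit 19) (node (nat_lit 6) (nat_lit 65844) (nat_lit 20)
  (node (nat_lit 4) (nat_lit 66144) (nat_lit 21) (node (nat_lit 5) (nat_lit 66390) (nat_lit 22)
  (node (nat_lit 6) (nat_lit 47596) (nat_lit 23) (node (nat_lit 5) (nat_lit 47586) (nat_lit 24)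
  (node (nat_lit 4) (nat_lit 47576) (nat_lit 25) nil nil) nil) nil) nil) nil) nil) nil) nil) nil)
  nil)) (node (nat_lit 0) (nat_lit 90172) (nat_lit 15) nil nil)) (node (nat_lit 0) (nat_lit 88676)
  (nat_lit 14) nil nil))) (node (nat_lit 5) (nat_lit 0) (nat_lit 13) (node (nat_lit 6) (nat_lit 0)
  (nat_lit 14) (node (nat_lit 4) (nat_lit 78952) (nat_lit 15) (node (nat_lit 6) (nat_lit 70306)
  (nat_lit 16) (node (nat_lit 5) (nat_lit 70860) (nat_lit 17) (node (nat_lit 6) (nat_lit 71369)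
  (nat_lit 18) (node (nat_lit 4) (nat_lit 71848) (nat_lit 19) (node (nat_lit 5) (nat_lit 42662)
  (nat_lit 20) (node (nat_lit 6) (nat_lit 42775) (nat_lit 21) nil nil) nil) nil) nil) nil) (node
  (nat_lit 5) (nat_lit 79902) (nat_lit 16) (node (nat_lit 4) (nat_lit 79715) (nat_lit 17) (node
  (nat_lit 6) (nat_lit 79590) (nat_lit 18) nil nil) nil) nil)) (node (nat_lit 0) (nat_lit 80080)
  (nat_lit 15) nil nil)) (node (nat_lit 0) (nat_lit 85359) (nat_lit 14) nil nil)) (node (nat_lit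
  0) (nat_lit 90732) (nat_lit 13) nil nil))) (node (nat_lit 0) (nat_lit 89559) (nat_lit 12) nil
  nil)) (node (nat_lit 0) (nat_lit 87636) (nat_lit 11) (node (nat_lit 6) (nat_lit 87636) (nat_lit
  12) nil nil) nil)) (node (nat_lit 0) (nat_lit 85677) (nat_lit 10) (node (nat_lit 4) (nat_lit
  85677) (nat_lit 11) nil (node (nat_lit 6) (nat_lit 85677) (nat_lit 11) nil (node (nat_lit 5)
  (nat_lit 85677) (nat_lit 11) nil nil))) nil))) (node (nat_lit 0) (nat_lit 81837) (nat_lit 9) nil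
  nil)) nil) nil))

noncomputable def t303 : Tr :=
  (node (nat_lit 4) (nat_lit 0) (nat_lit 7) (node (nat_lit 5) (nat_lit 0) (nat_lit 8) (node
  (nat_lit 6) (nat_lit 0) (nat_lit 9) (node (nat_lit 4) (nat_lit 0) (nat_lit 10) (node (nat_lit 6)
  (nat_lit 0) (nat_lit 11) (node (nat_lit 5) (nat_lit 0) (nat_lit 12) (node (nat_lit 4) (nat_lit
  0) (nat_lit 13) (node (nat_lit 6) (nat_lit 0) (nat_lit 14) (node (nat_lit 4) (nat_lit 0)
  (nat_lit 15) (node (nat_lit 5) (nat_lit 70572) (nat_lit 16) (node (nat_lit 4) (nat_lit 71310)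
  (nat_lit 17) (node (nat_lit 6) (nat_lit 70603) (nat_lit 18) (node (nat_lit 5) (nat_lit 70394)
  (nat_lit 19) nil nil) nil) (node (nat_lit 6) (nat_lit 70810) (nat_lit 17) (node (nat_lit 5)
  (nat_lit 71133) (nat_lit 18) (node (nat_lit 4) (nat_lit 71530) (nat_lit 19) (node (nat_lit 6)
  (nat_lit 71722) (nat_lit 20) (node (nat_lit 4) (nat_lit 71995) (nat_lit 21) nil nil) nil) nil)
  nil) nil)) (node (nat_lit 0) (nat_lit 71868) (nat_lit 16) nil nil)) (node (nat_lit 0) (nat_lit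
  70890) (nat_lit 15) nil nil)) (node (nat_lit 5) (nat_lit 0) (nat_lit 14) (node (nat_lit 6)
  (nat_lit 69379) (nat_lit 15) (node (nat_lit 4) (nat_lit 70084) (nat_lit 16) nil (node (nat_lit
  5) (nat_lit 67711) (nat_lit 16) (node (nat_lit 4) (nat_lit 66213) (nat_lit 17) (node (nat_lit 6)
  (nat_lit 59087) (nat_lit 18) (node (nat_lit 4) (nat_lit 53376) (nat_lit 19) (node (nat_lit 5)
  (nat_lit 53887) (nat_lit 20) (node (nat_lit 4) (nat_lit 53883) (nat_lit 21) nil (node (nat_lit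
  6) (nat_lit 29272) (nat_lit 21) (node (nat_lit 5) (nat_lit 29414) (nat_lit 22) (node (nat_lit 4)
  (nat_lit 29526) (nat_lit 23) nil nil) nil) nil)) nil) nil) nil) nil) nil)) (node (nat_lit 0)
  (nat_lit 70890) (nat_lit 15) nil nil)) (node (nat_lit 0) (nat_lit 72225) (nat_lit 14) nil nil)))
  (node (nat_lit 6) (nat_lit 0) (nat_lit 13) (node (nat_lit 4) (nat_lit 0) (nat_lit 14) (node
  (nat_lit 5) (nat_lit 0) (nat_lit 15) (node (nat_lit 4) (nat_lit 0) (nat_lit 16) (node (nat_lit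
  6) (nat_lit 71076) (nat_lit 17) (node (nat_lit 5) (nat_lit 71205) (nat_lit 18) (node (nat_lit 4)
  (nat_lit 71658) (nat_lit 19) (node (nat_lit 5) (nat_lit 72014) (nat_lit 20) (node (nat_lit 6)
  (nat_lit 72289) (nat_lit 21) (node (nat_lit 5) (nat_lit 72505) (nat_lit 22) (node (nat_lit 4)
  (nat_lit 72547) (nat_lit 23) (node (nat_lit 6) (nat_lit 72645) (nat_lit 24) (node (nat_lit 4)
  (nat_lit 72732) (nat_lit 25) (node (nat_lit 5) (nat_lit 72721) (nat_lit 26) (node (nat_lit 6)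
  (nat_lit 72710) (nat_lit 27) (node (nat_lit 4) (nat_lit 68270) (nat_lit 28) (node (nat_lit 6)
  (nat_lit 58927) (nat_lit 29) (node (nat_lit 5) (nat_lit 57642) (nat_lit 30) (node (nat_lit 6)
  (nat_lit 31706) (nat_lit 31) (node (nat_lit 4) (nat_lit 28245) (nat_lit 32) (node (nat_lit 5)
  (nat_lit 28236) (nat_lit 33) nil nil) nil) nil) nil) nil) nil) nil) nil) nil) nil) nil) nil)
  nil) nil) nil) (node (nat_lit 4) (nat_lit 71651) (nat_lit 18) (node (nat_lit 5) (nat_lit 72100)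
  (nat_lit 19) (node (nat_lit 6) (nat_lit 72227) (nat_lit 20) (node (nat_lit 5) (nat_lit 72385)
  (nat_lit 21) (node (nat_lit 4) (nat_lit 72555) (nat_lit 22) (node (nat_lit 6) (nat_lit 72645)
  (nat_lit 23) (node (nat_lit 4) (nat_lit 72775) (nat_lit 24) (node (nat_lit 5) (nat_lit 72876)
  (nat_lit 25) nil nil) nil) nil) nil) nil) nil) nil) nil)) (node (nat_lit 0) (nat_lit 72343)
  (nat_lit 17) nil nil)) (node (nat_lit 6) (nat_lit 0) (nat_lit 16) (node (nat_lit 5) (nat_lit 0)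
  (nat_lit 17) (node (nat_lit 4) (nat_lit 62095) (nat_lit 18) (node (nat_lit 5) (nat_lit 62662)
  (nat_lit 19) (node (nat_lit 6) (nat_lit 63018) (nat_lit 20) nil nil) (node (nat_lit 6) (nat_lit
  62611) (nat_lit 19) (node (nat_lit 4) (nat_lit 63025) (nat_lit 20) (node (nat_lit 5) (nat_lit
  63363) (nat_lit 21) (node (nat_lit 6) (nat_lit 43701) (nat_lit 22) (node (nat_lit 4) (nat_lit
  43755) (nat_lit 23) (node (nat_lit 6) (nat_lit 43716) (nat_lit 24) (node (nat_lit 5) (nat_lit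
  43708) (nat_lit 25) nil nil) nil) nil) nil) nil) nil) nil)) (node (nat_lit 0) (nat_lit 62749)
  (nat_lit 18) nil nil)) (node (nat_lit 0) (nat_lit 65924) (nat_lit 17) nil nil)) (node (nat_lit
  0) (nat_lit 71442) (nat_lit 16) nil nil))) (node (nat_lit 0) (nat_lit 70890) (nat_lit 15) nil
  nil)) (node (nat_lit 0) (nat_lit 70955) (nat_lit 14) nil nil)) (node (nat_lit 0) (nat_lit 71761)
  (nat_lit 13) nil nil))) (node (nat_lit 0) (nat_lit 71123) (nat_lit 12) (node (nat_lit 4)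
  (nat_lit 71123) (nat_lit 13) nil (node (nat_lit 6) (nat_lit 71123) (nat_lit 13) nil (node
  (nat_lit 5) (nat_lit 71123) (nat_lit 13) nil nil))) nil)) (node (nat_lit 0) (nat_lit 69265)
  (nat_lit 11) (node (nat_lit 4) (nat_lit 69265) (nat_lit 12) nil (node (nat_lit 6) (nat_lit
  69265) (nat_lit 12) nil (node (nat_lit 5) (nat_lit 69265) (nat_lit 12) nil nil))) nil)) (node
  (nat_lit 5) (nat_lit 0) (nat_lit 10) (node (nat_lit 4) (nat_lit 0) (nat_lit 11) (node (nat_lit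
  5) (nat_lit 0) (nat_lit 12) (node (nat_lit 6) (nat_lit 40389) (nat_lit 13) (node (nat_lit 4)
  (nat_lit 41348) (nat_lit 14) (node (nat_lit 6) (nat_lit 42068) (nat_lit 15) (node (nat_lit 5)
  (nat_lit 42629) (nat_lit 16) (node (nat_lit 4) (nat_lit 43068) (nat_lit 17) (node (nat_lit 5)
  (nat_lit 43410) (nat_lit 18) (node (nat_lit 6) (nat_lit 43677) (nat_lit 19) (node (nat_lit 5)
  (nat_lit 43886) (nat_lit 20) (node (nat_lit 4) (nat_lit 44049) (nat_lit 21) (node (nat_lit 6)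
  (nat_lit 44175) (nat_lit 22) (node (nat_lit 4) (nat_lit 44274) (nat_lit 23) (node (nat_lit 5)
  (nat_lit 40349) (nat_lit 24) (node (nat_lit 6) (nat_lit 37430) (nat_lit 25) nil nil) nil) nil)
  nil) nil) nil) nil) nil) (node (nat_lit 6) (nat_lit 42875) (nat_lit 17) (node (nat_lit 4)
  (nat_lit 43065) (nat_lit 18) (node (nat_lit 5) (nat_lit 43214) (nat_lit 19) (node (nat_lit 6)
  (nat_lit 43106) (nat_lit 20) (node (nat_lit 5) (nat_lit 43081) (nat_lit 21) (node (nat_lit 4)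
  (nat_lit 43109) (nat_lit 22) (node (nat_lit 6) (nat_lit 43164) (nat_lit 23) (node (nat_lit 4)
  (nat_lit 43208) (nat_lit 24) (node (nat_lit 5) (nat_lit 43241) (nat_lit 25) (node (nat_lit 6)
  (nat_lit 43216) (nat_lit 26) (node (nat_lit 5) (nat_lit 43212) (nat_lit 27) nil nil) nil) nil)
  nil) nil) nil) nil) nil) nil) nil) nil)) nil) (node (nat_lit 5) (nat_lit 42068) (nat_lit 15)
  (node (nat_lit 4) (nat_lit 42629) (nat_lit 16) (node (nat_lit 6) (nat_lit 43068) (nat_lit 17)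
  (node (nat_lit 5) (nat_lit 43410) (nat_lit 18) (node (nat_lit 4) (nat_lit 43677) (nat_lit 19)
  (node (nat_lit 5) (nat_lit 43886) (nat_lit 20) (node (nat_lit 6) (nat_lit 44049) (nat_lit 21)
  (node (nat_lit 5) (nat_lit 44175) (nat_lit 22) (node (nat_lit 4) (nat_lit 44274) (nat_lit 23)
  (node (nat_lit 6) (nat_lit 44352) (nat_lit 24) (node (nat_lit 4) (nat_lit 44412) (nat_lit 25)
  (node (nat_lit 5) (nat_lit 44459) (nat_lit 26) (node (nat_lit 6) (nat_lit 44497) (nat_lit 27)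
  nil nil) nil) nil) nil) nil) nil) nil) nil) nil) nil) nil) nil) nil)) nil) (node (nat_lit 0)
  (nat_lit 41570) (nat_lit 13) nil nil)) (node (nat_lit 0) (nat_lit 42875) (nat_lit 12) nil nil))
  (node (nat_lit 0) (nat_lit 69231) (nat_lit 11) (node (nat_lit 5) (nat_lit 69231) (nat_lit 12)
  nil (node (nat_lit 6) (nat_lit 69231) (nat_lit 12) nil (node (nat_lit 4) (nat_lit 69231)
  (nat_lit 12) nil nil))) nil)) (node (nat_lit 0) (nat_lit 67138) (nat_lit 10) (node (nat_lit 5)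
  (nat_lit 67138) (nat_lit 11) nil (node (nat_lit 4) (nat_lit 67138) (nat_lit 11) nil (node
  (nat_lit 6) (nat_lit 67138) (nat_lit 11) nil nil))) nil))) (node (nat_lit 4) (nat_lit 0)
  (nat_lit 9) (node (nat_lit 6) (nat_lit 0) (nat_lit 10) (node (nat_lit 5) (nat_lit 0) (nat_lit
  11) (node (nat_lit 6) (nat_lit 0) (nat_lit 12) (node (nat_lit 4) (nat_lit 0) (nat_lit 13) (node
  (nat_lit 5) (nat_lit 0) (nat_lit 14) (node (nat_lit 6) (nat_lit 0) (nat_lit 15) (node (nat_lit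
  5) (nat_lit 0) (nat_lit 16) (node (nat_lit 4) (nat_lit 0) (nat_lit 17) (node (nat_lit 5)
  (nat_lit 78099) (nat_lit 18) (node (nat_lit 6) (nat_lit 78756) (nat_lit 19) (node (nat_lit 4)
  (nat_lit 79020) (nat_lit 20) nil nil) nil) (node (nat_lit 6) (nat_lit 77240) (nat_lit 18) (node
  (nat_lit 4) (nat_lit 72234) (nat_lit 19) (node (nat_lit 5) (nat_lit 61341) (nat_lit 20) (node
  (nat_lit 4) (nat_lit 43615) (nat_lit 21) (node (nat_lit 6) (nat_lit 43549) (nat_lit 22) (node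
  (nat_lit 5) (nat_lit 43537) (nat_lit 23) nil nil) nil) nil) nil) nil) (node (nat_lit 0) (nat_lit
  78701) (nat_lit 18) nil nil))) (node (nat_lit 0) (nat_lit 81912) (nat_lit 17) nil nil)) (node
  (nat_lit 0) (nat_lit 81937) (nat_lit 16) nil nil)) (node (nat_lit 4) (nat_lit 0) (nat_lit 15)
  (node (nat_lit 6) (nat_lit 83566) (nat_lit 16) (node (nat_lit 4) (nat_lit 84457) (nat_lit 17)
  (node (nat_lit 5) (nat_lit 84705) (nat_lit 18) (node (nat_lit 6) (nat_lit 84391) (nat_lit 19)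
  (node (nat_lit 5) (nat_lit 83996) (nat_lit 20) (node (nat_lit 4) (nat_lit 82498) (nat_lit 21)
  (node (nat_lit 6) (nat_lit 80344) (nat_lit 22) (node (nat_lit 4) (nat_lit 75057) (nat_lit 23)
  (node (nat_lit 5) (nat_lit 70126) (nat_lit 24) (node (nat_lit 4) (nat_lit 67513) (nat_lit 25)
  (node (nat_lit 6) (nat_lit 67502) (nat_lit 26) (node (nat_lit 5) (nat_lit 67530) (nat_lit 27)
  (node (nat_lit 6) (nat_lit 67566) (nat_lit 28) (node (nat_lit 4) (nat_lit 67597) (nat_lit 29)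
  (node (nat_lit 5) (nat_lit 67594) (nat_lit 30) nil nil) nil) nil) nil) nil) nil) nil) nil) nil)
  nil) nil) nil) nil) nil) (node (nat_lit 0) (nat_lit 85947) (nat_lit 16) nil nil)) (node (nat_lit
  0) (nat_lit 88102) (nat_lit 15) nil nil))) (node (nat_lit 6) (nat_lit 0) (nat_lit 14) (node
  (nat_lit 5) (nat_lit 87451) (nat_lit 15) (node (nat_lit 4) (nat_lit 89266) (nat_lit 16) (node
  (nat_lit 5) (nat_lit 90346) (nat_lit 17) (node (nat_lit 6) (nat_lit 90927) (nat_lit 18) (node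
  (nat_lit 5) (nat_lit 91380) (nat_lit 19) (node (nat_lit 4) (nat_lit 91470) (nat_lit 20) (node
  (nat_lit 6) (nat_lit 91671) (nat_lit 21) (node (nat_lit 4) (nat_lit 88837) (nat_lit 22) (node
  (nat_lit 5) (nat_lit 88855) (nat_lit 23) (node (nat_lit 4) (nat_lit 73687) (nat_lit 24) (node
  (nat_lit 6) (nat_lit 70584) (nat_lit 25) (node (nat_lit 5) (nat_lit 70590) (nat_lit 26) (node
  (nat_lit 6) (nat_lit 47483) (nat_lit 27) (node (nat_lit 4) (nat_lit 47496) (nat_lit 28) nil nil)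
  nil) nil) nil) nil) nil) nil) nil) nil) nil) nil) (node (nat_lit 6) (nat_lit 89216) (nat_lit 17)
  nil nil)) nil) (node (nat_lit 0) (nat_lit 88226) (nat_lit 15) nil nil)) (node (nat_lit 0)
  (nat_lit 88211) (nat_lit 14) nil nil))) (node (nat_lit 0) (nat_lit 88078) (nat_lit 13) nil nil))
  (node (nat_lit 4) (nat_lit 0) (nat_lit 12) (node (nat_lit 5) (nat_lit 0) (nat_lit 13) (node
  (nat_lit 6) (nat_lit 0) (nat_lit 14) (node (nat_lit 4) (nat_lit 84206) (nat_lit 15) (node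
  (nat_lit 6) (nat_lit 84492) (nat_lit 16) (node (nat_lit 5) (nat_lit 84012) (nat_lit 17) nil nil)
  (node (nat_lit 5) (nat_lit 84911) (nat_lit 16) nil nil)) (node (nat_lit 5) (nat_lit 0) (nat_lit
  15) (node (nat_lit 4) (nat_lit 73017) (nat_lit 16) (node (nat_lit 6) (nat_lit 73935) (nat_lit
  17) (node (nat_lit 4) (nat_lit 74949) (nat_lit 18) (node (nat_lit 5) (nat_lit 47380) (nat_lit
  19) (node (nat_lit 6) (nat_lit 47768) (nat_lit 20) (node (nat_lit 5) (nat_lit 48071) (nat_lit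
  21) (node (nat_lit 4) (nat_lit 48307) (nat_lit 22) nil nil) nil) (node (nat_lit 4) (nat_lit
  47260) (nat_lit 20) (node (nat_lit 6) (nat_lit 47298) (nat_lit 21) nil nil) nil)) nil) nil) nil)
  (node (nat_lit 0) (nat_lit 75949) (nat_lit 16) nil nil)) (node (nat_lit 0) (nat_lit 85674)
  (nat_lit 15) nil nil))) (node (nat_lit 0) (nat_lit 86417) (nat_lit 14) nil nil)) (node (nat_lit
  0) (nat_lit 88192) (nat_lit 13) nil nil)) (node (nat_lit 0) (nat_lit 85731) (nat_lit 12) nil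
  nil))) (node (nat_lit 0) (nat_lit 85870) (nat_lit 11) nil nil)) (node (nat_lit 0) (nat_lit
  83367) (nat_lit 10) nil nil)) (node (nat_lit 0) (nat_lit 79968) (nat_lit 9) (node (nat_lit 6)
  (nat_lit 79968) (nat_lit 10) (node (nat_lit 5) (nat_lit 79968) (nat_lit 11) nil nil) (node
  (nat_lit 5) (nat_lit 79968) (nat_lit 10) nil (node (nat_lit 4) (nat_lit 79968) (nat_lit 10)
  (node (nat_lit 5) (nat_lit 79968) (nat_lit 11) nil nil) nil))) nil))) nil) (node (nat_lit 5)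
  (nat_lit 0) (nat_lit 7) (node (nat_lit 6) (nat_lit 0) (nat_lit 8) (node (nat_lit 4) (nat_lit 0)
  (nat_lit 9) (node (nat_lit 5) (nat_lit 0) (nat_lit 10) (node (nat_lit 4) (nat_lit 0) (nat_lit
  11) (node (nat_lit 6) (nat_lit 0) (nat_lit 12) (node (nat_lit 5) (nat_lit 0) (nat_lit 13) (node
  (nat_lit 4) (nat_lit 0) (nat_lit 14) (node (nat_lit 5) (nat_lit 0) (nat_lit 15) (node (nat_lit
  6) (nat_lit 91729) (nat_lit 16) (node (nat_lit 4) (nat_lit 92281) (nat_lit 17) nil (node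
  (nat_lit 5) (nat_lit 92517) (nat_lit 17) (node (nat_lit 4) (nat_lit 89560) (nat_lit 18) (node
  (nat_lit 6) (nat_lit 83321) (nat_lit 19) (node (nat_lit 4) (nat_lit 83032) (nat_lit 20) (node
  (nat_lit 5) (nat_lit 82931) (nat_lit 21) nil nil) (node (nat_lit 5) (nat_lit 78150) (nat_lit 20)
  (node (nat_lit 6) (nat_lit 78388) (nat_lit 21) (node (nat_lit 4) (nat_lit 78589) (nat_lit 22)
  (node (nat_lit 5) (nat_lit 49671) (nat_lit 23) (node (nat_lit 4) (nat_lit 49625) (nat_lit 24)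
  (node (nat_lit 6) (nat_lit 49641) (nat_lit 25) nil nil) nil) nil) nil) nil) nil)) nil) nil)
  nil)) (node (nat_lit 0) (nat_lit 92598) (nat_lit 16) nil nil)) (node (nat_lit 0) (nat_lit 92833)
  (nat_lit 15) nil nil)) (node (nat_lit 0) (nat_lit 92081) (nat_lit 14) nil (node (nat_lit 6)
  (nat_lit 0) (nat_lit 14) (node (nat_lit 0) (nat_lit 91767) (nat_lit 15) nil nil) nil))) (node
  (nat_lit 4) (nat_lit 0) (nat_lit 13) (node (nat_lit 5) (nat_lit 0) (nat_lit 14) (node (nat_lit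
  6) (nat_lit 0) (nat_lit 15) (node (nat_lit 5) (nat_lit 0) (nat_lit 16) (node (nat_lit 4)
  (nat_lit 0) (nat_lit 17) (node (nat_lit 6) (nat_lit 0) (nat_lit 18) (node (nat_lit 5) (nat_lit
  74513) (nat_lit 19) (node (nat_lit 6) (nat_lit 74924) (nat_lit 20) (node (nat_lit 4) (nat_lit
  64322) (nat_lit 21) (node (nat_lit 5) (nat_lit 64275) (nat_lit 22) (node (nat_lit 4) (nat_lit
  43892) (nat_lit 23) nil nil) nil) nil) nil) (node (nat_lit 4) (nat_lit 74884) (nat_lit 19) (node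
  (nat_lit 5) (nat_lit 75417) (nat_lit 20) nil nil) (node (nat_lit 0) (nat_lit 75389) (nat_lit 19)
  nil nil))) (node (nat_lit 5) (nat_lit 80319) (nat_lit 18) (node (nat_lit 6) (nat_lit 80923)
  (nat_lit 19) (node (nat_lit 4) (nat_lit 81280) (nat_lit 20) (node (nat_lit 6) (nat_lit 81309)
  (nat_lit 21) (node (nat_lit 5) (nat_lit 81220) (nat_lit 22) nil nil) (node (nat_lit 5) (nat_lit
  81484) (nat_lit 21) nil nil)) nil) nil) (node (nat_lit 0) (nat_lit 80829) (nat_lit 18) nil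
  nil))) (node (nat_lit 0) (nat_lit 82030) (nat_lit 17) nil nil)) (node (nat_lit 4) (nat_lit 0)
  (nat_lit 16) (node (nat_lit 6) (nat_lit 88557) (nat_lit 17) (node (nat_lit 5) (nat_lit 89067)
  (nat_lit 18) (node (nat_lit 4) (nat_lit 88254) (nat_lit 19) nil nil) nil) (node (nat_lit 0)
  (nat_lit 89850) (nat_lit 17) nil nil)) (node (nat_lit 0) (nat_lit 88821) (nat_lit 16) nil nil)))
  (node (nat_lit 0) (nat_lit 89724) (nat_lit 15) nil nil)) (node (nat_lit 0) (nat_lit 90980)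
  (nat_lit 14) nil nil)) (node (nat_lit 0) (nat_lit 92363) (nat_lit 13) nil nil))) (node (nat_lit
  0) (nat_lit 91124) (nat_lit 12) (node (nat_lit 5) (nat_lit 91124) (nat_lit 13) nil (node
  (nat_lit 4) (nat_lit 91124) (nat_lit 13) nil (node (nat_lit 6) (nat_lit 91124) (nat_lit 13) nil
  nil))) nil)) (node (nat_lit 6) (nat_lit 0) (nat_lit 11) (node (nat_lit 5) (nat_lit 0) (nat_lit
  12) (node (nat_lit 4) (nat_lit 0) (nat_lit 13) (node (nat_lit 5) (nat_lit 0) (nat_lit 14) (node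
  (nat_lit 6) (nat_lit 0) (nat_lit 15) (node (nat_lit 4) (nat_lit 71535) (nat_lit 16) (node
  (nat_lit 6) (nat_lit 72343) (nat_lit 17) (node (nat_lit 5) (nat_lit 71721) (nat_lit 18) (node
  (nat_lit 4) (nat_lit 70908) (nat_lit 19) nil nil) nil) (node (nat_lit 5) (nat_lit 72087)
  (nat_lit 17) (node (nat_lit 4) (nat_lit 72064) (nat_lit 18) nil nil) nil)) (node (nat_lit 0)
  (nat_lit 72728) (nat_lit 16) nil nil)) (node (nat_lit 0) (nat_lit 71522) (nat_lit 15) nil nil))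
  (node (nat_lit 6) (nat_lit 0) (nat_lit 14) (node (nat_lit 4) (nat_lit 0) (nat_lit 15) (node
  (nat_lit 5) (nat_lit 71328) (nat_lit 16) (node (nat_lit 6) (nat_lit 71737) (nat_lit 17) (node
  (nat_lit 4) (nat_lit 72166) (nat_lit 18) nil (node (nat_lit 5) (nat_lit 72253) (nat_lit 18) nil
  nil)) (node (nat_lit 4) (nat_lit 71556) (nat_lit 17) (node (nat_lit 6) (nat_lit 70850) (nat_lit
  18) (node (nat_lit 5) (nat_lit 70640) (nat_lit 19) nil nil) nil) nil)) (node (nat_lit 0)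
  (nat_lit 72349) (nat_lit 16) nil nil)) (node (nat_lit 0) (nat_lit 71456) (nat_lit 15) nil (node
  (nat_lit 5) (nat_lit 41750) (nat_lit 15) nil nil))) (node (nat_lit 0) (nat_lit 72870) (nat_lit
  14) nil nil))) (node (nat_lit 0) (nat_lit 72383) (nat_lit 13) nil nil)) (node (nat_lit 0)
  (nat_lit 79037) (nat_lit 12) nil nil)) (node (nat_lit 0) (nat_lit 88668) (nat_lit 11) (node
  (nat_lit 5) (nat_lit 88668) (nat_lit 12) (node (nat_lit 4) (nat_lit 88668) (nat_lit 13) nil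
  (node (nat_lit 6) (nat_lit 88668) (nat_lit 13) nil nil)) (node (nat_lit 6) (nat_lit 88668)
  (nat_lit 12) (node (nat_lit 5) (nat_lit 88668) (nat_lit 13) nil (node (nat_lit 4) (nat_lit
  88668) (nat_lit 13) nil nil)) (node (nat_lit 4) (nat_lit 88668) (nat_lit 12) (node (nat_lit 5)
  (nat_lit 88668) (nat_lit 13) nil (node (nat_lit 6) (nat_lit 88668) (nat_lit 13) nil nil)) nil)))
  nil))) (node (nat_lit 6) (nat_lit 0) (nat_lit 10) (node (nat_lit 5) (nat_lit 0) (nat_lit 11)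
  (node (nat_lit 4) (nat_lit 0) (nat_lit 12) (node (nat_lit 5) (nat_lit 0) (nat_lit 13) (node
  (nat_lit 6) (nat_lit 0) (nat_lit 14) (node (nat_lit 4) (nat_lit 0) (nat_lit 15) (node (nat_lit
  5) (nat_lit 88955) (nat_lit 16) (node (nat_lit 4) (nat_lit 88916) (nat_lit 17) (node (nat_lit 6)
  (nat_lit 88801) (nat_lit 18) nil nil) nil) (node (nat_lit 6) (nat_lit 87992) (nat_lit 16) nil
  (node (nat_lit 0) (nat_lit 90443) (nat_lit 16) nil nil))) (node (nat_lit 5) (nat_lit 89350)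
  (nat_lit 15) (node (nat_lit 4) (nat_lit 91806) (nat_lit 16) (node (nat_lit 6) (nat_lit 75046)
  (nat_lit 17) (node (nat_lit 4) (nat_lit 74754) (nat_lit 18) (node (nat_lit 5) (nat_lit 73730)
  (nat_lit 19) nil nil) (node (nat_lit 5) (nat_lit 76373) (nat_lit 18) (node (nat_lit 6) (nat_lit
  52652) (nat_lit 19) (node (nat_lit 4) (nat_lit 53062) (nat_lit 20) (node (nat_lit 6) (nat_lit
  53175) (nat_lit 21) nil nil) nil) nil) nil)) nil) nil) (node (nat_lit 0) (nat_lit 89374)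
  (nat_lit 15) nil nil))) (node (nat_lit 0) (nat_lit 88669) (nat_lit 14) nil nil)) (node (nat_lit
  6) (nat_lit 0) (nat_lit 13) (node (nat_lit 4) (nat_lit 0) (nat_lit 14) (node (nat_lit 5)
  (nat_lit 0) (nat_lit 15) (node (nat_lit 6) (nat_lit 87085) (nat_lit 16) (node (nat_lit 4)
  (nat_lit 87973) (nat_lit 17) (node (nat_lit 6) (nat_lit 88018) (nat_lit 18) nil nil) (node
  (nat_lit 5) (nat_lit 84730) (nat_lit 17) (node (nat_lit 4) (nat_lit 83414) (nat_lit 18) (node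
  (nat_lit 5) (nat_lit 84071) (nat_lit 19) (node (nat_lit 6) (nat_lit 84427) (nat_lit 20) nil nil)
  (node (nat_lit 6) (nat_lit 83787) (nat_lit 19) (node (nat_lit 5) (nat_lit 84234) (nat_lit 20)
  (node (nat_lit 6) (nat_lit 84512) (nat_lit 21) (node (nat_lit 4) (nat_lit 84758) (nat_lit 22)
  (node (nat_lit 6) (nat_lit 64135) (nat_lit 23) (node (nat_lit 5) (nat_lit 43777) (nat_lit 24)
  (node (nat_lit 4) (nat_lit 43794) (nat_lit 25) nil nil) nil) nil) nil) nil) nil) nil)) nil)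
  nil)) (node (nat_lit 4) (nat_lit 89562) (nat_lit 16) (node (nat_lit 6) (nat_lit 89870) (nat_lit
  17) (node (nat_lit 5) (nat_lit 89595) (nat_lit 18) nil nil) nil) (node (nat_lit 0) (nat_lit
  90714) (nat_lit 16) nil nil))) (node (nat_lit 0) (nat_lit 92648) (nat_lit 15) nil nil)) (node
  (nat_lit 0) (nat_lit 92243) (nat_lit 14) nil nil)) (node (nat_lit 0) (nat_lit 90772) (nat_lit
  13) nil nil))) (node (nat_lit 0) (nat_lit 90213) (nat_lit 12) nil nil)) (node (nat_lit 0)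
  (nat_lit 88373) (nat_lit 11) (node (nat_lit 6) (nat_lit 88373) (nat_lit 12) nil (node (nat_lit
  5) (nat_lit 88373) (nat_lit 12) nil (node (nat_lit 4) (nat_lit 88373) (nat_lit 12) nil nil)))
  nil)) (node (nat_lit 0) (nat_lit 0) (nat_lit 10) (node (nat_lit 5) (nat_lit 85128) (nat_lit 11)
  (node (nat_lit 4) (nat_lit 85128) (nat_lit 12) (node (nat_lit 5) (nat_lit 85128) (nat_lit 13)
  nil (node (nat_lit 6) (nat_lit 85128) (nat_lit 13) nil nil)) (node (nat_lit 6) (nat_lit 85128)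
  (nat_lit 12) nil nil)) (node (nat_lit 6) (nat_lit 85128) (nat_lit 11) (node (nat_lit 4) (nat_lit
  85128) (nat_lit 12) (node (nat_lit 5) (nat_lit 85128) (nat_lit 13) nil (node (nat_lit 6)
  (nat_lit 85128) (nat_lit 13) nil nil)) (node (nat_lit 5) (nat_lit 85128) (nat_lit 12) (node
  (nat_lit 4) (nat_lit 85128) (nat_lit 13) nil nil) nil)) (node (nat_lit 4) (nat_lit 85128)
  (nat_lit 11) (node (nat_lit 6) (nat_lit 85128) (nat_lit 12) nil (node (nat_lit 5) (nat_lit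
  85128) (nat_lit 12) nil nil)) (node (nat_lit 0) (nat_lit 85833) (nat_lit 11) nil nil)))) nil)))
  (node (nat_lit 0) (nat_lit 80152) (nat_lit 9) (node (nat_lit 4) (nat_lit 80509) (nat_lit 10)
  (node (nat_lit 6) (nat_lit 81224) (nat_lit 11) (node (nat_lit 5) (nat_lit 81224) (nat_lit 12)
  (node (nat_lit 6) (nat_lit 81224) (nat_lit 13) nil (node (nat_lit 4) (nat_lit 81224) (nat_lit
  13) nil nil)) (node (nat_lit 4) (nat_lit 81654) (nat_lit 12) (node (nat_lit 5) (nat_lit 81654)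
  (nat_lit 13) nil nil) nil)) (node (nat_lit 5) (nat_lit 80593) (nat_lit 11) (node (nat_lit 6)
  (nat_lit 80443) (nat_lit 12) (node (nat_lit 5) (nat_lit 80443) (nat_lit 13) (node (nat_lit 4)
  (nat_lit 80443) (nat_lit 14) nil nil) (node (nat_lit 4) (nat_lit 80443) (nat_lit 13) nil nil))
  (node (nat_lit 4) (nat_lit 80593) (nat_lit 12) nil nil)) nil)) (node (nat_lit 5) (nat_lit 80681)
  (nat_lit 10) (node (nat_lit 4) (nat_lit 81057) (nat_lit 11) (node (nat_lit 6) (nat_lit 81352)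
  (nat_lit 12) (node (nat_lit 4) (nat_lit 81352) (nat_lit 13) nil (node (nat_lit 5) (nat_lit
  81352) (nat_lit 13) nil nil)) (node (nat_lit 5) (nat_lit 81057) (nat_lit 12) nil nil)) (node
  (nat_lit 6) (nat_lit 81291) (nat_lit 11) (node (nat_lit 4) (nat_lit 81291) (nat_lit 12) (node
  (nat_lit 5) (nat_lit 81291) (nat_lit 13) nil (node (nat_lit 6) (nat_lit 81291) (nat_lit 13)
  (node (nat_lit 5) (nat_lit 81291) (nat_lit 14) nil nil) nil)) (node (nat_lit 5) (nat_lit 81291)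
  (nat_lit 12) nil nil)) nil)) (node (nat_lit 6) (nat_lit 80255) (nat_lit 10) (node (nat_lit 5)
  (nat_lit 80296) (nat_lit 11) (node (nat_lit 4) (nat_lit 80296) (nat_lit 12) (node (nat_lit 5)
  (nat_lit 80296) (nat_lit 13) (node (nat_lit 6) (nat_lit 80296) (nat_lit 14) nil nil) (node
  (nat_lit 6) (nat_lit 80296) (nat_lit 13) nil nil)) (node (nat_lit 6) (nat_lit 80296) (nat_lit
  12) nil nil)) (node (nat_lit 4) (nat_lit 80636) (nat_lit 11) (node (nat_lit 5) (nat_lit 80636)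
  (nat_lit 12) (node (nat_lit 6) (nat_lit 80636) (nat_lit 13) nil (node (nat_lit 4) (nat_lit
  80636) (nat_lit 13) nil nil)) (node (nat_lit 6) (nat_lit 80636) (nat_lit 12) nil nil)) nil))
  nil))) nil)) nil) nil))

noncomputable def t304 : Tr :=
  (node (nat_lit 6) (nat_lit 0) (nat_lit 9) (node (nat_lit 5) (nat_lit 0) (nat_lit 10) (node
  (nat_lit 4) (nat_lit 0) (nat_lit 11) (node (nat_lit 6) (nat_lit 0) (nat_lit 12) (node (nat_lit
  4) (nat_lit 0) (nat_lit 13) (node (nat_lit 5) (nat_lit 0) (nat_lit 14) (node (nat_lit 4)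
  (nat_lit 0) (nat_lit 15) (node (nat_lit 6) (nat_lit 0) (nat_lit 16) (node (nat_lit 5) (nat_lit
  0) (nat_lit 17) (node (nat_lit 6) (nat_lit 0) (nat_lit 18) (node (nat_lit 4) (nat_lit 64941)
  (nat_lit 19) (node (nat_lit 5) (nat_lit 64941) (nat_lit 20) (node (nat_lit 6) (nat_lit 64941)
  (nat_lit 21) (node (nat_lit 5) (nat_lit 64941) (nat_lit 22) (node (nat_lit 4) (nat_lit 64941)
  (nat_lit 23) (node (nat_lit 5) (nat_lit 64941) (nat_lit 24) (node (nat_lit 6) (nat_lit 63487)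
  (nat_lit 25) (node (nat_lit 4) (nat_lit 60583) (nat_lit 26) (node (nat_lit 6) (nat_lit 56909)
  (nat_lit 27) (node (nat_lit 5) (nat_lit 53321) (nat_lit 28) (node (nat_lit 4) (nat_lit 53357)
  (nat_lit 29) (node (nat_lit 6) (nat_lit 53385) (nat_lit 30) (node (nat_lit 4) (nat_lit 36189)
  (nat_lit 31) (node (nat_lit 5) (nat_lit 36173) (nat_lit 32) (node (nat_lit 4) (nat_lit 36178)
  (nat_lit 33) nil nil) nil) nil) nil) nil) nil) nil) nil) nil) nil) nil) nil) (node (nat_lit 4)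
  (nat_lit 64941) (nat_lit 21) nil nil)) (node (nat_lit 6) (nat_lit 64941) (nat_lit 20) nil nil))
  (node (nat_lit 0) (nat_lit 64941) (nat_lit 19) nil nil)) (node (nat_lit 4) (nat_lit 64941)
  (nat_lit 18) (node (nat_lit 5) (nat_lit 64941) (nat_lit 19) (node (nat_lit 6) (nat_lit 64941)
  (nat_lit 20) (node (nat_lit 5) (nat_lit 64941) (nat_lit 21) (node (nat_lit 4) (nat_lit 64941)
  (nat_lit 22) nil nil) nil) nil) nil) (node (nat_lit 0) (nat_lit 64941) (nat_lit 18) nil nil)))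
  (node (nat_lit 0) (nat_lit 64941) (nat_lit 17) nil nil)) (node (nat_lit 0) (nat_lit 64941)
  (nat_lit 16) nil nil)) (node (nat_lit 6) (nat_lit 0) (nat_lit 15) (node (nat_lit 4) (nat_lit
  61698) (nat_lit 16) (node (nat_lit 6) (nat_lit 0) (nat_lit 17) (node (nat_lit 5) (nat_lit 63605)
  (nat_lit 18) (node (nat_lit 6) (nat_lit 64067) (nat_lit 19) (node (nat_lit 4) (nat_lit 63729)
  (nat_lit 20) nil nil) (node (nat_lit 4) (nat_lit 63651) (nat_lit 19) (node (nat_lit 5) (nat_lit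
  63797) (nat_lit 20) (node (nat_lit 6) (nat_lit 63910) (nat_lit 21) (node (nat_lit 5) (nat_lit
  63999) (nat_lit 22) (node (nat_lit 4) (nat_lit 63942) (nat_lit 23) nil nil) nil) nil) nil) nil))
  (node (nat_lit 0) (nat_lit 64481) (nat_lit 18) nil nil)) nil) (node (nat_lit 5) (nat_lit 0)
  (nat_lit 16) (node (nat_lit 4) (nat_lit 54367) (nat_lit 17) (node (nat_lit 6) (nat_lit 54756)
  (nat_lit 18) (node (nat_lit 5) (nat_lit 54598) (nat_lit 19) nil nil) (node (nat_lit 5) (nat_lit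
  49342) (nat_lit 18) (node (nat_lit 6) (nat_lit 49773) (nat_lit 19) (node (nat_lit 4) (nat_lit
  50129) (nat_lit 20) (node (nat_lit 6) (nat_lit 29444) (nat_lit 21) (node (nat_lit 5) (nat_lit
  29552) (nat_lit 22) nil nil) nil) nil) nil) nil)) (node (nat_lit 0) (nat_lit 56011) (nat_lit 17)
  nil nil)) (node (nat_lit 0) (nat_lit 64081) (nat_lit 16) nil nil))) (node (nat_lit 0) (nat_lit
  64941) (nat_lit 15) (node (nat_lit 5) (nat_lit 64941) (nat_lit 16) nil (node (nat_lit 4)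
  (nat_lit 64941) (nat_lit 16) nil (node (nat_lit 6) (nat_lit 64941) (nat_lit 16) nil nil)))
  nil))) (node (nat_lit 0) (nat_lit 64941) (nat_lit 14) (node (nat_lit 6) (nat_lit 64941) (nat_lit
  15) (node (nat_lit 4) (nat_lit 64941) (nat_lit 16) nil nil) (node (nat_lit 4) (nat_lit 64941)
  (nat_lit 15) nil (node (nat_lit 5) (nat_lit 64941) (nat_lit 15) nil nil))) nil)) (node (nat_lit
  0) (nat_lit 64941) (nat_lit 13) (node (nat_lit 4) (nat_lit 64941) (nat_lit 14) (node (nat_lit 5)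
  (nat_lit 64941) (nat_lit 15) nil (node (nat_lit 6) (nat_lit 64941) (nat_lit 15) nil nil)) (node
  (nat_lit 5) (nat_lit 64941) (nat_lit 14) (node (nat_lit 6) (nat_lit 64941) (nat_lit 15) nil
  (node (nat_lit 4) (nat_lit 64941) (nat_lit 15) nil nil)) (node (nat_lit 6) (nat_lit 64941)
  (nat_lit 14) (node (nat_lit 5) (nat_lit 64941) (nat_lit 15) nil (node (nat_lit 4) (nat_lit
  64941) (nat_lit 15) nil nil)) nil))) nil)) (node (nat_lit 5) (nat_lit 0) (nat_lit 12) (node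
  (nat_lit 6) (nat_lit 0) (nat_lit 13) (node (nat_lit 5) (nat_lit 0) (nat_lit 14) (node (nat_lit
  4) (nat_lit 0) (nat_lit 15) (node (nat_lit 6) (nat_lit 0) (nat_lit 16) (node (nat_lit 5)
  (nat_lit 0) (nat_lit 17) (node (nat_lit 6) (nat_lit 64941) (nat_lit 18) (node (nat_lit 4)
  (nat_lit 64941) (nat_lit 19) (node (nat_lit 5) (nat_lit 64941) (nat_lit 20) (node (nat_lit 6)
  (nat_lit 64941) (nat_lit 21) (node (nat_lit 5) (nat_lit 64941) (nat_lit 22) (node (nat_lit 4)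
  (nat_lit 64941) (nat_lit 23) (node (nat_lit 5) (nat_lit 64941) (nat_lit 24) (node (nat_lit 6)
  (nat_lit 64341) (nat_lit 25) (node (nat_lit 4) (nat_lit 63589) (nat_lit 26) (node (nat_lit 6)
  (nat_lit 61326) (nat_lit 27) (node (nat_lit 5) (nat_lit 58935) (nat_lit 28) (node (nat_lit 4)
  (nat_lit 58970) (nat_lit 29) nil nil) nil) nil) nil) nil) nil) nil) nil) nil) nil) nil) (node
  (nat_lit 0) (nat_lit 64941) (nat_lit 18) nil nil)) (node (nat_lit 4) (nat_lit 0) (nat_lit 17)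
  (node (nat_lit 5) (nat_lit 64941) (nat_lit 18) (node (nat_lit 6) (nat_lit 64941) (nat_lit 19)
  (node (nat_lit 4) (nat_lit 64941) (nat_lit 20) nil (node (nat_lit 5) (nat_lit 63748) (nat_lit
  20) (node (nat_lit 4) (nat_lit 62411) (nat_lit 21) (node (nat_lit 5) (nat_lit 62036) (nat_lit
  22) (node (nat_lit 6) (nat_lit 62204) (nat_lit 23) (node (nat_lit 4) (nat_lit 62349) (nat_lit
  24) (node (nat_lit 6) (nat_lit 62425) (nat_lit 25) (node (nat_lit 5) (nat_lit 62508) (nat_lit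
  26) (node (nat_lit 4) (nat_lit 62569) (nat_lit 27) nil nil) nil) nil) nil) nil) nil) nil) nil))
  (node (nat_lit 4) (nat_lit 64941) (nat_lit 19) (node (nat_lit 6) (nat_lit 64941) (nat_lit 20)
  (node (nat_lit 5) (nat_lit 64941) (nat_lit 21) nil nil) nil) nil)) (node (nat_lit 0) (nat_lit
  64941) (nat_lit 18) nil nil)) (node (nat_lit 0) (nat_lit 64941) (nat_lit 17) nil nil))) (node
  (nat_lit 0) (nat_lit 64941) (nat_lit 16) nil nil)) (node (nat_lit 0) (nat_lit 64941) (nat_lit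
  15) nil nil)) (node (nat_lit 0) (nat_lit 64941) (nat_lit 14) (node (nat_lit 5) (nat_lit 64941)
  (nat_lit 15) nil (node (nat_lit 6) (nat_lit 64941) (nat_lit 15) nil (node (nat_lit 4) (nat_lit
  64941) (nat_lit 15) nil nil))) nil)) (node (nat_lit 0) (nat_lit 64941) (nat_lit 13) (node
  (nat_lit 4) (nat_lit 64941) (nat_lit 14) (node (nat_lit 5) (nat_lit 64941) (nat_lit 15) nil
  (node (nat_lit 6) (nat_lit 64941) (nat_lit 15) nil nil)) (node (nat_lit 5) (nat_lit 64941)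
  (nat_lit 14) (node (nat_lit 6) (nat_lit 64941) (nat_lit 15) nil (node (nat_lit 4) (nat_lit
  64941) (nat_lit 15) nil nil)) (node (nat_lit 6) (nat_lit 64941) (nat_lit 14) (node (nat_lit 5)
  (nat_lit 64941) (nat_lit 15) nil (node (nat_lit 4) (nat_lit 64941) (nat_lit 15) nil nil)) nil)))
  nil)) (node (nat_lit 0) (nat_lit 63411) (nat_lit 12) (node (nat_lit 5) (nat_lit 63428) (nat_lit
  13) (node (nat_lit 6) (nat_lit 63428) (nat_lit 14) (node (nat_lit 4) (nat_lit 63428) (nat_lit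
  15) nil nil) (node (nat_lit 4) (nat_lit 63428) (nat_lit 14) (node (nat_lit 6) (nat_lit 63428)
  (nat_lit 15) nil (node (nat_lit 5) (nat_lit 63428) (nat_lit 15) nil nil)) (node (nat_lit 15)
  (nat_lit 63854) (nat_lit 14) nil nil))) (node (nat_lit 4) (nat_lit 63427) (nat_lit 13) (node
  (nat_lit 5) (nat_lit 63427) (nat_lit 14) (node (nat_lit 6) (nat_lit 63427) (nat_lit 15) nil
  (node (nat_lit 4) (nat_lit 63427) (nat_lit 15) nil nil)) (node (nat_lit 6) (nat_lit 63427)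
  (nat_lit 14) (node (nat_lit 5) (nat_lit 63427) (nat_lit 15) nil (node (nat_lit 4) (nat_lit
  63427) (nat_lit 15) nil nil)) nil)) (node (nat_lit 6) (nat_lit 63411) (nat_lit 13) (node
  (nat_lit 4) (nat_lit 63411) (nat_lit 14) (node (nat_lit 5) (nat_lit 63411) (nat_lit 15) nil
  (node (nat_lit 6) (nat_lit 63411) (nat_lit 15) nil nil)) (node (nat_lit 5) (nat_lit 63411)
  (nat_lit 14) (node (nat_lit 4) (nat_lit 63411) (nat_lit 15) nil (node (nat_lit 6) (nat_lit
  63411) (nat_lit 15) nil nil)) nil)) (node (nat_lit 0) (nat_lit 63650) (nat_lit 13) nil nil))))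
  nil))) (node (nat_lit 6) (nat_lit 0) (nat_lit 11) (node (nat_lit 4) (nat_lit 0) (nat_lit 12)
  (node (nat_lit 5) (nat_lit 0) (nat_lit 13) (node (nat_lit 4) (nat_lit 0) (nat_lit 14) (node
  (nat_lit 6) (nat_lit 0) (nat_lit 15) (node (nat_lit 5) (nat_lit 0) (nat_lit 16) (node (nat_lit
  4) (nat_lit 0) (nat_lit 17) (node (nat_lit 5) (nat_lit 64257) (nat_lit 18) (node (nat_lit 6)
  (nat_lit 64444) (nat_lit 19) (node (nat_lit 5) (nat_lit 64590) (nat_lit 20) (node (nat_lit 4)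
  (nat_lit 64496) (nat_lit 21) nil nil) nil) nil) (node (nat_lit 0) (nat_lit 64862) (nat_lit 18)
  nil nil)) (node (nat_lit 6) (nat_lit 64065) (nat_lit 17) (node (nat_lit 4) (nat_lit 63583)
  (nat_lit 18) (node (nat_lit 6) (nat_lit 63769) (nat_lit 19) nil nil) nil) (node (nat_lit 0)
  (nat_lit 64339) (nat_lit 17) nil nil))) (node (nat_lit 4) (nat_lit 63420) (nat_lit 16) (node
  (nat_lit 5) (nat_lit 64365) (nat_lit 17) (node (nat_lit 6) (nat_lit 64941) (nat_lit 18) (node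
  (nat_lit 5) (nat_lit 64941) (nat_lit 19) (node (nat_lit 4) (nat_lit 63121) (nat_lit 20) (node
  (nat_lit 5) (nat_lit 58991) (nat_lit 21) (node (nat_lit 6) (nat_lit 54423) (nat_lit 22) (node
  (nat_lit 4) (nat_lit 50720) (nat_lit 23) (node (nat_lit 6) (nat_lit 45105) (nat_lit 24) (node
  (nat_lit 5) (nat_lit 45200) (nat_lit 25) (node (nat_lit 6) (nat_lit 28503) (nat_lit 26) (node
  (nat_lit 4) (nat_lit 28535) (nat_lit 27) (node (nat_lit 5) (nat_lit 28515) (nat_lit 28) nil nil)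
  nil) nil) nil) nil) nil) nil) nil) nil) nil) nil) nil) (node (nat_lit 0) (nat_lit 64732)
  (nat_lit 16) nil nil))) (node (nat_lit 0) (nat_lit 64539) (nat_lit 15) nil nil)) (node (nat_lit
  6) (nat_lit 0) (nat_lit 14) (node (nat_lit 5) (nat_lit 0) (nat_lit 15) (node (nat_lit 4)
  (nat_lit 0) (nat_lit 16) (node (nat_lit 6) (nat_lit 55679) (nat_lit 17) (node (nat_lit 4)
  (nat_lit 56419) (nat_lit 18) (node (nat_lit 5) (nat_lit 55534) (nat_lit 19) (node (nat_lit 6)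
  (nat_lit 55659) (nat_lit 20) nil nil) nil) (node (nat_lit 5) (nat_lit 55821) (nat_lit 18) (node
  (nat_lit 6) (nat_lit 56080) (nat_lit 19) nil nil) nil)) (node (nat_lit 5) (nat_lit 55514)
  (nat_lit 17) (node (nat_lit 6) (nat_lit 36605) (nat_lit 18) (node (nat_lit 4) (nat_lit 36882)
  (nat_lit 19) nil nil) nil) (node (nat_lit 0) (nat_lit 55673) (nat_lit 17) nil nil))) (node
  (nat_lit 0) (nat_lit 57014) (nat_lit 16) nil nil)) (node (nat_lit 0) (nat_lit 56756) (nat_lit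
  15) (node (nat_lit 5) (nat_lit 56756) (nat_lit 16) nil (node (nat_lit 6) (nat_lit 56756)
  (nat_lit 16) nil (node (nat_lit 4) (nat_lit 56756) (nat_lit 16) nil nil))) nil)) (node (nat_lit
  0) (nat_lit 62861) (nat_lit 14) nil nil))) (node (nat_lit 0) (nat_lit 64280) (nat_lit 13) (node
  (nat_lit 4) (nat_lit 64280) (nat_lit 14) nil (node (nat_lit 5) (nat_lit 64280) (nat_lit 14) nil
  (node (nat_lit 6) (nat_lit 64280) (nat_lit 14) nil nil))) nil)) (node (nat_lit 0) (nat_lit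
  63459) (nat_lit 12) (node (nat_lit 5) (nat_lit 63459) (nat_lit 13) (node (nat_lit 6) (nat_lit
  63459) (nat_lit 14) nil nil) (node (nat_lit 6) (nat_lit 63459) (nat_lit 13) nil (node (nat_lit
  4) (nat_lit 63459) (nat_lit 13) nil nil))) nil)) (node (nat_lit 0) (nat_lit 0) (nat_lit 11)
  (node (nat_lit 5) (nat_lit 61269) (nat_lit 12) (node (nat_lit 6) (nat_lit 61385) (nat_lit 13)
  (node (nat_lit 4) (nat_lit 61385) (nat_lit 14) nil (node (nat_lit 5) (nat_lit 61385) (nat_lit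
  14) (node (nat_lit 4) (nat_lit 61385) (nat_lit 15) nil nil) nil)) (node (nat_lit 4) (nat_lit
  61214) (nat_lit 13) (node (nat_lit 6) (nat_lit 61214) (nat_lit 14) nil (node (nat_lit 5)
  (nat_lit 61214) (nat_lit 14) nil nil)) (node (nat_lit 0) (nat_lit 61815) (nat_lit 13) nil nil)))
  (node (nat_lit 6) (nat_lit 61349) (nat_lit 12) (node (nat_lit 5) (nat_lit 61497) (nat_lit 13)
  (node (nat_lit 6) (nat_lit 61497) (nat_lit 14) (node (nat_lit 4) (nat_lit 61497) (nat_lit 15)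
  nil nil) (node (nat_lit 4) (nat_lit 61497) (nat_lit 14) nil nil)) (node (nat_lit 4) (nat_lit
  61349) (nat_lit 13) (node (nat_lit 5) (nat_lit 61349) (nat_lit 14) nil (node (nat_lit 6)
  (nat_lit 61349) (nat_lit 14) nil nil)) (node (nat_lit 14) (nat_lit 61895) (nat_lit 13) nil
  nil))) (node (nat_lit 4) (nat_lit 61583) (nat_lit 12) (node (nat_lit 5) (nat_lit 61702) (nat_lit
  13) (node (nat_lit 6) (nat_lit 61702) (nat_lit 14) (node (nat_lit 5) (nat_lit 61702) (nat_lit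
  15) nil nil) (node (nat_lit 4) (nat_lit 61702) (nat_lit 14) nil nil)) (node (nat_lit 6) (nat_lit
  61583) (nat_lit 13) (node (nat_lit 4) (nat_lit 61583) (nat_lit 14) nil (node (nat_lit 5)
  (nat_lit 61583) (nat_lit 14) nil nil)) nil)) (node (nat_lit 0) (nat_lit 61589) (nat_lit 12) nil
  nil)))) nil))) (node (nat_lit 0) (nat_lit 57765) (nat_lit 10) (node (nat_lit 5) (nat_lit 57825)
  (nat_lit 11) (node (nat_lit 6) (nat_lit 57825) (nat_lit 12) (node (nat_lit 4) (nat_lit 57825)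
  (nat_lit 13) (node (nat_lit 5) (nat_lit 57825) (nat_lit 14) nil nil) (node (nat_lit 5) (nat_lit
  57825) (nat_lit 13) (node (nat_lit 4) (nat_lit 57825) (nat_lit 14) nil nil) nil)) (node (nat_lit
  4) (nat_lit 57825) (nat_lit 12) (node (nat_lit 6) (nat_lit 57825) (nat_lit 13) (node (nat_lit 4)
  (nat_lit 57825) (nat_lit 14) nil (node (nat_lit 5) (nat_lit 57825) (nat_lit 14) nil nil)) (node
  (nat_lit 5) (nat_lit 57825) (nat_lit 13) nil nil)) nil)) (node (nat_lit 4) (nat_lit 58277)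
  (nat_lit 11) (node (nat_lit 5) (nat_lit 58277) (nat_lit 12) (node (nat_lit 6) (nat_lit 58277)
  (nat_lit 13) (node (nat_lit 5) (nat_lit 58277) (nat_lit 14) nil (node (nat_lit 4) (nat_lit
  58277) (nat_lit 14) nil nil)) (node (nat_lit 4) (nat_lit 58277) (nat_lit 13) nil nil)) (node
  (nat_lit 6) (nat_lit 58277) (nat_lit 12) (node (nat_lit 4) (nat_lit 58277) (nat_lit 13) (node
  (nat_lit 5) (nat_lit 58277) (nat_lit 14) nil nil) (node (nat_lit 5) (nat_lit 58277) (nat_lit 13)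
  (node (nat_lit 4) (nat_lit 58277) (nat_lit 14) nil nil) nil)) nil)) (node (nat_lit 6) (nat_lit
  57878) (nat_lit 11) (node (nat_lit 4) (nat_lit 58782) (nat_lit 12) (node (nat_lit 5) (nat_lit
  58772) (nat_lit 13) (node (nat_lit 6) (nat_lit 58772) (nat_lit 14) nil (node (nat_lit 4)
  (nat_lit 58772) (nat_lit 14) nil nil)) (node (nat_lit 6) (nat_lit 58782) (nat_lit 13) nil nil))
  (node (nat_lit 5) (nat_lit 58386) (nat_lit 12) (node (nat_lit 6) (nat_lit 58386) (nat_lit 13)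
  nil (node (nat_lit 4) (nat_lit 58386) (nat_lit 13) nil nil)) nil)) (node (nat_lit 0) (nat_lit
  58157) (nat_lit 11) nil nil)))) nil)) (node (nat_lit 5) (nat_lit 0) (nat_lit 9) (node (nat_lit
  4) (nat_lit 0) (nat_lit 10) (node (nat_lit 6) (nat_lit 0) (nat_lit 11) (node (nat_lit 5)
  (nat_lit 0) (nat_lit 12) (node (nat_lit 6) (nat_lit 0) (nat_lit 13) (node (nat_lit 4) (nat_lit
  0) (nat_lit 14) (node (nat_lit 6) (nat_lit 0) (nat_lit 15) (node (nat_lit 5) (nat_lit 64939)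
  (nat_lit 16) (node (nat_lit 4) (nat_lit 64941) (nat_lit 17) (node (nat_lit 5) (nat_lit 64941)
  (nat_lit 18) (node (nat_lit 6) (nat_lit 64941) (nat_lit 19) (node (nat_lit 5) (nat_lit 64941)
  (nat_lit 20) (node (nat_lit 4) (nat_lit 64941) (nat_lit 21) nil nil) (node (nat_lit 4) (nat_lit
  64941) (nat_lit 20) nil nil)) nil) (node (nat_lit 6) (nat_lit 64941) (nat_lit 18) (node (nat_lit
  4) (nat_lit 64941) (nat_lit 19) (node (nat_lit 5) (nat_lit 64941) (nat_lit 20) (node (nat_lit 6)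
  (nat_lit 64941) (nat_lit 21) (node (nat_lit 5) (nat_lit 64941) (nat_lit 22) (node (nat_lit 4)
  (nat_lit 64941) (nat_lit 23) (node (nat_lit 5) (nat_lit 64891) (nat_lit 24) (node (nat_lit 6)
  (nat_lit 63586) (nat_lit 25) (node (nat_lit 4) (nat_lit 60524) (nat_lit 26) (node (nat_lit 5)
  (nat_lit 56877) (nat_lit 27) (node (nat_lit 4) (nat_lit 56925) (nat_lit 28) (node (nat_lit 6)
  (nat_lit 56938) (nat_lit 29) nil nil) nil) nil) nil) nil) nil) nil) nil) nil) nil) nil) nil))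
  nil) (node (nat_lit 0) (nat_lit 64941) (nat_lit 16) nil nil)) (node (nat_lit 5) (nat_lit 0)
  (nat_lit 15) (node (nat_lit 6) (nat_lit 0) (nat_lit 16) (node (nat_lit 5) (nat_lit 60655)
  (nat_lit 17) (node (nat_lit 4) (nat_lit 0) (nat_lit 18) (node (nat_lit 5) (nat_lit 54155)
  (nat_lit 19) (node (nat_lit 6) (nat_lit 48730) (nat_lit 20) (node (nat_lit 4) (nat_lit 49035)
  (nat_lit 21) (node (nat_lit 5) (nat_lit 37961) (nat_lit 22) (node (nat_lit 4) (nat_lit 38021)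
  (nat_lit 23) (node (nat_lit 6) (nat_lit 38067) (nat_lit 24) nil nil) nil) nil) nil) nil) (node
  (nat_lit 6) (nat_lit 59357) (nat_lit 19) (node (nat_lit 4) (nat_lit 59164) (nat_lit 20) (node
  (nat_lit 5) (nat_lit 59213) (nat_lit 21) nil nil) (node (nat_lit 5) (nat_lit 59398) (nat_lit 20)
  (node (nat_lit 6) (nat_lit 59170) (nat_lit 21) nil nil) nil)) (node (nat_lit 0) (nat_lit 59400)
  (nat_lit 19) nil nil))) nil) (node (nat_lit 0) (nat_lit 64076) (nat_lit 17) nil nil)) (node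
  (nat_lit 0) (nat_lit 64259) (nat_lit 16) nil (node (nat_lit 4) (nat_lit 61544) (nat_lit 16) nil
  nil))) (node (nat_lit 0) (nat_lit 64941) (nat_lit 15) nil nil))) (node (nat_lit 0) (nat_lit
  64941) (nat_lit 14) (node (nat_lit 5) (nat_lit 64941) (nat_lit 15) nil (node (nat_lit 6)
  (nat_lit 64941) (nat_lit 15) nil (node (nat_lit 4) (nat_lit 64941) (nat_lit 15) nil nil))) nil))
  (node (nat_lit 4) (nat_lit 0) (nat_lit 13) (node (nat_lit 5) (nat_lit 0) (nat_lit 14) (node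
  (nat_lit 6) (nat_lit 0) (nat_lit 15) (node (nat_lit 5) (nat_lit 0) (nat_lit 16) (node (nat_lit
  4) (nat_lit 64941) (nat_lit 17) (node (nat_lit 6) (nat_lit 64941) (nat_lit 18) (node (nat_lit 4)
  (nat_lit 64941) (nat_lit 19) (node (nat_lit 5) (nat_lit 64941) (nat_lit 20) (node (nat_lit 6)
  (nat_lit 64656) (nat_lit 21) nil nil) nil) (node (nat_lit 5) (nat_lit 64941) (nat_lit 19) nil
  nil)) nil) (node (nat_lit 0) (nat_lit 64941) (nat_lit 17) nil nil)) (node (nat_lit 4) (nat_lit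
  64349) (nat_lit 16) (node (nat_lit 6) (nat_lit 64686) (nat_lit 17) (node (nat_lit 5) (nat_lit
  64855) (nat_lit 18) (node (nat_lit 6) (nat_lit 64458) (nat_lit 19) nil (node (nat_lit 4)
  (nat_lit 64697) (nat_lit 19) nil nil)) nil) (node (nat_lit 0) (nat_lit 64941) (nat_lit 17) nil
  nil)) (node (nat_lit 0) (nat_lit 64941) (nat_lit 16) nil nil))) (node (nat_lit 0) (nat_lit
  64941) (nat_lit 15) (node (nat_lit 4) (nat_lit 64941) (nat_lit 16) nil nil) nil)) (node (nat_lit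
  0) (nat_lit 64413) (nat_lit 14) nil nil)) (node (nat_lit 0) (nat_lit 64869) (nat_lit 13) (node
  (nat_lit 5) (nat_lit 64869) (nat_lit 14) nil (node (nat_lit 4) (nat_lit 64869) (nat_lit 14) nil
  (node (nat_lit 6) (nat_lit 64869) (nat_lit 14) nil nil))) nil))) (node (nat_lit 4) (nat_lit 0)
  (nat_lit 12) (node (nat_lit 5) (nat_lit 0) (nat_lit 13) (node (nat_lit 6) (nat_lit 0) (nat_lit
  14) (node (nat_lit 5) (nat_lit 0) (nat_lit 15) (node (nat_lit 4) (nat_lit 0) (nat_lit 16) (node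
  (nat_lit 6) (nat_lit 0) (nat_lit 17) (node (nat_lit 5) (nat_lit 0) (nat_lit 18) (node (nat_lit
  6) (nat_lit 0) (nat_lit 19) (node (nat_lit 4) (nat_lit 0) (nat_lit 20) (node (nat_lit 5)
  (nat_lit 46966) (nat_lit 21) (node (nat_lit 6) (nat_lit 46070) (nat_lit 22) nil (node (nat_lit
  4) (nat_lit 46991) (nat_lit 22) (node (nat_lit 6) (nat_lit 46856) (nat_lit 23) nil nil) nil))
  (node (nat_lit 6) (nat_lit 46996) (nat_lit 21) (node (nat_lit 5) (nat_lit 46938) (nat_lit 22)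
  (node (nat_lit 4) (nat_lit 46881) (nat_lit 23) nil nil) nil) (node (nat_lit 0) (nat_lit 47189)
  (nat_lit 21) nil nil))) (node (nat_lit 0) (nat_lit 46907) (nat_lit 20) nil nil)) (node (nat_lit
  0) (nat_lit 47177) (nat_lit 19) nil nil)) (node (nat_lit 4) (nat_lit 0) (nat_lit 18) (node
  (nat_lit 5) (nat_lit 46439) (nat_lit 19) (node (nat_lit 4) (nat_lit 46871) (nat_lit 20) (node
  (nat_lit 6) (nat_lit 47052) (nat_lit 21) (node (nat_lit 5) (nat_lit 47204) (nat_lit 22) (node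
  (nat_lit 4) (nat_lit 47273) (nat_lit 23) nil nil) nil) nil) nil) (node (nat_lit 0) (nat_lit
  47191) (nat_lit 19) nil nil)) (node (nat_lit 0) (nat_lit 47099) (nat_lit 18) nil nil))) (node
  (nat_lit 5) (nat_lit 0) (nat_lit 17) (node (nat_lit 6) (nat_lit 45461) (nat_lit 18) (node
  (nat_lit 4) (nat_lit 29326) (nat_lit 19) (node (nat_lit 5) (nat_lit 29562) (nat_lit 20) nil nil)
  nil) (node (nat_lit 0) (nat_lit 45689) (nat_lit 18) nil nil)) (node (nat_lit 0) (nat_lit 46997)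
  (nat_lit 17) (node (nat_lit 5) (nat_lit 46997) (nat_lit 18) nil (node (nat_lit 4) (nat_lit
  46997) (nat_lit 18) nil nil)) nil))) (node (nat_lit 0) (nat_lit 46566) (nat_lit 16) (node
  (nat_lit 6) (nat_lit 46566) (nat_lit 17) nil (node (nat_lit 5) (nat_lit 46566) (nat_lit 17) nil
  nil)) nil)) (node (nat_lit 4) (nat_lit 0) (nat_lit 15) (node (nat_lit 6) (nat_lit 0) (nat_lit
  16) (node (nat_lit 5) (nat_lit 57892) (nat_lit 17) (node (nat_lit 4) (nat_lit 58657) (nat_lit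
  18) (node (nat_lit 5) (nat_lit 59119) (nat_lit 19) (node (nat_lit 6) (nat_lit 59266) (nat_lit
  20) (node (nat_lit 5) (nat_lit 59379) (nat_lit 21) (node (nat_lit 4) (nat_lit 59307) (nat_lit
  22) nil nil) nil) nil) (node (nat_lit 6) (nat_lit 59189) (nat_lit 19) (node (nat_lit 4) (nat_lit
  59594) (nat_lit 20) (node (nat_lit 5) (nat_lit 58982) (nat_lit 21) nil nil) nil) nil)) (node
  (nat_lit 6) (nat_lit 58549) (nat_lit 18) (node (nat_lit 4) (nat_lit 58940) (nat_lit 19) (node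
  (nat_lit 5) (nat_lit 59110) (nat_lit 20) (node (nat_lit 6) (nat_lit 59348) (nat_lit 21) (node
  (nat_lit 5) (nat_lit 59025) (nat_lit 22) (node (nat_lit 4) (nat_lit 58466) (nat_lit 23) (node
  (nat_lit 5) (nat_lit 57609) (nat_lit 24) (node (nat_lit 6) (nat_lit 56300) (nat_lit 25) (node
  (nat_lit 4) (nat_lit 53946) (nat_lit 26) (node (nat_lit 5) (nat_lit 49785) (nat_lit 27) (node
  (nat_lit 4) (nat_lit 49828) (nat_lit 28) (node (nat_lit 6) (nat_lit 49855) (nat_lit 29) nil nil)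
  nil) nil) nil) nil) nil) nil) nil) nil) nil) nil) nil)) (node (nat_lit 0) (nat_lit 59020)
  (nat_lit 17) nil nil)) (node (nat_lit 0) (nat_lit 58916) (nat_lit 16) nil nil)) (node (nat_lit
  0) (nat_lit 58496) (nat_lit 15) nil nil))) (node (nat_lit 0) (nat_lit 60836) (nat_lit 14) nil
  nil)) (node (nat_lit 0) (nat_lit 61302) (nat_lit 13) (node (nat_lit 6) (nat_lit 61302) (nat_lit
  14) nil (node (nat_lit 4) (nat_lit 61302) (nat_lit 14) nil nil)) nil)) (node (nat_lit 0)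
  (nat_lit 63483) (nat_lit 12) (node (nat_lit 4) (nat_lit 63483) (nat_lit 13) (node (nat_lit 6)
  (nat_lit 63483) (nat_lit 14) nil (node (nat_lit 5) (nat_lit 63483) (nat_lit 14) nil nil)) (node
  (nat_lit 6) (nat_lit 63483) (nat_lit 13) (node (nat_lit 4) (nat_lit 63483) (nat_lit 14) nil
  (node (nat_lit 5) (nat_lit 63483) (nat_lit 14) nil nil)) (node (nat_lit 5) (nat_lit 63483)
  (nat_lit 13) (node (nat_lit 6) (nat_lit 63483) (nat_lit 14) nil (node (nat_lit 4) (nat_lit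
  63483) (nat_lit 14) nil nil)) nil))) nil))) (node (nat_lit 0) (nat_lit 61293) (nat_lit 11) (node
  (nat_lit 5) (nat_lit 61251) (nat_lit 12) (node (nat_lit 6) (nat_lit 61367) (nat_lit 13) (node
  (nat_lit 4) (nat_lit 61367) (nat_lit 14) nil (node (nat_lit 5) (nat_lit 61367) (nat_lit 14) nil
  nil)) (node (nat_lit 4) (nat_lit 61629) (nat_lit 13) (node (nat_lit 6) (nat_lit 61666) (nat_lit
  14) nil (node (nat_lit 5) (nat_lit 61625) (nat_lit 14) (node (nat_lit 6) (nat_lit 61625)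
  (nat_lit 15) nil nil) nil)) nil)) (node (nat_lit 4) (nat_lit 61535) (nat_lit 12) (node (nat_lit
  5) (nat_lit 61654) (nat_lit 13) (node (nat_lit 6) (nat_lit 61654) (nat_lit 14) (node (nat_lit 5)
  (nat_lit 61654) (nat_lit 15) nil (node (nat_lit 4) (nat_lit 61654) (nat_lit 15) nil nil)) (node
  (nat_lit 4) (nat_lit 61654) (nat_lit 14) nil nil)) (node (nat_lit 6) (nat_lit 61857) (nat_lit
  13) (node (nat_lit 5) (nat_lit 61857) (nat_lit 14) (node (nat_lit 4) (nat_lit 61857) (nat_lit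
  15) nil nil) (node (nat_lit 4) (nat_lit 61857) (nat_lit 14) nil nil)) (node (nat_lit 0) (nat_lit
  62081) (nat_lit 13) nil nil))) (node (nat_lit 6) (nat_lit 61423) (nat_lit 12) (node (nat_lit 4)
  (nat_lit 61423) (nat_lit 13) (node (nat_lit 5) (nat_lit 61423) (nat_lit 14) nil (node (nat_lit
  6) (nat_lit 61423) (nat_lit 14) (node (nat_lit 5) (nat_lit 61423) (nat_lit 15) nil nil) nil))
  (node (nat_lit 5) (nat_lit 61423) (nat_lit 13) (node (nat_lit 4) (nat_lit 61423) (nat_lit 14)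
  (node (nat_lit 6) (nat_lit 61423) (nat_lit 15) nil nil) (node (nat_lit 6) (nat_lit 61423)
  (nat_lit 14) nil nil)) nil)) (node (nat_lit 0) (nat_lit 62030) (nat_lit 12) nil nil)))) nil))
  (node (nat_lit 0) (nat_lit 0) (nat_lit 10) (node (nat_lit 4) (nat_lit 58425) (nat_lit 11) (node
  (nat_lit 5) (nat_lit 58822) (nat_lit 12) (node (nat_lit 6) (nat_lit 58720) (nat_lit 13) (node
  (nat_lit 5) (nat_lit 59159) (nat_lit 14) (node (nat_lit 4) (nat_lit 59711) (nat_lit 15) nil nil)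
  (node (nat_lit 4) (nat_lit 58720) (nat_lit 14) nil nil)) (node (nat_lit 4) (nat_lit 59352)
  (nat_lit 13) (node (nat_lit 6) (nat_lit 59791) (nat_lit 14) (node (nat_lit 5) (nat_lit 60343)
  (nat_lit 15) nil (node (nat_lit 4) (nat_lit 60343) (nat_lit 15) nil nil)) nil) nil)) (node
  (nat_lit 6) (nat_lit 58968) (nat_lit 12) (node (nat_lit 5) (nat_lit 58968) (nat_lit 13) (node
  (nat_lit 4) (nat_lit 58968) (nat_lit 14) nil (node (nat_lit 6) (nat_lit 58968) (nat_lit 14) nil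
  nil)) (node (nat_lit 4) (nat_lit 59303) (nat_lit 13) (node (nat_lit 5) (nat_lit 59303) (nat_lit
  14) nil nil) nil)) (node (nat_lit 13) (nat_lit 60104) (nat_lit 12) nil nil))) (node (nat_lit 6)
  (nat_lit 58287) (nat_lit 11) (node (nat_lit 4) (nat_lit 58994) (nat_lit 12) (node (nat_lit 5)
  (nat_lit 58994) (nat_lit 13) (node (nat_lit 6) (nat_lit 58994) (nat_lit 14) nil (node (nat_lit
  4) (nat_lit 58994) (nat_lit 14) nil nil)) (node (nat_lit 6) (nat_lit 59329) (nat_lit 13) (node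
  (nat_lit 5) (nat_lit 59329) (nat_lit 14) nil nil) nil)) (node (nat_lit 5) (nat_lit 58687)
  (nat_lit 12) (node (nat_lit 6) (nat_lit 59032) (nat_lit 13) (node (nat_lit 4) (nat_lit 58639)
  (nat_lit 14) (node (nat_lit 5) (nat_lit 58690) (nat_lit 15) nil (node (nat_lit 6) (nat_lit
  58600) (nat_lit 15) nil nil)) nil) (node (nat_lit 4) (nat_lit 58687) (nat_lit 13) (node (nat_lit
  5) (nat_lit 58687) (nat_lit 14) (node (nat_lit 6) (nat_lit 58687) (nat_lit 15) nil nil) (node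
  (nat_lit 6) (nat_lit 58687) (nat_lit 14) nil nil)) nil)) (node (nat_lit 13) (nat_lit 60409)
  (nat_lit 12) nil nil))) (node (nat_lit 5) (nat_lit 58148) (nat_lit 11) (node (nat_lit 4)
  (nat_lit 59226) (nat_lit 12) (node (nat_lit 6) (nat_lit 60224) (nat_lit 13) (node (nat_lit 4)
  (nat_lit 60224) (nat_lit 14) nil (node (nat_lit 5) (nat_lit 60664) (nat_lit 14) nil nil)) (node
  (nat_lit 5) (nat_lit 59421) (nat_lit 13) (node (nat_lit 6) (nat_lit 59421) (nat_lit 14) nil nil)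
  nil)) (node (nat_lit 6) (nat_lit 59287) (nat_lit 12) (node (nat_lit 4) (nat_lit 60081) (nat_lit
  13) (node (nat_lit 5) (nat_lit 60330) (nat_lit 14) (node (nat_lit 4) (nat_lit 60330) (nat_lit
  15) nil nil) (node (nat_lit 6) (nat_lit 59883) (nat_lit 14) (node (nat_lit 5) (nat_lit 59883)
  (nat_lit 15) nil nil) nil)) (node (nat_lit 5) (nat_lit 59944) (nat_lit 13) nil nil)) nil)) (node
  (nat_lit 0) (nat_lit 59621) (nat_lit 11) nil nil)))) nil)) (node (nat_lit 0) (nat_lit 0)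
  (nat_lit 9) (node (nat_lit 6) (nat_lit 54731) (nat_lit 10) (node (nat_lit 5) (nat_lit 55750)
  (nat_lit 11) (node (nat_lit 4) (nat_lit 56428) (nat_lit 12) (node (nat_lit 6) (nat_lit 56428)
  (nat_lit 13) (node (nat_lit 4) (nat_lit 56428) (nat_lit 14) nil nil) (node (nat_lit 5) (nat_lit
  56991) (nat_lit 13) (node (nat_lit 6) (nat_lit 57696) (nat_lit 14) (node (nat_lit 4) (nat_lit
  58200) (nat_lit 15) nil nil) nil) nil)) (node (nat_lit 6) (nat_lit 56192) (nat_lit 12) (node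
  (nat_lit 4) (nat_lit 56233) (nat_lit 13) (node (nat_lit 5) (nat_lit 56294) (nat_lit 14) nil nil)
  nil) nil)) (node (nat_lit 4) (nat_lit 56075) (nat_lit 11) (node (nat_lit 5) (nat_lit 55855)
  (nat_lit 12) (node (nat_lit 6) (nat_lit 55834) (nat_lit 13) (node (nat_lit 5) (nat_lit 55896)
  (nat_lit 14) (node (nat_lit 4) (nat_lit 55449) (nat_lit 15) nil nil) (node (nat_lit 4) (nat_lit
  55834) (nat_lit 14) nil nil)) (node (nat_lit 4) (nat_lit 55917) (nat_lit 13) (node (nat_lit 6)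
  (nat_lit 55862) (nat_lit 14) (node (nat_lit 5) (nat_lit 55415) (nat_lit 15) nil nil) nil) nil))
  (node (nat_lit 6) (nat_lit 57430) (nat_lit 12) nil nil)) nil)) (node (nat_lit 5) (nat_lit 54554)
  (nat_lit 10) (node (nat_lit 4) (nat_lit 55893) (nat_lit 11) (node (nat_lit 6) (nat_lit 56188)
  (nat_lit 12) (node (nat_lit 4) (nat_lit 56188) (nat_lit 13) (node (nat_lit 5) (nat_lit 56188)
  (nat_lit 14) nil nil) (node (nat_lit 5) (nat_lit 56188) (nat_lit 13) (node (nat_lit 6) (nat_lit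
  56188) (nat_lit 14) nil nil) nil)) (node (nat_lit 5) (nat_lit 56491) (nat_lit 12) nil nil))
  (node (nat_lit 6) (nat_lit 55948) (nat_lit 11) (node (nat_lit 4) (nat_lit 56431) (nat_lit 12)
  (node (nat_lit 5) (nat_lit 56838) (nat_lit 13) (node (nat_lit 6) (nat_lit 56838) (nat_lit 14)
  nil (node (nat_lit 4) (nat_lit 56838) (nat_lit 14) nil nil)) (node (nat_lit 6) (nat_lit 56410)
  (nat_lit 13) (node (nat_lit 5) (nat_lit 56410) (nat_lit 14) nil nil) nil)) (node (nat_lit 5)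
  (nat_lit 57016) (nat_lit 12) nil nil)) (node (nat_lit 12) (nat_lit 58915) (nat_lit 11) nil
  nil))) (node (nat_lit 4) (nat_lit 54681) (nat_lit 10) (node (nat_lit 6) (nat_lit 56188) (nat_lit
  11) (node (nat_lit 5) (nat_lit 57057) (nat_lit 12) (node (nat_lit 6) (nat_lit 57057) (nat_lit
  13) (node (nat_lit 4) (nat_lit 57057) (nat_lit 14) nil nil) (node (nat_lit 4) (nat_lit 57374)
  (nat_lit 13) nil nil)) (node (nat_lit 4) (nat_lit 57053) (nat_lit 12) (node (nat_lit 5) (nat_lit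
  57053) (nat_lit 13) nil nil) nil)) (node (nat_lit 5) (nat_lit 55924) (nat_lit 11) (node (nat_lit
  6) (nat_lit 57232) (nat_lit 12) (node (nat_lit 5) (nat_lit 58129) (nat_lit 13) (node (nat_lit 4)
  (nat_lit 58835) (nat_lit 14) (node (nat_lit 6) (nat_lit 59338) (nat_lit 15) nil nil) nil) (node
  (nat_lit 4) (nat_lit 56702) (nat_lit 13) nil nil)) (node (nat_lit 4) (nat_lit 57017) (nat_lit
  12) nil nil)) nil)) (node (nat_lit 0) (nat_lit 57715) (nat_lit 10) nil nil)))) nil)))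

noncomputable def t305 : Tr :=
  (node (nat_lit 7) (nat_lit 0) (nat_lit 10) (node (nat_lit 5) (nat_lit 0) (nat_lit 11) (node
  (nat_lit 4) (nat_lit 0) (nat_lit 12) (node (nat_lit 7) (nat_lit 0) (nat_lit 13) (node (nat_lit
  4) (nat_lit 0) (nat_lit 14) (node (nat_lit 5) (nat_lit 0) (nat_lit 15) (node (nat_lit 7)
  (nat_lit 0) (nat_lit 16) (node (nat_lit 5) (nat_lit 67925) (nat_lit 17) (node (nat_lit 4)
  (nat_lit 67725) (nat_lit 18) nil nil) (node (nat_lit 4) (nat_lit 68217) (nat_lit 17) (node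
  (nat_lit 7) (nat_lit 68234) (nat_lit 18) (node (nat_lit 5) (nat_lit 68234) (nat_lit 19) nil nil)
  nil) (node (nat_lit 0) (nat_lit 68234) (nat_lit 17) nil nil))) (node (nat_lit 4) (nat_lit 67354)
  (nat_lit 16) (node (nat_lit 7) (nat_lit 64972) (nat_lit 17) (node (nat_lit 5) (nat_lit 60515)
  (nat_lit 18) (node (nat_lit 7) (nat_lit 0) (nat_lit 19) (node (nat_lit 4) (nat_lit 61709)
  (nat_lit 20) (node (nat_lit 5) (nat_lit 61967) (nat_lit 21) (node (nat_lit 7) (nat_lit 62157)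
  (nat_lit 22) nil (node (nat_lit 4) (nat_lit 60752) (nat_lit 22) nil nil)) nil) (node (nat_lit 0)
  (nat_lit 62315) (nat_lit 20) nil nil)) (node (nat_lit 4) (nat_lit 61226) (nat_lit 19) (node
  (nat_lit 5) (nat_lit 61726) (nat_lit 20) (node (nat_lit 7) (nat_lit 62114) (nat_lit 21) (node
  (nat_lit 4) (nat_lit 36635) (nat_lit 22) (node (nat_lit 5) (nat_lit 36674) (nat_lit 23) nil
  (node (nat_lit 7) (nat_lit 36672) (nat_lit 23) (node (nat_lit 5) (nat_lit 36740) (nat_lit 24)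
  nil nil) nil)) nil) nil) nil) nil)) nil) nil) (node (nat_lit 0) (nat_lit 68234) (nat_lit 16) nil
  nil))) (node (nat_lit 0) (nat_lit 68234) (nat_lit 15) nil nil)) (node (nat_lit 0) (nat_lit
  68234) (nat_lit 14) (node (nat_lit 5) (nat_lit 68234) (nat_lit 15) nil (node (nat_lit 4)
  (nat_lit 68234) (nat_lit 15) nil (node (nat_lit 7) (nat_lit 68234) (nat_lit 15) nil nil))) nil))
  (node (nat_lit 0) (nat_lit 68234) (nat_lit 13) (node (nat_lit 5) (nat_lit 68234) (nat_lit 14)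
  nil (node (nat_lit 4) (nat_lit 68234) (nat_lit 14) nil (node (nat_lit 7) (nat_lit 68234)
  (nat_lit 14) nil nil))) (node (nat_lit 5) (nat_lit 0) (nat_lit 13) (node (nat_lit 0) (nat_lit
  68234) (nat_lit 14) (node (nat_lit 4) (nat_lit 68234) (nat_lit 15) nil (node (nat_lit 5)
  (nat_lit 68234) (nat_lit 15) nil (node (nat_lit 7) (nat_lit 68234) (nat_lit 15) nil nil))) nil)
  nil))) (node (nat_lit 7) (nat_lit 0) (nat_lit 12) (node (nat_lit 4) (nat_lit 0) (nat_lit 13)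
  (node (nat_lit 5) (nat_lit 0) (nat_lit 14) (node (nat_lit 4) (nat_lit 0) (nat_lit 15) (node
  (nat_lit 7) (nat_lit 0) (nat_lit 16) (node (nat_lit 5) (nat_lit 0) (nat_lit 17) (node (nat_lit
  4) (nat_lit 59610) (nat_lit 18) (node (nat_lit 5) (nat_lit 60127) (nat_lit 19) (node (nat_lit 7)
  (nat_lit 54862) (nat_lit 20) (node (nat_lit 4) (nat_lit 54939) (nat_lit 21) (node (nat_lit 7)
  (nat_lit 35855) (nat_lit 22) nil nil) nil) nil) nil) (node (nat_lit 7) (nat_lit 59896) (nat_lit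
  18) (node (nat_lit 4) (nat_lit 59139) (nat_lit 19) nil nil) (node (nat_lit 0) (nat_lit 60839)
  (nat_lit 18) nil nil))) (node (nat_lit 4) (nat_lit 0) (nat_lit 17) (node (nat_lit 5) (nat_lit 0)
  (nat_lit 18) (node (nat_lit 7) (nat_lit 0) (nat_lit 19) (node (nat_lit 5) (nat_lit 61226)
  (nat_lit 20) (node (nat_lit 4) (nat_lit 61387) (nat_lit 21) (node (nat_lit 7) (nat_lit 61254)
  (nat_lit 22) nil (node (nat_lit 5) (nat_lit 61320) (nat_lit 22) nil nil)) nil) (node (nat_lit 4)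
  (nat_lit 61172) (nat_lit 20) (node (nat_lit 7) (nat_lit 61289) (nat_lit 21) nil nil) (node
  (nat_lit 0) (nat_lit 61393) (nat_lit 20) nil nil))) (node (nat_lit 0) (nat_lit 60926) (nat_lit
  19) nil nil)) (node (nat_lit 0) (nat_lit 61089) (nat_lit 18) nil nil)) (node (nat_lit 0)
  (nat_lit 61282) (nat_lit 17) nil nil))) (node (nat_lit 0) (nat_lit 67141) (nat_lit 16) nil nil))
  (node (nat_lit 7) (nat_lit 0) (nat_lit 15) (node (nat_lit 5) (nat_lit 0) (nat_lit 16) (node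
  (nat_lit 4) (nat_lit 68116) (nat_lit 17) (node (nat_lit 7) (nat_lit 68234) (nat_lit 18) (node
  (nat_lit 4) (nat_lit 68234) (nat_lit 19) (node (nat_lit 5) (nat_lit 68234) (nat_lit 20) (node
  (nat_lit 4) (nat_lit 68234) (nat_lit 21) (node (nat_lit 7) (nat_lit 68234) (nat_lit 22) (node
  (nat_lit 5) (nat_lit 68234) (nat_lit 23) (node (nat_lit 4) (nat_lit 68234) (nat_lit 24) (node
  (nat_lit 5) (nat_lit 67998) (nat_lit 25) (node (nat_lit 7) (nat_lit 65637) (nat_lit 26) (node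
  (nat_lit 4) (nat_lit 61226) (nat_lit 27) (node (nat_lit 7) (nat_lit 55516) (nat_lit 28) (node
  (nat_lit 5) (nat_lit 46953) (nat_lit 29) nil nil) nil) nil) nil) nil) nil) nil) nil) nil) nil)
  nil) (node (nat_lit 5) (nat_lit 67917) (nat_lit 18) nil nil)) (node (nat_lit 0) (nat_lit 68234)
  (nat_lit 17) nil nil)) (node (nat_lit 0) (nat_lit 68234) (nat_lit 16) nil nil)) (node (nat_lit
  0) (nat_lit 68234) (nat_lit 15) nil nil))) (node (nat_lit 0) (nat_lit 68234) (nat_lit 14) nil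
  nil)) (node (nat_lit 0) (nat_lit 68234) (nat_lit 13) (node (nat_lit 5) (nat_lit 68234) (nat_lit
  14) nil (node (nat_lit 7) (nat_lit 68234) (nat_lit 14) nil nil)) nil)) (node (nat_lit 0)
  (nat_lit 67848) (nat_lit 12) (node (nat_lit 7) (nat_lit 67848) (nat_lit 13) (node (nat_lit 5)
  (nat_lit 67848) (nat_lit 14) nil (node (nat_lit 4) (nat_lit 67848) (nat_lit 14) nil nil)) (node
  (nat_lit 5) (nat_lit 67848) (nat_lit 13) (node (nat_lit 4) (nat_lit 67848) (nat_lit 14) nil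
  (node (nat_lit 7) (nat_lit 67848) (nat_lit 14) nil nil)) (node (nat_lit 4) (nat_lit 67848)
  (nat_lit 13) (node (nat_lit 5) (nat_lit 67848) (nat_lit 14) nil (node (nat_lit 7) (nat_lit
  67848) (nat_lit 14) nil nil)) nil))) nil))) (node (nat_lit 0) (nat_lit 65393) (nat_lit 11) (node
  (nat_lit 7) (nat_lit 65393) (nat_lit 12) (node (nat_lit 4) (nat_lit 65393) (nat_lit 13) (node
  (nat_lit 5) (nat_lit 65393) (nat_lit 14) nil (node (nat_lit 7) (nat_lit 65393) (nat_lit 14) nil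
  nil)) (node (nat_lit 5) (nat_lit 65393) (nat_lit 13) nil nil)) (node (nat_lit 4) (nat_lit 65393)
  (nat_lit 12) (node (nat_lit 5) (nat_lit 65393) (nat_lit 13) (node (nat_lit 4) (nat_lit 65393)
  (nat_lit 14) nil (node (nat_lit 7) (nat_lit 65393) (nat_lit 14) nil nil)) (node (nat_lit 7)
  (nat_lit 65393) (nat_lit 13) (node (nat_lit 4) (nat_lit 65393) (nat_lit 14) nil (node (nat_lit
  5) (nat_lit 65393) (nat_lit 14) nil nil)) nil)) (node (nat_lit 5) (nat_lit 65393) (nat_lit 12)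
  (node (nat_lit 4) (nat_lit 65393) (nat_lit 13) nil (node (nat_lit 7) (nat_lit 65393) (nat_lit
  13) nil nil)) (node (nat_lit 0) (nat_lit 65711) (nat_lit 12) nil nil)))) nil)) (node (nat_lit 5)
  (nat_lit 0) (nat_lit 10) (node (nat_lit 4) (nat_lit 0) (nat_lit 11) (node (nat_lit 7) (nat_lit
  0) (nat_lit 12) (node (nat_lit 4) (nat_lit 0) (nat_lit 13) (node (nat_lit 5) (nat_lit 0)
  (nat_lit 14) (node (nat_lit 7) (nat_lit 0) (nat_lit 15) (node (nat_lit 5) (nat_lit 0) (nat_lit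
  16) (node (nat_lit 4) (nat_lit 0) (nat_lit 17) (node (nat_lit 7) (nat_lit 0) (nat_lit 18) (node
  (nat_lit 5) (nat_lit 0) (nat_lit 19) (node (nat_lit 7) (nat_lit 52743) (nat_lit 20) (node
  (nat_lit 4) (nat_lit 53077) (nat_lit 21) (node (nat_lit 5) (nat_lit 52486) (nat_lit 22) nil
  (node (nat_lit 7) (nat_lit 53170) (nat_lit 22) nil nil)) nil) (node (nat_lit 0) (nat_lit 53319)
  (nat_lit 20) nil nil)) (node (nat_lit 4) (nat_lit 52203) (nat_lit 19) (node (nat_lit 5) (nat_lit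
  52570) (nat_lit 20) (node (nat_lit 4) (nat_lit 52857) (nat_lit 21) (node (nat_lit 7) (nat_lit
  52982) (nat_lit 22) (node (nat_lit 5) (nat_lit 53130) (nat_lit 23) (node (nat_lit 4) (nat_lit
  52747) (nat_lit 24) (node (nat_lit 5) (nat_lit 51225) (nat_lit 25) (node (nat_lit 7) (nat_lit
  48933) (nat_lit 26) (node (nat_lit 4) (nat_lit 44588) (nat_lit 27) (node (nat_lit 5) (nat_lit
  39672) (nat_lit 28) (node (nat_lit 4) (nat_lit 30285) (nat_lit 29) (node (nat_lit 7) (nat_lit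
  28317) (nat_lit 30) nil nil) nil) nil) nil) nil) nil) nil) nil) nil) nil) nil) (node (nat_lit 0)
  (nat_lit 53022) (nat_lit 19) nil nil))) (node (nat_lit 5) (nat_lit 51544) (nat_lit 18) (node
  (nat_lit 7) (nat_lit 51997) (nat_lit 19) (node (nat_lit 4) (nat_lit 52268) (nat_lit 20) nil nil)
  nil) (node (nat_lit 0) (nat_lit 53059) (nat_lit 18) nil nil))) (node (nat_lit 0) (nat_lit 52831)
  (nat_lit 17) nil nil)) (node (nat_lit 4) (nat_lit 0) (nat_lit 16) (node (nat_lit 7) (nat_lit 0)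
  (nat_lit 17) (node (nat_lit 5) (nat_lit 51700) (nat_lit 18) (node (nat_lit 4) (nat_lit 52268)
  (nat_lit 19) (node (nat_lit 7) (nat_lit 52636) (nat_lit 20) (node (nat_lit 4) (nat_lit 52922)
  (nat_lit 21) nil nil) (node (nat_lit 5) (nat_lit 52317) (nat_lit 20) nil nil)) (node (nat_lit 7)
  (nat_lit 52331) (nat_lit 19) (node (nat_lit 4) (nat_lit 52668) (nat_lit 20) (node (nat_lit 5)
  (nat_lit 51836) (nat_lit 21) nil nil) nil) nil)) (node (nat_lit 0) (nat_lit 51765) (nat_lit 18)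
  nil nil)) (node (nat_lit 0) (nat_lit 52061) (nat_lit 17) nil nil)) (node (nat_lit 0) (nat_lit
  52087) (nat_lit 16) nil nil))) (node (nat_lit 0) (nat_lit 51635) (nat_lit 15) nil nil)) (node
  (nat_lit 0) (nat_lit 51060) (nat_lit 14) (node (nat_lit 7) (nat_lit 51060) (nat_lit 15) nil
  (node (nat_lit 4) (nat_lit 51060) (nat_lit 15) nil nil)) nil)) (node (nat_lit 5) (nat_lit 0)
  (nat_lit 13) (node (nat_lit 7) (nat_lit 0) (nat_lit 14) (node (nat_lit 4) (nat_lit 0) (nat_lit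
  15) (node (nat_lit 5) (nat_lit 0) (nat_lit 16) (node (nat_lit 7) (nat_lit 0) (nat_lit 17) (node
  (nat_lit 5) (nat_lit 51628) (nat_lit 18) (node (nat_lit 4) (nat_lit 52249) (nat_lit 19) (node
  (nat_lit 7) (nat_lit 52456) (nat_lit 20) (node (nat_lit 5) (nat_lit 52370) (nat_lit 21) nil
  (node (nat_lit 4) (nat_lit 51983) (nat_lit 21) nil nil)) (node (nat_lit 5) (nat_lit 52354)
  (nat_lit 20) (node (nat_lit 7) (nat_lit 52567) (nat_lit 21) (node (nat_lit 4) (nat_lit 52207)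
  (nat_lit 22) nil nil) nil) nil)) nil) (node (nat_lit 0) (nat_lit 51714) (nat_lit 18) nil nil))
  (node (nat_lit 4) (nat_lit 0) (nat_lit 17) (node (nat_lit 0) (nat_lit 51002) (nat_lit 18) nil
  nil) (node (nat_lit 0) (nat_lit 52002) (nat_lit 17) nil nil))) (node (nat_lit 7) (nat_lit 0)
  (nat_lit 16) (node (nat_lit 5) (nat_lit 0) (nat_lit 17) (node (nat_lit 4) (nat_lit 51646)
  (nat_lit 18) (node (nat_lit 5) (nat_lit 52215) (nat_lit 19) (node (nat_lit 7) (nat_lit 52569)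
  (nat_lit 20) (node (nat_lit 4) (nat_lit 52780) (nat_lit 21) (node (nat_lit 5) (nat_lit 52111)
  (nat_lit 22) nil nil) nil) nil) (node (nat_lit 7) (nat_lit 51544) (nat_lit 19) (node (nat_lit 4)
  (nat_lit 50934) (nat_lit 20) nil nil) nil)) (node (nat_lit 0) (nat_lit 51732) (nat_lit 18) nil
  nil)) (node (nat_lit 0) (nat_lit 52029) (nat_lit 17) nil nil)) (node (nat_lit 0) (nat_lit 52307)
  (nat_lit 16) nil nil))) (node (nat_lit 0) (nat_lit 51857) (nat_lit 15) (node (nat_lit 5)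
  (nat_lit 51857) (nat_lit 16) nil (node (nat_lit 7) (nat_lit 51857) (nat_lit 16) nil (node
  (nat_lit 4) (nat_lit 51857) (nat_lit 16) nil nil))) nil)) (node (nat_lit 0) (nat_lit 51115)
  (nat_lit 14) (node (nat_lit 4) (nat_lit 51115) (nat_lit 15) nil (node (nat_lit 5) (nat_lit
  51115) (nat_lit 15) nil (node (nat_lit 7) (nat_lit 51115) (nat_lit 15) nil nil))) (node (nat_lit
  4) (nat_lit 31898) (nat_lit 14) nil nil))) (node (nat_lit 0) (nat_lit 50180) (nat_lit 13) (node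
  (nat_lit 5) (nat_lit 50180) (nat_lit 14) (node (nat_lit 4) (nat_lit 50180) (nat_lit 15) nil
  (node (nat_lit 7) (nat_lit 50180) (nat_lit 15) nil nil)) (node (nat_lit 4) (nat_lit 50180)
  (nat_lit 14) (node (nat_lit 7) (nat_lit 50180) (nat_lit 15) nil (node (nat_lit 5) (nat_lit
  50180) (nat_lit 15) nil nil)) (node (nat_lit 7) (nat_lit 50180) (nat_lit 14) (node (nat_lit 4)
  (nat_lit 50180) (nat_lit 15) nil (node (nat_lit 5) (nat_lit 50180) (nat_lit 15) nil nil)) nil)))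
  nil))) (node (nat_lit 0) (nat_lit 48871) (nat_lit 12) (node (nat_lit 5) (nat_lit 48886) (nat_lit
  13) (node (nat_lit 4) (nat_lit 49097) (nat_lit 14) (node (nat_lit 7) (nat_lit 49339) (nat_lit
  15) (node (nat_lit 5) (nat_lit 49457) (nat_lit 16) nil (node (nat_lit 4) (nat_lit 49339)
  (nat_lit 16) nil nil)) (node (nat_lit 5) (nat_lit 49194) (nat_lit 15) (node (nat_lit 7) (nat_lit
  49199) (nat_lit 16) (node (nat_lit 4) (nat_lit 49199) (nat_lit 17) nil nil) nil) nil)) (node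
  (nat_lit 15) (nat_lit 49328) (nat_lit 14) nil (node (nat_lit 7) (nat_lit 48886) (nat_lit 14)
  (node (nat_lit 4) (nat_lit 48886) (nat_lit 15) nil (node (nat_lit 5) (nat_lit 48886) (nat_lit
  15) nil nil)) nil))) (node (nat_lit 4) (nat_lit 48888) (nat_lit 13) (node (nat_lit 5) (nat_lit
  49129) (nat_lit 14) (node (nat_lit 4) (nat_lit 49129) (nat_lit 15) nil (node (nat_lit 7)
  (nat_lit 49129) (nat_lit 15) nil nil)) (node (nat_lit 7) (nat_lit 49048) (nat_lit 14) (node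
  (nat_lit 5) (nat_lit 49166) (nat_lit 15) (node (nat_lit 4) (nat_lit 49166) (nat_lit 16) nil nil)
  (node (nat_lit 4) (nat_lit 49048) (nat_lit 15) nil nil)) nil)) (node (nat_lit 7) (nat_lit 48888)
  (nat_lit 13) (node (nat_lit 4) (nat_lit 48888) (nat_lit 14) (node (nat_lit 5) (nat_lit 48888)
  (nat_lit 15) nil (node (nat_lit 7) (nat_lit 48888) (nat_lit 15) nil nil)) (node (nat_lit 5)
  (nat_lit 48888) (nat_lit 14) (node (nat_lit 4) (nat_lit 48888) (nat_lit 15) nil (node (nat_lit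
  7) (nat_lit 48888) (nat_lit 15) nil nil)) nil)) (node (nat_lit 0) (nat_lit 49120) (nat_lit 13)
  nil nil)))) nil)) (node (nat_lit 0) (nat_lit 0) (nat_lit 11) (node (nat_lit 5) (nat_lit 51914)
  (nat_lit 12) (node (nat_lit 7) (nat_lit 52530) (nat_lit 13) (node (nat_lit 4) (nat_lit 53283)
  (nat_lit 14) (node (nat_lit 5) (nat_lit 53635) (nat_lit 15) (node (nat_lit 4) (nat_lit 54066)
  (nat_lit 16) nil nil) (node (nat_lit 7) (nat_lit 53472) (nat_lit 15) (node (nat_lit 5) (nat_lit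
  53519) (nat_lit 16) nil nil) nil)) (node (nat_lit 5) (nat_lit 52682) (nat_lit 14) (node (nat_lit
  4) (nat_lit 52682) (nat_lit 15) (node (nat_lit 7) (nat_lit 52682) (nat_lit 16) nil nil) nil)
  nil)) (node (nat_lit 4) (nat_lit 52411) (nat_lit 13) (node (nat_lit 7) (nat_lit 53207) (nat_lit
  14) (node (nat_lit 5) (nat_lit 53510) (nat_lit 15) (node (nat_lit 4) (nat_lit 53510) (nat_lit
  16) nil (node (nat_lit 7) (nat_lit 53510) (nat_lit 16) nil nil)) (node (nat_lit 4) (nat_lit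
  53207) (nat_lit 15) nil nil)) (node (nat_lit 5) (nat_lit 52558) (nat_lit 14) (node (nat_lit 7)
  (nat_lit 52558) (nat_lit 15) nil nil) (node (nat_lit 14) (nat_lit 53171) (nat_lit 14) nil nil)))
  (node (nat_lit 0) (nat_lit 53844) (nat_lit 13) nil nil))) (node (nat_lit 4) (nat_lit 52121)
  (nat_lit 12) (node (nat_lit 5) (nat_lit 52727) (nat_lit 13) (node (nat_lit 4) (nat_lit 53140)
  (nat_lit 14) (node (nat_lit 7) (nat_lit 53669) (nat_lit 15) (node (nat_lit 5) (nat_lit 53669)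
  (nat_lit 16) nil (node (nat_lit 4) (nat_lit 53669) (nat_lit 16) nil nil)) nil) (node (nat_lit 7)
  (nat_lit 52639) (nat_lit 14) (node (nat_lit 5) (nat_lit 52639) (nat_lit 15) nil (node (nat_lit
  4) (nat_lit 52639) (nat_lit 15) nil nil)) nil)) (node (nat_lit 7) (nat_lit 52557) (nat_lit 13)
  (node (nat_lit 4) (nat_lit 52557) (nat_lit 14) (node (nat_lit 5) (nat_lit 52557) (nat_lit 15)
  nil nil) (node (nat_lit 5) (nat_lit 52557) (nat_lit 14) (node (nat_lit 7) (nat_lit 52557)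
  (nat_lit 15) nil (node (nat_lit 4) (nat_lit 52557) (nat_lit 15) nil nil)) nil)) (node (nat_lit
  14) (nat_lit 53453) (nat_lit 13) nil nil))) (node (nat_lit 7) (nat_lit 52143) (nat_lit 12) (node
  (nat_lit 4) (nat_lit 52546) (nat_lit 13) (node (nat_lit 5) (nat_lit 52432) (nat_lit 14) (node
  (nat_lit 4) (nat_lit 52432) (nat_lit 15) (node (nat_lit 7) (nat_lit 52432) (nat_lit 16) nil nil)
  (node (nat_lit 7) (nat_lit 52620) (nat_lit 15) (node (nat_lit 4) (nat_lit 52620) (nat_lit 16)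
  nil nil) nil)) (node (nat_lit 7) (nat_lit 52734) (nat_lit 14) (node (nat_lit 5) (nat_lit 52734)
  (nat_lit 15) (node (nat_lit 4) (nat_lit 52734) (nat_lit 16) nil nil) nil) nil)) (node (nat_lit
  5) (nat_lit 52405) (nat_lit 13) (node (nat_lit 7) (nat_lit 52557) (nat_lit 14) (node (nat_lit 4)
  (nat_lit 52454) (nat_lit 15) (node (nat_lit 5) (nat_lit 52454) (nat_lit 16) nil (node (nat_lit
  7) (nat_lit 52454) (nat_lit 16) nil nil)) nil) (node (nat_lit 4) (nat_lit 52405) (nat_lit 14)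
  (node (nat_lit 5) (nat_lit 52405) (nat_lit 15) nil nil) nil)) (node (nat_lit 14) (nat_lit 53476)
  (nat_lit 13) nil nil))) (node (nat_lit 0) (nat_lit 53439) (nat_lit 12) nil nil)))) nil)) (node
  (nat_lit 0) (nat_lit 0) (nat_lit 10) (node (nat_lit 5) (nat_lit 62545) (nat_lit 11) (node
  (nat_lit 4) (nat_lit 62848) (nat_lit 12) (node (nat_lit 7) (nat_lit 62848) (nat_lit 13) (node
  (nat_lit 4) (nat_lit 62848) (nat_lit 14) nil (node (nat_lit 5) (nat_lit 62848) (nat_lit 14) nil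
  nil)) (node (nat_lit 5) (nat_lit 63032) (nat_lit 13) (node (nat_lit 7) (nat_lit 63462) (nat_lit
  14) (node (nat_lit 4) (nat_lit 64013) (nat_lit 15) nil (node (nat_lit 5) (nat_lit 63514)
  (nat_lit 15) nil nil)) nil) nil)) (node (nat_lit 7) (nat_lit 62936) (nat_lit 12) (node (nat_lit
  4) (nat_lit 63121) (nat_lit 13) (node (nat_lit 5) (nat_lit 63799) (nat_lit 14) (node (nat_lit 4)
  (nat_lit 63799) (nat_lit 15) nil nil) (node (nat_lit 7) (nat_lit 63121) (nat_lit 14) (node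
  (nat_lit 5) (nat_lit 63121) (nat_lit 15) nil nil) nil)) (node (nat_lit 5) (nat_lit 62939)
  (nat_lit 13) (node (nat_lit 4) (nat_lit 62939) (nat_lit 14) nil nil) nil)) (node (nat_lit 13)
  (nat_lit 64252) (nat_lit 12) nil nil))) (node (nat_lit 4) (nat_lit 62660) (nat_lit 11) (node
  (nat_lit 7) (nat_lit 63228) (nat_lit 12) (node (nat_lit 5) (nat_lit 63228) (nat_lit 13) (node
  (nat_lit 7) (nat_lit 63228) (nat_lit 14) nil (node (nat_lit 4) (nat_lit 63228) (nat_lit 14) nil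
  nil)) (node (nat_lit 4) (nat_lit 63228) (nat_lit 13) (node (nat_lit 5) (nat_lit 63228) (nat_lit
  14) nil nil) nil)) (node (nat_lit 5) (nat_lit 62952) (nat_lit 12) (node (nat_lit 4) (nat_lit
  63482) (nat_lit 13) (node (nat_lit 7) (nat_lit 63482) (nat_lit 14) nil nil) (node (nat_lit 7)
  (nat_lit 62849) (nat_lit 13) (node (nat_lit 4) (nat_lit 62849) (nat_lit 14) nil (node (nat_lit
  5) (nat_lit 62849) (nat_lit 14) (node (nat_lit 4) (nat_lit 62849) (nat_lit 15) nil nil) nil))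
  nil)) nil)) (node (nat_lit 7) (nat_lit 62660) (nat_lit 11) (node (nat_lit 4) (nat_lit 63149)
  (nat_lit 12) (node (nat_lit 5) (nat_lit 62992) (nat_lit 13) (node (nat_lit 4) (nat_lit 62992)
  (nat_lit 14) (node (nat_lit 7) (nat_lit 62992) (nat_lit 15) nil nil) (node (nat_lit 7) (nat_lit
  62992) (nat_lit 14) nil nil)) (node (nat_lit 7) (nat_lit 63386) (nat_lit 13) (node (nat_lit 5)
  (nat_lit 63612) (nat_lit 14) (node (nat_lit 4) (nat_lit 63573) (nat_lit 15) nil (node (nat_lit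
  7) (nat_lit 64163) (nat_lit 15) nil nil)) nil) nil)) (node (nat_lit 5) (nat_lit 63273) (nat_lit
  12) (node (nat_lit 4) (nat_lit 63273) (nat_lit 13) (node (nat_lit 7) (nat_lit 63273) (nat_lit
  14) nil (node (nat_lit 5) (nat_lit 63273) (nat_lit 14) nil nil)) (node (nat_lit 7) (nat_lit
  63275) (nat_lit 13) (node (nat_lit 4) (nat_lit 63275) (nat_lit 14) nil nil) nil)) (node (nat_lit
  13) (nat_lit 63385) (nat_lit 12) nil nil))) (node (nat_lit 0) (nat_lit 63862) (nat_lit 11) nil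
  nil)))) nil)))

noncomputable def t306 : Tr :=
  (node (nat_lit 7) (nat_lit 0) (nat_lit 6) (node (nat_lit 4) (nat_lit 0) (nat_lit 7) (node
  (nat_lit 5) (nat_lit 0) (nat_lit 8) (node (nat_lit 4) (nat_lit 0) (nat_lit 9) (node (nat_lit 7)
  (nat_lit 0) (nat_lit 10) (node (nat_lit 4) (nat_lit 0) (nat_lit 11) (node (nat_lit 5) (nat_lit
  0) (nat_lit 12) (node (nat_lit 7) (nat_lit 0) (nat_lit 13) (node (nat_lit 5) (nat_lit 0)
  (nat_lit 14) (node (nat_lit 4) (nat_lit 0) (nat_lit 15) (node (nat_lit 7) (nat_lit 0) (nat_lit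
  16) (node (nat_lit 5) (nat_lit 34675) (nat_lit 17) (node (nat_lit 7) (nat_lit 35040) (nat_lit
  18) (node (nat_lit 4) (nat_lit 34284) (nat_lit 19) nil nil) nil) (node (nat_lit 4) (nat_lit
  34675) (nat_lit 17) (node (nat_lit 5) (nat_lit 35132) (nat_lit 18) (node (nat_lit 4) (nat_lit
  35488) (nat_lit 19) (node (nat_lit 7) (nat_lit 34655) (nat_lit 20) (node (nat_lit 5) (nat_lit
  33288) (nat_lit 21) (node (nat_lit 7) (nat_lit 31097) (nat_lit 22) (node (nat_lit 4) (nat_lit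
  26882) (nat_lit 23) (node (nat_lit 5) (nat_lit 22065) (nat_lit 24) nil nil) nil) nil) nil) nil)
  nil) nil) (node (nat_lit 0) (nat_lit 35211) (nat_lit 17) nil nil))) (node (nat_lit 5) (nat_lit
  34048) (nat_lit 16) (node (nat_lit 7) (nat_lit 34515) (nat_lit 17) (node (nat_lit 4) (nat_lit
  34879) (nat_lit 18) (node (nat_lit 7) (nat_lit 35073) (nat_lit 19) nil (node (nat_lit 5)
  (nat_lit 34989) (nat_lit 19) (node (nat_lit 4) (nat_lit 35124) (nat_lit 20) (node (nat_lit 7)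
  (nat_lit 35267) (nat_lit 21) (node (nat_lit 5) (nat_lit 35403) (nat_lit 22) (node (nat_lit 7)
  (nat_lit 35508) (nat_lit 23) (node (nat_lit 4) (nat_lit 35590) (nat_lit 24) (node (nat_lit 5)
  (nat_lit 35614) (nat_lit 25) (node (nat_lit 4) (nat_lit 35645) (nat_lit 26) nil nil) nil) nil)
  nil) nil) nil) nil) nil)) nil) nil) (node (nat_lit 0) (nat_lit 34777) (nat_lit 16) nil nil)))
  (node (nat_lit 0) (nat_lit 34067) (nat_lit 15) nil nil)) (node (nat_lit 4) (nat_lit 0) (nat_lit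
  14) (node (nat_lit 7) (nat_lit 32944) (nat_lit 15) (node (nat_lit 5) (nat_lit 33311) (nat_lit
  16) (node (nat_lit 4) (nat_lit 33045) (nat_lit 17) nil nil) nil) (node (nat_lit 0) (nat_lit
  34050) (nat_lit 15) nil nil)) (node (nat_lit 0) (nat_lit 34135) (nat_lit 14) nil nil))) (node
  (nat_lit 0) (nat_lit 34132) (nat_lit 13) nil nil)) (node (nat_lit 0) (nat_lit 33255) (nat_lit
  12) nil nil)) (node (nat_lit 0) (nat_lit 33041) (nat_lit 11) (node (nat_lit 7) (nat_lit 33041)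
  (nat_lit 12) nil (node (nat_lit 4) (nat_lit 33041) (nat_lit 12) nil (node (nat_lit 5) (nat_lit
  33041) (nat_lit 12) nil nil))) nil)) (node (nat_lit 0) (nat_lit 58583) (nat_lit 10) (node
  (nat_lit 7) (nat_lit 58583) (nat_lit 11) nil nil) nil)) (node (nat_lit 7) (nat_lit 0) (nat_lit
  9) (node (nat_lit 5) (nat_lit 0) (nat_lit 10) (node (nat_lit 4) (nat_lit 0) (nat_lit 11) (node
  (nat_lit 7) (nat_lit 0) (nat_lit 12) (node (nat_lit 4) (nat_lit 0) (nat_lit 13) (node (nat_lit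
  5) (nat_lit 0) (nat_lit 14) (node (nat_lit 7) (nat_lit 58129) (nat_lit 15) (node (nat_lit 4)
  (nat_lit 58966) (nat_lit 16) (node (nat_lit 7) (nat_lit 59284) (nat_lit 17) nil nil) nil) (node
  (nat_lit 4) (nat_lit 50227) (nat_lit 15) (node (nat_lit 7) (nat_lit 48096) (nat_lit 16) (node
  (nat_lit 5) (nat_lit 42667) (nat_lit 17) (node (nat_lit 4) (nat_lit 43353) (nat_lit 18) (node
  (nat_lit 5) (nat_lit 43411) (nat_lit 19) (node (nat_lit 7) (nat_lit 43178) (nat_lit 20) nil nil)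
  nil) (node (nat_lit 7) (nat_lit 38195) (nat_lit 18) (node (nat_lit 4) (nat_lit 38785) (nat_lit
  19) (node (nat_lit 5) (nat_lit 27129) (nat_lit 20) (node (nat_lit 7) (nat_lit 27316) (nat_lit
  21) (node (nat_lit 5) (nat_lit 27462) (nat_lit 22) nil nil) nil) nil) nil) nil)) nil) nil) (node
  (nat_lit 0) (nat_lit 59042) (nat_lit 15) nil nil))) (node (nat_lit 0) (nat_lit 60674) (nat_lit
  14) nil nil)) (node (nat_lit 5) (nat_lit 0) (nat_lit 13) (node (nat_lit 7) (nat_lit 58363)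
  (nat_lit 14) (node (nat_lit 4) (nat_lit 59624) (nat_lit 15) (node (nat_lit 5) (nat_lit 60224)
  (nat_lit 16) (node (nat_lit 4) (nat_lit 60790) (nat_lit 17) (node (nat_lit 7) (nat_lit 61329)
  (nat_lit 18) (node (nat_lit 5) (nat_lit 61670) (nat_lit 19) (node (nat_lit 7) (nat_lit 62035)
  (nat_lit 20) nil nil) nil) nil) nil) nil) nil) (node (nat_lit 0) (nat_lit 59108) (nat_lit 14)
  nil nil)) (node (nat_lit 0) (nat_lit 59978) (nat_lit 13) nil nil))) (node (nat_lit 5) (nat_lit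
  0) (nat_lit 12) (node (nat_lit 7) (nat_lit 0) (nat_lit 13) (node (nat_lit 4) (nat_lit 0)
  (nat_lit 14) (node (nat_lit 7) (nat_lit 0) (nat_lit 15) (node (nat_lit 5) (nat_lit 61943)
  (nat_lit 16) (node (nat_lit 4) (nat_lit 62270) (nat_lit 17) (node (nat_lit 7) (nat_lit 62941)
  (nat_lit 18) (node (nat_lit 4) (nat_lit 63166) (nat_lit 19) (node (nat_lit 5) (nat_lit 63375)
  (nat_lit 20) (node (nat_lit 4) (nat_lit 63578) (nat_lit 21) (node (nat_lit 7) (nat_lit 63159)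
  (nat_lit 22) (node (nat_lit 5) (nat_lit 62628) (nat_lit 23) (node (nat_lit 7) (nat_lit 61762)
  (nat_lit 24) (node (nat_lit 4) (nat_lit 60391) (nat_lit 25) (node (nat_lit 5) (nat_lit 57990)
  (nat_lit 26) (node (nat_lit 7) (nat_lit 53790) (nat_lit 27) (node (nat_lit 5) (nat_lit 53846)
  (nat_lit 28) (node (nat_lit 4) (nat_lit 53859) (nat_lit 29) (node (nat_lit 5) (nat_lit 38652)
  (nat_lit 30) (node (nat_lit 7) (nat_lit 33397) (nat_lit 31) (node (nat_lit 4) (nat_lit 28091)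
  (nat_lit 32) nil nil) nil) nil) nil) nil) nil) nil) nil) nil) nil) nil) nil) nil) nil) nil) nil)
  (node (nat_lit 0) (nat_lit 62391) (nat_lit 16) nil nil)) (node (nat_lit 5) (nat_lit 60276)
  (nat_lit 15) (node (nat_lit 4) (nat_lit 55613) (nat_lit 16) (node (nat_lit 7) (nat_lit 55800)
  (nat_lit 17) (node (nat_lit 5) (nat_lit 50937) (nat_lit 18) (node (nat_lit 7) (nat_lit 51284)
  (nat_lit 19) (node (nat_lit 4) (nat_lit 51701) (nat_lit 20) (node (nat_lit 5) (nat_lit 33646)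
  (nat_lit 21) (node (nat_lit 7) (nat_lit 33781) (nat_lit 22) (node (nat_lit 5) (nat_lit 33821)
  (nat_lit 23) (node (nat_lit 4) (nat_lit 33872) (nat_lit 24) nil nil) nil) nil) nil) nil) nil)
  nil) nil) nil) (node (nat_lit 0) (nat_lit 61163) (nat_lit 15) nil nil))) (node (nat_lit 0)
  (nat_lit 61763) (nat_lit 14) nil nil)) (node (nat_lit 0) (nat_lit 60187) (nat_lit 13) nil nil))
  (node (nat_lit 0) (nat_lit 60502) (nat_lit 12) nil nil))) (node (nat_lit 0) (nat_lit 60586)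
  (nat_lit 11) nil nil)) (node (nat_lit 0) (nat_lit 58535) (nat_lit 10) (node (nat_lit 5) (nat_lit
  58535) (nat_lit 11) nil (node (nat_lit 4) (nat_lit 58535) (nat_lit 11) nil (node (nat_lit 7)
  (nat_lit 58535) (nat_lit 11) nil nil))) nil)) (node (nat_lit 0) (nat_lit 55916) (nat_lit 9)
  (node (nat_lit 5) (nat_lit 55916) (nat_lit 10) nil (node (nat_lit 4) (nat_lit 55916) (nat_lit
  10) nil (node (nat_lit 7) (nat_lit 55916) (nat_lit 10) nil nil))) nil))) (node (nat_lit 7)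
  (nat_lit 0) (nat_lit 8) (node (nat_lit 5) (nat_lit 0) (nat_lit 9) (node (nat_lit 4) (nat_lit 0)
  (nat_lit 10) (node (nat_lit 5) (nat_lit 0) (nat_lit 11) (node (nat_lit 7) (nat_lit 0) (nat_lit
  12) (node (nat_lit 4) (nat_lit 0) (nat_lit 13) (node (nat_lit 5) (nat_lit 0) (nat_lit 14) (node
  (nat_lit 4) (nat_lit 68234) (nat_lit 15) (node (nat_lit 7) (nat_lit 64083) (nat_lit 16) (node
  (nat_lit 4) (nat_lit 64923) (nat_lit 17) (node (nat_lit 5) (nat_lit 63220) (nat_lit 18) nil nil)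
  (node (nat_lit 5) (nat_lit 0) (nat_lit 17) (node (nat_lit 4) (nat_lit 51622) (nat_lit 18) (node
  (nat_lit 5) (nat_lit 52202) (nat_lit 19) (node (nat_lit 7) (nat_lit 52662) (nat_lit 20) (node
  (nat_lit 5) (nat_lit 52780) (nat_lit 21) nil (node (nat_lit 4) (nat_lit 52189) (nat_lit 21) nil
  nil)) nil) nil) (node (nat_lit 7) (nat_lit 44434) (nat_lit 18) (node (nat_lit 4) (nat_lit 44476)
  (nat_lit 19) (node (nat_lit 7) (nat_lit 35295) (nat_lit 20) (node (nat_lit 5) (nat_lit 35362)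
  (nat_lit 21) (node (nat_lit 4) (nat_lit 35445) (nat_lit 22) nil nil) nil) nil) nil) (node
  (nat_lit 0) (nat_lit 52463) (nat_lit 18) nil nil))) nil)) nil) (node (nat_lit 0) (nat_lit 68234)
  (nat_lit 15) nil nil)) (node (nat_lit 7) (nat_lit 67828) (nat_lit 14) (node (nat_lit 5) (nat_lit
  68234) (nat_lit 15) (node (nat_lit 7) (nat_lit 68234) (nat_lit 16) (node (nat_lit 4) (nat_lit
  68234) (nat_lit 17) (node (nat_lit 5) (nat_lit 68234) (nat_lit 18) (node (nat_lit 4) (nat_lit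
  68234) (nat_lit 19) (node (nat_lit 7) (nat_lit 68234) (nat_lit 20) (node (nat_lit 5) (nat_lit
  68234) (nat_lit 21) (node (nat_lit 7) (nat_lit 65379) (nat_lit 22) (node (nat_lit 4) (nat_lit
  62354) (nat_lit 23) (node (nat_lit 7) (nat_lit 62489) (nat_lit 24) (node (nat_lit 5) (nat_lit
  62526) (nat_lit 25) (node (nat_lit 4) (nat_lit 62581) (nat_lit 26) (node (nat_lit 5) (nat_lit
  62636) (nat_lit 27) (node (nat_lit 7) (nat_lit 62681) (nat_lit 28) nil nil) nil) nil) nil) nil)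
  nil) nil) nil) nil) nil) nil) nil) nil) nil) (node (nat_lit 0) (nat_lit 68234) (nat_lit 14) nil
  nil))) (node (nat_lit 5) (nat_lit 0) (nat_lit 13) (node (nat_lit 4) (nat_lit 68234) (nat_lit 14)
  (node (nat_lit 7) (nat_lit 68234) (nat_lit 15) (node (nat_lit 4) (nat_lit 68234) (nat_lit 16)
  (node (nat_lit 5) (nat_lit 68234) (nat_lit 17) (node (nat_lit 4) (nat_lit 68234) (nat_lit 18)
  (node (nat_lit 7) (nat_lit 68234) (nat_lit 19) (node (nat_lit 5) (nat_lit 68234) (nat_lit 20)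
  (node (nat_lit 7) (nat_lit 63423) (nat_lit 21) (node (nat_lit 4) (nat_lit 58405) (nat_lit 22)
  (node (nat_lit 7) (nat_lit 48956) (nat_lit 23) (node (nat_lit 5) (nat_lit 49087) (nat_lit 24)
  (node (nat_lit 4) (nat_lit 49137) (nat_lit 25) (node (nat_lit 5) (nat_lit 38433) (nat_lit 26)
  (node (nat_lit 7) (nat_lit 38470) (nat_lit 27) nil nil) nil) nil) nil) nil) nil) nil) nil) nil)
  nil) nil) nil) nil) (node (nat_lit 0) (nat_lit 68234) (nat_lit 14) nil nil)) (node (nat_lit 0)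
  (nat_lit 68234) (nat_lit 13) nil nil))) (node (nat_lit 0) (nat_lit 68234) (nat_lit 12) nil nil))
  (node (nat_lit 7) (nat_lit 0) (nat_lit 11) (node (nat_lit 4) (nat_lit 0) (nat_lit 12) (node
  (nat_lit 5) (nat_lit 0) (nat_lit 13) (node (nat_lit 7) (nat_lit 64675) (nat_lit 14) (node
  (nat_lit 4) (nat_lit 65750) (nat_lit 15) (node (nat_lit 7) (nat_lit 66157) (nat_lit 16) nil nil)
  (node (nat_lit 5) (nat_lit 65434) (nat_lit 15) (node (nat_lit 4) (nat_lit 65450) (nat_lit 16)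
  (node (nat_lit 5) (nat_lit 65184) (nat_lit 17) nil (node (nat_lit 7) (nat_lit 64965) (nat_lit
  17) nil nil)) nil) nil)) (node (nat_lit 4) (nat_lit 0) (nat_lit 14) (node (nat_lit 7) (nat_lit
  59916) (nat_lit 15) (node (nat_lit 5) (nat_lit 61043) (nat_lit 16) (node (nat_lit 7) (nat_lit
  62151) (nat_lit 17) (node (nat_lit 4) (nat_lit 38024) (nat_lit 18) (node (nat_lit 5) (nat_lit
  36822) (nat_lit 19) nil (node (nat_lit 7) (nat_lit 38125) (nat_lit 19) (node (nat_lit 5)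
  (nat_lit 38310) (nat_lit 20) nil nil) nil)) nil) nil) nil) (node (nat_lit 0) (nat_lit 61650)
  (nat_lit 15) nil nil)) (node (nat_lit 0) (nat_lit 67302) (nat_lit 14) nil nil))) (node (nat_lit
  0) (nat_lit 66561) (nat_lit 13) nil nil)) (node (nat_lit 0) (nat_lit 68234) (nat_lit 12) nil
  nil)) (node (nat_lit 0) (nat_lit 66882) (nat_lit 11) nil nil))) (node (nat_lit 0) (nat_lit
  65301) (nat_lit 10) nil nil)) (node (nat_lit 0) (nat_lit 63341) (nat_lit 9) nil nil)) nil)) nil)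
  (node (nat_lit 4) (nat_lit 0) (nat_lit 6) (node (nat_lit 5) (nat_lit 0) (nat_lit 7) (node
  (nat_lit 7) (nat_lit 0) (nat_lit 8) (node (nat_lit 4) (nat_lit 0) (nat_lit 9) t305 (node
  (nat_lit 5) (nat_lit 0) (nat_lit 9) (node (nat_lit 4) (nat_lit 0) (nat_lit 10) (node (nat_lit 7)
  (nat_lit 0) (nat_lit 11) (node (nat_lit 4) (nat_lit 0) (nat_lit 12) (node (nat_lit 5) (nat_lit
  0) (nat_lit 13) (node (nat_lit 7) (nat_lit 0) (nat_lit 14) (node (nat_lit 4) (nat_lit 0)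
  (nat_lit 15) (node (nat_lit 7) (nat_lit 0) (nat_lit 16) (node (nat_lit 5) (nat_lit 65625)
  (nat_lit 17) (node (nat_lit 4) (nat_lit 65715) (nat_lit 18) nil (node (nat_lit 7) (nat_lit
  66338) (nat_lit 18) (node (nat_lit 4) (nat_lit 66606) (nat_lit 19) (node (nat_lit 5) (nat_lit
  66735) (nat_lit 20) (node (nat_lit 4) (nat_lit 66814) (nat_lit 21) (node (nat_lit 7) (nat_lit
  66756) (nat_lit 22) (node (nat_lit 5) (nat_lit 66019) (nat_lit 23) (node (nat_lit 4) (nat_lit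
  65413) (nat_lit 24) (node (nat_lit 5) (nat_lit 63702) (nat_lit 25) (node (nat_lit 7) (nat_lit
  61509) (nat_lit 26) (node (nat_lit 5) (nat_lit 57350) (nat_lit 27) (node (nat_lit 4) (nat_lit
  57396) (nat_lit 28) (node (nat_lit 7) (nat_lit 57437) (nat_lit 29) (node (nat_lit 4) (nat_lit
  57451) (nat_lit 30) (node (nat_lit 5) (nat_lit 57455) (nat_lit 31) (node (nat_lit 7) (nat_lit
  51712) (nat_lit 32) nil nil) nil) nil) nil) nil) nil) nil) nil) nil) nil) nil) nil) nil) nil)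
  nil)) (node (nat_lit 0) (nat_lit 66349) (nat_lit 17) nil nil)) (node (nat_lit 0) (nat_lit 67063)
  (nat_lit 16) nil nil)) (node (nat_lit 5) (nat_lit 0) (nat_lit 15) (node (nat_lit 4) (nat_lit
  65652) (nat_lit 16) (node (nat_lit 5) (nat_lit 66617) (nat_lit 17) (node (nat_lit 7) (nat_lit
  67296) (nat_lit 18) (node (nat_lit 4) (nat_lit 67486) (nat_lit 19) (node (nat_lit 5) (nat_lit
  67591) (nat_lit 20) (node (nat_lit 4) (nat_lit 67594) (nat_lit 21) (node (nat_lit 7) (nat_lit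
  67539) (nat_lit 22) (node (nat_lit 5) (nat_lit 66827) (nat_lit 23) (node (nat_lit 4) (nat_lit
  66218) (nat_lit 24) (node (nat_lit 5) (nat_lit 64501) (nat_lit 25) (node (nat_lit 7) (nat_lit
  62646) (nat_lit 26) (node (nat_lit 5) (nat_lit 62651) (nat_lit 27) (node (nat_lit 4) (nat_lit
  58302) (nat_lit 28) (node (nat_lit 7) (nat_lit 58342) (nat_lit 29) (node (nat_lit 4) (nat_lit
  47090) (nat_lit 30) (node (nat_lit 5) (nat_lit 47086) (nat_lit 31) nil nil) nil) nil) nil) nil)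
  nil) nil) nil) nil) nil) nil) nil) nil) nil) nil) (node (nat_lit 0) (nat_lit 65787) (nat_lit 16)
  nil nil)) (node (nat_lit 0) (nat_lit 66138) (nat_lit 15) nil nil))) (node (nat_lit 4) (nat_lit
  0) (nat_lit 14) (node (nat_lit 7) (nat_lit 0) (nat_lit 15) (node (nat_lit 5) (nat_lit 0)
  (nat_lit 16) (node (nat_lit 7) (nat_lit 0) (nat_lit 17) (node (nat_lit 4) (nat_lit 0) (nat_lit
  18) (node (nat_lit 7) (nat_lit 0) (nat_lit 19) (node (nat_lit 5) (nat_lit 49991) (nat_lit 20)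
  (node (nat_lit 4) (nat_lit 50401) (nat_lit 21) (node (nat_lit 5) (nat_lit 50689) (nat_lit 22)
  (node (nat_lit 7) (nat_lit 50888) (nat_lit 23) (node (nat_lit 4) (nat_lit 50677) (nat_lit 24)
  nil (node (nat_lit 5) (nat_lit 50943) (nat_lit 24) nil nil)) nil) (node (nat_lit 7) (nat_lit
  50366) (nat_lit 22) (node (nat_lit 4) (nat_lit 50093) (nat_lit 23) nil nil) nil)) nil) (node
  (nat_lit 0) (nat_lit 50484) (nat_lit 20) nil nil)) (node (nat_lit 5) (nat_lit 0) (nat_lit 19)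
  (node (nat_lit 7) (nat_lit 0) (nat_lit 20) (node (nat_lit 5) (nat_lit 50259) (nat_lit 21) (node
  (nat_lit 4) (nat_lit 50277) (nat_lit 22) (node (nat_lit 7) (nat_lit 50173) (nat_lit 23) nil
  (node (nat_lit 5) (nat_lit 50223) (nat_lit 23) nil nil)) nil) (node (nat_lit 0) (nat_lit 50919)
  (nat_lit 21) nil nil)) (node (nat_lit 4) (nat_lit 0) (nat_lit 20) (node (nat_lit 7) (nat_lit
  50630) (nat_lit 21) (node (nat_lit 4) (nat_lit 50934) (nat_lit 22) (node (nat_lit 5) (nat_lit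
  51094) (nat_lit 23) (node (nat_lit 7) (nat_lit 51150) (nat_lit 24) nil nil) nil) nil) (node
  (nat_lit 0) (nat_lit 50594) (nat_lit 21) nil nil)) (node (nat_lit 0) (nat_lit 50622) (nat_lit
  20) nil nil))) (node (nat_lit 0) (nat_lit 50659) (nat_lit 19) nil nil))) (node (nat_lit 0)
  (nat_lit 50584) (nat_lit 18) (node (nat_lit 5) (nat_lit 50584) (nat_lit 19) nil nil) nil)) (node
  (nat_lit 4) (nat_lit 0) (nat_lit 17) (node (nat_lit 5) (nat_lit 0) (nat_lit 18) (node (nat_lit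
  7) (nat_lit 38399) (nat_lit 19) (node (nat_lit 4) (nat_lit 38722) (nat_lit 20) (node (nat_lit 7)
  (nat_lit 38783) (nat_lit 21) nil (node (nat_lit 5) (nat_lit 39043) (nat_lit 21) (node (nat_lit
  4) (nat_lit 39243) (nat_lit 22) (node (nat_lit 7) (nat_lit 39412) (nat_lit 23) nil nil) nil)
  nil)) (node (nat_lit 5) (nat_lit 38640) (nat_lit 20) nil nil)) (node (nat_lit 0) (nat_lit 38570)
  (nat_lit 19) nil nil)) (node (nat_lit 0) (nat_lit 49346) (nat_lit 18) nil nil)) (node (nat_lit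
  0) (nat_lit 49706) (nat_lit 17) nil nil))) (node (nat_lit 0) (nat_lit 58723) (nat_lit 16) nil
  nil)) (node (nat_lit 0) (nat_lit 62601) (nat_lit 15) (node (nat_lit 5) (nat_lit 62601) (nat_lit
  16) nil nil) nil)) (node (nat_lit 0) (nat_lit 65850) (nat_lit 14) nil nil))) (node (nat_lit 0)
  (nat_lit 63680) (nat_lit 13) nil nil)) (node (nat_lit 5) (nat_lit 0) (nat_lit 12) (node (nat_lit
  7) (nat_lit 0) (nat_lit 13) (node (nat_lit 4) (nat_lit 0) (nat_lit 14) (node (nat_lit 5)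
  (nat_lit 68234) (nat_lit 15) (node (nat_lit 7) (nat_lit 68234) (nat_lit 16) nil (node (nat_lit
  4) (nat_lit 0) (nat_lit 16) (node (nat_lit 7) (nat_lit 65838) (nat_lit 17) (node (nat_lit 4)
  (nat_lit 66601) (nat_lit 18) (node (nat_lit 5) (nat_lit 67070) (nat_lit 19) (node (nat_lit 7)
  (nat_lit 67221) (nat_lit 20) nil nil) nil) (node (nat_lit 5) (nat_lit 66380) (nat_lit 18) (node
  (nat_lit 4) (nat_lit 66921) (nat_lit 19) (node (nat_lit 5) (nat_lit 67292) (nat_lit 20) (node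
  (nat_lit 7) (nat_lit 67605) (nat_lit 21) (node (nat_lit 5) (nat_lit 56806) (nat_lit 22) (node
  (nat_lit 4) (nat_lit 35836) (nat_lit 23) (node (nat_lit 7) (nat_lit 35906) (nat_lit 24) nil nil)
  nil) nil) nil) nil) nil) nil)) (node (nat_lit 0) (nat_lit 65879) (nat_lit 17) nil nil)) nil))
  (node (nat_lit 7) (nat_lit 0) (nat_lit 15) (node (nat_lit 5) (nat_lit 0) (nat_lit 16) (node
  (nat_lit 4) (nat_lit 68234) (nat_lit 17) (node (nat_lit 5) (nat_lit 68234) (nat_lit 18) nil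
  (node (nat_lit 7) (nat_lit 68234) (nat_lit 18) nil nil)) (node (nat_lit 0) (nat_lit 68234)
  (nat_lit 17) nil nil)) (node (nat_lit 0) (nat_lit 68234) (nat_lit 16) nil nil)) (node (nat_lit
  0) (nat_lit 68234) (nat_lit 15) nil nil))) (node (nat_lit 0) (nat_lit 68234) (nat_lit 14) nil
  nil)) (node (nat_lit 0) (nat_lit 68234) (nat_lit 13) (node (nat_lit 5) (nat_lit 68234) (nat_lit
  14) nil (node (nat_lit 7) (nat_lit 68234) (nat_lit 14) nil nil)) nil)) (node (nat_lit 0)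
  (nat_lit 68234) (nat_lit 12) (node (nat_lit 4) (nat_lit 68234) (nat_lit 13) nil (node (nat_lit
  5) (nat_lit 68234) (nat_lit 13) nil (node (nat_lit 7) (nat_lit 68234) (nat_lit 13) nil nil)))
  nil))) (node (nat_lit 0) (nat_lit 66539) (nat_lit 11) (node (nat_lit 5) (nat_lit 66539) (nat_lit
  12) nil (node (nat_lit 4) (nat_lit 66539) (nat_lit 12) nil (node (nat_lit 7) (nat_lit 66539)
  (nat_lit 12) nil nil))) nil)) (node (nat_lit 0) (nat_lit 63470) (nat_lit 10) (node (nat_lit 4)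
  (nat_lit 63470) (nat_lit 11) (node (nat_lit 5) (nat_lit 63470) (nat_lit 12) nil (node (nat_lit
  7) (nat_lit 63470) (nat_lit 12) nil nil)) (node (nat_lit 7) (nat_lit 63470) (nat_lit 11) (node
  (nat_lit 4) (nat_lit 63470) (nat_lit 12) nil (node (nat_lit 5) (nat_lit 63470) (nat_lit 12) nil
  nil)) (node (nat_lit 5) (nat_lit 63470) (nat_lit 11) (node (nat_lit 7) (nat_lit 63470) (nat_lit
  12) nil nil) nil))) nil)) (node (nat_lit 0) (nat_lit 0) (nat_lit 9) (node (nat_lit 4) (nat_lit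
  59932) (nat_lit 10) (node (nat_lit 5) (nat_lit 60108) (nat_lit 11) (node (nat_lit 7) (nat_lit
  59956) (nat_lit 12) (node (nat_lit 4) (nat_lit 59743) (nat_lit 13) (node (nat_lit 5) (nat_lit
  59743) (nat_lit 14) nil (node (nat_lit 7) (nat_lit 59743) (nat_lit 14) nil nil)) (node (nat_lit
  5) (nat_lit 59956) (nat_lit 13) (node (nat_lit 4) (nat_lit 59956) (nat_lit 14) nil nil) nil))
  (node (nat_lit 4) (nat_lit 61048) (nat_lit 12) (node (nat_lit 7) (nat_lit 61917) (nat_lit 13)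
  (node (nat_lit 5) (nat_lit 61917) (nat_lit 14) nil nil) nil) nil)) (node (nat_lit 7) (nat_lit
  61324) (nat_lit 11) (node (nat_lit 4) (nat_lit 62037) (nat_lit 12) (node (nat_lit 5) (nat_lit
  62588) (nat_lit 13) nil nil) (node (nat_lit 5) (nat_lit 62001) (nat_lit 12) (node (nat_lit 7)
  (nat_lit 62001) (nat_lit 13) (node (nat_lit 4) (nat_lit 62001) (nat_lit 14) nil nil) (node
  (nat_lit 4) (nat_lit 62001) (nat_lit 13) nil nil)) nil)) (node (nat_lit 12) (nat_lit 63667)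
  (nat_lit 11) nil nil))) (node (nat_lit 7) (nat_lit 59953) (nat_lit 10) (node (nat_lit 5)
  (nat_lit 61171) (nat_lit 11) (node (nat_lit 7) (nat_lit 61171) (nat_lit 12) (node (nat_lit 4)
  (nat_lit 61171) (nat_lit 13) nil nil) (node (nat_lit 4) (nat_lit 61848) (nat_lit 12) (node
  (nat_lit 7) (nat_lit 61848) (nat_lit 13) nil (node (nat_lit 5) (nat_lit 61848) (nat_lit 13) nil
  nil)) nil)) (node (nat_lit 4) (nat_lit 61132) (nat_lit 11) (node (nat_lit 5) (nat_lit 61324)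
  (nat_lit 12) (node (nat_lit 4) (nat_lit 61324) (nat_lit 13) nil (node (nat_lit 7) (nat_lit
  61324) (nat_lit 13) nil nil)) (node (nat_lit 7) (nat_lit 61188) (nat_lit 12) nil nil)) nil))
  (node (nat_lit 5) (nat_lit 59811) (nat_lit 10) (node (nat_lit 7) (nat_lit 61064) (nat_lit 11)
  (node (nat_lit 4) (nat_lit 61290) (nat_lit 12) (node (nat_lit 5) (nat_lit 61290) (nat_lit 13)
  (node (nat_lit 4) (nat_lit 61290) (nat_lit 14) nil nil) (node (nat_lit 7) (nat_lit 61290)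
  (nat_lit 13) (node (nat_lit 5) (nat_lit 61290) (nat_lit 14) nil nil) nil)) (node (nat_lit 5)
  (nat_lit 61801) (nat_lit 12) (node (nat_lit 4) (nat_lit 62170) (nat_lit 13) nil nil) nil)) (node
  (nat_lit 4) (nat_lit 60484) (nat_lit 11) (node (nat_lit 7) (nat_lit 60781) (nat_lit 12) (node
  (nat_lit 4) (nat_lit 60781) (nat_lit 13) (node (nat_lit 5) (nat_lit 60781) (nat_lit 14) nil nil)
  (node (nat_lit 5) (nat_lit 60781) (nat_lit 13) nil nil)) (node (nat_lit 5) (nat_lit 60519)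
  (nat_lit 12) nil nil)) (node (nat_lit 12) (nat_lit 61998) (nat_lit 11) nil nil))) (node (nat_lit
  0) (nat_lit 61668) (nat_lit 10) nil nil)))) nil))) nil) nil) nil))

noncomputable def t307 : Tr :=
  (node (nat_lit 5) (nat_lit 0) (nat_lit 8) (node (nat_lit 4) (nat_lit 0) (nat_lit 9) (node
  (nat_lit 7) (nat_lit 0) (nat_lit 10) (node (nat_lit 5) (nat_lit 0) (nat_lit 11) (node (nat_lit
  7) (nat_lit 0) (nat_lit 12) (node (nat_lit 4) (nat_lit 0) (nat_lit 13) (node (nat_lit 5)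
  (nat_lit 0) (nat_lit 14) (node (nat_lit 7) (nat_lit 47502) (nat_lit 15) (node (nat_lit 5)
  (nat_lit 0) (nat_lit 16) (node (nat_lit 4) (nat_lit 48617) (nat_lit 17) (node (nat_lit 5)
  (nat_lit 48418) (nat_lit 18) (node (nat_lit 7) (nat_lit 48559) (nat_lit 19) nil nil) (node
  (nat_lit 7) (nat_lit 48221) (nat_lit 18) nil nil)) (node (nat_lit 0) (nat_lit 49421) (nat_lit
  17) nil nil)) nil) (node (nat_lit 4) (nat_lit 0) (nat_lit 15) (node (nat_lit 7) (nat_lit 0)
  (nat_lit 16) (node (nat_lit 5) (nat_lit 38281) (nat_lit 17) (node (nat_lit 4) (nat_lit 38569)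
  (nat_lit 18) (node (nat_lit 5) (nat_lit 38535) (nat_lit 19) (node (nat_lit 7) (nat_lit 38303)
  (nat_lit 20) nil nil) nil) nil) (node (nat_lit 4) (nat_lit 38345) (nat_lit 17) (node (nat_lit 5)
  (nat_lit 38930) (nat_lit 18) (node (nat_lit 7) (nat_lit 39402) (nat_lit 19) (node (nat_lit 5)
  (nat_lit 28439) (nat_lit 20) (node (nat_lit 4) (nat_lit 28640) (nat_lit 21) nil nil) nil) nil)
  nil) (node (nat_lit 0) (nat_lit 38652) (nat_lit 17) nil nil))) (node (nat_lit 0) (nat_lit 39449)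
  (nat_lit 16) nil nil)) (node (nat_lit 0) (nat_lit 49210) (nat_lit 15) nil nil))) (node (nat_lit
  7) (nat_lit 0) (nat_lit 14) (node (nat_lit 5) (nat_lit 47525) (nat_lit 15) (node (nat_lit 4)
  (nat_lit 48299) (nat_lit 16) (node (nat_lit 5) (nat_lit 48617) (nat_lit 17) (node (nat_lit 7)
  (nat_lit 48866) (nat_lit 18) (node (nat_lit 4) (nat_lit 49059) (nat_lit 19) (node (nat_lit 5)
  (nat_lit 49210) (nat_lit 20) (node (nat_lit 4) (nat_lit 49328) (nat_lit 21) (node (nat_lit 7)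
  (nat_lit 49421) (nat_lit 22) (node (nat_lit 4) (nat_lit 49492) (nat_lit 23) (node (nat_lit 5)
  (nat_lit 49548) (nat_lit 24) (node (nat_lit 7) (nat_lit 49592) (nat_lit 25) (node (nat_lit 5)
  (nat_lit 49626) (nat_lit 26) (node (nat_lit 4) (nat_lit 47234) (nat_lit 27) (node (nat_lit 7)
  (nat_lit 41006) (nat_lit 28) (node (nat_lit 5) (nat_lit 36806) (nat_lit 29) (node (nat_lit 7)
  (nat_lit 28554) (nat_lit 30) (node (nat_lit 4) (nat_lit 21849) (nat_lit 31) nil nil) nil) nil)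
  nil) nil) nil) nil) nil) nil) nil) nil) nil) nil) nil) (node (nat_lit 7) (nat_lit 48617)
  (nat_lit 17) (node (nat_lit 4) (nat_lit 48866) (nat_lit 18) (node (nat_lit 5) (nat_lit 49059)
  (nat_lit 19) nil nil) nil) nil)) nil) (node (nat_lit 0) (nat_lit 49060) (nat_lit 15) nil nil))
  (node (nat_lit 0) (nat_lit 49059) (nat_lit 14) nil nil))) (node (nat_lit 0) (nat_lit 48866)
  (nat_lit 13) (node (nat_lit 5) (nat_lit 48866) (nat_lit 14) nil (node (nat_lit 7) (nat_lit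
  48866) (nat_lit 14) nil (node (nat_lit 4) (nat_lit 48866) (nat_lit 14) nil nil))) nil)) (node
  (nat_lit 0) (nat_lit 47824) (nat_lit 12) (node (nat_lit 7) (nat_lit 47824) (nat_lit 13) nil
  (node (nat_lit 5) (nat_lit 47824) (nat_lit 13) nil (node (nat_lit 4) (nat_lit 47824) (nat_lit
  13) nil nil))) nil)) (node (nat_lit 4) (nat_lit 0) (nat_lit 11) (node (nat_lit 5) (nat_lit 0)
  (nat_lit 12) (node (nat_lit 4) (nat_lit 0) (nat_lit 13) (node (nat_lit 7) (nat_lit 0) (nat_lit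
  14) (node (nat_lit 5) (nat_lit 0) (nat_lit 15) (node (nat_lit 7) (nat_lit 0) (nat_lit 16) (node
  (nat_lit 4) (nat_lit 0) (nat_lit 17) (node (nat_lit 5) (nat_lit 0) (nat_lit 18) (node (nat_lit
  7) (nat_lit 0) (nat_lit 19) (node (nat_lit 5) (nat_lit 49210) (nat_lit 20) nil (node (nat_lit 0)
  (nat_lit 49592) (nat_lit 20) nil nil)) (node (nat_lit 4) (nat_lit 48400) (nat_lit 19) (node
  (nat_lit 7) (nat_lit 47740) (nat_lit 20) (node (nat_lit 4) (nat_lit 46648) (nat_lit 21) (node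
  (nat_lit 5) (nat_lit 46274) (nat_lit 22) (node (nat_lit 7) (nat_lit 46461) (nat_lit 23) (node
  (nat_lit 5) (nat_lit 46575) (nat_lit 24) (node (nat_lit 4) (nat_lit 46684) (nat_lit 25) (node
  (nat_lit 7) (nat_lit 46766) (nat_lit 26) nil nil) nil) nil) nil) nil) nil) nil) (node (nat_lit
  0) (nat_lit 49548) (nat_lit 19) nil nil))) (node (nat_lit 7) (nat_lit 0) (nat_lit 18) (node
  (nat_lit 5) (nat_lit 49059) (nat_lit 19) (node (nat_lit 4) (nat_lit 49210) (nat_lit 20) (node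
  (nat_lit 5) (nat_lit 49328) (nat_lit 21) (node (nat_lit 7) (nat_lit 49421) (nat_lit 22) nil nil)
  (node (nat_lit 7) (nat_lit 49036) (nat_lit 21) nil nil)) nil) (node (nat_lit 0) (nat_lit 49548)
  (nat_lit 19) nil nil)) (node (nat_lit 0) (nat_lit 49492) (nat_lit 18) nil nil))) (node (nat_lit
  0) (nat_lit 49421) (nat_lit 17) nil nil)) (node (nat_lit 4) (nat_lit 0) (nat_lit 16) (node
  (nat_lit 5) (nat_lit 0) (nat_lit 17) (node (nat_lit 7) (nat_lit 48866) (nat_lit 18) (node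
  (nat_lit 4) (nat_lit 49059) (nat_lit 19) (node (nat_lit 7) (nat_lit 49210) (nat_lit 20) (node
  (nat_lit 5) (nat_lit 49124) (nat_lit 21) nil nil) (node (nat_lit 5) (nat_lit 49210) (nat_lit 20)
  (node (nat_lit 4) (nat_lit 49328) (nat_lit 21) (node (nat_lit 7) (nat_lit 49421) (nat_lit 22)
  (node (nat_lit 4) (nat_lit 49492) (nat_lit 23) (node (nat_lit 5) (nat_lit 49548) (nat_lit 24)
  (node (nat_lit 7) (nat_lit 49592) (nat_lit 25) (node (nat_lit 5) (nat_lit 49603) (nat_lit 26)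
  (node (nat_lit 4) (nat_lit 45272) (nat_lit 27) (node (nat_lit 7) (nat_lit 40375) (nat_lit 28)
  (node (nat_lit 4) (nat_lit 33121) (nat_lit 29) (node (nat_lit 5) (nat_lit 28705) (nat_lit 30)
  nil nil) nil) nil) nil) nil) nil) nil) nil) nil) nil) nil)) (node (nat_lit 5) (nat_lit 49059)
  (nat_lit 19) nil nil)) (node (nat_lit 0) (nat_lit 49492) (nat_lit 18) nil nil)) (node (nat_lit
  0) (nat_lit 49421) (nat_lit 17) nil nil)) (node (nat_lit 0) (nat_lit 49328) (nat_lit 16) nil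
  nil))) (node (nat_lit 0) (nat_lit 49210) (nat_lit 15) nil nil)) (node (nat_lit 0) (nat_lit
  49059) (nat_lit 14) (node (nat_lit 5) (nat_lit 49059) (nat_lit 15) nil (node (nat_lit 4)
  (nat_lit 49059) (nat_lit 15) nil nil)) nil)) (node (nat_lit 0) (nat_lit 48866) (nat_lit 13)
  (node (nat_lit 5) (nat_lit 48866) (nat_lit 14) (node (nat_lit 4) (nat_lit 48866) (nat_lit 15)
  (node (nat_lit 7) (nat_lit 48866) (nat_lit 16) nil nil) (node (nat_lit 7) (nat_lit 48866)
  (nat_lit 15) (node (nat_lit 4) (nat_lit 48866) (nat_lit 16) nil nil) nil)) (node (nat_lit 4)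
  (nat_lit 48866) (nat_lit 14) (node (nat_lit 5) (nat_lit 48866) (nat_lit 15) (node (nat_lit 4)
  (nat_lit 48866) (nat_lit 16) nil (node (nat_lit 7) (nat_lit 48866) (nat_lit 16) nil nil)) (node
  (nat_lit 7) (nat_lit 48866) (nat_lit 15) nil nil)) (node (nat_lit 7) (nat_lit 48866) (nat_lit
  14) (node (nat_lit 5) (nat_lit 48866) (nat_lit 15) nil (node (nat_lit 4) (nat_lit 48866)
  (nat_lit 15) nil nil)) nil))) nil)) (node (nat_lit 0) (nat_lit 47830) (nat_lit 12) (node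
  (nat_lit 7) (nat_lit 47830) (nat_lit 13) nil (node (nat_lit 4) (nat_lit 47830) (nat_lit 13) nil
  (node (nat_lit 5) (nat_lit 47830) (nat_lit 13) nil nil))) nil)) (node (nat_lit 0) (nat_lit
  46285) (nat_lit 11) (node (nat_lit 7) (nat_lit 46285) (nat_lit 12) (node (nat_lit 4) (nat_lit
  46285) (nat_lit 13) nil (node (nat_lit 5) (nat_lit 46285) (nat_lit 13) nil nil)) (node (nat_lit
  4) (nat_lit 46285) (nat_lit 12) (node (nat_lit 5) (nat_lit 46285) (nat_lit 13) nil (node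
  (nat_lit 7) (nat_lit 46285) (nat_lit 13) nil nil)) (node (nat_lit 5) (nat_lit 46285) (nat_lit
  12) (node (nat_lit 7) (nat_lit 46285) (nat_lit 13) nil (node (nat_lit 4) (nat_lit 46285)
  (nat_lit 13) nil nil)) nil))) nil))) (node (nat_lit 5) (nat_lit 0) (nat_lit 10) (node (nat_lit
  7) (nat_lit 0) (nat_lit 11) (node (nat_lit 4) (nat_lit 0) (nat_lit 12) (node (nat_lit 7)
  (nat_lit 0) (nat_lit 13) (node (nat_lit 5) (nat_lit 0) (nat_lit 14) (node (nat_lit 4) (nat_lit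
  0) (nat_lit 15) (node (nat_lit 7) (nat_lit 0) (nat_lit 16) (node (nat_lit 4) (nat_lit 48617)
  (nat_lit 17) (node (nat_lit 5) (nat_lit 0) (nat_lit 18) (node (nat_lit 4) (nat_lit 49059)
  (nat_lit 19) (node (nat_lit 7) (nat_lit 49210) (nat_lit 20) (node (nat_lit 5) (nat_lit 49328)
  (nat_lit 21) (node (nat_lit 7) (nat_lit 49195) (nat_lit 22) nil nil) nil) nil) (node (nat_lit 7)
  (nat_lit 49059) (nat_lit 19) (node (nat_lit 4) (nat_lit 49210) (nat_lit 20) nil (node (nat_lit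
  5) (nat_lit 49210) (nat_lit 20) (node (nat_lit 4) (nat_lit 49124) (nat_lit 21) nil nil) nil))
  (node (nat_lit 0) (nat_lit 49548) (nat_lit 19) nil nil))) nil) (node (nat_lit 0) (nat_lit 49421)
  (nat_lit 17) nil nil)) (node (nat_lit 5) (nat_lit 47495) (nat_lit 16) (node (nat_lit 7) (nat_lit
  47196) (nat_lit 17) nil nil) (node (nat_lit 0) (nat_lit 49328) (nat_lit 16) nil nil))) (node
  (nat_lit 7) (nat_lit 0) (nat_lit 15) (node (nat_lit 4) (nat_lit 47817) (nat_lit 16) (node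
  (nat_lit 5) (nat_lit 48323) (nat_lit 17) (node (nat_lit 4) (nat_lit 48014) (nat_lit 18) (node
  (nat_lit 7) (nat_lit 47392) (nat_lit 19) (node (nat_lit 5) (nat_lit 47280) (nat_lit 20) nil
  (node (nat_lit 4) (nat_lit 45515) (nat_lit 20) (node (nat_lit 5) (nat_lit 41453) (nat_lit 21)
  (node (nat_lit 7) (nat_lit 39823) (nat_lit 22) (node (nat_lit 5) (nat_lit 39957) (nat_lit 23)
  (node (nat_lit 4) (nat_lit 40085) (nat_lit 24) (node (nat_lit 5) (nat_lit 28978) (nat_lit 25)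
  (node (nat_lit 7) (nat_lit 29037) (nat_lit 26) (node (nat_lit 4) (nat_lit 29048) (nat_lit 27)
  nil nil) nil) nil) nil) nil) nil) nil) nil)) nil) (node (nat_lit 7) (nat_lit 48717) (nat_lit 18)
  nil nil)) nil) (node (nat_lit 0) (nat_lit 48710) (nat_lit 16) nil nil)) (node (nat_lit 0)
  (nat_lit 48652) (nat_lit 15) nil nil))) (node (nat_lit 0) (nat_lit 48777) (nat_lit 14) nil nil))
  (node (nat_lit 5) (nat_lit 0) (nat_lit 13) (node (nat_lit 4) (nat_lit 0) (nat_lit 14) (node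
  (nat_lit 7) (nat_lit 0) (nat_lit 15) (node (nat_lit 5) (nat_lit 0) (nat_lit 16) (node (nat_lit
  7) (nat_lit 40201) (nat_lit 17) (node (nat_lit 4) (nat_lit 40905) (nat_lit 18) (node (nat_lit 7)
  (nat_lit 41132) (nat_lit 19) (node (nat_lit 5) (nat_lit 41020) (nat_lit 20) nil nil) (node
  (nat_lit 5) (nat_lit 40251) (nat_lit 19) (node (nat_lit 7) (nat_lit 40402) (nat_lit 20) nil nil)
  nil)) nil) (node (nat_lit 4) (nat_lit 40210) (nat_lit 17) (node (nat_lit 5) (nat_lit 40760)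
  (nat_lit 18) (node (nat_lit 7) (nat_lit 40568) (nat_lit 19) nil nil) nil) (node (nat_lit 0)
  (nat_lit 40430) (nat_lit 17) nil nil))) (node (nat_lit 4) (nat_lit 39369) (nat_lit 16) (node
  (nat_lit 5) (nat_lit 0) (nat_lit 17) (node (nat_lit 7) (nat_lit 21046) (nat_lit 18) (node
  (nat_lit 4) (nat_lit 21353) (nat_lit 19) (node (nat_lit 7) (nat_lit 21432) (nat_lit 20) (node
  (nat_lit 5) (nat_lit 21346) (nat_lit 21) nil nil) nil) nil) (node (nat_lit 0) (nat_lit 21455)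
  (nat_lit 18) nil nil)) nil) (node (nat_lit 0) (nat_lit 40995) (nat_lit 16) nil nil))) (node
  (nat_lit 0) (nat_lit 41042) (nat_lit 15) nil nil)) (node (nat_lit 0) (nat_lit 42191) (nat_lit
  14) (node (nat_lit 5) (nat_lit 42191) (nat_lit 15) nil nil) nil)) (node (nat_lit 0) (nat_lit
  48033) (nat_lit 13) nil nil))) (node (nat_lit 0) (nat_lit 47661) (nat_lit 12) (node (nat_lit 7)
  (nat_lit 47661) (nat_lit 13) nil (node (nat_lit 5) (nat_lit 47661) (nat_lit 13) nil nil)) nil))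
  (node (nat_lit 0) (nat_lit 46296) (nat_lit 11) (node (nat_lit 5) (nat_lit 46296) (nat_lit 12)
  nil (node (nat_lit 4) (nat_lit 46296) (nat_lit 12) nil (node (nat_lit 7) (nat_lit 46296)
  (nat_lit 12) nil nil))) nil)) (node (nat_lit 0) (nat_lit 0) (nat_lit 10) (node (nat_lit 7)
  (nat_lit 44241) (nat_lit 11) (node (nat_lit 4) (nat_lit 44238) (nat_lit 12) (node (nat_lit 5)
  (nat_lit 44238) (nat_lit 13) nil (node (nat_lit 7) (nat_lit 44238) (nat_lit 13) nil nil)) (node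
  (nat_lit 5) (nat_lit 44279) (nat_lit 12) (node (nat_lit 4) (nat_lit 44279) (nat_lit 13) nil
  (node (nat_lit 7) (nat_lit 44279) (nat_lit 13) nil nil)) nil)) (node (nat_lit 5) (nat_lit 44189)
  (nat_lit 11) (node (nat_lit 7) (nat_lit 44189) (nat_lit 12) (node (nat_lit 4) (nat_lit 44189)
  (nat_lit 13) nil nil) (node (nat_lit 4) (nat_lit 44451) (nat_lit 12) (node (nat_lit 5) (nat_lit
  44451) (nat_lit 13) nil (node (nat_lit 7) (nat_lit 44451) (nat_lit 13) nil nil)) nil)) (node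
  (nat_lit 4) (nat_lit 44191) (nat_lit 11) (node (nat_lit 5) (nat_lit 44191) (nat_lit 12) (node
  (nat_lit 7) (nat_lit 44191) (nat_lit 13) nil (node (nat_lit 4) (nat_lit 44191) (nat_lit 13) nil
  nil)) (node (nat_lit 7) (nat_lit 44191) (nat_lit 12) (node (nat_lit 5) (nat_lit 44191) (nat_lit
  13) nil nil) nil)) (node (nat_lit 0) (nat_lit 44479) (nat_lit 11) nil nil)))) nil))) (node
  (nat_lit 0) (nat_lit 41173) (nat_lit 9) (node (nat_lit 4) (nat_lit 41173) (nat_lit 10) nil (node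
  (nat_lit 7) (nat_lit 41173) (nat_lit 10) nil (node (nat_lit 5) (nat_lit 41173) (nat_lit 10) nil
  nil))) nil)) (node (nat_lit 4) (nat_lit 0) (nat_lit 8) (node (nat_lit 7) (nat_lit 0) (nat_lit 9)
  (node (nat_lit 5) (nat_lit 0) (nat_lit 10) (node (nat_lit 4) (nat_lit 0) (nat_lit 11) (node
  (nat_lit 5) (nat_lit 0) (nat_lit 12) (node (nat_lit 7) (nat_lit 0) (nat_lit 13) (node (nat_lit
  5) (nat_lit 45892) (nat_lit 14) (node (nat_lit 4) (nat_lit 46766) (nat_lit 15) (node (nat_lit 7)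
  (nat_lit 47513) (nat_lit 16) (node (nat_lit 5) (nat_lit 47247) (nat_lit 17) nil (node (nat_lit
  4) (nat_lit 48018) (nat_lit 17) nil nil)) nil) nil) (node (nat_lit 4) (nat_lit 45667) (nat_lit
  14) (node (nat_lit 5) (nat_lit 46832) (nat_lit 15) (node (nat_lit 4) (nat_lit 47516) (nat_lit
  16) (node (nat_lit 7) (nat_lit 45473) (nat_lit 17) (node (nat_lit 4) (nat_lit 33484) (nat_lit
  18) (node (nat_lit 5) (nat_lit 25994) (nat_lit 19) (node (nat_lit 7) (nat_lit 26384) (nat_lit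
  20) (node (nat_lit 4) (nat_lit 20190) (nat_lit 21) (node (nat_lit 7) (nat_lit 20330) (nat_lit
  22) nil nil) nil) nil) nil) nil) nil) nil) nil) (node (nat_lit 0) (nat_lit 46658) (nat_lit 14)
  nil nil))) (node (nat_lit 0) (nat_lit 47844) (nat_lit 13) nil nil)) (node (nat_lit 7) (nat_lit
  0) (nat_lit 12) (node (nat_lit 4) (nat_lit 0) (nat_lit 13) (node (nat_lit 5) (nat_lit 0)
  (nat_lit 14) (node (nat_lit 4) (nat_lit 0) (nat_lit 15) (node (nat_lit 7) (nat_lit 48299)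
  (nat_lit 16) (node (nat_lit 5) (nat_lit 48617) (nat_lit 17) (node (nat_lit 7) (nat_lit 48866)
  (nat_lit 18) (node (nat_lit 4) (nat_lit 49059) (nat_lit 19) (node (nat_lit 5) (nat_lit 49210)
  (nat_lit 20) (node (nat_lit 4) (nat_lit 49328) (nat_lit 21) (node (nat_lit 7) (nat_lit 49421)
  (nat_lit 22) (node (nat_lit 4) (nat_lit 49150) (nat_lit 23) (node (nat_lit 5) (nat_lit 48517)
  (nat_lit 24) (node (nat_lit 7) (nat_lit 46798) (nat_lit 25) (node (nat_lit 4) (nat_lit 46386)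
  (nat_lit 26) (node (nat_lit 7) (nat_lit 46450) (nat_lit 27) (node (nat_lit 5) (nat_lit 46481)
  (nat_lit 28) (node (nat_lit 4) (nat_lit 46523) (nat_lit 29) nil nil) nil) nil) nil) nil) nil)
  nil) nil) nil) nil) nil) (node (nat_lit 4) (nat_lit 48866) (nat_lit 18) (node (nat_lit 5)
  (nat_lit 48718) (nat_lit 19) nil nil) nil)) nil) (node (nat_lit 0) (nat_lit 48827) (nat_lit 16)
  nil nil)) (node (nat_lit 7) (nat_lit 0) (nat_lit 15) (node (nat_lit 5) (nat_lit 0) (nat_lit 16)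
  (node (nat_lit 4) (nat_lit 48471) (nat_lit 17) (node (nat_lit 7) (nat_lit 48600) (nat_lit 18)
  nil (node (nat_lit 5) (nat_lit 48419) (nat_lit 18) nil nil)) (node (nat_lit 0) (nat_lit 49139)
  (nat_lit 17) nil nil)) (node (nat_lit 0) (nat_lit 48876) (nat_lit 16) nil (node (nat_lit 4)
  (nat_lit 48086) (nat_lit 16) nil nil))) (node (nat_lit 0) (nat_lit 49033) (nat_lit 15) nil
  nil))) (node (nat_lit 0) (nat_lit 49059) (nat_lit 14) nil nil)) (node (nat_lit 0) (nat_lit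
  47931) (nat_lit 13) nil nil)) (node (nat_lit 0) (nat_lit 46229) (nat_lit 12) nil nil))) (node
  (nat_lit 7) (nat_lit 0) (nat_lit 11) (node (nat_lit 4) (nat_lit 0) (nat_lit 12) (node (nat_lit
  5) (nat_lit 0) (nat_lit 13) (node (nat_lit 4) (nat_lit 0) (nat_lit 14) (node (nat_lit 7)
  (nat_lit 36367) (nat_lit 15) (node (nat_lit 5) (nat_lit 37238) (nat_lit 16) (node (nat_lit 4)
  (nat_lit 37866) (nat_lit 17) (node (nat_lit 5) (nat_lit 37667) (nat_lit 18) nil nil) (node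
  (nat_lit 7) (nat_lit 36752) (nat_lit 17) nil nil)) (node (nat_lit 4) (nat_lit 37323) (nat_lit
  16) (node (nat_lit 5) (nat_lit 38120) (nat_lit 17) (node (nat_lit 7) (nat_lit 27866) (nat_lit
  18) (node (nat_lit 4) (nat_lit 28243) (nat_lit 19) nil nil) nil) nil) nil)) (node (nat_lit 0)
  (nat_lit 36756) (nat_lit 15) nil nil)) (node (nat_lit 7) (nat_lit 41618) (nat_lit 14) (node
  (nat_lit 5) (nat_lit 43059) (nat_lit 15) (node (nat_lit 4) (nat_lit 44194) (nat_lit 16) (node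
  (nat_lit 7) (nat_lit 44936) (nat_lit 17) (node (nat_lit 4) (nat_lit 45331) (nat_lit 18) (node
  (nat_lit 5) (nat_lit 45638) (nat_lit 19) nil nil) nil) nil) nil) nil) (node (nat_lit 0) (nat_lit
  43275) (nat_lit 14) nil nil))) (node (nat_lit 0) (nat_lit 43697) (nat_lit 13) nil nil)) (node
  (nat_lit 0) (nat_lit 46025) (nat_lit 12) nil nil)) (node (nat_lit 0) (nat_lit 45958) (nat_lit
  11) nil nil))) (node (nat_lit 0) (nat_lit 43947) (nat_lit 10) (node (nat_lit 4) (nat_lit 43947)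
  (nat_lit 11) nil (node (nat_lit 5) (nat_lit 43947) (nat_lit 11) nil (node (nat_lit 7) (nat_lit
  43947) (nat_lit 11) nil nil))) nil)) (node (nat_lit 0) (nat_lit 41259) (nat_lit 9) (node
  (nat_lit 7) (nat_lit 41297) (nat_lit 10) (node (nat_lit 4) (nat_lit 41297) (nat_lit 11) nil
  (node (nat_lit 5) (nat_lit 41297) (nat_lit 11) nil nil)) (node (nat_lit 4) (nat_lit 41259)
  (nat_lit 10) (node (nat_lit 5) (nat_lit 41259) (nat_lit 11) nil (node (nat_lit 7) (nat_lit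
  41259) (nat_lit 11) nil nil)) (node (nat_lit 5) (nat_lit 41256) (nat_lit 10) (node (nat_lit 7)
  (nat_lit 41256) (nat_lit 11) nil (node (nat_lit 4) (nat_lit 41256) (nat_lit 11) nil nil)) nil)))
  nil)) nil))

noncomputable def c88 : Tr :=
  (node (nat_lit 3) (nat_lit 0) (nat_lit 1) (node (nat_lit 3) (nat_lit 0) (nat_lit 2) (node
  (nat_lit 3) (nat_lit 0) (nat_lit 3) (node (nat_lit 4) (nat_lit 0) (nat_lit 4) (node (nat_lit 6)
  (nat_lit 0) (nat_lit 5) (node (nat_lit 5) (nat_lit 0) (nat_lit 6) t302 nil) (node (nat_lit 5)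
  (nat_lit 0) (nat_lit 5) (node (nat_lit 4) (nat_lit 0) (nat_lit 6) (node (nat_lit 6) (nat_lit 0)
  (nat_lit 7) (node (nat_lit 5) (nat_lit 0) (nat_lit 8) (node (nat_lit 6) (nat_lit 0) (nat_lit 9)
  (node (nat_lit 4) (nat_lit 0) (nat_lit 10) (node (nat_lit 6) (nat_lit 0) (nat_lit 11) (node
  (nat_lit 5) (nat_lit 0) (nat_lit 12) (node (nat_lit 4) (nat_lit 0) (nat_lit 13) (node (nat_lit
  5) (nat_lit 0) (nat_lit 14) (node (nat_lit 6) (nat_lit 0) (nat_lit 15) (node (nat_lit 4)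
  (nat_lit 0) (nat_lit 16) (node (nat_lit 5) (nat_lit 41352) (nat_lit 17) (node (nat_lit 4)
  (nat_lit 41949) (nat_lit 18) (node (nat_lit 6) (nat_lit 33100) (nat_lit 19) (node (nat_lit 4)
  (nat_lit 33310) (nat_lit 20) nil (node (nat_lit 5) (nat_lit 33279) (nat_lit 20) (node (nat_lit
  6) (nat_lit 19551) (nat_lit 21) nil nil) nil)) nil) nil) (node (nat_lit 6) (nat_lit 44060)
  (nat_lit 17) (node (nat_lit 5) (nat_lit 44424) (nat_lit 18) (node (nat_lit 6) (nat_lit 44573)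
  (nat_lit 19) nil nil) nil) (node (nat_lit 0) (nat_lit 44193) (nat_lit 17) nil nil))) (node
  (nat_lit 5) (nat_lit 46949) (nat_lit 16) (node (nat_lit 4) (nat_lit 47788) (nat_lit 17) (node
  (nat_lit 6) (nat_lit 48290) (nat_lit 18) (node (nat_lit 4) (nat_lit 48439) (nat_lit 19) nil nil)
  nil) nil) (node (nat_lit 0) (nat_lit 47726) (nat_lit 16) nil nil))) (node (nat_lit 0) (nat_lit
  51213) (nat_lit 15) nil nil)) (node (nat_lit 6) (nat_lit 0) (nat_lit 14) (node (nat_lit 4)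
  (nat_lit 51337) (nat_lit 15) (node (nat_lit 5) (nat_lit 51650) (nat_lit 16) (node (nat_lit 6)
  (nat_lit 51396) (nat_lit 17) nil nil) nil) (node (nat_lit 0) (nat_lit 52210) (nat_lit 15) nil
  nil)) (node (nat_lit 0) (nat_lit 52210) (nat_lit 14) nil nil))) (node (nat_lit 0) (nat_lit
  52086) (nat_lit 13) nil nil)) (node (nat_lit 0) (nat_lit 51222) (nat_lit 12) nil nil)) (node
  (nat_lit 5) (nat_lit 0) (nat_lit 11) (node (nat_lit 6) (nat_lit 0) (nat_lit 12) (node (nat_lit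
  5) (nat_lit 0) (nat_lit 13) (node (nat_lit 4) (nat_lit 0) (nat_lit 14) (node (nat_lit 6)
  (nat_lit 0) (nat_lit 15) (node (nat_lit 4) (nat_lit 0) (nat_lit 16) (node (nat_lit 5) (nat_lit
  51896) (nat_lit 17) (node (nat_lit 6) (nat_lit 52086) (nat_lit 18) (node (nat_lit 4) (nat_lit
  52210) (nat_lit 19) nil nil) (node (nat_lit 4) (nat_lit 52086) (nat_lit 18) nil nil)) (node
  (nat_lit 0) (nat_lit 52210) (nat_lit 17) nil nil)) (node (nat_lit 5) (nat_lit 51650) (nat_lit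
  16) (node (nat_lit 6) (nat_lit 0) (nat_lit 17) (node (nat_lit 4) (nat_lit 52086) (nat_lit 18)
  (node (nat_lit 6) (nat_lit 51943) (nat_lit 19) (node (nat_lit 5) (nat_lit 51900) (nat_lit 20)
  nil nil) (node (nat_lit 5) (nat_lit 52210) (nat_lit 19) nil nil)) (node (nat_lit 0) (nat_lit
  52210) (nat_lit 18) nil nil)) nil) (node (nat_lit 0) (nat_lit 52210) (nat_lit 16) nil nil)))
  (node (nat_lit 5) (nat_lit 0) (nat_lit 15) (node (nat_lit 6) (nat_lit 0) (nat_lit 16) (node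
  (nat_lit 4) (nat_lit 49515) (nat_lit 17) (node (nat_lit 6) (nat_lit 50221) (nat_lit 18) (node
  (nat_lit 5) (nat_lit 50738) (nat_lit 19) (node (nat_lit 4) (nat_lit 51063) (nat_lit 20) nil nil)
  nil) (node (nat_lit 5) (nat_lit 0) (nat_lit 18) (node (nat_lit 4) (nat_lit 45821) (nat_lit 19)
  (node (nat_lit 6) (nat_lit 46159) (nat_lit 20) (node (nat_lit 5) (nat_lit 35967) (nat_lit 21)
  (node (nat_lit 6) (nat_lit 36067) (nat_lit 22) (node (nat_lit 4) (nat_lit 36175) (nat_lit 23)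
  nil nil) nil) nil) nil) (node (nat_lit 0) (nat_lit 46093) (nat_lit 19) nil nil)) nil)) (node
  (nat_lit 0) (nat_lit 49573) (nat_lit 17) nil nil)) (node (nat_lit 0) (nat_lit 52210) (nat_lit
  16) nil nil)) (node (nat_lit 0) (nat_lit 52210) (nat_lit 15) nil nil))) (node (nat_lit 0)
  (nat_lit 52210) (nat_lit 14) (node (nat_lit 5) (nat_lit 52210) (nat_lit 15) nil (node (nat_lit
  6) (nat_lit 52210) (nat_lit 15) (node (nat_lit 5) (nat_lit 52210) (nat_lit 16) nil nil) (node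
  (nat_lit 4) (nat_lit 52210) (nat_lit 15) nil nil))) nil)) (node (nat_lit 0) (nat_lit 52086)
  (nat_lit 13) (node (nat_lit 4) (nat_lit 52086) (nat_lit 14) nil (node (nat_lit 5) (nat_lit
  52086) (nat_lit 14) (node (nat_lit 6) (nat_lit 52086) (nat_lit 15) nil (node (nat_lit 4)
  (nat_lit 52086) (nat_lit 15) nil nil)) (node (nat_lit 6) (nat_lit 52086) (nat_lit 14) (node
  (nat_lit 5) (nat_lit 52086) (nat_lit 15) nil (node (nat_lit 4) (nat_lit 52086) (nat_lit 15) nil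
  nil)) nil))) nil)) (node (nat_lit 0) (nat_lit 51896) (nat_lit 12) (node (nat_lit 4) (nat_lit
  51896) (nat_lit 13) (node (nat_lit 5) (nat_lit 51896) (nat_lit 14) (node (nat_lit 6) (nat_lit
  51896) (nat_lit 15) nil nil) (node (nat_lit 6) (nat_lit 51896) (nat_lit 14) nil nil)) (node
  (nat_lit 5) (nat_lit 51896) (nat_lit 13) (node (nat_lit 4) (nat_lit 51896) (nat_lit 14) nil
  (node (nat_lit 6) (nat_lit 51896) (nat_lit 14) nil nil)) (node (nat_lit 6) (nat_lit 51896)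
  (nat_lit 13) (node (nat_lit 5) (nat_lit 51896) (nat_lit 14) nil (node (nat_lit 4) (nat_lit
  51896) (nat_lit 14) nil nil)) (node (nat_lit 0) (nat_lit 52086) (nat_lit 13) nil nil)))) (node
  (nat_lit 4) (nat_lit 0) (nat_lit 12) (node (nat_lit 0) (nat_lit 52086) (nat_lit 13) (node
  (nat_lit 5) (nat_lit 52086) (nat_lit 14) (node (nat_lit 4) (nat_lit 52086) (nat_lit 15) nil nil)
  (node (nat_lit 4) (nat_lit 52086) (nat_lit 14) nil (node (nat_lit 6) (nat_lit 52086) (nat_lit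
  14) nil nil))) nil) nil))) (node (nat_lit 0) (nat_lit 50297) (nat_lit 11) (node (nat_lit 4)
  (nat_lit 50297) (nat_lit 12) nil (node (nat_lit 6) (nat_lit 50297) (nat_lit 12) nil (node
  (nat_lit 5) (nat_lit 50297) (nat_lit 12) nil nil))) nil))) (node (nat_lit 0) (nat_lit 48068)
  (nat_lit 10) (node (nat_lit 4) (nat_lit 48068) (nat_lit 11) nil nil) nil)) (node (nat_lit 4)
  (nat_lit 0) (nat_lit 9) (node (nat_lit 5) (nat_lit 0) (nat_lit 10) (node (nat_lit 6) (nat_lit 0)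
  (nat_lit 11) (node (nat_lit 4) (nat_lit 0) (nat_lit 12) (node (nat_lit 6) (nat_lit 0) (nat_lit
  13) (node (nat_lit 5) (nat_lit 37267) (nat_lit 14) (node (nat_lit 4) (nat_lit 38269) (nat_lit
  15) (node (nat_lit 6) (nat_lit 38831) (nat_lit 16) nil nil) (node (nat_lit 6) (nat_lit 38578)
  (nat_lit 15) (node (nat_lit 4) (nat_lit 39602) (nat_lit 16) (node (nat_lit 5) (nat_lit 40372)
  (nat_lit 17) (node (nat_lit 6) (nat_lit 40330) (nat_lit 18) (node (nat_lit 5) (nat_lit 39888)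
  (nat_lit 19) nil nil) (node (nat_lit 4) (nat_lit 40451) (nat_lit 18) nil nil)) nil) nil) nil))
  (node (nat_lit 0) (nat_lit 38524) (nat_lit 14) nil nil)) (node (nat_lit 5) (nat_lit 0) (nat_lit
  13) (node (nat_lit 0) (nat_lit 16296) (nat_lit 14) nil nil) (node (nat_lit 0) (nat_lit 38610)
  (nat_lit 13) nil nil))) (node (nat_lit 5) (nat_lit 0) (nat_lit 12) (node (nat_lit 4) (nat_lit 0)
  (nat_lit 13) (node (nat_lit 6) (nat_lit 36958) (nat_lit 14) (node (nat_lit 4) (nat_lit 37930)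
  (nat_lit 15) (node (nat_lit 5) (nat_lit 38042) (nat_lit 16) (node (nat_lit 6) (nat_lit 37787)
  (nat_lit 17) nil nil) nil) (node (nat_lit 5) (nat_lit 38014) (nat_lit 15) (node (nat_lit 6)
  (nat_lit 38574) (nat_lit 16) nil nil) nil)) (node (nat_lit 0) (nat_lit 37113) (nat_lit 14) nil
  nil)) (node (nat_lit 0) (nat_lit 37031) (nat_lit 13) nil nil)) (node (nat_lit 0) (nat_lit 36979)
  (nat_lit 12) nil nil))) (node (nat_lit 0) (nat_lit 36911) (nat_lit 11) nil nil)) (node (nat_lit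
  0) (nat_lit 35157) (nat_lit 10) (node (nat_lit 5) (nat_lit 35157) (nat_lit 11) nil (node
  (nat_lit 6) (nat_lit 35157) (nat_lit 11) nil (node (nat_lit 4) (nat_lit 35157) (nat_lit 11) nil
  nil))) nil)) (node (nat_lit 0) (nat_lit 45208) (nat_lit 9) (node (nat_lit 5) (nat_lit 45208)
  (nat_lit 10) nil (node (nat_lit 6) (nat_lit 45208) (nat_lit 10) nil (node (nat_lit 4) (nat_lit
  45208) (nat_lit 10) nil nil))) nil))) (node (nat_lit 4) (nat_lit 0) (nat_lit 8) (node (nat_lit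
  5) (nat_lit 0) (nat_lit 9) (node (nat_lit 6) (nat_lit 0) (nat_lit 10) (node (nat_lit 5) (nat_lit
  0) (nat_lit 11) (node (nat_lit 4) (nat_lit 0) (nat_lit 12) (node (nat_lit 6) (nat_lit 0)
  (nat_lit 13) (node (nat_lit 5) (nat_lit 0) (nat_lit 14) (node (nat_lit 6) (nat_lit 51337)
  (nat_lit 15) (node (nat_lit 4) (nat_lit 51650) (nat_lit 16) (node (nat_lit 6) (nat_lit 51896)
  (nat_lit 17) (node (nat_lit 5) (nat_lit 52086) (nat_lit 18) (node (nat_lit 4) (nat_lit 52210)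
  (nat_lit 19) (node (nat_lit 5) (nat_lit 52210) (nat_lit 20) (node (nat_lit 6) (nat_lit 52210)
  (nat_lit 21) (node (nat_lit 4) (nat_lit 52210) (nat_lit 22) (node (nat_lit 5) (nat_lit 52210)
  (nat_lit 23) (node (nat_lit 4) (nat_lit 52210) (nat_lit 24) (node (nat_lit 6) (nat_lit 52210)
  (nat_lit 25) (node (nat_lit 4) (nat_lit 52210) (nat_lit 26) (node (nat_lit 5) (nat_lit 50642)
  (nat_lit 27) (node (nat_lit 6) (nat_lit 48797) (nat_lit 28) (node (nat_lit 5) (nat_lit 48821)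
  (nat_lit 29) nil nil) nil) nil) nil) nil) nil) nil) nil) nil) nil) nil) nil) (node (nat_lit 5)
  (nat_lit 51896) (nat_lit 17) (node (nat_lit 6) (nat_lit 52086) (nat_lit 18) (node (nat_lit 5)
  (nat_lit 52210) (nat_lit 19) (node (nat_lit 4) (nat_lit 51591) (nat_lit 20) nil nil) nil) nil)
  nil)) nil) (node (nat_lit 0) (nat_lit 52210) (nat_lit 15) nil nil)) (node (nat_lit 4) (nat_lit
  50935) (nat_lit 14) (node (nat_lit 5) (nat_lit 51337) (nat_lit 15) nil nil) (node (nat_lit 0)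
  (nat_lit 52210) (nat_lit 14) nil nil))) (node (nat_lit 5) (nat_lit 0) (nat_lit 13) (node
  (nat_lit 6) (nat_lit 50375) (nat_lit 14) (node (nat_lit 4) (nat_lit 45351) (nat_lit 15) (node
  (nat_lit 6) (nat_lit 46449) (nat_lit 16) (node (nat_lit 5) (nat_lit 46945) (nat_lit 17) (node
  (nat_lit 6) (nat_lit 47135) (nat_lit 18) nil nil) nil) (node (nat_lit 5) (nat_lit 41100)
  (nat_lit 16) (node (nat_lit 4) (nat_lit 41577) (nat_lit 17) (node (nat_lit 6) (nat_lit 41965)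
  (nat_lit 18) (node (nat_lit 4) (nat_lit 42301) (nat_lit 19) nil nil) nil) nil) nil)) nil) (node
  (nat_lit 0) (nat_lit 52210) (nat_lit 14) nil nil)) (node (nat_lit 0) (nat_lit 52086) (nat_lit
  13) nil nil))) (node (nat_lit 0) (nat_lit 51896) (nat_lit 12) nil nil)) (node (nat_lit 4)
  (nat_lit 0) (nat_lit 11) (node (nat_lit 6) (nat_lit 0) (nat_lit 12) (node (nat_lit 5) (nat_lit
  0) (nat_lit 13) (node (nat_lit 4) (nat_lit 50935) (nat_lit 14) (node (nat_lit 6) (nat_lit 51337)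
  (nat_lit 15) nil (node (nat_lit 5) (nat_lit 51337) (nat_lit 15) (node (nat_lit 6) (nat_lit
  51650) (nat_lit 16) (node (nat_lit 5) (nat_lit 50946) (nat_lit 17) nil (node (nat_lit 4)
  (nat_lit 45216) (nat_lit 17) (node (nat_lit 5) (nat_lit 45554) (nat_lit 18) (node (nat_lit 4)
  (nat_lit 45994) (nat_lit 19) (node (nat_lit 6) (nat_lit 46357) (nat_lit 20) (node (nat_lit 4)
  (nat_lit 40075) (nat_lit 21) (node (nat_lit 5) (nat_lit 17670) (nat_lit 22) (node (nat_lit 6)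
  (nat_lit 17779) (nat_lit 23) nil nil) nil) nil) nil) nil) nil) nil)) nil) nil)) (node (nat_lit
  6) (nat_lit 0) (nat_lit 14) (node (nat_lit 4) (nat_lit 51337) (nat_lit 15) (node (nat_lit 5)
  (nat_lit 51650) (nat_lit 16) nil nil) (node (nat_lit 0) (nat_lit 52210) (nat_lit 15) nil nil))
  (node (nat_lit 0) (nat_lit 52210) (nat_lit 14) nil nil))) (node (nat_lit 0) (nat_lit 52086)
  (nat_lit 13) nil nil)) (node (nat_lit 0) (nat_lit 51896) (nat_lit 12) nil nil)) (node (nat_lit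
  0) (nat_lit 51650) (nat_lit 11) nil nil))) (node (nat_lit 0) (nat_lit 51337) (nat_lit 10) nil
  nil)) (node (nat_lit 0) (nat_lit 50649) (nat_lit 9) nil nil)) nil)) nil) nil) nil)) (node
  (nat_lit 5) (nat_lit 0) (nat_lit 4) (node (nat_lit 4) (nat_lit 0) (nat_lit 5) (node (nat_lit 6)
  (nat_lit 0) (nat_lit 6) t303 (node (nat_lit 5) (nat_lit 0) (nat_lit 6) (node (nat_lit 6)
  (nat_lit 0) (nat_lit 7) (node (nat_lit 4) (nat_lit 0) (nat_lit 8) t304 nil) nil) nil)) nil)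
  nil)) (node (nat_lit 4) (nat_lit 0) (nat_lit 3) (node (nat_lit 3) (nat_lit 0) (nat_lit 4) (node
  (nat_lit 5) (nat_lit 0) (nat_lit 5) t306 (node (nat_lit 4) (nat_lit 0) (nat_lit 5) (node
  (nat_lit 5) (nat_lit 0) (nat_lit 6) (node (nat_lit 7) (nat_lit 0) (nat_lit 7) t307 nil) nil)
  nil)) nil) nil)) nil) nil)

noncomputable def t308 : Tr :=
  (node (nat_lit 4) (nat_lit 0) (nat_lit 10) (node (nat_lit 6) (nat_lit 0) (nat_lit 11) (node
  (nat_lit 5) (nat_lit 0) (nat_lit 12) (node (nat_lit 4) (nat_lit 0) (nat_lit 13) (node (nat_lit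
  5) (nat_lit 0) (nat_lit 14) (node (nat_lit 6) (nat_lit 0) (nat_lit 15) (node (nat_lit 5)
  (nat_lit 0) (nat_lit 16) (node (nat_lit 4) (nat_lit 0) (nat_lit 17) (node (nat_lit 6) (nat_lit
  82444) (nat_lit 18) (node (nat_lit 4) (nat_lit 82952) (nat_lit 19) (node (nat_lit 5) (nat_lit
  83208) (nat_lit 20) (node (nat_lit 6) (nat_lit 83238) (nat_lit 21) (node (nat_lit 4) (nat_lit
  83395) (nat_lit 22) (node (nat_lit 6) (nat_lit 83412) (nat_lit 23) (node (nat_lit 5) (nat_lit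
  82980) (nat_lit 24) (node (nat_lit 6) (nat_lit 82129) (nat_lit 25) (node (nat_lit 4) (nat_lit
  79914) (nat_lit 26) (node (nat_lit 5) (nat_lit 76226) (nat_lit 27) (node (nat_lit 4) (nat_lit
  71579) (nat_lit 28) (node (nat_lit 6) (nat_lit 67049) (nat_lit 29) (node (nat_lit 5) (nat_lit
  67075) (nat_lit 30) (node (nat_lit 4) (nat_lit 67094) (nat_lit 31) (node (nat_lit 5) (nat_lit
  45489) (nat_lit 32) (node (nat_lit 6) (nat_lit 45459) (nat_lit 33) (node (nat_lit 5) (nat_lit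
  45458) (nat_lit 34) nil nil) nil) nil) nil) nil) nil) nil) nil) nil) nil) nil) nil) nil) nil)
  nil) (node (nat_lit 5) (nat_lit 82774) (nat_lit 19) nil nil)) (node (nat_lit 0) (nat_lit 82873)
  (nat_lit 18) nil nil)) (node (nat_lit 0) (nat_lit 82566) (nat_lit 17) nil nil)) (node (nat_lit
  4) (nat_lit 0) (nat_lit 16) (node (nat_lit 5) (nat_lit 79231) (nat_lit 17) (node (nat_lit 4)
  (nat_lit 0) (nat_lit 18) (node (nat_lit 6) (nat_lit 80941) (nat_lit 19) (node (nat_lit 5)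
  (nat_lit 80764) (nat_lit 20) nil (node (nat_lit 4) (nat_lit 81287) (nat_lit 20) (node (nat_lit
  5) (nat_lit 80679) (nat_lit 21) nil nil) nil)) (node (nat_lit 0) (nat_lit 81282) (nat_lit 19)
  nil nil)) nil) (node (nat_lit 6) (nat_lit 0) (nat_lit 17) (node (nat_lit 5) (nat_lit 69640)
  (nat_lit 18) (node (nat_lit 6) (nat_lit 63030) (nat_lit 19) (node (nat_lit 4) (nat_lit 63337)
  (nat_lit 20) (node (nat_lit 5) (nat_lit 63601) (nat_lit 21) (node (nat_lit 4) (nat_lit 37484)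
  (nat_lit 22) (node (nat_lit 6) (nat_lit 37507) (nat_lit 23) nil nil) nil) nil) nil) (node
  (nat_lit 4) (nat_lit 69829) (nat_lit 19) nil nil)) (node (nat_lit 0) (nat_lit 70733) (nat_lit
  18) nil nil)) (node (nat_lit 0) (nat_lit 80979) (nat_lit 17) nil nil))) (node (nat_lit 0)
  (nat_lit 82878) (nat_lit 16) nil nil))) (node (nat_lit 0) (nat_lit 84087) (nat_lit 15) (node
  (nat_lit 4) (nat_lit 84087) (nat_lit 16) nil (node (nat_lit 6) (nat_lit 84087) (nat_lit 16) nil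
  (node (nat_lit 5) (nat_lit 84087) (nat_lit 16) nil nil))) nil)) (node (nat_lit 0) (nat_lit
  82739) (nat_lit 14) (node (nat_lit 5) (nat_lit 82739) (nat_lit 15) nil (node (nat_lit 4)
  (nat_lit 82739) (nat_lit 15) nil (node (nat_lit 6) (nat_lit 82739) (nat_lit 15) nil nil))) nil))
  (node (nat_lit 6) (nat_lit 0) (nat_lit 13) (node (nat_lit 4) (nat_lit 0) (nat_lit 14) (node
  (nat_lit 6) (nat_lit 0) (nat_lit 15) (node (nat_lit 5) (nat_lit 0) (nat_lit 16) (node (nat_lit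
  4) (nat_lit 82952) (nat_lit 17) (node (nat_lit 5) (nat_lit 83836) (nat_lit 18) (node (nat_lit 6)
  (nat_lit 84477) (nat_lit 19) (node (nat_lit 4) (nat_lit 84938) (nat_lit 20) (node (nat_lit 6)
  (nat_lit 80702) (nat_lit 21) (node (nat_lit 5) (nat_lit 78881) (nat_lit 22) (node (nat_lit 6)
  (nat_lit 78299) (nat_lit 23) (node (nat_lit 4) (nat_lit 78422) (nat_lit 24) (node (nat_lit 5)
  (nat_lit 78538) (nat_lit 25) (node (nat_lit 4) (nat_lit 78580) (nat_lit 26) (node (nat_lit 6)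
  (nat_lit 78643) (nat_lit 27) (node (nat_lit 5) (nat_lit 78687) (nat_lit 28) nil nil) nil) nil)
  nil) nil) nil) nil) nil) (node (nat_lit 5) (nat_lit 84300) (nat_lit 20) nil nil)) nil) (node
  (nat_lit 6) (nat_lit 83791) (nat_lit 18) (node (nat_lit 4) (nat_lit 84184) (nat_lit 19) (node
  (nat_lit 5) (nat_lit 84440) (nat_lit 20) (node (nat_lit 6) (nat_lit 84469) (nat_lit 21) (node
  (nat_lit 4) (nat_lit 84626) (nat_lit 22) (node (nat_lit 6) (nat_lit 84643) (nat_lit 23) (node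
  (nat_lit 5) (nat_lit 84052) (nat_lit 24) (node (nat_lit 6) (nat_lit 83197) (nat_lit 25) (node
  (nat_lit 4) (nat_lit 80986) (nat_lit 26) (node (nat_lit 5) (nat_lit 80001) (nat_lit 27) (node
  (nat_lit 4) (nat_lit 77126) (nat_lit 28) (node (nat_lit 6) (nat_lit 74098) (nat_lit 29) (node
  (nat_lit 5) (nat_lit 74123) (nat_lit 30) nil nil) nil) nil) nil) nil) nil) nil) nil) nil) nil)
  nil) nil) nil)) (node (nat_lit 0) (nat_lit 83629) (nat_lit 17) nil nil)) (node (nat_lit 0)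
  (nat_lit 83293) (nat_lit 16) nil nil)) (node (nat_lit 0) (nat_lit 83728) (nat_lit 15) nil nil))
  (node (nat_lit 0) (nat_lit 82710) (nat_lit 14) (node (nat_lit 5) (nat_lit 82710) (nat_lit 15)
  (node (nat_lit 6) (nat_lit 82710) (nat_lit 16) nil nil) (node (nat_lit 6) (nat_lit 82710)
  (nat_lit 15) nil (node (nat_lit 4) (nat_lit 82710) (nat_lit 15) nil nil))) nil)) (node (nat_lit
  0) (nat_lit 80997) (nat_lit 13) (node (nat_lit 5) (nat_lit 81017) (nat_lit 14) (node (nat_lit 4)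
  (nat_lit 81017) (nat_lit 15) nil (node (nat_lit 6) (nat_lit 81017) (nat_lit 15) nil nil)) (node
  (nat_lit 6) (nat_lit 81019) (nat_lit 14) (node (nat_lit 5) (nat_lit 81019) (nat_lit 15) (node
  (nat_lit 4) (nat_lit 81019) (nat_lit 16) nil (node (nat_lit 6) (nat_lit 81019) (nat_lit 16) nil
  nil)) (node (nat_lit 4) (nat_lit 81019) (nat_lit 15) nil nil)) (node (nat_lit 4) (nat_lit 80997)
  (nat_lit 14) (node (nat_lit 5) (nat_lit 80997) (nat_lit 15) nil (node (nat_lit 6) (nat_lit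
  80997) (nat_lit 15) nil nil)) nil))) nil))) (node (nat_lit 4) (nat_lit 0) (nat_lit 12) (node
  (nat_lit 5) (nat_lit 0) (nat_lit 13) (node (nat_lit 6) (nat_lit 0) (nat_lit 14) (node (nat_lit
  5) (nat_lit 0) (nat_lit 15) (node (nat_lit 4) (nat_lit 0) (nat_lit 16) (node (nat_lit 5)
  (nat_lit 81393) (nat_lit 17) (node (nat_lit 6) (nat_lit 82195) (nat_lit 18) (node (nat_lit 4)
  (nat_lit 82814) (nat_lit 19) (node (nat_lit 6) (nat_lit 82583) (nat_lit 20) (node (nat_lit 5)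
  (nat_lit 79915) (nat_lit 21) (node (nat_lit 6) (nat_lit 74587) (nat_lit 22) (node (nat_lit 4)
  (nat_lit 68739) (nat_lit 23) (node (nat_lit 5) (nat_lit 64002) (nat_lit 24) (node (nat_lit 4)
  (nat_lit 56884) (nat_lit 25) (node (nat_lit 6) (nat_lit 56950) (nat_lit 26) (node (nat_lit 4)
  (nat_lit 35942) (nat_lit 27) (node (nat_lit 5) (nat_lit 35949) (nat_lit 28) (node (nat_lit 6)
  (nat_lit 35899) (nat_lit 29) nil nil) nil) nil) nil) nil) nil) nil) nil) nil) nil) nil) nil)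
  (node (nat_lit 6) (nat_lit 81191) (nat_lit 17) (node (nat_lit 5) (nat_lit 81760) (nat_lit 18)
  nil (node (nat_lit 4) (nat_lit 81819) (nat_lit 18) (node (nat_lit 5) (nat_lit 80913) (nat_lit
  19) nil nil) nil)) (node (nat_lit 0) (nat_lit 81796) (nat_lit 17) nil nil))) (node (nat_lit 0)
  (nat_lit 81696) (nat_lit 16) nil nil)) (node (nat_lit 4) (nat_lit 0) (nat_lit 15) (node (nat_lit
  6) (nat_lit 0) (nat_lit 16) (node (nat_lit 5) (nat_lit 70308) (nat_lit 17) (node (nat_lit 4)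
  (nat_lit 71288) (nat_lit 18) (node (nat_lit 5) (nat_lit 71917) (nat_lit 19) (node (nat_lit 6)
  (nat_lit 70572) (nat_lit 20) (node (nat_lit 4) (nat_lit 70545) (nat_lit 21) nil nil) nil) (node
  (nat_lit 6) (nat_lit 71166) (nat_lit 19) (node (nat_lit 4) (nat_lit 71258) (nat_lit 20) nil nil)
  nil)) (node (nat_lit 6) (nat_lit 71081) (nat_lit 18) (node (nat_lit 4) (nat_lit 47036) (nat_lit
  19) (node (nat_lit 5) (nat_lit 47150) (nat_lit 20) nil nil) nil) nil)) (node (nat_lit 0)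
  (nat_lit 72104) (nat_lit 17) nil nil)) (node (nat_lit 0) (nat_lit 71922) (nat_lit 16) (node
  (nat_lit 4) (nat_lit 71922) (nat_lit 17) nil (node (nat_lit 6) (nat_lit 71922) (nat_lit 17) nil
  (node (nat_lit 5) (nat_lit 71922) (nat_lit 17) nil nil))) nil)) (node (nat_lit 0) (nat_lit
  79773) (nat_lit 15) nil nil))) (node (nat_lit 0) (nat_lit 81788) (nat_lit 14) (node (nat_lit 5)
  (nat_lit 81788) (nat_lit 15) nil nil) nil)) (node (nat_lit 0) (nat_lit 81057) (nat_lit 13) (node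
  (nat_lit 6) (nat_lit 81057) (nat_lit 14) nil (node (nat_lit 4) (nat_lit 81057) (nat_lit 14) nil
  nil)) nil)) (node (nat_lit 0) (nat_lit 78709) (nat_lit 12) (node (nat_lit 4) (nat_lit 78793)
  (nat_lit 13) (node (nat_lit 6) (nat_lit 78979) (nat_lit 14) (node (nat_lit 4) (nat_lit 78979)
  (nat_lit 15) nil (node (nat_lit 5) (nat_lit 78979) (nat_lit 15) nil nil)) (node (nat_lit 5)
  (nat_lit 78793) (nat_lit 14) (node (nat_lit 6) (nat_lit 78793) (nat_lit 15) nil nil) nil)) (node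
  (nat_lit 6) (nat_lit 78693) (nat_lit 13) (node (nat_lit 4) (nat_lit 78838) (nat_lit 14) (node
  (nat_lit 6) (nat_lit 78838) (nat_lit 15) nil (node (nat_lit 5) (nat_lit 78838) (nat_lit 15) nil
  nil)) (node (nat_lit 5) (nat_lit 78623) (nat_lit 14) (node (nat_lit 4) (nat_lit 78623) (nat_lit
  15) nil nil) nil)) (node (nat_lit 5) (nat_lit 79087) (nat_lit 13) (node (nat_lit 6) (nat_lit
  79236) (nat_lit 14) (node (nat_lit 4) (nat_lit 79236) (nat_lit 15) nil (node (nat_lit 5)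
  (nat_lit 79236) (nat_lit 15) nil nil)) (node (nat_lit 4) (nat_lit 79087) (nat_lit 14) (node
  (nat_lit 6) (nat_lit 79087) (nat_lit 15) nil nil) nil)) nil))) nil))) (node (nat_lit 0) (nat_lit
  74784) (nat_lit 11) (node (nat_lit 4) (nat_lit 74926) (nat_lit 12) (node (nat_lit 5) (nat_lit
  76061) (nat_lit 13) (node (nat_lit 6) (nat_lit 76049) (nat_lit 14) (node (nat_lit 4) (nat_lit
  76049) (nat_lit 15) nil nil) (node (nat_lit 4) (nat_lit 76061) (nat_lit 14) nil nil)) (node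
  (nat_lit 6) (nat_lit 75564) (nat_lit 13) (node (nat_lit 5) (nat_lit 75564) (nat_lit 14) nil
  (node (nat_lit 4) (nat_lit 75564) (nat_lit 14) nil nil)) nil)) (node (nat_lit 5) (nat_lit 75427)
  (nat_lit 12) (node (nat_lit 6) (nat_lit 75427) (nat_lit 13) (node (nat_lit 4) (nat_lit 75427)
  (nat_lit 14) nil nil) (node (nat_lit 4) (nat_lit 75427) (nat_lit 13) (node (nat_lit 6) (nat_lit
  75427) (nat_lit 14) nil (node (nat_lit 5) (nat_lit 75427) (nat_lit 14) nil nil)) nil)) (node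
  (nat_lit 6) (nat_lit 74860) (nat_lit 12) (node (nat_lit 4) (nat_lit 74860) (nat_lit 13) (node
  (nat_lit 6) (nat_lit 74860) (nat_lit 14) nil (node (nat_lit 5) (nat_lit 74860) (nat_lit 14) nil
  nil)) (node (nat_lit 5) (nat_lit 74860) (nat_lit 13) (node (nat_lit 4) (nat_lit 74860) (nat_lit
  14) nil nil) nil)) nil))) nil)) (node (nat_lit 6) (nat_lit 0) (nat_lit 10) (node (nat_lit 5)
  (nat_lit 0) (nat_lit 11) (node (nat_lit 4) (nat_lit 0) (nat_lit 12) (node (nat_lit 6) (nat_lit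
  0) (nat_lit 13) (node (nat_lit 4) (nat_lit 0) (nat_lit 14) (node (nat_lit 5) (nat_lit 0)
  (nat_lit 15) (node (nat_lit 4) (nat_lit 82068) (nat_lit 16) (node (nat_lit 6) (nat_lit 83301)
  (nat_lit 17) (node (nat_lit 5) (nat_lit 84180) (nat_lit 18) (node (nat_lit 4) (nat_lit 83795)
  (nat_lit 19) (node (nat_lit 5) (nat_lit 84144) (nat_lit 20) (node (nat_lit 6) (nat_lit 84050)
  (nat_lit 21) (node (nat_lit 4) (nat_lit 84151) (nat_lit 22) (node (nat_lit 6) (nat_lit 83643)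
  (nat_lit 23) (node (nat_lit 5) (nat_lit 82874) (nat_lit 24) (node (nat_lit 6) (nat_lit 81730)
  (nat_lit 25) (node (nat_lit 4) (nat_lit 80038) (nat_lit 26) (node (nat_lit 5) (nat_lit 76152)
  (nat_lit 27) (node (nat_lit 6) (nat_lit 71539) (nat_lit 28) (node (nat_lit 5) (nat_lit 71575)
  (nat_lit 29) (node (nat_lit 4) (nat_lit 71572) (nat_lit 30) nil nil) nil) nil) nil) nil) nil)
  nil) nil) nil) nil) nil) (node (nat_lit 6) (nat_lit 84510) (nat_lit 19) nil nil)) nil) nil)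
  (node (nat_lit 6) (nat_lit 0) (nat_lit 16) (node (nat_lit 4) (nat_lit 80860) (nat_lit 17) (node
  (nat_lit 6) (nat_lit 77537) (nat_lit 18) (node (nat_lit 5) (nat_lit 74834) (nat_lit 19) (node
  (nat_lit 6) (nat_lit 68840) (nat_lit 20) (node (nat_lit 4) (nat_lit 61844) (nat_lit 21) (node
  (nat_lit 5) (nat_lit 62085) (nat_lit 22) (node (nat_lit 6) (nat_lit 48067) (nat_lit 23) (node
  (nat_lit 5) (nat_lit 48055) (nat_lit 24) (node (nat_lit 4) (nat_lit 48046) (nat_lit 25) nil nil)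
  nil) nil) nil) nil) (node (nat_lit 4) (nat_lit 75373) (nat_lit 20) (node (nat_lit 5) (nat_lit
  74946) (nat_lit 21) (node (nat_lit 6) (nat_lit 74865) (nat_lit 22) nil nil) (node (nat_lit 6)
  (nat_lit 75240) (nat_lit 21) nil nil)) nil)) nil) nil) (node (nat_lit 0) (nat_lit 81202)
  (nat_lit 17) nil (node (nat_lit 5) (nat_lit 79038) (nat_lit 17) nil nil))) (node (nat_lit 0)
  (nat_lit 82731) (nat_lit 16) nil nil))) (node (nat_lit 0) (nat_lit 83353) (nat_lit 15) nil nil))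
  (node (nat_lit 5) (nat_lit 0) (nat_lit 14) (node (nat_lit 6) (nat_lit 0) (nat_lit 15) (node
  (nat_lit 4) (nat_lit 0) (nat_lit 16) (node (nat_lit 6) (nat_lit 82895) (nat_lit 17) (node
  (nat_lit 5) (nat_lit 83749) (nat_lit 18) (node (nat_lit 4) (nat_lit 83979) (nat_lit 19) (node
  (nat_lit 5) (nat_lit 83390) (nat_lit 20) (node (nat_lit 6) (nat_lit 83324) (nat_lit 21) nil nil)
  nil) nil) nil) (node (nat_lit 5) (nat_lit 82560) (nat_lit 17) (node (nat_lit 4) (nat_lit 82598)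
  (nat_lit 18) (node (nat_lit 6) (nat_lit 82511) (nat_lit 19) nil nil) nil) (node (nat_lit 0)
  (nat_lit 83401) (nat_lit 17) nil nil))) (node (nat_lit 0) (nat_lit 83481) (nat_lit 16) nil nil))
  (node (nat_lit 0) (nat_lit 81721) (nat_lit 15) nil nil)) (node (nat_lit 0) (nat_lit 82528)
  (nat_lit 14) (node (nat_lit 6) (nat_lit 82528) (nat_lit 15) nil (node (nat_lit 4) (nat_lit
  82528) (nat_lit 15) nil nil)) nil))) (node (nat_lit 5) (nat_lit 0) (nat_lit 13) (node (nat_lit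
  6) (nat_lit 0) (nat_lit 14) (node (nat_lit 4) (nat_lit 0) (nat_lit 15) (node (nat_lit 6)
  (nat_lit 0) (nat_lit 16) (node (nat_lit 5) (nat_lit 0) (nat_lit 17) (node (nat_lit 4) (nat_lit
  0) (nat_lit 18) (node (nat_lit 6) (nat_lit 0) (nat_lit 19) (node (nat_lit 4) (nat_lit 59093)
  (nat_lit 20) (node (nat_lit 5) (nat_lit 59407) (nat_lit 21) (node (nat_lit 6) (nat_lit 59486)
  (nat_lit 22) (node (nat_lit 5) (nat_lit 59406) (nat_lit 23) nil nil) (node (nat_lit 4) (nat_lit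
  59524) (nat_lit 22) (node (nat_lit 6) (nat_lit 59340) (nat_lit 23) nil nil) nil)) nil) (node
  (nat_lit 0) (nat_lit 59485) (nat_lit 20) nil nil)) (node (nat_lit 5) (nat_lit 0) (nat_lit 19)
  (node (nat_lit 6) (nat_lit 59151) (nat_lit 20) (node (nat_lit 5) (nat_lit 59509) (nat_lit 21)
  (node (nat_lit 4) (nat_lit 59595) (nat_lit 22) (node (nat_lit 6) (nat_lit 59673) (nat_lit 23)
  nil nil) nil) nil) (node (nat_lit 0) (nat_lit 59503) (nat_lit 20) nil nil)) (node (nat_lit 0)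
  (nat_lit 59455) (nat_lit 19) nil nil))) (node (nat_lit 6) (nat_lit 57684) (nat_lit 18) (node
  (nat_lit 4) (nat_lit 58157) (nat_lit 19) (node (nat_lit 5) (nat_lit 37662) (nat_lit 20) (node
  (nat_lit 6) (nat_lit 37774) (nat_lit 21) nil nil) nil) nil) (node (nat_lit 0) (nat_lit 59414)
  (nat_lit 18) nil nil))) (node (nat_lit 0) (nat_lit 58984) (nat_lit 17) nil nil)) (node (nat_lit
  5) (nat_lit 0) (nat_lit 16) (node (nat_lit 4) (nat_lit 0) (nat_lit 17) (node (nat_lit 6)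
  (nat_lit 74067) (nat_lit 18) (node (nat_lit 4) (nat_lit 74592) (nat_lit 19) (node (nat_lit 5)
  (nat_lit 74849) (nat_lit 20) (node (nat_lit 6) (nat_lit 74878) (nat_lit 21) (node (nat_lit 4)
  (nat_lit 75035) (nat_lit 22) (node (nat_lit 6) (nat_lit 74517) (nat_lit 23) (node (nat_lit 5)
  (nat_lit 73729) (nat_lit 24) (node (nat_lit 6) (nat_lit 72586) (nat_lit 25) (node (nat_lit 4)
  (nat_lit 70889) (nat_lit 26) (node (nat_lit 5) (nat_lit 67892) (nat_lit 27) (node (nat_lit 6)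
  (nat_lit 62634) (nat_lit 28) (node (nat_lit 5) (nat_lit 62662) (nat_lit 29) (node (nat_lit 4)
  (nat_lit 62677) (nat_lit 30) nil nil) nil) nil) nil) nil) nil) nil) nil) nil) nil) nil) (node
  (nat_lit 5) (nat_lit 74727) (nat_lit 19) (node (nat_lit 6) (nat_lit 75074) (nat_lit 20) nil
  (node (nat_lit 4) (nat_lit 75162) (nat_lit 20) (node (nat_lit 5) (nat_lit 75486) (nat_lit 21)
  (node (nat_lit 6) (nat_lit 74575) (nat_lit 22) nil nil) nil) nil)) nil)) (node (nat_lit 0)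
  (nat_lit 74511) (nat_lit 18) nil nil)) (node (nat_lit 0) (nat_lit 74493) (nat_lit 17) nil nil))
  (node (nat_lit 0) (nat_lit 74107) (nat_lit 16) nil nil))) (node (nat_lit 0) (nat_lit 77230)
  (nat_lit 15) nil nil)) (node (nat_lit 0) (nat_lit 78049) (nat_lit 14) (node (nat_lit 4) (nat_lit
  78049) (nat_lit 15) nil nil) nil)) (node (nat_lit 0) (nat_lit 81087) (nat_lit 13) (node (nat_lit
  5) (nat_lit 81087) (nat_lit 14) (node (nat_lit 4) (nat_lit 81087) (nat_lit 15) nil nil) (node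
  (nat_lit 4) (nat_lit 81087) (nat_lit 14) (node (nat_lit 5) (nat_lit 81087) (nat_lit 15) nil
  (node (nat_lit 6) (nat_lit 81087) (nat_lit 15) nil nil)) (node (nat_lit 6) (nat_lit 81087)
  (nat_lit 14) nil nil))) nil))) (node (nat_lit 0) (nat_lit 78723) (nat_lit 12) (node (nat_lit 6)
  (nat_lit 78670) (nat_lit 13) (node (nat_lit 5) (nat_lit 79144) (nat_lit 14) (node (nat_lit 4)
  (nat_lit 79191) (nat_lit 15) (node (nat_lit 6) (nat_lit 79191) (nat_lit 16) nil (node (nat_lit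
  5) (nat_lit 79191) (nat_lit 16) nil nil)) (node (nat_lit 6) (nat_lit 79140) (nat_lit 15) (node
  (nat_lit 4) (nat_lit 79140) (nat_lit 16) nil nil) nil)) (node (nat_lit 4) (nat_lit 78816)
  (nat_lit 14) (node (nat_lit 5) (nat_lit 78816) (nat_lit 15) nil (node (nat_lit 6) (nat_lit
  78816) (nat_lit 15) nil nil)) nil)) (node (nat_lit 5) (nat_lit 79027) (nat_lit 13) (node
  (nat_lit 6) (nat_lit 79176) (nat_lit 14) (node (nat_lit 4) (nat_lit 79176) (nat_lit 15) nil nil)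
  (node (nat_lit 4) (nat_lit 79431) (nat_lit 14) (node (nat_lit 6) (nat_lit 79431) (nat_lit 15)
  nil nil) nil)) (node (nat_lit 4) (nat_lit 78886) (nat_lit 13) (node (nat_lit 5) (nat_lit 78886)
  (nat_lit 14) (node (nat_lit 4) (nat_lit 78886) (nat_lit 15) nil (node (nat_lit 6) (nat_lit
  78886) (nat_lit 15) nil nil)) (node (nat_lit 6) (nat_lit 78886) (nat_lit 14) (node (nat_lit 5)
  (nat_lit 78886) (nat_lit 15) nil nil) nil)) (node (nat_lit 0) (nat_lit 79263) (nat_lit 13) nil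
  nil)))) nil)) (node (nat_lit 0) (nat_lit 0) (nat_lit 11) (node (nat_lit 6) (nat_lit 75265)
  (nat_lit 12) (node (nat_lit 4) (nat_lit 76695) (nat_lit 13) (node (nat_lit 5) (nat_lit 77692)
  (nat_lit 14) (node (nat_lit 6) (nat_lit 78005) (nat_lit 15) nil (node (nat_lit 4) (nat_lit
  77444) (nat_lit 15) nil nil)) (node (nat_lit 6) (nat_lit 77521) (nat_lit 14) (node (nat_lit 5)
  (nat_lit 77521) (nat_lit 15) nil nil) nil)) (node (nat_lit 5) (nat_lit 76619) (nat_lit 13) (node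
  (nat_lit 4) (nat_lit 77872) (nat_lit 14) (node (nat_lit 6) (nat_lit 78425) (nat_lit 15) nil
  (node (nat_lit 5) (nat_lit 77872) (nat_lit 15) nil nil)) (node (nat_lit 6) (nat_lit 76864)
  (nat_lit 14) (node (nat_lit 4) (nat_lit 76864) (nat_lit 15) nil nil) (node (nat_lit 14) (nat_lit
  78273) (nat_lit 14) nil nil))) (node (nat_lit 0) (nat_lit 77052) (nat_lit 13) nil nil))) (node
  (nat_lit 5) (nat_lit 75613) (nat_lit 12) (node (nat_lit 6) (nat_lit 76112) (nat_lit 13) (node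
  (nat_lit 5) (nat_lit 76777) (nat_lit 14) (node (nat_lit 4) (nat_lit 77329) (nat_lit 15) (node
  (nat_lit 6) (nat_lit 78021) (nat_lit 16) nil (node (nat_lit 5) (nat_lit 78021) (nat_lit 16) nil
  nil)) nil) (node (nat_lit 4) (nat_lit 75983) (nat_lit 14) (node (nat_lit 6) (nat_lit 76535)
  (nat_lit 15) (node (nat_lit 5) (nat_lit 77228) (nat_lit 16) nil nil) nil) nil)) (node (nat_lit
  4) (nat_lit 76295) (nat_lit 13) (node (nat_lit 6) (nat_lit 76295) (nat_lit 14) nil (node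
  (nat_lit 5) (nat_lit 76716) (nat_lit 14) (node (nat_lit 6) (nat_lit 76716) (nat_lit 15) nil nil)
  nil)) (node (nat_lit 14) (nat_lit 76845) (nat_lit 13) nil nil))) (node (nat_lit 4) (nat_lit
  75440) (nat_lit 12) (node (nat_lit 6) (nat_lit 75942) (nat_lit 13) (node (nat_lit 4) (nat_lit
  76375) (nat_lit 14) (node (nat_lit 5) (nat_lit 75882) (nat_lit 15) (node (nat_lit 6) (nat_lit
  75946) (nat_lit 16) nil (node (nat_lit 4) (nat_lit 75833) (nat_lit 16) nil nil)) nil) (node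
  (nat_lit 5) (nat_lit 75942) (nat_lit 14) (node (nat_lit 6) (nat_lit 75942) (nat_lit 15) nil nil)
  nil)) (node (nat_lit 5) (nat_lit 76327) (nat_lit 13) (node (nat_lit 6) (nat_lit 76327) (nat_lit
  14) (node (nat_lit 5) (nat_lit 76327) (nat_lit 15) nil (node (nat_lit 4) (nat_lit 76327)
  (nat_lit 15) nil nil)) (node (nat_lit 4) (nat_lit 76748) (nat_lit 14) (node (nat_lit 6) (nat_lit
  76748) (nat_lit 15) nil nil) nil)) (node (nat_lit 14) (nat_lit 77228) (nat_lit 13) nil nil)))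
  (node (nat_lit 0) (nat_lit 76623) (nat_lit 12) nil nil)))) nil)) (node (nat_lit 0) (nat_lit 0)
  (nat_lit 10) (node (nat_lit 4) (nat_lit 71606) (nat_lit 11) (node (nat_lit 5) (nat_lit 73294)
  (nat_lit 12) (node (nat_lit 6) (nat_lit 73018) (nat_lit 13) (node (nat_lit 4) (nat_lit 72992)
  (nat_lit 14) (node (nat_lit 6) (nat_lit 73069) (nat_lit 15) nil nil) (node (nat_lit 5) (nat_lit
  73096) (nat_lit 14) (node (nat_lit 4) (nat_lit 73026) (nat_lit 15) nil nil) nil)) (node (nat_lit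
  4) (nat_lit 74995) (nat_lit 13) (node (nat_lit 6) (nat_lit 76365) (nat_lit 14) (node (nat_lit 5)
  (nat_lit 77563) (nat_lit 15) nil (node (nat_lit 4) (nat_lit 77251) (nat_lit 15) nil nil)) nil)
  nil)) (node (nat_lit 6) (nat_lit 72886) (nat_lit 12) (node (nat_lit 5) (nat_lit 73738) (nat_lit
  13) (node (nat_lit 6) (nat_lit 74444) (nat_lit 14) (node (nat_lit 4) (nat_lit 75330) (nat_lit
  15) nil nil) (node (nat_lit 4) (nat_lit 73738) (nat_lit 14) nil nil)) (node (nat_lit 4) (nat_lit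
  73441) (nat_lit 13) (node (nat_lit 5) (nat_lit 73492) (nat_lit 14) (node (nat_lit 6) (nat_lit
  73569) (nat_lit 15) nil (node (nat_lit 4) (nat_lit 73422) (nat_lit 15) nil nil)) nil) nil))
  (node (nat_lit 13) (nat_lit 75403) (nat_lit 12) nil nil))) (node (nat_lit 6) (nat_lit 71384)
  (nat_lit 11) (node (nat_lit 4) (nat_lit 73134) (nat_lit 12) (node (nat_lit 5) (nat_lit 73741)
  (nat_lit 13) (node (nat_lit 6) (nat_lit 74252) (nat_lit 14) nil (node (nat_lit 4) (nat_lit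
  73715) (nat_lit 14) nil nil)) (node (nat_lit 6) (nat_lit 74476) (nat_lit 13) (node (nat_lit 5)
  (nat_lit 74975) (nat_lit 14) (node (nat_lit 4) (nat_lit 75218) (nat_lit 15) nil (node (nat_lit
  6) (nat_lit 75861) (nat_lit 15) nil nil)) nil) nil)) (node (nat_lit 5) (nat_lit 73065) (nat_lit
  12) (node (nat_lit 4) (nat_lit 73436) (nat_lit 13) (node (nat_lit 6) (nat_lit 73436) (nat_lit
  14) nil (node (nat_lit 5) (nat_lit 73436) (nat_lit 14) nil nil)) (node (nat_lit 6) (nat_lit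
  73816) (nat_lit 13) (node (nat_lit 4) (nat_lit 74318) (nat_lit 14) (node (nat_lit 5) (nat_lit
  74955) (nat_lit 15) nil (node (nat_lit 6) (nat_lit 74707) (nat_lit 15) nil nil)) nil) nil))
  (node (nat_lit 13) (nat_lit 75737) (nat_lit 12) nil nil))) (node (nat_lit 5) (nat_lit 71544)
  (nat_lit 11) (node (nat_lit 6) (nat_lit 73104) (nat_lit 12) (node (nat_lit 4) (nat_lit 74747)
  (nat_lit 13) (node (nat_lit 6) (nat_lit 75874) (nat_lit 14) (node (nat_lit 5) (nat_lit 76760)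
  (nat_lit 15) nil nil) (node (nat_lit 5) (nat_lit 74082) (nat_lit 14) nil nil)) (node (nat_lit 5)
  (nat_lit 74477) (nat_lit 13) (node (nat_lit 4) (nat_lit 74875) (nat_lit 14) nil nil) nil)) (node
  (nat_lit 4) (nat_lit 73436) (nat_lit 12) (node (nat_lit 6) (nat_lit 74527) (nat_lit 13) (node
  (nat_lit 4) (nat_lit 74527) (nat_lit 14) nil (node (nat_lit 5) (nat_lit 74925) (nat_lit 14) nil
  nil)) (node (nat_lit 5) (nat_lit 74522) (nat_lit 13) (node (nat_lit 6) (nat_lit 74522) (nat_lit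
  14) nil nil) nil)) nil)) (node (nat_lit 0) (nat_lit 74721) (nat_lit 11) nil nil)))) nil)))

noncomputable def t309 : Tr :=
  (node (nat_lit 6) (nat_lit 0) (nat_lit 7) (node (nat_lit 4) (nat_lit 0) (nat_lit 8) (node
  (nat_lit 5) (nat_lit 0) (nat_lit 9) t308 (node (nat_lit 0) (nat_lit 63658) (nat_lit 9) (node
  (nat_lit 5) (nat_lit 65504) (nat_lit 10) (node (nat_lit 6) (nat_lit 68116) (nat_lit 11) (node
  (nat_lit 4) (nat_lit 68360) (nat_lit 12) (node (nat_lit 6) (nat_lit 69265) (nat_lit 13) (node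
  (nat_lit 5) (nat_lit 70401) (nat_lit 14) nil nil) (node (nat_lit 5) (nat_lit 68726) (nat_lit 13)
  nil nil)) (node (nat_lit 5) (nat_lit 70050) (nat_lit 12) nil nil)) (node (nat_lit 4) (nat_lit
  68281) (nat_lit 11) (node (nat_lit 6) (nat_lit 69666) (nat_lit 12) (node (nat_lit 4) (nat_lit
  70571) (nat_lit 13) nil (node (nat_lit 5) (nat_lit 70571) (nat_lit 13) nil nil)) (node (nat_lit
  5) (nat_lit 70208) (nat_lit 12) nil nil)) (node (nat_lit 12) (nat_lit 73559) (nat_lit 11) nil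
  nil))) (node (nat_lit 4) (nat_lit 65381) (nat_lit 10) (node (nat_lit 5) (nat_lit 68351) (nat_lit
  11) (node (nat_lit 6) (nat_lit 70413) (nat_lit 12) (node (nat_lit 5) (nat_lit 71363) (nat_lit
  13) (node (nat_lit 4) (nat_lit 71307) (nat_lit 14) nil nil) (node (nat_lit 4) (nat_lit 70665)
  (nat_lit 13) nil nil)) (node (nat_lit 4) (nat_lit 70284) (nat_lit 12) nil nil)) (node (nat_lit
  6) (nat_lit 67875) (nat_lit 11) (node (nat_lit 5) (nat_lit 69258) (nat_lit 12) (node (nat_lit 6)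
  (nat_lit 69258) (nat_lit 13) nil (node (nat_lit 4) (nat_lit 69258) (nat_lit 13) nil nil)) (node
  (nat_lit 4) (nat_lit 69525) (nat_lit 12) (node (nat_lit 5) (nat_lit 69525) (nat_lit 13) nil nil)
  nil)) nil)) (node (nat_lit 6) (nat_lit 65448) (nat_lit 10) (node (nat_lit 5) (nat_lit 67755)
  (nat_lit 11) (node (nat_lit 4) (nat_lit 69816) (nat_lit 12) (node (nat_lit 5) (nat_lit 69778)
  (nat_lit 13) nil (node (nat_lit 6) (nat_lit 71261) (nat_lit 13) nil nil)) (node (nat_lit 6)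
  (nat_lit 68546) (nat_lit 12) nil nil)) (node (nat_lit 4) (nat_lit 68280) (nat_lit 11) (node
  (nat_lit 5) (nat_lit 69032) (nat_lit 12) (node (nat_lit 4) (nat_lit 69032) (nat_lit 13) nil
  (node (nat_lit 6) (nat_lit 69936) (nat_lit 13) nil nil)) (node (nat_lit 6) (nat_lit 70124)
  (nat_lit 12) nil nil)) (node (nat_lit 12) (nat_lit 72948) (nat_lit 11) nil nil))) nil))) nil))
  nil) (node (nat_lit 4) (nat_lit 0) (nat_lit 7) (node (nat_lit 6) (nat_lit 0) (nat_lit 8) (node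
  (nat_lit 4) (nat_lit 0) (nat_lit 9) (node (nat_lit 5) (nat_lit 0) (nat_lit 10) (node (nat_lit 6)
  (nat_lit 0) (nat_lit 11) (node (nat_lit 5) (nat_lit 0) (nat_lit 12) (node (nat_lit 4) (nat_lit
  0) (nat_lit 13) (node (nat_lit 5) (nat_lit 0) (nat_lit 14) (node (nat_lit 6) (nat_lit 59620)
  (nat_lit 15) (node (nat_lit 4) (nat_lit 57830) (nat_lit 16) (node (nat_lit 6) (nat_lit 0)
  (nat_lit 17) (node (nat_lit 5) (nat_lit 46882) (nat_lit 18) (node (nat_lit 4) (nat_lit 39739)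
  (nat_lit 19) (node (nat_lit 6) (nat_lit 39706) (nat_lit 20) (node (nat_lit 4) (nat_lit 39890)
  (nat_lit 21) (node (nat_lit 5) (nat_lit 26321) (nat_lit 22) (node (nat_lit 6) (nat_lit 26061)
  (nat_lit 23) nil nil) nil) nil) (node (nat_lit 5) (nat_lit 40171) (nat_lit 20) (node (nat_lit 6)
  (nat_lit 40509) (nat_lit 21) nil nil) nil)) (node (nat_lit 6) (nat_lit 47417) (nat_lit 19) (node
  (nat_lit 4) (nat_lit 47607) (nat_lit 20) (node (nat_lit 5) (nat_lit 47808) (nat_lit 21) nil nil)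
  nil) nil)) (node (nat_lit 0) (nat_lit 48003) (nat_lit 18) nil nil)) (node (nat_lit 5) (nat_lit
  58610) (nat_lit 17) (node (nat_lit 4) (nat_lit 58491) (nat_lit 18) (node (nat_lit 6) (nat_lit
  58403) (nat_lit 19) nil nil) nil) nil)) nil) (node (nat_lit 0) (nat_lit 62039) (nat_lit 15) nil
  nil)) (node (nat_lit 6) (nat_lit 0) (nat_lit 14) (node (nat_lit 5) (nat_lit 0) (nat_lit 15)
  (node (nat_lit 6) (nat_lit 62574) (nat_lit 16) (node (nat_lit 4) (nat_lit 63410) (nat_lit 17)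
  (node (nat_lit 6) (nat_lit 63464) (nat_lit 18) (node (nat_lit 5) (nat_lit 63593) (nat_lit 19)
  (node (nat_lit 4) (nat_lit 63426) (nat_lit 20) nil nil) nil) nil) nil) (node (nat_lit 0)
  (nat_lit 63523) (nat_lit 16) nil nil)) (node (nat_lit 4) (nat_lit 0) (nat_lit 15) (node (nat_lit
  0) (nat_lit 62185) (nat_lit 16) nil nil) (node (nat_lit 0) (nat_lit 61766) (nat_lit 15) nil
  nil))) (node (nat_lit 0) (nat_lit 62731) (nat_lit 14) nil nil))) (node (nat_lit 0) (nat_lit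
  61958) (nat_lit 13) (node (nat_lit 6) (nat_lit 61958) (nat_lit 14) nil nil) nil)) (node (nat_lit
  4) (nat_lit 0) (nat_lit 12) (node (nat_lit 6) (nat_lit 0) (nat_lit 13) (node (nat_lit 5)
  (nat_lit 0) (nat_lit 14) (node (nat_lit 4) (nat_lit 36680) (nat_lit 15) (node (nat_lit 5)
  (nat_lit 37146) (nat_lit 16) (node (nat_lit 6) (nat_lit 37792) (nat_lit 17) (node (nat_lit 4)
  (nat_lit 38240) (nat_lit 18) (node (nat_lit 6) (nat_lit 38666) (nat_lit 19) nil nil) (node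
  (nat_lit 5) (nat_lit 37385) (nat_lit 18) nil nil)) nil) nil) (node (nat_lit 6) (nat_lit 36762)
  (nat_lit 15) (node (nat_lit 4) (nat_lit 37622) (nat_lit 16) (node (nat_lit 5) (nat_lit 38052)
  (nat_lit 17) (node (nat_lit 4) (nat_lit 38131) (nat_lit 18) nil nil) nil) nil) (node (nat_lit 0)
  (nat_lit 37642) (nat_lit 15) nil nil))) (node (nat_lit 0) (nat_lit 37642) (nat_lit 14) nil nil))
  (node (nat_lit 0) (nat_lit 46779) (nat_lit 13) nil nil)) (node (nat_lit 0) (nat_lit 59878)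
  (nat_lit 12) (node (nat_lit 5) (nat_lit 59878) (nat_lit 13) nil (node (nat_lit 4) (nat_lit
  59878) (nat_lit 13) nil (node (nat_lit 6) (nat_lit 59878) (nat_lit 13) (node (nat_lit 5)
  (nat_lit 59878) (nat_lit 14) nil (node (nat_lit 4) (nat_lit 59878) (nat_lit 14) nil nil)) nil)))
  nil))) (node (nat_lit 4) (nat_lit 0) (nat_lit 11) (node (nat_lit 6) (nat_lit 0) (nat_lit 12)
  (node (nat_lit 5) (nat_lit 0) (nat_lit 13) (node (nat_lit 4) (nat_lit 0) (nat_lit 14) (node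
  (nat_lit 5) (nat_lit 0) (nat_lit 15) (node (nat_lit 6) (nat_lit 60208) (nat_lit 16) (node
  (nat_lit 4) (nat_lit 57579) (nat_lit 17) (node (nat_lit 6) (nat_lit 53685) (nat_lit 18) (node
  (nat_lit 5) (nat_lit 51304) (nat_lit 19) (node (nat_lit 4) (nat_lit 51351) (nat_lit 20) (node
  (nat_lit 6) (nat_lit 51581) (nat_lit 21) (node (nat_lit 4) (nat_lit 51675) (nat_lit 22) (node
  (nat_lit 5) (nat_lit 51782) (nat_lit 23) (node (nat_lit 4) (nat_lit 25863) (nat_lit 24) nil nil)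
  nil) nil) nil) (node (nat_lit 6) (nat_lit 51560) (nat_lit 20) nil nil)) nil) (node (nat_lit 5)
  (nat_lit 58000) (nat_lit 18) nil nil)) (node (nat_lit 5) (nat_lit 61250) (nat_lit 17) (node
  (nat_lit 4) (nat_lit 61572) (nat_lit 18) nil nil) nil)) (node (nat_lit 0) (nat_lit 63291)
  (nat_lit 16) nil nil)) (node (nat_lit 0) (nat_lit 61970) (nat_lit 15) nil nil)) (node (nat_lit
  6) (nat_lit 0) (nat_lit 14) (node (nat_lit 4) (nat_lit 61563) (nat_lit 15) (node (nat_lit 6)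
  (nat_lit 63464) (nat_lit 16) (node (nat_lit 5) (nat_lit 64881) (nat_lit 17) (node (nat_lit 4)
  (nat_lit 65802) (nat_lit 18) (node (nat_lit 6) (nat_lit 66559) (nat_lit 19) (node (nat_lit 4)
  (nat_lit 66953) (nat_lit 20) (node (nat_lit 5) (nat_lit 67284) (nat_lit 21) nil nil) nil) (node
  (nat_lit 5) (nat_lit 64896) (nat_lit 19) nil nil)) nil) nil) (node (nat_lit 5) (nat_lit 62038)
  (nat_lit 16) (node (nat_lit 6) (nat_lit 62098) (nat_lit 17) nil (node (nat_lit 4) (nat_lit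
  62011) (nat_lit 17) nil nil)) nil)) (node (nat_lit 0) (nat_lit 62119) (nat_lit 15) nil nil))
  (node (nat_lit 0) (nat_lit 60734) (nat_lit 14) nil nil))) (node (nat_lit 0) (nat_lit 60813)
  (nat_lit 13) nil nil)) (node (nat_lit 0) (nat_lit 59508) (nat_lit 12) (node (nat_lit 5) (nat_lit
  59508) (nat_lit 13) nil (node (nat_lit 4) (nat_lit 59508) (nat_lit 13) nil nil)) nil)) (node
  (nat_lit 0) (nat_lit 56717) (nat_lit 11) (node (nat_lit 5) (nat_lit 56717) (nat_lit 12) (node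
  (nat_lit 4) (nat_lit 56717) (nat_lit 13) nil (node (nat_lit 6) (nat_lit 56717) (nat_lit 13) nil
  nil)) (node (nat_lit 4) (nat_lit 56717) (nat_lit 12) (node (nat_lit 5) (nat_lit 56717) (nat_lit
  13) nil (node (nat_lit 6) (nat_lit 56717) (nat_lit 13) nil nil)) (node (nat_lit 6) (nat_lit
  56717) (nat_lit 12) (node (nat_lit 5) (nat_lit 56717) (nat_lit 13) nil (node (nat_lit 4)
  (nat_lit 56717) (nat_lit 13) nil nil)) nil))) nil))) (node (nat_lit 0) (nat_lit 52117) (nat_lit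
  10) (node (nat_lit 5) (nat_lit 52565) (nat_lit 11) (node (nat_lit 6) (nat_lit 52670) (nat_lit
  12) (node (nat_lit 4) (nat_lit 52482) (nat_lit 13) (node (nat_lit 6) (nat_lit 52482) (nat_lit
  14) nil (node (nat_lit 5) (nat_lit 52482) (nat_lit 14) nil nil)) (node (nat_lit 5) (nat_lit
  52670) (nat_lit 13) nil nil)) (node (nat_lit 4) (nat_lit 53463) (nat_lit 12) (node (nat_lit 5)
  (nat_lit 54003) (nat_lit 13) (node (nat_lit 6) (nat_lit 54003) (nat_lit 14) nil nil) (node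
  (nat_lit 6) (nat_lit 53463) (nat_lit 13) nil nil)) (node (nat_lit 13) (nat_lit 54143) (nat_lit
  12) nil nil))) (node (nat_lit 6) (nat_lit 52781) (nat_lit 11) (node (nat_lit 5) (nat_lit 53253)
  (nat_lit 12) (node (nat_lit 4) (nat_lit 53623) (nat_lit 13) (node (nat_lit 5) (nat_lit 53623)
  (nat_lit 14) nil (node (nat_lit 6) (nat_lit 53623) (nat_lit 14) nil nil)) (node (nat_lit 6)
  (nat_lit 53253) (nat_lit 13) nil nil)) (node (nat_lit 4) (nat_lit 53547) (nat_lit 12) (node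
  (nat_lit 5) (nat_lit 53547) (nat_lit 13) (node (nat_lit 4) (nat_lit 53547) (nat_lit 14) nil nil)
  (node (nat_lit 6) (nat_lit 53547) (nat_lit 13) (node (nat_lit 5) (nat_lit 53547) (nat_lit 14)
  nil nil) nil)) (node (nat_lit 13) (nat_lit 54359) (nat_lit 12) nil nil))) (node (nat_lit 4)
  (nat_lit 52246) (nat_lit 11) (node (nat_lit 6) (nat_lit 52297) (nat_lit 12) (node (nat_lit 5)
  (nat_lit 52297) (nat_lit 13) nil (node (nat_lit 4) (nat_lit 52297) (nat_lit 13) nil nil)) (node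
  (nat_lit 5) (nat_lit 52724) (nat_lit 12) (node (nat_lit 6) (nat_lit 52724) (nat_lit 13) nil
  (node (nat_lit 4) (nat_lit 52724) (nat_lit 13) nil nil)) nil)) (node (nat_lit 0) (nat_lit 53708)
  (nat_lit 11) nil nil)))) nil)) (node (nat_lit 0) (nat_lit 0) (nat_lit 9) (node (nat_lit 4)
  (nat_lit 51850) (nat_lit 10) (node (nat_lit 5) (nat_lit 52435) (nat_lit 11) (node (nat_lit 6)
  (nat_lit 52435) (nat_lit 12) nil (node (nat_lit 4) (nat_lit 52435) (nat_lit 12) nil nil)) (node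
  (nat_lit 6) (nat_lit 52335) (nat_lit 11) (node (nat_lit 5) (nat_lit 52335) (nat_lit 12) nil
  (node (nat_lit 4) (nat_lit 52400) (nat_lit 12) nil nil)) nil)) (node (nat_lit 5) (nat_lit 51753)
  (nat_lit 10) (node (nat_lit 4) (nat_lit 52906) (nat_lit 11) (node (nat_lit 6) (nat_lit 52906)
  (nat_lit 12) nil (node (nat_lit 5) (nat_lit 52906) (nat_lit 12) nil nil)) (node (nat_lit 6)
  (nat_lit 52244) (nat_lit 11) (node (nat_lit 4) (nat_lit 52244) (nat_lit 12) nil (node (nat_lit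
  5) (nat_lit 52244) (nat_lit 12) nil nil)) nil)) (node (nat_lit 6) (nat_lit 51620) (nat_lit 10)
  (node (nat_lit 4) (nat_lit 52588) (nat_lit 11) (node (nat_lit 5) (nat_lit 52588) (nat_lit 12)
  nil (node (nat_lit 6) (nat_lit 52588) (nat_lit 12) nil nil)) (node (nat_lit 5) (nat_lit 52768)
  (nat_lit 11) (node (nat_lit 4) (nat_lit 52768) (nat_lit 12) nil (node (nat_lit 6) (nat_lit
  52768) (nat_lit 12) nil nil)) nil)) (node (nat_lit 0) (nat_lit 53904) (nat_lit 10) nil nil))))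
  nil)) (node (nat_lit 5) (nat_lit 0) (nat_lit 8) (node (nat_lit 6) (nat_lit 0) (nat_lit 9) (node
  (nat_lit 4) (nat_lit 0) (nat_lit 10) (node (nat_lit 5) (nat_lit 0) (nat_lit 11) (node (nat_lit
  4) (nat_lit 0) (nat_lit 12) (node (nat_lit 6) (nat_lit 0) (nat_lit 13) (node (nat_lit 4)
  (nat_lit 35237) (nat_lit 14) (node (nat_lit 5) (nat_lit 35969) (nat_lit 15) (node (nat_lit 6)
  (nat_lit 36007) (nat_lit 16) (node (nat_lit 5) (nat_lit 36625) (nat_lit 17) (node (nat_lit 4)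
  (nat_lit 36540) (nat_lit 18) (node (nat_lit 5) (nat_lit 36723) (nat_lit 19) (node (nat_lit 6)
  (nat_lit 36865) (nat_lit 20) (node (nat_lit 4) (nat_lit 36977) (nat_lit 21) (node (nat_lit 6)
  (nat_lit 37064) (nat_lit 22) (node (nat_lit 5) (nat_lit 37131) (nat_lit 23) (node (nat_lit 4)
  (nat_lit 37088) (nat_lit 24) (node (nat_lit 5) (nat_lit 37129) (nat_lit 25) (node (nat_lit 6)
  (nat_lit 37161) (nat_lit 26) nil nil) nil) nil) nil) nil) nil) nil) nil) nil) (node (nat_lit 4)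
  (nat_lit 28565) (nat_lit 17) (node (nat_lit 6) (nat_lit 24179) (nat_lit 18) (node (nat_lit 5)
  (nat_lit 24533) (nat_lit 19) (node (nat_lit 4) (nat_lit 24759) (nat_lit 20) (node (nat_lit 5)
  (nat_lit 24948) (nat_lit 21) (node (nat_lit 6) (nat_lit 25117) (nat_lit 22) nil nil) nil) (node
  (nat_lit 6) (nat_lit 24676) (nat_lit 20) nil nil)) nil) nil) nil)) nil) nil) (node (nat_lit 5)
  (nat_lit 0) (nat_lit 14) (node (nat_lit 6) (nat_lit 35969) (nat_lit 15) (node (nat_lit 4)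
  (nat_lit 36542) (nat_lit 16) (node (nat_lit 6) (nat_lit 36842) (nat_lit 17) (node (nat_lit 5)
  (nat_lit 37076) (nat_lit 18) (node (nat_lit 4) (nat_lit 36926) (nat_lit 19) (node (nat_lit 5)
  (nat_lit 37068) (nat_lit 20) (node (nat_lit 6) (nat_lit 37180) (nat_lit 21) (node (nat_lit 4)
  (nat_lit 37267) (nat_lit 22) (node (nat_lit 6) (nat_lit 37334) (nat_lit 23) (node (nat_lit 5)
  (nat_lit 37388) (nat_lit 24) nil nil) nil) nil) nil) nil) nil) nil) nil) nil) (node (nat_lit 4)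
  (nat_lit 35969) (nat_lit 15) (node (nat_lit 5) (nat_lit 36542) (nat_lit 16) (node (nat_lit 6)
  (nat_lit 36842) (nat_lit 17) (node (nat_lit 4) (nat_lit 37076) (nat_lit 18) (node (nat_lit 6)
  (nat_lit 37259) (nat_lit 19) (node (nat_lit 5) (nat_lit 37402) (nat_lit 20) (node (nat_lit 4)
  (nat_lit 37312) (nat_lit 21) (node (nat_lit 5) (nat_lit 37399) (nat_lit 22) nil nil) nil) nil)
  nil) (node (nat_lit 5) (nat_lit 37076) (nat_lit 18) nil nil)) nil) nil) (node (nat_lit 0)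
  (nat_lit 36832) (nat_lit 15) nil nil))) (node (nat_lit 0) (nat_lit 36860) (nat_lit 14) nil
  nil))) (node (nat_lit 0) (nat_lit 36842) (nat_lit 13) nil nil)) (node (nat_lit 0) (nat_lit
  35513) (nat_lit 12) nil nil)) (node (nat_lit 0) (nat_lit 34126) (nat_lit 11) (node (nat_lit 6)
  (nat_lit 34126) (nat_lit 12) nil nil) (node (nat_lit 6) (nat_lit 0) (nat_lit 11) (node (nat_lit
  0) (nat_lit 35470) (nat_lit 12) nil nil) nil))) (node (nat_lit 5) (nat_lit 0) (nat_lit 10) (node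
  (nat_lit 4) (nat_lit 0) (nat_lit 11) (node (nat_lit 6) (nat_lit 0) (nat_lit 12) (node (nat_lit
  4) (nat_lit 0) (nat_lit 13) (node (nat_lit 5) (nat_lit 0) (nat_lit 14) (node (nat_lit 6)
  (nat_lit 0) (nat_lit 15) (node (nat_lit 5) (nat_lit 54954) (nat_lit 16) (node (nat_lit 4)
  (nat_lit 55013) (nat_lit 17) (node (nat_lit 5) (nat_lit 55440) (nat_lit 18) (node (nat_lit 6)
  (nat_lit 55212) (nat_lit 19) (node (nat_lit 4) (nat_lit 54763) (nat_lit 20) (node (nat_lit 6)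
  (nat_lit 54131) (nat_lit 21) (node (nat_lit 5) (nat_lit 52061) (nat_lit 22) (node (nat_lit 4)
  (nat_lit 49154) (nat_lit 23) (node (nat_lit 5) (nat_lit 42360) (nat_lit 24) (node (nat_lit 6)
  (nat_lit 36046) (nat_lit 25) (node (nat_lit 5) (nat_lit 32669) (nat_lit 26) (node (nat_lit 4)
  (nat_lit 32647) (nat_lit 27) (node (nat_lit 6) (nat_lit 32654) (nat_lit 28) (node (nat_lit 4)
  (nat_lit 32654) (nat_lit 29) (node (nat_lit 5) (nat_lit 32659) (nat_lit 30) (node (nat_lit 6)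
  (nat_lit 32626) (nat_lit 31) nil nil) nil) nil) nil) nil) nil) nil) nil) nil) nil) nil) nil)
  nil) nil) nil) (node (nat_lit 4) (nat_lit 0) (nat_lit 16) (node (nat_lit 6) (nat_lit 48641)
  (nat_lit 17) (node (nat_lit 5) (nat_lit 44210) (nat_lit 18) (node (nat_lit 4) (nat_lit 43741)
  (nat_lit 19) (node (nat_lit 5) (nat_lit 37033) (nat_lit 20) (node (nat_lit 6) (nat_lit 23024)
  (nat_lit 21) nil nil) nil) (node (nat_lit 6) (nat_lit 44630) (nat_lit 19) (node (nat_lit 4)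
  (nat_lit 44886) (nat_lit 20) nil nil) nil)) nil) (node (nat_lit 0) (nat_lit 49186) (nat_lit 17)
  nil nil)) (node (nat_lit 0) (nat_lit 57582) (nat_lit 16) nil nil))) (node (nat_lit 4) (nat_lit
  57738) (nat_lit 15) (node (nat_lit 6) (nat_lit 59235) (nat_lit 16) (node (nat_lit 5) (nat_lit
  60317) (nat_lit 17) (node (nat_lit 6) (nat_lit 60738) (nat_lit 18) nil (node (nat_lit 4)
  (nat_lit 59562) (nat_lit 18) nil nil)) nil) nil) (node (nat_lit 0) (nat_lit 58562) (nat_lit 15)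
  nil nil))) (node (nat_lit 0) (nat_lit 57350) (nat_lit 14) nil nil)) (node (nat_lit 5) (nat_lit
  0) (nat_lit 13) (node (nat_lit 6) (nat_lit 56309) (nat_lit 14) (node (nat_lit 4) (nat_lit 57589)
  (nat_lit 15) (node (nat_lit 6) (nat_lit 0) (nat_lit 16) (node (nat_lit 5) (nat_lit 59457)
  (nat_lit 17) (node (nat_lit 4) (nat_lit 59530) (nat_lit 18) (node (nat_lit 5) (nat_lit 59964)
  (nat_lit 19) (node (nat_lit 6) (nat_lit 60332) (nat_lit 20) (node (nat_lit 4) (nat_lit 60636)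
  (nat_lit 21) (node (nat_lit 6) (nat_lit 60874) (nat_lit 22) (node (nat_lit 5) (nat_lit 61059)
  (nat_lit 23) nil nil) nil) nil) nil) nil) nil) (node (nat_lit 0) (nat_lit 60385) (nat_lit 17)
  nil nil)) (node (nat_lit 5) (nat_lit 58097) (nat_lit 16) (node (nat_lit 4) (nat_lit 58069)
  (nat_lit 17) (node (nat_lit 6) (nat_lit 57950) (nat_lit 18) nil nil) nil) nil)) nil) (node
  (nat_lit 0) (nat_lit 57493) (nat_lit 14) nil nil)) (node (nat_lit 0) (nat_lit 55185) (nat_lit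
  13) nil nil))) (node (nat_lit 0) (nat_lit 56365) (nat_lit 12) nil nil)) (node (nat_lit 0)
  (nat_lit 54506) (nat_lit 11) nil nil)) (node (nat_lit 0) (nat_lit 51885) (nat_lit 10) (node
  (nat_lit 5) (nat_lit 51885) (nat_lit 11) nil (node (nat_lit 4) (nat_lit 51885) (nat_lit 11) nil
  (node (nat_lit 6) (nat_lit 51885) (nat_lit 11) nil nil))) nil))) (node (nat_lit 0) (nat_lit
  57594) (nat_lit 9) (node (nat_lit 6) (nat_lit 57878) (nat_lit 10) (node (nat_lit 4) (nat_lit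
  57878) (nat_lit 11) (node (nat_lit 5) (nat_lit 57878) (nat_lit 12) nil nil) (node (nat_lit 5)
  (nat_lit 57878) (nat_lit 11) (node (nat_lit 4) (nat_lit 57878) (nat_lit 12) nil nil) nil)) (node
  (nat_lit 4) (nat_lit 57454) (nat_lit 10) (node (nat_lit 5) (nat_lit 57454) (nat_lit 11) (node
  (nat_lit 6) (nat_lit 57454) (nat_lit 12) nil nil) (node (nat_lit 6) (nat_lit 57454) (nat_lit 11)
  (node (nat_lit 5) (nat_lit 57454) (nat_lit 12) nil nil) nil)) (node (nat_lit 5) (nat_lit 57820)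
  (nat_lit 10) (node (nat_lit 4) (nat_lit 57820) (nat_lit 11) nil (node (nat_lit 6) (nat_lit
  57820) (nat_lit 11) nil nil)) nil))) nil)) nil)) nil))

noncomputable def t310 : Tr :=
  (node (nat_lit 5) (nat_lit 0) (nat_lit 10) (node (nat_lit 6) (nat_lit 0) (nat_lit 11) (node
  (nat_lit 5) (nat_lit 0) (nat_lit 12) (node (nat_lit 4) (nat_lit 0) (nat_lit 13) (node (nat_lit
  5) (nat_lit 0) (nat_lit 14) (node (nat_lit 6) (nat_lit 0) (nat_lit 15) (node (nat_lit 4)
  (nat_lit 0) (nat_lit 16) (node (nat_lit 6) (nat_lit 0) (nat_lit 17) (node (nat_lit 5) (nat_lit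
  0) (nat_lit 18) (node (nat_lit 4) (nat_lit 0) (nat_lit 19) (node (nat_lit 5) (nat_lit 66420)
  (nat_lit 20) (node (nat_lit 6) (nat_lit 66691) (nat_lit 21) (node (nat_lit 5) (nat_lit 66903)
  (nat_lit 22) (node (nat_lit 4) (nat_lit 66944) (nat_lit 23) (node (nat_lit 6) (nat_lit 67040)
  (nat_lit 24) (node (nat_lit 5) (nat_lit 66489) (nat_lit 25) (node (nat_lit 6) (nat_lit 64523)
  (nat_lit 26) (node (nat_lit 4) (nat_lit 61601) (nat_lit 27) (node (nat_lit 5) (nat_lit 56112)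
  (nat_lit 28) (node (nat_lit 6) (nat_lit 49913) (nat_lit 29) (node (nat_lit 5) (nat_lit 38105)
  (nat_lit 30) (node (nat_lit 4) (nat_lit 35617) (nat_lit 31) nil nil) nil) nil) nil) nil) nil)
  nil) nil) nil) nil) nil) (node (nat_lit 6) (nat_lit 0) (nat_lit 20) (node (nat_lit 4) (nat_lit
  66908) (nat_lit 21) (node (nat_lit 5) (nat_lit 67180) (nat_lit 22) (node (nat_lit 6) (nat_lit
  66321) (nat_lit 23) nil nil) nil) (node (nat_lit 0) (nat_lit 67152) (nat_lit 21) nil nil)) (node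
  (nat_lit 0) (nat_lit 66834) (nat_lit 20) nil nil))) (node (nat_lit 6) (nat_lit 65835) (nat_lit
  19) (node (nat_lit 4) (nat_lit 66161) (nat_lit 20) (node (nat_lit 5) (nat_lit 66311) (nat_lit
  21) nil nil) nil) (node (nat_lit 0) (nat_lit 66951) (nat_lit 19) nil nil))) (node (nat_lit 0)
  (nat_lit 66754) (nat_lit 18) nil nil)) (node (nat_lit 5) (nat_lit 0) (nat_lit 17) (node (nat_lit
  4) (nat_lit 65326) (nat_lit 18) (node (nat_lit 6) (nat_lit 66031) (nat_lit 19) (node (nat_lit 5)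
  (nat_lit 66502) (nat_lit 20) (node (nat_lit 4) (nat_lit 66773) (nat_lit 21) (node (nat_lit 5)
  (nat_lit 66985) (nat_lit 22) nil nil) (node (nat_lit 6) (nat_lit 66373) (nat_lit 21) nil nil))
  (node (nat_lit 4) (nat_lit 66581) (nat_lit 20) (node (nat_lit 5) (nat_lit 66814) (nat_lit 21)
  nil nil) nil)) nil) (node (nat_lit 0) (nat_lit 65788) (nat_lit 18) nil nil)) (node (nat_lit 0)
  (nat_lit 65936) (nat_lit 17) nil nil))) (node (nat_lit 0) (nat_lit 65517) (nat_lit 16) nil nil))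
  (node (nat_lit 0) (nat_lit 64985) (nat_lit 15) (node (nat_lit 4) (nat_lit 64985) (nat_lit 16)
  nil nil) nil)) (node (nat_lit 6) (nat_lit 0) (nat_lit 14) (node (nat_lit 4) (nat_lit 0) (nat_lit
  15) (node (nat_lit 5) (nat_lit 0) (nat_lit 16) (node (nat_lit 6) (nat_lit 0) (nat_lit 17) (node
  (nat_lit 4) (nat_lit 65262) (nat_lit 18) (node (nat_lit 6) (nat_lit 65941) (nat_lit 19) (node
  (nat_lit 5) (nat_lit 66478) (nat_lit 20) (node (nat_lit 6) (nat_lit 66420) (nat_lit 21) (node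
  (nat_lit 4) (nat_lit 66539) (nat_lit 22) nil nil) (node (nat_lit 4) (nat_lit 66548) (nat_lit 21)
  nil nil)) nil) nil) (node (nat_lit 5) (nat_lit 64368) (nat_lit 18) nil (node (nat_lit 0)
  (nat_lit 65713) (nat_lit 18) nil nil))) (node (nat_lit 4) (nat_lit 0) (nat_lit 17) (node
  (nat_lit 6) (nat_lit 65284) (nat_lit 18) (node (nat_lit 5) (nat_lit 65963) (nat_lit 19) (node
  (nat_lit 6) (nat_lit 66435) (nat_lit 20) (node (nat_lit 4) (nat_lit 66689) (nat_lit 21) (node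
  (nat_lit 5) (nat_lit 66806) (nat_lit 22) nil nil) nil) (node (nat_lit 4) (nat_lit 65592)
  (nat_lit 20) nil nil)) nil) (node (nat_lit 0) (nat_lit 65747) (nat_lit 18) nil nil)) (node
  (nat_lit 0) (nat_lit 66212) (nat_lit 17) nil nil))) (node (nat_lit 0) (nat_lit 65796) (nat_lit
  16) (node (nat_lit 6) (nat_lit 65796) (nat_lit 17) nil (node (nat_lit 4) (nat_lit 65796)
  (nat_lit 17) nil nil)) nil)) (node (nat_lit 0) (nat_lit 65054) (nat_lit 15) (node (nat_lit 6)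
  (nat_lit 65054) (nat_lit 16) nil (node (nat_lit 4) (nat_lit 65054) (nat_lit 16) nil (node
  (nat_lit 5) (nat_lit 65054) (nat_lit 16) nil nil))) (node (nat_lit 5) (nat_lit 43044) (nat_lit
  15) nil nil))) (node (nat_lit 0) (nat_lit 64122) (nat_lit 14) (node (nat_lit 5) (nat_lit 64122)
  (nat_lit 15) (node (nat_lit 4) (nat_lit 64122) (nat_lit 16) nil (node (nat_lit 6) (nat_lit
  64122) (nat_lit 16) nil nil)) (node (nat_lit 4) (nat_lit 64122) (nat_lit 15) (node (nat_lit 5)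
  (nat_lit 64122) (nat_lit 16) nil (node (nat_lit 6) (nat_lit 64122) (nat_lit 16) nil nil)) (node
  (nat_lit 6) (nat_lit 64122) (nat_lit 15) (node (nat_lit 4) (nat_lit 64122) (nat_lit 16) nil nil)
  nil))) nil))) (node (nat_lit 0) (nat_lit 62791) (nat_lit 13) (node (nat_lit 6) (nat_lit 62810)
  (nat_lit 14) (node (nat_lit 5) (nat_lit 63075) (nat_lit 15) (node (nat_lit 6) (nat_lit 63196)
  (nat_lit 16) (node (nat_lit 4) (nat_lit 63203) (nat_lit 17) nil nil) (node (nat_lit 4) (nat_lit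
  63379) (nat_lit 16) (node (nat_lit 6) (nat_lit 63526) (nat_lit 17) nil nil) nil)) (node (nat_lit
  4) (nat_lit 62810) (nat_lit 15) (node (nat_lit 5) (nat_lit 62810) (nat_lit 16) nil (node
  (nat_lit 6) (nat_lit 62810) (nat_lit 16) nil nil)) nil)) (node (nat_lit 5) (nat_lit 62812)
  (nat_lit 14) (node (nat_lit 4) (nat_lit 63013) (nat_lit 15) (node (nat_lit 6) (nat_lit 63161)
  (nat_lit 16) (node (nat_lit 5) (nat_lit 63161) (nat_lit 17) nil nil) nil) (node (nat_lit 6)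
  (nat_lit 63115) (nat_lit 15) (node (nat_lit 4) (nat_lit 63115) (nat_lit 16) nil nil) nil)) (node
  (nat_lit 4) (nat_lit 62812) (nat_lit 14) (node (nat_lit 5) (nat_lit 62812) (nat_lit 15) (node
  (nat_lit 4) (nat_lit 62812) (nat_lit 16) nil nil) (node (nat_lit 6) (nat_lit 62812) (nat_lit 15)
  (node (nat_lit 5) (nat_lit 62812) (nat_lit 16) nil nil) nil)) nil))) nil)) (node (nat_lit 0)
  (nat_lit 66803) (nat_lit 12) (node (nat_lit 5) (nat_lit 67271) (nat_lit 13) (node (nat_lit 6)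
  (nat_lit 68032) (nat_lit 14) (node (nat_lit 5) (nat_lit 68551) (nat_lit 15) (node (nat_lit 4)
  (nat_lit 69215) (nat_lit 16) nil nil) (node (nat_lit 4) (nat_lit 67921) (nat_lit 15) (node
  (nat_lit 5) (nat_lit 67921) (nat_lit 16) nil (node (nat_lit 6) (nat_lit 67921) (nat_lit 16) nil
  nil)) nil)) (node (nat_lit 4) (nat_lit 67818) (nat_lit 14) (node (nat_lit 6) (nat_lit 67818)
  (nat_lit 15) nil (node (nat_lit 5) (nat_lit 67818) (nat_lit 15) nil nil)) (node (nat_lit 15)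
  (nat_lit 68233) (nat_lit 14) nil nil))) (node (nat_lit 6) (nat_lit 67011) (nat_lit 13) (node
  (nat_lit 4) (nat_lit 67785) (nat_lit 14) (node (nat_lit 5) (nat_lit 68730) (nat_lit 15) (node
  (nat_lit 6) (nat_lit 69172) (nat_lit 16) (node (nat_lit 5) (nat_lit 69713) (nat_lit 17) nil nil)
  (node (nat_lit 4) (nat_lit 68967) (nat_lit 16) (node (nat_lit 6) (nat_lit 69027) (nat_lit 17)
  nil nil) nil)) (node (nat_lit 6) (nat_lit 67976) (nat_lit 15) (node (nat_lit 5) (nat_lit 67976)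
  (nat_lit 16) nil nil) nil)) (node (nat_lit 5) (nat_lit 67635) (nat_lit 14) (node (nat_lit 4)
  (nat_lit 68635) (nat_lit 15) (node (nat_lit 6) (nat_lit 69015) (nat_lit 16) nil (node (nat_lit
  5) (nat_lit 68635) (nat_lit 16) nil nil)) (node (nat_lit 6) (nat_lit 67820) (nat_lit 15) (node
  (nat_lit 4) (nat_lit 67820) (nat_lit 16) nil nil) nil)) (node (nat_lit 0) (nat_lit 68723)
  (nat_lit 14) nil nil))) (node (nat_lit 4) (nat_lit 67299) (nat_lit 13) (node (nat_lit 5)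
  (nat_lit 67805) (nat_lit 14) (node (nat_lit 6) (nat_lit 67661) (nat_lit 15) (node (nat_lit 4)
  (nat_lit 67898) (nat_lit 16) nil (node (nat_lit 5) (nat_lit 67661) (nat_lit 16) nil nil)) (node
  (nat_lit 4) (nat_lit 68041) (nat_lit 15) (node (nat_lit 6) (nat_lit 68041) (nat_lit 16) nil nil)
  nil)) (node (nat_lit 6) (nat_lit 67628) (nat_lit 14) (node (nat_lit 4) (nat_lit 67818) (nat_lit
  15) (node (nat_lit 5) (nat_lit 67689) (nat_lit 16) nil nil) (node (nat_lit 5) (nat_lit 67628)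
  (nat_lit 15) nil nil)) (node (nat_lit 15) (nat_lit 68261) (nat_lit 14) nil nil))) (node (nat_lit
  0) (nat_lit 68527) (nat_lit 13) nil nil)))) nil)) (node (nat_lit 4) (nat_lit 0) (nat_lit 11)
  (node (nat_lit 6) (nat_lit 0) (nat_lit 12) (node (nat_lit 4) (nat_lit 0) (nat_lit 13) (node
  (nat_lit 5) (nat_lit 0) (nat_lit 14) (node (nat_lit 6) (nat_lit 0) (nat_lit 15) (node (nat_lit
  5) (nat_lit 0) (nat_lit 16) (node (nat_lit 4) (nat_lit 0) (nat_lit 17) (node (nat_lit 5)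
  (nat_lit 0) (nat_lit 18) (node (nat_lit 6) (nat_lit 76760) (nat_lit 19) (node (nat_lit 4)
  (nat_lit 77291) (nat_lit 20) (node (nat_lit 6) (nat_lit 77561) (nat_lit 21) (node (nat_lit 5)
  (nat_lit 77615) (nat_lit 22) nil nil) (node (nat_lit 5) (nat_lit 77492) (nat_lit 21) nil nil))
  nil) (node (nat_lit 0) (nat_lit 77034) (nat_lit 19) nil nil)) (node (nat_lit 6) (nat_lit 0)
  (nat_lit 18) (node (nat_lit 5) (nat_lit 75964) (nat_lit 19) (node (nat_lit 6) (nat_lit 76370)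
  (nat_lit 20) (node (nat_lit 4) (nat_lit 69569) (nat_lit 21) (node (nat_lit 5) (nat_lit 69518)
  (nat_lit 22) (node (nat_lit 4) (nat_lit 45437) (nat_lit 23) nil nil) nil) nil) nil) (node
  (nat_lit 4) (nat_lit 76323) (nat_lit 19) nil (node (nat_lit 0) (nat_lit 76720) (nat_lit 19) nil
  nil))) (node (nat_lit 0) (nat_lit 77367) (nat_lit 18) nil nil))) (node (nat_lit 0) (nat_lit
  84840) (nat_lit 17) nil nil)) (node (nat_lit 4) (nat_lit 0) (nat_lit 16) (node (nat_lit 6)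
  (nat_lit 86193) (nat_lit 17) (node (nat_lit 5) (nat_lit 86957) (nat_lit 18) (node (nat_lit 4)
  (nat_lit 87069) (nat_lit 19) (node (nat_lit 5) (nat_lit 87415) (nat_lit 20) (node (nat_lit 6)
  (nat_lit 87687) (nat_lit 21) (node (nat_lit 5) (nat_lit 87898) (nat_lit 22) (node (nat_lit 4)
  (nat_lit 87940) (nat_lit 23) (node (nat_lit 6) (nat_lit 88035) (nat_lit 24) (node (nat_lit 5)
  (nat_lit 87283) (nat_lit 25) (node (nat_lit 6) (nat_lit 85585) (nat_lit 26) (node (nat_lit 4)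
  (nat_lit 82577) (nat_lit 27) (node (nat_lit 5) (nat_lit 77004) (nat_lit 28) (node (nat_lit 4)
  (nat_lit 69809) (nat_lit 29) (node (nat_lit 6) (nat_lit 59035) (nat_lit 30) nil nil) nil) nil)
  nil) nil) nil) nil) nil) nil) nil) nil) nil) nil) (node (nat_lit 0) (nat_lit 86764) (nat_lit 17)
  nil nil)) (node (nat_lit 0) (nat_lit 86649) (nat_lit 16) nil nil))) (node (nat_lit 0) (nat_lit
  87516) (nat_lit 15) nil nil)) (node (nat_lit 0) (nat_lit 87508) (nat_lit 14) nil nil)) (node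
  (nat_lit 5) (nat_lit 0) (nat_lit 13) (node (nat_lit 4) (nat_lit 0) (nat_lit 14) (node (nat_lit
  5) (nat_lit 0) (nat_lit 15) (node (nat_lit 6) (nat_lit 0) (nat_lit 16) (node (nat_lit 5)
  (nat_lit 86400) (nat_lit 17) (node (nat_lit 4) (nat_lit 83010) (nat_lit 18) (node (nat_lit 6)
  (nat_lit 77101) (nat_lit 19) (node (nat_lit 5) (nat_lit 77750) (nat_lit 20) (node (nat_lit 6)
  (nat_lit 78188) (nat_lit 21) (node (nat_lit 4) (nat_lit 78527) (nat_lit 22) (node (nat_lit 5)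
  (nat_lit 46416) (nat_lit 23) (node (nat_lit 4) (nat_lit 46373) (nat_lit 24) (node (nat_lit 6)
  (nat_lit 46389) (nat_lit 25) nil nil) (node (nat_lit 6) (nat_lit 46376) (nat_lit 24) nil nil))
  nil) nil) nil) (node (nat_lit 4) (nat_lit 0) (nat_lit 20) (node (nat_lit 5) (nat_lit 78167)
  (nat_lit 21) (node (nat_lit 6) (nat_lit 78343) (nat_lit 22) (node (nat_lit 4) (nat_lit 78465)
  (nat_lit 23) nil nil) nil) (node (nat_lit 0) (nat_lit 78449) (nat_lit 21) nil nil)) nil)) nil)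
  nil) (node (nat_lit 4) (nat_lit 86663) (nat_lit 17) (node (nat_lit 5) (nat_lit 87084) (nat_lit
  18) nil (node (nat_lit 6) (nat_lit 86717) (nat_lit 18) nil nil)) (node (nat_lit 0) (nat_lit
  87732) (nat_lit 17) nil nil))) (node (nat_lit 0) (nat_lit 88595) (nat_lit 16) nil nil)) (node
  (nat_lit 0) (nat_lit 88273) (nat_lit 15) nil nil)) (node (nat_lit 6) (nat_lit 0) (nat_lit 14)
  (node (nat_lit 0) (nat_lit 87511) (nat_lit 15) nil nil) (node (nat_lit 0) (nat_lit 88040)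
  (nat_lit 14) nil nil))) (node (nat_lit 0) (nat_lit 86621) (nat_lit 13) (node (nat_lit 4)
  (nat_lit 86621) (nat_lit 14) (node (nat_lit 6) (nat_lit 86621) (nat_lit 15) nil nil) (node
  (nat_lit 6) (nat_lit 86621) (nat_lit 14) nil (node (nat_lit 5) (nat_lit 86621) (nat_lit 14) nil
  nil))) nil))) (node (nat_lit 0) (nat_lit 83937) (nat_lit 12) (node (nat_lit 5) (nat_lit 83937)
  (nat_lit 13) (node (nat_lit 4) (nat_lit 83937) (nat_lit 14) nil (node (nat_lit 6) (nat_lit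
  83937) (nat_lit 14) nil nil)) (node (nat_lit 4) (nat_lit 83937) (nat_lit 13) (node (nat_lit 5)
  (nat_lit 83937) (nat_lit 14) nil (node (nat_lit 6) (nat_lit 83937) (nat_lit 14) nil nil)) (node
  (nat_lit 6) (nat_lit 83937) (nat_lit 13) (node (nat_lit 4) (nat_lit 83937) (nat_lit 14) nil
  (node (nat_lit 5) (nat_lit 83937) (nat_lit 14) nil nil)) nil))) nil)) (node (nat_lit 0) (nat_lit
  0) (nat_lit 11) (node (nat_lit 5) (nat_lit 81016) (nat_lit 12) (node (nat_lit 6) (nat_lit 81383)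
  (nat_lit 13) (node (nat_lit 4) (nat_lit 81254) (nat_lit 14) (node (nat_lit 6) (nat_lit 81254)
  (nat_lit 15) nil (node (nat_lit 5) (nat_lit 81254) (nat_lit 15) nil nil)) (node (nat_lit 5)
  (nat_lit 82048) (nat_lit 14) (node (nat_lit 4) (nat_lit 82048) (nat_lit 15) nil nil) nil)) (node
  (nat_lit 4) (nat_lit 81729) (nat_lit 13) (node (nat_lit 6) (nat_lit 81729) (nat_lit 14) nil
  (node (nat_lit 5) (nat_lit 81729) (nat_lit 14) nil nil)) (node (nat_lit 0) (nat_lit 82249)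
  (nat_lit 13) nil nil))) (node (nat_lit 4) (nat_lit 81016) (nat_lit 12) (node (nat_lit 5)
  (nat_lit 81630) (nat_lit 13) (node (nat_lit 4) (nat_lit 81928) (nat_lit 14) (node (nat_lit 6)
  (nat_lit 82212) (nat_lit 15) (node (nat_lit 5) (nat_lit 82163) (nat_lit 16) nil (node (nat_lit
  4) (nat_lit 82904) (nat_lit 16) nil nil)) nil) (node (nat_lit 6) (nat_lit 81433) (nat_lit 14)
  (node (nat_lit 5) (nat_lit 81433) (nat_lit 15) nil (node (nat_lit 4) (nat_lit 81433) (nat_lit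
  15) nil nil)) nil)) (node (nat_lit 6) (nat_lit 81786) (nat_lit 13) (node (nat_lit 5) (nat_lit
  81786) (nat_lit 14) (node (nat_lit 4) (nat_lit 81786) (nat_lit 15) nil nil) (node (nat_lit 4)
  (nat_lit 81789) (nat_lit 14) (node (nat_lit 5) (nat_lit 81789) (nat_lit 15) nil nil) nil)) nil))
  (node (nat_lit 6) (nat_lit 80872) (nat_lit 12) (node (nat_lit 4) (nat_lit 81363) (nat_lit 13)
  (node (nat_lit 5) (nat_lit 81595) (nat_lit 14) (node (nat_lit 6) (nat_lit 82447) (nat_lit 15)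
  nil (node (nat_lit 4) (nat_lit 81595) (nat_lit 15) nil nil)) (node (nat_lit 6) (nat_lit 81367)
  (nat_lit 14) (node (nat_lit 5) (nat_lit 81367) (nat_lit 15) nil nil) nil)) (node (nat_lit 5)
  (nat_lit 81252) (nat_lit 13) (node (nat_lit 6) (nat_lit 81483) (nat_lit 14) (node (nat_lit 4)
  (nat_lit 82023) (nat_lit 15) (node (nat_lit 5) (nat_lit 82715) (nat_lit 16) nil (node (nat_lit
  6) (nat_lit 82088) (nat_lit 16) nil nil)) nil) (node (nat_lit 4) (nat_lit 81252) (nat_lit 14)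
  nil nil)) (node (nat_lit 14) (nat_lit 82105) (nat_lit 13) nil nil))) (node (nat_lit 0) (nat_lit
  82014) (nat_lit 12) nil nil)))) nil))) (node (nat_lit 6) (nat_lit 0) (nat_lit 10) (node (nat_lit
  5) (nat_lit 0) (nat_lit 11) (node (nat_lit 4) (nat_lit 0) (nat_lit 12) (node (nat_lit 5)
  (nat_lit 0) (nat_lit 13) (node (nat_lit 6) (nat_lit 0) (nat_lit 14) (node (nat_lit 4) (nat_lit
  0) (nat_lit 15) (node (nat_lit 5) (nat_lit 0) (nat_lit 16) (node (nat_lit 4) (nat_lit 83729)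
  (nat_lit 17) (node (nat_lit 6) (nat_lit 83829) (nat_lit 18) (node (nat_lit 4) (nat_lit 84413)
  (nat_lit 19) (node (nat_lit 5) (nat_lit 84506) (nat_lit 20) (node (nat_lit 6) (nat_lit 84478)
  (nat_lit 21) (node (nat_lit 5) (nat_lit 84429) (nat_lit 22) (node (nat_lit 4) (nat_lit 84240)
  (nat_lit 23) (node (nat_lit 6) (nat_lit 83225) (nat_lit 24) (node (nat_lit 5) (nat_lit 82394)
  (nat_lit 25) (node (nat_lit 6) (nat_lit 80191) (nat_lit 26) (node (nat_lit 4) (nat_lit 77394)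
  (nat_lit 27) (node (nat_lit 6) (nat_lit 72137) (nat_lit 28) (node (nat_lit 5) (nat_lit 72170)
  (nat_lit 29) (node (nat_lit 4) (nat_lit 72200) (nat_lit 30) (node (nat_lit 5) (nat_lit 72202)
  (nat_lit 31) (node (nat_lit 6) (nat_lit 72195) (nat_lit 32) (node (nat_lit 4) (nat_lit 64973)
  (nat_lit 33) nil nil) nil) nil) nil) nil) nil) nil) nil) nil) nil) nil) nil) nil) nil) (node
  (nat_lit 5) (nat_lit 83631) (nat_lit 19) nil nil)) nil) (node (nat_lit 0) (nat_lit 84742)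
  (nat_lit 17) nil nil)) (node (nat_lit 6) (nat_lit 83140) (nat_lit 16) (node (nat_lit 5) (nat_lit
  84262) (nat_lit 17) (node (nat_lit 6) (nat_lit 85075) (nat_lit 18) (node (nat_lit 4) (nat_lit
  85616) (nat_lit 19) (node (nat_lit 5) (nat_lit 85611) (nat_lit 20) (node (nat_lit 6) (nat_lit
  85553) (nat_lit 21) (node (nat_lit 5) (nat_lit 85409) (nat_lit 22) (node (nat_lit 4) (nat_lit
  85224) (nat_lit 23) (node (nat_lit 6) (nat_lit 84240) (nat_lit 24) (node (nat_lit 5) (nat_lit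
  83405) (nat_lit 25) (node (nat_lit 6) (nat_lit 81194) (nat_lit 26) (node (nat_lit 4) (nat_lit
  78821) (nat_lit 27) (node (nat_lit 6) (nat_lit 78794) (nat_lit 28) (node (nat_lit 5) (nat_lit
  73307) (nat_lit 29) (node (nat_lit 4) (nat_lit 73337) (nat_lit 30) (node (nat_lit 5) (nat_lit
  59191) (nat_lit 31) (node (nat_lit 6) (nat_lit 59174) (nat_lit 32) nil nil) nil) nil) nil) nil)
  nil) nil) nil) nil) nil) nil) nil) nil) nil) nil) nil) (node (nat_lit 0) (nat_lit 83729)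
  (nat_lit 16) nil nil))) (node (nat_lit 5) (nat_lit 0) (nat_lit 15) (node (nat_lit 4) (nat_lit 0)
  (nat_lit 16) (node (nat_lit 6) (nat_lit 0) (nat_lit 17) (node (nat_lit 4) (nat_lit 0) (nat_lit
  18) (node (nat_lit 5) (nat_lit 0) (nat_lit 19) (node (nat_lit 6) (nat_lit 0) (nat_lit 20) (node
  (nat_lit 5) (nat_lit 63687) (nat_lit 21) (node (nat_lit 4) (nat_lit 64107) (nat_lit 22) (node
  (nat_lit 5) (nat_lit 64372) (nat_lit 23) (node (nat_lit 6) (nat_lit 64483) (nat_lit 24) nil nil)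
  nil) nil) (node (nat_lit 4) (nat_lit 0) (nat_lit 21) (node (nat_lit 6) (nat_lit 63641) (nat_lit
  22) (node (nat_lit 5) (nat_lit 63547) (nat_lit 23) nil nil) (node (nat_lit 0) (nat_lit 64095)
  (nat_lit 22) nil nil)) (node (nat_lit 0) (nat_lit 63766) (nat_lit 21) nil nil))) (node (nat_lit
  4) (nat_lit 0) (nat_lit 20) (node (nat_lit 6) (nat_lit 63452) (nat_lit 21) (node (nat_lit 5)
  (nat_lit 63819) (nat_lit 22) (node (nat_lit 6) (nat_lit 64065) (nat_lit 23) (node (nat_lit 4)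
  (nat_lit 64224) (nat_lit 24) nil nil) (node (nat_lit 4) (nat_lit 63659) (nat_lit 23) nil nil))
  nil) (node (nat_lit 0) (nat_lit 63592) (nat_lit 21) nil nil)) (node (nat_lit 0) (nat_lit 63867)
  (nat_lit 20) nil nil))) (node (nat_lit 0) (nat_lit 63843) (nat_lit 19) nil nil)) (node (nat_lit
  5) (nat_lit 0) (nat_lit 18) (node (nat_lit 6) (nat_lit 48686) (nat_lit 19) (node (nat_lit 4)
  (nat_lit 49086) (nat_lit 20) (node (nat_lit 5) (nat_lit 49301) (nat_lit 21) (node (nat_lit 6)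
  (nat_lit 49556) (nat_lit 22) (node (nat_lit 5) (nat_lit 49691) (nat_lit 23) (node (nat_lit 4)
  (nat_lit 49814) (nat_lit 24) nil nil) nil) (node (nat_lit 4) (nat_lit 49230) (nat_lit 22) nil
  nil)) (node (nat_lit 6) (nat_lit 49198) (nat_lit 21) nil nil)) nil) (node (nat_lit 0) (nat_lit
  62288) (nat_lit 19) nil nil)) (node (nat_lit 0) (nat_lit 62830) (nat_lit 18) nil nil))) (node
  (nat_lit 0) (nat_lit 74269) (nat_lit 17) nil nil)) (node (nat_lit 0) (nat_lit 79287) (nat_lit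
  16) nil nil)) (node (nat_lit 0) (nat_lit 83557) (nat_lit 15) nil nil))) (node (nat_lit 0)
  (nat_lit 81075) (nat_lit 14) nil nil)) (node (nat_lit 6) (nat_lit 0) (nat_lit 13) (node (nat_lit
  4) (nat_lit 0) (nat_lit 14) (node (nat_lit 5) (nat_lit 87274) (nat_lit 15) (node (nat_lit 6)
  (nat_lit 89102) (nat_lit 16) (node (nat_lit 5) (nat_lit 83139) (nat_lit 17) (node (nat_lit 4)
  (nat_lit 84097) (nat_lit 18) (node (nat_lit 6) (nat_lit 84465) (nat_lit 19) (node (nat_lit 5)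
  (nat_lit 84902) (nat_lit 20) (node (nat_lit 6) (nat_lit 85178) (nat_lit 21) (node (nat_lit 4)
  (nat_lit 85423) (nat_lit 22) (node (nat_lit 6) (nat_lit 71746) (nat_lit 23) (node (nat_lit 5)
  (nat_lit 45323) (nat_lit 24) (node (nat_lit 4) (nat_lit 45341) (nat_lit 25) nil nil) nil) nil)
  nil) nil) nil) (node (nat_lit 5) (nat_lit 84743) (nat_lit 19) (node (nat_lit 6) (nat_lit 85089)
  (nat_lit 20) nil nil) nil)) nil) (node (nat_lit 4) (nat_lit 89642) (nat_lit 17) nil nil)) (node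
  (nat_lit 4) (nat_lit 88530) (nat_lit 16) (node (nat_lit 6) (nat_lit 89326) (nat_lit 17) (node
  (nat_lit 5) (nat_lit 90052) (nat_lit 18) nil nil) nil) nil)) (node (nat_lit 0) (nat_lit 89589)
  (nat_lit 15) nil nil)) (node (nat_lit 0) (nat_lit 89267) (nat_lit 14) nil nil)) (node (nat_lit
  0) (nat_lit 88462) (nat_lit 13) (node (nat_lit 4) (nat_lit 88462) (nat_lit 14) nil nil) nil)))
  (node (nat_lit 0) (nat_lit 85376) (nat_lit 12) (node (nat_lit 5) (nat_lit 85376) (nat_lit 13)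
  nil nil) nil)) (node (nat_lit 0) (nat_lit 82033) (nat_lit 11) (node (nat_lit 6) (nat_lit 82033)
  (nat_lit 12) (node (nat_lit 4) (nat_lit 82033) (nat_lit 13) nil (node (nat_lit 5) (nat_lit
  82033) (nat_lit 13) nil nil)) (node (nat_lit 4) (nat_lit 82033) (nat_lit 12) nil (node (nat_lit
  5) (nat_lit 82033) (nat_lit 12) nil nil))) nil)) (node (nat_lit 0) (nat_lit 0) (nat_lit 10)
  (node (nat_lit 5) (nat_lit 78248) (nat_lit 11) (node (nat_lit 6) (nat_lit 78468) (nat_lit 12)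
  (node (nat_lit 4) (nat_lit 78278) (nat_lit 13) (node (nat_lit 5) (nat_lit 78010) (nat_lit 14)
  nil (node (nat_lit 6) (nat_lit 78278) (nat_lit 14) nil nil)) (node (nat_lit 5) (nat_lit 79649)
  (nat_lit 13) (node (nat_lit 4) (nat_lit 80740) (nat_lit 14) nil nil) nil)) (node (nat_lit 4)
  (nat_lit 79995) (nat_lit 12) (node (nat_lit 6) (nat_lit 80846) (nat_lit 13) (node (nat_lit 4)
  (nat_lit 80846) (nat_lit 14) nil (node (nat_lit 5) (nat_lit 80846) (nat_lit 14) nil nil)) (node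
  (nat_lit 5) (nat_lit 80891) (nat_lit 13) (node (nat_lit 6) (nat_lit 81583) (nat_lit 14) (node
  (nat_lit 5) (nat_lit 82469) (nat_lit 15) nil (node (nat_lit 4) (nat_lit 82469) (nat_lit 15) nil
  nil)) nil) nil)) (node (nat_lit 13) (nat_lit 81770) (nat_lit 12) nil nil))) (node (nat_lit 6)
  (nat_lit 78095) (nat_lit 11) (node (nat_lit 4) (nat_lit 79669) (nat_lit 12) (node (nat_lit 6)
  (nat_lit 80594) (nat_lit 13) (node (nat_lit 5) (nat_lit 81058) (nat_lit 14) (node (nat_lit 4)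
  (nat_lit 82156) (nat_lit 15) nil (node (nat_lit 6) (nat_lit 81944) (nat_lit 15) nil nil)) nil)
  (node (nat_lit 5) (nat_lit 79953) (nat_lit 13) (node (nat_lit 6) (nat_lit 79953) (nat_lit 14)
  nil (node (nat_lit 4) (nat_lit 79953) (nat_lit 14) nil nil)) nil)) (node (nat_lit 5) (nat_lit
  78941) (nat_lit 12) (node (nat_lit 4) (nat_lit 79313) (nat_lit 13) (node (nat_lit 5) (nat_lit
  79313) (nat_lit 14) nil (node (nat_lit 6) (nat_lit 79313) (nat_lit 14) nil nil)) (node (nat_lit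
  6) (nat_lit 78985) (nat_lit 13) (node (nat_lit 4) (nat_lit 78985) (nat_lit 14) nil nil) nil))
  (node (nat_lit 13) (nat_lit 79674) (nat_lit 12) nil nil))) (node (nat_lit 4) (nat_lit 78274)
  (nat_lit 11) (node (nat_lit 6) (nat_lit 79803) (nat_lit 12) (node (nat_lit 5) (nat_lit 80654)
  (nat_lit 13) nil (node (nat_lit 4) (nat_lit 79803) (nat_lit 13) nil nil)) (node (nat_lit 5)
  (nat_lit 79754) (nat_lit 12) (node (nat_lit 6) (nat_lit 79995) (nat_lit 13) nil (node (nat_lit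
  4) (nat_lit 79825) (nat_lit 13) nil nil)) nil)) (node (nat_lit 0) (nat_lit 79770) (nat_lit 11)
  nil nil)))) nil)))

noncomputable def t311 : Tr :=
  (node (nat_lit 6) (nat_lit 0) (nat_lit 6) (node (nat_lit 5) (nat_lit 0) (nat_lit 7) (node
  (nat_lit 6) (nat_lit 0) (nat_lit 8) (node (nat_lit 4) (nat_lit 0) (nat_lit 9) t310 (node
  (nat_lit 0) (nat_lit 82586) (nat_lit 9) (node (nat_lit 5) (nat_lit 82586) (nat_lit 10) nil (node
  (nat_lit 4) (nat_lit 82586) (nat_lit 10) nil (node (nat_lit 6) (nat_lit 82586) (nat_lit 10) nil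
  nil))) nil)) nil) (node (nat_lit 4) (nat_lit 0) (nat_lit 7) (node (nat_lit 5) (nat_lit 0)
  (nat_lit 8) (node (nat_lit 6) (nat_lit 0) (nat_lit 9) (node (nat_lit 4) (nat_lit 0) (nat_lit 10)
  (node (nat_lit 6) (nat_lit 0) (nat_lit 11) (node (nat_lit 5) (nat_lit 0) (nat_lit 12) (node
  (nat_lit 6) (nat_lit 0) (nat_lit 13) (node (nat_lit 4) (nat_lit 0) (nat_lit 14) (node (nat_lit
  5) (nat_lit 77481) (nat_lit 15) (node (nat_lit 4) (nat_lit 78875) (nat_lit 16) (node (nat_lit 6)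
  (nat_lit 79605) (nat_lit 17) (node (nat_lit 5) (nat_lit 79616) (nat_lit 18) (node (nat_lit 4)
  (nat_lit 80147) (nat_lit 19) (node (nat_lit 5) (nat_lit 80187) (nat_lit 20) (node (nat_lit 6)
  (nat_lit 80259) (nat_lit 21) (node (nat_lit 5) (nat_lit 80366) (nat_lit 22) (node (nat_lit 4)
  (nat_lit 79724) (nat_lit 23) (node (nat_lit 6) (nat_lit 78967) (nat_lit 24) (node (nat_lit 4)
  (nat_lit 77809) (nat_lit 25) (node (nat_lit 5) (nat_lit 76033) (nat_lit 26) (node (nat_lit 6)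
  (nat_lit 72975) (nat_lit 27) (node (nat_lit 4) (nat_lit 67667) (nat_lit 28) (node (nat_lit 6)
  (nat_lit 67712) (nat_lit 29) (node (nat_lit 5) (nat_lit 67708) (nat_lit 30) (node (nat_lit 6)
  (nat_lit 48595) (nat_lit 31) (node (nat_lit 4) (nat_lit 41984) (nat_lit 32) (node (nat_lit 5)
  (nat_lit 35312) (nat_lit 33) nil nil) nil) nil) nil) nil) nil) nil) nil) nil) nil) nil) nil)
  nil) nil) nil) nil) nil) (node (nat_lit 6) (nat_lit 78023) (nat_lit 16) (node (nat_lit 5)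
  (nat_lit 71656) (nat_lit 17) (node (nat_lit 4) (nat_lit 71492) (nat_lit 18) (node (nat_lit 6)
  (nat_lit 65073) (nat_lit 19) (node (nat_lit 4) (nat_lit 65266) (nat_lit 20) (node (nat_lit 5)
  (nat_lit 65600) (nat_lit 21) (node (nat_lit 6) (nat_lit 42779) (nat_lit 22) (node (nat_lit 4)
  (nat_lit 42833) (nat_lit 23) (node (nat_lit 6) (nat_lit 42793) (nat_lit 24) (node (nat_lit 5)
  (nat_lit 42787) (nat_lit 25) nil nil) nil) nil) nil) nil) nil) nil) nil) nil) nil)) (node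
  (nat_lit 0) (nat_lit 78425) (nat_lit 15) nil nil)) (node (nat_lit 0) (nat_lit 76689) (nat_lit
  14) nil nil)) (node (nat_lit 4) (nat_lit 0) (nat_lit 13) (node (nat_lit 5) (nat_lit 0) (nat_lit
  14) (node (nat_lit 6) (nat_lit 74818) (nat_lit 15) (node (nat_lit 5) (nat_lit 65403) (nat_lit
  16) (node (nat_lit 4) (nat_lit 62216) (nat_lit 17) (node (nat_lit 6) (nat_lit 55000) (nat_lit
  18) (node (nat_lit 4) (nat_lit 49073) (nat_lit 19) (node (nat_lit 5) (nat_lit 49571) (nat_lit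
  20) (node (nat_lit 6) (nat_lit 34744) (nat_lit 21) (node (nat_lit 4) (nat_lit 34830) (nat_lit
  22) (node (nat_lit 6) (nat_lit 34898) (nat_lit 23) nil nil) nil) nil) nil) (node (nat_lit 5)
  (nat_lit 55550) (nat_lit 19) (node (nat_lit 6) (nat_lit 55379) (nat_lit 20) nil nil) nil)) nil)
  nil) (node (nat_lit 4) (nat_lit 75327) (nat_lit 16) (node (nat_lit 5) (nat_lit 75867) (nat_lit
  17) nil nil) nil)) (node (nat_lit 0) (nat_lit 77057) (nat_lit 15) nil nil)) (node (nat_lit 6)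
  (nat_lit 75091) (nat_lit 14) (node (nat_lit 4) (nat_lit 76277) (nat_lit 15) (node (nat_lit 5)
  (nat_lit 77204) (nat_lit 16) (node (nat_lit 6) (nat_lit 77446) (nat_lit 17) (node (nat_lit 5)
  (nat_lit 77758) (nat_lit 18) (node (nat_lit 4) (nat_lit 78123) (nat_lit 19) (node (nat_lit 6)
  (nat_lit 78308) (nat_lit 20) (node (nat_lit 4) (nat_lit 78576) (nat_lit 21) nil nil) nil) nil)
  nil) nil) nil) nil) (node (nat_lit 0) (nat_lit 76426) (nat_lit 14) nil nil))) (node (nat_lit 0)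
  (nat_lit 77396) (nat_lit 13) nil nil))) (node (nat_lit 0) (nat_lit 77901) (nat_lit 12) nil nil))
  (node (nat_lit 0) (nat_lit 75836) (nat_lit 11) (node (nat_lit 4) (nat_lit 75836) (nat_lit 12)
  nil (node (nat_lit 6) (nat_lit 75836) (nat_lit 12) nil (node (nat_lit 5) (nat_lit 75836)
  (nat_lit 12) nil nil))) nil)) (node (nat_lit 5) (nat_lit 0) (nat_lit 10) (node (nat_lit 4)
  (nat_lit 0) (nat_lit 11) (node (nat_lit 5) (nat_lit 0) (nat_lit 12) (node (nat_lit 6) (nat_lit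
  0) (nat_lit 13) (node (nat_lit 4) (nat_lit 0) (nat_lit 14) (node (nat_lit 6) (nat_lit 43456)
  (nat_lit 15) (node (nat_lit 5) (nat_lit 44199) (nat_lit 16) (node (nat_lit 6) (nat_lit 44576)
  (nat_lit 17) (node (nat_lit 4) (nat_lit 44763) (nat_lit 18) (node (nat_lit 5) (nat_lit 44909)
  (nat_lit 19) (node (nat_lit 6) (nat_lit 44804) (nat_lit 20) (node (nat_lit 5) (nat_lit 44783)
  (nat_lit 21) (node (nat_lit 4) (nat_lit 44815) (nat_lit 22) (node (nat_lit 6) (nat_lit 44869)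
  (nat_lit 23) (node (nat_lit 4) (nat_lit 44911) (nat_lit 24) (node (nat_lit 5) (nat_lit 44944)
  (nat_lit 25) (node (nat_lit 6) (nat_lit 44920) (nat_lit 26) (node (nat_lit 5) (nat_lit 44916)
  (nat_lit 27) nil nil) nil) nil) nil) nil) nil) nil) nil) nil) nil) (node (nat_lit 4) (nat_lit
  44629) (nat_lit 17) (node (nat_lit 5) (nat_lit 44964) (nat_lit 18) (node (nat_lit 6) (nat_lit
  45226) (nat_lit 19) (node (nat_lit 5) (nat_lit 45430) (nat_lit 20) (node (nat_lit 4) (nat_lit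
  44194) (nat_lit 21) (node (nat_lit 6) (nat_lit 42329) (nat_lit 22) (node (nat_lit 4) (nat_lit
  39462) (nat_lit 23) (node (nat_lit 5) (nat_lit 34079) (nat_lit 24) (node (nat_lit 6) (nat_lit
  27961) (nat_lit 25) nil nil) nil) nil) nil) nil) nil) nil) (node (nat_lit 6) (nat_lit 44964)
  (nat_lit 18) (node (nat_lit 4) (nat_lit 45111) (nat_lit 19) nil nil) nil)) nil)) nil) (node
  (nat_lit 5) (nat_lit 43435) (nat_lit 15) (node (nat_lit 4) (nat_lit 43701) (nat_lit 16) (node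
  (nat_lit 6) (nat_lit 43651) (nat_lit 17) nil nil) nil) (node (nat_lit 0) (nat_lit 43731)
  (nat_lit 15) nil nil))) (node (nat_lit 0) (nat_lit 43970) (nat_lit 14) nil nil)) (node (nat_lit
  0) (nat_lit 43181) (nat_lit 13) nil nil)) (node (nat_lit 0) (nat_lit 43311) (nat_lit 12) (node
  (nat_lit 4) (nat_lit 43311) (nat_lit 13) nil nil) nil)) (node (nat_lit 0) (nat_lit 75896)
  (nat_lit 11) nil nil)) (node (nat_lit 0) (nat_lit 73205) (nat_lit 10) (node (nat_lit 5) (nat_lit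
  73205) (nat_lit 11) nil (node (nat_lit 4) (nat_lit 73205) (nat_lit 11) nil (node (nat_lit 6)
  (nat_lit 73205) (nat_lit 11) nil nil))) nil))) (node (nat_lit 4) (nat_lit 0) (nat_lit 9) (node
  (nat_lit 6) (nat_lit 0) (nat_lit 10) (node (nat_lit 5) (nat_lit 0) (nat_lit 11) (node (nat_lit
  6) (nat_lit 0) (nat_lit 12) (node (nat_lit 4) (nat_lit 0) (nat_lit 13) (node (nat_lit 5)
  (nat_lit 87352) (nat_lit 14) (node (nat_lit 6) (nat_lit 89764) (nat_lit 15) (node (nat_lit 5)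
  (nat_lit 88487) (nat_lit 16) (node (nat_lit 4) (nat_lit 82292) (nat_lit 17) (node (nat_lit 6)
  (nat_lit 0) (nat_lit 18) (node (nat_lit 4) (nat_lit 56907) (nat_lit 19) (node (nat_lit 5)
  (nat_lit 56717) (nat_lit 20) (node (nat_lit 4) (nat_lit 44998) (nat_lit 21) (node (nat_lit 6)
  (nat_lit 44934) (nat_lit 22) (node (nat_lit 5) (nat_lit 44922) (nat_lit 23) nil nil) nil) nil)
  nil) (node (nat_lit 5) (nat_lit 65933) (nat_lit 19) (node (nat_lit 6) (nat_lit 66418) (nat_lit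
  20) (node (nat_lit 4) (nat_lit 66806) (nat_lit 21) nil nil) nil) (node (nat_lit 0) (nat_lit
  66203) (nat_lit 19) nil nil))) (node (nat_lit 5) (nat_lit 82948) (nat_lit 18) nil nil)) nil)
  nil) (node (nat_lit 4) (nat_lit 88163) (nat_lit 15) (node (nat_lit 6) (nat_lit 88256) (nat_lit
  16) (node (nat_lit 4) (nat_lit 89213) (nat_lit 17) (node (nat_lit 5) (nat_lit 89566) (nat_lit
  18) (node (nat_lit 6) (nat_lit 89199) (nat_lit 19) (node (nat_lit 5) (nat_lit 89052) (nat_lit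
  20) (node (nat_lit 4) (nat_lit 87809) (nat_lit 21) (node (nat_lit 6) (nat_lit 86244) (nat_lit
  22) (node (nat_lit 4) (nat_lit 82511) (nat_lit 23) (node (nat_lit 5) (nat_lit 78623) (nat_lit
  24) (node (nat_lit 4) (nat_lit 78723) (nat_lit 25) (node (nat_lit 6) (nat_lit 78714) (nat_lit
  26) (node (nat_lit 5) (nat_lit 78740) (nat_lit 27) (node (nat_lit 6) (nat_lit 78775) (nat_lit
  28) (node (nat_lit 4) (nat_lit 78807) (nat_lit 29) nil nil) nil) nil) nil) nil) nil) nil) nil)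
  nil) nil) nil) nil) nil) nil) nil)) (node (nat_lit 6) (nat_lit 87355) (nat_lit 14) (node
  (nat_lit 5) (nat_lit 89731) (nat_lit 15) (node (nat_lit 4) (nat_lit 91536) (nat_lit 16) (node
  (nat_lit 5) (nat_lit 92207) (nat_lit 17) (node (nat_lit 6) (nat_lit 92067) (nat_lit 18) (node
  (nat_lit 5) (nat_lit 91719) (nat_lit 19) (node (nat_lit 4) (nat_lit 89610) (nat_lit 20) (node
  (nat_lit 6) (nat_lit 86905) (nat_lit 21) (node (nat_lit 4) (nat_lit 80171) (nat_lit 22) (node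
  (nat_lit 5) (nat_lit 73754) (nat_lit 23) (node (nat_lit 4) (nat_lit 61798) (nat_lit 24) (node
  (nat_lit 6) (nat_lit 61893) (nat_lit 25) (node (nat_lit 5) (nat_lit 61901) (nat_lit 26) (node
  (nat_lit 6) (nat_lit 48417) (nat_lit 27) (node (nat_lit 4) (nat_lit 48429) (nat_lit 28) nil nil)
  nil) nil) nil) nil) nil) nil) nil) nil) nil) nil) nil) nil) nil) (node (nat_lit 0) (nat_lit
  87884) (nat_lit 14) nil nil))) (node (nat_lit 0) (nat_lit 87342) (nat_lit 13) nil nil)) (node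
  (nat_lit 4) (nat_lit 0) (nat_lit 12) (node (nat_lit 5) (nat_lit 0) (nat_lit 13) (node (nat_lit
  6) (nat_lit 0) (nat_lit 14) (node (nat_lit 5) (nat_lit 0) (nat_lit 15) (node (nat_lit 4)
  (nat_lit 77570) (nat_lit 16) (node (nat_lit 6) (nat_lit 78474) (nat_lit 17) (node (nat_lit 4)
  (nat_lit 79467) (nat_lit 18) (node (nat_lit 5) (nat_lit 48858) (nat_lit 19) (node (nat_lit 4)
  (nat_lit 48742) (nat_lit 20) (node (nat_lit 6) (nat_lit 48784) (nat_lit 21) nil nil) nil) nil)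
  nil) nil) (node (nat_lit 0) (nat_lit 78093) (nat_lit 16) nil nil)) (node (nat_lit 4) (nat_lit
  84204) (nat_lit 15) (node (nat_lit 6) (nat_lit 84500) (nat_lit 16) (node (nat_lit 5) (nat_lit
  84009) (nat_lit 17) nil nil) (node (nat_lit 5) (nat_lit 84896) (nat_lit 16) nil nil)) (node
  (nat_lit 0) (nat_lit 85380) (nat_lit 15) nil nil))) (node (nat_lit 0) (nat_lit 84693) (nat_lit
  14) nil nil)) (node (nat_lit 0) (nat_lit 87960) (nat_lit 13) nil nil)) (node (nat_lit 0)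
  (nat_lit 85807) (nat_lit 12) nil nil))) (node (nat_lit 0) (nat_lit 84333) (nat_lit 11) nil nil))
  (node (nat_lit 0) (nat_lit 82528) (nat_lit 10) nil nil)) (node (nat_lit 0) (nat_lit 78663)
  (nat_lit 9) (node (nat_lit 6) (nat_lit 78663) (nat_lit 10) nil (node (nat_lit 4) (nat_lit 78663)
  (nat_lit 10) nil (node (nat_lit 5) (nat_lit 78663) (nat_lit 10) nil nil))) nil))) nil) nil))
  (node (nat_lit 5) (nat_lit 0) (nat_lit 6) (node (nat_lit 6) (nat_lit 0) (nat_lit 7) (node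
  (nat_lit 4) (nat_lit 0) (nat_lit 8) (node (nat_lit 6) (nat_lit 0) (nat_lit 9) (node (nat_lit 5)
  (nat_lit 0) (nat_lit 10) (node (nat_lit 4) (nat_lit 0) (nat_lit 11) (node (nat_lit 5) (nat_lit
  0) (nat_lit 12) (node (nat_lit 6) (nat_lit 0) (nat_lit 13) (node (nat_lit 5) (nat_lit 0)
  (nat_lit 14) (node (nat_lit 4) (nat_lit 0) (nat_lit 15) (node (nat_lit 6) (nat_lit 0) (nat_lit
  16) (node (nat_lit 4) (nat_lit 0) (nat_lit 17) (node (nat_lit 5) (nat_lit 0) (nat_lit 18) (node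
  (nat_lit 6) (nat_lit 0) (nat_lit 19) (node (nat_lit 5) (nat_lit 61644) (nat_lit 20) (node
  (nat_lit 4) (nat_lit 60626) (nat_lit 21) (node (nat_lit 5) (nat_lit 59106) (nat_lit 22) (node
  (nat_lit 6) (nat_lit 58520) (nat_lit 23) (node (nat_lit 4) (nat_lit 58666) (nat_lit 24) (node
  (nat_lit 6) (nat_lit 58738) (nat_lit 25) (node (nat_lit 5) (nat_lit 58820) (nat_lit 26) (node
  (nat_lit 4) (nat_lit 58881) (nat_lit 27) nil nil) nil) nil) nil) nil) nil) nil) (node (nat_lit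
  4) (nat_lit 62472) (nat_lit 20) nil (node (nat_lit 0) (nat_lit 62472) (nat_lit 20) nil nil)))
  (node (nat_lit 4) (nat_lit 62472) (nat_lit 19) (node (nat_lit 6) (nat_lit 62472) (nat_lit 20)
  (node (nat_lit 5) (nat_lit 62472) (nat_lit 21) (node (nat_lit 6) (nat_lit 62472) (nat_lit 22)
  (node (nat_lit 4) (nat_lit 62472) (nat_lit 23) nil nil) nil) nil) nil) (node (nat_lit 0)
  (nat_lit 62472) (nat_lit 19) nil nil))) (node (nat_lit 0) (nat_lit 62472) (nat_lit 18) nil nil))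
  (node (nat_lit 5) (nat_lit 0) (nat_lit 17) (node (nat_lit 6) (nat_lit 62472) (nat_lit 18) (node
  (nat_lit 4) (nat_lit 62472) (nat_lit 19) (node (nat_lit 5) (nat_lit 62472) (nat_lit 20) (node
  (nat_lit 6) (nat_lit 62472) (nat_lit 21) (node (nat_lit 5) (nat_lit 62472) (nat_lit 22) (node
  (nat_lit 4) (nat_lit 62472) (nat_lit 23) (node (nat_lit 5) (nat_lit 62472) (nat_lit 24) (node
  (nat_lit 6) (nat_lit 62472) (nat_lit 25) (node (nat_lit 4) (nat_lit 62472) (nat_lit 26) (node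
  (nat_lit 6) (nat_lit 62443) (nat_lit 27) (node (nat_lit 5) (nat_lit 56970) (nat_lit 28) (node
  (nat_lit 4) (nat_lit 50796) (nat_lit 29) (node (nat_lit 5) (nat_lit 41666) (nat_lit 30) (node
  (nat_lit 6) (nat_lit 36105) (nat_lit 31) nil nil) nil) nil) nil) nil) nil) nil) nil) nil) nil)
  (node (nat_lit 4) (nat_lit 62472) (nat_lit 21) nil nil)) nil) nil) (node (nat_lit 0) (nat_lit
  62472) (nat_lit 18) nil nil)) (node (nat_lit 0) (nat_lit 62472) (nat_lit 17) nil nil))) (node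
  (nat_lit 0) (nat_lit 62472) (nat_lit 16) nil nil)) (node (nat_lit 0) (nat_lit 62472) (nat_lit
  15) (node (nat_lit 6) (nat_lit 62472) (nat_lit 16) nil nil) nil)) (node (nat_lit 0) (nat_lit
  62472) (nat_lit 14) (node (nat_lit 6) (nat_lit 62472) (nat_lit 15) (node (nat_lit 5) (nat_lit
  62472) (nat_lit 16) nil (node (nat_lit 4) (nat_lit 62472) (nat_lit 16) nil nil)) (node (nat_lit
  5) (nat_lit 62472) (nat_lit 15) (node (nat_lit 6) (nat_lit 62472) (nat_lit 16) nil (node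
  (nat_lit 4) (nat_lit 62472) (nat_lit 16) nil nil)) (node (nat_lit 4) (nat_lit 62472) (nat_lit
  15) (node (nat_lit 6) (nat_lit 62472) (nat_lit 16) nil (node (nat_lit 5) (nat_lit 62472)
  (nat_lit 16) nil nil)) nil))) nil)) (node (nat_lit 0) (nat_lit 61483) (nat_lit 13) (node
  (nat_lit 4) (nat_lit 61483) (nat_lit 14) nil (node (nat_lit 5) (nat_lit 61483) (nat_lit 14) nil
  (node (nat_lit 6) (nat_lit 61483) (nat_lit 14) nil nil))) nil)) (node (nat_lit 6) (nat_lit 0)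
  (nat_lit 12) (node (nat_lit 4) (nat_lit 0) (nat_lit 13) (node (nat_lit 5) (nat_lit 0) (nat_lit
  14) (node (nat_lit 4) (nat_lit 0) (nat_lit 15) (node (nat_lit 6) (nat_lit 62011) (nat_lit 16)
  (node (nat_lit 5) (nat_lit 62472) (nat_lit 17) (node (nat_lit 6) (nat_lit 62472) (nat_lit 18)
  (node (nat_lit 4) (nat_lit 62472) (nat_lit 19) (node (nat_lit 5) (nat_lit 62472) (nat_lit 20)
  (node (nat_lit 6) (nat_lit 62472) (nat_lit 21) (node (nat_lit 5) (nat_lit 62472) (nat_lit 22)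
  (node (nat_lit 4) (nat_lit 62472) (nat_lit 23) (node (nat_lit 5) (nat_lit 62472) (nat_lit 24)
  (node (nat_lit 6) (nat_lit 62472) (nat_lit 25) (node (nat_lit 4) (nat_lit 62472) (nat_lit 26)
  (node (nat_lit 6) (nat_lit 62472) (nat_lit 27) (node (nat_lit 5) (nat_lit 59434) (nat_lit 28)
  (node (nat_lit 4) (nat_lit 51589) (nat_lit 29) (node (nat_lit 6) (nat_lit 46293) (nat_lit 30)
  (node (nat_lit 4) (nat_lit 35915) (nat_lit 31) (node (nat_lit 5) (nat_lit 27483) (nat_lit 32)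
  nil nil) nil) nil) nil) nil) nil) nil) nil) nil) nil) nil) nil) nil) nil) (node (nat_lit 4)
  (nat_lit 62472) (nat_lit 18) (node (nat_lit 5) (nat_lit 62472) (nat_lit 19) (node (nat_lit 6)
  (nat_lit 62472) (nat_lit 20) nil nil) nil) nil)) nil) (node (nat_lit 0) (nat_lit 62283) (nat_lit
  16) nil nil)) (node (nat_lit 6) (nat_lit 0) (nat_lit 15) (node (nat_lit 5) (nat_lit 0) (nat_lit
  16) (node (nat_lit 4) (nat_lit 48950) (nat_lit 17) (node (nat_lit 5) (nat_lit 49573) (nat_lit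
  18) (node (nat_lit 6) (nat_lit 49996) (nat_lit 19) (node (nat_lit 4) (nat_lit 50345) (nat_lit
  20) (node (nat_lit 6) (nat_lit 36388) (nat_lit 21) (node (nat_lit 5) (nat_lit 36493) (nat_lit
  22) nil nil) nil) nil) nil) (node (nat_lit 6) (nat_lit 49492) (nat_lit 18) (node (nat_lit 5)
  (nat_lit 49542) (nat_lit 19) (node (nat_lit 6) (nat_lit 49257) (nat_lit 20) nil nil) nil) nil))
  (node (nat_lit 0) (nat_lit 50066) (nat_lit 17) nil nil)) (node (nat_lit 4) (nat_lit 61982)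
  (nat_lit 16) (node (nat_lit 6) (nat_lit 62472) (nat_lit 17) (node (nat_lit 5) (nat_lit 62472)
  (nat_lit 18) nil nil) nil) (node (nat_lit 0) (nat_lit 62472) (nat_lit 16) nil nil))) (node
  (nat_lit 0) (nat_lit 62472) (nat_lit 15) nil nil))) (node (nat_lit 0) (nat_lit 62472) (nat_lit
  14) (node (nat_lit 6) (nat_lit 62472) (nat_lit 15) nil (node (nat_lit 5) (nat_lit 62472)
  (nat_lit 15) nil (node (nat_lit 4) (nat_lit 62472) (nat_lit 15) nil nil))) nil)) (node (nat_lit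
  0) (nat_lit 61476) (nat_lit 13) (node (nat_lit 4) (nat_lit 61476) (nat_lit 14) nil (node
  (nat_lit 6) (nat_lit 61476) (nat_lit 14) nil (node (nat_lit 5) (nat_lit 61476) (nat_lit 14) nil
  nil))) nil)) (node (nat_lit 0) (nat_lit 59943) (nat_lit 12) (node (nat_lit 4) (nat_lit 59943)
  (nat_lit 13) (node (nat_lit 5) (nat_lit 59943) (nat_lit 14) nil (node (nat_lit 6) (nat_lit
  59943) (nat_lit 14) nil nil)) (node (nat_lit 5) (nat_lit 59943) (nat_lit 13) nil (node (nat_lit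
  6) (nat_lit 59943) (nat_lit 13) nil nil))) nil))) (node (nat_lit 6) (nat_lit 0) (nat_lit 11)
  (node (nat_lit 4) (nat_lit 0) (nat_lit 12) (node (nat_lit 5) (nat_lit 0) (nat_lit 13) (node
  (nat_lit 4) (nat_lit 0) (nat_lit 14) (node (nat_lit 6) (nat_lit 0) (nat_lit 15) (node (nat_lit
  4) (nat_lit 61696) (nat_lit 16) (node (nat_lit 5) (nat_lit 61866) (nat_lit 17) (node (nat_lit 6)
  (nat_lit 62103) (nat_lit 18) (node (nat_lit 5) (nat_lit 61402) (nat_lit 19) (node (nat_lit 4)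
  (nat_lit 60378) (nat_lit 20) (node (nat_lit 5) (nat_lit 57832) (nat_lit 21) (node (nat_lit 6)
  (nat_lit 52583) (nat_lit 22) (node (nat_lit 4) (nat_lit 50420) (nat_lit 23) (node (nat_lit 6)
  (nat_lit 50498) (nat_lit 24) (node (nat_lit 5) (nat_lit 50589) (nat_lit 25) (node (nat_lit 6)
  (nat_lit 36586) (nat_lit 26) (node (nat_lit 4) (nat_lit 36617) (nat_lit 27) (node (nat_lit 5)
  (nat_lit 36597) (nat_lit 28) nil nil) nil) nil) nil) nil) nil) nil) nil) nil) (node (nat_lit 4)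
  (nat_lit 62286) (nat_lit 19) nil nil)) nil) nil) (node (nat_lit 5) (nat_lit 0) (nat_lit 16)
  (node (nat_lit 4) (nat_lit 0) (nat_lit 17) (node (nat_lit 5) (nat_lit 62472) (nat_lit 18) (node
  (nat_lit 6) (nat_lit 62472) (nat_lit 19) (node (nat_lit 5) (nat_lit 62472) (nat_lit 20) (node
  (nat_lit 4) (nat_lit 62472) (nat_lit 21) (node (nat_lit 6) (nat_lit 62472) (nat_lit 22) nil nil)
  nil) (node (nat_lit 4) (nat_lit 62472) (nat_lit 20) nil nil)) nil) (node (nat_lit 0) (nat_lit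
  62472) (nat_lit 18) nil nil)) (node (nat_lit 6) (nat_lit 61462) (nat_lit 17) (node (nat_lit 4)
  (nat_lit 60688) (nat_lit 18) nil nil) (node (nat_lit 0) (nat_lit 62472) (nat_lit 17) nil nil)))
  (node (nat_lit 0) (nat_lit 61771) (nat_lit 16) nil nil))) (node (nat_lit 0) (nat_lit 62118)
  (nat_lit 15) nil nil)) (node (nat_lit 6) (nat_lit 0) (nat_lit 14) (node (nat_lit 5) (nat_lit 0)
  (nat_lit 15) (node (nat_lit 4) (nat_lit 0) (nat_lit 16) (node (nat_lit 6) (nat_lit 51182)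
  (nat_lit 17) (node (nat_lit 4) (nat_lit 51904) (nat_lit 18) (node (nat_lit 5) (nat_lit 52476)
  (nat_lit 19) (node (nat_lit 6) (nat_lit 51411) (nat_lit 20) nil (node (nat_lit 4) (nat_lit
  52517) (nat_lit 20) nil nil)) nil) (node (nat_lit 5) (nat_lit 51915) (nat_lit 18) (node (nat_lit
  6) (nat_lit 52294) (nat_lit 19) (node (nat_lit 4) (nat_lit 51809) (nat_lit 20) nil nil) nil)
  nil)) (node (nat_lit 5) (nat_lit 51258) (nat_lit 17) (node (nat_lit 6) (nat_lit 27265) (nat_lit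
  18) (node (nat_lit 4) (nat_lit 27538) (nat_lit 19) (node (nat_lit 5) (nat_lit 27680) (nat_lit
  20) (node (nat_lit 4) (nat_lit 27590) (nat_lit 21) nil nil) nil) nil) nil) (node (nat_lit 0)
  (nat_lit 52007) (nat_lit 17) nil nil))) (node (nat_lit 0) (nat_lit 52214) (nat_lit 16) nil nil))
  (node (nat_lit 0) (nat_lit 53848) (nat_lit 15) nil nil)) (node (nat_lit 0) (nat_lit 61427)
  (nat_lit 14) nil nil))) (node (nat_lit 0) (nat_lit 61271) (nat_lit 13) nil nil)) (node (nat_lit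
  0) (nat_lit 59956) (nat_lit 12) (node (nat_lit 5) (nat_lit 59956) (nat_lit 13) nil (node
  (nat_lit 6) (nat_lit 59956) (nat_lit 13) nil (node (nat_lit 4) (nat_lit 59956) (nat_lit 13) nil
  nil))) nil)) (node (nat_lit 0) (nat_lit 57675) (nat_lit 11) (node (nat_lit 5) (nat_lit 57824)
  (nat_lit 12) (node (nat_lit 6) (nat_lit 57824) (nat_lit 13) nil (node (nat_lit 4) (nat_lit
  57824) (nat_lit 13) nil nil)) (node (nat_lit 4) (nat_lit 57887) (nat_lit 12) (node (nat_lit 6)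
  (nat_lit 57934) (nat_lit 13) (node (nat_lit 5) (nat_lit 57934) (nat_lit 14) nil nil) (node
  (nat_lit 5) (nat_lit 57883) (nat_lit 13) (node (nat_lit 6) (nat_lit 57883) (nat_lit 14) nil
  (node (nat_lit 4) (nat_lit 57883) (nat_lit 14) nil nil)) nil)) (node (nat_lit 6) (nat_lit 57821)
  (nat_lit 12) (node (nat_lit 5) (nat_lit 58150) (nat_lit 13) (node (nat_lit 4) (nat_lit 58150)
  (nat_lit 14) nil (node (nat_lit 6) (nat_lit 58150) (nat_lit 14) nil nil)) (node (nat_lit 4)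
  (nat_lit 57821) (nat_lit 13) (node (nat_lit 5) (nat_lit 57821) (nat_lit 14) nil nil) nil))
  nil))) nil))) (node (nat_lit 0) (nat_lit 54691) (nat_lit 10) (node (nat_lit 5) (nat_lit 54691)
  (nat_lit 11) nil (node (nat_lit 4) (nat_lit 54691) (nat_lit 11) nil (node (nat_lit 6) (nat_lit
  54691) (nat_lit 11) nil nil))) nil)) (node (nat_lit 5) (nat_lit 0) (nat_lit 9) (node (nat_lit 4)
  (nat_lit 0) (nat_lit 10) (node (nat_lit 6) (nat_lit 0) (nat_lit 11) (node (nat_lit 5) (nat_lit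
  0) (nat_lit 12) (node (nat_lit 4) (nat_lit 0) (nat_lit 13) (node (nat_lit 5) (nat_lit 0)
  (nat_lit 14) (node (nat_lit 6) (nat_lit 0) (nat_lit 15) (node (nat_lit 5) (nat_lit 61843)
  (nat_lit 16) (node (nat_lit 4) (nat_lit 62472) (nat_lit 17) (node (nat_lit 6) (nat_lit 62472)
  (nat_lit 18) (node (nat_lit 4) (nat_lit 62472) (nat_lit 19) (node (nat_lit 5) (nat_lit 62472)
  (nat_lit 20) (node (nat_lit 6) (nat_lit 62472) (nat_lit 21) (node (nat_lit 5) (nat_lit 62472)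
  (nat_lit 22) (node (nat_lit 4) (nat_lit 62472) (nat_lit 23) (node (nat_lit 5) (nat_lit 62042)
  (nat_lit 24) (node (nat_lit 6) (nat_lit 61177) (nat_lit 25) (node (nat_lit 4) (nat_lit 58963)
  (nat_lit 26) (node (nat_lit 5) (nat_lit 58403) (nat_lit 27) (node (nat_lit 4) (nat_lit 58450)
  (nat_lit 28) (node (nat_lit 6) (nat_lit 58464) (nat_lit 29) (node (nat_lit 5) (nat_lit 58495)
  (nat_lit 30) nil nil) nil) nil) nil) nil) nil) nil) nil) nil) nil) nil) (node (nat_lit 5)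
  (nat_lit 62472) (nat_lit 19) nil nil)) nil) nil) (node (nat_lit 4) (nat_lit 61904) (nat_lit 16)
  (node (nat_lit 6) (nat_lit 62118) (nat_lit 17) (node (nat_lit 5) (nat_lit 62289) (nat_lit 18)
  (node (nat_lit 4) (nat_lit 62139) (nat_lit 19) nil (node (nat_lit 6) (nat_lit 61911) (nat_lit
  19) nil nil)) nil) (node (nat_lit 5) (nat_lit 62204) (nat_lit 17) nil nil)) (node (nat_lit 0)
  (nat_lit 62249) (nat_lit 16) nil nil))) (node (nat_lit 0) (nat_lit 62472) (nat_lit 15) nil nil))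
  (node (nat_lit 0) (nat_lit 61298) (nat_lit 14) nil nil)) (node (nat_lit 6) (nat_lit 0) (nat_lit
  13) (node (nat_lit 4) (nat_lit 59457) (nat_lit 14) (node (nat_lit 5) (nat_lit 60334) (nat_lit
  15) (node (nat_lit 6) (nat_lit 61140) (nat_lit 16) (node (nat_lit 5) (nat_lit 61488) (nat_lit
  17) (node (nat_lit 4) (nat_lit 58524) (nat_lit 18) (node (nat_lit 5) (nat_lit 43157) (nat_lit
  19) (node (nat_lit 6) (nat_lit 33508) (nat_lit 20) (node (nat_lit 4) (nat_lit 33808) (nat_lit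
  21) (node (nat_lit 5) (nat_lit 25882) (nat_lit 22) (node (nat_lit 4) (nat_lit 25942) (nat_lit
  23) nil nil) nil) nil) nil) nil) nil) nil) nil) (node (nat_lit 6) (nat_lit 60617) (nat_lit 15)
  (node (nat_lit 5) (nat_lit 61057) (nat_lit 16) (node (nat_lit 4) (nat_lit 61485) (nat_lit 17)
  (node (nat_lit 5) (nat_lit 61720) (nat_lit 18) nil nil) nil) nil) nil)) (node (nat_lit 0)
  (nat_lit 61189) (nat_lit 14) nil nil)) (node (nat_lit 0) (nat_lit 59473) (nat_lit 13) nil nil)))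
  (node (nat_lit 4) (nat_lit 0) (nat_lit 12) (node (nat_lit 5) (nat_lit 0) (nat_lit 13) (node
  (nat_lit 6) (nat_lit 0) (nat_lit 14) (node (nat_lit 5) (nat_lit 46832) (nat_lit 15) (node
  (nat_lit 4) (nat_lit 47999) (nat_lit 16) (node (nat_lit 5) (nat_lit 48689) (nat_lit 17) (node
  (nat_lit 6) (nat_lit 49290) (nat_lit 18) (node (nat_lit 4) (nat_lit 36102) (nat_lit 19) (node
  (nat_lit 5) (nat_lit 36332) (nat_lit 20) nil nil) nil) nil) (node (nat_lit 6) (nat_lit 48582)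
  (nat_lit 17) (node (nat_lit 5) (nat_lit 48972) (nat_lit 18) nil nil) nil)) nil) (node (nat_lit
  4) (nat_lit 55250) (nat_lit 15) (node (nat_lit 6) (nat_lit 56402) (nat_lit 16) (node (nat_lit 5)
  (nat_lit 57317) (nat_lit 17) (node (nat_lit 4) (nat_lit 57850) (nat_lit 18) (node (nat_lit 5)
  (nat_lit 58034) (nat_lit 19) (node (nat_lit 6) (nat_lit 58176) (nat_lit 20) nil nil) nil) nil)
  nil) nil) (node (nat_lit 0) (nat_lit 55209) (nat_lit 15) nil nil))) (node (nat_lit 0) (nat_lit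
  55982) (nat_lit 14) nil nil)) (node (nat_lit 0) (nat_lit 59217) (nat_lit 13) nil nil)) (node
  (nat_lit 0) (nat_lit 59532) (nat_lit 12) nil nil))) (node (nat_lit 0) (nat_lit 57518) (nat_lit
  11) (node (nat_lit 6) (nat_lit 57518) (nat_lit 12) nil (node (nat_lit 5) (nat_lit 57518)
  (nat_lit 12) nil nil)) nil)) (node (nat_lit 0) (nat_lit 54799) (nat_lit 10) (node (nat_lit 6)
  (nat_lit 54795) (nat_lit 11) (node (nat_lit 5) (nat_lit 54795) (nat_lit 12) nil (node (nat_lit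
  4) (nat_lit 54795) (nat_lit 12) nil nil)) (node (nat_lit 4) (nat_lit 54847) (nat_lit 11) (node
  (nat_lit 5) (nat_lit 54847) (nat_lit 12) nil (node (nat_lit 6) (nat_lit 54847) (nat_lit 12) nil
  nil)) (node (nat_lit 5) (nat_lit 54799) (nat_lit 11) (node (nat_lit 6) (nat_lit 54799) (nat_lit
  12) nil (node (nat_lit 4) (nat_lit 54799) (nat_lit 12) nil nil)) nil))) nil)) (node (nat_lit 0)
  (nat_lit 51068) (nat_lit 9) (node (nat_lit 6) (nat_lit 51634) (nat_lit 10) (node (nat_lit 4)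
  (nat_lit 51634) (nat_lit 11) nil (node (nat_lit 5) (nat_lit 51634) (nat_lit 11) nil nil)) (node
  (nat_lit 5) (nat_lit 51865) (nat_lit 10) (node (nat_lit 4) (nat_lit 51865) (nat_lit 11) nil
  (node (nat_lit 6) (nat_lit 51865) (nat_lit 11) nil nil)) (node (nat_lit 4) (nat_lit 50939)
  (nat_lit 10) (node (nat_lit 5) (nat_lit 50939) (nat_lit 11) nil (node (nat_lit 6) (nat_lit
  50939) (nat_lit 11) nil nil)) nil))) nil))) nil) nil) nil))

noncomputable def t312 : Tr :=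
  (node (nat_lit 7) (nat_lit 0) (nat_lit 6) (node (nat_lit 4) (nat_lit 0) (nat_lit 7) (node
  (nat_lit 5) (nat_lit 0) (nat_lit 8) (node (nat_lit 4) (nat_lit 0) (nat_lit 9) (node (nat_lit 7)
  (nat_lit 0) (nat_lit 10) (node (nat_lit 4) (nat_lit 0) (nat_lit 11) (node (nat_lit 5) (nat_lit
  0) (nat_lit 12) (node (nat_lit 7) (nat_lit 0) (nat_lit 13) (node (nat_lit 5) (nat_lit 0)
  (nat_lit 14) (node (nat_lit 4) (nat_lit 0) (nat_lit 15) (node (nat_lit 7) (nat_lit 23138)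
  (nat_lit 16) (node (nat_lit 4) (nat_lit 23712) (nat_lit 17) (node (nat_lit 5) (nat_lit 24159)
  (nat_lit 18) (node (nat_lit 4) (nat_lit 24508) (nat_lit 19) (node (nat_lit 7) (nat_lit 24750)
  (nat_lit 20) (node (nat_lit 5) (nat_lit 23839) (nat_lit 21) (node (nat_lit 7) (nat_lit 21922)
  (nat_lit 22) (node (nat_lit 4) (nat_lit 19016) (nat_lit 23) (node (nat_lit 5) (nat_lit 13558)
  (nat_lit 24) nil nil) nil) nil) nil) nil) nil) nil) (node (nat_lit 5) (nat_lit 23712) (nat_lit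
  17) (node (nat_lit 7) (nat_lit 24159) (nat_lit 18) (node (nat_lit 4) (nat_lit 24508) (nat_lit
  19) (node (nat_lit 5) (nat_lit 24593) (nat_lit 20) (node (nat_lit 4) (nat_lit 24698) (nat_lit
  21) (node (nat_lit 7) (nat_lit 24810) (nat_lit 22) (node (nat_lit 5) (nat_lit 24913) (nat_lit
  23) nil nil) nil) nil) (node (nat_lit 7) (nat_lit 24686) (nat_lit 20) (node (nat_lit 5) (nat_lit
  24603) (nat_lit 21) (node (nat_lit 4) (nat_lit 24536) (nat_lit 22) nil nil) nil) nil)) nil) nil)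
  nil)) (node (nat_lit 5) (nat_lit 23138) (nat_lit 16) (node (nat_lit 7) (nat_lit 23513) (nat_lit
  17) (node (nat_lit 4) (nat_lit 23870) (nat_lit 18) (node (nat_lit 5) (nat_lit 23978) (nat_lit
  19) (node (nat_lit 4) (nat_lit 24111) (nat_lit 20) (node (nat_lit 7) (nat_lit 24255) (nat_lit
  21) (node (nat_lit 5) (nat_lit 24387) (nat_lit 22) (node (nat_lit 7) (nat_lit 24490) (nat_lit
  23) (node (nat_lit 4) (nat_lit 24571) (nat_lit 24) (node (nat_lit 5) (nat_lit 24595) (nat_lit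
  25) nil nil) nil) nil) nil) nil) nil) (node (nat_lit 7) (nat_lit 24060) (nat_lit 19) nil nil))
  nil) nil) (node (nat_lit 0) (nat_lit 23696) (nat_lit 16) nil nil))) (node (nat_lit 0) (nat_lit
  24258) (nat_lit 15) nil nil)) (node (nat_lit 4) (nat_lit 0) (nat_lit 14) (node (nat_lit 7)
  (nat_lit 0) (nat_lit 15) (node (nat_lit 5) (nat_lit 0) (nat_lit 16) (node (nat_lit 4) (nat_lit
  23712) (nat_lit 17) (node (nat_lit 5) (nat_lit 24159) (nat_lit 18) (node (nat_lit 7) (nat_lit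
  24387) (nat_lit 19) (node (nat_lit 5) (nat_lit 24535) (nat_lit 20) nil (node (nat_lit 4)
  (nat_lit 23794) (nat_lit 20) nil nil)) nil) (node (nat_lit 7) (nat_lit 24159) (nat_lit 18) (node
  (nat_lit 4) (nat_lit 24378) (nat_lit 19) (node (nat_lit 5) (nat_lit 24483) (nat_lit 20) nil nil)
  nil) nil)) (node (nat_lit 7) (nat_lit 23712) (nat_lit 17) (node (nat_lit 4) (nat_lit 24159)
  (nat_lit 18) (node (nat_lit 5) (nat_lit 24338) (nat_lit 19) (node (nat_lit 7) (nat_lit 24556)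
  (nat_lit 20) (node (nat_lit 5) (nat_lit 24672) (nat_lit 21) nil nil) (node (nat_lit 4) (nat_lit
  24300) (nat_lit 20) nil nil)) nil) nil) (node (nat_lit 0) (nat_lit 24147) (nat_lit 17) nil
  nil))) (node (nat_lit 0) (nat_lit 24586) (nat_lit 16) nil nil)) (node (nat_lit 0) (nat_lit
  24258) (nat_lit 15) nil nil)) (node (nat_lit 0) (nat_lit 23654) (nat_lit 14) nil nil))) (node
  (nat_lit 0) (nat_lit 23302) (nat_lit 13) nil nil)) (node (nat_lit 0) (nat_lit 22447) (nat_lit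
  12) (node (nat_lit 7) (nat_lit 22447) (nat_lit 13) nil (node (nat_lit 4) (nat_lit 22447)
  (nat_lit 13) nil (node (nat_lit 5) (nat_lit 22447) (nat_lit 13) nil nil))) nil)) (node (nat_lit
  0) (nat_lit 0) (nat_lit 11) (node (nat_lit 7) (nat_lit 21123) (nat_lit 12) (node (nat_lit 4)
  (nat_lit 21123) (nat_lit 13) (node (nat_lit 5) (nat_lit 21123) (nat_lit 14) nil nil) (node
  (nat_lit 5) (nat_lit 21123) (nat_lit 13) (node (nat_lit 4) (nat_lit 21123) (nat_lit 14) nil nil)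
  nil)) (node (nat_lit 5) (nat_lit 21381) (nat_lit 12) (node (nat_lit 4) (nat_lit 21565) (nat_lit
  13) (node (nat_lit 7) (nat_lit 21565) (nat_lit 14) nil nil) (node (nat_lit 7) (nat_lit 21381)
  (nat_lit 13) (node (nat_lit 4) (nat_lit 21381) (nat_lit 14) nil nil) nil)) (node (nat_lit 4)
  (nat_lit 21381) (nat_lit 12) (node (nat_lit 7) (nat_lit 21381) (nat_lit 13) (node (nat_lit 5)
  (nat_lit 21381) (nat_lit 14) nil nil) (node (nat_lit 5) (nat_lit 21381) (nat_lit 13) (node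
  (nat_lit 7) (nat_lit 21381) (nat_lit 14) nil nil) nil)) (node (nat_lit 0) (nat_lit 21638)
  (nat_lit 12) nil nil)))) nil)) (node (nat_lit 0) (nat_lit 48903) (nat_lit 10) (node (nat_lit 5)
  (nat_lit 48903) (nat_lit 11) nil (node (nat_lit 7) (nat_lit 48903) (nat_lit 11) nil (node
  (nat_lit 4) (nat_lit 48903) (nat_lit 11) nil nil))) nil)) (node (nat_lit 7) (nat_lit 0) (nat_lit
  9) (node (nat_lit 5) (nat_lit 0) (nat_lit 10) (node (nat_lit 4) (nat_lit 0) (nat_lit 11) (node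
  (nat_lit 7) (nat_lit 0) (nat_lit 12) (node (nat_lit 4) (nat_lit 0) (nat_lit 13) (node (nat_lit
  5) (nat_lit 51668) (nat_lit 14) (node (nat_lit 4) (nat_lit 45259) (nat_lit 15) (node (nat_lit 7)
  (nat_lit 45712) (nat_lit 16) (node (nat_lit 5) (nat_lit 40363) (nat_lit 17) (node (nat_lit 7)
  (nat_lit 36507) (nat_lit 18) (node (nat_lit 4) (nat_lit 36690) (nat_lit 19) (node (nat_lit 5)
  (nat_lit 29920) (nat_lit 20) (node (nat_lit 7) (nat_lit 30104) (nat_lit 21) (node (nat_lit 5)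
  (nat_lit 30247) (nat_lit 22) nil nil) nil) nil) nil) (node (nat_lit 4) (nat_lit 40606) (nat_lit
  18) nil nil)) nil) nil) (node (nat_lit 7) (nat_lit 52875) (nat_lit 15) (node (nat_lit 4)
  (nat_lit 53915) (nat_lit 16) (node (nat_lit 7) (nat_lit 54585) (nat_lit 17) (node (nat_lit 5)
  (nat_lit 54794) (nat_lit 18) (node (nat_lit 7) (nat_lit 55252) (nat_lit 19) (node (nat_lit 4)
  (nat_lit 54659) (nat_lit 20) nil nil) nil) nil) nil) nil) nil)) (node (nat_lit 0) (nat_lit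
  53942) (nat_lit 14) nil nil)) (node (nat_lit 5) (nat_lit 0) (nat_lit 13) (node (nat_lit 7)
  (nat_lit 0) (nat_lit 14) (node (nat_lit 4) (nat_lit 0) (nat_lit 15) (node (nat_lit 5) (nat_lit
  54382) (nat_lit 16) (node (nat_lit 4) (nat_lit 55250) (nat_lit 17) (node (nat_lit 7) (nat_lit
  55926) (nat_lit 18) (node (nat_lit 5) (nat_lit 56262) (nat_lit 19) (node (nat_lit 7) (nat_lit
  56620) (nat_lit 20) nil nil) (node (nat_lit 4) (nat_lit 56387) (nat_lit 19) nil nil)) nil) nil)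
  (node (nat_lit 7) (nat_lit 54382) (nat_lit 16) (node (nat_lit 5) (nat_lit 55048) (nat_lit 17)
  (node (nat_lit 4) (nat_lit 55668) (nat_lit 18) (node (nat_lit 5) (nat_lit 55800) (nat_lit 19)
  (node (nat_lit 7) (nat_lit 56067) (nat_lit 20) nil nil) (node (nat_lit 7) (nat_lit 55578)
  (nat_lit 19) nil nil)) nil) nil) (node (nat_lit 0) (nat_lit 55770) (nat_lit 16) nil nil))) (node
  (nat_lit 0) (nat_lit 55939) (nat_lit 15) nil nil)) (node (nat_lit 0) (nat_lit 54116) (nat_lit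
  14) nil nil)) (node (nat_lit 0) (nat_lit 52607) (nat_lit 13) nil nil))) (node (nat_lit 5)
  (nat_lit 0) (nat_lit 12) (node (nat_lit 7) (nat_lit 0) (nat_lit 13) (node (nat_lit 4) (nat_lit
  51199) (nat_lit 14) (node (nat_lit 5) (nat_lit 52200) (nat_lit 15) (node (nat_lit 4) (nat_lit
  51674) (nat_lit 16) (node (nat_lit 7) (nat_lit 47919) (nat_lit 17) (node (nat_lit 5) (nat_lit
  39129) (nat_lit 18) (node (nat_lit 7) (nat_lit 39660) (nat_lit 19) (node (nat_lit 4) (nat_lit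
  35104) (nat_lit 20) (node (nat_lit 5) (nat_lit 22976) (nat_lit 21) (node (nat_lit 7) (nat_lit
  23108) (nat_lit 22) (node (nat_lit 5) (nat_lit 23147) (nat_lit 23) (node (nat_lit 4) (nat_lit
  23197) (nat_lit 24) nil nil) nil) nil) nil) nil) nil) nil) nil) nil) (node (nat_lit 7) (nat_lit
  0) (nat_lit 15) (node (nat_lit 5) (nat_lit 52811) (nat_lit 16) (node (nat_lit 4) (nat_lit 52558)
  (nat_lit 17) (node (nat_lit 7) (nat_lit 52173) (nat_lit 18) nil nil) nil) (node (nat_lit 0)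
  (nat_lit 53617) (nat_lit 16) nil nil)) nil)) (node (nat_lit 0) (nat_lit 51745) (nat_lit 14) nil
  nil)) (node (nat_lit 0) (nat_lit 52389) (nat_lit 13) nil nil)) (node (nat_lit 0) (nat_lit 52375)
  (nat_lit 12) nil nil))) (node (nat_lit 0) (nat_lit 51418) (nat_lit 11) (node (nat_lit 4)
  (nat_lit 51418) (nat_lit 12) nil (node (nat_lit 7) (nat_lit 51418) (nat_lit 12) nil nil)) nil))
  (node (nat_lit 0) (nat_lit 48958) (nat_lit 10) (node (nat_lit 4) (nat_lit 49141) (nat_lit 11)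
  (node (nat_lit 7) (nat_lit 49141) (nat_lit 12) nil (node (nat_lit 5) (nat_lit 49141) (nat_lit
  12) nil (node (nat_lit 13) (nat_lit 50051) (nat_lit 12) nil nil))) (node (nat_lit 5) (nat_lit
  49141) (nat_lit 11) (node (nat_lit 7) (nat_lit 49141) (nat_lit 12) nil (node (nat_lit 4)
  (nat_lit 49141) (nat_lit 12) nil nil)) (node (nat_lit 7) (nat_lit 48958) (nat_lit 11) (node
  (nat_lit 4) (nat_lit 48958) (nat_lit 12) nil (node (nat_lit 5) (nat_lit 48958) (nat_lit 12) nil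
  nil)) (node (nat_lit 0) (nat_lit 49469) (nat_lit 11) nil nil)))) nil)) (node (nat_lit 0)
  (nat_lit 45858) (nat_lit 9) (node (nat_lit 7) (nat_lit 45660) (nat_lit 10) (node (nat_lit 5)
  (nat_lit 46199) (nat_lit 11) (node (nat_lit 4) (nat_lit 46199) (nat_lit 12) nil (node (nat_lit
  7) (nat_lit 46199) (nat_lit 12) nil nil)) (node (nat_lit 4) (nat_lit 45632) (nat_lit 11) (node
  (nat_lit 5) (nat_lit 45632) (nat_lit 12) nil (node (nat_lit 7) (nat_lit 45632) (nat_lit 12) nil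
  nil)) nil)) (node (nat_lit 4) (nat_lit 46092) (nat_lit 10) (node (nat_lit 7) (nat_lit 46092)
  (nat_lit 11) (node (nat_lit 5) (nat_lit 46092) (nat_lit 12) nil nil) (node (nat_lit 5) (nat_lit
  46064) (nat_lit 11) (node (nat_lit 7) (nat_lit 46064) (nat_lit 12) nil (node (nat_lit 4)
  (nat_lit 46064) (nat_lit 12) nil nil)) nil)) (node (nat_lit 5) (nat_lit 46092) (nat_lit 10)
  (node (nat_lit 7) (nat_lit 46392) (nat_lit 11) (node (nat_lit 4) (nat_lit 46392) (nat_lit 12)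
  nil nil) (node (nat_lit 4) (nat_lit 46632) (nat_lit 11) nil nil)) nil))) nil))) (node (nat_lit
  7) (nat_lit 0) (nat_lit 8) (node (nat_lit 5) (nat_lit 0) (nat_lit 9) (node (nat_lit 4) (nat_lit
  0) (nat_lit 10) (node (nat_lit 5) (nat_lit 0) (nat_lit 11) (node (nat_lit 7) (nat_lit 0)
  (nat_lit 12) (node (nat_lit 4) (nat_lit 0) (nat_lit 13) (node (nat_lit 5) (nat_lit 0) (nat_lit
  14) (node (nat_lit 4) (nat_lit 0) (nat_lit 15) (node (nat_lit 7) (nat_lit 55828) (nat_lit 16)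
  (node (nat_lit 5) (nat_lit 0) (nat_lit 17) (node (nat_lit 7) (nat_lit 0) (nat_lit 18) (node
  (nat_lit 4) (nat_lit 32467) (nat_lit 19) (node (nat_lit 7) (nat_lit 32656) (nat_lit 20) (node
  (nat_lit 5) (nat_lit 32781) (nat_lit 21) (node (nat_lit 4) (nat_lit 24803) (nat_lit 22) nil nil)
  nil) (node (nat_lit 5) (nat_lit 32730) (nat_lit 20) (node (nat_lit 7) (nat_lit 32846) (nat_lit
  21) nil nil) nil)) (node (nat_lit 0) (nat_lit 33157) (nat_lit 19) nil nil)) (node (nat_lit 4)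
  (nat_lit 47356) (nat_lit 18) (node (nat_lit 5) (nat_lit 47995) (nat_lit 19) (node (nat_lit 7)
  (nat_lit 48026) (nat_lit 20) nil nil) nil) (node (nat_lit 0) (nat_lit 48014) (nat_lit 18) nil
  nil))) (node (nat_lit 4) (nat_lit 56785) (nat_lit 17) (node (nat_lit 5) (nat_lit 57375) (nat_lit
  18) (node (nat_lit 7) (nat_lit 57766) (nat_lit 19) nil nil) nil) nil)) (node (nat_lit 0)
  (nat_lit 59054) (nat_lit 16) nil nil)) (node (nat_lit 0) (nat_lit 59312) (nat_lit 15) nil nil))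
  (node (nat_lit 7) (nat_lit 0) (nat_lit 14) (node (nat_lit 5) (nat_lit 57754) (nat_lit 15) (node
  (nat_lit 7) (nat_lit 58846) (nat_lit 16) (node (nat_lit 4) (nat_lit 59324) (nat_lit 17) (node
  (nat_lit 5) (nat_lit 59552) (nat_lit 18) (node (nat_lit 4) (nat_lit 59655) (nat_lit 19) (node
  (nat_lit 7) (nat_lit 58942) (nat_lit 20) (node (nat_lit 5) (nat_lit 58231) (nat_lit 21) (node
  (nat_lit 7) (nat_lit 56188) (nat_lit 22) (node (nat_lit 4) (nat_lit 54320) (nat_lit 23) (node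
  (nat_lit 7) (nat_lit 54453) (nat_lit 24) (node (nat_lit 5) (nat_lit 54489) (nat_lit 25) (node
  (nat_lit 4) (nat_lit 54542) (nat_lit 26) (node (nat_lit 5) (nat_lit 54597) (nat_lit 27) (node
  (nat_lit 7) (nat_lit 54642) (nat_lit 28) (node (nat_lit 4) (nat_lit 54655) (nat_lit 29) nil nil)
  nil) nil) nil) nil) nil) nil) nil) nil) nil) nil) nil) nil) nil) (node (nat_lit 0) (nat_lit
  59719) (nat_lit 15) nil nil)) (node (nat_lit 0) (nat_lit 60216) (nat_lit 14) nil nil))) (node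
  (nat_lit 5) (nat_lit 0) (nat_lit 13) (node (nat_lit 4) (nat_lit 59118) (nat_lit 14) (node
  (nat_lit 7) (nat_lit 60949) (nat_lit 15) (node (nat_lit 4) (nat_lit 62174) (nat_lit 16) (node
  (nat_lit 5) (nat_lit 62931) (nat_lit 17) (node (nat_lit 4) (nat_lit 63520) (nat_lit 18) (node
  (nat_lit 7) (nat_lit 63779) (nat_lit 19) (node (nat_lit 5) (nat_lit 64030) (nat_lit 20) (node
  (nat_lit 7) (nat_lit 60414) (nat_lit 21) (node (nat_lit 4) (nat_lit 57296) (nat_lit 22) (node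
  (nat_lit 7) (nat_lit 46295) (nat_lit 23) (node (nat_lit 5) (nat_lit 46424) (nat_lit 24) (node
  (nat_lit 4) (nat_lit 46473) (nat_lit 25) (node (nat_lit 5) (nat_lit 39091) (nat_lit 26) (node
  (nat_lit 7) (nat_lit 39127) (nat_lit 27) (node (nat_lit 5) (nat_lit 915) (nat_lit 28) nil nil)
  nil) nil) nil) nil) nil) nil) nil) nil) nil) (node (nat_lit 7) (nat_lit 63174) (nat_lit 18) nil
  nil)) nil) (node (nat_lit 5) (nat_lit 62225) (nat_lit 16) (node (nat_lit 7) (nat_lit 62058)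
  (nat_lit 17) nil nil) nil)) nil) (node (nat_lit 0) (nat_lit 58938) (nat_lit 14) nil nil)) (node
  (nat_lit 0) (nat_lit 60116) (nat_lit 13) nil nil))) (node (nat_lit 0) (nat_lit 57937) (nat_lit
  12) nil nil)) (node (nat_lit 7) (nat_lit 0) (nat_lit 11) (node (nat_lit 4) (nat_lit 0) (nat_lit
  12) (node (nat_lit 5) (nat_lit 0) (nat_lit 13) (node (nat_lit 7) (nat_lit 59334) (nat_lit 14)
  (node (nat_lit 5) (nat_lit 60488) (nat_lit 15) (node (nat_lit 4) (nat_lit 61395) (nat_lit 16)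
  (node (nat_lit 7) (nat_lit 60894) (nat_lit 17) nil (node (nat_lit 5) (nat_lit 61146) (nat_lit
  17) nil nil)) nil) (node (nat_lit 4) (nat_lit 60433) (nat_lit 15) (node (nat_lit 7) (nat_lit
  60832) (nat_lit 16) nil nil) nil)) (node (nat_lit 4) (nat_lit 0) (nat_lit 14) (node (nat_lit 7)
  (nat_lit 47815) (nat_lit 15) (node (nat_lit 5) (nat_lit 48960) (nat_lit 16) (node (nat_lit 7)
  (nat_lit 37219) (nat_lit 17) (node (nat_lit 4) (nat_lit 37221) (nat_lit 18) (node (nat_lit 7)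
  (nat_lit 37321) (nat_lit 19) (node (nat_lit 5) (nat_lit 37502) (nat_lit 20) nil nil) nil) nil)
  (node (nat_lit 4) (nat_lit 49268) (nat_lit 17) (node (nat_lit 5) (nat_lit 49083) (nat_lit 18)
  nil nil) nil)) nil) (node (nat_lit 0) (nat_lit 55169) (nat_lit 15) nil nil)) (node (nat_lit 0)
  (nat_lit 61209) (nat_lit 14) nil nil))) (node (nat_lit 0) (nat_lit 60462) (nat_lit 13) nil nil))
  (node (nat_lit 0) (nat_lit 58981) (nat_lit 12) nil nil)) (node (nat_lit 0) (nat_lit 57712)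
  (nat_lit 11) nil nil))) (node (nat_lit 0) (nat_lit 54422) (nat_lit 10) nil nil)) (node (nat_lit
  0) (nat_lit 50686) (nat_lit 9) (node (nat_lit 4) (nat_lit 50873) (nat_lit 10) nil (node (nat_lit
  7) (nat_lit 50686) (nat_lit 10) nil nil)) nil)) nil)) nil) (node (nat_lit 4) (nat_lit 0)
  (nat_lit 6) (node (nat_lit 5) (nat_lit 0) (nat_lit 7) (node (nat_lit 7) (nat_lit 0) (nat_lit 8)
  (node (nat_lit 4) (nat_lit 0) (nat_lit 9) (node (nat_lit 7) (nat_lit 0) (nat_lit 10) (node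
  (nat_lit 5) (nat_lit 0) (nat_lit 11) (node (nat_lit 4) (nat_lit 0) (nat_lit 12) (node (nat_lit
  7) (nat_lit 0) (nat_lit 13) (node (nat_lit 4) (nat_lit 0) (nat_lit 14) (node (nat_lit 5)
  (nat_lit 0) (nat_lit 15) (node (nat_lit 4) (nat_lit 66262) (nat_lit 16) (node (nat_lit 7)
  (nat_lit 62569) (nat_lit 17) (node (nat_lit 5) (nat_lit 63273) (nat_lit 18) (node (nat_lit 4)
  (nat_lit 58075) (nat_lit 19) (node (nat_lit 5) (nat_lit 58208) (nat_lit 20) (node (nat_lit 7)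
  (nat_lit 58485) (nat_lit 21) (node (nat_lit 4) (nat_lit 45573) (nat_lit 22) (node (nat_lit 7)
  (nat_lit 45609) (nat_lit 23) (node (nat_lit 5) (nat_lit 45676) (nat_lit 24) nil nil) nil) nil)
  nil) nil) (node (nat_lit 7) (nat_lit 63920) (nat_lit 19) (node (nat_lit 4) (nat_lit 64382)
  (nat_lit 20) (node (nat_lit 5) (nat_lit 64643) (nat_lit 21) nil nil) nil) nil)) nil) nil) (node
  (nat_lit 7) (nat_lit 0) (nat_lit 16) (node (nat_lit 4) (nat_lit 66262) (nat_lit 17) (node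
  (nat_lit 7) (nat_lit 66262) (nat_lit 18) (node (nat_lit 5) (nat_lit 66262) (nat_lit 19) nil nil)
  nil) (node (nat_lit 5) (nat_lit 66262) (nat_lit 17) (node (nat_lit 4) (nat_lit 66262) (nat_lit
  18) (node (nat_lit 7) (nat_lit 66262) (nat_lit 19) nil nil) nil) (node (nat_lit 0) (nat_lit
  66262) (nat_lit 17) nil nil))) (node (nat_lit 0) (nat_lit 66262) (nat_lit 16) nil nil))) (node
  (nat_lit 0) (nat_lit 66262) (nat_lit 15) (node (nat_lit 7) (nat_lit 66262) (nat_lit 16) nil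
  (node (nat_lit 5) (nat_lit 66262) (nat_lit 16) nil (node (nat_lit 4) (nat_lit 66262) (nat_lit
  16) nil nil))) nil)) (node (nat_lit 0) (nat_lit 66262) (nat_lit 14) (node (nat_lit 4) (nat_lit
  66262) (nat_lit 15) (node (nat_lit 7) (nat_lit 66262) (nat_lit 16) nil nil) (node (nat_lit 7)
  (nat_lit 66262) (nat_lit 15) nil (node (nat_lit 5) (nat_lit 66262) (nat_lit 15) nil nil))) nil))
  (node (nat_lit 0) (nat_lit 66262) (nat_lit 13) (node (nat_lit 5) (nat_lit 66262) (nat_lit 14)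
  (node (nat_lit 4) (nat_lit 66262) (nat_lit 15) nil nil) (node (nat_lit 4) (nat_lit 66262)
  (nat_lit 14) (node (nat_lit 7) (nat_lit 66262) (nat_lit 15) nil (node (nat_lit 5) (nat_lit
  66262) (nat_lit 15) nil nil)) (node (nat_lit 7) (nat_lit 66262) (nat_lit 14) nil nil))) (node
  (nat_lit 5) (nat_lit 0) (nat_lit 13) (node (nat_lit 0) (nat_lit 66262) (nat_lit 14) (node
  (nat_lit 4) (nat_lit 66262) (nat_lit 15) nil (node (nat_lit 5) (nat_lit 66262) (nat_lit 15) nil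
  (node (nat_lit 7) (nat_lit 66262) (nat_lit 15) nil nil))) nil) nil))) (node (nat_lit 7) (nat_lit
  0) (nat_lit 12) (node (nat_lit 4) (nat_lit 0) (nat_lit 13) (node (nat_lit 5) (nat_lit 0)
  (nat_lit 14) (node (nat_lit 4) (nat_lit 64832) (nat_lit 15) (node (nat_lit 7) (nat_lit 0)
  (nat_lit 16) (node (nat_lit 5) (nat_lit 55814) (nat_lit 17) (node (nat_lit 4) (nat_lit 53022)
  (nat_lit 18) (node (nat_lit 5) (nat_lit 53532) (nat_lit 19) (node (nat_lit 7) (nat_lit 42234)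
  (nat_lit 20) (node (nat_lit 4) (nat_lit 42311) (nat_lit 21) (node (nat_lit 7) (nat_lit 24958)
  (nat_lit 22) nil nil) (node (nat_lit 5) (nat_lit 42350) (nat_lit 21) nil nil)) nil) nil) (node
  (nat_lit 7) (nat_lit 56422) (nat_lit 18) (node (nat_lit 4) (nat_lit 56640) (nat_lit 19) nil nil)
  nil)) (node (nat_lit 4) (nat_lit 60358) (nat_lit 17) (node (nat_lit 5) (nat_lit 61104) (nat_lit
  18) (node (nat_lit 7) (nat_lit 61495) (nat_lit 19) nil nil) nil) (node (nat_lit 0) (nat_lit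
  60339) (nat_lit 17) nil nil))) nil) (node (nat_lit 7) (nat_lit 66163) (nat_lit 15) (node
  (nat_lit 5) (nat_lit 66262) (nat_lit 16) (node (nat_lit 4) (nat_lit 66262) (nat_lit 17) nil nil)
  nil) (node (nat_lit 0) (nat_lit 66262) (nat_lit 15) nil nil))) (node (nat_lit 0) (nat_lit 66262)
  (nat_lit 14) nil nil)) (node (nat_lit 0) (nat_lit 65416) (nat_lit 13) nil nil)) (node (nat_lit
  0) (nat_lit 64563) (nat_lit 12) (node (nat_lit 5) (nat_lit 64563) (nat_lit 13) nil nil) nil)))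
  (node (nat_lit 0) (nat_lit 62156) (nat_lit 11) nil nil)) (node (nat_lit 5) (nat_lit 0) (nat_lit
  10) (node (nat_lit 4) (nat_lit 0) (nat_lit 11) (node (nat_lit 7) (nat_lit 0) (nat_lit 12) (node
  (nat_lit 5) (nat_lit 0) (nat_lit 13) (node (nat_lit 7) (nat_lit 0) (nat_lit 14) (node (nat_lit
  4) (nat_lit 49098) (nat_lit 15) (node (nat_lit 7) (nat_lit 50239) (nat_lit 16) (node (nat_lit 5)
  (nat_lit 51132) (nat_lit 17) (node (nat_lit 4) (nat_lit 51791) (nat_lit 18) (node (nat_lit 7)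
  (nat_lit 51500) (nat_lit 19) nil (node (nat_lit 5) (nat_lit 51652) (nat_lit 19) nil nil)) nil)
  nil) (node (nat_lit 5) (nat_lit 49852) (nat_lit 16) (node (nat_lit 7) (nat_lit 50164) (nat_lit
  17) nil nil) nil)) (node (nat_lit 0) (nat_lit 49045) (nat_lit 15) nil nil)) (node (nat_lit 4)
  (nat_lit 21132) (nat_lit 14) nil (node (nat_lit 0) (nat_lit 49340) (nat_lit 14) nil nil))) (node
  (nat_lit 4) (nat_lit 0) (nat_lit 13) (node (nat_lit 5) (nat_lit 47273) (nat_lit 14) (node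
  (nat_lit 7) (nat_lit 48710) (nat_lit 15) (node (nat_lit 5) (nat_lit 49426) (nat_lit 16) (node
  (nat_lit 4) (nat_lit 49173) (nat_lit 17) nil nil) (node (nat_lit 4) (nat_lit 49531) (nat_lit 16)
  (node (nat_lit 7) (nat_lit 49842) (nat_lit 17) nil nil) nil)) nil) (node (nat_lit 0) (nat_lit
  47357) (nat_lit 14) nil nil)) (node (nat_lit 0) (nat_lit 47530) (nat_lit 13) nil nil))) (node
  (nat_lit 0) (nat_lit 47753) (nat_lit 12) nil nil)) (node (nat_lit 0) (nat_lit 45943) (nat_lit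
  11) (node (nat_lit 5) (nat_lit 45943) (nat_lit 12) nil (node (nat_lit 7) (nat_lit 45943)
  (nat_lit 12) nil (node (nat_lit 4) (nat_lit 45943) (nat_lit 12) nil nil))) nil)) (node (nat_lit
  0) (nat_lit 59070) (nat_lit 10) (node (nat_lit 5) (nat_lit 59070) (nat_lit 11) nil (node
  (nat_lit 7) (nat_lit 59070) (nat_lit 11) nil (node (nat_lit 4) (nat_lit 59070) (nat_lit 11) nil
  nil))) nil))) (node (nat_lit 5) (nat_lit 0) (nat_lit 9) (node (nat_lit 4) (nat_lit 0) (nat_lit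
  10) (node (nat_lit 7) (nat_lit 0) (nat_lit 11) (node (nat_lit 4) (nat_lit 0) (nat_lit 12) (node
  (nat_lit 5) (nat_lit 0) (nat_lit 13) (node (nat_lit 7) (nat_lit 66262) (nat_lit 14) (node
  (nat_lit 4) (nat_lit 66262) (nat_lit 15) (node (nat_lit 7) (nat_lit 66262) (nat_lit 16) (node
  (nat_lit 5) (nat_lit 66262) (nat_lit 17) (node (nat_lit 7) (nat_lit 66262) (nat_lit 18) (node
  (nat_lit 4) (nat_lit 66262) (nat_lit 19) (node (nat_lit 5) (nat_lit 66262) (nat_lit 20) (node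
  (nat_lit 4) (nat_lit 66262) (nat_lit 21) (node (nat_lit 7) (nat_lit 66262) (nat_lit 22) (node
  (nat_lit 5) (nat_lit 66262) (nat_lit 23) (node (nat_lit 4) (nat_lit 66262) (nat_lit 24) (node
  (nat_lit 5) (nat_lit 66262) (nat_lit 25) (node (nat_lit 7) (nat_lit 66262) (nat_lit 26) (node
  (nat_lit 5) (nat_lit 66262) (nat_lit 27) (node (nat_lit 4) (nat_lit 63687) (nat_lit 28) (node
  (nat_lit 7) (nat_lit 61350) (nat_lit 29) (node (nat_lit 4) (nat_lit 61365) (nat_lit 30) nil nil)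
  nil) nil) nil) nil) nil) nil) nil) nil) nil) nil) nil) (node (nat_lit 4) (nat_lit 66262)
  (nat_lit 18) (node (nat_lit 7) (nat_lit 66262) (nat_lit 19) (node (nat_lit 4) (nat_lit 66262)
  (nat_lit 20) nil nil) nil) nil)) nil) nil) (node (nat_lit 5) (nat_lit 66262) (nat_lit 15) nil
  nil)) (node (nat_lit 4) (nat_lit 66262) (nat_lit 14) (node (nat_lit 7) (nat_lit 65558) (nat_lit
  15) (node (nat_lit 5) (nat_lit 58745) (nat_lit 16) (node (nat_lit 4) (nat_lit 53013) (nat_lit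
  17) (node (nat_lit 5) (nat_lit 53305) (nat_lit 18) (node (nat_lit 7) (nat_lit 53553) (nat_lit
  19) (node (nat_lit 5) (nat_lit 53788) (nat_lit 20) nil nil) nil) nil) (node (nat_lit 7) (nat_lit
  59730) (nat_lit 17) (node (nat_lit 4) (nat_lit 60045) (nat_lit 18) nil nil) nil)) nil) nil)
  (node (nat_lit 0) (nat_lit 66262) (nat_lit 14) nil nil))) (node (nat_lit 0) (nat_lit 66262)
  (nat_lit 13) nil nil)) (node (nat_lit 5) (nat_lit 0) (nat_lit 12) (node (nat_lit 7) (nat_lit 0)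
  (nat_lit 13) (node (nat_lit 4) (nat_lit 66262) (nat_lit 14) (node (nat_lit 5) (nat_lit 66262)
  (nat_lit 15) (node (nat_lit 4) (nat_lit 66262) (nat_lit 16) (node (nat_lit 7) (nat_lit 66262)
  (nat_lit 17) (node (nat_lit 5) (nat_lit 57874) (nat_lit 18) (node (nat_lit 4) (nat_lit 58060)
  (nat_lit 19) (node (nat_lit 5) (nat_lit 58425) (nat_lit 20) (node (nat_lit 7) (nat_lit 58734)
  (nat_lit 21) (node (nat_lit 5) (nat_lit 50731) (nat_lit 22) (node (nat_lit 4) (nat_lit 22507)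
  (nat_lit 23) (node (nat_lit 7) (nat_lit 22576) (nat_lit 24) nil nil) nil) nil) nil) nil) nil)
  nil) nil) (node (nat_lit 7) (nat_lit 66262) (nat_lit 16) nil nil)) (node (nat_lit 7) (nat_lit
  66262) (nat_lit 15) (node (nat_lit 5) (nat_lit 66262) (nat_lit 16) nil nil) nil)) (node (nat_lit
  0) (nat_lit 66262) (nat_lit 14) nil nil)) (node (nat_lit 0) (nat_lit 66262) (nat_lit 13) nil
  nil)) (node (nat_lit 0) (nat_lit 66262) (nat_lit 12) nil nil))) (node (nat_lit 0) (nat_lit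
  66262) (nat_lit 11) nil nil)) (node (nat_lit 0) (nat_lit 65903) (nat_lit 10) nil nil)) (node
  (nat_lit 0) (nat_lit 66262) (nat_lit 9) (node (nat_lit 4) (nat_lit 66262) (nat_lit 10) nil (node
  (nat_lit 5) (nat_lit 66262) (nat_lit 10) nil (node (nat_lit 7) (nat_lit 66262) (nat_lit 10) nil
  nil))) nil))) nil) nil) nil))

noncomputable def t313 : Tr :=
  (node (nat_lit 3) (nat_lit 0) (nat_lit 3) (node (nat_lit 4) (nat_lit 0) (nat_lit 4) (node
  (nat_lit 6) (nat_lit 0) (nat_lit 5) (node (nat_lit 5) (nat_lit 0) (nat_lit 6) t309 nil) (node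
  (nat_lit 5) (nat_lit 0) (nat_lit 5) (node (nat_lit 4) (nat_lit 0) (nat_lit 6) (node (nat_lit 6)
  (nat_lit 0) (nat_lit 7) (node (nat_lit 5) (nat_lit 0) (nat_lit 8) (node (nat_lit 6) (nat_lit 0)
  (nat_lit 9) (node (nat_lit 4) (nat_lit 0) (nat_lit 10) (node (nat_lit 6) (nat_lit 0) (nat_lit
  11) (node (nat_lit 5) (nat_lit 0) (nat_lit 12) (node (nat_lit 4) (nat_lit 0) (nat_lit 13) (node
  (nat_lit 5) (nat_lit 0) (nat_lit 14) (node (nat_lit 6) (nat_lit 0) (nat_lit 15) (node (nat_lit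
  4) (nat_lit 53954) (nat_lit 16) (node (nat_lit 6) (nat_lit 53904) (nat_lit 17) nil (node
  (nat_lit 5) (nat_lit 0) (nat_lit 17) (node (nat_lit 4) (nat_lit 43599) (nat_lit 18) (node
  (nat_lit 6) (nat_lit 33276) (nat_lit 19) (node (nat_lit 5) (nat_lit 33175) (nat_lit 20) (node
  (nat_lit 6) (nat_lit 25990) (nat_lit 21) nil nil) (node (nat_lit 4) (nat_lit 33494) (nat_lit 20)
  (node (nat_lit 5) (nat_lit 33532) (nat_lit 21) (node (nat_lit 6) (nat_lit 33468) (nat_lit 22)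
  nil nil) nil) nil)) nil) (node (nat_lit 0) (nat_lit 45684) (nat_lit 18) nil nil)) nil)) (node
  (nat_lit 5) (nat_lit 54224) (nat_lit 16) (node (nat_lit 4) (nat_lit 54464) (nat_lit 17) (node
  (nat_lit 6) (nat_lit 54651) (nat_lit 18) (node (nat_lit 4) (nat_lit 54795) (nat_lit 19) nil nil)
  nil) nil) (node (nat_lit 0) (nat_lit 54795) (nat_lit 16) nil nil))) (node (nat_lit 0) (nat_lit
  54795) (nat_lit 15) nil nil)) (node (nat_lit 6) (nat_lit 0) (nat_lit 14) (node (nat_lit 4)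
  (nat_lit 0) (nat_lit 15) (node (nat_lit 5) (nat_lit 0) (nat_lit 16) (node (nat_lit 6) (nat_lit
  54464) (nat_lit 17) (node (nat_lit 5) (nat_lit 54651) (nat_lit 18) (node (nat_lit 4) (nat_lit
  54795) (nat_lit 19) (node (nat_lit 5) (nat_lit 54795) (nat_lit 20) nil nil) nil) (node (nat_lit
  4) (nat_lit 54651) (nat_lit 18) nil nil)) (node (nat_lit 4) (nat_lit 54464) (nat_lit 17) (node
  (nat_lit 6) (nat_lit 54651) (nat_lit 18) (node (nat_lit 5) (nat_lit 54795) (nat_lit 19) (node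
  (nat_lit 4) (nat_lit 54795) (nat_lit 20) (node (nat_lit 5) (nat_lit 54795) (nat_lit 21) (node
  (nat_lit 6) (nat_lit 54795) (nat_lit 22) (node (nat_lit 4) (nat_lit 54795) (nat_lit 23) nil nil)
  nil) nil) nil) nil) nil) (node (nat_lit 0) (nat_lit 54795) (nat_lit 17) nil nil))) (node
  (nat_lit 0) (nat_lit 54795) (nat_lit 16) nil nil)) (node (nat_lit 0) (nat_lit 54795) (nat_lit
  15) nil nil)) (node (nat_lit 0) (nat_lit 54651) (nat_lit 14) nil nil))) (node (nat_lit 0)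
  (nat_lit 54464) (nat_lit 13) nil nil)) (node (nat_lit 0) (nat_lit 54224) (nat_lit 12) (node
  (nat_lit 4) (nat_lit 54224) (nat_lit 13) nil nil) nil)) (node (nat_lit 5) (nat_lit 0) (nat_lit
  11) (node (nat_lit 6) (nat_lit 0) (nat_lit 12) (node (nat_lit 5) (nat_lit 0) (nat_lit 13) (node
  (nat_lit 4) (nat_lit 0) (nat_lit 14) (node (nat_lit 5) (nat_lit 53917) (nat_lit 15) (node
  (nat_lit 6) (nat_lit 54224) (nat_lit 16) (node (nat_lit 4) (nat_lit 53784) (nat_lit 17) (node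
  (nat_lit 6) (nat_lit 53753) (nat_lit 18) (node (nat_lit 5) (nat_lit 53332) (nat_lit 19) nil nil)
  (node (nat_lit 5) (nat_lit 46245) (nat_lit 18) (node (nat_lit 4) (nat_lit 44866) (nat_lit 19)
  (node (nat_lit 6) (nat_lit 40134) (nat_lit 20) (node (nat_lit 5) (nat_lit 33594) (nat_lit 21)
  (node (nat_lit 6) (nat_lit 33692) (nat_lit 22) (node (nat_lit 4) (nat_lit 33800) (nat_lit 23)
  nil nil) nil) nil) nil) nil) nil)) nil) nil) (node (nat_lit 6) (nat_lit 53917) (nat_lit 15)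
  (node (nat_lit 5) (nat_lit 54224) (nat_lit 16) (node (nat_lit 6) (nat_lit 54464) (nat_lit 17)
  (node (nat_lit 4) (nat_lit 54651) (nat_lit 18) nil nil) nil) (node (nat_lit 4) (nat_lit 0)
  (nat_lit 16) (node (nat_lit 5) (nat_lit 54464) (nat_lit 17) (node (nat_lit 6) (nat_lit 54284)
  (nat_lit 18) (node (nat_lit 4) (nat_lit 54431) (nat_lit 19) nil nil) nil) (node (nat_lit 0)
  (nat_lit 54795) (nat_lit 17) nil nil)) nil)) (node (nat_lit 0) (nat_lit 54795) (nat_lit 15) nil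
  nil))) (node (nat_lit 0) (nat_lit 54651) (nat_lit 14) nil nil)) (node (nat_lit 0) (nat_lit
  54464) (nat_lit 13) nil nil)) (node (nat_lit 0) (nat_lit 54224) (nat_lit 12) (node (nat_lit 5)
  (nat_lit 54224) (nat_lit 13) nil (node (nat_lit 4) (nat_lit 54224) (nat_lit 13) nil (node
  (nat_lit 6) (nat_lit 54224) (nat_lit 13) nil nil))) (node (nat_lit 4) (nat_lit 0) (nat_lit 12)
  (node (nat_lit 0) (nat_lit 54464) (nat_lit 13) nil nil) nil))) (node (nat_lit 0) (nat_lit 0)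
  (nat_lit 11) (node (nat_lit 4) (nat_lit 53917) (nat_lit 12) (node (nat_lit 6) (nat_lit 53917)
  (nat_lit 13) (node (nat_lit 5) (nat_lit 53917) (nat_lit 14) nil nil) (node (nat_lit 5) (nat_lit
  53917) (nat_lit 13) nil nil)) (node (nat_lit 5) (nat_lit 53917) (nat_lit 12) (node (nat_lit 6)
  (nat_lit 53917) (nat_lit 13) nil (node (nat_lit 4) (nat_lit 53917) (nat_lit 13) nil nil)) (node
  (nat_lit 6) (nat_lit 53917) (nat_lit 12) (node (nat_lit 4) (nat_lit 53917) (nat_lit 13) nil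
  (node (nat_lit 5) (nat_lit 53917) (nat_lit 13) nil nil)) (node (nat_lit 0) (nat_lit 54224)
  (nat_lit 12) nil nil)))) nil))) (node (nat_lit 0) (nat_lit 51309) (nat_lit 10) (node (nat_lit 5)
  (nat_lit 51309) (nat_lit 11) nil (node (nat_lit 4) (nat_lit 51309) (nat_lit 11) nil (node
  (nat_lit 6) (nat_lit 51309) (nat_lit 11) nil nil))) nil)) (node (nat_lit 4) (nat_lit 0) (nat_lit
  9) (node (nat_lit 5) (nat_lit 0) (nat_lit 10) (node (nat_lit 6) (nat_lit 0) (nat_lit 11) (node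
  (nat_lit 4) (nat_lit 0) (nat_lit 12) (node (nat_lit 6) (nat_lit 0) (nat_lit 13) (node (nat_lit
  5) (nat_lit 49075) (nat_lit 14) (node (nat_lit 6) (nat_lit 50147) (nat_lit 15) (node (nat_lit 4)
  (nat_lit 50308) (nat_lit 16) (node (nat_lit 5) (nat_lit 50409) (nat_lit 17) nil nil) nil) (node
  (nat_lit 4) (nat_lit 50397) (nat_lit 15) (node (nat_lit 6) (nat_lit 51263) (nat_lit 16) (node
  (nat_lit 4) (nat_lit 51722) (nat_lit 17) (node (nat_lit 5) (nat_lit 51972) (nat_lit 18) (node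
  (nat_lit 4) (nat_lit 52118) (nat_lit 19) nil nil) nil) nil) nil) nil)) (node (nat_lit 0)
  (nat_lit 49033) (nat_lit 14) nil nil)) (node (nat_lit 5) (nat_lit 0) (nat_lit 13) (node (nat_lit
  0) (nat_lit 22285) (nat_lit 14) nil nil) (node (nat_lit 0) (nat_lit 49937) (nat_lit 13) nil
  nil))) (node (nat_lit 5) (nat_lit 0) (nat_lit 12) (node (nat_lit 4) (nat_lit 0) (nat_lit 13)
  (node (nat_lit 6) (nat_lit 49401) (nat_lit 14) (node (nat_lit 5) (nat_lit 50552) (nat_lit 15)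
  (node (nat_lit 6) (nat_lit 51099) (nat_lit 16) (node (nat_lit 4) (nat_lit 51339) (nat_lit 17)
  nil nil) nil) (node (nat_lit 4) (nat_lit 50337) (nat_lit 15) (node (nat_lit 5) (nat_lit 50458)
  (nat_lit 16) (node (nat_lit 6) (nat_lit 50217) (nat_lit 17) nil nil) nil) nil)) (node (nat_lit
  0) (nat_lit 49230) (nat_lit 14) nil nil)) (node (nat_lit 0) (nat_lit 48767) (nat_lit 13) nil
  nil)) (node (nat_lit 0) (nat_lit 48242) (nat_lit 12) nil nil))) (node (nat_lit 0) (nat_lit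
  47270) (nat_lit 11) nil nil)) (node (nat_lit 0) (nat_lit 44249) (nat_lit 10) (node (nat_lit 6)
  (nat_lit 44293) (nat_lit 11) (node (nat_lit 4) (nat_lit 44293) (nat_lit 12) nil (node (nat_lit
  5) (nat_lit 44293) (nat_lit 12) nil nil)) (node (nat_lit 5) (nat_lit 44288) (nat_lit 11) (node
  (nat_lit 4) (nat_lit 44288) (nat_lit 12) nil (node (nat_lit 6) (nat_lit 44288) (nat_lit 12) nil
  nil)) (node (nat_lit 4) (nat_lit 44249) (nat_lit 11) (node (nat_lit 6) (nat_lit 44249) (nat_lit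
  12) nil (node (nat_lit 5) (nat_lit 44249) (nat_lit 12) nil nil)) (node (nat_lit 0) (nat_lit
  44643) (nat_lit 11) nil nil)))) nil)) (node (nat_lit 0) (nat_lit 48294) (nat_lit 9) (node
  (nat_lit 4) (nat_lit 48687) (nat_lit 10) (node (nat_lit 5) (nat_lit 48687) (nat_lit 11) (node
  (nat_lit 6) (nat_lit 48687) (nat_lit 12) nil nil) (node (nat_lit 6) (nat_lit 48687) (nat_lit 11)
  (node (nat_lit 5) (nat_lit 48687) (nat_lit 12) nil nil) nil)) (node (nat_lit 6) (nat_lit 48166)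
  (nat_lit 10) (node (nat_lit 4) (nat_lit 48166) (nat_lit 11) (node (nat_lit 5) (nat_lit 48166)
  (nat_lit 12) nil nil) (node (nat_lit 5) (nat_lit 48166) (nat_lit 11) (node (nat_lit 4) (nat_lit
  48166) (nat_lit 12) nil nil) nil)) (node (nat_lit 5) (nat_lit 48294) (nat_lit 10) (node (nat_lit
  4) (nat_lit 48294) (nat_lit 11) (node (nat_lit 6) (nat_lit 48294) (nat_lit 12) nil nil) (node
  (nat_lit 6) (nat_lit 48294) (nat_lit 11) nil nil)) nil))) nil))) (node (nat_lit 4) (nat_lit 0)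
  (nat_lit 8) (node (nat_lit 5) (nat_lit 0) (nat_lit 9) (node (nat_lit 6) (nat_lit 0) (nat_lit 10)
  (node (nat_lit 5) (nat_lit 0) (nat_lit 11) (node (nat_lit 4) (nat_lit 0) (nat_lit 12) (node
  (nat_lit 6) (nat_lit 53019) (nat_lit 13) (node (nat_lit 5) (nat_lit 53523) (nat_lit 14) (node
  (nat_lit 6) (nat_lit 53917) (nat_lit 15) (node (nat_lit 4) (nat_lit 54224) (nat_lit 16) (node
  (nat_lit 5) (nat_lit 54464) (nat_lit 17) (node (nat_lit 4) (nat_lit 54651) (nat_lit 18) nil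
  (node (nat_lit 6) (nat_lit 54651) (nat_lit 18) (node (nat_lit 5) (nat_lit 54795) (nat_lit 19)
  (node (nat_lit 4) (nat_lit 54170) (nat_lit 20) nil nil) nil) nil)) (node (nat_lit 6) (nat_lit
  54464) (nat_lit 17) (node (nat_lit 5) (nat_lit 54651) (nat_lit 18) (node (nat_lit 4) (nat_lit
  54795) (nat_lit 19) (node (nat_lit 5) (nat_lit 54795) (nat_lit 20) (node (nat_lit 6) (nat_lit
  54795) (nat_lit 21) (node (nat_lit 4) (nat_lit 54795) (nat_lit 22) (node (nat_lit 5) (nat_lit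
  54795) (nat_lit 23) (node (nat_lit 4) (nat_lit 54795) (nat_lit 24) (node (nat_lit 6) (nat_lit
  54795) (nat_lit 25) (node (nat_lit 4) (nat_lit 54795) (nat_lit 26) (node (nat_lit 5) (nat_lit
  54795) (nat_lit 27) (node (nat_lit 6) (nat_lit 50512) (nat_lit 28) (node (nat_lit 5) (nat_lit
  44106) (nat_lit 29) (node (nat_lit 4) (nat_lit 39087) (nat_lit 30) (node (nat_lit 6) (nat_lit
  39109) (nat_lit 31) nil nil) nil) nil) nil) nil) nil) nil) nil) nil) nil) nil) nil) nil) nil)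
  nil)) nil) nil) (node (nat_lit 4) (nat_lit 53523) (nat_lit 14) (node (nat_lit 5) (nat_lit 53917)
  (nat_lit 15) nil nil) nil)) (node (nat_lit 5) (nat_lit 0) (nat_lit 13) (node (nat_lit 6)
  (nat_lit 53523) (nat_lit 14) (node (nat_lit 4) (nat_lit 48683) (nat_lit 15) (node (nat_lit 6)
  (nat_lit 49539) (nat_lit 16) (node (nat_lit 5) (nat_lit 49997) (nat_lit 17) (node (nat_lit 6)
  (nat_lit 50184) (nat_lit 18) nil (node (nat_lit 4) (nat_lit 48992) (nat_lit 18) nil nil)) nil)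
  (node (nat_lit 5) (nat_lit 44829) (nat_lit 16) (node (nat_lit 4) (nat_lit 38258) (nat_lit 17)
  (node (nat_lit 6) (nat_lit 38642) (nat_lit 18) (node (nat_lit 4) (nat_lit 38972) (nat_lit 19)
  nil nil) nil) nil) nil)) nil) (node (nat_lit 0) (nat_lit 54651) (nat_lit 14) nil nil)) (node
  (nat_lit 0) (nat_lit 54464) (nat_lit 13) nil nil))) (node (nat_lit 0) (nat_lit 54224) (nat_lit
  12) nil nil)) (node (nat_lit 4) (nat_lit 0) (nat_lit 11) (node (nat_lit 6) (nat_lit 0) (nat_lit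
  12) (node (nat_lit 5) (nat_lit 0) (nat_lit 13) (node (nat_lit 4) (nat_lit 53523) (nat_lit 14)
  (node (nat_lit 5) (nat_lit 53917) (nat_lit 15) (node (nat_lit 6) (nat_lit 54224) (nat_lit 16)
  (node (nat_lit 4) (nat_lit 54464) (nat_lit 17) (node (nat_lit 5) (nat_lit 54651) (nat_lit 18)
  (node (nat_lit 4) (nat_lit 49274) (nat_lit 19) (node (nat_lit 6) (nat_lit 44269) (nat_lit 20)
  (node (nat_lit 4) (nat_lit 23704) (nat_lit 21) (node (nat_lit 5) (nat_lit 23824) (nat_lit 22)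
  (node (nat_lit 6) (nat_lit 23932) (nat_lit 23) nil nil) nil) nil) nil) nil) nil) (node (nat_lit
  5) (nat_lit 53508) (nat_lit 17) nil nil)) nil) (node (nat_lit 6) (nat_lit 53917) (nat_lit 15)
  nil nil)) (node (nat_lit 6) (nat_lit 53523) (nat_lit 14) (node (nat_lit 4) (nat_lit 53917)
  (nat_lit 15) (node (nat_lit 5) (nat_lit 54224) (nat_lit 16) nil nil) nil) (node (nat_lit 0)
  (nat_lit 54651) (nat_lit 14) nil nil))) (node (nat_lit 0) (nat_lit 54464) (nat_lit 13) nil nil))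
  (node (nat_lit 0) (nat_lit 54224) (nat_lit 12) nil nil)) (node (nat_lit 0) (nat_lit 53917)
  (nat_lit 11) nil nil))) (node (nat_lit 0) (nat_lit 53523) (nat_lit 10) nil nil)) (node (nat_lit
  0) (nat_lit 53019) (nat_lit 9) (node (nat_lit 6) (nat_lit 53019) (nat_lit 10) nil nil) nil))
  nil)) nil) nil) nil)) (node (nat_lit 5) (nat_lit 0) (nat_lit 4) (node (nat_lit 4) (nat_lit 0)
  (nat_lit 5) t311 nil) nil)) (node (nat_lit 4) (nat_lit 0) (nat_lit 3) (node (nat_lit 3) (nat_lit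
  0) (nat_lit 4) (node (nat_lit 5) (nat_lit 0) (nat_lit 5) t312 (node (nat_lit 4) (nat_lit 0)
  (nat_lit 5) (node (nat_lit 5) (nat_lit 0) (nat_lit 6) (node (nat_lit 7) (nat_lit 0) (nat_lit 7)
  (node (nat_lit 4) (nat_lit 0) (nat_lit 8) (node (nat_lit 7) (nat_lit 0) (nat_lit 9) (node
  (nat_lit 5) (nat_lit 0) (nat_lit 10) (node (nat_lit 4) (nat_lit 0) (nat_lit 11) (node (nat_lit
  5) (nat_lit 0) (nat_lit 12) (node (nat_lit 7) (nat_lit 0) (nat_lit 13) (node (nat_lit 5)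
  (nat_lit 53712) (nat_lit 14) (node (nat_lit 4) (nat_lit 54223) (nat_lit 15) (node (nat_lit 7)
  (nat_lit 54622) (nat_lit 16) (node (nat_lit 4) (nat_lit 0) (nat_lit 17) (node (nat_lit 5)
  (nat_lit 55177) (nat_lit 18) (node (nat_lit 7) (nat_lit 55367) (nat_lit 19) nil (node (nat_lit
  4) (nat_lit 55367) (nat_lit 19) (node (nat_lit 7) (nat_lit 55515) (nat_lit 20) (node (nat_lit 5)
  (nat_lit 55431) (nat_lit 21) nil nil) nil) nil)) (node (nat_lit 0) (nat_lit 55721) (nat_lit 18)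
  nil nil)) (node (nat_lit 5) (nat_lit 54934) (nat_lit 17) (node (nat_lit 7) (nat_lit 55177)
  (nat_lit 18) (node (nat_lit 4) (nat_lit 55367) (nat_lit 19) nil nil) nil) nil)) nil) nil) (node
  (nat_lit 4) (nat_lit 0) (nat_lit 14) (node (nat_lit 5) (nat_lit 54223) (nat_lit 15) (node
  (nat_lit 4) (nat_lit 54622) (nat_lit 16) (node (nat_lit 7) (nat_lit 54934) (nat_lit 17) (node
  (nat_lit 4) (nat_lit 55177) (nat_lit 18) (node (nat_lit 5) (nat_lit 50795) (nat_lit 19) (node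
  (nat_lit 7) (nat_lit 42707) (nat_lit 20) (node (nat_lit 4) (nat_lit 36216) (nat_lit 21) (node
  (nat_lit 7) (nat_lit 36353) (nat_lit 22) (node (nat_lit 5) (nat_lit 36459) (nat_lit 23) nil nil)
  nil) (node (nat_lit 5) (nat_lit 42823) (nat_lit 21) nil nil)) nil) nil) nil) nil) nil) (node
  (nat_lit 7) (nat_lit 54223) (nat_lit 15) nil (node (nat_lit 0) (nat_lit 55367) (nat_lit 15) nil
  nil))) (node (nat_lit 0) (nat_lit 55177) (nat_lit 14) nil nil))) (node (nat_lit 0) (nat_lit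
  54934) (nat_lit 13) nil nil)) (node (nat_lit 7) (nat_lit 0) (nat_lit 12) (node (nat_lit 4)
  (nat_lit 0) (nat_lit 13) (node (nat_lit 5) (nat_lit 0) (nat_lit 14) (node (nat_lit 7) (nat_lit
  54223) (nat_lit 15) (node (nat_lit 5) (nat_lit 54622) (nat_lit 16) (node (nat_lit 4) (nat_lit
  54934) (nat_lit 17) nil nil) nil) (node (nat_lit 4) (nat_lit 54223) (nat_lit 15) (node (nat_lit
  7) (nat_lit 54622) (nat_lit 16) (node (nat_lit 5) (nat_lit 54934) (nat_lit 17) (node (nat_lit 7)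
  (nat_lit 55177) (nat_lit 18) (node (nat_lit 4) (nat_lit 54424) (nat_lit 19) nil nil) nil) nil)
  nil) (node (nat_lit 0) (nat_lit 55367) (nat_lit 15) nil nil))) (node (nat_lit 0) (nat_lit 55177)
  (nat_lit 14) nil nil)) (node (nat_lit 0) (nat_lit 54934) (nat_lit 13) nil nil)) (node (nat_lit
  0) (nat_lit 54622) (nat_lit 12) (node (nat_lit 5) (nat_lit 54622) (nat_lit 13) nil (node
  (nat_lit 4) (nat_lit 54622) (nat_lit 13) nil (node (nat_lit 7) (nat_lit 54622) (nat_lit 13) nil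
  nil))) nil))) (node (nat_lit 7) (nat_lit 0) (nat_lit 11) (node (nat_lit 4) (nat_lit 0) (nat_lit
  12) (node (nat_lit 5) (nat_lit 0) (nat_lit 13) (node (nat_lit 7) (nat_lit 0) (nat_lit 14) (node
  (nat_lit 5) (nat_lit 54223) (nat_lit 15) (node (nat_lit 4) (nat_lit 54622) (nat_lit 16) (node
  (nat_lit 7) (nat_lit 54934) (nat_lit 17) (node (nat_lit 4) (nat_lit 55177) (nat_lit 18) (node
  (nat_lit 5) (nat_lit 55367) (nat_lit 19) (node (nat_lit 4) (nat_lit 55515) (nat_lit 20) (node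
  (nat_lit 7) (nat_lit 55631) (nat_lit 21) nil nil) nil) nil) nil) (node (nat_lit 5) (nat_lit
  54373) (nat_lit 17) nil nil)) nil) (node (nat_lit 0) (nat_lit 55367) (nat_lit 15) nil nil))
  (node (nat_lit 4) (nat_lit 50730) (nat_lit 14) (node (nat_lit 7) (nat_lit 51840) (nat_lit 15)
  (node (nat_lit 4) (nat_lit 52778) (nat_lit 16) (node (nat_lit 5) (nat_lit 53560) (nat_lit 17)
  (node (nat_lit 7) (nat_lit 30900) (nat_lit 18) (node (nat_lit 4) (nat_lit 31270) (nat_lit 19)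
  nil nil) nil) nil) (node (nat_lit 5) (nat_lit 52451) (nat_lit 16) (node (nat_lit 4) (nat_lit
  52763) (nat_lit 17) nil nil) nil)) nil) (node (nat_lit 0) (nat_lit 55177) (nat_lit 14) nil
  nil))) (node (nat_lit 0) (nat_lit 54934) (nat_lit 13) nil nil)) (node (nat_lit 0) (nat_lit
  54622) (nat_lit 12) nil nil)) (node (nat_lit 0) (nat_lit 54223) (nat_lit 11) (node (nat_lit 5)
  (nat_lit 54223) (nat_lit 12) (node (nat_lit 7) (nat_lit 54223) (nat_lit 13) nil (node (nat_lit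
  4) (nat_lit 54223) (nat_lit 13) nil nil)) (node (nat_lit 7) (nat_lit 54223) (nat_lit 12) nil
  (node (nat_lit 4) (nat_lit 54223) (nat_lit 12) nil nil))) nil))) (node (nat_lit 0) (nat_lit
  53712) (nat_lit 10) (node (nat_lit 5) (nat_lit 53712) (nat_lit 11) (node (nat_lit 4) (nat_lit
  53712) (nat_lit 12) (node (nat_lit 7) (nat_lit 53712) (nat_lit 13) nil nil) (node (nat_lit 7)
  (nat_lit 53712) (nat_lit 12) (node (nat_lit 4) (nat_lit 53712) (nat_lit 13) nil (node (nat_lit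
  5) (nat_lit 53712) (nat_lit 13) nil nil)) nil)) (node (nat_lit 4) (nat_lit 53712) (nat_lit 11)
  (node (nat_lit 5) (nat_lit 53712) (nat_lit 12) (node (nat_lit 7) (nat_lit 53712) (nat_lit 13)
  nil nil) (node (nat_lit 7) (nat_lit 53712) (nat_lit 12) (node (nat_lit 5) (nat_lit 53712)
  (nat_lit 13) nil (node (nat_lit 4) (nat_lit 53712) (nat_lit 13) nil nil)) nil)) (node (nat_lit
  7) (nat_lit 53712) (nat_lit 11) (node (nat_lit 4) (nat_lit 53712) (nat_lit 12) (node (nat_lit 5)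
  (nat_lit 53712) (nat_lit 13) nil nil) (node (nat_lit 5) (nat_lit 53712) (nat_lit 12) (node
  (nat_lit 4) (nat_lit 53712) (nat_lit 13) nil nil) nil)) (node (nat_lit 0) (nat_lit 54223)
  (nat_lit 11) nil nil)))) nil)) (node (nat_lit 0) (nat_lit 53056) (nat_lit 9) (node (nat_lit 7)
  (nat_lit 53056) (nat_lit 10) (node (nat_lit 5) (nat_lit 53056) (nat_lit 11) (node (nat_lit 4)
  (nat_lit 53056) (nat_lit 12) nil (node (nat_lit 7) (nat_lit 53056) (nat_lit 12) nil nil)) (node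
  (nat_lit 4) (nat_lit 53056) (nat_lit 11) (node (nat_lit 5) (nat_lit 53056) (nat_lit 12) nil
  (node (nat_lit 7) (nat_lit 53056) (nat_lit 12) nil nil)) nil)) (node (nat_lit 5) (nat_lit 53056)
  (nat_lit 10) (node (nat_lit 7) (nat_lit 53056) (nat_lit 11) (node (nat_lit 4) (nat_lit 53056)
  (nat_lit 12) nil (node (nat_lit 5) (nat_lit 53056) (nat_lit 12) nil nil)) (node (nat_lit 4)
  (nat_lit 53056) (nat_lit 11) (node (nat_lit 7) (nat_lit 53056) (nat_lit 12) nil (node (nat_lit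
  5) (nat_lit 53056) (nat_lit 12) nil nil)) nil)) (node (nat_lit 4) (nat_lit 53056) (nat_lit 10)
  (node (nat_lit 7) (nat_lit 53056) (nat_lit 11) (node (nat_lit 5) (nat_lit 53056) (nat_lit 12)
  nil nil) (node (nat_lit 5) (nat_lit 53056) (nat_lit 11) (node (nat_lit 7) (nat_lit 53056)
  (nat_lit 12) nil nil) nil)) nil))) nil)) (node (nat_lit 5) (nat_lit 0) (nat_lit 8) (node
  (nat_lit 4) (nat_lit 0) (nat_lit 9) (node (nat_lit 7) (nat_lit 0) (nat_lit 10) (node (nat_lit 5)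
  (nat_lit 0) (nat_lit 11) (node (nat_lit 7) (nat_lit 0) (nat_lit 12) (node (nat_lit 4) (nat_lit
  0) (nat_lit 13) (node (nat_lit 7) (nat_lit 0) (nat_lit 14) (node (nat_lit 5) (nat_lit 54223)
  (nat_lit 15) (node (nat_lit 4) (nat_lit 54622) (nat_lit 16) (node (nat_lit 5) (nat_lit 54934)
  (nat_lit 17) (node (nat_lit 7) (nat_lit 55177) (nat_lit 18) (node (nat_lit 4) (nat_lit 55367)
  (nat_lit 19) (node (nat_lit 5) (nat_lit 55515) (nat_lit 20) (node (nat_lit 4) (nat_lit 55631)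
  (nat_lit 21) (node (nat_lit 7) (nat_lit 55721) (nat_lit 22) (node (nat_lit 4) (nat_lit 55791)
  (nat_lit 23) (node (nat_lit 5) (nat_lit 55846) (nat_lit 24) (node (nat_lit 7) (nat_lit 55889)
  (nat_lit 25) (node (nat_lit 5) (nat_lit 55923) (nat_lit 26) (node (nat_lit 4) (nat_lit 55949)
  (nat_lit 27) (node (nat_lit 7) (nat_lit 55970) (nat_lit 28) (node (nat_lit 5) (nat_lit 50350)
  (nat_lit 29) (node (nat_lit 7) (nat_lit 38584) (nat_lit 30) (node (nat_lit 4) (nat_lit 36970)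
  (nat_lit 31) (node (nat_lit 7) (nat_lit 4387) (nat_lit 32) nil nil) nil) nil) nil) nil) nil)
  nil) nil) nil) nil) nil) nil) nil) nil) nil) (node (nat_lit 7) (nat_lit 54934) (nat_lit 17)
  (node (nat_lit 4) (nat_lit 55177) (nat_lit 18) (node (nat_lit 5) (nat_lit 55367) (nat_lit 19)
  (node (nat_lit 4) (nat_lit 55515) (nat_lit 20) (node (nat_lit 7) (nat_lit 55631) (nat_lit 21)
  nil nil) nil) nil) nil) nil)) nil) (node (nat_lit 0) (nat_lit 55367) (nat_lit 15) nil nil))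
  (node (nat_lit 5) (nat_lit 0) (nat_lit 14) (node (nat_lit 4) (nat_lit 54223) (nat_lit 15) (node
  (nat_lit 7) (nat_lit 54622) (nat_lit 16) (node (nat_lit 4) (nat_lit 51342) (nat_lit 17) (node
  (nat_lit 5) (nat_lit 48534) (nat_lit 18) (node (nat_lit 7) (nat_lit 39197) (nat_lit 19) (node
  (nat_lit 5) (nat_lit 31462) (nat_lit 20) (node (nat_lit 4) (nat_lit 31660) (nat_lit 21) nil nil)
  nil) nil) nil) nil) nil) (node (nat_lit 7) (nat_lit 54223) (nat_lit 15) (node (nat_lit 5)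
  (nat_lit 54622) (nat_lit 16) (node (nat_lit 4) (nat_lit 54934) (nat_lit 17) nil nil) nil) (node
  (nat_lit 0) (nat_lit 55367) (nat_lit 15) nil nil))) (node (nat_lit 0) (nat_lit 55177) (nat_lit
  14) nil nil))) (node (nat_lit 0) (nat_lit 54934) (nat_lit 13) nil nil)) (node (nat_lit 0)
  (nat_lit 54622) (nat_lit 12) nil nil)) (node (nat_lit 4) (nat_lit 0) (nat_lit 11) (node (nat_lit
  5) (nat_lit 0) (nat_lit 12) (node (nat_lit 4) (nat_lit 53056) (nat_lit 13) (node (nat_lit 7)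
  (nat_lit 53712) (nat_lit 14) (node (nat_lit 5) (nat_lit 54223) (nat_lit 15) (node (nat_lit 7)
  (nat_lit 54622) (nat_lit 16) (node (nat_lit 4) (nat_lit 54934) (nat_lit 17) (node (nat_lit 5)
  (nat_lit 55177) (nat_lit 18) (node (nat_lit 4) (nat_lit 55367) (nat_lit 19) (node (nat_lit 7)
  (nat_lit 55515) (nat_lit 20) (node (nat_lit 4) (nat_lit 55631) (nat_lit 21) (node (nat_lit 5)
  (nat_lit 55721) (nat_lit 22) (node (nat_lit 7) (nat_lit 55791) (nat_lit 23) (node (nat_lit 5)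
  (nat_lit 55846) (nat_lit 24) (node (nat_lit 4) (nat_lit 50863) (nat_lit 25) (node (nat_lit 7)
  (nat_lit 47155) (nat_lit 26) nil nil) nil) nil) nil) nil) nil) nil) nil) nil) nil) (node
  (nat_lit 4) (nat_lit 54622) (nat_lit 16) (node (nat_lit 5) (nat_lit 54934) (nat_lit 17) (node
  (nat_lit 7) (nat_lit 55177) (nat_lit 18) (node (nat_lit 4) (nat_lit 55367) (nat_lit 19) (node
  (nat_lit 5) (nat_lit 55515) (nat_lit 20) (node (nat_lit 4) (nat_lit 55631) (nat_lit 21) (node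
  (nat_lit 7) (nat_lit 55721) (nat_lit 22) (node (nat_lit 4) (nat_lit 55791) (nat_lit 23) (node
  (nat_lit 5) (nat_lit 55846) (nat_lit 24) (node (nat_lit 7) (nat_lit 55889) (nat_lit 25) (node
  (nat_lit 5) (nat_lit 55923) (nat_lit 26) (node (nat_lit 4) (nat_lit 55949) (nat_lit 27) (node
  (nat_lit 7) (nat_lit 55970) (nat_lit 28) nil nil) nil) nil) nil) nil) nil) nil) nil) nil) nil)
  nil) nil) nil)) nil) nil) (node (nat_lit 0) (nat_lit 54934) (nat_lit 13) nil nil)) (node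
  (nat_lit 0) (nat_lit 54622) (nat_lit 12) nil nil)) (node (nat_lit 0) (nat_lit 54223) (nat_lit
  11) nil nil))) (node (nat_lit 5) (nat_lit 0) (nat_lit 10) (node (nat_lit 7) (nat_lit 0) (nat_lit
  11) (node (nat_lit 4) (nat_lit 0) (nat_lit 12) (node (nat_lit 7) (nat_lit 0) (nat_lit 13) (node
  (nat_lit 5) (nat_lit 53712) (nat_lit 14) (node (nat_lit 4) (nat_lit 54223) (nat_lit 15) (node
  (nat_lit 5) (nat_lit 53890) (nat_lit 16) nil (node (nat_lit 7) (nat_lit 54622) (nat_lit 16)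
  (node (nat_lit 4) (nat_lit 54934) (nat_lit 17) (node (nat_lit 5) (nat_lit 55177) (nat_lit 18)
  (node (nat_lit 4) (nat_lit 55367) (nat_lit 19) (node (nat_lit 7) (nat_lit 55515) (nat_lit 20)
  nil nil) nil) nil) nil) nil)) (node (nat_lit 7) (nat_lit 54223) (nat_lit 15) (node (nat_lit 4)
  (nat_lit 54622) (nat_lit 16) (node (nat_lit 5) (nat_lit 54934) (nat_lit 17) (node (nat_lit 4)
  (nat_lit 55177) (nat_lit 18) (node (nat_lit 7) (nat_lit 55367) (nat_lit 19) (node (nat_lit 4)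
  (nat_lit 55515) (nat_lit 20) (node (nat_lit 5) (nat_lit 55631) (nat_lit 21) (node (nat_lit 7)
  (nat_lit 55721) (nat_lit 22) (node (nat_lit 5) (nat_lit 52015) (nat_lit 23) (node (nat_lit 4)
  (nat_lit 52142) (nat_lit 24) (node (nat_lit 5) (nat_lit 33097) (nat_lit 25) (node (nat_lit 7)
  (nat_lit 29138) (nat_lit 26) (node (nat_lit 4) (nat_lit 29148) (nat_lit 27) nil nil) nil) nil)
  nil) nil) nil) nil) nil) nil) nil) nil) nil) nil)) (node (nat_lit 0) (nat_lit 55177) (nat_lit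
  14) nil nil)) (node (nat_lit 5) (nat_lit 0) (nat_lit 13) (node (nat_lit 4) (nat_lit 53712)
  (nat_lit 14) (node (nat_lit 7) (nat_lit 51168) (nat_lit 15) (node (nat_lit 4) (nat_lit 0)
  (nat_lit 16) (node (nat_lit 5) (nat_lit 35390) (nat_lit 17) (node (nat_lit 7) (nat_lit 35776)
  (nat_lit 18) (node (nat_lit 5) (nat_lit 36077) (nat_lit 19) nil nil) nil) (node (nat_lit 0)
  (nat_lit 35904) (nat_lit 17) nil nil)) (node (nat_lit 5) (nat_lit 51685) (nat_lit 16) (node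
  (nat_lit 7) (nat_lit 51188) (nat_lit 17) nil nil) nil)) nil) (node (nat_lit 0) (nat_lit 55177)
  (nat_lit 14) nil nil)) (node (nat_lit 0) (nat_lit 54934) (nat_lit 13) nil nil))) (node (nat_lit
  0) (nat_lit 54622) (nat_lit 12) nil nil)) (node (nat_lit 0) (nat_lit 54223) (nat_lit 11) nil
  nil)) (node (nat_lit 0) (nat_lit 53712) (nat_lit 10) (node (nat_lit 7) (nat_lit 53712) (nat_lit
  11) nil (node (nat_lit 5) (nat_lit 53712) (nat_lit 11) nil nil)) nil))) (node (nat_lit 0)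
  (nat_lit 53056) (nat_lit 9) (node (nat_lit 7) (nat_lit 53056) (nat_lit 10) (node (nat_lit 5)
  (nat_lit 53056) (nat_lit 11) (node (nat_lit 4) (nat_lit 53056) (nat_lit 12) nil nil) (node
  (nat_lit 4) (nat_lit 53056) (nat_lit 11) (node (nat_lit 5) (nat_lit 53056) (nat_lit 12) nil nil)
  nil)) (node (nat_lit 4) (nat_lit 53056) (nat_lit 10) (node (nat_lit 7) (nat_lit 53056) (nat_lit
  11) (node (nat_lit 5) (nat_lit 53056) (nat_lit 12) nil nil) (node (nat_lit 5) (nat_lit 53056)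
  (nat_lit 11) (node (nat_lit 7) (nat_lit 53056) (nat_lit 12) nil nil) nil)) (node (nat_lit 5)
  (nat_lit 53056) (nat_lit 10) (node (nat_lit 7) (nat_lit 53056) (nat_lit 11) nil (node (nat_lit
  4) (nat_lit 53056) (nat_lit 11) nil nil)) nil))) nil)) nil)) nil) nil) nil)) nil) nil))

noncomputable def c87 : Tr :=
  (node (nat_lit 3) (nat_lit 0) (nat_lit 1) (node (nat_lit 3) (nat_lit 0) (nat_lit 2) t313 nil)
  nil)

noncomputable def t314 : Tr :=
  (node (nat_lit 5) (nat_lit 0) (nat_lit 4) (node (nat_lit 4) (nat_lit 41372) (nat_lit 5) (node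
  (nat_lit 6) (nat_lit 51349) (nat_lit 6) (node (nat_lit 5) (nat_lit 56472) (nat_lit 7) (node
  (nat_lit 6) (nat_lit 64218) (nat_lit 8) (node (nat_lit 4) (nat_lit 65216) (nat_lit 9) (node
  (nat_lit 5) (nat_lit 65128) (nat_lit 10) (node (nat_lit 4) (nat_lit 65998) (nat_lit 11) (node
  (nat_lit 6) (nat_lit 66412) (nat_lit 12) (node (nat_lit 4) (nat_lit 66412) (nat_lit 13) (node
  (nat_lit 5) (nat_lit 66412) (nat_lit 14) (node (nat_lit 6) (nat_lit 66412) (nat_lit 15) nil nil)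
  nil) nil) (node (nat_lit 3) (nat_lit 65542) (nat_lit 12) nil nil)) (node (nat_lit 6) (nat_lit
  66115) (nat_lit 11) nil (node (nat_lit 3) (nat_lit 64799) (nat_lit 11) (node (nat_lit 4)
  (nat_lit 65232) (nat_lit 12) nil (node (nat_lit 5) (nat_lit 64938) (nat_lit 12) nil nil)) (node
  (nat_lit 0) (nat_lit 66115) (nat_lit 11) nil nil)))) (node (nat_lit 6) (nat_lit 66412) (nat_lit
  10) (node (nat_lit 5) (nat_lit 66412) (nat_lit 11) (node (nat_lit 4) (nat_lit 66412) (nat_lit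
  12) (node (nat_lit 6) (nat_lit 66412) (nat_lit 13) nil nil) nil) (node (nat_lit 3) (nat_lit
  66412) (nat_lit 11) nil (node (nat_lit 0) (nat_lit 66412) (nat_lit 11) nil nil))) (node (nat_lit
  3) (nat_lit 65978) (nat_lit 10) (node (nat_lit 5) (nat_lit 64614) (nat_lit 11) nil nil) (node
  (nat_lit 0) (nat_lit 66412) (nat_lit 10) nil nil)))) (node (nat_lit 3) (nat_lit 64034) (nat_lit
  9) (node (nat_lit 5) (nat_lit 63719) (nat_lit 10) nil (node (nat_lit 4) (nat_lit 65200) (nat_lit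
  10) nil nil)) (node (nat_lit 0) (nat_lit 64980) (nat_lit 9) nil nil))) (node (nat_lit 3)
  (nat_lit 65524) (nat_lit 8) (node (nat_lit 5) (nat_lit 65176) (nat_lit 9) (node (nat_lit 4)
  (nat_lit 65259) (nat_lit 10) (node (nat_lit 5) (nat_lit 61715) (nat_lit 11) (node (nat_lit 6)
  (nat_lit 58640) (nat_lit 12) nil nil) nil) (node (nat_lit 6) (nat_lit 65950) (nat_lit 10) nil
  (node (nat_lit 0) (nat_lit 65950) (nat_lit 10) nil nil))) (node (nat_lit 4) (nat_lit 66326)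
  (nat_lit 9) (node (nat_lit 11) (nat_lit 65574) (nat_lit 10) nil nil) (node (nat_lit 6) (nat_lit
  66412) (nat_lit 9) nil (node (nat_lit 0) (nat_lit 66412) (nat_lit 9) nil nil)))) (node (nat_lit
  0) (nat_lit 64851) (nat_lit 8) (node (nat_lit 5) (nat_lit 64851) (nat_lit 9) nil (node (nat_lit
  6) (nat_lit 65782) (nat_lit 9) nil (node (nat_lit 4) (nat_lit 64851) (nat_lit 9) nil (node
  (nat_lit 3) (nat_lit 64851) (nat_lit 9) nil (node (nat_lit 0) (nat_lit 65782) (nat_lit 9) nil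
  nil))))) nil))) (node (nat_lit 4) (nat_lit 56384) (nat_lit 7) (node (nat_lit 5) (nat_lit 61717)
  (nat_lit 8) (node (nat_lit 6) (nat_lit 63716) (nat_lit 9) (node (nat_lit 4) (nat_lit 63716)
  (nat_lit 10) (node (nat_lit 6) (nat_lit 64704) (nat_lit 11) (node (nat_lit 5) (nat_lit 64704)
  (nat_lit 12) nil nil) nil) nil) (node (nat_lit 4) (nat_lit 61389) (nat_lit 9) nil (node (nat_lit
  3) (nat_lit 58940) (nat_lit 9) nil nil))) (node (nat_lit 3) (nat_lit 62015) (nat_lit 8) (node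
  (nat_lit 6) (nat_lit 64320) (nat_lit 9) nil nil) (node (nat_lit 0) (nat_lit 61839) (nat_lit 8)
  nil nil))) (node (nat_lit 3) (nat_lit 62455) (nat_lit 7) (node (nat_lit 4) (nat_lit 64641)
  (nat_lit 8) nil (node (nat_lit 5) (nat_lit 62114) (nat_lit 8) nil (node (nat_lit 6) (nat_lit
  65751) (nat_lit 8) nil nil))) (node (nat_lit 0) (nat_lit 63027) (nat_lit 7) (node (nat_lit 5)
  (nat_lit 63027) (nat_lit 8) nil (node (nat_lit 0) (nat_lit 64401) (nat_lit 8) nil nil)) nil))))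
  (node (nat_lit 5) (nat_lit 48631) (nat_lit 6) (node (nat_lit 6) (nat_lit 35034) (nat_lit 7)
  (node (nat_lit 4) (nat_lit 36547) (nat_lit 8) (node (nat_lit 6) (nat_lit 37428) (nat_lit 9)
  (node (nat_lit 5) (nat_lit 37428) (nat_lit 10) (node (nat_lit 4) (nat_lit 37428) (nat_lit 11)
  (node (nat_lit 6) (nat_lit 37428) (nat_lit 12) (node (nat_lit 4) (nat_lit 37428) (nat_lit 13)
  (node (nat_lit 5) (nat_lit 37428) (nat_lit 14) (node (nat_lit 6) (nat_lit 37428) (nat_lit 15)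
  nil nil) nil) (node (nat_lit 3) (nat_lit 37428) (nat_lit 13) nil (node (nat_lit 0) (nat_lit
  37428) (nat_lit 13) nil nil))) (node (nat_lit 5) (nat_lit 37428) (nat_lit 12) (node (nat_lit 6)
  (nat_lit 37428) (nat_lit 13) nil (node (nat_lit 3) (nat_lit 37428) (nat_lit 13) (node (nat_lit
  4) (nat_lit 37428) (nat_lit 14) nil nil) (node (nat_lit 0) (nat_lit 37428) (nat_lit 13) nil
  nil))) (node (nat_lit 3) (nat_lit 37428) (nat_lit 12) (node (nat_lit 5) (nat_lit 37428) (nat_lit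
  13) nil (node (nat_lit 4) (nat_lit 37428) (nat_lit 13) (node (nat_lit 5) (nat_lit 36174)
  (nat_lit 14) nil nil) nil)) (node (nat_lit 0) (nat_lit 37428) (nat_lit 12) nil nil)))) (node
  (nat_lit 6) (nat_lit 37428) (nat_lit 11) nil (node (nat_lit 0) (nat_lit 37428) (nat_lit 11) nil
  nil))) (node (nat_lit 3) (nat_lit 37428) (nat_lit 10) nil (node (nat_lit 0) (nat_lit 37428)
  (nat_lit 10) nil nil))) (node (nat_lit 5) (nat_lit 37428) (nat_lit 9) (node (nat_lit 4) (nat_lit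
  37428) (nat_lit 10) (node (nat_lit 6) (nat_lit 37428) (nat_lit 11) (node (nat_lit 5) (nat_lit
  37428) (nat_lit 12) (node (nat_lit 4) (nat_lit 37428) (nat_lit 13) (node (nat_lit 5) (nat_lit
  37428) (nat_lit 14) (node (nat_lit 6) (nat_lit 37428) (nat_lit 15) nil nil) nil) nil) (node
  (nat_lit 4) (nat_lit 37428) (nat_lit 12) nil nil)) (node (nat_lit 3) (nat_lit 37428) (nat_lit
  11) nil nil)) (node (nat_lit 3) (nat_lit 37428) (nat_lit 10) (node (nat_lit 4) (nat_lit 37428)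
  (nat_lit 11) (node (nat_lit 5) (nat_lit 35483) (nat_lit 12) (node (nat_lit 6) (nat_lit 33789)
  (nat_lit 13) nil nil) nil) nil) (node (nat_lit 0) (nat_lit 37428) (nat_lit 10) nil nil))) (node
  (nat_lit 3) (nat_lit 36981) (nat_lit 9) (node (nat_lit 5) (nat_lit 35904) (nat_lit 10) nil nil)
  (node (nat_lit 0) (nat_lit 37428) (nat_lit 9) nil nil)))) (node (nat_lit 3) (nat_lit 37428)
  (nat_lit 8) (node (nat_lit 5) (nat_lit 37428) (nat_lit 9) (node (nat_lit 11) (nat_lit 35838)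
  (nat_lit 10) (node (nat_lit 4) (nat_lit 35834) (nat_lit 11) nil nil) (node (nat_lit 6) (nat_lit
  37428) (nat_lit 10) nil nil)) (node (nat_lit 6) (nat_lit 37428) (nat_lit 9) (node (nat_lit 4)
  (nat_lit 37428) (nat_lit 10) nil nil) (node (nat_lit 4) (nat_lit 37428) (nat_lit 9) nil (node
  (nat_lit 0) (nat_lit 37428) (nat_lit 9) nil nil)))) (node (nat_lit 0) (nat_lit 37428) (nat_lit
  8) (node (nat_lit 6) (nat_lit 37428) (nat_lit 9) nil (node (nat_lit 5) (nat_lit 37428) (nat_lit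
  9) nil (node (nat_lit 4) (nat_lit 37428) (nat_lit 9) nil (node (nat_lit 0) (nat_lit 37428)
  (nat_lit 9) nil nil)))) nil))) (node (nat_lit 3) (nat_lit 61965) (nat_lit 7) (node (nat_lit 4)
  (nat_lit 56690) (nat_lit 8) (node (nat_lit 5) (nat_lit 45382) (nat_lit 9) (node (nat_lit 4)
  (nat_lit 44832) (nat_lit 10) nil (node (nat_lit 6) (nat_lit 46830) (nat_lit 10) (node (nat_lit
  5) (nat_lit 37754) (nat_lit 11) nil nil) nil)) nil) (node (nat_lit 5) (nat_lit 61580) (nat_lit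
  8) nil nil)) (node (nat_lit 0) (nat_lit 62270) (nat_lit 7) nil nil))) (node (nat_lit 3) (nat_lit
  54775) (nat_lit 6) (node (nat_lit 5) (nat_lit 58508) (nat_lit 7) (node (nat_lit 9) (nat_lit
  61900) (nat_lit 8) (node (nat_lit 4) (nat_lit 61515) (nat_lit 9) (node (nat_lit 5) (nat_lit
  58788) (nat_lit 10) (node (nat_lit 6) (nat_lit 47367) (nat_lit 11) nil nil) nil) nil) (node
  (nat_lit 4) (nat_lit 57295) (nat_lit 8) (node (nat_lit 5) (nat_lit 54949) (nat_lit 9) (node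
  (nat_lit 9) (nat_lit 52719) (nat_lit 10) nil (node (nat_lit 6) (nat_lit 36026) (nat_lit 10)
  (node (nat_lit 5) (nat_lit 36026) (nat_lit 11) nil nil) nil)) nil) (node (nat_lit 6) (nat_lit
  62774) (nat_lit 8) nil (node (nat_lit 0) (nat_lit 62068) (nat_lit 8) nil nil)))) (node (nat_lit
  4) (nat_lit 53353) (nat_lit 7) (node (nat_lit 5) (nat_lit 48264) (nat_lit 8) (node (nat_lit 9)
  (nat_lit 49956) (nat_lit 9) (node (nat_lit 5) (nat_lit 50411) (nat_lit 10) (node (nat_lit 4)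
  (nat_lit 49344) (nat_lit 11) nil nil) nil) (node (nat_lit 4) (nat_lit 49928) (nat_lit 9) nil
  (node (nat_lit 6) (nat_lit 50686) (nat_lit 9) nil nil))) (node (nat_lit 6) (nat_lit 56914)
  (nat_lit 8) (node (nat_lit 5) (nat_lit 56914) (nat_lit 9) nil nil) (node (nat_lit 0) (nat_lit
  56914) (nat_lit 8) nil nil))) (node (nat_lit 6) (nat_lit 61454) (nat_lit 7) (node (nat_lit 4)
  (nat_lit 61454) (nat_lit 8) nil nil) (node (nat_lit 0) (nat_lit 61454) (nat_lit 7) (node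
  (nat_lit 9) (nat_lit 61454) (nat_lit 8) nil nil) nil)))) (node (nat_lit 0) (nat_lit 63243)
  (nat_lit 6) (node (nat_lit 5) (nat_lit 62070) (nat_lit 7) nil (node (nat_lit 4) (nat_lit 62417)
  (nat_lit 7) nil (node (nat_lit 6) (nat_lit 65429) (nat_lit 7) nil (node (nat_lit 3) (nat_lit
  63243) (nat_lit 7) nil (node (nat_lit 0) (nat_lit 65560) (nat_lit 7) nil nil))))) nil)))) (node
  (nat_lit 3) (nat_lit 55687) (nat_lit 5) (node (nat_lit 4) (nat_lit 62897) (nat_lit 6) (node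
  (nat_lit 5) (nat_lit 65566) (nat_lit 7) (node (nat_lit 4) (nat_lit 66381) (nat_lit 8) nil (node
  (nat_lit 8) (nat_lit 66330) (nat_lit 8) (node (nat_lit 5) (nat_lit 66054) (nat_lit 9) nil nil)
  (node (nat_lit 6) (nat_lit 38033) (nat_lit 8) (node (nat_lit 5) (nat_lit 28984) (nat_lit 9) nil
  nil) (node (nat_lit 0) (nat_lit 66412) (nat_lit 8) nil nil)))) (node (nat_lit 8) (nat_lit 65663)
  (nat_lit 7) (node (nat_lit 5) (nat_lit 66278) (nat_lit 8) (node (nat_lit 4) (nat_lit 64680)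
  (nat_lit 9) (node (nat_lit 5) (nat_lit 59353) (nat_lit 10) (node (nat_lit 6) (nat_lit 46897)
  (nat_lit 11) (node (nat_lit 5) (nat_lit 36877) (nat_lit 12) (node (nat_lit 8) (nat_lit 37122)
  (nat_lit 13) nil nil) nil) nil) nil) (node (nat_lit 8) (nat_lit 64313) (nat_lit 9) nil nil))
  (node (nat_lit 6) (nat_lit 66412) (nat_lit 8) nil (node (nat_lit 0) (nat_lit 66412) (nat_lit 8)
  nil nil))) (node (nat_lit 6) (nat_lit 66381) (nat_lit 7) nil (node (nat_lit 0) (nat_lit 66381)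
  (nat_lit 7) nil nil)))) (node (nat_lit 5) (nat_lit 57941) (nat_lit 6) (node (nat_lit 6) (nat_lit
  63238) (nat_lit 7) (node (nat_lit 8) (nat_lit 63607) (nat_lit 8) (node (nat_lit 6) (nat_lit
  64670) (nat_lit 9) (node (nat_lit 5) (nat_lit 64916) (nat_lit 10) (node (nat_lit 8) (nat_lit
  65386) (nat_lit 11) (node (nat_lit 6) (nat_lit 65982) (nat_lit 12) (node (nat_lit 8) (nat_lit
  65982) (nat_lit 13) (node (nat_lit 5) (nat_lit 66141) (nat_lit 14) nil nil) (node (nat_lit 4)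
  (nat_lit 65982) (nat_lit 13) nil (node (nat_lit 0) (nat_lit 66141) (nat_lit 13) nil nil))) (node
  (nat_lit 5) (nat_lit 65785) (nat_lit 12) (node (nat_lit 4) (nat_lit 66123) (nat_lit 13) (node
  (nat_lit 5) (nat_lit 66387) (nat_lit 14) nil nil) (node (nat_lit 0) (nat_lit 66141) (nat_lit 13)
  nil nil)) (node (nat_lit 4) (nat_lit 65603) (nat_lit 12) (node (nat_lit 8) (nat_lit 65125)
  (nat_lit 13) nil nil) (node (nat_lit 0) (nat_lit 65800) (nat_lit 12) nil nil)))) (node (nat_lit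
  6) (nat_lit 65379) (nat_lit 11) nil nil)) nil) (node (nat_lit 5) (nat_lit 64346) (nat_lit 9)
  (node (nat_lit 8) (nat_lit 64916) (nat_lit 10) (node (nat_lit 6) (nat_lit 65379) (nat_lit 11)
  nil (node (nat_lit 4) (nat_lit 65162) (nat_lit 11) nil nil)) (node (nat_lit 4) (nat_lit 64670)
  (nat_lit 10) (node (nat_lit 8) (nat_lit 64916) (nat_lit 11) nil nil) nil)) (node (nat_lit 4)
  (nat_lit 64066) (nat_lit 9) nil (node (nat_lit 0) (nat_lit 64389) (nat_lit 9) nil nil)))) (node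
  (nat_lit 4) (nat_lit 63607) (nat_lit 8) (node (nat_lit 5) (nat_lit 62851) (nat_lit 9) nil nil)
  (node (nat_lit 0) (nat_lit 64066) (nat_lit 8) nil nil))) (node (nat_lit 4) (nat_lit 61597)
  (nat_lit 7) (node (nat_lit 5) (nat_lit 43397) (nat_lit 8) (node (nat_lit 8) (nat_lit 43820)
  (nat_lit 9) (node (nat_lit 4) (nat_lit 44143) (nat_lit 10) (node (nat_lit 5) (nat_lit 42917)
  (nat_lit 11) nil nil) nil) (node (nat_lit 6) (nat_lit 37428) (nat_lit 9) (node (nat_lit 5)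
  (nat_lit 37428) (nat_lit 10) nil (node (nat_lit 8) (nat_lit 37428) (nat_lit 10) nil nil)) nil))
  (node (nat_lit 8) (nat_lit 59136) (nat_lit 8) nil (node (nat_lit 6) (nat_lit 62774) (nat_lit 8)
  nil nil))) (node (nat_lit 0) (nat_lit 62794) (nat_lit 7) nil nil))) (node (nat_lit 6) (nat_lit
  64834) (nat_lit 6) (node (nat_lit 8) (nat_lit 65663) (nat_lit 7) (node (nat_lit 5) (nat_lit
  66381) (nat_lit 8) (node (nat_lit 6) (nat_lit 66412) (nat_lit 9) (node (nat_lit 8) (nat_lit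
  66412) (nat_lit 10) nil nil) (node (nat_lit 8) (nat_lit 66108) (nat_lit 9) nil nil)) nil) (node
  (nat_lit 5) (nat_lit 64834) (nat_lit 7) (node (nat_lit 6) (nat_lit 66412) (nat_lit 8) (node
  (nat_lit 8) (nat_lit 66412) (nat_lit 9) nil nil) nil) (node (nat_lit 4) (nat_lit 64834) (nat_lit
  7) nil (node (nat_lit 0) (nat_lit 66381) (nat_lit 7) (node (nat_lit 0) (nat_lit 66412) (nat_lit
  8) nil nil) nil)))) (node (nat_lit 0) (nat_lit 65617) (nat_lit 6) (node (nat_lit 5) (nat_lit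
  65617) (nat_lit 7) nil (node (nat_lit 8) (nat_lit 65617) (nat_lit 7) nil (node (nat_lit 6)
  (nat_lit 66381) (nat_lit 7) nil (node (nat_lit 0) (nat_lit 66381) (nat_lit 7) nil nil))))
  nil)))) (node (nat_lit 0) (nat_lit 61169) (nat_lit 5) (node (nat_lit 6) (nat_lit 63819) (nat_lit
  6) (node (nat_lit 5) (nat_lit 63187) (nat_lit 7) (node (nat_lit 6) (nat_lit 65404) (nat_lit 8)
  (node (nat_lit 8) (nat_lit 65807) (nat_lit 9) nil nil) (node (nat_lit 4) (nat_lit 63272)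
  (nat_lit 8) nil (node (nat_lit 3) (nat_lit 62616) (nat_lit 8) nil (node (nat_lit 0) (nat_lit
  65404) (nat_lit 8) nil nil)))) (node (nat_lit 8) (nat_lit 65432) (nat_lit 7) nil nil)) (node
  (nat_lit 5) (nat_lit 61586) (nat_lit 6) (node (nat_lit 6) (nat_lit 66375) (nat_lit 7) (node
  (nat_lit 8) (nat_lit 66412) (nat_lit 8) nil nil) (node (nat_lit 4) (nat_lit 62451) (nat_lit 7)
  (node (nat_lit 3) (nat_lit 62217) (nat_lit 8) (node (nat_lit 4) (nat_lit 59566) (nat_lit 9) nil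
  nil) nil) (node (nat_lit 3) (nat_lit 64360) (nat_lit 7) (node (nat_lit 5) (nat_lit 64759)
  (nat_lit 8) nil nil) (node (nat_lit 0) (nat_lit 65917) (nat_lit 7) nil nil)))) (node (nat_lit 4)
  (nat_lit 63448) (nat_lit 6) (node (nat_lit 5) (nat_lit 63408) (nat_lit 7) nil (node (nat_lit 6)
  (nat_lit 66381) (nat_lit 7) nil (node (nat_lit 8) (nat_lit 66381) (nat_lit 7) nil (node (nat_lit
  3) (nat_lit 65663) (nat_lit 7) nil nil)))) (node (nat_lit 3) (nat_lit 63014) (nat_lit 6) (node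
  (nat_lit 5) (nat_lit 61300) (nat_lit 7) (node (nat_lit 9) (nat_lit 59029) (nat_lit 8) nil nil)
  (node (nat_lit 4) (nat_lit 65663) (nat_lit 7) nil (node (nat_lit 8) (nat_lit 66381) (nat_lit 7)
  nil (node (nat_lit 6) (nat_lit 66381) (nat_lit 7) nil nil)))) (node (nat_lit 0) (nat_lit 65452)
  (nat_lit 6) (node (nat_lit 3) (nat_lit 65452) (nat_lit 7) nil nil) nil))))) nil))) (node
  (nat_lit 4) (nat_lit 0) (nat_lit 4) (node (nat_lit 6) (nat_lit 46055) (nat_lit 5) (node (nat_lit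
  5) (nat_lit 48701) (nat_lit 6) (node (nat_lit 6) (nat_lit 59493) (nat_lit 7) (node (nat_lit 4)
  (nat_lit 63393) (nat_lit 8) (node (nat_lit 5) (nat_lit 64432) (nat_lit 9) (node (nat_lit 4)
  (nat_lit 64534) (nat_lit 10) (node (nat_lit 6) (nat_lit 65745) (nat_lit 11) (node (nat_lit 5)
  (nat_lit 65745) (nat_lit 12) (node (nat_lit 4) (nat_lit 66083) (nat_lit 13) nil nil) (node
  (nat_lit 4) (nat_lit 65745) (nat_lit 12) (node (nat_lit 5) (nat_lit 66083) (nat_lit 13) nil nil)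
  nil)) (node (nat_lit 3) (nat_lit 65112) (nat_lit 11) (node (nat_lit 5) (nat_lit 64680) (nat_lit
  12) nil (node (nat_lit 4) (nat_lit 65545) (nat_lit 12) nil nil)) (node (nat_lit 0) (nat_lit
  65521) (nat_lit 11) nil nil))) (node (nat_lit 6) (nat_lit 65995) (nat_lit 10) (node (nat_lit 5)
  (nat_lit 65995) (nat_lit 11) (node (nat_lit 4) (nat_lit 66412) (nat_lit 12) (node (nat_lit 5)
  (nat_lit 66412) (nat_lit 13) (node (nat_lit 6) (nat_lit 66412) (nat_lit 14) nil nil) nil) nil)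
  (node (nat_lit 3) (nat_lit 65995) (nat_lit 11) nil (node (nat_lit 0) (nat_lit 66412) (nat_lit
  11) nil nil))) (node (nat_lit 3) (nat_lit 65114) (nat_lit 10) (node (nat_lit 4) (nat_lit 65551)
  (nat_lit 11) (node (nat_lit 5) (nat_lit 62137) (nat_lit 12) nil nil) (node (nat_lit 5) (nat_lit
  65209) (nat_lit 11) nil (node (nat_lit 6) (nat_lit 66182) (nat_lit 11) nil nil))) (node (nat_lit
  0) (nat_lit 65749) (nat_lit 10) nil nil)))) (node (nat_lit 3) (nat_lit 63911) (nat_lit 9) (node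
  (nat_lit 6) (nat_lit 65228) (nat_lit 10) nil (node (nat_lit 4) (nat_lit 64673) (nat_lit 10) nil
  (node (nat_lit 5) (nat_lit 63816) (nat_lit 10) (node (nat_lit 4) (nat_lit 62743) (nat_lit 11)
  (node (nat_lit 5) (nat_lit 61132) (nat_lit 12) (node (nat_lit 6) (nat_lit 60051) (nat_lit 13)
  (node (nat_lit 4) (nat_lit 56192) (nat_lit 14) (node (nat_lit 6) (nat_lit 50391) (nat_lit 15)
  (node (nat_lit 5) (nat_lit 40269) (nat_lit 16) nil nil) nil) nil) nil) nil) nil) (node (nat_lit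
  0) (nat_lit 65228) (nat_lit 10) nil nil)))) (node (nat_lit 0) (nat_lit 65978) (nat_lit 9) nil
  nil))) (node (nat_lit 3) (nat_lit 61002) (nat_lit 8) nil (node (nat_lit 0) (nat_lit 63167)
  (nat_lit 8) nil nil))) (node (nat_lit 4) (nat_lit 57492) (nat_lit 7) (node (nat_lit 5) (nat_lit
  62418) (nat_lit 8) (node (nat_lit 6) (nat_lit 65186) (nat_lit 9) (node (nat_lit 4) (nat_lit
  65089) (nat_lit 10) (node (nat_lit 5) (nat_lit 64759) (nat_lit 11) nil (node (nat_lit 6)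
  (nat_lit 37428) (nat_lit 11) nil nil)) nil) nil) (node (nat_lit 6) (nat_lit 61850) (nat_lit 8)
  nil (node (nat_lit 3) (nat_lit 62660) (nat_lit 8) (node (nat_lit 4) (nat_lit 58175) (nat_lit 9)
  nil nil) (node (nat_lit 0) (nat_lit 62577) (nat_lit 8) nil nil)))) (node (nat_lit 3) (nat_lit
  63235) (nat_lit 7) nil (node (nat_lit 0) (nat_lit 56222) (nat_lit 7) nil nil)))) (node (nat_lit
  3) (nat_lit 60266) (nat_lit 6) (node (nat_lit 5) (nat_lit 59806) (nat_lit 7) nil nil) (node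
  (nat_lit 0) (nat_lit 60554) (nat_lit 6) nil nil))) (node (nat_lit 5) (nat_lit 42050) (nat_lit 5)
  (node (nat_lit 4) (nat_lit 48668) (nat_lit 6) (node (nat_lit 6) (nat_lit 59024) (nat_lit 7)
  (node (nat_lit 5) (nat_lit 62790) (nat_lit 8) (node (nat_lit 6) (nat_lit 65591) (nat_lit 9)
  (node (nat_lit 4) (nat_lit 64931) (nat_lit 10) (node (nat_lit 5) (nat_lit 64973) (nat_lit 11)
  nil (node (nat_lit 3) (nat_lit 64378) (nat_lit 11) nil nil)) (node (nat_lit 3) (nat_lit 65591)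
  (nat_lit 10) nil (node (nat_lit 0) (nat_lit 66146) (nat_lit 10) nil nil))) (node (nat_lit 4)
  (nat_lit 63204) (nat_lit 9) (node (nat_lit 5) (nat_lit 62889) (nat_lit 10) (node (nat_lit 6)
  (nat_lit 64455) (nat_lit 11) (node (nat_lit 4) (nat_lit 64455) (nat_lit 12) (node (nat_lit 5)
  (nat_lit 64257) (nat_lit 13) (node (nat_lit 4) (nat_lit 64114) (nat_lit 14) (node (nat_lit 6)
  (nat_lit 35618) (nat_lit 15) nil nil) nil) nil) nil) nil) (node (nat_lit 3) (nat_lit 61091)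
  (nat_lit 10) nil nil)) (node (nat_lit 3) (nat_lit 62719) (nat_lit 9) nil (node (nat_lit 0)
  (nat_lit 65434) (nat_lit 9) nil nil)))) (node (nat_lit 3) (nat_lit 60531) (nat_lit 8) nil (node
  (nat_lit 0) (nat_lit 62374) (nat_lit 8) nil nil))) (node (nat_lit 3) (nat_lit 60358) (nat_lit 7)
  (node (nat_lit 5) (nat_lit 58515) (nat_lit 8) (node (nat_lit 4) (nat_lit 57882) (nat_lit 9)
  (node (nat_lit 5) (nat_lit 53466) (nat_lit 10) (node (nat_lit 6) (nat_lit 48646) (nat_lit 11)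
  (node (nat_lit 4) (nat_lit 40400) (nat_lit 12) (node (nat_lit 5) (nat_lit 34546) (nat_lit 13)
  (node (nat_lit 4) (nat_lit 34139) (nat_lit 14) nil nil) nil) nil) nil) nil) nil) (node (nat_lit
  4) (nat_lit 56612) (nat_lit 8) (node (nat_lit 5) (nat_lit 52371) (nat_lit 9) (node (nat_lit 6)
  (nat_lit 49626) (nat_lit 10) (node (nat_lit 4) (nat_lit 49152) (nat_lit 11) nil nil) nil) nil)
  (node (nat_lit 6) (nat_lit 63918) (nat_lit 8) nil nil))) (node (nat_lit 0) (nat_lit 62307)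
  (nat_lit 7) nil nil))) (node (nat_lit 3) (nat_lit 58765) (nat_lit 6) (node (nat_lit 4) (nat_lit
  54163) (nat_lit 7) (node (nat_lit 5) (nat_lit 43985) (nat_lit 8) (node (nat_lit 6) (nat_lit
  38390) (nat_lit 9) nil nil) (node (nat_lit 6) (nat_lit 57499) (nat_lit 8) nil nil)) (node
  (nat_lit 5) (nat_lit 57639) (nat_lit 7) (node (nat_lit 4) (nat_lit 53483) (nat_lit 8) (node
  (nat_lit 5) (nat_lit 42453) (nat_lit 9) nil nil) nil) (node (nat_lit 6) (nat_lit 63922) (nat_lit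
  7) nil nil))) (node (nat_lit 0) (nat_lit 60527) (nat_lit 6) (node (nat_lit 5) (nat_lit 60527)
  (nat_lit 7) nil nil) nil))) (node (nat_lit 3) (nat_lit 59100) (nat_lit 5) (node (nat_lit 6)
  (nat_lit 65663) (nat_lit 6) nil (node (nat_lit 5) (nat_lit 62009) (nat_lit 6) (node (nat_lit 4)
  (nat_lit 59247) (nat_lit 7) (node (nat_lit 5) (nat_lit 45337) (nat_lit 8) (node (nat_lit 8)
  (nat_lit 44501) (nat_lit 9) (node (nat_lit 4) (nat_lit 44073) (nat_lit 10) (node (nat_lit 5)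
  (nat_lit 42255) (nat_lit 11) nil nil) nil) (node (nat_lit 6) (nat_lit 37428) (nat_lit 9) (node
  (nat_lit 4) (nat_lit 37428) (nat_lit 10) nil nil) nil)) (node (nat_lit 8) (nat_lit 60244)
  (nat_lit 8) (node (nat_lit 4) (nat_lit 57137) (nat_lit 9) (node (nat_lit 5) (nat_lit 53759)
  (nat_lit 10) nil nil) nil) (node (nat_lit 6) (nat_lit 60424) (nat_lit 8) nil nil))) (node
  (nat_lit 8) (nat_lit 64425) (nat_lit 7) (node (nat_lit 4) (nat_lit 64750) (nat_lit 8) (node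
  (nat_lit 5) (nat_lit 59924) (nat_lit 9) (node (nat_lit 6) (nat_lit 40345) (nat_lit 10) (node
  (nat_lit 4) (nat_lit 39951) (nat_lit 11) nil nil) nil) nil) nil) nil)) (node (nat_lit 4)
  (nat_lit 64186) (nat_lit 6) (node (nat_lit 5) (nat_lit 65663) (nat_lit 7) (node (nat_lit 6)
  (nat_lit 50833) (nat_lit 8) nil nil) (node (nat_lit 6) (nat_lit 66381) (nat_lit 7) nil (node
  (nat_lit 0) (nat_lit 66381) (nat_lit 7) nil nil))) (node (nat_lit 0) (nat_lit 65663) (nat_lit 6)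
  nil nil)))) (node (nat_lit 0) (nat_lit 60660) (nat_lit 5) (node (nat_lit 5) (nat_lit 61100)
  (nat_lit 6) nil (node (nat_lit 6) (nat_lit 64943) (nat_lit 6) nil (node (nat_lit 4) (nat_lit
  60660) (nat_lit 6) nil (node (nat_lit 3) (nat_lit 59927) (nat_lit 6) nil (node (nat_lit 0)
  (nat_lit 64943) (nat_lit 6) (node (nat_lit 3) (nat_lit 64943) (nat_lit 7) nil nil) nil)))))
  nil)))) (node (nat_lit 3) (nat_lit 0) (nat_lit 4) (node (nat_lit 4) (nat_lit 57580) (nat_lit 5)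
  (node (nat_lit 5) (nat_lit 62390) (nat_lit 6) (node (nat_lit 7) (nat_lit 64157) (nat_lit 7)
  (node (nat_lit 5) (nat_lit 59949) (nat_lit 8) nil (node (nat_lit 4) (nat_lit 64875) (nat_lit 8)
  nil nil)) (node (nat_lit 4) (nat_lit 62767) (nat_lit 7) nil (node (nat_lit 6) (nat_lit 27578)
  (nat_lit 7) nil (node (nat_lit 0) (nat_lit 65006) (nat_lit 7) nil nil)))) (node (nat_lit 6)
  (nat_lit 65663) (nat_lit 6) nil (node (nat_lit 7) (nat_lit 61572) (nat_lit 6) (node (nat_lit 6)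
  (nat_lit 65903) (nat_lit 7) nil (node (nat_lit 5) (nat_lit 53804) (nat_lit 7) nil nil)) (node
  (nat_lit 0) (nat_lit 65663) (nat_lit 6) nil nil)))) (node (nat_lit 5) (nat_lit 0) (nat_lit 5)
  (node (nat_lit 7) (nat_lit 55205) (nat_lit 6) (node (nat_lit 6) (nat_lit 61184) (nat_lit 7)
  (node (nat_lit 5) (nat_lit 62106) (nat_lit 8) (node (nat_lit 6) (nat_lit 64232) (nat_lit 9)
  (node (nat_lit 7) (nat_lit 63867) (nat_lit 10) (node (nat_lit 5) (nat_lit 64213) (nat_lit 11)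
  (node (nat_lit 6) (nat_lit 64729) (nat_lit 12) nil (node (nat_lit 7) (nat_lit 63003) (nat_lit
  12) nil nil)) nil) nil) (node (nat_lit 7) (nat_lit 61505) (nat_lit 9) nil nil)) nil) (node
  (nat_lit 4) (nat_lit 53750) (nat_lit 7) (node (nat_lit 5) (nat_lit 51211) (nat_lit 8) (node
  (nat_lit 6) (nat_lit 39426) (nat_lit 9) (node (nat_lit 7) (nat_lit 36782) (nat_lit 10) nil nil)
  nil) nil) nil)) (node (nat_lit 4) (nat_lit 58829) (nat_lit 6) (node (nat_lit 7) (nat_lit 60201)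
  (nat_lit 7) nil (node (nat_lit 5) (nat_lit 59114) (nat_lit 7) (node (nat_lit 6) (nat_lit 32346)
  (nat_lit 8) (node (nat_lit 7) (nat_lit 32346) (nat_lit 9) nil nil) nil) (node (nat_lit 6)
  (nat_lit 63160) (nat_lit 7) nil nil))) (node (nat_lit 6) (nat_lit 60504) (nat_lit 6) nil (node
  (nat_lit 0) (nat_lit 62448) (nat_lit 6) (node (nat_lit 5) (nat_lit 62448) (nat_lit 7) nil nil)
  nil)))) (node (nat_lit 6) (nat_lit 59552) (nat_lit 5) (node (nat_lit 5) (nat_lit 61948) (nat_lit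
  6) (node (nat_lit 6) (nat_lit 66381) (nat_lit 7) (node (nat_lit 7) (nat_lit 66381) (nat_lit 8)
  (node (nat_lit 5) (nat_lit 66206) (nat_lit 9) (node (nat_lit 7) (nat_lit 66412) (nat_lit 10) nil
  nil) nil) nil) nil) (node (nat_lit 4) (nat_lit 59552) (nat_lit 6) nil (node (nat_lit 0) (nat_lit
  62270) (nat_lit 6) nil nil))) (node (nat_lit 0) (nat_lit 61094) (nat_lit 5) (node (nat_lit 6)
  (nat_lit 63811) (nat_lit 6) nil (node (nat_lit 5) (nat_lit 61094) (nat_lit 6) nil (node (nat_lit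
  7) (nat_lit 60361) (nat_lit 6) nil (node (nat_lit 4) (nat_lit 61094) (nat_lit 6) nil nil))))
  nil)))) (node (nat_lit 0) (nat_lit 0) (nat_lit 4) (node (nat_lit 5) (nat_lit 57045) (nat_lit 5)
  (node (nat_lit 6) (nat_lit 65595) (nat_lit 6) (node (nat_lit 5) (nat_lit 64358) (nat_lit 7)
  (node (nat_lit 7) (nat_lit 65904) (nat_lit 8) (node (nat_lit 5) (nat_lit 65904) (nat_lit 9)
  (node (nat_lit 6) (nat_lit 66412) (nat_lit 10) nil (node (nat_lit 3) (nat_lit 64948) (nat_lit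
  10) nil (node (nat_lit 0) (nat_lit 66412) (nat_lit 10) nil nil))) (node (nat_lit 6) (nat_lit
  66227) (nat_lit 9) nil nil)) (node (nat_lit 4) (nat_lit 64474) (nat_lit 8) nil (node (nat_lit 3)
  (nat_lit 65021) (nat_lit 8) nil (node (nat_lit 0) (nat_lit 65534) (nat_lit 8) nil nil)))) (node
  (nat_lit 4) (nat_lit 64806) (nat_lit 7) (node (nat_lit 7) (nat_lit 66412) (nat_lit 8) nil nil)
  (node (nat_lit 3) (nat_lit 65595) (nat_lit 7) nil (node (nat_lit 0) (nat_lit 66313) (nat_lit 7)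
  nil nil)))) (node (nat_lit 7) (nat_lit 64778) (nat_lit 6) (node (nat_lit 6) (nat_lit 65496)
  (nat_lit 7) nil nil) (node (nat_lit 4) (nat_lit 57788) (nat_lit 6) nil (node (nat_lit 3)
  (nat_lit 60646) (nat_lit 6) nil (node (nat_lit 0) (nat_lit 63761) (nat_lit 6) nil nil))))) (node
  (nat_lit 6) (nat_lit 62234) (nat_lit 5) (node (nat_lit 5) (nat_lit 61616) (nat_lit 6) (node
  (nat_lit 6) (nat_lit 66381) (nat_lit 7) (node (nat_lit 7) (nat_lit 66412) (nat_lit 8) (node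
  (nat_lit 5) (nat_lit 66412) (nat_lit 9) nil nil) nil) (node (nat_lit 7) (nat_lit 65947) (nat_lit
  7) nil nil)) (node (nat_lit 4) (nat_lit 62234) (nat_lit 6) nil (node (nat_lit 3) (nat_lit 62234)
  (nat_lit 6) nil nil))) (node (nat_lit 4) (nat_lit 56368) (nat_lit 5) (node (nat_lit 6) (nat_lit
  63084) (nat_lit 6) nil (node (nat_lit 7) (nat_lit 63084) (nat_lit 6) nil (node (nat_lit 5)
  (nat_lit 54821) (nat_lit 6) nil nil))) (node (nat_lit 3) (nat_lit 57798) (nat_lit 5) (node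
  (nat_lit 5) (nat_lit 56797) (nat_lit 6) nil nil) (node (nat_lit 0) (nat_lit 60827) (nat_lit 5)
  nil nil))))) nil))))

noncomputable def t315 : Tr :=
  (node (nat_lit 4) (nat_lit 0) (nat_lit 3) (node (nat_lit 0) (nat_lit 0) (nat_lit 4) (node
  (nat_lit 5) (nat_lit 0) (nat_lit 5) (node (nat_lit 4) (nat_lit 32129) (nat_lit 6) (node (nat_lit
  5) (nat_lit 34339) (nat_lit 7) (node (nat_lit 7) (nat_lit 34339) (nat_lit 8) (node (nat_lit 4)
  (nat_lit 34339) (nat_lit 9) (node (nat_lit 7) (nat_lit 34339) (nat_lit 10) (node (nat_lit 5)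
  (nat_lit 34339) (nat_lit 11) (node (nat_lit 4) (nat_lit 34339) (nat_lit 12) (node (nat_lit 7)
  (nat_lit 34339) (nat_lit 13) nil nil) (node (nat_lit 7) (nat_lit 34339) (nat_lit 12) nil nil))
  nil) (node (nat_lit 5) (nat_lit 34339) (nat_lit 10) (node (nat_lit 4) (nat_lit 34339) (nat_lit
  11) (node (nat_lit 7) (nat_lit 34339) (nat_lit 12) nil nil) (node (nat_lit 3) (nat_lit 34339)
  (nat_lit 11) (node (nat_lit 4) (nat_lit 34339) (nat_lit 12) (node (nat_lit 5) (nat_lit 34339)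
  (nat_lit 13) (node (nat_lit 4) (nat_lit 34339) (nat_lit 14) (node (nat_lit 7) (nat_lit 33453)
  (nat_lit 15) nil nil) nil) nil) nil) nil)) (node (nat_lit 3) (nat_lit 34339) (nat_lit 10) nil
  (node (nat_lit 0) (nat_lit 34339) (nat_lit 10) nil nil)))) (node (nat_lit 5) (nat_lit 34339)
  (nat_lit 9) (node (nat_lit 4) (nat_lit 34339) (nat_lit 10) (node (nat_lit 7) (nat_lit 34339)
  (nat_lit 11) (node (nat_lit 4) (nat_lit 34339) (nat_lit 12) (node (nat_lit 5) (nat_lit 34339)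
  (nat_lit 13) (node (nat_lit 4) (nat_lit 34339) (nat_lit 14) nil nil) nil) (node (nat_lit 5)
  (nat_lit 34339) (nat_lit 12) nil nil)) (node (nat_lit 3) (nat_lit 34339) (nat_lit 11) nil nil))
  (node (nat_lit 3) (nat_lit 34339) (nat_lit 10) nil (node (nat_lit 0) (nat_lit 34339) (nat_lit
  10) nil nil))) (node (nat_lit 3) (nat_lit 34339) (nat_lit 9) nil (node (nat_lit 0) (nat_lit
  34339) (nat_lit 9) nil nil)))) (node (nat_lit 3) (nat_lit 34339) (nat_lit 8) (node (nat_lit 4)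
  (nat_lit 34339) (nat_lit 9) (node (nat_lit 5) (nat_lit 30859) (nat_lit 10) (node (nat_lit 4)
  (nat_lit 31203) (nat_lit 11) (node (nat_lit 7) (nat_lit 18435) (nat_lit 12) (node (nat_lit 11)
  (nat_lit 18435) (nat_lit 13) nil (node (nat_lit 4) (nat_lit 18435) (nat_lit 13) nil (node
  (nat_lit 0) (nat_lit 18616) (nat_lit 13) nil nil))) nil) nil) (node (nat_lit 11) (nat_lit 34339)
  (nat_lit 10) nil nil)) (node (nat_lit 5) (nat_lit 34339) (nat_lit 9) (node (nat_lit 4) (nat_lit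
  34339) (nat_lit 10) nil nil) (node (nat_lit 7) (nat_lit 34339) (nat_lit 9) nil (node (nat_lit 0)
  (nat_lit 34339) (nat_lit 9) nil nil)))) (node (nat_lit 0) (nat_lit 34339) (nat_lit 8) (node
  (nat_lit 7) (nat_lit 34339) (nat_lit 9) nil (node (nat_lit 3) (nat_lit 34339) (nat_lit 9) nil
  nil)) nil))) (node (nat_lit 3) (nat_lit 34339) (nat_lit 7) (node (nat_lit 5) (nat_lit 34339)
  (nat_lit 8) (node (nat_lit 10) (nat_lit 33566) (nat_lit 9) nil (node (nat_lit 4) (nat_lit 34339)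
  (nat_lit 9) nil (node (nat_lit 7) (nat_lit 34339) (nat_lit 9) nil nil))) (node (nat_lit 4)
  (nat_lit 27656) (nat_lit 8) (node (nat_lit 5) (nat_lit 28178) (nat_lit 9) (node (nat_lit 4)
  (nat_lit 24337) (nat_lit 10) (node (nat_lit 10) (nat_lit 25093) (nat_lit 11) (node (nat_lit 5)
  (nat_lit 24433) (nat_lit 12) nil nil) nil) (node (nat_lit 7) (nat_lit 28828) (nat_lit 10) nil
  nil)) (node (nat_lit 7) (nat_lit 28547) (nat_lit 9) (node (nat_lit 4) (nat_lit 28547) (nat_lit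
  10) nil (node (nat_lit 10) (nat_lit 28547) (nat_lit 10) nil (node (nat_lit 5) (nat_lit 28547)
  (nat_lit 10) nil (node (nat_lit 0) (nat_lit 28828) (nat_lit 10) nil nil)))) (node (nat_lit 0)
  (nat_lit 28547) (nat_lit 9) (node (nat_lit 10) (nat_lit 28547) (nat_lit 10) nil (node (nat_lit
  4) (nat_lit 28547) (nat_lit 10) nil nil)) nil))) (node (nat_lit 7) (nat_lit 34339) (nat_lit 8)
  nil (node (nat_lit 0) (nat_lit 34339) (nat_lit 8) nil nil)))) (node (nat_lit 0) (nat_lit 34339)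
  (nat_lit 7) (node (nat_lit 4) (nat_lit 34339) (nat_lit 8) nil nil) nil))) (node (nat_lit 7)
  (nat_lit 33507) (nat_lit 6) (node (nat_lit 4) (nat_lit 34339) (nat_lit 7) (node (nat_lit 7)
  (nat_lit 34339) (nat_lit 8) (node (nat_lit 5) (nat_lit 34339) (nat_lit 9) (node (nat_lit 4)
  (nat_lit 34265) (nat_lit 10) (node (nat_lit 5) (nat_lit 33434) (nat_lit 11) nil nil) nil) (node
  (nat_lit 0) (nat_lit 34339) (nat_lit 9) nil (node (nat_lit 3) (nat_lit 34339) (nat_lit 9) nil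
  nil))) (node (nat_lit 5) (nat_lit 34259) (nat_lit 8) (node (nat_lit 7) (nat_lit 34339) (nat_lit
  9) nil nil) (node (nat_lit 3) (nat_lit 34339) (nat_lit 8) nil nil))) (node (nat_lit 3) (nat_lit
  32699) (nat_lit 7) nil (node (nat_lit 0) (nat_lit 34324) (nat_lit 7) nil nil))) (node (nat_lit
  3) (nat_lit 34339) (nat_lit 6) (node (nat_lit 7) (nat_lit 34339) (nat_lit 7) nil (node (nat_lit
  4) (nat_lit 34339) (nat_lit 7) (node (nat_lit 9) (nat_lit 34339) (nat_lit 8) nil nil) (node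
  (nat_lit 5) (nat_lit 34339) (nat_lit 7) nil nil))) (node (nat_lit 0) (nat_lit 34339) (nat_lit 6)
  nil nil)))) (node (nat_lit 4) (nat_lit 0) (nat_lit 5) (node (nat_lit 5) (nat_lit 32129) (nat_lit
  6) (node (nat_lit 7) (nat_lit 34339) (nat_lit 7) (node (nat_lit 5) (nat_lit 34339) (nat_lit 8)
  (node (nat_lit 4) (nat_lit 34339) (nat_lit 9) (node (nat_lit 7) (nat_lit 34339) (nat_lit 10)
  (node (nat_lit 4) (nat_lit 34339) (nat_lit 11) (node (nat_lit 5) (nat_lit 34339) (nat_lit 12)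
  nil nil) nil) nil) nil) (node (nat_lit 4) (nat_lit 34339) (nat_lit 8) (node (nat_lit 7) (nat_lit
  34339) (nat_lit 9) nil nil) (node (nat_lit 0) (nat_lit 34339) (nat_lit 8) nil nil))) (node
  (nat_lit 3) (nat_lit 34339) (nat_lit 7) (node (nat_lit 4) (nat_lit 33178) (nat_lit 8) (node
  (nat_lit 5) (nat_lit 24335) (nat_lit 9) (node (nat_lit 4) (nat_lit 14971) (nat_lit 10) nil nil)
  nil) (node (nat_lit 7) (nat_lit 34339) (nat_lit 8) nil nil)) (node (nat_lit 0) (nat_lit 34339)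
  (nat_lit 7) nil (node (nat_lit 4) (nat_lit 31159) (nat_lit 7) (node (nat_lit 3) (nat_lit 31194)
  (nat_lit 8) nil nil) nil)))) (node (nat_lit 3) (nat_lit 33773) (nat_lit 6) (node (nat_lit 4)
  (nat_lit 34339) (nat_lit 7) nil (node (nat_lit 5) (nat_lit 33978) (nat_lit 7) nil nil)) (node
  (nat_lit 0) (nat_lit 33914) (nat_lit 6) nil nil))) (node (nat_lit 3) (nat_lit 31097) (nat_lit 5)
  (node (nat_lit 4) (nat_lit 34339) (nat_lit 6) (node (nat_lit 5) (nat_lit 34339) (nat_lit 7)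
  (node (nat_lit 8) (nat_lit 34339) (nat_lit 8) nil (node (nat_lit 4) (nat_lit 34339) (nat_lit 8)
  nil nil)) (node (nat_lit 8) (nat_lit 34339) (nat_lit 7) nil nil)) (node (nat_lit 5) (nat_lit
  32600) (nat_lit 6) (node (nat_lit 7) (nat_lit 34339) (nat_lit 7) nil (node (nat_lit 8) (nat_lit
  34339) (nat_lit 7) (node (nat_lit 7) (nat_lit 34339) (nat_lit 8) nil (node (nat_lit 4) (nat_lit
  28879) (nat_lit 8) (node (nat_lit 5) (nat_lit 22976) (nat_lit 9) (node (nat_lit 4) (nat_lit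
  15302) (nat_lit 10) nil nil) nil) nil)) nil)) (node (nat_lit 7) (nat_lit 34339) (nat_lit 6) nil
  (node (nat_lit 0) (nat_lit 34339) (nat_lit 6) nil nil)))) (node (nat_lit 0) (nat_lit 33783)
  (nat_lit 5) (node (nat_lit 4) (nat_lit 34161) (nat_lit 6) (node (nat_lit 5) (nat_lit 32700)
  (nat_lit 7) nil nil) (node (nat_lit 5) (nat_lit 33165) (nat_lit 6) nil (node (nat_lit 7)
  (nat_lit 34339) (nat_lit 6) nil (node (nat_lit 3) (nat_lit 33051) (nat_lit 6) nil (node (nat_lit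
  0) (nat_lit 34339) (nat_lit 6) nil nil))))) nil)))) (node (nat_lit 3) (nat_lit 0) (nat_lit 4)
  (node (nat_lit 0) (nat_lit 25101) (nat_lit 5) (node (nat_lit 5) (nat_lit 25101) (nat_lit 6)
  (node (nat_lit 4) (nat_lit 26839) (nat_lit 7) (node (nat_lit 8) (nat_lit 28178) (nat_lit 8) nil
  nil) (node (nat_lit 7) (nat_lit 26839) (nat_lit 7) nil nil)) (node (nat_lit 7) (nat_lit 25101)
  (nat_lit 6) (node (nat_lit 4) (nat_lit 26839) (nat_lit 7) (node (nat_lit 8) (nat_lit 28178)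
  (nat_lit 8) (node (nat_lit 4) (nat_lit 28178) (nat_lit 9) nil nil) nil) (node (nat_lit 5)
  (nat_lit 23640) (nat_lit 7) nil nil)) (node (nat_lit 4) (nat_lit 25101) (nat_lit 6) (node
  (nat_lit 8) (nat_lit 27656) (nat_lit 7) nil (node (nat_lit 7) (nat_lit 26839) (nat_lit 7) nil
  (node (nat_lit 5) (nat_lit 23640) (nat_lit 7) nil nil))) (node (nat_lit 0) (nat_lit 26839)
  (nat_lit 6) nil nil)))) (node (nat_lit 5) (nat_lit 0) (nat_lit 5) (node (nat_lit 7) (nat_lit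
  21193) (nat_lit 6) (node (nat_lit 4) (nat_lit 23185) (nat_lit 7) (node (nat_lit 5) (nat_lit
  13256) (nat_lit 8) (node (nat_lit 7) (nat_lit 15133) (nat_lit 9) (node (nat_lit 5) (nat_lit
  16597) (nat_lit 10) (node (nat_lit 4) (nat_lit 16026) (nat_lit 11) nil nil) nil) nil) (node
  (nat_lit 7) (nat_lit 24685) (nat_lit 8) nil nil)) (node (nat_lit 0) (nat_lit 26584) (nat_lit 7)
  nil nil)) (node (nat_lit 0) (nat_lit 25018) (nat_lit 6) (node (nat_lit 7) (nat_lit 25018)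
  (nat_lit 7) nil (node (nat_lit 5) (nat_lit 25018) (nat_lit 7) nil nil)) (node (nat_lit 4)
  (nat_lit 21193) (nat_lit 6) (node (nat_lit 5) (nat_lit 23185) (nat_lit 7) (node (nat_lit 7)
  (nat_lit 24685) (nat_lit 8) (node (nat_lit 4) (nat_lit 24642) (nat_lit 9) (node (nat_lit 5)
  (nat_lit 21922) (nat_lit 10) (node (nat_lit 4) (nat_lit 17944) (nat_lit 11) nil nil) nil) nil)
  nil) (node (nat_lit 0) (nat_lit 26584) (nat_lit 7) nil nil)) nil))) (node (nat_lit 4) (nat_lit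
  0) (nat_lit 5) (node (nat_lit 5) (nat_lit 0) (nat_lit 6) (node (nat_lit 7) (nat_lit 14582)
  (nat_lit 7) (node (nat_lit 4) (nat_lit 16082) (nat_lit 8) nil (node (nat_lit 5) (nat_lit 16971)
  (nat_lit 8) nil nil)) (node (nat_lit 0) (nat_lit 19580) (nat_lit 7) (node (nat_lit 7) (nat_lit
  19580) (nat_lit 8) nil nil) nil)) (node (nat_lit 0) (nat_lit 18040) (nat_lit 6) (node (nat_lit
  4) (nat_lit 17516) (nat_lit 7) (node (nat_lit 7) (nat_lit 19082) (nat_lit 8) nil nil) (node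
  (nat_lit 5) (nat_lit 19390) (nat_lit 7) nil (node (nat_lit 7) (nat_lit 18040) (nat_lit 7) nil
  (node (nat_lit 0) (nat_lit 19606) (nat_lit 7) nil nil)))) nil)) nil))) nil)) (node (nat_lit 3)
  (nat_lit 0) (nat_lit 3) (node (nat_lit 4) (nat_lit 0) (nat_lit 4) (node (nat_lit 0) (nat_lit 0)
  (nat_lit 5) (node (nat_lit 5) (nat_lit 32192) (nat_lit 6) (node (nat_lit 6) (nat_lit 37001)
  (nat_lit 7) (node (nat_lit 5) (nat_lit 37522) (nat_lit 8) nil (node (nat_lit 8) (nat_lit 39566)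
  (nat_lit 8) nil (node (nat_lit 0) (nat_lit 39566) (nat_lit 8) nil nil))) (node (nat_lit 4)
  (nat_lit 32961) (nat_lit 7) nil (node (nat_lit 8) (nat_lit 37022) (nat_lit 7) nil (node (nat_lit
  0) (nat_lit 37022) (nat_lit 7) nil nil)))) (node (nat_lit 4) (nat_lit 31994) (nat_lit 6) (node
  (nat_lit 6) (nat_lit 37735) (nat_lit 7) (node (nat_lit 8) (nat_lit 40300) (nat_lit 8) nil (node
  (nat_lit 4) (nat_lit 39301) (nat_lit 8) nil nil)) (node (nat_lit 5) (nat_lit 35259) (nat_lit 7)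
  nil (node (nat_lit 0) (nat_lit 36824) (nat_lit 7) nil nil))) (node (nat_lit 6) (nat_lit 34511)
  (nat_lit 6) (node (nat_lit 8) (nat_lit 39340) (nat_lit 7) nil (node (nat_lit 5) (nat_lit 37775)
  (nat_lit 7) nil (node (nat_lit 4) (nat_lit 38577) (nat_lit 7) (node (nat_lit 6) (nat_lit 37958)
  (nat_lit 8) nil nil) (node (nat_lit 0) (nat_lit 39340) (nat_lit 7) nil nil)))) (node (nat_lit 0)
  (nat_lit 37331) (nat_lit 6) (node (nat_lit 4) (nat_lit 37331) (nat_lit 7) nil (node (nat_lit 8)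
  (nat_lit 38896) (nat_lit 7) nil (node (nat_lit 6) (nat_lit 37331) (nat_lit 7) nil (node (nat_lit
  5) (nat_lit 37331) (nat_lit 7) nil nil)))) nil)))) (node (nat_lit 6) (nat_lit 0) (nat_lit 5)
  (node (nat_lit 5) (nat_lit 24066) (nat_lit 6) (node (nat_lit 4) (nat_lit 21730) (nat_lit 7)
  (node (nat_lit 5) (nat_lit 23300) (nat_lit 8) (node (nat_lit 6) (nat_lit 10628) (nat_lit 9)
  (node (nat_lit 5) (nat_lit 12523) (nat_lit 10) (node (nat_lit 4) (nat_lit 14514) (nat_lit 11)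
  (node (nat_lit 6) (nat_lit 13884) (nat_lit 12) nil nil) (node (nat_lit 0) (nat_lit 14746)
  (nat_lit 11) nil nil)) (node (nat_lit 0) (nat_lit 13528) (nat_lit 10) nil nil)) (node (nat_lit
  0) (nat_lit 27126) (nat_lit 9) nil nil)) (node (nat_lit 6) (nat_lit 27046) (nat_lit 8) (node
  (nat_lit 4) (nat_lit 25564) (nat_lit 9) (node (nat_lit 5) (nat_lit 23355) (nat_lit 10) (node
  (nat_lit 6) (nat_lit 22802) (nat_lit 11) nil nil) nil) nil) (node (nat_lit 0) (nat_lit 31672)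
  (nat_lit 8) nil nil))) (node (nat_lit 6) (nat_lit 30161) (nat_lit 7) (node (nat_lit 4) (nat_lit
  33034) (nat_lit 8) nil (node (nat_lit 0) (nat_lit 38418) (nat_lit 8) nil nil)) (node (nat_lit 0)
  (nat_lit 37759) (nat_lit 7) (node (nat_lit 4) (nat_lit 37759) (nat_lit 8) nil nil) nil))) (node
  (nat_lit 0) (nat_lit 34301) (nat_lit 6) (node (nat_lit 4) (nat_lit 35103) (nat_lit 7) (node
  (nat_lit 9) (nat_lit 40095) (nat_lit 8) nil (node (nat_lit 6) (nat_lit 35760) (nat_lit 8) nil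
  nil)) (node (nat_lit 6) (nat_lit 35103) (nat_lit 7) (node (nat_lit 4) (nat_lit 37944) (nat_lit
  8) (node (nat_lit 9) (nat_lit 41302) (nat_lit 9) nil nil) nil) (node (nat_lit 5) (nat_lit 33472)
  (nat_lit 7) (node (nat_lit 6) (nat_lit 34128) (nat_lit 8) nil (node (nat_lit 9) (nat_lit 38464)
  (nat_lit 8) nil nil)) (node (nat_lit 0) (nat_lit 37944) (nat_lit 7) nil nil)))) nil)) (node
  (nat_lit 5) (nat_lit 0) (nat_lit 5) (node (nat_lit 4) (nat_lit 22953) (nat_lit 6) (node (nat_lit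
  6) (nat_lit 25591) (nat_lit 7) (node (nat_lit 5) (nat_lit 26800) (nat_lit 8) (node (nat_lit 6)
  (nat_lit 27788) (nat_lit 9) nil (node (nat_lit 4) (nat_lit 27788) (nat_lit 9) (node (nat_lit 5)
  (nat_lit 19366) (nat_lit 10) (node (nat_lit 6) (nat_lit 14204) (nat_lit 11) (node (nat_lit 4)
  (nat_lit 6501) (nat_lit 12) nil nil) nil) nil) nil)) nil) (node (nat_lit 0) (nat_lit 28406)
  (nat_lit 7) nil nil)) (node (nat_lit 0) (nat_lit 27116) (nat_lit 6) (node (nat_lit 4) (nat_lit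
  27116) (nat_lit 7) nil (node (nat_lit 5) (nat_lit 27116) (nat_lit 7) nil (node (nat_lit 6)
  (nat_lit 27116) (nat_lit 7) nil (node (nat_lit 0) (nat_lit 28406) (nat_lit 7) nil nil)))) nil))
  nil))) (node (nat_lit 0) (nat_lit 0) (nat_lit 4) (node (nat_lit 5) (nat_lit 0) (nat_lit 5) (node
  (nat_lit 6) (nat_lit 41527) (nat_lit 6) (node (nat_lit 5) (nat_lit 45791) (nat_lit 7) (node
  (nat_lit 7) (nat_lit 49062) (nat_lit 8) (node (nat_lit 5) (nat_lit 50160) (nat_lit 9) (node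
  (nat_lit 6) (nat_lit 51499) (nat_lit 10) (node (nat_lit 7) (nat_lit 52834) (nat_lit 11) (node
  (nat_lit 6) (nat_lit 52834) (nat_lit 12) (node (nat_lit 5) (nat_lit 52360) (nat_lit 13) (node
  (nat_lit 6) (nat_lit 52281) (nat_lit 14) nil nil) nil) (node (nat_lit 5) (nat_lit 52834)
  (nat_lit 12) nil nil)) (node (nat_lit 4) (nat_lit 52035) (nat_lit 11) nil (node (nat_lit 0)
  (nat_lit 52405) (nat_lit 11) nil nil))) (node (nat_lit 4) (nat_lit 51978) (nat_lit 10) (node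
  (nat_lit 7) (nat_lit 52840) (nat_lit 11) nil (node (nat_lit 5) (nat_lit 52514) (nat_lit 11) nil
  (node (nat_lit 6) (nat_lit 51613) (nat_lit 11) (node (nat_lit 4) (nat_lit 51636) (nat_lit 12)
  (node (nat_lit 5) (nat_lit 51716) (nat_lit 13) nil nil) (node (nat_lit 5) (nat_lit 51102)
  (nat_lit 12) nil nil)) (node (nat_lit 0) (nat_lit 52840) (nat_lit 11) nil nil)))) (node (nat_lit
  0) (nat_lit 51875) (nat_lit 10) (node (nat_lit 7) (nat_lit 52246) (nat_lit 11) (node (nat_lit 5)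
  (nat_lit 52246) (nat_lit 12) nil nil) (node (nat_lit 5) (nat_lit 51875) (nat_lit 11) nil (node
  (nat_lit 6) (nat_lit 51875) (nat_lit 11) nil (node (nat_lit 4) (nat_lit 51875) (nat_lit 11) nil
  (node (nat_lit 0) (nat_lit 52246) (nat_lit 11) nil nil))))) nil))) (node (nat_lit 6) (nat_lit
  49999) (nat_lit 9) (node (nat_lit 5) (nat_lit 50233) (nat_lit 10) (node (nat_lit 6) (nat_lit
  50666) (nat_lit 11) (node (nat_lit 7) (nat_lit 51268) (nat_lit 12) nil (node (nat_lit 4)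
  (nat_lit 50839) (nat_lit 12) nil nil)) (node (nat_lit 4) (nat_lit 49691) (nat_lit 11) nil nil))
  (node (nat_lit 7) (nat_lit 51491) (nat_lit 10) (node (nat_lit 5) (nat_lit 51246) (nat_lit 11)
  (node (nat_lit 6) (nat_lit 51616) (nat_lit 12) (node (nat_lit 5) (nat_lit 51848) (nat_lit 13)
  nil nil) nil) nil) (node (nat_lit 4) (nat_lit 51177) (nat_lit 10) nil (node (nat_lit 0) (nat_lit
  51241) (nat_lit 10) nil nil)))) (node (nat_lit 4) (nat_lit 51227) (nat_lit 9) (node (nat_lit 6)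
  (nat_lit 51308) (nat_lit 10) nil (node (nat_lit 5) (nat_lit 51933) (nat_lit 10) nil (node
  (nat_lit 0) (nat_lit 52469) (nat_lit 10) nil (node (nat_lit 7) (nat_lit 52469) (nat_lit 10) nil
  nil)))) (node (nat_lit 0) (nat_lit 51933) (nat_lit 9) (node (nat_lit 7) (nat_lit 52469) (nat_lit
  10) nil (node (nat_lit 5) (nat_lit 51933) (nat_lit 10) nil nil)) nil)))) (node (nat_lit 4)
  (nat_lit 47493) (nat_lit 8) (node (nat_lit 6) (nat_lit 49063) (nat_lit 9) (node (nat_lit 4)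
  (nat_lit 45047) (nat_lit 10) nil (node (nat_lit 5) (nat_lit 48686) (nat_lit 10) (node (nat_lit
  6) (nat_lit 48905) (nat_lit 11) nil nil) nil)) (node (nat_lit 7) (nat_lit 49479) (nat_lit 9) nil
  (node (nat_lit 5) (nat_lit 41183) (nat_lit 9) (node (nat_lit 6) (nat_lit 37336) (nat_lit 10)
  (node (nat_lit 7) (nat_lit 22744) (nat_lit 11) nil nil) (node (nat_lit 7) (nat_lit 42209)
  (nat_lit 10) nil nil)) (node (nat_lit 0) (nat_lit 49199) (nat_lit 9) nil nil)))) (node (nat_lit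
  0) (nat_lit 50632) (nat_lit 8) (node (nat_lit 6) (nat_lit 50090) (nat_lit 9) nil (node (nat_lit
  4) (nat_lit 50632) (nat_lit 9) nil (node (nat_lit 7) (nat_lit 51875) (nat_lit 9) nil (node
  (nat_lit 5) (nat_lit 50632) (nat_lit 9) nil (node (nat_lit 0) (nat_lit 51338) (nat_lit 9) nil
  nil))))) nil))) (node (nat_lit 4) (nat_lit 49148) (nat_lit 7) (node (nat_lit 7) (nat_lit 52095)
  (nat_lit 8) (node (nat_lit 6) (nat_lit 52095) (nat_lit 9) (node (nat_lit 5) (nat_lit 51462)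
  (nat_lit 10) nil nil) (node (nat_lit 5) (nat_lit 52156) (nat_lit 9) (node (nat_lit 7) (nat_lit
  52726) (nat_lit 10) nil (node (nat_lit 4) (nat_lit 51752) (nat_lit 10) (node (nat_lit 6)
  (nat_lit 50708) (nat_lit 11) nil nil) (node (nat_lit 0) (nat_lit 52726) (nat_lit 10) nil nil)))
  (node (nat_lit 4) (nat_lit 52095) (nat_lit 9) nil (node (nat_lit 0) (nat_lit 52480) (nat_lit 9)
  nil nil)))) (node (nat_lit 5) (nat_lit 50938) (nat_lit 8) (node (nat_lit 7) (nat_lit 52480)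
  (nat_lit 9) nil (node (nat_lit 6) (nat_lit 50525) (nat_lit 9) (node (nat_lit 7) (nat_lit 38701)
  (nat_lit 10) nil nil) nil)) (node (nat_lit 6) (nat_lit 51096) (nat_lit 8) (node (nat_lit 5)
  (nat_lit 50677) (nat_lit 9) (node (nat_lit 6) (nat_lit 50820) (nat_lit 10) nil nil) (node
  (nat_lit 7) (nat_lit 52480) (nat_lit 9) nil (node (nat_lit 0) (nat_lit 52480) (nat_lit 9) nil
  nil))) (node (nat_lit 0) (nat_lit 51713) (nat_lit 8) nil nil)))) (node (nat_lit 0) (nat_lit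
  50073) (nat_lit 7) (node (nat_lit 6) (nat_lit 49116) (nat_lit 8) nil (node (nat_lit 5) (nat_lit
  50240) (nat_lit 8) nil (node (nat_lit 4) (nat_lit 50455) (nat_lit 8) nil (node (nat_lit 7)
  (nat_lit 51455) (nat_lit 8) nil (node (nat_lit 0) (nat_lit 51455) (nat_lit 8) nil nil)))))
  nil))) (node (nat_lit 4) (nat_lit 44453) (nat_lit 6) (node (nat_lit 7) (nat_lit 49823) (nat_lit
  7) nil (node (nat_lit 5) (nat_lit 47717) (nat_lit 7) nil (node (nat_lit 6) (nat_lit 45147)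
  (nat_lit 7) (node (nat_lit 4) (nat_lit 38687) (nat_lit 8) (node (nat_lit 5) (nat_lit 33197)
  (nat_lit 9) (node (nat_lit 6) (nat_lit 30259) (nat_lit 10) nil nil) nil) nil) nil))) (node
  (nat_lit 7) (nat_lit 44791) (nat_lit 6) (node (nat_lit 6) (nat_lit 45791) (nat_lit 7) (node
  (nat_lit 5) (nat_lit 45058) (nat_lit 8) nil nil) (node (nat_lit 4) (nat_lit 44791) (nat_lit 7)
  nil (node (nat_lit 0) (nat_lit 46357) (nat_lit 7) nil nil))) (node (nat_lit 0) (nat_lit 47717)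
  (nat_lit 6) nil nil)))) (node (nat_lit 4) (nat_lit 0) (nat_lit 5) (node (nat_lit 6) (nat_lit
  44977) (nat_lit 6) (node (nat_lit 4) (nat_lit 48782) (nat_lit 7) (node (nat_lit 7) (nat_lit
  51347) (nat_lit 8) nil nil) (node (nat_lit 5) (nat_lit 46527) (nat_lit 7) (node (nat_lit 4)
  (nat_lit 44441) (nat_lit 8) (node (nat_lit 5) (nat_lit 36480) (nat_lit 9) (node (nat_lit 6)
  (nat_lit 28437) (nat_lit 10) (node (nat_lit 7) (nat_lit 22295) (nat_lit 11) nil nil) nil) nil)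
  (node (nat_lit 7) (nat_lit 49092) (nat_lit 8) nil (node (nat_lit 6) (nat_lit 43872) (nat_lit 8)
  nil nil))) (node (nat_lit 0) (nat_lit 49806) (nat_lit 7) nil nil))) (node (nat_lit 7) (nat_lit
  48119) (nat_lit 6) nil (node (nat_lit 5) (nat_lit 44646) (nat_lit 6) (node (nat_lit 4) (nat_lit
  48451) (nat_lit 7) nil nil) (node (nat_lit 0) (nat_lit 47119) (nat_lit 6) nil nil)))) (node
  (nat_lit 6) (nat_lit 0) (nat_lit 5) (node (nat_lit 5) (nat_lit 41527) (nat_lit 6) (node (nat_lit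
  7) (nat_lit 47356) (nat_lit 7) (node (nat_lit 5) (nat_lit 48062) (nat_lit 8) (node (nat_lit 6)
  (nat_lit 50271) (nat_lit 9) (node (nat_lit 7) (nat_lit 51241) (nat_lit 10) (node (nat_lit 6)
  (nat_lit 51321) (nat_lit 11) (node (nat_lit 5) (nat_lit 51969) (nat_lit 12) (node (nat_lit 6)
  (nat_lit 52229) (nat_lit 13) (node (nat_lit 7) (nat_lit 52563) (nat_lit 14) nil (node (nat_lit
  4) (nat_lit 50834) (nat_lit 14) nil nil)) (node (nat_lit 4) (nat_lit 51495) (nat_lit 13) nil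
  nil)) nil) nil) nil) nil) nil) (node (nat_lit 6) (nat_lit 42660) (nat_lit 7) (node (nat_lit 4)
  (nat_lit 44549) (nat_lit 8) (node (nat_lit 5) (nat_lit 39014) (nat_lit 9) (node (nat_lit 6)
  (nat_lit 37820) (nat_lit 10) nil nil) nil) nil) (node (nat_lit 4) (nat_lit 41493) (nat_lit 7)
  nil nil))) (node (nat_lit 4) (nat_lit 44367) (nat_lit 6) (node (nat_lit 7) (nat_lit 49197)
  (nat_lit 7) nil (node (nat_lit 6) (nat_lit 44624) (nat_lit 7) nil nil)) (node (nat_lit 0)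
  (nat_lit 46647) (nat_lit 6) nil nil))) (node (nat_lit 0) (nat_lit 42475) (nat_lit 5) (node
  (nat_lit 6) (nat_lit 42162) (nat_lit 6) (node (nat_lit 5) (nat_lit 44126) (nat_lit 7) (node
  (nat_lit 6) (nat_lit 45141) (nat_lit 8) nil nil) nil) (node (nat_lit 5) (nat_lit 41856) (nat_lit
  6) nil (node (nat_lit 7) (nat_lit 45739) (nat_lit 6) nil (node (nat_lit 4) (nat_lit 42171)
  (nat_lit 6) nil (node (nat_lit 0) (nat_lit 45739) (nat_lit 6) nil nil))))) nil)))) (node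
  (nat_lit 5) (nat_lit 0) (nat_lit 4) (node (nat_lit 0) (nat_lit 0) (nat_lit 5) (node (nat_lit 4)
  (nat_lit 27977) (nat_lit 6) (node (nat_lit 6) (nat_lit 34493) (nat_lit 7) (node (nat_lit 8)
  (nat_lit 37058) (nat_lit 8) nil (node (nat_lit 5) (nat_lit 34459) (nat_lit 8) (node (nat_lit 4)
  (nat_lit 31747) (nat_lit 9) (node (nat_lit 5) (nat_lit 25479) (nat_lit 10) (node (nat_lit 6)
  (nat_lit 20405) (nat_lit 11) nil nil) nil) nil) (node (nat_lit 4) (nat_lit 36059) (nat_lit 8)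
  nil (node (nat_lit 0) (nat_lit 37058) (nat_lit 8) nil nil)))) (node (nat_lit 5) (nat_lit 31242)
  (nat_lit 7) nil (node (nat_lit 8) (nat_lit 32807) (nat_lit 7) nil (node (nat_lit 0) (nat_lit
  32807) (nat_lit 7) nil nil)))) (node (nat_lit 6) (nat_lit 23627) (nat_lit 6) (node (nat_lit 5)
  (nat_lit 30571) (nat_lit 7) (node (nat_lit 6) (nat_lit 32969) (nat_lit 8) (node (nat_lit 4)
  (nat_lit 31290) (nat_lit 9) nil nil) nil) (node (nat_lit 8) (nat_lit 31895) (nat_lit 7) (node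
  (nat_lit 5) (nat_lit 31895) (nat_lit 8) nil nil) (node (nat_lit 4) (nat_lit 29044) (nat_lit 7)
  nil (node (nat_lit 0) (nat_lit 28457) (nat_lit 7) nil nil)))) (node (nat_lit 5) (nat_lit 23571)
  (nat_lit 6) (node (nat_lit 6) (nat_lit 30795) (nat_lit 7) (node (nat_lit 8) (nat_lit 34566)
  (nat_lit 8) nil (node (nat_lit 4) (nat_lit 32360) (nat_lit 8) nil (node (nat_lit 5) (nat_lit
  27769) (nat_lit 8) nil nil))) (node (nat_lit 4) (nat_lit 29854) (nat_lit 7) nil (node (nat_lit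
  0) (nat_lit 28401) (nat_lit 7) nil nil))) (node (nat_lit 0) (nat_lit 29993) (nat_lit 6) nil
  nil)))) (node (nat_lit 4) (nat_lit 0) (nat_lit 5) (node (nat_lit 6) (nat_lit 0) (nat_lit 6)
  (node (nat_lit 5) (nat_lit 0) (nat_lit 7) (node (nat_lit 6) (nat_lit 14630) (nat_lit 8) (node
  (nat_lit 4) (nat_lit 13496) (nat_lit 9) (node (nat_lit 6) (nat_lit 14385) (nat_lit 10) nil (node
  (nat_lit 5) (nat_lit 12580) (nat_lit 10) nil nil)) (node (nat_lit 0) (nat_lit 16706) (nat_lit 9)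
  nil nil)) (node (nat_lit 0) (nat_lit 17427) (nat_lit 8) nil nil)) (node (nat_lit 0) (nat_lit
  16802) (nat_lit 7) (node (nat_lit 4) (nat_lit 18009) (nat_lit 8) nil (node (nat_lit 6) (nat_lit
  19218) (nat_lit 8) (node (nat_lit 5) (nat_lit 18694) (nat_lit 9) nil nil) (node (nat_lit 5)
  (nat_lit 16802) (nat_lit 8) nil nil))) nil)) (node (nat_lit 0) (nat_lit 16787) (nat_lit 6) (node
  (nat_lit 6) (nat_lit 18756) (nat_lit 7) (node (nat_lit 4) (nat_lit 20986) (nat_lit 8) nil (node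
  (nat_lit 9) (nat_lit 21656) (nat_lit 8) nil (node (nat_lit 0) (nat_lit 21656) (nat_lit 8) nil
  nil))) (node (nat_lit 4) (nat_lit 19117) (nat_lit 7) (node (nat_lit 5) (nat_lit 20993) (nat_lit
  8) nil (node (nat_lit 6) (nat_lit 21347) (nat_lit 8) (node (nat_lit 5) (nat_lit 21112) (nat_lit
  9) (node (nat_lit 4) (nat_lit 22048) (nat_lit 10) (node (nat_lit 5) (nat_lit 22338) (nat_lit 11)
  (node (nat_lit 6) (nat_lit 22594) (nat_lit 12) nil nil) nil) nil) nil) (node (nat_lit 0)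
  (nat_lit 22017) (nat_lit 8) nil nil))) (node (nat_lit 5) (nat_lit 18756) (nat_lit 7) (node
  (nat_lit 4) (nat_lit 19954) (nat_lit 8) nil (node (nat_lit 9) (nat_lit 21656) (nat_lit 8) nil
  (node (nat_lit 0) (nat_lit 21656) (nat_lit 8) nil nil))) (node (nat_lit 0) (nat_lit 20090)
  (nat_lit 7) nil nil)))) nil)) nil)) nil))) nil))

noncomputable def t316 : Tr :=
  (node (nat_lit 5) (nat_lit 0) (nat_lit 4) (node (nat_lit 4) (nat_lit 60056) (nat_lit 5) (node
  (nat_lit 6) (nat_lit 69756) (nat_lit 6) (node (nat_lit 4) (nat_lit 77882) (nat_lit 7) (node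
  (nat_lit 5) (nat_lit 87183) (nat_lit 8) (node (nat_lit 6) (nat_lit 89492) (nat_lit 9) (node
  (nat_lit 5) (nat_lit 71560) (nat_lit 10) (node (nat_lit 4) (nat_lit 44104) (nat_lit 11) nil
  (node (nat_lit 3) (nat_lit 71805) (nat_lit 11) (node (nat_lit 6) (nat_lit 71643) (nat_lit 12)
  nil (node (nat_lit 5) (nat_lit 72815) (nat_lit 12) nil nil)) (node (nat_lit 0) (nat_lit 72148)
  (nat_lit 11) (node (nat_lit 6) (nat_lit 72148) (nat_lit 12) nil nil) nil))) (node (nat_lit 4)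
  (nat_lit 90526) (nat_lit 10) (node (nat_lit 6) (nat_lit 89654) (nat_lit 11) (node (nat_lit 5)
  (nat_lit 90169) (nat_lit 12) nil nil) (node (nat_lit 3) (nat_lit 90526) (nat_lit 11) nil nil))
  (node (nat_lit 0) (nat_lit 90526) (nat_lit 10) nil (node (nat_lit 3) (nat_lit 89188) (nat_lit
  10) nil nil)))) (node (nat_lit 4) (nat_lit 87610) (nat_lit 9) (node (nat_lit 6) (nat_lit 89025)
  (nat_lit 10) (node (nat_lit 5) (nat_lit 89603) (nat_lit 11) nil (node (nat_lit 3) (nat_lit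
  90322) (nat_lit 11) (node (nat_lit 6) (nat_lit 90526) (nat_lit 12) nil (node (nat_lit 4)
  (nat_lit 88409) (nat_lit 12) nil nil)) (node (nat_lit 0) (nat_lit 89603) (nat_lit 11) nil nil)))
  (node (nat_lit 0) (nat_lit 89445) (nat_lit 10) nil (node (nat_lit 3) (nat_lit 88096) (nat_lit
  10) (node (nat_lit 6) (nat_lit 85987) (nat_lit 11) nil nil) nil))) (node (nat_lit 3) (nat_lit
  88909) (nat_lit 9) (node (nat_lit 4) (nat_lit 89695) (nat_lit 10) nil (node (nat_lit 6) (nat_lit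
  89081) (nat_lit 10) nil (node (nat_lit 5) (nat_lit 90492) (nat_lit 10) nil (node (nat_lit 0)
  (nat_lit 90492) (nat_lit 10) nil nil)))) (node (nat_lit 0) (nat_lit 89891) (nat_lit 9) nil
  nil)))) (node (nat_lit 3) (nat_lit 86893) (nat_lit 8) (node (nat_lit 6) (nat_lit 89830) (nat_lit
  9) (node (nat_lit 4) (nat_lit 89691) (nat_lit 10) (node (nat_lit 6) (nat_lit 89670) (nat_lit 11)
  nil (node (nat_lit 5) (nat_lit 88115) (nat_lit 11) (node (nat_lit 6) (nat_lit 84766) (nat_lit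
  12) (node (nat_lit 5) (nat_lit 79418) (nat_lit 13) (node (nat_lit 4) (nat_lit 71315) (nat_lit
  14) (node (nat_lit 6) (nat_lit 62608) (nat_lit 15) nil nil) nil) nil) nil) nil)) (node (nat_lit
  11) (nat_lit 90175) (nat_lit 10) (node (nat_lit 4) (nat_lit 90012) (nat_lit 11) nil nil) nil))
  (node (nat_lit 4) (nat_lit 87128) (nat_lit 9) (node (nat_lit 6) (nat_lit 85978) (nat_lit 10)
  (node (nat_lit 11) (nat_lit 85500) (nat_lit 11) nil nil) (node (nat_lit 5) (nat_lit 85412)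
  (nat_lit 10) (node (nat_lit 6) (nat_lit 81634) (nat_lit 11) (node (nat_lit 5) (nat_lit 78963)
  (nat_lit 12) (node (nat_lit 4) (nat_lit 77174) (nat_lit 13) nil nil) nil) nil) (node (nat_lit 0)
  (nat_lit 88809) (nat_lit 10) nil nil))) (node (nat_lit 5) (nat_lit 89787) (nat_lit 9) nil (node
  (nat_lit 0) (nat_lit 89787) (nat_lit 9) nil nil)))) (node (nat_lit 0) (nat_lit 89687) (nat_lit
  8) (node (nat_lit 6) (nat_lit 89687) (nat_lit 9) nil (node (nat_lit 4) (nat_lit 89357) (nat_lit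
  9) (node (nat_lit 3) (nat_lit 89101) (nat_lit 10) nil nil) (node (nat_lit 5) (nat_lit 90152)
  (nat_lit 9) nil (node (nat_lit 3) (nat_lit 89687) (nat_lit 9) nil (node (nat_lit 0) (nat_lit
  90152) (nat_lit 9) nil nil))))) nil))) (node (nat_lit 3) (nat_lit 85778) (nat_lit 7) (node
  (nat_lit 4) (nat_lit 87894) (nat_lit 8) (node (nat_lit 10) (nat_lit 89736) (nat_lit 9) (node
  (nat_lit 6) (nat_lit 89806) (nat_lit 10) nil nil) (node (nat_lit 6) (nat_lit 88709) (nat_lit 9)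
  (node (nat_lit 4) (nat_lit 89088) (nat_lit 10) (node (nat_lit 10) (nat_lit 86688) (nat_lit 11)
  nil (node (nat_lit 5) (nat_lit 85999) (nat_lit 11) (node (nat_lit 6) (nat_lit 81972) (nat_lit
  12) (node (nat_lit 5) (nat_lit 78421) (nat_lit 13) (node (nat_lit 4) (nat_lit 73393) (nat_lit
  14) nil nil) nil) nil) nil)) nil) (node (nat_lit 5) (nat_lit 83543) (nat_lit 9) (node (nat_lit
  6) (nat_lit 73853) (nat_lit 10) (node (nat_lit 5) (nat_lit 57047) (nat_lit 11) (node (nat_lit 4)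
  (nat_lit 57206) (nat_lit 12) nil nil) (node (nat_lit 4) (nat_lit 73471) (nat_lit 11) nil nil))
  (node (nat_lit 4) (nat_lit 83057) (nat_lit 10) nil (node (nat_lit 10) (nat_lit 83057) (nat_lit
  10) nil nil))) (node (nat_lit 0) (nat_lit 90526) (nat_lit 9) nil nil)))) (node (nat_lit 6)
  (nat_lit 87269) (nat_lit 8) (node (nat_lit 4) (nat_lit 87844) (nat_lit 9) (node (nat_lit 10)
  (nat_lit 86943) (nat_lit 10) nil (node (nat_lit 6) (nat_lit 87930) (nat_lit 10) nil (node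
  (nat_lit 5) (nat_lit 85578) (nat_lit 10) (node (nat_lit 6) (nat_lit 78509) (nat_lit 11) (node
  (nat_lit 5) (nat_lit 66572) (nat_lit 12) (node (nat_lit 4) (nat_lit 56479) (nat_lit 13) (node
  (nat_lit 6) (nat_lit 56759) (nat_lit 14) nil nil) nil) nil) nil) nil))) (node (nat_lit 5)
  (nat_lit 89299) (nat_lit 9) nil (node (nat_lit 0) (nat_lit 89299) (nat_lit 9) nil nil))) (node
  (nat_lit 5) (nat_lit 90526) (nat_lit 8) nil (node (nat_lit 0) (nat_lit 90526) (nat_lit 8) nil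
  nil)))) (node (nat_lit 0) (nat_lit 89198) (nat_lit 7) (node (nat_lit 5) (nat_lit 90526) (nat_lit
  8) nil (node (nat_lit 6) (nat_lit 90301) (nat_lit 8) (node (nat_lit 4) (nat_lit 89920) (nat_lit
  9) nil (node (nat_lit 3) (nat_lit 89777) (nat_lit 9) nil nil)) (node (nat_lit 4) (nat_lit 88649)
  (nat_lit 8) nil (node (nat_lit 3) (nat_lit 88850) (nat_lit 8) (node (nat_lit 4) (nat_lit 88325)
  (nat_lit 9) nil nil) (node (nat_lit 0) (nat_lit 90526) (nat_lit 8) nil nil))))) (node (nat_lit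
  5) (nat_lit 79842) (nat_lit 7) (node (nat_lit 6) (nat_lit 78975) (nat_lit 8) (node (nat_lit 4)
  (nat_lit 78845) (nat_lit 9) nil nil) nil) nil)))) (node (nat_lit 5) (nat_lit 71637) (nat_lit 6)
  (node (nat_lit 6) (nat_lit 76508) (nat_lit 7) (node (nat_lit 4) (nat_lit 82691) (nat_lit 8)
  (node (nat_lit 5) (nat_lit 87641) (nat_lit 9) (node (nat_lit 4) (nat_lit 87641) (nat_lit 10) nil
  (node (nat_lit 0) (nat_lit 88642) (nat_lit 10) nil nil)) (node (nat_lit 6) (nat_lit 86761)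
  (nat_lit 9) (node (nat_lit 5) (nat_lit 89055) (nat_lit 10) nil (node (nat_lit 3) (nat_lit 84472)
  (nat_lit 10) nil (node (nat_lit 0) (nat_lit 89055) (nat_lit 10) nil nil))) (node (nat_lit 3)
  (nat_lit 86810) (nat_lit 9) (node (nat_lit 4) (nat_lit 86776) (nat_lit 10) (node (nat_lit 5)
  (nat_lit 85515) (nat_lit 11) (node (nat_lit 6) (nat_lit 80524) (nat_lit 12) (node (nat_lit 5)
  (nat_lit 80874) (nat_lit 13) (node (nat_lit 4) (nat_lit 78903) (nat_lit 14) nil nil) nil) nil)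
  nil) (node (nat_lit 6) (nat_lit 84862) (nat_lit 10) nil nil)) (node (nat_lit 0) (nat_lit 85742)
  (nat_lit 9) nil nil)))) (node (nat_lit 3) (nat_lit 87172) (nat_lit 8) (node (nat_lit 4) (nat_lit
  87674) (nat_lit 9) nil (node (nat_lit 6) (nat_lit 87606) (nat_lit 9) nil (node (nat_lit 5)
  (nat_lit 89201) (nat_lit 9) nil (node (nat_lit 0) (nat_lit 89201) (nat_lit 9) nil nil)))) (node
  (nat_lit 0) (nat_lit 88281) (nat_lit 8) (node (nat_lit 4) (nat_lit 88281) (nat_lit 9) nil (node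
  (nat_lit 6) (nat_lit 88281) (nat_lit 9) nil (node (nat_lit 5) (nat_lit 88961) (nat_lit 9) nil
  (node (nat_lit 3) (nat_lit 88281) (nat_lit 9) nil (node (nat_lit 0) (nat_lit 88961) (nat_lit 9)
  nil nil))))) nil))) (node (nat_lit 3) (nat_lit 87326) (nat_lit 7) (node (nat_lit 4) (nat_lit
  88798) (nat_lit 8) (node (nat_lit 10) (nat_lit 89599) (nat_lit 9) nil (node (nat_lit 6) (nat_lit
  85575) (nat_lit 9) nil nil)) (node (nat_lit 6) (nat_lit 89589) (nat_lit 8) (node (nat_lit 4)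
  (nat_lit 90401) (nat_lit 9) nil (node (nat_lit 10) (nat_lit 89496) (nat_lit 9) nil nil)) (node
  (nat_lit 5) (nat_lit 90412) (nat_lit 8) nil (node (nat_lit 0) (nat_lit 90412) (nat_lit 8) nil
  nil)))) (node (nat_lit 0) (nat_lit 88110) (nat_lit 7) (node (nat_lit 4) (nat_lit 88110) (nat_lit
  8) nil (node (nat_lit 6) (nat_lit 87548) (nat_lit 8) nil (node (nat_lit 3) (nat_lit 87719)
  (nat_lit 8) nil (node (nat_lit 5) (nat_lit 89460) (nat_lit 8) nil (node (nat_lit 0) (nat_lit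
  89460) (nat_lit 8) nil nil))))) nil))) (node (nat_lit 3) (nat_lit 82125) (nat_lit 6) (node
  (nat_lit 6) (nat_lit 85103) (nat_lit 7) (node (nat_lit 4) (nat_lit 86242) (nat_lit 8) (node
  (nat_lit 5) (nat_lit 80415) (nat_lit 9) (node (nat_lit 6) (nat_lit 63687) (nat_lit 10) (node
  (nat_lit 5) (nat_lit 56601) (nat_lit 11) (node (nat_lit 4) (nat_lit 55215) (nat_lit 12) nil nil)
  nil) nil) (node (nat_lit 6) (nat_lit 86633) (nat_lit 9) nil (node (nat_lit 9) (nat_lit 87068)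
  (nat_lit 9) nil nil))) (node (nat_lit 9) (nat_lit 85662) (nat_lit 8) (node (nat_lit 4) (nat_lit
  85780) (nat_lit 9) (node (nat_lit 5) (nat_lit 84574) (nat_lit 10) (node (nat_lit 6) (nat_lit
  68354) (nat_lit 11) (node (nat_lit 5) (nat_lit 61549) (nat_lit 12) (node (nat_lit 4) (nat_lit
  54434) (nat_lit 13) nil nil) nil) nil) nil) nil) (node (nat_lit 5) (nat_lit 88003) (nat_lit 8)
  nil nil))) (node (nat_lit 4) (nat_lit 83759) (nat_lit 7) (node (nat_lit 5) (nat_lit 88127)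
  (nat_lit 8) nil (node (nat_lit 6) (nat_lit 84249) (nat_lit 8) (node (nat_lit 4) (nat_lit 84077)
  (nat_lit 9) (node (nat_lit 5) (nat_lit 82061) (nat_lit 10) nil (node (nat_lit 9) (nat_lit 82869)
  (nat_lit 10) nil nil)) nil) (node (nat_lit 0) (nat_lit 88127) (nat_lit 8) nil nil))) (node
  (nat_lit 5) (nat_lit 88021) (nat_lit 7) (node (nat_lit 4) (nat_lit 88021) (nat_lit 8) nil nil)
  (node (nat_lit 0) (nat_lit 88021) (nat_lit 7) nil nil)))) (node (nat_lit 0) (nat_lit 86136)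
  (nat_lit 6) (node (nat_lit 5) (nat_lit 88569) (nat_lit 7) nil (node (nat_lit 6) (nat_lit 87737)
  (nat_lit 7) nil (node (nat_lit 4) (nat_lit 87724) (nat_lit 7) (node (nat_lit 3) (nat_lit 86895)
  (nat_lit 8) nil nil) (node (nat_lit 3) (nat_lit 86761) (nat_lit 7) (node (nat_lit 4) (nat_lit
  85932) (nat_lit 8) nil nil) (node (nat_lit 0) (nat_lit 88569) (nat_lit 7) nil nil))))) nil))))
  (node (nat_lit 3) (nat_lit 78066) (nat_lit 5) (node (nat_lit 6) (nat_lit 86480) (nat_lit 6)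
  (node (nat_lit 8) (nat_lit 89474) (nat_lit 7) (node (nat_lit 5) (nat_lit 90526) (nat_lit 8)
  (node (nat_lit 8) (nat_lit 90526) (nat_lit 9) (node (nat_lit 6) (nat_lit 90526) (nat_lit 10)
  (node (nat_lit 5) (nat_lit 90526) (nat_lit 11) (node (nat_lit 6) (nat_lit 90526) (nat_lit 12)
  (node (nat_lit 8) (nat_lit 90526) (nat_lit 13) (node (nat_lit 6) (nat_lit 90526) (nat_lit 14)
  nil nil) nil) nil) nil) (node (nat_lit 4) (nat_lit 90526) (nat_lit 10) nil (node (nat_lit 0)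
  (nat_lit 90526) (nat_lit 10) nil nil))) (node (nat_lit 6) (nat_lit 90526) (nat_lit 9) nil nil))
  (node (nat_lit 4) (nat_lit 89461) (nat_lit 8) (node (nat_lit 6) (nat_lit 88661) (nat_lit 9)
  (node (nat_lit 4) (nat_lit 88020) (nat_lit 10) (node (nat_lit 5) (nat_lit 85125) (nat_lit 11)
  (node (nat_lit 6) (nat_lit 81672) (nat_lit 12) (node (nat_lit 5) (nat_lit 78050) (nat_lit 13)
  (node (nat_lit 8) (nat_lit 73785) (nat_lit 14) (node (nat_lit 6) (nat_lit 74018) (nat_lit 15)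
  nil nil) nil) nil) nil) (node (nat_lit 8) (nat_lit 85779) (nat_lit 11) nil nil)) (node (nat_lit
  8) (nat_lit 88108) (nat_lit 10) nil nil)) (node (nat_lit 5) (nat_lit 86036) (nat_lit 9) (node
  (nat_lit 6) (nat_lit 69494) (nat_lit 10) (node (nat_lit 5) (nat_lit 58456) (nat_lit 11) (node
  (nat_lit 8) (nat_lit 58133) (nat_lit 12) nil nil) (node (nat_lit 8) (nat_lit 69801) (nat_lit 11)
  nil (node (nat_lit 4) (nat_lit 68608) (nat_lit 11) nil nil))) (node (nat_lit 4) (nat_lit 86036)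
  (nat_lit 10) nil (node (nat_lit 8) (nat_lit 86036) (nat_lit 10) nil nil))) (node (nat_lit 8)
  (nat_lit 88960) (nat_lit 9) nil (node (nat_lit 0) (nat_lit 90437) (nat_lit 9) nil nil)))) (node
  (nat_lit 0) (nat_lit 90526) (nat_lit 8) (node (nat_lit 5) (nat_lit 90526) (nat_lit 9) nil nil)
  nil))) (node (nat_lit 4) (nat_lit 88654) (nat_lit 7) (node (nat_lit 8) (nat_lit 88966) (nat_lit
  8) (node (nat_lit 5) (nat_lit 89942) (nat_lit 9) nil (node (nat_lit 4) (nat_lit 86783) (nat_lit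
  9) (node (nat_lit 6) (nat_lit 85442) (nat_lit 10) nil (node (nat_lit 5) (nat_lit 84109) (nat_lit
  10) (node (nat_lit 6) (nat_lit 78694) (nat_lit 11) nil nil) nil)) nil)) (node (nat_lit 5)
  (nat_lit 90373) (nat_lit 8) (node (nat_lit 6) (nat_lit 90373) (nat_lit 9) (node (nat_lit 5)
  (nat_lit 55655) (nat_lit 10) nil nil) nil) (node (nat_lit 6) (nat_lit 89817) (nat_lit 8) (node
  (nat_lit 8) (nat_lit 89583) (nat_lit 9) (node (nat_lit 4) (nat_lit 88411) (nat_lit 10) nil nil)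
  nil) (node (nat_lit 0) (nat_lit 90373) (nat_lit 8) nil nil)))) (node (nat_lit 5) (nat_lit 90080)
  (nat_lit 7) nil (node (nat_lit 0) (nat_lit 90526) (nat_lit 7) nil nil)))) (node (nat_lit 4)
  (nat_lit 83698) (nat_lit 6) (node (nat_lit 5) (nat_lit 88473) (nat_lit 7) nil (node (nat_lit 6)
  (nat_lit 84943) (nat_lit 7) (node (nat_lit 4) (nat_lit 80404) (nat_lit 8) (node (nat_lit 5)
  (nat_lit 71389) (nat_lit 9) (node (nat_lit 6) (nat_lit 69016) (nat_lit 10) (node (nat_lit 5)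
  (nat_lit 70384) (nat_lit 11) nil nil) nil) nil) (node (nat_lit 8) (nat_lit 83956) (nat_lit 8)
  nil nil)) (node (nat_lit 8) (nat_lit 85737) (nat_lit 7) nil nil))) (node (nat_lit 5) (nat_lit
  88449) (nat_lit 6) (node (nat_lit 4) (nat_lit 88449) (nat_lit 7) nil nil) (node (nat_lit 0)
  (nat_lit 88449) (nat_lit 6) nil nil)))) (node (nat_lit 0) (nat_lit 83124) (nat_lit 5) (node
  (nat_lit 6) (nat_lit 84699) (nat_lit 6) (node (nat_lit 8) (nat_lit 89530) (nat_lit 7) nil (node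
  (nat_lit 4) (nat_lit 85167) (nat_lit 7) nil (node (nat_lit 5) (nat_lit 89530) (nat_lit 7) nil
  (node (nat_lit 3) (nat_lit 84489) (nat_lit 7) nil nil)))) (node (nat_lit 4) (nat_lit 84726)
  (nat_lit 6) (node (nat_lit 5) (nat_lit 89557) (nat_lit 7) nil (node (nat_lit 3) (nat_lit 84516)
  (nat_lit 7) nil (node (nat_lit 6) (nat_lit 85794) (nat_lit 7) nil (node (nat_lit 8) (nat_lit
  89557) (nat_lit 7) nil nil)))) (node (nat_lit 5) (nat_lit 89194) (nat_lit 6) nil (node (nat_lit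
  3) (nat_lit 82214) (nat_lit 6) (node (nat_lit 6) (nat_lit 83796) (nat_lit 7) nil nil) (node
  (nat_lit 0) (nat_lit 89194) (nat_lit 6) nil nil))))) nil))) (node (nat_lit 3) (nat_lit 0)
  (nat_lit 4) (node (nat_lit 4) (nat_lit 76590) (nat_lit 5) (node (nat_lit 5) (nat_lit 50778)
  (nat_lit 6) (node (nat_lit 7) (nat_lit 50636) (nat_lit 7) (node (nat_lit 6) (nat_lit 49852)
  (nat_lit 8) nil (node (nat_lit 4) (nat_lit 50081) (nat_lit 8) nil nil)) (node (nat_lit 4)
  (nat_lit 50097) (nat_lit 7) (node (nat_lit 6) (nat_lit 50131) (nat_lit 8) (node (nat_lit 7)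
  (nat_lit 49782) (nat_lit 9) (node (nat_lit 4) (nat_lit 49446) (nat_lit 10) nil nil) nil) (node
  (nat_lit 7) (nat_lit 49542) (nat_lit 8) nil nil)) (node (nat_lit 6) (nat_lit 41091) (nat_lit 7)
  nil (node (nat_lit 0) (nat_lit 52521) (nat_lit 7) nil nil)))) (node (nat_lit 6) (nat_lit 81599)
  (nat_lit 6) (node (nat_lit 4) (nat_lit 77500) (nat_lit 7) (node (nat_lit 7) (nat_lit 77848)
  (nat_lit 8) (node (nat_lit 6) (nat_lit 77693) (nat_lit 9) nil (node (nat_lit 4) (nat_lit 72919)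
  (nat_lit 9) nil nil)) (node (nat_lit 5) (nat_lit 71737) (nat_lit 8) (node (nat_lit 6) (nat_lit
  70852) (nat_lit 9) nil nil) nil)) (node (nat_lit 7) (nat_lit 83582) (nat_lit 7) (node (nat_lit
  6) (nat_lit 83622) (nat_lit 8) (node (nat_lit 4) (nat_lit 82801) (nat_lit 9) nil nil) nil) (node
  (nat_lit 5) (nat_lit 84264) (nat_lit 7) nil nil))) (node (nat_lit 7) (nat_lit 83857) (nat_lit 6)
  (node (nat_lit 6) (nat_lit 84918) (nat_lit 7) (node (nat_lit 4) (nat_lit 82109) (nat_lit 8)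
  (node (nat_lit 6) (nat_lit 81333) (nat_lit 9) nil (node (nat_lit 7) (nat_lit 79789) (nat_lit 9)
  nil nil)) (node (nat_lit 7) (nat_lit 81734) (nat_lit 8) nil (node (nat_lit 5) (nat_lit 86457)
  (nat_lit 8) nil nil))) (node (nat_lit 5) (nat_lit 86928) (nat_lit 7) nil nil)) (node (nat_lit 0)
  (nat_lit 84578) (nat_lit 6) nil nil)))) (node (nat_lit 5) (nat_lit 81502) (nat_lit 5) (node
  (nat_lit 7) (nat_lit 84039) (nat_lit 6) (node (nat_lit 6) (nat_lit 88213) (nat_lit 7) (node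
  (nat_lit 7) (nat_lit 88152) (nat_lit 8) (node (nat_lit 0) (nat_lit 89075) (nat_lit 9) nil (node
  (nat_lit 4) (nat_lit 87841) (nat_lit 9) (node (nat_lit 6) (nat_lit 87163) (nat_lit 10) nil (node
  (nat_lit 7) (nat_lit 87129) (nat_lit 10) nil (node (nat_lit 5) (nat_lit 85839) (nat_lit 10)
  (node (nat_lit 6) (nat_lit 81894) (nat_lit 11) (node (nat_lit 7) (nat_lit 75222) (nat_lit 12)
  (node (nat_lit 5) (nat_lit 57594) (nat_lit 13) nil nil) nil) nil) nil))) nil)) nil) (node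
  (nat_lit 4) (nat_lit 83484) (nat_lit 7) nil nil)) (node (nat_lit 4) (nat_lit 84877) (nat_lit 6)
  (node (nat_lit 6) (nat_lit 87405) (nat_lit 7) (node (nat_lit 4) (nat_lit 87500) (nat_lit 8)
  (node (nat_lit 7) (nat_lit 86332) (nat_lit 9) nil nil) (node (nat_lit 7) (nat_lit 88437)
  (nat_lit 8) (node (nat_lit 4) (nat_lit 85894) (nat_lit 9) (node (nat_lit 5) (nat_lit 82079)
  (nat_lit 10) (node (nat_lit 6) (nat_lit 74546) (nat_lit 11) nil nil) nil) (node (nat_lit 6)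
  (nat_lit 86100) (nat_lit 9) (node (nat_lit 4) (nat_lit 85680) (nat_lit 10) nil nil) nil)) nil))
  (node (nat_lit 7) (nat_lit 82796) (nat_lit 7) nil nil)) (node (nat_lit 6) (nat_lit 83492)
  (nat_lit 6) (node (nat_lit 5) (nat_lit 88963) (nat_lit 7) (node (nat_lit 7) (nat_lit 88963)
  (nat_lit 8) (node (nat_lit 6) (nat_lit 89504) (nat_lit 9) nil nil) nil) (node (nat_lit 4)
  (nat_lit 83617) (nat_lit 7) (node (nat_lit 7) (nat_lit 82152) (nat_lit 8) (node (nat_lit 4)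
  (nat_lit 78835) (nat_lit 9) nil nil) nil) nil)) (node (nat_lit 0) (nat_lit 84525) (nat_lit 6)
  nil nil)))) (node (nat_lit 6) (nat_lit 0) (nat_lit 5) (node (nat_lit 4) (nat_lit 68188) (nat_lit
  6) (node (nat_lit 7) (nat_lit 72204) (nat_lit 7) (node (nat_lit 4) (nat_lit 71505) (nat_lit 8)
  (node (nat_lit 6) (nat_lit 72616) (nat_lit 9) (node (nat_lit 4) (nat_lit 73342) (nat_lit 10)
  (node (nat_lit 7) (nat_lit 72228) (nat_lit 11) nil nil) (node (nat_lit 7) (nat_lit 72407)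
  (nat_lit 10) nil nil)) (node (nat_lit 5) (nat_lit 62946) (nat_lit 9) (node (nat_lit 6) (nat_lit
  61627) (nat_lit 10) (node (nat_lit 7) (nat_lit 61391) (nat_lit 11) nil nil) nil) nil)) (node
  (nat_lit 5) (nat_lit 76030) (nat_lit 8) (node (nat_lit 6) (nat_lit 76583) (nat_lit 9) (node
  (nat_lit 4) (nat_lit 75892) (nat_lit 10) nil (node (nat_lit 0) (nat_lit 77256) (nat_lit 10) nil
  nil)) nil) (node (nat_lit 6) (nat_lit 71420) (nat_lit 8) nil (node (nat_lit 0) (nat_lit 75060)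
  (nat_lit 8) nil nil)))) (node (nat_lit 5) (nat_lit 61884) (nat_lit 7) (node (nat_lit 6) (nat_lit
  53080) (nat_lit 8) (node (nat_lit 7) (nat_lit 44150) (nat_lit 9) nil nil) (node (nat_lit 4)
  (nat_lit 61884) (nat_lit 8) nil (node (nat_lit 0) (nat_lit 62424) (nat_lit 8) nil nil))) (node
  (nat_lit 6) (nat_lit 72981) (nat_lit 7) (node (nat_lit 7) (nat_lit 74685) (nat_lit 8) (node
  (nat_lit 4) (nat_lit 67736) (nat_lit 9) (node (nat_lit 5) (nat_lit 65973) (nat_lit 10) nil nil)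
  (node (nat_lit 5) (nat_lit 76545) (nat_lit 9) nil nil)) nil) (node (nat_lit 0) (nat_lit 74050)
  (nat_lit 7) nil nil)))) (node (nat_lit 5) (nat_lit 80803) (nat_lit 6) (node (nat_lit 7) (nat_lit
  80202) (nat_lit 7) (node (nat_lit 6) (nat_lit 80621) (nat_lit 8) nil nil) (node (nat_lit 6)
  (nat_lit 80803) (nat_lit 7) nil (node (nat_lit 4) (nat_lit 80803) (nat_lit 7) nil nil))) (node
  (nat_lit 0) (nat_lit 80006) (nat_lit 6) nil nil))) (node (nat_lit 0) (nat_lit 80932) (nat_lit 5)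
  (node (nat_lit 6) (nat_lit 80932) (nat_lit 6) nil (node (nat_lit 7) (nat_lit 80932) (nat_lit 6)
  nil (node (nat_lit 5) (nat_lit 84021) (nat_lit 6) nil nil))) nil)))) (node (nat_lit 0) (nat_lit
  0) (nat_lit 4) (node (nat_lit 5) (nat_lit 82984) (nat_lit 5) (node (nat_lit 7) (nat_lit 86072)
  (nat_lit 6) nil (node (nat_lit 6) (nat_lit 80606) (nat_lit 6) nil nil)) (node (nat_lit 6)
  (nat_lit 76311) (nat_lit 5) (node (nat_lit 5) (nat_lit 87809) (nat_lit 6) nil (node (nat_lit 4)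
  (nat_lit 80469) (nat_lit 6) (node (nat_lit 5) (nat_lit 85300) (nat_lit 7) nil (node (nat_lit 7)
  (nat_lit 85300) (nat_lit 7) nil (node (nat_lit 6) (nat_lit 80124) (nat_lit 7) nil nil))) (node
  (nat_lit 3) (nat_lit 80864) (nat_lit 6) (node (nat_lit 6) (nat_lit 77930) (nat_lit 7) nil nil)
  (node (nat_lit 0) (nat_lit 84581) (nat_lit 6) nil nil)))) (node (nat_lit 4) (nat_lit 77585)
  (nat_lit 5) (node (nat_lit 6) (nat_lit 82330) (nat_lit 6) (node (nat_lit 4) (nat_lit 82932)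
  (nat_lit 7) nil (node (nat_lit 7) (nat_lit 87162) (nat_lit 7) nil nil)) (node (nat_lit 7)
  (nat_lit 88974) (nat_lit 6) nil (node (nat_lit 3) (nat_lit 76563) (nat_lit 6) nil (node (nat_lit
  5) (nat_lit 85856) (nat_lit 6) nil (node (nat_lit 0) (nat_lit 85856) (nat_lit 6) nil nil)))))
  (node (nat_lit 3) (nat_lit 74229) (nat_lit 5) (node (nat_lit 6) (nat_lit 80331) (nat_lit 6)
  (node (nat_lit 8) (nat_lit 77397) (nat_lit 7) nil nil) (node (nat_lit 7) (nat_lit 82499)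
  (nat_lit 6) nil (node (nat_lit 4) (nat_lit 77818) (nat_lit 6) nil (node (nat_lit 5) (nat_lit
  82499) (nat_lit 6) nil (node (nat_lit 0) (nat_lit 82499) (nat_lit 6) nil nil))))) (node (nat_lit
  0) (nat_lit 82347) (nat_lit 5) (node (nat_lit 3) (nat_lit 82347) (nat_lit 6) nil nil) nil)))))
  nil)))

noncomputable def t317 : Tr :=
  (node (nat_lit 4) (nat_lit 0) (nat_lit 3) (node (nat_lit 3) (nat_lit 0) (nat_lit 4) (node
  (nat_lit 4) (nat_lit 58164) (nat_lit 5) (node (nat_lit 5) (nat_lit 54060) (nat_lit 6) (node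
  (nat_lit 4) (nat_lit 38107) (nat_lit 7) (node (nat_lit 0) (nat_lit 41327) (nat_lit 8) (node
  (nat_lit 5) (nat_lit 42249) (nat_lit 9) (node (nat_lit 4) (nat_lit 42249) (nat_lit 10) nil nil)
  (node (nat_lit 4) (nat_lit 41327) (nat_lit 9) nil nil)) (node (nat_lit 3) (nat_lit 41512)
  (nat_lit 8) (node (nat_lit 5) (nat_lit 42610) (nat_lit 9) (node (nat_lit 4) (nat_lit 42610)
  (nat_lit 10) nil nil) (node (nat_lit 4) (nat_lit 42034) (nat_lit 9) nil nil)) nil)) (node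
  (nat_lit 7) (nat_lit 59940) (nat_lit 7) (node (nat_lit 4) (nat_lit 65665) (nat_lit 8) (node
  (nat_lit 7) (nat_lit 68166) (nat_lit 9) (node (nat_lit 5) (nat_lit 69711) (nat_lit 10) (node
  (nat_lit 4) (nat_lit 69711) (nat_lit 11) nil nil) (node (nat_lit 3) (nat_lit 69423) (nat_lit 10)
  (node (nat_lit 4) (nat_lit 68648) (nat_lit 11) nil (node (nat_lit 7) (nat_lit 68512) (nat_lit
  11) nil nil)) (node (nat_lit 0) (nat_lit 70164) (nat_lit 10) nil nil))) (node (nat_lit 3)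
  (nat_lit 66755) (nat_lit 9) (node (nat_lit 7) (nat_lit 67667) (nat_lit 10) (node (nat_lit 5)
  (nat_lit 69476) (nat_lit 11) nil (node (nat_lit 4) (nat_lit 65565) (nat_lit 11) nil nil)) (node
  (nat_lit 4) (nat_lit 64398) (nat_lit 10) (node (nat_lit 5) (nat_lit 63282) (nat_lit 11) (node
  (nat_lit 4) (nat_lit 60301) (nat_lit 12) (node (nat_lit 7) (nat_lit 58117) (nat_lit 13) nil nil)
  nil) nil) nil)) (node (nat_lit 0) (nat_lit 68662) (nat_lit 9) nil nil))) (node (nat_lit 5)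
  (nat_lit 68257) (nat_lit 8) (node (nat_lit 4) (nat_lit 68606) (nat_lit 9) (node (nat_lit 5)
  (nat_lit 70635) (nat_lit 10) (node (nat_lit 7) (nat_lit 70635) (nat_lit 11) nil nil) nil) (node
  (nat_lit 3) (nat_lit 68257) (nat_lit 9) nil (node (nat_lit 0) (nat_lit 69549) (nat_lit 9) nil
  nil))) (node (nat_lit 3) (nat_lit 67122) (nat_lit 8) (node (nat_lit 7) (nat_lit 66230) (nat_lit
  9) nil (node (nat_lit 4) (nat_lit 67011) (nat_lit 9) nil (node (nat_lit 5) (nat_lit 69970)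
  (nat_lit 9) nil nil))) (node (nat_lit 0) (nat_lit 69165) (nat_lit 8) nil nil)))) (node (nat_lit
  3) (nat_lit 67453) (nat_lit 7) (node (nat_lit 4) (nat_lit 68760) (nat_lit 8) nil (node (nat_lit
  7) (nat_lit 67482) (nat_lit 8) nil (node (nat_lit 0) (nat_lit 71644) (nat_lit 8) nil (node
  (nat_lit 5) (nat_lit 71644) (nat_lit 8) nil nil)))) (node (nat_lit 0) (nat_lit 69353) (nat_lit
  7) nil nil)))) (node (nat_lit 3) (nat_lit 74327) (nat_lit 6) (node (nat_lit 7) (nat_lit 79317)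
  (nat_lit 7) (node (nat_lit 9) (nat_lit 78498) (nat_lit 8) nil (node (nat_lit 4) (nat_lit 75549)
  (nat_lit 8) (node (nat_lit 5) (nat_lit 68700) (nat_lit 9) (node (nat_lit 4) (nat_lit 59540)
  (nat_lit 10) (node (nat_lit 7) (nat_lit 51120) (nat_lit 11) nil nil) nil) nil) nil)) (node
  (nat_lit 4) (nat_lit 72230) (nat_lit 7) (node (nat_lit 7) (nat_lit 73042) (nat_lit 8) (node
  (nat_lit 9) (nat_lit 69924) (nat_lit 9) nil (node (nat_lit 5) (nat_lit 75890) (nat_lit 9) nil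
  nil)) (node (nat_lit 5) (nat_lit 68778) (nat_lit 8) (node (nat_lit 4) (nat_lit 67893) (nat_lit
  9) nil nil) nil)) (node (nat_lit 5) (nat_lit 80619) (nat_lit 7) nil nil))) (node (nat_lit 0)
  (nat_lit 74659) (nat_lit 6) nil nil))) (node (nat_lit 5) (nat_lit 63638) (nat_lit 5) (node
  (nat_lit 7) (nat_lit 69421) (nat_lit 6) (node (nat_lit 4) (nat_lit 77987) (nat_lit 7) (node
  (nat_lit 5) (nat_lit 82442) (nat_lit 8) (node (nat_lit 4) (nat_lit 81804) (nat_lit 9) (node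
  (nat_lit 7) (nat_lit 81613) (nat_lit 10) (node (nat_lit 5) (nat_lit 39530) (nat_lit 11) nil nil)
  nil) nil) (node (nat_lit 7) (nat_lit 79935) (nat_lit 8) (node (nat_lit 5) (nat_lit 82932)
  (nat_lit 9) nil (node (nat_lit 3) (nat_lit 81049) (nat_lit 9) (node (nat_lit 4) (nat_lit 76037)
  (nat_lit 10) nil (node (nat_lit 7) (nat_lit 82780) (nat_lit 10) nil nil)) nil)) (node (nat_lit
  3) (nat_lit 81546) (nat_lit 8) (node (nat_lit 7) (nat_lit 81913) (nat_lit 9) nil (node (nat_lit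
  4) (nat_lit 77160) (nat_lit 9) (node (nat_lit 5) (nat_lit 73332) (nat_lit 10) (node (nat_lit 4)
  (nat_lit 71909) (nat_lit 11) (node (nat_lit 7) (nat_lit 67304) (nat_lit 12) (node (nat_lit 5)
  (nat_lit 68272) (nat_lit 13) nil nil) nil) nil) nil) nil)) (node (nat_lit 0) (nat_lit 82829)
  (nat_lit 8) nil nil)))) (node (nat_lit 3) (nat_lit 78903) (nat_lit 7) (node (nat_lit 7) (nat_lit
  76981) (nat_lit 8) nil nil) (node (nat_lit 0) (nat_lit 77367) (nat_lit 7) nil nil))) (node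
  (nat_lit 3) (nat_lit 78090) (nat_lit 6) (node (nat_lit 4) (nat_lit 82567) (nat_lit 7) (node
  (nat_lit 7) (nat_lit 83506) (nat_lit 8) (node (nat_lit 4) (nat_lit 81449) (nat_lit 9) (node
  (nat_lit 5) (nat_lit 79108) (nat_lit 10) (node (nat_lit 4) (nat_lit 75367) (nat_lit 11) (node
  (nat_lit 7) (nat_lit 68508) (nat_lit 12) (node (nat_lit 5) (nat_lit 69069) (nat_lit 13) nil nil)
  nil) nil) nil) (node (nat_lit 9) (nat_lit 80676) (nat_lit 9) nil nil)) nil) (node (nat_lit 7)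
  (nat_lit 78799) (nat_lit 7) nil nil)) (node (nat_lit 4) (nat_lit 68821) (nat_lit 6) (node
  (nat_lit 5) (nat_lit 77459) (nat_lit 7) (node (nat_lit 7) (nat_lit 77459) (nat_lit 8) nil nil)
  (node (nat_lit 3) (nat_lit 81275) (nat_lit 7) (node (nat_lit 7) (nat_lit 77929) (nat_lit 8)
  (node (nat_lit 4) (nat_lit 75826) (nat_lit 9) nil nil) nil) (node (nat_lit 0) (nat_lit 76767)
  (nat_lit 7) nil nil))) (node (nat_lit 0) (nat_lit 75737) (nat_lit 6) nil nil)))) (node (nat_lit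
  3) (nat_lit 65289) (nat_lit 5) (node (nat_lit 4) (nat_lit 66729) (nat_lit 6) (node (nat_lit 8)
  (nat_lit 71377) (nat_lit 7) (node (nat_lit 7) (nat_lit 72168) (nat_lit 8) (node (nat_lit 4)
  (nat_lit 68210) (nat_lit 9) (node (nat_lit 5) (nat_lit 65855) (nat_lit 10) (node (nat_lit 4)
  (nat_lit 60394) (nat_lit 11) (node (nat_lit 7) (nat_lit 52968) (nat_lit 12) (node (nat_lit 8)
  (nat_lit 42263) (nat_lit 13) (node (nat_lit 4) (nat_lit 39307) (nat_lit 14) nil nil) nil) nil)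
  nil) nil) (node (nat_lit 5) (nat_lit 73114) (nat_lit 9) nil nil)) nil) (node (nat_lit 7)
  (nat_lit 68556) (nat_lit 7) (node (nat_lit 4) (nat_lit 65732) (nat_lit 8) (node (nat_lit 8)
  (nat_lit 64729) (nat_lit 9) (node (nat_lit 4) (nat_lit 59161) (nat_lit 10) nil nil) (node
  (nat_lit 5) (nat_lit 60808) (nat_lit 9) (node (nat_lit 4) (nat_lit 55351) (nat_lit 10) nil nil)
  nil)) (node (nat_lit 5) (nat_lit 71235) (nat_lit 8) nil nil)) (node (nat_lit 5) (nat_lit 59731)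
  (nat_lit 7) (node (nat_lit 4) (nat_lit 51153) (nat_lit 8) nil nil) (node (nat_lit 0) (nat_lit
  71512) (nat_lit 7) nil nil)))) (node (nat_lit 7) (nat_lit 73125) (nat_lit 6) (node (nat_lit 4)
  (nat_lit 75170) (nat_lit 7) (node (nat_lit 8) (nat_lit 75720) (nat_lit 8) (node (nat_lit 4)
  (nat_lit 73220) (nat_lit 9) (node (nat_lit 5) (nat_lit 67737) (nat_lit 10) (node (nat_lit 4)
  (nat_lit 63898) (nat_lit 11) nil nil) nil) nil) (node (nat_lit 7) (nat_lit 76229) (nat_lit 8)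
  (node (nat_lit 8) (nat_lit 74395) (nat_lit 9) (node (nat_lit 4) (nat_lit 72149) (nat_lit 10) nil
  nil) nil) (node (nat_lit 5) (nat_lit 70463) (nat_lit 8) (node (nat_lit 4) (nat_lit 52384)
  (nat_lit 9) (node (nat_lit 7) (nat_lit 50492) (nat_lit 10) nil nil) nil) nil))) (node (nat_lit
  5) (nat_lit 78236) (nat_lit 7) nil nil)) (node (nat_lit 5) (nat_lit 79357) (nat_lit 6) (node
  (nat_lit 7) (nat_lit 79357) (nat_lit 7) nil (node (nat_lit 8) (nat_lit 79357) (nat_lit 7) nil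
  nil)) (node (nat_lit 0) (nat_lit 74701) (nat_lit 6) nil nil)))) (node (nat_lit 0) (nat_lit
  76909) (nat_lit 5) (node (nat_lit 4) (nat_lit 75656) (nat_lit 6) nil (node (nat_lit 7) (nat_lit
  78182) (nat_lit 6) nil (node (nat_lit 3) (nat_lit 76909) (nat_lit 6) nil nil))) nil)))) (node
  (nat_lit 0) (nat_lit 0) (nat_lit 4) (node (nat_lit 5) (nat_lit 83893) (nat_lit 5) (node (nat_lit
  7) (nat_lit 85220) (nat_lit 6) (node (nat_lit 4) (nat_lit 85220) (nat_lit 7) (node (nat_lit 7)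
  (nat_lit 85220) (nat_lit 8) nil nil) nil) (node (nat_lit 4) (nat_lit 81501) (nat_lit 6) (node
  (nat_lit 5) (nat_lit 85220) (nat_lit 7) nil (node (nat_lit 3) (nat_lit 81778) (nat_lit 7) nil
  nil)) (node (nat_lit 3) (nat_lit 82411) (nat_lit 6) nil (node (nat_lit 0) (nat_lit 85220)
  (nat_lit 6) nil nil)))) (node (nat_lit 4) (nat_lit 76550) (nat_lit 5) (node (nat_lit 5) (nat_lit
  85220) (nat_lit 6) (node (nat_lit 7) (nat_lit 85220) (nat_lit 7) (node (nat_lit 4) (nat_lit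
  85220) (nat_lit 8) nil (node (nat_lit 5) (nat_lit 85220) (nat_lit 8) nil (node (nat_lit 3)
  (nat_lit 85220) (nat_lit 8) nil (node (nat_lit 0) (nat_lit 85220) (nat_lit 8) nil nil)))) (node
  (nat_lit 3) (nat_lit 85220) (nat_lit 7) nil (node (nat_lit 0) (nat_lit 85220) (nat_lit 7) nil
  nil))) (node (nat_lit 3) (nat_lit 79818) (nat_lit 6) (node (nat_lit 5) (nat_lit 83445) (nat_lit
  7) nil (node (nat_lit 4) (nat_lit 79429) (nat_lit 7) nil nil)) (node (nat_lit 0) (nat_lit 85220)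
  (nat_lit 6) nil nil))) (node (nat_lit 3) (nat_lit 74920) (nat_lit 5) (node (nat_lit 4) (nat_lit
  77680) (nat_lit 6) (node (nat_lit 5) (nat_lit 82642) (nat_lit 7) (node (nat_lit 4) (nat_lit
  82642) (nat_lit 8) (node (nat_lit 7) (nat_lit 40923) (nat_lit 9) nil nil) nil) (node (nat_lit 8)
  (nat_lit 77956) (nat_lit 7) nil (node (nat_lit 7) (nat_lit 82642) (nat_lit 7) nil nil))) (node
  (nat_lit 7) (nat_lit 84089) (nat_lit 6) nil (node (nat_lit 5) (nat_lit 84089) (nat_lit 6) nil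
  (node (nat_lit 3) (nat_lit 77599) (nat_lit 6) nil (node (nat_lit 0) (nat_lit 84089) (nat_lit 6)
  nil nil))))) (node (nat_lit 0) (nat_lit 80842) (nat_lit 5) (node (nat_lit 4) (nat_lit 80842)
  (nat_lit 6) nil (node (nat_lit 5) (nat_lit 84317) (nat_lit 6) (node (nat_lit 7) (nat_lit 85220)
  (nat_lit 7) nil nil) (node (nat_lit 7) (nat_lit 84317) (nat_lit 6) nil (node (nat_lit 3)
  (nat_lit 80842) (nat_lit 6) nil nil)))) nil)))) nil)) (node (nat_lit 0) (nat_lit 0) (nat_lit 3)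
  (node (nat_lit 5) (nat_lit 0) (nat_lit 4) (node (nat_lit 4) (nat_lit 78823) (nat_lit 5) (node
  (nat_lit 6) (nat_lit 89006) (nat_lit 6) (node (nat_lit 5) (nat_lit 89006) (nat_lit 7) (node
  (nat_lit 6) (nat_lit 89006) (nat_lit 8) (node (nat_lit 4) (nat_lit 89006) (nat_lit 9) (node
  (nat_lit 5) (nat_lit 89006) (nat_lit 10) (node (nat_lit 4) (nat_lit 89006) (nat_lit 11) nil nil)
  (node (nat_lit 6) (nat_lit 89006) (nat_lit 10) nil nil)) (node (nat_lit 3) (nat_lit 89006)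
  (nat_lit 9) nil (node (nat_lit 0) (nat_lit 89006) (nat_lit 9) nil nil))) (node (nat_lit 3)
  (nat_lit 89006) (nat_lit 8) (node (nat_lit 6) (nat_lit 89006) (nat_lit 9) nil (node (nat_lit 4)
  (nat_lit 88906) (nat_lit 9) nil (node (nat_lit 5) (nat_lit 89006) (nat_lit 9) nil nil))) (node
  (nat_lit 0) (nat_lit 89006) (nat_lit 8) (node (nat_lit 5) (nat_lit 89006) (nat_lit 9) nil nil)
  nil))) (node (nat_lit 4) (nat_lit 89006) (nat_lit 7) (node (nat_lit 5) (nat_lit 89006) (nat_lit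
  8) (node (nat_lit 6) (nat_lit 89006) (nat_lit 9) nil (node (nat_lit 4) (nat_lit 89006) (nat_lit
  9) nil nil)) (node (nat_lit 3) (nat_lit 89006) (nat_lit 8) nil (node (nat_lit 0) (nat_lit 89006)
  (nat_lit 8) nil nil))) (node (nat_lit 3) (nat_lit 88651) (nat_lit 7) (node (nat_lit 5) (nat_lit
  89006) (nat_lit 8) nil (node (nat_lit 6) (nat_lit 89006) (nat_lit 8) nil (node (nat_lit 3)
  (nat_lit 87654) (nat_lit 8) nil nil))) (node (nat_lit 0) (nat_lit 89006) (nat_lit 7) nil nil))))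
  (node (nat_lit 3) (nat_lit 85224) (nat_lit 6) (node (nat_lit 4) (nat_lit 84207) (nat_lit 7) nil
  (node (nat_lit 3) (nat_lit 79637) (nat_lit 7) nil nil)) (node (nat_lit 5) (nat_lit 88784)
  (nat_lit 6) (node (nat_lit 6) (nat_lit 89006) (nat_lit 7) nil (node (nat_lit 3) (nat_lit 88784)
  (nat_lit 7) nil nil)) (node (nat_lit 0) (nat_lit 88784) (nat_lit 6) nil nil)))) (node (nat_lit
  3) (nat_lit 80536) (nat_lit 5) (node (nat_lit 6) (nat_lit 88783) (nat_lit 6) (node (nat_lit 8)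
  (nat_lit 88026) (nat_lit 7) (node (nat_lit 5) (nat_lit 89006) (nat_lit 8) nil nil) (node
  (nat_lit 4) (nat_lit 88783) (nat_lit 7) nil (node (nat_lit 5) (nat_lit 89006) (nat_lit 7) (node
  (nat_lit 6) (nat_lit 89006) (nat_lit 8) nil nil) nil))) (node (nat_lit 4) (nat_lit 82943)
  (nat_lit 6) (node (nat_lit 8) (nat_lit 82374) (nat_lit 7) nil (node (nat_lit 6) (nat_lit 85563)
  (nat_lit 7) nil (node (nat_lit 3) (nat_lit 77563) (nat_lit 7) nil nil))) (node (nat_lit 3)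
  (nat_lit 84875) (nat_lit 6) (node (nat_lit 4) (nat_lit 83984) (nat_lit 7) nil (node (nat_lit 8)
  (nat_lit 82916) (nat_lit 7) nil nil)) (node (nat_lit 5) (nat_lit 88783) (nat_lit 6) (node
  (nat_lit 6) (nat_lit 89006) (nat_lit 7) nil (node (nat_lit 4) (nat_lit 88783) (nat_lit 7) nil
  nil)) (node (nat_lit 0) (nat_lit 88783) (nat_lit 6) nil nil))))) (node (nat_lit 0) (nat_lit
  84394) (nat_lit 5) (node (nat_lit 6) (nat_lit 89006) (nat_lit 6) (node (nat_lit 8) (nat_lit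
  89006) (nat_lit 7) nil (node (nat_lit 5) (nat_lit 89006) (nat_lit 7) nil nil)) (node (nat_lit 4)
  (nat_lit 82568) (nat_lit 6) nil (node (nat_lit 5) (nat_lit 89006) (nat_lit 6) (node (nat_lit 6)
  (nat_lit 89006) (nat_lit 7) nil nil) (node (nat_lit 3) (nat_lit 84394) (nat_lit 6) nil (node
  (nat_lit 0) (nat_lit 86935) (nat_lit 6) nil nil))))) nil))) (node (nat_lit 3) (nat_lit 0)
  (nat_lit 4) (node (nat_lit 4) (nat_lit 76415) (nat_lit 5) (node (nat_lit 7) (nat_lit 79845)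
  (nat_lit 6) (node (nat_lit 6) (nat_lit 84079) (nat_lit 7) nil (node (nat_lit 5) (nat_lit 84079)
  (nat_lit 7) nil (node (nat_lit 3) (nat_lit 72933) (nat_lit 7) nil nil))) (node (nat_lit 6)
  (nat_lit 84480) (nat_lit 6) nil (node (nat_lit 5) (nat_lit 83147) (nat_lit 6) (node (nat_lit 6)
  (nat_lit 40387) (nat_lit 7) nil nil) (node (nat_lit 3) (nat_lit 71660) (nat_lit 6) (node
  (nat_lit 4) (nat_lit 66544) (nat_lit 7) (node (nat_lit 5) (nat_lit 65357) (nat_lit 8) nil nil)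
  (node (nat_lit 7) (nat_lit 71459) (nat_lit 7) (node (nat_lit 4) (nat_lit 67276) (nat_lit 8) nil
  nil) nil)) (node (nat_lit 0) (nat_lit 83147) (nat_lit 6) nil nil))))) (node (nat_lit 6) (nat_lit
  82414) (nat_lit 5) (node (nat_lit 5) (nat_lit 84955) (nat_lit 6) nil (node (nat_lit 4) (nat_lit
  80589) (nat_lit 6) nil (node (nat_lit 3) (nat_lit 82414) (nat_lit 6) nil nil))) (node (nat_lit
  5) (nat_lit 83466) (nat_lit 5) (node (nat_lit 7) (nat_lit 83466) (nat_lit 6) nil (node (nat_lit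
  4) (nat_lit 83466) (nat_lit 6) nil nil)) (node (nat_lit 3) (nat_lit 75408) (nat_lit 5) (node
  (nat_lit 7) (nat_lit 75219) (nat_lit 6) (node (nat_lit 4) (nat_lit 66364) (nat_lit 7) (node
  (nat_lit 5) (nat_lit 49893) (nat_lit 8) nil nil) nil) (node (nat_lit 4) (nat_lit 77486) (nat_lit
  6) (node (nat_lit 7) (nat_lit 77043) (nat_lit 7) nil (node (nat_lit 8) (nat_lit 76595) (nat_lit
  7) nil nil)) (node (nat_lit 5) (nat_lit 82141) (nat_lit 6) nil (node (nat_lit 6) (nat_lit 82141)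
  (nat_lit 6) nil nil)))) (node (nat_lit 0) (nat_lit 82993) (nat_lit 5) nil nil))))) (node
  (nat_lit 4) (nat_lit 0) (nat_lit 4) (node (nat_lit 6) (nat_lit 82905) (nat_lit 5) (node (nat_lit
  5) (nat_lit 89006) (nat_lit 6) (node (nat_lit 6) (nat_lit 89006) (nat_lit 7) (node (nat_lit 4)
  (nat_lit 89006) (nat_lit 8) (node (nat_lit 5) (nat_lit 89006) (nat_lit 9) (node (nat_lit 4)
  (nat_lit 89006) (nat_lit 10) (node (nat_lit 6) (nat_lit 89006) (nat_lit 11) nil (node (nat_lit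
  3) (nat_lit 89006) (nat_lit 11) nil nil)) (node (nat_lit 6) (nat_lit 89006) (nat_lit 10) (node
  (nat_lit 5) (nat_lit 89006) (nat_lit 11) nil nil) (node (nat_lit 3) (nat_lit 89006) (nat_lit 10)
  nil (node (nat_lit 0) (nat_lit 89006) (nat_lit 10) nil nil)))) (node (nat_lit 3) (nat_lit 89006)
  (nat_lit 9) nil (node (nat_lit 0) (nat_lit 89006) (nat_lit 9) nil nil))) nil) (node (nat_lit 4)
  (nat_lit 89006) (nat_lit 7) (node (nat_lit 5) (nat_lit 89006) (nat_lit 8) nil (node (nat_lit 6)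
  (nat_lit 89006) (nat_lit 8) nil (node (nat_lit 3) (nat_lit 87857) (nat_lit 8) nil (node (nat_lit
  0) (nat_lit 89006) (nat_lit 8) nil nil)))) (node (nat_lit 3) (nat_lit 89006) (nat_lit 7) nil
  (node (nat_lit 0) (nat_lit 89006) (nat_lit 7) nil nil)))) (node (nat_lit 3) (nat_lit 84232)
  (nat_lit 6) (node (nat_lit 4) (nat_lit 83810) (nat_lit 7) nil (node (nat_lit 6) (nat_lit 87552)
  (nat_lit 7) nil nil)) (node (nat_lit 0) (nat_lit 88675) (nat_lit 6) (node (nat_lit 4) (nat_lit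
  88675) (nat_lit 7) nil nil) nil))) (node (nat_lit 3) (nat_lit 77608) (nat_lit 5) (node (nat_lit
  4) (nat_lit 80474) (nat_lit 6) (node (nat_lit 5) (nat_lit 85383) (nat_lit 7) (node (nat_lit 6)
  (nat_lit 65594) (nat_lit 8) (node (nat_lit 4) (nat_lit 41452) (nat_lit 9) nil nil) nil) (node
  (nat_lit 6) (nat_lit 84807) (nat_lit 7) nil (node (nat_lit 3) (nat_lit 72574) (nat_lit 7) nil
  nil))) (node (nat_lit 6) (nat_lit 85059) (nat_lit 6) nil (node (nat_lit 5) (nat_lit 85059)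
  (nat_lit 6) nil (node (nat_lit 3) (nat_lit 77357) (nat_lit 6) (node (nat_lit 4) (nat_lit 67093)
  (nat_lit 7) (node (nat_lit 5) (nat_lit 50839) (nat_lit 8) nil nil) (node (nat_lit 8) (nat_lit
  72889) (nat_lit 7) nil nil)) nil)))) (node (nat_lit 5) (nat_lit 81250) (nat_lit 5) (node
  (nat_lit 4) (nat_lit 82692) (nat_lit 6) (node (nat_lit 6) (nat_lit 89006) (nat_lit 7) nil nil)
  (node (nat_lit 3) (nat_lit 81250) (nat_lit 6) nil nil)) (node (nat_lit 0) (nat_lit 83419)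
  (nat_lit 5) (node (nat_lit 6) (nat_lit 85961) (nat_lit 6) nil (node (nat_lit 4) (nat_lit 81594)
  (nat_lit 6) nil (node (nat_lit 5) (nat_lit 89006) (nat_lit 6) nil nil))) nil)))) (node (nat_lit
  0) (nat_lit 0) (nat_lit 4) (node (nat_lit 6) (nat_lit 85324) (nat_lit 5) (node (nat_lit 5)
  (nat_lit 87865) (nat_lit 6) nil (node (nat_lit 4) (nat_lit 85324) (nat_lit 6) nil (node (nat_lit
  3) (nat_lit 85324) (nat_lit 6) nil nil))) (node (nat_lit 3) (nat_lit 75970) (nat_lit 5) (node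
  (nat_lit 7) (nat_lit 85436) (nat_lit 6) nil (node (nat_lit 6) (nat_lit 82703) (nat_lit 6) nil
  (node (nat_lit 4) (nat_lit 75235) (nat_lit 6) nil (node (nat_lit 5) (nat_lit 82703) (nat_lit 6)
  nil (node (nat_lit 3) (nat_lit 75235) (nat_lit 6) nil nil))))) (node (nat_lit 5) (nat_lit 85324)
  (nat_lit 5) (node (nat_lit 6) (nat_lit 87865) (nat_lit 6) nil (node (nat_lit 7) (nat_lit 87865)
  (nat_lit 6) nil nil)) (node (nat_lit 4) (nat_lit 76822) (nat_lit 5) (node (nat_lit 5) (nat_lit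
  83554) (nat_lit 6) nil (node (nat_lit 6) (nat_lit 83554) (nat_lit 6) nil (node (nat_lit 7)
  (nat_lit 83554) (nat_lit 6) nil (node (nat_lit 3) (nat_lit 76086) (nat_lit 6) nil nil)))) (node
  (nat_lit 0) (nat_lit 84253) (nat_lit 5) nil nil))))) nil)))) nil))

noncomputable def t318 : Tr :=
  (node (nat_lit 3) (nat_lit 0) (nat_lit 3) (node (nat_lit 4) (nat_lit 0) (nat_lit 4) (node
  (nat_lit 5) (nat_lit 0) (nat_lit 5) (node (nat_lit 4) (nat_lit 103770) (nat_lit 6) (node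
  (nat_lit 6) (nat_lit 106522) (nat_lit 7) (node (nat_lit 4) (nat_lit 106522) (nat_lit 8) (node
  (nat_lit 5) (nat_lit 106522) (nat_lit 9) (node (nat_lit 6) (nat_lit 106522) (nat_lit 10) (node
  (nat_lit 5) (nat_lit 106522) (nat_lit 11) (node (nat_lit 4) (nat_lit 106522) (nat_lit 12) (node
  (nat_lit 5) (nat_lit 106522) (nat_lit 13) (node (nat_lit 6) (nat_lit 106522) (nat_lit 14) (node
  (nat_lit 4) (nat_lit 106522) (nat_lit 15) (node (nat_lit 5) (nat_lit 103868) (nat_lit 16) (node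
  (nat_lit 4) (nat_lit 96565) (nat_lit 17) (node (nat_lit 6) (nat_lit 89549) (nat_lit 18) nil nil)
  nil) nil) nil) nil) nil) nil) (node (nat_lit 4) (nat_lit 106522) (nat_lit 11) nil nil)) (node
  (nat_lit 3) (nat_lit 106522) (nat_lit 10) nil (node (nat_lit 0) (nat_lit 106522) (nat_lit 10)
  nil nil))) (node (nat_lit 0) (nat_lit 106522) (nat_lit 9) nil (node (nat_lit 3) (nat_lit 106522)
  (nat_lit 9) nil nil))) (node (nat_lit 5) (nat_lit 106031) (nat_lit 8) (node (nat_lit 4) (nat_lit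
  106522) (nat_lit 9) nil (node (nat_lit 6) (nat_lit 104715) (nat_lit 9) nil nil)) (node (nat_lit
  3) (nat_lit 106522) (nat_lit 8) nil (node (nat_lit 0) (nat_lit 106522) (nat_lit 8) nil nil))))
  (node (nat_lit 3) (nat_lit 104016) (nat_lit 7) (node (nat_lit 5) (nat_lit 102385) (nat_lit 8)
  nil nil) (node (nat_lit 0) (nat_lit 106522) (nat_lit 7) nil nil))) (node (nat_lit 3) (nat_lit
  104461) (nat_lit 6) (node (nat_lit 4) (nat_lit 106522) (nat_lit 7) nil (node (nat_lit 5)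
  (nat_lit 101362) (nat_lit 7) (node (nat_lit 4) (nat_lit 101099) (nat_lit 8) nil nil) (node
  (nat_lit 6) (nat_lit 105583) (nat_lit 7) (node (nat_lit 5) (nat_lit 102776) (nat_lit 8) nil
  (node (nat_lit 9) (nat_lit 104637) (nat_lit 8) (node (nat_lit 5) (nat_lit 103321) (nat_lit 9)
  nil nil) nil)) nil))) (node (nat_lit 0) (nat_lit 105844) (nat_lit 6) nil nil))) (node (nat_lit
  6) (nat_lit 0) (nat_lit 5) (node (nat_lit 5) (nat_lit 116054) (nat_lit 6) (node (nat_lit 4)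
  (nat_lit 128974) (nat_lit 7) (node (nat_lit 5) (nat_lit 127898) (nat_lit 8) (node (nat_lit 6)
  (nat_lit 129084) (nat_lit 9) (node (nat_lit 4) (nat_lit 104825) (nat_lit 10) (node (nat_lit 6)
  (nat_lit 82392) (nat_lit 11) nil nil) nil) nil) (node (nat_lit 6) (nat_lit 128974) (nat_lit 8)
  (node (nat_lit 4) (nat_lit 131050) (nat_lit 9) (node (nat_lit 5) (nat_lit 131050) (nat_lit 10)
  (node (nat_lit 6) (nat_lit 131744) (nat_lit 11) (node (nat_lit 4) (nat_lit 132708) (nat_lit 12)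
  (node (nat_lit 6) (nat_lit 132708) (nat_lit 13) (node (nat_lit 5) (nat_lit 133038) (nat_lit 14)
  (node (nat_lit 4) (nat_lit 106522) (nat_lit 15) nil nil) nil) nil) nil) nil) nil) nil) nil))
  (node (nat_lit 6) (nat_lit 121851) (nat_lit 7) (node (nat_lit 4) (nat_lit 128288) (nat_lit 8)
  nil (node (nat_lit 3) (nat_lit 123916) (nat_lit 8) (node (nat_lit 5) (nat_lit 123346) (nat_lit
  9) nil nil) nil)) (node (nat_lit 3) (nat_lit 126457) (nat_lit 7) (node (nat_lit 4) (nat_lit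
  128404) (nat_lit 8) (node (nat_lit 5) (nat_lit 121725) (nat_lit 9) (node (nat_lit 6) (nat_lit
  107828) (nat_lit 10) (node (nat_lit 4) (nat_lit 101301) (nat_lit 11) nil nil) nil) nil) (node
  (nat_lit 6) (nat_lit 128168) (nat_lit 8) (node (nat_lit 5) (nat_lit 130090) (nat_lit 9) nil nil)
  (node (nat_lit 5) (nat_lit 128149) (nat_lit 8) nil nil))) (node (nat_lit 0) (nat_lit 126503)
  (nat_lit 7) nil nil)))) (node (nat_lit 3) (nat_lit 126484) (nat_lit 6) (node (nat_lit 4)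
  (nat_lit 131571) (nat_lit 7) nil (node (nat_lit 6) (nat_lit 126891) (nat_lit 7) (node (nat_lit
  5) (nat_lit 126386) (nat_lit 8) nil nil) (node (nat_lit 5) (nat_lit 127234) (nat_lit 7) (node
  (nat_lit 9) (nat_lit 123162) (nat_lit 8) (node (nat_lit 4) (nat_lit 124914) (nat_lit 9) (node
  (nat_lit 5) (nat_lit 120834) (nat_lit 10) (node (nat_lit 6) (nat_lit 114468) (nat_lit 11) nil
  nil) nil) nil) nil) nil))) (node (nat_lit 0) (nat_lit 127525) (nat_lit 6) (node (nat_lit 3)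
  (nat_lit 127525) (nat_lit 7) nil nil) nil))) (node (nat_lit 3) (nat_lit 121878) (nat_lit 5)
  (node (nat_lit 6) (nat_lit 129910) (nat_lit 6) (node (nat_lit 5) (nat_lit 127529) (nat_lit 7)
  (node (nat_lit 8) (nat_lit 125817) (nat_lit 8) (node (nat_lit 4) (nat_lit 121445) (nat_lit 9)
  nil (node (nat_lit 5) (nat_lit 126274) (nat_lit 9) nil nil)) (node (nat_lit 4) (nat_lit 128822)
  (nat_lit 8) (node (nat_lit 5) (nat_lit 120074) (nat_lit 9) (node (nat_lit 6) (nat_lit 110295)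
  (nat_lit 10) (node (nat_lit 4) (nat_lit 110573) (nat_lit 11) nil nil) nil) nil) nil)) (node
  (nat_lit 8) (nat_lit 126715) (nat_lit 7) (node (nat_lit 4) (nat_lit 127754) (nat_lit 8) (node
  (nat_lit 5) (nat_lit 120070) (nat_lit 9) (node (nat_lit 6) (nat_lit 109068) (nat_lit 10) (node
  (nat_lit 4) (nat_lit 109543) (nat_lit 11) nil nil) nil) nil) nil) nil)) (node (nat_lit 5)
  (nat_lit 128761) (nat_lit 6) (node (nat_lit 8) (nat_lit 128972) (nat_lit 7) (node (nat_lit 4)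
  (nat_lit 125004) (nat_lit 8) (node (nat_lit 5) (nat_lit 118478) (nat_lit 9) (node (nat_lit 6)
  (nat_lit 103119) (nat_lit 10) (node (nat_lit 4) (nat_lit 104103) (nat_lit 11) nil nil) nil) nil)
  (node (nat_lit 6) (nat_lit 123216) (nat_lit 8) nil nil)) (node (nat_lit 6) (nat_lit 126856)
  (nat_lit 7) nil nil)) (node (nat_lit 4) (nat_lit 132282) (nat_lit 6) (node (nat_lit 5) (nat_lit
  132282) (nat_lit 7) (node (nat_lit 6) (nat_lit 131248) (nat_lit 8) (node (nat_lit 4) (nat_lit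
  78282) (nat_lit 9) nil nil) nil) nil) (node (nat_lit 0) (nat_lit 132282) (nat_lit 6) nil nil))))
  (node (nat_lit 0) (nat_lit 126102) (nat_lit 5) (node (nat_lit 6) (nat_lit 125548) (nat_lit 6)
  nil (node (nat_lit 5) (nat_lit 123688) (nat_lit 6) nil (node (nat_lit 4) (nat_lit 130637)
  (nat_lit 6) nil (node (nat_lit 3) (nat_lit 126102) (nat_lit 6) nil (node (nat_lit 0) (nat_lit
  130637) (nat_lit 6) nil nil))))) nil)))) (node (nat_lit 3) (nat_lit 0) (nat_lit 4) (node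
  (nat_lit 5) (nat_lit 136739) (nat_lit 5) (node (nat_lit 7) (nat_lit 139855) (nat_lit 6) (node
  (nat_lit 6) (nat_lit 139624) (nat_lit 7) (node (nat_lit 5) (nat_lit 139007) (nat_lit 8) (node
  (nat_lit 6) (nat_lit 137691) (nat_lit 9) nil (node (nat_lit 7) (nat_lit 136125) (nat_lit 9) nil
  nil)) nil) (node (nat_lit 4) (nat_lit 138280) (nat_lit 7) (node (nat_lit 5) (nat_lit 127268)
  (nat_lit 8) (node (nat_lit 6) (nat_lit 113583) (nat_lit 9) (node (nat_lit 7) (nat_lit 108136)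
  (nat_lit 10) (node (nat_lit 5) (nat_lit 98542) (nat_lit 11) nil nil) nil) nil) nil) nil)) (node
  (nat_lit 4) (nat_lit 138570) (nat_lit 6) (node (nat_lit 7) (nat_lit 138570) (nat_lit 7) nil
  (node (nat_lit 5) (nat_lit 121767) (nat_lit 7) (node (nat_lit 7) (nat_lit 122370) (nat_lit 8)
  nil (node (nat_lit 6) (nat_lit 114811) (nat_lit 8) (node (nat_lit 7) (nat_lit 93321) (nat_lit 9)
  nil nil) nil)) nil)) (node (nat_lit 6) (nat_lit 141269) (nat_lit 6) (node (nat_lit 5) (nat_lit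
  142019) (nat_lit 7) (node (nat_lit 7) (nat_lit 136522) (nat_lit 8) nil nil) (node (nat_lit 4)
  (nat_lit 133097) (nat_lit 7) (node (nat_lit 5) (nat_lit 126117) (nat_lit 8) (node (nat_lit 6)
  (nat_lit 119107) (nat_lit 9) nil nil) nil) nil)) nil))) (node (nat_lit 4) (nat_lit 128497)
  (nat_lit 5) (node (nat_lit 5) (nat_lit 123706) (nat_lit 6) (node (nat_lit 6) (nat_lit 98542)
  (nat_lit 7) (node (nat_lit 4) (nat_lit 98542) (nat_lit 8) nil (node (nat_lit 5) (nat_lit 98542)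
  (nat_lit 8) nil (node (nat_lit 0) (nat_lit 98542) (nat_lit 8) nil nil))) (node (nat_lit 7)
  (nat_lit 124977) (nat_lit 7) nil (node (nat_lit 4) (nat_lit 125872) (nat_lit 7) nil nil))) (node
  (nat_lit 6) (nat_lit 128497) (nat_lit 6) (node (nat_lit 4) (nat_lit 130663) (nat_lit 7) (node
  (nat_lit 7) (nat_lit 130663) (nat_lit 8) nil nil) (node (nat_lit 5) (nat_lit 128257) (nat_lit 7)
  nil (node (nat_lit 7) (nat_lit 129768) (nat_lit 7) (node (nat_lit 6) (nat_lit 130663) (nat_lit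
  8) (node (nat_lit 4) (nat_lit 131639) (nat_lit 9) nil nil) nil) nil))) (node (nat_lit 7)
  (nat_lit 128456) (nat_lit 6) (node (nat_lit 6) (nat_lit 128583) (nat_lit 7) (node (nat_lit 4)
  (nat_lit 130051) (nat_lit 8) (node (nat_lit 6) (nat_lit 130051) (nat_lit 9) nil nil) (node
  (nat_lit 7) (nat_lit 127761) (nat_lit 8) nil (node (nat_lit 5) (nat_lit 126951) (nat_lit 8) nil
  nil))) (node (nat_lit 5) (nat_lit 128257) (nat_lit 7) nil nil)) (node (nat_lit 0) (nat_lit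
  129768) (nat_lit 6) nil nil)))) (node (nat_lit 6) (nat_lit 134270) (nat_lit 5) (node (nat_lit 5)
  (nat_lit 141134) (nat_lit 6) (node (nat_lit 7) (nat_lit 142122) (nat_lit 7) (node (nat_lit 5)
  (nat_lit 142663) (nat_lit 8) (node (nat_lit 6) (nat_lit 142764) (nat_lit 9) (node (nat_lit 7)
  (nat_lit 142256) (nat_lit 10) (node (nat_lit 5) (nat_lit 141303) (nat_lit 11) nil nil) nil) nil)
  (node (nat_lit 6) (nat_lit 136900) (nat_lit 8) nil nil)) (node (nat_lit 6) (nat_lit 138950)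
  (nat_lit 7) (node (nat_lit 7) (nat_lit 133468) (nat_lit 8) nil (node (nat_lit 4) (nat_lit
  131590) (nat_lit 8) nil nil)) (node (nat_lit 4) (nat_lit 138412) (nat_lit 7) (node (nat_lit 5)
  (nat_lit 124193) (nat_lit 8) (node (nat_lit 6) (nat_lit 119577) (nat_lit 9) nil nil) nil) nil)))
  (node (nat_lit 4) (nat_lit 134757) (nat_lit 6) (node (nat_lit 5) (nat_lit 120622) (nat_lit 7)
  (node (nat_lit 6) (nat_lit 115173) (nat_lit 8) (node (nat_lit 7) (nat_lit 89091) (nat_lit 9) nil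
  nil) nil) nil) (node (nat_lit 0) (nat_lit 141155) (nat_lit 6) nil nil))) (node (nat_lit 0)
  (nat_lit 139153) (nat_lit 5) nil nil)))) (node (nat_lit 5) (nat_lit 0) (nat_lit 4) (node
  (nat_lit 4) (nat_lit 0) (nat_lit 5) (node (nat_lit 5) (nat_lit 113162) (nat_lit 6) (node
  (nat_lit 6) (nat_lit 104886) (nat_lit 7) (node (nat_lit 4) (nat_lit 108514) (nat_lit 8) (node
  (nat_lit 6) (nat_lit 108514) (nat_lit 9) (node (nat_lit 5) (nat_lit 108514) (nat_lit 10) nil
  nil) (node (nat_lit 5) (nat_lit 108514) (nat_lit 9) nil nil)) (node (nat_lit 3) (nat_lit 106093)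
  (nat_lit 8) nil (node (nat_lit 0) (nat_lit 108514) (nat_lit 8) nil nil))) (node (nat_lit 3)
  (nat_lit 129546) (nat_lit 7) (node (nat_lit 6) (nat_lit 125554) (nat_lit 8) nil nil) (node
  (nat_lit 0) (nat_lit 124299) (nat_lit 7) nil nil))) (node (nat_lit 6) (nat_lit 127265) (nat_lit
  6) (node (nat_lit 5) (nat_lit 124850) (nat_lit 7) (node (nat_lit 6) (nat_lit 121501) (nat_lit 8)
  nil nil) (node (nat_lit 4) (nat_lit 135479) (nat_lit 7) (node (nat_lit 5) (nat_lit 135479)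
  (nat_lit 8) (node (nat_lit 6) (nat_lit 134706) (nat_lit 9) (node (nat_lit 5) (nat_lit 134448)
  (nat_lit 10) (node (nat_lit 4) (nat_lit 88555) (nat_lit 11) nil nil) nil) nil) nil) (node
  (nat_lit 3) (nat_lit 128670) (nat_lit 7) nil nil))) (node (nat_lit 3) (nat_lit 138168) (nat_lit
  6) (node (nat_lit 6) (nat_lit 137555) (nat_lit 7) (node (nat_lit 5) (nat_lit 136305) (nat_lit 8)
  (node (nat_lit 9) (nat_lit 134780) (nat_lit 9) nil nil) nil) nil) (node (nat_lit 0) (nat_lit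
  126597) (nat_lit 6) nil nil)))) (node (nat_lit 3) (nat_lit 137881) (nat_lit 5) (node (nat_lit 6)
  (nat_lit 145998) (nat_lit 6) (node (nat_lit 8) (nat_lit 148139) (nat_lit 7) (node (nat_lit 5)
  (nat_lit 142634) (nat_lit 8) nil (node (nat_lit 4) (nat_lit 141363) (nat_lit 8) nil nil)) (node
  (nat_lit 5) (nat_lit 140737) (nat_lit 7) nil (node (nat_lit 4) (nat_lit 140876) (nat_lit 7)
  (node (nat_lit 5) (nat_lit 132616) (nat_lit 8) (node (nat_lit 6) (nat_lit 126867) (nat_lit 9)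
  (node (nat_lit 5) (nat_lit 126029) (nat_lit 10) nil nil) nil) nil) nil))) (node (nat_lit 4)
  (nat_lit 140428) (nat_lit 6) (node (nat_lit 5) (nat_lit 121230) (nat_lit 7) (node (nat_lit 6)
  (nat_lit 118650) (nat_lit 8) (node (nat_lit 5) (nat_lit 94087) (nat_lit 9) nil nil) (node
  (nat_lit 8) (nat_lit 120659) (nat_lit 8) nil (node (nat_lit 0) (nat_lit 123875) (nat_lit 8) nil
  nil))) nil) (node (nat_lit 5) (nat_lit 143928) (nat_lit 6) (node (nat_lit 6) (nat_lit 142867)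
  (nat_lit 7) (node (nat_lit 8) (nat_lit 140506) (nat_lit 8) nil nil) (node (nat_lit 4) (nat_lit
  137588) (nat_lit 7) (node (nat_lit 5) (nat_lit 120730) (nat_lit 8) (node (nat_lit 6) (nat_lit
  119794) (nat_lit 9) (node (nat_lit 5) (nat_lit 112774) (nat_lit 10) (node (nat_lit 8) (nat_lit
  100918) (nat_lit 11) nil nil) nil) nil) nil) nil)) (node (nat_lit 0) (nat_lit 144598) (nat_lit
  6) nil nil)))) (node (nat_lit 0) (nat_lit 135269) (nat_lit 5) (node (nat_lit 6) (nat_lit 135269)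
  (nat_lit 6) nil nil) nil))) (node (nat_lit 0) (nat_lit 0) (nat_lit 4) (node (nat_lit 5) (nat_lit
  146325) (nat_lit 5) nil (node (nat_lit 6) (nat_lit 146670) (nat_lit 5) nil (node (nat_lit 4)
  (nat_lit 149047) (nat_lit 5) nil (node (nat_lit 3) (nat_lit 146670) (nat_lit 5) nil (node
  (nat_lit 0) (nat_lit 149047) (nat_lit 5) nil nil))))) nil)))) (node (nat_lit 4) (nat_lit 0)
  (nat_lit 3) (node (nat_lit 3) (nat_lit 0) (nat_lit 4) (node (nat_lit 5) (nat_lit 86607) (nat_lit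
  5) (node (nat_lit 7) (nat_lit 100379) (nat_lit 6) (node (nat_lit 4) (nat_lit 108584) (nat_lit 7)
  (node (nat_lit 5) (nat_lit 101652) (nat_lit 8) (node (nat_lit 4) (nat_lit 90896) (nat_lit 9)
  (node (nat_lit 7) (nat_lit 85251) (nat_lit 10) (node (nat_lit 5) (nat_lit 59523) (nat_lit 11)
  nil (node (nat_lit 4) (nat_lit 86534) (nat_lit 11) nil (node (nat_lit 3) (nat_lit 85912)
  (nat_lit 11) nil nil))) (node (nat_lit 3) (nat_lit 90896) (nat_lit 10) nil (node (nat_lit 0)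
  (nat_lit 91617) (nat_lit 10) nil nil))) (node (nat_lit 7) (nat_lit 102693) (nat_lit 9) (node
  (nat_lit 5) (nat_lit 103616) (nat_lit 10) (node (nat_lit 4) (nat_lit 104898) (nat_lit 11) nil
  nil) (node (nat_lit 3) (nat_lit 102033) (nat_lit 10) nil nil)) (node (nat_lit 3) (nat_lit
  100916) (nat_lit 9) nil (node (nat_lit 0) (nat_lit 103758) (nat_lit 9) nil nil)))) (node
  (nat_lit 3) (nat_lit 110483) (nat_lit 8) nil (node (nat_lit 0) (nat_lit 111769) (nat_lit 8) nil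
  nil))) (node (nat_lit 3) (nat_lit 108890) (nat_lit 7) (node (nat_lit 5) (nat_lit 110346)
  (nat_lit 8) (node (nat_lit 7) (nat_lit 109147) (nat_lit 9) nil nil) (node (nat_lit 7) (nat_lit
  110015) (nat_lit 8) nil (node (nat_lit 4) (nat_lit 105342) (nat_lit 8) nil nil))) (node (nat_lit
  0) (nat_lit 109538) (nat_lit 7) nil nil))) (node (nat_lit 4) (nat_lit 103453) (nat_lit 6) (node
  (nat_lit 5) (nat_lit 108497) (nat_lit 7) (node (nat_lit 7) (nat_lit 109790) (nat_lit 8) (node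
  (nat_lit 4) (nat_lit 111916) (nat_lit 9) (node (nat_lit 5) (nat_lit 111916) (nat_lit 10) (node
  (nat_lit 4) (nat_lit 113198) (nat_lit 11) (node (nat_lit 7) (nat_lit 113198) (nat_lit 12) (node
  (nat_lit 5) (nat_lit 112833) (nat_lit 13) (node (nat_lit 4) (nat_lit 78041) (nat_lit 14) (node
  (nat_lit 5) (nat_lit 59523) (nat_lit 15) nil nil) nil) nil) nil) nil) nil) nil) nil) (node
  (nat_lit 3) (nat_lit 106960) (nat_lit 7) nil (node (nat_lit 0) (nat_lit 106852) (nat_lit 7) nil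
  nil))) (node (nat_lit 3) (nat_lit 109650) (nat_lit 6) (node (nat_lit 7) (nat_lit 113121)
  (nat_lit 7) (node (nat_lit 4) (nat_lit 114077) (nat_lit 8) (node (nat_lit 5) (nat_lit 101379)
  (nat_lit 9) (node (nat_lit 4) (nat_lit 89533) (nat_lit 10) (node (nat_lit 7) (nat_lit 86844)
  (nat_lit 11) nil nil) nil) nil) (node (nat_lit 9) (nat_lit 114145) (nat_lit 8) nil (node
  (nat_lit 5) (nat_lit 113040) (nat_lit 8) nil nil))) (node (nat_lit 5) (nat_lit 114634) (nat_lit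
  7) (node (nat_lit 7) (nat_lit 110625) (nat_lit 8) nil nil) (node (nat_lit 4) (nat_lit 109810)
  (nat_lit 7) (node (nat_lit 5) (nat_lit 100194) (nat_lit 8) (node (nat_lit 4) (nat_lit 88186)
  (nat_lit 9) nil nil) nil) nil))) (node (nat_lit 0) (nat_lit 112086) (nat_lit 6) (node (nat_lit
  0) (nat_lit 113652) (nat_lit 7) nil nil) nil)))) (node (nat_lit 4) (nat_lit 92167) (nat_lit 5)
  (node (nat_lit 5) (nat_lit 100919) (nat_lit 6) (node (nat_lit 7) (nat_lit 110438) (nat_lit 7)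
  (node (nat_lit 5) (nat_lit 112804) (nat_lit 8) (node (nat_lit 4) (nat_lit 116802) (nat_lit 9)
  (node (nat_lit 7) (nat_lit 116802) (nat_lit 10) nil nil) nil) (node (nat_lit 4) (nat_lit 114490)
  (nat_lit 8) nil (node (nat_lit 3) (nat_lit 113795) (nat_lit 8) (node (nat_lit 5) (nat_lit
  111924) (nat_lit 9) nil nil) (node (nat_lit 0) (nat_lit 115199) (nat_lit 8) nil nil)))) (node
  (nat_lit 4) (nat_lit 59523) (nat_lit 7) nil (node (nat_lit 3) (nat_lit 112946) (nat_lit 7) nil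
  (node (nat_lit 0) (nat_lit 110405) (nat_lit 7) nil nil)))) (node (nat_lit 3) (nat_lit 110722)
  (nat_lit 6) (node (nat_lit 4) (nat_lit 115716) (nat_lit 7) nil (node (nat_lit 5) (nat_lit
  108084) (nat_lit 7) nil nil)) (node (nat_lit 0) (nat_lit 110796) (nat_lit 6) nil nil))) (node
  (nat_lit 3) (nat_lit 107665) (nat_lit 5) (node (nat_lit 5) (nat_lit 114734) (nat_lit 6) (node
  (nat_lit 7) (nat_lit 114690) (nat_lit 7) (node (nat_lit 5) (nat_lit 115905) (nat_lit 8) (node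
  (nat_lit 8) (nat_lit 115103) (nat_lit 9) (node (nat_lit 7) (nat_lit 113683) (nat_lit 10) nil
  nil) nil) (node (nat_lit 8) (nat_lit 116622) (nat_lit 8) (node (nat_lit 7) (nat_lit 116050)
  (nat_lit 9) (node (nat_lit 5) (nat_lit 114029) (nat_lit 10) nil nil) nil) (node (nat_lit 4)
  (nat_lit 112651) (nat_lit 8) (node (nat_lit 5) (nat_lit 106125) (nat_lit 9) (node (nat_lit 4)
  (nat_lit 99858) (nat_lit 10) (node (nat_lit 7) (nat_lit 86376) (nat_lit 11) (node (nat_lit 8)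
  (nat_lit 85510) (nat_lit 12) nil nil) nil) nil) nil) nil))) (node (nat_lit 8) (nat_lit 116278)
  (nat_lit 7) (node (nat_lit 7) (nat_lit 115652) (nat_lit 8) (node (nat_lit 5) (nat_lit 113176)
  (nat_lit 9) nil nil) (node (nat_lit 4) (nat_lit 107010) (nat_lit 8) nil nil)) (node (nat_lit 4)
  (nat_lit 118554) (nat_lit 7) nil (node (nat_lit 0) (nat_lit 118554) (nat_lit 7) nil nil))))
  (node (nat_lit 4) (nat_lit 119047) (nat_lit 6) (node (nat_lit 5) (nat_lit 119047) (nat_lit 7)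
  (node (nat_lit 4) (nat_lit 87426) (nat_lit 8) (node (nat_lit 7) (nat_lit 59523) (nat_lit 9) nil
  nil) nil) nil) (node (nat_lit 7) (nat_lit 109581) (nat_lit 6) (node (nat_lit 4) (nat_lit 111907)
  (nat_lit 7) (node (nat_lit 8) (nat_lit 111907) (nat_lit 8) nil (node (nat_lit 5) (nat_lit
  101799) (nat_lit 8) (node (nat_lit 4) (nat_lit 88496) (nat_lit 9) (node (nat_lit 7) (nat_lit
  86445) (nat_lit 10) nil nil) nil) nil)) (node (nat_lit 5) (nat_lit 110594) (nat_lit 7) (node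
  (nat_lit 8) (nat_lit 105569) (nat_lit 8) nil (node (nat_lit 7) (nat_lit 105569) (nat_lit 8) nil
  nil)) (node (nat_lit 0) (nat_lit 114001) (nat_lit 7) nil nil))) (node (nat_lit 0) (nat_lit
  119047) (nat_lit 6) nil nil)))) (node (nat_lit 0) (nat_lit 113578) (nat_lit 5) (node (nat_lit 4)
  (nat_lit 116866) (nat_lit 6) nil (node (nat_lit 5) (nat_lit 113578) (nat_lit 6) nil (node
  (nat_lit 7) (nat_lit 111118) (nat_lit 6) nil (node (nat_lit 3) (nat_lit 113578) (nat_lit 6) nil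
  (node (nat_lit 0) (nat_lit 116866) (nat_lit 6) nil nil))))) nil)))) (node (nat_lit 0) (nat_lit
  0) (nat_lit 4) (node (nat_lit 5) (nat_lit 108654) (nat_lit 5) (node (nat_lit 4) (nat_lit 119047)
  (nat_lit 6) (node (nat_lit 5) (nat_lit 119047) (nat_lit 7) nil (node (nat_lit 3) (nat_lit
  119047) (nat_lit 7) nil nil)) (node (nat_lit 7) (nat_lit 118066) (nat_lit 6) nil (node (nat_lit
  3) (nat_lit 113921) (nat_lit 6) (node (nat_lit 3) (nat_lit 107321) (nat_lit 7) nil nil) nil)))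
  (node (nat_lit 3) (nat_lit 105073) (nat_lit 5) (node (nat_lit 4) (nat_lit 114485) (nat_lit 6)
  nil (node (nat_lit 5) (nat_lit 106715) (nat_lit 6) (node (nat_lit 8) (nat_lit 103220) (nat_lit
  7) (node (nat_lit 4) (nat_lit 96085) (nat_lit 8) (node (nat_lit 5) (nat_lit 89559) (nat_lit 9)
  (node (nat_lit 4) (nat_lit 83218) (nat_lit 10) (node (nat_lit 7) (nat_lit 82776) (nat_lit 11)
  (node (nat_lit 8) (nat_lit 79549) (nat_lit 12) nil nil) nil) nil) nil) nil) nil) (node (nat_lit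
  7) (nat_lit 114485) (nat_lit 6) nil (node (nat_lit 3) (nat_lit 106352) (nat_lit 6) nil (node
  (nat_lit 0) (nat_lit 114485) (nat_lit 6) nil nil))))) (node (nat_lit 4) (nat_lit 114591)
  (nat_lit 5) (node (nat_lit 3) (nat_lit 114591) (nat_lit 6) nil nil) (node (nat_lit 0) (nat_lit
  114591) (nat_lit 5) nil nil)))) nil)) (node (nat_lit 0) (nat_lit 0) (nat_lit 3) (node (nat_lit
  3) (nat_lit 136185) (nat_lit 4) (node (nat_lit 5) (nat_lit 138781) (nat_lit 5) (node (nat_lit 7)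
  (nat_lit 137094) (nat_lit 6) (node (nat_lit 4) (nat_lit 134868) (nat_lit 7) nil nil) (node
  (nat_lit 3) (nat_lit 134914) (nat_lit 6) nil (node (nat_lit 4) (nat_lit 144468) (nat_lit 6)
  (node (nat_lit 5) (nat_lit 144468) (nat_lit 7) (node (nat_lit 6) (nat_lit 117187) (nat_lit 8)
  (node (nat_lit 7) (nat_lit 99838) (nat_lit 9) nil nil) nil) nil) nil))) (node (nat_lit 3)
  (nat_lit 140345) (nat_lit 5) (node (nat_lit 7) (nat_lit 135748) (nat_lit 6) nil (node (nat_lit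
  5) (nat_lit 132097) (nat_lit 6) nil nil)) nil)) (node (nat_lit 5) (nat_lit 0) (nat_lit 4) (node
  (nat_lit 3) (nat_lit 142587) (nat_lit 5) (node (nat_lit 5) (nat_lit 137793) (nat_lit 6) nil
  (node (nat_lit 3) (nat_lit 139010) (nat_lit 6) (node (nat_lit 8) (nat_lit 137750) (nat_lit 7)
  nil nil) nil)) (node (nat_lit 4) (nat_lit 147921) (nat_lit 5) (node (nat_lit 5) (nat_lit 147921)
  (nat_lit 6) (node (nat_lit 6) (nat_lit 101871) (nat_lit 7) nil nil) nil) (node (nat_lit 0)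
  (nat_lit 147969) (nat_lit 5) nil nil))) (node (nat_lit 4) (nat_lit 144302) (nat_lit 4) (node
  (nat_lit 3) (nat_lit 146970) (nat_lit 5) (node (nat_lit 4) (nat_lit 147969) (nat_lit 6) (node
  (nat_lit 5) (nat_lit 147969) (nat_lit 7) (node (nat_lit 6) (nat_lit 147969) (nat_lit 8) (node
  (nat_lit 4) (nat_lit 97034) (nat_lit 9) nil nil) nil) nil) nil) (node (nat_lit 6) (nat_lit
  146765) (nat_lit 5) (node (nat_lit 5) (nat_lit 146765) (nat_lit 6) (node (nat_lit 4) (nat_lit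
  147969) (nat_lit 7) (node (nat_lit 5) (nat_lit 147969) (nat_lit 8) (node (nat_lit 6) (nat_lit
  147969) (nat_lit 9) (node (nat_lit 4) (nat_lit 147969) (nat_lit 10) (node (nat_lit 6) (nat_lit
  101871) (nat_lit 11) nil nil) nil) nil) nil) nil) nil) (node (nat_lit 5) (nat_lit 144302)
  (nat_lit 5) nil nil))) (node (nat_lit 0) (nat_lit 146970) (nat_lit 4) nil nil)))) nil)))

noncomputable def c4 : Tr :=
  (node (nat_lit 3) (nat_lit 0) (nat_lit 1) (node (nat_lit 3) (nat_lit 0) (nat_lit 2) (node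
  (nat_lit 0) (nat_lit 0) (nat_lit 3) t314 t315) (node (nat_lit 0) (nat_lit 0) (nat_lit 2) (node
  (nat_lit 3) (nat_lit 0) (nat_lit 3) (node (nat_lit 4) (nat_lit 0) (nat_lit 4) (node (nat_lit 6)
  (nat_lit 60733) (nat_lit 5) (node (nat_lit 5) (nat_lit 72442) (nat_lit 6) (node (nat_lit 6)
  (nat_lit 77089) (nat_lit 7) (node (nat_lit 0) (nat_lit 83198) (nat_lit 8) nil (node (nat_lit 3)
  (nat_lit 85142) (nat_lit 8) (node (nat_lit 6) (nat_lit 85013) (nat_lit 9) nil nil) (node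
  (nat_lit 4) (nat_lit 82405) (nat_lit 8) (node (nat_lit 5) (nat_lit 85456) (nat_lit 9) nil (node
  (nat_lit 3) (nat_lit 78991) (nat_lit 9) nil nil)) nil))) (node (nat_lit 4) (nat_lit 77167)
  (nat_lit 7) (node (nat_lit 6) (nat_lit 83829) (nat_lit 8) (node (nat_lit 4) (nat_lit 86565)
  (nat_lit 9) (node (nat_lit 5) (nat_lit 88860) (nat_lit 10) (node (nat_lit 6) (nat_lit 88860)
  (nat_lit 11) (node (nat_lit 4) (nat_lit 88698) (nat_lit 12) (node (nat_lit 6) (nat_lit 88586)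
  (nat_lit 13) (node (nat_lit 5) (nat_lit 66281) (nat_lit 14) (node (nat_lit 4) (nat_lit 42603)
  (nat_lit 15) nil nil) nil) nil) nil) nil) (node (nat_lit 3) (nat_lit 84876) (nat_lit 10) (node
  (nat_lit 6) (nat_lit 82811) (nat_lit 11) nil (node (nat_lit 4) (nat_lit 83980) (nat_lit 11) nil
  nil)) nil)) (node (nat_lit 3) (nat_lit 85131) (nat_lit 9) (node (nat_lit 4) (nat_lit 84197)
  (nat_lit 10) (node (nat_lit 5) (nat_lit 83678) (nat_lit 11) (node (nat_lit 6) (nat_lit 80353)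
  (nat_lit 12) (node (nat_lit 4) (nat_lit 74184) (nat_lit 13) (node (nat_lit 6) (nat_lit 54393)
  (nat_lit 14) (node (nat_lit 5) (nat_lit 55189) (nat_lit 15) nil nil) nil) nil) nil) (node
  (nat_lit 6) (nat_lit 85510) (nat_lit 11) nil nil)) (node (nat_lit 6) (nat_lit 84748) (nat_lit
  10) nil nil)) nil)) (node (nat_lit 5) (nat_lit 84178) (nat_lit 8) (node (nat_lit 6) (nat_lit
  84178) (nat_lit 9) nil nil) (node (nat_lit 3) (nat_lit 84788) (nat_lit 8) (node (nat_lit 6)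
  (nat_lit 84350) (nat_lit 9) nil (node (nat_lit 4) (nat_lit 84835) (nat_lit 9) nil nil)) (node
  (nat_lit 0) (nat_lit 83276) (nat_lit 8) nil nil)))) (node (nat_lit 3) (nat_lit 84072) (nat_lit
  7) (node (nat_lit 6) (nat_lit 84809) (nat_lit 8) nil (node (nat_lit 4) (nat_lit 84139) (nat_lit
  8) nil nil)) (node (nat_lit 0) (nat_lit 84677) (nat_lit 7) nil nil)))) (node (nat_lit 3)
  (nat_lit 78180) (nat_lit 6) (node (nat_lit 4) (nat_lit 74786) (nat_lit 7) (node (nat_lit 9)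
  (nat_lit 79008) (nat_lit 8) (node (nat_lit 6) (nat_lit 80088) (nat_lit 9) (node (nat_lit 9)
  (nat_lit 81692) (nat_lit 10) (node (nat_lit 4) (nat_lit 78453) (nat_lit 11) nil nil) (node
  (nat_lit 4) (nat_lit 79430) (nat_lit 10) nil nil)) (node (nat_lit 5) (nat_lit 82013) (nat_lit 9)
  nil nil)) (node (nat_lit 6) (nat_lit 76187) (nat_lit 8) (node (nat_lit 4) (nat_lit 69648)
  (nat_lit 9) nil (node (nat_lit 5) (nat_lit 79192) (nat_lit 9) nil nil)) (node (nat_lit 5)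
  (nat_lit 73947) (nat_lit 8) (node (nat_lit 6) (nat_lit 54244) (nat_lit 9) (node (nat_lit 4)
  (nat_lit 51646) (nat_lit 10) nil nil) nil) (node (nat_lit 0) (nat_lit 79154) (nat_lit 8) nil
  nil)))) (node (nat_lit 6) (nat_lit 80091) (nat_lit 7) (node (nat_lit 4) (nat_lit 75888) (nat_lit
  8) (node (nat_lit 9) (nat_lit 75481) (nat_lit 9) nil (node (nat_lit 5) (nat_lit 67619) (nat_lit
  9) (node (nat_lit 6) (nat_lit 51822) (nat_lit 10) (node (nat_lit 4) (nat_lit 51423) (nat_lit 11)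
  (node (nat_lit 6) (nat_lit 51136) (nat_lit 12) nil nil) nil) nil) nil)) nil) (node (nat_lit 5)
  (nat_lit 85643) (nat_lit 7) (node (nat_lit 9) (nat_lit 85643) (nat_lit 8) nil nil) (node
  (nat_lit 0) (nat_lit 85643) (nat_lit 7) nil nil)))) (node (nat_lit 0) (nat_lit 81022) (nat_lit
  6) (node (nat_lit 4) (nat_lit 81022) (nat_lit 7) nil (node (nat_lit 5) (nat_lit 83468) (nat_lit
  7) nil (node (nat_lit 6) (nat_lit 81022) (nat_lit 7) nil (node (nat_lit 0) (nat_lit 83468)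
  (nat_lit 7) nil nil)))) nil))) (node (nat_lit 5) (nat_lit 0) (nat_lit 5) (node (nat_lit 4)
  (nat_lit 36282) (nat_lit 6) (node (nat_lit 6) (nat_lit 38353) (nat_lit 7) (node (nat_lit 4)
  (nat_lit 41633) (nat_lit 8) (node (nat_lit 5) (nat_lit 43621) (nat_lit 9) (node (nat_lit 6)
  (nat_lit 44150) (nat_lit 10) (node (nat_lit 5) (nat_lit 44150) (nat_lit 11) (node (nat_lit 4)
  (nat_lit 44150) (nat_lit 12) (node (nat_lit 5) (nat_lit 44150) (nat_lit 13) nil nil) nil) (node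
  (nat_lit 4) (nat_lit 43384) (nat_lit 11) nil nil)) nil) (node (nat_lit 0) (nat_lit 44150)
  (nat_lit 9) (node (nat_lit 6) (nat_lit 44150) (nat_lit 10) (node (nat_lit 4) (nat_lit 44150)
  (nat_lit 11) (node (nat_lit 6) (nat_lit 44150) (nat_lit 12) nil nil) (node (nat_lit 12) (nat_lit
  44150) (nat_lit 11) nil nil)) (node (nat_lit 4) (nat_lit 44150) (nat_lit 10) nil (node (nat_lit
  5) (nat_lit 44150) (nat_lit 10) nil (node (nat_lit 3) (nat_lit 44150) (nat_lit 10) nil (node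
  (nat_lit 0) (nat_lit 44150) (nat_lit 10) nil nil))))) (node (nat_lit 3) (nat_lit 43464) (nat_lit
  9) (node (nat_lit 6) (nat_lit 44067) (nat_lit 10) (node (nat_lit 4) (nat_lit 44035) (nat_lit 11)
  (node (nat_lit 6) (nat_lit 43332) (nat_lit 12) nil nil) (node (nat_lit 12) (nat_lit 42500)
  (nat_lit 11) nil nil)) (node (nat_lit 4) (nat_lit 41682) (nat_lit 10) (node (nat_lit 5) (nat_lit
  41692) (nat_lit 11) (node (nat_lit 6) (nat_lit 39665) (nat_lit 12) (node (nat_lit 4) (nat_lit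
  33832) (nat_lit 13) (node (nat_lit 5) (nat_lit 30620) (nat_lit 14) nil nil) nil) nil) (node
  (nat_lit 6) (nat_lit 40565) (nat_lit 11) nil nil)) (node (nat_lit 5) (nat_lit 44150) (nat_lit
  10) nil (node (nat_lit 0) (nat_lit 44150) (nat_lit 10) nil nil)))) nil))) (node (nat_lit 5)
  (nat_lit 42252) (nat_lit 8) (node (nat_lit 6) (nat_lit 43322) (nat_lit 9) (node (nat_lit 4)
  (nat_lit 42472) (nat_lit 10) (node (nat_lit 5) (nat_lit 43050) (nat_lit 11) nil nil) nil) (node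
  (nat_lit 4) (nat_lit 42600) (nat_lit 9) (node (nat_lit 5) (nat_lit 43311) (nat_lit 10) nil nil)
  (node (nat_lit 3) (nat_lit 41613) (nat_lit 9) nil (node (nat_lit 0) (nat_lit 43209) (nat_lit 9)
  nil nil)))) (node (nat_lit 3) (nat_lit 42121) (nat_lit 8) (node (nat_lit 4) (nat_lit 42393)
  (nat_lit 9) (node (nat_lit 5) (nat_lit 36037) (nat_lit 10) (node (nat_lit 6) (nat_lit 28030)
  (nat_lit 11) (node (nat_lit 4) (nat_lit 27759) (nat_lit 12) nil nil) nil) nil) (node (nat_lit 5)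
  (nat_lit 43097) (nat_lit 9) nil (node (nat_lit 6) (nat_lit 42693) (nat_lit 9) nil nil))) (node
  (nat_lit 0) (nat_lit 44150) (nat_lit 8) (node (nat_lit 4) (nat_lit 44150) (nat_lit 9) nil (node
  (nat_lit 6) (nat_lit 44150) (nat_lit 9) nil nil)) nil)))) (node (nat_lit 3) (nat_lit 43509)
  (nat_lit 7) nil (node (nat_lit 0) (nat_lit 44150) (nat_lit 7) (node (nat_lit 6) (nat_lit 44150)
  (nat_lit 8) nil nil) nil))) (node (nat_lit 3) (nat_lit 40534) (nat_lit 6) (node (nat_lit 6)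
  (nat_lit 41940) (nat_lit 7) (node (nat_lit 4) (nat_lit 43479) (nat_lit 8) (node (nat_lit 6)
  (nat_lit 44150) (nat_lit 9) (node (nat_lit 5) (nat_lit 44150) (nat_lit 10) nil (node (nat_lit 9)
  (nat_lit 43419) (nat_lit 10) nil nil)) (node (nat_lit 9) (nat_lit 43860) (nat_lit 9) (node
  (nat_lit 5) (nat_lit 44150) (nat_lit 10) nil nil) (node (nat_lit 0) (nat_lit 44150) (nat_lit 9)
  nil nil))) (node (nat_lit 9) (nat_lit 39692) (nat_lit 8) (node (nat_lit 4) (nat_lit 38202)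
  (nat_lit 9) (node (nat_lit 5) (nat_lit 35430) (nat_lit 10) (node (nat_lit 6) (nat_lit 29535)
  (nat_lit 11) (node (nat_lit 4) (nat_lit 8710) (nat_lit 12) nil nil) nil) nil) nil) (node
  (nat_lit 5) (nat_lit 43408) (nat_lit 8) nil (node (nat_lit 0) (nat_lit 43408) (nat_lit 8) nil
  nil)))) (node (nat_lit 4) (nat_lit 40947) (nat_lit 7) nil (node (nat_lit 5) (nat_lit 42700)
  (nat_lit 7) nil nil))) (node (nat_lit 0) (nat_lit 42019) (nat_lit 6) (node (nat_lit 6) (nat_lit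
  42019) (nat_lit 7) nil nil) nil))) (node (nat_lit 3) (nat_lit 69608) (nat_lit 5) (node (nat_lit
  5) (nat_lit 81679) (nat_lit 6) (node (nat_lit 8) (nat_lit 80821) (nat_lit 7) nil (node (nat_lit
  4) (nat_lit 81679) (nat_lit 7) nil (node (nat_lit 6) (nat_lit 81679) (nat_lit 7) nil nil)))
  (node (nat_lit 6) (nat_lit 75883) (nat_lit 6) (node (nat_lit 8) (nat_lit 76385) (nat_lit 7)
  (node (nat_lit 4) (nat_lit 76283) (nat_lit 8) (node (nat_lit 8) (nat_lit 75687) (nat_lit 9) nil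
  (node (nat_lit 6) (nat_lit 75757) (nat_lit 9) nil (node (nat_lit 5) (nat_lit 71140) (nat_lit 9)
  (node (nat_lit 6) (nat_lit 59211) (nat_lit 10) (node (nat_lit 4) (nat_lit 45498) (nat_lit 11)
  nil nil) nil) nil))) nil) (node (nat_lit 4) (nat_lit 73743) (nat_lit 7) (node (nat_lit 6)
  (nat_lit 76741) (nat_lit 8) (node (nat_lit 8) (nat_lit 76289) (nat_lit 9) (node (nat_lit 4)
  (nat_lit 74620) (nat_lit 10) nil nil) nil) (node (nat_lit 5) (nat_lit 57697) (nat_lit 8) (node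
  (nat_lit 6) (nat_lit 53975) (nat_lit 9) (node (nat_lit 4) (nat_lit 49773) (nat_lit 10) nil nil)
  nil) nil)) (node (nat_lit 5) (nat_lit 80715) (nat_lit 7) nil nil))) (node (nat_lit 4) (nat_lit
  71049) (nat_lit 6) (node (nat_lit 6) (nat_lit 71002) (nat_lit 7) (node (nat_lit 8) (nat_lit
  72350) (nat_lit 8) (node (nat_lit 4) (nat_lit 66409) (nat_lit 9) nil nil) (node (nat_lit 4)
  (nat_lit 67180) (nat_lit 8) (node (nat_lit 8) (nat_lit 66433) (nat_lit 9) (node (nat_lit 6)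
  (nat_lit 65636) (nat_lit 10) nil nil) (node (nat_lit 5) (nat_lit 65746) (nat_lit 9) nil nil))
  (node (nat_lit 5) (nat_lit 74789) (nat_lit 8) (node (nat_lit 6) (nat_lit 74789) (nat_lit 9) nil
  nil) nil))) (node (nat_lit 5) (nat_lit 75521) (nat_lit 7) (node (nat_lit 6) (nat_lit 75925)
  (nat_lit 8) (node (nat_lit 4) (nat_lit 46375) (nat_lit 9) nil nil) nil) (node (nat_lit 0)
  (nat_lit 75880) (nat_lit 7) nil nil))) (node (nat_lit 0) (nat_lit 81679) (nat_lit 6) nil nil))))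
  (node (nat_lit 0) (nat_lit 79926) (nat_lit 5) (node (nat_lit 6) (nat_lit 80503) (nat_lit 6)
  (node (nat_lit 4) (nat_lit 80158) (nat_lit 7) nil nil) (node (nat_lit 4) (nat_lit 80925)
  (nat_lit 6) (node (nat_lit 6) (nat_lit 80580) (nat_lit 7) nil nil) (node (nat_lit 5) (nat_lit
  83014) (nat_lit 6) nil (node (nat_lit 3) (nat_lit 79016) (nat_lit 6) nil (node (nat_lit 0)
  (nat_lit 83014) (nat_lit 6) nil nil))))) nil)))) t316) t317) nil)) (node (nat_lit 0) (nat_lit 0)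
  (nat_lit 1) (node (nat_lit 3) (nat_lit 0) (nat_lit 2) t318 (node (nat_lit 0) (nat_lit 0)
  (nat_lit 2) (node (nat_lit 3) (nat_lit 0) (nat_lit 3) (node (nat_lit 3) (nat_lit 0) (nat_lit 4)
  (node (nat_lit 5) (nat_lit 151169) (nat_lit 5) nil (node (nat_lit 6) (nat_lit 141363) (nat_lit
  5) (node (nat_lit 5) (nat_lit 152646) (nat_lit 6) nil (node (nat_lit 4) (nat_lit 140345)
  (nat_lit 6) (node (nat_lit 5) (nat_lit 130579) (nat_lit 7) (node (nat_lit 6) (nat_lit 128704)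
  (nat_lit 8) nil nil) nil) (node (nat_lit 3) (nat_lit 142889) (nat_lit 6) (node (nat_lit 7)
  (nat_lit 137656) (nat_lit 7) nil nil) nil))) (node (nat_lit 3) (nat_lit 137555) (nat_lit 5)
  (node (nat_lit 7) (nat_lit 139607) (nat_lit 6) (node (nat_lit 6) (nat_lit 135217) (nat_lit 7)
  nil nil) (node (nat_lit 6) (nat_lit 139257) (nat_lit 6) (node (nat_lit 7) (nat_lit 139336)
  (nat_lit 7) nil (node (nat_lit 8) (nat_lit 132532) (nat_lit 7) nil nil)) (node (nat_lit 5)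
  (nat_lit 146797) (nat_lit 6) nil (node (nat_lit 4) (nat_lit 126261) (nat_lit 6) (node (nat_lit
  5) (nat_lit 122364) (nat_lit 7) nil nil) nil)))) (node (nat_lit 4) (nat_lit 151349) (nat_lit 5)
  (node (nat_lit 5) (nat_lit 118773) (nat_lit 6) (node (nat_lit 6) (nat_lit 98480) (nat_lit 7) nil
  nil) nil) (node (nat_lit 0) (nat_lit 151169) (nat_lit 5) nil nil))))) (node (nat_lit 4) (nat_lit
  0) (nat_lit 4) (node (nat_lit 5) (nat_lit 108278) (nat_lit 5) (node (nat_lit 4) (nat_lit 108278)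
  (nat_lit 6) (node (nat_lit 6) (nat_lit 108278) (nat_lit 7) (node (nat_lit 4) (nat_lit 108278)
  (nat_lit 8) (node (nat_lit 5) (nat_lit 108278) (nat_lit 9) nil nil) nil) nil) nil) (node
  (nat_lit 6) (nat_lit 153403) (nat_lit 5) (node (nat_lit 5) (nat_lit 153599) (nat_lit 6) nil nil)
  (node (nat_lit 3) (nat_lit 153403) (nat_lit 5) (node (nat_lit 4) (nat_lit 153599) (nat_lit 6)
  (node (nat_lit 5) (nat_lit 153599) (nat_lit 7) (node (nat_lit 6) (nat_lit 153599) (nat_lit 8)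
  (node (nat_lit 4) (nat_lit 99460) (nat_lit 9) nil nil) nil) nil) nil) (node (nat_lit 0) (nat_lit
  153599) (nat_lit 5) nil nil)))) (node (nat_lit 5) (nat_lit 152186) (nat_lit 4) (node (nat_lit 4)
  (nat_lit 153599) (nat_lit 5) (node (nat_lit 6) (nat_lit 153599) (nat_lit 6) (node (nat_lit 4)
  (nat_lit 153599) (nat_lit 7) (node (nat_lit 5) (nat_lit 153599) (nat_lit 8) (node (nat_lit 6)
  (nat_lit 153599) (nat_lit 9) (node (nat_lit 5) (nat_lit 153599) (nat_lit 10) (node (nat_lit 4)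
  (nat_lit 108278) (nat_lit 11) nil nil) nil) nil) nil) nil) nil) nil) (node (nat_lit 0) (nat_lit
  153403) (nat_lit 4) (node (nat_lit 6) (nat_lit 153403) (nat_lit 5) nil (node (nat_lit 3)
  (nat_lit 153403) (nat_lit 5) nil (node (nat_lit 4) (nat_lit 153599) (nat_lit 5) nil nil)))
  nil)))) (node (nat_lit 0) (nat_lit 0) (nat_lit 3) (node (nat_lit 3) (nat_lit 0) (nat_lit 4)
  (node (nat_lit 3) (nat_lit 145256) (nat_lit 5) (node (nat_lit 7) (nat_lit 144046) (nat_lit 6)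
  nil nil) (node (nat_lit 6) (nat_lit 158470) (nat_lit 5) nil (node (nat_lit 5) (nat_lit 158470)
  (nat_lit 5) nil (node (nat_lit 4) (nat_lit 158470) (nat_lit 5) nil (node (nat_lit 0) (nat_lit
  158470) (nat_lit 5) nil nil))))) (node (nat_lit 4) (nat_lit 0) (nat_lit 4) (node (nat_lit 6)
  (nat_lit 175384) (nat_lit 5) (node (nat_lit 5) (nat_lit 175384) (nat_lit 6) (node (nat_lit 4)
  (nat_lit 175384) (nat_lit 7) (node (nat_lit 6) (nat_lit 175384) (nat_lit 8) nil nil) nil) nil)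
  (node (nat_lit 3) (nat_lit 163852) (nat_lit 5) nil (node (nat_lit 5) (nat_lit 175384) (nat_lit
  5) nil (node (nat_lit 0) (nat_lit 175384) (nat_lit 5) nil nil)))) (node (nat_lit 5) (nat_lit
  166570) (nat_lit 4) (node (nat_lit 4) (nat_lit 172857) (nat_lit 5) nil nil) (node (nat_lit 0)
  (nat_lit 166570) (nat_lit 4) nil nil)))) (node (nat_lit 4) (nat_lit 0) (nat_lit 3) (node
  (nat_lit 3) (nat_lit 0) (nat_lit 4) (node (nat_lit 4) (nat_lit 154654) (nat_lit 5) (node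
  (nat_lit 5) (nat_lit 156646) (nat_lit 6) (node (nat_lit 4) (nat_lit 105772) (nat_lit 7) nil nil)
  nil) (node (nat_lit 5) (nat_lit 154654) (nat_lit 5) nil (node (nat_lit 3) (nat_lit 145313)
  (nat_lit 5) (node (nat_lit 7) (nat_lit 145812) (nat_lit 6) (node (nat_lit 4) (nat_lit 145671)
  (nat_lit 7) nil nil) (node (nat_lit 3) (nat_lit 140668) (nat_lit 6) nil nil)) (node (nat_lit 0)
  (nat_lit 158562) (nat_lit 5) nil nil)))) (node (nat_lit 0) (nat_lit 0) (nat_lit 4) (node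
  (nat_lit 4) (nat_lit 158658) (nat_lit 5) (node (nat_lit 5) (nat_lit 158658) (nat_lit 6) (node
  (nat_lit 7) (nat_lit 158658) (nat_lit 7) nil nil) nil) (node (nat_lit 5) (nat_lit 158658)
  (nat_lit 5) nil (node (nat_lit 3) (nat_lit 158657) (nat_lit 5) nil (node (nat_lit 0) (nat_lit
  158658) (nat_lit 5) nil nil)))) nil)) nil))) nil)) nil))

noncomputable def t331 : Tr :=
  (node (nat_lit 6) (nat_lit 0) (nat_lit 5) (node (nat_lit 5) (nat_lit 106883) (nat_lit 6) (node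
  (nat_lit 7) (nat_lit 111253) (nat_lit 7) (node (nat_lit 5) (nat_lit 114536) (nat_lit 8) (node
  (nat_lit 6) (nat_lit 120975) (nat_lit 9) (node (nat_lit 7) (nat_lit 123722) (nat_lit 10) (node
  (nat_lit 6) (nat_lit 123093) (nat_lit 11) nil (node (nat_lit 5) (nat_lit 124086) (nat_lit 11)
  (node (nat_lit 4) (nat_lit 124154) (nat_lit 12) nil nil) (node (nat_lit 4) (nat_lit 125040)
  (nat_lit 11) nil nil))) (node (nat_lit 5) (nat_lit 120292) (nat_lit 10) (node (nat_lit 7)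
  (nat_lit 119988) (nat_lit 11) (node (nat_lit 4) (nat_lit 122667) (nat_lit 12) nil nil) (node
  (nat_lit 4) (nat_lit 118976) (nat_lit 11) nil nil)) (node (nat_lit 4) (nat_lit 126116) (nat_lit
  10) nil (node (nat_lit 0) (nat_lit 122474) (nat_lit 10) nil nil)))) (node (nat_lit 4) (nat_lit
  124352) (nat_lit 9) (node (nat_lit 7) (nat_lit 124354) (nat_lit 10) (node (nat_lit 5) (nat_lit
  125606) (nat_lit 11) nil (node (nat_lit 4) (nat_lit 123100) (nat_lit 11) (node (nat_lit 5)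
  (nat_lit 124898) (nat_lit 12) nil nil) nil)) (node (nat_lit 5) (nat_lit 118851) (nat_lit 10)
  (node (nat_lit 6) (nat_lit 109656) (nat_lit 11) (node (nat_lit 7) (nat_lit 99427) (nat_lit 12)
  (node (nat_lit 6) (nat_lit 90519) (nat_lit 13) (node (nat_lit 5) (nat_lit 85677) (nat_lit 14)
  nil nil) nil) nil) (node (nat_lit 7) (nat_lit 115131) (nat_lit 11) (node (nat_lit 4) (nat_lit
  115141) (nat_lit 12) nil nil) nil)) nil)) (node (nat_lit 0) (nat_lit 123038) (nat_lit 9) nil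
  nil))) (node (nat_lit 4) (nat_lit 125246) (nat_lit 8) (node (nat_lit 5) (nat_lit 124489)
  (nat_lit 9) (node (nat_lit 6) (nat_lit 105146) (nat_lit 10) (node (nat_lit 7) (nat_lit 78915)
  (nat_lit 11) (node (nat_lit 6) (nat_lit 31852) (nat_lit 12) (node (nat_lit 5) (nat_lit 32284)
  (nat_lit 13) nil nil) (node (nat_lit 5) (nat_lit 77047) (nat_lit 12) nil nil)) (node (nat_lit 5)
  (nat_lit 103830) (nat_lit 11) nil (node (nat_lit 4) (nat_lit 103830) (nat_lit 11) nil nil)))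
  (node (nat_lit 7) (nat_lit 123444) (nat_lit 10) (node (nat_lit 5) (nat_lit 123544) (nat_lit 11)
  nil nil) (node (nat_lit 4) (nat_lit 123604) (nat_lit 10) (node (nat_lit 7) (nat_lit 122101)
  (nat_lit 11) nil nil) nil))) (node (nat_lit 7) (nat_lit 127216) (nat_lit 9) (node (nat_lit 5)
  (nat_lit 126451) (nat_lit 10) (node (nat_lit 6) (nat_lit 127125) (nat_lit 11) nil (node (nat_lit
  4) (nat_lit 120728) (nat_lit 11) nil nil)) nil) nil)) (node (nat_lit 0) (nat_lit 128615)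
  (nat_lit 8) nil (node (nat_lit 6) (nat_lit 114043) (nat_lit 8) (node (nat_lit 7) (nat_lit
  112549) (nat_lit 9) nil nil) nil)))) (node (nat_lit 6) (nat_lit 111253) (nat_lit 7) (node
  (nat_lit 7) (nat_lit 113428) (nat_lit 8) (node (nat_lit 5) (nat_lit 118494) (nat_lit 9) (node
  (nat_lit 4) (nat_lit 122584) (nat_lit 10) (node (nat_lit 5) (nat_lit 118432) (nat_lit 11) (node
  (nat_lit 6) (nat_lit 110108) (nat_lit 12) (node (nat_lit 7) (nat_lit 96597) (nat_lit 13) (node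
  (nat_lit 6) (nat_lit 95155) (nat_lit 14) (node (nat_lit 5) (nat_lit 89819) (nat_lit 15) nil nil)
  nil) nil) nil) nil) (node (nat_lit 7) (nat_lit 122668) (nat_lit 10) (node (nat_lit 4) (nat_lit
  117316) (nat_lit 11) nil nil) (node (nat_lit 6) (nat_lit 120889) (nat_lit 10) nil nil))) (node
  (nat_lit 0) (nat_lit 127455) (nat_lit 9) nil (node (nat_lit 4) (nat_lit 129843) (nat_lit 9) nil
  nil))) (node (nat_lit 4) (nat_lit 128615) (nat_lit 8) (node (nat_lit 7) (nat_lit 129918)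
  (nat_lit 9) (node (nat_lit 4) (nat_lit 122356) (nat_lit 10) nil nil) (node (nat_lit 5) (nat_lit
  126576) (nat_lit 9) nil nil)) (node (nat_lit 0) (nat_lit 128615) (nat_lit 8) (node (nat_lit 4)
  (nat_lit 126576) (nat_lit 9) nil (node (nat_lit 7) (nat_lit 126659) (nat_lit 9) nil nil)) nil)))
  (node (nat_lit 4) (nat_lit 127113) (nat_lit 7) (node (nat_lit 7) (nat_lit 129904) (nat_lit 8)
  (node (nat_lit 5) (nat_lit 127657) (nat_lit 9) (node (nat_lit 4) (nat_lit 123725) (nat_lit 10)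
  nil nil) (node (nat_lit 4) (nat_lit 124953) (nat_lit 9) (node (nat_lit 5) (nat_lit 126457)
  (nat_lit 10) (node (nat_lit 6) (nat_lit 117329) (nat_lit 11) (node (nat_lit 7) (nat_lit 73417)
  (nat_lit 12) (node (nat_lit 6) (nat_lit 52281) (nat_lit 13) (node (nat_lit 5) (nat_lit 33019)
  (nat_lit 14) nil nil) nil) nil) nil) nil) nil)) (node (nat_lit 5) (nat_lit 124792) (nat_lit 8)
  (node (nat_lit 7) (nat_lit 121570) (nat_lit 9) (node (nat_lit 5) (nat_lit 121420) (nat_lit 10)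
  (node (nat_lit 4) (nat_lit 118841) (nat_lit 11) nil nil) nil) nil) nil)) (node (nat_lit 0)
  (nat_lit 126729) (nat_lit 7) (node (nat_lit 4) (nat_lit 129826) (nat_lit 8) nil (node (nat_lit
  5) (nat_lit 129519) (nat_lit 8) nil nil)) nil)))) (node (nat_lit 4) (nat_lit 129315) (nat_lit 6)
  (node (nat_lit 7) (nat_lit 130024) (nat_lit 7) (node (nat_lit 4) (nat_lit 128199) (nat_lit 8)
  (node (nat_lit 5) (nat_lit 123809) (nat_lit 9) (node (nat_lit 7) (nat_lit 122518) (nat_lit 10)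
  (node (nat_lit 5) (nat_lit 122619) (nat_lit 11) nil nil) (node (nat_lit 6) (nat_lit 111895)
  (nat_lit 10) (node (nat_lit 7) (nat_lit 67112) (nat_lit 11) (node (nat_lit 6) (nat_lit 35669)
  (nat_lit 12) (node (nat_lit 4) (nat_lit 34792) (nat_lit 13) nil nil) nil) nil) nil)) (node
  (nat_lit 6) (nat_lit 129993) (nat_lit 9) (node (nat_lit 4) (nat_lit 129108) (nat_lit 10) (node
  (nat_lit 7) (nat_lit 127525) (nat_lit 11) (node (nat_lit 6) (nat_lit 128721) (nat_lit 12) nil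
  nil) nil) nil) nil)) (node (nat_lit 5) (nat_lit 124728) (nat_lit 8) (node (nat_lit 4) (nat_lit
  122468) (nat_lit 9) (node (nat_lit 5) (nat_lit 116556) (nat_lit 10) (node (nat_lit 6) (nat_lit
  105847) (nat_lit 11) (node (nat_lit 7) (nat_lit 91188) (nat_lit 12) nil nil) nil) nil) (node
  (nat_lit 7) (nat_lit 124774) (nat_lit 9) (node (nat_lit 4) (nat_lit 124136) (nat_lit 10) (node
  (nat_lit 5) (nat_lit 122460) (nat_lit 11) nil nil) nil) nil)) (node (nat_lit 0) (nat_lit 131570)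
  (nat_lit 8) nil nil))) (node (nat_lit 5) (nat_lit 126845) (nat_lit 7) (node (nat_lit 7) (nat_lit
  122767) (nat_lit 8) (node (nat_lit 4) (nat_lit 121599) (nat_lit 9) nil nil) nil) (node (nat_lit
  6) (nat_lit 132778) (nat_lit 7) nil (node (nat_lit 0) (nat_lit 132778) (nat_lit 7) nil nil))))
  (node (nat_lit 0) (nat_lit 126964) (nat_lit 6) (node (nat_lit 7) (nat_lit 125421) (nat_lit 7)
  (node (nat_lit 5) (nat_lit 119721) (nat_lit 8) nil nil) (node (nat_lit 5) (nat_lit 124493)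
  (nat_lit 7) (node (nat_lit 7) (nat_lit 120415) (nat_lit 8) nil nil) (node (nat_lit 4) (nat_lit
  124493) (nat_lit 7) (node (nat_lit 7) (nat_lit 120415) (nat_lit 8) nil nil) (node (nat_lit 0)
  (nat_lit 131333) (nat_lit 7) nil (node (nat_lit 6) (nat_lit 131333) (nat_lit 7) nil nil)))))
  nil))) (node (nat_lit 5) (nat_lit 0) (nat_lit 5) (node (nat_lit 6) (nat_lit 0) (nat_lit 6) (node
  (nat_lit 5) (nat_lit 111256) (nat_lit 7) (node (nat_lit 7) (nat_lit 113424) (nat_lit 8) (node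
  (nat_lit 5) (nat_lit 119878) (nat_lit 9) (node (nat_lit 4) (nat_lit 123284) (nat_lit 10) (node
  (nat_lit 5) (nat_lit 117368) (nat_lit 11) (node (nat_lit 6) (nat_lit 115831) (nat_lit 12) (node
  (nat_lit 7) (nat_lit 110343) (nat_lit 13) (node (nat_lit 5) (nat_lit 93890) (nat_lit 14) (node
  (nat_lit 6) (nat_lit 84236) (nat_lit 15) nil nil) nil) nil) (node (nat_lit 7) (nat_lit 113511)
  (nat_lit 12) nil nil)) (node (nat_lit 7) (nat_lit 123824) (nat_lit 11) (node (nat_lit 5)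
  (nat_lit 122907) (nat_lit 12) nil nil) (node (nat_lit 6) (nat_lit 124603) (nat_lit 11) nil
  nil))) (node (nat_lit 0) (nat_lit 127490) (nat_lit 10) (node (nat_lit 7) (nat_lit 125800)
  (nat_lit 11) (node (nat_lit 5) (nat_lit 125382) (nat_lit 12) nil nil) (node (nat_lit 5) (nat_lit
  126930) (nat_lit 11) nil nil)) (node (nat_lit 6) (nat_lit 122616) (nat_lit 10) (node (nat_lit 7)
  (nat_lit 125287) (nat_lit 11) (node (nat_lit 6) (nat_lit 126483) (nat_lit 12) nil (node (nat_lit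
  5) (nat_lit 121143) (nat_lit 12) nil nil)) nil) nil))) (node (nat_lit 6) (nat_lit 120004)
  (nat_lit 9) (node (nat_lit 7) (nat_lit 122901) (nat_lit 10) (node (nat_lit 5) (nat_lit 119506)
  (nat_lit 11) nil nil) (node (nat_lit 5) (nat_lit 120946) (nat_lit 10) nil (node (nat_lit 4)
  (nat_lit 118275) (nat_lit 10) nil (node (nat_lit 0) (nat_lit 121503) (nat_lit 10) nil nil))))
  (node (nat_lit 4) (nat_lit 121199) (nat_lit 9) (node (nat_lit 5) (nat_lit 120386) (nat_lit 10)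
  (node (nat_lit 6) (nat_lit 101253) (nat_lit 11) (node (nat_lit 7) (nat_lit 79577) (nat_lit 12)
  (node (nat_lit 5) (nat_lit 78113) (nat_lit 13) nil nil) nil) nil) nil) (node (nat_lit 0)
  (nat_lit 127451) (nat_lit 9) nil nil)))) (node (nat_lit 0) (nat_lit 127039) (nat_lit 8) nil
  (node (nat_lit 4) (nat_lit 127381) (nat_lit 8) nil nil))) (node (nat_lit 4) (nat_lit 122767)
  (nat_lit 7) (node (nat_lit 7) (nat_lit 123134) (nat_lit 8) (node (nat_lit 5) (nat_lit 124875)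
  (nat_lit 9) (node (nat_lit 7) (nat_lit 126971) (nat_lit 10) (node (nat_lit 4) (nat_lit 122069)
  (nat_lit 11) nil nil) (node (nat_lit 4) (nat_lit 124358) (nat_lit 10) nil nil)) (node (nat_lit
  4) (nat_lit 114624) (nat_lit 9) (node (nat_lit 5) (nat_lit 109040) (nat_lit 10) (node (nat_lit
  6) (nat_lit 99612) (nat_lit 11) (node (nat_lit 7) (nat_lit 83651) (nat_lit 12) (node (nat_lit 5)
  (nat_lit 26543) (nat_lit 13) nil nil) nil) nil) nil) nil)) (node (nat_lit 5) (nat_lit 120446)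
  (nat_lit 8) nil nil)) (node (nat_lit 0) (nat_lit 123348) (nat_lit 7) nil nil))) (node (nat_lit
  7) (nat_lit 106904) (nat_lit 6) (node (nat_lit 6) (nat_lit 111273) (nat_lit 7) (node (nat_lit 5)
  (nat_lit 114050) (nat_lit 8) (node (nat_lit 7) (nat_lit 120504) (nat_lit 9) (node (nat_lit 5)
  (nat_lit 121424) (nat_lit 10) (node (nat_lit 4) (nat_lit 117176) (nat_lit 11) (node (nat_lit 5)
  (nat_lit 115585) (nat_lit 12) nil nil) nil) (node (nat_lit 4) (nat_lit 120735) (nat_lit 10)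
  (node (nat_lit 5) (nat_lit 116780) (nat_lit 11) (node (nat_lit 6) (nat_lit 110467) (nat_lit 12)
  (node (nat_lit 7) (nat_lit 101465) (nat_lit 13) (node (nat_lit 5) (nat_lit 82957) (nat_lit 14)
  (node (nat_lit 7) (nat_lit 27947) (nat_lit 15) (node (nat_lit 6) (nat_lit 28133) (nat_lit 16)
  nil nil) nil) nil) nil) nil) nil) nil)) (node (nat_lit 4) (nat_lit 122184) (nat_lit 9) nil (node
  (nat_lit 6) (nat_lit 116019) (nat_lit 9) nil nil))) (node (nat_lit 7) (nat_lit 114064) (nat_lit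
  8) (node (nat_lit 5) (nat_lit 117721) (nat_lit 9) nil (node (nat_lit 4) (nat_lit 122655)
  (nat_lit 9) nil nil)) (node (nat_lit 4) (nat_lit 123224) (nat_lit 8) (node (nat_lit 7) (nat_lit
  116077) (nat_lit 9) nil nil) (node (nat_lit 0) (nat_lit 121882) (nat_lit 8) nil nil)))) (node
  (nat_lit 4) (nat_lit 115975) (nat_lit 7) (node (nat_lit 5) (nat_lit 103792) (nat_lit 8) (node
  (nat_lit 4) (nat_lit 106307) (nat_lit 9) (node (nat_lit 7) (nat_lit 105016) (nat_lit 10) (node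
  (nat_lit 4) (nat_lit 106424) (nat_lit 11) (node (nat_lit 5) (nat_lit 98961) (nat_lit 12) nil
  nil) (node (nat_lit 5) (nat_lit 102482) (nat_lit 11) nil nil)) nil) (node (nat_lit 6) (nat_lit
  88661) (nat_lit 9) (node (nat_lit 7) (nat_lit 37052) (nat_lit 10) (node (nat_lit 5) (nat_lit
  27087) (nat_lit 11) nil nil) nil) (node (nat_lit 7) (nat_lit 102298) (nat_lit 9) nil nil)))
  (node (nat_lit 7) (nat_lit 117369) (nat_lit 8) (node (nat_lit 5) (nat_lit 115055) (nat_lit 9)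
  (node (nat_lit 6) (nat_lit 115819) (nat_lit 10) nil (node (nat_lit 4) (nat_lit 110042) (nat_lit
  10) nil nil)) nil) (node (nat_lit 6) (nat_lit 118766) (nat_lit 8) nil (node (nat_lit 0) (nat_lit
  118766) (nat_lit 8) nil nil)))) (node (nat_lit 0) (nat_lit 123864) (nat_lit 7) nil nil))) (node
  (nat_lit 4) (nat_lit 106265) (nat_lit 6) (node (nat_lit 7) (nat_lit 110634) (nat_lit 7) (node
  (nat_lit 5) (nat_lit 112742) (nat_lit 8) (node (nat_lit 7) (nat_lit 113618) (nat_lit 9) (node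
  (nat_lit 4) (nat_lit 114008) (nat_lit 10) (node (nat_lit 5) (nat_lit 110988) (nat_lit 11) nil
  nil) nil) nil) (node (nat_lit 4) (nat_lit 105528) (nat_lit 8) (node (nat_lit 5) (nat_lit 103824)
  (nat_lit 9) (node (nat_lit 6) (nat_lit 84760) (nat_lit 10) (node (nat_lit 7) (nat_lit 52467)
  (nat_lit 11) (node (nat_lit 5) (nat_lit 13727) (nat_lit 12) nil nil) nil) nil) nil) nil)) (node
  (nat_lit 5) (nat_lit 91804) (nat_lit 7) (node (nat_lit 7) (nat_lit 90901) (nat_lit 8) (node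
  (nat_lit 5) (nat_lit 91994) (nat_lit 9) (node (nat_lit 4) (nat_lit 89598) (nat_lit 10) nil nil)
  (node (nat_lit 4) (nat_lit 88420) (nat_lit 9) nil nil)) (node (nat_lit 6) (nat_lit 87112)
  (nat_lit 8) (node (nat_lit 7) (nat_lit 88205) (nat_lit 9) nil nil) nil)) (node (nat_lit 6)
  (nat_lit 110634) (nat_lit 7) (node (nat_lit 4) (nat_lit 108313) (nat_lit 8) nil nil) (node
  (nat_lit 0) (nat_lit 110634) (nat_lit 7) nil nil)))) (node (nat_lit 0) (nat_lit 120098) (nat_lit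
  6) (node (nat_lit 5) (nat_lit 123724) (nat_lit 7) nil (node (nat_lit 7) (nat_lit 122581)
  (nat_lit 7) nil (node (nat_lit 4) (nat_lit 117628) (nat_lit 7) nil nil))) nil)))) (node (nat_lit
  4) (nat_lit 0) (nat_lit 5) (node (nat_lit 7) (nat_lit 128005) (nat_lit 6) (node (nat_lit 5)
  (nat_lit 124767) (nat_lit 7) (node (nat_lit 4) (nat_lit 124488) (nat_lit 8) (node (nat_lit 5)
  (nat_lit 115908) (nat_lit 9) (node (nat_lit 7) (nat_lit 113945) (nat_lit 10) (node (nat_lit 5)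
  (nat_lit 114012) (nat_lit 11) (node (nat_lit 4) (nat_lit 112300) (nat_lit 12) nil nil) (node
  (nat_lit 4) (nat_lit 113556) (nat_lit 11) nil nil)) (node (nat_lit 6) (nat_lit 87595) (nat_lit
  10) (node (nat_lit 7) (nat_lit 84026) (nat_lit 11) (node (nat_lit 4) (nat_lit 84689) (nat_lit
  12) nil nil) nil) nil)) (node (nat_lit 6) (nat_lit 125152) (nat_lit 9) nil nil)) (node (nat_lit
  7) (nat_lit 126231) (nat_lit 8) (node (nat_lit 4) (nat_lit 124155) (nat_lit 9) (node (nat_lit 5)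
  (nat_lit 108684) (nat_lit 10) (node (nat_lit 6) (nat_lit 100167) (nat_lit 11) nil nil) nil) nil)
  (node (nat_lit 6) (nat_lit 127558) (nat_lit 8) nil nil))) (node (nat_lit 6) (nat_lit 132374)
  (nat_lit 7) nil nil)) (node (nat_lit 6) (nat_lit 129292) (nat_lit 6) (node (nat_lit 4) (nat_lit
  130050) (nat_lit 7) (node (nat_lit 7) (nat_lit 128989) (nat_lit 8) (node (nat_lit 4) (nat_lit
  127724) (nat_lit 9) (node (nat_lit 5) (nat_lit 124480) (nat_lit 10) (node (nat_lit 6) (nat_lit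
  115316) (nat_lit 11) (node (nat_lit 7) (nat_lit 104637) (nat_lit 12) (node (nat_lit 4) (nat_lit
  87535) (nat_lit 13) (node (nat_lit 6) (nat_lit 37474) (nat_lit 14) nil nil) nil) nil) nil) nil)
  nil) nil) (node (nat_lit 5) (nat_lit 132999) (nat_lit 7) (node (nat_lit 7) (nat_lit 130031)
  (nat_lit 8) (node (nat_lit 4) (nat_lit 130208) (nat_lit 9) (node (nat_lit 5) (nat_lit 118523)
  (nat_lit 10) (node (nat_lit 6) (nat_lit 104451) (nat_lit 11) (node (nat_lit 7) (nat_lit 84057)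
  (nat_lit 12) nil nil) nil) nil) (node (nat_lit 5) (nat_lit 128484) (nat_lit 9) (node (nat_lit 4)
  (nat_lit 125992) (nat_lit 10) nil nil) nil)) nil) (node (nat_lit 7) (nat_lit 127750) (nat_lit 7)
  (node (nat_lit 5) (nat_lit 122049) (nat_lit 8) (node (nat_lit 4) (nat_lit 115966) (nat_lit 9)
  (node (nat_lit 5) (nat_lit 108599) (nat_lit 10) nil nil) nil) (node (nat_lit 6) (nat_lit 130540)
  (nat_lit 8) nil nil)) nil))) (node (nat_lit 5) (nat_lit 129882) (nat_lit 6) (node (nat_lit 7)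
  (nat_lit 132925) (nat_lit 7) (node (nat_lit 5) (nat_lit 132835) (nat_lit 8) (node (nat_lit 4)
  (nat_lit 127041) (nat_lit 9) (node (nat_lit 7) (nat_lit 127436) (nat_lit 10) nil (node (nat_lit
  5) (nat_lit 114960) (nat_lit 10) nil nil)) nil) (node (nat_lit 4) (nat_lit 134166) (nat_lit 8)
  nil nil)) (node (nat_lit 6) (nat_lit 33497) (nat_lit 7) (node (nat_lit 5) (nat_lit 34739)
  (nat_lit 8) (node (nat_lit 7) (nat_lit 32152) (nat_lit 9) (node (nat_lit 4) (nat_lit 32819)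
  (nat_lit 10) (node (nat_lit 5) (nat_lit 33406) (nat_lit 11) nil nil) nil) nil) (node (nat_lit 4)
  (nat_lit 34739) (nat_lit 8) nil nil)) (node (nat_lit 4) (nat_lit 131458) (nat_lit 7) (node
  (nat_lit 7) (nat_lit 128708) (nat_lit 8) (node (nat_lit 5) (nat_lit 123332) (nat_lit 9) nil nil)
  nil) nil))) (node (nat_lit 0) (nat_lit 126945) (nat_lit 6) nil nil)))) (node (nat_lit 0)
  (nat_lit 0) (nat_lit 5) (node (nat_lit 7) (nat_lit 123923) (nat_lit 6) (node (nat_lit 5)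
  (nat_lit 117735) (nat_lit 7) nil (node (nat_lit 4) (nat_lit 128293) (nat_lit 7) nil (node
  (nat_lit 6) (nat_lit 128293) (nat_lit 7) nil nil))) (node (nat_lit 5) (nat_lit 123504) (nat_lit
  6) (node (nat_lit 7) (nat_lit 118663) (nat_lit 7) (node (nat_lit 5) (nat_lit 114254) (nat_lit 8)
  nil nil) (node (nat_lit 4) (nat_lit 121033) (nat_lit 7) nil (node (nat_lit 8) (nat_lit 127874)
  (nat_lit 7) nil nil))) (node (nat_lit 4) (nat_lit 122557) (nat_lit 6) (node (nat_lit 7) (nat_lit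
  120978) (nat_lit 7) (node (nat_lit 4) (nat_lit 104675) (nat_lit 8) nil nil) (node (nat_lit 5)
  (nat_lit 125358) (nat_lit 7) nil nil)) (node (nat_lit 6) (nat_lit 126391) (nat_lit 6) (node
  (nat_lit 7) (nat_lit 122423) (nat_lit 7) nil nil) (node (nat_lit 0) (nat_lit 124666) (nat_lit 6)
  nil nil))))) nil))))

noncomputable def t332 : Tr :=
  (node (nat_lit 4) (nat_lit 0) (nat_lit 4) (node (nat_lit 6) (nat_lit 0) (nat_lit 5) (node
  (nat_lit 5) (nat_lit 103793) (nat_lit 6) (node (nat_lit 4) (nat_lit 113903) (nat_lit 7) (node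
  (nat_lit 5) (nat_lit 124582) (nat_lit 8) (node (nat_lit 6) (nat_lit 131629) (nat_lit 9) (node
  (nat_lit 4) (nat_lit 135133) (nat_lit 10) (node (nat_lit 6) (nat_lit 81007) (nat_lit 11) (node
  (nat_lit 3) (nat_lit 81670) (nat_lit 12) nil nil) (node (nat_lit 5) (nat_lit 136306) (nat_lit
  11) nil (node (nat_lit 3) (nat_lit 130482) (nat_lit 11) nil nil))) (node (nat_lit 5) (nat_lit
  133468) (nat_lit 10) (node (nat_lit 4) (nat_lit 134798) (nat_lit 11) (node (nat_lit 3) (nat_lit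
  135354) (nat_lit 12) nil nil) (node (nat_lit 3) (nat_lit 132602) (nat_lit 11) nil nil)) (node
  (nat_lit 3) (nat_lit 132135) (nat_lit 10) (node (nat_lit 5) (nat_lit 131855) (nat_lit 11) nil
  nil) (node (nat_lit 0) (nat_lit 133963) (nat_lit 10) nil nil)))) (node (nat_lit 3) (nat_lit
  127826) (nat_lit 9) (node (nat_lit 4) (nat_lit 130571) (nat_lit 10) (node (nat_lit 5) (nat_lit
  127566) (nat_lit 11) (node (nat_lit 6) (nat_lit 121823) (nat_lit 12) (node (nat_lit 4) (nat_lit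
  112756) (nat_lit 13) (node (nat_lit 6) (nat_lit 97141) (nat_lit 14) (node (nat_lit 5) (nat_lit
  75206) (nat_lit 15) (node (nat_lit 4) (nat_lit 51236) (nat_lit 16) nil nil) nil) nil) nil) nil)
  nil) (node (nat_lit 5) (nat_lit 128760) (nat_lit 10) (node (nat_lit 4) (nat_lit 126433) (nat_lit
  11) nil nil) nil)) (node (nat_lit 0) (nat_lit 131500) (nat_lit 9) (node (nat_lit 5) (nat_lit
  130607) (nat_lit 10) nil nil) nil))) (node (nat_lit 3) (nat_lit 130536) (nat_lit 8) (node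
  (nat_lit 5) (nat_lit 130400) (nat_lit 9) (node (nat_lit 4) (nat_lit 128447) (nat_lit 10) (node
  (nat_lit 5) (nat_lit 126441) (nat_lit 11) (node (nat_lit 6) (nat_lit 116093) (nat_lit 12) (node
  (nat_lit 4) (nat_lit 105191) (nat_lit 13) (node (nat_lit 6) (nat_lit 94442) (nat_lit 14) (node
  (nat_lit 5) (nat_lit 80831) (nat_lit 15) nil nil) nil) nil) nil) nil) (node (nat_lit 6) (nat_lit
  131067) (nat_lit 10) nil (node (nat_lit 11) (nat_lit 131067) (nat_lit 10) (node (nat_lit 4)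
  (nat_lit 130080) (nat_lit 11) nil nil) nil))) (node (nat_lit 4) (nat_lit 126505) (nat_lit 9)
  (node (nat_lit 5) (nat_lit 124407) (nat_lit 10) (node (nat_lit 6) (nat_lit 115648) (nat_lit 11)
  (node (nat_lit 4) (nat_lit 96510) (nat_lit 12) (node (nat_lit 6) (nat_lit 62874) (nat_lit 13)
  (node (nat_lit 5) (nat_lit 35552) (nat_lit 14) (node (nat_lit 4) (nat_lit 35799) (nat_lit 15)
  nil nil) nil) nil) nil) (node (nat_lit 11) (nat_lit 123449) (nat_lit 11) nil nil)) nil) (node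
  (nat_lit 6) (nat_lit 132425) (nat_lit 9) nil (node (nat_lit 0) (nat_lit 132425) (nat_lit 9) nil
  nil)))) (node (nat_lit 0) (nat_lit 131727) (nat_lit 8) (node (nat_lit 4) (nat_lit 134713)
  (nat_lit 9) nil (node (nat_lit 3) (nat_lit 130784) (nat_lit 9) nil (node (nat_lit 5) (nat_lit
  130239) (nat_lit 9) nil nil))) (node (nat_lit 6) (nat_lit 123450) (nat_lit 8) (node (nat_lit 4)
  (nat_lit 122597) (nat_lit 9) nil nil) nil)))) (node (nat_lit 6) (nat_lit 110958) (nat_lit 7)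
  (node (nat_lit 4) (nat_lit 121968) (nat_lit 8) (node (nat_lit 5) (nat_lit 126711) (nat_lit 9)
  (node (nat_lit 3) (nat_lit 129012) (nat_lit 10) (node (nat_lit 5) (nat_lit 129572) (nat_lit 11)
  nil (node (nat_lit 4) (nat_lit 124246) (nat_lit 11) nil nil)) (node (nat_lit 4) (nat_lit 128794)
  (nat_lit 10) nil (node (nat_lit 6) (nat_lit 129456) (nat_lit 10) nil nil))) (node (nat_lit 0)
  (nat_lit 125590) (nat_lit 9) nil (node (nat_lit 3) (nat_lit 126240) (nat_lit 9) (node (nat_lit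
  4) (nat_lit 123763) (nat_lit 10) nil (node (nat_lit 5) (nat_lit 123947) (nat_lit 10) nil nil))
  nil))) (node (nat_lit 3) (nat_lit 131358) (nat_lit 8) (node (nat_lit 5) (nat_lit 130759)
  (nat_lit 9) (node (nat_lit 4) (nat_lit 121943) (nat_lit 10) nil (node (nat_lit 11) (nat_lit
  129158) (nat_lit 10) nil nil)) (node (nat_lit 4) (nat_lit 132784) (nat_lit 9) nil nil)) (node
  (nat_lit 0) (nat_lit 128781) (nat_lit 8) (node (nat_lit 3) (nat_lit 127838) (nat_lit 9) nil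
  (node (nat_lit 4) (nat_lit 127293) (nat_lit 9) nil nil)) nil))) (node (nat_lit 3) (nat_lit
  126369) (nat_lit 7) (node (nat_lit 4) (nat_lit 124836) (nat_lit 8) (node (nat_lit 5) (nat_lit
  123725) (nat_lit 9) (node (nat_lit 6) (nat_lit 102455) (nat_lit 10) (node (nat_lit 4) (nat_lit
  57170) (nat_lit 11) (node (nat_lit 6) (nat_lit 36508) (nat_lit 12) (node (nat_lit 5) (nat_lit
  32758) (nat_lit 13) nil nil) nil) nil) nil) (node (nat_lit 10) (nat_lit 123893) (nat_lit 9) nil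
  nil)) (node (nat_lit 5) (nat_lit 125524) (nat_lit 8) (node (nat_lit 4) (nat_lit 123451) (nat_lit
  9) (node (nat_lit 5) (nat_lit 117933) (nat_lit 10) (node (nat_lit 6) (nat_lit 107925) (nat_lit
  11) nil nil) nil) nil) (node (nat_lit 6) (nat_lit 128541) (nat_lit 8) nil (node (nat_lit 0)
  (nat_lit 128541) (nat_lit 8) nil nil)))) (node (nat_lit 0) (nat_lit 130023) (nat_lit 7) (node
  (nat_lit 3) (nat_lit 129326) (nat_lit 8) nil (node (nat_lit 5) (nat_lit 131933) (nat_lit 8) nil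
  (node (nat_lit 4) (nat_lit 134356) (nat_lit 8) nil nil))) nil)))) (node (nat_lit 3) (nat_lit
  123079) (nat_lit 6) (node (nat_lit 4) (nat_lit 131120) (nat_lit 7) (node (nat_lit 9) (nat_lit
  132691) (nat_lit 8) (node (nat_lit 5) (nat_lit 132582) (nat_lit 9) (node (nat_lit 4) (nat_lit
  128438) (nat_lit 10) (node (nat_lit 5) (nat_lit 124474) (nat_lit 11) (node (nat_lit 6) (nat_lit
  113728) (nat_lit 12) (node (nat_lit 4) (nat_lit 104380) (nat_lit 13) (node (nat_lit 6) (nat_lit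
  93437) (nat_lit 14) (node (nat_lit 9) (nat_lit 81893) (nat_lit 15) (node (nat_lit 4) (nat_lit
  82125) (nat_lit 16) nil nil) nil) nil) nil) nil) nil) (node (nat_lit 6) (nat_lit 133079)
  (nat_lit 10) (node (nat_lit 4) (nat_lit 133288) (nat_lit 11) nil nil) nil)) (node (nat_lit 6)
  (nat_lit 134204) (nat_lit 9) (node (nat_lit 9) (nat_lit 132620) (nat_lit 10) (node (nat_lit 4)
  (nat_lit 133057) (nat_lit 11) nil (node (nat_lit 5) (nat_lit 132426) (nat_lit 11) nil nil)) nil)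
  (node (nat_lit 0) (nat_lit 134204) (nat_lit 9) nil nil))) (node (nat_lit 5) (nat_lit 133942)
  (nat_lit 8) (node (nat_lit 6) (nat_lit 135369) (nat_lit 9) (node (nat_lit 4) (nat_lit 135631)
  (nat_lit 10) (node (nat_lit 6) (nat_lit 34641) (nat_lit 11) nil nil) nil) nil) (node (nat_lit 0)
  (nat_lit 133942) (nat_lit 8) nil nil))) (node (nat_lit 5) (nat_lit 126768) (nat_lit 7) (node
  (nat_lit 4) (nat_lit 125855) (nat_lit 8) (node (nat_lit 5) (nat_lit 115690) (nat_lit 9) (node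
  (nat_lit 6) (nat_lit 86145) (nat_lit 10) (node (nat_lit 4) (nat_lit 79719) (nat_lit 11) (node
  (nat_lit 6) (nat_lit 80382) (nat_lit 12) nil nil) nil) nil) nil) (node (nat_lit 9) (nat_lit
  123928) (nat_lit 8) nil nil)) (node (nat_lit 6) (nat_lit 128998) (nat_lit 7) nil (node (nat_lit
  0) (nat_lit 128998) (nat_lit 7) nil nil)))) (node (nat_lit 0) (nat_lit 125096) (nat_lit 6) (node
  (nat_lit 4) (nat_lit 130901) (nat_lit 7) (node (nat_lit 5) (nat_lit 129509) (nat_lit 8) nil nil)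
  (node (nat_lit 5) (nat_lit 131902) (nat_lit 7) (node (nat_lit 4) (nat_lit 130511) (nat_lit 8)
  nil nil) (node (nat_lit 3) (nat_lit 125103) (nat_lit 7) nil (node (nat_lit 0) (nat_lit 131015)
  (nat_lit 7) nil (node (nat_lit 6) (nat_lit 131015) (nat_lit 7) nil nil))))) nil))) (node
  (nat_lit 5) (nat_lit 0) (nat_lit 5) (node (nat_lit 4) (nat_lit 105604) (nat_lit 6) (node
  (nat_lit 6) (nat_lit 113118) (nat_lit 7) (node (nat_lit 5) (nat_lit 123132) (nat_lit 8) (node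
  (nat_lit 4) (nat_lit 127782) (nat_lit 9) (node (nat_lit 3) (nat_lit 126316) (nat_lit 10) (node
  (nat_lit 5) (nat_lit 124241) (nat_lit 11) (node (nat_lit 4) (nat_lit 125086) (nat_lit 12) nil
  nil) (node (nat_lit 4) (nat_lit 121778) (nat_lit 11) nil nil)) (node (nat_lit 5) (nat_lit
  129509) (nat_lit 10) (node (nat_lit 3) (nat_lit 125684) (nat_lit 11) nil nil) nil)) (node
  (nat_lit 3) (nat_lit 124295) (nat_lit 9) (node (nat_lit 4) (nat_lit 123019) (nat_lit 10) nil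
  nil) (node (nat_lit 6) (nat_lit 128452) (nat_lit 9) nil nil))) (node (nat_lit 4) (nat_lit
  122907) (nat_lit 8) (node (nat_lit 5) (nat_lit 126710) (nat_lit 9) nil (node (nat_lit 3)
  (nat_lit 124782) (nat_lit 9) (node (nat_lit 4) (nat_lit 119231) (nat_lit 10) nil nil) nil))
  (node (nat_lit 3) (nat_lit 127940) (nat_lit 8) (node (nat_lit 4) (nat_lit 130459) (nat_lit 9)
  nil nil) (node (nat_lit 0) (nat_lit 124296) (nat_lit 8) nil nil)))) (node (nat_lit 3) (nat_lit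
  126827) (nat_lit 7) (node (nat_lit 5) (nat_lit 122232) (nat_lit 8) (node (nat_lit 10) (nat_lit
  124525) (nat_lit 9) (node (nat_lit 4) (nat_lit 123538) (nat_lit 10) (node (nat_lit 5) (nat_lit
  121356) (nat_lit 11) nil nil) nil) (node (nat_lit 6) (nat_lit 123266) (nat_lit 9) (node (nat_lit
  4) (nat_lit 121537) (nat_lit 10) nil nil) (node (nat_lit 4) (nat_lit 120897) (nat_lit 9) nil
  nil))) (node (nat_lit 4) (nat_lit 123016) (nat_lit 8) (node (nat_lit 5) (nat_lit 107330)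
  (nat_lit 9) (node (nat_lit 6) (nat_lit 76046) (nat_lit 10) (node (nat_lit 4) (nat_lit 33280)
  (nat_lit 11) (node (nat_lit 5) (nat_lit 33812) (nat_lit 12) (node (nat_lit 4) (nat_lit 34244)
  (nat_lit 13) nil nil) nil) nil) (node (nat_lit 10) (nat_lit 106040) (nat_lit 10) nil nil)) nil)
  (node (nat_lit 6) (nat_lit 130027) (nat_lit 8) nil (node (nat_lit 0) (nat_lit 130027) (nat_lit
  8) nil nil)))) (node (nat_lit 0) (nat_lit 119041) (nat_lit 7) nil nil))) (node (nat_lit 3)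
  (nat_lit 123233) (nat_lit 6) (node (nat_lit 4) (nat_lit 121823) (nat_lit 7) (node (nat_lit 5)
  (nat_lit 105561) (nat_lit 8) (node (nat_lit 6) (nat_lit 54389) (nat_lit 9) (node (nat_lit 4)
  (nat_lit 44314) (nat_lit 10) (node (nat_lit 5) (nat_lit 34819) (nat_lit 11) nil nil) nil) (node
  (nat_lit 4) (nat_lit 108081) (nat_lit 9) nil nil)) (node (nat_lit 9) (nat_lit 119927) (nat_lit
  8) (node (nat_lit 5) (nat_lit 116636) (nat_lit 9) (node (nat_lit 4) (nat_lit 112199) (nat_lit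
  10) nil nil) nil) nil)) (node (nat_lit 5) (nat_lit 127565) (nat_lit 7) (node (nat_lit 4)
  (nat_lit 119982) (nat_lit 8) (node (nat_lit 5) (nat_lit 103822) (nat_lit 9) (node (nat_lit 9)
  (nat_lit 101183) (nat_lit 10) (node (nat_lit 4) (nat_lit 100906) (nat_lit 11) nil nil) (node
  (nat_lit 6) (nat_lit 94799) (nat_lit 10) nil nil)) (node (nat_lit 9) (nat_lit 121392) (nat_lit
  9) nil (node (nat_lit 6) (nat_lit 122501) (nat_lit 9) nil nil))) (node (nat_lit 6) (nat_lit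
  131285) (nat_lit 8) nil nil)) (node (nat_lit 6) (nat_lit 129152) (nat_lit 7) nil (node (nat_lit
  0) (nat_lit 129152) (nat_lit 7) nil nil)))) (node (nat_lit 0) (nat_lit 123302) (nat_lit 6) (node
  (nat_lit 5) (nat_lit 122381) (nat_lit 7) nil (node (nat_lit 4) (nat_lit 122381) (nat_lit 7) nil
  (node (nat_lit 3) (nat_lit 123309) (nat_lit 7) nil nil))) nil))) (node (nat_lit 3) (nat_lit 0)
  (nat_lit 5) (node (nat_lit 4) (nat_lit 0) (nat_lit 6) (node (nat_lit 5) (nat_lit 86858) (nat_lit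
  7) (node (nat_lit 8) (nat_lit 89648) (nat_lit 8) (node (nat_lit 5) (nat_lit 91618) (nat_lit 9)
  (node (nat_lit 4) (nat_lit 93576) (nat_lit 10) (node (nat_lit 5) (nat_lit 93346) (nat_lit 11)
  nil (node (nat_lit 8) (nat_lit 91270) (nat_lit 11) nil nil)) nil) (node (nat_lit 6) (nat_lit
  91618) (nat_lit 9) (node (nat_lit 4) (nat_lit 93117) (nat_lit 10) nil nil) nil)) (node (nat_lit
  4) (nat_lit 90009) (nat_lit 8) (node (nat_lit 8) (nat_lit 91978) (nat_lit 9) (node (nat_lit 5)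
  (nat_lit 85625) (nat_lit 10) nil nil) nil) (node (nat_lit 6) (nat_lit 54787) (nat_lit 8) (node
  (nat_lit 4) (nat_lit 30953) (nat_lit 9) nil nil) (node (nat_lit 0) (nat_lit 89648) (nat_lit 8)
  nil nil)))) (node (nat_lit 6) (nat_lit 108298) (nat_lit 7) (node (nat_lit 8) (nat_lit 106672)
  (nat_lit 8) nil nil) (node (nat_lit 0) (nat_lit 107252) (nat_lit 7) nil nil))) (node (nat_lit 6)
  (nat_lit 118375) (nat_lit 6) (node (nat_lit 8) (nat_lit 124486) (nat_lit 7) (node (nat_lit 4)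
  (nat_lit 128486) (nat_lit 8) (node (nat_lit 8) (nat_lit 125899) (nat_lit 9) (node (nat_lit 5)
  (nat_lit 124256) (nat_lit 10) (node (nat_lit 4) (nat_lit 120724) (nat_lit 11) nil nil) nil) nil)
  nil) (node (nat_lit 5) (nat_lit 124247) (nat_lit 7) (node (nat_lit 4) (nat_lit 126172) (nat_lit
  8) (node (nat_lit 8) (nat_lit 126671) (nat_lit 9) (node (nat_lit 5) (nat_lit 124943) (nat_lit
  10) nil (node (nat_lit 4) (nat_lit 118879) (nat_lit 10) (node (nat_lit 5) (nat_lit 116707)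
  (nat_lit 11) nil nil) nil)) (node (nat_lit 5) (nat_lit 124134) (nat_lit 9) nil nil)) (node
  (nat_lit 8) (nat_lit 113693) (nat_lit 8) nil nil)) (node (nat_lit 4) (nat_lit 125306) (nat_lit
  7) (node (nat_lit 5) (nat_lit 122985) (nat_lit 8) (node (nat_lit 8) (nat_lit 120382) (nat_lit 9)
  nil nil) (node (nat_lit 6) (nat_lit 128096) (nat_lit 8) nil nil)) nil))) (node (nat_lit 5)
  (nat_lit 118518) (nat_lit 6) (node (nat_lit 4) (nat_lit 115373) (nat_lit 7) (node (nat_lit 5)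
  (nat_lit 99356) (nat_lit 8) (node (nat_lit 8) (nat_lit 98005) (nat_lit 9) (node (nat_lit 4)
  (nat_lit 96121) (nat_lit 10) nil nil) (node (nat_lit 6) (nat_lit 79997) (nat_lit 9) (node
  (nat_lit 4) (nat_lit 77601) (nat_lit 10) nil nil) nil)) (node (nat_lit 8) (nat_lit 115822)
  (nat_lit 8) (node (nat_lit 4) (nat_lit 113635) (nat_lit 9) (node (nat_lit 5) (nat_lit 109950)
  (nat_lit 10) nil nil) nil) nil)) (node (nat_lit 6) (nat_lit 122635) (nat_lit 7) (node (nat_lit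
  5) (nat_lit 119550) (nat_lit 8) (node (nat_lit 4) (nat_lit 117511) (nat_lit 9) nil nil) (node
  (nat_lit 8) (nat_lit 121009) (nat_lit 8) nil (node (nat_lit 4) (nat_lit 120314) (nat_lit 8) nil
  nil))) (node (nat_lit 8) (nat_lit 122585) (nat_lit 7) (node (nat_lit 4) (nat_lit 119847)
  (nat_lit 8) (node (nat_lit 5) (nat_lit 112899) (nat_lit 9) nil nil) nil) nil))) (node (nat_lit
  0) (nat_lit 119181) (nat_lit 6) nil nil)))) (node (nat_lit 0) (nat_lit 0) (nat_lit 5) (node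
  (nat_lit 4) (nat_lit 123720) (nat_lit 6) (node (nat_lit 5) (nat_lit 127135) (nat_lit 7) nil
  (node (nat_lit 3) (nat_lit 117648) (nat_lit 7) (node (nat_lit 4) (nat_lit 101345) (nat_lit 8)
  nil nil) (node (nat_lit 6) (nat_lit 128090) (nat_lit 7) nil nil))) (node (nat_lit 5) (nat_lit
  127590) (nat_lit 6) (node (nat_lit 4) (nat_lit 131247) (nat_lit 7) (node (nat_lit 5) (nat_lit
  128926) (nat_lit 8) nil nil) (node (nat_lit 3) (nat_lit 113265) (nat_lit 7) nil (node (nat_lit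
  8) (nat_lit 131661) (nat_lit 7) nil nil))) (node (nat_lit 3) (nat_lit 119450) (nat_lit 6) (node
  (nat_lit 4) (nat_lit 123520) (nat_lit 7) nil (node (nat_lit 5) (nat_lit 112337) (nat_lit 7) nil
  nil)) (node (nat_lit 6) (nat_lit 125288) (nat_lit 6) (node (nat_lit 4) (nat_lit 122818) (nat_lit
  7) nil nil) (node (nat_lit 0) (nat_lit 125288) (nat_lit 6) nil nil))))) nil)))) (node (nat_lit
  5) (nat_lit 0) (nat_lit 4) (node (nat_lit 3) (nat_lit 0) (nat_lit 5) (node (nat_lit 5) (nat_lit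
  105532) (nat_lit 6) (node (nat_lit 6) (nat_lit 111218) (nat_lit 7) (node (nat_lit 8) (nat_lit
  114009) (nat_lit 8) (node (nat_lit 5) (nat_lit 117695) (nat_lit 9) (node (nat_lit 4) (nat_lit
  115881) (nat_lit 10) (node (nat_lit 5) (nat_lit 110287) (nat_lit 11) (node (nat_lit 6) (nat_lit
  102368) (nat_lit 12) (node (nat_lit 5) (nat_lit 94298) (nat_lit 13) (node (nat_lit 8) (nat_lit
  86592) (nat_lit 14) nil nil) nil) nil) (node (nat_lit 8) (nat_lit 113465) (nat_lit 11) nil nil))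
  (node (nat_lit 8) (nat_lit 119522) (nat_lit 10) (node (nat_lit 4) (nat_lit 120312) (nat_lit 11)
  (node (nat_lit 5) (nat_lit 118174) (nat_lit 12) nil nil) nil) nil)) (node (nat_lit 6) (nat_lit
  119439) (nat_lit 9) nil (node (nat_lit 4) (nat_lit 115978) (nat_lit 9) nil (node (nat_lit 0)
  (nat_lit 115978) (nat_lit 9) nil nil)))) (node (nat_lit 5) (nat_lit 111920) (nat_lit 8) (node
  (nat_lit 4) (nat_lit 118925) (nat_lit 9) (node (nat_lit 6) (nat_lit 120424) (nat_lit 10) nil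
  nil) (node (nat_lit 0) (nat_lit 117009) (nat_lit 9) (node (nat_lit 6) (nat_lit 118508) (nat_lit
  10) nil nil) nil)) (node (nat_lit 4) (nat_lit 119850) (nat_lit 8) nil (node (nat_lit 0) (nat_lit
  118541) (nat_lit 8) nil nil)))) (node (nat_lit 4) (nat_lit 111672) (nat_lit 7) (node (nat_lit 5)
  (nat_lit 94843) (nat_lit 8) (node (nat_lit 8) (nat_lit 94673) (nat_lit 9) nil (node (nat_lit 6)
  (nat_lit 75970) (nat_lit 9) (node (nat_lit 5) (nat_lit 73575) (nat_lit 10) nil nil) nil)) (node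
  (nat_lit 8) (nat_lit 113958) (nat_lit 8) (node (nat_lit 4) (nat_lit 105289) (nat_lit 9) nil nil)
  nil)) (node (nat_lit 0) (nat_lit 109902) (nat_lit 7) nil nil))) (node (nat_lit 6) (nat_lit
  105223) (nat_lit 6) (node (nat_lit 8) (nat_lit 111218) (nat_lit 7) (node (nat_lit 5) (nat_lit
  114009) (nat_lit 8) (node (nat_lit 4) (nat_lit 119421) (nat_lit 9) (node (nat_lit 5) (nat_lit
  107849) (nat_lit 10) (node (nat_lit 6) (nat_lit 93149) (nat_lit 11) (node (nat_lit 5) (nat_lit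
  89296) (nat_lit 12) (node (nat_lit 8) (nat_lit 75492) (nat_lit 13) (node (nat_lit 6) (nat_lit
  75912) (nat_lit 14) nil nil) nil) nil) nil) nil) (node (nat_lit 8) (nat_lit 113862) (nat_lit 9)
  (node (nat_lit 4) (nat_lit 114115) (nat_lit 10) nil nil) (node (nat_lit 6) (nat_lit 115182)
  (nat_lit 9) (node (nat_lit 5) (nat_lit 113454) (nat_lit 10) nil nil) nil))) (node (nat_lit 4)
  (nat_lit 114009) (nat_lit 8) nil nil)) (node (nat_lit 4) (nat_lit 121452) (nat_lit 7) (node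
  (nat_lit 5) (nat_lit 123157) (nat_lit 8) (node (nat_lit 8) (nat_lit 122678) (nat_lit 9) (node
  (nat_lit 5) (nat_lit 122877) (nat_lit 10) nil nil) nil) nil) (node (nat_lit 5) (nat_lit 111218)
  (nat_lit 7) (node (nat_lit 4) (nat_lit 121021) (nat_lit 8) nil (node (nat_lit 6) (nat_lit
  114009) (nat_lit 8) nil nil)) (node (nat_lit 0) (nat_lit 109593) (nat_lit 7) nil nil)))) (node
  (nat_lit 4) (nat_lit 104570) (nat_lit 6) (node (nat_lit 5) (nat_lit 84784) (nat_lit 7) (node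
  (nat_lit 4) (nat_lit 88520) (nat_lit 8) (node (nat_lit 8) (nat_lit 86711) (nat_lit 9) (node
  (nat_lit 5) (nat_lit 83681) (nat_lit 10) nil nil) nil) (node (nat_lit 8) (nat_lit 82786)
  (nat_lit 8) (node (nat_lit 5) (nat_lit 82798) (nat_lit 9) (node (nat_lit 4) (nat_lit 79303)
  (nat_lit 10) nil nil) nil) (node (nat_lit 6) (nat_lit 52893) (nat_lit 8) (node (nat_lit 5)
  (nat_lit 29670) (nat_lit 9) nil nil) nil))) (node (nat_lit 8) (nat_lit 111777) (nat_lit 7) (node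
  (nat_lit 5) (nat_lit 114147) (nat_lit 8) (node (nat_lit 4) (nat_lit 111210) (nat_lit 9) (node
  (nat_lit 5) (nat_lit 106382) (nat_lit 10) (node (nat_lit 6) (nat_lit 88021) (nat_lit 11) (node
  (nat_lit 5) (nat_lit 77630) (nat_lit 12) nil nil) nil) nil) (node (nat_lit 8) (nat_lit 114077)
  (nat_lit 9) (node (nat_lit 4) (nat_lit 108332) (nat_lit 10) (node (nat_lit 5) (nat_lit 103990)
  (nat_lit 11) nil nil) nil) (node (nat_lit 6) (nat_lit 115152) (nat_lit 9) nil nil))) nil) (node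
  (nat_lit 6) (nat_lit 111256) (nat_lit 7) nil nil))) (node (nat_lit 0) (nat_lit 115739) (nat_lit
  6) (node (nat_lit 8) (nat_lit 120108) (nat_lit 7) nil (node (nat_lit 5) (nat_lit 113268)
  (nat_lit 7) nil nil)) nil)))) (node (nat_lit 4) (nat_lit 0) (nat_lit 5) (node (nat_lit 5)
  (nat_lit 104606) (nat_lit 6) (node (nat_lit 6) (nat_lit 62534) (nat_lit 7) (node (nat_lit 4)
  (nat_lit 75660) (nat_lit 8) (node (nat_lit 5) (nat_lit 81200) (nat_lit 9) (node (nat_lit 3)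
  (nat_lit 81351) (nat_lit 10) (node (nat_lit 4) (nat_lit 82736) (nat_lit 11) (node (nat_lit 5)
  (nat_lit 74338) (nat_lit 12) nil nil) nil) (node (nat_lit 4) (nat_lit 81528) (nat_lit 10) (node
  (nat_lit 3) (nat_lit 81473) (nat_lit 11) nil (node (nat_lit 6) (nat_lit 80301) (nat_lit 11) nil
  nil)) nil)) (node (nat_lit 6) (nat_lit 81859) (nat_lit 9) (node (nat_lit 5) (nat_lit 82802)
  (nat_lit 10) nil nil) (node (nat_lit 3) (nat_lit 81722) (nat_lit 9) (node (nat_lit 4) (nat_lit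
  74413) (nat_lit 10) nil nil) (node (nat_lit 0) (nat_lit 82358) (nat_lit 9) nil nil)))) (node
  (nat_lit 3) (nat_lit 85198) (nat_lit 8) (node (nat_lit 5) (nat_lit 82283) (nat_lit 9) nil nil)
  (node (nat_lit 0) (nat_lit 85198) (nat_lit 8) nil nil))) (node (nat_lit 3) (nat_lit 122564)
  (nat_lit 7) (node (nat_lit 4) (nat_lit 123206) (nat_lit 8) (node (nat_lit 5) (nat_lit 106553)
  (nat_lit 9) (node (nat_lit 6) (nat_lit 80304) (nat_lit 10) (node (nat_lit 5) (nat_lit 55506)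
  (nat_lit 11) (node (nat_lit 4) (nat_lit 34199) (nat_lit 12) nil nil) nil) nil) nil) (node
  (nat_lit 5) (nat_lit 123135) (nat_lit 8) (node (nat_lit 4) (nat_lit 119053) (nat_lit 9) nil nil)
  nil)) (node (nat_lit 0) (nat_lit 114653) (nat_lit 7) nil nil))) (node (nat_lit 6) (nat_lit
  104554) (nat_lit 6) (node (nat_lit 4) (nat_lit 114215) (nat_lit 7) (node (nat_lit 5) (nat_lit
  124516) (nat_lit 8) (node (nat_lit 3) (nat_lit 117326) (nat_lit 9) (node (nat_lit 4) (nat_lit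
  118190) (nat_lit 10) nil nil) (node (nat_lit 4) (nat_lit 123664) (nat_lit 9) (node (nat_lit 3)
  (nat_lit 121813) (nat_lit 10) (node (nat_lit 4) (nat_lit 123000) (nat_lit 11) nil nil) nil)
  nil)) (node (nat_lit 3) (nat_lit 122034) (nat_lit 8) nil nil)) (node (nat_lit 3) (nat_lit
  122971) (nat_lit 7) (node (nat_lit 5) (nat_lit 122806) (nat_lit 8) (node (nat_lit 4) (nat_lit
  120156) (nat_lit 9) (node (nat_lit 5) (nat_lit 111107) (nat_lit 10) (node (nat_lit 6) (nat_lit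
  102192) (nat_lit 11) (node (nat_lit 5) (nat_lit 92065) (nat_lit 12) (node (nat_lit 4) (nat_lit
  72824) (nat_lit 13) (node (nat_lit 6) (nat_lit 73243) (nat_lit 14) nil nil) nil) nil) nil) nil)
  nil) nil) (node (nat_lit 5) (nat_lit 112592) (nat_lit 7) (node (nat_lit 3) (nat_lit 121444)
  (nat_lit 8) (node (nat_lit 4) (nat_lit 112309) (nat_lit 9) (node (nat_lit 5) (nat_lit 106488)
  (nat_lit 10) nil nil) nil) (node (nat_lit 6) (nat_lit 116816) (nat_lit 8) nil nil)) (node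
  (nat_lit 0) (nat_lit 117879) (nat_lit 7) nil nil)))) (node (nat_lit 3) (nat_lit 115171) (nat_lit
  6) (node (nat_lit 5) (nat_lit 122784) (nat_lit 7) (node (nat_lit 9) (nat_lit 122221) (nat_lit 8)
  (node (nat_lit 4) (nat_lit 121746) (nat_lit 9) (node (nat_lit 5) (nat_lit 111235) (nat_lit 10)
  (node (nat_lit 6) (nat_lit 101343) (nat_lit 11) (node (nat_lit 5) (nat_lit 86561) (nat_lit 12)
  (node (nat_lit 4) (nat_lit 67579) (nat_lit 13) (node (nat_lit 9) (nat_lit 37722) (nat_lit 14)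
  (node (nat_lit 5) (nat_lit 29952) (nat_lit 15) nil nil) nil) nil) nil) nil) nil) nil) (node
  (nat_lit 4) (nat_lit 120320) (nat_lit 8) (node (nat_lit 5) (nat_lit 108236) (nat_lit 9) (node
  (nat_lit 6) (nat_lit 90081) (nat_lit 10) (node (nat_lit 5) (nat_lit 75309) (nat_lit 11) nil nil)
  (node (nat_lit 9) (nat_lit 106190) (nat_lit 10) nil nil)) nil) nil)) (node (nat_lit 4) (nat_lit
  113106) (nat_lit 7) (node (nat_lit 5) (nat_lit 106862) (nat_lit 8) (node (nat_lit 6) (nat_lit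
  85864) (nat_lit 9) (node (nat_lit 5) (nat_lit 36921) (nat_lit 10) (node (nat_lit 4) (nat_lit
  33536) (nat_lit 11) nil nil) nil) (node (nat_lit 4) (nat_lit 105374) (nat_lit 9) (node (nat_lit
  9) (nat_lit 103328) (nat_lit 10) nil nil) nil)) nil) (node (nat_lit 6) (nat_lit 121090) (nat_lit
  7) nil nil))) (node (nat_lit 0) (nat_lit 119386) (nat_lit 6) (node (nat_lit 4) (nat_lit 118465)
  (nat_lit 7) nil (node (nat_lit 5) (nat_lit 118465) (nat_lit 7) nil nil)) nil)))) (node (nat_lit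
  0) (nat_lit 0) (nat_lit 5) (node (nat_lit 5) (nat_lit 125113) (nat_lit 6) (node (nat_lit 6)
  (nat_lit 131078) (nat_lit 7) (node (nat_lit 8) (nat_lit 132320) (nat_lit 8) nil nil) (node
  (nat_lit 3) (nat_lit 117090) (nat_lit 7) nil (node (nat_lit 4) (nat_lit 125910) (nat_lit 7) nil
  (node (nat_lit 0) (nat_lit 129102) (nat_lit 7) nil nil)))) (node (nat_lit 6) (nat_lit 127016)
  (nat_lit 6) (node (nat_lit 5) (nat_lit 123779) (nat_lit 7) nil (node (nat_lit 8) (nat_lit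
  131386) (nat_lit 7) nil (node (nat_lit 4) (nat_lit 124546) (nat_lit 7) nil (node (nat_lit 3)
  (nat_lit 125474) (nat_lit 7) nil nil)))) (node (nat_lit 0) (nat_lit 122886) (nat_lit 6) nil
  (node (nat_lit 3) (nat_lit 121046) (nat_lit 6) (node (nat_lit 5) (nat_lit 114916) (nat_lit 7)
  nil (node (nat_lit 4) (nat_lit 124311) (nat_lit 7) nil nil)) (node (nat_lit 4) (nat_lit 124767)
  (nat_lit 6) (node (nat_lit 5) (nat_lit 122297) (nat_lit 7) nil (node (nat_lit 3) (nat_lit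
  112682) (nat_lit 7) nil nil)) nil))))) nil))) (node (nat_lit 0) (nat_lit 0) (nat_lit 4) (node
  (nat_lit 6) (nat_lit 0) (nat_lit 5) (node (nat_lit 5) (nat_lit 125401) (nat_lit 6) (node
  (nat_lit 7) (nat_lit 132284) (nat_lit 7) (node (nat_lit 6) (nat_lit 133526) (nat_lit 8) (node
  (nat_lit 7) (nat_lit 134402) (nat_lit 9) nil (node (nat_lit 4) (nat_lit 133899) (nat_lit 9) nil
  (node (nat_lit 3) (nat_lit 130939) (nat_lit 9) nil nil))) (node (nat_lit 5) (nat_lit 133526)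
  (nat_lit 8) (node (nat_lit 6) (nat_lit 134402) (nat_lit 9) nil (node (nat_lit 3) (nat_lit
  130939) (nat_lit 9) nil (node (nat_lit 4) (nat_lit 131724) (nat_lit 9) nil nil))) (node (nat_lit
  4) (nat_lit 130827) (nat_lit 8) nil (node (nat_lit 3) (nat_lit 129109) (nat_lit 8) nil nil))))
  (node (nat_lit 6) (nat_lit 129771) (nat_lit 7) (node (nat_lit 7) (nat_lit 132492) (nat_lit 8)
  nil nil) (node (nat_lit 3) (nat_lit 126372) (nat_lit 7) (node (nat_lit 4) (nat_lit 115285)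
  (nat_lit 8) nil nil) (node (nat_lit 4) (nat_lit 130411) (nat_lit 7) (node (nat_lit 3) (nat_lit
  119493) (nat_lit 8) nil nil) (node (nat_lit 0) (nat_lit 129771) (nat_lit 7) nil nil))))) (node
  (nat_lit 4) (nat_lit 130340) (nat_lit 6) (node (nat_lit 7) (nat_lit 132284) (nat_lit 7) nil
  (node (nat_lit 5) (nat_lit 132284) (nat_lit 7) (node (nat_lit 3) (nat_lit 122229) (nat_lit 8)
  nil nil) (node (nat_lit 3) (nat_lit 126372) (nat_lit 7) (node (nat_lit 4) (nat_lit 114188)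
  (nat_lit 8) nil nil) (node (nat_lit 6) (nat_lit 132284) (nat_lit 7) nil nil)))) (node (nat_lit
  3) (nat_lit 125098) (nat_lit 6) (node (nat_lit 7) (nat_lit 129467) (nat_lit 7) (node (nat_lit 9)
  (nat_lit 127419) (nat_lit 8) nil (node (nat_lit 6) (nat_lit 130874) (nat_lit 8) nil nil)) (node
  (nat_lit 5) (nat_lit 118325) (nat_lit 7) (node (nat_lit 9) (nat_lit 112117) (nat_lit 8) nil
  (node (nat_lit 4) (nat_lit 106935) (nat_lit 8) nil nil)) (node (nat_lit 4) (nat_lit 129467)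
  (nat_lit 7) nil (node (nat_lit 6) (nat_lit 129467) (nat_lit 7) nil (node (nat_lit 0) (nat_lit
  129467) (nat_lit 7) nil nil))))) (node (nat_lit 0) (nat_lit 127268) (nat_lit 6) (node (nat_lit
  7) (nat_lit 131637) (nat_lit 7) nil (node (nat_lit 6) (nat_lit 131637) (nat_lit 7) nil (node
  (nat_lit 5) (nat_lit 124797) (nat_lit 7) nil nil))) nil)))) (node (nat_lit 5) (nat_lit 0)
  (nat_lit 5) (node (nat_lit 7) (nat_lit 125253) (nat_lit 6) (node (nat_lit 6) (nat_lit 131078)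
  (nat_lit 7) (node (nat_lit 7) (nat_lit 132320) (nat_lit 8) (node (nat_lit 5) (nat_lit 133196)
  (nat_lit 9) (node (nat_lit 6) (nat_lit 133863) (nat_lit 10) nil (node (nat_lit 3) (nat_lit
  131074) (nat_lit 10) nil nil)) nil) (node (nat_lit 5) (nat_lit 132320) (nat_lit 8) (node
  (nat_lit 3) (nat_lit 124537) (nat_lit 9) nil nil) nil)) (node (nat_lit 0) (nat_lit 129623)
  (nat_lit 7) nil (node (nat_lit 3) (nat_lit 123711) (nat_lit 7) (node (nat_lit 5) (nat_lit
  118010) (nat_lit 8) nil nil) (node (nat_lit 4) (nat_lit 130387) (nat_lit 7) (node (nat_lit 5)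
  (nat_lit 128066) (nat_lit 8) nil nil) nil)))) (node (nat_lit 3) (nat_lit 121091) (nat_lit 6)
  (node (nat_lit 5) (nat_lit 117839) (nat_lit 7) nil (node (nat_lit 4) (nat_lit 114037) (nat_lit
  7) (node (nat_lit 5) (nat_lit 85073) (nat_lit 8) (node (nat_lit 6) (nat_lit 33123) (nat_lit 9)
  nil nil) nil) (node (nat_lit 7) (nat_lit 123035) (nat_lit 7) nil (node (nat_lit 6) (nat_lit
  123035) (nat_lit 7) nil nil)))) (node (nat_lit 4) (nat_lit 126422) (nat_lit 6) (node (nat_lit 5)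
  (nat_lit 126087) (nat_lit 7) (node (nat_lit 6) (nat_lit 128877) (nat_lit 8) (node (nat_lit 7)
  (nat_lit 70975) (nat_lit 9) nil nil) nil) (node (nat_lit 3) (nat_lit 121449) (nat_lit 7) (node
  (nat_lit 5) (nat_lit 115748) (nat_lit 8) nil nil) nil)) (node (nat_lit 6) (nat_lit 123013)
  (nat_lit 6) (node (nat_lit 5) (nat_lit 124965) (nat_lit 7) (node (nat_lit 7) (nat_lit 127755)
  (nat_lit 8) nil nil) nil) (node (nat_lit 0) (nat_lit 125949) (nat_lit 6) (node (nat_lit 6)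
  (nat_lit 130318) (nat_lit 7) nil (node (nat_lit 5) (nat_lit 123478) (nat_lit 7) nil nil))
  nil))))) (node (nat_lit 0) (nat_lit 0) (nat_lit 5) (node (nat_lit 5) (nat_lit 122692) (nat_lit
  6) nil (node (nat_lit 7) (nat_lit 128527) (nat_lit 6) nil (node (nat_lit 4) (nat_lit 122692)
  (nat_lit 6) (node (nat_lit 8) (nat_lit 127061) (nat_lit 7) nil nil) (node (nat_lit 3) (nat_lit
  120386) (nat_lit 6) (node (nat_lit 8) (nat_lit 123418) (nat_lit 7) nil nil) (node (nat_lit 6)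
  (nat_lit 128527) (nat_lit 6) nil (node (nat_lit 0) (nat_lit 127077) (nat_lit 6) nil nil))))))
  (node (nat_lit 3) (nat_lit 0) (nat_lit 5) (node (nat_lit 5) (nat_lit 116504) (nat_lit 6) (node
  (nat_lit 4) (nat_lit 103918) (nat_lit 7) (node (nat_lit 5) (nat_lit 83778) (nat_lit 8) (node
  (nat_lit 6) (nat_lit 72618) (nat_lit 9) nil nil) (node (nat_lit 8) (nat_lit 101933) (nat_lit 8)
  nil nil)) (node (nat_lit 8) (nat_lit 114309) (nat_lit 7) (node (nat_lit 4) (nat_lit 98007)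
  (nat_lit 8) nil nil) (node (nat_lit 7) (nat_lit 120113) (nat_lit 7) nil nil))) (node (nat_lit 4)
  (nat_lit 126520) (nat_lit 6) (node (nat_lit 5) (nat_lit 128464) (nat_lit 7) nil (node (nat_lit
  8) (nat_lit 122552) (nat_lit 7) (node (nat_lit 5) (nat_lit 119537) (nat_lit 8) nil nil) nil))
  (node (nat_lit 7) (nat_lit 124944) (nat_lit 6) (node (nat_lit 5) (nat_lit 122474) (nat_lit 7)
  nil nil) (node (nat_lit 6) (nat_lit 124944) (nat_lit 6) nil (node (nat_lit 0) (nat_lit 124944)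
  (nat_lit 6) nil nil))))) (node (nat_lit 4) (nat_lit 0) (nat_lit 5) (node (nat_lit 5) (nat_lit
  127778) (nat_lit 6) (node (nat_lit 3) (nat_lit 116146) (nat_lit 7) (node (nat_lit 4) (nat_lit
  110707) (nat_lit 8) (node (nat_lit 5) (nat_lit 94532) (nat_lit 9) nil nil) (node (nat_lit 5)
  (nat_lit 115556) (nat_lit 8) nil nil)) (node (nat_lit 4) (nat_lit 127914) (nat_lit 7) nil nil))
  (node (nat_lit 3) (nat_lit 115037) (nat_lit 6) (node (nat_lit 4) (nat_lit 107146) (nat_lit 7)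
  (node (nat_lit 5) (nat_lit 79309) (nat_lit 8) (node (nat_lit 6) (nat_lit 26773) (nat_lit 9) nil
  nil) nil) (node (nat_lit 5) (nat_lit 107371) (nat_lit 7) (node (nat_lit 4) (nat_lit 99293)
  (nat_lit 8) nil nil) nil)) (node (nat_lit 7) (nat_lit 124232) (nat_lit 6) (node (nat_lit 5)
  (nat_lit 121762) (nat_lit 7) nil nil) (node (nat_lit 6) (nat_lit 127080) (nat_lit 6) nil (node
  (nat_lit 0) (nat_lit 125801) (nat_lit 6) nil nil))))) nil))))) nil)))

noncomputable def t333 : Tr :=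
  (node (nat_lit 0) (nat_lit 0) (nat_lit 4) (node (nat_lit 6) (nat_lit 0) (nat_lit 5) (node
  (nat_lit 5) (nat_lit 93863) (nat_lit 6) (node (nat_lit 6) (nat_lit 100489) (nat_lit 7) (node
  (nat_lit 7) (nat_lit 102014) (nat_lit 8) (node (nat_lit 5) (nat_lit 106108) (nat_lit 9) (node
  (nat_lit 7) (nat_lit 108189) (nat_lit 10) (node (nat_lit 6) (nat_lit 108356) (nat_lit 11) (node
  (nat_lit 5) (nat_lit 106280) (nat_lit 12) (node (nat_lit 7) (nat_lit 106713) (nat_lit 13) nil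
  (node (nat_lit 6) (nat_lit 106713) (nat_lit 13) (node (nat_lit 4) (nat_lit 106721) (nat_lit 14)
  (node (nat_lit 5) (nat_lit 106836) (nat_lit 15) nil nil) nil) (node (nat_lit 4) (nat_lit 106714)
  (nat_lit 13) (node (nat_lit 5) (nat_lit 106942) (nat_lit 14) (node (nat_lit 6) (nat_lit 99692)
  (nat_lit 15) nil nil) nil) nil))) nil) nil) (node (nat_lit 6) (nat_lit 108170) (nat_lit 10)
  (node (nat_lit 5) (nat_lit 109076) (nat_lit 11) (node (nat_lit 7) (nat_lit 108828) (nat_lit 12)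
  (node (nat_lit 6) (nat_lit 107843) (nat_lit 13) (node (nat_lit 5) (nat_lit 107483) (nat_lit 14)
  nil nil) nil) (node (nat_lit 4) (nat_lit 105815) (nat_lit 12) nil nil)) (node (nat_lit 4)
  (nat_lit 108757) (nat_lit 11) (node (nat_lit 5) (nat_lit 109290) (nat_lit 12) (node (nat_lit 6)
  (nat_lit 99022) (nat_lit 13) (node (nat_lit 7) (nat_lit 93234) (nat_lit 14) nil nil) nil) nil)
  nil)) (node (nat_lit 4) (nat_lit 105735) (nat_lit 10) nil nil))) (node (nat_lit 4) (nat_lit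
  110226) (nat_lit 9) (node (nat_lit 6) (nat_lit 107524) (nat_lit 10) (node (nat_lit 4) (nat_lit
  101546) (nat_lit 11) (node (nat_lit 5) (nat_lit 100705) (nat_lit 12) nil nil) nil) (node
  (nat_lit 7) (nat_lit 110893) (nat_lit 10) nil nil)) (node (nat_lit 0) (nat_lit 108594) (nat_lit
  9) nil nil))) (node (nat_lit 4) (nat_lit 106246) (nat_lit 8) (node (nat_lit 5) (nat_lit 86047)
  (nat_lit 9) (node (nat_lit 6) (nat_lit 51714) (nat_lit 10) (node (nat_lit 7) (nat_lit 52006)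
  (nat_lit 11) (node (nat_lit 6) (nat_lit 27436) (nat_lit 12) nil nil) nil) nil) nil) (node
  (nat_lit 0) (nat_lit 101953) (nat_lit 8) nil nil))) (node (nat_lit 7) (nat_lit 100483) (nat_lit
  7) (node (nat_lit 6) (nat_lit 102014) (nat_lit 8) (node (nat_lit 7) (nat_lit 106972) (nat_lit 9)
  (node (nat_lit 5) (nat_lit 109539) (nat_lit 10) (node (nat_lit 6) (nat_lit 107941) (nat_lit 11)
  (node (nat_lit 5) (nat_lit 105628) (nat_lit 12) (node (nat_lit 4) (nat_lit 106063) (nat_lit 13)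
  nil nil) (node (nat_lit 4) (nat_lit 107402) (nat_lit 12) (node (nat_lit 5) (nat_lit 107193)
  (nat_lit 13) nil nil) nil)) (node (nat_lit 7) (nat_lit 110126) (nat_lit 11) nil nil)) (node
  (nat_lit 4) (nat_lit 105688) (nat_lit 10) nil nil)) (node (nat_lit 4) (nat_lit 109424) (nat_lit
  9) (node (nat_lit 6) (nat_lit 107301) (nat_lit 10) (node (nat_lit 5) (nat_lit 106670) (nat_lit
  11) nil nil) nil) (node (nat_lit 0) (nat_lit 104325) (nat_lit 9) nil nil))) (node (nat_lit 5)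
  (nat_lit 102014) (nat_lit 8) (node (nat_lit 6) (nat_lit 106522) (nat_lit 9) (node (nat_lit 7)
  (nat_lit 107189) (nat_lit 10) nil (node (nat_lit 4) (nat_lit 98439) (nat_lit 10) nil nil)) (node
  (nat_lit 4) (nat_lit 100700) (nat_lit 9) nil nil)) (node (nat_lit 4) (nat_lit 107658) (nat_lit
  8) nil (node (nat_lit 0) (nat_lit 103290) (nat_lit 8) nil nil)))) (node (nat_lit 4) (nat_lit
  94720) (nat_lit 7) (node (nat_lit 6) (nat_lit 99461) (nat_lit 8) (node (nat_lit 5) (nat_lit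
  99138) (nat_lit 9) (node (nat_lit 6) (nat_lit 99945) (nat_lit 10) (node (nat_lit 7) (nat_lit
  101225) (nat_lit 11) nil (node (nat_lit 4) (nat_lit 94851) (nat_lit 11) nil nil)) nil) (node
  (nat_lit 4) (nat_lit 101727) (nat_lit 9) (node (nat_lit 5) (nat_lit 96964) (nat_lit 10) (node
  (nat_lit 6) (nat_lit 87062) (nat_lit 11) (node (nat_lit 7) (nat_lit 53325) (nat_lit 12) nil nil)
  nil) nil) (node (nat_lit 7) (nat_lit 101372) (nat_lit 9) nil nil))) (node (nat_lit 5) (nat_lit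
  81414) (nat_lit 8) (node (nat_lit 6) (nat_lit 64454) (nat_lit 9) (node (nat_lit 4) (nat_lit
  65239) (nat_lit 10) nil (node (nat_lit 7) (nat_lit 64770) (nat_lit 10) nil (node (nat_lit 5)
  (nat_lit 65239) (nat_lit 10) nil nil))) (node (nat_lit 7) (nat_lit 81414) (nat_lit 9) nil nil))
  (node (nat_lit 7) (nat_lit 97426) (nat_lit 8) nil (node (nat_lit 0) (nat_lit 97426) (nat_lit 8)
  nil nil)))) (node (nat_lit 0) (nat_lit 108137) (nat_lit 7) (node (nat_lit 0) (nat_lit 109379)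
  (nat_lit 8) nil (node (nat_lit 6) (nat_lit 104962) (nat_lit 8) nil (node (nat_lit 5) (nat_lit
  105902) (nat_lit 8) nil nil))) nil)))) (node (nat_lit 4) (nat_lit 102093) (nat_lit 6) (node
  (nat_lit 6) (nat_lit 107292) (nat_lit 7) (node (nat_lit 7) (nat_lit 110482) (nat_lit 8) (node
  (nat_lit 4) (nat_lit 112472) (nat_lit 9) (node (nat_lit 7) (nat_lit 113925) (nat_lit 10) nil
  (node (nat_lit 6) (nat_lit 111986) (nat_lit 10) (node (nat_lit 4) (nat_lit 112961) (nat_lit 11)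
  (node (nat_lit 5) (nat_lit 106640) (nat_lit 12) nil nil) (node (nat_lit 5) (nat_lit 106874)
  (nat_lit 11) (node (nat_lit 4) (nat_lit 105367) (nat_lit 12) nil nil) nil)) nil)) (node (nat_lit
  5) (nat_lit 108768) (nat_lit 9) nil nil)) (node (nat_lit 5) (nat_lit 113829) (nat_lit 8) (node
  (nat_lit 6) (nat_lit 114758) (nat_lit 9) (node (nat_lit 7) (nat_lit 115255) (nat_lit 10) nil
  (node (nat_lit 4) (nat_lit 109549) (nat_lit 10) (node (nat_lit 5) (nat_lit 107834) (nat_lit 11)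
  (node (nat_lit 6) (nat_lit 101031) (nat_lit 12) nil nil) nil) nil)) (node (nat_lit 4) (nat_lit
  99885) (nat_lit 9) nil nil)) nil)) (node (nat_lit 5) (nat_lit 110785) (nat_lit 7) (node (nat_lit
  4) (nat_lit 113374) (nat_lit 8) (node (nat_lit 6) (nat_lit 109921) (nat_lit 9) (node (nat_lit 5)
  (nat_lit 106804) (nat_lit 10) nil nil) nil) (node (nat_lit 6) (nat_lit 110654) (nat_lit 8) (node
  (nat_lit 7) (nat_lit 30116) (nat_lit 9) nil (node (nat_lit 5) (nat_lit 108561) (nat_lit 9) nil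
  nil)) nil)) (node (nat_lit 7) (nat_lit 108672) (nat_lit 7) (node (nat_lit 4) (nat_lit 112276)
  (nat_lit 8) (node (nat_lit 6) (nat_lit 109921) (nat_lit 9) (node (nat_lit 7) (nat_lit 111373)
  (nat_lit 10) nil (node (nat_lit 4) (nat_lit 106119) (nat_lit 10) nil nil)) nil) nil) (node
  (nat_lit 0) (nat_lit 110792) (nat_lit 7) nil nil)))) (node (nat_lit 0) (nat_lit 106108) (nat_lit
  6) (node (nat_lit 6) (nat_lit 107236) (nat_lit 7) (node (nat_lit 5) (nat_lit 102723) (nat_lit 8)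
  (node (nat_lit 4) (nat_lit 97872) (nat_lit 9) (node (nat_lit 5) (nat_lit 88410) (nat_lit 10) nil
  nil) nil) (node (nat_lit 7) (nat_lit 108477) (nat_lit 8) nil (node (nat_lit 4) (nat_lit 108477)
  (nat_lit 8) nil nil))) (node (nat_lit 7) (nat_lit 105924) (nat_lit 7) (node (nat_lit 6) (nat_lit
  104213) (nat_lit 8) (node (nat_lit 5) (nat_lit 100076) (nat_lit 9) nil nil) nil) (node (nat_lit
  4) (nat_lit 111103) (nat_lit 7) (node (nat_lit 6) (nat_lit 99106) (nat_lit 8) (node (nat_lit 4)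
  (nat_lit 88589) (nat_lit 9) nil nil) nil) (node (nat_lit 5) (nat_lit 112278) (nat_lit 7) (node
  (nat_lit 6) (nat_lit 104812) (nat_lit 8) nil nil) (node (nat_lit 0) (nat_lit 110345) (nat_lit 7)
  nil nil))))) nil))) (node (nat_lit 5) (nat_lit 0) (nat_lit 5) (node (nat_lit 7) (nat_lit 95667)
  (nat_lit 6) (node (nat_lit 6) (nat_lit 100545) (nat_lit 7) (node (nat_lit 7) (nat_lit 102027)
  (nat_lit 8) (node (nat_lit 5) (nat_lit 106320) (nat_lit 9) (node (nat_lit 6) (nat_lit 107904)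
  (nat_lit 10) (node (nat_lit 5) (nat_lit 108582) (nat_lit 11) (node (nat_lit 7) (nat_lit 109115)
  (nat_lit 12) nil (node (nat_lit 4) (nat_lit 105435) (nat_lit 12) (node (nat_lit 5) (nat_lit
  105345) (nat_lit 13) nil nil) nil)) (node (nat_lit 7) (nat_lit 108491) (nat_lit 11) nil (node
  (nat_lit 4) (nat_lit 105632) (nat_lit 11) (node (nat_lit 5) (nat_lit 104483) (nat_lit 12) (node
  (nat_lit 6) (nat_lit 93337) (nat_lit 13) nil nil) nil) nil))) (node (nat_lit 4) (nat_lit 108896)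
  (nat_lit 10) nil nil)) (node (nat_lit 4) (nat_lit 100762) (nat_lit 9) nil (node (nat_lit 0)
  (nat_lit 102903) (nat_lit 9) nil nil))) (node (nat_lit 5) (nat_lit 102027) (nat_lit 8) (node
  (nat_lit 6) (nat_lit 106496) (nat_lit 9) (node (nat_lit 7) (nat_lit 107281) (nat_lit 10) (node
  (nat_lit 5) (nat_lit 105590) (nat_lit 11) nil nil) nil) (node (nat_lit 4) (nat_lit 100757)
  (nat_lit 9) (node (nat_lit 5) (nat_lit 84894) (nat_lit 10) nil nil) (node (nat_lit 7) (nat_lit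
  102903) (nat_lit 9) nil nil))) (node (nat_lit 4) (nat_lit 111808) (nat_lit 8) nil (node (nat_lit
  0) (nat_lit 102009) (nat_lit 8) nil nil)))) (node (nat_lit 4) (nat_lit 108051) (nat_lit 7) nil
  (node (nat_lit 0) (nat_lit 100785) (nat_lit 7) nil nil))) (node (nat_lit 6) (nat_lit 95667)
  (nat_lit 6) (node (nat_lit 5) (nat_lit 100545) (nat_lit 7) (node (nat_lit 7) (nat_lit 102027)
  (nat_lit 8) (node (nat_lit 6) (nat_lit 106072) (nat_lit 9) (node (nat_lit 5) (nat_lit 105218)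
  (nat_lit 10) (node (nat_lit 4) (nat_lit 100017) (nat_lit 11) nil nil) (node (nat_lit 7) (nat_lit
  106858) (nat_lit 10) nil nil)) (node (nat_lit 4) (nat_lit 100757) (nat_lit 9) nil nil)) (node
  (nat_lit 4) (nat_lit 101067) (nat_lit 8) (node (nat_lit 6) (nat_lit 101943) (nat_lit 9) nil
  (node (nat_lit 5) (nat_lit 85009) (nat_lit 9) (node (nat_lit 6) (nat_lit 69807) (nat_lit 10)
  (node (nat_lit 7) (nat_lit 59575) (nat_lit 11) (node (nat_lit 5) (nat_lit 58292) (nat_lit 12)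
  nil nil) nil) nil) nil)) (node (nat_lit 0) (nat_lit 102009) (nat_lit 8) nil nil))) (node
  (nat_lit 4) (nat_lit 103316) (nat_lit 7) (node (nat_lit 5) (nat_lit 82814) (nat_lit 8) (node
  (nat_lit 6) (nat_lit 49342) (nat_lit 9) (node (nat_lit 7) (nat_lit 29990) (nat_lit 10) nil nil)
  nil) nil) (node (nat_lit 0) (nat_lit 100785) (nat_lit 7) nil nil))) (node (nat_lit 4) (nat_lit
  111332) (nat_lit 6) (node (nat_lit 6) (nat_lit 111733) (nat_lit 7) (node (nat_lit 5) (nat_lit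
  112397) (nat_lit 8) (node (nat_lit 6) (nat_lit 107468) (nat_lit 9) (node (nat_lit 4) (nat_lit
  106832) (nat_lit 10) (node (nat_lit 5) (nat_lit 103703) (nat_lit 11) (node (nat_lit 6) (nat_lit
  97282) (nat_lit 12) nil nil) nil) nil) (node (nat_lit 4) (nat_lit 110817) (nat_lit 9) (node
  (nat_lit 5) (nat_lit 97290) (nat_lit 10) (node (nat_lit 6) (nat_lit 86178) (nat_lit 11) nil nil)
  nil) nil)) (node (nat_lit 4) (nat_lit 115183) (nat_lit 8) (node (nat_lit 5) (nat_lit 107428)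
  (nat_lit 9) (node (nat_lit 6) (nat_lit 91574) (nat_lit 10) (node (nat_lit 7) (nat_lit 35102)
  (nat_lit 11) (node (nat_lit 5) (nat_lit 34035) (nat_lit 12) nil nil) nil) nil) nil) nil)) (node
  (nat_lit 5) (nat_lit 114276) (nat_lit 7) (node (nat_lit 6) (nat_lit 111159) (nat_lit 8) (node
  (nat_lit 7) (nat_lit 64769) (nat_lit 9) nil nil) nil) nil)) (node (nat_lit 0) (nat_lit 105380)
  (nat_lit 6) (node (nat_lit 0) (nat_lit 109618) (nat_lit 7) nil (node (nat_lit 6) (nat_lit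
  106571) (nat_lit 7) nil (node (nat_lit 7) (nat_lit 109618) (nat_lit 7) nil (node (nat_lit 4)
  (nat_lit 103397) (nat_lit 7) nil nil)))) nil)))) (node (nat_lit 4) (nat_lit 0) (nat_lit 5) (node
  (nat_lit 6) (nat_lit 0) (nat_lit 6) (node (nat_lit 4) (nat_lit 89963) (nat_lit 7) (node (nat_lit
  7) (nat_lit 94423) (nat_lit 8) (node (nat_lit 6) (nat_lit 96918) (nat_lit 9) (node (nat_lit 7)
  (nat_lit 99948) (nat_lit 10) (node (nat_lit 4) (nat_lit 98959) (nat_lit 11) (node (nat_lit 6)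
  (nat_lit 99066) (nat_lit 12) nil nil) nil) nil) nil) (node (nat_lit 5) (nat_lit 78668) (nat_lit
  8) (node (nat_lit 6) (nat_lit 67424) (nat_lit 9) (node (nat_lit 7) (nat_lit 32795) (nat_lit 10)
  (node (nat_lit 4) (nat_lit 25638) (nat_lit 11) nil nil) nil) nil) nil)) (node (nat_lit 5)
  (nat_lit 99773) (nat_lit 7) (node (nat_lit 6) (nat_lit 93188) (nat_lit 8) nil (node (nat_lit 4)
  (nat_lit 96131) (nat_lit 8) nil nil)) (node (nat_lit 0) (nat_lit 102214) (nat_lit 7) nil (node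
  (nat_lit 7) (nat_lit 96951) (nat_lit 7) nil nil)))) (node (nat_lit 5) (nat_lit 107217) (nat_lit
  6) (node (nat_lit 6) (nat_lit 113139) (nat_lit 7) (node (nat_lit 4) (nat_lit 114603) (nat_lit 8)
  nil (node (nat_lit 5) (nat_lit 106801) (nat_lit 8) nil nil)) (node (nat_lit 4) (nat_lit 107542)
  (nat_lit 7) nil (node (nat_lit 7) (nat_lit 111207) (nat_lit 7) nil (node (nat_lit 0) (nat_lit
  111207) (nat_lit 7) nil nil)))) (node (nat_lit 7) (nat_lit 101732) (nat_lit 6) (node (nat_lit 6)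
  (nat_lit 108217) (nat_lit 7) (node (nat_lit 7) (nat_lit 110217) (nat_lit 8) (node (nat_lit 4)
  (nat_lit 109209) (nat_lit 9) (node (nat_lit 6) (nat_lit 106385) (nat_lit 10) (node (nat_lit 4)
  (nat_lit 105937) (nat_lit 11) nil nil) nil) nil) nil) nil) (node (nat_lit 0) (nat_lit 105904)
  (nat_lit 6) (node (nat_lit 4) (nat_lit 103921) (nat_lit 7) nil nil) nil)))) (node (nat_lit 0)
  (nat_lit 0) (nat_lit 5) (node (nat_lit 6) (nat_lit 108166) (nat_lit 6) (node (nat_lit 7)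
  (nat_lit 111943) (nat_lit 7) (node (nat_lit 6) (nat_lit 111002) (nat_lit 8) (node (nat_lit 8)
  (nat_lit 111900) (nat_lit 9) (node (nat_lit 6) (nat_lit 110316) (nat_lit 10) nil nil) (node
  (nat_lit 5) (nat_lit 106865) (nat_lit 9) nil nil)) (node (nat_lit 5) (nat_lit 108782) (nat_lit
  8) nil (node (nat_lit 0) (nat_lit 113406) (nat_lit 8) nil nil))) (node (nat_lit 8) (nat_lit
  111943) (nat_lit 7) nil (node (nat_lit 5) (nat_lit 99351) (nat_lit 7) nil nil))) (node (nat_lit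
  7) (nat_lit 108991) (nat_lit 6) (node (nat_lit 6) (nat_lit 107317) (nat_lit 7) (node (nat_lit 7)
  (nat_lit 109882) (nat_lit 8) nil nil) nil) (node (nat_lit 5) (nat_lit 106332) (nat_lit 6) (node
  (nat_lit 6) (nat_lit 91321) (nat_lit 7) nil nil) (node (nat_lit 4) (nat_lit 107808) (nat_lit 6)
  (node (nat_lit 6) (nat_lit 94272) (nat_lit 7) nil nil) (node (nat_lit 0) (nat_lit 105183)
  (nat_lit 6) nil nil))))) nil)))) (node (nat_lit 4) (nat_lit 0) (nat_lit 4) (node (nat_lit 0)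
  (nat_lit 0) (nat_lit 5) (node (nat_lit 6) (nat_lit 0) (nat_lit 6) (node (nat_lit 4) (nat_lit
  53894) (nat_lit 7) (node (nat_lit 6) (nat_lit 56600) (nat_lit 8) (node (nat_lit 8) (nat_lit
  58511) (nat_lit 9) (node (nat_lit 6) (nat_lit 61485) (nat_lit 10) (node (nat_lit 5) (nat_lit
  64495) (nat_lit 11) (node (nat_lit 4) (nat_lit 62055) (nat_lit 12) (node (nat_lit 5) (nat_lit
  61115) (nat_lit 13) (node (nat_lit 6) (nat_lit 60704) (nat_lit 14) nil nil) nil) nil) (node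
  (nat_lit 4) (nat_lit 63197) (nat_lit 11) (node (nat_lit 8) (nat_lit 64358) (nat_lit 12) nil nil)
  (node (nat_lit 0) (nat_lit 62765) (nat_lit 11) nil nil))) (node (nat_lit 4) (nat_lit 61047)
  (nat_lit 10) (node (nat_lit 6) (nat_lit 59772) (nat_lit 11) (node (nat_lit 4) (nat_lit 59491)
  (nat_lit 12) (node (nat_lit 5) (nat_lit 58958) (nat_lit 13) nil nil) nil) (node (nat_lit 8)
  (nat_lit 61725) (nat_lit 11) (node (nat_lit 6) (nat_lit 61060) (nat_lit 12) nil nil) (node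
  (nat_lit 5) (nat_lit 62327) (nat_lit 11) nil nil))) (node (nat_lit 5) (nat_lit 64372) (nat_lit
  10) (node (nat_lit 4) (nat_lit 62680) (nat_lit 11) nil nil) (node (nat_lit 0) (nat_lit 64372)
  (nat_lit 10) nil nil)))) (node (nat_lit 5) (nat_lit 65654) (nat_lit 9) (node (nat_lit 4)
  (nat_lit 66439) (nat_lit 10) (node (nat_lit 6) (nat_lit 63507) (nat_lit 11) (node (nat_lit 4)
  (nat_lit 62649) (nat_lit 12) nil nil) nil) nil) (node (nat_lit 0) (nat_lit 62763) (nat_lit 9)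
  (node (nat_lit 8) (nat_lit 64215) (nat_lit 10) nil (node (nat_lit 4) (nat_lit 61294) (nat_lit
  10) nil nil)) nil))) (node (nat_lit 5) (nat_lit 65688) (nat_lit 8) (node (nat_lit 8) (nat_lit
  66723) (nat_lit 9) (node (nat_lit 6) (nat_lit 67508) (nat_lit 10) nil nil) (node (nat_lit 4)
  (nat_lit 66723) (nat_lit 9) (node (nat_lit 6) (nat_lit 62884) (nat_lit 10) (node (nat_lit 4)
  (nat_lit 61361) (nat_lit 11) nil nil) nil) (node (nat_lit 6) (nat_lit 66297) (nat_lit 9) (node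
  (nat_lit 4) (nat_lit 67508) (nat_lit 10) (node (nat_lit 8) (nat_lit 31518) (nat_lit 11) nil nil)
  nil) nil))) (node (nat_lit 0) (nat_lit 63954) (nat_lit 8) (node (nat_lit 6) (nat_lit 64406)
  (nat_lit 9) nil (node (nat_lit 4) (nat_lit 61364) (nat_lit 9) nil (node (nat_lit 8) (nat_lit
  64989) (nat_lit 9) nil (node (nat_lit 5) (nat_lit 64989) (nat_lit 9) nil (node (nat_lit 0)
  (nat_lit 64989) (nat_lit 9) nil nil))))) nil))) (node (nat_lit 5) (nat_lit 61815) (nat_lit 7)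
  (node (nat_lit 4) (nat_lit 54856) (nat_lit 8) (node (nat_lit 5) (nat_lit 33132) (nat_lit 9)
  (node (nat_lit 6) (nat_lit 15562) (nat_lit 10) (node (nat_lit 4) (nat_lit 9161) (nat_lit 11) nil
  nil) nil) nil) (node (nat_lit 8) (nat_lit 63279) (nat_lit 8) nil nil)) (node (nat_lit 8)
  (nat_lit 53894) (nat_lit 7) (node (nat_lit 4) (nat_lit 56600) (nat_lit 8) nil nil) (node
  (nat_lit 0) (nat_lit 61815) (nat_lit 7) nil nil)))) (node (nat_lit 4) (nat_lit 0) (nat_lit 6)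
  (node (nat_lit 6) (nat_lit 53894) (nat_lit 7) (node (nat_lit 8) (nat_lit 56600) (nat_lit 8)
  (node (nat_lit 6) (nat_lit 58511) (nat_lit 9) (node (nat_lit 4) (nat_lit 61786) (nat_lit 10)
  (node (nat_lit 8) (nat_lit 61047) (nat_lit 11) (node (nat_lit 4) (nat_lit 61265) (nat_lit 12)
  (node (nat_lit 6) (nat_lit 62016) (nat_lit 13) (node (nat_lit 4) (nat_lit 62091) (nat_lit 14)
  nil nil) nil) nil) nil) nil) nil) (node (nat_lit 4) (nat_lit 48124) (nat_lit 8) (node (nat_lit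
  5) (nat_lit 49000) (nat_lit 9) (node (nat_lit 6) (nat_lit 31309) (nat_lit 10) (node (nat_lit 4)
  (nat_lit 29631) (nat_lit 11) nil nil) nil) nil) nil)) (node (nat_lit 5) (nat_lit 61582) (nat_lit
  7) nil (node (nat_lit 0) (nat_lit 58917) (nat_lit 7) nil nil))) (node (nat_lit 5) (nat_lit
  60195) (nat_lit 6) (node (nat_lit 4) (nat_lit 63233) (nat_lit 7) (node (nat_lit 6) (nat_lit
  63053) (nat_lit 8) (node (nat_lit 5) (nat_lit 63160) (nat_lit 9) nil (node (nat_lit 4) (nat_lit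
  51627) (nat_lit 9) nil nil)) (node (nat_lit 5) (nat_lit 64697) (nat_lit 8) nil nil)) (node
  (nat_lit 6) (nat_lit 62902) (nat_lit 7) (node (nat_lit 5) (nat_lit 64365) (nat_lit 8) nil nil)
  (node (nat_lit 8) (nat_lit 62902) (nat_lit 7) nil nil))) (node (nat_lit 0) (nat_lit 58495)
  (nat_lit 6) (node (nat_lit 4) (nat_lit 55614) (nat_lit 7) (node (nat_lit 6) (nat_lit 52093)
  (nat_lit 8) (node (nat_lit 4) (nat_lit 50604) (nat_lit 9) nil nil) nil) (node (nat_lit 5)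
  (nat_lit 61835) (nat_lit 7) nil (node (nat_lit 6) (nat_lit 56820) (nat_lit 7) nil nil))) nil))))
  (node (nat_lit 6) (nat_lit 0) (nat_lit 5) (node (nat_lit 5) (nat_lit 0) (nat_lit 6) (node
  (nat_lit 0) (nat_lit 59417) (nat_lit 7) (node (nat_lit 5) (nat_lit 65726) (nat_lit 8) (node
  (nat_lit 4) (nat_lit 67565) (nat_lit 9) (node (nat_lit 6) (nat_lit 63276) (nat_lit 10) (node
  (nat_lit 5) (nat_lit 63969) (nat_lit 11) nil nil) nil) (node (nat_lit 6) (nat_lit 66608)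
  (nat_lit 9) nil nil)) (node (nat_lit 4) (nat_lit 64749) (nat_lit 8) (node (nat_lit 5) (nat_lit
  66589) (nat_lit 9) nil nil) (node (nat_lit 6) (nat_lit 64749) (nat_lit 8) (node (nat_lit 5)
  (nat_lit 63796) (nat_lit 9) nil nil) (node (nat_lit 0) (nat_lit 64163) (nat_lit 8) nil nil))))
  (node (nat_lit 4) (nat_lit 0) (nat_lit 7) (node (nat_lit 6) (nat_lit 0) (nat_lit 8) (node
  (nat_lit 4) (nat_lit 53785) (nat_lit 9) (node (nat_lit 5) (nat_lit 47502) (nat_lit 10) (node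
  (nat_lit 6) (nat_lit 42617) (nat_lit 11) nil nil) nil) (node (nat_lit 0) (nat_lit 53299)
  (nat_lit 9) nil nil)) (node (nat_lit 0) (nat_lit 55263) (nat_lit 8) (node (nat_lit 4) (nat_lit
  61803) (nat_lit 9) nil (node (nat_lit 5) (nat_lit 58529) (nat_lit 9) nil nil)) nil)) nil)) (node
  (nat_lit 0) (nat_lit 0) (nat_lit 6) (node (nat_lit 5) (nat_lit 60623) (nat_lit 7) (node (nat_lit
  4) (nat_lit 64598) (nat_lit 8) (node (nat_lit 6) (nat_lit 63362) (nat_lit 9) nil nil) nil) (node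
  (nat_lit 4) (nat_lit 48696) (nat_lit 7) (node (nat_lit 6) (nat_lit 53947) (nat_lit 8) (node
  (nat_lit 4) (nat_lit 56200) (nat_lit 9) (node (nat_lit 5) (nat_lit 48950) (nat_lit 10) nil nil)
  nil) (node (nat_lit 9) (nat_lit 54522) (nat_lit 8) nil (node (nat_lit 5) (nat_lit 54522)
  (nat_lit 8) nil nil))) (node (nat_lit 6) (nat_lit 48696) (nat_lit 7) (node (nat_lit 4) (nat_lit
  54522) (nat_lit 8) (node (nat_lit 9) (nat_lit 57788) (nat_lit 9) nil nil) (node (nat_lit 5)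
  (nat_lit 56867) (nat_lit 8) nil nil)) (node (nat_lit 0) (nat_lit 59919) (nat_lit 7) nil nil))))
  nil)) (node (nat_lit 5) (nat_lit 0) (nat_lit 5) (node (nat_lit 4) (nat_lit 0) (nat_lit 6) (node
  (nat_lit 6) (nat_lit 28312) (nat_lit 7) (node (nat_lit 5) (nat_lit 31088) (nat_lit 8) (node
  (nat_lit 6) (nat_lit 33567) (nat_lit 9) (node (nat_lit 4) (nat_lit 36215) (nat_lit 10) (node
  (nat_lit 6) (nat_lit 34982) (nat_lit 11) (node (nat_lit 5) (nat_lit 34756) (nat_lit 12) nil nil)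
  nil) nil) (node (nat_lit 4) (nat_lit 30859) (nat_lit 9) (node (nat_lit 5) (nat_lit 19009)
  (nat_lit 10) nil nil) (node (nat_lit 0) (nat_lit 33150) (nat_lit 9) nil nil))) (node (nat_lit 4)
  (nat_lit 33016) (nat_lit 8) nil (node (nat_lit 0) (nat_lit 35095) (nat_lit 8) nil nil))) (node
  (nat_lit 0) (nat_lit 33422) (nat_lit 7) (node (nat_lit 5) (nat_lit 35594) (nat_lit 8) nil (node
  (nat_lit 6) (nat_lit 31177) (nat_lit 8) nil (node (nat_lit 4) (nat_lit 35594) (nat_lit 8) nil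
  (node (nat_lit 0) (nat_lit 35594) (nat_lit 8) nil nil)))) nil)) (node (nat_lit 0) (nat_lit 0)
  (nat_lit 6) (node (nat_lit 6) (nat_lit 31141) (nat_lit 7) (node (nat_lit 4) (nat_lit 33312)
  (nat_lit 8) nil (node (nat_lit 5) (nat_lit 24384) (nat_lit 8) nil nil)) (node (nat_lit 5)
  (nat_lit 31175) (nat_lit 7) (node (nat_lit 4) (nat_lit 35869) (nat_lit 8) nil nil) (node
  (nat_lit 4) (nat_lit 34900) (nat_lit 7) (node (nat_lit 5) (nat_lit 37071) (nat_lit 8) nil nil)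
  (node (nat_lit 0) (nat_lit 33698) (nat_lit 7) nil nil)))) nil)) nil))) (node (nat_lit 5)
  (nat_lit 0) (nat_lit 4) (node (nat_lit 0) (nat_lit 0) (nat_lit 5) (node (nat_lit 6) (nat_lit 0)
  (nat_lit 6) (node (nat_lit 5) (nat_lit 100440) (nat_lit 7) (node (nat_lit 6) (nat_lit 101768)
  (nat_lit 8) (node (nat_lit 8) (nat_lit 100860) (nat_lit 9) (node (nat_lit 5) (nat_lit 101527)
  (nat_lit 10) (node (nat_lit 6) (nat_lit 99837) (nat_lit 11) (node (nat_lit 4) (nat_lit 100370)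
  (nat_lit 12) (node (nat_lit 5) (nat_lit 100802) (nat_lit 13) (node (nat_lit 6) (nat_lit 100051)
  (nat_lit 14) (node (nat_lit 5) (nat_lit 97471) (nat_lit 15) (node (nat_lit 8) (nat_lit 91506)
  (nat_lit 16) nil nil) nil) nil) nil) nil) nil) (node (nat_lit 6) (nat_lit 101801) (nat_lit 10)
  (node (nat_lit 5) (nat_lit 98653) (nat_lit 11) (node (nat_lit 4) (nat_lit 98503) (nat_lit 12)
  nil nil) nil) nil)) (node (nat_lit 4) (nat_lit 105582) (nat_lit 9) (node (nat_lit 5) (nat_lit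
  106250) (nat_lit 10) (node (nat_lit 6) (nat_lit 87672) (nat_lit 11) (node (nat_lit 5) (nat_lit
  87845) (nat_lit 12) (node (nat_lit 8) (nat_lit 52006) (nat_lit 13) nil nil) nil) nil) nil) (node
  (nat_lit 0) (nat_lit 102644) (nat_lit 9) nil nil))) (node (nat_lit 4) (nat_lit 103264) (nat_lit
  8) (node (nat_lit 5) (nat_lit 81414) (nat_lit 9) (node (nat_lit 6) (nat_lit 81414) (nat_lit 10)
  (node (nat_lit 5) (nat_lit 70017) (nat_lit 11) (node (nat_lit 4) (nat_lit 71305) (nat_lit 12)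
  nil nil) nil) (node (nat_lit 8) (nat_lit 81414) (nat_lit 10) (node (nat_lit 4) (nat_lit 81414)
  (nat_lit 11) nil (node (nat_lit 5) (nat_lit 81414) (nat_lit 11) nil nil)) (node (nat_lit 0)
  (nat_lit 81414) (nat_lit 10) nil nil))) (node (nat_lit 6) (nat_lit 104140) (nat_lit 9) nil nil))
  (node (nat_lit 0) (nat_lit 101768) (nat_lit 8) nil nil))) (node (nat_lit 8) (nat_lit 99465)
  (nat_lit 7) (node (nat_lit 5) (nat_lit 101875) (nat_lit 8) (node (nat_lit 8) (nat_lit 102751)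
  (nat_lit 9) (node (nat_lit 6) (nat_lit 100628) (nat_lit 10) nil nil) (node (nat_lit 6) (nat_lit
  99288) (nat_lit 9) nil nil)) (node (nat_lit 4) (nat_lit 97279) (nat_lit 8) nil nil)) (node
  (nat_lit 4) (nat_lit 107626) (nat_lit 7) nil (node (nat_lit 0) (nat_lit 106442) (nat_lit 7) nil
  nil)))) (node (nat_lit 5) (nat_lit 0) (nat_lit 6) (node (nat_lit 6) (nat_lit 100440) (nat_lit 7)
  (node (nat_lit 8) (nat_lit 101769) (nat_lit 8) (node (nat_lit 6) (nat_lit 103316) (nat_lit 9)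
  (node (nat_lit 5) (nat_lit 101714) (nat_lit 10) nil nil) nil) (node (nat_lit 4) (nat_lit 101769)
  (nat_lit 8) (node (nat_lit 5) (nat_lit 96363) (nat_lit 9) (node (nat_lit 6) (nat_lit 71009)
  (nat_lit 10) (node (nat_lit 5) (nat_lit 44661) (nat_lit 11) nil nil) nil) nil) (node (nat_lit 5)
  (nat_lit 93109) (nat_lit 8) (node (nat_lit 4) (nat_lit 90990) (nat_lit 9) nil nil) nil))) (node
  (nat_lit 4) (nat_lit 104890) (nat_lit 7) (node (nat_lit 6) (nat_lit 100740) (nat_lit 8) nil nil)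
  (node (nat_lit 0) (nat_lit 100567) (nat_lit 7) nil nil))) (node (nat_lit 4) (nat_lit 105682)
  (nat_lit 6) (node (nat_lit 6) (nat_lit 101714) (nat_lit 7) (node (nat_lit 4) (nat_lit 102478)
  (nat_lit 8) (node (nat_lit 5) (nat_lit 84724) (nat_lit 9) (node (nat_lit 6) (nat_lit 67330)
  (nat_lit 10) (node (nat_lit 5) (nat_lit 45557) (nat_lit 11) nil nil) nil) nil) nil) (node
  (nat_lit 5) (nat_lit 107626) (nat_lit 7) nil nil)) (node (nat_lit 0) (nat_lit 104918) (nat_lit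
  6) (node (nat_lit 5) (nat_lit 105941) (nat_lit 7) nil (node (nat_lit 6) (nat_lit 103243)
  (nat_lit 7) nil (node (nat_lit 4) (nat_lit 102935) (nat_lit 7) nil nil))) nil)))) (node (nat_lit
  4) (nat_lit 0) (nat_lit 5) (node (nat_lit 6) (nat_lit 0) (nat_lit 6) (node (nat_lit 4) (nat_lit
  81414) (nat_lit 7) (node (nat_lit 5) (nat_lit 81414) (nat_lit 8) (node (nat_lit 6) (nat_lit
  50473) (nat_lit 9) (node (nat_lit 4) (nat_lit 52352) (nat_lit 10) (node (nat_lit 6) (nat_lit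
  53818) (nat_lit 11) nil nil) nil) nil) (node (nat_lit 0) (nat_lit 81414) (nat_lit 8) nil nil))
  (node (nat_lit 5) (nat_lit 81414) (nat_lit 7) (node (nat_lit 6) (nat_lit 81414) (nat_lit 8)
  (node (nat_lit 4) (nat_lit 81414) (nat_lit 9) (node (nat_lit 5) (nat_lit 78096) (nat_lit 10)
  (node (nat_lit 6) (nat_lit 68233) (nat_lit 11) (node (nat_lit 5) (nat_lit 55513) (nat_lit 12)
  nil nil) nil) nil) nil) nil) (node (nat_lit 0) (nat_lit 81414) (nat_lit 7) nil nil))) (node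
  (nat_lit 0) (nat_lit 81414) (nat_lit 6) (node (nat_lit 4) (nat_lit 81414) (nat_lit 7) (node
  (nat_lit 5) (nat_lit 81414) (nat_lit 8) (node (nat_lit 9) (nat_lit 81414) (nat_lit 9) nil nil)
  nil) (node (nat_lit 6) (nat_lit 81414) (nat_lit 7) (node (nat_lit 5) (nat_lit 81414) (nat_lit 8)
  nil nil) (node (nat_lit 5) (nat_lit 81414) (nat_lit 7) (node (nat_lit 9) (nat_lit 81414)
  (nat_lit 8) nil (node (nat_lit 4) (nat_lit 81414) (nat_lit 8) nil nil)) (node (nat_lit 0)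
  (nat_lit 81414) (nat_lit 7) nil nil)))) (node (nat_lit 5) (nat_lit 0) (nat_lit 6) (node (nat_lit
  0) (nat_lit 62523) (nat_lit 7) (node (nat_lit 5) (nat_lit 61103) (nat_lit 8) nil (node (nat_lit
  6) (nat_lit 66177) (nat_lit 8) nil nil)) (node (nat_lit 6) (nat_lit 0) (nat_lit 7) (node
  (nat_lit 4) (nat_lit 58123) (nat_lit 8) (node (nat_lit 6) (nat_lit 60530) (nat_lit 9) nil nil)
  (node (nat_lit 0) (nat_lit 62453) (nat_lit 8) nil nil)) nil)) nil))) nil)) nil)))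

noncomputable def t334 : Tr :=
  (node (nat_lit 5) (nat_lit 0) (nat_lit 4) (node (nat_lit 3) (nat_lit 0) (nat_lit 5) (node
  (nat_lit 6) (nat_lit 171244) (nat_lit 6) (node (nat_lit 8) (nat_lit 174004) (nat_lit 7) (node
  (nat_lit 5) (nat_lit 175670) (nat_lit 8) (node (nat_lit 6) (nat_lit 174711) (nat_lit 9) (node
  (nat_lit 5) (nat_lit 175535) (nat_lit 10) (node (nat_lit 8) (nat_lit 175046) (nat_lit 11) (node
  (nat_lit 6) (nat_lit 174309) (nat_lit 12) nil nil) nil) (node (nat_lit 8) (nat_lit 173614)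
  (nat_lit 10) (node (nat_lit 4) (nat_lit 172516) (nat_lit 11) nil nil) nil)) nil) (node (nat_lit
  4) (nat_lit 162945) (nat_lit 8) (node (nat_lit 6) (nat_lit 163109) (nat_lit 9) nil (node
  (nat_lit 5) (nat_lit 141996) (nat_lit 9) nil nil)) nil)) (node (nat_lit 4) (nat_lit 164457)
  (nat_lit 7) (node (nat_lit 8) (nat_lit 165412) (nat_lit 8) (node (nat_lit 4) (nat_lit 161731)
  (nat_lit 9) nil nil) (node (nat_lit 5) (nat_lit 147860) (nat_lit 8) (node (nat_lit 6) (nat_lit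
  121826) (nat_lit 9) (node (nat_lit 5) (nat_lit 81726) (nat_lit 10) nil nil) nil) nil)) (node
  (nat_lit 5) (nat_lit 174004) (nat_lit 7) nil nil))) (node (nat_lit 4) (nat_lit 171052) (nat_lit
  6) (node (nat_lit 6) (nat_lit 171176) (nat_lit 7) (node (nat_lit 8) (nat_lit 167744) (nat_lit 8)
  (node (nat_lit 4) (nat_lit 166877) (nat_lit 9) (node (nat_lit 8) (nat_lit 165574) (nat_lit 10)
  nil nil) (node (nat_lit 6) (nat_lit 168122) (nat_lit 9) (node (nat_lit 4) (nat_lit 164745)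
  (nat_lit 10) nil nil) nil)) (node (nat_lit 4) (nat_lit 162892) (nat_lit 8) (node (nat_lit 8)
  (nat_lit 160132) (nat_lit 9) nil nil) nil)) (node (nat_lit 8) (nat_lit 169551) (nat_lit 7) (node
  (nat_lit 6) (nat_lit 165013) (nat_lit 8) nil nil) (node (nat_lit 5) (nat_lit 175771) (nat_lit 7)
  (node (nat_lit 6) (nat_lit 173672) (nat_lit 8) (node (nat_lit 5) (nat_lit 80667) (nat_lit 9) nil
  nil) nil) nil))) (node (nat_lit 5) (nat_lit 171196) (nat_lit 6) (node (nat_lit 6) (nat_lit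
  173119) (nat_lit 7) (node (nat_lit 8) (nat_lit 169687) (nat_lit 8) (node (nat_lit 4) (nat_lit
  162071) (nat_lit 9) nil nil) nil) nil) (node (nat_lit 0) (nat_lit 170403) (nat_lit 6) nil
  nil)))) (node (nat_lit 4) (nat_lit 0) (nat_lit 5) (node (nat_lit 6) (nat_lit 115894) (nat_lit 6)
  (node (nat_lit 4) (nat_lit 135239) (nat_lit 7) (node (nat_lit 5) (nat_lit 147401) (nat_lit 8)
  (node (nat_lit 6) (nat_lit 128634) (nat_lit 9) (node (nat_lit 5) (nat_lit 93817) (nat_lit 10)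
  (node (nat_lit 4) (nat_lit 78534) (nat_lit 11) (node (nat_lit 3) (nat_lit 78373) (nat_lit 12)
  nil nil) nil) (node (nat_lit 4) (nat_lit 128250) (nat_lit 10) nil nil)) nil) (node (nat_lit 3)
  (nat_lit 154277) (nat_lit 8) (node (nat_lit 6) (nat_lit 151605) (nat_lit 9) nil (node (nat_lit
  4) (nat_lit 150871) (nat_lit 9) nil nil)) (node (nat_lit 0) (nat_lit 144843) (nat_lit 8) nil
  nil))) (node (nat_lit 3) (nat_lit 165403) (nat_lit 7) (node (nat_lit 4) (nat_lit 163266)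
  (nat_lit 8) (node (nat_lit 5) (nat_lit 154507) (nat_lit 9) (node (nat_lit 6) (nat_lit 120134)
  (nat_lit 10) (node (nat_lit 5) (nat_lit 84626) (nat_lit 11) (node (nat_lit 4) (nat_lit 77347)
  (nat_lit 12) nil nil) nil) nil) nil) (node (nat_lit 6) (nat_lit 168316) (nat_lit 8) (node
  (nat_lit 4) (nat_lit 157386) (nat_lit 9) nil nil) nil)) (node (nat_lit 5) (nat_lit 137571)
  (nat_lit 7) (node (nat_lit 6) (nat_lit 151226) (nat_lit 8) (node (nat_lit 4) (nat_lit 150719)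
  (nat_lit 9) nil nil) (node (nat_lit 3) (nat_lit 142102) (nat_lit 8) nil nil)) (node (nat_lit 0)
  (nat_lit 155980) (nat_lit 7) nil nil)))) (node (nat_lit 3) (nat_lit 163406) (nat_lit 6) (node
  (nat_lit 6) (nat_lit 166347) (nat_lit 7) (node (nat_lit 4) (nat_lit 160254) (nat_lit 8) (node
  (nat_lit 5) (nat_lit 148956) (nat_lit 9) (node (nat_lit 6) (nat_lit 131288) (nat_lit 10) (node
  (nat_lit 5) (nat_lit 112565) (nat_lit 11) (node (nat_lit 4) (nat_lit 76066) (nat_lit 12) (node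
  (nat_lit 9) (nat_lit 73055) (nat_lit 13) nil nil) nil) nil) nil) (node (nat_lit 6) (nat_lit
  159178) (nat_lit 9) (node (nat_lit 9) (nat_lit 157119) (nat_lit 10) (node (nat_lit 4) (nat_lit
  155011) (nat_lit 11) nil nil) nil) (node (nat_lit 9) (nat_lit 161923) (nat_lit 9) (node (nat_lit
  4) (nat_lit 158853) (nat_lit 10) nil nil) nil))) (node (nat_lit 9) (nat_lit 169403) (nat_lit 8)
  (node (nat_lit 4) (nat_lit 166042) (nat_lit 9) nil nil) nil)) (node (nat_lit 4) (nat_lit 154023)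
  (nat_lit 7) (node (nat_lit 5) (nat_lit 148353) (nat_lit 8) (node (nat_lit 6) (nat_lit 120991)
  (nat_lit 9) (node (nat_lit 5) (nat_lit 82565) (nat_lit 10) (node (nat_lit 4) (nat_lit 77012)
  (nat_lit 11) nil nil) nil) nil) (node (nat_lit 6) (nat_lit 151896) (nat_lit 8) nil nil)) (node
  (nat_lit 5) (nat_lit 170029) (nat_lit 7) nil (node (nat_lit 0) (nat_lit 170029) (nat_lit 7) nil
  nil)))) (node (nat_lit 5) (nat_lit 115814) (nat_lit 6) (node (nat_lit 6) (nat_lit 137584)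
  (nat_lit 7) (node (nat_lit 4) (nat_lit 156688) (nat_lit 8) (node (nat_lit 6) (nat_lit 163195)
  (nat_lit 9) (node (nat_lit 5) (nat_lit 165906) (nat_lit 10) nil nil) (node (nat_lit 3) (nat_lit
  161978) (nat_lit 9) nil (node (nat_lit 5) (nat_lit 160188) (nat_lit 9) nil nil))) (node (nat_lit
  3) (nat_lit 158308) (nat_lit 8) nil (node (nat_lit 0) (nat_lit 147189) (nat_lit 8) nil nil)))
  (node (nat_lit 3) (nat_lit 161566) (nat_lit 7) nil (node (nat_lit 0) (nat_lit 152486) (nat_lit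
  7) nil nil))) (node (nat_lit 0) (nat_lit 163992) (nat_lit 6) (node (nat_lit 4) (nat_lit 157333)
  (nat_lit 7) nil nil) nil)))) (node (nat_lit 0) (nat_lit 0) (nat_lit 5) (node (nat_lit 6)
  (nat_lit 168568) (nat_lit 6) (node (nat_lit 5) (nat_lit 173287) (nat_lit 7) nil (node (nat_lit
  3) (nat_lit 166755) (nat_lit 7) nil nil)) (node (nat_lit 3) (nat_lit 160195) (nat_lit 6) (node
  (nat_lit 6) (nat_lit 159872) (nat_lit 7) nil nil) (node (nat_lit 4) (nat_lit 167247) (nat_lit 6)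
  (node (nat_lit 6) (nat_lit 155943) (nat_lit 7) (node (nat_lit 4) (nat_lit 145735) (nat_lit 8)
  (node (nat_lit 5) (nat_lit 119167) (nat_lit 9) (node (nat_lit 6) (nat_lit 101500) (nat_lit 10)
  (node (nat_lit 5) (nat_lit 80817) (nat_lit 11) (node (nat_lit 8) (nat_lit 78287) (nat_lit 12)
  (node (nat_lit 4) (nat_lit 69550) (nat_lit 13) nil nil) nil) nil) nil) nil) nil) (node (nat_lit
  3) (nat_lit 154638) (nat_lit 7) nil nil)) (node (nat_lit 5) (nat_lit 168568) (nat_lit 6) nil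
  (node (nat_lit 0) (nat_lit 168568) (nat_lit 6) nil nil))))) nil))) (node (nat_lit 3) (nat_lit 0)
  (nat_lit 4) (node (nat_lit 5) (nat_lit 0) (nat_lit 5) (node (nat_lit 7) (nat_lit 0) (nat_lit 6)
  (node (nat_lit 6) (nat_lit 167067) (nat_lit 7) (node (nat_lit 5) (nat_lit 170080) (nat_lit 8)
  nil (node (nat_lit 4) (nat_lit 160593) (nat_lit 8) (node (nat_lit 5) (nat_lit 154040) (nat_lit
  9) (node (nat_lit 6) (nat_lit 135958) (nat_lit 10) (node (nat_lit 7) (nat_lit 95405) (nat_lit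
  11) (node (nat_lit 5) (nat_lit 74692) (nat_lit 12) nil nil) nil) nil) (node (nat_lit 7) (nat_lit
  160992) (nat_lit 9) nil nil)) (node (nat_lit 7) (nat_lit 160788) (nat_lit 8) (node (nat_lit 4)
  (nat_lit 155800) (nat_lit 9) nil nil) nil))) (node (nat_lit 4) (nat_lit 165292) (nat_lit 7)
  (node (nat_lit 6) (nat_lit 163193) (nat_lit 8) (node (nat_lit 4) (nat_lit 148531) (nat_lit 9)
  (node (nat_lit 5) (nat_lit 145137) (nat_lit 10) (node (nat_lit 6) (nat_lit 134091) (nat_lit 11)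
  (node (nat_lit 7) (nat_lit 115242) (nat_lit 12) nil nil) nil) nil) nil) nil) (node (nat_lit 0)
  (nat_lit 165292) (nat_lit 7) nil nil))) (node (nat_lit 6) (nat_lit 0) (nat_lit 6) (node (nat_lit
  5) (nat_lit 167216) (nat_lit 7) (node (nat_lit 7) (nat_lit 171274) (nat_lit 8) (node (nat_lit 5)
  (nat_lit 173402) (nat_lit 9) (node (nat_lit 6) (nat_lit 171792) (nat_lit 10) (node (nat_lit 7)
  (nat_lit 170052) (nat_lit 11) nil nil) nil) (node (nat_lit 6) (nat_lit 163524) (nat_lit 9) nil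
  nil)) (node (nat_lit 4) (nat_lit 160493) (nat_lit 8) nil nil)) (node (nat_lit 4) (nat_lit
  165139) (nat_lit 7) (node (nat_lit 7) (nat_lit 164737) (nat_lit 8) (node (nat_lit 4) (nat_lit
  159749) (nat_lit 9) nil nil) nil) (node (nat_lit 0) (nat_lit 165442) (nat_lit 7) nil nil)))
  (node (nat_lit 4) (nat_lit 160573) (nat_lit 6) (node (nat_lit 7) (nat_lit 163644) (nat_lit 7)
  (node (nat_lit 6) (nat_lit 155677) (nat_lit 8) (node (nat_lit 4) (nat_lit 150306) (nat_lit 9)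
  nil nil) (node (nat_lit 4) (nat_lit 150858) (nat_lit 8) (node (nat_lit 5) (nat_lit 142753)
  (nat_lit 9) (node (nat_lit 6) (nat_lit 121953) (nat_lit 10) (node (nat_lit 7) (nat_lit 92626)
  (nat_lit 11) (node (nat_lit 5) (nat_lit 89617) (nat_lit 12) nil nil) nil) nil) nil) nil)) (node
  (nat_lit 6) (nat_lit 162661) (nat_lit 7) (node (nat_lit 4) (nat_lit 154924) (nat_lit 8) (node
  (nat_lit 5) (nat_lit 135622) (nat_lit 9) (node (nat_lit 6) (nat_lit 117955) (nat_lit 10) (node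
  (nat_lit 7) (nat_lit 74249) (nat_lit 11) (node (nat_lit 5) (nat_lit 73869) (nat_lit 12) nil nil)
  nil) nil) nil) nil) nil)) (node (nat_lit 0) (nat_lit 160722) (nat_lit 6) (node (nat_lit 6)
  (nat_lit 158601) (nat_lit 7) nil (node (nat_lit 7) (nat_lit 159221) (nat_lit 7) nil nil))
  nil)))) (node (nat_lit 4) (nat_lit 0) (nat_lit 5) (node (nat_lit 6) (nat_lit 125221) (nat_lit 6)
  (node (nat_lit 4) (nat_lit 124872) (nat_lit 7) (node (nat_lit 7) (nat_lit 120808) (nat_lit 8)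
  (node (nat_lit 6) (nat_lit 116713) (nat_lit 9) nil nil) (node (nat_lit 5) (nat_lit 114744)
  (nat_lit 8) (node (nat_lit 6) (nat_lit 84932) (nat_lit 9) (node (nat_lit 7) (nat_lit 46337)
  (nat_lit 10) (node (nat_lit 4) (nat_lit 30497) (nat_lit 11) nil nil) nil) nil) nil)) (node
  (nat_lit 5) (nat_lit 128970) (nat_lit 7) (node (nat_lit 6) (nat_lit 131465) (nat_lit 8) nil nil)
  (node (nat_lit 7) (nat_lit 128970) (nat_lit 7) (node (nat_lit 5) (nat_lit 130518) (nat_lit 8)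
  nil (node (nat_lit 6) (nat_lit 130518) (nat_lit 8) nil nil)) nil))) (node (nat_lit 5) (nat_lit
  94125) (nat_lit 6) (node (nat_lit 4) (nat_lit 94015) (nat_lit 7) (node (nat_lit 7) (nat_lit
  90917) (nat_lit 8) (node (nat_lit 4) (nat_lit 86269) (nat_lit 9) nil nil) (node (nat_lit 6)
  (nat_lit 90035) (nat_lit 8) nil nil)) (node (nat_lit 7) (nat_lit 94125) (nat_lit 7) (node
  (nat_lit 6) (nat_lit 90035) (nat_lit 8) nil nil) (node (nat_lit 6) (nat_lit 81155) (nat_lit 7)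
  nil nil))) (node (nat_lit 7) (nat_lit 124953) (nat_lit 6) (node (nat_lit 6) (nat_lit 128970)
  (nat_lit 7) (node (nat_lit 4) (nat_lit 127571) (nat_lit 8) (node (nat_lit 6) (nat_lit 126611)
  (nat_lit 9) (node (nat_lit 7) (nat_lit 125334) (nat_lit 10) (node (nat_lit 4) (nat_lit 123933)
  (nat_lit 11) nil nil) nil) nil) (node (nat_lit 7) (nat_lit 121227) (nat_lit 8) nil nil)) (node
  (nat_lit 5) (nat_lit 128970) (nat_lit 7) (node (nat_lit 6) (nat_lit 125407) (nat_lit 8) nil nil)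
  nil)) (node (nat_lit 0) (nat_lit 122973) (nat_lit 6) nil nil)))) (node (nat_lit 6) (nat_lit 0)
  (nat_lit 5) (node (nat_lit 5) (nat_lit 159764) (nat_lit 6) (node (nat_lit 6) (nat_lit 165693)
  (nat_lit 7) (node (nat_lit 7) (nat_lit 168636) (nat_lit 8) (node (nat_lit 5) (nat_lit 169729)
  (nat_lit 9) nil (node (nat_lit 4) (nat_lit 159665) (nat_lit 9) nil nil)) nil) (node (nat_lit 7)
  (nat_lit 158263) (nat_lit 7) nil (node (nat_lit 4) (nat_lit 162550) (nat_lit 7) (node (nat_lit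
  7) (nat_lit 151646) (nat_lit 8) (node (nat_lit 6) (nat_lit 147551) (nat_lit 9) (node (nat_lit 4)
  (nat_lit 144121) (nat_lit 10) nil nil) nil) nil) nil))) (node (nat_lit 4) (nat_lit 143387)
  (nat_lit 6) (node (nat_lit 7) (nat_lit 153578) (nat_lit 7) (node (nat_lit 5) (nat_lit 156590)
  (nat_lit 8) nil (node (nat_lit 4) (nat_lit 150010) (nat_lit 8) (node (nat_lit 5) (nat_lit
  124508) (nat_lit 9) nil nil) nil)) (node (nat_lit 6) (nat_lit 150690) (nat_lit 7) nil (node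
  (nat_lit 5) (nat_lit 128564) (nat_lit 7) (node (nat_lit 6) (nat_lit 77601) (nat_lit 8) (node
  (nat_lit 7) (nat_lit 72160) (nat_lit 9) nil nil) nil) nil))) (node (nat_lit 0) (nat_lit 154535)
  (nat_lit 6) nil nil))) (node (nat_lit 0) (nat_lit 149758) (nat_lit 5) (node (nat_lit 6) (nat_lit
  148825) (nat_lit 6) nil nil) nil)))) (node (nat_lit 4) (nat_lit 0) (nat_lit 4) (node (nat_lit 5)
  (nat_lit 0) (nat_lit 5) (node (nat_lit 4) (nat_lit 0) (nat_lit 6) (node (nat_lit 6) (nat_lit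
  62317) (nat_lit 7) (node (nat_lit 5) (nat_lit 74959) (nat_lit 8) (node (nat_lit 6) (nat_lit
  72044) (nat_lit 9) nil nil) (node (nat_lit 3) (nat_lit 74623) (nat_lit 8) (node (nat_lit 4)
  (nat_lit 72236) (nat_lit 9) nil nil) (node (nat_lit 4) (nat_lit 72405) (nat_lit 8) nil (node
  (nat_lit 0) (nat_lit 63866) (nat_lit 8) nil nil)))) (node (nat_lit 3) (nat_lit 77587) (nat_lit
  7) (node (nat_lit 4) (nat_lit 73218) (nat_lit 8) nil nil) (node (nat_lit 0) (nat_lit 72816)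
  (nat_lit 7) nil nil))) (node (nat_lit 3) (nat_lit 85516) (nat_lit 6) (node (nat_lit 4) (nat_lit
  87525) (nat_lit 7) (node (nat_lit 6) (nat_lit 83962) (nat_lit 8) (node (nat_lit 9) (nat_lit
  83946) (nat_lit 9) nil nil) nil) (node (nat_lit 6) (nat_lit 82881) (nat_lit 7) (node (nat_lit 9)
  (nat_lit 82204) (nat_lit 8) (node (nat_lit 5) (nat_lit 83031) (nat_lit 9) nil nil) nil) nil))
  (node (nat_lit 0) (nat_lit 81138) (nat_lit 6) (node (nat_lit 6) (nat_lit 76724) (nat_lit 7) nil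
  nil) nil))) (node (nat_lit 3) (nat_lit 153662) (nat_lit 5) (node (nat_lit 6) (nat_lit 155323)
  (nat_lit 6) (node (nat_lit 8) (nat_lit 156551) (nat_lit 7) (node (nat_lit 4) (nat_lit 148628)
  (nat_lit 8) (node (nat_lit 6) (nat_lit 149160) (nat_lit 9) (node (nat_lit 4) (nat_lit 144478)
  (nat_lit 10) nil nil) nil) nil) (node (nat_lit 4) (nat_lit 149808) (nat_lit 7) (node (nat_lit 5)
  (nat_lit 113057) (nat_lit 8) (node (nat_lit 6) (nat_lit 94161) (nat_lit 9) (node (nat_lit 4)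
  (nat_lit 77282) (nat_lit 10) nil nil) nil) nil) nil)) (node (nat_lit 5) (nat_lit 162021)
  (nat_lit 6) nil (node (nat_lit 4) (nat_lit 148907) (nat_lit 6) (node (nat_lit 6) (nat_lit
  149443) (nat_lit 7) (node (nat_lit 8) (nat_lit 146477) (nat_lit 8) (node (nat_lit 6) (nat_lit
  146626) (nat_lit 9) (node (nat_lit 4) (nat_lit 142922) (nat_lit 10) nil nil) nil) (node (nat_lit
  4) (nat_lit 142911) (nat_lit 8) nil nil)) (node (nat_lit 5) (nat_lit 123819) (nat_lit 7) (node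
  (nat_lit 6) (nat_lit 89115) (nat_lit 8) (node (nat_lit 4) (nat_lit 76487) (nat_lit 9) nil nil)
  nil) nil)) nil))) (node (nat_lit 6) (nat_lit 0) (nat_lit 5) (node (nat_lit 3) (nat_lit 158451)
  (nat_lit 6) (node (nat_lit 4) (nat_lit 150279) (nat_lit 7) (node (nat_lit 5) (nat_lit 111356)
  (nat_lit 8) (node (nat_lit 6) (nat_lit 88994) (nat_lit 9) (node (nat_lit 4) (nat_lit 78704)
  (nat_lit 10) (node (nat_lit 6) (nat_lit 79397) (nat_lit 11) nil nil) nil) nil) (node (nat_lit 9)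
  (nat_lit 150408) (nat_lit 8) nil nil)) (node (nat_lit 6) (nat_lit 152291) (nat_lit 7) (node
  (nat_lit 4) (nat_lit 147372) (nat_lit 8) nil nil) nil)) (node (nat_lit 5) (nat_lit 115675)
  (nat_lit 6) (node (nat_lit 6) (nat_lit 133155) (nat_lit 7) (node (nat_lit 4) (nat_lit 144942)
  (nat_lit 8) (node (nat_lit 5) (nat_lit 151056) (nat_lit 9) nil (node (nat_lit 3) (nat_lit
  144491) (nat_lit 9) nil nil)) (node (nat_lit 3) (nat_lit 154314) (nat_lit 8) nil nil)) (node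
  (nat_lit 4) (nat_lit 135567) (nat_lit 7) (node (nat_lit 6) (nat_lit 126287) (nat_lit 8) nil nil)
  (node (nat_lit 3) (nat_lit 151663) (nat_lit 7) (node (nat_lit 4) (nat_lit 151792) (nat_lit 8)
  (node (nat_lit 6) (nat_lit 149349) (nat_lit 9) nil nil) nil) nil))) (node (nat_lit 0) (nat_lit
  135227) (nat_lit 6) nil nil))) (node (nat_lit 0) (nat_lit 157669) (nat_lit 5) nil nil)))) (node
  (nat_lit 0) (nat_lit 0) (nat_lit 4) (node (nat_lit 5) (nat_lit 155833) (nat_lit 5) nil (node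
  (nat_lit 6) (nat_lit 157005) (nat_lit 5) (node (nat_lit 3) (nat_lit 150680) (nat_lit 6) (node
  (nat_lit 4) (nat_lit 134991) (nat_lit 7) nil nil) (node (nat_lit 4) (nat_lit 156073) (nat_lit 6)
  (node (nat_lit 3) (nat_lit 150526) (nat_lit 7) (node (nat_lit 4) (nat_lit 144458) (nat_lit 8)
  nil nil) nil) nil)) (node (nat_lit 4) (nat_lit 145250) (nat_lit 5) (node (nat_lit 6) (nat_lit
  138007) (nat_lit 6) (node (nat_lit 4) (nat_lit 125771) (nat_lit 7) (node (nat_lit 5) (nat_lit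
  109594) (nat_lit 8) nil nil) (node (nat_lit 3) (nat_lit 132461) (nat_lit 7) nil nil)) (node
  (nat_lit 3) (nat_lit 138924) (nat_lit 6) (node (nat_lit 4) (nat_lit 127308) (nat_lit 7) nil nil)
  nil)) (node (nat_lit 3) (nat_lit 157560) (nat_lit 5) (node (nat_lit 6) (nat_lit 150316) (nat_lit
  6) (node (nat_lit 8) (nat_lit 146638) (nat_lit 7) nil (node (nat_lit 4) (nat_lit 138080)
  (nat_lit 7) nil nil)) (node (nat_lit 4) (nat_lit 156990) (nat_lit 6) nil nil)) (node (nat_lit 0)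
  (nat_lit 155833) (nat_lit 5) nil nil))))) nil))))

noncomputable def t335 : Tr :=
  (node (nat_lit 3) (nat_lit 0) (nat_lit 2) (node (nat_lit 0) (nat_lit 0) (nat_lit 3) (node
  (nat_lit 3) (nat_lit 0) (nat_lit 4) t331 t332) (node (nat_lit 3) (nat_lit 0) (nat_lit 3) t333
  (node (nat_lit 4) (nat_lit 0) (nat_lit 3) (node (nat_lit 0) (nat_lit 0) (nat_lit 4) (node
  (nat_lit 4) (nat_lit 0) (nat_lit 5) (node (nat_lit 5) (nat_lit 60832) (nat_lit 6) (node (nat_lit
  7) (nat_lit 62973) (nat_lit 7) (node (nat_lit 4) (nat_lit 75310) (nat_lit 8) (node (nat_lit 7)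
  (nat_lit 81428) (nat_lit 9) (node (nat_lit 5) (nat_lit 84131) (nat_lit 10) (node (nat_lit 4)
  (nat_lit 81829) (nat_lit 11) (node (nat_lit 5) (nat_lit 82682) (nat_lit 12) nil (node (nat_lit
  3) (nat_lit 79437) (nat_lit 12) (node (nat_lit 4) (nat_lit 78642) (nat_lit 13) nil nil) nil))
  (node (nat_lit 7) (nat_lit 84131) (nat_lit 11) nil (node (nat_lit 3) (nat_lit 84131) (nat_lit
  11) nil nil))) (node (nat_lit 3) (nat_lit 82187) (nat_lit 10) nil nil)) (node (nat_lit 3)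
  (nat_lit 83290) (nat_lit 9) (node (nat_lit 4) (nat_lit 80178) (nat_lit 10) (node (nat_lit 5)
  (nat_lit 78974) (nat_lit 11) (node (nat_lit 4) (nat_lit 70290) (nat_lit 12) (node (nat_lit 7)
  (nat_lit 59453) (nat_lit 13) nil nil) nil) nil) nil) (node (nat_lit 0) (nat_lit 81915) (nat_lit
  9) nil nil))) (node (nat_lit 5) (nat_lit 75073) (nat_lit 8) (node (nat_lit 4) (nat_lit 79305)
  (nat_lit 9) (node (nat_lit 7) (nat_lit 78008) (nat_lit 10) nil (node (nat_lit 3) (nat_lit 75647)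
  (nat_lit 10) nil nil)) (node (nat_lit 3) (nat_lit 81583) (nat_lit 9) nil (node (nat_lit 0)
  (nat_lit 76072) (nat_lit 9) nil nil))) (node (nat_lit 3) (nat_lit 81734) (nat_lit 8) nil (node
  (nat_lit 0) (nat_lit 81734) (nat_lit 8) nil nil)))) (node (nat_lit 3) (nat_lit 81926) (nat_lit
  7) (node (nat_lit 4) (nat_lit 79246) (nat_lit 8) (node (nat_lit 5) (nat_lit 70368) (nat_lit 9)
  (node (nat_lit 4) (nat_lit 59490) (nat_lit 10) nil nil) (node (nat_lit 10) (nat_lit 80245)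
  (nat_lit 9) nil nil)) (node (nat_lit 5) (nat_lit 83339) (nat_lit 8) (node (nat_lit 4) (nat_lit
  80603) (nat_lit 9) (node (nat_lit 10) (nat_lit 80680) (nat_lit 10) (node (nat_lit 4) (nat_lit
  79390) (nat_lit 11) (node (nat_lit 5) (nat_lit 78230) (nat_lit 12) nil nil) nil) nil) nil) (node
  (nat_lit 0) (nat_lit 83339) (nat_lit 8) nil (node (nat_lit 7) (nat_lit 83339) (nat_lit 8) nil
  nil)))) (node (nat_lit 4) (nat_lit 63045) (nat_lit 7) (node (nat_lit 3) (nat_lit 81821) (nat_lit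
  8) (node (nat_lit 4) (nat_lit 74861) (nat_lit 9) nil nil) (node (nat_lit 0) (nat_lit 81022)
  (nat_lit 8) nil nil)) (node (nat_lit 0) (nat_lit 83388) (nat_lit 7) nil nil)))) (node (nat_lit
  3) (nat_lit 84131) (nat_lit 6) (node (nat_lit 4) (nat_lit 74208) (nat_lit 7) (node (nat_lit 7)
  (nat_lit 75621) (nat_lit 8) (node (nat_lit 9) (nat_lit 76620) (nat_lit 9) (node (nat_lit 7)
  (nat_lit 77379) (nat_lit 10) (node (nat_lit 4) (nat_lit 78046) (nat_lit 11) (node (nat_lit 9)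
  (nat_lit 78652) (nat_lit 12) (node (nat_lit 7) (nat_lit 79144) (nat_lit 13) nil (node (nat_lit
  4) (nat_lit 79144) (nat_lit 13) (node (nat_lit 5) (nat_lit 79526) (nat_lit 14) (node (nat_lit 4)
  (nat_lit 79808) (nat_lit 15) nil nil) nil) nil)) nil) nil) (node (nat_lit 4) (nat_lit 77379)
  (nat_lit 10) (node (nat_lit 9) (nat_lit 78046) (nat_lit 11) nil nil) nil)) (node (nat_lit 5)
  (nat_lit 76620) (nat_lit 9) nil (node (nat_lit 0) (nat_lit 76620) (nat_lit 9) nil nil))) (node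
  (nat_lit 5) (nat_lit 73124) (nat_lit 8) (node (nat_lit 4) (nat_lit 21908) (nat_lit 9) (node
  (nat_lit 9) (nat_lit 21811) (nat_lit 10) nil nil) nil) (node (nat_lit 0) (nat_lit 75621)
  (nat_lit 8) nil nil))) (node (nat_lit 5) (nat_lit 84131) (nat_lit 7) (node (nat_lit 9) (nat_lit
  84131) (nat_lit 8) (node (nat_lit 4) (nat_lit 83850) (nat_lit 9) (node (nat_lit 5) (nat_lit
  78424) (nat_lit 10) (node (nat_lit 4) (nat_lit 66042) (nat_lit 11) (node (nat_lit 7) (nat_lit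
  29502) (nat_lit 12) nil nil) nil) nil) nil) (node (nat_lit 4) (nat_lit 84131) (nat_lit 8) (node
  (nat_lit 9) (nat_lit 83992) (nat_lit 9) (node (nat_lit 4) (nat_lit 82003) (nat_lit 10) nil nil)
  nil) nil)) (node (nat_lit 7) (nat_lit 84131) (nat_lit 7) (node (nat_lit 9) (nat_lit 84131)
  (nat_lit 8) nil nil) (node (nat_lit 0) (nat_lit 84131) (nat_lit 7) nil nil)))) (node (nat_lit 0)
  (nat_lit 84131) (nat_lit 6) (node (nat_lit 4) (nat_lit 84131) (nat_lit 7) (node (nat_lit 5)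
  (nat_lit 83629) (nat_lit 8) (node (nat_lit 3) (nat_lit 83479) (nat_lit 9) nil nil) (node
  (nat_lit 3) (nat_lit 83043) (nat_lit 8) (node (nat_lit 4) (nat_lit 79754) (nat_lit 9) nil nil)
  (node (nat_lit 7) (nat_lit 84131) (nat_lit 8) nil nil))) (node (nat_lit 7) (nat_lit 84131)
  (nat_lit 7) (node (nat_lit 4) (nat_lit 84131) (nat_lit 8) nil nil) (node (nat_lit 3) (nat_lit
  84131) (nat_lit 7) nil (node (nat_lit 5) (nat_lit 84131) (nat_lit 7) (node (nat_lit 3) (nat_lit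
  84131) (nat_lit 8) nil nil) (node (nat_lit 0) (nat_lit 84131) (nat_lit 7) nil nil))))) nil)))
  (node (nat_lit 5) (nat_lit 0) (nat_lit 5) (node (nat_lit 7) (nat_lit 60893) (nat_lit 6) (node
  (nat_lit 4) (nat_lit 63179) (nat_lit 7) (node (nat_lit 7) (nat_lit 77779) (nat_lit 8) (node
  (nat_lit 5) (nat_lit 84045) (nat_lit 9) (node (nat_lit 4) (nat_lit 82008) (nat_lit 10) (node
  (nat_lit 5) (nat_lit 80221) (nat_lit 11) (node (nat_lit 7) (nat_lit 80827) (nat_lit 12) nil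
  (node (nat_lit 3) (nat_lit 80284) (nat_lit 12) (node (nat_lit 4) (nat_lit 79431) (nat_lit 13)
  nil nil) nil)) (node (nat_lit 7) (nat_lit 82676) (nat_lit 11) nil (node (nat_lit 3) (nat_lit
  82010) (nat_lit 11) (node (nat_lit 4) (nat_lit 80548) (nat_lit 12) nil nil) nil))) (node
  (nat_lit 3) (nat_lit 80599) (nat_lit 10) (node (nat_lit 4) (nat_lit 79242) (nat_lit 11) (node
  (nat_lit 5) (nat_lit 77229) (nat_lit 12) (node (nat_lit 4) (nat_lit 73599) (nat_lit 13) (node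
  (nat_lit 7) (nat_lit 67843) (nat_lit 14) (node (nat_lit 5) (nat_lit 57396) (nat_lit 15) (node
  (nat_lit 7) (nat_lit 39973) (nat_lit 16) (node (nat_lit 4) (nat_lit 12572) (nat_lit 17) nil nil)
  nil) nil) nil) nil) nil) nil) (node (nat_lit 0) (nat_lit 84131) (nat_lit 10) nil nil))) (node
  (nat_lit 3) (nat_lit 78778) (nat_lit 9) nil (node (nat_lit 0) (nat_lit 78778) (nat_lit 9) nil
  nil))) (node (nat_lit 5) (nat_lit 78059) (nat_lit 8) (node (nat_lit 4) (nat_lit 81228) (nat_lit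
  9) (node (nat_lit 7) (nat_lit 81986) (nat_lit 10) nil nil) (node (nat_lit 3) (nat_lit 83273)
  (nat_lit 9) nil (node (nat_lit 7) (nat_lit 79059) (nat_lit 9) nil nil))) (node (nat_lit 3)
  (nat_lit 80586) (nat_lit 8) nil (node (nat_lit 0) (nat_lit 64591) (nat_lit 8) nil nil)))) (node
  (nat_lit 3) (nat_lit 83462) (nat_lit 7) nil (node (nat_lit 0) (nat_lit 83462) (nat_lit 7) nil
  nil))) (node (nat_lit 4) (nat_lit 60861) (nat_lit 6) (node (nat_lit 5) (nat_lit 63089) (nat_lit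
  7) (node (nat_lit 7) (nat_lit 76509) (nat_lit 8) (node (nat_lit 4) (nat_lit 82659) (nat_lit 9)
  (node (nat_lit 5) (nat_lit 80410) (nat_lit 10) nil (node (nat_lit 7) (nat_lit 83083) (nat_lit
  10) (node (nat_lit 5) (nat_lit 81296) (nat_lit 11) nil nil) nil)) (node (nat_lit 3) (nat_lit
  77508) (nat_lit 9) nil (node (nat_lit 0) (nat_lit 77508) (nat_lit 9) nil nil))) (node (nat_lit
  3) (nat_lit 82649) (nat_lit 8) (node (nat_lit 4) (nat_lit 70865) (nat_lit 9) (node (nat_lit 5)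
  (nat_lit 65432) (nat_lit 10) (node (nat_lit 4) (nat_lit 54964) (nat_lit 11) (node (nat_lit 7)
  (nat_lit 39099) (nat_lit 12) (node (nat_lit 5) (nat_lit 16775) (nat_lit 13) nil nil) nil) nil)
  nil) nil) (node (nat_lit 0) (nat_lit 81066) (nat_lit 8) nil nil))) (node (nat_lit 3) (nat_lit
  84131) (nat_lit 7) (node (nat_lit 4) (nat_lit 73040) (nat_lit 8) (node (nat_lit 5) (nat_lit
  62711) (nat_lit 9) (node (nat_lit 4) (nat_lit 34243) (nat_lit 10) nil nil) nil) nil) (node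
  (nat_lit 0) (nat_lit 83388) (nat_lit 7) nil nil))) (node (nat_lit 3) (nat_lit 84131) (nat_lit 6)
  (node (nat_lit 4) (nat_lit 80779) (nat_lit 7) (node (nat_lit 5) (nat_lit 66761) (nat_lit 8)
  (node (nat_lit 4) (nat_lit 28185) (nat_lit 9) nil (node (nat_lit 9) (nat_lit 67516) (nat_lit 9)
  nil nil)) nil) (node (nat_lit 5) (nat_lit 84131) (nat_lit 7) nil nil)) (node (nat_lit 0)
  (nat_lit 83481) (nat_lit 6) nil nil)))) (node (nat_lit 3) (nat_lit 0) (nat_lit 5) (node (nat_lit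
  4) (nat_lit 84131) (nat_lit 6) (node (nat_lit 8) (nat_lit 84131) (nat_lit 7) nil (node (nat_lit
  5) (nat_lit 84131) (nat_lit 7) (node (nat_lit 4) (nat_lit 84131) (nat_lit 8) nil nil) nil))
  (node (nat_lit 5) (nat_lit 84131) (nat_lit 6) (node (nat_lit 4) (nat_lit 80407) (nat_lit 7)
  (node (nat_lit 8) (nat_lit 80054) (nat_lit 8) nil nil) (node (nat_lit 8) (nat_lit 83787)
  (nat_lit 7) nil nil)) (node (nat_lit 7) (nat_lit 84131) (nat_lit 6) nil (node (nat_lit 0)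
  (nat_lit 84131) (nat_lit 6) nil nil)))) (node (nat_lit 0) (nat_lit 84131) (nat_lit 5) (node
  (nat_lit 4) (nat_lit 81734) (nat_lit 6) (node (nat_lit 7) (nat_lit 83947) (nat_lit 7) (node
  (nat_lit 4) (nat_lit 80596) (nat_lit 8) (node (nat_lit 8) (nat_lit 81596) (nat_lit 9) nil (node
  (nat_lit 3) (nat_lit 80447) (nat_lit 9) nil nil)) nil) (node (nat_lit 3) (nat_lit 80657)
  (nat_lit 7) nil nil)) (node (nat_lit 7) (nat_lit 84131) (nat_lit 6) (node (nat_lit 4) (nat_lit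
  84131) (nat_lit 7) nil nil) (node (nat_lit 5) (nat_lit 81734) (nat_lit 6) nil (node (nat_lit 3)
  (nat_lit 84131) (nat_lit 6) nil nil)))) nil)))) (node (nat_lit 3) (nat_lit 0) (nat_lit 4) (node
  (nat_lit 0) (nat_lit 0) (nat_lit 5) (node (nat_lit 4) (nat_lit 0) (nat_lit 6) (node (nat_lit 7)
  (nat_lit 84131) (nat_lit 7) (node (nat_lit 4) (nat_lit 84131) (nat_lit 8) (node (nat_lit 8)
  (nat_lit 84131) (nat_lit 9) (node (nat_lit 4) (nat_lit 84131) (nat_lit 10) (node (nat_lit 7)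
  (nat_lit 84131) (nat_lit 11) (node (nat_lit 8) (nat_lit 84131) (nat_lit 12) nil nil) (node
  (nat_lit 5) (nat_lit 84131) (nat_lit 11) (node (nat_lit 7) (nat_lit 84131) (nat_lit 12) (node
  (nat_lit 4) (nat_lit 84131) (nat_lit 13) nil nil) nil) (node (nat_lit 0) (nat_lit 84131)
  (nat_lit 11) nil nil))) (node (nat_lit 7) (nat_lit 84131) (nat_lit 10) (node (nat_lit 8)
  (nat_lit 84131) (nat_lit 11) (node (nat_lit 4) (nat_lit 84131) (nat_lit 12) (node (nat_lit 7)
  (nat_lit 84131) (nat_lit 13) (node (nat_lit 4) (nat_lit 84131) (nat_lit 14) nil nil) nil) nil)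
  nil) (node (nat_lit 5) (nat_lit 84131) (nat_lit 10) (node (nat_lit 7) (nat_lit 84131) (nat_lit
  11) nil nil) (node (nat_lit 0) (nat_lit 84131) (nat_lit 10) nil nil)))) (node (nat_lit 5)
  (nat_lit 75448) (nat_lit 9) (node (nat_lit 4) (nat_lit 55659) (nat_lit 10) (node (nat_lit 7)
  (nat_lit 43333) (nat_lit 11) nil nil) (node (nat_lit 7) (nat_lit 76206) (nat_lit 10) nil (node
  (nat_lit 8) (nat_lit 76206) (nat_lit 10) nil nil))) (node (nat_lit 0) (nat_lit 84131) (nat_lit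
  9) (node (nat_lit 8) (nat_lit 84131) (nat_lit 10) nil nil) nil))) (node (nat_lit 5) (nat_lit
  84131) (nat_lit 8) (node (nat_lit 8) (nat_lit 84131) (nat_lit 9) (node (nat_lit 4) (nat_lit
  84131) (nat_lit 10) nil (node (nat_lit 7) (nat_lit 84131) (nat_lit 10) nil nil)) (node (nat_lit
  7) (nat_lit 84131) (nat_lit 9) (node (nat_lit 4) (nat_lit 84131) (nat_lit 10) nil nil) nil))
  (node (nat_lit 0) (nat_lit 84131) (nat_lit 8) (node (nat_lit 4) (nat_lit 84131) (nat_lit 9) nil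
  nil) nil))) (node (nat_lit 5) (nat_lit 84131) (nat_lit 7) (node (nat_lit 7) (nat_lit 84131)
  (nat_lit 8) (node (nat_lit 5) (nat_lit 84131) (nat_lit 9) nil nil) nil) (node (nat_lit 8)
  (nat_lit 84131) (nat_lit 7) (node (nat_lit 7) (nat_lit 84131) (nat_lit 8) nil nil) (node
  (nat_lit 0) (nat_lit 84131) (nat_lit 7) nil nil)))) (node (nat_lit 7) (nat_lit 84131) (nat_lit
  6) (node (nat_lit 4) (nat_lit 84131) (nat_lit 7) (node (nat_lit 8) (nat_lit 84131) (nat_lit 8)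
  (node (nat_lit 4) (nat_lit 84131) (nat_lit 9) (node (nat_lit 7) (nat_lit 84131) (nat_lit 10) nil
  nil) nil) (node (nat_lit 7) (nat_lit 84131) (nat_lit 8) nil nil)) nil) (node (nat_lit 5)
  (nat_lit 84131) (nat_lit 6) (node (nat_lit 7) (nat_lit 84131) (nat_lit 7) (node (nat_lit 4)
  (nat_lit 79671) (nat_lit 8) (node (nat_lit 5) (nat_lit 69678) (nat_lit 9) (node (nat_lit 4)
  (nat_lit 45421) (nat_lit 10) (node (nat_lit 7) (nat_lit 21737) (nat_lit 11) nil nil) nil) nil)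
  (node (nat_lit 5) (nat_lit 84131) (nat_lit 8) nil nil)) (node (nat_lit 4) (nat_lit 83568)
  (nat_lit 7) nil nil)) (node (nat_lit 0) (nat_lit 82096) (nat_lit 6) (node (nat_lit 7) (nat_lit
  84131) (nat_lit 7) nil (node (nat_lit 5) (nat_lit 77934) (nat_lit 7) nil nil)) nil)))) (node
  (nat_lit 5) (nat_lit 0) (nat_lit 5) (node (nat_lit 7) (nat_lit 0) (nat_lit 6) (node (nat_lit 4)
  (nat_lit 78968) (nat_lit 7) (node (nat_lit 5) (nat_lit 61274) (nat_lit 8) (node (nat_lit 4)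
  (nat_lit 55268) (nat_lit 9) (node (nat_lit 7) (nat_lit 12427) (nat_lit 10) (node (nat_lit 4)
  (nat_lit 14321) (nat_lit 11) (node (nat_lit 5) (nat_lit 16555) (nat_lit 12) nil nil) nil) nil)
  (node (nat_lit 7) (nat_lit 68116) (nat_lit 9) (node (nat_lit 5) (nat_lit 70067) (nat_lit 10) nil
  nil) (node (nat_lit 0) (nat_lit 63772) (nat_lit 9) nil nil))) (node (nat_lit 7) (nat_lit 82169)
  (nat_lit 8) nil (node (nat_lit 0) (nat_lit 84131) (nat_lit 8) nil nil))) (node (nat_lit 0)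
  (nat_lit 84131) (nat_lit 7) (node (nat_lit 5) (nat_lit 84131) (nat_lit 8) nil (node (nat_lit 4)
  (nat_lit 84131) (nat_lit 8) nil (node (nat_lit 7) (nat_lit 84131) (nat_lit 8) nil (node (nat_lit
  0) (nat_lit 84131) (nat_lit 8) nil nil)))) nil)) (node (nat_lit 0) (nat_lit 0) (nat_lit 6) (node
  (nat_lit 4) (nat_lit 81614) (nat_lit 7) (node (nat_lit 7) (nat_lit 83623) (nat_lit 8) (node
  (nat_lit 4) (nat_lit 80797) (nat_lit 9) nil nil) nil) (node (nat_lit 5) (nat_lit 81044) (nat_lit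
  7) (node (nat_lit 7) (nat_lit 83054) (nat_lit 8) nil nil) (node (nat_lit 7) (nat_lit 84131)
  (nat_lit 7) (node (nat_lit 5) (nat_lit 84131) (nat_lit 8) nil nil) (node (nat_lit 0) (nat_lit
  84131) (nat_lit 7) nil nil)))) (node (nat_lit 4) (nat_lit 0) (nat_lit 6) (node (nat_lit 5)
  (nat_lit 80986) (nat_lit 7) (node (nat_lit 7) (nat_lit 84131) (nat_lit 8) (node (nat_lit 4)
  (nat_lit 84131) (nat_lit 9) (node (nat_lit 5) (nat_lit 84131) (nat_lit 10) (node (nat_lit 4)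
  (nat_lit 59270) (nat_lit 11) (node (nat_lit 7) (nat_lit 43793) (nat_lit 12) (node (nat_lit 5)
  (nat_lit 21768) (nat_lit 13) nil nil) nil) nil) nil) nil) (node (nat_lit 0) (nat_lit 84131)
  (nat_lit 8) nil nil)) (node (nat_lit 0) (nat_lit 84131) (nat_lit 7) nil nil)) nil))) (node
  (nat_lit 4) (nat_lit 0) (nat_lit 5) (node (nat_lit 0) (nat_lit 0) (nat_lit 6) (node (nat_lit 5)
  (nat_lit 40721) (nat_lit 7) (node (nat_lit 7) (nat_lit 45549) (nat_lit 8) (node (nat_lit 4)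
  (nat_lit 42454) (nat_lit 9) (node (nat_lit 5) (nat_lit 37032) (nat_lit 10) (node (nat_lit 4)
  (nat_lit 18152) (nat_lit 11) nil nil) nil) nil) nil) (node (nat_lit 7) (nat_lit 40872) (nat_lit
  7) (node (nat_lit 4) (nat_lit 45582) (nat_lit 8) nil (node (nat_lit 9) (nat_lit 44352) (nat_lit
  8) nil nil)) (node (nat_lit 4) (nat_lit 40721) (nat_lit 7) (node (nat_lit 7) (nat_lit 45613)
  (nat_lit 8) nil nil) (node (nat_lit 0) (nat_lit 38045) (nat_lit 7) nil nil)))) nil) nil))) nil))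
  nil))) (node (nat_lit 0) (nat_lit 0) (nat_lit 2) (node (nat_lit 3) (nat_lit 0) (nat_lit 3) t334
  (node (nat_lit 4) (nat_lit 0) (nat_lit 3) (node (nat_lit 3) (nat_lit 0) (nat_lit 4) (node
  (nat_lit 5) (nat_lit 0) (nat_lit 5) (node (nat_lit 7) (nat_lit 0) (nat_lit 6) (node (nat_lit 4)
  (nat_lit 139954) (nat_lit 7) (node (nat_lit 5) (nat_lit 150200) (nat_lit 8) (node (nat_lit 4)
  (nat_lit 145678) (nat_lit 9) (node (nat_lit 7) (nat_lit 145248) (nat_lit 10) (node (nat_lit 5)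
  (nat_lit 66071) (nat_lit 11) nil nil) nil) nil) (node (nat_lit 3) (nat_lit 148659) (nat_lit 8)
  (node (nat_lit 7) (nat_lit 147021) (nat_lit 9) (node (nat_lit 4) (nat_lit 145526) (nat_lit 10)
  nil nil) nil) (node (nat_lit 7) (nat_lit 139805) (nat_lit 8) (node (nat_lit 3) (nat_lit 137870)
  (nat_lit 9) (node (nat_lit 4) (nat_lit 134066) (nat_lit 10) nil nil) nil) nil))) (node (nat_lit
  3) (nat_lit 147435) (nat_lit 7) (node (nat_lit 4) (nat_lit 137952) (nat_lit 8) nil nil) (node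
  (nat_lit 0) (nat_lit 157101) (nat_lit 7) nil nil))) (node (nat_lit 4) (nat_lit 0) (nat_lit 6)
  (node (nat_lit 5) (nat_lit 138153) (nat_lit 7) (node (nat_lit 7) (nat_lit 149418) (nat_lit 8)
  (node (nat_lit 5) (nat_lit 152916) (nat_lit 9) (node (nat_lit 4) (nat_lit 149120) (nat_lit 10)
  (node (nat_lit 7) (nat_lit 148678) (nat_lit 11) (node (nat_lit 4) (nat_lit 147103) (nat_lit 12)
  (node (nat_lit 5) (nat_lit 147154) (nat_lit 13) (node (nat_lit 4) (nat_lit 143201) (nat_lit 14)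
  (node (nat_lit 7) (nat_lit 140403) (nat_lit 15) (node (nat_lit 5) (nat_lit 134916) (nat_lit 16)
  (node (nat_lit 4) (nat_lit 125051) (nat_lit 17) (node (nat_lit 5) (nat_lit 104677) (nat_lit 18)
  (node (nat_lit 7) (nat_lit 85683) (nat_lit 19) nil nil) nil) nil) nil) nil) nil) nil) nil) nil)
  nil) nil) (node (nat_lit 3) (nat_lit 142992) (nat_lit 8) nil nil)) (node (nat_lit 3) (nat_lit
  148857) (nat_lit 7) (node (nat_lit 7) (nat_lit 147516) (nat_lit 8) (node (nat_lit 10) (nat_lit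
  149182) (nat_lit 9) (node (nat_lit 4) (nat_lit 144680) (nat_lit 10) nil nil) nil) (node (nat_lit
  4) (nat_lit 129581) (nat_lit 8) (node (nat_lit 5) (nat_lit 121067) (nat_lit 9) nil nil) nil))
  (node (nat_lit 0) (nat_lit 154708) (nat_lit 7) nil nil))) (node (nat_lit 3) (nat_lit 141673)
  (nat_lit 6) (node (nat_lit 7) (nat_lit 139156) (nat_lit 7) (node (nat_lit 4) (nat_lit 131965)
  (nat_lit 8) (node (nat_lit 5) (nat_lit 124547) (nat_lit 9) (node (nat_lit 4) (nat_lit 100863)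
  (nat_lit 10) (node (nat_lit 7) (nat_lit 75395) (nat_lit 11) (node (nat_lit 5) (nat_lit 71852)
  (nat_lit 12) nil nil) nil) nil) nil) nil) nil) (node (nat_lit 0) (nat_lit 138157) (nat_lit 6)
  nil nil)))) (node (nat_lit 3) (nat_lit 146863) (nat_lit 5) (node (nat_lit 5) (nat_lit 152088)
  (nat_lit 6) nil (node (nat_lit 4) (nat_lit 150955) (nat_lit 6) (node (nat_lit 8) (nat_lit
  149127) (nat_lit 7) (node (nat_lit 7) (nat_lit 146487) (nat_lit 8) (node (nat_lit 4) (nat_lit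
  139554) (nat_lit 9) nil nil) nil) (node (nat_lit 7) (nat_lit 144532) (nat_lit 7) (node (nat_lit
  4) (nat_lit 135156) (nat_lit 8) nil nil) (node (nat_lit 5) (nat_lit 127367) (nat_lit 7) (node
  (nat_lit 4) (nat_lit 79382) (nat_lit 8) (node (nat_lit 7) (nat_lit 63023) (nat_lit 9) nil (node
  (nat_lit 8) (nat_lit 76647) (nat_lit 9) nil nil)) nil) nil))) (node (nat_lit 7) (nat_lit 148932)
  (nat_lit 6) (node (nat_lit 4) (nat_lit 142634) (nat_lit 7) (node (nat_lit 8) (nat_lit 142831)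
  (nat_lit 8) (node (nat_lit 4) (nat_lit 138948) (nat_lit 9) (node (nat_lit 7) (nat_lit 137797)
  (nat_lit 10) nil nil) nil) (node (nat_lit 5) (nat_lit 122570) (nat_lit 8) (node (nat_lit 4)
  (nat_lit 84078) (nat_lit 9) (node (nat_lit 7) (nat_lit 73901) (nat_lit 10) nil nil) nil) nil))
  nil) nil))) (node (nat_lit 4) (nat_lit 0) (nat_lit 5) (node (nat_lit 3) (nat_lit 129267)
  (nat_lit 6) (node (nat_lit 7) (nat_lit 130225) (nat_lit 7) (node (nat_lit 5) (nat_lit 133127)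
  (nat_lit 8) nil (node (nat_lit 9) (nat_lit 132230) (nat_lit 8) nil nil)) (node (nat_lit 4)
  (nat_lit 127509) (nat_lit 7) (node (nat_lit 5) (nat_lit 98619) (nat_lit 8) (node (nat_lit 4)
  (nat_lit 52981) (nat_lit 9) (node (nat_lit 7) (nat_lit 52770) (nat_lit 10) (node (nat_lit 4)
  (nat_lit 35805) (nat_lit 11) nil nil) nil) nil) (node (nat_lit 7) (nat_lit 126571) (nat_lit 8)
  nil nil)) (node (nat_lit 5) (nat_lit 132803) (nat_lit 7) (node (nat_lit 4) (nat_lit 131793)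
  (nat_lit 8) nil nil) nil))) (node (nat_lit 5) (nat_lit 101569) (nat_lit 6) (node (nat_lit 7)
  (nat_lit 105860) (nat_lit 7) nil (node (nat_lit 4) (nat_lit 62663) (nat_lit 7) (node (nat_lit 3)
  (nat_lit 69243) (nat_lit 8) nil nil) (node (nat_lit 3) (nat_lit 106313) (nat_lit 7) (node
  (nat_lit 7) (nat_lit 104972) (nat_lit 8) (node (nat_lit 4) (nat_lit 99764) (nat_lit 9) nil nil)
  nil) nil))) (node (nat_lit 0) (nat_lit 115072) (nat_lit 6) nil nil))) (node (nat_lit 0) (nat_lit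
  157806) (nat_lit 5) nil nil)))) (node (nat_lit 0) (nat_lit 140382) (nat_lit 4) (node (nat_lit 3)
  (nat_lit 144026) (nat_lit 5) (node (nat_lit 3) (nat_lit 138591) (nat_lit 6) (node (nat_lit 4)
  (nat_lit 126046) (nat_lit 7) nil nil) nil) (node (nat_lit 4) (nat_lit 143510) (nat_lit 5) (node
  (nat_lit 3) (nat_lit 133429) (nat_lit 6) (node (nat_lit 3) (nat_lit 128485) (nat_lit 7) nil
  (node (nat_lit 4) (nat_lit 122438) (nat_lit 7) nil nil)) nil) nil)) nil)) (node (nat_lit 0)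
  (nat_lit 0) (nat_lit 3) (node (nat_lit 3) (nat_lit 0) (nat_lit 4) (node (nat_lit 5) (nat_lit
  165005) (nat_lit 5) nil (node (nat_lit 3) (nat_lit 153504) (nat_lit 5) (node (nat_lit 4)
  (nat_lit 139060) (nat_lit 6) (node (nat_lit 7) (nat_lit 141919) (nat_lit 7) (node (nat_lit 4)
  (nat_lit 121205) (nat_lit 8) nil nil) (node (nat_lit 5) (nat_lit 83465) (nat_lit 7) (node
  (nat_lit 6) (nat_lit 69173) (nat_lit 8) nil nil) (node (nat_lit 8) (nat_lit 139469) (nat_lit 7)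
  nil nil))) (node (nat_lit 7) (nat_lit 154729) (nat_lit 6) (node (nat_lit 4) (nat_lit 147213)
  (nat_lit 7) nil nil) nil)) (node (nat_lit 4) (nat_lit 159112) (nat_lit 5) (node (nat_lit 3)
  (nat_lit 154840) (nat_lit 6) (node (nat_lit 7) (nat_lit 148806) (nat_lit 7) (node (nat_lit 4)
  (nat_lit 146147) (nat_lit 8) nil nil) (node (nat_lit 4) (nat_lit 141845) (nat_lit 7) nil nil))
  (node (nat_lit 7) (nat_lit 157113) (nat_lit 6) (node (nat_lit 3) (nat_lit 154540) (nat_lit 7)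
  (node (nat_lit 4) (nat_lit 146792) (nat_lit 8) nil nil) nil) (node (nat_lit 5) (nat_lit 163237)
  (nat_lit 6) (node (nat_lit 6) (nat_lit 64529) (nat_lit 7) nil nil) nil))) (node (nat_lit 6)
  (nat_lit 165005) (nat_lit 5) nil (node (nat_lit 0) (nat_lit 165005) (nat_lit 5) nil nil)))))
  (node (nat_lit 0) (nat_lit 0) (nat_lit 4) (node (nat_lit 5) (nat_lit 172076) (nat_lit 5) (node
  (nat_lit 7) (nat_lit 178954) (nat_lit 6) nil (node (nat_lit 3) (nat_lit 169662) (nat_lit 6) nil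
  (node (nat_lit 4) (nat_lit 160371) (nat_lit 6) nil nil))) (node (nat_lit 3) (nat_lit 158739)
  (nat_lit 5) (node (nat_lit 3) (nat_lit 150569) (nat_lit 6) (node (nat_lit 8) (nat_lit 151375)
  (nat_lit 7) nil nil) (node (nat_lit 4) (nat_lit 156325) (nat_lit 6) nil nil)) (node (nat_lit 6)
  (nat_lit 169018) (nat_lit 5) nil (node (nat_lit 4) (nat_lit 150629) (nat_lit 5) (node (nat_lit
  3) (nat_lit 142459) (nat_lit 6) (node (nat_lit 4) (nat_lit 121359) (nat_lit 7) nil nil) nil)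
  (node (nat_lit 0) (nat_lit 169018) (nat_lit 5) nil nil))))) (node (nat_lit 5) (nat_lit 0)
  (nat_lit 4) (node (nat_lit 0) (nat_lit 164666) (nat_lit 5) nil (node (nat_lit 3) (nat_lit
  158721) (nat_lit 5) (node (nat_lit 3) (nat_lit 151851) (nat_lit 6) (node (nat_lit 4) (nat_lit
  140026) (nat_lit 7) nil nil) (node (nat_lit 4) (nat_lit 156308) (nat_lit 6) nil nil)) (node
  (nat_lit 4) (nat_lit 156371) (nat_lit 5) (node (nat_lit 3) (nat_lit 149715) (nat_lit 6) (node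
  (nat_lit 4) (nat_lit 139387) (nat_lit 7) (node (nat_lit 5) (nat_lit 124849) (nat_lit 8) nil nil)
  nil) nil) nil))) (node (nat_lit 4) (nat_lit 148782) (nat_lit 4) (node (nat_lit 3) (nat_lit
  142308) (nat_lit 5) (node (nat_lit 3) (nat_lit 138249) (nat_lit 6) (node (nat_lit 4) (nat_lit
  126329) (nat_lit 7) nil (node (nat_lit 8) (nat_lit 138761) (nat_lit 7) (node (nat_lit 4)
  (nat_lit 131587) (nat_lit 8) nil nil) nil)) (node (nat_lit 4) (nat_lit 130614) (nat_lit 6) (node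
  (nat_lit 5) (nat_lit 97313) (nat_lit 7) (node (nat_lit 6) (nat_lit 67152) (nat_lit 8) (node
  (nat_lit 4) (nat_lit 62076) (nat_lit 9) nil nil) nil) (node (nat_lit 3) (nat_lit 125134)
  (nat_lit 7) nil nil)) nil)) (node (nat_lit 5) (nat_lit 156213) (nat_lit 5) nil nil)) nil))))
  nil))) nil))

noncomputable def c13 : Tr :=
  (node (nat_lit 3) (nat_lit 0) (nat_lit 1) t335 nil)

noncomputable def c22 : Tr :=
  (node (nat_lit 1) (nat_lit 0) (nat_lit 1) (node (nat_lit 1) (nat_lit 0) (nat_lit 2) (node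
  (nat_lit 1) (nat_lit 0) (nat_lit 3) (node (nat_lit 0) (nat_lit 72606) (nat_lit 4) (node (nat_lit
  4) (nat_lit 72606) (nat_lit 5) (node (nat_lit 6) (nat_lit 72606) (nat_lit 6) nil nil) (node
  (nat_lit 5) (nat_lit 72606) (nat_lit 5) (node (nat_lit 4) (nat_lit 72606) (nat_lit 6) nil nil)
  (node (nat_lit 6) (nat_lit 72606) (nat_lit 5) nil nil))) (node (nat_lit 2) (nat_lit 72603)
  (nat_lit 4) (node (nat_lit 4) (nat_lit 72606) (nat_lit 5) (node (nat_lit 6) (nat_lit 72606)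
  (nat_lit 6) nil nil) (node (nat_lit 5) (nat_lit 72606) (nat_lit 5) (node (nat_lit 4) (nat_lit
  72606) (nat_lit 6) nil nil) (node (nat_lit 6) (nat_lit 72606) (nat_lit 5) nil nil))) (node
  (nat_lit 4) (nat_lit 69874) (nat_lit 4) (node (nat_lit 5) (nat_lit 34179) (nat_lit 5) nil nil)
  (node (nat_lit 5) (nat_lit 0) (nat_lit 4) (node (nat_lit 2) (nat_lit 72606) (nat_lit 5) nil
  (node (nat_lit 0) (nat_lit 72606) (nat_lit 5) nil (node (nat_lit 4) (nat_lit 72438) (nat_lit 5)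
  (node (nat_lit 6) (nat_lit 72606) (nat_lit 6) nil nil) nil))) nil)))) (node (nat_lit 4) (nat_lit
  0) (nat_lit 3) (node (nat_lit 0) (nat_lit 34622) (nat_lit 4) nil (node (nat_lit 2) (nat_lit
  34622) (nat_lit 4) nil (node (nat_lit 1) (nat_lit 34622) (nat_lit 4) nil nil))) (node (nat_lit
  0) (nat_lit 0) (nat_lit 3) (node (nat_lit 1) (nat_lit 71062) (nat_lit 4) (node (nat_lit 4)
  (nat_lit 71062) (nat_lit 5) nil nil) (node (nat_lit 4) (nat_lit 71062) (nat_lit 4) (node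
  (nat_lit 5) (nat_lit 71062) (nat_lit 5) nil nil) (node (nat_lit 5) (nat_lit 71062) (nat_lit 4)
  nil (node (nat_lit 0) (nat_lit 71062) (nat_lit 4) nil (node (nat_lit 2) (nat_lit 71062) (nat_lit
  4) nil nil))))) (node (nat_lit 2) (nat_lit 0) (nat_lit 3) (node (nat_lit 1) (nat_lit 65058)
  (nat_lit 4) (node (nat_lit 6) (nat_lit 65058) (nat_lit 5) (node (nat_lit 5) (nat_lit 65058)
  (nat_lit 6) (node (nat_lit 7) (nat_lit 65058) (nat_lit 7) nil (node (nat_lit 4) (nat_lit 65058)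
  (nat_lit 7) (node (nat_lit 5) (nat_lit 65058) (nat_lit 8) nil nil) nil)) (node (nat_lit 4)
  (nat_lit 65058) (nat_lit 6) (node (nat_lit 7) (nat_lit 65058) (nat_lit 7) (node (nat_lit 4)
  (nat_lit 65058) (nat_lit 8) nil nil) nil) nil)) (node (nat_lit 4) (nat_lit 65058) (nat_lit 5)
  (node (nat_lit 6) (nat_lit 65058) (nat_lit 6) nil (node (nat_lit 5) (nat_lit 50367) (nat_lit 6)
  (node (nat_lit 6) (nat_lit 30752) (nat_lit 7) nil nil) nil)) (node (nat_lit 5) (nat_lit 65058)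
  (nat_lit 5) (node (nat_lit 4) (nat_lit 65058) (nat_lit 6) nil nil) nil))) (node (nat_lit 4)
  (nat_lit 65058) (nat_lit 4) (node (nat_lit 6) (nat_lit 65058) (nat_lit 5) (node (nat_lit 5)
  (nat_lit 65058) (nat_lit 6) (node (nat_lit 4) (nat_lit 65058) (nat_lit 7) (node (nat_lit 5)
  (nat_lit 65058) (nat_lit 8) (node (nat_lit 6) (nat_lit 63898) (nat_lit 9) (node (nat_lit 4)
  (nat_lit 57633) (nat_lit 10) nil nil) nil) nil) nil) (node (nat_lit 1) (nat_lit 65058) (nat_lit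
  6) nil nil)) (node (nat_lit 1) (nat_lit 65058) (nat_lit 5) (node (nat_lit 4) (nat_lit 65058)
  (nat_lit 6) nil nil) (node (nat_lit 5) (nat_lit 65058) (nat_lit 5) nil nil))) (node (nat_lit 5)
  (nat_lit 63855) (nat_lit 4) (node (nat_lit 4) (nat_lit 65058) (nat_lit 5) (node (nat_lit 5)
  (nat_lit 55230) (nat_lit 6) (node (nat_lit 6) (nat_lit 34103) (nat_lit 7) nil nil) nil) nil)
  (node (nat_lit 0) (nat_lit 65058) (nat_lit 4) nil (node (nat_lit 2) (nat_lit 65058) (nat_lit 4)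
  nil nil))))) nil)))) nil) nil)

noncomputable def c72 : Tr :=
  (node (nat_lit 1) (nat_lit 0) (nat_lit 1) (node (nat_lit 1) (nat_lit 0) (nat_lit 2) (node
  (nat_lit 1) (nat_lit 0) (nat_lit 3) (node (nat_lit 4) (nat_lit 0) (nat_lit 4) (node (nat_lit 6)
  (nat_lit 0) (nat_lit 5) (node (nat_lit 5) (nat_lit 0) (nat_lit 6) (node (nat_lit 4) (nat_lit
  101326) (nat_lit 7) (node (nat_lit 5) (nat_lit 101326) (nat_lit 8) nil nil) (node (nat_lit 6)
  (nat_lit 101326) (nat_lit 7) nil nil)) nil) (node (nat_lit 5) (nat_lit 0) (nat_lit 5) (node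
  (nat_lit 4) (nat_lit 0) (nat_lit 6) (node (nat_lit 6) (nat_lit 47338) (nat_lit 7) nil nil) nil)
  nil)) (node (nat_lit 5) (nat_lit 0) (nat_lit 4) (node (nat_lit 4) (nat_lit 0) (nat_lit 5) (node
  (nat_lit 6) (nat_lit 0) (nat_lit 6) (node (nat_lit 4) (nat_lit 0) (nat_lit 7) (node (nat_lit 5)
  (nat_lit 101326) (nat_lit 8) (node (nat_lit 4) (nat_lit 101326) (nat_lit 9) (node (nat_lit 6)
  (nat_lit 101326) (nat_lit 10) nil nil) nil) (node (nat_lit 2) (nat_lit 101326) (nat_lit 8) nil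
  (node (nat_lit 0) (nat_lit 101326) (nat_lit 8) nil nil))) (node (nat_lit 5) (nat_lit 0) (nat_lit
  7) (node (nat_lit 6) (nat_lit 101326) (nat_lit 8) (node (nat_lit 4) (nat_lit 101326) (nat_lit 9)
  (node (nat_lit 5) (nat_lit 101326) (nat_lit 10) nil nil) nil) (node (nat_lit 2) (nat_lit 101326)
  (nat_lit 8) nil (node (nat_lit 0) (nat_lit 101326) (nat_lit 8) nil nil))) nil)) (node (nat_lit
  5) (nat_lit 0) (nat_lit 6) (node (nat_lit 6) (nat_lit 52503) (nat_lit 7) nil nil) nil)) nil)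
  nil)) (node (nat_lit 4) (nat_lit 0) (nat_lit 3) (node (nat_lit 1) (nat_lit 0) (nat_lit 4) (node
  (nat_lit 5) (nat_lit 0) (nat_lit 5) (node (nat_lit 7) (nat_lit 0) (nat_lit 6) (node (nat_lit 4)
  (nat_lit 47855) (nat_lit 7) (node (nat_lit 5) (nat_lit 47855) (nat_lit 8) nil nil) nil) (node
  (nat_lit 4) (nat_lit 0) (nat_lit 6) (node (nat_lit 5) (nat_lit 47855) (nat_lit 7) (node (nat_lit
  7) (nat_lit 47855) (nat_lit 8) (node (nat_lit 4) (nat_lit 47855) (nat_lit 9) (node (nat_lit 5)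
  (nat_lit 47855) (nat_lit 10) nil nil) nil) nil) nil) nil)) (node (nat_lit 4) (nat_lit 47706)
  (nat_lit 5) nil nil)) nil) nil)) nil) nil)

noncomputable def c62 : Tr :=
  (node (nat_lit 1) (nat_lit 0) (nat_lit 1) (node (nat_lit 1) (nat_lit 0) (nat_lit 2) (node
  (nat_lit 1) (nat_lit 0) (nat_lit 3) (node (nat_lit 4) (nat_lit 0) (nat_lit 4) (node (nat_lit 6)
  (nat_lit 0) (nat_lit 5) (node (nat_lit 5) (nat_lit 96937) (nat_lit 6) (node (nat_lit 4) (nat_lit
  97223) (nat_lit 7) nil nil) nil) (node (nat_lit 5) (nat_lit 0) (nat_lit 5) (node (nat_lit 4)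
  (nat_lit 44663) (nat_lit 6) (node (nat_lit 6) (nat_lit 45716) (nat_lit 7) nil nil) nil) nil))
  (node (nat_lit 5) (nat_lit 0) (nat_lit 4) (node (nat_lit 4) (nat_lit 0) (nat_lit 5) (node
  (nat_lit 6) (nat_lit 0) (nat_lit 6) (node (nat_lit 5) (nat_lit 0) (nat_lit 7) (node (nat_lit 6)
  (nat_lit 97223) (nat_lit 8) (node (nat_lit 4) (nat_lit 97223) (nat_lit 9) (node (nat_lit 5)
  (nat_lit 97223) (nat_lit 10) nil nil) nil) (node (nat_lit 0) (nat_lit 97223) (nat_lit 8) nil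
  (node (nat_lit 2) (nat_lit 97223) (nat_lit 8) nil nil))) (node (nat_lit 4) (nat_lit 0) (nat_lit
  7) (node (nat_lit 5) (nat_lit 97223) (nat_lit 8) nil (node (nat_lit 0) (nat_lit 97223) (nat_lit
  8) nil (node (nat_lit 2) (nat_lit 97223) (nat_lit 8) nil nil))) (node (nat_lit 0) (nat_lit
  97223) (nat_lit 7) nil (node (nat_lit 2) (nat_lit 97223) (nat_lit 7) nil nil)))) (node (nat_lit
  5) (nat_lit 95691) (nat_lit 6) (node (nat_lit 6) (nat_lit 50515) (nat_lit 7) nil nil) nil)) nil)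
  nil)) (node (nat_lit 4) (nat_lit 0) (nat_lit 3) (node (nat_lit 1) (nat_lit 0) (nat_lit 4) (node
  (nat_lit 5) (nat_lit 0) (nat_lit 5) (node (nat_lit 7) (nat_lit 45879) (nat_lit 6) (node (nat_lit
  4) (nat_lit 45879) (nat_lit 7) (node (nat_lit 5) (nat_lit 45879) (nat_lit 8) nil nil) nil) (node
  (nat_lit 4) (nat_lit 45879) (nat_lit 6) (node (nat_lit 5) (nat_lit 45879) (nat_lit 7) nil nil)
  nil)) (node (nat_lit 4) (nat_lit 45879) (nat_lit 5) nil nil)) nil) nil)) nil) nil)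

end Pool.Agent.Work.MP_7cb3ca_co.P3.D
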