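import Pool.Agent.Work.MP_7cb3ca_co.P3.Defs

namespace Pool.Agent.Work.MP_7cb3ca_co.P3.D
open Tr
set_option maxRecDepth 100000

noncomputable def t319 : Tr :=
  (node (nat_lit 4) (nat_lit 31571) (nat_lit 5) (node (nat_lit 6) (nat_lit 44108) (nat_lit 6)
  (node (nat_lit 5) (nat_lit 44619) (nat_lit 7) (node (nat_lit 6) (nat_lit 48698) (nat_lit 8)
  (node (nat_lit 4) (nat_lit 49237) (nat_lit 9) (node (nat_lit 5) (nat_lit 49353) (nat_lit 10)
  (node (nat_lit 4) (nat_lit 49993) (nat_lit 11) (node (nat_lit 6) (nat_lit 51458) (nat_lit 12)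
  (node (nat_lit 4) (nat_lit 51458) (nat_lit 13) (node (nat_lit 5) (nat_lit 51458) (nat_lit 14)
  nil nil) nil) (node (nat_lit 3) (nat_lit 49583) (nat_lit 12) nil nil)) (node (nat_lit 6)
  (nat_lit 51189) (nat_lit 11) nil (node (nat_lit 3) (nat_lit 49390) (nat_lit 11) nil (node
  (nat_lit 0) (nat_lit 50911) (nat_lit 11) nil nil)))) (node (nat_lit 6) (nat_lit 50792) (nat_lit
  10) (node (nat_lit 5) (nat_lit 50792) (nat_lit 11) (node (nat_lit 4) (nat_lit 50792) (nat_lit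
  12) (node (nat_lit 6) (nat_lit 51789) (nat_lit 13) nil nil) nil) (node (nat_lit 3) (nat_lit
  50792) (nat_lit 11) nil (node (nat_lit 0) (nat_lit 51193) (nat_lit 11) nil nil))) (node (nat_lit
  3) (nat_lit 49585) (nat_lit 10) (node (nat_lit 5) (nat_lit 49405) (nat_lit 11) nil (node
  (nat_lit 6) (nat_lit 51142) (nat_lit 11) nil nil)) (node (nat_lit 0) (nat_lit 50705) (nat_lit
  10) nil nil)))) (node (nat_lit 3) (nat_lit 49915) (nat_lit 9) (node (nat_lit 5) (nat_lit 49674)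
  (nat_lit 10) nil (node (nat_lit 4) (nat_lit 50081) (nat_lit 10) nil (node (nat_lit 6) (nat_lit
  51072) (nat_lit 10) nil (node (nat_lit 0) (nat_lit 51072) (nat_lit 10) nil nil)))) (node
  (nat_lit 0) (nat_lit 50136) (nat_lit 9) (node (nat_lit 5) (nat_lit 50136) (nat_lit 10) nil (node
  (nat_lit 4) (nat_lit 50136) (nat_lit 10) nil nil)) nil))) (node (nat_lit 3) (nat_lit 48564)
  (nat_lit 8) (node (nat_lit 5) (nat_lit 50268) (nat_lit 9) (node (nat_lit 4) (nat_lit 50611)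
  (nat_lit 10) nil (node (nat_lit 6) (nat_lit 51905) (nat_lit 10) nil (node (nat_lit 0) (nat_lit
  51905) (nat_lit 10) nil nil))) (node (nat_lit 4) (nat_lit 49971) (nat_lit 9) (node (nat_lit 11)
  (nat_lit 49830) (nat_lit 10) nil nil) (node (nat_lit 6) (nat_lit 51667) (nat_lit 9) nil (node
  (nat_lit 0) (nat_lit 51667) (nat_lit 9) nil nil)))) (node (nat_lit 0) (nat_lit 50974) (nat_lit
  8) (node (nat_lit 5) (nat_lit 51061) (nat_lit 9) (node (nat_lit 4) (nat_lit 51061) (nat_lit 10)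
  nil (node (nat_lit 6) (nat_lit 51905) (nat_lit 10) nil (node (nat_lit 3) (nat_lit 51061)
  (nat_lit 10) nil (node (nat_lit 0) (nat_lit 51905) (nat_lit 10) nil nil)))) (node (nat_lit 6)
  (nat_lit 51667) (nat_lit 9) nil (node (nat_lit 4) (nat_lit 50974) (nat_lit 9) nil (node (nat_lit
  3) (nat_lit 50974) (nat_lit 9) nil (node (nat_lit 0) (nat_lit 51502) (nat_lit 9) nil nil)))))
  nil))) (node (nat_lit 4) (nat_lit 44619) (nat_lit 7) (node (nat_lit 5) (nat_lit 45890) (nat_lit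
  8) (node (nat_lit 6) (nat_lit 49037) (nat_lit 9) (node (nat_lit 4) (nat_lit 49300) (nat_lit 10)
  (node (nat_lit 6) (nat_lit 50670) (nat_lit 11) (node (nat_lit 5) (nat_lit 50670) (nat_lit 12)
  (node (nat_lit 4) (nat_lit 50670) (nat_lit 13) (node (nat_lit 6) (nat_lit 51471) (nat_lit 14)
  nil nil) nil) nil) nil) nil) (node (nat_lit 4) (nat_lit 47301) (nat_lit 9) nil (node (nat_lit 3)
  (nat_lit 47573) (nat_lit 9) nil (node (nat_lit 0) (nat_lit 48665) (nat_lit 9) nil nil)))) (node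
  (nat_lit 3) (nat_lit 47288) (nat_lit 8) (node (nat_lit 4) (nat_lit 48543) (nat_lit 9) nil (node
  (nat_lit 6) (nat_lit 50392) (nat_lit 9) nil (node (nat_lit 5) (nat_lit 47088) (nat_lit 9) nil
  nil))) (node (nat_lit 0) (nat_lit 48792) (nat_lit 8) nil nil))) (node (nat_lit 3) (nat_lit
  47161) (nat_lit 7) (node (nat_lit 4) (nat_lit 47742) (nat_lit 8) nil (node (nat_lit 6) (nat_lit
  50152) (nat_lit 8) nil (node (nat_lit 5) (nat_lit 46808) (nat_lit 8) nil (node (nat_lit 0)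
  (nat_lit 49209) (nat_lit 8) nil nil)))) (node (nat_lit 0) (nat_lit 49108) (nat_lit 7) (node
  (nat_lit 5) (nat_lit 49108) (nat_lit 8) nil (node (nat_lit 0) (nat_lit 49901) (nat_lit 8) nil
  nil)) nil)))) (node (nat_lit 5) (nat_lit 37041) (nat_lit 6) (node (nat_lit 6) (nat_lit 25776)
  (nat_lit 7) (node (nat_lit 4) (nat_lit 26360) (nat_lit 8) (node (nat_lit 6) (nat_lit 27622)
  (nat_lit 9) (node (nat_lit 5) (nat_lit 27750) (nat_lit 10) (node (nat_lit 4) (nat_lit 27826)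
  (nat_lit 11) (node (nat_lit 6) (nat_lit 28689) (nat_lit 12) (node (nat_lit 4) (nat_lit 28628)
  (nat_lit 13) (node (nat_lit 5) (nat_lit 28628) (nat_lit 14) nil nil) (node (nat_lit 3) (nat_lit
  28689) (nat_lit 13) nil (node (nat_lit 0) (nat_lit 28803) (nat_lit 13) nil nil))) (node (nat_lit
  5) (nat_lit 28165) (nat_lit 12) (node (nat_lit 3) (nat_lit 28392) (nat_lit 13) nil (node
  (nat_lit 0) (nat_lit 28573) (nat_lit 13) nil nil)) (node (nat_lit 3) (nat_lit 28356) (nat_lit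
  12) nil (node (nat_lit 0) (nat_lit 28535) (nat_lit 12) nil nil)))) (node (nat_lit 6) (nat_lit
  28358) (nat_lit 11) nil nil)) nil) (node (nat_lit 5) (nat_lit 26967) (nat_lit 9) (node (nat_lit
  4) (nat_lit 27470) (nat_lit 10) (node (nat_lit 6) (nat_lit 28507) (nat_lit 11) (node (nat_lit 5)
  (nat_lit 28507) (nat_lit 12) nil nil) (node (nat_lit 3) (nat_lit 26289) (nat_lit 11) nil nil))
  (node (nat_lit 3) (nat_lit 27465) (nat_lit 10) nil (node (nat_lit 0) (nat_lit 27705) (nat_lit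
  10) nil nil))) (node (nat_lit 3) (nat_lit 26217) (nat_lit 9) (node (nat_lit 5) (nat_lit 25468)
  (nat_lit 10) nil (node (nat_lit 4) (nat_lit 26550) (nat_lit 10) nil (node (nat_lit 6) (nat_lit
  26955) (nat_lit 10) nil nil))) (node (nat_lit 0) (nat_lit 27709) (nat_lit 9) nil nil)))) (node
  (nat_lit 3) (nat_lit 27041) (nat_lit 8) (node (nat_lit 5) (nat_lit 27527) (nat_lit 9) (node
  (nat_lit 6) (nat_lit 28265) (nat_lit 10) nil nil) (node (nat_lit 6) (nat_lit 28131) (nat_lit 9)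
  nil (node (nat_lit 4) (nat_lit 27403) (nat_lit 9) nil (node (nat_lit 0) (nat_lit 27604) (nat_lit
  9) nil nil)))) (node (nat_lit 0) (nat_lit 27736) (nat_lit 8) (node (nat_lit 6) (nat_lit 28131)
  (nat_lit 9) nil (node (nat_lit 5) (nat_lit 27736) (nat_lit 9) nil (node (nat_lit 4) (nat_lit
  27736) (nat_lit 9) nil (node (nat_lit 0) (nat_lit 27966) (nat_lit 9) nil nil)))) nil))) (node
  (nat_lit 3) (nat_lit 41981) (nat_lit 7) (node (nat_lit 4) (nat_lit 41230) (nat_lit 8) (node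
  (nat_lit 5) (nat_lit 41245) (nat_lit 9) (node (nat_lit 6) (nat_lit 42201) (nat_lit 10) nil nil)
  nil) (node (nat_lit 5) (nat_lit 40740) (nat_lit 8) (node (nat_lit 4) (nat_lit 40486) (nat_lit 9)
  (node (nat_lit 5) (nat_lit 37255) (nat_lit 10) (node (nat_lit 6) (nat_lit 36349) (nat_lit 11)
  nil nil) nil) nil) (node (nat_lit 6) (nat_lit 45722) (nat_lit 8) nil nil))) (node (nat_lit 0)
  (nat_lit 44722) (nat_lit 7) nil nil))) (node (nat_lit 3) (nat_lit 42168) (nat_lit 6) (node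
  (nat_lit 5) (nat_lit 44125) (nat_lit 7) (node (nat_lit 9) (nat_lit 44845) (nat_lit 8) (node
  (nat_lit 4) (nat_lit 44968) (nat_lit 9) (node (nat_lit 5) (nat_lit 41908) (nat_lit 10) (node
  (nat_lit 6) (nat_lit 39798) (nat_lit 11) (node (nat_lit 5) (nat_lit 39642) (nat_lit 12) nil nil)
  nil) nil) nil) (node (nat_lit 4) (nat_lit 44259) (nat_lit 8) (node (nat_lit 5) (nat_lit 39040)
  (nat_lit 9) (node (nat_lit 9) (nat_lit 39990) (nat_lit 10) (node (nat_lit 5) (nat_lit 40298)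
  (nat_lit 11) nil (node (nat_lit 4) (nat_lit 39500) (nat_lit 11) nil nil)) (node (nat_lit 6)
  (nat_lit 38438) (nat_lit 10) (node (nat_lit 5) (nat_lit 35439) (nat_lit 11) nil nil) nil)) (node
  (nat_lit 6) (nat_lit 46834) (nat_lit 9) nil nil)) (node (nat_lit 6) (nat_lit 47867) (nat_lit 8)
  nil (node (nat_lit 0) (nat_lit 47867) (nat_lit 8) nil nil)))) (node (nat_lit 4) (nat_lit 46023)
  (nat_lit 7) (node (nat_lit 5) (nat_lit 48297) (nat_lit 8) (node (nat_lit 6) (nat_lit 33166)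
  (nat_lit 9) nil nil) (node (nat_lit 6) (nat_lit 50707) (nat_lit 8) nil (node (nat_lit 0)
  (nat_lit 49764) (nat_lit 8) nil nil))) (node (nat_lit 6) (nat_lit 49552) (nat_lit 7) (node
  (nat_lit 4) (nat_lit 49552) (nat_lit 8) nil (node (nat_lit 9) (nat_lit 49552) (nat_lit 8) nil
  nil)) (node (nat_lit 0) (nat_lit 49552) (nat_lit 7) (node (nat_lit 4) (nat_lit 49552) (nat_lit
  8) nil (node (nat_lit 9) (nat_lit 49552) (nat_lit 8) nil nil)) nil)))) (node (nat_lit 0)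
  (nat_lit 47187) (nat_lit 6) (node (nat_lit 5) (nat_lit 47590) (nat_lit 7) (node (nat_lit 4)
  (nat_lit 47192) (nat_lit 8) nil (node (nat_lit 6) (nat_lit 49638) (nat_lit 8) nil (node (nat_lit
  9) (nat_lit 49638) (nat_lit 8) nil nil))) (node (nat_lit 4) (nat_lit 47006) (nat_lit 7) (node
  (nat_lit 5) (nat_lit 46653) (nat_lit 8) nil (node (nat_lit 6) (nat_lit 49054) (nat_lit 8) nil
  (node (nat_lit 3) (nat_lit 47006) (nat_lit 8) nil nil))) (node (nat_lit 6) (nat_lit 49426)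
  (nat_lit 7) nil (node (nat_lit 3) (nat_lit 47590) (nat_lit 7) nil (node (nat_lit 0) (nat_lit
  49426) (nat_lit 7) nil nil))))) nil)))) (node (nat_lit 3) (nat_lit 37884) (nat_lit 5) (node
  (nat_lit 4) (nat_lit 43537) (nat_lit 6) (node (nat_lit 5) (nat_lit 47159) (nat_lit 7) (node
  (nat_lit 4) (nat_lit 48394) (nat_lit 8) (node (nat_lit 8) (nat_lit 45435) (nat_lit 9) nil nil)
  (node (nat_lit 8) (nat_lit 49259) (nat_lit 8) (node (nat_lit 5) (nat_lit 50206) (nat_lit 9) nil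
  nil) (node (nat_lit 6) (nat_lit 37175) (nat_lit 8) (node (nat_lit 5) (nat_lit 20126) (nat_lit 9)
  nil nil) (node (nat_lit 0) (nat_lit 50223) (nat_lit 8) nil nil)))) (node (nat_lit 8) (nat_lit
  46660) (nat_lit 7) (node (nat_lit 5) (nat_lit 47101) (nat_lit 8) (node (nat_lit 4) (nat_lit
  44571) (nat_lit 9) (node (nat_lit 5) (nat_lit 40646) (nat_lit 10) (node (nat_lit 6) (nat_lit
  37477) (nat_lit 11) (node (nat_lit 5) (nat_lit 35574) (nat_lit 12) nil nil) nil) nil) nil) (node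
  (nat_lit 6) (nat_lit 50707) (nat_lit 8) nil (node (nat_lit 0) (nat_lit 49724) (nat_lit 8) nil
  nil))) (node (nat_lit 6) (nat_lit 50206) (nat_lit 7) (node (nat_lit 8) (nat_lit 50206) (nat_lit
  8) nil (node (nat_lit 4) (nat_lit 50206) (nat_lit 8) nil nil)) (node (nat_lit 0) (nat_lit 50206)
  (nat_lit 7) (node (nat_lit 4) (nat_lit 50206) (nat_lit 8) nil (node (nat_lit 8) (nat_lit 50206)
  (nat_lit 8) nil nil)) nil)))) (node (nat_lit 5) (nat_lit 43537) (nat_lit 6) (node (nat_lit 6)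
  (nat_lit 50206) (nat_lit 7) (node (nat_lit 8) (nat_lit 50371) (nat_lit 8) (node (nat_lit 6)
  (nat_lit 51713) (nat_lit 9) (node (nat_lit 5) (nat_lit 51713) (nat_lit 10) (node (nat_lit 8)
  (nat_lit 51713) (nat_lit 11) (node (nat_lit 6) (nat_lit 52385) (nat_lit 12) (node (nat_lit 8)
  (nat_lit 52385) (nat_lit 13) nil nil) (node (nat_lit 5) (nat_lit 52029) (nat_lit 12) (node
  (nat_lit 4) (nat_lit 51751) (nat_lit 13) nil nil) (node (nat_lit 4) (nat_lit 52029) (nat_lit 12)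
  nil (node (nat_lit 0) (nat_lit 52385) (nat_lit 12) nil nil)))) (node (nat_lit 6) (nat_lit 52272)
  (nat_lit 11) nil nil)) nil) (node (nat_lit 5) (nat_lit 50699) (nat_lit 9) (node (nat_lit 8)
  (nat_lit 51298) (nat_lit 10) (node (nat_lit 6) (nat_lit 52272) (nat_lit 11) nil nil) (node
  (nat_lit 4) (nat_lit 50216) (nat_lit 10) nil nil)) (node (nat_lit 4) (nat_lit 50699) (nat_lit 9)
  (node (nat_lit 5) (nat_lit 51298) (nat_lit 10) nil nil) (node (nat_lit 0) (nat_lit 51384)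
  (nat_lit 9) nil nil)))) (node (nat_lit 4) (nat_lit 49956) (nat_lit 8) (node (nat_lit 5) (nat_lit
  49956) (nat_lit 9) nil nil) (node (nat_lit 0) (nat_lit 51166) (nat_lit 8) nil nil))) (node
  (nat_lit 4) (nat_lit 47159) (nat_lit 7) (node (nat_lit 8) (nat_lit 46372) (nat_lit 8) (node
  (nat_lit 4) (nat_lit 42970) (nat_lit 9) (node (nat_lit 5) (nat_lit 40470) (nat_lit 10) (node
  (nat_lit 6) (nat_lit 33695) (nat_lit 11) (node (nat_lit 5) (nat_lit 33407) (nat_lit 12) nil nil)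
  nil) nil) nil) (node (nat_lit 5) (nat_lit 46711) (nat_lit 8) (node (nat_lit 6) (nat_lit 40480)
  (nat_lit 9) nil nil) (node (nat_lit 6) (nat_lit 51166) (nat_lit 8) nil nil))) (node (nat_lit 0)
  (nat_lit 50206) (nat_lit 7) nil nil))) (node (nat_lit 6) (nat_lit 48308) (nat_lit 6) (node
  (nat_lit 8) (nat_lit 48794) (nat_lit 7) (node (nat_lit 5) (nat_lit 49540) (nat_lit 8) (node
  (nat_lit 6) (nat_lit 51713) (nat_lit 9) (node (nat_lit 8) (nat_lit 51713) (nat_lit 10) (node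
  (nat_lit 6) (nat_lit 52272) (nat_lit 11) nil nil) nil) (node (nat_lit 8) (nat_lit 50699)
  (nat_lit 9) (node (nat_lit 6) (nat_lit 52029) (nat_lit 10) nil nil) (node (nat_lit 4) (nat_lit
  50085) (nat_lit 9) nil (node (nat_lit 0) (nat_lit 51501) (nat_lit 9) nil nil)))) (node (nat_lit
  4) (nat_lit 49375) (nat_lit 8) nil (node (nat_lit 0) (nat_lit 50339) (nat_lit 8) nil nil)))
  (node (nat_lit 5) (nat_lit 48678) (nat_lit 7) (node (nat_lit 6) (nat_lit 51298) (nat_lit 8)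
  (node (nat_lit 8) (nat_lit 51298) (nat_lit 9) (node (nat_lit 5) (nat_lit 51298) (nat_lit 10) nil
  nil) nil) (node (nat_lit 4) (nat_lit 48032) (nat_lit 8) nil (node (nat_lit 0) (nat_lit 51166)
  (nat_lit 8) nil nil))) (node (nat_lit 4) (nat_lit 48678) (nat_lit 7) (node (nat_lit 8) (nat_lit
  48619) (nat_lit 8) nil (node (nat_lit 6) (nat_lit 51166) (nat_lit 8) nil (node (nat_lit 5)
  (nat_lit 48324) (nat_lit 8) nil nil))) (node (nat_lit 0) (nat_lit 50206) (nat_lit 7) (node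
  (nat_lit 5) (nat_lit 50206) (nat_lit 8) nil (node (nat_lit 0) (nat_lit 50804) (nat_lit 8) nil
  nil)) nil)))) (node (nat_lit 0) (nat_lit 48414) (nat_lit 6) (node (nat_lit 5) (nat_lit 47968)
  (nat_lit 7) (node (nat_lit 8) (nat_lit 48549) (nat_lit 8) nil (node (nat_lit 6) (nat_lit 49514)
  (nat_lit 8) nil (node (nat_lit 9) (nat_lit 49514) (nat_lit 8) nil nil))) (node (nat_lit 8)
  (nat_lit 48732) (nat_lit 7) (node (nat_lit 5) (nat_lit 48732) (nat_lit 8) nil (node (nat_lit 4)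
  (nat_lit 48732) (nat_lit 8) nil nil)) (node (nat_lit 4) (nat_lit 48087) (nat_lit 7) nil (node
  (nat_lit 6) (nat_lit 49942) (nat_lit 7) nil (node (nat_lit 0) (nat_lit 49942) (nat_lit 7) nil
  nil))))) nil)))) (node (nat_lit 0) (nat_lit 44860) (nat_lit 5) (node (nat_lit 6) (nat_lit 48308)
  (nat_lit 6) (node (nat_lit 5) (nat_lit 48678) (nat_lit 7) (node (nat_lit 6) (nat_lit 51298)
  (nat_lit 8) (node (nat_lit 8) (nat_lit 51713) (nat_lit 9) (node (nat_lit 5) (nat_lit 51713)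
  (nat_lit 10) nil (node (nat_lit 6) (nat_lit 52029) (nat_lit 10) nil nil)) (node (nat_lit 4)
  (nat_lit 51298) (nat_lit 9) nil (node (nat_lit 0) (nat_lit 51713) (nat_lit 9) nil (node (nat_lit
  3) (nat_lit 51298) (nat_lit 9) nil nil)))) (node (nat_lit 4) (nat_lit 49065) (nat_lit 8) (node
  (nat_lit 5) (nat_lit 48556) (nat_lit 9) nil (node (nat_lit 8) (nat_lit 51026) (nat_lit 9) nil
  (node (nat_lit 3) (nat_lit 48753) (nat_lit 9) nil nil))) (node (nat_lit 3) (nat_lit 49424)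
  (nat_lit 8) (node (nat_lit 5) (nat_lit 50371) (nat_lit 9) nil (node (nat_lit 4) (nat_lit 50371)
  (nat_lit 9) nil (node (nat_lit 8) (nat_lit 51384) (nat_lit 9) nil nil))) (node (nat_lit 0)
  (nat_lit 51298) (nat_lit 8) nil nil)))) (node (nat_lit 8) (nat_lit 50206) (nat_lit 7) (node
  (nat_lit 5) (nat_lit 50206) (nat_lit 8) (node (nat_lit 8) (nat_lit 51219) (nat_lit 9) nil nil)
  nil) (node (nat_lit 4) (nat_lit 48308) (nat_lit 7) nil (node (nat_lit 3) (nat_lit 48678)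
  (nat_lit 7) nil (node (nat_lit 0) (nat_lit 49835) (nat_lit 7) nil nil))))) (node (nat_lit 5)
  (nat_lit 45407) (nat_lit 6) (node (nat_lit 6) (nat_lit 50190) (nat_lit 7) (node (nat_lit 8)
  (nat_lit 51298) (nat_lit 8) (node (nat_lit 5) (nat_lit 51298) (nat_lit 9) nil nil) (node
  (nat_lit 4) (nat_lit 50190) (nat_lit 8) nil (node (nat_lit 5) (nat_lit 50190) (nat_lit 8) nil
  nil))) (node (nat_lit 4) (nat_lit 46819) (nat_lit 7) (node (nat_lit 5) (nat_lit 46371) (nat_lit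
  8) nil (node (nat_lit 8) (nat_lit 49883) (nat_lit 8) nil (node (nat_lit 6) (nat_lit 49883)
  (nat_lit 8) nil (node (nat_lit 3) (nat_lit 46603) (nat_lit 8) nil nil)))) (node (nat_lit 3)
  (nat_lit 47031) (nat_lit 7) (node (nat_lit 5) (nat_lit 48550) (nat_lit 8) nil (node (nat_lit 8)
  (nat_lit 50095) (nat_lit 8) nil nil)) (node (nat_lit 0) (nat_lit 49773) (nat_lit 7) nil nil))))
  (node (nat_lit 4) (nat_lit 44917) (nat_lit 6) (node (nat_lit 5) (nat_lit 46096) (nat_lit 7)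
  (node (nat_lit 8) (nat_lit 49160) (nat_lit 8) nil (node (nat_lit 4) (nat_lit 47647) (nat_lit 8)
  nil (node (nat_lit 3) (nat_lit 45881) (nat_lit 8) nil nil))) (node (nat_lit 6) (nat_lit 49283)
  (nat_lit 7) nil (node (nat_lit 8) (nat_lit 48881) (nat_lit 7) nil (node (nat_lit 3) (nat_lit
  45666) (nat_lit 7) (node (nat_lit 4) (nat_lit 47185) (nat_lit 8) nil nil) (node (nat_lit 0)
  (nat_lit 47382) (nat_lit 7) nil nil))))) (node (nat_lit 3) (nat_lit 45575) (nat_lit 6) (node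
  (nat_lit 5) (nat_lit 46085) (nat_lit 7) (node (nat_lit 9) (nat_lit 47604) (nat_lit 8) nil (node
  (nat_lit 8) (nat_lit 49149) (nat_lit 8) nil (node (nat_lit 4) (nat_lit 45637) (nat_lit 8) nil
  nil))) (node (nat_lit 4) (nat_lit 46493) (nat_lit 7) nil (node (nat_lit 8) (nat_lit 49539)
  (nat_lit 7) nil (node (nat_lit 6) (nat_lit 49539) (nat_lit 7) nil (node (nat_lit 0) (nat_lit
  48040) (nat_lit 7) nil nil))))) (node (nat_lit 0) (nat_lit 48281) (nat_lit 6) (node (nat_lit 5)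
  (nat_lit 47914) (nat_lit 7) (node (nat_lit 8) (nat_lit 49460) (nat_lit 8) nil nil) (node
  (nat_lit 3) (nat_lit 48281) (nat_lit 7) nil (node (nat_lit 4) (nat_lit 48281) (nat_lit 7) nil
  (node (nat_lit 8) (nat_lit 49809) (nat_lit 7) nil (node (nat_lit 6) (nat_lit 49228) (nat_lit 7)
  nil (node (nat_lit 0) (nat_lit 49228) (nat_lit 7) nil nil)))))) nil))))) nil)))

noncomputable def t320 : Tr :=
  (node (nat_lit 5) (nat_lit 16832) (nat_lit 7) (node (nat_lit 7) (nat_lit 21247) (nat_lit 8)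
  (node (nat_lit 4) (nat_lit 22150) (nat_lit 9) (node (nat_lit 7) (nat_lit 23661) (nat_lit 10)
  (node (nat_lit 5) (nat_lit 23800) (nat_lit 11) (node (nat_lit 4) (nat_lit 24312) (nat_lit 12)
  (node (nat_lit 7) (nat_lit 24583) (nat_lit 13) (node (nat_lit 4) (nat_lit 24583) (nat_lit 14)
  (node (nat_lit 5) (nat_lit 24583) (nat_lit 15) (node (nat_lit 7) (nat_lit 24583) (nat_lit 16)
  nil nil) nil) nil) (node (nat_lit 3) (nat_lit 24452) (nat_lit 13) (node (nat_lit 5) (nat_lit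
  24164) (nat_lit 14) nil nil) (node (nat_lit 0) (nat_lit 24583) (nat_lit 13) nil (node (nat_lit
  5) (nat_lit 24248) (nat_lit 13) (node (nat_lit 3) (nat_lit 24501) (nat_lit 14) nil nil) nil))))
  (node (nat_lit 7) (nat_lit 24583) (nat_lit 12) (node (nat_lit 4) (nat_lit 24511) (nat_lit 13)
  (node (nat_lit 5) (nat_lit 24583) (nat_lit 14) (node (nat_lit 4) (nat_lit 24366) (nat_lit 15)
  nil (node (nat_lit 3) (nat_lit 24583) (nat_lit 15) nil nil)) (node (nat_lit 3) (nat_lit 24511)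
  (nat_lit 14) nil nil)) (node (nat_lit 0) (nat_lit 24583) (nat_lit 13) nil (node (nat_lit 3)
  (nat_lit 24583) (nat_lit 13) nil nil))) (node (nat_lit 3) (nat_lit 24320) (nat_lit 12) (node
  (nat_lit 4) (nat_lit 24461) (nat_lit 13) nil (node (nat_lit 5) (nat_lit 24461) (nat_lit 13) nil
  (node (nat_lit 7) (nat_lit 24583) (nat_lit 13) nil nil))) (node (nat_lit 0) (nat_lit 24511)
  (nat_lit 12) nil nil)))) (node (nat_lit 3) (nat_lit 24048) (nat_lit 11) (node (nat_lit 4)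
  (nat_lit 24031) (nat_lit 12) (node (nat_lit 7) (nat_lit 24403) (nat_lit 13) nil (node (nat_lit
  14) (nat_lit 24172) (nat_lit 13) nil nil)) (node (nat_lit 7) (nat_lit 24556) (nat_lit 12) (node
  (nat_lit 4) (nat_lit 24556) (nat_lit 13) nil nil) (node (nat_lit 5) (nat_lit 23893) (nat_lit 12)
  nil nil))) (node (nat_lit 0) (nat_lit 24252) (nat_lit 11) (node (nat_lit 4) (nat_lit 24252)
  (nat_lit 12) (node (nat_lit 7) (nat_lit 24483) (nat_lit 13) nil nil) (node (nat_lit 7) (nat_lit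
  24471) (nat_lit 12) nil nil)) nil))) (node (nat_lit 5) (nat_lit 23027) (nat_lit 10) (node
  (nat_lit 4) (nat_lit 23678) (nat_lit 11) (node (nat_lit 7) (nat_lit 24583) (nat_lit 12) (node
  (nat_lit 4) (nat_lit 24583) (nat_lit 13) (node (nat_lit 5) (nat_lit 24519) (nat_lit 14) (node
  (nat_lit 7) (nat_lit 24583) (nat_lit 15) nil (node (nat_lit 3) (nat_lit 24583) (nat_lit 15) nil
  nil)) (node (nat_lit 3) (nat_lit 24583) (nat_lit 14) nil (node (nat_lit 0) (nat_lit 24583)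
  (nat_lit 14) nil nil))) (node (nat_lit 5) (nat_lit 24583) (nat_lit 13) nil (node (nat_lit 3)
  (nat_lit 24583) (nat_lit 13) nil (node (nat_lit 0) (nat_lit 24583) (nat_lit 13) nil nil))))
  (node (nat_lit 3) (nat_lit 24320) (nat_lit 12) (node (nat_lit 5) (nat_lit 23944) (nat_lit 13)
  nil (node (nat_lit 4) (nat_lit 24583) (nat_lit 13) nil nil)) (node (nat_lit 0) (nat_lit 24549)
  (nat_lit 12) nil nil))) (node (nat_lit 3) (nat_lit 23868) (nat_lit 11) (node (nat_lit 4)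
  (nat_lit 24170) (nat_lit 12) nil (node (nat_lit 5) (nat_lit 24293) (nat_lit 12) nil (node
  (nat_lit 7) (nat_lit 24296) (nat_lit 12) nil (node (nat_lit 0) (nat_lit 24296) (nat_lit 12) nil
  nil)))) (node (nat_lit 0) (nat_lit 24252) (nat_lit 11) (node (nat_lit 4) (nat_lit 24252)
  (nat_lit 12) nil (node (nat_lit 5) (nat_lit 24252) (nat_lit 12) nil (node (nat_lit 7) (nat_lit
  24380) (nat_lit 12) nil nil))) nil))) (node (nat_lit 3) (nat_lit 23272) (nat_lit 10) (node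
  (nat_lit 4) (nat_lit 23898) (nat_lit 11) (node (nat_lit 5) (nat_lit 24058) (nat_lit 12) nil
  (node (nat_lit 7) (nat_lit 24326) (nat_lit 12) nil nil)) (node (nat_lit 5) (nat_lit 23832)
  (nat_lit 11) (node (nat_lit 4) (nat_lit 23281) (nat_lit 12) nil (node (nat_lit 13) (nat_lit
  24201) (nat_lit 12) nil nil)) (node (nat_lit 7) (nat_lit 24252) (nat_lit 11) (node (nat_lit 4)
  (nat_lit 24252) (nat_lit 12) nil (node (nat_lit 13) (nat_lit 24252) (nat_lit 12) nil nil)) (node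
  (nat_lit 0) (nat_lit 24149) (nat_lit 11) nil nil)))) (node (nat_lit 0) (nat_lit 23796) (nat_lit
  10) (node (nat_lit 4) (nat_lit 23791) (nat_lit 11) (node (nat_lit 5) (nat_lit 23791) (nat_lit
  12) nil (node (nat_lit 7) (nat_lit 24059) (nat_lit 12) nil (node (nat_lit 3) (nat_lit 23791)
  (nat_lit 12) nil nil))) (node (nat_lit 7) (nat_lit 24153) (nat_lit 11) (node (nat_lit 4)
  (nat_lit 24153) (nat_lit 12) nil nil) (node (nat_lit 5) (nat_lit 23900) (nat_lit 11) (node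
  (nat_lit 13) (nat_lit 24168) (nat_lit 12) nil nil) (node (nat_lit 3) (nat_lit 23796) (nat_lit
  11) nil (node (nat_lit 0) (nat_lit 24049) (nat_lit 11) nil nil))))) nil)))) (node (nat_lit 5)
  (nat_lit 22286) (nat_lit 9) (node (nat_lit 4) (nat_lit 23283) (nat_lit 10) (node (nat_lit 7)
  (nat_lit 24258) (nat_lit 11) (node (nat_lit 4) (nat_lit 24377) (nat_lit 12) (node (nat_lit 5)
  (nat_lit 24560) (nat_lit 13) (node (nat_lit 4) (nat_lit 24497) (nat_lit 14) (node (nat_lit 7)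
  (nat_lit 24583) (nat_lit 15) nil nil) (node (nat_lit 7) (nat_lit 24583) (nat_lit 14) nil (node
  (nat_lit 3) (nat_lit 24583) (nat_lit 14) nil (node (nat_lit 0) (nat_lit 24583) (nat_lit 14) nil
  nil)))) (node (nat_lit 3) (nat_lit 24468) (nat_lit 13) nil (node (nat_lit 0) (nat_lit 24583)
  (nat_lit 13) nil nil))) (node (nat_lit 5) (nat_lit 24339) (nat_lit 12) (node (nat_lit 7)
  (nat_lit 24570) (nat_lit 13) nil (node (nat_lit 3) (nat_lit 24430) (nat_lit 13) nil (node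
  (nat_lit 0) (nat_lit 24570) (nat_lit 13) nil nil))) (node (nat_lit 3) (nat_lit 24402) (nat_lit
  12) (node (nat_lit 4) (nat_lit 24402) (nat_lit 13) nil (node (nat_lit 7) (nat_lit 24583)
  (nat_lit 13) nil nil)) (node (nat_lit 0) (nat_lit 24476) (nat_lit 12) nil nil)))) (node (nat_lit
  3) (nat_lit 23925) (nat_lit 11) (node (nat_lit 5) (nat_lit 24196) (nat_lit 12) nil (node
  (nat_lit 4) (nat_lit 24196) (nat_lit 12) nil (node (nat_lit 7) (nat_lit 24353) (nat_lit 12) nil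
  nil))) (node (nat_lit 0) (nat_lit 24252) (nat_lit 11) (node (nat_lit 4) (nat_lit 24252) (nat_lit
  12) nil nil) nil))) (node (nat_lit 3) (nat_lit 23385) (nat_lit 10) (node (nat_lit 4) (nat_lit
  23731) (nat_lit 11) (node (nat_lit 5) (nat_lit 23890) (nat_lit 12) nil (node (nat_lit 13)
  (nat_lit 23890) (nat_lit 12) nil nil)) (node (nat_lit 5) (nat_lit 23898) (nat_lit 11) (node
  (nat_lit 4) (nat_lit 23424) (nat_lit 12) nil nil) (node (nat_lit 7) (nat_lit 24149) (nat_lit 11)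
  nil (node (nat_lit 0) (nat_lit 24149) (nat_lit 11) nil nil)))) (node (nat_lit 0) (nat_lit 23796)
  (nat_lit 10) (node (nat_lit 4) (nat_lit 23791) (nat_lit 11) (node (nat_lit 5) (nat_lit 23791)
  (nat_lit 12) nil nil) (node (nat_lit 7) (nat_lit 24153) (nat_lit 11) nil (node (nat_lit 5)
  (nat_lit 23900) (nat_lit 11) nil (node (nat_lit 3) (nat_lit 23796) (nat_lit 11) nil (node
  (nat_lit 0) (nat_lit 23937) (nat_lit 11) nil nil))))) nil))) (node (nat_lit 3) (nat_lit 22677)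
  (nat_lit 9) (node (nat_lit 4) (nat_lit 23355) (nat_lit 10) (node (nat_lit 5) (nat_lit 23256)
  (nat_lit 11) nil (node (nat_lit 7) (nat_lit 23866) (nat_lit 11) nil (node (nat_lit 12) (nat_lit
  23333) (nat_lit 11) nil nil))) (node (nat_lit 5) (nat_lit 23355) (nat_lit 10) (node (nat_lit 7)
  (nat_lit 24149) (nat_lit 11) nil (node (nat_lit 12) (nat_lit 23736) (nat_lit 11) nil (node
  (nat_lit 4) (nat_lit 22900) (nat_lit 11) nil nil))) (node (nat_lit 7) (nat_lit 23859) (nat_lit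
  10) (node (nat_lit 4) (nat_lit 23859) (nat_lit 11) nil nil) (node (nat_lit 0) (nat_lit 23751)
  (nat_lit 10) nil nil)))) (node (nat_lit 0) (nat_lit 23062) (nat_lit 9) (node (nat_lit 4)
  (nat_lit 23394) (nat_lit 10) (node (nat_lit 5) (nat_lit 23085) (nat_lit 11) nil (node (nat_lit
  7) (nat_lit 23695) (nat_lit 11) nil (node (nat_lit 12) (nat_lit 23695) (nat_lit 11) nil nil)))
  (node (nat_lit 7) (nat_lit 23727) (nat_lit 10) (node (nat_lit 4) (nat_lit 23727) (nat_lit 11)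
  nil (node (nat_lit 5) (nat_lit 23727) (nat_lit 11) nil (node (nat_lit 3) (nat_lit 23727)
  (nat_lit 11) nil (node (nat_lit 0) (nat_lit 23868) (nat_lit 11) nil nil)))) (node (nat_lit 5)
  (nat_lit 23397) (nat_lit 10) (node (nat_lit 7) (nat_lit 23698) (nat_lit 11) nil (node (nat_lit
  12) (nat_lit 23698) (nat_lit 11) nil nil)) (node (nat_lit 3) (nat_lit 23036) (nat_lit 10) (node
  (nat_lit 5) (nat_lit 23036) (nat_lit 11) nil (node (nat_lit 4) (nat_lit 23036) (nat_lit 11) nil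
  (node (nat_lit 7) (nat_lit 23337) (nat_lit 11) nil nil))) (node (nat_lit 0) (nat_lit 23620)
  (nat_lit 10) nil nil))))) nil)))) (node (nat_lit 3) (nat_lit 20219) (nat_lit 8) (node (nat_lit
  4) (nat_lit 19480) (nat_lit 9) (node (nat_lit 5) (nat_lit 17543) (nat_lit 10) (node (nat_lit 4)
  (nat_lit 17677) (nat_lit 11) (node (nat_lit 11) (nat_lit 18297) (nat_lit 12) (node (nat_lit 5)
  (nat_lit 18760) (nat_lit 13) (node (nat_lit 11) (nat_lit 19081) (nat_lit 14) nil (node (nat_lit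
  4) (nat_lit 18803) (nat_lit 14) nil (node (nat_lit 7) (nat_lit 19072) (nat_lit 14) nil (node
  (nat_lit 0) (nat_lit 19072) (nat_lit 14) nil nil)))) (node (nat_lit 4) (nat_lit 18780) (nat_lit
  13) (node (nat_lit 5) (nat_lit 19131) (nat_lit 14) nil (node (nat_lit 7) (nat_lit 19091)
  (nat_lit 14) nil nil)) (node (nat_lit 7) (nat_lit 19021) (nat_lit 13) nil (node (nat_lit 0)
  (nat_lit 19021) (nat_lit 13) nil nil)))) (node (nat_lit 7) (nat_lit 16619) (nat_lit 12) nil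
  (node (nat_lit 0) (nat_lit 18701) (nat_lit 12) (node (nat_lit 4) (nat_lit 18701) (nat_lit 13)
  nil (node (nat_lit 7) (nat_lit 18958) (nat_lit 13) nil (node (nat_lit 11) (nat_lit 18701)
  (nat_lit 13) nil (node (nat_lit 5) (nat_lit 18701) (nat_lit 13) nil nil)))) nil))) (node
  (nat_lit 7) (nat_lit 18706) (nat_lit 11) (node (nat_lit 4) (nat_lit 18483) (nat_lit 12) nil
  (node (nat_lit 11) (nat_lit 18706) (nat_lit 12) nil nil)) (node (nat_lit 0) (nat_lit 18815)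
  (nat_lit 11) (node (nat_lit 4) (nat_lit 18815) (nat_lit 12) nil (node (nat_lit 11) (nat_lit
  18815) (nat_lit 12) nil nil)) nil))) (node (nat_lit 11) (nat_lit 20329) (nat_lit 10) (node
  (nat_lit 5) (nat_lit 20998) (nat_lit 11) (node (nat_lit 11) (nat_lit 21157) (nat_lit 12) (node
  (nat_lit 4) (nat_lit 20946) (nat_lit 13) (node (nat_lit 5) (nat_lit 20500) (nat_lit 14) nil nil)
  nil) (node (nat_lit 4) (nat_lit 20447) (nat_lit 12) (node (nat_lit 11) (nat_lit 20750) (nat_lit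
  13) nil nil) (node (nat_lit 7) (nat_lit 21869) (nat_lit 12) nil nil))) (node (nat_lit 7)
  (nat_lit 21458) (nat_lit 11) nil (node (nat_lit 0) (nat_lit 20840) (nat_lit 11) nil nil))) (node
  (nat_lit 7) (nat_lit 20864) (nat_lit 10) (node (nat_lit 4) (nat_lit 20864) (nat_lit 11) nil
  (node (nat_lit 5) (nat_lit 20864) (nat_lit 11) nil (node (nat_lit 11) (nat_lit 20864) (nat_lit
  11) nil nil))) (node (nat_lit 0) (nat_lit 20858) (nat_lit 10) nil nil)))) (node (nat_lit 5)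
  (nat_lit 21528) (nat_lit 9) (node (nat_lit 4) (nat_lit 22472) (nat_lit 10) (node (nat_lit 11)
  (nat_lit 23222) (nat_lit 11) (node (nat_lit 5) (nat_lit 22748) (nat_lit 12) nil (node (nat_lit
  4) (nat_lit 22508) (nat_lit 12) (node (nat_lit 5) (nat_lit 22070) (nat_lit 13) nil nil) nil))
  (node (nat_lit 7) (nat_lit 23498) (nat_lit 11) nil (node (nat_lit 0) (nat_lit 23498) (nat_lit
  11) nil nil))) (node (nat_lit 7) (nat_lit 22894) (nat_lit 10) (node (nat_lit 4) (nat_lit 22894)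
  (nat_lit 11) nil (node (nat_lit 0) (nat_lit 23035) (nat_lit 11) nil (node (nat_lit 11) (nat_lit
  22894) (nat_lit 11) nil nil))) (node (nat_lit 0) (nat_lit 23037) (nat_lit 10) (node (nat_lit 4)
  (nat_lit 23037) (nat_lit 11) nil (node (nat_lit 7) (nat_lit 23178) (nat_lit 11) nil (node
  (nat_lit 11) (nat_lit 23037) (nat_lit 11) nil (node (nat_lit 5) (nat_lit 23037) (nat_lit 11) nil
  (node (nat_lit 0) (nat_lit 23178) (nat_lit 11) nil nil))))) nil))) (node (nat_lit 7) (nat_lit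
  22347) (nat_lit 9) (node (nat_lit 4) (nat_lit 22719) (nat_lit 10) (node (nat_lit 5) (nat_lit
  22509) (nat_lit 11) nil (node (nat_lit 11) (nat_lit 22719) (nat_lit 11) nil nil)) (node (nat_lit
  11) (nat_lit 22773) (nat_lit 10) (node (nat_lit 5) (nat_lit 22902) (nat_lit 11) (node (nat_lit
  4) (nat_lit 22428) (nat_lit 12) nil (node (nat_lit 7) (nat_lit 23330) (nat_lit 12) nil nil))
  (node (nat_lit 4) (nat_lit 22932) (nat_lit 11) (node (nat_lit 5) (nat_lit 23091) (nat_lit 12)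
  nil nil) nil)) (node (nat_lit 5) (nat_lit 22683) (nat_lit 10) (node (nat_lit 7) (nat_lit 22983)
  (nat_lit 11) nil (node (nat_lit 11) (nat_lit 22683) (nat_lit 11) nil nil)) (node (nat_lit 0)
  (nat_lit 22507) (nat_lit 10) nil nil)))) (node (nat_lit 0) (nat_lit 22267) (nat_lit 9) (node
  (nat_lit 11) (nat_lit 22242) (nat_lit 10) (node (nat_lit 7) (nat_lit 22543) (nat_lit 11) nil
  (node (nat_lit 5) (nat_lit 22242) (nat_lit 11) nil (node (nat_lit 4) (nat_lit 22242) (nat_lit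
  11) nil nil))) (node (nat_lit 4) (nat_lit 22113) (nat_lit 10) nil (node (nat_lit 5) (nat_lit
  22125) (nat_lit 10) (node (nat_lit 11) (nat_lit 22125) (nat_lit 11) nil nil) (node (nat_lit 7)
  (nat_lit 22958) (nat_lit 10) nil nil)))) nil)))) (node (nat_lit 0) (nat_lit 21994) (nat_lit 8)
  (node (nat_lit 4) (nat_lit 22377) (nat_lit 9) (node (nat_lit 5) (nat_lit 23018) (nat_lit 10)
  (node (nat_lit 4) (nat_lit 23642) (nat_lit 11) (node (nat_lit 11) (nat_lit 24274) (nat_lit 12)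
  nil (node (nat_lit 3) (nat_lit 23786) (nat_lit 12) nil nil)) (node (nat_lit 3) (nat_lit 23262)
  (nat_lit 11) (node (nat_lit 4) (nat_lit 23421) (nat_lit 12) nil nil) (node (nat_lit 7) (nat_lit
  23893) (nat_lit 11) nil (node (nat_lit 0) (nat_lit 23893) (nat_lit 11) nil nil)))) (node
  (nat_lit 11) (nat_lit 23451) (nat_lit 10) nil (node (nat_lit 7) (nat_lit 23451) (nat_lit 10) nil
  nil))) (node (nat_lit 5) (nat_lit 22420) (nat_lit 9) (node (nat_lit 4) (nat_lit 22987) (nat_lit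
  10) (node (nat_lit 11) (nat_lit 23861) (nat_lit 11) nil (node (nat_lit 7) (nat_lit 23498)
  (nat_lit 11) nil (node (nat_lit 3) (nat_lit 22965) (nat_lit 11) nil (node (nat_lit 0) (nat_lit
  23498) (nat_lit 11) nil nil)))) (node (nat_lit 3) (nat_lit 23062) (nat_lit 10) (node (nat_lit 5)
  (nat_lit 23148) (nat_lit 11) nil (node (nat_lit 4) (nat_lit 23272) (nat_lit 11) nil (node
  (nat_lit 7) (nat_lit 23573) (nat_lit 11) nil (node (nat_lit 0) (nat_lit 23573) (nat_lit 11) nil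
  (node (nat_lit 11) (nat_lit 23573) (nat_lit 11) nil nil))))) (node (nat_lit 7) (nat_lit 23495)
  (nat_lit 10) nil (node (nat_lit 0) (nat_lit 23608) (nat_lit 10) (node (nat_lit 11) (nat_lit
  23749) (nat_lit 11) nil (node (nat_lit 5) (nat_lit 23608) (nat_lit 11) nil nil)) nil)))) (node
  (nat_lit 7) (nat_lit 22937) (nat_lit 9) (node (nat_lit 4) (nat_lit 23016) (nat_lit 10) (node
  (nat_lit 5) (nat_lit 22805) (nat_lit 11) nil nil) (node (nat_lit 11) (nat_lit 23495) (nat_lit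
  10) nil (node (nat_lit 5) (nat_lit 23198) (nat_lit 10) nil nil))) (node (nat_lit 3) (nat_lit
  22490) (nat_lit 9) (node (nat_lit 5) (nat_lit 22622) (nat_lit 10) (node (nat_lit 12) (nat_lit
  22833) (nat_lit 11) nil nil) (node (nat_lit 4) (nat_lit 22602) (nat_lit 10) nil (node (nat_lit
  11) (nat_lit 23436) (nat_lit 10) nil (node (nat_lit 7) (nat_lit 23436) (nat_lit 10) nil nil))))
  (node (nat_lit 0) (nat_lit 22890) (nat_lit 9) (node (nat_lit 4) (nat_lit 22890) (nat_lit 10) nil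
  (node (nat_lit 11) (nat_lit 23320) (nat_lit 10) nil (node (nat_lit 5) (nat_lit 22890) (nat_lit
  10) nil (node (nat_lit 7) (nat_lit 23320) (nat_lit 10) nil nil)))) nil))))) nil))) (node
  (nat_lit 3) (nat_lit 18919) (nat_lit 7) (node (nat_lit 5) (nat_lit 20909) (nat_lit 8) (node
  (nat_lit 10) (nat_lit 21556) (nat_lit 9) (node (nat_lit 4) (nat_lit 21664) (nat_lit 10) (node
  (nat_lit 5) (nat_lit 18934) (nat_lit 11) (node (nat_lit 4) (nat_lit 12817) (nat_lit 12) (node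
  (nat_lit 7) (nat_lit 13603) (nat_lit 13) nil (node (nat_lit 10) (nat_lit 12173) (nat_lit 13) nil
  nil)) (node (nat_lit 7) (nat_lit 19362) (nat_lit 12) nil nil)) (node (nat_lit 7) (nat_lit 22175)
  (nat_lit 11) nil nil)) (node (nat_lit 7) (nat_lit 22805) (nat_lit 10) nil nil)) (node (nat_lit
  4) (nat_lit 22079) (nat_lit 9) (node (nat_lit 5) (nat_lit 21374) (nat_lit 10) nil (node (nat_lit
  7) (nat_lit 22752) (nat_lit 10) nil nil)) (node (nat_lit 7) (nat_lit 23037) (nat_lit 9) (node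
  (nat_lit 4) (nat_lit 23118) (nat_lit 10) (node (nat_lit 5) (nat_lit 22908) (nat_lit 11) nil nil)
  (node (nat_lit 5) (nat_lit 23037) (nat_lit 10) nil (node (nat_lit 10) (nat_lit 23037) (nat_lit
  10) nil nil))) (node (nat_lit 0) (nat_lit 22611) (nat_lit 9) nil nil)))) (node (nat_lit 4)
  (nat_lit 20951) (nat_lit 8) (node (nat_lit 5) (nat_lit 22066) (nat_lit 9) (node (nat_lit 4)
  (nat_lit 21796) (nat_lit 10) (node (nat_lit 7) (nat_lit 13403) (nat_lit 11) nil nil) (node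
  (nat_lit 7) (nat_lit 22739) (nat_lit 10) nil nil)) (node (nat_lit 7) (nat_lit 22793) (nat_lit 9)
  nil (node (nat_lit 0) (nat_lit 22793) (nat_lit 9) nil nil))) (node (nat_lit 7) (nat_lit 22136)
  (nat_lit 8) (node (nat_lit 10) (nat_lit 22562) (nat_lit 9) (node (nat_lit 4) (nat_lit 22581)
  (nat_lit 10) nil (node (nat_lit 5) (nat_lit 22562) (nat_lit 10) (node (nat_lit 7) (nat_lit
  23074) (nat_lit 11) nil nil) nil)) (node (nat_lit 4) (nat_lit 22562) (nat_lit 9) (node (nat_lit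
  5) (nat_lit 23071) (nat_lit 10) nil (node (nat_lit 7) (nat_lit 23508) (nat_lit 10) nil (node
  (nat_lit 10) (nat_lit 22253) (nat_lit 10) nil nil))) (node (nat_lit 5) (nat_lit 22562) (nat_lit
  9) nil nil))) (node (nat_lit 0) (nat_lit 21983) (nat_lit 8) (node (nat_lit 10) (nat_lit 22409)
  (nat_lit 9) (node (nat_lit 4) (nat_lit 22715) (nat_lit 10) nil (node (nat_lit 5) (nat_lit 22409)
  (nat_lit 10) nil nil)) (node (nat_lit 4) (nat_lit 22017) (nat_lit 9) nil (node (nat_lit 7)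
  (nat_lit 22641) (nat_lit 9) nil (node (nat_lit 5) (nat_lit 21983) (nat_lit 9) nil nil))))
  nil)))) (node (nat_lit 0) (nat_lit 20965) (nat_lit 7) (node (nat_lit 4) (nat_lit 21182) (nat_lit
  8) (node (nat_lit 5) (nat_lit 22011) (nat_lit 9) (node (nat_lit 4) (nat_lit 21740) (nat_lit 10)
  nil (node (nat_lit 7) (nat_lit 22684) (nat_lit 10) nil (node (nat_lit 3) (nat_lit 22314)
  (nat_lit 10) nil (node (nat_lit 0) (nat_lit 22684) (nat_lit 10) nil (node (nat_lit 10) (nat_lit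
  23260) (nat_lit 10) nil nil))))) (node (nat_lit 3) (nat_lit 21936) (nat_lit 9) (node (nat_lit 4)
  (nat_lit 22545) (nat_lit 10) nil (node (nat_lit 10) (nat_lit 23185) (nat_lit 10) nil (node
  (nat_lit 5) (nat_lit 20949) (nat_lit 10) nil (node (nat_lit 7) (nat_lit 22609) (nat_lit 10) nil
  (node (nat_lit 0) (nat_lit 22609) (nat_lit 10) nil nil))))) (node (nat_lit 7) (nat_lit 22784)
  (nat_lit 9) (node (nat_lit 10) (nat_lit 22943) (nat_lit 10) nil nil) (node (nat_lit 0) (nat_lit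
  22545) (nat_lit 9) nil nil)))) (node (nat_lit 5) (nat_lit 21451) (nat_lit 8) (node (nat_lit 4)
  (nat_lit 22233) (nat_lit 9) (node (nat_lit 5) (nat_lit 21967) (nat_lit 10) nil (node (nat_lit 7)
  (nat_lit 22906) (nat_lit 10) nil nil)) (node (nat_lit 10) (nat_lit 22814) (nat_lit 9) (node
  (nat_lit 4) (nat_lit 22814) (nat_lit 10) nil nil) (node (nat_lit 7) (nat_lit 22814) (nat_lit 9)
  nil (node (nat_lit 3) (nat_lit 21451) (nat_lit 9) nil nil)))) (node (nat_lit 7) (nat_lit 21980)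
  (nat_lit 8) (node (nat_lit 10) (nat_lit 22771) (nat_lit 9) (node (nat_lit 4) (nat_lit 22771)
  (nat_lit 10) nil (node (nat_lit 5) (nat_lit 22771) (nat_lit 10) nil nil)) (node (nat_lit 4)
  (nat_lit 22363) (nat_lit 9) (node (nat_lit 5) (nat_lit 22363) (nat_lit 10) nil (node (nat_lit
  10) (nat_lit 22734) (nat_lit 10) nil (node (nat_lit 7) (nat_lit 23310) (nat_lit 10) nil nil)))
  (node (nat_lit 5) (nat_lit 22360) (nat_lit 9) nil nil))) (node (nat_lit 3) (nat_lit 21474)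
  (nat_lit 8) (node (nat_lit 4) (nat_lit 21910) (nat_lit 9) (node (nat_lit 11) (nat_lit 22213)
  (nat_lit 10) nil nil) (node (nat_lit 5) (nat_lit 20932) (nat_lit 9) nil (node (nat_lit 10)
  (nat_lit 22837) (nat_lit 9) nil (node (nat_lit 7) (nat_lit 22696) (nat_lit 9) nil nil)))) (node
  (nat_lit 0) (nat_lit 21748) (nat_lit 8) (node (nat_lit 4) (nat_lit 21453) (nat_lit 9) nil (node
  (nat_lit 10) (nat_lit 22406) (nat_lit 9) nil (node (nat_lit 7) (nat_lit 22264) (nat_lit 9) nil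
  (node (nat_lit 5) (nat_lit 21748) (nat_lit 9) nil nil)))) nil))))) nil)))

noncomputable def t321 : Tr :=
  (node (nat_lit 4) (nat_lit 0) (nat_lit 3) (node (nat_lit 0) (nat_lit 0) (nat_lit 4) (node
  (nat_lit 5) (nat_lit 0) (nat_lit 5) (node (nat_lit 4) (nat_lit 12938) (nat_lit 6) t320 (node
  (nat_lit 7) (nat_lit 16552) (nat_lit 6) (node (nat_lit 4) (nat_lit 17793) (nat_lit 7) (node
  (nat_lit 7) (nat_lit 21211) (nat_lit 8) (node (nat_lit 5) (nat_lit 22095) (nat_lit 9) (node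
  (nat_lit 4) (nat_lit 22728) (nat_lit 10) (node (nat_lit 5) (nat_lit 22672) (nat_lit 11) (node
  (nat_lit 7) (nat_lit 23100) (nat_lit 12) nil nil) nil) nil) (node (nat_lit 0) (nat_lit 21422)
  (nat_lit 9) nil (node (nat_lit 3) (nat_lit 21211) (nat_lit 9) nil nil))) (node (nat_lit 5)
  (nat_lit 20154) (nat_lit 8) (node (nat_lit 7) (nat_lit 22843) (nat_lit 9) (node (nat_lit 5)
  (nat_lit 22719) (nat_lit 10) (node (nat_lit 4) (nat_lit 22486) (nat_lit 11) (node (nat_lit 7)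
  (nat_lit 22915) (nat_lit 12) nil nil) nil) nil) nil) (node (nat_lit 3) (nat_lit 17793) (nat_lit
  8) nil (node (nat_lit 0) (nat_lit 18576) (nat_lit 8) nil nil)))) (node (nat_lit 3) (nat_lit
  20337) (nat_lit 7) (node (nat_lit 5) (nat_lit 20337) (nat_lit 8) nil nil) (node (nat_lit 0)
  (nat_lit 18673) (nat_lit 7) nil nil))) (node (nat_lit 3) (nat_lit 15577) (nat_lit 6) (node
  (nat_lit 7) (nat_lit 21142) (nat_lit 7) nil (node (nat_lit 4) (nat_lit 17727) (nat_lit 7) (node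
  (nat_lit 5) (nat_lit 18691) (nat_lit 8) nil (node (nat_lit 9) (nat_lit 18691) (nat_lit 8) nil
  nil)) (node (nat_lit 5) (nat_lit 17096) (nat_lit 7) nil nil))) (node (nat_lit 0) (nat_lit 18878)
  (nat_lit 6) (node (nat_lit 7) (nat_lit 19357) (nat_lit 7) nil (node (nat_lit 4) (nat_lit 18878)
  (nat_lit 7) nil nil)) nil)))) (node (nat_lit 4) (nat_lit 0) (nat_lit 5) (node (nat_lit 5)
  (nat_lit 12989) (nat_lit 6) (node (nat_lit 7) (nat_lit 18861) (nat_lit 7) (node (nat_lit 5)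
  (nat_lit 20164) (nat_lit 8) (node (nat_lit 4) (nat_lit 21428) (nat_lit 9) (node (nat_lit 7)
  (nat_lit 22962) (nat_lit 10) (node (nat_lit 4) (nat_lit 23325) (nat_lit 11) (node (nat_lit 5)
  (nat_lit 23848) (nat_lit 12) (node (nat_lit 4) (nat_lit 24279) (nat_lit 13) (node (nat_lit 7)
  (nat_lit 24583) (nat_lit 14) (node (nat_lit 5) (nat_lit 24583) (nat_lit 15) (node (nat_lit 4)
  (nat_lit 24583) (nat_lit 16) nil (node (nat_lit 7) (nat_lit 24583) (nat_lit 16) nil nil)) nil)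
  (node (nat_lit 3) (nat_lit 24390) (nat_lit 14) (node (nat_lit 4) (nat_lit 23762) (nat_lit 15)
  (node (nat_lit 5) (nat_lit 23783) (nat_lit 16) nil nil) (node (nat_lit 5) (nat_lit 24171)
  (nat_lit 15) nil nil)) (node (nat_lit 0) (nat_lit 24583) (nat_lit 14) nil nil))) (node (nat_lit
  3) (nat_lit 24187) (nat_lit 13) nil (node (nat_lit 0) (nat_lit 24220) (nat_lit 13) nil nil)))
  nil) nil) (node (nat_lit 5) (nat_lit 21274) (nat_lit 10) nil nil)) (node (nat_lit 0) (nat_lit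
  20678) (nat_lit 9) nil nil)) (node (nat_lit 4) (nat_lit 20422) (nat_lit 8) (node (nat_lit 7)
  (nat_lit 21914) (nat_lit 9) (node (nat_lit 5) (nat_lit 21914) (nat_lit 10) nil nil) (node
  (nat_lit 0) (nat_lit 20936) (nat_lit 9) nil nil)) (node (nat_lit 3) (nat_lit 18861) (nat_lit 8)
  nil (node (nat_lit 0) (nat_lit 20034) (nat_lit 8) nil nil)))) (node (nat_lit 3) (nat_lit 19394)
  (nat_lit 7) (node (nat_lit 4) (nat_lit 20657) (nat_lit 8) (node (nat_lit 5) (nat_lit 21079)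
  (nat_lit 9) (node (nat_lit 4) (nat_lit 21270) (nat_lit 10) (node (nat_lit 7) (nat_lit 13662)
  (nat_lit 11) nil nil) nil) nil) (node (nat_lit 5) (nat_lit 20358) (nat_lit 8) nil nil)) (node
  (nat_lit 0) (nat_lit 21222) (nat_lit 7) (node (nat_lit 4) (nat_lit 21222) (nat_lit 8) nil (node
  (nat_lit 7) (nat_lit 21525) (nat_lit 8) nil nil)) (node (nat_lit 4) (nat_lit 13327) (nat_lit 7)
  (node (nat_lit 3) (nat_lit 12791) (nat_lit 8) nil nil) nil)))) (node (nat_lit 3) (nat_lit 15721)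
  (nat_lit 6) (node (nat_lit 4) (nat_lit 18326) (nat_lit 7) nil (node (nat_lit 7) (nat_lit 20351)
  (nat_lit 7) nil (node (nat_lit 5) (nat_lit 18675) (nat_lit 7) (node (nat_lit 9) (nat_lit 19586)
  (nat_lit 8) nil nil) (node (nat_lit 0) (nat_lit 20351) (nat_lit 7) nil nil)))) (node (nat_lit 0)
  (nat_lit 19228) (nat_lit 6) (node (nat_lit 5) (nat_lit 19228) (nat_lit 7) nil (node (nat_lit 7)
  (nat_lit 20289) (nat_lit 7) nil (node (nat_lit 4) (nat_lit 19228) (nat_lit 7) nil (node (nat_lit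
  3) (nat_lit 19228) (nat_lit 7) nil nil)))) nil))) (node (nat_lit 3) (nat_lit 11749) (nat_lit 5)
  (node (nat_lit 4) (nat_lit 15839) (nat_lit 6) (node (nat_lit 5) (nat_lit 19550) (nat_lit 7)
  (node (nat_lit 8) (nat_lit 20787) (nat_lit 8) (node (nat_lit 7) (nat_lit 21780) (nat_lit 9) nil
  nil) (node (nat_lit 7) (nat_lit 21297) (nat_lit 8) nil (node (nat_lit 4) (nat_lit 20700)
  (nat_lit 8) (node (nat_lit 8) (nat_lit 18724) (nat_lit 9) nil nil) (node (nat_lit 0) (nat_lit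
  21297) (nat_lit 8) nil nil)))) (node (nat_lit 8) (nat_lit 19550) (nat_lit 7) (node (nat_lit 7)
  (nat_lit 22280) (nat_lit 8) nil (node (nat_lit 5) (nat_lit 19872) (nat_lit 8) (node (nat_lit 7)
  (nat_lit 20865) (nat_lit 9) nil nil) (node (nat_lit 0) (nat_lit 21297) (nat_lit 8) nil nil)))
  (node (nat_lit 7) (nat_lit 20469) (nat_lit 7) nil (node (nat_lit 0) (nat_lit 21395) (nat_lit 7)
  nil nil)))) (node (nat_lit 5) (nat_lit 15871) (nat_lit 6) (node (nat_lit 7) (nat_lit 20501)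
  (nat_lit 7) nil (node (nat_lit 8) (nat_lit 19402) (nat_lit 7) (node (nat_lit 7) (nat_lit 21149)
  (nat_lit 8) nil nil) (node (nat_lit 4) (nat_lit 19002) (nat_lit 7) (node (nat_lit 8) (nat_lit
  18200) (nat_lit 8) nil (node (nat_lit 5) (nat_lit 18133) (nat_lit 8) nil nil)) (node (nat_lit 0)
  (nat_lit 20501) (nat_lit 7) nil nil)))) (node (nat_lit 7) (nat_lit 19112) (nat_lit 6) (node
  (nat_lit 4) (nat_lit 19112) (nat_lit 7) nil (node (nat_lit 5) (nat_lit 19112) (nat_lit 7) nil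
  nil)) (node (nat_lit 0) (nat_lit 19088) (nat_lit 6) nil nil)))) (node (nat_lit 0) (nat_lit
  15142) (nat_lit 5) (node (nat_lit 4) (nat_lit 17384) (nat_lit 6) (node (nat_lit 5) (nat_lit
  18033) (nat_lit 7) (node (nat_lit 4) (nat_lit 17164) (nat_lit 8) nil nil) (node (nat_lit 8)
  (nat_lit 21316) (nat_lit 7) nil (node (nat_lit 7) (nat_lit 20326) (nat_lit 7) nil (node (nat_lit
  0) (nat_lit 18828) (nat_lit 7) nil nil)))) (node (nat_lit 5) (nat_lit 17381) (nat_lit 6) (node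
  (nat_lit 7) (nat_lit 18824) (nat_lit 7) nil (node (nat_lit 8) (nat_lit 18824) (nat_lit 7) nil
  (node (nat_lit 4) (nat_lit 18693) (nat_lit 7) (node (nat_lit 7) (nat_lit 21423) (nat_lit 8) nil
  nil) (node (nat_lit 3) (nat_lit 17381) (nat_lit 7) nil nil)))) (node (nat_lit 7) (nat_lit 19241)
  (nat_lit 6) (node (nat_lit 4) (nat_lit 19241) (nat_lit 7) nil nil) (node (nat_lit 3) (nat_lit
  17590) (nat_lit 6) (node (nat_lit 8) (nat_lit 19034) (nat_lit 7) nil (node (nat_lit 5) (nat_lit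
  17590) (nat_lit 7) nil nil)) (node (nat_lit 0) (nat_lit 18983) (nat_lit 6) (node (nat_lit 5)
  (nat_lit 18983) (nat_lit 7) nil nil) nil))))) nil)))) (node (nat_lit 3) (nat_lit 0) (nat_lit 4)
  (node (nat_lit 0) (nat_lit 10869) (nat_lit 5) (node (nat_lit 5) (nat_lit 13033) (nat_lit 6)
  (node (nat_lit 4) (nat_lit 13621) (nat_lit 7) (node (nat_lit 8) (nat_lit 15367) (nat_lit 8) nil
  nil) (node (nat_lit 7) (nat_lit 14653) (nat_lit 7) nil nil)) (node (nat_lit 7) (nat_lit 12899)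
  (nat_lit 6) (node (nat_lit 4) (nat_lit 14519) (nat_lit 7) nil (node (nat_lit 5) (nat_lit 13261)
  (nat_lit 7) nil nil)) (node (nat_lit 4) (nat_lit 13450) (nat_lit 6) (node (nat_lit 8) (nat_lit
  14894) (nat_lit 7) nil (node (nat_lit 7) (nat_lit 14388) (nat_lit 7) (node (nat_lit 4) (nat_lit
  15353) (nat_lit 8) nil nil) (node (nat_lit 5) (nat_lit 13450) (nat_lit 7) nil nil))) (node
  (nat_lit 0) (nat_lit 15412) (nat_lit 6) nil nil)))) (node (nat_lit 5) (nat_lit 0) (nat_lit 5)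
  (node (nat_lit 0) (nat_lit 12285) (nat_lit 6) (node (nat_lit 7) (nat_lit 13075) (nat_lit 7)
  (node (nat_lit 4) (nat_lit 13075) (nat_lit 8) nil nil) (node (nat_lit 4) (nat_lit 12285)
  (nat_lit 7) nil (node (nat_lit 0) (nat_lit 13176) (nat_lit 7) nil nil))) (node (nat_lit 4)
  (nat_lit 0) (nat_lit 6) (node (nat_lit 5) (nat_lit 7915) (nat_lit 7) (node (nat_lit 7) (nat_lit
  8438) (nat_lit 8) (node (nat_lit 4) (nat_lit 9753) (nat_lit 9) nil nil) (node (nat_lit 0)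
  (nat_lit 11725) (nat_lit 8) nil nil)) (node (nat_lit 0) (nat_lit 11946) (nat_lit 7) nil nil))
  nil)) (node (nat_lit 4) (nat_lit 0) (nat_lit 5) (node (nat_lit 5) (nat_lit 0) (nat_lit 6) (node
  (nat_lit 7) (nat_lit 5466) (nat_lit 7) (node (nat_lit 4) (nat_lit 7278) (nat_lit 8) nil (node
  (nat_lit 5) (nat_lit 7244) (nat_lit 8) (node (nat_lit 4) (nat_lit 6688) (nat_lit 9) nil nil)
  nil)) (node (nat_lit 0) (nat_lit 9347) (nat_lit 7) nil nil)) (node (nat_lit 0) (nat_lit 8686)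
  (nat_lit 6) (node (nat_lit 4) (nat_lit 8686) (nat_lit 7) nil (node (nat_lit 5) (nat_lit 8686)
  (nat_lit 7) nil (node (nat_lit 7) (nat_lit 8686) (nat_lit 7) nil (node (nat_lit 0) (nat_lit
  9576) (nat_lit 7) nil nil)))) nil)) nil))) nil)) (node (nat_lit 3) (nat_lit 0) (nat_lit 3) (node
  (nat_lit 4) (nat_lit 0) (nat_lit 4) (node (nat_lit 0) (nat_lit 0) (nat_lit 5) (node (nat_lit 5)
  (nat_lit 29899) (nat_lit 6) (node (nat_lit 6) (nat_lit 31816) (nat_lit 7) (node (nat_lit 5)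
  (nat_lit 33627) (nat_lit 8) nil (node (nat_lit 8) (nat_lit 35125) (nat_lit 8) nil nil)) (node
  (nat_lit 4) (nat_lit 29899) (nat_lit 7) nil (node (nat_lit 8) (nat_lit 32628) (nat_lit 7) nil
  nil))) (node (nat_lit 4) (nat_lit 29291) (nat_lit 6) (node (nat_lit 6) (nat_lit 30181) (nat_lit
  7) (node (nat_lit 8) (nat_lit 33490) (nat_lit 8) nil nil) (node (nat_lit 5) (nat_lit 29291)
  (nat_lit 7) nil nil)) (node (nat_lit 6) (nat_lit 29229) (nat_lit 6) (node (nat_lit 8) (nat_lit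
  31957) (nat_lit 7) nil (node (nat_lit 5) (nat_lit 29229) (nat_lit 7) nil (node (nat_lit 4)
  (nat_lit 28708) (nat_lit 7) (node (nat_lit 6) (nat_lit 28785) (nat_lit 8) nil nil) nil))) (node
  (nat_lit 0) (nat_lit 32561) (nat_lit 6) nil nil)))) (node (nat_lit 6) (nat_lit 0) (nat_lit 5)
  (node (nat_lit 5) (nat_lit 20310) (nat_lit 6) (node (nat_lit 4) (nat_lit 17362) (nat_lit 7)
  (node (nat_lit 5) (nat_lit 12940) (nat_lit 8) (node (nat_lit 0) (nat_lit 15072) (nat_lit 9) nil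
  nil) (node (nat_lit 6) (nat_lit 18300) (nat_lit 8) (node (nat_lit 4) (nat_lit 18287) (nat_lit 9)
  (node (nat_lit 5) (nat_lit 16593) (nat_lit 10) (node (nat_lit 6) (nat_lit 12380) (nat_lit 11)
  nil nil) nil) nil) (node (nat_lit 0) (nat_lit 25090) (nat_lit 8) nil nil))) (node (nat_lit 6)
  (nat_lit 24776) (nat_lit 7) (node (nat_lit 4) (nat_lit 26587) (nat_lit 8) nil (node (nat_lit 0)
  (nat_lit 32504) (nat_lit 8) nil nil)) (node (nat_lit 0) (nat_lit 33660) (nat_lit 7) nil nil)))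
  (node (nat_lit 0) (nat_lit 31546) (nat_lit 6) (node (nat_lit 4) (nat_lit 31546) (nat_lit 7) nil
  (node (nat_lit 6) (nat_lit 31546) (nat_lit 7) (node (nat_lit 4) (nat_lit 31546) (nat_lit 8) nil
  nil) (node (nat_lit 5) (nat_lit 31546) (nat_lit 7) nil (node (nat_lit 0) (nat_lit 33165)
  (nat_lit 7) nil nil)))) nil)) (node (nat_lit 5) (nat_lit 0) (nat_lit 5) (node (nat_lit 4)
  (nat_lit 11609) (nat_lit 6) (node (nat_lit 6) (nat_lit 14481) (nat_lit 7) (node (nat_lit 5)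
  (nat_lit 16314) (nat_lit 8) (node (nat_lit 6) (nat_lit 17003) (nat_lit 9) nil (node (nat_lit 4)
  (nat_lit 17270) (nat_lit 9) (node (nat_lit 5) (nat_lit 16753) (nat_lit 10) (node (nat_lit 6)
  (nat_lit 12439) (nat_lit 11) (node (nat_lit 4) (nat_lit 7643) (nat_lit 12) nil nil) nil) nil)
  nil)) (node (nat_lit 4) (nat_lit 15323) (nat_lit 8) nil (node (nat_lit 0) (nat_lit 18590)
  (nat_lit 8) nil nil))) (node (nat_lit 0) (nat_lit 18187) (nat_lit 7) (node (nat_lit 6) (nat_lit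
  18187) (nat_lit 8) nil (node (nat_lit 0) (nat_lit 18648) (nat_lit 8) nil nil)) nil)) (node
  (nat_lit 0) (nat_lit 17165) (nat_lit 6) (node (nat_lit 4) (nat_lit 17165) (nat_lit 7) nil (node
  (nat_lit 6) (nat_lit 17165) (nat_lit 7) nil (node (nat_lit 0) (nat_lit 17895) (nat_lit 7) nil
  nil))) nil)) nil))) (node (nat_lit 0) (nat_lit 0) (nat_lit 4) (node (nat_lit 5) (nat_lit 0)
  (nat_lit 5) (node (nat_lit 6) (nat_lit 35237) (nat_lit 6) (node (nat_lit 5) (nat_lit 40027)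
  (nat_lit 7) (node (nat_lit 7) (nat_lit 44663) (nat_lit 8) (node (nat_lit 5) (nat_lit 44787)
  (nat_lit 9) (node (nat_lit 6) (nat_lit 44952) (nat_lit 10) (node (nat_lit 7) (nat_lit 45739)
  (nat_lit 11) (node (nat_lit 6) (nat_lit 45739) (nat_lit 12) (node (nat_lit 5) (nat_lit 45739)
  (nat_lit 13) (node (nat_lit 6) (nat_lit 45807) (nat_lit 14) nil nil) nil) (node (nat_lit 5)
  (nat_lit 45739) (nat_lit 12) nil nil)) (node (nat_lit 4) (nat_lit 45355) (nat_lit 11) nil (node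
  (nat_lit 0) (nat_lit 45739) (nat_lit 11) nil nil))) (node (nat_lit 4) (nat_lit 44952) (nat_lit
  10) (node (nat_lit 7) (nat_lit 45739) (nat_lit 11) nil (node (nat_lit 6) (nat_lit 44625)
  (nat_lit 11) nil nil)) (node (nat_lit 0) (nat_lit 45615) (nat_lit 10) nil nil))) (node (nat_lit
  6) (nat_lit 44663) (nat_lit 9) (node (nat_lit 5) (nat_lit 44663) (nat_lit 10) (node (nat_lit 6)
  (nat_lit 45066) (nat_lit 11) nil nil) (node (nat_lit 7) (nat_lit 45372) (nat_lit 10) nil (node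
  (nat_lit 4) (nat_lit 44663) (nat_lit 10) nil nil))) (node (nat_lit 4) (nat_lit 44663) (nat_lit
  9) nil (node (nat_lit 0) (nat_lit 45232) (nat_lit 9) nil nil)))) (node (nat_lit 4) (nat_lit
  42016) (nat_lit 8) (node (nat_lit 6) (nat_lit 42487) (nat_lit 9) (node (nat_lit 4) (nat_lit
  39073) (nat_lit 10) nil nil) (node (nat_lit 7) (nat_lit 44626) (nat_lit 9) nil (node (nat_lit 0)
  (nat_lit 43917) (nat_lit 9) nil nil))) (node (nat_lit 0) (nat_lit 44663) (nat_lit 8) (node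
  (nat_lit 4) (nat_lit 44663) (nat_lit 9) nil (node (nat_lit 7) (nat_lit 45232) (nat_lit 9) nil
  nil)) nil))) (node (nat_lit 4) (nat_lit 39754) (nat_lit 7) (node (nat_lit 7) (nat_lit 44325)
  (nat_lit 8) (node (nat_lit 6) (nat_lit 44325) (nat_lit 9) (node (nat_lit 7) (nat_lit 45034)
  (nat_lit 10) nil nil) (node (nat_lit 5) (nat_lit 44325) (nat_lit 9) nil (node (nat_lit 4)
  (nat_lit 44325) (nat_lit 9) nil (node (nat_lit 0) (nat_lit 44728) (nat_lit 9) nil nil)))) (node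
  (nat_lit 5) (nat_lit 42297) (nat_lit 8) (node (nat_lit 4) (nat_lit 41897) (nat_lit 9) nil (node
  (nat_lit 7) (nat_lit 44198) (nat_lit 9) nil nil)) (node (nat_lit 6) (nat_lit 41447) (nat_lit 8)
  (node (nat_lit 5) (nat_lit 41047) (nat_lit 9) nil (node (nat_lit 7) (nat_lit 43348) (nat_lit 9)
  nil nil)) (node (nat_lit 0) (nat_lit 44046) (nat_lit 8) nil nil)))) (node (nat_lit 0) (nat_lit
  43541) (nat_lit 7) (node (nat_lit 6) (nat_lit 43541) (nat_lit 8) (node (nat_lit 4) (nat_lit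
  43541) (nat_lit 9) nil nil) (node (nat_lit 4) (nat_lit 43541) (nat_lit 8) (node (nat_lit 6)
  (nat_lit 43541) (nat_lit 9) nil nil) (node (nat_lit 5) (nat_lit 43541) (nat_lit 8) (node
  (nat_lit 4) (nat_lit 43541) (nat_lit 9) nil nil) (node (nat_lit 7) (nat_lit 44483) (nat_lit 8)
  nil (node (nat_lit 0) (nat_lit 44483) (nat_lit 8) nil nil))))) nil))) (node (nat_lit 4) (nat_lit
  34656) (nat_lit 6) (node (nat_lit 7) (nat_lit 42529) (nat_lit 7) nil (node (nat_lit 5) (nat_lit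
  37520) (nat_lit 7) nil (node (nat_lit 6) (nat_lit 37897) (nat_lit 7) (node (nat_lit 5) (nat_lit
  37374) (nat_lit 8) (node (nat_lit 4) (nat_lit 35939) (nat_lit 9) nil nil) (node (nat_lit 4)
  (nat_lit 39708) (nat_lit 8) nil nil)) nil))) (node (nat_lit 7) (nat_lit 40896) (nat_lit 6) (node
  (nat_lit 6) (nat_lit 40896) (nat_lit 7) (node (nat_lit 5) (nat_lit 40896) (nat_lit 8) nil nil)
  (node (nat_lit 4) (nat_lit 40896) (nat_lit 7) nil (node (nat_lit 0) (nat_lit 41813) (nat_lit 7)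
  nil nil))) (node (nat_lit 0) (nat_lit 40896) (nat_lit 6) (node (nat_lit 7) (nat_lit 41813)
  (nat_lit 7) nil nil) nil)))) (node (nat_lit 4) (nat_lit 0) (nat_lit 5) (node (nat_lit 6)
  (nat_lit 33802) (nat_lit 6) (node (nat_lit 4) (nat_lit 38251) (nat_lit 7) (node (nat_lit 7)
  (nat_lit 41559) (nat_lit 8) nil (node (nat_lit 5) (nat_lit 39707) (nat_lit 8) (node (nat_lit 7)
  (nat_lit 41608) (nat_lit 9) nil nil) (node (nat_lit 0) (nat_lit 41559) (nat_lit 8) nil nil)))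
  (node (nat_lit 5) (nat_lit 39233) (nat_lit 7) (node (nat_lit 4) (nat_lit 41343) (nat_lit 8)
  (node (nat_lit 7) (nat_lit 43244) (nat_lit 9) nil nil) (node (nat_lit 7) (nat_lit 42542)
  (nat_lit 8) nil (node (nat_lit 6) (nat_lit 39626) (nat_lit 8) (node (nat_lit 4) (nat_lit 36315)
  (nat_lit 9) (node (nat_lit 5) (nat_lit 36448) (nat_lit 10) (node (nat_lit 6) (nat_lit 36245)
  (nat_lit 11) nil nil) nil) nil) (node (nat_lit 0) (nat_lit 42542) (nat_lit 8) nil nil)))) (node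
  (nat_lit 0) (nat_lit 41676) (nat_lit 7) nil (node (nat_lit 7) (nat_lit 39395) (nat_lit 7) nil
  nil)))) (node (nat_lit 7) (nat_lit 39847) (nat_lit 6) (node (nat_lit 6) (nat_lit 39847) (nat_lit
  7) nil nil) (node (nat_lit 5) (nat_lit 34553) (nat_lit 6) (node (nat_lit 7) (nat_lit 40145)
  (nat_lit 7) nil (node (nat_lit 4) (nat_lit 35785) (nat_lit 7) nil (node (nat_lit 6) (nat_lit
  34962) (nat_lit 7) nil nil))) (node (nat_lit 0) (nat_lit 37482) (nat_lit 6) nil nil)))) (node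
  (nat_lit 6) (nat_lit 0) (nat_lit 5) (node (nat_lit 5) (nat_lit 35064) (nat_lit 6) (node (nat_lit
  7) (nat_lit 43427) (nat_lit 7) (node (nat_lit 5) (nat_lit 43427) (nat_lit 8) (node (nat_lit 6)
  (nat_lit 43790) (nat_lit 9) (node (nat_lit 7) (nat_lit 45079) (nat_lit 10) (node (nat_lit 6)
  (nat_lit 45079) (nat_lit 11) nil nil) nil) nil) nil) (node (nat_lit 6) (nat_lit 38846) (nat_lit
  7) nil (node (nat_lit 4) (nat_lit 37641) (nat_lit 7) nil (node (nat_lit 0) (nat_lit 40656)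
  (nat_lit 7) nil nil)))) (node (nat_lit 4) (nat_lit 33812) (nat_lit 6) (node (nat_lit 7) (nat_lit
  39405) (nat_lit 7) nil (node (nat_lit 5) (nat_lit 36676) (nat_lit 7) nil (node (nat_lit 6)
  (nat_lit 36816) (nat_lit 7) nil nil))) (node (nat_lit 0) (nat_lit 40291) (nat_lit 6) nil nil)))
  (node (nat_lit 0) (nat_lit 36418) (nat_lit 5) (node (nat_lit 6) (nat_lit 36976) (nat_lit 6)
  (node (nat_lit 5) (nat_lit 36976) (nat_lit 7) nil nil) (node (nat_lit 5) (nat_lit 36878)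
  (nat_lit 6) nil (node (nat_lit 7) (nat_lit 39625) (nat_lit 6) nil (node (nat_lit 4) (nat_lit
  35107) (nat_lit 6) (node (nat_lit 5) (nat_lit 35107) (nat_lit 7) nil nil) (node (nat_lit 0)
  (nat_lit 39625) (nat_lit 6) nil nil))))) nil)))) (node (nat_lit 5) (nat_lit 0) (nat_lit 4) (node
  (nat_lit 0) (nat_lit 0) (nat_lit 5) (node (nat_lit 4) (nat_lit 26536) (nat_lit 6) (node (nat_lit
  6) (nat_lit 29299) (nat_lit 7) (node (nat_lit 8) (nat_lit 32608) (nat_lit 8) nil (node (nat_lit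
  5) (nat_lit 29208) (nat_lit 8) nil (node (nat_lit 4) (nat_lit 31110) (nat_lit 8) nil (node
  (nat_lit 0) (nat_lit 32608) (nat_lit 8) nil nil)))) nil) (node (nat_lit 6) (nat_lit 26971)
  (nat_lit 6) (node (nat_lit 5) (nat_lit 29601) (nat_lit 7) (node (nat_lit 6) (nat_lit 32639)
  (nat_lit 8) nil nil) (node (nat_lit 8) (nat_lit 29700) (nat_lit 7) nil nil)) (node (nat_lit 5)
  (nat_lit 26218) (nat_lit 6) (node (nat_lit 6) (nat_lit 28728) (nat_lit 7) (node (nat_lit 8)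
  (nat_lit 32037) (nat_lit 8) nil nil) nil) (node (nat_lit 0) (nat_lit 30124) (nat_lit 6) nil
  nil)))) (node (nat_lit 4) (nat_lit 0) (nat_lit 5) (node (nat_lit 6) (nat_lit 0) (nat_lit 6)
  (node (nat_lit 4) (nat_lit 14703) (nat_lit 7) (node (nat_lit 5) (nat_lit 9049) (nat_lit 8) (node
  (nat_lit 4) (nat_lit 10494) (nat_lit 9) nil (node (nat_lit 0) (nat_lit 12869) (nat_lit 9) nil
  nil)) (node (nat_lit 0) (nat_lit 21229) (nat_lit 8) nil nil)) (node (nat_lit 5) (nat_lit 17783)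
  (nat_lit 7) (node (nat_lit 6) (nat_lit 22308) (nat_lit 8) (node (nat_lit 4) (nat_lit 23689)
  (nat_lit 9) nil nil) (node (nat_lit 0) (nat_lit 24309) (nat_lit 8) nil nil)) (node (nat_lit 0)
  (nat_lit 24499) (nat_lit 7) nil nil))) (node (nat_lit 0) (nat_lit 28149) (nat_lit 6) (node
  (nat_lit 6) (nat_lit 28149) (nat_lit 7) nil (node (nat_lit 4) (nat_lit 28149) (nat_lit 7) nil
  (node (nat_lit 5) (nat_lit 28149) (nat_lit 7) nil (node (nat_lit 0) (nat_lit 29768) (nat_lit 7)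
  nil nil)))) (node (nat_lit 5) (nat_lit 0) (nat_lit 6) (node (nat_lit 0) (nat_lit 13473) (nat_lit
  7) nil nil) nil))) nil)) nil))) nil))

noncomputable def t322 : Tr :=
  (node (nat_lit 4) (nat_lit 0) (nat_lit 4) (node (nat_lit 6) (nat_lit 47121) (nat_lit 5) (node
  (nat_lit 5) (nat_lit 64723) (nat_lit 6) (node (nat_lit 6) (nat_lit 67156) (nat_lit 7) (node
  (nat_lit 0) (nat_lit 72225) (nat_lit 8) nil (node (nat_lit 3) (nat_lit 69275) (nat_lit 8) (node
  (nat_lit 5) (nat_lit 72404) (nat_lit 9) nil (node (nat_lit 6) (nat_lit 70690) (nat_lit 9) nil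
  (node (nat_lit 4) (nat_lit 69327) (nat_lit 9) nil nil))) (node (nat_lit 4) (nat_lit 67156)
  (nat_lit 8) nil nil))) (node (nat_lit 4) (nat_lit 66929) (nat_lit 7) (node (nat_lit 6) (nat_lit
  68273) (nat_lit 8) (node (nat_lit 4) (nat_lit 69861) (nat_lit 9) (node (nat_lit 5) (nat_lit
  72179) (nat_lit 10) (node (nat_lit 6) (nat_lit 72179) (nat_lit 11) (node (nat_lit 4) (nat_lit
  72179) (nat_lit 12) (node (nat_lit 6) (nat_lit 72086) (nat_lit 13) (node (nat_lit 5) (nat_lit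
  54787) (nat_lit 14) (node (nat_lit 4) (nat_lit 37092) (nat_lit 15) nil nil) nil) nil) nil) nil)
  (node (nat_lit 3) (nat_lit 69156) (nat_lit 10) nil nil)) (node (nat_lit 3) (nat_lit 68276)
  (nat_lit 9) nil (node (nat_lit 0) (nat_lit 71494) (nat_lit 9) nil nil))) (node (nat_lit 5)
  (nat_lit 69412) (nat_lit 8) nil (node (nat_lit 3) (nat_lit 67400) (nat_lit 8) nil (node (nat_lit
  0) (nat_lit 70437) (nat_lit 8) nil nil)))) (node (nat_lit 3) (nat_lit 66480) (nat_lit 7) nil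
  (node (nat_lit 0) (nat_lit 69439) (nat_lit 7) nil nil)))) (node (nat_lit 3) (nat_lit 58380)
  (nat_lit 6) (node (nat_lit 4) (nat_lit 61316) (nat_lit 7) (node (nat_lit 9) (nat_lit 64518)
  (nat_lit 8) (node (nat_lit 6) (nat_lit 65870) (nat_lit 9) (node (nat_lit 9) (nat_lit 65068)
  (nat_lit 10) nil (node (nat_lit 4) (nat_lit 62094) (nat_lit 10) nil nil)) (node (nat_lit 5)
  (nat_lit 67648) (nat_lit 9) nil nil)) (node (nat_lit 6) (nat_lit 62780) (nat_lit 8) (node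
  (nat_lit 4) (nat_lit 56931) (nat_lit 9) nil nil) (node (nat_lit 5) (nat_lit 57965) (nat_lit 8)
  (node (nat_lit 6) (nat_lit 56911) (nat_lit 9) (node (nat_lit 4) (nat_lit 52011) (nat_lit 10) nil
  nil) nil) nil))) (node (nat_lit 6) (nat_lit 62626) (nat_lit 7) (node (nat_lit 4) (nat_lit 59549)
  (nat_lit 8) (node (nat_lit 9) (nat_lit 58279) (nat_lit 9) nil (node (nat_lit 5) (nat_lit 57971)
  (nat_lit 9) (node (nat_lit 6) (nat_lit 57701) (nat_lit 10) nil nil) nil)) (node (nat_lit 5)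
  (nat_lit 66749) (nat_lit 8) nil nil)) (node (nat_lit 5) (nat_lit 67729) (nat_lit 7) nil (node
  (nat_lit 0) (nat_lit 64136) (nat_lit 7) nil nil)))) (node (nat_lit 0) (nat_lit 66942) (nat_lit
  6) (node (nat_lit 4) (nat_lit 66942) (nat_lit 7) nil nil) nil))) (node (nat_lit 5) (nat_lit 0)
  (nat_lit 5) (node (nat_lit 4) (nat_lit 34636) (nat_lit 6) (node (nat_lit 6) (nat_lit 36432)
  (nat_lit 7) (node (nat_lit 4) (nat_lit 37804) (nat_lit 8) (node (nat_lit 5) (nat_lit 38892)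
  (nat_lit 9) nil (node (nat_lit 0) (nat_lit 38892) (nat_lit 9) nil (node (nat_lit 3) (nat_lit
  38356) (nat_lit 9) (node (nat_lit 6) (nat_lit 37923) (nat_lit 10) (node (nat_lit 4) (nat_lit
  38153) (nat_lit 11) nil nil) (node (nat_lit 4) (nat_lit 36729) (nat_lit 10) (node (nat_lit 5)
  (nat_lit 36107) (nat_lit 11) (node (nat_lit 6) (nat_lit 32727) (nat_lit 12) (node (nat_lit 4)
  (nat_lit 21209) (nat_lit 13) nil nil) nil) nil) nil)) nil))) (node (nat_lit 5) (nat_lit 38962)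
  (nat_lit 8) (node (nat_lit 6) (nat_lit 38962) (nat_lit 9) nil nil) (node (nat_lit 3) (nat_lit
  37748) (nat_lit 8) nil (node (nat_lit 0) (nat_lit 38007) (nat_lit 8) nil nil)))) (node (nat_lit
  3) (nat_lit 33765) (nat_lit 7) nil (node (nat_lit 0) (nat_lit 37423) (nat_lit 7) nil nil)))
  (node (nat_lit 3) (nat_lit 34899) (nat_lit 6) (node (nat_lit 6) (nat_lit 36421) (nat_lit 7)
  (node (nat_lit 4) (nat_lit 36681) (nat_lit 8) (node (nat_lit 6) (nat_lit 35751) (nat_lit 9) nil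
  (node (nat_lit 9) (nat_lit 36199) (nat_lit 9) nil nil)) (node (nat_lit 9) (nat_lit 37138)
  (nat_lit 8) nil (node (nat_lit 5) (nat_lit 37996) (nat_lit 8) nil nil))) (node (nat_lit 4)
  (nat_lit 34899) (nat_lit 7) nil nil)) (node (nat_lit 0) (nat_lit 36286) (nat_lit 6) nil nil)))
  (node (nat_lit 3) (nat_lit 56621) (nat_lit 5) (node (nat_lit 5) (nat_lit 70521) (nat_lit 6) nil
  (node (nat_lit 6) (nat_lit 56647) (nat_lit 6) (node (nat_lit 8) (nat_lit 59590) (nat_lit 7)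
  (node (nat_lit 4) (nat_lit 60582) (nat_lit 8) (node (nat_lit 8) (nat_lit 59799) (nat_lit 9) nil
  (node (nat_lit 5) (nat_lit 58149) (nat_lit 9) nil nil)) nil) (node (nat_lit 4) (nat_lit 56747)
  (nat_lit 7) (node (nat_lit 6) (nat_lit 59964) (nat_lit 8) (node (nat_lit 8) (nat_lit 58796)
  (nat_lit 9) (node (nat_lit 4) (nat_lit 54451) (nat_lit 10) nil nil) nil) (node (nat_lit 5)
  (nat_lit 56840) (nat_lit 8) (node (nat_lit 6) (nat_lit 56548) (nat_lit 9) nil nil) nil)) (node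
  (nat_lit 5) (nat_lit 62375) (nat_lit 7) nil nil))) (node (nat_lit 4) (nat_lit 63581) (nat_lit 6)
  (node (nat_lit 6) (nat_lit 65934) (nat_lit 7) (node (nat_lit 8) (nat_lit 61764) (nat_lit 8) nil
  (node (nat_lit 4) (nat_lit 57612) (nat_lit 8) (node (nat_lit 8) (nat_lit 54630) (nat_lit 9) nil
  nil) nil)) (node (nat_lit 5) (nat_lit 54812) (nat_lit 7) (node (nat_lit 6) (nat_lit 54812)
  (nat_lit 8) (node (nat_lit 4) (nat_lit 35607) (nat_lit 9) nil nil) nil) nil)) (node (nat_lit 0)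
  (nat_lit 65107) (nat_lit 6) nil nil)))) (node (nat_lit 0) (nat_lit 67089) (nat_lit 5) (node
  (nat_lit 6) (nat_lit 66692) (nat_lit 6) nil (node (nat_lit 4) (nat_lit 67089) (nat_lit 6) nil
  (node (nat_lit 5) (nat_lit 68815) (nat_lit 6) nil (node (nat_lit 3) (nat_lit 67089) (nat_lit 6)
  nil (node (nat_lit 0) (nat_lit 68815) (nat_lit 6) nil nil))))) nil)))) (node (nat_lit 5)
  (nat_lit 0) (nat_lit 4) (node (nat_lit 4) (nat_lit 54502) (nat_lit 5) (node (nat_lit 6) (nat_lit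
  62399) (nat_lit 6) (node (nat_lit 4) (nat_lit 68106) (nat_lit 7) (node (nat_lit 5) (nat_lit
  74770) (nat_lit 8) (node (nat_lit 6) (nat_lit 74770) (nat_lit 9) (node (nat_lit 5) (nat_lit
  59988) (nat_lit 10) (node (nat_lit 4) (nat_lit 38991) (nat_lit 11) nil (node (nat_lit 3)
  (nat_lit 59988) (nat_lit 11) nil (node (nat_lit 0) (nat_lit 60333) (nat_lit 11) nil nil))) (node
  (nat_lit 4) (nat_lit 74770) (nat_lit 10) (node (nat_lit 6) (nat_lit 74662) (nat_lit 11) nil nil)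
  (node (nat_lit 0) (nat_lit 76078) (nat_lit 10) nil (node (nat_lit 3) (nat_lit 74770) (nat_lit
  10) nil nil)))) (node (nat_lit 4) (nat_lit 74770) (nat_lit 9) (node (nat_lit 6) (nat_lit 74770)
  (nat_lit 10) nil nil) (node (nat_lit 3) (nat_lit 74770) (nat_lit 9) nil (node (nat_lit 0)
  (nat_lit 75507) (nat_lit 9) nil nil)))) (node (nat_lit 3) (nat_lit 72105) (nat_lit 8) (node
  (nat_lit 6) (nat_lit 73443) (nat_lit 9) (node (nat_lit 4) (nat_lit 74063) (nat_lit 10) (node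
  (nat_lit 6) (nat_lit 73832) (nat_lit 11) nil (node (nat_lit 5) (nat_lit 73328) (nat_lit 11)
  (node (nat_lit 6) (nat_lit 70796) (nat_lit 12) (node (nat_lit 5) (nat_lit 67424) (nat_lit 13)
  (node (nat_lit 4) (nat_lit 61510) (nat_lit 14) (node (nat_lit 6) (nat_lit 61403) (nat_lit 15)
  nil nil) nil) nil) nil) nil)) (node (nat_lit 11) (nat_lit 73297) (nat_lit 10) nil nil)) (node
  (nat_lit 4) (nat_lit 72710) (nat_lit 9) (node (nat_lit 6) (nat_lit 72806) (nat_lit 10) (node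
  (nat_lit 11) (nat_lit 71244) (nat_lit 11) nil nil) (node (nat_lit 5) (nat_lit 70682) (nat_lit
  10) (node (nat_lit 6) (nat_lit 66984) (nat_lit 11) (node (nat_lit 5) (nat_lit 59710) (nat_lit
  12) (node (nat_lit 4) (nat_lit 59710) (nat_lit 13) nil nil) nil) nil) (node (nat_lit 0) (nat_lit
  74765) (nat_lit 10) nil nil))) (node (nat_lit 5) (nat_lit 75235) (nat_lit 9) nil (node (nat_lit
  0) (nat_lit 75235) (nat_lit 9) nil nil)))) (node (nat_lit 0) (nat_lit 74860) (nat_lit 8) (node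
  (nat_lit 6) (nat_lit 74860) (nat_lit 9) nil nil) nil))) (node (nat_lit 3) (nat_lit 71583)
  (nat_lit 7) (node (nat_lit 4) (nat_lit 73273) (nat_lit 8) (node (nat_lit 10) (nat_lit 73853)
  (nat_lit 9) nil (node (nat_lit 6) (nat_lit 75179) (nat_lit 9) (node (nat_lit 4) (nat_lit 74006)
  (nat_lit 10) nil nil) nil)) (node (nat_lit 6) (nat_lit 71648) (nat_lit 8) (node (nat_lit 4)
  (nat_lit 70228) (nat_lit 9) (node (nat_lit 10) (nat_lit 70347) (nat_lit 10) nil (node (nat_lit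
  6) (nat_lit 70246) (nat_lit 10) nil (node (nat_lit 5) (nat_lit 67538) (nat_lit 10) (node
  (nat_lit 6) (nat_lit 67333) (nat_lit 11) (node (nat_lit 5) (nat_lit 68405) (nat_lit 12) nil nil)
  nil) nil))) (node (nat_lit 5) (nat_lit 74264) (nat_lit 9) nil (node (nat_lit 0) (nat_lit 74264)
  (nat_lit 9) nil nil))) (node (nat_lit 5) (nat_lit 75689) (nat_lit 8) nil (node (nat_lit 0)
  (nat_lit 75689) (nat_lit 8) nil nil)))) (node (nat_lit 0) (nat_lit 75594) (nat_lit 7) (node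
  (nat_lit 5) (nat_lit 76597) (nat_lit 8) nil (node (nat_lit 6) (nat_lit 75594) (nat_lit 8) nil
  (node (nat_lit 4) (nat_lit 75594) (nat_lit 8) nil (node (nat_lit 3) (nat_lit 75594) (nat_lit 8)
  nil (node (nat_lit 0) (nat_lit 76597) (nat_lit 8) nil nil))))) (node (nat_lit 5) (nat_lit 70621)
  (nat_lit 7) nil nil)))) (node (nat_lit 5) (nat_lit 68464) (nat_lit 6) (node (nat_lit 6) (nat_lit
  70352) (nat_lit 7) (node (nat_lit 4) (nat_lit 70369) (nat_lit 8) (node (nat_lit 5) (nat_lit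
  73589) (nat_lit 9) nil (node (nat_lit 6) (nat_lit 70388) (nat_lit 9) nil (node (nat_lit 3)
  (nat_lit 70481) (nat_lit 9) nil (node (nat_lit 0) (nat_lit 73589) (nat_lit 9) nil nil)))) (node
  (nat_lit 3) (nat_lit 71305) (nat_lit 8) nil (node (nat_lit 0) (nat_lit 73860) (nat_lit 8) nil
  nil))) (node (nat_lit 3) (nat_lit 73357) (nat_lit 7) (node (nat_lit 4) (nat_lit 73069) (nat_lit
  8) nil (node (nat_lit 6) (nat_lit 73357) (nat_lit 8) nil (node (nat_lit 5) (nat_lit 75873)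
  (nat_lit 8) nil nil))) (node (nat_lit 0) (nat_lit 73109) (nat_lit 7) nil nil))) (node (nat_lit
  3) (nat_lit 67117) (nat_lit 6) (node (nat_lit 6) (nat_lit 71237) (nat_lit 7) (node (nat_lit 4)
  (nat_lit 70876) (nat_lit 8) nil (node (nat_lit 9) (nat_lit 72628) (nat_lit 8) (node (nat_lit 4)
  (nat_lit 69481) (nat_lit 9) (node (nat_lit 5) (nat_lit 67978) (nat_lit 10) (node (nat_lit 6)
  (nat_lit 66280) (nat_lit 11) nil nil) nil) nil) nil)) (node (nat_lit 4) (nat_lit 70383) (nat_lit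
  7) (node (nat_lit 5) (nat_lit 74506) (nat_lit 8) nil (node (nat_lit 6) (nat_lit 70409) (nat_lit
  8) (node (nat_lit 4) (nat_lit 64220) (nat_lit 9) (node (nat_lit 5) (nat_lit 63304) (nat_lit 10)
  nil (node (nat_lit 9) (nat_lit 63873) (nat_lit 10) nil nil)) nil) nil)) (node (nat_lit 5)
  (nat_lit 74462) (nat_lit 7) nil (node (nat_lit 0) (nat_lit 72873) (nat_lit 7) nil nil)))) (node
  (nat_lit 0) (nat_lit 73067) (nat_lit 6) (node (nat_lit 5) (nat_lit 74482) (nat_lit 7) nil (node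
  (nat_lit 6) (nat_lit 73067) (nat_lit 7) nil (node (nat_lit 4) (nat_lit 73067) (nat_lit 7) nil
  (node (nat_lit 3) (nat_lit 73067) (nat_lit 7) nil nil)))) nil)))) (node (nat_lit 3) (nat_lit
  65668) (nat_lit 5) (node (nat_lit 6) (nat_lit 69797) (nat_lit 6) (node (nat_lit 8) (nat_lit
  73888) (nat_lit 7) (node (nat_lit 5) (nat_lit 77497) (nat_lit 8) (node (nat_lit 8) (nat_lit
  77497) (nat_lit 9) (node (nat_lit 6) (nat_lit 77497) (nat_lit 10) (node (nat_lit 5) (nat_lit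
  77497) (nat_lit 11) (node (nat_lit 6) (nat_lit 77497) (nat_lit 12) (node (nat_lit 8) (nat_lit
  77497) (nat_lit 13) nil nil) nil) nil) nil) (node (nat_lit 6) (nat_lit 77497) (nat_lit 9) nil
  nil)) (node (nat_lit 4) (nat_lit 75420) (nat_lit 8) (node (nat_lit 6) (nat_lit 75520) (nat_lit
  9) (node (nat_lit 4) (nat_lit 71175) (nat_lit 10) nil nil) nil) (node (nat_lit 0) (nat_lit
  77265) (nat_lit 8) nil nil))) (node (nat_lit 4) (nat_lit 72759) (nat_lit 7) (node (nat_lit 8)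
  (nat_lit 71173) (nat_lit 8) (node (nat_lit 5) (nat_lit 73290) (nat_lit 9) nil (node (nat_lit 4)
  (nat_lit 68961) (nat_lit 9) (node (nat_lit 6) (nat_lit 68010) (nat_lit 10) nil (node (nat_lit 5)
  (nat_lit 66438) (nat_lit 10) (node (nat_lit 6) (nat_lit 61522) (nat_lit 11) nil nil) nil)) nil))
  (node (nat_lit 5) (nat_lit 76154) (nat_lit 8) nil (node (nat_lit 6) (nat_lit 74859) (nat_lit 8)
  (node (nat_lit 8) (nat_lit 74568) (nat_lit 9) (node (nat_lit 4) (nat_lit 73148) (nat_lit 10) nil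
  nil) nil) (node (nat_lit 0) (nat_lit 76154) (nat_lit 8) nil nil)))) (node (nat_lit 5) (nat_lit
  75525) (nat_lit 7) nil (node (nat_lit 0) (nat_lit 77402) (nat_lit 7) nil nil)))) (node (nat_lit
  4) (nat_lit 68749) (nat_lit 6) (node (nat_lit 5) (nat_lit 74477) (nat_lit 7) nil (node (nat_lit
  6) (nat_lit 69035) (nat_lit 7) (node (nat_lit 8) (nat_lit 68808) (nat_lit 8) nil nil) (node
  (nat_lit 8) (nat_lit 70666) (nat_lit 7) (node (nat_lit 6) (nat_lit 67730) (nat_lit 8) (node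
  (nat_lit 4) (nat_lit 65534) (nat_lit 9) nil nil) nil) nil))) (node (nat_lit 5) (nat_lit 75787)
  (nat_lit 6) nil (node (nat_lit 0) (nat_lit 75787) (nat_lit 6) nil nil)))) (node (nat_lit 0)
  (nat_lit 70153) (nat_lit 5) (node (nat_lit 6) (nat_lit 69358) (nat_lit 6) (node (nat_lit 8)
  (nat_lit 72106) (nat_lit 7) nil nil) (node (nat_lit 4) (nat_lit 70153) (nat_lit 6) nil (node
  (nat_lit 5) (nat_lit 72825) (nat_lit 6) nil (node (nat_lit 3) (nat_lit 70153) (nat_lit 6) nil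
  (node (nat_lit 0) (nat_lit 72825) (nat_lit 6) nil nil))))) nil))) (node (nat_lit 3) (nat_lit 0)
  (nat_lit 4) (node (nat_lit 4) (nat_lit 60719) (nat_lit 5) (node (nat_lit 5) (nat_lit 51609)
  (nat_lit 6) (node (nat_lit 4) (nat_lit 51609) (nat_lit 7) nil (node (nat_lit 7) (nat_lit 51609)
  (nat_lit 7) nil (node (nat_lit 6) (nat_lit 36320) (nat_lit 7) nil nil))) (node (nat_lit 6)
  (nat_lit 64461) (nat_lit 6) (node (nat_lit 4) (nat_lit 61338) (nat_lit 7) (node (nat_lit 7)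
  (nat_lit 61284) (nat_lit 8) (node (nat_lit 4) (nat_lit 58245) (nat_lit 9) (node (nat_lit 5)
  (nat_lit 56371) (nat_lit 10) nil nil) nil) (node (nat_lit 5) (nat_lit 58245) (nat_lit 8) (node
  (nat_lit 6) (nat_lit 58245) (nat_lit 9) nil nil) nil)) (node (nat_lit 7) (nat_lit 67064)
  (nat_lit 7) (node (nat_lit 6) (nat_lit 67608) (nat_lit 8) (node (nat_lit 4) (nat_lit 65349)
  (nat_lit 9) (node (nat_lit 7) (nat_lit 65484) (nat_lit 10) nil nil) nil) nil) (node (nat_lit 5)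
  (nat_lit 70189) (nat_lit 7) nil nil))) (node (nat_lit 7) (nat_lit 67069) (nat_lit 6) (node
  (nat_lit 6) (nat_lit 70144) (nat_lit 7) (node (nat_lit 4) (nat_lit 68447) (nat_lit 8) (node
  (nat_lit 6) (nat_lit 67583) (nat_lit 9) (node (nat_lit 7) (nat_lit 66740) (nat_lit 10) nil nil)
  nil) nil) (node (nat_lit 5) (nat_lit 72797) (nat_lit 7) nil nil)) (node (nat_lit 0) (nat_lit
  69205) (nat_lit 6) nil nil)))) (node (nat_lit 5) (nat_lit 71996) (nat_lit 5) (node (nat_lit 7)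
  (nat_lit 71599) (nat_lit 6) (node (nat_lit 6) (nat_lit 71287) (nat_lit 7) (node (nat_lit 7)
  (nat_lit 73013) (nat_lit 8) (node (nat_lit 4) (nat_lit 72717) (nat_lit 9) (node (nat_lit 6)
  (nat_lit 72714) (nat_lit 10) nil nil) nil) nil) nil) (node (nat_lit 4) (nat_lit 71996) (nat_lit
  6) (node (nat_lit 6) (nat_lit 71996) (nat_lit 7) nil nil) (node (nat_lit 6) (nat_lit 71996)
  (nat_lit 6) (node (nat_lit 5) (nat_lit 74744) (nat_lit 7) nil nil) (node (nat_lit 0) (nat_lit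
  73722) (nat_lit 6) nil nil)))) (node (nat_lit 6) (nat_lit 0) (nat_lit 5) (node (nat_lit 4)
  (nat_lit 67403) (nat_lit 6) (node (nat_lit 7) (nat_lit 69848) (nat_lit 7) (node (nat_lit 4)
  (nat_lit 69797) (nat_lit 8) (node (nat_lit 6) (nat_lit 66981) (nat_lit 9) (node (nat_lit 4)
  (nat_lit 65592) (nat_lit 10) nil nil) (node (nat_lit 5) (nat_lit 66001) (nat_lit 9) (node
  (nat_lit 6) (nat_lit 59698) (nat_lit 10) (node (nat_lit 7) (nat_lit 59698) (nat_lit 11) nil nil)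
  nil) nil)) (node (nat_lit 5) (nat_lit 73243) (nat_lit 8) nil (node (nat_lit 6) (nat_lit 69607)
  (nat_lit 8) nil nil))) (node (nat_lit 5) (nat_lit 64339) (nat_lit 7) (node (nat_lit 6) (nat_lit
  51921) (nat_lit 8) (node (nat_lit 7) (nat_lit 36300) (nat_lit 9) nil nil) nil) (node (nat_lit 6)
  (nat_lit 67543) (nat_lit 7) nil (node (nat_lit 0) (nat_lit 73132) (nat_lit 7) nil nil)))) (node
  (nat_lit 5) (nat_lit 75384) (nat_lit 6) nil (node (nat_lit 0) (nat_lit 70943) (nat_lit 6) nil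
  nil))) (node (nat_lit 0) (nat_lit 71783) (nat_lit 5) nil nil)))) (node (nat_lit 0) (nat_lit 0)
  (nat_lit 4) (node (nat_lit 5) (nat_lit 69051) (nat_lit 5) nil (node (nat_lit 6) (nat_lit 63102)
  (nat_lit 5) (node (nat_lit 5) (nat_lit 72739) (nat_lit 6) nil (node (nat_lit 4) (nat_lit 62206)
  (nat_lit 6) (node (nat_lit 7) (nat_lit 67934) (nat_lit 7) nil nil) (node (nat_lit 3) (nat_lit
  64406) (nat_lit 6) nil (node (nat_lit 0) (nat_lit 67808) (nat_lit 6) nil nil)))) (node (nat_lit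
  4) (nat_lit 60997) (nat_lit 5) (node (nat_lit 6) (nat_lit 60334) (nat_lit 6) (node (nat_lit 4)
  (nat_lit 60474) (nat_lit 7) nil (node (nat_lit 7) (nat_lit 66062) (nat_lit 7) nil nil)) (node
  (nat_lit 7) (nat_lit 65703) (nat_lit 6) nil (node (nat_lit 3) (nat_lit 60997) (nat_lit 6) nil
  (node (nat_lit 5) (nat_lit 65703) (nat_lit 6) nil nil)))) (node (nat_lit 3) (nat_lit 62263)
  (nat_lit 5) (node (nat_lit 6) (nat_lit 62263) (nat_lit 6) nil (node (nat_lit 7) (nat_lit 66969)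
  (nat_lit 6) nil (node (nat_lit 5) (nat_lit 66969) (nat_lit 6) nil nil))) (node (nat_lit 0)
  (nat_lit 69051) (nat_lit 5) nil nil))))) nil))))

noncomputable def t323 : Tr :=
  (node (nat_lit 3) (nat_lit 0) (nat_lit 2) (node (nat_lit 0) (nat_lit 0) (nat_lit 3) (node
  (nat_lit 5) (nat_lit 0) (nat_lit 4) t319 (node (nat_lit 4) (nat_lit 0) (nat_lit 4) (node
  (nat_lit 6) (nat_lit 39250) (nat_lit 5) (node (nat_lit 5) (nat_lit 41174) (nat_lit 6) (node
  (nat_lit 6) (nat_lit 46417) (nat_lit 7) (node (nat_lit 4) (nat_lit 47232) (nat_lit 8) (node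
  (nat_lit 5) (nat_lit 48464) (nat_lit 9) (node (nat_lit 4) (nat_lit 49710) (nat_lit 10) (node
  (nat_lit 6) (nat_lit 51759) (nat_lit 11) (node (nat_lit 5) (nat_lit 51759) (nat_lit 12) (node
  (nat_lit 4) (nat_lit 51759) (nat_lit 13) nil nil) (node (nat_lit 4) (nat_lit 51759) (nat_lit 12)
  nil nil)) (node (nat_lit 3) (nat_lit 50839) (nat_lit 11) (node (nat_lit 5) (nat_lit 50784)
  (nat_lit 12) nil (node (nat_lit 4) (nat_lit 50889) (nat_lit 12) (node (nat_lit 5) (nat_lit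
  50926) (nat_lit 13) nil nil) nil)) (node (nat_lit 0) (nat_lit 51267) (nat_lit 11) nil nil)))
  (node (nat_lit 6) (nat_lit 51524) (nat_lit 10) (node (nat_lit 5) (nat_lit 51353) (nat_lit 11)
  (node (nat_lit 4) (nat_lit 50735) (nat_lit 12) (node (nat_lit 5) (nat_lit 51203) (nat_lit 13)
  (node (nat_lit 6) (nat_lit 52005) (nat_lit 14) nil (node (nat_lit 3) (nat_lit 50395) (nat_lit
  14) nil nil)) (node (nat_lit 6) (nat_lit 51732) (nat_lit 13) nil nil)) (node (nat_lit 3)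
  (nat_lit 51353) (nat_lit 12) nil nil)) (node (nat_lit 3) (nat_lit 51524) (nat_lit 11) nil (node
  (nat_lit 0) (nat_lit 51895) (nat_lit 11) nil nil))) (node (nat_lit 3) (nat_lit 50210) (nat_lit
  10) (node (nat_lit 4) (nat_lit 50874) (nat_lit 11) nil (node (nat_lit 5) (nat_lit 50502)
  (nat_lit 11) (node (nat_lit 4) (nat_lit 48386) (nat_lit 12) nil nil) (node (nat_lit 6) (nat_lit
  51733) (nat_lit 11) nil (node (nat_lit 0) (nat_lit 51733) (nat_lit 11) nil nil)))) (node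
  (nat_lit 0) (nat_lit 51359) (nat_lit 10) nil nil)))) (node (nat_lit 3) (nat_lit 48591) (nat_lit
  9) (node (nat_lit 4) (nat_lit 49652) (nat_lit 10) nil (node (nat_lit 6) (nat_lit 50643) (nat_lit
  10) nil (node (nat_lit 5) (nat_lit 49133) (nat_lit 10) (node (nat_lit 12) (nat_lit 48434)
  (nat_lit 11) nil nil) (node (nat_lit 0) (nat_lit 50643) (nat_lit 10) nil nil)))) (node (nat_lit
  0) (nat_lit 50298) (nat_lit 9) (node (nat_lit 6) (nat_lit 50790) (nat_lit 10) nil (node (nat_lit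
  4) (nat_lit 50298) (nat_lit 10) nil (node (nat_lit 5) (nat_lit 50298) (nat_lit 10) nil (node
  (nat_lit 3) (nat_lit 50298) (nat_lit 10) nil (node (nat_lit 0) (nat_lit 50790) (nat_lit 10) nil
  nil))))) nil))) (node (nat_lit 3) (nat_lit 47333) (nat_lit 8) nil (node (nat_lit 0) (nat_lit
  48126) (nat_lit 8) nil nil))) (node (nat_lit 4) (nat_lit 42985) (nat_lit 7) (node (nat_lit 5)
  (nat_lit 44737) (nat_lit 8) (node (nat_lit 6) (nat_lit 48737) (nat_lit 9) (node (nat_lit 4)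
  (nat_lit 48597) (nat_lit 10) (node (nat_lit 5) (nat_lit 48597) (nat_lit 11) nil (node (nat_lit
  6) (nat_lit 29386) (nat_lit 11) nil nil)) nil) nil) (node (nat_lit 6) (nat_lit 47597) (nat_lit
  8) nil (node (nat_lit 3) (nat_lit 43685) (nat_lit 8) nil (node (nat_lit 0) (nat_lit 47468)
  (nat_lit 8) nil nil)))) (node (nat_lit 3) (nat_lit 42833) (nat_lit 7) nil (node (nat_lit 0)
  (nat_lit 46362) (nat_lit 7) nil nil)))) (node (nat_lit 3) (nat_lit 40572) (nat_lit 6) nil (node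
  (nat_lit 0) (nat_lit 44243) (nat_lit 6) nil nil))) (node (nat_lit 5) (nat_lit 31584) (nat_lit 5)
  (node (nat_lit 4) (nat_lit 38212) (nat_lit 6) (node (nat_lit 6) (nat_lit 45917) (nat_lit 7)
  (node (nat_lit 5) (nat_lit 46528) (nat_lit 8) (node (nat_lit 6) (nat_lit 49158) (nat_lit 9)
  (node (nat_lit 4) (nat_lit 49158) (nat_lit 10) (node (nat_lit 5) (nat_lit 49158) (nat_lit 11)
  (node (nat_lit 4) (nat_lit 48969) (nat_lit 12) nil nil) nil) nil) (node (nat_lit 4) (nat_lit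
  46167) (nat_lit 9) (node (nat_lit 5) (nat_lit 45981) (nat_lit 10) (node (nat_lit 6) (nat_lit
  47538) (nat_lit 11) (node (nat_lit 4) (nat_lit 47538) (nat_lit 12) (node (nat_lit 5) (nat_lit
  47538) (nat_lit 13) (node (nat_lit 4) (nat_lit 47425) (nat_lit 14) (node (nat_lit 6) (nat_lit
  27302) (nat_lit 15) nil nil) nil) nil) nil) nil) nil) nil)) (node (nat_lit 3) (nat_lit 46833)
  (nat_lit 8) nil (node (nat_lit 0) (nat_lit 47626) (nat_lit 8) nil nil))) (node (nat_lit 3)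
  (nat_lit 41213) (nat_lit 7) (node (nat_lit 5) (nat_lit 41598) (nat_lit 8) (node (nat_lit 4)
  (nat_lit 36698) (nat_lit 9) (node (nat_lit 5) (nat_lit 33023) (nat_lit 10) (node (nat_lit 6)
  (nat_lit 30565) (nat_lit 11) (node (nat_lit 4) (nat_lit 24402) (nat_lit 12) (node (nat_lit 5)
  (nat_lit 24402) (nat_lit 13) (node (nat_lit 4) (nat_lit 24097) (nat_lit 14) nil nil) nil) nil)
  nil) nil) nil) (node (nat_lit 4) (nat_lit 39272) (nat_lit 8) (node (nat_lit 5) (nat_lit 30005)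
  (nat_lit 9) (node (nat_lit 6) (nat_lit 31954) (nat_lit 10) (node (nat_lit 4) (nat_lit 31954)
  (nat_lit 11) nil nil) nil) nil) (node (nat_lit 6) (nat_lit 44955) (nat_lit 8) nil nil))) (node
  (nat_lit 0) (nat_lit 44209) (nat_lit 7) nil nil))) (node (nat_lit 3) (nat_lit 41719) (nat_lit 6)
  (node (nat_lit 4) (nat_lit 44183) (nat_lit 7) nil (node (nat_lit 5) (nat_lit 40573) (nat_lit 7)
  (node (nat_lit 4) (nat_lit 38467) (nat_lit 8) (node (nat_lit 5) (nat_lit 36720) (nat_lit 9) nil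
  nil) nil) nil)) (node (nat_lit 0) (nat_lit 43595) (nat_lit 6) nil nil))) (node (nat_lit 3)
  (nat_lit 37247) (nat_lit 5) (node (nat_lit 6) (nat_lit 47789) (nat_lit 6) (node (nat_lit 8)
  (nat_lit 47789) (nat_lit 7) nil nil) (node (nat_lit 5) (nat_lit 41496) (nat_lit 6) (node
  (nat_lit 4) (nat_lit 44499) (nat_lit 7) (node (nat_lit 5) (nat_lit 44938) (nat_lit 8) (node
  (nat_lit 8) (nat_lit 45837) (nat_lit 9) (node (nat_lit 4) (nat_lit 45660) (nat_lit 10) nil nil)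
  (node (nat_lit 6) (nat_lit 30541) (nat_lit 9) (node (nat_lit 4) (nat_lit 26587) (nat_lit 10) nil
  nil) nil)) (node (nat_lit 8) (nat_lit 44084) (nat_lit 8) (node (nat_lit 4) (nat_lit 42359)
  (nat_lit 9) (node (nat_lit 5) (nat_lit 39948) (nat_lit 10) (node (nat_lit 6) (nat_lit 32923)
  (nat_lit 11) (node (nat_lit 4) (nat_lit 32923) (nat_lit 12) nil nil) nil) nil) nil) (node
  (nat_lit 6) (nat_lit 48546) (nat_lit 8) nil nil))) (node (nat_lit 8) (nat_lit 41720) (nat_lit 7)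
  (node (nat_lit 4) (nat_lit 42631) (nat_lit 8) (node (nat_lit 5) (nat_lit 38282) (nat_lit 9)
  (node (nat_lit 4) (nat_lit 38835) (nat_lit 10) nil (node (nat_lit 6) (nat_lit 39285) (nat_lit
  10) nil nil)) (node (nat_lit 8) (nat_lit 42319) (nat_lit 9) nil nil)) (node (nat_lit 6) (nat_lit
  44784) (nat_lit 8) nil (node (nat_lit 0) (nat_lit 44784) (nat_lit 8) nil nil))) (node (nat_lit
  6) (nat_lit 46296) (nat_lit 7) nil nil))) (node (nat_lit 4) (nat_lit 43018) (nat_lit 6) (node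
  (nat_lit 5) (nat_lit 45012) (nat_lit 7) (node (nat_lit 6) (nat_lit 32300) (nat_lit 8) (node
  (nat_lit 4) (nat_lit 20126) (nat_lit 9) nil nil) nil) (node (nat_lit 0) (nat_lit 47818) (nat_lit
  7) nil nil)) (node (nat_lit 0) (nat_lit 47789) (nat_lit 6) nil nil)))) (node (nat_lit 0)
  (nat_lit 44628) (nat_lit 5) (node (nat_lit 5) (nat_lit 44231) (nat_lit 6) (node (nat_lit 4)
  (nat_lit 44231) (nat_lit 7) nil (node (nat_lit 6) (nat_lit 46697) (nat_lit 7) nil (node (nat_lit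
  8) (nat_lit 46697) (nat_lit 7) nil nil))) (node (nat_lit 6) (nat_lit 47646) (nat_lit 6) (node
  (nat_lit 8) (nat_lit 48592) (nat_lit 7) nil nil) (node (nat_lit 4) (nat_lit 44628) (nat_lit 6)
  nil (node (nat_lit 3) (nat_lit 45209) (nat_lit 6) nil (node (nat_lit 0) (nat_lit 47646) (nat_lit
  6) (node (nat_lit 3) (nat_lit 47646) (nat_lit 7) nil nil) nil))))) nil)))) (node (nat_lit 3)
  (nat_lit 0) (nat_lit 4) (node (nat_lit 4) (nat_lit 36435) (nat_lit 5) (node (nat_lit 5) (nat_lit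
  42015) (nat_lit 6) (node (nat_lit 7) (nat_lit 45103) (nat_lit 7) (node (nat_lit 5) (nat_lit
  45672) (nat_lit 8) (node (nat_lit 4) (nat_lit 43041) (nat_lit 9) nil nil) nil) (node (nat_lit 4)
  (nat_lit 43913) (nat_lit 7) (node (nat_lit 7) (nat_lit 42287) (nat_lit 8) nil nil) (node
  (nat_lit 6) (nat_lit 19044) (nat_lit 7) nil (node (nat_lit 0) (nat_lit 46815) (nat_lit 7) nil
  nil)))) (node (nat_lit 6) (nat_lit 47971) (nat_lit 6) nil (node (nat_lit 7) (nat_lit 41530)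
  (nat_lit 6) (node (nat_lit 6) (nat_lit 46330) (nat_lit 7) nil (node (nat_lit 5) (nat_lit 42455)
  (nat_lit 7) (node (nat_lit 4) (nat_lit 39676) (nat_lit 8) (node (nat_lit 5) (nat_lit 33814)
  (nat_lit 9) nil nil) (node (nat_lit 7) (nat_lit 41200) (nat_lit 8) (node (nat_lit 4) (nat_lit
  40216) (nat_lit 9) (node (nat_lit 5) (nat_lit 37635) (nat_lit 10) nil nil) nil) nil)) nil))
  (node (nat_lit 0) (nat_lit 47390) (nat_lit 6) nil nil)))) (node (nat_lit 5) (nat_lit 0) (nat_lit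
  5) (node (nat_lit 7) (nat_lit 43458) (nat_lit 6) (node (nat_lit 6) (nat_lit 50095) (nat_lit 7)
  (node (nat_lit 5) (nat_lit 50095) (nat_lit 8) (node (nat_lit 6) (nat_lit 51636) (nat_lit 9)
  (node (nat_lit 7) (nat_lit 51636) (nat_lit 10) nil nil) nil) nil) (node (nat_lit 4) (nat_lit
  45792) (nat_lit 7) nil nil)) (node (nat_lit 4) (nat_lit 40216) (nat_lit 6) (node (nat_lit 7)
  (nat_lit 41389) (nat_lit 7) (node (nat_lit 6) (nat_lit 44454) (nat_lit 8) nil (node (nat_lit 4)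
  (nat_lit 39132) (nat_lit 8) (node (nat_lit 5) (nat_lit 35507) (nat_lit 9) (node (nat_lit 6)
  (nat_lit 32611) (nat_lit 10) nil nil) nil) nil)) (node (nat_lit 5) (nat_lit 42791) (nat_lit 7)
  (node (nat_lit 7) (nat_lit 38563) (nat_lit 8) nil nil) (node (nat_lit 6) (nat_lit 45016)
  (nat_lit 7) nil nil))) (node (nat_lit 6) (nat_lit 47057) (nat_lit 6) nil (node (nat_lit 0)
  (nat_lit 48228) (nat_lit 6) (node (nat_lit 5) (nat_lit 48228) (nat_lit 7) nil nil) nil)))) (node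
  (nat_lit 6) (nat_lit 45249) (nat_lit 5) (node (nat_lit 5) (nat_lit 45809) (nat_lit 6) (node
  (nat_lit 6) (nat_lit 50135) (nat_lit 7) (node (nat_lit 7) (nat_lit 50301) (nat_lit 8) (node
  (nat_lit 5) (nat_lit 50306) (nat_lit 9) (node (nat_lit 7) (nat_lit 51070) (nat_lit 10) (node
  (nat_lit 6) (nat_lit 52079) (nat_lit 11) nil nil) (node (nat_lit 6) (nat_lit 51947) (nat_lit 10)
  nil (node (nat_lit 4) (nat_lit 49823) (nat_lit 10) nil (node (nat_lit 0) (nat_lit 51636)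
  (nat_lit 10) nil nil)))) (node (nat_lit 4) (nat_lit 50662) (nat_lit 9) nil (node (nat_lit 0)
  (nat_lit 51713) (nat_lit 9) nil nil))) nil) nil) (node (nat_lit 4) (nat_lit 45249) (nat_lit 6)
  nil nil)) (node (nat_lit 0) (nat_lit 45140) (nat_lit 5) (node (nat_lit 6) (nat_lit 46658)
  (nat_lit 6) nil (node (nat_lit 5) (nat_lit 45140) (nat_lit 6) nil (node (nat_lit 7) (nat_lit
  45140) (nat_lit 6) nil (node (nat_lit 4) (nat_lit 45140) (nat_lit 6) nil nil)))) nil)))) (node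
  (nat_lit 0) (nat_lit 0) (nat_lit 4) (node (nat_lit 5) (nat_lit 40368) (nat_lit 5) (node (nat_lit
  6) (nat_lit 47887) (nat_lit 6) (node (nat_lit 5) (nat_lit 48290) (nat_lit 7) (node (nat_lit 7)
  (nat_lit 51085) (nat_lit 8) (node (nat_lit 5) (nat_lit 51085) (nat_lit 9) (node (nat_lit 6)
  (nat_lit 51815) (nat_lit 10) nil nil) (node (nat_lit 6) (nat_lit 51499) (nat_lit 9) nil nil))
  (node (nat_lit 4) (nat_lit 47893) (nat_lit 8) nil (node (nat_lit 3) (nat_lit 48871) (nat_lit 8)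
  nil (node (nat_lit 0) (nat_lit 49836) (nat_lit 8) nil nil)))) (node (nat_lit 4) (nat_lit 47561)
  (nat_lit 7) (node (nat_lit 7) (nat_lit 50049) (nat_lit 8) nil nil) (node (nat_lit 3) (nat_lit
  48290) (nat_lit 7) nil (node (nat_lit 0) (nat_lit 49818) (nat_lit 7) nil nil)))) (node (nat_lit
  7) (nat_lit 47873) (nat_lit 6) (node (nat_lit 6) (nat_lit 49400) (nat_lit 7) nil nil) (node
  (nat_lit 4) (nat_lit 39054) (nat_lit 6) nil (node (nat_lit 3) (nat_lit 43102) (nat_lit 6) nil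
  (node (nat_lit 0) (nat_lit 47292) (nat_lit 6) nil nil))))) (node (nat_lit 6) (nat_lit 45220)
  (nat_lit 5) (node (nat_lit 5) (nat_lit 45832) (nat_lit 6) (node (nat_lit 6) (nat_lit 50160)
  (nat_lit 7) (node (nat_lit 7) (nat_lit 51286) (nat_lit 8) (node (nat_lit 5) (nat_lit 51286)
  (nat_lit 9) nil nil) nil) (node (nat_lit 7) (nat_lit 49796) (nat_lit 7) nil nil)) (node (nat_lit
  4) (nat_lit 45220) (nat_lit 6) nil (node (nat_lit 3) (nat_lit 45220) (nat_lit 6) nil nil)))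
  (node (nat_lit 4) (nat_lit 39557) (nat_lit 5) (node (nat_lit 6) (nat_lit 46160) (nat_lit 6) nil
  (node (nat_lit 7) (nat_lit 46160) (nat_lit 6) nil (node (nat_lit 5) (nat_lit 38764) (nat_lit 6)
  nil (node (nat_lit 3) (nat_lit 39557) (nat_lit 6) nil (node (nat_lit 0) (nat_lit 43410) (nat_lit
  6) nil nil))))) (node (nat_lit 3) (nat_lit 39620) (nat_lit 5) (node (nat_lit 4) (nat_lit 39620)
  (nat_lit 6) nil (node (nat_lit 6) (nat_lit 43473) (nat_lit 6) nil (node (nat_lit 5) (nat_lit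
  40040) (nat_lit 6) nil (node (nat_lit 7) (nat_lit 43473) (nat_lit 6) nil (node (nat_lit 0)
  (nat_lit 43473) (nat_lit 6) nil nil))))) (node (nat_lit 0) (nat_lit 44663) (nat_lit 5) nil
  nil))))) nil)))) t321) (node (nat_lit 0) (nat_lit 0) (nat_lit 2) (node (nat_lit 3) (nat_lit 0)
  (nat_lit 3) t322 (node (nat_lit 4) (nat_lit 0) (nat_lit 3) (node (nat_lit 3) (nat_lit 0)
  (nat_lit 4) (node (nat_lit 4) (nat_lit 45666) (nat_lit 5) (node (nat_lit 5) (nat_lit 51187)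
  (nat_lit 6) (node (nat_lit 4) (nat_lit 33908) (nat_lit 7) (node (nat_lit 0) (nat_lit 35397)
  (nat_lit 8) (node (nat_lit 5) (nat_lit 35397) (nat_lit 9) nil nil) (node (nat_lit 3) (nat_lit
  33425) (nat_lit 8) (node (nat_lit 5) (nat_lit 34418) (nat_lit 9) nil nil) nil)) (node (nat_lit
  7) (nat_lit 52336) (nat_lit 7) (node (nat_lit 4) (nat_lit 51883) (nat_lit 8) (node (nat_lit 7)
  (nat_lit 51959) (nat_lit 9) (node (nat_lit 5) (nat_lit 54245) (nat_lit 10) nil (node (nat_lit 3)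
  (nat_lit 51465) (nat_lit 10) nil nil)) (node (nat_lit 3) (nat_lit 51807) (nat_lit 9) nil nil))
  (node (nat_lit 5) (nat_lit 54602) (nat_lit 8) nil (node (nat_lit 3) (nat_lit 53389) (nat_lit 8)
  nil (node (nat_lit 0) (nat_lit 55748) (nat_lit 8) nil nil)))) (node (nat_lit 3) (nat_lit 52241)
  (nat_lit 7) nil (node (nat_lit 0) (nat_lit 53943) (nat_lit 7) nil nil)))) (node (nat_lit 3)
  (nat_lit 60673) (nat_lit 6) (node (nat_lit 7) (nat_lit 60651) (nat_lit 7) (node (nat_lit 9)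
  (nat_lit 59894) (nat_lit 8) nil (node (nat_lit 4) (nat_lit 55578) (nat_lit 8) (node (nat_lit 7)
  (nat_lit 55591) (nat_lit 9) nil (node (nat_lit 5) (nat_lit 58961) (nat_lit 9) nil nil)) nil))
  (node (nat_lit 4) (nat_lit 58971) (nat_lit 7) (node (nat_lit 7) (nat_lit 57957) (nat_lit 8) nil
  (node (nat_lit 5) (nat_lit 54910) (nat_lit 8) (node (nat_lit 4) (nat_lit 54910) (nat_lit 9) nil
  nil) nil)) (node (nat_lit 5) (nat_lit 67129) (nat_lit 7) nil nil))) (node (nat_lit 0) (nat_lit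
  59713) (nat_lit 6) nil nil))) (node (nat_lit 5) (nat_lit 58938) (nat_lit 5) (node (nat_lit 7)
  (nat_lit 61957) (nat_lit 6) (node (nat_lit 4) (nat_lit 63441) (nat_lit 7) (node (nat_lit 5)
  (nat_lit 66977) (nat_lit 8) (node (nat_lit 4) (nat_lit 66977) (nat_lit 9) (node (nat_lit 7)
  (nat_lit 66977) (nat_lit 10) (node (nat_lit 5) (nat_lit 35397) (nat_lit 11) nil nil) nil) nil)
  (node (nat_lit 7) (nat_lit 66281) (nat_lit 8) (node (nat_lit 3) (nat_lit 66482) (nat_lit 9)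
  (node (nat_lit 7) (nat_lit 67569) (nat_lit 10) nil nil) nil) (node (nat_lit 3) (nat_lit 64573)
  (nat_lit 8) nil nil))) nil) (node (nat_lit 3) (nat_lit 60664) (nat_lit 6) (node (nat_lit 4)
  (nat_lit 60664) (nat_lit 7) nil nil) (node (nat_lit 4) (nat_lit 58815) (nat_lit 6) (node
  (nat_lit 5) (nat_lit 61422) (nat_lit 7) nil (node (nat_lit 3) (nat_lit 59758) (nat_lit 7) nil
  nil)) (node (nat_lit 0) (nat_lit 61743) (nat_lit 6) nil nil)))) (node (nat_lit 3) (nat_lit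
  53740) (nat_lit 5) (node (nat_lit 4) (nat_lit 61835) (nat_lit 6) (node (nat_lit 8) (nat_lit
  64221) (nat_lit 7) (node (nat_lit 7) (nat_lit 60406) (nat_lit 8) nil nil) (node (nat_lit 7)
  (nat_lit 64268) (nat_lit 7) (node (nat_lit 4) (nat_lit 55425) (nat_lit 8) (node (nat_lit 8)
  (nat_lit 53651) (nat_lit 9) nil (node (nat_lit 5) (nat_lit 53170) (nat_lit 9) (node (nat_lit 4)
  (nat_lit 53045) (nat_lit 10) nil nil) nil)) nil) (node (nat_lit 5) (nat_lit 52041) (nat_lit 7)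
  (node (nat_lit 4) (nat_lit 46761) (nat_lit 8) nil nil) nil))) (node (nat_lit 7) (nat_lit 59397)
  (nat_lit 6) (node (nat_lit 4) (nat_lit 60119) (nat_lit 7) (node (nat_lit 8) (nat_lit 60772)
  (nat_lit 8) (node (nat_lit 4) (nat_lit 57343) (nat_lit 9) (node (nat_lit 7) (nat_lit 56564)
  (nat_lit 10) nil nil) nil) (node (nat_lit 7) (nat_lit 61215) (nat_lit 8) (node (nat_lit 8)
  (nat_lit 58362) (nat_lit 9) nil nil) (node (nat_lit 5) (nat_lit 62032) (nat_lit 8) nil nil)))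
  nil) (node (nat_lit 5) (nat_lit 63186) (nat_lit 6) nil (node (nat_lit 0) (nat_lit 63186)
  (nat_lit 6) nil nil)))) (node (nat_lit 0) (nat_lit 61073) (nat_lit 5) (node (nat_lit 4) (nat_lit
  61073) (nat_lit 6) nil (node (nat_lit 7) (nat_lit 61073) (nat_lit 6) nil nil)) nil)))) (node
  (nat_lit 0) (nat_lit 0) (nat_lit 4) (node (nat_lit 5) (nat_lit 69549) (nat_lit 5) (node (nat_lit
  7) (nat_lit 70794) (nat_lit 6) (node (nat_lit 4) (nat_lit 70794) (nat_lit 7) nil nil) (node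
  (nat_lit 4) (nat_lit 69549) (nat_lit 6) nil (node (nat_lit 3) (nat_lit 69549) (nat_lit 6) nil
  (node (nat_lit 0) (nat_lit 70794) (nat_lit 6) nil nil)))) (node (nat_lit 4) (nat_lit 63446)
  (nat_lit 5) (node (nat_lit 5) (nat_lit 70794) (nat_lit 6) (node (nat_lit 7) (nat_lit 70794)
  (nat_lit 7) (node (nat_lit 4) (nat_lit 70794) (nat_lit 8) nil (node (nat_lit 5) (nat_lit 70794)
  (nat_lit 8) nil (node (nat_lit 3) (nat_lit 70794) (nat_lit 8) nil (node (nat_lit 0) (nat_lit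
  70794) (nat_lit 8) nil nil)))) (node (nat_lit 3) (nat_lit 70794) (nat_lit 7) nil (node (nat_lit
  0) (nat_lit 70794) (nat_lit 7) nil nil))) (node (nat_lit 3) (nat_lit 66672) (nat_lit 6) (node
  (nat_lit 5) (nat_lit 70794) (nat_lit 7) nil (node (nat_lit 7) (nat_lit 70794) (nat_lit 7) nil
  (node (nat_lit 4) (nat_lit 67401) (nat_lit 7) nil nil))) (node (nat_lit 0) (nat_lit 70794)
  (nat_lit 6) nil nil))) (node (nat_lit 3) (nat_lit 64861) (nat_lit 5) (node (nat_lit 4) (nat_lit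
  62578) (nat_lit 6) (node (nat_lit 5) (nat_lit 68841) (nat_lit 7) (node (nat_lit 4) (nat_lit
  68841) (nat_lit 8) (node (nat_lit 7) (nat_lit 35397) (nat_lit 9) nil nil) nil) (node (nat_lit 8)
  (nat_lit 63307) (nat_lit 7) nil (node (nat_lit 7) (nat_lit 68841) (nat_lit 7) nil nil))) (node
  (nat_lit 7) (nat_lit 70794) (nat_lit 6) nil (node (nat_lit 5) (nat_lit 70794) (nat_lit 6) nil
  (node (nat_lit 3) (nat_lit 64861) (nat_lit 6) nil (node (nat_lit 0) (nat_lit 70165) (nat_lit 6)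
  nil nil))))) (node (nat_lit 0) (nat_lit 70794) (nat_lit 5) (node (nat_lit 4) (nat_lit 70794)
  (nat_lit 6) nil (node (nat_lit 5) (nat_lit 70794) (nat_lit 6) nil nil)) nil)))) nil)) (node
  (nat_lit 0) (nat_lit 0) (nat_lit 3) (node (nat_lit 5) (nat_lit 0) (nat_lit 4) (node (nat_lit 4)
  (nat_lit 64254) (nat_lit 5) (node (nat_lit 6) (nat_lit 73825) (nat_lit 6) (node (nat_lit 5)
  (nat_lit 75829) (nat_lit 7) (node (nat_lit 6) (nat_lit 76863) (nat_lit 8) (node (nat_lit 4)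
  (nat_lit 76863) (nat_lit 9) (node (nat_lit 5) (nat_lit 77675) (nat_lit 10) nil (node (nat_lit 6)
  (nat_lit 77675) (nat_lit 10) nil nil)) nil) (node (nat_lit 3) (nat_lit 75829) (nat_lit 8) nil
  (node (nat_lit 0) (nat_lit 76863) (nat_lit 8) nil nil))) (node (nat_lit 4) (nat_lit 72672)
  (nat_lit 7) (node (nat_lit 5) (nat_lit 75610) (nat_lit 8) (node (nat_lit 6) (nat_lit 76070)
  (nat_lit 9) nil (node (nat_lit 4) (nat_lit 75610) (nat_lit 9) nil nil)) (node (nat_lit 3)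
  (nat_lit 72609) (nat_lit 8) (node (nat_lit 4) (nat_lit 72204) (nat_lit 9) nil nil) (node
  (nat_lit 0) (nat_lit 75290) (nat_lit 8) nil nil))) (node (nat_lit 3) (nat_lit 73825) (nat_lit 7)
  (node (nat_lit 3) (nat_lit 73825) (nat_lit 8) nil nil) (node (nat_lit 0) (nat_lit 75409)
  (nat_lit 7) nil nil)))) (node (nat_lit 3) (nat_lit 66103) (nat_lit 6) (node (nat_lit 4) (nat_lit
  65713) (nat_lit 7) nil (node (nat_lit 5) (nat_lit 71039) (nat_lit 7) nil (node (nat_lit 3)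
  (nat_lit 65713) (nat_lit 7) nil nil))) (node (nat_lit 5) (nat_lit 73825) (nat_lit 6) (node
  (nat_lit 6) (nat_lit 75409) (nat_lit 7) nil (node (nat_lit 3) (nat_lit 73825) (nat_lit 7) nil
  nil)) (node (nat_lit 0) (nat_lit 73069) (nat_lit 6) nil nil)))) (node (nat_lit 3) (nat_lit
  65765) (nat_lit 5) (node (nat_lit 6) (nat_lit 74835) (nat_lit 6) (node (nat_lit 8) (nat_lit
  74835) (nat_lit 7) nil (node (nat_lit 5) (nat_lit 75886) (nat_lit 7) nil nil)) (node (nat_lit 4)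
  (nat_lit 63604) (nat_lit 6) (node (nat_lit 8) (nat_lit 64054) (nat_lit 7) nil (node (nat_lit 6)
  (nat_lit 68539) (nat_lit 7) nil nil)) (node (nat_lit 3) (nat_lit 68246) (nat_lit 6) nil (node
  (nat_lit 5) (nat_lit 74532) (nat_lit 6) (node (nat_lit 6) (nat_lit 75583) (nat_lit 7) nil (node
  (nat_lit 4) (nat_lit 74532) (nat_lit 7) nil nil)) (node (nat_lit 0) (nat_lit 69649) (nat_lit 6)
  nil nil))))) (node (nat_lit 0) (nat_lit 71707) (nat_lit 5) (node (nat_lit 6) (nat_lit 75033)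
  (nat_lit 6) (node (nat_lit 5) (nat_lit 76085) (nat_lit 7) nil nil) (node (nat_lit 4) (nat_lit
  71707) (nat_lit 6) nil (node (nat_lit 5) (nat_lit 75033) (nat_lit 6) (node (nat_lit 6) (nat_lit
  76085) (nat_lit 7) nil nil) (node (nat_lit 3) (nat_lit 71707) (nat_lit 6) nil nil)))) nil)))
  (node (nat_lit 3) (nat_lit 0) (nat_lit 4) (node (nat_lit 4) (nat_lit 58481) (nat_lit 5) (node
  (nat_lit 7) (nat_lit 64088) (nat_lit 6) (node (nat_lit 6) (nat_lit 69023) (nat_lit 7) nil nil)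
  (node (nat_lit 6) (nat_lit 70584) (nat_lit 6) nil (node (nat_lit 5) (nat_lit 65654) (nat_lit 6)
  (node (nat_lit 6) (nat_lit 33839) (nat_lit 7) nil nil) (node (nat_lit 3) (nat_lit 57757)
  (nat_lit 6) nil nil)))) (node (nat_lit 6) (nat_lit 69962) (nat_lit 5) nil (node (nat_lit 5)
  (nat_lit 69962) (nat_lit 5) nil (node (nat_lit 3) (nat_lit 60264) (nat_lit 5) (node (nat_lit 7)
  (nat_lit 63553) (nat_lit 6) nil (node (nat_lit 4) (nat_lit 62597) (nat_lit 6) (node (nat_lit 8)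
  (nat_lit 65523) (nat_lit 7) (node (nat_lit 7) (nat_lit 64722) (nat_lit 8) nil nil) nil) (node
  (nat_lit 5) (nat_lit 67437) (nat_lit 6) nil (node (nat_lit 6) (nat_lit 67437) (nat_lit 6) nil
  nil)))) (node (nat_lit 0) (nat_lit 69962) (nat_lit 5) nil nil))))) (node (nat_lit 4) (nat_lit 0)
  (nat_lit 4) (node (nat_lit 6) (nat_lit 72140) (nat_lit 5) (node (nat_lit 5) (nat_lit 76372)
  (nat_lit 6) (node (nat_lit 6) (nat_lit 77956) (nat_lit 7) (node (nat_lit 4) (nat_lit 77956)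
  (nat_lit 8) (node (nat_lit 5) (nat_lit 78975) (nat_lit 9) (node (nat_lit 4) (nat_lit 78975)
  (nat_lit 10) (node (nat_lit 6) (nat_lit 78975) (nat_lit 11) nil nil) (node (nat_lit 6) (nat_lit
  78975) (nat_lit 10) nil nil)) (node (nat_lit 3) (nat_lit 77956) (nat_lit 9) nil (node (nat_lit
  0) (nat_lit 78975) (nat_lit 9) nil nil))) nil) (node (nat_lit 4) (nat_lit 76372) (nat_lit 7)
  (node (nat_lit 5) (nat_lit 78088) (nat_lit 8) nil (node (nat_lit 6) (nat_lit 78088) (nat_lit 8)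
  nil (node (nat_lit 3) (nat_lit 76372) (nat_lit 8) nil (node (nat_lit 0) (nat_lit 78088) (nat_lit
  8) nil nil)))) (node (nat_lit 3) (nat_lit 76372) (nat_lit 7) nil (node (nat_lit 0) (nat_lit
  77956) (nat_lit 7) nil nil)))) (node (nat_lit 3) (nat_lit 71346) (nat_lit 6) nil (node (nat_lit
  0) (nat_lit 76372) (nat_lit 6) nil nil))) (node (nat_lit 3) (nat_lit 62451) (nat_lit 5) (node
  (nat_lit 4) (nat_lit 65349) (nat_lit 6) (node (nat_lit 5) (nat_lit 72865) (nat_lit 7) (node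
  (nat_lit 6) (nat_lit 56685) (nat_lit 8) (node (nat_lit 4) (nat_lit 36019) (nat_lit 9) nil nil)
  nil) (node (nat_lit 6) (nat_lit 70284) (nat_lit 7) nil nil)) (node (nat_lit 6) (nat_lit 74378)
  (nat_lit 6) nil (node (nat_lit 5) (nat_lit 74378) (nat_lit 6) nil (node (nat_lit 3) (nat_lit
  62634) (nat_lit 6) (node (nat_lit 8) (nat_lit 64081) (nat_lit 7) (node (nat_lit 4) (nat_lit
  60722) (nat_lit 8) nil nil) nil) (node (nat_lit 0) (nat_lit 69624) (nat_lit 6) nil nil)))))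
  (node (nat_lit 5) (nat_lit 71764) (nat_lit 5) (node (nat_lit 4) (nat_lit 71057) (nat_lit 6)
  (node (nat_lit 6) (nat_lit 76632) (nat_lit 7) nil nil) nil) (node (nat_lit 0) (nat_lit 71764)
  (nat_lit 5) (node (nat_lit 6) (nat_lit 75091) (nat_lit 6) nil (node (nat_lit 4) (nat_lit 71764)
  (nat_lit 6) nil (node (nat_lit 5) (nat_lit 75091) (nat_lit 6) nil nil))) nil)))) (node (nat_lit
  0) (nat_lit 0) (nat_lit 4) (node (nat_lit 6) (nat_lit 70201) (nat_lit 5) nil (node (nat_lit 3)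
  (nat_lit 62878) (nat_lit 5) nil (node (nat_lit 5) (nat_lit 68366) (nat_lit 5) nil (node (nat_lit
  4) (nat_lit 62197) (nat_lit 5) nil (node (nat_lit 0) (nat_lit 68366) (nat_lit 5) nil nil)))))
  nil)))) nil))) nil))

noncomputable def t324 : Tr :=
  (node (nat_lit 3) (nat_lit 0) (nat_lit 3) (node (nat_lit 4) (nat_lit 0) (nat_lit 4) (node
  (nat_lit 5) (nat_lit 0) (nat_lit 5) (node (nat_lit 4) (nat_lit 86592) (nat_lit 6) (node (nat_lit
  6) (nat_lit 86413) (nat_lit 7) (node (nat_lit 4) (nat_lit 87188) (nat_lit 8) (node (nat_lit 5)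
  (nat_lit 87188) (nat_lit 9) (node (nat_lit 6) (nat_lit 87188) (nat_lit 10) (node (nat_lit 5)
  (nat_lit 87188) (nat_lit 11) (node (nat_lit 4) (nat_lit 87188) (nat_lit 12) nil nil) nil) nil)
  nil) (node (nat_lit 5) (nat_lit 86383) (nat_lit 8) nil (node (nat_lit 3) (nat_lit 87188)
  (nat_lit 8) nil (node (nat_lit 0) (nat_lit 87188) (nat_lit 8) nil nil)))) (node (nat_lit 3)
  (nat_lit 87188) (nat_lit 7) nil (node (nat_lit 0) (nat_lit 87188) (nat_lit 7) nil nil))) (node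
  (nat_lit 3) (nat_lit 81735) (nat_lit 6) (node (nat_lit 4) (nat_lit 86925) (nat_lit 7) nil (node
  (nat_lit 5) (nat_lit 83494) (nat_lit 7) (node (nat_lit 4) (nat_lit 87078) (nat_lit 8) nil nil)
  (node (nat_lit 6) (nat_lit 82168) (nat_lit 7) (node (nat_lit 5) (nat_lit 80697) (nat_lit 8) nil
  nil) (node (nat_lit 0) (nat_lit 86925) (nat_lit 7) nil nil)))) (node (nat_lit 0) (nat_lit 87188)
  (nat_lit 6) nil nil))) (node (nat_lit 6) (nat_lit 0) (nat_lit 5) (node (nat_lit 5) (nat_lit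
  98252) (nat_lit 6) (node (nat_lit 4) (nat_lit 106910) (nat_lit 7) (node (nat_lit 5) (nat_lit
  106910) (nat_lit 8) (node (nat_lit 6) (nat_lit 106910) (nat_lit 9) (node (nat_lit 4) (nat_lit
  89322) (nat_lit 10) (node (nat_lit 6) (nat_lit 67787) (nat_lit 11) nil nil) nil) nil) (node
  (nat_lit 6) (nat_lit 106910) (nat_lit 8) (node (nat_lit 4) (nat_lit 108093) (nat_lit 9) (node
  (nat_lit 5) (nat_lit 108093) (nat_lit 10) (node (nat_lit 6) (nat_lit 108093) (nat_lit 11) (node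
  (nat_lit 4) (nat_lit 109039) (nat_lit 12) (node (nat_lit 6) (nat_lit 109039) (nat_lit 13) (node
  (nat_lit 5) (nat_lit 109039) (nat_lit 14) (node (nat_lit 4) (nat_lit 87188) (nat_lit 15) nil
  nil) nil) nil) nil) nil) nil) nil) nil)) (node (nat_lit 6) (nat_lit 100516) (nat_lit 7) (node
  (nat_lit 3) (nat_lit 100106) (nat_lit 8) nil nil) (node (nat_lit 3) (nat_lit 105695) (nat_lit 7)
  (node (nat_lit 6) (nat_lit 104729) (nat_lit 8) nil (node (nat_lit 5) (nat_lit 107301) (nat_lit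
  8) (node (nat_lit 4) (nat_lit 109915) (nat_lit 9) (node (nat_lit 5) (nat_lit 108223) (nat_lit
  10) (node (nat_lit 6) (nat_lit 106096) (nat_lit 11) nil nil) nil) nil) nil)) (node (nat_lit 0)
  (nat_lit 106986) (nat_lit 7) nil nil)))) (node (nat_lit 3) (nat_lit 100695) (nat_lit 6) (node
  (nat_lit 4) (nat_lit 108662) (nat_lit 7) nil (node (nat_lit 6) (nat_lit 105218) (nat_lit 7)
  (node (nat_lit 5) (nat_lit 104636) (nat_lit 8) nil nil) (node (nat_lit 5) (nat_lit 103819)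
  (nat_lit 7) (node (nat_lit 9) (nat_lit 105009) (nat_lit 8) (node (nat_lit 6) (nat_lit 101754)
  (nat_lit 9) nil nil) nil) (node (nat_lit 0) (nat_lit 108662) (nat_lit 7) nil nil)))) (node
  (nat_lit 0) (nat_lit 104911) (nat_lit 6) nil nil))) (node (nat_lit 3) (nat_lit 101795) (nat_lit
  5) (node (nat_lit 6) (nat_lit 103487) (nat_lit 6) (node (nat_lit 5) (nat_lit 106792) (nat_lit 7)
  (node (nat_lit 8) (nat_lit 107521) (nat_lit 8) (node (nat_lit 4) (nat_lit 104362) (nat_lit 9)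
  (node (nat_lit 5) (nat_lit 100138) (nat_lit 10) (node (nat_lit 6) (nat_lit 95113) (nat_lit 11)
  nil nil) nil) nil) (node (nat_lit 4) (nat_lit 109235) (nat_lit 8) (node (nat_lit 5) (nat_lit
  109235) (nat_lit 9) (node (nat_lit 6) (nat_lit 109235) (nat_lit 10) (node (nat_lit 4) (nat_lit
  97481) (nat_lit 11) nil nil) nil) nil) (node (nat_lit 6) (nat_lit 107748) (nat_lit 8) (node
  (nat_lit 8) (nat_lit 104767) (nat_lit 9) nil nil) nil))) (node (nat_lit 8) (nat_lit 106588)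
  (nat_lit 7) (node (nat_lit 5) (nat_lit 107614) (nat_lit 8) (node (nat_lit 4) (nat_lit 109731)
  (nat_lit 9) (node (nat_lit 5) (nat_lit 106497) (nat_lit 10) nil nil) nil) nil) (node (nat_lit 0)
  (nat_lit 109084) (nat_lit 7) nil nil))) (node (nat_lit 5) (nat_lit 103408) (nat_lit 6) (node
  (nat_lit 4) (nat_lit 108942) (nat_lit 7) nil (node (nat_lit 8) (nat_lit 104595) (nat_lit 7)
  (node (nat_lit 6) (nat_lit 100360) (nat_lit 8) nil nil) (node (nat_lit 6) (nat_lit 104895)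
  (nat_lit 7) (node (nat_lit 8) (nat_lit 103549) (nat_lit 8) (node (nat_lit 4) (nat_lit 104592)
  (nat_lit 9) (node (nat_lit 5) (nat_lit 101086) (nat_lit 10) nil nil) nil) (node (nat_lit 5)
  (nat_lit 102308) (nat_lit 8) nil nil)) (node (nat_lit 0) (nat_lit 108942) (nat_lit 7) nil
  nil)))) (node (nat_lit 4) (nat_lit 107186) (nat_lit 6) (node (nat_lit 5) (nat_lit 107186)
  (nat_lit 7) (node (nat_lit 6) (nat_lit 107186) (nat_lit 8) (node (nat_lit 4) (nat_lit 62831)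
  (nat_lit 9) nil nil) nil) nil) (node (nat_lit 0) (nat_lit 107186) (nat_lit 6) nil nil)))) (node
  (nat_lit 0) (nat_lit 106376) (nat_lit 5) (node (nat_lit 6) (nat_lit 106376) (nat_lit 6) nil
  (node (nat_lit 5) (nat_lit 106376) (nat_lit 6) nil (node (nat_lit 3) (nat_lit 106376) (nat_lit
  6) nil (node (nat_lit 0) (nat_lit 108879) (nat_lit 6) nil nil)))) nil)))) (node (nat_lit 3)
  (nat_lit 0) (nat_lit 4) (node (nat_lit 5) (nat_lit 106957) (nat_lit 5) (node (nat_lit 7)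
  (nat_lit 113095) (nat_lit 6) (node (nat_lit 6) (nat_lit 116379) (nat_lit 7) (node (nat_lit 5)
  (nat_lit 116413) (nat_lit 8) (node (nat_lit 6) (nat_lit 113560) (nat_lit 9) nil (node (nat_lit
  7) (nat_lit 116517) (nat_lit 9) (node (nat_lit 5) (nat_lit 114485) (nat_lit 10) nil nil) (node
  (nat_lit 4) (nat_lit 117137) (nat_lit 9) (node (nat_lit 5) (nat_lit 107666) (nat_lit 10) (node
  (nat_lit 6) (nat_lit 104695) (nat_lit 11) (node (nat_lit 7) (nat_lit 104183) (nat_lit 12) (node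
  (nat_lit 5) (nat_lit 101215) (nat_lit 13) nil nil) nil) nil) nil) nil))) (node (nat_lit 7)
  (nat_lit 117830) (nat_lit 8) (node (nat_lit 5) (nat_lit 116471) (nat_lit 9) (node (nat_lit 6)
  (nat_lit 114630) (nat_lit 10) nil nil) (node (nat_lit 4) (nat_lit 113670) (nat_lit 9) nil nil))
  (node (nat_lit 4) (nat_lit 116840) (nat_lit 8) (node (nat_lit 5) (nat_lit 112653) (nat_lit 9)
  (node (nat_lit 6) (nat_lit 110488) (nat_lit 10) (node (nat_lit 7) (nat_lit 106119) (nat_lit 11)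
  nil nil) nil) nil) nil))) (node (nat_lit 4) (nat_lit 118526) (nat_lit 7) (node (nat_lit 5)
  (nat_lit 118021) (nat_lit 8) (node (nat_lit 6) (nat_lit 118309) (nat_lit 9) (node (nat_lit 7)
  (nat_lit 103599) (nat_lit 10) (node (nat_lit 5) (nat_lit 79572) (nat_lit 11) nil nil) nil) nil)
  nil) (node (nat_lit 0) (nat_lit 120809) (nat_lit 7) nil nil))) (node (nat_lit 4) (nat_lit
  116028) (nat_lit 6) (node (nat_lit 5) (nat_lit 111545) (nat_lit 7) (node (nat_lit 6) (nat_lit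
  106815) (nat_lit 8) (node (nat_lit 7) (nat_lit 84495) (nat_lit 9) nil nil) nil) nil) (node
  (nat_lit 6) (nat_lit 112960) (nat_lit 6) (node (nat_lit 5) (nat_lit 116796) (nat_lit 7) (node
  (nat_lit 7) (nat_lit 118327) (nat_lit 8) (node (nat_lit 6) (nat_lit 117479) (nat_lit 9) (node
  (nat_lit 5) (nat_lit 115446) (nat_lit 10) nil nil) nil) (node (nat_lit 4) (nat_lit 118888)
  (nat_lit 8) nil nil)) (node (nat_lit 4) (nat_lit 114215) (nat_lit 7) (node (nat_lit 5) (nat_lit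
  111164) (nat_lit 8) nil nil) nil)) (node (nat_lit 0) (nat_lit 118972) (nat_lit 6) nil nil))))
  (node (nat_lit 4) (nat_lit 108313) (nat_lit 5) (node (nat_lit 5) (nat_lit 103303) (nat_lit 6)
  (node (nat_lit 6) (nat_lit 82191) (nat_lit 7) (node (nat_lit 4) (nat_lit 82191) (nat_lit 8) nil
  (node (nat_lit 5) (nat_lit 82191) (nat_lit 8) nil (node (nat_lit 0) (nat_lit 82191) (nat_lit 8)
  nil nil))) (node (nat_lit 7) (nat_lit 103303) (nat_lit 7) nil (node (nat_lit 4) (nat_lit 104546)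
  (nat_lit 7) nil nil))) (node (nat_lit 6) (nat_lit 107978) (nat_lit 6) (node (nat_lit 4) (nat_lit
  109220) (nat_lit 7) nil (node (nat_lit 7) (nat_lit 107978) (nat_lit 7) (node (nat_lit 6)
  (nat_lit 108695) (nat_lit 8) nil nil) nil)) (node (nat_lit 7) (nat_lit 107944) (nat_lit 6) (node
  (nat_lit 6) (nat_lit 107334) (nat_lit 7) (node (nat_lit 4) (nat_lit 110004) (nat_lit 8) (node
  (nat_lit 6) (nat_lit 110004) (nat_lit 9) nil nil) (node (nat_lit 7) (nat_lit 108051) (nat_lit 8)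
  (node (nat_lit 5) (nat_lit 106657) (nat_lit 9) nil nil) nil)) (node (nat_lit 5) (nat_lit 107510)
  (nat_lit 7) nil nil)) (node (nat_lit 0) (nat_lit 110052) (nat_lit 6) nil nil)))) (node (nat_lit
  6) (nat_lit 108664) (nat_lit 5) (node (nat_lit 5) (nat_lit 114409) (nat_lit 6) (node (nat_lit 7)
  (nat_lit 118468) (nat_lit 7) (node (nat_lit 5) (nat_lit 121356) (nat_lit 8) (node (nat_lit 6)
  (nat_lit 120853) (nat_lit 9) (node (nat_lit 7) (nat_lit 119744) (nat_lit 10) (node (nat_lit 5)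
  (nat_lit 119012) (nat_lit 11) nil nil) (node (nat_lit 5) (nat_lit 118717) (nat_lit 10) nil (node
  (nat_lit 4) (nat_lit 119086) (nat_lit 10) nil nil))) nil) (node (nat_lit 6) (nat_lit 115015)
  (nat_lit 8) nil nil)) (node (nat_lit 6) (nat_lit 112765) (nat_lit 7) (node (nat_lit 7) (nat_lit
  110485) (nat_lit 8) nil nil) (node (nat_lit 4) (nat_lit 112867) (nat_lit 7) (node (nat_lit 5)
  (nat_lit 107553) (nat_lit 8) (node (nat_lit 6) (nat_lit 107311) (nat_lit 9) nil nil) nil) nil)))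
  (node (nat_lit 4) (nat_lit 125273) (nat_lit 6) (node (nat_lit 5) (nat_lit 111922) (nat_lit 7)
  (node (nat_lit 6) (nat_lit 100944) (nat_lit 8) (node (nat_lit 7) (nat_lit 86293) (nat_lit 9) nil
  nil) nil) nil) (node (nat_lit 0) (nat_lit 120679) (nat_lit 6) nil nil))) (node (nat_lit 0)
  (nat_lit 125018) (nat_lit 5) nil nil)))) (node (nat_lit 5) (nat_lit 0) (nat_lit 4) (node
  (nat_lit 4) (nat_lit 105138) (nat_lit 5) (node (nat_lit 5) (nat_lit 95317) (nat_lit 6) (node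
  (nat_lit 6) (nat_lit 78102) (nat_lit 7) (node (nat_lit 4) (nat_lit 82804) (nat_lit 8) (node
  (nat_lit 6) (nat_lit 82804) (nat_lit 9) nil nil) (node (nat_lit 3) (nat_lit 78878) (nat_lit 8)
  nil (node (nat_lit 0) (nat_lit 83296) (nat_lit 8) nil nil))) (node (nat_lit 3) (nat_lit 97130)
  (nat_lit 7) nil (node (nat_lit 0) (nat_lit 101858) (nat_lit 7) nil nil))) (node (nat_lit 6)
  (nat_lit 105138) (nat_lit 6) nil (node (nat_lit 3) (nat_lit 106951) (nat_lit 6) nil nil))) (node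
  (nat_lit 3) (nat_lit 102178) (nat_lit 5) (node (nat_lit 6) (nat_lit 107834) (nat_lit 6) (node
  (nat_lit 8) (nat_lit 110037) (nat_lit 7) (node (nat_lit 5) (nat_lit 107515) (nat_lit 8) (node
  (nat_lit 6) (nat_lit 105499) (nat_lit 9) nil nil) nil) (node (nat_lit 5) (nat_lit 110373)
  (nat_lit 7) (node (nat_lit 6) (nat_lit 107139) (nat_lit 8) nil nil) (node (nat_lit 4) (nat_lit
  112350) (nat_lit 7) nil nil))) (node (nat_lit 4) (nat_lit 104886) (nat_lit 6) (node (nat_lit 5)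
  (nat_lit 105033) (nat_lit 7) (node (nat_lit 6) (nat_lit 100457) (nat_lit 8) (node (nat_lit 5)
  (nat_lit 79111) (nat_lit 9) nil nil) nil) nil) (node (nat_lit 5) (nat_lit 110598) (nat_lit 6)
  (node (nat_lit 6) (nat_lit 112048) (nat_lit 7) (node (nat_lit 8) (nat_lit 113590) (nat_lit 8)
  (node (nat_lit 6) (nat_lit 111128) (nat_lit 9) nil (node (nat_lit 5) (nat_lit 113408) (nat_lit
  9) nil nil)) nil) (node (nat_lit 4) (nat_lit 116334) (nat_lit 7) (node (nat_lit 5) (nat_lit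
  115829) (nat_lit 8) nil nil) nil)) nil))) (node (nat_lit 0) (nat_lit 114720) (nat_lit 5) nil
  nil))) (node (nat_lit 0) (nat_lit 0) (nat_lit 4) (node (nat_lit 5) (nat_lit 117771) (nat_lit 5)
  nil (node (nat_lit 6) (nat_lit 117771) (nat_lit 5) nil (node (nat_lit 4) (nat_lit 121860)
  (nat_lit 5) nil (node (nat_lit 3) (nat_lit 117771) (nat_lit 5) nil (node (nat_lit 0) (nat_lit
  121860) (nat_lit 5) nil nil))))) nil)))) (node (nat_lit 4) (nat_lit 0) (nat_lit 3) (node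
  (nat_lit 3) (nat_lit 0) (nat_lit 4) (node (nat_lit 5) (nat_lit 71661) (nat_lit 5) (node (nat_lit
  7) (nat_lit 81427) (nat_lit 6) (node (nat_lit 4) (nat_lit 91068) (nat_lit 7) (node (nat_lit 5)
  (nat_lit 90879) (nat_lit 8) (node (nat_lit 4) (nat_lit 82404) (nat_lit 9) (node (nat_lit 7)
  (nat_lit 68166) (nat_lit 10) (node (nat_lit 5) (nat_lit 46274) (nat_lit 11) nil nil) nil) nil)
  nil) (node (nat_lit 3) (nat_lit 88035) (nat_lit 7) (node (nat_lit 5) (nat_lit 89907) (nat_lit 8)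
  (node (nat_lit 7) (nat_lit 88822) (nat_lit 9) nil nil) (node (nat_lit 7) (nat_lit 89426)
  (nat_lit 8) nil (node (nat_lit 4) (nat_lit 86116) (nat_lit 8) (node (nat_lit 5) (nat_lit 81929)
  (nat_lit 9) nil nil) nil))) (node (nat_lit 0) (nat_lit 88593) (nat_lit 7) nil nil))) (node
  (nat_lit 4) (nat_lit 87845) (nat_lit 6) (node (nat_lit 5) (nat_lit 87845) (nat_lit 7) nil nil)
  (node (nat_lit 3) (nat_lit 84851) (nat_lit 6) (node (nat_lit 7) (nat_lit 86631) (nat_lit 7)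
  (node (nat_lit 4) (nat_lit 88405) (nat_lit 8) (node (nat_lit 5) (nat_lit 83184) (nat_lit 9)
  (node (nat_lit 4) (nat_lit 76441) (nat_lit 10) nil nil) nil) (node (nat_lit 9) (nat_lit 87547)
  (nat_lit 8) nil (node (nat_lit 5) (nat_lit 86913) (nat_lit 8) nil nil))) (node (nat_lit 5)
  (nat_lit 88904) (nat_lit 7) (node (nat_lit 7) (nat_lit 88859) (nat_lit 8) (node (nat_lit 5)
  (nat_lit 88873) (nat_lit 9) nil nil) nil) (node (nat_lit 4) (nat_lit 91179) (nat_lit 7) nil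
  nil))) (node (nat_lit 0) (nat_lit 88419) (nat_lit 6) nil nil)))) (node (nat_lit 4) (nat_lit
  81880) (nat_lit 5) (node (nat_lit 5) (nat_lit 84270) (nat_lit 6) (node (nat_lit 7) (nat_lit
  87810) (nat_lit 7) (node (nat_lit 5) (nat_lit 88005) (nat_lit 8) (node (nat_lit 4) (nat_lit
  91025) (nat_lit 9) nil nil) (node (nat_lit 4) (nat_lit 90571) (nat_lit 8) nil (node (nat_lit 3)
  (nat_lit 88107) (nat_lit 8) nil (node (nat_lit 0) (nat_lit 91716) (nat_lit 8) nil nil)))) (node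
  (nat_lit 4) (nat_lit 46274) (nat_lit 7) nil (node (nat_lit 3) (nat_lit 86259) (nat_lit 7) nil
  (node (nat_lit 0) (nat_lit 87446) (nat_lit 7) nil nil)))) (node (nat_lit 3) (nat_lit 85694)
  (nat_lit 6) (node (nat_lit 7) (nat_lit 85694) (nat_lit 7) nil (node (nat_lit 5) (nat_lit 85694)
  (nat_lit 7) nil nil)) (node (nat_lit 0) (nat_lit 86573) (nat_lit 6) nil nil))) (node (nat_lit 3)
  (nat_lit 79935) (nat_lit 5) (node (nat_lit 5) (nat_lit 85523) (nat_lit 6) (node (nat_lit 7)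
  (nat_lit 90560) (nat_lit 7) (node (nat_lit 5) (nat_lit 91964) (nat_lit 8) (node (nat_lit 8)
  (nat_lit 91087) (nat_lit 9) nil nil) (node (nat_lit 8) (nat_lit 92548) (nat_lit 8) (node
  (nat_lit 7) (nat_lit 92548) (nat_lit 9) (node (nat_lit 5) (nat_lit 92118) (nat_lit 10) nil nil)
  nil) (node (nat_lit 4) (nat_lit 89975) (nat_lit 8) (node (nat_lit 5) (nat_lit 80566) (nat_lit 9)
  (node (nat_lit 4) (nat_lit 77031) (nat_lit 10) (node (nat_lit 7) (nat_lit 76242) (nat_lit 11)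
  nil nil) nil) nil) nil))) (node (nat_lit 8) (nat_lit 88577) (nat_lit 7) (node (nat_lit 7)
  (nat_lit 90211) (nat_lit 8) (node (nat_lit 5) (nat_lit 90603) (nat_lit 9) (node (nat_lit 7)
  (nat_lit 88587) (nat_lit 10) nil nil) (node (nat_lit 8) (nat_lit 90099) (nat_lit 9) nil nil))
  (node (nat_lit 4) (nat_lit 86703) (nat_lit 8) (node (nat_lit 5) (nat_lit 85408) (nat_lit 9)
  (node (nat_lit 4) (nat_lit 86230) (nat_lit 10) nil nil) nil) (node (nat_lit 0) (nat_lit 91568)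
  (nat_lit 8) nil nil))) (node (nat_lit 4) (nat_lit 91701) (nat_lit 7) nil (node (nat_lit 0)
  (nat_lit 91701) (nat_lit 7) nil nil)))) (node (nat_lit 4) (nat_lit 92548) (nat_lit 6) nil (node
  (nat_lit 7) (nat_lit 86356) (nat_lit 6) (node (nat_lit 4) (nat_lit 92293) (nat_lit 7) nil (node
  (nat_lit 5) (nat_lit 89206) (nat_lit 7) (node (nat_lit 8) (nat_lit 87920) (nat_lit 8) nil (node
  (nat_lit 7) (nat_lit 88144) (nat_lit 8) nil nil)) (node (nat_lit 0) (nat_lit 92293) (nat_lit 7)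
  nil nil))) (node (nat_lit 0) (nat_lit 90511) (nat_lit 6) nil nil)))) (node (nat_lit 0) (nat_lit
  89859) (nat_lit 5) (node (nat_lit 4) (nat_lit 90919) (nat_lit 6) nil (node (nat_lit 5) (nat_lit
  89859) (nat_lit 6) nil (node (nat_lit 7) (nat_lit 89859) (nat_lit 6) nil (node (nat_lit 3)
  (nat_lit 89859) (nat_lit 6) nil (node (nat_lit 0) (nat_lit 90919) (nat_lit 6) nil nil)))))
  nil)))) (node (nat_lit 0) (nat_lit 0) (nat_lit 4) (node (nat_lit 5) (nat_lit 86734) (nat_lit 5)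
  (node (nat_lit 4) (nat_lit 92548) (nat_lit 6) nil (node (nat_lit 7) (nat_lit 92038) (nat_lit 6)
  nil (node (nat_lit 3) (nat_lit 85847) (nat_lit 6) nil nil))) (node (nat_lit 3) (nat_lit 85251)
  (nat_lit 5) (node (nat_lit 4) (nat_lit 90555) (nat_lit 6) nil (node (nat_lit 5) (nat_lit 86540)
  (nat_lit 6) (node (nat_lit 8) (nat_lit 86339) (nat_lit 7) (node (nat_lit 4) (nat_lit 90022)
  (nat_lit 8) (node (nat_lit 5) (nat_lit 90022) (nat_lit 9) (node (nat_lit 4) (nat_lit 90392)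
  (nat_lit 10) (node (nat_lit 7) (nat_lit 80477) (nat_lit 11) (node (nat_lit 8) (nat_lit 67038)
  (nat_lit 12) nil nil) nil) nil) nil) nil) nil) (node (nat_lit 7) (nat_lit 90555) (nat_lit 6) nil
  (node (nat_lit 3) (nat_lit 84899) (nat_lit 6) nil (node (nat_lit 0) (nat_lit 90555) (nat_lit 6)
  nil nil))))) (node (nat_lit 4) (nat_lit 91690) (nat_lit 5) nil (node (nat_lit 0) (nat_lit 91690)
  (nat_lit 5) nil nil)))) nil)) (node (nat_lit 0) (nat_lit 0) (nat_lit 3) (node (nat_lit 3)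
  (nat_lit 0) (nat_lit 4) (node (nat_lit 5) (nat_lit 113769) (nat_lit 5) (node (nat_lit 7)
  (nat_lit 117222) (nat_lit 6) nil (node (nat_lit 3) (nat_lit 115540) (nat_lit 6) (node (nat_lit
  7) (nat_lit 109014) (nat_lit 7) nil nil) (node (nat_lit 4) (nat_lit 119957) (nat_lit 6) (node
  (nat_lit 5) (nat_lit 119957) (nat_lit 7) (node (nat_lit 6) (nat_lit 102300) (nat_lit 8) (node
  (nat_lit 7) (nat_lit 84626) (nat_lit 9) nil nil) nil) nil) nil))) (node (nat_lit 6) (nat_lit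
  115480) (nat_lit 5) nil (node (nat_lit 3) (nat_lit 111232) (nat_lit 5) (node (nat_lit 7)
  (nat_lit 112229) (nat_lit 6) nil (node (nat_lit 5) (nat_lit 106176) (nat_lit 6) nil nil)) (node
  (nat_lit 4) (nat_lit 115480) (nat_lit 5) (node (nat_lit 5) (nat_lit 115480) (nat_lit 6) (node
  (nat_lit 6) (nat_lit 76200) (nat_lit 7) nil nil) nil) (node (nat_lit 0) (nat_lit 115480)
  (nat_lit 5) nil nil))))) (node (nat_lit 5) (nat_lit 0) (nat_lit 4) (node (nat_lit 3) (nat_lit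
  114107) (nat_lit 5) (node (nat_lit 5) (nat_lit 113142) (nat_lit 6) nil (node (nat_lit 6)
  (nat_lit 119957) (nat_lit 6) nil (node (nat_lit 3) (nat_lit 114102) (nat_lit 6) (node (nat_lit
  5) (nat_lit 109552) (nat_lit 7) nil (node (nat_lit 8) (nat_lit 114031) (nat_lit 7) nil nil))
  (node (nat_lit 4) (nat_lit 119957) (nat_lit 6) nil (node (nat_lit 0) (nat_lit 119957) (nat_lit
  6) nil nil))))) (node (nat_lit 4) (nat_lit 119957) (nat_lit 5) (node (nat_lit 5) (nat_lit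
  119957) (nat_lit 6) (node (nat_lit 6) (nat_lit 84626) (nat_lit 7) nil nil) nil) (node (nat_lit
  0) (nat_lit 117645) (nat_lit 5) nil nil))) (node (nat_lit 4) (nat_lit 119146) (nat_lit 4) (node
  (nat_lit 3) (nat_lit 119957) (nat_lit 5) (node (nat_lit 4) (nat_lit 119957) (nat_lit 6) (node
  (nat_lit 5) (nat_lit 119957) (nat_lit 7) (node (nat_lit 6) (nat_lit 119957) (nat_lit 8) (node
  (nat_lit 4) (nat_lit 77643) (nat_lit 9) nil nil) nil) nil) nil) (node (nat_lit 6) (nat_lit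
  119957) (nat_lit 5) (node (nat_lit 5) (nat_lit 119957) (nat_lit 6) (node (nat_lit 4) (nat_lit
  119957) (nat_lit 7) (node (nat_lit 5) (nat_lit 119957) (nat_lit 8) (node (nat_lit 6) (nat_lit
  119957) (nat_lit 9) (node (nat_lit 4) (nat_lit 119957) (nat_lit 10) (node (nat_lit 6) (nat_lit
  84626) (nat_lit 11) nil nil) nil) nil) nil) nil) nil) (node (nat_lit 5) (nat_lit 119146)
  (nat_lit 5) nil nil))) (node (nat_lit 0) (nat_lit 119957) (nat_lit 4) (node (nat_lit 5) (nat_lit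
  119957) (nat_lit 5) nil (node (nat_lit 6) (nat_lit 119957) (nat_lit 5) (node (nat_lit 5)
  (nat_lit 119957) (nat_lit 6) nil nil) (node (nat_lit 3) (nat_lit 119957) (nat_lit 5) nil nil)))
  nil)))) nil)))

noncomputable def c5 : Tr :=
  (node (nat_lit 3) (nat_lit 0) (nat_lit 1) t323 (node (nat_lit 0) (nat_lit 0) (nat_lit 1) (node
  (nat_lit 3) (nat_lit 0) (nat_lit 2) t324 (node (nat_lit 0) (nat_lit 0) (nat_lit 2) (node
  (nat_lit 3) (nat_lit 0) (nat_lit 3) (node (nat_lit 3) (nat_lit 0) (nat_lit 4) (node (nat_lit 5)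
  (nat_lit 115347) (nat_lit 5) nil (node (nat_lit 6) (nat_lit 112052) (nat_lit 5) (node (nat_lit
  5) (nat_lit 118646) (nat_lit 6) nil (node (nat_lit 4) (nat_lit 118646) (nat_lit 6) nil (node
  (nat_lit 3) (nat_lit 108735) (nat_lit 6) (node (nat_lit 7) (nat_lit 103271) (nat_lit 7) nil
  (node (nat_lit 6) (nat_lit 105677) (nat_lit 7) nil nil)) nil))) (node (nat_lit 3) (nat_lit
  110596) (nat_lit 5) (node (nat_lit 7) (nat_lit 110704) (nat_lit 6) (node (nat_lit 6) (nat_lit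
  107473) (nat_lit 7) nil nil) (node (nat_lit 6) (nat_lit 109630) (nat_lit 6) (node (nat_lit 7)
  (nat_lit 105014) (nat_lit 7) nil (node (nat_lit 8) (nat_lit 104859) (nat_lit 7) nil (node
  (nat_lit 5) (nat_lit 116973) (nat_lit 7) nil nil))) nil)) (node (nat_lit 4) (nat_lit 119353)
  (nat_lit 5) (node (nat_lit 5) (nat_lit 98107) (nat_lit 6) (node (nat_lit 6) (nat_lit 77193)
  (nat_lit 7) nil nil) nil) (node (nat_lit 0) (nat_lit 115347) (nat_lit 5) nil nil))))) (node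
  (nat_lit 4) (nat_lit 119353) (nat_lit 4) (node (nat_lit 5) (nat_lit 84319) (nat_lit 5) (node
  (nat_lit 4) (nat_lit 84319) (nat_lit 6) (node (nat_lit 6) (nat_lit 84319) (nat_lit 7) (node
  (nat_lit 4) (nat_lit 84319) (nat_lit 8) nil nil) nil) (node (nat_lit 3) (nat_lit 84319) (nat_lit
  6) nil (node (nat_lit 0) (nat_lit 84319) (nat_lit 6) nil nil))) (node (nat_lit 6) (nat_lit
  119353) (nat_lit 5) (node (nat_lit 5) (nat_lit 119353) (nat_lit 6) nil (node (nat_lit 3)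
  (nat_lit 119353) (nat_lit 6) (node (nat_lit 4) (nat_lit 119353) (nat_lit 7) (node (nat_lit 5)
  (nat_lit 119353) (nat_lit 8) (node (nat_lit 6) (nat_lit 119353) (nat_lit 9) (node (nat_lit 4)
  (nat_lit 99344) (nat_lit 10) (node (nat_lit 6) (nat_lit 77193) (nat_lit 11) nil nil) nil) nil)
  nil) nil) nil)) (node (nat_lit 3) (nat_lit 119353) (nat_lit 5) (node (nat_lit 4) (nat_lit
  119353) (nat_lit 6) (node (nat_lit 5) (nat_lit 119353) (nat_lit 7) (node (nat_lit 6) (nat_lit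
  119353) (nat_lit 8) (node (nat_lit 4) (nat_lit 77193) (nat_lit 9) nil nil) nil) nil) nil) nil)))
  (node (nat_lit 5) (nat_lit 0) (nat_lit 4) (node (nat_lit 4) (nat_lit 119353) (nat_lit 5) (node
  (nat_lit 6) (nat_lit 119353) (nat_lit 6) (node (nat_lit 4) (nat_lit 119353) (nat_lit 7) (node
  (nat_lit 5) (nat_lit 119353) (nat_lit 8) (node (nat_lit 6) (nat_lit 119353) (nat_lit 9) (node
  (nat_lit 5) (nat_lit 119353) (nat_lit 10) (node (nat_lit 4) (nat_lit 84319) (nat_lit 11) nil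
  nil) nil) nil) nil) nil) nil) (node (nat_lit 3) (nat_lit 119353) (nat_lit 5) nil (node (nat_lit
  0) (nat_lit 119353) (nat_lit 5) nil nil))) (node (nat_lit 0) (nat_lit 119353) (nat_lit 4) (node
  (nat_lit 6) (nat_lit 119353) (nat_lit 5) nil (node (nat_lit 5) (nat_lit 119353) (nat_lit 5) nil
  (node (nat_lit 3) (nat_lit 119353) (nat_lit 5) nil (node (nat_lit 4) (nat_lit 119353) (nat_lit
  5) nil nil)))) nil)))) (node (nat_lit 0) (nat_lit 0) (nat_lit 3) (node (nat_lit 3) (nat_lit 0)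
  (nat_lit 4) (node (nat_lit 3) (nat_lit 113968) (nat_lit 5) (node (nat_lit 7) (nat_lit 114889)
  (nat_lit 6) nil (node (nat_lit 6) (nat_lit 124728) (nat_lit 6) nil nil)) (node (nat_lit 6)
  (nat_lit 132647) (nat_lit 5) nil (node (nat_lit 5) (nat_lit 132647) (nat_lit 5) nil (node
  (nat_lit 4) (nat_lit 132647) (nat_lit 5) (node (nat_lit 5) (nat_lit 134798) (nat_lit 6) (node
  (nat_lit 6) (nat_lit 90556) (nat_lit 7) nil nil) nil) (node (nat_lit 0) (nat_lit 120994)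
  (nat_lit 5) nil nil))))) (node (nat_lit 4) (nat_lit 0) (nat_lit 4) (node (nat_lit 6) (nat_lit
  137211) (nat_lit 5) (node (nat_lit 5) (nat_lit 139362) (nat_lit 6) (node (nat_lit 4) (nat_lit
  140938) (nat_lit 7) (node (nat_lit 5) (nat_lit 141935) (nat_lit 8) nil (node (nat_lit 6)
  (nat_lit 141935) (nat_lit 8) nil nil)) nil) (node (nat_lit 3) (nat_lit 137211) (nat_lit 6) nil
  nil)) (node (nat_lit 3) (nat_lit 130670) (nat_lit 5) (node (nat_lit 6) (nat_lit 136496) (nat_lit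
  6) nil (node (nat_lit 5) (nat_lit 136496) (nat_lit 6) nil nil)) (node (nat_lit 5) (nat_lit
  137211) (nat_lit 5) nil (node (nat_lit 0) (nat_lit 137211) (nat_lit 5) nil nil)))) (node
  (nat_lit 5) (nat_lit 0) (nat_lit 4) (node (nat_lit 4) (nat_lit 137211) (nat_lit 5) nil (node
  (nat_lit 3) (nat_lit 133329) (nat_lit 5) nil (node (nat_lit 0) (nat_lit 137005) (nat_lit 5) nil
  nil))) (node (nat_lit 0) (nat_lit 132202) (nat_lit 4) nil nil)))) (node (nat_lit 4) (nat_lit 0)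
  (nat_lit 3) (node (nat_lit 3) (nat_lit 0) (nat_lit 4) (node (nat_lit 4) (nat_lit 120462)
  (nat_lit 5) (node (nat_lit 5) (nat_lit 120945) (nat_lit 6) (node (nat_lit 4) (nat_lit 80630)
  (nat_lit 7) nil nil) nil) (node (nat_lit 5) (nat_lit 120462) (nat_lit 5) nil (node (nat_lit 3)
  (nat_lit 112297) (nat_lit 5) (node (nat_lit 4) (nat_lit 120945) (nat_lit 6) (node (nat_lit 5)
  (nat_lit 120945) (nat_lit 7) (node (nat_lit 4) (nat_lit 99697) (nat_lit 8) (node (nat_lit 7)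
  (nat_lit 80630) (nat_lit 9) nil nil) nil) nil) nil) (node (nat_lit 0) (nat_lit 120945) (nat_lit
  5) nil nil)))) (node (nat_lit 0) (nat_lit 0) (nat_lit 4) (node (nat_lit 4) (nat_lit 120945)
  (nat_lit 5) (node (nat_lit 5) (nat_lit 120945) (nat_lit 6) (node (nat_lit 7) (nat_lit 120945)
  (nat_lit 7) nil nil) nil) (node (nat_lit 5) (nat_lit 120945) (nat_lit 5) nil (node (nat_lit 3)
  (nat_lit 120945) (nat_lit 5) (node (nat_lit 5) (nat_lit 120945) (nat_lit 6) nil nil) (node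
  (nat_lit 0) (nat_lit 120945) (nat_lit 5) nil nil)))) nil)) nil))) nil)) nil))

noncomputable def t325 : Tr :=
  (node (nat_lit 6) (nat_lit 0) (nat_lit 6) (node (nat_lit 4) (nat_lit 0) (nat_lit 7) (node
  (nat_lit 5) (nat_lit 0) (nat_lit 8) (node (nat_lit 6) (nat_lit 0) (nat_lit 9) (node (nat_lit 0)
  (nat_lit 0) (nat_lit 10) (node (nat_lit 6) (nat_lit 0) (nat_lit 11) (node (nat_lit 4) (nat_lit
  80847) (nat_lit 12) (node (nat_lit 5) (nat_lit 81979) (nat_lit 13) (node (nat_lit 6) (nat_lit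
  82094) (nat_lit 14) nil nil) (node (nat_lit 6) (nat_lit 80974) (nat_lit 13) nil nil)) (node
  (nat_lit 5) (nat_lit 80627) (nat_lit 12) (node (nat_lit 4) (nat_lit 82013) (nat_lit 13) (node
  (nat_lit 5) (nat_lit 82894) (nat_lit 14) nil nil) (node (nat_lit 13) (nat_lit 81758) (nat_lit
  13) nil (node (nat_lit 6) (nat_lit 81758) (nat_lit 13) nil nil))) (node (nat_lit 0) (nat_lit
  80627) (nat_lit 12) nil (node (nat_lit 2) (nat_lit 79315) (nat_lit 12) (node (nat_lit 13)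
  (nat_lit 80446) (nat_lit 13) nil nil) nil)))) (node (nat_lit 5) (nat_lit 79180) (nat_lit 11)
  (node (nat_lit 13) (nat_lit 80847) (nat_lit 12) (node (nat_lit 6) (nat_lit 80974) (nat_lit 13)
  nil nil) (node (nat_lit 6) (nat_lit 80627) (nat_lit 12) nil (node (nat_lit 4) (nat_lit 80627)
  (nat_lit 12) nil nil))) (node (nat_lit 4) (nat_lit 79355) (nat_lit 11) (node (nat_lit 6)
  (nat_lit 80802) (nat_lit 12) nil (node (nat_lit 13) (nat_lit 80802) (nat_lit 12) nil (node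
  (nat_lit 5) (nat_lit 80802) (nat_lit 12) nil nil))) (node (nat_lit 0) (nat_lit 79355) (nat_lit
  11) (node (nat_lit 6) (nat_lit 80802) (nat_lit 12) nil (node (nat_lit 13) (nat_lit 80802)
  (nat_lit 12) nil nil)) (node (nat_lit 2) (nat_lit 79180) (nat_lit 11) (node (nat_lit 6) (nat_lit
  80627) (nat_lit 12) nil (node (nat_lit 13) (nat_lit 80627) (nat_lit 12) nil nil)) nil))))) (node
  (nat_lit 2) (nat_lit 0) (nat_lit 10) (node (nat_lit 6) (nat_lit 0) (nat_lit 11) (node (nat_lit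
  4) (nat_lit 80711) (nat_lit 12) (node (nat_lit 5) (nat_lit 81843) (nat_lit 13) (node (nat_lit 6)
  (nat_lit 79736) (nat_lit 14) (node (nat_lit 5) (nat_lit 71835) (nat_lit 15) nil nil) nil) (node
  (nat_lit 6) (nat_lit 80837) (nat_lit 13) nil nil)) (node (nat_lit 5) (nat_lit 79647) (nat_lit
  12) (node (nat_lit 4) (nat_lit 81602) (nat_lit 13) (node (nat_lit 5) (nat_lit 82316) (nat_lit
  14) nil nil) (node (nat_lit 13) (nat_lit 80971) (nat_lit 13) nil (node (nat_lit 6) (nat_lit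
  80778) (nat_lit 13) nil nil))) (node (nat_lit 0) (nat_lit 79683) (nat_lit 12) nil nil))) (node
  (nat_lit 5) (nat_lit 77693) (nat_lit 11) (node (nat_lit 13) (nat_lit 79041) (nat_lit 12) (node
  (nat_lit 6) (nat_lit 80115) (nat_lit 13) nil nil) (node (nat_lit 6) (nat_lit 79465) (nat_lit 12)
  nil (node (nat_lit 4) (nat_lit 80169) (nat_lit 12) nil nil))) (node (nat_lit 4) (nat_lit 79085)
  (nat_lit 11) (node (nat_lit 6) (nat_lit 80532) (nat_lit 12) nil (node (nat_lit 13) (nat_lit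
  80532) (nat_lit 12) nil (node (nat_lit 5) (nat_lit 80532) (nat_lit 12) nil nil))) (node (nat_lit
  0) (nat_lit 79085) (nat_lit 11) (node (nat_lit 6) (nat_lit 80532) (nat_lit 12) nil (node
  (nat_lit 13) (nat_lit 80532) (nat_lit 12) nil nil)) nil)))) (node (nat_lit 5) (nat_lit 0)
  (nat_lit 10) (node (nat_lit 0) (nat_lit 68634) (nat_lit 11) (node (nat_lit 6) (nat_lit 70081)
  (nat_lit 12) (node (nat_lit 5) (nat_lit 71212) (nat_lit 13) (node (nat_lit 6) (nat_lit 72093)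
  (nat_lit 14) (node (nat_lit 4) (nat_lit 72782) (nat_lit 15) nil nil) (node (nat_lit 4) (nat_lit
  71389) (nat_lit 14) nil nil)) nil) (node (nat_lit 5) (nat_lit 70081) (nat_lit 12) (node (nat_lit
  6) (nat_lit 71212) (nat_lit 13) nil nil) nil)) (node (nat_lit 2) (nat_lit 66768) (nat_lit 11)
  (node (nat_lit 6) (nat_lit 67615) (nat_lit 12) (node (nat_lit 5) (nat_lit 68736) (nat_lit 13)
  (node (nat_lit 6) (nat_lit 69617) (nat_lit 14) (node (nat_lit 4) (nat_lit 70306) (nat_lit 15)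
  nil nil) (node (nat_lit 4) (nat_lit 70540) (nat_lit 14) (node (nat_lit 5) (nat_lit 68679)
  (nat_lit 15) nil nil) nil)) (node (nat_lit 14) (nat_lit 68939) (nat_lit 13) nil nil)) (node
  (nat_lit 5) (nat_lit 68115) (nat_lit 12) (node (nat_lit 6) (nat_lit 69189) (nat_lit 13) nil nil)
  nil)) nil)) (node (nat_lit 4) (nat_lit 0) (nat_lit 10) (node (nat_lit 2) (nat_lit 79272)
  (nat_lit 11) (node (nat_lit 6) (nat_lit 80719) (nat_lit 12) (node (nat_lit 4) (nat_lit 81850)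
  (nat_lit 13) (node (nat_lit 5) (nat_lit 82731) (nat_lit 14) (node (nat_lit 6) (nat_lit 82831)
  (nat_lit 15) nil nil) nil) nil) (node (nat_lit 4) (nat_lit 80847) (nat_lit 12) nil (node
  (nat_lit 5) (nat_lit 80719) (nat_lit 12) nil nil))) (node (nat_lit 0) (nat_lit 79355) (nat_lit
  11) (node (nat_lit 6) (nat_lit 80802) (nat_lit 12) (node (nat_lit 4) (nat_lit 81933) (nat_lit
  13) (node (nat_lit 5) (nat_lit 82814) (nat_lit 14) (node (nat_lit 6) (nat_lit 82913) (nat_lit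
  15) nil nil) nil) nil) (node (nat_lit 4) (nat_lit 80847) (nat_lit 12) nil (node (nat_lit 5)
  (nat_lit 80802) (nat_lit 12) nil nil))) nil)) nil)))) (node (nat_lit 4) (nat_lit 0) (nat_lit 9)
  (node (nat_lit 0) (nat_lit 102791) (nat_lit 10) nil (node (nat_lit 2) (nat_lit 101958) (nat_lit
  10) (node (nat_lit 5) (nat_lit 103399) (nat_lit 11) nil (node (nat_lit 4) (nat_lit 103616)
  (nat_lit 11) nil (node (nat_lit 6) (nat_lit 101708) (nat_lit 11) nil nil))) (node (nat_lit 6)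
  (nat_lit 101563) (nat_lit 10) nil nil))) (node (nat_lit 0) (nat_lit 99409) (nat_lit 9) (node
  (nat_lit 6) (nat_lit 101611) (nat_lit 10) nil (node (nat_lit 5) (nat_lit 101787) (nat_lit 10)
  nil nil)) (node (nat_lit 2) (nat_lit 98202) (nat_lit 9) (node (nat_lit 6) (nat_lit 99768)
  (nat_lit 10) (node (nat_lit 4) (nat_lit 98417) (nat_lit 11) (node (nat_lit 5) (nat_lit 96011)
  (nat_lit 12) (node (nat_lit 6) (nat_lit 93688) (nat_lit 13) nil nil) nil) nil) (node (nat_lit 5)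
  (nat_lit 100581) (nat_lit 10) (node (nat_lit 4) (nat_lit 98420) (nat_lit 11) nil nil) nil))
  nil)))) (node (nat_lit 0) (nat_lit 102239) (nat_lit 8) (node (nat_lit 6) (nat_lit 102870)
  (nat_lit 9) nil (node (nat_lit 5) (nat_lit 102870) (nat_lit 9) nil nil)) (node (nat_lit 2)
  (nat_lit 101796) (nat_lit 8) (node (nat_lit 6) (nat_lit 102265) (nat_lit 9) nil (node (nat_lit
  5) (nat_lit 102427) (nat_lit 9) nil nil)) nil))) (node (nat_lit 5) (nat_lit 0) (nat_lit 7) (node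
  (nat_lit 6) (nat_lit 0) (nat_lit 8) (node (nat_lit 4) (nat_lit 0) (nat_lit 9) (node (nat_lit 6)
  (nat_lit 102743) (nat_lit 10) nil (node (nat_lit 0) (nat_lit 102850) (nat_lit 10) nil (node
  (nat_lit 2) (nat_lit 102743) (nat_lit 10) (node (nat_lit 6) (nat_lit 101876) (nat_lit 11) (node
  (nat_lit 4) (nat_lit 102518) (nat_lit 12) nil nil) nil) (node (nat_lit 5) (nat_lit 0) (nat_lit
  10) (node (nat_lit 0) (nat_lit 103567) (nat_lit 11) nil (node (nat_lit 2) (nat_lit 103567)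
  (nat_lit 11) nil nil)) nil)))) (node (nat_lit 0) (nat_lit 100614) (nat_lit 9) (node (nat_lit 5)
  (nat_lit 101671) (nat_lit 10) nil (node (nat_lit 6) (nat_lit 101671) (nat_lit 10) nil nil))
  (node (nat_lit 2) (nat_lit 0) (nat_lit 9) (node (nat_lit 5) (nat_lit 99515) (nat_lit 10) (node
  (nat_lit 4) (nat_lit 101365) (nat_lit 11) nil nil) (node (nat_lit 4) (nat_lit 99587) (nat_lit
  10) nil (node (nat_lit 6) (nat_lit 99130) (nat_lit 10) (node (nat_lit 5) (nat_lit 99375)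
  (nat_lit 11) nil nil) (node (nat_lit 0) (nat_lit 99587) (nat_lit 10) nil nil)))) nil))) (node
  (nat_lit 0) (nat_lit 101679) (nat_lit 8) (node (nat_lit 6) (nat_lit 102310) (nat_lit 9) (node
  (nat_lit 4) (nat_lit 102778) (nat_lit 10) nil nil) (node (nat_lit 5) (nat_lit 102310) (nat_lit
  9) (node (nat_lit 4) (nat_lit 102778) (nat_lit 10) nil nil) nil)) (node (nat_lit 2) (nat_lit
  99411) (nat_lit 8) (node (nat_lit 6) (nat_lit 100029) (nat_lit 9) (node (nat_lit 4) (nat_lit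
  102149) (nat_lit 10) (node (nat_lit 5) (nat_lit 100959) (nat_lit 11) (node (nat_lit 6) (nat_lit
  96423) (nat_lit 12) (node (nat_lit 5) (nat_lit 84373) (nat_lit 13) (node (nat_lit 4) (nat_lit
  53387) (nat_lit 14) nil nil) nil) nil) nil) nil) (node (nat_lit 5) (nat_lit 99996) (nat_lit 9)
  (node (nat_lit 4) (nat_lit 99415) (nat_lit 10) (node (nat_lit 5) (nat_lit 99553) (nat_lit 11)
  (node (nat_lit 6) (nat_lit 95936) (nat_lit 12) nil nil) nil) nil) (node (nat_lit 4) (nat_lit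
  100041) (nat_lit 9) nil nil))) nil))) nil)) (node (nat_lit 5) (nat_lit 0) (nat_lit 6) (node
  (nat_lit 6) (nat_lit 0) (nat_lit 7) (node (nat_lit 4) (nat_lit 0) (nat_lit 8) (node (nat_lit 6)
  (nat_lit 0) (nat_lit 9) (node (nat_lit 0) (nat_lit 42262) (nat_lit 10) (node (nat_lit 6)
  (nat_lit 42262) (nat_lit 11) (node (nat_lit 4) (nat_lit 42262) (nat_lit 12) (node (nat_lit 5)
  (nat_lit 42733) (nat_lit 13) (node (nat_lit 6) (nat_lit 42733) (nat_lit 14) nil nil) nil) (node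
  (nat_lit 5) (nat_lit 42613) (nat_lit 12) (node (nat_lit 4) (nat_lit 42613) (nat_lit 13) (node
  (nat_lit 5) (nat_lit 42827) (nat_lit 14) nil nil) nil) nil)) (node (nat_lit 4) (nat_lit 42262)
  (nat_lit 11) (node (nat_lit 13) (nat_lit 42613) (nat_lit 12) (node (nat_lit 6) (nat_lit 42613)
  (nat_lit 13) nil nil) (node (nat_lit 6) (nat_lit 42262) (nat_lit 12) (node (nat_lit 4) (nat_lit
  42262) (nat_lit 13) nil nil) nil)) (node (nat_lit 5) (nat_lit 42459) (nat_lit 11) (node (nat_lit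
  6) (nat_lit 42459) (nat_lit 12) nil (node (nat_lit 4) (nat_lit 42459) (nat_lit 12) nil nil))
  nil))) (node (nat_lit 2) (nat_lit 0) (nat_lit 10) (node (nat_lit 6) (nat_lit 0) (nat_lit 11)
  (node (nat_lit 4) (nat_lit 38387) (nat_lit 12) (node (nat_lit 13) (nat_lit 38387) (nat_lit 13)
  (node (nat_lit 6) (nat_lit 39351) (nat_lit 14) nil nil) (node (nat_lit 5) (nat_lit 40383)
  (nat_lit 13) (node (nat_lit 6) (nat_lit 40383) (nat_lit 14) nil nil) nil)) (node (nat_lit 5)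
  (nat_lit 41782) (nat_lit 12) (node (nat_lit 4) (nat_lit 41782) (nat_lit 13) (node (nat_lit 5)
  (nat_lit 41996) (nat_lit 14) nil nil) (node (nat_lit 6) (nat_lit 41782) (nat_lit 13) nil nil))
  (node (nat_lit 0) (nat_lit 41782) (nat_lit 12) nil nil))) (node (nat_lit 4) (nat_lit 38387)
  (nat_lit 11) (node (nat_lit 13) (nat_lit 38387) (nat_lit 12) (node (nat_lit 6) (nat_lit 38387)
  (nat_lit 13) (node (nat_lit 13) (nat_lit 38920) (nat_lit 14) (node (nat_lit 4) (nat_lit 38584)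
  (nat_lit 15) nil nil) nil) nil) (node (nat_lit 6) (nat_lit 38387) (nat_lit 12) (node (nat_lit 4)
  (nat_lit 38387) (nat_lit 13) nil nil) (node (nat_lit 5) (nat_lit 41782) (nat_lit 12) nil nil)))
  (node (nat_lit 5) (nat_lit 41503) (nat_lit 11) (node (nat_lit 6) (nat_lit 41503) (nat_lit 12)
  nil (node (nat_lit 4) (nat_lit 41503) (nat_lit 12) nil nil)) (node (nat_lit 0) (nat_lit 41503)
  (nat_lit 11) (node (nat_lit 6) (nat_lit 41503) (nat_lit 12) nil nil) nil)))) (node (nat_lit 5)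
  (nat_lit 0) (nat_lit 10) (node (nat_lit 2) (nat_lit 42531) (nat_lit 11) (node (nat_lit 6)
  (nat_lit 42531) (nat_lit 12) (node (nat_lit 5) (nat_lit 43002) (nat_lit 13) (node (nat_lit 4)
  (nat_lit 43002) (nat_lit 14) nil nil) nil) (node (nat_lit 5) (nat_lit 42882) (nat_lit 12) nil
  nil)) (node (nat_lit 0) (nat_lit 42887) (nat_lit 11) (node (nat_lit 6) (nat_lit 42887) (nat_lit
  12) (node (nat_lit 5) (nat_lit 43161) (nat_lit 13) (node (nat_lit 4) (nat_lit 43161) (nat_lit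
  14) nil nil) nil) (node (nat_lit 5) (nat_lit 43042) (nat_lit 12) nil nil)) nil)) nil))) (node
  (nat_lit 5) (nat_lit 0) (nat_lit 9) (node (nat_lit 0) (nat_lit 42431) (nat_lit 10) (node
  (nat_lit 5) (nat_lit 42627) (nat_lit 11) (node (nat_lit 6) (nat_lit 42627) (nat_lit 12) (node
  (nat_lit 4) (nat_lit 42627) (nat_lit 13) nil nil) (node (nat_lit 4) (nat_lit 42627) (nat_lit 12)
  (node (nat_lit 5) (nat_lit 42902) (nat_lit 13) (node (nat_lit 6) (nat_lit 42902) (nat_lit 14)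
  nil nil) (node (nat_lit 6) (nat_lit 42627) (nat_lit 13) nil nil)) nil)) (node (nat_lit 4)
  (nat_lit 42431) (nat_lit 11) (node (nat_lit 13) (nat_lit 42782) (nat_lit 12) (node (nat_lit 5)
  (nat_lit 42902) (nat_lit 13) nil nil) (node (nat_lit 6) (nat_lit 42431) (nat_lit 12) nil nil))
  (node (nat_lit 6) (nat_lit 42431) (nat_lit 11) (node (nat_lit 5) (nat_lit 42782) (nat_lit 12)
  nil (node (nat_lit 4) (nat_lit 42431) (nat_lit 12) nil nil)) nil))) (node (nat_lit 2) (nat_lit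
  41972) (nat_lit 10) (node (nat_lit 5) (nat_lit 42422) (nat_lit 11) (node (nat_lit 4) (nat_lit
  42422) (nat_lit 12) (node (nat_lit 5) (nat_lit 42696) (nat_lit 13) (node (nat_lit 6) (nat_lit
  42696) (nat_lit 14) nil nil) (node (nat_lit 6) (nat_lit 42422) (nat_lit 13) nil nil)) (node
  (nat_lit 6) (nat_lit 42422) (nat_lit 12) (node (nat_lit 4) (nat_lit 42422) (nat_lit 13) nil nil)
  nil)) (node (nat_lit 4) (nat_lit 41972) (nat_lit 11) (node (nat_lit 13) (nat_lit 41972) (nat_lit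
  12) (node (nat_lit 5) (nat_lit 42696) (nat_lit 13) nil nil) (node (nat_lit 6) (nat_lit 41972)
  (nat_lit 12) nil nil)) (node (nat_lit 6) (nat_lit 41972) (nat_lit 11) (node (nat_lit 5) (nat_lit
  42576) (nat_lit 12) nil (node (nat_lit 4) (nat_lit 41972) (nat_lit 12) nil nil)) nil))) (node
  (nat_lit 4) (nat_lit 0) (nat_lit 10) (node (nat_lit 0) (nat_lit 42787) (nat_lit 11) (node
  (nat_lit 5) (nat_lit 42941) (nat_lit 12) (node (nat_lit 4) (nat_lit 42941) (nat_lit 13) (node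
  (nat_lit 5) (nat_lit 43155) (nat_lit 14) (node (nat_lit 6) (nat_lit 43155) (nat_lit 15) nil nil)
  (node (nat_lit 6) (nat_lit 42941) (nat_lit 14) nil nil)) nil) (node (nat_lit 4) (nat_lit 42787)
  (nat_lit 12) nil nil)) (node (nat_lit 2) (nat_lit 41972) (nat_lit 11) (node (nat_lit 5) (nat_lit
  42576) (nat_lit 12) (node (nat_lit 4) (nat_lit 42576) (nat_lit 13) (node (nat_lit 5) (nat_lit
  42791) (nat_lit 14) (node (nat_lit 6) (nat_lit 42791) (nat_lit 15) nil nil) (node (nat_lit 6)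
  (nat_lit 42576) (nat_lit 14) nil nil)) nil) (node (nat_lit 4) (nat_lit 41972) (nat_lit 12) (node
  (nat_lit 5) (nat_lit 42696) (nat_lit 13) nil nil) nil)) nil)) nil))) (node (nat_lit 0) (nat_lit
  0) (nat_lit 9) (node (nat_lit 6) (nat_lit 41884) (nat_lit 10) (node (nat_lit 5) (nat_lit 42334)
  (nat_lit 11) (node (nat_lit 4) (nat_lit 42334) (nat_lit 12) nil nil) (node (nat_lit 12) (nat_lit
  42334) (nat_lit 11) (node (nat_lit 5) (nat_lit 42488) (nat_lit 12) nil nil) (node (nat_lit 4)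
  (nat_lit 41884) (nat_lit 11) (node (nat_lit 5) (nat_lit 42488) (nat_lit 12) (node (nat_lit 6)
  (nat_lit 42488) (nat_lit 13) nil nil) nil) nil))) (node (nat_lit 5) (nat_lit 42343) (nat_lit 10)
  (node (nat_lit 6) (nat_lit 42343) (nat_lit 11) (node (nat_lit 4) (nat_lit 42343) (nat_lit 12)
  nil nil) (node (nat_lit 12) (nat_lit 42540) (nat_lit 11) (node (nat_lit 6) (nat_lit 42540)
  (nat_lit 12) nil nil) (node (nat_lit 4) (nat_lit 42343) (nat_lit 11) (node (nat_lit 5) (nat_lit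
  42694) (nat_lit 12) (node (nat_lit 6) (nat_lit 42694) (nat_lit 13) nil nil) nil) nil))) (node
  (nat_lit 4) (nat_lit 41884) (nat_lit 10) (node (nat_lit 6) (nat_lit 41884) (nat_lit 11) (node
  (nat_lit 4) (nat_lit 41884) (nat_lit 12) nil nil) nil) (node (nat_lit 2) (nat_lit 41884)
  (nat_lit 10) (node (nat_lit 4) (nat_lit 41884) (nat_lit 11) nil (node (nat_lit 6) (nat_lit
  41884) (nat_lit 11) nil (node (nat_lit 5) (nat_lit 42334) (nat_lit 11) nil nil))) (node (nat_lit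
  0) (nat_lit 42137) (nat_lit 10) (node (nat_lit 6) (nat_lit 42137) (nat_lit 11) nil (node
  (nat_lit 5) (nat_lit 42334) (nat_lit 11) nil nil)) nil))))) (node (nat_lit 2) (nat_lit 0)
  (nat_lit 9) (node (nat_lit 6) (nat_lit 38387) (nat_lit 10) (node (nat_lit 5) (nat_lit 41503)
  (nat_lit 11) (node (nat_lit 4) (nat_lit 41503) (nat_lit 12) nil nil) (node (nat_lit 12) (nat_lit
  38387) (nat_lit 11) (node (nat_lit 4) (nat_lit 38387) (nat_lit 12) (node (nat_lit 6) (nat_lit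
  38387) (nat_lit 13) nil nil) (node (nat_lit 5) (nat_lit 40264) (nat_lit 12) nil nil)) (node
  (nat_lit 4) (nat_lit 38387) (nat_lit 11) (node (nat_lit 5) (nat_lit 39397) (nat_lit 12) (node
  (nat_lit 6) (nat_lit 36749) (nat_lit 13) nil nil) (node (nat_lit 6) (nat_lit 38387) (nat_lit 12)
  nil nil)) nil))) (node (nat_lit 5) (nat_lit 41876) (nat_lit 10) (node (nat_lit 6) (nat_lit
  41876) (nat_lit 11) (node (nat_lit 4) (nat_lit 41876) (nat_lit 12) nil nil) (node (nat_lit 12)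
  (nat_lit 41876) (nat_lit 11) (node (nat_lit 6) (nat_lit 41876) (nat_lit 12) nil nil) (node
  (nat_lit 4) (nat_lit 41876) (nat_lit 11) (node (nat_lit 5) (nat_lit 42228) (nat_lit 12) (node
  (nat_lit 6) (nat_lit 42228) (nat_lit 13) nil nil) nil) nil))) (node (nat_lit 0) (nat_lit 41670)
  (nat_lit 10) (node (nat_lit 4) (nat_lit 41670) (nat_lit 11) nil (node (nat_lit 6) (nat_lit
  41670) (nat_lit 11) nil (node (nat_lit 5) (nat_lit 41867) (nat_lit 11) nil nil))) (node (nat_lit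
  4) (nat_lit 38387) (nat_lit 10) (node (nat_lit 6) (nat_lit 38387) (nat_lit 11) (node (nat_lit 4)
  (nat_lit 38387) (nat_lit 12) nil nil) (node (nat_lit 5) (nat_lit 41503) (nat_lit 11) nil nil))
  nil)))) nil)))) (node (nat_lit 0) (nat_lit 0) (nat_lit 8) (node (nat_lit 5) (nat_lit 42154)
  (nat_lit 9) (node (nat_lit 4) (nat_lit 42154) (nat_lit 10) (node (nat_lit 5) (nat_lit 42379)
  (nat_lit 11) (node (nat_lit 6) (nat_lit 42379) (nat_lit 12) nil nil) (node (nat_lit 6) (nat_lit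
  42154) (nat_lit 11) nil nil)) (node (nat_lit 6) (nat_lit 42154) (nat_lit 10) (node (nat_lit 4)
  (nat_lit 42154) (nat_lit 11) (node (nat_lit 5) (nat_lit 42457) (nat_lit 12) nil nil) nil) nil))
  (node (nat_lit 4) (nat_lit 41730) (nat_lit 9) (node (nat_lit 6) (nat_lit 41730) (nat_lit 10)
  (node (nat_lit 4) (nat_lit 41730) (nat_lit 11) nil nil) nil) (node (nat_lit 6) (nat_lit 41730)
  (nat_lit 9) (node (nat_lit 4) (nat_lit 41730) (nat_lit 10) (node (nat_lit 5) (nat_lit 42118)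
  (nat_lit 11) (node (nat_lit 6) (nat_lit 42118) (nat_lit 12) (node (nat_lit 5) (nat_lit 42255)
  (nat_lit 13) nil nil) nil) nil) (node (nat_lit 5) (nat_lit 42018) (nat_lit 10) (node (nat_lit 4)
  (nat_lit 42018) (nat_lit 11) (node (nat_lit 5) (nat_lit 42195) (nat_lit 12) (node (nat_lit 6)
  (nat_lit 42195) (nat_lit 13) nil nil) nil) nil) nil)) (node (nat_lit 0) (nat_lit 42154) (nat_lit
  9) nil (node (nat_lit 2) (nat_lit 41730) (nat_lit 9) nil nil))))) (node (nat_lit 2) (nat_lit 0)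
  (nat_lit 8) (node (nat_lit 5) (nat_lit 41928) (nat_lit 9) (node (nat_lit 4) (nat_lit 41928)
  (nat_lit 10) (node (nat_lit 5) (nat_lit 42154) (nat_lit 11) (node (nat_lit 6) (nat_lit 42154)
  (nat_lit 12) nil nil) (node (nat_lit 6) (nat_lit 41928) (nat_lit 11) nil nil)) (node (nat_lit 6)
  (nat_lit 41928) (nat_lit 10) (node (nat_lit 4) (nat_lit 41928) (nat_lit 11) (node (nat_lit 5)
  (nat_lit 42231) (nat_lit 12) nil nil) nil) (node (nat_lit 11) (nat_lit 41928) (nat_lit 10) nil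
  nil))) (node (nat_lit 4) (nat_lit 39571) (nat_lit 9) (node (nat_lit 6) (nat_lit 39571) (nat_lit
  10) (node (nat_lit 4) (nat_lit 39571) (nat_lit 11) (node (nat_lit 5) (nat_lit 40537) (nat_lit
  12) nil nil) (node (nat_lit 5) (nat_lit 40460) (nat_lit 11) nil nil)) (node (nat_lit 5) (nat_lit
  41595) (nat_lit 10) nil (node (nat_lit 11) (nat_lit 39571) (nat_lit 10) nil nil))) (node
  (nat_lit 6) (nat_lit 39571) (nat_lit 9) (node (nat_lit 4) (nat_lit 39571) (nat_lit 10) (node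
  (nat_lit 5) (nat_lit 40460) (nat_lit 11) (node (nat_lit 6) (nat_lit 40460) (nat_lit 12) (node
  (nat_lit 5) (nat_lit 36558) (nat_lit 13) nil nil) nil) nil) (node (nat_lit 5) (nat_lit 41595)
  (nat_lit 10) (node (nat_lit 4) (nat_lit 41595) (nat_lit 11) (node (nat_lit 5) (nat_lit 41771)
  (nat_lit 12) (node (nat_lit 6) (nat_lit 41771) (nat_lit 13) nil nil) nil) nil) nil)) (node
  (nat_lit 0) (nat_lit 41928) (nat_lit 9) nil nil)))) nil))) nil) nil))

noncomputable def t326 : Tr :=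
  (node (nat_lit 5) (nat_lit 0) (nat_lit 5) (node (nat_lit 7) (nat_lit 0) (nat_lit 6) (node
  (nat_lit 4) (nat_lit 0) (nat_lit 7) (node (nat_lit 5) (nat_lit 40572) (nat_lit 8) (node (nat_lit
  4) (nat_lit 40572) (nat_lit 9) nil nil) (node (nat_lit 7) (nat_lit 0) (nat_lit 8) (node (nat_lit
  5) (nat_lit 39637) (nat_lit 9) nil (node (nat_lit 0) (nat_lit 38049) (nat_lit 9) nil (node
  (nat_lit 2) (nat_lit 36021) (nat_lit 9) nil nil))) (node (nat_lit 0) (nat_lit 39855) (nat_lit 8)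
  nil (node (nat_lit 2) (nat_lit 37668) (nat_lit 8) (node (nat_lit 5) (nat_lit 38686) (nat_lit 9)
  nil (node (nat_lit 7) (nat_lit 37273) (nat_lit 9) (node (nat_lit 4) (nat_lit 36239) (nat_lit 10)
  (node (nat_lit 5) (nat_lit 34777) (nat_lit 11) (node (nat_lit 4) (nat_lit 30343) (nat_lit 12)
  (node (nat_lit 7) (nat_lit 22760) (nat_lit 13) nil nil) nil) nil) nil) nil)) nil)))) nil) (node
  (nat_lit 4) (nat_lit 0) (nat_lit 6) (node (nat_lit 5) (nat_lit 0) (nat_lit 7) (node (nat_lit 7)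
  (nat_lit 0) (nat_lit 8) (node (nat_lit 4) (nat_lit 0) (nat_lit 9) (node (nat_lit 0) (nat_lit
  42313) (nat_lit 10) (node (nat_lit 4) (nat_lit 42313) (nat_lit 11) (node (nat_lit 7) (nat_lit
  42313) (nat_lit 12) (node (nat_lit 4) (nat_lit 42313) (nat_lit 13) (node (nat_lit 5) (nat_lit
  42900) (nat_lit 14) nil nil) nil) nil) (node (nat_lit 7) (nat_lit 42313) (nat_lit 11) (node
  (nat_lit 4) (nat_lit 42313) (nat_lit 12) nil nil) (node (nat_lit 5) (nat_lit 42517) (nat_lit 11)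
  (node (nat_lit 7) (nat_lit 42517) (nat_lit 12) nil nil) nil))) (node (nat_lit 2) (nat_lit 0)
  (nat_lit 10) (node (nat_lit 4) (nat_lit 0) (nat_lit 11) (node (nat_lit 7) (nat_lit 39960)
  (nat_lit 12) (node (nat_lit 4) (nat_lit 39960) (nat_lit 13) (node (nat_lit 5) (nat_lit 41577)
  (nat_lit 14) nil nil) (node (nat_lit 13) (nat_lit 39960) (nat_lit 13) nil (node (nat_lit 5)
  (nat_lit 41480) (nat_lit 13) nil nil))) (node (nat_lit 5) (nat_lit 41355) (nat_lit 12) (node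
  (nat_lit 7) (nat_lit 41355) (nat_lit 13) nil nil) (node (nat_lit 0) (nat_lit 42443) (nat_lit 12)
  nil nil))) (node (nat_lit 7) (nat_lit 39960) (nat_lit 11) (node (nat_lit 13) (nat_lit 39960)
  (nat_lit 12) nil (node (nat_lit 4) (nat_lit 39960) (nat_lit 12) nil (node (nat_lit 5) (nat_lit
  41355) (nat_lit 12) nil nil))) (node (nat_lit 5) (nat_lit 42158) (nat_lit 11) (node (nat_lit 7)
  (nat_lit 42158) (nat_lit 12) nil nil) (node (nat_lit 0) (nat_lit 42158) (nat_lit 11) nil nil))))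
  (node (nat_lit 7) (nat_lit 0) (nat_lit 10) (node (nat_lit 2) (nat_lit 39960) (nat_lit 11) (node
  (nat_lit 4) (nat_lit 39960) (nat_lit 12) (node (nat_lit 7) (nat_lit 39960) (nat_lit 13) (node
  (nat_lit 4) (nat_lit 39960) (nat_lit 14) (node (nat_lit 5) (nat_lit 41594) (nat_lit 15) nil nil)
  (node (nat_lit 5) (nat_lit 41577) (nat_lit 14) nil nil)) nil) (node (nat_lit 7) (nat_lit 39960)
  (nat_lit 12) (node (nat_lit 4) (nat_lit 39960) (nat_lit 13) nil nil) nil)) (node (nat_lit 0)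
  (nat_lit 42158) (nat_lit 11) (node (nat_lit 4) (nat_lit 42158) (nat_lit 12) (node (nat_lit 7)
  (nat_lit 42158) (nat_lit 13) (node (nat_lit 4) (nat_lit 42158) (nat_lit 14) (node (nat_lit 5)
  (nat_lit 42617) (nat_lit 15) nil nil) nil) nil) (node (nat_lit 7) (nat_lit 42158) (nat_lit 12)
  (node (nat_lit 4) (nat_lit 42158) (nat_lit 13) nil nil) nil)) nil)) (node (nat_lit 5) (nat_lit
  0) (nat_lit 10) (node (nat_lit 0) (nat_lit 42846) (nat_lit 11) (node (nat_lit 4) (nat_lit 42846)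
  (nat_lit 12) nil (node (nat_lit 7) (nat_lit 42846) (nat_lit 12) nil nil)) (node (nat_lit 2)
  (nat_lit 42481) (nat_lit 11) (node (nat_lit 4) (nat_lit 42481) (nat_lit 12) nil (node (nat_lit
  5) (nat_lit 42846) (nat_lit 12) nil (node (nat_lit 7) (nat_lit 42481) (nat_lit 12) nil nil)))
  nil)) nil)))) (node (nat_lit 5) (nat_lit 0) (nat_lit 9) (node (nat_lit 0) (nat_lit 42414)
  (nat_lit 10) (node (nat_lit 5) (nat_lit 42619) (nat_lit 11) (node (nat_lit 4) (nat_lit 42619)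
  (nat_lit 12) (node (nat_lit 7) (nat_lit 42619) (nat_lit 13) nil nil) (node (nat_lit 7) (nat_lit
  42619) (nat_lit 12) (node (nat_lit 4) (nat_lit 42619) (nat_lit 13) (node (nat_lit 5) (nat_lit
  43001) (nat_lit 14) nil nil) nil) nil)) (node (nat_lit 7) (nat_lit 42414) (nat_lit 11) (node
  (nat_lit 4) (nat_lit 42414) (nat_lit 12) (node (nat_lit 5) (nat_lit 42903) (nat_lit 13) nil nil)
  nil) nil)) (node (nat_lit 2) (nat_lit 41947) (nat_lit 10) (node (nat_lit 5) (nat_lit 42779)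
  (nat_lit 11) (node (nat_lit 7) (nat_lit 42779) (nat_lit 12) (node (nat_lit 4) (nat_lit 42779)
  (nat_lit 13) (node (nat_lit 5) (nat_lit 43161) (nat_lit 14) nil nil) nil) (node (nat_lit 4)
  (nat_lit 42779) (nat_lit 12) nil nil)) (node (nat_lit 7) (nat_lit 41947) (nat_lit 11) (node
  (nat_lit 13) (nat_lit 41947) (nat_lit 12) nil (node (nat_lit 4) (nat_lit 41947) (nat_lit 12)
  (node (nat_lit 5) (nat_lit 42699) (nat_lit 13) nil nil) nil)) (node (nat_lit 4) (nat_lit 41947)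
  (nat_lit 11) (node (nat_lit 7) (nat_lit 41947) (nat_lit 12) nil nil) nil))) (node (nat_lit 4)
  (nat_lit 0) (nat_lit 10) (node (nat_lit 2) (nat_lit 41947) (nat_lit 11) (node (nat_lit 5)
  (nat_lit 42574) (nat_lit 12) nil (node (nat_lit 7) (nat_lit 41947) (nat_lit 12) nil (node
  (nat_lit 4) (nat_lit 41947) (nat_lit 12) nil nil))) (node (nat_lit 0) (nat_lit 42779) (nat_lit
  11) (node (nat_lit 5) (nat_lit 42939) (nat_lit 12) nil (node (nat_lit 7) (nat_lit 42779)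
  (nat_lit 12) nil nil)) nil)) nil))) (node (nat_lit 0) (nat_lit 0) (nat_lit 9) (node (nat_lit 5)
  (nat_lit 42181) (nat_lit 10) (node (nat_lit 7) (nat_lit 42181) (nat_lit 11) nil nil) (node
  (nat_lit 4) (nat_lit 41713) (nat_lit 10) (node (nat_lit 7) (nat_lit 41713) (nat_lit 11) (node
  (nat_lit 4) (nat_lit 41713) (nat_lit 12) (node (nat_lit 5) (nat_lit 42465) (nat_lit 13) nil nil)
  nil) nil) (node (nat_lit 7) (nat_lit 41713) (nat_lit 10) (node (nat_lit 4) (nat_lit 41713)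
  (nat_lit 11) (node (nat_lit 5) (nat_lit 42341) (nat_lit 12) nil nil) nil) (node (nat_lit 0)
  (nat_lit 41976) (nat_lit 10) nil (node (nat_lit 2) (nat_lit 41713) (nat_lit 10) nil nil)))))
  (node (nat_lit 2) (nat_lit 0) (nat_lit 9) (node (nat_lit 4) (nat_lit 39960) (nat_lit 10) (node
  (nat_lit 7) (nat_lit 39960) (nat_lit 11) (node (nat_lit 4) (nat_lit 39960) (nat_lit 12) (node
  (nat_lit 5) (nat_lit 41480) (nat_lit 13) nil nil) nil) nil) (node (nat_lit 5) (nat_lit 41794)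
  (nat_lit 10) (node (nat_lit 7) (nat_lit 41794) (nat_lit 11) nil nil) (node (nat_lit 7) (nat_lit
  39960) (nat_lit 10) (node (nat_lit 5) (nat_lit 41195) (nat_lit 11) nil (node (nat_lit 4)
  (nat_lit 39960) (nat_lit 11) (node (nat_lit 5) (nat_lit 41355) (nat_lit 12) nil nil) nil)) (node
  (nat_lit 0) (nat_lit 41794) (nat_lit 10) (node (nat_lit 7) (nat_lit 41794) (nat_lit 11) nil
  (node (nat_lit 5) (nat_lit 41999) (nat_lit 11) nil (node (nat_lit 4) (nat_lit 41794) (nat_lit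
  11) nil nil))) nil)))) nil)))) (node (nat_lit 0) (nat_lit 0) (nat_lit 8) (node (nat_lit 4)
  (nat_lit 41931) (nat_lit 9) (node (nat_lit 7) (nat_lit 41931) (nat_lit 10) (node (nat_lit 4)
  (nat_lit 41931) (nat_lit 11) (node (nat_lit 5) (nat_lit 42381) (nat_lit 12) nil nil) nil) (node
  (nat_lit 5) (nat_lit 42210) (nat_lit 10) (node (nat_lit 7) (nat_lit 42210) (nat_lit 11) (node
  (nat_lit 4) (nat_lit 42210) (nat_lit 12) nil nil) nil) nil)) (node (nat_lit 7) (nat_lit 41931)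
  (nat_lit 9) (node (nat_lit 4) (nat_lit 41931) (nat_lit 10) (node (nat_lit 5) (nat_lit 42306)
  (nat_lit 11) (node (nat_lit 4) (nat_lit 42306) (nat_lit 12) (node (nat_lit 7) (nat_lit 42306)
  (nat_lit 13) nil nil) nil) nil) nil) (node (nat_lit 5) (nat_lit 42350) (nat_lit 9) (node
  (nat_lit 7) (nat_lit 42350) (nat_lit 10) (node (nat_lit 4) (nat_lit 42350) (nat_lit 11) (node
  (nat_lit 5) (nat_lit 42644) (nat_lit 12) (node (nat_lit 4) (nat_lit 42644) (nat_lit 13) nil nil)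
  nil) nil) (node (nat_lit 4) (nat_lit 42350) (nat_lit 10) (node (nat_lit 7) (nat_lit 42350)
  (nat_lit 11) nil nil) nil)) (node (nat_lit 2) (nat_lit 41931) (nat_lit 9) nil (node (nat_lit 0)
  (nat_lit 42088) (nat_lit 9) nil nil))))) (node (nat_lit 2) (nat_lit 0) (nat_lit 8) (node
  (nat_lit 4) (nat_lit 40999) (nat_lit 9) (node (nat_lit 7) (nat_lit 40999) (nat_lit 10) (node
  (nat_lit 4) (nat_lit 40999) (nat_lit 11) (node (nat_lit 5) (nat_lit 41658) (nat_lit 12) nil nil)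
  nil) (node (nat_lit 5) (nat_lit 41487) (nat_lit 10) (node (nat_lit 7) (nat_lit 41487) (nat_lit
  11) (node (nat_lit 4) (nat_lit 41487) (nat_lit 12) nil nil) nil) (node (nat_lit 11) (nat_lit
  40999) (nat_lit 10) nil nil))) (node (nat_lit 7) (nat_lit 40999) (nat_lit 9) (node (nat_lit 4)
  (nat_lit 40999) (nat_lit 10) (node (nat_lit 5) (nat_lit 41583) (nat_lit 11) (node (nat_lit 4)
  (nat_lit 41583) (nat_lit 12) (node (nat_lit 7) (nat_lit 36459) (nat_lit 13) (node (nat_lit 5)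
  (nat_lit 11392) (nat_lit 14) nil nil) nil) nil) nil) (node (nat_lit 11) (nat_lit 40999) (nat_lit
  10) nil nil)) (node (nat_lit 5) (nat_lit 41963) (nat_lit 9) (node (nat_lit 7) (nat_lit 41963)
  (nat_lit 10) (node (nat_lit 4) (nat_lit 41963) (nat_lit 11) (node (nat_lit 5) (nat_lit 42257)
  (nat_lit 12) (node (nat_lit 4) (nat_lit 42257) (nat_lit 13) nil nil) nil) nil) (node (nat_lit 4)
  (nat_lit 41963) (nat_lit 10) (node (nat_lit 7) (nat_lit 41963) (nat_lit 11) (node (nat_lit 4)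
  (nat_lit 41963) (nat_lit 12) nil nil) nil) nil)) (node (nat_lit 0) (nat_lit 41963) (nat_lit 9)
  nil nil)))) nil))) nil) nil)) (node (nat_lit 4) (nat_lit 0) (nat_lit 5) (node (nat_lit 5)
  (nat_lit 0) (nat_lit 6) (node (nat_lit 7) (nat_lit 0) (nat_lit 7) (node (nat_lit 5) (nat_lit 0)
  (nat_lit 8) (node (nat_lit 4) (nat_lit 0) (nat_lit 9) (node (nat_lit 0) (nat_lit 23465) (nat_lit
  10) (node (nat_lit 4) (nat_lit 22563) (nat_lit 11) (node (nat_lit 5) (nat_lit 23398) (nat_lit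
  12) nil (node (nat_lit 7) (nat_lit 23262) (nat_lit 12) nil nil)) (node (nat_lit 7) (nat_lit
  24034) (nat_lit 11) (node (nat_lit 4) (nat_lit 24034) (nat_lit 12) nil nil) (node (nat_lit 5)
  (nat_lit 24327) (nat_lit 11) (node (nat_lit 7) (nat_lit 24327) (nat_lit 12) nil nil) nil)))
  (node (nat_lit 2) (nat_lit 0) (nat_lit 10) (node (nat_lit 4) (nat_lit 0) (nat_lit 11) (node
  (nat_lit 5) (nat_lit 22228) (nat_lit 12) nil (node (nat_lit 7) (nat_lit 22125) (nat_lit 12)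
  (node (nat_lit 4) (nat_lit 22227) (nat_lit 13) nil nil) (node (nat_lit 0) (nat_lit 22228)
  (nat_lit 12) nil nil))) (node (nat_lit 5) (nat_lit 23085) (nat_lit 11) (node (nat_lit 7)
  (nat_lit 23712) (nat_lit 12) nil nil) (node (nat_lit 7) (nat_lit 21951) (nat_lit 11) (node
  (nat_lit 4) (nat_lit 21718) (nat_lit 12) nil nil) (node (nat_lit 0) (nat_lit 23085) (nat_lit 11)
  nil nil)))) (node (nat_lit 7) (nat_lit 0) (nat_lit 10) (node (nat_lit 0) (nat_lit 24536)
  (nat_lit 11) (node (nat_lit 4) (nat_lit 23840) (nat_lit 12) (node (nat_lit 7) (nat_lit 24332)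
  (nat_lit 13) (node (nat_lit 4) (nat_lit 24072) (nat_lit 14) nil nil) nil) (node (nat_lit 7)
  (nat_lit 25045) (nat_lit 12) nil (node (nat_lit 5) (nat_lit 25273) (nat_lit 12) nil nil))) (node
  (nat_lit 2) (nat_lit 23451) (nat_lit 11) (node (nat_lit 4) (nat_lit 22927) (nat_lit 12) (node
  (nat_lit 7) (nat_lit 23296) (nat_lit 13) (node (nat_lit 4) (nat_lit 23101) (nat_lit 14) (node
  (nat_lit 5) (nat_lit 23419) (nat_lit 15) nil nil) nil) nil) (node (nat_lit 7) (nat_lit 23262)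
  (nat_lit 12) nil (node (nat_lit 5) (nat_lit 24078) (nat_lit 12) nil nil))) nil)) (node (nat_lit
  5) (nat_lit 0) (nat_lit 10) (node (nat_lit 0) (nat_lit 24536) (nat_lit 11) (node (nat_lit 5)
  (nat_lit 25111) (nat_lit 12) nil nil) (node (nat_lit 2) (nat_lit 22563) (nat_lit 11) (node
  (nat_lit 4) (nat_lit 21868) (nat_lit 12) nil (node (nat_lit 5) (nat_lit 23398) (nat_lit 12) nil
  nil)) nil)) nil)))) (node (nat_lit 0) (nat_lit 0) (nat_lit 9) (node (nat_lit 7) (nat_lit 23465)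
  (nat_lit 10) (node (nat_lit 12) (nat_lit 24210) (nat_lit 11) nil (node (nat_lit 4) (nat_lit
  23541) (nat_lit 11) (node (nat_lit 5) (nat_lit 24439) (nat_lit 12) (node (nat_lit 4) (nat_lit
  24439) (nat_lit 13) (node (nat_lit 7) (nat_lit 24439) (nat_lit 14) nil nil) nil) nil) nil))
  (node (nat_lit 4) (nat_lit 21005) (nat_lit 10) (node (nat_lit 7) (nat_lit 22099) (nat_lit 11)
  (node (nat_lit 4) (nat_lit 21718) (nat_lit 12) (node (nat_lit 5) (nat_lit 21861) (nat_lit 13)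
  nil nil) nil) (node (nat_lit 12) (nat_lit 22076) (nat_lit 11) (node (nat_lit 7) (nat_lit 22911)
  (nat_lit 12) nil nil) (node (nat_lit 5) (nat_lit 22076) (nat_lit 11) nil nil))) (node (nat_lit
  5) (nat_lit 23465) (nat_lit 10) (node (nat_lit 7) (nat_lit 23917) (nat_lit 11) nil nil) (node
  (nat_lit 0) (nat_lit 23465) (nat_lit 10) (node (nat_lit 7) (nat_lit 23917) (nat_lit 11) nil
  (node (nat_lit 5) (nat_lit 24210) (nat_lit 11) nil nil)) (node (nat_lit 2) (nat_lit 21005)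
  (nat_lit 10) (node (nat_lit 7) (nat_lit 22099) (nat_lit 11) nil (node (nat_lit 5) (nat_lit
  22076) (nat_lit 11) nil (node (nat_lit 4) (nat_lit 20103) (nat_lit 11) nil nil))) nil))))) (node
  (nat_lit 2) (nat_lit 0) (nat_lit 9) (node (nat_lit 7) (nat_lit 21806) (nat_lit 10) (node
  (nat_lit 12) (nat_lit 22611) (nat_lit 11) nil (node (nat_lit 4) (nat_lit 21484) (nat_lit 11)
  (node (nat_lit 5) (nat_lit 21269) (nat_lit 12) (node (nat_lit 4) (nat_lit 15876) (nat_lit 13)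
  (node (nat_lit 7) (nat_lit 12752) (nat_lit 14) nil nil) nil) nil) nil)) (node (nat_lit 4)
  (nat_lit 20011) (nat_lit 10) (node (nat_lit 7) (nat_lit 20836) (nat_lit 11) (node (nat_lit 4)
  (nat_lit 20547) (nat_lit 12) (node (nat_lit 5) (nat_lit 20722) (nat_lit 13) nil nil) nil) (node
  (nat_lit 12) (nat_lit 19333) (nat_lit 11) (node (nat_lit 7) (nat_lit 19968) (nat_lit 12) nil
  (node (nat_lit 5) (nat_lit 19960) (nat_lit 12) nil nil)) (node (nat_lit 5) (nat_lit 20817)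
  (nat_lit 11) nil nil))) (node (nat_lit 5) (nat_lit 21862) (nat_lit 10) (node (nat_lit 7)
  (nat_lit 22668) (nat_lit 11) (node (nat_lit 4) (nat_lit 23295) (nat_lit 12) nil nil) nil) (node
  (nat_lit 0) (nat_lit 21862) (nat_lit 10) (node (nat_lit 7) (nat_lit 22668) (nat_lit 11) nil
  (node (nat_lit 5) (nat_lit 22668) (nat_lit 11) nil (node (nat_lit 4) (nat_lit 21183) (nat_lit
  11) nil nil))) nil)))) nil))) (node (nat_lit 4) (nat_lit 0) (nat_lit 8) (node (nat_lit 7)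
  (nat_lit 0) (nat_lit 9) (node (nat_lit 0) (nat_lit 23465) (nat_lit 10) (node (nat_lit 7)
  (nat_lit 23778) (nat_lit 11) (node (nat_lit 4) (nat_lit 23778) (nat_lit 12) (node (nat_lit 5)
  (nat_lit 24478) (nat_lit 13) nil nil) nil) (node (nat_lit 4) (nat_lit 22563) (nat_lit 11) (node
  (nat_lit 7) (nat_lit 23262) (nat_lit 12) nil nil) nil)) (node (nat_lit 2) (nat_lit 0) (nat_lit
  10) (node (nat_lit 7) (nat_lit 20255) (nat_lit 11) (node (nat_lit 4) (nat_lit 19902) (nat_lit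
  12) (node (nat_lit 5) (nat_lit 19823) (nat_lit 13) (node (nat_lit 4) (nat_lit 17578) (nat_lit
  14) nil nil) nil) (node (nat_lit 5) (nat_lit 21634) (nat_lit 12) nil nil)) (node (nat_lit 4)
  (nat_lit 20840) (nat_lit 11) (node (nat_lit 7) (nat_lit 21171) (nat_lit 12) (node (nat_lit 4)
  (nat_lit 20935) (nat_lit 13) nil nil) (node (nat_lit 13) (nat_lit 20495) (nat_lit 12) nil nil))
  (node (nat_lit 5) (nat_lit 22991) (nat_lit 11) nil (node (nat_lit 0) (nat_lit 22991) (nat_lit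
  11) nil nil)))) (node (nat_lit 5) (nat_lit 0) (nat_lit 10) (node (nat_lit 2) (nat_lit 22563)
  (nat_lit 11) (node (nat_lit 7) (nat_lit 23262) (nat_lit 12) nil (node (nat_lit 5) (nat_lit
  23398) (nat_lit 12) nil (node (nat_lit 4) (nat_lit 21868) (nat_lit 12) nil nil))) (node (nat_lit
  0) (nat_lit 24536) (nat_lit 11) (node (nat_lit 7) (nat_lit 25019) (nat_lit 12) nil (node
  (nat_lit 5) (nat_lit 25248) (nat_lit 12) nil nil)) nil)) nil))) (node (nat_lit 0) (nat_lit 0)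
  (nat_lit 9) (node (nat_lit 7) (nat_lit 23465) (nat_lit 10) (node (nat_lit 4) (nat_lit 23617)
  (nat_lit 11) (node (nat_lit 5) (nat_lit 24514) (nat_lit 12) nil nil) (node (nat_lit 12) (nat_lit
  24286) (nat_lit 11) nil nil)) (node (nat_lit 5) (nat_lit 23465) (nat_lit 10) (node (nat_lit 7)
  (nat_lit 23993) (nat_lit 11) nil (node (nat_lit 12) (nat_lit 24286) (nat_lit 11) (node (nat_lit
  7) (nat_lit 24286) (nat_lit 12) nil nil) nil)) (node (nat_lit 4) (nat_lit 21005) (nat_lit 10)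
  (node (nat_lit 7) (nat_lit 22099) (nat_lit 11) (node (nat_lit 4) (nat_lit 21718) (nat_lit 12)
  nil nil) nil) (node (nat_lit 2) (nat_lit 21005) (nat_lit 10) (node (nat_lit 7) (nat_lit 22099)
  (nat_lit 11) nil (node (nat_lit 4) (nat_lit 20103) (nat_lit 11) nil (node (nat_lit 5) (nat_lit
  22076) (nat_lit 11) nil nil))) (node (nat_lit 0) (nat_lit 23465) (nat_lit 10) (node (nat_lit 7)
  (nat_lit 23993) (nat_lit 11) nil (node (nat_lit 4) (nat_lit 22563) (nat_lit 11) nil nil))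
  nil))))) (node (nat_lit 2) (nat_lit 0) (nat_lit 9) (node (nat_lit 7) (nat_lit 21806) (nat_lit
  10) (node (nat_lit 4) (nat_lit 21484) (nat_lit 11) (node (nat_lit 5) (nat_lit 21269) (nat_lit
  12) nil nil) (node (nat_lit 12) (nat_lit 22611) (nat_lit 11) nil nil)) (node (nat_lit 5)
  (nat_lit 21862) (nat_lit 10) (node (nat_lit 7) (nat_lit 22668) (nat_lit 11) (node (nat_lit 4)
  (nat_lit 23295) (nat_lit 12) nil nil) (node (nat_lit 12) (nat_lit 21183) (nat_lit 11) (node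
  (nat_lit 7) (nat_lit 21819) (nat_lit 12) nil (node (nat_lit 4) (nat_lit 20659) (nat_lit 12) nil
  nil)) (node (nat_lit 4) (nat_lit 21183) (nat_lit 11) nil nil))) (node (nat_lit 4) (nat_lit
  20011) (nat_lit 10) (node (nat_lit 7) (nat_lit 20836) (nat_lit 11) (node (nat_lit 4) (nat_lit
  20547) (nat_lit 12) nil nil) (node (nat_lit 5) (nat_lit 20817) (nat_lit 11) nil nil)) (node
  (nat_lit 0) (nat_lit 21862) (nat_lit 10) (node (nat_lit 7) (nat_lit 22668) (nat_lit 11) nil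
  (node (nat_lit 4) (nat_lit 21183) (nat_lit 11) nil (node (nat_lit 5) (nat_lit 22668) (nat_lit
  11) nil nil))) nil)))) nil))) (node (nat_lit 0) (nat_lit 0) (nat_lit 8) (node (nat_lit 4)
  (nat_lit 22441) (nat_lit 9) (node (nat_lit 5) (nat_lit 22977) (nat_lit 10) (node (nat_lit 7)
  (nat_lit 23449) (nat_lit 11) nil nil) (node (nat_lit 7) (nat_lit 22483) (nat_lit 10) nil (node
  (nat_lit 11) (nat_lit 22977) (nat_lit 10) nil nil))) (node (nat_lit 5) (nat_lit 24533) (nat_lit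
  9) (node (nat_lit 7) (nat_lit 24533) (nat_lit 10) (node (nat_lit 4) (nat_lit 24533) (nat_lit 11)
  (node (nat_lit 5) (nat_lit 24926) (nat_lit 12) (node (nat_lit 4) (nat_lit 24926) (nat_lit 13)
  nil nil) nil) nil) (node (nat_lit 4) (nat_lit 23489) (nat_lit 10) (node (nat_lit 7) (nat_lit
  23640) (nat_lit 11) nil nil) nil)) (node (nat_lit 7) (nat_lit 24186) (nat_lit 9) (node (nat_lit
  4) (nat_lit 24186) (nat_lit 10) (node (nat_lit 5) (nat_lit 24809) (nat_lit 11) (node (nat_lit 4)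
  (nat_lit 24809) (nat_lit 12) (node (nat_lit 7) (nat_lit 24809) (nat_lit 13) nil nil) nil) nil)
  nil) (node (nat_lit 2) (nat_lit 22441) (nat_lit 9) nil (node (nat_lit 0) (nat_lit 24533)
  (nat_lit 9) nil nil))))) (node (nat_lit 2) (nat_lit 0) (nat_lit 8) (node (nat_lit 4) (nat_lit
  20655) (nat_lit 9) (node (nat_lit 7) (nat_lit 21470) (nat_lit 10) (node (nat_lit 4) (nat_lit
  21444) (nat_lit 11) (node (nat_lit 5) (nat_lit 20587) (nat_lit 12) nil nil) nil) (node (nat_lit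
  5) (nat_lit 22631) (nat_lit 10) (node (nat_lit 7) (nat_lit 22631) (nat_lit 11) nil nil) (node
  (nat_lit 11) (nat_lit 20179) (nat_lit 10) nil nil))) (node (nat_lit 5) (nat_lit 23843) (nat_lit
  9) (node (nat_lit 7) (nat_lit 23843) (nat_lit 10) (node (nat_lit 4) (nat_lit 23843) (nat_lit 11)
  (node (nat_lit 5) (nat_lit 24237) (nat_lit 12) (node (nat_lit 4) (nat_lit 24237) (nat_lit 13)
  nil nil) nil) nil) (node (nat_lit 4) (nat_lit 23022) (nat_lit 10) (node (nat_lit 7) (nat_lit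
  23173) (nat_lit 11) nil nil) nil)) (node (nat_lit 7) (nat_lit 21645) (nat_lit 9) (node (nat_lit
  4) (nat_lit 22459) (nat_lit 10) (node (nat_lit 5) (nat_lit 20404) (nat_lit 11) (node (nat_lit 4)
  (nat_lit 15608) (nat_lit 12) nil nil) nil) (node (nat_lit 5) (nat_lit 23620) (nat_lit 10) nil
  nil)) (node (nat_lit 0) (nat_lit 23169) (nat_lit 9) nil nil)))) nil)))) nil) nil) nil))

noncomputable def t327 : Tr :=
  (node (nat_lit 6) (nat_lit 0) (nat_lit 5) (node (nat_lit 5) (nat_lit 0) (nat_lit 6) (node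
  (nat_lit 4) (nat_lit 0) (nat_lit 7) (node (nat_lit 5) (nat_lit 0) (nat_lit 8) (node (nat_lit 6)
  (nat_lit 0) (nat_lit 9) (node (nat_lit 0) (nat_lit 71168) (nat_lit 10) (node (nat_lit 6)
  (nat_lit 73024) (nat_lit 11) nil nil) (node (nat_lit 2) (nat_lit 71559) (nat_lit 10) (node
  (nat_lit 6) (nat_lit 73414) (nat_lit 11) nil (node (nat_lit 5) (nat_lit 73064) (nat_lit 11) nil
  nil)) (node (nat_lit 4) (nat_lit 71168) (nat_lit 10) nil (node (nat_lit 5) (nat_lit 71930)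
  (nat_lit 10) nil nil)))) (node (nat_lit 0) (nat_lit 0) (nat_lit 9) (node (nat_lit 4) (nat_lit
  72395) (nat_lit 10) (node (nat_lit 12) (nat_lit 74250) (nat_lit 11) nil nil) (node (nat_lit 6)
  (nat_lit 72395) (nat_lit 10) (node (nat_lit 4) (nat_lit 74250) (nat_lit 11) nil nil) (node
  (nat_lit 5) (nat_lit 72395) (nat_lit 10) (node (nat_lit 4) (nat_lit 72251) (nat_lit 11) nil nil)
  (node (nat_lit 2) (nat_lit 67793) (nat_lit 10) nil (node (nat_lit 0) (nat_lit 72395) (nat_lit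
  10) nil nil))))) (node (nat_lit 2) (nat_lit 0) (nat_lit 9) (node (nat_lit 4) (nat_lit 72555)
  (nat_lit 10) (node (nat_lit 6) (nat_lit 71860) (nat_lit 11) nil nil) (node (nat_lit 6) (nat_lit
  72555) (nat_lit 10) (node (nat_lit 4) (nat_lit 74410) (nat_lit 11) nil nil) (node (nat_lit 5)
  (nat_lit 72985) (nat_lit 10) (node (nat_lit 4) (nat_lit 74840) (nat_lit 11) nil nil) (node
  (nat_lit 0) (nat_lit 72555) (nat_lit 10) (node (nat_lit 5) (nat_lit 74410) (nat_lit 11) nil nil)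
  nil)))) nil))) (node (nat_lit 6) (nat_lit 0) (nat_lit 8) (node (nat_lit 4) (nat_lit 0) (nat_lit
  9) (node (nat_lit 0) (nat_lit 70698) (nat_lit 10) (node (nat_lit 4) (nat_lit 72553) (nat_lit 11)
  nil (node (nat_lit 6) (nat_lit 72553) (nat_lit 11) nil nil)) (node (nat_lit 2) (nat_lit 69329)
  (nat_lit 10) (node (nat_lit 4) (nat_lit 71184) (nat_lit 11) nil (node (nat_lit 6) (nat_lit
  71184) (nat_lit 11) nil (node (nat_lit 5) (nat_lit 72229) (nat_lit 11) nil nil))) (node (nat_lit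
  5) (nat_lit 0) (nat_lit 10) (node (nat_lit 0) (nat_lit 71807) (nat_lit 11) (node (nat_lit 5)
  (nat_lit 73254) (nat_lit 12) nil nil) (node (nat_lit 2) (nat_lit 70116) (nat_lit 11) (node
  (nat_lit 6) (nat_lit 69069) (nat_lit 12) nil (node (nat_lit 5) (nat_lit 70760) (nat_lit 12) nil
  nil)) nil)) nil))) (node (nat_lit 0) (nat_lit 0) (nat_lit 9) (node (nat_lit 4) (nat_lit 71324)
  (nat_lit 10) (node (nat_lit 12) (nat_lit 73180) (nat_lit 11) nil nil) (node (nat_lit 5) (nat_lit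
  72112) (nat_lit 10) (node (nat_lit 4) (nat_lit 71968) (nat_lit 11) (node (nat_lit 5) (nat_lit
  73415) (nat_lit 12) (node (nat_lit 6) (nat_lit 74546) (nat_lit 13) (node (nat_lit 4) (nat_lit
  75427) (nat_lit 14) (node (nat_lit 6) (nat_lit 76116) (nat_lit 15) (node (nat_lit 5) (nat_lit
  76652) (nat_lit 16) nil nil) nil) nil) nil) nil) nil) (node (nat_lit 6) (nat_lit 72112) (nat_lit
  10) (node (nat_lit 4) (nat_lit 73967) (nat_lit 11) nil nil) (node (nat_lit 0) (nat_lit 72112)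
  (nat_lit 10) nil (node (nat_lit 2) (nat_lit 67510) (nat_lit 10) nil nil))))) (node (nat_lit 2)
  (nat_lit 0) (nat_lit 9) (node (nat_lit 4) (nat_lit 70810) (nat_lit 10) (node (nat_lit 6)
  (nat_lit 72665) (nat_lit 11) nil (node (nat_lit 12) (nat_lit 71612) (nat_lit 11) (node (nat_lit
  5) (nat_lit 71005) (nat_lit 12) nil nil) nil)) (node (nat_lit 5) (nat_lit 70251) (nat_lit 10)
  (node (nat_lit 4) (nat_lit 71250) (nat_lit 11) (node (nat_lit 5) (nat_lit 67105) (nat_lit 12)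
  (node (nat_lit 6) (nat_lit 64852) (nat_lit 13) (node (nat_lit 4) (nat_lit 61858) (nat_lit 14)
  (node (nat_lit 6) (nat_lit 56202) (nat_lit 15) (node (nat_lit 5) (nat_lit 47080) (nat_lit 16)
  nil nil) nil) nil) nil) nil) (node (nat_lit 12) (nat_lit 70107) (nat_lit 11) nil nil)) (node
  (nat_lit 6) (nat_lit 70516) (nat_lit 10) (node (nat_lit 4) (nat_lit 72371) (nat_lit 11) nil nil)
  (node (nat_lit 0) (nat_lit 70516) (nat_lit 10) (node (nat_lit 6) (nat_lit 72371) (nat_lit 11)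
  nil nil) nil)))) nil))) (node (nat_lit 0) (nat_lit 73599) (nat_lit 8) (node (nat_lit 6) (nat_lit
  75120) (nat_lit 9) nil (node (nat_lit 5) (nat_lit 75409) (nat_lit 9) (node (nat_lit 4) (nat_lit
  76430) (nat_lit 10) nil nil) (node (nat_lit 4) (nat_lit 74130) (nat_lit 9) (node (nat_lit 6)
  (nat_lit 75151) (nat_lit 10) nil nil) nil))) (node (nat_lit 2) (nat_lit 0) (nat_lit 8) (node
  (nat_lit 6) (nat_lit 73119) (nat_lit 9) (node (nat_lit 4) (nat_lit 74140) (nat_lit 10) (node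
  (nat_lit 5) (nat_lit 76330) (nat_lit 11) (node (nat_lit 6) (nat_lit 74773) (nat_lit 12) nil nil)
  nil) (node (nat_lit 5) (nat_lit 74140) (nat_lit 10) nil nil)) (node (nat_lit 5) (nat_lit 73948)
  (nat_lit 9) (node (nat_lit 4) (nat_lit 74625) (nat_lit 10) (node (nat_lit 5) (nat_lit 73665)
  (nat_lit 11) (node (nat_lit 6) (nat_lit 69885) (nat_lit 12) (node (nat_lit 4) (nat_lit 61976)
  (nat_lit 13) nil nil) nil) nil) nil) (node (nat_lit 4) (nat_lit 74210) (nat_lit 9) (node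
  (nat_lit 6) (nat_lit 75231) (nat_lit 10) (node (nat_lit 5) (nat_lit 76132) (nat_lit 11) nil nil)
  nil) (node (nat_lit 0) (nat_lit 73949) (nat_lit 9) nil nil)))) nil)))) (node (nat_lit 6)
  (nat_lit 0) (nat_lit 7) (node (nat_lit 4) (nat_lit 0) (nat_lit 8) (node (nat_lit 5) (nat_lit 0)
  (nat_lit 9) (node (nat_lit 0) (nat_lit 0) (nat_lit 10) (node (nat_lit 5) (nat_lit 0) (nat_lit
  11) (node (nat_lit 4) (nat_lit 76402) (nat_lit 12) (node (nat_lit 6) (nat_lit 77533) (nat_lit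
  13) nil (node (nat_lit 5) (nat_lit 77533) (nat_lit 13) (node (nat_lit 6) (nat_lit 78414)
  (nat_lit 14) nil nil) (node (nat_lit 13) (nat_lit 77533) (nat_lit 13) nil nil))) (node (nat_lit
  6) (nat_lit 76402) (nat_lit 12) nil (node (nat_lit 0) (nat_lit 76402) (nat_lit 12) nil (node
  (nat_lit 2) (nat_lit 73539) (nat_lit 12) nil nil)))) (node (nat_lit 4) (nat_lit 74878) (nat_lit
  11) (node (nat_lit 13) (nat_lit 76325) (nat_lit 12) nil (node (nat_lit 6) (nat_lit 76325)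
  (nat_lit 12) nil (node (nat_lit 5) (nat_lit 76465) (nat_lit 12) nil nil))) (node (nat_lit 6)
  (nat_lit 74878) (nat_lit 11) (node (nat_lit 4) (nat_lit 76325) (nat_lit 12) nil (node (nat_lit
  5) (nat_lit 76325) (nat_lit 12) nil nil)) (node (nat_lit 2) (nat_lit 74878) (nat_lit 11) (node
  (nat_lit 5) (nat_lit 76325) (nat_lit 12) nil (node (nat_lit 13) (nat_lit 76325) (nat_lit 12) nil
  nil)) (node (nat_lit 0) (nat_lit 74878) (nat_lit 11) (node (nat_lit 5) (nat_lit 76325) (nat_lit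
  12) nil (node (nat_lit 13) (nat_lit 76325) (nat_lit 12) nil nil)) nil))))) (node (nat_lit 4)
  (nat_lit 0) (nat_lit 10) (node (nat_lit 2) (nat_lit 74747) (nat_lit 11) (node (nat_lit 5)
  (nat_lit 75979) (nat_lit 12) (node (nat_lit 4) (nat_lit 76905) (nat_lit 13) (node (nat_lit 5)
  (nat_lit 78284) (nat_lit 14) (node (nat_lit 6) (nat_lit 77375) (nat_lit 15) (node (nat_lit 4)
  (nat_lit 76619) (nat_lit 16) (node (nat_lit 6) (nat_lit 70878) (nat_lit 17) nil nil) nil) nil)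
  (node (nat_lit 6) (nat_lit 77786) (nat_lit 14) nil nil)) nil) (node (nat_lit 4) (nat_lit 76194)
  (nat_lit 12) (node (nat_lit 5) (nat_lit 77325) (nat_lit 13) nil nil) nil)) (node (nat_lit 0)
  (nat_lit 74955) (nat_lit 11) (node (nat_lit 5) (nat_lit 76465) (nat_lit 12) (node (nat_lit 4)
  (nat_lit 77596) (nat_lit 13) (node (nat_lit 5) (nat_lit 78477) (nat_lit 14) (node (nat_lit 6)
  (nat_lit 79166) (nat_lit 15) (node (nat_lit 4) (nat_lit 79702) (nat_lit 16) nil nil) nil) (node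
  (nat_lit 6) (nat_lit 76926) (nat_lit 14) nil nil)) nil) (node (nat_lit 4) (nat_lit 76402)
  (nat_lit 12) (node (nat_lit 5) (nat_lit 77533) (nat_lit 13) nil nil) nil)) nil)) (node (nat_lit
  2) (nat_lit 0) (nat_lit 10) (node (nat_lit 5) (nat_lit 0) (nat_lit 11) (node (nat_lit 4)
  (nat_lit 76402) (nat_lit 12) (node (nat_lit 6) (nat_lit 77533) (nat_lit 13) nil (node (nat_lit
  5) (nat_lit 77533) (nat_lit 13) (node (nat_lit 6) (nat_lit 78414) (nat_lit 14) nil nil) (node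
  (nat_lit 13) (nat_lit 76346) (nat_lit 13) nil nil))) (node (nat_lit 6) (nat_lit 76402) (nat_lit
  12) nil (node (nat_lit 0) (nat_lit 76402) (nat_lit 12) nil nil))) (node (nat_lit 4) (nat_lit
  74747) (nat_lit 11) (node (nat_lit 13) (nat_lit 76194) (nat_lit 12) nil (node (nat_lit 6)
  (nat_lit 76194) (nat_lit 12) nil (node (nat_lit 5) (nat_lit 76465) (nat_lit 12) nil nil))) (node
  (nat_lit 6) (nat_lit 74747) (nat_lit 11) (node (nat_lit 5) (nat_lit 76194) (nat_lit 12) nil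
  (node (nat_lit 4) (nat_lit 76194) (nat_lit 12) nil nil)) (node (nat_lit 0) (nat_lit 74747)
  (nat_lit 11) (node (nat_lit 5) (nat_lit 76194) (nat_lit 12) nil (node (nat_lit 13) (nat_lit
  73331) (nat_lit 12) nil nil)) nil)))) (node (nat_lit 6) (nat_lit 0) (nat_lit 10) (node (nat_lit
  0) (nat_lit 74955) (nat_lit 11) (node (nat_lit 5) (nat_lit 76402) (nat_lit 12) (node (nat_lit 6)
  (nat_lit 77533) (nat_lit 13) nil nil) (node (nat_lit 6) (nat_lit 76000) (nat_lit 12) nil (node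
  (nat_lit 4) (nat_lit 76402) (nat_lit 12) nil nil))) (node (nat_lit 2) (nat_lit 74674) (nat_lit
  11) (node (nat_lit 5) (nat_lit 76016) (nat_lit 12) (node (nat_lit 6) (nat_lit 77147) (nat_lit
  13) nil nil) (node (nat_lit 6) (nat_lit 76194) (nat_lit 12) nil (node (nat_lit 4) (nat_lit
  75665) (nat_lit 12) nil nil))) nil)) nil)))) (node (nat_lit 0) (nat_lit 0) (nat_lit 9) (node
  (nat_lit 6) (nat_lit 72780) (nat_lit 10) (node (nat_lit 4) (nat_lit 74635) (nat_lit 11) (node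
  (nat_lit 5) (nat_lit 76082) (nat_lit 12) nil nil) (node (nat_lit 5) (nat_lit 74635) (nat_lit 11)
  nil (node (nat_lit 12) (nat_lit 74635) (nat_lit 11) nil nil))) (node (nat_lit 5) (nat_lit 72968)
  (nat_lit 10) (node (nat_lit 4) (nat_lit 74823) (nat_lit 11) (node (nat_lit 5) (nat_lit 76270)
  (nat_lit 12) (node (nat_lit 6) (nat_lit 77401) (nat_lit 13) nil nil) nil) (node (nat_lit 6)
  (nat_lit 74823) (nat_lit 11) nil (node (nat_lit 12) (nat_lit 74823) (nat_lit 11) nil nil)))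
  (node (nat_lit 4) (nat_lit 72780) (nat_lit 10) (node (nat_lit 6) (nat_lit 74635) (nat_lit 11)
  (node (nat_lit 4) (nat_lit 76082) (nat_lit 12) nil nil) (node (nat_lit 5) (nat_lit 74955)
  (nat_lit 11) nil nil)) (node (nat_lit 2) (nat_lit 72780) (nat_lit 10) (node (nat_lit 4) (nat_lit
  74635) (nat_lit 11) nil (node (nat_lit 6) (nat_lit 72085) (nat_lit 11) nil (node (nat_lit 5)
  (nat_lit 72085) (nat_lit 11) nil nil))) (node (nat_lit 0) (nat_lit 72968) (nat_lit 10) (node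
  (nat_lit 4) (nat_lit 72824) (nat_lit 11) nil (node (nat_lit 6) (nat_lit 74823) (nat_lit 11) nil
  (node (nat_lit 5) (nat_lit 74823) (nat_lit 11) nil nil))) nil))))) (node (nat_lit 2) (nat_lit 0)
  (nat_lit 9) (node (nat_lit 6) (nat_lit 70941) (nat_lit 10) (node (nat_lit 4) (nat_lit 73063)
  (nat_lit 11) (node (nat_lit 5) (nat_lit 75914) (nat_lit 12) nil nil) (node (nat_lit 5) (nat_lit
  74085) (nat_lit 11) nil (node (nat_lit 12) (nat_lit 72824) (nat_lit 11) nil nil))) (node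
  (nat_lit 5) (nat_lit 71043) (nat_lit 10) (node (nat_lit 4) (nat_lit 72869) (nat_lit 11) (node
  (nat_lit 5) (nat_lit 73099) (nat_lit 12) (node (nat_lit 6) (nat_lit 71183) (nat_lit 13) (node
  (nat_lit 4) (nat_lit 67902) (nat_lit 14) (node (nat_lit 6) (nat_lit 59099) (nat_lit 15) (node
  (nat_lit 5) (nat_lit 38468) (nat_lit 16) nil nil) nil) nil) nil) nil) (node (nat_lit 6) (nat_lit
  72898) (nat_lit 11) nil (node (nat_lit 12) (nat_lit 70899) (nat_lit 11) nil nil))) (node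
  (nat_lit 4) (nat_lit 71322) (nat_lit 10) (node (nat_lit 6) (nat_lit 73178) (nat_lit 11) (node
  (nat_lit 4) (nat_lit 74625) (nat_lit 12) nil nil) (node (nat_lit 5) (nat_lit 74467) (nat_lit 11)
  nil nil)) (node (nat_lit 0) (nat_lit 72464) (nat_lit 10) (node (nat_lit 4) (nat_lit 74320)
  (nat_lit 11) nil (node (nat_lit 6) (nat_lit 74320) (nat_lit 11) nil (node (nat_lit 5) (nat_lit
  74320) (nat_lit 11) nil nil))) nil)))) nil))) (node (nat_lit 0) (nat_lit 0) (nat_lit 8) (node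
  (nat_lit 6) (nat_lit 75409) (nat_lit 9) (node (nat_lit 4) (nat_lit 75643) (nat_lit 10) (node
  (nat_lit 5) (nat_lit 76544) (nat_lit 11) (node (nat_lit 6) (nat_lit 77360) (nat_lit 12) nil nil)
  nil) (node (nat_lit 5) (nat_lit 76880) (nat_lit 10) (node (nat_lit 4) (nat_lit 77781) (nat_lit
  11) (node (nat_lit 5) (nat_lit 78596) (nat_lit 12) nil nil) nil) nil)) (node (nat_lit 5)
  (nat_lit 75670) (nat_lit 9) (node (nat_lit 4) (nat_lit 76578) (nat_lit 10) (node (nat_lit 6)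
  (nat_lit 77479) (nat_lit 11) (node (nat_lit 5) (nat_lit 78294) (nat_lit 12) nil nil) (node
  (nat_lit 5) (nat_lit 77479) (nat_lit 11) (node (nat_lit 6) (nat_lit 78294) (nat_lit 12) (node
  (nat_lit 4) (nat_lit 78958) (nat_lit 13) nil nil) nil) nil)) (node (nat_lit 6) (nat_lit 76691)
  (nat_lit 10) (node (nat_lit 4) (nat_lit 77509) (nat_lit 11) nil nil) (node (nat_lit 11) (nat_lit
  76880) (nat_lit 10) nil nil))) (node (nat_lit 4) (nat_lit 75409) (nat_lit 9) (node (nat_lit 6)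
  (nat_lit 75643) (nat_lit 10) (node (nat_lit 5) (nat_lit 76544) (nat_lit 11) nil (node (nat_lit
  4) (nat_lit 76544) (nat_lit 11) (node (nat_lit 5) (nat_lit 77981) (nat_lit 12) nil nil) nil))
  (node (nat_lit 5) (nat_lit 76880) (nat_lit 10) (node (nat_lit 6) (nat_lit 77781) (nat_lit 11)
  nil nil) (node (nat_lit 11) (nat_lit 76880) (nat_lit 10) nil nil))) (node (nat_lit 2) (nat_lit
  75429) (nat_lit 9) nil (node (nat_lit 0) (nat_lit 75670) (nat_lit 9) nil nil))))) (node (nat_lit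
  2) (nat_lit 0) (nat_lit 8) (node (nat_lit 6) (nat_lit 74210) (nat_lit 9) (node (nat_lit 4)
  (nat_lit 75073) (nat_lit 10) (node (nat_lit 5) (nat_lit 77263) (nat_lit 11) (node (nat_lit 6)
  (nat_lit 74156) (nat_lit 12) nil nil) nil) (node (nat_lit 5) (nat_lit 76373) (nat_lit 10) (node
  (nat_lit 4) (nat_lit 77274) (nat_lit 11) (node (nat_lit 5) (nat_lit 78090) (nat_lit 12) nil nil)
  nil) nil)) (node (nat_lit 5) (nat_lit 73993) (nat_lit 9) (node (nat_lit 4) (nat_lit 74518)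
  (nat_lit 10) (node (nat_lit 6) (nat_lit 74818) (nat_lit 11) nil (node (nat_lit 5) (nat_lit
  73689) (nat_lit 11) (node (nat_lit 6) (nat_lit 71508) (nat_lit 12) (node (nat_lit 4) (nat_lit
  64370) (nat_lit 13) nil nil) nil) nil)) (node (nat_lit 6) (nat_lit 75308) (nat_lit 10) (node
  (nat_lit 4) (nat_lit 76209) (nat_lit 11) nil nil) (node (nat_lit 11) (nat_lit 75308) (nat_lit
  10) nil nil))) (node (nat_lit 4) (nat_lit 74210) (nat_lit 9) (node (nat_lit 6) (nat_lit 74505)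
  (nat_lit 10) (node (nat_lit 5) (nat_lit 75406) (nat_lit 11) (node (nat_lit 4) (nat_lit 74877)
  (nat_lit 12) nil nil) (node (nat_lit 4) (nat_lit 75406) (nat_lit 11) (node (nat_lit 5) (nat_lit
  77594) (nat_lit 12) nil nil) nil)) (node (nat_lit 5) (nat_lit 76373) (nat_lit 10) (node (nat_lit
  6) (nat_lit 77274) (nat_lit 11) nil nil) (node (nat_lit 11) (nat_lit 74061) (nat_lit 10) nil
  nil))) (node (nat_lit 0) (nat_lit 75424) (nat_lit 9) nil nil)))) nil))) nil)) nil) (node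
  (nat_lit 5) (nat_lit 0) (nat_lit 5) (node (nat_lit 4) (nat_lit 0) (nat_lit 6) (node (nat_lit 6)
  (nat_lit 0) (nat_lit 7) (node (nat_lit 5) (nat_lit 0) (nat_lit 8) (node (nat_lit 4) (nat_lit 0)
  (nat_lit 9) (node (nat_lit 0) (nat_lit 0) (nat_lit 10) (node (nat_lit 4) (nat_lit 21144)
  (nat_lit 11) (node (nat_lit 6) (nat_lit 21545) (nat_lit 12) (node (nat_lit 5) (nat_lit 21545)
  (nat_lit 13) nil nil) (node (nat_lit 5) (nat_lit 21144) (nat_lit 12) nil nil)) (node (nat_lit 5)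
  (nat_lit 21144) (nat_lit 11) (node (nat_lit 4) (nat_lit 21144) (nat_lit 12) (node (nat_lit 5)
  (nat_lit 21144) (nat_lit 13) nil nil) nil) (node (nat_lit 6) (nat_lit 21486) (nat_lit 11) (node
  (nat_lit 5) (nat_lit 21486) (nat_lit 12) nil nil) (node (nat_lit 2) (nat_lit 21144) (nat_lit 11)
  nil (node (nat_lit 0) (nat_lit 21369) (nat_lit 11) nil nil))))) (node (nat_lit 2) (nat_lit 0)
  (nat_lit 10) (node (nat_lit 4) (nat_lit 0) (nat_lit 11) (node (nat_lit 6) (nat_lit 21286)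
  (nat_lit 12) (node (nat_lit 5) (nat_lit 21286) (nat_lit 13) nil nil) (node (nat_lit 5) (nat_lit
  20213) (nat_lit 12) nil (node (nat_lit 0) (nat_lit 21286) (nat_lit 12) nil nil))) (node (nat_lit
  5) (nat_lit 20213) (nat_lit 11) (node (nat_lit 13) (nat_lit 20213) (nat_lit 12) (node (nat_lit
  4) (nat_lit 20213) (nat_lit 13) nil nil) (node (nat_lit 4) (nat_lit 20213) (nat_lit 12) (node
  (nat_lit 5) (nat_lit 20213) (nat_lit 13) nil nil) (node (nat_lit 6) (nat_lit 21286) (nat_lit 12)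
  nil nil))) (node (nat_lit 6) (nat_lit 21409) (nat_lit 11) (node (nat_lit 5) (nat_lit 21409)
  (nat_lit 12) nil nil) (node (nat_lit 0) (nat_lit 21163) (nat_lit 11) nil nil)))) (node (nat_lit
  5) (nat_lit 0) (nat_lit 10) (node (nat_lit 0) (nat_lit 21640) (nat_lit 11) (node (nat_lit 4)
  (nat_lit 21640) (nat_lit 12) nil (node (nat_lit 5) (nat_lit 21640) (nat_lit 12) (node (nat_lit
  4) (nat_lit 21640) (nat_lit 13) nil nil) nil)) (node (nat_lit 2) (nat_lit 20213) (nat_lit 11)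
  (node (nat_lit 4) (nat_lit 20213) (nat_lit 12) (node (nat_lit 5) (nat_lit 20213) (nat_lit 13)
  nil nil) (node (nat_lit 5) (nat_lit 20213) (nat_lit 12) (node (nat_lit 4) (nat_lit 19707)
  (nat_lit 13) nil nil) nil)) nil)) nil))) (node (nat_lit 6) (nat_lit 0) (nat_lit 9) (node
  (nat_lit 0) (nat_lit 21144) (nat_lit 10) (node (nat_lit 6) (nat_lit 21569) (nat_lit 11) (node
  (nat_lit 5) (nat_lit 21569) (nat_lit 12) (node (nat_lit 4) (nat_lit 21569) (nat_lit 13) (node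
  (nat_lit 5) (nat_lit 21569) (nat_lit 14) nil nil) nil) (node (nat_lit 4) (nat_lit 21569)
  (nat_lit 12) nil nil)) (node (nat_lit 5) (nat_lit 21144) (nat_lit 11) (node (nat_lit 13)
  (nat_lit 21545) (nat_lit 12) (node (nat_lit 6) (nat_lit 21683) (nat_lit 13) (node (nat_lit 13)
  (nat_lit 21789) (nat_lit 14) (node (nat_lit 5) (nat_lit 21789) (nat_lit 15) nil nil) nil) nil)
  (node (nat_lit 4) (nat_lit 21144) (nat_lit 12) nil nil)) nil)) (node (nat_lit 2) (nat_lit 20667)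
  (nat_lit 10) (node (nat_lit 6) (nat_lit 21646) (nat_lit 11) (node (nat_lit 5) (nat_lit 21646)
  (nat_lit 12) (node (nat_lit 13) (nat_lit 21646) (nat_lit 13) nil (node (nat_lit 4) (nat_lit
  21646) (nat_lit 13) (node (nat_lit 5) (nat_lit 21646) (nat_lit 14) nil nil) nil)) (node (nat_lit
  4) (nat_lit 21646) (nat_lit 12) nil nil)) (node (nat_lit 5) (nat_lit 20652) (nat_lit 11) (node
  (nat_lit 13) (nat_lit 20781) (nat_lit 12) (node (nat_lit 6) (nat_lit 21610) (nat_lit 13) (node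
  (nat_lit 13) (nat_lit 21610) (nat_lit 14) (node (nat_lit 5) (nat_lit 21610) (nat_lit 15) nil
  nil) nil) nil) (node (nat_lit 4) (nat_lit 20652) (nat_lit 12) nil nil)) (node (nat_lit 4)
  (nat_lit 20526) (nat_lit 11) nil nil))) (node (nat_lit 4) (nat_lit 0) (nat_lit 10) (node
  (nat_lit 0) (nat_lit 21605) (nat_lit 11) (node (nat_lit 6) (nat_lit 21782) (nat_lit 12) nil
  (node (nat_lit 5) (nat_lit 21605) (nat_lit 12) nil nil)) (node (nat_lit 2) (nat_lit 20916)
  (nat_lit 11) (node (nat_lit 6) (nat_lit 21848) (nat_lit 12) nil (node (nat_lit 5) (nat_lit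
  21045) (nat_lit 12) nil (node (nat_lit 4) (nat_lit 21045) (nat_lit 12) nil nil))) nil)) nil)))
  (node (nat_lit 0) (nat_lit 0) (nat_lit 9) (node (nat_lit 4) (nat_lit 20532) (nat_lit 10) (node
  (nat_lit 12) (nat_lit 21292) (nat_lit 11) (node (nat_lit 5) (nat_lit 21292) (nat_lit 12) (node
  (nat_lit 4) (nat_lit 21292) (nat_lit 13) nil nil) nil) nil) (node (nat_lit 6) (nat_lit 21053)
  (nat_lit 10) (node (nat_lit 12) (nat_lit 21278) (nat_lit 11) (node (nat_lit 5) (nat_lit 21278)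
  (nat_lit 12) nil nil) (node (nat_lit 5) (nat_lit 21053) (nat_lit 11) (node (nat_lit 4) (nat_lit
  21053) (nat_lit 12) (node (nat_lit 5) (nat_lit 21053) (nat_lit 13) nil nil) nil) nil)) (node
  (nat_lit 5) (nat_lit 20432) (nat_lit 10) (node (nat_lit 4) (nat_lit 20432) (nat_lit 11) (node
  (nat_lit 5) (nat_lit 20432) (nat_lit 12) (node (nat_lit 6) (nat_lit 21262) (nat_lit 13) nil nil)
  nil) (node (nat_lit 6) (nat_lit 21192) (nat_lit 11) (node (nat_lit 5) (nat_lit 21192) (nat_lit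
  12) nil nil) nil)) (node (nat_lit 0) (nat_lit 20958) (nat_lit 10) (node (nat_lit 5) (nat_lit
  20958) (nat_lit 11) nil nil) (node (nat_lit 2) (nat_lit 20437) (nat_lit 10) (node (nat_lit 5)
  (nat_lit 20437) (nat_lit 11) nil (node (nat_lit 4) (nat_lit 20437) (nat_lit 11) nil (node
  (nat_lit 6) (nat_lit 20952) (nat_lit 11) nil nil))) nil))))) (node (nat_lit 2) (nat_lit 0)
  (nat_lit 9) (node (nat_lit 4) (nat_lit 19557) (nat_lit 10) (node (nat_lit 6) (nat_lit 20985)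
  (nat_lit 11) (node (nat_lit 5) (nat_lit 20985) (nat_lit 12) (node (nat_lit 4) (nat_lit 20985)
  (nat_lit 13) nil nil) nil) (node (nat_lit 12) (nat_lit 20213) (nat_lit 11) (node (nat_lit 5)
  (nat_lit 19561) (nat_lit 12) (node (nat_lit 4) (nat_lit 19358) (nat_lit 13) nil nil) (node
  (nat_lit 6) (nat_lit 21286) (nat_lit 12) nil nil)) (node (nat_lit 5) (nat_lit 19569) (nat_lit
  11) (node (nat_lit 4) (nat_lit 19966) (nat_lit 12) nil nil) nil))) (node (nat_lit 6) (nat_lit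
  21144) (nat_lit 10) (node (nat_lit 12) (nat_lit 21144) (nat_lit 11) (node (nat_lit 5) (nat_lit
  21144) (nat_lit 12) nil (node (nat_lit 4) (nat_lit 21144) (nat_lit 12) nil nil)) (node (nat_lit
  5) (nat_lit 21144) (nat_lit 11) (node (nat_lit 4) (nat_lit 21144) (nat_lit 12) (node (nat_lit 5)
  (nat_lit 21144) (nat_lit 13) nil nil) nil) nil)) (node (nat_lit 5) (nat_lit 19618) (nat_lit 10)
  (node (nat_lit 4) (nat_lit 19794) (nat_lit 11) (node (nat_lit 5) (nat_lit 18609) (nat_lit 12)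
  (node (nat_lit 6) (nat_lit 17307) (nat_lit 13) nil nil) nil) (node (nat_lit 6) (nat_lit 20777)
  (nat_lit 11) (node (nat_lit 5) (nat_lit 21163) (nat_lit 12) nil nil) nil)) (node (nat_lit 0)
  (nat_lit 21006) (nat_lit 10) (node (nat_lit 5) (nat_lit 21006) (nat_lit 11) nil nil) nil))))
  nil)))) (node (nat_lit 4) (nat_lit 0) (nat_lit 8) (node (nat_lit 5) (nat_lit 0) (nat_lit 9)
  (node (nat_lit 0) (nat_lit 21144) (nat_lit 10) (node (nat_lit 5) (nat_lit 21144) (nat_lit 11)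
  (node (nat_lit 4) (nat_lit 21144) (nat_lit 12) (node (nat_lit 5) (nat_lit 21144) (nat_lit 13)
  (node (nat_lit 6) (nat_lit 21789) (nat_lit 14) nil nil) nil) nil) (node (nat_lit 6) (nat_lit
  21369) (nat_lit 11) (node (nat_lit 5) (nat_lit 21369) (nat_lit 12) nil nil) nil)) (node (nat_lit
  2) (nat_lit 0) (nat_lit 10) (node (nat_lit 5) (nat_lit 0) (nat_lit 11) (node (nat_lit 4)
  (nat_lit 20213) (nat_lit 12) (node (nat_lit 5) (nat_lit 20213) (nat_lit 13) (node (nat_lit 6)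
  (nat_lit 19480) (nat_lit 14) nil nil) nil) (node (nat_lit 6) (nat_lit 21286) (nat_lit 12) (node
  (nat_lit 5) (nat_lit 21286) (nat_lit 13) nil nil) (node (nat_lit 0) (nat_lit 21286) (nat_lit 12)
  nil nil))) (node (nat_lit 4) (nat_lit 20213) (nat_lit 11) (node (nat_lit 6) (nat_lit 21286)
  (nat_lit 12) (node (nat_lit 5) (nat_lit 21286) (nat_lit 13) nil nil) (node (nat_lit 5) (nat_lit
  20213) (nat_lit 12) nil nil)) (node (nat_lit 6) (nat_lit 21461) (nat_lit 11) (node (nat_lit 5)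
  (nat_lit 21461) (nat_lit 12) nil nil) (node (nat_lit 0) (nat_lit 21070) (nat_lit 11) (node
  (nat_lit 5) (nat_lit 21070) (nat_lit 12) nil nil) nil)))) (node (nat_lit 6) (nat_lit 0) (nat_lit
  10) (node (nat_lit 0) (nat_lit 21573) (nat_lit 11) (node (nat_lit 5) (nat_lit 21573) (nat_lit
  12) (node (nat_lit 6) (nat_lit 21888) (nat_lit 13) (node (nat_lit 5) (nat_lit 21888) (nat_lit
  14) nil nil) nil) (node (nat_lit 6) (nat_lit 21750) (nat_lit 12) nil nil)) (node (nat_lit 2)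
  (nat_lit 21281) (nat_lit 11) (node (nat_lit 5) (nat_lit 21281) (nat_lit 12) (node (nat_lit 6)
  (nat_lit 21820) (nat_lit 13) (node (nat_lit 5) (nat_lit 21820) (nat_lit 14) nil nil) nil) (node
  (nat_lit 6) (nat_lit 21848) (nat_lit 12) nil (node (nat_lit 4) (nat_lit 21281) (nat_lit 12) nil
  nil))) nil)) nil))) (node (nat_lit 0) (nat_lit 0) (nat_lit 9) (node (nat_lit 5) (nat_lit 20432)
  (nat_lit 10) (node (nat_lit 4) (nat_lit 20432) (nat_lit 11) (node (nat_lit 5) (nat_lit 20432)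
  (nat_lit 12) (node (nat_lit 6) (nat_lit 21262) (nat_lit 13) (node (nat_lit 4) (nat_lit 21262)
  (nat_lit 14) nil nil) nil) nil) (node (nat_lit 12) (nat_lit 20947) (nat_lit 11) nil (node
  (nat_lit 6) (nat_lit 20947) (nat_lit 11) (node (nat_lit 5) (nat_lit 20947) (nat_lit 12) nil nil)
  nil))) (node (nat_lit 6) (nat_lit 21053) (nat_lit 10) (node (nat_lit 12) (nat_lit 21278)
  (nat_lit 11) (node (nat_lit 5) (nat_lit 21278) (nat_lit 12) nil nil) (node (nat_lit 5) (nat_lit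
  21053) (nat_lit 11) (node (nat_lit 4) (nat_lit 21053) (nat_lit 12) nil nil) nil)) (node (nat_lit
  4) (nat_lit 20532) (nat_lit 10) nil (node (nat_lit 2) (nat_lit 20437) (nat_lit 10) (node
  (nat_lit 5) (nat_lit 20437) (nat_lit 11) nil (node (nat_lit 4) (nat_lit 20437) (nat_lit 11) nil
  (node (nat_lit 6) (nat_lit 20952) (nat_lit 11) nil nil))) (node (nat_lit 0) (nat_lit 20856)
  (nat_lit 10) (node (nat_lit 5) (nat_lit 20856) (nat_lit 11) nil nil) nil))))) (node (nat_lit 2)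
  (nat_lit 0) (nat_lit 9) (node (nat_lit 5) (nat_lit 19465) (nat_lit 10) (node (nat_lit 4)
  (nat_lit 20126) (nat_lit 11) (node (nat_lit 5) (nat_lit 20051) (nat_lit 12) (node (nat_lit 6)
  (nat_lit 18749) (nat_lit 13) (node (nat_lit 4) (nat_lit 14829) (nat_lit 14) nil nil) nil) nil)
  (node (nat_lit 12) (nat_lit 20126) (nat_lit 11) nil (node (nat_lit 6) (nat_lit 20892) (nat_lit
  11) (node (nat_lit 5) (nat_lit 20892) (nat_lit 12) nil nil) nil))) (node (nat_lit 6) (nat_lit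
  21049) (nat_lit 10) (node (nat_lit 12) (nat_lit 21049) (nat_lit 11) (node (nat_lit 5) (nat_lit
  21049) (nat_lit 12) nil nil) (node (nat_lit 5) (nat_lit 21049) (nat_lit 11) (node (nat_lit 4)
  (nat_lit 21049) (nat_lit 12) nil nil) nil)) (node (nat_lit 4) (nat_lit 19618) (nat_lit 10) (node
  (nat_lit 6) (nat_lit 21045) (nat_lit 11) nil (node (nat_lit 5) (nat_lit 19700) (nat_lit 11) nil
  nil)) (node (nat_lit 0) (nat_lit 21049) (nat_lit 10) (node (nat_lit 5) (nat_lit 21049) (nat_lit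
  11) nil nil) nil)))) nil))) (node (nat_lit 0) (nat_lit 0) (nat_lit 8) (node (nat_lit 5) (nat_lit
  20416) (nat_lit 9) (node (nat_lit 4) (nat_lit 20133) (nat_lit 10) (node (nat_lit 5) (nat_lit
  20133) (nat_lit 11) (node (nat_lit 6) (nat_lit 20749) (nat_lit 12) (node (nat_lit 4) (nat_lit
  20749) (nat_lit 13) nil nil) nil) nil) (node (nat_lit 6) (nat_lit 21091) (nat_lit 10) (node
  (nat_lit 5) (nat_lit 21091) (nat_lit 11) nil nil) (node (nat_lit 11) (nat_lit 21091) (nat_lit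
  10) nil nil))) (node (nat_lit 4) (nat_lit 20419) (nat_lit 9) (node (nat_lit 6) (nat_lit 21094)
  (nat_lit 10) (node (nat_lit 5) (nat_lit 21094) (nat_lit 11) (node (nat_lit 4) (nat_lit 21094)
  (nat_lit 12) nil nil) nil) (node (nat_lit 5) (nat_lit 20419) (nat_lit 10) nil (node (nat_lit 11)
  (nat_lit 21094) (nat_lit 10) nil nil))) (node (nat_lit 6) (nat_lit 20992) (nat_lit 9) (node
  (nat_lit 5) (nat_lit 20992) (nat_lit 10) (node (nat_lit 4) (nat_lit 20992) (nat_lit 11) (node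
  (nat_lit 5) (nat_lit 20992) (nat_lit 12) (node (nat_lit 6) (nat_lit 21419) (nat_lit 13) (node
  (nat_lit 4) (nat_lit 21419) (nat_lit 14) nil nil) nil) nil) nil) nil) (node (nat_lit 2) (nat_lit
  20089) (nat_lit 9) nil (node (nat_lit 0) (nat_lit 20894) (nat_lit 9) nil nil))))) (node (nat_lit
  2) (nat_lit 0) (nat_lit 8) (node (nat_lit 5) (nat_lit 19959) (nat_lit 9) (node (nat_lit 4)
  (nat_lit 19868) (nat_lit 10) (node (nat_lit 6) (nat_lit 20803) (nat_lit 11) (node (nat_lit 5)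
  (nat_lit 20803) (nat_lit 12) nil nil) (node (nat_lit 5) (nat_lit 19219) (nat_lit 11) (node
  (nat_lit 6) (nat_lit 16485) (nat_lit 12) nil nil) nil)) (node (nat_lit 6) (nat_lit 21248)
  (nat_lit 10) (node (nat_lit 5) (nat_lit 21248) (nat_lit 11) nil nil) (node (nat_lit 11) (nat_lit
  19939) (nat_lit 10) nil nil))) (node (nat_lit 4) (nat_lit 19959) (nat_lit 9) (node (nat_lit 6)
  (nat_lit 21342) (nat_lit 10) (node (nat_lit 5) (nat_lit 21342) (nat_lit 11) (node (nat_lit 4)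
  (nat_lit 21342) (nat_lit 12) nil nil) nil) (node (nat_lit 5) (nat_lit 19543) (nat_lit 10) nil
  (node (nat_lit 11) (nat_lit 20307) (nat_lit 10) nil nil))) (node (nat_lit 6) (nat_lit 21113)
  (nat_lit 9) (node (nat_lit 5) (nat_lit 21113) (nat_lit 10) (node (nat_lit 4) (nat_lit 21113)
  (nat_lit 11) (node (nat_lit 5) (nat_lit 21113) (nat_lit 12) (node (nat_lit 6) (nat_lit 21539)
  (nat_lit 13) (node (nat_lit 4) (nat_lit 21539) (nat_lit 14) nil nil) nil) nil) nil) nil) (node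
  (nat_lit 0) (nat_lit 21014) (nat_lit 9) nil nil)))) nil)))) nil) nil) nil))

noncomputable def t328 : Tr :=
  (node (nat_lit 1) (nat_lit 0) (nat_lit 2) (node (nat_lit 3) (nat_lit 0) (nat_lit 3) (node
  (nat_lit 4) (nat_lit 0) (nat_lit 4) (node (nat_lit 6) (nat_lit 0) (nat_lit 5) (node (nat_lit 5)
  (nat_lit 0) (nat_lit 6) (node (nat_lit 4) (nat_lit 0) (nat_lit 7) (node (nat_lit 5) (nat_lit 0)
  (nat_lit 8) (node (nat_lit 6) (nat_lit 0) (nat_lit 9) (node (nat_lit 0) (nat_lit 99373) (nat_lit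
  10) (node (nat_lit 6) (nat_lit 100028) (nat_lit 11) (node (nat_lit 4) (nat_lit 100028) (nat_lit
  12) (node (nat_lit 5) (nat_lit 100876) (nat_lit 13) nil nil) nil) (node (nat_lit 5) (nat_lit
  100383) (nat_lit 11) (node (nat_lit 4) (nat_lit 100383) (nat_lit 12) nil nil) nil)) (node
  (nat_lit 2) (nat_lit 0) (nat_lit 10) (node (nat_lit 6) (nat_lit 0) (nat_lit 11) (node (nat_lit
  5) (nat_lit 98142) (nat_lit 12) (node (nat_lit 4) (nat_lit 97787) (nat_lit 13) (node (nat_lit 5)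
  (nat_lit 98331) (nat_lit 14) nil nil) nil) (node (nat_lit 4) (nat_lit 98338) (nat_lit 12) (node
  (nat_lit 5) (nat_lit 97617) (nat_lit 13) (node (nat_lit 6) (nat_lit 95607) (nat_lit 14) nil nil)
  nil) (node (nat_lit 0) (nat_lit 99954) (nat_lit 12) nil nil))) (node (nat_lit 5) (nat_lit 99732)
  (nat_lit 11) (node (nat_lit 4) (nat_lit 99266) (nat_lit 12) nil nil) (node (nat_lit 4) (nat_lit
  97715) (nat_lit 11) (node (nat_lit 6) (nat_lit 98338) (nat_lit 12) nil nil) (node (nat_lit 0)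
  (nat_lit 99470) (nat_lit 11) nil nil)))) (node (nat_lit 4) (nat_lit 0) (nat_lit 10) (node
  (nat_lit 0) (nat_lit 59350) (nat_lit 11) (node (nat_lit 6) (nat_lit 59350) (nat_lit 12) (node
  (nat_lit 4) (nat_lit 59350) (nat_lit 13) (node (nat_lit 5) (nat_lit 59350) (nat_lit 14) (node
  (nat_lit 6) (nat_lit 59350) (nat_lit 15) nil nil) nil) nil) (node (nat_lit 4) (nat_lit 59350)
  (nat_lit 12) nil (node (nat_lit 5) (nat_lit 59350) (nat_lit 12) nil nil))) (node (nat_lit 2)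
  (nat_lit 59350) (nat_lit 11) (node (nat_lit 6) (nat_lit 59350) (nat_lit 12) (node (nat_lit 4)
  (nat_lit 59350) (nat_lit 13) (node (nat_lit 6) (nat_lit 59350) (nat_lit 14) nil (node (nat_lit
  5) (nat_lit 59350) (nat_lit 14) (node (nat_lit 6) (nat_lit 59350) (nat_lit 15) nil nil) nil))
  nil) (node (nat_lit 4) (nat_lit 59350) (nat_lit 12) nil (node (nat_lit 5) (nat_lit 59350)
  (nat_lit 12) nil nil))) nil)) (node (nat_lit 5) (nat_lit 0) (nat_lit 10) (node (nat_lit 0)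
  (nat_lit 100383) (nat_lit 11) (node (nat_lit 6) (nat_lit 100383) (nat_lit 12) (node (nat_lit 5)
  (nat_lit 100876) (nat_lit 13) nil nil) (node (nat_lit 5) (nat_lit 100660) (nat_lit 12) nil nil))
  (node (nat_lit 2) (nat_lit 98562) (nat_lit 11) (node (nat_lit 6) (nat_lit 100028) (nat_lit 12)
  (node (nat_lit 5) (nat_lit 99723) (nat_lit 13) (node (nat_lit 4) (nat_lit 99415) (nat_lit 14)
  nil nil) nil) (node (nat_lit 5) (nat_lit 100522) (nat_lit 12) nil nil)) nil)) nil)))) (node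
  (nat_lit 0) (nat_lit 105736) (nat_lit 9) (node (nat_lit 6) (nat_lit 105139) (nat_lit 10) nil
  nil) (node (nat_lit 2) (nat_lit 105736) (nat_lit 9) (node (nat_lit 6) (nat_lit 105819) (nat_lit
  10) (node (nat_lit 5) (nat_lit 105408) (nat_lit 11) nil nil) (node (nat_lit 5) (nat_lit 107248)
  (nat_lit 10) (node (nat_lit 4) (nat_lit 107751) (nat_lit 11) nil nil) (node (nat_lit 0) (nat_lit
  107248) (nat_lit 10) nil nil))) nil))) (node (nat_lit 6) (nat_lit 0) (nat_lit 8) (node (nat_lit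
  4) (nat_lit 110310) (nat_lit 9) (node (nat_lit 5) (nat_lit 111669) (nat_lit 10) nil nil) (node
  (nat_lit 0) (nat_lit 110186) (nat_lit 9) nil (node (nat_lit 2) (nat_lit 0) (nat_lit 9) (node
  (nat_lit 4) (nat_lit 108864) (nat_lit 10) nil (node (nat_lit 5) (nat_lit 107789) (nat_lit 10)
  (node (nat_lit 4) (nat_lit 106501) (nat_lit 11) (node (nat_lit 5) (nat_lit 107069) (nat_lit 12)
  (node (nat_lit 6) (nat_lit 103811) (nat_lit 13) (node (nat_lit 4) (nat_lit 100817) (nat_lit 14)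
  (node (nat_lit 6) (nat_lit 94571) (nat_lit 15) (node (nat_lit 5) (nat_lit 84729) (nat_lit 16)
  nil nil) nil) nil) nil) nil) nil) (node (nat_lit 6) (nat_lit 105680) (nat_lit 10) nil (node
  (nat_lit 0) (nat_lit 111358) (nat_lit 10) nil nil)))) nil))) (node (nat_lit 0) (nat_lit 112130)
  (nat_lit 8) nil (node (nat_lit 2) (nat_lit 109922) (nat_lit 8) (node (nat_lit 6) (nat_lit
  110211) (nat_lit 9) nil nil) nil)))) (node (nat_lit 6) (nat_lit 96563) (nat_lit 7) nil nil))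
  nil) (node (nat_lit 5) (nat_lit 0) (nat_lit 5) (node (nat_lit 4) (nat_lit 0) (nat_lit 6) (node
  (nat_lit 6) (nat_lit 0) (nat_lit 7) (node (nat_lit 5) (nat_lit 50246) (nat_lit 8) (node (nat_lit
  4) (nat_lit 52948) (nat_lit 9) (node (nat_lit 5) (nat_lit 54004) (nat_lit 10) nil nil) nil)
  (node (nat_lit 4) (nat_lit 0) (nat_lit 8) (node (nat_lit 5) (nat_lit 53896) (nat_lit 9) nil
  (node (nat_lit 0) (nat_lit 53896) (nat_lit 9) nil (node (nat_lit 2) (nat_lit 51312) (nat_lit 9)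
  nil nil))) (node (nat_lit 0) (nat_lit 54922) (nat_lit 8) nil (node (nat_lit 2) (nat_lit 53511)
  (nat_lit 8) (node (nat_lit 5) (nat_lit 53617) (nat_lit 9) nil (node (nat_lit 4) (nat_lit 54141)
  (nat_lit 9) nil nil)) nil)))) nil) nil) nil)) (node (nat_lit 5) (nat_lit 0) (nat_lit 4) (node
  (nat_lit 4) (nat_lit 0) (nat_lit 5) t325 nil) nil)) (node (nat_lit 4) (nat_lit 0) (nat_lit 3)
  (node (nat_lit 3) (nat_lit 0) (nat_lit 4) t326 nil) nil)) (node (nat_lit 3) (nat_lit 0) (nat_lit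
  2) (node (nat_lit 1) (nat_lit 0) (nat_lit 3) (node (nat_lit 4) (nat_lit 0) (nat_lit 4) t327
  (node (nat_lit 5) (nat_lit 0) (nat_lit 4) (node (nat_lit 4) (nat_lit 0) (nat_lit 5) (node
  (nat_lit 6) (nat_lit 0) (nat_lit 6) (node (nat_lit 4) (nat_lit 0) (nat_lit 7) (node (nat_lit 5)
  (nat_lit 0) (nat_lit 8) (node (nat_lit 6) (nat_lit 0) (nat_lit 9) (node (nat_lit 0) (nat_lit
  89459) (nat_lit 10) (node (nat_lit 6) (nat_lit 90560) (nat_lit 11) nil (node (nat_lit 5)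
  (nat_lit 89459) (nat_lit 11) nil nil)) (node (nat_lit 2) (nat_lit 86864) (nat_lit 10) (node
  (nat_lit 6) (nat_lit 89374) (nat_lit 11) nil (node (nat_lit 5) (nat_lit 87906) (nat_lit 11) nil
  nil)) (node (nat_lit 5) (nat_lit 0) (nat_lit 10) (node (nat_lit 0) (nat_lit 77705) (nat_lit 11)
  (node (nat_lit 6) (nat_lit 79152) (nat_lit 12) nil nil) (node (nat_lit 2) (nat_lit 76014)
  (nat_lit 11) (node (nat_lit 6) (nat_lit 77461) (nat_lit 12) (node (nat_lit 5) (nat_lit 77404)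
  (nat_lit 13) nil nil) (node (nat_lit 5) (nat_lit 76692) (nat_lit 12) nil nil)) nil)) (node
  (nat_lit 4) (nat_lit 88049) (nat_lit 10) nil nil)))) (node (nat_lit 4) (nat_lit 0) (nat_lit 9)
  (node (nat_lit 0) (nat_lit 101794) (nat_lit 10) (node (nat_lit 5) (nat_lit 101650) (nat_lit 11)
  nil nil) (node (nat_lit 2) (nat_lit 101794) (nat_lit 10) (node (nat_lit 5) (nat_lit 101629)
  (nat_lit 11) nil nil) (node (nat_lit 6) (nat_lit 0) (nat_lit 10) (node (nat_lit 0) (nat_lit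
  103535) (nat_lit 11) nil (node (nat_lit 2) (nat_lit 102597) (nat_lit 11) (node (nat_lit 6)
  (nat_lit 104044) (nat_lit 12) nil (node (nat_lit 5) (nat_lit 101584) (nat_lit 12) nil nil))
  nil)) nil))) (node (nat_lit 0) (nat_lit 99122) (nat_lit 9) (node (nat_lit 6) (nat_lit 101500)
  (nat_lit 10) nil (node (nat_lit 5) (nat_lit 101500) (nat_lit 10) nil nil)) (node (nat_lit 2)
  (nat_lit 99122) (nat_lit 9) (node (nat_lit 6) (nat_lit 99763) (nat_lit 10) (node (nat_lit 5)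
  (nat_lit 99619) (nat_lit 11) nil (node (nat_lit 4) (nat_lit 102266) (nat_lit 11) nil nil)) (node
  (nat_lit 5) (nat_lit 101341) (nat_lit 10) (node (nat_lit 4) (nat_lit 100734) (nat_lit 11) (node
  (nat_lit 5) (nat_lit 99287) (nat_lit 12) (node (nat_lit 6) (nat_lit 91808) (nat_lit 13) nil nil)
  nil) (node (nat_lit 6) (nat_lit 103497) (nat_lit 11) nil nil)) nil)) nil)))) (node (nat_lit 0)
  (nat_lit 102532) (nat_lit 8) (node (nat_lit 6) (nat_lit 104054) (nat_lit 9) nil (node (nat_lit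
  5) (nat_lit 104054) (nat_lit 9) nil nil)) (node (nat_lit 2) (nat_lit 102532) (nat_lit 8) (node
  (nat_lit 6) (nat_lit 103065) (nat_lit 9) nil (node (nat_lit 5) (nat_lit 98220) (nat_lit 9) (node
  (nat_lit 4) (nat_lit 96307) (nat_lit 10) (node (nat_lit 5) (nat_lit 93825) (nat_lit 11) (node
  (nat_lit 6) (nat_lit 91120) (nat_lit 12) nil nil) nil) nil) nil)) nil))) (node (nat_lit 5)
  (nat_lit 0) (nat_lit 7) (node (nat_lit 6) (nat_lit 0) (nat_lit 8) (node (nat_lit 4) (nat_lit 0)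
  (nat_lit 9) (node (nat_lit 6) (nat_lit 101270) (nat_lit 10) nil (node (nat_lit 0) (nat_lit
  102057) (nat_lit 10) nil (node (nat_lit 2) (nat_lit 102350) (nat_lit 10) (node (nat_lit 6)
  (nat_lit 104206) (nat_lit 11) nil nil) (node (nat_lit 5) (nat_lit 0) (nat_lit 10) (node (nat_lit
  2) (nat_lit 102514) (nat_lit 11) nil (node (nat_lit 0) (nat_lit 104206) (nat_lit 11) nil nil))
  nil)))) (node (nat_lit 0) (nat_lit 99678) (nat_lit 9) (node (nat_lit 5) (nat_lit 99563) (nat_lit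
  10) (node (nat_lit 12) (nat_lit 101418) (nat_lit 11) (node (nat_lit 6) (nat_lit 102865) (nat_lit
  12) nil nil) nil) (node (nat_lit 6) (nat_lit 102057) (nat_lit 10) nil (node (nat_lit 0) (nat_lit
  102057) (nat_lit 10) nil (node (nat_lit 2) (nat_lit 97454) (nat_lit 10) nil nil)))) (node
  (nat_lit 2) (nat_lit 99678) (nat_lit 9) (node (nat_lit 5) (nat_lit 102098) (nat_lit 10) (node
  (nat_lit 6) (nat_lit 101579) (nat_lit 11) nil (node (nat_lit 4) (nat_lit 100971) (nat_lit 11)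
  (node (nat_lit 5) (nat_lit 96258) (nat_lit 12) (node (nat_lit 6) (nat_lit 94573) (nat_lit 13)
  nil nil) nil) nil)) (node (nat_lit 6) (nat_lit 101103) (nat_lit 10) (node (nat_lit 5) (nat_lit
  100959) (nat_lit 11) nil nil) (node (nat_lit 0) (nat_lit 102057) (nat_lit 10) nil nil))) nil)))
  (node (nat_lit 0) (nat_lit 103088) (nat_lit 8) (node (nat_lit 6) (nat_lit 104610) (nat_lit 9)
  nil (node (nat_lit 5) (nat_lit 104610) (nat_lit 9) nil nil)) (node (nat_lit 2) (nat_lit 103088)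
  (nat_lit 8) (node (nat_lit 6) (nat_lit 103621) (nat_lit 9) (node (nat_lit 4) (nat_lit 104642)
  (nat_lit 10) (node (nat_lit 5) (nat_lit 105216) (nat_lit 11) (node (nat_lit 6) (nat_lit 93507)
  (nat_lit 12) nil nil) nil) nil) (node (nat_lit 5) (nat_lit 102742) (nat_lit 9) (node (nat_lit 4)
  (nat_lit 101488) (nat_lit 10) (node (nat_lit 6) (nat_lit 101902) (nat_lit 11) nil (node (nat_lit
  5) (nat_lit 92926) (nat_lit 11) (node (nat_lit 6) (nat_lit 89424) (nat_lit 12) nil nil) nil))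
  nil) nil)) nil))) nil)) (node (nat_lit 5) (nat_lit 0) (nat_lit 6) (node (nat_lit 6) (nat_lit
  52879) (nat_lit 7) nil nil) nil)) nil) nil)) (node (nat_lit 4) (nat_lit 0) (nat_lit 3) (node
  (nat_lit 1) (nat_lit 0) (nat_lit 4) (node (nat_lit 5) (nat_lit 0) (nat_lit 5) (node (nat_lit 7)
  (nat_lit 0) (nat_lit 6) (node (nat_lit 4) (nat_lit 53995) (nat_lit 7) (node (nat_lit 5) (nat_lit
  54807) (nat_lit 8) (node (nat_lit 7) (nat_lit 58466) (nat_lit 9) nil (node (nat_lit 4) (nat_lit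
  52992) (nat_lit 9) nil nil)) nil) nil) (node (nat_lit 4) (nat_lit 0) (nat_lit 6) (node (nat_lit
  5) (nat_lit 53052) (nat_lit 7) (node (nat_lit 7) (nat_lit 58101) (nat_lit 8) (node (nat_lit 4)
  (nat_lit 59374) (nat_lit 9) (node (nat_lit 5) (nat_lit 58047) (nat_lit 10) nil nil) nil) nil)
  nil) nil)) (node (nat_lit 4) (nat_lit 0) (nat_lit 5) (node (nat_lit 5) (nat_lit 0) (nat_lit 6)
  (node (nat_lit 7) (nat_lit 0) (nat_lit 7) (node (nat_lit 5) (nat_lit 0) (nat_lit 8) (node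
  (nat_lit 4) (nat_lit 0) (nat_lit 9) (node (nat_lit 0) (nat_lit 0) (nat_lit 10) (node (nat_lit 4)
  (nat_lit 54635) (nat_lit 11) (node (nat_lit 7) (nat_lit 55470) (nat_lit 12) nil nil) (node
  (nat_lit 5) (nat_lit 54603) (nat_lit 11) (node (nat_lit 7) (nat_lit 53330) (nat_lit 12) nil nil)
  (node (nat_lit 7) (nat_lit 54603) (nat_lit 11) (node (nat_lit 4) (nat_lit 55438) (nat_lit 12)
  nil nil) (node (nat_lit 2) (nat_lit 52631) (nat_lit 11) nil (node (nat_lit 0) (nat_lit 54603)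
  (nat_lit 11) nil nil))))) (node (nat_lit 2) (nat_lit 0) (nat_lit 10) (node (nat_lit 4) (nat_lit
  54635) (nat_lit 11) (node (nat_lit 7) (nat_lit 55470) (nat_lit 12) nil nil) (node (nat_lit 5)
  (nat_lit 54532) (nat_lit 11) (node (nat_lit 7) (nat_lit 55367) (nat_lit 12) nil nil) (node
  (nat_lit 7) (nat_lit 54532) (nat_lit 11) (node (nat_lit 4) (nat_lit 55470) (nat_lit 12) nil nil)
  (node (nat_lit 0) (nat_lit 54532) (nat_lit 11) nil nil)))) (node (nat_lit 7) (nat_lit 0)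
  (nat_lit 10) (node (nat_lit 0) (nat_lit 54635) (nat_lit 11) (node (nat_lit 4) (nat_lit 53940)
  (nat_lit 12) nil nil) (node (nat_lit 2) (nat_lit 54532) (nat_lit 11) (node (nat_lit 4) (nat_lit
  53837) (nat_lit 12) (node (nat_lit 7) (nat_lit 54328) (nat_lit 13) nil nil) (node (nat_lit 7)
  (nat_lit 53259) (nat_lit 12) nil nil)) nil)) (node (nat_lit 5) (nat_lit 0) (nat_lit 10) (node
  (nat_lit 0) (nat_lit 54635) (nat_lit 11) (node (nat_lit 4) (nat_lit 55470) (nat_lit 12) nil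
  (node (nat_lit 5) (nat_lit 55470) (nat_lit 12) nil nil)) (node (nat_lit 2) (nat_lit 54532)
  (nat_lit 11) (node (nat_lit 4) (nat_lit 55470) (nat_lit 12) nil (node (nat_lit 5) (nat_lit
  55367) (nat_lit 12) nil nil)) nil)) nil)))) (node (nat_lit 0) (nat_lit 0) (nat_lit 9) (node
  (nat_lit 7) (nat_lit 53388) (nat_lit 10) (node (nat_lit 4) (nat_lit 54458) (nat_lit 11) nil nil)
  (node (nat_lit 4) (nat_lit 53459) (nat_lit 10) nil (node (nat_lit 5) (nat_lit 53388) (nat_lit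
  10) (node (nat_lit 7) (nat_lit 52022) (nat_lit 11) nil nil) (node (nat_lit 0) (nat_lit 53388)
  (nat_lit 10) nil (node (nat_lit 2) (nat_lit 50928) (nat_lit 10) nil nil))))) (node (nat_lit 2)
  (nat_lit 0) (nat_lit 9) (node (nat_lit 7) (nat_lit 50254) (nat_lit 10) (node (nat_lit 12)
  (nat_lit 51325) (nat_lit 11) nil (node (nat_lit 4) (nat_lit 54004) (nat_lit 11) nil nil)) (node
  (nat_lit 4) (nat_lit 52878) (nat_lit 10) (node (nat_lit 7) (nat_lit 53949) (nat_lit 11) nil nil)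
  (node (nat_lit 5) (nat_lit 50254) (nat_lit 10) (node (nat_lit 7) (nat_lit 51325) (nat_lit 11)
  nil nil) (node (nat_lit 0) (nat_lit 52878) (nat_lit 10) (node (nat_lit 5) (nat_lit 51976)
  (nat_lit 11) nil nil) nil)))) nil))) (node (nat_lit 4) (nat_lit 0) (nat_lit 8) (node (nat_lit 7)
  (nat_lit 0) (nat_lit 9) (node (nat_lit 0) (nat_lit 53469) (nat_lit 10) (node (nat_lit 7)
  (nat_lit 54540) (nat_lit 11) nil (node (nat_lit 4) (nat_lit 54596) (nat_lit 11) nil nil)) (node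
  (nat_lit 2) (nat_lit 53305) (nat_lit 10) (node (nat_lit 7) (nat_lit 54376) (nat_lit 11) nil
  (node (nat_lit 4) (nat_lit 54596) (nat_lit 11) nil nil)) (node (nat_lit 5) (nat_lit 0) (nat_lit
  10) (node (nat_lit 0) (nat_lit 54596) (nat_lit 11) nil (node (nat_lit 2) (nat_lit 54376)
  (nat_lit 11) (node (nat_lit 5) (nat_lit 55211) (nat_lit 12) nil nil) nil)) nil))) (node (nat_lit
  0) (nat_lit 0) (nat_lit 9) (node (nat_lit 7) (nat_lit 53398) (nat_lit 10) nil (node (nat_lit 5)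
  (nat_lit 53398) (nat_lit 10) nil (node (nat_lit 4) (nat_lit 53469) (nat_lit 10) (node (nat_lit
  7) (nat_lit 54540) (nat_lit 11) nil nil) (node (nat_lit 2) (nat_lit 50938) (nat_lit 10) nil
  (node (nat_lit 0) (nat_lit 53398) (nat_lit 10) nil nil))))) (node (nat_lit 2) (nat_lit 0)
  (nat_lit 9) (node (nat_lit 7) (nat_lit 53305) (nat_lit 10) (node (nat_lit 4) (nat_lit 54596)
  (nat_lit 11) nil nil) (node (nat_lit 5) (nat_lit 53305) (nat_lit 10) nil (node (nat_lit 4)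
  (nat_lit 53469) (nat_lit 10) (node (nat_lit 7) (nat_lit 54540) (nat_lit 11) nil nil) (node
  (nat_lit 0) (nat_lit 53305) (nat_lit 10) nil nil)))) nil))) (node (nat_lit 0) (nat_lit 54180)
  (nat_lit 8) (node (nat_lit 4) (nat_lit 55254) (nat_lit 9) nil (node (nat_lit 5) (nat_lit 55032)
  (nat_lit 9) nil (node (nat_lit 7) (nat_lit 55032) (nat_lit 9) (node (nat_lit 4) (nat_lit 55569)
  (nat_lit 10) (node (nat_lit 5) (nat_lit 56040) (nat_lit 11) nil nil) nil) nil))) (node (nat_lit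
  2) (nat_lit 0) (nat_lit 8) (node (nat_lit 4) (nat_lit 54530) (nat_lit 9) nil (node (nat_lit 5)
  (nat_lit 52214) (nat_lit 9) (node (nat_lit 7) (nat_lit 52750) (nat_lit 10) nil nil) (node
  (nat_lit 7) (nat_lit 52123) (nat_lit 9) (node (nat_lit 4) (nat_lit 54477) (nat_lit 10) (node
  (nat_lit 5) (nat_lit 51237) (nat_lit 11) nil nil) nil) (node (nat_lit 0) (nat_lit 54530)
  (nat_lit 9) nil nil)))) nil)))) nil) nil) nil)) nil) nil)) nil))

noncomputable def t329 : Tr :=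
  (node (nat_lit 4) (nat_lit 0) (nat_lit 4) (node (nat_lit 6) (nat_lit 0) (nat_lit 5) (node
  (nat_lit 5) (nat_lit 0) (nat_lit 6) (node (nat_lit 4) (nat_lit 0) (nat_lit 7) (node (nat_lit 5)
  (nat_lit 0) (nat_lit 8) (node (nat_lit 6) (nat_lit 0) (nat_lit 9) (node (nat_lit 0) (nat_lit 0)
  (nat_lit 10) (node (nat_lit 6) (nat_lit 70867) (nat_lit 11) (node (nat_lit 5) (nat_lit 72723)
  (nat_lit 12) nil (node (nat_lit 4) (nat_lit 72314) (nat_lit 12) nil nil)) (node (nat_lit 5)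
  (nat_lit 70867) (nat_lit 11) (node (nat_lit 4) (nat_lit 72314) (nat_lit 12) nil nil) (node
  (nat_lit 4) (nat_lit 70895) (nat_lit 11) nil (node (nat_lit 2) (nat_lit 67909) (nat_lit 11)
  (node (nat_lit 6) (nat_lit 67550) (nat_lit 12) nil nil) (node (nat_lit 0) (nat_lit 70344)
  (nat_lit 11) nil nil))))) (node (nat_lit 2) (nat_lit 0) (nat_lit 10) (node (nat_lit 6) (nat_lit
  70465) (nat_lit 11) (node (nat_lit 5) (nat_lit 72321) (nat_lit 12) (node (nat_lit 4) (nat_lit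
  70826) (nat_lit 13) nil nil) (node (nat_lit 4) (nat_lit 71912) (nat_lit 12) (node (nat_lit 5)
  (nat_lit 68881) (nat_lit 13) nil nil) nil)) (node (nat_lit 5) (nat_lit 70465) (nat_lit 11) (node
  (nat_lit 4) (nat_lit 72516) (nat_lit 12) nil nil) (node (nat_lit 4) (nat_lit 70638) (nat_lit 11)
  nil (node (nat_lit 0) (nat_lit 69943) (nat_lit 11) nil nil)))) (node (nat_lit 4) (nat_lit 0)
  (nat_lit 10) (node (nat_lit 0) (nat_lit 36079) (nat_lit 11) (node (nat_lit 6) (nat_lit 36883)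
  (nat_lit 12) (node (nat_lit 4) (nat_lit 37512) (nat_lit 13) nil nil) nil) (node (nat_lit 2)
  (nat_lit 35741) (nat_lit 11) (node (nat_lit 6) (nat_lit 36071) (nat_lit 12) (node (nat_lit 4)
  (nat_lit 36337) (nat_lit 13) (node (nat_lit 5) (nat_lit 33934) (nat_lit 14) (node (nat_lit 6)
  (nat_lit 29766) (nat_lit 15) nil nil) nil) nil) nil) nil)) (node (nat_lit 5) (nat_lit 0)
  (nat_lit 10) (node (nat_lit 2) (nat_lit 68569) (nat_lit 11) (node (nat_lit 6) (nat_lit 69931)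
  (nat_lit 12) (node (nat_lit 5) (nat_lit 71380) (nat_lit 13) (node (nat_lit 4) (nat_lit 69801)
  (nat_lit 14) nil nil) nil) (node (nat_lit 5) (nat_lit 70426) (nat_lit 12) nil nil)) (node
  (nat_lit 0) (nat_lit 70925) (nat_lit 11) (node (nat_lit 6) (nat_lit 72781) (nat_lit 12) (node
  (nat_lit 5) (nat_lit 71913) (nat_lit 13) nil nil) (node (nat_lit 5) (nat_lit 72372) (nat_lit 12)
  nil nil)) nil)) nil)))) (node (nat_lit 0) (nat_lit 0) (nat_lit 9) (node (nat_lit 4) (nat_lit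
  77531) (nat_lit 10) nil (node (nat_lit 6) (nat_lit 77531) (nat_lit 10) (node (nat_lit 4)
  (nat_lit 78562) (nat_lit 11) nil nil) (node (nat_lit 5) (nat_lit 77531) (nat_lit 10) (node
  (nat_lit 4) (nat_lit 78562) (nat_lit 11) nil nil) (node (nat_lit 0) (nat_lit 77531) (nat_lit 10)
  nil (node (nat_lit 2) (nat_lit 75038) (nat_lit 10) nil nil))))) (node (nat_lit 2) (nat_lit 0)
  (nat_lit 9) (node (nat_lit 4) (nat_lit 77477) (nat_lit 10) (node (nat_lit 6) (nat_lit 78159)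
  (nat_lit 11) nil nil) (node (nat_lit 6) (nat_lit 75887) (nat_lit 10) (node (nat_lit 4) (nat_lit
  77742) (nat_lit 11) nil nil) (node (nat_lit 5) (nat_lit 77010) (nat_lit 10) (node (nat_lit 4)
  (nat_lit 77721) (nat_lit 11) nil nil) (node (nat_lit 0) (nat_lit 77477) (nat_lit 10) (node
  (nat_lit 5) (nat_lit 78508) (nat_lit 11) nil (node (nat_lit 6) (nat_lit 78159) (nat_lit 11) nil
  nil)) nil)))) nil))) (node (nat_lit 6) (nat_lit 0) (nat_lit 8) (node (nat_lit 4) (nat_lit 0)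
  (nat_lit 9) (node (nat_lit 0) (nat_lit 77580) (nat_lit 10) (node (nat_lit 4) (nat_lit 78611)
  (nat_lit 11) nil (node (nat_lit 6) (nat_lit 78611) (nat_lit 11) nil nil)) (node (nat_lit 2)
  (nat_lit 77288) (nat_lit 10) (node (nat_lit 4) (nat_lit 78319) (nat_lit 11) nil (node (nat_lit
  6) (nat_lit 77919) (nat_lit 11) nil nil)) (node (nat_lit 5) (nat_lit 0) (nat_lit 10) (node
  (nat_lit 2) (nat_lit 76612) (nat_lit 11) (node (nat_lit 5) (nat_lit 77416) (nat_lit 12) nil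
  (node (nat_lit 6) (nat_lit 76922) (nat_lit 12) nil nil)) (node (nat_lit 0) (nat_lit 78611)
  (nat_lit 11) (node (nat_lit 5) (nat_lit 79415) (nat_lit 12) nil (node (nat_lit 6) (nat_lit
  79415) (nat_lit 12) nil nil)) nil)) nil))) (node (nat_lit 0) (nat_lit 0) (nat_lit 9) (node
  (nat_lit 4) (nat_lit 77531) (nat_lit 10) nil (node (nat_lit 5) (nat_lit 77531) (nat_lit 10)
  (node (nat_lit 4) (nat_lit 78562) (nat_lit 11) (node (nat_lit 5) (nat_lit 79367) (nat_lit 12)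
  (node (nat_lit 6) (nat_lit 79995) (nat_lit 13) (node (nat_lit 4) (nat_lit 80485) (nat_lit 14)
  (node (nat_lit 6) (nat_lit 80868) (nat_lit 15) (node (nat_lit 5) (nat_lit 81166) (nat_lit 16)
  nil nil) nil) nil) nil) nil) nil) (node (nat_lit 6) (nat_lit 77531) (nat_lit 10) (node (nat_lit
  4) (nat_lit 78562) (nat_lit 11) nil nil) (node (nat_lit 2) (nat_lit 75038) (nat_lit 10) nil
  (node (nat_lit 0) (nat_lit 77531) (nat_lit 10) nil nil))))) (node (nat_lit 2) (nat_lit 0)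
  (nat_lit 9) (node (nat_lit 4) (nat_lit 77288) (nat_lit 10) (node (nat_lit 6) (nat_lit 78319)
  (nat_lit 11) nil nil) (node (nat_lit 5) (nat_lit 77288) (nat_lit 10) (node (nat_lit 4) (nat_lit
  78319) (nat_lit 11) (node (nat_lit 5) (nat_lit 79123) (nat_lit 12) (node (nat_lit 6) (nat_lit
  78444) (nat_lit 13) (node (nat_lit 4) (nat_lit 75450) (nat_lit 14) (node (nat_lit 6) (nat_lit
  69204) (nat_lit 15) (node (nat_lit 5) (nat_lit 59873) (nat_lit 16) nil nil) nil) nil) nil) nil)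
  nil) (node (nat_lit 6) (nat_lit 77288) (nat_lit 10) (node (nat_lit 4) (nat_lit 77682) (nat_lit
  11) nil nil) (node (nat_lit 0) (nat_lit 77288) (nat_lit 10) nil nil)))) nil))) (node (nat_lit 0)
  (nat_lit 78272) (nat_lit 8) (node (nat_lit 6) (nat_lit 79163) (nat_lit 9) (node (nat_lit 4)
  (nat_lit 79715) (nat_lit 10) (node (nat_lit 5) (nat_lit 80203) (nat_lit 11) (node (nat_lit 6)
  (nat_lit 80645) (nat_lit 12) nil nil) nil) nil) (node (nat_lit 5) (nat_lit 79163) (nat_lit 9)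
  (node (nat_lit 4) (nat_lit 79715) (nat_lit 10) (node (nat_lit 5) (nat_lit 80203) (nat_lit 11)
  nil nil) nil) nil)) (node (nat_lit 2) (nat_lit 0) (nat_lit 8) (node (nat_lit 6) (nat_lit 78974)
  (nat_lit 9) (node (nat_lit 4) (nat_lit 77908) (nat_lit 10) (node (nat_lit 5) (nat_lit 76591)
  (nat_lit 11) (node (nat_lit 6) (nat_lit 72366) (nat_lit 12) nil nil) nil) nil) (node (nat_lit 5)
  (nat_lit 78974) (nat_lit 9) (node (nat_lit 4) (nat_lit 79527) (nat_lit 10) nil nil) (node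
  (nat_lit 4) (nat_lit 78974) (nat_lit 9) (node (nat_lit 6) (nat_lit 79527) (nat_lit 10) nil nil)
  (node (nat_lit 0) (nat_lit 78974) (nat_lit 9) nil nil)))) nil)))) (node (nat_lit 6) (nat_lit 0)
  (nat_lit 7) (node (nat_lit 4) (nat_lit 0) (nat_lit 8) (node (nat_lit 5) (nat_lit 0) (nat_lit 9)
  (node (nat_lit 0) (nat_lit 77580) (nat_lit 10) (node (nat_lit 5) (nat_lit 78611) (nat_lit 11)
  (node (nat_lit 4) (nat_lit 79415) (nat_lit 12) (node (nat_lit 5) (nat_lit 80044) (nat_lit 13)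
  (node (nat_lit 6) (nat_lit 80534) (nat_lit 14) nil nil) nil) nil) (node (nat_lit 4) (nat_lit
  78611) (nat_lit 11) (node (nat_lit 13) (nat_lit 79415) (nat_lit 12) nil (node (nat_lit 6)
  (nat_lit 79415) (nat_lit 12) nil nil)) (node (nat_lit 6) (nat_lit 78611) (nat_lit 11) nil nil)))
  (node (nat_lit 4) (nat_lit 0) (nat_lit 10) (node (nat_lit 0) (nat_lit 78562) (nat_lit 11) (node
  (nat_lit 5) (nat_lit 79367) (nat_lit 12) (node (nat_lit 4) (nat_lit 79995) (nat_lit 13) (node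
  (nat_lit 5) (nat_lit 80485) (nat_lit 14) (node (nat_lit 6) (nat_lit 80868) (nat_lit 15) nil nil)
  nil) nil) (node (nat_lit 4) (nat_lit 79367) (nat_lit 12) nil nil)) (node (nat_lit 2) (nat_lit
  78562) (nat_lit 11) (node (nat_lit 5) (nat_lit 79367) (nat_lit 12) (node (nat_lit 4) (nat_lit
  79995) (nat_lit 13) (node (nat_lit 5) (nat_lit 80485) (nat_lit 14) (node (nat_lit 6) (nat_lit
  80868) (nat_lit 15) nil nil) nil) nil) (node (nat_lit 4) (nat_lit 79367) (nat_lit 12) nil nil))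
  nil)) (node (nat_lit 2) (nat_lit 77531) (nat_lit 10) (node (nat_lit 5) (nat_lit 78562) (nat_lit
  11) (node (nat_lit 4) (nat_lit 79367) (nat_lit 12) (node (nat_lit 5) (nat_lit 79995) (nat_lit
  13) (node (nat_lit 6) (nat_lit 80485) (nat_lit 14) nil nil) nil) nil) (node (nat_lit 4) (nat_lit
  78562) (nat_lit 11) (node (nat_lit 13) (nat_lit 77815) (nat_lit 12) nil (node (nat_lit 6)
  (nat_lit 79367) (nat_lit 12) nil nil)) (node (nat_lit 6) (nat_lit 78562) (nat_lit 11) nil nil)))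
  (node (nat_lit 6) (nat_lit 0) (nat_lit 10) (node (nat_lit 0) (nat_lit 78562) (nat_lit 11) (node
  (nat_lit 5) (nat_lit 79367) (nat_lit 12) nil (node (nat_lit 6) (nat_lit 79367) (nat_lit 12) nil
  nil)) (node (nat_lit 2) (nat_lit 78562) (nat_lit 11) (node (nat_lit 5) (nat_lit 79367) (nat_lit
  12) (node (nat_lit 6) (nat_lit 79995) (nat_lit 13) nil nil) (node (nat_lit 6) (nat_lit 79367)
  (nat_lit 12) nil nil)) nil)) nil)))) (node (nat_lit 0) (nat_lit 0) (nat_lit 9) (node (nat_lit 6)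
  (nat_lit 77531) (nat_lit 10) (node (nat_lit 4) (nat_lit 78562) (nat_lit 11) nil (node (nat_lit
  5) (nat_lit 78562) (nat_lit 11) nil nil)) (node (nat_lit 5) (nat_lit 77531) (nat_lit 10) (node
  (nat_lit 4) (nat_lit 78562) (nat_lit 11) nil nil) (node (nat_lit 4) (nat_lit 77531) (nat_lit 10)
  (node (nat_lit 6) (nat_lit 78562) (nat_lit 11) nil nil) (node (nat_lit 0) (nat_lit 77531)
  (nat_lit 10) nil (node (nat_lit 2) (nat_lit 75038) (nat_lit 10) nil nil))))) (node (nat_lit 2)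
  (nat_lit 0) (nat_lit 9) (node (nat_lit 6) (nat_lit 77288) (nat_lit 10) (node (nat_lit 4)
  (nat_lit 78319) (nat_lit 11) nil (node (nat_lit 5) (nat_lit 78319) (nat_lit 11) nil nil)) (node
  (nat_lit 5) (nat_lit 77288) (nat_lit 10) (node (nat_lit 4) (nat_lit 78319) (nat_lit 11) nil nil)
  (node (nat_lit 4) (nat_lit 77288) (nat_lit 10) (node (nat_lit 6) (nat_lit 78319) (nat_lit 11)
  nil nil) (node (nat_lit 0) (nat_lit 77288) (nat_lit 10) nil nil)))) nil))) (node (nat_lit 0)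
  (nat_lit 78272) (nat_lit 8) (node (nat_lit 6) (nat_lit 79163) (nat_lit 9) (node (nat_lit 4)
  (nat_lit 79715) (nat_lit 10) (node (nat_lit 5) (nat_lit 80203) (nat_lit 11) (node (nat_lit 6)
  (nat_lit 80645) (nat_lit 12) nil nil) nil) (node (nat_lit 5) (nat_lit 79819) (nat_lit 10) (node
  (nat_lit 4) (nat_lit 80306) (nat_lit 11) nil nil) nil)) (node (nat_lit 5) (nat_lit 79218)
  (nat_lit 9) (node (nat_lit 4) (nat_lit 79770) (nat_lit 10) (node (nat_lit 5) (nat_lit 80258)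
  (nat_lit 11) (node (nat_lit 6) (nat_lit 80699) (nat_lit 12) (node (nat_lit 4) (nat_lit 81058)
  (nat_lit 13) nil nil) nil) nil) nil) (node (nat_lit 4) (nat_lit 79163) (nat_lit 9) (node
  (nat_lit 6) (nat_lit 79715) (nat_lit 10) nil nil) nil))) (node (nat_lit 2) (nat_lit 0) (nat_lit
  8) (node (nat_lit 6) (nat_lit 76616) (nat_lit 9) (node (nat_lit 4) (nat_lit 79527) (nat_lit 10)
  (node (nat_lit 5) (nat_lit 79711) (nat_lit 11) (node (nat_lit 6) (nat_lit 72840) (nat_lit 12)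
  nil nil) nil) (node (nat_lit 5) (nat_lit 76616) (nat_lit 10) (node (nat_lit 4) (nat_lit 79894)
  (nat_lit 11) (node (nat_lit 5) (nat_lit 79894) (nat_lit 12) nil nil) nil) nil)) (node (nat_lit
  5) (nat_lit 76616) (nat_lit 9) (node (nat_lit 4) (nat_lit 79711) (nat_lit 10) (node (nat_lit 5)
  (nat_lit 78350) (nat_lit 11) (node (nat_lit 6) (nat_lit 73898) (nat_lit 12) (node (nat_lit 4)
  (nat_lit 69878) (nat_lit 13) nil nil) nil) nil) (node (nat_lit 11) (nat_lit 76616) (nat_lit 10)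
  nil nil)) (node (nat_lit 4) (nat_lit 78974) (nat_lit 9) (node (nat_lit 6) (nat_lit 79527)
  (nat_lit 10) (node (nat_lit 4) (nat_lit 80014) (nat_lit 11) (node (nat_lit 5) (nat_lit 80456)
  (nat_lit 12) nil nil) nil) nil) (node (nat_lit 0) (nat_lit 79218) (nat_lit 9) nil nil)))) nil)))
  nil)) nil) (node (nat_lit 5) (nat_lit 0) (nat_lit 5) (node (nat_lit 4) (nat_lit 0) (nat_lit 6)
  (node (nat_lit 6) (nat_lit 51231) (nat_lit 7) (node (nat_lit 5) (nat_lit 51515) (nat_lit 8) nil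
  nil) nil) nil) nil)) (node (nat_lit 5) (nat_lit 0) (nat_lit 4) (node (nat_lit 4) (nat_lit 0)
  (nat_lit 5) (node (nat_lit 6) (nat_lit 0) (nat_lit 6) (node (nat_lit 4) (nat_lit 0) (nat_lit 7)
  (node (nat_lit 5) (nat_lit 0) (nat_lit 8) (node (nat_lit 6) (nat_lit 100364) (nat_lit 9) (node
  (nat_lit 5) (nat_lit 99090) (nat_lit 10) nil nil) (node (nat_lit 4) (nat_lit 0) (nat_lit 9)
  (node (nat_lit 0) (nat_lit 102713) (nat_lit 10) (node (nat_lit 5) (nat_lit 102569) (nat_lit 11)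
  nil nil) (node (nat_lit 2) (nat_lit 101462) (nat_lit 10) (node (nat_lit 5) (nat_lit 103226)
  (nat_lit 11) nil nil) (node (nat_lit 6) (nat_lit 103226) (nat_lit 10) nil nil))) (node (nat_lit
  0) (nat_lit 99689) (nat_lit 9) (node (nat_lit 6) (nat_lit 99959) (nat_lit 10) nil (node (nat_lit
  5) (nat_lit 102713) (nat_lit 10) (node (nat_lit 4) (nat_lit 103274) (nat_lit 11) nil nil) nil))
  (node (nat_lit 2) (nat_lit 99624) (nat_lit 9) (node (nat_lit 6) (nat_lit 101429) (nat_lit 10)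
  (node (nat_lit 4) (nat_lit 101229) (nat_lit 11) nil nil) (node (nat_lit 5) (nat_lit 101429)
  (nat_lit 10) (node (nat_lit 4) (nat_lit 100341) (nat_lit 11) nil nil) nil)) nil)))) (node
  (nat_lit 0) (nat_lit 102576) (nat_lit 8) (node (nat_lit 6) (nat_lit 102490) (nat_lit 9) (node
  (nat_lit 4) (nat_lit 103452) (nat_lit 10) (node (nat_lit 5) (nat_lit 103452) (nat_lit 11) (node
  (nat_lit 6) (nat_lit 103452) (nat_lit 12) (node (nat_lit 5) (nat_lit 103452) (nat_lit 13) (node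
  (nat_lit 4) (nat_lit 103692) (nat_lit 14) (node (nat_lit 6) (nat_lit 103692) (nat_lit 15) nil
  nil) nil) nil) nil) nil) nil) (node (nat_lit 5) (nat_lit 101547) (nat_lit 9) (node (nat_lit 4)
  (nat_lit 102568) (nat_lit 10) (node (nat_lit 5) (nat_lit 103452) (nat_lit 11) (node (nat_lit 6)
  (nat_lit 103000) (nat_lit 12) nil nil) nil) nil) nil)) (node (nat_lit 2) (nat_lit 102542)
  (nat_lit 8) (node (nat_lit 6) (nat_lit 102844) (nat_lit 9) (node (nat_lit 4) (nat_lit 103452)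
  (nat_lit 10) (node (nat_lit 5) (nat_lit 103452) (nat_lit 11) (node (nat_lit 6) (nat_lit 100927)
  (nat_lit 12) (node (nat_lit 5) (nat_lit 95068) (nat_lit 13) (node (nat_lit 4) (nat_lit 82560)
  (nat_lit 14) (node (nat_lit 6) (nat_lit 52778) (nat_lit 15) nil nil) nil) nil) nil) nil) (node
  (nat_lit 5) (nat_lit 100755) (nat_lit 10) nil nil)) (node (nat_lit 5) (nat_lit 103024) (nat_lit
  9) (node (nat_lit 4) (nat_lit 103452) (nat_lit 10) (node (nat_lit 5) (nat_lit 103416) (nat_lit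
  11) (node (nat_lit 6) (nat_lit 99428) (nat_lit 12) nil nil) nil) nil) nil)) nil))) (node
  (nat_lit 5) (nat_lit 0) (nat_lit 7) (node (nat_lit 6) (nat_lit 0) (nat_lit 8) (node (nat_lit 4)
  (nat_lit 0) (nat_lit 9) (node (nat_lit 0) (nat_lit 102619) (nat_lit 10) (node (nat_lit 6)
  (nat_lit 102782) (nat_lit 11) nil (node (nat_lit 5) (nat_lit 102475) (nat_lit 11) nil nil))
  (node (nat_lit 6) (nat_lit 103381) (nat_lit 10) nil (node (nat_lit 2) (nat_lit 99904) (nat_lit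
  10) (node (nat_lit 6) (nat_lit 100572) (nat_lit 11) (node (nat_lit 5) (nat_lit 99699) (nat_lit
  12) nil (node (nat_lit 4) (nat_lit 98897) (nat_lit 12) nil nil)) (node (nat_lit 5) (nat_lit
  99881) (nat_lit 11) nil nil)) (node (nat_lit 5) (nat_lit 0) (nat_lit 10) (node (nat_lit 2)
  (nat_lit 102961) (nat_lit 11) (node (nat_lit 5) (nat_lit 102088) (nat_lit 12) nil (node (nat_lit
  6) (nat_lit 100636) (nat_lit 12) nil nil)) (node (nat_lit 0) (nat_lit 103741) (nat_lit 11) (node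
  (nat_lit 5) (nat_lit 103741) (nat_lit 12) nil nil) nil)) nil)))) (node (nat_lit 0) (nat_lit
  100240) (nat_lit 9) (node (nat_lit 5) (nat_lit 102544) (nat_lit 10) nil (node (nat_lit 6)
  (nat_lit 100510) (nat_lit 10) nil nil)) (node (nat_lit 2) (nat_lit 0) (nat_lit 9) (node (nat_lit
  5) (nat_lit 95968) (nat_lit 10) (node (nat_lit 6) (nat_lit 95968) (nat_lit 11) (node (nat_lit 4)
  (nat_lit 97850) (nat_lit 12) nil nil) (node (nat_lit 12) (nat_lit 95968) (nat_lit 11) (node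
  (nat_lit 6) (nat_lit 95968) (nat_lit 12) nil nil) (node (nat_lit 4) (nat_lit 100292) (nat_lit
  11) (node (nat_lit 5) (nat_lit 99685) (nat_lit 12) (node (nat_lit 6) (nat_lit 96853) (nat_lit
  13) nil nil) nil) nil))) (node (nat_lit 4) (nat_lit 99852) (nat_lit 10) nil (node (nat_lit 6)
  (nat_lit 95968) (nat_lit 10) (node (nat_lit 4) (nat_lit 100292) (nat_lit 11) nil (node (nat_lit
  5) (nat_lit 95968) (nat_lit 11) (node (nat_lit 4) (nat_lit 100569) (nat_lit 12) nil nil) nil))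
  (node (nat_lit 0) (nat_lit 99852) (nat_lit 10) (node (nat_lit 6) (nat_lit 99938) (nat_lit 11)
  nil (node (nat_lit 5) (nat_lit 99708) (nat_lit 11) nil nil)) nil)))) nil))) (node (nat_lit 0)
  (nat_lit 102576) (nat_lit 8) (node (nat_lit 6) (nat_lit 101661) (nat_lit 9) (node (nat_lit 4)
  (nat_lit 102682) (nat_lit 10) (node (nat_lit 5) (nat_lit 103276) (nat_lit 11) (node (nat_lit 6)
  (nat_lit 103114) (nat_lit 12) (node (nat_lit 5) (nat_lit 103276) (nat_lit 13) nil nil) nil) nil)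
  (node (nat_lit 5) (nat_lit 99411) (nat_lit 10) nil nil)) (node (nat_lit 5) (nat_lit 101547)
  (nat_lit 9) (node (nat_lit 4) (nat_lit 102568) (nat_lit 10) (node (nat_lit 5) (nat_lit 103276)
  (nat_lit 11) (node (nat_lit 6) (nat_lit 103000) (nat_lit 12) nil nil) nil) nil) nil)) (node
  (nat_lit 2) (nat_lit 0) (nat_lit 8) (node (nat_lit 6) (nat_lit 98547) (nat_lit 9) (node (nat_lit
  4) (nat_lit 100721) (nat_lit 10) (node (nat_lit 5) (nat_lit 98433) (nat_lit 11) (node (nat_lit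
  6) (nat_lit 94089) (nat_lit 12) (node (nat_lit 5) (nat_lit 81378) (nat_lit 13) (node (nat_lit 4)
  (nat_lit 70387) (nat_lit 14) (node (nat_lit 6) (nat_lit 55722) (nat_lit 15) nil nil) nil) nil)
  nil) nil) (node (nat_lit 5) (nat_lit 98547) (nat_lit 10) (node (nat_lit 4) (nat_lit 100905)
  (nat_lit 11) nil nil) nil)) (node (nat_lit 5) (nat_lit 98547) (nat_lit 9) (node (nat_lit 4)
  (nat_lit 100201) (nat_lit 10) (node (nat_lit 5) (nat_lit 97719) (nat_lit 11) (node (nat_lit 6)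
  (nat_lit 93375) (nat_lit 12) nil nil) nil) (node (nat_lit 6) (nat_lit 98547) (nat_lit 10) (node
  (nat_lit 4) (nat_lit 100570) (nat_lit 11) nil nil) nil)) (node (nat_lit 4) (nat_lit 100488)
  (nat_lit 9) (node (nat_lit 6) (nat_lit 100488) (nat_lit 10) nil nil) (node (nat_lit 0) (nat_lit
  100488) (nat_lit 9) nil nil)))) nil))) nil)) (node (nat_lit 5) (nat_lit 0) (nat_lit 6) (node
  (nat_lit 6) (nat_lit 0) (nat_lit 7) (node (nat_lit 4) (nat_lit 0) (nat_lit 8) (node (nat_lit 6)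
  (nat_lit 0) (nat_lit 9) (node (nat_lit 0) (nat_lit 48738) (nat_lit 10) nil (node (nat_lit 2)
  (nat_lit 49383) (nat_lit 10) nil (node (nat_lit 5) (nat_lit 49383) (nat_lit 10) nil nil))) (node
  (nat_lit 5) (nat_lit 47416) (nat_lit 9) (node (nat_lit 0) (nat_lit 49383) (nat_lit 10) nil (node
  (nat_lit 2) (nat_lit 49383) (nat_lit 10) nil nil)) (node (nat_lit 0) (nat_lit 47446) (nat_lit 9)
  (node (nat_lit 6) (nat_lit 48768) (nat_lit 10) nil (node (nat_lit 5) (nat_lit 49413) (nat_lit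
  10) (node (nat_lit 4) (nat_lit 50444) (nat_lit 11) (node (nat_lit 5) (nat_lit 51248) (nat_lit
  12) (node (nat_lit 6) (nat_lit 51877) (nat_lit 13) nil nil) nil) nil) nil)) (node (nat_lit 2)
  (nat_lit 47416) (nat_lit 9) (node (nat_lit 6) (nat_lit 49177) (nat_lit 10) (node (nat_lit 5)
  (nat_lit 48209) (nat_lit 11) (node (nat_lit 4) (nat_lit 49013) (nat_lit 12) nil nil) (node
  (nat_lit 4) (nat_lit 46252) (nat_lit 11) (node (nat_lit 5) (nat_lit 44839) (nat_lit 12) nil nil)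
  nil)) (node (nat_lit 5) (nat_lit 47281) (nat_lit 10) (node (nat_lit 6) (nat_lit 47787) (nat_lit
  11) nil (node (nat_lit 4) (nat_lit 48312) (nat_lit 11) (node (nat_lit 5) (nat_lit 49116)
  (nat_lit 12) (node (nat_lit 6) (nat_lit 49745) (nat_lit 13) nil nil) nil) nil)) nil)) nil))))
  (node (nat_lit 0) (nat_lit 48705) (nat_lit 8) (node (nat_lit 5) (nat_lit 50424) (nat_lit 9)
  (node (nat_lit 6) (nat_lit 50938) (nat_lit 10) (node (nat_lit 4) (nat_lit 47947) (nat_lit 11)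
  (node (nat_lit 5) (nat_lit 46521) (nat_lit 12) nil nil) nil) nil) (node (nat_lit 6) (nat_lit
  50424) (nat_lit 9) nil nil)) (node (nat_lit 2) (nat_lit 48553) (nat_lit 8) (node (nat_lit 5)
  (nat_lit 48975) (nat_lit 9) (node (nat_lit 4) (nat_lit 49392) (nat_lit 10) (node (nat_lit 5)
  (nat_lit 49758) (nat_lit 11) (node (nat_lit 6) (nat_lit 50091) (nat_lit 12) nil nil) nil) nil)
  (node (nat_lit 6) (nat_lit 50127) (nat_lit 9) (node (nat_lit 4) (nat_lit 49701) (nat_lit 10)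
  (node (nat_lit 5) (nat_lit 43347) (nat_lit 11) (node (nat_lit 6) (nat_lit 40682) (nat_lit 12)
  (node (nat_lit 5) (nat_lit 30046) (nat_lit 13) nil nil) nil) nil) nil) nil)) nil))) nil) nil))
  nil) nil))

noncomputable def t330 : Tr :=
  (node (nat_lit 5) (nat_lit 0) (nat_lit 8) (node (nat_lit 7) (nat_lit 0) (nat_lit 9) (node
  (nat_lit 0) (nat_lit 0) (nat_lit 10) (node (nat_lit 7) (nat_lit 0) (nat_lit 11) (node (nat_lit
  4) (nat_lit 54911) (nat_lit 12) (node (nat_lit 5) (nat_lit 55564) (nat_lit 13) (node (nat_lit 4)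
  (nat_lit 56072) (nat_lit 14) nil nil) (node (nat_lit 7) (nat_lit 55564) (nat_lit 13) nil (node
  (nat_lit 13) (nat_lit 55564) (nat_lit 13) nil nil))) (node (nat_lit 5) (nat_lit 54911) (nat_lit
  12) (node (nat_lit 4) (nat_lit 55564) (nat_lit 13) nil (node (nat_lit 7) (nat_lit 53872)
  (nat_lit 13) nil (node (nat_lit 13) (nat_lit 55564) (nat_lit 13) nil nil))) (node (nat_lit 2)
  (nat_lit 53485) (nat_lit 12) nil (node (nat_lit 0) (nat_lit 54720) (nat_lit 12) nil nil))))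
  (node (nat_lit 5) (nat_lit 53398) (nat_lit 11) (node (nat_lit 13) (nat_lit 54864) (nat_lit 12)
  (node (nat_lit 7) (nat_lit 55517) (nat_lit 13) nil nil) (node (nat_lit 7) (nat_lit 55056)
  (nat_lit 12) nil (node (nat_lit 4) (nat_lit 55056) (nat_lit 12) nil nil))) (node (nat_lit 4)
  (nat_lit 53398) (nat_lit 11) (node (nat_lit 7) (nat_lit 55056) (nat_lit 12) nil (node (nat_lit
  13) (nat_lit 54233) (nat_lit 12) nil (node (nat_lit 5) (nat_lit 55056) (nat_lit 12) nil nil)))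
  (node (nat_lit 0) (nat_lit 53398) (nat_lit 11) (node (nat_lit 7) (nat_lit 54233) (nat_lit 12)
  nil (node (nat_lit 13) (nat_lit 54233) (nat_lit 12) nil nil)) (node (nat_lit 2) (nat_lit 52932)
  (nat_lit 11) (node (nat_lit 7) (nat_lit 53655) (nat_lit 12) nil (node (nat_lit 13) (nat_lit
  53767) (nat_lit 12) nil nil)) nil))))) (node (nat_lit 2) (nat_lit 0) (nat_lit 10) (node (nat_lit
  7) (nat_lit 0) (nat_lit 11) (node (nat_lit 4) (nat_lit 55027) (nat_lit 12) (node (nat_lit 5)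
  (nat_lit 56170) (nat_lit 13) (node (nat_lit 4) (nat_lit 51510) (nat_lit 14) (node (nat_lit 7)
  (nat_lit 42931) (nat_lit 15) nil nil) nil) (node (nat_lit 7) (nat_lit 55680) (nat_lit 13) nil
  (node (nat_lit 13) (nat_lit 55680) (nat_lit 13) nil nil))) (node (nat_lit 5) (nat_lit 55027)
  (nat_lit 12) (node (nat_lit 7) (nat_lit 54298) (nat_lit 13) nil (node (nat_lit 4) (nat_lit
  55680) (nat_lit 13) nil (node (nat_lit 13) (nat_lit 54508) (nat_lit 13) (node (nat_lit 7)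
  (nat_lit 54876) (nat_lit 14) nil nil) nil))) (node (nat_lit 0) (nat_lit 54836) (nat_lit 12) nil
  nil))) (node (nat_lit 5) (nat_lit 53152) (nat_lit 11) (node (nat_lit 13) (nat_lit 54618)
  (nat_lit 12) (node (nat_lit 7) (nat_lit 53875) (nat_lit 13) nil nil) (node (nat_lit 4) (nat_lit
  54810) (nat_lit 12) nil (node (nat_lit 7) (nat_lit 54810) (nat_lit 12) nil nil))) (node (nat_lit
  4) (nat_lit 53248) (nat_lit 11) (node (nat_lit 7) (nat_lit 54906) (nat_lit 12) nil (node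
  (nat_lit 13) (nat_lit 52552) (nat_lit 12) nil (node (nat_lit 5) (nat_lit 53942) (nat_lit 12) nil
  nil))) (node (nat_lit 0) (nat_lit 53296) (nat_lit 11) (node (nat_lit 7) (nat_lit 54132) (nat_lit
  12) nil (node (nat_lit 13) (nat_lit 52601) (nat_lit 12) nil nil)) nil)))) (node (nat_lit 5)
  (nat_lit 0) (nat_lit 10) (node (nat_lit 0) (nat_lit 53291) (nat_lit 11) (node (nat_lit 7)
  (nat_lit 54227) (nat_lit 12) (node (nat_lit 5) (nat_lit 53707) (nat_lit 13) (node (nat_lit 7)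
  (nat_lit 54076) (nat_lit 14) nil nil) nil) (node (nat_lit 5) (nat_lit 54227) (nat_lit 12) (node
  (nat_lit 7) (nat_lit 54818) (nat_lit 13) nil nil) nil)) (node (nat_lit 2) (nat_lit 53492)
  (nat_lit 11) (node (nat_lit 7) (nat_lit 55150) (nat_lit 12) (node (nat_lit 5) (nat_lit 56444)
  (nat_lit 13) (node (nat_lit 7) (nat_lit 55849) (nat_lit 14) nil (node (nat_lit 4) (nat_lit
  56953) (nat_lit 14) nil nil)) nil) (node (nat_lit 5) (nat_lit 55150) (nat_lit 12) (node (nat_lit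
  7) (nat_lit 55741) (nat_lit 13) nil nil) nil)) nil)) nil))) (node (nat_lit 4) (nat_lit 0)
  (nat_lit 9) (node (nat_lit 0) (nat_lit 0) (nat_lit 10) (node (nat_lit 4) (nat_lit 0) (nat_lit
  11) (node (nat_lit 5) (nat_lit 48921) (nat_lit 12) (node (nat_lit 13) (nat_lit 49206) (nat_lit
  13) nil (node (nat_lit 7) (nat_lit 48340) (nat_lit 13) (node (nat_lit 4) (nat_lit 46793)
  (nat_lit 14) nil nil) nil)) (node (nat_lit 7) (nat_lit 48921) (nat_lit 12) (node (nat_lit 4)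
  (nat_lit 49206) (nat_lit 13) nil (node (nat_lit 13) (nat_lit 49206) (nat_lit 13) nil nil)) (node
  (nat_lit 0) (nat_lit 48245) (nat_lit 12) nil (node (nat_lit 2) (nat_lit 47641) (nat_lit 12)
  (node (nat_lit 13) (nat_lit 48294) (nat_lit 13) nil nil) nil)))) (node (nat_lit 5) (nat_lit
  47410) (nat_lit 11) (node (nat_lit 13) (nat_lit 48877) (nat_lit 12) (node (nat_lit 4) (nat_lit
  49023) (nat_lit 13) nil nil) (node (nat_lit 4) (nat_lit 48899) (nat_lit 12) nil (node (nat_lit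
  7) (nat_lit 48534) (nat_lit 12) nil nil))) (node (nat_lit 7) (nat_lit 47410) (nat_lit 11) (node
  (nat_lit 4) (nat_lit 48877) (nat_lit 12) nil nil) (node (nat_lit 2) (nat_lit 46944) (nat_lit 11)
  nil (node (nat_lit 0) (nat_lit 47410) (nat_lit 11) nil nil))))) (node (nat_lit 2) (nat_lit 0)
  (nat_lit 10) (node (nat_lit 4) (nat_lit 0) (nat_lit 11) (node (nat_lit 5) (nat_lit 48033)
  (nat_lit 12) (node (nat_lit 13) (nat_lit 48217) (nat_lit 13) (node (nat_lit 4) (nat_lit 48726)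
  (nat_lit 14) nil nil) (node (nat_lit 7) (nat_lit 48725) (nat_lit 13) (node (nat_lit 4) (nat_lit
  47592) (nat_lit 14) nil nil) nil)) (node (nat_lit 7) (nat_lit 46556) (nat_lit 12) (node (nat_lit
  4) (nat_lit 47208) (nat_lit 13) nil nil) (node (nat_lit 0) (nat_lit 48021) (nat_lit 12) nil
  nil))) (node (nat_lit 5) (nat_lit 47339) (nat_lit 11) (node (nat_lit 13) (nat_lit 48036)
  (nat_lit 12) (node (nat_lit 4) (nat_lit 48788) (nat_lit 13) nil nil) (node (nat_lit 4) (nat_lit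
  48663) (nat_lit 12) nil (node (nat_lit 7) (nat_lit 48036) (nat_lit 12) nil nil))) (node (nat_lit
  7) (nat_lit 47339) (nat_lit 11) (node (nat_lit 4) (nat_lit 48663) (nat_lit 12) nil (node
  (nat_lit 13) (nat_lit 48036) (nat_lit 12) nil (node (nat_lit 5) (nat_lit 47083) (nat_lit 12) nil
  nil))) (node (nat_lit 0) (nat_lit 47339) (nat_lit 11) (node (nat_lit 4) (nat_lit 48174) (nat_lit
  12) nil (node (nat_lit 13) (nat_lit 46643) (nat_lit 12) nil nil)) nil)))) (node (nat_lit 7)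
  (nat_lit 0) (nat_lit 10) (node (nat_lit 0) (nat_lit 18256) (nat_lit 11) (node (nat_lit 4)
  (nat_lit 19091) (nat_lit 12) (node (nat_lit 7) (nat_lit 19744) (nat_lit 13) (node (nat_lit 4)
  (nat_lit 20252) (nat_lit 14) nil nil) nil) (node (nat_lit 7) (nat_lit 19091) (nat_lit 12) nil
  (node (nat_lit 5) (nat_lit 19137) (nat_lit 12) nil nil))) (node (nat_lit 2) (nat_lit 17780)
  (nat_lit 11) (node (nat_lit 4) (nat_lit 18616) (nat_lit 12) (node (nat_lit 7) (nat_lit 19268)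
  (nat_lit 13) (node (nat_lit 4) (nat_lit 19776) (nat_lit 14) (node (nat_lit 5) (nat_lit 20174)
  (nat_lit 15) nil nil) nil) nil) (node (nat_lit 5) (nat_lit 18892) (nat_lit 12) nil (node
  (nat_lit 7) (nat_lit 18616) (nat_lit 12) nil nil))) nil)) nil))) (node (nat_lit 0) (nat_lit 0)
  (nat_lit 9) (node (nat_lit 7) (nat_lit 51489) (nat_lit 10) (node (nat_lit 4) (nat_lit 53601)
  (nat_lit 11) (node (nat_lit 5) (nat_lit 54436) (nat_lit 12) nil (node (nat_lit 7) (nat_lit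
  54436) (nat_lit 12) nil nil)) (node (nat_lit 12) (nat_lit 53601) (nat_lit 11) (node (nat_lit 5)
  (nat_lit 54346) (nat_lit 12) (node (nat_lit 7) (nat_lit 53397) (nat_lit 13) nil nil) (node
  (nat_lit 4) (nat_lit 53602) (nat_lit 12) nil nil)) (node (nat_lit 5) (nat_lit 53601) (nat_lit
  11) (node (nat_lit 7) (nat_lit 54538) (nat_lit 12) (node (nat_lit 4) (nat_lit 55265) (nat_lit
  13) nil nil) nil) nil))) (node (nat_lit 4) (nat_lit 51489) (nat_lit 10) (node (nat_lit 12)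
  (nat_lit 53601) (nat_lit 11) (node (nat_lit 5) (nat_lit 54346) (nat_lit 12) (node (nat_lit 4)
  (nat_lit 54998) (nat_lit 13) nil nil) (node (nat_lit 7) (nat_lit 53602) (nat_lit 12) nil nil))
  (node (nat_lit 5) (nat_lit 53601) (nat_lit 11) (node (nat_lit 4) (nat_lit 54346) (nat_lit 12)
  (node (nat_lit 7) (nat_lit 54998) (nat_lit 13) nil nil) (node (nat_lit 7) (nat_lit 55260)
  (nat_lit 12) nil nil)) (node (nat_lit 7) (nat_lit 53601) (nat_lit 11) (node (nat_lit 4) (nat_lit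
  54346) (nat_lit 12) (node (nat_lit 5) (nat_lit 54998) (nat_lit 13) nil nil) (node (nat_lit 5)
  (nat_lit 55260) (nat_lit 12) nil nil)) nil))) (node (nat_lit 5) (nat_lit 51489) (nat_lit 10)
  (node (nat_lit 7) (nat_lit 53601) (nat_lit 11) (node (nat_lit 4) (nat_lit 55068) (nat_lit 12)
  nil nil) (node (nat_lit 4) (nat_lit 53601) (nat_lit 11) (node (nat_lit 7) (nat_lit 53602)
  (nat_lit 12) nil (node (nat_lit 5) (nat_lit 53111) (nat_lit 12) nil nil)) nil)) (node (nat_lit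
  0) (nat_lit 51489) (nat_lit 10) (node (nat_lit 12) (nat_lit 53355) (nat_lit 11) nil (node
  (nat_lit 5) (nat_lit 52671) (nat_lit 11) nil (node (nat_lit 7) (nat_lit 52559) (nat_lit 11) nil
  (node (nat_lit 4) (nat_lit 52559) (nat_lit 11) nil nil)))) (node (nat_lit 2) (nat_lit 50881)
  (nat_lit 10) (node (nat_lit 12) (nat_lit 52993) (nat_lit 11) (node (nat_lit 5) (nat_lit 52298)
  (nat_lit 12) nil nil) (node (nat_lit 5) (nat_lit 51816) (nat_lit 11) nil (node (nat_lit 7)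
  (nat_lit 49515) (nat_lit 11) nil (node (nat_lit 4) (nat_lit 51952) (nat_lit 11) nil nil))))
  nil))))) (node (nat_lit 2) (nat_lit 0) (nat_lit 9) (node (nat_lit 7) (nat_lit 51450) (nat_lit
  10) (node (nat_lit 4) (nat_lit 53562) (nat_lit 11) (node (nat_lit 5) (nat_lit 54262) (nat_lit
  12) (node (nat_lit 4) (nat_lit 48225) (nat_lit 13) (node (nat_lit 7) (nat_lit 36203) (nat_lit
  14) (node (nat_lit 5) (nat_lit 30039) (nat_lit 15) (node (nat_lit 7) (nat_lit 8743) (nat_lit 16)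
  nil nil) nil) nil) nil) (node (nat_lit 7) (nat_lit 54398) (nat_lit 12) nil nil)) (node (nat_lit
  12) (nat_lit 53254) (nat_lit 11) (node (nat_lit 5) (nat_lit 53998) (nat_lit 12) (node (nat_lit
  7) (nat_lit 54589) (nat_lit 13) nil nil) (node (nat_lit 4) (nat_lit 53255) (nat_lit 12) nil
  nil)) (node (nat_lit 5) (nat_lit 53562) (nat_lit 11) (node (nat_lit 7) (nat_lit 55221) (nat_lit
  12) (node (nat_lit 4) (nat_lit 53576) (nat_lit 13) (node (nat_lit 5) (nat_lit 50432) (nat_lit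
  14) nil nil) nil) (node (nat_lit 12) (nat_lit 54398) (nat_lit 12) nil nil)) nil))) (node
  (nat_lit 4) (nat_lit 51171) (nat_lit 10) (node (nat_lit 12) (nat_lit 53356) (nat_lit 11) (node
  (nat_lit 5) (nat_lit 54100) (nat_lit 12) (node (nat_lit 4) (nat_lit 54752) (nat_lit 13) nil nil)
  (node (nat_lit 7) (nat_lit 52553) (nat_lit 12) nil nil)) (node (nat_lit 5) (nat_lit 53141)
  (nat_lit 11) (node (nat_lit 4) (nat_lit 54799) (nat_lit 12) (node (nat_lit 7) (nat_lit 55451)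
  (nat_lit 13) nil nil) (node (nat_lit 7) (nat_lit 53666) (nat_lit 12) nil nil)) (node (nat_lit 7)
  (nat_lit 53282) (nat_lit 11) (node (nat_lit 4) (nat_lit 54027) (nat_lit 12) (node (nat_lit 5)
  (nat_lit 54680) (nat_lit 13) nil nil) nil) nil))) (node (nat_lit 5) (nat_lit 51450) (nat_lit 10)
  (node (nat_lit 7) (nat_lit 53562) (nat_lit 11) (node (nat_lit 5) (nat_lit 54398) (nat_lit 12)
  nil (node (nat_lit 4) (nat_lit 55028) (nat_lit 12) nil nil)) (node (nat_lit 4) (nat_lit 53601)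
  (nat_lit 11) (node (nat_lit 7) (nat_lit 53602) (nat_lit 12) nil (node (nat_lit 5) (nat_lit
  53111) (nat_lit 12) nil nil)) nil)) (node (nat_lit 0) (nat_lit 51357) (nat_lit 10) (node
  (nat_lit 12) (nat_lit 53223) (nat_lit 11) nil (node (nat_lit 5) (nat_lit 52538) (nat_lit 11) nil
  (node (nat_lit 7) (nat_lit 52427) (nat_lit 11) nil (node (nat_lit 4) (nat_lit 52427) (nat_lit
  11) nil nil)))) nil)))) nil)))) (node (nat_lit 7) (nat_lit 0) (nat_lit 8) (node (nat_lit 5)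
  (nat_lit 0) (nat_lit 9) (node (nat_lit 0) (nat_lit 59517) (nat_lit 10) (node (nat_lit 5)
  (nat_lit 59961) (nat_lit 11) (node (nat_lit 7) (nat_lit 59315) (nat_lit 12) nil nil) (node
  (nat_lit 7) (nat_lit 59961) (nat_lit 11) (node (nat_lit 4) (nat_lit 60326) (nat_lit 12) (node
  (nat_lit 5) (nat_lit 60326) (nat_lit 13) nil nil) nil) nil)) (node (nat_lit 2) (nat_lit 0)
  (nat_lit 10) (node (nat_lit 5) (nat_lit 0) (nat_lit 11) (node (nat_lit 7) (nat_lit 58270)
  (nat_lit 12) (node (nat_lit 4) (nat_lit 59525) (nat_lit 13) (node (nat_lit 5) (nat_lit 58931)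
  (nat_lit 14) nil nil) nil) (node (nat_lit 4) (nat_lit 59665) (nat_lit 12) (node (nat_lit 7)
  (nat_lit 59665) (nat_lit 13) nil nil) (node (nat_lit 0) (nat_lit 59665) (nat_lit 12) nil nil)))
  (node (nat_lit 7) (nat_lit 58270) (nat_lit 11) (node (nat_lit 4) (nat_lit 59665) (nat_lit 12)
  (node (nat_lit 5) (nat_lit 59665) (nat_lit 13) nil nil) (node (nat_lit 5) (nat_lit 58270)
  (nat_lit 12) nil nil)) (node (nat_lit 4) (nat_lit 59505) (nat_lit 11) (node (nat_lit 7) (nat_lit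
  59505) (nat_lit 12) nil nil) (node (nat_lit 0) (nat_lit 59505) (nat_lit 11) nil nil)))) (node
  (nat_lit 4) (nat_lit 0) (nat_lit 10) (node (nat_lit 2) (nat_lit 59961) (nat_lit 11) (node
  (nat_lit 4) (nat_lit 60326) (nat_lit 12) nil (node (nat_lit 7) (nat_lit 59961) (nat_lit 12) nil
  nil)) (node (nat_lit 0) (nat_lit 60166) (nat_lit 11) (node (nat_lit 7) (nat_lit 60166) (nat_lit
  12) nil nil) nil)) nil))) (node (nat_lit 0) (nat_lit 0) (nat_lit 9) (node (nat_lit 4) (nat_lit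
  59081) (nat_lit 10) (node (nat_lit 12) (nat_lit 60084) (nat_lit 11) (node (nat_lit 7) (nat_lit
  60084) (nat_lit 12) nil nil) (node (nat_lit 7) (nat_lit 59879) (nat_lit 11) (node (nat_lit 4)
  (nat_lit 60244) (nat_lit 12) (node (nat_lit 5) (nat_lit 60244) (nat_lit 13) nil nil) nil) nil))
  (node (nat_lit 5) (nat_lit 58987) (nat_lit 10) (node (nat_lit 12) (nat_lit 60057) (nat_lit 11)
  (node (nat_lit 7) (nat_lit 60084) (nat_lit 12) nil nil) (node (nat_lit 7) (nat_lit 59617)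
  (nat_lit 11) (node (nat_lit 4) (nat_lit 57733) (nat_lit 12) nil nil) nil)) (node (nat_lit 7)
  (nat_lit 59517) (nat_lit 10) (node (nat_lit 4) (nat_lit 60084) (nat_lit 11) (node (nat_lit 5)
  (nat_lit 60084) (nat_lit 12) nil nil) nil) (node (nat_lit 0) (nat_lit 59028) (nat_lit 10) (node
  (nat_lit 7) (nat_lit 59879) (nat_lit 11) nil nil) (node (nat_lit 2) (nat_lit 59437) (nat_lit 10)
  (node (nat_lit 12) (nat_lit 60084) (nat_lit 11) nil (node (nat_lit 7) (nat_lit 58071) (nat_lit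
  11) nil (node (nat_lit 5) (nat_lit 58535) (nat_lit 11) nil (node (nat_lit 4) (nat_lit 60084)
  (nat_lit 11) nil nil)))) nil))))) (node (nat_lit 2) (nat_lit 0) (nat_lit 9) (node (nat_lit 4)
  (nat_lit 59081) (nat_lit 10) (node (nat_lit 12) (nat_lit 58179) (nat_lit 11) (node (nat_lit 7)
  (nat_lit 59025) (nat_lit 12) (node (nat_lit 4) (nat_lit 59089) (nat_lit 13) nil nil) nil) (node
  (nat_lit 7) (nat_lit 59300) (nat_lit 11) (node (nat_lit 4) (nat_lit 59665) (nat_lit 12) (node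
  (nat_lit 5) (nat_lit 59665) (nat_lit 13) nil nil) nil) nil)) (node (nat_lit 5) (nat_lit 58270)
  (nat_lit 10) (node (nat_lit 7) (nat_lit 58270) (nat_lit 11) (node (nat_lit 4) (nat_lit 57733)
  (nat_lit 12) nil nil) (node (nat_lit 12) (nat_lit 58085) (nat_lit 11) (node (nat_lit 7) (nat_lit
  58270) (nat_lit 12) nil nil) nil)) (node (nat_lit 7) (nat_lit 58270) (nat_lit 10) (node (nat_lit
  4) (nat_lit 59505) (nat_lit 11) (node (nat_lit 5) (nat_lit 59505) (nat_lit 12) nil nil) nil)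
  (node (nat_lit 0) (nat_lit 59028) (nat_lit 10) (node (nat_lit 7) (nat_lit 59300) (nat_lit 11)
  nil nil) nil)))) nil))) (node (nat_lit 0) (nat_lit 0) (nat_lit 8) (node (nat_lit 5) (nat_lit
  59992) (nat_lit 9) (node (nat_lit 7) (nat_lit 59992) (nat_lit 10) (node (nat_lit 4) (nat_lit
  60368) (nat_lit 11) (node (nat_lit 5) (nat_lit 60368) (nat_lit 12) (node (nat_lit 4) (nat_lit
  54931) (nat_lit 13) (node (nat_lit 7) (nat_lit 49978) (nat_lit 14) nil nil) nil) nil) nil) (node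
  (nat_lit 4) (nat_lit 60272) (nat_lit 10) (node (nat_lit 7) (nat_lit 60272) (nat_lit 11) nil nil)
  nil)) (node (nat_lit 7) (nat_lit 59992) (nat_lit 9) (node (nat_lit 4) (nat_lit 60272) (nat_lit
  10) (node (nat_lit 5) (nat_lit 60272) (nat_lit 11) (node (nat_lit 4) (nat_lit 60423) (nat_lit
  12) (node (nat_lit 7) (nat_lit 60423) (nat_lit 13) nil nil) nil) nil) nil) (node (nat_lit 4)
  (nat_lit 59679) (nat_lit 9) (node (nat_lit 7) (nat_lit 60149) (nat_lit 10) (node (nat_lit 4)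
  (nat_lit 60368) (nat_lit 11) nil nil) nil) (node (nat_lit 0) (nat_lit 60149) (nat_lit 9) nil
  (node (nat_lit 2) (nat_lit 59992) (nat_lit 9) nil nil))))) (node (nat_lit 2) (nat_lit 0)
  (nat_lit 8) (node (nat_lit 5) (nat_lit 59309) (nat_lit 9) (node (nat_lit 7) (nat_lit 59309)
  (nat_lit 10) (node (nat_lit 4) (nat_lit 59893) (nat_lit 11) (node (nat_lit 5) (nat_lit 59463)
  (nat_lit 12) nil nil) nil) (node (nat_lit 4) (nat_lit 59797) (nat_lit 10) (node (nat_lit 7)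
  (nat_lit 59797) (nat_lit 11) nil nil) nil)) (node (nat_lit 7) (nat_lit 59309) (nat_lit 9) (node
  (nat_lit 4) (nat_lit 59797) (nat_lit 10) (node (nat_lit 5) (nat_lit 59757) (nat_lit 11) (node
  (nat_lit 4) (nat_lit 57740) (nat_lit 12) (node (nat_lit 7) (nat_lit 51696) (nat_lit 13) (node
  (nat_lit 5) (nat_lit 22084) (nat_lit 14) nil nil) nil) nil) nil) nil) (node (nat_lit 4) (nat_lit
  59679) (nat_lit 9) (node (nat_lit 7) (nat_lit 60215) (nat_lit 10) (node (nat_lit 4) (nat_lit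
  60423) (nat_lit 11) nil nil) nil) (node (nat_lit 0) (nat_lit 59675) (nat_lit 9) nil nil))))
  nil))))

noncomputable def c70 : Tr :=
  (node (nat_lit 3) (nat_lit 0) (nat_lit 1) t328 (node (nat_lit 1) (nat_lit 0) (nat_lit 1) (node
  (nat_lit 3) (nat_lit 0) (nat_lit 2) (node (nat_lit 3) (nat_lit 0) (nat_lit 3) t329 (node
  (nat_lit 4) (nat_lit 0) (nat_lit 3) (node (nat_lit 3) (nat_lit 0) (nat_lit 4) (node (nat_lit 5)
  (nat_lit 0) (nat_lit 5) (node (nat_lit 7) (nat_lit 0) (nat_lit 6) (node (nat_lit 4) (nat_lit 0)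
  (nat_lit 7) t330 nil) (node (nat_lit 4) (nat_lit 0) (nat_lit 6) (node (nat_lit 5) (nat_lit
  52535) (nat_lit 7) (node (nat_lit 7) (nat_lit 52440) (nat_lit 8) (node (nat_lit 4) (nat_lit
  55067) (nat_lit 9) (node (nat_lit 5) (nat_lit 52952) (nat_lit 10) nil nil) nil) nil) nil) nil))
  (node (nat_lit 4) (nat_lit 0) (nat_lit 5) (node (nat_lit 5) (nat_lit 0) (nat_lit 6) (node
  (nat_lit 7) (nat_lit 0) (nat_lit 7) (node (nat_lit 5) (nat_lit 0) (nat_lit 8) (node (nat_lit 4)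
  (nat_lit 58234) (nat_lit 9) nil (node (nat_lit 0) (nat_lit 58596) (nat_lit 9) (node (nat_lit 7)
  (nat_lit 58596) (nat_lit 10) nil nil) (node (nat_lit 2) (nat_lit 54741) (nat_lit 9) (node
  (nat_lit 7) (nat_lit 54741) (nat_lit 10) (node (nat_lit 4) (nat_lit 56412) (nat_lit 11) nil nil)
  (node (nat_lit 4) (nat_lit 57032) (nat_lit 10) (node (nat_lit 7) (nat_lit 57032) (nat_lit 11)
  nil nil) (node (nat_lit 5) (nat_lit 54741) (nat_lit 10) (node (nat_lit 7) (nat_lit 54741)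
  (nat_lit 11) nil nil) nil))) nil))) (node (nat_lit 4) (nat_lit 0) (nat_lit 8) (node (nat_lit 7)
  (nat_lit 0) (nat_lit 9) (node (nat_lit 0) (nat_lit 59292) (nat_lit 10) nil (node (nat_lit 2)
  (nat_lit 58693) (nat_lit 10) nil (node (nat_lit 5) (nat_lit 58693) (nat_lit 10) nil nil))) (node
  (nat_lit 0) (nat_lit 59030) (nat_lit 9) (node (nat_lit 7) (nat_lit 59030) (nat_lit 10) nil nil)
  (node (nat_lit 2) (nat_lit 58693) (nat_lit 9) (node (nat_lit 7) (nat_lit 57242) (nat_lit 10) nil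
  nil) nil))) (node (nat_lit 0) (nat_lit 58774) (nat_lit 8) (node (nat_lit 7) (nat_lit 58774)
  (nat_lit 9) (node (nat_lit 4) (nat_lit 59054) (nat_lit 10) (node (nat_lit 5) (nat_lit 59054)
  (nat_lit 11) nil nil) nil) nil) (node (nat_lit 2) (nat_lit 0) (nat_lit 8) (node (nat_lit 4)
  (nat_lit 57406) (nat_lit 9) nil (node (nat_lit 5) (nat_lit 56388) (nat_lit 9) (node (nat_lit 7)
  (nat_lit 56388) (nat_lit 10) nil nil) (node (nat_lit 7) (nat_lit 56388) (nat_lit 9) (node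
  (nat_lit 4) (nat_lit 57529) (nat_lit 10) (node (nat_lit 5) (nat_lit 57240) (nat_lit 11) (node
  (nat_lit 4) (nat_lit 46146) (nat_lit 12) (node (nat_lit 7) (nat_lit 40211) (nat_lit 13) (node
  (nat_lit 4) (nat_lit 31244) (nat_lit 14) nil nil) nil) nil) nil) nil) (node (nat_lit 0) (nat_lit
  57406) (nat_lit 9) nil nil)))) nil)))) nil) nil) nil)) nil) nil)) nil) nil))

noncomputable def t336 : Tr :=
  (node (nat_lit 0) (nat_lit 0) (nat_lit 5) (node (nat_lit 4) (nat_lit 0) (nat_lit 6) (node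
  (nat_lit 6) (nat_lit 67766) (nat_lit 7) (node (nat_lit 8) (nat_lit 72987) (nat_lit 8) (node
  (nat_lit 4) (nat_lit 73383) (nat_lit 9) (node (nat_lit 8) (nat_lit 75218) (nat_lit 10) (node
  (nat_lit 6) (nat_lit 75534) (nat_lit 11) (node (nat_lit 4) (nat_lit 75945) (nat_lit 12) (node
  (nat_lit 6) (nat_lit 76318) (nat_lit 13) nil nil) (node (nat_lit 8) (nat_lit 76318) (nat_lit 12)
  nil (node (nat_lit 5) (nat_lit 75945) (nat_lit 12) nil nil))) (node (nat_lit 5) (nat_lit 75534)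
  (nat_lit 11) (node (nat_lit 4) (nat_lit 74529) (nat_lit 12) nil (node (nat_lit 6) (nat_lit
  75454) (nat_lit 12) nil nil)) (node (nat_lit 0) (nat_lit 75630) (nat_lit 11) nil nil))) (node
  (nat_lit 5) (nat_lit 74751) (nat_lit 10) (node (nat_lit 4) (nat_lit 75534) (nat_lit 11) (node
  (nat_lit 6) (nat_lit 75667) (nat_lit 12) nil nil) (node (nat_lit 6) (nat_lit 75534) (nat_lit 11)
  (node (nat_lit 5) (nat_lit 75945) (nat_lit 12) (node (nat_lit 4) (nat_lit 75182) (nat_lit 13)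
  nil nil) nil) (node (nat_lit 8) (nat_lit 75630) (nat_lit 11) nil (node (nat_lit 0) (nat_lit
  75630) (nat_lit 11) nil nil)))) (node (nat_lit 0) (nat_lit 75218) (nat_lit 10) (node (nat_lit 4)
  (nat_lit 75534) (nat_lit 11) (node (nat_lit 6) (nat_lit 75454) (nat_lit 12) nil (node (nat_lit
  5) (nat_lit 75945) (nat_lit 12) nil nil)) (node (nat_lit 5) (nat_lit 75218) (nat_lit 11) nil
  (node (nat_lit 8) (nat_lit 75630) (nat_lit 11) nil (node (nat_lit 6) (nat_lit 75218) (nat_lit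
  11) nil nil)))) nil))) (node (nat_lit 6) (nat_lit 73443) (nat_lit 9) (node (nat_lit 4) (nat_lit
  74811) (nat_lit 10) (node (nat_lit 8) (nat_lit 75689) (nat_lit 11) nil (node (nat_lit 5)
  (nat_lit 75278) (nat_lit 11) nil nil)) (node (nat_lit 5) (nat_lit 73726) (nat_lit 10) (node
  (nat_lit 8) (nat_lit 74604) (nat_lit 11) nil nil) (node (nat_lit 0) (nat_lit 74929) (nat_lit 10)
  nil nil))) (node (nat_lit 5) (nat_lit 73383) (nat_lit 9) (node (nat_lit 6) (nat_lit 74751)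
  (nat_lit 10) (node (nat_lit 5) (nat_lit 72922) (nat_lit 11) nil nil) (node (nat_lit 4) (nat_lit
  74751) (nat_lit 10) nil (node (nat_lit 8) (nat_lit 74869) (nat_lit 10) nil nil))) (node (nat_lit
  0) (nat_lit 74402) (nat_lit 9) nil nil)))) (node (nat_lit 5) (nat_lit 69751) (nat_lit 8) (node
  (nat_lit 4) (nat_lit 69968) (nat_lit 9) (node (nat_lit 5) (nat_lit 67263) (nat_lit 10) (node
  (nat_lit 6) (nat_lit 60051) (nat_lit 11) (node (nat_lit 4) (nat_lit 44524) (nat_lit 12) (node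
  (nat_lit 8) (nat_lit 22174) (nat_lit 13) nil nil) nil) nil) (node (nat_lit 6) (nat_lit 68305)
  (nat_lit 10) (node (nat_lit 4) (nat_lit 67619) (nat_lit 11) (node (nat_lit 5) (nat_lit 65604)
  (nat_lit 12) nil nil) nil) (node (nat_lit 8) (nat_lit 71966) (nat_lit 10) nil nil))) (node
  (nat_lit 6) (nat_lit 72134) (nat_lit 9) (node (nat_lit 4) (nat_lit 73270) (nat_lit 10) nil (node
  (nat_lit 8) (nat_lit 74132) (nat_lit 10) nil nil)) (node (nat_lit 8) (nat_lit 73270) (nat_lit 9)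
  (node (nat_lit 6) (nat_lit 73270) (nat_lit 10) nil (node (nat_lit 5) (nat_lit 73270) (nat_lit
  10) nil nil)) (node (nat_lit 0) (nat_lit 73270) (nat_lit 9) nil nil)))) (node (nat_lit 0)
  (nat_lit 73019) (nat_lit 8) (node (nat_lit 4) (nat_lit 73415) (nat_lit 9) (node (nat_lit 6)
  (nat_lit 74434) (nat_lit 10) nil nil) (node (nat_lit 6) (nat_lit 73415) (nat_lit 9) (node
  (nat_lit 4) (nat_lit 74434) (nat_lit 10) nil nil) (node (nat_lit 5) (nat_lit 72022) (nat_lit 9)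
  nil (node (nat_lit 8) (nat_lit 74434) (nat_lit 9) nil (node (nat_lit 0) (nat_lit 74434) (nat_lit
  9) nil nil))))) (node (nat_lit 4) (nat_lit 71215) (nat_lit 8) (node (nat_lit 8) (nat_lit 74402)
  (nat_lit 9) (node (nat_lit 6) (nat_lit 74751) (nat_lit 10) (node (nat_lit 8) (nat_lit 75630)
  (nat_lit 11) (node (nat_lit 4) (nat_lit 75630) (nat_lit 12) (node (nat_lit 6) (nat_lit 76003)
  (nat_lit 13) nil nil) nil) (node (nat_lit 4) (nat_lit 75218) (nat_lit 11) nil nil)) nil) (node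
  (nat_lit 5) (nat_lit 72987) (nat_lit 9) nil (node (nat_lit 0) (nat_lit 74006) (nat_lit 9) nil
  nil))) nil)))) (node (nat_lit 5) (nat_lit 65811) (nat_lit 7) (node (nat_lit 6) (nat_lit 70003)
  (nat_lit 8) (node (nat_lit 5) (nat_lit 70906) (nat_lit 9) (node (nat_lit 4) (nat_lit 64616)
  (nat_lit 10) (node (nat_lit 6) (nat_lit 63845) (nat_lit 11) (node (nat_lit 4) (nat_lit 63507)
  (nat_lit 12) (node (nat_lit 5) (nat_lit 62660) (nat_lit 13) (node (nat_lit 6) (nat_lit 60574)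
  (nat_lit 14) (node (nat_lit 4) (nat_lit 56612) (nat_lit 15) nil nil) nil) nil) nil) (node
  (nat_lit 5) (nat_lit 61923) (nat_lit 11) (node (nat_lit 6) (nat_lit 54051) (nat_lit 12) (node
  (nat_lit 4) (nat_lit 47015) (nat_lit 13) (node (nat_lit 8) (nat_lit 22223) (nat_lit 14) (node
  (nat_lit 4) (nat_lit 22223) (nat_lit 15) nil nil) nil) nil) nil) nil)) (node (nat_lit 8)
  (nat_lit 72904) (nat_lit 10) nil nil)) (node (nat_lit 4) (nat_lit 70837) (nat_lit 9) (node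
  (nat_lit 5) (nat_lit 70969) (nat_lit 10) (node (nat_lit 4) (nat_lit 71764) (nat_lit 11) (node
  (nat_lit 6) (nat_lit 71010) (nat_lit 12) (node (nat_lit 4) (nat_lit 70950) (nat_lit 13) nil nil)
  nil) nil) (node (nat_lit 6) (nat_lit 69915) (nat_lit 10) nil nil)) (node (nat_lit 8) (nat_lit
  73536) (nat_lit 9) (node (nat_lit 5) (nat_lit 73536) (nat_lit 10) nil (node (nat_lit 6) (nat_lit
  73536) (nat_lit 10) nil nil)) (node (nat_lit 0) (nat_lit 73536) (nat_lit 9) nil nil)))) (node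
  (nat_lit 8) (nat_lit 71033) (nat_lit 8) (node (nat_lit 5) (nat_lit 71313) (nat_lit 9) (node
  (nat_lit 4) (nat_lit 71737) (nat_lit 10) (node (nat_lit 8) (nat_lit 73677) (nat_lit 11) (node
  (nat_lit 5) (nat_lit 73677) (nat_lit 12) nil nil) (node (nat_lit 5) (nat_lit 72600) (nat_lit 11)
  nil (node (nat_lit 6) (nat_lit 70270) (nat_lit 11) nil nil))) (node (nat_lit 6) (nat_lit 72796)
  (nat_lit 10) nil (node (nat_lit 0) (nat_lit 72915) (nat_lit 10) nil nil))) (node (nat_lit 4)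
  (nat_lit 71313) (nat_lit 9) (node (nat_lit 8) (nat_lit 73263) (nat_lit 10) (node (nat_lit 5)
  (nat_lit 73808) (nat_lit 11) (node (nat_lit 4) (nat_lit 72803) (nat_lit 12) nil nil) nil) (node
  (nat_lit 6) (nat_lit 72796) (nat_lit 10) nil (node (nat_lit 0) (nat_lit 72915) (nat_lit 10) nil
  nil))) (node (nat_lit 6) (nat_lit 72545) (nat_lit 9) (node (nat_lit 5) (nat_lit 73913) (nat_lit
  10) (node (nat_lit 4) (nat_lit 72644) (nat_lit 11) nil nil) (node (nat_lit 8) (nat_lit 74031)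
  (nat_lit 10) nil (node (nat_lit 4) (nat_lit 73564) (nat_lit 10) nil nil))) (node (nat_lit 0)
  (nat_lit 73199) (nat_lit 9) nil nil)))) (node (nat_lit 4) (nat_lit 68989) (nat_lit 8) (node
  (nat_lit 8) (nat_lit 72448) (nat_lit 9) (node (nat_lit 5) (nat_lit 72352) (nat_lit 10) (node
  (nat_lit 8) (nat_lit 73991) (nat_lit 11) (node (nat_lit 4) (nat_lit 74248) (nat_lit 12) (node
  (nat_lit 5) (nat_lit 74621) (nat_lit 13) nil nil) nil) (node (nat_lit 4) (nat_lit 73759)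
  (nat_lit 11) (node (nat_lit 5) (nat_lit 74219) (nat_lit 12) nil nil) nil)) (node (nat_lit 6)
  (nat_lit 72796) (nat_lit 10) nil (node (nat_lit 0) (nat_lit 72915) (nat_lit 10) nil nil))) (node
  (nat_lit 6) (nat_lit 71446) (nat_lit 9) (node (nat_lit 5) (nat_lit 72235) (nat_lit 10) (node
  (nat_lit 6) (nat_lit 73098) (nat_lit 11) nil nil) (node (nat_lit 4) (nat_lit 66005) (nat_lit 10)
  (node (nat_lit 5) (nat_lit 63352) (nat_lit 11) (node (nat_lit 6) (nat_lit 52226) (nat_lit 12)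
  (node (nat_lit 4) (nat_lit 52542) (nat_lit 13) nil nil) nil) nil) (node (nat_lit 8) (nat_lit
  73445) (nat_lit 10) nil nil))) (node (nat_lit 0) (nat_lit 72292) (nat_lit 9) nil nil))) (node
  (nat_lit 0) (nat_lit 72121) (nat_lit 8) (node (nat_lit 4) (nat_lit 72401) (nat_lit 9) (node
  (nat_lit 5) (nat_lit 73536) (nat_lit 10) nil nil) (node (nat_lit 5) (nat_lit 72401) (nat_lit 9)
  (node (nat_lit 4) (nat_lit 71731) (nat_lit 10) nil nil) (node (nat_lit 6) (nat_lit 72517)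
  (nat_lit 9) nil (node (nat_lit 0) (nat_lit 73536) (nat_lit 9) nil (node (nat_lit 8) (nat_lit
  73536) (nat_lit 9) nil nil))))) nil)))) (node (nat_lit 0) (nat_lit 69940) (nat_lit 7) (node
  (nat_lit 8) (nat_lit 72969) (nat_lit 8) (node (nat_lit 4) (nat_lit 73245) (nat_lit 9) (node
  (nat_lit 8) (nat_lit 75200) (nat_lit 10) (node (nat_lit 10) (nat_lit 75927) (nat_lit 11) nil
  (node (nat_lit 6) (nat_lit 75200) (nat_lit 11) nil (node (nat_lit 5) (nat_lit 75200) (nat_lit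
  11) nil (node (nat_lit 0) (nat_lit 75612) (nat_lit 11) nil nil)))) (node (nat_lit 6) (nat_lit
  74733) (nat_lit 10) nil (node (nat_lit 5) (nat_lit 73568) (nat_lit 10) (node (nat_lit 6)
  (nat_lit 72773) (nat_lit 11) nil nil) (node (nat_lit 0) (nat_lit 75200) (nat_lit 10) nil nil))))
  (node (nat_lit 10) (nat_lit 74384) (nat_lit 9) (node (nat_lit 4) (nat_lit 74733) (nat_lit 10)
  nil nil) (node (nat_lit 5) (nat_lit 73245) (nat_lit 9) nil (node (nat_lit 6) (nat_lit 73365)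
  (nat_lit 9) nil (node (nat_lit 0) (nat_lit 73988) (nat_lit 9) nil nil))))) (node (nat_lit 4)
  (nat_lit 69856) (nat_lit 8) (node (nat_lit 8) (nat_lit 73159) (nat_lit 9) (node (nat_lit 10)
  (nat_lit 74371) (nat_lit 10) (node (nat_lit 4) (nat_lit 74371) (nat_lit 11) nil nil) (node
  (nat_lit 4) (nat_lit 73159) (nat_lit 10) nil nil)) (node (nat_lit 6) (nat_lit 71466) (nat_lit 9)
  nil (node (nat_lit 5) (nat_lit 70690) (nat_lit 9) (node (nat_lit 4) (nat_lit 69671) (nat_lit 10)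
  nil nil) (node (nat_lit 0) (nat_lit 72763) (nat_lit 9) nil nil)))) (node (nat_lit 6) (nat_lit
  71247) (nat_lit 8) (node (nat_lit 4) (nat_lit 73294) (nat_lit 9) (node (nat_lit 6) (nat_lit
  72372) (nat_lit 10) nil nil) (node (nat_lit 5) (nat_lit 72022) (nat_lit 9) nil (node (nat_lit 8)
  (nat_lit 74038) (nat_lit 9) nil (node (nat_lit 10) (nat_lit 74038) (nat_lit 9) nil (node
  (nat_lit 0) (nat_lit 74038) (nat_lit 9) nil nil))))) (node (nat_lit 5) (nat_lit 69786) (nat_lit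
  8) (node (nat_lit 4) (nat_lit 71954) (nat_lit 9) (node (nat_lit 5) (nat_lit 73089) (nat_lit 10)
  nil nil) (node (nat_lit 6) (nat_lit 71943) (nat_lit 9) nil (node (nat_lit 10) (nat_lit 72693)
  (nat_lit 9) nil (node (nat_lit 8) (nat_lit 72693) (nat_lit 9) nil (node (nat_lit 0) (nat_lit
  72693) (nat_lit 9) nil nil))))) (node (nat_lit 0) (nat_lit 72969) (nat_lit 8) (node (nat_lit 4)
  (nat_lit 73365) (nat_lit 9) nil (node (nat_lit 10) (nat_lit 73988) (nat_lit 9) nil (node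
  (nat_lit 5) (nat_lit 72969) (nat_lit 9) nil (node (nat_lit 8) (nat_lit 73988) (nat_lit 9) nil
  (node (nat_lit 6) (nat_lit 72969) (nat_lit 9) nil nil))))) nil))))) nil))) (node (nat_lit 6)
  (nat_lit 0) (nat_lit 6) (node (nat_lit 8) (nat_lit 70447) (nat_lit 7) (node (nat_lit 4) (nat_lit
  71129) (nat_lit 8) (node (nat_lit 8) (nat_lit 74485) (nat_lit 9) (node (nat_lit 6) (nat_lit
  75108) (nat_lit 10) (node (nat_lit 4) (nat_lit 75890) (nat_lit 11) (node (nat_lit 6) (nat_lit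
  76558) (nat_lit 12) (node (nat_lit 8) (nat_lit 77234) (nat_lit 13) nil (node (nat_lit 5)
  (nat_lit 76931) (nat_lit 13) nil nil)) (node (nat_lit 8) (nat_lit 76675) (nat_lit 12) nil (node
  (nat_lit 5) (nat_lit 76302) (nat_lit 12) nil nil))) (node (nat_lit 5) (nat_lit 74856) (nat_lit
  11) (node (nat_lit 4) (nat_lit 75192) (nat_lit 12) nil (node (nat_lit 6) (nat_lit 75267)
  (nat_lit 12) nil nil)) (node (nat_lit 0) (nat_lit 75986) (nat_lit 11) nil nil))) nil) (node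
  (nat_lit 6) (nat_lit 72890) (nat_lit 9) (node (nat_lit 4) (nat_lit 74026) (nat_lit 10) nil nil)
  nil)) nil) (node (nat_lit 5) (nat_lit 67578) (nat_lit 7) (node (nat_lit 4) (nat_lit 70117)
  (nat_lit 8) (node (nat_lit 6) (nat_lit 70770) (nat_lit 9) (node (nat_lit 4) (nat_lit 66888)
  (nat_lit 10) (node (nat_lit 5) (nat_lit 63397) (nat_lit 11) (node (nat_lit 6) (nat_lit 57565)
  (nat_lit 12) nil nil) nil) nil) (node (nat_lit 5) (nat_lit 71889) (nat_lit 9) nil nil)) (node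
  (nat_lit 6) (nat_lit 71083) (nat_lit 8) (node (nat_lit 4) (nat_lit 72855) (nat_lit 9) nil nil)
  (node (nat_lit 0) (nat_lit 71948) (nat_lit 8) nil (node (nat_lit 8) (nat_lit 71948) (nat_lit 8)
  nil nil)))) (node (nat_lit 4) (nat_lit 67043) (nat_lit 7) (node (nat_lit 6) (nat_lit 70122)
  (nat_lit 8) (node (nat_lit 8) (nat_lit 73029) (nat_lit 9) (node (nat_lit 4) (nat_lit 73029)
  (nat_lit 10) (node (nat_lit 8) (nat_lit 74653) (nat_lit 11) nil nil) nil) (node (nat_lit 5)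
  (nat_lit 70473) (nat_lit 9) (node (nat_lit 4) (nat_lit 67152) (nat_lit 10) nil nil) nil)) (node
  (nat_lit 5) (nat_lit 67299) (nat_lit 8) nil (node (nat_lit 0) (nat_lit 71413) (nat_lit 8) nil
  nil))) (node (nat_lit 0) (nat_lit 70447) (nat_lit 7) (node (nat_lit 4) (nat_lit 70447) (nat_lit
  8) nil (node (nat_lit 0) (nat_lit 72219) (nat_lit 8) nil (node (nat_lit 8) (nat_lit 72219)
  (nat_lit 8) nil (node (nat_lit 5) (nat_lit 70447) (nat_lit 8) nil (node (nat_lit 6) (nat_lit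
  70447) (nat_lit 8) nil nil))))) nil)))) (node (nat_lit 5) (nat_lit 0) (nat_lit 6) (node (nat_lit
  6) (nat_lit 66670) (nat_lit 7) (node (nat_lit 4) (nat_lit 69625) (nat_lit 8) (node (nat_lit 5)
  (nat_lit 71397) (nat_lit 9) nil nil) (node (nat_lit 5) (nat_lit 64923) (nat_lit 8) (node
  (nat_lit 4) (nat_lit 59635) (nat_lit 9) (node (nat_lit 5) (nat_lit 46809) (nat_lit 10) (node
  (nat_lit 6) (nat_lit 38283) (nat_lit 11) (node (nat_lit 4) (nat_lit 25281) (nat_lit 12) nil nil)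
  nil) nil) nil) (node (nat_lit 8) (nat_lit 71040) (nat_lit 8) nil nil))) (node (nat_lit 4)
  (nat_lit 63995) (nat_lit 7) (node (nat_lit 5) (nat_lit 66309) (nat_lit 8) (node (nat_lit 8)
  (nat_lit 69613) (nat_lit 9) (node (nat_lit 4) (nat_lit 69613) (nat_lit 10) (node (nat_lit 8)
  (nat_lit 71236) (nat_lit 11) nil nil) nil) nil) (node (nat_lit 6) (nat_lit 68645) (nat_lit 8)
  (node (nat_lit 4) (nat_lit 60557) (nat_lit 9) (node (nat_lit 5) (nat_lit 52258) (nat_lit 10)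
  (node (nat_lit 6) (nat_lit 50997) (nat_lit 11) nil nil) nil) (node (nat_lit 5) (nat_lit 66563)
  (nat_lit 9) nil nil)) (node (nat_lit 0) (nat_lit 68365) (nat_lit 8) nil nil))) (node (nat_lit 8)
  (nat_lit 67995) (nat_lit 7) (node (nat_lit 4) (nat_lit 67712) (nat_lit 8) (node (nat_lit 8)
  (nat_lit 71468) (nat_lit 9) (node (nat_lit 5) (nat_lit 70756) (nat_lit 10) (node (nat_lit 4)
  (nat_lit 72164) (nat_lit 11) (node (nat_lit 5) (nat_lit 72924) (nat_lit 12) nil (node (nat_lit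
  8) (nat_lit 73613) (nat_lit 12) nil nil)) (node (nat_lit 6) (nat_lit 72098) (nat_lit 11) nil
  (node (nat_lit 0) (nat_lit 72379) (nat_lit 11) nil nil))) nil) nil) nil) (node (nat_lit 0)
  (nat_lit 69232) (nat_lit 7) nil nil)))) (node (nat_lit 0) (nat_lit 0) (nat_lit 6) (node (nat_lit
  4) (nat_lit 67348) (nat_lit 7) (node (nat_lit 8) (nat_lit 73043) (nat_lit 8) (node (nat_lit 4)
  (nat_lit 73439) (nat_lit 9) (node (nat_lit 9) (nat_lit 75273) (nat_lit 10) (node (nat_lit 4)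
  (nat_lit 75273) (nat_lit 11) nil nil) (node (nat_lit 5) (nat_lit 74458) (nat_lit 10) nil (node
  (nat_lit 6) (nat_lit 74458) (nat_lit 10) nil (node (nat_lit 0) (nat_lit 74924) (nat_lit 10) nil
  nil)))) (node (nat_lit 6) (nat_lit 73439) (nat_lit 9) (node (nat_lit 9) (nat_lit 74924) (nat_lit
  10) nil nil) (node (nat_lit 5) (nat_lit 71809) (nat_lit 9) nil (node (nat_lit 0) (nat_lit 74458)
  (nat_lit 9) nil nil)))) (node (nat_lit 9) (nat_lit 72569) (nat_lit 8) (node (nat_lit 8) (nat_lit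
  73588) (nat_lit 9) nil nil) (node (nat_lit 6) (nat_lit 68692) (nat_lit 8) nil (node (nat_lit 5)
  (nat_lit 69946) (nat_lit 8) nil (node (nat_lit 0) (nat_lit 71718) (nat_lit 8) nil nil))))) (node
  (nat_lit 8) (nat_lit 70447) (nat_lit 7) (node (nat_lit 4) (nat_lit 70866) (nat_lit 8) (node
  (nat_lit 8) (nat_lit 74170) (nat_lit 9) (node (nat_lit 9) (nat_lit 75300) (nat_lit 10) (node
  (nat_lit 4) (nat_lit 75300) (nat_lit 11) nil nil) nil) (node (nat_lit 9) (nat_lit 73773)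
  (nat_lit 9) nil nil)) nil) (node (nat_lit 6) (nat_lit 67348) (nat_lit 7) (node (nat_lit 4)
  (nat_lit 69946) (nat_lit 8) nil (node (nat_lit 8) (nat_lit 71718) (nat_lit 8) nil nil)) (node
  (nat_lit 5) (nat_lit 64966) (nat_lit 7) (node (nat_lit 4) (nat_lit 63790) (nat_lit 8) nil nil)
  (node (nat_lit 0) (nat_lit 69946) (nat_lit 7) nil nil))))) nil)))) (node (nat_lit 6) (nat_lit 0)
  (nat_lit 5) (node (nat_lit 0) (nat_lit 0) (nat_lit 6) (node (nat_lit 4) (nat_lit 0) (nat_lit 7)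
  (node (nat_lit 6) (nat_lit 68648) (nat_lit 8) (node (nat_lit 5) (nat_lit 72380) (nat_lit 9)
  (node (nat_lit 4) (nat_lit 71164) (nat_lit 10) (node (nat_lit 5) (nat_lit 67765) (nat_lit 11)
  (node (nat_lit 6) (nat_lit 61683) (nat_lit 12) (node (nat_lit 4) (nat_lit 34906) (nat_lit 13)
  (node (nat_lit 6) (nat_lit 22730) (nat_lit 14) (node (nat_lit 9) (nat_lit 23138) (nat_lit 15)
  nil nil) nil) nil) nil) (node (nat_lit 9) (nat_lit 72787) (nat_lit 11) nil nil)) (node (nat_lit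
  6) (nat_lit 74328) (nat_lit 10) nil (node (nat_lit 9) (nat_lit 74808) (nat_lit 10) nil (node
  (nat_lit 0) (nat_lit 74808) (nat_lit 10) nil nil)))) (node (nat_lit 4) (nat_lit 72509) (nat_lit
  9) (node (nat_lit 5) (nat_lit 74341) (nat_lit 10) nil (node (nat_lit 9) (nat_lit 75156) (nat_lit
  10) (node (nat_lit 4) (nat_lit 75156) (nat_lit 11) nil (node (nat_lit 6) (nat_lit 75156)
  (nat_lit 11) nil nil)) (node (nat_lit 0) (nat_lit 74808) (nat_lit 10) nil nil))) (node (nat_lit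
  0) (nat_lit 74341) (nat_lit 9) nil nil))) (node (nat_lit 9) (nat_lit 71500) (nat_lit 8) (node
  (nat_lit 6) (nat_lit 71896) (nat_lit 9) (node (nat_lit 9) (nat_lit 74195) (nat_lit 10) nil (node
  (nat_lit 4) (nat_lit 73728) (nat_lit 10) nil nil)) nil) (node (nat_lit 5) (nat_lit 67763)
  (nat_lit 8) (node (nat_lit 6) (nat_lit 68546) (nat_lit 9) nil (node (nat_lit 9) (nat_lit 73176)
  (nat_lit 9) nil nil)) (node (nat_lit 0) (nat_lit 70649) (nat_lit 8) nil nil)))) (node (nat_lit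
  5) (nat_lit 60945) (nat_lit 7) (node (nat_lit 6) (nat_lit 67293) (nat_lit 8) (node (nat_lit 5)
  (nat_lit 69358) (nat_lit 9) (node (nat_lit 4) (nat_lit 62317) (nat_lit 10) nil nil) (node
  (nat_lit 4) (nat_lit 70758) (nat_lit 9) nil (node (nat_lit 0) (nat_lit 72706) (nat_lit 9) nil
  nil))) (node (nat_lit 4) (nat_lit 64684) (nat_lit 8) nil (node (nat_lit 9) (nat_lit 68973)
  (nat_lit 8) nil (node (nat_lit 0) (nat_lit 68973) (nat_lit 8) nil nil)))) (node (nat_lit 6)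
  (nat_lit 0) (nat_lit 7) (node (nat_lit 4) (nat_lit 68660) (nat_lit 8) (node (nat_lit 9) (nat_lit
  74470) (nat_lit 9) (node (nat_lit 4) (nat_lit 74470) (nat_lit 10) nil nil) (node (nat_lit 5)
  (nat_lit 72125) (nat_lit 9) nil (node (nat_lit 0) (nat_lit 74074) (nat_lit 9) nil nil))) (node
  (nat_lit 5) (nat_lit 68848) (nat_lit 8) nil (node (nat_lit 0) (nat_lit 71462) (nat_lit 8) nil
  nil))) (node (nat_lit 0) (nat_lit 67960) (nat_lit 7) (node (nat_lit 6) (nat_lit 67960) (nat_lit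
  8) nil nil) nil)))) (node (nat_lit 5) (nat_lit 0) (nat_lit 6) (node (nat_lit 4) (nat_lit 0)
  (nat_lit 7) (node (nat_lit 5) (nat_lit 0) (nat_lit 8) (node (nat_lit 6) (nat_lit 16007) (nat_lit
  9) (node (nat_lit 4) (nat_lit 18132) (nat_lit 10) (node (nat_lit 5) (nat_lit 19249) (nat_lit 11)
  nil nil) (node (nat_lit 5) (nat_lit 17436) (nat_lit 10) nil nil)) (node (nat_lit 0) (nat_lit
  43932) (nat_lit 9) nil nil)) (node (nat_lit 0) (nat_lit 53198) (nat_lit 8) nil (node (nat_lit 6)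
  (nat_lit 35092) (nat_lit 8) nil nil))) (node (nat_lit 6) (nat_lit 0) (nat_lit 7) (node (nat_lit
  4) (nat_lit 0) (nat_lit 8) (node (nat_lit 5) (nat_lit 60722) (nat_lit 9) nil (node (nat_lit 0)
  (nat_lit 63377) (nat_lit 9) nil nil)) (node (nat_lit 0) (nat_lit 68086) (nat_lit 8) nil nil))
  (node (nat_lit 0) (nat_lit 63207) (nat_lit 7) nil nil))) nil)) (node (nat_lit 5) (nat_lit 0)
  (nat_lit 5) (node (nat_lit 0) (nat_lit 0) (nat_lit 6) (node (nat_lit 4) (nat_lit 49248) (nat_lit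
  7) (node (nat_lit 5) (nat_lit 51152) (nat_lit 8) (node (nat_lit 4) (nat_lit 51498) (nat_lit 9)
  (node (nat_lit 9) (nat_lit 53144) (nat_lit 10) (node (nat_lit 4) (nat_lit 53144) (nat_lit 11)
  nil nil) (node (nat_lit 6) (nat_lit 52477) (nat_lit 10) (node (nat_lit 5) (nat_lit 52483)
  (nat_lit 11) nil nil) nil)) (node (nat_lit 6) (nat_lit 52470) (nat_lit 9) (node (nat_lit 4)
  (nat_lit 53322) (nat_lit 10) nil (node (nat_lit 5) (nat_lit 51494) (nat_lit 10) nil (node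
  (nat_lit 9) (nat_lit 53451) (nat_lit 10) nil nil))) (node (nat_lit 0) (nat_lit 53295) (nat_lit
  9) nil nil))) (node (nat_lit 6) (nat_lit 48811) (nat_lit 8) nil (node (nat_lit 9) (nat_lit
  52617) (nat_lit 8) nil nil))) (node (nat_lit 6) (nat_lit 48883) (nat_lit 7) (node (nat_lit 5)
  (nat_lit 51424) (nat_lit 8) (node (nat_lit 6) (nat_lit 52716) (nat_lit 9) nil (node (nat_lit 4)
  (nat_lit 52716) (nat_lit 9) nil nil)) (node (nat_lit 4) (nat_lit 50960) (nat_lit 8) nil nil))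
  (node (nat_lit 5) (nat_lit 49229) (nat_lit 7) (node (nat_lit 4) (nat_lit 50171) (nat_lit 8)
  (node (nat_lit 9) (nat_lit 52314) (nat_lit 9) nil nil) (node (nat_lit 6) (nat_lit 48791)
  (nat_lit 8) nil nil)) (node (nat_lit 0) (nat_lit 50960) (nat_lit 7) nil nil)))) (node (nat_lit
  4) (nat_lit 0) (nat_lit 6) (node (nat_lit 6) (nat_lit 0) (nat_lit 7) (node (nat_lit 5) (nat_lit
  46043) (nat_lit 8) (node (nat_lit 4) (nat_lit 46353) (nat_lit 9) (node (nat_lit 5) (nat_lit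
  42702) (nat_lit 10) (node (nat_lit 6) (nat_lit 35854) (nat_lit 11) (node (nat_lit 4) (nat_lit
  9510) (nat_lit 12) nil nil) nil) nil) nil) (node (nat_lit 4) (nat_lit 45325) (nat_lit 8) nil
  (node (nat_lit 0) (nat_lit 49195) (nat_lit 8) nil nil))) (node (nat_lit 0) (nat_lit 48995)
  (nat_lit 7) (node (nat_lit 6) (nat_lit 48995) (nat_lit 8) nil nil) nil)) nil)) nil)))

noncomputable def t337 : Tr :=
  (node (nat_lit 4) (nat_lit 0) (nat_lit 5) (node (nat_lit 7) (nat_lit 0) (nat_lit 6) (node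
  (nat_lit 6) (nat_lit 86678) (nat_lit 7) (node (nat_lit 4) (nat_lit 89388) (nat_lit 8) (node
  (nat_lit 6) (nat_lit 91614) (nat_lit 9) (node (nat_lit 5) (nat_lit 91893) (nat_lit 10) (node
  (nat_lit 4) (nat_lit 91173) (nat_lit 11) (node (nat_lit 5) (nat_lit 88928) (nat_lit 12) (node
  (nat_lit 6) (nat_lit 85842) (nat_lit 13) (node (nat_lit 7) (nat_lit 79513) (nat_lit 14) (node
  (nat_lit 4) (nat_lit 70984) (nat_lit 15) nil nil) nil) nil) (node (nat_lit 6) (nat_lit 91522)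
  (nat_lit 12) (node (nat_lit 4) (nat_lit 91839) (nat_lit 13) (node (nat_lit 5) (nat_lit 92096)
  (nat_lit 14) nil nil) nil) nil)) (node (nat_lit 6) (nat_lit 92289) (nat_lit 11) (node (nat_lit
  4) (nat_lit 90211) (nat_lit 12) (node (nat_lit 5) (nat_lit 89780) (nat_lit 13) nil nil) nil)
  nil)) (node (nat_lit 7) (nat_lit 93374) (nat_lit 10) nil nil)) (node (nat_lit 5) (nat_lit 89700)
  (nat_lit 9) (node (nat_lit 6) (nat_lit 91722) (nat_lit 10) (node (nat_lit 5) (nat_lit 91491)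
  (nat_lit 11) nil nil) (node (nat_lit 4) (nat_lit 90905) (nat_lit 10) (node (nat_lit 6) (nat_lit
  88715) (nat_lit 11) nil nil) nil)) (node (nat_lit 0) (nat_lit 92295) (nat_lit 9) nil nil)))
  (node (nat_lit 5) (nat_lit 88989) (nat_lit 8) (node (nat_lit 4) (nat_lit 91171) (nat_lit 9)
  (node (nat_lit 6) (nat_lit 90538) (nat_lit 10) nil nil) (node (nat_lit 6) (nat_lit 91872)
  (nat_lit 9) (node (nat_lit 4) (nat_lit 88375) (nat_lit 10) nil nil) nil)) (node (nat_lit 7)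
  (nat_lit 92005) (nat_lit 8) (node (nat_lit 5) (nat_lit 91389) (nat_lit 9) nil (node (nat_lit 4)
  (nat_lit 92471) (nat_lit 9) nil nil)) (node (nat_lit 0) (nat_lit 92005) (nat_lit 8) nil nil))))
  (node (nat_lit 5) (nat_lit 86538) (nat_lit 7) (node (nat_lit 4) (nat_lit 89064) (nat_lit 8)
  (node (nat_lit 6) (nat_lit 90132) (nat_lit 9) (node (nat_lit 4) (nat_lit 89493) (nat_lit 10)
  (node (nat_lit 5) (nat_lit 87215) (nat_lit 11) (node (nat_lit 6) (nat_lit 81555) (nat_lit 12)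
  nil nil) nil) (node (nat_lit 5) (nat_lit 90524) (nat_lit 10) nil nil)) (node (nat_lit 5)
  (nat_lit 89967) (nat_lit 9) (node (nat_lit 7) (nat_lit 91625) (nat_lit 10) nil (node (nat_lit 6)
  (nat_lit 91228) (nat_lit 10) nil (node (nat_lit 0) (nat_lit 91625) (nat_lit 10) nil nil))) (node
  (nat_lit 0) (nat_lit 91971) (nat_lit 9) nil nil))) (node (nat_lit 6) (nat_lit 88924) (nat_lit 8)
  (node (nat_lit 4) (nat_lit 91162) (nat_lit 9) nil (node (nat_lit 5) (nat_lit 87220) (nat_lit 9)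
  nil nil)) (node (nat_lit 7) (nat_lit 90909) (nat_lit 8) nil (node (nat_lit 0) (nat_lit 90909)
  (nat_lit 8) nil nil)))) (node (nat_lit 0) (nat_lit 89675) (nat_lit 7) (node (nat_lit 4) (nat_lit
  90583) (nat_lit 8) nil (node (nat_lit 5) (nat_lit 89675) (nat_lit 8) nil (node (nat_lit 6)
  (nat_lit 89675) (nat_lit 8) nil nil))) nil))) (node (nat_lit 6) (nat_lit 0) (nat_lit 6) (node
  (nat_lit 4) (nat_lit 86394) (nat_lit 7) (node (nat_lit 5) (nat_lit 88846) (nat_lit 8) (node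
  (nat_lit 6) (nat_lit 91109) (nat_lit 9) (node (nat_lit 5) (nat_lit 91645) (nat_lit 10) (node
  (nat_lit 4) (nat_lit 90304) (nat_lit 11) (node (nat_lit 5) (nat_lit 88341) (nat_lit 12) nil nil)
  nil) (node (nat_lit 7) (nat_lit 60193) (nat_lit 10) (node (nat_lit 4) (nat_lit 51801) (nat_lit
  11) nil nil) nil)) (node (nat_lit 4) (nat_lit 89181) (nat_lit 9) (node (nat_lit 6) (nat_lit
  86246) (nat_lit 10) nil nil) nil)) (node (nat_lit 7) (nat_lit 91391) (nat_lit 8) (node (nat_lit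
  6) (nat_lit 91391) (nat_lit 9) nil nil) (node (nat_lit 0) (nat_lit 90764) (nat_lit 8) nil nil)))
  (node (nat_lit 7) (nat_lit 0) (nat_lit 7) (node (nat_lit 6) (nat_lit 88924) (nat_lit 8) (node
  (nat_lit 4) (nat_lit 90527) (nat_lit 9) (node (nat_lit 6) (nat_lit 90718) (nat_lit 10) (node
  (nat_lit 5) (nat_lit 91344) (nat_lit 11) (node (nat_lit 4) (nat_lit 90322) (nat_lit 12) nil nil)
  nil) (node (nat_lit 7) (nat_lit 92525) (nat_lit 10) nil (node (nat_lit 5) (nat_lit 91663)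
  (nat_lit 10) nil nil))) nil) (node (nat_lit 5) (nat_lit 87869) (nat_lit 8) (node (nat_lit 4)
  (nat_lit 90108) (nat_lit 9) (node (nat_lit 6) (nat_lit 84902) (nat_lit 10) nil (node (nat_lit 5)
  (nat_lit 91243) (nat_lit 10) nil nil)) nil) (node (nat_lit 0) (nat_lit 89459) (nat_lit 8) nil
  nil))) (node (nat_lit 5) (nat_lit 78567) (nat_lit 7) (node (nat_lit 4) (nat_lit 75618) (nat_lit
  8) (node (nat_lit 5) (nat_lit 66122) (nat_lit 9) (node (nat_lit 6) (nat_lit 40333) (nat_lit 10)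
  (node (nat_lit 7) (nat_lit 40752) (nat_lit 11) nil nil) nil) (node (nat_lit 6) (nat_lit 73577)
  (nat_lit 9) (node (nat_lit 4) (nat_lit 67299) (nat_lit 10) (node (nat_lit 5) (nat_lit 64577)
  (nat_lit 11) nil nil) nil) nil)) (node (nat_lit 6) (nat_lit 81325) (nat_lit 8) (node (nat_lit 4)
  (nat_lit 80879) (nat_lit 9) (node (nat_lit 5) (nat_lit 75220) (nat_lit 10) (node (nat_lit 6)
  (nat_lit 60922) (nat_lit 11) nil nil) nil) (node (nat_lit 7) (nat_lit 84232) (nat_lit 9) nil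
  nil)) (node (nat_lit 7) (nat_lit 82938) (nat_lit 8) nil nil))) (node (nat_lit 0) (nat_lit 87459)
  (nat_lit 7) nil nil)))) (node (nat_lit 5) (nat_lit 0) (nat_lit 6) (node (nat_lit 6) (nat_lit
  86276) (nat_lit 7) (node (nat_lit 4) (nat_lit 88525) (nat_lit 8) (node (nat_lit 6) (nat_lit
  87615) (nat_lit 9) nil (node (nat_lit 5) (nat_lit 89790) (nat_lit 9) (node (nat_lit 4) (nat_lit
  88772) (nat_lit 10) nil nil) nil)) (node (nat_lit 5) (nat_lit 83516) (nat_lit 8) (node (nat_lit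
  4) (nat_lit 84149) (nat_lit 9) (node (nat_lit 6) (nat_lit 83272) (nat_lit 10) nil (node (nat_lit
  5) (nat_lit 76147) (nat_lit 10) nil nil)) nil) nil)) (node (nat_lit 4) (nat_lit 84702) (nat_lit
  7) (node (nat_lit 6) (nat_lit 85768) (nat_lit 8) (node (nat_lit 5) (nat_lit 85762) (nat_lit 9)
  (node (nat_lit 6) (nat_lit 85953) (nat_lit 10) (node (nat_lit 4) (nat_lit 85605) (nat_lit 11)
  nil nil) (node (nat_lit 4) (nat_lit 84601) (nat_lit 10) nil nil)) (node (nat_lit 4) (nat_lit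
  84160) (nat_lit 9) (node (nat_lit 5) (nat_lit 78904) (nat_lit 10) (node (nat_lit 6) (nat_lit
  73674) (nat_lit 11) nil nil) nil) nil)) (node (nat_lit 7) (nat_lit 89073) (nat_lit 8) nil nil))
  (node (nat_lit 7) (nat_lit 89267) (nat_lit 7) (node (nat_lit 5) (nat_lit 88894) (nat_lit 8)
  (node (nat_lit 4) (nat_lit 88900) (nat_lit 9) (node (nat_lit 5) (nat_lit 90036) (nat_lit 10) nil
  nil) nil) (node (nat_lit 6) (nat_lit 88069) (nat_lit 8) nil (node (nat_lit 4) (nat_lit 89267)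
  (nat_lit 8) nil nil))) (node (nat_lit 0) (nat_lit 88638) (nat_lit 7) nil nil)))) (node (nat_lit
  0) (nat_lit 82952) (nat_lit 6) (node (nat_lit 4) (nat_lit 84724) (nat_lit 7) (node (nat_lit 6)
  (nat_lit 83724) (nat_lit 8) nil nil) (node (nat_lit 6) (nat_lit 82841) (nat_lit 7) (node
  (nat_lit 4) (nat_lit 85439) (nat_lit 8) nil nil) (node (nat_lit 5) (nat_lit 80075) (nat_lit 7)
  nil (node (nat_lit 7) (nat_lit 85550) (nat_lit 7) nil nil)))) nil)))) (node (nat_lit 5) (nat_lit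
  0) (nat_lit 5) (node (nat_lit 7) (nat_lit 0) (nat_lit 6) (node (nat_lit 6) (nat_lit 79034)
  (nat_lit 7) (node (nat_lit 5) (nat_lit 82793) (nat_lit 8) (node (nat_lit 6) (nat_lit 84778)
  (nat_lit 9) (node (nat_lit 4) (nat_lit 87815) (nat_lit 10) (node (nat_lit 5) (nat_lit 83769)
  (nat_lit 11) (node (nat_lit 6) (nat_lit 83230) (nat_lit 12) (node (nat_lit 7) (nat_lit 72558)
  (nat_lit 13) (node (nat_lit 5) (nat_lit 71860) (nat_lit 14) (node (nat_lit 7) (nat_lit 72421)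
  (nat_lit 15) (node (nat_lit 6) (nat_lit 72505) (nat_lit 16) nil nil) nil) nil) nil) (node
  (nat_lit 4) (nat_lit 82764) (nat_lit 12) nil nil)) (node (nat_lit 6) (nat_lit 87844) (nat_lit
  11) (node (nat_lit 5) (nat_lit 86839) (nat_lit 12) nil nil) nil)) (node (nat_lit 7) (nat_lit
  87000) (nat_lit 10) (node (nat_lit 5) (nat_lit 86605) (nat_lit 11) (node (nat_lit 7) (nat_lit
  87390) (nat_lit 12) nil nil) (node (nat_lit 6) (nat_lit 87000) (nat_lit 11) nil nil)) (node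
  (nat_lit 0) (nat_lit 87024) (nat_lit 10) nil nil))) (node (nat_lit 4) (nat_lit 87484) (nat_lit
  9) (node (nat_lit 6) (nat_lit 88507) (nat_lit 10) (node (nat_lit 5) (nat_lit 87928) (nat_lit 11)
  (node (nat_lit 6) (nat_lit 85958) (nat_lit 12) nil nil) (node (nat_lit 4) (nat_lit 86440)
  (nat_lit 11) (node (nat_lit 5) (nat_lit 86748) (nat_lit 12) (node (nat_lit 6) (nat_lit 76485)
  (nat_lit 13) nil nil) nil) nil)) (node (nat_lit 5) (nat_lit 88503) (nat_lit 10) nil nil)) (node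
  (nat_lit 0) (nat_lit 86446) (nat_lit 9) nil nil))) (node (nat_lit 7) (nat_lit 84650) (nat_lit 8)
  (node (nat_lit 5) (nat_lit 87291) (nat_lit 9) (node (nat_lit 6) (nat_lit 90624) (nat_lit 10) nil
  (node (nat_lit 4) (nat_lit 87032) (nat_lit 10) nil nil)) (node (nat_lit 4) (nat_lit 89892)
  (nat_lit 9) (node (nat_lit 6) (nat_lit 90497) (nat_lit 10) nil (node (nat_lit 5) (nat_lit 91028)
  (nat_lit 10) nil nil)) (node (nat_lit 0) (nat_lit 86532) (nat_lit 9) nil nil))) (node (nat_lit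
  4) (nat_lit 87036) (nat_lit 8) (node (nat_lit 5) (nat_lit 89671) (nat_lit 9) nil (node (nat_lit
  6) (nat_lit 89658) (nat_lit 9) (node (nat_lit 5) (nat_lit 87554) (nat_lit 10) nil nil) nil))
  (node (nat_lit 0) (nat_lit 90433) (nat_lit 8) nil nil)))) (node (nat_lit 4) (nat_lit 87076)
  (nat_lit 7) (node (nat_lit 5) (nat_lit 88822) (nat_lit 8) (node (nat_lit 4) (nat_lit 89730)
  (nat_lit 9) (node (nat_lit 6) (nat_lit 89986) (nat_lit 10) (node (nat_lit 5) (nat_lit 90218)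
  (nat_lit 11) (node (nat_lit 6) (nat_lit 90635) (nat_lit 12) nil nil) nil) (node (nat_lit 7)
  (nat_lit 91441) (nat_lit 10) nil nil)) (node (nat_lit 6) (nat_lit 90367) (nat_lit 9) (node
  (nat_lit 5) (nat_lit 90418) (nat_lit 10) (node (nat_lit 4) (nat_lit 88596) (nat_lit 11) nil nil)
  (node (nat_lit 4) (nat_lit 91503) (nat_lit 10) nil nil)) nil)) (node (nat_lit 6) (nat_lit 88021)
  (nat_lit 8) (node (nat_lit 5) (nat_lit 88067) (nat_lit 9) (node (nat_lit 4) (nat_lit 81561)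
  (nat_lit 10) nil nil) (node (nat_lit 4) (nat_lit 89793) (nat_lit 9) nil nil)) (node (nat_lit 7)
  (nat_lit 91447) (nat_lit 8) nil (node (nat_lit 0) (nat_lit 91447) (nat_lit 8) nil nil)))) (node
  (nat_lit 0) (nat_lit 89210) (nat_lit 7) (node (nat_lit 5) (nat_lit 88288) (nat_lit 8) nil (node
  (nat_lit 4) (nat_lit 89210) (nat_lit 8) nil (node (nat_lit 6) (nat_lit 89210) (nat_lit 8) nil
  (node (nat_lit 7) (nat_lit 90982) (nat_lit 8) nil nil)))) nil))) (node (nat_lit 4) (nat_lit 0)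
  (nat_lit 6) (node (nat_lit 6) (nat_lit 81770) (nat_lit 7) (node (nat_lit 5) (nat_lit 84435)
  (nat_lit 8) (node (nat_lit 4) (nat_lit 82754) (nat_lit 9) (node (nat_lit 5) (nat_lit 78613)
  (nat_lit 10) (node (nat_lit 6) (nat_lit 70559) (nat_lit 11) (node (nat_lit 7) (nat_lit 37510)
  (nat_lit 12) nil nil) nil) nil) (node (nat_lit 6) (nat_lit 85584) (nat_lit 9) (node (nat_lit 4)
  (nat_lit 81218) (nat_lit 10) nil nil) nil)) (node (nat_lit 4) (nat_lit 75451) (nat_lit 8) (node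
  (nat_lit 5) (nat_lit 73778) (nat_lit 9) (node (nat_lit 6) (nat_lit 58779) (nat_lit 10) nil nil)
  nil) (node (nat_lit 7) (nat_lit 87276) (nat_lit 8) nil nil))) (node (nat_lit 5) (nat_lit 83994)
  (nat_lit 7) (node (nat_lit 6) (nat_lit 86967) (nat_lit 8) (node (nat_lit 4) (nat_lit 88544)
  (nat_lit 9) (node (nat_lit 6) (nat_lit 89101) (nat_lit 10) (node (nat_lit 5) (nat_lit 87542)
  (nat_lit 11) nil nil) nil) (node (nat_lit 7) (nat_lit 38971) (nat_lit 9) nil (node (nat_lit 5)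
  (nat_lit 87149) (nat_lit 9) nil nil))) (node (nat_lit 7) (nat_lit 88365) (nat_lit 8) nil nil))
  (node (nat_lit 7) (nat_lit 89145) (nat_lit 7) (node (nat_lit 4) (nat_lit 89322) (nat_lit 8)
  (node (nat_lit 5) (nat_lit 90386) (nat_lit 9) (node (nat_lit 4) (nat_lit 89368) (nat_lit 10) nil
  nil) nil) (node (nat_lit 6) (nat_lit 88127) (nat_lit 8) nil (node (nat_lit 5) (nat_lit 89145)
  (nat_lit 8) nil nil))) (node (nat_lit 0) (nat_lit 88341) (nat_lit 7) nil nil)))) (node (nat_lit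
  6) (nat_lit 0) (nat_lit 6) (node (nat_lit 5) (nat_lit 75563) (nat_lit 7) (node (nat_lit 4)
  (nat_lit 78307) (nat_lit 8) (node (nat_lit 6) (nat_lit 80018) (nat_lit 9) (node (nat_lit 4)
  (nat_lit 79025) (nat_lit 10) (node (nat_lit 5) (nat_lit 78440) (nat_lit 11) (node (nat_lit 6)
  (nat_lit 61959) (nat_lit 12) (node (nat_lit 7) (nat_lit 53675) (nat_lit 13) (node (nat_lit 5)
  (nat_lit 53530) (nat_lit 14) (node (nat_lit 6) (nat_lit 53450) (nat_lit 15) nil nil) nil) nil)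
  nil) nil) (node (nat_lit 5) (nat_lit 79000) (nat_lit 10) nil nil)) (node (nat_lit 5) (nat_lit
  68772) (nat_lit 9) (node (nat_lit 6) (nat_lit 64146) (nat_lit 10) (node (nat_lit 7) (nat_lit
  39835) (nat_lit 11) nil nil) nil) nil)) (node (nat_lit 7) (nat_lit 81351) (nat_lit 8) (node
  (nat_lit 6) (nat_lit 80478) (nat_lit 9) nil (node (nat_lit 5) (nat_lit 81351) (nat_lit 9) nil
  nil)) (node (nat_lit 0) (nat_lit 81069) (nat_lit 8) nil nil))) (node (nat_lit 4) (nat_lit 84288)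
  (nat_lit 7) (node (nat_lit 5) (nat_lit 87018) (nat_lit 8) (node (nat_lit 4) (nat_lit 87075)
  (nat_lit 9) (node (nat_lit 6) (nat_lit 84141) (nat_lit 10) nil nil) (node (nat_lit 6) (nat_lit
  89282) (nat_lit 9) (node (nat_lit 7) (nat_lit 67584) (nat_lit 10) nil nil) nil)) (node (nat_lit
  6) (nat_lit 87735) (nat_lit 8) (node (nat_lit 5) (nat_lit 87760) (nat_lit 9) (node (nat_lit 6)
  (nat_lit 84732) (nat_lit 10) nil (node (nat_lit 4) (nat_lit 85030) (nat_lit 10) nil nil)) (node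
  (nat_lit 7) (nat_lit 90643) (nat_lit 9) nil nil)) (node (nat_lit 7) (nat_lit 88659) (nat_lit 8)
  nil nil))) (node (nat_lit 0) (nat_lit 85490) (nat_lit 7) nil nil))) (node (nat_lit 0) (nat_lit
  82468) (nat_lit 6) (node (nat_lit 5) (nat_lit 79591) (nat_lit 7) (node (nat_lit 6) (nat_lit
  78591) (nat_lit 8) nil nil) (node (nat_lit 6) (nat_lit 82148) (nat_lit 7) (node (nat_lit 5)
  (nat_lit 80971) (nat_lit 8) nil nil) (node (nat_lit 4) (nat_lit 82272) (nat_lit 7) nil (node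
  (nat_lit 7) (nat_lit 85066) (nat_lit 7) nil nil)))) nil)))) (node (nat_lit 0) (nat_lit 0)
  (nat_lit 5) (node (nat_lit 7) (nat_lit 0) (nat_lit 6) (node (nat_lit 6) (nat_lit 84978) (nat_lit
  7) (node (nat_lit 8) (nat_lit 90968) (nat_lit 8) (node (nat_lit 7) (nat_lit 92850) (nat_lit 9)
  nil (node (nat_lit 6) (nat_lit 90890) (nat_lit 9) (node (nat_lit 5) (nat_lit 89755) (nat_lit 10)
  nil (node (nat_lit 4) (nat_lit 91909) (nat_lit 10) nil (node (nat_lit 7) (nat_lit 92375)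
  (nat_lit 10) nil nil))) (node (nat_lit 4) (nat_lit 90968) (nat_lit 9) nil (node (nat_lit 5)
  (nat_lit 90968) (nat_lit 9) nil (node (nat_lit 0) (nat_lit 91988) (nat_lit 9) nil nil))))) (node
  (nat_lit 7) (nat_lit 89349) (nat_lit 8) nil (node (nat_lit 5) (nat_lit 88441) (nat_lit 8) nil
  (node (nat_lit 4) (nat_lit 88713) (nat_lit 8) nil (node (nat_lit 0) (nat_lit 89349) (nat_lit 8)
  nil nil))))) (node (nat_lit 4) (nat_lit 86776) (nat_lit 7) (node (nat_lit 8) (nat_lit 92282)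
  (nat_lit 8) nil (node (nat_lit 6) (nat_lit 87770) (nat_lit 8) (node (nat_lit 4) (nat_lit 89542)
  (nat_lit 9) nil nil) (node (nat_lit 5) (nat_lit 89077) (nat_lit 8) nil (node (nat_lit 7)
  (nat_lit 91146) (nat_lit 8) nil (node (nat_lit 0) (nat_lit 91146) (nat_lit 8) nil nil))))) (node
  (nat_lit 5) (nat_lit 85771) (nat_lit 7) (node (nat_lit 8) (nat_lit 91277) (nat_lit 8) nil (node
  (nat_lit 6) (nat_lit 88501) (nat_lit 8) (node (nat_lit 5) (nat_lit 85417) (nat_lit 9) nil nil)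
  (node (nat_lit 4) (nat_lit 87532) (nat_lit 8) nil (node (nat_lit 7) (nat_lit 90142) (nat_lit 8)
  nil (node (nat_lit 0) (nat_lit 90142) (nat_lit 8) nil nil))))) (node (nat_lit 0) (nat_lit 88462)
  (nat_lit 7) (node (nat_lit 7) (nat_lit 90234) (nat_lit 8) nil (node (nat_lit 8) (nat_lit 91370)
  (nat_lit 8) nil (node (nat_lit 6) (nat_lit 88462) (nat_lit 8) nil nil))) nil)))) (node (nat_lit
  6) (nat_lit 0) (nat_lit 6) (node (nat_lit 8) (nat_lit 87947) (nat_lit 7) (node (nat_lit 7)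
  (nat_lit 90855) (nat_lit 8) (node (nat_lit 8) (nat_lit 92736) (nat_lit 9) (node (nat_lit 6)
  (nat_lit 92736) (nat_lit 10) nil nil) (node (nat_lit 6) (nat_lit 89982) (nat_lit 9) nil nil))
  (node (nat_lit 4) (nat_lit 89083) (nat_lit 8) nil (node (nat_lit 5) (nat_lit 87025) (nat_lit 8)
  nil (node (nat_lit 0) (nat_lit 90855) (nat_lit 8) nil nil)))) (node (nat_lit 5) (nat_lit 83403)
  (nat_lit 7) (node (nat_lit 6) (nat_lit 81102) (nat_lit 8) nil (node (nat_lit 4) (nat_lit 82227)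
  (nat_lit 8) nil (node (nat_lit 7) (nat_lit 87774) (nat_lit 8) nil nil))) (node (nat_lit 4)
  (nat_lit 83088) (nat_lit 7) (node (nat_lit 6) (nat_lit 84189) (nat_lit 8) nil (node (nat_lit 5)
  (nat_lit 85687) (nat_lit 8) nil (node (nat_lit 7) (nat_lit 87459) (nat_lit 8) nil nil))) (node
  (nat_lit 7) (nat_lit 87654) (nat_lit 7) (node (nat_lit 6) (nat_lit 87654) (nat_lit 8) nil nil)
  (node (nat_lit 0) (nat_lit 87947) (nat_lit 7) nil nil))))) (node (nat_lit 5) (nat_lit 0)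
  (nat_lit 6) (node (nat_lit 4) (nat_lit 83189) (nat_lit 7) (node (nat_lit 6) (nat_lit 72997)
  (nat_lit 8) (node (nat_lit 4) (nat_lit 72232) (nat_lit 9) (node (nat_lit 5) (nat_lit 66976)
  (nat_lit 10) nil nil) nil) (node (nat_lit 5) (nat_lit 85788) (nat_lit 8) nil nil)) (node
  (nat_lit 6) (nat_lit 81672) (nat_lit 7) (node (nat_lit 5) (nat_lit 80757) (nat_lit 8) nil (node
  (nat_lit 4) (nat_lit 84270) (nat_lit 8) nil nil)) (node (nat_lit 8) (nat_lit 85574) (nat_lit 7)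
  nil (node (nat_lit 7) (nat_lit 85574) (nat_lit 7) nil (node (nat_lit 0) (nat_lit 85574) (nat_lit
  7) nil nil))))) (node (nat_lit 4) (nat_lit 0) (nat_lit 6) (node (nat_lit 6) (nat_lit 85954)
  (nat_lit 7) (node (nat_lit 4) (nat_lit 89179) (nat_lit 8) nil (node (nat_lit 5) (nat_lit 77197)
  (nat_lit 8) nil nil)) (node (nat_lit 5) (nat_lit 85415) (nat_lit 7) (node (nat_lit 6) (nat_lit
  84415) (nat_lit 8) nil (node (nat_lit 4) (nat_lit 84239) (nat_lit 8) nil nil)) (node (nat_lit 8)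
  (nat_lit 87680) (nat_lit 7) nil (node (nat_lit 7) (nat_lit 87680) (nat_lit 7) nil (node (nat_lit
  0) (nat_lit 87680) (nat_lit 7) nil nil))))) (node (nat_lit 0) (nat_lit 83753) (nat_lit 6) (node
  (nat_lit 8) (nat_lit 88123) (nat_lit 7) nil (node (nat_lit 7) (nat_lit 88949) (nat_lit 7) nil
  (node (nat_lit 6) (nat_lit 83753) (nat_lit 7) nil (node (nat_lit 5) (nat_lit 83753) (nat_lit 7)
  nil (node (nat_lit 4) (nat_lit 83753) (nat_lit 7) nil nil))))) nil))))) (node (nat_lit 6)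
  (nat_lit 0) (nat_lit 5) (node (nat_lit 5) (nat_lit 0) (nat_lit 6) (node (nat_lit 6) (nat_lit
  74105) (nat_lit 7) (node (nat_lit 7) (nat_lit 79001) (nat_lit 8) (node (nat_lit 5) (nat_lit
  80192) (nat_lit 9) (node (nat_lit 6) (nat_lit 81933) (nat_lit 10) (node (nat_lit 5) (nat_lit
  82109) (nat_lit 11) nil nil) (node (nat_lit 7) (nat_lit 82134) (nat_lit 10) nil (node (nat_lit
  4) (nat_lit 79173) (nat_lit 10) nil nil))) (node (nat_lit 4) (nat_lit 79397) (nat_lit 9) nil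
  (node (nat_lit 0) (nat_lit 80020) (nat_lit 9) nil nil))) (node (nat_lit 4) (nat_lit 80262)
  (nat_lit 8) (node (nat_lit 5) (nat_lit 70857) (nat_lit 9) (node (nat_lit 6) (nat_lit 70096)
  (nat_lit 10) (node (nat_lit 7) (nat_lit 72035) (nat_lit 11) nil nil) nil) (node (nat_lit 6)
  (nat_lit 79352) (nat_lit 9) nil nil)) nil)) (node (nat_lit 4) (nat_lit 85462) (nat_lit 7) (node
  (nat_lit 6) (nat_lit 87868) (nat_lit 8) (node (nat_lit 5) (nat_lit 88248) (nat_lit 9) (node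
  (nat_lit 6) (nat_lit 88671) (nat_lit 10) (node (nat_lit 4) (nat_lit 88736) (nat_lit 11) nil nil)
  nil) (node (nat_lit 4) (nat_lit 84221) (nat_lit 9) (node (nat_lit 5) (nat_lit 80404) (nat_lit
  10) (node (nat_lit 6) (nat_lit 69496) (nat_lit 11) nil nil) nil) nil)) (node (nat_lit 5)
  (nat_lit 87859) (nat_lit 8) (node (nat_lit 6) (nat_lit 89617) (nat_lit 9) (node (nat_lit 7)
  (nat_lit 39003) (nat_lit 10) nil nil) nil) nil)) (node (nat_lit 7) (nat_lit 81100) (nat_lit 7)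
  (node (nat_lit 5) (nat_lit 81100) (nat_lit 8) nil nil) (node (nat_lit 0) (nat_lit 81100)
  (nat_lit 7) nil nil)))) (node (nat_lit 4) (nat_lit 0) (nat_lit 6) (node (nat_lit 5) (nat_lit
  85105) (nat_lit 7) (node (nat_lit 6) (nat_lit 88722) (nat_lit 8) (node (nat_lit 4) (nat_lit
  90494) (nat_lit 9) nil (node (nat_lit 5) (nat_lit 88904) (nat_lit 9) (node (nat_lit 4) (nat_lit
  86304) (nat_lit 10) nil nil) (node (nat_lit 7) (nat_lit 51830) (nat_lit 9) nil nil))) (node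
  (nat_lit 4) (nat_lit 87210) (nat_lit 8) (node (nat_lit 6) (nat_lit 87700) (nat_lit 9) (node
  (nat_lit 5) (nat_lit 82518) (nat_lit 10) nil nil) nil) nil)) (node (nat_lit 6) (nat_lit 86337)
  (nat_lit 7) (node (nat_lit 5) (nat_lit 86785) (nat_lit 8) (node (nat_lit 4) (nat_lit 83185)
  (nat_lit 9) (node (nat_lit 5) (nat_lit 70686) (nat_lit 10) (node (nat_lit 6) (nat_lit 45931)
  (nat_lit 11) nil nil) nil) (node (nat_lit 6) (nat_lit 89555) (nat_lit 9) nil nil)) (node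
  (nat_lit 7) (nat_lit 90708) (nat_lit 8) nil nil)) (node (nat_lit 7) (nat_lit 89096) (nat_lit 7)
  (node (nat_lit 4) (nat_lit 89096) (nat_lit 8) nil nil) (node (nat_lit 0) (nat_lit 89096)
  (nat_lit 7) nil nil)))) (node (nat_lit 0) (nat_lit 0) (nat_lit 6) (node (nat_lit 6) (nat_lit
  86306) (nat_lit 7) (node (nat_lit 7) (nat_lit 90677) (nat_lit 8) nil (node (nat_lit 5) (nat_lit
  84208) (nat_lit 8) nil (node (nat_lit 4) (nat_lit 89821) (nat_lit 8) nil (node (nat_lit 0)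
  (nat_lit 90677) (nat_lit 8) nil nil)))) (node (nat_lit 4) (nat_lit 84123) (nat_lit 7) (node
  (nat_lit 6) (nat_lit 83123) (nat_lit 8) nil nil) (node (nat_lit 5) (nat_lit 82281) (nat_lit 7)
  (node (nat_lit 6) (nat_lit 81281) (nat_lit 8) nil (node (nat_lit 9) (nat_lit 86652) (nat_lit 8)
  nil nil)) (node (nat_lit 7) (nat_lit 88577) (nat_lit 7) nil (node (nat_lit 0) (nat_lit 88577)
  (nat_lit 7) nil nil))))) nil))) nil))))

noncomputable def t338 : Tr :=
  (node (nat_lit 0) (nat_lit 0) (nat_lit 5) (node (nat_lit 5) (nat_lit 0) (nat_lit 6) (node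
  (nat_lit 6) (nat_lit 49302) (nat_lit 7) (node (nat_lit 8) (nat_lit 57221) (nat_lit 8) (node
  (nat_lit 5) (nat_lit 61623) (nat_lit 9) (node (nat_lit 8) (nat_lit 66339) (nat_lit 10) (node
  (nat_lit 6) (nat_lit 67857) (nat_lit 11) (node (nat_lit 5) (nat_lit 68221) (nat_lit 12) (node
  (nat_lit 6) (nat_lit 69086) (nat_lit 13) nil nil) (node (nat_lit 8) (nat_lit 69307) (nat_lit 12)
  nil (node (nat_lit 4) (nat_lit 68618) (nat_lit 12) nil nil))) (node (nat_lit 4) (nat_lit 68140)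
  (nat_lit 11) (node (nat_lit 5) (nat_lit 68900) (nat_lit 12) nil (node (nat_lit 6) (nat_lit
  67547) (nat_lit 12) nil nil)) (node (nat_lit 0) (nat_lit 68150) (nat_lit 11) nil nil))) (node
  (nat_lit 4) (nat_lit 67487) (nat_lit 10) (node (nat_lit 6) (nat_lit 68902) (nat_lit 11) (node
  (nat_lit 4) (nat_lit 68940) (nat_lit 12) (node (nat_lit 5) (nat_lit 68732) (nat_lit 13) (node
  (nat_lit 6) (nat_lit 67347) (nat_lit 14) (node (nat_lit 5) (nat_lit 63018) (nat_lit 15) (node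
  (nat_lit 8) (nat_lit 57102) (nat_lit 16) nil nil) nil) nil) nil) (node (nat_lit 5) (nat_lit
  66027) (nat_lit 12) nil nil)) (node (nat_lit 5) (nat_lit 69613) (nat_lit 11) (node (nat_lit 6)
  (nat_lit 69271) (nat_lit 12) nil nil) (node (nat_lit 8) (nat_lit 69111) (nat_lit 11) nil (node
  (nat_lit 0) (nat_lit 69111) (nat_lit 11) nil nil)))) (node (nat_lit 0) (nat_lit 67451) (nat_lit
  10) (node (nat_lit 5) (nat_lit 67332) (nat_lit 11) (node (nat_lit 6) (nat_lit 66739) (nat_lit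
  12) nil (node (nat_lit 4) (nat_lit 66675) (nat_lit 12) nil nil)) (node (nat_lit 4) (nat_lit
  67451) (nat_lit 11) nil (node (nat_lit 8) (nat_lit 68211) (nat_lit 11) nil (node (nat_lit 6)
  (nat_lit 67451) (nat_lit 11) nil nil)))) nil))) (node (nat_lit 6) (nat_lit 60895) (nat_lit 9)
  (node (nat_lit 5) (nat_lit 64462) (nat_lit 10) (node (nat_lit 8) (nat_lit 66775) (nat_lit 11)
  nil (node (nat_lit 4) (nat_lit 64640) (nat_lit 11) nil nil)) (node (nat_lit 4) (nat_lit 65493)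
  (nat_lit 10) (node (nat_lit 8) (nat_lit 67117) (nat_lit 11) nil nil) (node (nat_lit 0) (nat_lit
  63654) (nat_lit 10) nil nil))) (node (nat_lit 4) (nat_lit 65143) (nat_lit 9) (node (nat_lit 6)
  (nat_lit 67698) (nat_lit 10) nil (node (nat_lit 8) (nat_lit 67141) (nat_lit 10) nil (node
  (nat_lit 5) (nat_lit 64626) (nat_lit 10) nil nil))) (node (nat_lit 0) (nat_lit 65122) (nat_lit
  9) (node (nat_lit 5) (nat_lit 65122) (nat_lit 10) nil nil) nil)))) (node (nat_lit 4) (nat_lit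
  63283) (nat_lit 8) (node (nat_lit 5) (nat_lit 66616) (nat_lit 9) (node (nat_lit 6) (nat_lit
  68822) (nat_lit 10) (node (nat_lit 5) (nat_lit 66744) (nat_lit 11) (node (nat_lit 8) (nat_lit
  44385) (nat_lit 12) nil nil) nil) (node (nat_lit 4) (nat_lit 67103) (nat_lit 10) (node (nat_lit
  6) (nat_lit 65300) (nat_lit 11) nil nil) nil)) (node (nat_lit 6) (nat_lit 66616) (nat_lit 9)
  (node (nat_lit 5) (nat_lit 62115) (nat_lit 10) (node (nat_lit 4) (nat_lit 60495) (nat_lit 11)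
  (node (nat_lit 5) (nat_lit 58012) (nat_lit 12) (node (nat_lit 6) (nat_lit 55301) (nat_lit 13)
  nil nil) nil) nil) (node (nat_lit 8) (nat_lit 68614) (nat_lit 10) nil nil)) (node (nat_lit 8)
  (nat_lit 66595) (nat_lit 9) (node (nat_lit 6) (nat_lit 66595) (nat_lit 10) nil (node (nat_lit 4)
  (nat_lit 66595) (nat_lit 10) nil nil)) (node (nat_lit 0) (nat_lit 67298) (nat_lit 9) nil nil))))
  (node (nat_lit 0) (nat_lit 64277) (nat_lit 8) (node (nat_lit 5) (nat_lit 65816) (nat_lit 9)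
  (node (nat_lit 6) (nat_lit 65704) (nat_lit 10) nil (node (nat_lit 11) (nat_lit 67814) (nat_lit
  10) nil nil)) (node (nat_lit 6) (nat_lit 65994) (nat_lit 9) (node (nat_lit 5) (nat_lit 64434)
  (nat_lit 10) nil nil) (node (nat_lit 4) (nat_lit 65956) (nat_lit 9) nil (node (nat_lit 8)
  (nat_lit 66928) (nat_lit 9) nil (node (nat_lit 0) (nat_lit 66639) (nat_lit 9) nil nil))))) (node
  (nat_lit 5) (nat_lit 55439) (nat_lit 8) (node (nat_lit 4) (nat_lit 61870) (nat_lit 9) (node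
  (nat_lit 5) (nat_lit 62437) (nat_lit 10) (node (nat_lit 6) (nat_lit 58728) (nat_lit 11) (node
  (nat_lit 5) (nat_lit 36580) (nat_lit 12) nil nil) nil) nil) (node (nat_lit 0) (nat_lit 59209)
  (nat_lit 9) nil nil)) nil)))) (node (nat_lit 4) (nat_lit 57822) (nat_lit 7) (node (nat_lit 6)
  (nat_lit 62993) (nat_lit 8) (node (nat_lit 5) (nat_lit 65938) (nat_lit 9) (node (nat_lit 4)
  (nat_lit 62410) (nat_lit 10) (node (nat_lit 5) (nat_lit 52796) (nat_lit 11) (node (nat_lit 6)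
  (nat_lit 40752) (nat_lit 12) (node (nat_lit 5) (nat_lit 40752) (nat_lit 13) (node (nat_lit 8)
  (nat_lit 40752) (nat_lit 14) (node (nat_lit 5) (nat_lit 40752) (nat_lit 15) nil nil) nil) nil)
  nil) nil) (node (nat_lit 6) (nat_lit 67984) (nat_lit 10) (node (nat_lit 4) (nat_lit 68380)
  (nat_lit 11) (node (nat_lit 5) (nat_lit 63515) (nat_lit 12) (node (nat_lit 6) (nat_lit 59483)
  (nat_lit 13) nil nil) nil) nil) (node (nat_lit 8) (nat_lit 67936) (nat_lit 10) nil nil))) (node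
  (nat_lit 4) (nat_lit 62562) (nat_lit 9) (node (nat_lit 5) (nat_lit 55243) (nat_lit 10) (node
  (nat_lit 6) (nat_lit 52072) (nat_lit 11) (node (nat_lit 5) (nat_lit 36658) (nat_lit 12) (node
  (nat_lit 8) (nat_lit 38143) (nat_lit 13) nil (node (nat_lit 4) (nat_lit 35976) (nat_lit 13) nil
  nil)) nil) nil) (node (nat_lit 8) (nat_lit 65718) (nat_lit 10) nil nil)) (node (nat_lit 8)
  (nat_lit 66564) (nat_lit 9) (node (nat_lit 4) (nat_lit 66265) (nat_lit 10) nil (node (nat_lit 6)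
  (nat_lit 66564) (nat_lit 10) nil nil)) (node (nat_lit 0) (nat_lit 67445) (nat_lit 9) nil nil))))
  (node (nat_lit 8) (nat_lit 65467) (nat_lit 8) (node (nat_lit 4) (nat_lit 66839) (nat_lit 9)
  (node (nat_lit 5) (nat_lit 68778) (nat_lit 10) (node (nat_lit 8) (nat_lit 69591) (nat_lit 11)
  nil (node (nat_lit 4) (nat_lit 67906) (nat_lit 11) nil nil)) (node (nat_lit 6) (nat_lit 67699)
  (nat_lit 10) nil (node (nat_lit 0) (nat_lit 68507) (nat_lit 10) nil nil))) (node (nat_lit 5)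
  (nat_lit 66839) (nat_lit 9) (node (nat_lit 8) (nat_lit 68906) (nat_lit 10) (node (nat_lit 4)
  (nat_lit 68906) (nat_lit 11) nil nil) (node (nat_lit 6) (nat_lit 68634) (nat_lit 10) nil (node
  (nat_lit 0) (nat_lit 68507) (nat_lit 10) nil nil))) (node (nat_lit 6) (nat_lit 66839) (nat_lit
  9) (node (nat_lit 4) (nat_lit 68771) (nat_lit 10) nil (node (nat_lit 8) (nat_lit 68507) (nat_lit
  10) nil (node (nat_lit 5) (nat_lit 66288) (nat_lit 10) nil nil))) (node (nat_lit 0) (nat_lit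
  66888) (nat_lit 9) nil nil)))) (node (nat_lit 5) (nat_lit 63695) (nat_lit 8) (node (nat_lit 8)
  (nat_lit 67983) (nat_lit 9) (node (nat_lit 4) (nat_lit 68841) (nat_lit 10) (node (nat_lit 8)
  (nat_lit 69586) (nat_lit 11) (node (nat_lit 5) (nat_lit 69586) (nat_lit 12) nil nil) (node
  (nat_lit 5) (nat_lit 69237) (nat_lit 11) nil nil)) (node (nat_lit 6) (nat_lit 67983) (nat_lit
  10) nil nil)) (node (nat_lit 6) (nat_lit 66745) (nat_lit 9) (node (nat_lit 5) (nat_lit 64399)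
  (nat_lit 10) (node (nat_lit 8) (nat_lit 40752) (nat_lit 11) nil (node (nat_lit 4) (nat_lit
  62778) (nat_lit 11) nil nil)) (node (nat_lit 4) (nat_lit 67880) (nat_lit 10) nil (node (nat_lit
  8) (nat_lit 68413) (nat_lit 10) nil nil))) (node (nat_lit 0) (nat_lit 67522) (nat_lit 9) nil
  nil))) (node (nat_lit 0) (nat_lit 65068) (nat_lit 8) (node (nat_lit 5) (nat_lit 65378) (nat_lit
  9) (node (nat_lit 4) (nat_lit 64360) (nat_lit 10) nil (node (nat_lit 11) (nat_lit 67376)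
  (nat_lit 10) nil nil)) (node (nat_lit 4) (nat_lit 66439) (nat_lit 9) (node (nat_lit 5) (nat_lit
  66499) (nat_lit 10) nil nil) (node (nat_lit 6) (nat_lit 64712) (nat_lit 9) nil (node (nat_lit 8)
  (nat_lit 67107) (nat_lit 9) nil (node (nat_lit 0) (nat_lit 67107) (nat_lit 9) nil nil)))))
  nil)))) (node (nat_lit 0) (nat_lit 60478) (nat_lit 7) (node (nat_lit 8) (nat_lit 65573) (nat_lit
  8) (node (nat_lit 5) (nat_lit 66945) (nat_lit 9) (node (nat_lit 8) (nat_lit 68975) (nat_lit 10)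
  (node (nat_lit 10) (nat_lit 69324) (nat_lit 11) nil nil) (node (nat_lit 6) (nat_lit 68841)
  (nat_lit 10) (node (nat_lit 5) (nat_lit 66344) (nat_lit 11) nil nil) (node (nat_lit 4) (nat_lit
  68846) (nat_lit 10) (node (nat_lit 6) (nat_lit 65319) (nat_lit 11) nil nil) (node (nat_lit 0)
  (nat_lit 68577) (nat_lit 10) nil nil)))) (node (nat_lit 10) (nat_lit 67582) (nat_lit 9) (node
  (nat_lit 5) (nat_lit 66963) (nat_lit 10) nil nil) (node (nat_lit 6) (nat_lit 65045) (nat_lit 9)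
  nil (node (nat_lit 4) (nat_lit 66781) (nat_lit 9) nil (node (nat_lit 0) (nat_lit 67628) (nat_lit
  9) nil nil))))) (node (nat_lit 5) (nat_lit 63494) (nat_lit 8) (node (nat_lit 8) (nat_lit 67620)
  (nat_lit 9) (node (nat_lit 10) (nat_lit 68516) (nat_lit 10) nil (node (nat_lit 5) (nat_lit
  67620) (nat_lit 10) nil nil)) (node (nat_lit 6) (nat_lit 66886) (nat_lit 9) (node (nat_lit 5)
  (nat_lit 64141) (nat_lit 10) nil nil) (node (nat_lit 4) (nat_lit 66452) (nat_lit 9) (node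
  (nat_lit 5) (nat_lit 67587) (nat_lit 10) nil nil) (node (nat_lit 0) (nat_lit 66868) (nat_lit 9)
  nil nil)))) (node (nat_lit 6) (nat_lit 63560) (nat_lit 8) (node (nat_lit 5) (nat_lit 66096)
  (nat_lit 9) (node (nat_lit 6) (nat_lit 68017) (nat_lit 10) nil nil) (node (nat_lit 4) (nat_lit
  66541) (nat_lit 9) (node (nat_lit 6) (nat_lit 65618) (nat_lit 10) nil nil) (node (nat_lit 10)
  (nat_lit 66468) (nat_lit 9) nil (node (nat_lit 8) (nat_lit 67388) (nat_lit 9) nil (node (nat_lit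
  0) (nat_lit 66468) (nat_lit 9) nil nil))))) (node (nat_lit 4) (nat_lit 63866) (nat_lit 8) (node
  (nat_lit 5) (nat_lit 66458) (nat_lit 9) (node (nat_lit 4) (nat_lit 66994) (nat_lit 10) nil nil)
  (node (nat_lit 6) (nat_lit 66884) (nat_lit 9) nil (node (nat_lit 10) (nat_lit 67226) (nat_lit 9)
  nil (node (nat_lit 0) (nat_lit 66773) (nat_lit 9) nil (node (nat_lit 8) (nat_lit 67226) (nat_lit
  9) nil nil))))) (node (nat_lit 0) (nat_lit 65055) (nat_lit 8) (node (nat_lit 5) (nat_lit 65290)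
  (nat_lit 9) nil (node (nat_lit 10) (nat_lit 67110) (nat_lit 9) nil (node (nat_lit 4) (nat_lit
  65055) (nat_lit 9) nil (node (nat_lit 8) (nat_lit 66190) (nat_lit 9) nil (node (nat_lit 6)
  (nat_lit 65055) (nat_lit 9) nil nil))))) nil))))) nil))) (node (nat_lit 6) (nat_lit 0) (nat_lit
  6) (node (nat_lit 8) (nat_lit 51882) (nat_lit 7) (node (nat_lit 5) (nat_lit 55425) (nat_lit 8)
  (node (nat_lit 8) (nat_lit 62994) (nat_lit 9) (node (nat_lit 6) (nat_lit 65881) (nat_lit 10)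
  (node (nat_lit 5) (nat_lit 68239) (nat_lit 11) (node (nat_lit 6) (nat_lit 67780) (nat_lit 12)
  (node (nat_lit 4) (nat_lit 68939) (nat_lit 13) (node (nat_lit 5) (nat_lit 68486) (nat_lit 14)
  (node (nat_lit 6) (nat_lit 66950) (nat_lit 15) nil nil) nil) (node (nat_lit 8) (nat_lit 69029)
  (nat_lit 13) nil nil)) (node (nat_lit 8) (nat_lit 70248) (nat_lit 12) nil (node (nat_lit 4)
  (nat_lit 68773) (nat_lit 12) nil (node (nat_lit 0) (nat_lit 69689) (nat_lit 12) nil nil))))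
  (node (nat_lit 4) (nat_lit 68838) (nat_lit 11) (node (nat_lit 5) (nat_lit 69598) (nat_lit 12)
  nil (node (nat_lit 6) (nat_lit 68245) (nat_lit 12) nil nil)) (node (nat_lit 0) (nat_lit 68193)
  (nat_lit 11) nil nil))) nil) (node (nat_lit 6) (nat_lit 62221) (nat_lit 9) (node (nat_lit 5)
  (nat_lit 64905) (nat_lit 10) (node (nat_lit 8) (nat_lit 66529) (nat_lit 11) nil nil) nil) nil))
  (node (nat_lit 0) (nat_lit 53654) (nat_lit 8) nil nil)) (node (nat_lit 5) (nat_lit 49284)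
  (nat_lit 7) (node (nat_lit 6) (nat_lit 55434) (nat_lit 8) (node (nat_lit 8) (nat_lit 63283)
  (nat_lit 9) (node (nat_lit 5) (nat_lit 63579) (nat_lit 10) (node (nat_lit 8) (nat_lit 65202)
  (nat_lit 11) nil nil) nil) (node (nat_lit 4) (nat_lit 54891) (nat_lit 9) (node (nat_lit 5)
  (nat_lit 54333) (nat_lit 10) (node (nat_lit 6) (nat_lit 43465) (nat_lit 11) (node (nat_lit 5)
  (nat_lit 40692) (nat_lit 12) nil nil) nil) nil) nil)) (node (nat_lit 4) (nat_lit 61607) (nat_lit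
  8) nil (node (nat_lit 0) (nat_lit 55603) (nat_lit 8) nil nil))) (node (nat_lit 4) (nat_lit
  56820) (nat_lit 7) (node (nat_lit 5) (nat_lit 62692) (nat_lit 8) (node (nat_lit 6) (nat_lit
  65836) (nat_lit 9) nil (node (nat_lit 4) (nat_lit 61450) (nat_lit 9) nil nil)) (node (nat_lit 6)
  (nat_lit 62692) (nat_lit 8) (node (nat_lit 5) (nat_lit 62240) (nat_lit 9) nil nil) (node
  (nat_lit 8) (nat_lit 61191) (nat_lit 8) nil (node (nat_lit 0) (nat_lit 62874) (nat_lit 8) nil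
  nil)))) (node (nat_lit 0) (nat_lit 58656) (nat_lit 7) (node (nat_lit 6) (nat_lit 58185) (nat_lit
  8) nil (node (nat_lit 5) (nat_lit 58922) (nat_lit 8) nil (node (nat_lit 0) (nat_lit 62111)
  (nat_lit 8) nil (node (nat_lit 8) (nat_lit 63194) (nat_lit 8) nil (node (nat_lit 4) (nat_lit
  59204) (nat_lit 8) nil nil))))) nil)))) (node (nat_lit 0) (nat_lit 0) (nat_lit 6) (node (nat_lit
  5) (nat_lit 57607) (nat_lit 7) (node (nat_lit 8) (nat_lit 64963) (nat_lit 8) (node (nat_lit 5)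
  (nat_lit 66335) (nat_lit 9) (node (nat_lit 9) (nat_lit 68975) (nat_lit 10) (node (nat_lit 5)
  (nat_lit 68975) (nat_lit 11) nil nil) (node (nat_lit 4) (nat_lit 65966) (nat_lit 10) nil (node
  (nat_lit 6) (nat_lit 66223) (nat_lit 10) nil (node (nat_lit 0) (nat_lit 68333) (nat_lit 10) nil
  nil)))) (node (nat_lit 6) (nat_lit 65883) (nat_lit 9) (node (nat_lit 9) (nat_lit 67881) (nat_lit
  10) nil nil) (node (nat_lit 4) (nat_lit 66171) (nat_lit 9) nil (node (nat_lit 0) (nat_lit 67018)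
  (nat_lit 9) nil nil)))) (node (nat_lit 9) (nat_lit 64456) (nat_lit 8) (node (nat_lit 8) (nat_lit
  65592) (nat_lit 9) nil nil) (node (nat_lit 6) (nat_lit 63191) (nat_lit 8) nil (node (nat_lit 4)
  (nat_lit 60582) (nat_lit 8) nil (node (nat_lit 0) (nat_lit 61978) (nat_lit 8) nil nil))))) (node
  (nat_lit 8) (nat_lit 60270) (nat_lit 7) (node (nat_lit 5) (nat_lit 62351) (nat_lit 8) (node
  (nat_lit 8) (nat_lit 66575) (nat_lit 9) (node (nat_lit 9) (nat_lit 68125) (nat_lit 10) (node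
  (nat_lit 5) (nat_lit 68125) (nat_lit 11) nil nil) nil) (node (nat_lit 9) (nat_lit 65259)
  (nat_lit 9) nil nil)) (node (nat_lit 6) (nat_lit 60270) (nat_lit 8) nil nil)) (node (nat_lit 6)
  (nat_lit 57601) (nat_lit 7) (node (nat_lit 8) (nat_lit 61971) (nat_lit 8) nil (node (nat_lit 5)
  (nat_lit 56424) (nat_lit 8) nil nil)) (node (nat_lit 4) (nat_lit 57608) (nat_lit 7) (node
  (nat_lit 5) (nat_lit 60207) (nat_lit 8) nil nil) (node (nat_lit 0) (nat_lit 59474) (nat_lit 7)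
  nil nil))))) (node (nat_lit 4) (nat_lit 0) (nat_lit 6) (node (nat_lit 8) (nat_lit 60485)
  (nat_lit 7) (node (nat_lit 5) (nat_lit 63539) (nat_lit 8) (node (nat_lit 8) (nat_lit 67819)
  (nat_lit 9) (node (nat_lit 4) (nat_lit 68879) (nat_lit 10) (node (nat_lit 5) (nat_lit 68466)
  (nat_lit 11) (node (nat_lit 4) (nat_lit 68396) (nat_lit 12) nil nil) (node (nat_lit 6) (nat_lit
  67979) (nat_lit 11) nil nil)) nil) nil) nil) (node (nat_lit 6) (nat_lit 57928) (nat_lit 7) (node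
  (nat_lit 5) (nat_lit 61894) (nat_lit 8) (node (nat_lit 4) (nat_lit 58033) (nat_lit 9) (node
  (nat_lit 5) (nat_lit 40737) (nat_lit 10) (node (nat_lit 6) (nat_lit 38856) (nat_lit 11) nil nil)
  nil) (node (nat_lit 6) (nat_lit 59273) (nat_lit 9) nil nil)) (node (nat_lit 4) (nat_lit 63005)
  (nat_lit 8) nil (node (nat_lit 8) (nat_lit 62298) (nat_lit 8) nil nil))) (node (nat_lit 5)
  (nat_lit 57838) (nat_lit 7) (node (nat_lit 4) (nat_lit 63422) (nat_lit 8) (node (nat_lit 8)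
  (nat_lit 67249) (nat_lit 9) (node (nat_lit 5) (nat_lit 67249) (nat_lit 10) nil nil) nil) (node
  (nat_lit 6) (nat_lit 63422) (nat_lit 8) (node (nat_lit 5) (nat_lit 60391) (nat_lit 9) (node
  (nat_lit 4) (nat_lit 57962) (nat_lit 10) nil nil) nil) (node (nat_lit 0) (nat_lit 62208)
  (nat_lit 8) nil nil))) (node (nat_lit 0) (nat_lit 59524) (nat_lit 7) nil nil)))) nil)))) (node
  (nat_lit 4) (nat_lit 0) (nat_lit 5) (node (nat_lit 0) (nat_lit 0) (nat_lit 6) (node (nat_lit 5)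
  (nat_lit 0) (nat_lit 7) (node (nat_lit 4) (nat_lit 56084) (nat_lit 8) (node (nat_lit 5) (nat_lit
  60384) (nat_lit 9) (node (nat_lit 9) (nat_lit 62756) (nat_lit 10) (node (nat_lit 5) (nat_lit
  61947) (nat_lit 11) (node (nat_lit 4) (nat_lit 62296) (nat_lit 12) nil (node (nat_lit 6)
  (nat_lit 60943) (nat_lit 12) nil nil)) (node (nat_lit 4) (nat_lit 62756) (nat_lit 11) nil nil))
  (node (nat_lit 6) (nat_lit 62089) (nat_lit 10) nil (node (nat_lit 0) (nat_lit 62357) (nat_lit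
  10) nil nil))) (node (nat_lit 6) (nat_lit 60000) (nat_lit 9) (node (nat_lit 4) (nat_lit 60900)
  (nat_lit 10) (node (nat_lit 5) (nat_lit 56859) (nat_lit 11) (node (nat_lit 6) (nat_lit 42916)
  (nat_lit 12) (node (nat_lit 5) (nat_lit 31181) (nat_lit 13) (node (nat_lit 4) (nat_lit 31401)
  (nat_lit 14) nil nil) nil) nil) nil) (node (nat_lit 9) (nat_lit 62441) (nat_lit 10) nil (node
  (nat_lit 5) (nat_lit 61093) (nat_lit 10) nil nil))) (node (nat_lit 0) (nat_lit 62045) (nat_lit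
  9) nil nil))) (node (nat_lit 6) (nat_lit 54471) (nat_lit 8) nil (node (nat_lit 9) (nat_lit
  57797) (nat_lit 8) nil (node (nat_lit 0) (nat_lit 55887) (nat_lit 8) nil nil)))) (node (nat_lit
  6) (nat_lit 46393) (nat_lit 7) (node (nat_lit 4) (nat_lit 54652) (nat_lit 8) (node (nat_lit 6)
  (nat_lit 57665) (nat_lit 9) nil (node (nat_lit 5) (nat_lit 56046) (nat_lit 9) nil nil)) (node
  (nat_lit 5) (nat_lit 48020) (nat_lit 8) nil (node (nat_lit 9) (nat_lit 54421) (nat_lit 8) nil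
  nil))) (node (nat_lit 4) (nat_lit 46745) (nat_lit 7) (node (nat_lit 5) (nat_lit 53648) (nat_lit
  8) (node (nat_lit 9) (nat_lit 59580) (nat_lit 9) (node (nat_lit 5) (nat_lit 59580) (nat_lit 10)
  nil nil) nil) (node (nat_lit 6) (nat_lit 52127) (nat_lit 8) nil nil)) (node (nat_lit 0) (nat_lit
  50997) (nat_lit 7) (node (nat_lit 4) (nat_lit 50997) (nat_lit 8) nil nil) nil)))) (node (nat_lit
  6) (nat_lit 0) (nat_lit 6) (node (nat_lit 0) (nat_lit 43024) (nat_lit 7) (node (nat_lit 6)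
  (nat_lit 43903) (nat_lit 8) nil (node (nat_lit 5) (nat_lit 41781) (nat_lit 8) nil (node (nat_lit
  4) (nat_lit 43024) (nat_lit 8) nil nil))) (node (nat_lit 4) (nat_lit 0) (nat_lit 7) (node
  (nat_lit 5) (nat_lit 0) (nat_lit 8) (node (nat_lit 4) (nat_lit 22873) (nat_lit 9) (node (nat_lit
  0) (nat_lit 27537) (nat_lit 10) nil nil) (node (nat_lit 0) (nat_lit 25575) (nat_lit 9) nil nil))
  (node (nat_lit 0) (nat_lit 40950) (nat_lit 8) nil nil)) (node (nat_lit 5) (nat_lit 0) (nat_lit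
  7) (node (nat_lit 6) (nat_lit 0) (nat_lit 8) (node (nat_lit 4) (nat_lit 36814) (nat_lit 9) (node
  (nat_lit 6) (nat_lit 37286) (nat_lit 10) nil nil) (node (nat_lit 0) (nat_lit 45564) (nat_lit 9)
  nil nil)) (node (nat_lit 0) (nat_lit 45750) (nat_lit 8) (node (nat_lit 6) (nat_lit 45750)
  (nat_lit 9) nil nil) nil)) nil))) (node (nat_lit 5) (nat_lit 0) (nat_lit 6) (node (nat_lit 6)
  (nat_lit 0) (nat_lit 7) (node (nat_lit 4) (nat_lit 30089) (nat_lit 8) (node (nat_lit 5) (nat_lit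
  34639) (nat_lit 9) (node (nat_lit 4) (nat_lit 33488) (nat_lit 10) nil nil) (node (nat_lit 6)
  (nat_lit 31900) (nat_lit 9) nil nil)) (node (nat_lit 0) (nat_lit 32305) (nat_lit 8) nil nil))
  (node (nat_lit 0) (nat_lit 32918) (nat_lit 7) nil nil)) nil))) nil))

noncomputable def t339 : Tr :=
  (node (nat_lit 0) (nat_lit 0) (nat_lit 5) (node (nat_lit 7) (nat_lit 0) (nat_lit 6) (node
  (nat_lit 4) (nat_lit 63314) (nat_lit 7) (node (nat_lit 8) (nat_lit 65883) (nat_lit 8) (node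
  (nat_lit 7) (nat_lit 65883) (nat_lit 9) (node (nat_lit 8) (nat_lit 65883) (nat_lit 10) (node
  (nat_lit 4) (nat_lit 65883) (nat_lit 11) (node (nat_lit 7) (nat_lit 65883) (nat_lit 12) nil
  (node (nat_lit 8) (nat_lit 65883) (nat_lit 12) nil (node (nat_lit 5) (nat_lit 65883) (nat_lit
  12) nil nil))) (node (nat_lit 5) (nat_lit 65883) (nat_lit 11) nil (node (nat_lit 0) (nat_lit
  65883) (nat_lit 11) nil nil))) (node (nat_lit 5) (nat_lit 65883) (nat_lit 10) (node (nat_lit 7)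
  (nat_lit 65883) (nat_lit 11) (node (nat_lit 4) (nat_lit 65883) (nat_lit 12) (node (nat_lit 5)
  (nat_lit 65883) (nat_lit 13) (node (nat_lit 4) (nat_lit 65653) (nat_lit 14) (node (nat_lit 7)
  (nat_lit 61250) (nat_lit 15) nil nil) nil) nil) nil) (node (nat_lit 4) (nat_lit 65883) (nat_lit
  11) (node (nat_lit 5) (nat_lit 65883) (nat_lit 12) nil nil) (node (nat_lit 8) (nat_lit 65883)
  (nat_lit 11) nil nil))) (node (nat_lit 0) (nat_lit 65883) (nat_lit 10) (node (nat_lit 7)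
  (nat_lit 65883) (nat_lit 11) nil (node (nat_lit 5) (nat_lit 65883) (nat_lit 11) nil (node
  (nat_lit 8) (nat_lit 65883) (nat_lit 11) nil nil))) nil))) (node (nat_lit 4) (nat_lit 65883)
  (nat_lit 9) (node (nat_lit 7) (nat_lit 65883) (nat_lit 10) (node (nat_lit 8) (nat_lit 65883)
  (nat_lit 11) nil (node (nat_lit 5) (nat_lit 65883) (nat_lit 11) nil nil)) (node (nat_lit 5)
  (nat_lit 65883) (nat_lit 10) (node (nat_lit 8) (nat_lit 65883) (nat_lit 11) nil nil) nil)) (node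
  (nat_lit 5) (nat_lit 65883) (nat_lit 9) (node (nat_lit 4) (nat_lit 65883) (nat_lit 10) nil (node
  (nat_lit 7) (nat_lit 65883) (nat_lit 10) nil (node (nat_lit 8) (nat_lit 65883) (nat_lit 10) nil
  nil))) (node (nat_lit 0) (nat_lit 65883) (nat_lit 9) nil nil)))) (node (nat_lit 5) (nat_lit
  65382) (nat_lit 8) (node (nat_lit 7) (nat_lit 65883) (nat_lit 9) (node (nat_lit 5) (nat_lit
  65883) (nat_lit 10) nil (node (nat_lit 4) (nat_lit 65883) (nat_lit 10) nil (node (nat_lit 8)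
  (nat_lit 65883) (nat_lit 10) nil nil))) (node (nat_lit 4) (nat_lit 65359) (nat_lit 9) (node
  (nat_lit 7) (nat_lit 65816) (nat_lit 10) nil (node (nat_lit 8) (nat_lit 65883) (nat_lit 10) nil
  nil)) (node (nat_lit 8) (nat_lit 65883) (nat_lit 9) (node (nat_lit 4) (nat_lit 65883) (nat_lit
  10) nil (node (nat_lit 5) (nat_lit 65883) (nat_lit 10) nil nil)) (node (nat_lit 0) (nat_lit
  65883) (nat_lit 9) nil nil)))) (node (nat_lit 0) (nat_lit 65883) (nat_lit 8) (node (nat_lit 7)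
  (nat_lit 65883) (nat_lit 9) (node (nat_lit 4) (nat_lit 65883) (nat_lit 10) nil nil) (node
  (nat_lit 4) (nat_lit 65883) (nat_lit 9) (node (nat_lit 7) (nat_lit 65883) (nat_lit 10) nil nil)
  (node (nat_lit 5) (nat_lit 65187) (nat_lit 9) nil (node (nat_lit 8) (nat_lit 65883) (nat_lit 9)
  nil (node (nat_lit 0) (nat_lit 65883) (nat_lit 9) nil nil))))) (node (nat_lit 7) (nat_lit 65522)
  (nat_lit 8) (node (nat_lit 8) (nat_lit 65883) (nat_lit 9) (node (nat_lit 4) (nat_lit 65883)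
  (nat_lit 10) (node (nat_lit 8) (nat_lit 65883) (nat_lit 11) nil (node (nat_lit 7) (nat_lit
  65883) (nat_lit 11) nil nil)) nil) (node (nat_lit 5) (nat_lit 65187) (nat_lit 9) nil nil))
  nil)))) (node (nat_lit 5) (nat_lit 63314) (nat_lit 7) (node (nat_lit 4) (nat_lit 65522) (nat_lit
  8) (node (nat_lit 5) (nat_lit 65883) (nat_lit 9) (node (nat_lit 7) (nat_lit 65883) (nat_lit 10)
  (node (nat_lit 4) (nat_lit 65883) (nat_lit 11) nil (node (nat_lit 5) (nat_lit 65883) (nat_lit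
  11) nil nil)) (node (nat_lit 8) (nat_lit 65883) (nat_lit 10) nil nil)) (node (nat_lit 7)
  (nat_lit 65883) (nat_lit 9) (node (nat_lit 5) (nat_lit 65883) (nat_lit 10) (node (nat_lit 7)
  (nat_lit 65883) (nat_lit 11) (node (nat_lit 4) (nat_lit 65883) (nat_lit 12) nil nil) nil) (node
  (nat_lit 4) (nat_lit 65102) (nat_lit 10) (node (nat_lit 5) (nat_lit 62411) (nat_lit 11) (node
  (nat_lit 4) (nat_lit 51951) (nat_lit 12) nil nil) nil) nil)) (node (nat_lit 8) (nat_lit 65883)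
  (nat_lit 9) (node (nat_lit 5) (nat_lit 65883) (nat_lit 10) nil nil) (node (nat_lit 0) (nat_lit
  65883) (nat_lit 9) nil nil)))) (node (nat_lit 8) (nat_lit 65883) (nat_lit 8) (node (nat_lit 5)
  (nat_lit 65883) (nat_lit 9) (node (nat_lit 7) (nat_lit 65883) (nat_lit 10) (node (nat_lit 8)
  (nat_lit 65883) (nat_lit 11) nil (node (nat_lit 5) (nat_lit 65883) (nat_lit 11) nil (node
  (nat_lit 4) (nat_lit 65883) (nat_lit 11) nil nil))) (node (nat_lit 4) (nat_lit 65858) (nat_lit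
  10) nil nil)) (node (nat_lit 7) (nat_lit 65883) (nat_lit 9) (node (nat_lit 8) (nat_lit 65883)
  (nat_lit 10) (node (nat_lit 5) (nat_lit 65883) (nat_lit 11) nil nil) (node (nat_lit 4) (nat_lit
  65883) (nat_lit 10) nil nil)) (node (nat_lit 4) (nat_lit 65883) (nat_lit 9) (node (nat_lit 5)
  (nat_lit 65883) (nat_lit 10) (node (nat_lit 7) (nat_lit 65883) (nat_lit 11) nil nil) (node
  (nat_lit 8) (nat_lit 65883) (nat_lit 10) nil (node (nat_lit 7) (nat_lit 65883) (nat_lit 10) nil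
  nil))) (node (nat_lit 0) (nat_lit 65883) (nat_lit 9) nil nil)))) (node (nat_lit 7) (nat_lit
  65522) (nat_lit 8) (node (nat_lit 8) (nat_lit 65883) (nat_lit 9) (node (nat_lit 5) (nat_lit
  65883) (nat_lit 10) (node (nat_lit 8) (nat_lit 65883) (nat_lit 11) nil (node (nat_lit 7)
  (nat_lit 65883) (nat_lit 11) nil nil)) (node (nat_lit 4) (nat_lit 65883) (nat_lit 10) nil nil))
  (node (nat_lit 4) (nat_lit 65883) (nat_lit 9) (node (nat_lit 5) (nat_lit 61439) (nat_lit 10)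
  (node (nat_lit 4) (nat_lit 44775) (nat_lit 11) (node (nat_lit 7) (nat_lit 11479) (nat_lit 12)
  (node (nat_lit 8) (nat_lit 12331) (nat_lit 13) nil nil) nil) nil) (node (nat_lit 7) (nat_lit
  65883) (nat_lit 10) nil (node (nat_lit 8) (nat_lit 65883) (nat_lit 10) nil nil))) (node (nat_lit
  0) (nat_lit 65883) (nat_lit 9) nil nil))) (node (nat_lit 0) (nat_lit 65883) (nat_lit 8) (node
  (nat_lit 7) (nat_lit 65883) (nat_lit 9) (node (nat_lit 5) (nat_lit 65219) (nat_lit 10) nil nil)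
  (node (nat_lit 5) (nat_lit 65187) (nat_lit 9) (node (nat_lit 7) (nat_lit 65780) (nat_lit 10) nil
  nil) (node (nat_lit 4) (nat_lit 65883) (nat_lit 9) nil (node (nat_lit 0) (nat_lit 65883)
  (nat_lit 9) nil (node (nat_lit 8) (nat_lit 65883) (nat_lit 9) nil nil))))) nil)))) (node
  (nat_lit 0) (nat_lit 63649) (nat_lit 7) (node (nat_lit 8) (nat_lit 65604) (nat_lit 8) (node
  (nat_lit 7) (nat_lit 65883) (nat_lit 9) (node (nat_lit 8) (nat_lit 65883) (nat_lit 10) (node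
  (nat_lit 10) (nat_lit 65883) (nat_lit 11) nil nil) (node (nat_lit 4) (nat_lit 65883) (nat_lit
  10) nil (node (nat_lit 5) (nat_lit 65589) (nat_lit 10) nil (node (nat_lit 0) (nat_lit 65883)
  (nat_lit 10) nil nil)))) (node (nat_lit 10) (nat_lit 65883) (nat_lit 9) (node (nat_lit 7)
  (nat_lit 65883) (nat_lit 10) nil nil) (node (nat_lit 5) (nat_lit 65883) (nat_lit 9) nil (node
  (nat_lit 4) (nat_lit 65883) (nat_lit 9) nil (node (nat_lit 0) (nat_lit 65883) (nat_lit 9) nil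
  nil))))) (node (nat_lit 7) (nat_lit 64818) (nat_lit 8) (node (nat_lit 8) (nat_lit 65883)
  (nat_lit 9) (node (nat_lit 10) (nat_lit 65883) (nat_lit 10) nil nil) (node (nat_lit 4) (nat_lit
  65883) (nat_lit 9) nil (node (nat_lit 5) (nat_lit 65883) (nat_lit 9) (node (nat_lit 7) (nat_lit
  65883) (nat_lit 10) nil nil) (node (nat_lit 0) (nat_lit 65883) (nat_lit 9) nil nil)))) (node
  (nat_lit 4) (nat_lit 63567) (nat_lit 8) (node (nat_lit 7) (nat_lit 64888) (nat_lit 9) nil (node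
  (nat_lit 5) (nat_lit 64978) (nat_lit 9) nil (node (nat_lit 10) (nat_lit 65085) (nat_lit 9) nil
  (node (nat_lit 8) (nat_lit 65481) (nat_lit 9) nil (node (nat_lit 0) (nat_lit 65085) (nat_lit 9)
  nil nil))))) (node (nat_lit 5) (nat_lit 64525) (nat_lit 8) (node (nat_lit 7) (nat_lit 65847)
  (nat_lit 9) (node (nat_lit 5) (nat_lit 65883) (nat_lit 10) nil nil) (node (nat_lit 4) (nat_lit
  65317) (nat_lit 9) nil (node (nat_lit 10) (nat_lit 65883) (nat_lit 9) nil (node (nat_lit 8)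
  (nat_lit 65883) (nat_lit 9) nil nil)))) (node (nat_lit 0) (nat_lit 65744) (nat_lit 8) (node
  (nat_lit 7) (nat_lit 65883) (nat_lit 9) nil (node (nat_lit 10) (nat_lit 65883) (nat_lit 9) nil
  (node (nat_lit 5) (nat_lit 65744) (nat_lit 9) nil (node (nat_lit 4) (nat_lit 65744) (nat_lit 9)
  nil (node (nat_lit 8) (nat_lit 65883) (nat_lit 9) nil nil))))) nil))))) nil))) (node (nat_lit 4)
  (nat_lit 0) (nat_lit 6) (node (nat_lit 8) (nat_lit 63473) (nat_lit 7) (node (nat_lit 7) (nat_lit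
  65337) (nat_lit 8) (node (nat_lit 8) (nat_lit 65883) (nat_lit 9) (node (nat_lit 4) (nat_lit
  65883) (nat_lit 10) (node (nat_lit 7) (nat_lit 65883) (nat_lit 11) (node (nat_lit 4) (nat_lit
  65883) (nat_lit 12) nil (node (nat_lit 8) (nat_lit 65883) (nat_lit 12) nil (node (nat_lit 5)
  (nat_lit 65883) (nat_lit 12) nil nil))) (node (nat_lit 5) (nat_lit 65883) (nat_lit 11) (node
  (nat_lit 7) (nat_lit 65883) (nat_lit 12) (node (nat_lit 4) (nat_lit 65883) (nat_lit 13) nil nil)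
  (node (nat_lit 4) (nat_lit 65883) (nat_lit 12) nil nil)) (node (nat_lit 0) (nat_lit 65883)
  (nat_lit 11) nil nil))) nil) (node (nat_lit 4) (nat_lit 65883) (nat_lit 9) (node (nat_lit 7)
  (nat_lit 65883) (nat_lit 10) nil nil) nil)) nil) (node (nat_lit 5) (nat_lit 62116) (nat_lit 7)
  (node (nat_lit 7) (nat_lit 64324) (nat_lit 8) (node (nat_lit 4) (nat_lit 65646) (nat_lit 9)
  (node (nat_lit 5) (nat_lit 52057) (nat_lit 10) (node (nat_lit 4) (nat_lit 27766) (nat_lit 11)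
  (node (nat_lit 7) (nat_lit 27593) (nat_lit 12) (node (nat_lit 8) (nat_lit 9616) (nat_lit 13) nil
  nil) nil) nil) nil) (node (nat_lit 5) (nat_lit 65250) (nat_lit 9) nil nil)) (node (nat_lit 4)
  (nat_lit 64130) (nat_lit 8) (node (nat_lit 7) (nat_lit 64602) (nat_lit 9) nil nil) (node
  (nat_lit 0) (nat_lit 65250) (nat_lit 8) nil (node (nat_lit 8) (nat_lit 65250) (nat_lit 8) nil
  nil)))) (node (nat_lit 7) (nat_lit 63306) (nat_lit 7) (node (nat_lit 4) (nat_lit 65514) (nat_lit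
  8) (node (nat_lit 8) (nat_lit 65883) (nat_lit 9) nil (node (nat_lit 5) (nat_lit 65883) (nat_lit
  9) nil nil)) (node (nat_lit 5) (nat_lit 63842) (nat_lit 8) (node (nat_lit 7) (nat_lit 64521)
  (nat_lit 9) nil nil) nil)) (node (nat_lit 0) (nat_lit 63473) (nat_lit 7) (node (nat_lit 7)
  (nat_lit 64324) (nat_lit 8) nil (node (nat_lit 0) (nat_lit 64399) (nat_lit 8) nil (node (nat_lit
  8) (nat_lit 64399) (nat_lit 8) nil (node (nat_lit 5) (nat_lit 62267) (nat_lit 8) nil nil))))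
  nil)))) (node (nat_lit 5) (nat_lit 0) (nat_lit 6) (node (nat_lit 4) (nat_lit 62050) (nat_lit 7)
  (node (nat_lit 7) (nat_lit 63480) (nat_lit 8) (node (nat_lit 5) (nat_lit 64801) (nat_lit 9)
  (node (nat_lit 7) (nat_lit 65341) (nat_lit 10) (node (nat_lit 4) (nat_lit 64124) (nat_lit 11)
  (node (nat_lit 5) (nat_lit 62288) (nat_lit 12) (node (nat_lit 4) (nat_lit 59485) (nat_lit 13)
  (node (nat_lit 7) (nat_lit 53636) (nat_lit 14) nil nil) nil) nil) nil) nil) (node (nat_lit 4)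
  (nat_lit 54138) (nat_lit 9) (node (nat_lit 5) (nat_lit 37734) (nat_lit 10) (node (nat_lit 4)
  (nat_lit 37728) (nat_lit 11) nil nil) nil) nil)) (node (nat_lit 5) (nat_lit 64258) (nat_lit 8)
  nil (node (nat_lit 8) (nat_lit 64332) (nat_lit 8) nil nil))) (node (nat_lit 7) (nat_lit 63126)
  (nat_lit 7) (node (nat_lit 5) (nat_lit 65334) (nat_lit 8) (node (nat_lit 8) (nat_lit 65883)
  (nat_lit 9) (node (nat_lit 7) (nat_lit 65883) (nat_lit 10) nil nil) nil) (node (nat_lit 4)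
  (nat_lit 65334) (nat_lit 8) (node (nat_lit 7) (nat_lit 65883) (nat_lit 9) nil nil) nil)) (node
  (nat_lit 8) (nat_lit 63407) (nat_lit 7) (node (nat_lit 7) (nat_lit 65421) (nat_lit 8) (node
  (nat_lit 8) (nat_lit 65883) (nat_lit 9) (node (nat_lit 5) (nat_lit 65883) (nat_lit 10) (node
  (nat_lit 7) (nat_lit 65883) (nat_lit 11) nil (node (nat_lit 4) (nat_lit 65883) (nat_lit 11) nil
  nil)) nil) nil) nil) (node (nat_lit 0) (nat_lit 63407) (nat_lit 7) nil nil)))) (node (nat_lit 0)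
  (nat_lit 0) (nat_lit 6) (node (nat_lit 7) (nat_lit 62673) (nat_lit 7) (node (nat_lit 8) (nat_lit
  65883) (nat_lit 8) (node (nat_lit 7) (nat_lit 65883) (nat_lit 9) (node (nat_lit 9) (nat_lit
  65883) (nat_lit 10) nil (node (nat_lit 5) (nat_lit 65883) (nat_lit 10) nil (node (nat_lit 4)
  (nat_lit 65883) (nat_lit 10) nil nil))) (node (nat_lit 4) (nat_lit 65883) (nat_lit 9) (node
  (nat_lit 9) (nat_lit 65883) (nat_lit 10) nil nil) (node (nat_lit 5) (nat_lit 65107) (nat_lit 9)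
  nil (node (nat_lit 0) (nat_lit 65883) (nat_lit 9) nil nil)))) (node (nat_lit 9) (nat_lit 65806)
  (nat_lit 8) (node (nat_lit 8) (nat_lit 65883) (nat_lit 9) nil nil) (node (nat_lit 4) (nat_lit
  64881) (nat_lit 8) nil (node (nat_lit 5) (nat_lit 62824) (nat_lit 8) nil (node (nat_lit 0)
  (nat_lit 64955) (nat_lit 8) nil nil))))) (node (nat_lit 8) (nat_lit 64030) (nat_lit 7) (node
  (nat_lit 7) (nat_lit 64881) (nat_lit 8) (node (nat_lit 8) (nat_lit 65883) (nat_lit 9) (node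
  (nat_lit 9) (nat_lit 65883) (nat_lit 10) (node (nat_lit 7) (nat_lit 65883) (nat_lit 11) nil nil)
  nil) nil) nil) (node (nat_lit 4) (nat_lit 62167) (nat_lit 7) nil (node (nat_lit 5) (nat_lit
  61216) (nat_lit 7) nil (node (nat_lit 0) (nat_lit 63524) (nat_lit 7) nil nil))))) nil)))) (node
  (nat_lit 4) (nat_lit 0) (nat_lit 5) (node (nat_lit 0) (nat_lit 0) (nat_lit 6) (node (nat_lit 7)
  (nat_lit 0) (nat_lit 7) (node (nat_lit 4) (nat_lit 36389) (nat_lit 8) (node (nat_lit 5) (nat_lit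
  39457) (nat_lit 9) (node (nat_lit 7) (nat_lit 41434) (nat_lit 10) (node (nat_lit 5) (nat_lit
  41887) (nat_lit 11) nil (node (nat_lit 9) (nat_lit 42286) (nat_lit 11) nil nil)) (node (nat_lit
  4) (nat_lit 40952) (nat_lit 10) nil (node (nat_lit 9) (nat_lit 40993) (nat_lit 10) nil nil)))
  (node (nat_lit 7) (nat_lit 39457) (nat_lit 9) (node (nat_lit 9) (nat_lit 41405) (nat_lit 10)
  (node (nat_lit 7) (nat_lit 41405) (nat_lit 11) nil (node (nat_lit 4) (nat_lit 41405) (nat_lit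
  11) nil nil)) (node (nat_lit 5) (nat_lit 40639) (nat_lit 10) nil (node (nat_lit 0) (nat_lit
  40993) (nat_lit 10) nil nil))) (node (nat_lit 0) (nat_lit 40008) (nat_lit 9) nil nil))) (node
  (nat_lit 9) (nat_lit 38458) (nat_lit 8) (node (nat_lit 4) (nat_lit 39167) (nat_lit 9) (node
  (nat_lit 9) (nat_lit 40703) (nat_lit 10) nil (node (nat_lit 7) (nat_lit 40249) (nat_lit 10) nil
  nil)) nil) (node (nat_lit 5) (nat_lit 35921) (nat_lit 8) (node (nat_lit 4) (nat_lit 34906)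
  (nat_lit 9) nil nil) (node (nat_lit 0) (nat_lit 37681) (nat_lit 8) nil nil)))) (node (nat_lit 5)
  (nat_lit 32121) (nat_lit 7) (node (nat_lit 4) (nat_lit 35914) (nat_lit 8) (node (nat_lit 5)
  (nat_lit 38983) (nat_lit 9) nil (node (nat_lit 7) (nat_lit 37388) (nat_lit 9) nil nil)) (node
  (nat_lit 7) (nat_lit 36449) (nat_lit 8) nil (node (nat_lit 9) (nat_lit 36712) (nat_lit 8) nil
  (node (nat_lit 0) (nat_lit 36712) (nat_lit 8) nil nil)))) (node (nat_lit 4) (nat_lit 0) (nat_lit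
  7) (node (nat_lit 7) (nat_lit 37019) (nat_lit 8) (node (nat_lit 9) (nat_lit 40638) (nat_lit 9)
  (node (nat_lit 7) (nat_lit 40638) (nat_lit 10) nil nil) (node (nat_lit 5) (nat_lit 36003)
  (nat_lit 9) nil nil)) (node (nat_lit 5) (nat_lit 34316) (nat_lit 8) nil (node (nat_lit 0)
  (nat_lit 37809) (nat_lit 8) nil nil))) (node (nat_lit 0) (nat_lit 35360) (nat_lit 7) (node
  (nat_lit 4) (nat_lit 34304) (nat_lit 8) nil nil) nil)))) (node (nat_lit 5) (nat_lit 0) (nat_lit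
  6) (node (nat_lit 7) (nat_lit 0) (nat_lit 7) (node (nat_lit 5) (nat_lit 29370) (nat_lit 8) (node
  (nat_lit 4) (nat_lit 33487) (nat_lit 9) (node (nat_lit 7) (nat_lit 36856) (nat_lit 10) (node
  (nat_lit 5) (nat_lit 36618) (nat_lit 11) nil nil) (node (nat_lit 5) (nat_lit 33296) (nat_lit 10)
  nil nil)) nil) (node (nat_lit 0) (nat_lit 34488) (nat_lit 8) nil (node (nat_lit 4) (nat_lit
  25912) (nat_lit 8) nil nil))) (node (nat_lit 0) (nat_lit 31526) (nat_lit 7) nil nil)) nil))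
  (node (nat_lit 5) (nat_lit 0) (nat_lit 5) (node (nat_lit 0) (nat_lit 0) (nat_lit 6) (node
  (nat_lit 7) (nat_lit 60076) (nat_lit 7) (node (nat_lit 5) (nat_lit 63449) (nat_lit 8) (node
  (nat_lit 7) (nat_lit 65883) (nat_lit 9) (node (nat_lit 9) (nat_lit 65883) (nat_lit 10) (node
  (nat_lit 7) (nat_lit 65883) (nat_lit 11) nil nil) (node (nat_lit 4) (nat_lit 65802) (nat_lit 10)
  (node (nat_lit 5) (nat_lit 62034) (nat_lit 11) (node (nat_lit 4) (nat_lit 54988) (nat_lit 12)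
  (node (nat_lit 7) (nat_lit 33698) (nat_lit 13) (node (nat_lit 5) (nat_lit 28096) (nat_lit 14)
  nil nil) nil) nil) nil) nil)) (node (nat_lit 4) (nat_lit 65883) (nat_lit 9) (node (nat_lit 7)
  (nat_lit 65883) (nat_lit 10) nil (node (nat_lit 9) (nat_lit 65883) (nat_lit 10) nil (node
  (nat_lit 5) (nat_lit 65883) (nat_lit 10) nil nil))) (node (nat_lit 0) (nat_lit 65883) (nat_lit
  9) nil nil))) (node (nat_lit 4) (nat_lit 63449) (nat_lit 8) nil (node (nat_lit 9) (nat_lit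
  64667) (nat_lit 8) nil nil))) (node (nat_lit 4) (nat_lit 58199) (nat_lit 7) (node (nat_lit 5)
  (nat_lit 61594) (nat_lit 8) (node (nat_lit 4) (nat_lit 63032) (nat_lit 9) nil (node (nat_lit 7)
  (nat_lit 64059) (nat_lit 9) nil nil)) (node (nat_lit 7) (nat_lit 61572) (nat_lit 8) nil nil))
  (node (nat_lit 5) (nat_lit 58781) (nat_lit 7) (node (nat_lit 7) (nat_lit 62154) (nat_lit 8)
  (node (nat_lit 9) (nat_lit 65306) (nat_lit 9) nil nil) (node (nat_lit 4) (nat_lit 61031)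
  (nat_lit 8) nil nil)) (node (nat_lit 0) (nat_lit 61124) (nat_lit 7) (node (nat_lit 5) (nat_lit
  61124) (nat_lit 8) nil nil) nil)))) (node (nat_lit 7) (nat_lit 0) (nat_lit 6) (node (nat_lit 4)
  (nat_lit 0) (nat_lit 7) (node (nat_lit 5) (nat_lit 30982) (nat_lit 8) (node (nat_lit 7) (nat_lit
  34893) (nat_lit 9) (node (nat_lit 5) (nat_lit 36378) (nat_lit 10) nil nil) nil) (node (nat_lit
  7) (nat_lit 48884) (nat_lit 8) nil (node (nat_lit 0) (nat_lit 56581) (nat_lit 8) nil nil)))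
  (node (nat_lit 0) (nat_lit 59367) (nat_lit 7) (node (nat_lit 4) (nat_lit 59367) (nat_lit 8) nil
  (node (nat_lit 5) (nat_lit 59367) (nat_lit 8) nil nil)) nil)) (node (nat_lit 4) (nat_lit 0)
  (nat_lit 6) (node (nat_lit 5) (nat_lit 0) (nat_lit 7) (node (nat_lit 7) (nat_lit 0) (nat_lit 8)
  (node (nat_lit 5) (nat_lit 61333) (nat_lit 9) (node (nat_lit 0) (nat_lit 63976) (nat_lit 10) nil
  (node (nat_lit 4) (nat_lit 60271) (nat_lit 10) nil nil)) (node (nat_lit 4) (nat_lit 61766)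
  (nat_lit 9) nil (node (nat_lit 0) (nat_lit 62617) (nat_lit 9) nil nil))) (node (nat_lit 0)
  (nat_lit 62245) (nat_lit 8) nil nil)) (node (nat_lit 0) (nat_lit 61159) (nat_lit 7) (node
  (nat_lit 4) (nat_lit 61159) (nat_lit 8) nil (node (nat_lit 5) (nat_lit 61159) (nat_lit 8) nil
  (node (nat_lit 7) (nat_lit 61159) (nat_lit 8) nil nil))) nil)) nil))) nil)))

noncomputable def t340 : Tr :=
  (node (nat_lit 3) (nat_lit 0) (nat_lit 5) (node (nat_lit 7) (nat_lit 0) (nat_lit 6) (node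
  (nat_lit 4) (nat_lit 65883) (nat_lit 7) (node (nat_lit 8) (nat_lit 65883) (nat_lit 8) (node
  (nat_lit 4) (nat_lit 65883) (nat_lit 9) (node (nat_lit 5) (nat_lit 65883) (nat_lit 10) nil (node
  (nat_lit 7) (nat_lit 65883) (nat_lit 10) nil nil)) (node (nat_lit 5) (nat_lit 65883) (nat_lit 9)
  (node (nat_lit 4) (nat_lit 65883) (nat_lit 10) (node (nat_lit 8) (nat_lit 65883) (nat_lit 11)
  (node (nat_lit 4) (nat_lit 65883) (nat_lit 12) (node (nat_lit 5) (nat_lit 65883) (nat_lit 13)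
  nil nil) nil) (node (nat_lit 5) (nat_lit 65883) (nat_lit 11) nil nil)) (node (nat_lit 8)
  (nat_lit 65883) (nat_lit 10) (node (nat_lit 4) (nat_lit 65883) (nat_lit 11) (node (nat_lit 5)
  (nat_lit 64795) (nat_lit 12) nil nil) nil) nil)) (node (nat_lit 0) (nat_lit 65883) (nat_lit 9)
  nil nil))) (node (nat_lit 5) (nat_lit 65883) (nat_lit 8) (node (nat_lit 8) (nat_lit 65883)
  (nat_lit 9) (node (nat_lit 4) (nat_lit 65883) (nat_lit 10) (node (nat_lit 5) (nat_lit 55633)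
  (nat_lit 11) (node (nat_lit 4) (nat_lit 50588) (nat_lit 12) nil nil) nil) nil) (node (nat_lit 4)
  (nat_lit 65883) (nat_lit 9) (node (nat_lit 8) (nat_lit 65883) (nat_lit 10) nil nil) nil)) (node
  (nat_lit 7) (nat_lit 65883) (nat_lit 8) (node (nat_lit 8) (nat_lit 65883) (nat_lit 9) nil (node
  (nat_lit 5) (nat_lit 65883) (nat_lit 9) nil nil)) (node (nat_lit 0) (nat_lit 65883) (nat_lit 8)
  nil nil)))) (node (nat_lit 5) (nat_lit 65345) (nat_lit 7) (node (nat_lit 8) (nat_lit 65883)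
  (nat_lit 8) (node (nat_lit 4) (nat_lit 65883) (nat_lit 9) nil (node (nat_lit 5) (nat_lit 65883)
  (nat_lit 9) (node (nat_lit 7) (nat_lit 65883) (nat_lit 10) nil (node (nat_lit 4) (nat_lit 65883)
  (nat_lit 10) (node (nat_lit 8) (nat_lit 65883) (nat_lit 11) nil nil) nil)) (node (nat_lit 0)
  (nat_lit 65883) (nat_lit 9) nil nil))) (node (nat_lit 4) (nat_lit 65883) (nat_lit 8) (node
  (nat_lit 8) (nat_lit 65295) (nat_lit 9) nil (node (nat_lit 5) (nat_lit 64384) (nat_lit 9) nil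
  nil)) (node (nat_lit 7) (nat_lit 65883) (nat_lit 8) nil (node (nat_lit 0) (nat_lit 65883)
  (nat_lit 8) nil nil)))) (node (nat_lit 0) (nat_lit 65883) (nat_lit 7) (node (nat_lit 8) (nat_lit
  65883) (nat_lit 8) nil (node (nat_lit 5) (nat_lit 65883) (nat_lit 8) nil (node (nat_lit 4)
  (nat_lit 65883) (nat_lit 8) nil nil))) nil))) (node (nat_lit 4) (nat_lit 0) (nat_lit 6) (node
  (nat_lit 8) (nat_lit 65883) (nat_lit 7) (node (nat_lit 5) (nat_lit 65883) (nat_lit 8) (node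
  (nat_lit 4) (nat_lit 65538) (nat_lit 9) (node (nat_lit 5) (nat_lit 65883) (nat_lit 10) (node
  (nat_lit 8) (nat_lit 65883) (nat_lit 11) nil nil) nil) (node (nat_lit 8) (nat_lit 65883)
  (nat_lit 9) (node (nat_lit 4) (nat_lit 65168) (nat_lit 10) nil nil) nil)) (node (nat_lit 7)
  (nat_lit 65883) (nat_lit 8) nil nil)) (node (nat_lit 7) (nat_lit 65883) (nat_lit 7) (node
  (nat_lit 4) (nat_lit 65883) (nat_lit 8) (node (nat_lit 8) (nat_lit 65883) (nat_lit 9) (node
  (nat_lit 4) (nat_lit 65883) (nat_lit 10) nil nil) nil) (node (nat_lit 5) (nat_lit 65883)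
  (nat_lit 8) (node (nat_lit 8) (nat_lit 65883) (nat_lit 9) (node (nat_lit 4) (nat_lit 65883)
  (nat_lit 10) nil nil) nil) nil)) (node (nat_lit 5) (nat_lit 64661) (nat_lit 7) (node (nat_lit 8)
  (nat_lit 65883) (nat_lit 8) (node (nat_lit 5) (nat_lit 65883) (nat_lit 9) nil nil) (node
  (nat_lit 4) (nat_lit 65341) (nat_lit 8) (node (nat_lit 8) (nat_lit 64790) (nat_lit 9) nil nil)
  (node (nat_lit 7) (nat_lit 65883) (nat_lit 8) nil nil))) (node (nat_lit 0) (nat_lit 65883)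
  (nat_lit 7) nil nil)))) (node (nat_lit 5) (nat_lit 0) (nat_lit 6) (node (nat_lit 4) (nat_lit
  62790) (nat_lit 7) (node (nat_lit 8) (nat_lit 63707) (nat_lit 8) (node (nat_lit 4) (nat_lit
  55358) (nat_lit 9) (node (nat_lit 5) (nat_lit 51251) (nat_lit 10) (node (nat_lit 4) (nat_lit
  36822) (nat_lit 11) (node (nat_lit 7) (nat_lit 37880) (nat_lit 12) (node (nat_lit 8) (nat_lit
  37441) (nat_lit 13) nil nil) nil) nil) nil) (node (nat_lit 5) (nat_lit 65639) (nat_lit 9) (node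
  (nat_lit 8) (nat_lit 63783) (nat_lit 10) (node (nat_lit 4) (nat_lit 62883) (nat_lit 11) (node
  (nat_lit 5) (nat_lit 60463) (nat_lit 12) nil nil) nil) nil) nil)) (node (nat_lit 5) (nat_lit
  65494) (nat_lit 8) (node (nat_lit 8) (nat_lit 65883) (nat_lit 9) (node (nat_lit 4) (nat_lit
  64341) (nat_lit 10) (node (nat_lit 5) (nat_lit 54415) (nat_lit 11) nil nil) nil) nil) (node
  (nat_lit 7) (nat_lit 65883) (nat_lit 8) nil nil))) (node (nat_lit 8) (nat_lit 56508) (nat_lit 7)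
  (node (nat_lit 4) (nat_lit 55494) (nat_lit 8) (node (nat_lit 5) (nat_lit 47032) (nat_lit 9)
  (node (nat_lit 4) (nat_lit 42531) (nat_lit 10) (node (nat_lit 7) (nat_lit 16986) (nat_lit 11)
  (node (nat_lit 8) (nat_lit 15663) (nat_lit 12) nil nil) (node (nat_lit 8) (nat_lit 39854)
  (nat_lit 11) nil nil)) nil) nil) (node (nat_lit 7) (nat_lit 58790) (nat_lit 8) nil nil)) (node
  (nat_lit 7) (nat_lit 63219) (nat_lit 7) (node (nat_lit 5) (nat_lit 63743) (nat_lit 8) (node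
  (nat_lit 8) (nat_lit 64668) (nat_lit 9) nil nil) (node (nat_lit 4) (nat_lit 62201) (nat_lit 8)
  nil (node (nat_lit 8) (nat_lit 63219) (nat_lit 8) nil nil))) (node (nat_lit 0) (nat_lit 62582)
  (nat_lit 7) nil nil)))) (node (nat_lit 0) (nat_lit 62240) (nat_lit 6) (node (nat_lit 8) (nat_lit
  64114) (nat_lit 7) (node (nat_lit 4) (nat_lit 65471) (nat_lit 8) nil nil) (node (nat_lit 4)
  (nat_lit 62334) (nat_lit 7) (node (nat_lit 8) (nat_lit 63691) (nat_lit 8) nil nil) (node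
  (nat_lit 5) (nat_lit 61330) (nat_lit 7) nil (node (nat_lit 7) (nat_lit 63597) (nat_lit 7) nil
  nil)))) nil)))) (node (nat_lit 5) (nat_lit 0) (nat_lit 5) (node (nat_lit 7) (nat_lit 0) (nat_lit
  6) (node (nat_lit 4) (nat_lit 58266) (nat_lit 7) (node (nat_lit 5) (nat_lit 62530) (nat_lit 8)
  (node (nat_lit 4) (nat_lit 64109) (nat_lit 9) (node (nat_lit 3) (nat_lit 65883) (nat_lit 10)
  (node (nat_lit 5) (nat_lit 65883) (nat_lit 11) (node (nat_lit 4) (nat_lit 65883) (nat_lit 12)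
  nil nil) (node (nat_lit 4) (nat_lit 65883) (nat_lit 11) (node (nat_lit 5) (nat_lit 65883)
  (nat_lit 12) nil nil) nil)) (node (nat_lit 7) (nat_lit 65565) (nat_lit 10) nil (node (nat_lit 0)
  (nat_lit 65153) (nat_lit 10) nil nil))) (node (nat_lit 3) (nat_lit 63949) (nat_lit 9) (node
  (nat_lit 4) (nat_lit 63492) (nat_lit 10) (node (nat_lit 5) (nat_lit 62976) (nat_lit 11) (node
  (nat_lit 4) (nat_lit 52520) (nat_lit 12) (node (nat_lit 7) (nat_lit 32370) (nat_lit 13) (node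
  (nat_lit 5) (nat_lit 31646) (nat_lit 14) (node (nat_lit 7) (nat_lit 25295) (nat_lit 15) (node
  (nat_lit 4) (nat_lit 12026) (nat_lit 16) nil nil) nil) nil) nil) nil) (node (nat_lit 12)
  (nat_lit 63181) (nat_lit 11) nil nil)) (node (nat_lit 5) (nat_lit 64542) (nat_lit 10) nil nil))
  (node (nat_lit 0) (nat_lit 64515) (nat_lit 9) nil nil))) (node (nat_lit 7) (nat_lit 63808)
  (nat_lit 8) (node (nat_lit 5) (nat_lit 64400) (nat_lit 9) (node (nat_lit 4) (nat_lit 62764)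
  (nat_lit 10) nil (node (nat_lit 3) (nat_lit 64993) (nat_lit 10) nil nil)) (node (nat_lit 3)
  (nat_lit 64322) (nat_lit 9) (node (nat_lit 4) (nat_lit 64915) (nat_lit 10) nil (node (nat_lit 5)
  (nat_lit 62697) (nat_lit 10) nil nil)) (node (nat_lit 0) (nat_lit 64401) (nat_lit 9) nil nil)))
  (node (nat_lit 3) (nat_lit 64707) (nat_lit 8) (node (nat_lit 5) (nat_lit 65552) (nat_lit 9) nil
  (node (nat_lit 4) (nat_lit 65883) (nat_lit 9) nil nil)) (node (nat_lit 0) (nat_lit 65242)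
  (nat_lit 8) nil nil)))) (node (nat_lit 3) (nat_lit 63649) (nat_lit 7) (node (nat_lit 5) (nat_lit
  65709) (nat_lit 8) (node (nat_lit 10) (nat_lit 65076) (nat_lit 9) (node (nat_lit 4) (nat_lit
  65577) (nat_lit 10) (node (nat_lit 5) (nat_lit 62461) (nat_lit 11) (node (nat_lit 4) (nat_lit
  57416) (nat_lit 12) (node (nat_lit 7) (nat_lit 46262) (nat_lit 13) (node (nat_lit 5) (nat_lit
  31165) (nat_lit 14) nil nil) nil) nil) nil) nil) (node (nat_lit 4) (nat_lit 65883) (nat_lit 9)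
  (node (nat_lit 5) (nat_lit 65883) (nat_lit 10) nil (node (nat_lit 10) (nat_lit 65332) (nat_lit
  10) nil nil)) nil)) (node (nat_lit 4) (nat_lit 65883) (nat_lit 8) (node (nat_lit 5) (nat_lit
  65883) (nat_lit 9) nil (node (nat_lit 10) (nat_lit 65883) (nat_lit 9) nil nil)) (node (nat_lit
  7) (nat_lit 65883) (nat_lit 8) nil (node (nat_lit 0) (nat_lit 65883) (nat_lit 8) nil nil))))
  (node (nat_lit 0) (nat_lit 65401) (nat_lit 7) (node (nat_lit 5) (nat_lit 64479) (nat_lit 8) nil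
  (node (nat_lit 3) (nat_lit 65401) (nat_lit 8) nil (node (nat_lit 4) (nat_lit 65401) (nat_lit 8)
  nil nil))) nil))) (node (nat_lit 3) (nat_lit 0) (nat_lit 6) (node (nat_lit 4) (nat_lit 65016)
  (nat_lit 7) (node (nat_lit 5) (nat_lit 65451) (nat_lit 8) (node (nat_lit 9) (nat_lit 65883)
  (nat_lit 9) nil (node (nat_lit 4) (nat_lit 65883) (nat_lit 9) (node (nat_lit 7) (nat_lit 13610)
  (nat_lit 10) nil nil) nil)) (node (nat_lit 9) (nat_lit 65883) (nat_lit 8) nil (node (nat_lit 7)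
  (nat_lit 65883) (nat_lit 8) nil nil))) (node (nat_lit 5) (nat_lit 64158) (nat_lit 7) (node
  (nat_lit 4) (nat_lit 65883) (nat_lit 8) (node (nat_lit 9) (nat_lit 65719) (nat_lit 9) (node
  (nat_lit 4) (nat_lit 63952) (nat_lit 10) (node (nat_lit 5) (nat_lit 61268) (nat_lit 11) (node
  (nat_lit 4) (nat_lit 57160) (nat_lit 12) (node (nat_lit 7) (nat_lit 38778) (nat_lit 13) (node
  (nat_lit 5) (nat_lit 38951) (nat_lit 14) (node (nat_lit 9) (nat_lit 39309) (nat_lit 15) nil nil)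
  nil) nil) nil) nil) nil) nil) (node (nat_lit 7) (nat_lit 65883) (nat_lit 8) nil nil)) (node
  (nat_lit 7) (nat_lit 63362) (nat_lit 7) (node (nat_lit 9) (nat_lit 62344) (nat_lit 8) (node
  (nat_lit 5) (nat_lit 61736) (nat_lit 9) (node (nat_lit 9) (nat_lit 62384) (nat_lit 10) (node
  (nat_lit 4) (nat_lit 61650) (nat_lit 11) (node (nat_lit 5) (nat_lit 59063) (nat_lit 12) nil nil)
  nil) nil) nil) (node (nat_lit 4) (nat_lit 63362) (nat_lit 8) nil (node (nat_lit 5) (nat_lit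
  63362) (nat_lit 8) nil nil))) (node (nat_lit 0) (nat_lit 65473) (nat_lit 7) nil nil)))) (node
  (nat_lit 4) (nat_lit 0) (nat_lit 6) (node (nat_lit 5) (nat_lit 58170) (nat_lit 7) (node (nat_lit
  3) (nat_lit 64098) (nat_lit 8) (node (nat_lit 4) (nat_lit 62768) (nat_lit 9) (node (nat_lit 11)
  (nat_lit 62356) (nat_lit 10) (node (nat_lit 5) (nat_lit 61021) (nat_lit 11) nil nil) (node
  (nat_lit 5) (nat_lit 51592) (nat_lit 10) (node (nat_lit 4) (nat_lit 30710) (nat_lit 11) nil nil)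
  nil)) (node (nat_lit 5) (nat_lit 65023) (nat_lit 9) nil nil)) (node (nat_lit 7) (nat_lit 63725)
  (nat_lit 8) (node (nat_lit 4) (nat_lit 62456) (nat_lit 9) nil (node (nat_lit 5) (nat_lit 63725)
  (nat_lit 9) nil nil)) (node (nat_lit 0) (nat_lit 60452) (nat_lit 8) nil nil))) (node (nat_lit 3)
  (nat_lit 60729) (nat_lit 7) (node (nat_lit 5) (nat_lit 63826) (nat_lit 8) (node (nat_lit 10)
  (nat_lit 65428) (nat_lit 9) (node (nat_lit 4) (nat_lit 63674) (nat_lit 10) (node (nat_lit 5)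
  (nat_lit 56675) (nat_lit 11) (node (nat_lit 4) (nat_lit 51249) (nat_lit 12) nil nil) nil) nil)
  (node (nat_lit 4) (nat_lit 64752) (nat_lit 9) nil nil)) (node (nat_lit 4) (nat_lit 53213)
  (nat_lit 8) (node (nat_lit 5) (nat_lit 48530) (nat_lit 9) (node (nat_lit 4) (nat_lit 38176)
  (nat_lit 10) (node (nat_lit 7) (nat_lit 36509) (nat_lit 11) nil nil) nil) nil) (node (nat_lit 7)
  (nat_lit 63012) (nat_lit 8) nil nil))) (node (nat_lit 0) (nat_lit 59527) (nat_lit 7) nil nil)))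
  (node (nat_lit 0) (nat_lit 61005) (nat_lit 6) (node (nat_lit 5) (nat_lit 60095) (nat_lit 7)
  (node (nat_lit 4) (nat_lit 57572) (nat_lit 8) nil nil) (node (nat_lit 4) (nat_lit 59969)
  (nat_lit 7) (node (nat_lit 5) (nat_lit 57446) (nat_lit 8) nil nil) (node (nat_lit 3) (nat_lit
  59969) (nat_lit 7) nil (node (nat_lit 7) (nat_lit 62362) (nat_lit 7) nil nil)))) nil)))) (node
  (nat_lit 0) (nat_lit 0) (nat_lit 5) (node (nat_lit 7) (nat_lit 0) (nat_lit 6) (node (nat_lit 4)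
  (nat_lit 65883) (nat_lit 7) (node (nat_lit 8) (nat_lit 65883) (nat_lit 8) (node (nat_lit 7)
  (nat_lit 65883) (nat_lit 9) (node (nat_lit 8) (nat_lit 65883) (nat_lit 10) nil nil) (node
  (nat_lit 4) (nat_lit 65883) (nat_lit 9) nil (node (nat_lit 5) (nat_lit 65883) (nat_lit 9) nil
  (node (nat_lit 3) (nat_lit 65883) (nat_lit 9) nil (node (nat_lit 0) (nat_lit 65883) (nat_lit 9)
  nil nil))))) (node (nat_lit 7) (nat_lit 65883) (nat_lit 8) nil (node (nat_lit 5) (nat_lit 63873)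
  (nat_lit 8) nil (node (nat_lit 3) (nat_lit 65883) (nat_lit 8) nil nil)))) (node (nat_lit 5)
  (nat_lit 64839) (nat_lit 7) (node (nat_lit 8) (nat_lit 65883) (nat_lit 8) nil (node (nat_lit 4)
  (nat_lit 63887) (nat_lit 8) nil (node (nat_lit 3) (nat_lit 65883) (nat_lit 8) nil (node (nat_lit
  7) (nat_lit 65883) (nat_lit 8) nil nil)))) (node (nat_lit 3) (nat_lit 65784) (nat_lit 7) (node
  (nat_lit 8) (nat_lit 65883) (nat_lit 8) nil (node (nat_lit 4) (nat_lit 65883) (nat_lit 8) nil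
  (node (nat_lit 5) (nat_lit 65883) (nat_lit 8) nil (node (nat_lit 7) (nat_lit 65883) (nat_lit 8)
  nil nil)))) (node (nat_lit 0) (nat_lit 65883) (nat_lit 7) (node (nat_lit 7) (nat_lit 65883)
  (nat_lit 8) nil (node (nat_lit 8) (nat_lit 65883) (nat_lit 8) nil nil)) nil)))) (node (nat_lit
  4) (nat_lit 0) (nat_lit 6) (node (nat_lit 8) (nat_lit 65883) (nat_lit 7) (node (nat_lit 7)
  (nat_lit 65883) (nat_lit 8) (node (nat_lit 8) (nat_lit 65883) (nat_lit 9) (node (nat_lit 4)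
  (nat_lit 65883) (nat_lit 10) (node (nat_lit 7) (nat_lit 65883) (nat_lit 11) nil nil) nil) nil)
  (node (nat_lit 0) (nat_lit 65883) (nat_lit 8) nil nil)) (node (nat_lit 5) (nat_lit 61840)
  (nat_lit 7) (node (nat_lit 4) (nat_lit 59317) (nat_lit 8) nil (node (nat_lit 3) (nat_lit 59730)
  (nat_lit 8) nil (node (nat_lit 7) (nat_lit 64122) (nat_lit 8) nil nil))) (node (nat_lit 3)
  (nat_lit 65883) (nat_lit 7) (node (nat_lit 4) (nat_lit 65883) (nat_lit 8) nil (node (nat_lit 5)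
  (nat_lit 63851) (nat_lit 8) nil (node (nat_lit 7) (nat_lit 65883) (nat_lit 8) nil nil))) (node
  (nat_lit 7) (nat_lit 65883) (nat_lit 7) (node (nat_lit 4) (nat_lit 65883) (nat_lit 8) nil nil)
  (node (nat_lit 0) (nat_lit 65883) (nat_lit 7) nil nil))))) (node (nat_lit 5) (nat_lit 0)
  (nat_lit 6) (node (nat_lit 3) (nat_lit 64181) (nat_lit 7) (node (nat_lit 4) (nat_lit 65538)
  (nat_lit 8) nil nil) (node (nat_lit 4) (nat_lit 61223) (nat_lit 7) (node (nat_lit 5) (nat_lit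
  58699) (nat_lit 8) nil (node (nat_lit 3) (nat_lit 54497) (nat_lit 8) nil nil)) (node (nat_lit 7)
  (nat_lit 63766) (nat_lit 7) nil (node (nat_lit 8) (nat_lit 63766) (nat_lit 7) nil (node (nat_lit
  0) (nat_lit 63766) (nat_lit 7) nil nil))))) (node (nat_lit 3) (nat_lit 0) (nat_lit 6) (node
  (nat_lit 5) (nat_lit 61840) (nat_lit 7) (node (nat_lit 4) (nat_lit 59317) (nat_lit 8) nil (node
  (nat_lit 9) (nat_lit 58354) (nat_lit 8) nil nil)) (node (nat_lit 4) (nat_lit 65883) (nat_lit 7)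
  (node (nat_lit 9) (nat_lit 65883) (nat_lit 8) nil nil) (node (nat_lit 7) (nat_lit 65588)
  (nat_lit 7) nil (node (nat_lit 8) (nat_lit 65588) (nat_lit 7) nil (node (nat_lit 0) (nat_lit
  65588) (nat_lit 7) nil nil))))) (node (nat_lit 0) (nat_lit 61791) (nat_lit 6) (node (nat_lit 8)
  (nat_lit 64920) (nat_lit 7) nil (node (nat_lit 7) (nat_lit 63148) (nat_lit 7) nil (node (nat_lit
  4) (nat_lit 61791) (nat_lit 7) nil (node (nat_lit 3) (nat_lit 61791) (nat_lit 7) nil (node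
  (nat_lit 5) (nat_lit 61791) (nat_lit 7) nil nil))))) nil))))) (node (nat_lit 4) (nat_lit 0)
  (nat_lit 5) (node (nat_lit 3) (nat_lit 0) (nat_lit 6) (node (nat_lit 5) (nat_lit 65045) (nat_lit
  7) (node (nat_lit 4) (nat_lit 64367) (nat_lit 8) (node (nat_lit 9) (nat_lit 64151) (nat_lit 9)
  (node (nat_lit 4) (nat_lit 62876) (nat_lit 10) (node (nat_lit 5) (nat_lit 59480) (nat_lit 11)
  nil nil) nil) (node (nat_lit 5) (nat_lit 62399) (nat_lit 9) nil nil)) (node (nat_lit 9) (nat_lit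
  64979) (nat_lit 8) (node (nat_lit 4) (nat_lit 62911) (nat_lit 9) (node (nat_lit 5) (nat_lit
  52819) (nat_lit 10) (node (nat_lit 4) (nat_lit 43269) (nat_lit 11) nil nil) nil) nil) nil))
  (node (nat_lit 4) (nat_lit 64842) (nat_lit 7) (node (nat_lit 5) (nat_lit 65277) (nat_lit 8)
  (node (nat_lit 4) (nat_lit 63310) (nat_lit 9) (node (nat_lit 7) (nat_lit 31028) (nat_lit 10) nil
  nil) (node (nat_lit 9) (nat_lit 65883) (nat_lit 9) nil nil)) (node (nat_lit 7) (nat_lit 65883)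
  (nat_lit 8) nil nil)) (node (nat_lit 7) (nat_lit 65299) (nat_lit 7) nil (node (nat_lit 0)
  (nat_lit 63527) (nat_lit 7) nil nil)))) (node (nat_lit 5) (nat_lit 0) (nat_lit 6) (node (nat_lit
  3) (nat_lit 58276) (nat_lit 7) (node (nat_lit 4) (nat_lit 55310) (nat_lit 8) (node (nat_lit 5)
  (nat_lit 46557) (nat_lit 9) (node (nat_lit 4) (nat_lit 29857) (nat_lit 10) (node (nat_lit 7)
  (nat_lit 9848) (nat_lit 11) nil nil) nil) (node (nat_lit 10) (nat_lit 56235) (nat_lit 9) nil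
  nil)) (node (nat_lit 5) (nat_lit 58711) (nat_lit 8) (node (nat_lit 4) (nat_lit 56744) (nat_lit
  9) nil nil) nil)) (node (nat_lit 4) (nat_lit 58577) (nat_lit 7) (node (nat_lit 3) (nat_lit
  60576) (nat_lit 8) (node (nat_lit 5) (nat_lit 61625) (nat_lit 9) nil (node (nat_lit 4) (nat_lit
  58391) (nat_lit 9) (node (nat_lit 5) (nat_lit 52897) (nat_lit 10) nil nil) nil)) nil) (node
  (nat_lit 7) (nat_lit 59872) (nat_lit 7) (node (nat_lit 5) (nat_lit 59872) (nat_lit 8) nil nil)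
  (node (nat_lit 0) (nat_lit 57200) (nat_lit 7) nil nil)))) (node (nat_lit 0) (nat_lit 0) (nat_lit
  6) (node (nat_lit 4) (nat_lit 63371) (nat_lit 7) (node (nat_lit 7) (nat_lit 65653) (nat_lit 8)
  nil (node (nat_lit 5) (nat_lit 60848) (nat_lit 8) nil (node (nat_lit 3) (nat_lit 64728) (nat_lit
  8) nil nil))) (node (nat_lit 3) (nat_lit 64905) (nat_lit 7) (node (nat_lit 4) (nat_lit 65883)
  (nat_lit 8) nil nil) (node (nat_lit 5) (nat_lit 60714) (nat_lit 7) (node (nat_lit 4) (nat_lit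
  58190) (nat_lit 8) nil nil) (node (nat_lit 7) (nat_lit 65362) (nat_lit 7) nil (node (nat_lit 0)
  (nat_lit 65362) (nat_lit 7) nil nil))))) nil))) nil))))

noncomputable def c24 : Tr :=
  (node (nat_lit 3) (nat_lit 0) (nat_lit 1) (node (nat_lit 3) (nat_lit 0) (nat_lit 2) (node
  (nat_lit 3) (nat_lit 0) (nat_lit 3) (node (nat_lit 4) (nat_lit 0) (nat_lit 4) t336 (node
  (nat_lit 0) (nat_lit 0) (nat_lit 4) t337 (node (nat_lit 5) (nat_lit 0) (nat_lit 4) t338 nil)))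
  (node (nat_lit 4) (nat_lit 0) (nat_lit 3) (node (nat_lit 3) (nat_lit 0) (nat_lit 4) t339 (node
  (nat_lit 0) (nat_lit 0) (nat_lit 4) t340 nil)) (node (nat_lit 0) (nat_lit 0) (nat_lit 3) (node
  (nat_lit 3) (nat_lit 0) (nat_lit 4) (node (nat_lit 6) (nat_lit 0) (nat_lit 5) (node (nat_lit 5)
  (nat_lit 0) (nat_lit 6) (node (nat_lit 7) (nat_lit 109315) (nat_lit 7) (node (nat_lit 5)
  (nat_lit 108288) (nat_lit 8) (node (nat_lit 4) (nat_lit 105832) (nat_lit 9) nil nil) (node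
  (nat_lit 4) (nat_lit 110879) (nat_lit 8) nil nil)) (node (nat_lit 4) (nat_lit 110876) (nat_lit
  7) (node (nat_lit 7) (nat_lit 106229) (nat_lit 8) (node (nat_lit 4) (nat_lit 104943) (nat_lit 9)
  (node (nat_lit 5) (nat_lit 102878) (nat_lit 10) nil nil) (node (nat_lit 5) (nat_lit 105928)
  (nat_lit 9) nil nil)) (node (nat_lit 5) (nat_lit 111389) (nat_lit 8) (node (nat_lit 7) (nat_lit
  110199) (nat_lit 9) nil nil) nil)) (node (nat_lit 6) (nat_lit 110733) (nat_lit 7) nil (node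
  (nat_lit 0) (nat_lit 110733) (nat_lit 7) nil nil)))) (node (nat_lit 4) (nat_lit 107265) (nat_lit
  6) (node (nat_lit 5) (nat_lit 110481) (nat_lit 7) (node (nat_lit 7) (nat_lit 109470) (nat_lit 8)
  (node (nat_lit 4) (nat_lit 110283) (nat_lit 9) (node (nat_lit 5) (nat_lit 103221) (nat_lit 10)
  nil nil) (node (nat_lit 5) (nat_lit 104644) (nat_lit 9) nil nil)) (node (nat_lit 4) (nat_lit
  111389) (nat_lit 8) nil nil)) (node (nat_lit 7) (nat_lit 107372) (nat_lit 7) (node (nat_lit 5)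
  (nat_lit 105972) (nat_lit 8) (node (nat_lit 4) (nat_lit 104490) (nat_lit 9) (node (nat_lit 5)
  (nat_lit 88516) (nat_lit 10) nil nil) (node (nat_lit 7) (nat_lit 106785) (nat_lit 9) nil nil))
  (node (nat_lit 4) (nat_lit 108564) (nat_lit 8) nil nil)) nil)) (node (nat_lit 0) (nat_lit
  107836) (nat_lit 6) nil nil))) (node (nat_lit 4) (nat_lit 0) (nat_lit 5) (node (nat_lit 5)
  (nat_lit 105428) (nat_lit 6) (node (nat_lit 7) (nat_lit 109260) (nat_lit 7) (node (nat_lit 5)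
  (nat_lit 108445) (nat_lit 8) (node (nat_lit 4) (nat_lit 106540) (nat_lit 9) (node (nat_lit 7)
  (nat_lit 107061) (nat_lit 10) (node (nat_lit 4) (nat_lit 107457) (nat_lit 11) nil nil) (node
  (nat_lit 5) (nat_lit 90222) (nat_lit 10) nil nil)) nil) nil) (node (nat_lit 4) (nat_lit 109420)
  (nat_lit 7) (node (nat_lit 7) (nat_lit 107013) (nat_lit 8) (node (nat_lit 5) (nat_lit 105785)
  (nat_lit 9) nil (node (nat_lit 4) (nat_lit 103035) (nat_lit 9) nil nil)) nil) (node (nat_lit 6)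
  (nat_lit 49510) (nat_lit 7) nil nil))) (node (nat_lit 6) (nat_lit 109736) (nat_lit 6) (node
  (nat_lit 7) (nat_lit 109736) (nat_lit 7) nil nil) (node (nat_lit 7) (nat_lit 105733) (nat_lit 6)
  (node (nat_lit 5) (nat_lit 106437) (nat_lit 7) (node (nat_lit 4) (nat_lit 99106) (nat_lit 8)
  (node (nat_lit 5) (nat_lit 91713) (nat_lit 9) nil nil) nil) (node (nat_lit 6) (nat_lit 110332)
  (nat_lit 7) nil nil)) (node (nat_lit 0) (nat_lit 107137) (nat_lit 6) nil nil)))) (node (nat_lit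
  5) (nat_lit 0) (nat_lit 5) (node (nat_lit 4) (nat_lit 100095) (nat_lit 6) (node (nat_lit 7)
  (nat_lit 102669) (nat_lit 7) (node (nat_lit 4) (nat_lit 98167) (nat_lit 8) (node (nat_lit 5)
  (nat_lit 97043) (nat_lit 9) (node (nat_lit 6) (nat_lit 83708) (nat_lit 10) nil nil) nil) (node
  (nat_lit 5) (nat_lit 105430) (nat_lit 8) (node (nat_lit 7) (nat_lit 101668) (nat_lit 9) (node
  (nat_lit 4) (nat_lit 100969) (nat_lit 10) nil nil) nil) nil)) (node (nat_lit 5) (nat_lit 105995)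
  (nat_lit 7) (node (nat_lit 7) (nat_lit 104635) (nat_lit 8) (node (nat_lit 4) (nat_lit 104135)
  (nat_lit 9) nil nil) (node (nat_lit 6) (nat_lit 58713) (nat_lit 8) nil nil)) nil)) (node
  (nat_lit 7) (nat_lit 93575) (nat_lit 6) (node (nat_lit 4) (nat_lit 91205) (nat_lit 7) (node
  (nat_lit 5) (nat_lit 89324) (nat_lit 8) nil (node (nat_lit 7) (nat_lit 90392) (nat_lit 8) nil
  nil)) (node (nat_lit 6) (nat_lit 99247) (nat_lit 7) nil nil)) (node (nat_lit 6) (nat_lit 104131)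
  (nat_lit 6) (node (nat_lit 5) (nat_lit 106735) (nat_lit 7) nil (node (nat_lit 4) (nat_lit
  103095) (nat_lit 7) nil nil)) (node (nat_lit 0) (nat_lit 99559) (nat_lit 6) nil nil)))) (node
  (nat_lit 0) (nat_lit 102691) (nat_lit 5) (node (nat_lit 5) (nat_lit 102691) (nat_lit 6) nil
  (node (nat_lit 7) (nat_lit 102691) (nat_lit 6) nil (node (nat_lit 4) (nat_lit 102691) (nat_lit
  6) nil nil))) nil)))) (node (nat_lit 4) (nat_lit 0) (nat_lit 4) (node (nat_lit 6) (nat_lit 0)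
  (nat_lit 5) (node (nat_lit 5) (nat_lit 0) (nat_lit 6) (node (nat_lit 4) (nat_lit 95035) (nat_lit
  7) (node (nat_lit 5) (nat_lit 101117) (nat_lit 8) (node (nat_lit 3) (nat_lit 100592) (nat_lit 9)
  (node (nat_lit 4) (nat_lit 101081) (nat_lit 10) nil nil) (node (nat_lit 6) (nat_lit 105295)
  (nat_lit 9) (node (nat_lit 4) (nat_lit 105295) (nat_lit 10) (node (nat_lit 6) (nat_lit 61101)
  (nat_lit 11) nil nil) nil) nil)) (node (nat_lit 3) (nat_lit 106571) (nat_lit 8) (node (nat_lit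
  4) (nat_lit 101857) (nat_lit 9) (node (nat_lit 5) (nat_lit 96108) (nat_lit 10) nil nil) (node
  (nat_lit 5) (nat_lit 104345) (nat_lit 9) nil nil)) (node (nat_lit 6) (nat_lit 101070) (nat_lit
  8) nil nil))) (node (nat_lit 3) (nat_lit 105258) (nat_lit 7) (node (nat_lit 4) (nat_lit 107335)
  (nat_lit 8) nil (node (nat_lit 5) (nat_lit 103032) (nat_lit 8) (node (nat_lit 4) (nat_lit
  102464) (nat_lit 9) (node (nat_lit 5) (nat_lit 98562) (nat_lit 10) nil nil) nil) nil)) (node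
  (nat_lit 6) (nat_lit 97915) (nat_lit 7) (node (nat_lit 4) (nat_lit 95272) (nat_lit 8) nil nil)
  (node (nat_lit 0) (nat_lit 104502) (nat_lit 7) nil nil)))) (node (nat_lit 3) (nat_lit 0)
  (nat_lit 6) (node (nat_lit 5) (nat_lit 107106) (nat_lit 7) (node (nat_lit 4) (nat_lit 108170)
  (nat_lit 8) (node (nat_lit 9) (nat_lit 107506) (nat_lit 9) (node (nat_lit 4) (nat_lit 106769)
  (nat_lit 10) (node (nat_lit 5) (nat_lit 103417) (nat_lit 11) nil nil) nil) nil) (node (nat_lit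
  9) (nat_lit 108604) (nat_lit 8) (node (nat_lit 4) (nat_lit 105372) (nat_lit 9) (node (nat_lit 5)
  (nat_lit 98104) (nat_lit 10) nil nil) nil) nil)) (node (nat_lit 4) (nat_lit 107127) (nat_lit 7)
  (node (nat_lit 5) (nat_lit 109205) (nat_lit 8) nil (node (nat_lit 9) (nat_lit 105606) (nat_lit
  8) nil nil)) (node (nat_lit 6) (nat_lit 110492) (nat_lit 7) nil (node (nat_lit 0) (nat_lit
  110492) (nat_lit 7) nil nil)))) (node (nat_lit 0) (nat_lit 103216) (nat_lit 6) (node (nat_lit 4)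
  (nat_lit 103216) (nat_lit 7) nil nil) nil))) (node (nat_lit 3) (nat_lit 0) (nat_lit 5) (node
  (nat_lit 5) (nat_lit 101901) (nat_lit 6) (node (nat_lit 4) (nat_lit 94494) (nat_lit 7) (node
  (nat_lit 5) (nat_lit 74233) (nat_lit 8) (node (nat_lit 8) (nat_lit 75156) (nat_lit 9) (node
  (nat_lit 4) (nat_lit 72961) (nat_lit 10) nil nil) (node (nat_lit 6) (nat_lit 61101) (nat_lit 9)
  (node (nat_lit 4) (nat_lit 61101) (nat_lit 10) nil nil) nil)) (node (nat_lit 8) (nat_lit 96884)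
  (nat_lit 8) (node (nat_lit 4) (nat_lit 89475) (nat_lit 9) (node (nat_lit 5) (nat_lit 84253)
  (nat_lit 10) nil nil) nil) nil)) (node (nat_lit 8) (nat_lit 104912) (nat_lit 7) (node (nat_lit
  4) (nat_lit 104342) (nat_lit 8) (node (nat_lit 5) (nat_lit 96911) (nat_lit 9) nil nil) nil)
  (node (nat_lit 6) (nat_lit 106104) (nat_lit 7) nil nil))) (node (nat_lit 6) (nat_lit 108311)
  (nat_lit 6) (node (nat_lit 4) (nat_lit 108311) (nat_lit 7) (node (nat_lit 5) (nat_lit 108423)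
  (nat_lit 8) nil nil) (node (nat_lit 8) (nat_lit 108311) (nat_lit 7) nil (node (nat_lit 5)
  (nat_lit 108311) (nat_lit 7) nil nil))) (node (nat_lit 4) (nat_lit 105616) (nat_lit 6) (node
  (nat_lit 5) (nat_lit 108311) (nat_lit 7) nil (node (nat_lit 6) (nat_lit 109503) (nat_lit 7) nil
  nil)) (node (nat_lit 0) (nat_lit 106663) (nat_lit 6) nil nil)))) (node (nat_lit 5) (nat_lit 0)
  (nat_lit 5) (node (nat_lit 3) (nat_lit 96892) (nat_lit 6) (node (nat_lit 4) (nat_lit 88251)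
  (nat_lit 7) (node (nat_lit 9) (nat_lit 90740) (nat_lit 8) (node (nat_lit 5) (nat_lit 89243)
  (nat_lit 9) (node (nat_lit 4) (nat_lit 87366) (nat_lit 10) (node (nat_lit 5) (nat_lit 81703)
  (nat_lit 11) nil nil) nil) nil) (node (nat_lit 5) (nat_lit 72599) (nat_lit 8) (node (nat_lit 4)
  (nat_lit 71802) (nat_lit 9) nil (node (nat_lit 6) (nat_lit 62322) (nat_lit 9) nil nil)) nil))
  (node (nat_lit 5) (nat_lit 99023) (nat_lit 7) (node (nat_lit 4) (nat_lit 93260) (nat_lit 8)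
  (node (nat_lit 5) (nat_lit 64205) (nat_lit 9) nil nil) (node (nat_lit 6) (nat_lit 104894)
  (nat_lit 8) nil nil)) nil)) (node (nat_lit 4) (nat_lit 78950) (nat_lit 6) (node (nat_lit 3)
  (nat_lit 93389) (nat_lit 7) (node (nat_lit 5) (nat_lit 90624) (nat_lit 8) (node (nat_lit 4)
  (nat_lit 88020) (nat_lit 9) (node (nat_lit 5) (nat_lit 80993) (nat_lit 10) nil nil) nil) (node
  (nat_lit 4) (nat_lit 90268) (nat_lit 8) (node (nat_lit 5) (nat_lit 86387) (nat_lit 9) nil nil)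
  nil)) (node (nat_lit 6) (nat_lit 94882) (nat_lit 7) nil nil)) (node (nat_lit 0) (nat_lit 80430)
  (nat_lit 6) nil nil))) (node (nat_lit 0) (nat_lit 102107) (nat_lit 5) (node (nat_lit 5) (nat_lit
  102107) (nat_lit 6) nil (node (nat_lit 4) (nat_lit 102107) (nat_lit 6) nil (node (nat_lit 3)
  (nat_lit 102107) (nat_lit 6) nil nil))) nil)))) (node (nat_lit 5) (nat_lit 0) (nat_lit 4) (node
  (nat_lit 4) (nat_lit 0) (nat_lit 5) (node (nat_lit 3) (nat_lit 87746) (nat_lit 6) (node (nat_lit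
  5) (nat_lit 93605) (nat_lit 7) (node (nat_lit 4) (nat_lit 90877) (nat_lit 8) (node (nat_lit 5)
  (nat_lit 83691) (nat_lit 9) (node (nat_lit 6) (nat_lit 55446) (nat_lit 10) nil nil) nil) (node
  (nat_lit 9) (nat_lit 98523) (nat_lit 8) (node (nat_lit 4) (nat_lit 98239) (nat_lit 9) (node
  (nat_lit 5) (nat_lit 92845) (nat_lit 10) nil nil) nil) nil)) (node (nat_lit 4) (nat_lit 85144)
  (nat_lit 7) (node (nat_lit 5) (nat_lit 78266) (nat_lit 8) (node (nat_lit 9) (nat_lit 77890)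
  (nat_lit 9) nil (node (nat_lit 6) (nat_lit 82260) (nat_lit 9) (node (nat_lit 5) (nat_lit 82671)
  (nat_lit 10) nil nil) nil)) nil) (node (nat_lit 6) (nat_lit 96107) (nat_lit 7) nil nil))) (node
  (nat_lit 6) (nat_lit 82377) (nat_lit 6) (node (nat_lit 5) (nat_lit 92358) (nat_lit 7) (node
  (nat_lit 3) (nat_lit 96498) (nat_lit 8) nil (node (nat_lit 6) (nat_lit 98393) (nat_lit 8) nil
  nil)) (node (nat_lit 4) (nat_lit 92218) (nat_lit 7) (node (nat_lit 5) (nat_lit 91485) (nat_lit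
  8) nil (node (nat_lit 3) (nat_lit 94628) (nat_lit 8) nil nil)) (node (nat_lit 3) (nat_lit 95016)
  (nat_lit 7) nil nil))) (node (nat_lit 5) (nat_lit 76912) (nat_lit 6) (node (nat_lit 3) (nat_lit
  91439) (nat_lit 7) (node (nat_lit 4) (nat_lit 89785) (nat_lit 8) (node (nat_lit 5) (nat_lit
  70581) (nat_lit 9) nil nil) (node (nat_lit 5) (nat_lit 92967) (nat_lit 8) nil nil)) (node
  (nat_lit 6) (nat_lit 54299) (nat_lit 7) nil nil)) (node (nat_lit 0) (nat_lit 79671) (nat_lit 6)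
  nil nil)))) (node (nat_lit 3) (nat_lit 0) (nat_lit 5) (node (nat_lit 4) (nat_lit 99550) (nat_lit
  6) (node (nat_lit 5) (nat_lit 101474) (nat_lit 7) (node (nat_lit 8) (nat_lit 104065) (nat_lit 8)
  (node (nat_lit 5) (nat_lit 104392) (nat_lit 9) (node (nat_lit 4) (nat_lit 102287) (nat_lit 10)
  nil nil) nil) (node (nat_lit 6) (nat_lit 53566) (nat_lit 8) (node (nat_lit 5) (nat_lit 44534)
  (nat_lit 9) nil nil) nil)) (node (nat_lit 8) (nat_lit 104785) (nat_lit 7) (node (nat_lit 5)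
  (nat_lit 101895) (nat_lit 8) (node (nat_lit 4) (nat_lit 97882) (nat_lit 9) (node (nat_lit 5)
  (nat_lit 90619) (nat_lit 10) nil nil) nil) nil) nil)) (node (nat_lit 6) (nat_lit 101149)
  (nat_lit 6) nil (node (nat_lit 5) (nat_lit 93129) (nat_lit 6) (node (nat_lit 4) (nat_lit 91933)
  (nat_lit 7) (node (nat_lit 5) (nat_lit 67690) (nat_lit 8) nil nil) nil) (node (nat_lit 0)
  (nat_lit 101149) (nat_lit 6) nil nil)))) (node (nat_lit 0) (nat_lit 94739) (nat_lit 5) nil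
  nil))) (node (nat_lit 0) (nat_lit 0) (nat_lit 4) (node (nat_lit 3) (nat_lit 0) (nat_lit 5) (node
  (nat_lit 5) (nat_lit 103654) (nat_lit 6) (node (nat_lit 4) (nat_lit 104635) (nat_lit 7) (node
  (nat_lit 8) (nat_lit 102569) (nat_lit 8) nil nil) (node (nat_lit 8) (nat_lit 106635) (nat_lit 7)
  (node (nat_lit 4) (nat_lit 97218) (nat_lit 8) (node (nat_lit 5) (nat_lit 74524) (nat_lit 9) nil
  nil) nil) nil)) (node (nat_lit 4) (nat_lit 103829) (nat_lit 6) (node (nat_lit 5) (nat_lit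
  107742) (nat_lit 7) nil (node (nat_lit 8) (nat_lit 107558) (nat_lit 7) nil nil)) (node (nat_lit
  6) (nat_lit 108046) (nat_lit 6) nil (node (nat_lit 7) (nat_lit 108046) (nat_lit 6) nil (node
  (nat_lit 0) (nat_lit 108046) (nat_lit 6) nil nil))))) (node (nat_lit 5) (nat_lit 93586) (nat_lit
  5) (node (nat_lit 4) (nat_lit 97283) (nat_lit 6) (node (nat_lit 3) (nat_lit 95173) (nat_lit 7)
  (node (nat_lit 4) (nat_lit 89008) (nat_lit 8) nil (node (nat_lit 5) (nat_lit 91096) (nat_lit 8)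
  nil nil)) (node (nat_lit 5) (nat_lit 101483) (nat_lit 7) nil nil)) (node (nat_lit 3) (nat_lit
  99785) (nat_lit 6) (node (nat_lit 4) (nat_lit 102109) (nat_lit 7) nil (node (nat_lit 5) (nat_lit
  98720) (nat_lit 7) (node (nat_lit 4) (nat_lit 91377) (nat_lit 8) nil nil) nil)) (node (nat_lit
  7) (nat_lit 104702) (nat_lit 6) nil (node (nat_lit 6) (nat_lit 104702) (nat_lit 6) nil nil))))
  (node (nat_lit 4) (nat_lit 0) (nat_lit 5) (node (nat_lit 5) (nat_lit 96290) (nat_lit 6) (node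
  (nat_lit 3) (nat_lit 98771) (nat_lit 7) (node (nat_lit 4) (nat_lit 88895) (nat_lit 8) nil nil)
  (node (nat_lit 4) (nat_lit 100313) (nat_lit 7) nil nil)) (node (nat_lit 3) (nat_lit 99399)
  (nat_lit 6) (node (nat_lit 5) (nat_lit 97294) (nat_lit 7) (node (nat_lit 4) (nat_lit 90603)
  (nat_lit 8) nil nil) (node (nat_lit 4) (nat_lit 103690) (nat_lit 7) nil nil)) (node (nat_lit 6)
  (nat_lit 104652) (nat_lit 6) nil (node (nat_lit 7) (nat_lit 104652) (nat_lit 6) nil (node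
  (nat_lit 0) (nat_lit 104652) (nat_lit 6) nil nil))))) (node (nat_lit 0) (nat_lit 0) (nat_lit 5)
  (node (nat_lit 6) (nat_lit 107496) (nat_lit 6) nil (node (nat_lit 7) (nat_lit 107496) (nat_lit
  6) nil (node (nat_lit 0) (nat_lit 107496) (nat_lit 6) nil (node (nat_lit 5) (nat_lit 103204)
  (nat_lit 6) nil (node (nat_lit 3) (nat_lit 103204) (nat_lit 6) nil (node (nat_lit 4) (nat_lit
  103204) (nat_lit 6) nil nil)))))) (node (nat_lit 6) (nat_lit 0) (nat_lit 5) (node (nat_lit 0)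
  (nat_lit 107872) (nat_lit 6) nil (node (nat_lit 5) (nat_lit 102580) (nat_lit 6) nil (node
  (nat_lit 4) (nat_lit 102404) (nat_lit 6) nil (node (nat_lit 3) (nat_lit 102404) (nat_lit 6) nil
  nil)))) nil))))) nil)))) nil))) nil) nil)

noncomputable def t341 : Tr :=
  (node (nat_lit 4) (nat_lit 24529) (nat_lit 5) (node (nat_lit 6) (nat_lit 38030) (nat_lit 6)
  (node (nat_lit 5) (nat_lit 39104) (nat_lit 7) (node (nat_lit 6) (nat_lit 42913) (nat_lit 8)
  (node (nat_lit 4) (nat_lit 43324) (nat_lit 9) (node (nat_lit 5) (nat_lit 43497) (nat_lit 10)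
  (node (nat_lit 4) (nat_lit 43817) (nat_lit 11) (node (nat_lit 6) (nat_lit 45116) (nat_lit 12)
  (node (nat_lit 4) (nat_lit 45116) (nat_lit 13) (node (nat_lit 5) (nat_lit 45116) (nat_lit 14)
  (node (nat_lit 6) (nat_lit 45434) (nat_lit 15) nil nil) nil) (node (nat_lit 5) (nat_lit 45116)
  (nat_lit 13) nil nil)) (node (nat_lit 3) (nat_lit 44077) (nat_lit 12) nil (node (nat_lit 0)
  (nat_lit 45011) (nat_lit 12) nil nil))) (node (nat_lit 6) (nat_lit 44906) (nat_lit 11) (node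
  (nat_lit 5) (nat_lit 44906) (nat_lit 12) nil (node (nat_lit 3) (nat_lit 44906) (nat_lit 12) nil
  nil)) (node (nat_lit 3) (nat_lit 43746) (nat_lit 11) (node (nat_lit 4) (nat_lit 44165) (nat_lit
  12) nil (node (nat_lit 5) (nat_lit 44165) (nat_lit 12) nil nil)) (node (nat_lit 0) (nat_lit
  44480) (nat_lit 11) nil nil)))) (node (nat_lit 6) (nat_lit 44625) (nat_lit 10) (node (nat_lit 5)
  (nat_lit 44625) (nat_lit 11) (node (nat_lit 4) (nat_lit 44625) (nat_lit 12) (node (nat_lit 6)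
  (nat_lit 45255) (nat_lit 13) (node (nat_lit 4) (nat_lit 45255) (nat_lit 14) nil nil) nil) (node
  (nat_lit 3) (nat_lit 44625) (nat_lit 12) nil (node (nat_lit 0) (nat_lit 45089) (nat_lit 12) nil
  nil))) (node (nat_lit 3) (nat_lit 44625) (nat_lit 11) nil (node (nat_lit 0) (nat_lit 44878)
  (nat_lit 11) nil nil))) (node (nat_lit 3) (nat_lit 43552) (nat_lit 10) (node (nat_lit 4)
  (nat_lit 43552) (nat_lit 11) nil (node (nat_lit 5) (nat_lit 43552) (nat_lit 11) nil (node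
  (nat_lit 6) (nat_lit 44535) (nat_lit 11) nil (node (nat_lit 0) (nat_lit 44535) (nat_lit 11) nil
  nil)))) (node (nat_lit 0) (nat_lit 44553) (nat_lit 10) nil nil)))) (node (nat_lit 3) (nat_lit
  43387) (nat_lit 9) (node (nat_lit 5) (nat_lit 43235) (nat_lit 10) (node (nat_lit 6) (nat_lit
  44218) (nat_lit 11) nil (node (nat_lit 12) (nat_lit 43235) (nat_lit 11) nil nil)) (node (nat_lit
  4) (nat_lit 43237) (nat_lit 10) (node (nat_lit 5) (nat_lit 43237) (nat_lit 11) nil (node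
  (nat_lit 12) (nat_lit 43237) (nat_lit 11) nil nil)) (node (nat_lit 6) (nat_lit 44553) (nat_lit
  10) nil (node (nat_lit 0) (nat_lit 44553) (nat_lit 10) nil nil)))) (node (nat_lit 0) (nat_lit
  44095) (nat_lit 9) (node (nat_lit 5) (nat_lit 44095) (nat_lit 10) nil (node (nat_lit 6) (nat_lit
  44404) (nat_lit 10) nil (node (nat_lit 4) (nat_lit 44095) (nat_lit 10) nil (node (nat_lit 3)
  (nat_lit 44095) (nat_lit 10) nil nil)))) nil))) (node (nat_lit 3) (nat_lit 41271) (nat_lit 8)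
  (node (nat_lit 5) (nat_lit 42402) (nat_lit 9) (node (nat_lit 4) (nat_lit 43484) (nat_lit 10)
  (node (nat_lit 5) (nat_lit 43499) (nat_lit 11) nil (node (nat_lit 11) (nat_lit 43805) (nat_lit
  11) (node (nat_lit 4) (nat_lit 44260) (nat_lit 12) (node (nat_lit 5) (nat_lit 43627) (nat_lit
  13) nil nil) nil) (node (nat_lit 6) (nat_lit 44711) (nat_lit 11) nil (node (nat_lit 0) (nat_lit
  44711) (nat_lit 11) nil nil)))) (node (nat_lit 6) (nat_lit 44869) (nat_lit 10) (node (nat_lit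
  11) (nat_lit 44869) (nat_lit 11) nil nil) (node (nat_lit 0) (nat_lit 44869) (nat_lit 10) nil
  nil))) (node (nat_lit 4) (nat_lit 42367) (nat_lit 9) (node (nat_lit 11) (nat_lit 43546) (nat_lit
  10) (node (nat_lit 5) (nat_lit 43714) (nat_lit 11) (node (nat_lit 4) (nat_lit 43456) (nat_lit
  12) (node (nat_lit 5) (nat_lit 42336) (nat_lit 13) (node (nat_lit 6) (nat_lit 41730) (nat_lit
  14) nil nil) nil) (node (nat_lit 11) (nat_lit 43143) (nat_lit 12) nil nil)) (node (nat_lit 6)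
  (nat_lit 44773) (nat_lit 11) nil nil)) (node (nat_lit 5) (nat_lit 42448) (nat_lit 10) nil (node
  (nat_lit 6) (nat_lit 44217) (nat_lit 10) nil (node (nat_lit 0) (nat_lit 44217) (nat_lit 10) nil
  nil)))) (node (nat_lit 6) (nat_lit 44521) (nat_lit 9) (node (nat_lit 11) (nat_lit 44521)
  (nat_lit 10) nil (node (nat_lit 5) (nat_lit 44521) (nat_lit 10) nil nil)) (node (nat_lit 0)
  (nat_lit 44521) (nat_lit 9) (node (nat_lit 5) (nat_lit 44521) (nat_lit 10) nil (node (nat_lit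
  11) (nat_lit 44521) (nat_lit 10) nil nil)) nil)))) (node (nat_lit 0) (nat_lit 43673) (nat_lit 8)
  (node (nat_lit 5) (nat_lit 43717) (nat_lit 9) (node (nat_lit 4) (nat_lit 43566) (nat_lit 10)
  (node (nat_lit 3) (nat_lit 43566) (nat_lit 11) nil (node (nat_lit 0) (nat_lit 44277) (nat_lit
  11) nil nil)) (node (nat_lit 6) (nat_lit 44615) (nat_lit 10) nil (node (nat_lit 3) (nat_lit
  43662) (nat_lit 10) (node (nat_lit 5) (nat_lit 43662) (nat_lit 11) nil (node (nat_lit 11)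
  (nat_lit 44372) (nat_lit 11) nil nil)) (node (nat_lit 0) (nat_lit 44615) (nat_lit 10) nil
  nil)))) (node (nat_lit 6) (nat_lit 44521) (nat_lit 9) (node (nat_lit 11) (nat_lit 44720)
  (nat_lit 10) nil (node (nat_lit 5) (nat_lit 44521) (nat_lit 10) nil nil)) (node (nat_lit 4)
  (nat_lit 43673) (nat_lit 9) nil (node (nat_lit 3) (nat_lit 43673) (nat_lit 9) (node (nat_lit 5)
  (nat_lit 43673) (nat_lit 10) nil (node (nat_lit 11) (nat_lit 44208) (nat_lit 10) nil (node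
  (nat_lit 4) (nat_lit 43673) (nat_lit 10) nil (node (nat_lit 6) (nat_lit 44208) (nat_lit 10) nil
  nil)))) (node (nat_lit 0) (nat_lit 44303) (nat_lit 9) nil nil))))) nil))) (node (nat_lit 4)
  (nat_lit 38955) (nat_lit 7) (node (nat_lit 5) (nat_lit 40060) (nat_lit 8) (node (nat_lit 6)
  (nat_lit 43830) (nat_lit 9) (node (nat_lit 4) (nat_lit 43830) (nat_lit 10) (node (nat_lit 6)
  (nat_lit 44628) (nat_lit 11) (node (nat_lit 5) (nat_lit 44628) (nat_lit 12) (node (nat_lit 4)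
  (nat_lit 44628) (nat_lit 13) (node (nat_lit 6) (nat_lit 45103) (nat_lit 14) nil nil) nil) nil)
  nil) nil) (node (nat_lit 4) (nat_lit 40016) (nat_lit 9) (node (nat_lit 6) (nat_lit 42097)
  (nat_lit 10) nil nil) (node (nat_lit 3) (nat_lit 40808) (nat_lit 9) (node (nat_lit 4) (nat_lit
  41576) (nat_lit 10) nil nil) (node (nat_lit 0) (nat_lit 42675) (nat_lit 9) nil nil)))) (node
  (nat_lit 3) (nat_lit 40595) (nat_lit 8) (node (nat_lit 4) (nat_lit 41199) (nat_lit 9) nil (node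
  (nat_lit 6) (nat_lit 44091) (nat_lit 9) (node (nat_lit 4) (nat_lit 44091) (nat_lit 10) (node
  (nat_lit 6) (nat_lit 44465) (nat_lit 11) nil nil) nil) (node (nat_lit 5) (nat_lit 40595)
  (nat_lit 9) nil nil))) (node (nat_lit 0) (nat_lit 42758) (nat_lit 8) nil nil))) (node (nat_lit
  3) (nat_lit 40440) (nat_lit 7) (node (nat_lit 4) (nat_lit 41318) (nat_lit 8) (node (nat_lit 5)
  (nat_lit 40673) (nat_lit 9) nil (node (nat_lit 10) (nat_lit 41512) (nat_lit 9) nil (node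
  (nat_lit 6) (nat_lit 42969) (nat_lit 9) nil (node (nat_lit 0) (nat_lit 42969) (nat_lit 9) nil
  nil)))) (node (nat_lit 6) (nat_lit 43526) (nat_lit 8) (node (nat_lit 4) (nat_lit 43526) (nat_lit
  9) nil (node (nat_lit 5) (nat_lit 43526) (nat_lit 9) nil (node (nat_lit 0) (nat_lit 43862)
  (nat_lit 9) nil nil))) (node (nat_lit 5) (nat_lit 40630) (nat_lit 8) (node (nat_lit 4) (nat_lit
  40630) (nat_lit 9) nil (node (nat_lit 6) (nat_lit 42281) (nat_lit 9) nil (node (nat_lit 10)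
  (nat_lit 41027) (nat_lit 9) nil nil))) (node (nat_lit 0) (nat_lit 42406) (nat_lit 8) nil nil))))
  (node (nat_lit 0) (nat_lit 42065) (nat_lit 7) (node (nat_lit 4) (nat_lit 42065) (nat_lit 8) nil
  (node (nat_lit 6) (nat_lit 42582) (nat_lit 8) nil (node (nat_lit 5) (nat_lit 42065) (nat_lit 8)
  nil (node (nat_lit 0) (nat_lit 42582) (nat_lit 8) nil nil)))) nil)))) (node (nat_lit 5) (nat_lit
  30084) (nat_lit 6) (node (nat_lit 6) (nat_lit 29129) (nat_lit 7) (node (nat_lit 4) (nat_lit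
  29208) (nat_lit 8) (node (nat_lit 6) (nat_lit 30224) (nat_lit 9) (node (nat_lit 5) (nat_lit
  30224) (nat_lit 10) (node (nat_lit 4) (nat_lit 30308) (nat_lit 11) (node (nat_lit 6) (nat_lit
  30768) (nat_lit 12) (node (nat_lit 4) (nat_lit 30768) (nat_lit 13) nil nil) (node (nat_lit 5)
  (nat_lit 30445) (nat_lit 12) nil (node (nat_lit 3) (nat_lit 30308) (nat_lit 12) nil (node
  (nat_lit 0) (nat_lit 30604) (nat_lit 12) nil nil)))) nil) nil) (node (nat_lit 5) (nat_lit 29312)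
  (nat_lit 9) (node (nat_lit 4) (nat_lit 29566) (nat_lit 10) (node (nat_lit 6) (nat_lit 30146)
  (nat_lit 11) nil nil) nil) (node (nat_lit 3) (nat_lit 29208) (nat_lit 9) nil (node (nat_lit 0)
  (nat_lit 29580) (nat_lit 9) nil nil)))) (node (nat_lit 3) (nat_lit 29129) (nat_lit 8) nil (node
  (nat_lit 0) (nat_lit 29611) (nat_lit 8) nil nil))) (node (nat_lit 3) (nat_lit 35924) (nat_lit 7)
  (node (nat_lit 4) (nat_lit 37502) (nat_lit 8) nil (node (nat_lit 5) (nat_lit 37709) (nat_lit 8)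
  (node (nat_lit 4) (nat_lit 36897) (nat_lit 9) (node (nat_lit 5) (nat_lit 31936) (nat_lit 10) nil
  nil) nil) (node (nat_lit 6) (nat_lit 39891) (nat_lit 8) nil (node (nat_lit 0) (nat_lit 39891)
  (nat_lit 8) nil nil)))) (node (nat_lit 0) (nat_lit 40572) (nat_lit 7) nil nil))) (node (nat_lit
  3) (nat_lit 31894) (nat_lit 6) (node (nat_lit 5) (nat_lit 36466) (nat_lit 7) (node (nat_lit 9)
  (nat_lit 38434) (nat_lit 8) (node (nat_lit 4) (nat_lit 38094) (nat_lit 9) (node (nat_lit 5)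
  (nat_lit 35209) (nat_lit 10) (node (nat_lit 6) (nat_lit 31949) (nat_lit 11) nil (node (nat_lit
  9) (nat_lit 35124) (nat_lit 11) nil nil)) (node (nat_lit 9) (nat_lit 38086) (nat_lit 10) nil
  (node (nat_lit 6) (nat_lit 39943) (nat_lit 10) nil nil))) (node (nat_lit 6) (nat_lit 41159)
  (nat_lit 9) nil (node (nat_lit 0) (nat_lit 41159) (nat_lit 9) nil nil))) (node (nat_lit 4)
  (nat_lit 39052) (nat_lit 8) (node (nat_lit 5) (nat_lit 40111) (nat_lit 9) (node (nat_lit 9)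
  (nat_lit 40040) (nat_lit 10) (node (nat_lit 5) (nat_lit 39379) (nat_lit 11) nil nil) (node
  (nat_lit 6) (nat_lit 37277) (nat_lit 10) nil nil)) (node (nat_lit 6) (nat_lit 41777) (nat_lit 9)
  nil nil)) (node (nat_lit 6) (nat_lit 42758) (nat_lit 8) nil (node (nat_lit 0) (nat_lit 42310)
  (nat_lit 8) (node (nat_lit 0) (nat_lit 42646) (nat_lit 9) nil nil) nil)))) (node (nat_lit 4)
  (nat_lit 36834) (nat_lit 7) (node (nat_lit 5) (nat_lit 38647) (nat_lit 8) (node (nat_lit 9)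
  (nat_lit 39962) (nat_lit 9) (node (nat_lit 5) (nat_lit 40338) (nat_lit 10) (node (nat_lit 4)
  (nat_lit 39652) (nat_lit 11) nil nil) nil) (node (nat_lit 4) (nat_lit 38458) (nat_lit 9) nil
  (node (nat_lit 6) (nat_lit 27873) (nat_lit 9) (node (nat_lit 5) (nat_lit 27873) (nat_lit 10)
  (node (nat_lit 4) (nat_lit 12535) (nat_lit 11) nil nil) nil) nil))) (node (nat_lit 6) (nat_lit
  43657) (nat_lit 8) (node (nat_lit 5) (nat_lit 43657) (nat_lit 9) nil nil) (node (nat_lit 0)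
  (nat_lit 42678) (nat_lit 8) nil nil))) (node (nat_lit 6) (nat_lit 42142) (nat_lit 7) (node
  (nat_lit 4) (nat_lit 42142) (nat_lit 8) (node (nat_lit 5) (nat_lit 42142) (nat_lit 9) nil (node
  (nat_lit 6) (nat_lit 42994) (nat_lit 9) nil (node (nat_lit 9) (nat_lit 42142) (nat_lit 9) nil
  (node (nat_lit 0) (nat_lit 42994) (nat_lit 9) nil nil)))) (node (nat_lit 9) (nat_lit 42142)
  (nat_lit 8) (node (nat_lit 4) (nat_lit 42142) (nat_lit 9) nil nil) (node (nat_lit 0) (nat_lit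
  42912) (nat_lit 8) nil nil))) (node (nat_lit 0) (nat_lit 42299) (nat_lit 7) (node (nat_lit 4)
  (nat_lit 42299) (nat_lit 8) nil (node (nat_lit 9) (nat_lit 42299) (nat_lit 8) nil (node (nat_lit
  5) (nat_lit 42299) (nat_lit 8) nil (node (nat_lit 0) (nat_lit 42815) (nat_lit 8) nil (node
  (nat_lit 6) (nat_lit 43070) (nat_lit 8) nil nil))))) nil)))) (node (nat_lit 0) (nat_lit 40164)
  (nat_lit 6) (node (nat_lit 5) (nat_lit 40597) (nat_lit 7) (node (nat_lit 4) (nat_lit 40800)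
  (nat_lit 8) (node (nat_lit 5) (nat_lit 40756) (nat_lit 9) nil (node (nat_lit 6) (nat_lit 42451)
  (nat_lit 9) nil nil)) (node (nat_lit 6) (nat_lit 42903) (nat_lit 8) nil (node (nat_lit 9)
  (nat_lit 43351) (nat_lit 8) nil (node (nat_lit 3) (nat_lit 40597) (nat_lit 8) nil (node (nat_lit
  0) (nat_lit 41912) (nat_lit 8) nil nil))))) (node (nat_lit 4) (nat_lit 40637) (nat_lit 7) (node
  (nat_lit 5) (nat_lit 40516) (nat_lit 8) (node (nat_lit 6) (nat_lit 42167) (nat_lit 9) nil (node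
  (nat_lit 4) (nat_lit 40516) (nat_lit 9) nil nil)) (node (nat_lit 6) (nat_lit 42943) (nat_lit 8)
  nil (node (nat_lit 3) (nat_lit 40637) (nat_lit 8) nil (node (nat_lit 0) (nat_lit 41952) (nat_lit
  8) nil nil)))) (node (nat_lit 6) (nat_lit 42477) (nat_lit 7) (node (nat_lit 4) (nat_lit 42477)
  (nat_lit 8) nil (node (nat_lit 9) (nat_lit 42993) (nat_lit 8) nil (node (nat_lit 5) (nat_lit
  42477) (nat_lit 8) nil nil))) (node (nat_lit 3) (nat_lit 40161) (nat_lit 7) (node (nat_lit 4)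
  (nat_lit 40161) (nat_lit 8) nil (node (nat_lit 5) (nat_lit 40161) (nat_lit 8) nil (node (nat_lit
  9) (nat_lit 42127) (nat_lit 8) nil (node (nat_lit 6) (nat_lit 41476) (nat_lit 8) nil (node
  (nat_lit 0) (nat_lit 41476) (nat_lit 8) nil nil))))) (node (nat_lit 0) (nat_lit 42412) (nat_lit
  7) (node (nat_lit 9) (nat_lit 42929) (nat_lit 8) nil (node (nat_lit 3) (nat_lit 42412) (nat_lit
  8) nil nil)) nil))))) nil)))) (node (nat_lit 3) (nat_lit 26805) (nat_lit 5) (node (nat_lit 4)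
  (nat_lit 32310) (nat_lit 6) (node (nat_lit 5) (nat_lit 37052) (nat_lit 7) (node (nat_lit 4)
  (nat_lit 39543) (nat_lit 8) (node (nat_lit 8) (nat_lit 39965) (nat_lit 9) (node (nat_lit 5)
  (nat_lit 38676) (nat_lit 10) (node (nat_lit 4) (nat_lit 38283) (nat_lit 11) nil nil) (node
  (nat_lit 4) (nat_lit 38477) (nat_lit 10) nil (node (nat_lit 6) (nat_lit 41435) (nat_lit 10) nil
  nil))) (node (nat_lit 6) (nat_lit 41775) (nat_lit 9) nil (node (nat_lit 0) (nat_lit 41775)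
  (nat_lit 9) nil nil))) (node (nat_lit 8) (nat_lit 38706) (nat_lit 8) (node (nat_lit 5) (nat_lit
  38296) (nat_lit 9) (node (nat_lit 4) (nat_lit 36417) (nat_lit 10) (node (nat_lit 5) (nat_lit
  37107) (nat_lit 11) (node (nat_lit 6) (nat_lit 38138) (nat_lit 12) (node (nat_lit 5) (nat_lit
  38138) (nat_lit 13) nil nil) nil) nil) nil) (node (nat_lit 6) (nat_lit 40938) (nat_lit 9) nil
  nil)) (node (nat_lit 6) (nat_lit 27583) (nat_lit 8) (node (nat_lit 5) (nat_lit 14061) (nat_lit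
  9) nil nil) (node (nat_lit 0) (nat_lit 42427) (nat_lit 8) (node (nat_lit 0) (nat_lit 42689)
  (nat_lit 9) nil nil) nil)))) (node (nat_lit 8) (nat_lit 36312) (nat_lit 7) (node (nat_lit 5)
  (nat_lit 35678) (nat_lit 8) (node (nat_lit 4) (nat_lit 36360) (nat_lit 9) (node (nat_lit 5)
  (nat_lit 33820) (nat_lit 10) (node (nat_lit 8) (nat_lit 34182) (nat_lit 11) (node (nat_lit 4)
  (nat_lit 34146) (nat_lit 12) (node (nat_lit 5) (nat_lit 33370) (nat_lit 13) nil nil) nil) (node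
  (nat_lit 6) (nat_lit 35469) (nat_lit 11) nil nil)) (node (nat_lit 6) (nat_lit 37830) (nat_lit
  10) nil nil)) (node (nat_lit 8) (nat_lit 36641) (nat_lit 9) (node (nat_lit 4) (nat_lit 35732)
  (nat_lit 10) (node (nat_lit 5) (nat_lit 34388) (nat_lit 11) (node (nat_lit 6) (nat_lit 30082)
  (nat_lit 12) (node (nat_lit 5) (nat_lit 30082) (nat_lit 13) nil nil) nil) nil) nil) (node
  (nat_lit 6) (nat_lit 37910) (nat_lit 9) nil (node (nat_lit 0) (nat_lit 37910) (nat_lit 9) nil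
  nil)))) (node (nat_lit 6) (nat_lit 42841) (nat_lit 8) (node (nat_lit 4) (nat_lit 42841) (nat_lit
  9) nil (node (nat_lit 5) (nat_lit 42841) (nat_lit 9) nil nil)) (node (nat_lit 0) (nat_lit 41687)
  (nat_lit 8) nil nil))) (node (nat_lit 6) (nat_lit 42375) (nat_lit 7) (node (nat_lit 8) (nat_lit
  42309) (nat_lit 8) (node (nat_lit 6) (nat_lit 42980) (nat_lit 9) nil (node (nat_lit 4) (nat_lit
  42309) (nat_lit 9) nil (node (nat_lit 5) (nat_lit 42309) (nat_lit 9) nil (node (nat_lit 0)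
  (nat_lit 42980) (nat_lit 9) nil nil)))) (node (nat_lit 4) (nat_lit 42375) (nat_lit 8) (node
  (nat_lit 8) (nat_lit 42375) (nat_lit 9) nil nil) (node (nat_lit 5) (nat_lit 42375) (nat_lit 8)
  nil (node (nat_lit 0) (nat_lit 43172) (nat_lit 8) nil nil)))) (node (nat_lit 0) (nat_lit 42573)
  (nat_lit 7) (node (nat_lit 4) (nat_lit 42573) (nat_lit 8) nil (node (nat_lit 8) (nat_lit 42573)
  (nat_lit 8) nil (node (nat_lit 0) (nat_lit 42982) (nat_lit 8) nil (node (nat_lit 6) (nat_lit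
  42982) (nat_lit 8) nil (node (nat_lit 5) (nat_lit 42573) (nat_lit 8) nil nil))))) nil)))) (node
  (nat_lit 5) (nat_lit 32240) (nat_lit 6) (node (nat_lit 6) (nat_lit 42450) (nat_lit 7) (node
  (nat_lit 8) (nat_lit 42620) (nat_lit 8) (node (nat_lit 6) (nat_lit 44155) (nat_lit 9) (node
  (nat_lit 5) (nat_lit 44212) (nat_lit 10) (node (nat_lit 8) (nat_lit 44296) (nat_lit 11) (node
  (nat_lit 6) (nat_lit 45178) (nat_lit 12) nil (node (nat_lit 4) (nat_lit 44296) (nat_lit 12) nil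
  (node (nat_lit 5) (nat_lit 44163) (nat_lit 12) (node (nat_lit 4) (nat_lit 43932) (nat_lit 13)
  nil nil) (node (nat_lit 0) (nat_lit 44830) (nat_lit 12) nil nil)))) (node (nat_lit 6) (nat_lit
  44587) (nat_lit 11) nil nil)) nil) (node (nat_lit 5) (nat_lit 42984) (nat_lit 9) (node (nat_lit
  8) (nat_lit 43341) (nat_lit 10) (node (nat_lit 6) (nat_lit 44861) (nat_lit 11) nil nil) (node
  (nat_lit 4) (nat_lit 42984) (nat_lit 10) nil nil)) (node (nat_lit 4) (nat_lit 42620) (nat_lit 9)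
  nil (node (nat_lit 0) (nat_lit 43739) (nat_lit 9) nil nil)))) (node (nat_lit 4) (nat_lit 42528)
  (nat_lit 8) (node (nat_lit 5) (nat_lit 42528) (nat_lit 9) nil (node (nat_lit 6) (nat_lit 43199)
  (nat_lit 9) nil nil)) (node (nat_lit 0) (nat_lit 43350) (nat_lit 8) nil nil))) (node (nat_lit 4)
  (nat_lit 37369) (nat_lit 7) (node (nat_lit 8) (nat_lit 39219) (nat_lit 8) (node (nat_lit 4)
  (nat_lit 37246) (nat_lit 9) (node (nat_lit 5) (nat_lit 30644) (nat_lit 10) (node (nat_lit 6)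
  (nat_lit 32399) (nat_lit 11) nil (node (nat_lit 8) (nat_lit 30453) (nat_lit 11) nil nil)) nil)
  (node (nat_lit 6) (nat_lit 41451) (nat_lit 9) nil nil)) (node (nat_lit 5) (nat_lit 38040)
  (nat_lit 8) (node (nat_lit 8) (nat_lit 38647) (nat_lit 9) (node (nat_lit 4) (nat_lit 37010)
  (nat_lit 10) (node (nat_lit 5) (nat_lit 37312) (nat_lit 11) nil nil) nil) (node (nat_lit 6)
  (nat_lit 35418) (nat_lit 9) nil nil)) (node (nat_lit 6) (nat_lit 43566) (nat_lit 8) nil (node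
  (nat_lit 0) (nat_lit 40868) (nat_lit 8) nil nil)))) (node (nat_lit 0) (nat_lit 42312) (nat_lit
  7) (node (nat_lit 8) (nat_lit 42312) (nat_lit 8) nil nil) nil))) (node (nat_lit 6) (nat_lit
  40366) (nat_lit 6) (node (nat_lit 8) (nat_lit 40736) (nat_lit 7) (node (nat_lit 5) (nat_lit
  41265) (nat_lit 8) (node (nat_lit 6) (nat_lit 44084) (nat_lit 9) (node (nat_lit 8) (nat_lit
  44084) (nat_lit 10) (node (nat_lit 6) (nat_lit 44740) (nat_lit 11) (node (nat_lit 5) (nat_lit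
  44740) (nat_lit 12) (node (nat_lit 8) (nat_lit 44740) (nat_lit 13) (node (nat_lit 6) (nat_lit
  45061) (nat_lit 14) nil nil) nil) nil) nil) (node (nat_lit 5) (nat_lit 44084) (nat_lit 10) nil
  nil)) (node (nat_lit 8) (nat_lit 41866) (nat_lit 9) (node (nat_lit 6) (nat_lit 43954) (nat_lit
  10) nil nil) (node (nat_lit 4) (nat_lit 41540) (nat_lit 9) (node (nat_lit 8) (nat_lit 42140)
  (nat_lit 10) nil nil) (node (nat_lit 0) (nat_lit 43380) (nat_lit 9) nil nil)))) (node (nat_lit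
  4) (nat_lit 41254) (nat_lit 8) (node (nat_lit 6) (nat_lit 42526) (nat_lit 9) nil (node (nat_lit
  5) (nat_lit 41254) (nat_lit 9) nil (node (nat_lit 8) (nat_lit 41254) (nat_lit 9) nil nil)))
  (node (nat_lit 0) (nat_lit 43459) (nat_lit 8) nil nil))) (node (nat_lit 5) (nat_lit 40736)
  (nat_lit 7) (node (nat_lit 6) (nat_lit 43536) (nat_lit 8) (node (nat_lit 8) (nat_lit 43658)
  (nat_lit 9) (node (nat_lit 5) (nat_lit 43434) (nat_lit 10) (node (nat_lit 8) (nat_lit 43434)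
  (nat_lit 11) nil nil) (node (nat_lit 6) (nat_lit 44483) (nat_lit 10) nil (node (nat_lit 4)
  (nat_lit 43658) (nat_lit 10) nil nil))) (node (nat_lit 4) (nat_lit 43536) (nat_lit 9) nil (node
  (nat_lit 0) (nat_lit 43798) (nat_lit 9) nil nil))) (node (nat_lit 4) (nat_lit 41469) (nat_lit 8)
  (node (nat_lit 8) (nat_lit 41237) (nat_lit 9) nil (node (nat_lit 5) (nat_lit 41866) (nat_lit 9)
  nil (node (nat_lit 6) (nat_lit 42740) (nat_lit 9) nil nil))) (node (nat_lit 0) (nat_lit 43459)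
  (nat_lit 8) nil nil))) (node (nat_lit 4) (nat_lit 41011) (nat_lit 7) (node (nat_lit 8) (nat_lit
  41750) (nat_lit 8) (node (nat_lit 4) (nat_lit 42147) (nat_lit 9) nil (node (nat_lit 5) (nat_lit
  42070) (nat_lit 9) nil (node (nat_lit 6) (nat_lit 43021) (nat_lit 9) nil (node (nat_lit 0)
  (nat_lit 43021) (nat_lit 9) nil nil)))) (node (nat_lit 6) (nat_lit 43708) (nat_lit 8) (node
  (nat_lit 5) (nat_lit 43708) (nat_lit 9) nil (node (nat_lit 0) (nat_lit 43970) (nat_lit 9) nil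
  nil)) (node (nat_lit 5) (nat_lit 41116) (nat_lit 8) (node (nat_lit 6) (nat_lit 42387) (nat_lit
  9) nil (node (nat_lit 4) (nat_lit 41116) (nat_lit 9) nil nil)) (node (nat_lit 0) (nat_lit 42020)
  (nat_lit 8) nil nil)))) (node (nat_lit 0) (nat_lit 42373) (nat_lit 7) (node (nat_lit 6) (nat_lit
  42782) (nat_lit 8) nil (node (nat_lit 8) (nat_lit 42373) (nat_lit 8) nil (node (nat_lit 5)
  (nat_lit 42373) (nat_lit 8) nil (node (nat_lit 0) (nat_lit 42782) (nat_lit 8) nil nil))))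
  nil)))) (node (nat_lit 0) (nat_lit 40520) (nat_lit 6) (node (nat_lit 5) (nat_lit 40652) (nat_lit
  7) (node (nat_lit 8) (nat_lit 40530) (nat_lit 8) (node (nat_lit 5) (nat_lit 40530) (nat_lit 9)
  nil nil) (node (nat_lit 6) (nat_lit 42652) (nat_lit 8) nil (node (nat_lit 9) (nat_lit 43099)
  (nat_lit 8) nil (node (nat_lit 4) (nat_lit 40652) (nat_lit 8) nil (node (nat_lit 0) (nat_lit
  41661) (nat_lit 8) nil nil))))) (node (nat_lit 8) (nat_lit 40734) (nat_lit 7) (node (nat_lit 5)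
  (nat_lit 40730) (nat_lit 8) (node (nat_lit 6) (nat_lit 42001) (nat_lit 9) nil (node (nat_lit 9)
  (nat_lit 42001) (nat_lit 9) nil (node (nat_lit 8) (nat_lit 40730) (nat_lit 9) nil nil))) (node
  (nat_lit 4) (nat_lit 40734) (nat_lit 8) nil (node (nat_lit 6) (nat_lit 42394) (nat_lit 8) nil
  (node (nat_lit 0) (nat_lit 41743) (nat_lit 8) nil nil)))) (node (nat_lit 4) (nat_lit 40529)
  (nat_lit 7) (node (nat_lit 5) (nat_lit 40529) (nat_lit 8) nil (node (nat_lit 8) (nat_lit 40529)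
  (nat_lit 8) nil (node (nat_lit 9) (nat_lit 41538) (nat_lit 8) nil (node (nat_lit 6) (nat_lit
  41538) (nat_lit 8) nil (node (nat_lit 0) (nat_lit 41538) (nat_lit 8) nil nil))))) (node (nat_lit
  6) (nat_lit 42497) (nat_lit 7) (node (nat_lit 9) (nat_lit 42906) (nat_lit 8) nil (node (nat_lit
  8) (nat_lit 42497) (nat_lit 8) nil (node (nat_lit 5) (nat_lit 42497) (nat_lit 8) nil nil)))
  (node (nat_lit 0) (nat_lit 42497) (nat_lit 7) (node (nat_lit 4) (nat_lit 42497) (nat_lit 8) nil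
  nil) nil))))) nil)))) (node (nat_lit 0) (nat_lit 36657) (nat_lit 5) (node (nat_lit 6) (nat_lit
  40760) (nat_lit 6) (node (nat_lit 5) (nat_lit 41192) (nat_lit 7) (node (nat_lit 6) (nat_lit
  43970) (nat_lit 8) (node (nat_lit 8) (nat_lit 44588) (nat_lit 9) (node (nat_lit 5) (nat_lit
  44588) (nat_lit 10) nil (node (nat_lit 6) (nat_lit 44941) (nat_lit 10) nil (node (nat_lit 0)
  (nat_lit 44787) (nat_lit 10) nil (node (nat_lit 3) (nat_lit 44588) (nat_lit 10) nil (node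
  (nat_lit 4) (nat_lit 44588) (nat_lit 10) nil nil))))) (node (nat_lit 4) (nat_lit 43970) (nat_lit
  9) nil (node (nat_lit 0) (nat_lit 44518) (nat_lit 9) nil (node (nat_lit 3) (nat_lit 43970)
  (nat_lit 9) nil nil)))) (node (nat_lit 4) (nat_lit 41949) (nat_lit 8) (node (nat_lit 5) (nat_lit
  41994) (nat_lit 9) nil (node (nat_lit 8) (nat_lit 44321) (nat_lit 9) nil (node (nat_lit 6)
  (nat_lit 43220) (nat_lit 9) nil (node (nat_lit 3) (nat_lit 41925) (nat_lit 9) nil (node (nat_lit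
  0) (nat_lit 43220) (nat_lit 9) nil nil))))) (node (nat_lit 3) (nat_lit 41624) (nat_lit 8) (node
  (nat_lit 5) (nat_lit 41627) (nat_lit 9) nil (node (nat_lit 4) (nat_lit 41260) (nat_lit 9) nil
  (node (nat_lit 8) (nat_lit 43994) (nat_lit 9) nil (node (nat_lit 6) (nat_lit 42895) (nat_lit 9)
  nil (node (nat_lit 0) (nat_lit 42895) (nat_lit 9) nil nil))))) (node (nat_lit 0) (nat_lit 43970)
  (nat_lit 8) (node (nat_lit 5) (nat_lit 43970) (nat_lit 9) nil (node (nat_lit 8) (nat_lit 44232)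
  (nat_lit 9) nil (node (nat_lit 6) (nat_lit 44232) (nat_lit 9) nil nil))) nil)))) (node (nat_lit
  8) (nat_lit 42794) (nat_lit 7) (node (nat_lit 5) (nat_lit 42733) (nat_lit 8) (node (nat_lit 6)
  (nat_lit 44085) (nat_lit 9) nil (node (nat_lit 8) (nat_lit 44085) (nat_lit 9) nil nil)) (node
  (nat_lit 4) (nat_lit 42794) (nat_lit 8) nil nil)) (node (nat_lit 4) (nat_lit 40793) (nat_lit 7)
  (node (nat_lit 5) (nat_lit 40793) (nat_lit 8) nil (node (nat_lit 8) (nat_lit 41802) (nat_lit 8)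
  nil (node (nat_lit 3) (nat_lit 40793) (nat_lit 8) nil nil))) (node (nat_lit 3) (nat_lit 41155)
  (nat_lit 7) (node (nat_lit 5) (nat_lit 41155) (nat_lit 8) nil (node (nat_lit 4) (nat_lit 41155)
  (nat_lit 8) nil nil)) (node (nat_lit 0) (nat_lit 42715) (nat_lit 7) nil nil))))) (node (nat_lit
  5) (nat_lit 37575) (nat_lit 6) (node (nat_lit 6) (nat_lit 42528) (nat_lit 7) (node (nat_lit 8)
  (nat_lit 43785) (nat_lit 8) (node (nat_lit 6) (nat_lit 44240) (nat_lit 9) nil (node (nat_lit 5)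
  (nat_lit 43785) (nat_lit 9) (node (nat_lit 8) (nat_lit 44245) (nat_lit 10) nil nil) nil)) (node
  (nat_lit 4) (nat_lit 42528) (nat_lit 8) nil (node (nat_lit 5) (nat_lit 42528) (nat_lit 8) nil
  (node (nat_lit 3) (nat_lit 42528) (nat_lit 8) nil (node (nat_lit 0) (nat_lit 42937) (nat_lit 8)
  nil nil))))) (node (nat_lit 4) (nat_lit 38933) (nat_lit 7) (node (nat_lit 5) (nat_lit 39205)
  (nat_lit 8) (node (nat_lit 8) (nat_lit 41437) (nat_lit 9) nil nil) (node (nat_lit 8) (nat_lit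
  42137) (nat_lit 8) nil (node (nat_lit 6) (nat_lit 42137) (nat_lit 8) nil (node (nat_lit 3)
  (nat_lit 38974) (nat_lit 8) nil (node (nat_lit 0) (nat_lit 40903) (nat_lit 8) nil nil))))) (node
  (nat_lit 3) (nat_lit 38663) (nat_lit 7) (node (nat_lit 5) (nat_lit 39574) (nat_lit 8) nil (node
  (nat_lit 4) (nat_lit 39245) (nat_lit 8) nil (node (nat_lit 8) (nat_lit 42509) (nat_lit 8) nil
  (node (nat_lit 6) (nat_lit 41866) (nat_lit 8) nil (node (nat_lit 0) (nat_lit 40633) (nat_lit 8)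
  nil nil))))) (node (nat_lit 0) (nat_lit 42271) (nat_lit 7) nil nil)))) (node (nat_lit 4)
  (nat_lit 37621) (nat_lit 6) (node (nat_lit 5) (nat_lit 38943) (nat_lit 7) (node (nat_lit 8)
  (nat_lit 42790) (nat_lit 8) nil (node (nat_lit 4) (nat_lit 40052) (nat_lit 8) (node (nat_lit 6)
  (nat_lit 42284) (nat_lit 9) nil (node (nat_lit 8) (nat_lit 42284) (nat_lit 9) nil nil)) (node
  (nat_lit 6) (nat_lit 40913) (nat_lit 8) nil (node (nat_lit 3) (nat_lit 38943) (nat_lit 8) nil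
  (node (nat_lit 0) (nat_lit 40913) (nat_lit 8) nil nil))))) (node (nat_lit 6) (nat_lit 42583)
  (nat_lit 7) (node (nat_lit 4) (nat_lit 42583) (nat_lit 8) nil (node (nat_lit 5) (nat_lit 42583)
  (nat_lit 8) nil (node (nat_lit 8) (nat_lit 42992) (nat_lit 8) nil nil))) (node (nat_lit 8)
  (nat_lit 42288) (nat_lit 7) (node (nat_lit 5) (nat_lit 42288) (nat_lit 8) nil nil) (node
  (nat_lit 3) (nat_lit 38778) (nat_lit 7) (node (nat_lit 4) (nat_lit 39457) (nat_lit 8) nil (node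
  (nat_lit 5) (nat_lit 38778) (nat_lit 8) nil (node (nat_lit 6) (nat_lit 40749) (nat_lit 8) nil
  nil))) (node (nat_lit 0) (nat_lit 42288) (nat_lit 7) nil nil))))) (node (nat_lit 3) (nat_lit
  37577) (nat_lit 6) (node (nat_lit 5) (nat_lit 38939) (nat_lit 7) (node (nat_lit 9) (nat_lit
  40207) (nat_lit 8) nil (node (nat_lit 6) (nat_lit 40909) (nat_lit 8) nil (node (nat_lit 8)
  (nat_lit 42142) (nat_lit 8) nil (node (nat_lit 4) (nat_lit 38939) (nat_lit 8) nil nil)))) (node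
  (nat_lit 4) (nat_lit 38913) (nat_lit 7) (node (nat_lit 9) (nat_lit 38954) (nat_lit 8) nil nil)
  (node (nat_lit 8) (nat_lit 42335) (nat_lit 7) nil (node (nat_lit 6) (nat_lit 42335) (nat_lit 7)
  (node (nat_lit 9) (nat_lit 42335) (nat_lit 8) nil nil) (node (nat_lit 0) (nat_lit 41930)
  (nat_lit 7) nil nil))))) (node (nat_lit 0) (nat_lit 40676) (nat_lit 6) (node (nat_lit 5)
  (nat_lit 40848) (nat_lit 7) (node (nat_lit 6) (nat_lit 41857) (nat_lit 8) nil (node (nat_lit 8)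
  (nat_lit 42848) (nat_lit 8) nil (node (nat_lit 9) (nat_lit 41857) (nat_lit 8) nil nil))) (node
  (nat_lit 3) (nat_lit 40676) (nat_lit 7) nil (node (nat_lit 4) (nat_lit 40676) (nat_lit 7) nil
  (node (nat_lit 8) (nat_lit 42599) (nat_lit 7) nil (node (nat_lit 6) (nat_lit 42393) (nat_lit 7)
  nil (node (nat_lit 0) (nat_lit 41880) (nat_lit 7) nil nil)))))) nil))))) nil)))

noncomputable def t342 : Tr :=
  (node (nat_lit 4) (nat_lit 0) (nat_lit 3) (node (nat_lit 0) (nat_lit 0) (nat_lit 4) (node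
  (nat_lit 5) (nat_lit 0) (nat_lit 5) (node (nat_lit 4) (nat_lit 17246) (nat_lit 6) (node (nat_lit
  5) (nat_lit 19922) (nat_lit 7) (node (nat_lit 7) (nat_lit 23859) (nat_lit 8) (node (nat_lit 4)
  (nat_lit 23859) (nat_lit 9) (node (nat_lit 7) (nat_lit 23859) (nat_lit 10) (node (nat_lit 5)
  (nat_lit 23859) (nat_lit 11) (node (nat_lit 4) (nat_lit 23859) (nat_lit 12) (node (nat_lit 7)
  (nat_lit 23859) (nat_lit 13) nil nil) nil) nil) (node (nat_lit 5) (nat_lit 23859) (nat_lit 10)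
  (node (nat_lit 4) (nat_lit 23859) (nat_lit 11) (node (nat_lit 7) (nat_lit 23859) (nat_lit 12)
  nil nil) nil) (node (nat_lit 3) (nat_lit 23859) (nat_lit 10) nil (node (nat_lit 0) (nat_lit
  23859) (nat_lit 10) nil nil)))) (node (nat_lit 5) (nat_lit 23859) (nat_lit 9) (node (nat_lit 4)
  (nat_lit 23859) (nat_lit 10) (node (nat_lit 7) (nat_lit 23859) (nat_lit 11) (node (nat_lit 4)
  (nat_lit 23859) (nat_lit 12) (node (nat_lit 5) (nat_lit 23859) (nat_lit 13) (node (nat_lit 4)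
  (nat_lit 23859) (nat_lit 14) nil nil) nil) (node (nat_lit 5) (nat_lit 23859) (nat_lit 12) nil
  nil)) (node (nat_lit 3) (nat_lit 23859) (nat_lit 11) nil (node (nat_lit 0) (nat_lit 23859)
  (nat_lit 11) nil nil))) (node (nat_lit 3) (nat_lit 23859) (nat_lit 10) nil (node (nat_lit 0)
  (nat_lit 23859) (nat_lit 10) nil nil))) (node (nat_lit 3) (nat_lit 23859) (nat_lit 9) nil (node
  (nat_lit 0) (nat_lit 23859) (nat_lit 9) nil nil)))) (node (nat_lit 3) (nat_lit 22249) (nat_lit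
  8) (node (nat_lit 4) (nat_lit 23245) (nat_lit 9) (node (nat_lit 5) (nat_lit 23549) (nat_lit 10)
  nil (node (nat_lit 11) (nat_lit 23549) (nat_lit 10) nil nil)) (node (nat_lit 5) (nat_lit 22644)
  (nat_lit 9) nil (node (nat_lit 7) (nat_lit 23859) (nat_lit 9) nil (node (nat_lit 0) (nat_lit
  23492) (nat_lit 9) nil nil)))) (node (nat_lit 0) (nat_lit 23859) (nat_lit 8) (node (nat_lit 4)
  (nat_lit 23859) (nat_lit 9) nil (node (nat_lit 5) (nat_lit 23859) (nat_lit 9) nil (node (nat_lit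
  7) (nat_lit 23859) (nat_lit 9) nil (node (nat_lit 3) (nat_lit 23859) (nat_lit 9) nil nil))))
  nil))) (node (nat_lit 3) (nat_lit 19893) (nat_lit 7) (node (nat_lit 5) (nat_lit 21715) (nat_lit
  8) (node (nat_lit 10) (nat_lit 22051) (nat_lit 9) (node (nat_lit 4) (nat_lit 21248) (nat_lit 10)
  (node (nat_lit 5) (nat_lit 15281) (nat_lit 11) (node (nat_lit 4) (nat_lit 12732) (nat_lit 12)
  (node (nat_lit 7) (nat_lit 13536) (nat_lit 13) nil nil) nil) nil) (node (nat_lit 7) (nat_lit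
  22796) (nat_lit 10) nil nil)) (node (nat_lit 4) (nat_lit 22315) (nat_lit 9) nil (node (nat_lit
  7) (nat_lit 23859) (nat_lit 9) nil (node (nat_lit 0) (nat_lit 22958) (nat_lit 9) nil nil))))
  (node (nat_lit 4) (nat_lit 22316) (nat_lit 8) (node (nat_lit 5) (nat_lit 22711) (nat_lit 9) nil
  (node (nat_lit 7) (nat_lit 23559) (nat_lit 9) nil (node (nat_lit 0) (nat_lit 23559) (nat_lit 9)
  nil nil))) (node (nat_lit 7) (nat_lit 23859) (nat_lit 8) (node (nat_lit 4) (nat_lit 23859)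
  (nat_lit 9) nil nil) (node (nat_lit 0) (nat_lit 23850) (nat_lit 8) nil nil)))) (node (nat_lit 0)
  (nat_lit 23407) (nat_lit 7) (node (nat_lit 4) (nat_lit 23407) (nat_lit 8) nil (node (nat_lit 5)
  (nat_lit 23407) (nat_lit 8) nil (node (nat_lit 7) (nat_lit 23614) (nat_lit 8) nil (node (nat_lit
  3) (nat_lit 23407) (nat_lit 8) nil (node (nat_lit 0) (nat_lit 23614) (nat_lit 8) nil nil)))))
  nil))) (node (nat_lit 7) (nat_lit 21723) (nat_lit 6) (node (nat_lit 4) (nat_lit 21971) (nat_lit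
  7) (node (nat_lit 7) (nat_lit 23859) (nat_lit 8) (node (nat_lit 5) (nat_lit 23859) (nat_lit 9)
  nil nil) (node (nat_lit 5) (nat_lit 22623) (nat_lit 8) (node (nat_lit 7) (nat_lit 23267)
  (nat_lit 9) nil nil) nil)) (node (nat_lit 3) (nat_lit 21723) (nat_lit 7) nil (node (nat_lit 0)
  (nat_lit 22424) (nat_lit 7) nil nil))) (node (nat_lit 3) (nat_lit 16943) (nat_lit 6) (node
  (nat_lit 7) (nat_lit 22231) (nat_lit 7) nil (node (nat_lit 4) (nat_lit 18015) (nat_lit 7) (node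
  (nat_lit 9) (nat_lit 19085) (nat_lit 8) nil nil) (node (nat_lit 5) (nat_lit 16950) (nat_lit 7)
  nil nil))) (node (nat_lit 0) (nat_lit 21359) (nat_lit 6) nil nil)))) (node (nat_lit 4) (nat_lit
  0) (nat_lit 5) (node (nat_lit 5) (nat_lit 17390) (nat_lit 6) (node (nat_lit 7) (nat_lit 23577)
  (nat_lit 7) (node (nat_lit 5) (nat_lit 23577) (nat_lit 8) (node (nat_lit 4) (nat_lit 23577)
  (nat_lit 9) (node (nat_lit 7) (nat_lit 23859) (nat_lit 10) (node (nat_lit 4) (nat_lit 23859)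
  (nat_lit 11) (node (nat_lit 5) (nat_lit 23859) (nat_lit 12) nil nil) nil) nil) nil) (node
  (nat_lit 4) (nat_lit 23577) (nat_lit 8) nil nil)) (node (nat_lit 3) (nat_lit 19063) (nat_lit 7)
  nil (node (nat_lit 0) (nat_lit 22678) (nat_lit 7) nil nil))) (node (nat_lit 3) (nat_lit 16826)
  (nat_lit 6) (node (nat_lit 4) (nat_lit 17951) (nat_lit 7) nil (node (nat_lit 7) (nat_lit 20903)
  (nat_lit 7) nil (node (nat_lit 5) (nat_lit 16833) (nat_lit 7) nil (node (nat_lit 0) (nat_lit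
  18799) (nat_lit 7) nil nil)))) (node (nat_lit 0) (nat_lit 21569) (nat_lit 6) nil nil))) (node
  (nat_lit 3) (nat_lit 14565) (nat_lit 5) (node (nat_lit 4) (nat_lit 16836) (nat_lit 6) (node
  (nat_lit 5) (nat_lit 19067) (nat_lit 7) (node (nat_lit 8) (nat_lit 20718) (nat_lit 8) nil (node
  (nat_lit 7) (nat_lit 21247) (nat_lit 8) nil (node (nat_lit 4) (nat_lit 18431) (nat_lit 8) nil
  (node (nat_lit 0) (nat_lit 21247) (nat_lit 8) nil nil)))) (node (nat_lit 8) (nat_lit 19110)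
  (nat_lit 7) (node (nat_lit 7) (nat_lit 22523) (nat_lit 8) nil (node (nat_lit 5) (nat_lit 18380)
  (nat_lit 8) nil (node (nat_lit 0) (nat_lit 21290) (nat_lit 8) nil nil))) (node (nat_lit 0)
  (nat_lit 22124) (nat_lit 7) nil nil))) (node (nat_lit 5) (nat_lit 16372) (nat_lit 6) (node
  (nat_lit 7) (nat_lit 20448) (nat_lit 7) nil (node (nat_lit 8) (nat_lit 17496) (nat_lit 7) nil
  (node (nat_lit 4) (nat_lit 16372) (nat_lit 7) nil (node (nat_lit 0) (nat_lit 18345) (nat_lit 7)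
  nil nil)))) (node (nat_lit 7) (nat_lit 20767) (nat_lit 6) nil (node (nat_lit 0) (nat_lit 20767)
  (nat_lit 6) nil nil)))) (node (nat_lit 0) (nat_lit 19056) (nat_lit 5) (node (nat_lit 4) (nat_lit
  18819) (nat_lit 6) (node (nat_lit 5) (nat_lit 18819) (nat_lit 7) nil (node (nat_lit 8) (nat_lit
  19722) (nat_lit 7) nil nil)) (node (nat_lit 5) (nat_lit 19056) (nat_lit 6) nil (node (nat_lit 7)
  (nat_lit 20237) (nat_lit 6) nil (node (nat_lit 3) (nat_lit 19056) (nat_lit 6) nil (node (nat_lit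
  0) (nat_lit 20237) (nat_lit 6) nil nil))))) nil)))) (node (nat_lit 3) (nat_lit 0) (nat_lit 4)
  (node (nat_lit 0) (nat_lit 16132) (nat_lit 5) (node (nat_lit 5) (nat_lit 16132) (nat_lit 6) nil
  (node (nat_lit 7) (nat_lit 16132) (nat_lit 6) nil (node (nat_lit 4) (nat_lit 16132) (nat_lit 6)
  nil (node (nat_lit 0) (nat_lit 16731) (nat_lit 6) nil nil)))) (node (nat_lit 5) (nat_lit 0)
  (nat_lit 5) (node (nat_lit 7) (nat_lit 0) (nat_lit 6) (node (nat_lit 4) (nat_lit 0) (nat_lit 7)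
  (node (nat_lit 5) (nat_lit 5688) (nat_lit 8) (node (nat_lit 7) (nat_lit 7385) (nat_lit 9) (node
  (nat_lit 5) (nat_lit 8031) (nat_lit 10) nil nil) (node (nat_lit 0) (nat_lit 9530) (nat_lit 9)
  nil nil)) (node (nat_lit 7) (nat_lit 4735) (nat_lit 8) (node (nat_lit 5) (nat_lit 4400) (nat_lit
  9) nil nil) (node (nat_lit 0) (nat_lit 8238) (nat_lit 8) nil nil))) (node (nat_lit 0) (nat_lit
  13666) (nat_lit 7) nil nil)) (node (nat_lit 0) (nat_lit 15546) (nat_lit 6) (node (nat_lit 7)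
  (nat_lit 15546) (nat_lit 7) nil nil) (node (nat_lit 4) (nat_lit 0) (nat_lit 6) (node (nat_lit 5)
  (nat_lit 0) (nat_lit 7) (node (nat_lit 0) (nat_lit 5958) (nat_lit 8) nil nil) (node (nat_lit 0)
  (nat_lit 6797) (nat_lit 7) nil nil)) nil))) (node (nat_lit 4) (nat_lit 0) (nat_lit 5) (node
  (nat_lit 5) (nat_lit 0) (nat_lit 6) (node (nat_lit 7) (nat_lit 6963) (nat_lit 7) (node (nat_lit
  4) (nat_lit 7913) (nat_lit 8) nil (node (nat_lit 5) (nat_lit 8512) (nat_lit 8) nil nil)) (node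
  (nat_lit 0) (nat_lit 12117) (nat_lit 7) (node (nat_lit 7) (nat_lit 12117) (nat_lit 8) nil nil)
  nil)) (node (nat_lit 0) (nat_lit 12120) (nat_lit 6) (node (nat_lit 4) (nat_lit 12120) (nat_lit
  7) nil (node (nat_lit 5) (nat_lit 12120) (nat_lit 7) nil (node (nat_lit 7) (nat_lit 12120)
  (nat_lit 7) nil (node (nat_lit 0) (nat_lit 12685) (nat_lit 7) nil nil)))) nil)) nil))) nil))
  (node (nat_lit 3) (nat_lit 0) (nat_lit 3) (node (nat_lit 4) (nat_lit 0) (nat_lit 4) (node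
  (nat_lit 0) (nat_lit 0) (nat_lit 5) (node (nat_lit 5) (nat_lit 16388) (nat_lit 6) (node (nat_lit
  6) (nat_lit 16388) (nat_lit 7) nil (node (nat_lit 4) (nat_lit 16388) (nat_lit 7) nil nil)) (node
  (nat_lit 4) (nat_lit 16863) (nat_lit 6) (node (nat_lit 6) (nat_lit 16863) (nat_lit 7) (node
  (nat_lit 8) (nat_lit 18966) (nat_lit 8) nil nil) nil) (node (nat_lit 6) (nat_lit 16667) (nat_lit
  6) (node (nat_lit 8) (nat_lit 18373) (nat_lit 7) nil (node (nat_lit 4) (nat_lit 16667) (nat_lit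
  7) nil nil)) (node (nat_lit 0) (nat_lit 18821) (nat_lit 6) nil nil)))) (node (nat_lit 6)
  (nat_lit 0) (nat_lit 5) (node (nat_lit 5) (nat_lit 0) (nat_lit 6) (node (nat_lit 4) (nat_lit
  7945) (nat_lit 7) (node (nat_lit 5) (nat_lit 8757) (nat_lit 8) nil (node (nat_lit 0) (nat_lit
  12104) (nat_lit 8) nil nil)) (node (nat_lit 6) (nat_lit 7848) (nat_lit 7) (node (nat_lit 4)
  (nat_lit 8858) (nat_lit 8) (node (nat_lit 5) (nat_lit 9768) (nat_lit 9) nil nil) (node (nat_lit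
  0) (nat_lit 16908) (nat_lit 8) nil nil)) (node (nat_lit 0) (nat_lit 16014) (nat_lit 7) (node
  (nat_lit 4) (nat_lit 16014) (nat_lit 8) nil nil) nil))) (node (nat_lit 0) (nat_lit 17598)
  (nat_lit 6) (node (nat_lit 4) (nat_lit 17598) (nat_lit 7) nil (node (nat_lit 6) (nat_lit 17598)
  (nat_lit 7) nil (node (nat_lit 5) (nat_lit 17598) (nat_lit 7) nil (node (nat_lit 0) (nat_lit
  18620) (nat_lit 7) nil nil)))) nil)) (node (nat_lit 5) (nat_lit 0) (nat_lit 5) (node (nat_lit 4)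
  (nat_lit 0) (nat_lit 6) (node (nat_lit 6) (nat_lit 0) (nat_lit 7) (node (nat_lit 4) (nat_lit
  3901) (nat_lit 8) (node (nat_lit 5) (nat_lit 4432) (nat_lit 9) nil nil) (node (nat_lit 0)
  (nat_lit 6387) (nat_lit 8) nil nil)) (node (nat_lit 0) (nat_lit 8444) (nat_lit 7) nil nil))
  (node (nat_lit 0) (nat_lit 7557) (nat_lit 6) (node (nat_lit 4) (nat_lit 7557) (nat_lit 7) (node
  (nat_lit 6) (nat_lit 7557) (nat_lit 8) nil nil) (node (nat_lit 5) (nat_lit 7557) (nat_lit 7) nil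
  (node (nat_lit 6) (nat_lit 7557) (nat_lit 7) nil (node (nat_lit 0) (nat_lit 8022) (nat_lit 7)
  nil nil)))) nil)) nil))) (node (nat_lit 0) (nat_lit 0) (nat_lit 4) (node (nat_lit 5) (nat_lit 0)
  (nat_lit 5) (node (nat_lit 6) (nat_lit 27760) (nat_lit 6) (node (nat_lit 5) (nat_lit 31069)
  (nat_lit 7) (node (nat_lit 7) (nat_lit 37793) (nat_lit 8) (node (nat_lit 5) (nat_lit 37612)
  (nat_lit 9) (node (nat_lit 6) (nat_lit 37691) (nat_lit 10) (node (nat_lit 7) (nat_lit 38417)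
  (nat_lit 11) (node (nat_lit 6) (nat_lit 38417) (nat_lit 12) (node (nat_lit 5) (nat_lit 38417)
  (nat_lit 13) (node (nat_lit 6) (nat_lit 38417) (nat_lit 14) (node (nat_lit 7) (nat_lit 38417)
  (nat_lit 15) nil nil) nil) nil) (node (nat_lit 5) (nat_lit 38417) (nat_lit 12) (node (nat_lit 7)
  (nat_lit 38417) (nat_lit 13) nil nil) nil)) (node (nat_lit 4) (nat_lit 37691) (nat_lit 11) nil
  (node (nat_lit 0) (nat_lit 38140) (nat_lit 11) nil nil))) (node (nat_lit 4) (nat_lit 37387)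
  (nat_lit 10) (node (nat_lit 7) (nat_lit 38005) (nat_lit 11) nil (node (nat_lit 5) (nat_lit
  37387) (nat_lit 11) nil (node (nat_lit 6) (nat_lit 37387) (nat_lit 11) nil nil))) (node (nat_lit
  0) (nat_lit 38411) (nat_lit 10) (node (nat_lit 7) (nat_lit 38417) (nat_lit 11) (node (nat_lit 5)
  (nat_lit 38417) (nat_lit 12) nil nil) (node (nat_lit 5) (nat_lit 38411) (nat_lit 11) nil nil))
  nil))) (node (nat_lit 6) (nat_lit 37793) (nat_lit 9) (node (nat_lit 5) (nat_lit 37793) (nat_lit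
  10) (node (nat_lit 6) (nat_lit 37793) (nat_lit 11) nil nil) (node (nat_lit 7) (nat_lit 38048)
  (nat_lit 10) (node (nat_lit 5) (nat_lit 38048) (nat_lit 11) nil nil) (node (nat_lit 4) (nat_lit
  37793) (nat_lit 10) nil (node (nat_lit 0) (nat_lit 38048) (nat_lit 10) nil nil)))) (node
  (nat_lit 4) (nat_lit 37793) (nat_lit 9) nil (node (nat_lit 0) (nat_lit 37943) (nat_lit 9) nil
  nil)))) (node (nat_lit 4) (nat_lit 34383) (nat_lit 8) (node (nat_lit 6) (nat_lit 35269) (nat_lit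
  9) (node (nat_lit 4) (nat_lit 34527) (nat_lit 10) (node (nat_lit 5) (nat_lit 30350) (nat_lit 11)
  (node (nat_lit 6) (nat_lit 29059) (nat_lit 12) nil nil) nil) nil) (node (nat_lit 7) (nat_lit
  37584) (nat_lit 9) nil (node (nat_lit 0) (nat_lit 36740) (nat_lit 9) nil nil))) (node (nat_lit
  0) (nat_lit 37336) (nat_lit 8) (node (nat_lit 4) (nat_lit 37336) (nat_lit 9) nil (node (nat_lit
  7) (nat_lit 37575) (nat_lit 9) nil nil)) nil))) (node (nat_lit 4) (nat_lit 31201) (nat_lit 7)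
  (node (nat_lit 7) (nat_lit 37792) (nat_lit 8) (node (nat_lit 6) (nat_lit 37792) (nat_lit 9) nil
  (node (nat_lit 5) (nat_lit 37792) (nat_lit 9) nil (node (nat_lit 4) (nat_lit 37792) (nat_lit 9)
  nil (node (nat_lit 0) (nat_lit 38012) (nat_lit 9) nil nil)))) (node (nat_lit 5) (nat_lit 34367)
  (nat_lit 8) (node (nat_lit 4) (nat_lit 34266) (nat_lit 9) nil (node (nat_lit 7) (nat_lit 36724)
  (nat_lit 9) nil (node (nat_lit 6) (nat_lit 34771) (nat_lit 9) (node (nat_lit 7) (nat_lit 25247)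
  (nat_lit 10) nil nil) (node (nat_lit 0) (nat_lit 36724) (nat_lit 9) nil nil)))) (node (nat_lit
  6) (nat_lit 33915) (nat_lit 8) (node (nat_lit 5) (nat_lit 33116) (nat_lit 9) (node (nat_lit 4)
  (nat_lit 29862) (nat_lit 10) (node (nat_lit 5) (nat_lit 27732) (nat_lit 11) (node (nat_lit 6)
  (nat_lit 28125) (nat_lit 12) nil nil) nil) nil) (node (nat_lit 7) (nat_lit 36272) (nat_lit 9)
  nil (node (nat_lit 0) (nat_lit 36272) (nat_lit 9) nil nil))) (node (nat_lit 0) (nat_lit 37025)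
  (nat_lit 8) nil nil)))) (node (nat_lit 0) (nat_lit 36884) (nat_lit 7) (node (nat_lit 6) (nat_lit
  36884) (nat_lit 8) nil (node (nat_lit 5) (nat_lit 36884) (nat_lit 8) nil (node (nat_lit 4)
  (nat_lit 36884) (nat_lit 8) nil (node (nat_lit 7) (nat_lit 37281) (nat_lit 8) nil (node (nat_lit
  0) (nat_lit 37281) (nat_lit 8) nil nil))))) nil))) (node (nat_lit 4) (nat_lit 26875) (nat_lit 6)
  (node (nat_lit 7) (nat_lit 32529) (nat_lit 7) nil (node (nat_lit 6) (nat_lit 26774) (nat_lit 7)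
  (node (nat_lit 4) (nat_lit 28619) (nat_lit 8) nil nil) nil)) (node (nat_lit 7) (nat_lit 34324)
  (nat_lit 6) (node (nat_lit 6) (nat_lit 34324) (nat_lit 7) nil nil) (node (nat_lit 0) (nat_lit
  32114) (nat_lit 6) nil nil)))) (node (nat_lit 4) (nat_lit 0) (nat_lit 5) (node (nat_lit 6)
  (nat_lit 27085) (nat_lit 6) (node (nat_lit 4) (nat_lit 30095) (nat_lit 7) (node (nat_lit 7)
  (nat_lit 35919) (nat_lit 8) nil (node (nat_lit 5) (nat_lit 31151) (nat_lit 8) nil (node (nat_lit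
  0) (nat_lit 34043) (nat_lit 8) nil nil))) (node (nat_lit 5) (nat_lit 29962) (nat_lit 7) (node
  (nat_lit 4) (nat_lit 30654) (nat_lit 8) nil (node (nat_lit 7) (nat_lit 33910) (nat_lit 8) nil
  (node (nat_lit 6) (nat_lit 31807) (nat_lit 8) nil (node (nat_lit 0) (nat_lit 33910) (nat_lit 8)
  nil nil)))) (node (nat_lit 0) (nat_lit 33850) (nat_lit 7) nil (node (nat_lit 7) (nat_lit 30636)
  (nat_lit 7) nil nil)))) (node (nat_lit 7) (nat_lit 31283) (nat_lit 6) nil (node (nat_lit 5)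
  (nat_lit 25492) (nat_lit 6) (node (nat_lit 7) (nat_lit 29043) (nat_lit 7) nil (node (nat_lit 4)
  (nat_lit 26038) (nat_lit 7) (node (nat_lit 7) (nat_lit 29986) (nat_lit 8) nil nil) (node
  (nat_lit 0) (nat_lit 29043) (nat_lit 7) nil nil))) (node (nat_lit 0) (nat_lit 29486) (nat_lit 6)
  nil nil)))) (node (nat_lit 6) (nat_lit 0) (nat_lit 5) (node (nat_lit 5) (nat_lit 26705) (nat_lit
  6) (node (nat_lit 7) (nat_lit 35984) (nat_lit 7) (node (nat_lit 5) (nat_lit 35984) (nat_lit 8)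
  (node (nat_lit 6) (nat_lit 35984) (nat_lit 9) (node (nat_lit 7) (nat_lit 36827) (nat_lit 10)
  (node (nat_lit 6) (nat_lit 36827) (nat_lit 11) (node (nat_lit 5) (nat_lit 36827) (nat_lit 12)
  nil nil) nil) nil) nil) nil) (node (nat_lit 6) (nat_lit 26705) (nat_lit 7) nil (node (nat_lit 4)
  (nat_lit 26705) (nat_lit 7) nil nil))) (node (nat_lit 4) (nat_lit 25804) (nat_lit 6) (node
  (nat_lit 7) (nat_lit 31458) (nat_lit 7) nil (node (nat_lit 5) (nat_lit 25804) (nat_lit 7) nil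
  (node (nat_lit 6) (nat_lit 25804) (nat_lit 7) nil nil))) (node (nat_lit 0) (nat_lit 29772)
  (nat_lit 6) nil nil))) (node (nat_lit 0) (nat_lit 29626) (nat_lit 5) (node (nat_lit 6) (nat_lit
  29626) (nat_lit 6) (node (nat_lit 5) (nat_lit 29626) (nat_lit 7) nil nil) (node (nat_lit 5)
  (nat_lit 29626) (nat_lit 6) nil (node (nat_lit 7) (nat_lit 30751) (nat_lit 6) nil (node (nat_lit
  4) (nat_lit 29626) (nat_lit 6) nil (node (nat_lit 0) (nat_lit 30751) (nat_lit 6) nil nil)))))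
  nil)))) (node (nat_lit 5) (nat_lit 0) (nat_lit 4) (node (nat_lit 0) (nat_lit 0) (nat_lit 5)
  (node (nat_lit 4) (nat_lit 23114) (nat_lit 6) (node (nat_lit 6) (nat_lit 23114) (nat_lit 7) nil
  nil) (node (nat_lit 6) (nat_lit 23114) (nat_lit 6) (node (nat_lit 5) (nat_lit 23114) (nat_lit 7)
  nil nil) (node (nat_lit 5) (nat_lit 23114) (nat_lit 6) nil (node (nat_lit 0) (nat_lit 24239)
  (nat_lit 6) nil nil)))) (node (nat_lit 4) (nat_lit 0) (nat_lit 5) (node (nat_lit 6) (nat_lit 0)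
  (nat_lit 6) (node (nat_lit 4) (nat_lit 0) (nat_lit 7) (node (nat_lit 0) (nat_lit 12295) (nat_lit
  8) nil nil) (node (nat_lit 5) (nat_lit 11906) (nat_lit 7) (node (nat_lit 6) (nat_lit 14234)
  (nat_lit 8) (node (nat_lit 4) (nat_lit 14627) (nat_lit 9) (node (nat_lit 5) (nat_lit 9868)
  (nat_lit 10) nil nil) nil) (node (nat_lit 0) (nat_lit 17517) (nat_lit 8) nil nil)) (node
  (nat_lit 0) (nat_lit 19435) (nat_lit 7) nil nil))) (node (nat_lit 0) (nat_lit 24107) (nat_lit 6)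
  nil (node (nat_lit 5) (nat_lit 10395) (nat_lit 6) (node (nat_lit 6) (nat_lit 12724) (nat_lit 7)
  (node (nat_lit 4) (nat_lit 13536) (nat_lit 8) nil nil) nil) nil))) nil)) nil))) nil))

noncomputable def t343 : Tr :=
  (node (nat_lit 5) (nat_lit 0) (nat_lit 4) (node (nat_lit 4) (nat_lit 50830) (nat_lit 5) (node
  (nat_lit 6) (nat_lit 53234) (nat_lit 6) (node (nat_lit 4) (nat_lit 56486) (nat_lit 7) (node
  (nat_lit 5) (nat_lit 64231) (nat_lit 8) (node (nat_lit 6) (nat_lit 64142) (nat_lit 9) (node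
  (nat_lit 5) (nat_lit 51515) (nat_lit 10) (node (nat_lit 4) (nat_lit 33231) (nat_lit 11) nil
  (node (nat_lit 3) (nat_lit 51515) (nat_lit 11) nil (node (nat_lit 0) (nat_lit 51710) (nat_lit
  11) nil nil))) (node (nat_lit 4) (nat_lit 64142) (nat_lit 10) nil nil)) (node (nat_lit 4)
  (nat_lit 64231) (nat_lit 9) (node (nat_lit 6) (nat_lit 64231) (nat_lit 10) nil (node (nat_lit 0)
  (nat_lit 64991) (nat_lit 10) nil (node (nat_lit 3) (nat_lit 64231) (nat_lit 10) nil nil))) (node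
  (nat_lit 3) (nat_lit 64231) (nat_lit 9) nil (node (nat_lit 0) (nat_lit 64697) (nat_lit 9) nil
  nil)))) (node (nat_lit 3) (nat_lit 61154) (nat_lit 8) (node (nat_lit 6) (nat_lit 62082) (nat_lit
  9) (node (nat_lit 4) (nat_lit 63388) (nat_lit 10) (node (nat_lit 6) (nat_lit 64071) (nat_lit 11)
  (node (nat_lit 11) (nat_lit 63935) (nat_lit 12) (node (nat_lit 4) (nat_lit 62733) (nat_lit 13)
  nil nil) nil) (node (nat_lit 5) (nat_lit 63118) (nat_lit 11) (node (nat_lit 6) (nat_lit 62962)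
  (nat_lit 12) (node (nat_lit 5) (nat_lit 63449) (nat_lit 13) (node (nat_lit 4) (nat_lit 63468)
  (nat_lit 14) nil nil) nil) nil) (node (nat_lit 0) (nat_lit 64734) (nat_lit 11) nil nil))) (node
  (nat_lit 11) (nat_lit 62584) (nat_lit 10) (node (nat_lit 4) (nat_lit 62501) (nat_lit 11) (node
  (nat_lit 6) (nat_lit 61985) (nat_lit 12) nil (node (nat_lit 5) (nat_lit 62354) (nat_lit 12)
  (node (nat_lit 6) (nat_lit 60444) (nat_lit 13) nil nil) nil)) nil) (node (nat_lit 5) (nat_lit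
  64291) (nat_lit 10) nil (node (nat_lit 0) (nat_lit 64291) (nat_lit 10) nil nil)))) (node
  (nat_lit 4) (nat_lit 62995) (nat_lit 9) (node (nat_lit 6) (nat_lit 63735) (nat_lit 10) (node
  (nat_lit 11) (nat_lit 64172) (nat_lit 11) nil nil) (node (nat_lit 5) (nat_lit 65204) (nat_lit
  10) nil (node (nat_lit 0) (nat_lit 65204) (nat_lit 10) nil nil))) (node (nat_lit 5) (nat_lit
  65297) (nat_lit 9) nil (node (nat_lit 0) (nat_lit 65297) (nat_lit 9) nil nil)))) (node (nat_lit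
  0) (nat_lit 64787) (nat_lit 8) (node (nat_lit 6) (nat_lit 64787) (nat_lit 9) nil (node (nat_lit
  4) (nat_lit 64787) (nat_lit 9) nil (node (nat_lit 5) (nat_lit 65178) (nat_lit 9) nil (node
  (nat_lit 3) (nat_lit 64787) (nat_lit 9) nil nil)))) nil))) (node (nat_lit 3) (nat_lit 57711)
  (nat_lit 7) (node (nat_lit 4) (nat_lit 61351) (nat_lit 8) (node (nat_lit 10) (nat_lit 62586)
  (nat_lit 9) (node (nat_lit 6) (nat_lit 62968) (nat_lit 10) (node (nat_lit 4) (nat_lit 60887)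
  (nat_lit 11) nil (node (nat_lit 10) (nat_lit 62446) (nat_lit 11) nil nil)) nil) (node (nat_lit
  6) (nat_lit 62873) (nat_lit 9) (node (nat_lit 4) (nat_lit 61433) (nat_lit 10) (node (nat_lit 10)
  (nat_lit 61389) (nat_lit 11) nil (node (nat_lit 5) (nat_lit 58801) (nat_lit 11) (node (nat_lit
  6) (nat_lit 58639) (nat_lit 12) (node (nat_lit 5) (nat_lit 57598) (nat_lit 13) (node (nat_lit 4)
  (nat_lit 54627) (nat_lit 14) nil nil) nil) nil) nil)) nil) (node (nat_lit 5) (nat_lit 64414)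
  (nat_lit 9) nil (node (nat_lit 0) (nat_lit 64414) (nat_lit 9) nil nil)))) (node (nat_lit 6)
  (nat_lit 61445) (nat_lit 8) (node (nat_lit 4) (nat_lit 62949) (nat_lit 9) (node (nat_lit 10)
  (nat_lit 63324) (nat_lit 10) nil (node (nat_lit 6) (nat_lit 62907) (nat_lit 10) nil nil)) (node
  (nat_lit 5) (nat_lit 64508) (nat_lit 9) nil (node (nat_lit 0) (nat_lit 64508) (nat_lit 9) nil
  nil))) (node (nat_lit 5) (nat_lit 65011) (nat_lit 8) nil (node (nat_lit 0) (nat_lit 65011)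
  (nat_lit 8) nil nil)))) (node (nat_lit 0) (nat_lit 63776) (nat_lit 7) (node (nat_lit 5) (nat_lit
  64490) (nat_lit 8) nil (node (nat_lit 6) (nat_lit 63776) (nat_lit 8) nil (node (nat_lit 4)
  (nat_lit 63776) (nat_lit 8) nil (node (nat_lit 3) (nat_lit 63776) (nat_lit 8) nil (node (nat_lit
  0) (nat_lit 64490) (nat_lit 8) nil nil))))) (node (nat_lit 5) (nat_lit 61166) (nat_lit 7) nil
  nil)))) (node (nat_lit 5) (nat_lit 60423) (nat_lit 6) (node (nat_lit 6) (nat_lit 61146) (nat_lit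
  7) (node (nat_lit 4) (nat_lit 61527) (nat_lit 8) (node (nat_lit 5) (nat_lit 64612) (nat_lit 9)
  nil (node (nat_lit 6) (nat_lit 61415) (nat_lit 9) nil (node (nat_lit 3) (nat_lit 61484) (nat_lit
  9) nil (node (nat_lit 0) (nat_lit 63579) (nat_lit 9) nil nil)))) (node (nat_lit 3) (nat_lit
  61848) (nat_lit 8) (node (nat_lit 4) (nat_lit 61848) (nat_lit 9) nil (node (nat_lit 6) (nat_lit
  61848) (nat_lit 9) nil (node (nat_lit 5) (nat_lit 63843) (nat_lit 9) nil (node (nat_lit 0)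
  (nat_lit 63843) (nat_lit 9) nil nil)))) (node (nat_lit 0) (nat_lit 64380) (nat_lit 8) nil nil)))
  (node (nat_lit 3) (nat_lit 62884) (nat_lit 7) (node (nat_lit 4) (nat_lit 63152) (nat_lit 8)
  (node (nat_lit 10) (nat_lit 63669) (nat_lit 9) nil nil) (node (nat_lit 6) (nat_lit 62775)
  (nat_lit 8) (node (nat_lit 4) (nat_lit 62775) (nat_lit 9) nil nil) (node (nat_lit 5) (nat_lit
  64488) (nat_lit 8) nil (node (nat_lit 0) (nat_lit 64488) (nat_lit 8) nil nil)))) (node (nat_lit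
  0) (nat_lit 63770) (nat_lit 7) (node (nat_lit 3) (nat_lit 63770) (nat_lit 8) nil nil) nil)))
  (node (nat_lit 3) (nat_lit 55586) (nat_lit 6) (node (nat_lit 6) (nat_lit 58889) (nat_lit 7)
  (node (nat_lit 4) (nat_lit 61851) (nat_lit 8) (node (nat_lit 6) (nat_lit 62066) (nat_lit 9) nil
  (node (nat_lit 9) (nat_lit 61029) (nat_lit 9) (node (nat_lit 4) (nat_lit 59647) (nat_lit 10) nil
  nil) nil)) (node (nat_lit 9) (nat_lit 60594) (nat_lit 8) nil (node (nat_lit 5) (nat_lit 63267)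
  (nat_lit 8) nil (node (nat_lit 0) (nat_lit 63267) (nat_lit 8) nil nil)))) (node (nat_lit 4)
  (nat_lit 59117) (nat_lit 7) (node (nat_lit 5) (nat_lit 63495) (nat_lit 8) nil (node (nat_lit 6)
  (nat_lit 60967) (nat_lit 8) (node (nat_lit 4) (nat_lit 60772) (nat_lit 9) nil nil) (node
  (nat_lit 0) (nat_lit 63495) (nat_lit 8) nil nil))) (node (nat_lit 5) (nat_lit 63609) (nat_lit 7)
  nil (node (nat_lit 0) (nat_lit 63609) (nat_lit 7) nil nil)))) (node (nat_lit 0) (nat_lit 63243)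
  (nat_lit 6) (node (nat_lit 5) (nat_lit 64133) (nat_lit 7) nil (node (nat_lit 6) (nat_lit 63243)
  (nat_lit 7) nil (node (nat_lit 4) (nat_lit 63243) (nat_lit 7) nil (node (nat_lit 3) (nat_lit
  63243) (nat_lit 7) nil (node (nat_lit 0) (nat_lit 64133) (nat_lit 7) nil nil))))) nil)))) (node
  (nat_lit 3) (nat_lit 55085) (nat_lit 5) (node (nat_lit 6) (nat_lit 56624) (nat_lit 6) (node
  (nat_lit 8) (nat_lit 58922) (nat_lit 7) (node (nat_lit 5) (nat_lit 65107) (nat_lit 8) (node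
  (nat_lit 8) (nat_lit 65107) (nat_lit 9) (node (nat_lit 6) (nat_lit 65107) (nat_lit 10) (node
  (nat_lit 5) (nat_lit 65297) (nat_lit 11) (node (nat_lit 6) (nat_lit 65297) (nat_lit 12) (node
  (nat_lit 8) (nat_lit 65297) (nat_lit 13) (node (nat_lit 6) (nat_lit 65297) (nat_lit 14) nil nil)
  nil) nil) nil) (node (nat_lit 4) (nat_lit 65107) (nat_lit 10) nil (node (nat_lit 0) (nat_lit
  65297) (nat_lit 10) nil nil))) (node (nat_lit 6) (nat_lit 65107) (nat_lit 9) nil (node (nat_lit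
  4) (nat_lit 65107) (nat_lit 9) nil (node (nat_lit 0) (nat_lit 65252) (nat_lit 9) nil nil))))
  (node (nat_lit 4) (nat_lit 62681) (nat_lit 8) (node (nat_lit 6) (nat_lit 63893) (nat_lit 9)
  (node (nat_lit 4) (nat_lit 62735) (nat_lit 10) (node (nat_lit 5) (nat_lit 61604) (nat_lit 11)
  (node (nat_lit 6) (nat_lit 58224) (nat_lit 12) nil nil) (node (nat_lit 8) (nat_lit 62304)
  (nat_lit 11) nil nil)) (node (nat_lit 8) (nat_lit 63695) (nat_lit 10) nil nil)) (node (nat_lit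
  5) (nat_lit 64886) (nat_lit 9) nil (node (nat_lit 8) (nat_lit 63063) (nat_lit 9) nil (node
  (nat_lit 0) (nat_lit 64886) (nat_lit 9) nil nil)))) (node (nat_lit 0) (nat_lit 65107) (nat_lit
  8) (node (nat_lit 5) (nat_lit 65252) (nat_lit 9) nil nil) nil))) (node (nat_lit 4) (nat_lit
  59283) (nat_lit 7) (node (nat_lit 8) (nat_lit 62808) (nat_lit 8) (node (nat_lit 5) (nat_lit
  64728) (nat_lit 9) nil (node (nat_lit 4) (nat_lit 62673) (nat_lit 9) nil (node (nat_lit 6)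
  (nat_lit 63045) (nat_lit 9) nil (node (nat_lit 0) (nat_lit 64728) (nat_lit 9) nil nil)))) (node
  (nat_lit 5) (nat_lit 64584) (nat_lit 8) nil (node (nat_lit 6) (nat_lit 62458) (nat_lit 8) (node
  (nat_lit 8) (nat_lit 62956) (nat_lit 9) (node (nat_lit 6) (nat_lit 61898) (nat_lit 10) nil (node
  (nat_lit 4) (nat_lit 61753) (nat_lit 10) nil nil)) (node (nat_lit 5) (nat_lit 64498) (nat_lit 9)
  nil (node (nat_lit 0) (nat_lit 64498) (nat_lit 9) nil nil))) (node (nat_lit 0) (nat_lit 64584)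
  (nat_lit 8) nil nil)))) (node (nat_lit 5) (nat_lit 62468) (nat_lit 7) nil (node (nat_lit 0)
  (nat_lit 64763) (nat_lit 7) (node (nat_lit 5) (nat_lit 64991) (nat_lit 8) nil nil) nil)))) (node
  (nat_lit 4) (nat_lit 56452) (nat_lit 6) (node (nat_lit 5) (nat_lit 60099) (nat_lit 7) nil (node
  (nat_lit 6) (nat_lit 58867) (nat_lit 7) (node (nat_lit 4) (nat_lit 58945) (nat_lit 8) nil (node
  (nat_lit 8) (nat_lit 60717) (nat_lit 8) (node (nat_lit 6) (nat_lit 59362) (nat_lit 9) nil nil)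
  nil)) (node (nat_lit 8) (nat_lit 58166) (nat_lit 7) (node (nat_lit 5) (nat_lit 62256) (nat_lit
  8) nil (node (nat_lit 6) (nat_lit 58245) (nat_lit 8) nil (node (nat_lit 0) (nat_lit 62256)
  (nat_lit 8) nil nil))) (node (nat_lit 0) (nat_lit 60099) (nat_lit 7) nil nil)))) (node (nat_lit
  5) (nat_lit 64096) (nat_lit 6) (node (nat_lit 4) (nat_lit 64096) (nat_lit 7) nil nil) (node
  (nat_lit 0) (nat_lit 64096) (nat_lit 6) nil nil)))) (node (nat_lit 0) (nat_lit 60723) (nat_lit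
  5) (node (nat_lit 6) (nat_lit 60513) (nat_lit 6) (node (nat_lit 8) (nat_lit 62251) (nat_lit 7)
  nil (node (nat_lit 5) (nat_lit 62251) (nat_lit 7) nil (node (nat_lit 3) (nat_lit 60513) (nat_lit
  7) nil nil))) (node (nat_lit 4) (nat_lit 60723) (nat_lit 6) (node (nat_lit 5) (nat_lit 62461)
  (nat_lit 7) nil (node (nat_lit 3) (nat_lit 60723) (nat_lit 7) nil nil)) (node (nat_lit 5)
  (nat_lit 63608) (nat_lit 6) nil (node (nat_lit 3) (nat_lit 60723) (nat_lit 6) nil (node (nat_lit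
  0) (nat_lit 63211) (nat_lit 6) nil nil))))) nil))) (node (nat_lit 3) (nat_lit 0) (nat_lit 4)
  (node (nat_lit 4) (nat_lit 45122) (nat_lit 5) (node (nat_lit 5) (nat_lit 43963) (nat_lit 6)
  (node (nat_lit 4) (nat_lit 43963) (nat_lit 7) nil (node (nat_lit 7) (nat_lit 43963) (nat_lit 7)
  nil (node (nat_lit 6) (nat_lit 31301) (nat_lit 7) nil nil))) (node (nat_lit 6) (nat_lit 52993)
  (nat_lit 6) (node (nat_lit 4) (nat_lit 55671) (nat_lit 7) (node (nat_lit 7) (nat_lit 55144)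
  (nat_lit 8) (node (nat_lit 6) (nat_lit 52380) (nat_lit 9) nil (node (nat_lit 4) (nat_lit 51492)
  (nat_lit 9) (node (nat_lit 5) (nat_lit 53953) (nat_lit 10) (node (nat_lit 6) (nat_lit 53855)
  (nat_lit 11) nil nil) (node (nat_lit 0) (nat_lit 53080) (nat_lit 10) nil nil)) nil)) (node
  (nat_lit 5) (nat_lit 49327) (nat_lit 8) nil nil)) (node (nat_lit 7) (nat_lit 57827) (nat_lit 7)
  (node (nat_lit 6) (nat_lit 59364) (nat_lit 8) (node (nat_lit 4) (nat_lit 58573) (nat_lit 9)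
  (node (nat_lit 6) (nat_lit 58289) (nat_lit 10) nil (node (nat_lit 7) (nat_lit 58209) (nat_lit
  10) (node (nat_lit 4) (nat_lit 55430) (nat_lit 11) nil nil) (node (nat_lit 5) (nat_lit 53365)
  (nat_lit 10) nil nil))) nil) (node (nat_lit 5) (nat_lit 61916) (nat_lit 8) nil nil)) (node
  (nat_lit 5) (nat_lit 59116) (nat_lit 7) nil (node (nat_lit 0) (nat_lit 59116) (nat_lit 7) nil
  nil)))) (node (nat_lit 7) (nat_lit 50356) (nat_lit 6) (node (nat_lit 6) (nat_lit 54608) (nat_lit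
  7) (node (nat_lit 4) (nat_lit 53817) (nat_lit 8) (node (nat_lit 6) (nat_lit 53768) (nat_lit 9)
  (node (nat_lit 7) (nat_lit 51740) (nat_lit 10) nil nil) (node (nat_lit 7) (nat_lit 52903)
  (nat_lit 9) nil nil)) (node (nat_lit 7) (nat_lit 55119) (nat_lit 8) (node (nat_lit 4) (nat_lit
  48956) (nat_lit 9) nil nil) nil)) (node (nat_lit 5) (nat_lit 60419) (nat_lit 7) nil (node
  (nat_lit 0) (nat_lit 56480) (nat_lit 7) nil nil))) (node (nat_lit 0) (nat_lit 60186) (nat_lit 6)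
  nil nil)))) (node (nat_lit 5) (nat_lit 59943) (nat_lit 5) (node (nat_lit 7) (nat_lit 59789)
  (nat_lit 6) (node (nat_lit 6) (nat_lit 60099) (nat_lit 7) (node (nat_lit 7) (nat_lit 61470)
  (nat_lit 8) (node (nat_lit 0) (nat_lit 63933) (nat_lit 9) nil (node (nat_lit 4) (nat_lit 62520)
  (nat_lit 9) (node (nat_lit 6) (nat_lit 62318) (nat_lit 10) (node (nat_lit 7) (nat_lit 62131)
  (nat_lit 11) nil (node (nat_lit 4) (nat_lit 59519) (nat_lit 11) nil nil)) (node (nat_lit 7)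
  (nat_lit 62323) (nat_lit 10) nil nil)) nil)) (node (nat_lit 5) (nat_lit 62280) (nat_lit 8) nil
  (node (nat_lit 4) (nat_lit 60099) (nat_lit 8) nil nil))) nil) (node (nat_lit 4) (nat_lit 59219)
  (nat_lit 6) (node (nat_lit 6) (nat_lit 59219) (nat_lit 7) (node (nat_lit 4) (nat_lit 59219)
  (nat_lit 8) nil (node (nat_lit 5) (nat_lit 61400) (nat_lit 8) nil (node (nat_lit 7) (nat_lit
  59219) (nat_lit 8) nil nil))) (node (nat_lit 7) (nat_lit 59219) (nat_lit 7) nil (node (nat_lit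
  5) (nat_lit 60957) (nat_lit 7) nil nil))) (node (nat_lit 6) (nat_lit 59943) (nat_lit 6) (node
  (nat_lit 5) (nat_lit 63700) (nat_lit 7) (node (nat_lit 7) (nat_lit 63700) (nat_lit 8) nil nil)
  nil) (node (nat_lit 0) (nat_lit 61034) (nat_lit 6) nil nil)))) (node (nat_lit 6) (nat_lit 0)
  (nat_lit 5) (node (nat_lit 4) (nat_lit 51200) (nat_lit 6) (node (nat_lit 7) (nat_lit 54018)
  (nat_lit 7) (node (nat_lit 4) (nat_lit 55891) (nat_lit 8) (node (nat_lit 6) (nat_lit 56172)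
  (nat_lit 9) (node (nat_lit 4) (nat_lit 54696) (nat_lit 10) (node (nat_lit 7) (nat_lit 54179)
  (nat_lit 11) nil (node (nat_lit 5) (nat_lit 52244) (nat_lit 11) (node (nat_lit 6) (nat_lit
  52282) (nat_lit 12) (node (nat_lit 7) (nat_lit 52363) (nat_lit 13) nil nil) nil) nil)) (node
  (nat_lit 7) (nat_lit 54144) (nat_lit 10) nil nil)) (node (nat_lit 5) (nat_lit 53505) (nat_lit 9)
  (node (nat_lit 6) (nat_lit 53208) (nat_lit 10) (node (nat_lit 7) (nat_lit 50095) (nat_lit 11)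
  nil nil) nil) nil)) (node (nat_lit 5) (nat_lit 59967) (nat_lit 8) nil (node (nat_lit 6) (nat_lit
  56867) (nat_lit 8) (node (nat_lit 7) (nat_lit 55366) (nat_lit 9) nil nil) (node (nat_lit 0)
  (nat_lit 58108) (nat_lit 8) nil nil)))) (node (nat_lit 5) (nat_lit 50516) (nat_lit 7) (node
  (nat_lit 6) (nat_lit 42538) (nat_lit 8) (node (nat_lit 7) (nat_lit 29307) (nat_lit 9) nil nil)
  nil) (node (nat_lit 6) (nat_lit 55278) (nat_lit 7) (node (nat_lit 7) (nat_lit 54875) (nat_lit 8)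
  (node (nat_lit 4) (nat_lit 53978) (nat_lit 9) nil nil) nil) (node (nat_lit 0) (nat_lit 61263)
  (nat_lit 7) nil nil)))) (node (nat_lit 5) (nat_lit 61588) (nat_lit 6) (node (nat_lit 7) (nat_lit
  61588) (nat_lit 7) nil nil) (node (nat_lit 0) (nat_lit 58733) (nat_lit 6) nil nil))) (node
  (nat_lit 0) (nat_lit 59952) (nat_lit 5) (node (nat_lit 6) (nat_lit 59952) (nat_lit 6) nil (node
  (nat_lit 7) (nat_lit 59952) (nat_lit 6) nil nil)) nil)))) (node (nat_lit 0) (nat_lit 0) (nat_lit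
  4) (node (nat_lit 5) (nat_lit 58058) (nat_lit 5) (node (nat_lit 6) (nat_lit 58058) (nat_lit 6)
  nil nil) (node (nat_lit 6) (nat_lit 52424) (nat_lit 5) (node (nat_lit 5) (nat_lit 58546)
  (nat_lit 6) nil (node (nat_lit 4) (nat_lit 51715) (nat_lit 6) (node (nat_lit 7) (nat_lit 55363)
  (nat_lit 7) nil (node (nat_lit 6) (nat_lit 51715) (nat_lit 7) nil nil)) (node (nat_lit 3)
  (nat_lit 52424) (nat_lit 6) nil (node (nat_lit 0) (nat_lit 55424) (nat_lit 6) nil nil)))) (node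
  (nat_lit 4) (nat_lit 52148) (nat_lit 5) (node (nat_lit 6) (nat_lit 52206) (nat_lit 6) (node
  (nat_lit 4) (nat_lit 52206) (nat_lit 7) nil (node (nat_lit 7) (nat_lit 55853) (nat_lit 7) nil
  nil)) (node (nat_lit 7) (nat_lit 55148) (nat_lit 6) nil (node (nat_lit 3) (nat_lit 52148)
  (nat_lit 6) nil (node (nat_lit 5) (nat_lit 55148) (nat_lit 6) nil (node (nat_lit 0) (nat_lit
  55148) (nat_lit 6) nil nil))))) (node (nat_lit 3) (nat_lit 51332) (nat_lit 5) (node (nat_lit 6)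
  (nat_lit 51332) (nat_lit 6) nil (node (nat_lit 7) (nat_lit 54332) (nat_lit 6) nil (node (nat_lit
  4) (nat_lit 51332) (nat_lit 6) nil (node (nat_lit 5) (nat_lit 54332) (nat_lit 6) nil nil))))
  (node (nat_lit 0) (nat_lit 56287) (nat_lit 5) nil nil))))) nil)))

noncomputable def t344 : Tr :=
  (node (nat_lit 3) (nat_lit 0) (nat_lit 3) (node (nat_lit 4) (nat_lit 0) (nat_lit 4) (node
  (nat_lit 6) (nat_lit 41471) (nat_lit 5) (node (nat_lit 5) (nat_lit 59635) (nat_lit 6) (node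
  (nat_lit 6) (nat_lit 59635) (nat_lit 7) (node (nat_lit 0) (nat_lit 61865) (nat_lit 8) nil (node
  (nat_lit 3) (nat_lit 60261) (nat_lit 8) nil nil)) (node (nat_lit 4) (nat_lit 59155) (nat_lit 7)
  (node (nat_lit 6) (nat_lit 59155) (nat_lit 8) (node (nat_lit 4) (nat_lit 59155) (nat_lit 9) nil
  nil) (node (nat_lit 5) (nat_lit 60742) (nat_lit 8) nil (node (nat_lit 3) (nat_lit 59782)
  (nat_lit 8) nil nil))) (node (nat_lit 3) (nat_lit 60838) (nat_lit 7) nil (node (nat_lit 0)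
  (nat_lit 61151) (nat_lit 7) nil nil)))) (node (nat_lit 3) (nat_lit 51057) (nat_lit 6) (node
  (nat_lit 4) (nat_lit 56013) (nat_lit 7) (node (nat_lit 9) (nat_lit 58973) (nat_lit 8) (node
  (nat_lit 6) (nat_lit 60263) (nat_lit 9) (node (nat_lit 9) (nat_lit 60851) (nat_lit 10) (node
  (nat_lit 4) (nat_lit 58444) (nat_lit 11) nil nil) (node (nat_lit 4) (nat_lit 56595) (nat_lit 10)
  (node (nat_lit 6) (nat_lit 56613) (nat_lit 11) nil (node (nat_lit 9) (nat_lit 56083) (nat_lit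
  11) nil (node (nat_lit 5) (nat_lit 56783) (nat_lit 11) (node (nat_lit 6) (nat_lit 56751)
  (nat_lit 12) (node (nat_lit 4) (nat_lit 56733) (nat_lit 13) nil nil) nil) nil))) nil)) (node
  (nat_lit 5) (nat_lit 62037) (nat_lit 9) nil nil)) (node (nat_lit 6) (nat_lit 55580) (nat_lit 8)
  (node (nat_lit 4) (nat_lit 50531) (nat_lit 9) nil nil) (node (nat_lit 5) (nat_lit 56390)
  (nat_lit 8) (node (nat_lit 6) (nat_lit 54511) (nat_lit 9) nil nil) (node (nat_lit 0) (nat_lit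
  60391) (nat_lit 8) nil nil)))) (node (nat_lit 6) (nat_lit 53645) (nat_lit 7) (node (nat_lit 4)
  (nat_lit 54895) (nat_lit 8) (node (nat_lit 9) (nat_lit 53419) (nat_lit 9) nil (node (nat_lit 5)
  (nat_lit 53567) (nat_lit 9) nil nil)) (node (nat_lit 5) (nat_lit 58023) (nat_lit 8) nil (node
  (nat_lit 0) (nat_lit 58023) (nat_lit 8) nil nil))) (node (nat_lit 5) (nat_lit 61486) (nat_lit 7)
  nil (node (nat_lit 0) (nat_lit 61486) (nat_lit 7) nil nil)))) (node (nat_lit 0) (nat_lit 59902)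
  (nat_lit 6) nil nil))) (node (nat_lit 5) (nat_lit 0) (nat_lit 5) (node (nat_lit 4) (nat_lit
  30535) (nat_lit 6) (node (nat_lit 6) (nat_lit 30894) (nat_lit 7) (node (nat_lit 4) (nat_lit
  31537) (nat_lit 8) (node (nat_lit 5) (nat_lit 33231) (nat_lit 9) (node (nat_lit 6) (nat_lit
  33231) (nat_lit 10) nil nil) (node (nat_lit 0) (nat_lit 33231) (nat_lit 9) (node (nat_lit 6)
  (nat_lit 33231) (nat_lit 10) nil nil) (node (nat_lit 3) (nat_lit 32364) (nat_lit 9) (node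
  (nat_lit 6) (nat_lit 32814) (nat_lit 10) (node (nat_lit 4) (nat_lit 33041) (nat_lit 11) nil
  (node (nat_lit 12) (nat_lit 31815) (nat_lit 11) nil nil)) (node (nat_lit 4) (nat_lit 32697)
  (nat_lit 10) nil (node (nat_lit 5) (nat_lit 33180) (nat_lit 10) nil nil))) nil))) (node (nat_lit
  5) (nat_lit 33041) (nat_lit 8) (node (nat_lit 6) (nat_lit 33041) (nat_lit 9) nil nil) (node
  (nat_lit 3) (nat_lit 31718) (nat_lit 8) nil (node (nat_lit 0) (nat_lit 33041) (nat_lit 8) nil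
  nil)))) (node (nat_lit 3) (nat_lit 30535) (nat_lit 7) nil (node (nat_lit 0) (nat_lit 32341)
  (nat_lit 7) nil nil))) (node (nat_lit 3) (nat_lit 30299) (nat_lit 6) (node (nat_lit 6) (nat_lit
  30800) (nat_lit 7) (node (nat_lit 4) (nat_lit 30234) (nat_lit 8) (node (nat_lit 6) (nat_lit
  29434) (nat_lit 9) nil (node (nat_lit 9) (nat_lit 30698) (nat_lit 9) nil nil)) (node (nat_lit 9)
  (nat_lit 31654) (nat_lit 8) (node (nat_lit 4) (nat_lit 32117) (nat_lit 9) nil nil) (node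
  (nat_lit 5) (nat_lit 33041) (nat_lit 8) nil (node (nat_lit 0) (nat_lit 31824) (nat_lit 8) nil
  nil)))) (node (nat_lit 4) (nat_lit 30299) (nat_lit 7) nil (node (nat_lit 5) (nat_lit 31095)
  (nat_lit 7) nil nil))) (node (nat_lit 0) (nat_lit 31718) (nat_lit 6) nil nil))) (node (nat_lit
  3) (nat_lit 42875) (nat_lit 5) (node (nat_lit 5) (nat_lit 61044) (nat_lit 6) nil (node (nat_lit
  6) (nat_lit 50312) (nat_lit 6) (node (nat_lit 8) (nat_lit 53067) (nat_lit 7) (node (nat_lit 4)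
  (nat_lit 49550) (nat_lit 8) (node (nat_lit 8) (nat_lit 49932) (nat_lit 9) nil (node (nat_lit 6)
  (nat_lit 48704) (nat_lit 9) (node (nat_lit 4) (nat_lit 47007) (nat_lit 10) nil nil) (node
  (nat_lit 5) (nat_lit 52978) (nat_lit 9) nil nil))) (node (nat_lit 5) (nat_lit 57157) (nat_lit 8)
  nil nil)) (node (nat_lit 4) (nat_lit 55079) (nat_lit 7) (node (nat_lit 6) (nat_lit 56049)
  (nat_lit 8) (node (nat_lit 8) (nat_lit 55713) (nat_lit 9) (node (nat_lit 4) (nat_lit 51625)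
  (nat_lit 10) nil nil) nil) (node (nat_lit 5) (nat_lit 55961) (nat_lit 8) nil nil)) (node
  (nat_lit 5) (nat_lit 56435) (nat_lit 7) nil (node (nat_lit 0) (nat_lit 56435) (nat_lit 7) nil
  nil)))) (node (nat_lit 4) (nat_lit 49252) (nat_lit 6) (node (nat_lit 6) (nat_lit 52497) (nat_lit
  7) (node (nat_lit 8) (nat_lit 53926) (nat_lit 8) (node (nat_lit 4) (nat_lit 52224) (nat_lit 9)
  nil nil) (node (nat_lit 4) (nat_lit 50977) (nat_lit 8) (node (nat_lit 8) (nat_lit 48297)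
  (nat_lit 9) nil (node (nat_lit 5) (nat_lit 54119) (nat_lit 9) nil nil)) (node (nat_lit 5)
  (nat_lit 56587) (nat_lit 8) nil nil))) (node (nat_lit 5) (nat_lit 46977) (nat_lit 7) (node
  (nat_lit 8) (nat_lit 46977) (nat_lit 8) nil (node (nat_lit 6) (nat_lit 46977) (nat_lit 8) nil
  nil)) (node (nat_lit 0) (nat_lit 55376) (nat_lit 7) nil nil))) (node (nat_lit 0) (nat_lit 58302)
  (nat_lit 6) nil nil)))) (node (nat_lit 0) (nat_lit 58078) (nat_lit 5) (node (nat_lit 6) (nat_lit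
  58078) (nat_lit 6) nil (node (nat_lit 4) (nat_lit 58078) (nat_lit 6) nil (node (nat_lit 5)
  (nat_lit 59168) (nat_lit 6) nil (node (nat_lit 3) (nat_lit 58078) (nat_lit 6) nil (node (nat_lit
  0) (nat_lit 59168) (nat_lit 6) nil nil))))) nil)))) t343) (node (nat_lit 4) (nat_lit 0) (nat_lit
  3) (node (nat_lit 3) (nat_lit 0) (nat_lit 4) (node (nat_lit 4) (nat_lit 39765) (nat_lit 5) (node
  (nat_lit 5) (nat_lit 46119) (nat_lit 6) (node (nat_lit 4) (nat_lit 31885) (nat_lit 7) (node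
  (nat_lit 0) (nat_lit 31885) (nat_lit 8) nil (node (nat_lit 3) (nat_lit 31885) (nat_lit 8) (node
  (nat_lit 5) (nat_lit 31885) (nat_lit 9) nil nil) nil)) (node (nat_lit 7) (nat_lit 46385)
  (nat_lit 7) (node (nat_lit 4) (nat_lit 46776) (nat_lit 8) (node (nat_lit 7) (nat_lit 47042)
  (nat_lit 9) (node (nat_lit 5) (nat_lit 48600) (nat_lit 10) nil nil) (node (nat_lit 3) (nat_lit
  46776) (nat_lit 9) nil (node (nat_lit 0) (nat_lit 48074) (nat_lit 9) nil nil))) (node (nat_lit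
  5) (nat_lit 48159) (nat_lit 8) (node (nat_lit 4) (nat_lit 48159) (nat_lit 9) nil nil) (node
  (nat_lit 3) (nat_lit 46815) (nat_lit 8) nil (node (nat_lit 0) (nat_lit 48444) (nat_lit 8) nil
  nil)))) (node (nat_lit 3) (nat_lit 46865) (nat_lit 7) nil (node (nat_lit 0) (nat_lit 47797)
  (nat_lit 7) nil nil)))) (node (nat_lit 3) (nat_lit 49603) (nat_lit 6) (node (nat_lit 7) (nat_lit
  51675) (nat_lit 7) (node (nat_lit 9) (nat_lit 51348) (nat_lit 8) (node (nat_lit 4) (nat_lit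
  46358) (nat_lit 9) nil nil) (node (nat_lit 4) (nat_lit 53850) (nat_lit 8) (node (nat_lit 7)
  (nat_lit 54052) (nat_lit 9) nil (node (nat_lit 5) (nat_lit 58629) (nat_lit 9) nil nil)) nil))
  (node (nat_lit 4) (nat_lit 53703) (nat_lit 7) (node (nat_lit 7) (nat_lit 52307) (nat_lit 8)
  (node (nat_lit 5) (nat_lit 55599) (nat_lit 9) nil nil) (node (nat_lit 5) (nat_lit 52543)
  (nat_lit 8) (node (nat_lit 4) (nat_lit 46079) (nat_lit 9) nil nil) nil)) (node (nat_lit 5)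
  (nat_lit 56309) (nat_lit 7) nil (node (nat_lit 0) (nat_lit 56309) (nat_lit 7) nil nil)))) (node
  (nat_lit 0) (nat_lit 56849) (nat_lit 6) nil nil))) (node (nat_lit 5) (nat_lit 55506) (nat_lit 5)
  (node (nat_lit 7) (nat_lit 55506) (nat_lit 6) (node (nat_lit 4) (nat_lit 55506) (nat_lit 7)
  (node (nat_lit 5) (nat_lit 58299) (nat_lit 8) (node (nat_lit 4) (nat_lit 58299) (nat_lit 9)
  (node (nat_lit 7) (nat_lit 58299) (nat_lit 10) (node (nat_lit 5) (nat_lit 31854) (nat_lit 11)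
  nil nil) nil) nil) nil) nil) (node (nat_lit 3) (nat_lit 56649) (nat_lit 6) nil (node (nat_lit 4)
  (nat_lit 55506) (nat_lit 6) nil nil))) (node (nat_lit 3) (nat_lit 43266) (nat_lit 5) (node
  (nat_lit 4) (nat_lit 50774) (nat_lit 6) (node (nat_lit 8) (nat_lit 54510) (nat_lit 7) (node
  (nat_lit 7) (nat_lit 55806) (nat_lit 8) (node (nat_lit 4) (nat_lit 53900) (nat_lit 9) (node
  (nat_lit 7) (nat_lit 53639) (nat_lit 10) nil nil) nil) nil) (node (nat_lit 7) (nat_lit 53993)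
  (nat_lit 7) (node (nat_lit 4) (nat_lit 53601) (nat_lit 8) (node (nat_lit 8) (nat_lit 53683)
  (nat_lit 9) (node (nat_lit 4) (nat_lit 49532) (nat_lit 10) nil nil) (node (nat_lit 5) (nat_lit
  52509) (nat_lit 9) nil nil)) (node (nat_lit 5) (nat_lit 58353) (nat_lit 8) nil nil)) (node
  (nat_lit 5) (nat_lit 51140) (nat_lit 7) (node (nat_lit 4) (nat_lit 40282) (nat_lit 8) nil nil)
  (node (nat_lit 0) (nat_lit 57431) (nat_lit 7) nil nil)))) (node (nat_lit 7) (nat_lit 51332)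
  (nat_lit 6) (node (nat_lit 4) (nat_lit 55677) (nat_lit 7) (node (nat_lit 8) (nat_lit 54990)
  (nat_lit 8) (node (nat_lit 4) (nat_lit 52587) (nat_lit 9) (node (nat_lit 7) (nat_lit 51920)
  (nat_lit 10) nil nil) nil) (node (nat_lit 7) (nat_lit 56712) (nat_lit 8) nil (node (nat_lit 5)
  (nat_lit 50355) (nat_lit 8) nil nil))) (node (nat_lit 5) (nat_lit 57989) (nat_lit 7) nil nil))
  (node (nat_lit 5) (nat_lit 59723) (nat_lit 6) nil (node (nat_lit 0) (nat_lit 59723) (nat_lit 6)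
  nil nil)))) (node (nat_lit 0) (nat_lit 56463) (nat_lit 5) (node (nat_lit 4) (nat_lit 56463)
  (nat_lit 6) nil nil) nil)))) (node (nat_lit 0) (nat_lit 0) (nat_lit 4) (node (nat_lit 5)
  (nat_lit 60639) (nat_lit 5) (node (nat_lit 7) (nat_lit 63037) (nat_lit 6) (node (nat_lit 4)
  (nat_lit 63037) (nat_lit 7) nil nil) (node (nat_lit 4) (nat_lit 60639) (nat_lit 6) nil (node
  (nat_lit 3) (nat_lit 60639) (nat_lit 6) nil (node (nat_lit 0) (nat_lit 61837) (nat_lit 6) nil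
  nil)))) (node (nat_lit 4) (nat_lit 54669) (nat_lit 5) (node (nat_lit 5) (nat_lit 63771) (nat_lit
  6) (node (nat_lit 7) (nat_lit 63771) (nat_lit 7) nil (node (nat_lit 3) (nat_lit 63771) (nat_lit
  7) nil (node (nat_lit 0) (nat_lit 63771) (nat_lit 7) nil nil))) (node (nat_lit 3) (nat_lit
  54725) (nat_lit 6) (node (nat_lit 5) (nat_lit 58671) (nat_lit 7) nil (node (nat_lit 4) (nat_lit
  54725) (nat_lit 7) nil nil)) (node (nat_lit 0) (nat_lit 63086) (nat_lit 6) nil nil))) (node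
  (nat_lit 3) (nat_lit 53027) (nat_lit 5) (node (nat_lit 4) (nat_lit 52233) (nat_lit 6) (node
  (nat_lit 5) (nat_lit 56179) (nat_lit 7) (node (nat_lit 4) (nat_lit 56179) (nat_lit 8) (node
  (nat_lit 7) (nat_lit 29497) (nat_lit 9) nil nil) nil) (node (nat_lit 8) (nat_lit 52233) (nat_lit
  7) nil (node (nat_lit 7) (nat_lit 56179) (nat_lit 7) nil nil))) (node (nat_lit 7) (nat_lit
  60466) (nat_lit 6) nil (node (nat_lit 5) (nat_lit 59487) (nat_lit 6) nil (node (nat_lit 3)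
  (nat_lit 53027) (nat_lit 6) nil (node (nat_lit 0) (nat_lit 56366) (nat_lit 6) nil nil))))) (node
  (nat_lit 0) (nat_lit 60639) (nat_lit 5) (node (nat_lit 4) (nat_lit 60639) (nat_lit 6) nil (node
  (nat_lit 5) (nat_lit 63037) (nat_lit 6) nil (node (nat_lit 7) (nat_lit 61837) (nat_lit 6) nil
  nil))) nil)))) nil)) (node (nat_lit 0) (nat_lit 0) (nat_lit 3) (node (nat_lit 5) (nat_lit 0)
  (nat_lit 4) (node (nat_lit 4) (nat_lit 55789) (nat_lit 5) (node (nat_lit 6) (nat_lit 64112)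
  (nat_lit 6) (node (nat_lit 5) (nat_lit 65394) (nat_lit 7) (node (nat_lit 6) (nat_lit 66082)
  (nat_lit 8) (node (nat_lit 4) (nat_lit 66082) (nat_lit 9) (node (nat_lit 5) (nat_lit 66491)
  (nat_lit 10) nil (node (nat_lit 6) (nat_lit 66491) (nat_lit 10) nil nil)) (node (nat_lit 3)
  (nat_lit 66082) (nat_lit 9) nil (node (nat_lit 0) (nat_lit 66373) (nat_lit 9) nil nil))) (node
  (nat_lit 3) (nat_lit 65394) (nat_lit 8) (node (nat_lit 6) (nat_lit 66140) (nat_lit 9) nil (node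
  (nat_lit 5) (nat_lit 66140) (nat_lit 9) nil nil)) (node (nat_lit 0) (nat_lit 66082) (nat_lit 8)
  nil nil))) (node (nat_lit 4) (nat_lit 64077) (nat_lit 7) (node (nat_lit 5) (nat_lit 66082)
  (nat_lit 8) (node (nat_lit 6) (nat_lit 66373) (nat_lit 9) nil (node (nat_lit 4) (nat_lit 66082)
  (nat_lit 9) nil nil)) (node (nat_lit 3) (nat_lit 63966) (nat_lit 8) (node (nat_lit 4) (nat_lit
  63966) (nat_lit 9) nil (node (nat_lit 6) (nat_lit 65378) (nat_lit 9) nil nil)) (node (nat_lit 0)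
  (nat_lit 66082) (nat_lit 8) nil nil))) (node (nat_lit 3) (nat_lit 64112) (nat_lit 7) (node
  (nat_lit 5) (nat_lit 65233) (nat_lit 8) nil (node (nat_lit 6) (nat_lit 65233) (nat_lit 8) nil
  (node (nat_lit 3) (nat_lit 64112) (nat_lit 8) nil nil))) (node (nat_lit 0) (nat_lit 65394)
  (nat_lit 7) nil nil)))) (node (nat_lit 3) (nat_lit 56951) (nat_lit 6) (node (nat_lit 4) (nat_lit
  56648) (nat_lit 7) nil (node (nat_lit 5) (nat_lit 60136) (nat_lit 7) nil (node (nat_lit 3)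
  (nat_lit 56951) (nat_lit 7) nil (node (nat_lit 6) (nat_lit 60136) (nat_lit 7) nil (node (nat_lit
  0) (nat_lit 60136) (nat_lit 7) nil nil))))) (node (nat_lit 5) (nat_lit 63387) (nat_lit 6) (node
  (nat_lit 6) (nat_lit 64872) (nat_lit 7) nil nil) (node (nat_lit 0) (nat_lit 63387) (nat_lit 6)
  nil nil)))) (node (nat_lit 3) (nat_lit 56113) (nat_lit 5) (node (nat_lit 6) (nat_lit 64307)
  (nat_lit 6) (node (nat_lit 8) (nat_lit 64307) (nat_lit 7) nil (node (nat_lit 5) (nat_lit 64973)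
  (nat_lit 7) nil nil)) (node (nat_lit 4) (nat_lit 56756) (nat_lit 6) (node (nat_lit 5) (nat_lit
  59942) (nat_lit 7) nil (node (nat_lit 8) (nat_lit 58383) (nat_lit 7) (node (nat_lit 5) (nat_lit
  62024) (nat_lit 8) nil (node (nat_lit 6) (nat_lit 62024) (nat_lit 8) nil nil)) (node (nat_lit 6)
  (nat_lit 59942) (nat_lit 7) nil (node (nat_lit 3) (nat_lit 56756) (nat_lit 7) nil nil)))) (node
  (nat_lit 3) (nat_lit 57279) (nat_lit 6) (node (nat_lit 8) (nat_lit 58083) (nat_lit 7) nil (node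
  (nat_lit 5) (nat_lit 60464) (nat_lit 7) nil (node (nat_lit 6) (nat_lit 60464) (nat_lit 7) nil
  nil))) (node (nat_lit 5) (nat_lit 63967) (nat_lit 6) (node (nat_lit 6) (nat_lit 64633) (nat_lit
  7) nil (node (nat_lit 4) (nat_lit 63967) (nat_lit 7) nil nil)) (node (nat_lit 0) (nat_lit 63711)
  (nat_lit 6) nil nil))))) (node (nat_lit 0) (nat_lit 60864) (nat_lit 5) (node (nat_lit 6)
  (nat_lit 64292) (nat_lit 6) (node (nat_lit 8) (nat_lit 64958) (nat_lit 7) nil (node (nat_lit 5)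
  (nat_lit 64958) (nat_lit 7) nil nil)) (node (nat_lit 4) (nat_lit 60864) (nat_lit 6) nil (node
  (nat_lit 5) (nat_lit 63783) (nat_lit 6) (node (nat_lit 4) (nat_lit 63783) (nat_lit 7) nil (node
  (nat_lit 6) (nat_lit 65269) (nat_lit 7) nil nil)) (node (nat_lit 3) (nat_lit 60864) (nat_lit 6)
  nil (node (nat_lit 0) (nat_lit 62990) (nat_lit 6) nil nil))))) nil))) (node (nat_lit 3) (nat_lit
  0) (nat_lit 4) (node (nat_lit 4) (nat_lit 49033) (nat_lit 5) (node (nat_lit 7) (nat_lit 52041)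
  (nat_lit 6) (node (nat_lit 6) (nat_lit 61301) (nat_lit 7) nil (node (nat_lit 5) (nat_lit 57361)
  (nat_lit 7) nil (node (nat_lit 3) (nat_lit 51583) (nat_lit 7) nil nil))) (node (nat_lit 6)
  (nat_lit 59865) (nat_lit 6) nil (node (nat_lit 5) (nat_lit 53686) (nat_lit 6) nil (node (nat_lit
  3) (nat_lit 49204) (nat_lit 6) (node (nat_lit 6) (nat_lit 54524) (nat_lit 7) nil nil) (node
  (nat_lit 0) (nat_lit 53686) (nat_lit 6) nil nil))))) (node (nat_lit 6) (nat_lit 59501) (nat_lit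
  5) (node (nat_lit 5) (nat_lit 60428) (nat_lit 6) nil nil) (node (nat_lit 5) (nat_lit 59501)
  (nat_lit 5) (node (nat_lit 7) (nat_lit 59501) (nat_lit 6) nil nil) (node (nat_lit 3) (nat_lit
  49009) (nat_lit 5) (node (nat_lit 7) (nat_lit 51603) (nat_lit 6) (node (nat_lit 4) (nat_lit
  51145) (nat_lit 7) nil nil) (node (nat_lit 4) (nat_lit 49298) (nat_lit 6) (node (nat_lit 7)
  (nat_lit 51432) (nat_lit 7) nil (node (nat_lit 8) (nat_lit 52222) (nat_lit 7) (node (nat_lit 7)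
  (nat_lit 51407) (nat_lit 8) nil nil) (node (nat_lit 6) (nat_lit 54618) (nat_lit 7) nil nil)))
  (node (nat_lit 5) (nat_lit 59840) (nat_lit 6) nil (node (nat_lit 6) (nat_lit 59840) (nat_lit 6)
  nil (node (nat_lit 0) (nat_lit 53663) (nat_lit 6) nil nil))))) (node (nat_lit 0) (nat_lit 59501)
  (nat_lit 5) nil nil))))) (node (nat_lit 4) (nat_lit 0) (nat_lit 4) (node (nat_lit 6) (nat_lit
  60633) (nat_lit 5) (node (nat_lit 5) (nat_lit 64061) (nat_lit 6) (node (nat_lit 6) (nat_lit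
  65394) (nat_lit 7) (node (nat_lit 4) (nat_lit 65394) (nat_lit 8) (node (nat_lit 5) (nat_lit
  66491) (nat_lit 9) (node (nat_lit 4) (nat_lit 66491) (nat_lit 10) (node (nat_lit 6) (nat_lit
  66491) (nat_lit 11) nil nil) (node (nat_lit 6) (nat_lit 66491) (nat_lit 10) nil (node (nat_lit
  0) (nat_lit 66491) (nat_lit 10) nil nil))) (node (nat_lit 3) (nat_lit 65394) (nat_lit 9) nil
  (node (nat_lit 0) (nat_lit 66140) (nat_lit 9) nil nil))) nil) (node (nat_lit 4) (nat_lit 63671)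
  (nat_lit 7) (node (nat_lit 5) (nat_lit 64791) (nat_lit 8) nil (node (nat_lit 6) (nat_lit 64791)
  (nat_lit 8) nil (node (nat_lit 3) (nat_lit 63671) (nat_lit 8) nil (node (nat_lit 0) (nat_lit
  64791) (nat_lit 8) nil nil)))) (node (nat_lit 3) (nat_lit 64061) (nat_lit 7) nil (node (nat_lit
  0) (nat_lit 65394) (nat_lit 7) nil nil)))) (node (nat_lit 3) (nat_lit 60681) (nat_lit 6) (node
  (nat_lit 4) (nat_lit 60681) (nat_lit 7) nil nil) (node (nat_lit 0) (nat_lit 64061) (nat_lit 6)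
  nil nil))) (node (nat_lit 3) (nat_lit 48917) (nat_lit 5) (node (nat_lit 4) (nat_lit 51140)
  (nat_lit 6) (node (nat_lit 5) (nat_lit 58430) (nat_lit 7) (node (nat_lit 6) (nat_lit 46348)
  (nat_lit 8) (node (nat_lit 4) (nat_lit 29538) (nat_lit 9) nil nil) nil) (node (nat_lit 6)
  (nat_lit 56460) (nat_lit 7) nil (node (nat_lit 3) (nat_lit 50682) (nat_lit 7) nil nil))) (node
  (nat_lit 6) (nat_lit 59748) (nat_lit 6) nil (node (nat_lit 5) (nat_lit 62217) (nat_lit 6) (node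
  (nat_lit 8) (nat_lit 62217) (nat_lit 7) nil nil) (node (nat_lit 3) (nat_lit 51364) (nat_lit 6)
  (node (nat_lit 4) (nat_lit 50907) (nat_lit 7) nil (node (nat_lit 8) (nat_lit 53499) (nat_lit 7)
  nil nil)) (node (nat_lit 0) (nat_lit 53571) (nat_lit 6) nil nil))))) (node (nat_lit 5) (nat_lit
  60502) (nat_lit 5) (node (nat_lit 4) (nat_lit 60502) (nat_lit 6) (node (nat_lit 6) (nat_lit
  64113) (nat_lit 7) nil nil) nil) (node (nat_lit 0) (nat_lit 60633) (nat_lit 5) (node (nat_lit 6)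
  (nat_lit 61560) (nat_lit 6) nil (node (nat_lit 4) (nat_lit 60633) (nat_lit 6) nil (node (nat_lit
  5) (nat_lit 62759) (nat_lit 6) nil nil))) nil)))) (node (nat_lit 0) (nat_lit 0) (nat_lit 4)
  (node (nat_lit 6) (nat_lit 60280) (nat_lit 5) (node (nat_lit 5) (nat_lit 62407) (nat_lit 6) nil
  nil) (node (nat_lit 3) (nat_lit 53408) (nat_lit 5) (node (nat_lit 7) (nat_lit 55928) (nat_lit 6)
  nil (node (nat_lit 6) (nat_lit 55928) (nat_lit 6) nil (node (nat_lit 5) (nat_lit 55928) (nat_lit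
  6) nil nil))) (node (nat_lit 5) (nat_lit 59857) (nat_lit 5) (node (nat_lit 6) (nat_lit 60784)
  (nat_lit 6) nil nil) (node (nat_lit 4) (nat_lit 53408) (nat_lit 5) (node (nat_lit 5) (nat_lit
  55928) (nat_lit 6) nil (node (nat_lit 6) (nat_lit 55928) (nat_lit 6) nil (node (nat_lit 7)
  (nat_lit 55928) (nat_lit 6) nil nil))) (node (nat_lit 0) (nat_lit 56922) (nat_lit 5) nil
  nil))))) nil)))) nil)))

noncomputable def t345 : Tr :=
  (node (nat_lit 0) (nat_lit 0) (nat_lit 1) (node (nat_lit 3) (nat_lit 0) (nat_lit 2) (node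
  (nat_lit 3) (nat_lit 0) (nat_lit 3) (node (nat_lit 4) (nat_lit 0) (nat_lit 4) (node (nat_lit 5)
  (nat_lit 0) (nat_lit 5) (node (nat_lit 4) (nat_lit 81755) (nat_lit 6) (node (nat_lit 6) (nat_lit
  81755) (nat_lit 7) (node (nat_lit 4) (nat_lit 81857) (nat_lit 8) (node (nat_lit 5) (nat_lit
  81857) (nat_lit 9) (node (nat_lit 6) (nat_lit 81857) (nat_lit 10) (node (nat_lit 5) (nat_lit
  81857) (nat_lit 11) (node (nat_lit 4) (nat_lit 81857) (nat_lit 12) nil nil) nil) nil) nil) nil)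
  (node (nat_lit 3) (nat_lit 81755) (nat_lit 7) nil (node (nat_lit 0) (nat_lit 81857) (nat_lit 7)
  nil nil))) (node (nat_lit 3) (nat_lit 79132) (nat_lit 6) (node (nat_lit 4) (nat_lit 81857)
  (nat_lit 7) nil (node (nat_lit 5) (nat_lit 79132) (nat_lit 7) nil (node (nat_lit 6) (nat_lit
  79624) (nat_lit 7) nil nil))) (node (nat_lit 0) (nat_lit 81548) (nat_lit 6) nil nil))) (node
  (nat_lit 6) (nat_lit 0) (nat_lit 5) (node (nat_lit 5) (nat_lit 95238) (nat_lit 6) (node (nat_lit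
  4) (nat_lit 100481) (nat_lit 7) (node (nat_lit 5) (nat_lit 100481) (nat_lit 8) (node (nat_lit 6)
  (nat_lit 100481) (nat_lit 9) (node (nat_lit 4) (nat_lit 81741) (nat_lit 10) (node (nat_lit 6)
  (nat_lit 65165) (nat_lit 11) nil nil) nil) nil) (node (nat_lit 6) (nat_lit 100481) (nat_lit 8)
  (node (nat_lit 4) (nat_lit 101858) (nat_lit 9) (node (nat_lit 5) (nat_lit 101858) (nat_lit 10)
  (node (nat_lit 6) (nat_lit 101858) (nat_lit 11) (node (nat_lit 4) (nat_lit 102933) (nat_lit 12)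
  (node (nat_lit 6) (nat_lit 102933) (nat_lit 13) (node (nat_lit 5) (nat_lit 102933) (nat_lit 14)
  (node (nat_lit 4) (nat_lit 81573) (nat_lit 15) nil nil) nil) nil) nil) nil) nil) nil) nil))
  (node (nat_lit 3) (nat_lit 96144) (nat_lit 7) nil nil)) (node (nat_lit 3) (nat_lit 97444)
  (nat_lit 6) (node (nat_lit 6) (nat_lit 97444) (nat_lit 7) nil (node (nat_lit 5) (nat_lit 97444)
  (nat_lit 7) nil nil)) (node (nat_lit 0) (nat_lit 100475) (nat_lit 6) nil nil))) (node (nat_lit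
  3) (nat_lit 97655) (nat_lit 5) (node (nat_lit 6) (nat_lit 97655) (nat_lit 6) (node (nat_lit 5)
  (nat_lit 97655) (nat_lit 7) nil nil) (node (nat_lit 5) (nat_lit 97655) (nat_lit 6) nil (node
  (nat_lit 4) (nat_lit 101624) (nat_lit 6) nil nil))) (node (nat_lit 0) (nat_lit 97103) (nat_lit
  5) nil nil)))) (node (nat_lit 3) (nat_lit 0) (nat_lit 4) (node (nat_lit 5) (nat_lit 98982)
  (nat_lit 5) (node (nat_lit 7) (nat_lit 105444) (nat_lit 6) (node (nat_lit 6) (nat_lit 109101)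
  (nat_lit 7) (node (nat_lit 5) (nat_lit 109721) (nat_lit 8) (node (nat_lit 6) (nat_lit 110399)
  (nat_lit 9) (node (nat_lit 7) (nat_lit 108902) (nat_lit 10) nil nil) (node (nat_lit 7) (nat_lit
  107181) (nat_lit 9) nil (node (nat_lit 4) (nat_lit 105715) (nat_lit 9) nil nil))) (node (nat_lit
  7) (nat_lit 105915) (nat_lit 8) (node (nat_lit 5) (nat_lit 104603) (nat_lit 9) nil nil) (node
  (nat_lit 4) (nat_lit 110921) (nat_lit 8) nil nil))) (node (nat_lit 4) (nat_lit 108077) (nat_lit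
  7) (node (nat_lit 5) (nat_lit 108077) (nat_lit 8) (node (nat_lit 6) (nat_lit 96816) (nat_lit 9)
  (node (nat_lit 7) (nat_lit 85481) (nat_lit 10) (node (nat_lit 5) (nat_lit 73541) (nat_lit 11)
  nil nil) nil) nil) nil) nil)) (node (nat_lit 4) (nat_lit 107201) (nat_lit 6) (node (nat_lit 5)
  (nat_lit 105178) (nat_lit 7) (node (nat_lit 6) (nat_lit 96096) (nat_lit 8) (node (nat_lit 7)
  (nat_lit 77075) (nat_lit 9) nil nil) nil) nil) (node (nat_lit 6) (nat_lit 106394) (nat_lit 6)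
  (node (nat_lit 5) (nat_lit 107922) (nat_lit 7) (node (nat_lit 7) (nat_lit 108789) (nat_lit 8)
  (node (nat_lit 6) (nat_lit 105405) (nat_lit 9) nil nil) (node (nat_lit 4) (nat_lit 108009)
  (nat_lit 8) nil nil)) (node (nat_lit 4) (nat_lit 114185) (nat_lit 7) nil nil)) (node (nat_lit 0)
  (nat_lit 111287) (nat_lit 6) nil nil)))) (node (nat_lit 4) (nat_lit 104068) (nat_lit 5) (node
  (nat_lit 5) (nat_lit 94290) (nat_lit 6) (node (nat_lit 6) (nat_lit 73541) (nat_lit 7) (node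
  (nat_lit 4) (nat_lit 73541) (nat_lit 8) nil nil) nil) nil) (node (nat_lit 6) (nat_lit 103320)
  (nat_lit 5) (node (nat_lit 5) (nat_lit 108661) (nat_lit 6) (node (nat_lit 7) (nat_lit 110418)
  (nat_lit 7) (node (nat_lit 5) (nat_lit 109932) (nat_lit 8) (node (nat_lit 6) (nat_lit 108512)
  (nat_lit 9) nil nil) (node (nat_lit 6) (nat_lit 109181) (nat_lit 8) nil nil)) (node (nat_lit 6)
  (nat_lit 106841) (nat_lit 7) (node (nat_lit 7) (nat_lit 102275) (nat_lit 8) nil nil) (node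
  (nat_lit 4) (nat_lit 117057) (nat_lit 7) (node (nat_lit 5) (nat_lit 117149) (nat_lit 8) nil nil)
  nil))) (node (nat_lit 4) (nat_lit 114991) (nat_lit 6) (node (nat_lit 5) (nat_lit 103730)
  (nat_lit 7) (node (nat_lit 6) (nat_lit 92454) (nat_lit 8) (node (nat_lit 7) (nat_lit 81491)
  (nat_lit 9) nil nil) nil) nil) (node (nat_lit 0) (nat_lit 112469) (nat_lit 6) nil nil))) (node
  (nat_lit 0) (nat_lit 102813) (nat_lit 5) nil nil)))) (node (nat_lit 5) (nat_lit 0) (nat_lit 4)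
  (node (nat_lit 4) (nat_lit 105800) (nat_lit 5) (node (nat_lit 5) (nat_lit 96122) (nat_lit 6)
  (node (nat_lit 6) (nat_lit 78970) (nat_lit 7) (node (nat_lit 4) (nat_lit 79535) (nat_lit 8) nil
  nil) nil) nil) (node (nat_lit 3) (nat_lit 96459) (nat_lit 5) (node (nat_lit 6) (nat_lit 102132)
  (nat_lit 6) (node (nat_lit 8) (nat_lit 101361) (nat_lit 7) (node (nat_lit 5) (nat_lit 99233)
  (nat_lit 8) nil nil) (node (nat_lit 5) (nat_lit 103196) (nat_lit 7) (node (nat_lit 6) (nat_lit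
  102390) (nat_lit 8) nil nil) nil)) (node (nat_lit 4) (nat_lit 101661) (nat_lit 6) nil (node
  (nat_lit 5) (nat_lit 99092) (nat_lit 6) (node (nat_lit 6) (nat_lit 96660) (nat_lit 7) (node
  (nat_lit 8) (nat_lit 94892) (nat_lit 8) nil nil) nil) nil))) (node (nat_lit 0) (nat_lit 104644)
  (nat_lit 5) nil nil))) (node (nat_lit 0) (nat_lit 109694) (nat_lit 4) (node (nat_lit 6) (nat_lit
  109694) (nat_lit 5) nil nil) nil)))) (node (nat_lit 4) (nat_lit 0) (nat_lit 3) (node (nat_lit 3)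
  (nat_lit 0) (nat_lit 4) (node (nat_lit 5) (nat_lit 72174) (nat_lit 5) (node (nat_lit 7) (nat_lit
  76749) (nat_lit 6) (node (nat_lit 4) (nat_lit 84340) (nat_lit 7) (node (nat_lit 5) (nat_lit
  84340) (nat_lit 8) (node (nat_lit 4) (nat_lit 76317) (nat_lit 9) (node (nat_lit 7) (nat_lit
  63524) (nat_lit 10) (node (nat_lit 5) (nat_lit 42170) (nat_lit 11) nil nil) nil) nil) nil) (node
  (nat_lit 3) (nat_lit 80500) (nat_lit 7) (node (nat_lit 5) (nat_lit 80741) (nat_lit 8) (node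
  (nat_lit 7) (nat_lit 79640) (nat_lit 9) nil nil) (node (nat_lit 7) (nat_lit 78689) (nat_lit 8)
  nil nil)) (node (nat_lit 0) (nat_lit 82932) (nat_lit 7) nil nil))) (node (nat_lit 4) (nat_lit
  82093) (nat_lit 6) nil (node (nat_lit 3) (nat_lit 79628) (nat_lit 6) (node (nat_lit 7) (nat_lit
  82451) (nat_lit 7) (node (nat_lit 9) (nat_lit 81088) (nat_lit 8) nil (node (nat_lit 5) (nat_lit
  81904) (nat_lit 8) nil nil)) (node (nat_lit 5) (nat_lit 82242) (nat_lit 7) (node (nat_lit 7)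
  (nat_lit 82185) (nat_lit 8) (node (nat_lit 9) (nat_lit 79849) (nat_lit 9) nil nil) nil) (node
  (nat_lit 4) (nat_lit 84340) (nat_lit 7) (node (nat_lit 5) (nat_lit 84340) (nat_lit 8) (node
  (nat_lit 4) (nat_lit 72484) (nat_lit 9) (node (nat_lit 7) (nat_lit 63570) (nat_lit 10) (node
  (nat_lit 5) (nat_lit 42170) (nat_lit 11) nil nil) nil) nil) nil) (node (nat_lit 0) (nat_lit
  84340) (nat_lit 7) nil nil)))) (node (nat_lit 0) (nat_lit 82862) (nat_lit 6) nil nil)))) (node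
  (nat_lit 4) (nat_lit 80948) (nat_lit 5) (node (nat_lit 5) (nat_lit 80356) (nat_lit 6) (node
  (nat_lit 7) (nat_lit 80356) (nat_lit 7) (node (nat_lit 5) (nat_lit 80356) (nat_lit 8) nil nil)
  (node (nat_lit 4) (nat_lit 42170) (nat_lit 7) nil nil)) (node (nat_lit 3) (nat_lit 82170)
  (nat_lit 6) nil (node (nat_lit 0) (nat_lit 82323) (nat_lit 6) nil nil))) (node (nat_lit 3)
  (nat_lit 77195) (nat_lit 5) (node (nat_lit 5) (nat_lit 80042) (nat_lit 6) (node (nat_lit 7)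
  (nat_lit 83893) (nat_lit 7) (node (nat_lit 5) (nat_lit 84340) (nat_lit 8) (node (nat_lit 8)
  (nat_lit 84340) (nat_lit 9) nil nil) (node (nat_lit 8) (nat_lit 84010) (nat_lit 8) (node
  (nat_lit 7) (nat_lit 82130) (nat_lit 9) nil nil) nil)) (node (nat_lit 8) (nat_lit 83358)
  (nat_lit 7) (node (nat_lit 7) (nat_lit 83535) (nat_lit 8) (node (nat_lit 5) (nat_lit 82379)
  (nat_lit 9) nil (node (nat_lit 8) (nat_lit 81700) (nat_lit 9) nil nil)) nil) (node (nat_lit 4)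
  (nat_lit 84340) (nat_lit 7) nil (node (nat_lit 0) (nat_lit 84340) (nat_lit 7) nil nil)))) (node
  (nat_lit 4) (nat_lit 84153) (nat_lit 6) nil (node (nat_lit 7) (nat_lit 79698) (nat_lit 6) (node
  (nat_lit 4) (nat_lit 84340) (nat_lit 7) nil (node (nat_lit 5) (nat_lit 82623) (nat_lit 7) (node
  (nat_lit 8) (nat_lit 81990) (nat_lit 8) nil (node (nat_lit 7) (nat_lit 82740) (nat_lit 8) (node
  (nat_lit 8) (nat_lit 81989) (nat_lit 9) nil nil) nil)) (node (nat_lit 0) (nat_lit 84340)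
  (nat_lit 7) nil nil))) (node (nat_lit 0) (nat_lit 84153) (nat_lit 6) nil nil)))) (node (nat_lit
  0) (nat_lit 84340) (nat_lit 5) (node (nat_lit 4) (nat_lit 84340) (nat_lit 6) nil (node (nat_lit
  5) (nat_lit 84340) (nat_lit 6) nil (node (nat_lit 7) (nat_lit 84340) (nat_lit 6) nil (node
  (nat_lit 3) (nat_lit 84340) (nat_lit 6) nil (node (nat_lit 0) (nat_lit 84340) (nat_lit 6) nil
  nil))))) nil)))) (node (nat_lit 0) (nat_lit 0) (nat_lit 4) (node (nat_lit 5) (nat_lit 81519)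
  (nat_lit 5) (node (nat_lit 4) (nat_lit 84340) (nat_lit 6) nil (node (nat_lit 3) (nat_lit 81519)
  (nat_lit 6) nil nil)) (node (nat_lit 3) (nat_lit 81519) (nat_lit 5) (node (nat_lit 5) (nat_lit
  81519) (nat_lit 6) nil nil) (node (nat_lit 4) (nat_lit 83659) (nat_lit 5) nil (node (nat_lit 0)
  (nat_lit 83659) (nat_lit 5) nil nil)))) nil)) (node (nat_lit 0) (nat_lit 0) (nat_lit 3) (node
  (nat_lit 3) (nat_lit 105964) (nat_lit 4) (node (nat_lit 5) (nat_lit 105964) (nat_lit 5) (node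
  (nat_lit 7) (nat_lit 106043) (nat_lit 6) (node (nat_lit 4) (nat_lit 106788) (nat_lit 7) (node
  (nat_lit 5) (nat_lit 106788) (nat_lit 8) (node (nat_lit 6) (nat_lit 100905) (nat_lit 9) (node
  (nat_lit 7) (nat_lit 89767) (nat_lit 10) (node (nat_lit 5) (nat_lit 69698) (nat_lit 11) nil nil)
  nil) nil) nil) nil) (node (nat_lit 3) (nat_lit 105964) (nat_lit 6) nil (node (nat_lit 4)
  (nat_lit 106788) (nat_lit 6) (node (nat_lit 5) (nat_lit 106788) (nat_lit 7) (node (nat_lit 6)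
  (nat_lit 89714) (nat_lit 8) (node (nat_lit 7) (nat_lit 74179) (nat_lit 9) nil nil) nil) nil)
  nil))) (node (nat_lit 6) (nat_lit 106788) (nat_lit 5) nil (node (nat_lit 3) (nat_lit 105964)
  (nat_lit 5) nil nil))) (node (nat_lit 5) (nat_lit 0) (nat_lit 4) (node (nat_lit 3) (nat_lit
  105964) (nat_lit 5) (node (nat_lit 5) (nat_lit 105964) (nat_lit 6) nil (node (nat_lit 3)
  (nat_lit 105964) (nat_lit 6) nil nil)) (node (nat_lit 4) (nat_lit 106788) (nat_lit 5) (node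
  (nat_lit 5) (nat_lit 106788) (nat_lit 6) (node (nat_lit 6) (nat_lit 74179) (nat_lit 7) nil nil)
  nil) (node (nat_lit 0) (nat_lit 106788) (nat_lit 5) nil nil))) (node (nat_lit 4) (nat_lit
  106788) (nat_lit 4) (node (nat_lit 3) (nat_lit 106788) (nat_lit 5) (node (nat_lit 4) (nat_lit
  106788) (nat_lit 6) (node (nat_lit 5) (nat_lit 106788) (nat_lit 7) (node (nat_lit 6) (nat_lit
  106788) (nat_lit 8) (node (nat_lit 4) (nat_lit 69698) (nat_lit 9) nil nil) nil) nil) nil) (node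
  (nat_lit 6) (nat_lit 106788) (nat_lit 5) (node (nat_lit 5) (nat_lit 106788) (nat_lit 6) (node
  (nat_lit 4) (nat_lit 106788) (nat_lit 7) (node (nat_lit 5) (nat_lit 106788) (nat_lit 8) (node
  (nat_lit 6) (nat_lit 106788) (nat_lit 9) (node (nat_lit 4) (nat_lit 106788) (nat_lit 10) (node
  (nat_lit 6) (nat_lit 74179) (nat_lit 11) nil nil) nil) nil) nil) nil) nil) (node (nat_lit 5)
  (nat_lit 106788) (nat_lit 5) nil nil))) (node (nat_lit 0) (nat_lit 106788) (nat_lit 4) (node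
  (nat_lit 5) (nat_lit 106788) (nat_lit 5) (node (nat_lit 7) (nat_lit 106788) (nat_lit 6) nil
  (node (nat_lit 3) (nat_lit 106788) (nat_lit 6) nil nil)) (node (nat_lit 6) (nat_lit 106788)
  (nat_lit 5) (node (nat_lit 5) (nat_lit 106788) (nat_lit 6) nil nil) (node (nat_lit 3) (nat_lit
  106788) (nat_lit 5) (node (nat_lit 5) (nat_lit 106788) (nat_lit 6) nil nil) nil))) nil))))
  nil))) (node (nat_lit 0) (nat_lit 0) (nat_lit 2) (node (nat_lit 3) (nat_lit 0) (nat_lit 3) (node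
  (nat_lit 3) (nat_lit 0) (nat_lit 4) (node (nat_lit 5) (nat_lit 107185) (nat_lit 5) nil (node
  (nat_lit 6) (nat_lit 105706) (nat_lit 5) (node (nat_lit 5) (nat_lit 115996) (nat_lit 6) nil
  (node (nat_lit 4) (nat_lit 115996) (nat_lit 6) nil (node (nat_lit 3) (nat_lit 106780) (nat_lit
  6) (node (nat_lit 7) (nat_lit 99768) (nat_lit 7) nil nil) (node (nat_lit 0) (nat_lit 115996)
  (nat_lit 6) nil nil)))) (node (nat_lit 3) (nat_lit 103020) (nat_lit 5) (node (nat_lit 7)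
  (nat_lit 106528) (nat_lit 6) nil (node (nat_lit 6) (nat_lit 106947) (nat_lit 6) (node (nat_lit
  7) (nat_lit 101915) (nat_lit 7) nil nil) (node (nat_lit 5) (nat_lit 114327) (nat_lit 6) nil
  nil))) (node (nat_lit 4) (nat_lit 111054) (nat_lit 5) (node (nat_lit 5) (nat_lit 92355) (nat_lit
  6) (node (nat_lit 6) (nat_lit 72546) (nat_lit 7) nil nil) nil) (node (nat_lit 0) (nat_lit
  107185) (nat_lit 5) nil nil))))) (node (nat_lit 4) (nat_lit 115530) (nat_lit 4) (node (nat_lit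
  5) (nat_lit 80189) (nat_lit 5) (node (nat_lit 4) (nat_lit 80189) (nat_lit 6) (node (nat_lit 6)
  (nat_lit 80189) (nat_lit 7) (node (nat_lit 4) (nat_lit 80189) (nat_lit 8) nil nil) nil) nil)
  (node (nat_lit 6) (nat_lit 115530) (nat_lit 5) (node (nat_lit 5) (nat_lit 116388) (nat_lit 6)
  (node (nat_lit 4) (nat_lit 116388) (nat_lit 7) nil nil) nil) (node (nat_lit 3) (nat_lit 115530)
  (nat_lit 5) (node (nat_lit 4) (nat_lit 116388) (nat_lit 6) (node (nat_lit 5) (nat_lit 116388)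
  (nat_lit 7) (node (nat_lit 6) (nat_lit 116388) (nat_lit 8) (node (nat_lit 4) (nat_lit 76293)
  (nat_lit 9) nil nil) nil) nil) nil) nil))) (node (nat_lit 5) (nat_lit 115530) (nat_lit 4) (node
  (nat_lit 4) (nat_lit 116388) (nat_lit 5) (node (nat_lit 6) (nat_lit 116388) (nat_lit 6) (node
  (nat_lit 4) (nat_lit 116388) (nat_lit 7) (node (nat_lit 5) (nat_lit 116388) (nat_lit 8) (node
  (nat_lit 6) (nat_lit 116388) (nat_lit 9) (node (nat_lit 5) (nat_lit 116388) (nat_lit 10) (node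
  (nat_lit 4) (nat_lit 80189) (nat_lit 11) nil nil) nil) nil) nil) nil) nil) (node (nat_lit 0)
  (nat_lit 116388) (nat_lit 5) nil nil)) (node (nat_lit 0) (nat_lit 114722) (nat_lit 4) (node
  (nat_lit 6) (nat_lit 114722) (nat_lit 5) nil nil) nil)))) (node (nat_lit 0) (nat_lit 0) (nat_lit
  3) (node (nat_lit 3) (nat_lit 112342) (nat_lit 4) (node (nat_lit 5) (nat_lit 117933) (nat_lit 5)
  nil (node (nat_lit 4) (nat_lit 117933) (nat_lit 5) nil nil)) (node (nat_lit 4) (nat_lit 0)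
  (nat_lit 4) (node (nat_lit 6) (nat_lit 121386) (nat_lit 5) (node (nat_lit 5) (nat_lit 122776)
  (nat_lit 6) (node (nat_lit 4) (nat_lit 123396) (nat_lit 7) nil nil) nil) (node (nat_lit 3)
  (nat_lit 118997) (nat_lit 5) nil (node (nat_lit 5) (nat_lit 121386) (nat_lit 5) nil (node
  (nat_lit 0) (nat_lit 121386) (nat_lit 5) nil nil)))) (node (nat_lit 5) (nat_lit 118997) (nat_lit
  4) (node (nat_lit 4) (nat_lit 121386) (nat_lit 5) nil nil) (node (nat_lit 0) (nat_lit 118997)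
  (nat_lit 4) nil nil)))) (node (nat_lit 4) (nat_lit 0) (nat_lit 3) (node (nat_lit 3) (nat_lit 0)
  (nat_lit 4) (node (nat_lit 4) (nat_lit 118041) (nat_lit 5) (node (nat_lit 5) (nat_lit 118758)
  (nat_lit 6) (node (nat_lit 4) (nat_lit 80436) (nat_lit 7) nil nil) nil) (node (nat_lit 5)
  (nat_lit 115467) (nat_lit 5) nil (node (nat_lit 3) (nat_lit 109597) (nat_lit 5) nil (node
  (nat_lit 0) (nat_lit 116872) (nat_lit 5) nil nil)))) (node (nat_lit 0) (nat_lit 0) (nat_lit 4)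
  (node (nat_lit 4) (nat_lit 120654) (nat_lit 5) (node (nat_lit 5) (nat_lit 120654) (nat_lit 6)
  nil nil) (node (nat_lit 5) (nat_lit 120654) (nat_lit 5) nil (node (nat_lit 3) (nat_lit 118112)
  (nat_lit 5) nil (node (nat_lit 0) (nat_lit 120654) (nat_lit 5) nil nil)))) nil)) nil))) nil))
  nil)

noncomputable def c6 : Tr :=
  (node (nat_lit 3) (nat_lit 0) (nat_lit 1) (node (nat_lit 3) (nat_lit 0) (nat_lit 2) (node
  (nat_lit 0) (nat_lit 0) (nat_lit 3) (node (nat_lit 5) (nat_lit 0) (nat_lit 4) t341 (node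
  (nat_lit 4) (nat_lit 0) (nat_lit 4) (node (nat_lit 6) (nat_lit 33845) (nat_lit 5) (node (nat_lit
  5) (nat_lit 35209) (nat_lit 6) (node (nat_lit 6) (nat_lit 41030) (nat_lit 7) (node (nat_lit 4)
  (nat_lit 41816) (nat_lit 8) (node (nat_lit 5) (nat_lit 42519) (nat_lit 9) (node (nat_lit 4)
  (nat_lit 42953) (nat_lit 10) (node (nat_lit 6) (nat_lit 44906) (nat_lit 11) (node (nat_lit 5)
  (nat_lit 44906) (nat_lit 12) (node (nat_lit 4) (nat_lit 44906) (nat_lit 13) (node (nat_lit 5)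
  (nat_lit 44906) (nat_lit 14) (node (nat_lit 6) (nat_lit 45434) (nat_lit 15) nil nil) nil) nil)
  (node (nat_lit 4) (nat_lit 44906) (nat_lit 12) (node (nat_lit 5) (nat_lit 44906) (nat_lit 13)
  (node (nat_lit 6) (nat_lit 45381) (nat_lit 14) nil nil) nil) (node (nat_lit 3) (nat_lit 44906)
  (nat_lit 12) nil (node (nat_lit 0) (nat_lit 45116) (nat_lit 12) nil nil)))) (node (nat_lit 3)
  (nat_lit 43817) (nat_lit 11) (node (nat_lit 5) (nat_lit 44023) (nat_lit 12) (node (nat_lit 4)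
  (nat_lit 44264) (nat_lit 13) (node (nat_lit 5) (nat_lit 42584) (nat_lit 14) nil nil) nil) (node
  (nat_lit 4) (nat_lit 44237) (nat_lit 12) nil (node (nat_lit 6) (nat_lit 45011) (nat_lit 12) nil
  nil))) (node (nat_lit 0) (nat_lit 44906) (nat_lit 11) nil nil))) (node (nat_lit 6) (nat_lit
  44625) (nat_lit 10) (node (nat_lit 5) (nat_lit 44625) (nat_lit 11) (node (nat_lit 4) (nat_lit
  44625) (nat_lit 12) (node (nat_lit 5) (nat_lit 44652) (nat_lit 13) (node (nat_lit 6) (nat_lit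
  45381) (nat_lit 14) nil (node (nat_lit 3) (nat_lit 44585) (nat_lit 14) nil nil)) (node (nat_lit
  6) (nat_lit 45255) (nat_lit 13) nil nil)) (node (nat_lit 3) (nat_lit 44625) (nat_lit 12) nil
  (node (nat_lit 0) (nat_lit 45089) (nat_lit 12) nil nil))) (node (nat_lit 3) (nat_lit 44625)
  (nat_lit 11) nil (node (nat_lit 0) (nat_lit 44878) (nat_lit 11) nil nil))) (node (nat_lit 3)
  (nat_lit 43049) (nat_lit 10) (node (nat_lit 4) (nat_lit 43587) (nat_lit 11) nil (node (nat_lit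
  5) (nat_lit 43446) (nat_lit 11) nil (node (nat_lit 6) (nat_lit 44615) (nat_lit 11) nil (node
  (nat_lit 0) (nat_lit 44615) (nat_lit 11) nil nil)))) (node (nat_lit 0) (nat_lit 44625) (nat_lit
  10) (node (nat_lit 5) (nat_lit 44625) (nat_lit 11) nil nil) nil)))) (node (nat_lit 3) (nat_lit
  42421) (nat_lit 9) (node (nat_lit 6) (nat_lit 44401) (nat_lit 10) nil (node (nat_lit 4) (nat_lit
  42768) (nat_lit 10) (node (nat_lit 6) (nat_lit 44334) (nat_lit 11) nil (node (nat_lit 5)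
  (nat_lit 43173) (nat_lit 11) nil (node (nat_lit 0) (nat_lit 44334) (nat_lit 11) nil nil))) (node
  (nat_lit 5) (nat_lit 42801) (nat_lit 10) (node (nat_lit 4) (nat_lit 43188) (nat_lit 11) nil
  (node (nat_lit 12) (nat_lit 43577) (nat_lit 11) nil (node (nat_lit 6) (nat_lit 44367) (nat_lit
  11) nil nil))) (node (nat_lit 0) (nat_lit 44401) (nat_lit 10) nil nil)))) (node (nat_lit 0)
  (nat_lit 44175) (nat_lit 9) (node (nat_lit 6) (nat_lit 44484) (nat_lit 10) nil (node (nat_lit 4)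
  (nat_lit 44175) (nat_lit 10) nil (node (nat_lit 5) (nat_lit 44175) (nat_lit 10) nil (node
  (nat_lit 3) (nat_lit 44175) (nat_lit 10) nil (node (nat_lit 0) (nat_lit 44484) (nat_lit 10) nil
  nil))))) nil))) (node (nat_lit 3) (nat_lit 41607) (nat_lit 8) nil (node (nat_lit 0) (nat_lit
  42124) (nat_lit 8) nil nil))) (node (nat_lit 4) (nat_lit 37247) (nat_lit 7) (node (nat_lit 5)
  (nat_lit 38988) (nat_lit 8) (node (nat_lit 6) (nat_lit 43403) (nat_lit 9) (node (nat_lit 4)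
  (nat_lit 43403) (nat_lit 10) nil nil) nil) (node (nat_lit 6) (nat_lit 39593) (nat_lit 8) nil
  (node (nat_lit 3) (nat_lit 37715) (nat_lit 8) nil (node (nat_lit 0) (nat_lit 40104) (nat_lit 8)
  nil nil)))) (node (nat_lit 3) (nat_lit 35677) (nat_lit 7) nil (node (nat_lit 0) (nat_lit 37549)
  (nat_lit 7) nil nil)))) (node (nat_lit 3) (nat_lit 34313) (nat_lit 6) nil (node (nat_lit 0)
  (nat_lit 36670) (nat_lit 6) nil nil))) (node (nat_lit 5) (nat_lit 24361) (nat_lit 5) (node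
  (nat_lit 4) (nat_lit 29837) (nat_lit 6) (node (nat_lit 6) (nat_lit 40769) (nat_lit 7) (node
  (nat_lit 5) (nat_lit 40835) (nat_lit 8) (node (nat_lit 6) (nat_lit 43246) (nat_lit 9) (node
  (nat_lit 4) (nat_lit 43246) (nat_lit 10) (node (nat_lit 5) (nat_lit 43246) (nat_lit 11) nil nil)
  nil) (node (nat_lit 4) (nat_lit 40835) (nat_lit 9) nil nil)) (node (nat_lit 3) (nat_lit 41346)
  (nat_lit 8) nil (node (nat_lit 0) (nat_lit 41863) (nat_lit 8) nil nil))) (node (nat_lit 3)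
  (nat_lit 33954) (nat_lit 7) (node (nat_lit 5) (nat_lit 35550) (nat_lit 8) (node (nat_lit 4)
  (nat_lit 34397) (nat_lit 9) (node (nat_lit 5) (nat_lit 33775) (nat_lit 10) nil nil) nil) (node
  (nat_lit 4) (nat_lit 35532) (nat_lit 8) nil nil)) (node (nat_lit 0) (nat_lit 38855) (nat_lit 7)
  nil nil))) (node (nat_lit 3) (nat_lit 30625) (nat_lit 6) (node (nat_lit 4) (nat_lit 33113)
  (nat_lit 7) (node (nat_lit 9) (nat_lit 33110) (nat_lit 8) nil nil) (node (nat_lit 5) (nat_lit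
  34442) (nat_lit 7) (node (nat_lit 4) (nat_lit 34190) (nat_lit 8) nil nil) (node (nat_lit 6)
  (nat_lit 36018) (nat_lit 7) nil (node (nat_lit 0) (nat_lit 36018) (nat_lit 7) nil nil)))) (node
  (nat_lit 0) (nat_lit 37285) (nat_lit 6) nil nil))) (node (nat_lit 3) (nat_lit 26708) (nat_lit 5)
  (node (nat_lit 6) (nat_lit 39471) (nat_lit 6) (node (nat_lit 8) (nat_lit 39471) (nat_lit 7) nil
  nil) (node (nat_lit 5) (nat_lit 32000) (nat_lit 6) (node (nat_lit 4) (nat_lit 36962) (nat_lit 7)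
  (node (nat_lit 5) (nat_lit 37637) (nat_lit 8) (node (nat_lit 8) (nat_lit 37096) (nat_lit 9)
  (node (nat_lit 4) (nat_lit 36644) (nat_lit 10) nil nil) nil) (node (nat_lit 8) (nat_lit 36332)
  (nat_lit 8) (node (nat_lit 4) (nat_lit 32251) (nat_lit 9) (node (nat_lit 5) (nat_lit 33066)
  (nat_lit 10) (node (nat_lit 6) (nat_lit 30604) (nat_lit 11) nil nil) nil) nil) nil)) (node
  (nat_lit 8) (nat_lit 36141) (nat_lit 7) (node (nat_lit 4) (nat_lit 37686) (nat_lit 8) (node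
  (nat_lit 8) (nat_lit 37529) (nat_lit 9) nil nil) (node (nat_lit 0) (nat_lit 39639) (nat_lit 8)
  nil nil)) (node (nat_lit 6) (nat_lit 37181) (nat_lit 7) nil (node (nat_lit 0) (nat_lit 37181)
  (nat_lit 7) nil nil)))) (node (nat_lit 4) (nat_lit 32173) (nat_lit 6) (node (nat_lit 5) (nat_lit
  36389) (nat_lit 7) (node (nat_lit 6) (nat_lit 27138) (nat_lit 8) (node (nat_lit 4) (nat_lit
  12143) (nat_lit 9) nil nil) (node (nat_lit 4) (nat_lit 36087) (nat_lit 8) nil (node (nat_lit 8)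
  (nat_lit 36335) (nat_lit 8) nil nil))) (node (nat_lit 6) (nat_lit 37353) (nat_lit 7) nil (node
  (nat_lit 0) (nat_lit 37353) (nat_lit 7) nil nil))) (node (nat_lit 0) (nat_lit 39848) (nat_lit 6)
  nil nil)))) (node (nat_lit 0) (nat_lit 36323) (nat_lit 5) (node (nat_lit 5) (nat_lit 36573)
  (nat_lit 6) (node (nat_lit 4) (nat_lit 36573) (nat_lit 7) nil (node (nat_lit 6) (nat_lit 38134)
  (nat_lit 7) nil (node (nat_lit 8) (nat_lit 38134) (nat_lit 7) nil (node (nat_lit 3) (nat_lit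
  36573) (nat_lit 7) nil nil)))) (node (nat_lit 6) (nat_lit 39790) (nat_lit 6) (node (nat_lit 8)
  (nat_lit 40390) (nat_lit 7) nil nil) (node (nat_lit 4) (nat_lit 36218) (nat_lit 6) (node
  (nat_lit 5) (nat_lit 36218) (nat_lit 7) nil nil) (node (nat_lit 3) (nat_lit 36176) (nat_lit 6)
  (node (nat_lit 8) (nat_lit 37737) (nat_lit 7) nil nil) (node (nat_lit 0) (nat_lit 39547)
  (nat_lit 6) (node (nat_lit 3) (nat_lit 39547) (nat_lit 7) nil nil) nil))))) nil)))) (node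
  (nat_lit 3) (nat_lit 0) (nat_lit 4) (node (nat_lit 4) (nat_lit 26738) (nat_lit 5) (node (nat_lit
  5) (nat_lit 31522) (nat_lit 6) (node (nat_lit 7) (nat_lit 35165) (nat_lit 7) (node (nat_lit 5)
  (nat_lit 33828) (nat_lit 8) (node (nat_lit 4) (nat_lit 34070) (nat_lit 9) (node (nat_lit 7)
  (nat_lit 34030) (nat_lit 10) (node (nat_lit 4) (nat_lit 34005) (nat_lit 11) (node (nat_lit 5)
  (nat_lit 33127) (nat_lit 12) nil nil) nil) nil) nil) (node (nat_lit 4) (nat_lit 36693) (nat_lit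
  8) nil nil)) (node (nat_lit 4) (nat_lit 32659) (nat_lit 7) (node (nat_lit 7) (nat_lit 28668)
  (nat_lit 8) (node (nat_lit 4) (nat_lit 30024) (nat_lit 9) nil nil) nil) (node (nat_lit 6)
  (nat_lit 11284) (nat_lit 7) nil (node (nat_lit 0) (nat_lit 36703) (nat_lit 7) nil nil)))) (node
  (nat_lit 6) (nat_lit 39311) (nat_lit 6) nil (node (nat_lit 7) (nat_lit 30893) (nat_lit 6) (node
  (nat_lit 6) (nat_lit 38176) (nat_lit 7) nil (node (nat_lit 5) (nat_lit 32406) (nat_lit 7) (node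
  (nat_lit 4) (nat_lit 32104) (nat_lit 8) nil (node (nat_lit 7) (nat_lit 31644) (nat_lit 8) (node
  (nat_lit 4) (nat_lit 31093) (nat_lit 9) (node (nat_lit 5) (nat_lit 28575) (nat_lit 10) nil nil)
  nil) nil)) nil)) (node (nat_lit 0) (nat_lit 36842) (nat_lit 6) nil nil)))) (node (nat_lit 5)
  (nat_lit 0) (nat_lit 5) (node (nat_lit 7) (nat_lit 31537) (nat_lit 6) (node (nat_lit 6) (nat_lit
  41651) (nat_lit 7) (node (nat_lit 5) (nat_lit 41651) (nat_lit 8) (node (nat_lit 6) (nat_lit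
  43366) (nat_lit 9) (node (nat_lit 7) (nat_lit 43366) (nat_lit 10) (node (nat_lit 5) (nat_lit
  43366) (nat_lit 11) nil nil) nil) nil) nil) (node (nat_lit 4) (nat_lit 34753) (nat_lit 7) nil
  (node (nat_lit 0) (nat_lit 36718) (nat_lit 7) nil nil))) (node (nat_lit 4) (nat_lit 32060)
  (nat_lit 6) (node (nat_lit 7) (nat_lit 35409) (nat_lit 7) (node (nat_lit 5) (nat_lit 35106)
  (nat_lit 8) nil nil) (node (nat_lit 5) (nat_lit 33508) (nat_lit 7) (node (nat_lit 7) (nat_lit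
  33520) (nat_lit 8) (node (nat_lit 4) (nat_lit 34596) (nat_lit 9) nil nil) nil) (node (nat_lit 6)
  (nat_lit 37240) (nat_lit 7) nil (node (nat_lit 0) (nat_lit 37240) (nat_lit 7) nil nil)))) (node
  (nat_lit 6) (nat_lit 36464) (nat_lit 6) nil (node (nat_lit 0) (nat_lit 38421) (nat_lit 6) nil
  nil)))) (node (nat_lit 6) (nat_lit 36169) (nat_lit 5) (node (nat_lit 5) (nat_lit 37240) (nat_lit
  6) (node (nat_lit 6) (nat_lit 42193) (nat_lit 7) (node (nat_lit 7) (nat_lit 42271) (nat_lit 8)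
  (node (nat_lit 5) (nat_lit 42494) (nat_lit 9) (node (nat_lit 7) (nat_lit 43036) (nat_lit 10)
  (node (nat_lit 6) (nat_lit 44556) (nat_lit 11) nil (node (nat_lit 4) (nat_lit 43445) (nat_lit
  11) nil (node (nat_lit 0) (nat_lit 44082) (nat_lit 11) nil nil))) (node (nat_lit 6) (nat_lit
  44439) (nat_lit 10) (node (nat_lit 5) (nat_lit 44439) (nat_lit 11) nil nil) (node (nat_lit 4)
  (nat_lit 42266) (nat_lit 10) nil (node (nat_lit 0) (nat_lit 43364) (nat_lit 10) nil nil))))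
  (node (nat_lit 4) (nat_lit 42370) (nat_lit 9) (node (nat_lit 5) (nat_lit 41800) (nat_lit 10) nil
  (node (nat_lit 6) (nat_lit 43240) (nat_lit 10) nil (node (nat_lit 7) (nat_lit 42275) (nat_lit
  10) nil (node (nat_lit 0) (nat_lit 43240) (nat_lit 10) nil nil)))) (node (nat_lit 0) (nat_lit
  43794) (nat_lit 9) nil nil))) nil) nil) (node (nat_lit 4) (nat_lit 36169) (nat_lit 6) nil nil))
  (node (nat_lit 0) (nat_lit 36230) (nat_lit 5) (node (nat_lit 6) (nat_lit 37191) (nat_lit 6) nil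
  (node (nat_lit 5) (nat_lit 36230) (nat_lit 6) nil (node (nat_lit 7) (nat_lit 36230) (nat_lit 6)
  nil (node (nat_lit 4) (nat_lit 36230) (nat_lit 6) nil nil)))) nil)))) (node (nat_lit 0) (nat_lit
  0) (nat_lit 4) (node (nat_lit 5) (nat_lit 31963) (nat_lit 5) (node (nat_lit 6) (nat_lit 40703)
  (nat_lit 6) (node (nat_lit 5) (nat_lit 41099) (nat_lit 7) (node (nat_lit 7) (nat_lit 43986)
  (nat_lit 8) (node (nat_lit 5) (nat_lit 43986) (nat_lit 9) (node (nat_lit 6) (nat_lit 44810)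
  (nat_lit 10) (node (nat_lit 7) (nat_lit 44986) (nat_lit 11) nil nil) (node (nat_lit 4) (nat_lit
  43986) (nat_lit 10) nil (node (nat_lit 3) (nat_lit 43986) (nat_lit 10) nil (node (nat_lit 0)
  (nat_lit 44447) (nat_lit 10) nil nil)))) (node (nat_lit 6) (nat_lit 44442) (nat_lit 9) nil (node
  (nat_lit 0) (nat_lit 44248) (nat_lit 9) nil (node (nat_lit 3) (nat_lit 43986) (nat_lit 9) nil
  nil)))) (node (nat_lit 4) (nat_lit 41301) (nat_lit 8) (node (nat_lit 5) (nat_lit 41301) (nat_lit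
  9) nil (node (nat_lit 6) (nat_lit 42573) (nat_lit 9) nil nil)) (node (nat_lit 3) (nat_lit 41244)
  (nat_lit 8) (node (nat_lit 5) (nat_lit 41244) (nat_lit 9) nil (node (nat_lit 6) (nat_lit 42515)
  (nat_lit 9) nil nil)) (node (nat_lit 0) (nat_lit 43879) (nat_lit 8) nil nil)))) (node (nat_lit
  4) (nat_lit 40998) (nat_lit 7) (node (nat_lit 7) (nat_lit 43777) (nat_lit 8) (node (nat_lit 5)
  (nat_lit 43777) (nat_lit 9) nil nil) (node (nat_lit 5) (nat_lit 40998) (nat_lit 8) nil (node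
  (nat_lit 6) (nat_lit 42658) (nat_lit 8) nil nil))) (node (nat_lit 3) (nat_lit 40523) (nat_lit 7)
  (node (nat_lit 6) (nat_lit 42184) (nat_lit 8) nil (node (nat_lit 5) (nat_lit 40523) (nat_lit 8)
  nil (node (nat_lit 7) (nat_lit 42184) (nat_lit 8) nil nil))) (node (nat_lit 0) (nat_lit 42684)
  (nat_lit 7) (node (nat_lit 6) (nat_lit 43093) (nat_lit 8) nil (node (nat_lit 7) (nat_lit 43093)
  (nat_lit 8) nil (node (nat_lit 5) (nat_lit 42684) (nat_lit 8) nil nil))) nil)))) (node (nat_lit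
  7) (nat_lit 40466) (nat_lit 6) (node (nat_lit 6) (nat_lit 42170) (nat_lit 7) (node (nat_lit 5)
  (nat_lit 42170) (nat_lit 8) nil nil) nil) (node (nat_lit 4) (nat_lit 34009) (nat_lit 6) (node
  (nat_lit 5) (nat_lit 34009) (nat_lit 7) nil (node (nat_lit 6) (nat_lit 37098) (nat_lit 7) nil
  (node (nat_lit 7) (nat_lit 37098) (nat_lit 7) nil (node (nat_lit 3) (nat_lit 34009) (nat_lit 7)
  nil nil)))) (node (nat_lit 3) (nat_lit 33245) (nat_lit 6) (node (nat_lit 6) (nat_lit 36334)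
  (nat_lit 7) nil (node (nat_lit 4) (nat_lit 33245) (nat_lit 7) nil (node (nat_lit 7) (nat_lit
  36334) (nat_lit 7) nil nil))) (node (nat_lit 0) (nat_lit 39530) (nat_lit 6) nil nil))))) (node
  (nat_lit 6) (nat_lit 36809) (nat_lit 5) (node (nat_lit 5) (nat_lit 37559) (nat_lit 6) (node
  (nat_lit 6) (nat_lit 42520) (nat_lit 7) (node (nat_lit 7) (nat_lit 43917) (nat_lit 8) (node
  (nat_lit 5) (nat_lit 43917) (nat_lit 9) (node (nat_lit 7) (nat_lit 44740) (nat_lit 10) (node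
  (nat_lit 6) (nat_lit 44916) (nat_lit 11) nil nil) (node (nat_lit 6) (nat_lit 44740) (nat_lit 10)
  nil nil)) (node (nat_lit 4) (nat_lit 43917) (nat_lit 9) nil (node (nat_lit 0) (nat_lit 44178)
  (nat_lit 9) nil (node (nat_lit 3) (nat_lit 43917) (nat_lit 9) nil nil)))) nil) (node (nat_lit 7)
  (nat_lit 41912) (nat_lit 7) (node (nat_lit 5) (nat_lit 41912) (nat_lit 8) nil nil) nil)) (node
  (nat_lit 4) (nat_lit 36809) (nat_lit 6) nil (node (nat_lit 3) (nat_lit 36809) (nat_lit 6) nil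
  (node (nat_lit 0) (nat_lit 37770) (nat_lit 6) nil nil)))) (node (nat_lit 4) (nat_lit 31848)
  (nat_lit 5) (node (nat_lit 6) (nat_lit 38904) (nat_lit 6) nil (node (nat_lit 7) (nat_lit 36044)
  (nat_lit 6) nil (node (nat_lit 5) (nat_lit 32166) (nat_lit 6) nil (node (nat_lit 3) (nat_lit
  31848) (nat_lit 6) nil (node (nat_lit 0) (nat_lit 34337) (nat_lit 6) nil nil))))) (node (nat_lit
  3) (nat_lit 31104) (nat_lit 5) (node (nat_lit 4) (nat_lit 31104) (nat_lit 6) nil (node (nat_lit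
  6) (nat_lit 35299) (nat_lit 6) nil (node (nat_lit 5) (nat_lit 31422) (nat_lit 6) nil (node
  (nat_lit 7) (nat_lit 33593) (nat_lit 6) nil nil)))) (node (nat_lit 0) (nat_lit 36405) (nat_lit
  5) (node (nat_lit 6) (nat_lit 37366) (nat_lit 6) nil (node (nat_lit 5) (nat_lit 36405) (nat_lit
  6) nil (node (nat_lit 7) (nat_lit 37366) (nat_lit 6) nil nil))) nil))))) nil)))) t342) (node
  (nat_lit 0) (nat_lit 0) (nat_lit 2) t344 nil)) t345)

noncomputable def t346 : Tr :=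
  (node (nat_lit 6) (nat_lit 0) (nat_lit 5) (node (nat_lit 0) (nat_lit 0) (nat_lit 6) (node
  (nat_lit 4) (nat_lit 0) (nat_lit 7) (node (nat_lit 6) (nat_lit 55564) (nat_lit 8) (node (nat_lit
  4) (nat_lit 59053) (nat_lit 9) (node (nat_lit 9) (nat_lit 65678) (nat_lit 10) (node (nat_lit 6)
  (nat_lit 68700) (nat_lit 11) (node (nat_lit 9) (nat_lit 70279) (nat_lit 12) (node (nat_lit 4)
  (nat_lit 70037) (nat_lit 13) (node (nat_lit 6) (nat_lit 70712) (nat_lit 14) (node (nat_lit 4)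
  (nat_lit 68751) (nat_lit 15) (node (nat_lit 5) (nat_lit 68612) (nat_lit 16) nil nil) (node
  (nat_lit 5) (nat_lit 69744) (nat_lit 15) nil nil)) (node (nat_lit 9) (nat_lit 70786) (nat_lit
  14) nil (node (nat_lit 5) (nat_lit 70786) (nat_lit 14) nil nil))) (node (nat_lit 5) (nat_lit
  71242) (nat_lit 13) nil (node (nat_lit 0) (nat_lit 71242) (nat_lit 13) nil nil))) (node (nat_lit
  4) (nat_lit 70306) (nat_lit 12) (node (nat_lit 6) (nat_lit 70221) (nat_lit 13) (node (nat_lit 9)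
  (nat_lit 70970) (nat_lit 14) nil (node (nat_lit 5) (nat_lit 71298) (nat_lit 14) nil nil)) (node
  (nat_lit 5) (nat_lit 71269) (nat_lit 13) nil (node (nat_lit 0) (nat_lit 71269) (nat_lit 13) nil
  nil))) (node (nat_lit 5) (nat_lit 71496) (nat_lit 12) (node (nat_lit 4) (nat_lit 70943) (nat_lit
  13) (node (nat_lit 5) (nat_lit 70921) (nat_lit 14) nil nil) (node (nat_lit 6) (nat_lit 72459)
  (nat_lit 13) nil nil)) (node (nat_lit 0) (nat_lit 72026) (nat_lit 12) (node (nat_lit 6) (nat_lit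
  72550) (nat_lit 13) nil (node (nat_lit 4) (nat_lit 72550) (nat_lit 13) nil nil)) nil)))) (node
  (nat_lit 4) (nat_lit 69359) (nat_lit 11) (node (nat_lit 6) (nat_lit 71552) (nat_lit 12) (node
  (nat_lit 9) (nat_lit 72005) (nat_lit 13) (node (nat_lit 6) (nat_lit 72774) (nat_lit 14) nil nil)
  (node (nat_lit 5) (nat_lit 72668) (nat_lit 13) (node (nat_lit 4) (nat_lit 71335) (nat_lit 14)
  nil nil) (node (nat_lit 0) (nat_lit 72307) (nat_lit 13) nil nil))) (node (nat_lit 5) (nat_lit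
  72046) (nat_lit 12) (node (nat_lit 6) (nat_lit 72197) (nat_lit 13) nil nil) (node (nat_lit 0)
  (nat_lit 71764) (nat_lit 12) (node (nat_lit 6) (nat_lit 71915) (nat_lit 13) nil nil) nil)))
  (node (nat_lit 5) (nat_lit 71257) (nat_lit 11) (node (nat_lit 4) (nat_lit 71900) (nat_lit 12)
  (node (nat_lit 6) (nat_lit 69983) (nat_lit 13) nil nil) (node (nat_lit 6) (nat_lit 71900)
  (nat_lit 12) nil (node (nat_lit 9) (nat_lit 71900) (nat_lit 12) nil nil))) (node (nat_lit 0)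
  (nat_lit 71257) (nat_lit 11) (node (nat_lit 6) (nat_lit 71900) (nat_lit 12) nil (node (nat_lit
  9) (nat_lit 71900) (nat_lit 12) nil (node (nat_lit 4) (nat_lit 71900) (nat_lit 12) nil (node
  (nat_lit 5) (nat_lit 71900) (nat_lit 12) nil nil)))) nil)))) (node (nat_lit 5) (nat_lit 66440)
  (nat_lit 10) (node (nat_lit 6) (nat_lit 57211) (nat_lit 11) (node (nat_lit 4) (nat_lit 43690)
  (nat_lit 12) (node (nat_lit 6) (nat_lit 41093) (nat_lit 13) (node (nat_lit 5) (nat_lit 41437)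
  (nat_lit 14) (node (nat_lit 4) (nat_lit 41752) (nat_lit 15) (node (nat_lit 5) (nat_lit 41943)
  (nat_lit 16) nil nil) (node (nat_lit 6) (nat_lit 41689) (nat_lit 15) nil nil)) (node (nat_lit 0)
  (nat_lit 41437) (nat_lit 14) nil (node (nat_lit 9) (nat_lit 31728) (nat_lit 14) nil nil))) (node
  (nat_lit 9) (nat_lit 44381) (nat_lit 13) (node (nat_lit 6) (nat_lit 44099) (nat_lit 14) nil nil)
  (node (nat_lit 0) (nat_lit 44381) (nat_lit 13) nil nil))) (node (nat_lit 5) (nat_lit 57211)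
  (nat_lit 12) (node (nat_lit 4) (nat_lit 57211) (nat_lit 13) (node (nat_lit 5) (nat_lit 56022)
  (nat_lit 14) (node (nat_lit 6) (nat_lit 53350) (nat_lit 15) (node (nat_lit 4) (nat_lit 50925)
  (nat_lit 16) nil nil) nil) nil) (node (nat_lit 9) (nat_lit 57211) (nat_lit 13) nil nil)) (node
  (nat_lit 9) (nat_lit 57211) (nat_lit 12) nil (node (nat_lit 0) (nat_lit 57211) (nat_lit 12) nil
  nil)))) (node (nat_lit 4) (nat_lit 67148) (nat_lit 11) (node (nat_lit 6) (nat_lit 67791)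
  (nat_lit 12) (node (nat_lit 5) (nat_lit 68312) (nat_lit 13) nil nil) (node (nat_lit 9) (nat_lit
  67791) (nat_lit 12) nil (node (nat_lit 0) (nat_lit 67791) (nat_lit 12) nil nil))) (node (nat_lit
  9) (nat_lit 67148) (nat_lit 11) (node (nat_lit 5) (nat_lit 68051) (nat_lit 12) (node (nat_lit 4)
  (nat_lit 68572) (nat_lit 13) nil (node (nat_lit 6) (nat_lit 68572) (nat_lit 13) nil nil)) (node
  (nat_lit 6) (nat_lit 67791) (nat_lit 12) nil (node (nat_lit 4) (nat_lit 67791) (nat_lit 12) nil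
  nil))) (node (nat_lit 0) (nat_lit 67424) (nat_lit 11) (node (nat_lit 5) (nat_lit 68067) (nat_lit
  12) nil (node (nat_lit 4) (nat_lit 66112) (nat_lit 12) nil (node (nat_lit 6) (nat_lit 68067)
  (nat_lit 12) nil (node (nat_lit 9) (nat_lit 68067) (nat_lit 12) nil nil)))) nil)))) (node
  (nat_lit 0) (nat_lit 70156) (nat_lit 10) (node (nat_lit 6) (nat_lit 70865) (nat_lit 11) (node
  (nat_lit 4) (nat_lit 71508) (nat_lit 12) nil nil) (node (nat_lit 4) (nat_lit 70865) (nat_lit 11)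
  (node (nat_lit 6) (nat_lit 71508) (nat_lit 12) nil (node (nat_lit 5) (nat_lit 71508) (nat_lit
  12) nil (node (nat_lit 0) (nat_lit 71508) (nat_lit 12) nil nil))) (node (nat_lit 9) (nat_lit
  70865) (nat_lit 11) (node (nat_lit 6) (nat_lit 71318) (nat_lit 12) nil (node (nat_lit 4)
  (nat_lit 71508) (nat_lit 12) nil nil)) (node (nat_lit 5) (nat_lit 71200) (nat_lit 11) (node
  (nat_lit 4) (nat_lit 71843) (nat_lit 12) nil (node (nat_lit 6) (nat_lit 71653) (nat_lit 12) nil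
  nil)) (node (nat_lit 0) (nat_lit 70865) (nat_lit 11) nil nil))))) nil))) (node (nat_lit 5)
  (nat_lit 69246) (nat_lit 9) (node (nat_lit 4) (nat_lit 69847) (nat_lit 10) (node (nat_lit 5)
  (nat_lit 67343) (nat_lit 11) (node (nat_lit 6) (nat_lit 63751) (nat_lit 12) (node (nat_lit 4)
  (nat_lit 47378) (nat_lit 13) (node (nat_lit 6) (nat_lit 15126) (nat_lit 14) (node (nat_lit 9)
  (nat_lit 15423) (nat_lit 15) nil nil) nil) nil) nil) (node (nat_lit 9) (nat_lit 70556) (nat_lit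
  11) nil (node (nat_lit 6) (nat_lit 70556) (nat_lit 11) nil nil))) (node (nat_lit 9) (nat_lit
  70049) (nat_lit 10) (node (nat_lit 6) (nat_lit 70758) (nat_lit 11) nil (node (nat_lit 5)
  (nat_lit 70758) (nat_lit 11) nil (node (nat_lit 4) (nat_lit 70758) (nat_lit 11) nil nil))) (node
  (nat_lit 6) (nat_lit 70049) (nat_lit 10) nil (node (nat_lit 0) (nat_lit 70161) (nat_lit 10)
  (node (nat_lit 5) (nat_lit 70870) (nat_lit 11) nil (node (nat_lit 6) (nat_lit 70557) (nat_lit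
  11) nil nil)) nil)))) (node (nat_lit 0) (nat_lit 69346) (nat_lit 9) (node (nat_lit 6) (nat_lit
  70149) (nat_lit 10) (node (nat_lit 5) (nat_lit 70857) (nat_lit 11) nil (node (nat_lit 4)
  (nat_lit 70857) (nat_lit 11) nil (node (nat_lit 9) (nat_lit 70857) (nat_lit 11) nil nil))) (node
  (nat_lit 9) (nat_lit 70149) (nat_lit 10) (node (nat_lit 6) (nat_lit 70857) (nat_lit 11) nil
  (node (nat_lit 12) (nat_lit 70857) (nat_lit 11) nil (node (nat_lit 4) (nat_lit 70857) (nat_lit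
  11) nil nil))) (node (nat_lit 4) (nat_lit 70149) (nat_lit 10) (node (nat_lit 6) (nat_lit 70857)
  (nat_lit 11) (node (nat_lit 4) (nat_lit 66610) (nat_lit 12) nil nil) nil) (node (nat_lit 5)
  (nat_lit 70260) (nat_lit 10) (node (nat_lit 4) (nat_lit 68530) (nat_lit 11) nil (node (nat_lit
  6) (nat_lit 70655) (nat_lit 11) nil nil)) (node (nat_lit 0) (nat_lit 70149) (nat_lit 10) (node
  (nat_lit 6) (nat_lit 70544) (nat_lit 11) nil nil) nil))))) nil))) (node (nat_lit 9) (nat_lit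
  55782) (nat_lit 8) (node (nat_lit 6) (nat_lit 59097) (nat_lit 9) (node (nat_lit 9) (nat_lit
  65562) (nat_lit 10) (node (nat_lit 4) (nat_lit 69166) (nat_lit 11) (node (nat_lit 6) (nat_lit
  70752) (nat_lit 12) (node (nat_lit 4) (nat_lit 68149) (nat_lit 13) nil nil) nil) nil) (node
  (nat_lit 4) (nat_lit 66184) (nat_lit 10) (node (nat_lit 9) (nat_lit 69813) (nat_lit 11) (node
  (nat_lit 4) (nat_lit 68586) (nat_lit 12) nil nil) nil) nil)) (node (nat_lit 5) (nat_lit 71446)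
  (nat_lit 9) nil (node (nat_lit 0) (nat_lit 59089) (nat_lit 9) nil nil))) (node (nat_lit 5)
  (nat_lit 68378) (nat_lit 8) (node (nat_lit 9) (nat_lit 71077) (nat_lit 9) nil (node (nat_lit 6)
  (nat_lit 68144) (nat_lit 9) nil (node (nat_lit 4) (nat_lit 67370) (nat_lit 9) nil nil))) (node
  (nat_lit 0) (nat_lit 68373) (nat_lit 8) nil nil)))) (node (nat_lit 6) (nat_lit 0) (nat_lit 7)
  (node (nat_lit 4) (nat_lit 55782) (nat_lit 8) (node (nat_lit 9) (nat_lit 59105) (nat_lit 9)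
  (node (nat_lit 4) (nat_lit 63872) (nat_lit 10) (node (nat_lit 6) (nat_lit 66693) (nat_lit 11)
  (node (nat_lit 9) (nat_lit 67421) (nat_lit 12) (node (nat_lit 6) (nat_lit 68419) (nat_lit 13)
  (node (nat_lit 4) (nat_lit 69168) (nat_lit 14) nil nil) nil) (node (nat_lit 4) (nat_lit 62989)
  (nat_lit 12) nil nil)) nil) (node (nat_lit 6) (nat_lit 65124) (nat_lit 10) (node (nat_lit 9)
  (nat_lit 66432) (nat_lit 11) nil nil) (node (nat_lit 0) (nat_lit 60591) (nat_lit 10) nil nil)))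
  (node (nat_lit 5) (nat_lit 71517) (nat_lit 9) (node (nat_lit 6) (nat_lit 70150) (nat_lit 10)
  (node (nat_lit 4) (nat_lit 71458) (nat_lit 11) (node (nat_lit 6) (nat_lit 70778) (nat_lit 12)
  (node (nat_lit 9) (nat_lit 28871) (nat_lit 13) nil nil) nil) nil) nil) (node (nat_lit 0)
  (nat_lit 71432) (nat_lit 9) nil nil))) (node (nat_lit 5) (nat_lit 69228) (nat_lit 8) (node
  (nat_lit 4) (nat_lit 68094) (nat_lit 9) (node (nat_lit 5) (nat_lit 65016) (nat_lit 10) nil nil)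
  nil) (node (nat_lit 0) (nat_lit 68806) (nat_lit 8) nil nil))) (node (nat_lit 5) (nat_lit 63537)
  (nat_lit 7) (node (nat_lit 6) (nat_lit 69803) (nat_lit 8) (node (nat_lit 5) (nat_lit 72459)
  (nat_lit 9) (node (nat_lit 4) (nat_lit 70275) (nat_lit 10) nil nil) (node (nat_lit 4) (nat_lit
  72459) (nat_lit 9) (node (nat_lit 5) (nat_lit 73262) (nat_lit 10) nil (node (nat_lit 6) (nat_lit
  71742) (nat_lit 10) nil nil)) (node (nat_lit 0) (nat_lit 72459) (nat_lit 9) nil nil))) (node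
  (nat_lit 4) (nat_lit 69836) (nat_lit 8) (node (nat_lit 6) (nat_lit 69680) (nat_lit 9) (node
  (nat_lit 5) (nat_lit 69690) (nat_lit 10) nil nil) (node (nat_lit 5) (nat_lit 72491) (nat_lit 9)
  nil nil)) (node (nat_lit 9) (nat_lit 69498) (nat_lit 8) nil (node (nat_lit 0) (nat_lit 69498)
  (nat_lit 8) nil nil)))) (node (nat_lit 0) (nat_lit 62908) (nat_lit 7) (node (nat_lit 6) (nat_lit
  68989) (nat_lit 8) (node (nat_lit 4) (nat_lit 71952) (nat_lit 9) nil (node (nat_lit 10) (nat_lit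
  71952) (nat_lit 9) nil nil)) (node (nat_lit 4) (nat_lit 68972) (nat_lit 8) (node (nat_lit 6)
  (nat_lit 69051) (nat_lit 9) nil nil) (node (nat_lit 9) (nat_lit 68869) (nat_lit 8) nil (node
  (nat_lit 5) (nat_lit 69991) (nat_lit 8) nil (node (nat_lit 0) (nat_lit 68869) (nat_lit 8) nil
  nil))))) nil)))) (node (nat_lit 5) (nat_lit 0) (nat_lit 6) (node (nat_lit 0) (nat_lit 61124)
  (nat_lit 7) (node (nat_lit 5) (nat_lit 67085) (nat_lit 8) nil (node (nat_lit 4) (nat_lit 67701)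
  (nat_lit 8) (node (nat_lit 6) (nat_lit 60853) (nat_lit 9) nil nil) (node (nat_lit 6) (nat_lit
  68696) (nat_lit 8) (node (nat_lit 5) (nat_lit 65389) (nat_lit 9) nil nil) (node (nat_lit 0)
  (nat_lit 67085) (nat_lit 8) nil nil)))) (node (nat_lit 4) (nat_lit 0) (nat_lit 7) (node (nat_lit
  6) (nat_lit 47593) (nat_lit 8) (node (nat_lit 4) (nat_lit 55359) (nat_lit 9) (node (nat_lit 5)
  (nat_lit 46367) (nat_lit 10) (node (nat_lit 6) (nat_lit 44030) (nat_lit 11) nil nil) nil) nil)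
  (node (nat_lit 0) (nat_lit 56902) (nat_lit 8) (node (nat_lit 5) (nat_lit 62712) (nat_lit 9) nil
  nil) nil)) (node (nat_lit 6) (nat_lit 0) (nat_lit 7) (node (nat_lit 4) (nat_lit 0) (nat_lit 8)
  (node (nat_lit 5) (nat_lit 65609) (nat_lit 9) (node (nat_lit 4) (nat_lit 65443) (nat_lit 10) nil
  nil) (node (nat_lit 0) (nat_lit 61245) (nat_lit 9) nil nil)) (node (nat_lit 0) (nat_lit 66084)
  (nat_lit 8) nil nil)) nil))) nil)) (node (nat_lit 0) (nat_lit 0) (nat_lit 5) (node (nat_lit 4)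
  (nat_lit 0) (nat_lit 6) (node (nat_lit 6) (nat_lit 55054) (nat_lit 7) (node (nat_lit 8) (nat_lit
  57873) (nat_lit 8) (node (nat_lit 4) (nat_lit 59827) (nat_lit 9) (node (nat_lit 8) (nat_lit
  64803) (nat_lit 10) (node (nat_lit 6) (nat_lit 67420) (nat_lit 11) (node (nat_lit 4) (nat_lit
  67665) (nat_lit 12) (node (nat_lit 6) (nat_lit 68664) (nat_lit 13) nil nil) (node (nat_lit 8)
  (nat_lit 67842) (nat_lit 12) nil (node (nat_lit 5) (nat_lit 68306) (nat_lit 12) nil nil))) (node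
  (nat_lit 5) (nat_lit 70710) (nat_lit 11) nil (node (nat_lit 0) (nat_lit 67753) (nat_lit 11) nil
  nil))) (node (nat_lit 5) (nat_lit 71904) (nat_lit 10) (node (nat_lit 4) (nat_lit 72326) (nat_lit
  11) nil (node (nat_lit 6) (nat_lit 70884) (nat_lit 11) nil nil)) (node (nat_lit 0) (nat_lit
  71904) (nat_lit 10) (node (nat_lit 4) (nat_lit 72326) (nat_lit 11) nil nil) nil))) (node
  (nat_lit 6) (nat_lit 59827) (nat_lit 9) (node (nat_lit 4) (nat_lit 63176) (nat_lit 10) (node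
  (nat_lit 8) (nat_lit 62421) (nat_lit 11) (node (nat_lit 6) (nat_lit 63697) (nat_lit 12) (node
  (nat_lit 8) (nat_lit 64660) (nat_lit 13) nil nil) nil) (node (nat_lit 5) (nat_lit 64485)
  (nat_lit 11) nil nil)) (node (nat_lit 5) (nat_lit 65712) (nat_lit 10) nil (node (nat_lit 0)
  (nat_lit 61312) (nat_lit 10) nil nil))) (node (nat_lit 5) (nat_lit 69970) (nat_lit 9) nil (node
  (nat_lit 0) (nat_lit 68450) (nat_lit 9) nil nil)))) (node (nat_lit 4) (nat_lit 49206) (nat_lit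
  8) (node (nat_lit 8) (nat_lit 50109) (nat_lit 9) (node (nat_lit 6) (nat_lit 52946) (nat_lit 10)
  (node (nat_lit 8) (nat_lit 53779) (nat_lit 11) (node (nat_lit 4) (nat_lit 54402) (nat_lit 12)
  (node (nat_lit 6) (nat_lit 54062) (nat_lit 13) (node (nat_lit 4) (nat_lit 54212) (nat_lit 14)
  (node (nat_lit 5) (nat_lit 54048) (nat_lit 15) nil nil) (node (nat_lit 8) (nat_lit 54810)
  (nat_lit 14) (node (nat_lit 6) (nat_lit 54515) (nat_lit 15) nil nil) (node (nat_lit 5) (nat_lit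
  55138) (nat_lit 14) nil nil))) nil) nil) (node (nat_lit 4) (nat_lit 54136) (nat_lit 11) (node
  (nat_lit 6) (nat_lit 54160) (nat_lit 12) (node (nat_lit 8) (nat_lit 55122) (nat_lit 13) nil nil)
  nil) (node (nat_lit 0) (nat_lit 54202) (nat_lit 11) nil (node (nat_lit 5) (nat_lit 50495)
  (nat_lit 11) nil nil)))) (node (nat_lit 5) (nat_lit 56250) (nat_lit 10) (node (nat_lit 4)
  (nat_lit 56851) (nat_lit 11) nil nil) (node (nat_lit 0) (nat_lit 56250) (nat_lit 10) nil nil)))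
  (node (nat_lit 5) (nat_lit 55332) (nat_lit 9) (node (nat_lit 6) (nat_lit 40652) (nat_lit 10)
  (node (nat_lit 4) (nat_lit 36219) (nat_lit 11) (node (nat_lit 8) (nat_lit 30123) (nat_lit 12)
  nil nil) nil) nil) (node (nat_lit 0) (nat_lit 50102) (nat_lit 9) nil nil))) (node (nat_lit 5)
  (nat_lit 68651) (nat_lit 8) (node (nat_lit 4) (nat_lit 67990) (nat_lit 9) (node (nat_lit 5)
  (nat_lit 61157) (nat_lit 10) (node (nat_lit 6) (nat_lit 53908) (nat_lit 11) (node (nat_lit 4)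
  (nat_lit 36375) (nat_lit 12) (node (nat_lit 8) (nat_lit 18192) (nat_lit 13) (node (nat_lit 4)
  (nat_lit 17436) (nat_lit 14) nil nil) nil) nil) nil) (node (nat_lit 6) (nat_lit 69476) (nat_lit
  10) (node (nat_lit 4) (nat_lit 69528) (nat_lit 11) (node (nat_lit 5) (nat_lit 68883) (nat_lit
  12) (node (nat_lit 6) (nat_lit 63236) (nat_lit 13) nil nil) nil) nil) nil)) (node (nat_lit 6)
  (nat_lit 70605) (nat_lit 9) nil (node (nat_lit 8) (nat_lit 70605) (nat_lit 9) nil (node (nat_lit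
  0) (nat_lit 70605) (nat_lit 9) nil nil)))) (node (nat_lit 0) (nat_lit 68040) (nat_lit 8) (node
  (nat_lit 4) (nat_lit 69994) (nat_lit 9) nil (node (nat_lit 6) (nat_lit 67160) (nat_lit 9) nil
  (node (nat_lit 8) (nat_lit 69994) (nat_lit 9) nil (node (nat_lit 5) (nat_lit 69994) (nat_lit 9)
  nil (node (nat_lit 0) (nat_lit 69994) (nat_lit 9) nil nil))))) nil)))) (node (nat_lit 5)
  (nat_lit 67673) (nat_lit 7) (node (nat_lit 4) (nat_lit 70492) (nat_lit 8) (node (nat_lit 8)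
  (nat_lit 72289) (nat_lit 9) (node (nat_lit 5) (nat_lit 73092) (nat_lit 10) nil (node (nat_lit 6)
  (nat_lit 71079) (nat_lit 10) nil nil)) (node (nat_lit 6) (nat_lit 72289) (nat_lit 9) nil (node
  (nat_lit 0) (nat_lit 72289) (nat_lit 9) nil nil))) (node (nat_lit 8) (nat_lit 70492) (nat_lit 8)
  (node (nat_lit 5) (nat_lit 72853) (nat_lit 9) (node (nat_lit 4) (nat_lit 73656) (nat_lit 10) nil
  nil) (node (nat_lit 4) (nat_lit 72289) (nat_lit 9) (node (nat_lit 8) (nat_lit 73092) (nat_lit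
  10) nil (node (nat_lit 6) (nat_lit 66332) (nat_lit 10) nil nil)) (node (nat_lit 6) (nat_lit
  72289) (nat_lit 9) (node (nat_lit 5) (nat_lit 69184) (nat_lit 10) nil nil) (node (nat_lit 0)
  (nat_lit 72289) (nat_lit 9) nil nil)))) (node (nat_lit 6) (nat_lit 70492) (nat_lit 8) (node
  (nat_lit 5) (nat_lit 72289) (nat_lit 9) (node (nat_lit 4) (nat_lit 70105) (nat_lit 10) nil nil)
  (node (nat_lit 4) (nat_lit 72289) (nat_lit 9) nil (node (nat_lit 8) (nat_lit 72289) (nat_lit 9)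
  nil (node (nat_lit 0) (nat_lit 72289) (nat_lit 9) nil nil)))) (node (nat_lit 0) (nat_lit 71007)
  (nat_lit 8) (node (nat_lit 4) (nat_lit 68844) (nat_lit 9) nil (node (nat_lit 5) (nat_lit 72551)
  (nat_lit 9) nil (node (nat_lit 6) (nat_lit 69420) (nat_lit 9) nil nil))) nil)))) (node (nat_lit
  0) (nat_lit 65584) (nat_lit 7) (node (nat_lit 8) (nat_lit 70492) (nat_lit 8) (node (nat_lit 4)
  (nat_lit 72289) (nat_lit 9) (node (nat_lit 8) (nat_lit 73092) (nat_lit 10) nil (node (nat_lit 6)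
  (nat_lit 71349) (nat_lit 10) nil (node (nat_lit 5) (nat_lit 73092) (nat_lit 10) nil (node
  (nat_lit 0) (nat_lit 73092) (nat_lit 10) nil nil)))) (node (nat_lit 10) (nat_lit 72289) (nat_lit
  9) nil (node (nat_lit 5) (nat_lit 72289) (nat_lit 9) nil nil))) (node (nat_lit 4) (nat_lit
  68236) (nat_lit 8) (node (nat_lit 8) (nat_lit 72211) (nat_lit 9) (node (nat_lit 10) (nat_lit
  73092) (nat_lit 10) nil nil) (node (nat_lit 6) (nat_lit 70637) (nat_lit 9) nil (node (nat_lit 5)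
  (nat_lit 71668) (nat_lit 9) nil (node (nat_lit 0) (nat_lit 70190) (nat_lit 9) nil nil)))) (node
  (nat_lit 6) (nat_lit 67170) (nat_lit 8) (node (nat_lit 4) (nat_lit 69124) (nat_lit 9) nil (node
  (nat_lit 5) (nat_lit 66352) (nat_lit 9) nil (node (nat_lit 8) (nat_lit 69124) (nat_lit 9) nil
  nil))) (node (nat_lit 5) (nat_lit 70364) (nat_lit 8) (node (nat_lit 4) (nat_lit 68581) (nat_lit
  9) nil nil) (node (nat_lit 0) (nat_lit 70364) (nat_lit 8) (node (nat_lit 4) (nat_lit 68581)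
  (nat_lit 9) nil nil) nil))))) nil))) (node (nat_lit 6) (nat_lit 0) (nat_lit 6) (node (nat_lit 8)
  (nat_lit 55054) (nat_lit 7) (node (nat_lit 4) (nat_lit 57873) (nat_lit 8) (node (nat_lit 8)
  (nat_lit 59835) (nat_lit 9) (node (nat_lit 6) (nat_lit 65841) (nat_lit 10) (node (nat_lit 4)
  (nat_lit 69408) (nat_lit 11) (node (nat_lit 6) (nat_lit 68982) (nat_lit 12) (node (nat_lit 5)
  (nat_lit 70459) (nat_lit 13) nil (node (nat_lit 8) (nat_lit 69945) (nat_lit 13) nil nil)) (node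
  (nat_lit 8) (nat_lit 71392) (nat_lit 12) (node (nat_lit 4) (nat_lit 70565) (nat_lit 13) (node
  (nat_lit 6) (nat_lit 68248) (nat_lit 14) (node (nat_lit 4) (nat_lit 68058) (nat_lit 15) nil nil)
  nil) nil) (node (nat_lit 5) (nat_lit 73261) (nat_lit 12) nil (node (nat_lit 0) (nat_lit 70595)
  (nat_lit 12) nil nil)))) (node (nat_lit 5) (nat_lit 69658) (nat_lit 11) (node (nat_lit 4)
  (nat_lit 69111) (nat_lit 12) nil nil) (node (nat_lit 0) (nat_lit 68791) (nat_lit 11) nil nil)))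
  nil) (node (nat_lit 6) (nat_lit 59458) (nat_lit 9) (node (nat_lit 4) (nat_lit 59835) (nat_lit
  10) (node (nat_lit 8) (nat_lit 61424) (nat_lit 11) (node (nat_lit 6) (nat_lit 60744) (nat_lit
  12) nil nil) nil) nil) nil)) (node (nat_lit 5) (nat_lit 57873) (nat_lit 8) nil (node (nat_lit 0)
  (nat_lit 57873) (nat_lit 8) nil nil))) (node (nat_lit 5) (nat_lit 66400) (nat_lit 7) (node
  (nat_lit 4) (nat_lit 62226) (nat_lit 8) (node (nat_lit 6) (nat_lit 63710) (nat_lit 9) (node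
  (nat_lit 5) (nat_lit 65196) (nat_lit 10) nil (node (nat_lit 4) (nat_lit 55649) (nat_lit 10)
  (node (nat_lit 5) (nat_lit 53466) (nat_lit 11) (node (nat_lit 6) (nat_lit 48218) (nat_lit 12)
  nil nil) nil) nil)) (node (nat_lit 5) (nat_lit 47036) (nat_lit 9) (node (nat_lit 6) (nat_lit
  41268) (nat_lit 10) (node (nat_lit 4) (nat_lit 17153) (nat_lit 11) (node (nat_lit 8) (nat_lit
  12773) (nat_lit 12) nil nil) nil) nil) nil)) (node (nat_lit 6) (nat_lit 69219) (nat_lit 8) nil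
  (node (nat_lit 8) (nat_lit 69219) (nat_lit 8) nil (node (nat_lit 0) (nat_lit 69219) (nat_lit 8)
  nil nil)))) (node (nat_lit 4) (nat_lit 55054) (nat_lit 7) (node (nat_lit 6) (nat_lit 57873)
  (nat_lit 8) (node (nat_lit 5) (nat_lit 64234) (nat_lit 9) (node (nat_lit 4) (nat_lit 59579)
  (nat_lit 10) nil nil) (node (nat_lit 8) (nat_lit 59827) (nat_lit 9) (node (nat_lit 4) (nat_lit
  62421) (nat_lit 10) (node (nat_lit 8) (nat_lit 64172) (nat_lit 11) nil nil) nil) nil)) (node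
  (nat_lit 5) (nat_lit 68673) (nat_lit 8) (node (nat_lit 4) (nat_lit 66919) (nat_lit 9) nil nil)
  nil)) (node (nat_lit 0) (nat_lit 64459) (nat_lit 7) (node (nat_lit 0) (nat_lit 67278) (nat_lit
  8) nil (node (nat_lit 4) (nat_lit 62531) (nat_lit 8) nil (node (nat_lit 5) (nat_lit 67278)
  (nat_lit 8) nil (node (nat_lit 8) (nat_lit 67278) (nat_lit 8) nil nil)))) nil)))) (node (nat_lit
  5) (nat_lit 0) (nat_lit 6) (node (nat_lit 6) (nat_lit 67285) (nat_lit 7) (node (nat_lit 5)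
  (nat_lit 70526) (nat_lit 8) (node (nat_lit 4) (nat_lit 67063) (nat_lit 9) (node (nat_lit 5)
  (nat_lit 50781) (nat_lit 10) (node (nat_lit 6) (nat_lit 39458) (nat_lit 11) (node (nat_lit 4)
  (nat_lit 25392) (nat_lit 12) nil nil) nil) nil) nil) (node (nat_lit 4) (nat_lit 70104) (nat_lit
  8) (node (nat_lit 5) (nat_lit 71747) (nat_lit 9) nil nil) (node (nat_lit 8) (nat_lit 70104)
  (nat_lit 8) nil nil))) (node (nat_lit 4) (nat_lit 67288) (nat_lit 7) (node (nat_lit 6) (nat_lit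
  65572) (nat_lit 8) (node (nat_lit 5) (nat_lit 65669) (nat_lit 9) nil (node (nat_lit 4) (nat_lit
  62284) (nat_lit 9) nil nil)) (node (nat_lit 5) (nat_lit 70107) (nat_lit 8) (node (nat_lit 8)
  (nat_lit 71751) (nat_lit 9) nil nil) (node (nat_lit 0) (nat_lit 70107) (nat_lit 8) nil nil)))
  (node (nat_lit 8) (nat_lit 67468) (nat_lit 7) (node (nat_lit 4) (nat_lit 70305) (nat_lit 8)
  (node (nat_lit 8) (nat_lit 71948) (nat_lit 9) (node (nat_lit 5) (nat_lit 72751) (nat_lit 10)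
  (node (nat_lit 4) (nat_lit 71021) (nat_lit 11) nil nil) nil) nil) nil) (node (nat_lit 0)
  (nat_lit 66940) (nat_lit 7) nil nil)))) (node (nat_lit 0) (nat_lit 0) (nat_lit 6) (node (nat_lit
  4) (nat_lit 65561) (nat_lit 7) (node (nat_lit 8) (nat_lit 68453) (nat_lit 8) (node (nat_lit 4)
  (nat_lit 70408) (nat_lit 9) (node (nat_lit 9) (nat_lit 71893) (nat_lit 10) nil nil) (node
  (nat_lit 6) (nat_lit 66867) (nat_lit 9) nil (node (nat_lit 0) (nat_lit 70408) (nat_lit 9) nil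
  (node (nat_lit 5) (nat_lit 70408) (nat_lit 9) nil nil)))) (node (nat_lit 9) (nat_lit 68380)
  (nat_lit 8) nil (node (nat_lit 6) (nat_lit 54616) (nat_lit 8) nil (node (nat_lit 5) (nat_lit
  68380) (nat_lit 8) nil nil)))) (node (nat_lit 8) (nat_lit 67329) (nat_lit 7) (node (nat_lit 4)
  (nat_lit 70301) (nat_lit 8) (node (nat_lit 8) (nat_lit 72070) (nat_lit 9) (node (nat_lit 9)
  (nat_lit 72872) (nat_lit 10) nil nil) nil) nil) (node (nat_lit 6) (nat_lit 64673) (nat_lit 7)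
  nil (node (nat_lit 5) (nat_lit 66729) (nat_lit 7) nil (node (nat_lit 0) (nat_lit 65165) (nat_lit
  7) nil nil))))) nil)))) (node (nat_lit 5) (nat_lit 0) (nat_lit 5) (node (nat_lit 0) (nat_lit 0)
  (nat_lit 6) (node (nat_lit 4) (nat_lit 0) (nat_lit 7) (node (nat_lit 5) (nat_lit 38097) (nat_lit
  8) (node (nat_lit 4) (nat_lit 39732) (nat_lit 9) (node (nat_lit 9) (nat_lit 40414) (nat_lit 10)
  (node (nat_lit 4) (nat_lit 41015) (nat_lit 11) nil nil) (node (nat_lit 6) (nat_lit 37562)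
  (nat_lit 10) (node (nat_lit 5) (nat_lit 37307) (nat_lit 11) nil nil) (node (nat_lit 0) (nat_lit
  40414) (nat_lit 10) nil nil))) (node (nat_lit 6) (nat_lit 39540) (nat_lit 9) (node (nat_lit 9)
  (nat_lit 40222) (nat_lit 10) nil (node (nat_lit 5) (nat_lit 35475) (nat_lit 10) nil nil)) (node
  (nat_lit 0) (nat_lit 39540) (nat_lit 9) nil nil))) (node (nat_lit 6) (nat_lit 37282) (nat_lit 8)
  nil (node (nat_lit 9) (nat_lit 38097) (nat_lit 8) nil (node (nat_lit 0) (nat_lit 38097) (nat_lit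
  8) nil nil)))) (node (nat_lit 6) (nat_lit 32030) (nat_lit 7) (node (nat_lit 5) (nat_lit 34346)
  (nat_lit 8) (node (nat_lit 4) (nat_lit 37536) (nat_lit 9) (node (nat_lit 5) (nat_lit 26861)
  (nat_lit 10) nil nil) (node (nat_lit 6) (nat_lit 35789) (nat_lit 9) nil nil)) (node (nat_lit 4)
  (nat_lit 36893) (nat_lit 8) nil (node (nat_lit 9) (nat_lit 34265) (nat_lit 8) nil nil))) (node
  (nat_lit 5) (nat_lit 0) (nat_lit 7) (node (nat_lit 4) (nat_lit 37547) (nat_lit 8) (node (nat_lit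
  9) (nat_lit 38991) (nat_lit 9) nil nil) (node (nat_lit 6) (nat_lit 34933) (nat_lit 8) nil (node
  (nat_lit 0) (nat_lit 34300) (nat_lit 8) nil nil))) (node (nat_lit 0) (nat_lit 34657) (nat_lit 7)
  (node (nat_lit 6) (nat_lit 32358) (nat_lit 8) nil (node (nat_lit 5) (nat_lit 36893) (nat_lit 8)
  nil (node (nat_lit 4) (nat_lit 36893) (nat_lit 8) nil nil))) nil)))) (node (nat_lit 4) (nat_lit
  0) (nat_lit 6) (node (nat_lit 6) (nat_lit 29188) (nat_lit 7) (node (nat_lit 5) (nat_lit 32094)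
  (nat_lit 8) (node (nat_lit 4) (nat_lit 36271) (nat_lit 9) (node (nat_lit 5) (nat_lit 36317)
  (nat_lit 10) (node (nat_lit 6) (nat_lit 30497) (nat_lit 11) nil nil) nil) (node (nat_lit 6)
  (nat_lit 34203) (nat_lit 9) nil nil)) (node (nat_lit 0) (nat_lit 35870) (nat_lit 8) nil nil))
  (node (nat_lit 0) (nat_lit 34373) (nat_lit 7) (node (nat_lit 5) (nat_lit 36609) (nat_lit 8) nil
  (node (nat_lit 6) (nat_lit 33236) (nat_lit 8) (node (nat_lit 5) (nat_lit 32601) (nat_lit 9) nil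
  nil) (node (nat_lit 4) (nat_lit 36609) (nat_lit 8) nil nil))) nil)) nil)) nil)))

noncomputable def t347 : Tr :=
  (node (nat_lit 0) (nat_lit 0) (nat_lit 4) (node (nat_lit 4) (nat_lit 0) (nat_lit 5) (node
  (nat_lit 6) (nat_lit 0) (nat_lit 6) (node (nat_lit 4) (nat_lit 91789) (nat_lit 7) (node (nat_lit
  5) (nat_lit 82514) (nat_lit 8) (node (nat_lit 6) (nat_lit 74446) (nat_lit 9) (node (nat_lit 7)
  (nat_lit 33533) (nat_lit 10) (node (nat_lit 4) (nat_lit 28417) (nat_lit 11) nil nil) (node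
  (nat_lit 5) (nat_lit 75743) (nat_lit 10) (node (nat_lit 4) (nat_lit 76900) (nat_lit 11) nil nil)
  nil)) (node (nat_lit 4) (nat_lit 85029) (nat_lit 9) nil nil)) (node (nat_lit 7) (nat_lit 96396)
  (nat_lit 8) (node (nat_lit 6) (nat_lit 98946) (nat_lit 9) (node (nat_lit 4) (nat_lit 101344)
  (nat_lit 10) (node (nat_lit 6) (nat_lit 100325) (nat_lit 11) nil nil) nil) (node (nat_lit 4)
  (nat_lit 99613) (nat_lit 9) (node (nat_lit 5) (nat_lit 101098) (nat_lit 10) nil nil) nil)) (node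
  (nat_lit 0) (nat_lit 94608) (nat_lit 8) nil nil))) (node (nat_lit 7) (nat_lit 0) (nat_lit 7)
  (node (nat_lit 6) (nat_lit 106956) (nat_lit 8) (node (nat_lit 4) (nat_lit 111080) (nat_lit 9)
  (node (nat_lit 6) (nat_lit 111902) (nat_lit 10) (node (nat_lit 5) (nat_lit 112760) (nat_lit 11)
  nil nil) nil) (node (nat_lit 5) (nat_lit 98138) (nat_lit 9) nil nil)) (node (nat_lit 5) (nat_lit
  109145) (nat_lit 8) (node (nat_lit 4) (nat_lit 112134) (nat_lit 9) (node (nat_lit 6) (nat_lit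
  109674) (nat_lit 10) nil nil) nil) (node (nat_lit 0) (nat_lit 106891) (nat_lit 8) nil nil)))
  (node (nat_lit 5) (nat_lit 101637) (nat_lit 7) (node (nat_lit 4) (nat_lit 98926) (nat_lit 8)
  (node (nat_lit 5) (nat_lit 89364) (nat_lit 9) (node (nat_lit 6) (nat_lit 85708) (nat_lit 10)
  (node (nat_lit 7) (nat_lit 61042) (nat_lit 11) nil nil) nil) (node (nat_lit 6) (nat_lit 101118)
  (nat_lit 9) (node (nat_lit 4) (nat_lit 102626) (nat_lit 10) (node (nat_lit 5) (nat_lit 91787)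
  (nat_lit 11) nil nil) nil) nil)) (node (nat_lit 6) (nat_lit 106333) (nat_lit 8) (node (nat_lit
  4) (nat_lit 105517) (nat_lit 9) nil nil) nil)) (node (nat_lit 0) (nat_lit 104286) (nat_lit 7)
  nil nil)))) (node (nat_lit 7) (nat_lit 0) (nat_lit 6) (node (nat_lit 6) (nat_lit 110932)
  (nat_lit 7) (node (nat_lit 4) (nat_lit 115355) (nat_lit 8) (node (nat_lit 6) (nat_lit 115257)
  (nat_lit 9) (node (nat_lit 5) (nat_lit 114232) (nat_lit 10) (node (nat_lit 6) (nat_lit 114589)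
  (nat_lit 11) (node (nat_lit 4) (nat_lit 114626) (nat_lit 12) nil nil) (node (nat_lit 4) (nat_lit
  113016) (nat_lit 11) (node (nat_lit 5) (nat_lit 105436) (nat_lit 12) nil nil) nil)) nil) (node
  (nat_lit 5) (nat_lit 117309) (nat_lit 9) nil nil)) (node (nat_lit 5) (nat_lit 113628) (nat_lit
  8) (node (nat_lit 4) (nat_lit 110285) (nat_lit 9) (node (nat_lit 5) (nat_lit 106335) (nat_lit
  10) (node (nat_lit 6) (nat_lit 89074) (nat_lit 11) (node (nat_lit 7) (nat_lit 70202) (nat_lit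
  12) (node (nat_lit 4) (nat_lit 61960) (nat_lit 13) nil nil) nil) nil) nil) (node (nat_lit 6)
  (nat_lit 114524) (nat_lit 9) (node (nat_lit 4) (nat_lit 112680) (nat_lit 10) nil nil) nil))
  (node (nat_lit 7) (nat_lit 113751) (nat_lit 8) nil (node (nat_lit 0) (nat_lit 113751) (nat_lit
  8) nil nil)))) (node (nat_lit 5) (nat_lit 114353) (nat_lit 7) (node (nat_lit 4) (nat_lit 119236)
  (nat_lit 8) (node (nat_lit 6) (nat_lit 120530) (nat_lit 9) (node (nat_lit 5) (nat_lit 118467)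
  (nat_lit 10) nil (node (nat_lit 4) (nat_lit 113615) (nat_lit 10) (node (nat_lit 5) (nat_lit
  111622) (nat_lit 11) (node (nat_lit 6) (nat_lit 104812) (nat_lit 12) nil nil) nil) nil)) nil)
  (node (nat_lit 6) (nat_lit 118536) (nat_lit 8) (node (nat_lit 4) (nat_lit 107945) (nat_lit 9)
  (node (nat_lit 5) (nat_lit 104798) (nat_lit 10) nil nil) nil) nil)) (node (nat_lit 0) (nat_lit
  114019) (nat_lit 7) (node (nat_lit 4) (nat_lit 112091) (nat_lit 8) nil nil) nil))) (node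
  (nat_lit 5) (nat_lit 0) (nat_lit 6) (node (nat_lit 6) (nat_lit 115687) (nat_lit 7) (node
  (nat_lit 4) (nat_lit 117068) (nat_lit 8) nil (node (nat_lit 5) (nat_lit 113628) (nat_lit 8)
  (node (nat_lit 4) (nat_lit 110285) (nat_lit 9) nil nil) nil)) (node (nat_lit 4) (nat_lit 116690)
  (nat_lit 7) (node (nat_lit 6) (nat_lit 115697) (nat_lit 8) (node (nat_lit 5) (nat_lit 115429)
  (nat_lit 9) (node (nat_lit 6) (nat_lit 115270) (nat_lit 10) (node (nat_lit 7) (nat_lit 115978)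
  (nat_lit 11) nil (node (nat_lit 4) (nat_lit 110501) (nat_lit 11) nil nil)) nil) nil) nil) (node
  (nat_lit 7) (nat_lit 113490) (nat_lit 7) (node (nat_lit 5) (nat_lit 111562) (nat_lit 8) nil nil)
  (node (nat_lit 0) (nat_lit 113716) (nat_lit 7) nil nil)))) (node (nat_lit 0) (nat_lit 109030)
  (nat_lit 6) (node (nat_lit 4) (nat_lit 110228) (nat_lit 7) nil (node (nat_lit 6) (nat_lit
  108644) (nat_lit 7) nil (node (nat_lit 5) (nat_lit 110228) (nat_lit 7) nil nil))) nil)))) (node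
  (nat_lit 5) (nat_lit 0) (nat_lit 5) (node (nat_lit 7) (nat_lit 0) (nat_lit 6) (node (nat_lit 6)
  (nat_lit 103916) (nat_lit 7) (node (nat_lit 5) (nat_lit 108533) (nat_lit 8) (node (nat_lit 6)
  (nat_lit 112643) (nat_lit 9) (node (nat_lit 4) (nat_lit 112874) (nat_lit 10) (node (nat_lit 5)
  (nat_lit 108474) (nat_lit 11) (node (nat_lit 6) (nat_lit 103754) (nat_lit 12) (node (nat_lit 7)
  (nat_lit 90540) (nat_lit 13) (node (nat_lit 5) (nat_lit 78248) (nat_lit 14) (node (nat_lit 7)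
  (nat_lit 57211) (nat_lit 15) (node (nat_lit 6) (nat_lit 28503) (nat_lit 16) (node (nat_lit 5)
  (nat_lit 27224) (nat_lit 17) nil nil) nil) nil) nil) nil) nil) (node (nat_lit 6) (nat_lit
  111854) (nat_lit 11) nil nil)) (node (nat_lit 7) (nat_lit 113559) (nat_lit 10) nil nil)) (node
  (nat_lit 4) (nat_lit 111547) (nat_lit 9) (node (nat_lit 5) (nat_lit 98550) (nat_lit 10) (node
  (nat_lit 6) (nat_lit 86804) (nat_lit 11) (node (nat_lit 7) (nat_lit 60890) (nat_lit 12) (node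
  (nat_lit 5) (nat_lit 59894) (nat_lit 13) (node (nat_lit 7) (nat_lit 60299) (nat_lit 14) nil nil)
  nil) nil) nil) (node (nat_lit 6) (nat_lit 111492) (nat_lit 10) nil nil)) (node (nat_lit 0)
  (nat_lit 111522) (nat_lit 9) nil (node (nat_lit 7) (nat_lit 109651) (nat_lit 9) nil nil))))
  (node (nat_lit 4) (nat_lit 116726) (nat_lit 8) (node (nat_lit 6) (nat_lit 115139) (nat_lit 9)
  nil nil) (node (nat_lit 7) (nat_lit 108105) (nat_lit 8) (node (nat_lit 5) (nat_lit 112941)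
  (nat_lit 9) (node (nat_lit 6) (nat_lit 110975) (nat_lit 10) nil nil) (node (nat_lit 4) (nat_lit
  114448) (nat_lit 9) nil (node (nat_lit 0) (nat_lit 109651) (nat_lit 9) nil nil))) (node (nat_lit
  0) (nat_lit 113291) (nat_lit 8) nil nil)))) (node (nat_lit 4) (nat_lit 116100) (nat_lit 7) (node
  (nat_lit 5) (nat_lit 118919) (nat_lit 8) nil (node (nat_lit 6) (nat_lit 112749) (nat_lit 8)
  (node (nat_lit 4) (nat_lit 103971) (nat_lit 9) (node (nat_lit 5) (nat_lit 87039) (nat_lit 10)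
  (node (nat_lit 6) (nat_lit 76208) (nat_lit 11) nil nil) nil) nil) nil)) (node (nat_lit 0)
  (nat_lit 114493) (nat_lit 7) (node (nat_lit 5) (nat_lit 112565) (nat_lit 8) nil nil) nil)))
  (node (nat_lit 6) (nat_lit 0) (nat_lit 6) (node (nat_lit 5) (nat_lit 104420) (nat_lit 7) (node
  (nat_lit 7) (nat_lit 108603) (nat_lit 8) (node (nat_lit 6) (nat_lit 112281) (nat_lit 9) (node
  (nat_lit 5) (nat_lit 111454) (nat_lit 10) (node (nat_lit 6) (nat_lit 108065) (nat_lit 11) nil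
  nil) nil) (node (nat_lit 5) (nat_lit 112717) (nat_lit 9) nil (node (nat_lit 4) (nat_lit 106849)
  (nat_lit 9) nil nil))) (node (nat_lit 4) (nat_lit 108229) (nat_lit 8) (node (nat_lit 5) (nat_lit
  102373) (nat_lit 9) (node (nat_lit 6) (nat_lit 87679) (nat_lit 10) (node (nat_lit 7) (nat_lit
  60733) (nat_lit 11) (node (nat_lit 5) (nat_lit 59421) (nat_lit 12) nil nil) nil) nil) (node
  (nat_lit 6) (nat_lit 108571) (nat_lit 9) (node (nat_lit 4) (nat_lit 107892) (nat_lit 10) (node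
  (nat_lit 5) (nat_lit 105392) (nat_lit 11) nil nil) nil) nil)) (node (nat_lit 0) (nat_lit 107239)
  (nat_lit 8) nil nil))) (node (nat_lit 4) (nat_lit 109435) (nat_lit 7) (node (nat_lit 5) (nat_lit
  79952) (nat_lit 8) (node (nat_lit 6) (nat_lit 53098) (nat_lit 9) (node (nat_lit 7) (nat_lit
  30664) (nat_lit 10) (node (nat_lit 5) (nat_lit 29244) (nat_lit 11) nil nil) (node (nat_lit 5)
  (nat_lit 52073) (nat_lit 10) (node (nat_lit 4) (nat_lit 51529) (nat_lit 11) nil nil) nil)) (node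
  (nat_lit 4) (nat_lit 78747) (nat_lit 9) nil nil)) (node (nat_lit 6) (nat_lit 107719) (nat_lit 8)
  (node (nat_lit 5) (nat_lit 103436) (nat_lit 9) nil nil) nil)) (node (nat_lit 0) (nat_lit 110337)
  (nat_lit 7) (node (nat_lit 5) (nat_lit 108409) (nat_lit 8) nil nil) nil))) (node (nat_lit 4)
  (nat_lit 0) (nat_lit 6) (node (nat_lit 6) (nat_lit 117128) (nat_lit 7) (node (nat_lit 5)
  (nat_lit 118429) (nat_lit 8) (node (nat_lit 6) (nat_lit 115982) (nat_lit 9) (node (nat_lit 4)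
  (nat_lit 114715) (nat_lit 10) nil nil) (node (nat_lit 4) (nat_lit 107345) (nat_lit 9) (node
  (nat_lit 5) (nat_lit 101945) (nat_lit 10) (node (nat_lit 6) (nat_lit 91069) (nat_lit 11) nil
  nil) nil) nil)) (node (nat_lit 4) (nat_lit 121255) (nat_lit 8) (node (nat_lit 5) (nat_lit
  113398) (nat_lit 9) (node (nat_lit 6) (nat_lit 98646) (nat_lit 10) nil nil) nil) (node (nat_lit
  7) (nat_lit 119947) (nat_lit 8) nil nil))) (node (nat_lit 5) (nat_lit 117916) (nat_lit 7) (node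
  (nat_lit 6) (nat_lit 116200) (nat_lit 8) (node (nat_lit 4) (nat_lit 118154) (nat_lit 9) nil
  (node (nat_lit 7) (nat_lit 66024) (nat_lit 9) nil nil)) nil) (node (nat_lit 7) (nat_lit 117916)
  (nat_lit 7) nil (node (nat_lit 0) (nat_lit 117916) (nat_lit 7) nil nil)))) (node (nat_lit 0)
  (nat_lit 107220) (nat_lit 6) (node (nat_lit 5) (nat_lit 107442) (nat_lit 7) nil (node (nat_lit
  6) (nat_lit 104225) (nat_lit 7) nil (node (nat_lit 4) (nat_lit 105281) (nat_lit 7) nil nil)))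
  nil)))) (node (nat_lit 0) (nat_lit 0) (nat_lit 5) (node (nat_lit 7) (nat_lit 0) (nat_lit 6)
  (node (nat_lit 6) (nat_lit 115750) (nat_lit 7) (node (nat_lit 8) (nat_lit 118384) (nat_lit 8)
  (node (nat_lit 7) (nat_lit 120338) (nat_lit 9) nil (node (nat_lit 6) (nat_lit 116797) (nat_lit
  9) nil nil)) (node (nat_lit 7) (nat_lit 118569) (nat_lit 8) nil (node (nat_lit 5) (nat_lit
  110939) (nat_lit 8) nil (node (nat_lit 4) (nat_lit 118569) (nat_lit 8) nil nil)))) (node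
  (nat_lit 4) (nat_lit 116348) (nat_lit 7) (node (nat_lit 6) (nat_lit 104146) (nat_lit 8) (node
  (nat_lit 4) (nat_lit 92315) (nat_lit 9) nil nil) nil) (node (nat_lit 5) (nat_lit 115904)
  (nat_lit 7) (node (nat_lit 6) (nat_lit 106287) (nat_lit 8) nil nil) (node (nat_lit 0) (nat_lit
  113933) (nat_lit 7) nil nil)))) (node (nat_lit 6) (nat_lit 0) (nat_lit 6) (node (nat_lit 8)
  (nat_lit 115179) (nat_lit 7) (node (nat_lit 7) (nat_lit 119361) (nat_lit 8) (node (nat_lit 8)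
  (nat_lit 121315) (nat_lit 9) nil (node (nat_lit 6) (nat_lit 117774) (nat_lit 9) nil nil)) (node
  (nat_lit 0) (nat_lit 117998) (nat_lit 8) nil (node (nat_lit 4) (nat_lit 113250) (nat_lit 8) nil
  (node (nat_lit 5) (nat_lit 113250) (nat_lit 8) nil nil)))) (node (nat_lit 5) (nat_lit 115774)
  (nat_lit 7) (node (nat_lit 6) (nat_lit 110692) (nat_lit 8) nil (node (nat_lit 4) (nat_lit 94369)
  (nat_lit 8) (node (nat_lit 5) (nat_lit 84903) (nat_lit 9) (node (nat_lit 6) (nat_lit 68281)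
  (nat_lit 10) nil nil) nil) nil)) (node (nat_lit 4) (nat_lit 116973) (nat_lit 7) nil (node
  (nat_lit 0) (nat_lit 115002) (nat_lit 7) nil (node (nat_lit 7) (nat_lit 115002) (nat_lit 7)
  (node (nat_lit 6) (nat_lit 113286) (nat_lit 8) nil nil) nil))))) (node (nat_lit 5) (nat_lit
  109608) (nat_lit 6) (node (nat_lit 4) (nat_lit 108701) (nat_lit 7) (node (nat_lit 6) (nat_lit
  103832) (nat_lit 8) (node (nat_lit 4) (nat_lit 101547) (nat_lit 9) (node (nat_lit 5) (nat_lit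
  97341) (nat_lit 10) nil nil) nil) nil) (node (nat_lit 6) (nat_lit 104431) (nat_lit 7) (node
  (nat_lit 5) (nat_lit 103810) (nat_lit 8) nil nil) nil)) (node (nat_lit 4) (nat_lit 110640)
  (nat_lit 6) (node (nat_lit 6) (nat_lit 104431) (nat_lit 7) (node (nat_lit 4) (nat_lit 101560)
  (nat_lit 8) nil nil) (node (nat_lit 5) (nat_lit 115094) (nat_lit 7) nil nil)) (node (nat_lit 0)
  (nat_lit 104773) (nat_lit 6) (node (nat_lit 6) (nat_lit 103121) (nat_lit 7) nil (node (nat_lit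
  8) (nat_lit 109227) (nat_lit 7) nil nil)) nil))))) (node (nat_lit 6) (nat_lit 0) (nat_lit 5)
  (node (nat_lit 5) (nat_lit 0) (nat_lit 6) (node (nat_lit 6) (nat_lit 102789) (nat_lit 7) (node
  (nat_lit 4) (nat_lit 109984) (nat_lit 8) (node (nat_lit 5) (nat_lit 90288) (nat_lit 9) (node
  (nat_lit 6) (nat_lit 53424) (nat_lit 10) (node (nat_lit 7) (nat_lit 51224) (nat_lit 11) nil nil)
  nil) nil) (node (nat_lit 7) (nat_lit 105918) (nat_lit 8) (node (nat_lit 5) (nat_lit 112227)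
  (nat_lit 9) (node (nat_lit 6) (nat_lit 110759) (nat_lit 10) (node (nat_lit 5) (nat_lit 110114)
  (nat_lit 11) nil nil) nil) nil) nil)) (node (nat_lit 4) (nat_lit 96484) (nat_lit 7) (node
  (nat_lit 6) (nat_lit 100667) (nat_lit 8) (node (nat_lit 5) (nat_lit 98914) (nat_lit 9) nil (node
  (nat_lit 4) (nat_lit 89773) (nat_lit 9) nil nil)) (node (nat_lit 5) (nat_lit 83582) (nat_lit 8)
  (node (nat_lit 6) (nat_lit 65703) (nat_lit 9) (node (nat_lit 7) (nat_lit 57664) (nat_lit 10) nil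
  nil) nil) nil)) (node (nat_lit 7) (nat_lit 102569) (nat_lit 7) (node (nat_lit 5) (nat_lit
  106751) (nat_lit 8) (node (nat_lit 6) (nat_lit 105374) (nat_lit 9) (node (nat_lit 5) (nat_lit
  105073) (nat_lit 10) (node (nat_lit 4) (nat_lit 102422) (nat_lit 11) (node (nat_lit 5) (nat_lit
  102043) (nat_lit 12) nil nil) nil) nil) nil) (node (nat_lit 6) (nat_lit 105388) (nat_lit 8) nil
  (node (nat_lit 4) (nat_lit 100640) (nat_lit 8) nil nil))) (node (nat_lit 0) (nat_lit 100136)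
  (nat_lit 7) nil nil)))) (node (nat_lit 4) (nat_lit 0) (nat_lit 6) (node (nat_lit 6) (nat_lit
  109988) (nat_lit 7) (node (nat_lit 5) (nat_lit 112706) (nat_lit 8) (node (nat_lit 6) (nat_lit
  111125) (nat_lit 9) nil (node (nat_lit 4) (nat_lit 107652) (nat_lit 9) (node (nat_lit 5)
  (nat_lit 90346) (nat_lit 10) nil nil) nil)) (node (nat_lit 7) (nat_lit 114196) (nat_lit 8) (node
  (nat_lit 6) (nat_lit 112609) (nat_lit 9) nil (node (nat_lit 4) (nat_lit 112442) (nat_lit 9) nil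
  nil)) nil)) (node (nat_lit 5) (nat_lit 113023) (nat_lit 7) (node (nat_lit 4) (nat_lit 116608)
  (nat_lit 8) (node (nat_lit 6) (nat_lit 112704) (nat_lit 9) (node (nat_lit 5) (nat_lit 109495)
  (nat_lit 10) nil (node (nat_lit 4) (nat_lit 107158) (nat_lit 10) nil nil)) nil) (node (nat_lit
  6) (nat_lit 116820) (nat_lit 8) (node (nat_lit 7) (nat_lit 31377) (nat_lit 9) nil nil) nil))
  (node (nat_lit 7) (nat_lit 111392) (nat_lit 7) (node (nat_lit 4) (nat_lit 109463) (nat_lit 8)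
  (node (nat_lit 6) (nat_lit 105559) (nat_lit 9) (node (nat_lit 4) (nat_lit 105212) (nat_lit 10)
  (node (nat_lit 5) (nat_lit 103504) (nat_lit 11) nil nil) nil) nil) nil) (node (nat_lit 0)
  (nat_lit 109005) (nat_lit 7) nil nil)))) (node (nat_lit 0) (nat_lit 0) (nat_lit 6) (node
  (nat_lit 6) (nat_lit 112581) (nat_lit 7) (node (nat_lit 5) (nat_lit 111034) (nat_lit 8) nil
  (node (nat_lit 7) (nat_lit 115400) (nat_lit 8) nil (node (nat_lit 4) (nat_lit 115400) (nat_lit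
  8) nil nil))) (node (nat_lit 4) (nat_lit 113727) (nat_lit 7) (node (nat_lit 6) (nat_lit 102465)
  (nat_lit 8) nil nil) (node (nat_lit 5) (nat_lit 114552) (nat_lit 7) (node (nat_lit 6) (nat_lit
  103290) (nat_lit 8) nil nil) (node (nat_lit 7) (nat_lit 108074) (nat_lit 7) nil (node (nat_lit
  0) (nat_lit 112581) (nat_lit 7) nil nil))))) nil))) nil)))) (node (nat_lit 5) (nat_lit 0)
  (nat_lit 4) (node (nat_lit 0) (nat_lit 0) (nat_lit 5) (node (nat_lit 5) (nat_lit 0) (nat_lit 6)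
  (node (nat_lit 6) (nat_lit 104505) (nat_lit 7) (node (nat_lit 8) (nat_lit 108491) (nat_lit 8)
  (node (nat_lit 5) (nat_lit 109391) (nat_lit 9) (node (nat_lit 8) (nat_lit 110074) (nat_lit 10)
  (node (nat_lit 6) (nat_lit 108346) (nat_lit 11) nil nil) nil) (node (nat_lit 6) (nat_lit 110074)
  (nat_lit 9) (node (nat_lit 5) (nat_lit 111377) (nat_lit 10) (node (nat_lit 4) (nat_lit 105734)
  (nat_lit 11) nil nil) nil) (node (nat_lit 4) (nat_lit 106964) (nat_lit 9) nil nil))) (node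
  (nat_lit 4) (nat_lit 111003) (nat_lit 8) (node (nat_lit 5) (nat_lit 102425) (nat_lit 9) (node
  (nat_lit 6) (nat_lit 89077) (nat_lit 10) (node (nat_lit 5) (nat_lit 54826) (nat_lit 11) (node
  (nat_lit 8) (nat_lit 42501) (nat_lit 12) (node (nat_lit 5) (nat_lit 27942) (nat_lit 13) nil nil)
  (node (nat_lit 4) (nat_lit 54654) (nat_lit 12) (node (nat_lit 5) (nat_lit 53046) (nat_lit 13)
  nil nil) nil)) nil) (node (nat_lit 4) (nat_lit 100242) (nat_lit 10) nil nil)) (node (nat_lit 6)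
  (nat_lit 110729) (nat_lit 9) nil (node (nat_lit 8) (nat_lit 112061) (nat_lit 9) nil (node
  (nat_lit 0) (nat_lit 112061) (nat_lit 9) nil nil)))) (node (nat_lit 5) (nat_lit 108408) (nat_lit
  8) (node (nat_lit 4) (nat_lit 104673) (nat_lit 9) (node (nat_lit 5) (nat_lit 88961) (nat_lit 10)
  (node (nat_lit 6) (nat_lit 87679) (nat_lit 11) (node (nat_lit 5) (nat_lit 72624) (nat_lit 12)
  (node (nat_lit 8) (nat_lit 61482) (nat_lit 13) nil nil) nil) nil) nil) nil) (node (nat_lit 0)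
  (nat_lit 114701) (nat_lit 8) nil nil)))) (node (nat_lit 4) (nat_lit 116126) (nat_lit 7) (node
  (nat_lit 6) (nat_lit 112885) (nat_lit 8) (node (nat_lit 4) (nat_lit 111238) (nat_lit 9) (node
  (nat_lit 5) (nat_lit 106220) (nat_lit 10) (node (nat_lit 6) (nat_lit 95389) (nat_lit 11) (node
  (nat_lit 5) (nat_lit 77905) (nat_lit 12) (node (nat_lit 8) (nat_lit 56328) (nat_lit 13) (node
  (nat_lit 5) (nat_lit 47091) (nat_lit 14) nil nil) nil) nil) nil) nil) (node (nat_lit 5) (nat_lit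
  110731) (nat_lit 9) (node (nat_lit 4) (nat_lit 110385) (nat_lit 10) (node (nat_lit 5) (nat_lit
  106751) (nat_lit 11) nil nil) nil) nil)) (node (nat_lit 5) (nat_lit 117420) (nat_lit 8) (node
  (nat_lit 6) (nat_lit 114775) (nat_lit 9) (node (nat_lit 5) (nat_lit 114108) (nat_lit 10) (node
  (nat_lit 8) (nat_lit 65991) (nat_lit 11) nil nil) nil) nil) (node (nat_lit 8) (nat_lit 117420)
  (nat_lit 8) nil nil))) (node (nat_lit 0) (nat_lit 112578) (nat_lit 7) (node (nat_lit 8) (nat_lit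
  113872) (nat_lit 8) nil (node (nat_lit 5) (nat_lit 113872) (nat_lit 8) (node (nat_lit 6)
  (nat_lit 111227) (nat_lit 9) nil nil) (node (nat_lit 6) (nat_lit 113041) (nat_lit 8) (node
  (nat_lit 5) (nat_lit 108531) (nat_lit 9) nil nil) nil))) nil))) (node (nat_lit 6) (nat_lit 0)
  (nat_lit 6) (node (nat_lit 8) (nat_lit 102078) (nat_lit 7) (node (nat_lit 5) (nat_lit 108599)
  (nat_lit 8) (node (nat_lit 8) (nat_lit 107671) (nat_lit 9) (node (nat_lit 6) (nat_lit 105501)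
  (nat_lit 10) (node (nat_lit 5) (nat_lit 105136) (nat_lit 11) (node (nat_lit 6) (nat_lit 105680)
  (nat_lit 12) (node (nat_lit 4) (nat_lit 106122) (nat_lit 13) (node (nat_lit 5) (nat_lit 106465)
  (nat_lit 14) nil nil) nil) (node (nat_lit 4) (nat_lit 104963) (nat_lit 12) (node (nat_lit 5)
  (nat_lit 103326) (nat_lit 13) nil nil) nil)) nil) nil) (node (nat_lit 6) (nat_lit 109499)
  (nat_lit 9) (node (nat_lit 5) (nat_lit 105291) (nat_lit 10) nil nil) nil)) (node (nat_lit 0)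
  (nat_lit 104897) (nat_lit 8) nil nil)) (node (nat_lit 5) (nat_lit 104569) (nat_lit 7) (node
  (nat_lit 6) (nat_lit 108326) (nat_lit 8) (node (nat_lit 4) (nat_lit 107264) (nat_lit 9) (node
  (nat_lit 5) (nat_lit 101278) (nat_lit 10) nil nil) (node (nat_lit 8) (nat_lit 109386) (nat_lit
  9) nil nil)) (node (nat_lit 4) (nat_lit 110130) (nat_lit 8) (node (nat_lit 5) (nat_lit 87679)
  (nat_lit 9) (node (nat_lit 6) (nat_lit 71190) (nat_lit 10) (node (nat_lit 5) (nat_lit 62662)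
  (nat_lit 11) nil nil) nil) nil) nil)) (node (nat_lit 4) (nat_lit 115455) (nat_lit 7) (node
  (nat_lit 5) (nat_lit 116748) (nat_lit 8) (node (nat_lit 6) (nat_lit 114104) (nat_lit 9) (node
  (nat_lit 5) (nat_lit 113436) (nat_lit 10) (node (nat_lit 8) (nat_lit 26357) (nat_lit 11) nil
  (node (nat_lit 4) (nat_lit 112821) (nat_lit 11) nil nil)) nil) nil) nil) (node (nat_lit 0)
  (nat_lit 113245) (nat_lit 7) (node (nat_lit 5) (nat_lit 113435) (nat_lit 8) nil nil) nil))))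
  (node (nat_lit 4) (nat_lit 0) (nat_lit 6) (node (nat_lit 6) (nat_lit 110634) (nat_lit 7) (node
  (nat_lit 5) (nat_lit 107389) (nat_lit 8) (node (nat_lit 4) (nat_lit 102619) (nat_lit 9) (node
  (nat_lit 5) (nat_lit 96542) (nat_lit 10) (node (nat_lit 6) (nat_lit 85219) (nat_lit 11) nil nil)
  nil) nil) (node (nat_lit 4) (nat_lit 105367) (nat_lit 8) (node (nat_lit 5) (nat_lit 95401)
  (nat_lit 9) (node (nat_lit 6) (nat_lit 77662) (nat_lit 10) (node (nat_lit 5) (nat_lit 50658)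
  (nat_lit 11) nil nil) nil) nil) nil)) (node (nat_lit 5) (nat_lit 113159) (nat_lit 7) nil (node
  (nat_lit 8) (nat_lit 113159) (nat_lit 7) (node (nat_lit 5) (nat_lit 111231) (nat_lit 8) nil nil)
  (node (nat_lit 0) (nat_lit 113159) (nat_lit 7) nil nil)))) (node (nat_lit 0) (nat_lit 0)
  (nat_lit 6) (node (nat_lit 5) (nat_lit 114363) (nat_lit 7) (node (nat_lit 8) (nat_lit 115657)
  (nat_lit 8) nil nil) (node (nat_lit 8) (nat_lit 114363) (nat_lit 7) (node (nat_lit 5) (nat_lit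
  113123) (nat_lit 8) nil nil) (node (nat_lit 6) (nat_lit 115922) (nat_lit 7) nil (node (nat_lit
  4) (nat_lit 114363) (nat_lit 7) nil (node (nat_lit 0) (nat_lit 114363) (nat_lit 7) nil nil)))))
  nil)))) (node (nat_lit 4) (nat_lit 0) (nat_lit 5) (node (nat_lit 0) (nat_lit 0) (nat_lit 6)
  (node (nat_lit 5) (nat_lit 0) (nat_lit 7) (node (nat_lit 4) (nat_lit 106905) (nat_lit 8) (node
  (nat_lit 5) (nat_lit 107837) (nat_lit 9) (node (nat_lit 9) (nat_lit 108520) (nat_lit 10) (node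
  (nat_lit 5) (nat_lit 109120) (nat_lit 11) (node (nat_lit 4) (nat_lit 109663) (nat_lit 12) nil
  (node (nat_lit 6) (nat_lit 107796) (nat_lit 12) nil nil)) (node (nat_lit 4) (nat_lit 109120)
  (nat_lit 11) nil nil)) (node (nat_lit 6) (nat_lit 108673) (nat_lit 10) nil (node (nat_lit 0)
  (nat_lit 108520) (nat_lit 10) nil nil))) (node (nat_lit 6) (nat_lit 108348) (nat_lit 9) (node
  (nat_lit 4) (nat_lit 109031) (nat_lit 10) (node (nat_lit 5) (nat_lit 108708) (nat_lit 11) nil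
  nil) (node (nat_lit 9) (nat_lit 109031) (nat_lit 10) nil (node (nat_lit 5) (nat_lit 109031)
  (nat_lit 10) nil nil))) (node (nat_lit 0) (nat_lit 108348) (nat_lit 9) nil nil))) (node (nat_lit
  6) (nat_lit 104899) (nat_lit 8) (node (nat_lit 4) (nat_lit 106343) (nat_lit 9) (node (nat_lit 5)
  (nat_lit 102774) (nat_lit 10) (node (nat_lit 6) (nat_lit 90334) (nat_lit 11) nil nil) nil) nil)
  (node (nat_lit 9) (nat_lit 104899) (nat_lit 8) nil (node (nat_lit 0) (nat_lit 104899) (nat_lit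
  8) nil nil)))) (node (nat_lit 6) (nat_lit 102552) (nat_lit 7) (node (nat_lit 4) (nat_lit 106602)
  (nat_lit 8) (node (nat_lit 5) (nat_lit 108046) (nat_lit 9) nil (node (nat_lit 6) (nat_lit
  108046) (nat_lit 9) nil nil)) (node (nat_lit 5) (nat_lit 104787) (nat_lit 8) nil (node (nat_lit
  9) (nat_lit 104787) (nat_lit 8) nil nil))) (node (nat_lit 4) (nat_lit 0) (nat_lit 7) (node
  (nat_lit 5) (nat_lit 106613) (nat_lit 8) (node (nat_lit 9) (nat_lit 108056) (nat_lit 9) nil nil)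
  (node (nat_lit 6) (nat_lit 105768) (nat_lit 8) (node (nat_lit 4) (nat_lit 106057) (nat_lit 9)
  nil nil) (node (nat_lit 0) (nat_lit 106613) (nat_lit 8) nil nil))) (node (nat_lit 0) (nat_lit
  103004) (nat_lit 7) (node (nat_lit 4) (nat_lit 105239) (nat_lit 8) nil (node (nat_lit 6)
  (nat_lit 100705) (nat_lit 8) nil nil)) nil)))) (node (nat_lit 6) (nat_lit 0) (nat_lit 6) (node
  (nat_lit 5) (nat_lit 0) (nat_lit 7) (node (nat_lit 6) (nat_lit 99944) (nat_lit 8) (node (nat_lit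
  4) (nat_lit 104480) (nat_lit 9) (node (nat_lit 5) (nat_lit 106016) (nat_lit 10) (node (nat_lit
  6) (nat_lit 104755) (nat_lit 11) (node (nat_lit 5) (nat_lit 97518) (nat_lit 12) (node (nat_lit
  4) (nat_lit 72913) (nat_lit 13) (node (nat_lit 6) (nat_lit 46882) (nat_lit 14) nil nil) nil)
  nil) nil) nil) (node (nat_lit 0) (nat_lit 101758) (nat_lit 9) nil nil)) (node (nat_lit 0)
  (nat_lit 103887) (nat_lit 8) nil nil)) (node (nat_lit 4) (nat_lit 0) (nat_lit 7) (node (nat_lit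
  5) (nat_lit 97974) (nat_lit 8) (node (nat_lit 6) (nat_lit 63089) (nat_lit 9) (node (nat_lit 4)
  (nat_lit 66547) (nat_lit 10) nil nil) (node (nat_lit 4) (nat_lit 98103) (nat_lit 9) nil (node
  (nat_lit 0) (nat_lit 102543) (nat_lit 9) nil nil))) (node (nat_lit 0) (nat_lit 104011) (nat_lit
  8) nil nil)) (node (nat_lit 0) (nat_lit 101475) (nat_lit 7) (node (nat_lit 6) (nat_lit 104013)
  (nat_lit 8) nil (node (nat_lit 5) (nat_lit 103711) (nat_lit 8) (node (nat_lit 4) (nat_lit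
  105154) (nat_lit 9) nil nil) (node (nat_lit 4) (nat_lit 103711) (nat_lit 8) nil nil))) nil)))
  (node (nat_lit 5) (nat_lit 0) (nat_lit 6) (node (nat_lit 0) (nat_lit 63747) (nat_lit 7) (node
  (nat_lit 6) (nat_lit 69016) (nat_lit 8) (node (nat_lit 4) (nat_lit 70879) (nat_lit 9) nil nil)
  (node (nat_lit 4) (nat_lit 67755) (nat_lit 8) nil (node (nat_lit 5) (nat_lit 63520) (nat_lit 8)
  nil nil))) (node (nat_lit 6) (nat_lit 0) (nat_lit 7) (node (nat_lit 4) (nat_lit 59229) (nat_lit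
  8) (node (nat_lit 6) (nat_lit 65168) (nat_lit 9) (node (nat_lit 5) (nat_lit 63466) (nat_lit 10)
  nil nil) (node (nat_lit 5) (nat_lit 64952) (nat_lit 9) nil nil)) (node (nat_lit 0) (nat_lit
  63675) (nat_lit 8) nil nil)) nil)) nil))) nil)) nil))

noncomputable def t348 : Tr :=
  (node (nat_lit 4) (nat_lit 0) (nat_lit 5) (node (nat_lit 0) (nat_lit 0) (nat_lit 6) (node
  (nat_lit 7) (nat_lit 0) (nat_lit 7) (node (nat_lit 4) (nat_lit 46474) (nat_lit 8) (node (nat_lit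
  7) (nat_lit 49242) (nat_lit 9) (node (nat_lit 9) (nat_lit 50796) (nat_lit 10) (node (nat_lit 4)
  (nat_lit 52158) (nat_lit 11) (node (nat_lit 9) (nat_lit 53321) (nat_lit 12) (node (nat_lit 7)
  (nat_lit 54238) (nat_lit 13) (node (nat_lit 4) (nat_lit 54862) (nat_lit 14) (node (nat_lit 9)
  (nat_lit 55151) (nat_lit 15) nil nil) (node (nat_lit 9) (nat_lit 54639) (nat_lit 14) (node
  (nat_lit 4) (nat_lit 54016) (nat_lit 15) (node (nat_lit 7) (nat_lit 54036) (nat_lit 16) nil nil)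
  nil) (node (nat_lit 5) (nat_lit 54839) (nat_lit 14) nil nil))) (node (nat_lit 5) (nat_lit 54238)
  (nat_lit 13) (node (nat_lit 7) (nat_lit 52765) (nat_lit 14) nil (node (nat_lit 4) (nat_lit
  53436) (nat_lit 14) nil nil)) (node (nat_lit 0) (nat_lit 53825) (nat_lit 13) nil nil))) (node
  (nat_lit 7) (nat_lit 53321) (nat_lit 12) (node (nat_lit 4) (nat_lit 54238) (nat_lit 13) (node
  (nat_lit 9) (nat_lit 54639) (nat_lit 14) (node (nat_lit 4) (nat_lit 54610) (nat_lit 15) (node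
  (nat_lit 7) (nat_lit 53718) (nat_lit 16) nil nil) nil) (node (nat_lit 5) (nat_lit 54839)
  (nat_lit 14) (node (nat_lit 4) (nat_lit 55285) (nat_lit 15) nil nil) nil)) (node (nat_lit 5)
  (nat_lit 54108) (nat_lit 13) (node (nat_lit 7) (nat_lit 54709) (nat_lit 14) nil nil) (node
  (nat_lit 0) (nat_lit 53825) (nat_lit 13) nil nil))) (node (nat_lit 5) (nat_lit 53321) (nat_lit
  12) (node (nat_lit 7) (nat_lit 54261) (nat_lit 13) (node (nat_lit 4) (nat_lit 51578) (nat_lit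
  14) nil nil) (node (nat_lit 4) (nat_lit 54108) (nat_lit 13) nil (node (nat_lit 9) (nat_lit
  53825) (nat_lit 13) nil nil))) (node (nat_lit 0) (nat_lit 52837) (nat_lit 12) (node (nat_lit 4)
  (nat_lit 52813) (nat_lit 13) nil (node (nat_lit 7) (nat_lit 53341) (nat_lit 13) nil (node
  (nat_lit 9) (nat_lit 53341) (nat_lit 13) nil nil))) nil)))) (node (nat_lit 7) (nat_lit 52158)
  (nat_lit 11) (node (nat_lit 4) (nat_lit 53321) (nat_lit 12) (node (nat_lit 9) (nat_lit 53851)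
  (nat_lit 13) (node (nat_lit 4) (nat_lit 54430) (nat_lit 14) (node (nat_lit 7) (nat_lit 54876)
  (nat_lit 15) (node (nat_lit 4) (nat_lit 53610) (nat_lit 16) nil nil) nil) (node (nat_lit 7)
  (nat_lit 54245) (nat_lit 14) nil (node (nat_lit 5) (nat_lit 54551) (nat_lit 14) nil nil))) (node
  (nat_lit 5) (nat_lit 54238) (nat_lit 13) nil (node (nat_lit 0) (nat_lit 53825) (nat_lit 13) nil
  nil))) (node (nat_lit 5) (nat_lit 53321) (nat_lit 12) (node (nat_lit 7) (nat_lit 54108) (nat_lit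
  13) nil (node (nat_lit 4) (nat_lit 53297) (nat_lit 13) nil nil)) (node (nat_lit 0) (nat_lit
  52837) (nat_lit 12) (node (nat_lit 4) (nat_lit 52813) (nat_lit 13) nil (node (nat_lit 9)
  (nat_lit 53341) (nat_lit 13) nil (node (nat_lit 7) (nat_lit 53341) (nat_lit 13) nil nil)))
  nil))) (node (nat_lit 5) (nat_lit 52158) (nat_lit 11) (node (nat_lit 7) (nat_lit 53321) (nat_lit
  12) (node (nat_lit 4) (nat_lit 50695) (nat_lit 13) nil nil) (node (nat_lit 4) (nat_lit 53321)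
  (nat_lit 12) nil (node (nat_lit 9) (nat_lit 53144) (nat_lit 12) nil (node (nat_lit 0) (nat_lit
  52780) (nat_lit 12) nil nil)))) (node (nat_lit 0) (nat_lit 51519) (nat_lit 11) (node (nat_lit 4)
  (nat_lit 52490) (nat_lit 12) nil (node (nat_lit 9) (nat_lit 52504) (nat_lit 12) nil (node
  (nat_lit 7) (nat_lit 52504) (nat_lit 12) nil (node (nat_lit 5) (nat_lit 50753) (nat_lit 12) nil
  (node (nat_lit 0) (nat_lit 52141) (nat_lit 12) nil nil))))) nil)))) (node (nat_lit 5) (nat_lit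
  50796) (nat_lit 10) (node (nat_lit 4) (nat_lit 52158) (nat_lit 11) (node (nat_lit 7) (nat_lit
  53321) (nat_lit 12) (node (nat_lit 4) (nat_lit 54238) (nat_lit 13) (node (nat_lit 5) (nat_lit
  54937) (nat_lit 14) (node (nat_lit 7) (nat_lit 55226) (nat_lit 15) nil (node (nat_lit 4)
  (nat_lit 55384) (nat_lit 15) (node (nat_lit 7) (nat_lit 55719) (nat_lit 16) nil nil) nil)) (node
  (nat_lit 0) (nat_lit 54632) (nat_lit 14) nil nil)) (node (nat_lit 9) (nat_lit 53297) (nat_lit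
  13) (node (nat_lit 4) (nat_lit 52495) (nat_lit 14) nil nil) (node (nat_lit 0) (nat_lit 53825)
  (nat_lit 13) nil nil))) (node (nat_lit 5) (nat_lit 53321) (nat_lit 12) (node (nat_lit 7)
  (nat_lit 54238) (nat_lit 13) (node (nat_lit 4) (nat_lit 51556) (nat_lit 14) (node (nat_lit 5)
  (nat_lit 51380) (nat_lit 15) nil nil) nil) (node (nat_lit 9) (nat_lit 53825) (nat_lit 13) nil
  nil)) (node (nat_lit 9) (nat_lit 52813) (nat_lit 12) nil (node (nat_lit 0) (nat_lit 52780)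
  (nat_lit 12) nil nil)))) (node (nat_lit 7) (nat_lit 52158) (nat_lit 11) (node (nat_lit 4)
  (nat_lit 53144) (nat_lit 12) (node (nat_lit 5) (nat_lit 53931) (nat_lit 13) (node (nat_lit 4)
  (nat_lit 48505) (nat_lit 14) (node (nat_lit 7) (nat_lit 44731) (nat_lit 15) nil nil) nil) nil)
  (node (nat_lit 9) (nat_lit 52086) (nat_lit 12) nil (node (nat_lit 0) (nat_lit 52780) (nat_lit
  12) nil nil))) (node (nat_lit 9) (nat_lit 52158) (nat_lit 11) (node (nat_lit 5) (nat_lit 53321)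
  (nat_lit 12) (node (nat_lit 7) (nat_lit 52118) (nat_lit 13) nil (node (nat_lit 4) (nat_lit
  52262) (nat_lit 13) nil nil)) (node (nat_lit 4) (nat_lit 53321) (nat_lit 12) nil (node (nat_lit
  7) (nat_lit 53144) (nat_lit 12) nil nil))) (node (nat_lit 0) (nat_lit 51495) (nat_lit 11) (node
  (nat_lit 5) (nat_lit 50729) (nat_lit 12) nil (node (nat_lit 7) (nat_lit 52118) (nat_lit 12) nil
  (node (nat_lit 4) (nat_lit 50104) (nat_lit 12) nil (node (nat_lit 9) (nat_lit 52118) (nat_lit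
  12) nil nil)))) nil)))) (node (nat_lit 0) (nat_lit 49944) (nat_lit 10) (node (nat_lit 4)
  (nat_lit 51094) (nat_lit 11) (node (nat_lit 7) (nat_lit 52079) (nat_lit 12) (node (nat_lit 4)
  (nat_lit 52866) (nat_lit 13) (node (nat_lit 5) (nat_lit 53467) (nat_lit 14) nil nil) (node
  (nat_lit 5) (nat_lit 51021) (nat_lit 13) nil nil)) (node (nat_lit 9) (nat_lit 51716) (nat_lit
  12) nil (node (nat_lit 13) (nat_lit 51716) (nat_lit 12) nil nil))) (node (nat_lit 7) (nat_lit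
  51305) (nat_lit 11) (node (nat_lit 4) (nat_lit 51927) (nat_lit 12) nil (node (nat_lit 5)
  (nat_lit 52291) (nat_lit 12) (node (nat_lit 7) (nat_lit 50466) (nat_lit 13) nil nil) (node
  (nat_lit 0) (nat_lit 51927) (nat_lit 12) nil (node (nat_lit 9) (nat_lit 51927) (nat_lit 12) nil
  nil)))) (node (nat_lit 9) (nat_lit 51305) (nat_lit 11) (node (nat_lit 4) (nat_lit 51233)
  (nat_lit 12) nil (node (nat_lit 7) (nat_lit 51927) (nat_lit 12) nil (node (nat_lit 13) (nat_lit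
  51927) (nat_lit 12) nil nil))) (node (nat_lit 5) (nat_lit 51305) (nat_lit 11) (node (nat_lit 7)
  (nat_lit 49820) (nat_lit 12) nil (node (nat_lit 4) (nat_lit 49914) (nat_lit 12) nil nil)) (node
  (nat_lit 0) (nat_lit 51078) (nat_lit 11) nil nil))))) nil))) (node (nat_lit 5) (nat_lit 49182)
  (nat_lit 9) (node (nat_lit 7) (nat_lit 50739) (nat_lit 10) (node (nat_lit 5) (nat_lit 52100)
  (nat_lit 11) (node (nat_lit 4) (nat_lit 53263) (nat_lit 12) (node (nat_lit 7) (nat_lit 54050)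
  (nat_lit 13) (node (nat_lit 4) (nat_lit 54650) (nat_lit 14) (node (nat_lit 5) (nat_lit 51398)
  (nat_lit 15) nil nil) nil) nil) nil) (node (nat_lit 9) (nat_lit 52100) (nat_lit 11) (node
  (nat_lit 4) (nat_lit 52490) (nat_lit 12) nil nil) (node (nat_lit 4) (nat_lit 51424) (nat_lit 11)
  nil nil))) (node (nat_lit 9) (nat_lit 50739) (nat_lit 10) (node (nat_lit 4) (nat_lit 52100)
  (nat_lit 11) (node (nat_lit 7) (nat_lit 53085) (nat_lit 12) nil nil) (node (nat_lit 5) (nat_lit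
  52100) (nat_lit 11) (node (nat_lit 7) (nat_lit 50615) (nat_lit 12) nil (node (nat_lit 4)
  (nat_lit 50708) (nat_lit 12) nil nil)) (node (nat_lit 7) (nat_lit 52100) (nat_lit 11) nil nil)))
  (node (nat_lit 4) (nat_lit 50739) (nat_lit 10) (node (nat_lit 7) (nat_lit 51872) (nat_lit 11)
  (node (nat_lit 4) (nat_lit 47604) (nat_lit 12) nil nil) (node (nat_lit 9) (nat_lit 51424)
  (nat_lit 11) nil (node (nat_lit 0) (nat_lit 51424) (nat_lit 11) nil nil))) (node (nat_lit 0)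
  (nat_lit 49885) (nat_lit 10) (node (nat_lit 5) (nat_lit 51246) (nat_lit 11) nil (node (nat_lit
  4) (nat_lit 49654) (nat_lit 11) nil (node (nat_lit 9) (nat_lit 50570) (nat_lit 11) nil nil)))
  nil)))) (node (nat_lit 0) (nat_lit 49182) (nat_lit 9) (node (nat_lit 4) (nat_lit 49434) (nat_lit
  10) (node (nat_lit 5) (nat_lit 50432) (nat_lit 11) nil (node (nat_lit 7) (nat_lit 50795)
  (nat_lit 11) (node (nat_lit 4) (nat_lit 46527) (nat_lit 12) nil nil) (node (nat_lit 9) (nat_lit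
  50568) (nat_lit 11) nil (node (nat_lit 0) (nat_lit 50120) (nat_lit 11) nil nil)))) (node
  (nat_lit 9) (nat_lit 49885) (nat_lit 10) (node (nat_lit 4) (nat_lit 51035) (nat_lit 11) nil
  (node (nat_lit 12) (nat_lit 50508) (nat_lit 11) nil (node (nat_lit 7) (nat_lit 51018) (nat_lit
  11) nil nil))) (node (nat_lit 7) (nat_lit 50739) (nat_lit 10) (node (nat_lit 4) (nat_lit 51872)
  (nat_lit 11) nil (node (nat_lit 12) (nat_lit 51424) (nat_lit 11) nil (node (nat_lit 9) (nat_lit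
  51424) (nat_lit 11) nil nil))) (node (nat_lit 5) (nat_lit 50739) (nat_lit 10) (node (nat_lit 12)
  (nat_lit 51424) (nat_lit 11) nil (node (nat_lit 4) (nat_lit 50508) (nat_lit 11) nil (node
  (nat_lit 7) (nat_lit 47883) (nat_lit 11) nil nil))) (node (nat_lit 0) (nat_lit 48756) (nat_lit
  10) (node (nat_lit 12) (nat_lit 49442) (nat_lit 11) nil (node (nat_lit 4) (nat_lit 46931)
  (nat_lit 11) nil nil)) nil))))) nil))) (node (nat_lit 9) (nat_lit 46474) (nat_lit 8) (node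
  (nat_lit 4) (nat_lit 49182) (nat_lit 9) (node (nat_lit 9) (nat_lit 50739) (nat_lit 10) (node
  (nat_lit 7) (nat_lit 51424) (nat_lit 11) nil nil) (node (nat_lit 7) (nat_lit 50739) (nat_lit 10)
  (node (nat_lit 9) (nat_lit 51903) (nat_lit 11) (node (nat_lit 7) (nat_lit 52525) (nat_lit 12)
  nil nil) nil) nil)) (node (nat_lit 5) (nat_lit 49182) (nat_lit 9) nil (node (nat_lit 0) (nat_lit
  48313) (nat_lit 9) nil nil))) (node (nat_lit 5) (nat_lit 46474) (nat_lit 8) (node (nat_lit 7)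
  (nat_lit 42207) (nat_lit 9) nil (node (nat_lit 9) (nat_lit 48313) (nat_lit 9) nil (node (nat_lit
  4) (nat_lit 44495) (nat_lit 9) nil nil))) (node (nat_lit 0) (nat_lit 45171) (nat_lit 8) nil
  nil)))) (node (nat_lit 4) (nat_lit 0) (nat_lit 7) (node (nat_lit 7) (nat_lit 46506) (nat_lit 8)
  (node (nat_lit 9) (nat_lit 49214) (nat_lit 9) (node (nat_lit 7) (nat_lit 50770) (nat_lit 10)
  (node (nat_lit 4) (nat_lit 52131) (nat_lit 11) (node (nat_lit 9) (nat_lit 52786) (nat_lit 12)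
  (node (nat_lit 4) (nat_lit 53548) (nat_lit 13) (node (nat_lit 7) (nat_lit 54149) (nat_lit 14)
  (node (nat_lit 4) (nat_lit 54595) (nat_lit 15) (node (nat_lit 5) (nat_lit 54931) (nat_lit 16)
  (node (nat_lit 4) (nat_lit 50832) (nat_lit 17) (node (nat_lit 7) (nat_lit 50129) (nat_lit 18)
  nil nil) nil) (node (nat_lit 9) (nat_lit 54813) (nat_lit 16) nil nil)) nil) nil) nil) nil) nil)
  (node (nat_lit 4) (nat_lit 50770) (nat_lit 10) nil (node (nat_lit 0) (nat_lit 49994) (nat_lit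
  10) nil nil))) (node (nat_lit 5) (nat_lit 49214) (nat_lit 9) nil (node (nat_lit 4) (nat_lit
  35497) (nat_lit 9) (node (nat_lit 5) (nat_lit 30148) (nat_lit 10) nil nil) (node (nat_lit 0)
  (nat_lit 48345) (nat_lit 9) nil nil)))) (node (nat_lit 5) (nat_lit 46320) (nat_lit 8) (node
  (nat_lit 7) (nat_lit 49148) (nat_lit 9) nil nil) (node (nat_lit 0) (nat_lit 46440) (nat_lit 8)
  nil nil))) (node (nat_lit 5) (nat_lit 41519) (nat_lit 7) (node (nat_lit 4) (nat_lit 46320)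
  (nat_lit 8) (node (nat_lit 7) (nat_lit 49028) (nat_lit 9) (node (nat_lit 4) (nat_lit 47827)
  (nat_lit 10) nil (node (nat_lit 5) (nat_lit 46732) (nat_lit 10) nil nil)) (node (nat_lit 5)
  (nat_lit 49028) (nat_lit 9) (node (nat_lit 7) (nat_lit 45274) (nat_lit 10) nil nil) (node
  (nat_lit 0) (nat_lit 48159) (nat_lit 9) nil nil))) (node (nat_lit 7) (nat_lit 46440) (nat_lit 8)
  (node (nat_lit 4) (nat_lit 49148) (nat_lit 9) (node (nat_lit 5) (nat_lit 37747) (nat_lit 10) nil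
  nil) (node (nat_lit 5) (nat_lit 48279) (nat_lit 9) nil nil)) (node (nat_lit 9) (nat_lit 45186)
  (nat_lit 8) nil (node (nat_lit 0) (nat_lit 45067) (nat_lit 8) nil nil)))) (node (nat_lit 0)
  (nat_lit 41637) (nat_lit 7) (node (nat_lit 4) (nat_lit 46440) (nat_lit 8) (node (nat_lit 7)
  (nat_lit 42172) (nat_lit 9) nil (node (nat_lit 10) (nat_lit 48279) (nat_lit 9) nil nil)) (node
  (nat_lit 7) (nat_lit 46440) (nat_lit 8) (node (nat_lit 4) (nat_lit 48279) (nat_lit 9) nil nil)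
  (node (nat_lit 9) (nat_lit 46440) (nat_lit 8) nil (node (nat_lit 5) (nat_lit 46440) (nat_lit 8)
  nil (node (nat_lit 0) (nat_lit 45186) (nat_lit 8) nil nil))))) nil)))) (node (nat_lit 5)
  (nat_lit 0) (nat_lit 6) (node (nat_lit 0) (nat_lit 30583) (nat_lit 7) (node (nat_lit 5) (nat_lit
  34476) (nat_lit 8) nil (node (nat_lit 7) (nat_lit 34508) (nat_lit 8) (node (nat_lit 4) (nat_lit
  36347) (nat_lit 9) nil nil) (node (nat_lit 4) (nat_lit 35538) (nat_lit 8) nil (node (nat_lit 0)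
  (nat_lit 34131) (nat_lit 8) nil nil)))) (node (nat_lit 7) (nat_lit 0) (nat_lit 7) (node (nat_lit
  4) (nat_lit 31422) (nat_lit 8) (node (nat_lit 7) (nat_lit 33977) (nat_lit 9) nil nil) (node
  (nat_lit 0) (nat_lit 34044) (nat_lit 8) (node (nat_lit 5) (nat_lit 32065) (nat_lit 9) nil nil)
  nil)) nil)) nil)) (node (nat_lit 0) (nat_lit 0) (nat_lit 5) (node (nat_lit 7) (nat_lit 0)
  (nat_lit 6) (node (nat_lit 4) (nat_lit 92416) (nat_lit 7) (node (nat_lit 8) (nat_lit 92416)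
  (nat_lit 8) (node (nat_lit 7) (nat_lit 92416) (nat_lit 9) (node (nat_lit 8) (nat_lit 92416)
  (nat_lit 10) (node (nat_lit 4) (nat_lit 92416) (nat_lit 11) (node (nat_lit 7) (nat_lit 92416)
  (nat_lit 12) (node (nat_lit 4) (nat_lit 92416) (nat_lit 13) (node (nat_lit 5) (nat_lit 92416)
  (nat_lit 14) nil nil) nil) nil) nil) (node (nat_lit 5) (nat_lit 92416) (nat_lit 10) (node
  (nat_lit 7) (nat_lit 92416) (nat_lit 11) (node (nat_lit 4) (nat_lit 92416) (nat_lit 12) nil nil)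
  nil) nil)) (node (nat_lit 4) (nat_lit 92416) (nat_lit 9) (node (nat_lit 7) (nat_lit 92416)
  (nat_lit 10) (node (nat_lit 4) (nat_lit 91411) (nat_lit 11) nil nil) nil) (node (nat_lit 0)
  (nat_lit 92416) (nat_lit 9) nil nil))) (node (nat_lit 7) (nat_lit 92416) (nat_lit 8) (node
  (nat_lit 8) (nat_lit 92416) (nat_lit 9) (node (nat_lit 4) (nat_lit 92416) (nat_lit 10) (node
  (nat_lit 8) (nat_lit 92416) (nat_lit 11) nil (node (nat_lit 7) (nat_lit 92416) (nat_lit 11)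
  (node (nat_lit 4) (nat_lit 92416) (nat_lit 12) nil nil) nil)) (node (nat_lit 5) (nat_lit 92416)
  (nat_lit 10) (node (nat_lit 7) (nat_lit 92416) (nat_lit 11) nil nil) nil)) nil) (node (nat_lit
  5) (nat_lit 92416) (nat_lit 8) (node (nat_lit 7) (nat_lit 92416) (nat_lit 9) nil (node (nat_lit
  4) (nat_lit 92416) (nat_lit 9) (node (nat_lit 7) (nat_lit 92416) (nat_lit 10) nil nil) nil))
  (node (nat_lit 0) (nat_lit 92416) (nat_lit 8) (node (nat_lit 7) (nat_lit 92416) (nat_lit 9) nil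
  (node (nat_lit 4) (nat_lit 92416) (nat_lit 9) nil nil)) nil)))) (node (nat_lit 5) (nat_lit
  92416) (nat_lit 7) (node (nat_lit 7) (nat_lit 92416) (nat_lit 8) (node (nat_lit 8) (nat_lit
  92416) (nat_lit 9) (node (nat_lit 5) (nat_lit 92416) (nat_lit 10) (node (nat_lit 7) (nat_lit
  92416) (nat_lit 11) nil nil) nil) (node (nat_lit 4) (nat_lit 92416) (nat_lit 9) (node (nat_lit
  5) (nat_lit 83152) (nat_lit 10) (node (nat_lit 4) (nat_lit 60090) (nat_lit 11) (node (nat_lit 7)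
  (nat_lit 43563) (nat_lit 12) (node (nat_lit 8) (nat_lit 3288) (nat_lit 13) nil nil) nil) nil)
  nil) nil)) (node (nat_lit 8) (nat_lit 92416) (nat_lit 8) (node (nat_lit 5) (nat_lit 92416)
  (nat_lit 9) (node (nat_lit 7) (nat_lit 92416) (nat_lit 10) (node (nat_lit 4) (nat_lit 92416)
  (nat_lit 11) nil nil) nil) (node (nat_lit 7) (nat_lit 92416) (nat_lit 9) nil nil)) (node
  (nat_lit 4) (nat_lit 92416) (nat_lit 8) (node (nat_lit 7) (nat_lit 92416) (nat_lit 9) (node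
  (nat_lit 4) (nat_lit 89929) (nat_lit 10) nil nil) (node (nat_lit 5) (nat_lit 89991) (nat_lit 9)
  nil nil)) (node (nat_lit 0) (nat_lit 92416) (nat_lit 8) (node (nat_lit 7) (nat_lit 92416)
  (nat_lit 9) nil (node (nat_lit 5) (nat_lit 92416) (nat_lit 9) nil nil)) nil)))) (node (nat_lit
  0) (nat_lit 92416) (nat_lit 7) (node (nat_lit 8) (nat_lit 92416) (nat_lit 8) (node (nat_lit 7)
  (nat_lit 92416) (nat_lit 9) nil nil) (node (nat_lit 7) (nat_lit 92416) (nat_lit 8) (node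
  (nat_lit 8) (nat_lit 92416) (nat_lit 9) nil (node (nat_lit 4) (nat_lit 92416) (nat_lit 9) nil
  (node (nat_lit 5) (nat_lit 92416) (nat_lit 9) nil nil))) (node (nat_lit 4) (nat_lit 91106)
  (nat_lit 8) (node (nat_lit 7) (nat_lit 90910) (nat_lit 9) (node (nat_lit 4) (nat_lit 88246)
  (nat_lit 10) nil nil) nil) (node (nat_lit 5) (nat_lit 91106) (nat_lit 8) (node (nat_lit 7)
  (nat_lit 90910) (nat_lit 9) nil nil) (node (nat_lit 0) (nat_lit 92416) (nat_lit 8) nil nil)))))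
  nil))) (node (nat_lit 4) (nat_lit 0) (nat_lit 6) (node (nat_lit 8) (nat_lit 92416) (nat_lit 7)
  (node (nat_lit 7) (nat_lit 92416) (nat_lit 8) (node (nat_lit 8) (nat_lit 92416) (nat_lit 9)
  (node (nat_lit 4) (nat_lit 92416) (nat_lit 10) (node (nat_lit 7) (nat_lit 92416) (nat_lit 11)
  (node (nat_lit 4) (nat_lit 92014) (nat_lit 12) (node (nat_lit 5) (nat_lit 91151) (nat_lit 13)
  (node (nat_lit 4) (nat_lit 87601) (nat_lit 14) (node (nat_lit 7) (nat_lit 85080) (nat_lit 15)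
  nil nil) nil) nil) nil) nil) nil) nil) nil) (node (nat_lit 5) (nat_lit 91170) (nat_lit 7) (node
  (nat_lit 7) (nat_lit 90777) (nat_lit 8) (node (nat_lit 4) (nat_lit 88081) (nat_lit 9) (node
  (nat_lit 5) (nat_lit 74391) (nat_lit 10) (node (nat_lit 4) (nat_lit 59471) (nat_lit 11) (node
  (nat_lit 7) (nat_lit 43377) (nat_lit 12) nil nil) nil) nil) (node (nat_lit 5) (nat_lit 91265)
  (nat_lit 9) nil nil)) nil) (node (nat_lit 7) (nat_lit 92416) (nat_lit 7) (node (nat_lit 4)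
  (nat_lit 89511) (nat_lit 8) (node (nat_lit 5) (nat_lit 77198) (nat_lit 9) (node (nat_lit 4)
  (nat_lit 56738) (nat_lit 10) nil nil) (node (nat_lit 8) (nat_lit 89999) (nat_lit 9) (node
  (nat_lit 7) (nat_lit 90370) (nat_lit 10) nil nil) nil)) (node (nat_lit 5) (nat_lit 91089)
  (nat_lit 8) (node (nat_lit 7) (nat_lit 90994) (nat_lit 9) (node (nat_lit 4) (nat_lit 89496)
  (nat_lit 10) nil nil) nil) nil)) (node (nat_lit 0) (nat_lit 92416) (nat_lit 7) nil nil)))) (node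
  (nat_lit 5) (nat_lit 0) (nat_lit 6) (node (nat_lit 4) (nat_lit 91170) (nat_lit 7) (node (nat_lit
  5) (nat_lit 88621) (nat_lit 8) (node (nat_lit 7) (nat_lit 88425) (nat_lit 9) (node (nat_lit 4)
  (nat_lit 85761) (nat_lit 10) nil nil) nil) (node (nat_lit 7) (nat_lit 89376) (nat_lit 8) (node
  (nat_lit 4) (nat_lit 82802) (nat_lit 9) (node (nat_lit 5) (nat_lit 77888) (nat_lit 10) nil nil)
  nil) nil)) (node (nat_lit 7) (nat_lit 92416) (nat_lit 7) (node (nat_lit 4) (nat_lit 81216)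
  (nat_lit 8) (node (nat_lit 5) (nat_lit 71030) (nat_lit 9) (node (nat_lit 4) (nat_lit 49884)
  (nat_lit 10) (node (nat_lit 7) (nat_lit 25738) (nat_lit 11) nil nil) nil) nil) (node (nat_lit 5)
  (nat_lit 92416) (nat_lit 8) nil nil)) (node (nat_lit 8) (nat_lit 92416) (nat_lit 7) (node
  (nat_lit 7) (nat_lit 92416) (nat_lit 8) (node (nat_lit 8) (nat_lit 92416) (nat_lit 9) (node
  (nat_lit 5) (nat_lit 92416) (nat_lit 10) (node (nat_lit 7) (nat_lit 92416) (nat_lit 11) nil nil)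
  nil) nil) nil) (node (nat_lit 0) (nat_lit 92416) (nat_lit 7) nil nil)))) (node (nat_lit 0)
  (nat_lit 91877) (nat_lit 6) (node (nat_lit 7) (nat_lit 92416) (nat_lit 7) (node (nat_lit 8)
  (nat_lit 92416) (nat_lit 8) (node (nat_lit 7) (nat_lit 92416) (nat_lit 9) nil nil) nil) (node
  (nat_lit 8) (nat_lit 92416) (nat_lit 7) (node (nat_lit 7) (nat_lit 92416) (nat_lit 8) nil nil)
  (node (nat_lit 4) (nat_lit 87808) (nat_lit 7) nil (node (nat_lit 5) (nat_lit 87619) (nat_lit 7)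
  nil nil)))) nil)))) (node (nat_lit 5) (nat_lit 0) (nat_lit 5) (node (nat_lit 0) (nat_lit 0)
  (nat_lit 6) (node (nat_lit 7) (nat_lit 0) (nat_lit 7) (node (nat_lit 5) (nat_lit 92416) (nat_lit
  8) (node (nat_lit 7) (nat_lit 92416) (nat_lit 9) (node (nat_lit 9) (nat_lit 92416) (nat_lit 10)
  nil (node (nat_lit 4) (nat_lit 91450) (nat_lit 10) (node (nat_lit 5) (nat_lit 87580) (nat_lit
  11) nil nil) nil)) (node (nat_lit 4) (nat_lit 90771) (nat_lit 9) (node (nat_lit 7) (nat_lit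
  90834) (nat_lit 10) nil nil) (node (nat_lit 0) (nat_lit 92416) (nat_lit 9) nil nil))) (node
  (nat_lit 4) (nat_lit 92416) (nat_lit 8) nil (node (nat_lit 9) (nat_lit 92416) (nat_lit 8) nil
  (node (nat_lit 0) (nat_lit 92416) (nat_lit 8) nil nil)))) (node (nat_lit 4) (nat_lit 91267)
  (nat_lit 7) (node (nat_lit 5) (nat_lit 89505) (nat_lit 8) (node (nat_lit 7) (nat_lit 90548)
  (nat_lit 9) (node (nat_lit 4) (nat_lit 88205) (nat_lit 10) nil nil) (node (nat_lit 4) (nat_lit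
  87525) (nat_lit 9) nil nil)) (node (nat_lit 7) (nat_lit 92416) (nat_lit 8) (node (nat_lit 4)
  (nat_lit 84300) (nat_lit 9) nil nil) nil)) (node (nat_lit 5) (nat_lit 91561) (nat_lit 7) (node
  (nat_lit 7) (nat_lit 92416) (nat_lit 8) (node (nat_lit 4) (nat_lit 86572) (nat_lit 9) nil nil)
  (node (nat_lit 4) (nat_lit 89799) (nat_lit 8) nil nil)) (node (nat_lit 0) (nat_lit 91584)
  (nat_lit 7) (node (nat_lit 4) (nat_lit 89821) (nat_lit 8) nil (node (nat_lit 5) (nat_lit 89821)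
  (nat_lit 8) nil nil)) nil)))) (node (nat_lit 7) (nat_lit 0) (nat_lit 6) (node (nat_lit 4)
  (nat_lit 80471) (nat_lit 7) (node (nat_lit 5) (nat_lit 62440) (nat_lit 8) (node (nat_lit 4)
  (nat_lit 56323) (nat_lit 9) (node (nat_lit 7) (nat_lit 12508) (nat_lit 10) nil nil) (node
  (nat_lit 7) (nat_lit 69423) (nat_lit 9) (node (nat_lit 5) (nat_lit 73263) (nat_lit 10) nil nil)
  nil)) (node (nat_lit 0) (nat_lit 89304) (nat_lit 8) nil nil)) (node (nat_lit 0) (nat_lit 92416)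
  (nat_lit 7) (node (nat_lit 5) (nat_lit 91839) (nat_lit 8) (node (nat_lit 7) (nat_lit 92416)
  (nat_lit 9) nil nil) (node (nat_lit 4) (nat_lit 91839) (nat_lit 8) nil (node (nat_lit 7)
  (nat_lit 92416) (nat_lit 8) nil nil))) nil)) (node (nat_lit 4) (nat_lit 0) (nat_lit 6) (node
  (nat_lit 5) (nat_lit 0) (nat_lit 7) (node (nat_lit 7) (nat_lit 89443) (nat_lit 8) (node (nat_lit
  4) (nat_lit 91022) (nat_lit 9) (node (nat_lit 5) (nat_lit 77317) (nat_lit 10) (node (nat_lit 4)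
  (nat_lit 67195) (nat_lit 11) (node (nat_lit 7) (nat_lit 51418) (nat_lit 12) (node (nat_lit 5)
  (nat_lit 28958) (nat_lit 13) nil nil) nil) nil) nil) (node (nat_lit 5) (nat_lit 91997) (nat_lit
  9) nil nil)) (node (nat_lit 0) (nat_lit 91361) (nat_lit 8) nil nil)) (node (nat_lit 0) (nat_lit
  90923) (nat_lit 7) (node (nat_lit 7) (nat_lit 92416) (nat_lit 8) nil (node (nat_lit 5) (nat_lit
  89161) (nat_lit 8) nil (node (nat_lit 4) (nat_lit 89161) (nat_lit 8) nil nil))) nil)) nil)))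
  nil)))

noncomputable def t349 : Tr :=
  (node (nat_lit 4) (nat_lit 0) (nat_lit 4) (node (nat_lit 6) (nat_lit 0) (nat_lit 5) (node
  (nat_lit 5) (nat_lit 0) (nat_lit 6) (node (nat_lit 3) (nat_lit 129785) (nat_lit 7) (node
  (nat_lit 4) (nat_lit 127564) (nat_lit 8) (node (nat_lit 5) (nat_lit 126424) (nat_lit 9) (node
  (nat_lit 6) (nat_lit 104742) (nat_lit 10) (node (nat_lit 4) (nat_lit 59074) (nat_lit 11) (node
  (nat_lit 6) (nat_lit 37518) (nat_lit 12) (node (nat_lit 5) (nat_lit 33691) (nat_lit 13) nil nil)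
  nil) nil) nil) (node (nat_lit 10) (nat_lit 126585) (nat_lit 9) (node (nat_lit 5) (nat_lit
  123169) (nat_lit 10) (node (nat_lit 4) (nat_lit 120428) (nat_lit 11) nil nil) nil) nil)) (node
  (nat_lit 5) (nat_lit 132197) (nat_lit 8) (node (nat_lit 4) (nat_lit 127543) (nat_lit 9) (node
  (nat_lit 5) (nat_lit 121834) (nat_lit 10) nil nil) nil) nil)) (node (nat_lit 4) (nat_lit 116324)
  (nat_lit 7) (node (nat_lit 5) (nat_lit 126950) (nat_lit 8) (node (nat_lit 3) (nat_lit 125055)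
  (nat_lit 9) (node (nat_lit 4) (nat_lit 123587) (nat_lit 10) nil nil) (node (nat_lit 6) (nat_lit
  130177) (nat_lit 9) (node (nat_lit 4) (nat_lit 129263) (nat_lit 10) (node (nat_lit 6) (nat_lit
  75944) (nat_lit 11) nil nil) nil) nil)) (node (nat_lit 3) (nat_lit 128500) (nat_lit 8) (node
  (nat_lit 5) (nat_lit 124885) (nat_lit 9) nil (node (nat_lit 4) (nat_lit 124698) (nat_lit 9)
  (node (nat_lit 5) (nat_lit 122563) (nat_lit 10) nil nil) nil)) (node (nat_lit 6) (nat_lit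
  126099) (nat_lit 8) nil (node (nat_lit 0) (nat_lit 124620) (nat_lit 8) nil nil)))) (node
  (nat_lit 6) (nat_lit 113188) (nat_lit 7) (node (nat_lit 4) (nat_lit 122512) (nat_lit 8) (node
  (nat_lit 5) (nat_lit 127357) (nat_lit 9) nil nil) (node (nat_lit 3) (nat_lit 124649) (nat_lit 8)
  nil nil)) (node (nat_lit 0) (nat_lit 121945) (nat_lit 7) nil nil)))) (node (nat_lit 3) (nat_lit
  0) (nat_lit 6) (node (nat_lit 5) (nat_lit 129846) (nat_lit 7) (node (nat_lit 4) (nat_lit 127177)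
  (nat_lit 8) (node (nat_lit 5) (nat_lit 115830) (nat_lit 9) (node (nat_lit 6) (nat_lit 87773)
  (nat_lit 10) (node (nat_lit 4) (nat_lit 81491) (nat_lit 11) (node (nat_lit 6) (nat_lit 82169)
  (nat_lit 12) nil nil) nil) (node (nat_lit 9) (nat_lit 113861) (nat_lit 10) (node (nat_lit 4)
  (nat_lit 113373) (nat_lit 11) nil nil) nil)) (node (nat_lit 9) (nat_lit 128594) (nat_lit 9)
  (node (nat_lit 4) (nat_lit 127622) (nat_lit 10) (node (nat_lit 5) (nat_lit 125954) (nat_lit 11)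
  nil nil) nil) nil)) (node (nat_lit 9) (nat_lit 124465) (nat_lit 8) (node (nat_lit 4) (nat_lit
  123408) (nat_lit 9) (node (nat_lit 5) (nat_lit 118811) (nat_lit 10) nil nil) nil) nil)) (node
  (nat_lit 4) (nat_lit 131749) (nat_lit 7) (node (nat_lit 9) (nat_lit 131063) (nat_lit 8) (node
  (nat_lit 5) (nat_lit 127669) (nat_lit 9) nil nil) nil) (node (nat_lit 6) (nat_lit 131749)
  (nat_lit 7) nil (node (nat_lit 0) (nat_lit 131749) (nat_lit 7) nil nil)))) (node (nat_lit 0)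
  (nat_lit 127536) (nat_lit 6) (node (nat_lit 5) (nat_lit 132259) (nat_lit 7) nil (node (nat_lit
  4) (nat_lit 132259) (nat_lit 7) nil (node (nat_lit 3) (nat_lit 126979) (nat_lit 7) nil nil)))
  nil))) (node (nat_lit 3) (nat_lit 0) (nat_lit 5) (node (nat_lit 5) (nat_lit 120905) (nat_lit 6)
  (node (nat_lit 4) (nat_lit 114479) (nat_lit 7) (node (nat_lit 5) (nat_lit 97329) (nat_lit 8)
  (node (nat_lit 8) (nat_lit 94657) (nat_lit 9) (node (nat_lit 4) (nat_lit 91808) (nat_lit 10)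
  (node (nat_lit 5) (nat_lit 88317) (nat_lit 11) nil nil) (node (nat_lit 5) (nat_lit 94984)
  (nat_lit 10) (node (nat_lit 4) (nat_lit 91321) (nat_lit 11) nil nil) nil)) (node (nat_lit 6)
  (nat_lit 74711) (nat_lit 9) (node (nat_lit 4) (nat_lit 72261) (nat_lit 10) (node (nat_lit 8)
  (nat_lit 72603) (nat_lit 11) nil nil) nil) nil)) (node (nat_lit 8) (nat_lit 114936) (nat_lit 8)
  (node (nat_lit 4) (nat_lit 112792) (nat_lit 9) (node (nat_lit 5) (nat_lit 109021) (nat_lit 10)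
  nil nil) nil) nil)) (node (nat_lit 6) (nat_lit 125242) (nat_lit 7) (node (nat_lit 5) (nat_lit
  122157) (nat_lit 8) (node (nat_lit 8) (nat_lit 114237) (nat_lit 9) nil nil) (node (nat_lit 8)
  (nat_lit 123614) (nat_lit 8) nil nil)) (node (nat_lit 8) (nat_lit 125511) (nat_lit 7) (node
  (nat_lit 4) (nat_lit 122720) (nat_lit 8) (node (nat_lit 5) (nat_lit 115726) (nat_lit 9) (node
  (nat_lit 4) (nat_lit 114431) (nat_lit 10) nil nil) nil) nil) nil))) (node (nat_lit 6) (nat_lit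
  0) (nat_lit 6) (node (nat_lit 5) (nat_lit 127054) (nat_lit 7) (node (nat_lit 8) (nat_lit 124921)
  (nat_lit 8) (node (nat_lit 4) (nat_lit 124874) (nat_lit 9) (node (nat_lit 5) (nat_lit 118492)
  (nat_lit 10) (node (nat_lit 6) (nat_lit 90061) (nat_lit 11) (node (nat_lit 4) (nat_lit 69558)
  (nat_lit 12) (node (nat_lit 8) (nat_lit 44460) (nat_lit 13) nil nil) nil) nil) nil) (node
  (nat_lit 5) (nat_lit 120542) (nat_lit 9) (node (nat_lit 4) (nat_lit 115621) (nat_lit 10) nil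
  nil) nil)) (node (nat_lit 4) (nat_lit 128015) (nat_lit 8) (node (nat_lit 8) (nat_lit 120096)
  (nat_lit 9) nil nil) nil)) (node (nat_lit 8) (nat_lit 127299) (nat_lit 7) (node (nat_lit 5)
  (nat_lit 126703) (nat_lit 8) (node (nat_lit 4) (nat_lit 120063) (nat_lit 9) (node (nat_lit 5)
  (nat_lit 112696) (nat_lit 10) nil nil) nil) nil) (node (nat_lit 4) (nat_lit 127784) (nat_lit 7)
  (node (nat_lit 5) (nat_lit 128694) (nat_lit 8) nil nil) (node (nat_lit 0) (nat_lit 125311)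
  (nat_lit 7) nil nil)))) (node (nat_lit 4) (nat_lit 104820) (nat_lit 6) (node (nat_lit 5)
  (nat_lit 88585) (nat_lit 7) (node (nat_lit 8) (nat_lit 91492) (nat_lit 8) nil (node (nat_lit 4)
  (nat_lit 91492) (nat_lit 8) (node (nat_lit 8) (nat_lit 89669) (nat_lit 9) nil nil) (node
  (nat_lit 6) (nat_lit 30072) (nat_lit 8) (node (nat_lit 4) (nat_lit 30786) (nat_lit 9) nil nil)
  nil))) (node (nat_lit 6) (nat_lit 110480) (nat_lit 7) (node (nat_lit 4) (nat_lit 110180)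
  (nat_lit 8) (node (nat_lit 8) (nat_lit 107508) (nat_lit 9) nil nil) nil) nil)) (node (nat_lit 0)
  (nat_lit 121580) (nat_lit 6) nil nil)))) (node (nat_lit 5) (nat_lit 0) (nat_lit 5) (node
  (nat_lit 3) (nat_lit 121483) (nat_lit 6) (node (nat_lit 4) (nat_lit 122721) (nat_lit 7) (node
  (nat_lit 9) (nat_lit 122391) (nat_lit 8) (node (nat_lit 5) (nat_lit 118996) (nat_lit 9) (node
  (nat_lit 9) (nat_lit 119880) (nat_lit 10) (node (nat_lit 4) (nat_lit 119583) (nat_lit 11) (node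
  (nat_lit 5) (nat_lit 117651) (nat_lit 12) nil nil) nil) nil) nil) (node (nat_lit 5) (nat_lit
  107366) (nat_lit 8) (node (nat_lit 4) (nat_lit 105830) (nat_lit 9) (node (nat_lit 9) (nat_lit
  103860) (nat_lit 10) nil nil) (node (nat_lit 6) (nat_lit 55328) (nat_lit 9) (node (nat_lit 4)
  (nat_lit 40518) (nat_lit 10) nil nil) nil)) nil)) (node (nat_lit 5) (nat_lit 122950) (nat_lit 7)
  (node (nat_lit 4) (nat_lit 115204) (nat_lit 8) (node (nat_lit 9) (nat_lit 116620) (nat_lit 9)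
  (node (nat_lit 4) (nat_lit 115317) (nat_lit 10) (node (nat_lit 5) (nat_lit 112109) (nat_lit 11)
  nil nil) nil) (node (nat_lit 5) (nat_lit 103273) (nat_lit 9) nil nil)) (node (nat_lit 6)
  (nat_lit 126206) (nat_lit 8) nil nil)) (node (nat_lit 6) (nat_lit 127573) (nat_lit 7) nil nil)))
  (node (nat_lit 4) (nat_lit 107644) (nat_lit 6) (node (nat_lit 3) (nat_lit 122010) (nat_lit 7)
  (node (nat_lit 5) (nat_lit 117488) (nat_lit 8) nil (node (nat_lit 4) (nat_lit 121228) (nat_lit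
  8) (node (nat_lit 5) (nat_lit 106005) (nat_lit 9) nil nil) nil)) (node (nat_lit 6) (nat_lit
  115394) (nat_lit 7) (node (nat_lit 4) (nat_lit 114494) (nat_lit 8) nil nil) nil)) (node (nat_lit
  0) (nat_lit 106901) (nat_lit 6) nil nil))) (node (nat_lit 0) (nat_lit 0) (nat_lit 5) (node
  (nat_lit 4) (nat_lit 128900) (nat_lit 6) (node (nat_lit 5) (nat_lit 128516) (nat_lit 7) nil
  (node (nat_lit 3) (nat_lit 118729) (nat_lit 7) nil nil)) (node (nat_lit 3) (nat_lit 121740)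
  (nat_lit 6) (node (nat_lit 4) (nat_lit 126333) (nat_lit 7) nil (node (nat_lit 5) (nat_lit
  114633) (nat_lit 7) nil nil)) (node (nat_lit 5) (nat_lit 126085) (nat_lit 6) (node (nat_lit 4)
  (nat_lit 123613) (nat_lit 7) nil (node (nat_lit 3) (nat_lit 117232) (nat_lit 7) nil nil)) (node
  (nat_lit 0) (nat_lit 127809) (nat_lit 6) nil (node (nat_lit 6) (nat_lit 127809) (nat_lit 6) nil
  nil))))) nil)))) (node (nat_lit 5) (nat_lit 0) (nat_lit 4) (node (nat_lit 3) (nat_lit 0)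
  (nat_lit 5) (node (nat_lit 6) (nat_lit 0) (nat_lit 6) (node (nat_lit 4) (nat_lit 119826)
  (nat_lit 7) (node (nat_lit 8) (nat_lit 117972) (nat_lit 8) (node (nat_lit 5) (nat_lit 115428)
  (nat_lit 9) (node (nat_lit 4) (nat_lit 111829) (nat_lit 10) nil nil) (node (nat_lit 4) (nat_lit
  109661) (nat_lit 9) (node (nat_lit 5) (nat_lit 103723) (nat_lit 10) (node (nat_lit 6) (nat_lit
  94677) (nat_lit 11) (node (nat_lit 5) (nat_lit 74174) (nat_lit 12) nil nil) nil) nil) nil)) nil)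
  (node (nat_lit 8) (nat_lit 113666) (nat_lit 7) (node (nat_lit 5) (nat_lit 116573) (nat_lit 8)
  (node (nat_lit 4) (nat_lit 114990) (nat_lit 9) (node (nat_lit 5) (nat_lit 108418) (nat_lit 10)
  (node (nat_lit 6) (nat_lit 94954) (nat_lit 11) (node (nat_lit 5) (nat_lit 86001) (nat_lit 12)
  (node (nat_lit 8) (nat_lit 74308) (nat_lit 13) nil nil) nil) nil) nil) nil) nil) (node (nat_lit
  5) (nat_lit 113666) (nat_lit 7) (node (nat_lit 4) (nat_lit 111325) (nat_lit 8) nil nil) (node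
  (nat_lit 0) (nat_lit 111719) (nat_lit 7) nil nil)))) (node (nat_lit 4) (nat_lit 106499) (nat_lit
  6) (node (nat_lit 5) (nat_lit 86597) (nat_lit 7) (node (nat_lit 4) (nat_lit 90469) (nat_lit 8)
  (node (nat_lit 8) (nat_lit 88620) (nat_lit 9) (node (nat_lit 5) (nat_lit 85503) (nat_lit 10) nil
  (node (nat_lit 4) (nat_lit 81737) (nat_lit 10) (node (nat_lit 5) (nat_lit 77716) (nat_lit 11)
  nil nil) nil)) nil) (node (nat_lit 8) (nat_lit 84592) (nat_lit 8) (node (nat_lit 5) (nat_lit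
  84556) (nat_lit 9) (node (nat_lit 4) (nat_lit 80957) (nat_lit 10) nil nil) nil) (node (nat_lit
  6) (nat_lit 51433) (nat_lit 8) (node (nat_lit 5) (nat_lit 29674) (nat_lit 9) nil nil) nil)))
  (node (nat_lit 8) (nat_lit 111553) (nat_lit 7) (node (nat_lit 5) (nat_lit 108890) (nat_lit 8)
  (node (nat_lit 4) (nat_lit 106254) (nat_lit 9) (node (nat_lit 5) (nat_lit 101464) (nat_lit 10)
  nil nil) nil) nil) (node (nat_lit 6) (nat_lit 113455) (nat_lit 7) nil nil))) (node (nat_lit 5)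
  (nat_lit 107441) (nat_lit 6) (node (nat_lit 4) (nat_lit 111352) (nat_lit 7) (node (nat_lit 5)
  (nat_lit 97275) (nat_lit 8) (node (nat_lit 8) (nat_lit 91808) (nat_lit 9) (node (nat_lit 4)
  (nat_lit 90828) (nat_lit 10) (node (nat_lit 5) (nat_lit 87144) (nat_lit 11) nil nil) nil) (node
  (nat_lit 6) (nat_lit 74323) (nat_lit 9) (node (nat_lit 5) (nat_lit 71874) (nat_lit 10) nil nil)
  nil)) (node (nat_lit 8) (nat_lit 111694) (nat_lit 8) (node (nat_lit 4) (nat_lit 107868) (nat_lit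
  9) (node (nat_lit 5) (nat_lit 102431) (nat_lit 10) nil nil) nil) nil)) (node (nat_lit 6)
  (nat_lit 112035) (nat_lit 7) nil nil)) (node (nat_lit 0) (nat_lit 117878) (nat_lit 6) nil
  nil)))) (node (nat_lit 4) (nat_lit 0) (nat_lit 5) (node (nat_lit 6) (nat_lit 0) (nat_lit 6)
  (node (nat_lit 3) (nat_lit 125368) (nat_lit 7) (node (nat_lit 4) (nat_lit 129217) (nat_lit 8)
  (node (nat_lit 5) (nat_lit 131778) (nat_lit 9) (node (nat_lit 6) (nat_lit 133311) (nat_lit 10)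
  (node (nat_lit 5) (nat_lit 131966) (nat_lit 11) (node (nat_lit 4) (nat_lit 131026) (nat_lit 12)
  (node (nat_lit 6) (nat_lit 32333) (nat_lit 13) nil nil) nil) nil) nil) nil) (node (nat_lit 5)
  (nat_lit 120716) (nat_lit 8) (node (nat_lit 4) (nat_lit 116625) (nat_lit 9) nil nil) nil)) (node
  (nat_lit 4) (nat_lit 116695) (nat_lit 7) (node (nat_lit 5) (nat_lit 121426) (nat_lit 8) (node
  (nat_lit 3) (nat_lit 119295) (nat_lit 9) nil nil) (node (nat_lit 3) (nat_lit 115429) (nat_lit 8)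
  (node (nat_lit 4) (nat_lit 115435) (nat_lit 9) (node (nat_lit 5) (nat_lit 109497) (nat_lit 10)
  nil nil) nil) nil)) (node (nat_lit 5) (nat_lit 113481) (nat_lit 7) (node (nat_lit 6) (nat_lit
  117829) (nat_lit 8) (node (nat_lit 4) (nat_lit 116959) (nat_lit 9) nil nil) (node (nat_lit 3)
  (nat_lit 115359) (nat_lit 8) (node (nat_lit 4) (nat_lit 113191) (nat_lit 9) (node (nat_lit 5)
  (nat_lit 107253) (nat_lit 10) nil nil) nil) nil)) (node (nat_lit 0) (nat_lit 116912) (nat_lit 7)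
  nil nil)))) (node (nat_lit 3) (nat_lit 117611) (nat_lit 6) (node (nat_lit 5) (nat_lit 122712)
  (nat_lit 7) (node (nat_lit 9) (nat_lit 119856) (nat_lit 8) (node (nat_lit 4) (nat_lit 119400)
  (nat_lit 9) (node (nat_lit 5) (nat_lit 113371) (nat_lit 10) (node (nat_lit 6) (nat_lit 98782)
  (nat_lit 11) (node (nat_lit 5) (nat_lit 52810) (nat_lit 12) (node (nat_lit 4) (nat_lit 39533)
  (nat_lit 13) (node (nat_lit 9) (nat_lit 36807) (nat_lit 14) (node (nat_lit 5) (nat_lit 25719)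
  (nat_lit 15) nil nil) nil) nil) nil) nil) (node (nat_lit 9) (nat_lit 118081) (nat_lit 10) nil
  nil)) nil) (node (nat_lit 4) (nat_lit 120729) (nat_lit 8) (node (nat_lit 5) (nat_lit 110982)
  (nat_lit 9) (node (nat_lit 9) (nat_lit 108870) (nat_lit 10) nil (node (nat_lit 6) (nat_lit
  92448) (nat_lit 10) nil nil)) nil) nil)) (node (nat_lit 4) (nat_lit 115561) (nat_lit 7) (node
  (nat_lit 5) (nat_lit 109530) (nat_lit 8) (node (nat_lit 9) (nat_lit 108550) (nat_lit 9) (node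
  (nat_lit 5) (nat_lit 108733) (nat_lit 10) (node (nat_lit 4) (nat_lit 106172) (nat_lit 11) nil
  nil) nil) (node (nat_lit 6) (nat_lit 55328) (nat_lit 9) (node (nat_lit 5) (nat_lit 29532)
  (nat_lit 10) (node (nat_lit 4) (nat_lit 30133) (nat_lit 11) nil nil) nil) nil)) nil) (node
  (nat_lit 6) (nat_lit 123700) (nat_lit 7) nil nil))) (node (nat_lit 5) (nat_lit 106114) (nat_lit
  6) (node (nat_lit 3) (nat_lit 117154) (nat_lit 7) (node (nat_lit 5) (nat_lit 117751) (nat_lit 8)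
  (node (nat_lit 4) (nat_lit 113659) (nat_lit 9) nil nil) (node (nat_lit 4) (nat_lit 109183)
  (nat_lit 8) (node (nat_lit 5) (nat_lit 103283) (nat_lit 9) nil nil) nil)) (node (nat_lit 6)
  (nat_lit 63911) (nat_lit 7) nil nil)) (node (nat_lit 0) (nat_lit 117750) (nat_lit 6) nil nil))))
  (node (nat_lit 0) (nat_lit 117959) (nat_lit 5) (node (nat_lit 5) (nat_lit 124563) (nat_lit 6)
  (node (nat_lit 3) (nat_lit 113249) (nat_lit 7) (node (nat_lit 4) (nat_lit 110026) (nat_lit 8)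
  nil nil) (node (nat_lit 4) (nat_lit 122091) (nat_lit 7) nil nil)) (node (nat_lit 3) (nat_lit
  116917) (nat_lit 6) (node (nat_lit 5) (nat_lit 110013) (nat_lit 7) (node (nat_lit 4) (nat_lit
  101542) (nat_lit 8) nil nil) nil) (node (nat_lit 4) (nat_lit 122693) (nat_lit 6) nil nil)))
  nil))) (node (nat_lit 0) (nat_lit 0) (nat_lit 4) (node (nat_lit 0) (nat_lit 0) (nat_lit 5) (node
  (nat_lit 6) (nat_lit 130924) (nat_lit 6) (node (nat_lit 8) (nat_lit 135517) (nat_lit 7) nil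
  (node (nat_lit 5) (nat_lit 128453) (nat_lit 7) nil (node (nat_lit 3) (nat_lit 129411) (nat_lit
  7) nil (node (nat_lit 4) (nat_lit 128453) (nat_lit 7) nil nil)))) (node (nat_lit 5) (nat_lit
  124791) (nat_lit 6) (node (nat_lit 3) (nat_lit 112778) (nat_lit 7) nil (node (nat_lit 4)
  (nat_lit 122320) (nat_lit 7) nil nil)) (node (nat_lit 7) (nat_lit 130924) (nat_lit 6) nil (node
  (nat_lit 4) (nat_lit 124791) (nat_lit 6) (node (nat_lit 3) (nat_lit 117000) (nat_lit 7) nil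
  (node (nat_lit 5) (nat_lit 122320) (nat_lit 7) nil nil)) (node (nat_lit 3) (nat_lit 122171)
  (nat_lit 6) (node (nat_lit 5) (nat_lit 114329) (nat_lit 7) nil (node (nat_lit 4) (nat_lit
  126764) (nat_lit 7) nil nil)) (node (nat_lit 0) (nat_lit 130012) (nat_lit 6) nil nil)))))) (node
  (nat_lit 6) (nat_lit 0) (nat_lit 5) (node (nat_lit 0) (nat_lit 128455) (nat_lit 6) nil (node
  (nat_lit 3) (nat_lit 120040) (nat_lit 6) (node (nat_lit 5) (nat_lit 112198) (nat_lit 7) nil nil)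
  (node (nat_lit 4) (nat_lit 130081) (nat_lit 6) (node (nat_lit 3) (nat_lit 117723) (nat_lit 7)
  nil nil) (node (nat_lit 5) (nat_lit 128302) (nat_lit 6) (node (nat_lit 3) (nat_lit 113003)
  (nat_lit 7) nil nil) nil)))) (node (nat_lit 3) (nat_lit 0) (nat_lit 5) (node (nat_lit 5)
  (nat_lit 118790) (nat_lit 6) (node (nat_lit 4) (nat_lit 107686) (nat_lit 7) (node (nat_lit 5)
  (nat_lit 88973) (nat_lit 8) nil (node (nat_lit 8) (nat_lit 103826) (nat_lit 8) nil nil)) (node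
  (nat_lit 8) (nat_lit 118739) (nat_lit 7) (node (nat_lit 4) (nat_lit 111867) (nat_lit 8) (node
  (nat_lit 5) (nat_lit 84101) (nat_lit 9) nil nil) nil) nil)) (node (nat_lit 4) (nat_lit 129305)
  (nat_lit 6) (node (nat_lit 8) (nat_lit 127792) (nat_lit 7) (node (nat_lit 5) (nat_lit 122011)
  (nat_lit 8) nil nil) (node (nat_lit 5) (nat_lit 133898) (nat_lit 7) nil nil)) (node (nat_lit 6)
  (nat_lit 127575) (nat_lit 6) nil (node (nat_lit 0) (nat_lit 127575) (nat_lit 6) nil (node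
  (nat_lit 7) (nat_lit 127575) (nat_lit 6) nil nil))))) (node (nat_lit 5) (nat_lit 117769)
  (nat_lit 5) (node (nat_lit 3) (nat_lit 115719) (nat_lit 6) (node (nat_lit 4) (nat_lit 113378)
  (nat_lit 7) (node (nat_lit 9) (nat_lit 111751) (nat_lit 8) nil (node (nat_lit 5) (nat_lit 85408)
  (nat_lit 8) nil nil)) (node (nat_lit 5) (nat_lit 114942) (nat_lit 7) (node (nat_lit 4) (nat_lit
  107001) (nat_lit 8) nil nil) nil)) (node (nat_lit 4) (nat_lit 125956) (nat_lit 6) (node (nat_lit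
  3) (nat_lit 119507) (nat_lit 7) (node (nat_lit 4) (nat_lit 104844) (nat_lit 8) (node (nat_lit 5)
  (nat_lit 96463) (nat_lit 9) nil nil) (node (nat_lit 5) (nat_lit 113726) (nat_lit 8) nil nil))
  (node (nat_lit 5) (nat_lit 123519) (nat_lit 7) nil nil)) nil)) (node (nat_lit 4) (nat_lit 0)
  (nat_lit 5) (node (nat_lit 3) (nat_lit 118530) (nat_lit 6) (node (nat_lit 4) (nat_lit 110116)
  (nat_lit 7) (node (nat_lit 5) (nat_lit 80891) (nat_lit 8) nil nil) (node (nat_lit 5) (nat_lit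
  114084) (nat_lit 7) (node (nat_lit 4) (nat_lit 106052) (nat_lit 8) nil (node (nat_lit 9)
  (nat_lit 107445) (nat_lit 8) nil nil)) nil)) (node (nat_lit 5) (nat_lit 127356) (nat_lit 6)
  (node (nat_lit 3) (nat_lit 122128) (nat_lit 7) (node (nat_lit 4) (nat_lit 116450) (nat_lit 8)
  nil (node (nat_lit 5) (nat_lit 121595) (nat_lit 8) nil nil)) (node (nat_lit 4) (nat_lit 125408)
  (nat_lit 7) (node (nat_lit 3) (nat_lit 121299) (nat_lit 8) nil nil) nil)) (node (nat_lit 6)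
  (nat_lit 128209) (nat_lit 6) nil (node (nat_lit 0) (nat_lit 128209) (nat_lit 6) nil (node
  (nat_lit 7) (nat_lit 128209) (nat_lit 6) nil nil))))) nil))))) nil)))

noncomputable def t350 : Tr :=
  (node (nat_lit 4) (nat_lit 0) (nat_lit 3) (node (nat_lit 3) (nat_lit 0) (nat_lit 4) t348 (node
  (nat_lit 0) (nat_lit 0) (nat_lit 4) (node (nat_lit 3) (nat_lit 0) (nat_lit 5) (node (nat_lit 4)
  (nat_lit 0) (nat_lit 6) (node (nat_lit 8) (nat_lit 92416) (nat_lit 7) (node (nat_lit 5) (nat_lit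
  92416) (nat_lit 8) (node (nat_lit 8) (nat_lit 92416) (nat_lit 9) nil nil) (node (nat_lit 7)
  (nat_lit 92416) (nat_lit 8) (node (nat_lit 4) (nat_lit 92416) (nat_lit 9) (node (nat_lit 8)
  (nat_lit 92416) (nat_lit 10) (node (nat_lit 4) (nat_lit 92416) (nat_lit 11) (node (nat_lit 5)
  (nat_lit 92210) (nat_lit 12) nil nil) nil) nil) nil) nil)) (node (nat_lit 7) (nat_lit 92416)
  (nat_lit 7) (node (nat_lit 4) (nat_lit 92416) (nat_lit 8) (node (nat_lit 8) (nat_lit 92416)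
  (nat_lit 9) (node (nat_lit 4) (nat_lit 91870) (nat_lit 10) (node (nat_lit 5) (nat_lit 89125)
  (nat_lit 11) (node (nat_lit 4) (nat_lit 81383) (nat_lit 12) (node (nat_lit 7) (nat_lit 73074)
  (nat_lit 13) (node (nat_lit 8) (nat_lit 56671) (nat_lit 14) nil nil) nil) nil) nil) nil) nil)
  (node (nat_lit 5) (nat_lit 91504) (nat_lit 8) (node (nat_lit 8) (nat_lit 91309) (nat_lit 9)
  (node (nat_lit 4) (nat_lit 88645) (nat_lit 10) (node (nat_lit 5) (nat_lit 85837) (nat_lit 11)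
  nil nil) nil) nil) nil)) (node (nat_lit 5) (nat_lit 92416) (nat_lit 7) (node (nat_lit 8)
  (nat_lit 92416) (nat_lit 8) nil (node (nat_lit 4) (nat_lit 92416) (nat_lit 8) (node (nat_lit 8)
  (nat_lit 92416) (nat_lit 9) (node (nat_lit 4) (nat_lit 90590) (nat_lit 10) nil nil) nil) nil))
  (node (nat_lit 0) (nat_lit 92416) (nat_lit 7) nil nil)))) (node (nat_lit 7) (nat_lit 0) (nat_lit
  6) (node (nat_lit 4) (nat_lit 92416) (nat_lit 7) (node (nat_lit 8) (nat_lit 91518) (nat_lit 8)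
  (node (nat_lit 4) (nat_lit 88001) (nat_lit 9) (node (nat_lit 5) (nat_lit 86141) (nat_lit 10)
  (node (nat_lit 4) (nat_lit 79566) (nat_lit 11) (node (nat_lit 7) (nat_lit 58462) (nat_lit 12)
  (node (nat_lit 8) (nat_lit 40513) (nat_lit 13) nil nil) nil) nil) nil) (node (nat_lit 5)
  (nat_lit 92416) (nat_lit 9) (node (nat_lit 8) (nat_lit 92416) (nat_lit 10) (node (nat_lit 4)
  (nat_lit 87114) (nat_lit 11) (node (nat_lit 5) (nat_lit 85440) (nat_lit 12) nil nil) nil) nil)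
  nil)) (node (nat_lit 5) (nat_lit 92416) (nat_lit 8) (node (nat_lit 8) (nat_lit 92416) (nat_lit
  9) nil nil) nil)) (node (nat_lit 5) (nat_lit 92416) (nat_lit 7) (node (nat_lit 8) (nat_lit
  92416) (nat_lit 8) (node (nat_lit 4) (nat_lit 89542) (nat_lit 9) (node (nat_lit 5) (nat_lit
  74475) (nat_lit 10) (node (nat_lit 4) (nat_lit 64272) (nat_lit 11) (node (nat_lit 7) (nat_lit
  43775) (nat_lit 12) (node (nat_lit 8) (nat_lit 19913) (nat_lit 13) nil nil) nil) nil) nil) (node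
  (nat_lit 5) (nat_lit 92416) (nat_lit 9) nil nil)) (node (nat_lit 4) (nat_lit 90832) (nat_lit 8)
  nil nil)) (node (nat_lit 0) (nat_lit 92416) (nat_lit 7) nil nil))) (node (nat_lit 5) (nat_lit
  92416) (nat_lit 6) (node (nat_lit 4) (nat_lit 90029) (nat_lit 7) (node (nat_lit 8) (nat_lit
  86655) (nat_lit 8) (node (nat_lit 4) (nat_lit 82306) (nat_lit 9) (node (nat_lit 5) (nat_lit
  77391) (nat_lit 10) (node (nat_lit 4) (nat_lit 65260) (nat_lit 11) (node (nat_lit 7) (nat_lit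
  46314) (nat_lit 12) nil nil) nil) nil) nil) (node (nat_lit 5) (nat_lit 87537) (nat_lit 8) (node
  (nat_lit 8) (nat_lit 87417) (nat_lit 9) (node (nat_lit 4) (nat_lit 84989) (nat_lit 10) nil nil)
  nil) nil)) (node (nat_lit 8) (nat_lit 90473) (nat_lit 7) (node (nat_lit 4) (nat_lit 85724)
  (nat_lit 8) (node (nat_lit 5) (nat_lit 74387) (nat_lit 9) (node (nat_lit 4) (nat_lit 63904)
  (nat_lit 10) (node (nat_lit 7) (nat_lit 33627) (nat_lit 11) nil (node (nat_lit 8) (nat_lit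
  61046) (nat_lit 11) nil nil)) nil) nil) nil) (node (nat_lit 7) (nat_lit 92416) (nat_lit 7) nil
  nil))) (node (nat_lit 0) (nat_lit 91257) (nat_lit 6) (node (nat_lit 8) (nat_lit 92416) (nat_lit
  7) nil (node (nat_lit 4) (nat_lit 87000) (nat_lit 7) nil (node (nat_lit 5) (nat_lit 87000)
  (nat_lit 7) nil nil))) nil)))) (node (nat_lit 5) (nat_lit 0) (nat_lit 5) (node (nat_lit 7)
  (nat_lit 0) (nat_lit 6) (node (nat_lit 4) (nat_lit 64573) (nat_lit 7) (node (nat_lit 5) (nat_lit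
  79817) (nat_lit 8) (node (nat_lit 4) (nat_lit 84346) (nat_lit 9) (node (nat_lit 3) (nat_lit
  86159) (nat_lit 10) (node (nat_lit 4) (nat_lit 85431) (nat_lit 11) (node (nat_lit 5) (nat_lit
  83639) (nat_lit 12) nil nil) nil) (node (nat_lit 7) (nat_lit 85095) (nat_lit 10) nil nil)) (node
  (nat_lit 3) (nat_lit 87401) (nat_lit 9) (node (nat_lit 5) (nat_lit 87772) (nat_lit 10) nil (node
  (nat_lit 4) (nat_lit 84012) (nat_lit 10) (node (nat_lit 5) (nat_lit 83835) (nat_lit 11) (node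
  (nat_lit 4) (nat_lit 79816) (nat_lit 12) nil nil) nil) nil)) (node (nat_lit 0) (nat_lit 87984)
  (nat_lit 9) nil (node (nat_lit 7) (nat_lit 80837) (nat_lit 9) nil nil)))) (node (nat_lit 3)
  (nat_lit 86983) (nat_lit 8) (node (nat_lit 4) (nat_lit 79576) (nat_lit 9) (node (nat_lit 5)
  (nat_lit 76776) (nat_lit 10) (node (nat_lit 4) (nat_lit 48466) (nat_lit 11) (node (nat_lit 7)
  (nat_lit 31162) (nat_lit 12) nil nil) nil) nil) nil) (node (nat_lit 7) (nat_lit 79530) (nat_lit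
  8) (node (nat_lit 5) (nat_lit 83858) (nat_lit 9) (node (nat_lit 4) (nat_lit 81558) (nat_lit 10)
  nil nil) (node (nat_lit 3) (nat_lit 87676) (nat_lit 9) nil (node (nat_lit 0) (nat_lit 80550)
  (nat_lit 9) nil nil))) (node (nat_lit 0) (nat_lit 87426) (nat_lit 8) nil nil)))) (node (nat_lit
  3) (nat_lit 92302) (nat_lit 7) (node (nat_lit 5) (nat_lit 89880) (nat_lit 8) (node (nat_lit 10)
  (nat_lit 89685) (nat_lit 9) (node (nat_lit 4) (nat_lit 87338) (nat_lit 10) (node (nat_lit 5)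
  (nat_lit 84402) (nat_lit 11) nil nil) nil) (node (nat_lit 4) (nat_lit 87082) (nat_lit 9) nil
  nil)) (node (nat_lit 4) (nat_lit 92416) (nat_lit 8) nil nil)) (node (nat_lit 0) (nat_lit 85954)
  (nat_lit 7) nil nil))) (node (nat_lit 4) (nat_lit 0) (nat_lit 6) (node (nat_lit 5) (nat_lit
  64481) (nat_lit 7) (node (nat_lit 7) (nat_lit 78230) (nat_lit 8) (node (nat_lit 4) (nat_lit
  82708) (nat_lit 9) (node (nat_lit 5) (nat_lit 80408) (nat_lit 10) nil nil) (node (nat_lit 5)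
  (nat_lit 82708) (nat_lit 9) (node (nat_lit 3) (nat_lit 79439) (nat_lit 10) nil nil) (node
  (nat_lit 3) (nat_lit 79251) (nat_lit 9) nil nil))) (node (nat_lit 3) (nat_lit 84185) (nat_lit 8)
  (node (nat_lit 4) (nat_lit 82211) (nat_lit 9) (node (nat_lit 11) (nat_lit 82582) (nat_lit 10)
  nil (node (nat_lit 5) (nat_lit 79299) (nat_lit 10) nil nil)) nil) (node (nat_lit 0) (nat_lit
  82890) (nat_lit 8) nil nil))) (node (nat_lit 3) (nat_lit 86121) (nat_lit 7) (node (nat_lit 5)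
  (nat_lit 84496) (nat_lit 8) (node (nat_lit 10) (nat_lit 84401) (nat_lit 9) (node (nat_lit 4)
  (nat_lit 82987) (nat_lit 10) nil nil) nil) (node (nat_lit 4) (nat_lit 82982) (nat_lit 8) (node
  (nat_lit 5) (nat_lit 74352) (nat_lit 9) (node (nat_lit 4) (nat_lit 25900) (nat_lit 10) nil nil)
  nil) nil)) (node (nat_lit 0) (nat_lit 84973) (nat_lit 7) nil nil))) (node (nat_lit 3) (nat_lit
  87762) (nat_lit 6) (node (nat_lit 4) (nat_lit 82821) (nat_lit 7) (node (nat_lit 5) (nat_lit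
  68581) (nat_lit 8) (node (nat_lit 4) (nat_lit 37520) (nat_lit 9) (node (nat_lit 9) (nat_lit
  33761) (nat_lit 10) nil nil) (node (nat_lit 9) (nat_lit 69602) (nat_lit 9) nil nil)) (node
  (nat_lit 9) (nat_lit 83565) (nat_lit 8) nil nil)) (node (nat_lit 5) (nat_lit 89022) (nat_lit 7)
  (node (nat_lit 4) (nat_lit 87397) (nat_lit 8) (node (nat_lit 9) (nat_lit 87302) (nat_lit 9)
  (node (nat_lit 4) (nat_lit 85889) (nat_lit 10) nil nil) nil) nil) (node (nat_lit 7) (nat_lit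
  89022) (nat_lit 7) nil nil))) (node (nat_lit 0) (nat_lit 91042) (nat_lit 6) (node (nat_lit 5)
  (nat_lit 88799) (nat_lit 7) nil (node (nat_lit 4) (nat_lit 88799) (nat_lit 7) nil (node (nat_lit
  3) (nat_lit 92302) (nat_lit 7) nil nil))) nil)))) (node (nat_lit 0) (nat_lit 0) (nat_lit 5)
  (node (nat_lit 7) (nat_lit 0) (nat_lit 6) (node (nat_lit 4) (nat_lit 84763) (nat_lit 7) (node
  (nat_lit 8) (nat_lit 86235) (nat_lit 8) (node (nat_lit 7) (nat_lit 87256) (nat_lit 9) nil (node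
  (nat_lit 4) (nat_lit 83438) (nat_lit 9) (node (nat_lit 7) (nat_lit 84214) (nat_lit 10) nil (node
  (nat_lit 3) (nat_lit 83497) (nat_lit 10) nil nil)) nil)) (node (nat_lit 7) (nat_lit 86235)
  (nat_lit 8) nil (node (nat_lit 3) (nat_lit 84404) (nat_lit 8) nil (node (nat_lit 5) (nat_lit
  81345) (nat_lit 8) nil nil)))) (node (nat_lit 3) (nat_lit 91348) (nat_lit 7) nil (node (nat_lit
  5) (nat_lit 84763) (nat_lit 7) (node (nat_lit 4) (nat_lit 81345) (nat_lit 8) nil (node (nat_lit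
  3) (nat_lit 82058) (nat_lit 8) nil (node (nat_lit 8) (nat_lit 86235) (nat_lit 8) nil nil)))
  (node (nat_lit 0) (nat_lit 91348) (nat_lit 7) nil nil)))) (node (nat_lit 4) (nat_lit 0) (nat_lit
  6) (node (nat_lit 8) (nat_lit 91154) (nat_lit 7) (node (nat_lit 7) (nat_lit 92416) (nat_lit 8)
  (node (nat_lit 8) (nat_lit 92416) (nat_lit 9) nil nil) (node (nat_lit 0) (nat_lit 92416)
  (nat_lit 8) nil nil)) (node (nat_lit 5) (nat_lit 87488) (nat_lit 7) nil (node (nat_lit 3)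
  (nat_lit 88003) (nat_lit 7) (node (nat_lit 4) (nat_lit 76441) (nat_lit 8) nil nil) (node
  (nat_lit 0) (nat_lit 90418) (nat_lit 7) nil (node (nat_lit 7) (nat_lit 90418) (nat_lit 7) nil
  nil))))) (node (nat_lit 5) (nat_lit 89446) (nat_lit 6) (node (nat_lit 3) (nat_lit 85688)
  (nat_lit 7) (node (nat_lit 4) (nat_lit 71169) (nat_lit 8) nil nil) (node (nat_lit 4) (nat_lit
  87690) (nat_lit 7) nil nil)) (node (nat_lit 3) (nat_lit 92400) (nat_lit 6) (node (nat_lit 4)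
  (nat_lit 92416) (nat_lit 7) nil (node (nat_lit 5) (nat_lit 88142) (nat_lit 7) nil nil)) (node
  (nat_lit 0) (nat_lit 92400) (nat_lit 6) nil nil))))) (node (nat_lit 4) (nat_lit 0) (nat_lit 5)
  (node (nat_lit 3) (nat_lit 0) (nat_lit 6) (node (nat_lit 4) (nat_lit 75614) (nat_lit 7) (node
  (nat_lit 5) (nat_lit 74542) (nat_lit 8) (node (nat_lit 4) (nat_lit 50741) (nat_lit 9) nil nil)
  (node (nat_lit 7) (nat_lit 77086) (nat_lit 8) (node (nat_lit 4) (nat_lit 74289) (nat_lit 9) nil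
  (node (nat_lit 9) (nat_lit 78107) (nat_lit 9) nil nil)) nil)) (node (nat_lit 5) (nat_lit 85840)
  (nat_lit 7) (node (nat_lit 9) (nat_lit 85447) (nat_lit 8) (node (nat_lit 4) (nat_lit 83661)
  (nat_lit 9) (node (nat_lit 5) (nat_lit 78462) (nat_lit 10) (node (nat_lit 4) (nat_lit 65832)
  (nat_lit 11) nil nil) nil) nil) (node (nat_lit 4) (nat_lit 84168) (nat_lit 8) (node (nat_lit 9)
  (nat_lit 83973) (nat_lit 9) (node (nat_lit 4) (nat_lit 81958) (nat_lit 10) nil nil) nil) nil))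
  (node (nat_lit 7) (nat_lit 89022) (nat_lit 7) nil (node (nat_lit 0) (nat_lit 89022) (nat_lit 7)
  nil nil)))) (node (nat_lit 5) (nat_lit 0) (nat_lit 6) (node (nat_lit 3) (nat_lit 83743) (nat_lit
  7) (node (nat_lit 4) (nat_lit 81030) (nat_lit 8) (node (nat_lit 5) (nat_lit 69703) (nat_lit 9)
  (node (nat_lit 4) (nat_lit 23498) (nat_lit 10) (node (nat_lit 7) (nat_lit 3639) (nat_lit 11) nil
  nil) nil) nil) (node (nat_lit 5) (nat_lit 85215) (nat_lit 8) nil nil)) (node (nat_lit 4)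
  (nat_lit 64437) (nat_lit 7) (node (nat_lit 3) (nat_lit 83662) (nat_lit 8) (node (nat_lit 4)
  (nat_lit 76139) (nat_lit 9) (node (nat_lit 5) (nat_lit 70785) (nat_lit 10) nil nil) nil) nil)
  (node (nat_lit 7) (nat_lit 64363) (nat_lit 7) (node (nat_lit 5) (nat_lit 76762) (nat_lit 8)
  (node (nat_lit 4) (nat_lit 78759) (nat_lit 9) nil nil) (node (nat_lit 4) (nat_lit 60945)
  (nat_lit 8) nil (node (nat_lit 3) (nat_lit 65835) (nat_lit 8) nil nil))) (node (nat_lit 0)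
  (nat_lit 64437) (nat_lit 7) nil nil)))) (node (nat_lit 0) (nat_lit 0) (nat_lit 6) (node (nat_lit
  4) (nat_lit 88551) (nat_lit 7) (node (nat_lit 3) (nat_lit 88192) (nat_lit 8) nil nil) (node
  (nat_lit 3) (nat_lit 92302) (nat_lit 7) (node (nat_lit 4) (nat_lit 92416) (nat_lit 8) nil nil)
  (node (nat_lit 5) (nat_lit 88551) (nat_lit 7) (node (nat_lit 4) (nat_lit 85133) (nat_lit 8) nil
  nil) (node (nat_lit 7) (nat_lit 92302) (nat_lit 7) nil (node (nat_lit 0) (nat_lit 92302)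
  (nat_lit 7) nil nil))))) nil))) nil)))) nil)) (node (nat_lit 0) (nat_lit 0) (nat_lit 3) (node
  (nat_lit 3) (nat_lit 0) (nat_lit 4) (node (nat_lit 6) (nat_lit 0) (nat_lit 5) (node (nat_lit 5)
  (nat_lit 0) (nat_lit 6) (node (nat_lit 7) (nat_lit 113702) (nat_lit 7) (node (nat_lit 5)
  (nat_lit 117113) (nat_lit 8) (node (nat_lit 6) (nat_lit 119127) (nat_lit 9) nil (node (nat_lit
  4) (nat_lit 121025) (nat_lit 9) (node (nat_lit 5) (nat_lit 116900) (nat_lit 10) nil (node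
  (nat_lit 7) (nat_lit 121177) (nat_lit 10) nil nil)) nil)) (node (nat_lit 4) (nat_lit 123299)
  (nat_lit 8) (node (nat_lit 5) (nat_lit 119044) (nat_lit 9) (node (nat_lit 6) (nat_lit 96940)
  (nat_lit 10) (node (nat_lit 7) (nat_lit 71596) (nat_lit 11) (node (nat_lit 6) (nat_lit 32744)
  (nat_lit 12) nil nil) nil) nil) nil) (node (nat_lit 6) (nat_lit 116609) (nat_lit 8) nil (node
  (nat_lit 0) (nat_lit 116609) (nat_lit 8) nil nil)))) (node (nat_lit 4) (nat_lit 125984) (nat_lit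
  7) (node (nat_lit 7) (nat_lit 123852) (nat_lit 8) (node (nat_lit 5) (nat_lit 121637) (nat_lit 9)
  (node (nat_lit 4) (nat_lit 121243) (nat_lit 10) (node (nat_lit 5) (nat_lit 118959) (nat_lit 11)
  nil nil) nil) (node (nat_lit 4) (nat_lit 123042) (nat_lit 9) (node (nat_lit 5) (nat_lit 120496)
  (nat_lit 10) nil nil) nil)) (node (nat_lit 5) (nat_lit 124913) (nat_lit 8) (node (nat_lit 7)
  (nat_lit 123309) (nat_lit 9) nil nil) nil)) (node (nat_lit 6) (nat_lit 113702) (nat_lit 7) (node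
  (nat_lit 7) (nat_lit 115979) (nat_lit 8) (node (nat_lit 5) (nat_lit 121160) (nat_lit 9) nil nil)
  (node (nat_lit 4) (nat_lit 111361) (nat_lit 8) nil nil)) (node (nat_lit 0) (nat_lit 129397)
  (nat_lit 7) nil nil)))) (node (nat_lit 4) (nat_lit 127175) (nat_lit 6) (node (nat_lit 5)
  (nat_lit 125984) (nat_lit 7) (node (nat_lit 7) (nat_lit 123852) (nat_lit 8) (node (nat_lit 5)
  (nat_lit 123596) (nat_lit 9) (node (nat_lit 4) (nat_lit 121623) (nat_lit 10) (node (nat_lit 5)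
  (nat_lit 118297) (nat_lit 11) nil nil) nil) (node (nat_lit 4) (nat_lit 123042) (nat_lit 9) (node
  (nat_lit 5) (nat_lit 120496) (nat_lit 10) nil nil) nil)) (node (nat_lit 4) (nat_lit 124913)
  (nat_lit 8) nil nil)) (node (nat_lit 7) (nat_lit 124193) (nat_lit 7) (node (nat_lit 4) (nat_lit
  123299) (nat_lit 8) (node (nat_lit 5) (nat_lit 119044) (nat_lit 9) (node (nat_lit 6) (nat_lit
  84606) (nat_lit 10) (node (nat_lit 7) (nat_lit 64280) (nat_lit 11) nil nil) nil) nil) (node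
  (nat_lit 5) (nat_lit 121253) (nat_lit 8) (node (nat_lit 4) (nat_lit 114381) (nat_lit 9) (node
  (nat_lit 5) (nat_lit 106484) (nat_lit 10) nil nil) (node (nat_lit 7) (nat_lit 121343) (nat_lit
  9) nil nil)) nil)) nil)) (node (nat_lit 0) (nat_lit 129333) (nat_lit 6) (node (nat_lit 5)
  (nat_lit 126862) (nat_lit 7) (node (nat_lit 7) (nat_lit 122752) (nat_lit 8) nil nil) (node
  (nat_lit 7) (nat_lit 127820) (nat_lit 7) nil (node (nat_lit 4) (nat_lit 126862) (nat_lit 7)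
  (node (nat_lit 7) (nat_lit 122752) (nat_lit 8) nil nil) nil))) nil))) (node (nat_lit 4) (nat_lit
  0) (nat_lit 5) (node (nat_lit 5) (nat_lit 131995) (nat_lit 6) (node (nat_lit 7) (nat_lit 130798)
  (nat_lit 7) (node (nat_lit 5) (nat_lit 130264) (nat_lit 8) (node (nat_lit 4) (nat_lit 123941)
  (nat_lit 9) (node (nat_lit 5) (nat_lit 116483) (nat_lit 10) nil (node (nat_lit 7) (nat_lit
  124324) (nat_lit 10) nil nil)) nil) nil) (node (nat_lit 6) (nat_lit 34228) (nat_lit 7) (node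
  (nat_lit 5) (nat_lit 35521) (nat_lit 8) nil nil) (node (nat_lit 4) (nat_lit 130803) (nat_lit 7)
  (node (nat_lit 7) (nat_lit 128672) (nat_lit 8) (node (nat_lit 5) (nat_lit 124726) (nat_lit 9)
  (node (nat_lit 7) (nat_lit 125109) (nat_lit 10) (node (nat_lit 4) (nat_lit 124640) (nat_lit 11)
  (node (nat_lit 5) (nat_lit 123381) (nat_lit 12) nil nil) nil) nil) nil) nil) nil))) (node
  (nat_lit 6) (nat_lit 131962) (nat_lit 6) (node (nat_lit 5) (nat_lit 130803) (nat_lit 7) (node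
  (nat_lit 4) (nat_lit 129732) (nat_lit 8) (node (nat_lit 7) (nat_lit 128129) (nat_lit 9) nil nil)
  (node (nat_lit 7) (nat_lit 125211) (nat_lit 8) (node (nat_lit 4) (nat_lit 122985) (nat_lit 9)
  (node (nat_lit 5) (nat_lit 118919) (nat_lit 10) (node (nat_lit 6) (nat_lit 109873) (nat_lit 11)
  (node (nat_lit 7) (nat_lit 92856) (nat_lit 12) nil nil) nil) nil) nil) nil)) (node (nat_lit 4)
  (nat_lit 130803) (nat_lit 7) (node (nat_lit 7) (nat_lit 126863) (nat_lit 8) (node (nat_lit 4)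
  (nat_lit 115548) (nat_lit 9) (node (nat_lit 5) (nat_lit 111481) (nat_lit 10) nil nil) nil) (node
  (nat_lit 5) (nat_lit 129732) (nat_lit 8) (node (nat_lit 7) (nat_lit 127187) (nat_lit 9) nil nil)
  nil)) (node (nat_lit 7) (nat_lit 130449) (nat_lit 7) (node (nat_lit 5) (nat_lit 124668) (nat_lit
  8) (node (nat_lit 4) (nat_lit 118345) (nat_lit 9) nil nil) nil) nil))) (node (nat_lit 7)
  (nat_lit 127677) (nat_lit 6) (node (nat_lit 5) (nat_lit 123730) (nat_lit 7) (node (nat_lit 4)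
  (nat_lit 116533) (nat_lit 8) (node (nat_lit 5) (nat_lit 105729) (nat_lit 9) nil nil) (node
  (nat_lit 7) (nat_lit 123794) (nat_lit 8) (node (nat_lit 4) (nat_lit 122503) (nat_lit 9) (node
  (nat_lit 5) (nat_lit 118681) (nat_lit 10) nil nil) nil) nil)) nil) (node (nat_lit 0) (nat_lit
  129316) (nat_lit 6) nil nil)))) (node (nat_lit 5) (nat_lit 0) (nat_lit 5) (node (nat_lit 4)
  (nat_lit 108489) (nat_lit 6) (node (nat_lit 7) (nat_lit 110184) (nat_lit 7) (node (nat_lit 4)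
  (nat_lit 106916) (nat_lit 8) (node (nat_lit 5) (nat_lit 100871) (nat_lit 9) (node (nat_lit 6)
  (nat_lit 65326) (nat_lit 10) (node (nat_lit 7) (nat_lit 45000) (nat_lit 11) (node (nat_lit 5)
  (nat_lit 32839) (nat_lit 12) (node (nat_lit 4) (nat_lit 13083) (nat_lit 13) nil nil) nil) nil)
  nil) nil) (node (nat_lit 5) (nat_lit 108685) (nat_lit 8) (node (nat_lit 7) (nat_lit 108893)
  (nat_lit 9) (node (nat_lit 4) (nat_lit 107898) (nat_lit 10) (node (nat_lit 5) (nat_lit 105135)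
  (nat_lit 11) nil nil) nil) nil) nil)) (node (nat_lit 5) (nat_lit 89397) (nat_lit 7) (node
  (nat_lit 7) (nat_lit 86995) (nat_lit 8) (node (nat_lit 4) (nat_lit 84745) (nat_lit 9) (node
  (nat_lit 7) (nat_lit 85367) (nat_lit 10) (node (nat_lit 5) (nat_lit 83941) (nat_lit 11) nil nil)
  nil) nil) (node (nat_lit 6) (nat_lit 89250) (nat_lit 8) nil nil)) (node (nat_lit 6) (nat_lit
  113082) (nat_lit 7) nil nil))) (node (nat_lit 6) (nat_lit 0) (nat_lit 6) (node (nat_lit 5)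
  (nat_lit 113706) (nat_lit 7) (node (nat_lit 7) (nat_lit 115975) (nat_lit 8) (node (nat_lit 4)
  (nat_lit 122055) (nat_lit 9) (node (nat_lit 5) (nat_lit 117503) (nat_lit 10) nil nil) nil) (node
  (nat_lit 4) (nat_lit 124114) (nat_lit 8) (node (nat_lit 7) (nat_lit 121677) (nat_lit 9) (node
  (nat_lit 4) (nat_lit 121046) (nat_lit 10) nil nil) nil) nil)) (node (nat_lit 4) (nat_lit 125184)
  (nat_lit 7) (node (nat_lit 5) (nat_lit 123155) (nat_lit 8) (node (nat_lit 7) (nat_lit 119811)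
  (nat_lit 9) (node (nat_lit 4) (nat_lit 119180) (nat_lit 10) nil nil) nil) (node (nat_lit 7)
  (nat_lit 122467) (nat_lit 8) (node (nat_lit 4) (nat_lit 113759) (nat_lit 9) nil (node (nat_lit
  5) (nat_lit 117853) (nat_lit 9) nil nil)) nil)) (node (nat_lit 0) (nat_lit 126091) (nat_lit 7)
  nil nil))) (node (nat_lit 7) (nat_lit 109129) (nat_lit 6) (node (nat_lit 4) (nat_lit 112075)
  (nat_lit 7) (node (nat_lit 5) (nat_lit 102862) (nat_lit 8) (node (nat_lit 6) (nat_lit 73449)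
  (nat_lit 9) nil nil) (node (nat_lit 7) (nat_lit 111130) (nat_lit 8) (node (nat_lit 5) (nat_lit
  107731) (nat_lit 9) (node (nat_lit 4) (nat_lit 104316) (nat_lit 10) nil nil) nil) nil)) (node
  (nat_lit 6) (nat_lit 113723) (nat_lit 7) (node (nat_lit 7) (nat_lit 112095) (nat_lit 8) nil nil)
  nil)) (node (nat_lit 0) (nat_lit 120351) (nat_lit 6) nil nil)))) (node (nat_lit 0) (nat_lit 0)
  (nat_lit 5) (node (nat_lit 7) (nat_lit 126395) (nat_lit 6) (node (nat_lit 5) (nat_lit 115199)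
  (nat_lit 7) (node (nat_lit 4) (nat_lit 102810) (nat_lit 8) (node (nat_lit 5) (nat_lit 92006)
  (nat_lit 9) nil nil) nil) (node (nat_lit 4) (nat_lit 129899) (nat_lit 7) nil nil)) (node
  (nat_lit 4) (nat_lit 126128) (nat_lit 6) (node (nat_lit 7) (nat_lit 120376) (nat_lit 7) (node
  (nat_lit 4) (nat_lit 113971) (nat_lit 8) nil nil) (node (nat_lit 5) (nat_lit 123657) (nat_lit 7)
  nil nil)) (node (nat_lit 5) (nat_lit 126128) (nat_lit 6) (node (nat_lit 7) (nat_lit 120376)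
  (nat_lit 7) (node (nat_lit 4) (nat_lit 115035) (nat_lit 8) nil nil) (node (nat_lit 4) (nat_lit
  123657) (nat_lit 7) nil nil)) (node (nat_lit 0) (nat_lit 127147) (nat_lit 6) nil (node (nat_lit
  6) (nat_lit 127147) (nat_lit 6) nil nil))))) nil)))) t349) nil))

noncomputable def c23 : Tr :=
  (node (nat_lit 3) (nat_lit 0) (nat_lit 1) (node (nat_lit 3) (nat_lit 0) (nat_lit 2) (node
  (nat_lit 3) (nat_lit 0) (nat_lit 3) (node (nat_lit 4) (nat_lit 0) (nat_lit 4) t346 t347) t350)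
  nil) nil)

noncomputable def t351 : Tr :=
  (node (nat_lit 6) (nat_lit 0) (nat_lit 5) (node (nat_lit 5) (nat_lit 56043) (nat_lit 6) (node
  (nat_lit 7) (nat_lit 63459) (nat_lit 7) (node (nat_lit 6) (nat_lit 64361) (nat_lit 8) (node
  (nat_lit 7) (nat_lit 68772) (nat_lit 9) (node (nat_lit 5) (nat_lit 69981) (nat_lit 10) (node
  (nat_lit 6) (nat_lit 70464) (nat_lit 11) (node (nat_lit 5) (nat_lit 71253) (nat_lit 12) (node
  (nat_lit 7) (nat_lit 71790) (nat_lit 13) nil (node (nat_lit 4) (nat_lit 70647) (nat_lit 13) nil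
  nil)) (node (nat_lit 4) (nat_lit 70792) (nat_lit 12) nil (node (nat_lit 7) (nat_lit 71089)
  (nat_lit 12) nil nil))) (node (nat_lit 7) (nat_lit 70874) (nat_lit 11) (node (nat_lit 6)
  (nat_lit 70874) (nat_lit 12) nil nil) (node (nat_lit 4) (nat_lit 70760) (nat_lit 11) nil (node
  (nat_lit 0) (nat_lit 70679) (nat_lit 11) nil nil)))) (node (nat_lit 4) (nat_lit 71500) (nat_lit
  10) (node (nat_lit 6) (nat_lit 70959) (nat_lit 11) nil (node (nat_lit 5) (nat_lit 71871)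
  (nat_lit 11) nil nil)) (node (nat_lit 0) (nat_lit 70505) (nat_lit 10) nil nil))) (node (nat_lit
  0) (nat_lit 72051) (nat_lit 9) (node (nat_lit 6) (nat_lit 72246) (nat_lit 10) nil (node (nat_lit
  7) (nat_lit 72422) (nat_lit 10) nil nil)) (node (nat_lit 4) (nat_lit 71240) (nat_lit 9) (node
  (nat_lit 6) (nat_lit 72246) (nat_lit 10) (node (nat_lit 5) (nat_lit 71237) (nat_lit 11) nil nil)
  (node (nat_lit 5) (nat_lit 71580) (nat_lit 10) nil (node (nat_lit 7) (nat_lit 72422) (nat_lit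
  10) nil (node (nat_lit 0) (nat_lit 72422) (nat_lit 10) nil nil)))) nil))) (node (nat_lit 5)
  (nat_lit 64361) (nat_lit 8) (node (nat_lit 6) (nat_lit 67209) (nat_lit 9) (node (nat_lit 7)
  (nat_lit 68043) (nat_lit 10) (node (nat_lit 5) (nat_lit 68632) (nat_lit 11) (node (nat_lit 7)
  (nat_lit 69701) (nat_lit 12) (node (nat_lit 6) (nat_lit 69701) (nat_lit 13) nil nil) nil) nil)
  (node (nat_lit 5) (nat_lit 67648) (nat_lit 10) nil (node (nat_lit 4) (nat_lit 68625) (nat_lit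
  10) nil nil))) (node (nat_lit 4) (nat_lit 68380) (nat_lit 9) (node (nat_lit 7) (nat_lit 69563)
  (nat_lit 10) nil nil) (node (nat_lit 0) (nat_lit 67160) (nat_lit 9) nil nil))) (node (nat_lit 4)
  (nat_lit 69045) (nat_lit 8) (node (nat_lit 5) (nat_lit 70347) (nat_lit 9) nil (node (nat_lit 7)
  (nat_lit 71158) (nat_lit 9) nil (node (nat_lit 6) (nat_lit 68253) (nat_lit 9) nil nil))) (node
  (nat_lit 0) (nat_lit 69645) (nat_lit 8) nil nil)))) (node (nat_lit 6) (nat_lit 57400) (nat_lit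
  7) (node (nat_lit 7) (nat_lit 61175) (nat_lit 8) (node (nat_lit 5) (nat_lit 62485) (nat_lit 9)
  (node (nat_lit 7) (nat_lit 64052) (nat_lit 10) (node (nat_lit 6) (nat_lit 64340) (nat_lit 11)
  (node (nat_lit 5) (nat_lit 64510) (nat_lit 12) (node (nat_lit 7) (nat_lit 65393) (nat_lit 13)
  (node (nat_lit 5) (nat_lit 65257) (nat_lit 14) nil nil) (node (nat_lit 6) (nat_lit 64877)
  (nat_lit 13) (node (nat_lit 4) (nat_lit 65041) (nat_lit 14) nil nil) (node (nat_lit 4) (nat_lit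
  65304) (nat_lit 13) nil (node (nat_lit 0) (nat_lit 65047) (nat_lit 13) nil nil)))) (node
  (nat_lit 7) (nat_lit 64964) (nat_lit 12) nil nil)) nil) (node (nat_lit 6) (nat_lit 63846)
  (nat_lit 10) (node (nat_lit 5) (nat_lit 64228) (nat_lit 11) (node (nat_lit 7) (nat_lit 65297)
  (nat_lit 12) (node (nat_lit 6) (nat_lit 65297) (nat_lit 13) nil nil) nil) (node (nat_lit 4)
  (nat_lit 64217) (nat_lit 11) nil nil)) (node (nat_lit 4) (nat_lit 62165) (nat_lit 10) nil (node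
  (nat_lit 0) (nat_lit 64248) (nat_lit 10) nil nil)))) (node (nat_lit 4) (nat_lit 64011) (nat_lit
  9) (node (nat_lit 6) (nat_lit 65100) (nat_lit 10) nil (node (nat_lit 7) (nat_lit 65193) (nat_lit
  10) nil (node (nat_lit 5) (nat_lit 64823) (nat_lit 10) nil nil))) (node (nat_lit 0) (nat_lit
  64823) (nat_lit 9) (node (nat_lit 7) (nat_lit 65193) (nat_lit 10) nil (node (nat_lit 5) (nat_lit
  64823) (nat_lit 10) nil (node (nat_lit 6) (nat_lit 64823) (nat_lit 10) nil nil))) nil))) (node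
  (nat_lit 4) (nat_lit 62286) (nat_lit 8) (node (nat_lit 5) (nat_lit 56808) (nat_lit 9) (node
  (nat_lit 6) (nat_lit 54029) (nat_lit 10) (node (nat_lit 7) (nat_lit 52504) (nat_lit 11) nil nil)
  nil) nil) (node (nat_lit 0) (nat_lit 61172) (nat_lit 8) nil nil))) (node (nat_lit 4) (nat_lit
  66379) (nat_lit 7) (node (nat_lit 6) (nat_lit 68131) (nat_lit 8) (node (nat_lit 5) (nat_lit
  70119) (nat_lit 9) (node (nat_lit 6) (nat_lit 70954) (nat_lit 10) (node (nat_lit 4) (nat_lit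
  71027) (nat_lit 11) (node (nat_lit 5) (nat_lit 68747) (nat_lit 12) nil (node (nat_lit 6)
  (nat_lit 70962) (nat_lit 12) nil nil)) nil) nil) (node (nat_lit 4) (nat_lit 66277) (nat_lit 9)
  (node (nat_lit 5) (nat_lit 63741) (nat_lit 10) (node (nat_lit 6) (nat_lit 55104) (nat_lit 11)
  (node (nat_lit 7) (nat_lit 47861) (nat_lit 12) (node (nat_lit 6) (nat_lit 47512) (nat_lit 13)
  nil nil) nil) nil) nil) nil)) (node (nat_lit 5) (nat_lit 69338) (nat_lit 8) (node (nat_lit 6)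
  (nat_lit 70640) (nat_lit 9) (node (nat_lit 7) (nat_lit 30952) (nat_lit 10) nil nil) (node
  (nat_lit 7) (nat_lit 71451) (nat_lit 9) nil nil)) (node (nat_lit 7) (nat_lit 70640) (nat_lit 8)
  (node (nat_lit 5) (nat_lit 70640) (nat_lit 9) nil nil) (node (nat_lit 0) (nat_lit 70640)
  (nat_lit 8) nil nil)))) (node (nat_lit 0) (nat_lit 68154) (nat_lit 7) (node (nat_lit 6) (nat_lit
  69056) (nat_lit 8) (node (nat_lit 5) (nat_lit 68165) (nat_lit 9) nil nil) (node (nat_lit 5)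
  (nat_lit 67747) (nat_lit 8) (node (nat_lit 6) (nat_lit 66955) (nat_lit 9) nil nil) (node
  (nat_lit 7) (nat_lit 70358) (nat_lit 8) nil (node (nat_lit 0) (nat_lit 70358) (nat_lit 8) nil
  (node (nat_lit 4) (nat_lit 69056) (nat_lit 8) nil nil))))) nil)))) (node (nat_lit 4) (nat_lit
  61870) (nat_lit 6) (node (nat_lit 6) (nat_lit 67229) (nat_lit 7) (node (nat_lit 7) (nat_lit
  71418) (nat_lit 8) (node (nat_lit 4) (nat_lit 71788) (nat_lit 9) (node (nat_lit 7) (nat_lit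
  72524) (nat_lit 10) (node (nat_lit 6) (nat_lit 72524) (nat_lit 11) (node (nat_lit 4) (nat_lit
  72524) (nat_lit 12) (node (nat_lit 6) (nat_lit 72524) (nat_lit 13) nil nil) nil) nil) (node
  (nat_lit 6) (nat_lit 72524) (nat_lit 10) (node (nat_lit 4) (nat_lit 72524) (nat_lit 11) nil nil)
  (node (nat_lit 5) (nat_lit 72524) (nat_lit 10) nil nil))) (node (nat_lit 5) (nat_lit 70859)
  (nat_lit 9) nil (node (nat_lit 0) (nat_lit 72229) (nat_lit 9) nil nil))) (node (nat_lit 5)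
  (nat_lit 70116) (nat_lit 8) (node (nat_lit 4) (nat_lit 64947) (nat_lit 9) (node (nat_lit 5)
  (nat_lit 55200) (nat_lit 10) (node (nat_lit 6) (nat_lit 48254) (nat_lit 11) (node (nat_lit 7)
  (nat_lit 30809) (nat_lit 12) (node (nat_lit 6) (nat_lit 30162) (nat_lit 13) nil nil) nil) nil)
  nil) (node (nat_lit 7) (nat_lit 72229) (nat_lit 9) nil nil)) (node (nat_lit 0) (nat_lit 71418)
  (nat_lit 8) nil nil))) (node (nat_lit 7) (nat_lit 69286) (nat_lit 7) (node (nat_lit 4) (nat_lit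
  70376) (nat_lit 8) (node (nat_lit 6) (nat_lit 72049) (nat_lit 9) (node (nat_lit 7) (nat_lit
  72524) (nat_lit 10) nil (node (nat_lit 4) (nat_lit 72524) (nat_lit 10) nil (node (nat_lit 5)
  (nat_lit 71148) (nat_lit 10) nil nil))) (node (nat_lit 5) (nat_lit 71678) (nat_lit 9) nil nil))
  (node (nat_lit 6) (nat_lit 70116) (nat_lit 8) (node (nat_lit 7) (nat_lit 72524) (nat_lit 9)
  (node (nat_lit 4) (nat_lit 72524) (nat_lit 10) nil nil) (node (nat_lit 5) (nat_lit 68667)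
  (nat_lit 9) nil (node (nat_lit 0) (nat_lit 72229) (nat_lit 9) nil nil))) (node (nat_lit 5)
  (nat_lit 70116) (nat_lit 8) (node (nat_lit 7) (nat_lit 72229) (nat_lit 9) nil (node (nat_lit 4)
  (nat_lit 69984) (nat_lit 9) nil (node (nat_lit 6) (nat_lit 69323) (nat_lit 9) nil nil))) (node
  (nat_lit 0) (nat_lit 71418) (nat_lit 8) nil nil)))) (node (nat_lit 5) (nat_lit 67229) (nat_lit
  7) (node (nat_lit 4) (nat_lit 68996) (nat_lit 8) (node (nat_lit 6) (nat_lit 67195) (nat_lit 9)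
  nil (node (nat_lit 7) (nat_lit 71200) (nat_lit 9) nil nil)) (node (nat_lit 6) (nat_lit 70116)
  (nat_lit 8) (node (nat_lit 4) (nat_lit 71418) (nat_lit 9) nil (node (nat_lit 5) (nat_lit 70269)
  (nat_lit 9) nil (node (nat_lit 7) (nat_lit 40869) (nat_lit 9) nil nil))) (node (nat_lit 7)
  (nat_lit 71418) (nat_lit 8) (node (nat_lit 4) (nat_lit 71418) (nat_lit 9) nil nil) (node
  (nat_lit 0) (nat_lit 71418) (nat_lit 8) nil nil)))) (node (nat_lit 0) (nat_lit 69524) (nat_lit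
  7) (node (nat_lit 6) (nat_lit 68525) (nat_lit 8) (node (nat_lit 4) (nat_lit 69827) (nat_lit 9)
  nil nil) (node (nat_lit 4) (nat_lit 70237) (nat_lit 8) nil (node (nat_lit 0) (nat_lit 70826)
  (nat_lit 8) nil (node (nat_lit 7) (nat_lit 70826) (nat_lit 8) nil (node (nat_lit 5) (nat_lit
  68791) (nat_lit 8) nil nil))))) nil)))) (node (nat_lit 0) (nat_lit 64963) (nat_lit 6) (node
  (nat_lit 7) (nat_lit 69286) (nat_lit 7) (node (nat_lit 6) (nat_lit 70116) (nat_lit 8) (node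
  (nat_lit 7) (nat_lit 72524) (nat_lit 9) (node (nat_lit 9) (nat_lit 72524) (nat_lit 10) nil (node
  (nat_lit 5) (nat_lit 72524) (nat_lit 10) nil (node (nat_lit 0) (nat_lit 72524) (nat_lit 10) nil
  (node (nat_lit 4) (nat_lit 72524) (nat_lit 10) nil nil)))) (node (nat_lit 4) (nat_lit 71788)
  (nat_lit 9) nil (node (nat_lit 5) (nat_lit 70984) (nat_lit 9) nil (node (nat_lit 0) (nat_lit
  72524) (nat_lit 9) nil nil)))) (node (nat_lit 9) (nat_lit 71418) (nat_lit 8) (node (nat_lit 6)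
  (nat_lit 71418) (nat_lit 9) nil nil) (node (nat_lit 4) (nat_lit 70116) (nat_lit 8) nil (node
  (nat_lit 5) (nat_lit 69286) (nat_lit 8) nil (node (nat_lit 0) (nat_lit 70588) (nat_lit 8) nil
  nil))))) (node (nat_lit 6) (nat_lit 66188) (nat_lit 7) (node (nat_lit 7) (nat_lit 71382)
  (nat_lit 8) (node (nat_lit 9) (nat_lit 72524) (nat_lit 9) nil nil) (node (nat_lit 5) (nat_lit
  69353) (nat_lit 8) nil (node (nat_lit 4) (nat_lit 69829) (nat_lit 8) nil (node (nat_lit 0)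
  (nat_lit 70448) (nat_lit 8) nil nil)))) (node (nat_lit 5) (nat_lit 65090) (nat_lit 7) (node
  (nat_lit 6) (nat_lit 67959) (nat_lit 8) (node (nat_lit 5) (nat_lit 68030) (nat_lit 9) nil nil)
  (node (nat_lit 4) (nat_lit 66769) (nat_lit 8) nil (node (nat_lit 7) (nat_lit 69351) (nat_lit 8)
  nil (node (nat_lit 9) (nat_lit 68449) (nat_lit 8) nil nil)))) (node (nat_lit 4) (nat_lit 66565)
  (nat_lit 7) (node (nat_lit 6) (nat_lit 67708) (nat_lit 8) nil (node (nat_lit 5) (nat_lit 68622)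
  (nat_lit 8) nil (node (nat_lit 9) (nat_lit 69924) (nat_lit 8) nil (node (nat_lit 7) (nat_lit
  69924) (nat_lit 8) nil nil)))) (node (nat_lit 0) (nat_lit 69227) (nat_lit 7) (node (nat_lit 6)
  (nat_lit 68404) (nat_lit 8) nil (node (nat_lit 4) (nat_lit 69227) (nat_lit 8) nil (node (nat_lit
  5) (nat_lit 69227) (nat_lit 8) nil (node (nat_lit 9) (nat_lit 70529) (nat_lit 8) nil nil))))
  nil))))) nil))) (node (nat_lit 5) (nat_lit 0) (nat_lit 5) (node (nat_lit 7) (nat_lit 60100)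
  (nat_lit 6) (node (nat_lit 6) (nat_lit 61402) (nat_lit 7) (node (nat_lit 7) (nat_lit 65667)
  (nat_lit 8) (node (nat_lit 5) (nat_lit 68440) (nat_lit 9) (node (nat_lit 6) (nat_lit 70899)
  (nat_lit 10) (node (nat_lit 5) (nat_lit 71073) (nat_lit 11) (node (nat_lit 4) (nat_lit 72082)
  (nat_lit 12) (node (nat_lit 5) (nat_lit 71090) (nat_lit 13) (node (nat_lit 6) (nat_lit 70275)
  (nat_lit 14) nil nil) (node (nat_lit 6) (nat_lit 70855) (nat_lit 13) nil nil)) (node (nat_lit 7)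
  (nat_lit 72142) (nat_lit 12) (node (nat_lit 6) (nat_lit 72142) (nat_lit 13) nil nil) nil)) (node
  (nat_lit 7) (nat_lit 72513) (nat_lit 11) (node (nat_lit 6) (nat_lit 72131) (nat_lit 12) (node
  (nat_lit 5) (nat_lit 71358) (nat_lit 13) (node (nat_lit 6) (nat_lit 71510) (nat_lit 14) nil nil)
  nil) nil) (node (nat_lit 4) (nat_lit 72524) (nat_lit 11) (node (nat_lit 6) (nat_lit 72132)
  (nat_lit 12) nil nil) (node (nat_lit 0) (nat_lit 72145) (nat_lit 11) nil nil)))) (node (nat_lit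
  4) (nat_lit 71014) (nat_lit 10) (node (nat_lit 6) (nat_lit 70221) (nat_lit 11) nil (node
  (nat_lit 5) (nat_lit 71385) (nat_lit 11) nil nil)) (node (nat_lit 0) (nat_lit 70984) (nat_lit
  10) nil nil))) (node (nat_lit 4) (nat_lit 65667) (nat_lit 9) nil nil)) (node (nat_lit 5)
  (nat_lit 64191) (nat_lit 8) (node (nat_lit 6) (nat_lit 65667) (nat_lit 9) (node (nat_lit 7)
  (nat_lit 67583) (nat_lit 10) (node (nat_lit 5) (nat_lit 67269) (nat_lit 11) nil nil) nil) (node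
  (nat_lit 7) (nat_lit 66304) (nat_lit 9) nil nil)) (node (nat_lit 4) (nat_lit 63459) (nat_lit 8)
  nil (node (nat_lit 0) (nat_lit 64761) (nat_lit 8) nil nil)))) (node (nat_lit 0) (nat_lit 63459)
  (nat_lit 7) nil (node (nat_lit 4) (nat_lit 61402) (nat_lit 7) nil nil))) (node (nat_lit 6)
  (nat_lit 56043) (nat_lit 6) (node (nat_lit 5) (nat_lit 60061) (nat_lit 7) (node (nat_lit 7)
  (nat_lit 64547) (nat_lit 8) (node (nat_lit 6) (nat_lit 65916) (nat_lit 9) (node (nat_lit 5)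
  (nat_lit 65106) (nat_lit 10) nil (node (nat_lit 7) (nat_lit 68313) (nat_lit 10) (node (nat_lit
  5) (nat_lit 68313) (nat_lit 11) nil nil) nil)) nil) (node (nat_lit 4) (nat_lit 59369) (nat_lit
  8) (node (nat_lit 6) (nat_lit 58521) (nat_lit 9) nil (node (nat_lit 5) (nat_lit 51223) (nat_lit
  9) (node (nat_lit 6) (nat_lit 27639) (nat_lit 10) (node (nat_lit 7) (nat_lit 28338) (nat_lit 11)
  (node (nat_lit 5) (nat_lit 28338) (nat_lit 12) nil nil) nil) nil) nil)) nil)) (node (nat_lit 4)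
  (nat_lit 65777) (nat_lit 7) (node (nat_lit 6) (nat_lit 66979) (nat_lit 8) (node (nat_lit 5)
  (nat_lit 65397) (nat_lit 9) nil nil) nil) (node (nat_lit 0) (nat_lit 62157) (nat_lit 7) nil
  nil))) (node (nat_lit 4) (nat_lit 60707) (nat_lit 6) (node (nat_lit 6) (nat_lit 62655) (nat_lit
  7) (node (nat_lit 5) (nat_lit 64152) (nat_lit 8) (node (nat_lit 4) (nat_lit 59819) (nat_lit 9)
  (node (nat_lit 5) (nat_lit 53831) (nat_lit 10) (node (nat_lit 6) (nat_lit 47085) (nat_lit 11)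
  (node (nat_lit 7) (nat_lit 29079) (nat_lit 12) (node (nat_lit 5) (nat_lit 29079) (nat_lit 13)
  nil nil) nil) nil) nil) (node (nat_lit 6) (nat_lit 61732) (nat_lit 9) (node (nat_lit 4) (nat_lit
  61626) (nat_lit 10) (node (nat_lit 5) (nat_lit 59888) (nat_lit 11) nil nil) nil) (node (nat_lit
  7) (nat_lit 66357) (nat_lit 9) nil nil))) (node (nat_lit 4) (nat_lit 57923) (nat_lit 8) (node
  (nat_lit 5) (nat_lit 56561) (nat_lit 9) (node (nat_lit 6) (nat_lit 44693) (nat_lit 10) (node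
  (nat_lit 7) (nat_lit 43961) (nat_lit 11) nil (node (nat_lit 5) (nat_lit 44590) (nat_lit 11) nil
  nil)) nil) nil) nil)) (node (nat_lit 5) (nat_lit 66066) (nat_lit 7) (node (nat_lit 6) (nat_lit
  65303) (nat_lit 8) (node (nat_lit 7) (nat_lit 29941) (nat_lit 9) nil nil) nil) (node (nat_lit 7)
  (nat_lit 68123) (nat_lit 7) nil (node (nat_lit 0) (nat_lit 68123) (nat_lit 7) nil nil)))) (node
  (nat_lit 0) (nat_lit 64443) (nat_lit 6) (node (nat_lit 6) (nat_lit 63553) (nat_lit 7) nil (node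
  (nat_lit 0) (nat_lit 67802) (nat_lit 7) nil (node (nat_lit 7) (nat_lit 67802) (nat_lit 7) nil
  (node (nat_lit 4) (nat_lit 65745) (nat_lit 7) nil (node (nat_lit 5) (nat_lit 64443) (nat_lit 7)
  nil nil))))) nil)))) (node (nat_lit 4) (nat_lit 0) (nat_lit 5) (node (nat_lit 5) (nat_lit 61115)
  (nat_lit 6) (node (nat_lit 4) (nat_lit 65493) (nat_lit 7) (node (nat_lit 6) (nat_lit 65860)
  (nat_lit 8) (node (nat_lit 4) (nat_lit 59643) (nat_lit 9) (node (nat_lit 5) (nat_lit 55316)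
  (nat_lit 10) (node (nat_lit 6) (nat_lit 48189) (nat_lit 11) nil nil) nil) (node (nat_lit 5)
  (nat_lit 63739) (nat_lit 9) nil nil)) nil) (node (nat_lit 6) (nat_lit 65646) (nat_lit 7) (node
  (nat_lit 4) (nat_lit 68462) (nat_lit 8) nil (node (nat_lit 5) (nat_lit 64667) (nat_lit 8) (node
  (nat_lit 4) (nat_lit 61507) (nat_lit 9) nil nil) nil)) (node (nat_lit 7) (nat_lit 68531)
  (nat_lit 7) nil (node (nat_lit 0) (nat_lit 67230) (nat_lit 7) nil nil)))) (node (nat_lit 6)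
  (nat_lit 0) (nat_lit 6) (node (nat_lit 5) (nat_lit 59785) (nat_lit 7) (node (nat_lit 4) (nat_lit
  57183) (nat_lit 8) (node (nat_lit 5) (nat_lit 48720) (nat_lit 9) (node (nat_lit 6) (nat_lit
  38473) (nat_lit 10) (node (nat_lit 7) (nat_lit 29000) (nat_lit 11) nil nil) nil) nil) (node
  (nat_lit 6) (nat_lit 60324) (nat_lit 8) nil nil)) (node (nat_lit 4) (nat_lit 67052) (nat_lit 7)
  (node (nat_lit 7) (nat_lit 71169) (nat_lit 8) (node (nat_lit 6) (nat_lit 71169) (nat_lit 9)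
  (node (nat_lit 7) (nat_lit 72351) (nat_lit 10) nil nil) nil) nil) (node (nat_lit 0) (nat_lit
  69108) (nat_lit 7) nil (node (nat_lit 7) (nat_lit 67807) (nat_lit 7) nil nil)))) (node (nat_lit
  7) (nat_lit 65833) (nat_lit 6) (node (nat_lit 6) (nat_lit 67143) (nat_lit 7) (node (nat_lit 7)
  (nat_lit 71260) (nat_lit 8) (node (nat_lit 4) (nat_lit 71631) (nat_lit 9) (node (nat_lit 6)
  (nat_lit 71643) (nat_lit 10) (node (nat_lit 4) (nat_lit 72014) (nat_lit 11) nil (node (nat_lit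
  7) (nat_lit 72342) (nat_lit 11) nil nil)) (node (nat_lit 5) (nat_lit 72442) (nat_lit 10) nil
  (node (nat_lit 0) (nat_lit 72524) (nat_lit 10) nil nil))) nil) nil) nil) (node (nat_lit 0)
  (nat_lit 65589) (nat_lit 6) (node (nat_lit 4) (nat_lit 65589) (nat_lit 7) nil nil) nil)))) (node
  (nat_lit 0) (nat_lit 0) (nat_lit 5) (node (nat_lit 6) (nat_lit 60895) (nat_lit 6) (node (nat_lit
  7) (nat_lit 68344) (nat_lit 7) (node (nat_lit 6) (nat_lit 69247) (nat_lit 8) (node (nat_lit 8)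
  (nat_lit 72046) (nat_lit 9) (node (nat_lit 6) (nat_lit 72046) (nat_lit 10) nil nil) (node
  (nat_lit 4) (nat_lit 70549) (nat_lit 9) nil (node (nat_lit 5) (nat_lit 68356) (nat_lit 9) nil
  nil))) (node (nat_lit 5) (nat_lit 67612) (nat_lit 8) (node (nat_lit 8) (nat_lit 69725) (nat_lit
  9) nil nil) (node (nat_lit 4) (nat_lit 69247) (nat_lit 8) nil (node (nat_lit 0) (nat_lit 70549)
  (nat_lit 8) nil nil)))) (node (nat_lit 8) (nat_lit 68311) (nat_lit 7) (node (nat_lit 7) (nat_lit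
  69613) (nat_lit 8) nil nil) (node (nat_lit 5) (nat_lit 59898) (nat_lit 7) nil (node (nat_lit 4)
  (nat_lit 66254) (nat_lit 7) nil (node (nat_lit 0) (nat_lit 67009) (nat_lit 7) nil nil))))) (node
  (nat_lit 7) (nat_lit 65769) (nat_lit 6) (node (nat_lit 6) (nat_lit 67141) (nat_lit 7) (node
  (nat_lit 7) (nat_lit 71316) (nat_lit 8) (node (nat_lit 8) (nat_lit 72498) (nat_lit 9) (node
  (nat_lit 6) (nat_lit 72498) (nat_lit 10) nil nil) nil) (node (nat_lit 8) (nat_lit 70500)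
  (nat_lit 8) nil nil)) nil) (node (nat_lit 5) (nat_lit 58357) (nat_lit 6) (node (nat_lit 6)
  (nat_lit 58528) (nat_lit 7) nil (node (nat_lit 7) (nat_lit 64471) (nat_lit 7) nil (node (nat_lit
  8) (nat_lit 64471) (nat_lit 7) nil nil))) (node (nat_lit 4) (nat_lit 59219) (nat_lit 6) (node
  (nat_lit 6) (nat_lit 59390) (nat_lit 7) nil nil) (node (nat_lit 0) (nat_lit 64521) (nat_lit 6)
  nil nil))))) nil))))

noncomputable def t352 : Tr :=
  (node (nat_lit 6) (nat_lit 0) (nat_lit 6) (node (nat_lit 5) (nat_lit 39121) (nat_lit 7) (node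
  (nat_lit 6) (nat_lit 44067) (nat_lit 8) (node (nat_lit 8) (nat_lit 50048) (nat_lit 9) (node
  (nat_lit 5) (nat_lit 52072) (nat_lit 10) (node (nat_lit 8) (nat_lit 54629) (nat_lit 11) (node
  (nat_lit 6) (nat_lit 54941) (nat_lit 12) (node (nat_lit 5) (nat_lit 56089) (nat_lit 13) (node
  (nat_lit 8) (nat_lit 56613) (nat_lit 14) (node (nat_lit 5) (nat_lit 56613) (nat_lit 15) nil nil)
  (node (nat_lit 6) (nat_lit 55628) (nat_lit 14) (node (nat_lit 4) (nat_lit 55909) (nat_lit 15)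
  nil nil) (node (nat_lit 4) (nat_lit 56086) (nat_lit 14) nil nil))) (node (nat_lit 8) (nat_lit
  56218) (nat_lit 13) (node (nat_lit 5) (nat_lit 55931) (nat_lit 14) (node (nat_lit 6) (nat_lit
  56098) (nat_lit 15) nil nil) nil) (node (nat_lit 4) (nat_lit 56107) (nat_lit 13) nil (node
  (nat_lit 0) (nat_lit 55933) (nat_lit 13) nil nil)))) (node (nat_lit 4) (nat_lit 55497) (nat_lit
  12) (node (nat_lit 5) (nat_lit 55459) (nat_lit 13) nil (node (nat_lit 8) (nat_lit 56033)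
  (nat_lit 13) nil (node (nat_lit 6) (nat_lit 55149) (nat_lit 13) nil nil))) (node (nat_lit 0)
  (nat_lit 55638) (nat_lit 12) (node (nat_lit 5) (nat_lit 55638) (nat_lit 13) nil (node (nat_lit
  8) (nat_lit 55842) (nat_lit 13) nil nil)) nil))) (node (nat_lit 6) (nat_lit 54037) (nat_lit 11)
  (node (nat_lit 5) (nat_lit 55026) (nat_lit 12) (node (nat_lit 8) (nat_lit 56218) (nat_lit 13)
  (node (nat_lit 5) (nat_lit 56205) (nat_lit 14) (node (nat_lit 6) (nat_lit 55951) (nat_lit 15)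
  nil nil) nil) (node (nat_lit 4) (nat_lit 56107) (nat_lit 13) (node (nat_lit 5) (nat_lit 56517)
  (nat_lit 14) nil nil) (node (nat_lit 0) (nat_lit 56018) (nat_lit 13) nil nil))) (node (nat_lit
  4) (nat_lit 55450) (nat_lit 12) (node (nat_lit 5) (nat_lit 55769) (nat_lit 13) nil (node
  (nat_lit 6) (nat_lit 56046) (nat_lit 13) nil nil)) (node (nat_lit 0) (nat_lit 55638) (nat_lit
  12) (node (nat_lit 6) (nat_lit 55638) (nat_lit 13) nil (node (nat_lit 5) (nat_lit 55638)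
  (nat_lit 13) nil nil)) nil))) (node (nat_lit 4) (nat_lit 54586) (nat_lit 11) (node (nat_lit 6)
  (nat_lit 55370) (nat_lit 12) (node (nat_lit 4) (nat_lit 55840) (nat_lit 13) nil (node (nat_lit
  5) (nat_lit 53776) (nat_lit 13) nil nil)) (node (nat_lit 5) (nat_lit 55518) (nat_lit 12) nil
  (node (nat_lit 8) (nat_lit 55638) (nat_lit 12) nil (node (nat_lit 0) (nat_lit 55406) (nat_lit
  12) nil nil)))) (node (nat_lit 0) (nat_lit 54931) (nat_lit 11) (node (nat_lit 5) (nat_lit 54920)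
  (nat_lit 12) nil (node (nat_lit 8) (nat_lit 55415) (nat_lit 12) nil (node (nat_lit 6) (nat_lit
  55164) (nat_lit 12) nil (node (nat_lit 4) (nat_lit 54931) (nat_lit 12) nil (node (nat_lit 0)
  (nat_lit 55182) (nat_lit 12) nil nil))))) nil)))) (node (nat_lit 6) (nat_lit 52377) (nat_lit 10)
  (node (nat_lit 5) (nat_lit 54612) (nat_lit 11) (node (nat_lit 8) (nat_lit 55650) (nat_lit 12)
  (node (nat_lit 5) (nat_lit 55918) (nat_lit 13) (node (nat_lit 6) (nat_lit 56328) (nat_lit 14)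
  (node (nat_lit 5) (nat_lit 55901) (nat_lit 15) nil (node (nat_lit 8) (nat_lit 56602) (nat_lit
  15) nil nil)) (node (nat_lit 4) (nat_lit 56122) (nat_lit 14) nil (node (nat_lit 0) (nat_lit
  56280) (nat_lit 14) nil nil))) (node (nat_lit 6) (nat_lit 55832) (nat_lit 13) (node (nat_lit 4)
  (nat_lit 56036) (nat_lit 14) nil nil) (node (nat_lit 4) (nat_lit 55974) (nat_lit 13) nil (node
  (nat_lit 0) (nat_lit 55854) (nat_lit 13) nil nil)))) (node (nat_lit 4) (nat_lit 55578) (nat_lit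
  12) (node (nat_lit 6) (nat_lit 55829) (nat_lit 13) nil (node (nat_lit 5) (nat_lit 55829)
  (nat_lit 13) nil nil)) (node (nat_lit 0) (nat_lit 55638) (nat_lit 12) nil nil))) (node (nat_lit
  4) (nat_lit 54840) (nat_lit 11) (node (nat_lit 5) (nat_lit 55143) (nat_lit 12) nil (node
  (nat_lit 6) (nat_lit 55518) (nat_lit 12) nil (node (nat_lit 8) (nat_lit 55406) (nat_lit 12) nil
  (node (nat_lit 0) (nat_lit 55406) (nat_lit 12) nil nil)))) (node (nat_lit 0) (nat_lit 54931)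
  (nat_lit 11) (node (nat_lit 5) (nat_lit 54920) (nat_lit 12) nil (node (nat_lit 6) (nat_lit
  55164) (nat_lit 12) nil (node (nat_lit 8) (nat_lit 55415) (nat_lit 12) nil nil))) nil))) (node
  (nat_lit 0) (nat_lit 53644) (nat_lit 10) (node (nat_lit 8) (nat_lit 54777) (nat_lit 11) (node
  (nat_lit 5) (nat_lit 54777) (nat_lit 12) nil nil) (node (nat_lit 5) (nat_lit 54389) (nat_lit 11)
  (node (nat_lit 6) (nat_lit 53695) (nat_lit 12) nil nil) (node (nat_lit 4) (nat_lit 53587)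
  (nat_lit 11) nil (node (nat_lit 6) (nat_lit 54396) (nat_lit 11) nil (node (nat_lit 0) (nat_lit
  54536) (nat_lit 11) nil nil))))) (node (nat_lit 4) (nat_lit 53253) (nat_lit 10) (node (nat_lit
  5) (nat_lit 54773) (nat_lit 11) (node (nat_lit 6) (nat_lit 54079) (nat_lit 12) nil (node
  (nat_lit 4) (nat_lit 54252) (nat_lit 12) nil nil)) (node (nat_lit 6) (nat_lit 54773) (nat_lit
  11) (node (nat_lit 8) (nat_lit 55406) (nat_lit 12) nil (node (nat_lit 4) (nat_lit 55154)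
  (nat_lit 12) nil (node (nat_lit 5) (nat_lit 53280) (nat_lit 12) nil nil))) (node (nat_lit 8)
  (nat_lit 55073) (nat_lit 11) (node (nat_lit 5) (nat_lit 55073) (nat_lit 12) nil nil) (node
  (nat_lit 0) (nat_lit 54831) (nat_lit 11) nil nil)))) nil)))) (node (nat_lit 4) (nat_lit 49498)
  (nat_lit 9) (node (nat_lit 5) (nat_lit 46767) (nat_lit 10) (node (nat_lit 6) (nat_lit 41746)
  (nat_lit 11) (node (nat_lit 5) (nat_lit 41575) (nat_lit 12) (node (nat_lit 4) (nat_lit 42605)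
  (nat_lit 13) (node (nat_lit 6) (nat_lit 43328) (nat_lit 14) (node (nat_lit 4) (nat_lit 43762)
  (nat_lit 15) nil (node (nat_lit 5) (nat_lit 43137) (nat_lit 15) nil nil)) (node (nat_lit 5)
  (nat_lit 43372) (nat_lit 14) (node (nat_lit 6) (nat_lit 43873) (nat_lit 15) nil nil) (node
  (nat_lit 0) (nat_lit 43395) (nat_lit 14) nil (node (nat_lit 8) (nat_lit 43395) (nat_lit 14) nil
  nil)))) (node (nat_lit 0) (nat_lit 42909) (nat_lit 13) (node (nat_lit 8) (nat_lit 43254)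
  (nat_lit 14) nil nil) (node (nat_lit 8) (nat_lit 38243) (nat_lit 13) nil nil))) (node (nat_lit
  8) (nat_lit 43207) (nat_lit 12) (node (nat_lit 5) (nat_lit 42707) (nat_lit 13) nil nil) (node
  (nat_lit 0) (nat_lit 43451) (nat_lit 12) nil nil))) (node (nat_lit 4) (nat_lit 47990) (nat_lit
  11) (node (nat_lit 6) (nat_lit 49018) (nat_lit 12) (node (nat_lit 4) (nat_lit 49017) (nat_lit
  13) (node (nat_lit 5) (nat_lit 48228) (nat_lit 14) (node (nat_lit 6) (nat_lit 46941) (nat_lit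
  15) nil nil) nil) (node (nat_lit 5) (nat_lit 47425) (nat_lit 13) (node (nat_lit 4) (nat_lit
  47788) (nat_lit 14) nil nil) (node (nat_lit 8) (nat_lit 50011) (nat_lit 13) nil nil))) (node
  (nat_lit 8) (nat_lit 49376) (nat_lit 12) nil nil)) (node (nat_lit 8) (nat_lit 48360) (nat_lit
  11) (node (nat_lit 6) (nat_lit 48360) (nat_lit 12) nil (node (nat_lit 5) (nat_lit 48360)
  (nat_lit 12) nil nil)) (node (nat_lit 0) (nat_lit 48345) (nat_lit 11) nil nil)))) (node (nat_lit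
  6) (nat_lit 51356) (nat_lit 10) (node (nat_lit 5) (nat_lit 52794) (nat_lit 11) (node (nat_lit 4)
  (nat_lit 54003) (nat_lit 12) (node (nat_lit 5) (nat_lit 52045) (nat_lit 13) (node (nat_lit 6)
  (nat_lit 50747) (nat_lit 14) nil nil) nil) (node (nat_lit 8) (nat_lit 53947) (nat_lit 12) nil
  (node (nat_lit 0) (nat_lit 53947) (nat_lit 12) nil nil))) (node (nat_lit 0) (nat_lit 53231)
  (nat_lit 11) nil (node (nat_lit 8) (nat_lit 52910) (nat_lit 11) nil nil))) (node (nat_lit 8)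
  (nat_lit 52042) (nat_lit 10) (node (nat_lit 4) (nat_lit 52996) (nat_lit 11) (node (nat_lit 6)
  (nat_lit 53286) (nat_lit 12) nil (node (nat_lit 5) (nat_lit 53352) (nat_lit 12) nil nil)) (node
  (nat_lit 5) (nat_lit 52875) (nat_lit 11) (node (nat_lit 6) (nat_lit 52405) (nat_lit 12) nil nil)
  (node (nat_lit 6) (nat_lit 52794) (nat_lit 11) nil nil))) (node (nat_lit 0) (nat_lit 51863)
  (nat_lit 10) (node (nat_lit 4) (nat_lit 51806) (nat_lit 11) nil (node (nat_lit 6) (nat_lit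
  51545) (nat_lit 11) nil (node (nat_lit 5) (nat_lit 51517) (nat_lit 11) nil (node (nat_lit 8)
  (nat_lit 53052) (nat_lit 11) nil nil)))) nil)))) (node (nat_lit 0) (nat_lit 51722) (nat_lit 9)
  (node (nat_lit 6) (nat_lit 52678) (nat_lit 10) (node (nat_lit 4) (nat_lit 54116) (nat_lit 11)
  (node (nat_lit 6) (nat_lit 53836) (nat_lit 12) nil nil) (node (nat_lit 5) (nat_lit 53948)
  (nat_lit 11) (node (nat_lit 12) (nat_lit 54762) (nat_lit 12) nil (node (nat_lit 4) (nat_lit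
  53427) (nat_lit 12) nil nil)) (node (nat_lit 0) (nat_lit 54511) (nat_lit 11) nil (node (nat_lit
  8) (nat_lit 54256) (nat_lit 11) nil nil)))) (node (nat_lit 5) (nat_lit 52581) (nat_lit 10) (node
  (nat_lit 6) (nat_lit 54018) (nat_lit 11) (node (nat_lit 5) (nat_lit 54944) (nat_lit 12) (node
  (nat_lit 12) (nat_lit 55400) (nat_lit 13) nil (node (nat_lit 4) (nat_lit 54909) (nat_lit 13) nil
  nil)) (node (nat_lit 4) (nat_lit 54092) (nat_lit 12) nil (node (nat_lit 0) (nat_lit 54832)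
  (nat_lit 12) nil (node (nat_lit 8) (nat_lit 54832) (nat_lit 12) nil nil)))) (node (nat_lit 8)
  (nat_lit 54159) (nat_lit 11) nil (node (nat_lit 12) (nat_lit 54159) (nat_lit 11) nil nil)))
  (node (nat_lit 4) (nat_lit 52833) (nat_lit 10) (node (nat_lit 6) (nat_lit 53130) (nat_lit 11)
  nil (node (nat_lit 12) (nat_lit 54124) (nat_lit 11) nil (node (nat_lit 5) (nat_lit 53086)
  (nat_lit 11) nil (node (nat_lit 8) (nat_lit 54124) (nat_lit 11) nil nil)))) (node (nat_lit 8)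
  (nat_lit 53364) (nat_lit 10) (node (nat_lit 5) (nat_lit 53540) (nat_lit 11) (node (nat_lit 6)
  (nat_lit 53069) (nat_lit 12) nil nil) (node (nat_lit 12) (nat_lit 54256) (nat_lit 11) nil (node
  (nat_lit 6) (nat_lit 53948) (nat_lit 11) nil nil))) (node (nat_lit 0) (nat_lit 53259) (nat_lit
  10) (node (nat_lit 5) (nat_lit 53259) (nat_lit 11) nil (node (nat_lit 12) (nat_lit 53864)
  (nat_lit 11) nil (node (nat_lit 6) (nat_lit 53259) (nat_lit 11) nil (node (nat_lit 8) (nat_lit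
  53864) (nat_lit 11) nil nil)))) nil))))) nil))) (node (nat_lit 0) (nat_lit 50094) (nat_lit 8)
  (node (nat_lit 5) (nat_lit 50581) (nat_lit 9) (node (nat_lit 6) (nat_lit 52439) (nat_lit 10)
  (node (nat_lit 5) (nat_lit 51154) (nat_lit 11) nil (node (nat_lit 11) (nat_lit 53730) (nat_lit
  11) nil nil)) (node (nat_lit 4) (nat_lit 52271) (nat_lit 10) (node (nat_lit 5) (nat_lit 52957)
  (nat_lit 11) nil (node (nat_lit 11) (nat_lit 53562) (nat_lit 11) nil (node (nat_lit 6) (nat_lit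
  49381) (nat_lit 11) nil nil))) (node (nat_lit 8) (nat_lit 53020) (nat_lit 10) nil (node (nat_lit
  0) (nat_lit 52486) (nat_lit 10) nil nil)))) (node (nat_lit 8) (nat_lit 51692) (nat_lit 9) (node
  (nat_lit 5) (nat_lit 52550) (nat_lit 10) (node (nat_lit 8) (nat_lit 53841) (nat_lit 11) nil nil)
  (node (nat_lit 11) (nat_lit 52992) (nat_lit 10) (node (nat_lit 5) (nat_lit 52992) (nat_lit 11)
  nil nil) (node (nat_lit 6) (nat_lit 52542) (nat_lit 10) nil nil))) (node (nat_lit 6) (nat_lit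
  51184) (nat_lit 9) (node (nat_lit 5) (nat_lit 52936) (nat_lit 10) (node (nat_lit 6) (nat_lit
  51661) (nat_lit 11) nil nil) (node (nat_lit 11) (nat_lit 53088) (nat_lit 10) nil (node (nat_lit
  8) (nat_lit 53088) (nat_lit 10) nil nil))) (node (nat_lit 4) (nat_lit 51235) (nat_lit 9) (node
  (nat_lit 5) (nat_lit 52213) (nat_lit 10) nil (node (nat_lit 11) (nat_lit 53140) (nat_lit 10) nil
  (node (nat_lit 8) (nat_lit 52823) (nat_lit 10) nil (node (nat_lit 6) (nat_lit 50020) (nat_lit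
  10) nil nil)))) (node (nat_lit 0) (nat_lit 51171) (nat_lit 9) (node (nat_lit 11) (nat_lit 52173)
  (nat_lit 10) nil (node (nat_lit 5) (nat_lit 50510) (nat_lit 10) nil (node (nat_lit 8) (nat_lit
  51856) (nat_lit 10) nil nil))) nil))))) (node (nat_lit 4) (nat_lit 48746) (nat_lit 8) (node
  (nat_lit 6) (nat_lit 51045) (nat_lit 9) (node (nat_lit 4) (nat_lit 51419) (nat_lit 10) (node
  (nat_lit 5) (nat_lit 50983) (nat_lit 11) (node (nat_lit 6) (nat_lit 44391) (nat_lit 12) (node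
  (nat_lit 5) (nat_lit 30323) (nat_lit 13) (node (nat_lit 8) (nat_lit 31250) (nat_lit 14) nil
  (node (nat_lit 4) (nat_lit 28564) (nat_lit 14) nil nil)) nil) nil) (node (nat_lit 8) (nat_lit
  52710) (nat_lit 11) nil nil)) (node (nat_lit 8) (nat_lit 53588) (nat_lit 10) (node (nat_lit 5)
  (nat_lit 53769) (nat_lit 11) (node (nat_lit 6) (nat_lit 53298) (nat_lit 12) nil nil) (node
  (nat_lit 6) (nat_lit 53588) (nat_lit 11) nil nil)) (node (nat_lit 5) (nat_lit 52591) (nat_lit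
  10) nil (node (nat_lit 0) (nat_lit 52633) (nat_lit 10) nil nil)))) (node (nat_lit 8) (nat_lit
  52040) (nat_lit 9) (node (nat_lit 5) (nat_lit 52996) (nat_lit 10) (node (nat_lit 6) (nat_lit
  54137) (nat_lit 11) nil (node (nat_lit 8) (nat_lit 54287) (nat_lit 11) nil (node (nat_lit 4)
  (nat_lit 52302) (nat_lit 11) nil nil))) (node (nat_lit 4) (nat_lit 52996) (nat_lit 10) (node
  (nat_lit 6) (nat_lit 52996) (nat_lit 11) nil (node (nat_lit 5) (nat_lit 53039) (nat_lit 11) nil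
  nil)) (node (nat_lit 6) (nat_lit 52996) (nat_lit 10) nil nil))) (node (nat_lit 5) (nat_lit
  51138) (nat_lit 9) (node (nat_lit 6) (nat_lit 52563) (nat_lit 10) (node (nat_lit 5) (nat_lit
  51278) (nat_lit 11) (node (nat_lit 8) (nat_lit 31320) (nat_lit 12) nil nil) nil) (node (nat_lit
  8) (nat_lit 53042) (nat_lit 10) nil (node (nat_lit 0) (nat_lit 53042) (nat_lit 10) nil nil)))
  (node (nat_lit 0) (nat_lit 51697) (nat_lit 9) (node (nat_lit 4) (nat_lit 52653) (nat_lit 10)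
  (node (nat_lit 5) (nat_lit 53339) (nat_lit 11) nil nil) (node (nat_lit 5) (nat_lit 51774)
  (nat_lit 10) nil (node (nat_lit 8) (nat_lit 52700) (nat_lit 10) nil (node (nat_lit 6) (nat_lit
  51697) (nat_lit 10) nil nil)))) nil)))) nil))) (node (nat_lit 8) (nat_lit 41278) (nat_lit 7)
  (node (nat_lit 5) (nat_lit 44060) (nat_lit 8) (node (nat_lit 8) (nat_lit 49968) (nat_lit 9)
  (node (nat_lit 6) (nat_lit 51949) (nat_lit 10) (node (nat_lit 5) (nat_lit 53367) (nat_lit 11)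
  (node (nat_lit 6) (nat_lit 52770) (nat_lit 12) nil nil) nil) nil) (node (nat_lit 6) (nat_lit
  49353) (nat_lit 9) (node (nat_lit 8) (nat_lit 53154) (nat_lit 10) (node (nat_lit 6) (nat_lit
  52875) (nat_lit 11) (node (nat_lit 5) (nat_lit 52354) (nat_lit 12) nil nil) nil) nil) nil))
  (node (nat_lit 4) (nat_lit 49762) (nat_lit 8) nil (node (nat_lit 0) (nat_lit 44957) (nat_lit 8)
  nil nil))) (node (nat_lit 4) (nat_lit 45038) (nat_lit 7) (node (nat_lit 5) (nat_lit 46073)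
  (nat_lit 8) nil (node (nat_lit 8) (nat_lit 50492) (nat_lit 8) nil (node (nat_lit 6) (nat_lit
  44659) (nat_lit 8) nil nil))) (node (nat_lit 0) (nat_lit 46491) (nat_lit 7) nil nil)))) (node
  (nat_lit 5) (nat_lit 0) (nat_lit 6) (node (nat_lit 6) (nat_lit 39237) (nat_lit 7) (node (nat_lit
  8) (nat_lit 45380) (nat_lit 8) (node (nat_lit 6) (nat_lit 48300) (nat_lit 9) (node (nat_lit 5)
  (nat_lit 51133) (nat_lit 10) (node (nat_lit 8) (nat_lit 53063) (nat_lit 11) (node (nat_lit 5)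
  (nat_lit 53875) (nat_lit 12) (node (nat_lit 6) (nat_lit 55047) (nat_lit 13) (node (nat_lit 5)
  (nat_lit 55697) (nat_lit 14) (node (nat_lit 8) (nat_lit 56397) (nat_lit 15) (node (nat_lit 6)
  (nat_lit 56397) (nat_lit 16) nil nil) (node (nat_lit 4) (nat_lit 55661) (nat_lit 15) (node
  (nat_lit 5) (nat_lit 54022) (nat_lit 16) (node (nat_lit 6) (nat_lit 53889) (nat_lit 17) nil nil)
  nil) nil)) (node (nat_lit 4) (nat_lit 55491) (nat_lit 14) nil nil)) nil) nil) (node (nat_lit 6)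
  (nat_lit 50109) (nat_lit 11) nil nil)) nil) (node (nat_lit 5) (nat_lit 48878) (nat_lit 9) (node
  (nat_lit 8) (nat_lit 51070) (nat_lit 10) nil nil) (node (nat_lit 0) (nat_lit 47329) (nat_lit 9)
  nil (node (nat_lit 4) (nat_lit 45380) (nat_lit 9) nil nil)))) (node (nat_lit 4) (nat_lit 49810)
  (nat_lit 8) (node (nat_lit 5) (nat_lit 50480) (nat_lit 9) (node (nat_lit 6) (nat_lit 50351)
  (nat_lit 10) (node (nat_lit 5) (nat_lit 50100) (nat_lit 11) (node (nat_lit 8) (nat_lit 31901)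
  (nat_lit 12) nil nil) nil) nil) nil) (node (nat_lit 0) (nat_lit 50671) (nat_lit 8) nil (node
  (nat_lit 5) (nat_lit 36210) (nat_lit 8) (node (nat_lit 4) (nat_lit 32849) (nat_lit 9) nil nil)
  nil)))) (node (nat_lit 4) (nat_lit 45360) (nat_lit 7) (node (nat_lit 6) (nat_lit 48199) (nat_lit
  8) (node (nat_lit 4) (nat_lit 48079) (nat_lit 9) nil nil) (node (nat_lit 5) (nat_lit 47416)
  (nat_lit 8) nil (node (nat_lit 8) (nat_lit 48718) (nat_lit 8) nil (node (nat_lit 0) (nat_lit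
  48718) (nat_lit 8) nil nil)))) (node (nat_lit 0) (nat_lit 47277) (nat_lit 7) (node (nat_lit 8)
  (nat_lit 48579) (nat_lit 8) nil nil) nil))) (node (nat_lit 4) (nat_lit 36457) (nat_lit 6) (node
  (nat_lit 5) (nat_lit 45625) (nat_lit 7) (node (nat_lit 6) (nat_lit 50159) (nat_lit 8) (node
  (nat_lit 5) (nat_lit 50575) (nat_lit 9) nil (node (nat_lit 4) (nat_lit 50771) (nat_lit 9) nil
  nil)) (node (nat_lit 4) (nat_lit 50159) (nat_lit 8) (node (nat_lit 6) (nat_lit 48719) (nat_lit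
  9) nil (node (nat_lit 8) (nat_lit 52363) (nat_lit 9) nil nil)) (node (nat_lit 0) (nat_lit 51059)
  (nat_lit 8) nil (node (nat_lit 8) (nat_lit 48984) (nat_lit 8) nil nil)))) (node (nat_lit 6)
  (nat_lit 45696) (nat_lit 7) (node (nat_lit 5) (nat_lit 48931) (nat_lit 8) (node (nat_lit 4)
  (nat_lit 44973) (nat_lit 9) nil nil) (node (nat_lit 4) (nat_lit 49828) (nat_lit 8) nil (node
  (nat_lit 8) (nat_lit 49054) (nat_lit 8) nil (node (nat_lit 0) (nat_lit 49054) (nat_lit 8) nil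
  nil)))) (node (nat_lit 8) (nat_lit 47017) (nat_lit 7) (node (nat_lit 5) (nat_lit 47017) (nat_lit
  8) nil nil) (node (nat_lit 0) (nat_lit 46962) (nat_lit 7) nil nil)))) (node (nat_lit 0) (nat_lit
  40279) (nat_lit 6) (node (nat_lit 5) (nat_lit 45305) (nat_lit 7) (node (nat_lit 6) (nat_lit
  46759) (nat_lit 8) nil (node (nat_lit 9) (nat_lit 50881) (nat_lit 8) nil (node (nat_lit 8)
  (nat_lit 48663) (nat_lit 8) nil nil))) (node (nat_lit 6) (nat_lit 45297) (nat_lit 7) (node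
  (nat_lit 5) (nat_lit 48239) (nat_lit 8) (node (nat_lit 8) (nat_lit 50443) (nat_lit 9) nil nil)
  nil) (node (nat_lit 4) (nat_lit 45767) (nat_lit 7) nil (node (nat_lit 8) (nat_lit 47306)
  (nat_lit 7) (node (nat_lit 5) (nat_lit 47306) (nat_lit 8) nil nil) (node (nat_lit 0) (nat_lit
  46727) (nat_lit 7) nil nil))))) nil))))

noncomputable def t353 : Tr :=
  (node (nat_lit 4) (nat_lit 0) (nat_lit 4) (node (nat_lit 6) (nat_lit 0) (nat_lit 5) (node
  (nat_lit 5) (nat_lit 62721) (nat_lit 6) (node (nat_lit 4) (nat_lit 75387) (nat_lit 7) (node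
  (nat_lit 5) (nat_lit 82098) (nat_lit 8) (node (nat_lit 3) (nat_lit 85050) (nat_lit 9) (node
  (nat_lit 4) (nat_lit 84508) (nat_lit 10) (node (nat_lit 5) (nat_lit 83431) (nat_lit 11) (node
  (nat_lit 6) (nat_lit 78973) (nat_lit 12) (node (nat_lit 4) (nat_lit 73297) (nat_lit 13) (node
  (nat_lit 6) (nat_lit 64635) (nat_lit 14) (node (nat_lit 5) (nat_lit 51378) (nat_lit 15) (node
  (nat_lit 4) (nat_lit 51139) (nat_lit 16) nil nil) nil) nil) nil) nil) nil) (node (nat_lit 5)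
  (nat_lit 85733) (nat_lit 10) (node (nat_lit 4) (nat_lit 84484) (nat_lit 11) nil nil) nil)) (node
  (nat_lit 6) (nat_lit 86284) (nat_lit 9) (node (nat_lit 4) (nat_lit 86284) (nat_lit 10) (node
  (nat_lit 6) (nat_lit 50219) (nat_lit 11) nil nil) (node (nat_lit 5) (nat_lit 86284) (nat_lit 10)
  nil nil)) (node (nat_lit 0) (nat_lit 85596) (nat_lit 9) nil nil))) (node (nat_lit 3) (nat_lit
  85057) (nat_lit 8) (node (nat_lit 4) (nat_lit 81004) (nat_lit 9) (node (nat_lit 5) (nat_lit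
  76762) (nat_lit 10) (node (nat_lit 6) (nat_lit 66127) (nat_lit 11) (node (nat_lit 4) (nat_lit
  65667) (nat_lit 12) (node (nat_lit 6) (nat_lit 66876) (nat_lit 13) nil nil) nil) (node (nat_lit
  11) (nat_lit 76153) (nat_lit 11) nil nil)) nil) (node (nat_lit 5) (nat_lit 85244) (nat_lit 9)
  (node (nat_lit 4) (nat_lit 86344) (nat_lit 10) (node (nat_lit 5) (nat_lit 83672) (nat_lit 11)
  nil nil) (node (nat_lit 11) (nat_lit 83372) (nat_lit 10) nil nil)) nil)) (node (nat_lit 0)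
  (nat_lit 87092) (nat_lit 8) (node (nat_lit 4) (nat_lit 87092) (nat_lit 9) nil nil) (node
  (nat_lit 6) (nat_lit 81104) (nat_lit 8) nil nil)))) (node (nat_lit 3) (nat_lit 84443) (nat_lit
  7) (node (nat_lit 4) (nat_lit 86972) (nat_lit 8) nil (node (nat_lit 5) (nat_lit 83102) (nat_lit
  8) (node (nat_lit 4) (nat_lit 81163) (nat_lit 9) (node (nat_lit 5) (nat_lit 67380) (nat_lit 10)
  (node (nat_lit 6) (nat_lit 60721) (nat_lit 11) nil nil) nil) nil) (node (nat_lit 6) (nat_lit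
  88005) (nat_lit 8) nil nil))) (node (nat_lit 6) (nat_lit 77779) (nat_lit 7) (node (nat_lit 4)
  (nat_lit 82011) (nat_lit 8) (node (nat_lit 5) (nat_lit 82049) (nat_lit 9) nil (node (nat_lit 3)
  (nat_lit 81924) (nat_lit 9) nil nil)) (node (nat_lit 3) (nat_lit 86523) (nat_lit 8) (node
  (nat_lit 5) (nat_lit 85877) (nat_lit 9) nil nil) (node (nat_lit 0) (nat_lit 82795) (nat_lit 8)
  nil nil))) (node (nat_lit 0) (nat_lit 85873) (nat_lit 7) nil nil)))) (node (nat_lit 3) (nat_lit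
  82814) (nat_lit 6) (node (nat_lit 4) (nat_lit 86675) (nat_lit 7) (node (nat_lit 9) (nat_lit
  88220) (nat_lit 8) (node (nat_lit 6) (nat_lit 89919) (nat_lit 9) nil (node (nat_lit 5) (nat_lit
  87786) (nat_lit 9) (node (nat_lit 4) (nat_lit 85720) (nat_lit 10) nil nil) nil)) (node (nat_lit
  5) (nat_lit 87018) (nat_lit 8) (node (nat_lit 9) (nat_lit 85956) (nat_lit 9) nil (node (nat_lit
  4) (nat_lit 87667) (nat_lit 9) nil nil)) (node (nat_lit 0) (nat_lit 89342) (nat_lit 8) nil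
  nil))) (node (nat_lit 5) (nat_lit 85115) (nat_lit 7) (node (nat_lit 9) (nat_lit 83874) (nat_lit
  8) (node (nat_lit 4) (nat_lit 77833) (nat_lit 9) (node (nat_lit 5) (nat_lit 73883) (nat_lit 10)
  nil nil) nil) (node (nat_lit 4) (nat_lit 84665) (nat_lit 8) nil nil)) (node (nat_lit 6) (nat_lit
  89422) (nat_lit 7) nil (node (nat_lit 0) (nat_lit 89422) (nat_lit 7) nil nil)))) (node (nat_lit
  0) (nat_lit 82937) (nat_lit 6) (node (nat_lit 4) (nat_lit 82046) (nat_lit 7) nil (node (nat_lit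
  5) (nat_lit 82937) (nat_lit 7) nil (node (nat_lit 3) (nat_lit 82937) (nat_lit 7) nil nil)))
  nil))) (node (nat_lit 5) (nat_lit 0) (nat_lit 5) (node (nat_lit 4) (nat_lit 62911) (nat_lit 6)
  (node (nat_lit 6) (nat_lit 77409) (nat_lit 7) (node (nat_lit 5) (nat_lit 81175) (nat_lit 8)
  (node (nat_lit 4) (nat_lit 81739) (nat_lit 9) (node (nat_lit 5) (nat_lit 81664) (nat_lit 10)
  (node (nat_lit 3) (nat_lit 78954) (nat_lit 11) nil nil) (node (nat_lit 3) (nat_lit 78440)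
  (nat_lit 10) nil nil)) (node (nat_lit 3) (nat_lit 81089) (nat_lit 9) nil nil)) (node (nat_lit 4)
  (nat_lit 81376) (nat_lit 8) (node (nat_lit 3) (nat_lit 81874) (nat_lit 9) nil (node (nat_lit 0)
  (nat_lit 84874) (nat_lit 9) nil nil)) (node (nat_lit 3) (nat_lit 79124) (nat_lit 8) nil (node
  (nat_lit 0) (nat_lit 81240) (nat_lit 8) nil nil)))) (node (nat_lit 3) (nat_lit 79227) (nat_lit
  7) (node (nat_lit 5) (nat_lit 81286) (nat_lit 8) (node (nat_lit 10) (nat_lit 82921) (nat_lit 9)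
  (node (nat_lit 4) (nat_lit 82949) (nat_lit 10) nil nil) (node (nat_lit 4) (nat_lit 81718)
  (nat_lit 9) nil nil)) (node (nat_lit 4) (nat_lit 79335) (nat_lit 8) (node (nat_lit 5) (nat_lit
  74327) (nat_lit 9) (node (nat_lit 6) (nat_lit 63775) (nat_lit 10) (node (nat_lit 4) (nat_lit
  63169) (nat_lit 11) nil nil) nil) nil) (node (nat_lit 6) (nat_lit 83817) (nat_lit 8) nil nil)))
  (node (nat_lit 0) (nat_lit 80984) (nat_lit 7) nil nil))) (node (nat_lit 3) (nat_lit 76882)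
  (nat_lit 6) (node (nat_lit 4) (nat_lit 66313) (nat_lit 7) (node (nat_lit 5) (nat_lit 56725)
  (nat_lit 8) (node (nat_lit 4) (nat_lit 58029) (nat_lit 9) (node (nat_lit 9) (nat_lit 57325)
  (nat_lit 10) nil nil) (node (nat_lit 6) (nat_lit 49325) (nat_lit 9) (node (nat_lit 4) (nat_lit
  48670) (nat_lit 10) nil nil) nil)) (node (nat_lit 9) (nat_lit 68525) (nat_lit 8) (node (nat_lit
  5) (nat_lit 67226) (nat_lit 9) nil nil) nil)) (node (nat_lit 5) (nat_lit 78436) (nat_lit 7)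
  (node (nat_lit 4) (nat_lit 75285) (nat_lit 8) (node (nat_lit 5) (nat_lit 52265) (nat_lit 9) nil
  nil) (node (nat_lit 6) (nat_lit 83026) (nat_lit 8) nil nil)) (node (nat_lit 6) (nat_lit 83490)
  (nat_lit 7) nil nil))) (node (nat_lit 0) (nat_lit 80564) (nat_lit 6) (node (nat_lit 5) (nat_lit
  80564) (nat_lit 7) nil (node (nat_lit 4) (nat_lit 79674) (nat_lit 7) nil nil)) nil))) (node
  (nat_lit 3) (nat_lit 0) (nat_lit 5) (node (nat_lit 5) (nat_lit 80681) (nat_lit 6) (node (nat_lit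
  4) (nat_lit 78111) (nat_lit 7) (node (nat_lit 5) (nat_lit 64759) (nat_lit 8) (node (nat_lit 8)
  (nat_lit 63681) (nat_lit 9) (node (nat_lit 5) (nat_lit 61142) (nat_lit 10) nil nil) (node
  (nat_lit 6) (nat_lit 50219) (nat_lit 9) (node (nat_lit 4) (nat_lit 50219) (nat_lit 10) nil nil)
  nil)) (node (nat_lit 8) (nat_lit 75585) (nat_lit 8) (node (nat_lit 4) (nat_lit 74433) (nat_lit
  9) (node (nat_lit 5) (nat_lit 70341) (nat_lit 10) nil nil) nil) nil)) (node (nat_lit 8) (nat_lit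
  85138) (nat_lit 7) (node (nat_lit 4) (nat_lit 84828) (nat_lit 8) (node (nat_lit 5) (nat_lit
  79358) (nat_lit 9) (node (nat_lit 4) (nat_lit 78395) (nat_lit 10) nil nil) nil) nil) (node
  (nat_lit 6) (nat_lit 85738) (nat_lit 7) nil nil))) (node (nat_lit 4) (nat_lit 83908) (nat_lit 6)
  (node (nat_lit 5) (nat_lit 85770) (nat_lit 7) (node (nat_lit 8) (nat_lit 87807) (nat_lit 8)
  (node (nat_lit 5) (nat_lit 87752) (nat_lit 9) nil nil) (node (nat_lit 6) (nat_lit 66063)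
  (nat_lit 8) (node (nat_lit 4) (nat_lit 38229) (nat_lit 9) nil nil) nil)) (node (nat_lit 6)
  (nat_lit 88602) (nat_lit 7) nil nil)) (node (nat_lit 6) (nat_lit 87313) (nat_lit 6) (node
  (nat_lit 8) (nat_lit 87313) (nat_lit 7) nil (node (nat_lit 5) (nat_lit 87313) (nat_lit 7) nil
  (node (nat_lit 4) (nat_lit 87313) (nat_lit 7) nil nil))) (node (nat_lit 0) (nat_lit 86731)
  (nat_lit 6) nil nil)))) (node (nat_lit 0) (nat_lit 0) (nat_lit 5) (node (nat_lit 5) (nat_lit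
  77483) (nat_lit 6) (node (nat_lit 4) (nat_lit 76479) (nat_lit 7) nil nil) (node (nat_lit 4)
  (nat_lit 78969) (nat_lit 6) (node (nat_lit 5) (nat_lit 77965) (nat_lit 7) nil (node (nat_lit 3)
  (nat_lit 78487) (nat_lit 7) nil (node (nat_lit 6) (nat_lit 84495) (nat_lit 7) nil nil))) (node
  (nat_lit 3) (nat_lit 79588) (nat_lit 6) nil (node (nat_lit 6) (nat_lit 83306) (nat_lit 6) nil
  (node (nat_lit 0) (nat_lit 83306) (nat_lit 6) nil nil))))) nil)))) (node (nat_lit 0) (nat_lit 0)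
  (nat_lit 4) (node (nat_lit 6) (nat_lit 0) (nat_lit 5) (node (nat_lit 5) (nat_lit 80941) (nat_lit
  6) (node (nat_lit 7) (nat_lit 87315) (nat_lit 7) (node (nat_lit 6) (nat_lit 88383) (nat_lit 8)
  (node (nat_lit 7) (nat_lit 88797) (nat_lit 9) (node (nat_lit 5) (nat_lit 88797) (nat_lit 10) nil
  nil) (node (nat_lit 0) (nat_lit 88797) (nat_lit 9) nil (node (nat_lit 4) (nat_lit 88383)
  (nat_lit 9) nil (node (nat_lit 3) (nat_lit 88383) (nat_lit 9) nil nil)))) (node (nat_lit 5)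
  (nat_lit 86023) (nat_lit 8) (node (nat_lit 6) (nat_lit 87392) (nat_lit 9) nil (node (nat_lit 4)
  (nat_lit 85257) (nat_lit 9) nil (node (nat_lit 3) (nat_lit 86647) (nat_lit 9) nil (node (nat_lit
  0) (nat_lit 87034) (nat_lit 9) nil nil)))) (node (nat_lit 4) (nat_lit 87315) (nat_lit 8) nil
  (node (nat_lit 3) (nat_lit 87315) (nat_lit 8) nil (node (nat_lit 0) (nat_lit 87912) (nat_lit 8)
  nil nil))))) (node (nat_lit 6) (nat_lit 87315) (nat_lit 7) (node (nat_lit 7) (nat_lit 87912)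
  (nat_lit 8) nil nil) (node (nat_lit 3) (nat_lit 85482) (nat_lit 7) nil (node (nat_lit 4)
  (nat_lit 80546) (nat_lit 7) nil (node (nat_lit 0) (nat_lit 86467) (nat_lit 7) nil nil))))) (node
  (nat_lit 0) (nat_lit 86548) (nat_lit 6) (node (nat_lit 7) (nat_lit 88669) (nat_lit 7) nil (node
  (nat_lit 6) (nat_lit 88669) (nat_lit 7) nil nil)) (node (nat_lit 3) (nat_lit 84258) (nat_lit 6)
  (node (nat_lit 6) (nat_lit 89676) (nat_lit 7) nil (node (nat_lit 7) (nat_lit 89676) (nat_lit 7)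
  nil (node (nat_lit 5) (nat_lit 82028) (nat_lit 7) (node (nat_lit 9) (nat_lit 78686) (nat_lit 8)
  nil nil) (node (nat_lit 4) (nat_lit 87663) (nat_lit 7) nil nil)))) (node (nat_lit 4) (nat_lit
  81012) (nat_lit 6) (node (nat_lit 7) (nat_lit 87218) (nat_lit 7) nil (node (nat_lit 6) (nat_lit
  86538) (nat_lit 7) nil (node (nat_lit 5) (nat_lit 78398) (nat_lit 7) (node (nat_lit 4) (nat_lit
  77257) (nat_lit 8) nil nil) (node (nat_lit 3) (nat_lit 83168) (nat_lit 7) nil nil)))) nil))))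
  (node (nat_lit 5) (nat_lit 0) (nat_lit 5) (node (nat_lit 7) (nat_lit 87033) (nat_lit 6) (node
  (nat_lit 6) (nat_lit 90169) (nat_lit 7) (node (nat_lit 7) (nat_lit 90766) (nat_lit 8) (node
  (nat_lit 5) (nat_lit 90766) (nat_lit 9) (node (nat_lit 6) (nat_lit 91049) (nat_lit 10) (node
  (nat_lit 5) (nat_lit 91049) (nat_lit 11) nil nil) nil) nil) (node (nat_lit 5) (nat_lit 90169)
  (nat_lit 8) nil (node (nat_lit 0) (nat_lit 90766) (nat_lit 8) nil nil))) (node (nat_lit 0)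
  (nat_lit 90169) (nat_lit 7) nil (node (nat_lit 3) (nat_lit 86143) (nat_lit 7) nil (node (nat_lit
  4) (nat_lit 86143) (nat_lit 7) nil nil)))) (node (nat_lit 3) (nat_lit 83002) (nat_lit 6) (node
  (nat_lit 5) (nat_lit 81068) (nat_lit 7) (node (nat_lit 6) (nat_lit 83389) (nat_lit 8) nil nil)
  (node (nat_lit 4) (nat_lit 86407) (nat_lit 7) nil (node (nat_lit 7) (nat_lit 88131) (nat_lit 7)
  nil (node (nat_lit 6) (nat_lit 88131) (nat_lit 7) nil nil)))) (node (nat_lit 4) (nat_lit 82211)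
  (nat_lit 6) (node (nat_lit 5) (nat_lit 83269) (nat_lit 7) (node (nat_lit 6) (nat_lit 86732)
  (nat_lit 8) (node (nat_lit 7) (nat_lit 48977) (nat_lit 9) nil nil) nil) (node (nat_lit 3)
  (nat_lit 71845) (nat_lit 7) (node (nat_lit 4) (nat_lit 69595) (nat_lit 8) (node (nat_lit 5)
  (nat_lit 63261) (nat_lit 9) nil nil) nil) (node (nat_lit 7) (nat_lit 87737) (nat_lit 7) nil
  (node (nat_lit 6) (nat_lit 87737) (nat_lit 7) nil nil)))) (node (nat_lit 0) (nat_lit 86612)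
  (nat_lit 6) (node (nat_lit 6) (nat_lit 88733) (nat_lit 7) nil (node (nat_lit 7) (nat_lit 88733)
  (nat_lit 7) nil nil)) (node (nat_lit 6) (nat_lit 86612) (nat_lit 6) (node (nat_lit 5) (nat_lit
  85819) (nat_lit 7) (node (nat_lit 7) (nat_lit 89283) (nat_lit 8) nil nil) nil) nil))))) (node
  (nat_lit 3) (nat_lit 0) (nat_lit 5) (node (nat_lit 5) (nat_lit 79248) (nat_lit 6) (node (nat_lit
  8) (nat_lit 81327) (nat_lit 7) nil (node (nat_lit 7) (nat_lit 84774) (nat_lit 7) nil nil)) (node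
  (nat_lit 4) (nat_lit 82199) (nat_lit 6) (node (nat_lit 5) (nat_lit 85603) (nat_lit 7) nil nil)
  (node (nat_lit 7) (nat_lit 85513) (nat_lit 6) nil (node (nat_lit 6) (nat_lit 85513) (nat_lit 6)
  nil (node (nat_lit 0) (nat_lit 85513) (nat_lit 6) nil nil))))) (node (nat_lit 4) (nat_lit 0)
  (nat_lit 5) (node (nat_lit 3) (nat_lit 78113) (nat_lit 6) (node (nat_lit 5) (nat_lit 72565)
  (nat_lit 7) (node (nat_lit 9) (nat_lit 73631) (nat_lit 8) (node (nat_lit 4) (nat_lit 73031)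
  (nat_lit 9) nil nil) nil) nil) (node (nat_lit 5) (nat_lit 77066) (nat_lit 6) (node (nat_lit 4)
  (nat_lit 80184) (nat_lit 7) nil (node (nat_lit 7) (nat_lit 82592) (nat_lit 7) nil nil)) (node
  (nat_lit 7) (nat_lit 83672) (nat_lit 6) nil (node (nat_lit 6) (nat_lit 83672) (nat_lit 6) nil
  (node (nat_lit 0) (nat_lit 83672) (nat_lit 6) nil nil))))) (node (nat_lit 0) (nat_lit 0)
  (nat_lit 5) (node (nat_lit 7) (nat_lit 84860) (nat_lit 6) nil (node (nat_lit 6) (nat_lit 82804)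
  (nat_lit 6) nil (node (nat_lit 5) (nat_lit 78636) (nat_lit 6) nil (node (nat_lit 0) (nat_lit
  82804) (nat_lit 6) nil (node (nat_lit 3) (nat_lit 79399) (nat_lit 6) nil (node (nat_lit 4)
  (nat_lit 79399) (nat_lit 6) nil nil)))))) nil))))) (node (nat_lit 5) (nat_lit 0) (nat_lit 4)
  (node (nat_lit 3) (nat_lit 0) (nat_lit 5) (node (nat_lit 5) (nat_lit 74056) (nat_lit 6) (node
  (nat_lit 6) (nat_lit 82205) (nat_lit 7) (node (nat_lit 8) (nat_lit 81866) (nat_lit 8) (node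
  (nat_lit 5) (nat_lit 80785) (nat_lit 9) nil nil) (node (nat_lit 5) (nat_lit 80180) (nat_lit 8)
  (node (nat_lit 4) (nat_lit 79099) (nat_lit 9) nil (node (nat_lit 0) (nat_lit 82452) (nat_lit 9)
  nil nil)) (node (nat_lit 4) (nat_lit 82205) (nat_lit 8) nil nil))) (node (nat_lit 4) (nat_lit
  78220) (nat_lit 7) (node (nat_lit 8) (nat_lit 78008) (nat_lit 8) (node (nat_lit 5) (nat_lit
  76927) (nat_lit 9) nil (node (nat_lit 4) (nat_lit 71358) (nat_lit 9) nil nil)) (node (nat_lit 5)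
  (nat_lit 68621) (nat_lit 8) (node (nat_lit 6) (nat_lit 49177) (nat_lit 9) (node (nat_lit 5)
  (nat_lit 49177) (nat_lit 10) nil nil) nil) nil)) nil)) (node (nat_lit 4) (nat_lit 80179)
  (nat_lit 6) (node (nat_lit 5) (nat_lit 84565) (nat_lit 7) (node (nat_lit 8) (nat_lit 86270)
  (nat_lit 8) (node (nat_lit 5) (nat_lit 85937) (nat_lit 9) nil nil) (node (nat_lit 6) (nat_lit
  48573) (nat_lit 8) (node (nat_lit 5) (nat_lit 36738) (nat_lit 9) nil nil) nil)) (node (nat_lit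
  8) (nat_lit 85058) (nat_lit 7) (node (nat_lit 5) (nat_lit 84552) (nat_lit 8) (node (nat_lit 4)
  (nat_lit 82011) (nat_lit 9) (node (nat_lit 5) (nat_lit 75217) (nat_lit 10) nil nil) (node
  (nat_lit 8) (nat_lit 83333) (nat_lit 9) nil nil)) nil) nil)) (node (nat_lit 6) (nat_lit 84300)
  (nat_lit 6) (node (nat_lit 8) (nat_lit 83409) (nat_lit 7) (node (nat_lit 5) (nat_lit 83728)
  (nat_lit 8) (node (nat_lit 8) (nat_lit 84910) (nat_lit 9) (node (nat_lit 4) (nat_lit 85051)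
  (nat_lit 10) nil nil) nil) nil) (node (nat_lit 5) (nat_lit 84300) (nat_lit 7) nil (node (nat_lit
  4) (nat_lit 84300) (nat_lit 7) nil nil))) (node (nat_lit 0) (nat_lit 83198) (nat_lit 6) nil
  nil)))) (node (nat_lit 0) (nat_lit 0) (nat_lit 5) (node (nat_lit 5) (nat_lit 81227) (nat_lit 6)
  (node (nat_lit 6) (nat_lit 88055) (nat_lit 7) nil (node (nat_lit 4) (nat_lit 83917) (nat_lit 7)
  nil (node (nat_lit 3) (nat_lit 85768) (nat_lit 7) nil (node (nat_lit 0) (nat_lit 86753) (nat_lit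
  7) nil nil)))) (node (nat_lit 6) (nat_lit 84283) (nat_lit 6) (node (nat_lit 5) (nat_lit 84283)
  (nat_lit 7) nil nil) (node (nat_lit 3) (nat_lit 83488) (nat_lit 6) (node (nat_lit 5) (nat_lit
  81745) (nat_lit 7) nil (node (nat_lit 8) (nat_lit 89014) (nat_lit 7) nil (node (nat_lit 6)
  (nat_lit 89014) (nat_lit 7) nil nil))) (node (nat_lit 4) (nat_lit 82137) (nat_lit 6) (node
  (nat_lit 5) (nat_lit 78763) (nat_lit 7) nil (node (nat_lit 8) (nat_lit 87663) (nat_lit 7) nil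
  (node (nat_lit 6) (nat_lit 87663) (nat_lit 7) nil nil))) (node (nat_lit 0) (nat_lit 86364)
  (nat_lit 6) nil nil))))) (node (nat_lit 4) (nat_lit 0) (nat_lit 5) (node (nat_lit 5) (nat_lit
  62138) (nat_lit 6) (node (nat_lit 6) (nat_lit 45511) (nat_lit 7) (node (nat_lit 4) (nat_lit
  48424) (nat_lit 8) (node (nat_lit 5) (nat_lit 48491) (nat_lit 9) (node (nat_lit 4) (nat_lit
  48710) (nat_lit 10) nil nil) nil) (node (nat_lit 3) (nat_lit 45511) (nat_lit 8) nil (node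
  (nat_lit 0) (nat_lit 46256) (nat_lit 8) nil nil))) (node (nat_lit 3) (nat_lit 79796) (nat_lit 7)
  (node (nat_lit 4) (nat_lit 73513) (nat_lit 8) (node (nat_lit 5) (nat_lit 58268) (nat_lit 9)
  (node (nat_lit 6) (nat_lit 59142) (nat_lit 10) nil nil) nil) (node (nat_lit 5) (nat_lit 79134)
  (nat_lit 8) (node (nat_lit 4) (nat_lit 76016) (nat_lit 9) nil nil) nil)) (node (nat_lit 0)
  (nat_lit 70408) (nat_lit 7) nil nil))) (node (nat_lit 3) (nat_lit 69803) (nat_lit 6) (node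
  (nat_lit 5) (nat_lit 74278) (nat_lit 7) (node (nat_lit 4) (nat_lit 71050) (nat_lit 8) (node
  (nat_lit 5) (nat_lit 49068) (nat_lit 9) (node (nat_lit 6) (nat_lit 41788) (nat_lit 10) (node
  (nat_lit 5) (nat_lit 41508) (nat_lit 11) nil nil) nil) nil) (node (nat_lit 9) (nat_lit 72060)
  (nat_lit 8) nil nil)) (node (nat_lit 4) (nat_lit 68321) (nat_lit 7) (node (nat_lit 5) (nat_lit
  62878) (nat_lit 8) (node (nat_lit 9) (nat_lit 62561) (nat_lit 9) nil (node (nat_lit 4) (nat_lit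
  62232) (nat_lit 9) nil (node (nat_lit 6) (nat_lit 62125) (nat_lit 9) nil nil))) nil) nil)) (node
  (nat_lit 6) (nat_lit 65497) (nat_lit 6) (node (nat_lit 4) (nat_lit 73153) (nat_lit 7) (node
  (nat_lit 5) (nat_lit 76162) (nat_lit 8) (node (nat_lit 4) (nat_lit 78031) (nat_lit 9) (node
  (nat_lit 3) (nat_lit 76562) (nat_lit 10) (node (nat_lit 4) (nat_lit 77489) (nat_lit 11) nil nil)
  nil) nil) nil) (node (nat_lit 5) (nat_lit 65220) (nat_lit 7) nil (node (nat_lit 3) (nat_lit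
  67249) (nat_lit 7) nil nil))) (node (nat_lit 0) (nat_lit 66371) (nat_lit 6) nil nil)))) nil)))
  nil)))

noncomputable def t354 : Tr :=
  (node (nat_lit 0) (nat_lit 0) (nat_lit 4) (node (nat_lit 4) (nat_lit 0) (nat_lit 5) (node
  (nat_lit 5) (nat_lit 41920) (nat_lit 6) (node (nat_lit 7) (nat_lit 46996) (nat_lit 7) (node
  (nat_lit 4) (nat_lit 47241) (nat_lit 8) (node (nat_lit 7) (nat_lit 47241) (nat_lit 9) (node
  (nat_lit 5) (nat_lit 47241) (nat_lit 10) (node (nat_lit 4) (nat_lit 47018) (nat_lit 11) (node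
  (nat_lit 5) (nat_lit 46174) (nat_lit 12) nil nil) (node (nat_lit 7) (nat_lit 47241) (nat_lit 11)
  nil nil)) (node (nat_lit 3) (nat_lit 47241) (nat_lit 10) nil (node (nat_lit 0) (nat_lit 47241)
  (nat_lit 10) nil nil))) (node (nat_lit 0) (nat_lit 47241) (nat_lit 9) nil (node (nat_lit 3)
  (nat_lit 47241) (nat_lit 9) nil nil))) (node (nat_lit 5) (nat_lit 47241) (nat_lit 8) (node
  (nat_lit 4) (nat_lit 47241) (nat_lit 9) (node (nat_lit 7) (nat_lit 47241) (nat_lit 10) nil (node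
  (nat_lit 3) (nat_lit 46874) (nat_lit 10) nil nil)) (node (nat_lit 3) (nat_lit 47241) (nat_lit 9)
  nil nil)) (node (nat_lit 3) (nat_lit 46291) (nat_lit 8) nil (node (nat_lit 0) (nat_lit 47241)
  (nat_lit 8) nil nil)))) (node (nat_lit 3) (nat_lit 47082) (nat_lit 7) (node (nat_lit 4) (nat_lit
  44195) (nat_lit 8) (node (nat_lit 5) (nat_lit 38711) (nat_lit 9) (node (nat_lit 4) (nat_lit
  23366) (nat_lit 10) (node (nat_lit 10) (nat_lit 23645) (nat_lit 11) (node (nat_lit 4) (nat_lit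
  23218) (nat_lit 12) nil nil) (node (nat_lit 7) (nat_lit 18349) (nat_lit 11) (node (nat_lit 4)
  (nat_lit 11626) (nat_lit 12) nil nil) nil)) nil) (node (nat_lit 10) (nat_lit 43867) (nat_lit 9)
  nil nil)) (node (nat_lit 5) (nat_lit 47241) (nat_lit 8) nil (node (nat_lit 7) (nat_lit 47241)
  (nat_lit 8) nil (node (nat_lit 0) (nat_lit 47241) (nat_lit 8) nil nil)))) (node (nat_lit 0)
  (nat_lit 47241) (nat_lit 7) (node (nat_lit 4) (nat_lit 47241) (nat_lit 8) nil (node (nat_lit 5)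
  (nat_lit 47241) (nat_lit 8) nil (node (nat_lit 0) (nat_lit 47241) (nat_lit 8) nil (node (nat_lit
  7) (nat_lit 47241) (nat_lit 8) nil (node (nat_lit 3) (nat_lit 47241) (nat_lit 8) nil nil)))))
  (node (nat_lit 4) (nat_lit 45883) (nat_lit 7) (node (nat_lit 3) (nat_lit 45233) (nat_lit 8)
  (node (nat_lit 4) (nat_lit 38657) (nat_lit 9) (node (nat_lit 5) (nat_lit 38537) (nat_lit 10)
  (node (nat_lit 4) (nat_lit 31943) (nat_lit 11) (node (nat_lit 7) (nat_lit 27399) (nat_lit 12)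
  nil nil) nil) nil) nil) nil) nil)))) (node (nat_lit 3) (nat_lit 47241) (nat_lit 6) (node
  (nat_lit 4) (nat_lit 47241) (nat_lit 7) (node (nat_lit 7) (nat_lit 47241) (nat_lit 8) (node
  (nat_lit 9) (nat_lit 47241) (nat_lit 9) (node (nat_lit 7) (nat_lit 47241) (nat_lit 10) (node
  (nat_lit 4) (nat_lit 47241) (nat_lit 11) (node (nat_lit 9) (nat_lit 47241) (nat_lit 12) nil nil)
  nil) (node (nat_lit 4) (nat_lit 47241) (nat_lit 10) nil nil)) nil) (node (nat_lit 5) (nat_lit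
  47241) (nat_lit 8) (node (nat_lit 4) (nat_lit 47241) (nat_lit 9) (node (nat_lit 7) (nat_lit
  28880) (nat_lit 10) nil nil) nil) (node (nat_lit 0) (nat_lit 47241) (nat_lit 8) nil nil))) (node
  (nat_lit 7) (nat_lit 47241) (nat_lit 7) (node (nat_lit 9) (nat_lit 47241) (nat_lit 8) (node
  (nat_lit 4) (nat_lit 47241) (nat_lit 9) nil nil) (node (nat_lit 4) (nat_lit 47241) (nat_lit 8)
  (node (nat_lit 7) (nat_lit 47241) (nat_lit 9) nil nil) (node (nat_lit 5) (nat_lit 47241)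
  (nat_lit 8) nil (node (nat_lit 0) (nat_lit 47241) (nat_lit 8) nil nil)))) (node (nat_lit 5)
  (nat_lit 47241) (nat_lit 7) (node (nat_lit 9) (nat_lit 47241) (nat_lit 8) (node (nat_lit 4)
  (nat_lit 46627) (nat_lit 9) (node (nat_lit 5) (nat_lit 42097) (nat_lit 10) (node (nat_lit 4)
  (nat_lit 34382) (nat_lit 11) (node (nat_lit 7) (nat_lit 25019) (nat_lit 12) (node (nat_lit 4)
  (nat_lit 20754) (nat_lit 13) nil nil) nil) nil) nil) nil) (node (nat_lit 4) (nat_lit 47241)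
  (nat_lit 8) (node (nat_lit 9) (nat_lit 47241) (nat_lit 9) (node (nat_lit 4) (nat_lit 47241)
  (nat_lit 10) nil nil) (node (nat_lit 5) (nat_lit 46452) (nat_lit 9) nil nil)) (node (nat_lit 7)
  (nat_lit 47241) (nat_lit 8) nil (node (nat_lit 0) (nat_lit 47241) (nat_lit 8) nil nil)))) (node
  (nat_lit 0) (nat_lit 47241) (nat_lit 7) (node (nat_lit 4) (nat_lit 47241) (nat_lit 8) nil (node
  (nat_lit 9) (nat_lit 47241) (nat_lit 8) nil (node (nat_lit 0) (nat_lit 47241) (nat_lit 8) nil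
  nil))) nil)))) (node (nat_lit 0) (nat_lit 47241) (nat_lit 6) (node (nat_lit 7) (nat_lit 47241)
  (nat_lit 7) (node (nat_lit 4) (nat_lit 47241) (nat_lit 8) (node (nat_lit 7) (nat_lit 47241)
  (nat_lit 9) (node (nat_lit 9) (nat_lit 47241) (nat_lit 10) nil nil) (node (nat_lit 5) (nat_lit
  47241) (nat_lit 9) nil (node (nat_lit 3) (nat_lit 47241) (nat_lit 9) nil (node (nat_lit 0)
  (nat_lit 47241) (nat_lit 9) nil nil)))) (node (nat_lit 9) (nat_lit 47241) (nat_lit 8) nil (node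
  (nat_lit 3) (nat_lit 47241) (nat_lit 8) nil (node (nat_lit 5) (nat_lit 47241) (nat_lit 8) nil
  nil)))) (node (nat_lit 4) (nat_lit 47241) (nat_lit 7) (node (nat_lit 7) (nat_lit 47241) (nat_lit
  8) (node (nat_lit 9) (nat_lit 47241) (nat_lit 9) nil nil) (node (nat_lit 5) (nat_lit 47241)
  (nat_lit 8) nil (node (nat_lit 3) (nat_lit 47241) (nat_lit 8) nil (node (nat_lit 0) (nat_lit
  47241) (nat_lit 8) nil nil)))) (node (nat_lit 5) (nat_lit 47241) (nat_lit 7) (node (nat_lit 4)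
  (nat_lit 47015) (nat_lit 8) nil (node (nat_lit 3) (nat_lit 47241) (nat_lit 8) nil (node (nat_lit
  7) (nat_lit 47241) (nat_lit 8) nil nil))) (node (nat_lit 3) (nat_lit 47241) (nat_lit 7) (node
  (nat_lit 4) (nat_lit 47241) (nat_lit 8) nil nil) (node (nat_lit 0) (nat_lit 47241) (nat_lit 7)
  (node (nat_lit 3) (nat_lit 47241) (nat_lit 8) nil nil) nil))))) nil))) (node (nat_lit 5)
  (nat_lit 0) (nat_lit 5) (node (nat_lit 7) (nat_lit 42960) (nat_lit 6) (node (nat_lit 4) (nat_lit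
  45971) (nat_lit 7) (node (nat_lit 7) (nat_lit 47241) (nat_lit 8) (node (nat_lit 5) (nat_lit
  46295) (nat_lit 9) (node (nat_lit 4) (nat_lit 46598) (nat_lit 10) (node (nat_lit 5) (nat_lit
  47208) (nat_lit 11) (node (nat_lit 3) (nat_lit 47241) (nat_lit 12) (node (nat_lit 4) (nat_lit
  47241) (nat_lit 13) nil nil) (node (nat_lit 7) (nat_lit 47241) (nat_lit 12) nil nil)) (node
  (nat_lit 7) (nat_lit 47241) (nat_lit 11) (node (nat_lit 4) (nat_lit 47241) (nat_lit 12) (node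
  (nat_lit 5) (nat_lit 46628) (nat_lit 13) nil nil) nil) (node (nat_lit 3) (nat_lit 46877)
  (nat_lit 11) (node (nat_lit 4) (nat_lit 46436) (nat_lit 12) nil nil) (node (nat_lit 0) (nat_lit
  47241) (nat_lit 11) nil nil)))) (node (nat_lit 3) (nat_lit 46767) (nat_lit 10) nil (node
  (nat_lit 0) (nat_lit 47125) (nat_lit 10) nil nil))) nil) (node (nat_lit 5) (nat_lit 47241)
  (nat_lit 8) (node (nat_lit 4) (nat_lit 46198) (nat_lit 9) (node (nat_lit 7) (nat_lit 47028)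
  (nat_lit 10) nil nil) nil) nil)) (node (nat_lit 0) (nat_lit 45337) (nat_lit 7) nil (node
  (nat_lit 3) (nat_lit 42960) (nat_lit 7) nil nil))) (node (nat_lit 4) (nat_lit 41949) (nat_lit 6)
  (node (nat_lit 5) (nat_lit 45845) (nat_lit 7) (node (nat_lit 7) (nat_lit 47241) (nat_lit 8)
  (node (nat_lit 4) (nat_lit 47241) (nat_lit 9) nil nil) (node (nat_lit 3) (nat_lit 46430)
  (nat_lit 8) (node (nat_lit 4) (nat_lit 44345) (nat_lit 9) (node (nat_lit 5) (nat_lit 30549)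
  (nat_lit 10) (node (nat_lit 4) (nat_lit 22958) (nat_lit 11) (node (nat_lit 7) (nat_lit 14937)
  (nat_lit 12) nil nil) nil) nil) nil) nil)) (node (nat_lit 3) (nat_lit 46678) (nat_lit 7) (node
  (nat_lit 4) (nat_lit 37386) (nat_lit 8) (node (nat_lit 5) (nat_lit 30451) (nat_lit 9) (node
  (nat_lit 4) (nat_lit 26985) (nat_lit 10) nil nil) nil) nil) (node (nat_lit 0) (nat_lit 45185)
  (nat_lit 7) nil nil))) (node (nat_lit 3) (nat_lit 46976) (nat_lit 6) (node (nat_lit 4) (nat_lit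
  47241) (nat_lit 7) (node (nat_lit 5) (nat_lit 47241) (nat_lit 8) (node (nat_lit 4) (nat_lit
  47241) (nat_lit 9) (node (nat_lit 7) (nat_lit 10578) (nat_lit 10) nil (node (nat_lit 9) (nat_lit
  47241) (nat_lit 10) nil nil)) nil) (node (nat_lit 9) (nat_lit 47241) (nat_lit 8) nil nil)) (node
  (nat_lit 5) (nat_lit 47241) (nat_lit 7) nil (node (nat_lit 7) (nat_lit 47241) (nat_lit 7) nil
  (node (nat_lit 0) (nat_lit 47241) (nat_lit 7) nil nil)))) (node (nat_lit 0) (nat_lit 47241)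
  (nat_lit 6) (node (nat_lit 4) (nat_lit 47241) (nat_lit 7) nil (node (nat_lit 0) (nat_lit 47241)
  (nat_lit 7) nil (node (nat_lit 7) (nat_lit 47241) (nat_lit 7) nil (node (nat_lit 3) (nat_lit
  47241) (nat_lit 7) nil nil)))) nil)))) (node (nat_lit 3) (nat_lit 0) (nat_lit 5) (node (nat_lit
  5) (nat_lit 44750) (nat_lit 6) (node (nat_lit 4) (nat_lit 45413) (nat_lit 7) (node (nat_lit 8)
  (nat_lit 44285) (nat_lit 8) (node (nat_lit 4) (nat_lit 42158) (nat_lit 9) (node (nat_lit 5)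
  (nat_lit 37401) (nat_lit 10) nil nil) nil) nil) (node (nat_lit 8) (nat_lit 44479) (nat_lit 7)
  (node (nat_lit 4) (nat_lit 40952) (nat_lit 8) (node (nat_lit 5) (nat_lit 33440) (nat_lit 9)
  (node (nat_lit 4) (nat_lit 21442) (nat_lit 10) nil nil) nil) nil) (node (nat_lit 7) (nat_lit
  47241) (nat_lit 7) nil (node (nat_lit 0) (nat_lit 47241) (nat_lit 7) nil nil)))) (node (nat_lit
  4) (nat_lit 45916) (nat_lit 6) (node (nat_lit 5) (nat_lit 47241) (nat_lit 7) nil (node (nat_lit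
  8) (nat_lit 47241) (nat_lit 7) (node (nat_lit 7) (nat_lit 47241) (nat_lit 8) nil nil) (node
  (nat_lit 0) (nat_lit 47241) (nat_lit 7) nil nil))) (node (nat_lit 7) (nat_lit 47241) (nat_lit 6)
  (node (nat_lit 4) (nat_lit 47187) (nat_lit 7) (node (nat_lit 7) (nat_lit 47241) (nat_lit 8)
  (node (nat_lit 8) (nat_lit 47241) (nat_lit 9) (node (nat_lit 4) (nat_lit 47241) (nat_lit 10) nil
  nil) nil) nil) nil) (node (nat_lit 0) (nat_lit 47241) (nat_lit 6) nil nil)))) (node (nat_lit 0)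
  (nat_lit 0) (nat_lit 5) (node (nat_lit 4) (nat_lit 46472) (nat_lit 6) (node (nat_lit 7) (nat_lit
  47241) (nat_lit 7) (node (nat_lit 4) (nat_lit 47241) (nat_lit 8) (node (nat_lit 8) (nat_lit
  47241) (nat_lit 9) nil nil) (node (nat_lit 5) (nat_lit 47241) (nat_lit 8) nil (node (nat_lit 0)
  (nat_lit 47241) (nat_lit 8) nil (node (nat_lit 3) (nat_lit 47241) (nat_lit 8) nil nil)))) (node
  (nat_lit 8) (nat_lit 47241) (nat_lit 7) nil (node (nat_lit 5) (nat_lit 44524) (nat_lit 7) nil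
  (node (nat_lit 3) (nat_lit 47241) (nat_lit 7) nil (node (nat_lit 0) (nat_lit 47241) (nat_lit 7)
  nil nil))))) (node (nat_lit 7) (nat_lit 47241) (nat_lit 6) (node (nat_lit 4) (nat_lit 47241)
  (nat_lit 7) (node (nat_lit 7) (nat_lit 47241) (nat_lit 8) (node (nat_lit 8) (nat_lit 47241)
  (nat_lit 9) nil nil) nil) nil) (node (nat_lit 5) (nat_lit 47192) (nat_lit 6) (node (nat_lit 4)
  (nat_lit 45244) (nat_lit 7) nil (node (nat_lit 7) (nat_lit 47241) (nat_lit 7) nil (node (nat_lit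
  8) (nat_lit 47241) (nat_lit 7) nil nil))) (node (nat_lit 3) (nat_lit 46472) (nat_lit 6) (node
  (nat_lit 4) (nat_lit 47241) (nat_lit 7) nil nil) (node (nat_lit 0) (nat_lit 47241) (nat_lit 6)
  nil nil))))) nil)))) (node (nat_lit 3) (nat_lit 0) (nat_lit 4) (node (nat_lit 0) (nat_lit 0)
  (nat_lit 5) (node (nat_lit 4) (nat_lit 0) (nat_lit 6) (node (nat_lit 7) (nat_lit 45189) (nat_lit
  7) (node (nat_lit 4) (nat_lit 46694) (nat_lit 8) (node (nat_lit 8) (nat_lit 47241) (nat_lit 9)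
  (node (nat_lit 4) (nat_lit 47241) (nat_lit 10) (node (nat_lit 7) (nat_lit 47241) (nat_lit 11)
  (node (nat_lit 8) (nat_lit 47241) (nat_lit 12) nil nil) (node (nat_lit 5) (nat_lit 47241)
  (nat_lit 11) nil (node (nat_lit 0) (nat_lit 47241) (nat_lit 11) nil nil))) (node (nat_lit 7)
  (nat_lit 47241) (nat_lit 10) (node (nat_lit 4) (nat_lit 47241) (nat_lit 11) nil nil) (node
  (nat_lit 5) (nat_lit 47241) (nat_lit 10) nil (node (nat_lit 0) (nat_lit 47241) (nat_lit 10) nil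
  nil)))) (node (nat_lit 5) (nat_lit 47241) (nat_lit 9) (node (nat_lit 7) (nat_lit 47241) (nat_lit
  10) nil (node (nat_lit 8) (nat_lit 47241) (nat_lit 10) nil nil)) (node (nat_lit 0) (nat_lit
  47241) (nat_lit 9) nil nil))) (node (nat_lit 5) (nat_lit 46930) (nat_lit 8) (node (nat_lit 8)
  (nat_lit 47241) (nat_lit 9) (node (nat_lit 7) (nat_lit 47241) (nat_lit 10) nil nil) (node
  (nat_lit 7) (nat_lit 47241) (nat_lit 9) (node (nat_lit 4) (nat_lit 47241) (nat_lit 10) nil nil)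
  (node (nat_lit 4) (nat_lit 47241) (nat_lit 9) nil nil))) (node (nat_lit 0) (nat_lit 47241)
  (nat_lit 8) (node (nat_lit 7) (nat_lit 47241) (nat_lit 9) nil (node (nat_lit 4) (nat_lit 47241)
  (nat_lit 9) nil (node (nat_lit 5) (nat_lit 47241) (nat_lit 9) nil (node (nat_lit 8) (nat_lit
  47241) (nat_lit 9) nil nil)))) nil))) (node (nat_lit 5) (nat_lit 44263) (nat_lit 7) (node
  (nat_lit 7) (nat_lit 46004) (nat_lit 8) (node (nat_lit 4) (nat_lit 45036) (nat_lit 9) (node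
  (nat_lit 5) (nat_lit 39763) (nat_lit 10) nil nil) nil) (node (nat_lit 8) (nat_lit 46017)
  (nat_lit 8) nil nil)) (node (nat_lit 8) (nat_lit 45337) (nat_lit 7) (node (nat_lit 7) (nat_lit
  45337) (nat_lit 8) nil nil) (node (nat_lit 0) (nat_lit 45337) (nat_lit 7) nil nil)))) (node
  (nat_lit 5) (nat_lit 41018) (nat_lit 6) (node (nat_lit 7) (nat_lit 45049) (nat_lit 7) (node
  (nat_lit 4) (nat_lit 46791) (nat_lit 8) (node (nat_lit 7) (nat_lit 47241) (nat_lit 9) nil (node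
  (nat_lit 5) (nat_lit 47241) (nat_lit 9) nil nil)) (node (nat_lit 5) (nat_lit 46791) (nat_lit 8)
  nil (node (nat_lit 0) (nat_lit 46804) (nat_lit 8) nil nil))) (node (nat_lit 4) (nat_lit 44211)
  (nat_lit 7) (node (nat_lit 5) (nat_lit 42245) (nat_lit 8) nil nil) (node (nat_lit 8) (nat_lit
  45286) (nat_lit 7) nil nil))) (node (nat_lit 7) (nat_lit 0) (nat_lit 6) (node (nat_lit 4)
  (nat_lit 45054) (nat_lit 7) (node (nat_lit 8) (nat_lit 47241) (nat_lit 8) (node (nat_lit 4)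
  (nat_lit 47241) (nat_lit 9) nil nil) nil) (node (nat_lit 5) (nat_lit 44664) (nat_lit 7) (node
  (nat_lit 7) (nat_lit 45872) (nat_lit 8) nil nil) (node (nat_lit 0) (nat_lit 46129) (nat_lit 7)
  nil nil))) (node (nat_lit 0) (nat_lit 43388) (nat_lit 6) (node (nat_lit 7) (nat_lit 44420)
  (nat_lit 7) nil (node (nat_lit 5) (nat_lit 42326) (nat_lit 7) nil (node (nat_lit 4) (nat_lit
  43388) (nat_lit 7) nil (node (nat_lit 8) (nat_lit 44462) (nat_lit 7) nil (node (nat_lit 0)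
  (nat_lit 44462) (nat_lit 7) nil nil))))) nil)))) (node (nat_lit 5) (nat_lit 0) (nat_lit 5) (node
  (nat_lit 7) (nat_lit 0) (nat_lit 6) (node (nat_lit 4) (nat_lit 36437) (nat_lit 7) (node (nat_lit
  5) (nat_lit 22245) (nat_lit 8) (node (nat_lit 7) (nat_lit 25354) (nat_lit 9) nil (node (nat_lit
  0) (nat_lit 24937) (nat_lit 9) nil nil)) (node (nat_lit 7) (nat_lit 38414) (nat_lit 8) (node
  (nat_lit 0) (nat_lit 41105) (nat_lit 9) nil nil) (node (nat_lit 0) (nat_lit 44543) (nat_lit 8)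
  nil nil))) (node (nat_lit 0) (nat_lit 43582) (nat_lit 7) (node (nat_lit 7) (nat_lit 43582)
  (nat_lit 8) nil (node (nat_lit 5) (nat_lit 43582) (nat_lit 8) nil nil)) nil)) (node (nat_lit 4)
  (nat_lit 0) (nat_lit 6) (node (nat_lit 5) (nat_lit 37347) (nat_lit 7) (node (nat_lit 7) (nat_lit
  41359) (nat_lit 8) (node (nat_lit 4) (nat_lit 43580) (nat_lit 9) (node (nat_lit 5) (nat_lit
  44177) (nat_lit 10) (node (nat_lit 4) (nat_lit 41757) (nat_lit 11) (node (nat_lit 7) (nat_lit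
  31113) (nat_lit 12) (node (nat_lit 5) (nat_lit 19654) (nat_lit 13) nil nil) nil) nil) nil) (node
  (nat_lit 0) (nat_lit 44050) (nat_lit 9) nil nil)) (node (nat_lit 0) (nat_lit 44180) (nat_lit 8)
  (node (nat_lit 7) (nat_lit 44180) (nat_lit 9) nil nil) nil)) (node (nat_lit 0) (nat_lit 43525)
  (nat_lit 7) (node (nat_lit 5) (nat_lit 43525) (nat_lit 8) nil nil) nil)) (node (nat_lit 0)
  (nat_lit 0) (nat_lit 6) (node (nat_lit 4) (nat_lit 41448) (nat_lit 7) (node (nat_lit 7) (nat_lit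
  44110) (nat_lit 8) nil nil) (node (nat_lit 7) (nat_lit 41448) (nat_lit 7) (node (nat_lit 5)
  (nat_lit 40281) (nat_lit 8) nil nil) (node (nat_lit 5) (nat_lit 41587) (nat_lit 7) (node
  (nat_lit 7) (nat_lit 43583) (nat_lit 8) nil nil) (node (nat_lit 0) (nat_lit 42411) (nat_lit 7)
  nil nil)))) nil))) (node (nat_lit 4) (nat_lit 0) (nat_lit 5) (node (nat_lit 5) (nat_lit 0)
  (nat_lit 6) (node (nat_lit 7) (nat_lit 0) (nat_lit 7) (node (nat_lit 5) (nat_lit 23206) (nat_lit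
  8) (node (nat_lit 4) (nat_lit 23931) (nat_lit 9) nil nil) (node (nat_lit 4) (nat_lit 23106)
  (nat_lit 8) (node (nat_lit 7) (nat_lit 24618) (nat_lit 9) nil nil) (node (nat_lit 0) (nat_lit
  24541) (nat_lit 8) nil nil))) (node (nat_lit 0) (nat_lit 24956) (nat_lit 7) nil nil)) (node
  (nat_lit 0) (nat_lit 0) (nat_lit 6) (node (nat_lit 5) (nat_lit 25427) (nat_lit 7) (node (nat_lit
  7) (nat_lit 28283) (nat_lit 8) nil nil) (node (nat_lit 7) (nat_lit 24844) (nat_lit 7) (node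
  (nat_lit 4) (nat_lit 26840) (nat_lit 8) nil nil) (node (nat_lit 4) (nat_lit 22889) (nat_lit 7)
  (node (nat_lit 7) (nat_lit 24885) (nat_lit 8) nil nil) (node (nat_lit 0) (nat_lit 24989)
  (nat_lit 7) nil nil)))) nil)) nil))) nil))

noncomputable def t355 : Tr :=
  (node (nat_lit 3) (nat_lit 0) (nat_lit 3) (node (nat_lit 3) (nat_lit 0) (nat_lit 4) (node
  (nat_lit 5) (nat_lit 0) (nat_lit 5) (node (nat_lit 4) (nat_lit 106300) (nat_lit 6) (node
  (nat_lit 7) (nat_lit 107889) (nat_lit 7) (node (nat_lit 6) (nat_lit 108981) (nat_lit 8) (node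
  (nat_lit 4) (nat_lit 106295) (nat_lit 9) (node (nat_lit 5) (nat_lit 94469) (nat_lit 10) (node
  (nat_lit 6) (nat_lit 85001) (nat_lit 11) (node (nat_lit 7) (nat_lit 73739) (nat_lit 12) nil nil)
  nil) nil) (node (nat_lit 7) (nat_lit 107257) (nat_lit 9) nil nil)) (node (nat_lit 4) (nat_lit
  106980) (nat_lit 8) (node (nat_lit 6) (nat_lit 105413) (nat_lit 9) nil nil) nil)) (node (nat_lit
  6) (nat_lit 108029) (nat_lit 7) (node (nat_lit 7) (nat_lit 105635) (nat_lit 8) (node (nat_lit 4)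
  (nat_lit 103014) (nat_lit 9) (node (nat_lit 5) (nat_lit 100605) (nat_lit 10) (node (nat_lit 6)
  (nat_lit 92747) (nat_lit 11) nil nil) nil) nil) (node (nat_lit 4) (nat_lit 106853) (nat_lit 8)
  nil nil)) nil)) (node (nat_lit 7) (nat_lit 0) (nat_lit 6) (node (nat_lit 6) (nat_lit 108461)
  (nat_lit 7) (node (nat_lit 4) (nat_lit 107489) (nat_lit 8) nil (node (nat_lit 7) (nat_lit
  105527) (nat_lit 8) (node (nat_lit 4) (nat_lit 102906) (nat_lit 9) nil nil) nil)) (node (nat_lit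
  4) (nat_lit 108712) (nat_lit 7) (node (nat_lit 6) (nat_lit 106759) (nat_lit 8) (node (nat_lit 4)
  (nat_lit 103184) (nat_lit 9) nil nil) (node (nat_lit 7) (nat_lit 106873) (nat_lit 8) nil nil))
  (node (nat_lit 0) (nat_lit 110100) (nat_lit 7) nil nil))) (node (nat_lit 6) (nat_lit 0) (nat_lit
  6) (node (nat_lit 5) (nat_lit 110227) (nat_lit 7) (node (nat_lit 7) (nat_lit 110227) (nat_lit 8)
  nil nil) (node (nat_lit 4) (nat_lit 108092) (nat_lit 7) (node (nat_lit 7) (nat_lit 104510)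
  (nat_lit 8) nil (node (nat_lit 6) (nat_lit 106603) (nat_lit 8) nil nil)) (node (nat_lit 0)
  (nat_lit 110227) (nat_lit 7) nil nil))) (node (nat_lit 0) (nat_lit 108070) (nat_lit 6) nil
  nil)))) (node (nat_lit 4) (nat_lit 0) (nat_lit 5) (node (nat_lit 6) (nat_lit 100490) (nat_lit 6)
  (node (nat_lit 4) (nat_lit 95148) (nat_lit 7) (node (nat_lit 7) (nat_lit 94329) (nat_lit 8)
  (node (nat_lit 6) (nat_lit 94416) (nat_lit 9) (node (nat_lit 4) (nat_lit 93293) (nat_lit 10) nil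
  nil) (node (nat_lit 5) (nat_lit 96220) (nat_lit 9) nil (node (nat_lit 4) (nat_lit 92486)
  (nat_lit 9) (node (nat_lit 6) (nat_lit 89907) (nat_lit 10) nil nil) nil))) (node (nat_lit 5)
  (nat_lit 86521) (nat_lit 8) (node (nat_lit 6) (nat_lit 85390) (nat_lit 9) (node (nat_lit 7)
  (nat_lit 86036) (nat_lit 10) (node (nat_lit 4) (nat_lit 54532) (nat_lit 11) nil nil) nil) nil)
  nil)) (node (nat_lit 7) (nat_lit 103279) (nat_lit 7) (node (nat_lit 6) (nat_lit 103401) (nat_lit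
  8) (node (nat_lit 4) (nat_lit 102365) (nat_lit 9) (node (nat_lit 7) (nat_lit 102853) (nat_lit
  10) nil nil) nil) (node (nat_lit 5) (nat_lit 105096) (nat_lit 8) nil nil)) (node (nat_lit 5)
  (nat_lit 104181) (nat_lit 7) nil nil))) (node (nat_lit 7) (nat_lit 105587) (nat_lit 6) (node
  (nat_lit 6) (nat_lit 106873) (nat_lit 7) (node (nat_lit 4) (nat_lit 104421) (nat_lit 8) (node
  (nat_lit 6) (nat_lit 104863) (nat_lit 9) (node (nat_lit 7) (nat_lit 103639) (nat_lit 10) (node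
  (nat_lit 4) (nat_lit 102631) (nat_lit 11) nil nil) nil) nil) nil) nil) (node (nat_lit 5)
  (nat_lit 64735) (nat_lit 6) (node (nat_lit 4) (nat_lit 63907) (nat_lit 7) (node (nat_lit 7)
  (nat_lit 62540) (nat_lit 8) (node (nat_lit 5) (nat_lit 64995) (nat_lit 9) nil nil) (node
  (nat_lit 6) (nat_lit 62935) (nat_lit 8) nil nil)) (node (nat_lit 7) (nat_lit 63983) (nat_lit 7)
  nil (node (nat_lit 6) (nat_lit 53505) (nat_lit 7) nil (node (nat_lit 0) (nat_lit 67025) (nat_lit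
  7) nil nil)))) (node (nat_lit 0) (nat_lit 106035) (nat_lit 6) nil nil)))) (node (nat_lit 6)
  (nat_lit 0) (nat_lit 5) (node (nat_lit 4) (nat_lit 85269) (nat_lit 6) (node (nat_lit 7) (nat_lit
  87156) (nat_lit 7) (node (nat_lit 4) (nat_lit 81506) (nat_lit 8) nil (node (nat_lit 6) (nat_lit
  86184) (nat_lit 8) nil nil)) (node (nat_lit 6) (nat_lit 90509) (nat_lit 7) (node (nat_lit 7)
  (nat_lit 91362) (nat_lit 8) (node (nat_lit 4) (nat_lit 88854) (nat_lit 9) nil nil) nil) (node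
  (nat_lit 5) (nat_lit 64408) (nat_lit 7) (node (nat_lit 6) (nat_lit 64738) (nat_lit 8) (node
  (nat_lit 7) (nat_lit 54481) (nat_lit 9) nil nil) nil) nil))) (node (nat_lit 5) (nat_lit 101070)
  (nat_lit 6) (node (nat_lit 6) (nat_lit 100932) (nat_lit 7) (node (nat_lit 7) (nat_lit 100961)
  (nat_lit 8) (node (nat_lit 5) (nat_lit 102155) (nat_lit 9) nil nil) nil) nil) (node (nat_lit 0)
  (nat_lit 98457) (nat_lit 6) nil nil))) (node (nat_lit 0) (nat_lit 103085) (nat_lit 5) (node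
  (nat_lit 6) (nat_lit 103085) (nat_lit 6) nil nil) nil)))) (node (nat_lit 5) (nat_lit 0) (nat_lit
  4) (node (nat_lit 3) (nat_lit 0) (nat_lit 5) (node (nat_lit 4) (nat_lit 105364) (nat_lit 6)
  (node (nat_lit 6) (nat_lit 107014) (nat_lit 7) (node (nat_lit 8) (nat_lit 109114) (nat_lit 8)
  (node (nat_lit 4) (nat_lit 108683) (nat_lit 9) nil (node (nat_lit 6) (nat_lit 109859) (nat_lit
  9) (node (nat_lit 4) (nat_lit 108483) (nat_lit 10) nil nil) nil)) (node (nat_lit 4) (nat_lit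
  103947) (nat_lit 8) (node (nat_lit 8) (nat_lit 103576) (nat_lit 9) (node (nat_lit 6) (nat_lit
  102463) (nat_lit 10) nil (node (nat_lit 4) (nat_lit 101333) (nat_lit 10) nil nil)) (node
  (nat_lit 5) (nat_lit 93042) (nat_lit 9) (node (nat_lit 6) (nat_lit 90141) (nat_lit 10) (node
  (nat_lit 5) (nat_lit 91152) (nat_lit 11) nil nil) nil) nil)) nil)) (node (nat_lit 8) (nat_lit
  106252) (nat_lit 7) (node (nat_lit 6) (nat_lit 104792) (nat_lit 8) (node (nat_lit 4) (nat_lit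
  101695) (nat_lit 9) nil nil) nil) (node (nat_lit 5) (nat_lit 110227) (nat_lit 7) nil (node
  (nat_lit 0) (nat_lit 110227) (nat_lit 7) nil nil)))) (node (nat_lit 6) (nat_lit 105415) (nat_lit
  6) (node (nat_lit 8) (nat_lit 108055) (nat_lit 7) (node (nat_lit 4) (nat_lit 107268) (nat_lit 8)
  (node (nat_lit 5) (nat_lit 92626) (nat_lit 9) (node (nat_lit 6) (nat_lit 83240) (nat_lit 10) nil
  nil) (node (nat_lit 6) (nat_lit 104652) (nat_lit 9) nil nil)) (node (nat_lit 5) (nat_lit 109978)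
  (nat_lit 8) nil nil)) (node (nat_lit 4) (nat_lit 107110) (nat_lit 7) (node (nat_lit 8) (nat_lit
  105115) (nat_lit 8) (node (nat_lit 4) (nat_lit 102213) (nat_lit 9) nil nil) (node (nat_lit 6)
  (nat_lit 108330) (nat_lit 8) nil nil)) (node (nat_lit 5) (nat_lit 109646) (nat_lit 7) nil nil)))
  (node (nat_lit 5) (nat_lit 109845) (nat_lit 6) (node (nat_lit 6) (nat_lit 109845) (nat_lit 7)
  nil nil) (node (nat_lit 0) (nat_lit 109845) (nat_lit 6) nil nil)))) (node (nat_lit 4) (nat_lit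
  0) (nat_lit 5) (node (nat_lit 3) (nat_lit 103332) (nat_lit 6) (node (nat_lit 6) (nat_lit 104924)
  (nat_lit 7) (node (nat_lit 4) (nat_lit 106547) (nat_lit 8) (node (nat_lit 5) (nat_lit 100376)
  (nat_lit 9) (node (nat_lit 6) (nat_lit 79288) (nat_lit 10) (node (nat_lit 5) (nat_lit 70533)
  (nat_lit 11) (node (nat_lit 4) (nat_lit 68766) (nat_lit 12) nil nil) nil) nil) (node (nat_lit 9)
  (nat_lit 108830) (nat_lit 9) (node (nat_lit 4) (nat_lit 107440) (nat_lit 10) nil nil) (node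
  (nat_lit 6) (nat_lit 106589) (nat_lit 9) nil nil))) (node (nat_lit 9) (nat_lit 107270) (nat_lit
  8) (node (nat_lit 4) (nat_lit 106982) (nat_lit 9) (node (nat_lit 6) (nat_lit 107093) (nat_lit
  10) nil nil) nil) nil)) (node (nat_lit 4) (nat_lit 107553) (nat_lit 7) (node (nat_lit 6)
  (nat_lit 107836) (nat_lit 8) (node (nat_lit 4) (nat_lit 105241) (nat_lit 9) nil nil) nil) (node
  (nat_lit 5) (nat_lit 109861) (nat_lit 7) nil nil))) (node (nat_lit 6) (nat_lit 89044) (nat_lit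
  6) (node (nat_lit 4) (nat_lit 99304) (nat_lit 7) (node (nat_lit 3) (nat_lit 105632) (nat_lit 8)
  (node (nat_lit 6) (nat_lit 107490) (nat_lit 9) nil (node (nat_lit 4) (nat_lit 103796) (nat_lit
  9) nil nil)) (node (nat_lit 5) (nat_lit 107291) (nat_lit 8) (node (nat_lit 6) (nat_lit 106868)
  (nat_lit 9) (node (nat_lit 5) (nat_lit 85180) (nat_lit 10) (node (nat_lit 4) (nat_lit 53265)
  (nat_lit 11) nil nil) nil) nil) nil)) (node (nat_lit 3) (nat_lit 105100) (nat_lit 7) (node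
  (nat_lit 4) (nat_lit 104639) (nat_lit 8) (node (nat_lit 5) (nat_lit 98273) (nat_lit 9) (node
  (nat_lit 6) (nat_lit 86570) (nat_lit 10) (node (nat_lit 5) (nat_lit 69416) (nat_lit 11) nil nil)
  nil) nil) (node (nat_lit 6) (nat_lit 106518) (nat_lit 8) (node (nat_lit 4) (nat_lit 105573)
  (nat_lit 9) nil nil) nil)) (node (nat_lit 5) (nat_lit 101984) (nat_lit 7) nil (node (nat_lit 0)
  (nat_lit 103392) (nat_lit 7) nil nil)))) (node (nat_lit 5) (nat_lit 91374) (nat_lit 6) (node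
  (nat_lit 6) (nat_lit 96731) (nat_lit 7) (node (nat_lit 4) (nat_lit 104666) (nat_lit 8) (node
  (nat_lit 6) (nat_lit 104504) (nat_lit 9) nil (node (nat_lit 3) (nat_lit 100209) (nat_lit 9) nil
  nil)) (node (nat_lit 3) (nat_lit 99074) (nat_lit 8) nil nil)) (node (nat_lit 3) (nat_lit 97809)
  (nat_lit 7) nil (node (nat_lit 0) (nat_lit 96771) (nat_lit 7) nil nil))) (node (nat_lit 0)
  (nat_lit 104246) (nat_lit 6) nil nil)))) (node (nat_lit 0) (nat_lit 0) (nat_lit 5) (node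
  (nat_lit 3) (nat_lit 104445) (nat_lit 6) (node (nat_lit 6) (nat_lit 106415) (nat_lit 7) nil
  (node (nat_lit 4) (nat_lit 104051) (nat_lit 7) nil nil)) (node (nat_lit 4) (nat_lit 106883)
  (nat_lit 6) (node (nat_lit 6) (nat_lit 107803) (nat_lit 7) (node (nat_lit 4) (nat_lit 105718)
  (nat_lit 8) (node (nat_lit 5) (nat_lit 106979) (nat_lit 9) (node (nat_lit 6) (nat_lit 106979)
  (nat_lit 10) (node (nat_lit 5) (nat_lit 107717) (nat_lit 11) (node (nat_lit 8) (nat_lit 82457)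
  (nat_lit 12) (node (nat_lit 4) (nat_lit 52335) (nat_lit 13) nil nil) nil) nil) nil) nil) nil)
  (node (nat_lit 3) (nat_lit 106489) (nat_lit 7) nil nil)) (node (nat_lit 6) (nat_lit 107326)
  (nat_lit 6) (node (nat_lit 5) (nat_lit 110227) (nat_lit 7) nil (node (nat_lit 4) (nat_lit
  105734) (nat_lit 7) nil (node (nat_lit 3) (nat_lit 106931) (nat_lit 7) nil nil))) (node (nat_lit
  0) (nat_lit 109097) (nat_lit 6) nil (node (nat_lit 5) (nat_lit 109097) (nat_lit 6) nil nil)))))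
  nil))) (node (nat_lit 4) (nat_lit 0) (nat_lit 4) (node (nat_lit 3) (nat_lit 0) (nat_lit 5) (node
  (nat_lit 6) (nat_lit 94777) (nat_lit 6) (node (nat_lit 8) (nat_lit 96984) (nat_lit 7) (node
  (nat_lit 4) (nat_lit 94915) (nat_lit 8) (node (nat_lit 6) (nat_lit 92102) (nat_lit 9) nil (node
  (nat_lit 5) (nat_lit 80956) (nat_lit 9) (node (nat_lit 6) (nat_lit 71570) (nat_lit 10) (node
  (nat_lit 4) (nat_lit 66718) (nat_lit 11) (node (nat_lit 8) (nat_lit 57141) (nat_lit 12) nil nil)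
  nil) nil) (node (nat_lit 8) (nat_lit 96773) (nat_lit 9) (node (nat_lit 6) (nat_lit 95748)
  (nat_lit 10) (node (nat_lit 4) (nat_lit 94095) (nat_lit 11) nil nil) nil) nil))) nil) (node
  (nat_lit 4) (nat_lit 90862) (nat_lit 7) (node (nat_lit 6) (nat_lit 92540) (nat_lit 8) (node
  (nat_lit 8) (nat_lit 92620) (nat_lit 9) (node (nat_lit 4) (nat_lit 90637) (nat_lit 10) nil nil)
  nil) (node (nat_lit 5) (nat_lit 70573) (nat_lit 8) (node (nat_lit 6) (nat_lit 63734) (nat_lit 9)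
  nil nil) nil)) nil)) (node (nat_lit 5) (nat_lit 102224) (nat_lit 6) nil (node (nat_lit 4)
  (nat_lit 85284) (nat_lit 6) (node (nat_lit 6) (nat_lit 84466) (nat_lit 7) (node (nat_lit 8)
  (nat_lit 86371) (nat_lit 8) (node (nat_lit 6) (nat_lit 87506) (nat_lit 9) (node (nat_lit 4)
  (nat_lit 86371) (nat_lit 10) (node (nat_lit 8) (nat_lit 84943) (nat_lit 11) nil nil) nil) nil)
  (node (nat_lit 4) (nat_lit 77984) (nat_lit 8) nil nil)) (node (nat_lit 5) (nat_lit 92878)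
  (nat_lit 7) nil nil)) (node (nat_lit 0) (nat_lit 97291) (nat_lit 6) nil nil)))) (node (nat_lit
  5) (nat_lit 0) (nat_lit 5) (node (nat_lit 3) (nat_lit 51623) (nat_lit 6) (node (nat_lit 4)
  (nat_lit 52293) (nat_lit 7) (node (nat_lit 6) (nat_lit 51927) (nat_lit 8) (node (nat_lit 9)
  (nat_lit 52380) (nat_lit 9) nil nil) (node (nat_lit 9) (nat_lit 53471) (nat_lit 8) nil nil))
  (node (nat_lit 6) (nat_lit 51975) (nat_lit 7) (node (nat_lit 4) (nat_lit 51022) (nat_lit 8) nil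
  (node (nat_lit 9) (nat_lit 49132) (nat_lit 8) nil nil)) nil)) (node (nat_lit 4) (nat_lit 46322)
  (nat_lit 6) (node (nat_lit 6) (nat_lit 48978) (nat_lit 7) (node (nat_lit 5) (nat_lit 50900)
  (nat_lit 8) nil (node (nat_lit 3) (nat_lit 52963) (nat_lit 8) (node (nat_lit 4) (nat_lit 51606)
  (nat_lit 9) nil nil) nil)) (node (nat_lit 3) (nat_lit 52736) (nat_lit 7) (node (nat_lit 6)
  (nat_lit 52788) (nat_lit 8) (node (nat_lit 10) (nat_lit 53242) (nat_lit 9) nil nil) nil) nil))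
  (node (nat_lit 0) (nat_lit 53649) (nat_lit 6) nil nil))) (node (nat_lit 6) (nat_lit 0) (nat_lit
  5) (node (nat_lit 3) (nat_lit 93319) (nat_lit 6) (node (nat_lit 4) (nat_lit 90578) (nat_lit 7)
  (node (nat_lit 9) (nat_lit 90697) (nat_lit 8) nil (node (nat_lit 6) (nat_lit 87730) (nat_lit 8)
  nil (node (nat_lit 5) (nat_lit 82634) (nat_lit 8) nil nil))) (node (nat_lit 6) (nat_lit 96123)
  (nat_lit 7) (node (nat_lit 4) (nat_lit 90697) (nat_lit 8) (node (nat_lit 9) (nat_lit 91585)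
  (nat_lit 9) nil nil) nil) nil)) (node (nat_lit 5) (nat_lit 92402) (nat_lit 6) (node (nat_lit 6)
  (nat_lit 91235) (nat_lit 7) (node (nat_lit 4) (nat_lit 91278) (nat_lit 8) nil nil) nil) (node
  (nat_lit 0) (nat_lit 88926) (nat_lit 6) nil nil))) (node (nat_lit 0) (nat_lit 92167) (nat_lit 5)
  (node (nat_lit 6) (nat_lit 92167) (nat_lit 6) nil nil) nil)))) (node (nat_lit 0) (nat_lit 0)
  (nat_lit 4) (node (nat_lit 5) (nat_lit 104960) (nat_lit 5) nil (node (nat_lit 6) (nat_lit 98436)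
  (nat_lit 5) (node (nat_lit 3) (nat_lit 102038) (nat_lit 6) (node (nat_lit 4) (nat_lit 100768)
  (nat_lit 7) nil nil) (node (nat_lit 4) (nat_lit 99769) (nat_lit 6) (node (nat_lit 3) (nat_lit
  93654) (nat_lit 7) (node (nat_lit 4) (nat_lit 88003) (nat_lit 8) nil nil) (node (nat_lit 6)
  (nat_lit 99228) (nat_lit 7) nil nil)) (node (nat_lit 5) (nat_lit 108984) (nat_lit 6) nil nil)))
  (node (nat_lit 3) (nat_lit 95006) (nat_lit 5) (node (nat_lit 6) (nat_lit 101152) (nat_lit 6)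
  (node (nat_lit 4) (nat_lit 100611) (nat_lit 7) nil (node (nat_lit 8) (nat_lit 102062) (nat_lit
  7) nil nil)) (node (nat_lit 4) (nat_lit 97264) (nat_lit 6) (node (nat_lit 6) (nat_lit 87729)
  (nat_lit 7) nil nil) nil)) (node (nat_lit 4) (nat_lit 97013) (nat_lit 5) (node (nat_lit 6)
  (nat_lit 99896) (nat_lit 6) (node (nat_lit 3) (nat_lit 97035) (nat_lit 7) nil (node (nat_lit 4)
  (nat_lit 99355) (nat_lit 7) nil nil)) (node (nat_lit 3) (nat_lit 98464) (nat_lit 6) (node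
  (nat_lit 6) (nat_lit 88929) (nat_lit 7) nil nil) nil)) (node (nat_lit 0) (nat_lit 104960)
  (nat_lit 5) nil nil))))) nil)))) (node (nat_lit 0) (nat_lit 0) (nat_lit 3) (node (nat_lit 3)
  (nat_lit 0) (nat_lit 4) (node (nat_lit 5) (nat_lit 105747) (nat_lit 5) (node (nat_lit 6)
  (nat_lit 108685) (nat_lit 6) nil nil) (node (nat_lit 3) (nat_lit 96584) (nat_lit 5) (node
  (nat_lit 4) (nat_lit 100848) (nat_lit 6) (node (nat_lit 7) (nat_lit 98746) (nat_lit 7) nil (node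
  (nat_lit 8) (nat_lit 99390) (nat_lit 7) nil nil)) (node (nat_lit 7) (nat_lit 97492) (nat_lit 6)
  (node (nat_lit 4) (nat_lit 84542) (nat_lit 7) (node (nat_lit 8) (nat_lit 80531) (nat_lit 8) nil
  nil) nil) (node (nat_lit 5) (nat_lit 104508) (nat_lit 6) nil nil))) (node (nat_lit 6) (nat_lit
  105747) (nat_lit 5) nil (node (nat_lit 4) (nat_lit 95804) (nat_lit 5) (node (nat_lit 3) (nat_lit
  93755) (nat_lit 6) (node (nat_lit 7) (nat_lit 92565) (nat_lit 7) nil (node (nat_lit 4) (nat_lit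
  88082) (nat_lit 7) nil nil)) (node (nat_lit 7) (nat_lit 100373) (nat_lit 6) (node (nat_lit 3)
  (nat_lit 98517) (nat_lit 7) (node (nat_lit 4) (nat_lit 84788) (nat_lit 8) nil nil) nil) (node
  (nat_lit 5) (nat_lit 104511) (nat_lit 6) (node (nat_lit 6) (nat_lit 51455) (nat_lit 7) nil nil)
  nil))) (node (nat_lit 0) (nat_lit 105747) (nat_lit 5) nil nil))))) (node (nat_lit 0) (nat_lit 0)
  (nat_lit 4) (node (nat_lit 5) (nat_lit 0) (nat_lit 5) (node (nat_lit 7) (nat_lit 108701)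
  (nat_lit 6) (node (nat_lit 6) (nat_lit 108701) (nat_lit 7) nil nil) (node (nat_lit 3) (nat_lit
  106707) (nat_lit 6) nil (node (nat_lit 4) (nat_lit 106265) (nat_lit 6) nil (node (nat_lit 6)
  (nat_lit 108701) (nat_lit 6) nil (node (nat_lit 0) (nat_lit 108701) (nat_lit 6) nil nil)))))
  (node (nat_lit 3) (nat_lit 96181) (nat_lit 5) (node (nat_lit 5) (nat_lit 104888) (nat_lit 6) nil
  (node (nat_lit 3) (nat_lit 100196) (nat_lit 6) nil (node (nat_lit 4) (nat_lit 96911) (nat_lit 6)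
  nil (node (nat_lit 6) (nat_lit 104888) (nat_lit 6) nil (node (nat_lit 7) (nat_lit 104888)
  (nat_lit 6) nil nil))))) (node (nat_lit 6) (nat_lit 108547) (nat_lit 5) (node (nat_lit 5)
  (nat_lit 108701) (nat_lit 6) nil (node (nat_lit 3) (nat_lit 108547) (nat_lit 6) nil nil)) (node
  (nat_lit 4) (nat_lit 97391) (nat_lit 5) (node (nat_lit 3) (nat_lit 96195) (nat_lit 6) nil (node
  (nat_lit 5) (nat_lit 106098) (nat_lit 6) nil (node (nat_lit 6) (nat_lit 106098) (nat_lit 6) nil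
  (node (nat_lit 7) (nat_lit 106098) (nat_lit 6) nil nil)))) (node (nat_lit 0) (nat_lit 107705)
  (nat_lit 5) nil nil))))) (node (nat_lit 5) (nat_lit 0) (nat_lit 4) (node (nat_lit 0) (nat_lit
  106267) (nat_lit 5) (node (nat_lit 5) (nat_lit 108701) (nat_lit 6) nil (node (nat_lit 3)
  (nat_lit 106267) (nat_lit 6) nil (node (nat_lit 4) (nat_lit 106267) (nat_lit 6) nil nil))) (node
  (nat_lit 3) (nat_lit 97639) (nat_lit 5) (node (nat_lit 5) (nat_lit 105206) (nat_lit 6) nil (node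
  (nat_lit 3) (nat_lit 97425) (nat_lit 6) nil (node (nat_lit 4) (nat_lit 99511) (nat_lit 6) nil
  (node (nat_lit 6) (nat_lit 105206) (nat_lit 6) nil nil)))) (node (nat_lit 4) (nat_lit 100633)
  (nat_lit 5) (node (nat_lit 3) (nat_lit 99061) (nat_lit 6) nil nil) nil))) (node (nat_lit 4)
  (nat_lit 0) (nat_lit 4) (node (nat_lit 3) (nat_lit 93739) (nat_lit 5) (node (nat_lit 3) (nat_lit
  95173) (nat_lit 6) (node (nat_lit 4) (nat_lit 82802) (nat_lit 7) nil (node (nat_lit 8) (nat_lit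
  90865) (nat_lit 7) (node (nat_lit 4) (nat_lit 86088) (nat_lit 8) nil nil) nil)) (node (nat_lit
  4) (nat_lit 97748) (nat_lit 6) (node (nat_lit 3) (nat_lit 92887) (nat_lit 7) nil nil) nil))
  (node (nat_lit 5) (nat_lit 96398) (nat_lit 5) nil (node (nat_lit 6) (nat_lit 96398) (nat_lit 5)
  nil (node (nat_lit 0) (nat_lit 96398) (nat_lit 5) nil nil)))) nil)))) (node (nat_lit 4) (nat_lit
  0) (nat_lit 3) (node (nat_lit 3) (nat_lit 0) (nat_lit 4) (node (nat_lit 5) (nat_lit 0) (nat_lit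
  5) (node (nat_lit 3) (nat_lit 97651) (nat_lit 6) (node (nat_lit 7) (nat_lit 103338) (nat_lit 7)
  (node (nat_lit 4) (nat_lit 103238) (nat_lit 8) (node (nat_lit 5) (nat_lit 104389) (nat_lit 9)
  (node (nat_lit 4) (nat_lit 104389) (nat_lit 10) (node (nat_lit 7) (nat_lit 103327) (nat_lit 11)
  (node (nat_lit 5) (nat_lit 64825) (nat_lit 12) nil nil) nil) nil) (node (nat_lit 9) (nat_lit
  102256) (nat_lit 9) nil nil)) (node (nat_lit 9) (nat_lit 100575) (nat_lit 8) (node (nat_lit 4)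
  (nat_lit 98513) (nat_lit 9) (node (nat_lit 5) (nat_lit 95165) (nat_lit 10) (node (nat_lit 4)
  (nat_lit 85698) (nat_lit 11) nil nil) nil) nil) nil)) (node (nat_lit 4) (nat_lit 100457)
  (nat_lit 7) (node (nat_lit 7) (nat_lit 98597) (nat_lit 8) (node (nat_lit 9) (nat_lit 97617)
  (nat_lit 9) nil nil) nil) nil)) (node (nat_lit 7) (nat_lit 0) (nat_lit 6) (node (nat_lit 4)
  (nat_lit 96921) (nat_lit 7) (node (nat_lit 5) (nat_lit 102104) (nat_lit 8) (node (nat_lit 4)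
  (nat_lit 102104) (nat_lit 9) (node (nat_lit 7) (nat_lit 101992) (nat_lit 10) (node (nat_lit 5)
  (nat_lit 50790) (nat_lit 11) nil nil) nil) nil) (node (nat_lit 3) (nat_lit 100638) (nat_lit 8)
  (node (nat_lit 4) (nat_lit 97469) (nat_lit 9) (node (nat_lit 5) (nat_lit 93290) (nat_lit 10)
  (node (nat_lit 4) (nat_lit 89156) (nat_lit 11) (node (nat_lit 7) (nat_lit 84389) (nat_lit 12)
  nil nil) nil) nil) nil) (node (nat_lit 7) (nat_lit 96872) (nat_lit 8) nil nil))) (node (nat_lit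
  3) (nat_lit 95171) (nat_lit 7) (node (nat_lit 7) (nat_lit 98244) (nat_lit 8) (node (nat_lit 4)
  (nat_lit 95561) (nat_lit 9) nil nil) nil) (node (nat_lit 0) (nat_lit 98826) (nat_lit 7) nil
  nil))) (node (nat_lit 4) (nat_lit 0) (nat_lit 6) (node (nat_lit 5) (nat_lit 96909) (nat_lit 7)
  (node (nat_lit 7) (nat_lit 96508) (nat_lit 8) (node (nat_lit 5) (nat_lit 100350) (nat_lit 9) nil
  (node (nat_lit 4) (nat_lit 96441) (nat_lit 9) nil nil)) (node (nat_lit 3) (nat_lit 99349)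
  (nat_lit 8) nil nil)) (node (nat_lit 3) (nat_lit 94057) (nat_lit 7) (node (nat_lit 7) (nat_lit
  93086) (nat_lit 8) (node (nat_lit 4) (nat_lit 90403) (nat_lit 9) nil nil) (node (nat_lit 4)
  (nat_lit 93965) (nat_lit 8) nil nil)) (node (nat_lit 0) (nat_lit 97342) (nat_lit 7) nil nil)))
  (node (nat_lit 0) (nat_lit 94957) (nat_lit 6) nil nil)))) (node (nat_lit 3) (nat_lit 0) (nat_lit
  5) (node (nat_lit 4) (nat_lit 83978) (nat_lit 6) (node (nat_lit 8) (nat_lit 88770) (nat_lit 7)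
  (node (nat_lit 7) (nat_lit 89854) (nat_lit 8) (node (nat_lit 4) (nat_lit 86990) (nat_lit 9)
  (node (nat_lit 5) (nat_lit 81913) (nat_lit 10) (node (nat_lit 4) (nat_lit 60685) (nat_lit 11)
  (node (nat_lit 7) (nat_lit 54025) (nat_lit 12) (node (nat_lit 8) (nat_lit 53180) (nat_lit 13)
  (node (nat_lit 4) (nat_lit 47949) (nat_lit 14) nil nil) nil) nil) nil) (node (nat_lit 8)
  (nat_lit 85113) (nat_lit 10) nil nil)) (node (nat_lit 5) (nat_lit 92010) (nat_lit 9) nil (node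
  (nat_lit 8) (nat_lit 87426) (nat_lit 9) (node (nat_lit 4) (nat_lit 84749) (nat_lit 10) nil nil)
  nil))) (node (nat_lit 5) (nat_lit 92278) (nat_lit 8) nil nil)) (node (nat_lit 7) (nat_lit 86459)
  (nat_lit 7) (node (nat_lit 4) (nat_lit 84091) (nat_lit 8) (node (nat_lit 8) (nat_lit 82813)
  (nat_lit 9) (node (nat_lit 7) (nat_lit 79173) (nat_lit 10) nil nil) (node (nat_lit 5) (nat_lit
  77834) (nat_lit 9) nil nil)) (node (nat_lit 5) (nat_lit 89678) (nat_lit 8) nil nil)) (node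
  (nat_lit 5) (nat_lit 73687) (nat_lit 7) (node (nat_lit 4) (nat_lit 63639) (nat_lit 8) (node
  (nat_lit 7) (nat_lit 53038) (nat_lit 9) nil nil) nil) nil))) (node (nat_lit 7) (nat_lit 92200)
  (nat_lit 6) (node (nat_lit 4) (nat_lit 92508) (nat_lit 7) (node (nat_lit 8) (nat_lit 92987)
  (nat_lit 8) (node (nat_lit 4) (nat_lit 92219) (nat_lit 9) (node (nat_lit 7) (nat_lit 90216)
  (nat_lit 10) nil nil) nil) (node (nat_lit 5) (nat_lit 70987) (nat_lit 8) (node (nat_lit 4)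
  (nat_lit 59075) (nat_lit 9) (node (nat_lit 7) (nat_lit 58533) (nat_lit 10) nil nil) nil) nil))
  (node (nat_lit 5) (nat_lit 98672) (nat_lit 7) nil nil)) (node (nat_lit 5) (nat_lit 101159)
  (nat_lit 6) (node (nat_lit 4) (nat_lit 101159) (nat_lit 7) nil (node (nat_lit 8) (nat_lit
  101159) (nat_lit 7) (node (nat_lit 7) (nat_lit 99286) (nat_lit 8) nil nil) (node (nat_lit 7)
  (nat_lit 101159) (nat_lit 7) nil nil))) (node (nat_lit 0) (nat_lit 95135) (nat_lit 6) nil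
  nil)))) (node (nat_lit 4) (nat_lit 0) (nat_lit 5) (node (nat_lit 3) (nat_lit 89945) (nat_lit 6)
  (node (nat_lit 7) (nat_lit 91376) (nat_lit 7) (node (nat_lit 9) (nat_lit 92680) (nat_lit 8)
  (node (nat_lit 4) (nat_lit 90034) (nat_lit 9) nil nil) (node (nat_lit 4) (nat_lit 91722)
  (nat_lit 8) nil nil)) (node (nat_lit 4) (nat_lit 88674) (nat_lit 7) (node (nat_lit 7) (nat_lit
  87330) (nat_lit 8) (node (nat_lit 9) (nat_lit 86743) (nat_lit 9) (node (nat_lit 4) (nat_lit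
  86363) (nat_lit 10) nil nil) nil) (node (nat_lit 5) (nat_lit 83464) (nat_lit 8) (node (nat_lit
  4) (nat_lit 82333) (nat_lit 9) nil nil) nil)) nil)) (node (nat_lit 5) (nat_lit 68266) (nat_lit
  6) (node (nat_lit 4) (nat_lit 47558) (nat_lit 7) nil nil) (node (nat_lit 0) (nat_lit 87995)
  (nat_lit 6) nil nil))) (node (nat_lit 0) (nat_lit 96132) (nat_lit 5) (node (nat_lit 4) (nat_lit
  96132) (nat_lit 6) nil nil) nil)))) (node (nat_lit 0) (nat_lit 88699) (nat_lit 4) (node (nat_lit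
  3) (nat_lit 90404) (nat_lit 5) (node (nat_lit 4) (nat_lit 94782) (nat_lit 6) (node (nat_lit 3)
  (nat_lit 91084) (nat_lit 7) nil nil) nil) (node (nat_lit 4) (nat_lit 94798) (nat_lit 5) (node
  (nat_lit 3) (nat_lit 95999) (nat_lit 6) (node (nat_lit 3) (nat_lit 94724) (nat_lit 7) nil nil)
  nil) nil)) nil)) nil)))

noncomputable def c14 : Tr :=
  (node (nat_lit 3) (nat_lit 0) (nat_lit 1) (node (nat_lit 3) (nat_lit 0) (nat_lit 2) (node
  (nat_lit 3) (nat_lit 0) (nat_lit 3) (node (nat_lit 0) (nat_lit 0) (nat_lit 4) t351 (node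
  (nat_lit 5) (nat_lit 0) (nat_lit 4) (node (nat_lit 0) (nat_lit 0) (nat_lit 5) t352 (node
  (nat_lit 4) (nat_lit 0) (nat_lit 5) (node (nat_lit 0) (nat_lit 30702) (nat_lit 6) (node (nat_lit
  5) (nat_lit 36487) (nat_lit 7) (node (nat_lit 4) (nat_lit 38590) (nat_lit 8) nil nil) (node
  (nat_lit 6) (nat_lit 35552) (nat_lit 7) (node (nat_lit 5) (nat_lit 36869) (nat_lit 8) nil (node
  (nat_lit 4) (nat_lit 39182) (nat_lit 8) nil nil)) (node (nat_lit 4) (nat_lit 35252) (nat_lit 7)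
  (node (nat_lit 5) (nat_lit 38882) (nat_lit 8) nil (node (nat_lit 6) (nat_lit 36062) (nat_lit 8)
  nil nil)) (node (nat_lit 0) (nat_lit 38723) (nat_lit 7) nil nil)))) (node (nat_lit 5) (nat_lit
  0) (nat_lit 6) (node (nat_lit 6) (nat_lit 0) (nat_lit 7) (node (nat_lit 4) (nat_lit 23603)
  (nat_lit 8) (node (nat_lit 6) (nat_lit 25042) (nat_lit 9) nil (node (nat_lit 5) (nat_lit 25119)
  (nat_lit 9) nil nil)) (node (nat_lit 0) (nat_lit 25399) (nat_lit 8) nil nil)) (node (nat_lit 0)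
  (nat_lit 25913) (nat_lit 7) (node (nat_lit 5) (nat_lit 25913) (nat_lit 8) nil nil) nil)) (node
  (nat_lit 6) (nat_lit 0) (nat_lit 6) (node (nat_lit 5) (nat_lit 0) (nat_lit 7) (node (nat_lit 6)
  (nat_lit 29092) (nat_lit 8) (node (nat_lit 4) (nat_lit 27719) (nat_lit 9) (node (nat_lit 5)
  (nat_lit 28750) (nat_lit 10) nil nil) nil) (node (nat_lit 0) (nat_lit 31224) (nat_lit 8) nil
  nil)) (node (nat_lit 0) (nat_lit 33981) (nat_lit 7) (node (nat_lit 4) (nat_lit 35750) (nat_lit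
  8) nil nil) nil)) nil))) nil)) (node (nat_lit 4) (nat_lit 0) (nat_lit 4) (node (nat_lit 0)
  (nat_lit 0) (nat_lit 5) (node (nat_lit 6) (nat_lit 0) (nat_lit 6) (node (nat_lit 4) (nat_lit
  52270) (nat_lit 7) (node (nat_lit 6) (nat_lit 55082) (nat_lit 8) (node (nat_lit 8) (nat_lit
  57510) (nat_lit 9) (node (nat_lit 6) (nat_lit 57787) (nat_lit 10) (node (nat_lit 4) (nat_lit
  58158) (nat_lit 11) (node (nat_lit 8) (nat_lit 58783) (nat_lit 12) nil nil) (node (nat_lit 5)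
  (nat_lit 58158) (nat_lit 11) nil (node (nat_lit 0) (nat_lit 58486) (nat_lit 11) nil nil))) (node
  (nat_lit 4) (nat_lit 57510) (nat_lit 10) nil (node (nat_lit 5) (nat_lit 57510) (nat_lit 10) nil
  (node (nat_lit 0) (nat_lit 57881) (nat_lit 10) nil nil)))) (node (nat_lit 5) (nat_lit 54935)
  (nat_lit 9) (node (nat_lit 4) (nat_lit 53933) (nat_lit 10) nil (node (nat_lit 8) (nat_lit 56524)
  (nat_lit 10) nil nil)) (node (nat_lit 0) (nat_lit 57510) (nat_lit 9) (node (nat_lit 8) (nat_lit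
  57881) (nat_lit 10) nil nil) nil))) (node (nat_lit 5) (nat_lit 54234) (nat_lit 8) (node (nat_lit
  8) (nat_lit 56753) (nat_lit 9) (node (nat_lit 4) (nat_lit 56753) (nat_lit 10) nil nil) (node
  (nat_lit 4) (nat_lit 53658) (nat_lit 9) nil (node (nat_lit 6) (nat_lit 55564) (nat_lit 9) nil
  (node (nat_lit 0) (nat_lit 56438) (nat_lit 9) nil nil)))) (node (nat_lit 0) (nat_lit 56295)
  (nat_lit 8) (node (nat_lit 4) (nat_lit 56295) (nat_lit 9) nil (node (nat_lit 6) (nat_lit 56295)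
  (nat_lit 9) nil (node (nat_lit 5) (nat_lit 56295) (nat_lit 9) nil (node (nat_lit 8) (nat_lit
  57106) (nat_lit 9) nil (node (nat_lit 0) (nat_lit 57106) (nat_lit 9) nil nil))))) nil))) (node
  (nat_lit 5) (nat_lit 51894) (nat_lit 7) (node (nat_lit 4) (nat_lit 50998) (nat_lit 8) nil (node
  (nat_lit 8) (nat_lit 55252) (nat_lit 8) nil nil)) (node (nat_lit 8) (nat_lit 54327) (nat_lit 7)
  (node (nat_lit 4) (nat_lit 54327) (nat_lit 8) nil nil) (node (nat_lit 0) (nat_lit 54327)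
  (nat_lit 7) nil nil)))) (node (nat_lit 5) (nat_lit 0) (nat_lit 6) (node (nat_lit 4) (nat_lit
  49194) (nat_lit 7) (node (nat_lit 6) (nat_lit 53205) (nat_lit 8) (node (nat_lit 4) (nat_lit
  49577) (nat_lit 9) (node (nat_lit 5) (nat_lit 40098) (nat_lit 10) (node (nat_lit 6) (nat_lit
  39095) (nat_lit 11) (node (nat_lit 4) (nat_lit 39373) (nat_lit 12) nil nil) nil) nil) (node
  (nat_lit 5) (nat_lit 53425) (nat_lit 9) nil nil)) (node (nat_lit 5) (nat_lit 51003) (nat_lit 8)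
  (node (nat_lit 6) (nat_lit 50210) (nat_lit 9) nil nil) (node (nat_lit 0) (nat_lit 52552)
  (nat_lit 8) nil nil))) (node (nat_lit 6) (nat_lit 51714) (nat_lit 7) (node (nat_lit 5) (nat_lit
  50023) (nat_lit 8) nil nil) (node (nat_lit 8) (nat_lit 52027) (nat_lit 7) nil (node (nat_lit 0)
  (nat_lit 50995) (nat_lit 7) nil nil)))) (node (nat_lit 4) (nat_lit 0) (nat_lit 6) (node (nat_lit
  6) (nat_lit 52016) (nat_lit 7) (node (nat_lit 8) (nat_lit 56041) (nat_lit 8) (node (nat_lit 6)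
  (nat_lit 56041) (nat_lit 9) (node (nat_lit 4) (nat_lit 56853) (nat_lit 10) nil nil) nil) (node
  (nat_lit 4) (nat_lit 54073) (nat_lit 8) nil (node (nat_lit 5) (nat_lit 51374) (nat_lit 8) nil
  nil))) (node (nat_lit 5) (nat_lit 49601) (nat_lit 7) (node (nat_lit 4) (nat_lit 48705) (nat_lit
  8) nil nil) (node (nat_lit 0) (nat_lit 52179) (nat_lit 7) nil nil))) (node (nat_lit 0) (nat_lit
  50297) (nat_lit 6) (node (nat_lit 4) (nat_lit 50516) (nat_lit 7) nil (node (nat_lit 5) (nat_lit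
  48422) (nat_lit 7) nil (node (nat_lit 6) (nat_lit 51330) (nat_lit 7) nil (node (nat_lit 0)
  (nat_lit 52354) (nat_lit 7) nil (node (nat_lit 8) (nat_lit 52354) (nat_lit 7) nil nil)))))
  nil)))) (node (nat_lit 5) (nat_lit 0) (nat_lit 5) (node (nat_lit 4) (nat_lit 0) (nat_lit 6)
  (node (nat_lit 6) (nat_lit 34290) (nat_lit 7) (node (nat_lit 5) (nat_lit 36564) (nat_lit 8)
  (node (nat_lit 4) (nat_lit 31499) (nat_lit 9) (node (nat_lit 5) (nat_lit 27798) (nat_lit 10)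
  (node (nat_lit 6) (nat_lit 21222) (nat_lit 11) (node (nat_lit 4) (nat_lit 11404) (nat_lit 12)
  nil nil) nil) nil) (node (nat_lit 6) (nat_lit 37827) (nat_lit 9) nil nil)) (node (nat_lit 4)
  (nat_lit 37014) (nat_lit 8) nil (node (nat_lit 0) (nat_lit 38921) (nat_lit 8) nil nil))) (node
  (nat_lit 0) (nat_lit 38774) (nat_lit 7) nil nil)) (node (nat_lit 0) (nat_lit 0) (nat_lit 6)
  (node (nat_lit 6) (nat_lit 37627) (nat_lit 7) (node (nat_lit 4) (nat_lit 39261) (nat_lit 8) nil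
  nil) (node (nat_lit 4) (nat_lit 36124) (nat_lit 7) nil (node (nat_lit 5) (nat_lit 36124)
  (nat_lit 7) nil (node (nat_lit 0) (nat_lit 38572) (nat_lit 7) nil nil)))) nil)) (node (nat_lit
  6) (nat_lit 0) (nat_lit 5) (node (nat_lit 5) (nat_lit 0) (nat_lit 6) (node (nat_lit 4) (nat_lit
  0) (nat_lit 7) (node (nat_lit 5) (nat_lit 29642) (nat_lit 8) (node (nat_lit 6) (nat_lit 12188)
  (nat_lit 9) (node (nat_lit 5) (nat_lit 11752) (nat_lit 10) nil nil) nil) (node (nat_lit 6)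
  (nat_lit 36646) (nat_lit 8) (node (nat_lit 4) (nat_lit 41219) (nat_lit 9) (node (nat_lit 5)
  (nat_lit 40642) (nat_lit 10) nil nil) nil) (node (nat_lit 0) (nat_lit 38390) (nat_lit 8) nil
  nil))) (node (nat_lit 0) (nat_lit 49786) (nat_lit 7) nil (node (nat_lit 6) (nat_lit 34804)
  (nat_lit 7) nil nil))) (node (nat_lit 0) (nat_lit 0) (nat_lit 6) (node (nat_lit 5) (nat_lit
  46110) (nat_lit 7) (node (nat_lit 4) (nat_lit 49447) (nat_lit 8) nil nil) (node (nat_lit 4)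
  (nat_lit 47668) (nat_lit 7) (node (nat_lit 6) (nat_lit 51565) (nat_lit 8) (node (nat_lit 4)
  (nat_lit 54317) (nat_lit 9) nil nil) nil) (node (nat_lit 6) (nat_lit 47934) (nat_lit 7) (node
  (nat_lit 4) (nat_lit 51565) (nat_lit 8) nil nil) (node (nat_lit 0) (nat_lit 50532) (nat_lit 7)
  nil nil)))) nil)) nil))) nil))) (node (nat_lit 0) (nat_lit 0) (nat_lit 3) (node (nat_lit 3)
  (nat_lit 0) (nat_lit 4) (node (nat_lit 6) (nat_lit 0) (nat_lit 5) (node (nat_lit 5) (nat_lit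
  82250) (nat_lit 6) (node (nat_lit 7) (nat_lit 87283) (nat_lit 7) (node (nat_lit 5) (nat_lit
  87735) (nat_lit 8) (node (nat_lit 4) (nat_lit 87745) (nat_lit 9) (node (nat_lit 7) (nat_lit
  88113) (nat_lit 10) (node (nat_lit 4) (nat_lit 85321) (nat_lit 11) nil nil) (node (nat_lit 5)
  (nat_lit 85246) (nat_lit 10) (node (nat_lit 6) (nat_lit 76093) (nat_lit 11) (node (nat_lit 7)
  (nat_lit 67805) (nat_lit 12) (node (nat_lit 6) (nat_lit 50219) (nat_lit 13) (node (nat_lit 5)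
  (nat_lit 50219) (nat_lit 14) nil nil) nil) nil) (node (nat_lit 7) (nat_lit 84243) (nat_lit 11)
  nil nil)) nil)) (node (nat_lit 6) (nat_lit 89141) (nat_lit 9) nil nil)) (node (nat_lit 4)
  (nat_lit 90169) (nat_lit 8) (node (nat_lit 7) (nat_lit 90766) (nat_lit 9) (node (nat_lit 5)
  (nat_lit 88652) (nat_lit 10) (node (nat_lit 4) (nat_lit 87063) (nat_lit 11) nil nil) nil) nil)
  (node (nat_lit 0) (nat_lit 90351) (nat_lit 8) nil nil))) (node (nat_lit 4) (nat_lit 86900)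
  (nat_lit 7) (node (nat_lit 7) (nat_lit 87478) (nat_lit 8) (node (nat_lit 4) (nat_lit 86996)
  (nat_lit 9) (node (nat_lit 5) (nat_lit 79824) (nat_lit 10) (node (nat_lit 6) (nat_lit 71848)
  (nat_lit 11) (node (nat_lit 7) (nat_lit 68042) (nat_lit 12) nil nil) nil) nil) nil) (node
  (nat_lit 5) (nat_lit 89435) (nat_lit 8) (node (nat_lit 7) (nat_lit 87831) (nat_lit 9) nil nil)
  nil)) (node (nat_lit 6) (nat_lit 89078) (nat_lit 7) (node (nat_lit 7) (nat_lit 89078) (nat_lit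
  8) nil nil) (node (nat_lit 0) (nat_lit 89078) (nat_lit 7) nil nil)))) (node (nat_lit 4) (nat_lit
  83830) (nat_lit 6) (node (nat_lit 7) (nat_lit 89225) (nat_lit 7) (node (nat_lit 5) (nat_lit
  88842) (nat_lit 8) (node (nat_lit 4) (nat_lit 82481) (nat_lit 9) (node (nat_lit 5) (nat_lit
  78184) (nat_lit 10) (node (nat_lit 6) (nat_lit 69311) (nat_lit 11) (node (nat_lit 7) (nat_lit
  58292) (nat_lit 12) nil nil) nil) nil) (node (nat_lit 7) (nat_lit 89030) (nat_lit 9) (node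
  (nat_lit 4) (nat_lit 89040) (nat_lit 10) (node (nat_lit 5) (nat_lit 86603) (nat_lit 11) nil nil)
  nil) nil)) (node (nat_lit 4) (nat_lit 90169) (nat_lit 8) (node (nat_lit 6) (nat_lit 91049)
  (nat_lit 9) nil nil) (node (nat_lit 0) (nat_lit 90766) (nat_lit 8) nil nil))) (node (nat_lit 5)
  (nat_lit 88435) (nat_lit 7) (node (nat_lit 4) (nat_lit 87294) (nat_lit 8) nil (node (nat_lit 7)
  (nat_lit 82846) (nat_lit 8) (node (nat_lit 4) (nat_lit 82734) (nat_lit 9) nil nil) nil)) (node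
  (nat_lit 6) (nat_lit 89356) (nat_lit 7) nil (node (nat_lit 0) (nat_lit 89356) (nat_lit 7) nil
  nil)))) (node (nat_lit 0) (nat_lit 87081) (nat_lit 6) (node (nat_lit 7) (nat_lit 86190) (nat_lit
  7) nil (node (nat_lit 5) (nat_lit 87081) (nat_lit 7) nil (node (nat_lit 4) (nat_lit 87081)
  (nat_lit 7) nil (node (nat_lit 0) (nat_lit 89202) (nat_lit 7) nil (node (nat_lit 6) (nat_lit
  89202) (nat_lit 7) nil nil))))) nil))) (node (nat_lit 5) (nat_lit 0) (nat_lit 5) (node (nat_lit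
  7) (nat_lit 73411) (nat_lit 6) (node (nat_lit 6) (nat_lit 81064) (nat_lit 7) (node (nat_lit 5)
  (nat_lit 82242) (nat_lit 8) (node (nat_lit 7) (nat_lit 84691) (nat_lit 9) (node (nat_lit 5)
  (nat_lit 85020) (nat_lit 10) (node (nat_lit 4) (nat_lit 83888) (nat_lit 11) nil nil) nil) (node
  (nat_lit 4) (nat_lit 81160) (nat_lit 9) nil nil)) (node (nat_lit 7) (nat_lit 82550) (nat_lit 8)
  (node (nat_lit 4) (nat_lit 84577) (nat_lit 9) nil nil) (node (nat_lit 4) (nat_lit 81064)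
  (nat_lit 8) nil (node (nat_lit 0) (nat_lit 82406) (nat_lit 8) nil nil)))) (node (nat_lit 4)
  (nat_lit 72532) (nat_lit 7) (node (nat_lit 5) (nat_lit 70928) (nat_lit 8) (node (nat_lit 4)
  (nat_lit 72869) (nat_lit 9) (node (nat_lit 7) (nat_lit 72698) (nat_lit 10) nil nil) (node
  (nat_lit 6) (nat_lit 54177) (nat_lit 9) (node (nat_lit 7) (nat_lit 51814) (nat_lit 10) (node
  (nat_lit 5) (nat_lit 40830) (nat_lit 11) nil nil) nil) (node (nat_lit 7) (nat_lit 70176)
  (nat_lit 9) nil nil))) (node (nat_lit 7) (nat_lit 75815) (nat_lit 8) (node (nat_lit 5) (nat_lit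
  70325) (nat_lit 9) nil nil) (node (nat_lit 6) (nat_lit 75996) (nat_lit 8) nil nil))) (node
  (nat_lit 0) (nat_lit 80238) (nat_lit 7) nil nil))) (node (nat_lit 6) (nat_lit 0) (nat_lit 6)
  (node (nat_lit 5) (nat_lit 83819) (nat_lit 7) (node (nat_lit 7) (nat_lit 87845) (nat_lit 8)
  (node (nat_lit 5) (nat_lit 89314) (nat_lit 9) (node (nat_lit 4) (nat_lit 89373) (nat_lit 10)
  (node (nat_lit 5) (nat_lit 84981) (nat_lit 11) (node (nat_lit 6) (nat_lit 82332) (nat_lit 12)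
  (node (nat_lit 7) (nat_lit 74757) (nat_lit 13) (node (nat_lit 5) (nat_lit 48939) (nat_lit 14)
  nil nil) nil) nil) (node (nat_lit 7) (nat_lit 87657) (nat_lit 11) nil nil)) nil) (node (nat_lit
  6) (nat_lit 89986) (nat_lit 9) nil (node (nat_lit 4) (nat_lit 89187) (nat_lit 9) nil nil)))
  (node (nat_lit 4) (nat_lit 81868) (nat_lit 8) nil (node (nat_lit 0) (nat_lit 87282) (nat_lit 8)
  nil nil))) (node (nat_lit 4) (nat_lit 84409) (nat_lit 7) (node (nat_lit 7) (nat_lit 87820)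
  (nat_lit 8) (node (nat_lit 5) (nat_lit 86796) (nat_lit 9) (node (nat_lit 4) (nat_lit 84537)
  (nat_lit 10) nil nil) nil) nil) (node (nat_lit 0) (nat_lit 85910) (nat_lit 7) nil nil))) (node
  (nat_lit 4) (nat_lit 77958) (nat_lit 6) (node (nat_lit 7) (nat_lit 80111) (nat_lit 7) (node
  (nat_lit 5) (nat_lit 83245) (nat_lit 8) (node (nat_lit 7) (nat_lit 85283) (nat_lit 9) (node
  (nat_lit 4) (nat_lit 81077) (nat_lit 10) nil nil) nil) (node (nat_lit 4) (nat_lit 77817)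
  (nat_lit 8) (node (nat_lit 5) (nat_lit 77471) (nat_lit 9) (node (nat_lit 6) (nat_lit 67273)
  (nat_lit 10) nil (node (nat_lit 4) (nat_lit 76378) (nat_lit 10) nil nil)) nil) nil)) (node
  (nat_lit 5) (nat_lit 83531) (nat_lit 7) (node (nat_lit 7) (nat_lit 85276) (nat_lit 8) (node
  (nat_lit 5) (nat_lit 85775) (nat_lit 9) nil nil) (node (nat_lit 6) (nat_lit 46448) (nat_lit 8)
  (node (nat_lit 7) (nat_lit 46448) (nat_lit 9) nil nil) nil)) (node (nat_lit 6) (nat_lit 83484)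
  (nat_lit 7) nil nil))) (node (nat_lit 0) (nat_lit 82586) (nat_lit 6) (node (nat_lit 5) (nat_lit
  82586) (nat_lit 7) nil (node (nat_lit 7) (nat_lit 82586) (nat_lit 7) nil nil)) nil)))) (node
  (nat_lit 4) (nat_lit 0) (nat_lit 5) (node (nat_lit 5) (nat_lit 83344) (nat_lit 6) (node (nat_lit
  7) (nat_lit 85828) (nat_lit 7) (node (nat_lit 5) (nat_lit 85500) (nat_lit 8) (node (nat_lit 4)
  (nat_lit 82590) (nat_lit 9) (node (nat_lit 5) (nat_lit 76026) (nat_lit 10) (node (nat_lit 6)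
  (nat_lit 68608) (nat_lit 11) nil nil) nil) nil) (node (nat_lit 4) (nat_lit 87509) (nat_lit 8)
  (node (nat_lit 7) (nat_lit 86012) (nat_lit 9) nil nil) nil)) (node (nat_lit 4) (nat_lit 84647)
  (nat_lit 7) (node (nat_lit 7) (nat_lit 85169) (nat_lit 8) (node (nat_lit 5) (nat_lit 82967)
  (nat_lit 9) nil nil) nil) (node (nat_lit 6) (nat_lit 38847) (nat_lit 7) nil nil))) (node
  (nat_lit 7) (nat_lit 84012) (nat_lit 6) (node (nat_lit 5) (nat_lit 84765) (nat_lit 7) (node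
  (nat_lit 4) (nat_lit 81528) (nat_lit 8) (node (nat_lit 5) (nat_lit 77600) (nat_lit 9) (node
  (nat_lit 6) (nat_lit 64347) (nat_lit 10) (node (nat_lit 7) (nat_lit 50219) (nat_lit 11) (node
  (nat_lit 4) (nat_lit 50219) (nat_lit 12) nil nil) nil) (node (nat_lit 7) (nat_lit 75363)
  (nat_lit 10) nil nil)) nil) nil) (node (nat_lit 6) (nat_lit 89272) (nat_lit 7) nil nil)) (node
  (nat_lit 6) (nat_lit 86836) (nat_lit 6) (node (nat_lit 4) (nat_lit 85946) (nat_lit 7) (node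
  (nat_lit 7) (nat_lit 85247) (nat_lit 8) nil nil) (node (nat_lit 5) (nat_lit 86836) (nat_lit 7)
  nil (node (nat_lit 7) (nat_lit 86836) (nat_lit 7) nil nil))) (node (nat_lit 0) (nat_lit 86941)
  (nat_lit 6) nil nil)))) (node (nat_lit 0) (nat_lit 0) (nat_lit 5) (node (nat_lit 5) (nat_lit
  78693) (nat_lit 6) (node (nat_lit 7) (nat_lit 78211) (nat_lit 7) nil nil) (node (nat_lit 7)
  (nat_lit 81925) (nat_lit 6) (node (nat_lit 5) (nat_lit 80921) (nat_lit 7) nil (node (nat_lit 4)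
  (nat_lit 85330) (nat_lit 7) nil (node (nat_lit 6) (nat_lit 87451) (nat_lit 7) nil nil))) (node
  (nat_lit 4) (nat_lit 79424) (nat_lit 6) nil (node (nat_lit 6) (nat_lit 84242) (nat_lit 6) nil
  (node (nat_lit 0) (nat_lit 84242) (nat_lit 6) nil nil))))) nil)))) t353) (node (nat_lit 4)
  (nat_lit 0) (nat_lit 3) t354 nil))) (node (nat_lit 0) (nat_lit 0) (nat_lit 2) t355 nil)) nil)

noncomputable def t356 : Tr :=
  (node (nat_lit 5) (nat_lit 0) (nat_lit 5) (node (nat_lit 0) (nat_lit 0) (nat_lit 6) (node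
  (nat_lit 5) (nat_lit 0) (nat_lit 7) (node (nat_lit 4) (nat_lit 44383) (nat_lit 8) (node (nat_lit
  9) (nat_lit 46081) (nat_lit 9) (node (nat_lit 5) (nat_lit 46871) (nat_lit 10) (node (nat_lit 9)
  (nat_lit 47567) (nat_lit 11) (node (nat_lit 4) (nat_lit 48197) (nat_lit 12) nil (node (nat_lit
  6) (nat_lit 48197) (nat_lit 12) nil nil)) (node (nat_lit 6) (nat_lit 47567) (nat_lit 11) (node
  (nat_lit 4) (nat_lit 48197) (nat_lit 12) nil (node (nat_lit 5) (nat_lit 48197) (nat_lit 12)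
  (node (nat_lit 4) (nat_lit 48622) (nat_lit 13) nil nil) nil)) (node (nat_lit 0) (nat_lit 47567)
  (nat_lit 11) (node (nat_lit 5) (nat_lit 48197) (nat_lit 12) nil nil) nil))) (node (nat_lit 4)
  (nat_lit 46990) (nat_lit 10) (node (nat_lit 5) (nat_lit 47686) (nat_lit 11) nil (node (nat_lit
  6) (nat_lit 45522) (nat_lit 11) nil nil)) (node (nat_lit 6) (nat_lit 46871) (nat_lit 10) (node
  (nat_lit 4) (nat_lit 47567) (nat_lit 11) nil (node (nat_lit 5) (nat_lit 47567) (nat_lit 11) nil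
  nil)) (node (nat_lit 0) (nat_lit 46871) (nat_lit 10) nil nil)))) (node (nat_lit 6) (nat_lit
  46081) (nat_lit 9) (node (nat_lit 5) (nat_lit 46210) (nat_lit 10) (node (nat_lit 4) (nat_lit
  40627) (nat_lit 11) (node (nat_lit 5) (nat_lit 37538) (nat_lit 12) (node (nat_lit 6) (nat_lit
  32002) (nat_lit 13) nil nil) nil) nil) (node (nat_lit 4) (nat_lit 46871) (nat_lit 10) nil (node
  (nat_lit 9) (nat_lit 46871) (nat_lit 10) nil (node (nat_lit 0) (nat_lit 46871) (nat_lit 10) nil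
  nil)))) (node (nat_lit 5) (nat_lit 46081) (nat_lit 9) (node (nat_lit 9) (nat_lit 46871) (nat_lit
  10) (node (nat_lit 4) (nat_lit 47567) (nat_lit 11) nil nil) nil) (node (nat_lit 0) (nat_lit
  46144) (nat_lit 9) (node (nat_lit 4) (nat_lit 46934) (nat_lit 10) nil (node (nat_lit 5) (nat_lit
  46934) (nat_lit 10) nil (node (nat_lit 0) (nat_lit 46934) (nat_lit 10) nil (node (nat_lit 6)
  (nat_lit 44156) (nat_lit 10) nil (node (nat_lit 9) (nat_lit 46934) (nat_lit 10) nil nil)))))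
  nil)))) (node (nat_lit 6) (nat_lit 40484) (nat_lit 8) (node (nat_lit 4) (nat_lit 44353) (nat_lit
  9) (node (nat_lit 6) (nat_lit 45143) (nat_lit 10) (node (nat_lit 5) (nat_lit 45839) (nat_lit 11)
  (node (nat_lit 4) (nat_lit 42581) (nat_lit 12) (node (nat_lit 5) (nat_lit 40389) (nat_lit 13)
  (node (nat_lit 6) (nat_lit 37324) (nat_lit 14) (node (nat_lit 4) (nat_lit 33728) (nat_lit 15)
  (node (nat_lit 5) (nat_lit 24956) (nat_lit 16) nil nil) nil) nil) nil) nil) nil) (node (nat_lit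
  5) (nat_lit 45143) (nat_lit 10) (node (nat_lit 6) (nat_lit 43141) (nat_lit 11) (node (nat_lit 5)
  (nat_lit 43007) (nat_lit 12) (node (nat_lit 4) (nat_lit 42685) (nat_lit 13) (node (nat_lit 5)
  (nat_lit 41190) (nat_lit 14) nil nil) nil) nil) nil) (node (nat_lit 9) (nat_lit 45143) (nat_lit
  10) nil (node (nat_lit 0) (nat_lit 45143) (nat_lit 10) nil nil)))) (node (nat_lit 9) (nat_lit
  42182) (nat_lit 9) (node (nat_lit 6) (nat_lit 42972) (nat_lit 10) (node (nat_lit 5) (nat_lit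
  43667) (nat_lit 11) (node (nat_lit 9) (nat_lit 44298) (nat_lit 12) nil (node (nat_lit 4)
  (nat_lit 38696) (nat_lit 12) nil nil)) (node (nat_lit 4) (nat_lit 43667) (nat_lit 11) nil nil))
  (node (nat_lit 5) (nat_lit 42972) (nat_lit 10) (node (nat_lit 9) (nat_lit 43667) (nat_lit 11)
  (node (nat_lit 6) (nat_lit 44754) (nat_lit 12) nil nil) (node (nat_lit 4) (nat_lit 43667)
  (nat_lit 11) nil nil)) (node (nat_lit 4) (nat_lit 45199) (nat_lit 10) (node (nat_lit 6) (nat_lit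
  45894) (nat_lit 11) nil nil) (node (nat_lit 0) (nat_lit 44470) (nat_lit 10) nil nil)))) (node
  (nat_lit 5) (nat_lit 42182) (nat_lit 9) (node (nat_lit 9) (nat_lit 42972) (nat_lit 10) (node
  (nat_lit 6) (nat_lit 43667) (nat_lit 11) (node (nat_lit 9) (nat_lit 44298) (nat_lit 12) (node
  (nat_lit 5) (nat_lit 44810) (nat_lit 13) nil nil) (node (nat_lit 5) (nat_lit 44754) (nat_lit 12)
  nil nil)) (node (nat_lit 4) (nat_lit 43667) (nat_lit 11) nil nil)) (node (nat_lit 4) (nat_lit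
  44470) (nat_lit 10) (node (nat_lit 5) (nat_lit 31350) (nat_lit 11) (node (nat_lit 6) (nat_lit
  24337) (nat_lit 12) nil nil) (node (nat_lit 6) (nat_lit 45165) (nat_lit 11) nil nil)) (node
  (nat_lit 0) (nat_lit 42972) (nat_lit 10) nil nil))) (node (nat_lit 0) (nat_lit 44353) (nat_lit
  9) (node (nat_lit 6) (nat_lit 45143) (nat_lit 10) (node (nat_lit 5) (nat_lit 41542) (nat_lit 11)
  nil nil) (node (nat_lit 5) (nat_lit 45143) (nat_lit 10) nil (node (nat_lit 0) (nat_lit 45143)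
  (nat_lit 10) nil (node (nat_lit 4) (nat_lit 45143) (nat_lit 10) nil (node (nat_lit 9) (nat_lit
  45143) (nat_lit 10) nil nil))))) nil)))) (node (nat_lit 0) (nat_lit 43536) (nat_lit 8) (node
  (nat_lit 9) (nat_lit 46045) (nat_lit 9) (node (nat_lit 5) (nat_lit 46835) (nat_lit 10) (node
  (nat_lit 9) (nat_lit 47531) (nat_lit 11) (node (nat_lit 11) (nat_lit 48161) (nat_lit 12) nil
  nil) (node (nat_lit 6) (nat_lit 45215) (nat_lit 11) nil (node (nat_lit 4) (nat_lit 47531)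
  (nat_lit 11) nil (node (nat_lit 0) (nat_lit 47531) (nat_lit 11) nil nil)))) (node (nat_lit 11)
  (nat_lit 46835) (nat_lit 10) (node (nat_lit 5) (nat_lit 47531) (nat_lit 11) nil nil) (node
  (nat_lit 6) (nat_lit 46835) (nat_lit 10) nil (node (nat_lit 4) (nat_lit 46835) (nat_lit 10) nil
  nil)))) (node (nat_lit 5) (nat_lit 45234) (nat_lit 9) (node (nat_lit 9) (nat_lit 46024) (nat_lit
  10) (node (nat_lit 11) (nat_lit 46720) (nat_lit 11) nil nil) (node (nat_lit 6) (nat_lit 46024)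
  (nat_lit 10) nil (node (nat_lit 4) (nat_lit 46835) (nat_lit 10) nil nil))) (node (nat_lit 4)
  (nat_lit 46144) (nat_lit 9) (node (nat_lit 5) (nat_lit 46934) (nat_lit 10) nil (node (nat_lit 6)
  (nat_lit 44156) (nat_lit 10) nil nil)) (node (nat_lit 6) (nat_lit 45234) (nat_lit 9) (node
  (nat_lit 5) (nat_lit 46024) (nat_lit 10) nil (node (nat_lit 4) (nat_lit 46024) (nat_lit 10) nil
  nil)) (node (nat_lit 0) (nat_lit 46045) (nat_lit 9) (node (nat_lit 5) (nat_lit 46835) (nat_lit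
  10) nil nil) nil))))) nil))) (node (nat_lit 4) (nat_lit 0) (nat_lit 7) (node (nat_lit 9)
  (nat_lit 44548) (nat_lit 8) (node (nat_lit 5) (nat_lit 46245) (nat_lit 9) (node (nat_lit 9)
  (nat_lit 47036) (nat_lit 10) (node (nat_lit 4) (nat_lit 48278) (nat_lit 11) (node (nat_lit 5)
  (nat_lit 48908) (nat_lit 12) (node (nat_lit 4) (nat_lit 49420) (nat_lit 13) nil nil) (node
  (nat_lit 6) (nat_lit 46844) (nat_lit 12) (node (nat_lit 5) (nat_lit 46694) (nat_lit 13) nil nil)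
  nil)) nil) nil) nil) (node (nat_lit 6) (nat_lit 44008) (nat_lit 8) (node (nat_lit 5) (nat_lit
  43890) (nat_lit 9) (node (nat_lit 4) (nat_lit 41657) (nat_lit 10) (node (nat_lit 5) (nat_lit
  31881) (nat_lit 11) (node (nat_lit 6) (nat_lit 23984) (nat_lit 12) (node (nat_lit 4) (nat_lit
  12510) (nat_lit 13) nil nil) nil) nil) nil) (node (nat_lit 4) (nat_lit 45816) (nat_lit 9) nil
  nil)) (node (nat_lit 5) (nat_lit 44548) (nat_lit 8) (node (nat_lit 4) (nat_lit 46245) (nat_lit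
  9) nil (node (nat_lit 6) (nat_lit 42141) (nat_lit 9) nil nil)) (node (nat_lit 0) (nat_lit 44548)
  (nat_lit 8) nil nil)))) (node (nat_lit 6) (nat_lit 0) (nat_lit 7) (node (nat_lit 5) (nat_lit
  40484) (nat_lit 8) (node (nat_lit 4) (nat_lit 43564) (nat_lit 9) (node (nat_lit 5) (nat_lit
  23894) (nat_lit 10) nil nil) (node (nat_lit 6) (nat_lit 42182) (nat_lit 9) (node (nat_lit 9)
  (nat_lit 42972) (nat_lit 10) nil nil) nil)) (node (nat_lit 4) (nat_lit 43549) (nat_lit 8) (node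
  (nat_lit 5) (nat_lit 45247) (nat_lit 9) nil nil) (node (nat_lit 9) (nat_lit 40484) (nat_lit 8)
  (node (nat_lit 5) (nat_lit 42182) (nat_lit 9) (node (nat_lit 9) (nat_lit 42972) (nat_lit 10)
  (node (nat_lit 6) (nat_lit 43667) (nat_lit 11) (node (nat_lit 5) (nat_lit 44754) (nat_lit 12)
  nil (node (nat_lit 4) (nat_lit 44298) (nat_lit 12) nil nil)) nil) nil) nil) (node (nat_lit 0)
  (nat_lit 42952) (nat_lit 8) nil nil)))) (node (nat_lit 0) (nat_lit 0) (nat_lit 7) (node (nat_lit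
  5) (nat_lit 43549) (nat_lit 8) (node (nat_lit 9) (nat_lit 46191) (nat_lit 9) (node (nat_lit 5)
  (nat_lit 46981) (nat_lit 10) (node (nat_lit 10) (nat_lit 47677) (nat_lit 11) nil nil) (node
  (nat_lit 4) (nat_lit 46981) (nat_lit 10) nil (node (nat_lit 6) (nat_lit 43730) (nat_lit 10) nil
  (node (nat_lit 0) (nat_lit 46981) (nat_lit 10) nil nil)))) (node (nat_lit 10) (nat_lit 45247)
  (nat_lit 9) nil (node (nat_lit 4) (nat_lit 45247) (nat_lit 9) nil nil))) (node (nat_lit 9)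
  (nat_lit 44548) (nat_lit 8) (node (nat_lit 5) (nat_lit 46245) (nat_lit 9) (node (nat_lit 9)
  (nat_lit 47036) (nat_lit 10) (node (nat_lit 10) (nat_lit 47731) (nat_lit 11) nil nil) nil) nil)
  (node (nat_lit 4) (nat_lit 43549) (nat_lit 8) nil (node (nat_lit 6) (nat_lit 43549) (nat_lit 8)
  nil (node (nat_lit 0) (nat_lit 43549) (nat_lit 8) nil nil))))) nil)))) (node (nat_lit 4)
  (nat_lit 0) (nat_lit 6) (node (nat_lit 0) (nat_lit 0) (nat_lit 7) (node (nat_lit 5) (nat_lit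
  43038) (nat_lit 8) (node (nat_lit 4) (nat_lit 45958) (nat_lit 9) (node (nat_lit 6) (nat_lit
  46749) (nat_lit 10) (node (nat_lit 5) (nat_lit 47319) (nat_lit 11) nil nil) (node (nat_lit 5)
  (nat_lit 46749) (nat_lit 10) (node (nat_lit 10) (nat_lit 47444) (nat_lit 11) nil nil) (node
  (nat_lit 0) (nat_lit 46749) (nat_lit 10) nil nil))) (node (nat_lit 10) (nat_lit 44736) (nat_lit
  9) (node (nat_lit 4) (nat_lit 45526) (nat_lit 10) nil nil) (node (nat_lit 6) (nat_lit 44736)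
  (nat_lit 9) nil nil))) (node (nat_lit 6) (nat_lit 43040) (nat_lit 8) (node (nat_lit 4) (nat_lit
  45682) (nat_lit 9) nil (node (nat_lit 5) (nat_lit 43660) (nat_lit 9) nil nil)) (node (nat_lit 4)
  (nat_lit 44660) (nat_lit 8) (node (nat_lit 5) (nat_lit 46358) (nat_lit 9) (node (nat_lit 10)
  (nat_lit 47148) (nat_lit 10) nil nil) (node (nat_lit 6) (nat_lit 46358) (nat_lit 9) nil nil))
  (node (nat_lit 0) (nat_lit 44585) (nat_lit 8) nil nil)))) (node (nat_lit 6) (nat_lit 0) (nat_lit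
  7) (node (nat_lit 5) (nat_lit 0) (nat_lit 8) (node (nat_lit 6) (nat_lit 40304) (nat_lit 9) (node
  (nat_lit 4) (nat_lit 44928) (nat_lit 10) (node (nat_lit 5) (nat_lit 46317) (nat_lit 11) nil nil)
  nil) (node (nat_lit 0) (nat_lit 40304) (nat_lit 9) nil (node (nat_lit 4) (nat_lit 24848)
  (nat_lit 9) nil nil))) (node (nat_lit 4) (nat_lit 0) (nat_lit 8) (node (nat_lit 5) (nat_lit
  42644) (nat_lit 9) nil (node (nat_lit 0) (nat_lit 42644) (nat_lit 9) nil nil)) (node (nat_lit 0)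
  (nat_lit 42345) (nat_lit 8) nil nil))) nil)) nil)) (node (nat_lit 6) (nat_lit 0) (nat_lit 5)
  (node (nat_lit 0) (nat_lit 0) (nat_lit 6) (node (nat_lit 6) (nat_lit 0) (nat_lit 7) (node
  (nat_lit 4) (nat_lit 64596) (nat_lit 8) (node (nat_lit 9) (nat_lit 68503) (nat_lit 9) (node
  (nat_lit 6) (nat_lit 75477) (nat_lit 10) (node (nat_lit 5) (nat_lit 83331) (nat_lit 11) (node
  (nat_lit 4) (nat_lit 83081) (nat_lit 12) (node (nat_lit 5) (nat_lit 81640) (nat_lit 13) (node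
  (nat_lit 6) (nat_lit 79851) (nat_lit 14) (node (nat_lit 4) (nat_lit 77651) (nat_lit 15) (node
  (nat_lit 6) (nat_lit 68801) (nat_lit 16) (node (nat_lit 9) (nat_lit 55880) (nat_lit 17) nil nil)
  nil) nil) nil) nil) (node (nat_lit 6) (nat_lit 84706) (nat_lit 12) nil nil)) (node (nat_lit 9)
  (nat_lit 79318) (nat_lit 11) (node (nat_lit 4) (nat_lit 80998) (nat_lit 12) (node (nat_lit 6)
  (nat_lit 79622) (nat_lit 13) (node (nat_lit 4) (nat_lit 79973) (nat_lit 14) nil nil) nil) (node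
  (nat_lit 5) (nat_lit 83805) (nat_lit 12) nil (node (nat_lit 0) (nat_lit 80694) (nat_lit 12) nil
  nil))) (node (nat_lit 0) (nat_lit 82323) (nat_lit 11) (node (nat_lit 6) (nat_lit 83698) (nat_lit
  12) nil nil) nil))) (node (nat_lit 4) (nat_lit 74026) (nat_lit 10) (node (nat_lit 6) (nat_lit
  77296) (nat_lit 11) (node (nat_lit 9) (nat_lit 78671) (nat_lit 12) nil (node (nat_lit 5)
  (nat_lit 75209) (nat_lit 12) nil nil)) (node (nat_lit 5) (nat_lit 79618) (nat_lit 11) nil (node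
  (nat_lit 0) (nat_lit 75543) (nat_lit 11) nil nil))) (node (nat_lit 5) (nat_lit 82500) (nat_lit
  10) (node (nat_lit 4) (nat_lit 84017) (nat_lit 11) nil (node (nat_lit 6) (nat_lit 81318)
  (nat_lit 11) nil nil)) (node (nat_lit 0) (nat_lit 82500) (nat_lit 10) nil nil)))) (node (nat_lit
  5) (nat_lit 84132) (nat_lit 9) (node (nat_lit 6) (nat_lit 85438) (nat_lit 10) (node (nat_lit 4)
  (nat_lit 86259) (nat_lit 11) (node (nat_lit 6) (nat_lit 86581) (nat_lit 12) (node (nat_lit 9)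
  (nat_lit 37945) (nat_lit 13) nil nil) nil) (node (nat_lit 5) (nat_lit 86259) (nat_lit 11) (node
  (nat_lit 4) (nat_lit 84248) (nat_lit 12) nil nil) nil)) (node (nat_lit 4) (nat_lit 85438)
  (nat_lit 10) nil (node (nat_lit 9) (nat_lit 85438) (nat_lit 10) nil (node (nat_lit 0) (nat_lit
  85438) (nat_lit 10) nil nil)))) (node (nat_lit 0) (nat_lit 83819) (nat_lit 9) (node (nat_lit 6)
  (nat_lit 85362) (nat_lit 10) (node (nat_lit 4) (nat_lit 86183) (nat_lit 11) nil nil) (node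
  (nat_lit 4) (nat_lit 85438) (nat_lit 10) (node (nat_lit 6) (nat_lit 80061) (nat_lit 11) nil nil)
  (node (nat_lit 5) (nat_lit 85362) (nat_lit 10) nil (node (nat_lit 9) (nat_lit 85362) (nat_lit
  10) nil (node (nat_lit 0) (nat_lit 85362) (nat_lit 10) nil nil))))) (node (nat_lit 6) (nat_lit
  68483) (nat_lit 9) (node (nat_lit 5) (nat_lit 76298) (nat_lit 10) nil (node (nat_lit 0) (nat_lit
  70204) (nat_lit 10) nil nil)) nil)))) (node (nat_lit 5) (nat_lit 81810) (nat_lit 8) (node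
  (nat_lit 4) (nat_lit 83629) (nat_lit 9) (node (nat_lit 6) (nat_lit 85349) (nat_lit 10) (node
  (nat_lit 5) (nat_lit 86866) (nat_lit 11) nil (node (nat_lit 4) (nat_lit 86866) (nat_lit 11)
  (node (nat_lit 5) (nat_lit 88167) (nat_lit 12) (node (nat_lit 6) (nat_lit 74219) (nat_lit 13)
  (node (nat_lit 4) (nat_lit 66963) (nat_lit 14) nil nil) nil) nil) nil)) (node (nat_lit 5)
  (nat_lit 77428) (nat_lit 10) (node (nat_lit 6) (nat_lit 58981) (nat_lit 11) (node (nat_lit 4)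
  (nat_lit 53518) (nat_lit 12) (node (nat_lit 6) (nat_lit 21786) (nat_lit 13) (node (nat_lit 9)
  (nat_lit 22255) (nat_lit 14) nil nil) nil) nil) (node (nat_lit 9) (nat_lit 78944) (nat_lit 11)
  nil nil)) (node (nat_lit 9) (nat_lit 84031) (nat_lit 10) (node (nat_lit 5) (nat_lit 85548)
  (nat_lit 11) nil nil) (node (nat_lit 0) (nat_lit 85807) (nat_lit 10) nil nil)))) (node (nat_lit
  9) (nat_lit 85169) (nat_lit 9) (node (nat_lit 5) (nat_lit 86099) (nat_lit 10) (node (nat_lit 6)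
  (nat_lit 86236) (nat_lit 11) nil (node (nat_lit 4) (nat_lit 84094) (nat_lit 11) nil nil)) (node
  (nat_lit 6) (nat_lit 86099) (nat_lit 10) nil (node (nat_lit 4) (nat_lit 86099) (nat_lit 10)
  (node (nat_lit 5) (nat_lit 86920) (nat_lit 11) nil (node (nat_lit 6) (nat_lit 81940) (nat_lit
  11) nil nil)) (node (nat_lit 0) (nat_lit 86099) (nat_lit 10) nil nil)))) (node (nat_lit 6)
  (nat_lit 85169) (nat_lit 9) (node (nat_lit 9) (nat_lit 86099) (nat_lit 10) (node (nat_lit 5)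
  (nat_lit 86920) (nat_lit 11) nil nil) (node (nat_lit 4) (nat_lit 86099) (nat_lit 10) nil (node
  (nat_lit 0) (nat_lit 86099) (nat_lit 10) nil nil))) (node (nat_lit 0) (nat_lit 85472) (nat_lit
  9) (node (nat_lit 6) (nat_lit 84564) (nat_lit 10) nil (node (nat_lit 5) (nat_lit 86402) (nat_lit
  10) (node (nat_lit 6) (nat_lit 86688) (nat_lit 11) nil nil) (node (nat_lit 4) (nat_lit 83283)
  (nat_lit 10) nil (node (nat_lit 9) (nat_lit 86402) (nat_lit 10) nil (node (nat_lit 0) (nat_lit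
  86402) (nat_lit 10) nil nil))))) nil)))) (node (nat_lit 0) (nat_lit 81782) (nat_lit 8) (node
  (nat_lit 9) (nat_lit 85241) (nat_lit 9) (node (nat_lit 6) (nat_lit 86171) (nat_lit 10) (node
  (nat_lit 5) (nat_lit 86693) (nat_lit 11) nil (node (nat_lit 9) (nat_lit 86992) (nat_lit 11) nil
  (node (nat_lit 4) (nat_lit 86992) (nat_lit 11) nil nil))) (node (nat_lit 11) (nat_lit 86171)
  (nat_lit 10) (node (nat_lit 6) (nat_lit 86308) (nat_lit 11) nil nil) (node (nat_lit 5) (nat_lit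
  86171) (nat_lit 10) nil (node (nat_lit 4) (nat_lit 82709) (nat_lit 10) nil (node (nat_lit 0)
  (nat_lit 86171) (nat_lit 10) nil nil))))) (node (nat_lit 6) (nat_lit 84628) (nat_lit 9) (node
  (nat_lit 9) (nat_lit 86171) (nat_lit 10) (node (nat_lit 11) (nat_lit 86992) (nat_lit 11) nil
  nil) (node (nat_lit 5) (nat_lit 86171) (nat_lit 10) nil (node (nat_lit 4) (nat_lit 86054)
  (nat_lit 10) nil (node (nat_lit 0) (nat_lit 85559) (nat_lit 10) nil nil)))) (node (nat_lit 4)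
  (nat_lit 84761) (nat_lit 9) (node (nat_lit 6) (nat_lit 84805) (nat_lit 10) (node (nat_lit 4)
  (nat_lit 86640) (nat_lit 11) nil nil) (node (nat_lit 5) (nat_lit 85692) (nat_lit 10) nil (node
  (nat_lit 9) (nat_lit 85692) (nat_lit 10) nil nil))) (node (nat_lit 5) (nat_lit 85370) (nat_lit
  9) (node (nat_lit 6) (nat_lit 86184) (nat_lit 10) (node (nat_lit 5) (nat_lit 84988) (nat_lit 11)
  nil nil) (node (nat_lit 4) (nat_lit 86301) (nat_lit 10) nil nil)) (node (nat_lit 0) (nat_lit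
  85370) (nat_lit 9) (node (nat_lit 6) (nat_lit 84313) (nat_lit 10) nil (node (nat_lit 11)
  (nat_lit 86301) (nat_lit 10) nil nil)) nil))))) nil))) (node (nat_lit 4) (nat_lit 0) (nat_lit 7)
  (node (nat_lit 9) (nat_lit 64596) (nat_lit 8) (node (nat_lit 6) (nat_lit 68492) (nat_lit 9)
  (node (nat_lit 9) (nat_lit 75985) (nat_lit 10) (node (nat_lit 4) (nat_lit 80162) (nat_lit 11)
  (node (nat_lit 6) (nat_lit 82002) (nat_lit 12) (node (nat_lit 4) (nat_lit 78985) (nat_lit 13)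
  (node (nat_lit 5) (nat_lit 79922) (nat_lit 14) (node (nat_lit 6) (nat_lit 77902) (nat_lit 15)
  (node (nat_lit 4) (nat_lit 75255) (nat_lit 16) nil nil) nil) nil) (node (nat_lit 5) (nat_lit
  81550) (nat_lit 13) nil (node (nat_lit 9) (nat_lit 83118) (nat_lit 13) nil nil))) (node (nat_lit
  5) (nat_lit 83197) (nat_lit 12) nil (node (nat_lit 0) (nat_lit 81537) (nat_lit 12) nil nil)))
  nil) (node (nat_lit 4) (nat_lit 76707) (nat_lit 10) (node (nat_lit 6) (nat_lit 79777) (nat_lit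
  11) nil nil) nil)) nil) (node (nat_lit 6) (nat_lit 64596) (nat_lit 8) (node (nat_lit 4) (nat_lit
  68441) (nat_lit 9) (node (nat_lit 5) (nat_lit 66483) (nat_lit 10) (node (nat_lit 6) (nat_lit
  63104) (nat_lit 11) (node (nat_lit 4) (nat_lit 43009) (nat_lit 12) (node (nat_lit 6) (nat_lit
  37078) (nat_lit 13) nil nil) nil) nil) (node (nat_lit 9) (nat_lit 76494) (nat_lit 10) (node
  (nat_lit 6) (nat_lit 79197) (nat_lit 11) nil nil) nil)) (node (nat_lit 5) (nat_lit 80824)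
  (nat_lit 9) nil (node (nat_lit 0) (nat_lit 68483) (nat_lit 9) nil nil))) (node (nat_lit 5)
  (nat_lit 79631) (nat_lit 8) (node (nat_lit 6) (nat_lit 82989) (nat_lit 9) (node (nat_lit 5)
  (nat_lit 79637) (nat_lit 10) nil (node (nat_lit 4) (nat_lit 83920) (nat_lit 10) nil nil)) (node
  (nat_lit 4) (nat_lit 82989) (nat_lit 9) (node (nat_lit 6) (nat_lit 80263) (nat_lit 10) nil nil)
  (node (nat_lit 0) (nat_lit 82989) (nat_lit 9) nil nil))) (node (nat_lit 0) (nat_lit 79625)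
  (nat_lit 8) (node (nat_lit 6) (nat_lit 80903) (nat_lit 9) nil (node (nat_lit 5) (nat_lit 82984)
  (nat_lit 9) nil (node (nat_lit 9) (nat_lit 82984) (nat_lit 9) nil (node (nat_lit 4) (nat_lit
  78687) (nat_lit 9) nil (node (nat_lit 0) (nat_lit 82984) (nat_lit 9) nil nil))))) nil)))) (node
  (nat_lit 0) (nat_lit 0) (nat_lit 7) (node (nat_lit 6) (nat_lit 81240) (nat_lit 8) (node (nat_lit
  9) (nat_lit 84024) (nat_lit 9) (node (nat_lit 6) (nat_lit 84955) (nat_lit 10) (node (nat_lit 10)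
  (nat_lit 85776) (nat_lit 11) nil (node (nat_lit 5) (nat_lit 84068) (nat_lit 11) nil (node
  (nat_lit 4) (nat_lit 85776) (nat_lit 11) nil nil))) (node (nat_lit 4) (nat_lit 84955) (nat_lit
  10) nil (node (nat_lit 5) (nat_lit 84955) (nat_lit 10) nil (node (nat_lit 0) (nat_lit 84955)
  (nat_lit 10) nil nil)))) (node (nat_lit 10) (nat_lit 84024) (nat_lit 9) nil (node (nat_lit 4)
  (nat_lit 84024) (nat_lit 9) nil (node (nat_lit 5) (nat_lit 78923) (nat_lit 9) nil nil)))) (node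
  (nat_lit 9) (nat_lit 81367) (nat_lit 8) (node (nat_lit 6) (nat_lit 82349) (nat_lit 9) (node
  (nat_lit 9) (nat_lit 84070) (nat_lit 10) (node (nat_lit 10) (nat_lit 85586) (nat_lit 11) nil
  nil) nil) nil) (node (nat_lit 4) (nat_lit 81227) (nat_lit 8) nil (node (nat_lit 5) (nat_lit
  81241) (nat_lit 8) nil (node (nat_lit 0) (nat_lit 81241) (nat_lit 8) nil nil))))) (node (nat_lit
  5) (nat_lit 0) (nat_lit 7) (node (nat_lit 4) (nat_lit 81879) (nat_lit 8) (node (nat_lit 6)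
  (nat_lit 81436) (nat_lit 9) (node (nat_lit 5) (nat_lit 81659) (nat_lit 10) nil (node (nat_lit 4)
  (nat_lit 72672) (nat_lit 10) nil nil)) (node (nat_lit 5) (nat_lit 84663) (nat_lit 9) nil nil))
  (node (nat_lit 6) (nat_lit 81840) (nat_lit 8) (node (nat_lit 5) (nat_lit 84624) (nat_lit 9)
  (node (nat_lit 9) (nat_lit 85555) (nat_lit 10) nil nil) (node (nat_lit 4) (nat_lit 84624)
  (nat_lit 9) nil nil)) (node (nat_lit 9) (nat_lit 81937) (nat_lit 8) (node (nat_lit 6) (nat_lit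
  84859) (nat_lit 9) (node (nat_lit 9) (nat_lit 85789) (nat_lit 10) (node (nat_lit 5) (nat_lit
  86610) (nat_lit 11) nil nil) nil) nil) (node (nat_lit 0) (nat_lit 81479) (nat_lit 8) nil nil))))
  nil)))) (node (nat_lit 5) (nat_lit 0) (nat_lit 6) (node (nat_lit 0) (nat_lit 0) (nat_lit 7)
  (node (nat_lit 6) (nat_lit 81039) (nat_lit 8) (node (nat_lit 5) (nat_lit 86184) (nat_lit 9)
  (node (nat_lit 4) (nat_lit 86181) (nat_lit 10) (node (nat_lit 5) (nat_lit 84089) (nat_lit 11)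
  (node (nat_lit 6) (nat_lit 74306) (nat_lit 12) (node (nat_lit 4) (nat_lit 47673) (nat_lit 13)
  (node (nat_lit 6) (nat_lit 23755) (nat_lit 14) (node (nat_lit 5) (nat_lit 23616) (nat_lit 15)
  nil nil) nil) nil) nil) (node (nat_lit 10) (nat_lit 87698) (nat_lit 11) nil (node (nat_lit 6)
  (nat_lit 86863) (nat_lit 11) nil nil))) (node (nat_lit 6) (nat_lit 87114) (nat_lit 10) (node
  (nat_lit 10) (nat_lit 87935) (nat_lit 11) nil nil) (node (nat_lit 0) (nat_lit 87114) (nat_lit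
  10) nil nil))) (node (nat_lit 4) (nat_lit 84850) (nat_lit 9) nil (node (nat_lit 10) (nat_lit
  84850) (nat_lit 9) nil nil))) (node (nat_lit 4) (nat_lit 81079) (nat_lit 8) (node (nat_lit 5)
  (nat_lit 86181) (nat_lit 9) (node (nat_lit 4) (nat_lit 87111) (nat_lit 10) nil (node (nat_lit 6)
  (nat_lit 84712) (nat_lit 10) nil nil)) (node (nat_lit 6) (nat_lit 73059) (nat_lit 9) nil nil))
  (node (nat_lit 5) (nat_lit 81820) (nat_lit 8) (node (nat_lit 6) (nat_lit 86064) (nat_lit 9)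
  (node (nat_lit 10) (nat_lit 86994) (nat_lit 10) nil nil) (node (nat_lit 4) (nat_lit 85708)
  (nat_lit 9) nil nil)) (node (nat_lit 0) (nat_lit 78436) (nat_lit 8) nil nil)))) (node (nat_lit
  4) (nat_lit 0) (nat_lit 7) (node (nat_lit 6) (nat_lit 0) (nat_lit 8) (node (nat_lit 4) (nat_lit
  0) (nat_lit 9) (node (nat_lit 5) (nat_lit 56369) (nat_lit 10) nil (node (nat_lit 0) (nat_lit
  68875) (nat_lit 10) nil nil)) (node (nat_lit 0) (nat_lit 64259) (nat_lit 9) nil nil)) (node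
  (nat_lit 5) (nat_lit 0) (nat_lit 8) (node (nat_lit 6) (nat_lit 0) (nat_lit 9) (node (nat_lit 5)
  (nat_lit 30748) (nat_lit 10) nil (node (nat_lit 0) (nat_lit 29485) (nat_lit 10) nil nil)) (node
  (nat_lit 0) (nat_lit 58982) (nat_lit 9) nil nil)) (node (nat_lit 0) (nat_lit 66580) (nat_lit 8)
  (node (nat_lit 4) (nat_lit 66171) (nat_lit 9) nil (node (nat_lit 6) (nat_lit 66363) (nat_lit 9)
  nil nil)) nil))) (node (nat_lit 6) (nat_lit 0) (nat_lit 7) (node (nat_lit 4) (nat_lit 0)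
  (nat_lit 8) (node (nat_lit 5) (nat_lit 76827) (nat_lit 9) (node (nat_lit 6) (nat_lit 82099)
  (nat_lit 10) nil (node (nat_lit 4) (nat_lit 76634) (nat_lit 10) nil nil)) (node (nat_lit 0)
  (nat_lit 71711) (nat_lit 9) nil nil)) (node (nat_lit 0) (nat_lit 77268) (nat_lit 8) nil nil))
  nil))) nil)) nil))

noncomputable def t357 : Tr :=
  (node (nat_lit 4) (nat_lit 0) (nat_lit 5) (node (nat_lit 0) (nat_lit 0) (nat_lit 6) (node
  (nat_lit 4) (nat_lit 0) (nat_lit 7) (node (nat_lit 5) (nat_lit 136941) (nat_lit 8) (node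
  (nat_lit 9) (nat_lit 138639) (nat_lit 9) (node (nat_lit 4) (nat_lit 140160) (nat_lit 10) (node
  (nat_lit 6) (nat_lit 138157) (nat_lit 11) (node (nat_lit 4) (nat_lit 138788) (nat_lit 12) (node
  (nat_lit 5) (nat_lit 138971) (nat_lit 13) (node (nat_lit 6) (nat_lit 135857) (nat_lit 14) (node
  (nat_lit 5) (nat_lit 132880) (nat_lit 15) (node (nat_lit 4) (nat_lit 123641) (nat_lit 16) nil
  nil) nil) nil) nil) (node (nat_lit 5) (nat_lit 137921) (nat_lit 12) nil nil)) (node (nat_lit 9)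
  (nat_lit 140856) (nat_lit 11) (node (nat_lit 5) (nat_lit 141486) (nat_lit 12) nil nil) (node
  (nat_lit 0) (nat_lit 140856) (nat_lit 11) nil nil))) (node (nat_lit 5) (nat_lit 139429) (nat_lit
  10) (node (nat_lit 4) (nat_lit 140125) (nat_lit 11) nil (node (nat_lit 6) (nat_lit 137426)
  (nat_lit 11) nil nil)) (node (nat_lit 6) (nat_lit 138572) (nat_lit 10) (node (nat_lit 5)
  (nat_lit 138675) (nat_lit 11) nil nil) (node (nat_lit 0) (nat_lit 139429) (nat_lit 10) nil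
  nil)))) (node (nat_lit 6) (nat_lit 138358) (nat_lit 9) (node (nat_lit 4) (nat_lit 139148)
  (nat_lit 10) nil (node (nat_lit 5) (nat_lit 136467) (nat_lit 10) (node (nat_lit 4) (nat_lit
  136195) (nat_lit 11) nil nil) (node (nat_lit 9) (nat_lit 139148) (nat_lit 10) nil (node (nat_lit
  0) (nat_lit 139148) (nat_lit 10) nil nil)))) (node (nat_lit 0) (nat_lit 137920) (nat_lit 9)
  (node (nat_lit 4) (nat_lit 138711) (nat_lit 10) nil (node (nat_lit 5) (nat_lit 138711) (nat_lit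
  10) nil (node (nat_lit 0) (nat_lit 138711) (nat_lit 10) nil (node (nat_lit 6) (nat_lit 136123)
  (nat_lit 10) nil (node (nat_lit 9) (nat_lit 138711) (nat_lit 10) nil nil))))) (node (nat_lit 4)
  (nat_lit 138639) (nat_lit 9) (node (nat_lit 9) (nat_lit 139429) (nat_lit 10) (node (nat_lit 5)
  (nat_lit 140125) (nat_lit 11) nil nil) (node (nat_lit 6) (nat_lit 136123) (nat_lit 10) nil nil))
  nil)))) (node (nat_lit 6) (nat_lit 136941) (nat_lit 8) (node (nat_lit 9) (nat_lit 138639)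
  (nat_lit 9) (node (nat_lit 6) (nat_lit 138805) (nat_lit 10) (node (nat_lit 4) (nat_lit 139501)
  (nat_lit 11) nil (node (nat_lit 5) (nat_lit 136280) (nat_lit 11) nil nil)) (node (nat_lit 5)
  (nat_lit 139429) (nat_lit 10) (node (nat_lit 6) (nat_lit 137426) (nat_lit 11) (node (nat_lit 4)
  (nat_lit 138057) (nat_lit 12) nil nil) nil) (node (nat_lit 4) (nat_lit 139429) (nat_lit 10)
  (node (nat_lit 9) (nat_lit 140125) (nat_lit 11) nil nil) (node (nat_lit 0) (nat_lit 139429)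
  (nat_lit 10) nil nil)))) (node (nat_lit 5) (nat_lit 138639) (nat_lit 9) (node (nat_lit 4)
  (nat_lit 140160) (nat_lit 10) (node (nat_lit 5) (nat_lit 134771) (nat_lit 11) (node (nat_lit 6)
  (nat_lit 128503) (nat_lit 12) (node (nat_lit 5) (nat_lit 106845) (nat_lit 13) nil nil) nil)
  (node (nat_lit 6) (nat_lit 140856) (nat_lit 11) (node (nat_lit 4) (nat_lit 141486) (nat_lit 12)
  (node (nat_lit 5) (nat_lit 141998) (nat_lit 13) nil nil) nil) nil)) (node (nat_lit 6) (nat_lit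
  139429) (nat_lit 10) (node (nat_lit 4) (nat_lit 140125) (nat_lit 11) (node (nat_lit 5) (nat_lit
  140755) (nat_lit 12) nil nil) nil) (node (nat_lit 9) (nat_lit 139429) (nat_lit 10) nil (node
  (nat_lit 0) (nat_lit 139429) (nat_lit 10) nil nil)))) (node (nat_lit 4) (nat_lit 138639)
  (nat_lit 9) (node (nat_lit 5) (nat_lit 138761) (nat_lit 10) (node (nat_lit 6) (nat_lit 127463)
  (nat_lit 11) (node (nat_lit 5) (nat_lit 93321) (nat_lit 12) (node (nat_lit 4) (nat_lit 26105)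
  (nat_lit 13) (node (nat_lit 9) (nat_lit 26505) (nat_lit 14) nil nil) nil) nil) nil) (node
  (nat_lit 9) (nat_lit 139429) (nat_lit 10) (node (nat_lit 6) (nat_lit 137426) (nat_lit 11) nil
  nil) nil)) (node (nat_lit 0) (nat_lit 138639) (nat_lit 9) (node (nat_lit 4) (nat_lit 139429)
  (nat_lit 10) nil (node (nat_lit 6) (nat_lit 136123) (nat_lit 10) nil (node (nat_lit 0) (nat_lit
  139429) (nat_lit 10) nil (node (nat_lit 5) (nat_lit 139429) (nat_lit 10) nil nil)))) nil))))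
  (node (nat_lit 0) (nat_lit 134902) (nat_lit 8) (node (nat_lit 9) (nat_lit 136956) (nat_lit 9)
  (node (nat_lit 4) (nat_lit 137746) (nat_lit 10) (node (nat_lit 9) (nat_lit 138441) (nat_lit 11)
  nil (node (nat_lit 6) (nat_lit 135743) (nat_lit 11) nil (node (nat_lit 5) (nat_lit 138441)
  (nat_lit 11) nil nil))) (node (nat_lit 11) (nat_lit 137746) (nat_lit 10) nil (node (nat_lit 6)
  (nat_lit 137924) (nat_lit 10) nil (node (nat_lit 5) (nat_lit 137746) (nat_lit 10) nil nil))))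
  (node (nat_lit 4) (nat_lit 137234) (nat_lit 9) (node (nat_lit 6) (nat_lit 138581) (nat_lit 10)
  (node (nat_lit 4) (nat_lit 136394) (nat_lit 11) nil nil) (node (nat_lit 9) (nat_lit 138024)
  (nat_lit 10) nil (node (nat_lit 5) (nat_lit 138024) (nat_lit 10) nil nil))) (node (nat_lit 5)
  (nat_lit 134738) (nat_lit 9) (node (nat_lit 4) (nat_lit 135528) (nat_lit 10) nil (node (nat_lit
  6) (nat_lit 135706) (nat_lit 10) nil (node (nat_lit 9) (nat_lit 135528) (nat_lit 10) nil nil)))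
  (node (nat_lit 6) (nat_lit 136650) (nat_lit 9) (node (nat_lit 4) (nat_lit 137440) (nat_lit 10)
  nil (node (nat_lit 5) (nat_lit 136384) (nat_lit 10) nil nil)) (node (nat_lit 0) (nat_lit 137234)
  (nat_lit 9) (node (nat_lit 4) (nat_lit 138024) (nat_lit 10) nil (node (nat_lit 11) (nat_lit
  138024) (nat_lit 10) nil nil)) nil))))) nil))) (node (nat_lit 5) (nat_lit 0) (nat_lit 7) (node
  (nat_lit 9) (nat_lit 134551) (nat_lit 8) (node (nat_lit 4) (nat_lit 138269) (nat_lit 9) (node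
  (nat_lit 9) (nat_lit 137577) (nat_lit 10) (node (nat_lit 5) (nat_lit 138273) (nat_lit 11) (node
  (nat_lit 4) (nat_lit 138903) (nat_lit 12) nil (node (nat_lit 6) (nat_lit 136740) (nat_lit 12)
  (node (nat_lit 4) (nat_lit 137252) (nat_lit 13) (node (nat_lit 5) (nat_lit 137651) (nat_lit 14)
  nil nil) (node (nat_lit 5) (nat_lit 136506) (nat_lit 13) nil nil)) nil)) nil) (node (nat_lit 5)
  (nat_lit 139059) (nat_lit 10) nil nil)) nil) (node (nat_lit 6) (nat_lit 134551) (nat_lit 8)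
  (node (nat_lit 4) (nat_lit 136249) (nat_lit 9) (node (nat_lit 5) (nat_lit 137039) (nat_lit 10)
  (node (nat_lit 6) (nat_lit 108748) (nat_lit 11) (node (nat_lit 5) (nat_lit 59389) (nat_lit 12)
  (node (nat_lit 4) (nat_lit 58252) (nat_lit 13) (node (nat_lit 9) (nat_lit 21090) (nat_lit 14)
  nil nil) nil) nil) nil) nil) (node (nat_lit 5) (nat_lit 135862) (nat_lit 9) (node (nat_lit 4)
  (nat_lit 134957) (nat_lit 10) nil nil) (node (nat_lit 0) (nat_lit 136249) (nat_lit 9) nil (node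
  (nat_lit 9) (nat_lit 136249) (nat_lit 9) nil nil)))) (node (nat_lit 4) (nat_lit 136924) (nat_lit
  8) (node (nat_lit 5) (nat_lit 138622) (nat_lit 9) nil (node (nat_lit 6) (nat_lit 135287)
  (nat_lit 9) (node (nat_lit 4) (nat_lit 134795) (nat_lit 10) nil nil) nil)) (node (nat_lit 0)
  (nat_lit 134551) (nat_lit 8) (node (nat_lit 4) (nat_lit 136249) (nat_lit 9) nil (node (nat_lit
  6) (nat_lit 132145) (nat_lit 9) nil nil)) nil)))) (node (nat_lit 6) (nat_lit 0) (nat_lit 7)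
  (node (nat_lit 5) (nat_lit 134419) (nat_lit 8) (node (nat_lit 4) (nat_lit 134564) (nat_lit 9)
  (node (nat_lit 6) (nat_lit 135354) (nat_lit 10) (node (nat_lit 4) (nat_lit 135247) (nat_lit 11)
  (node (nat_lit 5) (nat_lit 131920) (nat_lit 12) (node (nat_lit 6) (nat_lit 127467) (nat_lit 13)
  (node (nat_lit 5) (nat_lit 121156) (nat_lit 14) (node (nat_lit 4) (nat_lit 108907) (nat_lit 15)
  nil nil) nil) nil) nil) nil) (node (nat_lit 5) (nat_lit 114082) (nat_lit 10) (node (nat_lit 6)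
  (nat_lit 80173) (nat_lit 11) (node (nat_lit 5) (nat_lit 79262) (nat_lit 12) nil nil) nil) nil))
  (node (nat_lit 6) (nat_lit 136117) (nat_lit 9) nil nil)) (node (nat_lit 4) (nat_lit 136566)
  (nat_lit 8) (node (nat_lit 6) (nat_lit 138264) (nat_lit 9) (node (nat_lit 9) (nat_lit 139054)
  (nat_lit 10) nil nil) (node (nat_lit 5) (nat_lit 138264) (nat_lit 9) nil nil)) (node (nat_lit 9)
  (nat_lit 134419) (nat_lit 8) (node (nat_lit 4) (nat_lit 138436) (nat_lit 9) (node (nat_lit 9)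
  (nat_lit 138385) (nat_lit 10) (node (nat_lit 6) (nat_lit 137409) (nat_lit 11) (node (nat_lit 4)
  (nat_lit 138040) (nat_lit 12) nil (node (nat_lit 5) (nat_lit 136373) (nat_lit 12) nil nil)) nil)
  nil) nil) (node (nat_lit 0) (nat_lit 134419) (nat_lit 8) nil nil)))) (node (nat_lit 0) (nat_lit
  0) (nat_lit 7) (node (nat_lit 4) (nat_lit 135661) (nat_lit 8) (node (nat_lit 9) (nat_lit 137846)
  (nat_lit 9) (node (nat_lit 4) (nat_lit 138636) (nat_lit 10) (node (nat_lit 6) (nat_lit 136633)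
  (nat_lit 11) nil (node (nat_lit 10) (nat_lit 139331) (nat_lit 11) nil nil)) (node (nat_lit 5)
  (nat_lit 138636) (nat_lit 10) nil (node (nat_lit 6) (nat_lit 135964) (nat_lit 10) nil (node
  (nat_lit 0) (nat_lit 138636) (nat_lit 10) nil nil)))) (node (nat_lit 10) (nat_lit 137359)
  (nat_lit 9) nil (node (nat_lit 6) (nat_lit 133255) (nat_lit 9) nil (node (nat_lit 5) (nat_lit
  137359) (nat_lit 9) nil nil)))) (node (nat_lit 9) (nat_lit 135661) (nat_lit 8) (node (nat_lit 4)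
  (nat_lit 137359) (nat_lit 9) (node (nat_lit 9) (nat_lit 138149) (nat_lit 10) (node (nat_lit 10)
  (nat_lit 138845) (nat_lit 11) nil nil) nil) nil) (node (nat_lit 5) (nat_lit 134653) (nat_lit 8)
  nil (node (nat_lit 0) (nat_lit 134653) (nat_lit 8) nil (node (nat_lit 6) (nat_lit 132754)
  (nat_lit 8) nil nil))))) nil)))) (node (nat_lit 6) (nat_lit 0) (nat_lit 6) (node (nat_lit 0)
  (nat_lit 0) (nat_lit 7) (node (nat_lit 4) (nat_lit 136085) (nat_lit 8) (node (nat_lit 6)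
  (nat_lit 137783) (nat_lit 9) (node (nat_lit 4) (nat_lit 138574) (nat_lit 10) (node (nat_lit 5)
  (nat_lit 136188) (nat_lit 11) (node (nat_lit 6) (nat_lit 127768) (nat_lit 12) (node (nat_lit 5)
  (nat_lit 112917) (nat_lit 13) (node (nat_lit 4) (nat_lit 69725) (nat_lit 14) (node (nat_lit 6)
  (nat_lit 57963) (nat_lit 15) nil nil) nil) nil) nil) (node (nat_lit 10) (nat_lit 139269)
  (nat_lit 11) nil nil)) (node (nat_lit 5) (nat_lit 138574) (nat_lit 10) (node (nat_lit 4)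
  (nat_lit 136500) (nat_lit 11) nil (node (nat_lit 6) (nat_lit 139139) (nat_lit 11) nil nil))
  nil)) (node (nat_lit 5) (nat_lit 137783) (nat_lit 9) nil nil)) (node (nat_lit 5) (nat_lit
  132341) (nat_lit 8) (node (nat_lit 6) (nat_lit 134082) (nat_lit 9) (node (nat_lit 4) (nat_lit
  134872) (nat_lit 10) nil (node (nat_lit 5) (nat_lit 132822) (nat_lit 10) nil nil)) (node
  (nat_lit 4) (nat_lit 134039) (nat_lit 9) nil nil)) (node (nat_lit 6) (nat_lit 133502) (nat_lit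
  8) (node (nat_lit 4) (nat_lit 135200) (nat_lit 9) nil (node (nat_lit 5) (nat_lit 132960)
  (nat_lit 9) nil nil)) (node (nat_lit 0) (nat_lit 133145) (nat_lit 8) nil nil)))) (node (nat_lit
  5) (nat_lit 0) (nat_lit 7) (node (nat_lit 6) (nat_lit 0) (nat_lit 8) (node (nat_lit 4) (nat_lit
  0) (nat_lit 9) (node (nat_lit 6) (nat_lit 135847) (nat_lit 10) nil (node (nat_lit 5) (nat_lit
  136711) (nat_lit 10) nil (node (nat_lit 0) (nat_lit 135447) (nat_lit 10) nil nil))) (node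
  (nat_lit 0) (nat_lit 131252) (nat_lit 9) nil nil)) (node (nat_lit 0) (nat_lit 133216) (nat_lit
  8) nil nil)) (node (nat_lit 4) (nat_lit 0) (nat_lit 7) (node (nat_lit 5) (nat_lit 0) (nat_lit 8)
  (node (nat_lit 6) (nat_lit 79094) (nat_lit 9) (node (nat_lit 4) (nat_lit 83102) (nat_lit 10) nil
  nil) (node (nat_lit 0) (nat_lit 119954) (nat_lit 9) nil (node (nat_lit 4) (nat_lit 114807)
  (nat_lit 9) nil nil))) (node (nat_lit 0) (nat_lit 129641) (nat_lit 8) nil nil)) nil))) (node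
  (nat_lit 5) (nat_lit 0) (nat_lit 6) (node (nat_lit 0) (nat_lit 0) (nat_lit 7) (node (nat_lit 4)
  (nat_lit 0) (nat_lit 8) (node (nat_lit 5) (nat_lit 83800) (nat_lit 9) (node (nat_lit 6) (nat_lit
  85793) (nat_lit 10) (node (nat_lit 4) (nat_lit 87576) (nat_lit 11) nil (node (nat_lit 5)
  (nat_lit 86614) (nat_lit 11) nil nil)) (node (nat_lit 4) (nat_lit 85793) (nat_lit 10) (node
  (nat_lit 10) (nat_lit 86614) (nat_lit 11) nil (node (nat_lit 6) (nat_lit 85990) (nat_lit 11) nil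
  nil)) (node (nat_lit 0) (nat_lit 84731) (nat_lit 10) nil nil))) (node (nat_lit 10) (nat_lit
  83800) (nat_lit 9) (node (nat_lit 5) (nat_lit 85213) (nat_lit 10) nil nil) (node (nat_lit 6)
  (nat_lit 82868) (nat_lit 9) nil (node (nat_lit 0) (nat_lit 82249) (nat_lit 9) nil nil)))) (node
  (nat_lit 6) (nat_lit 80316) (nat_lit 8) (node (nat_lit 5) (nat_lit 82853) (nat_lit 9) (node
  (nat_lit 4) (nat_lit 81664) (nat_lit 10) nil (node (nat_lit 6) (nat_lit 84846) (nat_lit 10) nil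
  nil)) (node (nat_lit 4) (nat_lit 83920) (nat_lit 9) nil nil)) (node (nat_lit 5) (nat_lit 0)
  (nat_lit 8) (node (nat_lit 4) (nat_lit 85057) (nat_lit 9) (node (nat_lit 10) (nat_lit 85988)
  (nat_lit 10) nil nil) (node (nat_lit 6) (nat_lit 79665) (nat_lit 9) nil (node (nat_lit 0)
  (nat_lit 82505) (nat_lit 9) nil nil))) (node (nat_lit 0) (nat_lit 81748) (nat_lit 8) (node
  (nat_lit 5) (nat_lit 79641) (nat_lit 9) nil nil) nil)))) (node (nat_lit 6) (nat_lit 0) (nat_lit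
  7) (node (nat_lit 4) (nat_lit 68980) (nat_lit 8) (node (nat_lit 6) (nat_lit 75879) (nat_lit 9)
  (node (nat_lit 5) (nat_lit 80296) (nat_lit 10) (node (nat_lit 4) (nat_lit 84057) (nat_lit 11)
  (node (nat_lit 6) (nat_lit 81269) (nat_lit 12) nil nil) (node (nat_lit 6) (nat_lit 76954)
  (nat_lit 11) nil nil)) nil) (node (nat_lit 0) (nat_lit 75879) (nat_lit 9) nil nil)) (node
  (nat_lit 0) (nat_lit 74100) (nat_lit 8) nil nil)) nil)) nil))) (node (nat_lit 0) (nat_lit 0)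
  (nat_lit 5) (node (nat_lit 6) (nat_lit 0) (nat_lit 6) (node (nat_lit 8) (nat_lit 0) (nat_lit 7)
  (node (nat_lit 5) (nat_lit 126870) (nat_lit 8) (node (nat_lit 6) (nat_lit 132670) (nat_lit 9)
  (node (nat_lit 4) (nat_lit 133654) (nat_lit 10) (node (nat_lit 5) (nat_lit 131559) (nat_lit 11)
  (node (nat_lit 6) (nat_lit 129630) (nat_lit 12) (node (nat_lit 5) (nat_lit 107980) (nat_lit 13)
  (node (nat_lit 8) (nat_lit 66483) (nat_lit 14) (node (nat_lit 6) (nat_lit 65037) (nat_lit 15)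
  (node (nat_lit 8) (nat_lit 51580) (nat_lit 16) (node (nat_lit 5) (nat_lit 25109) (nat_lit 17)
  nil nil) nil) nil) nil) nil) (node (nat_lit 4) (nat_lit 130039) (nat_lit 12) nil nil)) nil)
  (node (nat_lit 5) (nat_lit 133973) (nat_lit 10) (node (nat_lit 4) (nat_lit 137919) (nat_lit 11)
  (node (nat_lit 5) (nat_lit 136646) (nat_lit 12) (node (nat_lit 6) (nat_lit 135686) (nat_lit 13)
  nil nil) (node (nat_lit 6) (nat_lit 138214) (nat_lit 12) nil nil)) (node (nat_lit 8) (nat_lit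
  134794) (nat_lit 11) nil nil)) (node (nat_lit 0) (nat_lit 133600) (nat_lit 10) nil nil))) (node
  (nat_lit 8) (nat_lit 133372) (nat_lit 9) (node (nat_lit 4) (nat_lit 134398) (nat_lit 10) nil
  (node (nat_lit 6) (nat_lit 134554) (nat_lit 10) (node (nat_lit 5) (nat_lit 130108) (nat_lit 11)
  nil nil) nil)) (node (nat_lit 4) (nat_lit 137013) (nat_lit 9) (node (nat_lit 6) (nat_lit 136852)
  (nat_lit 10) nil (node (nat_lit 5) (nat_lit 137943) (nat_lit 10) nil nil)) (node (nat_lit 0)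
  (nat_lit 136233) (nat_lit 9) nil nil)))) (node (nat_lit 4) (nat_lit 137609) (nat_lit 8) (node
  (nat_lit 6) (nat_lit 139011) (nat_lit 9) (node (nat_lit 4) (nat_lit 135902) (nat_lit 10) (node
  (nat_lit 5) (nat_lit 135719) (nat_lit 11) (node (nat_lit 6) (nat_lit 128602) (nat_lit 12) (node
  (nat_lit 5) (nat_lit 117747) (nat_lit 13) (node (nat_lit 8) (nat_lit 94195) (nat_lit 14) (node
  (nat_lit 6) (nat_lit 64078) (nat_lit 15) nil nil) nil) nil) nil) nil) (node (nat_lit 5) (nat_lit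
  139550) (nat_lit 10) (node (nat_lit 4) (nat_lit 135231) (nat_lit 11) nil (node (nat_lit 6)
  (nat_lit 139236) (nat_lit 11) nil nil)) nil)) (node (nat_lit 5) (nat_lit 139874) (nat_lit 9) nil
  nil)) (node (nat_lit 0) (nat_lit 138397) (nat_lit 8) (node (nat_lit 6) (nat_lit 136558) (nat_lit
  9) nil nil) nil))) (node (nat_lit 4) (nat_lit 0) (nat_lit 7) (node (nat_lit 6) (nat_lit 138624)
  (nat_lit 8) (node (nat_lit 5) (nat_lit 142068) (nat_lit 9) (node (nat_lit 4) (nat_lit 137185)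
  (nat_lit 10) (node (nat_lit 5) (nat_lit 132478) (nat_lit 11) (node (nat_lit 6) (nat_lit 126223)
  (nat_lit 12) (node (nat_lit 5) (nat_lit 117236) (nat_lit 13) (node (nat_lit 8) (nat_lit 79265)
  (nat_lit 14) (node (nat_lit 6) (nat_lit 79610) (nat_lit 15) (node (nat_lit 4) (nat_lit 79871)
  (nat_lit 16) nil nil) nil) nil) nil) nil) nil) nil) nil) (node (nat_lit 8) (nat_lit 134330)
  (nat_lit 8) (node (nat_lit 4) (nat_lit 132299) (nat_lit 9) (node (nat_lit 6) (nat_lit 129239)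
  (nat_lit 10) (node (nat_lit 4) (nat_lit 129348) (nat_lit 11) (node (nat_lit 5) (nat_lit 126985)
  (nat_lit 12) (node (nat_lit 6) (nat_lit 121033) (nat_lit 13) nil nil) nil) nil) nil) nil) (node
  (nat_lit 5) (nat_lit 140336) (nat_lit 8) (node (nat_lit 6) (nat_lit 138497) (nat_lit 9) (node
  (nat_lit 5) (nat_lit 138551) (nat_lit 10) (node (nat_lit 8) (nat_lit 31148) (nat_lit 11) nil
  nil) nil) nil) (node (nat_lit 0) (nat_lit 138540) (nat_lit 8) nil nil)))) (node (nat_lit 5)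
  (nat_lit 0) (nat_lit 7) (node (nat_lit 6) (nat_lit 126678) (nat_lit 8) (node (nat_lit 4)
  (nat_lit 135797) (nat_lit 9) (node (nat_lit 5) (nat_lit 131298) (nat_lit 10) (node (nat_lit 6)
  (nat_lit 107819) (nat_lit 11) (node (nat_lit 5) (nat_lit 65262) (nat_lit 12) nil nil) (node
  (nat_lit 4) (nat_lit 129294) (nat_lit 11) nil nil)) nil) (node (nat_lit 8) (nat_lit 133207)
  (nat_lit 9) (node (nat_lit 5) (nat_lit 130675) (nat_lit 10) nil nil) nil)) (node (nat_lit 4)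
  (nat_lit 131784) (nat_lit 8) (node (nat_lit 6) (nat_lit 135255) (nat_lit 9) (node (nat_lit 4)
  (nat_lit 136604) (nat_lit 10) (node (nat_lit 5) (nat_lit 131923) (nat_lit 11) (node (nat_lit 6)
  (nat_lit 117059) (nat_lit 12) (node (nat_lit 5) (nat_lit 105444) (nat_lit 13) nil nil) nil) nil)
  nil) (node (nat_lit 5) (nat_lit 114082) (nat_lit 9) (node (nat_lit 6) (nat_lit 102895) (nat_lit
  10) (node (nat_lit 5) (nat_lit 81055) (nat_lit 11) (node (nat_lit 8) (nat_lit 76039) (nat_lit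
  12) nil nil) nil) nil) nil)) (node (nat_lit 0) (nat_lit 126678) (nat_lit 8) nil nil))) (node
  (nat_lit 0) (nat_lit 132334) (nat_lit 7) (node (nat_lit 6) (nat_lit 130519) (nat_lit 8) nil
  (node (nat_lit 5) (nat_lit 130267) (nat_lit 8) nil (node (nat_lit 4) (nat_lit 130267) (nat_lit
  8) nil nil))) nil)))) (node (nat_lit 4) (nat_lit 0) (nat_lit 6) (node (nat_lit 8) (nat_lit 0)
  (nat_lit 7) (node (nat_lit 5) (nat_lit 144435) (nat_lit 8) (node (nat_lit 4) (nat_lit 143644)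
  (nat_lit 9) (node (nat_lit 6) (nat_lit 141874) (nat_lit 10) (node (nat_lit 5) (nat_lit 139446)
  (nat_lit 11) (node (nat_lit 4) (nat_lit 139897) (nat_lit 12) (node (nat_lit 5) (nat_lit 138058)
  (nat_lit 13) (node (nat_lit 6) (nat_lit 134941) (nat_lit 14) nil nil) nil) nil) (node (nat_lit
  4) (nat_lit 139674) (nat_lit 11) (node (nat_lit 5) (nat_lit 136978) (nat_lit 12) (node (nat_lit
  6) (nat_lit 132468) (nat_lit 13) nil nil) nil) nil)) nil) (node (nat_lit 6) (nat_lit 143640)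
  (nat_lit 9) (node (nat_lit 4) (nat_lit 141681) (nat_lit 10) (node (nat_lit 5) (nat_lit 137554)
  (nat_lit 11) (node (nat_lit 6) (nat_lit 114981) (nat_lit 12) (node (nat_lit 5) (nat_lit 104126)
  (nat_lit 13) nil nil) nil) nil) (node (nat_lit 5) (nat_lit 142149) (nat_lit 10) (node (nat_lit
  4) (nat_lit 139432) (nat_lit 11) nil nil) nil)) nil)) (node (nat_lit 6) (nat_lit 140991)
  (nat_lit 8) (node (nat_lit 4) (nat_lit 143256) (nat_lit 9) (node (nat_lit 6) (nat_lit 141671)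
  (nat_lit 10) (node (nat_lit 5) (nat_lit 139243) (nat_lit 11) (node (nat_lit 4) (nat_lit 137428)
  (nat_lit 12) nil nil) nil) nil) (node (nat_lit 5) (nat_lit 140293) (nat_lit 9) (node (nat_lit 4)
  (nat_lit 136339) (nat_lit 10) nil nil) nil)) (node (nat_lit 0) (nat_lit 143061) (nat_lit 8) nil
  nil))) (node (nat_lit 6) (nat_lit 0) (nat_lit 7) (node (nat_lit 5) (nat_lit 135895) (nat_lit 8)
  (node (nat_lit 4) (nat_lit 135018) (nat_lit 9) (node (nat_lit 5) (nat_lit 116515) (nat_lit 10)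
  (node (nat_lit 6) (nat_lit 107139) (nat_lit 11) (node (nat_lit 5) (nat_lit 77454) (nat_lit 12)
  (node (nat_lit 8) (nat_lit 78057) (nat_lit 13) (node (nat_lit 4) (nat_lit 77180) (nat_lit 14)
  nil nil) nil) nil) nil) (node (nat_lit 6) (nat_lit 137026) (nat_lit 10) (node (nat_lit 4)
  (nat_lit 132140) (nat_lit 11) (node (nat_lit 5) (nat_lit 129445) (nat_lit 12) (node (nat_lit 6)
  (nat_lit 123825) (nat_lit 13) nil nil) nil) nil) nil)) (node (nat_lit 6) (nat_lit 138582)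
  (nat_lit 9) (node (nat_lit 4) (nat_lit 138089) (nat_lit 10) (node (nat_lit 5) (nat_lit 133253)
  (nat_lit 11) (node (nat_lit 6) (nat_lit 112552) (nat_lit 12) nil nil) nil) nil) (node (nat_lit
  8) (nat_lit 138160) (nat_lit 9) nil nil))) (node (nat_lit 4) (nat_lit 123363) (nat_lit 8) (node
  (nat_lit 5) (nat_lit 118632) (nat_lit 9) (node (nat_lit 6) (nat_lit 99905) (nat_lit 10) (node
  (nat_lit 5) (nat_lit 89744) (nat_lit 11) (node (nat_lit 8) (nat_lit 37092) (nat_lit 12) (node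
  (nat_lit 4) (nat_lit 34452) (nat_lit 13) nil nil) (node (nat_lit 4) (nat_lit 83504) (nat_lit 12)
  nil nil)) nil) nil) nil) (node (nat_lit 8) (nat_lit 134043) (nat_lit 8) (node (nat_lit 6)
  (nat_lit 135089) (nat_lit 9) nil (node (nat_lit 5) (nat_lit 132012) (nat_lit 9) nil nil)) (node
  (nat_lit 0) (nat_lit 132772) (nat_lit 8) nil nil)))) (node (nat_lit 5) (nat_lit 0) (nat_lit 7)
  (node (nat_lit 4) (nat_lit 144209) (nat_lit 8) (node (nat_lit 6) (nat_lit 140231) (nat_lit 9)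
  (node (nat_lit 5) (nat_lit 136823) (nat_lit 10) (node (nat_lit 6) (nat_lit 137377) (nat_lit 11)
  (node (nat_lit 4) (nat_lit 137828) (nat_lit 12) nil nil) nil) (node (nat_lit 4) (nat_lit 139739)
  (nat_lit 10) (node (nat_lit 5) (nat_lit 134902) (nat_lit 11) nil nil) nil)) nil) (node (nat_lit
  8) (nat_lit 142715) (nat_lit 8) nil (node (nat_lit 6) (nat_lit 139628) (nat_lit 8) (node
  (nat_lit 5) (nat_lit 138277) (nat_lit 9) (node (nat_lit 4) (nat_lit 135332) (nat_lit 10) nil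
  nil) (node (nat_lit 4) (nat_lit 140667) (nat_lit 9) nil nil)) (node (nat_lit 0) (nat_lit 142715)
  (nat_lit 8) nil nil)))) (node (nat_lit 0) (nat_lit 134798) (nat_lit 7) (node (nat_lit 4)
  (nat_lit 138536) (nat_lit 8) nil (node (nat_lit 5) (nat_lit 134985) (nat_lit 8) nil (node
  (nat_lit 6) (nat_lit 132983) (nat_lit 8) nil nil))) nil)))) (node (nat_lit 0) (nat_lit 0)
  (nat_lit 6) (node (nat_lit 8) (nat_lit 0) (nat_lit 7) (node (nat_lit 5) (nat_lit 143100)
  (nat_lit 8) (node (nat_lit 9) (nat_lit 145365) (nat_lit 9) nil (node (nat_lit 6) (nat_lit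
  135349) (nat_lit 9) nil nil)) (node (nat_lit 6) (nat_lit 139982) (nat_lit 8) (node (nat_lit 5)
  (nat_lit 135376) (nat_lit 9) nil (node (nat_lit 4) (nat_lit 142248) (nat_lit 9) nil (node
  (nat_lit 9) (nat_lit 142248) (nat_lit 9) nil nil))) (node (nat_lit 4) (nat_lit 141868) (nat_lit
  8) (node (nat_lit 6) (nat_lit 140255) (nat_lit 9) nil nil) (node (nat_lit 0) (nat_lit 141305)
  (nat_lit 8) nil nil)))) (node (nat_lit 5) (nat_lit 0) (nat_lit 7) (node (nat_lit 9) (nat_lit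
  142467) (nat_lit 8) (node (nat_lit 8) (nat_lit 144132) (nat_lit 9) nil nil) (node (nat_lit 6)
  (nat_lit 134000) (nat_lit 8) (node (nat_lit 4) (nat_lit 127084) (nat_lit 9) nil nil) (node
  (nat_lit 4) (nat_lit 143046) (nat_lit 8) nil (node (nat_lit 8) (nat_lit 142467) (nat_lit 8) nil
  (node (nat_lit 0) (nat_lit 142467) (nat_lit 8) nil nil))))) (node (nat_lit 4) (nat_lit 138769)
  (nat_lit 7) (node (nat_lit 6) (nat_lit 134000) (nat_lit 8) (node (nat_lit 4) (nat_lit 124338)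
  (nat_lit 9) nil nil) (node (nat_lit 5) (nat_lit 142304) (nat_lit 8) nil nil)) (node (nat_lit 6)
  (nat_lit 135135) (nat_lit 7) (node (nat_lit 5) (nat_lit 132768) (nat_lit 8) (node (nat_lit 4)
  (nat_lit 116643) (nat_lit 9) nil nil) (node (nat_lit 4) (nat_lit 138670) (nat_lit 8) nil nil))
  (node (nat_lit 0) (nat_lit 133902) (nat_lit 7) (node (nat_lit 9) (nat_lit 137437) (nat_lit 8)
  nil nil) nil))))) (node (nat_lit 5) (nat_lit 0) (nat_lit 6) (node (nat_lit 4) (nat_lit 134659)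
  (nat_lit 7) (node (nat_lit 6) (nat_lit 140393) (nat_lit 8) (node (nat_lit 5) (nat_lit 136333)
  (nat_lit 9) (node (nat_lit 4) (nat_lit 134058) (nat_lit 10) (node (nat_lit 5) (nat_lit 130331)
  (nat_lit 11) (node (nat_lit 6) (nat_lit 122656) (nat_lit 12) nil nil) nil) nil) (node (nat_lit
  4) (nat_lit 137555) (nat_lit 9) (node (nat_lit 5) (nat_lit 131584) (nat_lit 10) (node (nat_lit
  6) (nat_lit 110267) (nat_lit 11) (node (nat_lit 5) (nat_lit 90315) (nat_lit 12) nil nil) nil)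
  nil) nil)) (node (nat_lit 5) (nat_lit 139989) (nat_lit 8) (node (nat_lit 6) (nat_lit 138150)
  (nat_lit 9) nil nil) (node (nat_lit 8) (nat_lit 138194) (nat_lit 8) nil nil))) (node (nat_lit 6)
  (nat_lit 122037) (nat_lit 7) (node (nat_lit 4) (nat_lit 126890) (nat_lit 8) (node (nat_lit 5)
  (nat_lit 118266) (nat_lit 9) (node (nat_lit 6) (nat_lit 98958) (nat_lit 10) (node (nat_lit 5)
  (nat_lit 64459) (nat_lit 11) (node (nat_lit 8) (nat_lit 22852) (nat_lit 12) nil nil) nil) nil)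
  (node (nat_lit 6) (nat_lit 125051) (nat_lit 9) nil nil)) (node (nat_lit 5) (nat_lit 127490)
  (nat_lit 8) (node (nat_lit 4) (nat_lit 128771) (nat_lit 9) (node (nat_lit 5) (nat_lit 122567)
  (nat_lit 10) (node (nat_lit 6) (nat_lit 110423) (nat_lit 11) nil nil) (node (nat_lit 6) (nat_lit
  129017) (nat_lit 10) nil nil)) nil) (node (nat_lit 8) (nat_lit 127367) (nat_lit 8) nil nil)))
  (node (nat_lit 0) (nat_lit 0) (nat_lit 7) (node (nat_lit 5) (nat_lit 137054) (nat_lit 8) nil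
  (node (nat_lit 6) (nat_lit 131753) (nat_lit 8) nil (node (nat_lit 4) (nat_lit 140114) (nat_lit
  8) nil (node (nat_lit 8) (nat_lit 138318) (nat_lit 8) nil (node (nat_lit 0) (nat_lit 138318)
  (nat_lit 8) nil nil))))) nil))) nil)))) nil))

noncomputable def t358 : Tr :=
  (node (nat_lit 4) (nat_lit 0) (nat_lit 4) (node (nat_lit 0) (nat_lit 0) (nat_lit 5) (node
  (nat_lit 6) (nat_lit 0) (nat_lit 6) (node (nat_lit 8) (nat_lit 0) (nat_lit 7) (node (nat_lit 4)
  (nat_lit 67074) (nat_lit 8) (node (nat_lit 6) (nat_lit 69177) (nat_lit 9) (node (nat_lit 4)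
  (nat_lit 69602) (nat_lit 10) (node (nat_lit 5) (nat_lit 73644) (nat_lit 11) (node (nat_lit 6)
  (nat_lit 64626) (nat_lit 12) (node (nat_lit 4) (nat_lit 63958) (nat_lit 13) (node (nat_lit 8)
  (nat_lit 40175) (nat_lit 14) (node (nat_lit 6) (nat_lit 38782) (nat_lit 15) (node (nat_lit 8)
  (nat_lit 39003) (nat_lit 16) (node (nat_lit 4) (nat_lit 39170) (nat_lit 17) nil nil) nil) nil)
  nil) nil) (node (nat_lit 4) (nat_lit 72755) (nat_lit 12) nil nil)) (node (nat_lit 8) (nat_lit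
  71071) (nat_lit 11) (node (nat_lit 6) (nat_lit 70284) (nat_lit 12) nil nil) (node (nat_lit 0)
  (nat_lit 71119) (nat_lit 11) nil nil))) (node (nat_lit 5) (nat_lit 75000) (nat_lit 10) (node
  (nat_lit 4) (nat_lit 75008) (nat_lit 11) (node (nat_lit 5) (nat_lit 69954) (nat_lit 12) (node
  (nat_lit 6) (nat_lit 69748) (nat_lit 13) (node (nat_lit 4) (nat_lit 48530) (nat_lit 14) nil nil)
  nil) (node (nat_lit 6) (nat_lit 72922) (nat_lit 12) nil nil)) nil) (node (nat_lit 0) (nat_lit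
  70898) (nat_lit 10) nil nil))) (node (nat_lit 8) (nat_lit 69348) (nat_lit 9) (node (nat_lit 6)
  (nat_lit 76308) (nat_lit 10) (node (nat_lit 4) (nat_lit 80442) (nat_lit 11) nil (node (nat_lit
  5) (nat_lit 73528) (nat_lit 11) nil nil)) (node (nat_lit 5) (nat_lit 81498) (nat_lit 10) (node
  (nat_lit 4) (nat_lit 80189) (nat_lit 11) nil nil) (node (nat_lit 0) (nat_lit 71068) (nat_lit 10)
  nil nil))) (node (nat_lit 5) (nat_lit 81095) (nat_lit 9) (node (nat_lit 4) (nat_lit 82816)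
  (nat_lit 10) nil (node (nat_lit 6) (nat_lit 82816) (nat_lit 10) nil nil)) (node (nat_lit 0)
  (nat_lit 81095) (nat_lit 9) nil nil)))) (node (nat_lit 5) (nat_lit 83532) (nat_lit 8) (node
  (nat_lit 6) (nat_lit 85074) (nat_lit 9) (node (nat_lit 5) (nat_lit 86013) (nat_lit 10) (node
  (nat_lit 4) (nat_lit 84009) (nat_lit 11) (node (nat_lit 6) (nat_lit 84117) (nat_lit 12) (node
  (nat_lit 4) (nat_lit 83433) (nat_lit 13) nil nil) nil) nil) (node (nat_lit 4) (nat_lit 86005)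
  (nat_lit 10) nil nil)) (node (nat_lit 4) (nat_lit 85074) (nat_lit 9) (node (nat_lit 6) (nat_lit
  84801) (nat_lit 10) nil nil) nil)) (node (nat_lit 0) (nat_lit 82190) (nat_lit 8) (node (nat_lit
  6) (nat_lit 80351) (nat_lit 9) nil nil) nil))) (node (nat_lit 4) (nat_lit 0) (nat_lit 7) (node
  (nat_lit 6) (nat_lit 67074) (nat_lit 8) (node (nat_lit 5) (nat_lit 81072) (nat_lit 9) (node
  (nat_lit 4) (nat_lit 80051) (nat_lit 10) (node (nat_lit 5) (nat_lit 75013) (nat_lit 11) (node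
  (nat_lit 6) (nat_lit 72126) (nat_lit 12) (node (nat_lit 4) (nat_lit 40429) (nat_lit 13) (node
  (nat_lit 8) (nat_lit 21412) (nat_lit 14) (node (nat_lit 6) (nat_lit 21121) (nat_lit 15) (node
  (nat_lit 4) (nat_lit 21381) (nat_lit 16) nil nil) nil) nil) nil) nil) nil) (node (nat_lit 6)
  (nat_lit 82792) (nat_lit 10) nil nil)) (node (nat_lit 8) (nat_lit 69339) (nat_lit 9) (node
  (nat_lit 4) (nat_lit 67597) (nat_lit 10) nil nil) (node (nat_lit 0) (nat_lit 69339) (nat_lit 9)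
  nil nil))) (node (nat_lit 5) (nat_lit 82842) (nat_lit 8) (node (nat_lit 6) (nat_lit 84648)
  (nat_lit 9) (node (nat_lit 5) (nat_lit 81226) (nat_lit 10) (node (nat_lit 4) (nat_lit 77213)
  (nat_lit 11) nil nil) (node (nat_lit 4) (nat_lit 85578) (nat_lit 10) (node (nat_lit 8) (nat_lit
  38307) (nat_lit 11) nil nil) nil)) (node (nat_lit 4) (nat_lit 84648) (nat_lit 9) (node (nat_lit
  6) (nat_lit 83522) (nat_lit 10) nil nil) nil)) (node (nat_lit 0) (nat_lit 78164) (nat_lit 8) nil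
  nil))) (node (nat_lit 5) (nat_lit 0) (nat_lit 7) (node (nat_lit 4) (nat_lit 73103) (nat_lit 8)
  (node (nat_lit 6) (nat_lit 75688) (nat_lit 9) (node (nat_lit 5) (nat_lit 77408) (nat_lit 10) nil
  (node (nat_lit 4) (nat_lit 74445) (nat_lit 10) (node (nat_lit 5) (nat_lit 63469) (nat_lit 11)
  nil nil) nil)) (node (nat_lit 5) (nat_lit 55313) (nat_lit 9) (node (nat_lit 6) (nat_lit 48440)
  (nat_lit 10) (node (nat_lit 4) (nat_lit 20359) (nat_lit 11) nil nil) nil) (node (nat_lit 8)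
  (nat_lit 75368) (nat_lit 9) nil nil))) (node (nat_lit 6) (nat_lit 81849) (nat_lit 8) (node
  (nat_lit 4) (nat_lit 82820) (nat_lit 9) (node (nat_lit 5) (nat_lit 85097) (nat_lit 10) (node
  (nat_lit 4) (nat_lit 83690) (nat_lit 11) nil nil) nil) nil) (node (nat_lit 8) (nat_lit 81849)
  (nat_lit 8) (node (nat_lit 5) (nat_lit 84764) (nat_lit 9) (node (nat_lit 6) (nat_lit 83353)
  (nat_lit 10) nil nil) (node (nat_lit 4) (nat_lit 79818) (nat_lit 9) nil nil)) (node (nat_lit 0)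
  (nat_lit 81412) (nat_lit 8) nil nil)))) (node (nat_lit 0) (nat_lit 75141) (nat_lit 7) (node
  (nat_lit 4) (nat_lit 73074) (nat_lit 8) nil (node (nat_lit 6) (nat_lit 73326) (nat_lit 8) nil
  (node (nat_lit 5) (nat_lit 78676) (nat_lit 8) nil nil))) nil)))) (node (nat_lit 5) (nat_lit 0)
  (nat_lit 6) (node (nat_lit 8) (nat_lit 0) (nat_lit 7) (node (nat_lit 4) (nat_lit 82112) (nat_lit
  8) (node (nat_lit 5) (nat_lit 84984) (nat_lit 9) (node (nat_lit 4) (nat_lit 85915) (nat_lit 10)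
  (node (nat_lit 6) (nat_lit 86473) (nat_lit 11) (node (nat_lit 5) (nat_lit 87086) (nat_lit 12)
  (node (nat_lit 4) (nat_lit 86915) (nat_lit 13) (node (nat_lit 5) (nat_lit 86341) (nat_lit 14)
  (node (nat_lit 6) (nat_lit 84109) (nat_lit 15) nil nil) nil) nil) (node (nat_lit 4) (nat_lit
  87480) (nat_lit 12) (node (nat_lit 5) (nat_lit 79778) (nat_lit 13) (node (nat_lit 6) (nat_lit
  77543) (nat_lit 14) nil nil) nil) nil)) nil) (node (nat_lit 6) (nat_lit 84737) (nat_lit 10)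
  (node (nat_lit 5) (nat_lit 84875) (nat_lit 11) (node (nat_lit 4) (nat_lit 82092) (nat_lit 12)
  nil nil) (node (nat_lit 4) (nat_lit 86253) (nat_lit 11) nil nil)) nil)) (node (nat_lit 6)
  (nat_lit 81538) (nat_lit 9) (node (nat_lit 4) (nat_lit 83754) (nat_lit 10) (node (nat_lit 5)
  (nat_lit 74745) (nat_lit 11) nil nil) (node (nat_lit 5) (nat_lit 82357) (nat_lit 10) (node
  (nat_lit 4) (nat_lit 79060) (nat_lit 11) nil nil) nil)) (node (nat_lit 8) (nat_lit 84019)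
  (nat_lit 9) (node (nat_lit 5) (nat_lit 84950) (nat_lit 10) nil (node (nat_lit 6) (nat_lit 82792)
  (nat_lit 10) nil nil)) (node (nat_lit 0) (nat_lit 84019) (nat_lit 9) nil nil)))) (node (nat_lit
  6) (nat_lit 82092) (nat_lit 8) (node (nat_lit 5) (nat_lit 85189) (nat_lit 9) (node (nat_lit 4)
  (nat_lit 83810) (nat_lit 10) (node (nat_lit 5) (nat_lit 80270) (nat_lit 11) (node (nat_lit 6)
  (nat_lit 74004) (nat_lit 12) (node (nat_lit 4) (nat_lit 63895) (nat_lit 13) nil nil) nil) (node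
  (nat_lit 6) (nat_lit 84492) (nat_lit 11) nil nil)) (node (nat_lit 6) (nat_lit 86119) (nat_lit
  10) nil nil)) (node (nat_lit 4) (nat_lit 83999) (nat_lit 9) (node (nat_lit 5) (nat_lit 84929)
  (nat_lit 10) nil nil) nil)) (node (nat_lit 0) (nat_lit 82906) (nat_lit 8) (node (nat_lit 5)
  (nat_lit 84718) (nat_lit 9) nil nil) nil))) (node (nat_lit 4) (nat_lit 0) (nat_lit 7) (node
  (nat_lit 6) (nat_lit 82559) (nat_lit 8) (node (nat_lit 5) (nat_lit 83349) (nat_lit 9) (node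
  (nat_lit 6) (nat_lit 84716) (nat_lit 10) (node (nat_lit 4) (nat_lit 85537) (nat_lit 11) nil nil)
  (node (nat_lit 4) (nat_lit 74845) (nat_lit 10) (node (nat_lit 5) (nat_lit 60055) (nat_lit 11)
  (node (nat_lit 6) (nat_lit 52904) (nat_lit 12) nil nil) nil) nil)) (node (nat_lit 4) (nat_lit
  81694) (nat_lit 9) (node (nat_lit 5) (nat_lit 77270) (nat_lit 10) (node (nat_lit 6) (nat_lit
  63715) (nat_lit 11) (node (nat_lit 4) (nat_lit 36778) (nat_lit 12) nil nil) nil) nil) nil))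
  (node (nat_lit 5) (nat_lit 84365) (nat_lit 8) (node (nat_lit 6) (nat_lit 85616) (nat_lit 9)
  (node (nat_lit 4) (nat_lit 86546) (nat_lit 10) (node (nat_lit 6) (nat_lit 87169) (nat_lit 11)
  nil (node (nat_lit 8) (nat_lit 20884) (nat_lit 11) nil nil)) (node (nat_lit 5) (nat_lit 82749)
  (nat_lit 10) (node (nat_lit 4) (nat_lit 78735) (nat_lit 11) nil nil) nil)) (node (nat_lit 8)
  (nat_lit 85616) (nat_lit 9) nil nil)) (node (nat_lit 8) (nat_lit 81760) (nat_lit 8) (node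
  (nat_lit 4) (nat_lit 83667) (nat_lit 9) (node (nat_lit 5) (nat_lit 84598) (nat_lit 10) (node
  (nat_lit 4) (nat_lit 82593) (nat_lit 11) (node (nat_lit 6) (nat_lit 82701) (nat_lit 12) nil nil)
  nil) nil) (node (nat_lit 6) (nat_lit 83667) (nat_lit 9) (node (nat_lit 5) (nat_lit 84598)
  (nat_lit 10) (node (nat_lit 4) (nat_lit 76053) (nat_lit 11) nil nil) nil) nil)) (node (nat_lit
  0) (nat_lit 82092) (nat_lit 8) nil nil)))) (node (nat_lit 6) (nat_lit 0) (nat_lit 7) (node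
  (nat_lit 5) (nat_lit 83349) (nat_lit 8) (node (nat_lit 4) (nat_lit 80516) (nat_lit 9) (node
  (nat_lit 6) (nat_lit 80141) (nat_lit 10) (node (nat_lit 4) (nat_lit 78258) (nat_lit 11) (node
  (nat_lit 5) (nat_lit 75842) (nat_lit 12) nil nil) nil) (node (nat_lit 5) (nat_lit 73774)
  (nat_lit 10) (node (nat_lit 6) (nat_lit 61023) (nat_lit 11) (node (nat_lit 4) (nat_lit 52176)
  (nat_lit 12) nil nil) nil) nil)) nil) (node (nat_lit 4) (nat_lit 82092) (nat_lit 8) (node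
  (nat_lit 6) (nat_lit 80253) (nat_lit 9) (node (nat_lit 5) (nat_lit 80476) (nat_lit 10) (node
  (nat_lit 4) (nat_lit 76462) (nat_lit 11) nil nil) nil) (node (nat_lit 5) (nat_lit 83782)
  (nat_lit 9) (node (nat_lit 6) (nat_lit 82771) (nat_lit 10) nil nil) nil)) (node (nat_lit 8)
  (nat_lit 82092) (nat_lit 8) (node (nat_lit 6) (nat_lit 83999) (nat_lit 9) (node (nat_lit 5)
  (nat_lit 80476) (nat_lit 10) nil nil) (node (nat_lit 4) (nat_lit 79702) (nat_lit 9) nil nil))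
  (node (nat_lit 0) (nat_lit 82092) (nat_lit 8) nil nil)))) (node (nat_lit 0) (nat_lit 78174)
  (nat_lit 7) (node (nat_lit 4) (nat_lit 76107) (nat_lit 8) nil (node (nat_lit 5) (nat_lit 81709)
  (nat_lit 8) nil (node (nat_lit 6) (nat_lit 76359) (nat_lit 8) nil nil))) nil)))) (node (nat_lit
  0) (nat_lit 0) (nat_lit 6) (node (nat_lit 8) (nat_lit 0) (nat_lit 7) (node (nat_lit 4) (nat_lit
  78721) (nat_lit 8) (node (nat_lit 9) (nat_lit 81952) (nat_lit 9) (node (nat_lit 4) (nat_lit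
  81795) (nat_lit 10) nil (node (nat_lit 8) (nat_lit 83672) (nat_lit 10) nil nil)) (node (nat_lit
  6) (nat_lit 80444) (nat_lit 9) nil (node (nat_lit 5) (nat_lit 80987) (nat_lit 9) nil nil)))
  (node (nat_lit 6) (nat_lit 80891) (nat_lit 8) (node (nat_lit 4) (nat_lit 83156) (nat_lit 9) nil
  (node (nat_lit 5) (nat_lit 81483) (nat_lit 9) nil (node (nat_lit 9) (nat_lit 83156) (nat_lit 9)
  nil nil))) (node (nat_lit 5) (nat_lit 82307) (nat_lit 8) (node (nat_lit 4) (nat_lit 84572)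
  (nat_lit 9) nil (node (nat_lit 6) (nat_lit 84645) (nat_lit 9) nil (node (nat_lit 9) (nat_lit
  84572) (nat_lit 9) nil nil))) (node (nat_lit 0) (nat_lit 80487) (nat_lit 8) (node (nat_lit 9)
  (nat_lit 82753) (nat_lit 9) nil nil) nil)))) (node (nat_lit 4) (nat_lit 0) (nat_lit 7) (node
  (nat_lit 9) (nat_lit 79460) (nat_lit 8) (node (nat_lit 8) (nat_lit 81726) (nat_lit 9) (node
  (nat_lit 9) (nat_lit 83446) (nat_lit 10) nil (node (nat_lit 4) (nat_lit 79984) (nat_lit 10) nil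
  nil)) (node (nat_lit 0) (nat_lit 81726) (nat_lit 9) nil (node (nat_lit 6) (nat_lit 77621)
  (nat_lit 9) nil (node (nat_lit 5) (nat_lit 81726) (nat_lit 9) nil nil)))) (node (nat_lit 6)
  (nat_lit 75579) (nat_lit 8) (node (nat_lit 4) (nat_lit 65804) (nat_lit 9) nil nil) (node
  (nat_lit 5) (nat_lit 79460) (nat_lit 8) (node (nat_lit 4) (nat_lit 77429) (nat_lit 9) nil nil)
  (node (nat_lit 8) (nat_lit 79460) (nat_lit 8) nil (node (nat_lit 0) (nat_lit 79460) (nat_lit 8)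
  nil nil))))) (node (nat_lit 6) (nat_lit 76104) (nat_lit 7) (node (nat_lit 5) (nat_lit 78483)
  (nat_lit 8) (node (nat_lit 4) (nat_lit 60145) (nat_lit 9) (node (nat_lit 5) (nat_lit 55084)
  (nat_lit 10) (node (nat_lit 6) (nat_lit 42334) (nat_lit 11) nil nil) nil) nil) (node (nat_lit 4)
  (nat_lit 79639) (nat_lit 8) (node (nat_lit 6) (nat_lit 77800) (nat_lit 9) nil nil) nil)) (node
  (nat_lit 5) (nat_lit 79389) (nat_lit 7) (node (nat_lit 4) (nat_lit 82924) (nat_lit 8) (node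
  (nat_lit 5) (nat_lit 84174) (nat_lit 9) nil nil) (node (nat_lit 6) (nat_lit 82924) (nat_lit 8)
  nil nil)) (node (nat_lit 0) (nat_lit 77924) (nat_lit 7) (node (nat_lit 8) (nat_lit 81459)
  (nat_lit 8) nil (node (nat_lit 9) (nat_lit 81459) (nat_lit 8) nil nil)) nil))))) (node (nat_lit
  4) (nat_lit 0) (nat_lit 6) (node (nat_lit 6) (nat_lit 0) (nat_lit 7) (node (nat_lit 4) (nat_lit
  57029) (nat_lit 8) (node (nat_lit 8) (nat_lit 58077) (nat_lit 9) (node (nat_lit 6) (nat_lit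
  61363) (nat_lit 10) (node (nat_lit 4) (nat_lit 62320) (nat_lit 11) nil nil) (node (nat_lit 5)
  (nat_lit 58867) (nat_lit 10) nil nil)) (node (nat_lit 5) (nat_lit 64129) (nat_lit 9) (node
  (nat_lit 6) (nat_lit 41832) (nat_lit 10) (node (nat_lit 4) (nat_lit 42153) (nat_lit 11) (node
  (nat_lit 8) (nat_lit 42784) (nat_lit 12) nil nil) nil) nil) nil)) (node (nat_lit 5) (nat_lit
  79687) (nat_lit 8) (node (nat_lit 4) (nat_lit 79302) (nat_lit 9) (node (nat_lit 5) (nat_lit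
  68492) (nat_lit 10) (node (nat_lit 6) (nat_lit 58843) (nat_lit 11) (node (nat_lit 4) (nat_lit
  38436) (nat_lit 12) nil nil) nil) (node (nat_lit 6) (nat_lit 76524) (nat_lit 10) (node (nat_lit
  4) (nat_lit 75336) (nat_lit 11) (node (nat_lit 5) (nat_lit 74534) (nat_lit 12) nil nil) nil)
  nil)) (node (nat_lit 6) (nat_lit 81953) (nat_lit 9) nil nil)) (node (nat_lit 8) (nat_lit 67074)
  (nat_lit 8) nil (node (nat_lit 0) (nat_lit 67074) (nat_lit 8) nil nil)))) (node (nat_lit 5)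
  (nat_lit 0) (nat_lit 7) (node (nat_lit 6) (nat_lit 82214) (nat_lit 8) (node (nat_lit 4) (nat_lit
  84471) (nat_lit 9) nil (node (nat_lit 5) (nat_lit 84471) (nat_lit 9) (node (nat_lit 4) (nat_lit
  81940) (nat_lit 10) nil nil) nil)) (node (nat_lit 4) (nat_lit 82214) (nat_lit 8) (node (nat_lit
  6) (nat_lit 80375) (nat_lit 9) (node (nat_lit 5) (nat_lit 80598) (nat_lit 10) nil (node (nat_lit
  4) (nat_lit 82366) (nat_lit 10) nil nil)) nil) (node (nat_lit 8) (nat_lit 82214) (nat_lit 8) nil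
  (node (nat_lit 0) (nat_lit 82214) (nat_lit 8) nil nil)))) (node (nat_lit 0) (nat_lit 0) (nat_lit
  7) (node (nat_lit 4) (nat_lit 81370) (nat_lit 8) (node (nat_lit 6) (nat_lit 72001) (nat_lit 9)
  nil (node (nat_lit 5) (nat_lit 83198) (nat_lit 9) nil nil)) (node (nat_lit 6) (nat_lit 78540)
  (nat_lit 8) nil (node (nat_lit 5) (nat_lit 82214) (nat_lit 8) nil (node (nat_lit 8) (nat_lit
  80716) (nat_lit 8) nil (node (nat_lit 0) (nat_lit 80716) (nat_lit 8) nil nil))))) nil))) nil))))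
  t356) (node (nat_lit 5) (nat_lit 0) (nat_lit 4) t357 (node (nat_lit 0) (nat_lit 0) (nat_lit 4)
  (node (nat_lit 5) (nat_lit 0) (nat_lit 5) (node (nat_lit 7) (nat_lit 0) (nat_lit 6) (node
  (nat_lit 6) (nat_lit 0) (nat_lit 7) (node (nat_lit 5) (nat_lit 126333) (nat_lit 8) (node
  (nat_lit 6) (nat_lit 127857) (nat_lit 9) (node (nat_lit 4) (nat_lit 126966) (nat_lit 10) (node
  (nat_lit 5) (nat_lit 124203) (nat_lit 11) nil nil) nil) (node (nat_lit 4) (nat_lit 130653)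
  (nat_lit 9) (node (nat_lit 5) (nat_lit 116572) (nat_lit 10) (node (nat_lit 6) (nat_lit 102110)
  (nat_lit 11) nil nil) nil) nil)) (node (nat_lit 4) (nat_lit 133898) (nat_lit 8) nil (node
  (nat_lit 7) (nat_lit 125565) (nat_lit 8) (node (nat_lit 5) (nat_lit 123534) (nat_lit 9) nil nil)
  (node (nat_lit 0) (nat_lit 123972) (nat_lit 8) nil nil)))) (node (nat_lit 4) (nat_lit 134615)
  (nat_lit 7) (node (nat_lit 6) (nat_lit 130146) (nat_lit 8) (node (nat_lit 5) (nat_lit 125159)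
  (nat_lit 9) (node (nat_lit 4) (nat_lit 120806) (nat_lit 10) (node (nat_lit 5) (nat_lit 118042)
  (nat_lit 11) (node (nat_lit 6) (nat_lit 110368) (nat_lit 12) nil nil) nil) nil) (node (nat_lit
  4) (nat_lit 126023) (nat_lit 9) (node (nat_lit 5) (nat_lit 116550) (nat_lit 10) (node (nat_lit
  6) (nat_lit 100756) (nat_lit 11) nil nil) nil) nil)) (node (nat_lit 5) (nat_lit 138150) (nat_lit
  8) nil nil)) (node (nat_lit 0) (nat_lit 130363) (nat_lit 7) nil nil))) (node (nat_lit 4)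
  (nat_lit 131545) (nat_lit 6) (node (nat_lit 6) (nat_lit 136098) (nat_lit 7) (node (nat_lit 5)
  (nat_lit 130678) (nat_lit 8) (node (nat_lit 6) (nat_lit 130239) (nat_lit 9) (node (nat_lit 4)
  (nat_lit 129348) (nat_lit 10) (node (nat_lit 5) (nat_lit 121839) (nat_lit 11) nil nil) nil)
  (node (nat_lit 4) (nat_lit 129190) (nat_lit 9) (node (nat_lit 5) (nat_lit 110762) (nat_lit 10)
  (node (nat_lit 6) (nat_lit 98011) (nat_lit 11) nil nil) nil) nil)) (node (nat_lit 4) (nat_lit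
  135455) (nat_lit 8) (node (nat_lit 5) (nat_lit 127062) (nat_lit 9) (node (nat_lit 6) (nat_lit
  108592) (nat_lit 10) nil nil) nil) nil)) (node (nat_lit 7) (nat_lit 136729) (nat_lit 7) nil
  (node (nat_lit 5) (nat_lit 136729) (nat_lit 7) nil nil))) (node (nat_lit 6) (nat_lit 112959)
  (nat_lit 6) (node (nat_lit 4) (nat_lit 126888) (nat_lit 7) (node (nat_lit 5) (nat_lit 101970)
  (nat_lit 8) (node (nat_lit 4) (nat_lit 99938) (nat_lit 9) nil (node (nat_lit 6) (nat_lit 63634)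
  (nat_lit 9) (node (nat_lit 7) (nat_lit 35539) (nat_lit 10) nil nil) nil)) (node (nat_lit 6)
  (nat_lit 125073) (nat_lit 8) nil nil)) (node (nat_lit 5) (nat_lit 121022) (nat_lit 7) (node
  (nat_lit 4) (nat_lit 118955) (nat_lit 8) (node (nat_lit 5) (nat_lit 105618) (nat_lit 9) (node
  (nat_lit 6) (nat_lit 93275) (nat_lit 10) nil nil) nil) nil) nil)) (node (nat_lit 0) (nat_lit
  127431) (nat_lit 6) nil nil)))) (node (nat_lit 4) (nat_lit 0) (nat_lit 5) (node (nat_lit 7)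
  (nat_lit 0) (nat_lit 6) (node (nat_lit 6) (nat_lit 129268) (nat_lit 7) (node (nat_lit 5)
  (nat_lit 135688) (nat_lit 8) (node (nat_lit 4) (nat_lit 126107) (nat_lit 9) (node (nat_lit 5)
  (nat_lit 119896) (nat_lit 10) (node (nat_lit 6) (nat_lit 113442) (nat_lit 11) nil nil) (node
  (nat_lit 6) (nat_lit 125933) (nat_lit 10) nil nil)) (node (nat_lit 6) (nat_lit 139158) (nat_lit
  9) (node (nat_lit 4) (nat_lit 129628) (nat_lit 10) nil nil) nil)) (node (nat_lit 4) (nat_lit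
  132803) (nat_lit 8) nil nil)) (node (nat_lit 5) (nat_lit 133783) (nat_lit 7) (node (nat_lit 6)
  (nat_lit 138905) (nat_lit 8) (node (nat_lit 4) (nat_lit 135930) (nat_lit 9) (node (nat_lit 5)
  (nat_lit 131380) (nat_lit 10) (node (nat_lit 6) (nat_lit 112131) (nat_lit 11) nil nil) nil) nil)
  (node (nat_lit 4) (nat_lit 137877) (nat_lit 8) (node (nat_lit 6) (nat_lit 133689) (nat_lit 9)
  (node (nat_lit 5) (nat_lit 129861) (nat_lit 10) nil (node (nat_lit 4) (nat_lit 132466) (nat_lit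
  10) nil nil)) nil) nil)) (node (nat_lit 0) (nat_lit 126455) (nat_lit 7) nil nil))) (node
  (nat_lit 6) (nat_lit 109944) (nat_lit 6) (node (nat_lit 5) (nat_lit 118071) (nat_lit 7) (node
  (nat_lit 4) (nat_lit 116148) (nat_lit 8) (node (nat_lit 5) (nat_lit 104200) (nat_lit 9) (node
  (nat_lit 6) (nat_lit 99933) (nat_lit 10) (node (nat_lit 7) (nat_lit 71050) (nat_lit 11) nil nil)
  nil) (node (nat_lit 6) (nat_lit 118689) (nat_lit 9) (node (nat_lit 4) (nat_lit 109159) (nat_lit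
  10) (node (nat_lit 5) (nat_lit 106470) (nat_lit 11) nil nil) nil) nil)) (node (nat_lit 6)
  (nat_lit 123789) (nat_lit 8) (node (nat_lit 4) (nat_lit 122908) (nat_lit 9) (node (nat_lit 5)
  (nat_lit 118265) (nat_lit 10) nil nil) nil) nil)) (node (nat_lit 4) (nat_lit 106355) (nat_lit 7)
  (node (nat_lit 5) (nat_lit 93278) (nat_lit 8) (node (nat_lit 6) (nat_lit 86559) (nat_lit 9) nil
  nil) nil) (node (nat_lit 7) (nat_lit 119064) (nat_lit 7) (node (nat_lit 6) (nat_lit 124260)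
  (nat_lit 8) nil (node (nat_lit 5) (nat_lit 116997) (nat_lit 8) nil nil)) nil))) (node (nat_lit
  5) (nat_lit 126663) (nat_lit 6) (node (nat_lit 6) (nat_lit 134141) (nat_lit 7) (node (nat_lit 4)
  (nat_lit 137676) (nat_lit 8) (node (nat_lit 6) (nat_lit 135837) (nat_lit 9) (node (nat_lit 5)
  (nat_lit 132009) (nat_lit 10) (node (nat_lit 4) (nat_lit 128584) (nat_lit 11) (node (nat_lit 5)
  (nat_lit 127017) (nat_lit 12) nil nil) nil) nil) nil) (node (nat_lit 5) (nat_lit 138116)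
  (nat_lit 8) (node (nat_lit 4) (nat_lit 136084) (nat_lit 9) (node (nat_lit 5) (nat_lit 118995)
  (nat_lit 10) nil nil) nil) nil)) (node (nat_lit 4) (nat_lit 135308) (nat_lit 7) (node (nat_lit
  6) (nat_lit 135079) (nat_lit 8) nil nil) (node (nat_lit 7) (nat_lit 131847) (nat_lit 7) nil
  nil))) (node (nat_lit 0) (nat_lit 126401) (nat_lit 6) nil nil)))) (node (nat_lit 0) (nat_lit 0)
  (nat_lit 5) (node (nat_lit 6) (nat_lit 128157) (nat_lit 6) (node (nat_lit 5) (nat_lit 126952)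
  (nat_lit 7) (node (nat_lit 4) (nat_lit 118105) (nat_lit 8) (node (nat_lit 5) (nat_lit 100462)
  (nat_lit 9) nil nil) (node (nat_lit 6) (nat_lit 126768) (nat_lit 8) nil nil)) (node (nat_lit 4)
  (nat_lit 133341) (nat_lit 7) nil nil)) (node (nat_lit 4) (nat_lit 129116) (nat_lit 6) (node
  (nat_lit 6) (nat_lit 126209) (nat_lit 7) (node (nat_lit 4) (nat_lit 124059) (nat_lit 8) (node
  (nat_lit 5) (nat_lit 102306) (nat_lit 9) (node (nat_lit 6) (nat_lit 55009) (nat_lit 10) nil nil)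
  nil) (node (nat_lit 5) (nat_lit 120070) (nat_lit 8) (node (nat_lit 4) (nat_lit 112982) (nat_lit
  9) nil nil) nil)) (node (nat_lit 5) (nat_lit 134300) (nat_lit 7) nil nil)) (node (nat_lit 5)
  (nat_lit 128057) (nat_lit 6) (node (nat_lit 6) (nat_lit 124971) (nat_lit 7) (node (nat_lit 4)
  (nat_lit 121725) (nat_lit 8) (node (nat_lit 5) (nat_lit 96678) (nat_lit 9) nil nil) (node
  (nat_lit 5) (nat_lit 124435) (nat_lit 8) nil nil)) (node (nat_lit 4) (nat_lit 132341) (nat_lit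
  7) (node (nat_lit 6) (nat_lit 126728) (nat_lit 8) nil nil) nil)) (node (nat_lit 0) (nat_lit
  128019) (nat_lit 6) nil (node (nat_lit 7) (nat_lit 128769) (nat_lit 6) (node (nat_lit 4)
  (nat_lit 126422) (nat_lit 7) nil (node (nat_lit 5) (nat_lit 126422) (nat_lit 7) nil (node
  (nat_lit 6) (nat_lit 126774) (nat_lit 7) nil nil))) nil))))) (node (nat_lit 6) (nat_lit 0)
  (nat_lit 5) (node (nat_lit 5) (nat_lit 111477) (nat_lit 6) (node (nat_lit 4) (nat_lit 112075)
  (nat_lit 7) (node (nat_lit 6) (nat_lit 117197) (nat_lit 8) (node (nat_lit 4) (nat_lit 119896)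
  (nat_lit 9) (node (nat_lit 5) (nat_lit 114729) (nat_lit 10) (node (nat_lit 6) (nat_lit 100976)
  (nat_lit 11) nil nil) nil) (node (nat_lit 5) (nat_lit 115166) (nat_lit 9) (node (nat_lit 6)
  (nat_lit 114992) (nat_lit 10) nil nil) nil)) (node (nat_lit 5) (nat_lit 97314) (nat_lit 8) (node
  (nat_lit 6) (nat_lit 76482) (nat_lit 9) (node (nat_lit 7) (nat_lit 76856) (nat_lit 10) (node
  (nat_lit 6) (nat_lit 77677) (nat_lit 11) nil nil) nil) nil) nil)) (node (nat_lit 7) (nat_lit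
  119131) (nat_lit 7) (node (nat_lit 6) (nat_lit 124252) (nat_lit 8) (node (nat_lit 4) (nat_lit
  126517) (nat_lit 9) nil nil) (node (nat_lit 5) (nat_lit 124252) (nat_lit 8) nil (node (nat_lit
  4) (nat_lit 117064) (nat_lit 8) nil nil))) (node (nat_lit 6) (nat_lit 117007) (nat_lit 7) (node
  (nat_lit 4) (nat_lit 115063) (nat_lit 8) (node (nat_lit 5) (nat_lit 104653) (nat_lit 9) (node
  (nat_lit 6) (nat_lit 61741) (nat_lit 10) nil nil) nil) nil) nil))) (node (nat_lit 4) (nat_lit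
  122093) (nat_lit 6) (node (nat_lit 5) (nat_lit 131058) (nat_lit 7) (node (nat_lit 6) (nat_lit
  129242) (nat_lit 8) (node (nat_lit 7) (nat_lit 24678) (nat_lit 9) nil nil) (node (nat_lit 4)
  (nat_lit 134079) (nat_lit 8) nil nil)) (node (nat_lit 6) (nat_lit 127454) (nat_lit 7) (node
  (nat_lit 5) (nat_lit 125122) (nat_lit 8) nil nil) nil)) (node (nat_lit 0) (nat_lit 125351)
  (nat_lit 6) nil nil))) nil)))) nil)))

noncomputable def t359 : Tr :=
  (node (nat_lit 5) (nat_lit 0) (nat_lit 5) (node (nat_lit 0) (nat_lit 0) (nat_lit 6) (node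
  (nat_lit 5) (nat_lit 0) (nat_lit 7) (node (nat_lit 7) (nat_lit 111167) (nat_lit 8) (node
  (nat_lit 9) (nat_lit 111167) (nat_lit 9) (node (nat_lit 5) (nat_lit 111167) (nat_lit 10) (node
  (nat_lit 9) (nat_lit 111167) (nat_lit 11) nil (node (nat_lit 4) (nat_lit 111167) (nat_lit 11)
  (node (nat_lit 7) (nat_lit 111167) (nat_lit 12) (node (nat_lit 4) (nat_lit 111167) (nat_lit 13)
  (node (nat_lit 5) (nat_lit 111167) (nat_lit 14) nil nil) nil) nil) (node (nat_lit 0) (nat_lit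
  111167) (nat_lit 11) nil nil))) (node (nat_lit 7) (nat_lit 111167) (nat_lit 10) nil (node
  (nat_lit 4) (nat_lit 111167) (nat_lit 10) (node (nat_lit 7) (nat_lit 111167) (nat_lit 11) nil
  nil) nil))) (node (nat_lit 4) (nat_lit 108245) (nat_lit 9) (node (nat_lit 5) (nat_lit 105014)
  (nat_lit 10) (node (nat_lit 4) (nat_lit 97353) (nat_lit 11) (node (nat_lit 7) (nat_lit 81245)
  (nat_lit 12) (node (nat_lit 5) (nat_lit 48752) (nat_lit 13) nil nil) nil) nil) (node (nat_lit 9)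
  (nat_lit 108675) (nat_lit 10) nil (node (nat_lit 7) (nat_lit 108675) (nat_lit 10) nil (node
  (nat_lit 0) (nat_lit 108675) (nat_lit 10) nil nil)))) (node (nat_lit 5) (nat_lit 111167)
  (nat_lit 9) (node (nat_lit 9) (nat_lit 111167) (nat_lit 10) nil nil) (node (nat_lit 0) (nat_lit
  111167) (nat_lit 9) (node (nat_lit 7) (nat_lit 111167) (nat_lit 10) nil (node (nat_lit 5)
  (nat_lit 111167) (nat_lit 10) (node (nat_lit 7) (nat_lit 111167) (nat_lit 11) nil nil) (node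
  (nat_lit 4) (nat_lit 111167) (nat_lit 10) nil nil))) nil)))) (node (nat_lit 4) (nat_lit 111167)
  (nat_lit 8) (node (nat_lit 7) (nat_lit 110476) (nat_lit 9) (node (nat_lit 4) (nat_lit 107952)
  (nat_lit 10) (node (nat_lit 5) (nat_lit 92443) (nat_lit 11) (node (nat_lit 4) (nat_lit 85350)
  (nat_lit 12) (node (nat_lit 7) (nat_lit 68129) (nat_lit 13) (node (nat_lit 5) (nat_lit 52718)
  (nat_lit 14) nil nil) nil) nil) nil) (node (nat_lit 5) (nat_lit 107815) (nat_lit 10) nil (node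
  (nat_lit 9) (nat_lit 111167) (nat_lit 10) nil (node (nat_lit 0) (nat_lit 111167) (nat_lit 10)
  nil nil)))) (node (nat_lit 9) (nat_lit 111167) (nat_lit 9) (node (nat_lit 4) (nat_lit 110936)
  (nat_lit 10) (node (nat_lit 5) (nat_lit 108822) (nat_lit 11) (node (nat_lit 7) (nat_lit 109145)
  (nat_lit 12) nil nil) (node (nat_lit 7) (nat_lit 111167) (nat_lit 11) nil nil)) (node (nat_lit
  5) (nat_lit 110936) (nat_lit 10) (node (nat_lit 7) (nat_lit 111167) (nat_lit 11) nil nil) (node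
  (nat_lit 7) (nat_lit 111167) (nat_lit 10) nil nil))) (node (nat_lit 5) (nat_lit 110624) (nat_lit
  9) (node (nat_lit 9) (nat_lit 111053) (nat_lit 10) (node (nat_lit 4) (nat_lit 110048) (nat_lit
  11) nil nil) (node (nat_lit 7) (nat_lit 109704) (nat_lit 10) (node (nat_lit 4) (nat_lit 108318)
  (nat_lit 11) nil nil) nil)) (node (nat_lit 0) (nat_lit 111167) (nat_lit 9) (node (nat_lit 4)
  (nat_lit 110936) (nat_lit 10) nil (node (nat_lit 5) (nat_lit 110936) (nat_lit 10) nil (node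
  (nat_lit 0) (nat_lit 111167) (nat_lit 10) nil (node (nat_lit 7) (nat_lit 111167) (nat_lit 10)
  nil nil)))) nil)))) (node (nat_lit 0) (nat_lit 111167) (nat_lit 8) (node (nat_lit 9) (nat_lit
  111167) (nat_lit 9) (node (nat_lit 5) (nat_lit 110926) (nat_lit 10) (node (nat_lit 7) (nat_lit
  111167) (nat_lit 11) nil nil) (node (nat_lit 4) (nat_lit 110926) (nat_lit 10) nil (node (nat_lit
  7) (nat_lit 111167) (nat_lit 10) nil nil))) (node (nat_lit 5) (nat_lit 109302) (nat_lit 9) (node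
  (nat_lit 4) (nat_lit 106641) (nat_lit 10) nil (node (nat_lit 7) (nat_lit 107377) (nat_lit 10)
  nil nil)) (node (nat_lit 4) (nat_lit 109162) (nat_lit 9) (node (nat_lit 7) (nat_lit 109140)
  (nat_lit 10) nil nil) (node (nat_lit 7) (nat_lit 111167) (nat_lit 9) (node (nat_lit 5) (nat_lit
  110926) (nat_lit 10) nil (node (nat_lit 4) (nat_lit 111167) (nat_lit 10) nil nil)) (node
  (nat_lit 0) (nat_lit 111167) (nat_lit 9) nil nil))))) nil))) (node (nat_lit 7) (nat_lit 0)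
  (nat_lit 7) (node (nat_lit 9) (nat_lit 111167) (nat_lit 8) (node (nat_lit 5) (nat_lit 110830)
  (nat_lit 9) (node (nat_lit 9) (nat_lit 111167) (nat_lit 10) (node (nat_lit 7) (nat_lit 111167)
  (nat_lit 11) (node (nat_lit 5) (nat_lit 110916) (nat_lit 12) (node (nat_lit 7) (nat_lit 111136)
  (nat_lit 13) (node (nat_lit 4) (nat_lit 110828) (nat_lit 14) nil nil) nil) nil) nil) (node
  (nat_lit 7) (nat_lit 110809) (nat_lit 10) nil nil)) nil) (node (nat_lit 4) (nat_lit 111167)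
  (nat_lit 8) (node (nat_lit 5) (nat_lit 111167) (nat_lit 9) nil nil) (node (nat_lit 5) (nat_lit
  109560) (nat_lit 8) (node (nat_lit 7) (nat_lit 108822) (nat_lit 9) (node (nat_lit 4) (nat_lit
  105986) (nat_lit 10) (node (nat_lit 5) (nat_lit 101393) (nat_lit 11) nil nil) nil) (node
  (nat_lit 4) (nat_lit 107295) (nat_lit 9) nil nil)) (node (nat_lit 0) (nat_lit 111167) (nat_lit
  8) nil nil)))) (node (nat_lit 4) (nat_lit 0) (nat_lit 7) (node (nat_lit 5) (nat_lit 107543)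
  (nat_lit 8) (node (nat_lit 7) (nat_lit 108556) (nat_lit 9) (node (nat_lit 4) (nat_lit 100867)
  (nat_lit 10) nil nil) (node (nat_lit 4) (nat_lit 105279) (nat_lit 9) nil nil)) (node (nat_lit 7)
  (nat_lit 109815) (nat_lit 8) (node (nat_lit 4) (nat_lit 101146) (nat_lit 9) (node (nat_lit 5)
  (nat_lit 92664) (nat_lit 10) (node (nat_lit 4) (nat_lit 64811) (nat_lit 11) (node (nat_lit 7)
  (nat_lit 46083) (nat_lit 12) (node (nat_lit 5) (nat_lit 18627) (nat_lit 13) nil nil) nil) nil)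
  nil) (node (nat_lit 5) (nat_lit 108829) (nat_lit 9) nil nil)) (node (nat_lit 9) (nat_lit 110340)
  (nat_lit 8) (node (nat_lit 5) (nat_lit 108076) (nat_lit 9) (node (nat_lit 9) (nat_lit 108980)
  (nat_lit 10) (node (nat_lit 4) (nat_lit 106865) (nat_lit 11) (node (nat_lit 7) (nat_lit 107189)
  (nat_lit 12) nil nil) nil) nil) nil) (node (nat_lit 0) (nat_lit 110340) (nat_lit 8) nil nil))))
  (node (nat_lit 0) (nat_lit 0) (nat_lit 7) (node (nat_lit 5) (nat_lit 111167) (nat_lit 8) (node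
  (nat_lit 9) (nat_lit 111167) (nat_lit 9) (node (nat_lit 5) (nat_lit 111167) (nat_lit 10) (node
  (nat_lit 10) (nat_lit 111167) (nat_lit 11) nil (node (nat_lit 7) (nat_lit 111167) (nat_lit 11)
  nil nil)) (node (nat_lit 7) (nat_lit 111167) (nat_lit 10) nil nil)) (node (nat_lit 10) (nat_lit
  111167) (nat_lit 9) nil (node (nat_lit 7) (nat_lit 106967) (nat_lit 9) nil nil))) (node (nat_lit
  9) (nat_lit 111167) (nat_lit 8) (node (nat_lit 5) (nat_lit 110306) (nat_lit 9) nil nil) (node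
  (nat_lit 7) (nat_lit 111167) (nat_lit 8) nil (node (nat_lit 4) (nat_lit 106416) (nat_lit 8) nil
  (node (nat_lit 0) (nat_lit 111167) (nat_lit 8) nil nil))))) nil)))) (node (nat_lit 7) (nat_lit
  0) (nat_lit 6) (node (nat_lit 0) (nat_lit 0) (nat_lit 7) (node (nat_lit 5) (nat_lit 111167)
  (nat_lit 8) (node (nat_lit 7) (nat_lit 111167) (nat_lit 9) (node (nat_lit 4) (nat_lit 110909)
  (nat_lit 10) (node (nat_lit 5) (nat_lit 104026) (nat_lit 11) (node (nat_lit 4) (nat_lit 95525)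
  (nat_lit 12) (node (nat_lit 7) (nat_lit 81875) (nat_lit 13) (node (nat_lit 5) (nat_lit 27083)
  (nat_lit 14) nil nil) nil) nil) nil) (node (nat_lit 5) (nat_lit 111167) (nat_lit 10) nil nil))
  (node (nat_lit 10) (nat_lit 111167) (nat_lit 9) nil (node (nat_lit 4) (nat_lit 110624) (nat_lit
  9) nil nil))) (node (nat_lit 4) (nat_lit 107822) (nat_lit 8) (node (nat_lit 7) (nat_lit 108740)
  (nat_lit 9) (node (nat_lit 4) (nat_lit 105948) (nat_lit 10) (node (nat_lit 5) (nat_lit 92311)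
  (nat_lit 11) nil nil) nil) (node (nat_lit 5) (nat_lit 105558) (nat_lit 9) nil nil)) (node
  (nat_lit 7) (nat_lit 111167) (nat_lit 8) (node (nat_lit 5) (nat_lit 110792) (nat_lit 9) nil nil)
  (node (nat_lit 0) (nat_lit 111167) (nat_lit 8) nil nil)))) (node (nat_lit 4) (nat_lit 0)
  (nat_lit 7) (node (nat_lit 5) (nat_lit 0) (nat_lit 8) (node (nat_lit 4) (nat_lit 65589) (nat_lit
  9) nil (node (nat_lit 0) (nat_lit 79088) (nat_lit 9) nil (node (nat_lit 7) (nat_lit 75680)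
  (nat_lit 9) nil nil))) (node (nat_lit 7) (nat_lit 0) (nat_lit 8) (node (nat_lit 5) (nat_lit
  102039) (nat_lit 9) nil (node (nat_lit 0) (nat_lit 106448) (nat_lit 9) nil nil)) (node (nat_lit
  0) (nat_lit 103925) (nat_lit 8) nil nil))) nil)) (node (nat_lit 4) (nat_lit 0) (nat_lit 6) (node
  (nat_lit 0) (nat_lit 0) (nat_lit 7) (node (nat_lit 5) (nat_lit 110970) (nat_lit 8) (node
  (nat_lit 4) (nat_lit 110624) (nat_lit 9) (node (nat_lit 5) (nat_lit 108737) (nat_lit 10) (node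
  (nat_lit 7) (nat_lit 108992) (nat_lit 11) (node (nat_lit 4) (nat_lit 108215) (nat_lit 12) nil
  nil) (node (nat_lit 10) (nat_lit 109532) (nat_lit 11) nil nil)) (node (nat_lit 7) (nat_lit
  110677) (nat_lit 10) (node (nat_lit 4) (nat_lit 107032) (nat_lit 11) nil nil) nil)) (node
  (nat_lit 7) (nat_lit 105953) (nat_lit 9) nil nil)) (node (nat_lit 7) (nat_lit 110241) (nat_lit
  8) (node (nat_lit 4) (nat_lit 111167) (nat_lit 9) nil nil) (node (nat_lit 4) (nat_lit 110931)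
  (nat_lit 8) (node (nat_lit 5) (nat_lit 108667) (nat_lit 9) nil (node (nat_lit 7) (nat_lit
  105913) (nat_lit 9) nil nil)) (node (nat_lit 0) (nat_lit 110241) (nat_lit 8) nil nil)))) (node
  (nat_lit 5) (nat_lit 0) (nat_lit 7) (node (nat_lit 7) (nat_lit 104142) (nat_lit 8) (node
  (nat_lit 4) (nat_lit 105575) (nat_lit 9) (node (nat_lit 5) (nat_lit 103024) (nat_lit 10) (node
  (nat_lit 4) (nat_lit 93295) (nat_lit 11) (node (nat_lit 7) (nat_lit 77856) (nat_lit 12) (node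
  (nat_lit 5) (nat_lit 23910) (nat_lit 13) nil nil) nil) nil) nil) nil) (node (nat_lit 0) (nat_lit
  106320) (nat_lit 8) nil nil)) nil)) nil))) (node (nat_lit 4) (nat_lit 0) (nat_lit 5) (node
  (nat_lit 0) (nat_lit 0) (nat_lit 6) (node (nat_lit 4) (nat_lit 0) (nat_lit 7) (node (nat_lit 7)
  (nat_lit 54121) (nat_lit 8) (node (nat_lit 9) (nat_lit 57292) (nat_lit 9) (node (nat_lit 4)
  (nat_lit 59099) (nat_lit 10) (node (nat_lit 5) (nat_lit 60680) (nat_lit 11) (node (nat_lit 7)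
  (nat_lit 62030) (nat_lit 12) nil (node (nat_lit 4) (nat_lit 61824) (nat_lit 12) (node (nat_lit
  7) (nat_lit 59711) (nat_lit 13) nil nil) nil)) (node (nat_lit 9) (nat_lit 60680) (nat_lit 11)
  (node (nat_lit 7) (nat_lit 62030) (nat_lit 12) (node (nat_lit 4) (nat_lit 62615) (nat_lit 13)
  nil nil) (node (nat_lit 5) (nat_lit 59786) (nat_lit 12) nil (node (nat_lit 0) (nat_lit 61401)
  (nat_lit 12) nil nil))) (node (nat_lit 0) (nat_lit 59894) (nat_lit 11) (node (nat_lit 4)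
  (nat_lit 58281) (nat_lit 12) nil nil) nil))) (node (nat_lit 7) (nat_lit 59099) (nat_lit 10)
  (node (nat_lit 4) (nat_lit 60680) (nat_lit 11) (node (nat_lit 5) (nat_lit 61401) (nat_lit 12)
  nil nil) (node (nat_lit 5) (nat_lit 60415) (nat_lit 11) nil nil)) (node (nat_lit 5) (nat_lit
  59099) (nat_lit 10) (node (nat_lit 7) (nat_lit 60415) (nat_lit 11) nil (node (nat_lit 4)
  (nat_lit 56985) (nat_lit 11) nil nil)) (node (nat_lit 0) (nat_lit 56792) (nat_lit 10) nil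
  nil)))) (node (nat_lit 5) (nat_lit 57292) (nat_lit 9) (node (nat_lit 4) (nat_lit 59099) (nat_lit
  10) (node (nat_lit 7) (nat_lit 60415) (nat_lit 11) (node (nat_lit 4) (nat_lit 55365) (nat_lit
  12) nil nil) (node (nat_lit 5) (nat_lit 56985) (nat_lit 11) nil nil)) (node (nat_lit 7) (nat_lit
  59099) (nat_lit 10) (node (nat_lit 4) (nat_lit 52153) (nat_lit 11) (node (nat_lit 5) (nat_lit
  50661) (nat_lit 12) (node (nat_lit 4) (nat_lit 44191) (nat_lit 13) (node (nat_lit 7) (nat_lit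
  37407) (nat_lit 14) nil nil) nil) nil) nil) (node (nat_lit 9) (nat_lit 56792) (nat_lit 10) nil
  (node (nat_lit 0) (nat_lit 58196) (nat_lit 10) nil nil)))) (node (nat_lit 0) (nat_lit 56053)
  (nat_lit 9) (node (nat_lit 4) (nat_lit 57580) (nat_lit 10) (node (nat_lit 7) (nat_lit 54270)
  (nat_lit 11) nil nil) (node (nat_lit 7) (nat_lit 57859) (nat_lit 10) nil (node (nat_lit 5)
  (nat_lit 57859) (nat_lit 10) nil (node (nat_lit 9) (nat_lit 57533) (nat_lit 10) nil (node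
  (nat_lit 0) (nat_lit 56957) (nat_lit 10) nil nil))))) (node (nat_lit 4) (nat_lit 57292) (nat_lit
  9) (node (nat_lit 5) (nat_lit 58771) (nat_lit 10) (node (nat_lit 4) (nat_lit 57638) (nat_lit 11)
  (node (nat_lit 7) (nat_lit 48518) (nat_lit 12) nil nil) nil) nil) nil)))) (node (nat_lit 5)
  (nat_lit 53904) (nat_lit 8) (node (nat_lit 7) (nat_lit 57216) (nat_lit 9) (node (nat_lit 4)
  (nat_lit 57835) (nat_lit 10) (node (nat_lit 5) (nat_lit 47510) (nat_lit 11) (node (nat_lit 4)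
  (nat_lit 27541) (nat_lit 12) nil nil) (node (nat_lit 7) (nat_lit 58630) (nat_lit 11) nil nil))
  (node (nat_lit 5) (nat_lit 59022) (nat_lit 10) (node (nat_lit 4) (nat_lit 60604) (nat_lit 11)
  (node (nat_lit 7) (nat_lit 58019) (nat_lit 12) (node (nat_lit 4) (nat_lit 57485) (nat_lit 13)
  (node (nat_lit 5) (nat_lit 57015) (nat_lit 14) nil nil) nil) nil) (node (nat_lit 9) (nat_lit
  59817) (nat_lit 11) nil nil)) (node (nat_lit 9) (nat_lit 58138) (nat_lit 10) (node (nat_lit 5)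
  (nat_lit 56024) (nat_lit 11) nil nil) (node (nat_lit 0) (nat_lit 58120) (nat_lit 10) nil nil))))
  (node (nat_lit 9) (nat_lit 57076) (nat_lit 9) (node (nat_lit 5) (nat_lit 58883) (nat_lit 10)
  (node (nat_lit 4) (nat_lit 60350) (nat_lit 11) nil (node (nat_lit 7) (nat_lit 60339) (nat_lit
  11) nil nil)) (node (nat_lit 4) (nat_lit 58883) (nat_lit 10) (node (nat_lit 9) (nat_lit 59678)
  (nat_lit 11) nil (node (nat_lit 7) (nat_lit 60200) (nat_lit 11) nil nil)) (node (nat_lit 7)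
  (nat_lit 58883) (nat_lit 10) (node (nat_lit 5) (nat_lit 60200) (nat_lit 11) nil (node (nat_lit
  4) (nat_lit 59678) (nat_lit 11) nil nil)) (node (nat_lit 0) (nat_lit 56716) (nat_lit 10) nil
  nil)))) (node (nat_lit 4) (nat_lit 57076) (nat_lit 9) (node (nat_lit 9) (nat_lit 58901) (nat_lit
  10) (node (nat_lit 5) (nat_lit 60339) (nat_lit 11) nil nil) (node (nat_lit 7) (nat_lit 58695)
  (nat_lit 10) (node (nat_lit 4) (nat_lit 51750) (nat_lit 11) (node (nat_lit 5) (nat_lit 50257)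
  (nat_lit 12) nil nil) nil) (node (nat_lit 0) (nat_lit 57980) (nat_lit 10) nil nil))) (node
  (nat_lit 0) (nat_lit 55977) (nat_lit 9) (node (nat_lit 4) (nat_lit 57504) (nat_lit 10) nil (node
  (nat_lit 5) (nat_lit 57783) (nat_lit 10) (node (nat_lit 4) (nat_lit 55668) (nat_lit 11) nil nil)
  (node (nat_lit 7) (nat_lit 57456) (nat_lit 10) nil (node (nat_lit 9) (nat_lit 56881) (nat_lit
  10) nil (node (nat_lit 0) (nat_lit 56881) (nat_lit 10) nil nil))))) nil)))) (node (nat_lit 0)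
  (nat_lit 54045) (nat_lit 8) (node (nat_lit 9) (nat_lit 57216) (nat_lit 9) (node (nat_lit 4)
  (nat_lit 59022) (nat_lit 10) (node (nat_lit 7) (nat_lit 60339) (nat_lit 11) nil (node (nat_lit
  9) (nat_lit 59817) (nat_lit 11) nil (node (nat_lit 5) (nat_lit 60350) (nat_lit 11) nil nil)))
  (node (nat_lit 11) (nat_lit 58028) (nat_lit 10) (node (nat_lit 4) (nat_lit 56657) (nat_lit 11)
  nil nil) (node (nat_lit 7) (nat_lit 58695) (nat_lit 10) nil (node (nat_lit 5) (nat_lit 58695)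
  (nat_lit 10) nil (node (nat_lit 0) (nat_lit 58120) (nat_lit 10) nil nil))))) (node (nat_lit 4)
  (nat_lit 57216) (nat_lit 9) (node (nat_lit 9) (nat_lit 58104) (nat_lit 10) (node (nat_lit 11)
  (nat_lit 58900) (nat_lit 11) nil nil) (node (nat_lit 7) (nat_lit 59022) (nat_lit 10) nil (node
  (nat_lit 5) (nat_lit 58039) (nat_lit 10) nil nil))) (node (nat_lit 7) (nat_lit 57216) (nat_lit
  9) (node (nat_lit 4) (nat_lit 58695) (nat_lit 10) nil (node (nat_lit 5) (nat_lit 58695) (nat_lit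
  10) nil (node (nat_lit 9) (nat_lit 58120) (nat_lit 10) nil nil))) (node (nat_lit 5) (nat_lit
  57216) (nat_lit 9) (node (nat_lit 4) (nat_lit 58039) (nat_lit 10) nil (node (nat_lit 7) (nat_lit
  58771) (nat_lit 10) nil (node (nat_lit 11) (nat_lit 58120) (nat_lit 10) nil (node (nat_lit 9)
  (nat_lit 58120) (nat_lit 10) nil nil)))) (node (nat_lit 0) (nat_lit 56053) (nat_lit 9) (node
  (nat_lit 4) (nat_lit 57580) (nat_lit 10) nil (node (nat_lit 11) (nat_lit 56957) (nat_lit 10) nil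
  nil)) nil))))) nil))) (node (nat_lit 7) (nat_lit 0) (nat_lit 7) (node (nat_lit 9) (nat_lit
  54084) (nat_lit 8) (node (nat_lit 4) (nat_lit 57256) (nat_lit 9) (node (nat_lit 9) (nat_lit
  59062) (nat_lit 10) (node (nat_lit 7) (nat_lit 60644) (nat_lit 11) (node (nat_lit 4) (nat_lit
  61787) (nat_lit 12) (node (nat_lit 7) (nat_lit 62372) (nat_lit 13) nil nil) (node (nat_lit 5)
  (nat_lit 61787) (nat_lit 12) nil nil)) nil) (node (nat_lit 7) (nat_lit 59062) (nat_lit 10) (node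
  (nat_lit 4) (nat_lit 59083) (nat_lit 11) nil nil) nil)) nil) (node (nat_lit 4) (nat_lit 54084)
  (nat_lit 8) (node (nat_lit 7) (nat_lit 57325) (nat_lit 9) (node (nat_lit 5) (nat_lit 54664)
  (nat_lit 10) nil (node (nat_lit 9) (nat_lit 59130) (nat_lit 10) (node (nat_lit 4) (nat_lit
  57016) (nat_lit 11) nil nil) nil)) (node (nat_lit 5) (nat_lit 57256) (nat_lit 9) nil nil)) (node
  (nat_lit 5) (nat_lit 54084) (nat_lit 8) (node (nat_lit 4) (nat_lit 57256) (nat_lit 9) (node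
  (nat_lit 7) (nat_lit 59062) (nat_lit 10) nil (node (nat_lit 5) (nat_lit 54595) (nat_lit 10) nil
  nil)) (node (nat_lit 7) (nat_lit 57256) (nat_lit 9) (node (nat_lit 4) (nat_lit 55544) (nat_lit
  10) nil nil) nil)) (node (nat_lit 0) (nat_lit 52567) (nat_lit 8) (node (nat_lit 4) (nat_lit
  51820) (nat_lit 9) nil (node (nat_lit 5) (nat_lit 50302) (nat_lit 9) nil (node (nat_lit 9)
  (nat_lit 54727) (nat_lit 9) nil nil))) nil)))) (node (nat_lit 0) (nat_lit 0) (nat_lit 7) (node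
  (nat_lit 4) (nat_lit 54045) (nat_lit 8) (node (nat_lit 9) (nat_lit 57216) (nat_lit 9) (node
  (nat_lit 4) (nat_lit 59022) (nat_lit 10) (node (nat_lit 10) (nat_lit 59817) (nat_lit 11) nil
  (node (nat_lit 7) (nat_lit 55713) (nat_lit 11) nil (node (nat_lit 5) (nat_lit 56908) (nat_lit
  11) nil nil))) (node (nat_lit 7) (nat_lit 58120) (nat_lit 10) nil (node (nat_lit 5) (nat_lit
  58695) (nat_lit 10) nil (node (nat_lit 0) (nat_lit 58120) (nat_lit 10) nil nil)))) (node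
  (nat_lit 10) (nat_lit 56205) (nat_lit 9) nil (node (nat_lit 7) (nat_lit 57216) (nat_lit 9) nil
  (node (nat_lit 5) (nat_lit 57112) (nat_lit 9) nil nil)))) (node (nat_lit 9) (nat_lit 54045)
  (nat_lit 8) (node (nat_lit 4) (nat_lit 57216) (nat_lit 9) (node (nat_lit 9) (nat_lit 58120)
  (nat_lit 10) nil nil) nil) (node (nat_lit 7) (nat_lit 54045) (nat_lit 8) nil (node (nat_lit 5)
  (nat_lit 54045) (nat_lit 8) nil (node (nat_lit 0) (nat_lit 52583) (nat_lit 8) nil nil))))) (node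
  (nat_lit 5) (nat_lit 0) (nat_lit 7) (node (nat_lit 7) (nat_lit 54045) (nat_lit 8) (node (nat_lit
  4) (nat_lit 57216) (nat_lit 9) (node (nat_lit 5) (nat_lit 45757) (nat_lit 10) (node (nat_lit 4)
  (nat_lit 8986) (nat_lit 11) nil nil) nil) (node (nat_lit 5) (nat_lit 56205) (nat_lit 9) nil
  nil)) (node (nat_lit 4) (nat_lit 53904) (nat_lit 8) (node (nat_lit 5) (nat_lit 57076) (nat_lit
  9) (node (nat_lit 9) (nat_lit 57980) (nat_lit 10) nil nil) (node (nat_lit 7) (nat_lit 57076)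
  (nat_lit 9) (node (nat_lit 4) (nat_lit 47495) (nat_lit 10) (node (nat_lit 5) (nat_lit 44682)
  (nat_lit 11) nil nil) nil) nil)) (node (nat_lit 9) (nat_lit 53904) (nat_lit 8) (node (nat_lit 4)
  (nat_lit 57076) (nat_lit 9) (node (nat_lit 9) (nat_lit 58883) (nat_lit 10) (node (nat_lit 5)
  (nat_lit 60415) (nat_lit 11) (node (nat_lit 4) (nat_lit 58802) (nat_lit 12) nil (node (nat_lit
  7) (nat_lit 57829) (nat_lit 12) nil nil)) nil) nil) nil) (node (nat_lit 0) (nat_lit 52445)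
  (nat_lit 8) nil nil)))) nil)))) (node (nat_lit 5) (nat_lit 0) (nat_lit 6) (node (nat_lit 0)
  (nat_lit 0) (nat_lit 7) (node (nat_lit 4) (nat_lit 43717) (nat_lit 8) (node (nat_lit 5) (nat_lit
  45877) (nat_lit 9) (node (nat_lit 7) (nat_lit 46781) (nat_lit 10) (node (nat_lit 4) (nat_lit
  44882) (nat_lit 11) nil nil) (node (nat_lit 4) (nat_lit 46614) (nat_lit 10) (node (nat_lit 10)
  (nat_lit 47410) (nat_lit 11) (node (nat_lit 4) (nat_lit 45797) (nat_lit 12) nil nil) (node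
  (nat_lit 7) (nat_lit 46870) (nat_lit 11) nil nil)) (node (nat_lit 0) (nat_lit 46781) (nat_lit
  10) nil nil))) (node (nat_lit 7) (nat_lit 43993) (nat_lit 9) nil nil)) (node (nat_lit 7)
  (nat_lit 40753) (nat_lit 8) (node (nat_lit 5) (nat_lit 43023) (nat_lit 9) (node (nat_lit 7)
  (nat_lit 41191) (nat_lit 10) nil (node (nat_lit 4) (nat_lit 40362) (nat_lit 10) nil nil)) (node
  (nat_lit 4) (nat_lit 42914) (nat_lit 9) nil nil)) (node (nat_lit 5) (nat_lit 40715) (nat_lit 8)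
  (node (nat_lit 4) (nat_lit 41137) (nat_lit 9) (node (nat_lit 10) (nat_lit 41864) (nat_lit 10)
  nil nil) (node (nat_lit 7) (nat_lit 38459) (nat_lit 9) nil nil)) (node (nat_lit 0) (nat_lit
  43477) (nat_lit 8) nil nil)))) (node (nat_lit 7) (nat_lit 0) (nat_lit 7) (node (nat_lit 4)
  (nat_lit 0) (nat_lit 8) (node (nat_lit 7) (nat_lit 40274) (nat_lit 9) (node (nat_lit 5) (nat_lit
  40620) (nat_lit 10) nil nil) (node (nat_lit 0) (nat_lit 40274) (nat_lit 9) nil nil)) (node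
  (nat_lit 5) (nat_lit 0) (nat_lit 8) (node (nat_lit 4) (nat_lit 39786) (nat_lit 9) (node (nat_lit
  5) (nat_lit 38430) (nat_lit 10) nil nil) (node (nat_lit 0) (nat_lit 35976) (nat_lit 9) nil nil))
  (node (nat_lit 0) (nat_lit 39428) (nat_lit 8) (node (nat_lit 7) (nat_lit 41589) (nat_lit 9) nil
  (node (nat_lit 4) (nat_lit 37164) (nat_lit 9) nil nil)) nil))) nil)) nil)) nil))

noncomputable def t360 : Tr :=
  (node (nat_lit 3) (nat_lit 0) (nat_lit 4) (node (nat_lit 0) (nat_lit 0) (nat_lit 5) (node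
  (nat_lit 5) (nat_lit 0) (nat_lit 6) (node (nat_lit 8) (nat_lit 0) (nat_lit 7) (node (nat_lit 7)
  (nat_lit 111167) (nat_lit 8) (node (nat_lit 5) (nat_lit 108517) (nat_lit 9) (node (nat_lit 7)
  (nat_lit 108491) (nat_lit 10) (node (nat_lit 4) (nat_lit 106327) (nat_lit 11) (node (nat_lit 5)
  (nat_lit 104101) (nat_lit 12) (node (nat_lit 4) (nat_lit 98925) (nat_lit 13) (node (nat_lit 7)
  (nat_lit 92138) (nat_lit 14) (node (nat_lit 8) (nat_lit 78601) (nat_lit 15) (node (nat_lit 5)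
  (nat_lit 61587) (nat_lit 16) nil nil) nil) nil) nil) nil) nil) (node (nat_lit 4) (nat_lit
  105852) (nat_lit 10) (node (nat_lit 7) (nat_lit 106104) (nat_lit 11) (node (nat_lit 4) (nat_lit
  104735) (nat_lit 12) nil nil) nil) nil)) (node (nat_lit 8) (nat_lit 111167) (nat_lit 9) nil
  nil)) (node (nat_lit 4) (nat_lit 110908) (nat_lit 8) (node (nat_lit 5) (nat_lit 107666) (nat_lit
  9) (node (nat_lit 7) (nat_lit 107641) (nat_lit 10) (node (nat_lit 4) (nat_lit 105476) (nat_lit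
  11) nil nil) (node (nat_lit 4) (nat_lit 105002) (nat_lit 10) (node (nat_lit 7) (nat_lit 105253)
  (nat_lit 11) nil nil) nil)) (node (nat_lit 7) (nat_lit 108576) (nat_lit 9) (node (nat_lit 4)
  (nat_lit 101642) (nat_lit 10) nil nil) nil)) (node (nat_lit 0) (nat_lit 111167) (nat_lit 8) nil
  nil))) (node (nat_lit 7) (nat_lit 107560) (nat_lit 7) (node (nat_lit 4) (nat_lit 94539) (nat_lit
  8) (node (nat_lit 5) (nat_lit 82681) (nat_lit 9) (node (nat_lit 4) (nat_lit 58837) (nat_lit 10)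
  nil (node (nat_lit 7) (nat_lit 83580) (nat_lit 10) nil nil)) (node (nat_lit 7) (nat_lit 95722)
  (nat_lit 9) nil nil)) (node (nat_lit 5) (nat_lit 108347) (nat_lit 8) (node (nat_lit 4) (nat_lit
  106804) (nat_lit 9) (node (nat_lit 7) (nat_lit 106854) (nat_lit 10) (node (nat_lit 4) (nat_lit
  105832) (nat_lit 11) (node (nat_lit 5) (nat_lit 104101) (nat_lit 12) (node (nat_lit 4) (nat_lit
  98667) (nat_lit 13) nil nil) nil) nil) nil) nil) (node (nat_lit 8) (nat_lit 108347) (nat_lit 8)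
  (node (nat_lit 7) (nat_lit 108909) (nat_lit 9) (node (nat_lit 5) (nat_lit 107641) (nat_lit 10)
  (node (nat_lit 7) (nat_lit 107762) (nat_lit 11) (node (nat_lit 4) (nat_lit 107181) (nat_lit 12)
  (node (nat_lit 5) (nat_lit 106451) (nat_lit 13) nil nil) nil) nil) nil) (node (nat_lit 4)
  (nat_lit 106804) (nat_lit 9) nil nil)) nil))) (node (nat_lit 4) (nat_lit 109913) (nat_lit 7)
  (node (nat_lit 5) (nat_lit 105988) (nat_lit 8) (node (nat_lit 7) (nat_lit 105763) (nat_lit 9)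
  (node (nat_lit 4) (nat_lit 102591) (nat_lit 10) (node (nat_lit 5) (nat_lit 98010) (nat_lit 11)
  nil nil) nil) nil) (node (nat_lit 7) (nat_lit 110385) (nat_lit 8) (node (nat_lit 4) (nat_lit
  101533) (nat_lit 9) (node (nat_lit 5) (nat_lit 99039) (nat_lit 10) (node (nat_lit 4) (nat_lit
  80811) (nat_lit 11) nil nil) nil) (node (nat_lit 5) (nat_lit 107998) (nat_lit 9) nil nil)) (node
  (nat_lit 8) (nat_lit 111167) (nat_lit 8) (node (nat_lit 4) (nat_lit 108517) (nat_lit 9) nil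
  (node (nat_lit 7) (nat_lit 111167) (nat_lit 9) nil nil)) nil))) (node (nat_lit 0) (nat_lit
  107671) (nat_lit 7) (node (nat_lit 7) (nat_lit 109517) (nat_lit 8) nil (node (nat_lit 4)
  (nat_lit 103747) (nat_lit 8) nil nil)) nil)))) (node (nat_lit 4) (nat_lit 0) (nat_lit 6) (node
  (nat_lit 8) (nat_lit 0) (nat_lit 7) (node (nat_lit 7) (nat_lit 110956) (nat_lit 8) (node
  (nat_lit 4) (nat_lit 111167) (nat_lit 9) (node (nat_lit 7) (nat_lit 111167) (nat_lit 10) (node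
  (nat_lit 5) (nat_lit 110920) (nat_lit 11) (node (nat_lit 7) (nat_lit 111167) (nat_lit 12) (node
  (nat_lit 4) (nat_lit 110380) (nat_lit 13) nil nil) nil) nil) nil) (node (nat_lit 8) (nat_lit
  111167) (nat_lit 9) (node (nat_lit 4) (nat_lit 109474) (nat_lit 10) (node (nat_lit 7) (nat_lit
  109725) (nat_lit 11) nil nil) (node (nat_lit 5) (nat_lit 109474) (nat_lit 10) (node (nat_lit 7)
  (nat_lit 109725) (nat_lit 11) nil nil) nil)) (node (nat_lit 5) (nat_lit 107714) (nat_lit 9)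
  (node (nat_lit 7) (nat_lit 107688) (nat_lit 10) (node (nat_lit 4) (nat_lit 105523) (nat_lit 11)
  nil nil) nil) nil))) (node (nat_lit 5) (nat_lit 110541) (nat_lit 8) (node (nat_lit 4) (nat_lit
  107299) (nat_lit 9) (node (nat_lit 5) (nat_lit 104635) (nat_lit 10) (node (nat_lit 7) (nat_lit
  104886) (nat_lit 11) (node (nat_lit 4) (nat_lit 103518) (nat_lit 12) nil nil) nil) (node
  (nat_lit 7) (nat_lit 105915) (nat_lit 10) (node (nat_lit 4) (nat_lit 103751) (nat_lit 11) (node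
  (nat_lit 5) (nat_lit 101857) (nat_lit 12) nil nil) nil) nil)) (node (nat_lit 7) (nat_lit 105701)
  (nat_lit 9) (node (nat_lit 4) (nat_lit 102529) (nat_lit 10) (node (nat_lit 5) (nat_lit 91583)
  (nat_lit 11) nil nil) nil) nil)) (node (nat_lit 0) (nat_lit 110956) (nat_lit 8) nil nil))) (node
  (nat_lit 7) (nat_lit 107560) (nat_lit 7) (node (nat_lit 4) (nat_lit 104032) (nat_lit 8) (node
  (nat_lit 5) (nat_lit 90323) (nat_lit 9) (node (nat_lit 7) (nat_lit 91223) (nat_lit 10) (node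
  (nat_lit 5) (nat_lit 92014) (nat_lit 11) nil nil) (node (nat_lit 4) (nat_lit 66046) (nat_lit 10)
  (node (nat_lit 7) (nat_lit 54553) (nat_lit 11) nil nil) nil)) (node (nat_lit 8) (nat_lit 104594)
  (nat_lit 9) nil nil)) (node (nat_lit 5) (nat_lit 105669) (nat_lit 8) (node (nat_lit 7) (nat_lit
  105556) (nat_lit 9) (node (nat_lit 4) (nat_lit 103197) (nat_lit 10) (node (nat_lit 5) (nat_lit
  99782) (nat_lit 11) nil nil) nil) (node (nat_lit 4) (nat_lit 104126) (nat_lit 9) (node (nat_lit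
  7) (nat_lit 104176) (nat_lit 10) nil nil) nil)) nil)) (node (nat_lit 5) (nat_lit 110001)
  (nat_lit 7) (node (nat_lit 7) (nat_lit 110385) (nat_lit 8) (node (nat_lit 4) (nat_lit 107933)
  (nat_lit 9) (node (nat_lit 5) (nat_lit 99324) (nat_lit 10) (node (nat_lit 4) (nat_lit 88797)
  (nat_lit 11) (node (nat_lit 7) (nat_lit 71009) (nat_lit 12) nil nil) nil) nil) nil) (node
  (nat_lit 4) (nat_lit 106076) (nat_lit 8) (node (nat_lit 7) (nat_lit 105851) (nat_lit 9) (node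
  (nat_lit 5) (nat_lit 103186) (nat_lit 10) (node (nat_lit 7) (nat_lit 103438) (nat_lit 11) (node
  (nat_lit 4) (nat_lit 102069) (nat_lit 12) nil nil) nil) (node (nat_lit 4) (nat_lit 102679)
  (nat_lit 10) nil nil)) nil) (node (nat_lit 8) (nat_lit 111167) (nat_lit 8) (node (nat_lit 5)
  (nat_lit 108605) (nat_lit 9) nil (node (nat_lit 7) (nat_lit 111167) (nat_lit 9) nil nil)) nil)))
  (node (nat_lit 0) (nat_lit 109739) (nat_lit 7) (node (nat_lit 7) (nat_lit 111167) (nat_lit 8)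
  nil (node (nat_lit 4) (nat_lit 105814) (nat_lit 8) nil (node (nat_lit 5) (nat_lit 105814)
  (nat_lit 8) nil nil))) nil)))) (node (nat_lit 0) (nat_lit 0) (nat_lit 6) (node (nat_lit 8)
  (nat_lit 0) (nat_lit 7) (node (nat_lit 7) (nat_lit 111167) (nat_lit 8) (node (nat_lit 9)
  (nat_lit 111167) (nat_lit 9) nil nil) (node (nat_lit 4) (nat_lit 110579) (nat_lit 8) (node
  (nat_lit 7) (nat_lit 108576) (nat_lit 9) (node (nat_lit 4) (nat_lit 98888) (nat_lit 10) nil nil)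
  (node (nat_lit 5) (nat_lit 108315) (nat_lit 9) nil nil)) (node (nat_lit 5) (nat_lit 111167)
  (nat_lit 8) (node (nat_lit 7) (nat_lit 105701) (nat_lit 9) nil (node (nat_lit 4) (nat_lit
  108235) (nat_lit 9) nil nil)) (node (nat_lit 0) (nat_lit 111167) (nat_lit 8) nil nil)))) (node
  (nat_lit 7) (nat_lit 110582) (nat_lit 7) (node (nat_lit 9) (nat_lit 111167) (nat_lit 8) nil
  (node (nat_lit 4) (nat_lit 111167) (nat_lit 8) nil (node (nat_lit 5) (nat_lit 106657) (nat_lit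
  8) (node (nat_lit 7) (nat_lit 105701) (nat_lit 9) nil nil) (node (nat_lit 0) (nat_lit 111167)
  (nat_lit 8) nil nil)))) (node (nat_lit 4) (nat_lit 109789) (nat_lit 7) (node (nat_lit 5)
  (nat_lit 107836) (nat_lit 8) nil (node (nat_lit 7) (nat_lit 103653) (nat_lit 8) (node (nat_lit
  4) (nat_lit 98483) (nat_lit 9) nil nil) nil)) (node (nat_lit 5) (nat_lit 110704) (nat_lit 7)
  (node (nat_lit 7) (nat_lit 108910) (nat_lit 8) (node (nat_lit 4) (nat_lit 93787) (nat_lit 9) nil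
  nil) (node (nat_lit 4) (nat_lit 107836) (nat_lit 8) nil nil)) (node (nat_lit 0) (nat_lit 109519)
  (nat_lit 7) (node (nat_lit 8) (nat_lit 111167) (nat_lit 8) nil nil) nil))))) (node (nat_lit 7)
  (nat_lit 0) (nat_lit 6) (node (nat_lit 4) (nat_lit 109893) (nat_lit 7) (node (nat_lit 7)
  (nat_lit 111167) (nat_lit 8) (node (nat_lit 8) (nat_lit 111167) (nat_lit 9) (node (nat_lit 4)
  (nat_lit 110257) (nat_lit 10) (node (nat_lit 7) (nat_lit 110509) (nat_lit 11) (node (nat_lit 4)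
  (nat_lit 109140) (nat_lit 12) nil nil) nil) nil) nil) (node (nat_lit 5) (nat_lit 111167)
  (nat_lit 8) (node (nat_lit 4) (nat_lit 108497) (nat_lit 9) (node (nat_lit 7) (nat_lit 108471)
  (nat_lit 10) nil nil) nil) nil)) (node (nat_lit 5) (nat_lit 110704) (nat_lit 7) (node (nat_lit
  4) (nat_lit 107927) (nat_lit 8) (node (nat_lit 7) (nat_lit 107702) (nat_lit 9) (node (nat_lit 4)
  (nat_lit 104530) (nat_lit 10) (node (nat_lit 5) (nat_lit 101374) (nat_lit 11) nil nil) nil)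
  (node (nat_lit 5) (nat_lit 104685) (nat_lit 9) (node (nat_lit 7) (nat_lit 104659) (nat_lit 10)
  nil nil) nil)) (node (nat_lit 7) (nat_lit 110385) (nat_lit 8) (node (nat_lit 4) (nat_lit 107933)
  (nat_lit 9) (node (nat_lit 5) (nat_lit 96994) (nat_lit 10) (node (nat_lit 4) (nat_lit 69793)
  (nat_lit 11) (node (nat_lit 7) (nat_lit 18689) (nat_lit 12) nil nil) nil) nil) nil) nil)) (node
  (nat_lit 0) (nat_lit 0) (nat_lit 7) (node (nat_lit 7) (nat_lit 111167) (nat_lit 8) nil (node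
  (nat_lit 4) (nat_lit 105968) (nat_lit 8) nil (node (nat_lit 5) (nat_lit 105968) (nat_lit 8) nil
  (node (nat_lit 0) (nat_lit 111167) (nat_lit 8) nil (node (nat_lit 8) (nat_lit 111167) (nat_lit
  8) nil nil))))) nil))) nil)))) t359) (node (nat_lit 0) (nat_lit 0) (nat_lit 4) (node (nat_lit 5)
  (nat_lit 0) (nat_lit 5) (node (nat_lit 7) (nat_lit 0) (nat_lit 6) (node (nat_lit 4) (nat_lit 0)
  (nat_lit 7) (node (nat_lit 5) (nat_lit 92506) (nat_lit 8) (node (nat_lit 4) (nat_lit 96271)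
  (nat_lit 9) nil (node (nat_lit 3) (nat_lit 99288) (nat_lit 9) (node (nat_lit 4) (nat_lit 96361)
  (nat_lit 10) nil nil) nil)) (node (nat_lit 3) (nat_lit 100812) (nat_lit 8) (node (nat_lit 4)
  (nat_lit 92229) (nat_lit 9) (node (nat_lit 5) (nat_lit 89363) (nat_lit 10) (node (nat_lit 4)
  (nat_lit 83337) (nat_lit 11) nil nil) nil) nil) (node (nat_lit 7) (nat_lit 92175) (nat_lit 8)
  (node (nat_lit 5) (nat_lit 88933) (nat_lit 9) nil nil) (node (nat_lit 0) (nat_lit 101765)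
  (nat_lit 8) nil nil)))) (node (nat_lit 3) (nat_lit 107110) (nat_lit 7) (node (nat_lit 4)
  (nat_lit 107897) (nat_lit 8) nil (node (nat_lit 5) (nat_lit 104542) (nat_lit 8) nil nil)) (node
  (nat_lit 0) (nat_lit 99920) (nat_lit 7) nil nil))) (node (nat_lit 3) (nat_lit 102234) (nat_lit
  6) (node (nat_lit 4) (nat_lit 96742) (nat_lit 7) (node (nat_lit 5) (nat_lit 78826) (nat_lit 8)
  (node (nat_lit 4) (nat_lit 33499) (nat_lit 9) (node (nat_lit 9) (nat_lit 33382) (nat_lit 10) nil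
  nil) (node (nat_lit 9) (nat_lit 79737) (nat_lit 9) nil nil)) nil) (node (nat_lit 7) (nat_lit
  103523) (nat_lit 7) nil (node (nat_lit 5) (nat_lit 103523) (nat_lit 7) nil nil))) (node (nat_lit
  4) (nat_lit 71868) (nat_lit 6) (node (nat_lit 3) (nat_lit 100350) (nat_lit 7) (node (nat_lit 5)
  (nat_lit 98459) (nat_lit 8) (node (nat_lit 10) (nat_lit 98346) (nat_lit 9) (node (nat_lit 4)
  (nat_lit 96948) (nat_lit 10) (node (nat_lit 5) (nat_lit 94961) (nat_lit 11) (node (nat_lit 4)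
  (nat_lit 85714) (nat_lit 12) nil nil) nil) nil) nil) (node (nat_lit 4) (nat_lit 96846) (nat_lit
  8) (node (nat_lit 5) (nat_lit 86545) (nat_lit 9) (node (nat_lit 4) (nat_lit 30172) (nat_lit 10)
  nil nil) nil) nil)) (node (nat_lit 5) (nat_lit 74593) (nat_lit 7) (node (nat_lit 3) (nat_lit
  91723) (nat_lit 8) (node (nat_lit 4) (nat_lit 87404) (nat_lit 9) (node (nat_lit 5) (nat_lit
  77609) (nat_lit 10) (node (nat_lit 4) (nat_lit 65347) (nat_lit 11) nil nil) nil) nil) (node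
  (nat_lit 7) (nat_lit 90668) (nat_lit 8) nil nil)) nil)) (node (nat_lit 0) (nat_lit 105821)
  (nat_lit 6) nil nil)))) (node (nat_lit 3) (nat_lit 0) (nat_lit 5) (node (nat_lit 7) (nat_lit
  110558) (nat_lit 6) (node (nat_lit 4) (nat_lit 108560) (nat_lit 7) (node (nat_lit 5) (nat_lit
  108641) (nat_lit 8) nil (node (nat_lit 8) (nat_lit 106268) (nat_lit 8) (node (nat_lit 4)
  (nat_lit 101099) (nat_lit 9) (node (nat_lit 5) (nat_lit 96519) (nat_lit 10) nil nil) nil) nil))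
  (node (nat_lit 5) (nat_lit 109758) (nat_lit 7) (node (nat_lit 8) (nat_lit 101650) (nat_lit 8)
  (node (nat_lit 4) (nat_lit 96480) (nat_lit 9) (node (nat_lit 5) (nat_lit 91900) (nat_lit 10)
  (node (nat_lit 4) (nat_lit 61141) (nat_lit 11) nil nil) nil) nil) (node (nat_lit 4) (nat_lit
  107852) (nat_lit 8) (node (nat_lit 8) (nat_lit 103458) (nat_lit 9) nil nil) nil)) nil)) (node
  (nat_lit 4) (nat_lit 109876) (nat_lit 6) (node (nat_lit 5) (nat_lit 111167) (nat_lit 7) (node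
  (nat_lit 4) (nat_lit 108659) (nat_lit 8) nil nil) (node (nat_lit 7) (nat_lit 111167) (nat_lit 7)
  nil nil)) (node (nat_lit 5) (nat_lit 108063) (nat_lit 6) (node (nat_lit 4) (nat_lit 105735)
  (nat_lit 7) (node (nat_lit 8) (nat_lit 105416) (nat_lit 8) (node (nat_lit 4) (nat_lit 101413)
  (nat_lit 9) (node (nat_lit 5) (nat_lit 95991) (nat_lit 10) (node (nat_lit 4) (nat_lit 62397)
  (nat_lit 11) nil nil) nil) nil) nil) (node (nat_lit 8) (nat_lit 105178) (nat_lit 7) (node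
  (nat_lit 4) (nat_lit 99784) (nat_lit 8) (node (nat_lit 5) (nat_lit 86587) (nat_lit 9) (node
  (nat_lit 4) (nat_lit 74383) (nat_lit 10) nil nil) nil) nil) nil)) (node (nat_lit 0) (nat_lit
  108015) (nat_lit 6) nil nil)))) (node (nat_lit 0) (nat_lit 0) (nat_lit 5) (node (nat_lit 4)
  (nat_lit 101710) (nat_lit 6) (node (nat_lit 5) (nat_lit 96677) (nat_lit 7) (node (nat_lit 3)
  (nat_lit 92752) (nat_lit 8) (node (nat_lit 4) (nat_lit 87582) (nat_lit 9) nil nil) nil) (node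
  (nat_lit 3) (nat_lit 95278) (nat_lit 7) (node (nat_lit 4) (nat_lit 84593) (nat_lit 8) (node
  (nat_lit 5) (nat_lit 72907) (nat_lit 9) nil nil) (node (nat_lit 5) (nat_lit 91353) (nat_lit 8)
  nil nil)) nil)) (node (nat_lit 3) (nat_lit 107422) (nat_lit 6) (node (nat_lit 4) (nat_lit
  110129) (nat_lit 7) nil (node (nat_lit 5) (nat_lit 102388) (nat_lit 7) (node (nat_lit 9)
  (nat_lit 102021) (nat_lit 8) nil nil) nil)) (node (nat_lit 5) (nat_lit 101710) (nat_lit 6) (node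
  (nat_lit 3) (nat_lit 95508) (nat_lit 7) (node (nat_lit 4) (nat_lit 88361) (nat_lit 8) (node
  (nat_lit 5) (nat_lit 77975) (nat_lit 9) nil nil) nil) (node (nat_lit 4) (nat_lit 96677) (nat_lit
  7) (node (nat_lit 3) (nat_lit 96310) (nat_lit 8) nil nil) nil)) (node (nat_lit 0) (nat_lit
  107422) (nat_lit 6) nil (node (nat_lit 7) (nat_lit 107422) (nat_lit 6) nil nil))))) (node
  (nat_lit 4) (nat_lit 0) (nat_lit 5) (node (nat_lit 5) (nat_lit 71835) (nat_lit 6) (node (nat_lit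
  3) (nat_lit 96916) (nat_lit 7) (node (nat_lit 4) (nat_lit 93913) (nat_lit 8) (node (nat_lit 5)
  (nat_lit 83390) (nat_lit 9) (node (nat_lit 4) (nat_lit 64629) (nat_lit 10) nil nil) nil) nil)
  (node (nat_lit 7) (nat_lit 74456) (nat_lit 7) (node (nat_lit 4) (nat_lit 89248) (nat_lit 8)
  (node (nat_lit 3) (nat_lit 83253) (nat_lit 9) nil nil) (node (nat_lit 5) (nat_lit 88967)
  (nat_lit 8) nil (node (nat_lit 3) (nat_lit 96861) (nat_lit 8) nil nil))) (node (nat_lit 4)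
  (nat_lit 74542) (nat_lit 7) (node (nat_lit 3) (nat_lit 91725) (nat_lit 8) (node (nat_lit 4)
  (nat_lit 87664) (nat_lit 9) nil nil) nil) nil))) (node (nat_lit 3) (nat_lit 100686) (nat_lit 6)
  (node (nat_lit 5) (nat_lit 97093) (nat_lit 7) (node (nat_lit 4) (nat_lit 94186) (nat_lit 8)
  (node (nat_lit 9) (nat_lit 94009) (nat_lit 9) (node (nat_lit 4) (nat_lit 91706) (nat_lit 10)
  (node (nat_lit 5) (nat_lit 89232) (nat_lit 11) nil nil) nil) nil) (node (nat_lit 9) (nat_lit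
  96489) (nat_lit 8) (node (nat_lit 4) (nat_lit 93151) (nat_lit 9) (node (nat_lit 5) (nat_lit
  87691) (nat_lit 10) (node (nat_lit 4) (nat_lit 75616) (nat_lit 11) nil nil) nil) nil) nil))
  (node (nat_lit 4) (nat_lit 87887) (nat_lit 7) (node (nat_lit 5) (nat_lit 79272) (nat_lit 8)
  (node (nat_lit 4) (nat_lit 33872) (nat_lit 9) nil nil) nil) nil)) (node (nat_lit 0) (nat_lit
  93203) (nat_lit 6) nil nil))) nil)))) nil))

noncomputable def c33 : Tr :=
  (node (nat_lit 3) (nat_lit 0) (nat_lit 1) (node (nat_lit 3) (nat_lit 0) (nat_lit 2) (node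
  (nat_lit 3) (nat_lit 0) (nat_lit 3) t358 (node (nat_lit 4) (nat_lit 0) (nat_lit 3) t360 nil))
  nil) nil)

noncomputable def t366 : Tr :=
  (node (nat_lit 5) (nat_lit 0) (nat_lit 6) (node (nat_lit 8) (nat_lit 0) (nat_lit 7) (node
  (nat_lit 4) (nat_lit 86679) (nat_lit 8) (node (nat_lit 5) (nat_lit 88664) (nat_lit 9) (node
  (nat_lit 4) (nat_lit 89692) (nat_lit 10) (node (nat_lit 6) (nat_lit 92440) (nat_lit 11) (node
  (nat_lit 5) (nat_lit 93144) (nat_lit 12) (node (nat_lit 4) (nat_lit 93086) (nat_lit 13) (node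
  (nat_lit 5) (nat_lit 91991) (nat_lit 14) (node (nat_lit 6) (nat_lit 90838) (nat_lit 15) nil nil)
  nil) nil) (node (nat_lit 4) (nat_lit 89731) (nat_lit 12) (node (nat_lit 5) (nat_lit 88167)
  (nat_lit 13) (node (nat_lit 6) (nat_lit 85701) (nat_lit 14) (node (nat_lit 4) (nat_lit 82311)
  (nat_lit 15) (node (nat_lit 8) (nat_lit 66614) (nat_lit 16) nil nil) nil) nil) nil) nil)) (node
  (nat_lit 8) (nat_lit 91744) (nat_lit 11) nil (node (nat_lit 0) (nat_lit 91744) (nat_lit 11) nil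
  nil))) (node (nat_lit 6) (nat_lit 91625) (nat_lit 10) (node (nat_lit 5) (nat_lit 92523) (nat_lit
  11) (node (nat_lit 4) (nat_lit 90603) (nat_lit 12) (node (nat_lit 5) (nat_lit 88978) (nat_lit
  13) (node (nat_lit 6) (nat_lit 87167) (nat_lit 14) (node (nat_lit 4) (nat_lit 83042) (nat_lit
  15) nil nil) nil) nil) nil) (node (nat_lit 4) (nat_lit 92717) (nat_lit 11) nil nil)) (node
  (nat_lit 0) (nat_lit 91191) (nat_lit 10) nil nil))) (node (nat_lit 6) (nat_lit 88957) (nat_lit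
  9) (node (nat_lit 5) (nat_lit 89867) (nat_lit 10) (node (nat_lit 4) (nat_lit 87302) (nat_lit 11)
  (node (nat_lit 5) (nat_lit 84231) (nat_lit 12) (node (nat_lit 6) (nat_lit 81657) (nat_lit 13)
  (node (nat_lit 4) (nat_lit 74832) (nat_lit 14) nil nil) nil) nil) (node (nat_lit 6) (nat_lit
  90958) (nat_lit 11) nil nil)) (node (nat_lit 4) (nat_lit 90834) (nat_lit 10) nil (node (nat_lit
  8) (nat_lit 91485) (nat_lit 10) nil nil))) (node (nat_lit 8) (nat_lit 91175) (nat_lit 9) (node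
  (nat_lit 5) (nat_lit 91616) (nat_lit 10) (node (nat_lit 4) (nat_lit 90697) (nat_lit 11) nil
  (node (nat_lit 6) (nat_lit 90611) (nat_lit 11) nil nil)) (node (nat_lit 6) (nat_lit 91616)
  (nat_lit 10) (node (nat_lit 4) (nat_lit 92492) (nat_lit 11) nil nil) (node (nat_lit 0) (nat_lit
  92051) (nat_lit 10) nil nil))) (node (nat_lit 0) (nat_lit 90903) (nat_lit 9) (node (nat_lit 5)
  (nat_lit 90903) (nat_lit 10) nil nil) nil)))) (node (nat_lit 6) (nat_lit 89764) (nat_lit 8)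
  (node (nat_lit 5) (nat_lit 92432) (nat_lit 9) (node (nat_lit 4) (nat_lit 93651) (nat_lit 10)
  (node (nat_lit 6) (nat_lit 94436) (nat_lit 11) (node (nat_lit 4) (nat_lit 93897) (nat_lit 12)
  (node (nat_lit 5) (nat_lit 88293) (nat_lit 13) nil nil) nil) (node (nat_lit 5) (nat_lit 94241)
  (nat_lit 11) nil nil)) (node (nat_lit 6) (nat_lit 93651) (nat_lit 10) (node (nat_lit 4) (nat_lit
  94241) (nat_lit 11) nil nil) nil)) (node (nat_lit 4) (nat_lit 92432) (nat_lit 9) (node (nat_lit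
  5) (nat_lit 93210) (nat_lit 10) nil (node (nat_lit 6) (nat_lit 91386) (nat_lit 10) nil nil))
  (node (nat_lit 0) (nat_lit 92709) (nat_lit 9) nil (node (nat_lit 8) (nat_lit 92709) (nat_lit 9)
  nil nil)))) (node (nat_lit 0) (nat_lit 91931) (nat_lit 8) (node (nat_lit 5) (nat_lit 90336)
  (nat_lit 9) nil (node (nat_lit 6) (nat_lit 91931) (nat_lit 9) nil (node (nat_lit 4) (nat_lit
  91931) (nat_lit 9) nil (node (nat_lit 8) (nat_lit 92709) (nat_lit 9) nil nil)))) nil))) (node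
  (nat_lit 4) (nat_lit 0) (nat_lit 7) (node (nat_lit 8) (nat_lit 88444) (nat_lit 8) (node (nat_lit
  4) (nat_lit 88143) (nat_lit 9) (node (nat_lit 5) (nat_lit 90020) (nat_lit 10) (node (nat_lit 4)
  (nat_lit 91551) (nat_lit 11) (node (nat_lit 6) (nat_lit 90597) (nat_lit 12) nil nil) (node
  (nat_lit 6) (nat_lit 89015) (nat_lit 11) nil nil)) nil) (node (nat_lit 6) (nat_lit 88945)
  (nat_lit 9) (node (nat_lit 5) (nat_lit 89112) (nat_lit 10) nil nil) nil)) (node (nat_lit 5)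
  (nat_lit 84823) (nat_lit 8) (node (nat_lit 6) (nat_lit 88593) (nat_lit 9) (node (nat_lit 4)
  (nat_lit 89832) (nat_lit 10) (node (nat_lit 6) (nat_lit 91021) (nat_lit 11) nil (node (nat_lit
  8) (nat_lit 26522) (nat_lit 11) nil nil)) (node (nat_lit 5) (nat_lit 88764) (nat_lit 10) nil
  nil)) (node (nat_lit 8) (nat_lit 89046) (nat_lit 9) nil nil)) (node (nat_lit 6) (nat_lit 86763)
  (nat_lit 8) (node (nat_lit 5) (nat_lit 87387) (nat_lit 9) (node (nat_lit 4) (nat_lit 85873)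
  (nat_lit 10) (node (nat_lit 5) (nat_lit 81674) (nat_lit 11) (node (nat_lit 6) (nat_lit 74604)
  (nat_lit 12) (node (nat_lit 4) (nat_lit 63586) (nat_lit 13) nil nil) nil) nil) (node (nat_lit 6)
  (nat_lit 88824) (nat_lit 10) nil nil)) (node (nat_lit 4) (nat_lit 83215) (nat_lit 9) (node
  (nat_lit 5) (nat_lit 79737) (nat_lit 10) (node (nat_lit 6) (nat_lit 64493) (nat_lit 11) (node
  (nat_lit 4) (nat_lit 64933) (nat_lit 12) nil nil) nil) nil) nil)) (node (nat_lit 0) (nat_lit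
  87791) (nat_lit 8) nil nil)))) (node (nat_lit 6) (nat_lit 0) (nat_lit 7) (node (nat_lit 4)
  (nat_lit 88466) (nat_lit 8) (node (nat_lit 6) (nat_lit 90785) (nat_lit 9) (node (nat_lit 5)
  (nat_lit 91544) (nat_lit 10) (node (nat_lit 4) (nat_lit 88518) (nat_lit 11) (node (nat_lit 5)
  (nat_lit 85447) (nat_lit 12) (node (nat_lit 6) (nat_lit 82118) (nat_lit 13) nil nil) nil) nil)
  nil) (node (nat_lit 5) (nat_lit 88008) (nat_lit 9) (node (nat_lit 4) (nat_lit 86720) (nat_lit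
  10) nil (node (nat_lit 6) (nat_lit 86842) (nat_lit 10) nil nil)) nil)) (node (nat_lit 5)
  (nat_lit 88136) (nat_lit 8) (node (nat_lit 4) (nat_lit 86292) (nat_lit 9) (node (nat_lit 6)
  (nat_lit 87484) (nat_lit 10) (node (nat_lit 4) (nat_lit 84035) (nat_lit 11) (node (nat_lit 5)
  (nat_lit 81001) (nat_lit 12) nil nil) nil) (node (nat_lit 5) (nat_lit 76057) (nat_lit 10) (node
  (nat_lit 6) (nat_lit 66875) (nat_lit 11) (node (nat_lit 4) (nat_lit 50360) (nat_lit 12) nil nil)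
  nil) nil)) nil) (node (nat_lit 8) (nat_lit 92086) (nat_lit 8) (node (nat_lit 6) (nat_lit 92086)
  (nat_lit 9) (node (nat_lit 5) (nat_lit 93312) (nat_lit 10) (node (nat_lit 6) (nat_lit 93902)
  (nat_lit 11) nil nil) nil) (node (nat_lit 4) (nat_lit 92588) (nat_lit 9) nil (node (nat_lit 5)
  (nat_lit 92086) (nat_lit 9) nil nil))) (node (nat_lit 0) (nat_lit 90341) (nat_lit 8) nil nil))))
  (node (nat_lit 0) (nat_lit 87887) (nat_lit 7) (node (nat_lit 5) (nat_lit 86948) (nat_lit 8) nil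
  (node (nat_lit 4) (nat_lit 87563) (nat_lit 8) nil (node (nat_lit 6) (nat_lit 89680) (nat_lit 8)
  nil (node (nat_lit 8) (nat_lit 90172) (nat_lit 8) nil nil)))) nil)))) (node (nat_lit 6) (nat_lit
  0) (nat_lit 6) (node (nat_lit 8) (nat_lit 0) (nat_lit 7) (node (nat_lit 4) (nat_lit 90717)
  (nat_lit 8) (node (nat_lit 6) (nat_lit 92626) (nat_lit 9) (node (nat_lit 5) (nat_lit 93597)
  (nat_lit 10) (node (nat_lit 4) (nat_lit 93165) (nat_lit 11) (node (nat_lit 5) (nat_lit 90692)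
  (nat_lit 12) (node (nat_lit 6) (nat_lit 87520) (nat_lit 13) (node (nat_lit 4) (nat_lit 80696)
  (nat_lit 14) (node (nat_lit 8) (nat_lit 66290) (nat_lit 15) (node (nat_lit 6) (nat_lit 48361)
  (nat_lit 16) nil nil) nil) nil) nil) (node (nat_lit 6) (nat_lit 91402) (nat_lit 12) nil nil))
  (node (nat_lit 6) (nat_lit 94688) (nat_lit 11) nil nil)) (node (nat_lit 4) (nat_lit 94063)
  (nat_lit 10) (node (nat_lit 5) (nat_lit 94916) (nat_lit 11) nil nil) (node (nat_lit 0) (nat_lit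
  94916) (nat_lit 10) nil nil))) (node (nat_lit 5) (nat_lit 91817) (nat_lit 9) (node (nat_lit 6)
  (nat_lit 93855) (nat_lit 10) (node (nat_lit 4) (nat_lit 94946) (nat_lit 11) nil (node (nat_lit
  5) (nat_lit 91379) (nat_lit 11) nil nil)) (node (nat_lit 4) (nat_lit 93693) (nat_lit 10) (node
  (nat_lit 6) (nat_lit 89521) (nat_lit 11) nil nil) (node (nat_lit 8) (nat_lit 94344) (nat_lit 10)
  nil nil))) (node (nat_lit 8) (nat_lit 94037) (nat_lit 9) (node (nat_lit 6) (nat_lit 94037)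
  (nat_lit 10) nil (node (nat_lit 5) (nat_lit 94037) (nat_lit 10) nil nil)) (node (nat_lit 0)
  (nat_lit 94037) (nat_lit 9) nil nil)))) (node (nat_lit 5) (nat_lit 90717) (nat_lit 8) (node
  (nat_lit 6) (nat_lit 93259) (nat_lit 9) (node (nat_lit 4) (nat_lit 94010) (nat_lit 10) (node
  (nat_lit 6) (nat_lit 95068) (nat_lit 11) (node (nat_lit 5) (nat_lit 93544) (nat_lit 12) nil nil)
  (node (nat_lit 5) (nat_lit 95068) (nat_lit 11) nil nil)) (node (nat_lit 5) (nat_lit 90256)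
  (nat_lit 10) (node (nat_lit 4) (nat_lit 89340) (nat_lit 11) (node (nat_lit 5) (nat_lit 86867)
  (nat_lit 12) (node (nat_lit 6) (nat_lit 83696) (nat_lit 13) (node (nat_lit 4) (nat_lit 76871)
  (nat_lit 14) nil nil) nil) (node (nat_lit 6) (nat_lit 90096) (nat_lit 12) nil nil)) nil) nil))
  (node (nat_lit 4) (nat_lit 91317) (nat_lit 9) (node (nat_lit 6) (nat_lit 92167) (nat_lit 10) nil
  (node (nat_lit 5) (nat_lit 92753) (nat_lit 10) nil nil)) (node (nat_lit 0) (nat_lit 93536)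
  (nat_lit 9) nil (node (nat_lit 8) (nat_lit 93536) (nat_lit 9) nil nil)))) (node (nat_lit 0)
  (nat_lit 92758) (nat_lit 8) (node (nat_lit 6) (nat_lit 93259) (nat_lit 9) nil (node (nat_lit 5)
  (nat_lit 92758) (nat_lit 9) nil (node (nat_lit 4) (nat_lit 92758) (nat_lit 9) nil nil))) nil)))
  (node (nat_lit 5) (nat_lit 0) (nat_lit 7) (node (nat_lit 4) (nat_lit 91521) (nat_lit 8) (node
  (nat_lit 6) (nat_lit 90211) (nat_lit 9) (node (nat_lit 5) (nat_lit 90989) (nat_lit 10) (node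
  (nat_lit 6) (nat_lit 91579) (nat_lit 11) nil nil) (node (nat_lit 4) (nat_lit 88434) (nat_lit 10)
  (node (nat_lit 5) (nat_lit 84810) (nat_lit 11) (node (nat_lit 6) (nat_lit 79244) (nat_lit 12)
  nil nil) nil) nil)) (node (nat_lit 5) (nat_lit 92758) (nat_lit 9) (node (nat_lit 6) (nat_lit
  92691) (nat_lit 10) nil nil) nil)) (node (nat_lit 6) (nat_lit 91521) (nat_lit 8) (node (nat_lit
  4) (nat_lit 93259) (nat_lit 9) (node (nat_lit 5) (nat_lit 94037) (nat_lit 10) nil nil) nil)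
  (node (nat_lit 8) (nat_lit 92758) (nat_lit 8) (node (nat_lit 5) (nat_lit 92758) (nat_lit 9)
  (node (nat_lit 6) (nat_lit 93536) (nat_lit 10) (node (nat_lit 5) (nat_lit 94126) (nat_lit 11)
  (node (nat_lit 4) (nat_lit 92854) (nat_lit 12) nil nil) nil) nil) (node (nat_lit 4) (nat_lit
  92758) (nat_lit 9) nil (node (nat_lit 6) (nat_lit 92758) (nat_lit 9) nil nil))) (node (nat_lit
  0) (nat_lit 91665) (nat_lit 8) nil nil)))) (node (nat_lit 4) (nat_lit 0) (nat_lit 7) (node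
  (nat_lit 6) (nat_lit 91055) (nat_lit 8) (node (nat_lit 5) (nat_lit 93014) (nat_lit 9) (node
  (nat_lit 4) (nat_lit 93357) (nat_lit 10) (node (nat_lit 5) (nat_lit 91850) (nat_lit 11) (node
  (nat_lit 6) (nat_lit 84589) (nat_lit 12) (node (nat_lit 4) (nat_lit 76140) (nat_lit 13) (node
  (nat_lit 8) (nat_lit 30413) (nat_lit 14) nil nil) nil) nil) nil) (node (nat_lit 6) (nat_lit
  94252) (nat_lit 10) nil nil)) (node (nat_lit 8) (nat_lit 93751) (nat_lit 9) nil nil)) (node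
  (nat_lit 5) (nat_lit 89776) (nat_lit 8) (node (nat_lit 6) (nat_lit 92597) (nat_lit 9) (node
  (nat_lit 5) (nat_lit 93620) (nat_lit 10) nil (node (nat_lit 4) (nat_lit 94033) (nat_lit 10) nil
  nil)) (node (nat_lit 4) (nat_lit 92063) (nat_lit 9) nil nil)) (node (nat_lit 0) (nat_lit 91652)
  (nat_lit 8) nil nil))) (node (nat_lit 0) (nat_lit 90550) (nat_lit 7) (node (nat_lit 6) (nat_lit
  91642) (nat_lit 8) nil (node (nat_lit 4) (nat_lit 90350) (nat_lit 8) nil (node (nat_lit 5)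
  (nat_lit 89041) (nat_lit 8) nil (node (nat_lit 8) (nat_lit 91787) (nat_lit 8) nil nil))))
  nil)))) (node (nat_lit 0) (nat_lit 0) (nat_lit 6) (node (nat_lit 8) (nat_lit 0) (nat_lit 7)
  (node (nat_lit 4) (nat_lit 88539) (nat_lit 8) (node (nat_lit 9) (nat_lit 93335) (nat_lit 9)
  (node (nat_lit 8) (nat_lit 94426) (nat_lit 10) nil (node (nat_lit 4) (nat_lit 93335) (nat_lit
  10) nil nil)) (node (nat_lit 5) (nat_lit 89547) (nat_lit 9) nil (node (nat_lit 6) (nat_lit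
  91297) (nat_lit 9) nil (node (nat_lit 8) (nat_lit 92261) (nat_lit 9) nil (node (nat_lit 0)
  (nat_lit 92261) (nat_lit 9) nil nil))))) (node (nat_lit 6) (nat_lit 91345) (nat_lit 8) (node
  (nat_lit 4) (nat_lit 93259) (nat_lit 9) (node (nat_lit 6) (nat_lit 92966) (nat_lit 10) nil nil)
  (node (nat_lit 9) (nat_lit 93536) (nat_lit 9) nil (node (nat_lit 5) (nat_lit 91163) (nat_lit 9)
  nil (node (nat_lit 8) (nat_lit 93536) (nat_lit 9) nil (node (nat_lit 0) (nat_lit 93536) (nat_lit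
  9) nil nil))))) (node (nat_lit 5) (nat_lit 88539) (nat_lit 8) (node (nat_lit 9) (nat_lit 92261)
  (nat_lit 9) nil (node (nat_lit 4) (nat_lit 90505) (nat_lit 9) (node (nat_lit 5) (nat_lit 91941)
  (nat_lit 10) nil nil) (node (nat_lit 6) (nat_lit 91208) (nat_lit 9) nil (node (nat_lit 8)
  (nat_lit 92261) (nat_lit 9) nil (node (nat_lit 0) (nat_lit 92261) (nat_lit 9) nil nil))))) (node
  (nat_lit 0) (nat_lit 92758) (nat_lit 8) (node (nat_lit 9) (nat_lit 93536) (nat_lit 9) nil (node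
  (nat_lit 4) (nat_lit 92758) (nat_lit 9) nil (node (nat_lit 8) (nat_lit 93536) (nat_lit 9) nil
  nil))) nil)))) (node (nat_lit 4) (nat_lit 0) (nat_lit 7) (node (nat_lit 9) (nat_lit 92416)
  (nat_lit 8) (node (nat_lit 8) (nat_lit 93695) (nat_lit 9) (node (nat_lit 9) (nat_lit 94285)
  (nat_lit 10) nil nil) (node (nat_lit 0) (nat_lit 93194) (nat_lit 9) nil (node (nat_lit 5)
  (nat_lit 92416) (nat_lit 9) nil (node (nat_lit 6) (nat_lit 92416) (nat_lit 9) nil nil)))) (node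
  (nat_lit 6) (nat_lit 90498) (nat_lit 8) (node (nat_lit 4) (nat_lit 92416) (nat_lit 9) nil (node
  (nat_lit 5) (nat_lit 88199) (nat_lit 9) nil nil)) (node (nat_lit 5) (nat_lit 89181) (nat_lit 8)
  (node (nat_lit 4) (nat_lit 88742) (nat_lit 9) nil (node (nat_lit 6) (nat_lit 90609) (nat_lit 9)
  nil nil)) (node (nat_lit 8) (nat_lit 92403) (nat_lit 8) (node (nat_lit 4) (nat_lit 92403)
  (nat_lit 9) nil nil) (node (nat_lit 0) (nat_lit 91324) (nat_lit 8) nil nil))))) (node (nat_lit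
  5) (nat_lit 0) (nat_lit 7) (node (nat_lit 6) (nat_lit 88032) (nat_lit 8) (node (nat_lit 4)
  (nat_lit 90317) (nat_lit 9) nil (node (nat_lit 5) (nat_lit 88463) (nat_lit 9) nil nil)) (node
  (nat_lit 4) (nat_lit 87565) (nat_lit 8) (node (nat_lit 5) (nat_lit 89850) (nat_lit 9) nil nil)
  (node (nat_lit 9) (nat_lit 91089) (nat_lit 8) nil (node (nat_lit 8) (nat_lit 91089) (nat_lit 8)
  nil (node (nat_lit 0) (nat_lit 91089) (nat_lit 8) nil nil))))) (node (nat_lit 6) (nat_lit 0)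
  (nat_lit 7) (node (nat_lit 5) (nat_lit 91543) (nat_lit 8) (node (nat_lit 4) (nat_lit 89714)
  (nat_lit 9) nil (node (nat_lit 6) (nat_lit 92780) (nat_lit 9) nil nil)) (node (nat_lit 4)
  (nat_lit 89918) (nat_lit 8) (node (nat_lit 6) (nat_lit 92174) (nat_lit 9) nil nil) (node
  (nat_lit 9) (nat_lit 91687) (nat_lit 8) nil (node (nat_lit 8) (nat_lit 91687) (nat_lit 8) nil
  (node (nat_lit 0) (nat_lit 91687) (nat_lit 8) nil nil))))) (node (nat_lit 0) (nat_lit 89878)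
  (nat_lit 7) (node (nat_lit 8) (nat_lit 91324) (nat_lit 8) nil (node (nat_lit 9) (nat_lit 91324)
  (nat_lit 8) nil (node (nat_lit 5) (nat_lit 89878) (nat_lit 8) nil (node (nat_lit 6) (nat_lit
  89878) (nat_lit 8) nil nil)))) nil))))) (node (nat_lit 4) (nat_lit 0) (nat_lit 6) (node (nat_lit
  5) (nat_lit 0) (nat_lit 7) (node (nat_lit 6) (nat_lit 86353) (nat_lit 8) (node (nat_lit 5)
  (nat_lit 85189) (nat_lit 9) (node (nat_lit 4) (nat_lit 83488) (nat_lit 10) (node (nat_lit 6)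
  (nat_lit 84135) (nat_lit 11) (node (nat_lit 4) (nat_lit 83699) (nat_lit 12) (node (nat_lit 5)
  (nat_lit 82590) (nat_lit 13) nil nil) nil) (node (nat_lit 5) (nat_lit 80044) (nat_lit 11) (node
  (nat_lit 6) (nat_lit 74071) (nat_lit 12) nil nil) nil)) nil) (node (nat_lit 4) (nat_lit 87452)
  (nat_lit 9) (node (nat_lit 6) (nat_lit 86286) (nat_lit 10) nil (node (nat_lit 5) (nat_lit 88888)
  (nat_lit 10) nil nil)) nil)) (node (nat_lit 4) (nat_lit 84823) (nat_lit 8) (node (nat_lit 6)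
  (nat_lit 86883) (nat_lit 9) (node (nat_lit 5) (nat_lit 87907) (nat_lit 10) nil (node (nat_lit 4)
  (nat_lit 81834) (nat_lit 10) nil nil)) (node (nat_lit 8) (nat_lit 88545) (nat_lit 9) nil nil))
  (node (nat_lit 8) (nat_lit 88444) (nat_lit 8) (node (nat_lit 5) (nat_lit 88444) (nat_lit 9) nil
  nil) (node (nat_lit 0) (nat_lit 86698) (nat_lit 8) nil nil)))) (node (nat_lit 6) (nat_lit 0)
  (nat_lit 7) (node (nat_lit 5) (nat_lit 88404) (nat_lit 8) (node (nat_lit 4) (nat_lit 88644)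
  (nat_lit 9) (node (nat_lit 5) (nat_lit 84356) (nat_lit 10) (node (nat_lit 6) (nat_lit 75420)
  (nat_lit 11) (node (nat_lit 4) (nat_lit 56464) (nat_lit 12) nil nil) nil) (node (nat_lit 6)
  (nat_lit 86247) (nat_lit 10) nil nil)) (node (nat_lit 6) (nat_lit 90689) (nat_lit 9) (node
  (nat_lit 4) (nat_lit 92126) (nat_lit 10) nil nil) nil)) (node (nat_lit 4) (nat_lit 90069)
  (nat_lit 8) (node (nat_lit 5) (nat_lit 92354) (nat_lit 9) (node (nat_lit 6) (nat_lit 91189)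
  (nat_lit 10) nil nil) (node (nat_lit 8) (nat_lit 93580) (nat_lit 9) (node (nat_lit 6) (nat_lit
  93580) (nat_lit 10) nil nil) nil)) (node (nat_lit 8) (nat_lit 92354) (nat_lit 8) (node (nat_lit
  6) (nat_lit 92354) (nat_lit 9) nil nil) (node (nat_lit 0) (nat_lit 90609) (nat_lit 8) nil
  nil)))) (node (nat_lit 0) (nat_lit 0) (nat_lit 7) (node (nat_lit 4) (nat_lit 88344) (nat_lit 8)
  (node (nat_lit 5) (nat_lit 90629) (nat_lit 9) nil (node (nat_lit 6) (nat_lit 87222) (nat_lit 9)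
  nil (node (nat_lit 8) (nat_lit 92065) (nat_lit 9) nil nil))) (node (nat_lit 5) (nat_lit 85742)
  (nat_lit 8) nil (node (nat_lit 6) (nat_lit 90242) (nat_lit 8) nil (node (nat_lit 8) (nat_lit
  91874) (nat_lit 8) nil (node (nat_lit 0) (nat_lit 90782) (nat_lit 8) nil nil))))) nil))) nil))))

noncomputable def t367 : Tr :=
  (node (nat_lit 4) (nat_lit 0) (nat_lit 6) (node (nat_lit 8) (nat_lit 0) (nat_lit 7) (node
  (nat_lit 5) (nat_lit 81337) (nat_lit 8) (node (nat_lit 4) (nat_lit 86142) (nat_lit 9) (node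
  (nat_lit 6) (nat_lit 86913) (nat_lit 10) (node (nat_lit 5) (nat_lit 88143) (nat_lit 11) (node
  (nat_lit 4) (nat_lit 85931) (nat_lit 12) (node (nat_lit 5) (nat_lit 79018) (nat_lit 13) (node
  (nat_lit 6) (nat_lit 77207) (nat_lit 14) nil nil) nil) (node (nat_lit 6) (nat_lit 88875)
  (nat_lit 12) (node (nat_lit 4) (nat_lit 89445) (nat_lit 13) nil nil) nil)) (node (nat_lit 4)
  (nat_lit 88933) (nat_lit 11) (node (nat_lit 5) (nat_lit 87137) (nat_lit 12) (node (nat_lit 6)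
  (nat_lit 83501) (nat_lit 13) (node (nat_lit 5) (nat_lit 76717) (nat_lit 14) nil nil) nil) nil)
  nil)) (node (nat_lit 5) (nat_lit 88935) (nat_lit 10) (node (nat_lit 6) (nat_lit 89219) (nat_lit
  11) (node (nat_lit 4) (nat_lit 89749) (nat_lit 12) nil (node (nat_lit 5) (nat_lit 89320)
  (nat_lit 12) nil nil)) (node (nat_lit 8) (nat_lit 90987) (nat_lit 11) nil nil)) (node (nat_lit
  0) (nat_lit 88670) (nat_lit 10) nil nil))) (node (nat_lit 6) (nat_lit 85426) (nat_lit 9) (node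
  (nat_lit 4) (nat_lit 88219) (nat_lit 10) (node (nat_lit 5) (nat_lit 89310) (nat_lit 11) nil nil)
  (node (nat_lit 5) (nat_lit 86347) (nat_lit 10) (node (nat_lit 4) (nat_lit 86830) (nat_lit 11)
  nil nil) (node (nat_lit 8) (nat_lit 87954) (nat_lit 10) nil nil))) (node (nat_lit 8) (nat_lit
  87189) (nat_lit 9) (node (nat_lit 6) (nat_lit 86421) (nat_lit 10) nil (node (nat_lit 4) (nat_lit
  86368) (nat_lit 10) (node (nat_lit 5) (nat_lit 87459) (nat_lit 11) nil nil) nil)) (node (nat_lit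
  0) (nat_lit 86614) (nat_lit 9) nil nil)))) (node (nat_lit 6) (nat_lit 81357) (nat_lit 8) (node
  (nat_lit 4) (nat_lit 86159) (nat_lit 9) (node (nat_lit 6) (nat_lit 88952) (nat_lit 10) (node
  (nat_lit 5) (nat_lit 89434) (nat_lit 11) (node (nat_lit 4) (nat_lit 88352) (nat_lit 12) nil nil)
  nil) (node (nat_lit 5) (nat_lit 88796) (nat_lit 10) (node (nat_lit 6) (nat_lit 88304) (nat_lit
  11) nil (node (nat_lit 4) (nat_lit 89671) (nat_lit 11) nil nil)) (node (nat_lit 0) (nat_lit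
  88687) (nat_lit 10) nil nil))) (node (nat_lit 5) (nat_lit 85883) (nat_lit 9) (node (nat_lit 4)
  (nat_lit 87839) (nat_lit 10) nil (node (nat_lit 6) (nat_lit 88548) (nat_lit 10) nil nil)) (node
  (nat_lit 0) (nat_lit 86635) (nat_lit 9) nil (node (nat_lit 8) (nat_lit 85079) (nat_lit 9) nil
  nil)))) (node (nat_lit 0) (nat_lit 82200) (nat_lit 8) (node (nat_lit 4) (nat_lit 81496) (nat_lit
  9) nil (node (nat_lit 6) (nat_lit 82200) (nat_lit 9) nil (node (nat_lit 5) (nat_lit 82200)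
  (nat_lit 9) nil nil))) nil))) (node (nat_lit 5) (nat_lit 0) (nat_lit 7) (node (nat_lit 8)
  (nat_lit 83472) (nat_lit 8) (node (nat_lit 5) (nat_lit 85613) (nat_lit 9) (node (nat_lit 4)
  (nat_lit 87338) (nat_lit 10) (node (nat_lit 5) (nat_lit 88902) (nat_lit 11) (node (nat_lit 6)
  (nat_lit 88152) (nat_lit 12) nil nil) (node (nat_lit 6) (nat_lit 82991) (nat_lit 11) nil nil))
  nil) (node (nat_lit 6) (nat_lit 85394) (nat_lit 9) (node (nat_lit 4) (nat_lit 86009) (nat_lit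
  10) nil nil) nil)) (node (nat_lit 4) (nat_lit 81909) (nat_lit 8) (node (nat_lit 6) (nat_lit
  85864) (nat_lit 9) (node (nat_lit 5) (nat_lit 88630) (nat_lit 10) (node (nat_lit 6) (nat_lit
  87416) (nat_lit 11) (node (nat_lit 4) (nat_lit 87864) (nat_lit 12) nil nil) nil) (node (nat_lit
  4) (nat_lit 86615) (nat_lit 10) (node (nat_lit 5) (nat_lit 82731) (nat_lit 11) (node (nat_lit 6)
  (nat_lit 75573) (nat_lit 12) nil nil) nil) nil)) (node (nat_lit 8) (nat_lit 86972) (nat_lit 9)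
  nil nil)) (node (nat_lit 6) (nat_lit 81186) (nat_lit 8) (node (nat_lit 5) (nat_lit 84410)
  (nat_lit 9) (node (nat_lit 4) (nat_lit 83959) (nat_lit 10) (node (nat_lit 5) (nat_lit 73734)
  (nat_lit 11) (node (nat_lit 6) (nat_lit 66663) (nat_lit 12) nil nil) nil) nil) (node (nat_lit 4)
  (nat_lit 85394) (nat_lit 9) nil nil)) (node (nat_lit 0) (nat_lit 82828) (nat_lit 8) nil nil))))
  (node (nat_lit 6) (nat_lit 0) (nat_lit 7) (node (nat_lit 5) (nat_lit 81155) (nat_lit 8) (node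
  (nat_lit 4) (nat_lit 77113) (nat_lit 9) (node (nat_lit 6) (nat_lit 75087) (nat_lit 10) (node
  (nat_lit 4) (nat_lit 75597) (nat_lit 11) (node (nat_lit 5) (nat_lit 72129) (nat_lit 12) (node
  (nat_lit 6) (nat_lit 67915) (nat_lit 13) (node (nat_lit 5) (nat_lit 60586) (nat_lit 14) nil nil)
  nil) nil) nil) (node (nat_lit 5) (nat_lit 63664) (nat_lit 10) (node (nat_lit 6) (nat_lit 53260)
  (nat_lit 11) (node (nat_lit 5) (nat_lit 53780) (nat_lit 12) (node (nat_lit 8) (nat_lit 54634)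
  (nat_lit 13) nil nil) nil) nil) nil)) (node (nat_lit 6) (nat_lit 84996) (nat_lit 9) (node
  (nat_lit 4) (nat_lit 85321) (nat_lit 10) (node (nat_lit 5) (nat_lit 81437) (nat_lit 11) nil nil)
  nil) (node (nat_lit 8) (nat_lit 84877) (nat_lit 9) nil nil))) (node (nat_lit 8) (nat_lit 83585)
  (nat_lit 8) (node (nat_lit 6) (nat_lit 85141) (nat_lit 9) (node (nat_lit 4) (nat_lit 87097)
  (nat_lit 10) (node (nat_lit 6) (nat_lit 86092) (nat_lit 11) nil nil) nil) (node (nat_lit 5)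
  (nat_lit 80895) (nat_lit 9) nil (node (nat_lit 4) (nat_lit 85141) (nat_lit 9) nil nil))) (node
  (nat_lit 4) (nat_lit 81816) (nat_lit 8) (node (nat_lit 5) (nat_lit 86017) (nat_lit 9) (node
  (nat_lit 6) (nat_lit 88809) (nat_lit 10) (node (nat_lit 5) (nat_lit 86225) (nat_lit 11) nil nil)
  (node (nat_lit 4) (nat_lit 84729) (nat_lit 10) nil nil)) nil) (node (nat_lit 0) (nat_lit 79052)
  (nat_lit 8) nil nil)))) (node (nat_lit 0) (nat_lit 0) (nat_lit 7) (node (nat_lit 4) (nat_lit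
  77539) (nat_lit 8) nil (node (nat_lit 5) (nat_lit 74461) (nat_lit 8) nil (node (nat_lit 6)
  (nat_lit 77145) (nat_lit 8) nil (node (nat_lit 8) (nat_lit 78265) (nat_lit 8) nil (node (nat_lit
  0) (nat_lit 78265) (nat_lit 8) nil nil))))) nil)))) (node (nat_lit 6) (nat_lit 0) (nat_lit 6)
  (node (nat_lit 8) (nat_lit 0) (nat_lit 7) (node (nat_lit 5) (nat_lit 70211) (nat_lit 8) (node
  (nat_lit 6) (nat_lit 78851) (nat_lit 9) (node (nat_lit 5) (nat_lit 83238) (nat_lit 10) (node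
  (nat_lit 4) (nat_lit 85671) (nat_lit 11) (node (nat_lit 5) (nat_lit 87213) (nat_lit 12) (node
  (nat_lit 6) (nat_lit 88151) (nat_lit 13) (node (nat_lit 5) (nat_lit 66187) (nat_lit 14) (node
  (nat_lit 8) (nat_lit 51781) (nat_lit 15) nil nil) nil) nil) (node (nat_lit 6) (nat_lit 85984)
  (nat_lit 12) (node (nat_lit 4) (nat_lit 86978) (nat_lit 13) (node (nat_lit 5) (nat_lit 87340)
  (nat_lit 14) nil nil) nil) nil)) (node (nat_lit 8) (nat_lit 86163) (nat_lit 11) nil (node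
  (nat_lit 0) (nat_lit 85290) (nat_lit 11) nil nil))) (node (nat_lit 4) (nat_lit 86959) (nat_lit
  10) (node (nat_lit 5) (nat_lit 88922) (nat_lit 11) nil (node (nat_lit 6) (nat_lit 87284)
  (nat_lit 11) (node (nat_lit 5) (nat_lit 86113) (nat_lit 12) nil nil) nil)) (node (nat_lit 0)
  (nat_lit 82844) (nat_lit 10) nil nil))) (node (nat_lit 8) (nat_lit 79830) (nat_lit 9) (node
  (nat_lit 6) (nat_lit 83482) (nat_lit 10) (node (nat_lit 5) (nat_lit 86197) (nat_lit 11) nil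
  (node (nat_lit 4) (nat_lit 84574) (nat_lit 11) nil nil)) (node (nat_lit 4) (nat_lit 85029)
  (nat_lit 10) (node (nat_lit 5) (nat_lit 86120) (nat_lit 11) nil (node (nat_lit 6) (nat_lit
  83918) (nat_lit 11) nil nil)) (node (nat_lit 0) (nat_lit 81882) (nat_lit 10) nil nil))) (node
  (nat_lit 4) (nat_lit 83047) (nat_lit 9) (node (nat_lit 6) (nat_lit 86418) (nat_lit 10) (node
  (nat_lit 5) (nat_lit 88504) (nat_lit 11) nil (node (nat_lit 4) (nat_lit 82631) (nat_lit 11) nil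
  nil)) (node (nat_lit 5) (nat_lit 86280) (nat_lit 10) (node (nat_lit 6) (nat_lit 85275) (nat_lit
  11) nil nil) (node (nat_lit 8) (nat_lit 85575) (nat_lit 10) nil (node (nat_lit 0) (nat_lit
  85575) (nat_lit 10) nil nil)))) (node (nat_lit 0) (nat_lit 83357) (nat_lit 9) (node (nat_lit 5)
  (nat_lit 83357) (nat_lit 10) nil (node (nat_lit 6) (nat_lit 83357) (nat_lit 10) nil (node
  (nat_lit 4) (nat_lit 83357) (nat_lit 10) nil nil))) nil)))) (node (nat_lit 4) (nat_lit 80741)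
  (nat_lit 8) (node (nat_lit 6) (nat_lit 85174) (nat_lit 9) (node (nat_lit 5) (nat_lit 87517)
  (nat_lit 10) (node (nat_lit 4) (nat_lit 89200) (nat_lit 11) (node (nat_lit 5) (nat_lit 84420)
  (nat_lit 12) (node (nat_lit 6) (nat_lit 76264) (nat_lit 13) (node (nat_lit 5) (nat_lit 69870)
  (nat_lit 14) nil nil) nil) nil) (node (nat_lit 6) (nat_lit 89081) (nat_lit 11) (node (nat_lit 4)
  (nat_lit 87226) (nat_lit 12) nil nil) nil)) (node (nat_lit 4) (nat_lit 87634) (nat_lit 10) (node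
  (nat_lit 5) (nat_lit 88725) (nat_lit 11) nil nil) nil)) (node (nat_lit 5) (nat_lit 85174)
  (nat_lit 9) (node (nat_lit 6) (nat_lit 87966) (nat_lit 10) nil (node (nat_lit 4) (nat_lit 83598)
  (nat_lit 10) nil nil)) (node (nat_lit 0) (nat_lit 86036) (nat_lit 9) nil (node (nat_lit 8)
  (nat_lit 85463) (nat_lit 9) nil nil)))) (node (nat_lit 0) (nat_lit 81836) (nat_lit 8) (node
  (nat_lit 6) (nat_lit 82915) (nat_lit 9) nil (node (nat_lit 4) (nat_lit 81836) (nat_lit 9) nil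
  (node (nat_lit 5) (nat_lit 81836) (nat_lit 9) nil nil))) nil))) (node (nat_lit 4) (nat_lit 0)
  (nat_lit 7) (node (nat_lit 5) (nat_lit 79889) (nat_lit 8) (node (nat_lit 6) (nat_lit 84413)
  (nat_lit 9) (node (nat_lit 5) (nat_lit 81426) (nat_lit 10) (node (nat_lit 4) (nat_lit 79326)
  (nat_lit 11) (node (nat_lit 5) (nat_lit 76037) (nat_lit 12) nil nil) nil) (node (nat_lit 4)
  (nat_lit 85849) (nat_lit 10) nil nil)) (node (nat_lit 4) (nat_lit 82398) (nat_lit 9) (node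
  (nat_lit 6) (nat_lit 80554) (nat_lit 10) (node (nat_lit 5) (nat_lit 78834) (nat_lit 11) nil nil)
  nil) (node (nat_lit 8) (nat_lit 83610) (nat_lit 9) nil nil))) (node (nat_lit 6) (nat_lit 79889)
  (nat_lit 8) (node (nat_lit 5) (nat_lit 84206) (nat_lit 9) (node (nat_lit 4) (nat_lit 87226)
  (nat_lit 10) (node (nat_lit 5) (nat_lit 89043) (nat_lit 11) (node (nat_lit 6) (nat_lit 85446)
  (nat_lit 12) (node (nat_lit 5) (nat_lit 75937) (nat_lit 13) nil nil) nil) nil) (node (nat_lit 6)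
  (nat_lit 80714) (nat_lit 10) nil nil)) nil) (node (nat_lit 8) (nat_lit 82174) (nat_lit 8) (node
  (nat_lit 4) (nat_lit 82232) (nat_lit 9) (node (nat_lit 6) (nat_lit 80554) (nat_lit 10) (node
  (nat_lit 4) (nat_lit 81645) (nat_lit 11) nil nil) nil) (node (nat_lit 5) (nat_lit 79483)
  (nat_lit 9) nil (node (nat_lit 6) (nat_lit 82174) (nat_lit 9) nil nil))) (node (nat_lit 0)
  (nat_lit 77641) (nat_lit 8) nil nil)))) (node (nat_lit 5) (nat_lit 0) (nat_lit 7) (node (nat_lit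
  6) (nat_lit 70223) (nat_lit 8) (node (nat_lit 4) (nat_lit 80556) (nat_lit 9) (node (nat_lit 5)
  (nat_lit 74659) (nat_lit 10) (node (nat_lit 4) (nat_lit 74643) (nat_lit 11) (node (nat_lit 6)
  (nat_lit 71088) (nat_lit 12) nil nil) (node (nat_lit 6) (nat_lit 56255) (nat_lit 11) (node
  (nat_lit 5) (nat_lit 55342) (nat_lit 12) nil nil) nil)) (node (nat_lit 6) (nat_lit 78623)
  (nat_lit 10) nil nil)) (node (nat_lit 8) (nat_lit 79719) (nat_lit 9) (node (nat_lit 5) (nat_lit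
  79719) (nat_lit 10) nil nil) (node (nat_lit 0) (nat_lit 75036) (nat_lit 9) nil nil))) (node
  (nat_lit 4) (nat_lit 78881) (nat_lit 8) (node (nat_lit 6) (nat_lit 82119) (nat_lit 9) (node
  (nat_lit 4) (nat_lit 76041) (nat_lit 10) (node (nat_lit 5) (nat_lit 71218) (nat_lit 11) nil nil)
  nil) (node (nat_lit 5) (nat_lit 83280) (nat_lit 9) (node (nat_lit 6) (nat_lit 82115) (nat_lit
  10) nil nil) nil)) (node (nat_lit 0) (nat_lit 78436) (nat_lit 8) nil nil))) (node (nat_lit 0)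
  (nat_lit 0) (nat_lit 7) (node (nat_lit 6) (nat_lit 76941) (nat_lit 8) nil (node (nat_lit 5)
  (nat_lit 72869) (nat_lit 8) nil (node (nat_lit 4) (nat_lit 75470) (nat_lit 8) nil (node (nat_lit
  8) (nat_lit 76671) (nat_lit 8) nil (node (nat_lit 0) (nat_lit 76671) (nat_lit 8) nil nil)))))
  nil)))) (node (nat_lit 0) (nat_lit 0) (nat_lit 6) (node (nat_lit 8) (nat_lit 0) (nat_lit 7)
  (node (nat_lit 5) (nat_lit 80971) (nat_lit 8) (node (nat_lit 9) (nat_lit 85741) (nat_lit 9)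
  (node (nat_lit 8) (nat_lit 87856) (nat_lit 10) nil (node (nat_lit 5) (nat_lit 84048) (nat_lit
  10) nil (node (nat_lit 4) (nat_lit 85741) (nat_lit 10) nil (node (nat_lit 6) (nat_lit 85741)
  (nat_lit 10) nil nil)))) (node (nat_lit 6) (nat_lit 85179) (nat_lit 9) nil (node (nat_lit 4)
  (nat_lit 83477) (nat_lit 9) nil (node (nat_lit 8) (nat_lit 86249) (nat_lit 9) nil (node (nat_lit
  0) (nat_lit 84693) (nat_lit 9) nil nil))))) (node (nat_lit 4) (nat_lit 81695) (nat_lit 8) (node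
  (nat_lit 9) (nat_lit 86757) (nat_lit 9) nil (node (nat_lit 5) (nat_lit 83422) (nat_lit 9) (node
  (nat_lit 4) (nat_lit 82135) (nat_lit 10) nil nil) (node (nat_lit 6) (nat_lit 82585) (nat_lit 9)
  nil (node (nat_lit 8) (nat_lit 85416) (nat_lit 9) nil nil)))) (node (nat_lit 6) (nat_lit 80003)
  (nat_lit 8) (node (nat_lit 9) (nat_lit 85389) (nat_lit 9) nil (node (nat_lit 5) (nat_lit 81857)
  (nat_lit 9) (node (nat_lit 6) (nat_lit 79326) (nat_lit 10) nil nil) (node (nat_lit 4) (nat_lit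
  84318) (nat_lit 9) nil (node (nat_lit 8) (nat_lit 83724) (nat_lit 9) nil nil)))) (node (nat_lit
  0) (nat_lit 81811) (nat_lit 8) (node (nat_lit 9) (nat_lit 84231) (nat_lit 9) nil (node (nat_lit
  8) (nat_lit 84231) (nat_lit 9) nil (node (nat_lit 5) (nat_lit 81811) (nat_lit 9) nil nil)))
  nil)))) (node (nat_lit 5) (nat_lit 0) (nat_lit 7) (node (nat_lit 9) (nat_lit 83433) (nat_lit 8)
  (node (nat_lit 8) (nat_lit 86338) (nat_lit 9) (node (nat_lit 9) (nat_lit 87949) (nat_lit 10)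
  (node (nat_lit 5) (nat_lit 87949) (nat_lit 11) nil nil) (node (nat_lit 5) (nat_lit 86338)
  (nat_lit 10) nil nil)) (node (nat_lit 0) (nat_lit 84869) (nat_lit 9) nil (node (nat_lit 4)
  (nat_lit 83433) (nat_lit 9) nil (node (nat_lit 6) (nat_lit 83433) (nat_lit 9) nil nil)))) (node
  (nat_lit 4) (nat_lit 81039) (nat_lit 8) (node (nat_lit 6) (nat_lit 76296) (nat_lit 9) nil (node
  (nat_lit 5) (nat_lit 83325) (nat_lit 9) nil (node (nat_lit 8) (nat_lit 84761) (nat_lit 9) nil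
  nil))) (node (nat_lit 6) (nat_lit 80891) (nat_lit 8) (node (nat_lit 4) (nat_lit 82473) (nat_lit
  9) nil (node (nat_lit 5) (nat_lit 82076) (nat_lit 9) nil (node (nat_lit 8) (nat_lit 84613)
  (nat_lit 9) nil nil))) (node (nat_lit 8) (nat_lit 82533) (nat_lit 8) (node (nat_lit 5) (nat_lit
  82533) (nat_lit 9) nil nil) (node (nat_lit 0) (nat_lit 82533) (nat_lit 8) nil nil))))) (node
  (nat_lit 4) (nat_lit 0) (nat_lit 7) (node (nat_lit 6) (nat_lit 81586) (nat_lit 8) (node (nat_lit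
  5) (nat_lit 73975) (nat_lit 9) nil (node (nat_lit 4) (nat_lit 83871) (nat_lit 9) nil nil)) (node
  (nat_lit 5) (nat_lit 81789) (nat_lit 8) (node (nat_lit 4) (nat_lit 84937) (nat_lit 9) nil nil)
  (node (nat_lit 9) (nat_lit 83431) (nat_lit 8) nil (node (nat_lit 8) (nat_lit 83431) (nat_lit 8)
  nil (node (nat_lit 0) (nat_lit 79542) (nat_lit 8) nil nil))))) (node (nat_lit 6) (nat_lit 0)
  (nat_lit 7) (node (nat_lit 5) (nat_lit 78971) (nat_lit 8) (node (nat_lit 6) (nat_lit 81934)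
  (nat_lit 9) nil nil) (node (nat_lit 4) (nat_lit 80882) (nat_lit 8) (node (nat_lit 5) (nat_lit
  80477) (nat_lit 9) nil (node (nat_lit 6) (nat_lit 79760) (nat_lit 9) nil nil)) (node (nat_lit 9)
  (nat_lit 82523) (nat_lit 8) nil (node (nat_lit 8) (nat_lit 82523) (nat_lit 8) nil (node (nat_lit
  0) (nat_lit 78635) (nat_lit 8) nil nil))))) (node (nat_lit 0) (nat_lit 74510) (nat_lit 7) (node
  (nat_lit 9) (nat_lit 80685) (nat_lit 8) nil (node (nat_lit 8) (nat_lit 79295) (nat_lit 8) nil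
  (node (nat_lit 6) (nat_lit 74510) (nat_lit 8) nil (node (nat_lit 4) (nat_lit 74510) (nat_lit 8)
  nil nil)))) nil))))) (node (nat_lit 5) (nat_lit 0) (nat_lit 6) (node (nat_lit 6) (nat_lit 0)
  (nat_lit 7) (node (nat_lit 4) (nat_lit 80355) (nat_lit 8) (node (nat_lit 5) (nat_lit 84879)
  (nat_lit 9) (node (nat_lit 6) (nat_lit 84675) (nat_lit 10) (node (nat_lit 5) (nat_lit 84193)
  (nat_lit 11) (node (nat_lit 8) (nat_lit 55257) (nat_lit 12) nil nil) nil) (node (nat_lit 4)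
  (nat_lit 83592) (nat_lit 10) nil nil)) (node (nat_lit 6) (nat_lit 84879) (nat_lit 9) (node
  (nat_lit 5) (nat_lit 82831) (nat_lit 10) (node (nat_lit 4) (nat_lit 76652) (nat_lit 11) (node
  (nat_lit 5) (nat_lit 73476) (nat_lit 12) (node (nat_lit 6) (nat_lit 70095) (nat_lit 13) nil nil)
  nil) nil) nil) nil)) (node (nat_lit 5) (nat_lit 70229) (nat_lit 8) (node (nat_lit 4) (nat_lit
  81157) (nat_lit 9) (node (nat_lit 6) (nat_lit 76872) (nat_lit 10) (node (nat_lit 4) (nat_lit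
  72456) (nat_lit 11) (node (nat_lit 5) (nat_lit 69699) (nat_lit 12) nil nil) nil) (node (nat_lit
  5) (nat_lit 81869) (nat_lit 10) (node (nat_lit 6) (nat_lit 77153) (nat_lit 11) nil nil) nil))
  nil) (node (nat_lit 8) (nat_lit 72527) (nat_lit 8) (node (nat_lit 6) (nat_lit 71997) (nat_lit 9)
  nil nil) (node (nat_lit 0) (nat_lit 70482) (nat_lit 8) nil nil)))) (node (nat_lit 4) (nat_lit 0)
  (nat_lit 7) (node (nat_lit 6) (nat_lit 80014) (nat_lit 8) (node (nat_lit 5) (nat_lit 83023)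
  (nat_lit 9) (node (nat_lit 4) (nat_lit 75930) (nat_lit 10) (node (nat_lit 5) (nat_lit 71068)
  (nat_lit 11) (node (nat_lit 6) (nat_lit 65094) (nat_lit 12) nil nil) nil) (node (nat_lit 6)
  (nat_lit 81443) (nat_lit 10) (node (nat_lit 4) (nat_lit 81953) (nat_lit 11) nil nil) nil)) (node
  (nat_lit 4) (nat_lit 79011) (nat_lit 9) (node (nat_lit 5) (nat_lit 67756) (nat_lit 10) (node
  (nat_lit 6) (nat_lit 60557) (nat_lit 11) (node (nat_lit 5) (nat_lit 44291) (nat_lit 12) (node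
  (nat_lit 8) (nat_lit 46169) (nat_lit 13) nil nil) nil) nil) nil) nil)) (node (nat_lit 5)
  (nat_lit 81172) (nat_lit 8) (node (nat_lit 6) (nat_lit 85576) (nat_lit 9) (node (nat_lit 5)
  (nat_lit 82590) (nat_lit 10) (node (nat_lit 8) (nat_lit 53474) (nat_lit 11) nil nil) (node
  (nat_lit 4) (nat_lit 87013) (nat_lit 10) nil nil)) (node (nat_lit 8) (nat_lit 84894) (nat_lit 9)
  nil nil)) (node (nat_lit 8) (nat_lit 83458) (nat_lit 8) nil (node (nat_lit 0) (nat_lit 78924)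
  (nat_lit 8) nil nil)))) (node (nat_lit 0) (nat_lit 0) (nat_lit 7) (node (nat_lit 5) (nat_lit
  78762) (nat_lit 8) (node (nat_lit 4) (nat_lit 77481) (nat_lit 9) nil (node (nat_lit 6) (nat_lit
  77641) (nat_lit 9) nil (node (nat_lit 8) (nat_lit 82484) (nat_lit 9) nil nil))) (node (nat_lit
  4) (nat_lit 81137) (nat_lit 8) nil (node (nat_lit 6) (nat_lit 81137) (nat_lit 8) nil (node
  (nat_lit 8) (nat_lit 82779) (nat_lit 8) nil (node (nat_lit 0) (nat_lit 82779) (nat_lit 8) nil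
  nil))))) nil))) nil))))

noncomputable def t368 : Tr :=
  (node (nat_lit 5) (nat_lit 0) (nat_lit 4) (node (nat_lit 0) (nat_lit 0) (nat_lit 5) t367 (node
  (nat_lit 4) (nat_lit 0) (nat_lit 5) (node (nat_lit 0) (nat_lit 0) (nat_lit 6) (node (nat_lit 4)
  (nat_lit 0) (nat_lit 7) (node (nat_lit 5) (nat_lit 71077) (nat_lit 8) (node (nat_lit 9) (nat_lit
  79643) (nat_lit 9) (node (nat_lit 4) (nat_lit 80885) (nat_lit 10) (node (nat_lit 6) (nat_lit
  81470) (nat_lit 11) (node (nat_lit 5) (nat_lit 82732) (nat_lit 12) nil (node (nat_lit 4)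
  (nat_lit 82431) (nat_lit 12) nil nil)) (node (nat_lit 9) (nat_lit 83276) (nat_lit 11) (node
  (nat_lit 5) (nat_lit 83276) (nat_lit 12) nil nil) (node (nat_lit 0) (nat_lit 82820) (nat_lit 11)
  nil nil))) (node (nat_lit 5) (nat_lit 79505) (nat_lit 10) (node (nat_lit 4) (nat_lit 80984)
  (nat_lit 11) nil nil) (node (nat_lit 6) (nat_lit 79643) (nat_lit 10) nil nil))) (node (nat_lit
  6) (nat_lit 77143) (nat_lit 9) (node (nat_lit 4) (nat_lit 79366) (nat_lit 10) nil (node (nat_lit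
  5) (nat_lit 78794) (nat_lit 10) (node (nat_lit 4) (nat_lit 76712) (nat_lit 11) nil nil) (node
  (nat_lit 9) (nat_lit 80734) (nat_lit 10) nil (node (nat_lit 0) (nat_lit 80734) (nat_lit 10) nil
  nil)))) (node (nat_lit 4) (nat_lit 77362) (nat_lit 9) (node (nat_lit 9) (nat_lit 81977) (nat_lit
  10) (node (nat_lit 5) (nat_lit 80954) (nat_lit 11) nil nil) (node (nat_lit 6) (nat_lit 72140)
  (nat_lit 10) nil nil)) (node (nat_lit 0) (nat_lit 79643) (nat_lit 9) nil nil)))) (node (nat_lit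
  6) (nat_lit 69917) (nat_lit 8) (node (nat_lit 5) (nat_lit 75188) (nat_lit 9) (node (nat_lit 4)
  (nat_lit 76015) (nat_lit 10) (node (nat_lit 5) (nat_lit 67801) (nat_lit 11) (node (nat_lit 6)
  (nat_lit 58774) (nat_lit 12) nil nil) (node (nat_lit 6) (nat_lit 76407) (nat_lit 11) nil nil))
  (node (nat_lit 6) (nat_lit 79153) (nat_lit 10) (node (nat_lit 4) (nat_lit 80081) (nat_lit 11)
  (node (nat_lit 5) (nat_lit 71589) (nat_lit 12) nil nil) nil) (node (nat_lit 9) (nat_lit 78780)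
  (nat_lit 10) nil (node (nat_lit 0) (nat_lit 79740) (nat_lit 10) nil nil)))) (node (nat_lit 4)
  (nat_lit 75808) (nat_lit 9) (node (nat_lit 9) (nat_lit 80423) (nat_lit 10) (node (nat_lit 6)
  (nat_lit 79916) (nat_lit 11) (node (nat_lit 9) (nat_lit 81749) (nat_lit 12) nil nil) nil) (node
  (nat_lit 5) (nat_lit 78308) (nat_lit 10) nil (node (nat_lit 0) (nat_lit 79399) (nat_lit 10) nil
  nil))) (node (nat_lit 9) (nat_lit 77631) (nat_lit 9) (node (nat_lit 6) (nat_lit 79095) (nat_lit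
  10) (node (nat_lit 4) (nat_lit 80187) (nat_lit 11) nil nil) (node (nat_lit 4) (nat_lit 79095)
  (nat_lit 10) nil (node (nat_lit 5) (nat_lit 75540) (nat_lit 10) nil nil))) (node (nat_lit 0)
  (nat_lit 78308) (nat_lit 9) nil nil)))) (node (nat_lit 0) (nat_lit 73889) (nat_lit 8) (node
  (nat_lit 9) (nat_lit 78053) (nat_lit 9) (node (nat_lit 4) (nat_lit 77777) (nat_lit 10) (node
  (nat_lit 9) (nat_lit 79829) (nat_lit 11) nil nil) (node (nat_lit 11) (nat_lit 79144) (nat_lit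
  10) nil nil)) (node (nat_lit 4) (nat_lit 73398) (nat_lit 9) (node (nat_lit 9) (nat_lit 76989)
  (nat_lit 10) nil nil) (node (nat_lit 5) (nat_lit 71302) (nat_lit 9) (node (nat_lit 4) (nat_lit
  71078) (nat_lit 10) nil (node (nat_lit 9) (nat_lit 74893) (nat_lit 10) nil nil)) (node (nat_lit
  6) (nat_lit 73359) (nat_lit 9) nil (node (nat_lit 0) (nat_lit 78053) (nat_lit 9) nil nil)))))
  nil))) (node (nat_lit 5) (nat_lit 0) (nat_lit 7) (node (nat_lit 9) (nat_lit 75091) (nat_lit 8)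
  (node (nat_lit 4) (nat_lit 77348) (nat_lit 9) (node (nat_lit 9) (nat_lit 82310) (nat_lit 10)
  (node (nat_lit 5) (nat_lit 81492) (nat_lit 11) (node (nat_lit 4) (nat_lit 82075) (nat_lit 12)
  (node (nat_lit 5) (nat_lit 82475) (nat_lit 13) nil nil) (node (nat_lit 6) (nat_lit 80742)
  (nat_lit 12) nil nil)) nil) (node (nat_lit 5) (nat_lit 79848) (nat_lit 10) nil nil)) nil) (node
  (nat_lit 6) (nat_lit 70114) (nat_lit 8) (node (nat_lit 5) (nat_lit 72910) (nat_lit 9) (node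
  (nat_lit 4) (nat_lit 72318) (nat_lit 10) (node (nat_lit 5) (nat_lit 62944) (nat_lit 11) (node
  (nat_lit 6) (nat_lit 55873) (nat_lit 12) nil nil) nil) nil) (node (nat_lit 4) (nat_lit 76179)
  (nat_lit 9) (node (nat_lit 5) (nat_lit 78679) (nat_lit 10) nil (node (nat_lit 6) (nat_lit 76077)
  (nat_lit 10) nil nil)) (node (nat_lit 9) (nat_lit 77015) (nat_lit 9) nil nil))) (node (nat_lit
  4) (nat_lit 71177) (nat_lit 8) (node (nat_lit 5) (nat_lit 77359) (nat_lit 9) (node (nat_lit 9)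
  (nat_lit 80950) (nat_lit 10) nil nil) (node (nat_lit 6) (nat_lit 74605) (nat_lit 9) nil nil))
  (node (nat_lit 0) (nat_lit 74829) (nat_lit 8) nil nil)))) (node (nat_lit 0) (nat_lit 0) (nat_lit
  7) (node (nat_lit 4) (nat_lit 70583) (nat_lit 8) (node (nat_lit 9) (nat_lit 78957) (nat_lit 9)
  (node (nat_lit 4) (nat_lit 79477) (nat_lit 10) (node (nat_lit 10) (nat_lit 81529) (nat_lit 11)
  nil nil) nil) (node (nat_lit 10) (nat_lit 77484) (nat_lit 9) nil nil)) (node (nat_lit 9)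
  (nat_lit 75169) (nat_lit 8) (node (nat_lit 4) (nat_lit 76213) (nat_lit 9) (node (nat_lit 9)
  (nat_lit 79804) (nat_lit 10) nil nil) nil) (node (nat_lit 5) (nat_lit 65361) (nat_lit 8) nil
  (node (nat_lit 0) (nat_lit 73780) (nat_lit 8) nil (node (nat_lit 6) (nat_lit 66879) (nat_lit 8)
  nil nil))))) (node (nat_lit 6) (nat_lit 0) (nat_lit 7) (node (nat_lit 4) (nat_lit 68988)
  (nat_lit 8) (node (nat_lit 6) (nat_lit 72858) (nat_lit 9) (node (nat_lit 9) (nat_lit 76449)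
  (nat_lit 10) nil nil) (node (nat_lit 5) (nat_lit 72384) (nat_lit 9) nil (node (nat_lit 0)
  (nat_lit 75889) (nat_lit 9) nil nil))) (node (nat_lit 5) (nat_lit 70536) (nat_lit 8) (node
  (nat_lit 4) (nat_lit 72217) (nat_lit 9) nil (node (nat_lit 6) (nat_lit 69236) (nat_lit 9) nil
  nil)) (node (nat_lit 9) (nat_lit 73044) (nat_lit 8) (node (nat_lit 4) (nat_lit 74107) (nat_lit
  9) (node (nat_lit 9) (nat_lit 79044) (nat_lit 10) nil nil) nil) (node (nat_lit 0) (nat_lit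
  71655) (nat_lit 8) nil nil)))) nil)))) (node (nat_lit 5) (nat_lit 0) (nat_lit 6) (node (nat_lit
  0) (nat_lit 0) (nat_lit 7) (node (nat_lit 4) (nat_lit 46905) (nat_lit 8) (node (nat_lit 5)
  (nat_lit 51561) (nat_lit 9) (node (nat_lit 4) (nat_lit 53755) (nat_lit 10) (node (nat_lit 10)
  (nat_lit 54704) (nat_lit 11) (node (nat_lit 4) (nat_lit 54704) (nat_lit 12) nil nil) (node
  (nat_lit 6) (nat_lit 53382) (nat_lit 11) (node (nat_lit 4) (nat_lit 51238) (nat_lit 12) nil nil)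
  nil)) (node (nat_lit 6) (nat_lit 53755) (nat_lit 10) (node (nat_lit 4) (nat_lit 54346) (nat_lit
  11) nil (node (nat_lit 5) (nat_lit 54346) (nat_lit 11) nil nil)) (node (nat_lit 0) (nat_lit
  53559) (nat_lit 10) nil nil))) (node (nat_lit 10) (nat_lit 52164) (nat_lit 9) (node (nat_lit 5)
  (nat_lit 51415) (nat_lit 10) nil nil) (node (nat_lit 6) (nat_lit 50756) (nat_lit 9) nil nil)))
  (node (nat_lit 5) (nat_lit 46155) (nat_lit 8) (node (nat_lit 4) (nat_lit 50750) (nat_lit 9)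
  (node (nat_lit 10) (nat_lit 53268) (nat_lit 10) (node (nat_lit 4) (nat_lit 53268) (nat_lit 11)
  nil nil) nil) (node (nat_lit 6) (nat_lit 50007) (nat_lit 9) nil nil)) (node (nat_lit 6) (nat_lit
  45641) (nat_lit 8) (node (nat_lit 5) (nat_lit 50051) (nat_lit 9) (node (nat_lit 6) (nat_lit
  51718) (nat_lit 10) nil (node (nat_lit 4) (nat_lit 48735) (nat_lit 10) nil nil)) (node (nat_lit
  4) (nat_lit 48401) (nat_lit 9) nil nil)) (node (nat_lit 0) (nat_lit 47163) (nat_lit 8) nil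
  nil)))) nil) (node (nat_lit 6) (nat_lit 0) (nat_lit 6) (node (nat_lit 0) (nat_lit 0) (nat_lit 7)
  (node (nat_lit 4) (nat_lit 61933) (nat_lit 8) (node (nat_lit 6) (nat_lit 69479) (nat_lit 9)
  (node (nat_lit 5) (nat_lit 74155) (nat_lit 10) (node (nat_lit 4) (nat_lit 73145) (nat_lit 11)
  nil (node (nat_lit 6) (nat_lit 76118) (nat_lit 11) nil (node (nat_lit 10) (nat_lit 77078)
  (nat_lit 11) nil nil))) (node (nat_lit 4) (nat_lit 74281) (nat_lit 10) (node (nat_lit 10)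
  (nat_lit 77661) (nat_lit 11) (node (nat_lit 4) (nat_lit 77661) (nat_lit 12) nil nil) (node
  (nat_lit 5) (nat_lit 74872) (nat_lit 11) nil (node (nat_lit 0) (nat_lit 76332) (nat_lit 11) nil
  nil))) (node (nat_lit 0) (nat_lit 74535) (nat_lit 10) nil nil))) (node (nat_lit 5) (nat_lit
  65330) (nat_lit 9) nil (node (nat_lit 10) (nat_lit 68834) (nat_lit 9) nil nil))) (node (nat_lit
  5) (nat_lit 63280) (nat_lit 8) (node (nat_lit 6) (nat_lit 70651) (nat_lit 9) (node (nat_lit 5)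
  (nat_lit 74371) (nat_lit 10) nil (node (nat_lit 4) (nat_lit 73151) (nat_lit 10) nil nil)) (node
  (nat_lit 4) (nat_lit 63869) (nat_lit 9) nil nil)) (node (nat_lit 6) (nat_lit 60994) (nat_lit 8)
  (node (nat_lit 4) (nat_lit 69289) (nat_lit 9) (node (nat_lit 10) (nat_lit 74344) (nat_lit 10)
  (node (nat_lit 4) (nat_lit 74344) (nat_lit 11) nil nil) nil) (node (nat_lit 5) (nat_lit 60579)
  (nat_lit 9) nil nil)) (node (nat_lit 0) (nat_lit 62900) (nat_lit 8) nil nil)))) (node (nat_lit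
  5) (nat_lit 0) (nat_lit 7) (node (nat_lit 6) (nat_lit 0) (nat_lit 8) (node (nat_lit 0) (nat_lit
  56096) (nat_lit 9) nil nil) (node (nat_lit 0) (nat_lit 56178) (nat_lit 8) nil nil)) nil)) nil)))
  nil)) (node (nat_lit 0) (nat_lit 0) (nat_lit 4) (node (nat_lit 5) (nat_lit 0) (nat_lit 5) (node
  (nat_lit 7) (nat_lit 0) (nat_lit 6) (node (nat_lit 6) (nat_lit 99454) (nat_lit 7) (node (nat_lit
  5) (nat_lit 104537) (nat_lit 8) (node (nat_lit 6) (nat_lit 105650) (nat_lit 9) (node (nat_lit 4)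
  (nat_lit 101971) (nat_lit 10) (node (nat_lit 5) (nat_lit 101591) (nat_lit 11) nil nil) nil)
  (node (nat_lit 4) (nat_lit 110522) (nat_lit 9) (node (nat_lit 6) (nat_lit 105747) (nat_lit 10)
  nil nil) nil)) (node (nat_lit 4) (nat_lit 111639) (nat_lit 8) nil (node (nat_lit 7) (nat_lit
  105036) (nat_lit 8) nil nil))) (node (nat_lit 4) (nat_lit 107152) (nat_lit 7) (node (nat_lit 6)
  (nat_lit 109015) (nat_lit 8) (node (nat_lit 5) (nat_lit 105676) (nat_lit 9) (node (nat_lit 4)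
  (nat_lit 102234) (nat_lit 10) (node (nat_lit 5) (nat_lit 98190) (nat_lit 11) (node (nat_lit 6)
  (nat_lit 92216) (nat_lit 12) nil nil) nil) nil) nil) (node (nat_lit 5) (nat_lit 107333) (nat_lit
  8) nil nil)) (node (nat_lit 0) (nat_lit 111995) (nat_lit 7) nil nil))) (node (nat_lit 6)
  (nat_lit 89160) (nat_lit 6) (node (nat_lit 4) (nat_lit 106620) (nat_lit 7) (node (nat_lit 6)
  (nat_lit 109103) (nat_lit 8) (node (nat_lit 5) (nat_lit 108658) (nat_lit 9) (node (nat_lit 4)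
  (nat_lit 105452) (nat_lit 10) (node (nat_lit 5) (nat_lit 100925) (nat_lit 11) (node (nat_lit 6)
  (nat_lit 94409) (nat_lit 12) nil nil) nil) (node (nat_lit 6) (nat_lit 108786) (nat_lit 10) nil
  nil)) nil) (node (nat_lit 5) (nat_lit 108751) (nat_lit 8) (node (nat_lit 4) (nat_lit 111162)
  (nat_lit 9) (node (nat_lit 6) (nat_lit 107445) (nat_lit 10) nil nil) nil) nil)) (node (nat_lit
  5) (nat_lit 95639) (nat_lit 7) (node (nat_lit 4) (nat_lit 99625) (nat_lit 8) (node (nat_lit 6)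
  (nat_lit 99084) (nat_lit 9) (node (nat_lit 4) (nat_lit 91627) (nat_lit 10) (node (nat_lit 5)
  (nat_lit 87626) (nat_lit 11) (node (nat_lit 6) (nat_lit 81141) (nat_lit 12) nil nil) nil) nil)
  (node (nat_lit 5) (nat_lit 86388) (nat_lit 9) (node (nat_lit 6) (nat_lit 79889) (nat_lit 10) nil
  nil) nil)) (node (nat_lit 7) (nat_lit 102657) (nat_lit 8) nil nil)) nil)) (node (nat_lit 4)
  (nat_lit 96893) (nat_lit 6) (node (nat_lit 6) (nat_lit 98255) (nat_lit 7) (node (nat_lit 5)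
  (nat_lit 100104) (nat_lit 8) (node (nat_lit 6) (nat_lit 101102) (nat_lit 9) (node (nat_lit 4)
  (nat_lit 100842) (nat_lit 10) (node (nat_lit 5) (nat_lit 96570) (nat_lit 11) (node (nat_lit 6)
  (nat_lit 89183) (nat_lit 12) nil nil) nil) nil) (node (nat_lit 4) (nat_lit 93090) (nat_lit 9)
  (node (nat_lit 5) (nat_lit 85569) (nat_lit 10) (node (nat_lit 6) (nat_lit 74735) (nat_lit 11)
  nil nil) nil) nil)) (node (nat_lit 4) (nat_lit 92992) (nat_lit 8) (node (nat_lit 5) (nat_lit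
  88517) (nat_lit 9) (node (nat_lit 6) (nat_lit 71843) (nat_lit 10) (node (nat_lit 7) (nat_lit
  68835) (nat_lit 11) nil nil) nil) nil) nil)) (node (nat_lit 5) (nat_lit 104355) (nat_lit 7)
  (node (nat_lit 6) (nat_lit 109014) (nat_lit 8) (node (nat_lit 7) (nat_lit 49625) (nat_lit 9) nil
  (node (nat_lit 5) (nat_lit 110142) (nat_lit 9) nil (node (nat_lit 4) (nat_lit 111299) (nat_lit
  9) nil nil))) nil) (node (nat_lit 7) (nat_lit 108852) (nat_lit 7) nil nil))) (node (nat_lit 0)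
  (nat_lit 104385) (nat_lit 6) nil nil)))) (node (nat_lit 4) (nat_lit 0) (nat_lit 5) (node
  (nat_lit 5) (nat_lit 97680) (nat_lit 6) (node (nat_lit 6) (nat_lit 106191) (nat_lit 7) (node
  (nat_lit 5) (nat_lit 105494) (nat_lit 8) (node (nat_lit 4) (nat_lit 104207) (nat_lit 9) (node
  (nat_lit 5) (nat_lit 84865) (nat_lit 10) (node (nat_lit 6) (nat_lit 67977) (nat_lit 11) (node
  (nat_lit 7) (nat_lit 49521) (nat_lit 12) nil nil) nil) (node (nat_lit 6) (nat_lit 103092)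
  (nat_lit 10) (node (nat_lit 4) (nat_lit 103147) (nat_lit 11) nil nil) nil)) nil) (node (nat_lit
  4) (nat_lit 109945) (nat_lit 8) (node (nat_lit 6) (nat_lit 112263) (nat_lit 9) (node (nat_lit 5)
  (nat_lit 109879) (nat_lit 10) (node (nat_lit 4) (nat_lit 107321) (nat_lit 11) nil nil) nil) nil)
  nil)) (node (nat_lit 4) (nat_lit 105424) (nat_lit 7) (node (nat_lit 6) (nat_lit 106047) (nat_lit
  8) (node (nat_lit 5) (nat_lit 107351) (nat_lit 9) (node (nat_lit 4) (nat_lit 106534) (nat_lit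
  10) nil nil) (node (nat_lit 4) (nat_lit 101624) (nat_lit 9) (node (nat_lit 5) (nat_lit 89528)
  (nat_lit 10) (node (nat_lit 6) (nat_lit 78097) (nat_lit 11) nil nil) nil) nil)) (node (nat_lit
  7) (nat_lit 111006) (nat_lit 8) nil nil)) (node (nat_lit 7) (nat_lit 109640) (nat_lit 7) nil
  nil))) (node (nat_lit 7) (nat_lit 0) (nat_lit 6) (node (nat_lit 5) (nat_lit 106610) (nat_lit 7)
  (node (nat_lit 6) (nat_lit 109762) (nat_lit 8) (node (nat_lit 5) (nat_lit 109990) (nat_lit 9)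
  (node (nat_lit 4) (nat_lit 105950) (nat_lit 10) nil nil) nil) (node (nat_lit 4) (nat_lit 109482)
  (nat_lit 8) (node (nat_lit 6) (nat_lit 108253) (nat_lit 9) (node (nat_lit 4) (nat_lit 103713)
  (nat_lit 10) nil nil) nil) nil)) (node (nat_lit 6) (nat_lit 109147) (nat_lit 7) (node (nat_lit
  5) (nat_lit 111278) (nat_lit 8) (node (nat_lit 4) (nat_lit 113690) (nat_lit 9) (node (nat_lit 6)
  (nat_lit 112575) (nat_lit 10) nil nil) (node (nat_lit 6) (nat_lit 107458) (nat_lit 9) (node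
  (nat_lit 4) (nat_lit 106601) (nat_lit 10) nil nil) nil)) (node (nat_lit 4) (nat_lit 112444)
  (nat_lit 8) nil nil)) (node (nat_lit 0) (nat_lit 109649) (nat_lit 7) nil nil))) (node (nat_lit
  6) (nat_lit 98840) (nat_lit 6) (node (nat_lit 5) (nat_lit 98611) (nat_lit 7) (node (nat_lit 4)
  (nat_lit 94381) (nat_lit 8) (node (nat_lit 5) (nat_lit 82741) (nat_lit 9) (node (nat_lit 6)
  (nat_lit 76086) (nat_lit 10) nil nil) (node (nat_lit 6) (nat_lit 92346) (nat_lit 9) (node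
  (nat_lit 4) (nat_lit 91489) (nat_lit 10) (node (nat_lit 5) (nat_lit 88086) (nat_lit 11) nil nil)
  nil) nil)) (node (nat_lit 6) (nat_lit 100639) (nat_lit 8) (node (nat_lit 4) (nat_lit 99749)
  (nat_lit 9) (node (nat_lit 5) (nat_lit 92265) (nat_lit 10) nil nil) nil) nil)) (node (nat_lit 4)
  (nat_lit 108000) (nat_lit 7) (node (nat_lit 5) (nat_lit 111296) (nat_lit 8) nil nil) (node
  (nat_lit 7) (nat_lit 108514) (nat_lit 7) nil nil))) (node (nat_lit 0) (nat_lit 105197) (nat_lit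
  6) nil nil)))) (node (nat_lit 0) (nat_lit 0) (nat_lit 5) (node (nat_lit 4) (nat_lit 101279)
  (nat_lit 6) (node (nat_lit 5) (nat_lit 108430) (nat_lit 7) (node (nat_lit 6) (nat_lit 110259)
  (nat_lit 8) nil (node (nat_lit 4) (nat_lit 106908) (nat_lit 8) nil nil)) (node (nat_lit 6)
  (nat_lit 105725) (nat_lit 7) (node (nat_lit 5) (nat_lit 99716) (nat_lit 8) (node (nat_lit 4)
  (nat_lit 88589) (nat_lit 9) nil nil) (node (nat_lit 4) (nat_lit 109021) (nat_lit 8) nil nil))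
  nil)) (node (nat_lit 5) (nat_lit 98941) (nat_lit 6) (node (nat_lit 4) (nat_lit 106346) (nat_lit
  7) (node (nat_lit 6) (nat_lit 103555) (nat_lit 8) (node (nat_lit 4) (nat_lit 92213) (nat_lit 9)
  nil nil) (node (nat_lit 5) (nat_lit 109642) (nat_lit 8) nil nil)) (node (nat_lit 6) (nat_lit
  104385) (nat_lit 7) (node (nat_lit 4) (nat_lit 109117) (nat_lit 8) nil (node (nat_lit 5)
  (nat_lit 96949) (nat_lit 8) (node (nat_lit 4) (nat_lit 91532) (nat_lit 9) nil nil) nil)) nil))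
  (node (nat_lit 6) (nat_lit 98944) (nat_lit 6) (node (nat_lit 5) (nat_lit 107729) (nat_lit 7)
  (node (nat_lit 4) (nat_lit 107781) (nat_lit 8) nil (node (nat_lit 6) (nat_lit 103291) (nat_lit
  8) (node (nat_lit 4) (nat_lit 103170) (nat_lit 9) nil nil) nil)) (node (nat_lit 4) (nat_lit
  105126) (nat_lit 7) (node (nat_lit 5) (nat_lit 108422) (nat_lit 8) nil (node (nat_lit 6)
  (nat_lit 103852) (nat_lit 8) nil nil)) nil)) (node (nat_lit 0) (nat_lit 105522) (nat_lit 6)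
  (node (nat_lit 7) (nat_lit 108819) (nat_lit 7) nil nil) (node (nat_lit 7) (nat_lit 105522)
  (nat_lit 6) (node (nat_lit 4) (nat_lit 105522) (nat_lit 7) nil (node (nat_lit 5) (nat_lit
  105522) (nat_lit 7) nil nil)) nil))))) (node (nat_lit 6) (nat_lit 0) (nat_lit 5) (node (nat_lit
  4) (nat_lit 100750) (nat_lit 6) (node (nat_lit 5) (nat_lit 107958) (nat_lit 7) (node (nat_lit 4)
  (nat_lit 106763) (nat_lit 8) (node (nat_lit 6) (nat_lit 105535) (nat_lit 9) (node (nat_lit 4)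
  (nat_lit 104657) (nat_lit 10) (node (nat_lit 5) (nat_lit 100932) (nat_lit 11) (node (nat_lit 6)
  (nat_lit 92885) (nat_lit 12) nil nil) nil) (node (nat_lit 5) (nat_lit 102869) (nat_lit 10) nil
  nil)) nil) (node (nat_lit 6) (nat_lit 112545) (nat_lit 8) (node (nat_lit 5) (nat_lit 110125)
  (nat_lit 9) (node (nat_lit 4) (nat_lit 106796) (nat_lit 10) nil nil) (node (nat_lit 7) (nat_lit
  65850) (nat_lit 9) nil nil)) nil)) (node (nat_lit 6) (nat_lit 102631) (nat_lit 7) (node (nat_lit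
  5) (nat_lit 100189) (nat_lit 8) (node (nat_lit 4) (nat_lit 95965) (nat_lit 9) (node (nat_lit 5)
  (nat_lit 84322) (nat_lit 10) (node (nat_lit 6) (nat_lit 73292) (nat_lit 11) nil nil) nil) (node
  (nat_lit 6) (nat_lit 100242) (nat_lit 9) nil nil)) nil) (node (nat_lit 7) (nat_lit 110424)
  (nat_lit 7) nil nil))) (node (nat_lit 5) (nat_lit 91319) (nat_lit 6) (node (nat_lit 4) (nat_lit
  104802) (nat_lit 7) (node (nat_lit 6) (nat_lit 106076) (nat_lit 8) (node (nat_lit 4) (nat_lit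
  102021) (nat_lit 9) (node (nat_lit 5) (nat_lit 98293) (nat_lit 10) (node (nat_lit 6) (nat_lit
  86465) (nat_lit 11) nil nil) nil) (node (nat_lit 5) (nat_lit 107810) (nat_lit 9) (node (nat_lit
  6) (nat_lit 107828) (nat_lit 10) nil nil) nil)) (node (nat_lit 5) (nat_lit 106043) (nat_lit 8)
  (node (nat_lit 6) (nat_lit 108297) (nat_lit 9) (node (nat_lit 7) (nat_lit 43514) (nat_lit 10)
  (node (nat_lit 6) (nat_lit 43514) (nat_lit 11) nil nil) nil) nil) nil)) (node (nat_lit 6)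
  (nat_lit 94811) (nat_lit 7) (node (nat_lit 4) (nat_lit 98765) (nat_lit 8) (node (nat_lit 5)
  (nat_lit 95993) (nat_lit 9) (node (nat_lit 6) (nat_lit 84703) (nat_lit 10) nil nil) (node
  (nat_lit 6) (nat_lit 97644) (nat_lit 9) nil nil)) nil) (node (nat_lit 7) (nat_lit 104473)
  (nat_lit 7) (node (nat_lit 6) (nat_lit 104473) (nat_lit 8) nil nil) nil))) (node (nat_lit 0)
  (nat_lit 94375) (nat_lit 6) nil nil))) nil)))) nil))

noncomputable def t369 : Tr :=
  (node (nat_lit 0) (nat_lit 0) (nat_lit 5) (node (nat_lit 5) (nat_lit 0) (nat_lit 6) (node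
  (nat_lit 8) (nat_lit 0) (nat_lit 7) (node (nat_lit 7) (nat_lit 85199) (nat_lit 8) (node (nat_lit
  5) (nat_lit 85199) (nat_lit 9) (node (nat_lit 7) (nat_lit 85199) (nat_lit 10) (node (nat_lit 4)
  (nat_lit 85199) (nat_lit 11) (node (nat_lit 5) (nat_lit 83946) (nat_lit 12) (node (nat_lit 4)
  (nat_lit 80356) (nat_lit 13) (node (nat_lit 7) (nat_lit 73175) (nat_lit 14) (node (nat_lit 8)
  (nat_lit 38536) (nat_lit 15) (node (nat_lit 5) (nat_lit 37978) (nat_lit 16) nil nil) nil) nil)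
  nil) nil) (node (nat_lit 8) (nat_lit 85199) (nat_lit 11) nil nil)) (node (nat_lit 4) (nat_lit
  84955) (nat_lit 10) (node (nat_lit 5) (nat_lit 85199) (nat_lit 11) (node (nat_lit 7) (nat_lit
  85199) (nat_lit 12) (node (nat_lit 4) (nat_lit 85199) (nat_lit 13) nil nil) nil) (node (nat_lit
  7) (nat_lit 84359) (nat_lit 11) (node (nat_lit 4) (nat_lit 83687) (nat_lit 12) (node (nat_lit 5)
  (nat_lit 81969) (nat_lit 13) (node (nat_lit 4) (nat_lit 79866) (nat_lit 14) nil nil) nil) nil)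
  nil)) (node (nat_lit 0) (nat_lit 85199) (nat_lit 10) nil nil))) (node (nat_lit 4) (nat_lit
  85199) (nat_lit 9) (node (nat_lit 5) (nat_lit 85199) (nat_lit 10) nil (node (nat_lit 7) (nat_lit
  85199) (nat_lit 10) nil nil)) (node (nat_lit 8) (nat_lit 85199) (nat_lit 9) (node (nat_lit 5)
  (nat_lit 85199) (nat_lit 10) nil (node (nat_lit 4) (nat_lit 85199) (nat_lit 10) nil nil)) (node
  (nat_lit 0) (nat_lit 85199) (nat_lit 9) nil nil)))) (node (nat_lit 4) (nat_lit 84661) (nat_lit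
  8) (node (nat_lit 5) (nat_lit 83899) (nat_lit 9) (node (nat_lit 7) (nat_lit 84715) (nat_lit 10)
  (node (nat_lit 4) (nat_lit 83530) (nat_lit 11) (node (nat_lit 5) (nat_lit 78870) (nat_lit 12)
  (node (nat_lit 4) (nat_lit 70203) (nat_lit 13) (node (nat_lit 7) (nat_lit 63021) (nat_lit 14)
  nil nil) nil) (node (nat_lit 7) (nat_lit 84031) (nat_lit 12) nil nil)) (node (nat_lit 5)
  (nat_lit 85199) (nat_lit 11) nil nil)) (node (nat_lit 4) (nat_lit 84900) (nat_lit 10) (node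
  (nat_lit 7) (nat_lit 84304) (nat_lit 11) (node (nat_lit 4) (nat_lit 83632) (nat_lit 12) nil nil)
  nil) nil)) (node (nat_lit 7) (nat_lit 84751) (nat_lit 9) (node (nat_lit 4) (nat_lit 85199)
  (nat_lit 10) nil (node (nat_lit 5) (nat_lit 82696) (nat_lit 10) nil nil)) (node (nat_lit 0)
  (nat_lit 85199) (nat_lit 9) nil nil))) (node (nat_lit 0) (nat_lit 85199) (nat_lit 8) (node
  (nat_lit 5) (nat_lit 85199) (nat_lit 9) nil (node (nat_lit 4) (nat_lit 85199) (nat_lit 9) nil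
  (node (nat_lit 7) (nat_lit 85199) (nat_lit 9) nil nil))) nil))) (node (nat_lit 7) (nat_lit 0)
  (nat_lit 7) (node (nat_lit 8) (nat_lit 85199) (nat_lit 8) (node (nat_lit 7) (nat_lit 85199)
  (nat_lit 9) (node (nat_lit 5) (nat_lit 85199) (nat_lit 10) (node (nat_lit 7) (nat_lit 85199)
  (nat_lit 11) (node (nat_lit 4) (nat_lit 85199) (nat_lit 12) (node (nat_lit 5) (nat_lit 85199)
  (nat_lit 13) nil nil) nil) nil) nil) (node (nat_lit 4) (nat_lit 85199) (nat_lit 9) (node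
  (nat_lit 5) (nat_lit 85199) (nat_lit 10) nil nil) nil)) (node (nat_lit 5) (nat_lit 83549)
  (nat_lit 8) (node (nat_lit 4) (nat_lit 84171) (nat_lit 9) (node (nat_lit 7) (nat_lit 83320)
  (nat_lit 10) (node (nat_lit 4) (nat_lit 82136) (nat_lit 11) (node (nat_lit 5) (nat_lit 79025)
  (nat_lit 12) (node (nat_lit 4) (nat_lit 71402) (nat_lit 13) nil nil) nil) nil) (node (nat_lit 5)
  (nat_lit 85199) (nat_lit 10) nil nil)) (node (nat_lit 8) (nat_lit 85199) (nat_lit 9) nil nil))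
  (node (nat_lit 4) (nat_lit 85199) (nat_lit 8) (node (nat_lit 5) (nat_lit 85199) (nat_lit 9) nil
  (node (nat_lit 7) (nat_lit 85199) (nat_lit 9) nil nil)) (node (nat_lit 0) (nat_lit 85199)
  (nat_lit 8) nil nil)))) (node (nat_lit 4) (nat_lit 0) (nat_lit 7) (node (nat_lit 7) (nat_lit
  84206) (nat_lit 8) (node (nat_lit 4) (nat_lit 73348) (nat_lit 9) (node (nat_lit 5) (nat_lit
  68746) (nat_lit 10) (node (nat_lit 4) (nat_lit 51696) (nat_lit 11) (node (nat_lit 7) (nat_lit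
  51465) (nat_lit 12) (node (nat_lit 8) (nat_lit 52588) (nat_lit 13) nil nil) nil) (node (nat_lit
  7) (nat_lit 69316) (nat_lit 11) nil nil)) nil) (node (nat_lit 5) (nat_lit 85199) (nat_lit 9)
  (node (nat_lit 7) (nat_lit 85199) (nat_lit 10) (node (nat_lit 4) (nat_lit 85134) (nat_lit 11)
  nil nil) (node (nat_lit 4) (nat_lit 85199) (nat_lit 10) nil nil)) nil)) (node (nat_lit 5)
  (nat_lit 85199) (nat_lit 8) (node (nat_lit 7) (nat_lit 85199) (nat_lit 9) (node (nat_lit 4)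
  (nat_lit 84903) (nat_lit 10) (node (nat_lit 7) (nat_lit 85199) (nat_lit 11) nil nil) nil) nil)
  (node (nat_lit 8) (nat_lit 85199) (nat_lit 8) (node (nat_lit 4) (nat_lit 85199) (nat_lit 9)
  (node (nat_lit 5) (nat_lit 84447) (nat_lit 10) nil nil) (node (nat_lit 7) (nat_lit 85199)
  (nat_lit 9) nil (node (nat_lit 5) (nat_lit 85199) (nat_lit 9) nil nil))) (node (nat_lit 0)
  (nat_lit 85199) (nat_lit 8) nil nil)))) (node (nat_lit 0) (nat_lit 84216) (nat_lit 7) (node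
  (nat_lit 5) (nat_lit 82707) (nat_lit 8) nil (node (nat_lit 7) (nat_lit 84534) (nat_lit 8) nil
  (node (nat_lit 4) (nat_lit 84534) (nat_lit 8) nil (node (nat_lit 8) (nat_lit 85199) (nat_lit 8)
  nil nil)))) nil)))) (node (nat_lit 4) (nat_lit 0) (nat_lit 6) (node (nat_lit 8) (nat_lit 0)
  (nat_lit 7) (node (nat_lit 7) (nat_lit 85199) (nat_lit 8) (node (nat_lit 4) (nat_lit 85199)
  (nat_lit 9) (node (nat_lit 5) (nat_lit 85199) (nat_lit 10) (node (nat_lit 7) (nat_lit 85199)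
  (nat_lit 11) nil (node (nat_lit 4) (nat_lit 85199) (nat_lit 11) (node (nat_lit 7) (nat_lit
  85199) (nat_lit 12) nil nil) nil)) (node (nat_lit 7) (nat_lit 85199) (nat_lit 10) (node (nat_lit
  5) (nat_lit 85199) (nat_lit 11) nil nil) nil)) (node (nat_lit 5) (nat_lit 84579) (nat_lit 9)
  (node (nat_lit 4) (nat_lit 83789) (nat_lit 10) (node (nat_lit 7) (nat_lit 83194) (nat_lit 11)
  (node (nat_lit 4) (nat_lit 82522) (nat_lit 12) nil nil) nil) (node (nat_lit 7) (nat_lit 81720)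
  (nat_lit 10) (node (nat_lit 4) (nat_lit 80535) (nat_lit 11) nil nil) nil)) (node (nat_lit 8)
  (nat_lit 85199) (nat_lit 9) nil (node (nat_lit 0) (nat_lit 85199) (nat_lit 9) nil nil)))) (node
  (nat_lit 5) (nat_lit 85199) (nat_lit 8) (node (nat_lit 4) (nat_lit 85199) (nat_lit 9) (node
  (nat_lit 7) (nat_lit 85055) (nat_lit 10) (node (nat_lit 4) (nat_lit 83870) (nat_lit 11) (node
  (nat_lit 5) (nat_lit 81357) (nat_lit 12) (node (nat_lit 4) (nat_lit 74626) (nat_lit 13) (node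
  (nat_lit 7) (nat_lit 70657) (nat_lit 14) (node (nat_lit 8) (nat_lit 55941) (nat_lit 15) nil nil)
  nil) nil) nil) (node (nat_lit 5) (nat_lit 85199) (nat_lit 11) nil nil)) (node (nat_lit 5)
  (nat_lit 85199) (nat_lit 10) (node (nat_lit 7) (nat_lit 85199) (nat_lit 11) (node (nat_lit 4)
  (nat_lit 85199) (nat_lit 12) nil nil) nil) nil)) (node (nat_lit 7) (nat_lit 85199) (nat_lit 9)
  (node (nat_lit 4) (nat_lit 85199) (nat_lit 10) nil (node (nat_lit 5) (nat_lit 85199) (nat_lit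
  10) nil nil)) (node (nat_lit 0) (nat_lit 85199) (nat_lit 9) nil (node (nat_lit 8) (nat_lit
  85199) (nat_lit 9) nil nil)))) (node (nat_lit 0) (nat_lit 85199) (nat_lit 8) (node (nat_lit 4)
  (nat_lit 85199) (nat_lit 9) nil (node (nat_lit 5) (nat_lit 85199) (nat_lit 9) nil (node (nat_lit
  7) (nat_lit 85199) (nat_lit 9) nil nil))) nil))) (node (nat_lit 5) (nat_lit 0) (nat_lit 7) (node
  (nat_lit 7) (nat_lit 85199) (nat_lit 8) (node (nat_lit 4) (nat_lit 85199) (nat_lit 9) (node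
  (nat_lit 5) (nat_lit 68497) (nat_lit 10) (node (nat_lit 4) (nat_lit 49848) (nat_lit 11) (node
  (nat_lit 7) (nat_lit 36165) (nat_lit 12) (node (nat_lit 8) (nat_lit 12348) (nat_lit 13) nil nil)
  nil) nil) (node (nat_lit 7) (nat_lit 85199) (nat_lit 10) (node (nat_lit 5) (nat_lit 83594)
  (nat_lit 11) nil nil) nil)) (node (nat_lit 5) (nat_lit 84993) (nat_lit 9) nil nil)) (node
  (nat_lit 8) (nat_lit 85199) (nat_lit 8) (node (nat_lit 5) (nat_lit 85199) (nat_lit 9) (node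
  (nat_lit 4) (nat_lit 84532) (nat_lit 10) nil nil) (node (nat_lit 7) (nat_lit 85199) (nat_lit 9)
  nil nil)) (node (nat_lit 4) (nat_lit 85163) (nat_lit 8) (node (nat_lit 7) (nat_lit 84103)
  (nat_lit 9) (node (nat_lit 5) (nat_lit 85199) (nat_lit 10) (node (nat_lit 7) (nat_lit 85199)
  (nat_lit 11) (node (nat_lit 4) (nat_lit 85199) (nat_lit 12) nil nil) nil) (node (nat_lit 4)
  (nat_lit 80380) (nat_lit 10) nil nil)) nil) (node (nat_lit 0) (nat_lit 85199) (nat_lit 8) nil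
  nil)))) (node (nat_lit 7) (nat_lit 0) (nat_lit 7) (node (nat_lit 4) (nat_lit 85199) (nat_lit 8)
  (node (nat_lit 5) (nat_lit 85199) (nat_lit 9) (node (nat_lit 7) (nat_lit 85199) (nat_lit 10)
  (node (nat_lit 5) (nat_lit 85199) (nat_lit 11) nil nil) nil) (node (nat_lit 8) (nat_lit 85199)
  (nat_lit 9) nil nil)) (node (nat_lit 5) (nat_lit 83549) (nat_lit 8) (node (nat_lit 4) (nat_lit
  82848) (nat_lit 9) (node (nat_lit 5) (nat_lit 80793) (nat_lit 10) nil (node (nat_lit 7) (nat_lit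
  83663) (nat_lit 10) nil nil)) (node (nat_lit 7) (nat_lit 83468) (nat_lit 9) (node (nat_lit 4)
  (nat_lit 81107) (nat_lit 10) nil nil) nil)) (node (nat_lit 0) (nat_lit 85199) (nat_lit 8) nil
  nil))) (node (nat_lit 0) (nat_lit 84301) (nat_lit 7) (node (nat_lit 4) (nat_lit 85199) (nat_lit
  8) nil (node (nat_lit 7) (nat_lit 85199) (nat_lit 8) nil (node (nat_lit 5) (nat_lit 82793)
  (nat_lit 8) nil (node (nat_lit 8) (nat_lit 85199) (nat_lit 8) nil nil)))) nil)))) (node (nat_lit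
  0) (nat_lit 0) (nat_lit 6) (node (nat_lit 8) (nat_lit 0) (nat_lit 7) (node (nat_lit 7) (nat_lit
  84998) (nat_lit 8) (node (nat_lit 9) (nat_lit 85199) (nat_lit 9) (node (nat_lit 8) (nat_lit
  85199) (nat_lit 10) nil (node (nat_lit 7) (nat_lit 85199) (nat_lit 10) nil nil)) (node (nat_lit
  5) (nat_lit 84237) (nat_lit 9) nil (node (nat_lit 4) (nat_lit 85199) (nat_lit 9) nil (node
  (nat_lit 8) (nat_lit 85199) (nat_lit 9) nil nil)))) (node (nat_lit 4) (nat_lit 84998) (nat_lit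
  8) (node (nat_lit 7) (nat_lit 85090) (nat_lit 9) nil (node (nat_lit 5) (nat_lit 84237) (nat_lit
  9) nil (node (nat_lit 9) (nat_lit 85199) (nat_lit 9) nil (node (nat_lit 8) (nat_lit 85199)
  (nat_lit 9) nil nil)))) (node (nat_lit 5) (nat_lit 82687) (nat_lit 8) (node (nat_lit 9) (nat_lit
  84631) (nat_lit 9) nil (node (nat_lit 7) (nat_lit 84382) (nat_lit 9) nil (node (nat_lit 4)
  (nat_lit 83308) (nat_lit 9) nil (node (nat_lit 8) (nat_lit 84631) (nat_lit 9) nil (node (nat_lit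
  0) (nat_lit 84631) (nat_lit 9) nil nil))))) (node (nat_lit 0) (nat_lit 85199) (nat_lit 8) (node
  (nat_lit 9) (nat_lit 85199) (nat_lit 9) nil (node (nat_lit 7) (nat_lit 85199) (nat_lit 9) nil
  (node (nat_lit 8) (nat_lit 85199) (nat_lit 9) nil nil))) nil)))) (node (nat_lit 7) (nat_lit 0)
  (nat_lit 7) (node (nat_lit 9) (nat_lit 85199) (nat_lit 8) (node (nat_lit 8) (nat_lit 85199)
  (nat_lit 9) nil (node (nat_lit 0) (nat_lit 85199) (nat_lit 9) nil nil)) (node (nat_lit 4)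
  (nat_lit 85199) (nat_lit 8) (node (nat_lit 5) (nat_lit 85199) (nat_lit 9) nil (node (nat_lit 7)
  (nat_lit 85199) (nat_lit 9) nil nil)) (node (nat_lit 5) (nat_lit 84020) (nat_lit 8) (node
  (nat_lit 7) (nat_lit 82856) (nat_lit 9) nil (node (nat_lit 4) (nat_lit 83319) (nat_lit 9) nil
  nil)) (node (nat_lit 8) (nat_lit 85199) (nat_lit 8) (node (nat_lit 7) (nat_lit 85199) (nat_lit
  9) nil nil) (node (nat_lit 0) (nat_lit 85199) (nat_lit 8) nil nil))))) (node (nat_lit 5)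
  (nat_lit 0) (nat_lit 7) (node (nat_lit 4) (nat_lit 81975) (nat_lit 8) (node (nat_lit 7) (nat_lit
  80614) (nat_lit 9) (node (nat_lit 4) (nat_lit 74305) (nat_lit 10) nil nil) (node (nat_lit 5)
  (nat_lit 82000) (nat_lit 9) nil nil)) (node (nat_lit 7) (nat_lit 84135) (nat_lit 8) (node
  (nat_lit 5) (nat_lit 85199) (nat_lit 9) nil nil) (node (nat_lit 9) (nat_lit 85199) (nat_lit 8)
  nil (node (nat_lit 8) (nat_lit 85199) (nat_lit 8) nil (node (nat_lit 0) (nat_lit 84236) (nat_lit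
  8) nil nil))))) (node (nat_lit 4) (nat_lit 0) (nat_lit 7) (node (nat_lit 5) (nat_lit 84020)
  (nat_lit 8) (node (nat_lit 7) (nat_lit 83019) (nat_lit 9) nil (node (nat_lit 4) (nat_lit 81538)
  (nat_lit 9) nil nil)) (node (nat_lit 7) (nat_lit 84593) (nat_lit 8) (node (nat_lit 4) (nat_lit
  85199) (nat_lit 9) nil nil) (node (nat_lit 9) (nat_lit 85199) (nat_lit 8) nil (node (nat_lit 8)
  (nat_lit 85199) (nat_lit 8) nil (node (nat_lit 0) (nat_lit 84694) (nat_lit 8) nil nil))))) (node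
  (nat_lit 0) (nat_lit 84384) (nat_lit 7) (node (nat_lit 8) (nat_lit 85199) (nat_lit 8) nil (node
  (nat_lit 9) (nat_lit 85199) (nat_lit 8) nil (node (nat_lit 4) (nat_lit 84384) (nat_lit 8) nil
  (node (nat_lit 5) (nat_lit 84384) (nat_lit 8) nil nil)))) nil))))) (node (nat_lit 7) (nat_lit 0)
  (nat_lit 6) (node (nat_lit 5) (nat_lit 0) (nat_lit 7) (node (nat_lit 4) (nat_lit 85199) (nat_lit
  8) (node (nat_lit 5) (nat_lit 85199) (nat_lit 9) (node (nat_lit 7) (nat_lit 85199) (nat_lit 10)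
  (node (nat_lit 4) (nat_lit 84843) (nat_lit 11) nil nil) nil) (node (nat_lit 7) (nat_lit 85199)
  (nat_lit 9) (node (nat_lit 4) (nat_lit 82471) (nat_lit 10) (node (nat_lit 5) (nat_lit 74531)
  (nat_lit 11) (node (nat_lit 4) (nat_lit 62219) (nat_lit 12) nil nil) nil) (node (nat_lit 5)
  (nat_lit 85199) (nat_lit 10) nil nil)) nil)) (node (nat_lit 7) (nat_lit 85199) (nat_lit 8) (node
  (nat_lit 4) (nat_lit 85199) (nat_lit 9) (node (nat_lit 5) (nat_lit 76743) (nat_lit 10) (node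
  (nat_lit 4) (nat_lit 55264) (nat_lit 11) (node (nat_lit 7) (nat_lit 12792) (nat_lit 12) (node
  (nat_lit 8) (nat_lit 13870) (nat_lit 13) nil nil) nil) nil) nil) nil) (node (nat_lit 8) (nat_lit
  85199) (nat_lit 8) (node (nat_lit 5) (nat_lit 85199) (nat_lit 9) nil nil) (node (nat_lit 0)
  (nat_lit 85199) (nat_lit 8) nil nil)))) (node (nat_lit 4) (nat_lit 83462) (nat_lit 7) (node
  (nat_lit 5) (nat_lit 83674) (nat_lit 8) (node (nat_lit 7) (nat_lit 85199) (nat_lit 9) nil (node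
  (nat_lit 4) (nat_lit 84296) (nat_lit 9) (node (nat_lit 7) (nat_lit 84591) (nat_lit 10) nil nil)
  nil)) (node (nat_lit 7) (nat_lit 85199) (nat_lit 8) (node (nat_lit 8) (nat_lit 85199) (nat_lit
  9) nil (node (nat_lit 5) (nat_lit 84919) (nat_lit 9) nil nil)) (node (nat_lit 8) (nat_lit 85199)
  (nat_lit 8) (node (nat_lit 4) (nat_lit 85199) (nat_lit 9) nil nil) nil))) (node (nat_lit 0)
  (nat_lit 0) (nat_lit 7) (node (nat_lit 7) (nat_lit 85199) (nat_lit 8) (node (nat_lit 4) (nat_lit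
  85199) (nat_lit 9) nil (node (nat_lit 5) (nat_lit 83198) (nat_lit 9) nil (node (nat_lit 8)
  (nat_lit 85199) (nat_lit 9) nil nil))) (node (nat_lit 5) (nat_lit 83674) (nat_lit 8) nil (node
  (nat_lit 4) (nat_lit 85199) (nat_lit 8) nil (node (nat_lit 0) (nat_lit 85199) (nat_lit 8) nil
  (node (nat_lit 8) (nat_lit 85199) (nat_lit 8) nil nil))))) nil))) nil)))) (node (nat_lit 5)
  (nat_lit 0) (nat_lit 5) (node (nat_lit 0) (nat_lit 0) (nat_lit 6) (node (nat_lit 5) (nat_lit 0)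
  (nat_lit 7) (node (nat_lit 4) (nat_lit 83248) (nat_lit 8) (node (nat_lit 7) (nat_lit 83723)
  (nat_lit 9) (node (nat_lit 4) (nat_lit 82752) (nat_lit 10) (node (nat_lit 5) (nat_lit 70264)
  (nat_lit 11) (node (nat_lit 4) (nat_lit 63939) (nat_lit 12) (node (nat_lit 7) (nat_lit 53807)
  (nat_lit 13) (node (nat_lit 5) (nat_lit 51171) (nat_lit 14) nil nil) nil) nil) nil) (node
  (nat_lit 5) (nat_lit 85199) (nat_lit 10) nil (node (nat_lit 0) (nat_lit 85199) (nat_lit 10) nil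
  nil))) (node (nat_lit 5) (nat_lit 85199) (nat_lit 9) (node (nat_lit 7) (nat_lit 85199) (nat_lit
  10) nil (node (nat_lit 9) (nat_lit 85199) (nat_lit 10) nil nil)) (node (nat_lit 9) (nat_lit
  85199) (nat_lit 9) (node (nat_lit 4) (nat_lit 85199) (nat_lit 10) nil (node (nat_lit 5) (nat_lit
  85199) (nat_lit 10) nil (node (nat_lit 7) (nat_lit 85199) (nat_lit 10) nil nil))) (node (nat_lit
  0) (nat_lit 85199) (nat_lit 9) nil nil)))) (node (nat_lit 7) (nat_lit 82634) (nat_lit 8) (node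
  (nat_lit 9) (nat_lit 85199) (nat_lit 9) (node (nat_lit 5) (nat_lit 85199) (nat_lit 10) (node
  (nat_lit 4) (nat_lit 85199) (nat_lit 11) (node (nat_lit 7) (nat_lit 85199) (nat_lit 12) (node
  (nat_lit 4) (nat_lit 85199) (nat_lit 13) (node (nat_lit 5) (nat_lit 84753) (nat_lit 14) nil nil)
  nil) nil) nil) (node (nat_lit 7) (nat_lit 85199) (nat_lit 10) nil nil)) (node (nat_lit 4)
  (nat_lit 85199) (nat_lit 9) (node (nat_lit 5) (nat_lit 85199) (nat_lit 10) nil (node (nat_lit 7)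
  (nat_lit 85199) (nat_lit 10) nil nil)) (node (nat_lit 5) (nat_lit 85199) (nat_lit 9) (node
  (nat_lit 9) (nat_lit 85199) (nat_lit 10) nil nil) (node (nat_lit 0) (nat_lit 85199) (nat_lit 9)
  nil nil)))) (node (nat_lit 0) (nat_lit 85199) (nat_lit 8) (node (nat_lit 5) (nat_lit 83669)
  (nat_lit 9) nil (node (nat_lit 9) (nat_lit 85199) (nat_lit 9) nil (node (nat_lit 7) (nat_lit
  85199) (nat_lit 9) nil (node (nat_lit 4) (nat_lit 85199) (nat_lit 9) nil (node (nat_lit 0)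
  (nat_lit 85199) (nat_lit 9) nil nil))))) nil))) (node (nat_lit 7) (nat_lit 0) (nat_lit 7) (node
  (nat_lit 4) (nat_lit 84290) (nat_lit 8) (node (nat_lit 5) (nat_lit 85199) (nat_lit 9) nil (node
  (nat_lit 7) (nat_lit 85199) (nat_lit 9) nil nil)) (node (nat_lit 5) (nat_lit 81609) (nat_lit 8)
  (node (nat_lit 7) (nat_lit 84095) (nat_lit 9) (node (nat_lit 4) (nat_lit 78999) (nat_lit 10)
  (node (nat_lit 5) (nat_lit 74206) (nat_lit 11) (node (nat_lit 4) (nat_lit 66773) (nat_lit 12)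
  nil nil) nil) nil) (node (nat_lit 4) (nat_lit 81835) (nat_lit 9) nil nil)) (node (nat_lit 9)
  (nat_lit 85199) (nat_lit 8) (node (nat_lit 5) (nat_lit 85199) (nat_lit 9) (node (nat_lit 9)
  (nat_lit 85199) (nat_lit 10) (node (nat_lit 7) (nat_lit 85199) (nat_lit 11) nil nil) nil) nil)
  (node (nat_lit 0) (nat_lit 85199) (nat_lit 8) nil nil)))) (node (nat_lit 4) (nat_lit 0) (nat_lit
  7) (node (nat_lit 5) (nat_lit 81609) (nat_lit 8) (node (nat_lit 7) (nat_lit 84095) (nat_lit 9)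
  nil (node (nat_lit 4) (nat_lit 83762) (nat_lit 9) (node (nat_lit 9) (nat_lit 85199) (nat_lit 10)
  nil nil) nil)) (node (nat_lit 9) (nat_lit 84519) (nat_lit 8) (node (nat_lit 5) (nat_lit 84519)
  (nat_lit 9) nil nil) (node (nat_lit 7) (nat_lit 81890) (nat_lit 8) (node (nat_lit 5) (nat_lit
  80617) (nat_lit 9) nil nil) (node (nat_lit 0) (nat_lit 83427) (nat_lit 8) nil nil)))) (node
  (nat_lit 0) (nat_lit 0) (nat_lit 7) (node (nat_lit 5) (nat_lit 79803) (nat_lit 8) (node (nat_lit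
  9) (nat_lit 83821) (nat_lit 9) nil (node (nat_lit 10) (nat_lit 83821) (nat_lit 9) nil (node
  (nat_lit 7) (nat_lit 82432) (nat_lit 9) nil nil))) (node (nat_lit 9) (nat_lit 85034) (nat_lit 8)
  (node (nat_lit 5) (nat_lit 85034) (nat_lit 9) nil nil) (node (nat_lit 7) (nat_lit 82405)
  (nat_lit 8) nil (node (nat_lit 0) (nat_lit 83941) (nat_lit 8) nil (node (nat_lit 4) (nat_lit
  81313) (nat_lit 8) nil nil))))) nil)))) (node (nat_lit 7) (nat_lit 0) (nat_lit 6) (node (nat_lit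
  0) (nat_lit 0) (nat_lit 7) (node (nat_lit 5) (nat_lit 0) (nat_lit 8) (node (nat_lit 7) (nat_lit
  85199) (nat_lit 9) (node (nat_lit 5) (nat_lit 85199) (nat_lit 10) (node (nat_lit 4) (nat_lit
  84786) (nat_lit 11) nil (node (nat_lit 10) (nat_lit 85199) (nat_lit 11) nil nil)) (node (nat_lit
  4) (nat_lit 85199) (nat_lit 10) nil nil)) (node (nat_lit 10) (nat_lit 85199) (nat_lit 9) nil
  (node (nat_lit 4) (nat_lit 81092) (nat_lit 9) nil (node (nat_lit 0) (nat_lit 85199) (nat_lit 9)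
  nil nil)))) (node (nat_lit 7) (nat_lit 82535) (nat_lit 8) (node (nat_lit 5) (nat_lit 85004)
  (nat_lit 9) (node (nat_lit 10) (nat_lit 85199) (nat_lit 10) (node (nat_lit 5) (nat_lit 85199)
  (nat_lit 11) nil nil) nil) (node (nat_lit 4) (nat_lit 85163) (nat_lit 9) nil nil)) (node
  (nat_lit 4) (nat_lit 81692) (nat_lit 8) (node (nat_lit 7) (nat_lit 83219) (nat_lit 9) (node
  (nat_lit 4) (nat_lit 85199) (nat_lit 10) nil (node (nat_lit 5) (nat_lit 81803) (nat_lit 10) nil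
  nil)) (node (nat_lit 5) (nat_lit 80419) (nat_lit 9) nil nil)) (node (nat_lit 0) (nat_lit 83086)
  (nat_lit 8) nil nil)))) (node (nat_lit 4) (nat_lit 0) (nat_lit 7) (node (nat_lit 0) (nat_lit
  73478) (nat_lit 8) (node (nat_lit 4) (nat_lit 73478) (nat_lit 9) nil nil) (node (nat_lit 7)
  (nat_lit 0) (nat_lit 8) (node (nat_lit 5) (nat_lit 0) (nat_lit 9) (node (nat_lit 0) (nat_lit
  73327) (nat_lit 10) nil (node (nat_lit 4) (nat_lit 68642) (nat_lit 10) nil nil)) (node (nat_lit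
  0) (nat_lit 74664) (nat_lit 9) nil nil)) (node (nat_lit 5) (nat_lit 0) (nat_lit 8) (node
  (nat_lit 0) (nat_lit 46385) (nat_lit 9) nil nil) nil))) nil)) (node (nat_lit 4) (nat_lit 0)
  (nat_lit 6) (node (nat_lit 0) (nat_lit 0) (nat_lit 7) (node (nat_lit 5) (nat_lit 81839) (nat_lit
  8) (node (nat_lit 4) (nat_lit 85199) (nat_lit 9) (node (nat_lit 7) (nat_lit 85199) (nat_lit 10)
  (node (nat_lit 4) (nat_lit 83729) (nat_lit 11) nil (node (nat_lit 5) (nat_lit 85199) (nat_lit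
  11) nil (node (nat_lit 10) (nat_lit 85199) (nat_lit 11) nil nil))) (node (nat_lit 5) (nat_lit
  85198) (nat_lit 10) (node (nat_lit 7) (nat_lit 85199) (nat_lit 11) nil (node (nat_lit 10)
  (nat_lit 85199) (nat_lit 11) nil nil)) (node (nat_lit 0) (nat_lit 85199) (nat_lit 10) nil nil)))
  (node (nat_lit 7) (nat_lit 84467) (nat_lit 9) nil nil)) (node (nat_lit 4) (nat_lit 81811)
  (nat_lit 8) (node (nat_lit 5) (nat_lit 83974) (nat_lit 9) (node (nat_lit 10) (nat_lit 85199)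
  (nat_lit 10) nil nil) (node (nat_lit 7) (nat_lit 84439) (nat_lit 9) nil nil)) (node (nat_lit 7)
  (nat_lit 82940) (nat_lit 8) (node (nat_lit 4) (nat_lit 85199) (nat_lit 9) (node (nat_lit 7)
  (nat_lit 85199) (nat_lit 10) nil (node (nat_lit 5) (nat_lit 85199) (nat_lit 10) nil nil)) nil)
  (node (nat_lit 0) (nat_lit 85061) (nat_lit 8) nil nil)))) (node (nat_lit 5) (nat_lit 0) (nat_lit
  7) (node (nat_lit 0) (nat_lit 80451) (nat_lit 8) (node (nat_lit 7) (nat_lit 82450) (nat_lit 9)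
  (node (nat_lit 4) (nat_lit 85199) (nat_lit 10) nil nil) (node (nat_lit 5) (nat_lit 80739)
  (nat_lit 9) (node (nat_lit 4) (nat_lit 79323) (nat_lit 10) nil nil) (node (nat_lit 4) (nat_lit
  80328) (nat_lit 9) nil nil))) nil) nil)) nil))) (node (nat_lit 4) (nat_lit 0) (nat_lit 5) (node
  (nat_lit 0) (nat_lit 0) (nat_lit 6) (node (nat_lit 4) (nat_lit 0) (nat_lit 7) (node (nat_lit 5)
  (nat_lit 46051) (nat_lit 8) (node (nat_lit 7) (nat_lit 50375) (nat_lit 9) (node (nat_lit 4)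
  (nat_lit 49608) (nat_lit 10) (node (nat_lit 5) (nat_lit 39368) (nat_lit 11) (node (nat_lit 4)
  (nat_lit 27303) (nat_lit 12) (node (nat_lit 7) (nat_lit 21897) (nat_lit 13) nil nil) nil) nil)
  (node (nat_lit 5) (nat_lit 52284) (nat_lit 10) nil nil)) (node (nat_lit 4) (nat_lit 49947)
  (nat_lit 9) (node (nat_lit 7) (nat_lit 50065) (nat_lit 10) nil (node (nat_lit 9) (nat_lit 52429)
  (nat_lit 10) nil nil)) (node (nat_lit 9) (nat_lit 51425) (nat_lit 9) (node (nat_lit 5) (nat_lit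
  51425) (nat_lit 10) nil (node (nat_lit 4) (nat_lit 51425) (nat_lit 10) nil nil)) (node (nat_lit
  0) (nat_lit 50659) (nat_lit 9) nil nil)))) (node (nat_lit 7) (nat_lit 47027) (nat_lit 8) (node
  (nat_lit 5) (nat_lit 50924) (nat_lit 9) (node (nat_lit 4) (nat_lit 51901) (nat_lit 10) nil (node
  (nat_lit 7) (nat_lit 53445) (nat_lit 10) nil (node (nat_lit 0) (nat_lit 52885) (nat_lit 10) nil
  nil))) (node (nat_lit 9) (nat_lit 52313) (nat_lit 9) (node (nat_lit 4) (nat_lit 53445) (nat_lit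
  10) (node (nat_lit 5) (nat_lit 52231) (nat_lit 11) (node (nat_lit 7) (nat_lit 52774) (nat_lit
  12) nil nil) (node (nat_lit 9) (nat_lit 54994) (nat_lit 11) nil nil)) (node (nat_lit 7) (nat_lit
  51421) (nat_lit 10) (node (nat_lit 4) (nat_lit 51994) (nat_lit 11) nil nil) nil)) (node (nat_lit
  4) (nat_lit 50246) (nat_lit 9) nil (node (nat_lit 0) (nat_lit 51635) (nat_lit 9) nil nil))))
  (node (nat_lit 0) (nat_lit 48798) (nat_lit 8) (node (nat_lit 4) (nat_lit 49508) (nat_lit 9)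
  (node (nat_lit 9) (nat_lit 51469) (nat_lit 10) nil nil) (node (nat_lit 9) (nat_lit 48991)
  (nat_lit 9) (node (nat_lit 4) (nat_lit 47719) (nat_lit 10) nil nil) (node (nat_lit 7) (nat_lit
  49508) (nat_lit 9) (node (nat_lit 4) (nat_lit 50897) (nat_lit 10) nil nil) (node (nat_lit 0)
  (nat_lit 50778) (nat_lit 9) nil (node (nat_lit 5) (nat_lit 48798) (nat_lit 9) nil nil)))))
  nil))) (node (nat_lit 7) (nat_lit 0) (nat_lit 7) (node (nat_lit 5) (nat_lit 45633) (nat_lit 8)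
  (node (nat_lit 4) (nat_lit 49078) (nat_lit 9) (node (nat_lit 7) (nat_lit 49196) (nat_lit 10) nil
  nil) (node (nat_lit 7) (nat_lit 48230) (nat_lit 9) (node (nat_lit 4) (nat_lit 48500) (nat_lit
  10) nil nil) nil)) (node (nat_lit 9) (nat_lit 48856) (nat_lit 8) (node (nat_lit 4) (nat_lit
  50122) (nat_lit 9) (node (nat_lit 9) (nat_lit 52604) (nat_lit 10) (node (nat_lit 7) (nat_lit
  51641) (nat_lit 11) (node (nat_lit 4) (nat_lit 52145) (nat_lit 12) nil nil) nil) (node (nat_lit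
  7) (nat_lit 51512) (nat_lit 10) nil nil)) nil) (node (nat_lit 4) (nat_lit 46227) (nat_lit 8)
  (node (nat_lit 7) (nat_lit 49508) (nat_lit 9) (node (nat_lit 9) (nat_lit 51469) (nat_lit 10) nil
  nil) (node (nat_lit 5) (nat_lit 49446) (nat_lit 9) nil nil)) (node (nat_lit 0) (nat_lit 47868)
  (nat_lit 8) nil nil)))) (node (nat_lit 5) (nat_lit 0) (nat_lit 7) (node (nat_lit 4) (nat_lit
  45624) (nat_lit 8) (node (nat_lit 7) (nat_lit 49520) (nat_lit 9) nil (node (nat_lit 5) (nat_lit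
  48856) (nat_lit 9) (node (nat_lit 9) (nat_lit 50818) (nat_lit 10) nil nil) nil)) (node (nat_lit
  7) (nat_lit 47027) (nat_lit 8) (node (nat_lit 4) (nat_lit 49656) (nat_lit 9) nil nil) (node
  (nat_lit 9) (nat_lit 47919) (nat_lit 8) (node (nat_lit 4) (nat_lit 46315) (nat_lit 9) (node
  (nat_lit 9) (nat_lit 48277) (nat_lit 10) nil nil) nil) (node (nat_lit 0) (nat_lit 48031)
  (nat_lit 8) nil nil)))) (node (nat_lit 0) (nat_lit 0) (nat_lit 7) (node (nat_lit 4) (nat_lit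
  47081) (nat_lit 8) (node (nat_lit 9) (nat_lit 51689) (nat_lit 9) nil (node (nat_lit 10) (nat_lit
  51099) (nat_lit 9) nil nil)) (node (nat_lit 9) (nat_lit 48943) (nat_lit 8) (node (nat_lit 4)
  (nat_lit 48943) (nat_lit 9) nil nil) (node (nat_lit 7) (nat_lit 44907) (nat_lit 8) nil (node
  (nat_lit 5) (nat_lit 44907) (nat_lit 8) nil (node (nat_lit 0) (nat_lit 47536) (nat_lit 8) nil
  nil))))) nil)))) (node (nat_lit 5) (nat_lit 0) (nat_lit 6) (node (nat_lit 0) (nat_lit 0)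
  (nat_lit 7) (node (nat_lit 4) (nat_lit 42946) (nat_lit 8) (node (nat_lit 5) (nat_lit 47759)
  (nat_lit 9) (node (nat_lit 7) (nat_lit 51810) (nat_lit 10) (node (nat_lit 4) (nat_lit 52848)
  (nat_lit 11) nil (node (nat_lit 5) (nat_lit 52383) (nat_lit 11) nil nil)) (node (nat_lit 4)
  (nat_lit 50756) (nat_lit 10) (node (nat_lit 10) (nat_lit 51507) (nat_lit 11) (node (nat_lit 4)
  (nat_lit 51507) (nat_lit 12) nil nil) (node (nat_lit 7) (nat_lit 50366) (nat_lit 11) nil nil))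
  (node (nat_lit 0) (nat_lit 50241) (nat_lit 10) nil nil))) (node (nat_lit 7) (nat_lit 43971)
  (nat_lit 9) nil nil)) (node (nat_lit 7) (nat_lit 43023) (nat_lit 8) (node (nat_lit 5) (nat_lit
  47614) (nat_lit 9) (node (nat_lit 7) (nat_lit 49047) (nat_lit 10) nil (node (nat_lit 4) (nat_lit
  46198) (nat_lit 10) nil nil)) nil) (node (nat_lit 5) (nat_lit 43233) (nat_lit 8) (node (nat_lit
  4) (nat_lit 47846) (nat_lit 9) (node (nat_lit 10) (nat_lit 50327) (nat_lit 10) nil nil) nil)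
  (node (nat_lit 0) (nat_lit 44074) (nat_lit 8) nil nil)))) (node (nat_lit 7) (nat_lit 0) (nat_lit
  7) (node (nat_lit 4) (nat_lit 0) (nat_lit 8) (node (nat_lit 7) (nat_lit 0) (nat_lit 9) (node
  (nat_lit 5) (nat_lit 46658) (nat_lit 10) (node (nat_lit 4) (nat_lit 45495) (nat_lit 11) nil nil)
  (node (nat_lit 0) (nat_lit 46021) (nat_lit 10) nil nil)) (node (nat_lit 0) (nat_lit 42911)
  (nat_lit 9) nil nil)) (node (nat_lit 5) (nat_lit 0) (nat_lit 8) (node (nat_lit 0) (nat_lit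
  43071) (nat_lit 9) nil nil) (node (nat_lit 0) (nat_lit 41251) (nat_lit 8) nil nil))) nil)) nil))
  nil)))

noncomputable def t370 : Tr :=
  (node (nat_lit 3) (nat_lit 0) (nat_lit 3) (node (nat_lit 4) (nat_lit 0) (nat_lit 4) (node
  (nat_lit 0) (nat_lit 0) (nat_lit 5) t366 (node (nat_lit 5) (nat_lit 0) (nat_lit 5) (node
  (nat_lit 0) (nat_lit 0) (nat_lit 6) (node (nat_lit 5) (nat_lit 0) (nat_lit 7) (node (nat_lit 6)
  (nat_lit 65730) (nat_lit 8) (node (nat_lit 4) (nat_lit 66569) (nat_lit 9) (node (nat_lit 6)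
  (nat_lit 66427) (nat_lit 10) nil (node (nat_lit 5) (nat_lit 67438) (nat_lit 10) nil nil)) (node
  (nat_lit 5) (nat_lit 63451) (nat_lit 9) (node (nat_lit 4) (nat_lit 62416) (nat_lit 10) (node
  (nat_lit 5) (nat_lit 47175) (nat_lit 11) (node (nat_lit 6) (nat_lit 41585) (nat_lit 12) (node
  (nat_lit 4) (nat_lit 28953) (nat_lit 13) (node (nat_lit 5) (nat_lit 11932) (nat_lit 14) nil nil)
  nil) nil) nil) (node (nat_lit 9) (nat_lit 65548) (nat_lit 10) (node (nat_lit 6) (nat_lit 65548)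
  (nat_lit 11) nil nil) nil)) (node (nat_lit 9) (nat_lit 67438) (nat_lit 9) (node (nat_lit 6)
  (nat_lit 67438) (nat_lit 10) nil nil) (node (nat_lit 0) (nat_lit 67438) (nat_lit 9) nil nil))))
  (node (nat_lit 4) (nat_lit 64667) (nat_lit 8) (node (nat_lit 9) (nat_lit 67438) (nat_lit 9)
  (node (nat_lit 5) (nat_lit 66873) (nat_lit 10) (node (nat_lit 6) (nat_lit 67438) (nat_lit 11)
  (node (nat_lit 4) (nat_lit 67438) (nat_lit 12) nil (node (nat_lit 5) (nat_lit 67438) (nat_lit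
  12) (node (nat_lit 4) (nat_lit 67438) (nat_lit 13) nil nil) nil)) (node (nat_lit 9) (nat_lit
  67438) (nat_lit 11) nil nil)) (node (nat_lit 4) (nat_lit 67438) (nat_lit 10) nil nil)) (node
  (nat_lit 6) (nat_lit 64232) (nat_lit 9) (node (nat_lit 5) (nat_lit 64418) (nat_lit 10) (node
  (nat_lit 4) (nat_lit 63196) (nat_lit 11) nil nil) (node (nat_lit 4) (nat_lit 65325) (nat_lit 10)
  nil nil)) (node (nat_lit 5) (nat_lit 64862) (nat_lit 9) (node (nat_lit 9) (nat_lit 66960)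
  (nat_lit 10) (node (nat_lit 4) (nat_lit 66960) (nat_lit 11) nil nil) nil) (node (nat_lit 0)
  (nat_lit 67400) (nat_lit 9) nil nil)))) (node (nat_lit 0) (nat_lit 67438) (nat_lit 8) (node
  (nat_lit 5) (nat_lit 67438) (nat_lit 9) nil (node (nat_lit 9) (nat_lit 67438) (nat_lit 9) (node
  (nat_lit 5) (nat_lit 67438) (nat_lit 10) nil nil) (node (nat_lit 4) (nat_lit 67438) (nat_lit 9)
  nil (node (nat_lit 6) (nat_lit 67438) (nat_lit 9) nil (node (nat_lit 0) (nat_lit 67438) (nat_lit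
  9) nil nil))))) nil))) (node (nat_lit 4) (nat_lit 0) (nat_lit 7) (node (nat_lit 6) (nat_lit
  65445) (nat_lit 8) (node (nat_lit 5) (nat_lit 63855) (nat_lit 9) (node (nat_lit 4) (nat_lit
  62595) (nat_lit 10) (node (nat_lit 5) (nat_lit 50242) (nat_lit 11) (node (nat_lit 6) (nat_lit
  42651) (nat_lit 12) (node (nat_lit 4) (nat_lit 31160) (nat_lit 13) nil nil) nil) nil) nil) (node
  (nat_lit 4) (nat_lit 67086) (nat_lit 9) nil nil)) (node (nat_lit 5) (nat_lit 63767) (nat_lit 8)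
  (node (nat_lit 4) (nat_lit 65409) (nat_lit 9) nil (node (nat_lit 6) (nat_lit 65379) (nat_lit 9)
  nil nil)) (node (nat_lit 9) (nat_lit 67438) (nat_lit 8) (node (nat_lit 5) (nat_lit 67438)
  (nat_lit 9) (node (nat_lit 9) (nat_lit 67438) (nat_lit 10) (node (nat_lit 4) (nat_lit 67438)
  (nat_lit 11) (node (nat_lit 5) (nat_lit 67438) (nat_lit 12) nil nil) nil) nil) nil) (node
  (nat_lit 0) (nat_lit 66825) (nat_lit 8) nil nil)))) (node (nat_lit 6) (nat_lit 62081) (nat_lit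
  7) (node (nat_lit 5) (nat_lit 66109) (nat_lit 8) (node (nat_lit 6) (nat_lit 67438) (nat_lit 9)
  nil (node (nat_lit 4) (nat_lit 67438) (nat_lit 9) nil nil)) (node (nat_lit 4) (nat_lit 64720)
  (nat_lit 8) nil (node (nat_lit 9) (nat_lit 66361) (nat_lit 8) nil nil))) (node (nat_lit 0)
  (nat_lit 65193) (nat_lit 7) (node (nat_lit 5) (nat_lit 63777) (nat_lit 8) (node (nat_lit 9)
  (nat_lit 66510) (nat_lit 9) nil (node (nat_lit 4) (nat_lit 65418) (nat_lit 9) nil nil)) (node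
  (nat_lit 9) (nat_lit 66834) (nat_lit 8) nil (node (nat_lit 4) (nat_lit 63777) (nat_lit 8) nil
  (node (nat_lit 6) (nat_lit 65193) (nat_lit 8) nil nil)))) nil)))) (node (nat_lit 4) (nat_lit 0)
  (nat_lit 6) (node (nat_lit 0) (nat_lit 0) (nat_lit 7) (node (nat_lit 5) (nat_lit 65116) (nat_lit
  8) (node (nat_lit 4) (nat_lit 67330) (nat_lit 9) (node (nat_lit 5) (nat_lit 67082) (nat_lit 10)
  (node (nat_lit 10) (nat_lit 67438) (nat_lit 11) nil (node (nat_lit 6) (nat_lit 65486) (nat_lit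
  11) nil nil)) (node (nat_lit 6) (nat_lit 66325) (nat_lit 10) (node (nat_lit 5) (nat_lit 66072)
  (nat_lit 11) nil nil) nil)) (node (nat_lit 10) (nat_lit 67438) (nat_lit 9) nil (node (nat_lit 6)
  (nat_lit 63923) (nat_lit 9) nil nil))) (node (nat_lit 4) (nat_lit 63926) (nat_lit 8) (node
  (nat_lit 5) (nat_lit 63880) (nat_lit 9) (node (nat_lit 10) (nat_lit 65978) (nat_lit 10) (node
  (nat_lit 5) (nat_lit 65978) (nat_lit 11) nil nil) nil) nil) (node (nat_lit 6) (nat_lit 65447)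
  (nat_lit 8) (node (nat_lit 4) (nat_lit 65401) (nat_lit 9) nil (node (nat_lit 5) (nat_lit 67088)
  (nat_lit 9) nil nil)) (node (nat_lit 0) (nat_lit 66294) (nat_lit 8) nil nil)))) (node (nat_lit
  6) (nat_lit 0) (nat_lit 7) (node (nat_lit 0) (nat_lit 64392) (nat_lit 8) nil (node (nat_lit 4)
  (nat_lit 0) (nat_lit 8) (node (nat_lit 5) (nat_lit 61524) (nat_lit 9) nil (node (nat_lit 0)
  (nat_lit 63073) (nat_lit 9) nil nil)) (node (nat_lit 5) (nat_lit 0) (nat_lit 8) (node (nat_lit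
  0) (nat_lit 61880) (nat_lit 9) nil nil) nil))) nil)) nil)) (node (nat_lit 6) (nat_lit 0)
  (nat_lit 5) (node (nat_lit 0) (nat_lit 0) (nat_lit 6) (node (nat_lit 6) (nat_lit 0) (nat_lit 7)
  (node (nat_lit 5) (nat_lit 88575) (nat_lit 8) (node (nat_lit 4) (nat_lit 92008) (nat_lit 9)
  (node (nat_lit 6) (nat_lit 92841) (nat_lit 10) (node (nat_lit 4) (nat_lit 92197) (nat_lit 11)
  (node (nat_lit 5) (nat_lit 86748) (nat_lit 12) (node (nat_lit 6) (nat_lit 82543) (nat_lit 13)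
  nil nil) nil) nil) (node (nat_lit 5) (nat_lit 93416) (nat_lit 10) (node (nat_lit 6) (nat_lit
  94006) (nat_lit 11) (node (nat_lit 4) (nat_lit 94526) (nat_lit 12) (node (nat_lit 6) (nat_lit
  94999) (nat_lit 13) (node (nat_lit 9) (nat_lit 28240) (nat_lit 14) nil nil) nil) nil) nil) nil))
  (node (nat_lit 6) (nat_lit 92812) (nat_lit 9) (node (nat_lit 4) (nat_lit 94220) (nat_lit 10) nil
  (node (nat_lit 9) (nat_lit 94810) (nat_lit 10) nil nil)) (node (nat_lit 9) (nat_lit 94220)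
  (nat_lit 9) (node (nat_lit 5) (nat_lit 94220) (nat_lit 10) nil nil) (node (nat_lit 0) (nat_lit
  93718) (nat_lit 9) nil nil)))) (node (nat_lit 4) (nat_lit 87208) (nat_lit 8) (node (nat_lit 5)
  (nat_lit 90424) (nat_lit 9) (node (nat_lit 6) (nat_lit 93086) (nat_lit 10) (node (nat_lit 4)
  (nat_lit 94177) (nat_lit 11) (node (nat_lit 6) (nat_lit 93427) (nat_lit 12) (node (nat_lit 9)
  (nat_lit 66260) (nat_lit 13) nil nil) nil) nil) (node (nat_lit 4) (nat_lit 93111) (nat_lit 10)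
  nil (node (nat_lit 0) (nat_lit 94015) (nat_lit 10) nil nil))) (node (nat_lit 9) (nat_lit 94220)
  (nat_lit 9) (node (nat_lit 6) (nat_lit 94220) (nat_lit 10) (node (nat_lit 5) (nat_lit 94810)
  (nat_lit 11) nil nil) (node (nat_lit 4) (nat_lit 94220) (nat_lit 10) nil nil)) (node (nat_lit 6)
  (nat_lit 91580) (nat_lit 9) (node (nat_lit 5) (nat_lit 93173) (nat_lit 10) nil nil) (node
  (nat_lit 0) (nat_lit 93718) (nat_lit 9) nil nil)))) (node (nat_lit 0) (nat_lit 92311) (nat_lit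
  8) (node (nat_lit 6) (nat_lit 92812) (nat_lit 9) nil (node (nat_lit 9) (nat_lit 93718) (nat_lit
  9) (node (nat_lit 6) (nat_lit 93718) (nat_lit 10) nil nil) (node (nat_lit 4) (nat_lit 92812)
  (nat_lit 9) (node (nat_lit 6) (nat_lit 93376) (nat_lit 10) nil nil) (node (nat_lit 0) (nat_lit
  93718) (nat_lit 9) nil (node (nat_lit 5) (nat_lit 92311) (nat_lit 9) nil nil))))) nil))) (node
  (nat_lit 4) (nat_lit 0) (nat_lit 7) (node (nat_lit 5) (nat_lit 85928) (nat_lit 8) (node (nat_lit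
  6) (nat_lit 90864) (nat_lit 9) (node (nat_lit 4) (nat_lit 93364) (nat_lit 10) nil (node (nat_lit
  5) (nat_lit 92951) (nat_lit 10) nil nil)) (node (nat_lit 4) (nat_lit 90830) (nat_lit 9) (node
  (nat_lit 6) (nat_lit 90201) (nat_lit 10) nil nil) (node (nat_lit 0) (nat_lit 92829) (nat_lit 9)
  nil nil))) (node (nat_lit 9) (nat_lit 91459) (nat_lit 8) (node (nat_lit 6) (nat_lit 91960)
  (nat_lit 9) (node (nat_lit 9) (nat_lit 93958) (nat_lit 10) (node (nat_lit 4) (nat_lit 93958)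
  (nat_lit 11) nil nil) (node (nat_lit 4) (nat_lit 93368) (nat_lit 10) nil nil)) nil) (node
  (nat_lit 6) (nat_lit 87477) (nat_lit 8) (node (nat_lit 4) (nat_lit 92380) (nat_lit 9) (node
  (nat_lit 9) (nat_lit 94445) (nat_lit 10) nil nil) (node (nat_lit 5) (nat_lit 91052) (nat_lit 9)
  (node (nat_lit 4) (nat_lit 83754) (nat_lit 10) nil nil) nil)) (node (nat_lit 0) (nat_lit 91012)
  (nat_lit 8) nil nil)))) (node (nat_lit 5) (nat_lit 0) (nat_lit 7) (node (nat_lit 6) (nat_lit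
  85524) (nat_lit 8) (node (nat_lit 5) (nat_lit 88098) (nat_lit 9) (node (nat_lit 9) (nat_lit
  91689) (nat_lit 10) nil nil) (node (nat_lit 4) (nat_lit 89925) (nat_lit 9) nil nil)) (node
  (nat_lit 4) (nat_lit 83672) (nat_lit 8) (node (nat_lit 6) (nat_lit 86164) (nat_lit 9) nil (node
  (nat_lit 5) (nat_lit 88073) (nat_lit 9) nil nil)) (node (nat_lit 9) (nat_lit 89489) (nat_lit 8)
  (node (nat_lit 6) (nat_lit 89489) (nat_lit 9) (node (nat_lit 9) (nat_lit 93080) (nat_lit 10)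
  (node (nat_lit 5) (nat_lit 93080) (nat_lit 11) nil nil) nil) nil) (node (nat_lit 0) (nat_lit
  88396) (nat_lit 8) nil nil)))) (node (nat_lit 0) (nat_lit 0) (nat_lit 7) (node (nat_lit 6)
  (nat_lit 88550) (nat_lit 8) (node (nat_lit 9) (nat_lit 93693) (nat_lit 9) nil (node (nat_lit 10)
  (nat_lit 93693) (nat_lit 9) nil nil)) (node (nat_lit 9) (nat_lit 92286) (nat_lit 8) (node
  (nat_lit 6) (nat_lit 92286) (nat_lit 9) nil nil) (node (nat_lit 4) (nat_lit 87457) (nat_lit 8)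
  nil (node (nat_lit 5) (nat_lit 87457) (nat_lit 8) nil (node (nat_lit 0) (nat_lit 91193) (nat_lit
  8) nil nil))))) nil)))) (node (nat_lit 5) (nat_lit 0) (nat_lit 6) (node (nat_lit 0) (nat_lit 0)
  (nat_lit 7) (node (nat_lit 6) (nat_lit 87184) (nat_lit 8) (node (nat_lit 5) (nat_lit 92086)
  (nat_lit 9) (node (nat_lit 4) (nat_lit 93851) (nat_lit 10) (node (nat_lit 6) (nat_lit 94079)
  (nat_lit 11) nil nil) (node (nat_lit 6) (nat_lit 94090) (nat_lit 10) nil (node (nat_lit 0)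
  (nat_lit 94680) (nat_lit 10) nil nil))) (node (nat_lit 4) (nat_lit 91585) (nat_lit 9) nil nil))
  (node (nat_lit 4) (nat_lit 86948) (nat_lit 8) (node (nat_lit 5) (nat_lit 89414) (nat_lit 9)
  (node (nat_lit 4) (nat_lit 90381) (nat_lit 10) nil (node (nat_lit 6) (nat_lit 89312) (nat_lit
  10) nil nil)) nil) (node (nat_lit 5) (nat_lit 83876) (nat_lit 8) (node (nat_lit 6) (nat_lit
  88750) (nat_lit 9) (node (nat_lit 10) (nat_lit 92341) (nat_lit 10) nil nil) (node (nat_lit 4)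
  (nat_lit 84466) (nat_lit 9) nil nil)) (node (nat_lit 0) (nat_lit 89084) (nat_lit 8) nil nil))))
  (node (nat_lit 4) (nat_lit 0) (nat_lit 7) (node (nat_lit 6) (nat_lit 0) (nat_lit 8) (node
  (nat_lit 4) (nat_lit 0) (nat_lit 9) (node (nat_lit 5) (nat_lit 66492) (nat_lit 10) (node
  (nat_lit 6) (nat_lit 51179) (nat_lit 11) nil nil) (node (nat_lit 0) (nat_lit 73411) (nat_lit 10)
  nil nil)) (node (nat_lit 0) (nat_lit 68753) (nat_lit 9) nil nil)) (node (nat_lit 5) (nat_lit 0)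
  (nat_lit 8) (node (nat_lit 0) (nat_lit 55678) (nat_lit 9) nil nil) (node (nat_lit 0) (nat_lit
  67481) (nat_lit 8) nil nil))) nil)) nil)) nil))) t368) (node (nat_lit 4) (nat_lit 0) (nat_lit 3)
  (node (nat_lit 3) (nat_lit 0) (nat_lit 4) t369 (node (nat_lit 0) (nat_lit 0) (nat_lit 4) (node
  (nat_lit 5) (nat_lit 0) (nat_lit 5) (node (nat_lit 7) (nat_lit 0) (nat_lit 6) (node (nat_lit 4)
  (nat_lit 73834) (nat_lit 7) (node (nat_lit 5) (nat_lit 79507) (nat_lit 8) (node (nat_lit 4)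
  (nat_lit 77026) (nat_lit 9) nil (node (nat_lit 3) (nat_lit 79455) (nat_lit 9) (node (nat_lit 4)
  (nat_lit 77692) (nat_lit 10) nil nil) nil)) (node (nat_lit 3) (nat_lit 79862) (nat_lit 8) nil
  (node (nat_lit 7) (nat_lit 76748) (nat_lit 8) nil nil))) (node (nat_lit 3) (nat_lit 80572)
  (nat_lit 7) (node (nat_lit 4) (nat_lit 83728) (nat_lit 8) nil (node (nat_lit 5) (nat_lit 79766)
  (nat_lit 8) (node (nat_lit 10) (nat_lit 76774) (nat_lit 9) (node (nat_lit 4) (nat_lit 75012)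
  (nat_lit 10) (node (nat_lit 5) (nat_lit 70974) (nat_lit 11) (node (nat_lit 4) (nat_lit 64635)
  (nat_lit 12) nil nil) nil) nil) nil) nil)) (node (nat_lit 0) (nat_lit 73170) (nat_lit 7) nil
  nil))) (node (nat_lit 4) (nat_lit 66885) (nat_lit 6) (node (nat_lit 3) (nat_lit 77159) (nat_lit
  7) (node (nat_lit 4) (nat_lit 69279) (nat_lit 8) (node (nat_lit 5) (nat_lit 61802) (nat_lit 9)
  (node (nat_lit 10) (nat_lit 62552) (nat_lit 10) nil (node (nat_lit 4) (nat_lit 48506) (nat_lit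
  10) (node (nat_lit 7) (nat_lit 44750) (nat_lit 11) nil nil) nil)) nil) (node (nat_lit 5)
  (nat_lit 81486) (nat_lit 8) (node (nat_lit 10) (nat_lit 82354) (nat_lit 9) (node (nat_lit 4)
  (nat_lit 76305) (nat_lit 10) (node (nat_lit 5) (nat_lit 71784) (nat_lit 11) nil nil) nil) nil)
  nil)) (node (nat_lit 5) (nat_lit 73713) (nat_lit 7) (node (nat_lit 3) (nat_lit 81377) (nat_lit
  8) (node (nat_lit 4) (nat_lit 79105) (nat_lit 9) (node (nat_lit 5) (nat_lit 57318) (nat_lit 10)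
  (node (nat_lit 4) (nat_lit 47740) (nat_lit 11) nil nil) nil) nil) (node (nat_lit 7) (nat_lit
  76627) (nat_lit 8) nil nil)) nil)) (node (nat_lit 3) (nat_lit 75771) (nat_lit 6) (node (nat_lit
  4) (nat_lit 82600) (nat_lit 7) (node (nat_lit 5) (nat_lit 83154) (nat_lit 8) (node (nat_lit 4)
  (nat_lit 84367) (nat_lit 9) (node (nat_lit 9) (nat_lit 83391) (nat_lit 10) nil (node (nat_lit 7)
  (nat_lit 16147) (nat_lit 10) nil nil)) nil) (node (nat_lit 9) (nat_lit 84320) (nat_lit 8) nil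
  nil)) (node (nat_lit 5) (nat_lit 81576) (nat_lit 7) (node (nat_lit 4) (nat_lit 77082) (nat_lit
  8) (node (nat_lit 9) (nat_lit 75720) (nat_lit 9) nil nil) nil) (node (nat_lit 7) (nat_lit 80892)
  (nat_lit 7) nil nil))) (node (nat_lit 0) (nat_lit 77063) (nat_lit 6) nil nil)))) (node (nat_lit
  3) (nat_lit 0) (nat_lit 5) (node (nat_lit 5) (nat_lit 72101) (nat_lit 6) (node (nat_lit 4)
  (nat_lit 79822) (nat_lit 7) (node (nat_lit 8) (nat_lit 80975) (nat_lit 8) (node (nat_lit 4)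
  (nat_lit 71020) (nat_lit 9) (node (nat_lit 5) (nat_lit 65796) (nat_lit 10) (node (nat_lit 4)
  (nat_lit 47612) (nat_lit 11) nil nil) nil) (node (nat_lit 5) (nat_lit 78493) (nat_lit 9) nil
  nil)) (node (nat_lit 5) (nat_lit 83049) (nat_lit 8) (node (nat_lit 8) (nat_lit 83882) (nat_lit
  9) (node (nat_lit 4) (nat_lit 81256) (nat_lit 10) nil nil) nil) nil)) (node (nat_lit 8) (nat_lit
  71795) (nat_lit 7) (node (nat_lit 4) (nat_lit 70497) (nat_lit 8) (node (nat_lit 5) (nat_lit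
  59601) (nat_lit 9) (node (nat_lit 4) (nat_lit 35899) (nat_lit 10) nil nil) (node (nat_lit 8)
  (nat_lit 71690) (nat_lit 9) nil nil)) (node (nat_lit 7) (nat_lit 73893) (nat_lit 8) nil nil))
  (node (nat_lit 7) (nat_lit 80314) (nat_lit 7) (node (nat_lit 8) (nat_lit 81750) (nat_lit 8) nil
  nil) nil))) (node (nat_lit 7) (nat_lit 0) (nat_lit 6) (node (nat_lit 5) (nat_lit 83436) (nat_lit
  7) (node (nat_lit 4) (nat_lit 83739) (nat_lit 8) (node (nat_lit 8) (nat_lit 82377) (nat_lit 9)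
  (node (nat_lit 4) (nat_lit 80017) (nat_lit 10) (node (nat_lit 5) (nat_lit 69902) (nat_lit 11)
  nil nil) (node (nat_lit 5) (nat_lit 80322) (nat_lit 10) nil nil)) (node (nat_lit 5) (nat_lit
  85073) (nat_lit 9) (node (nat_lit 8) (nat_lit 85199) (nat_lit 10) nil nil) nil)) (node (nat_lit
  8) (nat_lit 85157) (nat_lit 8) nil nil)) (node (nat_lit 4) (nat_lit 84665) (nat_lit 7) (node
  (nat_lit 5) (nat_lit 83860) (nat_lit 8) (node (nat_lit 8) (nat_lit 84693) (nat_lit 9) (node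
  (nat_lit 4) (nat_lit 81177) (nat_lit 10) (node (nat_lit 5) (nat_lit 77737) (nat_lit 11) nil nil)
  nil) (node (nat_lit 4) (nat_lit 85073) (nat_lit 9) nil nil)) (node (nat_lit 8) (nat_lit 85199)
  (nat_lit 8) nil nil)) (node (nat_lit 0) (nat_lit 82626) (nat_lit 7) nil nil))) (node (nat_lit 4)
  (nat_lit 78428) (nat_lit 6) (node (nat_lit 5) (nat_lit 84113) (nat_lit 7) (node (nat_lit 8)
  (nat_lit 85199) (nat_lit 8) nil (node (nat_lit 4) (nat_lit 82342) (nat_lit 8) (node (nat_lit 8)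
  (nat_lit 80980) (nat_lit 9) (node (nat_lit 4) (nat_lit 78620) (nat_lit 10) (node (nat_lit 5)
  (nat_lit 74696) (nat_lit 11) nil nil) nil) nil) nil)) (node (nat_lit 8) (nat_lit 85199) (nat_lit
  7) (node (nat_lit 5) (nat_lit 80883) (nat_lit 8) nil nil) (node (nat_lit 7) (nat_lit 85199)
  (nat_lit 7) nil nil))) (node (nat_lit 0) (nat_lit 79210) (nat_lit 6) nil nil)))) (node (nat_lit
  0) (nat_lit 0) (nat_lit 5) (node (nat_lit 3) (nat_lit 77371) (nat_lit 6) (node (nat_lit 5)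
  (nat_lit 78500) (nat_lit 7) (node (nat_lit 4) (nat_lit 77413) (nat_lit 8) nil (node (nat_lit 9)
  (nat_lit 75728) (nat_lit 8) (node (nat_lit 4) (nat_lit 72327) (nat_lit 9) nil nil) nil)) (node
  (nat_lit 4) (nat_lit 83056) (nat_lit 7) (node (nat_lit 5) (nat_lit 83611) (nat_lit 8) nil (node
  (nat_lit 9) (nat_lit 84777) (nat_lit 8) nil nil)) nil)) (node (nat_lit 5) (nat_lit 75858)
  (nat_lit 6) (node (nat_lit 3) (nat_lit 82685) (nat_lit 7) (node (nat_lit 4) (nat_lit 84406)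
  (nat_lit 8) nil (node (nat_lit 5) (nat_lit 84406) (nat_lit 8) nil nil)) (node (nat_lit 4)
  (nat_lit 77785) (nat_lit 7) (node (nat_lit 3) (nat_lit 77737) (nat_lit 8) (node (nat_lit 4)
  (nat_lit 67343) (nat_lit 9) nil nil) (node (nat_lit 5) (nat_lit 74578) (nat_lit 8) nil nil))
  nil)) (node (nat_lit 4) (nat_lit 77807) (nat_lit 6) (node (nat_lit 5) (nat_lit 78195) (nat_lit
  7) (node (nat_lit 3) (nat_lit 79027) (nat_lit 8) (node (nat_lit 4) (nat_lit 71978) (nat_lit 9)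
  nil nil) (node (nat_lit 4) (nat_lit 74989) (nat_lit 8) nil nil)) (node (nat_lit 3) (nat_lit
  79925) (nat_lit 7) (node (nat_lit 5) (nat_lit 79120) (nat_lit 8) nil nil) nil)) (node (nat_lit
  0) (nat_lit 78556) (nat_lit 6) nil (node (nat_lit 7) (nat_lit 80380) (nat_lit 6) (node (nat_lit
  3) (nat_lit 80380) (nat_lit 7) nil (node (nat_lit 5) (nat_lit 80380) (nat_lit 7) nil nil))
  nil))))) (node (nat_lit 4) (nat_lit 54834) (nat_lit 5) (node (nat_lit 3) (nat_lit 75553)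
  (nat_lit 6) (node (nat_lit 5) (nat_lit 82639) (nat_lit 7) (node (nat_lit 9) (nat_lit 82848)
  (nat_lit 8) (node (nat_lit 4) (nat_lit 80202) (nat_lit 9) (node (nat_lit 5) (nat_lit 73129)
  (nat_lit 10) (node (nat_lit 4) (nat_lit 60870) (nat_lit 11) nil nil) nil) nil) (node (nat_lit 4)
  (nat_lit 81749) (nat_lit 8) (node (nat_lit 9) (nat_lit 81045) (nat_lit 9) (node (nat_lit 4)
  (nat_lit 79396) (nat_lit 10) (node (nat_lit 5) (nat_lit 75149) (nat_lit 11) nil nil) nil) (node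
  (nat_lit 5) (nat_lit 79267) (nat_lit 9) nil nil)) nil)) (node (nat_lit 4) (nat_lit 81238)
  (nat_lit 7) nil (node (nat_lit 7) (nat_lit 80673) (nat_lit 7) nil nil))) (node (nat_lit 5)
  (nat_lit 67321) (nat_lit 6) (node (nat_lit 3) (nat_lit 76348) (nat_lit 7) (node (nat_lit 4)
  (nat_lit 71196) (nat_lit 8) (node (nat_lit 10) (nat_lit 71288) (nat_lit 9) nil (node (nat_lit 5)
  (nat_lit 62399) (nat_lit 9) (node (nat_lit 4) (nat_lit 52711) (nat_lit 10) nil nil) nil)) (node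
  (nat_lit 5) (nat_lit 78069) (nat_lit 8) nil nil)) (node (nat_lit 4) (nat_lit 74430) (nat_lit 7)
  (node (nat_lit 3) (nat_lit 76718) (nat_lit 8) (node (nat_lit 4) (nat_lit 65619) (nat_lit 9)
  (node (nat_lit 5) (nat_lit 64902) (nat_lit 10) nil nil) (node (nat_lit 5) (nat_lit 74236)
  (nat_lit 9) nil nil)) nil) (node (nat_lit 7) (nat_lit 75870) (nat_lit 7) (node (nat_lit 4)
  (nat_lit 77306) (nat_lit 8) nil nil) nil))) nil)) nil)))) nil)) nil))

noncomputable def c34 : Tr :=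
  (node (nat_lit 3) (nat_lit 0) (nat_lit 1) (node (nat_lit 3) (nat_lit 0) (nat_lit 2) t370 nil)
  nil)

noncomputable def t371 : Tr :=
  (node (nat_lit 0) (nat_lit 0) (nat_lit 6) (node (nat_lit 4) (nat_lit 0) (nat_lit 7) (node
  (nat_lit 9) (nat_lit 0) (nat_lit 8) (node (nat_lit 6) (nat_lit 70817) (nat_lit 9) (node (nat_lit
  4) (nat_lit 79312) (nat_lit 10) (node (nat_lit 6) (nat_lit 82486) (nat_lit 11) (node (nat_lit 5)
  (nat_lit 83490) (nat_lit 12) (node (nat_lit 4) (nat_lit 81828) (nat_lit 13) (node (nat_lit 5)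
  (nat_lit 82024) (nat_lit 14) (node (nat_lit 6) (nat_lit 81462) (nat_lit 15) nil nil) nil) nil)
  (node (nat_lit 9) (nat_lit 83909) (nat_lit 12) nil nil)) (node (nat_lit 5) (nat_lit 88830)
  (nat_lit 11) (node (nat_lit 4) (nat_lit 90253) (nat_lit 12) nil (node (nat_lit 6) (nat_lit
  90253) (nat_lit 12) nil nil)) (node (nat_lit 0) (nat_lit 80879) (nat_lit 11) nil nil))) (node
  (nat_lit 5) (nat_lit 86156) (nat_lit 10) (node (nat_lit 4) (nat_lit 87635) (nat_lit 11) (node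
  (nat_lit 6) (nat_lit 89057) (nat_lit 12) nil (node (nat_lit 5) (nat_lit 79678) (nat_lit 12) nil
  nil)) (node (nat_lit 6) (nat_lit 87723) (nat_lit 11) nil nil)) (node (nat_lit 9) (nat_lit 78566)
  (nat_lit 10) (node (nat_lit 4) (nat_lit 82884) (nat_lit 11) (node (nat_lit 6) (nat_lit 84787)
  (nat_lit 12) nil nil) (node (nat_lit 5) (nat_lit 85644) (nat_lit 11) (node (nat_lit 4) (nat_lit
  84724) (nat_lit 12) nil nil) (node (nat_lit 0) (nat_lit 80133) (nat_lit 11) nil nil))) (node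
  (nat_lit 0) (nat_lit 85255) (nat_lit 10) nil nil)))) (node (nat_lit 5) (nat_lit 87993) (nat_lit
  9) (node (nat_lit 4) (nat_lit 89625) (nat_lit 10) (node (nat_lit 6) (nat_lit 90473) (nat_lit 11)
  (node (nat_lit 5) (nat_lit 91244) (nat_lit 12) nil (node (nat_lit 4) (nat_lit 91244) (nat_lit
  12) (node (nat_lit 5) (nat_lit 86651) (nat_lit 13) nil nil) nil)) (node (nat_lit 5) (nat_lit
  90473) (nat_lit 11) nil nil)) (node (nat_lit 6) (nat_lit 89625) (nat_lit 10) (node (nat_lit 4)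
  (nat_lit 90473) (nat_lit 11) nil (node (nat_lit 5) (nat_lit 86898) (nat_lit 11) nil nil)) (node
  (nat_lit 0) (nat_lit 89625) (nat_lit 10) nil (node (nat_lit 9) (nat_lit 89625) (nat_lit 10) nil
  nil)))) (node (nat_lit 0) (nat_lit 87299) (nat_lit 9) (node (nat_lit 4) (nat_lit 88125) (nat_lit
  10) nil nil) nil))) (node (nat_lit 5) (nat_lit 82525) (nat_lit 8) (node (nat_lit 6) (nat_lit
  86603) (nat_lit 9) (node (nat_lit 4) (nat_lit 88384) (nat_lit 10) nil (node (nat_lit 5) (nat_lit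
  88656) (nat_lit 10) (node (nat_lit 4) (nat_lit 86726) (nat_lit 11) nil nil) nil)) (node (nat_lit
  4) (nat_lit 86603) (nat_lit 9) (node (nat_lit 6) (nat_lit 88384) (nat_lit 10) (node (nat_lit 5)
  (nat_lit 89605) (nat_lit 11) nil nil) nil) (node (nat_lit 9) (nat_lit 86603) (nat_lit 9) (node
  (nat_lit 5) (nat_lit 88384) (nat_lit 10) (node (nat_lit 4) (nat_lit 86726) (nat_lit 11) nil nil)
  (node (nat_lit 6) (nat_lit 84965) (nat_lit 10) nil nil)) nil))) (node (nat_lit 6) (nat_lit 0)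
  (nat_lit 8) (node (nat_lit 4) (nat_lit 70764) (nat_lit 9) (node (nat_lit 5) (nat_lit 82022)
  (nat_lit 10) (node (nat_lit 6) (nat_lit 68768) (nat_lit 11) (node (nat_lit 4) (nat_lit 40386)
  (nat_lit 12) (node (nat_lit 6) (nat_lit 38488) (nat_lit 13) nil nil) (node (nat_lit 5) (nat_lit
  68630) (nat_lit 12) nil nil)) (node (nat_lit 4) (nat_lit 79948) (nat_lit 11) nil nil)) (node
  (nat_lit 9) (nat_lit 79249) (nat_lit 10) nil (node (nat_lit 0) (nat_lit 72545) (nat_lit 10) nil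
  nil))) (node (nat_lit 5) (nat_lit 84960) (nat_lit 9) (node (nat_lit 4) (nat_lit 85579) (nat_lit
  10) (node (nat_lit 5) (nat_lit 73322) (nat_lit 11) (node (nat_lit 6) (nat_lit 63675) (nat_lit
  12) nil nil) nil) (node (nat_lit 6) (nat_lit 86536) (nat_lit 10) nil nil)) (node (nat_lit 0)
  (nat_lit 81555) (nat_lit 9) nil nil))) (node (nat_lit 0) (nat_lit 82519) (nat_lit 8) (node
  (nat_lit 4) (nat_lit 83743) (nat_lit 9) nil (node (nat_lit 6) (nat_lit 82353) (nat_lit 9) nil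
  (node (nat_lit 5) (nat_lit 86596) (nat_lit 9) nil nil))) nil)))) (node (nat_lit 5) (nat_lit 0)
  (nat_lit 7) (node (nat_lit 9) (nat_lit 0) (nat_lit 8) (node (nat_lit 6) (nat_lit 89150) (nat_lit
  9) (node (nat_lit 5) (nat_lit 91753) (nat_lit 10) (node (nat_lit 4) (nat_lit 89679) (nat_lit 11)
  (node (nat_lit 6) (nat_lit 89793) (nat_lit 12) (node (nat_lit 4) (nat_lit 89420) (nat_lit 13)
  (node (nat_lit 5) (nat_lit 88925) (nat_lit 14) nil nil) nil) (node (nat_lit 5) (nat_lit 90450)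
  (nat_lit 12) (node (nat_lit 6) (nat_lit 85953) (nat_lit 13) (node (nat_lit 4) (nat_lit 80834)
  (nat_lit 14) (node (nat_lit 6) (nat_lit 69388) (nat_lit 15) nil nil) nil) nil) nil)) (node
  (nat_lit 6) (nat_lit 92601) (nat_lit 11) (node (nat_lit 4) (nat_lit 93372) (nat_lit 12) nil nil)
  nil)) (node (nat_lit 4) (nat_lit 90222) (nat_lit 10) (node (nat_lit 6) (nat_lit 89177) (nat_lit
  11) (node (nat_lit 5) (nat_lit 89810) (nat_lit 12) nil nil) (node (nat_lit 5) (nat_lit 91070)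
  (nat_lit 11) nil nil)) (node (nat_lit 9) (nat_lit 90754) (nat_lit 10) (node (nat_lit 5) (nat_lit
  91602) (nat_lit 11) nil (node (nat_lit 4) (nat_lit 88680) (nat_lit 11) nil nil)) (node (nat_lit
  0) (nat_lit 90754) (nat_lit 10) nil nil)))) (node (nat_lit 4) (nat_lit 89184) (nat_lit 9) (node
  (nat_lit 5) (nat_lit 91418) (nat_lit 10) (node (nat_lit 4) (nat_lit 92266) (nat_lit 11) (node
  (nat_lit 6) (nat_lit 90090) (nat_lit 12) nil nil) (node (nat_lit 6) (nat_lit 91828) (nat_lit 11)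
  (node (nat_lit 5) (nat_lit 91476) (nat_lit 12) nil nil) nil)) (node (nat_lit 6) (nat_lit 90967)
  (nat_lit 10) (node (nat_lit 5) (nat_lit 91815) (nat_lit 11) nil (node (nat_lit 4) (nat_lit
  92149) (nat_lit 11) nil nil)) (node (nat_lit 0) (nat_lit 90788) (nat_lit 10) nil nil))) (node
  (nat_lit 0) (nat_lit 89498) (nat_lit 9) (node (nat_lit 5) (nat_lit 91102) (nat_lit 10) nil nil)
  nil))) (node (nat_lit 4) (nat_lit 84868) (nat_lit 8) (node (nat_lit 6) (nat_lit 88710) (nat_lit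
  9) (node (nat_lit 5) (nat_lit 90292) (nat_lit 10) (node (nat_lit 4) (nat_lit 83821) (nat_lit 11)
  (node (nat_lit 5) (nat_lit 82874) (nat_lit 12) (node (nat_lit 6) (nat_lit 75650) (nat_lit 13)
  (node (nat_lit 4) (nat_lit 69587) (nat_lit 14) (node (nat_lit 6) (nat_lit 57254) (nat_lit 15)
  nil nil) nil) nil) nil) (node (nat_lit 6) (nat_lit 91162) (nat_lit 11) nil nil)) (node (nat_lit
  4) (nat_lit 90313) (nat_lit 10) (node (nat_lit 5) (nat_lit 88500) (nat_lit 11) (node (nat_lit 6)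
  (nat_lit 80384) (nat_lit 12) nil nil) nil) nil)) (node (nat_lit 9) (nat_lit 88945) (nat_lit 9)
  (node (nat_lit 4) (nat_lit 90549) (nat_lit 10) (node (nat_lit 5) (nat_lit 91397) (nat_lit 11)
  nil nil) (node (nat_lit 6) (nat_lit 87308) (nat_lit 10) nil (node (nat_lit 5) (nat_lit 90549)
  (nat_lit 10) nil nil))) (node (nat_lit 5) (nat_lit 89788) (nat_lit 9) (node (nat_lit 6) (nat_lit
  91041) (nat_lit 10) (node (nat_lit 4) (nat_lit 91889) (nat_lit 11) nil nil) nil) nil))) (node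
  (nat_lit 6) (nat_lit 0) (nat_lit 8) (node (nat_lit 5) (nat_lit 90084) (nat_lit 9) (node (nat_lit
  4) (nat_lit 90936) (nat_lit 10) (node (nat_lit 6) (nat_lit 91467) (nat_lit 11) (node (nat_lit 4)
  (nat_lit 86962) (nat_lit 12) (node (nat_lit 5) (nat_lit 86125) (nat_lit 13) nil nil) nil) (node
  (nat_lit 5) (nat_lit 88996) (nat_lit 11) (node (nat_lit 6) (nat_lit 80880) (nat_lit 12) (node
  (nat_lit 4) (nat_lit 70427) (nat_lit 13) nil nil) nil) nil)) (node (nat_lit 9) (nat_lit 91337)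
  (nat_lit 10) nil nil)) (node (nat_lit 9) (nat_lit 88905) (nat_lit 9) (node (nat_lit 6) (nat_lit
  90509) (nat_lit 10) (node (nat_lit 5) (nat_lit 91357) (nat_lit 11) (node (nat_lit 6) (nat_lit
  92128) (nat_lit 12) nil (node (nat_lit 4) (nat_lit 85904) (nat_lit 12) nil nil)) nil) (node
  (nat_lit 4) (nat_lit 90509) (nat_lit 10) (node (nat_lit 5) (nat_lit 91357) (nat_lit 11) nil nil)
  nil)) (node (nat_lit 4) (nat_lit 88905) (nat_lit 9) (node (nat_lit 5) (nat_lit 90509) (nat_lit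
  10) nil nil) (node (nat_lit 0) (nat_lit 88905) (nat_lit 9) nil nil)))) (node (nat_lit 0)
  (nat_lit 85161) (nat_lit 8) (node (nat_lit 5) (nat_lit 89238) (nat_lit 9) nil (node (nat_lit 6)
  (nat_lit 84995) (nat_lit 9) nil (node (nat_lit 4) (nat_lit 84796) (nat_lit 9) nil nil))) nil))))
  (node (nat_lit 0) (nat_lit 0) (nat_lit 7) (node (nat_lit 9) (nat_lit 0) (nat_lit 8) (node
  (nat_lit 6) (nat_lit 88410) (nat_lit 9) (node (nat_lit 10) (nat_lit 90644) (nat_lit 10) (node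
  (nat_lit 6) (nat_lit 90069) (nat_lit 11) nil (node (nat_lit 9) (nat_lit 91492) (nat_lit 11) nil
  nil)) (node (nat_lit 5) (nat_lit 89660) (nat_lit 10) nil (node (nat_lit 4) (nat_lit 90014)
  (nat_lit 10) nil (node (nat_lit 9) (nat_lit 90014) (nat_lit 10) nil nil)))) (node (nat_lit 4)
  (nat_lit 86830) (nat_lit 9) (node (nat_lit 6) (nat_lit 85192) (nat_lit 10) (node (nat_lit 4)
  (nat_lit 78722) (nat_lit 11) nil nil) (node (nat_lit 5) (nat_lit 88611) (nat_lit 10) nil (node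
  (nat_lit 10) (nat_lit 88611) (nat_lit 10) nil nil))) (node (nat_lit 5) (nat_lit 89590) (nat_lit
  9) (node (nat_lit 6) (nat_lit 89204) (nat_lit 10) nil (node (nat_lit 4) (nat_lit 90843) (nat_lit
  10) nil (node (nat_lit 10) (nat_lit 90843) (nat_lit 10) nil nil))) (node (nat_lit 0) (nat_lit
  88902) (nat_lit 9) (node (nat_lit 10) (nat_lit 90506) (nat_lit 10) nil (node (nat_lit 9)
  (nat_lit 90506) (nat_lit 10) nil nil)) nil)))) (node (nat_lit 6) (nat_lit 0) (nat_lit 8) (node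
  (nat_lit 10) (nat_lit 88697) (nat_lit 9) (node (nat_lit 9) (nat_lit 90159) (nat_lit 10) (node
  (nat_lit 10) (nat_lit 91007) (nat_lit 11) nil nil) nil) (node (nat_lit 5) (nat_lit 88629)
  (nat_lit 9) (node (nat_lit 4) (nat_lit 81788) (nat_lit 10) nil nil) (node (nat_lit 4) (nat_lit
  88279) (nat_lit 9) (node (nat_lit 5) (nat_lit 89882) (nat_lit 10) nil nil) (node (nat_lit 9)
  (nat_lit 88279) (nat_lit 9) nil (node (nat_lit 0) (nat_lit 88279) (nat_lit 9) nil nil))))) (node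
  (nat_lit 5) (nat_lit 85667) (nat_lit 8) (node (nat_lit 4) (nat_lit 89744) (nat_lit 9) (node
  (nat_lit 6) (nat_lit 82289) (nat_lit 10) nil nil) (node (nat_lit 6) (nat_lit 89744) (nat_lit 9)
  (node (nat_lit 5) (nat_lit 91151) (nat_lit 10) nil nil) (node (nat_lit 10) (nat_lit 89744)
  (nat_lit 9) nil (node (nat_lit 9) (nat_lit 89744) (nat_lit 9) nil nil)))) (node (nat_lit 4)
  (nat_lit 84187) (nat_lit 8) (node (nat_lit 5) (nat_lit 88264) (nat_lit 9) (node (nat_lit 6)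
  (nat_lit 86627) (nat_lit 10) nil nil) (node (nat_lit 6) (nat_lit 85520) (nat_lit 9) (node
  (nat_lit 4) (nat_lit 85692) (nat_lit 10) nil nil) (node (nat_lit 10) (nat_lit 88264) (nat_lit 9)
  nil (node (nat_lit 9) (nat_lit 88264) (nat_lit 9) nil nil)))) (node (nat_lit 0) (nat_lit 84694)
  (nat_lit 8) (node (nat_lit 10) (nat_lit 88772) (nat_lit 9) nil (node (nat_lit 9) (nat_lit 88772)
  (nat_lit 9) nil nil)) nil))))) (node (nat_lit 6) (nat_lit 0) (nat_lit 7) (node (nat_lit 4)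
  (nat_lit 0) (nat_lit 8) (node (nat_lit 5) (nat_lit 87326) (nat_lit 9) (node (nat_lit 6) (nat_lit
  89107) (nat_lit 10) (node (nat_lit 4) (nat_lit 90674) (nat_lit 11) (node (nat_lit 6) (nat_lit
  89860) (nat_lit 12) (node (nat_lit 9) (nat_lit 39667) (nat_lit 13) nil nil) nil) nil) (node
  (nat_lit 4) (nat_lit 89107) (nat_lit 10) (node (nat_lit 6) (nat_lit 83442) (nat_lit 11) nil nil)
  nil)) (node (nat_lit 6) (nat_lit 70808) (nat_lit 9) (node (nat_lit 5) (nat_lit 83374) (nat_lit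
  10) (node (nat_lit 4) (nat_lit 74042) (nat_lit 11) (node (nat_lit 5) (nat_lit 65058) (nat_lit
  12) (node (nat_lit 6) (nat_lit 58993) (nat_lit 13) nil nil) nil) nil) nil) (node (nat_lit 9)
  (nat_lit 70828) (nat_lit 9) (node (nat_lit 4) (nat_lit 69030) (nat_lit 10) nil nil) (node
  (nat_lit 0) (nat_lit 70808) (nat_lit 9) nil nil)))) (node (nat_lit 5) (nat_lit 84805) (nat_lit
  8) (node (nat_lit 4) (nat_lit 86848) (nat_lit 9) (node (nat_lit 6) (nat_lit 87389) (nat_lit 10)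
  (node (nat_lit 4) (nat_lit 82469) (nat_lit 11) (node (nat_lit 5) (nat_lit 81522) (nat_lit 12)
  nil nil) nil) (node (nat_lit 5) (nat_lit 80551) (nat_lit 10) (node (nat_lit 6) (nat_lit 59848)
  (nat_lit 11) (node (nat_lit 4) (nat_lit 49744) (nat_lit 12) (node (nat_lit 6) (nat_lit 22800)
  (nat_lit 13) (node (nat_lit 9) (nat_lit 23287) (nat_lit 14) nil nil) nil) nil) nil) nil)) (node
  (nat_lit 6) (nat_lit 88882) (nat_lit 9) (node (nat_lit 4) (nat_lit 90663) (nat_lit 10) nil nil)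
  (node (nat_lit 9) (nat_lit 88882) (nat_lit 9) nil nil))) (node (nat_lit 0) (nat_lit 0) (nat_lit
  8) (node (nat_lit 6) (nat_lit 84807) (nat_lit 9) nil (node (nat_lit 5) (nat_lit 88681) (nat_lit
  9) nil (node (nat_lit 4) (nat_lit 88681) (nat_lit 9) nil (node (nat_lit 0) (nat_lit 88681)
  (nat_lit 9) nil (node (nat_lit 9) (nat_lit 88681) (nat_lit 9) nil nil))))) nil))) nil)))) (node
  (nat_lit 5) (nat_lit 0) (nat_lit 6) (node (nat_lit 0) (nat_lit 0) (nat_lit 7) (node (nat_lit 5)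
  (nat_lit 0) (nat_lit 8) (node (nat_lit 4) (nat_lit 90518) (nat_lit 9) (node (nat_lit 6) (nat_lit
  89891) (nat_lit 10) (node (nat_lit 5) (nat_lit 87164) (nat_lit 11) (node (nat_lit 4) (nat_lit
  86023) (nat_lit 12) nil nil) (node (nat_lit 4) (nat_lit 91458) (nat_lit 11) (node (nat_lit 5)
  (nat_lit 91192) (nat_lit 12) (node (nat_lit 6) (nat_lit 75773) (nat_lit 13) nil nil) nil) (node
  (nat_lit 0) (nat_lit 91458) (nat_lit 11) nil nil))) (node (nat_lit 5) (nat_lit 92014) (nat_lit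
  10) (node (nat_lit 10) (nat_lit 92862) (nat_lit 11) (node (nat_lit 4) (nat_lit 91291) (nat_lit
  12) nil nil) nil) (node (nat_lit 10) (nat_lit 90910) (nat_lit 10) (node (nat_lit 4) (nat_lit
  92477) (nat_lit 11) nil (node (nat_lit 5) (nat_lit 92477) (nat_lit 11) nil (node (nat_lit 6)
  (nat_lit 89687) (nat_lit 11) nil nil))) (node (nat_lit 0) (nat_lit 92014) (nat_lit 10) nil
  nil)))) (node (nat_lit 6) (nat_lit 89876) (nat_lit 9) (node (nat_lit 10) (nat_lit 91657)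
  (nat_lit 10) (node (nat_lit 5) (nat_lit 92862) (nat_lit 11) (node (nat_lit 4) (nat_lit 91291)
  (nat_lit 12) (node (nat_lit 6) (nat_lit 91141) (nat_lit 13) nil nil) nil) (node (nat_lit 6)
  (nat_lit 90434) (nat_lit 11) (node (nat_lit 5) (nat_lit 91067) (nat_lit 12) nil nil) nil)) (node
  (nat_lit 4) (nat_lit 91657) (nat_lit 10) (node (nat_lit 5) (nat_lit 92862) (nat_lit 11) nil nil)
  (node (nat_lit 5) (nat_lit 92014) (nat_lit 10) (node (nat_lit 10) (nat_lit 92862) (nat_lit 11)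
  nil (node (nat_lit 4) (nat_lit 82841) (nat_lit 11) nil nil)) (node (nat_lit 0) (nat_lit 91657)
  (nat_lit 10) nil nil)))) (node (nat_lit 0) (nat_lit 87283) (nat_lit 9) (node (nat_lit 10)
  (nat_lit 89064) (nat_lit 10) (node (nat_lit 5) (nat_lit 90631) (nat_lit 11) nil nil) (node
  (nat_lit 6) (nat_lit 85645) (nat_lit 10) nil (node (nat_lit 5) (nat_lit 89064) (nat_lit 10) nil
  (node (nat_lit 0) (nat_lit 89064) (nat_lit 10) nil (node (nat_lit 4) (nat_lit 85484) (nat_lit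
  10) nil nil))))) nil))) (node (nat_lit 6) (nat_lit 0) (nat_lit 8) (node (nat_lit 4) (nat_lit
  87888) (nat_lit 9) (node (nat_lit 6) (nat_lit 86250) (nat_lit 10) (node (nat_lit 5) (nat_lit
  86793) (nat_lit 11) nil nil) (node (nat_lit 5) (nat_lit 89668) (nat_lit 10) nil nil)) (node
  (nat_lit 10) (nat_lit 88827) (nat_lit 9) (node (nat_lit 5) (nat_lit 91574) (nat_lit 10) (node
  (nat_lit 10) (nat_lit 92988) (nat_lit 11) (node (nat_lit 6) (nat_lit 92327) (nat_lit 12) (node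
  (nat_lit 5) (nat_lit 92795) (nat_lit 13) nil nil) nil) nil) nil) (node (nat_lit 5) (nat_lit
  89621) (nat_lit 9) (node (nat_lit 6) (nat_lit 91310) (nat_lit 10) nil (node (nat_lit 4) (nat_lit
  87731) (nat_lit 10) nil nil)) (node (nat_lit 0) (nat_lit 88399) (nat_lit 9) nil nil)))) (node
  (nat_lit 4) (nat_lit 0) (nat_lit 8) (node (nat_lit 5) (nat_lit 89002) (nat_lit 9) (node (nat_lit
  4) (nat_lit 87203) (nat_lit 10) nil (node (nat_lit 6) (nat_lit 87364) (nat_lit 10) nil nil))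
  (node (nat_lit 6) (nat_lit 88993) (nat_lit 9) (node (nat_lit 5) (nat_lit 84556) (nat_lit 10) nil
  (node (nat_lit 4) (nat_lit 79693) (nat_lit 10) nil nil)) (node (nat_lit 10) (nat_lit 88440)
  (nat_lit 9) (node (nat_lit 5) (nat_lit 90221) (nat_lit 10) (node (nat_lit 10) (nat_lit 91594)
  (nat_lit 11) nil nil) nil) (node (nat_lit 0) (nat_lit 88440) (nat_lit 9) nil nil)))) (node
  (nat_lit 0) (nat_lit 85124) (nat_lit 8) (node (nat_lit 5) (nat_lit 89202) (nat_lit 9) (node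
  (nat_lit 10) (nat_lit 90905) (nat_lit 10) (node (nat_lit 5) (nat_lit 91753) (nat_lit 11) nil
  nil) nil) (node (nat_lit 10) (nat_lit 89202) (nat_lit 9) (node (nat_lit 5) (nat_lit 90905)
  (nat_lit 10) nil nil) (node (nat_lit 6) (nat_lit 84958) (nat_lit 9) nil (node (nat_lit 0)
  (nat_lit 89202) (nat_lit 9) nil nil)))) nil)))) (node (nat_lit 4) (nat_lit 0) (nat_lit 7) (node
  (nat_lit 0) (nat_lit 0) (nat_lit 8) (node (nat_lit 5) (nat_lit 78978) (nat_lit 9) (node (nat_lit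
  4) (nat_lit 83174) (nat_lit 10) (node (nat_lit 5) (nat_lit 86106) (nat_lit 11) (node (nat_lit
  11) (nat_lit 87528) (nat_lit 12) nil (node (nat_lit 6) (nat_lit 85291) (nat_lit 12) nil nil))
  (node (nat_lit 6) (nat_lit 85384) (nat_lit 11) (node (nat_lit 4) (nat_lit 86806) (nat_lit 12)
  nil (node (nat_lit 5) (nat_lit 84480) (nat_lit 12) nil (node (nat_lit 11) (nat_lit 86806)
  (nat_lit 12) nil nil))) (node (nat_lit 0) (nat_lit 84741) (nat_lit 11) nil nil))) (node (nat_lit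
  6) (nat_lit 77340) (nat_lit 10) nil nil)) (node (nat_lit 6) (nat_lit 77372) (nat_lit 9) (node
  (nat_lit 4) (nat_lit 81756) (nat_lit 10) (node (nat_lit 6) (nat_lit 85355) (nat_lit 11) nil nil)
  nil) (node (nat_lit 4) (nat_lit 77446) (nat_lit 9) (node (nat_lit 5) (nat_lit 82863) (nat_lit
  10) (node (nat_lit 11) (nat_lit 84430) (nat_lit 11) nil nil) (node (nat_lit 6) (nat_lit 69590)
  (nat_lit 10) nil nil)) (node (nat_lit 0) (nat_lit 73376) (nat_lit 9) nil nil)))) (node (nat_lit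
  6) (nat_lit 0) (nat_lit 8) (node (nat_lit 4) (nat_lit 0) (nat_lit 9) (node (nat_lit 0) (nat_lit
  71749) (nat_lit 10) nil nil) (node (nat_lit 0) (nat_lit 63725) (nat_lit 9) nil nil)) nil)) (node
  (nat_lit 6) (nat_lit 0) (nat_lit 7) (node (nat_lit 0) (nat_lit 0) (nat_lit 8) (node (nat_lit 5)
  (nat_lit 88556) (nat_lit 9) (node (nat_lit 6) (nat_lit 91649) (nat_lit 10) (node (nat_lit 5)
  (nat_lit 92933) (nat_lit 11) (node (nat_lit 4) (nat_lit 91361) (nat_lit 12) (node (nat_lit 5)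
  (nat_lit 87016) (nat_lit 13) nil nil) (node (nat_lit 11) (nat_lit 93704) (nat_lit 12) nil nil))
  (node (nat_lit 4) (nat_lit 92933) (nat_lit 11) nil nil)) (node (nat_lit 11) (nat_lit 90337)
  (nat_lit 10) (node (nat_lit 6) (nat_lit 89115) (nat_lit 11) nil nil) (node (nat_lit 4) (nat_lit
  90337) (nat_lit 10) nil nil))) (node (nat_lit 6) (nat_lit 87333) (nat_lit 9) (node (nat_lit 5)
  (nat_lit 90327) (nat_lit 10) (node (nat_lit 11) (nat_lit 91175) (nat_lit 11) nil nil) (node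
  (nat_lit 4) (nat_lit 89114) (nat_lit 10) nil nil)) (node (nat_lit 4) (nat_lit 86495) (nat_lit 9)
  (node (nat_lit 6) (nat_lit 89187) (nat_lit 10) (node (nat_lit 4) (nat_lit 89610) (nat_lit 11)
  nil nil) nil) (node (nat_lit 0) (nat_lit 84476) (nat_lit 9) nil nil)))) nil) nil))) nil))

noncomputable def t372 : Tr :=
  (node (nat_lit 5) (nat_lit 0) (nat_lit 5) (node (nat_lit 0) (nat_lit 0) (nat_lit 6) (node
  (nat_lit 6) (nat_lit 0) (nat_lit 7) (node (nat_lit 9) (nat_lit 0) (nat_lit 8) (node (nat_lit 5)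
  (nat_lit 43613) (nat_lit 9) (node (nat_lit 6) (nat_lit 44431) (nat_lit 10) (node (nat_lit 5)
  (nat_lit 45150) (nat_lit 11) (node (nat_lit 4) (nat_lit 47517) (nat_lit 12) (node (nat_lit 5)
  (nat_lit 41531) (nat_lit 13) (node (nat_lit 6) (nat_lit 37554) (nat_lit 14) (node (nat_lit 4)
  (nat_lit 34117) (nat_lit 15) (node (nat_lit 5) (nat_lit 27689) (nat_lit 16) nil nil) nil) nil)
  nil) nil) (node (nat_lit 4) (nat_lit 46793) (nat_lit 11) nil nil)) (node (nat_lit 4) (nat_lit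
  45980) (nat_lit 10) (node (nat_lit 6) (nat_lit 46599) (nat_lit 11) (node (nat_lit 5) (nat_lit
  43771) (nat_lit 12) nil nil) (node (nat_lit 5) (nat_lit 46698) (nat_lit 11) nil nil)) (node
  (nat_lit 9) (nat_lit 44431) (nat_lit 10) (node (nat_lit 6) (nat_lit 45150) (nat_lit 11) (node
  (nat_lit 5) (nat_lit 42222) (nat_lit 12) nil nil) (node (nat_lit 4) (nat_lit 45150) (nat_lit 11)
  nil nil)) (node (nat_lit 0) (nat_lit 44431) (nat_lit 10) nil nil)))) (node (nat_lit 4) (nat_lit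
  46467) (nat_lit 9) (node (nat_lit 6) (nat_lit 47285) (nat_lit 10) (node (nat_lit 5) (nat_lit
  48004) (nat_lit 11) (node (nat_lit 4) (nat_lit 48321) (nat_lit 12) (node (nat_lit 5) (nat_lit
  46594) (nat_lit 13) (node (nat_lit 6) (nat_lit 36683) (nat_lit 14) nil nil) nil) nil) (node
  (nat_lit 4) (nat_lit 48004) (nat_lit 11) nil nil)) (node (nat_lit 5) (nat_lit 47285) (nat_lit
  10) nil nil)) (node (nat_lit 0) (nat_lit 46467) (nat_lit 9) (node (nat_lit 6) (nat_lit 43866)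
  (nat_lit 10) nil nil) nil))) (node (nat_lit 5) (nat_lit 0) (nat_lit 8) (node (nat_lit 4)
  (nat_lit 45042) (nat_lit 9) (node (nat_lit 6) (nat_lit 45860) (nat_lit 10) nil (node (nat_lit 5)
  (nat_lit 35527) (nat_lit 10) (node (nat_lit 6) (nat_lit 27510) (nat_lit 11) nil nil) nil)) (node
  (nat_lit 9) (nat_lit 43613) (nat_lit 9) (node (nat_lit 5) (nat_lit 44431) (nat_lit 10) (node
  (nat_lit 6) (nat_lit 45150) (nat_lit 11) (node (nat_lit 5) (nat_lit 45868) (nat_lit 12) (node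
  (nat_lit 4) (nat_lit 45534) (nat_lit 13) nil nil) nil) nil) (node (nat_lit 4) (nat_lit 44431)
  (nat_lit 10) (node (nat_lit 6) (nat_lit 42360) (nat_lit 11) nil nil) nil)) (node (nat_lit 6)
  (nat_lit 43613) (nat_lit 9) (node (nat_lit 4) (nat_lit 45980) (nat_lit 10) (node (nat_lit 5)
  (nat_lit 46698) (nat_lit 11) nil nil) (node (nat_lit 9) (nat_lit 44431) (nat_lit 10) nil nil))
  (node (nat_lit 0) (nat_lit 43613) (nat_lit 9) nil nil)))) (node (nat_lit 4) (nat_lit 45669)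
  (nat_lit 8) (node (nat_lit 5) (nat_lit 47451) (nat_lit 9) (node (nat_lit 6) (nat_lit 45251)
  (nat_lit 10) nil nil) (node (nat_lit 6) (nat_lit 47451) (nat_lit 9) (node (nat_lit 5) (nat_lit
  47294) (nat_lit 10) (node (nat_lit 4) (nat_lit 46073) (nat_lit 11) (node (nat_lit 5) (nat_lit
  38667) (nat_lit 12) (node (nat_lit 6) (nat_lit 32152) (nat_lit 13) nil nil) nil) nil) nil) (node
  (nat_lit 9) (nat_lit 47451) (nat_lit 9) (node (nat_lit 5) (nat_lit 48269) (nat_lit 10) nil nil)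
  nil))) (node (nat_lit 0) (nat_lit 44547) (nat_lit 8) (node (nat_lit 6) (nat_lit 43015) (nat_lit
  9) nil (node (nat_lit 5) (nat_lit 46329) (nat_lit 9) nil (node (nat_lit 4) (nat_lit 46329)
  (nat_lit 9) nil nil))) nil)))) (node (nat_lit 4) (nat_lit 0) (nat_lit 7) (node (nat_lit 9)
  (nat_lit 0) (nat_lit 8) (node (nat_lit 5) (nat_lit 47816) (nat_lit 9) (node (nat_lit 4) (nat_lit
  49104) (nat_lit 10) (node (nat_lit 6) (nat_lit 49823) (nat_lit 11) (node (nat_lit 5) (nat_lit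
  50474) (nat_lit 12) nil nil) nil) (node (nat_lit 6) (nat_lit 48634) (nat_lit 10) (node (nat_lit
  4) (nat_lit 49352) (nat_lit 11) nil (node (nat_lit 5) (nat_lit 49352) (nat_lit 11) (node
  (nat_lit 4) (nat_lit 44186) (nat_lit 12) nil nil) nil)) (node (nat_lit 9) (nat_lit 48634)
  (nat_lit 10) nil (node (nat_lit 0) (nat_lit 48634) (nat_lit 10) nil nil)))) (node (nat_lit 6)
  (nat_lit 47816) (nat_lit 9) (node (nat_lit 4) (nat_lit 48634) (nat_lit 10) (node (nat_lit 6)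
  (nat_lit 46563) (nat_lit 11) (node (nat_lit 5) (nat_lit 46425) (nat_lit 12) (node (nat_lit 4)
  (nat_lit 46091) (nat_lit 13) nil nil) nil) (node (nat_lit 5) (nat_lit 49352) (nat_lit 11) nil
  nil)) (node (nat_lit 5) (nat_lit 47819) (nat_lit 10) (node (nat_lit 4) (nat_lit 46599) (nat_lit
  11) nil nil) nil)) (node (nat_lit 0) (nat_lit 47816) (nat_lit 9) (node (nat_lit 4) (nat_lit
  48634) (nat_lit 10) nil nil) nil))) (node (nat_lit 6) (nat_lit 46034) (nat_lit 8) (node (nat_lit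
  5) (nat_lit 47816) (nat_lit 9) (node (nat_lit 4) (nat_lit 43662) (nat_lit 10) (node (nat_lit 5)
  (nat_lit 39495) (nat_lit 11) (node (nat_lit 6) (nat_lit 32619) (nat_lit 12) (node (nat_lit 4)
  (nat_lit 22692) (nat_lit 13) nil nil) nil) nil) nil) (node (nat_lit 9) (nat_lit 47816) (nat_lit
  9) nil (node (nat_lit 4) (nat_lit 47816) (nat_lit 9) (node (nat_lit 5) (nat_lit 48634) (nat_lit
  10) nil nil) nil))) (node (nat_lit 5) (nat_lit 46034) (nat_lit 8) (node (nat_lit 4) (nat_lit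
  48167) (nat_lit 9) (node (nat_lit 6) (nat_lit 48984) (nat_lit 10) (node (nat_lit 5) (nat_lit
  49407) (nat_lit 11) nil nil) nil) (node (nat_lit 6) (nat_lit 47816) (nat_lit 9) (node (nat_lit
  4) (nat_lit 48634) (nat_lit 10) nil (node (nat_lit 5) (nat_lit 47819) (nat_lit 10) nil nil))
  nil)) (node (nat_lit 0) (nat_lit 46232) (nat_lit 8) (node (nat_lit 4) (nat_lit 48013) (nat_lit
  9) nil (node (nat_lit 5) (nat_lit 48013) (nat_lit 9) nil (node (nat_lit 6) (nat_lit 43770)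
  (nat_lit 9) nil nil))) nil)))) (node (nat_lit 0) (nat_lit 0) (nat_lit 7) (node (nat_lit 9)
  (nat_lit 0) (nat_lit 8) (node (nat_lit 5) (nat_lit 47816) (nat_lit 9) (node (nat_lit 10)
  (nat_lit 48634) (nat_lit 10) nil (node (nat_lit 4) (nat_lit 48634) (nat_lit 10) nil (node
  (nat_lit 6) (nat_lit 45732) (nat_lit 10) nil nil))) (node (nat_lit 6) (nat_lit 47816) (nat_lit
  9) (node (nat_lit 5) (nat_lit 47294) (nat_lit 10) nil (node (nat_lit 4) (nat_lit 48489) (nat_lit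
  10) nil nil)) (node (nat_lit 4) (nat_lit 47816) (nat_lit 9) (node (nat_lit 5) (nat_lit 48634)
  (nat_lit 10) nil (node (nat_lit 6) (nat_lit 45215) (nat_lit 10) nil nil)) (node (nat_lit 0)
  (nat_lit 47816) (nat_lit 9) nil nil)))) (node (nat_lit 5) (nat_lit 45477) (nat_lit 8) (node
  (nat_lit 10) (nat_lit 47259) (nat_lit 9) (node (nat_lit 9) (nat_lit 48076) (nat_lit 10) nil nil)
  (node (nat_lit 4) (nat_lit 47259) (nat_lit 9) nil (node (nat_lit 6) (nat_lit 47259) (nat_lit 9)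
  (node (nat_lit 5) (nat_lit 42815) (nat_lit 10) nil nil) (node (nat_lit 9) (nat_lit 47259)
  (nat_lit 9) nil nil)))) (node (nat_lit 6) (nat_lit 45116) (nat_lit 8) (node (nat_lit 4) (nat_lit
  46882) (nat_lit 9) nil (node (nat_lit 5) (nat_lit 44922) (nat_lit 9) nil nil)) (node (nat_lit 4)
  (nat_lit 46070) (nat_lit 8) (node (nat_lit 6) (nat_lit 47852) (nat_lit 9) (node (nat_lit 5)
  (nat_lit 42851) (nat_lit 10) nil nil) (node (nat_lit 5) (nat_lit 47852) (nat_lit 9) nil nil))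
  (node (nat_lit 0) (nat_lit 45477) (nat_lit 8) nil nil))))) (node (nat_lit 5) (nat_lit 0)
  (nat_lit 7) (node (nat_lit 6) (nat_lit 41831) (nat_lit 8) (node (nat_lit 4) (nat_lit 46093)
  (nat_lit 9) (node (nat_lit 6) (nat_lit 43492) (nat_lit 10) (node (nat_lit 5) (nat_lit 43187)
  (nat_lit 11) (node (nat_lit 4) (nat_lit 42462) (nat_lit 12) (node (nat_lit 5) (nat_lit 40185)
  (nat_lit 13) (node (nat_lit 6) (nat_lit 36951) (nat_lit 14) nil nil) nil) nil) nil) (node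
  (nat_lit 5) (nat_lit 46910) (nat_lit 10) nil nil)) (node (nat_lit 5) (nat_lit 43613) (nat_lit 9)
  (node (nat_lit 4) (nat_lit 43191) (nat_lit 10) (node (nat_lit 5) (nat_lit 32612) (nat_lit 11)
  nil nil) nil) (node (nat_lit 9) (nat_lit 43613) (nat_lit 9) nil nil))) (node (nat_lit 4)
  (nat_lit 46106) (nat_lit 8) (node (nat_lit 6) (nat_lit 47888) (nat_lit 9) (node (nat_lit 5)
  (nat_lit 47819) (nat_lit 10) (node (nat_lit 4) (nat_lit 41565) (nat_lit 11) nil nil) nil) (node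
  (nat_lit 5) (nat_lit 47888) (nat_lit 9) nil (node (nat_lit 9) (nat_lit 47888) (nat_lit 9) nil
  nil))) (node (nat_lit 0) (nat_lit 45464) (nat_lit 8) (node (nat_lit 5) (nat_lit 47246) (nat_lit
  9) nil (node (nat_lit 6) (nat_lit 43002) (nat_lit 9) nil (node (nat_lit 4) (nat_lit 47246)
  (nat_lit 9) nil (node (nat_lit 9) (nat_lit 47246) (nat_lit 9) nil nil)))) nil))) nil)))) (node
  (nat_lit 4) (nat_lit 0) (nat_lit 6) (node (nat_lit 0) (nat_lit 0) (nat_lit 7) (node (nat_lit 4)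
  (nat_lit 0) (nat_lit 8) (node (nat_lit 6) (nat_lit 48114) (nat_lit 9) (node (nat_lit 5) (nat_lit
  47621) (nat_lit 10) (node (nat_lit 4) (nat_lit 46683) (nat_lit 11) (node (nat_lit 5) (nat_lit
  44669) (nat_lit 12) (node (nat_lit 6) (nat_lit 34933) (nat_lit 13) (node (nat_lit 4) (nat_lit
  27302) (nat_lit 14) nil nil) nil) nil) nil) (node (nat_lit 4) (nat_lit 48932) (nat_lit 10) nil
  (node (nat_lit 10) (nat_lit 48932) (nat_lit 10) nil nil))) (node (nat_lit 5) (nat_lit 48114)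
  (nat_lit 9) (node (nat_lit 6) (nat_lit 48932) (nat_lit 10) (node (nat_lit 5) (nat_lit 49238)
  (nat_lit 11) nil nil) (node (nat_lit 10) (nat_lit 48932) (nat_lit 10) nil nil)) (node (nat_lit
  0) (nat_lit 48114) (nat_lit 9) (node (nat_lit 5) (nat_lit 48932) (nat_lit 10) nil (node (nat_lit
  4) (nat_lit 48932) (nat_lit 10) nil nil)) nil))) (node (nat_lit 5) (nat_lit 0) (nat_lit 8) (node
  (nat_lit 6) (nat_lit 46725) (nat_lit 9) (node (nat_lit 4) (nat_lit 47542) (nat_lit 10) nil (node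
  (nat_lit 5) (nat_lit 47542) (nat_lit 10) (node (nat_lit 4) (nat_lit 46683) (nat_lit 11) nil nil)
  nil)) (node (nat_lit 10) (nat_lit 46725) (nat_lit 9) (node (nat_lit 4) (nat_lit 47542) (nat_lit
  10) nil nil) (node (nat_lit 4) (nat_lit 47518) (nat_lit 9) (node (nat_lit 5) (nat_lit 48336)
  (nat_lit 10) nil nil) (node (nat_lit 0) (nat_lit 46725) (nat_lit 9) nil nil)))) (node (nat_lit
  6) (nat_lit 44946) (nat_lit 8) (node (nat_lit 4) (nat_lit 47518) (nat_lit 9) nil (node (nat_lit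
  10) (nat_lit 46728) (nat_lit 9) nil (node (nat_lit 5) (nat_lit 46728) (nat_lit 9) (node (nat_lit
  4) (nat_lit 43662) (nat_lit 10) nil nil) nil))) (node (nat_lit 0) (nat_lit 46291) (nat_lit 8)
  (node (nat_lit 4) (nat_lit 48073) (nat_lit 9) nil (node (nat_lit 10) (nat_lit 48073) (nat_lit 9)
  nil nil)) nil)))) (node (nat_lit 6) (nat_lit 0) (nat_lit 7) (node (nat_lit 0) (nat_lit 43824)
  (nat_lit 8) (node (nat_lit 4) (nat_lit 47903) (nat_lit 9) (node (nat_lit 6) (nat_lit 48720)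
  (nat_lit 10) (node (nat_lit 5) (nat_lit 48330) (nat_lit 11) (node (nat_lit 4) (nat_lit 47740)
  (nat_lit 12) nil nil) nil) nil) (node (nat_lit 6) (nat_lit 45606) (nat_lit 9) (node (nat_lit 4)
  (nat_lit 46424) (nat_lit 10) nil nil) (node (nat_lit 5) (nat_lit 45606) (nat_lit 9) (node
  (nat_lit 6) (nat_lit 45201) (nat_lit 10) (node (nat_lit 5) (nat_lit 42700) (nat_lit 11) nil nil)
  nil) nil))) (node (nat_lit 5) (nat_lit 39146) (nat_lit 8) (node (nat_lit 4) (nat_lit 44644)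
  (nat_lit 9) (node (nat_lit 5) (nat_lit 44003) (nat_lit 10) (node (nat_lit 6) (nat_lit 35089)
  (nat_lit 11) nil nil) nil) (node (nat_lit 0) (nat_lit 41673) (nat_lit 9) nil nil)) nil)) nil))
  nil)) (node (nat_lit 0) (nat_lit 0) (nat_lit 5) (node (nat_lit 6) (nat_lit 0) (nat_lit 6) (node
  (nat_lit 5) (nat_lit 80126) (nat_lit 7) (node (nat_lit 4) (nat_lit 72193) (nat_lit 8) (node
  (nat_lit 6) (nat_lit 72495) (nat_lit 9) (node (nat_lit 4) (nat_lit 70395) (nat_lit 10) (node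
  (nat_lit 5) (nat_lit 67628) (nat_lit 11) (node (nat_lit 6) (nat_lit 58879) (nat_lit 12) (node
  (nat_lit 4) (nat_lit 48053) (nat_lit 13) nil nil) nil) nil) (node (nat_lit 5) (nat_lit 74276)
  (nat_lit 10) nil nil)) (node (nat_lit 5) (nat_lit 57649) (nat_lit 9) (node (nat_lit 6) (nat_lit
  46621) (nat_lit 10) (node (nat_lit 4) (nat_lit 21323) (nat_lit 11) (node (nat_lit 8) (nat_lit
  13069) (nat_lit 12) nil nil) nil) nil) nil)) (node (nat_lit 6) (nat_lit 83853) (nat_lit 8) (node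
  (nat_lit 4) (nat_lit 86196) (nat_lit 9) nil nil) (node (nat_lit 8) (nat_lit 83853) (nat_lit 8)
  nil nil))) (node (nat_lit 4) (nat_lit 65622) (nat_lit 7) (node (nat_lit 5) (nat_lit 85655)
  (nat_lit 8) (node (nat_lit 4) (nat_lit 84449) (nat_lit 9) (node (nat_lit 6) (nat_lit 81435)
  (nat_lit 10) (node (nat_lit 4) (nat_lit 79301) (nat_lit 11) nil nil) nil) (node (nat_lit 6)
  (nat_lit 83754) (nat_lit 9) (node (nat_lit 5) (nat_lit 83960) (nat_lit 10) (node (nat_lit 4)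
  (nat_lit 79798) (nat_lit 11) nil nil) nil) nil)) (node (nat_lit 6) (nat_lit 69350) (nat_lit 8)
  (node (nat_lit 5) (nat_lit 84353) (nat_lit 9) (node (nat_lit 4) (nat_lit 79742) (nat_lit 10)
  (node (nat_lit 5) (nat_lit 65236) (nat_lit 11) (node (nat_lit 6) (nat_lit 56930) (nat_lit 12)
  (node (nat_lit 4) (nat_lit 47574) (nat_lit 13) nil nil) nil) nil) nil) (node (nat_lit 8)
  (nat_lit 71693) (nat_lit 9) nil nil)) nil)) (node (nat_lit 8) (nat_lit 0) (nat_lit 7) (node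
  (nat_lit 4) (nat_lit 69350) (nat_lit 8) (node (nat_lit 6) (nat_lit 71681) (nat_lit 9) (node
  (nat_lit 4) (nat_lit 69769) (nat_lit 10) (node (nat_lit 5) (nat_lit 61576) (nat_lit 11) (node
  (nat_lit 6) (nat_lit 59993) (nat_lit 12) nil nil) nil) (node (nat_lit 5) (nat_lit 77716)
  (nat_lit 10) (node (nat_lit 4) (nat_lit 67736) (nat_lit 11) nil nil) nil)) (node (nat_lit 5)
  (nat_lit 83849) (nat_lit 9) nil nil)) (node (nat_lit 5) (nat_lit 86548) (nat_lit 8) (node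
  (nat_lit 4) (nat_lit 84447) (nat_lit 9) nil (node (nat_lit 6) (nat_lit 84818) (nat_lit 9) nil
  nil)) (node (nat_lit 0) (nat_lit 85239) (nat_lit 8) nil nil))) (node (nat_lit 0) (nat_lit 79519)
  (nat_lit 7) nil nil)))) (node (nat_lit 5) (nat_lit 0) (nat_lit 6) (node (nat_lit 6) (nat_lit
  81411) (nat_lit 7) (node (nat_lit 4) (nat_lit 85139) (nat_lit 8) (node (nat_lit 6) (nat_lit
  83238) (nat_lit 9) (node (nat_lit 5) (nat_lit 83444) (nat_lit 10) (node (nat_lit 4) (nat_lit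
  79282) (nat_lit 11) (node (nat_lit 5) (nat_lit 77592) (nat_lit 12) nil nil) nil) nil) (node
  (nat_lit 5) (nat_lit 87481) (nat_lit 9) nil nil)) (node (nat_lit 5) (nat_lit 85597) (nat_lit 8)
  (node (nat_lit 4) (nat_lit 81356) (nat_lit 9) (node (nat_lit 5) (nat_lit 70414) (nat_lit 10)
  (node (nat_lit 6) (nat_lit 48340) (nat_lit 11) (node (nat_lit 4) (nat_lit 31333) (nat_lit 12)
  nil nil) nil) (node (nat_lit 6) (nat_lit 81644) (nat_lit 10) nil nil)) nil) (node (nat_lit 8)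
  (nat_lit 85139) (nat_lit 8) nil nil))) (node (nat_lit 8) (nat_lit 81411) (nat_lit 7) (node
  (nat_lit 6) (nat_lit 85139) (nat_lit 8) (node (nat_lit 5) (nat_lit 87799) (nat_lit 9) (node
  (nat_lit 4) (nat_lit 82119) (nat_lit 10) (node (nat_lit 5) (nat_lit 72370) (nat_lit 11) nil nil)
  nil) nil) (node (nat_lit 4) (nat_lit 85161) (nat_lit 8) (node (nat_lit 6) (nat_lit 83259)
  (nat_lit 9) (node (nat_lit 4) (nat_lit 73301) (nat_lit 10) (node (nat_lit 5) (nat_lit 69559)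
  (nat_lit 11) nil nil) (node (nat_lit 5) (nat_lit 83466) (nat_lit 10) (node (nat_lit 4) (nat_lit
  79304) (nat_lit 11) nil nil) nil)) nil) nil)) (node (nat_lit 4) (nat_lit 81411) (nat_lit 7)
  (node (nat_lit 6) (nat_lit 83799) (nat_lit 8) (node (nat_lit 5) (nat_lit 83840) (nat_lit 9)
  (node (nat_lit 4) (nat_lit 76793) (nat_lit 10) (node (nat_lit 5) (nat_lit 73051) (nat_lit 11)
  (node (nat_lit 6) (nat_lit 65720) (nat_lit 12) nil nil) nil) (node (nat_lit 6) (nat_lit 85621)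
  (nat_lit 10) (node (nat_lit 4) (nat_lit 87188) (nat_lit 11) nil nil) nil)) (node (nat_lit 4)
  (nat_lit 80507) (nat_lit 9) (node (nat_lit 5) (nat_lit 75326) (nat_lit 10) (node (nat_lit 6)
  (nat_lit 60775) (nat_lit 11) nil nil) nil) nil)) (node (nat_lit 5) (nat_lit 85139) (nat_lit 8)
  nil nil)) (node (nat_lit 0) (nat_lit 80934) (nat_lit 7) nil nil)))) (node (nat_lit 4) (nat_lit
  0) (nat_lit 6) (node (nat_lit 6) (nat_lit 65622) (nat_lit 7) (node (nat_lit 5) (nat_lit 75264)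
  (nat_lit 8) (node (nat_lit 4) (nat_lit 71965) (nat_lit 9) (node (nat_lit 5) (nat_lit 62926)
  (nat_lit 10) (node (nat_lit 6) (nat_lit 55577) (nat_lit 11) (node (nat_lit 4) (nat_lit 35544)
  (nat_lit 12) nil nil) nil) (node (nat_lit 6) (nat_lit 72370) (nat_lit 10) (node (nat_lit 4)
  (nat_lit 71130) (nat_lit 11) nil nil) nil)) nil) (node (nat_lit 4) (nat_lit 58966) (nat_lit 8)
  (node (nat_lit 5) (nat_lit 60040) (nat_lit 9) (node (nat_lit 6) (nat_lit 53093) (nat_lit 10)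
  (node (nat_lit 4) (nat_lit 35275) (nat_lit 11) nil nil) nil) nil) (node (nat_lit 8) (nat_lit
  69350) (nat_lit 8) nil nil))) (node (nat_lit 5) (nat_lit 81416) (nat_lit 7) (node (nat_lit 6)
  (nat_lit 85144) (nat_lit 8) (node (nat_lit 5) (nat_lit 81169) (nat_lit 9) (node (nat_lit 4)
  (nat_lit 75490) (nat_lit 10) (node (nat_lit 5) (nat_lit 71716) (nat_lit 11) (node (nat_lit 6)
  (nat_lit 63859) (nat_lit 12) (node (nat_lit 4) (nat_lit 51956) (nat_lit 13) nil nil) nil) nil)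
  nil) (node (nat_lit 4) (nat_lit 87486) (nat_lit 9) nil nil)) (node (nat_lit 4) (nat_lit 80867)
  (nat_lit 8) (node (nat_lit 6) (nat_lit 76925) (nat_lit 9) (node (nat_lit 4) (nat_lit 73283)
  (nat_lit 10) nil nil) nil) nil)) (node (nat_lit 0) (nat_lit 65501) (nat_lit 7) nil nil))) (node
  (nat_lit 0) (nat_lit 0) (nat_lit 6) (node (nat_lit 6) (nat_lit 78935) (nat_lit 7) (node (nat_lit
  5) (nat_lit 82607) (nat_lit 8) (node (nat_lit 4) (nat_lit 75073) (nat_lit 9) (node (nat_lit 5)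
  (nat_lit 52844) (nat_lit 10) nil nil) nil) (node (nat_lit 4) (nat_lit 82663) (nat_lit 8) (node
  (nat_lit 6) (nat_lit 80762) (nat_lit 9) nil (node (nat_lit 5) (nat_lit 85006) (nat_lit 9) nil
  nil)) nil)) (node (nat_lit 4) (nat_lit 78990) (nat_lit 7) (node (nat_lit 6) (nat_lit 80969)
  (nat_lit 8) (node (nat_lit 4) (nat_lit 68353) (nat_lit 9) (node (nat_lit 5) (nat_lit 64801)
  (nat_lit 10) nil nil) (node (nat_lit 5) (nat_lit 75677) (nat_lit 9) nil nil)) (node (nat_lit 5)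
  (nat_lit 82718) (nat_lit 8) nil nil)) (node (nat_lit 5) (nat_lit 82279) (nat_lit 7) (node
  (nat_lit 4) (nat_lit 86007) (nat_lit 8) (node (nat_lit 6) (nat_lit 76247) (nat_lit 9) nil nil)
  (node (nat_lit 6) (nat_lit 86007) (nat_lit 8) (node (nat_lit 4) (nat_lit 88349) (nat_lit 9) nil
  nil) nil)) (node (nat_lit 8) (nat_lit 79545) (nat_lit 7) nil (node (nat_lit 0) (nat_lit 79545)
  (nat_lit 7) nil nil))))) nil)))) nil))

noncomputable def t373 : Tr :=
  (node (nat_lit 0) (nat_lit 0) (nat_lit 6) (node (nat_lit 6) (nat_lit 0) (nat_lit 7) (node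
  (nat_lit 9) (nat_lit 0) (nat_lit 8) (node (nat_lit 4) (nat_lit 149344) (nat_lit 9) (node
  (nat_lit 6) (nat_lit 147058) (nat_lit 10) (node (nat_lit 4) (nat_lit 148128) (nat_lit 11) (node
  (nat_lit 5) (nat_lit 146038) (nat_lit 12) (node (nat_lit 6) (nat_lit 140248) (nat_lit 13) (node
  (nat_lit 5) (nat_lit 133651) (nat_lit 14) (node (nat_lit 4) (nat_lit 121333) (nat_lit 15) (node
  (nat_lit 9) (nat_lit 64017) (nat_lit 16) (node (nat_lit 6) (nat_lit 63107) (nat_lit 17) nil nil)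
  nil) nil) nil) nil) nil) (node (nat_lit 5) (nat_lit 143642) (nat_lit 11) (node (nat_lit 4)
  (nat_lit 141740) (nat_lit 12) (node (nat_lit 5) (nat_lit 139826) (nat_lit 13) (node (nat_lit 6)
  (nat_lit 136281) (nat_lit 14) (node (nat_lit 5) (nat_lit 132248) (nat_lit 15) nil nil) nil) nil)
  (node (nat_lit 6) (nat_lit 144301) (nat_lit 12) (node (nat_lit 4) (nat_lit 144896) (nat_lit 13)
  (node (nat_lit 5) (nat_lit 143607) (nat_lit 14) nil nil) nil) nil)) nil)) (node (nat_lit 5)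
  (nat_lit 150634) (nat_lit 10) nil nil)) (node (nat_lit 5) (nat_lit 146333) (nat_lit 9) (node
  (nat_lit 6) (nat_lit 143143) (nat_lit 10) (node (nat_lit 4) (nat_lit 143250) (nat_lit 11) (node
  (nat_lit 5) (nat_lit 140387) (nat_lit 12) (node (nat_lit 6) (nat_lit 131968) (nat_lit 13) (node
  (nat_lit 5) (nat_lit 117088) (nat_lit 14) (node (nat_lit 4) (nat_lit 104771) (nat_lit 15) nil
  nil) nil) nil) nil) (node (nat_lit 5) (nat_lit 143553) (nat_lit 11) (node (nat_lit 4) (nat_lit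
  141651) (nat_lit 12) (node (nat_lit 5) (nat_lit 139737) (nat_lit 13) nil nil) nil) nil)) (node
  (nat_lit 4) (nat_lit 144534) (nat_lit 10) nil nil)) (node (nat_lit 0) (nat_lit 147390) (nat_lit
  9) nil nil))) (node (nat_lit 5) (nat_lit 145608) (nat_lit 8) (node (nat_lit 4) (nat_lit 145592)
  (nat_lit 9) (node (nat_lit 5) (nat_lit 125933) (nat_lit 10) (node (nat_lit 6) (nat_lit 117202)
  (nat_lit 11) (node (nat_lit 5) (nat_lit 88460) (nat_lit 12) (node (nat_lit 4) (nat_lit 87265)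
  (nat_lit 13) (node (nat_lit 9) (nat_lit 87752) (nat_lit 14) nil nil) nil) nil) nil) (node
  (nat_lit 6) (nat_lit 146488) (nat_lit 10) (node (nat_lit 4) (nat_lit 146594) (nat_lit 11) (node
  (nat_lit 5) (nat_lit 143004) (nat_lit 12) nil nil) nil) nil)) (node (nat_lit 9) (nat_lit 147390)
  (nat_lit 9) nil (node (nat_lit 6) (nat_lit 148390) (nat_lit 9) (node (nat_lit 4) (nat_lit
  148633) (nat_lit 10) (node (nat_lit 5) (nat_lit 143558) (nat_lit 11) nil nil) nil) nil))) (node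
  (nat_lit 4) (nat_lit 146809) (nat_lit 8) (node (nat_lit 6) (nat_lit 144520) (nat_lit 9) (node
  (nat_lit 5) (nat_lit 143588) (nat_lit 10) (node (nat_lit 4) (nat_lit 140976) (nat_lit 11) (node
  (nat_lit 5) (nat_lit 138114) (nat_lit 12) (node (nat_lit 6) (nat_lit 132221) (nat_lit 13) (node
  (nat_lit 5) (nat_lit 119044) (nat_lit 14) nil nil) nil) nil) (node (nat_lit 6) (nat_lit 144306)
  (nat_lit 11) nil nil)) nil) (node (nat_lit 9) (nat_lit 148764) (nat_lit 9) (node (nat_lit 4)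
  (nat_lit 149089) (nat_lit 10) (node (nat_lit 6) (nat_lit 146869) (nat_lit 11) (node (nat_lit 4)
  (nat_lit 147310) (nat_lit 12) (node (nat_lit 5) (nat_lit 145396) (nat_lit 13) (node (nat_lit 6)
  (nat_lit 141850) (nat_lit 14) nil nil) nil) nil) nil) nil) (node (nat_lit 5) (nat_lit 148764)
  (nat_lit 9) nil nil))) (node (nat_lit 0) (nat_lit 145608) (nat_lit 8) (node (nat_lit 6) (nat_lit
  143147) (nat_lit 9) nil (node (nat_lit 4) (nat_lit 146126) (nat_lit 9) nil (node (nat_lit 5)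
  (nat_lit 146126) (nat_lit 9) nil nil))) nil)))) (node (nat_lit 5) (nat_lit 0) (nat_lit 7) (node
  (nat_lit 9) (nat_lit 0) (nat_lit 8) (node (nat_lit 6) (nat_lit 148529) (nat_lit 9) (node
  (nat_lit 5) (nat_lit 146622) (nat_lit 10) (node (nat_lit 4) (nat_lit 143806) (nat_lit 11) (node
  (nat_lit 5) (nat_lit 140943) (nat_lit 12) (node (nat_lit 6) (nat_lit 136026) (nat_lit 13) (node
  (nat_lit 5) (nat_lit 124304) (nat_lit 14) (node (nat_lit 4) (nat_lit 117227) (nat_lit 15) (node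
  (nat_lit 9) (nat_lit 92409) (nat_lit 16) nil nil) nil) nil) nil) (node (nat_lit 6) (nat_lit
  144465) (nat_lit 12) nil nil)) (node (nat_lit 6) (nat_lit 144401) (nat_lit 11) (node (nat_lit 4)
  (nat_lit 144842) (nat_lit 12) (node (nat_lit 5) (nat_lit 142927) (nat_lit 13) nil nil) nil)
  nil)) (node (nat_lit 4) (nat_lit 149347) (nat_lit 10) nil nil)) (node (nat_lit 4) (nat_lit
  149439) (nat_lit 9) (node (nat_lit 5) (nat_lit 150257) (nat_lit 10) (node (nat_lit 6) (nat_lit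
  148186) (nat_lit 11) (node (nat_lit 5) (nat_lit 147942) (nat_lit 12) (node (nat_lit 4) (nat_lit
  147914) (nat_lit 13) nil nil) nil) nil) (node (nat_lit 6) (nat_lit 144253) (nat_lit 10) (node
  (nat_lit 5) (nat_lit 141740) (nat_lit 11) (node (nat_lit 4) (nat_lit 139839) (nat_lit 12) (node
  (nat_lit 5) (nat_lit 137925) (nat_lit 13) nil nil) nil) (node (nat_lit 4) (nat_lit 138365)
  (nat_lit 11) (node (nat_lit 5) (nat_lit 135503) (nat_lit 12) nil nil) nil)) nil)) (node (nat_lit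
  0) (nat_lit 147529) (nat_lit 9) nil nil))) (node (nat_lit 6) (nat_lit 145747) (nat_lit 8) (node
  (nat_lit 4) (nat_lit 147529) (nat_lit 9) (node (nat_lit 5) (nat_lit 145533) (nat_lit 10) (node
  (nat_lit 6) (nat_lit 116796) (nat_lit 11) (node (nat_lit 5) (nat_lit 85446) (nat_lit 12) (node
  (nat_lit 4) (nat_lit 62307) (nat_lit 13) (node (nat_lit 9) (nat_lit 22112) (nat_lit 14) nil nil)
  nil) nil) (node (nat_lit 4) (nat_lit 144178) (nat_lit 11) nil nil)) (node (nat_lit 6) (nat_lit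
  144929) (nat_lit 10) nil nil)) (node (nat_lit 5) (nat_lit 147153) (nat_lit 9) (node (nat_lit 4)
  (nat_lit 143476) (nat_lit 10) (node (nat_lit 6) (nat_lit 144046) (nat_lit 11) (node (nat_lit 4)
  (nat_lit 144487) (nat_lit 12) (node (nat_lit 5) (nat_lit 142572) (nat_lit 13) nil nil) nil)
  (node (nat_lit 5) (nat_lit 136180) (nat_lit 11) nil nil)) nil) (node (nat_lit 9) (nat_lit
  147529) (nat_lit 9) nil nil))) (node (nat_lit 4) (nat_lit 146964) (nat_lit 8) (node (nat_lit 6)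
  (nat_lit 144520) (nat_lit 9) (node (nat_lit 5) (nat_lit 141429) (nat_lit 10) (node (nat_lit 4)
  (nat_lit 141535) (nat_lit 11) nil nil) (node (nat_lit 4) (nat_lit 142440) (nat_lit 10) (node
  (nat_lit 5) (nat_lit 137365) (nat_lit 11) nil nil) nil)) (node (nat_lit 5) (nat_lit 148764)
  (nat_lit 9) (node (nat_lit 6) (nat_lit 146163) (nat_lit 10) (node (nat_lit 4) (nat_lit 146882)
  (nat_lit 11) nil nil) nil) nil)) (node (nat_lit 0) (nat_lit 145747) (nat_lit 8) (node (nat_lit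
  5) (nat_lit 147529) (nat_lit 9) nil (node (nat_lit 4) (nat_lit 147529) (nat_lit 9) nil (node
  (nat_lit 6) (nat_lit 143286) (nat_lit 9) nil nil))) nil)))) (node (nat_lit 0) (nat_lit 0)
  (nat_lit 7) (node (nat_lit 9) (nat_lit 0) (nat_lit 8) (node (nat_lit 4) (nat_lit 146884)
  (nat_lit 9) (node (nat_lit 10) (nat_lit 148174) (nat_lit 10) nil (node (nat_lit 6) (nat_lit
  143695) (nat_lit 10) nil (node (nat_lit 5) (nat_lit 148174) (nat_lit 10) nil nil))) (node
  (nat_lit 6) (nat_lit 143113) (nat_lit 9) (node (nat_lit 5) (nat_lit 142180) (nat_lit 10) nil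
  (node (nat_lit 4) (nat_lit 143931) (nat_lit 10) nil nil)) (node (nat_lit 5) (nat_lit 146884)
  (nat_lit 9) (node (nat_lit 6) (nat_lit 143695) (nat_lit 10) nil (node (nat_lit 4) (nat_lit
  145086) (nat_lit 10) nil nil)) (node (nat_lit 0) (nat_lit 147357) (nat_lit 9) nil nil)))) (node
  (nat_lit 4) (nat_lit 0) (nat_lit 8) (node (nat_lit 6) (nat_lit 145288) (nat_lit 9) (node
  (nat_lit 4) (nat_lit 141443) (nat_lit 10) nil (node (nat_lit 5) (nat_lit 142197) (nat_lit 10)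
  nil nil)) (node (nat_lit 5) (nat_lit 148719) (nat_lit 9) nil (node (nat_lit 10) (nat_lit 148719)
  (nat_lit 9) nil (node (nat_lit 9) (nat_lit 148719) (nat_lit 9) nil (node (nat_lit 0) (nat_lit
  148719) (nat_lit 9) nil nil))))) (node (nat_lit 6) (nat_lit 143694) (nat_lit 8) (node (nat_lit
  5) (nat_lit 141952) (nat_lit 9) (node (nat_lit 4) (nat_lit 137785) (nat_lit 10) (node (nat_lit
  5) (nat_lit 126270) (nat_lit 11) nil nil) (node (nat_lit 6) (nat_lit 140046) (nat_lit 10) nil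
  nil)) (node (nat_lit 4) (nat_lit 145476) (nat_lit 9) nil (node (nat_lit 9) (nat_lit 145476)
  (nat_lit 9) nil (node (nat_lit 10) (nat_lit 145476) (nat_lit 9) nil nil)))) (node (nat_lit 5)
  (nat_lit 144441) (nat_lit 8) (node (nat_lit 6) (nat_lit 145288) (nat_lit 9) (node (nat_lit 4)
  (nat_lit 141709) (nat_lit 10) nil nil) (node (nat_lit 4) (nat_lit 146223) (nat_lit 9) (node
  (nat_lit 5) (nat_lit 147041) (nat_lit 10) nil nil) (node (nat_lit 9) (nat_lit 146223) (nat_lit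
  9) nil (node (nat_lit 10) (nat_lit 146223) (nat_lit 9) nil nil)))) (node (nat_lit 0) (nat_lit
  145882) (nat_lit 8) (node (nat_lit 10) (nat_lit 147664) (nat_lit 9) nil nil) nil))))) (node
  (nat_lit 4) (nat_lit 0) (nat_lit 7) (node (nat_lit 6) (nat_lit 147420) (nat_lit 8) (node
  (nat_lit 5) (nat_lit 150028) (nat_lit 9) (node (nat_lit 4) (nat_lit 149290) (nat_lit 10) (node
  (nat_lit 5) (nat_lit 139590) (nat_lit 11) (node (nat_lit 6) (nat_lit 125708) (nat_lit 12) (node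
  (nat_lit 5) (nat_lit 104807) (nat_lit 13) nil nil) nil) nil) (node (nat_lit 6) (nat_lit 150552)
  (nat_lit 10) (node (nat_lit 4) (nat_lit 150659) (nat_lit 11) (node (nat_lit 5) (nat_lit 142530)
  (nat_lit 12) nil nil) nil) nil)) (node (nat_lit 4) (nat_lit 150012) (nat_lit 9) (node (nat_lit
  5) (nat_lit 147720) (nat_lit 10) (node (nat_lit 6) (nat_lit 130246) (nat_lit 11) (node (nat_lit
  5) (nat_lit 94280) (nat_lit 12) (node (nat_lit 4) (nat_lit 24181) (nat_lit 13) (node (nat_lit 9)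
  (nat_lit 24594) (nat_lit 14) nil nil) nil) nil) nil) nil) (node (nat_lit 9) (nat_lit 150012)
  (nat_lit 9) nil nil))) (node (nat_lit 5) (nat_lit 147185) (nat_lit 8) (node (nat_lit 6) (nat_lit
  144723) (nat_lit 9) (node (nat_lit 5) (nat_lit 143791) (nat_lit 10) (node (nat_lit 4) (nat_lit
  143049) (nat_lit 11) nil nil) (node (nat_lit 4) (nat_lit 145541) (nat_lit 10) nil nil)) (node
  (nat_lit 4) (nat_lit 147996) (nat_lit 9) (node (nat_lit 6) (nat_lit 144807) (nat_lit 10) nil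
  nil) (node (nat_lit 9) (nat_lit 148967) (nat_lit 9) nil nil))) (node (nat_lit 0) (nat_lit
  147185) (nat_lit 8) (node (nat_lit 4) (nat_lit 147996) (nat_lit 9) nil (node (nat_lit 6)
  (nat_lit 144723) (nat_lit 9) nil (node (nat_lit 5) (nat_lit 147996) (nat_lit 9) nil nil)))
  nil))) nil)))) (node (nat_lit 6) (nat_lit 0) (nat_lit 6) (node (nat_lit 0) (nat_lit 0) (nat_lit
  7) (node (nat_lit 6) (nat_lit 0) (nat_lit 8) (node (nat_lit 5) (nat_lit 147433) (nat_lit 9)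
  (node (nat_lit 4) (nat_lit 143921) (nat_lit 10) (node (nat_lit 5) (nat_lit 140070) (nat_lit 11)
  (node (nat_lit 6) (nat_lit 118766) (nat_lit 12) (node (nat_lit 5) (nat_lit 107626) (nat_lit 13)
  (node (nat_lit 4) (nat_lit 90355) (nat_lit 14) (node (nat_lit 6) (nat_lit 85449) (nat_lit 15)
  nil nil) nil) nil) nil) (node (nat_lit 6) (nat_lit 144491) (nat_lit 11) nil nil)) (node (nat_lit
  10) (nat_lit 148250) (nat_lit 10) nil (node (nat_lit 6) (nat_lit 148149) (nat_lit 10) (node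
  (nat_lit 4) (nat_lit 148626) (nat_lit 11) nil nil) (node (nat_lit 0) (nat_lit 148250) (nat_lit
  10) nil nil)))) (node (nat_lit 4) (nat_lit 146433) (nat_lit 9) (node (nat_lit 10) (nat_lit
  147250) (nat_lit 10) (node (nat_lit 6) (nat_lit 145179) (nat_lit 11) (node (nat_lit 5) (nat_lit
  144935) (nat_lit 12) (node (nat_lit 4) (nat_lit 144907) (nat_lit 13) (node (nat_lit 5) (nat_lit
  143745) (nat_lit 14) (node (nat_lit 6) (nat_lit 140228) (nat_lit 15) nil nil) nil) nil) nil)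
  nil) (node (nat_lit 5) (nat_lit 147250) (nat_lit 10) nil nil)) (node (nat_lit 0) (nat_lit
  146433) (nat_lit 9) (node (nat_lit 4) (nat_lit 147250) (nat_lit 10) nil (node (nat_lit 6)
  (nat_lit 143832) (nat_lit 10) nil (node (nat_lit 5) (nat_lit 147250) (nat_lit 10) nil nil)))
  nil))) (node (nat_lit 4) (nat_lit 0) (nat_lit 8) (node (nat_lit 6) (nat_lit 144760) (nat_lit 9)
  (node (nat_lit 4) (nat_lit 144528) (nat_lit 10) (node (nat_lit 5) (nat_lit 133948) (nat_lit 11)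
  (node (nat_lit 6) (nat_lit 125197) (nat_lit 12) (node (nat_lit 5) (nat_lit 112250) (nat_lit 13)
  nil nil) nil) nil) (node (nat_lit 5) (nat_lit 140841) (nat_lit 10) nil nil)) (node (nat_lit 10)
  (nat_lit 149133) (nat_lit 9) nil (node (nat_lit 5) (nat_lit 149133) (nat_lit 9) nil (node
  (nat_lit 0) (nat_lit 149133) (nat_lit 9) nil nil)))) (node (nat_lit 5) (nat_lit 143437) (nat_lit
  8) (node (nat_lit 6) (nat_lit 144760) (nat_lit 9) (node (nat_lit 5) (nat_lit 143985) (nat_lit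
  10) nil (node (nat_lit 4) (nat_lit 144528) (nat_lit 10) nil nil)) (node (nat_lit 4) (nat_lit
  145219) (nat_lit 9) nil (node (nat_lit 10) (nat_lit 145219) (nat_lit 9) nil nil))) (node
  (nat_lit 0) (nat_lit 144277) (nat_lit 8) (node (nat_lit 6) (nat_lit 141815) (nat_lit 9) nil
  (node (nat_lit 10) (nat_lit 146059) (nat_lit 9) nil (node (nat_lit 4) (nat_lit 146059) (nat_lit
  9) nil nil))) nil)))) (node (nat_lit 5) (nat_lit 0) (nat_lit 7) (node (nat_lit 0) (nat_lit 0)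
  (nat_lit 8) (node (nat_lit 6) (nat_lit 145135) (nat_lit 9) (node (nat_lit 5) (nat_lit 147069)
  (nat_lit 10) (node (nat_lit 4) (nat_lit 148253) (nat_lit 11) (node (nat_lit 5) (nat_lit 140731)
  (nat_lit 12) nil (node (nat_lit 6) (nat_lit 147056) (nat_lit 12) nil nil)) (node (nat_lit 6)
  (nat_lit 144060) (nat_lit 11) (node (nat_lit 4) (nat_lit 144501) (nat_lit 12) nil nil) nil))
  nil) (node (nat_lit 5) (nat_lit 145089) (nat_lit 9) (node (nat_lit 6) (nat_lit 144330) (nat_lit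
  10) (node (nat_lit 11) (nat_lit 145049) (nat_lit 11) nil nil) nil) (node (nat_lit 4) (nat_lit
  146931) (nat_lit 9) (node (nat_lit 5) (nat_lit 147749) (nat_lit 10) nil nil) (node (nat_lit 0)
  (nat_lit 146104) (nat_lit 9) nil nil)))) (node (nat_lit 6) (nat_lit 0) (nat_lit 8) (node
  (nat_lit 0) (nat_lit 138583) (nat_lit 9) (node (nat_lit 4) (nat_lit 141844) (nat_lit 10) (node
  (nat_lit 5) (nat_lit 145075) (nat_lit 11) nil nil) (node (nat_lit 6) (nat_lit 139053) (nat_lit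
  10) nil (node (nat_lit 5) (nat_lit 138383) (nat_lit 10) nil nil))) nil) nil)) (node (nat_lit 4)
  (nat_lit 0) (nat_lit 7) (node (nat_lit 0) (nat_lit 0) (nat_lit 8) (node (nat_lit 6) (nat_lit
  146841) (nat_lit 9) (node (nat_lit 4) (nat_lit 148211) (nat_lit 10) (node (nat_lit 6) (nat_lit
  146140) (nat_lit 11) nil nil) (node (nat_lit 5) (nat_lit 139629) (nat_lit 10) nil (node (nat_lit
  11) (nat_lit 148211) (nat_lit 10) nil nil))) (node (nat_lit 4) (nat_lit 146270) (nat_lit 9)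
  (node (nat_lit 6) (nat_lit 146011) (nat_lit 10) (node (nat_lit 11) (nat_lit 146730) (nat_lit 11)
  nil nil) nil) (node (nat_lit 5) (nat_lit 144896) (nat_lit 9) (node (nat_lit 4) (nat_lit 143098)
  (nat_lit 10) (node (nat_lit 5) (nat_lit 144665) (nat_lit 11) nil nil) nil) (node (nat_lit 0)
  (nat_lit 142881) (nat_lit 9) nil nil)))) (node (nat_lit 5) (nat_lit 0) (nat_lit 8) (node
  (nat_lit 4) (nat_lit 0) (nat_lit 9) (node (nat_lit 6) (nat_lit 128110) (nat_lit 10) nil (node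
  (nat_lit 0) (nat_lit 132681) (nat_lit 10) nil nil)) (node (nat_lit 0) (nat_lit 127209) (nat_lit
  9) nil (node (nat_lit 6) (nat_lit 0) (nat_lit 9) (node (nat_lit 0) (nat_lit 86553) (nat_lit 10)
  nil nil) nil))) nil)) nil))) (node (nat_lit 5) (nat_lit 0) (nat_lit 6) (node (nat_lit 0)
  (nat_lit 0) (nat_lit 7) (node (nat_lit 5) (nat_lit 0) (nat_lit 8) (node (nat_lit 6) (nat_lit
  86757) (nat_lit 9) (node (nat_lit 4) (nat_lit 89523) (nat_lit 10) (node (nat_lit 5) (nat_lit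
  86006) (nat_lit 11) (node (nat_lit 6) (nat_lit 68369) (nat_lit 12) (node (nat_lit 5) (nat_lit
  47865) (nat_lit 13) (node (nat_lit 4) (nat_lit 38302) (nat_lit 14) nil nil) nil) nil) (node
  (nat_lit 6) (nat_lit 90371) (nat_lit 11) nil nil)) (node (nat_lit 5) (nat_lit 88825) (nat_lit
  10) (node (nat_lit 4) (nat_lit 86751) (nat_lit 11) nil (node (nat_lit 10) (nat_lit 89673)
  (nat_lit 11) nil nil)) (node (nat_lit 10) (nat_lit 88970) (nat_lit 10) nil (node (nat_lit 0)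
  (nat_lit 87720) (nat_lit 10) nil nil)))) (node (nat_lit 4) (nat_lit 88350) (nat_lit 9) (node
  (nat_lit 10) (nat_lit 90418) (nat_lit 10) (node (nat_lit 5) (nat_lit 92265) (nat_lit 11) (node
  (nat_lit 6) (nat_lit 89350) (nat_lit 12) (node (nat_lit 4) (nat_lit 89415) (nat_lit 13) nil nil)
  (node (nat_lit 10) (nat_lit 93036) (nat_lit 12) nil nil)) (node (nat_lit 4) (nat_lit 88964)
  (nat_lit 11) nil nil)) (node (nat_lit 6) (nat_lit 90418) (nat_lit 10) (node (nat_lit 5) (nat_lit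
  89747) (nat_lit 11) nil (node (nat_lit 4) (nat_lit 92265) (nat_lit 11) nil nil)) (node (nat_lit
  0) (nat_lit 89313) (nat_lit 10) nil (node (nat_lit 5) (nat_lit 89313) (nat_lit 10) nil nil))))
  (node (nat_lit 0) (nat_lit 86950) (nat_lit 9) (node (nat_lit 5) (nat_lit 88108) (nat_lit 10) nil
  (node (nat_lit 10) (nat_lit 84999) (nat_lit 10) (node (nat_lit 5) (nat_lit 82925) (nat_lit 11)
  nil nil) (node (nat_lit 4) (nat_lit 88108) (nat_lit 10) nil (node (nat_lit 0) (nat_lit 87914)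
  (nat_lit 10) nil nil)))) nil))) (node (nat_lit 4) (nat_lit 0) (nat_lit 8) (node (nat_lit 10)
  (nat_lit 87045) (nat_lit 9) (node (nat_lit 5) (nat_lit 89111) (nat_lit 10) (node (nat_lit 10)
  (nat_lit 89959) (nat_lit 11) (node (nat_lit 4) (nat_lit 88388) (nat_lit 12) nil nil) nil) nil)
  (node (nat_lit 6) (nat_lit 86076) (nat_lit 9) (node (nat_lit 5) (nat_lit 87408) (nat_lit 10)
  (node (nat_lit 4) (nat_lit 85334) (nat_lit 11) nil nil) (node (nat_lit 4) (nat_lit 86024)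
  (nat_lit 10) (node (nat_lit 5) (nat_lit 84199) (nat_lit 11) nil nil) nil)) (node (nat_lit 5)
  (nat_lit 87045) (nat_lit 9) (node (nat_lit 4) (nat_lit 88108) (nat_lit 10) nil (node (nat_lit 6)
  (nat_lit 88008) (nat_lit 10) nil nil)) (node (nat_lit 0) (nat_lit 85433) (nat_lit 9) nil nil))))
  (node (nat_lit 6) (nat_lit 0) (nat_lit 8) (node (nat_lit 5) (nat_lit 86061) (nat_lit 9) (node
  (nat_lit 6) (nat_lit 87045) (nat_lit 10) nil (node (nat_lit 4) (nat_lit 88128) (nat_lit 10) nil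
  nil)) (node (nat_lit 10) (nat_lit 85517) (nat_lit 9) (node (nat_lit 5) (nat_lit 82901) (nat_lit
  10) nil nil) (node (nat_lit 4) (nat_lit 88350) (nat_lit 9) nil (node (nat_lit 0) (nat_lit 85700)
  (nat_lit 9) nil nil)))) (node (nat_lit 0) (nat_lit 84892) (nat_lit 8) (node (nat_lit 5) (nat_lit
  88438) (nat_lit 9) (node (nat_lit 10) (nat_lit 89401) (nat_lit 10) nil nil) (node (nat_lit 10)
  (nat_lit 87187) (nat_lit 9) nil nil)) nil)))) (node (nat_lit 6) (nat_lit 0) (nat_lit 7) (node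
  (nat_lit 0) (nat_lit 0) (nat_lit 8) (node (nat_lit 5) (nat_lit 81693) (nat_lit 9) (node (nat_lit
  6) (nat_lit 85256) (nat_lit 10) (node (nat_lit 5) (nat_lit 87879) (nat_lit 11) (node (nat_lit
  11) (nat_lit 87348) (nat_lit 12) nil (node (nat_lit 4) (nat_lit 86308) (nat_lit 12) nil nil))
  (node (nat_lit 4) (nat_lit 89598) (nat_lit 11) (node (nat_lit 5) (nat_lit 90357) (nat_lit 12)
  nil nil) (node (nat_lit 0) (nat_lit 86105) (nat_lit 11) nil nil))) (node (nat_lit 4) (nat_lit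
  79077) (nat_lit 10) nil nil)) (node (nat_lit 4) (nat_lit 81819) (nat_lit 9) (node (nat_lit 6)
  (nat_lit 85019) (nat_lit 10) (node (nat_lit 4) (nat_lit 85091) (nat_lit 11) nil nil) nil) (node
  (nat_lit 6) (nat_lit 82161) (nat_lit 9) (node (nat_lit 5) (nat_lit 85397) (nat_lit 10) (node
  (nat_lit 11) (nat_lit 86245) (nat_lit 11) nil nil) nil) (node (nat_lit 0) (nat_lit 79245)
  (nat_lit 9) nil nil)))) (node (nat_lit 4) (nat_lit 0) (nat_lit 8) (node (nat_lit 5) (nat_lit 0)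
  (nat_lit 9) (node (nat_lit 4) (nat_lit 83568) (nat_lit 10) (node (nat_lit 6) (nat_lit 86998)
  (nat_lit 11) nil nil) (node (nat_lit 0) (nat_lit 80886) (nat_lit 10) nil nil)) (node (nat_lit 6)
  (nat_lit 0) (nat_lit 9) (node (nat_lit 0) (nat_lit 81146) (nat_lit 10) nil nil) (node (nat_lit
  0) (nat_lit 74640) (nat_lit 9) nil nil))) nil)) nil)) nil)))

noncomputable def t374 : Tr :=
  (node (nat_lit 0) (nat_lit 0) (nat_lit 6) (node (nat_lit 7) (nat_lit 0) (nat_lit 7) (node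
  (nat_lit 9) (nat_lit 0) (nat_lit 8) (node (nat_lit 4) (nat_lit 59479) (nat_lit 9) (node (nat_lit
  7) (nat_lit 61350) (nat_lit 10) (node (nat_lit 4) (nat_lit 62989) (nat_lit 11) (node (nat_lit 5)
  (nat_lit 64174) (nat_lit 12) (node (nat_lit 4) (nat_lit 65121) (nat_lit 13) (node (nat_lit 7)
  (nat_lit 65226) (nat_lit 14) (node (nat_lit 4) (nat_lit 28247) (nat_lit 15) (node (nat_lit 9)
  (nat_lit 3191) (nat_lit 16) nil nil) nil) nil) (node (nat_lit 7) (nat_lit 64779) (nat_lit 13)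
  nil nil)) nil) (node (nat_lit 5) (nat_lit 62714) (nat_lit 11) (node (nat_lit 7) (nat_lit 60041)
  (nat_lit 12) (node (nat_lit 4) (nat_lit 59488) (nat_lit 13) nil nil) nil) (node (nat_lit 0)
  (nat_lit 62172) (nat_lit 11) nil nil))) (node (nat_lit 5) (nat_lit 61350) (nat_lit 10) (node
  (nat_lit 7) (nat_lit 63027) (nat_lit 11) (node (nat_lit 4) (nat_lit 63227) (nat_lit 12) nil nil)
  (node (nat_lit 4) (nat_lit 62714) (nat_lit 11) nil nil)) (node (nat_lit 9) (nat_lit 61350)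
  (nat_lit 10) (node (nat_lit 7) (nat_lit 62989) (nat_lit 11) (node (nat_lit 4) (nat_lit 63734)
  (nat_lit 12) nil nil) (node (nat_lit 5) (nat_lit 62752) (nat_lit 11) (node (nat_lit 7) (nat_lit
  60079) (nat_lit 12) nil nil) nil)) (node (nat_lit 0) (nat_lit 60413) (nat_lit 10) nil nil))))
  (node (nat_lit 5) (nat_lit 59479) (nat_lit 9) (node (nat_lit 7) (nat_lit 61350) (nat_lit 10)
  (node (nat_lit 4) (nat_lit 61982) (nat_lit 11) (node (nat_lit 5) (nat_lit 62176) (nat_lit 12)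
  (node (nat_lit 4) (nat_lit 52811) (nat_lit 13) (node (nat_lit 7) (nat_lit 38083) (nat_lit 14)
  (node (nat_lit 4) (nat_lit 26500) (nat_lit 15) nil nil) nil) nil) nil) (node (nat_lit 5)
  (nat_lit 62172) (nat_lit 11) nil nil)) (node (nat_lit 4) (nat_lit 61350) (nat_lit 10) (node
  (nat_lit 7) (nat_lit 62714) (nat_lit 11) nil (node (nat_lit 5) (nat_lit 59163) (nat_lit 11) nil
  nil)) (node (nat_lit 0) (nat_lit 60413) (nat_lit 10) nil nil))) (node (nat_lit 0) (nat_lit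
  58231) (nat_lit 9) (node (nat_lit 7) (nat_lit 59165) (nat_lit 10) nil nil) nil))) (node (nat_lit
  5) (nat_lit 56163) (nat_lit 8) (node (nat_lit 4) (nat_lit 59479) (nat_lit 9) (node (nat_lit 7)
  (nat_lit 61350) (nat_lit 10) (node (nat_lit 4) (nat_lit 54135) (nat_lit 11) (node (nat_lit 5)
  (nat_lit 52510) (nat_lit 12) (node (nat_lit 4) (nat_lit 45577) (nat_lit 13) nil nil) nil) nil)
  (node (nat_lit 5) (nat_lit 57792) (nat_lit 10) (node (nat_lit 7) (nat_lit 54370) (nat_lit 11)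
  (node (nat_lit 4) (nat_lit 53365) (nat_lit 12) nil nil) nil) nil)) (node (nat_lit 7) (nat_lit
  59479) (nat_lit 9) (node (nat_lit 4) (nat_lit 61012) (nat_lit 10) (node (nat_lit 5) (nat_lit
  62374) (nat_lit 11) (node (nat_lit 4) (nat_lit 63559) (nat_lit 12) (node (nat_lit 7) (nat_lit
  56124) (nat_lit 13) (node (nat_lit 4) (nat_lit 39188) (nat_lit 14) nil nil) nil) nil) nil) nil)
  (node (nat_lit 9) (nat_lit 59479) (nat_lit 9) (node (nat_lit 5) (nat_lit 57792) (nat_lit 10)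
  (node (nat_lit 7) (nat_lit 54370) (nat_lit 11) nil nil) (node (nat_lit 4) (nat_lit 56728)
  (nat_lit 10) nil nil)) nil))) (node (nat_lit 4) (nat_lit 0) (nat_lit 8) (node (nat_lit 7)
  (nat_lit 59551) (nat_lit 9) (node (nat_lit 5) (nat_lit 61421) (nat_lit 10) (node (nat_lit 4)
  (nat_lit 62712) (nat_lit 11) (node (nat_lit 5) (nat_lit 61044) (nat_lit 12) nil nil) (node
  (nat_lit 7) (nat_lit 57999) (nat_lit 11) nil nil)) (node (nat_lit 9) (nat_lit 60485) (nat_lit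
  10) nil nil)) (node (nat_lit 5) (nat_lit 59479) (nat_lit 9) (node (nat_lit 7) (nat_lit 60413)
  (nat_lit 10) nil (node (nat_lit 4) (nat_lit 61350) (nat_lit 10) nil nil)) (node (nat_lit 0)
  (nat_lit 58429) (nat_lit 9) nil nil))) (node (nat_lit 0) (nat_lit 54587) (nat_lit 8) (node
  (nat_lit 7) (nat_lit 57530) (nat_lit 9) nil (node (nat_lit 4) (nat_lit 52278) (nat_lit 9) nil
  (node (nat_lit 5) (nat_lit 52278) (nat_lit 9) nil nil))) nil)))) (node (nat_lit 5) (nat_lit 0)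
  (nat_lit 7) (node (nat_lit 9) (nat_lit 0) (nat_lit 8) (node (nat_lit 4) (nat_lit 59294) (nat_lit
  9) (node (nat_lit 5) (nat_lit 60802) (nat_lit 10) (node (nat_lit 7) (nat_lit 61790) (nat_lit 11)
  (node (nat_lit 4) (nat_lit 61902) (nat_lit 12) (node (nat_lit 5) (nat_lit 56727) (nat_lit 13)
  (node (nat_lit 4) (nat_lit 44025) (nat_lit 14) (node (nat_lit 7) (nat_lit 39919) (nat_lit 15)
  nil nil) nil) nil) (node (nat_lit 5) (nat_lit 62535) (nat_lit 12) nil nil)) (node (nat_lit 4)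
  (nat_lit 62166) (nat_lit 11) (node (nat_lit 7) (nat_lit 60079) (nat_lit 12) (node (nat_lit 4)
  (nat_lit 59378) (nat_lit 13) nil nil) nil) nil)) (node (nat_lit 7) (nat_lit 61165) (nat_lit 10)
  (node (nat_lit 4) (nat_lit 61369) (nat_lit 11) (node (nat_lit 5) (nat_lit 59744) (nat_lit 12)
  nil nil) (node (nat_lit 5) (nat_lit 62529) (nat_lit 11) nil nil)) (node (nat_lit 9) (nat_lit
  61165) (nat_lit 10) (node (nat_lit 5) (nat_lit 58978) (nat_lit 11) nil (node (nat_lit 7)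
  (nat_lit 61987) (nat_lit 11) nil nil)) (node (nat_lit 0) (nat_lit 60228) (nat_lit 10) nil
  nil)))) (node (nat_lit 7) (nat_lit 59294) (nat_lit 9) (node (nat_lit 5) (nat_lit 61165) (nat_lit
  10) (node (nat_lit 7) (nat_lit 62529) (nat_lit 11) (node (nat_lit 4) (nat_lit 63712) (nat_lit
  12) (node (nat_lit 5) (nat_lit 63302) (nat_lit 13) nil nil) nil) (node (nat_lit 4) (nat_lit
  62712) (nat_lit 11) (node (nat_lit 7) (nat_lit 60130) (nat_lit 12) nil nil) nil)) (node (nat_lit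
  4) (nat_lit 61165) (nat_lit 10) (node (nat_lit 7) (nat_lit 61987) (nat_lit 11) nil nil) (node
  (nat_lit 0) (nat_lit 60228) (nat_lit 10) nil nil))) (node (nat_lit 0) (nat_lit 56626) (nat_lit
  9) (node (nat_lit 5) (nat_lit 53874) (nat_lit 10) nil nil) nil))) (node (nat_lit 7) (nat_lit
  56122) (nat_lit 8) (node (nat_lit 4) (nat_lit 59438) (nat_lit 9) (node (nat_lit 5) (nat_lit
  47535) (nat_lit 10) (node (nat_lit 7) (nat_lit 48357) (nat_lit 11) nil (node (nat_lit 4)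
  (nat_lit 22384) (nat_lit 11) nil nil)) (node (nat_lit 7) (nat_lit 60372) (nat_lit 10) nil nil))
  (node (nat_lit 9) (nat_lit 59438) (nat_lit 9) (node (nat_lit 7) (nat_lit 60372) (nat_lit 10) nil
  (node (nat_lit 4) (nat_lit 56687) (nat_lit 10) nil (node (nat_lit 5) (nat_lit 60372) (nat_lit
  10) nil nil))) (node (nat_lit 5) (nat_lit 59438) (nat_lit 9) (node (nat_lit 4) (nat_lit 61309)
  (nat_lit 10) (node (nat_lit 7) (nat_lit 62673) (nat_lit 11) nil nil) nil) nil))) (node (nat_lit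
  4) (nat_lit 0) (nat_lit 8) (node (nat_lit 5) (nat_lit 59294) (nat_lit 9) (node (nat_lit 7)
  (nat_lit 61165) (nat_lit 10) (node (nat_lit 4) (nat_lit 62803) (nat_lit 11) (node (nat_lit 7)
  (nat_lit 63548) (nat_lit 12) nil nil) (node (nat_lit 5) (nat_lit 61987) (nat_lit 11) nil nil))
  (node (nat_lit 9) (nat_lit 60228) (nat_lit 10) nil nil)) (node (nat_lit 9) (nat_lit 59294)
  (nat_lit 9) (node (nat_lit 4) (nat_lit 61183) (nat_lit 10) (node (nat_lit 5) (nat_lit 60806)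
  (nat_lit 11) nil nil) (node (nat_lit 7) (nat_lit 60825) (nat_lit 10) (node (nat_lit 5) (nat_lit
  58638) (nat_lit 11) nil nil) nil)) (node (nat_lit 7) (nat_lit 59294) (nat_lit 9) (node (nat_lit
  4) (nat_lit 60825) (nat_lit 10) (node (nat_lit 5) (nat_lit 62189) (nat_lit 11) (node (nat_lit 4)
  (nat_lit 43729) (nat_lit 12) (node (nat_lit 7) (nat_lit 30628) (nat_lit 13) nil nil) nil) nil)
  (node (nat_lit 5) (nat_lit 60825) (nat_lit 10) nil nil)) (node (nat_lit 0) (nat_lit 58243)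
  (nat_lit 9) nil nil)))) (node (nat_lit 0) (nat_lit 54544) (nat_lit 8) (node (nat_lit 5) (nat_lit
  53011) (nat_lit 9) nil (node (nat_lit 4) (nat_lit 52234) (nat_lit 9) nil (node (nat_lit 7)
  (nat_lit 56810) (nat_lit 9) nil nil))) nil)))) (node (nat_lit 0) (nat_lit 0) (nat_lit 7) (node
  (nat_lit 9) (nat_lit 0) (nat_lit 8) (node (nat_lit 4) (nat_lit 59438) (nat_lit 9) (node (nat_lit
  10) (nat_lit 58914) (nat_lit 10) (node (nat_lit 4) (nat_lit 56727) (nat_lit 11) nil (node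
  (nat_lit 9) (nat_lit 59736) (nat_lit 11) nil nil)) (node (nat_lit 7) (nat_lit 60969) (nat_lit
  10) nil (node (nat_lit 5) (nat_lit 58548) (nat_lit 10) nil (node (nat_lit 9) (nat_lit 60372)
  (nat_lit 10) nil nil)))) (node (nat_lit 5) (nat_lit 59438) (nat_lit 9) (node (nat_lit 4)
  (nat_lit 58914) (nat_lit 10) nil (node (nat_lit 7) (nat_lit 55910) (nat_lit 10) nil (node
  (nat_lit 10) (nat_lit 60372) (nat_lit 10) nil nil))) (node (nat_lit 7) (nat_lit 59438) (nat_lit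
  9) (node (nat_lit 4) (nat_lit 60372) (nat_lit 10) nil (node (nat_lit 5) (nat_lit 60969) (nat_lit
  10) nil (node (nat_lit 10) (nat_lit 60372) (nat_lit 10) nil nil))) (node (nat_lit 0) (nat_lit
  56588) (nat_lit 9) nil nil)))) (node (nat_lit 4) (nat_lit 0) (nat_lit 8) (node (nat_lit 10)
  (nat_lit 59438) (nat_lit 9) (node (nat_lit 9) (nat_lit 60372) (nat_lit 10) nil nil) (node
  (nat_lit 7) (nat_lit 59438) (nat_lit 9) (node (nat_lit 4) (nat_lit 57643) (nat_lit 10) nil (node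
  (nat_lit 5) (nat_lit 56687) (nat_lit 10) nil nil)) (node (nat_lit 5) (nat_lit 59330) (nat_lit 9)
  (node (nat_lit 7) (nat_lit 54706) (nat_lit 10) nil nil) (node (nat_lit 9) (nat_lit 58388)
  (nat_lit 9) nil (node (nat_lit 0) (nat_lit 58388) (nat_lit 9) nil nil))))) (node (nat_lit 5)
  (nat_lit 56122) (nat_lit 8) (node (nat_lit 7) (nat_lit 59106) (nat_lit 9) (node (nat_lit 4)
  (nat_lit 50419) (nat_lit 10) nil nil) (node (nat_lit 4) (nat_lit 59438) (nat_lit 9) nil (node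
  (nat_lit 9) (nat_lit 58388) (nat_lit 9) nil (node (nat_lit 10) (nat_lit 58388) (nat_lit 9) nil
  nil)))) (node (nat_lit 7) (nat_lit 56122) (nat_lit 8) (node (nat_lit 5) (nat_lit 59438) (nat_lit
  9) (node (nat_lit 4) (nat_lit 56687) (nat_lit 10) nil nil) (node (nat_lit 4) (nat_lit 59065)
  (nat_lit 9) (node (nat_lit 7) (nat_lit 59999) (nat_lit 10) nil nil) (node (nat_lit 9) (nat_lit
  58388) (nat_lit 9) nil (node (nat_lit 10) (nat_lit 58388) (nat_lit 9) nil nil)))) (node (nat_lit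
  0) (nat_lit 52614) (nat_lit 8) (node (nat_lit 10) (nat_lit 54881) (nat_lit 9) nil nil) nil)))))
  (node (nat_lit 4) (nat_lit 0) (nat_lit 7) (node (nat_lit 7) (nat_lit 56201) (nat_lit 8) (node
  (nat_lit 5) (nat_lit 59517) (nat_lit 9) (node (nat_lit 7) (nat_lit 61388) (nat_lit 10) (node
  (nat_lit 4) (nat_lit 61369) (nat_lit 11) (node (nat_lit 5) (nat_lit 53090) (nat_lit 12) (node
  (nat_lit 4) (nat_lit 46341) (nat_lit 13) (node (nat_lit 7) (nat_lit 39402) (nat_lit 14) nil nil)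
  nil) nil) nil) (node (nat_lit 4) (nat_lit 61388) (nat_lit 10) nil nil)) (node (nat_lit 4)
  (nat_lit 59517) (nat_lit 9) (node (nat_lit 5) (nat_lit 61049) (nat_lit 10) (node (nat_lit 4)
  (nat_lit 59867) (nat_lit 11) (node (nat_lit 7) (nat_lit 50394) (nat_lit 12) nil nil) nil) nil)
  (node (nat_lit 9) (nat_lit 59517) (nat_lit 9) (node (nat_lit 7) (nat_lit 60451) (nat_lit 10) nil
  nil) nil))) (node (nat_lit 5) (nat_lit 55976) (nat_lit 8) (node (nat_lit 7) (nat_lit 59438)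
  (nat_lit 9) (node (nat_lit 4) (nat_lit 60077) (nat_lit 10) (node (nat_lit 5) (nat_lit 46164)
  (nat_lit 11) (node (nat_lit 4) (nat_lit 36453) (nat_lit 12) (node (nat_lit 7) (nat_lit 25142)
  (nat_lit 13) nil nil) nil) nil) (node (nat_lit 5) (nat_lit 60372) (nat_lit 10) nil nil)) (node
  (nat_lit 4) (nat_lit 59294) (nat_lit 9) (node (nat_lit 7) (nat_lit 60969) (nat_lit 10) (node
  (nat_lit 4) (nat_lit 53754) (nat_lit 11) nil nil) nil) (node (nat_lit 9) (nat_lit 59294)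
  (nat_lit 9) nil nil))) (node (nat_lit 0) (nat_lit 0) (nat_lit 8) (node (nat_lit 4) (nat_lit
  59438) (nat_lit 9) nil (node (nat_lit 5) (nat_lit 59438) (nat_lit 9) nil (node (nat_lit 7)
  (nat_lit 59438) (nat_lit 9) nil (node (nat_lit 0) (nat_lit 58388) (nat_lit 9) nil (node (nat_lit
  9) (nat_lit 58388) (nat_lit 9) nil nil))))) nil))) nil)))) (node (nat_lit 5) (nat_lit 0)
  (nat_lit 6) (node (nat_lit 0) (nat_lit 0) (nat_lit 7) (node (nat_lit 5) (nat_lit 0) (nat_lit 8)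
  (node (nat_lit 7) (nat_lit 44484) (nat_lit 9) (node (nat_lit 4) (nat_lit 46531) (nat_lit 10)
  (node (nat_lit 5) (nat_lit 46528) (nat_lit 11) (node (nat_lit 4) (nat_lit 31349) (nat_lit 12)
  (node (nat_lit 7) (nat_lit 15058) (nat_lit 13) nil nil) nil) (node (nat_lit 7) (nat_lit 47353)
  (nat_lit 11) nil nil)) (node (nat_lit 5) (nat_lit 45418) (nat_lit 10) (node (nat_lit 10)
  (nat_lit 46240) (nat_lit 11) (node (nat_lit 7) (nat_lit 46985) (nat_lit 12) nil nil) nil) (node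
  (nat_lit 10) (nat_lit 45418) (nat_lit 10) (node (nat_lit 7) (nat_lit 46240) (nat_lit 11) nil
  (node (nat_lit 5) (nat_lit 46240) (nat_lit 11) nil (node (nat_lit 4) (nat_lit 43231) (nat_lit
  11) nil nil))) (node (nat_lit 0) (nat_lit 45418) (nat_lit 10) nil nil)))) (node (nat_lit 4)
  (nat_lit 47019) (nat_lit 9) (node (nat_lit 10) (nat_lit 47953) (nat_lit 10) (node (nat_lit 5)
  (nat_lit 48775) (nat_lit 11) (node (nat_lit 7) (nat_lit 49520) (nat_lit 12) (node (nat_lit 4)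
  (nat_lit 50161) (nat_lit 13) nil nil) (node (nat_lit 10) (nat_lit 49520) (nat_lit 12) nil nil))
  (node (nat_lit 4) (nat_lit 48951) (nat_lit 11) nil nil)) (node (nat_lit 7) (nat_lit 47953)
  (nat_lit 10) (node (nat_lit 4) (nat_lit 46569) (nat_lit 11) (node (nat_lit 5) (nat_lit 44972)
  (nat_lit 12) nil nil) (node (nat_lit 5) (nat_lit 46297) (nat_lit 11) nil nil)) (node (nat_lit 5)
  (nat_lit 47953) (nat_lit 10) (node (nat_lit 10) (nat_lit 48775) (nat_lit 11) (node (nat_lit 4)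
  (nat_lit 47107) (nat_lit 12) nil nil) (node (nat_lit 7) (nat_lit 44531) (nat_lit 11) nil nil))
  (node (nat_lit 0) (nat_lit 47953) (nat_lit 10) nil nil)))) (node (nat_lit 0) (nat_lit 47019)
  (nat_lit 9) (node (nat_lit 10) (nat_lit 47953) (nat_lit 10) (node (nat_lit 5) (nat_lit 45935)
  (nat_lit 11) nil nil) (node (nat_lit 4) (nat_lit 44437) (nat_lit 10) nil (node (nat_lit 5)
  (nat_lit 44437) (nat_lit 10) nil (node (nat_lit 0) (nat_lit 47953) (nat_lit 10) nil (node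
  (nat_lit 7) (nat_lit 47953) (nat_lit 10) nil nil))))) nil))) (node (nat_lit 4) (nat_lit 0)
  (nat_lit 8) (node (nat_lit 7) (nat_lit 47436) (nat_lit 9) (node (nat_lit 4) (nat_lit 46456)
  (nat_lit 10) (node (nat_lit 5) (nat_lit 40869) (nat_lit 11) (node (nat_lit 4) (nat_lit 23797)
  (nat_lit 12) (node (nat_lit 7) (nat_lit 10697) (nat_lit 13) nil nil) nil) nil) (node (nat_lit 5)
  (nat_lit 48370) (nat_lit 10) nil nil)) (node (nat_lit 10) (nat_lit 47436) (nat_lit 9) (node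
  (nat_lit 5) (nat_lit 48370) (nat_lit 10) (node (nat_lit 10) (nat_lit 49192) (nat_lit 11) (node
  (nat_lit 4) (nat_lit 48519) (nat_lit 12) (node (nat_lit 5) (nat_lit 47561) (nat_lit 13) nil nil)
  nil) nil) nil) (node (nat_lit 5) (nat_lit 47436) (nat_lit 9) (node (nat_lit 4) (nat_lit 48653)
  (nat_lit 10) nil (node (nat_lit 7) (nat_lit 47740) (nat_lit 10) nil nil)) (node (nat_lit 0)
  (nat_lit 47436) (nat_lit 9) nil nil)))) (node (nat_lit 7) (nat_lit 42218) (nat_lit 8) (node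
  (nat_lit 5) (nat_lit 44484) (nat_lit 9) (node (nat_lit 7) (nat_lit 45418) (nat_lit 10) nil nil)
  (node (nat_lit 4) (nat_lit 47019) (nat_lit 9) nil (node (nat_lit 10) (nat_lit 44484) (nat_lit 9)
  (node (nat_lit 5) (nat_lit 44437) (nat_lit 10) (node (nat_lit 10) (nat_lit 45259) (nat_lit 11)
  nil nil) nil) nil))) (node (nat_lit 0) (nat_lit 44922) (nat_lit 8) (node (nat_lit 5) (nat_lit
  46887) (nat_lit 9) (node (nat_lit 10) (nat_lit 47586) (nat_lit 10) nil nil) (node (nat_lit 10)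
  (nat_lit 47188) (nat_lit 9) nil (node (nat_lit 4) (nat_lit 42612) (nat_lit 9) nil nil))) nil))))
  (node (nat_lit 7) (nat_lit 0) (nat_lit 7) (node (nat_lit 0) (nat_lit 0) (nat_lit 8) (node
  (nat_lit 5) (nat_lit 43001) (nat_lit 9) (node (nat_lit 7) (nat_lit 43935) (nat_lit 10) (node
  (nat_lit 5) (nat_lit 44757) (nat_lit 11) (node (nat_lit 11) (nat_lit 45502) (nat_lit 12) nil
  nil) (node (nat_lit 4) (nat_lit 45274) (nat_lit 11) (node (nat_lit 5) (nat_lit 42751) (nat_lit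
  12) nil nil) (node (nat_lit 0) (nat_lit 44757) (nat_lit 11) nil nil))) nil) (node (nat_lit 4)
  (nat_lit 46804) (nat_lit 9) (node (nat_lit 7) (nat_lit 47264) (nat_lit 10) (node (nat_lit 4)
  (nat_lit 45656) (nat_lit 11) nil nil) nil) (node (nat_lit 7) (nat_lit 43001) (nat_lit 9) (node
  (nat_lit 5) (nat_lit 43935) (nat_lit 10) (node (nat_lit 11) (nat_lit 44757) (nat_lit 11) nil
  nil) nil) (node (nat_lit 0) (nat_lit 43001) (nat_lit 9) nil nil)))) (node (nat_lit 4) (nat_lit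
  38626) (nat_lit 8) (node (nat_lit 0) (nat_lit 41687) (nat_lit 9) nil nil) nil)) nil)) nil))

noncomputable def t375 : Tr :=
  (node (nat_lit 5) (nat_lit 0) (nat_lit 5) (node (nat_lit 0) (nat_lit 0) (nat_lit 6) (node
  (nat_lit 4) (nat_lit 0) (nat_lit 7) (node (nat_lit 9) (nat_lit 0) (nat_lit 8) (node (nat_lit 5)
  (nat_lit 113546) (nat_lit 9) (node (nat_lit 4) (nat_lit 112237) (nat_lit 10) (node (nat_lit 5)
  (nat_lit 110852) (nat_lit 11) (node (nat_lit 7) (nat_lit 111188) (nat_lit 12) (node (nat_lit 4)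
  (nat_lit 110769) (nat_lit 13) (node (nat_lit 5) (nat_lit 109250) (nat_lit 14) (node (nat_lit 4)
  (nat_lit 106311) (nat_lit 15) (node (nat_lit 7) (nat_lit 103533) (nat_lit 16) nil nil) nil) nil)
  nil) nil) (node (nat_lit 7) (nat_lit 112363) (nat_lit 11) (node (nat_lit 4) (nat_lit 112048)
  (nat_lit 12) (node (nat_lit 5) (nat_lit 110271) (nat_lit 13) (node (nat_lit 4) (nat_lit 106195)
  (nat_lit 14) (node (nat_lit 7) (nat_lit 102089) (nat_lit 15) (node (nat_lit 5) (nat_lit 94463)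
  (nat_lit 16) nil nil) nil) nil) nil) nil) nil)) (node (nat_lit 7) (nat_lit 111167) (nat_lit 10)
  (node (nat_lit 4) (nat_lit 109688) (nat_lit 11) (node (nat_lit 5) (nat_lit 106552) (nat_lit 12)
  (node (nat_lit 4) (nat_lit 99976) (nat_lit 13) (node (nat_lit 7) (nat_lit 94353) (nat_lit 14)
  (node (nat_lit 5) (nat_lit 82068) (nat_lit 15) nil nil) nil) nil) nil) nil) (node (nat_lit 9)
  (nat_lit 113990) (nat_lit 10) nil nil))) (node (nat_lit 7) (nat_lit 115724) (nat_lit 9) nil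
  (node (nat_lit 0) (nat_lit 115724) (nat_lit 9) nil nil))) (node (nat_lit 5) (nat_lit 111631)
  (nat_lit 8) (node (nat_lit 7) (nat_lit 112253) (nat_lit 9) (node (nat_lit 4) (nat_lit 108726)
  (nat_lit 10) (node (nat_lit 5) (nat_lit 103913) (nat_lit 11) (node (nat_lit 4) (nat_lit 95284)
  (nat_lit 12) (node (nat_lit 7) (nat_lit 82183) (nat_lit 13) (node (nat_lit 5) (nat_lit 62786)
  (nat_lit 14) nil nil) nil) nil) nil) nil) (node (nat_lit 9) (nat_lit 112696) (nat_lit 9) (node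
  (nat_lit 5) (nat_lit 111387) (nat_lit 10) nil nil) (node (nat_lit 4) (nat_lit 110518) (nat_lit
  9) (node (nat_lit 7) (nat_lit 110573) (nat_lit 10) (node (nat_lit 5) (nat_lit 109533) (nat_lit
  11) (node (nat_lit 7) (nat_lit 109693) (nat_lit 12) nil nil) (node (nat_lit 4) (nat_lit 108509)
  (nat_lit 11) nil nil)) nil) nil))) (node (nat_lit 7) (nat_lit 113735) (nat_lit 8) (node (nat_lit
  5) (nat_lit 112622) (nat_lit 9) (node (nat_lit 7) (nat_lit 112677) (nat_lit 10) (node (nat_lit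
  4) (nat_lit 111572) (nat_lit 11) (node (nat_lit 5) (nat_lit 108436) (nat_lit 12) (node (nat_lit
  4) (nat_lit 101860) (nat_lit 13) (node (nat_lit 7) (nat_lit 95005) (nat_lit 14) nil nil) nil)
  nil) nil) (node (nat_lit 4) (nat_lit 110347) (nat_lit 10) nil nil)) (node (nat_lit 4) (nat_lit
  112084) (nat_lit 9) (node (nat_lit 5) (nat_lit 105505) (nat_lit 10) (node (nat_lit 4) (nat_lit
  86466) (nat_lit 11) (node (nat_lit 7) (nat_lit 69709) (nat_lit 12) (node (nat_lit 5) (nat_lit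
  41203) (nat_lit 13) nil nil) nil) (node (nat_lit 7) (nat_lit 106327) (nat_lit 11) nil nil)) nil)
  (node (nat_lit 9) (nat_lit 114800) (nat_lit 9) nil nil))) (node (nat_lit 0) (nat_lit 114582)
  (nat_lit 8) (node (nat_lit 5) (nat_lit 112272) (nat_lit 9) nil (node (nat_lit 7) (nat_lit
  115724) (nat_lit 9) nil nil)) nil)))) (node (nat_lit 7) (nat_lit 0) (nat_lit 7) (node (nat_lit
  9) (nat_lit 0) (nat_lit 8) (node (nat_lit 5) (nat_lit 115929) (nat_lit 9) (node (nat_lit 7)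
  (nat_lit 114028) (nat_lit 10) (node (nat_lit 4) (nat_lit 112549) (nat_lit 11) (node (nat_lit 5)
  (nat_lit 109413) (nat_lit 12) (node (nat_lit 4) (nat_lit 103812) (nat_lit 13) (node (nat_lit 7)
  (nat_lit 97214) (nat_lit 14) (node (nat_lit 5) (nat_lit 84930) (nat_lit 15) (node (nat_lit 9)
  (nat_lit 59874) (nat_lit 16) (node (nat_lit 7) (nat_lit 30628) (nat_lit 17) nil nil) nil) nil)
  nil) nil) nil) nil) (node (nat_lit 4) (nat_lit 113177) (nat_lit 10) (node (nat_lit 7) (nat_lit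
  113441) (nat_lit 11) nil nil) nil)) (node (nat_lit 4) (nat_lit 115929) (nat_lit 9) (node
  (nat_lit 7) (nat_lit 115881) (nat_lit 10) (node (nat_lit 4) (nat_lit 110359) (nat_lit 11) (node
  (nat_lit 5) (nat_lit 107223) (nat_lit 12) (node (nat_lit 4) (nat_lit 101622) (nat_lit 13) (node
  (nat_lit 7) (nat_lit 95024) (nat_lit 14) (node (nat_lit 5) (nat_lit 82739) (nat_lit 15) nil nil)
  nil) nil) nil) (node (nat_lit 5) (nat_lit 113694) (nat_lit 11) (node (nat_lit 7) (nat_lit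
  114029) (nat_lit 12) nil nil) nil)) (node (nat_lit 5) (nat_lit 113177) (nat_lit 10) (node
  (nat_lit 7) (nat_lit 113441) (nat_lit 11) nil nil) nil)) (node (nat_lit 0) (nat_lit 117323)
  (nat_lit 9) nil nil))) (node (nat_lit 4) (nat_lit 117323) (nat_lit 8) (node (nat_lit 9) (nat_lit
  117323) (nat_lit 9) (node (nat_lit 4) (nat_lit 116958) (nat_lit 10) (node (nat_lit 7) (nat_lit
  117222) (nat_lit 11) (node (nat_lit 4) (nat_lit 116392) (nat_lit 12) (node (nat_lit 5) (nat_lit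
  114190) (nat_lit 13) nil nil) nil) nil) nil) nil) (node (nat_lit 5) (nat_lit 115508) (nat_lit 8)
  (node (nat_lit 7) (nat_lit 116129) (nat_lit 9) (node (nat_lit 4) (nat_lit 114781) (nat_lit 10)
  (node (nat_lit 5) (nat_lit 112574) (nat_lit 11) (node (nat_lit 4) (nat_lit 108335) (nat_lit 12)
  (node (nat_lit 7) (nat_lit 94924) (nat_lit 13) (node (nat_lit 5) (nat_lit 79717) (nat_lit 14)
  (node (nat_lit 9) (nat_lit 3077) (nat_lit 15) nil nil) nil) nil) nil) nil) nil) (node (nat_lit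
  4) (nat_lit 114394) (nat_lit 9) (node (nat_lit 7) (nat_lit 114450) (nat_lit 10) (node (nat_lit
  4) (nat_lit 113776) (nat_lit 11) nil nil) nil) nil)) (node (nat_lit 0) (nat_lit 117323) (nat_lit
  8) (node (nat_lit 5) (nat_lit 115134) (nat_lit 9) nil nil) nil)))) (node (nat_lit 0) (nat_lit 0)
  (nat_lit 7) (node (nat_lit 9) (nat_lit 0) (nat_lit 8) (node (nat_lit 5) (nat_lit 112377)
  (nat_lit 9) (node (nat_lit 10) (nat_lit 113311) (nat_lit 10) nil (node (nat_lit 7) (nat_lit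
  112329) (nat_lit 10) nil nil)) (node (nat_lit 4) (nat_lit 112377) (nat_lit 9) (node (nat_lit 7)
  (nat_lit 112329) (nat_lit 10) nil nil) (node (nat_lit 7) (nat_lit 116953) (nat_lit 9) nil (node
  (nat_lit 0) (nat_lit 116953) (nat_lit 9) nil nil)))) (node (nat_lit 5) (nat_lit 115508) (nat_lit
  8) (node (nat_lit 10) (nat_lit 116572) (nat_lit 9) nil (node (nat_lit 7) (nat_lit 116129)
  (nat_lit 9) (node (nat_lit 4) (nat_lit 108651) (nat_lit 10) nil nil) (node (nat_lit 4) (nat_lit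
  113981) (nat_lit 9) (node (nat_lit 7) (nat_lit 112582) (nat_lit 10) nil nil) (node (nat_lit 0)
  (nat_lit 116572) (nat_lit 9) nil nil)))) (node (nat_lit 4) (nat_lit 115508) (nat_lit 8) (node
  (nat_lit 7) (nat_lit 112483) (nat_lit 9) (node (nat_lit 4) (nat_lit 109458) (nat_lit 10) nil
  nil) (node (nat_lit 5) (nat_lit 113681) (nat_lit 9) nil nil)) (node (nat_lit 7) (nat_lit 116899)
  (nat_lit 8) (node (nat_lit 4) (nat_lit 117323) (nat_lit 9) nil (node (nat_lit 5) (nat_lit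
  114590) (nat_lit 9) (node (nat_lit 7) (nat_lit 114542) (nat_lit 10) nil nil) nil)) (node
  (nat_lit 0) (nat_lit 116899) (nat_lit 8) nil nil))))) (node (nat_lit 5) (nat_lit 0) (nat_lit 7)
  (node (nat_lit 4) (nat_lit 111631) (nat_lit 8) (node (nat_lit 7) (nat_lit 110533) (nat_lit 9)
  (node (nat_lit 4) (nat_lit 107508) (nat_lit 10) (node (nat_lit 5) (nat_lit 102695) (nat_lit 11)
  (node (nat_lit 4) (nat_lit 95298) (nat_lit 12) (node (nat_lit 7) (nat_lit 83987) (nat_lit 13)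
  nil nil) nil) nil) (node (nat_lit 5) (nat_lit 107781) (nat_lit 10) nil nil)) (node (nat_lit 5)
  (nat_lit 110518) (nat_lit 9) (node (nat_lit 7) (nat_lit 110573) (nat_lit 10) (node (nat_lit 4)
  (nat_lit 109899) (nat_lit 11) nil nil) nil) (node (nat_lit 9) (nat_lit 112696) (nat_lit 9) nil
  nil))) (node (nat_lit 7) (nat_lit 113735) (nat_lit 8) (node (nat_lit 4) (nat_lit 112084)
  (nat_lit 9) (node (nat_lit 5) (nat_lit 108817) (nat_lit 10) (node (nat_lit 4) (nat_lit 99479)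
  (nat_lit 11) (node (nat_lit 7) (nat_lit 83123) (nat_lit 12) (node (nat_lit 5) (nat_lit 50635)
  (nat_lit 13) nil nil) nil) nil) nil) (node (nat_lit 5) (nat_lit 114800) (nat_lit 9) nil (node
  (nat_lit 9) (nat_lit 114800) (nat_lit 9) nil nil))) (node (nat_lit 0) (nat_lit 114659) (nat_lit
  8) (node (nat_lit 5) (nat_lit 112628) (nat_lit 9) nil (node (nat_lit 4) (nat_lit 112628)
  (nat_lit 9) nil (node (nat_lit 7) (nat_lit 115724) (nat_lit 9) nil nil))) nil))) nil)))) (node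
  (nat_lit 7) (nat_lit 0) (nat_lit 6) (node (nat_lit 0) (nat_lit 0) (nat_lit 7) (node (nat_lit 7)
  (nat_lit 0) (nat_lit 8) (node (nat_lit 4) (nat_lit 117323) (nat_lit 9) (node (nat_lit 5)
  (nat_lit 117323) (nat_lit 10) (node (nat_lit 4) (nat_lit 117323) (nat_lit 11) (node (nat_lit 7)
  (nat_lit 117323) (nat_lit 12) (node (nat_lit 5) (nat_lit 117323) (nat_lit 13) (node (nat_lit 7)
  (nat_lit 117323) (nat_lit 14) nil nil) nil) nil) nil) nil) (node (nat_lit 5) (nat_lit 115094)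
  (nat_lit 9) (node (nat_lit 4) (nat_lit 112342) (nat_lit 10) (node (nat_lit 7) (nat_lit 112606)
  (nat_lit 11) nil nil) (node (nat_lit 7) (nat_lit 115046) (nat_lit 10) (node (nat_lit 4) (nat_lit
  113567) (nat_lit 11) nil nil) nil)) (node (nat_lit 0) (nat_lit 117323) (nat_lit 9) nil nil)))
  (node (nat_lit 5) (nat_lit 115508) (nat_lit 8) (node (nat_lit 4) (nat_lit 114394) (nat_lit 9)
  (node (nat_lit 7) (nat_lit 114450) (nat_lit 10) (node (nat_lit 4) (nat_lit 113776) (nat_lit 11)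
  nil nil) nil) (node (nat_lit 7) (nat_lit 116129) (nat_lit 9) (node (nat_lit 4) (nat_lit 114781)
  (nat_lit 10) (node (nat_lit 5) (nat_lit 103242) (nat_lit 11) nil nil) nil) (node (nat_lit 10)
  (nat_lit 116572) (nat_lit 9) nil nil))) (node (nat_lit 4) (nat_lit 113021) (nat_lit 8) (node
  (nat_lit 7) (nat_lit 112942) (nat_lit 9) (node (nat_lit 4) (nat_lit 109962) (nat_lit 10) nil
  nil) (node (nat_lit 5) (nat_lit 110711) (nat_lit 9) (node (nat_lit 7) (nat_lit 110663) (nat_lit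
  10) nil nil) nil)) (node (nat_lit 0) (nat_lit 117323) (nat_lit 8) (node (nat_lit 7) (nat_lit
  117323) (nat_lit 9) nil nil) nil)))) (node (nat_lit 4) (nat_lit 0) (nat_lit 7) (node (nat_lit 0)
  (nat_lit 0) (nat_lit 8) (node (nat_lit 7) (nat_lit 115265) (nat_lit 9) nil (node (nat_lit 4)
  (nat_lit 112167) (nat_lit 9) (node (nat_lit 7) (nat_lit 112119) (nat_lit 10) nil nil) (node
  (nat_lit 5) (nat_lit 117177) (nat_lit 9) (node (nat_lit 4) (nat_lit 114426) (nat_lit 10) nil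
  nil) (node (nat_lit 0) (nat_lit 115265) (nat_lit 9) nil nil)))) (node (nat_lit 5) (nat_lit 0)
  (nat_lit 8) (node (nat_lit 7) (nat_lit 0) (nat_lit 9) (node (nat_lit 5) (nat_lit 0) (nat_lit 10)
  (node (nat_lit 4) (nat_lit 92245) (nat_lit 11) (node (nat_lit 7) (nat_lit 90027) (nat_lit 12)
  nil nil) (node (nat_lit 0) (nat_lit 90472) (nat_lit 11) nil nil)) (node (nat_lit 0) (nat_lit
  86378) (nat_lit 10) nil nil)) (node (nat_lit 4) (nat_lit 0) (nat_lit 9) (node (nat_lit 0)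
  (nat_lit 70548) (nat_lit 10) nil nil) (node (nat_lit 0) (nat_lit 82176) (nat_lit 9) nil nil)))
  nil)) nil)) (node (nat_lit 4) (nat_lit 0) (nat_lit 6) (node (nat_lit 0) (nat_lit 0) (nat_lit 7)
  (node (nat_lit 4) (nat_lit 0) (nat_lit 8) (node (nat_lit 5) (nat_lit 114394) (nat_lit 9) (node
  (nat_lit 10) (nat_lit 114839) (nat_lit 10) (node (nat_lit 4) (nat_lit 113534) (nat_lit 11) (node
  (nat_lit 7) (nat_lit 113870) (nat_lit 12) (node (nat_lit 4) (nat_lit 113451) (nat_lit 13) (node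
  (nat_lit 5) (nat_lit 112546) (nat_lit 14) nil nil) nil) nil) nil) (node (nat_lit 7) (nat_lit
  111008) (nat_lit 10) (node (nat_lit 4) (nat_lit 109529) (nat_lit 11) (node (nat_lit 5) (nat_lit
  106719) (nat_lit 12) nil nil) nil) (node (nat_lit 4) (nat_lit 112036) (nat_lit 10) (node
  (nat_lit 10) (nat_lit 112858) (nat_lit 11) nil nil) nil))) (node (nat_lit 7) (nat_lit 116129)
  (nat_lit 9) (node (nat_lit 4) (nat_lit 109733) (nat_lit 10) (node (nat_lit 5) (nat_lit 106263)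
  (nat_lit 11) (node (nat_lit 4) (nat_lit 80585) (nat_lit 12) (node (nat_lit 7) (nat_lit 70748)
  (nat_lit 13) (node (nat_lit 5) (nat_lit 49491) (nat_lit 14) (node (nat_lit 4) (nat_lit 21195)
  (nat_lit 15) nil nil) nil) nil) nil) (node (nat_lit 10) (nat_lit 110555) (nat_lit 11) nil nil))
  (node (nat_lit 5) (nat_lit 114820) (nat_lit 10) (node (nat_lit 7) (nat_lit 112806) (nat_lit 11)
  nil nil) (node (nat_lit 10) (nat_lit 116574) (nat_lit 10) nil (node (nat_lit 0) (nat_lit 116574)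
  (nat_lit 10) nil nil)))) (node (nat_lit 0) (nat_lit 116572) (nat_lit 9) nil nil))) (node
  (nat_lit 5) (nat_lit 115237) (nat_lit 8) (node (nat_lit 7) (nat_lit 115663) (nat_lit 9) (node
  (nat_lit 4) (nat_lit 110393) (nat_lit 10) (node (nat_lit 5) (nat_lit 106555) (nat_lit 11) (node
  (nat_lit 4) (nat_lit 85588) (nat_lit 12) (node (nat_lit 7) (nat_lit 72487) (nat_lit 13) (node
  (nat_lit 5) (nat_lit 53090) (nat_lit 14) nil nil) nil) nil) nil) nil) (node (nat_lit 10)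
  (nat_lit 116572) (nat_lit 9) nil (node (nat_lit 4) (nat_lit 112927) (nat_lit 9) (node (nat_lit
  7) (nat_lit 112879) (nat_lit 10) nil nil) nil))) (node (nat_lit 0) (nat_lit 115252) (nat_lit 8)
  (node (nat_lit 4) (nat_lit 112942) (nat_lit 9) nil (node (nat_lit 5) (nat_lit 112942) (nat_lit
  9) nil nil)) (node (nat_lit 7) (nat_lit 114480) (nat_lit 8) (node (nat_lit 4) (nat_lit 116746)
  (nat_lit 9) nil nil) nil)))) (node (nat_lit 5) (nat_lit 0) (nat_lit 7) (node (nat_lit 0)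
  (nat_lit 0) (nat_lit 8) (node (nat_lit 4) (nat_lit 115127) (nat_lit 9) (node (nat_lit 5)
  (nat_lit 116061) (nat_lit 10) (node (nat_lit 4) (nat_lit 113874) (nat_lit 11) nil (node (nat_lit
  7) (nat_lit 112640) (nat_lit 11) (node (nat_lit 4) (nat_lit 111410) (nat_lit 12) nil nil) nil))
  (node (nat_lit 7) (nat_lit 110504) (nat_lit 10) nil (node (nat_lit 11) (nat_lit 116061) (nat_lit
  10) nil nil))) (node (nat_lit 5) (nat_lit 113186) (nat_lit 9) (node (nat_lit 4) (nat_lit 110434)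
  (nat_lit 10) (node (nat_lit 11) (nat_lit 111256) (nat_lit 11) nil nil) nil) (node (nat_lit 7)
  (nat_lit 115666) (nat_lit 9) (node (nat_lit 5) (nat_lit 112914) (nat_lit 10) nil nil) (node
  (nat_lit 0) (nat_lit 114372) (nat_lit 9) nil nil)))) (node (nat_lit 7) (nat_lit 0) (nat_lit 8)
  (node (nat_lit 5) (nat_lit 111269) (nat_lit 9) nil (node (nat_lit 4) (nat_lit 109323) (nat_lit
  9) nil (node (nat_lit 0) (nat_lit 111269) (nat_lit 9) nil nil))) nil)) nil)) nil))) (node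
  (nat_lit 4) (nat_lit 0) (nat_lit 5) t374 (node (nat_lit 0) (nat_lit 0) (nat_lit 5) (node
  (nat_lit 4) (nat_lit 0) (nat_lit 6) (node (nat_lit 7) (nat_lit 111365) (nat_lit 7) (node
  (nat_lit 5) (nat_lit 109408) (nat_lit 8) (node (nat_lit 7) (nat_lit 109287) (nat_lit 9) (node
  (nat_lit 4) (nat_lit 107848) (nat_lit 10) (node (nat_lit 5) (nat_lit 104718) (nat_lit 11) (node
  (nat_lit 4) (nat_lit 95553) (nat_lit 12) (node (nat_lit 7) (nat_lit 83357) (nat_lit 13) nil nil)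
  nil) nil) nil) nil) (node (nat_lit 4) (nat_lit 107801) (nat_lit 8) (node (nat_lit 5) (nat_lit
  93923) (nat_lit 9) (node (nat_lit 4) (nat_lit 68602) (nat_lit 10) (node (nat_lit 7) (nat_lit
  55658) (nat_lit 11) nil nil) nil) nil) nil)) (node (nat_lit 5) (nat_lit 109474) (nat_lit 7)
  (node (nat_lit 7) (nat_lit 109225) (nat_lit 8) (node (nat_lit 4) (nat_lit 106562) (nat_lit 9)
  (node (nat_lit 5) (nat_lit 89613) (nat_lit 10) (node (nat_lit 4) (nat_lit 75001) (nat_lit 11)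
  (node (nat_lit 7) (nat_lit 55549) (nat_lit 12) nil nil) nil) nil) (node (nat_lit 5) (nat_lit
  109808) (nat_lit 9) nil nil)) (node (nat_lit 4) (nat_lit 107516) (nat_lit 8) (node (nat_lit 7)
  (nat_lit 107395) (nat_lit 9) (node (nat_lit 4) (nat_lit 105507) (nat_lit 10) nil nil) nil) nil))
  (node (nat_lit 8) (nat_lit 113216) (nat_lit 7) (node (nat_lit 7) (nat_lit 114025) (nat_lit 8)
  (node (nat_lit 4) (nat_lit 114608) (nat_lit 9) nil nil) (node (nat_lit 5) (nat_lit 109383)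
  (nat_lit 8) (node (nat_lit 7) (nat_lit 109146) (nat_lit 9) (node (nat_lit 4) (nat_lit 105791)
  (nat_lit 10) (node (nat_lit 5) (nat_lit 102276) (nat_lit 11) (node (nat_lit 4) (nat_lit 93900)
  (nat_lit 12) (node (nat_lit 7) (nat_lit 82587) (nat_lit 13) nil nil) nil) nil) nil) (node
  (nat_lit 4) (nat_lit 106031) (nat_lit 9) nil nil)) nil)) (node (nat_lit 0) (nat_lit 111899)
  (nat_lit 7) nil nil)))) (node (nat_lit 5) (nat_lit 0) (nat_lit 6) (node (nat_lit 4) (nat_lit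
  109474) (nat_lit 7) (node (nat_lit 7) (nat_lit 109225) (nat_lit 8) (node (nat_lit 4) (nat_lit
  104611) (nat_lit 9) (node (nat_lit 5) (nat_lit 98579) (nat_lit 10) (node (nat_lit 4) (nat_lit
  64685) (nat_lit 11) (node (nat_lit 7) (nat_lit 35356) (nat_lit 12) nil nil) nil) nil) (node
  (nat_lit 5) (nat_lit 107630) (nat_lit 9) (node (nat_lit 7) (nat_lit 107683) (nat_lit 10) (node
  (nat_lit 4) (nat_lit 105894) (nat_lit 11) (node (nat_lit 5) (nat_lit 103521) (nat_lit 12) nil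
  nil) nil) nil) nil)) (node (nat_lit 5) (nat_lit 107516) (nat_lit 8) (node (nat_lit 7) (nat_lit
  107395) (nat_lit 9) (node (nat_lit 4) (nat_lit 105507) (nat_lit 10) (node (nat_lit 5) (nat_lit
  101831) (nat_lit 11) nil nil) nil) nil) nil)) (node (nat_lit 8) (nat_lit 113216) (nat_lit 7)
  (node (nat_lit 4) (nat_lit 109908) (nat_lit 8) (node (nat_lit 7) (nat_lit 109672) (nat_lit 9)
  (node (nat_lit 4) (nat_lit 106316) (nat_lit 10) (node (nat_lit 5) (nat_lit 101826) (nat_lit 11)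
  nil nil) nil) (node (nat_lit 5) (nat_lit 106556) (nat_lit 9) (node (nat_lit 7) (nat_lit 106504)
  (nat_lit 10) nil nil) nil)) (node (nat_lit 7) (nat_lit 114025) (nat_lit 8) nil nil)) (node
  (nat_lit 7) (nat_lit 111365) (nat_lit 7) (node (nat_lit 4) (nat_lit 98200) (nat_lit 8) (node
  (nat_lit 5) (nat_lit 85882) (nat_lit 9) (node (nat_lit 4) (nat_lit 61385) (nat_lit 10) (node
  (nat_lit 7) (nat_lit 46620) (nat_lit 11) nil nil) nil) (node (nat_lit 7) (nat_lit 99424)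
  (nat_lit 9) nil nil)) (node (nat_lit 5) (nat_lit 112175) (nat_lit 8) nil nil)) (node (nat_lit 0)
  (nat_lit 111808) (nat_lit 7) nil nil)))) (node (nat_lit 7) (nat_lit 109589) (nat_lit 6) (node
  (nat_lit 5) (nat_lit 114476) (nat_lit 7) (node (nat_lit 4) (nat_lit 112102) (nat_lit 8) (node
  (nat_lit 5) (nat_lit 108750) (nat_lit 9) (node (nat_lit 7) (nat_lit 108698) (nat_lit 10) (node
  (nat_lit 4) (nat_lit 106449) (nat_lit 11) nil nil) nil) (node (nat_lit 7) (nat_lit 111865)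
  (nat_lit 9) (node (nat_lit 4) (nat_lit 104190) (nat_lit 10) (node (nat_lit 5) (nat_lit 100860)
  (nat_lit 11) nil nil) nil) nil)) (node (nat_lit 7) (nat_lit 107689) (nat_lit 8) (node (nat_lit
  4) (nat_lit 102271) (nat_lit 9) (node (nat_lit 5) (nat_lit 97472) (nat_lit 10) (node (nat_lit 4)
  (nat_lit 76136) (nat_lit 11) (node (nat_lit 7) (nat_lit 56364) (nat_lit 12) nil nil) nil) nil)
  nil) nil)) (node (nat_lit 4) (nat_lit 114887) (nat_lit 7) (node (nat_lit 5) (nat_lit 116834)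
  (nat_lit 8) (node (nat_lit 4) (nat_lit 113482) (nat_lit 9) (node (nat_lit 7) (nat_lit 113430)
  (nat_lit 10) nil nil) nil) (node (nat_lit 7) (nat_lit 116834) (nat_lit 8) nil (node (nat_lit 8)
  (nat_lit 116834) (nat_lit 8) nil nil))) nil)) (node (nat_lit 0) (nat_lit 0) (nat_lit 6) (node
  (nat_lit 4) (nat_lit 114007) (nat_lit 7) (node (nat_lit 7) (nat_lit 108754) (nat_lit 8) (node
  (nat_lit 4) (nat_lit 93149) (nat_lit 9) (node (nat_lit 5) (nat_lit 86403) (nat_lit 10) nil nil)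
  nil) (node (nat_lit 5) (nat_lit 112009) (nat_lit 8) (node (nat_lit 7) (nat_lit 109613) (nat_lit
  9) nil nil) nil)) (node (nat_lit 7) (nat_lit 113956) (nat_lit 7) (node (nat_lit 4) (nat_lit
  115903) (nat_lit 8) nil (node (nat_lit 5) (nat_lit 109908) (nat_lit 8) nil nil)) (node (nat_lit
  5) (nat_lit 114476) (nat_lit 7) (node (nat_lit 7) (nat_lit 107596) (nat_lit 8) (node (nat_lit 4)
  (nat_lit 102178) (nat_lit 9) (node (nat_lit 5) (nat_lit 86118) (nat_lit 10) nil nil) nil) (node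
  (nat_lit 4) (nat_lit 112009) (nat_lit 8) (node (nat_lit 7) (nat_lit 107273) (nat_lit 9) nil nil)
  nil)) (node (nat_lit 8) (nat_lit 113728) (nat_lit 7) nil (node (nat_lit 0) (nat_lit 113728)
  (nat_lit 7) nil nil))))) nil)))) nil)))

noncomputable def c43 : Tr :=
  (node (nat_lit 3) (nat_lit 0) (nat_lit 1) (node (nat_lit 3) (nat_lit 0) (nat_lit 2) (node
  (nat_lit 3) (nat_lit 0) (nat_lit 3) (node (nat_lit 4) (nat_lit 0) (nat_lit 4) (node (nat_lit 6)
  (nat_lit 0) (nat_lit 5) t371 t372) (node (nat_lit 5) (nat_lit 0) (nat_lit 4) (node (nat_lit 4)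
  (nat_lit 0) (nat_lit 5) t373 (node (nat_lit 0) (nat_lit 0) (nat_lit 5) (node (nat_lit 4)
  (nat_lit 0) (nat_lit 6) (node (nat_lit 6) (nat_lit 134197) (nat_lit 7) (node (nat_lit 5)
  (nat_lit 141247) (nat_lit 8) (node (nat_lit 4) (nat_lit 140321) (nat_lit 9) (node (nat_lit 5)
  (nat_lit 122135) (nat_lit 10) (node (nat_lit 6) (nat_lit 112390) (nat_lit 11) (node (nat_lit 5)
  (nat_lit 81798) (nat_lit 12) nil nil) nil) nil) (node (nat_lit 6) (nat_lit 143705) (nat_lit 9)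
  (node (nat_lit 4) (nat_lit 143116) (nat_lit 10) (node (nat_lit 5) (nat_lit 137608) (nat_lit 11)
  nil nil) nil) nil)) (node (nat_lit 4) (nat_lit 128153) (nat_lit 8) (node (nat_lit 5) (nat_lit
  123229) (nat_lit 9) (node (nat_lit 6) (nat_lit 103509) (nat_lit 10) (node (nat_lit 5) (nat_lit
  63621) (nat_lit 11) nil nil) nil) (node (nat_lit 8) (nat_lit 126822) (nat_lit 9) nil nil)) (node
  (nat_lit 8) (nat_lit 139243) (nat_lit 8) (node (nat_lit 4) (nat_lit 141585) (nat_lit 9) nil nil)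
  nil))) (node (nat_lit 8) (nat_lit 143015) (nat_lit 7) (node (nat_lit 6) (nat_lit 147142)
  (nat_lit 8) (node (nat_lit 5) (nat_lit 144829) (nat_lit 9) (node (nat_lit 4) (nat_lit 140661)
  (nat_lit 10) (node (nat_lit 5) (nat_lit 135587) (nat_lit 11) (node (nat_lit 6) (nat_lit 118157)
  (nat_lit 12) nil nil) nil) (node (nat_lit 6) (nat_lit 145058) (nat_lit 10) (node (nat_lit 4)
  (nat_lit 145164) (nat_lit 11) nil nil) nil)) nil) (node (nat_lit 5) (nat_lit 149148) (nat_lit 8)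
  (node (nat_lit 6) (nat_lit 145027) (nat_lit 9) (node (nat_lit 4) (nat_lit 144439) (nat_lit 10)
  (node (nat_lit 5) (nat_lit 137479) (nat_lit 11) (node (nat_lit 6) (nat_lit 130938) (nat_lit 12)
  nil nil) nil) (node (nat_lit 5) (nat_lit 145058) (nat_lit 10) nil nil)) nil) nil)) (node
  (nat_lit 5) (nat_lit 144518) (nat_lit 7) (node (nat_lit 6) (nat_lit 148246) (nat_lit 8) (node
  (nat_lit 5) (nat_lit 142551) (nat_lit 9) (node (nat_lit 4) (nat_lit 138383) (nat_lit 10) (node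
  (nat_lit 5) (nat_lit 133308) (nat_lit 11) (node (nat_lit 6) (nat_lit 125978) (nat_lit 12) nil
  nil) nil) nil) nil) (node (nat_lit 4) (nat_lit 150111) (nat_lit 8) (node (nat_lit 6) (nat_lit
  140171) (nat_lit 9) nil nil) (node (nat_lit 8) (nat_lit 148246) (nat_lit 8) nil nil))) (node
  (nat_lit 0) (nat_lit 140249) (nat_lit 7) nil nil)))) (node (nat_lit 6) (nat_lit 0) (nat_lit 6)
  (node (nat_lit 5) (nat_lit 125690) (nat_lit 7) (node (nat_lit 4) (nat_lit 136903) (nat_lit 8)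
  (node (nat_lit 5) (nat_lit 121242) (nat_lit 9) (node (nat_lit 6) (nat_lit 107099) (nat_lit 10)
  (node (nat_lit 5) (nat_lit 84186) (nat_lit 11) (node (nat_lit 8) (nat_lit 76311) (nat_lit 12)
  nil nil) nil) nil) (node (nat_lit 6) (nat_lit 141154) (nat_lit 9) (node (nat_lit 4) (nat_lit
  140624) (nat_lit 10) (node (nat_lit 5) (nat_lit 129533) (nat_lit 11) (node (nat_lit 6) (nat_lit
  121227) (nat_lit 12) nil nil) nil) nil) nil)) (node (nat_lit 6) (nat_lit 131282) (nat_lit 8)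
  (node (nat_lit 4) (nat_lit 140977) (nat_lit 9) (node (nat_lit 5) (nat_lit 135323) (nat_lit 10)
  (node (nat_lit 6) (nat_lit 98560) (nat_lit 11) (node (nat_lit 5) (nat_lit 82006) (nat_lit 12)
  nil nil) nil) nil) nil) nil)) (node (nat_lit 8) (nat_lit 0) (nat_lit 7) (node (nat_lit 5)
  (nat_lit 131479) (nat_lit 8) (node (nat_lit 6) (nat_lit 137927) (nat_lit 9) (node (nat_lit 4)
  (nat_lit 135894) (nat_lit 10) (node (nat_lit 5) (nat_lit 131795) (nat_lit 11) nil nil) nil)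
  (node (nat_lit 4) (nat_lit 138506) (nat_lit 9) nil nil)) (node (nat_lit 4) (nat_lit 142470)
  (nat_lit 8) (node (nat_lit 6) (nat_lit 138349) (nat_lit 9) (node (nat_lit 4) (nat_lit 131522)
  (nat_lit 10) (node (nat_lit 5) (nat_lit 127423) (nat_lit 11) (node (nat_lit 6) (nat_lit 119906)
  (nat_lit 12) (node (nat_lit 5) (nat_lit 108748) (nat_lit 13) nil nil) nil) nil) nil) (node
  (nat_lit 5) (nat_lit 144812) (nat_lit 9) nil nil)) (node (nat_lit 0) (nat_lit 127589) (nat_lit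
  8) nil nil))) (node (nat_lit 4) (nat_lit 140185) (nat_lit 7) (node (nat_lit 5) (nat_lit 145778)
  (nat_lit 8) (node (nat_lit 6) (nat_lit 143876) (nat_lit 9) (node (nat_lit 5) (nat_lit 143907)
  (nat_lit 10) (node (nat_lit 8) (nat_lit 30472) (nat_lit 11) nil (node (nat_lit 4) (nat_lit
  141091) (nat_lit 11) nil nil)) nil) nil) (node (nat_lit 6) (nat_lit 144108) (nat_lit 8) (node
  (nat_lit 5) (nat_lit 133970) (nat_lit 9) (node (nat_lit 4) (nat_lit 129802) (nat_lit 10) nil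
  nil) nil) nil)) (node (nat_lit 0) (nat_lit 136747) (nat_lit 7) nil nil)))) (node (nat_lit 5)
  (nat_lit 115932) (nat_lit 6) (node (nat_lit 6) (nat_lit 126401) (nat_lit 7) (node (nat_lit 4)
  (nat_lit 135581) (nat_lit 8) (node (nat_lit 5) (nat_lit 124370) (nat_lit 9) (node (nat_lit 6)
  (nat_lit 108073) (nat_lit 10) (node (nat_lit 5) (nat_lit 91045) (nat_lit 11) nil nil) (node
  (nat_lit 4) (nat_lit 122572) (nat_lit 10) nil nil)) nil) (node (nat_lit 5) (nat_lit 132452)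
  (nat_lit 8) (node (nat_lit 4) (nat_lit 133377) (nat_lit 9) (node (nat_lit 5) (nat_lit 113325)
  (nat_lit 10) (node (nat_lit 6) (nat_lit 110931) (nat_lit 11) nil nil) nil) nil) (node (nat_lit
  8) (nat_lit 131993) (nat_lit 8) (node (nat_lit 5) (nat_lit 134336) (nat_lit 9) nil nil) nil)))
  (node (nat_lit 4) (nat_lit 139829) (nat_lit 7) (node (nat_lit 6) (nat_lit 145842) (nat_lit 8)
  (node (nat_lit 5) (nat_lit 141583) (nat_lit 9) (node (nat_lit 4) (nat_lit 138488) (nat_lit 10)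
  (node (nat_lit 5) (nat_lit 134574) (nat_lit 11) (node (nat_lit 6) (nat_lit 126716) (nat_lit 12)
  nil nil) nil) nil) (node (nat_lit 4) (nat_lit 143376) (nat_lit 9) (node (nat_lit 5) (nat_lit
  137113) (nat_lit 10) (node (nat_lit 6) (nat_lit 124352) (nat_lit 11) (node (nat_lit 5) (nat_lit
  103424) (nat_lit 12) nil nil) nil) nil) nil)) (node (nat_lit 5) (nat_lit 143557) (nat_lit 8) nil
  nil)) nil)) (node (nat_lit 0) (nat_lit 0) (nat_lit 6) (node (nat_lit 4) (nat_lit 142795)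
  (nat_lit 7) (node (nat_lit 6) (nat_lit 139091) (nat_lit 8) (node (nat_lit 4) (nat_lit 131762)
  (nat_lit 9) (node (nat_lit 5) (nat_lit 124267) (nat_lit 10) nil nil) (node (nat_lit 5) (nat_lit
  134511) (nat_lit 9) nil nil)) (node (nat_lit 5) (nat_lit 146523) (nat_lit 8) (node (nat_lit 6)
  (nat_lit 144621) (nat_lit 9) nil nil) nil)) (node (nat_lit 6) (nat_lit 140326) (nat_lit 7) (node
  (nat_lit 5) (nat_lit 137924) (nat_lit 8) (node (nat_lit 4) (nat_lit 135040) (nat_lit 9) (node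
  (nat_lit 5) (nat_lit 116137) (nat_lit 10) nil nil) nil) (node (nat_lit 4) (nat_lit 145918)
  (nat_lit 8) nil nil)) (node (nat_lit 5) (nat_lit 143506) (nat_lit 7) (node (nat_lit 6) (nat_lit
  138594) (nat_lit 8) (node (nat_lit 4) (nat_lit 137143) (nat_lit 9) (node (nat_lit 5) (nat_lit
  123698) (nat_lit 10) nil nil) nil) (node (nat_lit 4) (nat_lit 141416) (nat_lit 8) (node (nat_lit
  6) (nat_lit 137295) (nat_lit 9) nil nil) nil)) (node (nat_lit 8) (nat_lit 142157) (nat_lit 7)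
  nil (node (nat_lit 0) (nat_lit 139182) (nat_lit 7) nil nil))))) nil)))) nil)) nil)) (node
  (nat_lit 4) (nat_lit 0) (nat_lit 3) (node (nat_lit 3) (nat_lit 0) (nat_lit 4) t375 nil) nil))
  nil) nil)

noncomputable def t376 : Tr :=
  (node (nat_lit 5) (nat_lit 0) (nat_lit 5) (node (nat_lit 7) (nat_lit 0) (nat_lit 6) (node
  (nat_lit 6) (nat_lit 101696) (nat_lit 7) (node (nat_lit 5) (nat_lit 102888) (nat_lit 8) (node
  (nat_lit 6) (nat_lit 105842) (nat_lit 9) (node (nat_lit 4) (nat_lit 107485) (nat_lit 10) (node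
  (nat_lit 5) (nat_lit 107895) (nat_lit 11) (node (nat_lit 6) (nat_lit 106900) (nat_lit 12) nil
  nil) (node (nat_lit 6) (nat_lit 106272) (nat_lit 11) (node (nat_lit 5) (nat_lit 105547) (nat_lit
  12) nil nil) nil)) (node (nat_lit 7) (nat_lit 108141) (nat_lit 10) nil (node (nat_lit 0)
  (nat_lit 108141) (nat_lit 10) nil nil))) (node (nat_lit 4) (nat_lit 105551) (nat_lit 9) (node
  (nat_lit 6) (nat_lit 106708) (nat_lit 10) (node (nat_lit 4) (nat_lit 106061) (nat_lit 11) (node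
  (nat_lit 5) (nat_lit 104695) (nat_lit 12) (node (nat_lit 6) (nat_lit 100036) (nat_lit 13) (node
  (nat_lit 7) (nat_lit 92374) (nat_lit 14) (node (nat_lit 5) (nat_lit 81185) (nat_lit 15) nil nil)
  nil) nil) nil) (node (nat_lit 5) (nat_lit 106504) (nat_lit 11) nil nil)) (node (nat_lit 5)
  (nat_lit 107485) (nat_lit 10) (node (nat_lit 6) (nat_lit 107895) (nat_lit 11) nil nil) nil))
  (node (nat_lit 0) (nat_lit 107895) (nat_lit 9) nil nil))) (node (nat_lit 4) (nat_lit 101996)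
  (nat_lit 8) (node (nat_lit 5) (nat_lit 104832) (nat_lit 9) (node (nat_lit 6) (nat_lit 106233)
  (nat_lit 10) (node (nat_lit 5) (nat_lit 106225) (nat_lit 11) nil nil) (node (nat_lit 4) (nat_lit
  104714) (nat_lit 10) nil nil)) (node (nat_lit 6) (nat_lit 103440) (nat_lit 9) (node (nat_lit 5)
  (nat_lit 101523) (nat_lit 10) nil nil) (node (nat_lit 7) (nat_lit 107508) (nat_lit 9) nil (node
  (nat_lit 0) (nat_lit 106376) (nat_lit 9) nil nil)))) (node (nat_lit 7) (nat_lit 107253) (nat_lit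
  8) (node (nat_lit 5) (nat_lit 107253) (nat_lit 9) (node (nat_lit 6) (nat_lit 107253) (nat_lit
  10) nil (node (nat_lit 4) (nat_lit 107253) (nat_lit 10) nil nil)) (node (nat_lit 4) (nat_lit
  107253) (nat_lit 9) (node (nat_lit 6) (nat_lit 107253) (nat_lit 10) nil (node (nat_lit 5)
  (nat_lit 107253) (nat_lit 10) nil nil)) (node (nat_lit 0) (nat_lit 107895) (nat_lit 9) nil
  nil))) (node (nat_lit 0) (nat_lit 107253) (nat_lit 8) (node (nat_lit 6) (nat_lit 107253)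
  (nat_lit 9) nil (node (nat_lit 5) (nat_lit 107253) (nat_lit 9) nil (node (nat_lit 4) (nat_lit
  107253) (nat_lit 9) nil nil))) nil)))) (node (nat_lit 4) (nat_lit 101696) (nat_lit 7) (node
  (nat_lit 5) (nat_lit 103283) (nat_lit 8) (node (nat_lit 6) (nat_lit 105719) (nat_lit 9) (node
  (nat_lit 4) (nat_lit 107485) (nat_lit 10) (node (nat_lit 6) (nat_lit 106272) (nat_lit 11) nil
  (node (nat_lit 5) (nat_lit 107895) (nat_lit 11) nil nil)) (node (nat_lit 5) (nat_lit 106655)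
  (nat_lit 10) (node (nat_lit 4) (nat_lit 105443) (nat_lit 11) (node (nat_lit 5) (nat_lit 101610)
  (nat_lit 12) (node (nat_lit 6) (nat_lit 99408) (nat_lit 13) (node (nat_lit 7) (nat_lit 90833)
  (nat_lit 14) nil nil) nil) nil) nil) nil)) (node (nat_lit 4) (nat_lit 103466) (nat_lit 9) (node
  (nat_lit 6) (nat_lit 104321) (nat_lit 10) (node (nat_lit 4) (nat_lit 103673) (nat_lit 11) (node
  (nat_lit 5) (nat_lit 102309) (nat_lit 12) (node (nat_lit 6) (nat_lit 97649) (nat_lit 13) nil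
  nil) nil) (node (nat_lit 5) (nat_lit 105689) (nat_lit 11) nil nil)) (node (nat_lit 7) (nat_lit
  106403) (nat_lit 10) nil (node (nat_lit 0) (nat_lit 106403) (nat_lit 10) nil nil))) (node
  (nat_lit 0) (nat_lit 107663) (nat_lit 9) nil nil))) (node (nat_lit 6) (nat_lit 102071) (nat_lit
  8) (node (nat_lit 4) (nat_lit 105025) (nat_lit 9) nil (node (nat_lit 5) (nat_lit 104659)
  (nat_lit 9) nil nil)) (node (nat_lit 7) (nat_lit 106940) (nat_lit 8) nil (node (nat_lit 0)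
  (nat_lit 106940) (nat_lit 8) nil nil)))) (node (nat_lit 0) (nat_lit 105028) (nat_lit 7) (node
  (nat_lit 5) (nat_lit 105340) (nat_lit 8) nil (node (nat_lit 4) (nat_lit 105028) (nat_lit 8) nil
  (node (nat_lit 6) (nat_lit 105028) (nat_lit 8) nil (node (nat_lit 7) (nat_lit 106454) (nat_lit
  8) nil (node (nat_lit 0) (nat_lit 106454) (nat_lit 8) nil nil))))) nil))) (node (nat_lit 4)
  (nat_lit 0) (nat_lit 6) (node (nat_lit 6) (nat_lit 98218) (nat_lit 7) (node (nat_lit 5) (nat_lit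
  101381) (nat_lit 8) (node (nat_lit 4) (nat_lit 93500) (nat_lit 9) (node (nat_lit 5) (nat_lit
  83656) (nat_lit 10) (node (nat_lit 6) (nat_lit 76013) (nat_lit 11) (node (nat_lit 7) (nat_lit
  62975) (nat_lit 12) nil nil) nil) nil) (node (nat_lit 6) (nat_lit 102329) (nat_lit 9) (node
  (nat_lit 4) (nat_lit 100492) (nat_lit 10) (node (nat_lit 5) (nat_lit 97914) (nat_lit 11) nil
  nil) nil) nil)) (node (nat_lit 4) (nat_lit 102842) (nat_lit 8) (node (nat_lit 5) (nat_lit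
  104857) (nat_lit 9) (node (nat_lit 6) (nat_lit 104157) (nat_lit 10) nil nil) nil) (node (nat_lit
  7) (nat_lit 105682) (nat_lit 8) nil nil))) (node (nat_lit 7) (nat_lit 105028) (nat_lit 7) (node
  (nat_lit 4) (nat_lit 105028) (nat_lit 8) (node (nat_lit 5) (nat_lit 105097) (nat_lit 9) (node
  (nat_lit 4) (nat_lit 106892) (nat_lit 10) (node (nat_lit 6) (nat_lit 105370) (nat_lit 11) nil
  nil) nil) nil) (node (nat_lit 5) (nat_lit 105028) (nat_lit 8) nil (node (nat_lit 6) (nat_lit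
  105028) (nat_lit 8) (node (nat_lit 5) (nat_lit 105028) (nat_lit 9) nil nil) nil))) (node
  (nat_lit 5) (nat_lit 98195) (nat_lit 7) (node (nat_lit 6) (nat_lit 102599) (nat_lit 8) (node
  (nat_lit 4) (nat_lit 105826) (nat_lit 9) (node (nat_lit 6) (nat_lit 107253) (nat_lit 10) (node
  (nat_lit 5) (nat_lit 106448) (nat_lit 11) nil nil) nil) (node (nat_lit 5) (nat_lit 102333)
  (nat_lit 9) nil (node (nat_lit 7) (nat_lit 56194) (nat_lit 9) nil nil))) (node (nat_lit 7)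
  (nat_lit 105660) (nat_lit 8) nil nil)) (node (nat_lit 0) (nat_lit 104346) (nat_lit 7) nil
  nil)))) (node (nat_lit 6) (nat_lit 0) (nat_lit 6) (node (nat_lit 5) (nat_lit 97927) (nat_lit 7)
  (node (nat_lit 4) (nat_lit 103130) (nat_lit 8) (node (nat_lit 6) (nat_lit 105402) (nat_lit 9)
  (node (nat_lit 4) (nat_lit 105888) (nat_lit 10) (node (nat_lit 5) (nat_lit 102252) (nat_lit 11)
  (node (nat_lit 6) (nat_lit 96352) (nat_lit 12) (node (nat_lit 7) (nat_lit 69400) (nat_lit 13)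
  nil nil) nil) nil) (node (nat_lit 5) (nat_lit 104601) (nat_lit 10) nil nil)) (node (nat_lit 5)
  (nat_lit 105960) (nat_lit 9) nil nil)) (node (nat_lit 7) (nat_lit 107074) (nat_lit 8) (node
  (nat_lit 6) (nat_lit 107074) (nat_lit 9) nil nil) (node (nat_lit 0) (nat_lit 105392) (nat_lit 8)
  nil nil))) (node (nat_lit 4) (nat_lit 96099) (nat_lit 7) (node (nat_lit 5) (nat_lit 101402)
  (nat_lit 8) (node (nat_lit 6) (nat_lit 104865) (nat_lit 9) nil (node (nat_lit 4) (nat_lit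
  102816) (nat_lit 9) nil nil)) (node (nat_lit 6) (nat_lit 101456) (nat_lit 8) (node (nat_lit 5)
  (nat_lit 99033) (nat_lit 9) nil nil) (node (nat_lit 7) (nat_lit 103564) (nat_lit 8) nil nil)))
  (node (nat_lit 0) (nat_lit 104337) (nat_lit 7) nil nil))) (node (nat_lit 0) (nat_lit 0) (nat_lit
  6) (node (nat_lit 5) (nat_lit 102274) (nat_lit 7) (node (nat_lit 6) (nat_lit 102274) (nat_lit 8)
  nil (node (nat_lit 4) (nat_lit 102274) (nat_lit 8) nil nil)) (node (nat_lit 6) (nat_lit 101467)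
  (nat_lit 7) (node (nat_lit 5) (nat_lit 101467) (nat_lit 8) nil nil) (node (nat_lit 7) (nat_lit
  104422) (nat_lit 7) nil (node (nat_lit 4) (nat_lit 99149) (nat_lit 7) nil (node (nat_lit 0)
  (nat_lit 103089) (nat_lit 7) nil nil))))) nil)))) (node (nat_lit 0) (nat_lit 0) (nat_lit 5)
  (node (nat_lit 7) (nat_lit 0) (nat_lit 6) (node (nat_lit 6) (nat_lit 100212) (nat_lit 7) (node
  (nat_lit 8) (nat_lit 106814) (nat_lit 8) (node (nat_lit 7) (nat_lit 107895) (nat_lit 9) (node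
  (nat_lit 8) (nat_lit 108141) (nat_lit 10) nil nil) (node (nat_lit 6) (nat_lit 106814) (nat_lit
  9) (node (nat_lit 7) (nat_lit 108141) (nat_lit 10) nil nil) (node (nat_lit 5) (nat_lit 106814)
  (nat_lit 9) nil (node (nat_lit 4) (nat_lit 106814) (nat_lit 9) nil (node (nat_lit 0) (nat_lit
  107710) (nat_lit 9) nil nil))))) (node (nat_lit 5) (nat_lit 102058) (nat_lit 8) (node (nat_lit
  6) (nat_lit 104116) (nat_lit 9) nil nil) (node (nat_lit 4) (nat_lit 100366) (nat_lit 8) (node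
  (nat_lit 6) (nat_lit 99571) (nat_lit 9) nil nil) (node (nat_lit 7) (nat_lit 106144) (nat_lit 8)
  nil (node (nat_lit 0) (nat_lit 106019) (nat_lit 8) nil nil))))) (node (nat_lit 4) (nat_lit
  98769) (nat_lit 7) (node (nat_lit 8) (nat_lit 105790) (nat_lit 8) (node (nat_lit 4) (nat_lit
  105790) (nat_lit 9) nil nil) (node (nat_lit 6) (nat_lit 101054) (nat_lit 8) (node (nat_lit 4)
  (nat_lit 104008) (nat_lit 9) nil nil) (node (nat_lit 7) (nat_lit 105790) (nat_lit 8) nil (node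
  (nat_lit 5) (nat_lit 100823) (nat_lit 8) (node (nat_lit 4) (nat_lit 99873) (nat_lit 9) nil nil)
  (node (nat_lit 0) (nat_lit 105790) (nat_lit 8) nil nil))))) (node (nat_lit 5) (nat_lit 101963)
  (nat_lit 7) (node (nat_lit 8) (nat_lit 106940) (nat_lit 8) (node (nat_lit 5) (nat_lit 106940)
  (nat_lit 9) nil nil) (node (nat_lit 6) (nat_lit 103215) (nat_lit 8) (node (nat_lit 5) (nat_lit
  105090) (nat_lit 9) nil nil) (node (nat_lit 7) (nat_lit 106940) (nat_lit 8) nil (node (nat_lit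
  4) (nat_lit 101374) (nat_lit 8) (node (nat_lit 5) (nat_lit 103432) (nat_lit 9) nil nil) (node
  (nat_lit 0) (nat_lit 106814) (nat_lit 8) nil nil))))) (node (nat_lit 0) (nat_lit 105028)
  (nat_lit 7) (node (nat_lit 8) (nat_lit 106940) (nat_lit 8) nil (node (nat_lit 7) (nat_lit
  106940) (nat_lit 8) nil (node (nat_lit 6) (nat_lit 105028) (nat_lit 8) nil (node (nat_lit 5)
  (nat_lit 105028) (nat_lit 8) nil (node (nat_lit 4) (nat_lit 105028) (nat_lit 8) nil (node
  (nat_lit 0) (nat_lit 106454) (nat_lit 8) nil nil)))))) nil)))) (node (nat_lit 6) (nat_lit 0)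
  (nat_lit 6) (node (nat_lit 8) (nat_lit 104814) (nat_lit 7) (node (nat_lit 7) (nat_lit 107039)
  (nat_lit 8) (node (nat_lit 8) (nat_lit 107895) (nat_lit 9) (node (nat_lit 6) (nat_lit 107895)
  (nat_lit 10) (node (nat_lit 7) (nat_lit 108141) (nat_lit 11) nil nil) nil) (node (nat_lit 6)
  (nat_lit 107039) (nat_lit 9) nil nil)) (node (nat_lit 5) (nat_lit 104814) (nat_lit 8) nil (node
  (nat_lit 4) (nat_lit 104814) (nat_lit 8) nil (node (nat_lit 0) (nat_lit 106726) (nat_lit 8) nil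
  nil)))) (node (nat_lit 4) (nat_lit 96022) (nat_lit 7) (node (nat_lit 6) (nat_lit 99002) (nat_lit
  8) nil (node (nat_lit 5) (nat_lit 100456) (nat_lit 8) nil (node (nat_lit 8) (nat_lit 103486)
  (nat_lit 8) nil (node (nat_lit 7) (nat_lit 103486) (nat_lit 8) nil nil)))) (node (nat_lit 5)
  (nat_lit 97579) (nat_lit 7) (node (nat_lit 4) (nat_lit 100125) (nat_lit 8) nil (node (nat_lit 6)
  (nat_lit 102757) (nat_lit 8) nil (node (nat_lit 8) (nat_lit 105044) (nat_lit 8) nil (node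
  (nat_lit 7) (nat_lit 105044) (nat_lit 8) nil nil)))) (node (nat_lit 0) (nat_lit 104133) (nat_lit
  7) nil (node (nat_lit 7) (nat_lit 104806) (nat_lit 7) (node (nat_lit 6) (nat_lit 104806)
  (nat_lit 8) nil nil) nil))))) (node (nat_lit 5) (nat_lit 0) (nat_lit 6) (node (nat_lit 4)
  (nat_lit 97496) (nat_lit 7) (node (nat_lit 6) (nat_lit 99710) (nat_lit 8) (node (nat_lit 4)
  (nat_lit 101767) (nat_lit 9) nil nil) (node (nat_lit 5) (nat_lit 100699) (nat_lit 8) nil (node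
  (nat_lit 7) (nat_lit 104960) (nat_lit 8) nil nil))) (node (nat_lit 6) (nat_lit 96839) (nat_lit
  7) (node (nat_lit 5) (nat_lit 102606) (nat_lit 8) nil (node (nat_lit 4) (nat_lit 100820)
  (nat_lit 8) nil (node (nat_lit 8) (nat_lit 104304) (nat_lit 8) nil nil))) (node (nat_lit 8)
  (nat_lit 104359) (nat_lit 7) nil (node (nat_lit 7) (nat_lit 104359) (nat_lit 7) nil (node
  (nat_lit 0) (nat_lit 104044) (nat_lit 7) nil nil))))) (node (nat_lit 4) (nat_lit 0) (nat_lit 6)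
  (node (nat_lit 5) (nat_lit 94028) (nat_lit 7) (node (nat_lit 6) (nat_lit 98585) (nat_lit 8)
  (node (nat_lit 5) (nat_lit 96706) (nat_lit 9) nil nil) (node (nat_lit 4) (nat_lit 98293)
  (nat_lit 8) nil (node (nat_lit 7) (nat_lit 101493) (nat_lit 8) nil nil))) (node (nat_lit 6)
  (nat_lit 95085) (nat_lit 7) (node (nat_lit 4) (nat_lit 101155) (nat_lit 8) nil (node (nat_lit 5)
  (nat_lit 94698) (nat_lit 8) nil (node (nat_lit 8) (nat_lit 102549) (nat_lit 8) nil nil))) (node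
  (nat_lit 8) (nat_lit 103986) (nat_lit 7) nil (node (nat_lit 7) (nat_lit 103986) (nat_lit 7) nil
  (node (nat_lit 0) (nat_lit 103385) (nat_lit 7) nil nil))))) (node (nat_lit 0) (nat_lit 0)
  (nat_lit 6) (node (nat_lit 8) (nat_lit 104133) (nat_lit 7) (node (nat_lit 7) (nat_lit 105559)
  (nat_lit 8) nil nil) (node (nat_lit 7) (nat_lit 104133) (nat_lit 7) (node (nat_lit 8) (nat_lit
  105559) (nat_lit 8) nil nil) (node (nat_lit 4) (nat_lit 100664) (nat_lit 7) nil (node (nat_lit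
  5) (nat_lit 100664) (nat_lit 7) nil (node (nat_lit 6) (nat_lit 100664) (nat_lit 7) nil (node
  (nat_lit 0) (nat_lit 102722) (nat_lit 7) nil nil)))))) nil))))) (node (nat_lit 6) (nat_lit 0)
  (nat_lit 5) (node (nat_lit 5) (nat_lit 0) (nat_lit 6) (node (nat_lit 4) (nat_lit 95321) (nat_lit
  7) (node (nat_lit 5) (nat_lit 101115) (nat_lit 8) (node (nat_lit 6) (nat_lit 104254) (nat_lit 9)
  (node (nat_lit 4) (nat_lit 105681) (nat_lit 10) nil (node (nat_lit 7) (nat_lit 55855) (nat_lit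
  10) nil nil)) nil) (node (nat_lit 6) (nat_lit 100403) (nat_lit 8) (node (nat_lit 4) (nat_lit
  99784) (nat_lit 9) (node (nat_lit 5) (nat_lit 95634) (nat_lit 10) (node (nat_lit 6) (nat_lit
  83075) (nat_lit 11) nil nil) nil) (node (nat_lit 5) (nat_lit 100964) (nat_lit 9) nil nil)) nil))
  (node (nat_lit 6) (nat_lit 97312) (nat_lit 7) (node (nat_lit 4) (nat_lit 102543) (nat_lit 8)
  (node (nat_lit 5) (nat_lit 103874) (nat_lit 9) nil (node (nat_lit 6) (nat_lit 101748) (nat_lit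
  9) nil nil)) (node (nat_lit 7) (nat_lit 106967) (nat_lit 8) (node (nat_lit 5) (nat_lit 106967)
  (nat_lit 9) (node (nat_lit 6) (nat_lit 106967) (nat_lit 10) nil nil) nil) (node (nat_lit 0)
  (nat_lit 104776) (nat_lit 8) nil nil))) (node (nat_lit 7) (nat_lit 104776) (nat_lit 7) (node
  (nat_lit 5) (nat_lit 104776) (nat_lit 8) (node (nat_lit 6) (nat_lit 104776) (nat_lit 9) nil nil)
  nil) (node (nat_lit 0) (nat_lit 102603) (nat_lit 7) nil nil)))) (node (nat_lit 4) (nat_lit 0)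
  (nat_lit 6) (node (nat_lit 5) (nat_lit 94992) (nat_lit 7) (node (nat_lit 4) (nat_lit 98246)
  (nat_lit 8) (node (nat_lit 6) (nat_lit 99242) (nat_lit 9) (node (nat_lit 5) (nat_lit 100851)
  (nat_lit 10) (node (nat_lit 6) (nat_lit 101474) (nat_lit 11) (node (nat_lit 4) (nat_lit 101464)
  (nat_lit 12) nil nil) nil) (node (nat_lit 4) (nat_lit 98520) (nat_lit 10) (node (nat_lit 5)
  (nat_lit 95688) (nat_lit 11) nil nil) nil)) nil) (node (nat_lit 6) (nat_lit 99659) (nat_lit 8)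
  (node (nat_lit 5) (nat_lit 99286) (nat_lit 9) (node (nat_lit 4) (nat_lit 93531) (nat_lit 10)
  (node (nat_lit 5) (nat_lit 86743) (nat_lit 11) nil nil) nil) (node (nat_lit 4) (nat_lit 102613)
  (nat_lit 9) nil (node (nat_lit 7) (nat_lit 51469) (nat_lit 9) nil nil))) nil)) (node (nat_lit 6)
  (nat_lit 94038) (nat_lit 7) (node (nat_lit 5) (nat_lit 99304) (nat_lit 8) (node (nat_lit 4)
  (nat_lit 96723) (nat_lit 9) (node (nat_lit 5) (nat_lit 84745) (nat_lit 10) (node (nat_lit 6)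
  (nat_lit 59134) (nat_lit 11) (node (nat_lit 7) (nat_lit 61633) (nat_lit 12) nil nil) nil) nil)
  (node (nat_lit 6) (nat_lit 98210) (nat_lit 9) nil nil)) (node (nat_lit 7) (nat_lit 103825)
  (nat_lit 8) nil (node (nat_lit 0) (nat_lit 101502) (nat_lit 8) nil nil))) (node (nat_lit 7)
  (nat_lit 102335) (nat_lit 7) (node (nat_lit 4) (nat_lit 102335) (nat_lit 8) nil nil) (node
  (nat_lit 0) (nat_lit 101246) (nat_lit 7) nil nil)))) (node (nat_lit 0) (nat_lit 0) (nat_lit 6)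
  (node (nat_lit 6) (nat_lit 100215) (nat_lit 7) (node (nat_lit 7) (nat_lit 106022) (nat_lit 8)
  nil (node (nat_lit 5) (nat_lit 99515) (nat_lit 8) nil (node (nat_lit 4) (nat_lit 100393)
  (nat_lit 8) nil (node (nat_lit 0) (nat_lit 103700) (nat_lit 8) nil nil)))) (node (nat_lit 4)
  (nat_lit 97640) (nat_lit 7) (node (nat_lit 6) (nat_lit 97640) (nat_lit 8) nil (node (nat_lit 9)
  (nat_lit 101124) (nat_lit 8) nil (node (nat_lit 7) (nat_lit 101124) (nat_lit 8) nil nil))) (node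
  (nat_lit 5) (nat_lit 101400) (nat_lit 7) (node (nat_lit 6) (nat_lit 101400) (nat_lit 8) nil
  (node (nat_lit 9) (nat_lit 104884) (nat_lit 8) nil nil)) (node (nat_lit 7) (nat_lit 104476)
  (nat_lit 7) nil (node (nat_lit 0) (nat_lit 103795) (nat_lit 7) nil nil))))) nil))) nil)))

noncomputable def t377 : Tr :=
  (node (nat_lit 4) (nat_lit 0) (nat_lit 4) (node (nat_lit 0) (nat_lit 0) (nat_lit 5) (node
  (nat_lit 4) (nat_lit 0) (nat_lit 6) (node (nat_lit 6) (nat_lit 79858) (nat_lit 7) (node (nat_lit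
  8) (nat_lit 90653) (nat_lit 8) (node (nat_lit 4) (nat_lit 90300) (nat_lit 9) (node (nat_lit 5)
  (nat_lit 90653) (nat_lit 10) (node (nat_lit 6) (nat_lit 91548) (nat_lit 11) (node (nat_lit 5)
  (nat_lit 92162) (nat_lit 12) (node (nat_lit 4) (nat_lit 91368) (nat_lit 13) nil nil) nil) (node
  (nat_lit 4) (nat_lit 91548) (nat_lit 11) (node (nat_lit 6) (nat_lit 90921) (nat_lit 12) nil nil)
  nil)) (node (nat_lit 8) (nat_lit 92162) (nat_lit 10) (node (nat_lit 6) (nat_lit 92162) (nat_lit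
  11) (node (nat_lit 4) (nat_lit 92162) (nat_lit 12) nil nil) nil) (node (nat_lit 0) (nat_lit
  91810) (nat_lit 10) nil nil))) (node (nat_lit 6) (nat_lit 90653) (nat_lit 9) (node (nat_lit 4)
  (nat_lit 90653) (nat_lit 10) nil nil) (node (nat_lit 5) (nat_lit 90653) (nat_lit 9) nil nil)))
  (node (nat_lit 5) (nat_lit 85167) (nat_lit 8) (node (nat_lit 6) (nat_lit 87907) (nat_lit 9)
  (node (nat_lit 4) (nat_lit 89334) (nat_lit 10) nil nil) (node (nat_lit 4) (nat_lit 87341)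
  (nat_lit 9) (node (nat_lit 6) (nat_lit 88005) (nat_lit 10) nil (node (nat_lit 5) (nat_lit 88768)
  (nat_lit 10) nil nil)) (node (nat_lit 0) (nat_lit 89547) (nat_lit 9) nil (node (nat_lit 8)
  (nat_lit 89547) (nat_lit 9) nil nil)))) (node (nat_lit 4) (nat_lit 85561) (nat_lit 8) (node
  (nat_lit 8) (nat_lit 91250) (nat_lit 9) (node (nat_lit 6) (nat_lit 91250) (nat_lit 10) (node
  (nat_lit 8) (nat_lit 92188) (nat_lit 11) nil (node (nat_lit 4) (nat_lit 91250) (nat_lit 11) nil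
  nil)) nil) (node (nat_lit 5) (nat_lit 87618) (nat_lit 9) nil nil)) (node (nat_lit 0) (nat_lit
  90629) (nat_lit 8) nil nil)))) (node (nat_lit 5) (nat_lit 80904) (nat_lit 7) (node (nat_lit 6)
  (nat_lit 85705) (nat_lit 8) (node (nat_lit 5) (nat_lit 87068) (nat_lit 9) (node (nat_lit 4)
  (nat_lit 78474) (nat_lit 10) (node (nat_lit 5) (nat_lit 75422) (nat_lit 11) (node (nat_lit 6)
  (nat_lit 69781) (nat_lit 12) (node (nat_lit 4) (nat_lit 68735) (nat_lit 13) nil nil) nil) (node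
  (nat_lit 6) (nat_lit 78590) (nat_lit 11) nil nil)) (node (nat_lit 8) (nat_lit 90071) (nat_lit
  10) nil nil)) (node (nat_lit 4) (nat_lit 89226) (nat_lit 9) (node (nat_lit 6) (nat_lit 88526)
  (nat_lit 10) nil (node (nat_lit 5) (nat_lit 90653) (nat_lit 10) nil nil)) (node (nat_lit 8)
  (nat_lit 90085) (nat_lit 9) nil (node (nat_lit 0) (nat_lit 91006) (nat_lit 9) nil nil)))) (node
  (nat_lit 4) (nat_lit 84680) (nat_lit 8) (node (nat_lit 6) (nat_lit 86092) (nat_lit 9) (node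
  (nat_lit 4) (nat_lit 78007) (nat_lit 10) (node (nat_lit 5) (nat_lit 75414) (nat_lit 11) (node
  (nat_lit 6) (nat_lit 66903) (nat_lit 12) (node (nat_lit 4) (nat_lit 56881) (nat_lit 13) nil nil)
  nil) nil) nil) (node (nat_lit 8) (nat_lit 90369) (nat_lit 9) (node (nat_lit 5) (nat_lit 90369)
  (nat_lit 10) (node (nat_lit 8) (nat_lit 91307) (nat_lit 11) nil nil) nil) (node (nat_lit 0)
  (nat_lit 89060) (nat_lit 9) nil nil))) (node (nat_lit 8) (nat_lit 90653) (nat_lit 8) (node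
  (nat_lit 5) (nat_lit 90653) (nat_lit 9) (node (nat_lit 4) (nat_lit 90653) (nat_lit 10) (node
  (nat_lit 8) (nat_lit 92487) (nat_lit 11) nil nil) nil) (node (nat_lit 4) (nat_lit 90653)
  (nat_lit 9) (node (nat_lit 8) (nat_lit 92162) (nat_lit 10) nil nil) (node (nat_lit 6) (nat_lit
  90653) (nat_lit 9) nil nil))) (node (nat_lit 0) (nat_lit 90653) (nat_lit 8) nil nil)))) (node
  (nat_lit 0) (nat_lit 89226) (nat_lit 7) (node (nat_lit 8) (nat_lit 90653) (nat_lit 8) (node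
  (nat_lit 4) (nat_lit 90653) (nat_lit 9) (node (nat_lit 8) (nat_lit 92162) (nat_lit 10) nil nil)
  (node (nat_lit 10) (nat_lit 91548) (nat_lit 9) nil nil)) (node (nat_lit 4) (nat_lit 88271)
  (nat_lit 8) (node (nat_lit 8) (nat_lit 90593) (nat_lit 9) nil (node (nat_lit 5) (nat_lit 88271)
  (nat_lit 9) nil (node (nat_lit 6) (nat_lit 88271) (nat_lit 9) nil (node (nat_lit 0) (nat_lit
  90593) (nat_lit 9) nil nil)))) (node (nat_lit 6) (nat_lit 89226) (nat_lit 8) (node (nat_lit 8)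
  (nat_lit 91548) (nat_lit 9) nil (node (nat_lit 4) (nat_lit 89226) (nat_lit 9) nil (node (nat_lit
  10) (nat_lit 91548) (nat_lit 9) nil nil))) (node (nat_lit 5) (nat_lit 89226) (nat_lit 8) (node
  (nat_lit 4) (nat_lit 89226) (nat_lit 9) nil nil) (node (nat_lit 0) (nat_lit 90653) (nat_lit 8)
  nil nil))))) nil))) (node (nat_lit 6) (nat_lit 0) (nat_lit 6) (node (nat_lit 8) (nat_lit 89226)
  (nat_lit 7) (node (nat_lit 4) (nat_lit 89226) (nat_lit 8) (node (nat_lit 8) (nat_lit 91548)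
  (nat_lit 9) (node (nat_lit 6) (nat_lit 91548) (nat_lit 10) (node (nat_lit 4) (nat_lit 91548)
  (nat_lit 11) (node (nat_lit 6) (nat_lit 90921) (nat_lit 12) nil nil) (node (nat_lit 5) (nat_lit
  91548) (nat_lit 11) nil nil)) nil) (node (nat_lit 6) (nat_lit 89226) (nat_lit 9) nil nil)) nil)
  (node (nat_lit 5) (nat_lit 81377) (nat_lit 7) (node (nat_lit 4) (nat_lit 84932) (nat_lit 8)
  (node (nat_lit 6) (nat_lit 86203) (nat_lit 9) (node (nat_lit 4) (nat_lit 79921) (nat_lit 10)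
  (node (nat_lit 5) (nat_lit 76079) (nat_lit 11) (node (nat_lit 6) (nat_lit 68281) (nat_lit 12)
  nil nil) nil) nil) (node (nat_lit 5) (nat_lit 86990) (nat_lit 9) nil nil)) (node (nat_lit 6)
  (nat_lit 86949) (nat_lit 8) (node (nat_lit 4) (nat_lit 89006) (nat_lit 9) nil nil) (node
  (nat_lit 8) (nat_lit 88841) (nat_lit 8) nil (node (nat_lit 0) (nat_lit 88841) (nat_lit 8) nil
  nil)))) (node (nat_lit 4) (nat_lit 78656) (nat_lit 7) (node (nat_lit 6) (nat_lit 85213) (nat_lit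
  8) (node (nat_lit 5) (nat_lit 84090) (nat_lit 9) (node (nat_lit 4) (nat_lit 80299) (nat_lit 10)
  (node (nat_lit 5) (nat_lit 76556) (nat_lit 11) nil nil) nil) (node (nat_lit 8) (nat_lit 89593)
  (nat_lit 9) nil nil)) (node (nat_lit 5) (nat_lit 83784) (nat_lit 8) (node (nat_lit 6) (nat_lit
  82989) (nat_lit 9) nil (node (nat_lit 4) (nat_lit 82835) (nat_lit 9) nil nil)) (node (nat_lit 0)
  (nat_lit 86121) (nat_lit 8) nil nil))) (node (nat_lit 0) (nat_lit 88843) (nat_lit 7) nil nil))))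
  (node (nat_lit 5) (nat_lit 0) (nat_lit 6) (node (nat_lit 4) (nat_lit 80118) (nat_lit 7) (node
  (nat_lit 5) (nat_lit 86271) (nat_lit 8) (node (nat_lit 8) (nat_lit 91548) (nat_lit 9) nil nil)
  (node (nat_lit 6) (nat_lit 86479) (nat_lit 8) (node (nat_lit 5) (nat_lit 82386) (nat_lit 9) nil
  nil) (node (nat_lit 0) (nat_lit 87583) (nat_lit 8) nil nil))) (node (nat_lit 6) (nat_lit 79426)
  (nat_lit 7) (node (nat_lit 4) (nat_lit 82612) (nat_lit 8) nil (node (nat_lit 5) (nat_lit 83407)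
  (nat_lit 8) nil (node (nat_lit 8) (nat_lit 86891) (nat_lit 8) nil nil))) (node (nat_lit 8)
  (nat_lit 88129) (nat_lit 7) (node (nat_lit 4) (nat_lit 88129) (nat_lit 8) (node (nat_lit 8)
  (nat_lit 90452) (nat_lit 9) (node (nat_lit 5) (nat_lit 90452) (nat_lit 10) nil nil) nil) nil)
  (node (nat_lit 0) (nat_lit 84777) (nat_lit 7) nil nil)))) (node (nat_lit 0) (nat_lit 0) (nat_lit
  6) (node (nat_lit 4) (nat_lit 81516) (nat_lit 7) (node (nat_lit 8) (nat_lit 89213) (nat_lit 8)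
  (node (nat_lit 4) (nat_lit 89213) (nat_lit 9) nil nil) (node (nat_lit 9) (nat_lit 87508)
  (nat_lit 8) nil (node (nat_lit 6) (nat_lit 84181) (nat_lit 8) nil (node (nat_lit 5) (nat_lit
  81516) (nat_lit 8) nil (node (nat_lit 0) (nat_lit 85000) (nat_lit 8) nil nil))))) (node (nat_lit
  8) (nat_lit 88746) (nat_lit 7) (node (nat_lit 4) (nat_lit 88746) (nat_lit 8) (node (nat_lit 8)
  (nat_lit 91068) (nat_lit 9) nil nil) nil) (node (nat_lit 6) (nat_lit 83140) (nat_lit 7) nil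
  (node (nat_lit 0) (nat_lit 87040) (nat_lit 7) nil (node (nat_lit 5) (nat_lit 83342) (nat_lit 7)
  nil nil))))) nil)))) (node (nat_lit 6) (nat_lit 0) (nat_lit 5) (node (nat_lit 0) (nat_lit 0)
  (nat_lit 6) (node (nat_lit 4) (nat_lit 0) (nat_lit 7) (node (nat_lit 6) (nat_lit 83585) (nat_lit
  8) (node (nat_lit 4) (nat_lit 87020) (nat_lit 9) (node (nat_lit 5) (nat_lit 88513) (nat_lit 10)
  (node (nat_lit 4) (nat_lit 88372) (nat_lit 11) nil (node (nat_lit 6) (nat_lit 88448) (nat_lit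
  11) nil nil)) (node (nat_lit 9) (nat_lit 92162) (nat_lit 10) (node (nat_lit 4) (nat_lit 92162)
  (nat_lit 11) nil (node (nat_lit 6) (nat_lit 92162) (nat_lit 11) nil nil)) (node (nat_lit 0)
  (nat_lit 91940) (nat_lit 10) nil nil))) (node (nat_lit 5) (nat_lit 86547) (nat_lit 9) (node
  (nat_lit 4) (nat_lit 89136) (nat_lit 10) nil (node (nat_lit 6) (nat_lit 89294) (nat_lit 10) nil
  (node (nat_lit 9) (nat_lit 91468) (nat_lit 10) nil (node (nat_lit 0) (nat_lit 91468) (nat_lit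
  10) nil nil)))) (node (nat_lit 0) (nat_lit 91481) (nat_lit 9) nil nil))) (node (nat_lit 9)
  (nat_lit 89988) (nat_lit 8) (node (nat_lit 6) (nat_lit 89988) (nat_lit 9) nil nil) (node
  (nat_lit 5) (nat_lit 78896) (nat_lit 8) (node (nat_lit 9) (nat_lit 86791) (nat_lit 9) nil nil)
  (node (nat_lit 0) (nat_lit 88539) (nat_lit 8) nil nil)))) (node (nat_lit 5) (nat_lit 80222)
  (nat_lit 7) (node (nat_lit 6) (nat_lit 81146) (nat_lit 8) (node (nat_lit 5) (nat_lit 85971)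
  (nat_lit 9) nil (node (nat_lit 4) (nat_lit 83851) (nat_lit 9) nil nil)) (node (nat_lit 4)
  (nat_lit 80451) (nat_lit 8) nil (node (nat_lit 9) (nat_lit 86557) (nat_lit 8) nil nil))) (node
  (nat_lit 6) (nat_lit 0) (nat_lit 7) (node (nat_lit 4) (nat_lit 81311) (nat_lit 8) (node (nat_lit
  9) (nat_lit 90637) (nat_lit 9) (node (nat_lit 4) (nat_lit 90637) (nat_lit 10) (node (nat_lit 6)
  (nat_lit 90637) (nat_lit 11) nil nil) nil) nil) (node (nat_lit 5) (nat_lit 81438) (nat_lit 8)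
  nil (node (nat_lit 0) (nat_lit 86134) (nat_lit 8) nil nil))) (node (nat_lit 0) (nat_lit 85209)
  (nat_lit 7) nil nil)))) (node (nat_lit 5) (nat_lit 0) (nat_lit 6) (node (nat_lit 0) (nat_lit
  78026) (nat_lit 7) (node (nat_lit 5) (nat_lit 78026) (nat_lit 8) nil (node (nat_lit 6) (nat_lit
  78026) (nat_lit 8) nil (node (nat_lit 4) (nat_lit 78026) (nat_lit 8) nil nil))) (node (nat_lit
  6) (nat_lit 0) (nat_lit 7) (node (nat_lit 4) (nat_lit 0) (nat_lit 8) (node (nat_lit 0) (nat_lit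
  76938) (nat_lit 9) nil (node (nat_lit 5) (nat_lit 69160) (nat_lit 9) nil nil)) (node (nat_lit 0)
  (nat_lit 80690) (nat_lit 8) nil nil)) (node (nat_lit 4) (nat_lit 0) (nat_lit 7) (node (nat_lit
  0) (nat_lit 62296) (nat_lit 8) nil nil) nil))) nil)) (node (nat_lit 5) (nat_lit 0) (nat_lit 5)
  (node (nat_lit 0) (nat_lit 0) (nat_lit 6) (node (nat_lit 4) (nat_lit 46019) (nat_lit 7) (node
  (nat_lit 5) (nat_lit 48116) (nat_lit 8) (node (nat_lit 6) (nat_lit 49763) (nat_lit 9) (node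
  (nat_lit 4) (nat_lit 50787) (nat_lit 10) nil (node (nat_lit 5) (nat_lit 49870) (nat_lit 10) nil
  (node (nat_lit 9) (nat_lit 51714) (nat_lit 10) nil nil))) (node (nat_lit 4) (nat_lit 49762)
  (nat_lit 9) (node (nat_lit 6) (nat_lit 50787) (nat_lit 10) nil (node (nat_lit 9) (nat_lit 51714)
  (nat_lit 10) nil (node (nat_lit 0) (nat_lit 51714) (nat_lit 10) nil nil))) (node (nat_lit 0)
  (nat_lit 51469) (nat_lit 9) nil nil))) (node (nat_lit 6) (nat_lit 47659) (nat_lit 8) nil nil))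
  (node (nat_lit 6) (nat_lit 46706) (nat_lit 7) (node (nat_lit 5) (nat_lit 48116) (nat_lit 8)
  (node (nat_lit 6) (nat_lit 49763) (nat_lit 9) nil (node (nat_lit 4) (nat_lit 49763) (nat_lit 9)
  nil nil)) (node (nat_lit 4) (nat_lit 46706) (nat_lit 8) nil nil)) (node (nat_lit 5) (nat_lit
  46002) (nat_lit 7) (node (nat_lit 4) (nat_lit 47351) (nat_lit 8) (node (nat_lit 9) (nat_lit
  51469) (nat_lit 9) (node (nat_lit 4) (nat_lit 51469) (nat_lit 10) nil nil) nil) (node (nat_lit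
  6) (nat_lit 47642) (nat_lit 8) nil nil)) (node (nat_lit 0) (nat_lit 49677) (nat_lit 7) nil
  nil)))) (node (nat_lit 4) (nat_lit 0) (nat_lit 6) (node (nat_lit 0) (nat_lit 0) (nat_lit 7)
  (node (nat_lit 6) (nat_lit 48047) (nat_lit 8) (node (nat_lit 5) (nat_lit 49763) (nat_lit 9)
  (node (nat_lit 4) (nat_lit 50787) (nat_lit 10) nil (node (nat_lit 6) (nat_lit 50787) (nat_lit
  10) nil nil)) nil) (node (nat_lit 4) (nat_lit 46980) (nat_lit 8) (node (nat_lit 5) (nat_lit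
  46096) (nat_lit 9) nil nil) (node (nat_lit 5) (nat_lit 46723) (nat_lit 8) nil (node (nat_lit 0)
  (nat_lit 47824) (nat_lit 8) nil nil)))) nil) nil)) nil))) (node (nat_lit 5) (nat_lit 0) (nat_lit
  4) (node (nat_lit 0) (nat_lit 0) (nat_lit 5) (node (nat_lit 5) (nat_lit 0) (nat_lit 6) (node
  (nat_lit 6) (nat_lit 71703) (nat_lit 7) (node (nat_lit 8) (nat_lit 86843) (nat_lit 8) (node
  (nat_lit 5) (nat_lit 87550) (nat_lit 9) (node (nat_lit 8) (nat_lit 89358) (nat_lit 10) (node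
  (nat_lit 6) (nat_lit 89358) (nat_lit 11) nil nil) (node (nat_lit 4) (nat_lit 86910) (nat_lit 10)
  (node (nat_lit 6) (nat_lit 87659) (nat_lit 11) nil (node (nat_lit 5) (nat_lit 87321) (nat_lit
  11) nil nil)) (node (nat_lit 0) (nat_lit 88391) (nat_lit 10) nil nil))) (node (nat_lit 6)
  (nat_lit 86286) (nat_lit 9) (node (nat_lit 5) (nat_lit 86644) (nat_lit 10) nil nil) nil)) (node
  (nat_lit 4) (nat_lit 80123) (nat_lit 8) (node (nat_lit 5) (nat_lit 84452) (nat_lit 9) (node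
  (nat_lit 6) (nat_lit 84432) (nat_lit 10) (node (nat_lit 5) (nat_lit 83911) (nat_lit 11) (node
  (nat_lit 8) (nat_lit 68783) (nat_lit 12) nil nil) nil) (node (nat_lit 4) (nat_lit 83651)
  (nat_lit 10) nil nil)) (node (nat_lit 6) (nat_lit 85431) (nat_lit 9) (node (nat_lit 5) (nat_lit
  80444) (nat_lit 10) nil (node (nat_lit 8) (nat_lit 88391) (nat_lit 10) nil nil)) (node (nat_lit
  8) (nat_lit 84503) (nat_lit 9) nil (node (nat_lit 0) (nat_lit 87729) (nat_lit 9) nil nil))))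
  (node (nat_lit 0) (nat_lit 86107) (nat_lit 8) nil (node (nat_lit 5) (nat_lit 80421) (nat_lit 8)
  (node (nat_lit 4) (nat_lit 83473) (nat_lit 9) nil nil) nil)))) (node (nat_lit 4) (nat_lit 71947)
  (nat_lit 7) (node (nat_lit 6) (nat_lit 80769) (nat_lit 8) (node (nat_lit 5) (nat_lit 82868)
  (nat_lit 9) (node (nat_lit 4) (nat_lit 77904) (nat_lit 10) (node (nat_lit 5) (nat_lit 71270)
  (nat_lit 11) (node (nat_lit 6) (nat_lit 68577) (nat_lit 12) (node (nat_lit 5) (nat_lit 56426)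
  (nat_lit 13) (node (nat_lit 8) (nat_lit 56426) (nat_lit 14) nil nil) nil) nil) nil) (node
  (nat_lit 6) (nat_lit 83892) (nat_lit 10) (node (nat_lit 4) (nat_lit 81387) (nat_lit 11) (node
  (nat_lit 5) (nat_lit 79445) (nat_lit 12) nil nil) nil) nil)) (node (nat_lit 4) (nat_lit 84897)
  (nat_lit 9) (node (nat_lit 5) (nat_lit 86691) (nat_lit 10) (node (nat_lit 6) (nat_lit 85730)
  (nat_lit 11) (node (nat_lit 5) (nat_lit 85372) (nat_lit 12) (node (nat_lit 8) (nat_lit 46516)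
  (nat_lit 13) nil nil) nil) nil) nil) (node (nat_lit 8) (nat_lit 85149) (nat_lit 9) nil (node
  (nat_lit 0) (nat_lit 85149) (nat_lit 9) nil nil)))) (node (nat_lit 5) (nat_lit 81003) (nat_lit
  8) (node (nat_lit 6) (nat_lit 84013) (nat_lit 9) (node (nat_lit 5) (nat_lit 81254) (nat_lit 10)
  (node (nat_lit 8) (nat_lit 56426) (nat_lit 11) nil nil) nil) (node (nat_lit 8) (nat_lit 87444)
  (nat_lit 9) (node (nat_lit 4) (nat_lit 87444) (nat_lit 10) nil nil) (node (nat_lit 0) (nat_lit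
  85383) (nat_lit 9) nil nil))) (node (nat_lit 8) (nat_lit 86289) (nat_lit 8) (node (nat_lit 4)
  (nat_lit 86289) (nat_lit 9) (node (nat_lit 5) (nat_lit 86289) (nat_lit 10) nil nil) (node
  (nat_lit 5) (nat_lit 86289) (nat_lit 9) nil (node (nat_lit 6) (nat_lit 86289) (nat_lit 9) nil
  nil))) (node (nat_lit 0) (nat_lit 85498) (nat_lit 8) nil nil)))) (node (nat_lit 0) (nat_lit
  82031) (nat_lit 7) (node (nat_lit 8) (nat_lit 84457) (nat_lit 8) (node (nat_lit 5) (nat_lit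
  83663) (nat_lit 9) (node (nat_lit 8) (nat_lit 84817) (nat_lit 10) nil nil) (node (nat_lit 10)
  (nat_lit 85298) (nat_lit 9) nil nil)) (node (nat_lit 5) (nat_lit 82787) (nat_lit 8) (node
  (nat_lit 8) (nat_lit 86333) (nat_lit 9) nil (node (nat_lit 4) (nat_lit 82787) (nat_lit 9) nil
  (node (nat_lit 6) (nat_lit 82787) (nat_lit 9) nil (node (nat_lit 0) (nat_lit 85109) (nat_lit 9)
  nil nil)))) (node (nat_lit 6) (nat_lit 82787) (nat_lit 8) (node (nat_lit 5) (nat_lit 84006)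
  (nat_lit 9) nil (node (nat_lit 10) (nat_lit 85109) (nat_lit 9) nil (node (nat_lit 8) (nat_lit
  85109) (nat_lit 9) nil nil))) (node (nat_lit 4) (nat_lit 82031) (nat_lit 8) nil (node (nat_lit
  0) (nat_lit 85572) (nat_lit 8) nil nil))))) nil))) (node (nat_lit 6) (nat_lit 0) (nat_lit 6)
  (node (nat_lit 8) (nat_lit 81536) (nat_lit 7) (node (nat_lit 5) (nat_lit 82639) (nat_lit 8)
  (node (nat_lit 8) (nat_lit 87553) (nat_lit 9) (node (nat_lit 6) (nat_lit 86952) (nat_lit 10)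
  (node (nat_lit 5) (nat_lit 87267) (nat_lit 11) (node (nat_lit 6) (nat_lit 87580) (nat_lit 12)
  nil nil) nil) nil) (node (nat_lit 6) (nat_lit 84385) (nat_lit 9) nil nil)) nil) (node (nat_lit
  4) (nat_lit 70035) (nat_lit 7) (node (nat_lit 5) (nat_lit 79245) (nat_lit 8) (node (nat_lit 6)
  (nat_lit 82937) (nat_lit 9) nil (node (nat_lit 4) (nat_lit 82606) (nat_lit 9) nil nil)) (node
  (nat_lit 6) (nat_lit 78695) (nat_lit 8) (node (nat_lit 5) (nat_lit 80529) (nat_lit 9) nil nil)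
  (node (nat_lit 8) (nat_lit 77499) (nat_lit 8) nil (node (nat_lit 0) (nat_lit 81806) (nat_lit 8)
  nil nil)))) (node (nat_lit 5) (nat_lit 71372) (nat_lit 7) (node (nat_lit 6) (nat_lit 80460)
  (nat_lit 8) (node (nat_lit 8) (nat_lit 86845) (nat_lit 9) nil (node (nat_lit 4) (nat_lit 82518)
  (nat_lit 9) nil nil)) (node (nat_lit 4) (nat_lit 79592) (nat_lit 8) (node (nat_lit 6) (nat_lit
  77095) (nat_lit 9) nil nil) nil)) (node (nat_lit 0) (nat_lit 80640) (nat_lit 7) nil nil))))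
  (node (nat_lit 4) (nat_lit 0) (nat_lit 6) (node (nat_lit 5) (nat_lit 69777) (nat_lit 7) (node
  (nat_lit 4) (nat_lit 77381) (nat_lit 8) (node (nat_lit 8) (nat_lit 85226) (nat_lit 9) nil nil)
  (node (nat_lit 6) (nat_lit 78935) (nat_lit 8) (node (nat_lit 4) (nat_lit 80993) (nat_lit 9) nil
  nil) (node (nat_lit 0) (nat_lit 77241) (nat_lit 8) nil nil))) (node (nat_lit 8) (nat_lit 79722)
  (nat_lit 7) (node (nat_lit 5) (nat_lit 78721) (nat_lit 8) (node (nat_lit 8) (nat_lit 84508)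
  (nat_lit 9) (node (nat_lit 4) (nat_lit 84508) (nat_lit 10) nil nil) nil) nil) (node (nat_lit 6)
  (nat_lit 69497) (nat_lit 7) (node (nat_lit 5) (nat_lit 76673) (nat_lit 8) (node (nat_lit 4)
  (nat_lit 75724) (nat_lit 9) nil nil) (node (nat_lit 4) (nat_lit 76224) (nat_lit 8) nil (node
  (nat_lit 8) (nat_lit 76961) (nat_lit 8) nil nil))) (node (nat_lit 0) (nat_lit 79109) (nat_lit 7)
  nil nil)))) (node (nat_lit 0) (nat_lit 0) (nat_lit 6) (node (nat_lit 5) (nat_lit 76555) (nat_lit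
  7) (node (nat_lit 8) (nat_lit 86125) (nat_lit 8) (node (nat_lit 5) (nat_lit 86125) (nat_lit 9)
  nil nil) (node (nat_lit 9) (nat_lit 85757) (nat_lit 8) nil (node (nat_lit 6) (nat_lit 76555)
  (nat_lit 8) nil nil))) (node (nat_lit 8) (nat_lit 82106) (nat_lit 7) (node (nat_lit 5) (nat_lit
  82106) (nat_lit 8) (node (nat_lit 8) (nat_lit 84428) (nat_lit 9) nil nil) nil) (node (nat_lit 6)
  (nat_lit 74516) (nat_lit 7) nil (node (nat_lit 4) (nat_lit 74516) (nat_lit 7) nil (node (nat_lit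
  0) (nat_lit 80546) (nat_lit 7) nil nil))))) nil)))) (node (nat_lit 4) (nat_lit 0) (nat_lit 5)
  (node (nat_lit 0) (nat_lit 0) (nat_lit 6) (node (nat_lit 5) (nat_lit 69606) (nat_lit 7) (node
  (nat_lit 4) (nat_lit 75669) (nat_lit 8) (node (nat_lit 5) (nat_lit 82380) (nat_lit 9) (node
  (nat_lit 9) (nat_lit 87181) (nat_lit 10) (node (nat_lit 5) (nat_lit 87181) (nat_lit 11) nil nil)
  (node (nat_lit 6) (nat_lit 84883) (nat_lit 10) nil (node (nat_lit 0) (nat_lit 86713) (nat_lit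
  10) nil nil))) (node (nat_lit 6) (nat_lit 82888) (nat_lit 9) (node (nat_lit 5) (nat_lit 86425)
  (nat_lit 10) nil (node (nat_lit 9) (nat_lit 87370) (nat_lit 10) nil (node (nat_lit 4) (nat_lit
  85992) (nat_lit 10) nil (node (nat_lit 0) (nat_lit 87370) (nat_lit 10) nil nil)))) (node
  (nat_lit 0) (nat_lit 86079) (nat_lit 9) nil nil))) (node (nat_lit 6) (nat_lit 72993) (nat_lit 8)
  nil (node (nat_lit 9) (nat_lit 75942) (nat_lit 8) nil nil))) (node (nat_lit 6) (nat_lit 69507)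
  (nat_lit 7) (node (nat_lit 4) (nat_lit 73911) (nat_lit 8) (node (nat_lit 6) (nat_lit 78998)
  (nat_lit 9) nil (node (nat_lit 5) (nat_lit 76553) (nat_lit 9) nil nil)) (node (nat_lit 9)
  (nat_lit 75843) (nat_lit 8) nil (node (nat_lit 5) (nat_lit 69507) (nat_lit 8) nil nil))) (node
  (nat_lit 4) (nat_lit 67721) (nat_lit 7) (node (nat_lit 5) (nat_lit 73642) (nat_lit 8) (node
  (nat_lit 9) (nat_lit 85327) (nat_lit 9) (node (nat_lit 5) (nat_lit 85327) (nat_lit 10) nil nil)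
  nil) (node (nat_lit 6) (nat_lit 68089) (nat_lit 8) nil nil)) (node (nat_lit 0) (nat_lit 75085)
  (nat_lit 7) nil nil)))) (node (nat_lit 6) (nat_lit 0) (nat_lit 6) (node (nat_lit 5) (nat_lit 0)
  (nat_lit 7) (node (nat_lit 6) (nat_lit 0) (nat_lit 8) (node (nat_lit 4) (nat_lit 58541) (nat_lit
  9) (node (nat_lit 5) (nat_lit 51018) (nat_lit 10) nil nil) (node (nat_lit 0) (nat_lit 67315)
  (nat_lit 9) nil nil)) (node (nat_lit 0) (nat_lit 64418) (nat_lit 8) nil nil)) (node (nat_lit 4)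
  (nat_lit 0) (nat_lit 7) (node (nat_lit 0) (nat_lit 56358) (nat_lit 8) nil nil) (node (nat_lit 0)
  (nat_lit 59841) (nat_lit 7) nil nil))) nil)) nil)) nil))

noncomputable def t378 : Tr :=
  (node (nat_lit 3) (nat_lit 0) (nat_lit 5) (node (nat_lit 7) (nat_lit 0) (nat_lit 6) (node
  (nat_lit 4) (nat_lit 46537) (nat_lit 7) (node (nat_lit 8) (nat_lit 49536) (nat_lit 8) (node
  (nat_lit 4) (nat_lit 52352) (nat_lit 9) (node (nat_lit 5) (nat_lit 52560) (nat_lit 10) (node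
  (nat_lit 8) (nat_lit 52560) (nat_lit 11) (node (nat_lit 5) (nat_lit 52560) (nat_lit 12) nil nil)
  (node (nat_lit 4) (nat_lit 52560) (nat_lit 11) nil nil)) (node (nat_lit 7) (nat_lit 52560)
  (nat_lit 10) nil (node (nat_lit 0) (nat_lit 52560) (nat_lit 10) nil nil))) (node (nat_lit 5)
  (nat_lit 51090) (nat_lit 9) (node (nat_lit 8) (nat_lit 52560) (nat_lit 10) (node (nat_lit 4)
  (nat_lit 52443) (nat_lit 11) (node (nat_lit 5) (nat_lit 50530) (nat_lit 12) (node (nat_lit 4)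
  (nat_lit 46609) (nat_lit 13) nil nil) nil) nil) (node (nat_lit 4) (nat_lit 52560) (nat_lit 10)
  (node (nat_lit 5) (nat_lit 52560) (nat_lit 11) (node (nat_lit 8) (nat_lit 52560) (nat_lit 12)
  nil nil) (node (nat_lit 8) (nat_lit 51691) (nat_lit 11) (node (nat_lit 4) (nat_lit 47732)
  (nat_lit 12) (node (nat_lit 5) (nat_lit 46915) (nat_lit 13) nil nil) nil) nil)) (node (nat_lit
  0) (nat_lit 52560) (nat_lit 10) nil (node (nat_lit 7) (nat_lit 52560) (nat_lit 10) nil nil))))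
  (node (nat_lit 0) (nat_lit 52560) (nat_lit 9) nil nil))) (node (nat_lit 5) (nat_lit 49089)
  (nat_lit 8) (node (nat_lit 8) (nat_lit 51905) (nat_lit 9) (node (nat_lit 4) (nat_lit 52560)
  (nat_lit 10) nil (node (nat_lit 5) (nat_lit 52560) (nat_lit 10) nil nil)) (node (nat_lit 4)
  (nat_lit 50737) (nat_lit 9) (node (nat_lit 8) (nat_lit 51784) (nat_lit 10) nil nil) (node
  (nat_lit 0) (nat_lit 51376) (nat_lit 9) nil (node (nat_lit 7) (nat_lit 52560) (nat_lit 9) nil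
  nil)))) (node (nat_lit 7) (nat_lit 52008) (nat_lit 8) (node (nat_lit 8) (nat_lit 51495) (nat_lit
  9) (node (nat_lit 4) (nat_lit 52176) (nat_lit 10) nil (node (nat_lit 5) (nat_lit 51495) (nat_lit
  10) nil nil)) (node (nat_lit 5) (nat_lit 51528) (nat_lit 9) (node (nat_lit 4) (nat_lit 51528)
  (nat_lit 10) nil (node (nat_lit 8) (nat_lit 51528) (nat_lit 10) nil nil)) (node (nat_lit 0)
  (nat_lit 52476) (nat_lit 9) nil nil))) (node (nat_lit 0) (nat_lit 51649) (nat_lit 8) (node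
  (nat_lit 4) (nat_lit 51649) (nat_lit 9) nil (node (nat_lit 8) (nat_lit 51649) (nat_lit 9) nil
  (node (nat_lit 5) (nat_lit 51649) (nat_lit 9) nil nil))) nil)))) (node (nat_lit 5) (nat_lit
  46550) (nat_lit 7) (node (nat_lit 8) (nat_lit 49546) (nat_lit 8) (node (nat_lit 4) (nat_lit
  52266) (nat_lit 9) (node (nat_lit 5) (nat_lit 52560) (nat_lit 10) (node (nat_lit 8) (nat_lit
  52560) (nat_lit 11) nil (node (nat_lit 4) (nat_lit 51421) (nat_lit 11) nil nil)) (node (nat_lit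
  8) (nat_lit 52560) (nat_lit 10) (node (nat_lit 5) (nat_lit 52274) (nat_lit 11) nil nil) nil))
  (node (nat_lit 5) (nat_lit 52363) (nat_lit 9) (node (nat_lit 4) (nat_lit 52560) (nat_lit 10)
  (node (nat_lit 5) (nat_lit 52126) (nat_lit 11) nil (node (nat_lit 8) (nat_lit 52560) (nat_lit
  11) nil nil)) (node (nat_lit 7) (nat_lit 52560) (nat_lit 10) (node (nat_lit 5) (nat_lit 52560)
  (nat_lit 11) nil nil) (node (nat_lit 0) (nat_lit 52560) (nat_lit 10) nil nil))) (node (nat_lit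
  0) (nat_lit 52560) (nat_lit 9) nil nil))) (node (nat_lit 4) (nat_lit 49374) (nat_lit 8) (node
  (nat_lit 5) (nat_lit 52111) (nat_lit 9) nil (node (nat_lit 8) (nat_lit 51668) (nat_lit 9) nil
  nil)) (node (nat_lit 7) (nat_lit 50691) (nat_lit 8) nil (node (nat_lit 0) (nat_lit 51662)
  (nat_lit 8) nil nil)))) (node (nat_lit 0) (nat_lit 48149) (nat_lit 7) (node (nat_lit 8) (nat_lit
  47710) (nat_lit 8) nil (node (nat_lit 4) (nat_lit 48149) (nat_lit 8) nil (node (nat_lit 5)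
  (nat_lit 48149) (nat_lit 8) nil (node (nat_lit 0) (nat_lit 48894) (nat_lit 8) nil (node (nat_lit
  7) (nat_lit 48894) (nat_lit 8) nil nil))))) nil))) (node (nat_lit 4) (nat_lit 0) (nat_lit 6)
  (node (nat_lit 7) (nat_lit 0) (nat_lit 7) (node (nat_lit 4) (nat_lit 50279) (nat_lit 8) (node
  (nat_lit 8) (nat_lit 51356) (nat_lit 9) (node (nat_lit 4) (nat_lit 52560) (nat_lit 10) (node
  (nat_lit 5) (nat_lit 52560) (nat_lit 11) (node (nat_lit 8) (nat_lit 52560) (nat_lit 12) nil nil)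
  nil) (node (nat_lit 7) (nat_lit 52560) (nat_lit 10) nil (node (nat_lit 5) (nat_lit 49388)
  (nat_lit 10) nil nil))) (node (nat_lit 5) (nat_lit 50279) (nat_lit 9) nil (node (nat_lit 0)
  (nat_lit 51492) (nat_lit 9) nil nil))) (node (nat_lit 5) (nat_lit 50142) (nat_lit 8) (node
  (nat_lit 8) (nat_lit 50526) (nat_lit 9) (node (nat_lit 4) (nat_lit 51271) (nat_lit 10) nil (node
  (nat_lit 5) (nat_lit 51271) (nat_lit 10) nil nil)) nil) (node (nat_lit 0) (nat_lit 49688)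
  (nat_lit 8) nil nil))) (node (nat_lit 8) (nat_lit 44772) (nat_lit 7) (node (nat_lit 5) (nat_lit
  49362) (nat_lit 8) (node (nat_lit 4) (nat_lit 52162) (nat_lit 9) (node (nat_lit 5) (nat_lit
  52149) (nat_lit 10) (node (nat_lit 8) (nat_lit 52560) (nat_lit 11) nil nil) nil) (node (nat_lit
  8) (nat_lit 50904) (nat_lit 9) (node (nat_lit 4) (nat_lit 49226) (nat_lit 10) (node (nat_lit 5)
  (nat_lit 45226) (nat_lit 11) nil nil) nil) nil)) (node (nat_lit 7) (nat_lit 51872) (nat_lit 8)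
  (node (nat_lit 4) (nat_lit 51872) (nat_lit 9) nil nil) (node (nat_lit 0) (nat_lit 48713)
  (nat_lit 8) nil nil))) (node (nat_lit 5) (nat_lit 44321) (nat_lit 7) (node (nat_lit 8) (nat_lit
  49069) (nat_lit 8) (node (nat_lit 4) (nat_lit 50142) (nat_lit 9) nil (node (nat_lit 5) (nat_lit
  50142) (nat_lit 9) nil nil)) (node (nat_lit 4) (nat_lit 48455) (nat_lit 8) (node (nat_lit 8)
  (nat_lit 49247) (nat_lit 9) (node (nat_lit 4) (nat_lit 43611) (nat_lit 10) (node (nat_lit 5)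
  (nat_lit 39666) (nat_lit 11) nil nil) nil) nil) (node (nat_lit 7) (nat_lit 48261) (nat_lit 8)
  nil nil))) (node (nat_lit 0) (nat_lit 48541) (nat_lit 7) nil nil)))) (node (nat_lit 5) (nat_lit
  0) (nat_lit 6) (node (nat_lit 4) (nat_lit 44302) (nat_lit 7) (node (nat_lit 8) (nat_lit 43901)
  (nat_lit 8) (node (nat_lit 5) (nat_lit 43710) (nat_lit 9) (node (nat_lit 8) (nat_lit 44773)
  (nat_lit 10) (node (nat_lit 4) (nat_lit 43077) (nat_lit 11) (node (nat_lit 5) (nat_lit 40803)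
  (nat_lit 12) (node (nat_lit 4) (nat_lit 36542) (nat_lit 13) nil nil) nil) nil) nil) (node
  (nat_lit 4) (nat_lit 36581) (nat_lit 9) (node (nat_lit 5) (nat_lit 30833) (nat_lit 10) (node
  (nat_lit 4) (nat_lit 31626) (nat_lit 11) (node (nat_lit 7) (nat_lit 33112) (nat_lit 12) nil nil)
  nil) nil) nil)) (node (nat_lit 5) (nat_lit 48821) (nat_lit 8) (node (nat_lit 8) (nat_lit 50097)
  (nat_lit 9) (node (nat_lit 4) (nat_lit 48418) (nat_lit 10) (node (nat_lit 8) (nat_lit 48886)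
  (nat_lit 11) nil nil) nil) nil) (node (nat_lit 7) (nat_lit 50565) (nat_lit 8) nil nil))) (node
  (nat_lit 7) (nat_lit 49013) (nat_lit 7) (node (nat_lit 5) (nat_lit 49985) (nat_lit 8) (node
  (nat_lit 8) (nat_lit 51205) (nat_lit 9) (node (nat_lit 5) (nat_lit 51323) (nat_lit 10) nil nil)
  nil) (node (nat_lit 8) (nat_lit 49985) (nat_lit 8) (node (nat_lit 7) (nat_lit 51198) (nat_lit 9)
  nil nil) (node (nat_lit 4) (nat_lit 47335) (nat_lit 8) (node (nat_lit 8) (nat_lit 47335)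
  (nat_lit 9) nil nil) nil))) (node (nat_lit 8) (nat_lit 44714) (nat_lit 7) (node (nat_lit 4)
  (nat_lit 49458) (nat_lit 8) (node (nat_lit 5) (nat_lit 52274) (nat_lit 9) (node (nat_lit 4)
  (nat_lit 51406) (nat_lit 10) nil nil) (node (nat_lit 8) (nat_lit 49727) (nat_lit 9) nil nil))
  (node (nat_lit 7) (nat_lit 48655) (nat_lit 8) nil nil)) (node (nat_lit 0) (nat_lit 46184)
  (nat_lit 7) nil nil)))) (node (nat_lit 0) (nat_lit 0) (nat_lit 6) (node (nat_lit 8) (nat_lit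
  44167) (nat_lit 7) (node (nat_lit 4) (nat_lit 44167) (nat_lit 8) nil (node (nat_lit 5) (nat_lit
  44167) (nat_lit 8) nil nil)) (node (nat_lit 4) (nat_lit 42246) (nat_lit 7) (node (nat_lit 8)
  (nat_lit 42246) (nat_lit 8) nil nil) (node (nat_lit 5) (nat_lit 43921) (nat_lit 7) nil (node
  (nat_lit 7) (nat_lit 45693) (nat_lit 7) nil (node (nat_lit 0) (nat_lit 45693) (nat_lit 7) nil
  nil))))) nil)))) (node (nat_lit 5) (nat_lit 0) (nat_lit 5) (node (nat_lit 7) (nat_lit 0)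
  (nat_lit 6) (node (nat_lit 4) (nat_lit 39593) (nat_lit 7) (node (nat_lit 5) (nat_lit 44986)
  (nat_lit 8) (node (nat_lit 4) (nat_lit 48797) (nat_lit 9) (node (nat_lit 3) (nat_lit 51060)
  (nat_lit 10) (node (nat_lit 5) (nat_lit 51724) (nat_lit 11) (node (nat_lit 4) (nat_lit 52080)
  (nat_lit 12) nil (node (nat_lit 13) (nat_lit 52560) (nat_lit 12) (node (nat_lit 4) (nat_lit
  52560) (nat_lit 13) nil nil) nil)) (node (nat_lit 4) (nat_lit 52491) (nat_lit 11) (node (nat_lit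
  5) (nat_lit 52560) (nat_lit 12) (node (nat_lit 4) (nat_lit 40038) (nat_lit 13) (node (nat_lit 7)
  (nat_lit 31741) (nat_lit 14) nil nil) nil) nil) nil)) (node (nat_lit 7) (nat_lit 52191) (nat_lit
  10) (node (nat_lit 4) (nat_lit 52191) (nat_lit 11) nil nil) (node (nat_lit 0) (nat_lit 51646)
  (nat_lit 10) nil nil))) (node (nat_lit 3) (nat_lit 51119) (nat_lit 9) (node (nat_lit 4) (nat_lit
  52560) (nat_lit 10) (node (nat_lit 12) (nat_lit 52560) (nat_lit 11) nil (node (nat_lit 5)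
  (nat_lit 52560) (nat_lit 11) nil nil)) (node (nat_lit 5) (nat_lit 52067) (nat_lit 10) (node
  (nat_lit 4) (nat_lit 51804) (nat_lit 11) (node (nat_lit 12) (nat_lit 50033) (nat_lit 12) nil
  nil) nil) nil)) (node (nat_lit 0) (nat_lit 49764) (nat_lit 9) (node (nat_lit 5) (nat_lit 49764)
  (nat_lit 10) nil nil) nil))) (node (nat_lit 3) (nat_lit 47604) (nat_lit 8) (node (nat_lit 5)
  (nat_lit 50781) (nat_lit 9) (node (nat_lit 4) (nat_lit 52560) (nat_lit 10) (node (nat_lit 5)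
  (nat_lit 51545) (nat_lit 11) nil nil) (node (nat_lit 11) (nat_lit 49163) (nat_lit 10) nil nil))
  (node (nat_lit 4) (nat_lit 50695) (nat_lit 9) (node (nat_lit 5) (nat_lit 50813) (nat_lit 10) nil
  nil) (node (nat_lit 0) (nat_lit 51469) (nat_lit 9) nil (node (nat_lit 7) (nat_lit 51469)
  (nat_lit 9) nil nil)))) (node (nat_lit 7) (nat_lit 47415) (nat_lit 8) (node (nat_lit 5) (nat_lit
  49694) (nat_lit 9) (node (nat_lit 4) (nat_lit 51389) (nat_lit 10) (node (nat_lit 3) (nat_lit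
  51857) (nat_lit 11) nil (node (nat_lit 5) (nat_lit 50106) (nat_lit 11) nil nil)) (node (nat_lit
  3) (nat_lit 50376) (nat_lit 10) nil nil)) (node (nat_lit 3) (nat_lit 50660) (nat_lit 9) (node
  (nat_lit 4) (nat_lit 51341) (nat_lit 10) nil (node (nat_lit 5) (nat_lit 49966) (nat_lit 10) nil
  nil)) (node (nat_lit 0) (nat_lit 49164) (nat_lit 9) nil nil))) (node (nat_lit 0) (nat_lit 49616)
  (nat_lit 8) (node (nat_lit 3) (nat_lit 49616) (nat_lit 9) nil (node (nat_lit 5) (nat_lit 49616)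
  (nat_lit 9) nil (node (nat_lit 4) (nat_lit 49616) (nat_lit 9) nil nil))) nil)))) (node (nat_lit
  3) (nat_lit 46165) (nat_lit 7) (node (nat_lit 5) (nat_lit 48932) (nat_lit 8) (node (nat_lit 4)
  (nat_lit 51467) (nat_lit 9) (node (nat_lit 10) (nat_lit 52560) (nat_lit 10) (node (nat_lit 4)
  (nat_lit 50748) (nat_lit 11) (node (nat_lit 5) (nat_lit 46013) (nat_lit 12) (node (nat_lit 4)
  (nat_lit 42336) (nat_lit 13) nil nil) nil) (node (nat_lit 5) (nat_lit 51980) (nat_lit 11) nil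
  nil)) (node (nat_lit 5) (nat_lit 52560) (nat_lit 10) (node (nat_lit 10) (nat_lit 52499) (nat_lit
  11) nil nil) nil)) (node (nat_lit 10) (nat_lit 51540) (nat_lit 9) (node (nat_lit 4) (nat_lit
  52560) (nat_lit 10) nil (node (nat_lit 7) (nat_lit 52560) (nat_lit 10) nil nil)) (node (nat_lit
  0) (nat_lit 51218) (nat_lit 9) nil nil))) (node (nat_lit 4) (nat_lit 48932) (nat_lit 8) (node
  (nat_lit 10) (nat_lit 49022) (nat_lit 9) nil (node (nat_lit 5) (nat_lit 51748) (nat_lit 9) nil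
  nil)) (node (nat_lit 7) (nat_lit 50931) (nat_lit 8) nil (node (nat_lit 0) (nat_lit 51288)
  (nat_lit 8) nil nil)))) (node (nat_lit 0) (nat_lit 47922) (nat_lit 7) (node (nat_lit 5) (nat_lit
  48595) (nat_lit 8) nil (node (nat_lit 4) (nat_lit 47922) (nat_lit 8) nil (node (nat_lit 3)
  (nat_lit 47922) (nat_lit 8) nil (node (nat_lit 0) (nat_lit 48667) (nat_lit 8) nil (node (nat_lit
  7) (nat_lit 48667) (nat_lit 8) nil nil))))) nil))) (node (nat_lit 3) (nat_lit 0) (nat_lit 6)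
  (node (nat_lit 4) (nat_lit 43511) (nat_lit 7) (node (nat_lit 5) (nat_lit 48457) (nat_lit 8)
  (node (nat_lit 9) (nat_lit 50426) (nat_lit 9) (node (nat_lit 5) (nat_lit 51172) (nat_lit 10) nil
  nil) (node (nat_lit 4) (nat_lit 47666) (nat_lit 9) (node (nat_lit 9) (nat_lit 47101) (nat_lit
  10) (node (nat_lit 4) (nat_lit 45516) (nat_lit 11) nil nil) nil) nil)) (node (nat_lit 9)
  (nat_lit 47199) (nat_lit 8) (node (nat_lit 5) (nat_lit 47122) (nat_lit 9) (node (nat_lit 4)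
  (nat_lit 46794) (nat_lit 10) nil nil) nil) (node (nat_lit 7) (nat_lit 49774) (nat_lit 8) nil
  nil))) (node (nat_lit 5) (nat_lit 43511) (nat_lit 7) (node (nat_lit 4) (nat_lit 48328) (nat_lit
  8) (node (nat_lit 9) (nat_lit 51286) (nat_lit 9) (node (nat_lit 4) (nat_lit 52560) (nat_lit 10)
  (node (nat_lit 5) (nat_lit 51388) (nat_lit 11) (node (nat_lit 4) (nat_lit 45809) (nat_lit 12)
  nil nil) nil) nil) (node (nat_lit 5) (nat_lit 47222) (nat_lit 9) nil nil)) (node (nat_lit 7)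
  (nat_lit 47452) (nat_lit 8) nil nil)) (node (nat_lit 7) (nat_lit 48133) (nat_lit 7) (node
  (nat_lit 9) (nat_lit 48169) (nat_lit 8) (node (nat_lit 5) (nat_lit 47122) (nat_lit 9) (node
  (nat_lit 9) (nat_lit 48548) (nat_lit 10) nil nil) nil) (node (nat_lit 5) (nat_lit 48133)
  (nat_lit 8) (node (nat_lit 7) (nat_lit 49346) (nat_lit 9) nil nil) (node (nat_lit 4) (nat_lit
  46453) (nat_lit 8) (node (nat_lit 5) (nat_lit 46453) (nat_lit 9) nil nil) nil))) (node (nat_lit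
  0) (nat_lit 45304) (nat_lit 7) nil nil)))) (node (nat_lit 4) (nat_lit 0) (nat_lit 6) (node
  (nat_lit 5) (nat_lit 37479) (nat_lit 7) (node (nat_lit 3) (nat_lit 46050) (nat_lit 8) (node
  (nat_lit 4) (nat_lit 43443) (nat_lit 9) (node (nat_lit 11) (nat_lit 44178) (nat_lit 10) (node
  (nat_lit 5) (nat_lit 42427) (nat_lit 11) nil nil) (node (nat_lit 5) (nat_lit 32702) (nat_lit 10)
  (node (nat_lit 4) (nat_lit 32601) (nat_lit 11) nil nil) nil)) (node (nat_lit 5) (nat_lit 45917)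
  (nat_lit 9) nil nil)) (node (nat_lit 7) (nat_lit 47346) (nat_lit 8) (node (nat_lit 4) (nat_lit
  47346) (nat_lit 9) nil (node (nat_lit 5) (nat_lit 47346) (nat_lit 9) nil nil)) (node (nat_lit 0)
  (nat_lit 44423) (nat_lit 8) nil nil))) (node (nat_lit 3) (nat_lit 42882) (nat_lit 7) (node
  (nat_lit 5) (nat_lit 47025) (nat_lit 8) (node (nat_lit 10) (nat_lit 44305) (nat_lit 9) (node
  (nat_lit 4) (nat_lit 42040) (nat_lit 10) nil nil) (node (nat_lit 4) (nat_lit 48099) (nat_lit 9)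
  nil nil)) (node (nat_lit 4) (nat_lit 47750) (nat_lit 8) (node (nat_lit 5) (nat_lit 48096)
  (nat_lit 9) nil nil) (node (nat_lit 7) (nat_lit 46823) (nat_lit 8) nil nil))) (node (nat_lit 0)
  (nat_lit 45800) (nat_lit 7) nil nil))) (node (nat_lit 0) (nat_lit 0) (nat_lit 6) (node (nat_lit
  5) (nat_lit 43794) (nat_lit 7) (node (nat_lit 4) (nat_lit 43794) (nat_lit 8) nil (node (nat_lit
  3) (nat_lit 43794) (nat_lit 8) nil nil)) (node (nat_lit 4) (nat_lit 41252) (nat_lit 7) (node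
  (nat_lit 5) (nat_lit 41252) (nat_lit 8) nil nil) (node (nat_lit 3) (nat_lit 42876) (nat_lit 7)
  nil (node (nat_lit 7) (nat_lit 44698) (nat_lit 7) nil (node (nat_lit 0) (nat_lit 44698) (nat_lit
  7) nil nil))))) nil)))) (node (nat_lit 0) (nat_lit 0) (nat_lit 5) (node (nat_lit 7) (nat_lit 0)
  (nat_lit 6) (node (nat_lit 4) (nat_lit 46309) (nat_lit 7) (node (nat_lit 8) (nat_lit 51104)
  (nat_lit 8) (node (nat_lit 7) (nat_lit 52560) (nat_lit 9) (node (nat_lit 8) (nat_lit 52560)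
  (nat_lit 10) nil (node (nat_lit 5) (nat_lit 52560) (nat_lit 10) nil (node (nat_lit 3) (nat_lit
  52560) (nat_lit 10) nil (node (nat_lit 0) (nat_lit 52560) (nat_lit 10) nil nil)))) (node
  (nat_lit 4) (nat_lit 50048) (nat_lit 9) (node (nat_lit 7) (nat_lit 50871) (nat_lit 10) nil (node
  (nat_lit 3) (nat_lit 50048) (nat_lit 10) nil (node (nat_lit 5) (nat_lit 50048) (nat_lit 10) nil
  nil))) (node (nat_lit 5) (nat_lit 51104) (nat_lit 9) nil (node (nat_lit 3) (nat_lit 51104)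
  (nat_lit 9) nil (node (nat_lit 0) (nat_lit 51572) (nat_lit 9) nil nil))))) (node (nat_lit 5)
  (nat_lit 48935) (nat_lit 8) nil (node (nat_lit 3) (nat_lit 47873) (nat_lit 8) nil (node (nat_lit
  7) (nat_lit 51421) (nat_lit 8) nil (node (nat_lit 0) (nat_lit 50450) (nat_lit 8) nil nil)))))
  (node (nat_lit 5) (nat_lit 45705) (nat_lit 7) (node (nat_lit 8) (nat_lit 50884) (nat_lit 8)
  (node (nat_lit 5) (nat_lit 50884) (nat_lit 9) nil nil) (node (nat_lit 4) (nat_lit 46862)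
  (nat_lit 8) (node (nat_lit 5) (nat_lit 46355) (nat_lit 9) nil nil) (node (nat_lit 7) (nat_lit
  49845) (nat_lit 8) nil (node (nat_lit 3) (nat_lit 48397) (nat_lit 8) (node (nat_lit 5) (nat_lit
  49471) (nat_lit 9) nil nil) (node (nat_lit 0) (nat_lit 47523) (nat_lit 8) nil nil))))) (node
  (nat_lit 3) (nat_lit 46760) (nat_lit 7) (node (nat_lit 8) (nat_lit 51738) (nat_lit 8) (node
  (nat_lit 10) (nat_lit 51738) (nat_lit 9) nil nil) (node (nat_lit 4) (nat_lit 47838) (nat_lit 8)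
  (node (nat_lit 10) (nat_lit 48108) (nat_lit 9) nil nil) (node (nat_lit 7) (nat_lit 50901)
  (nat_lit 8) nil (node (nat_lit 5) (nat_lit 47316) (nat_lit 8) (node (nat_lit 10) (nat_lit 48389)
  (nat_lit 9) nil nil) (node (nat_lit 0) (nat_lit 48579) (nat_lit 8) nil nil))))) (node (nat_lit
  0) (nat_lit 47906) (nat_lit 7) (node (nat_lit 8) (nat_lit 50162) (nat_lit 8) (node (nat_lit 7)
  (nat_lit 50630) (nat_lit 9) nil nil) (node (nat_lit 7) (nat_lit 50162) (nat_lit 8) nil (node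
  (nat_lit 4) (nat_lit 47906) (nat_lit 8) nil (node (nat_lit 0) (nat_lit 48651) (nat_lit 8) nil
  (node (nat_lit 5) (nat_lit 47906) (nat_lit 8) nil (node (nat_lit 3) (nat_lit 47906) (nat_lit 8)
  nil nil)))))) nil)))) (node (nat_lit 4) (nat_lit 0) (nat_lit 6) (node (nat_lit 8) (nat_lit
  48919) (nat_lit 7) (node (nat_lit 7) (nat_lit 51477) (nat_lit 8) (node (nat_lit 8) (nat_lit
  52560) (nat_lit 9) (node (nat_lit 4) (nat_lit 52560) (nat_lit 10) (node (nat_lit 7) (nat_lit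
  52560) (nat_lit 11) nil nil) nil) (node (nat_lit 4) (nat_lit 51477) (nat_lit 9) nil nil)) (node
  (nat_lit 0) (nat_lit 50560) (nat_lit 8) nil (node (nat_lit 5) (nat_lit 48919) (nat_lit 8) nil
  (node (nat_lit 3) (nat_lit 48919) (nat_lit 8) nil nil)))) (node (nat_lit 3) (nat_lit 44229)
  (nat_lit 7) (node (nat_lit 4) (nat_lit 47778) (nat_lit 8) nil (node (nat_lit 5) (nat_lit 43391)
  (nat_lit 8) nil (node (nat_lit 7) (nat_lit 50493) (nat_lit 8) nil (node (nat_lit 8) (nat_lit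
  48170) (nat_lit 8) nil nil)))) (node (nat_lit 5) (nat_lit 44137) (nat_lit 7) (node (nat_lit 3)
  (nat_lit 47246) (nat_lit 8) nil (node (nat_lit 4) (nat_lit 46998) (nat_lit 8) nil (node (nat_lit
  7) (nat_lit 50400) (nat_lit 8) nil (node (nat_lit 8) (nat_lit 48077) (nat_lit 8) nil nil))))
  (node (nat_lit 0) (nat_lit 48357) (nat_lit 7) nil (node (nat_lit 7) (nat_lit 48357) (nat_lit 7)
  (node (nat_lit 4) (nat_lit 48357) (nat_lit 8) nil nil) nil))))) (node (nat_lit 5) (nat_lit 0)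
  (nat_lit 6) (node (nat_lit 3) (nat_lit 44131) (nat_lit 7) (node (nat_lit 4) (nat_lit 46000)
  (nat_lit 8) nil (node (nat_lit 5) (nat_lit 45553) (nat_lit 8) nil (node (nat_lit 7) (nat_lit
  48072) (nat_lit 8) nil nil))) (node (nat_lit 4) (nat_lit 42939) (nat_lit 7) (node (nat_lit 5)
  (nat_lit 46910) (nat_lit 8) nil (node (nat_lit 3) (nat_lit 45060) (nat_lit 8) nil (node (nat_lit
  8) (nat_lit 46879) (nat_lit 8) nil nil))) (node (nat_lit 8) (nat_lit 48351) (nat_lit 7) nil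
  (node (nat_lit 7) (nat_lit 48351) (nat_lit 7) nil (node (nat_lit 0) (nat_lit 45924) (nat_lit 7)
  nil nil))))) (node (nat_lit 3) (nat_lit 0) (nat_lit 6) (node (nat_lit 5) (nat_lit 44571)
  (nat_lit 7) (node (nat_lit 4) (nat_lit 41943) (nat_lit 8) (node (nat_lit 5) (nat_lit 39940)
  (nat_lit 9) nil nil) (node (nat_lit 9) (nat_lit 48118) (nat_lit 8) nil (node (nat_lit 7)
  (nat_lit 48511) (nat_lit 8) nil nil))) (node (nat_lit 4) (nat_lit 44697) (nat_lit 7) (node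
  (nat_lit 9) (nat_lit 48784) (nat_lit 8) nil (node (nat_lit 5) (nat_lit 46819) (nat_lit 8) nil
  (node (nat_lit 8) (nat_lit 48638) (nat_lit 8) nil nil))) (node (nat_lit 8) (nat_lit 48917)
  (nat_lit 7) nil (node (nat_lit 7) (nat_lit 48917) (nat_lit 7) nil (node (nat_lit 0) (nat_lit
  46490) (nat_lit 7) nil nil))))) (node (nat_lit 0) (nat_lit 42276) (nat_lit 6) (node (nat_lit 8)
  (nat_lit 47204) (nat_lit 7) (node (nat_lit 7) (nat_lit 47949) (nat_lit 8) nil nil) (node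
  (nat_lit 7) (nat_lit 46336) (nat_lit 7) nil (node (nat_lit 3) (nat_lit 42276) (nat_lit 7) nil
  (node (nat_lit 5) (nat_lit 42276) (nat_lit 7) nil (node (nat_lit 4) (nat_lit 42276) (nat_lit 7)
  nil nil))))) nil))))) (node (nat_lit 4) (nat_lit 0) (nat_lit 5) (node (nat_lit 3) (nat_lit 0)
  (nat_lit 6) (node (nat_lit 5) (nat_lit 43589) (nat_lit 7) (node (nat_lit 4) (nat_lit 47589)
  (nat_lit 8) (node (nat_lit 5) (nat_lit 47677) (nat_lit 9) (node (nat_lit 9) (nat_lit 48740)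
  (nat_lit 10) nil nil) (node (nat_lit 9) (nat_lit 44236) (nat_lit 9) (node (nat_lit 4) (nat_lit
  41947) (nat_lit 10) (node (nat_lit 5) (nat_lit 38687) (nat_lit 11) nil nil) nil) nil)) (node
  (nat_lit 9) (nat_lit 45085) (nat_lit 8) (node (nat_lit 4) (nat_lit 39135) (nat_lit 9) (node
  (nat_lit 5) (nat_lit 35387) (nat_lit 10) (node (nat_lit 4) (nat_lit 25704) (nat_lit 11) (node
  (nat_lit 7) (nat_lit 27829) (nat_lit 12) nil nil) nil) nil) nil) nil)) (node (nat_lit 4)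
  (nat_lit 44312) (nat_lit 7) (node (nat_lit 5) (nat_lit 49183) (nat_lit 8) (node (nat_lit 9)
  (nat_lit 51153) (nat_lit 9) nil (node (nat_lit 4) (nat_lit 48392) (nat_lit 9) (node (nat_lit 7)
  (nat_lit 31790) (nat_lit 10) nil nil) nil)) (node (nat_lit 7) (nat_lit 50576) (nat_lit 8) nil
  nil)) (node (nat_lit 7) (nat_lit 48934) (nat_lit 7) (node (nat_lit 9) (nat_lit 48934) (nat_lit
  8) nil nil) (node (nat_lit 0) (nat_lit 46105) (nat_lit 7) nil nil)))) (node (nat_lit 5) (nat_lit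
  0) (nat_lit 6) (node (nat_lit 3) (nat_lit 43802) (nat_lit 7) (node (nat_lit 4) (nat_lit 48748)
  (nat_lit 8) (node (nat_lit 10) (nat_lit 49018) (nat_lit 9) nil (node (nat_lit 5) (nat_lit 49694)
  (nat_lit 9) (node (nat_lit 4) (nat_lit 50138) (nat_lit 10) (node (nat_lit 7) (nat_lit 33217)
  (nat_lit 11) nil nil) nil) nil)) (node (nat_lit 5) (nat_lit 48748) (nat_lit 8) (node (nat_lit 4)
  (nat_lit 48543) (nat_lit 9) (node (nat_lit 10) (nat_lit 45432) (nat_lit 10) (node (nat_lit 4)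
  (nat_lit 43918) (nat_lit 11) (node (nat_lit 5) (nat_lit 42163) (nat_lit 12) nil nil) nil) nil)
  nil) nil)) (node (nat_lit 4) (nat_lit 37483) (nat_lit 7) (node (nat_lit 3) (nat_lit 46425)
  (nat_lit 8) (node (nat_lit 5) (nat_lit 44824) (nat_lit 9) (node (nat_lit 11) (nat_lit 42813)
  (nat_lit 10) (node (nat_lit 4) (nat_lit 41561) (nat_lit 11) nil nil) nil) (node (nat_lit 4)
  (nat_lit 47942) (nat_lit 9) (node (nat_lit 5) (nat_lit 45744) (nat_lit 10) nil nil) nil)) nil)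
  (node (nat_lit 7) (nat_lit 42112) (nat_lit 7) (node (nat_lit 5) (nat_lit 41782) (nat_lit 8)
  (node (nat_lit 4) (nat_lit 41782) (nat_lit 9) nil nil) nil) (node (nat_lit 0) (nat_lit 40836)
  (nat_lit 7) nil nil)))) (node (nat_lit 0) (nat_lit 0) (nat_lit 6) (node (nat_lit 4) (nat_lit
  44930) (nat_lit 7) (node (nat_lit 7) (nat_lit 49071) (nat_lit 8) nil (node (nat_lit 3) (nat_lit
  44131) (nat_lit 8) nil (node (nat_lit 5) (nat_lit 44230) (nat_lit 8) nil (node (nat_lit 0)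
  (nat_lit 46749) (nat_lit 8) nil nil)))) (node (nat_lit 3) (nat_lit 46412) (nat_lit 7) (node
  (nat_lit 4) (nat_lit 46412) (nat_lit 8) nil (node (nat_lit 9) (nat_lit 48231) (nat_lit 8) nil
  nil)) (node (nat_lit 5) (nat_lit 46412) (nat_lit 7) (node (nat_lit 4) (nat_lit 46412) (nat_lit
  8) nil (node (nat_lit 9) (nat_lit 48231) (nat_lit 8) nil nil)) (node (nat_lit 7) (nat_lit 48510)
  (nat_lit 7) nil (node (nat_lit 0) (nat_lit 48510) (nat_lit 7) nil nil))))) nil))) nil))))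

noncomputable def t379 : Tr :=
  (node (nat_lit 4) (nat_lit 0) (nat_lit 3) (node (nat_lit 0) (nat_lit 0) (nat_lit 4) t378 (node
  (nat_lit 3) (nat_lit 0) (nat_lit 4) (node (nat_lit 0) (nat_lit 0) (nat_lit 5) (node (nat_lit 7)
  (nat_lit 0) (nat_lit 6) (node (nat_lit 4) (nat_lit 38012) (nat_lit 7) (node (nat_lit 8) (nat_lit
  47298) (nat_lit 8) (node (nat_lit 7) (nat_lit 48074) (nat_lit 9) (node (nat_lit 5) (nat_lit
  48439) (nat_lit 10) (node (nat_lit 7) (nat_lit 49506) (nat_lit 11) nil (node (nat_lit 4)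
  (nat_lit 49694) (nat_lit 11) (node (nat_lit 5) (nat_lit 48640) (nat_lit 12) nil nil) nil)) (node
  (nat_lit 8) (nat_lit 50390) (nat_lit 10) (node (nat_lit 4) (nat_lit 50390) (nat_lit 11) nil nil)
  (node (nat_lit 0) (nat_lit 50105) (nat_lit 10) nil nil))) (node (nat_lit 4) (nat_lit 47212)
  (nat_lit 9) (node (nat_lit 7) (nat_lit 48135) (nat_lit 10) (node (nat_lit 8) (nat_lit 49272)
  (nat_lit 11) nil nil) (node (nat_lit 5) (nat_lit 47212) (nat_lit 10) nil nil)) (node (nat_lit 5)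
  (nat_lit 47298) (nat_lit 9) nil nil))) (node (nat_lit 5) (nat_lit 43920) (nat_lit 8) (node
  (nat_lit 7) (nat_lit 46380) (nat_lit 9) (node (nat_lit 4) (nat_lit 47126) (nat_lit 10) nil (node
  (nat_lit 5) (nat_lit 47126) (nat_lit 10) nil nil)) (node (nat_lit 4) (nat_lit 46023) (nat_lit 9)
  (node (nat_lit 7) (nat_lit 45469) (nat_lit 10) nil nil) (node (nat_lit 8) (nat_lit 48447)
  (nat_lit 9) nil (node (nat_lit 0) (nat_lit 48447) (nat_lit 9) nil nil)))) (node (nat_lit 7)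
  (nat_lit 44056) (nat_lit 8) (node (nat_lit 8) (nat_lit 49223) (nat_lit 9) (node (nat_lit 4)
  (nat_lit 48585) (nat_lit 10) (node (nat_lit 8) (nat_lit 49254) (nat_lit 11) nil (node (nat_lit
  7) (nat_lit 48585) (nat_lit 11) nil nil)) nil) (node (nat_lit 5) (nat_lit 41871) (nat_lit 9) nil
  nil)) (node (nat_lit 0) (nat_lit 47298) (nat_lit 8) nil nil)))) (node (nat_lit 5) (nat_lit
  37288) (nat_lit 7) (node (nat_lit 4) (nat_lit 42700) (nat_lit 8) (node (nat_lit 5) (nat_lit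
  46247) (nat_lit 9) (node (nat_lit 7) (nat_lit 47572) (nat_lit 10) (node (nat_lit 4) (nat_lit
  42740) (nat_lit 11) nil nil) nil) (node (nat_lit 7) (nat_lit 44289) (nat_lit 9) (node (nat_lit
  4) (nat_lit 39908) (nat_lit 10) (node (nat_lit 5) (nat_lit 34742) (nat_lit 11) nil nil) (node
  (nat_lit 5) (nat_lit 45279) (nat_lit 10) nil (node (nat_lit 8) (nat_lit 45858) (nat_lit 10) nil
  nil))) (node (nat_lit 8) (nat_lit 47228) (nat_lit 9) nil (node (nat_lit 0) (nat_lit 47827)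
  (nat_lit 9) nil nil)))) (node (nat_lit 7) (nat_lit 43086) (nat_lit 8) (node (nat_lit 4) (nat_lit
  45720) (nat_lit 9) nil (node (nat_lit 8) (nat_lit 48253) (nat_lit 9) (node (nat_lit 5) (nat_lit
  47937) (nat_lit 10) (node (nat_lit 8) (nat_lit 49750) (nat_lit 11) nil (node (nat_lit 7)
  (nat_lit 47937) (nat_lit 11) nil nil)) nil) (node (nat_lit 0) (nat_lit 47614) (nat_lit 9) nil
  nil))) (node (nat_lit 8) (nat_lit 46043) (nat_lit 8) (node (nat_lit 5) (nat_lit 46956) (nat_lit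
  9) (node (nat_lit 7) (nat_lit 47638) (nat_lit 10) (node (nat_lit 8) (nat_lit 48775) (nat_lit 11)
  nil nil) nil) (node (nat_lit 7) (nat_lit 46956) (nat_lit 9) (node (nat_lit 8) (nat_lit 47780)
  (nat_lit 10) nil nil) (node (nat_lit 4) (nat_lit 44738) (nat_lit 9) nil nil))) (node (nat_lit 0)
  (nat_lit 46465) (nat_lit 8) nil nil)))) (node (nat_lit 0) (nat_lit 42962) (nat_lit 7) (node
  (nat_lit 8) (nat_lit 46306) (nat_lit 8) (node (nat_lit 7) (nat_lit 46134) (nat_lit 9) (node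
  (nat_lit 8) (nat_lit 48238) (nat_lit 10) nil (node (nat_lit 0) (nat_lit 46958) (nat_lit 10) nil
  (node (nat_lit 4) (nat_lit 46134) (nat_lit 10) nil (node (nat_lit 5) (nat_lit 46134) (nat_lit
  10) nil nil)))) (node (nat_lit 10) (nat_lit 47455) (nat_lit 9) nil nil)) (node (nat_lit 7)
  (nat_lit 42656) (nat_lit 8) (node (nat_lit 8) (nat_lit 46110) (nat_lit 9) nil (node (nat_lit 5)
  (nat_lit 42656) (nat_lit 9) nil (node (nat_lit 4) (nat_lit 42656) (nat_lit 9) nil (node (nat_lit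
  0) (nat_lit 43869) (nat_lit 9) nil nil)))) (node (nat_lit 4) (nat_lit 41348) (nat_lit 8) (node
  (nat_lit 8) (nat_lit 44802) (nat_lit 9) nil (node (nat_lit 7) (nat_lit 41208) (nat_lit 9) nil
  (node (nat_lit 10) (nat_lit 42561) (nat_lit 9) nil nil))) (node (nat_lit 5) (nat_lit 42632)
  (nat_lit 8) (node (nat_lit 7) (nat_lit 42632) (nat_lit 9) nil nil) (node (nat_lit 0) (nat_lit
  46306) (nat_lit 8) nil nil))))) nil))) (node (nat_lit 4) (nat_lit 0) (nat_lit 6) (node (nat_lit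
  8) (nat_lit 43712) (nat_lit 7) (node (nat_lit 7) (nat_lit 45121) (nat_lit 8) (node (nat_lit 8)
  (nat_lit 49431) (nat_lit 9) (node (nat_lit 4) (nat_lit 48920) (nat_lit 10) (node (nat_lit 7)
  (nat_lit 49284) (nat_lit 11) (node (nat_lit 4) (nat_lit 49890) (nat_lit 12) nil (node (nat_lit
  8) (nat_lit 50237) (nat_lit 12) nil (node (nat_lit 5) (nat_lit 48230) (nat_lit 12) nil nil)))
  (node (nat_lit 5) (nat_lit 48452) (nat_lit 11) nil nil)) nil) (node (nat_lit 4) (nat_lit 46681)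
  (nat_lit 9) (node (nat_lit 7) (nat_lit 47426) (nat_lit 10) nil nil) nil)) nil) (node (nat_lit 5)
  (nat_lit 37411) (nat_lit 7) (node (nat_lit 7) (nat_lit 43318) (nat_lit 8) (node (nat_lit 4)
  (nat_lit 45952) (nat_lit 9) nil (node (nat_lit 5) (nat_lit 44328) (nat_lit 9) nil nil)) (node
  (nat_lit 4) (nat_lit 41278) (nat_lit 8) (node (nat_lit 7) (nat_lit 41982) (nat_lit 9) (node
  (nat_lit 4) (nat_lit 36877) (nat_lit 10) (node (nat_lit 5) (nat_lit 32932) (nat_lit 11) nil nil)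
  nil) nil) (node (nat_lit 8) (nat_lit 45658) (nat_lit 8) nil nil))) (node (nat_lit 7) (nat_lit
  38074) (nat_lit 7) (node (nat_lit 4) (nat_lit 44054) (nat_lit 8) (node (nat_lit 5) (nat_lit
  45128) (nat_lit 9) nil (node (nat_lit 8) (nat_lit 48582) (nat_lit 9) nil nil)) (node (nat_lit 5)
  (nat_lit 42336) (nat_lit 8) (node (nat_lit 7) (nat_lit 37771) (nat_lit 9) nil (node (nat_lit 4)
  (nat_lit 40334) (nat_lit 9) nil nil)) (node (nat_lit 0) (nat_lit 42015) (nat_lit 8) nil nil)))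
  (node (nat_lit 0) (nat_lit 43549) (nat_lit 7) nil nil)))) (node (nat_lit 5) (nat_lit 0) (nat_lit
  6) (node (nat_lit 7) (nat_lit 36708) (nat_lit 7) (node (nat_lit 5) (nat_lit 41245) (nat_lit 8)
  (node (nat_lit 8) (nat_lit 45773) (nat_lit 9) nil nil) (node (nat_lit 4) (nat_lit 40950)
  (nat_lit 8) nil (node (nat_lit 0) (nat_lit 44956) (nat_lit 8) nil nil))) (node (nat_lit 4)
  (nat_lit 37674) (nat_lit 7) (node (nat_lit 7) (nat_lit 40845) (nat_lit 8) nil (node (nat_lit 5)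
  (nat_lit 38985) (nat_lit 8) nil (node (nat_lit 8) (nat_lit 41615) (nat_lit 8) nil nil))) (node
  (nat_lit 8) (nat_lit 42435) (nat_lit 7) (node (nat_lit 7) (nat_lit 43098) (nat_lit 8) (node
  (nat_lit 8) (nat_lit 47393) (nat_lit 9) (node (nat_lit 5) (nat_lit 47393) (nat_lit 10) nil nil)
  nil) nil) (node (nat_lit 0) (nat_lit 41568) (nat_lit 7) nil nil)))) (node (nat_lit 0) (nat_lit
  0) (nat_lit 6) (node (nat_lit 7) (nat_lit 39826) (nat_lit 7) (node (nat_lit 8) (nat_lit 46870)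
  (nat_lit 8) (node (nat_lit 7) (nat_lit 47195) (nat_lit 9) (node (nat_lit 9) (nat_lit 49299)
  (nat_lit 10) nil nil) (node (nat_lit 4) (nat_lit 46870) (nat_lit 9) nil nil)) (node (nat_lit 9)
  (nat_lit 45951) (nat_lit 8) nil (node (nat_lit 4) (nat_lit 39826) (nat_lit 8) nil (node (nat_lit
  5) (nat_lit 39826) (nat_lit 8) nil (node (nat_lit 0) (nat_lit 41644) (nat_lit 8) nil nil)))))
  (node (nat_lit 8) (nat_lit 43761) (nat_lit 7) (node (nat_lit 7) (nat_lit 44413) (nat_lit 8)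
  (node (nat_lit 8) (nat_lit 47867) (nat_lit 9) nil nil) nil) (node (nat_lit 4) (nat_lit 36567)
  (nat_lit 7) nil (node (nat_lit 0) (nat_lit 42894) (nat_lit 7) nil (node (nat_lit 5) (nat_lit
  37514) (nat_lit 7) nil nil))))) nil)))) (node (nat_lit 4) (nat_lit 0) (nat_lit 5) (node (nat_lit
  0) (nat_lit 0) (nat_lit 6) (node (nat_lit 7) (nat_lit 0) (nat_lit 7) (node (nat_lit 4) (nat_lit
  25727) (nat_lit 8) (node (nat_lit 7) (nat_lit 29094) (nat_lit 9) (node (nat_lit 9) (nat_lit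
  32551) (nat_lit 10) (node (nat_lit 7) (nat_lit 32551) (nat_lit 11) nil (node (nat_lit 4)
  (nat_lit 32551) (nat_lit 11) nil nil)) (node (nat_lit 5) (nat_lit 30502) (nat_lit 10) (node
  (nat_lit 4) (nat_lit 29618) (nat_lit 11) nil (node (nat_lit 7) (nat_lit 30031) (nat_lit 11) nil
  nil)) (node (nat_lit 0) (nat_lit 31959) (nat_lit 10) nil nil))) (node (nat_lit 5) (nat_lit
  29094) (nat_lit 9) (node (nat_lit 7) (nat_lit 31104) (nat_lit 10) nil (node (nat_lit 4) (nat_lit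
  31104) (nat_lit 10) nil (node (nat_lit 9) (nat_lit 31959) (nat_lit 10) nil nil))) (node (nat_lit
  0) (nat_lit 31480) (nat_lit 9) nil nil))) (node (nat_lit 9) (nat_lit 29742) (nat_lit 8) (node
  (nat_lit 4) (nat_lit 29275) (nat_lit 9) nil nil) (node (nat_lit 5) (nat_lit 25225) (nat_lit 8)
  nil (node (nat_lit 0) (nat_lit 26460) (nat_lit 8) nil nil)))) (node (nat_lit 5) (nat_lit 22033)
  (nat_lit 7) (node (nat_lit 4) (nat_lit 24785) (nat_lit 8) (node (nat_lit 5) (nat_lit 27823)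
  (nat_lit 9) nil (node (nat_lit 7) (nat_lit 25962) (nat_lit 9) nil nil)) (node (nat_lit 7)
  (nat_lit 23755) (nat_lit 8) nil nil)) (node (nat_lit 4) (nat_lit 0) (nat_lit 7) (node (nat_lit
  7) (nat_lit 25221) (nat_lit 8) (node (nat_lit 9) (nat_lit 31298) (nat_lit 9) (node (nat_lit 7)
  (nat_lit 31298) (nat_lit 10) (node (nat_lit 4) (nat_lit 31298) (nat_lit 11) nil nil) nil) nil)
  (node (nat_lit 5) (nat_lit 24758) (nat_lit 8) nil (node (nat_lit 0) (nat_lit 25992) (nat_lit 8)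
  nil nil))) (node (nat_lit 0) (nat_lit 24980) (nat_lit 7) nil nil)))) nil) (node (nat_lit 5)
  (nat_lit 0) (nat_lit 5) (node (nat_lit 0) (nat_lit 0) (nat_lit 6) (node (nat_lit 7) (nat_lit 0)
  (nat_lit 7) (node (nat_lit 5) (nat_lit 36910) (nat_lit 8) (node (nat_lit 4) (nat_lit 41826)
  (nat_lit 9) (node (nat_lit 7) (nat_lit 42836) (nat_lit 10) nil (node (nat_lit 5) (nat_lit 44692)
  (nat_lit 10) nil (node (nat_lit 9) (nat_lit 46515) (nat_lit 10) nil (node (nat_lit 0) (nat_lit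
  44690) (nat_lit 10) nil nil)))) (node (nat_lit 7) (nat_lit 41904) (nat_lit 9) (node (nat_lit 4)
  (nat_lit 43914) (nat_lit 10) nil (node (nat_lit 9) (nat_lit 46878) (nat_lit 10) (node (nat_lit
  7) (nat_lit 46878) (nat_lit 11) nil nil) (node (nat_lit 0) (nat_lit 46049) (nat_lit 10) nil
  nil))) (node (nat_lit 0) (nat_lit 44571) (nat_lit 9) nil nil))) (node (nat_lit 4) (nat_lit
  34321) (nat_lit 8) nil (node (nat_lit 9) (nat_lit 40146) (nat_lit 8) nil (node (nat_lit 0)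
  (nat_lit 35839) (nat_lit 8) nil nil)))) (node (nat_lit 4) (nat_lit 33041) (nat_lit 7) (node
  (nat_lit 5) (nat_lit 37641) (nat_lit 8) (node (nat_lit 4) (nat_lit 41961) (nat_lit 9) nil (node
  (nat_lit 7) (nat_lit 41199) (nat_lit 9) nil nil)) (node (nat_lit 9) (nat_lit 36680) (nat_lit 8)
  nil (node (nat_lit 7) (nat_lit 33409) (nat_lit 8) nil nil))) (node (nat_lit 5) (nat_lit 31614)
  (nat_lit 7) (node (nat_lit 7) (nat_lit 36791) (nat_lit 8) (node (nat_lit 9) (nat_lit 44451)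
  (nat_lit 9) (node (nat_lit 7) (nat_lit 44451) (nat_lit 10) nil nil) nil) (node (nat_lit 4)
  (nat_lit 31356) (nat_lit 8) nil nil)) (node (nat_lit 0) (nat_lit 34802) (nat_lit 7) nil nil))))
  (node (nat_lit 4) (nat_lit 0) (nat_lit 6) (node (nat_lit 5) (nat_lit 0) (nat_lit 7) (node
  (nat_lit 0) (nat_lit 32196) (nat_lit 8) nil nil) (node (nat_lit 0) (nat_lit 30607) (nat_lit 7)
  nil nil)) nil)) nil))) nil)) (node (nat_lit 0) (nat_lit 0) (nat_lit 3) (node (nat_lit 3)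
  (nat_lit 0) (nat_lit 4) (node (nat_lit 6) (nat_lit 0) (nat_lit 5) (node (nat_lit 5) (nat_lit 0)
  (nat_lit 6) (node (nat_lit 7) (nat_lit 111206) (nat_lit 7) (node (nat_lit 5) (nat_lit 111282)
  (nat_lit 8) nil (node (nat_lit 4) (nat_lit 111282) (nat_lit 8) (node (nat_lit 5) (nat_lit
  111282) (nat_lit 9) nil nil) nil)) (node (nat_lit 4) (nat_lit 110009) (nat_lit 7) (node (nat_lit
  7) (nat_lit 111282) (nat_lit 8) (node (nat_lit 5) (nat_lit 111282) (nat_lit 9) (node (nat_lit 4)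
  (nat_lit 109909) (nat_lit 10) nil nil) (node (nat_lit 4) (nat_lit 111282) (nat_lit 9) nil nil))
  (node (nat_lit 5) (nat_lit 110208) (nat_lit 8) (node (nat_lit 7) (nat_lit 110549) (nat_lit 9)
  nil nil) nil)) (node (nat_lit 6) (nat_lit 111282) (nat_lit 7) nil (node (nat_lit 0) (nat_lit
  111282) (nat_lit 7) nil nil)))) (node (nat_lit 4) (nat_lit 0) (nat_lit 6) (node (nat_lit 5)
  (nat_lit 108988) (nat_lit 7) (node (nat_lit 7) (nat_lit 111206) (nat_lit 8) (node (nat_lit 4)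
  (nat_lit 110867) (nat_lit 9) nil (node (nat_lit 5) (nat_lit 110677) (nat_lit 9) (node (nat_lit
  4) (nat_lit 104915) (nat_lit 10) nil nil) nil)) (node (nat_lit 4) (nat_lit 111282) (nat_lit 8)
  (node (nat_lit 7) (nat_lit 110445) (nat_lit 9) nil nil) nil)) (node (nat_lit 7) (nat_lit 109698)
  (nat_lit 7) (node (nat_lit 4) (nat_lit 111282) (nat_lit 8) nil (node (nat_lit 5) (nat_lit
  110704) (nat_lit 8) (node (nat_lit 4) (nat_lit 108581) (nat_lit 9) nil (node (nat_lit 7)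
  (nat_lit 109049) (nat_lit 9) nil nil)) nil)) (node (nat_lit 6) (nat_lit 110857) (nat_lit 7) nil
  (node (nat_lit 0) (nat_lit 110857) (nat_lit 7) nil nil)))) (node (nat_lit 0) (nat_lit 111282)
  (nat_lit 6) nil nil))) (node (nat_lit 4) (nat_lit 0) (nat_lit 5) (node (nat_lit 5) (nat_lit
  98836) (nat_lit 6) (node (nat_lit 7) (nat_lit 107377) (nat_lit 7) (node (nat_lit 5) (nat_lit
  104118) (nat_lit 8) (node (nat_lit 4) (nat_lit 101802) (nat_lit 9) (node (nat_lit 7) (nat_lit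
  102456) (nat_lit 10) nil (node (nat_lit 5) (nat_lit 91078) (nat_lit 10) nil nil)) nil) (node
  (nat_lit 4) (nat_lit 108782) (nat_lit 8) (node (nat_lit 7) (nat_lit 106873) (nat_lit 9) nil nil)
  nil)) (node (nat_lit 4) (nat_lit 105893) (nat_lit 7) (node (nat_lit 7) (nat_lit 108179) (nat_lit
  8) (node (nat_lit 4) (nat_lit 97286) (nat_lit 9) (node (nat_lit 5) (nat_lit 87562) (nat_lit 10)
  (node (nat_lit 6) (nat_lit 77290) (nat_lit 11) nil nil) nil) (node (nat_lit 5) (nat_lit 108661)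
  (nat_lit 9) (node (nat_lit 7) (nat_lit 109511) (nat_lit 10) nil nil) nil)) nil) (node (nat_lit
  6) (nat_lit 47048) (nat_lit 7) nil nil))) (node (nat_lit 7) (nat_lit 93347) (nat_lit 6) (node
  (nat_lit 5) (nat_lit 98405) (nat_lit 7) (node (nat_lit 4) (nat_lit 95851) (nat_lit 8) (node
  (nat_lit 5) (nat_lit 79880) (nat_lit 9) nil (node (nat_lit 7) (nat_lit 97463) (nat_lit 9) nil
  nil)) (node (nat_lit 7) (nat_lit 99822) (nat_lit 8) (node (nat_lit 4) (nat_lit 94395) (nat_lit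
  9) (node (nat_lit 5) (nat_lit 88731) (nat_lit 10) nil nil) nil) (node (nat_lit 6) (nat_lit
  105390) (nat_lit 8) nil nil))) (node (nat_lit 6) (nat_lit 106855) (nat_lit 7) (node (nat_lit 7)
  (nat_lit 106855) (nat_lit 8) nil nil) nil)) (node (nat_lit 6) (nat_lit 109918) (nat_lit 6) (node
  (nat_lit 7) (nat_lit 110814) (nat_lit 7) nil (node (nat_lit 5) (nat_lit 109918) (nat_lit 7) nil
  nil)) (node (nat_lit 0) (nat_lit 97617) (nat_lit 6) nil nil)))) (node (nat_lit 5) (nat_lit 0)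
  (nat_lit 5) (node (nat_lit 4) (nat_lit 96783) (nat_lit 6) (node (nat_lit 5) (nat_lit 102422)
  (nat_lit 7) (node (nat_lit 7) (nat_lit 104449) (nat_lit 8) (node (nat_lit 4) (nat_lit 101900)
  (nat_lit 9) nil (node (nat_lit 5) (nat_lit 105098) (nat_lit 9) (node (nat_lit 4) (nat_lit
  101658) (nat_lit 10) nil nil) nil)) (node (nat_lit 6) (nat_lit 60171) (nat_lit 8) nil nil))
  (node (nat_lit 7) (nat_lit 100300) (nat_lit 7) (node (nat_lit 4) (nat_lit 94783) (nat_lit 8)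
  (node (nat_lit 5) (nat_lit 91807) (nat_lit 9) (node (nat_lit 7) (nat_lit 92623) (nat_lit 10) nil
  nil) nil) (node (nat_lit 5) (nat_lit 100777) (nat_lit 8) (node (nat_lit 7) (nat_lit 101420)
  (nat_lit 9) (node (nat_lit 4) (nat_lit 100112) (nat_lit 10) nil nil) nil) nil)) (node (nat_lit
  6) (nat_lit 105865) (nat_lit 7) nil nil))) (node (nat_lit 7) (nat_lit 103320) (nat_lit 6) (node
  (nat_lit 4) (nat_lit 108163) (nat_lit 7) (node (nat_lit 5) (nat_lit 110273) (nat_lit 8) nil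
  (node (nat_lit 7) (nat_lit 106291) (nat_lit 8) nil nil)) (node (nat_lit 6) (nat_lit 111282)
  (nat_lit 7) nil nil)) (node (nat_lit 6) (nat_lit 110867) (nat_lit 6) nil (node (nat_lit 0)
  (nat_lit 102289) (nat_lit 6) nil nil)))) (node (nat_lit 0) (nat_lit 103312) (nat_lit 5) (node
  (nat_lit 7) (nat_lit 103312) (nat_lit 6) nil nil) nil)))) (node (nat_lit 4) (nat_lit 0) (nat_lit
  4) (node (nat_lit 6) (nat_lit 0) (nat_lit 5) (node (nat_lit 5) (nat_lit 0) (nat_lit 6) (node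
  (nat_lit 4) (nat_lit 99724) (nat_lit 7) (node (nat_lit 5) (nat_lit 102414) (nat_lit 8) (node
  (nat_lit 6) (nat_lit 108370) (nat_lit 9) (node (nat_lit 4) (nat_lit 108370) (nat_lit 10) (node
  (nat_lit 6) (nat_lit 63507) (nat_lit 11) nil nil) nil) (node (nat_lit 3) (nat_lit 99977)
  (nat_lit 9) (node (nat_lit 4) (nat_lit 101810) (nat_lit 10) nil nil) nil)) (node (nat_lit 3)
  (nat_lit 108039) (nat_lit 8) (node (nat_lit 5) (nat_lit 107622) (nat_lit 9) nil (node (nat_lit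
  4) (nat_lit 109686) (nat_lit 9) nil nil)) (node (nat_lit 6) (nat_lit 108050) (nat_lit 8) nil
  nil))) (node (nat_lit 3) (nat_lit 106028) (nat_lit 7) (node (nat_lit 4) (nat_lit 108293)
  (nat_lit 8) nil (node (nat_lit 5) (nat_lit 108293) (nat_lit 8) (node (nat_lit 4) (nat_lit
  109353) (nat_lit 9) nil nil) nil)) (node (nat_lit 6) (nat_lit 104569) (nat_lit 7) nil (node
  (nat_lit 0) (nat_lit 101287) (nat_lit 7) nil nil)))) (node (nat_lit 3) (nat_lit 103670) (nat_lit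
  6) (node (nat_lit 5) (nat_lit 106803) (nat_lit 7) (node (nat_lit 4) (nat_lit 108520) (nat_lit 8)
  (node (nat_lit 9) (nat_lit 108126) (nat_lit 9) (node (nat_lit 4) (nat_lit 106418) (nat_lit 10)
  (node (nat_lit 5) (nat_lit 103202) (nat_lit 11) nil nil) nil) nil) (node (nat_lit 9) (nat_lit
  110604) (nat_lit 8) nil nil)) (node (nat_lit 4) (nat_lit 103280) (nat_lit 7) (node (nat_lit 9)
  (nat_lit 105214) (nat_lit 8) (node (nat_lit 5) (nat_lit 103639) (nat_lit 9) (node (nat_lit 4)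
  (nat_lit 100497) (nat_lit 10) (node (nat_lit 5) (nat_lit 95856) (nat_lit 11) nil nil) nil) nil)
  (node (nat_lit 5) (nat_lit 107082) (nat_lit 8) nil nil)) (node (nat_lit 6) (nat_lit 110296)
  (nat_lit 7) nil nil))) (node (nat_lit 0) (nat_lit 104117) (nat_lit 6) nil nil))) (node (nat_lit
  3) (nat_lit 0) (nat_lit 5) (node (nat_lit 5) (nat_lit 95616) (nat_lit 6) (node (nat_lit 4)
  (nat_lit 102595) (nat_lit 7) (node (nat_lit 5) (nat_lit 106242) (nat_lit 8) (node (nat_lit 8)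
  (nat_lit 107257) (nat_lit 9) (node (nat_lit 4) (nat_lit 105407) (nat_lit 10) (node (nat_lit 5)
  (nat_lit 101309) (nat_lit 11) nil nil) nil) (node (nat_lit 6) (nat_lit 69348) (nat_lit 9) nil
  nil)) (node (nat_lit 8) (nat_lit 101241) (nat_lit 8) (node (nat_lit 4) (nat_lit 97725) (nat_lit
  9) (node (nat_lit 5) (nat_lit 91780) (nat_lit 10) nil nil) nil) nil)) (node (nat_lit 8) (nat_lit
  98884) (nat_lit 7) (node (nat_lit 4) (nat_lit 98387) (nat_lit 8) (node (nat_lit 5) (nat_lit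
  89159) (nat_lit 9) (node (nat_lit 6) (nat_lit 89001) (nat_lit 10) nil (node (nat_lit 4) (nat_lit
  87513) (nat_lit 10) nil nil)) (node (nat_lit 8) (nat_lit 98793) (nat_lit 9) nil nil)) nil) (node
  (nat_lit 6) (nat_lit 105642) (nat_lit 7) nil nil))) (node (nat_lit 4) (nat_lit 98784) (nat_lit
  6) (node (nat_lit 5) (nat_lit 104366) (nat_lit 7) (node (nat_lit 4) (nat_lit 107901) (nat_lit 8)
  nil (node (nat_lit 8) (nat_lit 107051) (nat_lit 8) nil (node (nat_lit 6) (nat_lit 74327)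
  (nat_lit 8) (node (nat_lit 4) (nat_lit 45992) (nat_lit 9) nil nil) nil))) (node (nat_lit 6)
  (nat_lit 109449) (nat_lit 7) nil nil)) (node (nat_lit 6) (nat_lit 110075) (nat_lit 6) nil (node
  (nat_lit 0) (nat_lit 99416) (nat_lit 6) nil nil)))) (node (nat_lit 5) (nat_lit 0) (nat_lit 5)
  (node (nat_lit 3) (nat_lit 95602) (nat_lit 6) (node (nat_lit 5) (nat_lit 97840) (nat_lit 7)
  (node (nat_lit 4) (nat_lit 96697) (nat_lit 8) (node (nat_lit 5) (nat_lit 90371) (nat_lit 9)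
  (node (nat_lit 6) (nat_lit 90045) (nat_lit 10) nil nil) (node (nat_lit 9) (nat_lit 97989)
  (nat_lit 9) (node (nat_lit 4) (nat_lit 97004) (nat_lit 10) (node (nat_lit 5) (nat_lit 94132)
  (nat_lit 11) nil nil) nil) nil)) (node (nat_lit 6) (nat_lit 104359) (nat_lit 8) nil nil)) (node
  (nat_lit 4) (nat_lit 105239) (nat_lit 7) (node (nat_lit 9) (nat_lit 109848) (nat_lit 8) (node
  (nat_lit 5) (nat_lit 107720) (nat_lit 9) (node (nat_lit 4) (nat_lit 104373) (nat_lit 10) nil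
  nil) nil) (node (nat_lit 5) (nat_lit 109040) (nat_lit 8) nil nil)) (node (nat_lit 6) (nat_lit
  107834) (nat_lit 7) nil nil))) (node (nat_lit 4) (nat_lit 85296) (nat_lit 6) (node (nat_lit 3)
  (nat_lit 99475) (nat_lit 7) (node (nat_lit 5) (nat_lit 101521) (nat_lit 8) (node (nat_lit 10)
  (nat_lit 99692) (nat_lit 9) (node (nat_lit 4) (nat_lit 99035) (nat_lit 10) (node (nat_lit 5)
  (nat_lit 96182) (nat_lit 11) nil nil) nil) (node (nat_lit 4) (nat_lit 90749) (nat_lit 9) (node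
  (nat_lit 5) (nat_lit 84150) (nat_lit 10) nil nil) nil)) (node (nat_lit 4) (nat_lit 95015)
  (nat_lit 8) (node (nat_lit 5) (nat_lit 93784) (nat_lit 9) (node (nat_lit 10) (nat_lit 93497)
  (nat_lit 10) nil nil) nil) nil)) (node (nat_lit 6) (nat_lit 103009) (nat_lit 7) (node (nat_lit
  4) (nat_lit 103009) (nat_lit 8) nil nil) nil)) (node (nat_lit 0) (nat_lit 87701) (nat_lit 6) nil
  nil))) (node (nat_lit 0) (nat_lit 101465) (nat_lit 5) (node (nat_lit 4) (nat_lit 101465)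
  (nat_lit 6) nil nil) nil)))) (node (nat_lit 5) (nat_lit 0) (nat_lit 4) (node (nat_lit 3)
  (nat_lit 0) (nat_lit 5) (node (nat_lit 4) (nat_lit 101696) (nat_lit 6) (node (nat_lit 8)
  (nat_lit 106560) (nat_lit 7) (node (nat_lit 5) (nat_lit 107575) (nat_lit 8) (node (nat_lit 4)
  (nat_lit 103619) (nat_lit 9) (node (nat_lit 5) (nat_lit 94977) (nat_lit 10) nil nil) (node
  (nat_lit 8) (nat_lit 109149) (nat_lit 9) (node (nat_lit 4) (nat_lit 108129) (nat_lit 10) (node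
  (nat_lit 5) (nat_lit 103620) (nat_lit 11) nil nil) nil) nil)) nil) (node (nat_lit 5) (nat_lit
  109052) (nat_lit 7) (node (nat_lit 4) (nat_lit 109265) (nat_lit 8) (node (nat_lit 8) (nat_lit
  107047) (nat_lit 9) nil nil) (node (nat_lit 8) (nat_lit 110374) (nat_lit 8) (node (nat_lit 5)
  (nat_lit 110289) (nat_lit 9) (node (nat_lit 4) (nat_lit 108294) (nat_lit 10) nil nil) nil) (node
  (nat_lit 6) (nat_lit 86235) (nat_lit 8) nil nil))) nil)) (node (nat_lit 5) (nat_lit 97497)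
  (nat_lit 6) (node (nat_lit 4) (nat_lit 101452) (nat_lit 7) (node (nat_lit 8) (nat_lit 102249)
  (nat_lit 8) (node (nat_lit 4) (nat_lit 96947) (nat_lit 9) (node (nat_lit 5) (nat_lit 90879)
  (nat_lit 10) nil nil) nil) (node (nat_lit 5) (nat_lit 104918) (nat_lit 8) nil nil)) (node
  (nat_lit 6) (nat_lit 108373) (nat_lit 7) nil nil)) (node (nat_lit 6) (nat_lit 110142) (nat_lit
  6) nil (node (nat_lit 0) (nat_lit 101687) (nat_lit 6) nil nil)))) (node (nat_lit 4) (nat_lit 0)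
  (nat_lit 5) (node (nat_lit 3) (nat_lit 93961) (nat_lit 6) (node (nat_lit 4) (nat_lit 101416)
  (nat_lit 7) (node (nat_lit 5) (nat_lit 106624) (nat_lit 8) (node (nat_lit 6) (nat_lit 72053)
  (nat_lit 9) (node (nat_lit 5) (nat_lit 72053) (nat_lit 10) nil nil) nil) nil) (node (nat_lit 5)
  (nat_lit 97147) (nat_lit 7) (node (nat_lit 9) (nat_lit 98475) (nat_lit 8) (node (nat_lit 4)
  (nat_lit 98973) (nat_lit 9) (node (nat_lit 5) (nat_lit 93432) (nat_lit 10) nil nil) nil) (node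
  (nat_lit 4) (nat_lit 96541) (nat_lit 8) (node (nat_lit 5) (nat_lit 92995) (nat_lit 9) nil nil)
  nil)) (node (nat_lit 6) (nat_lit 106194) (nat_lit 7) nil nil))) (node (nat_lit 5) (nat_lit
  85227) (nat_lit 6) (node (nat_lit 3) (nat_lit 96031) (nat_lit 7) (node (nat_lit 4) (nat_lit
  96553) (nat_lit 8) (node (nat_lit 5) (nat_lit 92332) (nat_lit 9) nil nil) (node (nat_lit 5)
  (nat_lit 92206) (nat_lit 8) (node (nat_lit 4) (nat_lit 91282) (nat_lit 9) nil nil) nil)) (node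
  (nat_lit 6) (nat_lit 55719) (nat_lit 7) nil nil)) (node (nat_lit 6) (nat_lit 100958) (nat_lit 6)
  (node (nat_lit 5) (nat_lit 101854) (nat_lit 7) nil nil) (node (nat_lit 0) (nat_lit 89321)
  (nat_lit 6) nil nil)))) (node (nat_lit 0) (nat_lit 81345) (nat_lit 5) nil nil))) (node (nat_lit
  0) (nat_lit 0) (nat_lit 4) (node (nat_lit 3) (nat_lit 94240) (nat_lit 5) (node (nat_lit 5)
  (nat_lit 100563) (nat_lit 6) (node (nat_lit 4) (nat_lit 102638) (nat_lit 7) (node (nat_lit 8)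
  (nat_lit 98432) (nat_lit 8) nil (node (nat_lit 5) (nat_lit 100884) (nat_lit 8) nil nil)) (node
  (nat_lit 8) (nat_lit 109173) (nat_lit 7) (node (nat_lit 4) (nat_lit 111184) (nat_lit 8) nil nil)
  nil)) (node (nat_lit 4) (nat_lit 99408) (nat_lit 6) (node (nat_lit 5) (nat_lit 105350) (nat_lit
  7) (node (nat_lit 8) (nat_lit 104125) (nat_lit 8) nil (node (nat_lit 4) (nat_lit 104290)
  (nat_lit 8) nil nil)) (node (nat_lit 8) (nat_lit 102207) (nat_lit 7) (node (nat_lit 5) (nat_lit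
  99025) (nat_lit 8) nil nil) nil)) (node (nat_lit 6) (nat_lit 103152) (nat_lit 6) nil (node
  (nat_lit 0) (nat_lit 103152) (nat_lit 6) nil nil)))) (node (nat_lit 4) (nat_lit 91837) (nat_lit
  5) (node (nat_lit 5) (nat_lit 96437) (nat_lit 6) (node (nat_lit 3) (nat_lit 104839) (nat_lit 7)
  (node (nat_lit 4) (nat_lit 108272) (nat_lit 8) nil (node (nat_lit 5) (nat_lit 101785) (nat_lit
  8) nil nil)) (node (nat_lit 4) (nat_lit 95274) (nat_lit 7) (node (nat_lit 3) (nat_lit 91343)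
  (nat_lit 8) nil nil) nil)) (node (nat_lit 3) (nat_lit 100719) (nat_lit 6) (node (nat_lit 5)
  (nat_lit 105530) (nat_lit 7) (node (nat_lit 4) (nat_lit 103280) (nat_lit 8) nil (node (nat_lit
  9) (nat_lit 100694) (nat_lit 8) nil nil)) (node (nat_lit 4) (nat_lit 109329) (nat_lit 7) (node
  (nat_lit 5) (nat_lit 111282) (nat_lit 8) nil nil) nil)) (node (nat_lit 6) (nat_lit 100748)
  (nat_lit 6) nil (node (nat_lit 0) (nat_lit 100748) (nat_lit 6) nil nil)))) (node (nat_lit 5)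
  (nat_lit 93055) (nat_lit 5) (node (nat_lit 4) (nat_lit 98780) (nat_lit 6) (node (nat_lit 3)
  (nat_lit 104811) (nat_lit 7) (node (nat_lit 5) (nat_lit 99352) (nat_lit 8) nil nil) (node
  (nat_lit 5) (nat_lit 99488) (nat_lit 7) (node (nat_lit 3) (nat_lit 98863) (nat_lit 8) nil nil)
  nil)) (node (nat_lit 3) (nat_lit 98235) (nat_lit 6) (node (nat_lit 4) (nat_lit 105269) (nat_lit
  7) nil (node (nat_lit 5) (nat_lit 102919) (nat_lit 7) nil nil)) nil)) (node (nat_lit 0) (nat_lit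
  103107) (nat_lit 5) (node (nat_lit 6) (nat_lit 108597) (nat_lit 6) nil (node (nat_lit 7)
  (nat_lit 106539) (nat_lit 6) nil (node (nat_lit 0) (nat_lit 106539) (nat_lit 6) nil (node
  (nat_lit 4) (nat_lit 103107) (nat_lit 6) nil (node (nat_lit 3) (nat_lit 103107) (nat_lit 6) nil
  nil))))) (node (nat_lit 6) (nat_lit 0) (nat_lit 5) (node (nat_lit 0) (nat_lit 107678) (nat_lit
  6) nil (node (nat_lit 4) (nat_lit 104245) (nat_lit 6) nil (node (nat_lit 3) (nat_lit 104245)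
  (nat_lit 6) nil (node (nat_lit 5) (nat_lit 104245) (nat_lit 6) nil nil)))) nil))))) nil))))
  nil))

noncomputable def c25 : Tr :=
  (node (nat_lit 3) (nat_lit 0) (nat_lit 1) (node (nat_lit 3) (nat_lit 0) (nat_lit 2) (node
  (nat_lit 3) (nat_lit 0) (nat_lit 3) (node (nat_lit 0) (nat_lit 0) (nat_lit 4) (node (nat_lit 4)
  (nat_lit 0) (nat_lit 5) (node (nat_lit 7) (nat_lit 0) (nat_lit 6) (node (nat_lit 6) (nat_lit
  99176) (nat_lit 7) (node (nat_lit 4) (nat_lit 100415) (nat_lit 8) (node (nat_lit 6) (nat_lit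
  103114) (nat_lit 9) (node (nat_lit 5) (nat_lit 106256) (nat_lit 10) (node (nat_lit 4) (nat_lit
  106809) (nat_lit 11) (node (nat_lit 5) (nat_lit 105186) (nat_lit 12) (node (nat_lit 6) (nat_lit
  100979) (nat_lit 13) (node (nat_lit 7) (nat_lit 79971) (nat_lit 14) (node (nat_lit 4) (nat_lit
  79623) (nat_lit 15) nil nil) nil) nil) (node (nat_lit 6) (nat_lit 107426) (nat_lit 12) (node
  (nat_lit 4) (nat_lit 107371) (nat_lit 13) (node (nat_lit 5) (nat_lit 107196) (nat_lit 14) nil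
  nil) nil) nil)) (node (nat_lit 6) (nat_lit 105461) (nat_lit 11) (node (nat_lit 4) (nat_lit
  105099) (nat_lit 12) (node (nat_lit 5) (nat_lit 103884) (nat_lit 13) (node (nat_lit 6) (nat_lit
  101800) (nat_lit 14) (node (nat_lit 7) (nat_lit 92828) (nat_lit 15) nil nil) nil) nil) nil)
  nil)) (node (nat_lit 7) (nat_lit 107331) (nat_lit 10) nil (node (nat_lit 0) (nat_lit 107331)
  (nat_lit 10) nil nil))) (node (nat_lit 5) (nat_lit 104168) (nat_lit 9) (node (nat_lit 4)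
  (nat_lit 106308) (nat_lit 10) (node (nat_lit 6) (nat_lit 106005) (nat_lit 11) (node (nat_lit 5)
  (nat_lit 105249) (nat_lit 12) nil (node (nat_lit 4) (nat_lit 105605) (nat_lit 12) (node (nat_lit
  5) (nat_lit 104799) (nat_lit 13) (node (nat_lit 6) (nat_lit 102256) (nat_lit 14) nil nil) nil)
  nil)) nil) (node (nat_lit 6) (nat_lit 105905) (nat_lit 10) (node (nat_lit 5) (nat_lit 106381)
  (nat_lit 11) (node (nat_lit 4) (nat_lit 104620) (nat_lit 12) (node (nat_lit 5) (nat_lit 103907)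
  (nat_lit 13) nil nil) nil) (node (nat_lit 4) (nat_lit 106800) (nat_lit 11) nil nil)) (node
  (nat_lit 7) (nat_lit 107172) (nat_lit 10) nil (node (nat_lit 0) (nat_lit 107172) (nat_lit 10)
  nil nil)))) (node (nat_lit 0) (nat_lit 106372) (nat_lit 9) (node (nat_lit 4) (nat_lit 106372)
  (nat_lit 10) nil nil) (node (nat_lit 7) (nat_lit 104795) (nat_lit 9) nil nil)))) (node (nat_lit
  5) (nat_lit 100598) (nat_lit 8) (node (nat_lit 4) (nat_lit 103223) (nat_lit 9) (node (nat_lit 6)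
  (nat_lit 103049) (nat_lit 10) (node (nat_lit 4) (nat_lit 102028) (nat_lit 11) (node (nat_lit 5)
  (nat_lit 101036) (nat_lit 12) (node (nat_lit 6) (nat_lit 96376) (nat_lit 13) nil nil) nil) nil)
  (node (nat_lit 5) (nat_lit 105331) (nat_lit 10) nil nil)) (node (nat_lit 6) (nat_lit 103827)
  (nat_lit 9) (node (nat_lit 4) (nat_lit 105254) (nat_lit 10) nil nil) (node (nat_lit 7) (nat_lit
  106555) (nat_lit 9) nil (node (nat_lit 0) (nat_lit 104978) (nat_lit 9) nil nil)))) (node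
  (nat_lit 7) (nat_lit 105466) (nat_lit 8) (node (nat_lit 4) (nat_lit 105742) (nat_lit 9) (node
  (nat_lit 6) (nat_lit 105168) (nat_lit 10) (node (nat_lit 5) (nat_lit 104364) (nat_lit 11) nil
  nil) (node (nat_lit 5) (nat_lit 105114) (nat_lit 10) nil nil)) (node (nat_lit 5) (nat_lit
  105742) (nat_lit 9) (node (nat_lit 6) (nat_lit 106288) (nat_lit 10) nil (node (nat_lit 4)
  (nat_lit 105742) (nat_lit 10) nil nil)) (node (nat_lit 0) (nat_lit 106909) (nat_lit 9) nil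
  nil))) (node (nat_lit 0) (nat_lit 105297) (nat_lit 8) (node (nat_lit 4) (nat_lit 105297)
  (nat_lit 9) nil (node (nat_lit 6) (nat_lit 105297) (nat_lit 9) nil (node (nat_lit 5) (nat_lit
  105297) (nat_lit 9) nil nil))) nil)))) (node (nat_lit 5) (nat_lit 100766) (nat_lit 7) (node
  (nat_lit 4) (nat_lit 101955) (nat_lit 8) (node (nat_lit 6) (nat_lit 105283) (nat_lit 9) (node
  (nat_lit 5) (nat_lit 106443) (nat_lit 10) (node (nat_lit 4) (nat_lit 103946) (nat_lit 11) (node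
  (nat_lit 5) (nat_lit 98849) (nat_lit 12) (node (nat_lit 6) (nat_lit 94642) (nat_lit 13) nil nil)
  nil) (node (nat_lit 6) (nat_lit 107166) (nat_lit 11) (node (nat_lit 4) (nat_lit 104516) (nat_lit
  12) nil nil) nil)) (node (nat_lit 4) (nat_lit 107380) (nat_lit 10) (node (nat_lit 5) (nat_lit
  107895) (nat_lit 11) nil nil) nil)) (node (nat_lit 5) (nat_lit 105398) (nat_lit 9) (node
  (nat_lit 6) (nat_lit 106821) (nat_lit 10) (node (nat_lit 5) (nat_lit 106917) (nat_lit 11) nil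
  (node (nat_lit 4) (nat_lit 107337) (nat_lit 11) nil nil)) (node (nat_lit 7) (nat_lit 108021)
  (nat_lit 10) nil (node (nat_lit 0) (nat_lit 108021) (nat_lit 10) nil nil))) (node (nat_lit 0)
  (nat_lit 106335) (nat_lit 9) nil nil))) (node (nat_lit 6) (nat_lit 102487) (nat_lit 8) (node
  (nat_lit 5) (nat_lit 104171) (nat_lit 9) nil (node (nat_lit 4) (nat_lit 103748) (nat_lit 9) nil
  nil)) (node (nat_lit 7) (nat_lit 106088) (nat_lit 8) nil (node (nat_lit 0) (nat_lit 106424)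
  (nat_lit 8) nil nil)))) (node (nat_lit 0) (nat_lit 104512) (nat_lit 7) (node (nat_lit 4)
  (nat_lit 103516) (nat_lit 8) nil (node (nat_lit 5) (nat_lit 104512) (nat_lit 8) nil (node
  (nat_lit 6) (nat_lit 104512) (nat_lit 8) nil (node (nat_lit 7) (nat_lit 106424) (nat_lit 8) nil
  (node (nat_lit 0) (nat_lit 105938) (nat_lit 8) nil nil))))) nil))) (node (nat_lit 6) (nat_lit 0)
  (nat_lit 6) (node (nat_lit 7) (nat_lit 0) (nat_lit 7) (node (nat_lit 6) (nat_lit 102148)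
  (nat_lit 8) (node (nat_lit 4) (nat_lit 103319) (nat_lit 9) (node (nat_lit 6) (nat_lit 105701)
  (nat_lit 10) (node (nat_lit 5) (nat_lit 106001) (nat_lit 11) (node (nat_lit 4) (nat_lit 105246)
  (nat_lit 12) nil (node (nat_lit 6) (nat_lit 104154) (nat_lit 12) nil nil)) (node (nat_lit 0)
  (nat_lit 107535) (nat_lit 11) nil (node (nat_lit 7) (nat_lit 107535) (nat_lit 11) nil nil)))
  (node (nat_lit 7) (nat_lit 106255) (nat_lit 10) nil (node (nat_lit 5) (nat_lit 104118) (nat_lit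
  10) nil (node (nat_lit 0) (nat_lit 106255) (nat_lit 10) nil nil)))) (node (nat_lit 5) (nat_lit
  102148) (nat_lit 9) nil (node (nat_lit 0) (nat_lit 104470) (nat_lit 9) nil nil))) (node (nat_lit
  5) (nat_lit 102648) (nat_lit 8) (node (nat_lit 4) (nat_lit 102752) (nat_lit 9) (node (nat_lit 6)
  (nat_lit 102052) (nat_lit 10) nil (node (nat_lit 5) (nat_lit 104179) (nat_lit 10) nil nil)) nil)
  (node (nat_lit 0) (nat_lit 103762) (nat_lit 8) nil nil))) (node (nat_lit 4) (nat_lit 93008)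
  (nat_lit 7) (node (nat_lit 5) (nat_lit 99729) (nat_lit 8) (node (nat_lit 6) (nat_lit 102029)
  (nat_lit 9) (node (nat_lit 5) (nat_lit 103459) (nat_lit 10) (node (nat_lit 4) (nat_lit 100713)
  (nat_lit 11) (node (nat_lit 5) (nat_lit 96637) (nat_lit 12) nil nil) nil) (node (nat_lit 7)
  (nat_lit 65522) (nat_lit 10) (node (nat_lit 4) (nat_lit 50609) (nat_lit 11) nil nil) (node
  (nat_lit 4) (nat_lit 103456) (nat_lit 10) nil nil))) (node (nat_lit 4) (nat_lit 102535) (nat_lit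
  9) (node (nat_lit 6) (nat_lit 97343) (nat_lit 10) nil nil) nil)) (node (nat_lit 7) (nat_lit
  104138) (nat_lit 8) (node (nat_lit 6) (nat_lit 104138) (nat_lit 9) nil nil) (node (nat_lit 0)
  (nat_lit 100473) (nat_lit 8) nil nil))) (node (nat_lit 5) (nat_lit 95248) (nat_lit 7) (node
  (nat_lit 4) (nat_lit 99618) (nat_lit 8) (node (nat_lit 6) (nat_lit 100731) (nat_lit 9) (node
  (nat_lit 4) (nat_lit 99537) (nat_lit 10) (node (nat_lit 5) (nat_lit 96020) (nat_lit 11) (node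
  (nat_lit 6) (nat_lit 88518) (nat_lit 12) nil nil) nil) nil) (node (nat_lit 5) (nat_lit 102573)
  (nat_lit 9) nil nil)) (node (nat_lit 6) (nat_lit 97014) (nat_lit 8) (node (nat_lit 4) (nat_lit
  96901) (nat_lit 9) (node (nat_lit 5) (nat_lit 88815) (nat_lit 10) (node (nat_lit 6) (nat_lit
  88361) (nat_lit 11) nil nil) nil) nil) (node (nat_lit 7) (nat_lit 102713) (nat_lit 8) nil nil)))
  (node (nat_lit 0) (nat_lit 101928) (nat_lit 7) nil nil)))) (node (nat_lit 5) (nat_lit 0)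
  (nat_lit 6) (node (nat_lit 6) (nat_lit 95691) (nat_lit 7) (node (nat_lit 4) (nat_lit 100006)
  (nat_lit 8) (node (nat_lit 5) (nat_lit 101336) (nat_lit 9) (node (nat_lit 4) (nat_lit 100536)
  (nat_lit 10) nil nil) (node (nat_lit 6) (nat_lit 101259) (nat_lit 9) (node (nat_lit 5) (nat_lit
  100419) (nat_lit 10) nil nil) nil)) (node (nat_lit 5) (nat_lit 94343) (nat_lit 8) (node (nat_lit
  4) (nat_lit 94002) (nat_lit 9) (node (nat_lit 5) (nat_lit 84788) (nat_lit 10) (node (nat_lit 6)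
  (nat_lit 85539) (nat_lit 11) (node (nat_lit 7) (nat_lit 88066) (nat_lit 12) nil nil) nil) (node
  (nat_lit 6) (nat_lit 93896) (nat_lit 10) (node (nat_lit 4) (nat_lit 92875) (nat_lit 11) (node
  (nat_lit 5) (nat_lit 91479) (nat_lit 12) nil nil) nil) nil)) nil) nil)) (node (nat_lit 7)
  (nat_lit 104608) (nat_lit 7) (node (nat_lit 5) (nat_lit 104608) (nat_lit 8) (node (nat_lit 4)
  (nat_lit 104904) (nat_lit 9) (node (nat_lit 5) (nat_lit 106699) (nat_lit 10) (node (nat_lit 6)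
  (nat_lit 105802) (nat_lit 11) nil nil) nil) nil) (node (nat_lit 4) (nat_lit 104608) (nat_lit 8)
  (node (nat_lit 7) (nat_lit 106931) (nat_lit 9) nil nil) (node (nat_lit 6) (nat_lit 104922)
  (nat_lit 8) (node (nat_lit 4) (nat_lit 104922) (nat_lit 9) nil nil) nil))) (node (nat_lit 4)
  (nat_lit 96105) (nat_lit 7) (node (nat_lit 6) (nat_lit 98935) (nat_lit 8) (node (nat_lit 5)
  (nat_lit 101552) (nat_lit 9) (node (nat_lit 6) (nat_lit 101010) (nat_lit 10) (node (nat_lit 4)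
  (nat_lit 100013) (nat_lit 11) nil nil) nil) (node (nat_lit 4) (nat_lit 94605) (nat_lit 9) (node
  (nat_lit 5) (nat_lit 90301) (nat_lit 10) (node (nat_lit 6) (nat_lit 79266) (nat_lit 11) nil nil)
  nil) nil)) (node (nat_lit 7) (nat_lit 103570) (nat_lit 8) nil nil)) (node (nat_lit 0) (nat_lit
  103519) (nat_lit 7) nil nil)))) (node (nat_lit 0) (nat_lit 0) (nat_lit 6) (node (nat_lit 4)
  (nat_lit 97789) (nat_lit 7) (node (nat_lit 6) (nat_lit 97789) (nat_lit 8) nil (node (nat_lit 5)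
  (nat_lit 97789) (nat_lit 8) nil nil)) (node (nat_lit 6) (nat_lit 99313) (nat_lit 7) (node
  (nat_lit 4) (nat_lit 99313) (nat_lit 8) nil nil) (node (nat_lit 7) (nat_lit 103414) (nat_lit 7)
  nil (node (nat_lit 5) (nat_lit 100634) (nat_lit 7) nil (node (nat_lit 0) (nat_lit 101374)
  (nat_lit 7) nil nil))))) nil)))) t376) t377) t379) nil) nil)

noncomputable def t426 : Tr :=
  (node (nat_lit 0) (nat_lit 0) (nat_lit 5) (node (nat_lit 6) (nat_lit 0) (nat_lit 6) (node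
  (nat_lit 4) (nat_lit 0) (nat_lit 7) (node (nat_lit 5) (nat_lit 62901) (nat_lit 8) (node (nat_lit
  6) (nat_lit 65806) (nat_lit 9) (node (nat_lit 4) (nat_lit 69843) (nat_lit 10) (node (nat_lit 6)
  (nat_lit 71448) (nat_lit 11) (node (nat_lit 5) (nat_lit 72616) (nat_lit 12) (node (nat_lit 4)
  (nat_lit 71068) (nat_lit 13) (node (nat_lit 5) (nat_lit 70458) (nat_lit 14) (node (nat_lit 6)
  (nat_lit 67767) (nat_lit 15) nil nil) nil) nil) nil) (node (nat_lit 8) (nat_lit 48933) (nat_lit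
  11) nil nil)) (node (nat_lit 5) (nat_lit 68218) (nat_lit 10) nil nil)) (node (nat_lit 4)
  (nat_lit 65212) (nat_lit 9) (node (nat_lit 6) (nat_lit 68440) (nat_lit 10) (node (nat_lit 5)
  (nat_lit 69296) (nat_lit 11) (node (nat_lit 4) (nat_lit 68846) (nat_lit 12) (node (nat_lit 5)
  (nat_lit 66451) (nat_lit 13) (node (nat_lit 6) (nat_lit 64488) (nat_lit 14) (node (nat_lit 4)
  (nat_lit 65109) (nat_lit 15) nil nil) nil) nil) nil) nil) nil) nil)) (node (nat_lit 6) (nat_lit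
  62660) (nat_lit 8) (node (nat_lit 5) (nat_lit 65785) (nat_lit 9) (node (nat_lit 4) (nat_lit
  69523) (nat_lit 10) (node (nat_lit 5) (nat_lit 70769) (nat_lit 11) nil (node (nat_lit 6)
  (nat_lit 66777) (nat_lit 11) nil nil)) (node (nat_lit 6) (nat_lit 68859) (nat_lit 10) nil nil))
  (node (nat_lit 8) (nat_lit 73574) (nat_lit 9) nil (node (nat_lit 0) (nat_lit 68063) (nat_lit 9)
  nil nil))) (node (nat_lit 0) (nat_lit 64819) (nat_lit 8) nil nil))) (node (nat_lit 8) (nat_lit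
  0) (nat_lit 7) (node (nat_lit 4) (nat_lit 69478) (nat_lit 8) (node (nat_lit 6) (nat_lit 69574)
  (nat_lit 9) (node (nat_lit 4) (nat_lit 69627) (nat_lit 10) (node (nat_lit 5) (nat_lit 69282)
  (nat_lit 11) (node (nat_lit 6) (nat_lit 70368) (nat_lit 12) (node (nat_lit 5) (nat_lit 68940)
  (nat_lit 13) nil nil) nil) (node (nat_lit 8) (nat_lit 72197) (nat_lit 11) nil nil)) (node
  (nat_lit 5) (nat_lit 69574) (nat_lit 10) (node (nat_lit 4) (nat_lit 69574) (nat_lit 11) (node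
  (nat_lit 5) (nat_lit 70741) (nat_lit 12) nil nil) (node (nat_lit 6) (nat_lit 69574) (nat_lit 11)
  nil nil)) nil)) (node (nat_lit 5) (nat_lit 69478) (nat_lit 9) nil (node (nat_lit 8) (nat_lit
  71223) (nat_lit 9) nil (node (nat_lit 0) (nat_lit 71223) (nat_lit 9) nil nil)))) (node (nat_lit
  5) (nat_lit 70061) (nat_lit 8) (node (nat_lit 6) (nat_lit 70061) (nat_lit 9) (node (nat_lit 5)
  (nat_lit 70061) (nat_lit 10) nil (node (nat_lit 4) (nat_lit 70061) (nat_lit 10) nil nil)) nil)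
  (node (nat_lit 0) (nat_lit 71229) (nat_lit 8) nil nil))) (node (nat_lit 5) (nat_lit 0) (nat_lit
  7) (node (nat_lit 4) (nat_lit 61594) (nat_lit 8) (node (nat_lit 5) (nat_lit 65862) (nat_lit 9)
  (node (nat_lit 6) (nat_lit 69944) (nat_lit 10) (node (nat_lit 4) (nat_lit 70625) (nat_lit 11)
  (node (nat_lit 8) (nat_lit 26112) (nat_lit 12) nil nil) nil) nil) (node (nat_lit 6) (nat_lit
  63947) (nat_lit 9) (node (nat_lit 5) (nat_lit 66359) (nat_lit 10) nil (node (nat_lit 4) (nat_lit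
  66359) (nat_lit 10) nil nil)) nil)) (node (nat_lit 6) (nat_lit 61210) (nat_lit 8) (node (nat_lit
  4) (nat_lit 64226) (nat_lit 9) (node (nat_lit 5) (nat_lit 65683) (nat_lit 10) (node (nat_lit 4)
  (nat_lit 64925) (nat_lit 11) nil nil) (node (nat_lit 6) (nat_lit 65034) (nat_lit 10) nil nil))
  (node (nat_lit 8) (nat_lit 66614) (nat_lit 9) nil nil)) (node (nat_lit 8) (nat_lit 72958)
  (nat_lit 8) nil (node (nat_lit 0) (nat_lit 67880) (nat_lit 8) nil nil)))) (node (nat_lit 0)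
  (nat_lit 67057) (nat_lit 7) nil nil)))) (node (nat_lit 5) (nat_lit 0) (nat_lit 6) (node (nat_lit
  4) (nat_lit 0) (nat_lit 7) (node (nat_lit 5) (nat_lit 63890) (nat_lit 8) (node (nat_lit 6)
  (nat_lit 66424) (nat_lit 9) (node (nat_lit 4) (nat_lit 69414) (nat_lit 10) (node (nat_lit 6)
  (nat_lit 71445) (nat_lit 11) (node (nat_lit 5) (nat_lit 72489) (nat_lit 12) nil nil) (node
  (nat_lit 8) (nat_lit 24902) (nat_lit 11) nil nil)) (node (nat_lit 5) (nat_lit 68922) (nat_lit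
  10) (node (nat_lit 4) (nat_lit 68164) (nat_lit 11) nil nil) (node (nat_lit 8) (nat_lit 72266)
  (nat_lit 10) nil nil))) (node (nat_lit 8) (nat_lit 74936) (nat_lit 9) nil (node (nat_lit 0)
  (nat_lit 69293) (nat_lit 9) nil nil))) (node (nat_lit 6) (nat_lit 61920) (nat_lit 8) (node
  (nat_lit 5) (nat_lit 65288) (nat_lit 9) (node (nat_lit 6) (nat_lit 67700) (nat_lit 10) nil nil)
  (node (nat_lit 4) (nat_lit 65290) (nat_lit 9) (node (nat_lit 5) (nat_lit 66392) (nat_lit 10)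
  (node (nat_lit 4) (nat_lit 65635) (nat_lit 11) nil nil) nil) nil)) (node (nat_lit 8) (nat_lit
  73021) (nat_lit 8) (node (nat_lit 4) (nat_lit 73021) (nat_lit 9) nil nil) (node (nat_lit 0)
  (nat_lit 67943) (nat_lit 8) nil nil)))) (node (nat_lit 8) (nat_lit 0) (nat_lit 7) (node (nat_lit
  4) (nat_lit 70307) (nat_lit 8) (node (nat_lit 5) (nat_lit 69974) (nat_lit 9) (node (nat_lit 4)
  (nat_lit 70204) (nat_lit 10) (node (nat_lit 6) (nat_lit 71210) (nat_lit 11) (node (nat_lit 5)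
  (nat_lit 72378) (nat_lit 12) nil nil) (node (nat_lit 8) (nat_lit 72773) (nat_lit 11) nil nil))
  (node (nat_lit 6) (nat_lit 69974) (nat_lit 10) (node (nat_lit 4) (nat_lit 69974) (nat_lit 11)
  nil (node (nat_lit 5) (nat_lit 69974) (nat_lit 11) nil nil)) nil)) (node (nat_lit 6) (nat_lit
  70307) (nat_lit 9) nil (node (nat_lit 8) (nat_lit 72052) (nat_lit 9) nil (node (nat_lit 0)
  (nat_lit 72052) (nat_lit 9) nil nil)))) (node (nat_lit 6) (nat_lit 70569) (nat_lit 8) (node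
  (nat_lit 5) (nat_lit 70569) (nat_lit 9) (node (nat_lit 6) (nat_lit 70569) (nat_lit 10) nil (node
  (nat_lit 4) (nat_lit 70569) (nat_lit 10) nil nil)) nil) (node (nat_lit 0) (nat_lit 71737)
  (nat_lit 8) nil nil))) (node (nat_lit 6) (nat_lit 0) (nat_lit 7) (node (nat_lit 4) (nat_lit
  61893) (nat_lit 8) (node (nat_lit 5) (nat_lit 62961) (nat_lit 9) (node (nat_lit 6) (nat_lit
  67462) (nat_lit 10) (node (nat_lit 5) (nat_lit 68644) (nat_lit 11) (node (nat_lit 4) (nat_lit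
  66907) (nat_lit 12) (node (nat_lit 5) (nat_lit 65228) (nat_lit 13) (node (nat_lit 6) (nat_lit
  60984) (nat_lit 14) (node (nat_lit 4) (nat_lit 53446) (nat_lit 15) nil nil) nil) nil) nil) nil)
  (node (nat_lit 4) (nat_lit 62452) (nat_lit 10) nil nil)) (node (nat_lit 6) (nat_lit 65261)
  (nat_lit 9) (node (nat_lit 5) (nat_lit 67673) (nat_lit 10) nil nil) nil)) (node (nat_lit 5)
  (nat_lit 62149) (nat_lit 8) (node (nat_lit 4) (nat_lit 64472) (nat_lit 9) (node (nat_lit 6)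
  (nat_lit 66884) (nat_lit 10) nil nil) (node (nat_lit 8) (nat_lit 67553) (nat_lit 9) nil nil))
  (node (nat_lit 8) (nat_lit 73123) (nat_lit 8) nil (node (nat_lit 0) (nat_lit 65877) (nat_lit 8)
  nil nil)))) (node (nat_lit 0) (nat_lit 66997) (nat_lit 7) nil nil)))) (node (nat_lit 4) (nat_lit
  0) (nat_lit 6) (node (nat_lit 5) (nat_lit 0) (nat_lit 7) (node (nat_lit 6) (nat_lit 63328)
  (nat_lit 8) (node (nat_lit 4) (nat_lit 64360) (nat_lit 9) (node (nat_lit 6) (nat_lit 67992)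
  (nat_lit 10) (node (nat_lit 5) (nat_lit 69271) (nat_lit 11) (node (nat_lit 4) (nat_lit 67096)
  (nat_lit 12) (node (nat_lit 5) (nat_lit 65760) (nat_lit 13) (node (nat_lit 6) (nat_lit 61600)
  (nat_lit 14) nil nil) nil) nil) nil) (node (nat_lit 5) (nat_lit 66773) (nat_lit 10) nil nil))
  (node (nat_lit 5) (nat_lit 66696) (nat_lit 9) (node (nat_lit 4) (nat_lit 70454) (nat_lit 10)
  (node (nat_lit 6) (nat_lit 71429) (nat_lit 11) (node (nat_lit 4) (nat_lit 71100) (nat_lit 12)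
  (node (nat_lit 5) (nat_lit 69731) (nat_lit 13) (node (nat_lit 6) (nat_lit 64621) (nat_lit 14)
  (node (nat_lit 4) (nat_lit 62692) (nat_lit 15) nil nil) nil) nil) nil) nil) nil) nil)) (node
  (nat_lit 4) (nat_lit 61813) (nat_lit 8) (node (nat_lit 6) (nat_lit 64166) (nat_lit 9) (node
  (nat_lit 5) (nat_lit 66579) (nat_lit 10) nil (node (nat_lit 4) (nat_lit 66579) (nat_lit 10) nil
  nil)) (node (nat_lit 8) (nat_lit 67216) (nat_lit 9) nil nil)) (node (nat_lit 8) (nat_lit 67779)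
  (nat_lit 8) nil (node (nat_lit 0) (nat_lit 67779) (nat_lit 8) nil nil)))) (node (nat_lit 6)
  (nat_lit 0) (nat_lit 7) (node (nat_lit 5) (nat_lit 62168) (nat_lit 8) (node (nat_lit 6) (nat_lit
  65090) (nat_lit 9) (node (nat_lit 4) (nat_lit 67650) (nat_lit 10) (node (nat_lit 6) (nat_lit
  66999) (nat_lit 11) nil nil) nil) (node (nat_lit 4) (nat_lit 65045) (nat_lit 9) (node (nat_lit
  5) (nat_lit 67457) (nat_lit 10) nil (node (nat_lit 6) (nat_lit 67457) (nat_lit 10) nil nil))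
  nil)) (node (nat_lit 4) (nat_lit 61073) (nat_lit 8) (node (nat_lit 5) (nat_lit 61314) (nat_lit
  9) (node (nat_lit 6) (nat_lit 64935) (nat_lit 10) (node (nat_lit 5) (nat_lit 66115) (nat_lit 11)
  nil nil) (node (nat_lit 4) (nat_lit 60292) (nat_lit 10) nil nil)) (node (nat_lit 8) (nat_lit
  71987) (nat_lit 9) nil nil)) (node (nat_lit 8) (nat_lit 70454) (nat_lit 8) nil (node (nat_lit 0)
  (nat_lit 65061) (nat_lit 8) nil nil)))) (node (nat_lit 0) (nat_lit 67949) (nat_lit 7) nil nil)))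
  (node (nat_lit 0) (nat_lit 0) (nat_lit 6) (node (nat_lit 8) (nat_lit 0) (nat_lit 7) (node
  (nat_lit 4) (nat_lit 70347) (nat_lit 8) (node (nat_lit 9) (nat_lit 72091) (nat_lit 9) nil nil)
  (node (nat_lit 6) (nat_lit 70347) (nat_lit 8) nil (node (nat_lit 5) (nat_lit 70347) (nat_lit 8)
  nil (node (nat_lit 0) (nat_lit 72521) (nat_lit 8) nil nil)))) (node (nat_lit 4) (nat_lit 0)
  (nat_lit 7) (node (nat_lit 9) (nat_lit 73535) (nat_lit 8) (node (nat_lit 8) (nat_lit 74112)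
  (nat_lit 9) nil nil) (node (nat_lit 0) (nat_lit 68535) (nat_lit 8) nil (node (nat_lit 5)
  (nat_lit 64499) (nat_lit 8) nil (node (nat_lit 6) (nat_lit 64499) (nat_lit 8) nil (node (nat_lit
  8) (nat_lit 66912) (nat_lit 8) nil nil))))) (node (nat_lit 6) (nat_lit 62186) (nat_lit 7) nil
  (node (nat_lit 5) (nat_lit 62186) (nat_lit 7) nil (node (nat_lit 0) (nat_lit 66729) (nat_lit 7)
  nil nil))))) nil)))) (node (nat_lit 5) (nat_lit 0) (nat_lit 5) (node (nat_lit 0) (nat_lit 0)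
  (nat_lit 6) (node (nat_lit 5) (nat_lit 0) (nat_lit 7) (node (nat_lit 4) (nat_lit 42638) (nat_lit
  8) (node (nat_lit 6) (nat_lit 43892) (nat_lit 9) (node (nat_lit 5) (nat_lit 45389) (nat_lit 10)
  (node (nat_lit 6) (nat_lit 46453) (nat_lit 11) nil nil) (node (nat_lit 4) (nat_lit 44547)
  (nat_lit 10) (node (nat_lit 5) (nat_lit 45610) (nat_lit 11) nil nil) (node (nat_lit 9) (nat_lit
  46261) (nat_lit 10) nil (node (nat_lit 0) (nat_lit 46261) (nat_lit 10) nil nil)))) (node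
  (nat_lit 9) (nat_lit 48914) (nat_lit 9) (node (nat_lit 5) (nat_lit 48914) (nat_lit 10) (node
  (nat_lit 9) (nat_lit 49292) (nat_lit 11) nil nil) nil) (node (nat_lit 5) (nat_lit 44182)
  (nat_lit 9) (node (nat_lit 9) (nat_lit 48606) (nat_lit 10) nil (node (nat_lit 6) (nat_lit 45240)
  (nat_lit 10) nil nil)) (node (nat_lit 0) (nat_lit 46658) (nat_lit 9) nil nil)))) (node (nat_lit
  6) (nat_lit 42638) (nat_lit 8) (node (nat_lit 4) (nat_lit 43769) (nat_lit 9) (node (nat_lit 6)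
  (nat_lit 44829) (nat_lit 10) nil (node (nat_lit 5) (nat_lit 43435) (nat_lit 10) nil (node
  (nat_lit 0) (nat_lit 48194) (nat_lit 10) nil nil))) (node (nat_lit 5) (nat_lit 45457) (nat_lit
  9) (node (nat_lit 4) (nat_lit 46112) (nat_lit 10) nil (node (nat_lit 9) (nat_lit 49115) (nat_lit
  10) nil (node (nat_lit 0) (nat_lit 47826) (nat_lit 10) nil nil))) (node (nat_lit 9) (nat_lit
  48496) (nat_lit 9) nil (node (nat_lit 0) (nat_lit 48496) (nat_lit 9) nil nil)))) (node (nat_lit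
  0) (nat_lit 47027) (nat_lit 8) (node (nat_lit 9) (nat_lit 47700) (nat_lit 9) nil (node (nat_lit
  5) (nat_lit 47027) (nat_lit 9) nil (node (nat_lit 0) (nat_lit 47471) (nat_lit 9) nil nil)))
  nil))) (node (nat_lit 4) (nat_lit 0) (nat_lit 7) (node (nat_lit 9) (nat_lit 47240) (nat_lit 8)
  (node (nat_lit 5) (nat_lit 47240) (nat_lit 9) (node (nat_lit 9) (nat_lit 48318) (nat_lit 10)
  (node (nat_lit 4) (nat_lit 48318) (nat_lit 11) (node (nat_lit 5) (nat_lit 48318) (nat_lit 12)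
  nil nil) nil) nil) nil) (node (nat_lit 6) (nat_lit 39217) (nat_lit 8) (node (nat_lit 5) (nat_lit
  39217) (nat_lit 9) nil nil) (node (nat_lit 5) (nat_lit 41527) (nat_lit 8) (node (nat_lit 4)
  (nat_lit 42541) (nat_lit 9) (node (nat_lit 9) (nat_lit 46966) (nat_lit 10) (node (nat_lit 5)
  (nat_lit 46966) (nat_lit 11) nil nil) nil) nil) (node (nat_lit 0) (nat_lit 44015) (nat_lit 8)
  nil nil)))) (node (nat_lit 6) (nat_lit 0) (nat_lit 7) (node (nat_lit 5) (nat_lit 42410) (nat_lit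
  8) (node (nat_lit 6) (nat_lit 43009) (nat_lit 9) (node (nat_lit 9) (nat_lit 48608) (nat_lit 10)
  (node (nat_lit 5) (nat_lit 48608) (nat_lit 11) nil nil) nil) nil) (node (nat_lit 9) (nat_lit
  46774) (nat_lit 8) (node (nat_lit 5) (nat_lit 46774) (nat_lit 9) nil nil) (node (nat_lit 4)
  (nat_lit 39111) (nat_lit 8) nil (node (nat_lit 0) (nat_lit 40835) (nat_lit 8) nil nil)))) (node
  (nat_lit 0) (nat_lit 42372) (nat_lit 7) (node (nat_lit 5) (nat_lit 42686) (nat_lit 8) (node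
  (nat_lit 9) (nat_lit 45408) (nat_lit 9) (node (nat_lit 5) (nat_lit 45408) (nat_lit 10) nil nil)
  (node (nat_lit 10) (nat_lit 43790) (nat_lit 9) nil nil)) (node (nat_lit 9) (nat_lit 45289)
  (nat_lit 8) (node (nat_lit 5) (nat_lit 45289) (nat_lit 9) nil nil) nil)) nil)))) (node (nat_lit
  4) (nat_lit 0) (nat_lit 6) (node (nat_lit 0) (nat_lit 0) (nat_lit 7) (node (nat_lit 5) (nat_lit
  43636) (nat_lit 8) (node (nat_lit 4) (nat_lit 45183) (nat_lit 9) (node (nat_lit 5) (nat_lit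
  46838) (nat_lit 10) (node (nat_lit 10) (nat_lit 49292) (nat_lit 11) (node (nat_lit 4) (nat_lit
  49292) (nat_lit 12) (node (nat_lit 5) (nat_lit 49292) (nat_lit 13) nil nil) (node (nat_lit 5)
  (nat_lit 49292) (nat_lit 12) nil nil)) (node (nat_lit 6) (nat_lit 47339) (nat_lit 11) (node
  (nat_lit 4) (nat_lit 47999) (nat_lit 12) (node (nat_lit 5) (nat_lit 48442) (nat_lit 13) (node
  (nat_lit 4) (nat_lit 48644) (nat_lit 14) nil nil) nil) (node (nat_lit 5) (nat_lit 47999)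
  (nat_lit 12) nil nil)) (node (nat_lit 0) (nat_lit 49292) (nat_lit 11) nil nil))) (node (nat_lit
  6) (nat_lit 46526) (nat_lit 10) (node (nat_lit 5) (nat_lit 47810) (nat_lit 11) (node (nat_lit 6)
  (nat_lit 48470) (nat_lit 12) nil nil) (node (nat_lit 4) (nat_lit 47089) (nat_lit 11) (node
  (nat_lit 5) (nat_lit 47749) (nat_lit 12) nil nil) (node (nat_lit 10) (nat_lit 48008) (nat_lit
  11) nil (node (nat_lit 0) (nat_lit 48008) (nat_lit 11) nil nil)))) (node (nat_lit 0) (nat_lit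
  49115) (nat_lit 10) nil nil))) (node (nat_lit 10) (nat_lit 48767) (nat_lit 9) (node (nat_lit 4)
  (nat_lit 48767) (nat_lit 10) nil nil) (node (nat_lit 6) (nat_lit 43636) (nat_lit 9) nil nil)))
  (node (nat_lit 4) (nat_lit 43493) (nat_lit 8) (node (nat_lit 5) (nat_lit 44572) (nat_lit 9)
  (node (nat_lit 10) (nat_lit 49115) (nat_lit 10) (node (nat_lit 5) (nat_lit 49115) (nat_lit 11)
  (node (nat_lit 4) (nat_lit 49115) (nat_lit 12) (node (nat_lit 10) (nat_lit 49339) (nat_lit 13)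
  nil nil) nil) nil) nil) nil) (node (nat_lit 6) (nat_lit 43474) (nat_lit 8) (node (nat_lit 4)
  (nat_lit 43474) (nat_lit 9) nil nil) (node (nat_lit 0) (nat_lit 44053) (nat_lit 8) nil nil))))
  nil) nil)) (node (nat_lit 6) (nat_lit 0) (nat_lit 5) (node (nat_lit 0) (nat_lit 0) (nat_lit 6)
  (node (nat_lit 6) (nat_lit 0) (nat_lit 7) (node (nat_lit 5) (nat_lit 59490) (nat_lit 8) (node
  (nat_lit 4) (nat_lit 62742) (nat_lit 9) (node (nat_lit 5) (nat_lit 65527) (nat_lit 10) (node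
  (nat_lit 6) (nat_lit 66499) (nat_lit 11) (node (nat_lit 4) (nat_lit 67593) (nat_lit 12) (node
  (nat_lit 6) (nat_lit 68672) (nat_lit 13) (node (nat_lit 9) (nat_lit 26385) (nat_lit 14) nil nil)
  nil) nil) (node (nat_lit 9) (nat_lit 71444) (nat_lit 11) nil nil)) (node (nat_lit 6) (nat_lit
  64861) (nat_lit 10) nil (node (nat_lit 9) (nat_lit 70328) (nat_lit 10) nil (node (nat_lit 0)
  (nat_lit 70328) (nat_lit 10) nil nil)))) (node (nat_lit 6) (nat_lit 63026) (nat_lit 9) (node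
  (nat_lit 4) (nat_lit 62800) (nat_lit 10) (node (nat_lit 6) (nat_lit 63771) (nat_lit 11) nil
  (node (nat_lit 5) (nat_lit 65105) (nat_lit 11) nil (node (nat_lit 9) (nat_lit 68717) (nat_lit
  11) nil nil))) (node (nat_lit 9) (nat_lit 73270) (nat_lit 10) nil (node (nat_lit 0) (nat_lit
  70612) (nat_lit 10) nil nil))) (node (nat_lit 9) (nat_lit 71991) (nat_lit 9) nil (node (nat_lit
  0) (nat_lit 71991) (nat_lit 9) nil nil)))) (node (nat_lit 4) (nat_lit 58607) (nat_lit 8) (node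
  (nat_lit 5) (nat_lit 63394) (nat_lit 9) (node (nat_lit 6) (nat_lit 65292) (nat_lit 10) (node
  (nat_lit 4) (nat_lit 67598) (nat_lit 11) (node (nat_lit 6) (nat_lit 67912) (nat_lit 12) (node
  (nat_lit 9) (nat_lit 44352) (nat_lit 13) nil nil) nil) (node (nat_lit 5) (nat_lit 67598)
  (nat_lit 11) nil nil)) (node (nat_lit 4) (nat_lit 65068) (nat_lit 10) nil (node (nat_lit 9)
  (nat_lit 68925) (nat_lit 10) nil (node (nat_lit 0) (nat_lit 68925) (nat_lit 10) nil nil))))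
  (node (nat_lit 9) (nat_lit 72149) (nat_lit 9) (node (nat_lit 6) (nat_lit 72149) (nat_lit 10) nil
  nil) (node (nat_lit 6) (nat_lit 59057) (nat_lit 9) (node (nat_lit 5) (nat_lit 59057) (nat_lit
  10) nil nil) (node (nat_lit 0) (nat_lit 69691) (nat_lit 9) nil nil)))) (node (nat_lit 0)
  (nat_lit 68547) (nat_lit 8) (node (nat_lit 9) (nat_lit 69791) (nat_lit 9) nil (node (nat_lit 6)
  (nat_lit 68547) (nat_lit 9) nil nil)) nil))) (node (nat_lit 4) (nat_lit 0) (nat_lit 7) (node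
  (nat_lit 9) (nat_lit 68854) (nat_lit 8) (node (nat_lit 6) (nat_lit 68854) (nat_lit 9) (node
  (nat_lit 9) (nat_lit 70741) (nat_lit 10) (node (nat_lit 4) (nat_lit 70741) (nat_lit 11) (node
  (nat_lit 6) (nat_lit 70741) (nat_lit 12) nil nil) nil) nil) nil) (node (nat_lit 6) (nat_lit
  58083) (nat_lit 8) (node (nat_lit 4) (nat_lit 61012) (nat_lit 9) (node (nat_lit 9) (nat_lit
  71858) (nat_lit 10) (node (nat_lit 6) (nat_lit 71858) (nat_lit 11) nil nil) nil) nil) (node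
  (nat_lit 5) (nat_lit 53184) (nat_lit 8) nil (node (nat_lit 0) (nat_lit 57262) (nat_lit 8) nil
  nil)))) (node (nat_lit 5) (nat_lit 54673) (nat_lit 7) (node (nat_lit 6) (nat_lit 55343) (nat_lit
  8) (node (nat_lit 5) (nat_lit 56356) (nat_lit 9) (node (nat_lit 9) (nat_lit 61887) (nat_lit 10)
  nil nil) nil) (node (nat_lit 9) (nat_lit 68405) (nat_lit 8) (node (nat_lit 6) (nat_lit 68405)
  (nat_lit 9) nil nil) (node (nat_lit 4) (nat_lit 54673) (nat_lit 8) nil nil))) (node (nat_lit 0)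
  (nat_lit 60918) (nat_lit 7) (node (nat_lit 6) (nat_lit 60918) (nat_lit 8) (node (nat_lit 9)
  (nat_lit 65142) (nat_lit 9) nil nil) (node (nat_lit 9) (nat_lit 64135) (nat_lit 8) nil nil))
  nil)))) (node (nat_lit 5) (nat_lit 0) (nat_lit 6) (node (nat_lit 0) (nat_lit 0) (nat_lit 7)
  (node (nat_lit 6) (nat_lit 47517) (nat_lit 8) (node (nat_lit 5) (nat_lit 51424) (nat_lit 9)
  (node (nat_lit 6) (nat_lit 53304) (nat_lit 10) (node (nat_lit 4) (nat_lit 55040) (nat_lit 11)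
  (node (nat_lit 5) (nat_lit 56090) (nat_lit 12) (node (nat_lit 4) (nat_lit 55974) (nat_lit 13)
  nil nil) (node (nat_lit 6) (nat_lit 55355) (nat_lit 12) nil (node (nat_lit 10) (nat_lit 59002)
  (nat_lit 12) nil nil))) (node (nat_lit 10) (nat_lit 62202) (nat_lit 11) (node (nat_lit 6)
  (nat_lit 62202) (nat_lit 12) nil nil) (node (nat_lit 0) (nat_lit 60840) (nat_lit 11) nil nil)))
  (node (nat_lit 4) (nat_lit 53453) (nat_lit 10) (node (nat_lit 6) (nat_lit 55518) (nat_lit 11)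
  (node (nat_lit 4) (nat_lit 57290) (nat_lit 12) nil (node (nat_lit 10) (nat_lit 59479) (nat_lit
  12) nil nil)) (node (nat_lit 5) (nat_lit 55753) (nat_lit 11) (node (nat_lit 6) (nat_lit 56298)
  (nat_lit 12) nil (node (nat_lit 10) (nat_lit 59714) (nat_lit 12) nil nil)) (node (nat_lit 10)
  (nat_lit 60990) (nat_lit 11) nil (node (nat_lit 0) (nat_lit 57064) (nat_lit 11) nil nil))))
  (node (nat_lit 0) (nat_lit 60650) (nat_lit 10) nil nil))) nil) (node (nat_lit 5) (nat_lit 47634)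
  (nat_lit 8) (node (nat_lit 6) (nat_lit 47634) (nat_lit 9) (node (nat_lit 10) (nat_lit 52678)
  (nat_lit 10) (node (nat_lit 6) (nat_lit 52678) (nat_lit 11) nil nil) nil) nil) (node (nat_lit 0)
  (nat_lit 46617) (nat_lit 8) nil (node (nat_lit 4) (nat_lit 44845) (nat_lit 8) nil nil)))) nil)
  nil)) nil)))

noncomputable def t427 : Tr :=
  (node (nat_lit 5) (nat_lit 0) (nat_lit 4) (node (nat_lit 0) (nat_lit 0) (nat_lit 5) (node
  (nat_lit 6) (nat_lit 0) (nat_lit 6) (node (nat_lit 5) (nat_lit 0) (nat_lit 7) (node (nat_lit 6)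
  (nat_lit 72826) (nat_lit 8) (node (nat_lit 4) (nat_lit 77020) (nat_lit 9) (node (nat_lit 5)
  (nat_lit 80584) (nat_lit 10) (node (nat_lit 4) (nat_lit 81602) (nat_lit 11) (node (nat_lit 6)
  (nat_lit 80587) (nat_lit 12) (node (nat_lit 4) (nat_lit 80850) (nat_lit 13) (node (nat_lit 5)
  (nat_lit 79597) (nat_lit 14) (node (nat_lit 6) (nat_lit 76372) (nat_lit 15) (node (nat_lit 5)
  (nat_lit 74936) (nat_lit 16) nil nil) nil) nil) nil) nil) (node (nat_lit 6) (nat_lit 80638)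
  (nat_lit 11) (node (nat_lit 5) (nat_lit 80282) (nat_lit 12) (node (nat_lit 8) (nat_lit 54529)
  (nat_lit 13) (node (nat_lit 6) (nat_lit 54529) (nat_lit 14) nil nil) nil) nil) nil)) (node
  (nat_lit 6) (nat_lit 78069) (nat_lit 10) nil nil)) (node (nat_lit 8) (nat_lit 85852) (nat_lit 9)
  nil (node (nat_lit 0) (nat_lit 78229) (nat_lit 9) nil nil))) (node (nat_lit 4) (nat_lit 72787)
  (nat_lit 8) (node (nat_lit 6) (nat_lit 76826) (nat_lit 9) (node (nat_lit 5) (nat_lit 81213)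
  (nat_lit 10) (node (nat_lit 6) (nat_lit 83542) (nat_lit 11) (node (nat_lit 4) (nat_lit 83735)
  (nat_lit 12) (node (nat_lit 5) (nat_lit 80812) (nat_lit 13) nil nil) nil) nil) (node (nat_lit 4)
  (nat_lit 79239) (nat_lit 10) nil nil)) (node (nat_lit 5) (nat_lit 77960) (nat_lit 9) (node
  (nat_lit 6) (nat_lit 77708) (nat_lit 10) nil nil) nil)) (node (nat_lit 0) (nat_lit 79106)
  (nat_lit 8) nil nil))) (node (nat_lit 8) (nat_lit 84138) (nat_lit 7) (node (nat_lit 5) (nat_lit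
  84138) (nat_lit 8) (node (nat_lit 6) (nat_lit 84138) (nat_lit 9) (node (nat_lit 5) (nat_lit
  84163) (nat_lit 10) (node (nat_lit 4) (nat_lit 84726) (nat_lit 11) (node (nat_lit 6) (nat_lit
  85893) (nat_lit 12) nil nil) (node (nat_lit 8) (nat_lit 86481) (nat_lit 11) nil nil)) (node
  (nat_lit 4) (nat_lit 84138) (nat_lit 10) (node (nat_lit 5) (nat_lit 84138) (nat_lit 11) nil
  (node (nat_lit 6) (nat_lit 84138) (nat_lit 11) nil nil)) nil)) (node (nat_lit 4) (nat_lit 84138)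
  (nat_lit 9) nil (node (nat_lit 8) (nat_lit 85882) (nat_lit 9) nil nil))) (node (nat_lit 4)
  (nat_lit 84138) (nat_lit 8) (node (nat_lit 6) (nat_lit 84138) (nat_lit 9) nil nil) nil)) (node
  (nat_lit 4) (nat_lit 0) (nat_lit 7) (node (nat_lit 5) (nat_lit 74145) (nat_lit 8) (node (nat_lit
  6) (nat_lit 77740) (nat_lit 9) (node (nat_lit 4) (nat_lit 80153) (nat_lit 10) nil (node (nat_lit
  5) (nat_lit 80153) (nat_lit 10) nil nil)) (node (nat_lit 4) (nat_lit 78282) (nat_lit 9) (node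
  (nat_lit 6) (nat_lit 81922) (nat_lit 10) (node (nat_lit 5) (nat_lit 81195) (nat_lit 11) nil nil)
  nil) nil)) (node (nat_lit 6) (nat_lit 74130) (nat_lit 8) (node (nat_lit 5) (nat_lit 78278)
  (nat_lit 9) (node (nat_lit 4) (nat_lit 83128) (nat_lit 10) (node (nat_lit 5) (nat_lit 84374)
  (nat_lit 11) nil nil) (node (nat_lit 6) (nat_lit 82463) (nat_lit 10) nil nil)) nil) (node
  (nat_lit 8) (nat_lit 86014) (nat_lit 8) nil (node (nat_lit 0) (nat_lit 74475) (nat_lit 8) nil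
  nil)))) (node (nat_lit 0) (nat_lit 82535) (nat_lit 7) nil nil)))) (node (nat_lit 4) (nat_lit 0)
  (nat_lit 6) (node (nat_lit 5) (nat_lit 0) (nat_lit 7) (node (nat_lit 4) (nat_lit 74043) (nat_lit
  8) (node (nat_lit 6) (nat_lit 80157) (nat_lit 9) (node (nat_lit 5) (nat_lit 84730) (nat_lit 10)
  (node (nat_lit 6) (nat_lit 85302) (nat_lit 11) (node (nat_lit 4) (nat_lit 83871) (nat_lit 12)
  nil nil) nil) (node (nat_lit 4) (nat_lit 84730) (nat_lit 10) (node (nat_lit 5) (nat_lit 85302)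
  (nat_lit 11) nil nil) nil)) (node (nat_lit 8) (nat_lit 86443) (nat_lit 9) nil (node (nat_lit 0)
  (nat_lit 79446) (nat_lit 9) nil nil))) (node (nat_lit 6) (nat_lit 74654) (nat_lit 8) (node
  (nat_lit 4) (nat_lit 76798) (nat_lit 9) (node (nat_lit 6) (nat_lit 76546) (nat_lit 10) nil nil)
  (node (nat_lit 5) (nat_lit 78683) (nat_lit 9) (node (nat_lit 4) (nat_lit 83533) (nat_lit 10) nil
  nil) (node (nat_lit 8) (nat_lit 80057) (nat_lit 9) nil nil))) (node (nat_lit 8) (nat_lit 86400)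
  (nat_lit 8) (node (nat_lit 5) (nat_lit 86400) (nat_lit 9) nil nil) (node (nat_lit 0) (nat_lit
  82972) (nat_lit 8) nil nil)))) (node (nat_lit 6) (nat_lit 0) (nat_lit 7) (node (nat_lit 4)
  (nat_lit 72763) (nat_lit 8) (node (nat_lit 5) (nat_lit 74467) (nat_lit 9) (node (nat_lit 6)
  (nat_lit 77294) (nat_lit 10) (node (nat_lit 5) (nat_lit 79312) (nat_lit 11) (node (nat_lit 4)
  (nat_lit 79373) (nat_lit 12) (node (nat_lit 5) (nat_lit 80306) (nat_lit 13) (node (nat_lit 6)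
  (nat_lit 80705) (nat_lit 14) nil nil) nil) nil) nil) (node (nat_lit 4) (nat_lit 73957) (nat_lit
  10) nil nil)) nil) (node (nat_lit 5) (nat_lit 72724) (nat_lit 8) (node (nat_lit 4) (nat_lit
  76883) (nat_lit 9) (node (nat_lit 6) (nat_lit 79296) (nat_lit 10) nil (node (nat_lit 5) (nat_lit
  79296) (nat_lit 10) nil nil)) (node (nat_lit 6) (nat_lit 76320) (nat_lit 9) nil (node (nat_lit
  8) (nat_lit 78127) (nat_lit 9) nil nil))) (node (nat_lit 8) (nat_lit 85840) (nat_lit 8) nil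
  (node (nat_lit 0) (nat_lit 79155) (nat_lit 8) nil nil)))) (node (nat_lit 8) (nat_lit 84990)
  (nat_lit 7) (node (nat_lit 5) (nat_lit 84990) (nat_lit 8) (node (nat_lit 4) (nat_lit 84990)
  (nat_lit 9) (node (nat_lit 5) (nat_lit 85015) (nat_lit 10) (node (nat_lit 6) (nat_lit 85015)
  (nat_lit 11) nil (node (nat_lit 8) (nat_lit 86481) (nat_lit 11) nil nil)) (node (nat_lit 6)
  (nat_lit 84990) (nat_lit 10) nil nil)) (node (nat_lit 6) (nat_lit 84990) (nat_lit 9) nil (node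
  (nat_lit 8) (nat_lit 86077) (nat_lit 9) nil nil))) (node (nat_lit 6) (nat_lit 84990) (nat_lit 8)
  (node (nat_lit 4) (nat_lit 84990) (nat_lit 9) nil nil) nil)) (node (nat_lit 0) (nat_lit 80915)
  (nat_lit 7) nil nil)))) (node (nat_lit 5) (nat_lit 0) (nat_lit 6) (node (nat_lit 6) (nat_lit 0)
  (nat_lit 7) (node (nat_lit 4) (nat_lit 72548) (nat_lit 8) (node (nat_lit 5) (nat_lit 72046)
  (nat_lit 9) (node (nat_lit 6) (nat_lit 73567) (nat_lit 10) (node (nat_lit 5) (nat_lit 73379)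
  (nat_lit 11) (node (nat_lit 8) (nat_lit 47223) (nat_lit 12) nil nil) nil) nil) (node (nat_lit 6)
  (nat_lit 76306) (nat_lit 9) (node (nat_lit 5) (nat_lit 77396) (nat_lit 10) nil nil) nil)) (node
  (nat_lit 5) (nat_lit 71880) (nat_lit 8) (node (nat_lit 4) (nat_lit 75476) (nat_lit 9) (node
  (nat_lit 5) (nat_lit 77888) (nat_lit 10) nil (node (nat_lit 6) (nat_lit 77888) (nat_lit 10) nil
  nil)) nil) (node (nat_lit 8) (nat_lit 83349) (nat_lit 8) nil (node (nat_lit 0) (nat_lit 78585)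
  (nat_lit 8) nil nil)))) (node (nat_lit 4) (nat_lit 0) (nat_lit 7) (node (nat_lit 6) (nat_lit
  72195) (nat_lit 8) (node (nat_lit 5) (nat_lit 75791) (nat_lit 9) nil (node (nat_lit 4) (nat_lit
  75791) (nat_lit 9) (node (nat_lit 5) (nat_lit 78203) (nat_lit 10) nil nil) nil)) (node (nat_lit
  5) (nat_lit 72409) (nat_lit 8) (node (nat_lit 6) (nat_lit 74715) (nat_lit 9) (node (nat_lit 5)
  (nat_lit 77127) (nat_lit 10) (node (nat_lit 8) (nat_lit 49894) (nat_lit 11) nil nil) nil) (node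
  (nat_lit 8) (nat_lit 77812) (nat_lit 9) nil nil)) (node (nat_lit 8) (nat_lit 82230) (nat_lit 8)
  nil (node (nat_lit 0) (nat_lit 74225) (nat_lit 8) nil nil)))) (node (nat_lit 0) (nat_lit 83023)
  (nat_lit 7) nil nil))) (node (nat_lit 0) (nat_lit 0) (nat_lit 6) (node (nat_lit 8) (nat_lit 0)
  (nat_lit 7) (node (nat_lit 5) (nat_lit 84416) (nat_lit 8) (node (nat_lit 9) (nat_lit 85867)
  (nat_lit 9) nil nil) (node (nat_lit 4) (nat_lit 84416) (nat_lit 8) nil (node (nat_lit 6)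
  (nat_lit 84416) (nat_lit 8) nil (node (nat_lit 0) (nat_lit 85583) (nat_lit 8) nil nil)))) (node
  (nat_lit 5) (nat_lit 0) (nat_lit 7) (node (nat_lit 9) (nat_lit 85740) (nat_lit 8) nil (node
  (nat_lit 0) (nat_lit 82636) (nat_lit 8) nil (node (nat_lit 6) (nat_lit 77436) (nat_lit 8) nil
  (node (nat_lit 4) (nat_lit 77436) (nat_lit 8) nil (node (nat_lit 8) (nat_lit 79850) (nat_lit 8)
  nil nil))))) (node (nat_lit 4) (nat_lit 76600) (nat_lit 7) nil (node (nat_lit 6) (nat_lit 76600)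
  (nat_lit 7) nil (node (nat_lit 0) (nat_lit 80678) (nat_lit 7) nil nil))))) nil)))) (node
  (nat_lit 4) (nat_lit 0) (nat_lit 5) (node (nat_lit 0) (nat_lit 0) (nat_lit 6) (node (nat_lit 4)
  (nat_lit 0) (nat_lit 7) (node (nat_lit 5) (nat_lit 67282) (nat_lit 8) (node (nat_lit 6) (nat_lit
  70766) (nat_lit 9) (node (nat_lit 4) (nat_lit 74678) (nat_lit 10) (node (nat_lit 6) (nat_lit
  74971) (nat_lit 11) nil nil) (node (nat_lit 5) (nat_lit 75279) (nat_lit 10) (node (nat_lit 4)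
  (nat_lit 76473) (nat_lit 11) nil (node (nat_lit 9) (nat_lit 81196) (nat_lit 11) nil nil)) (node
  (nat_lit 9) (nat_lit 81964) (nat_lit 10) nil (node (nat_lit 0) (nat_lit 81964) (nat_lit 10) nil
  nil)))) (node (nat_lit 9) (nat_lit 83008) (nat_lit 9) (node (nat_lit 4) (nat_lit 83386) (nat_lit
  10) (node (nat_lit 9) (nat_lit 84947) (nat_lit 11) nil nil) nil) (node (nat_lit 4) (nat_lit
  71040) (nat_lit 9) (node (nat_lit 9) (nat_lit 84411) (nat_lit 10) (node (nat_lit 5) (nat_lit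
  84411) (nat_lit 11) nil nil) (node (nat_lit 6) (nat_lit 72570) (nat_lit 10) nil nil)) (node
  (nat_lit 0) (nat_lit 81919) (nat_lit 9) nil nil)))) (node (nat_lit 6) (nat_lit 66737) (nat_lit
  8) (node (nat_lit 5) (nat_lit 69902) (nat_lit 9) (node (nat_lit 4) (nat_lit 74024) (nat_lit 10)
  (node (nat_lit 6) (nat_lit 76329) (nat_lit 11) nil nil) (node (nat_lit 6) (nat_lit 72377)
  (nat_lit 10) (node (nat_lit 4) (nat_lit 74683) (nat_lit 11) nil (node (nat_lit 9) (nat_lit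
  78294) (nat_lit 11) nil nil)) (node (nat_lit 9) (nat_lit 79045) (nat_lit 10) nil (node (nat_lit
  0) (nat_lit 81100) (nat_lit 10) nil nil)))) (node (nat_lit 4) (nat_lit 70651) (nat_lit 9) (node
  (nat_lit 5) (nat_lit 72067) (nat_lit 10) (node (nat_lit 6) (nat_lit 72474) (nat_lit 11) nil
  (node (nat_lit 9) (nat_lit 77984) (nat_lit 11) nil nil)) (node (nat_lit 9) (nat_lit 84208)
  (nat_lit 10) nil (node (nat_lit 0) (nat_lit 81849) (nat_lit 10) nil nil))) (node (nat_lit 9)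
  (nat_lit 81644) (nat_lit 9) nil (node (nat_lit 0) (nat_lit 82213) (nat_lit 9) nil nil)))) (node
  (nat_lit 0) (nat_lit 79195) (nat_lit 8) (node (nat_lit 9) (nat_lit 82089) (nat_lit 9) (node
  (nat_lit 4) (nat_lit 82089) (nat_lit 10) nil nil) (node (nat_lit 4) (nat_lit 79195) (nat_lit 9)
  nil (node (nat_lit 0) (nat_lit 80648) (nat_lit 9) nil (node (nat_lit 5) (nat_lit 79195) (nat_lit
  9) nil nil)))) nil))) (node (nat_lit 5) (nat_lit 0) (nat_lit 7) (node (nat_lit 4) (nat_lit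
  67415) (nat_lit 8) (node (nat_lit 5) (nat_lit 70683) (nat_lit 9) (node (nat_lit 9) (nat_lit
  82498) (nat_lit 10) (node (nat_lit 4) (nat_lit 82498) (nat_lit 11) nil nil) nil) nil) (node
  (nat_lit 9) (nat_lit 79466) (nat_lit 8) (node (nat_lit 4) (nat_lit 79297) (nat_lit 9) (node
  (nat_lit 9) (nat_lit 83992) (nat_lit 10) (node (nat_lit 5) (nat_lit 83992) (nat_lit 11) (node
  (nat_lit 4) (nat_lit 83992) (nat_lit 12) nil nil) nil) nil) nil) (node (nat_lit 6) (nat_lit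
  63170) (nat_lit 8) (node (nat_lit 4) (nat_lit 63170) (nat_lit 9) nil nil) (node (nat_lit 0)
  (nat_lit 73095) (nat_lit 8) nil nil)))) (node (nat_lit 6) (nat_lit 0) (nat_lit 7) (node (nat_lit
  4) (nat_lit 66510) (nat_lit 8) (node (nat_lit 6) (nat_lit 66959) (nat_lit 9) (node (nat_lit 9)
  (nat_lit 78157) (nat_lit 10) nil nil) nil) (node (nat_lit 9) (nat_lit 78755) (nat_lit 8) (node
  (nat_lit 4) (nat_lit 78755) (nat_lit 9) nil nil) (node (nat_lit 5) (nat_lit 62085) (nat_lit 8)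
  nil (node (nat_lit 0) (nat_lit 66163) (nat_lit 8) nil nil)))) (node (nat_lit 0) (nat_lit 72225)
  (nat_lit 7) (node (nat_lit 4) (nat_lit 72260) (nat_lit 8) (node (nat_lit 9) (nat_lit 78550)
  (nat_lit 9) (node (nat_lit 4) (nat_lit 78550) (nat_lit 10) nil nil) (node (nat_lit 10) (nat_lit
  75047) (nat_lit 9) nil nil)) (node (nat_lit 9) (nat_lit 76243) (nat_lit 8) (node (nat_lit 4)
  (nat_lit 76243) (nat_lit 9) nil nil) nil)) nil)))) (node (nat_lit 5) (nat_lit 0) (nat_lit 6)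
  (node (nat_lit 0) (nat_lit 0) (nat_lit 7) (node (nat_lit 4) (nat_lit 40327) (nat_lit 8) (node
  (nat_lit 5) (nat_lit 42214) (nat_lit 9) (node (nat_lit 4) (nat_lit 44566) (nat_lit 10) (node
  (nat_lit 10) (nat_lit 52238) (nat_lit 11) (node (nat_lit 5) (nat_lit 52395) (nat_lit 12) (node
  (nat_lit 4) (nat_lit 52395) (nat_lit 13) (node (nat_lit 5) (nat_lit 52395) (nat_lit 14) nil nil)
  (node (nat_lit 10) (nat_lit 52457) (nat_lit 13) nil nil)) (node (nat_lit 4) (nat_lit 52272)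
  (nat_lit 12) (node (nat_lit 5) (nat_lit 52272) (nat_lit 13) (node (nat_lit 10) (nat_lit 52457)
  (nat_lit 14) nil nil) (node (nat_lit 6) (nat_lit 52272) (nat_lit 13) nil nil)) (node (nat_lit 6)
  (nat_lit 52238) (nat_lit 12) nil nil))) (node (nat_lit 6) (nat_lit 46994) (nat_lit 11) (node
  (nat_lit 5) (nat_lit 49557) (nat_lit 12) (node (nat_lit 6) (nat_lit 47926) (nat_lit 13) nil nil)
  (node (nat_lit 4) (nat_lit 48900) (nat_lit 12) nil (node (nat_lit 10) (nat_lit 50771) (nat_lit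
  12) nil (node (nat_lit 0) (nat_lit 49312) (nat_lit 12) nil nil)))) (node (nat_lit 0) (nat_lit
  51689) (nat_lit 11) nil nil))) (node (nat_lit 6) (nat_lit 44704) (nat_lit 10) (node (nat_lit 4)
  (nat_lit 47441) (nat_lit 11) (node (nat_lit 6) (nat_lit 49578) (nat_lit 12) (node (nat_lit 5)
  (nat_lit 48719) (nat_lit 13) nil nil) (node (nat_lit 5) (nat_lit 48149) (nat_lit 12) nil (node
  (nat_lit 10) (nat_lit 52457) (nat_lit 12) nil nil))) (node (nat_lit 5) (nat_lit 47406) (nat_lit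
  11) (node (nat_lit 4) (nat_lit 48331) (nat_lit 12) nil (node (nat_lit 10) (nat_lit 49724)
  (nat_lit 12) nil nil)) (node (nat_lit 10) (nat_lit 51828) (nat_lit 11) nil (node (nat_lit 0)
  (nat_lit 50120) (nat_lit 11) nil nil)))) (node (nat_lit 0) (nat_lit 49948) (nat_lit 10) nil
  nil))) (node (nat_lit 10) (nat_lit 47735) (nat_lit 9) (node (nat_lit 5) (nat_lit 47735) (nat_lit
  10) (node (nat_lit 4) (nat_lit 47735) (nat_lit 11) nil nil) nil) (node (nat_lit 6) (nat_lit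
  40327) (nat_lit 9) nil nil))) (node (nat_lit 5) (nat_lit 40201) (nat_lit 8) (node (nat_lit 4)
  (nat_lit 42220) (nat_lit 9) (node (nat_lit 10) (nat_lit 50084) (nat_lit 10) (node (nat_lit 4)
  (nat_lit 50084) (nat_lit 11) (node (nat_lit 5) (nat_lit 50084) (nat_lit 12) (node (nat_lit 10)
  (nat_lit 51491) (nat_lit 13) (node (nat_lit 5) (nat_lit 51491) (nat_lit 14) nil nil) nil) nil)
  nil) nil) nil) (node (nat_lit 6) (nat_lit 39921) (nat_lit 8) (node (nat_lit 5) (nat_lit 39921)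
  (nat_lit 9) nil nil) (node (nat_lit 0) (nat_lit 40658) (nat_lit 8) nil nil)))) nil) (node
  (nat_lit 6) (nat_lit 0) (nat_lit 6) (node (nat_lit 0) (nat_lit 64256) (nat_lit 7) (node (nat_lit
  4) (nat_lit 65737) (nat_lit 8) (node (nat_lit 6) (nat_lit 67949) (nat_lit 9) (node (nat_lit 4)
  (nat_lit 70276) (nat_lit 10) (node (nat_lit 5) (nat_lit 71583) (nat_lit 11) (node (nat_lit 6)
  (nat_lit 71897) (nat_lit 12) nil (node (nat_lit 10) (nat_lit 75544) (nat_lit 12) nil nil)) (node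
  (nat_lit 10) (nat_lit 80990) (nat_lit 11) (node (nat_lit 4) (nat_lit 80990) (nat_lit 12) nil
  nil) (node (nat_lit 0) (nat_lit 80127) (nat_lit 11) nil nil))) (node (nat_lit 5) (nat_lit 70361)
  (nat_lit 10) (node (nat_lit 6) (nat_lit 71938) (nat_lit 11) nil (node (nat_lit 4) (nat_lit
  71938) (nat_lit 11) nil (node (nat_lit 10) (nat_lit 77340) (nat_lit 11) nil (node (nat_lit 0)
  (nat_lit 76161) (nat_lit 11) nil nil)))) (node (nat_lit 0) (nat_lit 78948) (nat_lit 10) nil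
  nil))) nil) (node (nat_lit 6) (nat_lit 64256) (nat_lit 8) (node (nat_lit 4) (nat_lit 64256)
  (nat_lit 9) (node (nat_lit 10) (nat_lit 67481) (nat_lit 10) nil nil) nil) (node (nat_lit 0)
  (nat_lit 66028) (nat_lit 8) nil nil))) nil) nil))) nil)) (node (nat_lit 0) (nat_lit 0) (nat_lit
  4) (node (nat_lit 5) (nat_lit 0) (nat_lit 5) (node (nat_lit 4) (nat_lit 78071) (nat_lit 6) (node
  (nat_lit 6) (nat_lit 0) (nat_lit 7) (node (nat_lit 5) (nat_lit 88916) (nat_lit 8) (node (nat_lit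
  6) (nat_lit 93326) (nat_lit 9) nil (node (nat_lit 4) (nat_lit 93326) (nat_lit 9) nil nil)) (node
  (nat_lit 4) (nat_lit 88005) (nat_lit 8) (node (nat_lit 5) (nat_lit 92415) (nat_lit 9) nil nil)
  (node (nat_lit 7) (nat_lit 93393) (nat_lit 8) nil (node (nat_lit 0) (nat_lit 93393) (nat_lit 8)
  nil nil)))) (node (nat_lit 5) (nat_lit 83249) (nat_lit 7) (node (nat_lit 6) (nat_lit 86949)
  (nat_lit 8) (node (nat_lit 4) (nat_lit 91359) (nat_lit 9) nil nil) (node (nat_lit 7) (nat_lit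
  92485) (nat_lit 8) nil nil)) (node (nat_lit 7) (nat_lit 93514) (nat_lit 7) nil nil))) (node
  (nat_lit 6) (nat_lit 77898) (nat_lit 6) (node (nat_lit 4) (nat_lit 85280) (nat_lit 7) (node
  (nat_lit 6) (nat_lit 88263) (nat_lit 8) (node (nat_lit 5) (nat_lit 88031) (nat_lit 9) nil nil)
  (node (nat_lit 5) (nat_lit 88322) (nat_lit 8) (node (nat_lit 4) (nat_lit 88741) (nat_lit 9) nil
  (node (nat_lit 6) (nat_lit 90207) (nat_lit 9) (node (nat_lit 7) (nat_lit 68233) (nat_lit 10) nil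
  nil) nil)) (node (nat_lit 7) (nat_lit 94516) (nat_lit 8) nil nil))) (node (nat_lit 5) (nat_lit
  83392) (nat_lit 7) (node (nat_lit 4) (nat_lit 88152) (nat_lit 8) (node (nat_lit 6) (nat_lit
  92562) (nat_lit 9) nil nil) (node (nat_lit 7) (nat_lit 92629) (nat_lit 8) nil nil)) nil)) (node
  (nat_lit 7) (nat_lit 98403) (nat_lit 6) (node (nat_lit 6) (nat_lit 98403) (nat_lit 7) nil (node
  (nat_lit 4) (nat_lit 98403) (nat_lit 7) nil nil)) (node (nat_lit 0) (nat_lit 81974) (nat_lit 6)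
  nil nil)))) (node (nat_lit 4) (nat_lit 0) (nat_lit 5) (node (nat_lit 5) (nat_lit 78234) (nat_lit
  6) (node (nat_lit 6) (nat_lit 0) (nat_lit 7) (node (nat_lit 5) (nat_lit 89591) (nat_lit 8) (node
  (nat_lit 4) (nat_lit 94315) (nat_lit 9) (node (nat_lit 6) (nat_lit 94745) (nat_lit 10) (node
  (nat_lit 4) (nat_lit 90536) (nat_lit 11) (node (nat_lit 5) (nat_lit 90115) (nat_lit 12) nil nil)
  nil) nil) (node (nat_lit 7) (nat_lit 99405) (nat_lit 9) nil nil)) (node (nat_lit 4) (nat_lit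
  87241) (nat_lit 8) (node (nat_lit 6) (nat_lit 87878) (nat_lit 9) nil (node (nat_lit 5) (nat_lit
  91650) (nat_lit 9) nil nil)) (node (nat_lit 0) (nat_lit 94351) (nat_lit 8) nil nil))) (node
  (nat_lit 4) (nat_lit 85344) (nat_lit 7) (node (nat_lit 6) (nat_lit 86123) (nat_lit 8) (node
  (nat_lit 5) (nat_lit 86542) (nat_lit 9) nil nil) (node (nat_lit 7) (nat_lit 94581) (nat_lit 8)
  nil nil)) (node (nat_lit 7) (nat_lit 97625) (nat_lit 7) nil nil))) (node (nat_lit 6) (nat_lit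
  77213) (nat_lit 6) (node (nat_lit 5) (nat_lit 83240) (nat_lit 7) (node (nat_lit 6) (nat_lit
  87973) (nat_lit 8) (node (nat_lit 4) (nat_lit 92383) (nat_lit 9) nil nil) (node (nat_lit 4)
  (nat_lit 87973) (nat_lit 8) (node (nat_lit 5) (nat_lit 92383) (nat_lit 9) nil (node (nat_lit 6)
  (nat_lit 92383) (nat_lit 9) nil nil)) (node (nat_lit 7) (nat_lit 92477) (nat_lit 8) nil nil)))
  (node (nat_lit 4) (nat_lit 83199) (nat_lit 7) (node (nat_lit 5) (nat_lit 81687) (nat_lit 8)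
  (node (nat_lit 6) (nat_lit 82324) (nat_lit 9) nil nil) (node (nat_lit 7) (nat_lit 92436)
  (nat_lit 8) nil nil)) (node (nat_lit 7) (nat_lit 92657) (nat_lit 7) nil nil))) (node (nat_lit 7)
  (nat_lit 98852) (nat_lit 6) (node (nat_lit 6) (nat_lit 98852) (nat_lit 7) nil (node (nat_lit 5)
  (nat_lit 98852) (nat_lit 7) nil nil)) (node (nat_lit 0) (nat_lit 82151) (nat_lit 6) nil nil))))
  (node (nat_lit 6) (nat_lit 0) (nat_lit 5) (node (nat_lit 5) (nat_lit 77147) (nat_lit 6) (node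
  (nat_lit 4) (nat_lit 0) (nat_lit 7) (node (nat_lit 5) (nat_lit 90201) (nat_lit 8) (node (nat_lit
  6) (nat_lit 95857) (nat_lit 9) (node (nat_lit 4) (nat_lit 98270) (nat_lit 10) nil (node (nat_lit
  7) (nat_lit 52457) (nat_lit 10) nil nil)) nil) (node (nat_lit 6) (nat_lit 89749) (nat_lit 8)
  (node (nat_lit 4) (nat_lit 94159) (nat_lit 9) nil (node (nat_lit 5) (nat_lit 90168) (nat_lit 9)
  nil nil)) (node (nat_lit 7) (nat_lit 93517) (nat_lit 8) nil (node (nat_lit 0) (nat_lit 93517)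
  (nat_lit 8) nil nil)))) (node (nat_lit 6) (nat_lit 81908) (nat_lit 7) (node (nat_lit 4) (nat_lit
  83691) (nat_lit 8) (node (nat_lit 5) (nat_lit 88101) (nat_lit 9) nil (node (nat_lit 6) (nat_lit
  84329) (nat_lit 9) nil nil)) (node (nat_lit 7) (nat_lit 91145) (nat_lit 8) nil nil)) (node
  (nat_lit 7) (nat_lit 95502) (nat_lit 7) nil nil))) (node (nat_lit 4) (nat_lit 77473) (nat_lit 6)
  (node (nat_lit 5) (nat_lit 86547) (nat_lit 7) (node (nat_lit 4) (nat_lit 91743) (nat_lit 8)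
  (node (nat_lit 6) (nat_lit 95621) (nat_lit 9) (node (nat_lit 5) (nat_lit 89149) (nat_lit 10) nil
  nil) nil) (node (nat_lit 6) (nat_lit 90396) (nat_lit 8) (node (nat_lit 5) (nat_lit 94806)
  (nat_lit 9) nil (node (nat_lit 7) (nat_lit 48555) (nat_lit 9) nil (node (nat_lit 4) (nat_lit
  94806) (nat_lit 9) nil nil))) (node (nat_lit 7) (nat_lit 95784) (nat_lit 8) nil nil))) (node
  (nat_lit 6) (nat_lit 85180) (nat_lit 7) (node (nat_lit 5) (nat_lit 90793) (nat_lit 8) (node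
  (nat_lit 4) (nat_lit 91211) (nat_lit 9) nil (node (nat_lit 6) (nat_lit 95203) (nat_lit 9) nil
  nil)) (node (nat_lit 7) (nat_lit 94417) (nat_lit 8) nil nil)) (node (nat_lit 7) (nat_lit 90369)
  (nat_lit 7) nil nil))) (node (nat_lit 0) (nat_lit 80489) (nat_lit 6) nil nil))) (node (nat_lit
  0) (nat_lit 86638) (nat_lit 5) (node (nat_lit 0) (nat_lit 89051) (nat_lit 6) nil (node (nat_lit
  7) (nat_lit 89051) (nat_lit 6) nil nil)) nil)))) nil))

noncomputable def t428 : Tr :=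
  (node (nat_lit 0) (nat_lit 0) (nat_lit 5) (node (nat_lit 4) (nat_lit 0) (nat_lit 6) (node
  (nat_lit 7) (nat_lit 0) (nat_lit 7) (node (nat_lit 5) (nat_lit 63048) (nat_lit 8) (node (nat_lit
  4) (nat_lit 63228) (nat_lit 9) (node (nat_lit 7) (nat_lit 64516) (nat_lit 10) nil nil) (node
  (nat_lit 7) (nat_lit 65353) (nat_lit 9) (node (nat_lit 4) (nat_lit 66641) (nat_lit 10) nil nil)
  nil)) (node (nat_lit 4) (nat_lit 63032) (nat_lit 8) (node (nat_lit 5) (nat_lit 65390) (nat_lit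
  9) (node (nat_lit 7) (nat_lit 68403) (nat_lit 10) (node (nat_lit 5) (nat_lit 68403) (nat_lit 11)
  nil (node (nat_lit 4) (nat_lit 68403) (nat_lit 11) nil nil)) (node (nat_lit 4) (nat_lit 63888)
  (nat_lit 10) (node (nat_lit 7) (nat_lit 63556) (nat_lit 11) (node (nat_lit 8) (nat_lit 37468)
  (nat_lit 12) nil nil) nil) nil)) (node (nat_lit 8) (nat_lit 65882) (nat_lit 9) nil nil)) (node
  (nat_lit 0) (nat_lit 67546) (nat_lit 8) nil nil))) (node (nat_lit 8) (nat_lit 0) (nat_lit 7)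
  (node (nat_lit 7) (nat_lit 68403) (nat_lit 8) (node (nat_lit 4) (nat_lit 68403) (nat_lit 9)
  (node (nat_lit 7) (nat_lit 68403) (nat_lit 10) (node (nat_lit 5) (nat_lit 68403) (nat_lit 11)
  nil nil) (node (nat_lit 5) (nat_lit 68403) (nat_lit 10) (node (nat_lit 7) (nat_lit 68403)
  (nat_lit 11) nil nil) nil)) nil) (node (nat_lit 5) (nat_lit 68403) (nat_lit 8) (node (nat_lit 4)
  (nat_lit 68403) (nat_lit 9) (node (nat_lit 5) (nat_lit 68403) (nat_lit 10) nil nil) nil) (node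
  (nat_lit 0) (nat_lit 68403) (nat_lit 8) nil nil))) (node (nat_lit 5) (nat_lit 0) (nat_lit 7)
  (node (nat_lit 7) (nat_lit 63626) (nat_lit 8) (node (nat_lit 5) (nat_lit 65382) (nat_lit 9)
  (node (nat_lit 4) (nat_lit 66487) (nat_lit 10) (node (nat_lit 7) (nat_lit 66693) (nat_lit 11)
  (node (nat_lit 4) (nat_lit 65889) (nat_lit 12) (node (nat_lit 5) (nat_lit 63667) (nat_lit 13)
  (node (nat_lit 4) (nat_lit 60015) (nat_lit 14) nil nil) nil) nil) nil) nil) (node (nat_lit 4)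
  (nat_lit 65932) (nat_lit 9) (node (nat_lit 5) (nat_lit 67219) (nat_lit 10) nil nil) nil)) (node
  (nat_lit 4) (nat_lit 63708) (nat_lit 8) (node (nat_lit 7) (nat_lit 67047) (nat_lit 9) (node
  (nat_lit 5) (nat_lit 68403) (nat_lit 10) (node (nat_lit 7) (nat_lit 68403) (nat_lit 11) (node
  (nat_lit 4) (nat_lit 68403) (nat_lit 12) (node (nat_lit 5) (nat_lit 67098) (nat_lit 13) (node
  (nat_lit 4) (nat_lit 63269) (nat_lit 14) nil nil) nil) nil) nil) (node (nat_lit 4) (nat_lit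
  68335) (nat_lit 10) nil nil)) nil) (node (nat_lit 8) (nat_lit 68242) (nat_lit 8) nil (node
  (nat_lit 0) (nat_lit 68242) (nat_lit 8) nil nil)))) (node (nat_lit 0) (nat_lit 66424) (nat_lit
  7) nil nil)))) (node (nat_lit 5) (nat_lit 0) (nat_lit 6) (node (nat_lit 7) (nat_lit 0) (nat_lit
  7) (node (nat_lit 5) (nat_lit 64066) (nat_lit 8) (node (nat_lit 4) (nat_lit 68149) (nat_lit 9)
  (node (nat_lit 7) (nat_lit 68403) (nat_lit 10) (node (nat_lit 4) (nat_lit 68403) (nat_lit 11)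
  nil nil) (node (nat_lit 5) (nat_lit 68403) (nat_lit 10) (node (nat_lit 7) (nat_lit 68403)
  (nat_lit 11) nil nil) nil)) (node (nat_lit 8) (nat_lit 68403) (nat_lit 9) nil nil)) (node
  (nat_lit 4) (nat_lit 64038) (nat_lit 8) (node (nat_lit 5) (nat_lit 65461) (nat_lit 9) (node
  (nat_lit 4) (nat_lit 67629) (nat_lit 10) (node (nat_lit 7) (nat_lit 67182) (nat_lit 11) (node
  (nat_lit 8) (nat_lit 14503) (nat_lit 12) nil nil) nil) nil) (node (nat_lit 7) (nat_lit 66041)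
  (nat_lit 9) (node (nat_lit 5) (nat_lit 66559) (nat_lit 10) nil nil) nil)) (node (nat_lit 8)
  (nat_lit 68403) (nat_lit 8) (node (nat_lit 7) (nat_lit 68403) (nat_lit 9) nil nil) (node
  (nat_lit 0) (nat_lit 68358) (nat_lit 8) nil nil)))) (node (nat_lit 8) (nat_lit 0) (nat_lit 7)
  (node (nat_lit 7) (nat_lit 68403) (nat_lit 8) (node (nat_lit 5) (nat_lit 68403) (nat_lit 9)
  (node (nat_lit 7) (nat_lit 68403) (nat_lit 10) (node (nat_lit 4) (nat_lit 68403) (nat_lit 11)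
  nil nil) (node (nat_lit 4) (nat_lit 68403) (nat_lit 10) nil nil)) nil) (node (nat_lit 4)
  (nat_lit 68403) (nat_lit 8) (node (nat_lit 5) (nat_lit 68403) (nat_lit 9) (node (nat_lit 4)
  (nat_lit 68403) (nat_lit 10) nil nil) nil) (node (nat_lit 0) (nat_lit 68403) (nat_lit 8) nil
  nil))) (node (nat_lit 4) (nat_lit 0) (nat_lit 7) (node (nat_lit 7) (nat_lit 63026) (nat_lit 8)
  (node (nat_lit 5) (nat_lit 65332) (nat_lit 9) (node (nat_lit 4) (nat_lit 66620) (nat_lit 10)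
  (node (nat_lit 5) (nat_lit 65224) (nat_lit 11) nil nil) (node (nat_lit 7) (nat_lit 66620)
  (nat_lit 10) nil nil)) (node (nat_lit 4) (nat_lit 65332) (nat_lit 9) (node (nat_lit 5) (nat_lit
  66620) (nat_lit 10) nil nil) nil)) (node (nat_lit 5) (nat_lit 62522) (nat_lit 8) (node (nat_lit
  7) (nat_lit 65990) (nat_lit 9) (node (nat_lit 4) (nat_lit 68403) (nat_lit 10) (node (nat_lit 7)
  (nat_lit 68403) (nat_lit 11) (node (nat_lit 5) (nat_lit 68403) (nat_lit 12) (node (nat_lit 7)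
  (nat_lit 68403) (nat_lit 13) (node (nat_lit 4) (nat_lit 68403) (nat_lit 14) nil nil) nil) nil)
  nil) nil) (node (nat_lit 8) (nat_lit 65372) (nat_lit 9) nil nil)) (node (nat_lit 8) (nat_lit
  67835) (nat_lit 8) nil (node (nat_lit 0) (nat_lit 67835) (nat_lit 8) nil nil)))) (node (nat_lit
  0) (nat_lit 66165) (nat_lit 7) nil nil)))) (node (nat_lit 7) (nat_lit 0) (nat_lit 6) (node
  (nat_lit 5) (nat_lit 0) (nat_lit 7) (node (nat_lit 4) (nat_lit 64261) (nat_lit 8) (node (nat_lit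
  7) (nat_lit 65455) (nat_lit 9) (node (nat_lit 4) (nat_lit 66743) (nat_lit 10) nil (node (nat_lit
  5) (nat_lit 63953) (nat_lit 10) nil nil)) (node (nat_lit 5) (nat_lit 66566) (nat_lit 9) (node
  (nat_lit 7) (nat_lit 67854) (nat_lit 10) (node (nat_lit 4) (nat_lit 68403) (nat_lit 11) nil nil)
  nil) nil)) (node (nat_lit 7) (nat_lit 63828) (nat_lit 8) (node (nat_lit 4) (nat_lit 66134)
  (nat_lit 9) (node (nat_lit 5) (nat_lit 67422) (nat_lit 10) nil nil) (node (nat_lit 8) (nat_lit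
  66678) (nat_lit 9) nil nil)) (node (nat_lit 8) (nat_lit 68403) (nat_lit 8) nil (node (nat_lit 0)
  (nat_lit 68403) (nat_lit 8) nil nil)))) (node (nat_lit 4) (nat_lit 0) (nat_lit 7) (node (nat_lit
  5) (nat_lit 62772) (nat_lit 8) (node (nat_lit 4) (nat_lit 65078) (nat_lit 9) (node (nat_lit 7)
  (nat_lit 66366) (nat_lit 10) nil nil) (node (nat_lit 7) (nat_lit 65078) (nat_lit 9) (node
  (nat_lit 5) (nat_lit 66366) (nat_lit 10) nil nil) nil)) (node (nat_lit 7) (nat_lit 62549)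
  (nat_lit 8) (node (nat_lit 5) (nat_lit 65632) (nat_lit 9) (node (nat_lit 4) (nat_lit 66777)
  (nat_lit 10) nil (node (nat_lit 7) (nat_lit 66920) (nat_lit 10) nil nil)) (node (nat_lit 8)
  (nat_lit 68403) (nat_lit 9) nil nil)) (node (nat_lit 8) (nat_lit 67686) (nat_lit 8) nil (node
  (nat_lit 0) (nat_lit 67686) (nat_lit 8) nil nil)))) (node (nat_lit 0) (nat_lit 67534) (nat_lit
  7) nil nil))) (node (nat_lit 0) (nat_lit 0) (nat_lit 6) (node (nat_lit 8) (nat_lit 0) (nat_lit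
  7) (node (nat_lit 7) (nat_lit 68403) (nat_lit 8) nil (node (nat_lit 4) (nat_lit 68403) (nat_lit
  8) nil (node (nat_lit 5) (nat_lit 68403) (nat_lit 8) nil (node (nat_lit 0) (nat_lit 68403)
  (nat_lit 8) nil nil)))) (node (nat_lit 7) (nat_lit 65079) (nat_lit 7) (node (nat_lit 9) (nat_lit
  68403) (nat_lit 8) nil (node (nat_lit 5) (nat_lit 65079) (nat_lit 8) nil (node (nat_lit 4)
  (nat_lit 65079) (nat_lit 8) nil (node (nat_lit 8) (nat_lit 66340) (nat_lit 8) nil nil)))) (node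
  (nat_lit 5) (nat_lit 65202) (nat_lit 7) nil (node (nat_lit 4) (nat_lit 65202) (nat_lit 7) nil
  (node (nat_lit 0) (nat_lit 67625) (nat_lit 7) nil nil))))) nil)))) (node (nat_lit 5) (nat_lit 0)
  (nat_lit 5) (node (nat_lit 0) (nat_lit 0) (nat_lit 6) (node (nat_lit 5) (nat_lit 0) (nat_lit 7)
  (node (nat_lit 7) (nat_lit 53763) (nat_lit 8) (node (nat_lit 4) (nat_lit 57360) (nat_lit 9)
  (node (nat_lit 5) (nat_lit 60437) (nat_lit 10) (node (nat_lit 4) (nat_lit 60540) (nat_lit 11)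
  (node (nat_lit 7) (nat_lit 60692) (nat_lit 12) (node (nat_lit 5) (nat_lit 61397) (nat_lit 13)
  (node (nat_lit 9) (nat_lit 17699) (nat_lit 14) nil nil) nil) nil) (node (nat_lit 7) (nat_lit
  61727) (nat_lit 11) nil nil)) (node (nat_lit 7) (nat_lit 59665) (nat_lit 10) (node (nat_lit 5)
  (nat_lit 58722) (nat_lit 11) nil (node (nat_lit 9) (nat_lit 63010) (nat_lit 11) nil nil)) (node
  (nat_lit 0) (nat_lit 64114) (nat_lit 10) nil (node (nat_lit 9) (nat_lit 64114) (nat_lit 10) nil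
  nil)))) (node (nat_lit 9) (nat_lit 65337) (nat_lit 9) (node (nat_lit 5) (nat_lit 65337) (nat_lit
  10) (node (nat_lit 9) (nat_lit 66507) (nat_lit 11) nil nil) nil) (node (nat_lit 5) (nat_lit
  57238) (nat_lit 9) (node (nat_lit 9) (nat_lit 65783) (nat_lit 10) nil (node (nat_lit 4) (nat_lit
  57076) (nat_lit 10) nil (node (nat_lit 0) (nat_lit 60380) (nat_lit 10) nil nil))) (node (nat_lit
  0) (nat_lit 64341) (nat_lit 9) nil nil)))) (node (nat_lit 4) (nat_lit 53632) (nat_lit 8) (node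
  (nat_lit 7) (nat_lit 57443) (nat_lit 9) (node (nat_lit 4) (nat_lit 59335) (nat_lit 10) nil (node
  (nat_lit 5) (nat_lit 59003) (nat_lit 10) (node (nat_lit 4) (nat_lit 60293) (nat_lit 11) nil nil)
  (node (nat_lit 9) (nat_lit 64197) (nat_lit 10) nil (node (nat_lit 0) (nat_lit 64197) (nat_lit
  10) nil nil)))) (node (nat_lit 5) (nat_lit 57149) (nat_lit 9) (node (nat_lit 7) (nat_lit 58682)
  (nat_lit 10) (node (nat_lit 9) (nat_lit 62027) (nat_lit 11) nil nil) (node (nat_lit 9) (nat_lit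
  65694) (nat_lit 10) nil (node (nat_lit 0) (nat_lit 63903) (nat_lit 10) nil nil))) (node (nat_lit
  9) (nat_lit 64732) (nat_lit 9) nil (node (nat_lit 0) (nat_lit 64210) (nat_lit 9) nil nil))))
  (node (nat_lit 0) (nat_lit 62365) (nat_lit 8) (node (nat_lit 9) (nat_lit 63956) (nat_lit 9) nil
  (node (nat_lit 5) (nat_lit 62365) (nat_lit 9) nil (node (nat_lit 0) (nat_lit 63366) (nat_lit 9)
  nil (node (nat_lit 7) (nat_lit 62365) (nat_lit 9) nil nil)))) nil))) (node (nat_lit 7) (nat_lit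
  0) (nat_lit 7) (node (nat_lit 9) (nat_lit 62061) (nat_lit 8) (node (nat_lit 5) (nat_lit 62740)
  (nat_lit 9) (node (nat_lit 9) (nat_lit 66119) (nat_lit 10) (node (nat_lit 7) (nat_lit 66119)
  (nat_lit 11) (node (nat_lit 5) (nat_lit 66119) (nat_lit 12) nil nil) nil) nil) nil) (node
  (nat_lit 4) (nat_lit 51644) (nat_lit 8) (node (nat_lit 5) (nat_lit 51644) (nat_lit 9) nil (node
  (nat_lit 9) (nat_lit 54556) (nat_lit 9) nil nil)) (node (nat_lit 5) (nat_lit 54008) (nat_lit 8)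
  (node (nat_lit 7) (nat_lit 56126) (nat_lit 9) (node (nat_lit 9) (nat_lit 64055) (nat_lit 10)
  (node (nat_lit 5) (nat_lit 64055) (nat_lit 11) nil nil) nil) nil) (node (nat_lit 0) (nat_lit
  58501) (nat_lit 8) nil nil)))) (node (nat_lit 4) (nat_lit 0) (nat_lit 7) (node (nat_lit 5)
  (nat_lit 53874) (nat_lit 8) (node (nat_lit 4) (nat_lit 56147) (nat_lit 9) (node (nat_lit 9)
  (nat_lit 64075) (nat_lit 10) (node (nat_lit 5) (nat_lit 64075) (nat_lit 11) nil nil) nil) nil)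
  (node (nat_lit 9) (nat_lit 62502) (nat_lit 8) (node (nat_lit 5) (nat_lit 62502) (nat_lit 9) nil
  nil) (node (nat_lit 7) (nat_lit 51288) (nat_lit 8) nil (node (nat_lit 0) (nat_lit 53637)
  (nat_lit 8) nil nil)))) (node (nat_lit 0) (nat_lit 57716) (nat_lit 7) (node (nat_lit 5) (nat_lit
  58210) (nat_lit 8) (node (nat_lit 9) (nat_lit 62543) (nat_lit 9) (node (nat_lit 5) (nat_lit
  62543) (nat_lit 10) nil nil) (node (nat_lit 10) (nat_lit 59833) (nat_lit 9) nil nil)) (node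
  (nat_lit 9) (nat_lit 61359) (nat_lit 8) (node (nat_lit 5) (nat_lit 61359) (nat_lit 9) nil nil)
  nil)) nil)))) (node (nat_lit 7) (nat_lit 0) (nat_lit 6) (node (nat_lit 0) (nat_lit 0) (nat_lit
  7) (node (nat_lit 5) (nat_lit 49431) (nat_lit 8) (node (nat_lit 7) (nat_lit 51134) (nat_lit 9)
  (node (nat_lit 5) (nat_lit 54169) (nat_lit 10) (node (nat_lit 10) (nat_lit 62849) (nat_lit 11)
  (node (nat_lit 7) (nat_lit 62847) (nat_lit 12) (node (nat_lit 5) (nat_lit 62847) (nat_lit 13)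
  nil (node (nat_lit 10) (nat_lit 63685) (nat_lit 13) nil (node (nat_lit 4) (nat_lit 62847)
  (nat_lit 13) nil nil))) (node (nat_lit 5) (nat_lit 62883) (nat_lit 12) (node (nat_lit 7)
  (nat_lit 62883) (nat_lit 13) (node (nat_lit 10) (nat_lit 63332) (nat_lit 14) nil nil) (node
  (nat_lit 4) (nat_lit 62883) (nat_lit 13) nil nil)) (node (nat_lit 4) (nat_lit 62849) (nat_lit
  12) nil (node (nat_lit 0) (nat_lit 63033) (nat_lit 12) nil nil)))) (node (nat_lit 4) (nat_lit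
  57677) (nat_lit 11) (node (nat_lit 7) (nat_lit 60585) (nat_lit 12) (node (nat_lit 4) (nat_lit
  61535) (nat_lit 13) nil nil) (node (nat_lit 5) (nat_lit 60153) (nat_lit 12) nil (node (nat_lit
  10) (nat_lit 62859) (nat_lit 12) nil (node (nat_lit 0) (nat_lit 59916) (nat_lit 12) nil nil))))
  (node (nat_lit 0) (nat_lit 62687) (nat_lit 11) nil nil))) (node (nat_lit 4) (nat_lit 54494)
  (nat_lit 10) (node (nat_lit 5) (nat_lit 57773) (nat_lit 11) (node (nat_lit 4) (nat_lit 60048)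
  (nat_lit 12) (node (nat_lit 7) (nat_lit 60558) (nat_lit 13) (node (nat_lit 5) (nat_lit 60949)
  (nat_lit 14) (node (nat_lit 7) (nat_lit 61300) (nat_lit 15) (node (nat_lit 10) (nat_lit 21246)
  (nat_lit 16) nil nil) nil) nil) nil) (node (nat_lit 7) (nat_lit 59271) (nat_lit 12) nil (node
  (nat_lit 10) (nat_lit 63812) (nat_lit 12) nil nil))) (node (nat_lit 7) (nat_lit 56561) (nat_lit
  11) (node (nat_lit 5) (nat_lit 57585) (nat_lit 12) nil (node (nat_lit 10) (nat_lit 60259)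
  (nat_lit 12) nil nil)) (node (nat_lit 10) (nat_lit 62716) (nat_lit 11) nil (node (nat_lit 0)
  (nat_lit 60640) (nat_lit 11) nil nil)))) (node (nat_lit 0) (nat_lit 60302) (nat_lit 10) (node
  (nat_lit 7) (nat_lit 60302) (nat_lit 11) nil (node (nat_lit 10) (nat_lit 60505) (nat_lit 11) nil
  (node (nat_lit 5) (nat_lit 60302) (nat_lit 11) nil nil))) nil))) (node (nat_lit 10) (nat_lit
  57857) (nat_lit 9) (node (nat_lit 7) (nat_lit 57857) (nat_lit 10) (node (nat_lit 5) (nat_lit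
  57857) (nat_lit 11) nil nil) nil) (node (nat_lit 4) (nat_lit 49431) (nat_lit 9) nil nil))) (node
  (nat_lit 7) (nat_lit 49117) (nat_lit 8) (node (nat_lit 5) (nat_lit 50885) (nat_lit 9) (node
  (nat_lit 10) (nat_lit 60175) (nat_lit 10) (node (nat_lit 5) (nat_lit 60218) (nat_lit 11) (node
  (nat_lit 7) (nat_lit 60262) (nat_lit 12) (node (nat_lit 10) (nat_lit 63482) (nat_lit 13) (node
  (nat_lit 7) (nat_lit 63482) (nat_lit 14) nil nil) nil) nil) nil) nil) (node (nat_lit 4) (nat_lit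
  49117) (nat_lit 9) nil nil)) (node (nat_lit 4) (nat_lit 50056) (nat_lit 8) (node (nat_lit 7)
  (nat_lit 50056) (nat_lit 9) nil nil) (node (nat_lit 0) (nat_lit 52892) (nat_lit 8) nil nil))))
  nil) (node (nat_lit 4) (nat_lit 0) (nat_lit 6) (node (nat_lit 0) (nat_lit 53152) (nat_lit 7)
  (node (nat_lit 5) (nat_lit 54754) (nat_lit 8) (node (nat_lit 4) (nat_lit 57129) (nat_lit 9)
  (node (nat_lit 7) (nat_lit 59155) (nat_lit 10) (node (nat_lit 4) (nat_lit 60169) (nat_lit 11)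
  nil (node (nat_lit 5) (nat_lit 60169) (nat_lit 11) nil (node (nat_lit 10) (nat_lit 65301)
  (nat_lit 11) nil (node (nat_lit 0) (nat_lit 61210) (nat_lit 11) nil nil)))) (node (nat_lit 5)
  (nat_lit 58844) (nat_lit 10) (node (nat_lit 7) (nat_lit 59858) (nat_lit 11) nil (node (nat_lit
  10) (nat_lit 66088) (nat_lit 11) nil (node (nat_lit 0) (nat_lit 63087) (nat_lit 11) nil nil)))
  (node (nat_lit 0) (nat_lit 64665) (nat_lit 10) nil nil))) nil) (node (nat_lit 4) (nat_lit 53152)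
  (nat_lit 8) (node (nat_lit 5) (nat_lit 53152) (nat_lit 9) (node (nat_lit 10) (nat_lit 55004)
  (nat_lit 10) nil nil) nil) nil)) nil) nil))) (node (nat_lit 4) (nat_lit 0) (nat_lit 5) (node
  (nat_lit 0) (nat_lit 0) (nat_lit 6) (node (nat_lit 4) (nat_lit 0) (nat_lit 7) (node (nat_lit 5)
  (nat_lit 47925) (nat_lit 8) (node (nat_lit 7) (nat_lit 48958) (nat_lit 9) (node (nat_lit 5)
  (nat_lit 49627) (nat_lit 10) (node (nat_lit 4) (nat_lit 50358) (nat_lit 11) nil nil) (node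
  (nat_lit 4) (nat_lit 50071) (nat_lit 10) nil (node (nat_lit 0) (nat_lit 52100) (nat_lit 10) nil
  (node (nat_lit 9) (nat_lit 52100) (nat_lit 10) nil nil)))) (node (nat_lit 4) (nat_lit 49863)
  (nat_lit 9) (node (nat_lit 7) (nat_lit 49882) (nat_lit 10) (node (nat_lit 4) (nat_lit 51172)
  (nat_lit 11) nil nil) (node (nat_lit 9) (nat_lit 55135) (nat_lit 10) nil (node (nat_lit 0)
  (nat_lit 53005) (nat_lit 10) nil nil))) (node (nat_lit 9) (nat_lit 54595) (nat_lit 9) nil (node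
  (nat_lit 0) (nat_lit 54595) (nat_lit 9) nil nil)))) (node (nat_lit 7) (nat_lit 48422) (nat_lit
  8) (node (nat_lit 5) (nat_lit 50258) (nat_lit 9) (node (nat_lit 4) (nat_lit 50277) (nat_lit 10)
  nil (node (nat_lit 7) (nat_lit 51370) (nat_lit 10) nil (node (nat_lit 9) (nat_lit 53400)
  (nat_lit 10) nil nil))) (node (nat_lit 9) (nat_lit 54945) (nat_lit 9) (node (nat_lit 4) (nat_lit
  54945) (nat_lit 10) (node (nat_lit 9) (nat_lit 55378) (nat_lit 11) nil nil) nil) (node (nat_lit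
  4) (nat_lit 49436) (nat_lit 9) nil (node (nat_lit 0) (nat_lit 53254) (nat_lit 9) nil nil))))
  (node (nat_lit 0) (nat_lit 54382) (nat_lit 8) nil nil))) (node (nat_lit 7) (nat_lit 0) (nat_lit
  7) (node (nat_lit 9) (nat_lit 54382) (nat_lit 8) (node (nat_lit 4) (nat_lit 54382) (nat_lit 9)
  (node (nat_lit 9) (nat_lit 55175) (nat_lit 10) nil nil) nil) (node (nat_lit 4) (nat_lit 48546)
  (nat_lit 8) (node (nat_lit 7) (nat_lit 49561) (nat_lit 9) (node (nat_lit 9) (nat_lit 54832)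
  (nat_lit 10) (node (nat_lit 4) (nat_lit 54832) (nat_lit 11) nil nil) nil) nil) (node (nat_lit 5)
  (nat_lit 47243) (nat_lit 8) nil (node (nat_lit 0) (nat_lit 49592) (nat_lit 8) nil nil)))) (node
  (nat_lit 5) (nat_lit 47268) (nat_lit 7) (node (nat_lit 4) (nat_lit 48311) (nat_lit 8) (node
  (nat_lit 5) (nat_lit 49325) (nat_lit 9) (node (nat_lit 9) (nat_lit 52467) (nat_lit 10) nil nil)
  nil) (node (nat_lit 9) (nat_lit 52753) (nat_lit 8) nil nil)) (node (nat_lit 0) (nat_lit 51897)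
  (nat_lit 7) (node (nat_lit 4) (nat_lit 51897) (nat_lit 8) (node (nat_lit 9) (nat_lit 53520)
  (nat_lit 9) nil nil) (node (nat_lit 9) (nat_lit 53527) (nat_lit 8) nil nil)) nil)))) (node
  (nat_lit 5) (nat_lit 0) (nat_lit 6) (node (nat_lit 0) (nat_lit 0) (nat_lit 7) (node (nat_lit 4)
  (nat_lit 49602) (nat_lit 8) (node (nat_lit 5) (nat_lit 50173) (nat_lit 9) (node (nat_lit 4)
  (nat_lit 51228) (nat_lit 10) (node (nat_lit 7) (nat_lit 52595) (nat_lit 11) (node (nat_lit 5)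
  (nat_lit 53847) (nat_lit 12) nil (node (nat_lit 4) (nat_lit 53654) (nat_lit 12) nil (node
  (nat_lit 10) (nat_lit 54834) (nat_lit 12) nil nil))) (node (nat_lit 10) (nat_lit 55378) (nat_lit
  11) (node (nat_lit 4) (nat_lit 55378) (nat_lit 12) nil nil) (node (nat_lit 0) (nat_lit 54490)
  (nat_lit 11) nil nil))) (node (nat_lit 7) (nat_lit 51578) (nat_lit 10) (node (nat_lit 4)
  (nat_lit 52219) (nat_lit 11) (node (nat_lit 7) (nat_lit 53278) (nat_lit 12) nil nil) (node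
  (nat_lit 5) (nat_lit 52087) (nat_lit 11) (node (nat_lit 4) (nat_lit 52501) (nat_lit 12) nil nil)
  (node (nat_lit 10) (nat_lit 54840) (nat_lit 11) nil nil))) (node (nat_lit 0) (nat_lit 55175)
  (nat_lit 10) nil nil))) nil) (node (nat_lit 5) (nat_lit 49544) (nat_lit 8) (node (nat_lit 4)
  (nat_lit 49544) (nat_lit 9) (node (nat_lit 10) (nat_lit 52413) (nat_lit 10) (node (nat_lit 4)
  (nat_lit 52413) (nat_lit 11) nil nil) nil) nil) (node (nat_lit 0) (nat_lit 50603) (nat_lit 8)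
  nil (node (nat_lit 7) (nat_lit 49544) (nat_lit 8) nil nil)))) nil) nil)) nil)))

noncomputable def c37 : Tr :=
  (node (nat_lit 3) (nat_lit 0) (nat_lit 1) (node (nat_lit 3) (nat_lit 0) (nat_lit 2) (node
  (nat_lit 3) (nat_lit 0) (nat_lit 3) (node (nat_lit 4) (nat_lit 0) (nat_lit 4) t426 t427) (node
  (nat_lit 4) (nat_lit 0) (nat_lit 3) (node (nat_lit 3) (nat_lit 0) (nat_lit 4) t428 (node
  (nat_lit 0) (nat_lit 0) (nat_lit 4) (node (nat_lit 5) (nat_lit 0) (nat_lit 5) (node (nat_lit 3)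
  (nat_lit 53831) (nat_lit 6) (node (nat_lit 4) (nat_lit 58537) (nat_lit 7) (node (nat_lit 5)
  (nat_lit 63137) (nat_lit 8) (node (nat_lit 4) (nat_lit 67601) (nat_lit 9) (node (nat_lit 7)
  (nat_lit 17533) (nat_lit 10) nil (node (nat_lit 9) (nat_lit 68403) (nat_lit 10) nil nil)) (node
  (nat_lit 9) (nat_lit 65583) (nat_lit 9) nil nil)) (node (nat_lit 9) (nat_lit 59765) (nat_lit 8)
  (node (nat_lit 5) (nat_lit 57492) (nat_lit 9) nil nil) (node (nat_lit 7) (nat_lit 63531)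
  (nat_lit 8) nil nil))) (node (nat_lit 5) (nat_lit 56544) (nat_lit 7) (node (nat_lit 4) (nat_lit
  58861) (nat_lit 8) (node (nat_lit 9) (nat_lit 61306) (nat_lit 9) nil nil) (node (nat_lit 7)
  (nat_lit 61538) (nat_lit 8) nil nil)) (node (nat_lit 7) (nat_lit 63041) (nat_lit 7) nil nil)))
  (node (nat_lit 4) (nat_lit 54028) (nat_lit 6) (node (nat_lit 3) (nat_lit 58687) (nat_lit 7)
  (node (nat_lit 4) (nat_lit 62874) (nat_lit 8) (node (nat_lit 5) (nat_lit 65319) (nat_lit 9) nil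
  nil) (node (nat_lit 5) (nat_lit 61342) (nat_lit 8) (node (nat_lit 10) (nat_lit 63787) (nat_lit
  9) nil nil) (node (nat_lit 7) (nat_lit 63681) (nat_lit 8) nil nil))) (node (nat_lit 5) (nat_lit
  57313) (nat_lit 7) (node (nat_lit 3) (nat_lit 61499) (nat_lit 8) (node (nat_lit 4) (nat_lit
  63944) (nat_lit 9) nil nil) (node (nat_lit 7) (nat_lit 62307) (nat_lit 8) nil nil)) nil)) (node
  (nat_lit 7) (nat_lit 67459) (nat_lit 6) (node (nat_lit 4) (nat_lit 67459) (nat_lit 7) nil nil)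
  (node (nat_lit 0) (nat_lit 57726) (nat_lit 6) nil nil)))) (node (nat_lit 3) (nat_lit 0) (nat_lit
  5) (node (nat_lit 5) (nat_lit 53823) (nat_lit 6) (node (nat_lit 4) (nat_lit 58429) (nat_lit 7)
  (node (nat_lit 5) (nat_lit 62615) (nat_lit 8) (node (nat_lit 8) (nat_lit 65060) (nat_lit 9) nil
  nil) (node (nat_lit 8) (nat_lit 63721) (nat_lit 8) (node (nat_lit 4) (nat_lit 67413) (nat_lit 9)
  nil nil) (node (nat_lit 7) (nat_lit 63423) (nat_lit 8) nil nil))) (node (nat_lit 8) (nat_lit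
  57425) (nat_lit 7) (node (nat_lit 4) (nat_lit 60153) (nat_lit 8) nil (node (nat_lit 7) (nat_lit
  62419) (nat_lit 8) nil nil)) (node (nat_lit 7) (nat_lit 63033) (nat_lit 7) nil nil))) (node
  (nat_lit 4) (nat_lit 53013) (nat_lit 6) (node (nat_lit 5) (nat_lit 57172) (nat_lit 7) (node
  (nat_lit 4) (nat_lit 60960) (nat_lit 8) (node (nat_lit 8) (nat_lit 62648) (nat_lit 9) nil nil)
  (node (nat_lit 8) (nat_lit 60845) (nat_lit 8) (node (nat_lit 5) (nat_lit 63291) (nat_lit 9) nil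
  nil) (node (nat_lit 7) (nat_lit 62166) (nat_lit 8) nil nil))) (node (nat_lit 8) (nat_lit 57575)
  (nat_lit 7) (node (nat_lit 5) (nat_lit 57323) (nat_lit 8) nil (node (nat_lit 7) (nat_lit 62569)
  (nat_lit 8) nil nil)) (node (nat_lit 7) (nat_lit 62223) (nat_lit 7) nil nil))) (node (nat_lit 7)
  (nat_lit 65738) (nat_lit 6) (node (nat_lit 4) (nat_lit 65738) (nat_lit 7) nil (node (nat_lit 5)
  (nat_lit 65738) (nat_lit 7) nil nil)) (node (nat_lit 0) (nat_lit 57181) (nat_lit 6) nil nil))))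
  (node (nat_lit 4) (nat_lit 0) (nat_lit 5) (node (nat_lit 5) (nat_lit 53883) (nat_lit 6) (node
  (nat_lit 3) (nat_lit 57805) (nat_lit 7) (node (nat_lit 5) (nat_lit 63176) (nat_lit 8) (node
  (nat_lit 4) (nat_lit 64058) (nat_lit 9) (node (nat_lit 10) (nat_lit 64031) (nat_lit 10) (node
  (nat_lit 4) (nat_lit 62775) (nat_lit 11) (node (nat_lit 5) (nat_lit 61010) (nat_lit 12) nil nil)
  nil) nil) nil) (node (nat_lit 4) (nat_lit 62040) (nat_lit 8) (node (nat_lit 10) (nat_lit 63728)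
  (nat_lit 9) nil nil) (node (nat_lit 7) (nat_lit 62799) (nat_lit 8) nil nil))) (node (nat_lit 4)
  (nat_lit 58722) (nat_lit 7) (node (nat_lit 3) (nat_lit 63937) (nat_lit 8) (node (nat_lit 5)
  (nat_lit 62316) (nat_lit 9) nil (node (nat_lit 4) (nat_lit 66383) (nat_lit 9) nil nil)) nil)
  (node (nat_lit 7) (nat_lit 68185) (nat_lit 7) nil nil))) (node (nat_lit 3) (nat_lit 53410)
  (nat_lit 6) (node (nat_lit 5) (nat_lit 57441) (nat_lit 7) (node (nat_lit 4) (nat_lit 61805)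
  (nat_lit 8) (node (nat_lit 5) (nat_lit 60183) (nat_lit 9) nil nil) (node (nat_lit 9) (nat_lit
  61626) (nat_lit 8) (node (nat_lit 4) (nat_lit 65319) (nat_lit 9) nil nil) (node (nat_lit 7)
  (nat_lit 62435) (nat_lit 8) nil nil))) (node (nat_lit 4) (nat_lit 58509) (nat_lit 7) (node
  (nat_lit 5) (nat_lit 63109) (nat_lit 8) (node (nat_lit 9) (nat_lit 65554) (nat_lit 9) nil (node
  (nat_lit 4) (nat_lit 61487) (nat_lit 9) nil nil)) nil) (node (nat_lit 7) (nat_lit 62620)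
  (nat_lit 7) nil nil))) (node (nat_lit 0) (nat_lit 57388) (nat_lit 6) nil nil))) (node (nat_lit
  0) (nat_lit 60188) (nat_lit 5) (node (nat_lit 7) (nat_lit 61476) (nat_lit 6) nil nil) nil))))
  nil)) nil)) nil) nil)

noncomputable def c42 : Tr :=
  (node (nat_lit 1) (nat_lit 0) (nat_lit 1) (node (nat_lit 1) (nat_lit 0) (nat_lit 2) (node
  (nat_lit 1) (nat_lit 0) (nat_lit 3) (node (nat_lit 4) (nat_lit 83972) (nat_lit 4) (node (nat_lit
  5) (nat_lit 39886) (nat_lit 5) (node (nat_lit 4) (nat_lit 40187) (nat_lit 6) nil nil) (node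
  (nat_lit 6) (nat_lit 85429) (nat_lit 5) (node (nat_lit 5) (nat_lit 85429) (nat_lit 6) nil nil)
  nil)) (node (nat_lit 5) (nat_lit 0) (nat_lit 4) (node (nat_lit 4) (nat_lit 0) (nat_lit 5) (node
  (nat_lit 5) (nat_lit 85429) (nat_lit 6) (node (nat_lit 6) (nat_lit 44670) (nat_lit 7) nil nil)
  (node (nat_lit 6) (nat_lit 0) (nat_lit 6) (node (nat_lit 0) (nat_lit 85429) (nat_lit 7) (node
  (nat_lit 6) (nat_lit 85429) (nat_lit 8) (node (nat_lit 4) (nat_lit 85429) (nat_lit 9) nil nil)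
  nil) (node (nat_lit 2) (nat_lit 85429) (nat_lit 7) (node (nat_lit 6) (nat_lit 85429) (nat_lit 8)
  (node (nat_lit 4) (nat_lit 85429) (nat_lit 9) nil nil) nil) (node (nat_lit 4) (nat_lit 85429)
  (nat_lit 7) (node (nat_lit 5) (nat_lit 85429) (nat_lit 8) nil nil) (node (nat_lit 5) (nat_lit
  85429) (nat_lit 7) nil nil)))) (node (nat_lit 0) (nat_lit 85429) (nat_lit 6) (node (nat_lit 5)
  (nat_lit 85429) (nat_lit 7) nil (node (nat_lit 6) (nat_lit 85429) (nat_lit 7) nil nil)) (node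
  (nat_lit 2) (nat_lit 85429) (nat_lit 6) (node (nat_lit 5) (nat_lit 85429) (nat_lit 7) nil (node
  (nat_lit 6) (nat_lit 85429) (nat_lit 7) nil nil)) nil)))) (node (nat_lit 2) (nat_lit 85429)
  (nat_lit 5) nil (node (nat_lit 0) (nat_lit 85429) (nat_lit 5) nil nil))) nil)) (node (nat_lit 4)
  (nat_lit 0) (nat_lit 3) (node (nat_lit 1) (nat_lit 39224) (nat_lit 4) (node (nat_lit 5) (nat_lit
  40330) (nat_lit 5) nil (node (nat_lit 4) (nat_lit 40330) (nat_lit 5) nil nil)) nil) nil)) nil)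
  nil)

noncomputable def c52 : Tr :=
  (node (nat_lit 1) (nat_lit 0) (nat_lit 1) (node (nat_lit 1) (nat_lit 0) (nat_lit 2) (node
  (nat_lit 1) (nat_lit 0) (nat_lit 3) (node (nat_lit 4) (nat_lit 0) (nat_lit 4) (node (nat_lit 5)
  (nat_lit 41373) (nat_lit 5) (node (nat_lit 4) (nat_lit 42624) (nat_lit 6) (node (nat_lit 6)
  (nat_lit 42763) (nat_lit 7) nil nil) nil) (node (nat_lit 6) (nat_lit 89104) (nat_lit 5) (node
  (nat_lit 5) (nat_lit 90880) (nat_lit 6) nil nil) nil)) (node (nat_lit 5) (nat_lit 0) (nat_lit 4)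
  (node (nat_lit 4) (nat_lit 0) (nat_lit 5) (node (nat_lit 5) (nat_lit 90653) (nat_lit 6) (node
  (nat_lit 6) (nat_lit 47486) (nat_lit 7) nil nil) (node (nat_lit 6) (nat_lit 0) (nat_lit 6) (node
  (nat_lit 0) (nat_lit 90880) (nat_lit 7) nil (node (nat_lit 2) (nat_lit 90880) (nat_lit 7) (node
  (nat_lit 5) (nat_lit 90880) (nat_lit 8) nil nil) (node (nat_lit 5) (nat_lit 0) (nat_lit 7) (node
  (nat_lit 0) (nat_lit 90880) (nat_lit 8) nil (node (nat_lit 2) (nat_lit 90880) (nat_lit 8) nil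
  (node (nat_lit 6) (nat_lit 90880) (nat_lit 8) nil nil))) (node (nat_lit 4) (nat_lit 90880)
  (nat_lit 7) (node (nat_lit 5) (nat_lit 90880) (nat_lit 8) nil nil) nil)))) (node (nat_lit 2)
  (nat_lit 90880) (nat_lit 6) nil (node (nat_lit 0) (nat_lit 90880) (nat_lit 6) nil nil)))) nil)
  nil)) (node (nat_lit 4) (nat_lit 0) (nat_lit 3) (node (nat_lit 1) (nat_lit 0) (nat_lit 4) (node
  (nat_lit 5) (nat_lit 42915) (nat_lit 5) (node (nat_lit 7) (nat_lit 42915) (nat_lit 6) nil (node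
  (nat_lit 4) (nat_lit 42915) (nat_lit 6) nil nil)) (node (nat_lit 4) (nat_lit 42915) (nat_lit 5)
  nil nil)) nil) nil)) nil) nil)

end Pool.Agent.Work.MP_7cb3ca_co.P3.D
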