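import Pool.Agent.Work.MP_7cb3ca_co.P3.Defs

namespace Pool.Agent.Work.MP_7cb3ca_co.P3.D
open Tr
set_option maxRecDepth 100000

noncomputable def t380 : Tr :=
  (node (nat_lit 5) (nat_lit 0) (nat_lit 4) (node (nat_lit 4) (nat_lit 33164) (nat_lit 5) (node
  (nat_lit 6) (nat_lit 50706) (nat_lit 6) (node (nat_lit 5) (nat_lit 50832) (nat_lit 7) (node
  (nat_lit 6) (nat_lit 53363) (nat_lit 8) (node (nat_lit 4) (nat_lit 53363) (nat_lit 9) (node
  (nat_lit 5) (nat_lit 53363) (nat_lit 10) (node (nat_lit 4) (nat_lit 53363) (nat_lit 11) (node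
  (nat_lit 6) (nat_lit 54330) (nat_lit 12) (node (nat_lit 4) (nat_lit 54330) (nat_lit 13) (node
  (nat_lit 5) (nat_lit 54330) (nat_lit 14) (node (nat_lit 6) (nat_lit 54391) (nat_lit 15) nil nil)
  nil) nil) (node (nat_lit 3) (nat_lit 53363) (nat_lit 12) nil nil)) (node (nat_lit 6) (nat_lit
  54224) (nat_lit 11) nil (node (nat_lit 3) (nat_lit 53363) (nat_lit 11) nil (node (nat_lit 0)
  (nat_lit 54224) (nat_lit 11) nil nil)))) (node (nat_lit 6) (nat_lit 54003) (nat_lit 10) (node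
  (nat_lit 5) (nat_lit 54003) (nat_lit 11) (node (nat_lit 4) (nat_lit 54003) (nat_lit 12) (node
  (nat_lit 6) (nat_lit 54391) (nat_lit 13) nil nil) nil) (node (nat_lit 3) (nat_lit 54003)
  (nat_lit 11) nil (node (nat_lit 0) (nat_lit 54224) (nat_lit 11) nil nil))) (node (nat_lit 3)
  (nat_lit 53363) (nat_lit 10) nil (node (nat_lit 0) (nat_lit 54003) (nat_lit 10) nil nil))))
  (node (nat_lit 3) (nat_lit 53363) (nat_lit 9) (node (nat_lit 5) (nat_lit 53363) (nat_lit 10) nil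
  (node (nat_lit 4) (nat_lit 53363) (nat_lit 10) nil (node (nat_lit 6) (nat_lit 54003) (nat_lit
  10) nil nil))) (node (nat_lit 0) (nat_lit 53731) (nat_lit 9) nil nil))) (node (nat_lit 3)
  (nat_lit 51481) (nat_lit 8) (node (nat_lit 5) (nat_lit 51973) (nat_lit 9) (node (nat_lit 4)
  (nat_lit 52171) (nat_lit 10) (node (nat_lit 11) (nat_lit 52873) (nat_lit 11) nil (node (nat_lit
  6) (nat_lit 53916) (nat_lit 11) nil nil)) (node (nat_lit 6) (nat_lit 54280) (nat_lit 10) nil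
  (node (nat_lit 0) (nat_lit 54280) (nat_lit 10) nil nil))) (node (nat_lit 4) (nat_lit 52019)
  (nat_lit 9) (node (nat_lit 11) (nat_lit 52211) (nat_lit 10) (node (nat_lit 5) (nat_lit 52588)
  (nat_lit 11) (node (nat_lit 11) (nat_lit 51959) (nat_lit 12) nil nil) (node (nat_lit 6) (nat_lit
  53955) (nat_lit 11) nil nil)) (node (nat_lit 5) (nat_lit 51845) (nat_lit 10) nil (node (nat_lit
  6) (nat_lit 53651) (nat_lit 10) nil (node (nat_lit 0) (nat_lit 53651) (nat_lit 10) nil nil))))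
  (node (nat_lit 6) (nat_lit 53688) (nat_lit 9) nil (node (nat_lit 0) (nat_lit 53688) (nat_lit 9)
  nil nil)))) (node (nat_lit 0) (nat_lit 53808) (nat_lit 8) (node (nat_lit 5) (nat_lit 53808)
  (nat_lit 9) nil (node (nat_lit 6) (nat_lit 54105) (nat_lit 9) nil (node (nat_lit 4) (nat_lit
  53808) (nat_lit 9) nil (node (nat_lit 3) (nat_lit 53808) (nat_lit 9) nil (node (nat_lit 0)
  (nat_lit 54105) (nat_lit 9) nil nil))))) nil))) (node (nat_lit 4) (nat_lit 50546) (nat_lit 7)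
  (node (nat_lit 5) (nat_lit 50864) (nat_lit 8) (node (nat_lit 6) (nat_lit 53521) (nat_lit 9)
  (node (nat_lit 4) (nat_lit 53521) (nat_lit 10) (node (nat_lit 6) (nat_lit 54015) (nat_lit 11)
  (node (nat_lit 5) (nat_lit 54015) (nat_lit 12) nil nil) nil) nil) (node (nat_lit 3) (nat_lit
  50864) (nat_lit 9) nil nil)) (node (nat_lit 3) (nat_lit 51021) (nat_lit 8) (node (nat_lit 6)
  (nat_lit 52477) (nat_lit 9) nil nil) (node (nat_lit 0) (nat_lit 52180) (nat_lit 8) nil nil)))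
  (node (nat_lit 3) (nat_lit 51180) (nat_lit 7) (node (nat_lit 6) (nat_lit 52340) (nat_lit 8) nil
  nil) (node (nat_lit 0) (nat_lit 52258) (nat_lit 7) nil nil)))) (node (nat_lit 5) (nat_lit 38250)
  (nat_lit 6) (node (nat_lit 6) (nat_lit 32910) (nat_lit 7) (node (nat_lit 4) (nat_lit 32752)
  (nat_lit 8) (node (nat_lit 6) (nat_lit 33601) (nat_lit 9) (node (nat_lit 5) (nat_lit 33601)
  (nat_lit 10) (node (nat_lit 4) (nat_lit 33601) (nat_lit 11) (node (nat_lit 6) (nat_lit 33861)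
  (nat_lit 12) nil (node (nat_lit 5) (nat_lit 33601) (nat_lit 12) nil nil)) nil) nil) (node
  (nat_lit 5) (nat_lit 32752) (nat_lit 9) (node (nat_lit 4) (nat_lit 32752) (nat_lit 10) (node
  (nat_lit 6) (nat_lit 33264) (nat_lit 11) nil nil) nil) nil)) (node (nat_lit 3) (nat_lit 32910)
  (nat_lit 8) nil (node (nat_lit 0) (nat_lit 33335) (nat_lit 8) nil nil))) (node (nat_lit 3)
  (nat_lit 41896) (nat_lit 7) (node (nat_lit 4) (nat_lit 43606) (nat_lit 8) nil (node (nat_lit 5)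
  (nat_lit 43606) (nat_lit 8) nil (node (nat_lit 6) (nat_lit 47104) (nat_lit 8) nil (node (nat_lit
  0) (nat_lit 47104) (nat_lit 8) nil nil)))) (node (nat_lit 0) (nat_lit 48754) (nat_lit 7) nil
  nil))) (node (nat_lit 3) (nat_lit 38390) (nat_lit 6) (node (nat_lit 5) (nat_lit 43192) (nat_lit
  7) (node (nat_lit 9) (nat_lit 46759) (nat_lit 8) (node (nat_lit 4) (nat_lit 48153) (nat_lit 9)
  nil nil) (node (nat_lit 4) (nat_lit 46764) (nat_lit 8) (node (nat_lit 5) (nat_lit 46673)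
  (nat_lit 9) (node (nat_lit 9) (nat_lit 46083) (nat_lit 10) nil (node (nat_lit 6) (nat_lit 45957)
  (nat_lit 10) nil nil)) (node (nat_lit 6) (nat_lit 50559) (nat_lit 9) nil nil)) (node (nat_lit 6)
  (nat_lit 51573) (nat_lit 8) nil (node (nat_lit 0) (nat_lit 51573) (nat_lit 8) nil nil)))) (node
  (nat_lit 4) (nat_lit 43487) (nat_lit 7) (node (nat_lit 5) (nat_lit 45691) (nat_lit 8) (node
  (nat_lit 9) (nat_lit 45683) (nat_lit 9) (node (nat_lit 5) (nat_lit 45863) (nat_lit 10) nil nil)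
  (node (nat_lit 6) (nat_lit 39788) (nat_lit 9) nil nil)) (node (nat_lit 6) (nat_lit 51939)
  (nat_lit 8) nil (node (nat_lit 0) (nat_lit 51868) (nat_lit 8) nil nil))) (node (nat_lit 6)
  (nat_lit 51851) (nat_lit 7) (node (nat_lit 4) (nat_lit 51851) (nat_lit 8) nil nil) (node
  (nat_lit 0) (nat_lit 52269) (nat_lit 7) (node (nat_lit 9) (nat_lit 52269) (nat_lit 8) nil nil)
  nil)))) (node (nat_lit 0) (nat_lit 50992) (nat_lit 6) (node (nat_lit 5) (nat_lit 50992) (nat_lit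
  7) nil (node (nat_lit 4) (nat_lit 50992) (nat_lit 7) nil (node (nat_lit 6) (nat_lit 52048)
  (nat_lit 7) nil (node (nat_lit 3) (nat_lit 50992) (nat_lit 7) nil (node (nat_lit 0) (nat_lit
  52233) (nat_lit 7) nil nil))))) nil)))) (node (nat_lit 3) (nat_lit 33977) (nat_lit 5) (node
  (nat_lit 4) (nat_lit 38709) (nat_lit 6) (node (nat_lit 5) (nat_lit 43074) (nat_lit 7) (node
  (nat_lit 4) (nat_lit 45422) (nat_lit 8) (node (nat_lit 8) (nat_lit 44908) (nat_lit 9) (node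
  (nat_lit 5) (nat_lit 44347) (nat_lit 10) nil nil) (node (nat_lit 6) (nat_lit 48759) (nat_lit 9)
  nil (node (nat_lit 0) (nat_lit 48759) (nat_lit 9) nil nil))) (node (nat_lit 8) (nat_lit 45797)
  (nat_lit 8) (node (nat_lit 5) (nat_lit 45579) (nat_lit 9) (node (nat_lit 4) (nat_lit 44831)
  (nat_lit 10) (node (nat_lit 5) (nat_lit 41635) (nat_lit 11) (node (nat_lit 6) (nat_lit 42992)
  (nat_lit 12) nil nil) nil) nil) (node (nat_lit 6) (nat_lit 49135) (nat_lit 9) nil nil)) (node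
  (nat_lit 6) (nat_lit 29907) (nat_lit 8) (node (nat_lit 5) (nat_lit 19588) (nat_lit 9) nil nil)
  (node (nat_lit 0) (nat_lit 51195) (nat_lit 8) nil nil)))) (node (nat_lit 8) (nat_lit 43529)
  (nat_lit 7) (node (nat_lit 5) (nat_lit 45524) (nat_lit 8) (node (nat_lit 4) (nat_lit 46253)
  (nat_lit 9) (node (nat_lit 5) (nat_lit 46440) (nat_lit 10) (node (nat_lit 6) (nat_lit 38587)
  (nat_lit 11) nil nil) nil) (node (nat_lit 8) (nat_lit 46639) (nat_lit 9) (node (nat_lit 4)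
  (nat_lit 46445) (nat_lit 10) (node (nat_lit 5) (nat_lit 46531) (nat_lit 11) nil nil) nil) (node
  (nat_lit 6) (nat_lit 48862) (nat_lit 9) nil nil))) (node (nat_lit 6) (nat_lit 52396) (nat_lit 8)
  nil (node (nat_lit 0) (nat_lit 51649) (nat_lit 8) nil nil))) (node (nat_lit 6) (nat_lit 52002)
  (nat_lit 7) (node (nat_lit 8) (nat_lit 52002) (nat_lit 8) nil nil) (node (nat_lit 0) (nat_lit
  52380) (nat_lit 7) (node (nat_lit 4) (nat_lit 52380) (nat_lit 8) nil nil) nil)))) (node (nat_lit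
  5) (nat_lit 38608) (nat_lit 6) (node (nat_lit 6) (nat_lit 52585) (nat_lit 7) (node (nat_lit 8)
  (nat_lit 52506) (nat_lit 8) (node (nat_lit 6) (nat_lit 54105) (nat_lit 9) (node (nat_lit 5)
  (nat_lit 54105) (nat_lit 10) (node (nat_lit 8) (nat_lit 54105) (nat_lit 11) (node (nat_lit 6)
  (nat_lit 54391) (nat_lit 12) nil nil) nil) nil) (node (nat_lit 5) (nat_lit 52506) (nat_lit 9)
  (node (nat_lit 8) (nat_lit 52506) (nat_lit 10) nil nil) nil)) (node (nat_lit 4) (nat_lit 52585)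
  (nat_lit 8) nil (node (nat_lit 0) (nat_lit 52950) (nat_lit 8) nil nil))) (node (nat_lit 4)
  (nat_lit 42936) (nat_lit 7) (node (nat_lit 5) (nat_lit 43597) (nat_lit 8) (node (nat_lit 8)
  (nat_lit 43424) (nat_lit 9) (node (nat_lit 4) (nat_lit 42516) (nat_lit 10) (node (nat_lit 5)
  (nat_lit 40372) (nat_lit 11) nil nil) nil) (node (nat_lit 6) (nat_lit 41420) (nat_lit 9) nil
  nil)) (node (nat_lit 8) (nat_lit 44679) (nat_lit 8) nil (node (nat_lit 6) (nat_lit 51056)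
  (nat_lit 8) nil (node (nat_lit 0) (nat_lit 47883) (nat_lit 8) nil nil)))) (node (nat_lit 0)
  (nat_lit 51901) (nat_lit 7) nil nil))) (node (nat_lit 6) (nat_lit 51065) (nat_lit 6) (node
  (nat_lit 8) (nat_lit 51292) (nat_lit 7) (node (nat_lit 5) (nat_lit 51461) (nat_lit 8) (node
  (nat_lit 6) (nat_lit 53881) (nat_lit 9) (node (nat_lit 8) (nat_lit 53881) (nat_lit 10) (node
  (nat_lit 6) (nat_lit 54169) (nat_lit 11) nil nil) nil) (node (nat_lit 8) (nat_lit 51461)
  (nat_lit 9) (node (nat_lit 6) (nat_lit 52759) (nat_lit 10) nil nil) nil)) (node (nat_lit 4)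
  (nat_lit 51292) (nat_lit 8) nil (node (nat_lit 0) (nat_lit 52185) (nat_lit 8) nil nil))) (node
  (nat_lit 5) (nat_lit 51292) (nat_lit 7) (node (nat_lit 6) (nat_lit 53326) (nat_lit 8) (node
  (nat_lit 8) (nat_lit 53326) (nat_lit 9) nil nil) (node (nat_lit 4) (nat_lit 51292) (nat_lit 8)
  nil (node (nat_lit 0) (nat_lit 52185) (nat_lit 8) nil nil))) (node (nat_lit 4) (nat_lit 50740)
  (nat_lit 7) (node (nat_lit 8) (nat_lit 50740) (nat_lit 8) nil (node (nat_lit 6) (nat_lit 52210)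
  (nat_lit 8) nil nil)) (node (nat_lit 0) (nat_lit 52106) (nat_lit 7) nil nil)))) (node (nat_lit
  0) (nat_lit 50973) (nat_lit 6) (node (nat_lit 5) (nat_lit 50973) (nat_lit 7) nil (node (nat_lit
  8) (nat_lit 50973) (nat_lit 7) nil (node (nat_lit 6) (nat_lit 51855) (nat_lit 7) nil (node
  (nat_lit 0) (nat_lit 52040) (nat_lit 7) nil nil)))) nil)))) (node (nat_lit 0) (nat_lit 47254)
  (nat_lit 5) (node (nat_lit 6) (nat_lit 50675) (nat_lit 6) (node (nat_lit 5) (nat_lit 50435)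
  (nat_lit 7) (node (nat_lit 6) (nat_lit 53217) (nat_lit 8) (node (nat_lit 8) (nat_lit 53524)
  (nat_lit 9) nil (node (nat_lit 4) (nat_lit 53217) (nat_lit 9) nil (node (nat_lit 0) (nat_lit
  53446) (nat_lit 9) nil (node (nat_lit 3) (nat_lit 53217) (nat_lit 9) nil nil)))) (node (nat_lit
  4) (nat_lit 50435) (nat_lit 8) nil (node (nat_lit 3) (nat_lit 50435) (nat_lit 8) nil (node
  (nat_lit 0) (nat_lit 52411) (nat_lit 8) nil nil)))) (node (nat_lit 8) (nat_lit 52459) (nat_lit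
  7) (node (nat_lit 5) (nat_lit 52459) (nat_lit 8) nil nil) (node (nat_lit 3) (nat_lit 50675)
  (nat_lit 7) nil (node (nat_lit 0) (nat_lit 51202) (nat_lit 7) nil nil)))) (node (nat_lit 5)
  (nat_lit 47129) (nat_lit 6) (node (nat_lit 6) (nat_lit 52107) (nat_lit 7) (node (nat_lit 8)
  (nat_lit 52695) (nat_lit 8) nil (node (nat_lit 5) (nat_lit 52107) (nat_lit 8) nil nil)) (node
  (nat_lit 4) (nat_lit 47129) (nat_lit 7) (node (nat_lit 5) (nat_lit 47129) (nat_lit 8) nil (node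
  (nat_lit 8) (nat_lit 48875) (nat_lit 8) nil (node (nat_lit 6) (nat_lit 48875) (nat_lit 8) nil
  nil))) (node (nat_lit 3) (nat_lit 47129) (nat_lit 7) (node (nat_lit 5) (nat_lit 47129) (nat_lit
  8) nil (node (nat_lit 8) (nat_lit 48875) (nat_lit 8) nil nil)) (node (nat_lit 0) (nat_lit 51284)
  (nat_lit 7) nil nil)))) (node (nat_lit 4) (nat_lit 47041) (nat_lit 6) (node (nat_lit 5) (nat_lit
  47310) (nat_lit 7) (node (nat_lit 8) (nat_lit 49055) (nat_lit 8) nil (node (nat_lit 4) (nat_lit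
  47310) (nat_lit 8) nil nil)) (node (nat_lit 6) (nat_lit 51753) (nat_lit 7) (node (nat_lit 4)
  (nat_lit 51753) (nat_lit 8) nil nil) (node (nat_lit 8) (nat_lit 51196) (nat_lit 7) nil (node
  (nat_lit 3) (nat_lit 47041) (nat_lit 7) nil (node (nat_lit 0) (nat_lit 49288) (nat_lit 7) nil
  nil))))) (node (nat_lit 3) (nat_lit 47173) (nat_lit 6) (node (nat_lit 5) (nat_lit 47173)
  (nat_lit 7) nil (node (nat_lit 8) (nat_lit 49871) (nat_lit 7) nil (node (nat_lit 6) (nat_lit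
  49419) (nat_lit 7) nil (node (nat_lit 0) (nat_lit 48554) (nat_lit 7) nil nil)))) (node (nat_lit
  0) (nat_lit 50952) (nat_lit 6) (node (nat_lit 5) (nat_lit 50952) (nat_lit 7) nil (node (nat_lit
  3) (nat_lit 50952) (nat_lit 7) nil (node (nat_lit 8) (nat_lit 51480) (nat_lit 7) nil nil)))
  nil))))) nil))) (node (nat_lit 4) (nat_lit 0) (nat_lit 4) (node (nat_lit 6) (nat_lit 46482)
  (nat_lit 5) (node (nat_lit 5) (nat_lit 47106) (nat_lit 6) (node (nat_lit 6) (nat_lit 52508)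
  (nat_lit 7) (node (nat_lit 4) (nat_lit 52382) (nat_lit 8) (node (nat_lit 5) (nat_lit 52472)
  (nat_lit 9) (node (nat_lit 4) (nat_lit 52467) (nat_lit 10) (node (nat_lit 6) (nat_lit 54224)
  (nat_lit 11) (node (nat_lit 5) (nat_lit 54224) (nat_lit 12) (node (nat_lit 4) (nat_lit 54224)
  (nat_lit 13) (node (nat_lit 5) (nat_lit 54224) (nat_lit 14) nil nil) nil) (node (nat_lit 4)
  (nat_lit 54224) (nat_lit 12) nil nil)) (node (nat_lit 3) (nat_lit 52267) (nat_lit 11) (node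
  (nat_lit 5) (nat_lit 52169) (nat_lit 12) nil nil) (node (nat_lit 0) (nat_lit 53843) (nat_lit 11)
  nil nil))) (node (nat_lit 6) (nat_lit 54003) (nat_lit 10) (node (nat_lit 5) (nat_lit 54003)
  (nat_lit 11) (node (nat_lit 4) (nat_lit 54003) (nat_lit 12) (node (nat_lit 5) (nat_lit 54003)
  (nat_lit 13) (node (nat_lit 6) (nat_lit 54391) (nat_lit 14) nil nil) nil) nil) (node (nat_lit 3)
  (nat_lit 54003) (nat_lit 11) nil (node (nat_lit 0) (nat_lit 54224) (nat_lit 11) nil nil))) (node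
  (nat_lit 3) (nat_lit 52210) (nat_lit 10) (node (nat_lit 4) (nat_lit 52210) (nat_lit 11) nil
  (node (nat_lit 5) (nat_lit 52210) (nat_lit 11) nil (node (nat_lit 6) (nat_lit 53586) (nat_lit
  11) nil (node (nat_lit 0) (nat_lit 53586) (nat_lit 11) nil nil)))) (node (nat_lit 0) (nat_lit
  53974) (nat_lit 10) nil nil)))) (node (nat_lit 3) (nat_lit 52265) (nat_lit 9) (node (nat_lit 4)
  (nat_lit 52265) (nat_lit 10) nil (node (nat_lit 6) (nat_lit 53420) (nat_lit 10) nil (node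
  (nat_lit 5) (nat_lit 52265) (nat_lit 10) nil (node (nat_lit 0) (nat_lit 53420) (nat_lit 10) nil
  nil)))) (node (nat_lit 0) (nat_lit 53543) (nat_lit 9) nil nil))) nil) (node (nat_lit 4) (nat_lit
  47928) (nat_lit 7) (node (nat_lit 5) (nat_lit 48113) (nat_lit 8) (node (nat_lit 6) (nat_lit
  50551) (nat_lit 9) nil nil) (node (nat_lit 6) (nat_lit 49998) (nat_lit 8) nil nil)) nil)) (node
  (nat_lit 3) (nat_lit 46893) (nat_lit 6) nil (node (nat_lit 0) (nat_lit 47837) (nat_lit 6) nil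
  nil))) (node (nat_lit 5) (nat_lit 32798) (nat_lit 5) (node (nat_lit 4) (nat_lit 38173) (nat_lit
  6) (node (nat_lit 6) (nat_lit 51811) (nat_lit 7) (node (nat_lit 5) (nat_lit 51811) (nat_lit 8)
  (node (nat_lit 6) (nat_lit 52694) (nat_lit 9) (node (nat_lit 4) (nat_lit 52694) (nat_lit 10) nil
  nil) (node (nat_lit 4) (nat_lit 51811) (nat_lit 9) (node (nat_lit 5) (nat_lit 51811) (nat_lit
  10) (node (nat_lit 6) (nat_lit 53188) (nat_lit 11) (node (nat_lit 4) (nat_lit 53188) (nat_lit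
  12) (node (nat_lit 5) (nat_lit 53188) (nat_lit 13) (node (nat_lit 4) (nat_lit 53188) (nat_lit
  14) (node (nat_lit 6) (nat_lit 33076) (nat_lit 15) nil nil) nil) nil) nil) nil) nil) nil)) nil)
  (node (nat_lit 3) (nat_lit 41592) (nat_lit 7) (node (nat_lit 5) (nat_lit 43876) (nat_lit 8)
  (node (nat_lit 10) (nat_lit 44851) (nat_lit 9) nil nil) (node (nat_lit 4) (nat_lit 43302)
  (nat_lit 8) nil nil)) (node (nat_lit 0) (nat_lit 46756) (nat_lit 7) nil nil))) (node (nat_lit 3)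
  (nat_lit 37521) (nat_lit 6) (node (nat_lit 4) (nat_lit 38778) (nat_lit 7) (node (nat_lit 5)
  (nat_lit 40488) (nat_lit 8) nil (node (nat_lit 6) (nat_lit 43986) (nat_lit 8) nil (node (nat_lit
  9) (nat_lit 38307) (nat_lit 8) nil nil))) (node (nat_lit 5) (nat_lit 38724) (nat_lit 7) (node
  (nat_lit 4) (nat_lit 38150) (nat_lit 8) nil nil) (node (nat_lit 6) (nat_lit 42271) (nat_lit 7)
  nil (node (nat_lit 0) (nat_lit 42271) (nat_lit 7) nil nil)))) (node (nat_lit 0) (nat_lit 44896)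
  (nat_lit 6) nil nil))) (node (nat_lit 3) (nat_lit 33651) (nat_lit 5) (node (nat_lit 6) (nat_lit
  48334) (nat_lit 6) nil (node (nat_lit 5) (nat_lit 38292) (nat_lit 6) (node (nat_lit 4) (nat_lit
  42753) (nat_lit 7) (node (nat_lit 5) (nat_lit 43507) (nat_lit 8) (node (nat_lit 8) (nat_lit
  43024) (nat_lit 9) (node (nat_lit 4) (nat_lit 42294) (nat_lit 10) nil nil) nil) (node (nat_lit
  8) (nat_lit 46109) (nat_lit 8) (node (nat_lit 4) (nat_lit 47471) (nat_lit 9) nil nil) nil))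
  (node (nat_lit 8) (nat_lit 42463) (nat_lit 7) (node (nat_lit 4) (nat_lit 44779) (nat_lit 8)
  (node (nat_lit 8) (nat_lit 44739) (nat_lit 9) nil nil) (node (nat_lit 0) (nat_lit 47410)
  (nat_lit 8) nil nil)) (node (nat_lit 6) (nat_lit 42874) (nat_lit 7) nil (node (nat_lit 0)
  (nat_lit 42874) (nat_lit 7) nil nil)))) (node (nat_lit 4) (nat_lit 38149) (nat_lit 6) (node
  (nat_lit 5) (nat_lit 41865) (nat_lit 7) (node (nat_lit 4) (nat_lit 42912) (nat_lit 8) (node
  (nat_lit 8) (nat_lit 41656) (nat_lit 9) nil nil) (node (nat_lit 8) (nat_lit 41523) (nat_lit 8)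
  nil nil)) (node (nat_lit 6) (nat_lit 42731) (nat_lit 7) nil (node (nat_lit 0) (nat_lit 42731)
  (nat_lit 7) nil nil))) (node (nat_lit 0) (nat_lit 47355) (nat_lit 6) nil nil)))) (node (nat_lit
  0) (nat_lit 46959) (nat_lit 5) (node (nat_lit 5) (nat_lit 46959) (nat_lit 6) nil (node (nat_lit
  6) (nat_lit 48324) (nat_lit 6) nil (node (nat_lit 4) (nat_lit 46959) (nat_lit 6) nil (node
  (nat_lit 3) (nat_lit 46959) (nat_lit 6) nil (node (nat_lit 0) (nat_lit 48591) (nat_lit 6) nil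
  nil))))) nil)))) (node (nat_lit 3) (nat_lit 0) (nat_lit 4) (node (nat_lit 4) (nat_lit 33097)
  (nat_lit 5) (node (nat_lit 5) (nat_lit 36461) (nat_lit 6) (node (nat_lit 7) (nat_lit 38799)
  (nat_lit 7) (node (nat_lit 5) (nat_lit 40638) (nat_lit 8) nil nil) (node (nat_lit 4) (nat_lit
  38093) (nat_lit 7) nil (node (nat_lit 6) (nat_lit 15849) (nat_lit 7) nil (node (nat_lit 0)
  (nat_lit 41043) (nat_lit 7) nil nil)))) (node (nat_lit 6) (nat_lit 46711) (nat_lit 6) nil (node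
  (nat_lit 7) (nat_lit 36085) (nat_lit 6) (node (nat_lit 6) (nat_lit 40667) (nat_lit 7) nil (node
  (nat_lit 5) (nat_lit 36316) (nat_lit 7) nil nil)) (node (nat_lit 0) (nat_lit 40285) (nat_lit 6)
  nil nil)))) (node (nat_lit 5) (nat_lit 0) (nat_lit 5) (node (nat_lit 7) (nat_lit 37646) (nat_lit
  6) (node (nat_lit 6) (nat_lit 52023) (nat_lit 7) (node (nat_lit 5) (nat_lit 52023) (nat_lit 8)
  (node (nat_lit 6) (nat_lit 52618) (nat_lit 9) nil nil) nil) (node (nat_lit 4) (nat_lit 39278)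
  (nat_lit 7) nil (node (nat_lit 0) (nat_lit 42228) (nat_lit 7) nil nil))) (node (nat_lit 4)
  (nat_lit 38010) (nat_lit 6) (node (nat_lit 7) (nat_lit 40078) (nat_lit 7) (node (nat_lit 6)
  (nat_lit 45025) (nat_lit 8) nil (node (nat_lit 5) (nat_lit 39634) (nat_lit 8) nil nil)) (node
  (nat_lit 5) (nat_lit 39642) (nat_lit 7) nil (node (nat_lit 6) (nat_lit 42592) (nat_lit 7) nil
  nil))) (node (nat_lit 6) (nat_lit 40287) (nat_lit 6) nil (node (nat_lit 0) (nat_lit 47783)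
  (nat_lit 6) nil nil)))) (node (nat_lit 6) (nat_lit 46277) (nat_lit 5) (node (nat_lit 5) (nat_lit
  46193) (nat_lit 6) (node (nat_lit 6) (nat_lit 51975) (nat_lit 7) (node (nat_lit 7) (nat_lit
  51975) (nat_lit 8) (node (nat_lit 5) (nat_lit 51975) (nat_lit 9) (node (nat_lit 7) (nat_lit
  51975) (nat_lit 10) nil (node (nat_lit 6) (nat_lit 52744) (nat_lit 10) nil nil)) (node (nat_lit
  4) (nat_lit 51975) (nat_lit 9) nil (node (nat_lit 0) (nat_lit 52569) (nat_lit 9) nil nil))) nil)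
  nil) nil) (node (nat_lit 0) (nat_lit 45076) (nat_lit 5) (node (nat_lit 7) (nat_lit 45076)
  (nat_lit 6) nil nil) nil)))) (node (nat_lit 0) (nat_lit 0) (nat_lit 4) (node (nat_lit 5)
  (nat_lit 40319) (nat_lit 5) (node (nat_lit 6) (nat_lit 50871) (nat_lit 6) (node (nat_lit 5)
  (nat_lit 50952) (nat_lit 7) (node (nat_lit 7) (nat_lit 53145) (nat_lit 8) (node (nat_lit 5)
  (nat_lit 53145) (nat_lit 9) nil nil) (node (nat_lit 0) (nat_lit 51845) (nat_lit 8) nil nil))
  (node (nat_lit 4) (nat_lit 50871) (nat_lit 7) (node (nat_lit 7) (nat_lit 51764) (nat_lit 8) nil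
  nil) (node (nat_lit 3) (nat_lit 50871) (nat_lit 7) nil (node (nat_lit 0) (nat_lit 51754)
  (nat_lit 7) nil nil)))) (node (nat_lit 7) (nat_lit 50128) (nat_lit 6) (node (nat_lit 6) (nat_lit
  51010) (nat_lit 7) nil nil) (node (nat_lit 4) (nat_lit 40981) (nat_lit 6) (node (nat_lit 6)
  (nat_lit 43724) (nat_lit 7) nil (node (nat_lit 3) (nat_lit 40981) (nat_lit 7) nil nil)) (node
  (nat_lit 3) (nat_lit 40319) (nat_lit 6) nil (node (nat_lit 0) (nat_lit 46147) (nat_lit 6) nil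
  nil))))) (node (nat_lit 6) (nat_lit 47352) (nat_lit 5) (node (nat_lit 5) (nat_lit 47514)
  (nat_lit 6) (node (nat_lit 6) (nat_lit 52226) (nat_lit 7) (node (nat_lit 7) (nat_lit 52814)
  (nat_lit 8) (node (nat_lit 5) (nat_lit 52814) (nat_lit 9) nil nil) nil) (node (nat_lit 7)
  (nat_lit 49761) (nat_lit 7) nil nil)) (node (nat_lit 4) (nat_lit 47352) (nat_lit 6) nil nil))
  (node (nat_lit 4) (nat_lit 39406) (nat_lit 5) (node (nat_lit 6) (nat_lit 43916) (nat_lit 6) nil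
  (node (nat_lit 7) (nat_lit 43122) (nat_lit 6) nil (node (nat_lit 5) (nat_lit 39406) (nat_lit 6)
  nil nil))) (node (nat_lit 3) (nat_lit 39691) (nat_lit 5) (node (nat_lit 6) (nat_lit 41906)
  (nat_lit 6) nil nil) (node (nat_lit 0) (nat_lit 46326) (nat_lit 5) nil nil))))) nil))))

noncomputable def t381 : Tr :=
  (node (nat_lit 5) (nat_lit 0) (nat_lit 4) (node (nat_lit 4) (nat_lit 58944) (nat_lit 5) (node
  (nat_lit 6) (nat_lit 61634) (nat_lit 6) (node (nat_lit 4) (nat_lit 64686) (nat_lit 7) (node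
  (nat_lit 5) (nat_lit 74542) (nat_lit 8) (node (nat_lit 6) (nat_lit 74542) (nat_lit 9) (node
  (nat_lit 5) (nat_lit 63308) (nat_lit 10) (node (nat_lit 4) (nat_lit 37674) (nat_lit 11) nil nil)
  (node (nat_lit 4) (nat_lit 74542) (nat_lit 10) (node (nat_lit 6) (nat_lit 74542) (nat_lit 11)
  nil nil) nil)) (node (nat_lit 4) (nat_lit 74542) (nat_lit 9) (node (nat_lit 6) (nat_lit 74542)
  (nat_lit 10) (node (nat_lit 5) (nat_lit 74542) (nat_lit 11) nil (node (nat_lit 3) (nat_lit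
  74542) (nat_lit 11) nil nil)) (node (nat_lit 0) (nat_lit 74542) (nat_lit 10) nil (node (nat_lit
  3) (nat_lit 74542) (nat_lit 10) nil nil))) (node (nat_lit 3) (nat_lit 74542) (nat_lit 9) (node
  (nat_lit 4) (nat_lit 74542) (nat_lit 10) nil nil) (node (nat_lit 0) (nat_lit 74542) (nat_lit 9)
  nil nil)))) (node (nat_lit 3) (nat_lit 68694) (nat_lit 8) (node (nat_lit 6) (nat_lit 71794)
  (nat_lit 9) (node (nat_lit 4) (nat_lit 73624) (nat_lit 10) (node (nat_lit 6) (nat_lit 74249)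
  (nat_lit 11) (node (nat_lit 11) (nat_lit 74476) (nat_lit 12) (node (nat_lit 4) (nat_lit 73597)
  (nat_lit 13) nil nil) (node (nat_lit 5) (nat_lit 74542) (nat_lit 12) nil nil)) (node (nat_lit 5)
  (nat_lit 74542) (nat_lit 11) nil (node (nat_lit 0) (nat_lit 74542) (nat_lit 11) nil nil))) (node
  (nat_lit 11) (nat_lit 73434) (nat_lit 10) (node (nat_lit 4) (nat_lit 73220) (nat_lit 11) (node
  (nat_lit 6) (nat_lit 72838) (nat_lit 12) nil (node (nat_lit 11) (nat_lit 73333) (nat_lit 12) nil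
  (node (nat_lit 5) (nat_lit 69162) (nat_lit 12) (node (nat_lit 6) (nat_lit 69076) (nat_lit 13)
  nil nil) nil))) (node (nat_lit 5) (nat_lit 74542) (nat_lit 11) nil (node (nat_lit 0) (nat_lit
  74542) (nat_lit 11) nil nil))) (node (nat_lit 5) (nat_lit 74542) (nat_lit 10) nil (node (nat_lit
  0) (nat_lit 74501) (nat_lit 10) nil nil)))) (node (nat_lit 4) (nat_lit 71246) (nat_lit 9) (node
  (nat_lit 6) (nat_lit 72300) (nat_lit 10) (node (nat_lit 11) (nat_lit 72600) (nat_lit 11) (node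
  (nat_lit 4) (nat_lit 72888) (nat_lit 12) (node (nat_lit 5) (nat_lit 71986) (nat_lit 13) nil nil)
  (node (nat_lit 6) (nat_lit 72145) (nat_lit 12) nil nil)) (node (nat_lit 5) (nat_lit 73998)
  (nat_lit 11) nil (node (nat_lit 4) (nat_lit 69043) (nat_lit 11) (node (nat_lit 5) (nat_lit
  69287) (nat_lit 12) nil nil) (node (nat_lit 0) (nat_lit 73998) (nat_lit 11) nil nil)))) (node
  (nat_lit 5) (nat_lit 74143) (nat_lit 10) nil (node (nat_lit 0) (nat_lit 74143) (nat_lit 10) nil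
  nil))) (node (nat_lit 5) (nat_lit 74542) (nat_lit 9) (node (nat_lit 11) (nat_lit 74542) (nat_lit
  10) nil nil) (node (nat_lit 0) (nat_lit 74542) (nat_lit 9) nil nil)))) (node (nat_lit 0)
  (nat_lit 74542) (nat_lit 8) (node (nat_lit 6) (nat_lit 74542) (nat_lit 9) (node (nat_lit 4)
  (nat_lit 74542) (nat_lit 10) nil nil) (node (nat_lit 4) (nat_lit 74542) (nat_lit 9) nil (node
  (nat_lit 5) (nat_lit 74542) (nat_lit 9) nil (node (nat_lit 3) (nat_lit 74542) (nat_lit 9) nil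
  (node (nat_lit 0) (nat_lit 74542) (nat_lit 9) nil nil))))) nil))) (node (nat_lit 3) (nat_lit
  66020) (nat_lit 7) (node (nat_lit 4) (nat_lit 69261) (nat_lit 8) (node (nat_lit 10) (nat_lit
  71942) (nat_lit 9) (node (nat_lit 6) (nat_lit 72943) (nat_lit 10) (node (nat_lit 4) (nat_lit
  72037) (nat_lit 11) (node (nat_lit 5) (nat_lit 72188) (nat_lit 12) (node (nat_lit 6) (nat_lit
  69408) (nat_lit 13) nil nil) nil) (node (nat_lit 10) (nat_lit 73664) (nat_lit 11) (node (nat_lit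
  4) (nat_lit 71522) (nat_lit 12) nil nil) nil)) (node (nat_lit 5) (nat_lit 74395) (nat_lit 10)
  nil (node (nat_lit 0) (nat_lit 74395) (nat_lit 10) nil nil))) (node (nat_lit 6) (nat_lit 71940)
  (nat_lit 9) (node (nat_lit 4) (nat_lit 72122) (nat_lit 10) (node (nat_lit 10) (nat_lit 71686)
  (nat_lit 11) nil nil) (node (nat_lit 5) (nat_lit 74283) (nat_lit 10) nil nil)) (node (nat_lit 5)
  (nat_lit 73462) (nat_lit 9) nil (node (nat_lit 0) (nat_lit 73462) (nat_lit 9) nil nil)))) (node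
  (nat_lit 6) (nat_lit 69432) (nat_lit 8) (node (nat_lit 4) (nat_lit 72087) (nat_lit 9) (node
  (nat_lit 10) (nat_lit 72762) (nat_lit 10) (node (nat_lit 4) (nat_lit 71554) (nat_lit 11) nil
  (node (nat_lit 6) (nat_lit 72946) (nat_lit 11) (node (nat_lit 10) (nat_lit 72072) (nat_lit 12)
  nil nil) nil)) (node (nat_lit 6) (nat_lit 73154) (nat_lit 10) (node (nat_lit 10) (nat_lit 73188)
  (nat_lit 11) (node (nat_lit 4) (nat_lit 72770) (nat_lit 12) nil nil) nil) (node (nat_lit 5)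
  (nat_lit 74272) (nat_lit 10) nil (node (nat_lit 0) (nat_lit 74272) (nat_lit 10) nil nil))))
  (node (nat_lit 5) (nat_lit 74542) (nat_lit 9) nil (node (nat_lit 0) (nat_lit 74542) (nat_lit 9)
  nil nil))) (node (nat_lit 5) (nat_lit 74542) (nat_lit 8) nil (node (nat_lit 0) (nat_lit 74542)
  (nat_lit 8) nil nil)))) (node (nat_lit 0) (nat_lit 74254) (nat_lit 7) (node (nat_lit 5) (nat_lit
  74542) (nat_lit 8) nil (node (nat_lit 6) (nat_lit 74254) (nat_lit 8) (node (nat_lit 4) (nat_lit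
  74254) (nat_lit 9) nil (node (nat_lit 3) (nat_lit 74254) (nat_lit 9) nil nil)) (node (nat_lit 4)
  (nat_lit 74254) (nat_lit 8) nil (node (nat_lit 3) (nat_lit 74254) (nat_lit 8) nil (node (nat_lit
  0) (nat_lit 74542) (nat_lit 8) nil nil))))) (node (nat_lit 5) (nat_lit 69727) (nat_lit 7) nil
  nil)))) (node (nat_lit 5) (nat_lit 70499) (nat_lit 6) (node (nat_lit 6) (nat_lit 71007) (nat_lit
  7) (node (nat_lit 4) (nat_lit 71454) (nat_lit 8) (node (nat_lit 5) (nat_lit 74542) (nat_lit 9)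
  nil (node (nat_lit 6) (nat_lit 71136) (nat_lit 9) (node (nat_lit 5) (nat_lit 73254) (nat_lit 10)
  nil (node (nat_lit 3) (nat_lit 71136) (nat_lit 10) nil (node (nat_lit 0) (nat_lit 73254)
  (nat_lit 10) nil nil))) (node (nat_lit 3) (nat_lit 71371) (nat_lit 9) (node (nat_lit 6) (nat_lit
  71371) (nat_lit 10) nil nil) (node (nat_lit 0) (nat_lit 73257) (nat_lit 9) nil nil)))) (node
  (nat_lit 3) (nat_lit 71569) (nat_lit 8) (node (nat_lit 4) (nat_lit 71569) (nat_lit 9) nil (node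
  (nat_lit 6) (nat_lit 71569) (nat_lit 9) nil (node (nat_lit 5) (nat_lit 73321) (nat_lit 9) nil
  (node (nat_lit 0) (nat_lit 73321) (nat_lit 9) nil nil)))) (node (nat_lit 0) (nat_lit 74341)
  (nat_lit 8) nil nil))) (node (nat_lit 3) (nat_lit 72306) (nat_lit 7) (node (nat_lit 4) (nat_lit
  72611) (nat_lit 8) (node (nat_lit 5) (nat_lit 74018) (nat_lit 9) nil (node (nat_lit 10) (nat_lit
  72611) (nat_lit 9) (node (nat_lit 5) (nat_lit 74115) (nat_lit 10) nil nil) (node (nat_lit 6)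
  (nat_lit 72611) (nat_lit 9) nil (node (nat_lit 0) (nat_lit 74018) (nat_lit 9) nil nil)))) (node
  (nat_lit 6) (nat_lit 72133) (nat_lit 8) (node (nat_lit 4) (nat_lit 72133) (nat_lit 9) nil (node
  (nat_lit 5) (nat_lit 73882) (nat_lit 9) nil nil)) (node (nat_lit 5) (nat_lit 74350) (nat_lit 8)
  nil (node (nat_lit 0) (nat_lit 74308) (nat_lit 8) nil nil)))) (node (nat_lit 0) (nat_lit 74218)
  (nat_lit 7) (node (nat_lit 4) (nat_lit 74218) (nat_lit 8) nil (node (nat_lit 6) (nat_lit 74218)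
  (nat_lit 8) nil (node (nat_lit 3) (nat_lit 74218) (nat_lit 8) nil (node (nat_lit 5) (nat_lit
  74542) (nat_lit 8) nil (node (nat_lit 0) (nat_lit 74542) (nat_lit 8) nil nil))))) nil))) (node
  (nat_lit 3) (nat_lit 62877) (nat_lit 6) (node (nat_lit 6) (nat_lit 65725) (nat_lit 7) (node
  (nat_lit 4) (nat_lit 68433) (nat_lit 8) (node (nat_lit 6) (nat_lit 70648) (nat_lit 9) (node
  (nat_lit 9) (nat_lit 70565) (nat_lit 10) (node (nat_lit 4) (nat_lit 69641) (nat_lit 11) nil nil)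
  nil) (node (nat_lit 9) (nat_lit 70447) (nat_lit 9) nil nil)) (node (nat_lit 9) (nat_lit 67778)
  (nat_lit 8) (node (nat_lit 4) (nat_lit 67625) (nat_lit 9) nil (node (nat_lit 5) (nat_lit 71980)
  (nat_lit 9) nil nil)) (node (nat_lit 5) (nat_lit 73817) (nat_lit 8) nil (node (nat_lit 0)
  (nat_lit 73817) (nat_lit 8) nil nil)))) (node (nat_lit 4) (nat_lit 65217) (nat_lit 7) (node
  (nat_lit 5) (nat_lit 73450) (nat_lit 8) nil (node (nat_lit 6) (nat_lit 67183) (nat_lit 8) (node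
  (nat_lit 4) (nat_lit 67465) (nat_lit 9) (node (nat_lit 9) (nat_lit 65168) (nat_lit 10) nil nil)
  (node (nat_lit 5) (nat_lit 71385) (nat_lit 9) nil (node (nat_lit 9) (nat_lit 67148) (nat_lit 9)
  nil nil))) (node (nat_lit 0) (nat_lit 73450) (nat_lit 8) nil nil))) (node (nat_lit 5) (nat_lit
  74376) (nat_lit 7) (node (nat_lit 4) (nat_lit 74376) (nat_lit 8) nil (node (nat_lit 9) (nat_lit
  74376) (nat_lit 8) nil nil)) (node (nat_lit 0) (nat_lit 73660) (nat_lit 7) nil nil)))) (node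
  (nat_lit 0) (nat_lit 71966) (nat_lit 6) (node (nat_lit 5) (nat_lit 73564) (nat_lit 7) nil (node
  (nat_lit 6) (nat_lit 71966) (nat_lit 7) nil (node (nat_lit 4) (nat_lit 71966) (nat_lit 7) (node
  (nat_lit 0) (nat_lit 73373) (nat_lit 8) nil nil) (node (nat_lit 3) (nat_lit 71966) (nat_lit 7)
  (node (nat_lit 4) (nat_lit 71966) (nat_lit 8) nil nil) (node (nat_lit 0) (nat_lit 73564)
  (nat_lit 7) nil nil))))) nil)))) (node (nat_lit 3) (nat_lit 62192) (nat_lit 5) (node (nat_lit 6)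
  (nat_lit 64314) (nat_lit 6) (node (nat_lit 8) (nat_lit 66564) (nat_lit 7) (node (nat_lit 5)
  (nat_lit 74542) (nat_lit 8) (node (nat_lit 8) (nat_lit 74542) (nat_lit 9) (node (nat_lit 6)
  (nat_lit 74542) (nat_lit 10) (node (nat_lit 5) (nat_lit 74542) (nat_lit 11) (node (nat_lit 6)
  (nat_lit 74542) (nat_lit 12) (node (nat_lit 8) (nat_lit 74542) (nat_lit 13) nil nil) nil) nil)
  (node (nat_lit 4) (nat_lit 74542) (nat_lit 10) nil (node (nat_lit 0) (nat_lit 74542) (nat_lit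
  10) nil nil))) (node (nat_lit 6) (nat_lit 74542) (nat_lit 9) nil (node (nat_lit 4) (nat_lit
  74542) (nat_lit 9) nil (node (nat_lit 0) (nat_lit 74542) (nat_lit 9) nil nil)))) (node (nat_lit
  4) (nat_lit 69231) (nat_lit 8) (node (nat_lit 6) (nat_lit 72615) (nat_lit 9) (node (nat_lit 4)
  (nat_lit 72466) (nat_lit 10) nil (node (nat_lit 8) (nat_lit 72497) (nat_lit 10) nil nil)) (node
  (nat_lit 5) (nat_lit 73097) (nat_lit 9) nil (node (nat_lit 8) (nat_lit 71902) (nat_lit 9) (node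
  (nat_lit 6) (nat_lit 71708) (nat_lit 10) (node (nat_lit 4) (nat_lit 70595) (nat_lit 11) nil nil)
  nil) (node (nat_lit 0) (nat_lit 73759) (nat_lit 9) nil nil)))) (node (nat_lit 0) (nat_lit 74542)
  (nat_lit 8) (node (nat_lit 5) (nat_lit 74542) (nat_lit 9) nil nil) nil))) (node (nat_lit 4)
  (nat_lit 67053) (nat_lit 7) (node (nat_lit 8) (nat_lit 69923) (nat_lit 8) (node (nat_lit 5)
  (nat_lit 74542) (nat_lit 9) nil (node (nat_lit 4) (nat_lit 71984) (nat_lit 9) (node (nat_lit 6)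
  (nat_lit 70798) (nat_lit 10) (node (nat_lit 4) (nat_lit 69463) (nat_lit 11) nil (node (nat_lit
  8) (nat_lit 69109) (nat_lit 11) nil nil)) nil) (node (nat_lit 6) (nat_lit 72177) (nat_lit 9)
  (node (nat_lit 8) (nat_lit 72168) (nat_lit 10) (node (nat_lit 4) (nat_lit 71249) (nat_lit 11)
  nil nil) (node (nat_lit 5) (nat_lit 73790) (nat_lit 10) nil nil)) (node (nat_lit 0) (nat_lit
  73785) (nat_lit 9) nil nil)))) (node (nat_lit 5) (nat_lit 74419) (nat_lit 8) nil (node (nat_lit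
  6) (nat_lit 69950) (nat_lit 8) (node (nat_lit 8) (nat_lit 72607) (nat_lit 9) (node (nat_lit 6)
  (nat_lit 72916) (nat_lit 10) (node (nat_lit 4) (nat_lit 72414) (nat_lit 11) (node (nat_lit 5)
  (nat_lit 72011) (nat_lit 12) nil nil) nil) (node (nat_lit 4) (nat_lit 72488) (nat_lit 10) nil
  (node (nat_lit 5) (nat_lit 74542) (nat_lit 10) nil nil))) (node (nat_lit 5) (nat_lit 73816)
  (nat_lit 9) nil (node (nat_lit 0) (nat_lit 73816) (nat_lit 9) nil nil))) (node (nat_lit 0)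
  (nat_lit 74419) (nat_lit 8) nil nil)))) (node (nat_lit 5) (nat_lit 71388) (nat_lit 7) nil (node
  (nat_lit 0) (nat_lit 74321) (nat_lit 7) (node (nat_lit 6) (nat_lit 74321) (nat_lit 8) nil (node
  (nat_lit 5) (nat_lit 74524) (nat_lit 8) nil (node (nat_lit 8) (nat_lit 74321) (nat_lit 8) nil
  nil))) nil)))) (node (nat_lit 4) (nat_lit 64102) (nat_lit 6) (node (nat_lit 5) (nat_lit 67326)
  (nat_lit 7) nil (node (nat_lit 6) (nat_lit 66330) (nat_lit 7) (node (nat_lit 4) (nat_lit 66330)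
  (nat_lit 8) nil (node (nat_lit 8) (nat_lit 68127) (nat_lit 8) nil nil)) (node (nat_lit 8)
  (nat_lit 65958) (nat_lit 7) (node (nat_lit 5) (nat_lit 73953) (nat_lit 8) nil (node (nat_lit 6)
  (nat_lit 65958) (nat_lit 8) nil (node (nat_lit 0) (nat_lit 69576) (nat_lit 8) nil nil))) (node
  (nat_lit 0) (nat_lit 67326) (nat_lit 7) nil nil)))) (node (nat_lit 5) (nat_lit 72714) (nat_lit
  6) (node (nat_lit 4) (nat_lit 72714) (nat_lit 7) nil nil) (node (nat_lit 0) (nat_lit 73127)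
  (nat_lit 6) (node (nat_lit 8) (nat_lit 73127) (nat_lit 7) nil nil) nil)))) (node (nat_lit 0)
  (nat_lit 68270) (nat_lit 5) (node (nat_lit 6) (nat_lit 68158) (nat_lit 6) (node (nat_lit 8)
  (nat_lit 71748) (nat_lit 7) nil (node (nat_lit 4) (nat_lit 68158) (nat_lit 7) nil (node (nat_lit
  5) (nat_lit 69695) (nat_lit 7) nil (node (nat_lit 3) (nat_lit 68158) (nat_lit 7) nil (node
  (nat_lit 0) (nat_lit 69695) (nat_lit 7) nil nil))))) (node (nat_lit 4) (nat_lit 68270) (nat_lit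
  6) (node (nat_lit 5) (nat_lit 69807) (nat_lit 7) nil (node (nat_lit 3) (nat_lit 68270) (nat_lit
  7) nil (node (nat_lit 6) (nat_lit 68270) (nat_lit 7) nil (node (nat_lit 8) (nat_lit 69807)
  (nat_lit 7) nil nil)))) (node (nat_lit 5) (nat_lit 71667) (nat_lit 6) (node (nat_lit 6) (nat_lit
  71667) (nat_lit 7) nil nil) (node (nat_lit 3) (nat_lit 68270) (nat_lit 6) (node (nat_lit 5)
  (nat_lit 69807) (nat_lit 7) nil (node (nat_lit 8) (nat_lit 69807) (nat_lit 7) nil (node (nat_lit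
  6) (nat_lit 68270) (nat_lit 7) nil nil))) (node (nat_lit 0) (nat_lit 71546) (nat_lit 6) nil
  nil))))) nil))) (node (nat_lit 3) (nat_lit 0) (nat_lit 4) (node (nat_lit 4) (nat_lit 47665)
  (nat_lit 5) (node (nat_lit 5) (nat_lit 46732) (nat_lit 6) (node (nat_lit 6) (nat_lit 36003)
  (nat_lit 7) nil nil) (node (nat_lit 6) (nat_lit 54333) (nat_lit 6) (node (nat_lit 4) (nat_lit
  58606) (nat_lit 7) (node (nat_lit 7) (nat_lit 60264) (nat_lit 8) (node (nat_lit 6) (nat_lit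
  60217) (nat_lit 9) nil (node (nat_lit 4) (nat_lit 61989) (nat_lit 9) (node (nat_lit 5) (nat_lit
  65650) (nat_lit 10) nil nil) nil)) (node (nat_lit 5) (nat_lit 55925) (nat_lit 8) nil nil)) (node
  (nat_lit 7) (nat_lit 58889) (nat_lit 7) (node (nat_lit 6) (nat_lit 60586) (nat_lit 8) (node
  (nat_lit 4) (nat_lit 60186) (nat_lit 9) (node (nat_lit 6) (nat_lit 60976) (nat_lit 10) nil (node
  (nat_lit 7) (nat_lit 60342) (nat_lit 10) (node (nat_lit 4) (nat_lit 58867) (nat_lit 11) nil nil)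
  (node (nat_lit 5) (nat_lit 60237) (nat_lit 10) nil nil))) nil) (node (nat_lit 5) (nat_lit 64694)
  (nat_lit 8) nil nil)) (node (nat_lit 5) (nat_lit 62762) (nat_lit 7) nil (node (nat_lit 0)
  (nat_lit 62762) (nat_lit 7) nil nil)))) (node (nat_lit 7) (nat_lit 54199) (nat_lit 6) (node
  (nat_lit 6) (nat_lit 60655) (nat_lit 7) (node (nat_lit 4) (nat_lit 63849) (nat_lit 8) (node
  (nat_lit 6) (nat_lit 65632) (nat_lit 9) (node (nat_lit 7) (nat_lit 65533) (nat_lit 10) (node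
  (nat_lit 4) (nat_lit 61932) (nat_lit 11) nil nil) nil) nil) (node (nat_lit 7) (nat_lit 61268)
  (nat_lit 8) (node (nat_lit 4) (nat_lit 62140) (nat_lit 9) (node (nat_lit 5) (nat_lit 66060)
  (nat_lit 10) nil nil) nil) (node (nat_lit 5) (nat_lit 66459) (nat_lit 8) nil nil))) (node
  (nat_lit 5) (nat_lit 68843) (nat_lit 7) nil (node (nat_lit 0) (nat_lit 62628) (nat_lit 7) nil
  nil))) (node (nat_lit 0) (nat_lit 64689) (nat_lit 6) nil nil)))) (node (nat_lit 5) (nat_lit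
  68895) (nat_lit 5) (node (nat_lit 7) (nat_lit 69146) (nat_lit 6) (node (nat_lit 6) (nat_lit
  69279) (nat_lit 7) (node (nat_lit 7) (nat_lit 70555) (nat_lit 8) (node (nat_lit 0) (nat_lit
  74542) (nat_lit 9) nil (node (nat_lit 4) (nat_lit 71009) (nat_lit 9) (node (nat_lit 6) (nat_lit
  71567) (nat_lit 10) (node (nat_lit 7) (nat_lit 71389) (nat_lit 11) (node (nat_lit 6) (nat_lit
  71413) (nat_lit 12) nil nil) nil) (node (nat_lit 7) (nat_lit 71256) (nat_lit 10) nil nil)) nil))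
  (node (nat_lit 5) (nat_lit 71211) (nat_lit 8) nil (node (nat_lit 4) (nat_lit 69279) (nat_lit 8)
  nil nil))) nil) (node (nat_lit 4) (nat_lit 68139) (nat_lit 6) (node (nat_lit 6) (nat_lit 68139)
  (nat_lit 7) (node (nat_lit 4) (nat_lit 68139) (nat_lit 8) nil (node (nat_lit 5) (nat_lit 70070)
  (nat_lit 8) nil (node (nat_lit 7) (nat_lit 68139) (nat_lit 8) nil (node (nat_lit 0) (nat_lit
  70070) (nat_lit 8) nil nil)))) (node (nat_lit 7) (nat_lit 68139) (nat_lit 7) nil (node (nat_lit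
  5) (nat_lit 69676) (nat_lit 7) nil nil))) (node (nat_lit 6) (nat_lit 69137) (nat_lit 6) (node
  (nat_lit 5) (nat_lit 73640) (nat_lit 7) (node (nat_lit 7) (nat_lit 73640) (nat_lit 8) (node
  (nat_lit 6) (nat_lit 73640) (nat_lit 9) nil nil) nil) nil) (node (nat_lit 0) (nat_lit 69863)
  (nat_lit 6) nil nil)))) (node (nat_lit 6) (nat_lit 0) (nat_lit 5) (node (nat_lit 4) (nat_lit
  55719) (nat_lit 6) (node (nat_lit 7) (nat_lit 64348) (nat_lit 7) (node (nat_lit 4) (nat_lit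
  68562) (nat_lit 8) (node (nat_lit 6) (nat_lit 69855) (nat_lit 9) (node (nat_lit 4) (nat_lit
  68073) (nat_lit 10) (node (nat_lit 7) (nat_lit 67828) (nat_lit 11) (node (nat_lit 6) (nat_lit
  66493) (nat_lit 12) nil nil) nil) (node (nat_lit 7) (nat_lit 67453) (nat_lit 10) nil nil)) nil)
  (node (nat_lit 5) (nat_lit 70153) (nat_lit 8) nil (node (nat_lit 6) (nat_lit 64251) (nat_lit 8)
  nil (node (nat_lit 0) (nat_lit 70153) (nat_lit 8) nil nil)))) (node (nat_lit 5) (nat_lit 58829)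
  (nat_lit 7) (node (nat_lit 6) (nat_lit 45518) (nat_lit 8) (node (nat_lit 7) (nat_lit 34843)
  (nat_lit 9) nil nil) nil) (node (nat_lit 6) (nat_lit 60110) (nat_lit 7) (node (nat_lit 7)
  (nat_lit 59702) (nat_lit 8) (node (nat_lit 4) (nat_lit 57645) (nat_lit 9) nil (node (nat_lit 6)
  (nat_lit 57966) (nat_lit 9) nil nil)) nil) (node (nat_lit 0) (nat_lit 64148) (nat_lit 7) nil
  nil)))) (node (nat_lit 5) (nat_lit 70558) (nat_lit 6) nil (node (nat_lit 0) (nat_lit 64889)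
  (nat_lit 6) nil nil))) (node (nat_lit 0) (nat_lit 67049) (nat_lit 5) nil nil)))) (node (nat_lit
  0) (nat_lit 0) (nat_lit 4) (node (nat_lit 5) (nat_lit 66768) (nat_lit 5) (node (nat_lit 6)
  (nat_lit 66768) (nat_lit 6) nil nil) (node (nat_lit 6) (nat_lit 60840) (nat_lit 5) (node
  (nat_lit 5) (nat_lit 66256) (nat_lit 6) nil (node (nat_lit 4) (nat_lit 60840) (nat_lit 6) (node
  (nat_lit 7) (nat_lit 64063) (nat_lit 7) nil (node (nat_lit 6) (nat_lit 60840) (nat_lit 7) nil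
  nil)) (node (nat_lit 3) (nat_lit 60840) (nat_lit 6) nil (node (nat_lit 0) (nat_lit 63494)
  (nat_lit 6) nil nil)))) (node (nat_lit 4) (nat_lit 59909) (nat_lit 5) (node (nat_lit 6) (nat_lit
  59909) (nat_lit 6) (node (nat_lit 4) (nat_lit 59909) (nat_lit 7) nil (node (nat_lit 7) (nat_lit
  63133) (nat_lit 7) nil nil)) (node (nat_lit 7) (nat_lit 65324) (nat_lit 6) nil (node (nat_lit 3)
  (nat_lit 59909) (nat_lit 6) nil (node (nat_lit 5) (nat_lit 62563) (nat_lit 6) nil (node (nat_lit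
  0) (nat_lit 62563) (nat_lit 6) nil nil))))) (node (nat_lit 3) (nat_lit 60480) (nat_lit 5) (node
  (nat_lit 6) (nat_lit 60480) (nat_lit 6) nil (node (nat_lit 7) (nat_lit 63135) (nat_lit 6) nil
  (node (nat_lit 4) (nat_lit 60480) (nat_lit 6) nil (node (nat_lit 5) (nat_lit 63135) (nat_lit 6)
  nil (node (nat_lit 0) (nat_lit 63135) (nat_lit 6) nil nil))))) (node (nat_lit 0) (nat_lit 65930)
  (nat_lit 5) nil nil))))) nil)))

noncomputable def t382 : Tr :=
  (node (nat_lit 3) (nat_lit 0) (nat_lit 3) (node (nat_lit 4) (nat_lit 0) (nat_lit 4) (node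
  (nat_lit 6) (nat_lit 44462) (nat_lit 5) (node (nat_lit 5) (nat_lit 70074) (nat_lit 6) (node
  (nat_lit 6) (nat_lit 70074) (nat_lit 7) (node (nat_lit 0) (nat_lit 72029) (nat_lit 8) nil (node
  (nat_lit 3) (nat_lit 70622) (nat_lit 8) nil nil)) (node (nat_lit 4) (nat_lit 70074) (nat_lit 7)
  (node (nat_lit 6) (nat_lit 70074) (nat_lit 8) (node (nat_lit 4) (nat_lit 70074) (nat_lit 9) nil
  nil) (node (nat_lit 5) (nat_lit 71468) (nat_lit 8) nil nil)) (node (nat_lit 3) (nat_lit 70622)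
  (nat_lit 7) nil (node (nat_lit 0) (nat_lit 71398) (nat_lit 7) nil nil)))) (node (nat_lit 3)
  (nat_lit 55001) (nat_lit 6) (node (nat_lit 4) (nat_lit 61708) (nat_lit 7) (node (nat_lit 9)
  (nat_lit 66264) (nat_lit 8) (node (nat_lit 6) (nat_lit 67068) (nat_lit 9) (node (nat_lit 9)
  (nat_lit 67304) (nat_lit 10) (node (nat_lit 4) (nat_lit 64068) (nat_lit 11) nil nil) (node
  (nat_lit 4) (nat_lit 65651) (nat_lit 10) (node (nat_lit 5) (nat_lit 61824) (nat_lit 11) nil nil)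
  (node (nat_lit 5) (nat_lit 69965) (nat_lit 10) nil nil))) nil) (node (nat_lit 6) (nat_lit 62104)
  (nat_lit 8) (node (nat_lit 4) (nat_lit 61833) (nat_lit 9) nil nil) (node (nat_lit 5) (nat_lit
  62969) (nat_lit 8) (node (nat_lit 6) (nat_lit 59262) (nat_lit 9) (node (nat_lit 4) (nat_lit
  47212) (nat_lit 10) nil nil) nil) (node (nat_lit 0) (nat_lit 67666) (nat_lit 8) nil nil))))
  (node (nat_lit 6) (nat_lit 62275) (nat_lit 7) (node (nat_lit 4) (nat_lit 64467) (nat_lit 8)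
  (node (nat_lit 9) (nat_lit 64674) (nat_lit 9) nil nil) (node (nat_lit 5) (nat_lit 68233)
  (nat_lit 8) nil (node (nat_lit 0) (nat_lit 68233) (nat_lit 8) nil nil))) (node (nat_lit 5)
  (nat_lit 69700) (nat_lit 7) nil (node (nat_lit 0) (nat_lit 69700) (nat_lit 7) nil nil)))) (node
  (nat_lit 0) (nat_lit 68284) (nat_lit 6) nil nil))) (node (nat_lit 5) (nat_lit 0) (nat_lit 5)
  (node (nat_lit 4) (nat_lit 34245) (nat_lit 6) (node (nat_lit 6) (nat_lit 34803) (nat_lit 7)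
  (node (nat_lit 4) (nat_lit 35695) (nat_lit 8) (node (nat_lit 5) (nat_lit 37674) (nat_lit 9)
  (node (nat_lit 6) (nat_lit 37674) (nat_lit 10) nil nil) (node (nat_lit 0) (nat_lit 37674)
  (nat_lit 9) (node (nat_lit 6) (nat_lit 37674) (nat_lit 10) nil nil) (node (nat_lit 3) (nat_lit
  36297) (nat_lit 9) (node (nat_lit 6) (nat_lit 36890) (nat_lit 10) (node (nat_lit 4) (nat_lit
  36945) (nat_lit 11) nil (node (nat_lit 12) (nat_lit 35654) (nat_lit 11) nil nil)) (node (nat_lit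
  4) (nat_lit 36618) (nat_lit 10) nil (node (nat_lit 5) (nat_lit 37432) (nat_lit 10) nil (node
  (nat_lit 0) (nat_lit 37432) (nat_lit 10) nil nil)))) nil))) (node (nat_lit 5) (nat_lit 37674)
  (nat_lit 8) (node (nat_lit 6) (nat_lit 37674) (nat_lit 9) nil nil) (node (nat_lit 3) (nat_lit
  34513) (nat_lit 8) (node (nat_lit 6) (nat_lit 34513) (nat_lit 9) nil nil) (node (nat_lit 0)
  (nat_lit 37566) (nat_lit 8) nil nil)))) (node (nat_lit 3) (nat_lit 34245) (nat_lit 7) nil (node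
  (nat_lit 0) (nat_lit 36724) (nat_lit 7) nil nil))) (node (nat_lit 3) (nat_lit 34335) (nat_lit 6)
  (node (nat_lit 6) (nat_lit 34456) (nat_lit 7) (node (nat_lit 4) (nat_lit 34467) (nat_lit 8)
  (node (nat_lit 6) (nat_lit 34467) (nat_lit 9) nil (node (nat_lit 9) (nat_lit 34467) (nat_lit 9)
  nil nil)) (node (nat_lit 9) (nat_lit 34996) (nat_lit 8) (node (nat_lit 4) (nat_lit 34996)
  (nat_lit 9) nil nil) (node (nat_lit 5) (nat_lit 36489) (nat_lit 8) nil (node (nat_lit 0)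
  (nat_lit 35367) (nat_lit 8) nil nil)))) (node (nat_lit 4) (nat_lit 34335) (nat_lit 7) nil (node
  (nat_lit 5) (nat_lit 35043) (nat_lit 7) nil nil))) (node (nat_lit 0) (nat_lit 35442) (nat_lit 6)
  nil nil))) (node (nat_lit 3) (nat_lit 46549) (nat_lit 5) (node (nat_lit 5) (nat_lit 69411)
  (nat_lit 6) nil (node (nat_lit 6) (nat_lit 54713) (nat_lit 6) (node (nat_lit 8) (nat_lit 61164)
  (nat_lit 7) (node (nat_lit 4) (nat_lit 63468) (nat_lit 8) (node (nat_lit 8) (nat_lit 63626)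
  (nat_lit 9) nil (node (nat_lit 6) (nat_lit 61604) (nat_lit 9) nil nil)) (node (nat_lit 5)
  (nat_lit 66968) (nat_lit 8) nil nil)) (node (nat_lit 4) (nat_lit 62158) (nat_lit 7) (node
  (nat_lit 6) (nat_lit 64729) (nat_lit 8) (node (nat_lit 8) (nat_lit 64540) (nat_lit 9) (node
  (nat_lit 4) (nat_lit 62923) (nat_lit 10) (node (nat_lit 8) (nat_lit 62745) (nat_lit 11) nil nil)
  nil) nil) nil) (node (nat_lit 5) (nat_lit 63143) (nat_lit 7) nil (node (nat_lit 0) (nat_lit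
  63143) (nat_lit 7) nil nil)))) (node (nat_lit 4) (nat_lit 54107) (nat_lit 6) (node (nat_lit 6)
  (nat_lit 59533) (nat_lit 7) (node (nat_lit 8) (nat_lit 58321) (nat_lit 8) (node (nat_lit 4)
  (nat_lit 60423) (nat_lit 9) nil nil) (node (nat_lit 4) (nat_lit 61000) (nat_lit 8) (node
  (nat_lit 8) (nat_lit 59885) (nat_lit 9) (node (nat_lit 6) (nat_lit 59022) (nat_lit 10) nil nil)
  nil) nil)) (node (nat_lit 5) (nat_lit 57623) (nat_lit 7) nil (node (nat_lit 0) (nat_lit 62536)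
  (nat_lit 7) nil nil))) (node (nat_lit 0) (nat_lit 63742) (nat_lit 6) nil nil)))) (node (nat_lit
  0) (nat_lit 67027) (nat_lit 5) (node (nat_lit 6) (nat_lit 67027) (nat_lit 6) nil (node (nat_lit
  4) (nat_lit 67027) (nat_lit 6) nil (node (nat_lit 5) (nat_lit 67994) (nat_lit 6) nil (node
  (nat_lit 0) (nat_lit 67994) (nat_lit 6) nil nil)))) nil)))) t381) (node (nat_lit 4) (nat_lit 0)
  (nat_lit 3) (node (nat_lit 3) (nat_lit 0) (nat_lit 4) (node (nat_lit 4) (nat_lit 43353) (nat_lit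
  5) (node (nat_lit 5) (nat_lit 58651) (nat_lit 6) (node (nat_lit 4) (nat_lit 35096) (nat_lit 7)
  (node (nat_lit 0) (nat_lit 35096) (nat_lit 8) nil nil) (node (nat_lit 7) (nat_lit 58651)
  (nat_lit 7) (node (nat_lit 4) (nat_lit 58651) (nat_lit 8) (node (nat_lit 7) (nat_lit 58651)
  (nat_lit 9) (node (nat_lit 5) (nat_lit 60015) (nat_lit 10) nil nil) nil) (node (nat_lit 5)
  (nat_lit 59827) (nat_lit 8) nil (node (nat_lit 3) (nat_lit 59220) (nat_lit 8) nil (node (nat_lit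
  0) (nat_lit 60125) (nat_lit 8) nil nil)))) (node (nat_lit 3) (nat_lit 59220) (nat_lit 7) nil
  (node (nat_lit 0) (nat_lit 59717) (nat_lit 7) nil nil)))) (node (nat_lit 3) (nat_lit 53871)
  (nat_lit 6) (node (nat_lit 7) (nat_lit 59643) (nat_lit 7) (node (nat_lit 9) (nat_lit 60231)
  (nat_lit 8) (node (nat_lit 4) (nat_lit 55629) (nat_lit 9) (node (nat_lit 7) (nat_lit 54651)
  (nat_lit 10) nil (node (nat_lit 9) (nat_lit 55745) (nat_lit 10) nil (node (nat_lit 5) (nat_lit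
  60242) (nat_lit 10) nil nil))) nil) (node (nat_lit 4) (nat_lit 61646) (nat_lit 8) nil nil))
  (node (nat_lit 4) (nat_lit 59573) (nat_lit 7) (node (nat_lit 7) (nat_lit 58819) (nat_lit 8)
  (node (nat_lit 9) (nat_lit 55710) (nat_lit 9) nil nil) (node (nat_lit 5) (nat_lit 63915)
  (nat_lit 8) nil (node (nat_lit 0) (nat_lit 66065) (nat_lit 8) nil nil))) (node (nat_lit 5)
  (nat_lit 63006) (nat_lit 7) nil (node (nat_lit 0) (nat_lit 63006) (nat_lit 7) nil nil)))) (node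
  (nat_lit 0) (nat_lit 65693) (nat_lit 6) nil nil))) (node (nat_lit 5) (nat_lit 64771) (nat_lit 5)
  (node (nat_lit 7) (nat_lit 64689) (nat_lit 6) (node (nat_lit 4) (nat_lit 64689) (nat_lit 7)
  (node (nat_lit 5) (nat_lit 67143) (nat_lit 8) (node (nat_lit 4) (nat_lit 67143) (nat_lit 9)
  (node (nat_lit 7) (nat_lit 67143) (nat_lit 10) (node (nat_lit 5) (nat_lit 35096) (nat_lit 11)
  nil nil) nil) nil) (node (nat_lit 7) (nat_lit 64689) (nat_lit 8) (node (nat_lit 5) (nat_lit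
  67550) (nat_lit 9) nil (node (nat_lit 3) (nat_lit 64689) (nat_lit 9) nil nil)) (node (nat_lit 3)
  (nat_lit 65211) (nat_lit 8) nil (node (nat_lit 0) (nat_lit 67770) (nat_lit 8) nil nil)))) (node
  (nat_lit 3) (nat_lit 65211) (nat_lit 7) nil (node (nat_lit 0) (nat_lit 67178) (nat_lit 7) nil
  nil))) (node (nat_lit 3) (nat_lit 65767) (nat_lit 6) nil (node (nat_lit 4) (nat_lit 64771)
  (nat_lit 6) nil (node (nat_lit 0) (nat_lit 66496) (nat_lit 6) nil nil)))) (node (nat_lit 3)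
  (nat_lit 45559) (nat_lit 5) (node (nat_lit 4) (nat_lit 53756) (nat_lit 6) (node (nat_lit 8)
  (nat_lit 59774) (nat_lit 7) (node (nat_lit 7) (nat_lit 61794) (nat_lit 8) (node (nat_lit 4)
  (nat_lit 59746) (nat_lit 9) (node (nat_lit 8) (nat_lit 60131) (nat_lit 10) nil (node (nat_lit 7)
  (nat_lit 59760) (nat_lit 10) nil nil)) (node (nat_lit 8) (nat_lit 62517) (nat_lit 9) nil nil))
  (node (nat_lit 5) (nat_lit 66035) (nat_lit 8) nil nil)) (node (nat_lit 7) (nat_lit 60206)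
  (nat_lit 7) (node (nat_lit 4) (nat_lit 62849) (nat_lit 8) (node (nat_lit 8) (nat_lit 62118)
  (nat_lit 9) (node (nat_lit 4) (nat_lit 56828) (nat_lit 10) nil nil) (node (nat_lit 5) (nat_lit
  64349) (nat_lit 9) nil nil)) nil) (node (nat_lit 5) (nat_lit 54198) (nat_lit 7) (node (nat_lit
  4) (nat_lit 42061) (nat_lit 8) nil nil) (node (nat_lit 0) (nat_lit 63068) (nat_lit 7) nil
  nil)))) (node (nat_lit 7) (nat_lit 52959) (nat_lit 6) (node (nat_lit 4) (nat_lit 58632) (nat_lit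
  7) (node (nat_lit 8) (nat_lit 61900) (nat_lit 8) (node (nat_lit 4) (nat_lit 62384) (nat_lit 9)
  (node (nat_lit 7) (nat_lit 62683) (nat_lit 10) (node (nat_lit 8) (nat_lit 61051) (nat_lit 11)
  nil nil) (node (nat_lit 5) (nat_lit 66204) (nat_lit 10) nil nil)) nil) (node (nat_lit 7)
  (nat_lit 61554) (nat_lit 8) (node (nat_lit 8) (nat_lit 61750) (nat_lit 9) (node (nat_lit 4)
  (nat_lit 56459) (nat_lit 10) nil nil) nil) (node (nat_lit 5) (nat_lit 55266) (nat_lit 8) nil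
  nil))) (node (nat_lit 5) (nat_lit 62272) (nat_lit 7) nil (node (nat_lit 0) (nat_lit 62272)
  (nat_lit 7) nil nil))) (node (nat_lit 5) (nat_lit 63670) (nat_lit 6) nil (node (nat_lit 0)
  (nat_lit 63670) (nat_lit 6) nil nil)))) (node (nat_lit 0) (nat_lit 64638) (nat_lit 5) (node
  (nat_lit 4) (nat_lit 64638) (nat_lit 6) nil (node (nat_lit 7) (nat_lit 64638) (nat_lit 6) nil
  nil)) nil)))) (node (nat_lit 0) (nat_lit 0) (nat_lit 4) (node (nat_lit 5) (nat_lit 68745)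
  (nat_lit 5) (node (nat_lit 7) (nat_lit 70192) (nat_lit 6) nil (node (nat_lit 4) (nat_lit 68745)
  (nat_lit 6) (node (nat_lit 5) (nat_lit 70192) (nat_lit 7) nil nil) nil)) (node (nat_lit 4)
  (nat_lit 61258) (nat_lit 5) (node (nat_lit 5) (nat_lit 70192) (nat_lit 6) (node (nat_lit 7)
  (nat_lit 70192) (nat_lit 7) nil (node (nat_lit 3) (nat_lit 70192) (nat_lit 7) nil (node (nat_lit
  0) (nat_lit 70192) (nat_lit 7) nil nil))) (node (nat_lit 3) (nat_lit 60756) (nat_lit 6) (node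
  (nat_lit 5) (nat_lit 64228) (nat_lit 7) nil (node (nat_lit 4) (nat_lit 60756) (nat_lit 7) nil
  nil)) (node (nat_lit 0) (nat_lit 69594) (nat_lit 6) nil nil))) (node (nat_lit 3) (nat_lit 61649)
  (nat_lit 5) (node (nat_lit 4) (nat_lit 61649) (nat_lit 6) (node (nat_lit 5) (nat_lit 65121)
  (nat_lit 7) (node (nat_lit 4) (nat_lit 65121) (nat_lit 8) (node (nat_lit 7) (nat_lit 32394)
  (nat_lit 9) nil nil) nil) (node (nat_lit 8) (nat_lit 61649) (nat_lit 7) nil (node (nat_lit 7)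
  (nat_lit 65121) (nat_lit 7) nil nil))) (node (nat_lit 7) (nat_lit 69621) (nat_lit 6) nil (node
  (nat_lit 5) (nat_lit 68214) (nat_lit 6) nil (node (nat_lit 3) (nat_lit 61649) (nat_lit 6) nil
  (node (nat_lit 0) (nat_lit 67348) (nat_lit 6) nil nil))))) (node (nat_lit 0) (nat_lit 68407)
  (nat_lit 5) (node (nat_lit 5) (nat_lit 70192) (nat_lit 6) nil (node (nat_lit 3) (nat_lit 68407)
  (nat_lit 6) nil nil)) nil)))) nil)) (node (nat_lit 0) (nat_lit 0) (nat_lit 3) (node (nat_lit 5)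
  (nat_lit 0) (nat_lit 4) (node (nat_lit 4) (nat_lit 62431) (nat_lit 5) (node (nat_lit 6) (nat_lit
  73106) (nat_lit 6) (node (nat_lit 5) (nat_lit 75683) (nat_lit 7) (node (nat_lit 6) (nat_lit
  76670) (nat_lit 8) (node (nat_lit 4) (nat_lit 76670) (nat_lit 9) (node (nat_lit 5) (nat_lit
  77051) (nat_lit 10) nil (node (nat_lit 6) (nat_lit 77051) (nat_lit 10) nil nil)) (node (nat_lit
  3) (nat_lit 76670) (nat_lit 9) nil (node (nat_lit 0) (nat_lit 76925) (nat_lit 9) nil nil)))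
  (node (nat_lit 3) (nat_lit 75683) (nat_lit 8) (node (nat_lit 6) (nat_lit 76343) (nat_lit 9) nil
  (node (nat_lit 5) (nat_lit 76343) (nat_lit 9) nil nil)) (node (nat_lit 0) (nat_lit 76547)
  (nat_lit 8) (node (nat_lit 5) (nat_lit 76802) (nat_lit 9) nil nil) nil))) (node (nat_lit 4)
  (nat_lit 72580) (nat_lit 7) (node (nat_lit 5) (nat_lit 75830) (nat_lit 8) (node (nat_lit 6)
  (nat_lit 76085) (nat_lit 9) nil (node (nat_lit 4) (nat_lit 75830) (nat_lit 9) nil nil)) (node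
  (nat_lit 3) (nat_lit 72580) (nat_lit 8) (node (nat_lit 6) (nat_lit 73827) (nat_lit 9) nil nil)
  (node (nat_lit 0) (nat_lit 74761) (nat_lit 8) nil nil))) (node (nat_lit 3) (nat_lit 73106)
  (nat_lit 7) (node (nat_lit 5) (nat_lit 74096) (nat_lit 8) nil (node (nat_lit 6) (nat_lit 74096)
  (nat_lit 8) nil (node (nat_lit 3) (nat_lit 73106) (nat_lit 8) nil nil))) (node (nat_lit 0)
  (nat_lit 75100) (nat_lit 7) nil nil)))) (node (nat_lit 3) (nat_lit 63970) (nat_lit 6) (node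
  (nat_lit 4) (nat_lit 64284) (nat_lit 7) nil (node (nat_lit 5) (nat_lit 70295) (nat_lit 7) nil
  (node (nat_lit 3) (nat_lit 63970) (nat_lit 7) nil (node (nat_lit 6) (nat_lit 66803) (nat_lit 7)
  nil (node (nat_lit 0) (nat_lit 66803) (nat_lit 7) nil nil))))) (node (nat_lit 5) (nat_lit 72930)
  (nat_lit 6) (node (nat_lit 6) (nat_lit 74246) (nat_lit 7) nil (node (nat_lit 3) (nat_lit 72930)
  (nat_lit 7) nil nil)) (node (nat_lit 0) (nat_lit 72385) (nat_lit 6) nil nil)))) (node (nat_lit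
  3) (nat_lit 62470) (nat_lit 5) (node (nat_lit 6) (nat_lit 72985) (nat_lit 6) (node (nat_lit 8)
  (nat_lit 72985) (nat_lit 7) (node (nat_lit 5) (nat_lit 73976) (nat_lit 8) nil nil) (node
  (nat_lit 4) (nat_lit 72985) (nat_lit 7) nil (node (nat_lit 5) (nat_lit 74302) (nat_lit 7) nil
  nil))) (node (nat_lit 4) (nat_lit 63904) (nat_lit 6) (node (nat_lit 5) (nat_lit 66737) (nat_lit
  7) nil (node (nat_lit 8) (nat_lit 65046) (nat_lit 7) (node (nat_lit 5) (nat_lit 68284) (nat_lit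
  8) nil (node (nat_lit 6) (nat_lit 68284) (nat_lit 8) nil nil)) (node (nat_lit 6) (nat_lit 70230)
  (nat_lit 7) nil (node (nat_lit 3) (nat_lit 63904) (nat_lit 7) nil (node (nat_lit 0) (nat_lit
  66737) (nat_lit 7) nil nil))))) (node (nat_lit 3) (nat_lit 63641) (nat_lit 6) (node (nat_lit 4)
  (nat_lit 63641) (nat_lit 7) nil (node (nat_lit 8) (nat_lit 64450) (nat_lit 7) nil (node (nat_lit
  5) (nat_lit 66474) (nat_lit 7) nil (node (nat_lit 6) (nat_lit 66474) (nat_lit 7) nil nil))))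
  (node (nat_lit 5) (nat_lit 72519) (nat_lit 6) (node (nat_lit 6) (nat_lit 73835) (nat_lit 7) nil
  (node (nat_lit 4) (nat_lit 72519) (nat_lit 7) nil nil)) (node (nat_lit 0) (nat_lit 71333)
  (nat_lit 6) nil nil))))) (node (nat_lit 0) (nat_lit 68742) (nat_lit 5) (node (nat_lit 6)
  (nat_lit 72700) (nat_lit 6) (node (nat_lit 8) (nat_lit 73285) (nat_lit 7) nil (node (nat_lit 5)
  (nat_lit 74249) (nat_lit 7) nil nil)) (node (nat_lit 4) (nat_lit 68742) (nat_lit 6) (node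
  (nat_lit 8) (nat_lit 70159) (nat_lit 7) nil nil) (node (nat_lit 5) (nat_lit 72700) (nat_lit 6)
  (node (nat_lit 4) (nat_lit 72700) (nat_lit 7) nil (node (nat_lit 6) (nat_lit 74016) (nat_lit 7)
  nil nil)) (node (nat_lit 3) (nat_lit 68742) (nat_lit 6) nil (node (nat_lit 0) (nat_lit 71707)
  (nat_lit 6) nil nil))))) nil))) (node (nat_lit 3) (nat_lit 0) (nat_lit 4) (node (nat_lit 4)
  (nat_lit 54500) (nat_lit 5) (node (nat_lit 7) (nat_lit 59445) (nat_lit 6) (node (nat_lit 6)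
  (nat_lit 70351) (nat_lit 7) nil (node (nat_lit 5) (nat_lit 70351) (nat_lit 7) nil (node (nat_lit
  3) (nat_lit 59445) (nat_lit 7) nil nil))) (node (nat_lit 6) (nat_lit 69758) (nat_lit 6) nil
  (node (nat_lit 5) (nat_lit 58605) (nat_lit 6) (node (nat_lit 6) (nat_lit 29596) (nat_lit 7) nil
  nil) (node (nat_lit 3) (nat_lit 56448) (nat_lit 6) (node (nat_lit 6) (nat_lit 61138) (nat_lit 7)
  nil nil) (node (nat_lit 0) (nat_lit 58605) (nat_lit 6) nil nil))))) (node (nat_lit 6) (nat_lit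
  68679) (nat_lit 5) (node (nat_lit 5) (nat_lit 70564) (nat_lit 6) nil (node (nat_lit 4) (nat_lit
  68679) (nat_lit 6) nil nil)) (node (nat_lit 5) (nat_lit 68679) (nat_lit 5) (node (nat_lit 7)
  (nat_lit 68679) (nat_lit 6) (node (nat_lit 6) (nat_lit 70095) (nat_lit 7) nil nil) (node
  (nat_lit 6) (nat_lit 69510) (nat_lit 6) nil nil)) (node (nat_lit 3) (nat_lit 54666) (nat_lit 5)
  (node (nat_lit 7) (nat_lit 57757) (nat_lit 6) (node (nat_lit 5) (nat_lit 62447) (nat_lit 7) nil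
  (node (nat_lit 6) (nat_lit 62447) (nat_lit 7) nil (node (nat_lit 4) (nat_lit 57757) (nat_lit 7)
  nil nil))) (node (nat_lit 4) (nat_lit 56160) (nat_lit 6) (node (nat_lit 7) (nat_lit 56160)
  (nat_lit 7) nil (node (nat_lit 8) (nat_lit 58430) (nat_lit 7) (node (nat_lit 7) (nat_lit 58003)
  (nat_lit 8) nil nil) (node (nat_lit 6) (nat_lit 60850) (nat_lit 7) nil nil))) (node (nat_lit 5)
  (nat_lit 69924) (nat_lit 6) nil (node (nat_lit 6) (nat_lit 64254) (nat_lit 6) nil (node (nat_lit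
  0) (nat_lit 64254) (nat_lit 6) nil nil))))) (node (nat_lit 0) (nat_lit 67244) (nat_lit 5) nil
  nil))))) (node (nat_lit 4) (nat_lit 0) (nat_lit 4) (node (nat_lit 6) (nat_lit 69139) (nat_lit 5)
  (node (nat_lit 5) (nat_lit 73402) (nat_lit 6) (node (nat_lit 6) (nat_lit 75683) (nat_lit 7)
  (node (nat_lit 4) (nat_lit 75683) (nat_lit 8) (node (nat_lit 5) (nat_lit 77051) (nat_lit 9)
  (node (nat_lit 4) (nat_lit 77051) (nat_lit 10) (node (nat_lit 6) (nat_lit 77051) (nat_lit 11)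
  nil nil) (node (nat_lit 6) (nat_lit 77051) (nat_lit 10) nil nil)) (node (nat_lit 3) (nat_lit
  75683) (nat_lit 9) nil (node (nat_lit 0) (nat_lit 77051) (nat_lit 9) nil nil))) nil) (node
  (nat_lit 4) (nat_lit 73402) (nat_lit 7) (node (nat_lit 5) (nat_lit 74393) (nat_lit 8) nil nil)
  (node (nat_lit 3) (nat_lit 73402) (nat_lit 7) nil (node (nat_lit 0) (nat_lit 73988) (nat_lit 7)
  nil nil)))) (node (nat_lit 3) (nat_lit 69139) (nat_lit 6) (node (nat_lit 4) (nat_lit 69139)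
  (nat_lit 7) nil nil) (node (nat_lit 0) (nat_lit 72791) (nat_lit 6) nil nil))) (node (nat_lit 3)
  (nat_lit 55098) (nat_lit 5) (node (nat_lit 4) (nat_lit 58719) (nat_lit 6) (node (nat_lit 5)
  (nat_lit 66517) (nat_lit 7) (node (nat_lit 6) (nat_lit 54030) (nat_lit 8) (node (nat_lit 4)
  (nat_lit 34645) (nat_lit 9) nil nil) nil) (node (nat_lit 6) (nat_lit 69624) (nat_lit 7) nil
  (node (nat_lit 3) (nat_lit 58719) (nat_lit 7) nil nil))) (node (nat_lit 6) (nat_lit 70357)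
  (nat_lit 6) nil (node (nat_lit 5) (nat_lit 71512) (nat_lit 6) (node (nat_lit 4) (nat_lit 71512)
  (nat_lit 7) nil (node (nat_lit 8) (nat_lit 71512) (nat_lit 7) nil nil)) (node (nat_lit 3)
  (nat_lit 57398) (nat_lit 6) (node (nat_lit 4) (nat_lit 58500) (nat_lit 7) nil (node (nat_lit 8)
  (nat_lit 58719) (nat_lit 7) (node (nat_lit 4) (nat_lit 58292) (nat_lit 8) nil nil) (node
  (nat_lit 6) (nat_lit 62088) (nat_lit 7) nil nil))) (node (nat_lit 0) (nat_lit 64687) (nat_lit 6)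
  nil nil))))) (node (nat_lit 5) (nat_lit 68856) (nat_lit 5) (node (nat_lit 4) (nat_lit 68856)
  (nat_lit 6) (node (nat_lit 6) (nat_lit 70272) (nat_lit 7) nil nil) nil) (node (nat_lit 0)
  (nat_lit 68521) (nat_lit 5) (node (nat_lit 6) (nat_lit 70407) (nat_lit 6) nil (node (nat_lit 4)
  (nat_lit 68521) (nat_lit 6) nil (node (nat_lit 5) (nat_lit 70407) (nat_lit 6) nil nil))) nil))))
  (node (nat_lit 0) (nat_lit 0) (nat_lit 4) (node (nat_lit 6) (nat_lit 67948) (nat_lit 5) (node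
  (nat_lit 5) (nat_lit 70913) (nat_lit 6) (node (nat_lit 6) (nat_lit 71499) (nat_lit 7) nil nil)
  nil) (node (nat_lit 3) (nat_lit 60651) (nat_lit 5) (node (nat_lit 7) (nat_lit 62898) (nat_lit 6)
  nil (node (nat_lit 6) (nat_lit 62898) (nat_lit 6) nil (node (nat_lit 5) (nat_lit 62898) (nat_lit
  6) nil nil))) (node (nat_lit 5) (nat_lit 67517) (nat_lit 5) (node (nat_lit 6) (nat_lit 70111)
  (nat_lit 6) nil nil) (node (nat_lit 4) (nat_lit 60651) (nat_lit 5) (node (nat_lit 5) (nat_lit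
  62898) (nat_lit 6) nil (node (nat_lit 7) (nat_lit 62898) (nat_lit 6) nil nil)) (node (nat_lit 0)
  (nat_lit 64797) (nat_lit 5) nil nil))))) nil)))) nil)))

noncomputable def t383 : Tr :=
  (node (nat_lit 3) (nat_lit 0) (nat_lit 1) (node (nat_lit 3) (nat_lit 0) (nat_lit 2) (node
  (nat_lit 0) (nat_lit 0) (nat_lit 3) t380 (node (nat_lit 4) (nat_lit 0) (nat_lit 3) (node
  (nat_lit 0) (nat_lit 0) (nat_lit 4) (node (nat_lit 5) (nat_lit 0) (nat_lit 5) (node (nat_lit 4)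
  (nat_lit 21649) (nat_lit 6) (node (nat_lit 5) (nat_lit 23339) (nat_lit 7) (node (nat_lit 7)
  (nat_lit 29019) (nat_lit 8) (node (nat_lit 4) (nat_lit 29019) (nat_lit 9) (node (nat_lit 7)
  (nat_lit 29019) (nat_lit 10) (node (nat_lit 5) (nat_lit 29019) (nat_lit 11) nil nil) (node
  (nat_lit 5) (nat_lit 29019) (nat_lit 10) (node (nat_lit 4) (nat_lit 29019) (nat_lit 11) nil nil)
  nil)) (node (nat_lit 5) (nat_lit 29019) (nat_lit 9) (node (nat_lit 4) (nat_lit 29019) (nat_lit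
  10) (node (nat_lit 7) (nat_lit 29019) (nat_lit 11) (node (nat_lit 4) (nat_lit 29019) (nat_lit
  12) (node (nat_lit 5) (nat_lit 29019) (nat_lit 13) nil nil) nil) (node (nat_lit 3) (nat_lit
  29019) (nat_lit 11) nil (node (nat_lit 0) (nat_lit 29019) (nat_lit 11) nil nil))) (node (nat_lit
  3) (nat_lit 29019) (nat_lit 10) nil (node (nat_lit 0) (nat_lit 29019) (nat_lit 10) nil nil)))
  (node (nat_lit 3) (nat_lit 29019) (nat_lit 9) nil (node (nat_lit 0) (nat_lit 29019) (nat_lit 9)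
  nil nil)))) (node (nat_lit 3) (nat_lit 25050) (nat_lit 8) (node (nat_lit 4) (nat_lit 26267)
  (nat_lit 9) (node (nat_lit 5) (nat_lit 26794) (nat_lit 10) nil nil) (node (nat_lit 5) (nat_lit
  26351) (nat_lit 9) (node (nat_lit 4) (nat_lit 25838) (nat_lit 10) nil (node (nat_lit 7) (nat_lit
  27535) (nat_lit 10) nil (node (nat_lit 0) (nat_lit 27535) (nat_lit 10) nil nil))) (node (nat_lit
  7) (nat_lit 28345) (nat_lit 9) nil (node (nat_lit 0) (nat_lit 28345) (nat_lit 9) nil nil))))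
  (node (nat_lit 0) (nat_lit 29019) (nat_lit 8) (node (nat_lit 7) (nat_lit 29019) (nat_lit 9) nil
  nil) nil))) (node (nat_lit 3) (nat_lit 23222) (nat_lit 7) (node (nat_lit 5) (nat_lit 25354)
  (nat_lit 8) (node (nat_lit 10) (nat_lit 26808) (nat_lit 9) nil (node (nat_lit 4) (nat_lit 26296)
  (nat_lit 9) nil (node (nat_lit 7) (nat_lit 28650) (nat_lit 9) nil (node (nat_lit 0) (nat_lit
  27392) (nat_lit 9) nil nil)))) (node (nat_lit 4) (nat_lit 25394) (nat_lit 8) (node (nat_lit 5)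
  (nat_lit 26138) (nat_lit 9) nil (node (nat_lit 7) (nat_lit 27431) (nat_lit 9) nil (node (nat_lit
  0) (nat_lit 27431) (nat_lit 9) nil nil))) (node (nat_lit 7) (nat_lit 29019) (nat_lit 8) nil
  (node (nat_lit 0) (nat_lit 28442) (nat_lit 8) nil nil)))) (node (nat_lit 0) (nat_lit 28632)
  (nat_lit 7) (node (nat_lit 7) (nat_lit 28817) (nat_lit 8) nil nil) nil))) (node (nat_lit 7)
  (nat_lit 27208) (nat_lit 6) (node (nat_lit 4) (nat_lit 27092) (nat_lit 7) (node (nat_lit 7)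
  (nat_lit 28121) (nat_lit 8) nil (node (nat_lit 5) (nat_lit 27092) (nat_lit 8) nil nil)) (node
  (nat_lit 3) (nat_lit 27208) (nat_lit 7) nil nil)) (node (nat_lit 3) (nat_lit 20358) (nat_lit 6)
  (node (nat_lit 7) (nat_lit 25912) (nat_lit 7) nil (node (nat_lit 4) (nat_lit 20358) (nat_lit 7)
  nil (node (nat_lit 5) (nat_lit 20358) (nat_lit 7) nil nil))) (node (nat_lit 0) (nat_lit 26032)
  (nat_lit 6) nil nil)))) (node (nat_lit 4) (nat_lit 0) (nat_lit 5) (node (nat_lit 5) (nat_lit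
  20958) (nat_lit 6) (node (nat_lit 7) (nat_lit 28377) (nat_lit 7) (node (nat_lit 5) (nat_lit
  28377) (nat_lit 8) (node (nat_lit 4) (nat_lit 28377) (nat_lit 9) (node (nat_lit 7) (nat_lit
  29019) (nat_lit 10) (node (nat_lit 4) (nat_lit 29019) (nat_lit 11) nil nil) nil) nil) (node
  (nat_lit 4) (nat_lit 28377) (nat_lit 8) nil nil)) (node (nat_lit 3) (nat_lit 20958) (nat_lit 7)
  nil (node (nat_lit 0) (nat_lit 24549) (nat_lit 7) nil nil))) (node (nat_lit 3) (nat_lit 20874)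
  (nat_lit 6) (node (nat_lit 4) (nat_lit 20874) (nat_lit 7) nil nil) (node (nat_lit 0) (nat_lit
  25318) (nat_lit 6) nil nil))) (node (nat_lit 3) (nat_lit 19895) (nat_lit 5) (node (nat_lit 4)
  (nat_lit 20808) (nat_lit 6) (node (nat_lit 5) (nat_lit 21773) (nat_lit 7) (node (nat_lit 8)
  (nat_lit 22763) (nat_lit 8) nil (node (nat_lit 7) (nat_lit 23694) (nat_lit 8) nil (node (nat_lit
  0) (nat_lit 23694) (nat_lit 8) nil nil))) (node (nat_lit 8) (nat_lit 22763) (nat_lit 7) (node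
  (nat_lit 7) (nat_lit 26762) (nat_lit 8) nil (node (nat_lit 5) (nat_lit 22762) (nat_lit 8) nil
  nil)) (node (nat_lit 0) (nat_lit 24400) (nat_lit 7) nil nil))) (node (nat_lit 5) (nat_lit 20380)
  (nat_lit 6) (node (nat_lit 7) (nat_lit 22116) (nat_lit 7) nil (node (nat_lit 8) (nat_lit 20380)
  (nat_lit 7) nil nil)) (node (nat_lit 7) (nat_lit 24439) (nat_lit 6) nil (node (nat_lit 0)
  (nat_lit 22865) (nat_lit 6) nil nil)))) (node (nat_lit 0) (nat_lit 23798) (nat_lit 5) (node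
  (nat_lit 4) (nat_lit 23798) (nat_lit 6) nil (node (nat_lit 5) (nat_lit 23798) (nat_lit 6) nil
  (node (nat_lit 7) (nat_lit 24325) (nat_lit 6) nil (node (nat_lit 0) (nat_lit 24325) (nat_lit 6)
  nil nil)))) nil)))) (node (nat_lit 3) (nat_lit 0) (nat_lit 4) (node (nat_lit 0) (nat_lit 16186)
  (nat_lit 5) (node (nat_lit 5) (nat_lit 16186) (nat_lit 6) nil (node (nat_lit 7) (nat_lit 16186)
  (nat_lit 6) (node (nat_lit 4) (nat_lit 16186) (nat_lit 7) nil nil) (node (nat_lit 4) (nat_lit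
  16186) (nat_lit 6) nil (node (nat_lit 0) (nat_lit 16714) (nat_lit 6) nil nil)))) (node (nat_lit
  5) (nat_lit 0) (nat_lit 5) (node (nat_lit 0) (nat_lit 12733) (nat_lit 6) (node (nat_lit 7)
  (nat_lit 12733) (nat_lit 7) nil nil) nil) (node (nat_lit 4) (nat_lit 0) (nat_lit 5) (node
  (nat_lit 5) (nat_lit 0) (nat_lit 6) (node (nat_lit 7) (nat_lit 9769) (nat_lit 7) (node (nat_lit
  0) (nat_lit 13776) (nat_lit 8) nil nil) (node (nat_lit 0) (nat_lit 17298) (nat_lit 7) nil nil))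
  (node (nat_lit 0) (nat_lit 17305) (nat_lit 6) nil nil)) nil))) nil)) (node (nat_lit 3) (nat_lit
  0) (nat_lit 3) (node (nat_lit 4) (nat_lit 0) (nat_lit 4) (node (nat_lit 0) (nat_lit 0) (nat_lit
  5) (node (nat_lit 5) (nat_lit 16619) (nat_lit 6) nil (node (nat_lit 4) (nat_lit 16619) (nat_lit
  6) nil (node (nat_lit 6) (nat_lit 16619) (nat_lit 6) nil (node (nat_lit 0) (nat_lit 17608)
  (nat_lit 6) nil nil)))) (node (nat_lit 6) (nat_lit 0) (nat_lit 5) (node (nat_lit 0) (nat_lit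
  17169) (nat_lit 6) nil nil) (node (nat_lit 5) (nat_lit 0) (nat_lit 5) (node (nat_lit 4) (nat_lit
  0) (nat_lit 6) (node (nat_lit 6) (nat_lit 8150) (nat_lit 7) (node (nat_lit 5) (nat_lit 7712)
  (nat_lit 8) (node (nat_lit 6) (nat_lit 8310) (nat_lit 9) nil (node (nat_lit 0) (nat_lit 9709)
  (nat_lit 9) nil nil)) (node (nat_lit 4) (nat_lit 8953) (nat_lit 8) nil (node (nat_lit 0)
  (nat_lit 12921) (nat_lit 8) nil nil))) (node (nat_lit 0) (nat_lit 15183) (nat_lit 7) nil nil))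
  (node (nat_lit 0) (nat_lit 13646) (nat_lit 6) (node (nat_lit 4) (nat_lit 13646) (nat_lit 7) nil
  nil) nil)) nil))) (node (nat_lit 0) (nat_lit 0) (nat_lit 4) (node (nat_lit 5) (nat_lit 0)
  (nat_lit 5) (node (nat_lit 6) (nat_lit 30728) (nat_lit 6) (node (nat_lit 5) (nat_lit 34046)
  (nat_lit 7) (node (nat_lit 7) (nat_lit 42346) (nat_lit 8) (node (nat_lit 5) (nat_lit 42346)
  (nat_lit 9) (node (nat_lit 6) (nat_lit 42346) (nat_lit 10) (node (nat_lit 7) (nat_lit 42346)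
  (nat_lit 11) (node (nat_lit 6) (nat_lit 42346) (nat_lit 12) (node (nat_lit 5) (nat_lit 42346)
  (nat_lit 13) (node (nat_lit 6) (nat_lit 42346) (nat_lit 14) (node (nat_lit 7) (nat_lit 42346)
  (nat_lit 15) nil nil) nil) nil) (node (nat_lit 5) (nat_lit 42346) (nat_lit 12) nil nil)) (node
  (nat_lit 4) (nat_lit 42346) (nat_lit 11) nil (node (nat_lit 0) (nat_lit 42346) (nat_lit 11) nil
  nil))) (node (nat_lit 4) (nat_lit 42346) (nat_lit 10) (node (nat_lit 7) (nat_lit 42346) (nat_lit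
  11) nil (node (nat_lit 5) (nat_lit 42346) (nat_lit 11) nil (node (nat_lit 6) (nat_lit 42346)
  (nat_lit 11) nil nil))) (node (nat_lit 0) (nat_lit 42346) (nat_lit 10) (node (nat_lit 7)
  (nat_lit 42346) (nat_lit 11) (node (nat_lit 5) (nat_lit 42346) (nat_lit 12) nil nil) (node
  (nat_lit 5) (nat_lit 42346) (nat_lit 11) nil nil)) nil))) (node (nat_lit 6) (nat_lit 42346)
  (nat_lit 9) (node (nat_lit 5) (nat_lit 42346) (nat_lit 10) (node (nat_lit 6) (nat_lit 42346)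
  (nat_lit 11) nil nil) (node (nat_lit 7) (nat_lit 42346) (nat_lit 10) (node (nat_lit 5) (nat_lit
  42346) (nat_lit 11) nil nil) nil)) (node (nat_lit 4) (nat_lit 42346) (nat_lit 9) nil (node
  (nat_lit 0) (nat_lit 42346) (nat_lit 9) nil nil)))) (node (nat_lit 4) (nat_lit 36940) (nat_lit
  8) (node (nat_lit 6) (nat_lit 38336) (nat_lit 9) nil (node (nat_lit 7) (nat_lit 41697) (nat_lit
  9) nil (node (nat_lit 5) (nat_lit 38572) (nat_lit 9) nil (node (nat_lit 0) (nat_lit 41697)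
  (nat_lit 9) nil nil)))) (node (nat_lit 0) (nat_lit 42346) (nat_lit 8) (node (nat_lit 7) (nat_lit
  42346) (nat_lit 9) nil nil) nil))) (node (nat_lit 4) (nat_lit 34154) (nat_lit 7) (node (nat_lit
  7) (nat_lit 42346) (nat_lit 8) (node (nat_lit 6) (nat_lit 42346) (nat_lit 9) nil (node (nat_lit
  5) (nat_lit 42346) (nat_lit 9) nil (node (nat_lit 4) (nat_lit 42346) (nat_lit 9) nil (node
  (nat_lit 0) (nat_lit 42346) (nat_lit 9) nil nil)))) (node (nat_lit 5) (nat_lit 37056) (nat_lit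
  8) (node (nat_lit 4) (nat_lit 37172) (nat_lit 9) nil (node (nat_lit 7) (nat_lit 42024) (nat_lit
  9) nil (node (nat_lit 6) (nat_lit 37798) (nat_lit 9) (node (nat_lit 7) (nat_lit 28645) (nat_lit
  10) nil nil) (node (nat_lit 0) (nat_lit 40766) (nat_lit 9) nil nil)))) (node (nat_lit 6)
  (nat_lit 37181) (nat_lit 8) (node (nat_lit 5) (nat_lit 37087) (nat_lit 9) nil (node (nat_lit 7)
  (nat_lit 41973) (nat_lit 9) nil (node (nat_lit 0) (nat_lit 40891) (nat_lit 9) nil nil))) (node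
  (nat_lit 0) (nat_lit 42205) (nat_lit 8) nil nil)))) (node (nat_lit 0) (nat_lit 42022) (nat_lit
  7) (node (nat_lit 6) (nat_lit 42022) (nat_lit 8) nil (node (nat_lit 5) (nat_lit 42022) (nat_lit
  8) nil (node (nat_lit 4) (nat_lit 42022) (nat_lit 8) nil (node (nat_lit 7) (nat_lit 42345)
  (nat_lit 8) nil (node (nat_lit 0) (nat_lit 42345) (nat_lit 8) nil nil))))) nil))) (node (nat_lit
  4) (nat_lit 29306) (nat_lit 6) (node (nat_lit 7) (nat_lit 34295) (nat_lit 7) nil (node (nat_lit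
  6) (nat_lit 29306) (nat_lit 7) nil nil)) (node (nat_lit 7) (nat_lit 35996) (nat_lit 6) nil (node
  (nat_lit 0) (nat_lit 33351) (nat_lit 6) nil nil)))) (node (nat_lit 4) (nat_lit 0) (nat_lit 5)
  (node (nat_lit 6) (nat_lit 30473) (nat_lit 6) (node (nat_lit 4) (nat_lit 33220) (nat_lit 7)
  (node (nat_lit 7) (nat_lit 39882) (nat_lit 8) nil (node (nat_lit 5) (nat_lit 32707) (nat_lit 8)
  nil (node (nat_lit 0) (nat_lit 36708) (nat_lit 8) nil nil))) (node (nat_lit 5) (nat_lit 32423)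
  (nat_lit 7) (node (nat_lit 4) (nat_lit 33413) (nat_lit 8) nil (node (nat_lit 7) (nat_lit 35911)
  (nat_lit 8) nil (node (nat_lit 6) (nat_lit 32423) (nat_lit 8) nil (node (nat_lit 0) (nat_lit
  35911) (nat_lit 8) nil nil)))) (node (nat_lit 0) (nat_lit 36442) (nat_lit 7) nil (node (nat_lit
  7) (nat_lit 33607) (nat_lit 7) nil nil)))) (node (nat_lit 7) (nat_lit 35281) (nat_lit 6) nil
  (node (nat_lit 5) (nat_lit 27976) (nat_lit 6) (node (nat_lit 7) (nat_lit 31110) (nat_lit 7) nil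
  (node (nat_lit 4) (nat_lit 27976) (nat_lit 7) nil nil)) (node (nat_lit 0) (nat_lit 30507)
  (nat_lit 6) nil nil)))) (node (nat_lit 6) (nat_lit 0) (nat_lit 5) (node (nat_lit 5) (nat_lit
  30005) (nat_lit 6) (node (nat_lit 7) (nat_lit 41805) (nat_lit 7) (node (nat_lit 5) (nat_lit
  41805) (nat_lit 8) (node (nat_lit 6) (nat_lit 41805) (nat_lit 9) (node (nat_lit 7) (nat_lit
  42338) (nat_lit 10) (node (nat_lit 6) (nat_lit 42338) (nat_lit 11) (node (nat_lit 5) (nat_lit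
  42338) (nat_lit 12) nil nil) nil) nil) nil) nil) nil) (node (nat_lit 4) (nat_lit 27346) (nat_lit
  6) (node (nat_lit 7) (nat_lit 30480) (nat_lit 7) nil (node (nat_lit 6) (nat_lit 27346) (nat_lit
  7) nil nil)) (node (nat_lit 0) (nat_lit 31828) (nat_lit 6) nil nil))) (node (nat_lit 0) (nat_lit
  33596) (nat_lit 5) (node (nat_lit 6) (nat_lit 33596) (nat_lit 6) nil (node (nat_lit 7) (nat_lit
  34586) (nat_lit 6) nil nil)) nil)))) (node (nat_lit 5) (nat_lit 0) (nat_lit 4) (node (nat_lit 0)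
  (nat_lit 0) (nat_lit 5) (node (nat_lit 4) (nat_lit 8673) (nat_lit 6) (node (nat_lit 6) (nat_lit
  9099) (nat_lit 7) (node (nat_lit 8) (nat_lit 11249) (nat_lit 8) nil (node (nat_lit 5) (nat_lit
  9353) (nat_lit 8) (node (nat_lit 4) (nat_lit 9353) (nat_lit 9) nil nil) (node (nat_lit 4)
  (nat_lit 9353) (nat_lit 8) (node (nat_lit 8) (nat_lit 10494) (nat_lit 9) nil nil) (node (nat_lit
  0) (nat_lit 11249) (nat_lit 8) nil nil)))) (node (nat_lit 5) (nat_lit 8673) (nat_lit 7) nil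
  nil)) (node (nat_lit 6) (nat_lit 8344) (nat_lit 6) (node (nat_lit 5) (nat_lit 8344) (nat_lit 7)
  (node (nat_lit 6) (nat_lit 8344) (nat_lit 8) nil nil) (node (nat_lit 8) (nat_lit 9173) (nat_lit
  7) nil nil)) (node (nat_lit 5) (nat_lit 8407) (nat_lit 6) (node (nat_lit 6) (nat_lit 8188)
  (nat_lit 7) (node (nat_lit 8) (nat_lit 10337) (nat_lit 8) nil nil) nil) (node (nat_lit 0)
  (nat_lit 9652) (nat_lit 6) nil nil)))) nil) nil))) nil))) (node (nat_lit 0) (nat_lit 0) (nat_lit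
  2) t382 nil)) (node (nat_lit 0) (nat_lit 0) (nat_lit 1) (node (nat_lit 3) (nat_lit 0) (nat_lit
  2) (node (nat_lit 3) (nat_lit 0) (nat_lit 3) (node (nat_lit 4) (nat_lit 0) (nat_lit 4) (node
  (nat_lit 5) (nat_lit 0) (nat_lit 5) (node (nat_lit 4) (nat_lit 95340) (nat_lit 6) (node (nat_lit
  6) (nat_lit 95340) (nat_lit 7) (node (nat_lit 4) (nat_lit 95340) (nat_lit 8) (node (nat_lit 5)
  (nat_lit 95340) (nat_lit 9) (node (nat_lit 6) (nat_lit 95340) (nat_lit 10) nil nil) nil) nil)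
  (node (nat_lit 3) (nat_lit 95340) (nat_lit 7) nil (node (nat_lit 0) (nat_lit 95340) (nat_lit 7)
  nil nil))) (node (nat_lit 3) (nat_lit 93588) (nat_lit 6) (node (nat_lit 4) (nat_lit 95340)
  (nat_lit 7) nil (node (nat_lit 5) (nat_lit 93588) (nat_lit 7) nil (node (nat_lit 6) (nat_lit
  93588) (nat_lit 7) nil nil))) (node (nat_lit 0) (nat_lit 95340) (nat_lit 6) nil nil))) (node
  (nat_lit 6) (nat_lit 114861) (nat_lit 5) (node (nat_lit 5) (nat_lit 114861) (nat_lit 6) (node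
  (nat_lit 4) (nat_lit 119379) (nat_lit 7) (node (nat_lit 5) (nat_lit 119379) (nat_lit 8) (node
  (nat_lit 6) (nat_lit 119379) (nat_lit 9) (node (nat_lit 4) (nat_lit 96234) (nat_lit 10) (node
  (nat_lit 6) (nat_lit 74565) (nat_lit 11) nil nil) nil) nil) (node (nat_lit 6) (nat_lit 119379)
  (nat_lit 8) (node (nat_lit 4) (nat_lit 120332) (nat_lit 9) (node (nat_lit 5) (nat_lit 120332)
  (nat_lit 10) (node (nat_lit 6) (nat_lit 120332) (nat_lit 11) (node (nat_lit 4) (nat_lit 120855)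
  (nat_lit 12) (node (nat_lit 6) (nat_lit 120855) (nat_lit 13) (node (nat_lit 5) (nat_lit 120855)
  (nat_lit 14) (node (nat_lit 4) (nat_lit 95340) (nat_lit 15) nil nil) nil) nil) nil) nil) nil)
  nil) nil)) nil) nil) (node (nat_lit 3) (nat_lit 116970) (nat_lit 5) (node (nat_lit 6) (nat_lit
  116970) (nat_lit 6) nil nil) (node (nat_lit 0) (nat_lit 118788) (nat_lit 5) nil nil)))) (node
  (nat_lit 3) (nat_lit 0) (nat_lit 4) (node (nat_lit 5) (nat_lit 111871) (nat_lit 5) (node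
  (nat_lit 7) (nat_lit 125480) (nat_lit 6) (node (nat_lit 6) (nat_lit 131902) (nat_lit 7) (node
  (nat_lit 5) (nat_lit 135116) (nat_lit 8) (node (nat_lit 6) (nat_lit 132413) (nat_lit 9) nil
  (node (nat_lit 7) (nat_lit 137714) (nat_lit 9) (node (nat_lit 5) (nat_lit 135750) (nat_lit 10)
  nil nil) nil)) (node (nat_lit 7) (nat_lit 130477) (nat_lit 8) (node (nat_lit 5) (nat_lit 128426)
  (nat_lit 9) nil nil) (node (nat_lit 4) (nat_lit 128014) (nat_lit 8) nil nil))) (node (nat_lit 4)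
  (nat_lit 131936) (nat_lit 7) nil nil)) (node (nat_lit 4) (nat_lit 139376) (nat_lit 6) (node
  (nat_lit 5) (nat_lit 123591) (nat_lit 7) (node (nat_lit 6) (nat_lit 114629) (nat_lit 8) (node
  (nat_lit 7) (nat_lit 96286) (nat_lit 9) nil nil) nil) nil) (node (nat_lit 6) (nat_lit 126419)
  (nat_lit 6) (node (nat_lit 5) (nat_lit 132140) (nat_lit 7) (node (nat_lit 7) (nat_lit 133187)
  (nat_lit 8) (node (nat_lit 6) (nat_lit 129082) (nat_lit 9) nil nil) (node (nat_lit 4) (nat_lit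
  128942) (nat_lit 8) nil nil)) (node (nat_lit 4) (nat_lit 126607) (nat_lit 7) nil nil)) (node
  (nat_lit 0) (nat_lit 129742) (nat_lit 6) nil nil)))) (node (nat_lit 4) (nat_lit 126570) (nat_lit
  5) (node (nat_lit 5) (nat_lit 116026) (nat_lit 6) (node (nat_lit 6) (nat_lit 93017) (nat_lit 7)
  nil (node (nat_lit 4) (nat_lit 116735) (nat_lit 7) nil nil)) (node (nat_lit 6) (nat_lit 126570)
  (nat_lit 6) nil nil)) (node (nat_lit 6) (nat_lit 109710) (nat_lit 5) (node (nat_lit 5) (nat_lit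
  125383) (nat_lit 6) (node (nat_lit 7) (nat_lit 131341) (nat_lit 7) (node (nat_lit 5) (nat_lit
  133987) (nat_lit 8) (node (nat_lit 6) (nat_lit 133149) (nat_lit 9) (node (nat_lit 7) (nat_lit
  131815) (nat_lit 10) nil nil) (node (nat_lit 4) (nat_lit 131550) (nat_lit 9) nil nil)) (node
  (nat_lit 6) (nat_lit 125940) (nat_lit 8) nil (node (nat_lit 4) (nat_lit 139091) (nat_lit 8) nil
  nil))) (node (nat_lit 6) (nat_lit 129810) (nat_lit 7) (node (nat_lit 7) (nat_lit 128489)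
  (nat_lit 8) (node (nat_lit 5) (nat_lit 127025) (nat_lit 9) nil (node (nat_lit 4) (nat_lit
  131202) (nat_lit 9) nil nil)) (node (nat_lit 4) (nat_lit 137713) (nat_lit 8) nil (node (nat_lit
  0) (nat_lit 135615) (nat_lit 8) nil nil))) (node (nat_lit 4) (nat_lit 137608) (nat_lit 7) (node
  (nat_lit 5) (nat_lit 137608) (nat_lit 8) nil nil) (node (nat_lit 0) (nat_lit 135864) (nat_lit 7)
  nil nil)))) (node (nat_lit 4) (nat_lit 131646) (nat_lit 6) (node (nat_lit 5) (nat_lit 119772)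
  (nat_lit 7) (node (nat_lit 6) (nat_lit 105362) (nat_lit 8) (node (nat_lit 7) (nat_lit 94061)
  (nat_lit 9) nil nil) nil) nil) (node (nat_lit 0) (nat_lit 127581) (nat_lit 6) nil nil))) (node
  (nat_lit 0) (nat_lit 133631) (nat_lit 5) nil nil)))) (node (nat_lit 5) (nat_lit 0) (nat_lit 4)
  (node (nat_lit 4) (nat_lit 129639) (nat_lit 5) (node (nat_lit 5) (nat_lit 117963) (nat_lit 6)
  (node (nat_lit 6) (nat_lit 95414) (nat_lit 7) (node (nat_lit 4) (nat_lit 96360) (nat_lit 8)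
  (node (nat_lit 5) (nat_lit 96360) (nat_lit 9) nil nil) (node (nat_lit 3) (nat_lit 95449)
  (nat_lit 8) nil (node (nat_lit 0) (nat_lit 96360) (nat_lit 8) nil nil))) nil) (node (nat_lit 6)
  (nat_lit 129639) (nat_lit 6) (node (nat_lit 4) (nat_lit 131229) (nat_lit 7) (node (nat_lit 5)
  (nat_lit 131229) (nat_lit 8) (node (nat_lit 6) (nat_lit 131229) (nat_lit 9) (node (nat_lit 5)
  (nat_lit 131229) (nat_lit 10) (node (nat_lit 4) (nat_lit 85290) (nat_lit 11) nil nil) nil) nil)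
  nil) nil) (node (nat_lit 3) (nat_lit 130084) (nat_lit 6) nil nil))) (node (nat_lit 3) (nat_lit
  107855) (nat_lit 5) (node (nat_lit 6) (nat_lit 122471) (nat_lit 6) (node (nat_lit 8) (nat_lit
  124408) (nat_lit 7) (node (nat_lit 5) (nat_lit 123506) (nat_lit 8) (node (nat_lit 6) (nat_lit
  122069) (nat_lit 9) nil nil) (node (nat_lit 4) (nat_lit 122472) (nat_lit 8) nil nil)) (node
  (nat_lit 5) (nat_lit 127962) (nat_lit 7) (node (nat_lit 6) (nat_lit 127138) (nat_lit 8) (node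
  (nat_lit 8) (nat_lit 125590) (nat_lit 9) nil nil) (node (nat_lit 4) (nat_lit 126826) (nat_lit 8)
  nil nil)) (node (nat_lit 4) (nat_lit 127773) (nat_lit 7) nil nil))) (node (nat_lit 4) (nat_lit
  134864) (nat_lit 6) (node (nat_lit 5) (nat_lit 127821) (nat_lit 7) (node (nat_lit 6) (nat_lit
  117202) (nat_lit 8) (node (nat_lit 5) (nat_lit 93017) (nat_lit 9) nil nil) nil) nil) (node
  (nat_lit 5) (nat_lit 120646) (nat_lit 6) (node (nat_lit 6) (nat_lit 123307) (nat_lit 7) (node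
  (nat_lit 8) (nat_lit 124590) (nat_lit 8) (node (nat_lit 5) (nat_lit 122068) (nat_lit 9) nil nil)
  nil) nil) (node (nat_lit 0) (nat_lit 140042) (nat_lit 6) nil nil)))) (node (nat_lit 0) (nat_lit
  127809) (nat_lit 5) nil nil))) (node (nat_lit 0) (nat_lit 127192) (nat_lit 4) nil nil)))) (node
  (nat_lit 4) (nat_lit 0) (nat_lit 3) (node (nat_lit 3) (nat_lit 0) (nat_lit 4) (node (nat_lit 5)
  (nat_lit 86333) (nat_lit 5) (node (nat_lit 7) (nat_lit 87894) (nat_lit 6) (node (nat_lit 4)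
  (nat_lit 97014) (nat_lit 7) (node (nat_lit 5) (nat_lit 97014) (nat_lit 8) (node (nat_lit 4)
  (nat_lit 88761) (nat_lit 9) (node (nat_lit 7) (nat_lit 73755) (nat_lit 10) (node (nat_lit 5)
  (nat_lit 48507) (nat_lit 11) nil nil) nil) nil) nil) (node (nat_lit 3) (nat_lit 91194) (nat_lit
  7) (node (nat_lit 5) (nat_lit 93718) (nat_lit 8) (node (nat_lit 10) (nat_lit 92692) (nat_lit 9)
  nil nil) (node (nat_lit 7) (nat_lit 93461) (nat_lit 8) nil nil)) (node (nat_lit 0) (nat_lit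
  94440) (nat_lit 7) nil nil))) (node (nat_lit 4) (nat_lit 97014) (nat_lit 6) nil (node (nat_lit
  3) (nat_lit 90729) (nat_lit 6) (node (nat_lit 7) (nat_lit 92876) (nat_lit 7) (node (nat_lit 4)
  (nat_lit 97014) (nat_lit 8) nil (node (nat_lit 9) (nat_lit 95143) (nat_lit 8) nil (node (nat_lit
  5) (nat_lit 93713) (nat_lit 8) nil nil))) (node (nat_lit 5) (nat_lit 92992) (nat_lit 7) (node
  (nat_lit 7) (nat_lit 93093) (nat_lit 8) nil nil) (node (nat_lit 4) (nat_lit 96628) (nat_lit 7)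
  (node (nat_lit 5) (nat_lit 96628) (nat_lit 8) (node (nat_lit 4) (nat_lit 81477) (nat_lit 9)
  (node (nat_lit 7) (nat_lit 72685) (nat_lit 10) (node (nat_lit 5) (nat_lit 48507) (nat_lit 11)
  nil nil) nil) nil) nil) (node (nat_lit 0) (nat_lit 96628) (nat_lit 7) nil nil)))) (node (nat_lit
  0) (nat_lit 96827) (nat_lit 6) nil nil)))) (node (nat_lit 4) (nat_lit 95803) (nat_lit 5) (node
  (nat_lit 5) (nat_lit 95803) (nat_lit 6) (node (nat_lit 7) (nat_lit 95803) (nat_lit 7) nil (node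
  (nat_lit 4) (nat_lit 48507) (nat_lit 7) nil nil)) nil) (node (nat_lit 3) (nat_lit 89749)
  (nat_lit 5) (node (nat_lit 5) (nat_lit 91606) (nat_lit 6) (node (nat_lit 7) (nat_lit 93775)
  (nat_lit 7) (node (nat_lit 5) (nat_lit 95789) (nat_lit 8) (node (nat_lit 8) (nat_lit 95386)
  (nat_lit 9) nil nil) (node (nat_lit 8) (nat_lit 96565) (nat_lit 8) (node (nat_lit 7) (nat_lit
  94409) (nat_lit 9) nil nil) (node (nat_lit 4) (nat_lit 97014) (nat_lit 8) nil nil))) (node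
  (nat_lit 8) (nat_lit 93729) (nat_lit 7) (node (nat_lit 7) (nat_lit 94949) (nat_lit 8) (node
  (nat_lit 5) (nat_lit 93809) (nat_lit 9) nil (node (nat_lit 8) (nat_lit 93167) (nat_lit 9) nil
  nil)) (node (nat_lit 0) (nat_lit 97014) (nat_lit 8) nil nil)) (node (nat_lit 4) (nat_lit 97014)
  (nat_lit 7) nil (node (nat_lit 0) (nat_lit 97014) (nat_lit 7) nil nil)))) (node (nat_lit 4)
  (nat_lit 97014) (nat_lit 6) nil (node (nat_lit 7) (nat_lit 91581) (nat_lit 6) (node (nat_lit 4)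
  (nat_lit 96803) (nat_lit 7) nil (node (nat_lit 5) (nat_lit 93488) (nat_lit 7) (node (nat_lit 8)
  (nat_lit 94047) (nat_lit 8) nil (node (nat_lit 7) (nat_lit 93457) (nat_lit 8) (node (nat_lit 8)
  (nat_lit 90565) (nat_lit 9) nil nil) nil)) (node (nat_lit 0) (nat_lit 96803) (nat_lit 7) nil
  nil))) (node (nat_lit 0) (nat_lit 97014) (nat_lit 6) nil nil)))) (node (nat_lit 0) (nat_lit
  96760) (nat_lit 5) nil nil)))) (node (nat_lit 0) (nat_lit 95622) (nat_lit 4) (node (nat_lit 5)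
  (nat_lit 95622) (nat_lit 5) nil (node (nat_lit 3) (nat_lit 95622) (nat_lit 5) nil nil)) nil))
  (node (nat_lit 0) (nat_lit 0) (nat_lit 3) (node (nat_lit 3) (nat_lit 115586) (nat_lit 4) (node
  (nat_lit 5) (nat_lit 115586) (nat_lit 5) (node (nat_lit 4) (nat_lit 115586) (nat_lit 6) (node
  (nat_lit 5) (nat_lit 115586) (nat_lit 7) (node (nat_lit 6) (nat_lit 93636) (nat_lit 8) (node
  (nat_lit 7) (nat_lit 83510) (nat_lit 9) nil nil) nil) nil) nil) (node (nat_lit 3) (nat_lit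
  115586) (nat_lit 5) nil nil)) (node (nat_lit 5) (nat_lit 0) (nat_lit 4) (node (nat_lit 3)
  (nat_lit 115586) (nat_lit 5) nil (node (nat_lit 4) (nat_lit 115586) (nat_lit 5) (node (nat_lit
  5) (nat_lit 115586) (nat_lit 6) (node (nat_lit 6) (nat_lit 83510) (nat_lit 7) nil nil) nil)
  (node (nat_lit 0) (nat_lit 115586) (nat_lit 5) nil nil))) (node (nat_lit 4) (nat_lit 115586)
  (nat_lit 4) (node (nat_lit 3) (nat_lit 115586) (nat_lit 5) nil (node (nat_lit 6) (nat_lit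
  115586) (nat_lit 5) (node (nat_lit 5) (nat_lit 115586) (nat_lit 6) (node (nat_lit 4) (nat_lit
  115586) (nat_lit 7) (node (nat_lit 5) (nat_lit 115586) (nat_lit 8) (node (nat_lit 6) (nat_lit
  115586) (nat_lit 9) (node (nat_lit 4) (nat_lit 115586) (nat_lit 10) (node (nat_lit 6) (nat_lit
  83510) (nat_lit 11) nil nil) nil) nil) nil) nil) nil) (node (nat_lit 5) (nat_lit 115586)
  (nat_lit 5) nil nil))) (node (nat_lit 0) (nat_lit 115586) (nat_lit 4) (node (nat_lit 5) (nat_lit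
  115586) (nat_lit 5) nil nil) nil)))) nil))) (node (nat_lit 0) (nat_lit 0) (nat_lit 2) (node
  (nat_lit 3) (nat_lit 0) (nat_lit 3) (node (nat_lit 3) (nat_lit 0) (nat_lit 4) (node (nat_lit 5)
  (nat_lit 127614) (nat_lit 5) nil (node (nat_lit 6) (nat_lit 119684) (nat_lit 5) (node (nat_lit
  5) (nat_lit 127315) (nat_lit 6) nil (node (nat_lit 4) (nat_lit 127315) (nat_lit 6) nil (node
  (nat_lit 3) (nat_lit 122359) (nat_lit 6) (node (nat_lit 7) (nat_lit 119897) (nat_lit 7) nil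
  (node (nat_lit 6) (nat_lit 122225) (nat_lit 7) nil nil)) (node (nat_lit 0) (nat_lit 127315)
  (nat_lit 6) nil nil)))) (node (nat_lit 3) (nat_lit 122181) (nat_lit 5) (node (nat_lit 7)
  (nat_lit 123334) (nat_lit 6) (node (nat_lit 6) (nat_lit 119474) (nat_lit 7) nil nil) (node
  (nat_lit 6) (nat_lit 124694) (nat_lit 6) (node (nat_lit 7) (nat_lit 125816) (nat_lit 7) nil
  (node (nat_lit 8) (nat_lit 124015) (nat_lit 7) nil nil)) (node (nat_lit 5) (nat_lit 127614)
  (nat_lit 6) nil nil))) (node (nat_lit 4) (nat_lit 127614) (nat_lit 5) (node (nat_lit 5) (nat_lit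
  107043) (nat_lit 6) (node (nat_lit 6) (nat_lit 84058) (nat_lit 7) nil nil) nil) (node (nat_lit
  0) (nat_lit 123261) (nat_lit 5) nil nil))))) (node (nat_lit 4) (nat_lit 126810) (nat_lit 4)
  (node (nat_lit 5) (nat_lit 87111) (nat_lit 5) (node (nat_lit 4) (nat_lit 87111) (nat_lit 6)
  (node (nat_lit 6) (nat_lit 87111) (nat_lit 7) (node (nat_lit 4) (nat_lit 87111) (nat_lit 8) nil
  nil) nil) nil) (node (nat_lit 6) (nat_lit 126810) (nat_lit 5) (node (nat_lit 5) (nat_lit 127614)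
  (nat_lit 6) nil nil) (node (nat_lit 3) (nat_lit 127614) (nat_lit 5) (node (nat_lit 4) (nat_lit
  127614) (nat_lit 6) (node (nat_lit 5) (nat_lit 127614) (nat_lit 7) (node (nat_lit 6) (nat_lit
  127614) (nat_lit 8) (node (nat_lit 4) (nat_lit 84058) (nat_lit 9) nil nil) nil) nil) nil) nil)))
  (node (nat_lit 5) (nat_lit 121382) (nat_lit 4) (node (nat_lit 4) (nat_lit 123510) (nat_lit 5)
  (node (nat_lit 6) (nat_lit 123510) (nat_lit 6) (node (nat_lit 4) (nat_lit 125019) (nat_lit 7)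
  (node (nat_lit 5) (nat_lit 125424) (nat_lit 8) (node (nat_lit 6) (nat_lit 125424) (nat_lit 9)
  (node (nat_lit 5) (nat_lit 125873) (nat_lit 10) (node (nat_lit 4) (nat_lit 85541) (nat_lit 11)
  nil nil) nil) nil) nil) nil) nil) nil) (node (nat_lit 0) (nat_lit 127614) (nat_lit 4) (node
  (nat_lit 6) (nat_lit 127614) (nat_lit 5) nil (node (nat_lit 4) (nat_lit 127614) (nat_lit 5) nil
  nil)) nil)))) (node (nat_lit 0) (nat_lit 0) (nat_lit 3) (node (nat_lit 3) (nat_lit 130505)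
  (nat_lit 4) nil (node (nat_lit 4) (nat_lit 0) (nat_lit 4) (node (nat_lit 6) (nat_lit 141653)
  (nat_lit 5) (node (nat_lit 5) (nat_lit 142900) (nat_lit 6) (node (nat_lit 4) (nat_lit 143499)
  (nat_lit 7) nil nil) nil) (node (nat_lit 3) (nat_lit 139529) (nat_lit 5) (node (nat_lit 5)
  (nat_lit 142900) (nat_lit 6) nil nil) (node (nat_lit 5) (nat_lit 141653) (nat_lit 5) nil (node
  (nat_lit 0) (nat_lit 141653) (nat_lit 5) nil nil)))) (node (nat_lit 5) (nat_lit 139529) (nat_lit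
  4) (node (nat_lit 4) (nat_lit 141653) (nat_lit 5) nil nil) (node (nat_lit 0) (nat_lit 139529)
  (nat_lit 4) nil nil)))) (node (nat_lit 4) (nat_lit 0) (nat_lit 3) (node (nat_lit 3) (nat_lit
  129647) (nat_lit 4) (node (nat_lit 4) (nat_lit 136390) (nat_lit 5) (node (nat_lit 5) (nat_lit
  137018) (nat_lit 6) (node (nat_lit 4) (nat_lit 91921) (nat_lit 7) nil nil) nil) (node (nat_lit
  5) (nat_lit 135855) (nat_lit 5) nil nil)) (node (nat_lit 0) (nat_lit 0) (nat_lit 4) (node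
  (nat_lit 4) (nat_lit 137881) (nat_lit 5) (node (nat_lit 5) (nat_lit 137881) (nat_lit 6) nil nil)
  (node (nat_lit 5) (nat_lit 137881) (nat_lit 5) nil (node (nat_lit 3) (nat_lit 137881) (nat_lit
  5) nil (node (nat_lit 0) (nat_lit 137881) (nat_lit 5) nil nil)))) nil)) nil))) nil)) nil))

noncomputable def c7 : Tr :=
  t383

noncomputable def t384 : Tr :=
  (node (nat_lit 0) (nat_lit 0) (nat_lit 5) (node (nat_lit 5) (nat_lit 0) (nat_lit 6) (node
  (nat_lit 8) (nat_lit 0) (nat_lit 7) (node (nat_lit 4) (nat_lit 122682) (nat_lit 8) (node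
  (nat_lit 5) (nat_lit 123455) (nat_lit 9) (node (nat_lit 4) (nat_lit 125486) (nat_lit 10) (node
  (nat_lit 6) (nat_lit 126656) (nat_lit 11) (node (nat_lit 4) (nat_lit 125061) (nat_lit 12) (node
  (nat_lit 5) (nat_lit 122974) (nat_lit 13) (node (nat_lit 6) (nat_lit 120106) (nat_lit 14) (node
  (nat_lit 4) (nat_lit 114703) (nat_lit 15) nil nil) nil) nil) (node (nat_lit 5) (nat_lit 127279)
  (nat_lit 12) (node (nat_lit 4) (nat_lit 127725) (nat_lit 13) (node (nat_lit 5) (nat_lit 128130)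
  (nat_lit 14) (node (nat_lit 6) (nat_lit 128458) (nat_lit 15) nil nil) nil) nil) nil)) nil) (node
  (nat_lit 6) (nat_lit 125486) (nat_lit 10) (node (nat_lit 4) (nat_lit 126717) (nat_lit 11) nil
  (node (nat_lit 5) (nat_lit 126567) (nat_lit 11) (node (nat_lit 4) (nat_lit 123473) (nat_lit 12)
  (node (nat_lit 5) (nat_lit 121656) (nat_lit 13) (node (nat_lit 6) (nat_lit 120142) (nat_lit 14)
  (node (nat_lit 4) (nat_lit 116411) (nat_lit 15) nil nil) nil) nil) nil) nil)) (node (nat_lit 0)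
  (nat_lit 127341) (nat_lit 10) nil nil))) (node (nat_lit 6) (nat_lit 123455) (nat_lit 9) (node
  (nat_lit 5) (nat_lit 125486) (nat_lit 10) nil (node (nat_lit 4) (nat_lit 125486) (nat_lit 10)
  nil nil)) (node (nat_lit 8) (nat_lit 125944) (nat_lit 9) nil (node (nat_lit 0) (nat_lit 125944)
  (nat_lit 9) nil nil)))) (node (nat_lit 6) (nat_lit 122682) (nat_lit 8) (node (nat_lit 5)
  (nat_lit 123455) (nat_lit 9) (node (nat_lit 6) (nat_lit 125486) (nat_lit 10) nil (node (nat_lit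
  4) (nat_lit 125486) (nat_lit 10) (node (nat_lit 6) (nat_lit 126656) (nat_lit 11) nil (node
  (nat_lit 5) (nat_lit 126717) (nat_lit 11) nil nil)) nil)) (node (nat_lit 4) (nat_lit 123214)
  (nat_lit 9) nil nil)) (node (nat_lit 0) (nat_lit 125486) (nat_lit 8) nil nil))) (node (nat_lit
  4) (nat_lit 0) (nat_lit 7) (node (nat_lit 5) (nat_lit 119157) (nat_lit 8) (node (nat_lit 6)
  (nat_lit 121876) (nat_lit 9) (node (nat_lit 4) (nat_lit 123907) (nat_lit 10) (node (nat_lit 8)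
  (nat_lit 56930) (nat_lit 11) nil nil) (node (nat_lit 5) (nat_lit 123006) (nat_lit 10) (node
  (nat_lit 4) (nat_lit 116389) (nat_lit 11) nil nil) nil)) (node (nat_lit 8) (nat_lit 125175)
  (nat_lit 9) nil nil)) (node (nat_lit 6) (nat_lit 120699) (nat_lit 8) (node (nat_lit 5) (nat_lit
  122673) (nat_lit 9) (node (nat_lit 4) (nat_lit 120341) (nat_lit 10) (node (nat_lit 5) (nat_lit
  104362) (nat_lit 11) (node (nat_lit 6) (nat_lit 92599) (nat_lit 12) (node (nat_lit 4) (nat_lit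
  88030) (nat_lit 13) nil nil) nil) nil) (node (nat_lit 6) (nat_lit 124704) (nat_lit 10) nil nil))
  (node (nat_lit 4) (nat_lit 123455) (nat_lit 9) (node (nat_lit 5) (nat_lit 125486) (nat_lit 10)
  nil nil) nil)) (node (nat_lit 8) (nat_lit 125486) (nat_lit 8) (node (nat_lit 4) (nat_lit 125486)
  (nat_lit 9) (node (nat_lit 5) (nat_lit 125486) (nat_lit 10) nil nil) (node (nat_lit 6) (nat_lit
  125486) (nat_lit 9) nil nil)) (node (nat_lit 0) (nat_lit 123311) (nat_lit 8) nil nil)))) (node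
  (nat_lit 6) (nat_lit 0) (nat_lit 7) (node (nat_lit 5) (nat_lit 118917) (nat_lit 8) (node
  (nat_lit 4) (nat_lit 121877) (nat_lit 9) (node (nat_lit 6) (nat_lit 122830) (nat_lit 10) (node
  (nat_lit 4) (nat_lit 120783) (nat_lit 11) (node (nat_lit 5) (nat_lit 118113) (nat_lit 12) (node
  (nat_lit 6) (nat_lit 111210) (nat_lit 13) nil nil) nil) nil) nil) nil) (node (nat_lit 4)
  (nat_lit 118265) (nat_lit 8) (node (nat_lit 5) (nat_lit 120952) (nat_lit 9) (node (nat_lit 6)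
  (nat_lit 120035) (nat_lit 10) nil nil) (node (nat_lit 6) (nat_lit 120927) (nat_lit 9) (node
  (nat_lit 5) (nat_lit 122057) (nat_lit 10) nil nil) nil)) (node (nat_lit 8) (nat_lit 124740)
  (nat_lit 8) nil (node (nat_lit 0) (nat_lit 120834) (nat_lit 8) nil nil)))) (node (nat_lit 0)
  (nat_lit 122689) (nat_lit 7) nil nil)))) (node (nat_lit 6) (nat_lit 0) (nat_lit 6) (node
  (nat_lit 8) (nat_lit 0) (nat_lit 7) (node (nat_lit 4) (nat_lit 122155) (nat_lit 8) (node
  (nat_lit 6) (nat_lit 123141) (nat_lit 9) (node (nat_lit 4) (nat_lit 125171) (nat_lit 10) (node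
  (nat_lit 5) (nat_lit 126402) (nat_lit 11) nil nil) (node (nat_lit 5) (nat_lit 125171) (nat_lit
  10) nil nil)) (node (nat_lit 5) (nat_lit 123280) (nat_lit 9) (node (nat_lit 6) (nat_lit 125486)
  (nat_lit 10) nil (node (nat_lit 4) (nat_lit 125277) (nat_lit 10) nil nil)) (node (nat_lit 8)
  (nat_lit 125417) (nat_lit 9) nil (node (nat_lit 0) (nat_lit 125417) (nat_lit 9) nil nil))))
  (node (nat_lit 5) (nat_lit 123008) (nat_lit 8) (node (nat_lit 6) (nat_lit 123455) (nat_lit 9)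
  (node (nat_lit 5) (nat_lit 125486) (nat_lit 10) (node (nat_lit 4) (nat_lit 124382) (nat_lit 11)
  nil nil) (node (nat_lit 4) (nat_lit 125486) (nat_lit 10) nil nil)) (node (nat_lit 4) (nat_lit
  123008) (nat_lit 9) nil nil)) (node (nat_lit 0) (nat_lit 125486) (nat_lit 8) nil nil))) (node
  (nat_lit 4) (nat_lit 0) (nat_lit 7) (node (nat_lit 5) (nat_lit 119130) (nat_lit 8) (node
  (nat_lit 4) (nat_lit 121541) (nat_lit 9) (node (nat_lit 6) (nat_lit 119590) (nat_lit 10) (node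
  (nat_lit 4) (nat_lit 117542) (nat_lit 11) nil nil) nil) (node (nat_lit 6) (nat_lit 121029)
  (nat_lit 9) (node (nat_lit 4) (nat_lit 123060) (nat_lit 10) (node (nat_lit 8) (nat_lit 69703)
  (nat_lit 11) nil nil) (node (nat_lit 5) (nat_lit 117001) (nat_lit 10) nil nil)) nil)) (node
  (nat_lit 6) (nat_lit 118410) (nat_lit 8) (node (nat_lit 5) (nat_lit 122219) (nat_lit 9) (node
  (nat_lit 4) (nat_lit 122684) (nat_lit 10) (node (nat_lit 5) (nat_lit 119208) (nat_lit 11) (node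
  (nat_lit 6) (nat_lit 111348) (nat_lit 12) (node (nat_lit 4) (nat_lit 87976) (nat_lit 13) nil
  nil) nil) nil) (node (nat_lit 6) (nat_lit 124250) (nat_lit 10) nil nil)) (node (nat_lit 8)
  (nat_lit 124428) (nat_lit 9) nil nil)) (node (nat_lit 0) (nat_lit 121039) (nat_lit 8) nil nil)))
  (node (nat_lit 5) (nat_lit 0) (nat_lit 7) (node (nat_lit 4) (nat_lit 117594) (nat_lit 8) (node
  (nat_lit 6) (nat_lit 119298) (nat_lit 9) (node (nat_lit 4) (nat_lit 110607) (nat_lit 10) (node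
  (nat_lit 5) (nat_lit 97228) (nat_lit 11) (node (nat_lit 6) (nat_lit 86368) (nat_lit 12) nil nil)
  nil) (node (nat_lit 5) (nat_lit 121329) (nat_lit 10) nil nil)) (node (nat_lit 5) (nat_lit
  121336) (nat_lit 9) nil (node (nat_lit 8) (nat_lit 123612) (nat_lit 9) nil nil))) (node (nat_lit
  6) (nat_lit 120252) (nat_lit 8) (node (nat_lit 4) (nat_lit 123455) (nat_lit 9) (node (nat_lit 5)
  (nat_lit 125486) (nat_lit 10) nil nil) nil) (node (nat_lit 8) (nat_lit 125486) (nat_lit 8) nil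
  (node (nat_lit 0) (nat_lit 123377) (nat_lit 8) nil nil)))) (node (nat_lit 0) (nat_lit 122352)
  (nat_lit 7) nil nil)))) (node (nat_lit 0) (nat_lit 0) (nat_lit 6) (node (nat_lit 8) (nat_lit 0)
  (nat_lit 7) (node (nat_lit 4) (nat_lit 123455) (nat_lit 8) (node (nat_lit 9) (nat_lit 126717)
  (nat_lit 9) nil (node (nat_lit 8) (nat_lit 126717) (nat_lit 9) nil nil)) (node (nat_lit 5)
  (nat_lit 123455) (nat_lit 8) nil (node (nat_lit 6) (nat_lit 123455) (nat_lit 8) nil (node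
  (nat_lit 0) (nat_lit 125486) (nat_lit 8) nil nil)))) (node (nat_lit 4) (nat_lit 0) (nat_lit 7)
  (node (nat_lit 9) (nat_lit 124740) (nat_lit 8) (node (nat_lit 8) (nat_lit 125971) (nat_lit 9)
  nil nil) (node (nat_lit 5) (nat_lit 116403) (nat_lit 8) (node (nat_lit 8) (nat_lit 122421)
  (nat_lit 9) nil nil) (node (nat_lit 6) (nat_lit 117521) (nat_lit 8) (node (nat_lit 8) (nat_lit
  123539) (nat_lit 9) nil nil) (node (nat_lit 8) (nat_lit 119585) (nat_lit 8) nil (node (nat_lit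
  0) (nat_lit 122326) (nat_lit 8) nil nil))))) (node (nat_lit 5) (nat_lit 119944) (nat_lit 7)
  (node (nat_lit 4) (nat_lit 119685) (nat_lit 8) nil (node (nat_lit 9) (nat_lit 124731) (nat_lit
  8) nil (node (nat_lit 8) (nat_lit 124731) (nat_lit 8) nil (node (nat_lit 6) (nat_lit 119944)
  (nat_lit 8) nil nil)))) (node (nat_lit 6) (nat_lit 118611) (nat_lit 7) (node (nat_lit 4)
  (nat_lit 119025) (nat_lit 8) nil (node (nat_lit 9) (nat_lit 123398) (nat_lit 8) nil (node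
  (nat_lit 8) (nat_lit 123398) (nat_lit 8) nil (node (nat_lit 5) (nat_lit 118611) (nat_lit 8) nil
  nil)))) (node (nat_lit 0) (nat_lit 122880) (nat_lit 7) nil nil))))) (node (nat_lit 4) (nat_lit
  0) (nat_lit 6) (node (nat_lit 5) (nat_lit 0) (nat_lit 7) (node (nat_lit 6) (nat_lit 118950)
  (nat_lit 8) (node (nat_lit 5) (nat_lit 120164) (nat_lit 9) (node (nat_lit 4) (nat_lit 116178)
  (nat_lit 10) (node (nat_lit 5) (nat_lit 103576) (nat_lit 11) (node (nat_lit 6) (nat_lit 98881)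
  (nat_lit 12) (node (nat_lit 4) (nat_lit 99612) (nat_lit 13) nil nil) nil) nil) nil) (node
  (nat_lit 4) (nat_lit 123068) (nat_lit 9) nil nil)) (node (nat_lit 4) (nat_lit 117211) (nat_lit
  8) (node (nat_lit 6) (nat_lit 119096) (nat_lit 9) (node (nat_lit 4) (nat_lit 112195) (nat_lit
  10) (node (nat_lit 5) (nat_lit 94799) (nat_lit 11) (node (nat_lit 6) (nat_lit 82945) (nat_lit
  12) nil nil) nil) nil) nil) (node (nat_lit 8) (nat_lit 122957) (nat_lit 8) nil (node (nat_lit 0)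
  (nat_lit 122957) (nat_lit 8) nil nil)))) (node (nat_lit 6) (nat_lit 0) (nat_lit 7) (node
  (nat_lit 4) (nat_lit 118938) (nat_lit 8) (node (nat_lit 5) (nat_lit 121694) (nat_lit 9) nil
  (node (nat_lit 8) (nat_lit 124956) (nat_lit 9) nil nil)) (node (nat_lit 5) (nat_lit 118886)
  (nat_lit 8) (node (nat_lit 4) (nat_lit 121847) (nat_lit 9) nil (node (nat_lit 6) (nat_lit
  122629) (nat_lit 9) (node (nat_lit 4) (nat_lit 124660) (nat_lit 10) nil nil) nil)) (node
  (nat_lit 8) (nat_lit 121449) (nat_lit 8) nil (node (nat_lit 0) (nat_lit 121449) (nat_lit 8) nil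
  nil)))) (node (nat_lit 0) (nat_lit 123008) (nat_lit 7) (node (nat_lit 4) (nat_lit 123008)
  (nat_lit 8) nil nil) nil))) nil)))) (node (nat_lit 5) (nat_lit 0) (nat_lit 5) (node (nat_lit 0)
  (nat_lit 0) (nat_lit 6) (node (nat_lit 5) (nat_lit 0) (nat_lit 7) (node (nat_lit 4) (nat_lit
  66028) (nat_lit 8) (node (nat_lit 9) (nat_lit 70738) (nat_lit 9) (node (nat_lit 5) (nat_lit
  70738) (nat_lit 10) (node (nat_lit 6) (nat_lit 70738) (nat_lit 11) (node (nat_lit 5) (nat_lit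
  70856) (nat_lit 12) nil nil) (node (nat_lit 9) (nat_lit 70856) (nat_lit 11) nil (node (nat_lit
  0) (nat_lit 70856) (nat_lit 11) nil nil))) (node (nat_lit 4) (nat_lit 70738) (nat_lit 10) nil
  nil)) (node (nat_lit 5) (nat_lit 68324) (nat_lit 9) (node (nat_lit 9) (nat_lit 70856) (nat_lit
  10) (node (nat_lit 4) (nat_lit 70856) (nat_lit 11) nil nil) (node (nat_lit 6) (nat_lit 69753)
  (nat_lit 10) nil nil)) (node (nat_lit 6) (nat_lit 68324) (nat_lit 9) (node (nat_lit 5) (nat_lit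
  67223) (nat_lit 10) (node (nat_lit 4) (nat_lit 65865) (nat_lit 11) nil nil) (node (nat_lit 4)
  (nat_lit 69753) (nat_lit 10) nil (node (nat_lit 0) (nat_lit 70856) (nat_lit 10) nil nil))) (node
  (nat_lit 0) (nat_lit 70738) (nat_lit 9) nil nil)))) (node (nat_lit 6) (nat_lit 66028) (nat_lit
  8) (node (nat_lit 4) (nat_lit 68324) (nat_lit 9) (node (nat_lit 6) (nat_lit 69753) (nat_lit 10)
  nil (node (nat_lit 5) (nat_lit 69753) (nat_lit 10) nil (node (nat_lit 0) (nat_lit 70856)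
  (nat_lit 10) nil nil))) (node (nat_lit 5) (nat_lit 68324) (nat_lit 9) (node (nat_lit 9) (nat_lit
  70856) (nat_lit 10) (node (nat_lit 6) (nat_lit 70856) (nat_lit 11) nil nil) (node (nat_lit 4)
  (nat_lit 69753) (nat_lit 10) nil nil)) (node (nat_lit 9) (nat_lit 70738) (nat_lit 9) (node
  (nat_lit 6) (nat_lit 70738) (nat_lit 10) nil (node (nat_lit 5) (nat_lit 70738) (nat_lit 10) nil
  nil)) (node (nat_lit 0) (nat_lit 70738) (nat_lit 9) nil nil)))) (node (nat_lit 0) (nat_lit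
  69753) (nat_lit 8) (node (nat_lit 9) (nat_lit 70738) (nat_lit 9) (node (nat_lit 5) (nat_lit
  70738) (nat_lit 10) nil nil) (node (nat_lit 5) (nat_lit 69753) (nat_lit 9) (node (nat_lit 9)
  (nat_lit 70856) (nat_lit 10) nil nil) (node (nat_lit 4) (nat_lit 69753) (nat_lit 9) nil (node
  (nat_lit 0) (nat_lit 70738) (nat_lit 9) nil (node (nat_lit 6) (nat_lit 69753) (nat_lit 9) nil
  nil))))) nil))) (node (nat_lit 4) (nat_lit 0) (nat_lit 7) (node (nat_lit 6) (nat_lit 66028)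
  (nat_lit 8) (node (nat_lit 5) (nat_lit 68324) (nat_lit 9) (node (nat_lit 6) (nat_lit 69753)
  (nat_lit 10) nil (node (nat_lit 4) (nat_lit 69753) (nat_lit 10) nil nil)) (node (nat_lit 4)
  (nat_lit 68324) (nat_lit 9) (node (nat_lit 5) (nat_lit 69753) (nat_lit 10) nil nil) nil)) (node
  (nat_lit 9) (nat_lit 69753) (nat_lit 8) (node (nat_lit 5) (nat_lit 69753) (nat_lit 9) (node
  (nat_lit 9) (nat_lit 70856) (nat_lit 10) (node (nat_lit 4) (nat_lit 70856) (nat_lit 11) (node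
  (nat_lit 5) (nat_lit 70856) (nat_lit 12) nil nil) nil) nil) nil) (node (nat_lit 5) (nat_lit
  66028) (nat_lit 8) (node (nat_lit 4) (nat_lit 68324) (nat_lit 9) (node (nat_lit 6) (nat_lit
  66806) (nat_lit 10) nil (node (nat_lit 9) (nat_lit 70856) (nat_lit 10) nil nil)) (node (nat_lit
  6) (nat_lit 67916) (nat_lit 9) nil nil)) (node (nat_lit 0) (nat_lit 69753) (nat_lit 8) nil
  nil)))) (node (nat_lit 6) (nat_lit 0) (nat_lit 7) (node (nat_lit 5) (nat_lit 66028) (nat_lit 8)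
  (node (nat_lit 6) (nat_lit 68324) (nat_lit 9) nil (node (nat_lit 4) (nat_lit 68324) (nat_lit 9)
  nil nil)) (node (nat_lit 4) (nat_lit 66028) (nat_lit 8) (node (nat_lit 5) (nat_lit 68324)
  (nat_lit 9) nil (node (nat_lit 6) (nat_lit 64405) (nat_lit 9) nil nil)) (node (nat_lit 9)
  (nat_lit 69753) (nat_lit 8) (node (nat_lit 5) (nat_lit 69753) (nat_lit 9) (node (nat_lit 9)
  (nat_lit 70856) (nat_lit 10) nil nil) nil) (node (nat_lit 0) (nat_lit 69753) (nat_lit 8) nil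
  nil)))) (node (nat_lit 0) (nat_lit 68324) (nat_lit 7) (node (nat_lit 5) (nat_lit 68324) (nat_lit
  8) (node (nat_lit 9) (nat_lit 70738) (nat_lit 9) nil nil) (node (nat_lit 9) (nat_lit 69753)
  (nat_lit 8) (node (nat_lit 5) (nat_lit 69753) (nat_lit 9) (node (nat_lit 9) (nat_lit 70856)
  (nat_lit 10) nil nil) nil) (node (nat_lit 4) (nat_lit 68324) (nat_lit 8) nil (node (nat_lit 6)
  (nat_lit 68324) (nat_lit 8) nil nil)))) nil)))) (node (nat_lit 4) (nat_lit 0) (nat_lit 6) (node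
  (nat_lit 0) (nat_lit 0) (nat_lit 7) (node (nat_lit 5) (nat_lit 0) (nat_lit 8) (node (nat_lit 4)
  (nat_lit 67081) (nat_lit 9) (node (nat_lit 5) (nat_lit 69753) (nat_lit 10) (node (nat_lit 10)
  (nat_lit 70856) (nat_lit 11) (node (nat_lit 5) (nat_lit 70856) (nat_lit 12) nil (node (nat_lit
  4) (nat_lit 70856) (nat_lit 12) nil (node (nat_lit 6) (nat_lit 70856) (nat_lit 12) nil nil)))
  (node (nat_lit 6) (nat_lit 70738) (nat_lit 11) (node (nat_lit 4) (nat_lit 70561) (nat_lit 12)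
  (node (nat_lit 5) (nat_lit 70856) (nat_lit 13) (node (nat_lit 4) (nat_lit 70856) (nat_lit 14)
  nil nil) nil) (node (nat_lit 5) (nat_lit 70856) (nat_lit 12) (node (nat_lit 4) (nat_lit 70856)
  (nat_lit 13) nil nil) nil)) (node (nat_lit 0) (nat_lit 70856) (nat_lit 11) nil nil))) (node
  (nat_lit 6) (nat_lit 69753) (nat_lit 10) (node (nat_lit 5) (nat_lit 70738) (nat_lit 11) (node
  (nat_lit 4) (nat_lit 70051) (nat_lit 12) nil (node (nat_lit 6) (nat_lit 70856) (nat_lit 12) nil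
  nil)) (node (nat_lit 4) (nat_lit 70738) (nat_lit 11) nil (node (nat_lit 10) (nat_lit 70856)
  (nat_lit 11) nil (node (nat_lit 0) (nat_lit 70856) (nat_lit 11) nil nil)))) (node (nat_lit 0)
  (nat_lit 70847) (nat_lit 10) nil nil))) (node (nat_lit 10) (nat_lit 70738) (nat_lit 9) (node
  (nat_lit 4) (nat_lit 70738) (nat_lit 10) nil nil) (node (nat_lit 6) (nat_lit 67052) (nat_lit 9)
  nil (node (nat_lit 0) (nat_lit 68217) (nat_lit 9) nil nil)))) (node (nat_lit 4) (nat_lit 66156)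
  (nat_lit 8) (node (nat_lit 5) (nat_lit 66799) (nat_lit 9) (node (nat_lit 10) (nat_lit 70856)
  (nat_lit 10) (node (nat_lit 5) (nat_lit 70856) (nat_lit 11) (node (nat_lit 4) (nat_lit 70856)
  (nat_lit 12) (node (nat_lit 10) (nat_lit 70856) (nat_lit 13) nil nil) nil) nil) nil) (node
  (nat_lit 6) (nat_lit 66156) (nat_lit 9) nil nil)) (node (nat_lit 6) (nat_lit 65803) (nat_lit 8)
  (node (nat_lit 4) (nat_lit 67081) (nat_lit 9) (node (nat_lit 6) (nat_lit 69753) (nat_lit 10) nil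
  (node (nat_lit 5) (nat_lit 67062) (nat_lit 10) nil nil)) (node (nat_lit 5) (nat_lit 67052)
  (nat_lit 9) nil nil)) (node (nat_lit 0) (nat_lit 69753) (nat_lit 8) nil nil)))) nil) nil)) (node
  (nat_lit 6) (nat_lit 0) (nat_lit 5) (node (nat_lit 0) (nat_lit 0) (nat_lit 6) (node (nat_lit 6)
  (nat_lit 0) (nat_lit 7) (node (nat_lit 4) (nat_lit 113864) (nat_lit 8) (node (nat_lit 5)
  (nat_lit 119641) (nat_lit 9) (node (nat_lit 6) (nat_lit 123020) (nat_lit 10) (node (nat_lit 4)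
  (nat_lit 125271) (nat_lit 11) (node (nat_lit 6) (nat_lit 124409) (nat_lit 12) (node (nat_lit 9)
  (nat_lit 68923) (nat_lit 13) nil nil) nil) (node (nat_lit 5) (nat_lit 121110) (nat_lit 11) nil
  nil)) (node (nat_lit 4) (nat_lit 124090) (nat_lit 10) (node (nat_lit 6) (nat_lit 123690)
  (nat_lit 11) nil nil) (node (nat_lit 9) (nat_lit 126658) (nat_lit 10) nil (node (nat_lit 0)
  (nat_lit 126658) (nat_lit 10) nil nil)))) (node (nat_lit 9) (nat_lit 126717) (nat_lit 9) (node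
  (nat_lit 6) (nat_lit 126717) (nat_lit 10) (node (nat_lit 5) (nat_lit 126717) (nat_lit 11) nil
  nil) nil) (node (nat_lit 6) (nat_lit 120560) (nat_lit 9) (node (nat_lit 5) (nat_lit 123656)
  (nat_lit 10) nil nil) (node (nat_lit 0) (nat_lit 124815) (nat_lit 9) nil nil)))) (node (nat_lit
  5) (nat_lit 115301) (nat_lit 8) (node (nat_lit 6) (nat_lit 120635) (nat_lit 9) (node (nat_lit 4)
  (nat_lit 124465) (nat_lit 10) nil (node (nat_lit 9) (nat_lit 127341) (nat_lit 10) nil (node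
  (nat_lit 0) (nat_lit 127341) (nat_lit 10) nil nil))) (node (nat_lit 4) (nat_lit 120238) (nat_lit
  9) (node (nat_lit 6) (nat_lit 123127) (nat_lit 10) (node (nat_lit 4) (nat_lit 122716) (nat_lit
  11) nil nil) (node (nat_lit 5) (nat_lit 124465) (nat_lit 10) nil (node (nat_lit 9) (nat_lit
  126944) (nat_lit 10) nil (node (nat_lit 0) (nat_lit 126944) (nat_lit 10) nil nil)))) (node
  (nat_lit 9) (nat_lit 126717) (nat_lit 9) nil (node (nat_lit 0) (nat_lit 126252) (nat_lit 9) nil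
  nil)))) (node (nat_lit 0) (nat_lit 124390) (nat_lit 8) (node (nat_lit 9) (nat_lit 126642)
  (nat_lit 9) nil (node (nat_lit 4) (nat_lit 124390) (nat_lit 9) nil (node (nat_lit 6) (nat_lit
  124390) (nat_lit 9) nil (node (nat_lit 0) (nat_lit 126642) (nat_lit 9) nil (node (nat_lit 5)
  (nat_lit 124390) (nat_lit 9) nil nil))))) nil))) (node (nat_lit 4) (nat_lit 0) (nat_lit 7) (node
  (nat_lit 5) (nat_lit 115049) (nat_lit 8) (node (nat_lit 6) (nat_lit 120635) (nat_lit 9) (node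
  (nat_lit 5) (nat_lit 120644) (nat_lit 10) (node (nat_lit 4) (nat_lit 118312) (nat_lit 11) nil
  nil) (node (nat_lit 4) (nat_lit 124018) (nat_lit 10) nil nil)) (node (nat_lit 4) (nat_lit
  118513) (nat_lit 9) (node (nat_lit 6) (nat_lit 118441) (nat_lit 10) nil nil) (node (nat_lit 9)
  (nat_lit 126000) (nat_lit 9) nil (node (nat_lit 0) (nat_lit 126000) (nat_lit 9) nil nil))))
  (node (nat_lit 9) (nat_lit 124390) (nat_lit 8) (node (nat_lit 6) (nat_lit 124390) (nat_lit 9)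
  (node (nat_lit 9) (nat_lit 127265) (nat_lit 10) nil nil) nil) (node (nat_lit 6) (nat_lit 114705)
  (nat_lit 8) (node (nat_lit 4) (nat_lit 120560) (nat_lit 9) (node (nat_lit 9) (nat_lit 127265)
  (nat_lit 10) nil (node (nat_lit 5) (nat_lit 124390) (nat_lit 10) nil nil)) (node (nat_lit 5)
  (nat_lit 118763) (nat_lit 9) nil nil)) (node (nat_lit 0) (nat_lit 124390) (nat_lit 8) nil
  nil)))) (node (nat_lit 5) (nat_lit 0) (nat_lit 7) (node (nat_lit 6) (nat_lit 115451) (nat_lit 8)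
  (node (nat_lit 5) (nat_lit 120321) (nat_lit 9) (node (nat_lit 9) (nat_lit 127026) (nat_lit 10)
  nil nil) (node (nat_lit 4) (nat_lit 119915) (nat_lit 9) nil nil)) (node (nat_lit 4) (nat_lit
  111623) (nat_lit 8) (node (nat_lit 6) (nat_lit 117992) (nat_lit 9) nil (node (nat_lit 5)
  (nat_lit 116493) (nat_lit 9) nil (node (nat_lit 9) (nat_lit 122574) (nat_lit 9) nil nil))) (node
  (nat_lit 9) (nat_lit 124465) (nat_lit 8) (node (nat_lit 6) (nat_lit 124465) (nat_lit 9) (node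
  (nat_lit 9) (nat_lit 127341) (nat_lit 10) nil nil) nil) (node (nat_lit 0) (nat_lit 122722)
  (nat_lit 8) nil nil)))) (node (nat_lit 0) (nat_lit 120146) (nat_lit 7) (node (nat_lit 6)
  (nat_lit 117754) (nat_lit 8) (node (nat_lit 9) (nat_lit 123836) (nat_lit 9) nil (node (nat_lit
  10) (nat_lit 123836) (nat_lit 9) nil nil)) (node (nat_lit 9) (nat_lit 124465) (nat_lit 8) (node
  (nat_lit 6) (nat_lit 124465) (nat_lit 9) nil nil) (node (nat_lit 0) (nat_lit 123976) (nat_lit 8)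
  nil nil))) nil)))) (node (nat_lit 5) (nat_lit 0) (nat_lit 6) (node (nat_lit 0) (nat_lit 0)
  (nat_lit 7) (node (nat_lit 6) (nat_lit 115705) (nat_lit 8) (node (nat_lit 5) (nat_lit 118906)
  (nat_lit 9) (node (nat_lit 6) (nat_lit 124426) (nat_lit 10) (node (nat_lit 10) (nat_lit 127787)
  (nat_lit 11) nil (node (nat_lit 4) (nat_lit 126523) (nat_lit 11) nil (node (nat_lit 0) (nat_lit
  127787) (nat_lit 11) nil nil))) (node (nat_lit 4) (nat_lit 124436) (nat_lit 10) (node (nat_lit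
  6) (nat_lit 126634) (nat_lit 11) nil (node (nat_lit 5) (nat_lit 125718) (nat_lit 11) nil (node
  (nat_lit 10) (nat_lit 127758) (nat_lit 11) nil nil))) (node (nat_lit 0) (nat_lit 126846)
  (nat_lit 10) nil nil))) (node (nat_lit 4) (nat_lit 115482) (nat_lit 9) nil (node (nat_lit 10)
  (nat_lit 121787) (nat_lit 9) nil nil))) (node (nat_lit 4) (nat_lit 111894) (nat_lit 8) (node
  (nat_lit 5) (nat_lit 115395) (nat_lit 9) (node (nat_lit 4) (nat_lit 116892) (nat_lit 10) nil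
  (node (nat_lit 6) (nat_lit 117988) (nat_lit 10) nil nil)) nil) (node (nat_lit 5) (nat_lit
  112769) (nat_lit 8) (node (nat_lit 6) (nat_lit 116799) (nat_lit 9) (node (nat_lit 10) (nat_lit
  124739) (nat_lit 10) (node (nat_lit 6) (nat_lit 124739) (nat_lit 11) nil nil) nil) nil) (node
  (nat_lit 0) (nat_lit 118605) (nat_lit 8) nil nil)))) (node (nat_lit 4) (nat_lit 0) (nat_lit 7)
  (node (nat_lit 6) (nat_lit 0) (nat_lit 8) (node (nat_lit 4) (nat_lit 0) (nat_lit 9) (node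
  (nat_lit 5) (nat_lit 84927) (nat_lit 10) (node (nat_lit 6) (nat_lit 64338) (nat_lit 11) nil nil)
  (node (nat_lit 0) (nat_lit 87043) (nat_lit 10) nil nil)) (node (nat_lit 0) (nat_lit 87840)
  (nat_lit 9) (node (nat_lit 4) (nat_lit 87840) (nat_lit 10) nil nil) nil)) (node (nat_lit 5)
  (nat_lit 0) (nat_lit 8) (node (nat_lit 6) (nat_lit 0) (nat_lit 9) (node (nat_lit 5) (nat_lit
  50887) (nat_lit 10) nil (node (nat_lit 0) (nat_lit 60292) (nat_lit 10) nil nil)) (node (nat_lit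
  0) (nat_lit 77388) (nat_lit 9) nil nil)) (node (nat_lit 0) (nat_lit 91093) (nat_lit 8) (node
  (nat_lit 4) (nat_lit 91093) (nat_lit 9) nil (node (nat_lit 5) (nat_lit 91093) (nat_lit 9) nil
  nil)) nil))) (node (nat_lit 6) (nat_lit 0) (nat_lit 7) (node (nat_lit 0) (nat_lit 115636)
  (nat_lit 8) (node (nat_lit 4) (nat_lit 115786) (nat_lit 9) (node (nat_lit 5) (nat_lit 115786)
  (nat_lit 10) nil nil) nil) (node (nat_lit 4) (nat_lit 0) (nat_lit 8) (node (nat_lit 0) (nat_lit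
  110717) (nat_lit 9) nil nil) nil)) nil))) nil)) nil)))

noncomputable def t385 : Tr :=
  (node (nat_lit 0) (nat_lit 0) (nat_lit 5) (node (nat_lit 4) (nat_lit 0) (nat_lit 6) (node
  (nat_lit 8) (nat_lit 0) (nat_lit 7) (node (nat_lit 5) (nat_lit 114141) (nat_lit 8) (node
  (nat_lit 4) (nat_lit 117065) (nat_lit 9) (node (nat_lit 6) (nat_lit 118138) (nat_lit 10) (node
  (nat_lit 5) (nat_lit 119515) (nat_lit 11) (node (nat_lit 6) (nat_lit 120229) (nat_lit 12) nil
  (node (nat_lit 4) (nat_lit 114925) (nat_lit 12) nil nil)) (node (nat_lit 4) (nat_lit 119369)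
  (nat_lit 11) nil nil)) (node (nat_lit 5) (nat_lit 120498) (nat_lit 10) (node (nat_lit 6)
  (nat_lit 119498) (nat_lit 11) nil nil) nil)) (node (nat_lit 6) (nat_lit 118532) (nat_lit 9)
  (node (nat_lit 4) (nat_lit 120563) (nat_lit 10) nil (node (nat_lit 5) (nat_lit 120563) (nat_lit
  10) nil nil)) (node (nat_lit 8) (nat_lit 117403) (nat_lit 9) nil (node (nat_lit 0) (nat_lit
  117403) (nat_lit 9) nil nil)))) (node (nat_lit 6) (nat_lit 114310) (nat_lit 8) (node (nat_lit 4)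
  (nat_lit 117705) (nat_lit 9) (node (nat_lit 6) (nat_lit 118778) (nat_lit 10) (node (nat_lit 5)
  (nat_lit 118850) (nat_lit 11) (node (nat_lit 4) (nat_lit 117250) (nat_lit 12) nil nil) (node
  (nat_lit 8) (nat_lit 121768) (nat_lit 11) nil nil)) (node (nat_lit 5) (nat_lit 119007) (nat_lit
  10) (node (nat_lit 6) (nat_lit 118007) (nat_lit 11) nil (node (nat_lit 4) (nat_lit 117903)
  (nat_lit 11) nil nil)) nil)) (node (nat_lit 5) (nat_lit 115581) (nat_lit 9) nil nil)) (node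
  (nat_lit 0) (nat_lit 117297) (nat_lit 8) nil nil))) (node (nat_lit 5) (nat_lit 0) (nat_lit 7)
  (node (nat_lit 4) (nat_lit 109229) (nat_lit 8) (node (nat_lit 6) (nat_lit 116406) (nat_lit 9)
  (node (nat_lit 5) (nat_lit 118077) (nat_lit 10) (node (nat_lit 6) (nat_lit 118944) (nat_lit 11)
  nil nil) (node (nat_lit 4) (nat_lit 114415) (nat_lit 10) (node (nat_lit 5) (nat_lit 98330)
  (nat_lit 11) (node (nat_lit 6) (nat_lit 85095) (nat_lit 12) nil nil) nil) nil)) (node (nat_lit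
  8) (nat_lit 115247) (nat_lit 9) nil nil)) (node (nat_lit 6) (nat_lit 108915) (nat_lit 8) (node
  (nat_lit 5) (nat_lit 113388) (nat_lit 9) (node (nat_lit 4) (nat_lit 113230) (nat_lit 10) (node
  (nat_lit 5) (nat_lit 115222) (nat_lit 11) (node (nat_lit 6) (nat_lit 116070) (nat_lit 12) nil
  nil) nil) nil) (node (nat_lit 4) (nat_lit 113958) (nat_lit 9) (node (nat_lit 6) (nat_lit 113042)
  (nat_lit 10) nil nil) (node (nat_lit 8) (nat_lit 114933) (nat_lit 9) nil nil))) (node (nat_lit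
  8) (nat_lit 117632) (nat_lit 8) (node (nat_lit 5) (nat_lit 117632) (nat_lit 9) (node (nat_lit 4)
  (nat_lit 117632) (nat_lit 10) nil nil) (node (nat_lit 6) (nat_lit 117632) (nat_lit 9) nil nil))
  (node (nat_lit 0) (nat_lit 113589) (nat_lit 8) nil nil)))) (node (nat_lit 6) (nat_lit 0)
  (nat_lit 7) (node (nat_lit 5) (nat_lit 110441) (nat_lit 8) (node (nat_lit 4) (nat_lit 115917)
  (nat_lit 9) (node (nat_lit 6) (nat_lit 117642) (nat_lit 10) (node (nat_lit 4) (nat_lit 117002)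
  (nat_lit 11) (node (nat_lit 5) (nat_lit 113821) (nat_lit 12) (node (nat_lit 6) (nat_lit 106935)
  (nat_lit 13) nil nil) nil) nil) nil) (node (nat_lit 6) (nat_lit 115658) (nat_lit 9) (node
  (nat_lit 4) (nat_lit 112246) (nat_lit 10) (node (nat_lit 5) (nat_lit 101324) (nat_lit 11) nil
  nil) nil) (node (nat_lit 8) (nat_lit 116459) (nat_lit 9) nil nil))) (node (nat_lit 4) (nat_lit
  107564) (nat_lit 8) (node (nat_lit 5) (nat_lit 115072) (nat_lit 9) (node (nat_lit 6) (nat_lit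
  117703) (nat_lit 10) nil nil) nil) (node (nat_lit 8) (nat_lit 116872) (nat_lit 8) nil (node
  (nat_lit 0) (nat_lit 107252) (nat_lit 8) nil nil)))) (node (nat_lit 0) (nat_lit 111082) (nat_lit
  7) nil nil)))) (node (nat_lit 6) (nat_lit 0) (nat_lit 6) (node (nat_lit 8) (nat_lit 0) (nat_lit
  7) (node (nat_lit 5) (nat_lit 114642) (nat_lit 8) (node (nat_lit 6) (nat_lit 117116) (nat_lit 9)
  (node (nat_lit 5) (nat_lit 119315) (nat_lit 10) (node (nat_lit 4) (nat_lit 118210) (nat_lit 11)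
  nil nil) (node (nat_lit 4) (nat_lit 119147) (nat_lit 10) nil nil)) (node (nat_lit 4) (nat_lit
  117495) (nat_lit 9) (node (nat_lit 6) (nat_lit 116100) (nat_lit 10) nil (node (nat_lit 5)
  (nat_lit 119526) (nat_lit 10) nil nil)) (node (nat_lit 8) (nat_lit 117904) (nat_lit 9) nil (node
  (nat_lit 0) (nat_lit 117904) (nat_lit 9) nil nil)))) (node (nat_lit 4) (nat_lit 114573) (nat_lit
  8) (node (nat_lit 6) (nat_lit 118360) (nat_lit 9) (node (nat_lit 5) (nat_lit 121343) (nat_lit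
  10) (node (nat_lit 6) (nat_lit 119481) (nat_lit 11) nil nil) (node (nat_lit 4) (nat_lit 120391)
  (nat_lit 10) nil nil)) (node (nat_lit 5) (nat_lit 113439) (nat_lit 9) nil nil)) (node (nat_lit
  0) (nat_lit 118111) (nat_lit 8) nil nil))) (node (nat_lit 5) (nat_lit 0) (nat_lit 7) (node
  (nat_lit 4) (nat_lit 109020) (nat_lit 8) (node (nat_lit 6) (nat_lit 110999) (nat_lit 9) (node
  (nat_lit 4) (nat_lit 104755) (nat_lit 10) (node (nat_lit 5) (nat_lit 98677) (nat_lit 11) (node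
  (nat_lit 6) (nat_lit 86162) (nat_lit 12) nil nil) nil) nil) (node (nat_lit 5) (nat_lit 112872)
  (nat_lit 9) (node (nat_lit 6) (nat_lit 111956) (nat_lit 10) nil nil) (node (nat_lit 8) (nat_lit
  115038) (nat_lit 9) nil nil))) (node (nat_lit 6) (nat_lit 111258) (nat_lit 8) (node (nat_lit 4)
  (nat_lit 117615) (nat_lit 9) (node (nat_lit 5) (nat_lit 119646) (nat_lit 10) nil (node (nat_lit
  6) (nat_lit 117595) (nat_lit 10) nil nil)) (node (nat_lit 8) (nat_lit 117276) (nat_lit 9) nil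
  nil)) (node (nat_lit 0) (nat_lit 114486) (nat_lit 8) nil nil))) (node (nat_lit 4) (nat_lit 0)
  (nat_lit 7) (node (nat_lit 6) (nat_lit 108397) (nat_lit 8) (node (nat_lit 5) (nat_lit 113720)
  (nat_lit 9) (node (nat_lit 4) (nat_lit 112748) (nat_lit 10) (node (nat_lit 5) (nat_lit 97950)
  (nat_lit 11) (node (nat_lit 6) (nat_lit 78321) (nat_lit 12) (node (nat_lit 5) (nat_lit 78767)
  (nat_lit 13) nil nil) nil) nil) (node (nat_lit 6) (nat_lit 109957) (nat_lit 10) nil nil)) nil)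
  (node (nat_lit 5) (nat_lit 109855) (nat_lit 8) (node (nat_lit 6) (nat_lit 117091) (nat_lit 9)
  (node (nat_lit 5) (nat_lit 113329) (nat_lit 10) nil nil) (node (nat_lit 4) (nat_lit 113798)
  (nat_lit 9) (node (nat_lit 6) (nat_lit 107088) (nat_lit 10) nil nil) (node (nat_lit 8) (nat_lit
  115874) (nat_lit 9) nil nil))) (node (nat_lit 8) (nat_lit 116984) (nat_lit 8) nil (node (nat_lit
  0) (nat_lit 107365) (nat_lit 8) nil nil)))) (node (nat_lit 0) (nat_lit 111719) (nat_lit 7) nil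
  nil)))) (node (nat_lit 0) (nat_lit 0) (nat_lit 6) (node (nat_lit 8) (nat_lit 0) (nat_lit 7)
  (node (nat_lit 5) (nat_lit 114780) (nat_lit 8) (node (nat_lit 9) (nat_lit 121554) (nat_lit 9)
  (node (nat_lit 8) (nat_lit 122489) (nat_lit 10) nil nil) (node (nat_lit 8) (nat_lit 118042)
  (nat_lit 9) nil nil)) (node (nat_lit 4) (nat_lit 115428) (nat_lit 8) (node (nat_lit 9) (nat_lit
  118690) (nat_lit 9) nil nil) (node (nat_lit 6) (nat_lit 114350) (nat_lit 8) (node (nat_lit 9)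
  (nat_lit 117612) (nat_lit 9) nil nil) (node (nat_lit 0) (nat_lit 119469) (nat_lit 8) nil nil))))
  (node (nat_lit 5) (nat_lit 0) (nat_lit 7) (node (nat_lit 9) (nat_lit 120077) (nat_lit 8) (node
  (nat_lit 8) (nat_lit 121308) (nat_lit 9) nil nil) (node (nat_lit 6) (nat_lit 113460) (nat_lit 8)
  (node (nat_lit 8) (nat_lit 119479) (nat_lit 9) nil nil) (node (nat_lit 4) (nat_lit 110714)
  (nat_lit 8) (node (nat_lit 8) (nat_lit 116732) (nat_lit 9) nil nil) (node (nat_lit 0) (nat_lit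
  119571) (nat_lit 8) nil (node (nat_lit 8) (nat_lit 119571) (nat_lit 8) nil nil))))) (node
  (nat_lit 6) (nat_lit 0) (nat_lit 7) (node (nat_lit 5) (nat_lit 108635) (nat_lit 8) nil (node
  (nat_lit 9) (nat_lit 110252) (nat_lit 8) nil (node (nat_lit 4) (nat_lit 105465) (nat_lit 8) nil
  (node (nat_lit 8) (nat_lit 110252) (nat_lit 8) nil (node (nat_lit 0) (nat_lit 110252) (nat_lit
  8) nil nil))))) (node (nat_lit 4) (nat_lit 0) (nat_lit 7) (node (nat_lit 5) (nat_lit 105290)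
  (nat_lit 8) nil (node (nat_lit 9) (nat_lit 110252) (nat_lit 8) nil (node (nat_lit 6) (nat_lit
  105465) (nat_lit 8) nil (node (nat_lit 8) (nat_lit 110252) (nat_lit 8) nil (node (nat_lit 0)
  (nat_lit 110252) (nat_lit 8) nil nil))))) (node (nat_lit 0) (nat_lit 113270) (nat_lit 7) nil
  nil))))) (node (nat_lit 5) (nat_lit 0) (nat_lit 6) (node (nat_lit 4) (nat_lit 100029) (nat_lit
  7) (node (nat_lit 6) (nat_lit 112960) (nat_lit 8) (node (nat_lit 5) (nat_lit 115682) (nat_lit 9)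
  (node (nat_lit 4) (nat_lit 106373) (nat_lit 10) nil nil) (node (nat_lit 4) (nat_lit 118232)
  (nat_lit 9) (node (nat_lit 5) (nat_lit 120262) (nat_lit 10) nil nil) nil)) (node (nat_lit 5)
  (nat_lit 112169) (nat_lit 8) (node (nat_lit 6) (nat_lit 116351) (nat_lit 9) (node (nat_lit 5)
  (nat_lit 119279) (nat_lit 10) (node (nat_lit 8) (nat_lit 79462) (nat_lit 11) nil nil) nil) nil)
  (node (nat_lit 8) (nat_lit 110532) (nat_lit 8) nil nil))) (node (nat_lit 6) (nat_lit 0) (nat_lit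
  7) (node (nat_lit 4) (nat_lit 113082) (nat_lit 8) (node (nat_lit 6) (nat_lit 120294) (nat_lit 9)
  (node (nat_lit 5) (nat_lit 113447) (nat_lit 10) nil nil) (node (nat_lit 5) (nat_lit 115081)
  (nat_lit 9) nil nil)) (node (nat_lit 5) (nat_lit 112011) (nat_lit 8) (node (nat_lit 4) (nat_lit
  117487) (nat_lit 9) (node (nat_lit 5) (nat_lit 119518) (nat_lit 10) nil nil) nil) (node (nat_lit
  8) (nat_lit 115906) (nat_lit 8) nil (node (nat_lit 0) (nat_lit 110226) (nat_lit 8) nil nil))))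
  (node (nat_lit 0) (nat_lit 114151) (nat_lit 7) (node (nat_lit 5) (nat_lit 114151) (nat_lit 8)
  nil nil) nil))) nil)))) (node (nat_lit 4) (nat_lit 0) (nat_lit 5) (node (nat_lit 0) (nat_lit 0)
  (nat_lit 6) (node (nat_lit 4) (nat_lit 0) (nat_lit 7) (node (nat_lit 5) (nat_lit 104119)
  (nat_lit 8) (node (nat_lit 9) (nat_lit 119517) (nat_lit 9) (node (nat_lit 4) (nat_lit 119517)
  (nat_lit 10) nil nil) (node (nat_lit 6) (nat_lit 113881) (nat_lit 9) (node (nat_lit 4) (nat_lit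
  117199) (nat_lit 10) nil (node (nat_lit 5) (nat_lit 118607) (nat_lit 10) (node (nat_lit 4)
  (nat_lit 119283) (nat_lit 11) nil nil) (node (nat_lit 9) (nat_lit 120898) (nat_lit 10) nil (node
  (nat_lit 0) (nat_lit 120898) (nat_lit 10) nil nil)))) (node (nat_lit 4) (nat_lit 112059)
  (nat_lit 9) (node (nat_lit 9) (nat_lit 121758) (nat_lit 10) nil (node (nat_lit 6) (nat_lit
  113255) (nat_lit 10) nil nil)) (node (nat_lit 0) (nat_lit 119997) (nat_lit 9) nil nil)))) (node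
  (nat_lit 6) (nat_lit 104890) (nat_lit 8) (node (nat_lit 5) (nat_lit 114533) (nat_lit 9) (node
  (nat_lit 6) (nat_lit 118336) (nat_lit 10) (node (nat_lit 4) (nat_lit 118912) (nat_lit 11) (node
  (nat_lit 5) (nat_lit 112437) (nat_lit 12) nil nil) nil) (node (nat_lit 4) (nat_lit 118869)
  (nat_lit 10) nil (node (nat_lit 0) (nat_lit 121550) (nat_lit 10) nil (node (nat_lit 9) (nat_lit
  121550) (nat_lit 10) nil nil)))) (node (nat_lit 4) (nat_lit 113202) (nat_lit 9) (node (nat_lit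
  9) (nat_lit 120219) (nat_lit 10) nil (node (nat_lit 5) (nat_lit 116171) (nat_lit 10) nil (node
  (nat_lit 0) (nat_lit 120219) (nat_lit 10) nil nil))) (node (nat_lit 9) (nat_lit 120488) (nat_lit
  9) nil (node (nat_lit 0) (nat_lit 120042) (nat_lit 9) nil nil)))) (node (nat_lit 0) (nat_lit
  115303) (nat_lit 8) (node (nat_lit 4) (nat_lit 114660) (nat_lit 9) (node (nat_lit 9) (nat_lit
  117847) (nat_lit 10) nil nil) (node (nat_lit 9) (nat_lit 118552) (nat_lit 9) (node (nat_lit 4)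
  (nat_lit 118552) (nat_lit 10) nil nil) (node (nat_lit 5) (nat_lit 115303) (nat_lit 9) nil (node
  (nat_lit 0) (nat_lit 117555) (nat_lit 9) nil (node (nat_lit 6) (nat_lit 115303) (nat_lit 9) nil
  nil))))) nil))) (node (nat_lit 5) (nat_lit 0) (nat_lit 7) (node (nat_lit 6) (nat_lit 106007)
  (nat_lit 8) (node (nat_lit 4) (nat_lit 114298) (nat_lit 9) (node (nat_lit 5) (nat_lit 118128)
  (nat_lit 10) nil (node (nat_lit 6) (nat_lit 116078) (nat_lit 10) nil nil)) (node (nat_lit 5)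
  (nat_lit 112592) (nat_lit 9) (node (nat_lit 4) (nat_lit 113154) (nat_lit 10) nil nil) (node
  (nat_lit 9) (nat_lit 116958) (nat_lit 9) nil (node (nat_lit 0) (nat_lit 116958) (nat_lit 9) nil
  nil)))) (node (nat_lit 4) (nat_lit 105338) (nat_lit 8) (node (nat_lit 5) (nat_lit 114644)
  (nat_lit 9) (node (nat_lit 9) (nat_lit 121661) (nat_lit 10) nil (node (nat_lit 6) (nat_lit
  115527) (nat_lit 10) nil nil)) (node (nat_lit 6) (nat_lit 113604) (nat_lit 9) nil (node (nat_lit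
  0) (nat_lit 116289) (nat_lit 9) nil nil))) (node (nat_lit 9) (nat_lit 116497) (nat_lit 8) (node
  (nat_lit 4) (nat_lit 116943) (nat_lit 9) (node (nat_lit 9) (nat_lit 120129) (nat_lit 10) nil
  (node (nat_lit 5) (nat_lit 116943) (nat_lit 10) nil nil)) nil) (node (nat_lit 0) (nat_lit
  115266) (nat_lit 8) nil nil)))) (node (nat_lit 6) (nat_lit 0) (nat_lit 7) (node (nat_lit 5)
  (nat_lit 102717) (nat_lit 8) (node (nat_lit 4) (nat_lit 109161) (nat_lit 9) (node (nat_lit 6)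
  (nat_lit 110940) (nat_lit 10) (node (nat_lit 4) (nat_lit 111321) (nat_lit 11) (node (nat_lit 5)
  (nat_lit 108139) (nat_lit 12) (node (nat_lit 6) (nat_lit 101253) (nat_lit 13) (node (nat_lit 5)
  (nat_lit 91458) (nat_lit 14) (node (nat_lit 4) (nat_lit 74199) (nat_lit 15) nil nil) nil) nil)
  nil) nil) nil) (node (nat_lit 6) (nat_lit 109838) (nat_lit 9) nil (node (nat_lit 9) (nat_lit
  113668) (nat_lit 9) nil nil))) (node (nat_lit 4) (nat_lit 103579) (nat_lit 8) (node (nat_lit 6)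
  (nat_lit 110557) (nat_lit 9) (node (nat_lit 9) (nat_lit 117574) (nat_lit 10) nil nil) (node
  (nat_lit 5) (nat_lit 111207) (nat_lit 9) nil (node (nat_lit 0) (nat_lit 114530) (nat_lit 9) nil
  nil))) (node (nat_lit 9) (nat_lit 114461) (nat_lit 8) (node (nat_lit 4) (nat_lit 114461)
  (nat_lit 9) nil nil) (node (nat_lit 0) (nat_lit 113619) (nat_lit 8) nil nil)))) (node (nat_lit
  0) (nat_lit 108828) (nat_lit 7) (node (nat_lit 4) (nat_lit 108202) (nat_lit 8) (node (nat_lit 9)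
  (nat_lit 118325) (nat_lit 9) nil (node (nat_lit 10) (nat_lit 114284) (nat_lit 9) nil nil)) (node
  (nat_lit 9) (nat_lit 116208) (nat_lit 8) (node (nat_lit 4) (nat_lit 116208) (nat_lit 9) nil nil)
  (node (nat_lit 5) (nat_lit 108828) (nat_lit 8) nil (node (nat_lit 0) (nat_lit 112658) (nat_lit
  8) nil nil)))) nil)))) (node (nat_lit 5) (nat_lit 0) (nat_lit 6) (node (nat_lit 0) (nat_lit 0)
  (nat_lit 7) (node (nat_lit 4) (nat_lit 0) (nat_lit 8) (node (nat_lit 5) (nat_lit 74566) (nat_lit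
  9) (node (nat_lit 4) (nat_lit 77660) (nat_lit 10) (node (nat_lit 10) (nat_lit 81016) (nat_lit
  11) (node (nat_lit 4) (nat_lit 81016) (nat_lit 12) (node (nat_lit 5) (nat_lit 81016) (nat_lit
  13) (node (nat_lit 10) (nat_lit 81016) (nat_lit 14) nil nil) nil) (node (nat_lit 5) (nat_lit
  81016) (nat_lit 12) (node (nat_lit 10) (nat_lit 81016) (nat_lit 13) nil (node (nat_lit 4)
  (nat_lit 81016) (nat_lit 13) nil nil)) (node (nat_lit 6) (nat_lit 81016) (nat_lit 12) nil (node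
  (nat_lit 0) (nat_lit 81016) (nat_lit 12) nil nil)))) (node (nat_lit 6) (nat_lit 77278) (nat_lit
  11) (node (nat_lit 4) (nat_lit 77105) (nat_lit 12) (node (nat_lit 5) (nat_lit 75517) (nat_lit
  13) (node (nat_lit 6) (nat_lit 72386) (nat_lit 14) (node (nat_lit 5) (nat_lit 65556) (nat_lit
  15) (node (nat_lit 4) (nat_lit 54152) (nat_lit 16) nil nil) nil) nil) nil) (node (nat_lit 5)
  (nat_lit 78544) (nat_lit 12) (node (nat_lit 4) (nat_lit 78990) (nat_lit 13) nil (node (nat_lit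
  6) (nat_lit 79354) (nat_lit 13) nil nil)) (node (nat_lit 10) (nat_lit 78635) (nat_lit 12) nil
  nil))) (node (nat_lit 0) (nat_lit 80906) (nat_lit 11) nil nil))) (node (nat_lit 6) (nat_lit
  78395) (nat_lit 10) (node (nat_lit 4) (nat_lit 80107) (nat_lit 11) nil (node (nat_lit 5)
  (nat_lit 79661) (nat_lit 11) (node (nat_lit 4) (nat_lit 78285) (nat_lit 12) nil nil) (node
  (nat_lit 10) (nat_lit 80613) (nat_lit 11) nil (node (nat_lit 0) (nat_lit 80613) (nat_lit 11) nil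
  nil)))) (node (nat_lit 0) (nat_lit 80025) (nat_lit 10) nil nil))) (node (nat_lit 10) (nat_lit
  78661) (nat_lit 9) (node (nat_lit 5) (nat_lit 78661) (nat_lit 10) (node (nat_lit 10) (nat_lit
  79612) (nat_lit 11) nil nil) nil) (node (nat_lit 6) (nat_lit 74295) (nat_lit 9) nil (node
  (nat_lit 0) (nat_lit 75350) (nat_lit 9) nil nil)))) (node (nat_lit 5) (nat_lit 72715) (nat_lit
  8) (node (nat_lit 4) (nat_lit 74929) (nat_lit 9) (node (nat_lit 10) (nat_lit 80643) (nat_lit 10)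
  (node (nat_lit 4) (nat_lit 80643) (nat_lit 11) (node (nat_lit 5) (nat_lit 80643) (nat_lit 12)
  (node (nat_lit 10) (nat_lit 81016) (nat_lit 13) nil nil) nil) nil) nil) (node (nat_lit 6)
  (nat_lit 72715) (nat_lit 9) nil nil)) (node (nat_lit 6) (nat_lit 70020) (nat_lit 8) (node
  (nat_lit 5) (nat_lit 74031) (nat_lit 9) (node (nat_lit 6) (nat_lit 77367) (nat_lit 10) nil (node
  (nat_lit 4) (nat_lit 77094) (nat_lit 10) nil nil)) (node (nat_lit 4) (nat_lit 70020) (nat_lit 9)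
  nil nil)) (node (nat_lit 0) (nat_lit 76133) (nat_lit 8) nil nil)))) nil) (node (nat_lit 6)
  (nat_lit 0) (nat_lit 6) (node (nat_lit 0) (nat_lit 0) (nat_lit 7) (node (nat_lit 4) (nat_lit
  91319) (nat_lit 8) (node (nat_lit 6) (nat_lit 99780) (nat_lit 9) (node (nat_lit 4) (nat_lit
  108396) (nat_lit 10) (node (nat_lit 5) (nat_lit 110690) (nat_lit 11) (node (nat_lit 6) (nat_lit
  109828) (nat_lit 12) nil nil) (node (nat_lit 10) (nat_lit 115399) (nat_lit 11) nil (node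
  (nat_lit 0) (nat_lit 114802) (nat_lit 11) nil nil))) (node (nat_lit 5) (nat_lit 109489) (nat_lit
  10) (node (nat_lit 6) (nat_lit 113267) (nat_lit 11) nil (node (nat_lit 4) (nat_lit 114170)
  (nat_lit 11) nil (node (nat_lit 10) (nat_lit 113500) (nat_lit 11) nil nil))) (node (nat_lit 0)
  (nat_lit 111569) (nat_lit 10) nil nil))) (node (nat_lit 5) (nat_lit 96532) (nat_lit 9) nil (node
  (nat_lit 10) (nat_lit 97401) (nat_lit 9) nil nil))) (node (nat_lit 6) (nat_lit 91811) (nat_lit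
  8) (node (nat_lit 4) (nat_lit 99858) (nat_lit 9) (node (nat_lit 10) (nat_lit 111646) (nat_lit
  10) (node (nat_lit 4) (nat_lit 111646) (nat_lit 11) (node (nat_lit 6) (nat_lit 111646) (nat_lit
  12) nil nil) nil) nil) (node (nat_lit 5) (nat_lit 91811) (nat_lit 9) nil nil)) (node (nat_lit 5)
  (nat_lit 93675) (nat_lit 8) (node (nat_lit 6) (nat_lit 101467) (nat_lit 9) (node (nat_lit 5)
  (nat_lit 104925) (nat_lit 10) nil (node (nat_lit 4) (nat_lit 104785) (nat_lit 10) nil nil)) nil)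
  (node (nat_lit 0) (nat_lit 96288) (nat_lit 8) nil nil)))) (node (nat_lit 5) (nat_lit 0) (nat_lit
  7) (node (nat_lit 6) (nat_lit 0) (nat_lit 8) (node (nat_lit 4) (nat_lit 0) (nat_lit 9) (node
  (nat_lit 6) (nat_lit 86084) (nat_lit 10) nil (node (nat_lit 0) (nat_lit 96777) (nat_lit 10) nil
  nil)) (node (nat_lit 0) (nat_lit 95041) (nat_lit 9) nil nil)) (node (nat_lit 0) (nat_lit 93421)
  (nat_lit 8) (node (nat_lit 5) (nat_lit 93421) (nat_lit 9) nil nil) nil)) nil)) nil))) nil))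

noncomputable def t386 : Tr :=
  (node (nat_lit 5) (nat_lit 0) (nat_lit 5) (node (nat_lit 0) (nat_lit 0) (nat_lit 6) (node
  (nat_lit 5) (nat_lit 0) (nat_lit 7) (node (nat_lit 7) (nat_lit 51217) (nat_lit 8) (node (nat_lit
  9) (nat_lit 62397) (nat_lit 9) (node (nat_lit 5) (nat_lit 63286) (nat_lit 10) (node (nat_lit 4)
  (nat_lit 62574) (nat_lit 11) (node (nat_lit 5) (nat_lit 61127) (nat_lit 12) nil nil) (node
  (nat_lit 9) (nat_lit 65780) (nat_lit 11) nil (node (nat_lit 0) (nat_lit 64209) (nat_lit 11) nil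
  nil))) (node (nat_lit 7) (nat_lit 62268) (nat_lit 10) nil nil)) (node (nat_lit 5) (nat_lit
  57418) (nat_lit 9) (node (nat_lit 9) (nat_lit 64344) (nat_lit 10) (node (nat_lit 7) (nat_lit
  64344) (nat_lit 11) nil nil) (node (nat_lit 4) (nat_lit 59623) (nat_lit 10) nil nil)) (node
  (nat_lit 4) (nat_lit 58746) (nat_lit 9) (node (nat_lit 5) (nat_lit 62776) (nat_lit 10) (node
  (nat_lit 7) (nat_lit 64026) (nat_lit 11) nil (node (nat_lit 4) (nat_lit 61620) (nat_lit 11) nil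
  nil)) (node (nat_lit 7) (nat_lit 63143) (nat_lit 10) (node (nat_lit 5) (nat_lit 61987) (nat_lit
  11) nil nil) (node (nat_lit 0) (nat_lit 62774) (nat_lit 10) nil (node (nat_lit 9) (nat_lit
  62774) (nat_lit 10) nil nil)))) (node (nat_lit 0) (nat_lit 61982) (nat_lit 9) nil nil)))) (node
  (nat_lit 4) (nat_lit 52600) (nat_lit 8) (node (nat_lit 7) (nat_lit 59852) (nat_lit 9) (node
  (nat_lit 4) (nat_lit 63822) (nat_lit 10) (node (nat_lit 5) (nat_lit 65071) (nat_lit 11) nil nil)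
  (node (nat_lit 5) (nat_lit 62318) (nat_lit 10) (node (nat_lit 7) (nat_lit 62288) (nat_lit 11)
  nil nil) (node (nat_lit 9) (nat_lit 63880) (nat_lit 10) nil (node (nat_lit 0) (nat_lit 63880)
  (nat_lit 10) nil nil)))) (node (nat_lit 5) (nat_lit 58665) (nat_lit 9) (node (nat_lit 7)
  (nat_lit 61784) (nat_lit 10) (node (nat_lit 4) (nat_lit 55022) (nat_lit 11) nil nil) (node
  (nat_lit 9) (nat_lit 64451) (nat_lit 10) (node (nat_lit 4) (nat_lit 64451) (nat_lit 11) nil nil)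
  (node (nat_lit 0) (nat_lit 62692) (nat_lit 10) nil nil))) (node (nat_lit 9) (nat_lit 63278)
  (nat_lit 9) (node (nat_lit 4) (nat_lit 63278) (nat_lit 10) nil (node (nat_lit 5) (nat_lit 63278)
  (nat_lit 10) nil nil)) (node (nat_lit 0) (nat_lit 63366) (nat_lit 9) nil nil)))) (node (nat_lit
  0) (nat_lit 60022) (nat_lit 8) (node (nat_lit 9) (nat_lit 63393) (nat_lit 9) (node (nat_lit 5)
  (nat_lit 63301) (nat_lit 10) (node (nat_lit 9) (nat_lit 64223) (nat_lit 11) nil nil) nil) (node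
  (nat_lit 5) (nat_lit 60824) (nat_lit 9) (node (nat_lit 9) (nat_lit 64323) (nat_lit 10) nil nil)
  (node (nat_lit 7) (nat_lit 60333) (nat_lit 9) nil (node (nat_lit 0) (nat_lit 63030) (nat_lit 9)
  nil (node (nat_lit 4) (nat_lit 60022) (nat_lit 9) nil nil))))) nil))) (node (nat_lit 7) (nat_lit
  0) (nat_lit 7) (node (nat_lit 4) (nat_lit 52437) (nat_lit 8) (node (nat_lit 5) (nat_lit 57952)
  (nat_lit 9) (node (nat_lit 4) (nat_lit 60193) (nat_lit 10) nil (node (nat_lit 7) (nat_lit 61922)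
  (nat_lit 10) nil nil)) (node (nat_lit 7) (nat_lit 58786) (nat_lit 9) (node (nat_lit 5) (nat_lit
  57727) (nat_lit 10) nil nil) (node (nat_lit 9) (nat_lit 61947) (nat_lit 9) nil (node (nat_lit 0)
  (nat_lit 61947) (nat_lit 9) nil nil)))) (node (nat_lit 5) (nat_lit 51113) (nat_lit 8) (node
  (nat_lit 4) (nat_lit 54123) (nat_lit 9) nil (node (nat_lit 7) (nat_lit 58136) (nat_lit 9) (node
  (nat_lit 9) (nat_lit 63922) (nat_lit 10) nil (node (nat_lit 4) (nat_lit 61358) (nat_lit 10) nil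
  nil)) (node (nat_lit 0) (nat_lit 57436) (nat_lit 9) nil nil))) (node (nat_lit 9) (nat_lit 58579)
  (nat_lit 8) (node (nat_lit 5) (nat_lit 60321) (nat_lit 9) (node (nat_lit 9) (nat_lit 64619)
  (nat_lit 10) (node (nat_lit 7) (nat_lit 65225) (nat_lit 11) (node (nat_lit 5) (nat_lit 65225)
  (nat_lit 12) nil nil) nil) (node (nat_lit 7) (nat_lit 61256) (nat_lit 10) nil nil)) nil) (node
  (nat_lit 0) (nat_lit 57150) (nat_lit 8) nil nil)))) (node (nat_lit 4) (nat_lit 0) (nat_lit 7)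
  (node (nat_lit 5) (nat_lit 52596) (nat_lit 8) (node (nat_lit 4) (nat_lit 58919) (nat_lit 9)
  (node (nat_lit 9) (nat_lit 62947) (nat_lit 10) nil nil) (node (nat_lit 7) (nat_lit 57308)
  (nat_lit 9) nil (node (nat_lit 0) (nat_lit 58918) (nat_lit 9) nil nil))) (node (nat_lit 7)
  (nat_lit 50651) (nat_lit 8) (node (nat_lit 5) (nat_lit 53102) (nat_lit 9) (node (nat_lit 4)
  (nat_lit 52044) (nat_lit 10) nil nil) (node (nat_lit 4) (nat_lit 55689) (nat_lit 9) nil nil))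
  (node (nat_lit 9) (nat_lit 60267) (nat_lit 8) (node (nat_lit 5) (nat_lit 60350) (nat_lit 9)
  (node (nat_lit 9) (nat_lit 63849) (nat_lit 10) nil nil) nil) (node (nat_lit 0) (nat_lit 58042)
  (nat_lit 8) nil nil)))) (node (nat_lit 0) (nat_lit 0) (nat_lit 7) (node (nat_lit 5) (nat_lit
  53723) (nat_lit 8) (node (nat_lit 9) (nat_lit 61271) (nat_lit 9) (node (nat_lit 5) (nat_lit
  60788) (nat_lit 10) nil nil) (node (nat_lit 10) (nat_lit 60447) (nat_lit 9) nil nil)) (node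
  (nat_lit 9) (nat_lit 60043) (nat_lit 8) (node (nat_lit 5) (nat_lit 59764) (nat_lit 9) (node
  (nat_lit 9) (nat_lit 61503) (nat_lit 10) nil nil) nil) (node (nat_lit 7) (nat_lit 52696)
  (nat_lit 8) nil (node (nat_lit 4) (nat_lit 52696) (nat_lit 8) nil (node (nat_lit 0) (nat_lit
  54983) (nat_lit 8) nil nil))))) nil)))) (node (nat_lit 7) (nat_lit 0) (nat_lit 6) (node (nat_lit
  0) (nat_lit 0) (nat_lit 7) (node (nat_lit 5) (nat_lit 0) (nat_lit 8) (node (nat_lit 7) (nat_lit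
  50608) (nat_lit 9) (node (nat_lit 5) (nat_lit 55924) (nat_lit 10) (node (nat_lit 4) (nat_lit
  60051) (nat_lit 11) (node (nat_lit 7) (nat_lit 61946) (nat_lit 12) (node (nat_lit 4) (nat_lit
  58559) (nat_lit 13) (node (nat_lit 5) (nat_lit 58002) (nat_lit 14) (node (nat_lit 4) (nat_lit
  56576) (nat_lit 15) (node (nat_lit 7) (nat_lit 51942) (nat_lit 16) (node (nat_lit 5) (nat_lit
  44909) (nat_lit 17) nil nil) nil) nil) nil) (node (nat_lit 5) (nat_lit 60796) (nat_lit 13) nil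
  nil)) (node (nat_lit 5) (nat_lit 62096) (nat_lit 12) (node (nat_lit 7) (nat_lit 60298) (nat_lit
  13) nil nil) nil)) (node (nat_lit 10) (nat_lit 61608) (nat_lit 11) (node (nat_lit 5) (nat_lit
  62659) (nat_lit 12) (node (nat_lit 7) (nat_lit 63632) (nat_lit 13) nil (node (nat_lit 4)
  (nat_lit 62659) (nat_lit 13) nil nil)) (node (nat_lit 7) (nat_lit 62534) (nat_lit 12) (node
  (nat_lit 5) (nat_lit 62228) (nat_lit 13) nil (node (nat_lit 10) (nat_lit 63243) (nat_lit 13) nil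
  nil)) (node (nat_lit 4) (nat_lit 61608) (nat_lit 12) nil (node (nat_lit 0) (nat_lit 61999)
  (nat_lit 12) nil nil)))) (node (nat_lit 0) (nat_lit 62676) (nat_lit 11) nil nil))) (node
  (nat_lit 4) (nat_lit 57238) (nat_lit 10) (node (nat_lit 5) (nat_lit 60944) (nat_lit 11) (node
  (nat_lit 7) (nat_lit 62182) (nat_lit 12) nil (node (nat_lit 4) (nat_lit 59497) (nat_lit 12) nil
  (node (nat_lit 10) (nat_lit 62258) (nat_lit 12) nil nil))) (node (nat_lit 7) (nat_lit 60018)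
  (nat_lit 11) (node (nat_lit 5) (nat_lit 58142) (nat_lit 12) nil nil) (node (nat_lit 10) (nat_lit
  62614) (nat_lit 11) nil (node (nat_lit 0) (nat_lit 59410) (nat_lit 11) nil nil)))) (node
  (nat_lit 0) (nat_lit 59798) (nat_lit 10) (node (nat_lit 7) (nat_lit 59798) (nat_lit 11) nil
  (node (nat_lit 10) (nat_lit 60231) (nat_lit 11) nil nil)) nil))) (node (nat_lit 10) (nat_lit
  54083) (nat_lit 9) (node (nat_lit 7) (nat_lit 56667) (nat_lit 10) (node (nat_lit 10) (nat_lit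
  57590) (nat_lit 11) nil nil) nil) (node (nat_lit 4) (nat_lit 51761) (nat_lit 9) (node (nat_lit
  10) (nat_lit 55788) (nat_lit 10) nil nil) (node (nat_lit 0) (nat_lit 50644) (nat_lit 9) nil
  nil)))) (node (nat_lit 7) (nat_lit 0) (nat_lit 8) (node (nat_lit 5) (nat_lit 49953) (nat_lit 9)
  (node (nat_lit 10) (nat_lit 57950) (nat_lit 10) (node (nat_lit 5) (nat_lit 59029) (nat_lit 11)
  (node (nat_lit 7) (nat_lit 60231) (nat_lit 12) (node (nat_lit 10) (nat_lit 61373) (nat_lit 13)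
  nil nil) nil) nil) nil) (node (nat_lit 0) (nat_lit 50780) (nat_lit 9) nil (node (nat_lit 4)
  (nat_lit 44055) (nat_lit 9) nil nil))) (node (nat_lit 4) (nat_lit 45888) (nat_lit 8) (node
  (nat_lit 7) (nat_lit 51511) (nat_lit 9) (node (nat_lit 4) (nat_lit 55421) (nat_lit 10) nil (node
  (nat_lit 5) (nat_lit 49496) (nat_lit 10) nil nil)) (node (nat_lit 5) (nat_lit 45910) (nat_lit 9)
  nil (node (nat_lit 10) (nat_lit 52612) (nat_lit 9) nil nil))) (node (nat_lit 0) (nat_lit 47088)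
  (nat_lit 8) nil nil)))) nil) (node (nat_lit 4) (nat_lit 0) (nat_lit 6) (node (nat_lit 0)
  (nat_lit 0) (nat_lit 7) (node (nat_lit 5) (nat_lit 49905) (nat_lit 8) (node (nat_lit 4) (nat_lit
  56245) (nat_lit 9) (node (nat_lit 5) (nat_lit 61983) (nat_lit 10) (node (nat_lit 7) (nat_lit
  65436) (nat_lit 11) (node (nat_lit 4) (nat_lit 60721) (nat_lit 12) nil nil) (node (nat_lit 10)
  (nat_lit 65726) (nat_lit 11) nil (node (nat_lit 0) (nat_lit 64155) (nat_lit 11) nil nil))) (node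
  (nat_lit 7) (nat_lit 61943) (nat_lit 10) (node (nat_lit 5) (nat_lit 62505) (nat_lit 11) nil
  (node (nat_lit 10) (nat_lit 64115) (nat_lit 11) nil (node (nat_lit 4) (nat_lit 65051) (nat_lit
  11) nil nil))) (node (nat_lit 0) (nat_lit 64120) (nat_lit 10) nil nil))) (node (nat_lit 7)
  (nat_lit 53030) (nat_lit 9) nil (node (nat_lit 10) (nat_lit 53441) (nat_lit 9) nil nil))) (node
  (nat_lit 4) (nat_lit 50366) (nat_lit 8) (node (nat_lit 5) (nat_lit 55695) (nat_lit 9) (node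
  (nat_lit 10) (nat_lit 63571) (nat_lit 10) (node (nat_lit 5) (nat_lit 63571) (nat_lit 11) nil
  nil) nil) (node (nat_lit 7) (nat_lit 50366) (nat_lit 9) nil nil)) (node (nat_lit 7) (nat_lit
  50561) (nat_lit 8) (node (nat_lit 4) (nat_lit 55886) (nat_lit 9) (node (nat_lit 7) (nat_lit
  57228) (nat_lit 10) nil (node (nat_lit 5) (nat_lit 58174) (nat_lit 10) nil nil)) nil) (node
  (nat_lit 0) (nat_lit 52642) (nat_lit 8) nil nil)))) nil) nil))) (node (nat_lit 4) (nat_lit 0)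
  (nat_lit 5) (node (nat_lit 0) (nat_lit 0) (nat_lit 6) (node (nat_lit 4) (nat_lit 0) (nat_lit 7)
  (node (nat_lit 7) (nat_lit 35714) (nat_lit 8) (node (nat_lit 5) (nat_lit 38856) (nat_lit 9)
  (node (nat_lit 4) (nat_lit 41707) (nat_lit 10) (node (nat_lit 7) (nat_lit 39037) (nat_lit 11)
  nil nil) (node (nat_lit 7) (nat_lit 41441) (nat_lit 10) (node (nat_lit 4) (nat_lit 39920)
  (nat_lit 11) nil nil) (node (nat_lit 0) (nat_lit 42884) (nat_lit 10) nil (node (nat_lit 9)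
  (nat_lit 42884) (nat_lit 10) nil nil)))) (node (nat_lit 9) (nat_lit 44110) (nat_lit 9) (node
  (nat_lit 4) (nat_lit 44110) (nat_lit 10) (node (nat_lit 5) (nat_lit 44110) (nat_lit 11) (node
  (nat_lit 4) (nat_lit 42663) (nat_lit 12) nil nil) (node (nat_lit 9) (nat_lit 45033) (nat_lit 11)
  (node (nat_lit 7) (nat_lit 45033) (nat_lit 12) nil nil) nil)) (node (nat_lit 7) (nat_lit 44110)
  (nat_lit 10) (node (nat_lit 4) (nat_lit 44110) (nat_lit 11) nil nil) nil)) (node (nat_lit 4)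
  (nat_lit 39766) (nat_lit 9) (node (nat_lit 5) (nat_lit 42053) (nat_lit 10) nil nil) (node
  (nat_lit 0) (nat_lit 43809) (nat_lit 9) nil nil)))) (node (nat_lit 5) (nat_lit 34024) (nat_lit
  8) (node (nat_lit 7) (nat_lit 38900) (nat_lit 9) (node (nat_lit 5) (nat_lit 41693) (nat_lit 10)
  nil (node (nat_lit 4) (nat_lit 41693) (nat_lit 10) nil (node (nat_lit 9) (nat_lit 42927)
  (nat_lit 10) nil (node (nat_lit 0) (nat_lit 42927) (nat_lit 10) nil nil)))) (node (nat_lit 4)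
  (nat_lit 38900) (nat_lit 9) (node (nat_lit 7) (nat_lit 40560) (nat_lit 10) nil (node (nat_lit 9)
  (nat_lit 43879) (nat_lit 10) (node (nat_lit 5) (nat_lit 43879) (nat_lit 11) nil nil) (node
  (nat_lit 0) (nat_lit 42927) (nat_lit 10) nil nil))) (node (nat_lit 9) (nat_lit 42942) (nat_lit
  9) (node (nat_lit 5) (nat_lit 42942) (nat_lit 10) nil (node (nat_lit 4) (nat_lit 42942) (nat_lit
  10) nil nil)) (node (nat_lit 0) (nat_lit 42942) (nat_lit 9) nil nil)))) (node (nat_lit 0)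
  (nat_lit 41455) (nat_lit 8) (node (nat_lit 9) (nat_lit 44034) (nat_lit 9) (node (nat_lit 4)
  (nat_lit 44034) (nat_lit 10) nil nil) (node (nat_lit 4) (nat_lit 40812) (nat_lit 9) (node
  (nat_lit 9) (nat_lit 42552) (nat_lit 10) nil nil) (node (nat_lit 7) (nat_lit 42279) (nat_lit 9)
  nil (node (nat_lit 0) (nat_lit 43210) (nat_lit 9) nil (node (nat_lit 5) (nat_lit 41455) (nat_lit
  9) nil nil))))) nil))) (node (nat_lit 7) (nat_lit 0) (nat_lit 7) (node (nat_lit 5) (nat_lit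
  35168) (nat_lit 8) (node (nat_lit 4) (nat_lit 38577) (nat_lit 9) (node (nat_lit 7) (nat_lit
  41703) (nat_lit 10) (node (nat_lit 4) (nat_lit 43399) (nat_lit 11) nil nil) (node (nat_lit 5)
  (nat_lit 38774) (nat_lit 10) nil nil)) (node (nat_lit 7) (nat_lit 39220) (nat_lit 9) (node
  (nat_lit 4) (nat_lit 41508) (nat_lit 10) nil nil) nil)) (node (nat_lit 9) (nat_lit 40918)
  (nat_lit 8) (node (nat_lit 4) (nat_lit 42295) (nat_lit 9) (node (nat_lit 9) (nat_lit 44600)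
  (nat_lit 10) (node (nat_lit 7) (nat_lit 44600) (nat_lit 11) (node (nat_lit 4) (nat_lit 44600)
  (nat_lit 12) nil nil) nil) (node (nat_lit 7) (nat_lit 42295) (nat_lit 10) nil nil)) nil) (node
  (nat_lit 4) (nat_lit 35582) (nat_lit 8) (node (nat_lit 7) (nat_lit 40393) (nat_lit 9) (node
  (nat_lit 9) (nat_lit 44600) (nat_lit 10) nil (node (nat_lit 5) (nat_lit 39335) (nat_lit 10) nil
  nil)) (node (nat_lit 5) (nat_lit 40393) (nat_lit 9) nil nil)) (node (nat_lit 0) (nat_lit 41508)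
  (nat_lit 8) nil nil)))) (node (nat_lit 5) (nat_lit 0) (nat_lit 7) (node (nat_lit 4) (nat_lit
  34301) (nat_lit 8) (node (nat_lit 5) (nat_lit 38713) (nat_lit 9) nil (node (nat_lit 7) (nat_lit
  36842) (nat_lit 9) nil nil)) (node (nat_lit 7) (nat_lit 33870) (nat_lit 8) (node (nat_lit 4)
  (nat_lit 37922) (nat_lit 9) nil (node (nat_lit 5) (nat_lit 36656) (nat_lit 9) nil nil)) (node
  (nat_lit 9) (nat_lit 40210) (nat_lit 8) (node (nat_lit 4) (nat_lit 39567) (nat_lit 9) (node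
  (nat_lit 9) (nat_lit 41307) (nat_lit 10) nil nil) nil) (node (nat_lit 0) (nat_lit 39275)
  (nat_lit 8) nil nil)))) (node (nat_lit 0) (nat_lit 36851) (nat_lit 7) (node (nat_lit 4) (nat_lit
  36894) (nat_lit 8) (node (nat_lit 9) (nat_lit 43027) (nat_lit 9) (node (nat_lit 4) (nat_lit
  43027) (nat_lit 10) nil nil) (node (nat_lit 10) (nat_lit 40431) (nat_lit 9) nil nil)) (node
  (nat_lit 9) (nat_lit 41345) (nat_lit 8) (node (nat_lit 4) (nat_lit 41345) (nat_lit 9) nil nil)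
  nil)) nil)))) (node (nat_lit 5) (nat_lit 0) (nat_lit 6) (node (nat_lit 0) (nat_lit 0) (nat_lit
  7) (node (nat_lit 4) (nat_lit 33689) (nat_lit 8) (node (nat_lit 5) (nat_lit 36661) (nat_lit 9)
  (node (nat_lit 4) (nat_lit 40780) (nat_lit 10) (node (nat_lit 10) (nat_lit 44838) (nat_lit 11)
  (node (nat_lit 4) (nat_lit 44838) (nat_lit 12) nil nil) (node (nat_lit 7) (nat_lit 43546)
  (nat_lit 11) nil (node (nat_lit 0) (nat_lit 42952) (nat_lit 11) nil nil))) (node (nat_lit 7)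
  (nat_lit 41781) (nat_lit 10) (node (nat_lit 5) (nat_lit 43142) (nat_lit 11) nil (node (nat_lit
  4) (nat_lit 43476) (nat_lit 11) nil (node (nat_lit 10) (nat_lit 44804) (nat_lit 11) nil nil)))
  (node (nat_lit 0) (nat_lit 42965) (nat_lit 10) nil nil))) (node (nat_lit 7) (nat_lit 34320)
  (nat_lit 9) nil (node (nat_lit 10) (nat_lit 37226) (nat_lit 9) nil nil))) (node (nat_lit 7)
  (nat_lit 35190) (nat_lit 8) (node (nat_lit 5) (nat_lit 38155) (nat_lit 9) (node (nat_lit 7)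
  (nat_lit 40949) (nat_lit 10) nil (node (nat_lit 4) (nat_lit 37097) (nat_lit 10) nil nil)) nil)
  (node (nat_lit 5) (nat_lit 33689) (nat_lit 8) (node (nat_lit 4) (nat_lit 36136) (nat_lit 9)
  (node (nat_lit 10) (nat_lit 41116) (nat_lit 10) nil nil) nil) (node (nat_lit 0) (nat_lit 36746)
  (nat_lit 8) nil nil)))) (node (nat_lit 7) (nat_lit 0) (nat_lit 7) (node (nat_lit 4) (nat_lit 0)
  (nat_lit 8) (node (nat_lit 7) (nat_lit 0) (nat_lit 9) (node (nat_lit 5) (nat_lit 35556) (nat_lit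
  10) nil (node (nat_lit 0) (nat_lit 37335) (nat_lit 10) nil nil)) (node (nat_lit 0) (nat_lit
  37179) (nat_lit 9) (node (nat_lit 7) (nat_lit 37179) (nat_lit 10) nil nil) nil)) (node (nat_lit
  5) (nat_lit 0) (nat_lit 8) (node (nat_lit 4) (nat_lit 0) (nat_lit 9) (node (nat_lit 5) (nat_lit
  33729) (nat_lit 10) nil (node (nat_lit 0) (nat_lit 37405) (nat_lit 10) nil nil)) (node (nat_lit
  0) (nat_lit 37249) (nat_lit 9) nil nil)) (node (nat_lit 0) (nat_lit 35522) (nat_lit 8) (node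
  (nat_lit 7) (nat_lit 35522) (nat_lit 9) nil (node (nat_lit 5) (nat_lit 35522) (nat_lit 9) nil
  nil)) nil))) nil)) nil)) nil))

noncomputable def t387 : Tr :=
  (node (nat_lit 3) (nat_lit 0) (nat_lit 4) (node (nat_lit 0) (nat_lit 0) (nat_lit 5) (node
  (nat_lit 5) (nat_lit 0) (nat_lit 6) (node (nat_lit 8) (nat_lit 0) (nat_lit 7) (node (nat_lit 7)
  (nat_lit 60828) (nat_lit 8) (node (nat_lit 5) (nat_lit 64089) (nat_lit 9) (node (nat_lit 7)
  (nat_lit 65873) (nat_lit 10) (node (nat_lit 4) (nat_lit 66160) (nat_lit 11) nil nil) (node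
  (nat_lit 4) (nat_lit 66160) (nat_lit 10) (node (nat_lit 7) (nat_lit 66160) (nat_lit 11) (node
  (nat_lit 4) (nat_lit 65702) (nat_lit 12) (node (nat_lit 5) (nat_lit 61433) (nat_lit 13) (node
  (nat_lit 4) (nat_lit 58779) (nat_lit 14) nil nil) nil) nil) (node (nat_lit 5) (nat_lit 66160)
  (nat_lit 11) (node (nat_lit 7) (nat_lit 66160) (nat_lit 12) nil nil) nil)) (node (nat_lit 0)
  (nat_lit 66160) (nat_lit 10) nil nil))) (node (nat_lit 4) (nat_lit 64067) (nat_lit 9) (node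
  (nat_lit 5) (nat_lit 65127) (nat_lit 10) nil (node (nat_lit 7) (nat_lit 65127) (nat_lit 10) nil
  nil)) (node (nat_lit 8) (nat_lit 65719) (nat_lit 9) nil (node (nat_lit 0) (nat_lit 65719)
  (nat_lit 9) nil nil)))) (node (nat_lit 4) (nat_lit 60810) (nat_lit 8) (node (nat_lit 5) (nat_lit
  64319) (nat_lit 9) (node (nat_lit 4) (nat_lit 66160) (nat_lit 10) (node (nat_lit 7) (nat_lit
  66160) (nat_lit 11) nil nil) (node (nat_lit 7) (nat_lit 66160) (nat_lit 10) (node (nat_lit 4)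
  (nat_lit 66160) (nat_lit 11) nil (node (nat_lit 5) (nat_lit 66160) (nat_lit 11) nil nil)) nil))
  (node (nat_lit 7) (nat_lit 60727) (nat_lit 9) nil nil)) (node (nat_lit 0) (nat_lit 63353)
  (nat_lit 8) nil nil))) (node (nat_lit 7) (nat_lit 0) (nat_lit 7) (node (nat_lit 5) (nat_lit
  59660) (nat_lit 8) (node (nat_lit 4) (nat_lit 63823) (nat_lit 9) (node (nat_lit 7) (nat_lit
  65046) (nat_lit 10) (node (nat_lit 4) (nat_lit 63261) (nat_lit 11) (node (nat_lit 5) (nat_lit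
  60456) (nat_lit 12) (node (nat_lit 4) (nat_lit 45040) (nat_lit 13) (node (nat_lit 7) (nat_lit
  45430) (nat_lit 14) nil nil) nil) nil) nil) (node (nat_lit 5) (nat_lit 66160) (nat_lit 10) (node
  (nat_lit 7) (nat_lit 63162) (nat_lit 11) nil nil) nil)) (node (nat_lit 8) (nat_lit 65992)
  (nat_lit 9) nil nil)) (node (nat_lit 4) (nat_lit 60178) (nat_lit 8) (node (nat_lit 5) (nat_lit
  63232) (nat_lit 9) nil (node (nat_lit 7) (nat_lit 62474) (nat_lit 9) (node (nat_lit 5) (nat_lit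
  60356) (nat_lit 10) nil nil) nil)) (node (nat_lit 8) (nat_lit 64413) (nat_lit 8) (node (nat_lit
  7) (nat_lit 63710) (nat_lit 9) (node (nat_lit 5) (nat_lit 62495) (nat_lit 10) (node (nat_lit 7)
  (nat_lit 63138) (nat_lit 11) nil nil) nil) (node (nat_lit 4) (nat_lit 64413) (nat_lit 9) nil
  nil)) (node (nat_lit 0) (nat_lit 63102) (nat_lit 8) nil nil)))) (node (nat_lit 4) (nat_lit 0)
  (nat_lit 7) (node (nat_lit 5) (nat_lit 59503) (nat_lit 8) (node (nat_lit 7) (nat_lit 61012)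
  (nat_lit 9) (node (nat_lit 4) (nat_lit 57959) (nat_lit 10) (node (nat_lit 7) (nat_lit 57890)
  (nat_lit 11) nil nil) (node (nat_lit 5) (nat_lit 62072) (nat_lit 10) nil nil)) nil) (node
  (nat_lit 7) (nat_lit 60195) (nat_lit 8) (node (nat_lit 5) (nat_lit 62791) (nat_lit 9) (node
  (nat_lit 7) (nat_lit 62477) (nat_lit 10) nil (node (nat_lit 4) (nat_lit 63851) (nat_lit 10) nil
  nil)) (node (nat_lit 4) (nat_lit 63888) (nat_lit 9) nil nil)) (node (nat_lit 8) (nat_lit 64148)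
  (nat_lit 8) nil (node (nat_lit 0) (nat_lit 57131) (nat_lit 8) nil nil)))) (node (nat_lit 0)
  (nat_lit 58629) (nat_lit 7) nil nil)))) (node (nat_lit 4) (nat_lit 0) (nat_lit 6) (node (nat_lit
  8) (nat_lit 0) (nat_lit 7) (node (nat_lit 7) (nat_lit 62441) (nat_lit 8) (node (nat_lit 4)
  (nat_lit 64059) (nat_lit 9) (node (nat_lit 7) (nat_lit 66160) (nat_lit 10) (node (nat_lit 5)
  (nat_lit 65517) (nat_lit 11) nil nil) (node (nat_lit 5) (nat_lit 65273) (nat_lit 10) (node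
  (nat_lit 7) (nat_lit 65916) (nat_lit 11) nil (node (nat_lit 4) (nat_lit 64335) (nat_lit 11) nil
  nil)) nil)) (node (nat_lit 5) (nat_lit 65857) (nat_lit 9) (node (nat_lit 4) (nat_lit 63184)
  (nat_lit 10) nil (node (nat_lit 7) (nat_lit 66160) (nat_lit 10) nil nil)) (node (nat_lit 8)
  (nat_lit 66160) (nat_lit 9) nil (node (nat_lit 0) (nat_lit 66160) (nat_lit 9) nil nil)))) (node
  (nat_lit 5) (nat_lit 62107) (nat_lit 8) (node (nat_lit 4) (nat_lit 64326) (nat_lit 9) (node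
  (nat_lit 5) (nat_lit 64477) (nat_lit 10) (node (nat_lit 7) (nat_lit 65199) (nat_lit 11) (node
  (nat_lit 4) (nat_lit 63910) (nat_lit 12) nil nil) nil) (node (nat_lit 7) (nat_lit 66160)
  (nat_lit 10) (node (nat_lit 4) (nat_lit 66160) (nat_lit 11) nil (node (nat_lit 5) (nat_lit
  65716) (nat_lit 11) nil nil)) nil)) (node (nat_lit 7) (nat_lit 64359) (nat_lit 9) nil nil))
  (node (nat_lit 0) (nat_lit 63718) (nat_lit 8) nil nil))) (node (nat_lit 7) (nat_lit 0) (nat_lit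
  7) (node (nat_lit 5) (nat_lit 59331) (nat_lit 8) (node (nat_lit 7) (nat_lit 62720) (nat_lit 9)
  (node (nat_lit 4) (nat_lit 59368) (nat_lit 10) nil nil) (node (nat_lit 4) (nat_lit 62546)
  (nat_lit 9) (node (nat_lit 5) (nat_lit 60428) (nat_lit 10) nil nil) nil)) (node (nat_lit 4)
  (nat_lit 61362) (nat_lit 8) (node (nat_lit 5) (nat_lit 65739) (nat_lit 9) (node (nat_lit 7)
  (nat_lit 66160) (nat_lit 10) (node (nat_lit 5) (nat_lit 66160) (nat_lit 11) nil nil) (node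
  (nat_lit 4) (nat_lit 64786) (nat_lit 10) nil nil)) (node (nat_lit 8) (nat_lit 66160) (nat_lit 9)
  nil nil)) (node (nat_lit 0) (nat_lit 64754) (nat_lit 8) nil nil))) (node (nat_lit 5) (nat_lit 0)
  (nat_lit 7) (node (nat_lit 7) (nat_lit 59073) (nat_lit 8) (node (nat_lit 4) (nat_lit 62765)
  (nat_lit 9) nil (node (nat_lit 5) (nat_lit 60968) (nat_lit 9) nil (node (nat_lit 8) (nat_lit
  62216) (nat_lit 9) nil nil))) (node (nat_lit 4) (nat_lit 59027) (nat_lit 8) (node (nat_lit 7)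
  (nat_lit 63438) (nat_lit 9) (node (nat_lit 5) (nat_lit 64107) (nat_lit 10) (node (nat_lit 7)
  (nat_lit 63375) (nat_lit 11) nil nil) (node (nat_lit 4) (nat_lit 56843) (nat_lit 10) nil nil))
  nil) (node (nat_lit 8) (nat_lit 63334) (nat_lit 8) nil (node (nat_lit 0) (nat_lit 56317)
  (nat_lit 8) nil nil)))) (node (nat_lit 0) (nat_lit 60179) (nat_lit 7) nil nil)))) (node (nat_lit
  0) (nat_lit 0) (nat_lit 6) (node (nat_lit 8) (nat_lit 0) (nat_lit 7) (node (nat_lit 7) (nat_lit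
  62259) (nat_lit 8) (node (nat_lit 9) (nat_lit 66160) (nat_lit 9) (node (nat_lit 7) (nat_lit
  66160) (nat_lit 10) nil (node (nat_lit 8) (nat_lit 66160) (nat_lit 10) nil nil)) (node (nat_lit
  8) (nat_lit 63963) (nat_lit 9) nil nil)) (node (nat_lit 5) (nat_lit 62259) (nat_lit 8) (node
  (nat_lit 9) (nat_lit 66160) (nat_lit 9) nil nil) (node (nat_lit 4) (nat_lit 58800) (nat_lit 8)
  (node (nat_lit 9) (nat_lit 63690) (nat_lit 9) nil nil) (node (nat_lit 0) (nat_lit 64361)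
  (nat_lit 8) nil nil)))) (node (nat_lit 7) (nat_lit 0) (nat_lit 7) (node (nat_lit 9) (nat_lit
  65621) (nat_lit 8) (node (nat_lit 8) (nat_lit 66160) (nat_lit 9) nil nil) (node (nat_lit 5)
  (nat_lit 60667) (nat_lit 8) (node (nat_lit 8) (nat_lit 63811) (nat_lit 9) nil nil) (node
  (nat_lit 4) (nat_lit 58042) (nat_lit 8) (node (nat_lit 8) (nat_lit 61185) (nat_lit 9) nil nil)
  (node (nat_lit 8) (nat_lit 64410) (nat_lit 8) nil (node (nat_lit 0) (nat_lit 64410) (nat_lit 8)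
  nil nil))))) (node (nat_lit 4) (nat_lit 55496) (nat_lit 7) (node (nat_lit 7) (nat_lit 56057)
  (nat_lit 8) nil (node (nat_lit 9) (nat_lit 57996) (nat_lit 8) nil (node (nat_lit 8) (nat_lit
  64078) (nat_lit 8) nil (node (nat_lit 5) (nat_lit 55496) (nat_lit 8) nil nil)))) (node (nat_lit
  5) (nat_lit 55314) (nat_lit 7) (node (nat_lit 7) (nat_lit 59144) (nat_lit 8) nil (node (nat_lit
  9) (nat_lit 57814) (nat_lit 8) nil (node (nat_lit 8) (nat_lit 63896) (nat_lit 8) nil (node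
  (nat_lit 4) (nat_lit 55314) (nat_lit 8) nil nil)))) (node (nat_lit 0) (nat_lit 59335) (nat_lit
  7) nil nil))))) (node (nat_lit 7) (nat_lit 0) (nat_lit 6) (node (nat_lit 5) (nat_lit 0) (nat_lit
  7) (node (nat_lit 4) (nat_lit 58046) (nat_lit 8) (node (nat_lit 5) (nat_lit 62562) (nat_lit 9)
  (node (nat_lit 7) (nat_lit 65583) (nat_lit 10) nil nil) (node (nat_lit 7) (nat_lit 60865)
  (nat_lit 9) (node (nat_lit 4) (nat_lit 56131) (nat_lit 10) nil (node (nat_lit 8) (nat_lit 63057)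
  (nat_lit 10) nil nil)) nil)) (node (nat_lit 7) (nat_lit 59258) (nat_lit 8) (node (nat_lit 4)
  (nat_lit 62951) (nat_lit 9) (node (nat_lit 7) (nat_lit 64011) (nat_lit 10) nil nil) nil) (node
  (nat_lit 8) (nat_lit 56503) (nat_lit 8) nil (node (nat_lit 0) (nat_lit 56503) (nat_lit 8) nil
  nil)))) (node (nat_lit 4) (nat_lit 0) (nat_lit 7) (node (nat_lit 7) (nat_lit 59602) (nat_lit 8)
  (node (nat_lit 5) (nat_lit 62313) (nat_lit 9) (node (nat_lit 7) (nat_lit 60125) (nat_lit 10) nil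
  nil) (node (nat_lit 8) (nat_lit 65933) (nat_lit 9) nil nil)) (node (nat_lit 5) (nat_lit 60816)
  (nat_lit 8) (node (nat_lit 7) (nat_lit 64508) (nat_lit 9) nil (node (nat_lit 4) (nat_lit 63858)
  (nat_lit 9) (node (nat_lit 7) (nat_lit 63138) (nat_lit 10) nil nil) nil)) (node (nat_lit 0)
  (nat_lit 58186) (nat_lit 8) nil (node (nat_lit 8) (nat_lit 58186) (nat_lit 8) nil nil)))) (node
  (nat_lit 0) (nat_lit 60605) (nat_lit 7) (node (nat_lit 7) (nat_lit 61540) (nat_lit 8) nil nil)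
  nil))) nil)))) t386) (node (nat_lit 0) (nat_lit 0) (nat_lit 4) (node (nat_lit 3) (nat_lit 0)
  (nat_lit 5) (node (nat_lit 7) (nat_lit 0) (nat_lit 6) (node (nat_lit 4) (nat_lit 64495) (nat_lit
  7) (node (nat_lit 5) (nat_lit 66160) (nat_lit 8) (node (nat_lit 8) (nat_lit 66160) (nat_lit 9)
  (node (nat_lit 4) (nat_lit 66160) (nat_lit 10) nil nil) (node (nat_lit 4) (nat_lit 66160)
  (nat_lit 9) (node (nat_lit 8) (nat_lit 66160) (nat_lit 10) nil nil) nil)) (node (nat_lit 8)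
  (nat_lit 66160) (nat_lit 8) (node (nat_lit 4) (nat_lit 66160) (nat_lit 9) nil (node (nat_lit 5)
  (nat_lit 64409) (nat_lit 9) nil nil)) nil)) (node (nat_lit 5) (nat_lit 64513) (nat_lit 7) (node
  (nat_lit 4) (nat_lit 66160) (nat_lit 8) (node (nat_lit 8) (nat_lit 66160) (nat_lit 9) nil (node
  (nat_lit 5) (nat_lit 65537) (nat_lit 9) (node (nat_lit 8) (nat_lit 66160) (nat_lit 10) nil nil)
  nil)) (node (nat_lit 8) (nat_lit 66160) (nat_lit 8) (node (nat_lit 4) (nat_lit 66160) (nat_lit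
  9) nil (node (nat_lit 5) (nat_lit 66160) (nat_lit 9) nil nil)) nil)) (node (nat_lit 0) (nat_lit
  63828) (nat_lit 7) nil nil))) (node (nat_lit 5) (nat_lit 0) (nat_lit 6) (node (nat_lit 4)
  (nat_lit 61293) (nat_lit 7) (node (nat_lit 5) (nat_lit 66160) (nat_lit 8) (node (nat_lit 8)
  (nat_lit 66160) (nat_lit 9) (node (nat_lit 4) (nat_lit 66160) (nat_lit 10) (node (nat_lit 5)
  (nat_lit 47847) (nat_lit 11) (node (nat_lit 4) (nat_lit 45265) (nat_lit 12) nil nil) nil) nil)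
  nil) (node (nat_lit 8) (nat_lit 61193) (nat_lit 8) (node (nat_lit 4) (nat_lit 50928) (nat_lit 9)
  (node (nat_lit 5) (nat_lit 42864) (nat_lit 10) (node (nat_lit 4) (nat_lit 43953) (nat_lit 11)
  nil nil) nil) (node (nat_lit 5) (nat_lit 60895) (nat_lit 9) (node (nat_lit 8) (nat_lit 62339)
  (nat_lit 10) nil nil) nil)) (node (nat_lit 7) (nat_lit 66160) (nat_lit 8) nil nil))) (node
  (nat_lit 8) (nat_lit 60859) (nat_lit 7) (node (nat_lit 4) (nat_lit 65934) (nat_lit 8) nil (node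
  (nat_lit 7) (nat_lit 66160) (nat_lit 8) nil nil)) (node (nat_lit 7) (nat_lit 66125) (nat_lit 7)
  (node (nat_lit 8) (nat_lit 66125) (nat_lit 8) nil nil) (node (nat_lit 0) (nat_lit 59085)
  (nat_lit 7) nil nil)))) (node (nat_lit 4) (nat_lit 0) (nat_lit 6) (node (nat_lit 5) (nat_lit
  61320) (nat_lit 7) (node (nat_lit 4) (nat_lit 66160) (nat_lit 8) (node (nat_lit 8) (nat_lit
  66160) (nat_lit 9) (node (nat_lit 5) (nat_lit 66160) (nat_lit 10) nil (node (nat_lit 4) (nat_lit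
  58398) (nat_lit 10) nil nil)) nil) (node (nat_lit 8) (nat_lit 66160) (nat_lit 8) (node (nat_lit
  5) (nat_lit 66160) (nat_lit 9) nil (node (nat_lit 4) (nat_lit 66160) (nat_lit 9) nil nil)) nil))
  (node (nat_lit 8) (nat_lit 61505) (nat_lit 7) (node (nat_lit 5) (nat_lit 66160) (nat_lit 8)
  (node (nat_lit 8) (nat_lit 62924) (nat_lit 9) (node (nat_lit 4) (nat_lit 59571) (nat_lit 10) nil
  nil) (node (nat_lit 4) (nat_lit 63838) (nat_lit 9) nil nil)) nil) (node (nat_lit 7) (nat_lit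
  66160) (nat_lit 7) nil (node (nat_lit 0) (nat_lit 58987) (nat_lit 7) nil nil)))) (node (nat_lit
  0) (nat_lit 59337) (nat_lit 6) nil nil)))) (node (nat_lit 5) (nat_lit 0) (nat_lit 5) (node
  (nat_lit 7) (nat_lit 0) (nat_lit 6) (node (nat_lit 4) (nat_lit 54830) (nat_lit 7) (node (nat_lit
  3) (nat_lit 65549) (nat_lit 8) (node (nat_lit 5) (nat_lit 66160) (nat_lit 9) (node (nat_lit 11)
  (nat_lit 66160) (nat_lit 10) (node (nat_lit 4) (nat_lit 66121) (nat_lit 11) nil nil) (node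
  (nat_lit 4) (nat_lit 64403) (nat_lit 10) nil nil)) (node (nat_lit 4) (nat_lit 66160) (nat_lit 9)
  nil nil)) (node (nat_lit 5) (nat_lit 62316) (nat_lit 8) (node (nat_lit 3) (nat_lit 64662)
  (nat_lit 9) nil (node (nat_lit 4) (nat_lit 66160) (nat_lit 9) (node (nat_lit 3) (nat_lit 65927)
  (nat_lit 10) nil nil) nil)) (node (nat_lit 7) (nat_lit 57330) (nat_lit 8) nil nil))) (node
  (nat_lit 3) (nat_lit 64008) (nat_lit 7) (node (nat_lit 4) (nat_lit 66040) (nat_lit 8) (node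
  (nat_lit 5) (nat_lit 66160) (nat_lit 9) nil (node (nat_lit 10) (nat_lit 66160) (nat_lit 9) nil
  nil)) (node (nat_lit 5) (nat_lit 66160) (nat_lit 8) (node (nat_lit 4) (nat_lit 64509) (nat_lit
  9) nil (node (nat_lit 10) (nat_lit 66160) (nat_lit 9) nil nil)) nil)) (node (nat_lit 0) (nat_lit
  57736) (nat_lit 7) nil nil))) (node (nat_lit 3) (nat_lit 0) (nat_lit 6) (node (nat_lit 4)
  (nat_lit 60200) (nat_lit 7) (node (nat_lit 5) (nat_lit 66160) (nat_lit 8) (node (nat_lit 4)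
  (nat_lit 66160) (nat_lit 9) (node (nat_lit 9) (nat_lit 65575) (nat_lit 10) nil nil) (node
  (nat_lit 9) (nat_lit 66160) (nat_lit 9) nil nil)) (node (nat_lit 9) (nat_lit 64908) (nat_lit 8)
  (node (nat_lit 5) (nat_lit 60412) (nat_lit 9) nil nil) (node (nat_lit 7) (nat_lit 65744)
  (nat_lit 8) nil nil))) (node (nat_lit 5) (nat_lit 60033) (nat_lit 7) (node (nat_lit 4) (nat_lit
  62555) (nat_lit 8) (node (nat_lit 5) (nat_lit 59770) (nat_lit 9) nil (node (nat_lit 9) (nat_lit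
  61295) (nat_lit 9) nil nil)) (node (nat_lit 7) (nat_lit 65577) (nat_lit 8) nil nil)) (node
  (nat_lit 7) (nat_lit 66156) (nat_lit 7) nil (node (nat_lit 0) (nat_lit 57867) (nat_lit 7) nil
  nil)))) (node (nat_lit 4) (nat_lit 0) (nat_lit 6) (node (nat_lit 3) (nat_lit 59325) (nat_lit 7)
  (node (nat_lit 4) (nat_lit 64400) (nat_lit 8) (node (nat_lit 5) (nat_lit 65840) (nat_lit 9) nil
  nil) (node (nat_lit 5) (nat_lit 64178) (nat_lit 8) (node (nat_lit 10) (nat_lit 65844) (nat_lit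
  9) (node (nat_lit 4) (nat_lit 63647) (nat_lit 10) (node (nat_lit 5) (nat_lit 55943) (nat_lit 11)
  nil nil) nil) (node (nat_lit 4) (nat_lit 64513) (nat_lit 9) nil nil)) nil)) (node (nat_lit 5)
  (nat_lit 51796) (nat_lit 7) (node (nat_lit 3) (nat_lit 58073) (nat_lit 8) (node (nat_lit 4)
  (nat_lit 58877) (nat_lit 9) (node (nat_lit 5) (nat_lit 42460) (nat_lit 10) (node (nat_lit 4)
  (nat_lit 42685) (nat_lit 11) nil nil) nil) (node (nat_lit 5) (nat_lit 59513) (nat_lit 9) nil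
  nil)) (node (nat_lit 7) (nat_lit 57340) (nat_lit 8) nil nil)) (node (nat_lit 0) (nat_lit 49447)
  (nat_lit 7) nil nil))) (node (nat_lit 0) (nat_lit 58338) (nat_lit 6) nil nil)))) (node (nat_lit
  4) (nat_lit 0) (nat_lit 5) (node (nat_lit 5) (nat_lit 0) (nat_lit 6) (node (nat_lit 3) (nat_lit
  60815) (nat_lit 7) (node (nat_lit 5) (nat_lit 62488) (nat_lit 8) (node (nat_lit 4) (nat_lit
  59702) (nat_lit 9) nil nil) (node (nat_lit 4) (nat_lit 65028) (nat_lit 8) (node (nat_lit 5)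
  (nat_lit 66160) (nat_lit 9) (node (nat_lit 4) (nat_lit 66160) (nat_lit 10) (node (nat_lit 7)
  (nat_lit 45313) (nat_lit 11) nil nil) nil) (node (nat_lit 10) (nat_lit 66160) (nat_lit 9) nil
  nil)) nil)) (node (nat_lit 7) (nat_lit 58327) (nat_lit 7) (node (nat_lit 4) (nat_lit 62118)
  (nat_lit 8) nil nil) (node (nat_lit 4) (nat_lit 51801) (nat_lit 7) (node (nat_lit 3) (nat_lit
  64289) (nat_lit 8) (node (nat_lit 4) (nat_lit 66160) (nat_lit 9) (node (nat_lit 5) (nat_lit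
  63259) (nat_lit 10) nil nil) (node (nat_lit 5) (nat_lit 62734) (nat_lit 9) nil nil)) nil) (node
  (nat_lit 0) (nat_lit 49467) (nat_lit 7) nil nil)))) (node (nat_lit 3) (nat_lit 0) (nat_lit 6)
  (node (nat_lit 5) (nat_lit 58946) (nat_lit 7) (node (nat_lit 4) (nat_lit 64513) (nat_lit 8)
  (node (nat_lit 5) (nat_lit 66160) (nat_lit 9) (node (nat_lit 9) (nat_lit 66160) (nat_lit 10)
  (node (nat_lit 4) (nat_lit 66160) (nat_lit 11) (node (nat_lit 5) (nat_lit 63321) (nat_lit 12)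
  nil nil) nil) nil) (node (nat_lit 9) (nat_lit 61902) (nat_lit 9) (node (nat_lit 4) (nat_lit
  50930) (nat_lit 10) (node (nat_lit 5) (nat_lit 46380) (nat_lit 11) nil nil) nil) nil)) (node
  (nat_lit 9) (nat_lit 62865) (nat_lit 8) (node (nat_lit 4) (nat_lit 54121) (nat_lit 9) (node
  (nat_lit 5) (nat_lit 51189) (nat_lit 10) (node (nat_lit 4) (nat_lit 35303) (nat_lit 11) (node
  (nat_lit 7) (nat_lit 35151) (nat_lit 12) nil nil) nil) (node (nat_lit 9) (nat_lit 55181)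
  (nat_lit 10) nil nil)) nil) nil)) (node (nat_lit 4) (nat_lit 61204) (nat_lit 7) (node (nat_lit
  5) (nat_lit 64732) (nat_lit 8) (node (nat_lit 9) (nat_lit 66160) (nat_lit 9) nil (node (nat_lit
  4) (nat_lit 61947) (nat_lit 9) nil nil)) nil) (node (nat_lit 7) (nat_lit 63657) (nat_lit 7) nil
  (node (nat_lit 0) (nat_lit 58869) (nat_lit 7) nil nil)))) (node (nat_lit 0) (nat_lit 35266)
  (nat_lit 6) nil nil))) (node (nat_lit 0) (nat_lit 0) (nat_lit 5) (node (nat_lit 4) (nat_lit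
  54247) (nat_lit 6) (node (nat_lit 3) (nat_lit 61452) (nat_lit 7) (node (nat_lit 5) (nat_lit
  56842) (nat_lit 8) nil (node (nat_lit 4) (nat_lit 66160) (nat_lit 8) nil nil)) (node (nat_lit 5)
  (nat_lit 61065) (nat_lit 7) (node (nat_lit 3) (nat_lit 66140) (nat_lit 8) nil (node (nat_lit 4)
  (nat_lit 60838) (nat_lit 8) nil nil)) nil)) (node (nat_lit 3) (nat_lit 55024) (nat_lit 6) (node
  (nat_lit 4) (nat_lit 61842) (nat_lit 7) (node (nat_lit 5) (nat_lit 63971) (nat_lit 8) nil (node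
  (nat_lit 9) (nat_lit 63833) (nat_lit 8) nil nil)) (node (nat_lit 5) (nat_lit 61665) (nat_lit 7)
  (node (nat_lit 4) (nat_lit 58354) (nat_lit 8) (node (nat_lit 9) (nat_lit 57093) (nat_lit 9) nil
  nil) (node (nat_lit 9) (nat_lit 66160) (nat_lit 8) nil nil)) (node (nat_lit 7) (nat_lit 59508)
  (nat_lit 7) nil nil))) (node (nat_lit 5) (nat_lit 54239) (nat_lit 6) (node (nat_lit 3) (nat_lit
  61148) (nat_lit 7) (node (nat_lit 4) (nat_lit 66160) (nat_lit 8) nil (node (nat_lit 5) (nat_lit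
  63277) (nat_lit 8) nil nil)) (node (nat_lit 4) (nat_lit 60827) (nat_lit 7) (node (nat_lit 3)
  (nat_lit 62818) (nat_lit 8) nil (node (nat_lit 5) (nat_lit 61076) (nat_lit 8) nil nil)) (node
  (nat_lit 7) (nat_lit 58723) (nat_lit 7) nil nil))) (node (nat_lit 0) (nat_lit 59254) (nat_lit 6)
  (node (nat_lit 7) (nat_lit 62726) (nat_lit 7) nil (node (nat_lit 8) (nat_lit 60695) (nat_lit 7)
  nil nil)) (node (nat_lit 7) (nat_lit 59254) (nat_lit 6) (node (nat_lit 0) (nat_lit 62726)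
  (nat_lit 7) nil (node (nat_lit 5) (nat_lit 59254) (nat_lit 7) nil (node (nat_lit 3) (nat_lit
  59254) (nat_lit 7) nil nil))) nil))))) nil)))) nil))

noncomputable def c35 : Tr :=
  (node (nat_lit 3) (nat_lit 0) (nat_lit 1) (node (nat_lit 3) (nat_lit 0) (nat_lit 2) (node
  (nat_lit 3) (nat_lit 0) (nat_lit 3) (node (nat_lit 4) (nat_lit 0) (nat_lit 4) t384 (node
  (nat_lit 5) (nat_lit 0) (nat_lit 4) t385 (node (nat_lit 0) (nat_lit 0) (nat_lit 4) (node
  (nat_lit 4) (nat_lit 0) (nat_lit 5) (node (nat_lit 7) (nat_lit 0) (nat_lit 6) (node (nat_lit 6)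
  (nat_lit 136542) (nat_lit 7) (node (nat_lit 5) (nat_lit 139846) (nat_lit 8) (node (nat_lit 4)
  (nat_lit 143341) (nat_lit 9) (node (nat_lit 6) (nat_lit 142762) (nat_lit 10) (node (nat_lit 4)
  (nat_lit 141316) (nat_lit 11) (node (nat_lit 5) (nat_lit 139703) (nat_lit 12) (node (nat_lit 6)
  (nat_lit 133449) (nat_lit 13) nil nil) nil) nil) (node (nat_lit 5) (nat_lit 145371) (nat_lit 10)
  nil nil)) (node (nat_lit 6) (nat_lit 142602) (nat_lit 9) nil nil)) (node (nat_lit 4) (nat_lit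
  137926) (nat_lit 8) (node (nat_lit 6) (nat_lit 139117) (nat_lit 9) (node (nat_lit 5) (nat_lit
  131846) (nat_lit 10) nil nil) (node (nat_lit 5) (nat_lit 139119) (nat_lit 9) nil nil)) nil))
  (node (nat_lit 5) (nat_lit 139297) (nat_lit 7) (node (nat_lit 6) (nat_lit 141329) (nat_lit 8)
  (node (nat_lit 4) (nat_lit 144085) (nat_lit 9) nil (node (nat_lit 5) (nat_lit 144085) (nat_lit
  9) nil nil)) (node (nat_lit 4) (nat_lit 141525) (nat_lit 8) (node (nat_lit 6) (nat_lit 143320)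
  (nat_lit 9) nil (node (nat_lit 5) (nat_lit 144281) (nat_lit 9) nil nil)) nil)) (node (nat_lit 0)
  (nat_lit 140955) (nat_lit 7) nil nil))) (node (nat_lit 5) (nat_lit 0) (nat_lit 6) (node (nat_lit
  6) (nat_lit 132365) (nat_lit 7) (node (nat_lit 5) (nat_lit 131755) (nat_lit 8) (node (nat_lit 4)
  (nat_lit 133771) (nat_lit 9) (node (nat_lit 6) (nat_lit 134051) (nat_lit 10) (node (nat_lit 4)
  (nat_lit 132605) (nat_lit 11) nil nil) (node (nat_lit 5) (nat_lit 118195) (nat_lit 10) (node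
  (nat_lit 6) (nat_lit 119229) (nat_lit 11) nil nil) nil)) nil) (node (nat_lit 4) (nat_lit 138745)
  (nat_lit 8) (node (nat_lit 6) (nat_lit 140397) (nat_lit 9) (node (nat_lit 5) (nat_lit 139343)
  (nat_lit 10) (node (nat_lit 4) (nat_lit 136122) (nat_lit 11) nil nil) nil) (node (nat_lit 5)
  (nat_lit 141502) (nat_lit 9) nil nil)) nil)) (node (nat_lit 4) (nat_lit 130727) (nat_lit 7)
  (node (nat_lit 6) (nat_lit 136517) (nat_lit 8) (node (nat_lit 4) (nat_lit 128508) (nat_lit 9)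
  (node (nat_lit 5) (nat_lit 102149) (nat_lit 10) (node (nat_lit 6) (nat_lit 88508) (nat_lit 11)
  nil nil) nil) (node (nat_lit 5) (nat_lit 134285) (nat_lit 9) nil nil)) (node (nat_lit 7)
  (nat_lit 141230) (nat_lit 8) nil nil)) (node (nat_lit 7) (nat_lit 142494) (nat_lit 7) nil (node
  (nat_lit 0) (nat_lit 136785) (nat_lit 7) nil nil)))) (node (nat_lit 6) (nat_lit 0) (nat_lit 6)
  (node (nat_lit 5) (nat_lit 130894) (nat_lit 7) (node (nat_lit 6) (nat_lit 133144) (nat_lit 8)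
  (node (nat_lit 4) (nat_lit 130958) (nat_lit 9) (node (nat_lit 5) (nat_lit 122610) (nat_lit 10)
  (node (nat_lit 6) (nat_lit 121987) (nat_lit 11) (node (nat_lit 7) (nat_lit 125116) (nat_lit 12)
  nil nil) nil) (node (nat_lit 6) (nat_lit 130042) (nat_lit 10) nil nil)) nil) (node (nat_lit 4)
  (nat_lit 136997) (nat_lit 8) (node (nat_lit 6) (nat_lit 138426) (nat_lit 9) (node (nat_lit 4)
  (nat_lit 130649) (nat_lit 10) nil nil) (node (nat_lit 5) (nat_lit 139754) (nat_lit 9) nil nil))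
  (node (nat_lit 7) (nat_lit 141397) (nat_lit 8) nil nil))) (node (nat_lit 4) (nat_lit 128818)
  (nat_lit 7) (node (nat_lit 5) (nat_lit 135752) (nat_lit 8) (node (nat_lit 4) (nat_lit 134347)
  (nat_lit 9) nil (node (nat_lit 6) (nat_lit 134589) (nat_lit 9) nil nil)) (node (nat_lit 7)
  (nat_lit 139321) (nat_lit 8) nil nil)) (node (nat_lit 7) (nat_lit 139355) (nat_lit 7) nil (node
  (nat_lit 0) (nat_lit 132696) (nat_lit 7) nil nil)))) (node (nat_lit 0) (nat_lit 137163) (nat_lit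
  6) nil nil)))) (node (nat_lit 5) (nat_lit 0) (nat_lit 5) (node (nat_lit 7) (nat_lit 0) (nat_lit
  6) (node (nat_lit 6) (nat_lit 140234) (nat_lit 7) (node (nat_lit 4) (nat_lit 142266) (nat_lit 8)
  (node (nat_lit 5) (nat_lit 145022) (nat_lit 9) nil (node (nat_lit 6) (nat_lit 143495) (nat_lit
  9) (node (nat_lit 5) (nat_lit 142441) (nat_lit 10) nil nil) nil)) (node (nat_lit 5) (nat_lit
  142644) (nat_lit 8) (node (nat_lit 4) (nat_lit 145850) (nat_lit 9) nil (node (nat_lit 6)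
  (nat_lit 145400) (nat_lit 9) nil nil)) nil)) (node (nat_lit 4) (nat_lit 140234) (nat_lit 7)
  (node (nat_lit 6) (nat_lit 142695) (nat_lit 8) (node (nat_lit 5) (nat_lit 141114) (nat_lit 9)
  (node (nat_lit 6) (nat_lit 142220) (nat_lit 10) (node (nat_lit 4) (nat_lit 141327) (nat_lit 11)
  nil nil) (node (nat_lit 4) (nat_lit 140060) (nat_lit 10) nil nil)) (node (nat_lit 4) (nat_lit
  145452) (nat_lit 9) nil nil)) (node (nat_lit 5) (nat_lit 142644) (nat_lit 8) (node (nat_lit 6)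
  (nat_lit 145889) (nat_lit 9) nil (node (nat_lit 4) (nat_lit 145850) (nat_lit 9) nil nil)) nil))
  (node (nat_lit 0) (nat_lit 143078) (nat_lit 7) nil nil))) (node (nat_lit 4) (nat_lit 0) (nat_lit
  6) (node (nat_lit 6) (nat_lit 135020) (nat_lit 7) (node (nat_lit 5) (nat_lit 140662) (nat_lit 8)
  (node (nat_lit 6) (nat_lit 142045) (nat_lit 9) (node (nat_lit 4) (nat_lit 140967) (nat_lit 10)
  (node (nat_lit 5) (nat_lit 137449) (nat_lit 11) (node (nat_lit 6) (nat_lit 125854) (nat_lit 12)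
  nil nil) nil) nil) (node (nat_lit 4) (nat_lit 129449) (nat_lit 9) (node (nat_lit 5) (nat_lit
  116445) (nat_lit 10) (node (nat_lit 6) (nat_lit 105815) (nat_lit 11) nil nil) nil) nil)) (node
  (nat_lit 4) (nat_lit 141835) (nat_lit 8) (node (nat_lit 5) (nat_lit 145258) (nat_lit 9) (node
  (nat_lit 6) (nat_lit 144848) (nat_lit 10) (node (nat_lit 7) (nat_lit 89951) (nat_lit 11) (node
  (nat_lit 5) (nat_lit 89951) (nat_lit 12) nil nil) nil) nil) nil) (node (nat_lit 7) (nat_lit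
  145523) (nat_lit 8) nil nil))) (node (nat_lit 5) (nat_lit 135592) (nat_lit 7) (node (nat_lit 6)
  (nat_lit 141415) (nat_lit 8) (node (nat_lit 5) (nat_lit 138799) (nat_lit 9) nil (node (nat_lit
  7) (nat_lit 77687) (nat_lit 9) nil (node (nat_lit 4) (nat_lit 144172) (nat_lit 9) nil nil)))
  (node (nat_lit 7) (nat_lit 146095) (nat_lit 8) nil nil)) (node (nat_lit 7) (nat_lit 144178)
  (nat_lit 7) nil (node (nat_lit 0) (nat_lit 138863) (nat_lit 7) nil nil)))) (node (nat_lit 6)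
  (nat_lit 0) (nat_lit 6) (node (nat_lit 4) (nat_lit 133481) (nat_lit 7) (node (nat_lit 6)
  (nat_lit 140969) (nat_lit 8) (node (nat_lit 5) (nat_lit 143112) (nat_lit 9) (node (nat_lit 4)
  (nat_lit 141826) (nat_lit 10) (node (nat_lit 5) (nat_lit 130885) (nat_lit 11) (node (nat_lit 6)
  (nat_lit 121900) (nat_lit 12) nil nil) nil) (node (nat_lit 6) (nat_lit 141428) (nat_lit 10) nil
  nil)) nil) (node (nat_lit 5) (nat_lit 140140) (nat_lit 8) (node (nat_lit 4) (nat_lit 144181)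
  (nat_lit 9) (node (nat_lit 6) (nat_lit 140655) (nat_lit 10) nil nil) (node (nat_lit 6) (nat_lit
  144853) (nat_lit 9) (node (nat_lit 5) (nat_lit 145823) (nat_lit 10) nil nil) nil)) (node
  (nat_lit 7) (nat_lit 143984) (nat_lit 8) nil nil))) (node (nat_lit 5) (nat_lit 133417) (nat_lit
  7) (node (nat_lit 4) (nat_lit 139514) (nat_lit 8) (node (nat_lit 6) (nat_lit 138608) (nat_lit 9)
  nil (node (nat_lit 5) (nat_lit 142270) (nat_lit 9) nil nil)) (node (nat_lit 7) (nat_lit 143920)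
  (nat_lit 8) nil nil)) (node (nat_lit 0) (nat_lit 138318) (nat_lit 7) nil nil))) (node (nat_lit
  0) (nat_lit 140322) (nat_lit 6) nil nil)))) (node (nat_lit 6) (nat_lit 0) (nat_lit 5) (node
  (nat_lit 5) (nat_lit 0) (nat_lit 6) (node (nat_lit 4) (nat_lit 132423) (nat_lit 7) (node
  (nat_lit 5) (nat_lit 140171) (nat_lit 8) (node (nat_lit 6) (nat_lit 144121) (nat_lit 9) (node
  (nat_lit 7) (nat_lit 77187) (nat_lit 10) (node (nat_lit 6) (nat_lit 77187) (nat_lit 11) nil nil)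
  nil) nil) (node (nat_lit 6) (nat_lit 138800) (nat_lit 8) (node (nat_lit 4) (nat_lit 138245)
  (nat_lit 9) (node (nat_lit 5) (nat_lit 132645) (nat_lit 10) (node (nat_lit 6) (nat_lit 115088)
  (nat_lit 11) nil nil) nil) (node (nat_lit 5) (nat_lit 139079) (nat_lit 9) nil nil)) nil)) (node
  (nat_lit 7) (nat_lit 142845) (nat_lit 7) nil (node (nat_lit 6) (nat_lit 132342) (nat_lit 7)
  (node (nat_lit 4) (nat_lit 140089) (nat_lit 8) (node (nat_lit 6) (nat_lit 138926) (nat_lit 9)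
  nil nil) nil) (node (nat_lit 0) (nat_lit 138010) (nat_lit 7) nil nil)))) (node (nat_lit 4)
  (nat_lit 0) (nat_lit 6) (node (nat_lit 5) (nat_lit 131674) (nat_lit 7) (node (nat_lit 4)
  (nat_lit 137247) (nat_lit 8) (node (nat_lit 6) (nat_lit 138516) (nat_lit 9) (node (nat_lit 5)
  (nat_lit 141075) (nat_lit 10) (node (nat_lit 6) (nat_lit 137772) (nat_lit 11) nil (node (nat_lit
  4) (nat_lit 140617) (nat_lit 11) nil nil)) (node (nat_lit 4) (nat_lit 129849) (nat_lit 10) (node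
  (nat_lit 5) (nat_lit 125886) (nat_lit 11) (node (nat_lit 6) (nat_lit 113739) (nat_lit 12) nil
  nil) nil) nil)) nil) (node (nat_lit 6) (nat_lit 139159) (nat_lit 8) (node (nat_lit 5) (nat_lit
  141893) (nat_lit 9) (node (nat_lit 4) (nat_lit 141576) (nat_lit 10) nil nil) (node (nat_lit 4)
  (nat_lit 141915) (nat_lit 9) nil (node (nat_lit 7) (nat_lit 70738) (nat_lit 9) nil nil))) (node
  (nat_lit 7) (nat_lit 142177) (nat_lit 8) nil nil))) (node (nat_lit 6) (nat_lit 129154) (nat_lit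
  7) (node (nat_lit 5) (nat_lit 137150) (nat_lit 8) (node (nat_lit 4) (nat_lit 130721) (nat_lit 9)
  (node (nat_lit 5) (nat_lit 108520) (nat_lit 10) (node (nat_lit 6) (nat_lit 99359) (nat_lit 11)
  nil nil) nil) (node (nat_lit 6) (nat_lit 134966) (nat_lit 9) (node (nat_lit 4) (nat_lit 134059)
  (nat_lit 10) (node (nat_lit 5) (nat_lit 128789) (nat_lit 11) nil nil) nil) nil)) nil) (node
  (nat_lit 7) (nat_lit 138197) (nat_lit 7) nil (node (nat_lit 0) (nat_lit 133409) (nat_lit 7) nil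
  nil)))) (node (nat_lit 0) (nat_lit 128491) (nat_lit 6) nil nil))) (node (nat_lit 0) (nat_lit 0)
  (nat_lit 5) (node (nat_lit 6) (nat_lit 129618) (nat_lit 6) (node (nat_lit 5) (nat_lit 134177)
  (nat_lit 7) (node (nat_lit 4) (nat_lit 138571) (nat_lit 8) (node (nat_lit 6) (nat_lit 137665)
  (nat_lit 9) nil nil) (node (nat_lit 6) (nat_lit 141924) (nat_lit 8) nil nil)) (node (nat_lit 4)
  (nat_lit 133261) (nat_lit 7) (node (nat_lit 5) (nat_lit 136305) (nat_lit 8) (node (nat_lit 6)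
  (nat_lit 135142) (nat_lit 9) nil nil) (node (nat_lit 6) (nat_lit 136547) (nat_lit 8) nil nil))
  (node (nat_lit 7) (nat_lit 138090) (nat_lit 7) nil nil))) (node (nat_lit 5) (nat_lit 129848)
  (nat_lit 6) (node (nat_lit 4) (nat_lit 135145) (nat_lit 7) (node (nat_lit 6) (nat_lit 137523)
  (nat_lit 8) (node (nat_lit 5) (nat_lit 134060) (nat_lit 9) nil nil) (node (nat_lit 5) (nat_lit
  139843) (nat_lit 8) nil nil)) (node (nat_lit 6) (nat_lit 134246) (nat_lit 7) (node (nat_lit 4)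
  (nat_lit 140489) (nat_lit 8) (node (nat_lit 5) (nat_lit 143246) (nat_lit 9) nil nil) (node
  (nat_lit 5) (nat_lit 139047) (nat_lit 8) nil nil)) (node (nat_lit 7) (nat_lit 138320) (nat_lit
  7) nil nil))) (node (nat_lit 4) (nat_lit 128262) (nat_lit 6) (node (nat_lit 6) (nat_lit 132315)
  (nat_lit 7) (node (nat_lit 5) (nat_lit 132432) (nat_lit 8) (node (nat_lit 4) (nat_lit 131027)
  (nat_lit 9) nil nil) (node (nat_lit 4) (nat_lit 140061) (nat_lit 8) nil nil)) (node (nat_lit 5)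
  (nat_lit 133446) (nat_lit 7) (node (nat_lit 6) (nat_lit 137074) (nat_lit 8) (node (nat_lit 4)
  (nat_lit 139831) (nat_lit 9) nil nil) (node (nat_lit 4) (nat_lit 133845) (nat_lit 8) nil nil))
  (node (nat_lit 7) (nat_lit 136734) (nat_lit 7) nil nil))) (node (nat_lit 0) (nat_lit 139891)
  (nat_lit 6) (node (nat_lit 7) (nat_lit 142647) (nat_lit 7) nil (node (nat_lit 8) (nat_lit
  142647) (nat_lit 7) nil nil)) (node (nat_lit 7) (nat_lit 0) (nat_lit 6) (node (nat_lit 0)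
  (nat_lit 142647) (nat_lit 7) nil (node (nat_lit 4) (nat_lit 139891) (nat_lit 7) nil (node
  (nat_lit 5) (nat_lit 139891) (nat_lit 7) nil (node (nat_lit 6) (nat_lit 139891) (nat_lit 7) nil
  nil)))) nil))))) nil)))) nil))) (node (nat_lit 4) (nat_lit 0) (nat_lit 3) t387 nil)) nil) nil)

noncomputable def t388 : Tr :=
  (node (nat_lit 5) (nat_lit 0) (nat_lit 5) (node (nat_lit 0) (nat_lit 0) (nat_lit 6) (node
  (nat_lit 6) (nat_lit 0) (nat_lit 7) (node (nat_lit 9) (nat_lit 0) (nat_lit 8) (node (nat_lit 5)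
  (nat_lit 85795) (nat_lit 9) (node (nat_lit 6) (nat_lit 86939) (nat_lit 10) (node (nat_lit 5)
  (nat_lit 86939) (nat_lit 11) (node (nat_lit 4) (nat_lit 86848) (nat_lit 12) (node (nat_lit 5)
  (nat_lit 83564) (nat_lit 13) (node (nat_lit 6) (nat_lit 79815) (nat_lit 14) (node (nat_lit 4)
  (nat_lit 75183) (nat_lit 15) (node (nat_lit 5) (nat_lit 66488) (nat_lit 16) nil nil) nil) nil)
  nil) nil) (node (nat_lit 4) (nat_lit 86939) (nat_lit 11) nil nil)) (node (nat_lit 4) (nat_lit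
  86939) (nat_lit 10) nil nil)) (node (nat_lit 4) (nat_lit 85795) (nat_lit 9) (node (nat_lit 6)
  (nat_lit 86939) (nat_lit 10) (node (nat_lit 5) (nat_lit 86939) (nat_lit 11) (node (nat_lit 4)
  (nat_lit 86848) (nat_lit 12) nil nil) (node (nat_lit 4) (nat_lit 86939) (nat_lit 11) nil nil))
  (node (nat_lit 5) (nat_lit 86939) (nat_lit 10) nil nil)) (node (nat_lit 0) (nat_lit 86939)
  (nat_lit 9) nil nil))) (node (nat_lit 5) (nat_lit 85821) (nat_lit 8) (node (nat_lit 4) (nat_lit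
  86939) (nat_lit 9) nil (node (nat_lit 6) (nat_lit 86939) (nat_lit 9) (node (nat_lit 4) (nat_lit
  86939) (nat_lit 10) nil nil) (node (nat_lit 9) (nat_lit 86939) (nat_lit 9) (node (nat_lit 5)
  (nat_lit 86939) (nat_lit 10) nil nil) nil))) (node (nat_lit 4) (nat_lit 82262) (nat_lit 8) (node
  (nat_lit 6) (nat_lit 84301) (nat_lit 9) (node (nat_lit 5) (nat_lit 84603) (nat_lit 10) (node
  (nat_lit 4) (nat_lit 83008) (nat_lit 11) (node (nat_lit 5) (nat_lit 78155) (nat_lit 12) (node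
  (nat_lit 6) (nat_lit 73280) (nat_lit 13) (node (nat_lit 4) (nat_lit 63553) (nat_lit 14) nil nil)
  nil) nil) nil) nil) (node (nat_lit 5) (nat_lit 84376) (nat_lit 9) nil (node (nat_lit 9) (nat_lit
  85835) (nat_lit 9) nil nil))) (node (nat_lit 0) (nat_lit 86087) (nat_lit 8) nil nil)))) (node
  (nat_lit 4) (nat_lit 0) (nat_lit 7) (node (nat_lit 9) (nat_lit 0) (nat_lit 8) (node (nat_lit 5)
  (nat_lit 85014) (nat_lit 9) (node (nat_lit 4) (nat_lit 86473) (nat_lit 10) nil (node (nat_lit 6)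
  (nat_lit 86680) (nat_lit 10) (node (nat_lit 4) (nat_lit 86939) (nat_lit 11) nil (node (nat_lit
  5) (nat_lit 86630) (nat_lit 11) nil nil)) nil)) (node (nat_lit 6) (nat_lit 86277) (nat_lit 9)
  (node (nat_lit 4) (nat_lit 86939) (nat_lit 10) nil nil) (node (nat_lit 0) (nat_lit 86939)
  (nat_lit 9) nil nil))) (node (nat_lit 5) (nat_lit 82461) (nat_lit 8) (node (nat_lit 4) (nat_lit
  83551) (nat_lit 9) (node (nat_lit 6) (nat_lit 85109) (nat_lit 10) (node (nat_lit 5) (nat_lit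
  85419) (nat_lit 11) nil nil) nil) (node (nat_lit 6) (nat_lit 84617) (nat_lit 9) (node (nat_lit
  5) (nat_lit 85549) (nat_lit 10) (node (nat_lit 4) (nat_lit 84016) (nat_lit 11) (node (nat_lit 5)
  (nat_lit 79164) (nat_lit 12) nil nil) nil) (node (nat_lit 4) (nat_lit 86076) (nat_lit 10) nil
  nil)) nil)) (node (nat_lit 6) (nat_lit 83817) (nat_lit 8) (node (nat_lit 5) (nat_lit 82343)
  (nat_lit 9) (node (nat_lit 4) (nat_lit 80785) (nat_lit 10) (node (nat_lit 5) (nat_lit 64916)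
  (nat_lit 11) (node (nat_lit 6) (nat_lit 43291) (nat_lit 12) (node (nat_lit 4) (nat_lit 28493)
  (nat_lit 13) nil nil) nil) nil) (node (nat_lit 6) (nat_lit 83802) (nat_lit 10) nil nil)) (node
  (nat_lit 4) (nat_lit 86278) (nat_lit 9) (node (nat_lit 5) (nat_lit 86939) (nat_lit 10) nil nil)
  (node (nat_lit 9) (nat_lit 86939) (nat_lit 9) nil nil))) (node (nat_lit 0) (nat_lit 85306)
  (nat_lit 8) nil nil)))) (node (nat_lit 0) (nat_lit 0) (nat_lit 7) (node (nat_lit 5) (nat_lit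
  82262) (nat_lit 8) (node (nat_lit 10) (nat_lit 85835) (nat_lit 9) nil (node (nat_lit 4) (nat_lit
  82235) (nat_lit 9) nil (node (nat_lit 6) (nat_lit 84301) (nat_lit 9) nil nil))) (node (nat_lit
  9) (nat_lit 86939) (nat_lit 8) (node (nat_lit 5) (nat_lit 86939) (nat_lit 9) (node (nat_lit 10)
  (nat_lit 86939) (nat_lit 10) nil nil) (node (nat_lit 6) (nat_lit 86939) (nat_lit 9) nil (node
  (nat_lit 4) (nat_lit 86939) (nat_lit 9) nil nil))) (node (nat_lit 6) (nat_lit 85821) (nat_lit 8)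
  (node (nat_lit 5) (nat_lit 86939) (nat_lit 9) nil nil) (node (nat_lit 4) (nat_lit 83848)
  (nat_lit 8) (node (nat_lit 5) (nat_lit 85962) (nat_lit 9) nil nil) (node (nat_lit 0) (nat_lit
  86087) (nat_lit 8) nil nil))))) (node (nat_lit 5) (nat_lit 0) (nat_lit 7) (node (nat_lit 6)
  (nat_lit 83817) (nat_lit 8) (node (nat_lit 4) (nat_lit 84907) (nat_lit 9) (node (nat_lit 6)
  (nat_lit 86465) (nat_lit 10) (node (nat_lit 5) (nat_lit 86804) (nat_lit 11) nil nil) (node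
  (nat_lit 5) (nat_lit 86366) (nat_lit 10) nil nil)) (node (nat_lit 5) (nat_lit 81776) (nat_lit 9)
  (node (nat_lit 4) (nat_lit 80486) (nat_lit 10) (node (nat_lit 5) (nat_lit 67266) (nat_lit 11)
  (node (nat_lit 6) (nat_lit 39695) (nat_lit 12) (node (nat_lit 4) (nat_lit 23427) (nat_lit 13)
  nil nil) nil) nil) nil) nil)) (node (nat_lit 4) (nat_lit 82218) (nat_lit 8) (node (nat_lit 6)
  (nat_lit 84256) (nat_lit 9) (node (nat_lit 4) (nat_lit 85716) (nat_lit 10) nil (node (nat_lit 5)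
  (nat_lit 84559) (nat_lit 10) nil nil)) (node (nat_lit 5) (nat_lit 84332) (nat_lit 9) nil nil))
  (node (nat_lit 0) (nat_lit 86277) (nat_lit 8) nil nil))) nil)))) (node (nat_lit 4) (nat_lit 0)
  (nat_lit 6) (node (nat_lit 0) (nat_lit 0) (nat_lit 7) (node (nat_lit 4) (nat_lit 0) (nat_lit 8)
  (node (nat_lit 5) (nat_lit 85368) (nat_lit 9) (node (nat_lit 6) (nat_lit 86816) (nat_lit 10)
  (node (nat_lit 4) (nat_lit 86939) (nat_lit 11) nil (node (nat_lit 5) (nat_lit 86494) (nat_lit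
  11) (node (nat_lit 4) (nat_lit 85872) (nat_lit 12) nil nil) nil)) (node (nat_lit 10) (nat_lit
  86939) (nat_lit 10) nil (node (nat_lit 4) (nat_lit 86827) (nat_lit 10) nil nil))) (node (nat_lit
  6) (nat_lit 86251) (nat_lit 9) (node (nat_lit 5) (nat_lit 86351) (nat_lit 10) (node (nat_lit 4)
  (nat_lit 84958) (nat_lit 11) (node (nat_lit 5) (nat_lit 81016) (nat_lit 12) nil nil) (node
  (nat_lit 6) (nat_lit 86939) (nat_lit 11) nil nil)) (node (nat_lit 4) (nat_lit 86939) (nat_lit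
  10) nil (node (nat_lit 10) (nat_lit 86939) (nat_lit 10) nil nil))) (node (nat_lit 0) (nat_lit
  86827) (nat_lit 9) (node (nat_lit 4) (nat_lit 86827) (nat_lit 10) nil (node (nat_lit 5) (nat_lit
  86827) (nat_lit 10) nil nil)) nil))) (node (nat_lit 5) (nat_lit 0) (nat_lit 8) (node (nat_lit 6)
  (nat_lit 85878) (nat_lit 9) (node (nat_lit 4) (nat_lit 86939) (nat_lit 10) nil (node (nat_lit 5)
  (nat_lit 83798) (nat_lit 10) (node (nat_lit 4) (nat_lit 82384) (nat_lit 11) nil nil) nil)) (node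
  (nat_lit 4) (nat_lit 85368) (nat_lit 9) (node (nat_lit 5) (nat_lit 86827) (nat_lit 10) nil (node
  (nat_lit 6) (nat_lit 84167) (nat_lit 10) nil nil)) (node (nat_lit 10) (nat_lit 86827) (nat_lit
  9) (node (nat_lit 4) (nat_lit 86827) (nat_lit 10) nil nil) (node (nat_lit 0) (nat_lit 86827)
  (nat_lit 9) nil nil)))) (node (nat_lit 6) (nat_lit 84359) (nat_lit 8) (node (nat_lit 4) (nat_lit
  86473) (nat_lit 9) (node (nat_lit 5) (nat_lit 86939) (nat_lit 10) nil nil) (node (nat_lit 5)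
  (nat_lit 86473) (nat_lit 9) nil (node (nat_lit 10) (nat_lit 86939) (nat_lit 9) nil nil))) (node
  (nat_lit 0) (nat_lit 86473) (nat_lit 8) (node (nat_lit 4) (nat_lit 84332) (nat_lit 9) nil (node
  (nat_lit 10) (nat_lit 86939) (nat_lit 9) (node (nat_lit 4) (nat_lit 86939) (nat_lit 10) nil nil)
  nil)) nil)))) (node (nat_lit 6) (nat_lit 0) (nat_lit 7) (node (nat_lit 0) (nat_lit 0) (nat_lit
  8) (node (nat_lit 4) (nat_lit 85781) (nat_lit 9) (node (nat_lit 6) (nat_lit 86665) (nat_lit 10)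
  (node (nat_lit 5) (nat_lit 86896) (nat_lit 11) (node (nat_lit 4) (nat_lit 86816) (nat_lit 12)
  nil nil) (node (nat_lit 4) (nat_lit 86939) (nat_lit 11) nil nil)) (node (nat_lit 5) (nat_lit
  86939) (nat_lit 10) nil nil)) (node (nat_lit 6) (nat_lit 85148) (nat_lit 9) (node (nat_lit 4)
  (nat_lit 86607) (nat_lit 10) nil nil) (node (nat_lit 5) (nat_lit 83897) (nat_lit 9) (node
  (nat_lit 6) (nat_lit 85384) (nat_lit 10) (node (nat_lit 5) (nat_lit 84073) (nat_lit 11) nil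
  (node (nat_lit 4) (nat_lit 86020) (nat_lit 11) nil nil)) nil) (node (nat_lit 0) (nat_lit 86607)
  (nat_lit 9) nil nil)))) (node (nat_lit 5) (nat_lit 0) (nat_lit 8) (node (nat_lit 4) (nat_lit 0)
  (nat_lit 9) (node (nat_lit 5) (nat_lit 72719) (nat_lit 10) (node (nat_lit 6) (nat_lit 78662)
  (nat_lit 11) (node (nat_lit 4) (nat_lit 47430) (nat_lit 12) nil nil) nil) (node (nat_lit 0)
  (nat_lit 79073) (nat_lit 10) nil nil)) (node (nat_lit 6) (nat_lit 0) (nat_lit 9) (node (nat_lit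
  4) (nat_lit 85774) (nat_lit 10) nil (node (nat_lit 0) (nat_lit 86939) (nat_lit 10) nil nil))
  (node (nat_lit 0) (nat_lit 85774) (nat_lit 9) nil nil))) (node (nat_lit 4) (nat_lit 0) (nat_lit
  8) (node (nat_lit 0) (nat_lit 83871) (nat_lit 9) (node (nat_lit 5) (nat_lit 83871) (nat_lit 10)
  nil nil) (node (nat_lit 5) (nat_lit 80046) (nat_lit 9) nil nil)) nil))) nil)) nil)) (node
  (nat_lit 0) (nat_lit 0) (nat_lit 5) (node (nat_lit 5) (nat_lit 0) (nat_lit 6) (node (nat_lit 6)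
  (nat_lit 108032) (nat_lit 7) (node (nat_lit 4) (nat_lit 112666) (nat_lit 8) (node (nat_lit 6)
  (nat_lit 116352) (nat_lit 9) (node (nat_lit 5) (nat_lit 117646) (nat_lit 10) (node (nat_lit 4)
  (nat_lit 114332) (nat_lit 11) (node (nat_lit 5) (nat_lit 110370) (nat_lit 12) nil nil) nil) nil)
  (node (nat_lit 5) (nat_lit 113650) (nat_lit 9) (node (nat_lit 4) (nat_lit 112015) (nat_lit 10)
  nil nil) nil)) (node (nat_lit 5) (nat_lit 112233) (nat_lit 8) (node (nat_lit 4) (nat_lit 111313)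
  (nat_lit 9) (node (nat_lit 5) (nat_lit 95378) (nat_lit 10) (node (nat_lit 6) (nat_lit 53357)
  (nat_lit 11) (node (nat_lit 4) (nat_lit 34647) (nat_lit 12) nil nil) nil) (node (nat_lit 6)
  (nat_lit 106976) (nat_lit 10) nil nil)) nil) (node (nat_lit 8) (nat_lit 115119) (nat_lit 8) nil
  nil))) (node (nat_lit 8) (nat_lit 0) (nat_lit 7) (node (nat_lit 4) (nat_lit 110389) (nat_lit 8)
  (node (nat_lit 6) (nat_lit 115279) (nat_lit 9) (node (nat_lit 5) (nat_lit 116372) (nat_lit 10)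
  (node (nat_lit 4) (nat_lit 112509) (nat_lit 11) (node (nat_lit 5) (nat_lit 108548) (nat_lit 12)
  (node (nat_lit 6) (nat_lit 105237) (nat_lit 13) (node (nat_lit 4) (nat_lit 96470) (nat_lit 14)
  nil nil) nil) nil) nil) nil) (node (nat_lit 5) (nat_lit 112437) (nat_lit 9) (node (nat_lit 4)
  (nat_lit 111362) (nat_lit 10) nil (node (nat_lit 6) (nat_lit 110957) (nat_lit 10) nil nil))
  nil)) (node (nat_lit 6) (nat_lit 114467) (nat_lit 8) (node (nat_lit 4) (nat_lit 117474) (nat_lit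
  9) nil (node (nat_lit 5) (nat_lit 118110) (nat_lit 9) (node (nat_lit 4) (nat_lit 116342)
  (nat_lit 10) nil nil) nil)) (node (nat_lit 0) (nat_lit 112841) (nat_lit 8) nil nil))) (node
  (nat_lit 4) (nat_lit 103386) (nat_lit 7) (node (nat_lit 6) (nat_lit 110489) (nat_lit 8) (node
  (nat_lit 4) (nat_lit 105360) (nat_lit 9) (node (nat_lit 5) (nat_lit 98044) (nat_lit 10) (node
  (nat_lit 6) (nat_lit 82681) (nat_lit 11) (node (nat_lit 4) (nat_lit 83240) (nat_lit 12) (node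
  (nat_lit 8) (nat_lit 84160) (nat_lit 13) nil nil) nil) nil) nil) (node (nat_lit 5) (nat_lit
  111063) (nat_lit 9) (node (nat_lit 4) (nat_lit 109098) (nat_lit 10) (node (nat_lit 5) (nat_lit
  94581) (nat_lit 11) nil nil) nil) nil)) (node (nat_lit 5) (nat_lit 108021) (nat_lit 8) (node
  (nat_lit 6) (nat_lit 111058) (nat_lit 9) nil nil) (node (nat_lit 8) (nat_lit 110473) (nat_lit 8)
  nil nil))) (node (nat_lit 0) (nat_lit 111946) (nat_lit 7) nil nil)))) (node (nat_lit 6) (nat_lit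
  0) (nat_lit 6) (node (nat_lit 5) (nat_lit 112025) (nat_lit 7) (node (nat_lit 4) (nat_lit 116597)
  (nat_lit 8) (node (nat_lit 6) (nat_lit 116488) (nat_lit 9) (node (nat_lit 4) (nat_lit 114454)
  (nat_lit 10) (node (nat_lit 5) (nat_lit 109853) (nat_lit 11) (node (nat_lit 6) (nat_lit 102824)
  (nat_lit 12) (node (nat_lit 4) (nat_lit 86939) (nat_lit 13) nil nil) nil) nil) (node (nat_lit 5)
  (nat_lit 117474) (nat_lit 10) nil nil)) (node (nat_lit 5) (nat_lit 118224) (nat_lit 9) (node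
  (nat_lit 6) (nat_lit 119210) (nat_lit 10) (node (nat_lit 4) (nat_lit 119959) (nat_lit 11) (node
  (nat_lit 8) (nat_lit 34278) (nat_lit 12) (node (nat_lit 6) (nat_lit 34278) (nat_lit 13) nil nil)
  nil) nil) nil) nil)) (node (nat_lit 6) (nat_lit 117443) (nat_lit 8) (node (nat_lit 4) (nat_lit
  119071) (nat_lit 9) nil nil) (node (nat_lit 8) (nat_lit 117612) (nat_lit 8) nil nil))) (node
  (nat_lit 4) (nat_lit 109688) (nat_lit 7) (node (nat_lit 5) (nat_lit 114322) (nat_lit 8) (node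
  (nat_lit 4) (nat_lit 116942) (nat_lit 9) (node (nat_lit 6) (nat_lit 118051) (nat_lit 10) (node
  (nat_lit 5) (nat_lit 119188) (nat_lit 11) nil (node (nat_lit 4) (nat_lit 112553) (nat_lit 11)
  nil nil)) nil) (node (nat_lit 6) (nat_lit 116951) (nat_lit 9) (node (nat_lit 5) (nat_lit 117616)
  (nat_lit 10) (node (nat_lit 4) (nat_lit 113753) (nat_lit 11) nil nil) (node (nat_lit 4) (nat_lit
  118773) (nat_lit 10) nil nil)) nil)) (node (nat_lit 6) (nat_lit 114223) (nat_lit 8) (node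
  (nat_lit 5) (nat_lit 114788) (nat_lit 9) (node (nat_lit 4) (nat_lit 109367) (nat_lit 10) nil
  nil) nil) nil)) (node (nat_lit 8) (nat_lit 115984) (nat_lit 7) (node (nat_lit 5) (nat_lit
  115854) (nat_lit 8) (node (nat_lit 4) (nat_lit 119497) (nat_lit 9) (node (nat_lit 6) (nat_lit
  113077) (nat_lit 10) (node (nat_lit 4) (nat_lit 111708) (nat_lit 11) (node (nat_lit 5) (nat_lit
  108563) (nat_lit 12) nil nil) nil) nil) (node (nat_lit 6) (nat_lit 119421) (nat_lit 9) (node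
  (nat_lit 4) (nat_lit 120693) (nat_lit 10) nil (node (nat_lit 5) (nat_lit 120086) (nat_lit 10)
  nil nil)) nil)) (node (nat_lit 4) (nat_lit 115854) (nat_lit 8) (node (nat_lit 5) (nat_lit
  118861) (nat_lit 9) (node (nat_lit 4) (nat_lit 116601) (nat_lit 10) nil nil) (node (nat_lit 6)
  (nat_lit 119421) (nat_lit 9) (node (nat_lit 5) (nat_lit 120086) (nat_lit 10) nil nil) nil))
  nil)) (node (nat_lit 0) (nat_lit 115984) (nat_lit 7) nil nil)))) (node (nat_lit 4) (nat_lit 0)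
  (nat_lit 6) (node (nat_lit 5) (nat_lit 103386) (nat_lit 7) (node (nat_lit 6) (nat_lit 111644)
  (nat_lit 8) (node (nat_lit 5) (nat_lit 111433) (nat_lit 9) (node (nat_lit 4) (nat_lit 109231)
  (nat_lit 10) (node (nat_lit 5) (nat_lit 93396) (nat_lit 11) (node (nat_lit 6) (nat_lit 85709)
  (nat_lit 12) (node (nat_lit 4) (nat_lit 69006) (nat_lit 13) nil nil) nil) (node (nat_lit 6)
  (nat_lit 110013) (nat_lit 11) nil nil)) nil) (node (nat_lit 4) (nat_lit 114262) (nat_lit 9)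
  (node (nat_lit 6) (nat_lit 116184) (nat_lit 10) (node (nat_lit 5) (nat_lit 117120) (nat_lit 11)
  nil nil) nil) nil)) (node (nat_lit 4) (nat_lit 107914) (nat_lit 8) (node (nat_lit 6) (nat_lit
  111289) (nat_lit 9) (node (nat_lit 5) (nat_lit 106951) (nat_lit 10) nil (node (nat_lit 4)
  (nat_lit 103977) (nat_lit 10) (node (nat_lit 5) (nat_lit 99628) (nat_lit 11) (node (nat_lit 6)
  (nat_lit 90005) (nat_lit 12) nil nil) nil) nil)) nil) (node (nat_lit 8) (nat_lit 110473)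
  (nat_lit 8) nil nil))) (node (nat_lit 6) (nat_lit 108553) (nat_lit 7) (node (nat_lit 5) (nat_lit
  112753) (nat_lit 8) (node (nat_lit 4) (nat_lit 113731) (nat_lit 9) (node (nat_lit 5) (nat_lit
  108830) (nat_lit 10) (node (nat_lit 6) (nat_lit 97535) (nat_lit 11) (node (nat_lit 4) (nat_lit
  73028) (nat_lit 12) nil nil) nil) (node (nat_lit 6) (nat_lit 110065) (nat_lit 10) nil nil))
  (node (nat_lit 6) (nat_lit 115760) (nat_lit 9) (node (nat_lit 4) (nat_lit 117582) (nat_lit 10)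
  nil nil) nil)) (node (nat_lit 4) (nat_lit 112632) (nat_lit 8) (node (nat_lit 5) (nat_lit 115639)
  (nat_lit 9) nil nil) (node (nat_lit 8) (nat_lit 115639) (nat_lit 8) nil nil))) (node (nat_lit 0)
  (nat_lit 105358) (nat_lit 7) nil nil))) (node (nat_lit 0) (nat_lit 0) (nat_lit 6) (node (nat_lit
  4) (nat_lit 109359) (nat_lit 7) (node (nat_lit 5) (nat_lit 113993) (nat_lit 8) (node (nat_lit 6)
  (nat_lit 112638) (nat_lit 9) nil (node (nat_lit 4) (nat_lit 112434) (nat_lit 9) nil nil)) (node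
  (nat_lit 6) (nat_lit 115349) (nat_lit 8) (node (nat_lit 5) (nat_lit 113392) (nat_lit 9) (node
  (nat_lit 4) (nat_lit 107971) (nat_lit 10) nil nil) (node (nat_lit 4) (nat_lit 118355) (nat_lit
  9) nil nil)) nil)) (node (nat_lit 6) (nat_lit 111623) (nat_lit 7) (node (nat_lit 5) (nat_lit
  117471) (nat_lit 8) (node (nat_lit 4) (nat_lit 114533) (nat_lit 9) nil (node (nat_lit 6)
  (nat_lit 119098) (nat_lit 9) nil nil)) (node (nat_lit 4) (nat_lit 115451) (nat_lit 8) (node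
  (nat_lit 5) (nat_lit 118458) (nat_lit 9) nil (node (nat_lit 6) (nat_lit 114097) (nat_lit 9) nil
  nil)) nil)) (node (nat_lit 5) (nat_lit 109359) (nat_lit 7) (node (nat_lit 6) (nat_lit 114730)
  (nat_lit 8) (node (nat_lit 4) (nat_lit 117737) (nat_lit 9) nil (node (nat_lit 5) (nat_lit
  109995) (nat_lit 9) nil nil)) (node (nat_lit 4) (nat_lit 112592) (nat_lit 8) (node (nat_lit 6)
  (nat_lit 104306) (nat_lit 9) nil (node (nat_lit 5) (nat_lit 115598) (nat_lit 9) nil nil)) nil))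
  (node (nat_lit 8) (nat_lit 115346) (nat_lit 7) nil (node (nat_lit 0) (nat_lit 115346) (nat_lit
  7) nil nil))))) nil)))) nil))

noncomputable def t389 : Tr :=
  (node (nat_lit 6) (nat_lit 0) (nat_lit 6) (node (nat_lit 0) (nat_lit 0) (nat_lit 7) (node
  (nat_lit 6) (nat_lit 0) (nat_lit 8) (node (nat_lit 4) (nat_lit 89122) (nat_lit 9) (node (nat_lit
  5) (nat_lit 96144) (nat_lit 10) (node (nat_lit 6) (nat_lit 98723) (nat_lit 11) nil (node
  (nat_lit 4) (nat_lit 99266) (nat_lit 11) nil nil)) (node (nat_lit 10) (nat_lit 96313) (nat_lit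
  10) (node (nat_lit 6) (nat_lit 97628) (nat_lit 11) (node (nat_lit 5) (nat_lit 96575) (nat_lit
  12) nil (node (nat_lit 10) (nat_lit 99954) (nat_lit 12) nil nil)) (node (nat_lit 4) (nat_lit
  96121) (nat_lit 11) nil nil)) (node (nat_lit 6) (nat_lit 94178) (nat_lit 10) (node (nat_lit 10)
  (nat_lit 98468) (nat_lit 11) nil (node (nat_lit 5) (nat_lit 94055) (nat_lit 11) nil nil)) (node
  (nat_lit 0) (nat_lit 95699) (nat_lit 10) nil nil)))) (node (nat_lit 5) (nat_lit 91169) (nat_lit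
  9) (node (nat_lit 4) (nat_lit 97781) (nat_lit 10) (node (nat_lit 6) (nat_lit 98045) (nat_lit 11)
  (node (nat_lit 4) (nat_lit 96151) (nat_lit 12) nil nil) (node (nat_lit 5) (nat_lit 100271)
  (nat_lit 11) nil nil)) (node (nat_lit 6) (nat_lit 96023) (nat_lit 10) (node (nat_lit 4) (nat_lit
  97254) (nat_lit 11) (node (nat_lit 5) (nat_lit 85396) (nat_lit 12) nil nil) (node (nat_lit 10)
  (nat_lit 98627) (nat_lit 11) nil nil)) (node (nat_lit 10) (nat_lit 97616) (nat_lit 10) nil (node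
  (nat_lit 0) (nat_lit 97747) (nat_lit 10) nil nil)))) (node (nat_lit 0) (nat_lit 94646) (nat_lit
  9) (node (nat_lit 10) (nat_lit 97787) (nat_lit 10) (node (nat_lit 6) (nat_lit 97650) (nat_lit
  11) nil nil) (node (nat_lit 6) (nat_lit 95833) (nat_lit 10) (node (nat_lit 10) (nat_lit 98437)
  (nat_lit 11) nil nil) (node (nat_lit 4) (nat_lit 95107) (nat_lit 10) nil (node (nat_lit 0)
  (nat_lit 97250) (nat_lit 10) nil (node (nat_lit 5) (nat_lit 94646) (nat_lit 10) nil nil)))))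
  nil))) (node (nat_lit 4) (nat_lit 0) (nat_lit 8) (node (nat_lit 5) (nat_lit 90929) (nat_lit 9)
  (node (nat_lit 6) (nat_lit 94968) (nat_lit 10) (node (nat_lit 5) (nat_lit 94900) (nat_lit 11)
  nil (node (nat_lit 4) (nat_lit 97459) (nat_lit 11) nil nil)) (node (nat_lit 4) (nat_lit 96202)
  (nat_lit 10) nil (node (nat_lit 10) (nat_lit 95647) (nat_lit 10) nil (node (nat_lit 0) (nat_lit
  95647) (nat_lit 10) nil nil)))) (node (nat_lit 10) (nat_lit 92510) (nat_lit 9) (node (nat_lit 6)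
  (nat_lit 95089) (nat_lit 10) (node (nat_lit 10) (nat_lit 98875) (nat_lit 11) (node (nat_lit 4)
  (nat_lit 99773) (nat_lit 12) nil nil) (node (nat_lit 4) (nat_lit 96473) (nat_lit 11) nil nil))
  nil) (node (nat_lit 6) (nat_lit 88969) (nat_lit 9) (node (nat_lit 4) (nat_lit 95240) (nat_lit
  10) (node (nat_lit 10) (nat_lit 97844) (nat_lit 11) nil (node (nat_lit 5) (nat_lit 96624)
  (nat_lit 11) nil nil)) (node (nat_lit 5) (nat_lit 89301) (nat_lit 10) nil nil)) (node (nat_lit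
  0) (nat_lit 90395) (nat_lit 9) nil nil)))) (node (nat_lit 5) (nat_lit 0) (nat_lit 8) (node
  (nat_lit 6) (nat_lit 91163) (nat_lit 9) (node (nat_lit 5) (nat_lit 96400) (nat_lit 10) nil (node
  (nat_lit 4) (nat_lit 94015) (nat_lit 10) nil nil)) (node (nat_lit 4) (nat_lit 88285) (nat_lit 9)
  (node (nat_lit 6) (nat_lit 87789) (nat_lit 10) nil (node (nat_lit 5) (nat_lit 91618) (nat_lit
  10) nil nil)) (node (nat_lit 10) (nat_lit 95009) (nat_lit 9) (node (nat_lit 6) (nat_lit 95131)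
  (nat_lit 10) (node (nat_lit 10) (nat_lit 97735) (nat_lit 11) nil nil) nil) (node (nat_lit 0)
  (nat_lit 91715) (nat_lit 9) nil nil)))) (node (nat_lit 0) (nat_lit 87188) (nat_lit 8) (node
  (nat_lit 6) (nat_lit 88709) (nat_lit 9) (node (nat_lit 10) (nat_lit 94646) (nat_lit 10) (node
  (nat_lit 6) (nat_lit 93931) (nat_lit 11) nil nil) (node (nat_lit 11) (nat_lit 93427) (nat_lit
  10) nil nil)) (node (nat_lit 10) (nat_lit 94677) (nat_lit 9) (node (nat_lit 6) (nat_lit 94264)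
  (nat_lit 10) nil nil) nil)) nil)))) (node (nat_lit 4) (nat_lit 0) (nat_lit 7) (node (nat_lit 0)
  (nat_lit 0) (nat_lit 8) (node (nat_lit 6) (nat_lit 0) (nat_lit 9) (node (nat_lit 4) (nat_lit
  84098) (nat_lit 10) (node (nat_lit 6) (nat_lit 88580) (nat_lit 11) (node (nat_lit 5) (nat_lit
  92840) (nat_lit 12) (node (nat_lit 4) (nat_lit 94919) (nat_lit 13) (node (nat_lit 5) (nat_lit
  89266) (nat_lit 14) (node (nat_lit 6) (nat_lit 87863) (nat_lit 15) (node (nat_lit 5) (nat_lit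
  85281) (nat_lit 16) (node (nat_lit 4) (nat_lit 78054) (nat_lit 17) (node (nat_lit 6) (nat_lit
  67376) (nat_lit 18) nil nil) nil) nil) nil) nil) (node (nat_lit 6) (nat_lit 95141) (nat_lit 13)
  nil nil)) (node (nat_lit 11) (nat_lit 93779) (nat_lit 12) (node (nat_lit 6) (nat_lit 95335)
  (nat_lit 13) (node (nat_lit 4) (nat_lit 96774) (nat_lit 14) nil nil) (node (nat_lit 4) (nat_lit
  95149) (nat_lit 13) (node (nat_lit 6) (nat_lit 94697) (nat_lit 14) nil nil) nil)) (node (nat_lit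
  0) (nat_lit 95360) (nat_lit 12) nil nil))) (node (nat_lit 5) (nat_lit 90525) (nat_lit 11) (node
  (nat_lit 6) (nat_lit 94162) (nat_lit 12) (node (nat_lit 4) (nat_lit 95268) (nat_lit 13) nil nil)
  (node (nat_lit 4) (nat_lit 92791) (nat_lit 12) (node (nat_lit 6) (nat_lit 89288) (nat_lit 13)
  nil nil) (node (nat_lit 11) (nat_lit 95268) (nat_lit 12) nil nil))) (node (nat_lit 0) (nat_lit
  91740) (nat_lit 11) nil nil))) (node (nat_lit 11) (nat_lit 84007) (nat_lit 10) (node (nat_lit 4)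
  (nat_lit 87831) (nat_lit 11) nil nil) (node (nat_lit 5) (nat_lit 85804) (nat_lit 10) nil (node
  (nat_lit 0) (nat_lit 78916) (nat_lit 10) nil nil)))) (node (nat_lit 4) (nat_lit 74399) (nat_lit
  9) (node (nat_lit 6) (nat_lit 83129) (nat_lit 10) (node (nat_lit 11) (nat_lit 89004) (nat_lit
  11) (node (nat_lit 6) (nat_lit 90601) (nat_lit 12) (node (nat_lit 4) (nat_lit 92381) (nat_lit
  13) nil nil) nil) nil) (node (nat_lit 0) (nat_lit 79117) (nat_lit 10) nil nil)) (node (nat_lit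
  5) (nat_lit 77112) (nat_lit 9) (node (nat_lit 4) (nat_lit 85434) (nat_lit 10) (node (nat_lit 5)
  (nat_lit 87836) (nat_lit 11) nil (node (nat_lit 6) (nat_lit 79066) (nat_lit 11) nil nil)) (node
  (nat_lit 6) (nat_lit 77144) (nat_lit 10) nil (node (nat_lit 11) (nat_lit 81830) (nat_lit 10) nil
  nil))) (node (nat_lit 0) (nat_lit 75502) (nat_lit 9) nil nil)))) nil) (node (nat_lit 5) (nat_lit
  0) (nat_lit 7) (node (nat_lit 0) (nat_lit 0) (nat_lit 8) (node (nat_lit 6) (nat_lit 83057)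
  (nat_lit 9) (node (nat_lit 5) (nat_lit 92441) (nat_lit 10) (node (nat_lit 6) (nat_lit 97549)
  (nat_lit 11) (node (nat_lit 4) (nat_lit 100811) (nat_lit 12) (node (nat_lit 5) (nat_lit 93106)
  (nat_lit 13) nil nil) (node (nat_lit 11) (nat_lit 99874) (nat_lit 12) nil nil)) (node (nat_lit
  4) (nat_lit 97489) (nat_lit 11) (node (nat_lit 5) (nat_lit 100241) (nat_lit 12) nil (node
  (nat_lit 6) (nat_lit 96473) (nat_lit 12) nil nil)) (node (nat_lit 0) (nat_lit 98137) (nat_lit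
  11) nil nil))) (node (nat_lit 4) (nat_lit 87683) (nat_lit 10) nil nil)) (node (nat_lit 5)
  (nat_lit 83740) (nat_lit 9) (node (nat_lit 6) (nat_lit 91628) (nat_lit 10) (node (nat_lit 11)
  (nat_lit 97324) (nat_lit 11) (node (nat_lit 6) (nat_lit 97324) (nat_lit 12) nil nil) nil) nil)
  (node (nat_lit 4) (nat_lit 84029) (nat_lit 9) (node (nat_lit 5) (nat_lit 91911) (nat_lit 10)
  (node (nat_lit 4) (nat_lit 90511) (nat_lit 11) nil nil) nil) (node (nat_lit 0) (nat_lit 83722)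
  (nat_lit 9) nil nil)))) nil) nil))) (node (nat_lit 0) (nat_lit 0) (nat_lit 6) (node (nat_lit 6)
  (nat_lit 0) (nat_lit 7) (node (nat_lit 9) (nat_lit 0) (nat_lit 8) (node (nat_lit 4) (nat_lit
  96494) (nat_lit 9) (node (nat_lit 6) (nat_lit 101321) (nat_lit 10) (node (nat_lit 5) (nat_lit
  103471) (nat_lit 11) (node (nat_lit 4) (nat_lit 102720) (nat_lit 12) (node (nat_lit 5) (nat_lit
  100464) (nat_lit 13) (node (nat_lit 6) (nat_lit 93509) (nat_lit 14) (node (nat_lit 5) (nat_lit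
  89004) (nat_lit 15) nil nil) nil) nil) (node (nat_lit 6) (nat_lit 102074) (nat_lit 12) (node
  (nat_lit 4) (nat_lit 103076) (nat_lit 13) nil nil) nil)) (node (nat_lit 4) (nat_lit 102393)
  (nat_lit 11) nil nil)) (node (nat_lit 5) (nat_lit 101288) (nat_lit 10) nil (node (nat_lit 9)
  (nat_lit 101212) (nat_lit 10) nil (node (nat_lit 0) (nat_lit 101212) (nat_lit 10) nil nil))))
  (node (nat_lit 5) (nat_lit 96468) (nat_lit 9) (node (nat_lit 6) (nat_lit 101661) (nat_lit 10)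
  (node (nat_lit 4) (nat_lit 103046) (nat_lit 11) nil (node (nat_lit 5) (nat_lit 103758) (nat_lit
  11) (node (nat_lit 4) (nat_lit 103176) (nat_lit 12) nil nil) nil)) (node (nat_lit 4) (nat_lit
  96345) (nat_lit 10) nil nil)) (node (nat_lit 0) (nat_lit 98663) (nat_lit 9) nil nil))) (node
  (nat_lit 4) (nat_lit 0) (nat_lit 8) (node (nat_lit 6) (nat_lit 96898) (nat_lit 9) (node (nat_lit
  5) (nat_lit 100927) (nat_lit 10) (node (nat_lit 4) (nat_lit 101168) (nat_lit 11) (node (nat_lit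
  5) (nat_lit 97574) (nat_lit 12) (node (nat_lit 6) (nat_lit 92700) (nat_lit 13) (node (nat_lit 5)
  (nat_lit 69245) (nat_lit 14) (node (nat_lit 4) (nat_lit 69245) (nat_lit 15) nil nil) nil) nil)
  nil) (node (nat_lit 6) (nat_lit 103229) (nat_lit 11) nil nil)) (node (nat_lit 9) (nat_lit
  101616) (nat_lit 10) nil nil)) (node (nat_lit 9) (nat_lit 100231) (nat_lit 9) (node (nat_lit 4)
  (nat_lit 99191) (nat_lit 10) (node (nat_lit 6) (nat_lit 97392) (nat_lit 11) nil nil) nil) (node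
  (nat_lit 5) (nat_lit 97664) (nat_lit 9) (node (nat_lit 4) (nat_lit 98931) (nat_lit 10) nil (node
  (nat_lit 6) (nat_lit 100052) (nat_lit 10) nil nil)) (node (nat_lit 0) (nat_lit 98291) (nat_lit
  9) nil nil)))) (node (nat_lit 5) (nat_lit 89453) (nat_lit 8) (node (nat_lit 6) (nat_lit 96665)
  (nat_lit 9) (node (nat_lit 4) (nat_lit 96767) (nat_lit 10) (node (nat_lit 5) (nat_lit 90678)
  (nat_lit 11) (node (nat_lit 4) (nat_lit 89624) (nat_lit 12) nil nil) nil) nil) (node (nat_lit 4)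
  (nat_lit 97690) (nat_lit 9) (node (nat_lit 6) (nat_lit 99399) (nat_lit 10) (node (nat_lit 4)
  (nat_lit 97366) (nat_lit 11) nil nil) (node (nat_lit 5) (nat_lit 101023) (nat_lit 10) nil nil))
  (node (nat_lit 9) (nat_lit 99839) (nat_lit 9) nil nil))) (node (nat_lit 0) (nat_lit 93239)
  (nat_lit 8) nil nil)))) (node (nat_lit 5) (nat_lit 0) (nat_lit 7) (node (nat_lit 9) (nat_lit 0)
  (nat_lit 8) (node (nat_lit 4) (nat_lit 98882) (nat_lit 9) (node (nat_lit 5) (nat_lit 101277)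
  (nat_lit 10) (node (nat_lit 6) (nat_lit 101504) (nat_lit 11) (node (nat_lit 5) (nat_lit 99164)
  (nat_lit 12) nil nil) (node (nat_lit 4) (nat_lit 103154) (nat_lit 11) (node (nat_lit 6) (nat_lit
  100913) (nat_lit 12) nil nil) nil)) (node (nat_lit 6) (nat_lit 103938) (nat_lit 10) (node
  (nat_lit 5) (nat_lit 98413) (nat_lit 11) nil (node (nat_lit 4) (nat_lit 104688) (nat_lit 11) nil
  nil)) (node (nat_lit 9) (nat_lit 103600) (nat_lit 10) nil (node (nat_lit 0) (nat_lit 103600)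
  (nat_lit 10) nil nil)))) (node (nat_lit 6) (nat_lit 98387) (nat_lit 9) (node (nat_lit 5)
  (nat_lit 101672) (nat_lit 10) (node (nat_lit 6) (nat_lit 100326) (nat_lit 11) (node (nat_lit 4)
  (nat_lit 100443) (nat_lit 12) (node (nat_lit 5) (nat_lit 97812) (nat_lit 13) nil nil) nil) (node
  (nat_lit 4) (nat_lit 103549) (nat_lit 11) (node (nat_lit 6) (nat_lit 101208) (nat_lit 12) nil
  nil) nil)) (node (nat_lit 4) (nat_lit 101720) (nat_lit 10) nil nil)) (node (nat_lit 0) (nat_lit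
  99203) (nat_lit 9) nil nil))) (node (nat_lit 4) (nat_lit 0) (nat_lit 8) (node (nat_lit 5)
  (nat_lit 99417) (nat_lit 9) (node (nat_lit 6) (nat_lit 103763) (nat_lit 10) (node (nat_lit 4)
  (nat_lit 104621) (nat_lit 11) nil (node (nat_lit 5) (nat_lit 100784) (nat_lit 11) nil nil))
  (node (nat_lit 9) (nat_lit 104134) (nat_lit 10) nil nil)) (node (nat_lit 6) (nat_lit 96411)
  (nat_lit 9) (node (nat_lit 4) (nat_lit 99295) (nat_lit 10) (node (nat_lit 5) (nat_lit 92764)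
  (nat_lit 11) nil nil) (node (nat_lit 5) (nat_lit 99037) (nat_lit 10) nil nil)) (node (nat_lit 0)
  (nat_lit 100737) (nat_lit 9) nil nil))) (node (nat_lit 6) (nat_lit 88248) (nat_lit 8) (node
  (nat_lit 5) (nat_lit 95961) (nat_lit 9) (node (nat_lit 4) (nat_lit 100357) (nat_lit 10) (node
  (nat_lit 6) (nat_lit 99779) (nat_lit 11) (node (nat_lit 4) (nat_lit 97743) (nat_lit 12) nil nil)
  (node (nat_lit 5) (nat_lit 89027) (nat_lit 11) nil nil)) nil) (node (nat_lit 4) (nat_lit 96028)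
  (nat_lit 9) (node (nat_lit 5) (nat_lit 99361) (nat_lit 10) nil (node (nat_lit 6) (nat_lit 96701)
  (nat_lit 10) nil nil)) (node (nat_lit 9) (nat_lit 98635) (nat_lit 9) nil nil))) (node (nat_lit
  0) (nat_lit 95534) (nat_lit 8) nil nil)))) (node (nat_lit 0) (nat_lit 0) (nat_lit 7) (node
  (nat_lit 9) (nat_lit 0) (nat_lit 8) (node (nat_lit 4) (nat_lit 98613) (nat_lit 9) (node (nat_lit
  10) (nat_lit 103971) (nat_lit 10) nil nil) (node (nat_lit 5) (nat_lit 93493) (nat_lit 9) (node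
  (nat_lit 10) (nat_lit 98210) (nat_lit 10) nil nil) (node (nat_lit 6) (nat_lit 98613) (nat_lit 9)
  (node (nat_lit 10) (nat_lit 103331) (nat_lit 10) nil nil) (node (nat_lit 0) (nat_lit 100154)
  (nat_lit 9) nil nil)))) (node (nat_lit 4) (nat_lit 0) (nat_lit 8) (node (nat_lit 10) (nat_lit
  102019) (nat_lit 9) (node (nat_lit 9) (nat_lit 103403) (nat_lit 10) nil nil) (node (nat_lit 6)
  (nat_lit 98388) (nat_lit 9) nil (node (nat_lit 5) (nat_lit 94502) (nat_lit 9) nil (node (nat_lit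
  0) (nat_lit 100227) (nat_lit 9) nil (node (nat_lit 9) (nat_lit 100227) (nat_lit 9) nil nil)))))
  (node (nat_lit 6) (nat_lit 90464) (nat_lit 8) (node (nat_lit 4) (nat_lit 96133) (nat_lit 9) nil
  (node (nat_lit 9) (nat_lit 99466) (nat_lit 9) nil nil)) (node (nat_lit 5) (nat_lit 90734)
  (nat_lit 8) (node (nat_lit 4) (nat_lit 91565) (nat_lit 9) nil (node (nat_lit 9) (nat_lit 99736)
  (nat_lit 9) nil nil)) (node (nat_lit 0) (nat_lit 94284) (nat_lit 8) nil nil))))) (node (nat_lit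
  4) (nat_lit 0) (nat_lit 7) (node (nat_lit 6) (nat_lit 88524) (nat_lit 8) (node (nat_lit 5)
  (nat_lit 94508) (nat_lit 9) (node (nat_lit 4) (nat_lit 96549) (nat_lit 10) (node (nat_lit 5)
  (nat_lit 87973) (nat_lit 11) nil nil) (node (nat_lit 6) (nat_lit 99061) (nat_lit 10) (node
  (nat_lit 4) (nat_lit 101964) (nat_lit 11) nil nil) nil)) (node (nat_lit 4) (nat_lit 96303)
  (nat_lit 9) (node (nat_lit 5) (nat_lit 99636) (nat_lit 10) nil nil) nil)) (node (nat_lit 5)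
  (nat_lit 91014) (nat_lit 8) (node (nat_lit 4) (nat_lit 96812) (nat_lit 9) (node (nat_lit 6)
  (nat_lit 98692) (nat_lit 10) (node (nat_lit 4) (nat_lit 93885) (nat_lit 11) nil nil) (node
  (nat_lit 9) (nat_lit 101530) (nat_lit 10) nil nil)) (node (nat_lit 6) (nat_lit 98608) (nat_lit
  9) (node (nat_lit 5) (nat_lit 100979) (nat_lit 10) (node (nat_lit 4) (nat_lit 98345) (nat_lit
  11) nil nil) (node (nat_lit 4) (nat_lit 101941) (nat_lit 10) nil nil)) nil)) (node (nat_lit 0)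
  (nat_lit 96164) (nat_lit 8) (node (nat_lit 4) (nat_lit 97548) (nat_lit 9) nil nil) nil)))
  nil)))) (node (nat_lit 5) (nat_lit 0) (nat_lit 6) (node (nat_lit 0) (nat_lit 0) (nat_lit 7)
  (node (nat_lit 5) (nat_lit 0) (nat_lit 8) (node (nat_lit 4) (nat_lit 66176) (nat_lit 9) (node
  (nat_lit 10) (nat_lit 69245) (nat_lit 10) (node (nat_lit 5) (nat_lit 69245) (nat_lit 11) (node
  (nat_lit 10) (nat_lit 69245) (nat_lit 12) nil (node (nat_lit 6) (nat_lit 69245) (nat_lit 12) nil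
  nil)) (node (nat_lit 4) (nat_lit 69245) (nat_lit 11) nil nil)) (node (nat_lit 6) (nat_lit 66704)
  (nat_lit 10) (node (nat_lit 4) (nat_lit 67143) (nat_lit 11) (node (nat_lit 5) (nat_lit 63043)
  (nat_lit 12) nil nil) (node (nat_lit 5) (nat_lit 67538) (nat_lit 11) nil nil)) (node (nat_lit 5)
  (nat_lit 68050) (nat_lit 10) nil (node (nat_lit 0) (nat_lit 68799) (nat_lit 10) nil nil))))
  (node (nat_lit 6) (nat_lit 63675) (nat_lit 9) (node (nat_lit 4) (nat_lit 66768) (nat_lit 10)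
  (node (nat_lit 6) (nat_lit 67517) (nat_lit 11) nil (node (nat_lit 5) (nat_lit 67517) (nat_lit
  11) nil nil)) (node (nat_lit 5) (nat_lit 66768) (nat_lit 10) (node (nat_lit 10) (nat_lit 68177)
  (nat_lit 11) nil (node (nat_lit 4) (nat_lit 65839) (nat_lit 11) nil nil)) (node (nat_lit 10)
  (nat_lit 67517) (nat_lit 10) nil (node (nat_lit 0) (nat_lit 67517) (nat_lit 10) nil nil))))
  (node (nat_lit 0) (nat_lit 67164) (nat_lit 9) (node (nat_lit 10) (nat_lit 69133) (nat_lit 10)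
  (node (nat_lit 5) (nat_lit 69133) (nat_lit 11) nil nil) (node (nat_lit 5) (nat_lit 66213)
  (nat_lit 10) nil (node (nat_lit 4) (nat_lit 68384) (nat_lit 10) nil (node (nat_lit 0) (nat_lit
  67913) (nat_lit 10) nil nil)))) nil))) (node (nat_lit 4) (nat_lit 0) (nat_lit 8) (node (nat_lit
  6) (nat_lit 65368) (nat_lit 9) (node (nat_lit 5) (nat_lit 66291) (nat_lit 10) (node (nat_lit 4)
  (nat_lit 67532) (nat_lit 11) (node (nat_lit 5) (nat_lit 68192) (nat_lit 12) nil nil) (node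
  (nat_lit 6) (nat_lit 63196) (nat_lit 11) nil nil)) (node (nat_lit 4) (nat_lit 67242) (nat_lit
  10) nil nil)) (node (nat_lit 10) (nat_lit 66369) (nat_lit 9) (node (nat_lit 5) (nat_lit 68407)
  (nat_lit 10) (node (nat_lit 10) (nat_lit 69245) (nat_lit 11) (node (nat_lit 4) (nat_lit 69245)
  (nat_lit 12) (node (nat_lit 5) (nat_lit 69245) (nat_lit 13) nil nil) nil) nil) nil) (node
  (nat_lit 5) (nat_lit 65981) (nat_lit 9) (node (nat_lit 4) (nat_lit 68979) (nat_lit 10) (node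
  (nat_lit 10) (nat_lit 69245) (nat_lit 11) nil nil) (node (nat_lit 6) (nat_lit 68979) (nat_lit
  10) nil nil)) (node (nat_lit 0) (nat_lit 67242) (nat_lit 9) nil nil)))) (node (nat_lit 6)
  (nat_lit 0) (nat_lit 8) (node (nat_lit 5) (nat_lit 64085) (nat_lit 9) (node (nat_lit 6) (nat_lit
  66492) (nat_lit 10) nil (node (nat_lit 4) (nat_lit 63722) (nat_lit 10) nil nil)) (node (nat_lit
  10) (nat_lit 65321) (nat_lit 9) (node (nat_lit 5) (nat_lit 64370) (nat_lit 10) nil nil) (node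
  (nat_lit 4) (nat_lit 63447) (nat_lit 9) (node (nat_lit 5) (nat_lit 65321) (nat_lit 10) nil nil)
  (node (nat_lit 0) (nat_lit 63937) (nat_lit 9) nil nil)))) (node (nat_lit 0) (nat_lit 63736)
  (nat_lit 8) (node (nat_lit 5) (nat_lit 63799) (nat_lit 9) (node (nat_lit 10) (nat_lit 67642)
  (nat_lit 10) nil nil) (node (nat_lit 10) (nat_lit 67002) (nat_lit 9) (node (nat_lit 5) (nat_lit
  67002) (nat_lit 10) nil nil) nil)) nil)))) (node (nat_lit 6) (nat_lit 0) (nat_lit 7) (node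
  (nat_lit 0) (nat_lit 0) (nat_lit 8) (node (nat_lit 5) (nat_lit 59056) (nat_lit 9) (node (nat_lit
  6) (nat_lit 63455) (nat_lit 10) (node (nat_lit 5) (nat_lit 66165) (nat_lit 11) (node (nat_lit
  11) (nat_lit 68957) (nat_lit 12) nil (node (nat_lit 4) (nat_lit 68410) (nat_lit 12) nil nil))
  (node (nat_lit 4) (nat_lit 67647) (nat_lit 11) (node (nat_lit 6) (nat_lit 67812) (nat_lit 12)
  nil (node (nat_lit 5) (nat_lit 68307) (nat_lit 12) nil (node (nat_lit 11) (nat_lit 68906)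
  (nat_lit 12) nil nil))) (node (nat_lit 0) (nat_lit 66825) (nat_lit 11) nil nil))) (node (nat_lit
  4) (nat_lit 59989) (nat_lit 10) nil nil)) (node (nat_lit 4) (nat_lit 61277) (nat_lit 9) (node
  (nat_lit 6) (nat_lit 65666) (nat_lit 10) (node (nat_lit 4) (nat_lit 66415) (nat_lit 11) nil nil)
  nil) (node (nat_lit 6) (nat_lit 59056) (nat_lit 9) (node (nat_lit 5) (nat_lit 62678) (nat_lit
  10) (node (nat_lit 11) (nat_lit 64087) (nat_lit 11) nil nil) nil) (node (nat_lit 0) (nat_lit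
  60194) (nat_lit 9) nil nil)))) (node (nat_lit 4) (nat_lit 0) (nat_lit 8) (node (nat_lit 5)
  (nat_lit 0) (nat_lit 9) (node (nat_lit 0) (nat_lit 63501) (nat_lit 10) (node (nat_lit 4)
  (nat_lit 63501) (nat_lit 11) nil nil) (node (nat_lit 4) (nat_lit 61872) (nat_lit 10) (node
  (nat_lit 6) (nat_lit 63481) (nat_lit 11) nil nil) nil)) (node (nat_lit 6) (nat_lit 0) (nat_lit
  9) (node (nat_lit 5) (nat_lit 61975) (nat_lit 10) (node (nat_lit 6) (nat_lit 60777) (nat_lit 11)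
  nil nil) (node (nat_lit 0) (nat_lit 63605) (nat_lit 10) nil nil)) (node (nat_lit 0) (nat_lit
  58383) (nat_lit 9) nil nil))) nil)) nil)) nil)))

noncomputable def t390 : Tr :=
  (node (nat_lit 4) (nat_lit 0) (nat_lit 4) (node (nat_lit 6) (nat_lit 0) (nat_lit 5) (node
  (nat_lit 0) (nat_lit 0) (nat_lit 6) (node (nat_lit 5) (nat_lit 0) (nat_lit 7) (node (nat_lit 9)
  (nat_lit 0) (nat_lit 8) (node (nat_lit 6) (nat_lit 117913) (nat_lit 9) (node (nat_lit 5)
  (nat_lit 118943) (nat_lit 10) (node (nat_lit 4) (nat_lit 119585) (nat_lit 11) (node (nat_lit 6)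
  (nat_lit 119985) (nat_lit 12) (node (nat_lit 4) (nat_lit 119658) (nat_lit 13) nil nil) nil)
  (node (nat_lit 6) (nat_lit 119692) (nat_lit 11) nil nil)) (node (nat_lit 4) (nat_lit 121114)
  (nat_lit 10) nil nil)) (node (nat_lit 4) (nat_lit 117344) (nat_lit 9) (node (nat_lit 5) (nat_lit
  119555) (nat_lit 10) (node (nat_lit 4) (nat_lit 120197) (nat_lit 11) (node (nat_lit 6) (nat_lit
  119133) (nat_lit 12) nil nil) (node (nat_lit 6) (nat_lit 118972) (nat_lit 11) nil nil)) (node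
  (nat_lit 6) (nat_lit 117376) (nat_lit 10) nil nil)) (node (nat_lit 0) (nat_lit 119349) (nat_lit
  9) nil nil))) (node (nat_lit 6) (nat_lit 0) (nat_lit 8) (node (nat_lit 5) (nat_lit 114293)
  (nat_lit 9) (node (nat_lit 4) (nat_lit 116209) (nat_lit 10) (node (nat_lit 5) (nat_lit 109529)
  (nat_lit 11) (node (nat_lit 6) (nat_lit 83899) (nat_lit 12) (node (nat_lit 4) (nat_lit 65586)
  (nat_lit 13) nil nil) nil) (node (nat_lit 6) (nat_lit 114240) (nat_lit 11) (node (nat_lit 4)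
  (nat_lit 113701) (nat_lit 12) nil nil) nil)) nil) (node (nat_lit 4) (nat_lit 113828) (nat_lit 9)
  (node (nat_lit 6) (nat_lit 113860) (nat_lit 10) nil (node (nat_lit 5) (nat_lit 117161) (nat_lit
  10) nil nil)) (node (nat_lit 9) (nat_lit 118667) (nat_lit 9) (node (nat_lit 6) (nat_lit 118667)
  (nat_lit 10) nil nil) (node (nat_lit 0) (nat_lit 118667) (nat_lit 9) nil nil)))) (node (nat_lit
  4) (nat_lit 107480) (nat_lit 8) (node (nat_lit 6) (nat_lit 114278) (nat_lit 9) (node (nat_lit 5)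
  (nat_lit 116455) (nat_lit 10) (node (nat_lit 4) (nat_lit 116003) (nat_lit 11) (node (nat_lit 5)
  (nat_lit 113233) (nat_lit 12) (node (nat_lit 6) (nat_lit 107140) (nat_lit 13) (node (nat_lit 4)
  (nat_lit 97899) (nat_lit 14) nil nil) nil) nil) nil) (node (nat_lit 4) (nat_lit 116071) (nat_lit
  10) (node (nat_lit 5) (nat_lit 108015) (nat_lit 11) (node (nat_lit 6) (nat_lit 90027) (nat_lit
  12) nil nil) nil) nil)) (node (nat_lit 5) (nat_lit 111644) (nat_lit 9) (node (nat_lit 6)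
  (nat_lit 115744) (nat_lit 10) (node (nat_lit 4) (nat_lit 117128) (nat_lit 11) nil nil) nil)
  (node (nat_lit 9) (nat_lit 116483) (nat_lit 9) nil nil))) (node (nat_lit 0) (nat_lit 114860)
  (nat_lit 8) nil nil)))) (node (nat_lit 4) (nat_lit 0) (nat_lit 7) (node (nat_lit 9) (nat_lit 0)
  (nat_lit 8) (node (nat_lit 6) (nat_lit 117448) (nat_lit 9) (node (nat_lit 4) (nat_lit 119985)
  (nat_lit 10) (node (nat_lit 6) (nat_lit 119506) (nat_lit 11) nil nil) (node (nat_lit 5) (nat_lit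
  118374) (nat_lit 10) (node (nat_lit 4) (nat_lit 116338) (nat_lit 11) nil nil) nil)) (node
  (nat_lit 5) (nat_lit 117448) (nat_lit 9) (node (nat_lit 4) (nat_lit 120544) (nat_lit 10) (node
  (nat_lit 6) (nat_lit 121227) (nat_lit 11) (node (nat_lit 4) (nat_lit 116649) (nat_lit 12) nil
  nil) nil) (node (nat_lit 6) (nat_lit 117480) (nat_lit 10) nil nil)) (node (nat_lit 0) (nat_lit
  119349) (nat_lit 9) nil nil))) (node (nat_lit 5) (nat_lit 109441) (nat_lit 8) (node (nat_lit 4)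
  (nat_lit 114722) (nat_lit 9) (node (nat_lit 6) (nat_lit 118123) (nat_lit 10) (node (nat_lit 5)
  (nat_lit 119260) (nat_lit 11) nil nil) nil) (node (nat_lit 6) (nat_lit 115788) (nat_lit 9) (node
  (nat_lit 4) (nat_lit 119121) (nat_lit 10) nil (node (nat_lit 5) (nat_lit 118594) (nat_lit 10)
  nil nil)) (node (nat_lit 9) (nat_lit 118443) (nat_lit 9) nil nil))) (node (nat_lit 6) (nat_lit
  0) (nat_lit 8) (node (nat_lit 5) (nat_lit 114078) (nat_lit 9) (node (nat_lit 4) (nat_lit 111079)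
  (nat_lit 10) (node (nat_lit 5) (nat_lit 98830) (nat_lit 11) (node (nat_lit 6) (nat_lit 88013)
  (nat_lit 12) (node (nat_lit 4) (nat_lit 70766) (nat_lit 13) nil nil) nil) nil) (node (nat_lit 6)
  (nat_lit 117411) (nat_lit 10) nil nil)) (node (nat_lit 4) (nat_lit 116519) (nat_lit 9) (node
  (nat_lit 5) (nat_lit 119852) (nat_lit 10) nil nil) (node (nat_lit 0) (nat_lit 119217) (nat_lit
  9) nil nil))) (node (nat_lit 0) (nat_lit 116015) (nat_lit 8) nil nil)))) (node (nat_lit 0)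
  (nat_lit 0) (nat_lit 7) (node (nat_lit 9) (nat_lit 0) (nat_lit 8) (node (nat_lit 6) (nat_lit
  119019) (nat_lit 9) (node (nat_lit 10) (nat_lit 121642) (nat_lit 10) nil nil) (node (nat_lit 5)
  (nat_lit 118383) (nat_lit 9) nil (node (nat_lit 4) (nat_lit 118383) (nat_lit 9) nil (node
  (nat_lit 0) (nat_lit 120258) (nat_lit 9) nil nil)))) (node (nat_lit 6) (nat_lit 0) (nat_lit 8)
  (node (nat_lit 10) (nat_lit 120409) (nat_lit 9) nil (node (nat_lit 5) (nat_lit 119170) (nat_lit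
  9) nil (node (nat_lit 4) (nat_lit 119170) (nat_lit 9) nil (node (nat_lit 0) (nat_lit 120409)
  (nat_lit 9) nil (node (nat_lit 9) (nat_lit 120409) (nat_lit 9) nil nil))))) (node (nat_lit 4)
  (nat_lit 111850) (nat_lit 8) (node (nat_lit 6) (nat_lit 113157) (nat_lit 9) nil nil) (node
  (nat_lit 5) (nat_lit 111850) (nat_lit 8) (node (nat_lit 6) (nat_lit 113157) (nat_lit 9) nil nil)
  (node (nat_lit 0) (nat_lit 116924) (nat_lit 8) nil nil))))) (node (nat_lit 6) (nat_lit 0)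
  (nat_lit 7) (node (nat_lit 5) (nat_lit 113592) (nat_lit 8) (node (nat_lit 4) (nat_lit 118713)
  (nat_lit 9) (node (nat_lit 5) (nat_lit 120587) (nat_lit 10) nil (node (nat_lit 6) (nat_lit
  119954) (nat_lit 10) nil nil)) (node (nat_lit 6) (nat_lit 118415) (nat_lit 9) (node (nat_lit 4)
  (nat_lit 120289) (nat_lit 10) nil nil) nil)) (node (nat_lit 4) (nat_lit 111881) (nat_lit 8)
  (node (nat_lit 5) (nat_lit 118187) (nat_lit 9) (node (nat_lit 4) (nat_lit 121485) (nat_lit 10)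
  nil (node (nat_lit 6) (nat_lit 118777) (nat_lit 10) nil nil)) (node (nat_lit 6) (nat_lit 117474)
  (nat_lit 9) (node (nat_lit 5) (nat_lit 119651) (nat_lit 10) nil nil) (node (nat_lit 9) (nat_lit
  120289) (nat_lit 9) nil nil))) (node (nat_lit 0) (nat_lit 118415) (nat_lit 8) (node (nat_lit 6)
  (nat_lit 118415) (nat_lit 9) nil nil) nil))) nil)))) (node (nat_lit 5) (nat_lit 0) (nat_lit 6)
  (node (nat_lit 0) (nat_lit 0) (nat_lit 7) (node (nat_lit 5) (nat_lit 0) (nat_lit 8) (node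
  (nat_lit 4) (nat_lit 116079) (nat_lit 9) (node (nat_lit 6) (nat_lit 119238) (nat_lit 10) (node
  (nat_lit 4) (nat_lit 118470) (nat_lit 11) (node (nat_lit 5) (nat_lit 115990) (nat_lit 12) (node
  (nat_lit 6) (nat_lit 105022) (nat_lit 13) nil nil) nil) (node (nat_lit 5) (nat_lit 119987)
  (nat_lit 11) nil nil)) (node (nat_lit 5) (nat_lit 118668) (nat_lit 10) (node (nat_lit 6)
  (nat_lit 117393) (nat_lit 11) nil nil) (node (nat_lit 10) (nat_lit 119723) (nat_lit 10) nil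
  (node (nat_lit 0) (nat_lit 119723) (nat_lit 10) nil nil)))) (node (nat_lit 6) (nat_lit 116186)
  (nat_lit 9) (node (nat_lit 4) (nat_lit 119519) (nat_lit 10) (node (nat_lit 5) (nat_lit 120903)
  (nat_lit 11) nil nil) (node (nat_lit 5) (nat_lit 116822) (nat_lit 10) (node (nat_lit 4) (nat_lit
  115959) (nat_lit 11) nil (node (nat_lit 10) (nat_lit 119426) (nat_lit 11) nil nil)) (node
  (nat_lit 10) (nat_lit 120903) (nat_lit 10) nil (node (nat_lit 0) (nat_lit 120903) (nat_lit 10)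
  nil nil)))) (node (nat_lit 0) (nat_lit 120176) (nat_lit 9) (node (nat_lit 5) (nat_lit 118565)
  (nat_lit 10) nil (node (nat_lit 10) (nat_lit 120925) (nat_lit 10) nil (node (nat_lit 4) (nat_lit
  120176) (nat_lit 10) nil (node (nat_lit 6) (nat_lit 120176) (nat_lit 10) nil nil)))) nil)))
  (node (nat_lit 6) (nat_lit 0) (nat_lit 8) (node (nat_lit 4) (nat_lit 118102) (nat_lit 9) (node
  (nat_lit 5) (nat_lit 120760) (nat_lit 10) nil (node (nat_lit 6) (nat_lit 118134) (nat_lit 10)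
  nil nil)) (node (nat_lit 5) (nat_lit 118102) (nat_lit 9) (node (nat_lit 6) (nat_lit 120760)
  (nat_lit 10) nil (node (nat_lit 4) (nat_lit 117863) (nat_lit 10) nil nil)) (node (nat_lit 10)
  (nat_lit 120124) (nat_lit 9) (node (nat_lit 5) (nat_lit 120124) (nat_lit 10) nil nil) (node
  (nat_lit 0) (nat_lit 120124) (nat_lit 9) nil nil)))) (node (nat_lit 4) (nat_lit 0) (nat_lit 8)
  (node (nat_lit 6) (nat_lit 114381) (nat_lit 9) (node (nat_lit 5) (nat_lit 114863) (nat_lit 10)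
  (node (nat_lit 4) (nat_lit 111827) (nat_lit 11) (node (nat_lit 5) (nat_lit 109058) (nat_lit 12)
  (node (nat_lit 6) (nat_lit 102965) (nat_lit 13) (node (nat_lit 4) (nat_lit 93723) (nat_lit 14)
  (node (nat_lit 6) (nat_lit 78816) (nat_lit 15) (node (nat_lit 5) (nat_lit 52807) (nat_lit 16)
  nil nil) nil) nil) nil) nil) nil) (node (nat_lit 4) (nat_lit 117714) (nat_lit 10) nil nil))
  (node (nat_lit 5) (nat_lit 115686) (nat_lit 9) (node (nat_lit 4) (nat_lit 116077) (nat_lit 10)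
  nil (node (nat_lit 6) (nat_lit 119533) (nat_lit 10) nil nil)) (node (nat_lit 10) (nat_lit
  118974) (nat_lit 9) (node (nat_lit 5) (nat_lit 118974) (nat_lit 10) nil nil) (node (nat_lit 0)
  (nat_lit 118338) (nat_lit 9) nil nil)))) (node (nat_lit 0) (nat_lit 117388) (nat_lit 8) (node
  (nat_lit 5) (nat_lit 115364) (nat_lit 9) (node (nat_lit 10) (nat_lit 118770) (nat_lit 10) nil
  nil) (node (nat_lit 10) (nat_lit 120045) (nat_lit 9) nil nil)) nil)))) (node (nat_lit 6)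
  (nat_lit 0) (nat_lit 7) (node (nat_lit 0) (nat_lit 0) (nat_lit 8) (node (nat_lit 5) (nat_lit
  115612) (nat_lit 9) (node (nat_lit 6) (nat_lit 119881) (nat_lit 10) (node (nat_lit 5) (nat_lit
  120905) (nat_lit 11) (node (nat_lit 4) (nat_lit 118466) (nat_lit 12) (node (nat_lit 5) (nat_lit
  117460) (nat_lit 13) (node (nat_lit 6) (nat_lit 114450) (nat_lit 14) (node (nat_lit 4) (nat_lit
  109217) (nat_lit 15) (node (nat_lit 6) (nat_lit 98621) (nat_lit 16) (node (nat_lit 5) (nat_lit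
  81364) (nat_lit 17) nil nil) nil) nil) nil) (node (nat_lit 6) (nat_lit 119591) (nat_lit 13)
  (node (nat_lit 4) (nat_lit 120129) (nat_lit 14) nil nil) nil)) (node (nat_lit 11) (nat_lit
  122948) (nat_lit 12) (node (nat_lit 6) (nat_lit 122948) (nat_lit 13) nil (node (nat_lit 5)
  (nat_lit 122948) (nat_lit 13) nil nil)) (node (nat_lit 0) (nat_lit 122427) (nat_lit 12) nil
  nil))) (node (nat_lit 4) (nat_lit 121993) (nat_lit 11) (node (nat_lit 5) (nat_lit 122653)
  (nat_lit 12) nil nil) (node (nat_lit 0) (nat_lit 121783) (nat_lit 11) nil nil))) (node (nat_lit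
  11) (nat_lit 120512) (nat_lit 10) (node (nat_lit 6) (nat_lit 120512) (nat_lit 11) nil nil) (node
  (nat_lit 4) (nat_lit 119479) (nat_lit 10) nil nil))) (node (nat_lit 6) (nat_lit 117141) (nat_lit
  9) (node (nat_lit 5) (nat_lit 120418) (nat_lit 10) (node (nat_lit 11) (nat_lit 122697) (nat_lit
  11) (node (nat_lit 5) (nat_lit 122697) (nat_lit 12) nil nil) nil) nil) (node (nat_lit 4)
  (nat_lit 113152) (nat_lit 9) (node (nat_lit 6) (nat_lit 119088) (nat_lit 10) (node (nat_lit 4)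
  (nat_lit 120472) (nat_lit 11) nil (node (nat_lit 5) (nat_lit 120068) (nat_lit 11) nil nil)) nil)
  (node (nat_lit 0) (nat_lit 118645) (nat_lit 9) nil nil)))) nil) (node (nat_lit 4) (nat_lit 0)
  (nat_lit 7) (node (nat_lit 0) (nat_lit 0) (nat_lit 8) (node (nat_lit 5) (nat_lit 91549) (nat_lit
  9) (node (nat_lit 4) (nat_lit 99165) (nat_lit 10) (node (nat_lit 5) (nat_lit 103337) (nat_lit
  11) (node (nat_lit 6) (nat_lit 103518) (nat_lit 12) nil (node (nat_lit 11) (nat_lit 106546)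
  (nat_lit 12) nil (node (nat_lit 0) (nat_lit 105662) (nat_lit 12) nil nil))) (node (nat_lit 6)
  (nat_lit 104954) (nat_lit 11) (node (nat_lit 5) (nat_lit 107911) (nat_lit 12) nil (node (nat_lit
  4) (nat_lit 106573) (nat_lit 12) nil nil)) (node (nat_lit 0) (nat_lit 103771) (nat_lit 11) nil
  nil))) (node (nat_lit 6) (nat_lit 98729) (nat_lit 10) nil nil)) (node (nat_lit 4) (nat_lit
  92075) (nat_lit 9) (node (nat_lit 5) (nat_lit 99341) (nat_lit 10) (node (nat_lit 11) (nat_lit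
  103946) (nat_lit 11) (node (nat_lit 5) (nat_lit 103946) (nat_lit 12) nil nil) nil) nil) (node
  (nat_lit 6) (nat_lit 95037) (nat_lit 9) (node (nat_lit 4) (nat_lit 102341) (nat_lit 10) (node
  (nat_lit 6) (nat_lit 101065) (nat_lit 11) nil (node (nat_lit 5) (nat_lit 103725) (nat_lit 11)
  nil nil)) nil) (node (nat_lit 0) (nat_lit 93183) (nat_lit 9) nil nil)))) (node (nat_lit 6)
  (nat_lit 0) (nat_lit 8) (node (nat_lit 4) (nat_lit 0) (nat_lit 9) (node (nat_lit 5) (nat_lit 0)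
  (nat_lit 10) (node (nat_lit 0) (nat_lit 91090) (nat_lit 11) nil (node (nat_lit 4) (nat_lit
  87467) (nat_lit 11) nil nil)) (node (nat_lit 0) (nat_lit 94487) (nat_lit 10) nil nil)) (node
  (nat_lit 0) (nat_lit 91727) (nat_lit 9) nil nil)) nil)) nil))) nil)) t388) (node (nat_lit 5)
  (nat_lit 0) (nat_lit 4) (node (nat_lit 4) (nat_lit 0) (nat_lit 5) t389 (node (nat_lit 0)
  (nat_lit 0) (nat_lit 5) (node (nat_lit 4) (nat_lit 0) (nat_lit 6) (node (nat_lit 6) (nat_lit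
  93914) (nat_lit 7) (node (nat_lit 5) (nat_lit 103820) (nat_lit 8) (node (nat_lit 4) (nat_lit
  99167) (nat_lit 9) (node (nat_lit 5) (nat_lit 81840) (nat_lit 10) (node (nat_lit 6) (nat_lit
  68336) (nat_lit 11) (node (nat_lit 5) (nat_lit 68996) (nat_lit 12) nil nil) nil) (node (nat_lit
  6) (nat_lit 96594) (nat_lit 10) (node (nat_lit 4) (nat_lit 97162) (nat_lit 11) nil nil) nil))
  (node (nat_lit 6) (nat_lit 108938) (nat_lit 9) (node (nat_lit 4) (nat_lit 109346) (nat_lit 10)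
  (node (nat_lit 5) (nat_lit 103230) (nat_lit 11) (node (nat_lit 6) (nat_lit 74759) (nat_lit 12)
  (node (nat_lit 5) (nat_lit 70215) (nat_lit 13) nil nil) nil) nil) nil) nil)) (node (nat_lit 4)
  (nat_lit 103177) (nat_lit 8) (node (nat_lit 5) (nat_lit 106184) (nat_lit 9) nil nil) (node
  (nat_lit 8) (nat_lit 104335) (nat_lit 8) nil nil))) (node (nat_lit 8) (nat_lit 0) (nat_lit 7)
  (node (nat_lit 5) (nat_lit 104054) (nat_lit 8) (node (nat_lit 6) (nat_lit 109911) (nat_lit 9)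
  (node (nat_lit 4) (nat_lit 111733) (nat_lit 10) nil (node (nat_lit 5) (nat_lit 106119) (nat_lit
  10) (node (nat_lit 4) (nat_lit 103375) (nat_lit 11) nil nil) nil)) (node (nat_lit 4) (nat_lit
  110555) (nat_lit 9) (node (nat_lit 6) (nat_lit 101794) (nat_lit 10) nil (node (nat_lit 5)
  (nat_lit 112377) (nat_lit 10) nil nil)) nil)) (node (nat_lit 6) (nat_lit 104080) (nat_lit 8)
  (node (nat_lit 5) (nat_lit 106678) (nat_lit 9) (node (nat_lit 6) (nat_lit 103464) (nat_lit 10)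
  (node (nat_lit 4) (nat_lit 104033) (nat_lit 11) nil nil) nil) (node (nat_lit 4) (nat_lit 107086)
  (nat_lit 9) nil nil)) (node (nat_lit 0) (nat_lit 100934) (nat_lit 8) nil nil))) (node (nat_lit
  5) (nat_lit 93769) (nat_lit 7) (node (nat_lit 6) (nat_lit 103860) (nat_lit 8) (node (nat_lit 5)
  (nat_lit 106790) (nat_lit 9) (node (nat_lit 4) (nat_lit 110102) (nat_lit 10) (node (nat_lit 5)
  (nat_lit 91329) (nat_lit 11) nil nil) nil) (node (nat_lit 4) (nat_lit 106867) (nat_lit 9) nil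
  nil)) (node (nat_lit 4) (nat_lit 104133) (nat_lit 8) (node (nat_lit 6) (nat_lit 107205) (nat_lit
  9) (node (nat_lit 4) (nat_lit 99596) (nat_lit 10) (node (nat_lit 5) (nat_lit 93065) (nat_lit 11)
  nil nil) nil) nil) (node (nat_lit 8) (nat_lit 106037) (nat_lit 8) nil nil))) (node (nat_lit 0)
  (nat_lit 96420) (nat_lit 7) nil nil)))) (node (nat_lit 6) (nat_lit 0) (nat_lit 6) (node (nat_lit
  8) (nat_lit 0) (nat_lit 7) (node (nat_lit 5) (nat_lit 89748) (nat_lit 8) (node (nat_lit 4)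
  (nat_lit 105614) (nat_lit 9) (node (nat_lit 6) (nat_lit 104920) (nat_lit 10) (node (nat_lit 4)
  (nat_lit 103987) (nat_lit 11) (node (nat_lit 5) (nat_lit 101807) (nat_lit 12) nil nil) nil) nil)
  (node (nat_lit 6) (nat_lit 100828) (nat_lit 9) (node (nat_lit 5) (nat_lit 105217) (nat_lit 10)
  (node (nat_lit 4) (nat_lit 102473) (nat_lit 11) nil nil) (node (nat_lit 4) (nat_lit 102169)
  (nat_lit 10) nil nil)) nil)) (node (nat_lit 4) (nat_lit 103333) (nat_lit 8) (node (nat_lit 5)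
  (nat_lit 106340) (nat_lit 9) nil (node (nat_lit 6) (nat_lit 109191) (nat_lit 9) (node (nat_lit
  5) (nat_lit 101942) (nat_lit 10) nil nil) nil)) (node (nat_lit 0) (nat_lit 91917) (nat_lit 8)
  nil nil))) (node (nat_lit 5) (nat_lit 79648) (nat_lit 7) (node (nat_lit 4) (nat_lit 100906)
  (nat_lit 8) (node (nat_lit 6) (nat_lit 103584) (nat_lit 9) (node (nat_lit 4) (nat_lit 103919)
  (nat_lit 10) (node (nat_lit 5) (nat_lit 99098) (nat_lit 11) (node (nat_lit 6) (nat_lit 86743)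
  (nat_lit 12) nil nil) nil) (node (nat_lit 5) (nat_lit 101949) (nat_lit 10) nil nil)) (node
  (nat_lit 5) (nat_lit 103913) (nat_lit 9) nil nil)) (node (nat_lit 6) (nat_lit 89763) (nat_lit 8)
  (node (nat_lit 4) (nat_lit 94548) (nat_lit 9) (node (nat_lit 5) (nat_lit 93607) (nat_lit 10)
  (node (nat_lit 6) (nat_lit 67738) (nat_lit 11) (node (nat_lit 5) (nat_lit 67119) (nat_lit 12)
  nil nil) nil) nil) nil) nil)) (node (nat_lit 4) (nat_lit 92111) (nat_lit 7) (node (nat_lit 5)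
  (nat_lit 102202) (nat_lit 8) (node (nat_lit 6) (nat_lit 108059) (nat_lit 9) (node (nat_lit 5)
  (nat_lit 109980) (nat_lit 10) (node (nat_lit 4) (nat_lit 101951) (nat_lit 11) nil nil) nil)
  (node (nat_lit 4) (nat_lit 104665) (nat_lit 9) (node (nat_lit 6) (nat_lit 95878) (nat_lit 10)
  nil nil) nil)) (node (nat_lit 6) (nat_lit 101955) (nat_lit 8) (node (nat_lit 5) (nat_lit 101183)
  (nat_lit 9) (node (nat_lit 4) (nat_lit 97185) (nat_lit 10) nil nil) nil) (node (nat_lit 8)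
  (nat_lit 104380) (nat_lit 8) nil nil))) (node (nat_lit 0) (nat_lit 94941) (nat_lit 7) nil
  nil)))) (node (nat_lit 5) (nat_lit 60790) (nat_lit 6) (node (nat_lit 4) (nat_lit 93595) (nat_lit
  7) (node (nat_lit 6) (nat_lit 100345) (nat_lit 8) (node (nat_lit 5) (nat_lit 104080) (nat_lit 9)
  (node (nat_lit 6) (nat_lit 105513) (nat_lit 10) (node (nat_lit 4) (nat_lit 105574) (nat_lit 11)
  (node (nat_lit 5) (nat_lit 102501) (nat_lit 12) (node (nat_lit 6) (nat_lit 96940) (nat_lit 13)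
  nil nil) nil) nil) (node (nat_lit 4) (nat_lit 98084) (nat_lit 10) (node (nat_lit 5) (nat_lit
  80274) (nat_lit 11) (node (nat_lit 6) (nat_lit 72588) (nat_lit 12) nil nil) nil) nil)) (node
  (nat_lit 4) (nat_lit 101641) (nat_lit 9) (node (nat_lit 5) (nat_lit 86567) (nat_lit 10) (node
  (nat_lit 6) (nat_lit 80658) (nat_lit 11) (node (nat_lit 5) (nat_lit 56192) (nat_lit 12) (node
  (nat_lit 8) (nat_lit 54031) (nat_lit 13) nil nil) nil) nil) nil) nil)) (node (nat_lit 5)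
  (nat_lit 103687) (nat_lit 8) (node (nat_lit 6) (nat_lit 104405) (nat_lit 9) nil nil) (node
  (nat_lit 8) (nat_lit 100682) (nat_lit 8) nil nil))) (node (nat_lit 6) (nat_lit 79678) (nat_lit
  7) (node (nat_lit 4) (nat_lit 103112) (nat_lit 8) (node (nat_lit 5) (nat_lit 104843) (nat_lit 9)
  (node (nat_lit 6) (nat_lit 104583) (nat_lit 10) (node (nat_lit 5) (nat_lit 103932) (nat_lit 11)
  (node (nat_lit 8) (nat_lit 69650) (nat_lit 12) nil nil) nil) nil) (node (nat_lit 6) (nat_lit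
  101083) (nat_lit 9) nil nil)) (node (nat_lit 5) (nat_lit 89770) (nat_lit 8) (node (nat_lit 4)
  (nat_lit 103749) (nat_lit 9) (node (nat_lit 5) (nat_lit 104630) (nat_lit 10) (node (nat_lit 6)
  (nat_lit 98524) (nat_lit 11) nil nil) (node (nat_lit 6) (nat_lit 99316) (nat_lit 10) nil nil))
  nil) (node (nat_lit 8) (nat_lit 92793) (nat_lit 8) (node (nat_lit 5) (nat_lit 98404) (nat_lit 9)
  nil nil) nil))) nil)) (node (nat_lit 0) (nat_lit 0) (nat_lit 6) (node (nat_lit 4) (nat_lit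
  94540) (nat_lit 7) (node (nat_lit 6) (nat_lit 104370) (nat_lit 8) (node (nat_lit 5) (nat_lit
  94964) (nat_lit 9) (node (nat_lit 4) (nat_lit 90966) (nat_lit 10) nil nil) (node (nat_lit 4)
  (nat_lit 107377) (nat_lit 9) nil nil)) (node (nat_lit 5) (nat_lit 104632) (nat_lit 8) (node
  (nat_lit 6) (nat_lit 103278) (nat_lit 9) nil (node (nat_lit 4) (nat_lit 103074) (nat_lit 9) nil
  nil)) nil)) (node (nat_lit 6) (nat_lit 93379) (nat_lit 7) (node (nat_lit 4) (nat_lit 103605)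
  (nat_lit 8) (node (nat_lit 5) (nat_lit 106612) (nat_lit 9) nil (node (nat_lit 6) (nat_lit
  102251) (nat_lit 9) nil nil)) (node (nat_lit 5) (nat_lit 103130) (nat_lit 8) (node (nat_lit 4)
  (nat_lit 101572) (nat_lit 9) nil (node (nat_lit 6) (nat_lit 98994) (nat_lit 9) nil nil)) nil))
  (node (nat_lit 5) (nat_lit 93390) (nat_lit 7) (node (nat_lit 6) (nat_lit 103482) (nat_lit 8)
  (node (nat_lit 4) (nat_lit 106489) (nat_lit 9) nil (node (nat_lit 5) (nat_lit 98641) (nat_lit 9)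
  nil nil)) (node (nat_lit 4) (nat_lit 104055) (nat_lit 8) (node (nat_lit 6) (nat_lit 92726)
  (nat_lit 9) nil (node (nat_lit 5) (nat_lit 107062) (nat_lit 9) nil nil)) nil)) (node (nat_lit 8)
  (nat_lit 96297) (nat_lit 7) (node (nat_lit 0) (nat_lit 99304) (nat_lit 8) nil (node (nat_lit 6)
  (nat_lit 96297) (nat_lit 8) nil (node (nat_lit 4) (nat_lit 96297) (nat_lit 8) nil nil))) (node
  (nat_lit 0) (nat_lit 96297) (nat_lit 7) (node (nat_lit 8) (nat_lit 99304) (nat_lit 8) nil nil)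
  nil))))) nil)))) nil)) nil))

noncomputable def t391 : Tr :=
  (node (nat_lit 4) (nat_lit 0) (nat_lit 5) (node (nat_lit 0) (nat_lit 0) (nat_lit 6) (node
  (nat_lit 5) (nat_lit 0) (nat_lit 7) (node (nat_lit 9) (nat_lit 0) (nat_lit 8) (node (nat_lit 4)
  (nat_lit 63405) (nat_lit 9) (node (nat_lit 5) (nat_lit 66703) (nat_lit 10) (node (nat_lit 7)
  (nat_lit 64642) (nat_lit 11) (node (nat_lit 4) (nat_lit 64459) (nat_lit 12) nil nil) (node
  (nat_lit 4) (nat_lit 68029) (nat_lit 11) nil nil)) (node (nat_lit 7) (nat_lit 66703) (nat_lit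
  10) nil nil)) (node (nat_lit 7) (nat_lit 64224) (nat_lit 9) (node (nat_lit 5) (nat_lit 67038)
  (nat_lit 10) (node (nat_lit 7) (nat_lit 64978) (nat_lit 11) (node (nat_lit 4) (nat_lit 64326)
  (nat_lit 12) (node (nat_lit 5) (nat_lit 63360) (nat_lit 13) nil nil) nil) (node (nat_lit 4)
  (nat_lit 66542) (nat_lit 11) nil nil)) (node (nat_lit 4) (nat_lit 66073) (nat_lit 10) nil nil))
  (node (nat_lit 0) (nat_lit 63633) (nat_lit 9) nil nil))) (node (nat_lit 4) (nat_lit 58828)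
  (nat_lit 8) (node (nat_lit 5) (nat_lit 63834) (nat_lit 9) (node (nat_lit 7) (nat_lit 68461)
  (nat_lit 10) (node (nat_lit 5) (nat_lit 69188) (nat_lit 11) nil (node (nat_lit 4) (nat_lit
  69897) (nat_lit 11) nil nil)) nil) (node (nat_lit 7) (nat_lit 63834) (nat_lit 9) (node (nat_lit
  4) (nat_lit 66343) (nat_lit 10) (node (nat_lit 5) (nat_lit 67669) (nat_lit 11) (node (nat_lit 4)
  (nat_lit 68795) (nat_lit 12) (node (nat_lit 7) (nat_lit 68667) (nat_lit 13) nil nil) nil) nil)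
  (node (nat_lit 5) (nat_lit 63886) (nat_lit 10) nil nil)) (node (nat_lit 9) (nat_lit 64812)
  (nat_lit 9) (node (nat_lit 4) (nat_lit 64812) (nat_lit 10) nil nil) nil))) (node (nat_lit 7)
  (nat_lit 60635) (nat_lit 8) (node (nat_lit 4) (nat_lit 65643) (nat_lit 9) (node (nat_lit 5)
  (nat_lit 67491) (nat_lit 10) nil (node (nat_lit 7) (nat_lit 67491) (nat_lit 10) nil nil)) (node
  (nat_lit 5) (nat_lit 64019) (nat_lit 9) (node (nat_lit 4) (nat_lit 66951) (nat_lit 10) (node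
  (nat_lit 7) (nat_lit 66455) (nat_lit 11) nil nil) nil) (node (nat_lit 9) (nat_lit 65870)
  (nat_lit 9) nil nil))) (node (nat_lit 0) (nat_lit 61929) (nat_lit 8) nil nil)))) (node (nat_lit
  7) (nat_lit 0) (nat_lit 7) (node (nat_lit 9) (nat_lit 0) (nat_lit 8) (node (nat_lit 4) (nat_lit
  64611) (nat_lit 9) (node (nat_lit 7) (nat_lit 65736) (nat_lit 10) (node (nat_lit 4) (nat_lit
  66463) (nat_lit 11) nil nil) (node (nat_lit 5) (nat_lit 67908) (nat_lit 10) (node (nat_lit 7)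
  (nat_lit 64873) (nat_lit 11) nil nil) nil)) (node (nat_lit 5) (nat_lit 64509) (nat_lit 9) (node
  (nat_lit 7) (nat_lit 67018) (nat_lit 10) (node (nat_lit 4) (nat_lit 67744) (nat_lit 11) nil nil)
  (node (nat_lit 4) (nat_lit 62798) (nat_lit 10) nil nil)) (node (nat_lit 0) (nat_lit 64839)
  (nat_lit 9) nil nil))) (node (nat_lit 5) (nat_lit 58841) (nat_lit 8) (node (nat_lit 7) (nat_lit
  62173) (nat_lit 9) (node (nat_lit 4) (nat_lit 62571) (nat_lit 10) (node (nat_lit 5) (nat_lit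
  56990) (nat_lit 11) (node (nat_lit 4) (nat_lit 33265) (nat_lit 12) nil nil) nil) nil) (node
  (nat_lit 4) (nat_lit 63266) (nat_lit 9) (node (nat_lit 7) (nat_lit 66563) (nat_lit 10) nil (node
  (nat_lit 5) (nat_lit 62215) (nat_lit 10) nil nil)) (node (nat_lit 9) (nat_lit 64076) (nat_lit 9)
  nil nil))) (node (nat_lit 4) (nat_lit 59605) (nat_lit 8) (node (nat_lit 5) (nat_lit 63739)
  (nat_lit 9) (node (nat_lit 7) (nat_lit 65588) (nat_lit 10) nil (node (nat_lit 4) (nat_lit 62028)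
  (nat_lit 10) nil nil)) (node (nat_lit 7) (nat_lit 64611) (nat_lit 9) (node (nat_lit 5) (nat_lit
  66608) (nat_lit 10) (node (nat_lit 7) (nat_lit 63572) (nat_lit 11) nil nil) nil) nil)) (node
  (nat_lit 0) (nat_lit 61718) (nat_lit 8) nil nil)))) (node (nat_lit 0) (nat_lit 0) (nat_lit 7)
  (node (nat_lit 9) (nat_lit 0) (nat_lit 8) (node (nat_lit 4) (nat_lit 63244) (nat_lit 9) (node
  (nat_lit 10) (nat_lit 65819) (nat_lit 10) nil nil) (node (nat_lit 5) (nat_lit 64839) (nat_lit 9)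
  nil (node (nat_lit 7) (nat_lit 63244) (nat_lit 9) nil (node (nat_lit 0) (nat_lit 65940) (nat_lit
  9) nil nil)))) (node (nat_lit 4) (nat_lit 0) (nat_lit 8) (node (nat_lit 10) (nat_lit 66688)
  (nat_lit 9) nil (node (nat_lit 7) (nat_lit 65220) (nat_lit 9) nil (node (nat_lit 5) (nat_lit
  61155) (nat_lit 9) nil (node (nat_lit 0) (nat_lit 65940) (nat_lit 9) nil (node (nat_lit 9)
  (nat_lit 65940) (nat_lit 9) nil nil))))) (node (nat_lit 7) (nat_lit 60705) (nat_lit 8) (node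
  (nat_lit 4) (nat_lit 64091) (nat_lit 9) nil nil) (node (nat_lit 5) (nat_lit 60705) (nat_lit 8)
  (node (nat_lit 4) (nat_lit 59140) (nat_lit 9) nil nil) (node (nat_lit 0) (nat_lit 63104)
  (nat_lit 8) nil nil))))) (node (nat_lit 4) (nat_lit 0) (nat_lit 7) (node (nat_lit 5) (nat_lit
  59378) (nat_lit 8) (node (nat_lit 7) (nat_lit 64936) (nat_lit 9) (node (nat_lit 4) (nat_lit
  63644) (nat_lit 10) (node (nat_lit 5) (nat_lit 46860) (nat_lit 11) nil nil) (node (nat_lit 5)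
  (nat_lit 66785) (nat_lit 10) nil nil)) (node (nat_lit 4) (nat_lit 64064) (nat_lit 9) (node
  (nat_lit 7) (nat_lit 64300) (nat_lit 10) (node (nat_lit 4) (nat_lit 65627) (nat_lit 11) nil nil)
  nil) nil)) (node (nat_lit 7) (nat_lit 60635) (nat_lit 8) (node (nat_lit 5) (nat_lit 65643)
  (nat_lit 9) (node (nat_lit 7) (nat_lit 68940) (nat_lit 10) nil (node (nat_lit 4) (nat_lit 63932)
  (nat_lit 10) nil nil)) (node (nat_lit 4) (nat_lit 64771) (nat_lit 9) (node (nat_lit 5) (nat_lit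
  66619) (nat_lit 10) nil nil) nil)) (node (nat_lit 0) (nat_lit 62917) (nat_lit 8) (node (nat_lit
  4) (nat_lit 62917) (nat_lit 9) nil nil) nil))) nil)))) (node (nat_lit 5) (nat_lit 0) (nat_lit 6)
  (node (nat_lit 0) (nat_lit 0) (nat_lit 7) (node (nat_lit 5) (nat_lit 0) (nat_lit 8) (node
  (nat_lit 7) (nat_lit 62926) (nat_lit 9) (node (nat_lit 4) (nat_lit 66834) (nat_lit 10) (node
  (nat_lit 7) (nat_lit 67561) (nat_lit 11) nil nil) (node (nat_lit 5) (nat_lit 65434) (nat_lit 10)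
  nil (node (nat_lit 10) (nat_lit 66161) (nat_lit 10) nil (node (nat_lit 0) (nat_lit 65501)
  (nat_lit 10) nil nil)))) (node (nat_lit 4) (nat_lit 61678) (nat_lit 9) (node (nat_lit 7)
  (nat_lit 65587) (nat_lit 10) (node (nat_lit 4) (nat_lit 66913) (nat_lit 11) (node (nat_lit 5)
  (nat_lit 68039) (nat_lit 12) nil nil) (node (nat_lit 5) (nat_lit 63446) (nat_lit 11) nil nil))
  (node (nat_lit 5) (nat_lit 65587) (nat_lit 10) (node (nat_lit 10) (nat_lit 66954) (nat_lit 11)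
  nil (node (nat_lit 7) (nat_lit 62552) (nat_lit 11) nil nil)) (node (nat_lit 10) (nat_lit 63543)
  (nat_lit 10) nil (node (nat_lit 0) (nat_lit 64254) (nat_lit 10) nil nil)))) (node (nat_lit 0)
  (nat_lit 61367) (nat_lit 9) (node (nat_lit 5) (nat_lit 62026) (nat_lit 10) nil (node (nat_lit
  10) (nat_lit 62093) (nat_lit 10) nil (node (nat_lit 7) (nat_lit 61367) (nat_lit 10) nil (node
  (nat_lit 4) (nat_lit 61367) (nat_lit 10) nil nil)))) nil))) (node (nat_lit 4) (nat_lit 0)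
  (nat_lit 8) (node (nat_lit 7) (nat_lit 62557) (nat_lit 9) (node (nat_lit 5) (nat_lit 64964)
  (nat_lit 10) (node (nat_lit 7) (nat_lit 61929) (nat_lit 11) nil nil) (node (nat_lit 4) (nat_lit
  65065) (nat_lit 10) nil nil)) (node (nat_lit 5) (nat_lit 61567) (nat_lit 9) (node (nat_lit 4)
  (nat_lit 65476) (nat_lit 10) nil (node (nat_lit 7) (nat_lit 66834) (nat_lit 10) nil nil)) (node
  (nat_lit 10) (nat_lit 63185) (nat_lit 9) (node (nat_lit 5) (nat_lit 63845) (nat_lit 10) nil nil)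
  (node (nat_lit 0) (nat_lit 61363) (nat_lit 9) nil nil)))) (node (nat_lit 7) (nat_lit 0) (nat_lit
  8) (node (nat_lit 4) (nat_lit 61408) (nat_lit 9) (node (nat_lit 5) (nat_lit 63257) (nat_lit 10)
  nil nil) (node (nat_lit 5) (nat_lit 61379) (nat_lit 9) (node (nat_lit 7) (nat_lit 64110)
  (nat_lit 10) nil (node (nat_lit 4) (nat_lit 61615) (nat_lit 10) nil nil)) (node (nat_lit 10)
  (nat_lit 61322) (nat_lit 9) (node (nat_lit 5) (nat_lit 61322) (nat_lit 10) nil nil) (node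
  (nat_lit 0) (nat_lit 60712) (nat_lit 9) nil nil)))) (node (nat_lit 0) (nat_lit 60239) (nat_lit
  8) (node (nat_lit 5) (nat_lit 61337) (nat_lit 9) (node (nat_lit 10) (nat_lit 63912) (nat_lit 10)
  nil nil) (node (nat_lit 10) (nat_lit 62837) (nat_lit 9) (node (nat_lit 5) (nat_lit 62837)
  (nat_lit 10) nil nil) nil)) nil)))) (node (nat_lit 7) (nat_lit 0) (nat_lit 7) (node (nat_lit 0)
  (nat_lit 0) (nat_lit 8) (node (nat_lit 5) (nat_lit 60162) (nat_lit 9) (node (nat_lit 7) (nat_lit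
  65070) (nat_lit 10) (node (nat_lit 5) (nat_lit 67982) (nat_lit 11) (node (nat_lit 4) (nat_lit
  67864) (nat_lit 12) nil (node (nat_lit 11) (nat_lit 69201) (nat_lit 12) nil (node (nat_lit 0)
  (nat_lit 69201) (nat_lit 12) nil nil))) (node (nat_lit 4) (nat_lit 67982) (nat_lit 11) (node
  (nat_lit 5) (nat_lit 68622) (nat_lit 12) nil (node (nat_lit 7) (nat_lit 68622) (nat_lit 12) nil
  nil)) (node (nat_lit 0) (nat_lit 67528) (nat_lit 11) nil nil))) (node (nat_lit 4) (nat_lit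
  60698) (nat_lit 10) nil nil)) (node (nat_lit 7) (nat_lit 60364) (nat_lit 9) (node (nat_lit 5)
  (nat_lit 65010) (nat_lit 10) (node (nat_lit 11) (nat_lit 67467) (nat_lit 11) nil nil) nil) (node
  (nat_lit 4) (nat_lit 60162) (nat_lit 9) (node (nat_lit 7) (nat_lit 64391) (nat_lit 10) (node
  (nat_lit 4) (nat_lit 65117) (nat_lit 11) nil (node (nat_lit 5) (nat_lit 62249) (nat_lit 11) nil
  nil)) nil) (node (nat_lit 0) (nat_lit 60215) (nat_lit 9) nil nil)))) (node (nat_lit 4) (nat_lit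
  0) (nat_lit 8) (node (nat_lit 7) (nat_lit 0) (nat_lit 9) (node (nat_lit 5) (nat_lit 0) (nat_lit
  10) (node (nat_lit 0) (nat_lit 63612) (nat_lit 11) nil (node (nat_lit 7) (nat_lit 58891)
  (nat_lit 11) nil nil)) (node (nat_lit 0) (nat_lit 60870) (nat_lit 10) nil nil)) (node (nat_lit
  0) (nat_lit 57426) (nat_lit 9) nil nil)) nil)) nil)) nil)) (node (nat_lit 0) (nat_lit 0)
  (nat_lit 5) (node (nat_lit 5) (nat_lit 0) (nat_lit 6) (node (nat_lit 4) (nat_lit 106802)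
  (nat_lit 7) (node (nat_lit 7) (nat_lit 108165) (nat_lit 8) (node (nat_lit 4) (nat_lit 95117)
  (nat_lit 9) (node (nat_lit 5) (nat_lit 92726) (nat_lit 10) (node (nat_lit 4) (nat_lit 66666)
  (nat_lit 11) (node (nat_lit 7) (nat_lit 66374) (nat_lit 12) nil nil) (node (nat_lit 7) (nat_lit
  93449) (nat_lit 11) nil nil)) nil) (node (nat_lit 5) (nat_lit 108165) (nat_lit 9) (node (nat_lit
  7) (nat_lit 108165) (nat_lit 10) (node (nat_lit 4) (nat_lit 108165) (nat_lit 11) (node (nat_lit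
  5) (nat_lit 105033) (nat_lit 12) nil nil) nil) nil) nil)) (node (nat_lit 5) (nat_lit 106174)
  (nat_lit 8) (node (nat_lit 7) (nat_lit 107204) (nat_lit 9) (node (nat_lit 4) (nat_lit 104158)
  (nat_lit 10) nil nil) nil) (node (nat_lit 8) (nat_lit 108165) (nat_lit 8) nil nil))) (node
  (nat_lit 8) (nat_lit 0) (nat_lit 7) (node (nat_lit 7) (nat_lit 108165) (nat_lit 8) (node
  (nat_lit 4) (nat_lit 108165) (nat_lit 9) nil (node (nat_lit 5) (nat_lit 108165) (nat_lit 9)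
  (node (nat_lit 7) (nat_lit 106923) (nat_lit 10) nil (node (nat_lit 4) (nat_lit 107331) (nat_lit
  10) nil nil)) nil)) (node (nat_lit 4) (nat_lit 108165) (nat_lit 8) (node (nat_lit 5) (nat_lit
  107819) (nat_lit 9) (node (nat_lit 7) (nat_lit 108165) (nat_lit 10) nil nil) (node (nat_lit 7)
  (nat_lit 108165) (nat_lit 9) nil nil)) (node (nat_lit 0) (nat_lit 108165) (nat_lit 8) nil nil)))
  (node (nat_lit 7) (nat_lit 105396) (nat_lit 7) (node (nat_lit 4) (nat_lit 108165) (nat_lit 8)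
  (node (nat_lit 7) (nat_lit 108165) (nat_lit 9) (node (nat_lit 5) (nat_lit 108165) (nat_lit 10)
  nil nil) (node (nat_lit 5) (nat_lit 108165) (nat_lit 9) nil nil)) (node (nat_lit 5) (nat_lit
  107560) (nat_lit 8) (node (nat_lit 4) (nat_lit 106327) (nat_lit 9) nil nil) (node (nat_lit 8)
  (nat_lit 108165) (nat_lit 8) nil nil))) (node (nat_lit 0) (nat_lit 107528) (nat_lit 7) nil
  nil)))) (node (nat_lit 4) (nat_lit 0) (nat_lit 6) (node (nat_lit 5) (nat_lit 105884) (nat_lit 7)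
  (node (nat_lit 7) (nat_lit 108165) (nat_lit 8) (node (nat_lit 4) (nat_lit 108165) (nat_lit 9)
  (node (nat_lit 7) (nat_lit 108165) (nat_lit 10) nil (node (nat_lit 5) (nat_lit 86502) (nat_lit
  10) (node (nat_lit 4) (nat_lit 64247) (nat_lit 11) (node (nat_lit 7) (nat_lit 46692) (nat_lit
  12) nil nil) nil) nil)) (node (nat_lit 5) (nat_lit 108165) (nat_lit 9) nil nil)) (node (nat_lit
  4) (nat_lit 108165) (nat_lit 8) (node (nat_lit 7) (nat_lit 106696) (nat_lit 9) (node (nat_lit 4)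
  (nat_lit 98744) (nat_lit 10) nil nil) nil) (node (nat_lit 8) (nat_lit 108165) (nat_lit 8) nil
  nil))) (node (nat_lit 7) (nat_lit 107415) (nat_lit 7) (node (nat_lit 5) (nat_lit 108162)
  (nat_lit 8) (node (nat_lit 7) (nat_lit 108165) (nat_lit 9) (node (nat_lit 4) (nat_lit 106147)
  (nat_lit 10) (node (nat_lit 5) (nat_lit 100101) (nat_lit 11) (node (nat_lit 4) (nat_lit 82085)
  (nat_lit 12) (node (nat_lit 7) (nat_lit 67402) (nat_lit 13) nil nil) nil) nil) nil) (node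
  (nat_lit 4) (nat_lit 106928) (nat_lit 9) (node (nat_lit 5) (nat_lit 108165) (nat_lit 10) nil
  (node (nat_lit 7) (nat_lit 108002) (nat_lit 10) (node (nat_lit 4) (nat_lit 106432) (nat_lit 11)
  nil nil) nil)) nil)) (node (nat_lit 4) (nat_lit 108165) (nat_lit 8) (node (nat_lit 5) (nat_lit
  108165) (nat_lit 9) nil nil) nil)) (node (nat_lit 8) (nat_lit 108165) (nat_lit 7) (node (nat_lit
  5) (nat_lit 108165) (nat_lit 8) (node (nat_lit 7) (nat_lit 108165) (nat_lit 9) nil (node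
  (nat_lit 4) (nat_lit 108165) (nat_lit 9) (node (nat_lit 7) (nat_lit 107616) (nat_lit 10) nil
  nil) nil)) (node (nat_lit 7) (nat_lit 108165) (nat_lit 8) (node (nat_lit 5) (nat_lit 108165)
  (nat_lit 9) (node (nat_lit 7) (nat_lit 108165) (nat_lit 10) (node (nat_lit 4) (nat_lit 108165)
  (nat_lit 11) nil nil) nil) (node (nat_lit 4) (nat_lit 108165) (nat_lit 9) (node (nat_lit 5)
  (nat_lit 108165) (nat_lit 10) nil nil) nil)) nil)) (node (nat_lit 0) (nat_lit 108165) (nat_lit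
  7) nil nil)))) (node (nat_lit 7) (nat_lit 0) (nat_lit 6) (node (nat_lit 5) (nat_lit 106451)
  (nat_lit 7) (node (nat_lit 4) (nat_lit 108165) (nat_lit 8) (node (nat_lit 5) (nat_lit 108165)
  (nat_lit 9) (node (nat_lit 7) (nat_lit 108165) (nat_lit 10) (node (nat_lit 4) (nat_lit 108165)
  (nat_lit 11) (node (nat_lit 5) (nat_lit 105665) (nat_lit 12) nil nil) nil) nil) (node (nat_lit
  7) (nat_lit 108165) (nat_lit 9) (node (nat_lit 4) (nat_lit 106211) (nat_lit 10) (node (nat_lit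
  5) (nat_lit 101799) (nat_lit 11) nil nil) nil) nil)) (node (nat_lit 7) (nat_lit 108165) (nat_lit
  8) (node (nat_lit 4) (nat_lit 108165) (nat_lit 9) (node (nat_lit 5) (nat_lit 98907) (nat_lit 10)
  (node (nat_lit 4) (nat_lit 63040) (nat_lit 11) (node (nat_lit 7) (nat_lit 47659) (nat_lit 12)
  nil nil) nil) nil) nil) nil)) (node (nat_lit 4) (nat_lit 108094) (nat_lit 7) (node (nat_lit 5)
  (nat_lit 108165) (nat_lit 8) (node (nat_lit 7) (nat_lit 108165) (nat_lit 9) nil (node (nat_lit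
  4) (nat_lit 108165) (nat_lit 9) (node (nat_lit 7) (nat_lit 108110) (nat_lit 10) nil nil) nil))
  (node (nat_lit 7) (nat_lit 108165) (nat_lit 8) nil (node (nat_lit 8) (nat_lit 108165) (nat_lit
  8) nil nil))) (node (nat_lit 0) (nat_lit 101279) (nat_lit 7) nil nil))) (node (nat_lit 0)
  (nat_lit 0) (nat_lit 6) (node (nat_lit 7) (nat_lit 107406) (nat_lit 7) (node (nat_lit 5)
  (nat_lit 108165) (nat_lit 8) (node (nat_lit 4) (nat_lit 105565) (nat_lit 9) nil (node (nat_lit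
  7) (nat_lit 106128) (nat_lit 9) nil nil)) (node (nat_lit 4) (nat_lit 108165) (nat_lit 8) (node
  (nat_lit 5) (nat_lit 108165) (nat_lit 9) nil (node (nat_lit 7) (nat_lit 108165) (nat_lit 9) nil
  nil)) nil)) (node (nat_lit 5) (nat_lit 105399) (nat_lit 7) (node (nat_lit 4) (nat_lit 107702)
  (nat_lit 8) (node (nat_lit 7) (nat_lit 101605) (nat_lit 9) nil (node (nat_lit 5) (nat_lit
  104567) (nat_lit 9) nil nil)) (node (nat_lit 7) (nat_lit 108165) (nat_lit 8) (node (nat_lit 4)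
  (nat_lit 108165) (nat_lit 9) nil (node (nat_lit 5) (nat_lit 108165) (nat_lit 9) nil nil)) nil))
  (node (nat_lit 4) (nat_lit 105483) (nat_lit 7) (node (nat_lit 5) (nat_lit 107476) (nat_lit 8)
  (node (nat_lit 7) (nat_lit 105473) (nat_lit 9) (node (nat_lit 4) (nat_lit 102427) (nat_lit 10)
  nil nil) (node (nat_lit 4) (nat_lit 104342) (nat_lit 9) nil nil)) (node (nat_lit 7) (nat_lit
  108165) (nat_lit 8) (node (nat_lit 5) (nat_lit 105939) (nat_lit 9) nil (node (nat_lit 4)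
  (nat_lit 108165) (nat_lit 9) nil nil)) nil)) (node (nat_lit 8) (nat_lit 108165) (nat_lit 7) nil
  (node (nat_lit 0) (nat_lit 108165) (nat_lit 7) nil nil))))) nil)))) nil))

noncomputable def c44 : Tr :=
  (node (nat_lit 3) (nat_lit 0) (nat_lit 1) (node (nat_lit 3) (nat_lit 0) (nat_lit 2) (node
  (nat_lit 3) (nat_lit 0) (nat_lit 3) t390 (node (nat_lit 4) (nat_lit 0) (nat_lit 3) (node
  (nat_lit 3) (nat_lit 0) (nat_lit 4) (node (nat_lit 5) (nat_lit 0) (nat_lit 5) (node (nat_lit 0)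
  (nat_lit 0) (nat_lit 6) (node (nat_lit 4) (nat_lit 0) (nat_lit 7) (node (nat_lit 9) (nat_lit 0)
  (nat_lit 8) (node (nat_lit 5) (nat_lit 108165) (nat_lit 9) (node (nat_lit 4) (nat_lit 108165)
  (nat_lit 10) (node (nat_lit 5) (nat_lit 108165) (nat_lit 11) (node (nat_lit 7) (nat_lit 108165)
  (nat_lit 12) (node (nat_lit 4) (nat_lit 108165) (nat_lit 13) (node (nat_lit 5) (nat_lit 108165)
  (nat_lit 14) (node (nat_lit 4) (nat_lit 108165) (nat_lit 15) (node (nat_lit 7) (nat_lit 106865)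
  (nat_lit 16) nil nil) nil) nil) nil) nil) (node (nat_lit 7) (nat_lit 108165) (nat_lit 11) (node
  (nat_lit 4) (nat_lit 107943) (nat_lit 12) (node (nat_lit 5) (nat_lit 104765) (nat_lit 13) (node
  (nat_lit 4) (nat_lit 100855) (nat_lit 14) (node (nat_lit 7) (nat_lit 97507) (nat_lit 15) (node
  (nat_lit 5) (nat_lit 91087) (nat_lit 16) nil nil) nil) nil) nil) nil) nil)) (node (nat_lit 7)
  (nat_lit 108165) (nat_lit 10) nil nil)) (node (nat_lit 7) (nat_lit 108165) (nat_lit 9) (node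
  (nat_lit 4) (nat_lit 108165) (nat_lit 10) nil (node (nat_lit 5) (nat_lit 107807) (nat_lit 10)
  nil nil)) (node (nat_lit 0) (nat_lit 108165) (nat_lit 9) nil nil))) (node (nat_lit 5) (nat_lit
  106063) (nat_lit 8) (node (nat_lit 7) (nat_lit 108165) (nat_lit 9) (node (nat_lit 4) (nat_lit
  107007) (nat_lit 10) (node (nat_lit 5) (nat_lit 100549) (nat_lit 11) (node (nat_lit 4) (nat_lit
  75076) (nat_lit 12) (node (nat_lit 7) (nat_lit 56281) (nat_lit 13) (node (nat_lit 5) (nat_lit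
  48298) (nat_lit 14) nil nil) nil) nil) nil) (node (nat_lit 5) (nat_lit 108165) (nat_lit 10) nil
  nil)) (node (nat_lit 4) (nat_lit 105883) (nat_lit 9) (node (nat_lit 7) (nat_lit 105828) (nat_lit
  10) (node (nat_lit 4) (nat_lit 104494) (nat_lit 11) (node (nat_lit 5) (nat_lit 96335) (nat_lit
  12) nil nil) nil) nil) (node (nat_lit 9) (nat_lit 108165) (nat_lit 9) nil nil))) (node (nat_lit
  7) (nat_lit 105956) (nat_lit 8) (node (nat_lit 4) (nat_lit 108165) (nat_lit 9) nil (node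
  (nat_lit 5) (nat_lit 107126) (nat_lit 9) (node (nat_lit 7) (nat_lit 106986) (nat_lit 10) (node
  (nat_lit 4) (nat_lit 105652) (nat_lit 11) nil nil) (node (nat_lit 4) (nat_lit 107022) (nat_lit
  10) nil nil)) (node (nat_lit 9) (nat_lit 108165) (nat_lit 9) nil nil))) (node (nat_lit 0)
  (nat_lit 107883) (nat_lit 8) nil nil)))) (node (nat_lit 7) (nat_lit 0) (nat_lit 7) (node
  (nat_lit 5) (nat_lit 106061) (nat_lit 8) (node (nat_lit 7) (nat_lit 108165) (nat_lit 9) (node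
  (nat_lit 4) (nat_lit 108165) (nat_lit 10) (node (nat_lit 5) (nat_lit 105537) (nat_lit 11) (node
  (nat_lit 4) (nat_lit 98571) (nat_lit 12) (node (nat_lit 7) (nat_lit 85552) (nat_lit 13) (node
  (nat_lit 5) (nat_lit 49739) (nat_lit 14) nil nil) nil) nil) nil) nil) (node (nat_lit 4) (nat_lit
  108165) (nat_lit 9) (node (nat_lit 7) (nat_lit 105437) (nat_lit 10) nil (node (nat_lit 5)
  (nat_lit 106722) (nat_lit 10) nil nil)) nil)) (node (nat_lit 9) (nat_lit 0) (nat_lit 8) (node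
  (nat_lit 5) (nat_lit 108165) (nat_lit 9) (node (nat_lit 7) (nat_lit 108165) (nat_lit 10) nil
  (node (nat_lit 4) (nat_lit 108165) (nat_lit 10) (node (nat_lit 7) (nat_lit 108165) (nat_lit 11)
  nil nil) nil)) (node (nat_lit 4) (nat_lit 108165) (nat_lit 9) (node (nat_lit 7) (nat_lit 108165)
  (nat_lit 10) nil nil) (node (nat_lit 0) (nat_lit 108165) (nat_lit 9) nil nil))) (node (nat_lit
  4) (nat_lit 108165) (nat_lit 8) (node (nat_lit 5) (nat_lit 108165) (nat_lit 9) nil (node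
  (nat_lit 7) (nat_lit 108165) (nat_lit 9) (node (nat_lit 5) (nat_lit 108165) (nat_lit 10) nil
  nil) (node (nat_lit 9) (nat_lit 108165) (nat_lit 9) nil nil))) (node (nat_lit 0) (nat_lit
  108165) (nat_lit 8) nil nil)))) (node (nat_lit 0) (nat_lit 0) (nat_lit 7) (node (nat_lit 5)
  (nat_lit 104108) (nat_lit 8) (node (nat_lit 10) (nat_lit 108165) (nat_lit 9) nil (node (nat_lit
  4) (nat_lit 104444) (nat_lit 9) nil (node (nat_lit 7) (nat_lit 108165) (nat_lit 9) nil (node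
  (nat_lit 0) (nat_lit 108165) (nat_lit 9) nil nil)))) (node (nat_lit 9) (nat_lit 108165) (nat_lit
  8) (node (nat_lit 5) (nat_lit 108165) (nat_lit 9) nil (node (nat_lit 4) (nat_lit 108165)
  (nat_lit 9) nil (node (nat_lit 7) (nat_lit 108165) (nat_lit 9) nil nil))) (node (nat_lit 7)
  (nat_lit 108165) (nat_lit 8) (node (nat_lit 5) (nat_lit 106664) (nat_lit 9) nil nil) (node
  (nat_lit 4) (nat_lit 108165) (nat_lit 8) (node (nat_lit 5) (nat_lit 106664) (nat_lit 9) nil nil)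
  (node (nat_lit 0) (nat_lit 108165) (nat_lit 8) nil nil))))) (node (nat_lit 5) (nat_lit 0)
  (nat_lit 7) (node (nat_lit 4) (nat_lit 107544) (nat_lit 8) (node (nat_lit 7) (nat_lit 107608)
  (nat_lit 9) (node (nat_lit 4) (nat_lit 103768) (nat_lit 10) (node (nat_lit 5) (nat_lit 94522)
  (nat_lit 11) (node (nat_lit 4) (nat_lit 74048) (nat_lit 12) (node (nat_lit 7) (nat_lit 65714)
  (nat_lit 13) (node (nat_lit 5) (nat_lit 65577) (nat_lit 14) nil nil) nil) nil) nil) (node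
  (nat_lit 5) (nat_lit 108165) (nat_lit 10) nil nil)) (node (nat_lit 5) (nat_lit 108165) (nat_lit
  9) (node (nat_lit 7) (nat_lit 108165) (nat_lit 10) nil nil) nil)) (node (nat_lit 7) (nat_lit
  106910) (nat_lit 8) (node (nat_lit 4) (nat_lit 108165) (nat_lit 9) (node (nat_lit 5) (nat_lit
  108165) (nat_lit 10) nil nil) (node (nat_lit 5) (nat_lit 108165) (nat_lit 9) nil nil)) (node
  (nat_lit 0) (nat_lit 108165) (nat_lit 8) nil nil))) nil)))) (node (nat_lit 4) (nat_lit 0)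
  (nat_lit 6) (node (nat_lit 0) (nat_lit 0) (nat_lit 7) (node (nat_lit 4) (nat_lit 0) (nat_lit 8)
  (node (nat_lit 5) (nat_lit 108165) (nat_lit 9) (node (nat_lit 10) (nat_lit 108165) (nat_lit 10)
  (node (nat_lit 4) (nat_lit 108165) (nat_lit 11) (node (nat_lit 7) (nat_lit 108165) (nat_lit 12)
  nil nil) (node (nat_lit 5) (nat_lit 108165) (nat_lit 11) nil nil)) (node (nat_lit 7) (nat_lit
  108165) (nat_lit 10) (node (nat_lit 4) (nat_lit 104421) (nat_lit 11) (node (nat_lit 5) (nat_lit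
  100952) (nat_lit 12) nil nil) (node (nat_lit 5) (nat_lit 108165) (nat_lit 11) nil nil)) (node
  (nat_lit 4) (nat_lit 108165) (nat_lit 10) (node (nat_lit 10) (nat_lit 108165) (nat_lit 11) nil
  (node (nat_lit 7) (nat_lit 108165) (nat_lit 11) nil nil)) (node (nat_lit 0) (nat_lit 108165)
  (nat_lit 10) nil nil)))) (node (nat_lit 7) (nat_lit 108165) (nat_lit 9) (node (nat_lit 5)
  (nat_lit 108165) (nat_lit 10) (node (nat_lit 7) (nat_lit 108165) (nat_lit 11) nil (node (nat_lit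
  4) (nat_lit 108165) (nat_lit 11) nil nil)) (node (nat_lit 4) (nat_lit 108165) (nat_lit 10) nil
  (node (nat_lit 10) (nat_lit 108165) (nat_lit 10) nil (node (nat_lit 0) (nat_lit 108165) (nat_lit
  10) nil nil)))) (node (nat_lit 0) (nat_lit 108165) (nat_lit 9) (node (nat_lit 4) (nat_lit
  108165) (nat_lit 10) nil (node (nat_lit 10) (nat_lit 108165) (nat_lit 10) nil (node (nat_lit 5)
  (nat_lit 108165) (nat_lit 10) nil (node (nat_lit 0) (nat_lit 108165) (nat_lit 10) nil (node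
  (nat_lit 7) (nat_lit 108165) (nat_lit 10) nil nil))))) nil))) (node (nat_lit 5) (nat_lit 0)
  (nat_lit 8) (node (nat_lit 7) (nat_lit 108165) (nat_lit 9) (node (nat_lit 4) (nat_lit 108165)
  (nat_lit 10) nil (node (nat_lit 5) (nat_lit 108165) (nat_lit 10) nil nil)) (node (nat_lit 4)
  (nat_lit 108165) (nat_lit 9) (node (nat_lit 5) (nat_lit 108165) (nat_lit 10) nil (node (nat_lit
  7) (nat_lit 107561) (nat_lit 10) nil nil)) (node (nat_lit 10) (nat_lit 108165) (nat_lit 9) (node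
  (nat_lit 4) (nat_lit 108165) (nat_lit 10) nil nil) (node (nat_lit 0) (nat_lit 108165) (nat_lit
  9) nil nil)))) (node (nat_lit 7) (nat_lit 0) (nat_lit 8) (node (nat_lit 4) (nat_lit 108165)
  (nat_lit 9) (node (nat_lit 5) (nat_lit 108165) (nat_lit 10) nil (node (nat_lit 7) (nat_lit
  108165) (nat_lit 10) nil nil)) (node (nat_lit 5) (nat_lit 108165) (nat_lit 9) (node (nat_lit 4)
  (nat_lit 108165) (nat_lit 10) nil nil) (node (nat_lit 10) (nat_lit 108165) (nat_lit 9) (node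
  (nat_lit 4) (nat_lit 108165) (nat_lit 10) nil nil) (node (nat_lit 0) (nat_lit 108165) (nat_lit
  9) nil nil)))) (node (nat_lit 0) (nat_lit 108165) (nat_lit 8) (node (nat_lit 10) (nat_lit
  108165) (nat_lit 9) nil (node (nat_lit 4) (nat_lit 108165) (nat_lit 9) nil nil)) nil)))) (node
  (nat_lit 5) (nat_lit 0) (nat_lit 7) (node (nat_lit 0) (nat_lit 0) (nat_lit 8) (node (nat_lit 4)
  (nat_lit 104433) (nat_lit 9) (node (nat_lit 5) (nat_lit 106324) (nat_lit 10) (node (nat_lit 4)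
  (nat_lit 108165) (nat_lit 11) (node (nat_lit 7) (nat_lit 108165) (nat_lit 12) (node (nat_lit 5)
  (nat_lit 107267) (nat_lit 13) nil (node (nat_lit 4) (nat_lit 108165) (nat_lit 13) (node (nat_lit
  5) (nat_lit 108088) (nat_lit 14) nil nil) nil)) (node (nat_lit 11) (nat_lit 108165) (nat_lit 12)
  nil (node (nat_lit 0) (nat_lit 108165) (nat_lit 12) nil nil))) (node (nat_lit 7) (nat_lit
  108165) (nat_lit 11) (node (nat_lit 4) (nat_lit 108165) (nat_lit 12) (node (nat_lit 5) (nat_lit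
  106512) (nat_lit 13) nil nil) nil) (node (nat_lit 0) (nat_lit 107691) (nat_lit 11) nil nil)))
  (node (nat_lit 11) (nat_lit 108165) (nat_lit 10) (node (nat_lit 5) (nat_lit 108165) (nat_lit 11)
  nil nil) (node (nat_lit 7) (nat_lit 106282) (nat_lit 10) nil nil))) (node (nat_lit 5) (nat_lit
  104955) (nat_lit 9) (node (nat_lit 4) (nat_lit 105907) (nat_lit 10) (node (nat_lit 11) (nat_lit
  108165) (nat_lit 11) (node (nat_lit 4) (nat_lit 108165) (nat_lit 12) (node (nat_lit 5) (nat_lit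
  107936) (nat_lit 13) nil nil) nil) nil) nil) (node (nat_lit 7) (nat_lit 104433) (nat_lit 9)
  (node (nat_lit 5) (nat_lit 106324) (nat_lit 10) (node (nat_lit 7) (nat_lit 108165) (nat_lit 11)
  nil (node (nat_lit 4) (nat_lit 104183) (nat_lit 11) nil nil)) (node (nat_lit 4) (nat_lit 106282)
  (nat_lit 10) nil nil)) (node (nat_lit 0) (nat_lit 108165) (nat_lit 9) nil nil)))) nil) nil))
  (node (nat_lit 7) (nat_lit 0) (nat_lit 6) (node (nat_lit 0) (nat_lit 0) (nat_lit 7) (node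
  (nat_lit 7) (nat_lit 0) (nat_lit 8) (node (nat_lit 5) (nat_lit 106920) (nat_lit 9) (node
  (nat_lit 4) (nat_lit 106816) (nat_lit 10) (node (nat_lit 7) (nat_lit 106025) (nat_lit 11) nil
  (node (nat_lit 5) (nat_lit 108054) (nat_lit 11) nil nil)) (node (nat_lit 10) (nat_lit 108165)
  (nat_lit 10) nil (node (nat_lit 7) (nat_lit 108165) (nat_lit 10) (node (nat_lit 4) (nat_lit
  107079) (nat_lit 11) nil nil) nil))) (node (nat_lit 4) (nat_lit 108165) (nat_lit 9) (node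
  (nat_lit 5) (nat_lit 108165) (nat_lit 10) nil (node (nat_lit 7) (nat_lit 108165) (nat_lit 10)
  nil (node (nat_lit 10) (nat_lit 108165) (nat_lit 10) nil nil))) (node (nat_lit 0) (nat_lit
  108165) (nat_lit 9) nil nil))) (node (nat_lit 5) (nat_lit 0) (nat_lit 8) (node (nat_lit 4)
  (nat_lit 108165) (nat_lit 9) (node (nat_lit 7) (nat_lit 108165) (nat_lit 10) (node (nat_lit 4)
  (nat_lit 102509) (nat_lit 11) (node (nat_lit 5) (nat_lit 99181) (nat_lit 12) nil nil) (node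
  (nat_lit 5) (nat_lit 107503) (nat_lit 11) nil nil)) (node (nat_lit 5) (nat_lit 108165) (nat_lit
  10) nil nil)) (node (nat_lit 7) (nat_lit 108165) (nat_lit 9) (node (nat_lit 5) (nat_lit 108165)
  (nat_lit 10) nil (node (nat_lit 4) (nat_lit 108165) (nat_lit 10) nil nil)) (node (nat_lit 10)
  (nat_lit 108165) (nat_lit 9) nil (node (nat_lit 0) (nat_lit 108165) (nat_lit 9) nil nil))))
  (node (nat_lit 4) (nat_lit 0) (nat_lit 8) (node (nat_lit 7) (nat_lit 108165) (nat_lit 9) (node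
  (nat_lit 4) (nat_lit 108165) (nat_lit 10) nil (node (nat_lit 5) (nat_lit 107098) (nat_lit 10)
  nil nil)) (node (nat_lit 5) (nat_lit 102499) (nat_lit 9) (node (nat_lit 7) (nat_lit 104718)
  (nat_lit 10) nil nil) (node (nat_lit 10) (nat_lit 108165) (nat_lit 9) nil (node (nat_lit 0)
  (nat_lit 108165) (nat_lit 9) nil nil)))) (node (nat_lit 0) (nat_lit 107907) (nat_lit 8) (node
  (nat_lit 7) (nat_lit 106507) (nat_lit 9) nil (node (nat_lit 10) (nat_lit 108165) (nat_lit 9) nil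
  nil)) nil)))) (node (nat_lit 4) (nat_lit 0) (nat_lit 7) (node (nat_lit 0) (nat_lit 0) (nat_lit
  8) (node (nat_lit 7) (nat_lit 102025) (nat_lit 9) (node (nat_lit 4) (nat_lit 105879) (nat_lit
  10) (node (nat_lit 5) (nat_lit 108165) (nat_lit 11) (node (nat_lit 7) (nat_lit 108165) (nat_lit
  12) nil (node (nat_lit 4) (nat_lit 106729) (nat_lit 12) nil nil)) (node (nat_lit 7) (nat_lit
  108106) (nat_lit 11) (node (nat_lit 5) (nat_lit 107877) (nat_lit 12) nil nil) (node (nat_lit 0)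
  (nat_lit 107246) (nat_lit 11) nil nil))) (node (nat_lit 5) (nat_lit 100537) (nat_lit 10) nil
  nil)) (node (nat_lit 4) (nat_lit 98312) (nat_lit 9) (node (nat_lit 7) (nat_lit 102819) (nat_lit
  10) (node (nat_lit 11) (nat_lit 104185) (nat_lit 11) nil nil) nil) (node (nat_lit 5) (nat_lit
  98268) (nat_lit 9) (node (nat_lit 4) (nat_lit 101963) (nat_lit 10) (node (nat_lit 5) (nat_lit
  99821) (nat_lit 11) nil (node (nat_lit 7) (nat_lit 99497) (nat_lit 11) nil nil)) nil) (node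
  (nat_lit 0) (nat_lit 99823) (nat_lit 9) nil nil)))) (node (nat_lit 5) (nat_lit 0) (nat_lit 8)
  (node (nat_lit 7) (nat_lit 0) (nat_lit 9) (node (nat_lit 5) (nat_lit 0) (nat_lit 10) (node
  (nat_lit 4) (nat_lit 65984) (nat_lit 11) nil (node (nat_lit 0) (nat_lit 67576) (nat_lit 11) nil
  nil)) (node (nat_lit 0) (nat_lit 65625) (nat_lit 10) (node (nat_lit 5) (nat_lit 65625) (nat_lit
  11) nil nil) nil)) (node (nat_lit 4) (nat_lit 0) (nat_lit 9) (node (nat_lit 7) (nat_lit 0)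
  (nat_lit 10) (node (nat_lit 0) (nat_lit 14925) (nat_lit 11) nil nil) (node (nat_lit 0) (nat_lit
  42289) (nat_lit 10) nil nil)) (node (nat_lit 0) (nat_lit 59934) (nat_lit 9) (node (nat_lit 5)
  (nat_lit 59934) (nat_lit 10) nil nil) nil))) (node (nat_lit 7) (nat_lit 0) (nat_lit 8) (node
  (nat_lit 0) (nat_lit 98164) (nat_lit 9) (node (nat_lit 5) (nat_lit 98386) (nat_lit 10) nil nil)
  (node (nat_lit 5) (nat_lit 0) (nat_lit 9) (node (nat_lit 0) (nat_lit 98514) (nat_lit 10) nil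
  nil) nil)) nil))) nil)) nil))) t391) nil) nil)) nil) nil)

noncomputable def t392 : Tr :=
  (node (nat_lit 4) (nat_lit 0) (nat_lit 4) (node (nat_lit 6) (nat_lit 0) (nat_lit 5) (node
  (nat_lit 5) (nat_lit 69501) (nat_lit 6) (node (nat_lit 4) (nat_lit 73128) (nat_lit 7) (node
  (nat_lit 5) (nat_lit 76855) (nat_lit 8) (node (nat_lit 3) (nat_lit 80960) (nat_lit 9) (node
  (nat_lit 4) (nat_lit 83046) (nat_lit 10) (node (nat_lit 12) (nat_lit 84647) (nat_lit 11) (node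
  (nat_lit 5) (nat_lit 84426) (nat_lit 12) nil nil) (node (nat_lit 5) (nat_lit 83835) (nat_lit 11)
  (node (nat_lit 4) (nat_lit 83614) (nat_lit 12) (node (nat_lit 12) (nat_lit 83166) (nat_lit 13)
  nil nil) nil) nil)) (node (nat_lit 5) (nat_lit 82574) (nat_lit 10) (node (nat_lit 4) (nat_lit
  83354) (nat_lit 11) (node (nat_lit 12) (nat_lit 82460) (nat_lit 12) nil (node (nat_lit 5)
  (nat_lit 76234) (nat_lit 12) (node (nat_lit 6) (nat_lit 73489) (nat_lit 13) nil nil) nil)) nil)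
  (node (nat_lit 6) (nat_lit 85013) (nat_lit 10) nil (node (nat_lit 0) (nat_lit 85013) (nat_lit
  10) nil nil)))) (node (nat_lit 6) (nat_lit 85394) (nat_lit 9) (node (nat_lit 5) (nat_lit 85394)
  (nat_lit 10) (node (nat_lit 4) (nat_lit 85394) (nat_lit 11) nil nil) (node (nat_lit 4) (nat_lit
  85394) (nat_lit 10) (node (nat_lit 6) (nat_lit 58547) (nat_lit 11) nil nil) (node (nat_lit 3)
  (nat_lit 85394) (nat_lit 10) nil (node (nat_lit 0) (nat_lit 85922) (nat_lit 10) nil nil))))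
  (node (nat_lit 0) (nat_lit 85094) (nat_lit 9) nil nil))) (node (nat_lit 3) (nat_lit 78883)
  (nat_lit 8) (node (nat_lit 5) (nat_lit 82409) (nat_lit 9) (node (nat_lit 11) (nat_lit 83609)
  (nat_lit 10) (node (nat_lit 4) (nat_lit 83870) (nat_lit 11) (node (nat_lit 5) (nat_lit 81962)
  (nat_lit 12) (node (nat_lit 6) (nat_lit 79013) (nat_lit 13) (node (nat_lit 4) (nat_lit 72849)
  (nat_lit 14) nil nil) nil) (node (nat_lit 11) (nat_lit 83634) (nat_lit 12) nil nil)) nil) (node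
  (nat_lit 4) (nat_lit 83853) (nat_lit 10) (node (nat_lit 5) (nat_lit 83510) (nat_lit 11) nil nil)
  nil)) (node (nat_lit 4) (nat_lit 82566) (nat_lit 9) (node (nat_lit 5) (nat_lit 84203) (nat_lit
  10) (node (nat_lit 11) (nat_lit 84241) (nat_lit 11) nil (node (nat_lit 4) (nat_lit 83860)
  (nat_lit 11) nil nil)) (node (nat_lit 0) (nat_lit 86181) (nat_lit 10) nil (node (nat_lit 6)
  (nat_lit 86181) (nat_lit 10) nil nil))) (node (nat_lit 6) (nat_lit 84206) (nat_lit 9) nil (node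
  (nat_lit 0) (nat_lit 84206) (nat_lit 9) nil nil)))) (node (nat_lit 0) (nat_lit 84093) (nat_lit
  8) (node (nat_lit 4) (nat_lit 84093) (nat_lit 9) nil (node (nat_lit 3) (nat_lit 84093) (nat_lit
  9) nil (node (nat_lit 5) (nat_lit 84093) (nat_lit 9) nil nil))) (node (nat_lit 6) (nat_lit
  77716) (nat_lit 8) nil nil)))) (node (nat_lit 6) (nat_lit 80318) (nat_lit 7) (node (nat_lit 4)
  (nat_lit 81574) (nat_lit 8) (node (nat_lit 5) (nat_lit 82507) (nat_lit 9) (node (nat_lit 4)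
  (nat_lit 81801) (nat_lit 10) nil (node (nat_lit 3) (nat_lit 82765) (nat_lit 10) nil (node
  (nat_lit 6) (nat_lit 85066) (nat_lit 10) nil nil))) (node (nat_lit 3) (nat_lit 81949) (nat_lit
  9) (node (nat_lit 4) (nat_lit 81949) (nat_lit 10) nil nil) (node (nat_lit 0) (nat_lit 83529)
  (nat_lit 9) nil nil))) (node (nat_lit 3) (nat_lit 83219) (nat_lit 8) (node (nat_lit 5) (nat_lit
  83594) (nat_lit 9) (node (nat_lit 11) (nat_lit 83594) (nat_lit 10) nil nil) (node (nat_lit 4)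
  (nat_lit 82836) (nat_lit 9) (node (nat_lit 5) (nat_lit 82836) (nat_lit 10) nil nil) (node
  (nat_lit 6) (nat_lit 84891) (nat_lit 9) nil nil))) (node (nat_lit 0) (nat_lit 83762) (nat_lit 8)
  nil nil))) (node (nat_lit 3) (nat_lit 74988) (nat_lit 7) (node (nat_lit 4) (nat_lit 78301)
  (nat_lit 8) (node (nat_lit 5) (nat_lit 82148) (nat_lit 9) (node (nat_lit 4) (nat_lit 83140)
  (nat_lit 10) (node (nat_lit 10) (nat_lit 80575) (nat_lit 11) nil nil) (node (nat_lit 10)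
  (nat_lit 82132) (nat_lit 10) nil nil)) (node (nat_lit 10) (nat_lit 79439) (nat_lit 9) (node
  (nat_lit 5) (nat_lit 75788) (nat_lit 10) nil nil) (node (nat_lit 6) (nat_lit 83624) (nat_lit 9)
  nil (node (nat_lit 0) (nat_lit 83624) (nat_lit 9) nil nil)))) (node (nat_lit 5) (nat_lit 77487)
  (nat_lit 8) (node (nat_lit 4) (nat_lit 78590) (nat_lit 9) (node (nat_lit 5) (nat_lit 78328)
  (nat_lit 10) nil nil) (node (nat_lit 6) (nat_lit 82809) (nat_lit 9) nil (node (nat_lit 0)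
  (nat_lit 82809) (nat_lit 9) nil nil))) (node (nat_lit 6) (nat_lit 84819) (nat_lit 8) nil (node
  (nat_lit 0) (nat_lit 84195) (nat_lit 8) nil nil)))) (node (nat_lit 0) (nat_lit 82644) (nat_lit
  7) (node (nat_lit 5) (nat_lit 82644) (nat_lit 8) nil (node (nat_lit 3) (nat_lit 82644) (nat_lit
  8) nil (node (nat_lit 4) (nat_lit 82644) (nat_lit 8) nil (node (nat_lit 6) (nat_lit 83657)
  (nat_lit 8) nil (node (nat_lit 0) (nat_lit 83657) (nat_lit 8) nil nil))))) nil)))) (node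
  (nat_lit 3) (nat_lit 74030) (nat_lit 6) (node (nat_lit 4) (nat_lit 76429) (nat_lit 7) (node
  (nat_lit 9) (nat_lit 77967) (nat_lit 8) (node (nat_lit 6) (nat_lit 85469) (nat_lit 9) (node
  (nat_lit 9) (nat_lit 85469) (nat_lit 10) nil nil) (node (nat_lit 5) (nat_lit 81094) (nat_lit 9)
  (node (nat_lit 4) (nat_lit 83404) (nat_lit 10) nil (node (nat_lit 9) (nat_lit 82293) (nat_lit
  10) (node (nat_lit 4) (nat_lit 82555) (nat_lit 11) (node (nat_lit 5) (nat_lit 80646) (nat_lit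
  12) nil nil) nil) nil)) (node (nat_lit 0) (nat_lit 84907) (nat_lit 9) nil nil))) (node (nat_lit
  5) (nat_lit 79168) (nat_lit 8) (node (nat_lit 9) (nat_lit 82837) (nat_lit 9) (node (nat_lit 5)
  (nat_lit 82727) (nat_lit 10) (node (nat_lit 4) (nat_lit 79775) (nat_lit 11) (node (nat_lit 5)
  (nat_lit 77372) (nat_lit 12) nil nil) nil) (node (nat_lit 4) (nat_lit 84300) (nat_lit 10) nil
  (node (nat_lit 6) (nat_lit 86453) (nat_lit 10) nil nil))) (node (nat_lit 4) (nat_lit 82380)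
  (nat_lit 9) (node (nat_lit 9) (nat_lit 83235) (nat_lit 10) (node (nat_lit 4) (nat_lit 82137)
  (nat_lit 11) (node (nat_lit 5) (nat_lit 81582) (nat_lit 12) (node (nat_lit 6) (nat_lit 78145)
  (nat_lit 13) nil nil) nil) nil) nil) (node (nat_lit 0) (nat_lit 84490) (nat_lit 9) nil (node
  (nat_lit 6) (nat_lit 84490) (nat_lit 9) nil nil)))) (node (nat_lit 0) (nat_lit 84766) (nat_lit
  8) nil (node (nat_lit 6) (nat_lit 81093) (nat_lit 8) nil nil)))) (node (nat_lit 5) (nat_lit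
  75761) (nat_lit 7) (node (nat_lit 9) (nat_lit 77438) (nat_lit 8) (node (nat_lit 6) (nat_lit
  82761) (nat_lit 9) nil nil) (node (nat_lit 4) (nat_lit 78739) (nat_lit 8) (node (nat_lit 9)
  (nat_lit 80833) (nat_lit 9) nil nil) nil)) (node (nat_lit 6) (nat_lit 83196) (nat_lit 7) (node
  (nat_lit 5) (nat_lit 83196) (nat_lit 8) nil nil) (node (nat_lit 0) (nat_lit 83392) (nat_lit 7)
  nil nil)))) (node (nat_lit 0) (nat_lit 78929) (nat_lit 6) (node (nat_lit 4) (nat_lit 79471)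
  (nat_lit 7) (node (nat_lit 9) (nat_lit 82041) (nat_lit 8) nil nil) (node (nat_lit 5) (nat_lit
  78929) (nat_lit 7) nil (node (nat_lit 3) (nat_lit 78929) (nat_lit 7) nil (node (nat_lit 6)
  (nat_lit 81681) (nat_lit 7) nil (node (nat_lit 0) (nat_lit 81681) (nat_lit 7) nil nil)))))
  nil))) (node (nat_lit 3) (nat_lit 0) (nat_lit 5) (node (nat_lit 5) (nat_lit 64499) (nat_lit 6)
  (node (nat_lit 4) (nat_lit 73045) (nat_lit 7) (node (nat_lit 8) (nat_lit 72806) (nat_lit 8)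
  (node (nat_lit 4) (nat_lit 69685) (nat_lit 9) (node (nat_lit 5) (nat_lit 66643) (nat_lit 10)
  (node (nat_lit 6) (nat_lit 61507) (nat_lit 11) nil (node (nat_lit 4) (nat_lit 66096) (nat_lit
  11) nil nil)) nil) nil) (node (nat_lit 5) (nat_lit 76149) (nat_lit 8) (node (nat_lit 8) (nat_lit
  76717) (nat_lit 9) (node (nat_lit 5) (nat_lit 77013) (nat_lit 10) nil (node (nat_lit 4) (nat_lit
  76466) (nat_lit 10) nil nil)) nil) nil)) (node (nat_lit 8) (nat_lit 73157) (nat_lit 7) (node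
  (nat_lit 4) (nat_lit 77242) (nat_lit 8) (node (nat_lit 5) (nat_lit 78567) (nat_lit 9) (node
  (nat_lit 4) (nat_lit 77918) (nat_lit 10) nil nil) (node (nat_lit 8) (nat_lit 76939) (nat_lit 9)
  nil nil)) (node (nat_lit 6) (nat_lit 80045) (nat_lit 8) nil nil)) (node (nat_lit 6) (nat_lit
  82218) (nat_lit 7) nil (node (nat_lit 0) (nat_lit 74656) (nat_lit 7) nil nil)))) (node (nat_lit
  6) (nat_lit 79785) (nat_lit 6) (node (nat_lit 8) (nat_lit 79805) (nat_lit 7) (node (nat_lit 4)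
  (nat_lit 79266) (nat_lit 8) (node (nat_lit 8) (nat_lit 81040) (nat_lit 9) (node (nat_lit 5)
  (nat_lit 81371) (nat_lit 10) (node (nat_lit 4) (nat_lit 80824) (nat_lit 11) nil (node (nat_lit
  8) (nat_lit 79774) (nat_lit 11) nil nil)) (node (nat_lit 0) (nat_lit 83916) (nat_lit 10) nil
  nil)) nil) nil) (node (nat_lit 5) (nat_lit 78859) (nat_lit 7) (node (nat_lit 4) (nat_lit 78859)
  (nat_lit 8) nil nil) (node (nat_lit 4) (nat_lit 79785) (nat_lit 7) (node (nat_lit 6) (nat_lit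
  82432) (nat_lit 8) nil nil) nil))) (node (nat_lit 4) (nat_lit 0) (nat_lit 6) (node (nat_lit 5)
  (nat_lit 73645) (nat_lit 7) (node (nat_lit 8) (nat_lit 80070) (nat_lit 8) (node (nat_lit 5)
  (nat_lit 83450) (nat_lit 9) (node (nat_lit 4) (nat_lit 83529) (nat_lit 10) (node (nat_lit 5)
  (nat_lit 79909) (nat_lit 11) (node (nat_lit 8) (nat_lit 79223) (nat_lit 12) nil nil) nil) nil)
  nil) (node (nat_lit 4) (nat_lit 75907) (nat_lit 8) (node (nat_lit 8) (nat_lit 70635) (nat_lit 9)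
  nil nil) (node (nat_lit 6) (nat_lit 54967) (nat_lit 8) (node (nat_lit 4) (nat_lit 25460)
  (nat_lit 9) nil nil) nil))) (node (nat_lit 6) (nat_lit 80927) (nat_lit 7) nil (node (nat_lit 0)
  (nat_lit 74643) (nat_lit 7) nil nil))) (node (nat_lit 0) (nat_lit 77850) (nat_lit 6) nil nil))))
  (node (nat_lit 5) (nat_lit 0) (nat_lit 5) (node (nat_lit 4) (nat_lit 59523) (nat_lit 6) (node
  (nat_lit 3) (nat_lit 71669) (nat_lit 7) (node (nat_lit 5) (nat_lit 74572) (nat_lit 8) (node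
  (nat_lit 10) (nat_lit 77340) (nat_lit 9) (node (nat_lit 4) (nat_lit 75928) (nat_lit 10) (node
  (nat_lit 5) (nat_lit 73691) (nat_lit 11) (node (nat_lit 6) (nat_lit 60537) (nat_lit 12) nil nil)
  (node (nat_lit 10) (nat_lit 75770) (nat_lit 11) nil nil)) nil) (node (nat_lit 6) (nat_lit 79895)
  (nat_lit 9) nil (node (nat_lit 4) (nat_lit 70308) (nat_lit 9) (node (nat_lit 5) (nat_lit 69990)
  (nat_lit 10) nil nil) nil))) (node (nat_lit 4) (nat_lit 76243) (nat_lit 8) (node (nat_lit 5)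
  (nat_lit 78337) (nat_lit 9) nil nil) (node (nat_lit 6) (nat_lit 79421) (nat_lit 8) nil (node
  (nat_lit 0) (nat_lit 79421) (nat_lit 8) nil nil)))) (node (nat_lit 6) (nat_lit 80181) (nat_lit
  7) (node (nat_lit 5) (nat_lit 80181) (nat_lit 8) (node (nat_lit 4) (nat_lit 80181) (nat_lit 9)
  nil nil) (node (nat_lit 4) (nat_lit 80181) (nat_lit 8) nil nil)) (node (nat_lit 0) (nat_lit
  78757) (nat_lit 7) nil nil))) (node (nat_lit 3) (nat_lit 62259) (nat_lit 6) (node (nat_lit 4)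
  (nat_lit 71254) (nat_lit 7) (node (nat_lit 5) (nat_lit 76842) (nat_lit 8) (node (nat_lit 4)
  (nat_lit 76461) (nat_lit 9) nil nil) (node (nat_lit 9) (nat_lit 73623) (nat_lit 8) (node
  (nat_lit 5) (nat_lit 71994) (nat_lit 9) nil nil) nil)) (node (nat_lit 5) (nat_lit 71683)
  (nat_lit 7) (node (nat_lit 4) (nat_lit 73627) (nat_lit 8) (node (nat_lit 5) (nat_lit 73246)
  (nat_lit 9) nil nil) (node (nat_lit 6) (nat_lit 79435) (nat_lit 8) nil nil)) (node (nat_lit 6)
  (nat_lit 79072) (nat_lit 7) nil (node (nat_lit 0) (nat_lit 72789) (nat_lit 7) nil nil)))) (node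
  (nat_lit 0) (nat_lit 77379) (nat_lit 6) nil nil))) (node (nat_lit 0) (nat_lit 0) (nat_lit 5)
  (node (nat_lit 5) (nat_lit 72141) (nat_lit 6) (node (nat_lit 4) (nat_lit 72141) (nat_lit 7) nil
  (node (nat_lit 8) (nat_lit 75201) (nat_lit 7) nil (node (nat_lit 3) (nat_lit 72141) (nat_lit 7)
  nil nil))) (node (nat_lit 4) (nat_lit 73986) (nat_lit 6) (node (nat_lit 5) (nat_lit 73986)
  (nat_lit 7) nil (node (nat_lit 6) (nat_lit 77046) (nat_lit 7) nil (node (nat_lit 3) (nat_lit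
  73986) (nat_lit 7) nil nil))) (node (nat_lit 3) (nat_lit 71758) (nat_lit 6) (node (nat_lit 4)
  (nat_lit 71758) (nat_lit 7) nil nil) (node (nat_lit 6) (nat_lit 77558) (nat_lit 6) (node
  (nat_lit 4) (nat_lit 77558) (nat_lit 7) nil nil) (node (nat_lit 0) (nat_lit 76824) (nat_lit 6)
  nil nil))))) nil)))) (node (nat_lit 0) (nat_lit 0) (nat_lit 4) (node (nat_lit 6) (nat_lit 0)
  (nat_lit 5) (node (nat_lit 5) (nat_lit 74235) (nat_lit 6) (node (nat_lit 7) (nat_lit 83575)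
  (nat_lit 7) (node (nat_lit 6) (nat_lit 85782) (nat_lit 8) (node (nat_lit 7) (nat_lit 86427)
  (nat_lit 9) (node (nat_lit 5) (nat_lit 86427) (nat_lit 10) nil nil) (node (nat_lit 0) (nat_lit
  86291) (nat_lit 9) nil (node (nat_lit 3) (nat_lit 85782) (nat_lit 9) nil (node (nat_lit 4)
  (nat_lit 85782) (nat_lit 9) nil nil)))) (node (nat_lit 5) (nat_lit 82993) (nat_lit 8) (node
  (nat_lit 6) (nat_lit 85496) (nat_lit 9) nil (node (nat_lit 4) (nat_lit 82993) (nat_lit 9) nil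
  (node (nat_lit 3) (nat_lit 82993) (nat_lit 9) nil (node (nat_lit 0) (nat_lit 84312) (nat_lit 9)
  nil nil)))) (node (nat_lit 4) (nat_lit 83575) (nat_lit 8) nil (node (nat_lit 3) (nat_lit 83575)
  (nat_lit 8) nil (node (nat_lit 0) (nat_lit 85136) (nat_lit 8) nil nil))))) (node (nat_lit 6)
  (nat_lit 83380) (nat_lit 7) (node (nat_lit 7) (nat_lit 84190) (nat_lit 8) nil nil) (node
  (nat_lit 3) (nat_lit 75182) (nat_lit 7) (node (nat_lit 5) (nat_lit 74744) (nat_lit 8) nil (node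
  (nat_lit 6) (nat_lit 79052) (nat_lit 8) nil nil)) (node (nat_lit 4) (nat_lit 76699) (nat_lit 7)
  (node (nat_lit 5) (nat_lit 77833) (nat_lit 8) nil (node (nat_lit 6) (nat_lit 80569) (nat_lit 8)
  nil nil)) (node (nat_lit 0) (nat_lit 82776) (nat_lit 7) nil nil))))) (node (nat_lit 3) (nat_lit
  73689) (nat_lit 6) (node (nat_lit 5) (nat_lit 75542) (nat_lit 7) (node (nat_lit 9) (nat_lit
  77318) (nat_lit 8) nil (node (nat_lit 7) (nat_lit 79412) (nat_lit 8) nil nil)) (node (nat_lit 7)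
  (nat_lit 83360) (nat_lit 7) (node (nat_lit 9) (nat_lit 83360) (nat_lit 8) nil (node (nat_lit 6)
  (nat_lit 84170) (nat_lit 8) nil nil)) (node (nat_lit 4) (nat_lit 75127) (nat_lit 7) (node
  (nat_lit 9) (nat_lit 75194) (nat_lit 8) nil nil) (node (nat_lit 6) (nat_lit 82899) (nat_lit 7)
  (node (nat_lit 7) (nat_lit 83709) (nat_lit 8) nil nil) (node (nat_lit 0) (nat_lit 81619)
  (nat_lit 7) nil nil))))) (node (nat_lit 4) (nat_lit 74867) (nat_lit 6) (node (nat_lit 5)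
  (nat_lit 76194) (nat_lit 7) (node (nat_lit 4) (nat_lit 76948) (nat_lit 8) nil (node (nat_lit 7)
  (nat_lit 80065) (nat_lit 8) nil nil)) (node (nat_lit 7) (nat_lit 83523) (nat_lit 7) (node
  (nat_lit 4) (nat_lit 83523) (nat_lit 8) nil (node (nat_lit 6) (nat_lit 84333) (nat_lit 8) nil
  nil)) (node (nat_lit 3) (nat_lit 76026) (nat_lit 7) (node (nat_lit 4) (nat_lit 77751) (nat_lit
  8) nil nil) (node (nat_lit 6) (nat_lit 82950) (nat_lit 7) (node (nat_lit 7) (nat_lit 83760)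
  (nat_lit 8) nil nil) (node (nat_lit 0) (nat_lit 81602) (nat_lit 7) nil nil))))) (node (nat_lit
  0) (nat_lit 79660) (nat_lit 6) (node (nat_lit 7) (nat_lit 83125) (nat_lit 7) (node (nat_lit 6)
  (nat_lit 84193) (nat_lit 8) nil nil) (node (nat_lit 6) (nat_lit 83125) (nat_lit 7) (node
  (nat_lit 7) (nat_lit 83935) (nat_lit 8) nil nil) (node (nat_lit 5) (nat_lit 79660) (nat_lit 7)
  nil (node (nat_lit 0) (nat_lit 82025) (nat_lit 7) nil (node (nat_lit 4) (nat_lit 79660) (nat_lit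
  7) nil (node (nat_lit 3) (nat_lit 79660) (nat_lit 7) nil nil)))))) nil)))) (node (nat_lit 5)
  (nat_lit 0) (nat_lit 5) (node (nat_lit 7) (nat_lit 80100) (nat_lit 6) (node (nat_lit 6) (nat_lit
  83904) (nat_lit 7) (node (nat_lit 7) (nat_lit 85782) (nat_lit 8) (node (nat_lit 5) (nat_lit
  85782) (nat_lit 9) (node (nat_lit 6) (nat_lit 86739) (nat_lit 10) (node (nat_lit 5) (nat_lit
  86739) (nat_lit 11) nil nil) (node (nat_lit 0) (nat_lit 86679) (nat_lit 10) nil (node (nat_lit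
  3) (nat_lit 85782) (nat_lit 10) nil (node (nat_lit 4) (nat_lit 85782) (nat_lit 10) nil nil))))
  nil) (node (nat_lit 5) (nat_lit 83904) (nat_lit 8) nil nil)) (node (nat_lit 0) (nat_lit 83226)
  (nat_lit 7) nil (node (nat_lit 4) (nat_lit 80100) (nat_lit 7) nil (node (nat_lit 3) (nat_lit
  80100) (nat_lit 7) nil nil)))) (node (nat_lit 3) (nat_lit 67763) (nat_lit 6) (node (nat_lit 5)
  (nat_lit 71360) (nat_lit 7) (node (nat_lit 6) (nat_lit 78248) (nat_lit 8) nil (node (nat_lit 7)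
  (nat_lit 78248) (nat_lit 8) nil nil)) (node (nat_lit 4) (nat_lit 69744) (nat_lit 7) (node
  (nat_lit 9) (nat_lit 69655) (nat_lit 8) nil (node (nat_lit 5) (nat_lit 72762) (nat_lit 8) nil
  nil)) (node (nat_lit 6) (nat_lit 81405) (nat_lit 7) nil (node (nat_lit 7) (nat_lit 80125)
  (nat_lit 7) nil (node (nat_lit 0) (nat_lit 73841) (nat_lit 7) nil nil))))) (node (nat_lit 4)
  (nat_lit 68570) (nat_lit 6) (node (nat_lit 5) (nat_lit 72999) (nat_lit 7) (node (nat_lit 7)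
  (nat_lit 79887) (nat_lit 8) nil nil) (node (nat_lit 3) (nat_lit 71686) (nat_lit 7) (node
  (nat_lit 4) (nat_lit 74704) (nat_lit 8) nil (node (nat_lit 5) (nat_lit 71110) (nat_lit 8) nil
  nil)) (node (nat_lit 6) (nat_lit 82212) (nat_lit 7) nil (node (nat_lit 7) (nat_lit 80932)
  (nat_lit 7) nil (node (nat_lit 0) (nat_lit 74648) (nat_lit 7) nil nil))))) (node (nat_lit 0)
  (nat_lit 79415) (nat_lit 6) (node (nat_lit 6) (nat_lit 80584) (nat_lit 7) nil (node (nat_lit 7)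
  (nat_lit 80584) (nat_lit 7) nil nil)) (node (nat_lit 6) (nat_lit 79786) (nat_lit 6) (node
  (nat_lit 5) (nat_lit 79786) (nat_lit 7) nil nil) nil))))) (node (nat_lit 3) (nat_lit 0) (nat_lit
  5) (node (nat_lit 4) (nat_lit 66853) (nat_lit 6) (node (nat_lit 5) (nat_lit 67916) (nat_lit 7)
  (node (nat_lit 4) (nat_lit 68795) (nat_lit 8) nil nil) (node (nat_lit 8) (nat_lit 71157)
  (nat_lit 7) nil (node (nat_lit 7) (nat_lit 72931) (nat_lit 7) nil (node (nat_lit 6) (nat_lit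
  79215) (nat_lit 7) nil (node (nat_lit 0) (nat_lit 72931) (nat_lit 7) nil nil))))) (node (nat_lit
  5) (nat_lit 67505) (nat_lit 6) (node (nat_lit 8) (nat_lit 73100) (nat_lit 7) (node (nat_lit 7)
  (nat_lit 79989) (nat_lit 8) nil (node (nat_lit 6) (nat_lit 79989) (nat_lit 8) nil nil)) (node
  (nat_lit 4) (nat_lit 68460) (nat_lit 7) nil (node (nat_lit 7) (nat_lit 79866) (nat_lit 7) nil
  nil))) (node (nat_lit 6) (nat_lit 79643) (nat_lit 6) (node (nat_lit 8) (nat_lit 79643) (nat_lit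
  7) nil nil) (node (nat_lit 7) (nat_lit 79643) (nat_lit 6) (node (nat_lit 6) (nat_lit 80812)
  (nat_lit 7) nil nil) (node (nat_lit 0) (nat_lit 77974) (nat_lit 6) nil nil))))) (node (nat_lit
  4) (nat_lit 0) (nat_lit 5) (node (nat_lit 3) (nat_lit 68521) (nat_lit 6) (node (nat_lit 5)
  (nat_lit 70770) (nat_lit 7) (node (nat_lit 9) (nat_lit 74922) (nat_lit 8) nil nil) (node
  (nat_lit 4) (nat_lit 71069) (nat_lit 7) nil (node (nat_lit 7) (nat_lit 74599) (nat_lit 7) nil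
  (node (nat_lit 6) (nat_lit 80883) (nat_lit 7) nil (node (nat_lit 0) (nat_lit 74599) (nat_lit 7)
  nil nil))))) (node (nat_lit 5) (nat_lit 67502) (nat_lit 6) (node (nat_lit 4) (nat_lit 72867)
  (nat_lit 7) (node (nat_lit 7) (nat_lit 79756) (nat_lit 8) nil (node (nat_lit 6) (nat_lit 79756)
  (nat_lit 8) nil nil)) (node (nat_lit 3) (nat_lit 70864) (nat_lit 7) nil (node (nat_lit 7)
  (nat_lit 79864) (nat_lit 7) nil nil))) (node (nat_lit 6) (nat_lit 79536) (nat_lit 6) (node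
  (nat_lit 4) (nat_lit 79536) (nat_lit 7) nil nil) (node (nat_lit 7) (nat_lit 79536) (nat_lit 6)
  (node (nat_lit 6) (nat_lit 80705) (nat_lit 7) nil nil) (node (nat_lit 0) (nat_lit 78026)
  (nat_lit 6) nil nil))))) (node (nat_lit 0) (nat_lit 0) (nat_lit 5) (node (nat_lit 7) (nat_lit
  78780) (nat_lit 6) (node (nat_lit 6) (nat_lit 81145) (nat_lit 7) nil nil) (node (nat_lit 5)
  (nat_lit 72262) (nat_lit 6) nil (node (nat_lit 6) (nat_lit 78302) (nat_lit 6) (node (nat_lit 7)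
  (nat_lit 80256) (nat_lit 7) nil nil) (node (nat_lit 3) (nat_lit 72262) (nat_lit 6) nil (node
  (nat_lit 4) (nat_lit 72262) (nat_lit 6) nil (node (nat_lit 0) (nat_lit 75288) (nat_lit 6) nil
  nil)))))) nil))))) (node (nat_lit 5) (nat_lit 0) (nat_lit 4) (node (nat_lit 3) (nat_lit 0)
  (nat_lit 5) (node (nat_lit 4) (nat_lit 62765) (nat_lit 6) (node (nat_lit 5) (nat_lit 71618)
  (nat_lit 7) (node (nat_lit 4) (nat_lit 74479) (nat_lit 8) (node (nat_lit 8) (nat_lit 73785)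
  (nat_lit 9) (node (nat_lit 4) (nat_lit 71214) (nat_lit 10) nil nil) nil) (node (nat_lit 8)
  (nat_lit 74416) (nat_lit 8) (node (nat_lit 5) (nat_lit 75046) (nat_lit 9) (node (nat_lit 4)
  (nat_lit 72601) (nat_lit 10) nil nil) nil) (node (nat_lit 6) (nat_lit 51957) (nat_lit 8) (node
  (nat_lit 5) (nat_lit 25053) (nat_lit 9) nil nil) nil))) (node (nat_lit 8) (nat_lit 69460)
  (nat_lit 7) (node (nat_lit 5) (nat_lit 69748) (nat_lit 8) (node (nat_lit 4) (nat_lit 70461)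
  (nat_lit 9) (node (nat_lit 5) (nat_lit 66639) (nat_lit 10) (node (nat_lit 8) (nat_lit 66272)
  (nat_lit 11) nil (node (nat_lit 6) (nat_lit 69856) (nat_lit 11) nil nil)) nil) (node (nat_lit 8)
  (nat_lit 71242) (nat_lit 9) (node (nat_lit 4) (nat_lit 70851) (nat_lit 10) nil nil) nil)) nil)
  (node (nat_lit 6) (nat_lit 72921) (nat_lit 7) nil (node (nat_lit 0) (nat_lit 72921) (nat_lit 7)
  nil nil)))) (node (nat_lit 5) (nat_lit 62638) (nat_lit 6) (node (nat_lit 4) (nat_lit 72300)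
  (nat_lit 7) (node (nat_lit 8) (nat_lit 74982) (nat_lit 8) (node (nat_lit 4) (nat_lit 70274)
  (nat_lit 9) (node (nat_lit 5) (nat_lit 57333) (nat_lit 10) (node (nat_lit 6) (nat_lit 60757)
  (nat_lit 11) nil nil) nil) (node (nat_lit 5) (nat_lit 74398) (nat_lit 9) nil nil)) (node
  (nat_lit 5) (nat_lit 74280) (nat_lit 8) (node (nat_lit 8) (nat_lit 69176) (nat_lit 9) nil (node
  (nat_lit 6) (nat_lit 69513) (nat_lit 9) nil nil)) nil)) (node (nat_lit 6) (nat_lit 81637)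
  (nat_lit 7) nil (node (nat_lit 0) (nat_lit 76906) (nat_lit 7) nil nil))) (node (nat_lit 6)
  (nat_lit 78742) (nat_lit 6) (node (nat_lit 8) (nat_lit 78742) (nat_lit 7) (node (nat_lit 5)
  (nat_lit 78742) (nat_lit 8) nil nil) (node (nat_lit 4) (nat_lit 78742) (nat_lit 7) nil (node
  (nat_lit 5) (nat_lit 78742) (nat_lit 7) nil nil))) (node (nat_lit 0) (nat_lit 76584) (nat_lit 6)
  nil nil)))) (node (nat_lit 4) (nat_lit 0) (nat_lit 5) (node (nat_lit 3) (nat_lit 62337) (nat_lit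
  6) (node (nat_lit 5) (nat_lit 71653) (nat_lit 7) (node (nat_lit 9) (nat_lit 74549) (nat_lit 8)
  (node (nat_lit 4) (nat_lit 74357) (nat_lit 9) (node (nat_lit 5) (nat_lit 68994) (nat_lit 10) nil
  nil) nil) (node (nat_lit 4) (nat_lit 75571) (nat_lit 8) (node (nat_lit 5) (nat_lit 75435)
  (nat_lit 9) (node (nat_lit 6) (nat_lit 69728) (nat_lit 10) nil nil) nil) nil)) (node (nat_lit 4)
  (nat_lit 72045) (nat_lit 7) (node (nat_lit 5) (nat_lit 76750) (nat_lit 8) (node (nat_lit 9)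
  (nat_lit 77917) (nat_lit 9) (node (nat_lit 5) (nat_lit 78638) (nat_lit 10) (node (nat_lit 4)
  (nat_lit 77329) (nat_lit 11) nil nil) nil) (node (nat_lit 4) (nat_lit 76369) (nat_lit 9) nil
  (node (nat_lit 6) (nat_lit 55408) (nat_lit 9) nil nil))) nil) (node (nat_lit 6) (nat_lit 72867)
  (nat_lit 7) nil (node (nat_lit 0) (nat_lit 72867) (nat_lit 7) nil nil)))) (node (nat_lit 5)
  (nat_lit 59186) (nat_lit 6) (node (nat_lit 3) (nat_lit 71552) (nat_lit 7) (node (nat_lit 4)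
  (nat_lit 74491) (nat_lit 8) (node (nat_lit 10) (nat_lit 75478) (nat_lit 9) (node (nat_lit 5)
  (nat_lit 74526) (nat_lit 10) nil nil) nil) (node (nat_lit 5) (nat_lit 75038) (nat_lit 8) (node
  (nat_lit 4) (nat_lit 73446) (nat_lit 9) nil nil) nil)) (node (nat_lit 6) (nat_lit 57029)
  (nat_lit 7) (node (nat_lit 4) (nat_lit 57029) (nat_lit 8) (node (nat_lit 5) (nat_lit 57029)
  (nat_lit 9) nil (node (nat_lit 6) (nat_lit 57761) (nat_lit 9) nil nil)) nil) (node (nat_lit 0)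
  (nat_lit 74594) (nat_lit 7) nil nil))) (node (nat_lit 6) (nat_lit 74538) (nat_lit 6) (node
  (nat_lit 4) (nat_lit 74356) (nat_lit 7) (node (nat_lit 5) (nat_lit 74356) (nat_lit 8) (node
  (nat_lit 4) (nat_lit 74356) (nat_lit 9) nil (node (nat_lit 3) (nat_lit 74356) (nat_lit 9) nil
  nil)) nil) (node (nat_lit 3) (nat_lit 75589) (nat_lit 7) nil (node (nat_lit 5) (nat_lit 74538)
  (nat_lit 7) nil nil))) (node (nat_lit 0) (nat_lit 73689) (nat_lit 6) nil nil)))) (node (nat_lit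
  0) (nat_lit 0) (nat_lit 5) (node (nat_lit 5) (nat_lit 73477) (nat_lit 6) (node (nat_lit 6)
  (nat_lit 82018) (nat_lit 7) (node (nat_lit 8) (nat_lit 82828) (nat_lit 8) nil nil) (node
  (nat_lit 4) (nat_lit 72706) (nat_lit 7) nil (node (nat_lit 3) (nat_lit 73135) (nat_lit 7) nil
  (node (nat_lit 0) (nat_lit 79460) (nat_lit 7) nil nil)))) (node (nat_lit 3) (nat_lit 72875)
  (nat_lit 6) (node (nat_lit 5) (nat_lit 72875) (nat_lit 7) nil (node (nat_lit 8) (nat_lit 78857)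
  (nat_lit 7) nil (node (nat_lit 6) (nat_lit 77855) (nat_lit 7) nil (node (nat_lit 0) (nat_lit
  75935) (nat_lit 7) nil (node (nat_lit 4) (nat_lit 72875) (nat_lit 7) nil nil))))) (node (nat_lit
  4) (nat_lit 74947) (nat_lit 6) (node (nat_lit 5) (nat_lit 74947) (nat_lit 7) nil (node (nat_lit
  8) (nat_lit 80929) (nat_lit 7) nil (node (nat_lit 6) (nat_lit 78007) (nat_lit 7) nil (node
  (nat_lit 0) (nat_lit 78007) (nat_lit 7) nil (node (nat_lit 3) (nat_lit 74947) (nat_lit 7) nil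
  nil))))) (node (nat_lit 6) (nat_lit 79688) (nat_lit 6) (node (nat_lit 5) (nat_lit 79688)
  (nat_lit 7) nil (node (nat_lit 8) (nat_lit 80857) (nat_lit 7) nil nil)) (node (nat_lit 0)
  (nat_lit 79313) (nat_lit 6) (node (nat_lit 6) (nat_lit 80482) (nat_lit 7) nil nil) nil)))))
  nil))) nil)))

noncomputable def t393 : Tr :=
  (node (nat_lit 0) (nat_lit 0) (nat_lit 4) (node (nat_lit 6) (nat_lit 0) (nat_lit 5) (node
  (nat_lit 5) (nat_lit 54669) (nat_lit 6) (node (nat_lit 7) (nat_lit 72677) (nat_lit 7) (node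
  (nat_lit 6) (nat_lit 72910) (nat_lit 8) (node (nat_lit 7) (nat_lit 75884) (nat_lit 9) (node
  (nat_lit 5) (nat_lit 75884) (nat_lit 10) (node (nat_lit 6) (nat_lit 75884) (nat_lit 11) (node
  (nat_lit 5) (nat_lit 75884) (nat_lit 12) (node (nat_lit 7) (nat_lit 75884) (nat_lit 13) nil nil)
  nil) (node (nat_lit 7) (nat_lit 75884) (nat_lit 11) nil nil)) (node (nat_lit 4) (nat_lit 75884)
  (nat_lit 10) nil (node (nat_lit 0) (nat_lit 75884) (nat_lit 10) nil nil))) (node (nat_lit 4)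
  (nat_lit 73306) (nat_lit 9) (node (nat_lit 5) (nat_lit 74490) (nat_lit 10) (node (nat_lit 4)
  (nat_lit 74915) (nat_lit 11) (node (nat_lit 6) (nat_lit 74195) (nat_lit 12) nil nil) (node
  (nat_lit 6) (nat_lit 74104) (nat_lit 11) nil nil)) (node (nat_lit 6) (nat_lit 74387) (nat_lit
  10) (node (nat_lit 5) (nat_lit 74827) (nat_lit 11) nil (node (nat_lit 7) (nat_lit 75884)
  (nat_lit 11) nil (node (nat_lit 0) (nat_lit 75884) (nat_lit 11) nil nil))) (node (nat_lit 7)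
  (nat_lit 74961) (nat_lit 10) nil (node (nat_lit 0) (nat_lit 74961) (nat_lit 10) nil nil))))
  (node (nat_lit 0) (nat_lit 75884) (nat_lit 9) (node (nat_lit 6) (nat_lit 75884) (nat_lit 10) nil
  nil) nil))) (node (nat_lit 5) (nat_lit 72630) (nat_lit 8) (node (nat_lit 6) (nat_lit 73138)
  (nat_lit 9) (node (nat_lit 7) (nat_lit 75420) (nat_lit 10) nil nil) (node (nat_lit 4) (nat_lit
  72630) (nat_lit 9) nil nil)) (node (nat_lit 4) (nat_lit 72677) (nat_lit 8) nil (node (nat_lit 0)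
  (nat_lit 73463) (nat_lit 8) nil nil)))) (node (nat_lit 4) (nat_lit 60849) (nat_lit 7) (node
  (nat_lit 6) (nat_lit 67020) (nat_lit 8) (node (nat_lit 5) (nat_lit 69990) (nat_lit 9) nil (node
  (nat_lit 4) (nat_lit 70410) (nat_lit 9) nil (node (nat_lit 7) (nat_lit 71626) (nat_lit 9) nil
  (node (nat_lit 0) (nat_lit 71626) (nat_lit 9) nil nil)))) (node (nat_lit 5) (nat_lit 67135)
  (nat_lit 8) (node (nat_lit 6) (nat_lit 69809) (nat_lit 9) (node (nat_lit 7) (nat_lit 48313)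
  (nat_lit 10) nil nil) (node (nat_lit 7) (nat_lit 71741) (nat_lit 9) nil (node (nat_lit 0)
  (nat_lit 71741) (nat_lit 9) nil nil))) (node (nat_lit 7) (nat_lit 73487) (nat_lit 8) nil (node
  (nat_lit 0) (nat_lit 73487) (nat_lit 8) nil nil)))) (node (nat_lit 6) (nat_lit 61141) (nat_lit
  7) (node (nat_lit 7) (nat_lit 74852) (nat_lit 8) (node (nat_lit 5) (nat_lit 74501) (nat_lit 9)
  (node (nat_lit 7) (nat_lit 75652) (nat_lit 10) (node (nat_lit 6) (nat_lit 75652) (nat_lit 11)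
  (node (nat_lit 5) (nat_lit 75652) (nat_lit 12) nil nil) nil) (node (nat_lit 6) (nat_lit 74501)
  (nat_lit 10) (node (nat_lit 5) (nat_lit 74501) (nat_lit 11) nil nil) nil)) (node (nat_lit 0)
  (nat_lit 75346) (nat_lit 9) nil (node (nat_lit 4) (nat_lit 74852) (nat_lit 9) nil nil))) (node
  (nat_lit 4) (nat_lit 64688) (nat_lit 8) nil (node (nat_lit 0) (nat_lit 68871) (nat_lit 8) nil
  nil))) (node (nat_lit 0) (nat_lit 72664) (nat_lit 7) (node (nat_lit 0) (nat_lit 73450) (nat_lit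
  8) nil (node (nat_lit 7) (nat_lit 73450) (nat_lit 8) nil (node (nat_lit 6) (nat_lit 72664)
  (nat_lit 8) nil (node (nat_lit 5) (nat_lit 72664) (nat_lit 8) nil nil)))) nil)))) (node (nat_lit
  4) (nat_lit 54846) (nat_lit 6) (node (nat_lit 5) (nat_lit 60473) (nat_lit 7) (node (nat_lit 6)
  (nat_lit 66906) (nat_lit 8) (node (nat_lit 4) (nat_lit 70431) (nat_lit 9) (node (nat_lit 6)
  (nat_lit 69993) (nat_lit 10) nil nil) (node (nat_lit 5) (nat_lit 66300) (nat_lit 9) (node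
  (nat_lit 4) (nat_lit 62931) (nat_lit 10) nil nil) (node (nat_lit 7) (nat_lit 24326) (nat_lit 9)
  nil (node (nat_lit 0) (nat_lit 71513) (nat_lit 9) nil nil)))) (node (nat_lit 4) (nat_lit 66796)
  (nat_lit 8) (node (nat_lit 6) (nat_lit 64985) (nat_lit 9) (node (nat_lit 4) (nat_lit 64437)
  (nat_lit 10) (node (nat_lit 5) (nat_lit 62115) (nat_lit 11) (node (nat_lit 6) (nat_lit 61137)
  (nat_lit 12) nil nil) nil) (node (nat_lit 5) (nat_lit 63520) (nat_lit 10) (node (nat_lit 6)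
  (nat_lit 61830) (nat_lit 11) nil nil) nil)) (node (nat_lit 7) (nat_lit 73057) (nat_lit 9) nil
  (node (nat_lit 0) (nat_lit 71402) (nat_lit 9) nil nil))) (node (nat_lit 7) (nat_lit 73111)
  (nat_lit 8) nil (node (nat_lit 0) (nat_lit 73949) (nat_lit 8) nil nil)))) (node (nat_lit 6)
  (nat_lit 60121) (nat_lit 7) (node (nat_lit 7) (nat_lit 73833) (nat_lit 8) (node (nat_lit 4)
  (nat_lit 73658) (nat_lit 9) (node (nat_lit 7) (nat_lit 75884) (nat_lit 10) (node (nat_lit 6)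
  (nat_lit 75884) (nat_lit 11) (node (nat_lit 4) (nat_lit 75884) (nat_lit 12) nil nil) nil) (node
  (nat_lit 6) (nat_lit 73658) (nat_lit 10) nil nil)) nil) (node (nat_lit 5) (nat_lit 65968)
  (nat_lit 8) (node (nat_lit 6) (nat_lit 63707) (nat_lit 9) (node (nat_lit 4) (nat_lit 63412)
  (nat_lit 10) (node (nat_lit 5) (nat_lit 59509) (nat_lit 11) (node (nat_lit 6) (nat_lit 53586)
  (nat_lit 12) nil nil) nil) nil) (node (nat_lit 7) (nat_lit 70574) (nat_lit 9) nil (node (nat_lit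
  4) (nat_lit 65755) (nat_lit 9) nil nil))) (node (nat_lit 0) (nat_lit 72759) (nat_lit 8) nil
  nil))) (node (nat_lit 7) (nat_lit 71986) (nat_lit 7) (node (nat_lit 4) (nat_lit 72489) (nat_lit
  8) (node (nat_lit 6) (nat_lit 72865) (nat_lit 9) (node (nat_lit 7) (nat_lit 75388) (nat_lit 10)
  (node (nat_lit 4) (nat_lit 75388) (nat_lit 11) nil nil) (node (nat_lit 4) (nat_lit 72865)
  (nat_lit 10) nil nil)) nil) (node (nat_lit 6) (nat_lit 72489) (nat_lit 8) (node (nat_lit 7)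
  (nat_lit 74668) (nat_lit 9) nil nil) (node (nat_lit 5) (nat_lit 71267) (nat_lit 8) (node
  (nat_lit 7) (nat_lit 72546) (nat_lit 9) nil nil) (node (nat_lit 0) (nat_lit 72771) (nat_lit 8)
  nil nil)))) (node (nat_lit 0) (nat_lit 72218) (nat_lit 7) (node (nat_lit 0) (nat_lit 73004)
  (nat_lit 8) nil (node (nat_lit 4) (nat_lit 72218) (nat_lit 8) nil (node (nat_lit 6) (nat_lit
  72218) (nat_lit 8) nil (node (nat_lit 7) (nat_lit 73004) (nat_lit 8) nil nil)))) nil)))) (node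
  (nat_lit 0) (nat_lit 68368) (nat_lit 6) (node (nat_lit 7) (nat_lit 72131) (nat_lit 7) (node
  (nat_lit 6) (nat_lit 72036) (nat_lit 8) (node (nat_lit 7) (nat_lit 74920) (nat_lit 9) (node
  (nat_lit 9) (nat_lit 75093) (nat_lit 10) nil nil) (node (nat_lit 0) (nat_lit 73769) (nat_lit 9)
  nil (node (nat_lit 5) (nat_lit 72036) (nat_lit 9) nil (node (nat_lit 4) (nat_lit 72036) (nat_lit
  9) nil nil)))) (node (nat_lit 9) (nat_lit 74042) (nat_lit 8) nil nil)) (node (nat_lit 6)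
  (nat_lit 67674) (nat_lit 7) (node (nat_lit 5) (nat_lit 67674) (nat_lit 8) nil (node (nat_lit 7)
  (nat_lit 72775) (nat_lit 8) (node (nat_lit 9) (nat_lit 73269) (nat_lit 9) nil nil) (node
  (nat_lit 4) (nat_lit 67674) (nat_lit 8) nil (node (nat_lit 0) (nat_lit 71541) (nat_lit 8) nil
  nil)))) (node (nat_lit 5) (nat_lit 67479) (nat_lit 7) (node (nat_lit 6) (nat_lit 67402) (nat_lit
  8) nil (node (nat_lit 7) (nat_lit 72581) (nat_lit 8) nil (node (nat_lit 9) (nat_lit 71346)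
  (nat_lit 8) nil (node (nat_lit 4) (nat_lit 67479) (nat_lit 8) nil (node (nat_lit 0) (nat_lit
  69399) (nat_lit 8) nil nil))))) (node (nat_lit 4) (nat_lit 68187) (nat_lit 7) (node (nat_lit 6)
  (nat_lit 68187) (nat_lit 8) nil (node (nat_lit 9) (nat_lit 70106) (nat_lit 8) nil (node (nat_lit
  7) (nat_lit 70106) (nat_lit 8) nil nil))) (node (nat_lit 0) (nat_lit 72131) (nat_lit 7) nil
  nil))))) nil))) (node (nat_lit 5) (nat_lit 0) (nat_lit 5) (node (nat_lit 7) (nat_lit 68782)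
  (nat_lit 6) (node (nat_lit 6) (nat_lit 69558) (nat_lit 7) (node (nat_lit 7) (nat_lit 75131)
  (nat_lit 8) (node (nat_lit 5) (nat_lit 74850) (nat_lit 9) (node (nat_lit 6) (nat_lit 75050)
  (nat_lit 10) (node (nat_lit 5) (nat_lit 75039) (nat_lit 11) (node (nat_lit 7) (nat_lit 75884)
  (nat_lit 12) nil (node (nat_lit 4) (nat_lit 74595) (nat_lit 12) nil nil)) (node (nat_lit 7)
  (nat_lit 75884) (nat_lit 11) (node (nat_lit 6) (nat_lit 75884) (nat_lit 12) nil nil) (node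
  (nat_lit 4) (nat_lit 74469) (nat_lit 11) nil (node (nat_lit 0) (nat_lit 75820) (nat_lit 11) nil
  nil)))) (node (nat_lit 4) (nat_lit 74592) (nat_lit 10) nil (node (nat_lit 0) (nat_lit 75468)
  (nat_lit 10) nil nil))) nil) (node (nat_lit 5) (nat_lit 70417) (nat_lit 8) (node (nat_lit 6)
  (nat_lit 70828) (nat_lit 9) nil nil) nil)) nil) (node (nat_lit 6) (nat_lit 54041) (nat_lit 6)
  (node (nat_lit 5) (nat_lit 60948) (nat_lit 7) (node (nat_lit 7) (nat_lit 73586) (nat_lit 8)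
  (node (nat_lit 6) (nat_lit 73586) (nat_lit 9) nil nil) (node (nat_lit 4) (nat_lit 64539)
  (nat_lit 8) (node (nat_lit 6) (nat_lit 64644) (nat_lit 9) (node (nat_lit 4) (nat_lit 63715)
  (nat_lit 10) nil nil) nil) (node (nat_lit 0) (nat_lit 68679) (nat_lit 8) nil nil))) (node
  (nat_lit 4) (nat_lit 59214) (nat_lit 7) (node (nat_lit 5) (nat_lit 61291) (nat_lit 8) nil (node
  (nat_lit 6) (nat_lit 59794) (nat_lit 8) nil nil)) (node (nat_lit 0) (nat_lit 67270) (nat_lit 7)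
  nil nil))) (node (nat_lit 4) (nat_lit 55175) (nat_lit 6) (node (nat_lit 6) (nat_lit 60388)
  (nat_lit 7) (node (nat_lit 5) (nat_lit 66157) (nat_lit 8) (node (nat_lit 6) (nat_lit 64889)
  (nat_lit 9) (node (nat_lit 4) (nat_lit 63906) (nat_lit 10) (node (nat_lit 5) (nat_lit 60396)
  (nat_lit 11) nil nil) nil) (node (nat_lit 4) (nat_lit 68350) (nat_lit 9) nil nil)) (node
  (nat_lit 4) (nat_lit 65696) (nat_lit 8) (node (nat_lit 5) (nat_lit 67889) (nat_lit 9) nil nil)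
  nil)) (node (nat_lit 5) (nat_lit 60375) (nat_lit 7) (node (nat_lit 6) (nat_lit 65514) (nat_lit
  8) (node (nat_lit 5) (nat_lit 64895) (nat_lit 9) (node (nat_lit 4) (nat_lit 62199) (nat_lit 10)
  nil nil) nil) nil) (node (nat_lit 7) (nat_lit 70775) (nat_lit 7) nil (node (nat_lit 0) (nat_lit
  66232) (nat_lit 7) nil nil)))) (node (nat_lit 0) (nat_lit 68481) (nat_lit 6) (node (nat_lit 0)
  (nat_lit 69615) (nat_lit 7) nil (node (nat_lit 7) (nat_lit 69615) (nat_lit 7) nil (node (nat_lit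
  6) (nat_lit 68481) (nat_lit 7) nil nil))) nil)))) (node (nat_lit 4) (nat_lit 0) (nat_lit 5)
  (node (nat_lit 6) (nat_lit 0) (nat_lit 6) (node (nat_lit 4) (nat_lit 59983) (nat_lit 7) (node
  (nat_lit 7) (nat_lit 73116) (nat_lit 8) (node (nat_lit 6) (nat_lit 73116) (nat_lit 9) nil nil)
  (node (nat_lit 5) (nat_lit 63601) (nat_lit 8) nil nil)) (node (nat_lit 5) (nat_lit 59935)
  (nat_lit 7) (node (nat_lit 4) (nat_lit 61298) (nat_lit 8) nil (node (nat_lit 6) (nat_lit 63553)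
  (nat_lit 8) nil nil)) (node (nat_lit 0) (nat_lit 69696) (nat_lit 7) nil (node (nat_lit 7)
  (nat_lit 61039) (nat_lit 7) nil nil)))) (node (nat_lit 5) (nat_lit 54245) (nat_lit 6) (node
  (nat_lit 6) (nat_lit 57747) (nat_lit 7) (node (nat_lit 4) (nat_lit 61365) (nat_lit 8) nil (node
  (nat_lit 5) (nat_lit 61365) (nat_lit 8) nil nil)) (node (nat_lit 4) (nat_lit 57160) (nat_lit 7)
  (node (nat_lit 6) (nat_lit 57672) (nat_lit 8) nil nil) (node (nat_lit 7) (nat_lit 67474)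
  (nat_lit 7) nil (node (nat_lit 0) (nat_lit 61190) (nat_lit 7) nil nil)))) (node (nat_lit 7)
  (nat_lit 67474) (nat_lit 6) (node (nat_lit 6) (nat_lit 67839) (nat_lit 7) (node (nat_lit 7)
  (nat_lit 73404) (nat_lit 8) (node (nat_lit 4) (nat_lit 73404) (nat_lit 9) (node (nat_lit 6)
  (nat_lit 73404) (nat_lit 10) nil nil) nil) nil) nil) (node (nat_lit 0) (nat_lit 65149) (nat_lit
  6) nil nil)))) (node (nat_lit 0) (nat_lit 0) (nat_lit 5) (node (nat_lit 6) (nat_lit 60200)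
  (nat_lit 6) (node (nat_lit 7) (nat_lit 71648) (nat_lit 7) (node (nat_lit 6) (nat_lit 71827)
  (nat_lit 8) (node (nat_lit 8) (nat_lit 74266) (nat_lit 9) nil nil) (node (nat_lit 5) (nat_lit
  71648) (nat_lit 8) nil (node (nat_lit 0) (nat_lit 72434) (nat_lit 8) nil nil))) (node (nat_lit
  5) (nat_lit 61668) (nat_lit 7) nil (node (nat_lit 8) (nat_lit 70202) (nat_lit 7) (node (nat_lit
  7) (nat_lit 70988) (nat_lit 8) nil nil) (node (nat_lit 0) (nat_lit 66448) (nat_lit 7) nil (node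
  (nat_lit 4) (nat_lit 60200) (nat_lit 7) nil nil))))) (node (nat_lit 7) (nat_lit 68544) (nat_lit
  6) (node (nat_lit 6) (nat_lit 68903) (nat_lit 7) (node (nat_lit 7) (nat_lit 74005) (nat_lit 8)
  (node (nat_lit 8) (nat_lit 74499) (nat_lit 9) nil nil) (node (nat_lit 8) (nat_lit 70823)
  (nat_lit 8) nil nil)) nil) (node (nat_lit 5) (nat_lit 59299) (nat_lit 6) (node (nat_lit 7)
  (nat_lit 62626) (nat_lit 7) nil (node (nat_lit 8) (nat_lit 62626) (nat_lit 7) nil nil)) (node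
  (nat_lit 4) (nat_lit 59932) (nat_lit 6) nil (node (nat_lit 0) (nat_lit 67127) (nat_lit 6) nil
  nil))))) nil)))) (node (nat_lit 4) (nat_lit 0) (nat_lit 4) (node (nat_lit 0) (nat_lit 0)
  (nat_lit 5) (node (nat_lit 6) (nat_lit 0) (nat_lit 6) (node (nat_lit 4) (nat_lit 40192) (nat_lit
  7) (node (nat_lit 6) (nat_lit 43850) (nat_lit 8) (node (nat_lit 8) (nat_lit 52272) (nat_lit 9)
  (node (nat_lit 6) (nat_lit 52272) (nat_lit 10) nil nil) (node (nat_lit 5) (nat_lit 47716)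
  (nat_lit 9) (node (nat_lit 8) (nat_lit 50504) (nat_lit 10) nil (node (nat_lit 4) (nat_lit 47193)
  (nat_lit 10) nil (node (nat_lit 0) (nat_lit 50504) (nat_lit 10) nil nil))) (node (nat_lit 0)
  (nat_lit 51816) (nat_lit 9) nil nil))) (node (nat_lit 5) (nat_lit 43808) (nat_lit 8) (node
  (nat_lit 6) (nat_lit 47122) (nat_lit 9) (node (nat_lit 4) (nat_lit 48256) (nat_lit 10) (node
  (nat_lit 8) (nat_lit 22985) (nat_lit 11) nil nil) (node (nat_lit 8) (nat_lit 49911) (nat_lit 10)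
  nil (node (nat_lit 5) (nat_lit 44867) (nat_lit 10) nil nil))) (node (nat_lit 8) (nat_lit 52072)
  (nat_lit 9) nil (node (nat_lit 4) (nat_lit 47639) (nat_lit 9) (node (nat_lit 8) (nat_lit 50428)
  (nat_lit 10) nil (node (nat_lit 6) (nat_lit 43812) (nat_lit 10) nil nil)) (node (nat_lit 0)
  (nat_lit 49992) (nat_lit 9) nil nil)))) (node (nat_lit 0) (nat_lit 50373) (nat_lit 8) nil nil)))
  (node (nat_lit 5) (nat_lit 38514) (nat_lit 7) (node (nat_lit 8) (nat_lit 42627) (nat_lit 8) nil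
  nil) (node (nat_lit 8) (nat_lit 44147) (nat_lit 7) nil (node (nat_lit 0) (nat_lit 41774)
  (nat_lit 7) nil nil)))) (node (nat_lit 5) (nat_lit 37284) (nat_lit 6) (node (nat_lit 4) (nat_lit
  40595) (nat_lit 7) (node (nat_lit 6) (nat_lit 43462) (nat_lit 8) (node (nat_lit 5) (nat_lit
  45656) (nat_lit 9) nil nil) (node (nat_lit 5) (nat_lit 43882) (nat_lit 8) (node (nat_lit 6)
  (nat_lit 43881) (nat_lit 9) nil (node (nat_lit 8) (nat_lit 48489) (nat_lit 9) nil nil)) (node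
  (nat_lit 0) (nat_lit 44708) (nat_lit 8) nil nil))) (node (nat_lit 6) (nat_lit 37486) (nat_lit 7)
  nil (node (nat_lit 8) (nat_lit 42616) (nat_lit 7) nil nil))) (node (nat_lit 4) (nat_lit 0)
  (nat_lit 6) (node (nat_lit 6) (nat_lit 39705) (nat_lit 7) (node (nat_lit 8) (nat_lit 50307)
  (nat_lit 8) (node (nat_lit 6) (nat_lit 50307) (nat_lit 9) (node (nat_lit 4) (nat_lit 50307)
  (nat_lit 10) nil nil) nil) nil) (node (nat_lit 5) (nat_lit 36871) (nat_lit 7) nil (node (nat_lit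
  0) (nat_lit 39437) (nat_lit 7) nil nil))) (node (nat_lit 0) (nat_lit 42084) (nat_lit 6) nil
  nil)))) (node (nat_lit 6) (nat_lit 0) (nat_lit 5) (node (nat_lit 0) (nat_lit 0) (nat_lit 6)
  (node (nat_lit 5) (nat_lit 22861) (nat_lit 7) (node (nat_lit 4) (nat_lit 23806) (nat_lit 8)
  (node (nat_lit 5) (nat_lit 24370) (nat_lit 9) nil (node (nat_lit 6) (nat_lit 24370) (nat_lit 9)
  nil (node (nat_lit 9) (nat_lit 26309) (nat_lit 9) nil (node (nat_lit 0) (nat_lit 26309) (nat_lit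
  9) nil nil)))) nil) (node (nat_lit 4) (nat_lit 22132) (nat_lit 7) (node (nat_lit 6) (nat_lit
  22132) (nat_lit 8) nil nil) (node (nat_lit 6) (nat_lit 22273) (nat_lit 7) (node (nat_lit 4)
  (nat_lit 21786) (nat_lit 8) (node (nat_lit 9) (nat_lit 24289) (nat_lit 9) nil nil) nil) (node
  (nat_lit 0) (nat_lit 23808) (nat_lit 7) nil nil)))) nil) (node (nat_lit 5) (nat_lit 0) (nat_lit
  5) (node (nat_lit 0) (nat_lit 14076) (nat_lit 6) nil (node (nat_lit 4) (nat_lit 0) (nat_lit 6)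
  (node (nat_lit 0) (nat_lit 15859) (nat_lit 7) nil nil) nil)) nil))) (node (nat_lit 5) (nat_lit
  0) (nat_lit 4) (node (nat_lit 0) (nat_lit 0) (nat_lit 5) (node (nat_lit 6) (nat_lit 0) (nat_lit
  6) (node (nat_lit 5) (nat_lit 53572) (nat_lit 7) (node (nat_lit 6) (nat_lit 57319) (nat_lit 8)
  (node (nat_lit 8) (nat_lit 66278) (nat_lit 9) (node (nat_lit 6) (nat_lit 66278) (nat_lit 10)
  (node (nat_lit 5) (nat_lit 66278) (nat_lit 11) (node (nat_lit 8) (nat_lit 66739) (nat_lit 12)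
  nil nil) nil) (node (nat_lit 5) (nat_lit 66278) (nat_lit 10) nil nil)) (node (nat_lit 4)
  (nat_lit 61111) (nat_lit 9) (node (nat_lit 6) (nat_lit 61908) (nat_lit 10) nil (node (nat_lit 5)
  (nat_lit 61722) (nat_lit 10) nil (node (nat_lit 8) (nat_lit 63900) (nat_lit 10) nil (node
  (nat_lit 0) (nat_lit 63900) (nat_lit 10) nil nil)))) (node (nat_lit 0) (nat_lit 65951) (nat_lit
  9) nil nil))) (node (nat_lit 4) (nat_lit 57059) (nat_lit 8) (node (nat_lit 6) (nat_lit 61786)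
  (nat_lit 9) (node (nat_lit 8) (nat_lit 64575) (nat_lit 10) nil (node (nat_lit 4) (nat_lit 62920)
  (nat_lit 10) nil nil)) (node (nat_lit 5) (nat_lit 61873) (nat_lit 9) (node (nat_lit 6) (nat_lit
  61435) (nat_lit 10) nil nil) (node (nat_lit 8) (nat_lit 65951) (nat_lit 9) nil (node (nat_lit 0)
  (nat_lit 64373) (nat_lit 9) nil nil)))) (node (nat_lit 0) (nat_lit 65204) (nat_lit 8) nil nil)))
  (node (nat_lit 8) (nat_lit 62639) (nat_lit 7) (node (nat_lit 5) (nat_lit 62381) (nat_lit 8)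
  (node (nat_lit 8) (nat_lit 63661) (nat_lit 9) nil (node (nat_lit 6) (nat_lit 62381) (nat_lit 9)
  nil nil)) nil) (node (nat_lit 4) (nat_lit 50712) (nat_lit 7) (node (nat_lit 8) (nat_lit 59174)
  (nat_lit 8) nil (node (nat_lit 5) (nat_lit 50712) (nat_lit 8) nil nil)) (node (nat_lit 0)
  (nat_lit 60032) (nat_lit 7) nil nil)))) (node (nat_lit 4) (nat_lit 49684) (nat_lit 6) (node
  (nat_lit 5) (nat_lit 51709) (nat_lit 7) (node (nat_lit 6) (nat_lit 53848) (nat_lit 8) (node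
  (nat_lit 4) (nat_lit 56041) (nat_lit 9) nil nil) (node (nat_lit 4) (nat_lit 56041) (nat_lit 8)
  (node (nat_lit 6) (nat_lit 56040) (nat_lit 9) nil (node (nat_lit 8) (nat_lit 60648) (nat_lit 9)
  nil nil)) (node (nat_lit 0) (nat_lit 55822) (nat_lit 8) nil nil))) (node (nat_lit 6) (nat_lit
  50759) (nat_lit 7) nil (node (nat_lit 8) (nat_lit 56501) (nat_lit 7) nil (node (nat_lit 0)
  (nat_lit 53011) (nat_lit 7) nil nil)))) (node (nat_lit 5) (nat_lit 0) (nat_lit 6) (node (nat_lit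
  6) (nat_lit 52040) (nat_lit 7) (node (nat_lit 8) (nat_lit 64639) (nat_lit 8) (node (nat_lit 6)
  (nat_lit 64639) (nat_lit 9) (node (nat_lit 5) (nat_lit 64639) (nat_lit 10) (node (nat_lit 8)
  (nat_lit 65839) (nat_lit 11) nil nil) nil) nil) (node (nat_lit 0) (nat_lit 56153) (nat_lit 8)
  nil (node (nat_lit 4) (nat_lit 52040) (nat_lit 8) nil nil))) (node (nat_lit 4) (nat_lit 51855)
  (nat_lit 7) nil (node (nat_lit 0) (nat_lit 58449) (nat_lit 7) nil nil))) (node (nat_lit 0)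
  (nat_lit 56248) (nat_lit 6) (node (nat_lit 5) (nat_lit 56248) (nat_lit 7) nil nil) nil)))) (node
  (nat_lit 4) (nat_lit 0) (nat_lit 5) (node (nat_lit 0) (nat_lit 39377) (nat_lit 6) (node (nat_lit
  4) (nat_lit 39377) (nat_lit 7) nil (node (nat_lit 5) (nat_lit 39377) (nat_lit 7) nil (node
  (nat_lit 6) (nat_lit 39377) (nat_lit 7) nil nil))) (node (nat_lit 5) (nat_lit 0) (nat_lit 6)
  (node (nat_lit 6) (nat_lit 0) (nat_lit 7) (node (nat_lit 4) (nat_lit 32088) (nat_lit 8) nil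
  (node (nat_lit 0) (nat_lit 40797) (nat_lit 8) nil nil)) (node (nat_lit 0) (nat_lit 41915)
  (nat_lit 7) nil nil)) (node (nat_lit 6) (nat_lit 0) (nat_lit 6) (node (nat_lit 0) (nat_lit
  31781) (nat_lit 7) nil nil) nil))) nil)) nil)))

noncomputable def t394 : Tr :=
  (node (nat_lit 0) (nat_lit 0) (nat_lit 3) (node (nat_lit 3) (nat_lit 0) (nat_lit 4) (node
  (nat_lit 6) (nat_lit 0) (nat_lit 5) (node (nat_lit 5) (nat_lit 73790) (nat_lit 6) (node (nat_lit
  7) (nat_lit 76125) (nat_lit 7) (node (nat_lit 5) (nat_lit 79163) (nat_lit 8) (node (nat_lit 4)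
  (nat_lit 82900) (nat_lit 9) (node (nat_lit 7) (nat_lit 84374) (nat_lit 10) (node (nat_lit 4)
  (nat_lit 84290) (nat_lit 11) (node (nat_lit 5) (nat_lit 82481) (nat_lit 12) (node (nat_lit 6)
  (nat_lit 72180) (nat_lit 13) (node (nat_lit 7) (nat_lit 71988) (nat_lit 14) nil nil) nil) nil)
  (node (nat_lit 5) (nat_lit 85524) (nat_lit 11) (node (nat_lit 7) (nat_lit 86003) (nat_lit 12)
  (node (nat_lit 4) (nat_lit 86293) (nat_lit 13) nil nil) nil) (node (nat_lit 6) (nat_lit 86421)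
  (nat_lit 11) nil nil))) (node (nat_lit 5) (nat_lit 83631) (nat_lit 10) (node (nat_lit 7)
  (nat_lit 83070) (nat_lit 11) (node (nat_lit 4) (nat_lit 82910) (nat_lit 12) (node (nat_lit 5)
  (nat_lit 82149) (nat_lit 13) (node (nat_lit 6) (nat_lit 78301) (nat_lit 14) nil nil) nil) nil)
  nil) (node (nat_lit 6) (nat_lit 85776) (nat_lit 10) nil (node (nat_lit 0) (nat_lit 85776)
  (nat_lit 10) nil nil)))) (node (nat_lit 6) (nat_lit 85981) (nat_lit 9) (node (nat_lit 5)
  (nat_lit 85981) (nat_lit 10) nil (node (nat_lit 7) (nat_lit 85981) (nat_lit 10) nil (node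
  (nat_lit 4) (nat_lit 85981) (nat_lit 10) nil (node (nat_lit 0) (nat_lit 86368) (nat_lit 10) nil
  nil)))) (node (nat_lit 0) (nat_lit 85981) (nat_lit 9) (node (nat_lit 7) (nat_lit 85981) (nat_lit
  10) nil nil) nil))) (node (nat_lit 4) (nat_lit 79049) (nat_lit 8) (node (nat_lit 5) (nat_lit
  82707) (nat_lit 9) (node (nat_lit 4) (nat_lit 84138) (nat_lit 10) (node (nat_lit 7) (nat_lit
  83978) (nat_lit 11) (node (nat_lit 4) (nat_lit 84094) (nat_lit 12) nil nil) nil) (node (nat_lit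
  7) (nat_lit 83890) (nat_lit 10) (node (nat_lit 5) (nat_lit 82519) (nat_lit 11) (node (nat_lit 4)
  (nat_lit 81542) (nat_lit 12) nil nil) nil) nil)) (node (nat_lit 7) (nat_lit 82929) (nat_lit 9)
  (node (nat_lit 5) (nat_lit 83867) (nat_lit 10) (node (nat_lit 4) (nat_lit 83206) (nat_lit 11)
  (node (nat_lit 7) (nat_lit 81896) (nat_lit 12) nil (node (nat_lit 5) (nat_lit 80519) (nat_lit
  12) nil nil)) (node (nat_lit 7) (nat_lit 84456) (nat_lit 11) (node (nat_lit 4) (nat_lit 84521)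
  (nat_lit 12) (node (nat_lit 5) (nat_lit 83507) (nat_lit 13) nil nil) nil) nil)) (node (nat_lit
  6) (nat_lit 85804) (nat_lit 10) nil (node (nat_lit 0) (nat_lit 85804) (nat_lit 10) nil nil)))
  (node (nat_lit 6) (nat_lit 85893) (nat_lit 9) nil (node (nat_lit 0) (nat_lit 85893) (nat_lit 9)
  nil nil)))) (node (nat_lit 0) (nat_lit 84943) (nat_lit 8) (node (nat_lit 7) (nat_lit 84943)
  (nat_lit 9) nil (node (nat_lit 4) (nat_lit 84943) (nat_lit 9) nil (node (nat_lit 5) (nat_lit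
  84943) (nat_lit 9) nil (node (nat_lit 6) (nat_lit 85452) (nat_lit 9) nil (node (nat_lit 0)
  (nat_lit 85452) (nat_lit 9) nil nil))))) (node (nat_lit 6) (nat_lit 82408) (nat_lit 8) nil
  nil)))) (node (nat_lit 6) (nat_lit 83330) (nat_lit 7) (node (nat_lit 7) (nat_lit 83199) (nat_lit
  8) (node (nat_lit 5) (nat_lit 83258) (nat_lit 9) (node (nat_lit 7) (nat_lit 83258) (nat_lit 10)
  nil (node (nat_lit 4) (nat_lit 82815) (nat_lit 10) nil (node (nat_lit 6) (nat_lit 84965)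
  (nat_lit 10) nil nil))) (node (nat_lit 4) (nat_lit 82853) (nat_lit 9) (node (nat_lit 7) (nat_lit
  82853) (nat_lit 10) nil (node (nat_lit 5) (nat_lit 82853) (nat_lit 10) nil nil)) (node (nat_lit
  0) (nat_lit 84518) (nat_lit 9) nil nil))) (node (nat_lit 4) (nat_lit 83218) (nat_lit 8) (node
  (nat_lit 5) (nat_lit 83518) (nat_lit 9) (node (nat_lit 4) (nat_lit 83518) (nat_lit 10) nil nil)
  (node (nat_lit 7) (nat_lit 83218) (nat_lit 9) nil (node (nat_lit 6) (nat_lit 84537) (nat_lit 9)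
  nil (node (nat_lit 0) (nat_lit 84537) (nat_lit 9) nil nil)))) (node (nat_lit 0) (nat_lit 85193)
  (nat_lit 8) nil nil))) (node (nat_lit 4) (nat_lit 75979) (nat_lit 7) (node (nat_lit 7) (nat_lit
  78977) (nat_lit 8) (node (nat_lit 5) (nat_lit 81133) (nat_lit 9) (node (nat_lit 7) (nat_lit
  81740) (nat_lit 10) (node (nat_lit 4) (nat_lit 82003) (nat_lit 11) (node (nat_lit 5) (nat_lit
  79945) (nat_lit 12) nil nil) nil) (node (nat_lit 4) (nat_lit 82303) (nat_lit 10) nil nil)) (node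
  (nat_lit 4) (nat_lit 82391) (nat_lit 9) nil (node (nat_lit 0) (nat_lit 83356) (nat_lit 9) nil
  (node (nat_lit 6) (nat_lit 83356) (nat_lit 9) nil nil)))) (node (nat_lit 5) (nat_lit 78666)
  (nat_lit 8) (node (nat_lit 7) (nat_lit 81921) (nat_lit 9) (node (nat_lit 5) (nat_lit 79496)
  (nat_lit 10) nil nil) (node (nat_lit 6) (nat_lit 83046) (nat_lit 9) nil (node (nat_lit 0)
  (nat_lit 83046) (nat_lit 9) nil nil))) (node (nat_lit 6) (nat_lit 85044) (nat_lit 8) nil (node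
  (nat_lit 0) (nat_lit 83523) (nat_lit 8) nil nil)))) (node (nat_lit 0) (nat_lit 83039) (nat_lit
  7) (node (nat_lit 5) (nat_lit 83039) (nat_lit 8) nil (node (nat_lit 4) (nat_lit 83039) (nat_lit
  8) nil (node (nat_lit 7) (nat_lit 83039) (nat_lit 8) nil (node (nat_lit 6) (nat_lit 83849)
  (nat_lit 8) nil (node (nat_lit 0) (nat_lit 83849) (nat_lit 8) nil nil))))) nil)))) (node
  (nat_lit 4) (nat_lit 74673) (nat_lit 6) (node (nat_lit 7) (nat_lit 76979) (nat_lit 7) (node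
  (nat_lit 4) (nat_lit 80428) (nat_lit 8) (node (nat_lit 6) (nat_lit 86361) (nat_lit 9) (node
  (nat_lit 4) (nat_lit 86361) (nat_lit 10) (node (nat_lit 7) (nat_lit 86361) (nat_lit 11) nil nil)
  nil) (node (nat_lit 5) (nat_lit 83212) (nat_lit 9) (node (nat_lit 7) (nat_lit 84665) (nat_lit
  10) nil (node (nat_lit 4) (nat_lit 84194) (nat_lit 10) (node (nat_lit 7) (nat_lit 81357)
  (nat_lit 11) nil nil) (node (nat_lit 0) (nat_lit 86087) (nat_lit 10) nil nil))) (node (nat_lit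
  0) (nat_lit 86361) (nat_lit 9) nil nil))) (node (nat_lit 5) (nat_lit 80311) (nat_lit 8) (node
  (nat_lit 4) (nat_lit 83003) (nat_lit 9) (node (nat_lit 5) (nat_lit 83943) (nat_lit 10) (node
  (nat_lit 7) (nat_lit 82121) (nat_lit 11) nil nil) (node (nat_lit 7) (nat_lit 82797) (nat_lit 10)
  (node (nat_lit 4) (nat_lit 80798) (nat_lit 11) (node (nat_lit 5) (nat_lit 78990) (nat_lit 12)
  nil nil) nil) (node (nat_lit 6) (nat_lit 85879) (nat_lit 10) nil nil))) (node (nat_lit 7)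
  (nat_lit 83520) (nat_lit 9) (node (nat_lit 4) (nat_lit 84815) (nat_lit 10) (node (nat_lit 7)
  (nat_lit 84453) (nat_lit 11) nil nil) nil) (node (nat_lit 0) (nat_lit 84690) (nat_lit 9) nil
  (node (nat_lit 6) (nat_lit 84690) (nat_lit 9) nil nil)))) (node (nat_lit 0) (nat_lit 84923)
  (nat_lit 8) nil (node (nat_lit 6) (nat_lit 80849) (nat_lit 8) nil nil)))) (node (nat_lit 5)
  (nat_lit 77177) (nat_lit 7) (node (nat_lit 4) (nat_lit 79613) (nat_lit 8) (node (nat_lit 6)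
  (nat_lit 83992) (nat_lit 9) nil nil) (node (nat_lit 7) (nat_lit 79136) (nat_lit 8) (node
  (nat_lit 4) (nat_lit 81027) (nat_lit 9) nil nil) nil)) (node (nat_lit 6) (nat_lit 82947)
  (nat_lit 7) (node (nat_lit 5) (nat_lit 82947) (nat_lit 8) nil nil) (node (nat_lit 0) (nat_lit
  83667) (nat_lit 7) nil nil)))) (node (nat_lit 0) (nat_lit 79509) (nat_lit 6) (node (nat_lit 7)
  (nat_lit 78719) (nat_lit 7) (node (nat_lit 9) (nat_lit 80698) (nat_lit 8) nil nil) (node
  (nat_lit 5) (nat_lit 79509) (nat_lit 7) nil (node (nat_lit 4) (nat_lit 79509) (nat_lit 7) nil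
  (node (nat_lit 6) (nat_lit 82142) (nat_lit 7) nil (node (nat_lit 0) (nat_lit 81874) (nat_lit 7)
  nil nil))))) nil))) (node (nat_lit 5) (nat_lit 0) (nat_lit 5) (node (nat_lit 7) (nat_lit 62324)
  (nat_lit 6) (node (nat_lit 4) (nat_lit 72633) (nat_lit 7) (node (nat_lit 5) (nat_lit 78461)
  (nat_lit 8) (node (nat_lit 4) (nat_lit 81133) (nat_lit 9) (node (nat_lit 7) (nat_lit 81016)
  (nat_lit 10) (node (nat_lit 4) (nat_lit 79580) (nat_lit 11) nil (node (nat_lit 5) (nat_lit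
  77994) (nat_lit 11) nil nil)) nil) (node (nat_lit 6) (nat_lit 62727) (nat_lit 9) (node (nat_lit
  7) (nat_lit 54511) (nat_lit 10) (node (nat_lit 5) (nat_lit 27799) (nat_lit 11) nil nil) nil)
  (node (nat_lit 7) (nat_lit 78944) (nat_lit 9) nil nil))) (node (nat_lit 7) (nat_lit 78047)
  (nat_lit 8) (node (nat_lit 5) (nat_lit 76153) (nat_lit 9) (node (nat_lit 4) (nat_lit 73300)
  (nat_lit 10) nil nil) nil) (node (nat_lit 6) (nat_lit 79521) (nat_lit 8) nil (node (nat_lit 0)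
  (nat_lit 79521) (nat_lit 8) nil nil)))) (node (nat_lit 6) (nat_lit 82523) (nat_lit 7) (node
  (nat_lit 5) (nat_lit 82523) (nat_lit 8) nil (node (nat_lit 7) (nat_lit 82523) (nat_lit 8) nil
  nil)) (node (nat_lit 0) (nat_lit 78764) (nat_lit 7) nil nil))) (node (nat_lit 6) (nat_lit 0)
  (nat_lit 6) (node (nat_lit 5) (nat_lit 79380) (nat_lit 7) (node (nat_lit 7) (nat_lit 80619)
  (nat_lit 8) (node (nat_lit 5) (nat_lit 82595) (nat_lit 9) (node (nat_lit 4) (nat_lit 83929)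
  (nat_lit 10) (node (nat_lit 7) (nat_lit 84323) (nat_lit 11) (node (nat_lit 5) (nat_lit 83796)
  (nat_lit 12) nil nil) (node (nat_lit 5) (nat_lit 83721) (nat_lit 11) nil nil)) (node (nat_lit 0)
  (nat_lit 86480) (nat_lit 10) nil (node (nat_lit 6) (nat_lit 86480) (nat_lit 10) nil nil))) (node
  (nat_lit 6) (nat_lit 85388) (nat_lit 9) nil (node (nat_lit 4) (nat_lit 79975) (nat_lit 9) nil
  (node (nat_lit 0) (nat_lit 84724) (nat_lit 9) nil nil)))) (node (nat_lit 4) (nat_lit 79380)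
  (nat_lit 8) nil (node (nat_lit 0) (nat_lit 83307) (nat_lit 8) nil nil))) (node (nat_lit 4)
  (nat_lit 79580) (nat_lit 7) (node (nat_lit 7) (nat_lit 79849) (nat_lit 8) (node (nat_lit 5)
  (nat_lit 79874) (nat_lit 9) nil (node (nat_lit 4) (nat_lit 81046) (nat_lit 9) nil (node (nat_lit
  6) (nat_lit 82337) (nat_lit 9) nil nil))) nil) (node (nat_lit 0) (nat_lit 81113) (nat_lit 7) nil
  nil))) (node (nat_lit 4) (nat_lit 63309) (nat_lit 6) (node (nat_lit 7) (nat_lit 72411) (nat_lit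
  7) (node (nat_lit 5) (nat_lit 76633) (nat_lit 8) (node (nat_lit 7) (nat_lit 77866) (nat_lit 9)
  (node (nat_lit 4) (nat_lit 77098) (nat_lit 10) (node (nat_lit 5) (nat_lit 73775) (nat_lit 11)
  nil nil) nil) nil) (node (nat_lit 4) (nat_lit 77648) (nat_lit 8) (node (nat_lit 5) (nat_lit
  79539) (nat_lit 9) nil nil) nil)) (node (nat_lit 5) (nat_lit 70638) (nat_lit 7) (node (nat_lit
  7) (nat_lit 74030) (nat_lit 8) (node (nat_lit 5) (nat_lit 72816) (nat_lit 9) (node (nat_lit 4)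
  (nat_lit 69993) (nat_lit 10) nil nil) (node (nat_lit 4) (nat_lit 71466) (nat_lit 9) (node
  (nat_lit 5) (nat_lit 72385) (nat_lit 10) nil nil) nil)) (node (nat_lit 6) (nat_lit 51995)
  (nat_lit 8) nil nil)) (node (nat_lit 6) (nat_lit 79749) (nat_lit 7) nil (node (nat_lit 0)
  (nat_lit 73466) (nat_lit 7) nil nil)))) (node (nat_lit 0) (nat_lit 78302) (nat_lit 6) nil
  nil)))) (node (nat_lit 4) (nat_lit 0) (nat_lit 5) (node (nat_lit 5) (nat_lit 63543) (nat_lit 6)
  (node (nat_lit 7) (nat_lit 69777) (nat_lit 7) (node (nat_lit 4) (nat_lit 73423) (nat_lit 8)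
  (node (nat_lit 7) (nat_lit 75459) (nat_lit 9) (node (nat_lit 5) (nat_lit 73875) (nat_lit 10)
  (node (nat_lit 4) (nat_lit 72076) (nat_lit 11) (node (nat_lit 5) (nat_lit 69201) (nat_lit 12)
  nil nil) (node (nat_lit 7) (nat_lit 74028) (nat_lit 11) nil nil)) nil) nil) (node (nat_lit 5)
  (nat_lit 69453) (nat_lit 8) (node (nat_lit 4) (nat_lit 67714) (nat_lit 9) (node (nat_lit 5)
  (nat_lit 67502) (nat_lit 10) (node (nat_lit 6) (nat_lit 70367) (nat_lit 11) nil nil) nil) nil)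
  nil)) (node (nat_lit 4) (nat_lit 69368) (nat_lit 7) (node (nat_lit 7) (nat_lit 72901) (nat_lit
  8) (node (nat_lit 5) (nat_lit 73809) (nat_lit 9) (node (nat_lit 7) (nat_lit 74673) (nat_lit 10)
  (node (nat_lit 4) (nat_lit 74714) (nat_lit 11) nil nil) nil) (node (nat_lit 4) (nat_lit 69716)
  (nat_lit 9) (node (nat_lit 5) (nat_lit 71299) (nat_lit 10) (node (nat_lit 6) (nat_lit 74738)
  (nat_lit 11) nil nil) nil) nil)) (node (nat_lit 6) (nat_lit 76256) (nat_lit 8) nil nil)) (node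
  (nat_lit 6) (nat_lit 26332) (nat_lit 7) nil (node (nat_lit 0) (nat_lit 73699) (nat_lit 7) nil
  nil)))) (node (nat_lit 6) (nat_lit 80038) (nat_lit 6) (node (nat_lit 4) (nat_lit 80574) (nat_lit
  7) (node (nat_lit 7) (nat_lit 81409) (nat_lit 8) (node (nat_lit 4) (nat_lit 82463) (nat_lit 9)
  (node (nat_lit 5) (nat_lit 83138) (nat_lit 10) (node (nat_lit 7) (nat_lit 82776) (nat_lit 11)
  nil nil) (node (nat_lit 0) (nat_lit 85338) (nat_lit 10) nil nil)) nil) nil) (node (nat_lit 5)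
  (nat_lit 79287) (nat_lit 7) (node (nat_lit 7) (nat_lit 79287) (nat_lit 8) nil nil) (node
  (nat_lit 7) (nat_lit 80574) (nat_lit 7) (node (nat_lit 6) (nat_lit 84501) (nat_lit 8) (node
  (nat_lit 4) (nat_lit 84501) (nat_lit 9) nil nil) nil) nil))) (node (nat_lit 7) (nat_lit 0)
  (nat_lit 6) (node (nat_lit 5) (nat_lit 72249) (nat_lit 7) (node (nat_lit 4) (nat_lit 78260)
  (nat_lit 8) (node (nat_lit 5) (nat_lit 79374) (nat_lit 9) (node (nat_lit 7) (nat_lit 78422)
  (nat_lit 10) nil nil) nil) (node (nat_lit 7) (nat_lit 73029) (nat_lit 8) (node (nat_lit 4)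
  (nat_lit 72549) (nat_lit 9) (node (nat_lit 5) (nat_lit 67639) (nat_lit 10) nil nil) nil) (node
  (nat_lit 6) (nat_lit 79137) (nat_lit 8) nil nil))) (node (nat_lit 6) (nat_lit 80438) (nat_lit 7)
  nil (node (nat_lit 0) (nat_lit 74154) (nat_lit 7) nil nil))) (node (nat_lit 0) (nat_lit 77880)
  (nat_lit 6) nil nil)))) (node (nat_lit 0) (nat_lit 0) (nat_lit 5) (node (nat_lit 5) (nat_lit
  71502) (nat_lit 6) (node (nat_lit 7) (nat_lit 71502) (nat_lit 7) nil (node (nat_lit 8) (nat_lit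
  74562) (nat_lit 7) nil (node (nat_lit 4) (nat_lit 71502) (nat_lit 7) nil nil))) (node (nat_lit
  7) (nat_lit 71720) (nat_lit 6) (node (nat_lit 5) (nat_lit 71720) (nat_lit 7) nil (node (nat_lit
  6) (nat_lit 74781) (nat_lit 7) nil (node (nat_lit 4) (nat_lit 71720) (nat_lit 7) nil nil)))
  (node (nat_lit 4) (nat_lit 73152) (nat_lit 6) (node (nat_lit 7) (nat_lit 73152) (nat_lit 7) nil
  nil) (node (nat_lit 6) (nat_lit 77551) (nat_lit 6) (node (nat_lit 7) (nat_lit 77551) (nat_lit 7)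
  nil nil) (node (nat_lit 0) (nat_lit 76427) (nat_lit 6) nil nil))))) nil)))) t392) (node (nat_lit
  3) (nat_lit 0) (nat_lit 3) t393 (node (nat_lit 4) (nat_lit 0) (nat_lit 3) (node (nat_lit 0)
  (nat_lit 0) (nat_lit 4) (node (nat_lit 4) (nat_lit 0) (nat_lit 5) (node (nat_lit 5) (nat_lit
  33920) (nat_lit 6) (node (nat_lit 7) (nat_lit 46108) (nat_lit 7) (node (nat_lit 4) (nat_lit
  46155) (nat_lit 8) (node (nat_lit 7) (nat_lit 46155) (nat_lit 9) (node (nat_lit 5) (nat_lit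
  46155) (nat_lit 10) (node (nat_lit 4) (nat_lit 46155) (nat_lit 11) (node (nat_lit 5) (nat_lit
  46155) (nat_lit 12) nil nil) (node (nat_lit 7) (nat_lit 46155) (nat_lit 11) nil nil)) (node
  (nat_lit 3) (nat_lit 46155) (nat_lit 10) nil (node (nat_lit 0) (nat_lit 46155) (nat_lit 10) nil
  nil))) (node (nat_lit 3) (nat_lit 46145) (nat_lit 9) (node (nat_lit 5) (nat_lit 46155) (nat_lit
  10) (node (nat_lit 12) (nat_lit 46155) (nat_lit 11) nil nil) (node (nat_lit 4) (nat_lit 46155)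
  (nat_lit 10) (node (nat_lit 5) (nat_lit 46155) (nat_lit 11) nil nil) (node (nat_lit 7) (nat_lit
  46155) (nat_lit 10) nil (node (nat_lit 0) (nat_lit 46155) (nat_lit 10) nil nil)))) (node
  (nat_lit 0) (nat_lit 46155) (nat_lit 9) (node (nat_lit 4) (nat_lit 46155) (nat_lit 10) nil nil)
  nil))) (node (nat_lit 5) (nat_lit 45801) (nat_lit 8) (node (nat_lit 4) (nat_lit 45998) (nat_lit
  9) (node (nat_lit 7) (nat_lit 46155) (nat_lit 10) nil nil) (node (nat_lit 3) (nat_lit 45801)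
  (nat_lit 9) nil nil)) (node (nat_lit 3) (nat_lit 46108) (nat_lit 8) nil (node (nat_lit 0)
  (nat_lit 46155) (nat_lit 8) nil nil)))) (node (nat_lit 3) (nat_lit 38559) (nat_lit 7) (node
  (nat_lit 4) (nat_lit 43031) (nat_lit 8) (node (nat_lit 5) (nat_lit 44189) (nat_lit 9) (node
  (nat_lit 4) (nat_lit 44493) (nat_lit 10) (node (nat_lit 7) (nat_lit 37195) (nat_lit 11) nil nil)
  nil) (node (nat_lit 10) (nat_lit 43758) (nat_lit 9) nil (node (nat_lit 0) (nat_lit 45459)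
  (nat_lit 9) nil (node (nat_lit 7) (nat_lit 45459) (nat_lit 9) nil nil)))) (node (nat_lit 5)
  (nat_lit 43570) (nat_lit 8) (node (nat_lit 4) (nat_lit 41991) (nat_lit 9) nil (node (nat_lit 7)
  (nat_lit 46155) (nat_lit 9) nil (node (nat_lit 0) (nat_lit 45998) (nat_lit 9) nil nil))) (node
  (nat_lit 7) (nat_lit 45229) (nat_lit 8) nil (node (nat_lit 0) (nat_lit 46155) (nat_lit 8) nil
  nil)))) (node (nat_lit 4) (nat_lit 38723) (nat_lit 7) (node (nat_lit 3) (nat_lit 42491) (nat_lit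
  8) nil (node (nat_lit 0) (nat_lit 42980) (nat_lit 8) nil nil)) (node (nat_lit 0) (nat_lit 45703)
  (nat_lit 7) (node (nat_lit 0) (nat_lit 46113) (nat_lit 8) nil (node (nat_lit 4) (nat_lit 45703)
  (nat_lit 8) nil (node (nat_lit 5) (nat_lit 45703) (nat_lit 8) nil nil))) nil)))) (node (nat_lit
  3) (nat_lit 34054) (nat_lit 6) (node (nat_lit 5) (nat_lit 38915) (nat_lit 7) (node (nat_lit 4)
  (nat_lit 42158) (nat_lit 8) (node (nat_lit 9) (nat_lit 40592) (nat_lit 9) (node (nat_lit 4)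
  (nat_lit 37528) (nat_lit 10) (node (nat_lit 5) (nat_lit 36455) (nat_lit 11) (node (nat_lit 4)
  (nat_lit 30019) (nat_lit 12) (node (nat_lit 7) (nat_lit 30671) (nat_lit 13) nil nil) nil) nil)
  nil) (node (nat_lit 5) (nat_lit 43891) (nat_lit 9) (node (nat_lit 9) (nat_lit 43102) (nat_lit
  10) (node (nat_lit 4) (nat_lit 42443) (nat_lit 11) nil nil) nil) (node (nat_lit 7) (nat_lit
  44586) (nat_lit 9) nil (node (nat_lit 0) (nat_lit 44586) (nat_lit 9) nil nil)))) (node (nat_lit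
  9) (nat_lit 43276) (nat_lit 8) (node (nat_lit 4) (nat_lit 45433) (nat_lit 9) (node (nat_lit 5)
  (nat_lit 45495) (nat_lit 10) (node (nat_lit 4) (nat_lit 45708) (nat_lit 11) (node (nat_lit 7)
  (nat_lit 25084) (nat_lit 12) nil nil) nil) nil) (node (nat_lit 7) (nat_lit 45704) (nat_lit 9)
  nil (node (nat_lit 0) (nat_lit 45704) (nat_lit 9) nil nil))) (node (nat_lit 7) (nat_lit 45585)
  (nat_lit 8) nil (node (nat_lit 0) (nat_lit 45585) (nat_lit 8) nil nil)))) (node (nat_lit 4)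
  (nat_lit 39043) (nat_lit 7) (node (nat_lit 7) (nat_lit 46155) (nat_lit 8) (node (nat_lit 9)
  (nat_lit 46155) (nat_lit 9) nil nil) (node (nat_lit 5) (nat_lit 42789) (nat_lit 8) (node
  (nat_lit 4) (nat_lit 42438) (nat_lit 9) (node (nat_lit 7) (nat_lit 30215) (nat_lit 10) nil nil)
  (node (nat_lit 7) (nat_lit 45217) (nat_lit 9) nil nil)) (node (nat_lit 0) (nat_lit 45714)
  (nat_lit 8) nil nil))) (node (nat_lit 7) (nat_lit 45803) (nat_lit 7) (node (nat_lit 9) (nat_lit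
  45803) (nat_lit 8) (node (nat_lit 4) (nat_lit 45803) (nat_lit 9) (node (nat_lit 7) (nat_lit
  46155) (nat_lit 10) nil nil) nil) (node (nat_lit 4) (nat_lit 45803) (nat_lit 8) (node (nat_lit
  7) (nat_lit 46155) (nat_lit 9) nil nil) (node (nat_lit 5) (nat_lit 45803) (nat_lit 8) nil (node
  (nat_lit 0) (nat_lit 46155) (nat_lit 8) nil nil)))) (node (nat_lit 0) (nat_lit 45367) (nat_lit
  7) (node (nat_lit 0) (nat_lit 45777) (nat_lit 8) nil (node (nat_lit 9) (nat_lit 45367) (nat_lit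
  8) nil (node (nat_lit 4) (nat_lit 45367) (nat_lit 8) nil nil))) nil)))) (node (nat_lit 0)
  (nat_lit 42866) (nat_lit 6) (node (nat_lit 7) (nat_lit 44793) (nat_lit 7) (node (nat_lit 4)
  (nat_lit 44356) (nat_lit 8) (node (nat_lit 7) (nat_lit 45660) (nat_lit 9) nil (node (nat_lit 0)
  (nat_lit 45024) (nat_lit 9) nil (node (nat_lit 5) (nat_lit 44356) (nat_lit 9) nil (node (nat_lit
  3) (nat_lit 44356) (nat_lit 9) nil nil)))) (node (nat_lit 9) (nat_lit 45667) (nat_lit 8) nil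
  nil)) (node (nat_lit 4) (nat_lit 43282) (nat_lit 7) (node (nat_lit 5) (nat_lit 43282) (nat_lit
  8) nil (node (nat_lit 7) (nat_lit 46155) (nat_lit 8) nil (node (nat_lit 3) (nat_lit 43282)
  (nat_lit 8) nil (node (nat_lit 0) (nat_lit 45563) (nat_lit 8) nil nil)))) (node (nat_lit 5)
  (nat_lit 43282) (nat_lit 7) (node (nat_lit 4) (nat_lit 43954) (nat_lit 8) nil (node (nat_lit 7)
  (nat_lit 45563) (nat_lit 8) nil (node (nat_lit 9) (nat_lit 45563) (nat_lit 8) nil nil))) (node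
  (nat_lit 3) (nat_lit 42866) (nat_lit 7) (node (nat_lit 9) (nat_lit 43867) (nat_lit 8) nil (node
  (nat_lit 4) (nat_lit 42866) (nat_lit 8) nil nil)) (node (nat_lit 0) (nat_lit 45408) (nat_lit 7)
  nil nil))))) nil))) (node (nat_lit 5) (nat_lit 0) (nat_lit 5) (node (nat_lit 7) (nat_lit 42593)
  (nat_lit 6) (node (nat_lit 4) (nat_lit 43201) (nat_lit 7) (node (nat_lit 7) (nat_lit 46155)
  (nat_lit 8) (node (nat_lit 5) (nat_lit 46155) (nat_lit 9) (node (nat_lit 4) (nat_lit 46155)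
  (nat_lit 10) (node (nat_lit 5) (nat_lit 46155) (nat_lit 11) (node (nat_lit 7) (nat_lit 46155)
  (nat_lit 12) nil (node (nat_lit 3) (nat_lit 46155) (nat_lit 12) nil nil)) (node (nat_lit 7)
  (nat_lit 46155) (nat_lit 11) nil (node (nat_lit 3) (nat_lit 46155) (nat_lit 11) nil nil))) (node
  (nat_lit 3) (nat_lit 46155) (nat_lit 10) nil (node (nat_lit 0) (nat_lit 46155) (nat_lit 10) nil
  nil))) nil) (node (nat_lit 5) (nat_lit 44163) (nat_lit 8) (node (nat_lit 4) (nat_lit 44163)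
  (nat_lit 9) nil nil) nil)) nil) (node (nat_lit 4) (nat_lit 33737) (nat_lit 6) (node (nat_lit 5)
  (nat_lit 38744) (nat_lit 7) (node (nat_lit 7) (nat_lit 46155) (nat_lit 8) (node (nat_lit 4)
  (nat_lit 46155) (nat_lit 9) nil nil) (node (nat_lit 3) (nat_lit 41965) (nat_lit 8) (node
  (nat_lit 4) (nat_lit 43134) (nat_lit 9) nil nil) nil)) (node (nat_lit 3) (nat_lit 38266)
  (nat_lit 7) (node (nat_lit 5) (nat_lit 38977) (nat_lit 8) nil (node (nat_lit 4) (nat_lit 40353)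
  (nat_lit 8) nil nil)) (node (nat_lit 0) (nat_lit 37585) (nat_lit 7) nil nil))) (node (nat_lit 3)
  (nat_lit 33001) (nat_lit 6) (node (nat_lit 4) (nat_lit 38075) (nat_lit 7) (node (nat_lit 5)
  (nat_lit 42196) (nat_lit 8) (node (nat_lit 4) (nat_lit 41058) (nat_lit 9) nil (node (nat_lit 9)
  (nat_lit 43365) (nat_lit 9) nil nil)) (node (nat_lit 9) (nat_lit 42013) (nat_lit 8) (node
  (nat_lit 5) (nat_lit 40876) (nat_lit 9) nil nil) nil)) (node (nat_lit 5) (nat_lit 37772)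
  (nat_lit 7) (node (nat_lit 4) (nat_lit 40869) (nat_lit 8) (node (nat_lit 5) (nat_lit 39732)
  (nat_lit 9) nil nil) nil) (node (nat_lit 7) (nat_lit 40960) (nat_lit 7) nil (node (nat_lit 0)
  (nat_lit 43333) (nat_lit 7) nil nil)))) (node (nat_lit 0) (nat_lit 42099) (nat_lit 6) (node
  (nat_lit 0) (nat_lit 42691) (nat_lit 7) nil nil) nil)))) (node (nat_lit 3) (nat_lit 0) (nat_lit
  5) (node (nat_lit 4) (nat_lit 32859) (nat_lit 6) (node (nat_lit 8) (nat_lit 37048) (nat_lit 7)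
  (node (nat_lit 7) (nat_lit 45628) (nat_lit 8) (node (nat_lit 4) (nat_lit 45628) (nat_lit 9) nil
  nil) nil) (node (nat_lit 5) (nat_lit 37904) (nat_lit 7) (node (nat_lit 8) (nat_lit 41125)
  (nat_lit 8) nil nil) (node (nat_lit 0) (nat_lit 40818) (nat_lit 7) nil nil))) (node (nat_lit 5)
  (nat_lit 32704) (nat_lit 6) (node (nat_lit 4) (nat_lit 36658) (nat_lit 7) (node (nat_lit 8)
  (nat_lit 38222) (nat_lit 8) nil nil) (node (nat_lit 8) (nat_lit 36411) (nat_lit 7) nil (node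
  (nat_lit 7) (nat_lit 40664) (nat_lit 7) nil nil))) (node (nat_lit 7) (nat_lit 41594) (nat_lit 6)
  (node (nat_lit 4) (nat_lit 41042) (nat_lit 7) (node (nat_lit 7) (nat_lit 45232) (nat_lit 8)
  (node (nat_lit 8) (nat_lit 45232) (nat_lit 9) (node (nat_lit 4) (nat_lit 45232) (nat_lit 10) nil
  nil) nil) nil) nil) (node (nat_lit 0) (nat_lit 41256) (nat_lit 6) nil nil)))) (node (nat_lit 0)
  (nat_lit 0) (nat_lit 5) (node (nat_lit 4) (nat_lit 38680) (nat_lit 6) (node (nat_lit 7) (nat_lit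
  45712) (nat_lit 7) (node (nat_lit 4) (nat_lit 45712) (nat_lit 8) (node (nat_lit 8) (nat_lit
  46155) (nat_lit 9) nil nil) nil) (node (nat_lit 5) (nat_lit 38680) (nat_lit 7) nil (node
  (nat_lit 8) (nat_lit 45510) (nat_lit 7) nil (node (nat_lit 3) (nat_lit 38680) (nat_lit 7) nil
  (node (nat_lit 0) (nat_lit 40440) (nat_lit 7) nil nil))))) (node (nat_lit 7) (nat_lit 42907)
  (nat_lit 6) (node (nat_lit 4) (nat_lit 42907) (nat_lit 7) (node (nat_lit 7) (nat_lit 45188)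
  (nat_lit 8) nil nil) nil) (node (nat_lit 5) (nat_lit 37556) (nat_lit 6) (node (nat_lit 7)
  (nat_lit 39317) (nat_lit 7) nil nil) (node (nat_lit 3) (nat_lit 37556) (nat_lit 6) nil (node
  (nat_lit 0) (nat_lit 42048) (nat_lit 6) nil nil))))) nil)))) (node (nat_lit 3) (nat_lit 0)
  (nat_lit 4) (node (nat_lit 0) (nat_lit 0) (nat_lit 5) (node (nat_lit 4) (nat_lit 0) (nat_lit 6)
  (node (nat_lit 7) (nat_lit 38192) (nat_lit 7) (node (nat_lit 4) (nat_lit 41889) (nat_lit 8)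
  (node (nat_lit 8) (nat_lit 46155) (nat_lit 9) (node (nat_lit 4) (nat_lit 46155) (nat_lit 10)
  (node (nat_lit 7) (nat_lit 46155) (nat_lit 11) (node (nat_lit 8) (nat_lit 46155) (nat_lit 12)
  nil nil) (node (nat_lit 5) (nat_lit 46155) (nat_lit 11) nil (node (nat_lit 0) (nat_lit 46155)
  (nat_lit 11) nil nil))) (node (nat_lit 7) (nat_lit 46155) (nat_lit 10) nil nil)) (node (nat_lit
  5) (nat_lit 44437) (nat_lit 9) nil (node (nat_lit 0) (nat_lit 46155) (nat_lit 9) nil nil)))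
  (node (nat_lit 5) (nat_lit 42169) (nat_lit 8) (node (nat_lit 4) (nat_lit 45287) (nat_lit 9)
  (node (nat_lit 5) (nat_lit 44183) (nat_lit 10) nil nil) (node (nat_lit 8) (nat_lit 46155)
  (nat_lit 9) (node (nat_lit 4) (nat_lit 46155) (nat_lit 10) nil nil) (node (nat_lit 7) (nat_lit
  45048) (nat_lit 9) nil (node (nat_lit 0) (nat_lit 46155) (nat_lit 9) nil nil)))) (node (nat_lit
  0) (nat_lit 46098) (nat_lit 8) nil nil))) (node (nat_lit 5) (nat_lit 36717) (nat_lit 7) nil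
  (node (nat_lit 8) (nat_lit 40102) (nat_lit 7) nil (node (nat_lit 0) (nat_lit 36612) (nat_lit 7)
  nil nil)))) (node (nat_lit 5) (nat_lit 34797) (nat_lit 6) (node (nat_lit 7) (nat_lit 37223)
  (nat_lit 7) (node (nat_lit 4) (nat_lit 38679) (nat_lit 8) nil (node (nat_lit 5) (nat_lit 40026)
  (nat_lit 8) (node (nat_lit 4) (nat_lit 38888) (nat_lit 9) nil (node (nat_lit 8) (nat_lit 42454)
  (nat_lit 9) nil nil)) (node (nat_lit 0) (nat_lit 39394) (nat_lit 8) nil nil))) (node (nat_lit 4)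
  (nat_lit 34797) (nat_lit 7) nil (node (nat_lit 8) (nat_lit 40048) (nat_lit 7) nil nil))) (node
  (nat_lit 7) (nat_lit 0) (nat_lit 6) (node (nat_lit 4) (nat_lit 37075) (nat_lit 7) (node (nat_lit
  8) (nat_lit 45683) (nat_lit 8) (node (nat_lit 4) (nat_lit 45683) (nat_lit 9) (node (nat_lit 7)
  (nat_lit 45683) (nat_lit 10) nil nil) nil) nil) (node (nat_lit 5) (nat_lit 34016) (nat_lit 7)
  nil (node (nat_lit 0) (nat_lit 35573) (nat_lit 7) nil nil))) (node (nat_lit 0) (nat_lit 39039)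
  (nat_lit 6) nil nil)))) (node (nat_lit 5) (nat_lit 0) (nat_lit 5) (node (nat_lit 4) (nat_lit 0)
  (nat_lit 6) (node (nat_lit 5) (nat_lit 0) (nat_lit 7) (node (nat_lit 7) (nat_lit 26043) (nat_lit
  8) (node (nat_lit 4) (nat_lit 23291) (nat_lit 9) nil (node (nat_lit 0) (nat_lit 29956) (nat_lit
  9) nil nil)) (node (nat_lit 0) (nat_lit 35536) (nat_lit 8) nil nil)) (node (nat_lit 0) (nat_lit
  33036) (nat_lit 7) nil nil)) (node (nat_lit 0) (nat_lit 29414) (nat_lit 6) nil (node (nat_lit 7)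
  (nat_lit 0) (nat_lit 6) (node (nat_lit 0) (nat_lit 28596) (nat_lit 7) nil nil) nil))) nil))
  nil)) nil)))

noncomputable def c16 : Tr :=
  (node (nat_lit 3) (nat_lit 0) (nat_lit 1) (node (nat_lit 3) (nat_lit 0) (nat_lit 2) t394 (node
  (nat_lit 0) (nat_lit 0) (nat_lit 2) (node (nat_lit 3) (nat_lit 0) (nat_lit 3) (node (nat_lit 5)
  (nat_lit 0) (nat_lit 4) (node (nat_lit 3) (nat_lit 0) (nat_lit 5) (node (nat_lit 6) (nat_lit
  106490) (nat_lit 6) (node (nat_lit 4) (nat_lit 109139) (nat_lit 7) (node (nat_lit 8) (nat_lit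
  110825) (nat_lit 8) nil (node (nat_lit 6) (nat_lit 111083) (nat_lit 8) nil nil)) (node (nat_lit
  8) (nat_lit 108428) (nat_lit 7) (node (nat_lit 5) (nat_lit 112738) (nat_lit 8) nil (node
  (nat_lit 4) (nat_lit 111300) (nat_lit 8) (node (nat_lit 6) (nat_lit 111216) (nat_lit 9) (node
  (nat_lit 4) (nat_lit 108599) (nat_lit 10) nil nil) nil) nil)) (node (nat_lit 0) (nat_lit 112738)
  (nat_lit 7) nil (node (nat_lit 5) (nat_lit 112738) (nat_lit 7) nil nil)))) (node (nat_lit 4)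
  (nat_lit 108040) (nat_lit 6) (node (nat_lit 6) (nat_lit 110208) (nat_lit 7) (node (nat_lit 8)
  (nat_lit 112084) (nat_lit 8) (node (nat_lit 6) (nat_lit 112738) (nat_lit 9) (node (nat_lit 4)
  (nat_lit 111835) (nat_lit 10) nil nil) (node (nat_lit 4) (nat_lit 112738) (nat_lit 9) nil nil))
  (node (nat_lit 4) (nat_lit 111980) (nat_lit 8) (node (nat_lit 8) (nat_lit 109726) (nat_lit 9)
  nil nil) nil)) (node (nat_lit 8) (nat_lit 110743) (nat_lit 7) (node (nat_lit 6) (nat_lit 111852)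
  (nat_lit 8) (node (nat_lit 8) (nat_lit 107972) (nat_lit 9) nil nil) nil) (node (nat_lit 5)
  (nat_lit 112619) (nat_lit 7) nil (node (nat_lit 0) (nat_lit 112619) (nat_lit 7) nil nil))))
  (node (nat_lit 5) (nat_lit 112738) (nat_lit 6) nil (node (nat_lit 0) (nat_lit 112738) (nat_lit
  6) nil nil)))) (node (nat_lit 4) (nat_lit 0) (nat_lit 5) (node (nat_lit 6) (nat_lit 103576)
  (nat_lit 6) (node (nat_lit 3) (nat_lit 109240) (nat_lit 7) (node (nat_lit 4) (nat_lit 112313)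
  (nat_lit 8) (node (nat_lit 6) (nat_lit 109143) (nat_lit 9) nil nil) (node (nat_lit 6) (nat_lit
  112313) (nat_lit 8) nil nil)) (node (nat_lit 4) (nat_lit 105100) (nat_lit 7) (node (nat_lit 5)
  (nat_lit 112738) (nat_lit 8) (node (nat_lit 6) (nat_lit 112738) (nat_lit 9) (node (nat_lit 5)
  (nat_lit 91524) (nat_lit 10) (node (nat_lit 4) (nat_lit 58262) (nat_lit 11) nil nil) nil) nil)
  (node (nat_lit 3) (nat_lit 108110) (nat_lit 8) (node (nat_lit 6) (nat_lit 108764) (nat_lit 9)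
  nil nil) nil)) (node (nat_lit 5) (nat_lit 112738) (nat_lit 7) nil (node (nat_lit 0) (nat_lit
  110663) (nat_lit 7) nil nil)))) (node (nat_lit 3) (nat_lit 107431) (nat_lit 6) (node (nat_lit 6)
  (nat_lit 109380) (nat_lit 7) (node (nat_lit 4) (nat_lit 112313) (nat_lit 8) (node (nat_lit 6)
  (nat_lit 110759) (nat_lit 9) nil (node (nat_lit 9) (nat_lit 112478) (nat_lit 9) nil nil)) (node
  (nat_lit 9) (nat_lit 112313) (nat_lit 8) (node (nat_lit 4) (nat_lit 111908) (nat_lit 9) nil nil)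
  nil)) (node (nat_lit 4) (nat_lit 108789) (nat_lit 7) (node (nat_lit 6) (nat_lit 111909) (nat_lit
  8) (node (nat_lit 4) (nat_lit 110355) (nat_lit 9) nil (node (nat_lit 9) (nat_lit 107783)
  (nat_lit 9) nil nil)) nil) (node (nat_lit 5) (nat_lit 112738) (nat_lit 7) nil (node (nat_lit 0)
  (nat_lit 112738) (nat_lit 7) nil nil)))) (node (nat_lit 5) (nat_lit 111046) (nat_lit 6) (node
  (nat_lit 6) (nat_lit 111046) (nat_lit 7) nil nil) (node (nat_lit 0) (nat_lit 110455) (nat_lit 6)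
  nil nil)))) (node (nat_lit 0) (nat_lit 111563) (nat_lit 5) (node (nat_lit 6) (nat_lit 111563)
  (nat_lit 6) nil nil) nil))) (node (nat_lit 3) (nat_lit 0) (nat_lit 4) (node (nat_lit 4) (nat_lit
  0) (nat_lit 5) (node (nat_lit 7) (nat_lit 97124) (nat_lit 6) (node (nat_lit 6) (nat_lit 102957)
  (nat_lit 7) (node (nat_lit 4) (nat_lit 101878) (nat_lit 8) (node (nat_lit 6) (nat_lit 103584)
  (nat_lit 9) nil (node (nat_lit 5) (nat_lit 106189) (nat_lit 9) nil nil)) (node (nat_lit 7)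
  (nat_lit 100919) (nat_lit 8) (node (nat_lit 4) (nat_lit 95300) (nat_lit 9) (node (nat_lit 5)
  (nat_lit 92745) (nat_lit 10) nil nil) nil) (node (nat_lit 5) (nat_lit 110977) (nat_lit 8) nil
  nil))) (node (nat_lit 5) (nat_lit 109117) (nat_lit 7) nil nil)) (node (nat_lit 6) (nat_lit
  99986) (nat_lit 6) (node (nat_lit 4) (nat_lit 105048) (nat_lit 7) (node (nat_lit 7) (nat_lit
  107090) (nat_lit 8) (node (nat_lit 6) (nat_lit 108371) (nat_lit 9) (node (nat_lit 4) (nat_lit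
  108559) (nat_lit 10) nil nil) (node (nat_lit 4) (nat_lit 101900) (nat_lit 9) nil nil)) (node
  (nat_lit 5) (nat_lit 92742) (nat_lit 8) nil nil)) (node (nat_lit 7) (nat_lit 104862) (nat_lit 7)
  (node (nat_lit 6) (nat_lit 105612) (nat_lit 8) (node (nat_lit 4) (nat_lit 102006) (nat_lit 9)
  nil nil) nil) (node (nat_lit 5) (nat_lit 111731) (nat_lit 7) nil nil))) (node (nat_lit 5)
  (nat_lit 77846) (nat_lit 6) (node (nat_lit 6) (nat_lit 54476) (nat_lit 7) nil nil) (node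
  (nat_lit 0) (nat_lit 102167) (nat_lit 6) nil nil)))) (node (nat_lit 6) (nat_lit 0) (nat_lit 5)
  (node (nat_lit 4) (nat_lit 96019) (nat_lit 6) (node (nat_lit 7) (nat_lit 100939) (nat_lit 7)
  (node (nat_lit 4) (nat_lit 92490) (nat_lit 8) nil (node (nat_lit 6) (nat_lit 104700) (nat_lit 8)
  nil nil)) (node (nat_lit 6) (nat_lit 103595) (nat_lit 7) (node (nat_lit 7) (nat_lit 100955)
  (nat_lit 8) (node (nat_lit 4) (nat_lit 97573) (nat_lit 9) nil nil) nil) (node (nat_lit 5)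
  (nat_lit 95311) (nat_lit 7) (node (nat_lit 6) (nat_lit 79700) (nat_lit 8) (node (nat_lit 7)
  (nat_lit 56160) (nat_lit 9) nil nil) nil) (node (nat_lit 0) (nat_lit 106788) (nat_lit 7) nil
  nil)))) (node (nat_lit 5) (nat_lit 110795) (nat_lit 6) (node (nat_lit 6) (nat_lit 110795)
  (nat_lit 7) (node (nat_lit 7) (nat_lit 110795) (nat_lit 8) nil nil) nil) (node (nat_lit 0)
  (nat_lit 100888) (nat_lit 6) nil nil))) (node (nat_lit 5) (nat_lit 111561) (nat_lit 5) (node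
  (nat_lit 7) (nat_lit 111561) (nat_lit 6) nil (node (nat_lit 6) (nat_lit 112055) (nat_lit 6)
  (node (nat_lit 5) (nat_lit 112738) (nat_lit 7) nil (node (nat_lit 4) (nat_lit 112055) (nat_lit
  7) nil nil)) (node (nat_lit 4) (nat_lit 111561) (nat_lit 6) nil nil))) (node (nat_lit 0)
  (nat_lit 101445) (nat_lit 5) nil nil)))) (node (nat_lit 4) (nat_lit 0) (nat_lit 4) (node
  (nat_lit 3) (nat_lit 0) (nat_lit 5) (node (nat_lit 4) (nat_lit 94636) (nat_lit 6) (node (nat_lit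
  6) (nat_lit 99971) (nat_lit 7) (node (nat_lit 8) (nat_lit 103018) (nat_lit 8) (node (nat_lit 6)
  (nat_lit 104620) (nat_lit 9) (node (nat_lit 4) (nat_lit 102480) (nat_lit 10) nil nil) nil) (node
  (nat_lit 4) (nat_lit 100583) (nat_lit 8) (node (nat_lit 8) (nat_lit 98426) (nat_lit 9) nil (node
  (nat_lit 5) (nat_lit 105234) (nat_lit 9) nil nil)) (node (nat_lit 5) (nat_lit 107991) (nat_lit
  8) nil nil))) (node (nat_lit 5) (nat_lit 85724) (nat_lit 7) nil nil)) (node (nat_lit 6) (nat_lit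
  97543) (nat_lit 6) (node (nat_lit 8) (nat_lit 101653) (nat_lit 7) (node (nat_lit 4) (nat_lit
  101583) (nat_lit 8) (node (nat_lit 6) (nat_lit 102954) (nat_lit 9) nil nil) nil) (node (nat_lit
  4) (nat_lit 104749) (nat_lit 7) (node (nat_lit 6) (nat_lit 106880) (nat_lit 8) (node (nat_lit 8)
  (nat_lit 107080) (nat_lit 9) nil nil) nil) (node (nat_lit 5) (nat_lit 107832) (nat_lit 7) nil
  nil))) (node (nat_lit 5) (nat_lit 110250) (nat_lit 6) nil (node (nat_lit 0) (nat_lit 101028)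
  (nat_lit 6) nil nil)))) (node (nat_lit 6) (nat_lit 0) (nat_lit 5) (node (nat_lit 3) (nat_lit
  98145) (nat_lit 6) (node (nat_lit 4) (nat_lit 105093) (nat_lit 7) (node (nat_lit 9) (nat_lit
  107397) (nat_lit 8) (node (nat_lit 6) (nat_lit 106679) (nat_lit 9) (node (nat_lit 4) (nat_lit
  105007) (nat_lit 10) nil nil) nil) (node (nat_lit 6) (nat_lit 102470) (nat_lit 8) (node (nat_lit
  4) (nat_lit 98478) (nat_lit 9) nil nil) nil)) (node (nat_lit 6) (nat_lit 99315) (nat_lit 7)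
  (node (nat_lit 4) (nat_lit 98355) (nat_lit 8) (node (nat_lit 9) (nat_lit 98941) (nat_lit 9) nil
  nil) nil) (node (nat_lit 5) (nat_lit 109953) (nat_lit 7) nil (node (nat_lit 0) (nat_lit 109953)
  (nat_lit 7) nil nil)))) (node (nat_lit 5) (nat_lit 110187) (nat_lit 6) (node (nat_lit 6)
  (nat_lit 110187) (nat_lit 7) (node (nat_lit 4) (nat_lit 110187) (nat_lit 8) nil nil) nil) (node
  (nat_lit 0) (nat_lit 97754) (nat_lit 6) nil nil))) (node (nat_lit 5) (nat_lit 57608) (nat_lit 5)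
  (node (nat_lit 4) (nat_lit 57608) (nat_lit 6) nil (node (nat_lit 3) (nat_lit 57608) (nat_lit 6)
  nil nil)) (node (nat_lit 0) (nat_lit 97564) (nat_lit 5) nil nil)))) (node (nat_lit 0) (nat_lit
  101972) (nat_lit 4) (node (nat_lit 6) (nat_lit 101972) (nat_lit 5) nil (node (nat_lit 3)
  (nat_lit 101972) (nat_lit 5) nil (node (nat_lit 4) (nat_lit 101972) (nat_lit 5) nil (node
  (nat_lit 0) (nat_lit 105711) (nat_lit 5) nil nil)))) nil)))) (node (nat_lit 0) (nat_lit 0)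
  (nat_lit 3) (node (nat_lit 3) (nat_lit 0) (nat_lit 4) (node (nat_lit 5) (nat_lit 105392)
  (nat_lit 5) nil (node (nat_lit 3) (nat_lit 96056) (nat_lit 5) (node (nat_lit 4) (nat_lit 101980)
  (nat_lit 6) (node (nat_lit 7) (nat_lit 104183) (nat_lit 7) nil (node (nat_lit 8) (nat_lit
  102850) (nat_lit 7) nil nil)) (node (nat_lit 7) (nat_lit 102342) (nat_lit 6) (node (nat_lit 4)
  (nat_lit 103583) (nat_lit 7) nil nil) (node (nat_lit 5) (nat_lit 105155) (nat_lit 6) nil (node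
  (nat_lit 6) (nat_lit 105155) (nat_lit 6) nil nil)))) (node (nat_lit 4) (nat_lit 94333) (nat_lit
  5) (node (nat_lit 3) (nat_lit 100105) (nat_lit 6) (node (nat_lit 7) (nat_lit 103256) (nat_lit 7)
  nil (node (nat_lit 4) (nat_lit 101574) (nat_lit 7) nil nil)) (node (nat_lit 7) (nat_lit 98436)
  (nat_lit 6) (node (nat_lit 3) (nat_lit 99351) (nat_lit 7) nil nil) (node (nat_lit 5) (nat_lit
  103432) (nat_lit 6) (node (nat_lit 6) (nat_lit 53501) (nat_lit 7) nil nil) (node (nat_lit 6)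
  (nat_lit 103432) (nat_lit 6) nil nil)))) (node (nat_lit 6) (nat_lit 95572) (nat_lit 5) nil (node
  (nat_lit 0) (nat_lit 105392) (nat_lit 5) nil nil))))) (node (nat_lit 4) (nat_lit 0) (nat_lit 4)
  (node (nat_lit 3) (nat_lit 94341) (nat_lit 5) (node (nat_lit 3) (nat_lit 101539) (nat_lit 6)
  (node (nat_lit 4) (nat_lit 102650) (nat_lit 7) nil (node (nat_lit 8) (nat_lit 105657) (nat_lit
  7) nil nil)) (node (nat_lit 4) (nat_lit 97312) (nat_lit 6) (node (nat_lit 3) (nat_lit 101085)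
  (nat_lit 7) nil nil) nil)) (node (nat_lit 5) (nat_lit 95590) (nat_lit 5) nil (node (nat_lit 6)
  (nat_lit 95590) (nat_lit 5) nil (node (nat_lit 0) (nat_lit 95590) (nat_lit 5) nil nil)))) (node
  (nat_lit 0) (nat_lit 0) (nat_lit 4) (node (nat_lit 5) (nat_lit 108136) (nat_lit 5) (node
  (nat_lit 7) (nat_lit 108136) (nat_lit 6) (node (nat_lit 6) (nat_lit 108136) (nat_lit 7) nil nil)
  (node (nat_lit 3) (nat_lit 108136) (nat_lit 6) nil nil)) (node (nat_lit 6) (nat_lit 108136)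
  (nat_lit 5) nil (node (nat_lit 0) (nat_lit 108136) (nat_lit 5) nil (node (nat_lit 3) (nat_lit
  103527) (nat_lit 5) nil (node (nat_lit 4) (nat_lit 103527) (nat_lit 5) nil nil))))) (node
  (nat_lit 5) (nat_lit 0) (nat_lit 4) (node (nat_lit 0) (nat_lit 108136) (nat_lit 5) (node
  (nat_lit 5) (nat_lit 108136) (nat_lit 6) nil nil) (node (nat_lit 3) (nat_lit 104781) (nat_lit 5)
  (node (nat_lit 5) (nat_lit 108136) (nat_lit 6) nil nil) (node (nat_lit 4) (nat_lit 104781)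
  (nat_lit 5) nil nil))) nil)))) (node (nat_lit 4) (nat_lit 0) (nat_lit 3) (node (nat_lit 3)
  (nat_lit 0) (nat_lit 4) (node (nat_lit 3) (nat_lit 0) (nat_lit 5) (node (nat_lit 7) (nat_lit
  98049) (nat_lit 6) (node (nat_lit 4) (nat_lit 106842) (nat_lit 7) (node (nat_lit 8) (nat_lit
  108443) (nat_lit 8) (node (nat_lit 4) (nat_lit 104107) (nat_lit 9) (node (nat_lit 7) (nat_lit
  102794) (nat_lit 10) nil nil) nil) (node (nat_lit 7) (nat_lit 109705) (nat_lit 8) (node (nat_lit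
  8) (nat_lit 108961) (nat_lit 9) (node (nat_lit 4) (nat_lit 107857) (nat_lit 10) nil nil) nil)
  (node (nat_lit 5) (nat_lit 93223) (nat_lit 8) (node (nat_lit 4) (nat_lit 93223) (nat_lit 9) nil
  nil) nil))) (node (nat_lit 5) (nat_lit 108990) (nat_lit 7) nil nil)) (node (nat_lit 4) (nat_lit
  97070) (nat_lit 6) (node (nat_lit 8) (nat_lit 103284) (nat_lit 7) (node (nat_lit 7) (nat_lit
  105883) (nat_lit 8) (node (nat_lit 4) (nat_lit 103489) (nat_lit 9) (node (nat_lit 8) (nat_lit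
  103871) (nat_lit 10) nil nil) nil) nil) (node (nat_lit 7) (nat_lit 102457) (nat_lit 7) (node
  (nat_lit 4) (nat_lit 102590) (nat_lit 8) (node (nat_lit 8) (nat_lit 101452) (nat_lit 9) nil nil)
  nil) (node (nat_lit 5) (nat_lit 97558) (nat_lit 7) nil nil))) (node (nat_lit 5) (nat_lit 108553)
  (nat_lit 6) nil (node (nat_lit 0) (nat_lit 103139) (nat_lit 6) nil nil)))) (node (nat_lit 4)
  (nat_lit 0) (nat_lit 5) (node (nat_lit 3) (nat_lit 91533) (nat_lit 6) (node (nat_lit 7) (nat_lit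
  97285) (nat_lit 7) (node (nat_lit 4) (nat_lit 98652) (nat_lit 8) (node (nat_lit 7) (nat_lit
  99012) (nat_lit 9) nil nil) (node (nat_lit 9) (nat_lit 98056) (nat_lit 8) (node (nat_lit 4)
  (nat_lit 94972) (nat_lit 9) nil nil) nil)) (node (nat_lit 4) (nat_lit 96361) (nat_lit 7) (node
  (nat_lit 7) (nat_lit 96194) (nat_lit 8) (node (nat_lit 9) (nat_lit 94967) (nat_lit 9) nil nil)
  nil) (node (nat_lit 5) (nat_lit 104610) (nat_lit 7) nil (node (nat_lit 0) (nat_lit 104610)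
  (nat_lit 7) nil nil)))) (node (nat_lit 5) (nat_lit 80733) (nat_lit 6) (node (nat_lit 4) (nat_lit
  54852) (nat_lit 7) nil nil) (node (nat_lit 0) (nat_lit 94787) (nat_lit 6) nil nil))) (node
  (nat_lit 5) (nat_lit 104264) (nat_lit 5) (node (nat_lit 7) (nat_lit 104264) (nat_lit 6) nil
  (node (nat_lit 4) (nat_lit 104758) (nat_lit 6) (node (nat_lit 5) (nat_lit 107199) (nat_lit 7)
  nil (node (nat_lit 3) (nat_lit 105915) (nat_lit 7) nil nil)) (node (nat_lit 3) (nat_lit 105421)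
  (nat_lit 6) nil nil))) (node (nat_lit 0) (nat_lit 98239) (nat_lit 5) nil nil)))) (node (nat_lit
  0) (nat_lit 78464) (nat_lit 4) nil nil)) nil))) nil)) nil)

noncomputable def t395 : Tr :=
  (node (nat_lit 5) (nat_lit 0) (nat_lit 6) (node (nat_lit 0) (nat_lit 0) (nat_lit 7) (node
  (nat_lit 4) (nat_lit 0) (nat_lit 8) (node (nat_lit 10) (nat_lit 0) (nat_lit 9) (node (nat_lit 5)
  (nat_lit 113006) (nat_lit 10) (node (nat_lit 4) (nat_lit 114345) (nat_lit 11) (node (nat_lit 6)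
  (nat_lit 113924) (nat_lit 12) (node (nat_lit 5) (nat_lit 114498) (nat_lit 13) nil (node (nat_lit
  4) (nat_lit 109749) (nat_lit 13) (node (nat_lit 5) (nat_lit 109586) (nat_lit 14) nil nil) nil))
  nil) (node (nat_lit 6) (nat_lit 112818) (nat_lit 11) nil nil)) (node (nat_lit 6) (nat_lit
  111609) (nat_lit 10) (node (nat_lit 4) (nat_lit 113521) (nat_lit 11) nil nil) (node (nat_lit 0)
  (nat_lit 111180) (nat_lit 10) nil nil))) (node (nat_lit 5) (nat_lit 111736) (nat_lit 9) (node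
  (nat_lit 4) (nat_lit 113640) (nat_lit 10) (node (nat_lit 6) (nat_lit 112415) (nat_lit 11) (node
  (nat_lit 5) (nat_lit 113187) (nat_lit 12) nil (node (nat_lit 4) (nat_lit 114151) (nat_lit 12)
  nil nil)) nil) (node (nat_lit 6) (nat_lit 113640) (nat_lit 10) (node (nat_lit 5) (nat_lit
  110398) (nat_lit 11) nil nil) (node (nat_lit 10) (nat_lit 113640) (nat_lit 10) (node (nat_lit 5)
  (nat_lit 114675) (nat_lit 11) nil nil) nil))) (node (nat_lit 6) (nat_lit 108901) (nat_lit 9)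
  (node (nat_lit 4) (nat_lit 110181) (nat_lit 10) (node (nat_lit 5) (nat_lit 107781) (nat_lit 11)
  (node (nat_lit 6) (nat_lit 96056) (nat_lit 12) nil nil) nil) (node (nat_lit 5) (nat_lit 111789)
  (nat_lit 10) (node (nat_lit 4) (nat_lit 109241) (nat_lit 11) (node (nat_lit 5) (nat_lit 103881)
  (nat_lit 12) nil nil) nil) (node (nat_lit 10) (nat_lit 111072) (nat_lit 10) nil nil))) (node
  (nat_lit 0) (nat_lit 109039) (nat_lit 9) nil nil)))) (node (nat_lit 6) (nat_lit 0) (nat_lit 8)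
  (node (nat_lit 10) (nat_lit 109565) (nat_lit 9) (node (nat_lit 5) (nat_lit 113151) (nat_lit 10)
  (node (nat_lit 6) (nat_lit 111659) (nat_lit 11) (node (nat_lit 5) (nat_lit 112431) (nat_lit 12)
  (node (nat_lit 4) (nat_lit 110407) (nat_lit 13) nil nil) nil) (node (nat_lit 4) (nat_lit 114849)
  (nat_lit 11) nil nil)) (node (nat_lit 4) (nat_lit 112375) (nat_lit 10) (node (nat_lit 6)
  (nat_lit 111294) (nat_lit 11) (node (nat_lit 4) (nat_lit 107010) (nat_lit 12) (node (nat_lit 5)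
  (nat_lit 105281) (nat_lit 13) (node (nat_lit 6) (nat_lit 99419) (nat_lit 14) nil nil) nil) (node
  (nat_lit 5) (nat_lit 112066) (nat_lit 12) nil nil)) nil) nil)) (node (nat_lit 5) (nat_lit
  111972) (nat_lit 9) (node (nat_lit 6) (nat_lit 113644) (nat_lit 10) (node (nat_lit 4) (nat_lit
  114679) (nat_lit 11) nil nil) (node (nat_lit 4) (nat_lit 109275) (nat_lit 10) (node (nat_lit 5)
  (nat_lit 108570) (nat_lit 11) (node (nat_lit 6) (nat_lit 96153) (nat_lit 12) nil nil) (node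
  (nat_lit 6) (nat_lit 109257) (nat_lit 11) nil nil)) nil)) (node (nat_lit 4) (nat_lit 106502)
  (nat_lit 9) (node (nat_lit 6) (nat_lit 108224) (nat_lit 10) (node (nat_lit 5) (nat_lit 108887)
  (nat_lit 11) (node (nat_lit 4) (nat_lit 105808) (nat_lit 12) (node (nat_lit 5) (nat_lit 100701)
  (nat_lit 13) nil nil) nil) nil) (node (nat_lit 5) (nat_lit 108674) (nat_lit 10) nil (node
  (nat_lit 10) (nat_lit 108674) (nat_lit 10) nil nil))) (node (nat_lit 0) (nat_lit 109039)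
  (nat_lit 9) nil nil)))) (node (nat_lit 0) (nat_lit 0) (nat_lit 8) (node (nat_lit 10) (nat_lit
  111057) (nat_lit 9) (node (nat_lit 5) (nat_lit 112729) (nat_lit 10) nil (node (nat_lit 4)
  (nat_lit 112729) (nat_lit 10) nil (node (nat_lit 6) (nat_lit 109195) (nat_lit 10) nil nil)))
  (node (nat_lit 5) (nat_lit 111474) (nat_lit 9) (node (nat_lit 11) (nat_lit 113145) (nat_lit 10)
  nil (node (nat_lit 4) (nat_lit 113145) (nat_lit 10) nil (node (nat_lit 6) (nat_lit 109865)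
  (nat_lit 10) nil nil))) (node (nat_lit 4) (nat_lit 110280) (nat_lit 9) nil (node (nat_lit 6)
  (nat_lit 110280) (nat_lit 9) nil (node (nat_lit 0) (nat_lit 110280) (nat_lit 9) nil nil)))))
  (node (nat_lit 5) (nat_lit 0) (nat_lit 8) (node (nat_lit 6) (nat_lit 111350) (nat_lit 9) (node
  (nat_lit 5) (nat_lit 113489) (nat_lit 10) (node (nat_lit 4) (nat_lit 110960) (nat_lit 11) (node
  (nat_lit 5) (nat_lit 101246) (nat_lit 12) nil nil) nil) (node (nat_lit 4) (nat_lit 113489)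
  (nat_lit 10) nil nil)) (node (nat_lit 4) (nat_lit 110535) (nat_lit 9) (node (nat_lit 6) (nat_lit
  108534) (nat_lit 10) (node (nat_lit 4) (nat_lit 110447) (nat_lit 11) (node (nat_lit 5) (nat_lit
  112829) (nat_lit 12) nil nil) (node (nat_lit 5) (nat_lit 109197) (nat_lit 11) nil nil)) (node
  (nat_lit 5) (nat_lit 112707) (nat_lit 10) nil nil)) (node (nat_lit 0) (nat_lit 110535) (nat_lit
  9) (node (nat_lit 5) (nat_lit 112707) (nat_lit 10) nil nil) nil))) nil)))) (node (nat_lit 4)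
  (nat_lit 0) (nat_lit 7) (node (nat_lit 0) (nat_lit 0) (nat_lit 8) (node (nat_lit 4) (nat_lit 0)
  (nat_lit 9) (node (nat_lit 5) (nat_lit 103252) (nat_lit 10) (node (nat_lit 11) (nat_lit 106127)
  (nat_lit 11) (node (nat_lit 4) (nat_lit 107283) (nat_lit 12) nil (node (nat_lit 5) (nat_lit
  107863) (nat_lit 12) nil nil)) (node (nat_lit 6) (nat_lit 105166) (nat_lit 11) (node (nat_lit 5)
  (nat_lit 107892) (nat_lit 12) nil (node (nat_lit 4) (nat_lit 106902) (nat_lit 12) nil nil))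
  (node (nat_lit 4) (nat_lit 104951) (nat_lit 11) (node (nat_lit 11) (nat_lit 106687) (nat_lit 12)
  nil (node (nat_lit 6) (nat_lit 99588) (nat_lit 12) nil nil)) (node (nat_lit 0) (nat_lit 105164)
  (nat_lit 11) nil nil)))) (node (nat_lit 6) (nat_lit 101701) (nat_lit 10) (node (nat_lit 5)
  (nat_lit 105839) (nat_lit 11) (node (nat_lit 4) (nat_lit 104082) (nat_lit 12) (node (nat_lit 5)
  (nat_lit 99198) (nat_lit 13) nil nil) (node (nat_lit 6) (nat_lit 107574) (nat_lit 12) nil nil))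
  (node (nat_lit 4) (nat_lit 103082) (nat_lit 11) (node (nat_lit 5) (nat_lit 102841) (nat_lit 12)
  (node (nat_lit 6) (nat_lit 82325) (nat_lit 13) nil nil) nil) (node (nat_lit 11) (nat_lit 103408)
  (nat_lit 11) nil (node (nat_lit 0) (nat_lit 103614) (nat_lit 11) nil nil)))) (node (nat_lit 0)
  (nat_lit 101927) (nat_lit 10) (node (nat_lit 11) (nat_lit 103677) (nat_lit 11) (node (nat_lit 4)
  (nat_lit 102554) (nat_lit 12) nil nil) (node (nat_lit 4) (nat_lit 102784) (nat_lit 11) nil (node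
  (nat_lit 5) (nat_lit 104733) (nat_lit 11) nil (node (nat_lit 0) (nat_lit 103840) (nat_lit 11)
  nil nil)))) nil))) (node (nat_lit 5) (nat_lit 0) (nat_lit 9) (node (nat_lit 6) (nat_lit 103227)
  (nat_lit 10) (node (nat_lit 4) (nat_lit 104083) (nat_lit 11) (node (nat_lit 5) (nat_lit 105819)
  (nat_lit 12) nil (node (nat_lit 6) (nat_lit 103089) (nat_lit 12) nil nil)) (node (nat_lit 5)
  (nat_lit 106269) (nat_lit 11) nil nil)) (node (nat_lit 4) (nat_lit 103012) (nat_lit 10) (node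
  (nat_lit 5) (nat_lit 106616) (nat_lit 11) nil (node (nat_lit 6) (nat_lit 96098) (nat_lit 11) nil
  nil)) (node (nat_lit 11) (nat_lit 103338) (nat_lit 10) (node (nat_lit 4) (nat_lit 106379)
  (nat_lit 11) (node (nat_lit 11) (nat_lit 107326) (nat_lit 12) (node (nat_lit 5) (nat_lit 108735)
  (nat_lit 13) nil nil) nil) nil) (node (nat_lit 0) (nat_lit 100021) (nat_lit 10) nil nil))))
  (node (nat_lit 6) (nat_lit 0) (nat_lit 9) (node (nat_lit 4) (nat_lit 101268) (nat_lit 10) (node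
  (nat_lit 6) (nat_lit 105698) (nat_lit 11) nil (node (nat_lit 5) (nat_lit 103181) (nat_lit 11)
  nil nil)) (node (nat_lit 5) (nat_lit 101251) (nat_lit 10) (node (nat_lit 4) (nat_lit 100424)
  (nat_lit 11) nil nil) (node (nat_lit 11) (nat_lit 102072) (nat_lit 10) (node (nat_lit 4)
  (nat_lit 102263) (nat_lit 11) nil nil) (node (nat_lit 0) (nat_lit 98044) (nat_lit 10) nil
  nil)))) (node (nat_lit 0) (nat_lit 96339) (nat_lit 9) (node (nat_lit 4) (nat_lit 97585) (nat_lit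
  10) (node (nat_lit 11) (nat_lit 99497) (nat_lit 11) (node (nat_lit 4) (nat_lit 98375) (nat_lit
  12) nil nil) nil) (node (nat_lit 11) (nat_lit 101718) (nat_lit 10) (node (nat_lit 4) (nat_lit
  100066) (nat_lit 11) nil nil) nil)) nil)))) (node (nat_lit 5) (nat_lit 0) (nat_lit 8) (node
  (nat_lit 0) (nat_lit 0) (nat_lit 9) (node (nat_lit 4) (nat_lit 85146) (nat_lit 10) (node
  (nat_lit 5) (nat_lit 93170) (nat_lit 11) (node (nat_lit 4) (nat_lit 96254) (nat_lit 12) (node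
  (nat_lit 6) (nat_lit 98659) (nat_lit 13) (node (nat_lit 5) (nat_lit 100991) (nat_lit 14) nil
  (node (nat_lit 4) (nat_lit 100534) (nat_lit 14) nil nil)) (node (nat_lit 12) (nat_lit 98659)
  (nat_lit 13) (node (nat_lit 4) (nat_lit 100534) (nat_lit 14) (node (nat_lit 5) (nat_lit 101998)
  (nat_lit 15) nil nil) (node (nat_lit 5) (nat_lit 100991) (nat_lit 14) nil nil)) (node (nat_lit
  0) (nat_lit 98659) (nat_lit 13) nil nil))) (node (nat_lit 6) (nat_lit 96254) (nat_lit 12) (node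
  (nat_lit 4) (nat_lit 98659) (nat_lit 13) nil (node (nat_lit 5) (nat_lit 98999) (nat_lit 13) nil
  (node (nat_lit 12) (nat_lit 98659) (nat_lit 13) nil nil))) (node (nat_lit 0) (nat_lit 96246)
  (nat_lit 12) nil nil))) (node (nat_lit 12) (nat_lit 90855) (nat_lit 11) (node (nat_lit 5)
  (nat_lit 95080) (nat_lit 12) nil nil) (node (nat_lit 6) (nat_lit 90658) (nat_lit 11) nil nil)))
  (node (nat_lit 5) (nat_lit 85462) (nat_lit 10) (node (nat_lit 4) (nat_lit 91650) (nat_lit 11)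
  (node (nat_lit 12) (nat_lit 95006) (nat_lit 12) (node (nat_lit 4) (nat_lit 96791) (nat_lit 13)
  (node (nat_lit 5) (nat_lit 98666) (nat_lit 14) nil nil) nil) nil) nil) (node (nat_lit 6)
  (nat_lit 84955) (nat_lit 10) (node (nat_lit 5) (nat_lit 91391) (nat_lit 11) (node (nat_lit 6)
  (nat_lit 94467) (nat_lit 12) nil (node (nat_lit 4) (nat_lit 83403) (nat_lit 12) nil nil)) nil)
  (node (nat_lit 0) (nat_lit 81963) (nat_lit 10) nil nil)))) nil) (node (nat_lit 6) (nat_lit 0)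
  (nat_lit 8) (node (nat_lit 0) (nat_lit 0) (nat_lit 9) (node (nat_lit 4) (nat_lit 93563) (nat_lit
  10) (node (nat_lit 6) (nat_lit 100077) (nat_lit 11) (node (nat_lit 4) (nat_lit 104143) (nat_lit
  12) (node (nat_lit 5) (nat_lit 108451) (nat_lit 13) (node (nat_lit 6) (nat_lit 94630) (nat_lit
  14) nil nil) nil) (node (nat_lit 5) (nat_lit 104050) (nat_lit 12) (node (nat_lit 4) (nat_lit
  99156) (nat_lit 13) nil (node (nat_lit 6) (nat_lit 106454) (nat_lit 13) nil nil)) (node (nat_lit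
  0) (nat_lit 103153) (nat_lit 12) nil nil))) (node (nat_lit 5) (nat_lit 97508) (nat_lit 11) nil
  nil)) (node (nat_lit 6) (nat_lit 93946) (nat_lit 10) (node (nat_lit 4) (nat_lit 98815) (nat_lit
  11) (node (nat_lit 12) (nat_lit 101891) (nat_lit 12) nil nil) nil) (node (nat_lit 5) (nat_lit
  95088) (nat_lit 10) (node (nat_lit 6) (nat_lit 101552) (nat_lit 11) nil nil) (node (nat_lit 0)
  (nat_lit 89377) (nat_lit 10) nil nil)))) nil) nil))) (node (nat_lit 6) (nat_lit 0) (nat_lit 7)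
  (node (nat_lit 0) (nat_lit 0) (nat_lit 8) (node (nat_lit 6) (nat_lit 0) (nat_lit 9) (node
  (nat_lit 5) (nat_lit 113154) (nat_lit 10) (node (nat_lit 11) (nat_lit 114605) (nat_lit 11) nil
  (node (nat_lit 4) (nat_lit 111043) (nat_lit 11) (node (nat_lit 5) (nat_lit 110557) (nat_lit 12)
  (node (nat_lit 6) (nat_lit 103090) (nat_lit 13) nil nil) (node (nat_lit 6) (nat_lit 111177)
  (nat_lit 12) nil nil)) nil)) (node (nat_lit 4) (nat_lit 109231) (nat_lit 10) (node (nat_lit 6)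
  (nat_lit 111144) (nat_lit 11) (node (nat_lit 5) (nat_lit 108511) (nat_lit 12) nil nil) (node
  (nat_lit 5) (nat_lit 111144) (nat_lit 11) nil (node (nat_lit 11) (nat_lit 111144) (nat_lit 11)
  nil (node (nat_lit 0) (nat_lit 111144) (nat_lit 11) nil nil)))) (node (nat_lit 0) (nat_lit
  111765) (nat_lit 10) (node (nat_lit 11) (nat_lit 113678) (nat_lit 11) nil (node (nat_lit 6)
  (nat_lit 110273) (nat_lit 11) nil (node (nat_lit 5) (nat_lit 113678) (nat_lit 11) nil nil)))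
  nil))) (node (nat_lit 5) (nat_lit 0) (nat_lit 9) (node (nat_lit 4) (nat_lit 111887) (nat_lit 10)
  (node (nat_lit 6) (nat_lit 110395) (nat_lit 11) (node (nat_lit 5) (nat_lit 111167) (nat_lit 12)
  nil (node (nat_lit 4) (nat_lit 104365) (nat_lit 12) nil nil)) nil) (node (nat_lit 11) (nat_lit
  110518) (nat_lit 10) (node (nat_lit 6) (nat_lit 113714) (nat_lit 11) (node (nat_lit 11) (nat_lit
  115450) (nat_lit 12) nil nil) nil) (node (nat_lit 6) (nat_lit 112849) (nat_lit 10) (node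
  (nat_lit 5) (nat_lit 114612) (nat_lit 11) nil (node (nat_lit 4) (nat_lit 114612) (nat_lit 11)
  nil nil)) (node (nat_lit 0) (nat_lit 111887) (nat_lit 10) nil nil)))) (node (nat_lit 4) (nat_lit
  106702) (nat_lit 9) (node (nat_lit 6) (nat_lit 109874) (nat_lit 10) (node (nat_lit 4) (nat_lit
  110710) (nat_lit 11) nil (node (nat_lit 5) (nat_lit 106365) (nat_lit 11) nil nil)) (node
  (nat_lit 5) (nat_lit 108874) (nat_lit 10) nil (node (nat_lit 11) (nat_lit 108874) (nat_lit 10)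
  (node (nat_lit 6) (nat_lit 107382) (nat_lit 11) nil nil) nil))) (node (nat_lit 0) (nat_lit
  109327) (nat_lit 9) (node (nat_lit 6) (nat_lit 109426) (nat_lit 10) (node (nat_lit 11) (nat_lit
  111339) (nat_lit 11) nil nil) (node (nat_lit 11) (nat_lit 111511) (nat_lit 10) nil nil)) nil))))
  (node (nat_lit 4) (nat_lit 0) (nat_lit 8) (node (nat_lit 0) (nat_lit 0) (nat_lit 9) (node
  (nat_lit 6) (nat_lit 101985) (nat_lit 10) (node (nat_lit 4) (nat_lit 105947) (nat_lit 11) (node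
  (nat_lit 5) (nat_lit 111347) (nat_lit 12) (node (nat_lit 4) (nat_lit 110571) (nat_lit 13) nil
  nil) (node (nat_lit 6) (nat_lit 109023) (nat_lit 12) (node (nat_lit 5) (nat_lit 111510) (nat_lit
  13) nil (node (nat_lit 12) (nat_lit 111428) (nat_lit 13) nil nil)) (node (nat_lit 0) (nat_lit
  109023) (nat_lit 12) nil nil))) (node (nat_lit 5) (nat_lit 100509) (nat_lit 11) nil nil)) (node
  (nat_lit 4) (nat_lit 101985) (nat_lit 10) (node (nat_lit 6) (nat_lit 104727) (nat_lit 11) nil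
  nil) (node (nat_lit 5) (nat_lit 105469) (nat_lit 10) (node (nat_lit 4) (nat_lit 109415) (nat_lit
  11) nil nil) (node (nat_lit 0) (nat_lit 100831) (nat_lit 10) nil nil)))) (node (nat_lit 5)
  (nat_lit 0) (nat_lit 9) (node (nat_lit 6) (nat_lit 0) (nat_lit 10) (node (nat_lit 5) (nat_lit
  109860) (nat_lit 11) (node (nat_lit 4) (nat_lit 109572) (nat_lit 12) nil nil) (node (nat_lit 0)
  (nat_lit 109603) (nat_lit 11) nil nil)) (node (nat_lit 4) (nat_lit 0) (nat_lit 10) (node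
  (nat_lit 6) (nat_lit 110021) (nat_lit 11) (node (nat_lit 4) (nat_lit 105330) (nat_lit 12) nil
  nil) (node (nat_lit 0) (nat_lit 109767) (nat_lit 11) nil nil)) (node (nat_lit 0) (nat_lit
  104387) (nat_lit 10) nil nil))) nil)) nil)) nil))) (node (nat_lit 0) (nat_lit 0) (nat_lit 6)
  (node (nat_lit 5) (nat_lit 0) (nat_lit 7) (node (nat_lit 4) (nat_lit 103614) (nat_lit 8) (node
  (nat_lit 6) (nat_lit 108552) (nat_lit 9) (node (nat_lit 5) (nat_lit 111298) (nat_lit 10) (node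
  (nat_lit 6) (nat_lit 112428) (nat_lit 11) nil (node (nat_lit 4) (nat_lit 103399) (nat_lit 11)
  (node (nat_lit 5) (nat_lit 102119) (nat_lit 12) nil nil) nil)) (node (nat_lit 4) (nat_lit
  110724) (nat_lit 10) (node (nat_lit 5) (nat_lit 108506) (nat_lit 11) (node (nat_lit 6) (nat_lit
  96740) (nat_lit 12) (node (nat_lit 4) (nat_lit 53569) (nat_lit 13) (node (nat_lit 6) (nat_lit
  45798) (nat_lit 14) nil nil) nil) nil) nil) nil)) (node (nat_lit 5) (nat_lit 108844) (nat_lit 9)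
  nil (node (nat_lit 9) (nat_lit 108844) (nat_lit 9) nil nil))) (node (nat_lit 9) (nat_lit 103688)
  (nat_lit 8) (node (nat_lit 6) (nat_lit 109097) (nat_lit 9) (node (nat_lit 4) (nat_lit 111269)
  (nat_lit 10) nil (node (nat_lit 5) (nat_lit 113169) (nat_lit 10) (node (nat_lit 4) (nat_lit
  101747) (nat_lit 11) nil nil) nil)) (node (nat_lit 4) (nat_lit 109137) (nat_lit 9) (node
  (nat_lit 6) (nat_lit 107357) (nat_lit 10) (node (nat_lit 4) (nat_lit 99458) (nat_lit 11) (node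
  (nat_lit 5) (nat_lit 98178) (nat_lit 12) nil nil) nil) nil) nil)) (node (nat_lit 6) (nat_lit
  103564) (nat_lit 8) (node (nat_lit 4) (nat_lit 108793) (nat_lit 9) (node (nat_lit 6) (nat_lit
  106793) (nat_lit 10) (node (nat_lit 5) (nat_lit 107456) (nat_lit 11) nil nil) nil) (node
  (nat_lit 5) (nat_lit 109221) (nat_lit 9) (node (nat_lit 4) (nat_lit 107024) (nat_lit 10) (node
  (nat_lit 5) (nat_lit 92230) (nat_lit 11) (node (nat_lit 6) (nat_lit 79812) (nat_lit 12) nil nil)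
  nil) nil) (node (nat_lit 9) (nat_lit 108793) (nat_lit 9) nil nil))) (node (nat_lit 0) (nat_lit
  103098) (nat_lit 8) nil nil)))) (node (nat_lit 4) (nat_lit 0) (nat_lit 7) (node (nat_lit 9)
  (nat_lit 0) (nat_lit 8) (node (nat_lit 6) (nat_lit 86425) (nat_lit 9) (node (nat_lit 5) (nat_lit
  105418) (nat_lit 10) (node (nat_lit 4) (nat_lit 101147) (nat_lit 11) (node (nat_lit 5) (nat_lit
  97511) (nat_lit 12) (node (nat_lit 6) (nat_lit 92178) (nat_lit 13) nil nil) nil) nil) (node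
  (nat_lit 4) (nat_lit 96791) (nat_lit 10) (node (nat_lit 6) (nat_lit 100663) (nat_lit 11) nil
  (node (nat_lit 5) (nat_lit 98703) (nat_lit 11) nil nil)) nil)) (node (nat_lit 5) (nat_lit
  107737) (nat_lit 9) (node (nat_lit 4) (nat_lit 109909) (nat_lit 10) nil nil) (node (nat_lit 0)
  (nat_lit 86412) (nat_lit 9) nil nil))) (node (nat_lit 6) (nat_lit 81183) (nat_lit 8) (node
  (nat_lit 5) (nat_lit 103930) (nat_lit 9) (node (nat_lit 4) (nat_lit 101113) (nat_lit 10) (node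
  (nat_lit 5) (nat_lit 98781) (nat_lit 11) (node (nat_lit 6) (nat_lit 89047) (nat_lit 12) (node
  (nat_lit 4) (nat_lit 71157) (nat_lit 13) nil nil) nil) nil) nil) (node (nat_lit 4) (nat_lit
  86359) (nat_lit 9) (node (nat_lit 5) (nat_lit 86850) (nat_lit 10) (node (nat_lit 6) (nat_lit
  82516) (nat_lit 11) (node (nat_lit 4) (nat_lit 43936) (nat_lit 12) (node (nat_lit 6) (nat_lit
  42463) (nat_lit 13) nil nil) nil) nil) nil) nil)) (node (nat_lit 5) (nat_lit 100733) (nat_lit 8)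
  (node (nat_lit 6) (nat_lit 105963) (nat_lit 9) (node (nat_lit 4) (nat_lit 108134) (nat_lit 10)
  nil (node (nat_lit 5) (nat_lit 108467) (nat_lit 10) (node (nat_lit 4) (nat_lit 97004) (nat_lit
  11) nil nil) nil)) (node (nat_lit 4) (nat_lit 105575) (nat_lit 9) (node (nat_lit 6) (nat_lit
  101835) (nat_lit 10) nil nil) (node (nat_lit 9) (nat_lit 105963) (nat_lit 9) nil nil))) (node
  (nat_lit 0) (nat_lit 100725) (nat_lit 8) nil nil)))) (node (nat_lit 6) (nat_lit 72291) (nat_lit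
  7) (node (nat_lit 5) (nat_lit 103292) (nat_lit 8) (node (nat_lit 4) (nat_lit 103100) (nat_lit 9)
  (node (nat_lit 6) (nat_lit 103470) (nat_lit 10) (node (nat_lit 4) (nat_lit 101856) (nat_lit 11)
  (node (nat_lit 5) (nat_lit 99780) (nat_lit 12) (node (nat_lit 6) (nat_lit 93046) (nat_lit 13)
  (node (nat_lit 4) (nat_lit 85316) (nat_lit 14) nil nil) nil) nil) (node (nat_lit 5) (nat_lit
  104505) (nat_lit 11) nil nil)) (node (nat_lit 5) (nat_lit 98115) (nat_lit 10) (node (nat_lit 6)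
  (nat_lit 74278) (nat_lit 11) (node (nat_lit 4) (nat_lit 67010) (nat_lit 12) (node (nat_lit 6)
  (nat_lit 28127) (nat_lit 13) (node (nat_lit 9) (nat_lit 21592) (nat_lit 14) nil nil) nil) nil)
  nil) nil)) (node (nat_lit 6) (nat_lit 108522) (nat_lit 9) (node (nat_lit 4) (nat_lit 110632)
  (nat_lit 10) nil nil) nil)) (node (nat_lit 4) (nat_lit 81183) (nat_lit 8) (node (nat_lit 5)
  (nat_lit 107342) (nat_lit 9) (node (nat_lit 6) (nat_lit 105341) (nat_lit 10) (node (nat_lit 4)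
  (nat_lit 107254) (nat_lit 11) (node (nat_lit 6) (nat_lit 106259) (nat_lit 12) (node (nat_lit 9)
  (nat_lit 48830) (nat_lit 13) nil nil) nil) nil) (node (nat_lit 4) (nat_lit 105145) (nat_lit 10)
  nil nil)) (node (nat_lit 6) (nat_lit 86412) (nat_lit 9) (node (nat_lit 5) (nat_lit 101746)
  (nat_lit 10) nil nil) (node (nat_lit 9) (nat_lit 86437) (nat_lit 9) (node (nat_lit 6) (nat_lit
  95240) (nat_lit 10) nil nil) nil))) nil)) (node (nat_lit 0) (nat_lit 0) (nat_lit 7) (node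
  (nat_lit 5) (nat_lit 104596) (nat_lit 8) (node (nat_lit 4) (nat_lit 109826) (nat_lit 9) nil
  (node (nat_lit 6) (nat_lit 109826) (nat_lit 9) nil nil)) (node (nat_lit 6) (nat_lit 102792)
  (nat_lit 8) (node (nat_lit 5) (nat_lit 109055) (nat_lit 9) (node (nat_lit 4) (nat_lit 93408)
  (nat_lit 10) nil nil) (node (nat_lit 4) (nat_lit 108022) (nat_lit 9) nil nil)) (node (nat_lit 4)
  (nat_lit 102775) (nat_lit 8) (node (nat_lit 6) (nat_lit 107933) (nat_lit 9) (node (nat_lit 4)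
  (nat_lit 96727) (nat_lit 10) nil nil) (node (nat_lit 5) (nat_lit 108215) (nat_lit 9) nil nil))
  (node (nat_lit 9) (nat_lit 102830) (nat_lit 8) nil (node (nat_lit 0) (nat_lit 102830) (nat_lit
  8) nil nil))))) nil)))) nil))

noncomputable def t396 : Tr :=
  (node (nat_lit 6) (nat_lit 0) (nat_lit 6) (node (nat_lit 0) (nat_lit 0) (nat_lit 7) (node
  (nat_lit 5) (nat_lit 178343) (nat_lit 8) (node (nat_lit 10) (nat_lit 179911) (nat_lit 9) (node
  (nat_lit 6) (nat_lit 180264) (nat_lit 10) (node (nat_lit 5) (nat_lit 179730) (nat_lit 11) (node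
  (nat_lit 4) (nat_lit 175566) (nat_lit 12) (node (nat_lit 5) (nat_lit 173393) (nat_lit 13) (node
  (nat_lit 6) (nat_lit 167501) (nat_lit 14) (node (nat_lit 5) (nat_lit 160628) (nat_lit 15) (node
  (nat_lit 4) (nat_lit 154801) (nat_lit 16) (node (nat_lit 6) (nat_lit 144307) (nat_lit 17) nil
  nil) nil) nil) nil) nil) (node (nat_lit 6) (nat_lit 180526) (nat_lit 12) (node (nat_lit 4)
  (nat_lit 181172) (nat_lit 13) (node (nat_lit 5) (nat_lit 181675) (nat_lit 14) (node (nat_lit 6)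
  (nat_lit 178704) (nat_lit 15) (node (nat_lit 5) (nat_lit 174894) (nat_lit 16) (node (nat_lit 4)
  (nat_lit 169059) (nat_lit 17) nil nil) nil) nil) nil) nil) nil)) nil) (node (nat_lit 4) (nat_lit
  180909) (nat_lit 10) nil nil)) (node (nat_lit 6) (nat_lit 180800) (nat_lit 9) (node (nat_lit 4)
  (nat_lit 180476) (nat_lit 10) (node (nat_lit 5) (nat_lit 174070) (nat_lit 11) (node (nat_lit 6)
  (nat_lit 162799) (nat_lit 12) (node (nat_lit 5) (nat_lit 121835) (nat_lit 13) (node (nat_lit 4)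
  (nat_lit 91443) (nat_lit 14) (node (nat_lit 6) (nat_lit 78180) (nat_lit 15) nil nil) nil) nil)
  nil) nil) (node (nat_lit 5) (nat_lit 175206) (nat_lit 10) (node (nat_lit 4) (nat_lit 172220)
  (nat_lit 11) (node (nat_lit 5) (nat_lit 168987) (nat_lit 12) (node (nat_lit 6) (nat_lit 155184)
  (nat_lit 13) nil nil) nil) nil) nil)) (node (nat_lit 4) (nat_lit 180632) (nat_lit 9) (node
  (nat_lit 6) (nat_lit 177156) (nat_lit 10) (node (nat_lit 4) (nat_lit 174037) (nat_lit 11) (node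
  (nat_lit 5) (nat_lit 170804) (nat_lit 12) nil nil) (node (nat_lit 5) (nat_lit 174093) (nat_lit
  11) nil nil)) nil) nil))) (node (nat_lit 4) (nat_lit 181052) (nat_lit 8) (node (nat_lit 6)
  (nat_lit 180797) (nat_lit 9) (node (nat_lit 4) (nat_lit 181795) (nat_lit 10) (node (nat_lit 5)
  (nat_lit 179870) (nat_lit 11) (node (nat_lit 6) (nat_lit 170624) (nat_lit 12) (node (nat_lit 5)
  (nat_lit 158691) (nat_lit 13) (node (nat_lit 4) (nat_lit 137360) (nat_lit 14) (node (nat_lit 6)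
  (nat_lit 80441) (nat_lit 15) nil nil) nil) nil) nil) nil) (node (nat_lit 5) (nat_lit 179207)
  (nat_lit 10) (node (nat_lit 4) (nat_lit 171607) (nat_lit 11) nil nil) nil)) (node (nat_lit 10)
  (nat_lit 185457) (nat_lit 9) (node (nat_lit 6) (nat_lit 182282) (nat_lit 10) (node (nat_lit 5)
  (nat_lit 181218) (nat_lit 11) (node (nat_lit 4) (nat_lit 178837) (nat_lit 12) nil nil) nil) nil)
  (node (nat_lit 5) (nat_lit 185457) (nat_lit 9) nil nil))) (node (nat_lit 6) (nat_lit 0) (nat_lit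
  8) (node (nat_lit 5) (nat_lit 183124) (nat_lit 9) (node (nat_lit 4) (nat_lit 177912) (nat_lit
  10) (node (nat_lit 5) (nat_lit 168988) (nat_lit 11) (node (nat_lit 6) (nat_lit 153344) (nat_lit
  12) (node (nat_lit 5) (nat_lit 120221) (nat_lit 13) (node (nat_lit 4) (nat_lit 106240) (nat_lit
  14) (node (nat_lit 6) (nat_lit 105286) (nat_lit 15) nil nil) nil) nil) nil) (node (nat_lit 6)
  (nat_lit 178610) (nat_lit 11) nil nil)) (node (nat_lit 6) (nat_lit 182951) (nat_lit 10) (node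
  (nat_lit 4) (nat_lit 183531) (nat_lit 11) nil nil) nil)) (node (nat_lit 4) (nat_lit 182129)
  (nat_lit 9) (node (nat_lit 5) (nat_lit 183127) (nat_lit 10) nil nil) (node (nat_lit 0) (nat_lit
  182129) (nat_lit 9) nil nil))) (node (nat_lit 0) (nat_lit 179253) (nat_lit 8) (node (nat_lit 6)
  (nat_lit 177734) (nat_lit 9) (node (nat_lit 5) (nat_lit 172949) (nat_lit 10) nil (node (nat_lit
  4) (nat_lit 179906) (nat_lit 10) nil nil)) (node (nat_lit 10) (nat_lit 184436) (nat_lit 9) nil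
  (node (nat_lit 5) (nat_lit 184198) (nat_lit 9) nil (node (nat_lit 4) (nat_lit 184198) (nat_lit
  9) nil nil)))) nil)))) (node (nat_lit 5) (nat_lit 0) (nat_lit 7) (node (nat_lit 0) (nat_lit 0)
  (nat_lit 8) (node (nat_lit 5) (nat_lit 0) (nat_lit 9) (node (nat_lit 6) (nat_lit 182171)
  (nat_lit 10) (node (nat_lit 4) (nat_lit 181206) (nat_lit 11) (node (nat_lit 5) (nat_lit 168873)
  (nat_lit 12) (node (nat_lit 6) (nat_lit 162426) (nat_lit 13) nil nil) nil) (node (nat_lit 11)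
  (nat_lit 183049) (nat_lit 11) nil (node (nat_lit 5) (nat_lit 179212) (nat_lit 11) (node (nat_lit
  4) (nat_lit 176561) (nat_lit 12) nil nil) nil))) (node (nat_lit 4) (nat_lit 182143) (nat_lit 10)
  (node (nat_lit 6) (nat_lit 179730) (nat_lit 11) (node (nat_lit 4) (nat_lit 180345) (nat_lit 12)
  nil nil) nil) (node (nat_lit 0) (nat_lit 180913) (nat_lit 10) nil nil))) (node (nat_lit 6)
  (nat_lit 182561) (nat_lit 9) (node (nat_lit 5) (nat_lit 183160) (nat_lit 10) (node (nat_lit 6)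
  (nat_lit 183085) (nat_lit 11) nil (node (nat_lit 4) (nat_lit 174938) (nat_lit 11) nil nil))
  (node (nat_lit 4) (nat_lit 183652) (nat_lit 10) nil (node (nat_lit 11) (nat_lit 183652) (nat_lit
  10) nil nil))) (node (nat_lit 4) (nat_lit 182739) (nat_lit 9) (node (nat_lit 5) (nat_lit 183737)
  (nat_lit 10) nil (node (nat_lit 6) (nat_lit 179212) (nat_lit 10) (node (nat_lit 5) (nat_lit
  176149) (nat_lit 11) nil nil) nil)) (node (nat_lit 0) (nat_lit 181160) (nat_lit 9) (node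
  (nat_lit 5) (nat_lit 178963) (nat_lit 10) nil nil) nil)))) (node (nat_lit 6) (nat_lit 0)
  (nat_lit 8) (node (nat_lit 0) (nat_lit 0) (nat_lit 9) (node (nat_lit 5) (nat_lit 172932)
  (nat_lit 10) (node (nat_lit 6) (nat_lit 172998) (nat_lit 11) (node (nat_lit 5) (nat_lit 175172)
  (nat_lit 12) (node (nat_lit 4) (nat_lit 174371) (nat_lit 13) (node (nat_lit 5) (nat_lit 173836)
  (nat_lit 14) (node (nat_lit 6) (nat_lit 171974) (nat_lit 15) nil nil) nil) nil) (node (nat_lit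
  4) (nat_lit 174816) (nat_lit 12) (node (nat_lit 5) (nat_lit 174084) (nat_lit 13) (node (nat_lit
  6) (nat_lit 170241) (nat_lit 14) nil nil) nil) nil)) (node (nat_lit 12) (nat_lit 176877)
  (nat_lit 11) nil nil)) (node (nat_lit 6) (nat_lit 173750) (nat_lit 10) (node (nat_lit 5)
  (nat_lit 172344) (nat_lit 11) (node (nat_lit 12) (nat_lit 175420) (nat_lit 12) nil nil) nil)
  (node (nat_lit 4) (nat_lit 172932) (nat_lit 10) (node (nat_lit 6) (nat_lit 172998) (nat_lit 11)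
  (node (nat_lit 4) (nat_lit 174816) (nat_lit 12) nil nil) nil) (node (nat_lit 0) (nat_lit 176996)
  (nat_lit 10) nil nil)))) nil) nil)) (node (nat_lit 4) (nat_lit 0) (nat_lit 7) (node (nat_lit 0)
  (nat_lit 0) (nat_lit 8) (node (nat_lit 4) (nat_lit 0) (nat_lit 9) (node (nat_lit 6) (nat_lit
  176833) (nat_lit 10) (node (nat_lit 5) (nat_lit 173769) (nat_lit 11) (node (nat_lit 4) (nat_lit
  171389) (nat_lit 12) nil (node (nat_lit 6) (nat_lit 174572) (nat_lit 12) nil nil)) (node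
  (nat_lit 4) (nat_lit 176276) (nat_lit 11) (node (nat_lit 5) (nat_lit 173042) (nat_lit 12) nil
  nil) nil)) (node (nat_lit 5) (nat_lit 183536) (nat_lit 10) (node (nat_lit 6) (nat_lit 181210)
  (nat_lit 11) nil nil) (node (nat_lit 0) (nat_lit 183536) (nat_lit 10) nil nil))) (node (nat_lit
  6) (nat_lit 181791) (nat_lit 9) (node (nat_lit 5) (nat_lit 181752) (nat_lit 10) (node (nat_lit
  4) (nat_lit 178206) (nat_lit 11) (node (nat_lit 5) (nat_lit 165873) (nat_lit 12) (node (nat_lit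
  6) (nat_lit 159648) (nat_lit 13) nil nil) nil) nil) (node (nat_lit 4) (nat_lit 183652) (nat_lit
  10) nil nil)) (node (nat_lit 5) (nat_lit 179353) (nat_lit 9) (node (nat_lit 4) (nat_lit 179796)
  (nat_lit 10) nil (node (nat_lit 6) (nat_lit 169898) (nat_lit 10) (node (nat_lit 4) (nat_lit
  170478) (nat_lit 11) nil nil) nil)) (node (nat_lit 0) (nat_lit 178382) (nat_lit 9) (node
  (nat_lit 4) (nat_lit 176185) (nat_lit 10) nil nil) nil)))) (node (nat_lit 5) (nat_lit 0)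
  (nat_lit 8) (node (nat_lit 0) (nat_lit 0) (nat_lit 9) (node (nat_lit 4) (nat_lit 169154)
  (nat_lit 10) (node (nat_lit 5) (nat_lit 172300) (nat_lit 11) (node (nat_lit 6) (nat_lit 175162)
  (nat_lit 12) nil (node (nat_lit 4) (nat_lit 174654) (nat_lit 12) (node (nat_lit 6) (nat_lit
  173290) (nat_lit 13) nil nil) nil)) (node (nat_lit 6) (nat_lit 163919) (nat_lit 11) nil nil))
  (node (nat_lit 6) (nat_lit 163261) (nat_lit 10) (node (nat_lit 5) (nat_lit 166156) (nat_lit 11)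
  (node (nat_lit 4) (nat_lit 161149) (nat_lit 12) nil nil) nil) (node (nat_lit 5) (nat_lit 163330)
  (nat_lit 10) (node (nat_lit 4) (nat_lit 167499) (nat_lit 11) nil nil) (node (nat_lit 0) (nat_lit
  162800) (nat_lit 10) nil nil)))) (node (nat_lit 6) (nat_lit 0) (nat_lit 9) (node (nat_lit 4)
  (nat_lit 0) (nat_lit 10) (node (nat_lit 0) (nat_lit 113318) (nat_lit 11) nil (node (nat_lit 6)
  (nat_lit 114102) (nat_lit 11) (node (nat_lit 5) (nat_lit 113881) (nat_lit 12) nil nil) nil))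
  (node (nat_lit 5) (nat_lit 0) (nat_lit 10) (node (nat_lit 4) (nat_lit 31507) (nat_lit 11) nil
  (node (nat_lit 0) (nat_lit 76709) (nat_lit 11) nil nil)) (node (nat_lit 0) (nat_lit 107307)
  (nat_lit 10) nil nil))) (node (nat_lit 4) (nat_lit 0) (nat_lit 9) (node (nat_lit 0) (nat_lit
  167279) (nat_lit 10) (node (nat_lit 6) (nat_lit 167627) (nat_lit 11) nil nil) (node (nat_lit 6)
  (nat_lit 164912) (nat_lit 10) nil nil)) nil))) nil)) nil))) (node (nat_lit 5) (nat_lit 0)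
  (nat_lit 6) (node (nat_lit 0) (nat_lit 0) (nat_lit 7) (node (nat_lit 6) (nat_lit 0) (nat_lit 8)
  (node (nat_lit 10) (nat_lit 106028) (nat_lit 9) (node (nat_lit 4) (nat_lit 109855) (nat_lit 10)
  (node (nat_lit 6) (nat_lit 111369) (nat_lit 11) (node (nat_lit 4) (nat_lit 106998) (nat_lit 12)
  (node (nat_lit 5) (nat_lit 104971) (nat_lit 13) (node (nat_lit 6) (nat_lit 102547) (nat_lit 14)
  nil nil) nil) (node (nat_lit 5) (nat_lit 109451) (nat_lit 12) nil nil)) nil) (node (nat_lit 5)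
  (nat_lit 108570) (nat_lit 10) (node (nat_lit 6) (nat_lit 110843) (nat_lit 11) (node (nat_lit 4)
  (nat_lit 106471) (nat_lit 12) (node (nat_lit 5) (nat_lit 105180) (nat_lit 13) nil nil) (node
  (nat_lit 5) (nat_lit 111783) (nat_lit 12) nil nil)) (node (nat_lit 4) (nat_lit 110843) (nat_lit
  11) nil nil)) nil)) (node (nat_lit 5) (nat_lit 106702) (nat_lit 9) (node (nat_lit 4) (nat_lit
  109243) (nat_lit 10) (node (nat_lit 5) (nat_lit 110278) (nat_lit 11) (node (nat_lit 6) (nat_lit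
  111219) (nat_lit 12) (node (nat_lit 5) (nat_lit 111981) (nat_lit 13) (node (nat_lit 4) (nat_lit
  110873) (nat_lit 14) nil nil) nil) nil) (node (nat_lit 6) (nat_lit 106424) (nat_lit 11) nil
  nil)) (node (nat_lit 6) (nat_lit 109243) (nat_lit 10) (node (nat_lit 4) (nat_lit 113601)
  (nat_lit 11) (node (nat_lit 5) (nat_lit 114714) (nat_lit 12) nil nil) nil) (node (nat_lit 10)
  (nat_lit 107877) (nat_lit 10) nil nil))) (node (nat_lit 4) (nat_lit 109537) (nat_lit 9) (node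
  (nat_lit 5) (nat_lit 112080) (nat_lit 10) nil (node (nat_lit 6) (nat_lit 109533) (nat_lit 10)
  (node (nat_lit 5) (nat_lit 111233) (nat_lit 11) (node (nat_lit 4) (nat_lit 109314) (nat_lit 12)
  nil nil) nil) nil)) (node (nat_lit 0) (nat_lit 106254) (nat_lit 9) nil nil)))) (node (nat_lit 4)
  (nat_lit 0) (nat_lit 8) (node (nat_lit 10) (nat_lit 107920) (nat_lit 9) (node (nat_lit 5)
  (nat_lit 110462) (nat_lit 10) (node (nat_lit 6) (nat_lit 112734) (nat_lit 11) (node (nat_lit 4)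
  (nat_lit 106833) (nat_lit 12) nil nil) (node (nat_lit 4) (nat_lit 109327) (nat_lit 11) nil nil))
  (node (nat_lit 6) (nat_lit 110302) (nat_lit 10) (node (nat_lit 4) (nat_lit 111337) (nat_lit 11)
  nil nil) nil)) (node (nat_lit 6) (nat_lit 106722) (nat_lit 9) (node (nat_lit 4) (nat_lit 106637)
  (nat_lit 10) (node (nat_lit 5) (nat_lit 104362) (nat_lit 11) (node (nat_lit 6) (nat_lit 94466)
  (nat_lit 12) (node (nat_lit 5) (nat_lit 56245) (nat_lit 13) nil nil) nil) nil) (node (nat_lit 5)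
  (nat_lit 108352) (nat_lit 10) (node (nat_lit 4) (nat_lit 110624) (nat_lit 11) nil (node (nat_lit
  6) (nat_lit 103803) (nat_lit 11) nil nil)) nil)) (node (nat_lit 5) (nat_lit 107920) (nat_lit 9)
  (node (nat_lit 6) (nat_lit 109094) (nat_lit 10) nil (node (nat_lit 4) (nat_lit 110462) (nat_lit
  10) (node (nat_lit 6) (nat_lit 110694) (nat_lit 11) (node (nat_lit 4) (nat_lit 104792) (nat_lit
  12) nil nil) nil) nil)) (node (nat_lit 0) (nat_lit 105924) (nat_lit 9) nil nil)))) (node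
  (nat_lit 5) (nat_lit 0) (nat_lit 8) (node (nat_lit 6) (nat_lit 107565) (nat_lit 9) (node
  (nat_lit 4) (nat_lit 110972) (nat_lit 10) (node (nat_lit 5) (nat_lit 106045) (nat_lit 11) (node
  (nat_lit 6) (nat_lit 78576) (nat_lit 12) nil nil) nil) (node (nat_lit 5) (nat_lit 109604)
  (nat_lit 10) (node (nat_lit 4) (nat_lit 107074) (nat_lit 11) (node (nat_lit 5) (nat_lit 108015)
  (nat_lit 12) nil nil) nil) nil)) (node (nat_lit 4) (nat_lit 109537) (nat_lit 9) (node (nat_lit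
  6) (nat_lit 112080) (nat_lit 10) (node (nat_lit 4) (nat_lit 114353) (nat_lit 11) nil nil) (node
  (nat_lit 5) (nat_lit 110712) (nat_lit 10) nil nil)) (node (nat_lit 0) (nat_lit 107804) (nat_lit
  9) nil nil))) (node (nat_lit 0) (nat_lit 0) (nat_lit 8) (node (nat_lit 5) (nat_lit 109646)
  (nat_lit 9) (node (nat_lit 6) (nat_lit 105040) (nat_lit 10) nil (node (nat_lit 4) (nat_lit
  111417) (nat_lit 10) nil (node (nat_lit 11) (nat_lit 110820) (nat_lit 10) nil nil))) (node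
  (nat_lit 10) (nat_lit 109646) (nat_lit 9) (node (nat_lit 5) (nat_lit 108317) (nat_lit 10) nil
  (node (nat_lit 6) (nat_lit 110820) (nat_lit 10) nil (node (nat_lit 4) (nat_lit 108317) (nat_lit
  10) nil nil))) (node (nat_lit 4) (nat_lit 109646) (nat_lit 9) nil (node (nat_lit 6) (nat_lit
  109646) (nat_lit 9) nil (node (nat_lit 0) (nat_lit 108097) (nat_lit 9) nil nil))))) nil))))
  (node (nat_lit 6) (nat_lit 0) (nat_lit 7) (node (nat_lit 0) (nat_lit 0) (nat_lit 8) (node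
  (nat_lit 6) (nat_lit 0) (nat_lit 9) (node (nat_lit 5) (nat_lit 105861) (nat_lit 10) (node
  (nat_lit 4) (nat_lit 109093) (nat_lit 11) (node (nat_lit 5) (nat_lit 110033) (nat_lit 12) (node
  (nat_lit 6) (nat_lit 110795) (nat_lit 13) nil nil) nil) (node (nat_lit 6) (nat_lit 109093)
  (nat_lit 11) (node (nat_lit 4) (nat_lit 103192) (nat_lit 12) nil nil) (node (nat_lit 11)
  (nat_lit 104746) (nat_lit 11) nil nil))) (node (nat_lit 4) (nat_lit 107818) (nat_lit 10) (node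
  (nat_lit 5) (nat_lit 111049) (nat_lit 11) nil (node (nat_lit 6) (nat_lit 108853) (nat_lit 11)
  nil (node (nat_lit 11) (nat_lit 108853) (nat_lit 11) nil nil))) (node (nat_lit 0) (nat_lit
  102472) (nat_lit 10) (node (nat_lit 6) (nat_lit 103507) (nat_lit 11) nil nil) nil))) (node
  (nat_lit 5) (nat_lit 0) (nat_lit 9) (node (nat_lit 4) (nat_lit 107239) (nat_lit 10) (node
  (nat_lit 6) (nat_lit 108115) (nat_lit 11) (node (nat_lit 4) (nat_lit 102214) (nat_lit 12) nil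
  nil) (node (nat_lit 5) (nat_lit 108274) (nat_lit 11) nil nil)) (node (nat_lit 6) (nat_lit
  105687) (nat_lit 10) (node (nat_lit 5) (nat_lit 108919) (nat_lit 11) nil (node (nat_lit 4)
  (nat_lit 111049) (nat_lit 11) nil nil)) (node (nat_lit 11) (nat_lit 105325) (nat_lit 10) (node
  (nat_lit 6) (nat_lit 106360) (nat_lit 11) nil nil) (node (nat_lit 0) (nat_lit 102466) (nat_lit
  10) nil nil)))) (node (nat_lit 4) (nat_lit 101446) (nat_lit 9) (node (nat_lit 6) (nat_lit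
  105391) (nat_lit 10) (node (nat_lit 4) (nat_lit 106776) (nat_lit 11) nil (node (nat_lit 5)
  (nat_lit 102862) (nat_lit 11) nil nil)) (node (nat_lit 5) (nat_lit 105437) (nat_lit 10) nil
  (node (nat_lit 11) (nat_lit 102402) (nat_lit 10) nil nil))) (node (nat_lit 0) (nat_lit 103604)
  (nat_lit 9) (node (nat_lit 6) (nat_lit 105325) (nat_lit 10) nil (node (nat_lit 11) (nat_lit
  104779) (nat_lit 10) nil nil)) nil)))) (node (nat_lit 4) (nat_lit 0) (nat_lit 8) (node (nat_lit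
  0) (nat_lit 0) (nat_lit 9) (node (nat_lit 6) (nat_lit 103483) (nat_lit 10) (node (nat_lit 4)
  (nat_lit 108282) (nat_lit 11) (node (nat_lit 6) (nat_lit 111710) (nat_lit 12) (node (nat_lit 5)
  (nat_lit 110521) (nat_lit 13) nil nil) (node (nat_lit 5) (nat_lit 111710) (nat_lit 12) nil (node
  (nat_lit 0) (nat_lit 109993) (nat_lit 12) nil nil))) (node (nat_lit 5) (nat_lit 101424) (nat_lit
  11) nil nil)) (node (nat_lit 5) (nat_lit 103483) (nat_lit 10) (node (nat_lit 4) (nat_lit 107216)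
  (nat_lit 11) nil nil) (node (nat_lit 4) (nat_lit 103799) (nat_lit 10) (node (nat_lit 6) (nat_lit
  108187) (nat_lit 11) (node (nat_lit 12) (nat_lit 109898) (nat_lit 12) nil nil) nil) (node
  (nat_lit 0) (nat_lit 100666) (nat_lit 10) nil nil)))) (node (nat_lit 5) (nat_lit 0) (nat_lit 9)
  (node (nat_lit 4) (nat_lit 0) (nat_lit 10) (node (nat_lit 6) (nat_lit 107884) (nat_lit 11) (node
  (nat_lit 4) (nat_lit 102753) (nat_lit 12) nil nil) (node (nat_lit 0) (nat_lit 105858) (nat_lit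
  11) nil nil)) (node (nat_lit 0) (nat_lit 103373) (nat_lit 10) nil nil)) nil)) nil)) nil)) (node
  (nat_lit 0) (nat_lit 0) (nat_lit 6) (node (nat_lit 5) (nat_lit 0) (nat_lit 7) (node (nat_lit 4)
  (nat_lit 181982) (nat_lit 8) (node (nat_lit 6) (nat_lit 179810) (nat_lit 9) (node (nat_lit 4)
  (nat_lit 178966) (nat_lit 10) (node (nat_lit 5) (nat_lit 172693) (nat_lit 11) (node (nat_lit 6)
  (nat_lit 162074) (nat_lit 12) (node (nat_lit 5) (nat_lit 132814) (nat_lit 13) (node (nat_lit 4)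
  (nat_lit 108874) (nat_lit 14) nil nil) nil) nil) nil) (node (nat_lit 5) (nat_lit 175413)
  (nat_lit 10) (node (nat_lit 4) (nat_lit 175604) (nat_lit 11) (node (nat_lit 5) (nat_lit 172007)
  (nat_lit 12) nil nil) (node (nat_lit 6) (nat_lit 176111) (nat_lit 11) nil nil)) nil)) (node
  (nat_lit 5) (nat_lit 185003) (nat_lit 9) nil nil)) (node (nat_lit 6) (nat_lit 179579) (nat_lit
  8) (node (nat_lit 4) (nat_lit 182865) (nat_lit 9) (node (nat_lit 5) (nat_lit 179084) (nat_lit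
  10) (node (nat_lit 6) (nat_lit 141876) (nat_lit 11) (node (nat_lit 5) (nat_lit 105829) (nat_lit
  12) (node (nat_lit 4) (nat_lit 77292) (nat_lit 13) nil nil) nil) nil) nil) (node (nat_lit 5)
  (nat_lit 180261) (nat_lit 9) (node (nat_lit 4) (nat_lit 175048) (nat_lit 10) (node (nat_lit 5)
  (nat_lit 161080) (nat_lit 11) nil nil) nil) nil)) (node (nat_lit 9) (nat_lit 181192) (nat_lit 8)
  (node (nat_lit 4) (nat_lit 182192) (nat_lit 9) (node (nat_lit 6) (nat_lit 178236) (nat_lit 10)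
  (node (nat_lit 4) (nat_lit 178426) (nat_lit 11) (node (nat_lit 5) (nat_lit 174829) (nat_lit 12)
  nil nil) nil) nil) (node (nat_lit 6) (nat_lit 183935) (nat_lit 9) (node (nat_lit 5) (nat_lit
  179538) (nat_lit 10) (node (nat_lit 4) (nat_lit 174997) (nat_lit 11) nil nil) nil) nil)) (node
  (nat_lit 0) (nat_lit 181192) (nat_lit 8) nil nil)))) (node (nat_lit 6) (nat_lit 0) (nat_lit 7)
  (node (nat_lit 5) (nat_lit 181020) (nat_lit 8) (node (nat_lit 4) (nat_lit 180445) (nat_lit 9)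
  (node (nat_lit 5) (nat_lit 156885) (nat_lit 10) (node (nat_lit 6) (nat_lit 151639) (nat_lit 11)
  (node (nat_lit 5) (nat_lit 109624) (nat_lit 12) (node (nat_lit 4) (nat_lit 108168) (nat_lit 13)
  nil nil) nil) nil) (node (nat_lit 6) (nat_lit 180661) (nat_lit 10) (node (nat_lit 4) (nat_lit
  179701) (nat_lit 11) (node (nat_lit 5) (nat_lit 176104) (nat_lit 12) (node (nat_lit 6) (nat_lit
  168813) (nat_lit 13) nil nil) nil) nil) nil)) (node (nat_lit 6) (nat_lit 176691) (nat_lit 9)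
  (node (nat_lit 4) (nat_lit 175846) (nat_lit 10) (node (nat_lit 5) (nat_lit 169573) (nat_lit 11)
  nil nil) nil) nil)) (node (nat_lit 9) (nat_lit 179410) (nat_lit 8) (node (nat_lit 4) (nat_lit
  183309) (nat_lit 9) (node (nat_lit 6) (nat_lit 180134) (nat_lit 10) (node (nat_lit 4) (nat_lit
  173910) (nat_lit 11) nil nil) nil) (node (nat_lit 5) (nat_lit 183309) (nat_lit 9) (node (nat_lit
  6) (nat_lit 176810) (nat_lit 10) (node (nat_lit 4) (nat_lit 177001) (nat_lit 11) nil nil) nil)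
  nil)) (node (nat_lit 4) (nat_lit 178814) (nat_lit 8) (node (nat_lit 5) (nat_lit 184043) (nat_lit
  9) nil (node (nat_lit 6) (nat_lit 178865) (nat_lit 9) (node (nat_lit 5) (nat_lit 174469)
  (nat_lit 10) nil nil) nil)) (node (nat_lit 0) (nat_lit 178814) (nat_lit 8) nil nil)))) (node
  (nat_lit 0) (nat_lit 0) (nat_lit 7) (node (nat_lit 5) (nat_lit 178950) (nat_lit 8) (node
  (nat_lit 6) (nat_lit 178733) (nat_lit 9) (node (nat_lit 4) (nat_lit 173130) (nat_lit 10) (node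
  (nat_lit 5) (nat_lit 166857) (nat_lit 11) nil nil) nil) (node (nat_lit 4) (nat_lit 181239)
  (nat_lit 9) nil nil)) (node (nat_lit 6) (nat_lit 178819) (nat_lit 8) (node (nat_lit 5) (nat_lit
  179087) (nat_lit 9) (node (nat_lit 4) (nat_lit 167062) (nat_lit 10) nil nil) (node (nat_lit 4)
  (nat_lit 181108) (nat_lit 9) nil nil)) (node (nat_lit 4) (nat_lit 181968) (nat_lit 8) (node
  (nat_lit 6) (nat_lit 180653) (nat_lit 9) (node (nat_lit 4) (nat_lit 174157) (nat_lit 10) nil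
  nil) (node (nat_lit 5) (nat_lit 184256) (nat_lit 9) nil nil)) (node (nat_lit 0) (nat_lit 180692)
  (nat_lit 8) nil (node (nat_lit 9) (nat_lit 180692) (nat_lit 8) nil nil))))) (node (nat_lit 4)
  (nat_lit 169012) (nat_lit 7) (node (nat_lit 6) (nat_lit 180469) (nat_lit 8) (node (nat_lit 5)
  (nat_lit 184279) (nat_lit 9) (node (nat_lit 6) (nat_lit 179073) (nat_lit 10) (node (nat_lit 4)
  (nat_lit 179264) (nat_lit 11) (node (nat_lit 5) (nat_lit 175667) (nat_lit 12) (node (nat_lit 6)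
  (nat_lit 169805) (nat_lit 13) nil nil) nil) nil) (node (nat_lit 4) (nat_lit 179066) (nat_lit 10)
  (node (nat_lit 5) (nat_lit 172793) (nat_lit 11) (node (nat_lit 6) (nat_lit 164738) (nat_lit 12)
  nil nil) nil) nil)) (node (nat_lit 4) (nat_lit 186559) (nat_lit 9) (node (nat_lit 5) (nat_lit
  182565) (nat_lit 10) (node (nat_lit 6) (nat_lit 161336) (nat_lit 11) (node (nat_lit 5) (nat_lit
  103937) (nat_lit 12) (node (nat_lit 4) (nat_lit 78809) (nat_lit 13) nil nil) nil) nil) nil)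
  nil)) (node (nat_lit 5) (nat_lit 183047) (nat_lit 8) (node (nat_lit 6) (nat_lit 180256) (nat_lit
  9) (node (nat_lit 5) (nat_lit 179053) (nat_lit 10) (node (nat_lit 4) (nat_lit 175773) (nat_lit
  11) nil nil) (node (nat_lit 4) (nat_lit 181253) (nat_lit 10) nil nil)) nil) nil)) nil)))) nil)))

noncomputable def t397 : Tr :=
  (node (nat_lit 7) (nat_lit 0) (nat_lit 6) (node (nat_lit 4) (nat_lit 0) (nat_lit 7) (node
  (nat_lit 0) (nat_lit 0) (nat_lit 8) (node (nat_lit 4) (nat_lit 0) (nat_lit 9) (node (nat_lit 5)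
  (nat_lit 142502) (nat_lit 10) (node (nat_lit 7) (nat_lit 142657) (nat_lit 11) (node (nat_lit 4)
  (nat_lit 141938) (nat_lit 12) nil nil) (node (nat_lit 4) (nat_lit 140458) (nat_lit 11) nil nil))
  (node (nat_lit 7) (nat_lit 140783) (nat_lit 10) (node (nat_lit 4) (nat_lit 138288) (nat_lit 11)
  (node (nat_lit 5) (nat_lit 135723) (nat_lit 12) nil nil) nil) (node (nat_lit 0) (nat_lit 144653)
  (nat_lit 10) nil nil))) (node (nat_lit 5) (nat_lit 144108) (nat_lit 9) (node (nat_lit 7)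
  (nat_lit 139838) (nat_lit 10) (node (nat_lit 4) (nat_lit 135365) (nat_lit 11) (node (nat_lit 5)
  (nat_lit 132800) (nat_lit 12) (node (nat_lit 4) (nat_lit 126543) (nat_lit 13) (node (nat_lit 7)
  (nat_lit 115249) (nat_lit 14) (node (nat_lit 5) (nat_lit 99343) (nat_lit 15) (node (nat_lit 7)
  (nat_lit 74864) (nat_lit 16) (node (nat_lit 4) (nat_lit 33256) (nat_lit 17) nil nil) nil) nil)
  nil) nil) nil) nil) (node (nat_lit 4) (nat_lit 141885) (nat_lit 10) (node (nat_lit 7) (nat_lit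
  142209) (nat_lit 11) nil nil) (node (nat_lit 11) (nat_lit 144653) (nat_lit 10) nil nil))) (node
  (nat_lit 7) (nat_lit 142874) (nat_lit 9) nil (node (nat_lit 0) (nat_lit 142874) (nat_lit 9) nil
  nil)))) (node (nat_lit 7) (nat_lit 0) (nat_lit 8) (node (nat_lit 0) (nat_lit 0) (nat_lit 9)
  (node (nat_lit 4) (nat_lit 142286) (nat_lit 10) (node (nat_lit 7) (nat_lit 141040) (nat_lit 11)
  (node (nat_lit 4) (nat_lit 140405) (nat_lit 12) (node (nat_lit 5) (nat_lit 135868) (nat_lit 13)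
  (node (nat_lit 4) (nat_lit 132554) (nat_lit 14) (node (nat_lit 7) (nat_lit 126423) (nat_lit 15)
  (node (nat_lit 5) (nat_lit 117121) (nat_lit 16) (node (nat_lit 7) (nat_lit 99692) (nat_lit 17)
  (node (nat_lit 4) (nat_lit 72013) (nat_lit 18) nil nil) nil) nil) nil) nil) (node (nat_lit 12)
  (nat_lit 141793) (nat_lit 13) nil nil)) nil) (node (nat_lit 12) (nat_lit 143375) (nat_lit 11)
  nil (node (nat_lit 5) (nat_lit 141368) (nat_lit 11) nil nil))) (node (nat_lit 5) (nat_lit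
  138427) (nat_lit 10) (node (nat_lit 7) (nat_lit 140755) (nat_lit 11) (node (nat_lit 4) (nat_lit
  140120) (nat_lit 12) nil nil) nil) (node (nat_lit 7) (nat_lit 143657) (nat_lit 10) nil (node
  (nat_lit 0) (nat_lit 143657) (nat_lit 10) nil nil)))) nil) (node (nat_lit 5) (nat_lit 0)
  (nat_lit 8) (node (nat_lit 0) (nat_lit 0) (nat_lit 9) (node (nat_lit 4) (nat_lit 107574)
  (nat_lit 10) (node (nat_lit 5) (nat_lit 112539) (nat_lit 11) (node (nat_lit 4) (nat_lit 115546)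
  (nat_lit 12) (node (nat_lit 12) (nat_lit 116933) (nat_lit 13) nil (node (nat_lit 7) (nat_lit
  113917) (nat_lit 13) nil nil)) (node (nat_lit 7) (nat_lit 116032) (nat_lit 12) (node (nat_lit 4)
  (nat_lit 118757) (nat_lit 13) nil (node (nat_lit 5) (nat_lit 117419) (nat_lit 13) nil nil))
  (node (nat_lit 0) (nat_lit 114314) (nat_lit 12) nil nil))) (node (nat_lit 7) (nat_lit 113609)
  (nat_lit 11) nil nil)) (node (nat_lit 5) (nat_lit 108399) (nat_lit 10) (node (nat_lit 4)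
  (nat_lit 112815) (nat_lit 11) (node (nat_lit 12) (nat_lit 114590) (nat_lit 12) nil nil) nil)
  (node (nat_lit 7) (nat_lit 109686) (nat_lit 10) (node (nat_lit 5) (nat_lit 114160) (nat_lit 11)
  nil nil) (node (nat_lit 0) (nat_lit 104909) (nat_lit 10) nil nil)))) (node (nat_lit 7) (nat_lit
  0) (nat_lit 9) (node (nat_lit 5) (nat_lit 0) (nat_lit 10) (node (nat_lit 4) (nat_lit 114388)
  (nat_lit 11) (node (nat_lit 5) (nat_lit 112909) (nat_lit 12) nil nil) (node (nat_lit 0) (nat_lit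
  112191) (nat_lit 11) nil nil)) (node (nat_lit 0) (nat_lit 109971) (nat_lit 10) nil nil)) nil))
  nil))) (node (nat_lit 0) (nat_lit 0) (nat_lit 7) (node (nat_lit 4) (nat_lit 140000) (nat_lit 8)
  (node (nat_lit 5) (nat_lit 137317) (nat_lit 9) (node (nat_lit 7) (nat_lit 137198) (nat_lit 10)
  (node (nat_lit 4) (nat_lit 135383) (nat_lit 11) (node (nat_lit 5) (nat_lit 132502) (nat_lit 12)
  (node (nat_lit 4) (nat_lit 126244) (nat_lit 13) (node (nat_lit 7) (nat_lit 114951) (nat_lit 14)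
  (node (nat_lit 5) (nat_lit 99045) (nat_lit 15) nil nil) nil) nil) nil) nil) (node (nat_lit 4)
  (nat_lit 133958) (nat_lit 10) (node (nat_lit 7) (nat_lit 134283) (nat_lit 11) nil nil) nil))
  (node (nat_lit 10) (nat_lit 142900) (nat_lit 9) nil (node (nat_lit 7) (nat_lit 139997) (nat_lit
  9) (node (nat_lit 4) (nat_lit 137367) (nat_lit 10) (node (nat_lit 5) (nat_lit 134266) (nat_lit
  11) (node (nat_lit 4) (nat_lit 121614) (nat_lit 12) (node (nat_lit 7) (nat_lit 79496) (nat_lit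
  13) (node (nat_lit 5) (nat_lit 49033) (nat_lit 14) nil nil) nil) nil) nil) (node (nat_lit 5)
  (nat_lit 136638) (nat_lit 10) nil nil)) nil))) (node (nat_lit 5) (nat_lit 141812) (nat_lit 8)
  (node (nat_lit 10) (nat_lit 143064) (nat_lit 9) nil (node (nat_lit 7) (nat_lit 140859) (nat_lit
  9) (node (nat_lit 4) (nat_lit 137030) (nat_lit 10) (node (nat_lit 5) (nat_lit 132519) (nat_lit
  11) (node (nat_lit 4) (nat_lit 111131) (nat_lit 12) (node (nat_lit 7) (nat_lit 92249) (nat_lit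
  13) (node (nat_lit 5) (nat_lit 63458) (nat_lit 14) nil nil) nil) nil) nil) nil) (node (nat_lit
  4) (nat_lit 140393) (nat_lit 9) (node (nat_lit 5) (nat_lit 138787) (nat_lit 10) (node (nat_lit
  7) (nat_lit 138942) (nat_lit 11) (node (nat_lit 4) (nat_lit 138554) (nat_lit 12) nil nil) nil)
  (node (nat_lit 7) (nat_lit 140459) (nat_lit 10) (node (nat_lit 4) (nat_lit 139632) (nat_lit 11)
  nil nil) nil)) nil))) (node (nat_lit 7) (nat_lit 145429) (nat_lit 8) (node (nat_lit 5) (nat_lit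
  142746) (nat_lit 9) (node (nat_lit 7) (nat_lit 142627) (nat_lit 10) (node (nat_lit 4) (nat_lit
  140812) (nat_lit 11) nil nil) nil) nil) (node (nat_lit 0) (nat_lit 145429) (nat_lit 8) (node
  (nat_lit 7) (nat_lit 145748) (nat_lit 9) nil (node (nat_lit 4) (nat_lit 142746) (nat_lit 9) nil
  (node (nat_lit 5) (nat_lit 142746) (nat_lit 9) nil nil))) nil)))) nil)) (node (nat_lit 4)
  (nat_lit 0) (nat_lit 6) (node (nat_lit 0) (nat_lit 0) (nat_lit 7) (node (nat_lit 7) (nat_lit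
  142765) (nat_lit 8) (node (nat_lit 10) (nat_lit 145665) (nat_lit 9) (node (nat_lit 4) (nat_lit
  142307) (nat_lit 10) (node (nat_lit 7) (nat_lit 142631) (nat_lit 11) (node (nat_lit 4) (nat_lit
  141556) (nat_lit 12) (node (nat_lit 5) (nat_lit 139795) (nat_lit 13) (node (nat_lit 4) (nat_lit
  133849) (nat_lit 14) (node (nat_lit 7) (nat_lit 127321) (nat_lit 15) (node (nat_lit 5) (nat_lit
  119552) (nat_lit 16) (node (nat_lit 4) (nat_lit 105542) (nat_lit 17) nil nil) nil) nil) nil)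
  nil) nil) nil) (node (nat_lit 5) (nat_lit 142307) (nat_lit 10) (node (nat_lit 7) (nat_lit
  142631) (nat_lit 11) (node (nat_lit 4) (nat_lit 141556) (nat_lit 12) (node (nat_lit 5) (nat_lit
  139795) (nat_lit 13) nil nil) nil) nil) nil)) (node (nat_lit 5) (nat_lit 140082) (nat_lit 9)
  (node (nat_lit 7) (nat_lit 139964) (nat_lit 10) (node (nat_lit 4) (nat_lit 138148) (nat_lit 11)
  (node (nat_lit 5) (nat_lit 134649) (nat_lit 12) (node (nat_lit 4) (nat_lit 126158) (nat_lit 13)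
  (node (nat_lit 7) (nat_lit 117716) (nat_lit 14) (node (nat_lit 5) (nat_lit 101810) (nat_lit 15)
  nil nil) nil) nil) nil) nil) nil) (node (nat_lit 4) (nat_lit 145665) (nat_lit 9) nil nil)))
  (node (nat_lit 5) (nat_lit 141540) (nat_lit 8) (node (nat_lit 7) (nat_lit 142520) (nat_lit 9)
  (node (nat_lit 4) (nat_lit 136892) (nat_lit 10) (node (nat_lit 5) (nat_lit 132159) (nat_lit 11)
  (node (nat_lit 4) (nat_lit 106268) (nat_lit 12) (node (nat_lit 7) (nat_lit 71467) (nat_lit 13)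
  (node (nat_lit 5) (nat_lit 47458) (nat_lit 14) nil nil) nil) nil) nil) (node (nat_lit 5)
  (nat_lit 143065) (nat_lit 10) nil nil)) (node (nat_lit 4) (nat_lit 140393) (nat_lit 9) (node
  (nat_lit 7) (nat_lit 140459) (nat_lit 10) (node (nat_lit 4) (nat_lit 139632) (nat_lit 11) (node
  (nat_lit 5) (nat_lit 136231) (nat_lit 12) (node (nat_lit 4) (nat_lit 127741) (nat_lit 13) nil
  nil) nil) nil) (node (nat_lit 5) (nat_lit 138787) (nat_lit 10) (node (nat_lit 7) (nat_lit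
  138942) (nat_lit 11) (node (nat_lit 4) (nat_lit 138431) (nat_lit 12) nil nil) nil) nil)) (node
  (nat_lit 10) (nat_lit 143064) (nat_lit 9) (node (nat_lit 4) (nat_lit 141082) (nat_lit 10) (node
  (nat_lit 7) (nat_lit 141407) (nat_lit 11) (node (nat_lit 4) (nat_lit 140331) (nat_lit 12) nil
  nil) nil) nil) nil))) (node (nat_lit 4) (nat_lit 0) (nat_lit 8) (node (nat_lit 7) (nat_lit
  142520) (nat_lit 9) (node (nat_lit 4) (nat_lit 136003) (nat_lit 10) (node (nat_lit 5) (nat_lit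
  131691) (nat_lit 11) (node (nat_lit 4) (nat_lit 109955) (nat_lit 12) (node (nat_lit 7) (nat_lit
  65825) (nat_lit 13) (node (nat_lit 5) (nat_lit 39511) (nat_lit 14) nil nil) nil) nil) nil) (node
  (nat_lit 5) (nat_lit 140914) (nat_lit 10) (node (nat_lit 7) (nat_lit 141069) (nat_lit 11) (node
  (nat_lit 4) (nat_lit 140604) (nat_lit 12) nil nil) nil) nil)) (node (nat_lit 5) (nat_lit 140012)
  (nat_lit 9) (node (nat_lit 7) (nat_lit 139894) (nat_lit 10) (node (nat_lit 4) (nat_lit 138079)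
  (nat_lit 11) nil nil) nil) (node (nat_lit 0) (nat_lit 143064) (nat_lit 9) nil nil))) (node
  (nat_lit 0) (nat_lit 142765) (nat_lit 8) (node (nat_lit 10) (nat_lit 145665) (nat_lit 9) nil
  (node (nat_lit 4) (nat_lit 140082) (nat_lit 9) (node (nat_lit 7) (nat_lit 139964) (nat_lit 10)
  nil (node (nat_lit 5) (nat_lit 136723) (nat_lit 10) nil nil)) (node (nat_lit 5) (nat_lit 142569)
  (nat_lit 9) nil (node (nat_lit 7) (nat_lit 145665) (nat_lit 9) nil nil)))) nil)))) (node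
  (nat_lit 5) (nat_lit 0) (nat_lit 7) (node (nat_lit 0) (nat_lit 0) (nat_lit 8) (node (nat_lit 5)
  (nat_lit 0) (nat_lit 9) (node (nat_lit 7) (nat_lit 143023) (nat_lit 10) (node (nat_lit 4)
  (nat_lit 140891) (nat_lit 11) (node (nat_lit 5) (nat_lit 137708) (nat_lit 12) (node (nat_lit 4)
  (nat_lit 130647) (nat_lit 13) nil nil) nil) nil) (node (nat_lit 4) (nat_lit 141638) (nat_lit 10)
  (node (nat_lit 7) (nat_lit 141620) (nat_lit 11) (node (nat_lit 4) (nat_lit 140118) (nat_lit 12)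
  (node (nat_lit 5) (nat_lit 138264) (nat_lit 13) nil nil) nil) nil) (node (nat_lit 0) (nat_lit
  141638) (nat_lit 10) nil nil))) (node (nat_lit 4) (nat_lit 0) (nat_lit 9) (node (nat_lit 7)
  (nat_lit 142438) (nat_lit 10) (node (nat_lit 4) (nat_lit 136886) (nat_lit 11) (node (nat_lit 5)
  (nat_lit 133671) (nat_lit 12) nil nil) nil) (node (nat_lit 5) (nat_lit 141638) (nat_lit 10)
  (node (nat_lit 7) (nat_lit 137464) (nat_lit 11) nil nil) (node (nat_lit 11) (nat_lit 141638)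
  (nat_lit 10) nil (node (nat_lit 0) (nat_lit 141638) (nat_lit 10) nil nil)))) (node (nat_lit 7)
  (nat_lit 143371) (nat_lit 9) nil (node (nat_lit 0) (nat_lit 143371) (nat_lit 9) (node (nat_lit
  5) (nat_lit 140012) (nat_lit 10) nil nil) nil)))) (node (nat_lit 7) (nat_lit 0) (nat_lit 8)
  (node (nat_lit 0) (nat_lit 0) (nat_lit 9) (node (nat_lit 5) (nat_lit 142286) (nat_lit 10) (node
  (nat_lit 7) (nat_lit 141383) (nat_lit 11) (node (nat_lit 4) (nat_lit 140748) (nat_lit 12) (node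
  (nat_lit 5) (nat_lit 139746) (nat_lit 13) nil nil) (node (nat_lit 5) (nat_lit 143158) (nat_lit
  12) nil nil)) nil) (node (nat_lit 4) (nat_lit 139330) (nat_lit 10) (node (nat_lit 7) (nat_lit
  139374) (nat_lit 11) (node (nat_lit 4) (nat_lit 136321) (nat_lit 12) nil nil) nil) (node
  (nat_lit 7) (nat_lit 141293) (nat_lit 10) nil (node (nat_lit 0) (nat_lit 141293) (nat_lit 10)
  nil nil)))) (node (nat_lit 4) (nat_lit 0) (nat_lit 9) (node (nat_lit 5) (nat_lit 0) (nat_lit 10)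
  (node (nat_lit 4) (nat_lit 124307) (nat_lit 11) (node (nat_lit 7) (nat_lit 131384) (nat_lit 12)
  (node (nat_lit 5) (nat_lit 80635) (nat_lit 13) nil nil) nil) (node (nat_lit 0) (nat_lit 132028)
  (nat_lit 11) nil nil)) (node (nat_lit 7) (nat_lit 144787) (nat_lit 10) nil (node (nat_lit 0)
  (nat_lit 144787) (nat_lit 10) nil nil))) (node (nat_lit 5) (nat_lit 138884) (nat_lit 9) (node
  (nat_lit 0) (nat_lit 141801) (nat_lit 10) nil nil) nil))) nil)) nil)) (node (nat_lit 0) (nat_lit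
  0) (nat_lit 6) (node (nat_lit 4) (nat_lit 0) (nat_lit 7) (node (nat_lit 7) (nat_lit 139660)
  (nat_lit 8) (node (nat_lit 5) (nat_lit 138241) (nat_lit 9) (node (nat_lit 7) (nat_lit 138308)
  (nat_lit 10) (node (nat_lit 4) (nat_lit 137480) (nat_lit 11) (node (nat_lit 5) (nat_lit 134478)
  (nat_lit 12) (node (nat_lit 4) (nat_lit 126350) (nat_lit 13) nil nil) nil) nil) nil) (node
  (nat_lit 4) (nat_lit 137561) (nat_lit 9) (node (nat_lit 5) (nat_lit 130766) (nat_lit 10) (node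
  (nat_lit 4) (nat_lit 102910) (nat_lit 11) (node (nat_lit 7) (nat_lit 34818) (nat_lit 12) nil
  nil) nil) nil) nil)) (node (nat_lit 9) (nat_lit 140770) (nat_lit 8) (node (nat_lit 5) (nat_lit
  139352) (nat_lit 9) (node (nat_lit 7) (nat_lit 139418) (nat_lit 10) (node (nat_lit 4) (nat_lit
  138275) (nat_lit 11) (node (nat_lit 5) (nat_lit 134412) (nat_lit 12) (node (nat_lit 4) (nat_lit
  126285) (nat_lit 13) (node (nat_lit 7) (nat_lit 119354) (nat_lit 14) (node (nat_lit 5) (nat_lit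
  104193) (nat_lit 15) nil nil) nil) nil) nil) nil) (node (nat_lit 4) (nat_lit 136850) (nat_lit
  10) nil nil)) (node (nat_lit 7) (nat_lit 142023) (nat_lit 9) nil nil)) (node (nat_lit 5)
  (nat_lit 137055) (nat_lit 8) (node (nat_lit 7) (nat_lit 137764) (nat_lit 9) (node (nat_lit 5)
  (nat_lit 138309) (nat_lit 10) nil (node (nat_lit 4) (nat_lit 132951) (nat_lit 10) (node (nat_lit
  5) (nat_lit 127011) (nat_lit 11) (node (nat_lit 4) (nat_lit 102065) (nat_lit 12) nil nil) nil)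
  nil)) (node (nat_lit 4) (nat_lit 135637) (nat_lit 9) (node (nat_lit 7) (nat_lit 135685) (nat_lit
  10) nil nil) nil)) (node (nat_lit 0) (nat_lit 140770) (nat_lit 8) nil nil)))) (node (nat_lit 7)
  (nat_lit 0) (nat_lit 7) (node (nat_lit 4) (nat_lit 145479) (nat_lit 8) (node (nat_lit 5)
  (nat_lit 145748) (nat_lit 9) (node (nat_lit 4) (nat_lit 145020) (nat_lit 10) (node (nat_lit 7)
  (nat_lit 145328) (nat_lit 11) (node (nat_lit 5) (nat_lit 143308) (nat_lit 12) nil nil) nil) nil)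
  nil) (node (nat_lit 9) (nat_lit 145479) (nat_lit 8) (node (nat_lit 4) (nat_lit 142796) (nat_lit
  9) (node (nat_lit 7) (nat_lit 142677) (nat_lit 10) (node (nat_lit 4) (nat_lit 140862) (nat_lit
  11) nil nil) nil) (node (nat_lit 5) (nat_lit 142796) (nat_lit 9) (node (nat_lit 7) (nat_lit
  142677) (nat_lit 10) (node (nat_lit 4) (nat_lit 140862) (nat_lit 11) nil nil) nil) nil)) (node
  (nat_lit 5) (nat_lit 141812) (nat_lit 8) (node (nat_lit 4) (nat_lit 140393) (nat_lit 9) (node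
  (nat_lit 7) (nat_lit 138802) (nat_lit 10) (node (nat_lit 4) (nat_lit 136987) (nat_lit 11) (node
  (nat_lit 5) (nat_lit 133124) (nat_lit 12) nil nil) nil) (node (nat_lit 5) (nat_lit 138787)
  (nat_lit 10) (node (nat_lit 7) (nat_lit 138942) (nat_lit 11) (node (nat_lit 4) (nat_lit 138554)
  (nat_lit 12) nil nil) nil) nil)) (node (nat_lit 7) (nat_lit 140237) (nat_lit 9) (node (nat_lit
  4) (nat_lit 136407) (nat_lit 10) (node (nat_lit 5) (nat_lit 130467) (nat_lit 11) nil nil) nil)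
  nil)) (node (nat_lit 0) (nat_lit 145479) (nat_lit 8) nil nil)))) (node (nat_lit 5) (nat_lit
  137063) (nat_lit 7) (node (nat_lit 4) (nat_lit 137055) (nat_lit 8) (node (nat_lit 7) (nat_lit
  137764) (nat_lit 9) (node (nat_lit 4) (nat_lit 135890) (nat_lit 10) (node (nat_lit 5) (nat_lit
  129950) (nat_lit 11) (node (nat_lit 4) (nat_lit 102937) (nat_lit 12) (node (nat_lit 7) (nat_lit
  88966) (nat_lit 13) (node (nat_lit 5) (nat_lit 61027) (nat_lit 14) nil nil) nil) nil) nil) (node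
  (nat_lit 5) (nat_lit 136157) (nat_lit 10) (node (nat_lit 7) (nat_lit 136313) (nat_lit 11) (node
  (nat_lit 4) (nat_lit 135610) (nat_lit 12) nil nil) nil) nil)) (node (nat_lit 5) (nat_lit 135469)
  (nat_lit 9) (node (nat_lit 7) (nat_lit 135351) (nat_lit 10) nil nil) nil)) (node (nat_lit 7)
  (nat_lit 139660) (nat_lit 8) (node (nat_lit 4) (nat_lit 137561) (nat_lit 9) (node (nat_lit 5)
  (nat_lit 133554) (nat_lit 10) (node (nat_lit 4) (nat_lit 123007) (nat_lit 11) (node (nat_lit 7)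
  (nat_lit 103117) (nat_lit 12) (node (nat_lit 5) (nat_lit 62759) (nat_lit 13) nil nil) nil) nil)
  nil) nil) nil)) (node (nat_lit 0) (nat_lit 0) (nat_lit 7) (node (nat_lit 5) (nat_lit 141812)
  (nat_lit 8) (node (nat_lit 7) (nat_lit 142520) (nat_lit 9) (node (nat_lit 4) (nat_lit 134734)
  (nat_lit 10) (node (nat_lit 5) (nat_lit 128794) (nat_lit 11) nil nil) nil) (node (nat_lit 4)
  (nat_lit 140393) (nat_lit 9) nil nil)) (node (nat_lit 4) (nat_lit 141812) (nat_lit 8) (node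
  (nat_lit 7) (nat_lit 141550) (nat_lit 9) (node (nat_lit 4) (nat_lit 129404) (nat_lit 10) nil
  nil) (node (nat_lit 5) (nat_lit 140393) (nat_lit 9) nil nil)) (node (nat_lit 7) (nat_lit 144804)
  (nat_lit 8) (node (nat_lit 4) (nat_lit 145748) (nat_lit 9) nil (node (nat_lit 5) (nat_lit
  142121) (nat_lit 9) nil nil)) (node (nat_lit 0) (nat_lit 144804) (nat_lit 8) nil (node (nat_lit
  9) (nat_lit 144804) (nat_lit 8) nil nil))))) nil)))) nil)))

noncomputable def t398 : Tr :=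
  (node (nat_lit 3) (nat_lit 0) (nat_lit 3) (node (nat_lit 4) (nat_lit 0) (nat_lit 4) (node
  (nat_lit 6) (nat_lit 0) (nat_lit 5) t395 (node (nat_lit 5) (nat_lit 0) (nat_lit 5) (node
  (nat_lit 4) (nat_lit 0) (nat_lit 6) (node (nat_lit 6) (nat_lit 0) (nat_lit 7) (node (nat_lit 0)
  (nat_lit 0) (nat_lit 8) (node (nat_lit 6) (nat_lit 0) (nat_lit 9) (node (nat_lit 5) (nat_lit
  56655) (nat_lit 10) (node (nat_lit 4) (nat_lit 57070) (nat_lit 11) (node (nat_lit 5) (nat_lit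
  54689) (nat_lit 12) (node (nat_lit 6) (nat_lit 49765) (nat_lit 13) (node (nat_lit 4) (nat_lit
  31618) (nat_lit 14) nil nil) nil) nil) (node (nat_lit 6) (nat_lit 57532) (nat_lit 11) nil nil))
  (node (nat_lit 4) (nat_lit 58541) (nat_lit 10) (node (nat_lit 6) (nat_lit 56806) (nat_lit 11)
  (node (nat_lit 5) (nat_lit 55845) (nat_lit 12) nil nil) nil) (node (nat_lit 0) (nat_lit 58541)
  (nat_lit 10) (node (nat_lit 6) (nat_lit 56014) (nat_lit 11) nil nil) nil))) (node (nat_lit 5)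
  (nat_lit 55657) (nat_lit 9) (node (nat_lit 4) (nat_lit 56655) (nat_lit 10) nil (node (nat_lit 6)
  (nat_lit 56655) (nat_lit 10) (node (nat_lit 4) (nat_lit 57532) (nat_lit 11) nil (node (nat_lit
  5) (nat_lit 52110) (nat_lit 11) nil nil)) (node (nat_lit 11) (nat_lit 56655) (nat_lit 10) nil
  nil))) (node (nat_lit 4) (nat_lit 58460) (nat_lit 9) (node (nat_lit 5) (nat_lit 59457) (nat_lit
  10) nil (node (nat_lit 6) (nat_lit 59457) (nat_lit 10) (node (nat_lit 5) (nat_lit 54913)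
  (nat_lit 11) nil nil) nil)) (node (nat_lit 0) (nat_lit 58336) (nat_lit 9) (node (nat_lit 6)
  (nat_lit 55161) (nat_lit 10) nil nil) nil)))) (node (nat_lit 4) (nat_lit 0) (nat_lit 8) (node
  (nat_lit 0) (nat_lit 0) (nat_lit 9) (node (nat_lit 6) (nat_lit 56139) (nat_lit 10) (node
  (nat_lit 4) (nat_lit 58852) (nat_lit 11) (node (nat_lit 6) (nat_lit 58922) (nat_lit 12) (node
  (nat_lit 5) (nat_lit 57720) (nat_lit 13) (node (nat_lit 4) (nat_lit 57750) (nat_lit 14) (node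
  (nat_lit 5) (nat_lit 57185) (nat_lit 15) nil nil) nil) (node (nat_lit 12) (nat_lit 59740)
  (nat_lit 13) nil nil)) (node (nat_lit 5) (nat_lit 60217) (nat_lit 12) nil nil)) (node (nat_lit
  12) (nat_lit 57893) (nat_lit 11) nil (node (nat_lit 5) (nat_lit 57893) (nat_lit 11) nil nil)))
  (node (nat_lit 4) (nat_lit 57166) (nat_lit 10) (node (nat_lit 6) (nat_lit 58920) (nat_lit 11)
  (node (nat_lit 12) (nat_lit 60285) (nat_lit 12) nil nil) nil) (node (nat_lit 5) (nat_lit 56139)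
  (nat_lit 10) (node (nat_lit 4) (nat_lit 57893) (nat_lit 11) nil nil) (node (nat_lit 0) (nat_lit
  56139) (nat_lit 10) nil nil)))) nil) (node (nat_lit 5) (nat_lit 0) (nat_lit 8) (node (nat_lit 0)
  (nat_lit 0) (nat_lit 9) (node (nat_lit 6) (nat_lit 53102) (nat_lit 10) (node (nat_lit 5)
  (nat_lit 54856) (nat_lit 11) (node (nat_lit 6) (nat_lit 56221) (nat_lit 12) nil (node (nat_lit
  4) (nat_lit 58272) (nat_lit 12) (node (nat_lit 5) (nat_lit 57511) (nat_lit 13) nil nil) (node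
  (nat_lit 0) (nat_lit 56221) (nat_lit 12) nil nil))) nil) (node (nat_lit 5) (nat_lit 53102)
  (nat_lit 10) (node (nat_lit 6) (nat_lit 54855) (nat_lit 11) (node (nat_lit 12) (nat_lit 56220)
  (nat_lit 12) nil nil) nil) (node (nat_lit 4) (nat_lit 56462) (nat_lit 10) (node (nat_lit 5)
  (nat_lit 58216) (nat_lit 11) nil nil) (node (nat_lit 0) (nat_lit 53102) (nat_lit 10) nil nil))))
  (node (nat_lit 4) (nat_lit 0) (nat_lit 9) (node (nat_lit 5) (nat_lit 54005) (nat_lit 10) (node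
  (nat_lit 6) (nat_lit 42534) (nat_lit 11) (node (nat_lit 5) (nat_lit 42274) (nat_lit 12) nil nil)
  nil) (node (nat_lit 0) (nat_lit 56954) (nat_lit 10) nil nil)) nil)) nil))) (node (nat_lit 0)
  (nat_lit 0) (nat_lit 7) (node (nat_lit 6) (nat_lit 0) (nat_lit 8) (node (nat_lit 5) (nat_lit
  57244) (nat_lit 9) (node (nat_lit 4) (nat_lit 59134) (nat_lit 10) (node (nat_lit 5) (nat_lit
  56717) (nat_lit 11) (node (nat_lit 6) (nat_lit 41907) (nat_lit 12) (node (nat_lit 4) (nat_lit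
  15181) (nat_lit 13) nil nil) nil) nil) (node (nat_lit 6) (nat_lit 58241) (nat_lit 10) (node
  (nat_lit 4) (nat_lit 59119) (nat_lit 11) nil nil) nil)) (node (nat_lit 10) (nat_lit 57244)
  (nat_lit 9) (node (nat_lit 4) (nat_lit 59134) (nat_lit 10) (node (nat_lit 6) (nat_lit 56607)
  (nat_lit 11) (node (nat_lit 5) (nat_lit 56439) (nat_lit 12) (node (nat_lit 4) (nat_lit 56032)
  (nat_lit 13) (node (nat_lit 5) (nat_lit 54579) (nat_lit 14) nil nil) nil) nil) (node (nat_lit 5)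
  (nat_lit 60012) (nat_lit 11) nil nil)) (node (nat_lit 5) (nat_lit 58241) (nat_lit 10) (node
  (nat_lit 6) (nat_lit 57567) (nat_lit 11) (node (nat_lit 5) (nat_lit 57399) (nat_lit 12) (node
  (nat_lit 4) (nat_lit 55139) (nat_lit 13) nil nil) nil) nil) nil)) (node (nat_lit 4) (nat_lit
  57991) (nat_lit 9) (node (nat_lit 6) (nat_lit 58988) (nat_lit 10) (node (nat_lit 5) (nat_lit
  59866) (nat_lit 11) (node (nat_lit 4) (nat_lit 54605) (nat_lit 12) (node (nat_lit 5) (nat_lit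
  51846) (nat_lit 13) nil nil) nil) nil) (node (nat_lit 5) (nat_lit 58988) (nat_lit 10) nil nil))
  (node (nat_lit 0) (nat_lit 57244) (nat_lit 9) nil nil)))) (node (nat_lit 5) (nat_lit 0) (nat_lit
  8) (node (nat_lit 10) (nat_lit 57244) (nat_lit 9) (node (nat_lit 6) (nat_lit 58241) (nat_lit 10)
  (node (nat_lit 5) (nat_lit 59119) (nat_lit 11) (node (nat_lit 4) (nat_lit 60940) (nat_lit 12)
  (node (nat_lit 5) (nat_lit 51846) (nat_lit 13) nil nil) nil) nil) (node (nat_lit 4) (nat_lit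
  58241) (nat_lit 10) (node (nat_lit 6) (nat_lit 55714) (nat_lit 11) nil nil) nil)) (node (nat_lit
  4) (nat_lit 57991) (nat_lit 9) (node (nat_lit 6) (nat_lit 58988) (nat_lit 10) nil (node (nat_lit
  5) (nat_lit 58988) (nat_lit 10) nil nil)) (node (nat_lit 6) (nat_lit 57244) (nat_lit 9) (node
  (nat_lit 5) (nat_lit 58241) (nat_lit 10) (node (nat_lit 4) (nat_lit 58192) (nat_lit 11) nil nil)
  (node (nat_lit 4) (nat_lit 58241) (nat_lit 10) nil nil)) (node (nat_lit 0) (nat_lit 57244)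
  (nat_lit 9) nil nil)))) (node (nat_lit 4) (nat_lit 0) (nat_lit 8) (node (nat_lit 5) (nat_lit
  58719) (nat_lit 9) (node (nat_lit 6) (nat_lit 59717) (nat_lit 10) (node (nat_lit 5) (nat_lit
  60594) (nat_lit 11) nil (node (nat_lit 4) (nat_lit 60594) (nat_lit 11) nil nil)) nil) (node
  (nat_lit 6) (nat_lit 58719) (nat_lit 9) (node (nat_lit 5) (nat_lit 59186) (nat_lit 10) (node
  (nat_lit 4) (nat_lit 58192) (nat_lit 11) nil nil) nil) (node (nat_lit 0) (nat_lit 58719)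
  (nat_lit 9) nil nil))) (node (nat_lit 0) (nat_lit 56380) (nat_lit 8) (node (nat_lit 4) (nat_lit
  58906) (nat_lit 9) (node (nat_lit 6) (nat_lit 59903) (nat_lit 10) nil (node (nat_lit 5) (nat_lit
  59903) (nat_lit 10) nil nil)) (node (nat_lit 10) (nat_lit 58669) (nat_lit 9) (node (nat_lit 4)
  (nat_lit 59666) (nat_lit 10) nil nil) (node (nat_lit 5) (nat_lit 58669) (nat_lit 9) nil (node
  (nat_lit 6) (nat_lit 58669) (nat_lit 9) nil nil)))) nil)))) nil)) (node (nat_lit 0) (nat_lit 0)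
  (nat_lit 6) (node (nat_lit 4) (nat_lit 0) (nat_lit 7) (node (nat_lit 6) (nat_lit 56065) (nat_lit
  8) (node (nat_lit 5) (nat_lit 57026) (nat_lit 9) (node (nat_lit 4) (nat_lit 54302) (nat_lit 10)
  (node (nat_lit 5) (nat_lit 49564) (nat_lit 11) (node (nat_lit 6) (nat_lit 41172) (nat_lit 12)
  (node (nat_lit 4) (nat_lit 29110) (nat_lit 13) nil nil) nil) nil) nil) (node (nat_lit 4)
  (nat_lit 58354) (nat_lit 9) nil nil)) (node (nat_lit 9) (nat_lit 56065) (nat_lit 8) (node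
  (nat_lit 6) (nat_lit 58354) (nat_lit 9) (node (nat_lit 5) (nat_lit 59352) (nat_lit 10) (node
  (nat_lit 4) (nat_lit 51601) (nat_lit 11) (node (nat_lit 5) (nat_lit 47282) (nat_lit 12) (node
  (nat_lit 6) (nat_lit 40436) (nat_lit 13) nil nil) nil) nil) (node (nat_lit 4) (nat_lit 59352)
  (nat_lit 10) nil nil)) (node (nat_lit 5) (nat_lit 58354) (nat_lit 9) (node (nat_lit 4) (nat_lit
  59352) (nat_lit 10) nil nil) nil)) (node (nat_lit 5) (nat_lit 56065) (nat_lit 8) (node (nat_lit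
  6) (nat_lit 58354) (nat_lit 9) (node (nat_lit 5) (nat_lit 59352) (nat_lit 10) (node (nat_lit 4)
  (nat_lit 58079) (nat_lit 11) (node (nat_lit 5) (nat_lit 47282) (nat_lit 12) nil nil) nil) (node
  (nat_lit 4) (nat_lit 59352) (nat_lit 10) nil nil)) (node (nat_lit 4) (nat_lit 58354) (nat_lit 9)
  nil nil)) (node (nat_lit 0) (nat_lit 56065) (nat_lit 8) nil nil)))) (node (nat_lit 6) (nat_lit
  0) (nat_lit 7) (node (nat_lit 4) (nat_lit 55620) (nat_lit 8) (node (nat_lit 5) (nat_lit 57908)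
  (nat_lit 9) (node (nat_lit 4) (nat_lit 58906) (nat_lit 10) nil (node (nat_lit 6) (nat_lit 54734)
  (nat_lit 10) nil nil)) (node (nat_lit 6) (nat_lit 57908) (nat_lit 9) (node (nat_lit 5) (nat_lit
  58544) (nat_lit 10) nil nil) nil)) (node (nat_lit 9) (nat_lit 50936) (nat_lit 8) (node (nat_lit
  5) (nat_lit 53225) (nat_lit 9) (node (nat_lit 4) (nat_lit 56113) (nat_lit 10) nil (node (nat_lit
  6) (nat_lit 54222) (nat_lit 10) (node (nat_lit 5) (nat_lit 49678) (nat_lit 11) nil nil) nil))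
  (node (nat_lit 4) (nat_lit 56951) (nat_lit 9) (node (nat_lit 6) (nat_lit 57949) (nat_lit 10) nil
  nil) nil)) (node (nat_lit 5) (nat_lit 50936) (nat_lit 8) (node (nat_lit 4) (nat_lit 54969)
  (nat_lit 9) (node (nat_lit 5) (nat_lit 41662) (nat_lit 10) (node (nat_lit 6) (nat_lit 27327)
  (nat_lit 11) nil nil) (node (nat_lit 6) (nat_lit 55966) (nat_lit 10) nil nil)) (node (nat_lit 6)
  (nat_lit 53225) (nat_lit 9) nil nil)) (node (nat_lit 0) (nat_lit 54250) (nat_lit 8) nil nil))))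
  (node (nat_lit 5) (nat_lit 47621) (nat_lit 7) (node (nat_lit 6) (nat_lit 50936) (nat_lit 8)
  (node (nat_lit 4) (nat_lit 56781) (nat_lit 9) (node (nat_lit 6) (nat_lit 53607) (nat_lit 10)
  (node (nat_lit 5) (nat_lit 53235) (nat_lit 11) (node (nat_lit 4) (nat_lit 52290) (nat_lit 12)
  nil nil) nil) (node (nat_lit 5) (nat_lit 57779) (nat_lit 10) nil nil)) (node (nat_lit 5)
  (nat_lit 53225) (nat_lit 9) (node (nat_lit 4) (nat_lit 53920) (nat_lit 10) (node (nat_lit 5)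
  (nat_lit 39592) (nat_lit 11) (node (nat_lit 6) (nat_lit 30597) (nat_lit 12) (node (nat_lit 4)
  (nat_lit 16994) (nat_lit 13) nil nil) nil) nil) nil) nil)) (node (nat_lit 4) (nat_lit 56436)
  (nat_lit 8) (node (nat_lit 6) (nat_lit 58725) (nat_lit 9) (node (nat_lit 5) (nat_lit 59549)
  (nat_lit 10) (node (nat_lit 4) (nat_lit 50939) (nat_lit 11) nil nil) nil) nil) nil)) (node
  (nat_lit 0) (nat_lit 0) (nat_lit 7) (node (nat_lit 5) (nat_lit 55549) (nat_lit 8) (node (nat_lit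
  4) (nat_lit 57837) (nat_lit 9) nil (node (nat_lit 6) (nat_lit 57837) (nat_lit 9) nil nil)) (node
  (nat_lit 4) (nat_lit 56109) (nat_lit 8) (node (nat_lit 6) (nat_lit 58397) (nat_lit 9) nil (node
  (nat_lit 5) (nat_lit 58397) (nat_lit 9) nil nil)) (node (nat_lit 6) (nat_lit 55549) (nat_lit 8)
  (node (nat_lit 5) (nat_lit 55639) (nat_lit 9) (node (nat_lit 4) (nat_lit 44766) (nat_lit 10) nil
  nil) (node (nat_lit 4) (nat_lit 57837) (nat_lit 9) nil nil)) (node (nat_lit 0) (nat_lit 55549)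
  (nat_lit 8) nil (node (nat_lit 9) (nat_lit 55549) (nat_lit 8) nil nil))))) nil)))) nil)) nil))
  (node (nat_lit 5) (nat_lit 0) (nat_lit 4) (node (nat_lit 4) (nat_lit 0) (nat_lit 5) t396 nil)
  nil)) (node (nat_lit 4) (nat_lit 0) (nat_lit 3) (node (nat_lit 3) (nat_lit 0) (nat_lit 4) (node
  (nat_lit 5) (nat_lit 0) (nat_lit 5) t397 (node (nat_lit 4) (nat_lit 0) (nat_lit 5) (node
  (nat_lit 5) (nat_lit 0) (nat_lit 6) (node (nat_lit 0) (nat_lit 0) (nat_lit 7) (node (nat_lit 7)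
  (nat_lit 0) (nat_lit 8) (node (nat_lit 10) (nat_lit 0) (nat_lit 9) (node (nat_lit 5) (nat_lit
  55427) (nat_lit 10) (node (nat_lit 7) (nat_lit 56432) (nat_lit 11) (node (nat_lit 4) (nat_lit
  58124) (nat_lit 12) (node (nat_lit 5) (nat_lit 56067) (nat_lit 13) (node (nat_lit 4) (nat_lit
  51733) (nat_lit 14) (node (nat_lit 7) (nat_lit 40175) (nat_lit 15) (node (nat_lit 4) (nat_lit
  32607) (nat_lit 16) nil nil) nil) nil) nil) nil) (node (nat_lit 4) (nat_lit 57907) (nat_lit 11)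
  nil nil)) (node (nat_lit 4) (nat_lit 56784) (nat_lit 10) (node (nat_lit 7) (nat_lit 57789)
  (nat_lit 11) (node (nat_lit 4) (nat_lit 58907) (nat_lit 12) (node (nat_lit 5) (nat_lit 59646)
  (nat_lit 13) nil nil) nil) nil) (node (nat_lit 0) (nat_lit 55427) (nat_lit 10) nil nil))) (node
  (nat_lit 5) (nat_lit 54288) (nat_lit 9) (node (nat_lit 7) (nat_lit 55427) (nat_lit 10) (node
  (nat_lit 4) (nat_lit 57743) (nat_lit 11) (node (nat_lit 5) (nat_lit 55177) (nat_lit 12) (node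
  (nat_lit 4) (nat_lit 47995) (nat_lit 13) (node (nat_lit 7) (nat_lit 39553) (nat_lit 14) nil nil)
  nil) nil) nil) (node (nat_lit 4) (nat_lit 56629) (nat_lit 10) (node (nat_lit 7) (nat_lit 55146)
  (nat_lit 11) nil nil) (node (nat_lit 10) (nat_lit 55427) (nat_lit 10) (node (nat_lit 5) (nat_lit
  52760) (nat_lit 11) nil nil) nil))) (node (nat_lit 4) (nat_lit 57380) (nat_lit 9) (node (nat_lit
  7) (nat_lit 58520) (nat_lit 10) (node (nat_lit 5) (nat_lit 55852) (nat_lit 11) nil nil) (node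
  (nat_lit 5) (nat_lit 58520) (nat_lit 10) nil nil)) (node (nat_lit 0) (nat_lit 54288) (nat_lit 9)
  nil nil)))) (node (nat_lit 4) (nat_lit 0) (nat_lit 8) (node (nat_lit 10) (nat_lit 57889)
  (nat_lit 9) (node (nat_lit 5) (nat_lit 59028) (nat_lit 10) (node (nat_lit 4) (nat_lit 59049)
  (nat_lit 11) (node (nat_lit 7) (nat_lit 57233) (nat_lit 12) nil nil) (node (nat_lit 7) (nat_lit
  60033) (nat_lit 11) (node (nat_lit 4) (nat_lit 53563) (nat_lit 12) nil nil) nil)) (node (nat_lit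
  7) (nat_lit 59028) (nat_lit 10) (node (nat_lit 4) (nat_lit 60033) (nat_lit 11) nil nil) nil))
  (node (nat_lit 5) (nat_lit 57889) (nat_lit 9) (node (nat_lit 4) (nat_lit 59374) (nat_lit 10)
  (node (nat_lit 7) (nat_lit 59928) (nat_lit 11) (node (nat_lit 4) (nat_lit 53909) (nat_lit 12)
  nil nil) nil) (node (nat_lit 7) (nat_lit 59028) (nat_lit 10) (node (nat_lit 4) (nat_lit 57937)
  (nat_lit 11) nil nil) nil)) (node (nat_lit 7) (nat_lit 57889) (nat_lit 9) (node (nat_lit 4)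
  (nat_lit 59374) (nat_lit 10) (node (nat_lit 5) (nat_lit 60378) (nat_lit 11) (node (nat_lit 4)
  (nat_lit 40432) (nat_lit 12) nil nil) nil) (node (nat_lit 5) (nat_lit 59028) (nat_lit 10) (node
  (nat_lit 7) (nat_lit 54855) (nat_lit 11) nil nil) nil)) (node (nat_lit 0) (nat_lit 57889)
  (nat_lit 9) nil nil)))) (node (nat_lit 0) (nat_lit 54686) (nat_lit 8) (node (nat_lit 10)
  (nat_lit 57889) (nat_lit 9) (node (nat_lit 5) (nat_lit 59028) (nat_lit 10) (node (nat_lit 11)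
  (nat_lit 60033) (nat_lit 11) nil nil) (node (nat_lit 7) (nat_lit 59028) (nat_lit 10) nil (node
  (nat_lit 4) (nat_lit 54530) (nat_lit 10) nil nil))) (node (nat_lit 5) (nat_lit 57587) (nat_lit
  9) (node (nat_lit 11) (nat_lit 58726) (nat_lit 10) nil (node (nat_lit 7) (nat_lit 58260)
  (nat_lit 10) nil (node (nat_lit 4) (nat_lit 55443) (nat_lit 10) nil nil))) (node (nat_lit 4)
  (nat_lit 58010) (nat_lit 9) nil (node (nat_lit 7) (nat_lit 57587) (nat_lit 9) nil nil)))) (node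
  (nat_lit 5) (nat_lit 0) (nat_lit 8) (node (nat_lit 4) (nat_lit 57380) (nat_lit 9) (node (nat_lit
  7) (nat_lit 58260) (nat_lit 10) (node (nat_lit 4) (nat_lit 56751) (nat_lit 11) (node (nat_lit 5)
  (nat_lit 54816) (nat_lit 12) nil nil) nil) (node (nat_lit 5) (nat_lit 55443) (nat_lit 10) (node
  (nat_lit 7) (nat_lit 55693) (nat_lit 11) nil nil) nil)) (node (nat_lit 7) (nat_lit 54288)
  (nat_lit 9) (node (nat_lit 4) (nat_lit 56784) (nat_lit 10) (node (nat_lit 5) (nat_lit 54093)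
  (nat_lit 11) (node (nat_lit 4) (nat_lit 38468) (nat_lit 12) nil nil) nil) (node (nat_lit 5)
  (nat_lit 55427) (nat_lit 10) nil nil)) (node (nat_lit 0) (nat_lit 57380) (nat_lit 9) nil nil)))
  nil)))) (node (nat_lit 7) (nat_lit 0) (nat_lit 7) (node (nat_lit 0) (nat_lit 0) (nat_lit 8)
  (node (nat_lit 7) (nat_lit 0) (nat_lit 9) (node (nat_lit 5) (nat_lit 53616) (nat_lit 10) (node
  (nat_lit 11) (nat_lit 54621) (nat_lit 11) (node (nat_lit 7) (nat_lit 55529) (nat_lit 12) nil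
  (node (nat_lit 5) (nat_lit 52584) (nat_lit 12) nil nil)) (node (nat_lit 4) (nat_lit 57489)
  (nat_lit 11) (node (nat_lit 7) (nat_lit 57627) (nat_lit 12) nil nil) (node (nat_lit 7) (nat_lit
  54621) (nat_lit 11) (node (nat_lit 4) (nat_lit 57619) (nat_lit 12) nil (node (nat_lit 11)
  (nat_lit 55529) (nat_lit 12) nil nil)) (node (nat_lit 0) (nat_lit 54621) (nat_lit 11) nil
  nil)))) (node (nat_lit 4) (nat_lit 58379) (nat_lit 10) (node (nat_lit 5) (nat_lit 59384)
  (nat_lit 11) nil (node (nat_lit 7) (nat_lit 59384) (nat_lit 11) nil (node (nat_lit 11) (nat_lit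
  59384) (nat_lit 11) nil (node (nat_lit 0) (nat_lit 59384) (nat_lit 11) nil nil)))) (node
  (nat_lit 0) (nat_lit 58379) (nat_lit 10) (node (nat_lit 11) (nat_lit 59384) (nat_lit 11) (node
  (nat_lit 7) (nat_lit 60292) (nat_lit 12) nil nil) (node (nat_lit 7) (nat_lit 59384) (nat_lit 11)
  nil (node (nat_lit 5) (nat_lit 56295) (nat_lit 11) nil nil))) nil))) (node (nat_lit 5) (nat_lit
  0) (nat_lit 9) (node (nat_lit 4) (nat_lit 56477) (nat_lit 10) (node (nat_lit 7) (nat_lit 56727)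
  (nat_lit 11) (node (nat_lit 4) (nat_lit 55443) (nat_lit 12) nil nil) nil) (node (nat_lit 7)
  (nat_lit 53616) (nat_lit 10) (node (nat_lit 5) (nat_lit 54621) (nat_lit 11) nil (node (nat_lit
  4) (nat_lit 55823) (nat_lit 11) nil nil)) (node (nat_lit 11) (nat_lit 53616) (nat_lit 10) (node
  (nat_lit 7) (nat_lit 54621) (nat_lit 11) (node (nat_lit 11) (nat_lit 55529) (nat_lit 12) nil
  nil) nil) (node (nat_lit 0) (nat_lit 53616) (nat_lit 10) nil nil)))) (node (nat_lit 4) (nat_lit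
  57663) (nat_lit 9) (node (nat_lit 7) (nat_lit 58803) (nat_lit 10) (node (nat_lit 4) (nat_lit
  57359) (nat_lit 11) nil (node (nat_lit 5) (nat_lit 56135) (nat_lit 11) nil nil)) (node (nat_lit
  11) (nat_lit 58803) (nat_lit 10) nil (node (nat_lit 5) (nat_lit 54304) (nat_lit 10) nil nil)))
  (node (nat_lit 0) (nat_lit 57496) (nat_lit 9) (node (nat_lit 7) (nat_lit 58636) (nat_lit 10) nil
  (node (nat_lit 11) (nat_lit 58636) (nat_lit 10) (node (nat_lit 7) (nat_lit 59640) (nat_lit 11)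
  nil nil) nil)) nil)))) (node (nat_lit 5) (nat_lit 0) (nat_lit 8) (node (nat_lit 0) (nat_lit 0)
  (nat_lit 9) (node (nat_lit 7) (nat_lit 48311) (nat_lit 10) (node (nat_lit 5) (nat_lit 50588)
  (nat_lit 11) (node (nat_lit 7) (nat_lit 52363) (nat_lit 12) (node (nat_lit 4) (nat_lit 54728)
  (nat_lit 13) (node (nat_lit 5) (nat_lit 53923) (nat_lit 14) (node (nat_lit 4) (nat_lit 43646)
  (nat_lit 15) (node (nat_lit 7) (nat_lit 40351) (nat_lit 16) (node (nat_lit 4) (nat_lit 35495)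
  (nat_lit 17) (node (nat_lit 5) (nat_lit 24547) (nat_lit 18) (node (nat_lit 7) (nat_lit 7674)
  (nat_lit 19) nil nil) nil) nil) nil) nil) nil) (node (nat_lit 12) (nat_lit 54466) (nat_lit 13)
  (node (nat_lit 7) (nat_lit 55033) (nat_lit 14) (node (nat_lit 5) (nat_lit 54417) (nat_lit 15)
  nil nil) (node (nat_lit 5) (nat_lit 54284) (nat_lit 14) nil nil)) (node (nat_lit 0) (nat_lit
  56946) (nat_lit 13) nil nil))) (node (nat_lit 4) (nat_lit 55415) (nat_lit 12) (node (nat_lit 7)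
  (nat_lit 56802) (nat_lit 13) nil (node (nat_lit 5) (nat_lit 54311) (nat_lit 13) nil (node
  (nat_lit 12) (nat_lit 56802) (nat_lit 13) nil nil))) (node (nat_lit 0) (nat_lit 55415) (nat_lit
  12) nil nil))) (node (nat_lit 12) (nat_lit 50588) (nat_lit 11) (node (nat_lit 5) (nat_lit 52363)
  (nat_lit 12) nil nil) (node (nat_lit 4) (nat_lit 55777) (nat_lit 11) nil nil))) (node (nat_lit
  5) (nat_lit 48311) (nat_lit 10) (node (nat_lit 7) (nat_lit 50588) (nat_lit 11) (node (nat_lit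
  12) (nat_lit 52363) (nat_lit 12) (node (nat_lit 7) (nat_lit 53084) (nat_lit 13) (node (nat_lit
  5) (nat_lit 52266) (nat_lit 14) nil nil) nil) nil) nil) (node (nat_lit 4) (nat_lit 53074)
  (nat_lit 10) (node (nat_lit 5) (nat_lit 54463) (nat_lit 11) (node (nat_lit 4) (nat_lit 52984)
  (nat_lit 12) nil nil) nil) (node (nat_lit 0) (nat_lit 48311) (nat_lit 10) nil nil)))) nil) (node
  (nat_lit 4) (nat_lit 0) (nat_lit 8) (node (nat_lit 0) (nat_lit 0) (nat_lit 9) (node (nat_lit 7)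
  (nat_lit 53792) (nat_lit 10) (node (nat_lit 4) (nat_lit 56769) (nat_lit 11) (node (nat_lit 7)
  (nat_lit 58544) (nat_lit 12) (node (nat_lit 5) (nat_lit 57440) (nat_lit 13) nil nil) (node
  (nat_lit 5) (nat_lit 58544) (nat_lit 12) (node (nat_lit 7) (nat_lit 59931) (nat_lit 13) nil nil)
  (node (nat_lit 0) (nat_lit 58544) (nat_lit 12) nil nil))) (node (nat_lit 5) (nat_lit 51874)
  (nat_lit 11) nil nil)) (node (nat_lit 4) (nat_lit 54480) (nat_lit 10) (node (nat_lit 7) (nat_lit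
  56756) (nat_lit 11) (node (nat_lit 12) (nat_lit 58531) (nat_lit 12) nil nil) nil) (node (nat_lit
  5) (nat_lit 53792) (nat_lit 10) (node (nat_lit 4) (nat_lit 54463) (nat_lit 11) nil nil) (node
  (nat_lit 0) (nat_lit 53792) (nat_lit 10) nil nil)))) nil) nil))) nil)) (node (nat_lit 0)
  (nat_lit 0) (nat_lit 6) (node (nat_lit 5) (nat_lit 0) (nat_lit 7) (node (nat_lit 7) (nat_lit
  69518) (nat_lit 8) (node (nat_lit 4) (nat_lit 73720) (nat_lit 9) (node (nat_lit 5) (nat_lit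
  58957) (nat_lit 10) (node (nat_lit 4) (nat_lit 27789) (nat_lit 11) nil (node (nat_lit 7)
  (nat_lit 59962) (nat_lit 11) nil nil)) (node (nat_lit 7) (nat_lit 74859) (nat_lit 10) nil nil))
  (node (nat_lit 5) (nat_lit 72419) (nat_lit 9) nil nil)) (node (nat_lit 9) (nat_lit 69340)
  (nat_lit 8) (node (nat_lit 4) (nat_lit 73542) (nat_lit 9) (node (nat_lit 7) (nat_lit 75841)
  (nat_lit 10) (node (nat_lit 4) (nat_lit 67034) (nat_lit 11) (node (nat_lit 5) (nat_lit 64927)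
  (nat_lit 12) nil nil) nil) (node (nat_lit 5) (nat_lit 74951) (nat_lit 10) nil nil)) (node
  (nat_lit 7) (nat_lit 73542) (nat_lit 9) (node (nat_lit 4) (nat_lit 74681) (nat_lit 10) nil nil)
  nil)) (node (nat_lit 4) (nat_lit 69340) (nat_lit 8) (node (nat_lit 7) (nat_lit 73542) (nat_lit
  9) (node (nat_lit 4) (nat_lit 75421) (nat_lit 10) (node (nat_lit 5) (nat_lit 77095) (nat_lit 11)
  (node (nat_lit 4) (nat_lit 45474) (nat_lit 12) nil nil) nil) nil) (node (nat_lit 5) (nat_lit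
  73542) (nat_lit 9) (node (nat_lit 7) (nat_lit 75841) (nat_lit 10) nil nil) (node (nat_lit 9)
  (nat_lit 72240) (nat_lit 9) nil nil))) (node (nat_lit 0) (nat_lit 67565) (nat_lit 8) nil nil))))
  (node (nat_lit 7) (nat_lit 0) (nat_lit 7) (node (nat_lit 9) (nat_lit 0) (nat_lit 8) (node
  (nat_lit 4) (nat_lit 73771) (nat_lit 9) (node (nat_lit 5) (nat_lit 74951) (nat_lit 10) (node
  (nat_lit 7) (nat_lit 75276) (nat_lit 11) nil nil) (node (nat_lit 7) (nat_lit 76071) (nat_lit 10)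
  (node (nat_lit 4) (nat_lit 76226) (nat_lit 11) (node (nat_lit 5) (nat_lit 74118) (nat_lit 12)
  nil nil) (node (nat_lit 5) (nat_lit 73404) (nat_lit 11) nil nil)) nil)) (node (nat_lit 5)
  (nat_lit 73771) (nat_lit 9) (node (nat_lit 7) (nat_lit 76071) (nat_lit 10) (node (nat_lit 4)
  (nat_lit 67264) (nat_lit 11) nil nil) nil) (node (nat_lit 0) (nat_lit 72470) (nat_lit 9) nil
  nil))) (node (nat_lit 4) (nat_lit 69570) (nat_lit 8) (node (nat_lit 5) (nat_lit 73771) (nat_lit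
  9) (node (nat_lit 7) (nat_lit 76071) (nat_lit 10) nil nil) (node (nat_lit 7) (nat_lit 73861)
  (nat_lit 9) (node (nat_lit 5) (nat_lit 76159) (nat_lit 10) nil nil) nil)) (node (nat_lit 5)
  (nat_lit 69570) (nat_lit 8) (node (nat_lit 4) (nat_lit 73771) (nat_lit 9) (node (nat_lit 7)
  (nat_lit 76071) (nat_lit 10) (node (nat_lit 4) (nat_lit 76226) (nat_lit 11) (node (nat_lit 5)
  (nat_lit 65828) (nat_lit 12) nil nil) nil) (node (nat_lit 5) (nat_lit 70413) (nat_lit 10) nil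
  nil)) (node (nat_lit 7) (nat_lit 73771) (nat_lit 9) (node (nat_lit 4) (nat_lit 71583) (nat_lit
  10) (node (nat_lit 5) (nat_lit 67876) (nat_lit 11) nil nil) nil) (node (nat_lit 9) (nat_lit
  72470) (nat_lit 9) nil nil))) (node (nat_lit 0) (nat_lit 67618) (nat_lit 8) nil nil)))) (node
  (nat_lit 4) (nat_lit 62150) (nat_lit 7) (node (nat_lit 5) (nat_lit 69340) (nat_lit 8) (node
  (nat_lit 7) (nat_lit 73720) (nat_lit 9) (node (nat_lit 4) (nat_lit 74493) (nat_lit 10) (node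
  (nat_lit 7) (nat_lit 75497) (nat_lit 11) nil (node (nat_lit 5) (nat_lit 61193) (nat_lit 11)
  (node (nat_lit 4) (nat_lit 31083) (nat_lit 12) (node (nat_lit 7) (nat_lit 17112) (nat_lit 13)
  nil nil) nil) nil)) (node (nat_lit 5) (nat_lit 76021) (nat_lit 10) (node (nat_lit 4) (nat_lit
  73353) (nat_lit 11) nil nil) nil)) (node (nat_lit 4) (nat_lit 73542) (nat_lit 9) (node (nat_lit
  7) (nat_lit 67840) (nat_lit 10) nil nil) nil)) (node (nat_lit 7) (nat_lit 69617) (nat_lit 8)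
  (node (nat_lit 5) (nat_lit 73819) (nat_lit 9) (node (nat_lit 7) (nat_lit 68117) (nat_lit 10) nil
  nil) (node (nat_lit 4) (nat_lit 73819) (nat_lit 9) (node (nat_lit 5) (nat_lit 75698) (nat_lit
  10) (node (nat_lit 4) (nat_lit 74221) (nat_lit 11) (node (nat_lit 7) (nat_lit 62471) (nat_lit
  12) nil nil) nil) nil) (node (nat_lit 9) (nat_lit 73819) (nat_lit 9) nil nil))) nil)) (node
  (nat_lit 0) (nat_lit 0) (nat_lit 7) (node (nat_lit 5) (nat_lit 69518) (nat_lit 8) (node (nat_lit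
  7) (nat_lit 73309) (nat_lit 9) (node (nat_lit 4) (nat_lit 60998) (nat_lit 10) (node (nat_lit 5)
  (nat_lit 57291) (nat_lit 11) nil nil) nil) (node (nat_lit 4) (nat_lit 73720) (nat_lit 9) nil
  nil)) (node (nat_lit 4) (nat_lit 69518) (nat_lit 8) (node (nat_lit 7) (nat_lit 73720) (nat_lit
  9) (node (nat_lit 4) (nat_lit 61409) (nat_lit 10) nil nil) (node (nat_lit 5) (nat_lit 73586)
  (nat_lit 9) nil nil)) (node (nat_lit 7) (nat_lit 69518) (nat_lit 8) (node (nat_lit 5) (nat_lit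
  73720) (nat_lit 9) nil (node (nat_lit 4) (nat_lit 73257) (nat_lit 9) nil nil)) (node (nat_lit 9)
  (nat_lit 67640) (nat_lit 8) nil (node (nat_lit 0) (nat_lit 67640) (nat_lit 8) nil nil)))))
  nil)))) nil)) nil)) nil) nil))

noncomputable def c53 : Tr :=
  (node (nat_lit 3) (nat_lit 0) (nat_lit 1) (node (nat_lit 3) (nat_lit 0) (nat_lit 2) t398 nil)
  nil)

noncomputable def t399 : Tr :=
  (node (nat_lit 4) (nat_lit 0) (nat_lit 4) (node (nat_lit 0) (nat_lit 0) (nat_lit 5) (node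
  (nat_lit 4) (nat_lit 0) (nat_lit 6) (node (nat_lit 6) (nat_lit 61387) (nat_lit 7) (node (nat_lit
  8) (nat_lit 77522) (nat_lit 8) (node (nat_lit 4) (nat_lit 78066) (nat_lit 9) (node (nat_lit 5)
  (nat_lit 77630) (nat_lit 10) (node (nat_lit 4) (nat_lit 76818) (nat_lit 11) nil (node (nat_lit
  6) (nat_lit 77630) (nat_lit 11) nil (node (nat_lit 8) (nat_lit 79459) (nat_lit 11) nil nil)))
  (node (nat_lit 8) (nat_lit 80777) (nat_lit 10) (node (nat_lit 6) (nat_lit 80777) (nat_lit 11)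
  nil nil) (node (nat_lit 0) (nat_lit 80026) (nat_lit 10) nil nil))) (node (nat_lit 6) (nat_lit
  77443) (nat_lit 9) (node (nat_lit 4) (nat_lit 77443) (nat_lit 10) nil (node (nat_lit 5) (nat_lit
  77443) (nat_lit 10) nil nil)) (node (nat_lit 5) (nat_lit 77522) (nat_lit 9) nil nil))) (node
  (nat_lit 4) (nat_lit 66582) (nat_lit 8) (node (nat_lit 8) (nat_lit 79537) (nat_lit 9) (node
  (nat_lit 6) (nat_lit 79537) (nat_lit 10) (node (nat_lit 8) (nat_lit 80613) (nat_lit 11) (node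
  (nat_lit 4) (nat_lit 80613) (nat_lit 12) nil nil) (node (nat_lit 4) (nat_lit 79537) (nat_lit 11)
  nil nil)) (node (nat_lit 5) (nat_lit 79537) (nat_lit 10) nil (node (nat_lit 0) (nat_lit 80109)
  (nat_lit 10) nil nil))) (node (nat_lit 5) (nat_lit 72298) (nat_lit 9) (node (nat_lit 4) (nat_lit
  71438) (nat_lit 10) nil (node (nat_lit 6) (nat_lit 71586) (nat_lit 10) nil nil)) (node (nat_lit
  0) (nat_lit 73755) (nat_lit 9) nil nil))) (node (nat_lit 5) (nat_lit 67393) (nat_lit 8) (node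
  (nat_lit 6) (nat_lit 74449) (nat_lit 9) (node (nat_lit 4) (nat_lit 75428) (nat_lit 10) nil (node
  (nat_lit 8) (nat_lit 78700) (nat_lit 10) nil nil)) (node (nat_lit 4) (nat_lit 72678) (nat_lit 9)
  (node (nat_lit 5) (nat_lit 73657) (nat_lit 10) nil (node (nat_lit 6) (nat_lit 74297) (nat_lit
  10) nil (node (nat_lit 8) (nat_lit 76929) (nat_lit 10) nil nil))) (node (nat_lit 8) (nat_lit
  77029) (nat_lit 9) nil (node (nat_lit 0) (nat_lit 78577) (nat_lit 9) nil nil)))) (node (nat_lit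
  0) (nat_lit 77268) (nat_lit 8) nil nil)))) (node (nat_lit 5) (nat_lit 62232) (nat_lit 7) (node
  (nat_lit 4) (nat_lit 67344) (nat_lit 8) (node (nat_lit 8) (nat_lit 79603) (nat_lit 9) (node
  (nat_lit 5) (nat_lit 79603) (nat_lit 10) (node (nat_lit 8) (nat_lit 80678) (nat_lit 11) nil nil)
  nil) (node (nat_lit 6) (nat_lit 73619) (nat_lit 9) (node (nat_lit 5) (nat_lit 71170) (nat_lit
  10) nil (node (nat_lit 8) (nat_lit 77869) (nat_lit 10) nil nil)) (node (nat_lit 0) (nat_lit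
  76979) (nat_lit 9) nil nil))) (node (nat_lit 6) (nat_lit 68070) (nat_lit 8) (node (nat_lit 5)
  (nat_lit 74865) (nat_lit 9) (node (nat_lit 4) (nat_lit 74769) (nat_lit 10) nil (node (nat_lit 8)
  (nat_lit 79115) (nat_lit 10) nil (node (nat_lit 0) (nat_lit 79115) (nat_lit 10) nil nil))) (node
  (nat_lit 4) (nat_lit 73945) (nat_lit 9) (node (nat_lit 6) (nat_lit 75612) (nat_lit 10) nil (node
  (nat_lit 5) (nat_lit 75630) (nat_lit 10) nil nil)) (node (nat_lit 8) (nat_lit 77706) (nat_lit 9)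
  nil (node (nat_lit 0) (nat_lit 79253) (nat_lit 9) nil nil)))) (node (nat_lit 8) (nat_lit 78061)
  (nat_lit 8) (node (nat_lit 5) (nat_lit 78061) (nat_lit 9) (node (nat_lit 4) (nat_lit 78061)
  (nat_lit 10) nil nil) (node (nat_lit 4) (nat_lit 78061) (nat_lit 9) nil (node (nat_lit 6)
  (nat_lit 78061) (nat_lit 9) nil nil))) (node (nat_lit 0) (nat_lit 78114) (nat_lit 8) nil nil))))
  (node (nat_lit 0) (nat_lit 74226) (nat_lit 7) (node (nat_lit 8) (nat_lit 78131) (nat_lit 8)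
  (node (nat_lit 4) (nat_lit 78075) (nat_lit 9) (node (nat_lit 8) (nat_lit 79963) (nat_lit 10) nil
  nil) (node (nat_lit 10) (nat_lit 78884) (nat_lit 9) nil nil)) (node (nat_lit 4) (nat_lit 74717)
  (nat_lit 8) (node (nat_lit 8) (nat_lit 79524) (nat_lit 9) nil nil) (node (nat_lit 6) (nat_lit
  74416) (nat_lit 8) (node (nat_lit 8) (nat_lit 76411) (nat_lit 9) nil nil) (node (nat_lit 5)
  (nat_lit 74226) (nat_lit 8) nil (node (nat_lit 0) (nat_lit 77909) (nat_lit 8) nil nil)))))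
  nil))) (node (nat_lit 6) (nat_lit 0) (nat_lit 6) (node (nat_lit 5) (nat_lit 62133) (nat_lit 7)
  (node (nat_lit 4) (nat_lit 66908) (nat_lit 8) (node (nat_lit 6) (nat_lit 73703) (nat_lit 9)
  (node (nat_lit 4) (nat_lit 75388) (nat_lit 10) nil nil) (node (nat_lit 5) (nat_lit 72646)
  (nat_lit 9) (node (nat_lit 6) (nat_lit 71934) (nat_lit 10) nil nil) nil)) (node (nat_lit 6)
  (nat_lit 67418) (nat_lit 8) (node (nat_lit 4) (nat_lit 71138) (nat_lit 9) nil nil) (node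
  (nat_lit 8) (nat_lit 74368) (nat_lit 8) nil (node (nat_lit 0) (nat_lit 74368) (nat_lit 8) nil
  nil)))) (node (nat_lit 8) (nat_lit 73344) (nat_lit 7) (node (nat_lit 4) (nat_lit 74409) (nat_lit
  8) (node (nat_lit 8) (nat_lit 79705) (nat_lit 9) (node (nat_lit 6) (nat_lit 80076) (nat_lit 10)
  (node (nat_lit 4) (nat_lit 80076) (nat_lit 11) (node (nat_lit 6) (nat_lit 80076) (nat_lit 12)
  nil nil) (node (nat_lit 5) (nat_lit 80076) (nat_lit 11) nil nil)) nil) (node (nat_lit 6)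
  (nat_lit 74981) (nat_lit 9) nil nil)) nil) (node (nat_lit 4) (nat_lit 61323) (nat_lit 7) (node
  (nat_lit 6) (nat_lit 67020) (nat_lit 8) (node (nat_lit 8) (nat_lit 79279) (nat_lit 9) nil (node
  (nat_lit 5) (nat_lit 71557) (nat_lit 9) nil nil)) (node (nat_lit 5) (nat_lit 64318) (nat_lit 8)
  (node (nat_lit 6) (nat_lit 64434) (nat_lit 9) (node (nat_lit 4) (nat_lit 66119) (nat_lit 10)
  (node (nat_lit 8) (nat_lit 28773) (nat_lit 11) nil nil) nil) nil) (node (nat_lit 0) (nat_lit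
  71610) (nat_lit 8) nil nil))) (node (nat_lit 0) (nat_lit 72471) (nat_lit 7) (node (nat_lit 8)
  (nat_lit 73712) (nat_lit 8) nil nil) nil)))) (node (nat_lit 5) (nat_lit 0) (nat_lit 6) (node
  (nat_lit 6) (nat_lit 61041) (nat_lit 7) (node (nat_lit 4) (nat_lit 63943) (nat_lit 8) (node
  (nat_lit 5) (nat_lit 66791) (nat_lit 9) nil nil) (node (nat_lit 5) (nat_lit 63129) (nat_lit 8)
  nil (node (nat_lit 8) (nat_lit 67462) (nat_lit 8) nil nil))) (node (nat_lit 4) (nat_lit 0)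
  (nat_lit 7) (node (nat_lit 5) (nat_lit 67499) (nat_lit 8) (node (nat_lit 8) (nat_lit 77135)
  (nat_lit 9) nil (node (nat_lit 6) (nat_lit 67615) (nat_lit 9) nil nil)) (node (nat_lit 6)
  (nat_lit 66514) (nat_lit 8) (node (nat_lit 5) (nat_lit 70009) (nat_lit 9) nil nil) (node
  (nat_lit 0) (nat_lit 72516) (nat_lit 8) nil (node (nat_lit 8) (nat_lit 68651) (nat_lit 8) nil
  nil)))) (node (nat_lit 8) (nat_lit 74376) (nat_lit 7) (node (nat_lit 4) (nat_lit 74427) (nat_lit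
  8) (node (nat_lit 8) (nat_lit 79234) (nat_lit 9) (node (nat_lit 5) (nat_lit 79234) (nat_lit 10)
  nil nil) nil) nil) (node (nat_lit 0) (nat_lit 73016) (nat_lit 7) nil nil)))) (node (nat_lit 0)
  (nat_lit 0) (nat_lit 6) (node (nat_lit 4) (nat_lit 67817) (nat_lit 7) (node (nat_lit 8) (nat_lit
  76834) (nat_lit 8) (node (nat_lit 4) (nat_lit 76538) (nat_lit 9) (node (nat_lit 9) (nat_lit
  77863) (nat_lit 10) nil nil) nil) (node (nat_lit 9) (nat_lit 74854) (nat_lit 8) nil nil)) (node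
  (nat_lit 8) (nat_lit 74239) (nat_lit 7) (node (nat_lit 4) (nat_lit 74069) (nat_lit 8) (node
  (nat_lit 8) (nat_lit 77800) (nat_lit 9) (node (nat_lit 9) (nat_lit 78372) (nat_lit 10) nil nil)
  nil) nil) (node (nat_lit 6) (nat_lit 67189) (nat_lit 7) nil (node (nat_lit 0) (nat_lit 70272)
  (nat_lit 7) nil (node (nat_lit 5) (nat_lit 67189) (nat_lit 7) nil nil))))) nil)))) (node
  (nat_lit 6) (nat_lit 0) (nat_lit 5) (node (nat_lit 0) (nat_lit 0) (nat_lit 6) (node (nat_lit 4)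
  (nat_lit 0) (nat_lit 7) (node (nat_lit 6) (nat_lit 62137) (nat_lit 8) (node (nat_lit 4) (nat_lit
  67020) (nat_lit 9) (node (nat_lit 9) (nat_lit 78436) (nat_lit 10) (node (nat_lit 6) (nat_lit
  79002) (nat_lit 11) (node (nat_lit 4) (nat_lit 78815) (nat_lit 12) (node (nat_lit 6) (nat_lit
  78815) (nat_lit 13) nil nil) (node (nat_lit 9) (nat_lit 80396) (nat_lit 12) nil (node (nat_lit
  5) (nat_lit 79002) (nat_lit 12) nil (node (nat_lit 0) (nat_lit 79963) (nat_lit 12) nil nil))))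
  (node (nat_lit 4) (nat_lit 79079) (nat_lit 11) (node (nat_lit 6) (nat_lit 79673) (nat_lit 12)
  (node (nat_lit 9) (nat_lit 81005) (nat_lit 13) nil (node (nat_lit 5) (nat_lit 79673) (nat_lit
  13) nil nil)) (node (nat_lit 5) (nat_lit 79079) (nat_lit 12) nil (node (nat_lit 0) (nat_lit
  80039) (nat_lit 12) nil nil))) (node (nat_lit 5) (nat_lit 78436) (nat_lit 11) nil (node (nat_lit
  0) (nat_lit 79179) (nat_lit 11) nil nil)))) (node (nat_lit 5) (nat_lit 73122) (nat_lit 10) (node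
  (nat_lit 6) (nat_lit 76515) (nat_lit 11) (node (nat_lit 5) (nat_lit 75820) (nat_lit 12) (node
  (nat_lit 4) (nat_lit 74900) (nat_lit 13) (node (nat_lit 5) (nat_lit 74533) (nat_lit 14) (node
  (nat_lit 6) (nat_lit 72156) (nat_lit 15) (node (nat_lit 4) (nat_lit 68227) (nat_lit 16) nil nil)
  nil) nil) nil) (node (nat_lit 4) (nat_lit 77368) (nat_lit 12) (node (nat_lit 6) (nat_lit 76840)
  (nat_lit 13) (node (nat_lit 9) (nat_lit 35643) (nat_lit 14) (node (nat_lit 4) (nat_lit 35643)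
  (nat_lit 15) nil nil) nil) nil) nil)) (node (nat_lit 4) (nat_lit 76787) (nat_lit 11) (node
  (nat_lit 6) (nat_lit 77064) (nat_lit 12) nil nil) (node (nat_lit 9) (nat_lit 77916) (nat_lit 11)
  nil (node (nat_lit 0) (nat_lit 77916) (nat_lit 11) nil nil)))) (node (nat_lit 0) (nat_lit 79089)
  (nat_lit 10) nil nil))) (node (nat_lit 5) (nat_lit 67824) (nat_lit 9) (node (nat_lit 4) (nat_lit
  73668) (nat_lit 10) (node (nat_lit 6) (nat_lit 76347) (nat_lit 11) (node (nat_lit 4) (nat_lit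
  72567) (nat_lit 12) nil nil) (node (nat_lit 5) (nat_lit 75198) (nat_lit 11) nil (node (nat_lit
  9) (nat_lit 79266) (nat_lit 11) nil (node (nat_lit 0) (nat_lit 78462) (nat_lit 11) nil nil))))
  (node (nat_lit 6) (nat_lit 73102) (nat_lit 10) (node (nat_lit 4) (nat_lit 74297) (nat_lit 11)
  nil (node (nat_lit 9) (nat_lit 77896) (nat_lit 11) nil (node (nat_lit 0) (nat_lit 77896)
  (nat_lit 11) nil nil))) (node (nat_lit 9) (nat_lit 79051) (nat_lit 10) nil (node (nat_lit 0)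
  (nat_lit 77092) (nat_lit 10) nil nil)))) (node (nat_lit 0) (nat_lit 76752) (nat_lit 9) (node
  (nat_lit 6) (nat_lit 76752) (nat_lit 10) nil (node (nat_lit 9) (nat_lit 77589) (nat_lit 10) nil
  (node (nat_lit 4) (nat_lit 76752) (nat_lit 10) nil (node (nat_lit 0) (nat_lit 77324) (nat_lit
  10) nil (node (nat_lit 5) (nat_lit 76752) (nat_lit 10) nil nil))))) nil))) (node (nat_lit 9)
  (nat_lit 71816) (nat_lit 8) (node (nat_lit 6) (nat_lit 73396) (nat_lit 9) (node (nat_lit 4)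
  (nat_lit 73396) (nat_lit 10) nil (node (nat_lit 9) (nat_lit 75908) (nat_lit 10) nil nil)) nil)
  (node (nat_lit 5) (nat_lit 62824) (nat_lit 8) (node (nat_lit 9) (nat_lit 71981) (nat_lit 9) nil
  nil) (node (nat_lit 0) (nat_lit 68172) (nat_lit 8) nil nil)))) (node (nat_lit 5) (nat_lit 58470)
  (nat_lit 7) (node (nat_lit 6) (nat_lit 62689) (nat_lit 8) (node (nat_lit 5) (nat_lit 66713)
  (nat_lit 9) (node (nat_lit 4) (nat_lit 67062) (nat_lit 10) nil nil) (node (nat_lit 4) (nat_lit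
  61446) (nat_lit 9) nil (node (nat_lit 0) (nat_lit 69384) (nat_lit 9) nil nil))) (node (nat_lit
  4) (nat_lit 59247) (nat_lit 8) nil (node (nat_lit 9) (nat_lit 67900) (nat_lit 8) nil nil)))
  (node (nat_lit 6) (nat_lit 0) (nat_lit 7) (node (nat_lit 4) (nat_lit 61564) (nat_lit 8) (node
  (nat_lit 9) (nat_lit 75628) (nat_lit 9) (node (nat_lit 4) (nat_lit 76288) (nat_lit 10) (node
  (nat_lit 6) (nat_lit 77023) (nat_lit 11) (node (nat_lit 9) (nat_lit 79253) (nat_lit 12) (node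
  (nat_lit 6) (nat_lit 79253) (nat_lit 13) nil nil) nil) nil) nil) (node (nat_lit 0) (nat_lit
  68259) (nat_lit 9) nil nil)) (node (nat_lit 0) (nat_lit 66995) (nat_lit 8) nil (node (nat_lit 5)
  (nat_lit 57565) (nat_lit 8) nil nil))) (node (nat_lit 0) (nat_lit 64595) (nat_lit 7) (node
  (nat_lit 6) (nat_lit 64595) (nat_lit 8) nil (node (nat_lit 4) (nat_lit 64595) (nat_lit 8) nil
  nil)) nil)))) nil) (node (nat_lit 5) (nat_lit 0) (nat_lit 5) (node (nat_lit 0) (nat_lit 0)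
  (nat_lit 6) (node (nat_lit 4) (nat_lit 0) (nat_lit 7) (node (nat_lit 5) (nat_lit 30075) (nat_lit
  8) (node (nat_lit 6) (nat_lit 33559) (nat_lit 9) (node (nat_lit 4) (nat_lit 35306) (nat_lit 10)
  (node (nat_lit 9) (nat_lit 37276) (nat_lit 11) nil nil) (node (nat_lit 5) (nat_lit 36862)
  (nat_lit 10) nil (node (nat_lit 9) (nat_lit 38028) (nat_lit 10) nil (node (nat_lit 0) (nat_lit
  36700) (nat_lit 10) nil nil)))) (node (nat_lit 4) (nat_lit 33583) (nat_lit 9) (node (nat_lit 6)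
  (nat_lit 37098) (nat_lit 10) (node (nat_lit 5) (nat_lit 35089) (nat_lit 11) nil (node (nat_lit
  9) (nat_lit 38836) (nat_lit 11) nil nil)) (node (nat_lit 9) (nat_lit 38836) (nat_lit 10) (node
  (nat_lit 4) (nat_lit 38836) (nat_lit 11) nil nil) (node (nat_lit 0) (nat_lit 38053) (nat_lit 10)
  nil nil))) (node (nat_lit 0) (nat_lit 37769) (nat_lit 9) nil nil))) (node (nat_lit 6) (nat_lit
  28110) (nat_lit 8) nil (node (nat_lit 9) (nat_lit 30638) (nat_lit 8) nil (node (nat_lit 0)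
  (nat_lit 28476) (nat_lit 8) nil nil)))) (node (nat_lit 6) (nat_lit 26600) (nat_lit 7) (node
  (nat_lit 5) (nat_lit 29856) (nat_lit 8) (node (nat_lit 6) (nat_lit 30676) (nat_lit 9) nil (node
  (nat_lit 4) (nat_lit 31254) (nat_lit 9) nil nil)) (node (nat_lit 4) (nat_lit 26600) (nat_lit 8)
  nil nil)) (node (nat_lit 5) (nat_lit 26481) (nat_lit 7) (node (nat_lit 4) (nat_lit 29739)
  (nat_lit 8) (node (nat_lit 9) (nat_lit 37433) (nat_lit 9) (node (nat_lit 4) (nat_lit 37433)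
  (nat_lit 10) (node (nat_lit 5) (nat_lit 37433) (nat_lit 11) nil nil) nil) nil) (node (nat_lit 6)
  (nat_lit 26481) (nat_lit 8) nil nil)) (node (nat_lit 0) (nat_lit 29276) (nat_lit 7) nil nil))))
  nil) nil))) (node (nat_lit 5) (nat_lit 0) (nat_lit 4) (node (nat_lit 0) (nat_lit 0) (nat_lit 5)
  (node (nat_lit 5) (nat_lit 0) (nat_lit 6) (node (nat_lit 6) (nat_lit 81153) (nat_lit 7) (node
  (nat_lit 8) (nat_lit 100311) (nat_lit 8) (node (nat_lit 5) (nat_lit 100311) (nat_lit 9) (node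
  (nat_lit 4) (nat_lit 100311) (nat_lit 10) (node (nat_lit 5) (nat_lit 99426) (nat_lit 11) nil
  (node (nat_lit 6) (nat_lit 100311) (nat_lit 11) nil nil)) (node (nat_lit 8) (nat_lit 101482)
  (nat_lit 10) (node (nat_lit 6) (nat_lit 101482) (nat_lit 11) nil nil) (node (nat_lit 0) (nat_lit
  100918) (nat_lit 10) nil nil))) (node (nat_lit 6) (nat_lit 100311) (nat_lit 9) (node (nat_lit 5)
  (nat_lit 100311) (nat_lit 10) nil nil) (node (nat_lit 4) (nat_lit 100311) (nat_lit 9) nil nil)))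
  (node (nat_lit 4) (nat_lit 86606) (nat_lit 8) (node (nat_lit 5) (nat_lit 93909) (nat_lit 9)
  (node (nat_lit 6) (nat_lit 95338) (nat_lit 10) (node (nat_lit 5) (nat_lit 92510) (nat_lit 11)
  (node (nat_lit 8) (nat_lit 60875) (nat_lit 12) nil nil) nil) (node (nat_lit 4) (nat_lit 94426)
  (nat_lit 10) nil nil)) (node (nat_lit 6) (nat_lit 94401) (nat_lit 9) (node (nat_lit 5) (nat_lit
  94911) (nat_lit 10) nil (node (nat_lit 8) (nat_lit 98651) (nat_lit 10) nil nil)) (node (nat_lit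
  8) (nat_lit 99906) (nat_lit 9) nil (node (nat_lit 0) (nat_lit 99906) (nat_lit 9) nil nil))))
  (node (nat_lit 5) (nat_lit 87724) (nat_lit 8) (node (nat_lit 4) (nat_lit 94510) (nat_lit 9) nil
  (node (nat_lit 0) (nat_lit 94898) (nat_lit 9) nil nil)) (node (nat_lit 0) (nat_lit 99218)
  (nat_lit 8) nil nil)))) (node (nat_lit 4) (nat_lit 80999) (nat_lit 7) (node (nat_lit 6) (nat_lit
  86998) (nat_lit 8) (node (nat_lit 5) (nat_lit 93966) (nat_lit 9) (node (nat_lit 6) (nat_lit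
  95400) (nat_lit 10) nil (node (nat_lit 4) (nat_lit 95651) (nat_lit 10) nil nil)) (node (nat_lit
  4) (nat_lit 94784) (nat_lit 9) (node (nat_lit 5) (nat_lit 96469) (nat_lit 10) nil (node (nat_lit
  8) (nat_lit 99035) (nat_lit 10) nil nil)) (node (nat_lit 8) (nat_lit 99933) (nat_lit 9) nil
  (node (nat_lit 0) (nat_lit 99933) (nat_lit 9) nil nil)))) (node (nat_lit 5) (nat_lit 87241)
  (nat_lit 8) (node (nat_lit 6) (nat_lit 94091) (nat_lit 9) (node (nat_lit 5) (nat_lit 90620)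
  (nat_lit 10) (node (nat_lit 8) (nat_lit 74986) (nat_lit 11) nil nil) (node (nat_lit 4) (nat_lit
  95776) (nat_lit 10) nil (node (nat_lit 8) (nat_lit 98342) (nat_lit 10) nil nil))) (node (nat_lit
  8) (nat_lit 100515) (nat_lit 9) (node (nat_lit 4) (nat_lit 100515) (nat_lit 10) (node (nat_lit
  8) (nat_lit 101009) (nat_lit 11) nil nil) nil) (node (nat_lit 0) (nat_lit 99933) (nat_lit 9) nil
  nil))) (node (nat_lit 8) (nat_lit 99596) (nat_lit 8) (node (nat_lit 4) (nat_lit 99596) (nat_lit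
  9) (node (nat_lit 5) (nat_lit 99596) (nat_lit 10) nil nil) (node (nat_lit 5) (nat_lit 99596)
  (nat_lit 9) nil nil)) (node (nat_lit 0) (nat_lit 99567) (nat_lit 8) nil nil)))) (node (nat_lit
  0) (nat_lit 96278) (nat_lit 7) (node (nat_lit 8) (nat_lit 100264) (nat_lit 8) (node (nat_lit 5)
  (nat_lit 100264) (nat_lit 9) (node (nat_lit 8) (nat_lit 100872) (nat_lit 10) nil nil) nil) (node
  (nat_lit 5) (nat_lit 95884) (nat_lit 8) (node (nat_lit 8) (nat_lit 98942) (nat_lit 9) nil nil)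
  (node (nat_lit 6) (nat_lit 96781) (nat_lit 8) (node (nat_lit 8) (nat_lit 98775) (nat_lit 9) nil
  nil) (node (nat_lit 0) (nat_lit 99760) (nat_lit 8) nil (node (nat_lit 4) (nat_lit 96278)
  (nat_lit 8) nil nil))))) nil))) (node (nat_lit 6) (nat_lit 0) (nat_lit 6) (node (nat_lit 8)
  (nat_lit 95949) (nat_lit 7) (node (nat_lit 5) (nat_lit 96791) (nat_lit 8) (node (nat_lit 8)
  (nat_lit 100956) (nat_lit 9) (node (nat_lit 6) (nat_lit 100956) (nat_lit 10) (node (nat_lit 5)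
  (nat_lit 100956) (nat_lit 11) (node (nat_lit 6) (nat_lit 100956) (nat_lit 12) nil nil) (node
  (nat_lit 4) (nat_lit 100956) (nat_lit 11) nil nil)) nil) (node (nat_lit 6) (nat_lit 96791)
  (nat_lit 9) nil nil)) nil) (node (nat_lit 4) (nat_lit 81544) (nat_lit 7) (node (nat_lit 5)
  (nat_lit 87043) (nat_lit 8) (node (nat_lit 6) (nat_lit 94517) (nat_lit 9) (node (nat_lit 5)
  (nat_lit 97239) (nat_lit 10) (node (nat_lit 8) (nat_lit 25595) (nat_lit 11) nil nil) nil) (node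
  (nat_lit 4) (nat_lit 90664) (nat_lit 9) (node (nat_lit 6) (nat_lit 88526) (nat_lit 10) nil nil)
  nil)) (node (nat_lit 6) (nat_lit 86139) (nat_lit 8) (node (nat_lit 5) (nat_lit 90988) (nat_lit
  9) nil nil) (node (nat_lit 8) (nat_lit 94660) (nat_lit 8) nil (node (nat_lit 0) (nat_lit 94660)
  (nat_lit 8) nil nil)))) (node (nat_lit 5) (nat_lit 81587) (nat_lit 7) (node (nat_lit 6) (nat_lit
  88108) (nat_lit 8) (node (nat_lit 4) (nat_lit 93297) (nat_lit 9) nil (node (nat_lit 8) (nat_lit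
  100956) (nat_lit 9) nil nil)) (node (nat_lit 4) (nat_lit 87009) (nat_lit 8) (node (nat_lit 6)
  (nat_lit 90503) (nat_lit 9) nil nil) (node (nat_lit 0) (nat_lit 88008) (nat_lit 8) nil nil)))
  (node (nat_lit 0) (nat_lit 96310) (nat_lit 7) nil nil)))) (node (nat_lit 4) (nat_lit 0) (nat_lit
  6) (node (nat_lit 5) (nat_lit 81260) (nat_lit 7) (node (nat_lit 4) (nat_lit 86934) (nat_lit 8)
  (node (nat_lit 8) (nat_lit 97357) (nat_lit 9) nil (node (nat_lit 6) (nat_lit 87051) (nat_lit 9)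
  nil nil)) (node (nat_lit 6) (nat_lit 85542) (nat_lit 8) (node (nat_lit 4) (nat_lit 89037)
  (nat_lit 9) nil nil) (node (nat_lit 0) (nat_lit 87681) (nat_lit 8) nil nil))) (node (nat_lit 6)
  (nat_lit 78656) (nat_lit 7) (node (nat_lit 5) (nat_lit 85027) (nat_lit 8) (node (nat_lit 4)
  (nat_lit 84817) (nat_lit 9) nil nil) (node (nat_lit 4) (nat_lit 83337) (nat_lit 8) nil (node
  (nat_lit 8) (nat_lit 91772) (nat_lit 8) nil nil))) (node (nat_lit 8) (nat_lit 95562) (nat_lit 7)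
  (node (nat_lit 5) (nat_lit 95169) (nat_lit 8) (node (nat_lit 8) (nat_lit 98942) (nat_lit 9) nil
  nil) nil) (node (nat_lit 0) (nat_lit 93925) (nat_lit 7) nil nil)))) (node (nat_lit 0) (nat_lit
  89183) (nat_lit 6) (node (nat_lit 5) (nat_lit 87747) (nat_lit 7) (node (nat_lit 8) (nat_lit
  98141) (nat_lit 8) (node (nat_lit 5) (nat_lit 98141) (nat_lit 9) nil nil) (node (nat_lit 9)
  (nat_lit 96554) (nat_lit 8) nil nil)) (node (nat_lit 8) (nat_lit 96256) (nat_lit 7) (node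
  (nat_lit 5) (nat_lit 96256) (nat_lit 8) (node (nat_lit 8) (nat_lit 98250) (nat_lit 9) nil nil)
  nil) (node (nat_lit 0) (nat_lit 93210) (nat_lit 7) nil (node (nat_lit 6) (nat_lit 89183)
  (nat_lit 7) nil nil)))) nil)))) (node (nat_lit 4) (nat_lit 0) (nat_lit 5) (node (nat_lit 0)
  (nat_lit 0) (nat_lit 6) (node (nat_lit 5) (nat_lit 0) (nat_lit 7) (node (nat_lit 4) (nat_lit
  85294) (nat_lit 8) (node (nat_lit 5) (nat_lit 91186) (nat_lit 9) (node (nat_lit 9) (nat_lit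
  101363) (nat_lit 10) (node (nat_lit 5) (nat_lit 101363) (nat_lit 11) (node (nat_lit 4) (nat_lit
  101363) (nat_lit 12) nil nil) (node (nat_lit 4) (nat_lit 101363) (nat_lit 11) nil nil)) (node
  (nat_lit 6) (nat_lit 97136) (nat_lit 10) (node (nat_lit 4) (nat_lit 99478) (nat_lit 11) nil
  (node (nat_lit 9) (nat_lit 100805) (nat_lit 11) nil nil)) (node (nat_lit 0) (nat_lit 100210)
  (nat_lit 10) nil nil))) (node (nat_lit 6) (nat_lit 91804) (nat_lit 9) (node (nat_lit 4) (nat_lit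
  96397) (nat_lit 10) nil (node (nat_lit 5) (nat_lit 97161) (nat_lit 10) nil (node (nat_lit 9)
  (nat_lit 101342) (nat_lit 10) nil (node (nat_lit 0) (nat_lit 99071) (nat_lit 10) nil nil))))
  (node (nat_lit 0) (nat_lit 99956) (nat_lit 9) nil nil))) (node (nat_lit 6) (nat_lit 81769)
  (nat_lit 8) (node (nat_lit 9) (nat_lit 88464) (nat_lit 9) nil nil) (node (nat_lit 9) (nat_lit
  92719) (nat_lit 8) nil (node (nat_lit 0) (nat_lit 86838) (nat_lit 8) nil nil)))) (node (nat_lit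
  6) (nat_lit 80107) (nat_lit 7) (node (nat_lit 4) (nat_lit 84060) (nat_lit 8) (node (nat_lit 6)
  (nat_lit 86684) (nat_lit 9) nil (node (nat_lit 5) (nat_lit 84999) (nat_lit 9) nil nil)) (node
  (nat_lit 9) (nat_lit 85426) (nat_lit 8) nil (node (nat_lit 5) (nat_lit 80107) (nat_lit 8) nil
  nil))) (node (nat_lit 4) (nat_lit 79725) (nat_lit 7) (node (nat_lit 5) (nat_lit 83684) (nat_lit
  8) (node (nat_lit 9) (nat_lit 98278) (nat_lit 9) (node (nat_lit 5) (nat_lit 98278) (nat_lit 10)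
  nil nil) nil) (node (nat_lit 6) (nat_lit 79725) (nat_lit 8) nil nil)) (node (nat_lit 0) (nat_lit
  88138) (nat_lit 7) nil nil)))) (node (nat_lit 6) (nat_lit 0) (nat_lit 6) (node (nat_lit 5)
  (nat_lit 0) (nat_lit 7) (node (nat_lit 6) (nat_lit 0) (nat_lit 8) (node (nat_lit 4) (nat_lit
  60453) (nat_lit 9) (node (nat_lit 5) (nat_lit 50928) (nat_lit 10) nil nil) (node (nat_lit 0)
  (nat_lit 69973) (nat_lit 9) nil nil)) (node (nat_lit 0) (nat_lit 71937) (nat_lit 8) (node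
  (nat_lit 6) (nat_lit 71937) (nat_lit 9) nil nil) nil)) (node (nat_lit 4) (nat_lit 0) (nat_lit 7)
  (node (nat_lit 5) (nat_lit 0) (nat_lit 8) (node (nat_lit 4) (nat_lit 38526) (nat_lit 9) (node
  (nat_lit 6) (nat_lit 34035) (nat_lit 10) nil nil) (node (nat_lit 0) (nat_lit 53661) (nat_lit 9)
  nil nil)) (node (nat_lit 0) (nat_lit 65590) (nat_lit 8) nil nil)) (node (nat_lit 0) (nat_lit
  70571) (nat_lit 7) (node (nat_lit 6) (nat_lit 70571) (nat_lit 8) nil (node (nat_lit 4) (nat_lit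
  70571) (nat_lit 8) nil (node (nat_lit 5) (nat_lit 70571) (nat_lit 8) nil nil))) nil))) (node
  (nat_lit 5) (nat_lit 0) (nat_lit 6) (node (nat_lit 0) (nat_lit 66764) (nat_lit 7) (node (nat_lit
  6) (nat_lit 66856) (nat_lit 8) (node (nat_lit 4) (nat_lit 66856) (nat_lit 9) nil nil) (node
  (nat_lit 4) (nat_lit 66764) (nat_lit 8) nil nil)) (node (nat_lit 6) (nat_lit 0) (nat_lit 7)
  (node (nat_lit 0) (nat_lit 65226) (nat_lit 8) nil nil) nil)) nil))) nil)) nil))

noncomputable def t400 : Tr :=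
  (node (nat_lit 0) (nat_lit 0) (nat_lit 4) (node (nat_lit 3) (nat_lit 0) (nat_lit 5) (node
  (nat_lit 7) (nat_lit 0) (nat_lit 6) (node (nat_lit 4) (nat_lit 66230) (nat_lit 7) (node (nat_lit
  8) (nat_lit 68018) (nat_lit 8) (node (nat_lit 5) (nat_lit 68674) (nat_lit 9) (node (nat_lit 8)
  (nat_lit 69449) (nat_lit 10) (node (nat_lit 4) (nat_lit 69449) (nat_lit 11) nil nil) (node
  (nat_lit 4) (nat_lit 69449) (nat_lit 10) (node (nat_lit 5) (nat_lit 69449) (nat_lit 11) nil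
  (node (nat_lit 8) (nat_lit 68238) (nat_lit 11) nil nil)) nil)) (node (nat_lit 4) (nat_lit 69449)
  (nat_lit 9) (node (nat_lit 5) (nat_lit 69449) (nat_lit 10) (node (nat_lit 8) (nat_lit 69449)
  (nat_lit 11) nil (node (nat_lit 4) (nat_lit 69090) (nat_lit 11) nil nil)) (node (nat_lit 7)
  (nat_lit 69449) (nat_lit 10) nil nil)) (node (nat_lit 0) (nat_lit 69449) (nat_lit 9) nil nil)))
  (node (nat_lit 5) (nat_lit 68914) (nat_lit 8) (node (nat_lit 8) (nat_lit 69449) (nat_lit 9)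
  (node (nat_lit 4) (nat_lit 69449) (nat_lit 10) nil nil) (node (nat_lit 4) (nat_lit 69449)
  (nat_lit 9) nil nil)) (node (nat_lit 7) (nat_lit 69449) (nat_lit 8) nil (node (nat_lit 0)
  (nat_lit 69449) (nat_lit 8) nil nil)))) (node (nat_lit 5) (nat_lit 66333) (nat_lit 7) (node
  (nat_lit 8) (nat_lit 68409) (nat_lit 8) (node (nat_lit 4) (nat_lit 69205) (nat_lit 9) (node
  (nat_lit 5) (nat_lit 69449) (nat_lit 10) nil (node (nat_lit 8) (nat_lit 69411) (nat_lit 10) nil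
  nil)) (node (nat_lit 5) (nat_lit 69065) (nat_lit 9) (node (nat_lit 4) (nat_lit 69449) (nat_lit
  10) (node (nat_lit 8) (nat_lit 69449) (nat_lit 11) nil nil) (node (nat_lit 7) (nat_lit 69449)
  (nat_lit 10) nil (node (nat_lit 0) (nat_lit 69449) (nat_lit 10) nil nil))) nil)) (node (nat_lit
  4) (nat_lit 67110) (nat_lit 8) nil (node (nat_lit 0) (nat_lit 67862) (nat_lit 8) nil nil)))
  (node (nat_lit 0) (nat_lit 69040) (nat_lit 7) nil nil))) (node (nat_lit 4) (nat_lit 0) (nat_lit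
  6) (node (nat_lit 8) (nat_lit 58137) (nat_lit 7) (node (nat_lit 5) (nat_lit 65754) (nat_lit 8)
  (node (nat_lit 4) (nat_lit 68636) (nat_lit 9) (node (nat_lit 5) (nat_lit 69449) (nat_lit 10)
  (node (nat_lit 8) (nat_lit 67317) (nat_lit 11) nil nil) nil) (node (nat_lit 8) (nat_lit 66397)
  (nat_lit 9) (node (nat_lit 4) (nat_lit 57445) (nat_lit 10) (node (nat_lit 5) (nat_lit 50002)
  (nat_lit 11) nil nil) nil) nil)) (node (nat_lit 7) (nat_lit 68435) (nat_lit 8) nil (node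
  (nat_lit 0) (nat_lit 64756) (nat_lit 8) nil nil))) (node (nat_lit 5) (nat_lit 57945) (nat_lit 7)
  (node (nat_lit 8) (nat_lit 64258) (nat_lit 8) (node (nat_lit 4) (nat_lit 66118) (nat_lit 9) nil
  (node (nat_lit 5) (nat_lit 65558) (nat_lit 9) nil nil)) (node (nat_lit 4) (nat_lit 63909)
  (nat_lit 8) (node (nat_lit 8) (nat_lit 65673) (nat_lit 9) (node (nat_lit 4) (nat_lit 67772)
  (nat_lit 10) (node (nat_lit 5) (nat_lit 68938) (nat_lit 11) nil nil) nil) nil) (node (nat_lit 7)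
  (nat_lit 68243) (nat_lit 8) nil nil))) (node (nat_lit 7) (nat_lit 69245) (nat_lit 7) (node
  (nat_lit 4) (nat_lit 69245) (nat_lit 8) (node (nat_lit 8) (nat_lit 69245) (nat_lit 9) (node
  (nat_lit 4) (nat_lit 69245) (nat_lit 10) nil nil) nil) (node (nat_lit 5) (nat_lit 69245)
  (nat_lit 8) nil nil)) (node (nat_lit 0) (nat_lit 66773) (nat_lit 7) nil nil)))) (node (nat_lit
  5) (nat_lit 0) (nat_lit 6) (node (nat_lit 4) (nat_lit 58878) (nat_lit 7) (node (nat_lit 8)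
  (nat_lit 65455) (nat_lit 8) (node (nat_lit 5) (nat_lit 68370) (nat_lit 9) (node (nat_lit 8)
  (nat_lit 68860) (nat_lit 10) (node (nat_lit 4) (nat_lit 67563) (nat_lit 11) (node (nat_lit 5)
  (nat_lit 63747) (nat_lit 12) nil nil) nil) nil) (node (nat_lit 4) (nat_lit 67316) (nat_lit 9)
  nil nil)) (node (nat_lit 5) (nat_lit 65297) (nat_lit 8) (node (nat_lit 8) (nat_lit 65071)
  (nat_lit 9) (node (nat_lit 4) (nat_lit 59275) (nat_lit 10) nil nil) nil) (node (nat_lit 7)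
  (nat_lit 69176) (nat_lit 8) nil nil))) (node (nat_lit 8) (nat_lit 57119) (nat_lit 7) (node
  (nat_lit 4) (nat_lit 64939) (nat_lit 8) (node (nat_lit 5) (nat_lit 68408) (nat_lit 9) (node
  (nat_lit 4) (nat_lit 66705) (nat_lit 10) nil nil) (node (nat_lit 8) (nat_lit 66799) (nat_lit 9)
  nil nil)) nil) (node (nat_lit 7) (nat_lit 68781) (nat_lit 7) (node (nat_lit 5) (nat_lit 68781)
  (nat_lit 8) nil nil) (node (nat_lit 0) (nat_lit 62899) (nat_lit 7) nil nil)))) (node (nat_lit 0)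
  (nat_lit 64360) (nat_lit 6) nil nil)))) (node (nat_lit 5) (nat_lit 0) (nat_lit 5) (node (nat_lit
  7) (nat_lit 0) (nat_lit 6) (node (nat_lit 4) (nat_lit 66536) (nat_lit 7) (node (nat_lit 5)
  (nat_lit 68049) (nat_lit 8) (node (nat_lit 4) (nat_lit 69393) (nat_lit 9) (node (nat_lit 3)
  (nat_lit 69449) (nat_lit 10) (node (nat_lit 5) (nat_lit 68303) (nat_lit 11) nil nil) (node
  (nat_lit 7) (nat_lit 69449) (nat_lit 10) nil nil)) (node (nat_lit 3) (nat_lit 69290) (nat_lit 9)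
  (node (nat_lit 5) (nat_lit 69449) (nat_lit 10) nil (node (nat_lit 4) (nat_lit 69449) (nat_lit
  10) nil nil)) (node (nat_lit 0) (nat_lit 69449) (nat_lit 9) nil nil))) (node (nat_lit 3)
  (nat_lit 68280) (nat_lit 8) (node (nat_lit 5) (nat_lit 67428) (nat_lit 9) (node (nat_lit 4)
  (nat_lit 65725) (nat_lit 10) nil nil) (node (nat_lit 4) (nat_lit 69449) (nat_lit 9) nil (node
  (nat_lit 7) (nat_lit 69449) (nat_lit 9) nil nil))) (node (nat_lit 7) (nat_lit 69449) (nat_lit 8)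
  (node (nat_lit 5) (nat_lit 69449) (nat_lit 9) nil nil) (node (nat_lit 0) (nat_lit 69449)
  (nat_lit 8) nil nil)))) (node (nat_lit 3) (nat_lit 66494) (nat_lit 7) (node (nat_lit 5) (nat_lit
  68809) (nat_lit 8) (node (nat_lit 4) (nat_lit 69449) (nat_lit 9) (node (nat_lit 10) (nat_lit
  69449) (nat_lit 10) nil (node (nat_lit 5) (nat_lit 69449) (nat_lit 10) nil nil)) (node (nat_lit
  10) (nat_lit 69449) (nat_lit 9) (node (nat_lit 4) (nat_lit 69449) (nat_lit 10) nil nil) nil))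
  (node (nat_lit 4) (nat_lit 65801) (nat_lit 8) nil (node (nat_lit 0) (nat_lit 68023) (nat_lit 8)
  nil nil))) (node (nat_lit 0) (nat_lit 69449) (nat_lit 7) nil nil))) (node (nat_lit 4) (nat_lit
  0) (nat_lit 6) (node (nat_lit 5) (nat_lit 59377) (nat_lit 7) (node (nat_lit 3) (nat_lit 66493)
  (nat_lit 8) (node (nat_lit 4) (nat_lit 69449) (nat_lit 9) (node (nat_lit 11) (nat_lit 69449)
  (nat_lit 10) nil nil) (node (nat_lit 5) (nat_lit 68342) (nat_lit 9) (node (nat_lit 4) (nat_lit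
  66639) (nat_lit 10) nil nil) nil)) (node (nat_lit 7) (nat_lit 69449) (nat_lit 8) nil (node
  (nat_lit 0) (nat_lit 65996) (nat_lit 8) nil nil))) (node (nat_lit 3) (nat_lit 58009) (nat_lit 7)
  (node (nat_lit 5) (nat_lit 62449) (nat_lit 8) (node (nat_lit 10) (nat_lit 60492) (nat_lit 9)
  (node (nat_lit 4) (nat_lit 57657) (nat_lit 10) (node (nat_lit 5) (nat_lit 50654) (nat_lit 11)
  nil nil) nil) (node (nat_lit 4) (nat_lit 64309) (nat_lit 9) nil nil)) (node (nat_lit 4) (nat_lit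
  63594) (nat_lit 8) (node (nat_lit 5) (nat_lit 64894) (nat_lit 9) nil nil) (node (nat_lit 7)
  (nat_lit 68307) (nat_lit 8) nil nil))) (node (nat_lit 0) (nat_lit 67322) (nat_lit 7) nil nil)))
  (node (nat_lit 3) (nat_lit 0) (nat_lit 6) (node (nat_lit 4) (nat_lit 58520) (nat_lit 7) (node
  (nat_lit 5) (nat_lit 66173) (nat_lit 8) (node (nat_lit 4) (nat_lit 65734) (nat_lit 9) nil (node
  (nat_lit 9) (nat_lit 68033) (nat_lit 9) nil nil)) (node (nat_lit 9) (nat_lit 64160) (nat_lit 8)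
  (node (nat_lit 5) (nat_lit 61918) (nat_lit 9) nil nil) (node (nat_lit 7) (nat_lit 68818)
  (nat_lit 8) nil nil))) (node (nat_lit 5) (nat_lit 57628) (nat_lit 7) (node (nat_lit 4) (nat_lit
  64112) (nat_lit 8) (node (nat_lit 9) (nat_lit 65378) (nat_lit 9) (node (nat_lit 4) (nat_lit
  57213) (nat_lit 10) (node (nat_lit 5) (nat_lit 45861) (nat_lit 11) (node (nat_lit 4) (nat_lit
  46526) (nat_lit 12) nil nil) nil) nil) (node (nat_lit 5) (nat_lit 63672) (nat_lit 9) nil nil))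
  nil) (node (nat_lit 7) (nat_lit 68849) (nat_lit 7) (node (nat_lit 9) (nat_lit 68849) (nat_lit 8)
  nil nil) (node (nat_lit 0) (nat_lit 62968) (nat_lit 7) nil nil)))) (node (nat_lit 0) (nat_lit
  64749) (nat_lit 6) nil nil)))) (node (nat_lit 0) (nat_lit 0) (nat_lit 5) (node (nat_lit 7)
  (nat_lit 0) (nat_lit 6) (node (nat_lit 4) (nat_lit 66621) (nat_lit 7) (node (nat_lit 8) (nat_lit
  69449) (nat_lit 8) (node (nat_lit 7) (nat_lit 69449) (nat_lit 9) nil (node (nat_lit 4) (nat_lit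
  69449) (nat_lit 9) nil nil)) (node (nat_lit 7) (nat_lit 69449) (nat_lit 8) nil (node (nat_lit 0)
  (nat_lit 68150) (nat_lit 8) nil (node (nat_lit 3) (nat_lit 66621) (nat_lit 8) nil (node (nat_lit
  5) (nat_lit 66621) (nat_lit 8) nil nil))))) (node (nat_lit 3) (nat_lit 67017) (nat_lit 7) (node
  (nat_lit 8) (nat_lit 69449) (nat_lit 8) nil (node (nat_lit 7) (nat_lit 68546) (nat_lit 8) nil
  (node (nat_lit 4) (nat_lit 67017) (nat_lit 8) nil (node (nat_lit 5) (nat_lit 67017) (nat_lit 8)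
  nil nil)))) (node (nat_lit 5) (nat_lit 66358) (nat_lit 7) (node (nat_lit 8) (nat_lit 69449)
  (nat_lit 8) nil (node (nat_lit 7) (nat_lit 67887) (nat_lit 8) nil (node (nat_lit 4) (nat_lit
  66358) (nat_lit 8) nil (node (nat_lit 3) (nat_lit 66358) (nat_lit 8) nil nil)))) (node (nat_lit
  0) (nat_lit 69449) (nat_lit 7) nil nil)))) (node (nat_lit 4) (nat_lit 0) (nat_lit 6) (node
  (nat_lit 8) (nat_lit 69449) (nat_lit 7) (node (nat_lit 7) (nat_lit 69449) (nat_lit 8) nil (node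
  (nat_lit 0) (nat_lit 69449) (nat_lit 8) nil nil)) (node (nat_lit 3) (nat_lit 62275) (nat_lit 7)
  (node (nat_lit 7) (nat_lit 69343) (nat_lit 8) nil (node (nat_lit 4) (nat_lit 62275) (nat_lit 8)
  nil nil)) (node (nat_lit 5) (nat_lit 63953) (nat_lit 7) (node (nat_lit 7) (nat_lit 69449)
  (nat_lit 8) nil (node (nat_lit 4) (nat_lit 63953) (nat_lit 8) nil nil)) (node (nat_lit 7)
  (nat_lit 69449) (nat_lit 7) nil (node (nat_lit 0) (nat_lit 69449) (nat_lit 7) nil nil))))) (node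
  (nat_lit 5) (nat_lit 0) (nat_lit 6) (node (nat_lit 4) (nat_lit 61004) (nat_lit 7) (node (nat_lit
  5) (nat_lit 61004) (nat_lit 8) nil nil) (node (nat_lit 3) (nat_lit 59066) (nat_lit 7) nil (node
  (nat_lit 8) (nat_lit 64733) (nat_lit 7) nil (node (nat_lit 7) (nat_lit 64733) (nat_lit 7) nil
  (node (nat_lit 0) (nat_lit 64733) (nat_lit 7) nil nil))))) (node (nat_lit 3) (nat_lit 0)
  (nat_lit 6) (node (nat_lit 4) (nat_lit 58959) (nat_lit 7) (node (nat_lit 9) (nat_lit 58959)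
  (nat_lit 8) nil nil) (node (nat_lit 5) (nat_lit 59066) (nat_lit 7) nil (node (nat_lit 8)
  (nat_lit 64733) (nat_lit 7) nil (node (nat_lit 7) (nat_lit 64733) (nat_lit 7) nil (node (nat_lit
  0) (nat_lit 64733) (nat_lit 7) nil nil))))) (node (nat_lit 0) (nat_lit 65698) (nat_lit 6) nil
  nil))))) (node (nat_lit 4) (nat_lit 0) (nat_lit 5) (node (nat_lit 3) (nat_lit 0) (nat_lit 6)
  (node (nat_lit 5) (nat_lit 60418) (nat_lit 7) (node (nat_lit 9) (nat_lit 66871) (nat_lit 8)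
  (node (nat_lit 4) (nat_lit 69449) (nat_lit 9) nil nil) (node (nat_lit 4) (nat_lit 65312)
  (nat_lit 8) (node (nat_lit 7) (nat_lit 69094) (nat_lit 9) nil (node (nat_lit 5) (nat_lit 63630)
  (nat_lit 9) nil (node (nat_lit 9) (nat_lit 61481) (nat_lit 9) nil nil))) nil)) (node (nat_lit 4)
  (nat_lit 59934) (nat_lit 7) (node (nat_lit 5) (nat_lit 65721) (nat_lit 8) (node (nat_lit 4)
  (nat_lit 69371) (nat_lit 9) (node (nat_lit 7) (nat_lit 47250) (nat_lit 10) nil nil) nil) (node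
  (nat_lit 7) (nat_lit 66553) (nat_lit 8) nil nil)) (node (nat_lit 7) (nat_lit 64905) (nat_lit 7)
  nil (node (nat_lit 0) (nat_lit 58484) (nat_lit 7) nil nil)))) (node (nat_lit 5) (nat_lit 0)
  (nat_lit 6) (node (nat_lit 3) (nat_lit 60493) (nat_lit 7) (node (nat_lit 4) (nat_lit 64944)
  (nat_lit 8) (node (nat_lit 5) (nat_lit 66805) (nat_lit 9) nil nil) (node (nat_lit 5) (nat_lit
  68131) (nat_lit 8) (node (nat_lit 4) (nat_lit 65806) (nat_lit 9) nil nil) nil)) (node (nat_lit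
  4) (nat_lit 59838) (nat_lit 7) (node (nat_lit 3) (nat_lit 66415) (nat_lit 8) (node (nat_lit 4)
  (nat_lit 69449) (nat_lit 9) nil nil) nil) (node (nat_lit 7) (nat_lit 68190) (nat_lit 7) nil
  (node (nat_lit 0) (nat_lit 64718) (nat_lit 7) nil nil)))) (node (nat_lit 0) (nat_lit 66236)
  (nat_lit 6) (node (nat_lit 4) (nat_lit 66236) (nat_lit 7) nil (node (nat_lit 7) (nat_lit 67117)
  (nat_lit 7) nil nil)) nil))) nil)))) (node (nat_lit 3) (nat_lit 0) (nat_lit 4) (node (nat_lit 0)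
  (nat_lit 0) (nat_lit 5) (node (nat_lit 7) (nat_lit 0) (nat_lit 6) (node (nat_lit 4) (nat_lit
  58243) (nat_lit 7) (node (nat_lit 8) (nat_lit 69449) (nat_lit 8) (node (nat_lit 7) (nat_lit
  69449) (nat_lit 9) (node (nat_lit 5) (nat_lit 69449) (nat_lit 10) (node (nat_lit 7) (nat_lit
  69449) (nat_lit 11) nil nil) (node (nat_lit 8) (nat_lit 69449) (nat_lit 10) (node (nat_lit 4)
  (nat_lit 69449) (nat_lit 11) nil nil) (node (nat_lit 0) (nat_lit 69449) (nat_lit 10) nil nil)))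
  (node (nat_lit 4) (nat_lit 69449) (nat_lit 9) (node (nat_lit 7) (nat_lit 69449) (nat_lit 10) nil
  nil) (node (nat_lit 5) (nat_lit 69449) (nat_lit 9) nil nil))) (node (nat_lit 7) (nat_lit 63097)
  (nat_lit 8) (node (nat_lit 8) (nat_lit 69449) (nat_lit 9) (node (nat_lit 4) (nat_lit 69449)
  (nat_lit 10) (node (nat_lit 8) (nat_lit 69449) (nat_lit 11) nil nil) nil) (node (nat_lit 5)
  (nat_lit 65688) (nat_lit 9) (node (nat_lit 7) (nat_lit 61787) (nat_lit 10) nil nil) (node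
  (nat_lit 0) (nat_lit 66879) (nat_lit 9) nil nil))) (node (nat_lit 5) (nat_lit 64211) (nat_lit 8)
  (node (nat_lit 4) (nat_lit 68960) (nat_lit 9) (node (nat_lit 7) (nat_lit 69449) (nat_lit 10) nil
  nil) (node (nat_lit 7) (nat_lit 68099) (nat_lit 9) (node (nat_lit 5) (nat_lit 68980) (nat_lit
  10) nil (node (nat_lit 4) (nat_lit 68980) (nat_lit 10) nil nil)) (node (nat_lit 0) (nat_lit
  69449) (nat_lit 9) nil (node (nat_lit 8) (nat_lit 69449) (nat_lit 9) nil nil)))) (node (nat_lit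
  0) (nat_lit 69449) (nat_lit 8) nil nil)))) (node (nat_lit 5) (nat_lit 58714) (nat_lit 7) (node
  (nat_lit 4) (nat_lit 64609) (nat_lit 8) (node (nat_lit 7) (nat_lit 69120) (nat_lit 9) (node
  (nat_lit 4) (nat_lit 69449) (nat_lit 10) nil (node (nat_lit 5) (nat_lit 67418) (nat_lit 10) nil
  nil)) (node (nat_lit 5) (nat_lit 68795) (nat_lit 9) (node (nat_lit 7) (nat_lit 69449) (nat_lit
  10) (node (nat_lit 4) (nat_lit 66717) (nat_lit 11) nil nil) (node (nat_lit 0) (nat_lit 69449)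
  (nat_lit 10) nil nil)) (node (nat_lit 8) (nat_lit 69449) (nat_lit 9) nil (node (nat_lit 0)
  (nat_lit 69449) (nat_lit 9) nil nil)))) (node (nat_lit 7) (nat_lit 63796) (nat_lit 8) (node
  (nat_lit 8) (nat_lit 69449) (nat_lit 9) (node (nat_lit 5) (nat_lit 69449) (nat_lit 10) nil nil)
  (node (nat_lit 4) (nat_lit 67471) (nat_lit 9) nil (node (nat_lit 0) (nat_lit 69449) (nat_lit 9)
  nil nil))) (node (nat_lit 8) (nat_lit 69449) (nat_lit 8) (node (nat_lit 5) (nat_lit 69449)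
  (nat_lit 9) (node (nat_lit 7) (nat_lit 69449) (nat_lit 10) nil nil) (node (nat_lit 7) (nat_lit
  69449) (nat_lit 9) nil (node (nat_lit 4) (nat_lit 69449) (nat_lit 9) nil nil))) (node (nat_lit
  0) (nat_lit 69449) (nat_lit 8) nil nil)))) (node (nat_lit 0) (nat_lit 67821) (nat_lit 7) (node
  (nat_lit 8) (nat_lit 69449) (nat_lit 8) (node (nat_lit 7) (nat_lit 69449) (nat_lit 9) nil nil)
  (node (nat_lit 7) (nat_lit 67428) (nat_lit 8) (node (nat_lit 8) (nat_lit 69449) (nat_lit 9) nil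
  nil) (node (nat_lit 4) (nat_lit 67821) (nat_lit 8) nil (node (nat_lit 5) (nat_lit 67821)
  (nat_lit 8) nil (node (nat_lit 0) (nat_lit 69449) (nat_lit 8) nil nil))))) nil))) (node (nat_lit
  4) (nat_lit 0) (nat_lit 6) (node (nat_lit 8) (nat_lit 68551) (nat_lit 7) (node (nat_lit 7)
  (nat_lit 68824) (nat_lit 8) (node (nat_lit 8) (nat_lit 69449) (nat_lit 9) (node (nat_lit 4)
  (nat_lit 69449) (nat_lit 10) (node (nat_lit 7) (nat_lit 69449) (nat_lit 11) nil nil) nil) (node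
  (nat_lit 4) (nat_lit 68824) (nat_lit 9) nil nil)) nil) (node (nat_lit 7) (nat_lit 58988)
  (nat_lit 7) (node (nat_lit 4) (nat_lit 64677) (nat_lit 8) (node (nat_lit 8) (nat_lit 69449)
  (nat_lit 9) nil (node (nat_lit 5) (nat_lit 67077) (nat_lit 9) nil nil)) (node (nat_lit 5)
  (nat_lit 64041) (nat_lit 8) (node (nat_lit 4) (nat_lit 62360) (nat_lit 9) nil nil) (node
  (nat_lit 0) (nat_lit 69072) (nat_lit 8) nil nil))) (node (nat_lit 5) (nat_lit 59397) (nat_lit 7)
  (node (nat_lit 7) (nat_lit 64466) (nat_lit 8) (node (nat_lit 4) (nat_lit 68667) (nat_lit 9) nil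
  (node (nat_lit 5) (nat_lit 67414) (nat_lit 9) nil nil)) (node (nat_lit 4) (nat_lit 63423)
  (nat_lit 8) (node (nat_lit 7) (nat_lit 65627) (nat_lit 9) nil nil) (node (nat_lit 0) (nat_lit
  69449) (nat_lit 8) nil (node (nat_lit 8) (nat_lit 69449) (nat_lit 8) nil nil)))) (node (nat_lit
  0) (nat_lit 67799) (nat_lit 7) nil nil)))) (node (nat_lit 5) (nat_lit 0) (nat_lit 6) (node
  (nat_lit 4) (nat_lit 57386) (nat_lit 7) (node (nat_lit 7) (nat_lit 61325) (nat_lit 8) (node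
  (nat_lit 5) (nat_lit 64273) (nat_lit 9) (node (nat_lit 7) (nat_lit 65387) (nat_lit 10) (node
  (nat_lit 4) (nat_lit 64090) (nat_lit 11) (node (nat_lit 5) (nat_lit 60273) (nat_lit 12) (node
  (nat_lit 4) (nat_lit 54583) (nat_lit 13) (node (nat_lit 7) (nat_lit 44295) (nat_lit 14) nil nil)
  nil) nil) nil) nil) nil) (node (nat_lit 5) (nat_lit 61739) (nat_lit 8) nil (node (nat_lit 8)
  (nat_lit 67470) (nat_lit 8) nil nil))) (node (nat_lit 7) (nat_lit 57913) (nat_lit 7) (node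
  (nat_lit 5) (nat_lit 62179) (nat_lit 8) (node (nat_lit 8) (nat_lit 69449) (nat_lit 9) nil (node
  (nat_lit 4) (nat_lit 60497) (nat_lit 9) nil nil)) (node (nat_lit 4) (nat_lit 62576) (nat_lit 8)
  (node (nat_lit 5) (nat_lit 64436) (nat_lit 9) nil nil) (node (nat_lit 0) (nat_lit 67997)
  (nat_lit 8) nil nil))) (node (nat_lit 8) (nat_lit 67307) (nat_lit 7) (node (nat_lit 7) (nat_lit
  67307) (nat_lit 8) (node (nat_lit 8) (nat_lit 68348) (nat_lit 9) nil nil) nil) (node (nat_lit 0)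
  (nat_lit 66792) (nat_lit 7) nil nil)))) (node (nat_lit 0) (nat_lit 0) (nat_lit 6) (node (nat_lit
  7) (nat_lit 62599) (nat_lit 7) (node (nat_lit 8) (nat_lit 69449) (nat_lit 8) (node (nat_lit 7)
  (nat_lit 69449) (nat_lit 9) nil nil) (node (nat_lit 9) (nat_lit 67846) (nat_lit 8) nil nil))
  (node (nat_lit 8) (nat_lit 68375) (nat_lit 7) (node (nat_lit 7) (nat_lit 68375) (nat_lit 8)
  (node (nat_lit 8) (nat_lit 69416) (nat_lit 9) nil nil) nil) (node (nat_lit 4) (nat_lit 62982)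
  (nat_lit 7) nil (node (nat_lit 0) (nat_lit 66204) (nat_lit 7) nil (node (nat_lit 5) (nat_lit
  62982) (nat_lit 7) nil nil))))) nil)))) (node (nat_lit 4) (nat_lit 0) (nat_lit 5) (node (nat_lit
  0) (nat_lit 0) (nat_lit 6) (node (nat_lit 7) (nat_lit 0) (nat_lit 7) (node (nat_lit 4) (nat_lit
  40086) (nat_lit 8) (node (nat_lit 7) (nat_lit 41977) (nat_lit 9) (node (nat_lit 9) (nat_lit
  48194) (nat_lit 10) (node (nat_lit 4) (nat_lit 48194) (nat_lit 11) (node (nat_lit 7) (nat_lit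
  48194) (nat_lit 12) (node (nat_lit 4) (nat_lit 48194) (nat_lit 13) nil nil) (node (nat_lit 9)
  (nat_lit 48698) (nat_lit 12) (node (nat_lit 7) (nat_lit 48698) (nat_lit 13) nil nil) (node
  (nat_lit 5) (nat_lit 48194) (nat_lit 12) nil nil))) (node (nat_lit 7) (nat_lit 48194) (nat_lit
  11) (node (nat_lit 4) (nat_lit 48194) (nat_lit 12) (node (nat_lit 9) (nat_lit 48892) (nat_lit
  13) nil (node (nat_lit 5) (nat_lit 48194) (nat_lit 13) nil nil)) (node (nat_lit 5) (nat_lit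
  48194) (nat_lit 12) nil (node (nat_lit 0) (nat_lit 48698) (nat_lit 12) nil nil))) (node (nat_lit
  5) (nat_lit 48194) (nat_lit 11) nil (node (nat_lit 0) (nat_lit 48458) (nat_lit 11) nil nil))))
  (node (nat_lit 5) (nat_lit 43447) (nat_lit 10) (node (nat_lit 4) (nat_lit 45619) (nat_lit 11)
  (node (nat_lit 5) (nat_lit 46878) (nat_lit 12) nil (node (nat_lit 7) (nat_lit 46655) (nat_lit
  12) nil nil)) (node (nat_lit 7) (nat_lit 44739) (nat_lit 11) (node (nat_lit 4) (nat_lit 44532)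
  (nat_lit 12) (node (nat_lit 5) (nat_lit 42918) (nat_lit 13) (node (nat_lit 4) (nat_lit 39007)
  (nat_lit 14) (node (nat_lit 7) (nat_lit 32275) (nat_lit 15) nil nil) nil) nil) nil) (node
  (nat_lit 0) (nat_lit 46173) (nat_lit 11) nil (node (nat_lit 9) (nat_lit 47003) (nat_lit 11) nil
  nil)))) (node (nat_lit 0) (nat_lit 48127) (nat_lit 10) nil nil))) (node (nat_lit 5) (nat_lit
  42427) (nat_lit 9) (node (nat_lit 7) (nat_lit 45177) (nat_lit 10) (node (nat_lit 4) (nat_lit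
  46575) (nat_lit 11) nil (node (nat_lit 5) (nat_lit 46575) (nat_lit 11) nil (node (nat_lit 9)
  (nat_lit 47903) (nat_lit 11) nil nil))) (node (nat_lit 4) (nat_lit 44904) (nat_lit 10) (node
  (nat_lit 7) (nat_lit 45461) (nat_lit 11) nil nil) (node (nat_lit 9) (nat_lit 47948) (nat_lit 10)
  nil (node (nat_lit 0) (nat_lit 47948) (nat_lit 10) nil nil)))) (node (nat_lit 0) (nat_lit 47288)
  (nat_lit 9) (node (nat_lit 4) (nat_lit 47288) (nat_lit 10) nil (node (nat_lit 9) (nat_lit 47588)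
  (nat_lit 10) nil (node (nat_lit 7) (nat_lit 47288) (nat_lit 10) nil nil))) nil))) (node (nat_lit
  9) (nat_lit 45691) (nat_lit 8) (node (nat_lit 4) (nat_lit 45691) (nat_lit 9) (node (nat_lit 7)
  (nat_lit 45691) (nat_lit 10) nil (node (nat_lit 9) (nat_lit 47336) (nat_lit 10) nil nil)) nil)
  (node (nat_lit 5) (nat_lit 39920) (nat_lit 8) (node (nat_lit 9) (nat_lit 43785) (nat_lit 9) nil
  nil) (node (nat_lit 0) (nat_lit 43667) (nat_lit 8) nil nil)))) (node (nat_lit 5) (nat_lit 37307)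
  (nat_lit 7) (node (nat_lit 4) (nat_lit 39759) (nat_lit 8) (node (nat_lit 5) (nat_lit 41798)
  (nat_lit 9) nil (node (nat_lit 7) (nat_lit 41631) (nat_lit 9) nil nil)) (node (nat_lit 7)
  (nat_lit 37307) (nat_lit 8) nil (node (nat_lit 9) (nat_lit 40408) (nat_lit 8) nil nil))) (node
  (nat_lit 4) (nat_lit 0) (nat_lit 7) (node (nat_lit 7) (nat_lit 40308) (nat_lit 8) (node (nat_lit
  9) (nat_lit 47666) (nat_lit 9) (node (nat_lit 7) (nat_lit 47666) (nat_lit 10) (node (nat_lit 4)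
  (nat_lit 47666) (nat_lit 11) (node (nat_lit 9) (nat_lit 48698) (nat_lit 12) nil nil) nil) nil)
  nil) (node (nat_lit 5) (nat_lit 38954) (nat_lit 8) nil (node (nat_lit 0) (nat_lit 42056)
  (nat_lit 8) nil nil))) (node (nat_lit 0) (nat_lit 42747) (nat_lit 7) nil nil)))) nil) (node
  (nat_lit 5) (nat_lit 0) (nat_lit 5) (node (nat_lit 0) (nat_lit 0) (nat_lit 6) (node (nat_lit 7)
  (nat_lit 0) (nat_lit 7) (node (nat_lit 5) (nat_lit 55500) (nat_lit 8) (node (nat_lit 4) (nat_lit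
  61436) (nat_lit 9) (node (nat_lit 7) (nat_lit 66001) (nat_lit 10) (node (nat_lit 9) (nat_lit
  68727) (nat_lit 11) nil nil) (node (nat_lit 5) (nat_lit 65449) (nat_lit 10) (node (nat_lit 7)
  (nat_lit 63469) (nat_lit 11) nil nil) (node (nat_lit 9) (nat_lit 68053) (nat_lit 10) nil (node
  (nat_lit 0) (nat_lit 65601) (nat_lit 10) nil nil)))) (node (nat_lit 7) (nat_lit 60768) (nat_lit
  9) (node (nat_lit 4) (nat_lit 63873) (nat_lit 10) (node (nat_lit 5) (nat_lit 64744) (nat_lit 11)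
  nil (node (nat_lit 9) (nat_lit 66599) (nat_lit 11) nil nil)) (node (nat_lit 9) (nat_lit 69214)
  (nat_lit 10) (node (nat_lit 7) (nat_lit 69214) (nat_lit 11) nil nil) (node (nat_lit 0) (nat_lit
  68849) (nat_lit 10) nil nil))) (node (nat_lit 0) (nat_lit 66572) (nat_lit 9) nil nil))) (node
  (nat_lit 4) (nat_lit 53515) (nat_lit 8) nil (node (nat_lit 9) (nat_lit 57147) (nat_lit 8) nil
  (node (nat_lit 0) (nat_lit 53429) (nat_lit 8) nil nil)))) (node (nat_lit 4) (nat_lit 51768)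
  (nat_lit 7) (node (nat_lit 5) (nat_lit 56532) (nat_lit 8) (node (nat_lit 4) (nat_lit 58646)
  (nat_lit 9) nil (node (nat_lit 7) (nat_lit 58560) (nat_lit 9) nil nil)) (node (nat_lit 7)
  (nat_lit 51768) (nat_lit 8) nil nil)) (node (nat_lit 5) (nat_lit 50629) (nat_lit 7) (node
  (nat_lit 7) (nat_lit 55548) (nat_lit 8) (node (nat_lit 9) (nat_lit 66619) (nat_lit 9) (node
  (nat_lit 7) (nat_lit 66619) (nat_lit 10) (node (nat_lit 5) (nat_lit 66619) (nat_lit 11) nil nil)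
  nil) nil) (node (nat_lit 4) (nat_lit 50629) (nat_lit 8) nil nil)) (node (nat_lit 0) (nat_lit
  55069) (nat_lit 7) nil nil)))) (node (nat_lit 4) (nat_lit 0) (nat_lit 6) (node (nat_lit 5)
  (nat_lit 0) (nat_lit 7) (node (nat_lit 7) (nat_lit 0) (nat_lit 8) (node (nat_lit 5) (nat_lit
  45285) (nat_lit 9) (node (nat_lit 4) (nat_lit 44162) (nat_lit 10) nil nil) (node (nat_lit 0)
  (nat_lit 55665) (nat_lit 9) nil nil)) (node (nat_lit 0) (nat_lit 55704) (nat_lit 8) nil nil))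
  (node (nat_lit 0) (nat_lit 53316) (nat_lit 7) (node (nat_lit 4) (nat_lit 53316) (nat_lit 8) nil
  (node (nat_lit 5) (nat_lit 53316) (nat_lit 8) nil (node (nat_lit 7) (nat_lit 53316) (nat_lit 8)
  nil nil))) nil)) nil)) nil))) nil))

noncomputable def t401 : Tr :=
  (node (nat_lit 3) (nat_lit 0) (nat_lit 4) (node (nat_lit 6) (nat_lit 0) (nat_lit 5) (node
  (nat_lit 5) (nat_lit 0) (nat_lit 6) (node (nat_lit 4) (nat_lit 115944) (nat_lit 7) (node
  (nat_lit 7) (nat_lit 118080) (nat_lit 8) (node (nat_lit 5) (nat_lit 120672) (nat_lit 9) (node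
  (nat_lit 7) (nat_lit 121445) (nat_lit 10) (node (nat_lit 4) (nat_lit 121864) (nat_lit 11) (node
  (nat_lit 5) (nat_lit 118793) (nat_lit 12) nil nil) nil) nil) (node (nat_lit 4) (nat_lit 120672)
  (nat_lit 9) (node (nat_lit 5) (nat_lit 121445) (nat_lit 10) nil nil) nil)) (node (nat_lit 5)
  (nat_lit 117629) (nat_lit 8) (node (nat_lit 7) (nat_lit 120618) (nat_lit 9) nil nil) nil)) (node
  (nat_lit 7) (nat_lit 114770) (nat_lit 7) (node (nat_lit 5) (nat_lit 115498) (nat_lit 8) (node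
  (nat_lit 6) (nat_lit 122258) (nat_lit 9) nil (node (nat_lit 4) (nat_lit 114043) (nat_lit 9) nil
  nil)) (node (nat_lit 4) (nat_lit 114429) (nat_lit 8) (node (nat_lit 5) (nat_lit 117418) (nat_lit
  9) nil (node (nat_lit 7) (nat_lit 114040) (nat_lit 9) nil nil)) nil)) (node (nat_lit 6) (nat_lit
  117634) (nat_lit 7) nil (node (nat_lit 0) (nat_lit 117634) (nat_lit 7) nil nil)))) (node
  (nat_lit 4) (nat_lit 0) (nat_lit 6) (node (nat_lit 5) (nat_lit 116850) (nat_lit 7) (node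
  (nat_lit 7) (nat_lit 118535) (nat_lit 8) (node (nat_lit 4) (nat_lit 120672) (nat_lit 9) nil
  (node (nat_lit 5) (nat_lit 120672) (nat_lit 9) nil nil)) (node (nat_lit 4) (nat_lit 118154)
  (nat_lit 8) (node (nat_lit 7) (nat_lit 120672) (nat_lit 9) nil nil) nil)) (node (nat_lit 7)
  (nat_lit 116970) (nat_lit 7) (node (nat_lit 4) (nat_lit 118655) (nat_lit 8) (node (nat_lit 5)
  (nat_lit 120672) (nat_lit 9) nil nil) (node (nat_lit 5) (nat_lit 118068) (nat_lit 8) (node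
  (nat_lit 4) (nat_lit 117256) (nat_lit 9) nil (node (nat_lit 7) (nat_lit 120672) (nat_lit 9) nil
  nil)) nil)) (node (nat_lit 6) (nat_lit 119329) (nat_lit 7) nil (node (nat_lit 0) (nat_lit
  119329) (nat_lit 7) nil nil)))) (node (nat_lit 0) (nat_lit 118186) (nat_lit 6) nil nil))) (node
  (nat_lit 4) (nat_lit 0) (nat_lit 5) (node (nat_lit 5) (nat_lit 0) (nat_lit 6) (node (nat_lit 4)
  (nat_lit 106378) (nat_lit 7) (node (nat_lit 7) (nat_lit 112230) (nat_lit 8) (node (nat_lit 5)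
  (nat_lit 115391) (nat_lit 9) (node (nat_lit 4) (nat_lit 105934) (nat_lit 10) (node (nat_lit 5)
  (nat_lit 103550) (nat_lit 11) nil nil) (node (nat_lit 7) (nat_lit 116245) (nat_lit 10) nil nil))
  (node (nat_lit 4) (nat_lit 105697) (nat_lit 9) (node (nat_lit 5) (nat_lit 108068) (nat_lit 10)
  nil nil) nil)) (node (nat_lit 6) (nat_lit 117005) (nat_lit 8) nil nil)) (node (nat_lit 7)
  (nat_lit 107614) (nat_lit 7) (node (nat_lit 5) (nat_lit 106969) (nat_lit 8) (node (nat_lit 4)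
  (nat_lit 104384) (nat_lit 9) (node (nat_lit 7) (nat_lit 104153) (nat_lit 10) nil (node (nat_lit
  5) (nat_lit 104016) (nat_lit 10) nil nil)) nil) (node (nat_lit 4) (nat_lit 113737) (nat_lit 8)
  (node (nat_lit 7) (nat_lit 117610) (nat_lit 9) nil nil) nil)) (node (nat_lit 6) (nat_lit 38101)
  (nat_lit 7) nil (node (nat_lit 0) (nat_lit 113123) (nat_lit 7) nil nil)))) (node (nat_lit 7)
  (nat_lit 96216) (nat_lit 6) (node (nat_lit 5) (nat_lit 109151) (nat_lit 7) (node (nat_lit 4)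
  (nat_lit 112406) (nat_lit 8) nil (node (nat_lit 7) (nat_lit 108874) (nat_lit 8) (node (nat_lit
  4) (nat_lit 95749) (nat_lit 9) (node (nat_lit 5) (nat_lit 89149) (nat_lit 10) nil nil) nil)
  nil)) (node (nat_lit 6) (nat_lit 121445) (nat_lit 7) nil nil)) (node (nat_lit 6) (nat_lit
  120531) (nat_lit 6) (node (nat_lit 7) (nat_lit 120531) (nat_lit 7) nil (node (nat_lit 5)
  (nat_lit 120531) (nat_lit 7) nil nil)) (node (nat_lit 0) (nat_lit 112737) (nat_lit 6) nil
  nil)))) (node (nat_lit 5) (nat_lit 0) (nat_lit 5) (node (nat_lit 4) (nat_lit 0) (nat_lit 6)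
  (node (nat_lit 5) (nat_lit 107227) (nat_lit 7) (node (nat_lit 7) (nat_lit 110510) (nat_lit 8)
  (node (nat_lit 4) (nat_lit 108396) (nat_lit 9) (node (nat_lit 7) (nat_lit 107738) (nat_lit 10)
  nil (node (nat_lit 5) (nat_lit 109754) (nat_lit 10) (node (nat_lit 6) (nat_lit 114315) (nat_lit
  11) nil nil) nil)) (node (nat_lit 5) (nat_lit 108194) (nat_lit 9) nil nil)) (node (nat_lit 6)
  (nat_lit 79183) (nat_lit 8) nil nil)) (node (nat_lit 7) (nat_lit 109582) (nat_lit 7) (node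
  (nat_lit 4) (nat_lit 115888) (nat_lit 8) (node (nat_lit 5) (nat_lit 118877) (nat_lit 9) nil nil)
  (node (nat_lit 5) (nat_lit 115076) (nat_lit 8) (node (nat_lit 7) (nat_lit 113311) (nat_lit 9)
  nil nil) nil)) (node (nat_lit 6) (nat_lit 118486) (nat_lit 7) nil (node (nat_lit 0) (nat_lit
  112240) (nat_lit 7) nil nil)))) (node (nat_lit 7) (nat_lit 95444) (nat_lit 6) (node (nat_lit 4)
  (nat_lit 108821) (nat_lit 7) (node (nat_lit 5) (nat_lit 111310) (nat_lit 8) nil (node (nat_lit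
  7) (nat_lit 110604) (nat_lit 8) (node (nat_lit 5) (nat_lit 107743) (nat_lit 9) nil nil) nil))
  (node (nat_lit 6) (nat_lit 117505) (nat_lit 7) nil nil)) (node (nat_lit 6) (nat_lit 118633)
  (nat_lit 6) nil (node (nat_lit 0) (nat_lit 110177) (nat_lit 6) nil nil)))) (node (nat_lit 0)
  (nat_lit 110132) (nat_lit 5) (node (nat_lit 7) (nat_lit 110132) (nat_lit 6) nil (node (nat_lit
  4) (nat_lit 110132) (nat_lit 6) nil (node (nat_lit 5) (nat_lit 110132) (nat_lit 6) nil nil)))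
  nil)))) (node (nat_lit 4) (nat_lit 0) (nat_lit 4) (node (nat_lit 6) (nat_lit 0) (nat_lit 5)
  (node (nat_lit 5) (nat_lit 0) (nat_lit 6) (node (nat_lit 3) (nat_lit 115681) (nat_lit 7) (node
  (nat_lit 4) (nat_lit 117739) (nat_lit 8) (node (nat_lit 5) (nat_lit 118406) (nat_lit 9) nil
  (node (nat_lit 10) (nat_lit 119480) (nat_lit 9) (node (nat_lit 5) (nat_lit 120479) (nat_lit 10)
  nil nil) nil)) (node (nat_lit 5) (nat_lit 116806) (nat_lit 8) (node (nat_lit 4) (nat_lit 119328)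
  (nat_lit 9) nil nil) nil)) (node (nat_lit 4) (nat_lit 112550) (nat_lit 7) (node (nat_lit 5)
  (nat_lit 116369) (nat_lit 8) (node (nat_lit 3) (nat_lit 117800) (nat_lit 9) nil nil) (node
  (nat_lit 3) (nat_lit 116839) (nat_lit 8) (node (nat_lit 5) (nat_lit 116696) (nat_lit 9) nil
  (node (nat_lit 4) (nat_lit 118565) (nat_lit 9) nil nil)) nil)) (node (nat_lit 6) (nat_lit
  113297) (nat_lit 7) nil (node (nat_lit 0) (nat_lit 113421) (nat_lit 7) nil nil)))) (node
  (nat_lit 3) (nat_lit 0) (nat_lit 6) (node (nat_lit 5) (nat_lit 116243) (nat_lit 7) (node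
  (nat_lit 4) (nat_lit 115350) (nat_lit 8) (node (nat_lit 9) (nat_lit 117873) (nat_lit 9) nil
  (node (nat_lit 5) (nat_lit 119193) (nat_lit 9) (node (nat_lit 9) (nat_lit 118488) (nat_lit 10)
  nil nil) nil)) (node (nat_lit 9) (nat_lit 117755) (nat_lit 8) (node (nat_lit 4) (nat_lit 119480)
  (nat_lit 9) nil nil) nil)) (node (nat_lit 4) (nat_lit 116286) (nat_lit 7) (node (nat_lit 9)
  (nat_lit 117755) (nat_lit 8) (node (nat_lit 5) (nat_lit 117612) (nat_lit 9) nil nil) (node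
  (nat_lit 5) (nat_lit 116746) (nat_lit 8) (node (nat_lit 9) (nat_lit 115093) (nat_lit 9) nil
  (node (nat_lit 4) (nat_lit 116626) (nat_lit 9) nil nil)) nil)) (node (nat_lit 6) (nat_lit
  119032) (nat_lit 7) nil (node (nat_lit 0) (nat_lit 119032) (nat_lit 7) nil nil)))) (node
  (nat_lit 0) (nat_lit 114330) (nat_lit 6) nil nil))) (node (nat_lit 3) (nat_lit 0) (nat_lit 5)
  (node (nat_lit 5) (nat_lit 0) (nat_lit 6) (node (nat_lit 8) (nat_lit 111774) (nat_lit 7) (node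
  (nat_lit 4) (nat_lit 115610) (nat_lit 8) (node (nat_lit 5) (nat_lit 117158) (nat_lit 9) (node
  (nat_lit 6) (nat_lit 89300) (nat_lit 10) (node (nat_lit 4) (nat_lit 89300) (nat_lit 11) nil nil)
  nil) (node (nat_lit 8) (nat_lit 113780) (nat_lit 9) nil nil)) (node (nat_lit 6) (nat_lit 121249)
  (nat_lit 8) nil nil)) (node (nat_lit 4) (nat_lit 111823) (nat_lit 7) (node (nat_lit 5) (nat_lit
  117288) (nat_lit 8) (node (nat_lit 8) (nat_lit 119261) (nat_lit 9) (node (nat_lit 4) (nat_lit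
  118849) (nat_lit 10) (node (nat_lit 5) (nat_lit 113040) (nat_lit 11) nil nil) nil) nil) (node
  (nat_lit 8) (nat_lit 109588) (nat_lit 8) (node (nat_lit 4) (nat_lit 104627) (nat_lit 9) (node
  (nat_lit 5) (nat_lit 99867) (nat_lit 10) nil nil) nil) nil)) (node (nat_lit 6) (nat_lit 121191)
  (nat_lit 7) nil (node (nat_lit 0) (nat_lit 114078) (nat_lit 7) nil nil)))) (node (nat_lit 4)
  (nat_lit 98686) (nat_lit 6) (node (nat_lit 5) (nat_lit 110079) (nat_lit 7) (node (nat_lit 8)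
  (nat_lit 115614) (nat_lit 8) nil (node (nat_lit 4) (nat_lit 111397) (nat_lit 8) (node (nat_lit
  8) (nat_lit 103355) (nat_lit 9) nil nil) (node (nat_lit 6) (nat_lit 81747) (nat_lit 8) nil
  nil))) (node (nat_lit 6) (nat_lit 121089) (nat_lit 7) nil nil)) (node (nat_lit 6) (nat_lit
  120669) (nat_lit 6) (node (nat_lit 4) (nat_lit 120669) (nat_lit 7) nil (node (nat_lit 5)
  (nat_lit 120669) (nat_lit 7) nil nil)) (node (nat_lit 0) (nat_lit 113262) (nat_lit 6) nil
  nil)))) (node (nat_lit 5) (nat_lit 0) (nat_lit 5) (node (nat_lit 3) (nat_lit 0) (nat_lit 6)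
  (node (nat_lit 5) (nat_lit 109440) (nat_lit 7) (node (nat_lit 4) (nat_lit 116376) (nat_lit 8)
  (node (nat_lit 9) (nat_lit 118757) (nat_lit 9) (node (nat_lit 4) (nat_lit 114437) (nat_lit 10)
  (node (nat_lit 5) (nat_lit 110528) (nat_lit 11) nil nil) (node (nat_lit 5) (nat_lit 118353)
  (nat_lit 10) nil nil)) (node (nat_lit 5) (nat_lit 118513) (nat_lit 9) nil nil)) (node (nat_lit
  6) (nat_lit 120682) (nat_lit 8) nil nil)) (node (nat_lit 4) (nat_lit 108798) (nat_lit 7) (node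
  (nat_lit 9) (nat_lit 117032) (nat_lit 8) (node (nat_lit 5) (nat_lit 116700) (nat_lit 9) (node
  (nat_lit 4) (nat_lit 111587) (nat_lit 10) nil nil) nil) (node (nat_lit 5) (nat_lit 116629)
  (nat_lit 8) (node (nat_lit 4) (nat_lit 118474) (nat_lit 9) nil nil) nil)) (node (nat_lit 6)
  (nat_lit 116706) (nat_lit 7) nil (node (nat_lit 0) (nat_lit 112041) (nat_lit 7) nil nil))))
  (node (nat_lit 4) (nat_lit 90143) (nat_lit 6) (node (nat_lit 3) (nat_lit 104683) (nat_lit 7)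
  (node (nat_lit 5) (nat_lit 109366) (nat_lit 8) (node (nat_lit 4) (nat_lit 102496) (nat_lit 9)
  (node (nat_lit 5) (nat_lit 102230) (nat_lit 10) nil nil) nil) (node (nat_lit 4) (nat_lit 111993)
  (nat_lit 8) (node (nat_lit 5) (nat_lit 115160) (nat_lit 9) nil nil) nil)) (node (nat_lit 6)
  (nat_lit 113839) (nat_lit 7) nil nil)) (node (nat_lit 0) (nat_lit 106590) (nat_lit 6) nil nil)))
  (node (nat_lit 0) (nat_lit 111453) (nat_lit 5) (node (nat_lit 4) (nat_lit 111453) (nat_lit 6)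
  nil (node (nat_lit 5) (nat_lit 111453) (nat_lit 6) nil (node (nat_lit 3) (nat_lit 111453)
  (nat_lit 6) nil nil))) nil)))) (node (nat_lit 5) (nat_lit 0) (nat_lit 4) (node (nat_lit 4)
  (nat_lit 0) (nat_lit 5) (node (nat_lit 3) (nat_lit 0) (nat_lit 6) (node (nat_lit 4) (nat_lit
  107784) (nat_lit 7) (node (nat_lit 5) (nat_lit 113240) (nat_lit 8) (node (nat_lit 9) (nat_lit
  112154) (nat_lit 9) (node (nat_lit 5) (nat_lit 111779) (nat_lit 10) nil nil) (node (nat_lit 6)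
  (nat_lit 80473) (nat_lit 9) (node (nat_lit 5) (nat_lit 80473) (nat_lit 10) (node (nat_lit 4)
  (nat_lit 35068) (nat_lit 11) nil nil) nil) (node (nat_lit 4) (nat_lit 112606) (nat_lit 9) nil
  nil))) nil) (node (nat_lit 5) (nat_lit 108498) (nat_lit 7) (node (nat_lit 9) (nat_lit 113596)
  (nat_lit 8) (node (nat_lit 4) (nat_lit 113339) (nat_lit 9) (node (nat_lit 5) (nat_lit 104975)
  (nat_lit 10) nil nil) nil) (node (nat_lit 4) (nat_lit 114106) (nat_lit 8) (node (nat_lit 5)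
  (nat_lit 113472) (nat_lit 9) (node (nat_lit 6) (nat_lit 106303) (nat_lit 10) nil nil) nil) nil))
  (node (nat_lit 6) (nat_lit 112305) (nat_lit 7) nil (node (nat_lit 0) (nat_lit 112305) (nat_lit
  7) nil nil)))) (node (nat_lit 6) (nat_lit 113154) (nat_lit 6) (node (nat_lit 3) (nat_lit 114692)
  (nat_lit 7) (node (nat_lit 4) (nat_lit 114692) (nat_lit 8) (node (nat_lit 5) (nat_lit 114692)
  (nat_lit 9) (node (nat_lit 6) (nat_lit 117833) (nat_lit 10) (node (nat_lit 5) (nat_lit 117833)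
  (nat_lit 11) (node (nat_lit 4) (nat_lit 117833) (nat_lit 12) (node (nat_lit 6) (nat_lit 35100)
  (nat_lit 13) nil nil) nil) nil) nil) nil) nil) (node (nat_lit 5) (nat_lit 115472) (nat_lit 7)
  (node (nat_lit 6) (nat_lit 117813) (nat_lit 8) nil (node (nat_lit 3) (nat_lit 117009) (nat_lit
  8) nil nil)) (node (nat_lit 4) (nat_lit 113154) (nat_lit 7) nil nil))) (node (nat_lit 5)
  (nat_lit 89489) (nat_lit 6) (node (nat_lit 3) (nat_lit 108834) (nat_lit 7) (node (nat_lit 4)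
  (nat_lit 112629) (nat_lit 8) nil (node (nat_lit 5) (nat_lit 114013) (nat_lit 8) (node (nat_lit
  4) (nat_lit 111605) (nat_lit 9) (node (nat_lit 10) (nat_lit 112618) (nat_lit 10) nil nil) nil)
  nil)) (node (nat_lit 6) (nat_lit 77982) (nat_lit 7) nil nil)) (node (nat_lit 0) (nat_lit 106414)
  (nat_lit 6) nil nil)))) (node (nat_lit 3) (nat_lit 0) (nat_lit 5) (node (nat_lit 4) (nat_lit 0)
  (nat_lit 6) (node (nat_lit 8) (nat_lit 107721) (nat_lit 7) (node (nat_lit 5) (nat_lit 107771)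
  (nat_lit 8) (node (nat_lit 4) (nat_lit 110532) (nat_lit 9) (node (nat_lit 5) (nat_lit 100540)
  (nat_lit 10) (node (nat_lit 6) (nat_lit 103612) (nat_lit 11) nil nil) (node (nat_lit 8) (nat_lit
  111991) (nat_lit 10) nil nil)) (node (nat_lit 8) (nat_lit 106110) (nat_lit 9) (node (nat_lit 4)
  (nat_lit 105426) (nat_lit 10) (node (nat_lit 5) (nat_lit 99279) (nat_lit 11) nil nil) nil) nil))
  nil) (node (nat_lit 5) (nat_lit 109897) (nat_lit 7) (node (nat_lit 4) (nat_lit 117195) (nat_lit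
  8) (node (nat_lit 8) (nat_lit 119991) (nat_lit 9) (node (nat_lit 5) (nat_lit 118957) (nat_lit
  10) (node (nat_lit 4) (nat_lit 118501) (nat_lit 11) nil nil) nil) nil) (node (nat_lit 8)
  (nat_lit 114606) (nat_lit 8) (node (nat_lit 5) (nat_lit 110887) (nat_lit 9) (node (nat_lit 4)
  (nat_lit 107072) (nat_lit 10) nil nil) nil) (node (nat_lit 6) (nat_lit 78696) (nat_lit 8) (node
  (nat_lit 5) (nat_lit 37664) (nat_lit 9) nil nil) nil))) (node (nat_lit 6) (nat_lit 117035)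
  (nat_lit 7) nil (node (nat_lit 0) (nat_lit 111266) (nat_lit 7) nil nil)))) (node (nat_lit 5)
  (nat_lit 95466) (nat_lit 6) (node (nat_lit 4) (nat_lit 108803) (nat_lit 7) (node (nat_lit 8)
  (nat_lit 110365) (nat_lit 8) (node (nat_lit 4) (nat_lit 99782) (nat_lit 9) (node (nat_lit 5)
  (nat_lit 95920) (nat_lit 10) nil nil) nil) (node (nat_lit 5) (nat_lit 110385) (nat_lit 8) (node
  (nat_lit 8) (nat_lit 109442) (nat_lit 9) (node (nat_lit 4) (nat_lit 107958) (nat_lit 10) nil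
  nil) nil) nil)) (node (nat_lit 6) (nat_lit 111106) (nat_lit 7) nil nil)) (node (nat_lit 6)
  (nat_lit 116395) (nat_lit 6) nil (node (nat_lit 0) (nat_lit 110541) (nat_lit 6) nil nil))))
  (node (nat_lit 0) (nat_lit 90115) (nat_lit 5) nil nil))) (node (nat_lit 0) (nat_lit 0) (nat_lit
  4) (node (nat_lit 5) (nat_lit 0) (nat_lit 5) (node (nat_lit 3) (nat_lit 104420) (nat_lit 6)
  (node (nat_lit 4) (nat_lit 103463) (nat_lit 7) (node (nat_lit 5) (nat_lit 107372) (nat_lit 8)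
  nil (node (nat_lit 9) (nat_lit 103300) (nat_lit 8) nil nil)) (node (nat_lit 5) (nat_lit 109307)
  (nat_lit 7) (node (nat_lit 4) (nat_lit 108394) (nat_lit 8) nil nil) nil)) (node (nat_lit 4)
  (nat_lit 104743) (nat_lit 6) (node (nat_lit 3) (nat_lit 110532) (nat_lit 7) (node (nat_lit 5)
  (nat_lit 114598) (nat_lit 8) nil (node (nat_lit 4) (nat_lit 115152) (nat_lit 8) nil nil)) (node
  (nat_lit 5) (nat_lit 109341) (nat_lit 7) (node (nat_lit 3) (nat_lit 109178) (nat_lit 8) nil nil)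
  nil)) (node (nat_lit 0) (nat_lit 105398) (nat_lit 6) nil (node (nat_lit 6) (nat_lit 110577)
  (nat_lit 6) nil (node (nat_lit 7) (nat_lit 105398) (nat_lit 6) nil nil))))) (node (nat_lit 3)
  (nat_lit 0) (nat_lit 5) (node (nat_lit 5) (nat_lit 104080) (nat_lit 6) (node (nat_lit 4)
  (nat_lit 105453) (nat_lit 7) (node (nat_lit 8) (nat_lit 109214) (nat_lit 8) nil (node (nat_lit
  5) (nat_lit 104540) (nat_lit 8) nil nil)) (node (nat_lit 8) (nat_lit 110033) (nat_lit 7) (node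
  (nat_lit 4) (nat_lit 114653) (nat_lit 8) nil nil) nil)) (node (nat_lit 4) (nat_lit 104663)
  (nat_lit 6) (node (nat_lit 5) (nat_lit 104857) (nat_lit 7) (node (nat_lit 8) (nat_lit 110392)
  (nat_lit 8) nil (node (nat_lit 4) (nat_lit 103944) (nat_lit 8) nil nil)) (node (nat_lit 8)
  (nat_lit 107655) (nat_lit 7) (node (nat_lit 5) (nat_lit 106742) (nat_lit 8) nil nil) nil)) (node
  (nat_lit 0) (nat_lit 105044) (nat_lit 6) nil (node (nat_lit 6) (nat_lit 112964) (nat_lit 6) nil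
  (node (nat_lit 7) (nat_lit 105044) (nat_lit 6) nil nil))))) (node (nat_lit 4) (nat_lit 0)
  (nat_lit 5) (node (nat_lit 5) (nat_lit 104640) (nat_lit 6) (node (nat_lit 3) (nat_lit 109674)
  (nat_lit 7) (node (nat_lit 4) (nat_lit 115979) (nat_lit 8) nil (node (nat_lit 5) (nat_lit
  114294) (nat_lit 8) nil nil)) (node (nat_lit 4) (nat_lit 107727) (nat_lit 7) (node (nat_lit 3)
  (nat_lit 107565) (nat_lit 8) nil nil) nil)) (node (nat_lit 3) (nat_lit 105386) (nat_lit 6) (node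
  (nat_lit 5) (nat_lit 109904) (nat_lit 7) (node (nat_lit 4) (nat_lit 112407) (nat_lit 8) nil
  (node (nat_lit 9) (nat_lit 114524) (nat_lit 8) nil nil)) (node (nat_lit 4) (nat_lit 109560)
  (nat_lit 7) (node (nat_lit 5) (nat_lit 114179) (nat_lit 8) nil nil) nil)) (node (nat_lit 0)
  (nat_lit 105533) (nat_lit 6) nil (node (nat_lit 6) (nat_lit 113454) (nat_lit 6) nil (node
  (nat_lit 7) (nat_lit 105533) (nat_lit 6) nil nil))))) (node (nat_lit 6) (nat_lit 0) (nat_lit 5)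
  (node (nat_lit 0) (nat_lit 118546) (nat_lit 6) nil (node (nat_lit 3) (nat_lit 111749) (nat_lit
  6) nil (node (nat_lit 4) (nat_lit 111749) (nat_lit 6) nil (node (nat_lit 5) (nat_lit 111749)
  (nat_lit 6) nil nil)))) (node (nat_lit 0) (nat_lit 0) (nat_lit 5) (node (nat_lit 6) (nat_lit
  118546) (nat_lit 6) nil (node (nat_lit 7) (nat_lit 117305) (nat_lit 6) nil (node (nat_lit 0)
  (nat_lit 114739) (nat_lit 6) nil (node (nat_lit 5) (nat_lit 111749) (nat_lit 6) nil (node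
  (nat_lit 4) (nat_lit 111749) (nat_lit 6) nil (node (nat_lit 3) (nat_lit 111749) (nat_lit 6) nil
  nil)))))) nil))))) nil))))

noncomputable def t402 : Tr :=
  (node (nat_lit 3) (nat_lit 0) (nat_lit 3) (node (nat_lit 0) (nat_lit 0) (nat_lit 4) (node
  (nat_lit 4) (nat_lit 0) (nat_lit 5) (node (nat_lit 7) (nat_lit 0) (nat_lit 6) (node (nat_lit 6)
  (nat_lit 105392) (nat_lit 7) (node (nat_lit 4) (nat_lit 107858) (nat_lit 8) (node (nat_lit 5)
  (nat_lit 110366) (nat_lit 9) (node (nat_lit 4) (nat_lit 112712) (nat_lit 10) (node (nat_lit 6)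
  (nat_lit 112062) (nat_lit 11) (node (nat_lit 4) (nat_lit 111524) (nat_lit 12) (node (nat_lit 5)
  (nat_lit 110908) (nat_lit 13) (node (nat_lit 6) (nat_lit 108676) (nat_lit 14) nil nil) nil) nil)
  nil) (node (nat_lit 6) (nat_lit 112803) (nat_lit 10) (node (nat_lit 5) (nat_lit 113511) (nat_lit
  11) (node (nat_lit 4) (nat_lit 110480) (nat_lit 12) (node (nat_lit 5) (nat_lit 109429) (nat_lit
  13) nil nil) nil) (node (nat_lit 4) (nat_lit 113791) (nat_lit 11) nil nil)) nil)) (node (nat_lit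
  6) (nat_lit 110190) (nat_lit 9) (node (nat_lit 5) (nat_lit 112766) (nat_lit 10) (node (nat_lit
  4) (nat_lit 113791) (nat_lit 11) (node (nat_lit 6) (nat_lit 113956) (nat_lit 12) (node (nat_lit
  4) (nat_lit 113956) (nat_lit 13) (node (nat_lit 5) (nat_lit 113956) (nat_lit 14) nil nil) nil)
  nil) (node (nat_lit 6) (nat_lit 113033) (nat_lit 11) (node (nat_lit 4) (nat_lit 112330) (nat_lit
  12) (node (nat_lit 5) (nat_lit 110886) (nat_lit 13) (node (nat_lit 6) (nat_lit 107632) (nat_lit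
  14) nil nil) nil) nil) nil)) (node (nat_lit 7) (nat_lit 113956) (nat_lit 10) nil (node (nat_lit
  0) (nat_lit 113956) (nat_lit 10) nil nil))) (node (nat_lit 0) (nat_lit 113956) (nat_lit 9) nil
  nil))) (node (nat_lit 5) (nat_lit 107845) (nat_lit 8) (node (nat_lit 4) (nat_lit 109734)
  (nat_lit 9) (node (nat_lit 6) (nat_lit 111419) (nat_lit 10) nil nil) (node (nat_lit 6) (nat_lit
  109734) (nat_lit 9) nil (node (nat_lit 7) (nat_lit 111524) (nat_lit 9) nil (node (nat_lit 0)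
  (nat_lit 111524) (nat_lit 9) nil nil)))) (node (nat_lit 7) (nat_lit 113303) (nat_lit 8) (node
  (nat_lit 5) (nat_lit 113303) (nat_lit 9) nil (node (nat_lit 4) (nat_lit 113303) (nat_lit 9) nil
  nil)) (node (nat_lit 0) (nat_lit 113303) (nat_lit 8) nil nil)))) (node (nat_lit 5) (nat_lit
  105381) (nat_lit 7) (node (nat_lit 4) (nat_lit 107999) (nat_lit 8) (node (nat_lit 6) (nat_lit
  110366) (nat_lit 9) (node (nat_lit 5) (nat_lit 112766) (nat_lit 10) nil (node (nat_lit 4)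
  (nat_lit 112803) (nat_lit 10) nil nil)) (node (nat_lit 5) (nat_lit 110366) (nat_lit 9) (node
  (nat_lit 6) (nat_lit 112051) (nat_lit 10) (node (nat_lit 4) (nat_lit 113292) (nat_lit 11) nil
  nil) (node (nat_lit 7) (nat_lit 113956) (nat_lit 10) nil (node (nat_lit 0) (nat_lit 113956)
  (nat_lit 10) nil nil))) (node (nat_lit 0) (nat_lit 111678) (nat_lit 9) nil nil))) (node (nat_lit
  6) (nat_lit 105656) (nat_lit 8) nil (node (nat_lit 7) (nat_lit 108308) (nat_lit 8) nil (node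
  (nat_lit 0) (nat_lit 108308) (nat_lit 8) nil nil)))) (node (nat_lit 0) (nat_lit 110335) (nat_lit
  7) nil nil))) (node (nat_lit 6) (nat_lit 0) (nat_lit 6) (node (nat_lit 4) (nat_lit 93481)
  (nat_lit 7) (node (nat_lit 5) (nat_lit 103236) (nat_lit 8) (node (nat_lit 6) (nat_lit 108720)
  (nat_lit 9) (node (nat_lit 5) (nat_lit 109313) (nat_lit 10) (node (nat_lit 4) (nat_lit 106954)
  (nat_lit 11) (node (nat_lit 5) (nat_lit 98282) (nat_lit 12) (node (nat_lit 6) (nat_lit 99092)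
  (nat_lit 13) nil nil) nil) nil) (node (nat_lit 7) (nat_lit 72024) (nat_lit 10) (node (nat_lit 4)
  (nat_lit 38597) (nat_lit 11) nil nil) nil)) (node (nat_lit 4) (nat_lit 108850) (nat_lit 9) (node
  (nat_lit 6) (nat_lit 104657) (nat_lit 10) nil nil) nil)) (node (nat_lit 7) (nat_lit 113000)
  (nat_lit 8) nil (node (nat_lit 0) (nat_lit 105449) (nat_lit 8) nil nil))) (node (nat_lit 5)
  (nat_lit 94741) (nat_lit 7) (node (nat_lit 4) (nat_lit 103362) (nat_lit 8) (node (nat_lit 6)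
  (nat_lit 105431) (nat_lit 9) (node (nat_lit 4) (nat_lit 97347) (nat_lit 10) (node (nat_lit 5)
  (nat_lit 91397) (nat_lit 11) (node (nat_lit 6) (nat_lit 87993) (nat_lit 12) nil nil) nil) nil)
  (node (nat_lit 5) (nat_lit 108098) (nat_lit 9) nil nil)) (node (nat_lit 6) (nat_lit 103376)
  (nat_lit 8) (node (nat_lit 4) (nat_lit 106818) (nat_lit 9) nil (node (nat_lit 7) (nat_lit
  110550) (nat_lit 9) nil nil)) (node (nat_lit 7) (nat_lit 106709) (nat_lit 8) nil (node (nat_lit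
  0) (nat_lit 106709) (nat_lit 8) nil nil)))) (node (nat_lit 7) (nat_lit 110983) (nat_lit 7) (node
  (nat_lit 6) (nat_lit 110553) (nat_lit 8) (node (nat_lit 4) (nat_lit 109810) (nat_lit 9) (node
  (nat_lit 6) (nat_lit 110203) (nat_lit 10) (node (nat_lit 5) (nat_lit 109559) (nat_lit 11) nil
  nil) nil) nil) (node (nat_lit 5) (nat_lit 110983) (nat_lit 8) nil nil)) (node (nat_lit 0)
  (nat_lit 108852) (nat_lit 7) nil nil)))) (node (nat_lit 5) (nat_lit 0) (nat_lit 6) (node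
  (nat_lit 6) (nat_lit 93263) (nat_lit 7) (node (nat_lit 4) (nat_lit 102040) (nat_lit 8) (node
  (nat_lit 5) (nat_lit 105622) (nat_lit 9) nil (node (nat_lit 6) (nat_lit 105343) (nat_lit 9)
  (node (nat_lit 5) (nat_lit 98950) (nat_lit 10) nil nil) nil)) (node (nat_lit 5) (nat_lit 102695)
  (nat_lit 8) (node (nat_lit 4) (nat_lit 106881) (nat_lit 9) nil nil) nil)) (node (nat_lit 4)
  (nat_lit 0) (nat_lit 7) (node (nat_lit 6) (nat_lit 101518) (nat_lit 8) (node (nat_lit 5)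
  (nat_lit 103729) (nat_lit 9) (node (nat_lit 6) (nat_lit 104120) (nat_lit 10) (node (nat_lit 4)
  (nat_lit 103729) (nat_lit 11) (node (nat_lit 5) (nat_lit 100262) (nat_lit 12) nil nil) nil) nil)
  (node (nat_lit 4) (nat_lit 105660) (nat_lit 9) nil nil)) (node (nat_lit 7) (nat_lit 105207)
  (nat_lit 8) nil (node (nat_lit 0) (nat_lit 105207) (nat_lit 8) nil nil))) (node (nat_lit 7)
  (nat_lit 110365) (nat_lit 7) (node (nat_lit 5) (nat_lit 110365) (nat_lit 8) nil nil) (node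
  (nat_lit 0) (nat_lit 103687) (nat_lit 7) nil nil)))) (node (nat_lit 0) (nat_lit 104052) (nat_lit
  6) nil nil)))) (node (nat_lit 5) (nat_lit 0) (nat_lit 5) (node (nat_lit 7) (nat_lit 0) (nat_lit
  6) (node (nat_lit 6) (nat_lit 106056) (nat_lit 7) (node (nat_lit 5) (nat_lit 107648) (nat_lit 8)
  (node (nat_lit 6) (nat_lit 110173) (nat_lit 9) (node (nat_lit 4) (nat_lit 112218) (nat_lit 10)
  (node (nat_lit 5) (nat_lit 113398) (nat_lit 11) nil (node (nat_lit 6) (nat_lit 111595) (nat_lit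
  11) nil nil)) (node (nat_lit 7) (nat_lit 113956) (nat_lit 10) nil (node (nat_lit 0) (nat_lit
  113956) (nat_lit 10) nil nil))) (node (nat_lit 4) (nat_lit 109631) (nat_lit 9) (node (nat_lit 5)
  (nat_lit 110743) (nat_lit 10) (node (nat_lit 6) (nat_lit 110182) (nat_lit 11) nil nil) (node
  (nat_lit 6) (nat_lit 111709) (nat_lit 10) (node (nat_lit 4) (nat_lit 112951) (nat_lit 11) nil
  nil) nil)) (node (nat_lit 0) (nat_lit 111327) (nat_lit 9) nil nil))) (node (nat_lit 4) (nat_lit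
  108832) (nat_lit 8) (node (nat_lit 5) (nat_lit 108547) (nat_lit 9) (node (nat_lit 6) (nat_lit
  107835) (nat_lit 10) nil nil) (node (nat_lit 6) (nat_lit 110238) (nat_lit 9) nil (node (nat_lit
  7) (nat_lit 112511) (nat_lit 9) nil (node (nat_lit 0) (nat_lit 112511) (nat_lit 9) nil nil))))
  (node (nat_lit 7) (nat_lit 113250) (nat_lit 8) (node (nat_lit 5) (nat_lit 113250) (nat_lit 9)
  nil (node (nat_lit 4) (nat_lit 113250) (nat_lit 9) nil nil)) (node (nat_lit 0) (nat_lit 113250)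
  (nat_lit 8) nil nil)))) (node (nat_lit 4) (nat_lit 106373) (nat_lit 7) (node (nat_lit 5)
  (nat_lit 108003) (nat_lit 8) (node (nat_lit 6) (nat_lit 110366) (nat_lit 9) (node (nat_lit 4)
  (nat_lit 111779) (nat_lit 10) nil (node (nat_lit 5) (nat_lit 112051) (nat_lit 10) nil nil))
  (node (nat_lit 4) (nat_lit 109337) (nat_lit 9) (node (nat_lit 6) (nat_lit 110788) (nat_lit 10)
  (node (nat_lit 5) (nat_lit 109356) (nat_lit 11) nil nil) (node (nat_lit 7) (nat_lit 113369)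
  (nat_lit 10) nil (node (nat_lit 0) (nat_lit 113369) (nat_lit 10) nil nil))) (node (nat_lit 0)
  (nat_lit 111682) (nat_lit 9) nil nil))) (node (nat_lit 6) (nat_lit 107750) (nat_lit 8) nil (node
  (nat_lit 7) (nat_lit 109300) (nat_lit 8) nil (node (nat_lit 0) (nat_lit 109300) (nat_lit 8) nil
  nil)))) (node (nat_lit 0) (nat_lit 110558) (nat_lit 7) nil nil))) (node (nat_lit 6) (nat_lit 0)
  (nat_lit 6) (node (nat_lit 5) (nat_lit 94065) (nat_lit 7) (node (nat_lit 4) (nat_lit 104617)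
  (nat_lit 8) (node (nat_lit 6) (nat_lit 108653) (nat_lit 9) (node (nat_lit 4) (nat_lit 108213)
  (nat_lit 10) (node (nat_lit 5) (nat_lit 104649) (nat_lit 11) (node (nat_lit 6) (nat_lit 89750)
  (nat_lit 12) nil nil) nil) nil) (node (nat_lit 5) (nat_lit 108770) (nat_lit 9) (node (nat_lit 6)
  (nat_lit 108059) (nat_lit 10) nil nil) nil)) (node (nat_lit 7) (nat_lit 112646) (nat_lit 8) nil
  (node (nat_lit 0) (nat_lit 106033) (nat_lit 8) nil nil))) (node (nat_lit 4) (nat_lit 93264)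
  (nat_lit 7) (node (nat_lit 5) (nat_lit 101937) (nat_lit 8) (node (nat_lit 4) (nat_lit 101674)
  (nat_lit 9) nil (node (nat_lit 6) (nat_lit 103295) (nat_lit 9) (node (nat_lit 7) (nat_lit 74926)
  (nat_lit 10) nil nil) nil)) (node (nat_lit 6) (nat_lit 102357) (nat_lit 8) (node (nat_lit 5)
  (nat_lit 102609) (nat_lit 9) (node (nat_lit 6) (nat_lit 103042) (nat_lit 10) nil nil) (node
  (nat_lit 7) (nat_lit 109530) (nat_lit 9) nil nil)) (node (nat_lit 7) (nat_lit 105232) (nat_lit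
  8) nil (node (nat_lit 0) (nat_lit 105232) (nat_lit 8) nil nil)))) (node (nat_lit 0) (nat_lit
  108473) (nat_lit 7) nil nil))) (node (nat_lit 4) (nat_lit 0) (nat_lit 6) (node (nat_lit 6)
  (nat_lit 92167) (nat_lit 7) (node (nat_lit 5) (nat_lit 101013) (nat_lit 8) (node (nat_lit 6)
  (nat_lit 99194) (nat_lit 9) (node (nat_lit 4) (nat_lit 92700) (nat_lit 10) (node (nat_lit 5)
  (nat_lit 87302) (nat_lit 11) nil nil) nil) (node (nat_lit 4) (nat_lit 105749) (nat_lit 9) nil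
  nil)) (node (nat_lit 4) (nat_lit 101160) (nat_lit 8) (node (nat_lit 5) (nat_lit 104655) (nat_lit
  9) nil nil) (node (nat_lit 7) (nat_lit 109736) (nat_lit 8) nil nil))) (node (nat_lit 5) (nat_lit
  0) (nat_lit 7) (node (nat_lit 6) (nat_lit 103966) (nat_lit 8) (node (nat_lit 4) (nat_lit 109111)
  (nat_lit 9) (node (nat_lit 6) (nat_lit 110348) (nat_lit 10) (node (nat_lit 5) (nat_lit 105903)
  (nat_lit 11) nil nil) nil) (node (nat_lit 5) (nat_lit 103428) (nat_lit 9) nil (node (nat_lit 7)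
  (nat_lit 73787) (nat_lit 9) nil nil))) (node (nat_lit 7) (nat_lit 105732) (nat_lit 8) nil (node
  (nat_lit 0) (nat_lit 105732) (nat_lit 8) nil nil))) (node (nat_lit 7) (nat_lit 110323) (nat_lit
  7) (node (nat_lit 4) (nat_lit 110323) (nat_lit 8) nil nil) (node (nat_lit 0) (nat_lit 104744)
  (nat_lit 7) nil nil)))) (node (nat_lit 0) (nat_lit 104794) (nat_lit 6) nil nil)))) (node
  (nat_lit 0) (nat_lit 0) (nat_lit 5) (node (nat_lit 7) (nat_lit 0) (nat_lit 6) (node (nat_lit 6)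
  (nat_lit 106739) (nat_lit 7) (node (nat_lit 8) (nat_lit 113791) (nat_lit 8) (node (nat_lit 7)
  (nat_lit 113956) (nat_lit 9) nil (node (nat_lit 6) (nat_lit 113791) (nat_lit 9) nil nil)) (node
  (nat_lit 7) (nat_lit 112448) (nat_lit 8) nil (node (nat_lit 0) (nat_lit 109666) (nat_lit 8) nil
  (node (nat_lit 5) (nat_lit 106739) (nat_lit 8) nil (node (nat_lit 4) (nat_lit 106739) (nat_lit
  8) nil nil))))) (node (nat_lit 4) (nat_lit 106739) (nat_lit 7) (node (nat_lit 8) (nat_lit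
  112051) (nat_lit 8) nil (node (nat_lit 7) (nat_lit 109666) (nat_lit 8) nil (node (nat_lit 6)
  (nat_lit 106739) (nat_lit 8) nil (node (nat_lit 5) (nat_lit 106739) (nat_lit 8) nil nil))))
  (node (nat_lit 5) (nat_lit 104625) (nat_lit 7) (node (nat_lit 8) (nat_lit 110541) (nat_lit 8)
  nil (node (nat_lit 7) (nat_lit 107551) (nat_lit 8) nil (node (nat_lit 6) (nat_lit 104625)
  (nat_lit 8) nil (node (nat_lit 4) (nat_lit 104625) (nat_lit 8) nil nil)))) (node (nat_lit 0)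
  (nat_lit 110951) (nat_lit 7) (node (nat_lit 8) (nat_lit 112193) (nat_lit 8) nil nil) nil))))
  (node (nat_lit 6) (nat_lit 0) (nat_lit 6) (node (nat_lit 8) (nat_lit 111265) (nat_lit 7) (node
  (nat_lit 7) (nat_lit 113589) (nat_lit 8) (node (nat_lit 8) (nat_lit 113956) (nat_lit 9) (node
  (nat_lit 6) (nat_lit 113956) (nat_lit 10) nil nil) (node (nat_lit 6) (nat_lit 113589) (nat_lit
  9) nil nil)) (node (nat_lit 0) (nat_lit 112507) (nat_lit 8) nil nil)) (node (nat_lit 5) (nat_lit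
  97039) (nat_lit 7) (node (nat_lit 7) (nat_lit 109061) (nat_lit 8) nil (node (nat_lit 8) (nat_lit
  103460) (nat_lit 8) nil (node (nat_lit 6) (nat_lit 97039) (nat_lit 8) nil nil))) (node (nat_lit
  4) (nat_lit 97961) (nat_lit 7) (node (nat_lit 7) (nat_lit 109983) (nat_lit 8) nil (node (nat_lit
  8) (nat_lit 104381) (nat_lit 8) nil (node (nat_lit 6) (nat_lit 97961) (nat_lit 8) nil nil)))
  (node (nat_lit 7) (nat_lit 107373) (nat_lit 7) (node (nat_lit 6) (nat_lit 107373) (nat_lit 8)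
  nil nil) (node (nat_lit 0) (nat_lit 109049) (nat_lit 7) nil nil))))) (node (nat_lit 5) (nat_lit
  0) (nat_lit 6) (node (nat_lit 6) (nat_lit 96745) (nat_lit 7) (node (nat_lit 5) (nat_lit 96745)
  (nat_lit 8) nil (node (nat_lit 8) (nat_lit 103166) (nat_lit 8) nil nil)) (node (nat_lit 4)
  (nat_lit 96149) (nat_lit 7) nil (node (nat_lit 8) (nat_lit 105783) (nat_lit 7) nil (node
  (nat_lit 7) (nat_lit 109501) (nat_lit 7) nil (node (nat_lit 0) (nat_lit 101328) (nat_lit 7) nil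
  nil))))) (node (nat_lit 4) (nat_lit 0) (nat_lit 6) (node (nat_lit 6) (nat_lit 99036) (nat_lit 7)
  (node (nat_lit 4) (nat_lit 99036) (nat_lit 8) nil (node (nat_lit 8) (nat_lit 105457) (nat_lit 8)
  nil nil)) (node (nat_lit 5) (nat_lit 96853) (nat_lit 7) nil (node (nat_lit 8) (nat_lit 106487)
  (nat_lit 7) nil (node (nat_lit 7) (nat_lit 110205) (nat_lit 7) nil (node (nat_lit 0) (nat_lit
  102032) (nat_lit 7) nil nil))))) (node (nat_lit 0) (nat_lit 104600) (nat_lit 6) (node (nat_lit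
  8) (nat_lit 106285) (nat_lit 7) nil nil) nil))))) (node (nat_lit 6) (nat_lit 0) (nat_lit 5)
  (node (nat_lit 4) (nat_lit 0) (nat_lit 6) (node (nat_lit 5) (nat_lit 92368) (nat_lit 7) (node
  (nat_lit 4) (nat_lit 101418) (nat_lit 8) (node (nat_lit 6) (nat_lit 104323) (nat_lit 9) (node
  (nat_lit 4) (nat_lit 98304) (nat_lit 10) (node (nat_lit 5) (nat_lit 96675) (nat_lit 11) (node
  (nat_lit 6) (nat_lit 96510) (nat_lit 12) nil nil) nil) (node (nat_lit 5) (nat_lit 97930)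
  (nat_lit 10) nil nil)) nil) (node (nat_lit 6) (nat_lit 102156) (nat_lit 8) (node (nat_lit 5)
  (nat_lit 102757) (nat_lit 9) nil (node (nat_lit 7) (nat_lit 37119) (nat_lit 9) nil (node
  (nat_lit 4) (nat_lit 105651) (nat_lit 9) nil nil))) nil)) (node (nat_lit 6) (nat_lit 92046)
  (nat_lit 7) (node (nat_lit 5) (nat_lit 101003) (nat_lit 8) (node (nat_lit 6) (nat_lit 100927)
  (nat_lit 9) (node (nat_lit 4) (nat_lit 91977) (nat_lit 10) (node (nat_lit 5) (nat_lit 85971)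
  (nat_lit 11) nil nil) nil) (node (nat_lit 4) (nat_lit 100793) (nat_lit 9) nil nil)) (node
  (nat_lit 7) (nat_lit 104014) (nat_lit 8) nil (node (nat_lit 0) (nat_lit 104014) (nat_lit 8) nil
  nil))) (node (nat_lit 7) (nat_lit 104601) (nat_lit 7) nil (node (nat_lit 0) (nat_lit 104601)
  (nat_lit 7) nil nil)))) (node (nat_lit 5) (nat_lit 0) (nat_lit 6) (node (nat_lit 4) (nat_lit
  94022) (nat_lit 7) (node (nat_lit 6) (nat_lit 103637) (nat_lit 8) (node (nat_lit 4) (nat_lit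
  107131) (nat_lit 9) nil (node (nat_lit 5) (nat_lit 103427) (nat_lit 9) nil nil)) (node (nat_lit
  5) (nat_lit 103718) (nat_lit 8) (node (nat_lit 6) (nat_lit 108013) (nat_lit 9) nil nil) nil))
  (node (nat_lit 6) (nat_lit 93312) (nat_lit 7) (node (nat_lit 4) (nat_lit 102201) (nat_lit 8)
  (node (nat_lit 6) (nat_lit 104358) (nat_lit 9) (node (nat_lit 5) (nat_lit 97965) (nat_lit 10)
  nil nil) (node (nat_lit 5) (nat_lit 105696) (nat_lit 9) nil nil)) (node (nat_lit 7) (nat_lit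
  112830) (nat_lit 8) (node (nat_lit 5) (nat_lit 112830) (nat_lit 9) nil nil) (node (nat_lit 0)
  (nat_lit 105280) (nat_lit 8) nil nil))) (node (nat_lit 7) (nat_lit 104708) (nat_lit 7) nil (node
  (nat_lit 0) (nat_lit 104708) (nat_lit 7) nil nil)))) (node (nat_lit 0) (nat_lit 105455) (nat_lit
  6) (node (nat_lit 6) (nat_lit 106027) (nat_lit 7) (node (nat_lit 7) (nat_lit 108953) (nat_lit 8)
  nil nil) (node (nat_lit 7) (nat_lit 107140) (nat_lit 7) nil (node (nat_lit 0) (nat_lit 107140)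
  (nat_lit 7) nil nil))) nil))) nil)))) t399) (node (nat_lit 4) (nat_lit 0) (nat_lit 3) t400 (node
  (nat_lit 0) (nat_lit 0) (nat_lit 3) t401 nil)))

noncomputable def c26 : Tr :=
  (node (nat_lit 3) (nat_lit 0) (nat_lit 1) (node (nat_lit 3) (nat_lit 0) (nat_lit 2) t402 nil)
  nil)

noncomputable def t403 : Tr :=
  (node (nat_lit 6) (nat_lit 0) (nat_lit 5) (node (nat_lit 0) (nat_lit 0) (nat_lit 6) (node
  (nat_lit 5) (nat_lit 0) (nat_lit 7) (node (nat_lit 9) (nat_lit 116512) (nat_lit 8) (node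
  (nat_lit 6) (nat_lit 116512) (nat_lit 9) (node (nat_lit 5) (nat_lit 116512) (nat_lit 10) (node
  (nat_lit 6) (nat_lit 118666) (nat_lit 11) (node (nat_lit 4) (nat_lit 119312) (nat_lit 12) nil
  nil) (node (nat_lit 4) (nat_lit 118666) (nat_lit 11) nil nil)) (node (nat_lit 4) (nat_lit
  116512) (nat_lit 10) nil (node (nat_lit 9) (nat_lit 119312) (nat_lit 10) nil nil))) (node
  (nat_lit 4) (nat_lit 116512) (nat_lit 9) (node (nat_lit 5) (nat_lit 115256) (nat_lit 10) nil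
  nil) nil)) (node (nat_lit 4) (nat_lit 107956) (nat_lit 8) (node (nat_lit 6) (nat_lit 112908)
  (nat_lit 9) (node (nat_lit 5) (nat_lit 116512) (nat_lit 10) (node (nat_lit 4) (nat_lit 116640)
  (nat_lit 11) (node (nat_lit 5) (nat_lit 114437) (nat_lit 12) (node (nat_lit 6) (nat_lit 108567)
  (nat_lit 13) (node (nat_lit 4) (nat_lit 99623) (nat_lit 14) (node (nat_lit 6) (nat_lit 83669)
  (nat_lit 15) nil nil) nil) nil) nil) nil) (node (nat_lit 4) (nat_lit 116512) (nat_lit 10) (node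
  (nat_lit 5) (nat_lit 118666) (nat_lit 11) nil nil) nil)) (node (nat_lit 5) (nat_lit 112908)
  (nat_lit 9) (node (nat_lit 6) (nat_lit 116512) (nat_lit 10) (node (nat_lit 4) (nat_lit 118666)
  (nat_lit 11) nil nil) nil) (node (nat_lit 9) (nat_lit 118239) (nat_lit 9) nil nil))) (node
  (nat_lit 6) (nat_lit 0) (nat_lit 8) (node (nat_lit 5) (nat_lit 112527) (nat_lit 9) (node
  (nat_lit 4) (nat_lit 115930) (nat_lit 10) (node (nat_lit 6) (nat_lit 117866) (nat_lit 11) nil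
  nil) (node (nat_lit 9) (nat_lit 118932) (nat_lit 10) nil nil)) (node (nat_lit 4) (nat_lit
  112376) (nat_lit 9) (node (nat_lit 5) (nat_lit 115980) (nat_lit 10) nil (node (nat_lit 6)
  (nat_lit 113192) (nat_lit 10) nil nil)) (node (nat_lit 9) (nat_lit 118557) (nat_lit 9) (node
  (nat_lit 6) (nat_lit 118557) (nat_lit 10) nil nil) (node (nat_lit 0) (nat_lit 117015) (nat_lit
  9) nil nil)))) (node (nat_lit 0) (nat_lit 115067) (nat_lit 8) nil nil)))) (node (nat_lit 4)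
  (nat_lit 0) (nat_lit 7) (node (nat_lit 9) (nat_lit 115586) (nat_lit 8) (node (nat_lit 6)
  (nat_lit 115990) (nat_lit 9) (node (nat_lit 4) (nat_lit 115572) (nat_lit 10) (node (nat_lit 6)
  (nat_lit 118079) (nat_lit 11) (node (nat_lit 5) (nat_lit 118726) (nat_lit 12) (node (nat_lit 4)
  (nat_lit 117706) (nat_lit 13) nil nil) nil) (node (nat_lit 5) (nat_lit 116708) (nat_lit 11) nil
  nil)) (node (nat_lit 9) (nat_lit 118790) (nat_lit 10) nil (node (nat_lit 5) (nat_lit 115990)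
  (nat_lit 10) nil nil))) (node (nat_lit 5) (nat_lit 115990) (nat_lit 9) (node (nat_lit 4)
  (nat_lit 116512) (nat_lit 10) (node (nat_lit 5) (nat_lit 118666) (nat_lit 11) nil nil) nil)
  nil)) (node (nat_lit 6) (nat_lit 0) (nat_lit 8) (node (nat_lit 4) (nat_lit 110907) (nat_lit 9)
  (node (nat_lit 5) (nat_lit 115078) (nat_lit 10) (node (nat_lit 6) (nat_lit 117232) (nat_lit 11)
  (node (nat_lit 5) (nat_lit 117878) (nat_lit 12) (node (nat_lit 4) (nat_lit 116859) (nat_lit 13)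
  (node (nat_lit 5) (nat_lit 116978) (nat_lit 14) (node (nat_lit 6) (nat_lit 114847) (nat_lit 15)
  nil nil) nil) nil) nil) nil) (node (nat_lit 9) (nat_lit 117311) (nat_lit 10) nil nil)) (node
  (nat_lit 5) (nat_lit 112459) (nat_lit 9) (node (nat_lit 4) (nat_lit 114861) (nat_lit 10) nil
  (node (nat_lit 6) (nat_lit 116063) (nat_lit 10) nil nil)) (node (nat_lit 0) (nat_lit 116796)
  (nat_lit 9) nil nil))) (node (nat_lit 5) (nat_lit 105939) (nat_lit 8) (node (nat_lit 6) (nat_lit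
  111406) (nat_lit 9) (node (nat_lit 5) (nat_lit 114099) (nat_lit 10) (node (nat_lit 4) (nat_lit
  112413) (nat_lit 11) nil nil) (node (nat_lit 4) (nat_lit 115010) (nat_lit 10) nil nil)) (node
  (nat_lit 4) (nat_lit 110532) (nat_lit 9) (node (nat_lit 6) (nat_lit 113249) (nat_lit 10) (node
  (nat_lit 5) (nat_lit 115402) (nat_lit 11) nil nil) nil) (node (nat_lit 9) (nat_lit 116221)
  (nat_lit 9) nil nil))) (node (nat_lit 0) (nat_lit 112840) (nat_lit 8) nil nil)))) (node (nat_lit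
  6) (nat_lit 0) (nat_lit 7) (node (nat_lit 4) (nat_lit 106514) (nat_lit 8) (node (nat_lit 5)
  (nat_lit 112094) (nat_lit 9) (node (nat_lit 4) (nat_lit 112643) (nat_lit 10) nil (node (nat_lit
  6) (nat_lit 115166) (nat_lit 10) nil nil)) (node (nat_lit 6) (nat_lit 111981) (nat_lit 9) (node
  (nat_lit 5) (nat_lit 115586) (nat_lit 10) (node (nat_lit 4) (nat_lit 114416) (nat_lit 11) (node
  (nat_lit 5) (nat_lit 112213) (nat_lit 12) (node (nat_lit 6) (nat_lit 107303) (nat_lit 13) nil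
  nil) nil) nil) nil) (node (nat_lit 9) (nat_lit 116796) (nat_lit 9) nil nil))) (node (nat_lit 5)
  (nat_lit 105672) (nat_lit 8) (node (nat_lit 6) (nat_lit 111139) (nat_lit 9) (node (nat_lit 4)
  (nat_lit 114744) (nat_lit 10) nil (node (nat_lit 9) (nat_lit 117544) (nat_lit 10) nil nil))
  (node (nat_lit 4) (nat_lit 110266) (nat_lit 9) (node (nat_lit 6) (nat_lit 112982) (nat_lit 10)
  nil (node (nat_lit 5) (nat_lit 113870) (nat_lit 10) nil nil)) (node (nat_lit 9) (nat_lit 115954)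
  (nat_lit 9) nil nil))) (node (nat_lit 0) (nat_lit 115586) (nat_lit 8) nil nil))) (node (nat_lit
  0) (nat_lit 0) (nat_lit 7) (node (nat_lit 6) (nat_lit 0) (nat_lit 8) (node (nat_lit 10) (nat_lit
  117244) (nat_lit 9) nil (node (nat_lit 5) (nat_lit 110142) (nat_lit 9) nil (node (nat_lit 4)
  (nat_lit 110142) (nat_lit 9) nil (node (nat_lit 9) (nat_lit 115900) (nat_lit 9) nil (node
  (nat_lit 0) (nat_lit 115900) (nat_lit 9) nil nil))))) (node (nat_lit 9) (nat_lit 0) (nat_lit 8)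
  (node (nat_lit 6) (nat_lit 116500) (nat_lit 9) (node (nat_lit 10) (nat_lit 119300) (nat_lit 10)
  nil nil) (node (nat_lit 4) (nat_lit 116500) (nat_lit 9) nil (node (nat_lit 5) (nat_lit 116500)
  (nat_lit 9) nil (node (nat_lit 0) (nat_lit 118653) (nat_lit 9) nil nil)))) (node (nat_lit 4)
  (nat_lit 110142) (nat_lit 8) (node (nat_lit 10) (nat_lit 115900) (nat_lit 9) nil nil) (node
  (nat_lit 5) (nat_lit 111316) (nat_lit 8) (node (nat_lit 10) (nat_lit 117074) (nat_lit 9) nil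
  nil) (node (nat_lit 0) (nat_lit 115098) (nat_lit 8) nil nil))))) nil)))) (node (nat_lit 5)
  (nat_lit 0) (nat_lit 6) (node (nat_lit 0) (nat_lit 0) (nat_lit 7) (node (nat_lit 5) (nat_lit 0)
  (nat_lit 8) (node (nat_lit 6) (nat_lit 109761) (nat_lit 9) (node (nat_lit 4) (nat_lit 114124)
  (nat_lit 10) (node (nat_lit 5) (nat_lit 116278) (nat_lit 11) (node (nat_lit 4) (nat_lit 115393)
  (nat_lit 12) nil nil) (node (nat_lit 6) (nat_lit 117655) (nat_lit 11) nil (node (nat_lit 0)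
  (nat_lit 117923) (nat_lit 11) nil nil))) (node (nat_lit 5) (nat_lit 116190) (nat_lit 10) (node
  (nat_lit 4) (nat_lit 116145) (nat_lit 11) nil (node (nat_lit 10) (nat_lit 119442) (nat_lit 11)
  nil nil)) (node (nat_lit 10) (nat_lit 118655) (nat_lit 10) (node (nat_lit 5) (nat_lit 118655)
  (nat_lit 11) (node (nat_lit 10) (nat_lit 119450) (nat_lit 12) nil nil) nil) (node (nat_lit 0)
  (nat_lit 117257) (nat_lit 10) nil nil)))) (node (nat_lit 4) (nat_lit 111232) (nat_lit 9) (node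
  (nat_lit 6) (nat_lit 116091) (nat_lit 10) (node (nat_lit 5) (nat_lit 118255) (nat_lit 11) nil
  (node (nat_lit 4) (nat_lit 118648) (nat_lit 11) nil nil)) (node (nat_lit 5) (nat_lit 116463)
  (nat_lit 10) (node (nat_lit 6) (nat_lit 117020) (nat_lit 11) nil (node (nat_lit 10) (nat_lit
  119729) (nat_lit 11) nil nil)) (node (nat_lit 10) (nat_lit 118727) (nat_lit 10) nil (node
  (nat_lit 0) (nat_lit 118727) (nat_lit 10) nil nil)))) (node (nat_lit 0) (nat_lit 118507)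
  (nat_lit 9) (node (nat_lit 5) (nat_lit 118418) (nat_lit 10) nil (node (nat_lit 10) (nat_lit
  119312) (nat_lit 10) nil (node (nat_lit 6) (nat_lit 118507) (nat_lit 10) nil (node (nat_lit 0)
  (nat_lit 119312) (nat_lit 10) nil (node (nat_lit 4) (nat_lit 118507) (nat_lit 10) nil nil)))))
  nil))) (node (nat_lit 6) (nat_lit 0) (nat_lit 8) (node (nat_lit 10) (nat_lit 118563) (nat_lit 9)
  (node (nat_lit 5) (nat_lit 118563) (nat_lit 10) (node (nat_lit 10) (nat_lit 119626) (nat_lit 11)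
  nil nil) nil) (node (nat_lit 4) (nat_lit 110586) (nat_lit 9) (node (nat_lit 5) (nat_lit 113876)
  (nat_lit 10) (node (nat_lit 4) (nat_lit 113832) (nat_lit 11) nil nil) (node (nat_lit 6) (nat_lit
  111402) (nat_lit 10) nil nil)) (node (nat_lit 5) (nat_lit 112196) (nat_lit 9) (node (nat_lit 6)
  (nat_lit 116430) (nat_lit 10) (node (nat_lit 10) (nat_lit 119647) (nat_lit 11) nil nil) nil)
  (node (nat_lit 0) (nat_lit 114947) (nat_lit 9) nil nil)))) (node (nat_lit 4) (nat_lit 0)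
  (nat_lit 8) (node (nat_lit 5) (nat_lit 109158) (nat_lit 9) (node (nat_lit 4) (nat_lit 112796)
  (nat_lit 10) (node (nat_lit 10) (nat_lit 116594) (nat_lit 11) nil nil) (node (nat_lit 6)
  (nat_lit 109974) (nat_lit 10) nil nil)) (node (nat_lit 10) (nat_lit 115939) (nat_lit 9) (node
  (nat_lit 5) (nat_lit 115939) (nat_lit 10) nil nil) (node (nat_lit 6) (nat_lit 108548) (nat_lit
  9) (node (nat_lit 5) (nat_lit 112152) (nat_lit 10) nil nil) (node (nat_lit 0) (nat_lit 111355)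
  (nat_lit 9) nil nil)))) (node (nat_lit 0) (nat_lit 112656) (nat_lit 8) (node (nat_lit 5)
  (nat_lit 113772) (nat_lit 9) (node (nat_lit 10) (nat_lit 118672) (nat_lit 10) (node (nat_lit 5)
  (nat_lit 118672) (nat_lit 11) nil nil) (node (nat_lit 11) (nat_lit 116800) (nat_lit 10) nil
  nil)) (node (nat_lit 10) (nat_lit 117257) (nat_lit 9) (node (nat_lit 5) (nat_lit 117257)
  (nat_lit 10) nil nil) nil)) nil)))) (node (nat_lit 6) (nat_lit 0) (nat_lit 7) (node (nat_lit 0)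
  (nat_lit 0) (nat_lit 8) (node (nat_lit 5) (nat_lit 111783) (nat_lit 9) (node (nat_lit 6)
  (nat_lit 114586) (nat_lit 10) (node (nat_lit 5) (nat_lit 118666) (nat_lit 11) (node (nat_lit 11)
  (nat_lit 120108) (nat_lit 12) (node (nat_lit 6) (nat_lit 120108) (nat_lit 13) nil (node (nat_lit
  5) (nat_lit 120108) (nat_lit 13) nil nil)) (node (nat_lit 4) (nat_lit 119312) (nat_lit 12) (node
  (nat_lit 6) (nat_lit 119729) (nat_lit 13) nil nil) (node (nat_lit 0) (nat_lit 120108) (nat_lit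
  12) nil nil))) (node (nat_lit 4) (nat_lit 118080) (nat_lit 11) (node (nat_lit 5) (nat_lit
  118825) (nat_lit 12) nil (node (nat_lit 6) (nat_lit 118743) (nat_lit 12) nil (node (nat_lit 11)
  (nat_lit 120108) (nat_lit 12) nil nil))) (node (nat_lit 0) (nat_lit 119222) (nat_lit 11) nil
  nil))) (node (nat_lit 11) (nat_lit 119225) (nat_lit 10) nil nil)) (node (nat_lit 6) (nat_lit
  111607) (nat_lit 9) (node (nat_lit 5) (nat_lit 115511) (nat_lit 10) (node (nat_lit 11) (nat_lit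
  119729) (nat_lit 11) (node (nat_lit 5) (nat_lit 119729) (nat_lit 12) (node (nat_lit 6) (nat_lit
  119729) (nat_lit 13) nil nil) nil) nil) nil) (node (nat_lit 4) (nat_lit 109073) (nat_lit 9) nil
  (node (nat_lit 0) (nat_lit 111226) (nat_lit 9) nil nil)))) nil) (node (nat_lit 4) (nat_lit 0)
  (nat_lit 7) (node (nat_lit 0) (nat_lit 0) (nat_lit 8) (node (nat_lit 5) (nat_lit 87400) (nat_lit
  9) (node (nat_lit 4) (nat_lit 91050) (nat_lit 10) (node (nat_lit 5) (nat_lit 95042) (nat_lit 11)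
  (node (nat_lit 11) (nat_lit 99413) (nat_lit 12) (node (nat_lit 5) (nat_lit 99413) (nat_lit 13)
  nil nil) (node (nat_lit 6) (nat_lit 95529) (nat_lit 12) (node (nat_lit 4) (nat_lit 96299)
  (nat_lit 13) nil nil) (node (nat_lit 0) (nat_lit 98659) (nat_lit 12) nil nil))) (node (nat_lit
  6) (nat_lit 95162) (nat_lit 11) (node (nat_lit 5) (nat_lit 97505) (nat_lit 12) nil (node
  (nat_lit 11) (nat_lit 98779) (nat_lit 12) nil (node (nat_lit 4) (nat_lit 96751) (nat_lit 12) nil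
  nil))) (node (nat_lit 0) (nat_lit 97521) (nat_lit 11) nil nil))) (node (nat_lit 6) (nat_lit
  89481) (nat_lit 10) nil nil)) (node (nat_lit 4) (nat_lit 86797) (nat_lit 9) (node (nat_lit 5)
  (nat_lit 86971) (nat_lit 10) (node (nat_lit 11) (nat_lit 93100) (nat_lit 11) (node (nat_lit 5)
  (nat_lit 93100) (nat_lit 12) nil nil) nil) nil) (node (nat_lit 6) (nat_lit 87299) (nat_lit 9)
  (node (nat_lit 4) (nat_lit 87273) (nat_lit 10) nil nil) (node (nat_lit 0) (nat_lit 89930)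
  (nat_lit 9) nil nil)))) nil) nil))) nil)) (node (nat_lit 5) (nat_lit 0) (nat_lit 5) (node
  (nat_lit 0) (nat_lit 0) (nat_lit 6) (node (nat_lit 6) (nat_lit 0) (nat_lit 7) (node (nat_lit 9)
  (nat_lit 0) (nat_lit 8) (node (nat_lit 5) (nat_lit 64537) (nat_lit 9) (node (nat_lit 6) (nat_lit
  64537) (nat_lit 10) (node (nat_lit 5) (nat_lit 65480) (nat_lit 11) nil (node (nat_lit 4)
  (nat_lit 65480) (nat_lit 11) nil nil)) (node (nat_lit 4) (nat_lit 64437) (nat_lit 10) nil (node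
  (nat_lit 9) (nat_lit 65654) (nat_lit 10) nil nil))) (node (nat_lit 4) (nat_lit 64537) (nat_lit
  9) (node (nat_lit 6) (nat_lit 64537) (nat_lit 10) (node (nat_lit 4) (nat_lit 65480) (nat_lit 11)
  nil (node (nat_lit 5) (nat_lit 65480) (nat_lit 11) nil nil)) nil) (node (nat_lit 0) (nat_lit
  65480) (nat_lit 9) nil nil))) (node (nat_lit 4) (nat_lit 61032) (nat_lit 8) (node (nat_lit 5)
  (nat_lit 63193) (nat_lit 9) (node (nat_lit 4) (nat_lit 64537) (nat_lit 10) nil (node (nat_lit 6)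
  (nat_lit 63264) (nat_lit 10) nil nil)) (node (nat_lit 6) (nat_lit 63193) (nat_lit 9) (node
  (nat_lit 5) (nat_lit 64537) (nat_lit 10) (node (nat_lit 4) (nat_lit 65480) (nat_lit 11) (node
  (nat_lit 5) (nat_lit 63378) (nat_lit 12) (node (nat_lit 6) (nat_lit 58554) (nat_lit 13) nil nil)
  nil) nil) nil) (node (nat_lit 9) (nat_lit 65480) (nat_lit 9) nil nil))) (node (nat_lit 5)
  (nat_lit 61032) (nat_lit 8) (node (nat_lit 6) (nat_lit 63193) (nat_lit 9) (node (nat_lit 4)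
  (nat_lit 64537) (nat_lit 10) (node (nat_lit 5) (nat_lit 65480) (nat_lit 11) nil nil) nil) (node
  (nat_lit 4) (nat_lit 63193) (nat_lit 9) (node (nat_lit 6) (nat_lit 64537) (nat_lit 10) nil (node
  (nat_lit 5) (nat_lit 64537) (nat_lit 10) nil nil)) (node (nat_lit 9) (nat_lit 65480) (nat_lit 9)
  (node (nat_lit 5) (nat_lit 65480) (nat_lit 10) nil nil) nil))) (node (nat_lit 0) (nat_lit 64537)
  (nat_lit 8) nil nil)))) (node (nat_lit 4) (nat_lit 0) (nat_lit 7) (node (nat_lit 9) (nat_lit 0)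
  (nat_lit 8) (node (nat_lit 5) (nat_lit 64537) (nat_lit 9) (node (nat_lit 4) (nat_lit 64537)
  (nat_lit 10) (node (nat_lit 5) (nat_lit 65480) (nat_lit 11) (node (nat_lit 6) (nat_lit 64202)
  (nat_lit 12) nil nil) (node (nat_lit 6) (nat_lit 65480) (nat_lit 11) nil nil)) (node (nat_lit 6)
  (nat_lit 64537) (nat_lit 10) nil (node (nat_lit 9) (nat_lit 65654) (nat_lit 10) nil nil))) (node
  (nat_lit 6) (nat_lit 64537) (nat_lit 9) (node (nat_lit 4) (nat_lit 64537) (nat_lit 10) (node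
  (nat_lit 6) (nat_lit 65480) (nat_lit 11) nil (node (nat_lit 5) (nat_lit 65480) (nat_lit 11) nil
  nil)) nil) (node (nat_lit 0) (nat_lit 65480) (nat_lit 9) nil nil))) (node (nat_lit 5) (nat_lit
  61032) (nat_lit 8) (node (nat_lit 6) (nat_lit 63193) (nat_lit 9) (node (nat_lit 4) (nat_lit
  64537) (nat_lit 10) nil (node (nat_lit 5) (nat_lit 61224) (nat_lit 10) (node (nat_lit 4)
  (nat_lit 59679) (nat_lit 11) (node (nat_lit 5) (nat_lit 57080) (nat_lit 12) nil nil) nil) nil))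
  (node (nat_lit 4) (nat_lit 63193) (nat_lit 9) (node (nat_lit 6) (nat_lit 64537) (nat_lit 10)
  (node (nat_lit 5) (nat_lit 65480) (nat_lit 11) nil nil) (node (nat_lit 9) (nat_lit 65654)
  (nat_lit 10) nil nil)) nil)) (node (nat_lit 6) (nat_lit 61032) (nat_lit 8) (node (nat_lit 5)
  (nat_lit 63193) (nat_lit 9) (node (nat_lit 6) (nat_lit 64537) (nat_lit 10) nil (node (nat_lit 4)
  (nat_lit 64537) (nat_lit 10) nil nil)) (node (nat_lit 4) (nat_lit 63193) (nat_lit 9) (node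
  (nat_lit 5) (nat_lit 64537) (nat_lit 10) nil nil) (node (nat_lit 9) (nat_lit 65480) (nat_lit 9)
  nil nil))) (node (nat_lit 0) (nat_lit 64537) (nat_lit 8) nil nil)))) (node (nat_lit 5) (nat_lit
  0) (nat_lit 7) (node (nat_lit 4) (nat_lit 60519) (nat_lit 8) (node (nat_lit 5) (nat_lit 63193)
  (nat_lit 9) (node (nat_lit 6) (nat_lit 63392) (nat_lit 10) (node (nat_lit 4) (nat_lit 64335)
  (nat_lit 11) (node (nat_lit 5) (nat_lit 64737) (nat_lit 12) nil nil) nil) (node (nat_lit 9)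
  (nat_lit 65654) (nat_lit 10) nil nil)) (node (nat_lit 6) (nat_lit 63193) (nat_lit 9) (node
  (nat_lit 4) (nat_lit 64537) (nat_lit 10) nil (node (nat_lit 5) (nat_lit 64537) (nat_lit 10) nil
  nil)) (node (nat_lit 9) (nat_lit 64968) (nat_lit 9) nil nil))) (node (nat_lit 6) (nat_lit 60835)
  (nat_lit 8) (node (nat_lit 5) (nat_lit 63193) (nat_lit 9) (node (nat_lit 4) (nat_lit 64537)
  (nat_lit 10) nil nil) (node (nat_lit 4) (nat_lit 63172) (nat_lit 9) (node (nat_lit 5) (nat_lit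
  64516) (nat_lit 10) nil nil) nil)) (node (nat_lit 0) (nat_lit 64537) (nat_lit 8) nil nil)))
  (node (nat_lit 0) (nat_lit 0) (nat_lit 7) (node (nat_lit 9) (nat_lit 0) (nat_lit 8) (node
  (nat_lit 5) (nat_lit 64537) (nat_lit 9) (node (nat_lit 10) (nat_lit 65654) (nat_lit 10) nil nil)
  (node (nat_lit 6) (nat_lit 64537) (nat_lit 9) nil (node (nat_lit 4) (nat_lit 64537) (nat_lit 9)
  nil (node (nat_lit 0) (nat_lit 65480) (nat_lit 9) nil nil)))) (node (nat_lit 5) (nat_lit 0)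
  (nat_lit 8) (node (nat_lit 10) (nat_lit 65480) (nat_lit 9) nil (node (nat_lit 6) (nat_lit 62557)
  (nat_lit 9) nil (node (nat_lit 4) (nat_lit 62557) (nat_lit 9) nil (node (nat_lit 9) (nat_lit
  64844) (nat_lit 9) nil (node (nat_lit 0) (nat_lit 64844) (nat_lit 9) nil nil))))) (node (nat_lit
  4) (nat_lit 63193) (nat_lit 8) (node (nat_lit 10) (nat_lit 65480) (nat_lit 9) nil nil) (node
  (nat_lit 6) (nat_lit 63193) (nat_lit 8) (node (nat_lit 10) (nat_lit 65480) (nat_lit 9) nil nil)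
  (node (nat_lit 0) (nat_lit 64537) (nat_lit 8) nil nil))))) nil)))) (node (nat_lit 4) (nat_lit 0)
  (nat_lit 6) (node (nat_lit 0) (nat_lit 0) (nat_lit 7) (node (nat_lit 4) (nat_lit 0) (nat_lit 8)
  (node (nat_lit 5) (nat_lit 62902) (nat_lit 9) (node (nat_lit 6) (nat_lit 64527) (nat_lit 10)
  (node (nat_lit 4) (nat_lit 65480) (nat_lit 11) nil (node (nat_lit 5) (nat_lit 65480) (nat_lit
  11) (node (nat_lit 4) (nat_lit 60329) (nat_lit 12) nil nil) (node (nat_lit 0) (nat_lit 65654)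
  (nat_lit 11) nil nil))) (node (nat_lit 10) (nat_lit 65654) (nat_lit 10) (node (nat_lit 4)
  (nat_lit 65654) (nat_lit 11) (node (nat_lit 10) (nat_lit 65654) (nat_lit 12) (node (nat_lit 5)
  (nat_lit 65654) (nat_lit 13) nil nil) (node (nat_lit 6) (nat_lit 65654) (nat_lit 12) nil (node
  (nat_lit 0) (nat_lit 65654) (nat_lit 12) nil nil))) (node (nat_lit 5) (nat_lit 65654) (nat_lit
  11) (node (nat_lit 4) (nat_lit 65654) (nat_lit 12) nil nil) nil)) (node (nat_lit 4) (nat_lit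
  64537) (nat_lit 10) nil (node (nat_lit 0) (nat_lit 65654) (nat_lit 10) nil nil)))) (node
  (nat_lit 6) (nat_lit 63193) (nat_lit 9) (node (nat_lit 5) (nat_lit 64537) (nat_lit 10) (node
  (nat_lit 6) (nat_lit 65480) (nat_lit 11) nil (node (nat_lit 4) (nat_lit 65480) (nat_lit 11) nil
  (node (nat_lit 0) (nat_lit 65654) (nat_lit 11) nil nil))) (node (nat_lit 4) (nat_lit 64537)
  (nat_lit 10) (node (nat_lit 10) (nat_lit 65654) (nat_lit 11) nil (node (nat_lit 5) (nat_lit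
  65066) (nat_lit 11) nil nil)) (node (nat_lit 10) (nat_lit 65654) (nat_lit 10) (node (nat_lit 6)
  (nat_lit 65654) (nat_lit 11) nil nil) (node (nat_lit 0) (nat_lit 65654) (nat_lit 10) nil nil))))
  (node (nat_lit 0) (nat_lit 65480) (nat_lit 9) (node (nat_lit 10) (nat_lit 65654) (nat_lit 10)
  (node (nat_lit 4) (nat_lit 65654) (nat_lit 11) nil nil) (node (nat_lit 4) (nat_lit 65293)
  (nat_lit 10) (node (nat_lit 10) (nat_lit 65654) (nat_lit 11) nil nil) (node (nat_lit 0) (nat_lit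
  65654) (nat_lit 10) nil (node (nat_lit 5) (nat_lit 65480) (nat_lit 10) nil nil)))) nil))) (node
  (nat_lit 5) (nat_lit 0) (nat_lit 8) (node (nat_lit 10) (nat_lit 65480) (nat_lit 9) (node
  (nat_lit 4) (nat_lit 65441) (nat_lit 10) (node (nat_lit 10) (nat_lit 65654) (nat_lit 11) (node
  (nat_lit 5) (nat_lit 65654) (nat_lit 12) (node (nat_lit 4) (nat_lit 65654) (nat_lit 13) nil nil)
  nil) nil) nil) (node (nat_lit 4) (nat_lit 63193) (nat_lit 9) (node (nat_lit 5) (nat_lit 64537)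
  (nat_lit 10) (node (nat_lit 10) (nat_lit 65654) (nat_lit 11) nil nil) (node (nat_lit 6) (nat_lit
  61749) (nat_lit 10) nil nil)) (node (nat_lit 6) (nat_lit 63193) (nat_lit 9) (node (nat_lit 4)
  (nat_lit 63471) (nat_lit 10) nil nil) (node (nat_lit 0) (nat_lit 65480) (nat_lit 9) nil nil))))
  (node (nat_lit 6) (nat_lit 62465) (nat_lit 8) (node (nat_lit 4) (nat_lit 63193) (nat_lit 9)
  (node (nat_lit 6) (nat_lit 64537) (nat_lit 10) nil nil) (node (nat_lit 10) (nat_lit 65480)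
  (nat_lit 9) (node (nat_lit 4) (nat_lit 65480) (nat_lit 10) nil nil) (node (nat_lit 5) (nat_lit
  63193) (nat_lit 9) (node (nat_lit 4) (nat_lit 64537) (nat_lit 10) nil nil) nil))) (node (nat_lit
  0) (nat_lit 64537) (nat_lit 8) (node (nat_lit 4) (nat_lit 64537) (nat_lit 9) (node (nat_lit 10)
  (nat_lit 65654) (nat_lit 10) nil nil) (node (nat_lit 10) (nat_lit 65480) (nat_lit 9) (node
  (nat_lit 4) (nat_lit 65480) (nat_lit 10) nil nil) nil)) nil)))) (node (nat_lit 6) (nat_lit 0)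
  (nat_lit 7) (node (nat_lit 0) (nat_lit 0) (nat_lit 8) (node (nat_lit 4) (nat_lit 63462) (nat_lit
  9) (node (nat_lit 6) (nat_lit 64537) (nat_lit 10) (node (nat_lit 5) (nat_lit 65480) (nat_lit 11)
  (node (nat_lit 4) (nat_lit 65654) (nat_lit 12) nil (node (nat_lit 6) (nat_lit 65654) (nat_lit
  12) nil (node (nat_lit 11) (nat_lit 65654) (nat_lit 12) nil nil))) (node (nat_lit 4) (nat_lit
  65480) (nat_lit 11) (node (nat_lit 11) (nat_lit 65654) (nat_lit 12) nil (node (nat_lit 5)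
  (nat_lit 65654) (nat_lit 12) nil (node (nat_lit 0) (nat_lit 65654) (nat_lit 12) nil nil))) (node
  (nat_lit 0) (nat_lit 65654) (nat_lit 11) nil nil))) (node (nat_lit 5) (nat_lit 62531) (nat_lit
  10) nil nil)) (node (nat_lit 6) (nat_lit 63546) (nat_lit 9) (node (nat_lit 4) (nat_lit 62615)
  (nat_lit 10) (node (nat_lit 11) (nat_lit 64314) (nat_lit 11) nil nil) nil) (node (nat_lit 5)
  (nat_lit 62604) (nat_lit 9) (node (nat_lit 6) (nat_lit 63779) (nat_lit 10) nil nil) (node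
  (nat_lit 0) (nat_lit 64445) (nat_lit 9) nil nil)))) nil) nil)) nil)) (node (nat_lit 0) (nat_lit
  0) (nat_lit 5) (node (nat_lit 6) (nat_lit 0) (nat_lit 6) (node (nat_lit 4) (nat_lit 103048)
  (nat_lit 7) (node (nat_lit 5) (nat_lit 110446) (nat_lit 8) (node (nat_lit 4) (nat_lit 113195)
  (nat_lit 9) (node (nat_lit 6) (nat_lit 114159) (nat_lit 10) nil nil) (node (nat_lit 6) (nat_lit
  113926) (nat_lit 9) (node (nat_lit 5) (nat_lit 115507) (nat_lit 10) (node (nat_lit 4) (nat_lit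
  109493) (nat_lit 11) nil nil) (node (nat_lit 4) (nat_lit 115920) (nat_lit 10) nil nil)) nil))
  (node (nat_lit 6) (nat_lit 110680) (nat_lit 8) (node (nat_lit 5) (nat_lit 113037) (nat_lit 9)
  (node (nat_lit 4) (nat_lit 108212) (nat_lit 10) nil nil) (node (nat_lit 8) (nat_lit 116361)
  (nat_lit 9) nil nil)) nil)) (node (nat_lit 5) (nat_lit 103402) (nat_lit 7) (node (nat_lit 4)
  (nat_lit 109585) (nat_lit 8) (node (nat_lit 6) (nat_lit 111171) (nat_lit 9) (node (nat_lit 4)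
  (nat_lit 103083) (nat_lit 10) (node (nat_lit 5) (nat_lit 93355) (nat_lit 11) (node (nat_lit 6)
  (nat_lit 64389) (nat_lit 12) nil nil) nil) nil) (node (nat_lit 5) (nat_lit 113065) (nat_lit 9)
  (node (nat_lit 6) (nat_lit 112270) (nat_lit 10) nil nil) (node (nat_lit 8) (nat_lit 115266)
  (nat_lit 9) nil nil))) (node (nat_lit 6) (nat_lit 111538) (nat_lit 8) (node (nat_lit 4) (nat_lit
  114075) (nat_lit 9) nil nil) (node (nat_lit 8) (nat_lit 117012) (nat_lit 8) nil nil))) (node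
  (nat_lit 8) (nat_lit 114294) (nat_lit 7) (node (nat_lit 4) (nat_lit 114294) (nat_lit 8) nil
  (node (nat_lit 5) (nat_lit 114294) (nat_lit 8) nil nil)) (node (nat_lit 0) (nat_lit 113587)
  (nat_lit 7) nil nil)))) (node (nat_lit 5) (nat_lit 0) (nat_lit 6) (node (nat_lit 6) (nat_lit
  102537) (nat_lit 7) (node (nat_lit 4) (nat_lit 109562) (nat_lit 8) (node (nat_lit 5) (nat_lit
  113172) (nat_lit 9) (node (nat_lit 4) (nat_lit 112247) (nat_lit 10) nil (node (nat_lit 6)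
  (nat_lit 112377) (nat_lit 10) nil nil)) (node (nat_lit 6) (nat_lit 113042) (nat_lit 9) (node
  (nat_lit 5) (nat_lit 115036) (nat_lit 10) (node (nat_lit 4) (nat_lit 112726) (nat_lit 11) nil
  nil) nil) nil)) (node (nat_lit 5) (nat_lit 110834) (nat_lit 8) (node (nat_lit 4) (nat_lit
  113583) (nat_lit 9) nil nil) (node (nat_lit 8) (nat_lit 114101) (nat_lit 8) nil nil))) (node
  (nat_lit 4) (nat_lit 103903) (nat_lit 7) (node (nat_lit 6) (nat_lit 112838) (nat_lit 8) (node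
  (nat_lit 5) (nat_lit 114536) (nat_lit 9) (node (nat_lit 6) (nat_lit 116529) (nat_lit 10) nil
  (node (nat_lit 4) (nat_lit 108322) (nat_lit 10) nil nil)) (node (nat_lit 4) (nat_lit 115522)
  (nat_lit 9) (node (nat_lit 5) (nat_lit 117515) (nat_lit 10) nil nil) nil)) (node (nat_lit 5)
  (nat_lit 110686) (nat_lit 8) (node (nat_lit 6) (nat_lit 114214) (nat_lit 9) nil nil) (node
  (nat_lit 8) (nat_lit 113831) (nat_lit 8) nil nil))) (node (nat_lit 8) (nat_lit 114530) (nat_lit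
  7) (node (nat_lit 4) (nat_lit 113253) (nat_lit 8) (node (nat_lit 6) (nat_lit 113253) (nat_lit 9)
  nil (node (nat_lit 5) (nat_lit 113253) (nat_lit 9) nil nil)) (node (nat_lit 6) (nat_lit 114530)
  (nat_lit 8) nil nil)) (node (nat_lit 0) (nat_lit 112865) (nat_lit 7) nil nil)))) (node (nat_lit
  4) (nat_lit 0) (nat_lit 6) (node (nat_lit 5) (nat_lit 103055) (nat_lit 7) (node (nat_lit 6)
  (nat_lit 110439) (nat_lit 8) (node (nat_lit 5) (nat_lit 111834) (nat_lit 9) (node (nat_lit 4)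
  (nat_lit 106906) (nat_lit 10) (node (nat_lit 5) (nat_lit 106585) (nat_lit 11) nil nil) nil)
  (node (nat_lit 4) (nat_lit 114370) (nat_lit 9) (node (nat_lit 6) (nat_lit 113575) (nat_lit 10)
  nil (node (nat_lit 5) (nat_lit 116364) (nat_lit 10) nil nil)) nil)) (node (nat_lit 4) (nat_lit
  109243) (nat_lit 8) (node (nat_lit 6) (nat_lit 110971) (nat_lit 9) nil nil) (node (nat_lit 8)
  (nat_lit 114725) (nat_lit 8) nil nil))) (node (nat_lit 6) (nat_lit 102911) (nat_lit 7) (node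
  (nat_lit 5) (nat_lit 110706) (nat_lit 8) (node (nat_lit 6) (nat_lit 114186) (nat_lit 9) (node
  (nat_lit 4) (nat_lit 116179) (nat_lit 10) nil nil) (node (nat_lit 4) (nat_lit 113555) (nat_lit
  9) (node (nat_lit 5) (nat_lit 115549) (nat_lit 10) nil nil) nil)) (node (nat_lit 4) (nat_lit
  110680) (nat_lit 8) (node (nat_lit 5) (nat_lit 113217) (nat_lit 9) nil nil) (node (nat_lit 8)
  (nat_lit 113867) (nat_lit 8) nil nil))) (node (nat_lit 0) (nat_lit 104274) (nat_lit 7) nil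
  nil))) (node (nat_lit 0) (nat_lit 0) (nat_lit 6) (node (nat_lit 5) (nat_lit 109678) (nat_lit 7)
  nil (node (nat_lit 6) (nat_lit 107429) (nat_lit 7) nil (node (nat_lit 4) (nat_lit 105344)
  (nat_lit 7) nil (node (nat_lit 8) (nat_lit 110079) (nat_lit 7) nil (node (nat_lit 0) (nat_lit
  110079) (nat_lit 7) nil nil))))) nil)))) nil)))

noncomputable def t404 : Tr :=
  (node (nat_lit 6) (nat_lit 0) (nat_lit 6) (node (nat_lit 0) (nat_lit 0) (nat_lit 7) (node
  (nat_lit 6) (nat_lit 0) (nat_lit 8) (node (nat_lit 4) (nat_lit 93939) (nat_lit 9) (node (nat_lit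
  5) (nat_lit 103467) (nat_lit 10) (node (nat_lit 6) (nat_lit 105870) (nat_lit 11) (node (nat_lit
  5) (nat_lit 103617) (nat_lit 12) nil nil) (node (nat_lit 4) (nat_lit 107050) (nat_lit 11) (node
  (nat_lit 6) (nat_lit 103117) (nat_lit 12) nil nil) (node (nat_lit 10) (nat_lit 107265) (nat_lit
  11) nil (node (nat_lit 0) (nat_lit 107265) (nat_lit 11) nil nil)))) (node (nat_lit 10) (nat_lit
  105814) (nat_lit 10) (node (nat_lit 6) (nat_lit 105800) (nat_lit 11) (node (nat_lit 10) (nat_lit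
  107269) (nat_lit 12) nil (node (nat_lit 5) (nat_lit 105800) (nat_lit 12) nil nil)) (node
  (nat_lit 4) (nat_lit 105814) (nat_lit 11) nil nil)) (node (nat_lit 6) (nat_lit 102224) (nat_lit
  10) (node (nat_lit 10) (nat_lit 107491) (nat_lit 11) nil (node (nat_lit 5) (nat_lit 106660)
  (nat_lit 11) nil nil)) (node (nat_lit 0) (nat_lit 103079) (nat_lit 10) nil nil)))) (node
  (nat_lit 5) (nat_lit 95452) (nat_lit 9) (node (nat_lit 4) (nat_lit 102508) (nat_lit 10) (node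
  (nat_lit 6) (nat_lit 103661) (nat_lit 11) (node (nat_lit 4) (nat_lit 100807) (nat_lit 12) nil
  nil) (node (nat_lit 5) (nat_lit 105990) (nat_lit 11) nil (node (nat_lit 0) (nat_lit 106306)
  (nat_lit 11) nil nil))) (node (nat_lit 6) (nat_lit 101095) (nat_lit 10) (node (nat_lit 4)
  (nat_lit 104018) (nat_lit 11) nil (node (nat_lit 10) (nat_lit 106362) (nat_lit 11) nil (node
  (nat_lit 0) (nat_lit 104893) (nat_lit 11) nil nil))) (node (nat_lit 10) (nat_lit 105307)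
  (nat_lit 10) nil (node (nat_lit 0) (nat_lit 104444) (nat_lit 10) nil nil)))) (node (nat_lit 0)
  (nat_lit 100513) (nat_lit 9) (node (nat_lit 10) (nat_lit 104741) (nat_lit 10) (node (nat_lit 6)
  (nat_lit 104741) (nat_lit 11) nil nil) (node (nat_lit 6) (nat_lit 99829) (nat_lit 10) (node
  (nat_lit 10) (nat_lit 101474) (nat_lit 11) nil nil) (node (nat_lit 4) (nat_lit 100513) (nat_lit
  10) nil (node (nat_lit 0) (nat_lit 102561) (nat_lit 10) nil (node (nat_lit 5) (nat_lit 100513)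
  (nat_lit 10) nil nil))))) nil))) (node (nat_lit 4) (nat_lit 0) (nat_lit 8) (node (nat_lit 10)
  (nat_lit 100530) (nat_lit 9) (node (nat_lit 6) (nat_lit 101818) (nat_lit 10) (node (nat_lit 10)
  (nat_lit 106259) (nat_lit 11) (node (nat_lit 4) (nat_lit 106259) (nat_lit 12) nil nil) nil) nil)
  (node (nat_lit 5) (nat_lit 94991) (nat_lit 9) (node (nat_lit 6) (nat_lit 98695) (nat_lit 10)
  (node (nat_lit 5) (nat_lit 96638) (nat_lit 11) nil nil) (node (nat_lit 4) (nat_lit 95539)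
  (nat_lit 10) nil nil)) (node (nat_lit 6) (nat_lit 93866) (nat_lit 9) (node (nat_lit 4) (nat_lit
  98899) (nat_lit 10) (node (nat_lit 10) (nat_lit 102697) (nat_lit 11) nil nil) (node (nat_lit 5)
  (nat_lit 94414) (nat_lit 10) nil nil)) (node (nat_lit 0) (nat_lit 96306) (nat_lit 9) nil nil))))
  (node (nat_lit 5) (nat_lit 0) (nat_lit 8) (node (nat_lit 6) (nat_lit 95455) (nat_lit 9) (node
  (nat_lit 5) (nat_lit 99428) (nat_lit 10) (node (nat_lit 10) (nat_lit 103226) (nat_lit 11) nil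
  nil) (node (nat_lit 4) (nat_lit 99934) (nat_lit 10) nil nil)) (node (nat_lit 10) (nat_lit
  101910) (nat_lit 9) (node (nat_lit 6) (nat_lit 101314) (nat_lit 10) (node (nat_lit 10) (nat_lit
  102959) (nat_lit 11) nil nil) nil) (node (nat_lit 4) (nat_lit 94918) (nat_lit 9) (node (nat_lit
  6) (nat_lit 95734) (nat_lit 10) nil (node (nat_lit 5) (nat_lit 98522) (nat_lit 10) nil nil))
  (node (nat_lit 0) (nat_lit 96864) (nat_lit 9) nil nil)))) (node (nat_lit 0) (nat_lit 95028)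
  (nat_lit 8) (node (nat_lit 6) (nat_lit 98425) (nat_lit 9) (node (nat_lit 10) (nat_lit 105915)
  (nat_lit 10) (node (nat_lit 6) (nat_lit 105915) (nat_lit 11) nil nil) (node (nat_lit 11)
  (nat_lit 101453) (nat_lit 10) nil nil)) (node (nat_lit 10) (nat_lit 101038) (nat_lit 9) (node
  (nat_lit 6) (nat_lit 101038) (nat_lit 10) nil nil) nil)) nil)))) (node (nat_lit 4) (nat_lit 0)
  (nat_lit 7) (node (nat_lit 0) (nat_lit 0) (nat_lit 8) (node (nat_lit 6) (nat_lit 82519) (nat_lit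
  9) (node (nat_lit 4) (nat_lit 88944) (nat_lit 10) (node (nat_lit 6) (nat_lit 96518) (nat_lit 11)
  (node (nat_lit 5) (nat_lit 101406) (nat_lit 12) (node (nat_lit 4) (nat_lit 101402) (nat_lit 13)
  (node (nat_lit 5) (nat_lit 100035) (nat_lit 14) nil nil) (node (nat_lit 6) (nat_lit 100895)
  (nat_lit 13) nil nil)) (node (nat_lit 11) (nat_lit 103531) (nat_lit 12) (node (nat_lit 4)
  (nat_lit 103531) (nat_lit 13) nil (node (nat_lit 6) (nat_lit 103531) (nat_lit 13) nil nil))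
  (node (nat_lit 0) (nat_lit 102342) (nat_lit 12) nil nil))) (node (nat_lit 5) (nat_lit 97246)
  (nat_lit 11) (node (nat_lit 6) (nat_lit 99390) (nat_lit 12) nil (node (nat_lit 4) (nat_lit
  97962) (nat_lit 12) nil (node (nat_lit 11) (nat_lit 101796) (nat_lit 12) nil (node (nat_lit 0)
  (nat_lit 99589) (nat_lit 12) nil nil)))) (node (nat_lit 0) (nat_lit 97759) (nat_lit 11) nil
  nil))) (node (nat_lit 11) (nat_lit 94030) (nat_lit 10) (node (nat_lit 4) (nat_lit 94030)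
  (nat_lit 11) nil nil) nil)) (node (nat_lit 4) (nat_lit 82959) (nat_lit 9) (node (nat_lit 6)
  (nat_lit 89482) (nat_lit 10) (node (nat_lit 11) (nat_lit 99264) (nat_lit 11) (node (nat_lit 6)
  (nat_lit 99264) (nat_lit 12) (node (nat_lit 4) (nat_lit 100231) (nat_lit 13) nil nil) nil) nil)
  nil) (node (nat_lit 5) (nat_lit 78735) (nat_lit 9) nil (node (nat_lit 0) (nat_lit 84101)
  (nat_lit 9) nil nil)))) nil) (node (nat_lit 5) (nat_lit 0) (nat_lit 7) (node (nat_lit 0)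
  (nat_lit 0) (nat_lit 8) (node (nat_lit 6) (nat_lit 92158) (nat_lit 9) (node (nat_lit 5) (nat_lit
  98716) (nat_lit 10) (node (nat_lit 6) (nat_lit 103452) (nat_lit 11) (node (nat_lit 11) (nat_lit
  105795) (nat_lit 12) nil (node (nat_lit 4) (nat_lit 105565) (nat_lit 12) nil nil)) (node
  (nat_lit 4) (nat_lit 104580) (nat_lit 11) (node (nat_lit 6) (nat_lit 106577) (nat_lit 12) nil
  (node (nat_lit 5) (nat_lit 106694) (nat_lit 12) nil (node (nat_lit 11) (nat_lit 106924) (nat_lit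
  12) nil nil))) (node (nat_lit 0) (nat_lit 105341) (nat_lit 11) nil nil))) nil) (node (nat_lit 5)
  (nat_lit 92451) (nat_lit 9) (node (nat_lit 6) (nat_lit 94980) (nat_lit 10) (node (nat_lit 11)
  (nat_lit 103235) (nat_lit 11) (node (nat_lit 6) (nat_lit 103235) (nat_lit 12) nil nil) nil) nil)
  (node (nat_lit 4) (nat_lit 91942) (nat_lit 9) (node (nat_lit 5) (nat_lit 91242) (nat_lit 10) nil
  nil) (node (nat_lit 0) (nat_lit 93302) (nat_lit 9) nil nil)))) nil) nil))) (node (nat_lit 0)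
  (nat_lit 0) (nat_lit 6) (node (nat_lit 6) (nat_lit 0) (nat_lit 7) (node (nat_lit 4) (nat_lit 0)
  (nat_lit 8) (node (nat_lit 6) (nat_lit 104682) (nat_lit 9) (node (nat_lit 5) (nat_lit 108653)
  (nat_lit 10) (node (nat_lit 4) (nat_lit 107598) (nat_lit 11) (node (nat_lit 5) (nat_lit 104485)
  (nat_lit 12) (node (nat_lit 6) (nat_lit 93744) (nat_lit 13) (node (nat_lit 5) (nat_lit 73441)
  (nat_lit 14) (node (nat_lit 4) (nat_lit 72854) (nat_lit 15) nil nil) nil) nil) nil) nil) nil)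
  (node (nat_lit 5) (nat_lit 104246) (nat_lit 9) (node (nat_lit 6) (nat_lit 107538) (nat_lit 10)
  nil (node (nat_lit 4) (nat_lit 104795) (nat_lit 10) nil nil)) (node (nat_lit 9) (nat_lit 107615)
  (nat_lit 9) nil (node (nat_lit 0) (nat_lit 107615) (nat_lit 9) nil nil)))) (node (nat_lit 9)
  (nat_lit 108107) (nat_lit 8) (node (nat_lit 4) (nat_lit 108107) (nat_lit 9) (node (nat_lit 6)
  (nat_lit 108107) (nat_lit 10) nil (node (nat_lit 5) (nat_lit 108107) (nat_lit 10) nil nil))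
  (node (nat_lit 5) (nat_lit 108107) (nat_lit 9) (node (nat_lit 6) (nat_lit 108107) (nat_lit 10)
  nil nil) nil)) (node (nat_lit 5) (nat_lit 0) (nat_lit 8) (node (nat_lit 4) (nat_lit 103600)
  (nat_lit 9) (node (nat_lit 5) (nat_lit 107205) (nat_lit 10) nil (node (nat_lit 6) (nat_lit
  105292) (nat_lit 10) nil nil)) (node (nat_lit 6) (nat_lit 104474) (nat_lit 9) (node (nat_lit 4)
  (nat_lit 108078) (nat_lit 10) nil nil) (node (nat_lit 9) (nat_lit 106886) (nat_lit 9) nil (node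
  (nat_lit 0) (nat_lit 106886) (nat_lit 9) nil nil)))) (node (nat_lit 0) (nat_lit 103974) (nat_lit
  8) nil nil)))) (node (nat_lit 5) (nat_lit 0) (nat_lit 7) (node (nat_lit 9) (nat_lit 110409)
  (nat_lit 8) (node (nat_lit 4) (nat_lit 110409) (nat_lit 9) (node (nat_lit 5) (nat_lit 110409)
  (nat_lit 10) nil nil) (node (nat_lit 6) (nat_lit 110409) (nat_lit 9) (node (nat_lit 5) (nat_lit
  110409) (nat_lit 10) nil nil) nil)) (node (nat_lit 4) (nat_lit 0) (nat_lit 8) (node (nat_lit 6)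
  (nat_lit 105077) (nat_lit 9) (node (nat_lit 5) (nat_lit 106207) (nat_lit 10) (node (nat_lit 4)
  (nat_lit 107146) (nat_lit 11) (node (nat_lit 5) (nat_lit 104033) (nat_lit 12) (node (nat_lit 6)
  (nat_lit 97982) (nat_lit 13) (node (nat_lit 5) (nat_lit 87849) (nat_lit 14) (node (nat_lit 4)
  (nat_lit 73317) (nat_lit 15) nil nil) nil) nil) nil) nil) (node (nat_lit 4) (nat_lit 108681)
  (nat_lit 10) nil nil)) (node (nat_lit 5) (nat_lit 107369) (nat_lit 9) (node (nat_lit 6) (nat_lit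
  108185) (nat_lit 10) nil nil) (node (nat_lit 0) (nat_lit 109364) (nat_lit 9) nil nil))) (node
  (nat_lit 6) (nat_lit 0) (nat_lit 8) (node (nat_lit 4) (nat_lit 103980) (nat_lit 9) (node
  (nat_lit 6) (nat_lit 104796) (nat_lit 10) nil (node (nat_lit 5) (nat_lit 107584) (nat_lit 10)
  nil nil)) (node (nat_lit 5) (nat_lit 106775) (nat_lit 9) (node (nat_lit 4) (nat_lit 110651)
  (nat_lit 10) nil nil) (node (nat_lit 9) (nat_lit 108640) (nat_lit 9) nil (node (nat_lit 0)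
  (nat_lit 108640) (nat_lit 9) nil nil)))) (node (nat_lit 0) (nat_lit 108375) (nat_lit 8) nil
  nil)))) (node (nat_lit 4) (nat_lit 0) (nat_lit 7) (node (nat_lit 5) (nat_lit 0) (nat_lit 8)
  (node (nat_lit 4) (nat_lit 103875) (nat_lit 9) (node (nat_lit 6) (nat_lit 102778) (nat_lit 10)
  (node (nat_lit 4) (nat_lit 99084) (nat_lit 11) (node (nat_lit 5) (nat_lit 96116) (nat_lit 12)
  nil nil) nil) (node (nat_lit 9) (nat_lit 110507) (nat_lit 10) nil nil)) (node (nat_lit 6)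
  (nat_lit 105335) (nat_lit 9) (node (nat_lit 5) (nat_lit 109778) (nat_lit 10) (node (nat_lit 4)
  (nat_lit 110444) (nat_lit 11) (node (nat_lit 5) (nat_lit 111923) (nat_lit 12) (node (nat_lit 6)
  (nat_lit 112645) (nat_lit 13) nil nil) nil) nil) (node (nat_lit 4) (nat_lit 108940) (nat_lit 10)
  nil nil)) (node (nat_lit 9) (nat_lit 108767) (nat_lit 9) nil (node (nat_lit 0) (nat_lit 108767)
  (nat_lit 9) nil nil)))) (node (nat_lit 6) (nat_lit 98315) (nat_lit 8) (node (nat_lit 4) (nat_lit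
  106187) (nat_lit 9) (node (nat_lit 5) (nat_lit 109791) (nat_lit 10) nil nil) (node (nat_lit 5)
  (nat_lit 106358) (nat_lit 9) (node (nat_lit 4) (nat_lit 106907) (nat_lit 10) nil (node (nat_lit
  6) (nat_lit 104502) (nat_lit 10) nil nil)) (node (nat_lit 9) (nat_lit 108598) (nat_lit 9) nil
  nil))) (node (nat_lit 0) (nat_lit 107492) (nat_lit 8) nil nil))) (node (nat_lit 0) (nat_lit 0)
  (nat_lit 7) (node (nat_lit 4) (nat_lit 100377) (nat_lit 8) (node (nat_lit 10) (nat_lit 106135)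
  (nat_lit 9) nil (node (nat_lit 5) (nat_lit 100377) (nat_lit 9) nil (node (nat_lit 6) (nat_lit
  100377) (nat_lit 9) nil (node (nat_lit 0) (nat_lit 106135) (nat_lit 9) nil nil)))) (node
  (nat_lit 9) (nat_lit 109735) (nat_lit 8) nil (node (nat_lit 6) (nat_lit 101602) (nat_lit 8) nil
  (node (nat_lit 5) (nat_lit 103413) (nat_lit 8) nil (node (nat_lit 0) (nat_lit 105916) (nat_lit
  8) nil nil))))) nil)))) (node (nat_lit 5) (nat_lit 0) (nat_lit 6) (node (nat_lit 0) (nat_lit 0)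
  (nat_lit 7) (node (nat_lit 5) (nat_lit 0) (nat_lit 8) (node (nat_lit 4) (nat_lit 70857) (nat_lit
  9) (node (nat_lit 10) (nat_lit 76241) (nat_lit 10) (node (nat_lit 5) (nat_lit 76644) (nat_lit
  11) (node (nat_lit 10) (nat_lit 78134) (nat_lit 12) (node (nat_lit 4) (nat_lit 78134) (nat_lit
  13) (node (nat_lit 5) (nat_lit 78134) (nat_lit 14) (node (nat_lit 4) (nat_lit 77793) (nat_lit
  15) nil nil) nil) nil) (node (nat_lit 6) (nat_lit 77023) (nat_lit 12) nil (node (nat_lit 0)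
  (nat_lit 77440) (nat_lit 12) nil nil))) (node (nat_lit 4) (nat_lit 76241) (nat_lit 11) (node
  (nat_lit 5) (nat_lit 76241) (nat_lit 12) nil nil) nil)) (node (nat_lit 6) (nat_lit 73994)
  (nat_lit 10) (node (nat_lit 5) (nat_lit 75532) (nat_lit 11) nil (node (nat_lit 4) (nat_lit
  75620) (nat_lit 11) nil (node (nat_lit 0) (nat_lit 76094) (nat_lit 11) nil nil))) (node (nat_lit
  5) (nat_lit 73591) (nat_lit 10) (node (nat_lit 6) (nat_lit 74801) (nat_lit 11) nil nil) (node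
  (nat_lit 0) (nat_lit 75690) (nat_lit 10) nil nil)))) (node (nat_lit 6) (nat_lit 70403) (nat_lit
  9) (node (nat_lit 4) (nat_lit 72468) (nat_lit 10) (node (nat_lit 5) (nat_lit 73077) (nat_lit 11)
  nil (node (nat_lit 6) (nat_lit 74467) (nat_lit 11) nil (node (nat_lit 10) (nat_lit 74568)
  (nat_lit 11) nil (node (nat_lit 0) (nat_lit 74568) (nat_lit 11) nil nil)))) (node (nat_lit 5)
  (nat_lit 74141) (nat_lit 10) (node (nat_lit 10) (nat_lit 77036) (nat_lit 11) (node (nat_lit 6)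
  (nat_lit 77036) (nat_lit 12) nil nil) (node (nat_lit 4) (nat_lit 75768) (nat_lit 11) nil nil))
  (node (nat_lit 10) (nat_lit 76241) (nat_lit 10) (node (nat_lit 6) (nat_lit 76241) (nat_lit 11)
  nil nil) (node (nat_lit 0) (nat_lit 76241) (nat_lit 10) nil nil)))) (node (nat_lit 0) (nat_lit
  74801) (nat_lit 9) (node (nat_lit 10) (nat_lit 76241) (nat_lit 10) (node (nat_lit 5) (nat_lit
  76241) (nat_lit 11) nil nil) (node (nat_lit 5) (nat_lit 75351) (nat_lit 10) (node (nat_lit 10)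
  (nat_lit 76241) (nat_lit 11) nil nil) (node (nat_lit 0) (nat_lit 75690) (nat_lit 10) nil (node
  (nat_lit 4) (nat_lit 74801) (nat_lit 10) nil nil)))) nil))) (node (nat_lit 4) (nat_lit 0)
  (nat_lit 8) (node (nat_lit 10) (nat_lit 74388) (nat_lit 9) (node (nat_lit 5) (nat_lit 74938)
  (nat_lit 10) (node (nat_lit 10) (nat_lit 77052) (nat_lit 11) (node (nat_lit 4) (nat_lit 76733)
  (nat_lit 12) (node (nat_lit 5) (nat_lit 77039) (nat_lit 13) (node (nat_lit 4) (nat_lit 77656)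
  (nat_lit 14) (node (nat_lit 6) (nat_lit 77618) (nat_lit 15) nil (node (nat_lit 10) (nat_lit
  78134) (nat_lit 15) nil nil)) (node (nat_lit 10) (nat_lit 77962) (nat_lit 14) nil nil)) (node
  (nat_lit 6) (nat_lit 76733) (nat_lit 13) nil nil)) nil) nil) nil) (node (nat_lit 5) (nat_lit
  69696) (nat_lit 9) (node (nat_lit 4) (nat_lit 72003) (nat_lit 10) (node (nat_lit 10) (nat_lit
  75499) (nat_lit 11) nil nil) (node (nat_lit 6) (nat_lit 71956) (nat_lit 10) nil nil)) (node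
  (nat_lit 6) (nat_lit 68702) (nat_lit 9) (node (nat_lit 5) (nat_lit 69998) (nat_lit 10) nil nil)
  (node (nat_lit 0) (nat_lit 70087) (nat_lit 9) nil nil)))) (node (nat_lit 6) (nat_lit 65798)
  (nat_lit 8) (node (nat_lit 5) (nat_lit 69593) (nat_lit 9) (node (nat_lit 6) (nat_lit 72729)
  (nat_lit 10) (node (nat_lit 10) (nat_lit 74829) (nat_lit 11) nil nil) nil) (node (nat_lit 10)
  (nat_lit 73919) (nat_lit 9) (node (nat_lit 5) (nat_lit 73919) (nat_lit 10) (node (nat_lit 10)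
  (nat_lit 74808) (nat_lit 11) nil nil) nil) (node (nat_lit 4) (nat_lit 66723) (nat_lit 9) (node
  (nat_lit 5) (nat_lit 68983) (nat_lit 10) nil nil) nil))) (node (nat_lit 0) (nat_lit 71999)
  (nat_lit 8) (node (nat_lit 5) (nat_lit 72704) (nat_lit 9) (node (nat_lit 10) (nat_lit 75277)
  (nat_lit 10) (node (nat_lit 5) (nat_lit 75277) (nat_lit 11) nil nil) nil) (node (nat_lit 10)
  (nat_lit 74388) (nat_lit 9) (node (nat_lit 5) (nat_lit 74388) (nat_lit 10) nil nil) nil))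
  nil)))) (node (nat_lit 6) (nat_lit 0) (nat_lit 7) (node (nat_lit 0) (nat_lit 0) (nat_lit 8)
  (node (nat_lit 5) (nat_lit 69431) (nat_lit 9) (node (nat_lit 6) (nat_lit 71733) (nat_lit 10)
  (node (nat_lit 5) (nat_lit 74720) (nat_lit 11) (node (nat_lit 11) (nat_lit 77215) (nat_lit 12)
  (node (nat_lit 5) (nat_lit 77215) (nat_lit 13) nil nil) (node (nat_lit 4) (nat_lit 75882)
  (nat_lit 12) nil (node (nat_lit 0) (nat_lit 75988) (nat_lit 12) nil nil))) (node (nat_lit 4)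
  (nat_lit 73859) (nat_lit 11) (node (nat_lit 5) (nat_lit 74690) (nat_lit 12) nil (node (nat_lit
  6) (nat_lit 74332) (nat_lit 12) nil (node (nat_lit 11) (nat_lit 76354) (nat_lit 12) nil nil)))
  (node (nat_lit 0) (nat_lit 75868) (nat_lit 11) nil nil))) (node (nat_lit 4) (nat_lit 69431)
  (nat_lit 10) nil nil)) (node (nat_lit 6) (nat_lit 67805) (nat_lit 9) (node (nat_lit 5) (nat_lit
  68036) (nat_lit 10) (node (nat_lit 11) (nat_lit 70136) (nat_lit 11) nil nil) nil) (node (nat_lit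
  4) (nat_lit 67805) (nat_lit 9) (node (nat_lit 6) (nat_lit 67707) (nat_lit 10) nil nil) (node
  (nat_lit 0) (nat_lit 71119) (nat_lit 9) nil nil)))) nil) nil)) nil)))

noncomputable def t405 : Tr :=
  (node (nat_lit 0) (nat_lit 0) (nat_lit 6) (node (nat_lit 4) (nat_lit 0) (nat_lit 7) (node
  (nat_lit 9) (nat_lit 0) (nat_lit 8) (node (nat_lit 5) (nat_lit 57833) (nat_lit 9) (node (nat_lit
  4) (nat_lit 60012) (nat_lit 10) (node (nat_lit 5) (nat_lit 60294) (nat_lit 11) (node (nat_lit 7)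
  (nat_lit 61179) (nat_lit 12) (node (nat_lit 4) (nat_lit 61015) (nat_lit 13) (node (nat_lit 5)
  (nat_lit 59477) (nat_lit 14) (node (nat_lit 4) (nat_lit 57034) (nat_lit 15) (node (nat_lit 7)
  (nat_lit 54498) (nat_lit 16) nil nil) nil) nil) nil) nil) (node (nat_lit 7) (nat_lit 60539)
  (nat_lit 11) nil nil)) (node (nat_lit 7) (nat_lit 58708) (nat_lit 10) nil (node (nat_lit 9)
  (nat_lit 61131) (nat_lit 10) nil (node (nat_lit 0) (nat_lit 59485) (nat_lit 10) nil nil))))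
  (node (nat_lit 7) (nat_lit 58437) (nat_lit 9) (node (nat_lit 4) (nat_lit 58092) (nat_lit 10)
  (node (nat_lit 7) (nat_lit 58619) (nat_lit 11) nil (node (nat_lit 5) (nat_lit 59285) (nat_lit
  11) nil nil)) nil) (node (nat_lit 0) (nat_lit 57796) (nat_lit 9) nil nil))) (node (nat_lit 7)
  (nat_lit 0) (nat_lit 8) (node (nat_lit 5) (nat_lit 55111) (nat_lit 9) (node (nat_lit 7) (nat_lit
  53622) (nat_lit 10) (node (nat_lit 4) (nat_lit 51861) (nat_lit 11) (node (nat_lit 5) (nat_lit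
  48567) (nat_lit 12) (node (nat_lit 4) (nat_lit 36376) (nat_lit 13) (node (nat_lit 7) (nat_lit
  32234) (nat_lit 14) (node (nat_lit 5) (nat_lit 30929) (nat_lit 15) nil nil) nil) nil) nil) nil)
  (node (nat_lit 4) (nat_lit 55754) (nat_lit 10) nil nil)) (node (nat_lit 4) (nat_lit 55069)
  (nat_lit 9) (node (nat_lit 5) (nat_lit 58960) (nat_lit 10) (node (nat_lit 7) (nat_lit 60154)
  (nat_lit 11) nil nil) nil) (node (nat_lit 9) (nat_lit 59080) (nat_lit 9) nil (node (nat_lit 0)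
  (nat_lit 56053) (nat_lit 9) nil nil)))) (node (nat_lit 5) (nat_lit 49467) (nat_lit 8) (node
  (nat_lit 4) (nat_lit 56826) (nat_lit 9) (node (nat_lit 7) (nat_lit 59978) (nat_lit 10) (node
  (nat_lit 5) (nat_lit 59681) (nat_lit 11) nil (node (nat_lit 4) (nat_lit 53300) (nat_lit 11) nil
  nil)) (node (nat_lit 9) (nat_lit 61179) (nat_lit 10) nil nil)) (node (nat_lit 7) (nat_lit 55013)
  (nat_lit 9) (node (nat_lit 4) (nat_lit 57166) (nat_lit 10) nil (node (nat_lit 5) (nat_lit 56361)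
  (nat_lit 10) nil nil)) (node (nat_lit 9) (nat_lit 59748) (nat_lit 9) (node (nat_lit 5) (nat_lit
  59748) (nat_lit 10) nil nil) nil))) (node (nat_lit 0) (nat_lit 54630) (nat_lit 8) nil nil))))
  (node (nat_lit 7) (nat_lit 0) (nat_lit 7) (node (nat_lit 9) (nat_lit 0) (nat_lit 8) (node
  (nat_lit 5) (nat_lit 56723) (nat_lit 9) (node (nat_lit 7) (nat_lit 59063) (nat_lit 10) (node
  (nat_lit 5) (nat_lit 59627) (nat_lit 11) (node (nat_lit 4) (nat_lit 58274) (nat_lit 12) nil nil)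
  (node (nat_lit 4) (nat_lit 61026) (nat_lit 11) nil nil)) (node (nat_lit 4) (nat_lit 55839)
  (nat_lit 10) nil (node (nat_lit 9) (nat_lit 60020) (nat_lit 10) nil (node (nat_lit 0) (nat_lit
  58375) (nat_lit 10) nil nil)))) (node (nat_lit 4) (nat_lit 56926) (nat_lit 9) (node (nat_lit 7)
  (nat_lit 55922) (nat_lit 10) (node (nat_lit 4) (nat_lit 57884) (nat_lit 11) nil (node (nat_lit
  5) (nat_lit 54866) (nat_lit 11) nil nil)) nil) (node (nat_lit 0) (nat_lit 56284) (nat_lit 9) nil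
  nil))) (node (nat_lit 5) (nat_lit 48030) (nat_lit 8) (node (nat_lit 4) (nat_lit 54781) (nat_lit
  9) (node (nat_lit 7) (nat_lit 54692) (nat_lit 10) nil (node (nat_lit 5) (nat_lit 58507) (nat_lit
  10) nil nil)) (node (nat_lit 7) (nat_lit 54665) (nat_lit 9) (node (nat_lit 4) (nat_lit 58793)
  (nat_lit 10) (node (nat_lit 5) (nat_lit 59385) (nat_lit 11) nil nil) (node (nat_lit 9) (nat_lit
  58471) (nat_lit 10) nil nil)) nil)) (node (nat_lit 4) (nat_lit 0) (nat_lit 8) (node (nat_lit 5)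
  (nat_lit 55984) (nat_lit 9) (node (nat_lit 4) (nat_lit 56251) (nat_lit 10) (node (nat_lit 7)
  (nat_lit 56519) (nat_lit 11) nil nil) (node (nat_lit 7) (nat_lit 59012) (nat_lit 10) nil nil))
  (node (nat_lit 7) (nat_lit 54964) (nat_lit 9) (node (nat_lit 5) (nat_lit 58107) (nat_lit 10)
  (node (nat_lit 4) (nat_lit 57051) (nat_lit 11) nil nil) nil) (node (nat_lit 9) (nat_lit 59032)
  (nat_lit 9) nil (node (nat_lit 0) (nat_lit 56004) (nat_lit 9) nil nil)))) (node (nat_lit 0)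
  (nat_lit 53287) (nat_lit 8) nil nil)))) (node (nat_lit 5) (nat_lit 0) (nat_lit 7) (node (nat_lit
  7) (nat_lit 0) (nat_lit 8) (node (nat_lit 5) (nat_lit 53972) (nat_lit 9) (node (nat_lit 4)
  (nat_lit 52481) (nat_lit 10) nil (node (nat_lit 9) (nat_lit 59423) (nat_lit 10) nil nil)) (node
  (nat_lit 4) (nat_lit 52559) (nat_lit 9) (node (nat_lit 7) (nat_lit 54712) (nat_lit 10) nil (node
  (nat_lit 5) (nat_lit 53907) (nat_lit 10) nil nil)) (node (nat_lit 9) (nat_lit 54056) (nat_lit 9)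
  nil (node (nat_lit 0) (nat_lit 54056) (nat_lit 9) nil nil)))) (node (nat_lit 4) (nat_lit 0)
  (nat_lit 8) (node (nat_lit 5) (nat_lit 54706) (nat_lit 9) (node (nat_lit 7) (nat_lit 57633)
  (nat_lit 10) (node (nat_lit 4) (nat_lit 51290) (nat_lit 11) nil nil) nil) (node (nat_lit 7)
  (nat_lit 55824) (nat_lit 9) (node (nat_lit 4) (nat_lit 57977) (nat_lit 10) nil (node (nat_lit 5)
  (nat_lit 54850) (nat_lit 10) nil nil)) (node (nat_lit 9) (nat_lit 58373) (nat_lit 9) nil (node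
  (nat_lit 0) (nat_lit 55345) (nat_lit 9) nil nil)))) (node (nat_lit 0) (nat_lit 52979) (nat_lit
  8) nil nil))) (node (nat_lit 0) (nat_lit 0) (nat_lit 7) (node (nat_lit 9) (nat_lit 0) (nat_lit
  8) (node (nat_lit 5) (nat_lit 55763) (nat_lit 9) (node (nat_lit 10) (nat_lit 59061) (nat_lit 10)
  nil nil) (node (nat_lit 7) (nat_lit 56453) (nat_lit 9) nil (node (nat_lit 4) (nat_lit 56453)
  (nat_lit 9) nil (node (nat_lit 0) (nat_lit 58521) (nat_lit 9) nil nil)))) (node (nat_lit 5)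
  (nat_lit 0) (nat_lit 8) (node (nat_lit 10) (nat_lit 58971) (nat_lit 9) (node (nat_lit 9)
  (nat_lit 59430) (nat_lit 10) nil nil) (node (nat_lit 7) (nat_lit 51423) (nat_lit 9) nil (node
  (nat_lit 4) (nat_lit 51423) (nat_lit 9) nil (node (nat_lit 9) (nat_lit 54769) (nat_lit 9) nil
  (node (nat_lit 0) (nat_lit 54769) (nat_lit 9) nil nil))))) (node (nat_lit 7) (nat_lit 51823)
  (nat_lit 8) (node (nat_lit 10) (nat_lit 55170) (nat_lit 9) nil nil) (node (nat_lit 4) (nat_lit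
  50128) (nat_lit 8) (node (nat_lit 10) (nat_lit 53474) (nat_lit 9) nil nil) (node (nat_lit 0)
  (nat_lit 54694) (nat_lit 8) nil nil))))) nil)))) (node (nat_lit 4) (nat_lit 0) (nat_lit 6) (node
  (nat_lit 0) (nat_lit 0) (nat_lit 7) (node (nat_lit 4) (nat_lit 0) (nat_lit 8) (node (nat_lit 5)
  (nat_lit 52898) (nat_lit 9) (node (nat_lit 10) (nat_lit 59983) (nat_lit 10) (node (nat_lit 4)
  (nat_lit 61179) (nat_lit 11) (node (nat_lit 10) (nat_lit 61179) (nat_lit 12) (node (nat_lit 5)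
  (nat_lit 61179) (nat_lit 13) nil nil) (node (nat_lit 7) (nat_lit 61179) (nat_lit 12) nil (node
  (nat_lit 0) (nat_lit 61179) (nat_lit 12) nil nil))) (node (nat_lit 5) (nat_lit 59983) (nat_lit
  11) nil nil)) (node (nat_lit 7) (nat_lit 57402) (nat_lit 10) (node (nat_lit 4) (nat_lit 59472)
  (nat_lit 11) nil (node (nat_lit 5) (nat_lit 59384) (nat_lit 11) nil (node (nat_lit 0) (nat_lit
  59458) (nat_lit 11) nil (node (nat_lit 10) (nat_lit 59458) (nat_lit 11) nil nil)))) (node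
  (nat_lit 4) (nat_lit 56759) (nat_lit 10) (node (nat_lit 10) (nat_lit 61179) (nat_lit 11) (node
  (nat_lit 5) (nat_lit 61179) (nat_lit 12) nil nil) (node (nat_lit 7) (nat_lit 58318) (nat_lit 11)
  nil nil)) (node (nat_lit 0) (nat_lit 59588) (nat_lit 10) nil nil)))) (node (nat_lit 7) (nat_lit
  53558) (nat_lit 9) (node (nat_lit 5) (nat_lit 59030) (nat_lit 10) (node (nat_lit 7) (nat_lit
  59306) (nat_lit 11) (node (nat_lit 4) (nat_lit 55939) (nat_lit 12) (node (nat_lit 5) (nat_lit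
  48626) (nat_lit 13) (node (nat_lit 4) (nat_lit 45211) (nat_lit 14) (node (nat_lit 7) (nat_lit
  40743) (nat_lit 15) (node (nat_lit 5) (nat_lit 32872) (nat_lit 16) (node (nat_lit 4) (nat_lit
  33319) (nat_lit 17) nil nil) nil) nil) nil) nil) nil) (node (nat_lit 4) (nat_lit 58836) (nat_lit
  11) nil (node (nat_lit 0) (nat_lit 61179) (nat_lit 11) nil (node (nat_lit 10) (nat_lit 61179)
  (nat_lit 11) nil nil)))) (node (nat_lit 4) (nat_lit 57632) (nat_lit 10) (node (nat_lit 10)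
  (nat_lit 61179) (nat_lit 11) nil (node (nat_lit 5) (nat_lit 59192) (nat_lit 11) nil (node
  (nat_lit 0) (nat_lit 59688) (nat_lit 11) nil nil))) (node (nat_lit 10) (nat_lit 61179) (nat_lit
  10) (node (nat_lit 7) (nat_lit 61179) (nat_lit 11) nil (node (nat_lit 4) (nat_lit 61179)
  (nat_lit 11) nil nil)) (node (nat_lit 0) (nat_lit 60962) (nat_lit 10) nil nil)))) (node (nat_lit
  0) (nat_lit 56744) (nat_lit 9) (node (nat_lit 10) (nat_lit 59927) (nat_lit 10) (node (nat_lit 4)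
  (nat_lit 59927) (nat_lit 11) nil nil) (node (nat_lit 4) (nat_lit 56264) (nat_lit 10) nil (node
  (nat_lit 0) (nat_lit 57972) (nat_lit 10) nil (node (nat_lit 5) (nat_lit 56744) (nat_lit 10) nil
  (node (nat_lit 7) (nat_lit 56744) (nat_lit 10) nil nil))))) nil))) (node (nat_lit 5) (nat_lit 0)
  (nat_lit 8) (node (nat_lit 10) (nat_lit 56591) (nat_lit 9) (node (nat_lit 4) (nat_lit 58533)
  (nat_lit 10) (node (nat_lit 10) (nat_lit 61179) (nat_lit 11) (node (nat_lit 5) (nat_lit 61179)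
  (nat_lit 12) (node (nat_lit 4) (nat_lit 61179) (nat_lit 13) (node (nat_lit 5) (nat_lit 61179)
  (nat_lit 14) nil nil) nil) nil) nil) nil) (node (nat_lit 7) (nat_lit 53148) (nat_lit 9) (node
  (nat_lit 4) (nat_lit 55696) (nat_lit 10) (node (nat_lit 7) (nat_lit 56890) (nat_lit 11) nil nil)
  (node (nat_lit 5) (nat_lit 54496) (nat_lit 10) nil nil)) (node (nat_lit 4) (nat_lit 52487)
  (nat_lit 9) (node (nat_lit 5) (nat_lit 57470) (nat_lit 10) (node (nat_lit 10) (nat_lit 60994)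
  (nat_lit 11) nil nil) (node (nat_lit 7) (nat_lit 54640) (nat_lit 10) nil nil)) (node (nat_lit 0)
  (nat_lit 54773) (nat_lit 9) nil nil)))) (node (nat_lit 7) (nat_lit 47606) (nat_lit 8) (node
  (nat_lit 4) (nat_lit 52347) (nat_lit 9) (node (nat_lit 7) (nat_lit 54856) (nat_lit 10) (node
  (nat_lit 10) (nat_lit 56912) (nat_lit 11) nil nil) nil) (node (nat_lit 10) (nat_lit 56056)
  (nat_lit 9) (node (nat_lit 4) (nat_lit 55576) (nat_lit 10) (node (nat_lit 10) (nat_lit 56438)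
  (nat_lit 11) nil nil) nil) (node (nat_lit 5) (nat_lit 52689) (nat_lit 9) (node (nat_lit 4)
  (nat_lit 50831) (nat_lit 10) nil nil) nil))) (node (nat_lit 0) (nat_lit 51554) (nat_lit 8) (node
  (nat_lit 4) (nat_lit 52814) (nat_lit 9) (node (nat_lit 10) (nat_lit 58066) (nat_lit 10) (node
  (nat_lit 4) (nat_lit 58066) (nat_lit 11) nil nil) (node (nat_lit 11) (nat_lit 54466) (nat_lit
  10) nil nil)) (node (nat_lit 10) (nat_lit 55935) (nat_lit 9) (node (nat_lit 4) (nat_lit 55935)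
  (nat_lit 10) nil nil) nil)) nil)))) (node (nat_lit 5) (nat_lit 0) (nat_lit 7) (node (nat_lit 0)
  (nat_lit 0) (nat_lit 8) (node (nat_lit 4) (nat_lit 50714) (nat_lit 9) (node (nat_lit 5) (nat_lit
  54695) (nat_lit 10) (node (nat_lit 4) (nat_lit 58694) (nat_lit 11) (node (nat_lit 11) (nat_lit
  61179) (nat_lit 12) (node (nat_lit 5) (nat_lit 61179) (nat_lit 13) nil nil) (node (nat_lit 7)
  (nat_lit 59892) (nat_lit 12) (node (nat_lit 5) (nat_lit 59784) (nat_lit 13) nil nil) (node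
  (nat_lit 0) (nat_lit 59923) (nat_lit 12) nil nil))) (node (nat_lit 7) (nat_lit 58123) (nat_lit
  11) (node (nat_lit 4) (nat_lit 59822) (nat_lit 12) nil (node (nat_lit 5) (nat_lit 58699)
  (nat_lit 12) nil (node (nat_lit 11) (nat_lit 59352) (nat_lit 12) nil nil))) (node (nat_lit 0)
  (nat_lit 59577) (nat_lit 11) nil nil))) (node (nat_lit 11) (nat_lit 57944) (nat_lit 10) (node
  (nat_lit 5) (nat_lit 57944) (nat_lit 11) nil nil) nil)) (node (nat_lit 5) (nat_lit 50343)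
  (nat_lit 9) (node (nat_lit 4) (nat_lit 54831) (nat_lit 10) (node (nat_lit 11) (nat_lit 61179)
  (nat_lit 11) (node (nat_lit 4) (nat_lit 61179) (nat_lit 12) (node (nat_lit 5) (nat_lit 61179)
  (nat_lit 13) nil nil) nil) nil) nil) (node (nat_lit 7) (nat_lit 46819) (nat_lit 9) nil (node
  (nat_lit 0) (nat_lit 50049) (nat_lit 9) nil nil)))) nil) nil)) (node (nat_lit 7) (nat_lit 0)
  (nat_lit 6) (node (nat_lit 0) (nat_lit 0) (nat_lit 7) (node (nat_lit 7) (nat_lit 0) (nat_lit 8)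
  (node (nat_lit 5) (nat_lit 46992) (nat_lit 9) (node (nat_lit 4) (nat_lit 53345) (nat_lit 10)
  (node (nat_lit 7) (nat_lit 55610) (nat_lit 11) (node (nat_lit 4) (nat_lit 50989) (nat_lit 12)
  nil nil) (node (nat_lit 5) (nat_lit 56275) (nat_lit 11) (node (nat_lit 7) (nat_lit 53946)
  (nat_lit 12) nil nil) (node (nat_lit 0) (nat_lit 56869) (nat_lit 11) nil (node (nat_lit 10)
  (nat_lit 56869) (nat_lit 11) nil nil)))) (node (nat_lit 10) (nat_lit 54511) (nat_lit 10) (node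
  (nat_lit 7) (nat_lit 56943) (nat_lit 11) (node (nat_lit 10) (nat_lit 60167) (nat_lit 12) (node
  (nat_lit 5) (nat_lit 60167) (nat_lit 13) nil nil) (node (nat_lit 4) (nat_lit 57642) (nat_lit 12)
  nil (node (nat_lit 0) (nat_lit 57713) (nat_lit 12) nil nil))) (node (nat_lit 5) (nat_lit 55020)
  (nat_lit 11) (node (nat_lit 7) (nat_lit 55020) (nat_lit 12) nil nil) nil)) (node (nat_lit 7)
  (nat_lit 51975) (nat_lit 10) (node (nat_lit 4) (nat_lit 53938) (nat_lit 11) nil nil) (node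
  (nat_lit 0) (nat_lit 54397) (nat_lit 10) nil nil)))) (node (nat_lit 4) (nat_lit 48172) (nat_lit
  9) (node (nat_lit 5) (nat_lit 53156) (nat_lit 10) (node (nat_lit 7) (nat_lit 56085) (nat_lit 11)
  nil (node (nat_lit 4) (nat_lit 55586) (nat_lit 11) nil (node (nat_lit 0) (nat_lit 56680)
  (nat_lit 11) nil (node (nat_lit 10) (nat_lit 56680) (nat_lit 11) nil nil)))) (node (nat_lit 7)
  (nat_lit 52733) (nat_lit 10) (node (nat_lit 10) (nat_lit 57783) (nat_lit 11) (node (nat_lit 4)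
  (nat_lit 57783) (nat_lit 12) nil nil) (node (nat_lit 5) (nat_lit 51028) (nat_lit 11) nil (node
  (nat_lit 0) (nat_lit 54788) (nat_lit 11) nil nil))) (node (nat_lit 10) (nat_lit 55578) (nat_lit
  10) (node (nat_lit 4) (nat_lit 55578) (nat_lit 11) nil nil) (node (nat_lit 0) (nat_lit 55578)
  (nat_lit 10) nil nil)))) (node (nat_lit 0) (nat_lit 53014) (nat_lit 9) (node (nat_lit 10)
  (nat_lit 56479) (nat_lit 10) (node (nat_lit 7) (nat_lit 57002) (nat_lit 11) nil nil) (node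
  (nat_lit 7) (nat_lit 53658) (nat_lit 10) (node (nat_lit 10) (nat_lit 54521) (nat_lit 11) nil
  nil) (node (nat_lit 0) (nat_lit 54244) (nat_lit 10) nil (node (nat_lit 5) (nat_lit 53014)
  (nat_lit 10) nil nil)))) nil))) (node (nat_lit 5) (nat_lit 0) (nat_lit 8) (node (nat_lit 10)
  (nat_lit 50683) (nat_lit 9) (node (nat_lit 7) (nat_lit 53611) (nat_lit 10) (node (nat_lit 10)
  (nat_lit 57796) (nat_lit 11) (node (nat_lit 5) (nat_lit 58778) (nat_lit 12) (node (nat_lit 7)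
  (nat_lit 59345) (nat_lit 13) (node (nat_lit 5) (nat_lit 59711) (nat_lit 14) nil nil) nil) nil)
  nil) nil) (node (nat_lit 7) (nat_lit 46768) (nat_lit 9) (node (nat_lit 5) (nat_lit 50424)
  (nat_lit 10) (node (nat_lit 10) (nat_lit 55473) (nat_lit 11) (node (nat_lit 7) (nat_lit 55473)
  (nat_lit 12) nil nil) nil) (node (nat_lit 4) (nat_lit 48921) (nat_lit 10) nil nil)) (node
  (nat_lit 4) (nat_lit 48472) (nat_lit 9) (node (nat_lit 7) (nat_lit 50981) (nat_lit 10) nil (node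
  (nat_lit 5) (nat_lit 47497) (nat_lit 10) nil nil)) (node (nat_lit 0) (nat_lit 49259) (nat_lit 9)
  nil nil)))) (node (nat_lit 4) (nat_lit 0) (nat_lit 8) (node (nat_lit 7) (nat_lit 47809) (nat_lit
  9) (node (nat_lit 4) (nat_lit 52078) (nat_lit 10) (node (nat_lit 10) (nat_lit 54133) (nat_lit
  11) nil nil) (node (nat_lit 5) (nat_lit 46031) (nat_lit 10) nil nil)) (node (nat_lit 10)
  (nat_lit 52439) (nat_lit 9) (node (nat_lit 7) (nat_lit 53083) (nat_lit 10) (node (nat_lit 10)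
  (nat_lit 53945) (nat_lit 11) nil nil) nil) (node (nat_lit 5) (nat_lit 47636) (nat_lit 9) (node
  (nat_lit 7) (nat_lit 50665) (nat_lit 10) nil nil) (node (nat_lit 0) (nat_lit 46484) (nat_lit 9)
  nil nil)))) (node (nat_lit 0) (nat_lit 47530) (nat_lit 8) (node (nat_lit 7) (nat_lit 48863)
  (nat_lit 9) (node (nat_lit 10) (nat_lit 54114) (nat_lit 10) (node (nat_lit 7) (nat_lit 54114)
  (nat_lit 11) nil nil) nil) (node (nat_lit 10) (nat_lit 51674) (nat_lit 9) (node (nat_lit 7)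
  (nat_lit 51674) (nat_lit 10) nil nil) nil)) nil)))) (node (nat_lit 4) (nat_lit 0) (nat_lit 7)
  (node (nat_lit 0) (nat_lit 0) (nat_lit 8) (node (nat_lit 7) (nat_lit 29209) (nat_lit 9) (node
  (nat_lit 4) (nat_lit 32854) (nat_lit 10) (node (nat_lit 5) (nat_lit 36921) (nat_lit 11) (node
  (nat_lit 7) (nat_lit 39374) (nat_lit 12) nil (node (nat_lit 4) (nat_lit 36808) (nat_lit 12) nil
  (node (nat_lit 11) (nat_lit 40357) (nat_lit 12) nil nil))) (node (nat_lit 7) (nat_lit 36586)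
  (nat_lit 11) (node (nat_lit 11) (nat_lit 40776) (nat_lit 12) (node (nat_lit 7) (nat_lit 40776)
  (nat_lit 13) nil nil) (node (nat_lit 5) (nat_lit 35583) (nat_lit 12) nil (node (nat_lit 0)
  (nat_lit 40022) (nat_lit 12) nil nil))) (node (nat_lit 0) (nat_lit 38704) (nat_lit 11) nil
  nil))) (node (nat_lit 5) (nat_lit 29440) (nat_lit 10) nil nil)) (node (nat_lit 4) (nat_lit
  28931) (nat_lit 9) (node (nat_lit 7) (nat_lit 28832) (nat_lit 10) (node (nat_lit 11) (nat_lit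
  30888) (nat_lit 11) nil nil) nil) (node (nat_lit 5) (nat_lit 28884) (nat_lit 9) (node (nat_lit
  4) (nat_lit 28786) (nat_lit 10) nil nil) (node (nat_lit 0) (nat_lit 30434) (nat_lit 9) nil
  nil)))) nil) nil)) nil)))

noncomputable def t406 : Tr :=
  (node (nat_lit 3) (nat_lit 0) (nat_lit 3) (node (nat_lit 4) (nat_lit 0) (nat_lit 4) t403 (node
  (nat_lit 5) (nat_lit 0) (nat_lit 4) (node (nat_lit 4) (nat_lit 0) (nat_lit 5) t404 (node
  (nat_lit 0) (nat_lit 0) (nat_lit 5) (node (nat_lit 6) (nat_lit 0) (nat_lit 6) (node (nat_lit 4)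
  (nat_lit 90707) (nat_lit 7) (node (nat_lit 5) (nat_lit 102947) (nat_lit 8) (node (nat_lit 6)
  (nat_lit 107812) (nat_lit 9) (node (nat_lit 5) (nat_lit 110643) (nat_lit 10) (node (nat_lit 8)
  (nat_lit 39829) (nat_lit 11) nil nil) nil) (node (nat_lit 4) (nat_lit 106666) (nat_lit 9) (node
  (nat_lit 6) (nat_lit 107072) (nat_lit 10) nil nil) nil)) (node (nat_lit 6) (nat_lit 102158)
  (nat_lit 8) (node (nat_lit 5) (nat_lit 104632) (nat_lit 9) (node (nat_lit 4) (nat_lit 100151)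
  (nat_lit 10) nil nil) nil) (node (nat_lit 8) (nat_lit 109739) (nat_lit 8) nil nil))) (node
  (nat_lit 5) (nat_lit 91661) (nat_lit 7) (node (nat_lit 4) (nat_lit 102667) (nat_lit 8) (node
  (nat_lit 6) (nat_lit 107065) (nat_lit 9) (node (nat_lit 4) (nat_lit 105561) (nat_lit 10) (node
  (nat_lit 5) (nat_lit 100360) (nat_lit 11) (node (nat_lit 6) (nat_lit 88584) (nat_lit 12) nil
  nil) nil) nil) (node (nat_lit 5) (nat_lit 106302) (nat_lit 9) (node (nat_lit 6) (nat_lit 105507)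
  (nat_lit 10) nil nil) nil)) (node (nat_lit 6) (nat_lit 102817) (nat_lit 8) (node (nat_lit 4)
  (nat_lit 105354) (nat_lit 9) nil nil) nil)) (node (nat_lit 8) (nat_lit 105962) (nat_lit 7) (node
  (nat_lit 5) (nat_lit 106365) (nat_lit 8) nil (node (nat_lit 4) (nat_lit 105962) (nat_lit 8) nil
  nil)) (node (nat_lit 0) (nat_lit 102501) (nat_lit 7) nil nil)))) (node (nat_lit 4) (nat_lit 0)
  (nat_lit 6) (node (nat_lit 6) (nat_lit 90962) (nat_lit 7) (node (nat_lit 5) (nat_lit 103825)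
  (nat_lit 8) (node (nat_lit 6) (nat_lit 108839) (nat_lit 9) (node (nat_lit 4) (nat_lit 107375)
  (nat_lit 10) (node (nat_lit 5) (nat_lit 95481) (nat_lit 11) nil nil) nil) (node (nat_lit 4)
  (nat_lit 108979) (nat_lit 9) (node (nat_lit 6) (nat_lit 105511) (nat_lit 10) nil nil) nil))
  (node (nat_lit 4) (nat_lit 102591) (nat_lit 8) (node (nat_lit 5) (nat_lit 105129) (nat_lit 9)
  nil nil) (node (nat_lit 8) (nat_lit 106648) (nat_lit 8) nil nil))) (node (nat_lit 5) (nat_lit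
  90883) (nat_lit 7) (node (nat_lit 6) (nat_lit 103469) (nat_lit 8) (node (nat_lit 5) (nat_lit
  107616) (nat_lit 9) (node (nat_lit 4) (nat_lit 107529) (nat_lit 10) (node (nat_lit 5) (nat_lit
  109389) (nat_lit 11) nil nil) nil) (node (nat_lit 4) (nat_lit 108221) (nat_lit 9) nil nil))
  (node (nat_lit 4) (nat_lit 101096) (nat_lit 8) (node (nat_lit 6) (nat_lit 102803) (nat_lit 9)
  nil nil) (node (nat_lit 8) (nat_lit 100812) (nat_lit 8) nil nil))) (node (nat_lit 8) (nat_lit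
  105195) (nat_lit 7) (node (nat_lit 5) (nat_lit 105195) (nat_lit 8) nil (node (nat_lit 6)
  (nat_lit 105195) (nat_lit 8) nil nil)) (node (nat_lit 0) (nat_lit 102226) (nat_lit 7) nil
  nil)))) (node (nat_lit 5) (nat_lit 0) (nat_lit 6) (node (nat_lit 4) (nat_lit 93956) (nat_lit 7)
  (node (nat_lit 6) (nat_lit 106220) (nat_lit 8) (node (nat_lit 5) (nat_lit 108898) (nat_lit 9)
  (node (nat_lit 6) (nat_lit 110858) (nat_lit 10) nil (node (nat_lit 4) (nat_lit 100212) (nat_lit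
  10) nil nil)) (node (nat_lit 4) (nat_lit 108758) (nat_lit 9) nil nil)) (node (nat_lit 5)
  (nat_lit 105575) (nat_lit 8) (node (nat_lit 6) (nat_lit 109497) (nat_lit 9) nil nil) (node
  (nat_lit 8) (nat_lit 103884) (nat_lit 8) nil nil))) (node (nat_lit 6) (nat_lit 93756) (nat_lit
  7) (node (nat_lit 4) (nat_lit 104989) (nat_lit 8) (node (nat_lit 6) (nat_lit 107867) (nat_lit 9)
  (node (nat_lit 5) (nat_lit 104638) (nat_lit 10) (node (nat_lit 4) (nat_lit 102391) (nat_lit 11)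
  nil nil) nil) (node (nat_lit 5) (nat_lit 109983) (nat_lit 9) nil nil)) (node (nat_lit 5)
  (nat_lit 104830) (nat_lit 8) (node (nat_lit 4) (nat_lit 108790) (nat_lit 9) nil nil) (node
  (nat_lit 8) (nat_lit 103684) (nat_lit 8) nil nil))) (node (nat_lit 0) (nat_lit 91820) (nat_lit
  7) nil nil))) (node (nat_lit 0) (nat_lit 0) (nat_lit 6) (node (nat_lit 6) (nat_lit 96353)
  (nat_lit 7) nil (node (nat_lit 4) (nat_lit 96464) (nat_lit 7) nil (node (nat_lit 0) (nat_lit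
  99694) (nat_lit 7) nil (node (nat_lit 5) (nat_lit 97157) (nat_lit 7) nil (node (nat_lit 8)
  (nat_lit 99694) (nat_lit 7) nil nil))))) nil)))) nil)) nil)) (node (nat_lit 4) (nat_lit 0)
  (nat_lit 3) (node (nat_lit 3) (nat_lit 0) (nat_lit 4) (node (nat_lit 5) (nat_lit 0) (nat_lit 5)
  t405 (node (nat_lit 4) (nat_lit 0) (nat_lit 5) (node (nat_lit 0) (nat_lit 0) (nat_lit 6) (node
  (nat_lit 5) (nat_lit 0) (nat_lit 7) (node (nat_lit 7) (nat_lit 32575) (nat_lit 8) (node (nat_lit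
  4) (nat_lit 35807) (nat_lit 9) (node (nat_lit 5) (nat_lit 37960) (nat_lit 10) nil (node (nat_lit
  7) (nat_lit 37960) (nat_lit 10) nil nil)) (node (nat_lit 5) (nat_lit 37177) (nat_lit 9) (node
  (nat_lit 4) (nat_lit 37644) (nat_lit 10) (node (nat_lit 7) (nat_lit 37817) (nat_lit 11) nil nil)
  nil) (node (nat_lit 9) (nat_lit 38544) (nat_lit 9) nil nil))) (node (nat_lit 9) (nat_lit 37976)
  (nat_lit 8) (node (nat_lit 4) (nat_lit 38859) (nat_lit 9) (node (nat_lit 5) (nat_lit 39859)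
  (nat_lit 10) (node (nat_lit 4) (nat_lit 41053) (nat_lit 11) (node (nat_lit 7) (nat_lit 41245)
  (nat_lit 12) nil nil) (node (nat_lit 7) (nat_lit 41053) (nat_lit 11) nil nil)) (node (nat_lit 7)
  (nat_lit 38859) (nat_lit 10) nil (node (nat_lit 9) (nat_lit 40512) (nat_lit 10) nil nil))) (node
  (nat_lit 7) (nat_lit 38745) (nat_lit 9) (node (nat_lit 5) (nat_lit 38766) (nat_lit 10) nil nil)
  nil)) (node (nat_lit 4) (nat_lit 32103) (nat_lit 8) (node (nat_lit 5) (nat_lit 36316) (nat_lit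
  9) (node (nat_lit 7) (nat_lit 38635) (nat_lit 10) (node (nat_lit 4) (nat_lit 37211) (nat_lit 11)
  nil nil) (node (nat_lit 9) (nat_lit 40122) (nat_lit 10) nil nil)) (node (nat_lit 7) (nat_lit
  36375) (nat_lit 9) (node (nat_lit 5) (nat_lit 35401) (nat_lit 10) nil (node (nat_lit 4) (nat_lit
  38528) (nat_lit 10) nil nil)) (node (nat_lit 9) (nat_lit 39756) (nat_lit 9) nil nil))) (node
  (nat_lit 0) (nat_lit 36807) (nat_lit 8) nil nil)))) (node (nat_lit 7) (nat_lit 0) (nat_lit 7)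
  (node (nat_lit 9) (nat_lit 38601) (nat_lit 8) (node (nat_lit 4) (nat_lit 39665) (nat_lit 9)
  (node (nat_lit 7) (nat_lit 39859) (nat_lit 10) (node (nat_lit 4) (nat_lit 41053) (nat_lit 11)
  (node (nat_lit 5) (nat_lit 41512) (nat_lit 12) nil nil) (node (nat_lit 5) (nat_lit 40138)
  (nat_lit 11) nil nil)) (node (nat_lit 9) (nat_lit 41317) (nat_lit 10) nil (node (nat_lit 5)
  (nat_lit 39665) (nat_lit 10) nil nil))) (node (nat_lit 5) (nat_lit 39371) (nat_lit 9) (node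
  (nat_lit 7) (nat_lit 39859) (nat_lit 10) (node (nat_lit 5) (nat_lit 41053) (nat_lit 11) nil nil)
  nil) nil)) (node (nat_lit 4) (nat_lit 33262) (nat_lit 8) (node (nat_lit 7) (nat_lit 37512)
  (nat_lit 9) (node (nat_lit 5) (nat_lit 39366) (nat_lit 10) (node (nat_lit 4) (nat_lit 39540)
  (nat_lit 11) nil nil) (node (nat_lit 9) (nat_lit 41317) (nat_lit 10) nil nil)) (node (nat_lit 5)
  (nat_lit 37096) (nat_lit 9) (node (nat_lit 7) (nat_lit 39249) (nat_lit 10) nil (node (nat_lit 4)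
  (nat_lit 36121) (nat_lit 10) nil nil)) nil)) (node (nat_lit 5) (nat_lit 33170) (nat_lit 8) (node
  (nat_lit 4) (nat_lit 36402) (nat_lit 9) (node (nat_lit 5) (nat_lit 36601) (nat_lit 10) (node
  (nat_lit 7) (nat_lit 38221) (nat_lit 11) nil nil) (node (nat_lit 7) (nat_lit 37269) (nat_lit 10)
  nil nil)) (node (nat_lit 7) (nat_lit 37512) (nat_lit 9) (node (nat_lit 4) (nat_lit 39859)
  (nat_lit 10) nil nil) (node (nat_lit 9) (nat_lit 39140) (nat_lit 9) nil nil))) (node (nat_lit 0)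
  (nat_lit 38281) (nat_lit 8) nil nil)))) (node (nat_lit 4) (nat_lit 0) (nat_lit 7) (node (nat_lit
  7) (nat_lit 32945) (nat_lit 8) (node (nat_lit 5) (nat_lit 35758) (nat_lit 9) (node (nat_lit 7)
  (nat_lit 34704) (nat_lit 10) (node (nat_lit 4) (nat_lit 33280) (nat_lit 11) (node (nat_lit 5)
  (nat_lit 31006) (nat_lit 12) (node (nat_lit 4) (nat_lit 25947) (nat_lit 13) (node (nat_lit 7)
  (nat_lit 16419) (nat_lit 14) (node (nat_lit 4) (nat_lit 9282) (nat_lit 15) nil nil) nil) nil)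
  nil) nil) (node (nat_lit 4) (nat_lit 36625) (nat_lit 10) nil nil)) (node (nat_lit 4) (nat_lit
  36777) (nat_lit 9) (node (nat_lit 5) (nat_lit 38930) (nat_lit 10) nil nil) (node (nat_lit 9)
  (nat_lit 38914) (nat_lit 9) nil nil))) (node (nat_lit 5) (nat_lit 31841) (nat_lit 8) (node
  (nat_lit 4) (nat_lit 35674) (nat_lit 9) (node (nat_lit 7) (nat_lit 36541) (nat_lit 10) (node
  (nat_lit 4) (nat_lit 38150) (nat_lit 11) (node (nat_lit 5) (nat_lit 38988) (nat_lit 12) nil nil)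
  nil) (node (nat_lit 9) (nat_lit 39479) (nat_lit 10) nil nil)) (node (nat_lit 7) (nat_lit 36444)
  (nat_lit 9) (node (nat_lit 4) (nat_lit 38597) (nat_lit 10) nil nil) nil)) (node (nat_lit 0)
  (nat_lit 37776) (nat_lit 8) nil nil))) (node (nat_lit 0) (nat_lit 0) (nat_lit 7) (node (nat_lit
  4) (nat_lit 0) (nat_lit 8) (node (nat_lit 10) (nat_lit 39825) (nat_lit 9) nil (node (nat_lit 7)
  (nat_lit 34795) (nat_lit 9) nil (node (nat_lit 5) (nat_lit 34795) (nat_lit 9) nil (node (nat_lit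
  9) (nat_lit 38141) (nat_lit 9) nil (node (nat_lit 0) (nat_lit 38141) (nat_lit 9) nil nil)))))
  (node (nat_lit 9) (nat_lit 0) (nat_lit 8) (node (nat_lit 4) (nat_lit 38405) (nat_lit 9) (node
  (nat_lit 10) (nat_lit 40057) (nat_lit 10) nil nil) (node (nat_lit 7) (nat_lit 38872) (nat_lit 9)
  nil (node (nat_lit 5) (nat_lit 38872) (nat_lit 9) nil (node (nat_lit 0) (nat_lit 40065) (nat_lit
  9) nil nil)))) (node (nat_lit 5) (nat_lit 35081) (nat_lit 8) (node (nat_lit 10) (nat_lit 38427)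
  (nat_lit 9) nil nil) (node (nat_lit 7) (nat_lit 35642) (nat_lit 8) (node (nat_lit 10) (nat_lit
  38988) (nat_lit 9) nil nil) (node (nat_lit 0) (nat_lit 38124) (nat_lit 8) nil nil))))) nil))))
  (node (nat_lit 5) (nat_lit 0) (nat_lit 6) (node (nat_lit 0) (nat_lit 0) (nat_lit 7) (node
  (nat_lit 5) (nat_lit 0) (nat_lit 8) (node (nat_lit 4) (nat_lit 34231) (nat_lit 9) (node (nat_lit
  7) (nat_lit 37553) (nat_lit 10) (node (nat_lit 5) (nat_lit 38624) (nat_lit 11) (node (nat_lit 7)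
  (nat_lit 36295) (nat_lit 12) nil nil) (node (nat_lit 4) (nat_lit 39163) (nat_lit 11) nil (node
  (nat_lit 0) (nat_lit 39609) (nat_lit 11) nil nil))) (node (nat_lit 5) (nat_lit 38097) (nat_lit
  10) (node (nat_lit 7) (nat_lit 40222) (nat_lit 11) nil (node (nat_lit 10) (nat_lit 40948)
  (nat_lit 11) nil nil)) (node (nat_lit 10) (nat_lit 40166) (nat_lit 10) (node (nat_lit 5)
  (nat_lit 41133) (nat_lit 11) (node (nat_lit 10) (nat_lit 41902) (nat_lit 12) nil nil) nil) (node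
  (nat_lit 0) (nat_lit 38926) (nat_lit 10) nil nil)))) (node (nat_lit 7) (nat_lit 35749) (nat_lit
  9) (node (nat_lit 4) (nat_lit 38587) (nat_lit 10) (node (nat_lit 7) (nat_lit 40757) (nat_lit 11)
  nil (node (nat_lit 5) (nat_lit 40197) (nat_lit 11) nil nil)) (node (nat_lit 5) (nat_lit 38107)
  (nat_lit 10) (node (nat_lit 4) (nat_lit 39896) (nat_lit 11) nil nil) (node (nat_lit 10) (nat_lit
  40445) (nat_lit 10) nil (node (nat_lit 0) (nat_lit 40445) (nat_lit 10) nil nil)))) (node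
  (nat_lit 0) (nat_lit 39569) (nat_lit 9) (node (nat_lit 5) (nat_lit 39301) (nat_lit 10) nil (node
  (nat_lit 10) (nat_lit 41504) (nat_lit 10) nil (node (nat_lit 4) (nat_lit 39569) (nat_lit 10) nil
  (node (nat_lit 0) (nat_lit 40029) (nat_lit 10) nil (node (nat_lit 7) (nat_lit 39569) (nat_lit
  10) nil nil))))) nil))) (node (nat_lit 4) (nat_lit 0) (nat_lit 8) (node (nat_lit 10) (nat_lit
  38050) (nat_lit 9) (node (nat_lit 5) (nat_lit 37963) (nat_lit 10) (node (nat_lit 10) (nat_lit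
  40587) (nat_lit 11) (node (nat_lit 4) (nat_lit 40587) (nat_lit 12) nil nil) nil) nil) (node
  (nat_lit 7) (nat_lit 35749) (nat_lit 9) (node (nat_lit 5) (nat_lit 38107) (nat_lit 10) (node
  (nat_lit 7) (nat_lit 35617) (nat_lit 11) nil nil) (node (nat_lit 4) (nat_lit 37903) (nat_lit 10)
  nil nil)) (node (nat_lit 5) (nat_lit 34231) (nat_lit 9) (node (nat_lit 4) (nat_lit 36973)
  (nat_lit 10) (node (nat_lit 10) (nat_lit 39029) (nat_lit 11) nil nil) nil) (node (nat_lit 0)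
  (nat_lit 36463) (nat_lit 9) nil nil)))) (node (nat_lit 7) (nat_lit 32912) (nat_lit 8) (node
  (nat_lit 5) (nat_lit 35709) (nat_lit 9) (node (nat_lit 7) (nat_lit 39574) (nat_lit 10) nil nil)
  (node (nat_lit 10) (nat_lit 39529) (nat_lit 9) (node (nat_lit 5) (nat_lit 39529) (nat_lit 10)
  nil nil) (node (nat_lit 4) (nat_lit 34261) (nat_lit 9) (node (nat_lit 5) (nat_lit 36415)
  (nat_lit 10) nil nil) nil))) (node (nat_lit 0) (nat_lit 36084) (nat_lit 8) (node (nat_lit 5)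
  (nat_lit 36013) (nat_lit 9) (node (nat_lit 10) (nat_lit 39793) (nat_lit 10) nil (node (nat_lit
  11) (nat_lit 37666) (nat_lit 10) nil nil)) (node (nat_lit 10) (nat_lit 39338) (nat_lit 9) (node
  (nat_lit 5) (nat_lit 39338) (nat_lit 10) nil nil) nil)) nil)))) (node (nat_lit 7) (nat_lit 0)
  (nat_lit 7) (node (nat_lit 0) (nat_lit 0) (nat_lit 8) (node (nat_lit 5) (nat_lit 35506) (nat_lit
  9) (node (nat_lit 7) (nat_lit 37935) (nat_lit 10) (node (nat_lit 5) (nat_lit 40547) (nat_lit 11)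
  (node (nat_lit 11) (nat_lit 42281) (nat_lit 12) (node (nat_lit 5) (nat_lit 42281) (nat_lit 13)
  nil nil) (node (nat_lit 4) (nat_lit 40368) (nat_lit 12) nil (node (nat_lit 0) (nat_lit 41776)
  (nat_lit 12) nil nil))) (node (nat_lit 4) (nat_lit 40392) (nat_lit 11) (node (nat_lit 5)
  (nat_lit 41512) (nat_lit 12) nil (node (nat_lit 7) (nat_lit 40212) (nat_lit 12) nil (node
  (nat_lit 11) (nat_lit 42281) (nat_lit 12) nil nil))) (node (nat_lit 0) (nat_lit 41562) (nat_lit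
  11) nil nil))) (node (nat_lit 4) (nat_lit 34504) (nat_lit 10) nil nil)) (node (nat_lit 7)
  (nat_lit 35921) (nat_lit 9) (node (nat_lit 5) (nat_lit 36564) (nat_lit 10) (node (nat_lit 11)
  (nat_lit 40191) (nat_lit 11) (node (nat_lit 5) (nat_lit 40191) (nat_lit 12) nil nil) nil) nil)
  (node (nat_lit 4) (nat_lit 35506) (nat_lit 9) (node (nat_lit 7) (nat_lit 34504) (nat_lit 10) nil
  nil) (node (nat_lit 0) (nat_lit 36245) (nat_lit 9) nil nil)))) nil) nil)) nil)) (node (nat_lit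
  0) (nat_lit 0) (nat_lit 5) (node (nat_lit 4) (nat_lit 0) (nat_lit 6) (node (nat_lit 7) (nat_lit
  49527) (nat_lit 7) (node (nat_lit 5) (nat_lit 56415) (nat_lit 8) (node (nat_lit 7) (nat_lit
  59261) (nat_lit 9) (node (nat_lit 4) (nat_lit 57277) (nat_lit 10) (node (nat_lit 5) (nat_lit
  41626) (nat_lit 11) (node (nat_lit 4) (nat_lit 29838) (nat_lit 12) nil nil) nil) nil) (node
  (nat_lit 4) (nat_lit 59453) (nat_lit 9) (node (nat_lit 5) (nat_lit 58363) (nat_lit 10) nil nil)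
  nil)) (node (nat_lit 4) (nat_lit 56480) (nat_lit 8) (node (nat_lit 5) (nat_lit 57805) (nat_lit
  9) nil (node (nat_lit 8) (nat_lit 59447) (nat_lit 9) nil nil)) nil)) (node (nat_lit 5) (nat_lit
  48219) (nat_lit 7) (node (nat_lit 7) (nat_lit 55719) (nat_lit 8) (node (nat_lit 4) (nat_lit
  58644) (nat_lit 9) (node (nat_lit 7) (nat_lit 59685) (nat_lit 10) nil nil) (node (nat_lit 5)
  (nat_lit 57781) (nat_lit 9) nil nil)) (node (nat_lit 4) (nat_lit 54122) (nat_lit 8) (node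
  (nat_lit 7) (nat_lit 53880) (nat_lit 9) nil nil) (node (nat_lit 8) (nat_lit 59217) (nat_lit 8)
  nil nil))) (node (nat_lit 8) (nat_lit 56493) (nat_lit 7) (node (nat_lit 7) (nat_lit 56493)
  (nat_lit 8) nil (node (nat_lit 5) (nat_lit 56493) (nat_lit 8) nil nil)) (node (nat_lit 0)
  (nat_lit 52933) (nat_lit 7) nil nil)))) (node (nat_lit 5) (nat_lit 0) (nat_lit 6) (node (nat_lit
  4) (nat_lit 48214) (nat_lit 7) (node (nat_lit 7) (nat_lit 56142) (nat_lit 8) (node (nat_lit 5)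
  (nat_lit 59005) (nat_lit 9) (node (nat_lit 7) (nat_lit 58748) (nat_lit 10) (node (nat_lit 4)
  (nat_lit 56504) (nat_lit 11) nil nil) nil) (node (nat_lit 4) (nat_lit 60036) (nat_lit 9) (node
  (nat_lit 5) (nat_lit 61078) (nat_lit 10) nil nil) nil)) (node (nat_lit 5) (nat_lit 55121)
  (nat_lit 8) (node (nat_lit 7) (nat_lit 57332) (nat_lit 9) (node (nat_lit 4) (nat_lit 50414)
  (nat_lit 10) nil nil) nil) (node (nat_lit 8) (nat_lit 59212) (nat_lit 8) nil nil))) (node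
  (nat_lit 7) (nat_lit 48075) (nat_lit 7) (node (nat_lit 4) (nat_lit 54993) (nat_lit 8) (node
  (nat_lit 5) (nat_lit 57830) (nat_lit 9) nil (node (nat_lit 7) (nat_lit 57488) (nat_lit 9) nil
  nil)) (node (nat_lit 5) (nat_lit 55486) (nat_lit 8) (node (nat_lit 4) (nat_lit 54528) (nat_lit
  9) nil nil) nil)) (node (nat_lit 8) (nat_lit 54816) (nat_lit 7) (node (nat_lit 7) (nat_lit
  54291) (nat_lit 8) (node (nat_lit 4) (nat_lit 54291) (nat_lit 9) nil (node (nat_lit 5) (nat_lit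
  54291) (nat_lit 9) nil nil)) (node (nat_lit 4) (nat_lit 54816) (nat_lit 8) nil nil)) (node
  (nat_lit 0) (nat_lit 51483) (nat_lit 7) nil nil)))) (node (nat_lit 7) (nat_lit 0) (nat_lit 6)
  (node (nat_lit 5) (nat_lit 47888) (nat_lit 7) (node (nat_lit 4) (nat_lit 54569) (nat_lit 8)
  (node (nat_lit 7) (nat_lit 57450) (nat_lit 9) (node (nat_lit 4) (nat_lit 52428) (nat_lit 10)
  (node (nat_lit 5) (nat_lit 40156) (nat_lit 11) nil nil) nil) (node (nat_lit 5) (nat_lit 58816)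
  (nat_lit 9) (node (nat_lit 7) (nat_lit 61179) (nat_lit 10) (node (nat_lit 4) (nat_lit 60438)
  (nat_lit 11) nil nil) nil) nil)) (node (nat_lit 7) (nat_lit 54966) (nat_lit 8) (node (nat_lit 4)
  (nat_lit 58444) (nat_lit 9) nil nil) (node (nat_lit 8) (nat_lit 58886) (nat_lit 8) nil nil)))
  (node (nat_lit 4) (nat_lit 48994) (nat_lit 7) (node (nat_lit 5) (nat_lit 56042) (nat_lit 8)
  (node (nat_lit 4) (nat_lit 58913) (nat_lit 9) (node (nat_lit 7) (nat_lit 58310) (nat_lit 10) nil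
  nil) (node (nat_lit 7) (nat_lit 59520) (nat_lit 9) nil nil)) (node (nat_lit 7) (nat_lit 55947)
  (nat_lit 8) (node (nat_lit 5) (nat_lit 53403) (nat_lit 9) nil nil) (node (nat_lit 8) (nat_lit
  59992) (nat_lit 8) nil nil))) (node (nat_lit 0) (nat_lit 44216) (nat_lit 7) nil nil))) (node
  (nat_lit 0) (nat_lit 0) (nat_lit 6) (node (nat_lit 4) (nat_lit 47394) (nat_lit 7) nil (node
  (nat_lit 5) (nat_lit 49464) (nat_lit 7) nil (node (nat_lit 7) (nat_lit 49413) (nat_lit 7) nil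
  (node (nat_lit 8) (nat_lit 53312) (nat_lit 7) nil (node (nat_lit 0) (nat_lit 53312) (nat_lit 7)
  nil nil))))) nil)))) nil))) nil) nil))

noncomputable def c45 : Tr :=
  (node (nat_lit 3) (nat_lit 0) (nat_lit 1) (node (nat_lit 3) (nat_lit 0) (nat_lit 2) t406 nil)
  nil)

noncomputable def t407 : Tr :=
  (node (nat_lit 5) (nat_lit 0) (nat_lit 4) (node (nat_lit 4) (nat_lit 29776) (nat_lit 5) (node
  (nat_lit 6) (nat_lit 44652) (nat_lit 6) (node (nat_lit 5) (nat_lit 44757) (nat_lit 7) (node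
  (nat_lit 6) (nat_lit 46529) (nat_lit 8) (node (nat_lit 4) (nat_lit 46529) (nat_lit 9) (node
  (nat_lit 5) (nat_lit 46529) (nat_lit 10) (node (nat_lit 4) (nat_lit 46529) (nat_lit 11) (node
  (nat_lit 6) (nat_lit 47169) (nat_lit 12) (node (nat_lit 4) (nat_lit 47169) (nat_lit 13) (node
  (nat_lit 5) (nat_lit 47169) (nat_lit 14) nil nil) nil) nil) (node (nat_lit 6) (nat_lit 47095)
  (nat_lit 11) nil (node (nat_lit 3) (nat_lit 46529) (nat_lit 11) nil (node (nat_lit 0) (nat_lit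
  47095) (nat_lit 11) nil nil)))) (node (nat_lit 6) (nat_lit 47000) (nat_lit 10) (node (nat_lit 5)
  (nat_lit 47000) (nat_lit 11) (node (nat_lit 4) (nat_lit 47000) (nat_lit 12) (node (nat_lit 6)
  (nat_lit 47216) (nat_lit 13) nil nil) nil) nil) (node (nat_lit 3) (nat_lit 46529) (nat_lit 10)
  nil (node (nat_lit 0) (nat_lit 46949) (nat_lit 10) nil nil)))) (node (nat_lit 3) (nat_lit 46529)
  (nat_lit 9) (node (nat_lit 5) (nat_lit 46529) (nat_lit 10) nil nil) (node (nat_lit 0) (nat_lit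
  46821) (nat_lit 9) nil nil))) (node (nat_lit 3) (nat_lit 44971) (nat_lit 8) (node (nat_lit 5)
  (nat_lit 44642) (nat_lit 9) (node (nat_lit 4) (nat_lit 44642) (nat_lit 10) (node (nat_lit 11)
  (nat_lit 44642) (nat_lit 11) nil nil) (node (nat_lit 6) (nat_lit 46276) (nat_lit 10) nil (node
  (nat_lit 0) (nat_lit 46276) (nat_lit 10) nil nil))) (node (nat_lit 4) (nat_lit 44971) (nat_lit
  9) (node (nat_lit 11) (nat_lit 44971) (nat_lit 10) (node (nat_lit 5) (nat_lit 44971) (nat_lit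
  11) nil nil) (node (nat_lit 5) (nat_lit 44971) (nat_lit 10) nil (node (nat_lit 6) (nat_lit
  46055) (nat_lit 10) nil nil))) (node (nat_lit 6) (nat_lit 47042) (nat_lit 9) nil (node (nat_lit
  0) (nat_lit 46687) (nat_lit 9) nil nil)))) (node (nat_lit 0) (nat_lit 46815) (nat_lit 8) (node
  (nat_lit 5) (nat_lit 46815) (nat_lit 9) nil (node (nat_lit 6) (nat_lit 47016) (nat_lit 9) nil
  (node (nat_lit 4) (nat_lit 46815) (nat_lit 9) nil (node (nat_lit 3) (nat_lit 46815) (nat_lit 9)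
  nil (node (nat_lit 0) (nat_lit 47016) (nat_lit 9) nil nil))))) nil))) (node (nat_lit 4) (nat_lit
  44636) (nat_lit 7) (node (nat_lit 5) (nat_lit 44636) (nat_lit 8) (node (nat_lit 6) (nat_lit
  46405) (nat_lit 9) (node (nat_lit 4) (nat_lit 46405) (nat_lit 10) (node (nat_lit 6) (nat_lit
  46729) (nat_lit 11) (node (nat_lit 5) (nat_lit 46729) (nat_lit 12) nil nil) nil) nil) nil) (node
  (nat_lit 3) (nat_lit 44935) (nat_lit 8) (node (nat_lit 6) (nat_lit 45904) (nat_lit 9) nil nil)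
  (node (nat_lit 0) (nat_lit 45703) (nat_lit 8) nil nil))) (node (nat_lit 3) (nat_lit 44951)
  (nat_lit 7) (node (nat_lit 6) (nat_lit 45719) (nat_lit 8) nil nil) (node (nat_lit 0) (nat_lit
  45778) (nat_lit 7) nil nil)))) (node (nat_lit 5) (nat_lit 33005) (nat_lit 6) (node (nat_lit 6)
  (nat_lit 27633) (nat_lit 7) (node (nat_lit 4) (nat_lit 27633) (nat_lit 8) (node (nat_lit 6)
  (nat_lit 28121) (nat_lit 9) (node (nat_lit 5) (nat_lit 28121) (nat_lit 10) (node (nat_lit 4)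
  (nat_lit 28121) (nat_lit 11) (node (nat_lit 6) (nat_lit 28194) (nat_lit 12) (node (nat_lit 4)
  (nat_lit 28194) (nat_lit 13) nil nil) (node (nat_lit 5) (nat_lit 28121) (nat_lit 12) nil (node
  (nat_lit 3) (nat_lit 28121) (nat_lit 12) nil (node (nat_lit 0) (nat_lit 28194) (nat_lit 12) nil
  nil)))) nil) nil) (node (nat_lit 5) (nat_lit 27633) (nat_lit 9) (node (nat_lit 4) (nat_lit
  27633) (nat_lit 10) (node (nat_lit 6) (nat_lit 28194) (nat_lit 11) nil nil) nil) (node (nat_lit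
  3) (nat_lit 27633) (nat_lit 9) nil (node (nat_lit 0) (nat_lit 27854) (nat_lit 9) nil nil))))
  (node (nat_lit 3) (nat_lit 27633) (nat_lit 8) nil (node (nat_lit 0) (nat_lit 27986) (nat_lit 8)
  nil nil))) (node (nat_lit 3) (nat_lit 36148) (nat_lit 7) (node (nat_lit 4) (nat_lit 36712)
  (nat_lit 8) (node (nat_lit 5) (nat_lit 37859) (nat_lit 9) nil nil) (node (nat_lit 5) (nat_lit
  36928) (nat_lit 8) (node (nat_lit 6) (nat_lit 40581) (nat_lit 9) nil nil) (node (nat_lit 6)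
  (nat_lit 42072) (nat_lit 8) nil (node (nat_lit 0) (nat_lit 39600) (nat_lit 8) nil nil)))) (node
  (nat_lit 0) (nat_lit 43494) (nat_lit 7) nil nil))) (node (nat_lit 3) (nat_lit 33371) (nat_lit 6)
  (node (nat_lit 5) (nat_lit 36573) (nat_lit 7) (node (nat_lit 9) (nat_lit 38741) (nat_lit 8)
  (node (nat_lit 4) (nat_lit 40566) (nat_lit 9) nil (node (nat_lit 6) (nat_lit 42394) (nat_lit 9)
  nil (node (nat_lit 0) (nat_lit 42394) (nat_lit 9) nil nil))) (node (nat_lit 4) (nat_lit 39042)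
  (nat_lit 8) (node (nat_lit 5) (nat_lit 39166) (nat_lit 9) (node (nat_lit 9) (nat_lit 36998)
  (nat_lit 10) nil (node (nat_lit 6) (nat_lit 36122) (nat_lit 10) nil nil)) (node (nat_lit 6)
  (nat_lit 42696) (nat_lit 9) nil (node (nat_lit 0) (nat_lit 42696) (nat_lit 9) nil nil))) (node
  (nat_lit 6) (nat_lit 44686) (nat_lit 8) nil (node (nat_lit 0) (nat_lit 43860) (nat_lit 8) nil
  nil)))) (node (nat_lit 4) (nat_lit 37180) (nat_lit 7) (node (nat_lit 5) (nat_lit 39270) (nat_lit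
  8) (node (nat_lit 9) (nat_lit 40004) (nat_lit 9) (node (nat_lit 5) (nat_lit 38765) (nat_lit 10)
  (node (nat_lit 4) (nat_lit 37356) (nat_lit 11) nil nil) nil) (node (nat_lit 4) (nat_lit 39582)
  (nat_lit 9) nil (node (nat_lit 6) (nat_lit 31159) (nat_lit 9) nil nil))) (node (nat_lit 6)
  (nat_lit 46119) (nat_lit 8) nil (node (nat_lit 0) (nat_lit 44467) (nat_lit 8) nil nil))) (node
  (nat_lit 6) (nat_lit 45603) (nat_lit 7) (node (nat_lit 4) (nat_lit 45603) (nat_lit 8) nil nil)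
  (node (nat_lit 0) (nat_lit 45904) (nat_lit 7) (node (nat_lit 9) (nat_lit 45904) (nat_lit 8) nil
  nil) nil)))) (node (nat_lit 0) (nat_lit 44689) (nat_lit 6) (node (nat_lit 5) (nat_lit 44689)
  (nat_lit 7) nil (node (nat_lit 4) (nat_lit 44689) (nat_lit 7) nil (node (nat_lit 6) (nat_lit
  45390) (nat_lit 7) nil (node (nat_lit 3) (nat_lit 44689) (nat_lit 7) nil (node (nat_lit 0)
  (nat_lit 45516) (nat_lit 7) nil nil))))) nil)))) (node (nat_lit 3) (nat_lit 30425) (nat_lit 5)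
  (node (nat_lit 4) (nat_lit 33871) (nat_lit 6) (node (nat_lit 5) (nat_lit 37243) (nat_lit 7)
  (node (nat_lit 4) (nat_lit 39615) (nat_lit 8) (node (nat_lit 8) (nat_lit 39705) (nat_lit 9) nil
  (node (nat_lit 6) (nat_lit 43054) (nat_lit 9) nil (node (nat_lit 0) (nat_lit 43054) (nat_lit 9)
  nil nil))) (node (nat_lit 8) (nat_lit 39273) (nat_lit 8) (node (nat_lit 5) (nat_lit 40496)
  (nat_lit 9) nil (node (nat_lit 6) (nat_lit 42712) (nat_lit 9) nil (node (nat_lit 0) (nat_lit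
  42712) (nat_lit 9) nil nil))) (node (nat_lit 6) (nat_lit 30323) (nat_lit 8) (node (nat_lit 5)
  (nat_lit 17599) (nat_lit 9) nil nil) (node (nat_lit 0) (nat_lit 44366) (nat_lit 8) nil nil))))
  (node (nat_lit 8) (nat_lit 37518) (nat_lit 7) (node (nat_lit 5) (nat_lit 39659) (nat_lit 8)
  (node (nat_lit 4) (nat_lit 40672) (nat_lit 9) (node (nat_lit 5) (nat_lit 40494) (nat_lit 10)
  (node (nat_lit 8) (nat_lit 40057) (nat_lit 11) nil nil) nil) (node (nat_lit 8) (nat_lit 40882)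
  (nat_lit 9) nil (node (nat_lit 6) (nat_lit 43098) (nat_lit 9) nil nil))) (node (nat_lit 6)
  (nat_lit 46293) (nat_lit 8) nil (node (nat_lit 0) (nat_lit 45594) (nat_lit 8) nil nil))) (node
  (nat_lit 6) (nat_lit 45849) (nat_lit 7) (node (nat_lit 8) (nat_lit 45849) (nat_lit 8) nil nil)
  (node (nat_lit 0) (nat_lit 46150) (nat_lit 7) nil nil)))) (node (nat_lit 5) (nat_lit 33619)
  (nat_lit 6) (node (nat_lit 6) (nat_lit 46331) (nat_lit 7) (node (nat_lit 8) (nat_lit 46331)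
  (nat_lit 8) (node (nat_lit 6) (nat_lit 47067) (nat_lit 9) (node (nat_lit 5) (nat_lit 47067)
  (nat_lit 10) (node (nat_lit 8) (nat_lit 47067) (nat_lit 11) (node (nat_lit 6) (nat_lit 47216)
  (nat_lit 12) nil (node (nat_lit 5) (nat_lit 47067) (nat_lit 12) nil (node (nat_lit 0) (nat_lit
  47216) (nat_lit 12) nil nil))) nil) nil) (node (nat_lit 5) (nat_lit 46331) (nat_lit 9) (node
  (nat_lit 8) (nat_lit 46331) (nat_lit 10) nil nil) (node (nat_lit 4) (nat_lit 46331) (nat_lit 9)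
  nil (node (nat_lit 0) (nat_lit 46731) (nat_lit 9) nil nil)))) (node (nat_lit 4) (nat_lit 46331)
  (nat_lit 8) nil (node (nat_lit 0) (nat_lit 46580) (nat_lit 8) nil nil))) (node (nat_lit 4)
  (nat_lit 36884) (nat_lit 7) (node (nat_lit 8) (nat_lit 38441) (nat_lit 8) (node (nat_lit 5)
  (nat_lit 38150) (nat_lit 9) nil (node (nat_lit 6) (nat_lit 41880) (nat_lit 9) nil nil)) (node
  (nat_lit 5) (nat_lit 37914) (nat_lit 8) (node (nat_lit 6) (nat_lit 39108) (nat_lit 9) nil nil)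
  (node (nat_lit 6) (nat_lit 45659) (nat_lit 8) nil (node (nat_lit 0) (nat_lit 42644) (nat_lit 8)
  nil nil)))) (node (nat_lit 0) (nat_lit 45708) (nat_lit 7) nil nil))) (node (nat_lit 6) (nat_lit
  45148) (nat_lit 6) (node (nat_lit 8) (nat_lit 45148) (nat_lit 7) (node (nat_lit 5) (nat_lit
  45148) (nat_lit 8) (node (nat_lit 6) (nat_lit 46383) (nat_lit 9) (node (nat_lit 8) (nat_lit
  46383) (nat_lit 10) nil nil) (node (nat_lit 8) (nat_lit 45148) (nat_lit 9) nil nil)) nil) (node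
  (nat_lit 5) (nat_lit 45148) (nat_lit 7) (node (nat_lit 6) (nat_lit 46324) (nat_lit 8) (node
  (nat_lit 8) (nat_lit 46324) (nat_lit 9) nil nil) (node (nat_lit 4) (nat_lit 45148) (nat_lit 8)
  nil (node (nat_lit 0) (nat_lit 45734) (nat_lit 8) nil nil))) (node (nat_lit 4) (nat_lit 45148)
  (nat_lit 7) (node (nat_lit 6) (nat_lit 45734) (nat_lit 8) nil nil) (node (nat_lit 0) (nat_lit
  45727) (nat_lit 7) nil nil)))) (node (nat_lit 0) (nat_lit 45152) (nat_lit 6) (node (nat_lit 5)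
  (nat_lit 45152) (nat_lit 7) nil (node (nat_lit 8) (nat_lit 45152) (nat_lit 7) nil (node (nat_lit
  6) (nat_lit 45490) (nat_lit 7) nil (node (nat_lit 0) (nat_lit 45731) (nat_lit 7) nil nil))))
  nil)))) (node (nat_lit 0) (nat_lit 42362) (nat_lit 5) (node (nat_lit 6) (nat_lit 45291) (nat_lit
  6) (node (nat_lit 5) (nat_lit 45280) (nat_lit 7) (node (nat_lit 6) (nat_lit 46865) (nat_lit 8)
  (node (nat_lit 8) (nat_lit 47067) (nat_lit 9) nil (node (nat_lit 4) (nat_lit 46865) (nat_lit 9)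
  nil (node (nat_lit 0) (nat_lit 47016) (nat_lit 9) nil (node (nat_lit 3) (nat_lit 46865) (nat_lit
  9) nil nil)))) (node (nat_lit 4) (nat_lit 45280) (nat_lit 8) nil (node (nat_lit 3) (nat_lit
  45280) (nat_lit 8) nil (node (nat_lit 0) (nat_lit 46457) (nat_lit 8) nil nil)))) (node (nat_lit
  8) (nat_lit 46142) (nat_lit 7) (node (nat_lit 5) (nat_lit 46142) (nat_lit 8) nil nil) (node
  (nat_lit 0) (nat_lit 45629) (nat_lit 7) nil nil))) (node (nat_lit 5) (nat_lit 42304) (nat_lit 6)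
  (node (nat_lit 6) (nat_lit 46010) (nat_lit 7) (node (nat_lit 8) (nat_lit 46405) (nat_lit 8) nil
  (node (nat_lit 5) (nat_lit 46010) (nat_lit 8) nil nil)) (node (nat_lit 4) (nat_lit 42304)
  (nat_lit 7) nil (node (nat_lit 3) (nat_lit 42304) (nat_lit 7) nil (node (nat_lit 0) (nat_lit
  44089) (nat_lit 7) nil nil)))) (node (nat_lit 4) (nat_lit 42496) (nat_lit 6) (node (nat_lit 5)
  (nat_lit 42496) (nat_lit 7) nil (node (nat_lit 6) (nat_lit 45056) (nat_lit 7) (node (nat_lit 4)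
  (nat_lit 45056) (nat_lit 8) nil nil) (node (nat_lit 8) (nat_lit 44281) (nat_lit 7) nil (node
  (nat_lit 3) (nat_lit 42496) (nat_lit 7) nil (node (nat_lit 0) (nat_lit 43415) (nat_lit 7) nil
  nil))))) (node (nat_lit 3) (nat_lit 42362) (nat_lit 6) (node (nat_lit 5) (nat_lit 42362)
  (nat_lit 7) nil (node (nat_lit 8) (nat_lit 43849) (nat_lit 7) nil (node (nat_lit 6) (nat_lit
  43280) (nat_lit 7) nil (node (nat_lit 0) (nat_lit 43280) (nat_lit 7) nil nil)))) (node (nat_lit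
  0) (nat_lit 45150) (nat_lit 6) (node (nat_lit 5) (nat_lit 45150) (nat_lit 7) nil (node (nat_lit
  3) (nat_lit 45150) (nat_lit 7) nil (node (nat_lit 8) (nat_lit 45488) (nat_lit 7) nil nil)))
  nil))))) nil))) (node (nat_lit 4) (nat_lit 0) (nat_lit 4) (node (nat_lit 6) (nat_lit 41732)
  (nat_lit 5) (node (nat_lit 5) (nat_lit 42156) (nat_lit 6) (node (nat_lit 6) (nat_lit 46003)
  (nat_lit 7) (node (nat_lit 4) (nat_lit 46075) (nat_lit 8) (node (nat_lit 5) (nat_lit 46075)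
  (nat_lit 9) (node (nat_lit 4) (nat_lit 46075) (nat_lit 10) (node (nat_lit 6) (nat_lit 47099)
  (nat_lit 11) (node (nat_lit 5) (nat_lit 47099) (nat_lit 12) (node (nat_lit 4) (nat_lit 47099)
  (nat_lit 13) nil nil) (node (nat_lit 4) (nat_lit 47099) (nat_lit 12) nil nil)) (node (nat_lit 3)
  (nat_lit 46075) (nat_lit 11) nil (node (nat_lit 0) (nat_lit 46984) (nat_lit 11) nil nil))) (node
  (nat_lit 6) (nat_lit 47000) (nat_lit 10) (node (nat_lit 5) (nat_lit 47000) (nat_lit 11) (node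
  (nat_lit 4) (nat_lit 47000) (nat_lit 12) (node (nat_lit 5) (nat_lit 47000) (nat_lit 13) (node
  (nat_lit 6) (nat_lit 47216) (nat_lit 14) nil nil) nil) nil) nil) (node (nat_lit 3) (nat_lit
  46075) (nat_lit 10) nil (node (nat_lit 0) (nat_lit 46838) (nat_lit 10) nil nil)))) (node
  (nat_lit 3) (nat_lit 46075) (nat_lit 9) (node (nat_lit 6) (nat_lit 46838) (nat_lit 10) nil (node
  (nat_lit 4) (nat_lit 46075) (nat_lit 10) nil (node (nat_lit 5) (nat_lit 46075) (nat_lit 10) nil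
  (node (nat_lit 0) (nat_lit 46838) (nat_lit 10) nil nil)))) (node (nat_lit 0) (nat_lit 46821)
  (nat_lit 9) nil nil))) nil) (node (nat_lit 4) (nat_lit 42267) (nat_lit 7) (node (nat_lit 5)
  (nat_lit 42267) (nat_lit 8) (node (nat_lit 6) (nat_lit 43875) (nat_lit 9) nil nil) (node
  (nat_lit 6) (nat_lit 43634) (nat_lit 8) nil nil)) nil)) (node (nat_lit 3) (nat_lit 42001)
  (nat_lit 6) nil (node (nat_lit 0) (nat_lit 42617) (nat_lit 6) nil nil))) (node (nat_lit 5)
  (nat_lit 29992) (nat_lit 5) (node (nat_lit 4) (nat_lit 33472) (nat_lit 6) (node (nat_lit 6)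
  (nat_lit 45921) (nat_lit 7) (node (nat_lit 5) (nat_lit 45921) (nat_lit 8) (node (nat_lit 6)
  (nat_lit 46505) (nat_lit 9) nil (node (nat_lit 4) (nat_lit 45921) (nat_lit 9) (node (nat_lit 5)
  (nat_lit 45921) (nat_lit 10) (node (nat_lit 6) (nat_lit 46829) (nat_lit 11) (node (nat_lit 4)
  (nat_lit 46829) (nat_lit 12) (node (nat_lit 5) (nat_lit 46829) (nat_lit 13) (node (nat_lit 4)
  (nat_lit 46829) (nat_lit 14) (node (nat_lit 6) (nat_lit 28072) (nat_lit 15) nil nil) nil) nil)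
  nil) nil) nil) nil)) (node (nat_lit 0) (nat_lit 46550) (nat_lit 8) nil nil)) (node (nat_lit 3)
  (nat_lit 36038) (nat_lit 7) (node (nat_lit 5) (nat_lit 37743) (nat_lit 8) nil (node (nat_lit 4)
  (nat_lit 36038) (nat_lit 8) nil nil)) (node (nat_lit 0) (nat_lit 40438) (nat_lit 7) nil nil)))
  (node (nat_lit 3) (nat_lit 32819) (nat_lit 6) (node (nat_lit 4) (nat_lit 33194) (nat_lit 7)
  (node (nat_lit 5) (nat_lit 33670) (nat_lit 8) (node (nat_lit 6) (nat_lit 31570) (nat_lit 9) nil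
  nil) (node (nat_lit 6) (nat_lit 36646) (nat_lit 8) nil (node (nat_lit 9) (nat_lit 33194)
  (nat_lit 8) nil nil))) (node (nat_lit 5) (nat_lit 32819) (nat_lit 7) (node (nat_lit 4) (nat_lit
  32819) (nat_lit 8) nil nil) (node (nat_lit 6) (nat_lit 35964) (nat_lit 7) nil (node (nat_lit 0)
  (nat_lit 35964) (nat_lit 7) nil nil)))) (node (nat_lit 0) (nat_lit 41337) (nat_lit 6) nil nil)))
  (node (nat_lit 3) (nat_lit 30644) (nat_lit 5) (node (nat_lit 6) (nat_lit 43471) (nat_lit 6) nil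
  (node (nat_lit 5) (nat_lit 33626) (nat_lit 6) (node (nat_lit 4) (nat_lit 37215) (nat_lit 7)
  (node (nat_lit 5) (nat_lit 39777) (nat_lit 8) (node (nat_lit 8) (nat_lit 39546) (nat_lit 9)
  (node (nat_lit 4) (nat_lit 40444) (nat_lit 10) nil nil) (node (nat_lit 6) (nat_lit 30086)
  (nat_lit 9) (node (nat_lit 4) (nat_lit 25649) (nat_lit 10) nil nil) nil)) (node (nat_lit 8)
  (nat_lit 38921) (nat_lit 8) (node (nat_lit 4) (nat_lit 40144) (nat_lit 9) nil nil) nil)) (node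
  (nat_lit 8) (nat_lit 36018) (nat_lit 7) (node (nat_lit 4) (nat_lit 37169) (nat_lit 8) (node
  (nat_lit 5) (nat_lit 38392) (nat_lit 9) (node (nat_lit 4) (nat_lit 38214) (nat_lit 10) nil nil)
  (node (nat_lit 8) (nat_lit 36938) (nat_lit 9) nil nil)) (node (nat_lit 6) (nat_lit 39306)
  (nat_lit 8) nil (node (nat_lit 0) (nat_lit 39306) (nat_lit 8) nil nil))) (node (nat_lit 6)
  (nat_lit 38991) (nat_lit 7) nil (node (nat_lit 0) (nat_lit 36665) (nat_lit 7) nil nil)))) (node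
  (nat_lit 4) (nat_lit 33346) (nat_lit 6) (node (nat_lit 5) (nat_lit 35440) (nat_lit 7) (node
  (nat_lit 6) (nat_lit 28724) (nat_lit 8) nil (node (nat_lit 4) (nat_lit 36518) (nat_lit 8) nil
  (node (nat_lit 8) (nat_lit 35440) (nat_lit 8) nil nil))) (node (nat_lit 6) (nat_lit 36386)
  (nat_lit 7) nil (node (nat_lit 0) (nat_lit 36386) (nat_lit 7) nil nil))) (node (nat_lit 0)
  (nat_lit 43471) (nat_lit 6) nil nil)))) (node (nat_lit 0) (nat_lit 42022) (nat_lit 5) (node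
  (nat_lit 5) (nat_lit 42022) (nat_lit 6) nil (node (nat_lit 6) (nat_lit 43172) (nat_lit 6) nil
  (node (nat_lit 4) (nat_lit 42022) (nat_lit 6) nil (node (nat_lit 3) (nat_lit 42022) (nat_lit 6)
  nil (node (nat_lit 0) (nat_lit 43102) (nat_lit 6) nil nil))))) nil)))) (node (nat_lit 3)
  (nat_lit 0) (nat_lit 4) (node (nat_lit 4) (nat_lit 29479) (nat_lit 5) (node (nat_lit 5) (nat_lit
  32047) (nat_lit 6) (node (nat_lit 7) (nat_lit 33133) (nat_lit 7) (node (nat_lit 5) (nat_lit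
  34427) (nat_lit 8) (node (nat_lit 4) (nat_lit 35357) (nat_lit 9) (node (nat_lit 7) (nat_lit
  35346) (nat_lit 10) (node (nat_lit 4) (nat_lit 35062) (nat_lit 11) (node (nat_lit 5) (nat_lit
  33547) (nat_lit 12) nil nil) nil) nil) nil) (node (nat_lit 4) (nat_lit 33133) (nat_lit 8) nil
  nil)) (node (nat_lit 4) (nat_lit 32047) (nat_lit 7) (node (nat_lit 7) (nat_lit 32047) (nat_lit
  8) nil nil) (node (nat_lit 6) (nat_lit 14388) (nat_lit 7) nil (node (nat_lit 0) (nat_lit 35087)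
  (nat_lit 7) nil nil)))) (node (nat_lit 6) (nat_lit 41183) (nat_lit 6) nil (node (nat_lit 7)
  (nat_lit 31641) (nat_lit 6) (node (nat_lit 6) (nat_lit 34680) (nat_lit 7) nil (node (nat_lit 5)
  (nat_lit 31641) (nat_lit 7) (node (nat_lit 4) (nat_lit 31641) (nat_lit 8) nil nil) nil)) (node
  (nat_lit 0) (nat_lit 34266) (nat_lit 6) nil nil)))) (node (nat_lit 5) (nat_lit 0) (nat_lit 5)
  (node (nat_lit 7) (nat_lit 33275) (nat_lit 6) (node (nat_lit 6) (nat_lit 45237) (nat_lit 7)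
  (node (nat_lit 5) (nat_lit 45237) (nat_lit 8) nil nil) (node (nat_lit 4) (nat_lit 32993)
  (nat_lit 7) (node (nat_lit 5) (nat_lit 32993) (nat_lit 8) nil nil) (node (nat_lit 0) (nat_lit
  36315) (nat_lit 7) nil nil))) (node (nat_lit 4) (nat_lit 32890) (nat_lit 6) (node (nat_lit 7)
  (nat_lit 34610) (nat_lit 7) (node (nat_lit 6) (nat_lit 37898) (nat_lit 8) nil (node (nat_lit 4)
  (nat_lit 34610) (nat_lit 8) nil (node (nat_lit 5) (nat_lit 34610) (nat_lit 8) nil nil))) (node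
  (nat_lit 5) (nat_lit 32890) (nat_lit 7) (node (nat_lit 6) (nat_lit 21578) (nat_lit 8) nil nil)
  (node (nat_lit 6) (nat_lit 35930) (nat_lit 7) nil (node (nat_lit 0) (nat_lit 35930) (nat_lit 7)
  nil nil)))) (node (nat_lit 6) (nat_lit 37514) (nat_lit 6) nil (node (nat_lit 0) (nat_lit 41472)
  (nat_lit 6) nil nil)))) (node (nat_lit 6) (nat_lit 42152) (nat_lit 5) (node (nat_lit 5) (nat_lit
  42085) (nat_lit 6) (node (nat_lit 6) (nat_lit 45739) (nat_lit 7) (node (nat_lit 7) (nat_lit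
  45739) (nat_lit 8) (node (nat_lit 5) (nat_lit 45739) (nat_lit 9) (node (nat_lit 7) (nat_lit
  45739) (nat_lit 10) nil (node (nat_lit 6) (nat_lit 46254) (nat_lit 10) nil nil)) nil) nil) nil)
  nil) (node (nat_lit 0) (nat_lit 41469) (nat_lit 5) nil nil)))) (node (nat_lit 0) (nat_lit 0)
  (nat_lit 4) (node (nat_lit 5) (nat_lit 36505) (nat_lit 5) (node (nat_lit 6) (nat_lit 44626)
  (nat_lit 6) (node (nat_lit 5) (nat_lit 44569) (nat_lit 7) (node (nat_lit 7) (nat_lit 46003)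
  (nat_lit 8) (node (nat_lit 5) (nat_lit 46003) (nat_lit 9) nil nil) (node (nat_lit 0) (nat_lit
  45155) (nat_lit 8) nil nil)) (node (nat_lit 4) (nat_lit 44626) (nat_lit 7) nil (node (nat_lit 0)
  (nat_lit 45205) (nat_lit 7) nil nil))) (node (nat_lit 7) (nat_lit 43622) (nat_lit 6) (node
  (nat_lit 6) (nat_lit 44201) (nat_lit 7) nil nil) (node (nat_lit 4) (nat_lit 36505) (nat_lit 6)
  nil (node (nat_lit 3) (nat_lit 36505) (nat_lit 6) nil (node (nat_lit 0) (nat_lit 39523) (nat_lit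
  6) nil nil))))) (node (nat_lit 6) (nat_lit 42467) (nat_lit 5) (node (nat_lit 5) (nat_lit 42434)
  (nat_lit 6) (node (nat_lit 6) (nat_lit 45534) (nat_lit 7) (node (nat_lit 7) (nat_lit 46040)
  (nat_lit 8) (node (nat_lit 5) (nat_lit 46040) (nat_lit 9) (node (nat_lit 7) (nat_lit 46306)
  (nat_lit 10) nil nil) nil) nil) (node (nat_lit 7) (nat_lit 43353) (nat_lit 7) nil nil)) (node
  (nat_lit 4) (nat_lit 42467) (nat_lit 6) nil nil)) (node (nat_lit 4) (nat_lit 36736) (nat_lit 5)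
  (node (nat_lit 6) (nat_lit 38215) (nat_lit 6) nil (node (nat_lit 7) (nat_lit 38215) (nat_lit 6)
  nil nil)) (node (nat_lit 3) (nat_lit 36736) (nat_lit 5) (node (nat_lit 6) (nat_lit 38215)
  (nat_lit 6) nil nil) (node (nat_lit 0) (nat_lit 40682) (nat_lit 5) nil nil))))) nil))))

noncomputable def t408 : Tr :=
  (node (nat_lit 4) (nat_lit 0) (nat_lit 3) (node (nat_lit 0) (nat_lit 0) (nat_lit 4) (node
  (nat_lit 5) (nat_lit 0) (nat_lit 5) (node (nat_lit 4) (nat_lit 16186) (nat_lit 6) (node (nat_lit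
  5) (nat_lit 17503) (nat_lit 7) (node (nat_lit 7) (nat_lit 23610) (nat_lit 8) (node (nat_lit 4)
  (nat_lit 23720) (nat_lit 9) (node (nat_lit 7) (nat_lit 24176) (nat_lit 10) (node (nat_lit 5)
  (nat_lit 24176) (nat_lit 11) (node (nat_lit 4) (nat_lit 24176) (nat_lit 12) (node (nat_lit 7)
  (nat_lit 24176) (nat_lit 13) nil nil) (node (nat_lit 7) (nat_lit 24176) (nat_lit 12) nil nil))
  (node (nat_lit 3) (nat_lit 24176) (nat_lit 11) nil (node (nat_lit 0) (nat_lit 24176) (nat_lit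
  11) nil nil))) (node (nat_lit 5) (nat_lit 23683) (nat_lit 10) (node (nat_lit 4) (nat_lit 23683)
  (nat_lit 11) (node (nat_lit 7) (nat_lit 24176) (nat_lit 12) nil (node (nat_lit 3) (nat_lit
  23683) (nat_lit 12) nil (node (nat_lit 0) (nat_lit 23915) (nat_lit 12) nil nil))) (node (nat_lit
  3) (nat_lit 23683) (nat_lit 11) nil (node (nat_lit 0) (nat_lit 24167) (nat_lit 11) nil nil)))
  (node (nat_lit 3) (nat_lit 23720) (nat_lit 10) (node (nat_lit 7) (nat_lit 23906) (nat_lit 11)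
  nil nil) (node (nat_lit 0) (nat_lit 24124) (nat_lit 10) nil nil)))) (node (nat_lit 5) (nat_lit
  23735) (nat_lit 9) (node (nat_lit 4) (nat_lit 23850) (nat_lit 10) (node (nat_lit 7) (nat_lit
  24176) (nat_lit 11) (node (nat_lit 4) (nat_lit 24176) (nat_lit 12) (node (nat_lit 5) (nat_lit
  24176) (nat_lit 13) (node (nat_lit 4) (nat_lit 24176) (nat_lit 14) nil nil) nil) (node (nat_lit
  5) (nat_lit 24176) (nat_lit 12) nil (node (nat_lit 0) (nat_lit 24176) (nat_lit 12) nil nil)))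
  (node (nat_lit 3) (nat_lit 23850) (nat_lit 11) nil (node (nat_lit 0) (nat_lit 24176) (nat_lit
  11) nil nil))) (node (nat_lit 3) (nat_lit 23735) (nat_lit 10) (node (nat_lit 4) (nat_lit 23735)
  (nat_lit 11) nil (node (nat_lit 7) (nat_lit 23921) (nat_lit 11) nil (node (nat_lit 5) (nat_lit
  23735) (nat_lit 11) nil (node (nat_lit 0) (nat_lit 23921) (nat_lit 11) nil nil)))) (node
  (nat_lit 0) (nat_lit 24176) (nat_lit 10) nil nil))) (node (nat_lit 3) (nat_lit 23610) (nat_lit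
  9) (node (nat_lit 4) (nat_lit 23610) (nat_lit 10) nil (node (nat_lit 5) (nat_lit 23610) (nat_lit
  10) nil (node (nat_lit 7) (nat_lit 23745) (nat_lit 10) nil (node (nat_lit 0) (nat_lit 23745)
  (nat_lit 10) nil nil)))) (node (nat_lit 0) (nat_lit 23993) (nat_lit 9) (node (nat_lit 7)
  (nat_lit 24051) (nat_lit 10) nil nil) nil)))) (node (nat_lit 3) (nat_lit 18975) (nat_lit 8)
  (node (nat_lit 4) (nat_lit 20735) (nat_lit 9) (node (nat_lit 5) (nat_lit 22057) (nat_lit 10)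
  (node (nat_lit 4) (nat_lit 21869) (nat_lit 11) (node (nat_lit 7) (nat_lit 14908) (nat_lit 12)
  (node (nat_lit 5) (nat_lit 14908) (nat_lit 13) nil nil) nil) (node (nat_lit 7) (nat_lit 22901)
  (nat_lit 11) nil nil)) (node (nat_lit 11) (nat_lit 21799) (nat_lit 10) (node (nat_lit 5)
  (nat_lit 21873) (nat_lit 11) (node (nat_lit 11) (nat_lit 22120) (nat_lit 12) (node (nat_lit 4)
  (nat_lit 21894) (nat_lit 13) (node (nat_lit 5) (nat_lit 21131) (nat_lit 14) nil nil) nil) nil)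
  (node (nat_lit 7) (nat_lit 22644) (nat_lit 11) nil nil)) (node (nat_lit 7) (nat_lit 22156)
  (nat_lit 10) nil (node (nat_lit 0) (nat_lit 22156) (nat_lit 10) nil nil)))) (node (nat_lit 5)
  (nat_lit 20617) (nat_lit 9) (node (nat_lit 4) (nat_lit 21585) (nat_lit 10) (node (nat_lit 11)
  (nat_lit 21508) (nat_lit 11) (node (nat_lit 4) (nat_lit 21066) (nat_lit 12) (node (nat_lit 5)
  (nat_lit 19994) (nat_lit 13) nil nil) nil) (node (nat_lit 7) (nat_lit 22430) (nat_lit 11) nil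
  nil)) (node (nat_lit 7) (nat_lit 22962) (nat_lit 10) nil (node (nat_lit 0) (nat_lit 22962)
  (nat_lit 10) nil nil))) (node (nat_lit 7) (nat_lit 23465) (nat_lit 9) nil (node (nat_lit 0)
  (nat_lit 23304) (nat_lit 9) nil nil)))) (node (nat_lit 0) (nat_lit 23724) (nat_lit 8) (node
  (nat_lit 4) (nat_lit 23724) (nat_lit 9) nil (node (nat_lit 5) (nat_lit 23724) (nat_lit 9) nil
  (node (nat_lit 7) (nat_lit 23911) (nat_lit 9) nil (node (nat_lit 3) (nat_lit 23724) (nat_lit 9)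
  nil (node (nat_lit 0) (nat_lit 23911) (nat_lit 9) nil nil))))) nil))) (node (nat_lit 3) (nat_lit
  17747) (nat_lit 7) (node (nat_lit 5) (nat_lit 19417) (nat_lit 8) (node (nat_lit 10) (nat_lit
  20665) (nat_lit 9) (node (nat_lit 4) (nat_lit 21292) (nat_lit 10) nil (node (nat_lit 7) (nat_lit
  22086) (nat_lit 10) nil (node (nat_lit 0) (nat_lit 22086) (nat_lit 10) nil nil))) (node (nat_lit
  4) (nat_lit 20888) (nat_lit 9) (node (nat_lit 5) (nat_lit 21109) (nat_lit 10) (node (nat_lit 10)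
  (nat_lit 20016) (nat_lit 11) nil nil) (node (nat_lit 7) (nat_lit 22309) (nat_lit 10) nil nil))
  (node (nat_lit 7) (nat_lit 23902) (nat_lit 9) nil (node (nat_lit 0) (nat_lit 23216) (nat_lit 9)
  nil nil)))) (node (nat_lit 4) (nat_lit 19254) (nat_lit 8) (node (nat_lit 5) (nat_lit 20273)
  (nat_lit 9) (node (nat_lit 10) (nat_lit 20901) (nat_lit 10) nil (node (nat_lit 4) (nat_lit
  19898) (nat_lit 10) nil (node (nat_lit 7) (nat_lit 22618) (nat_lit 10) nil (node (nat_lit 0)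
  (nat_lit 21694) (nat_lit 10) nil nil)))) (node (nat_lit 7) (nat_lit 23053) (nat_lit 9) nil (node
  (nat_lit 0) (nat_lit 23053) (nat_lit 9) nil nil))) (node (nat_lit 7) (nat_lit 23682) (nat_lit 8)
  (node (nat_lit 10) (nat_lit 23682) (nat_lit 9) nil (node (nat_lit 4) (nat_lit 23682) (nat_lit 9)
  nil nil)) (node (nat_lit 0) (nat_lit 23301) (nat_lit 8) nil nil)))) (node (nat_lit 0) (nat_lit
  22835) (nat_lit 7) (node (nat_lit 4) (nat_lit 22835) (nat_lit 8) (node (nat_lit 7) (nat_lit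
  23037) (nat_lit 9) nil nil) (node (nat_lit 5) (nat_lit 22835) (nat_lit 8) nil (node (nat_lit 7)
  (nat_lit 23327) (nat_lit 8) nil (node (nat_lit 3) (nat_lit 22835) (nat_lit 8) nil (node (nat_lit
  0) (nat_lit 23218) (nat_lit 8) nil nil))))) nil))) (node (nat_lit 7) (nat_lit 21152) (nat_lit 6)
  (node (nat_lit 4) (nat_lit 21459) (nat_lit 7) (node (nat_lit 7) (nat_lit 22952) (nat_lit 8)
  (node (nat_lit 5) (nat_lit 22952) (nat_lit 9) nil nil) (node (nat_lit 5) (nat_lit 21459)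
  (nat_lit 8) (node (nat_lit 7) (nat_lit 22332) (nat_lit 9) nil nil) nil)) (node (nat_lit 3)
  (nat_lit 21152) (nat_lit 7) nil (node (nat_lit 0) (nat_lit 21324) (nat_lit 7) nil nil))) (node
  (nat_lit 3) (nat_lit 16288) (nat_lit 6) (node (nat_lit 7) (nat_lit 21227) (nat_lit 7) nil (node
  (nat_lit 4) (nat_lit 16288) (nat_lit 7) nil (node (nat_lit 5) (nat_lit 16288) (nat_lit 7) nil
  nil))) (node (nat_lit 0) (nat_lit 20051) (nat_lit 6) (node (nat_lit 5) (nat_lit 20051) (nat_lit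
  7) nil nil) nil)))) (node (nat_lit 4) (nat_lit 0) (nat_lit 5) (node (nat_lit 5) (nat_lit 16118)
  (nat_lit 6) (node (nat_lit 7) (nat_lit 22690) (nat_lit 7) (node (nat_lit 5) (nat_lit 22818)
  (nat_lit 8) (node (nat_lit 4) (nat_lit 22961) (nat_lit 9) (node (nat_lit 7) (nat_lit 24176)
  (nat_lit 10) (node (nat_lit 4) (nat_lit 24176) (nat_lit 11) (node (nat_lit 5) (nat_lit 24176)
  (nat_lit 12) (node (nat_lit 4) (nat_lit 24176) (nat_lit 13) nil nil) nil) nil) nil) nil) (node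
  (nat_lit 4) (nat_lit 22690) (nat_lit 8) nil nil)) (node (nat_lit 3) (nat_lit 16118) (nat_lit 7)
  nil (node (nat_lit 0) (nat_lit 19828) (nat_lit 7) nil nil))) (node (nat_lit 3) (nat_lit 15078)
  (nat_lit 6) nil (node (nat_lit 0) (nat_lit 19509) (nat_lit 6) nil nil))) (node (nat_lit 3)
  (nat_lit 14934) (nat_lit 5) (node (nat_lit 4) (nat_lit 16230) (nat_lit 6) (node (nat_lit 5)
  (nat_lit 16352) (nat_lit 7) (node (nat_lit 8) (nat_lit 16352) (nat_lit 8) nil (node (nat_lit 7)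
  (nat_lit 17639) (nat_lit 8) nil (node (nat_lit 4) (nat_lit 16352) (nat_lit 8) nil (node (nat_lit
  0) (nat_lit 17639) (nat_lit 8) nil nil)))) (node (nat_lit 8) (nat_lit 17409) (nat_lit 7) (node
  (nat_lit 7) (nat_lit 20089) (nat_lit 8) nil (node (nat_lit 5) (nat_lit 17476) (nat_lit 8) nil
  (node (nat_lit 0) (nat_lit 18695) (nat_lit 8) nil nil))) (node (nat_lit 0) (nat_lit 19939)
  (nat_lit 7) nil nil))) (node (nat_lit 5) (nat_lit 15085) (nat_lit 6) (node (nat_lit 7) (nat_lit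
  17493) (nat_lit 7) nil (node (nat_lit 8) (nat_lit 15085) (nat_lit 7) nil nil)) (node (nat_lit 7)
  (nat_lit 19365) (nat_lit 6) nil (node (nat_lit 0) (nat_lit 16929) (nat_lit 6) nil nil)))) (node
  (nat_lit 0) (nat_lit 18488) (nat_lit 5) (node (nat_lit 4) (nat_lit 18488) (nat_lit 6) nil (node
  (nat_lit 5) (nat_lit 18488) (nat_lit 6) nil (node (nat_lit 7) (nat_lit 18849) (nat_lit 6) nil
  (node (nat_lit 3) (nat_lit 18488) (nat_lit 6) nil (node (nat_lit 0) (nat_lit 18849) (nat_lit 6)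
  nil nil))))) nil)))) nil) (node (nat_lit 3) (nat_lit 0) (nat_lit 3) (node (nat_lit 4) (nat_lit
  0) (nat_lit 4) (node (nat_lit 0) (nat_lit 0) (nat_lit 5) (node (nat_lit 5) (nat_lit 20169)
  (nat_lit 6) nil (node (nat_lit 4) (nat_lit 20169) (nat_lit 6) (node (nat_lit 6) (nat_lit 20169)
  (nat_lit 7) nil nil) (node (nat_lit 6) (nat_lit 20169) (nat_lit 6) nil (node (nat_lit 0)
  (nat_lit 20848) (nat_lit 6) nil nil)))) (node (nat_lit 6) (nat_lit 0) (nat_lit 5) (node (nat_lit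
  5) (nat_lit 0) (nat_lit 6) (node (nat_lit 6) (nat_lit 0) (nat_lit 7) (node (nat_lit 4) (nat_lit
  6620) (nat_lit 8) (node (nat_lit 5) (nat_lit 7830) (nat_lit 9) (node (nat_lit 6) (nat_lit 7761)
  (nat_lit 10) nil nil) nil) (node (nat_lit 0) (nat_lit 14210) (nat_lit 8) nil nil)) (node
  (nat_lit 0) (nat_lit 19056) (nat_lit 7) (node (nat_lit 4) (nat_lit 19056) (nat_lit 8) nil nil)
  nil)) (node (nat_lit 0) (nat_lit 20362) (nat_lit 6) (node (nat_lit 4) (nat_lit 20362) (nat_lit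
  7) nil (node (nat_lit 6) (nat_lit 20362) (nat_lit 7) nil (node (nat_lit 5) (nat_lit 20362)
  (nat_lit 7) nil (node (nat_lit 0) (nat_lit 20940) (nat_lit 7) nil nil)))) nil)) (node (nat_lit
  5) (nat_lit 0) (nat_lit 5) (node (nat_lit 4) (nat_lit 0) (nat_lit 6) (node (nat_lit 6) (nat_lit
  0) (nat_lit 7) (node (nat_lit 5) (nat_lit 5694) (nat_lit 8) (node (nat_lit 6) (nat_lit 6222)
  (nat_lit 9) nil (node (nat_lit 0) (nat_lit 7533) (nat_lit 9) nil nil)) (node (nat_lit 4)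
  (nat_lit 6999) (nat_lit 8) nil (node (nat_lit 0) (nat_lit 10672) (nat_lit 8) nil nil))) (node
  (nat_lit 0) (nat_lit 12567) (nat_lit 7) nil nil)) (node (nat_lit 0) (nat_lit 12404) (nat_lit 6)
  (node (nat_lit 4) (nat_lit 12404) (nat_lit 7) (node (nat_lit 6) (nat_lit 12404) (nat_lit 8) nil
  nil) (node (nat_lit 6) (nat_lit 12404) (nat_lit 7) nil (node (nat_lit 0) (nat_lit 12677)
  (nat_lit 7) nil nil))) nil)) nil))) (node (nat_lit 0) (nat_lit 0) (nat_lit 4) (node (nat_lit 5)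
  (nat_lit 0) (nat_lit 5) (node (nat_lit 6) (nat_lit 27076) (nat_lit 6) (node (nat_lit 5) (nat_lit
  29927) (nat_lit 7) (node (nat_lit 7) (nat_lit 38570) (nat_lit 8) (node (nat_lit 5) (nat_lit
  38570) (nat_lit 9) (node (nat_lit 6) (nat_lit 38570) (nat_lit 10) (node (nat_lit 7) (nat_lit
  38676) (nat_lit 11) (node (nat_lit 6) (nat_lit 38676) (nat_lit 12) (node (nat_lit 5) (nat_lit
  38676) (nat_lit 13) (node (nat_lit 6) (nat_lit 38676) (nat_lit 14) (node (nat_lit 7) (nat_lit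
  38676) (nat_lit 15) nil nil) nil) nil) (node (nat_lit 5) (nat_lit 38676) (nat_lit 12) nil nil))
  (node (nat_lit 4) (nat_lit 38570) (nat_lit 11) nil (node (nat_lit 0) (nat_lit 38676) (nat_lit
  11) nil nil))) (node (nat_lit 4) (nat_lit 38570) (nat_lit 10) (node (nat_lit 7) (nat_lit 38676)
  (nat_lit 11) nil nil) (node (nat_lit 0) (nat_lit 38676) (nat_lit 10) (node (nat_lit 7) (nat_lit
  38676) (nat_lit 11) nil nil) nil))) (node (nat_lit 6) (nat_lit 38570) (nat_lit 9) (node (nat_lit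
  5) (nat_lit 38570) (nat_lit 10) (node (nat_lit 6) (nat_lit 38570) (nat_lit 11) nil nil) (node
  (nat_lit 7) (nat_lit 38676) (nat_lit 10) (node (nat_lit 5) (nat_lit 38676) (nat_lit 11) nil nil)
  nil)) (node (nat_lit 4) (nat_lit 38570) (nat_lit 9) nil (node (nat_lit 0) (nat_lit 38637)
  (nat_lit 9) nil nil)))) (node (nat_lit 4) (nat_lit 32370) (nat_lit 8) (node (nat_lit 6) (nat_lit
  33644) (nat_lit 9) (node (nat_lit 4) (nat_lit 34722) (nat_lit 10) nil (node (nat_lit 5) (nat_lit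
  33708) (nat_lit 10) nil (node (nat_lit 7) (nat_lit 36228) (nat_lit 10) nil (node (nat_lit 0)
  (nat_lit 36228) (nat_lit 10) nil nil)))) (node (nat_lit 7) (nat_lit 38613) (nat_lit 9) nil (node
  (nat_lit 5) (nat_lit 32370) (nat_lit 9) nil (node (nat_lit 0) (nat_lit 37140) (nat_lit 9) nil
  nil)))) (node (nat_lit 0) (nat_lit 38505) (nat_lit 8) (node (nat_lit 4) (nat_lit 38505) (nat_lit
  9) nil (node (nat_lit 7) (nat_lit 38572) (nat_lit 9) nil nil)) nil))) (node (nat_lit 4) (nat_lit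
  30172) (nat_lit 7) (node (nat_lit 7) (nat_lit 38481) (nat_lit 8) (node (nat_lit 6) (nat_lit
  38481) (nat_lit 9) nil (node (nat_lit 5) (nat_lit 38481) (nat_lit 9) nil (node (nat_lit 4)
  (nat_lit 38481) (nat_lit 9) nil (node (nat_lit 0) (nat_lit 38627) (nat_lit 9) nil nil)))) (node
  (nat_lit 5) (nat_lit 32440) (nat_lit 8) (node (nat_lit 4) (nat_lit 33119) (nat_lit 9) (node
  (nat_lit 7) (nat_lit 35703) (nat_lit 10) nil nil) (node (nat_lit 7) (nat_lit 38037) (nat_lit 9)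
  nil (node (nat_lit 6) (nat_lit 33119) (nat_lit 9) (node (nat_lit 7) (nat_lit 29980) (nat_lit 10)
  nil nil) (node (nat_lit 0) (nat_lit 36417) (nat_lit 9) nil nil)))) (node (nat_lit 6) (nat_lit
  32487) (nat_lit 8) (node (nat_lit 5) (nat_lit 33143) (nat_lit 9) (node (nat_lit 7) (nat_lit
  35726) (nat_lit 10) nil nil) (node (nat_lit 7) (nat_lit 36464) (nat_lit 9) nil (node (nat_lit 0)
  (nat_lit 36464) (nat_lit 9) nil nil))) (node (nat_lit 0) (nat_lit 37460) (nat_lit 8) nil nil))))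
  (node (nat_lit 0) (nat_lit 37564) (nat_lit 7) (node (nat_lit 6) (nat_lit 37564) (nat_lit 8) nil
  (node (nat_lit 5) (nat_lit 37564) (nat_lit 8) nil (node (nat_lit 4) (nat_lit 37564) (nat_lit 8)
  nil (node (nat_lit 7) (nat_lit 37951) (nat_lit 8) nil (node (nat_lit 0) (nat_lit 37805) (nat_lit
  8) nil nil))))) nil))) (node (nat_lit 4) (nat_lit 25624) (nat_lit 6) (node (nat_lit 7) (nat_lit
  30916) (nat_lit 7) nil (node (nat_lit 6) (nat_lit 25624) (nat_lit 7) nil nil)) (node (nat_lit 7)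
  (nat_lit 32245) (nat_lit 6) (node (nat_lit 6) (nat_lit 32245) (nat_lit 7) nil nil) (node
  (nat_lit 0) (nat_lit 29960) (nat_lit 6) nil nil)))) (node (nat_lit 4) (nat_lit 0) (nat_lit 5)
  (node (nat_lit 6) (nat_lit 26995) (nat_lit 6) (node (nat_lit 4) (nat_lit 28075) (nat_lit 7)
  (node (nat_lit 7) (nat_lit 32530) (nat_lit 8) nil (node (nat_lit 5) (nat_lit 28075) (nat_lit 8)
  nil (node (nat_lit 0) (nat_lit 30401) (nat_lit 8) nil nil))) (node (nat_lit 5) (nat_lit 27843)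
  (nat_lit 7) (node (nat_lit 4) (nat_lit 27843) (nat_lit 8) nil (node (nat_lit 7) (nat_lit 30169)
  (nat_lit 8) nil (node (nat_lit 6) (nat_lit 27843) (nat_lit 8) nil (node (nat_lit 0) (nat_lit
  30169) (nat_lit 8) nil nil)))) (node (nat_lit 0) (nat_lit 30986) (nat_lit 7) nil nil))) (node
  (nat_lit 7) (nat_lit 28998) (nat_lit 6) nil (node (nat_lit 5) (nat_lit 24668) (nat_lit 6) (node
  (nat_lit 7) (nat_lit 26752) (nat_lit 7) nil nil) (node (nat_lit 0) (nat_lit 26425) (nat_lit 6)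
  nil nil)))) (node (nat_lit 6) (nat_lit 0) (nat_lit 5) (node (nat_lit 5) (nat_lit 26708) (nat_lit
  6) (node (nat_lit 7) (nat_lit 37182) (nat_lit 7) (node (nat_lit 5) (nat_lit 37182) (nat_lit 8)
  (node (nat_lit 6) (nat_lit 37182) (nat_lit 9) (node (nat_lit 7) (nat_lit 38036) (nat_lit 10)
  (node (nat_lit 6) (nat_lit 38036) (nat_lit 11) (node (nat_lit 5) (nat_lit 38036) (nat_lit 12)
  nil nil) nil) nil) nil) nil) (node (nat_lit 4) (nat_lit 26708) (nat_lit 7) nil nil)) (node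
  (nat_lit 4) (nat_lit 24349) (nat_lit 6) (node (nat_lit 7) (nat_lit 26434) (nat_lit 7) nil nil)
  (node (nat_lit 0) (nat_lit 27645) (nat_lit 6) nil nil))) (node (nat_lit 0) (nat_lit 29509)
  (nat_lit 5) (node (nat_lit 6) (nat_lit 29509) (nat_lit 6) nil (node (nat_lit 5) (nat_lit 29509)
  (nat_lit 6) nil (node (nat_lit 7) (nat_lit 30188) (nat_lit 6) nil (node (nat_lit 4) (nat_lit
  29509) (nat_lit 6) nil (node (nat_lit 0) (nat_lit 30188) (nat_lit 6) nil nil))))) nil)))) (node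
  (nat_lit 5) (nat_lit 0) (nat_lit 4) (node (nat_lit 0) (nat_lit 0) (nat_lit 5) (node (nat_lit 4)
  (nat_lit 11016) (nat_lit 6) (node (nat_lit 6) (nat_lit 11016) (nat_lit 7) nil nil) (node
  (nat_lit 6) (nat_lit 10998) (nat_lit 6) nil (node (nat_lit 5) (nat_lit 10998) (nat_lit 6) nil
  (node (nat_lit 0) (nat_lit 11299) (nat_lit 6) nil nil)))) (node (nat_lit 4) (nat_lit 0) (nat_lit
  5) (node (nat_lit 0) (nat_lit 11100) (nat_lit 6) nil nil) nil)) nil))) nil))

noncomputable def t409 : Tr :=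
  (node (nat_lit 3) (nat_lit 0) (nat_lit 3) (node (nat_lit 4) (nat_lit 0) (nat_lit 4) (node
  (nat_lit 6) (nat_lit 43802) (nat_lit 5) (node (nat_lit 5) (nat_lit 65983) (nat_lit 6) (node
  (nat_lit 6) (nat_lit 65983) (nat_lit 7) nil (node (nat_lit 4) (nat_lit 65983) (nat_lit 7) nil
  nil)) (node (nat_lit 3) (nat_lit 51053) (nat_lit 6) (node (nat_lit 4) (nat_lit 56407) (nat_lit
  7) (node (nat_lit 9) (nat_lit 60280) (nat_lit 8) (node (nat_lit 6) (nat_lit 61297) (nat_lit 9)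
  (node (nat_lit 9) (nat_lit 60920) (nat_lit 10) (node (nat_lit 4) (nat_lit 61253) (nat_lit 11)
  nil nil) (node (nat_lit 4) (nat_lit 58561) (nat_lit 10) (node (nat_lit 9) (nat_lit 57720)
  (nat_lit 11) nil nil) nil)) nil) (node (nat_lit 6) (nat_lit 59163) (nat_lit 8) nil (node
  (nat_lit 5) (nat_lit 57283) (nat_lit 8) (node (nat_lit 6) (nat_lit 50787) (nat_lit 9) (node
  (nat_lit 4) (nat_lit 43632) (nat_lit 10) nil nil) nil) (node (nat_lit 0) (nat_lit 62198)
  (nat_lit 8) nil nil)))) (node (nat_lit 6) (nat_lit 55805) (nat_lit 7) (node (nat_lit 4) (nat_lit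
  56466) (nat_lit 8) (node (nat_lit 9) (nat_lit 56207) (nat_lit 9) (node (nat_lit 4) (nat_lit
  50907) (nat_lit 10) nil (node (nat_lit 6) (nat_lit 56108) (nat_lit 10) nil nil)) (node (nat_lit
  5) (nat_lit 53648) (nat_lit 9) nil nil)) (node (nat_lit 5) (nat_lit 61596) (nat_lit 8) nil (node
  (nat_lit 0) (nat_lit 61596) (nat_lit 8) nil nil))) (node (nat_lit 5) (nat_lit 63161) (nat_lit 7)
  nil (node (nat_lit 0) (nat_lit 63161) (nat_lit 7) nil nil)))) (node (nat_lit 0) (nat_lit 62526)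
  (nat_lit 6) nil nil))) (node (nat_lit 5) (nat_lit 0) (nat_lit 5) (node (nat_lit 4) (nat_lit
  32543) (nat_lit 6) (node (nat_lit 6) (nat_lit 32399) (nat_lit 7) (node (nat_lit 4) (nat_lit
  32475) (nat_lit 8) (node (nat_lit 5) (nat_lit 33987) (nat_lit 9) nil (node (nat_lit 0) (nat_lit
  33987) (nat_lit 9) nil (node (nat_lit 3) (nat_lit 32350) (nat_lit 9) (node (nat_lit 6) (nat_lit
  32688) (nat_lit 10) (node (nat_lit 4) (nat_lit 32968) (nat_lit 11) nil nil) (node (nat_lit 4)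
  (nat_lit 32350) (nat_lit 10) nil nil)) nil))) (node (nat_lit 5) (nat_lit 33742) (nat_lit 8) nil
  (node (nat_lit 3) (nat_lit 32399) (nat_lit 8) nil (node (nat_lit 0) (nat_lit 33005) (nat_lit 8)
  nil nil)))) nil) (node (nat_lit 3) (nat_lit 32627) (nat_lit 6) (node (nat_lit 6) (nat_lit 32627)
  (nat_lit 7) nil nil) (node (nat_lit 0) (nat_lit 32907) (nat_lit 6) nil nil))) (node (nat_lit 3)
  (nat_lit 44029) (nat_lit 5) (node (nat_lit 5) (nat_lit 64097) (nat_lit 6) nil (node (nat_lit 6)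
  (nat_lit 49480) (nat_lit 6) (node (nat_lit 8) (nat_lit 52591) (nat_lit 7) (node (nat_lit 4)
  (nat_lit 54796) (nat_lit 8) (node (nat_lit 8) (nat_lit 54742) (nat_lit 9) nil (node (nat_lit 6)
  (nat_lit 54746) (nat_lit 9) (node (nat_lit 4) (nat_lit 49149) (nat_lit 10) nil nil) nil)) (node
  (nat_lit 5) (nat_lit 58453) (nat_lit 8) nil nil)) (node (nat_lit 4) (nat_lit 53238) (nat_lit 7)
  (node (nat_lit 6) (nat_lit 54423) (nat_lit 8) (node (nat_lit 8) (nat_lit 53794) (nat_lit 9)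
  (node (nat_lit 4) (nat_lit 53582) (nat_lit 10) nil nil) nil) (node (nat_lit 5) (nat_lit 56094)
  (nat_lit 8) nil nil)) (node (nat_lit 5) (nat_lit 55074) (nat_lit 7) nil nil))) (node (nat_lit 4)
  (nat_lit 49719) (nat_lit 6) (node (nat_lit 6) (nat_lit 53402) (nat_lit 7) (node (nat_lit 8)
  (nat_lit 53969) (nat_lit 8) nil (node (nat_lit 4) (nat_lit 57725) (nat_lit 8) (node (nat_lit 8)
  (nat_lit 57700) (nat_lit 9) (node (nat_lit 6) (nat_lit 55383) (nat_lit 10) nil nil) nil) nil))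
  (node (nat_lit 5) (nat_lit 52767) (nat_lit 7) nil (node (nat_lit 0) (nat_lit 55313) (nat_lit 7)
  nil nil))) (node (nat_lit 0) (nat_lit 60094) (nat_lit 6) nil nil)))) (node (nat_lit 0) (nat_lit
  63210) (nat_lit 5) nil nil)))) (node (nat_lit 5) (nat_lit 0) (nat_lit 4) (node (nat_lit 4)
  (nat_lit 58715) (nat_lit 5) (node (nat_lit 6) (nat_lit 60145) (nat_lit 6) (node (nat_lit 4)
  (nat_lit 61629) (nat_lit 7) (node (nat_lit 5) (nat_lit 68217) (nat_lit 8) (node (nat_lit 6)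
  (nat_lit 68217) (nat_lit 9) (node (nat_lit 5) (nat_lit 55577) (nat_lit 10) (node (nat_lit 4)
  (nat_lit 34300) (nat_lit 11) nil nil) nil) (node (nat_lit 4) (nat_lit 68217) (nat_lit 9) nil
  (node (nat_lit 0) (nat_lit 68217) (nat_lit 9) nil (node (nat_lit 3) (nat_lit 68217) (nat_lit 9)
  nil nil)))) (node (nat_lit 3) (nat_lit 62846) (nat_lit 8) (node (nat_lit 6) (nat_lit 64218)
  (nat_lit 9) (node (nat_lit 4) (nat_lit 66003) (nat_lit 10) (node (nat_lit 6) (nat_lit 66836)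
  (nat_lit 11) (node (nat_lit 11) (nat_lit 66821) (nat_lit 12) (node (nat_lit 4) (nat_lit 65519)
  (nat_lit 13) nil nil) (node (nat_lit 5) (nat_lit 67928) (nat_lit 12) nil nil)) (node (nat_lit 5)
  (nat_lit 67943) (nat_lit 11) nil (node (nat_lit 0) (nat_lit 67943) (nat_lit 11) nil nil))) (node
  (nat_lit 11) (nat_lit 65505) (nat_lit 10) (node (nat_lit 4) (nat_lit 65431) (nat_lit 11) nil
  nil) (node (nat_lit 5) (nat_lit 67117) (nat_lit 10) nil (node (nat_lit 0) (nat_lit 67117)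
  (nat_lit 10) nil nil)))) (node (nat_lit 4) (nat_lit 63874) (nat_lit 9) (node (nat_lit 6)
  (nat_lit 64485) (nat_lit 10) (node (nat_lit 11) (nat_lit 64379) (nat_lit 11) (node (nat_lit 4)
  (nat_lit 64391) (nat_lit 12) nil nil) nil) (node (nat_lit 5) (nat_lit 66772) (nat_lit 10) nil
  (node (nat_lit 0) (nat_lit 66772) (nat_lit 10) nil nil))) (node (nat_lit 5) (nat_lit 68217)
  (nat_lit 9) nil (node (nat_lit 0) (nat_lit 68217) (nat_lit 9) nil nil)))) (node (nat_lit 0)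
  (nat_lit 68217) (nat_lit 8) (node (nat_lit 6) (nat_lit 68217) (nat_lit 9) nil (node (nat_lit 4)
  (nat_lit 68217) (nat_lit 9) nil nil)) nil))) (node (nat_lit 3) (nat_lit 61964) (nat_lit 7) (node
  (nat_lit 4) (nat_lit 63024) (nat_lit 8) (node (nat_lit 10) (nat_lit 64599) (nat_lit 9) (node
  (nat_lit 6) (nat_lit 65319) (nat_lit 10) (node (nat_lit 10) (nat_lit 66010) (nat_lit 11) (node
  (nat_lit 4) (nat_lit 63827) (nat_lit 12) nil nil) nil) (node (nat_lit 5) (nat_lit 67497)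
  (nat_lit 10) nil (node (nat_lit 0) (nat_lit 67497) (nat_lit 10) nil nil))) (node (nat_lit 6)
  (nat_lit 64177) (nat_lit 9) (node (nat_lit 4) (nat_lit 64415) (nat_lit 10) (node (nat_lit 10)
  (nat_lit 62905) (nat_lit 11) nil nil) (node (nat_lit 5) (nat_lit 67075) (nat_lit 10) nil nil))
  (node (nat_lit 5) (nat_lit 65798) (nat_lit 9) nil (node (nat_lit 0) (nat_lit 65798) (nat_lit 9)
  nil nil)))) (node (nat_lit 6) (nat_lit 62818) (nat_lit 8) (node (nat_lit 4) (nat_lit 63779)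
  (nat_lit 9) (node (nat_lit 10) (nat_lit 64555) (nat_lit 10) (node (nat_lit 6) (nat_lit 64463)
  (nat_lit 11) nil nil) (node (nat_lit 6) (nat_lit 64910) (nat_lit 10) (node (nat_lit 10) (nat_lit
  64966) (nat_lit 11) (node (nat_lit 4) (nat_lit 64647) (nat_lit 12) nil nil) nil) (node (nat_lit
  5) (nat_lit 66678) (nat_lit 10) nil (node (nat_lit 0) (nat_lit 66678) (nat_lit 10) nil nil))))
  (node (nat_lit 5) (nat_lit 66782) (nat_lit 9) nil (node (nat_lit 0) (nat_lit 68217) (nat_lit 9)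
  nil nil))) (node (nat_lit 5) (nat_lit 67408) (nat_lit 8) nil (node (nat_lit 0) (nat_lit 67408)
  (nat_lit 8) nil nil)))) (node (nat_lit 0) (nat_lit 67841) (nat_lit 7) (node (nat_lit 5) (nat_lit
  68129) (nat_lit 8) nil (node (nat_lit 6) (nat_lit 67841) (nat_lit 8) nil (node (nat_lit 4)
  (nat_lit 67841) (nat_lit 8) nil (node (nat_lit 3) (nat_lit 67841) (nat_lit 8) nil (node (nat_lit
  0) (nat_lit 68129) (nat_lit 8) nil nil))))) (node (nat_lit 5) (nat_lit 62249) (nat_lit 7) nil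
  nil)))) (node (nat_lit 5) (nat_lit 66357) (nat_lit 6) (node (nat_lit 6) (nat_lit 66357) (nat_lit
  7) (node (nat_lit 4) (nat_lit 66357) (nat_lit 8) nil (node (nat_lit 3) (nat_lit 66717) (nat_lit
  8) nil (node (nat_lit 0) (nat_lit 67634) (nat_lit 8) nil nil))) (node (nat_lit 3) (nat_lit
  67038) (nat_lit 7) (node (nat_lit 4) (nat_lit 67038) (nat_lit 8) nil (node (nat_lit 6) (nat_lit
  67038) (nat_lit 8) nil (node (nat_lit 5) (nat_lit 67955) (nat_lit 8) nil nil))) (node (nat_lit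
  0) (nat_lit 68088) (nat_lit 7) nil nil))) (node (nat_lit 3) (nat_lit 61170) (nat_lit 6) (node
  (nat_lit 6) (nat_lit 61420) (nat_lit 7) (node (nat_lit 4) (nat_lit 61278) (nat_lit 8) (node
  (nat_lit 6) (nat_lit 61278) (nat_lit 9) nil (node (nat_lit 9) (nat_lit 61278) (nat_lit 9) nil
  nil)) (node (nat_lit 9) (nat_lit 61420) (nat_lit 8) nil (node (nat_lit 5) (nat_lit 65544)
  (nat_lit 8) nil (node (nat_lit 0) (nat_lit 63960) (nat_lit 8) nil nil)))) (node (nat_lit 4)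
  (nat_lit 62141) (nat_lit 7) (node (nat_lit 5) (nat_lit 66247) (nat_lit 8) nil (node (nat_lit 6)
  (nat_lit 62141) (nat_lit 8) nil (node (nat_lit 0) (nat_lit 64681) (nat_lit 8) nil nil))) (node
  (nat_lit 5) (nat_lit 67494) (nat_lit 7) nil (node (nat_lit 0) (nat_lit 67267) (nat_lit 7) nil
  nil)))) (node (nat_lit 0) (nat_lit 67038) (nat_lit 6) (node (nat_lit 5) (nat_lit 67531) (nat_lit
  7) nil (node (nat_lit 6) (nat_lit 67038) (nat_lit 7) nil (node (nat_lit 4) (nat_lit 67038)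
  (nat_lit 7) nil (node (nat_lit 3) (nat_lit 67038) (nat_lit 7) nil (node (nat_lit 0) (nat_lit
  67531) (nat_lit 7) nil nil))))) nil)))) (node (nat_lit 3) (nat_lit 59559) (nat_lit 5) (node
  (nat_lit 6) (nat_lit 61237) (nat_lit 6) (node (nat_lit 8) (nat_lit 62209) (nat_lit 7) (node
  (nat_lit 5) (nat_lit 68217) (nat_lit 8) (node (nat_lit 8) (nat_lit 68217) (nat_lit 9) (node
  (nat_lit 6) (nat_lit 68217) (nat_lit 10) (node (nat_lit 5) (nat_lit 68217) (nat_lit 11) nil nil)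
  nil) (node (nat_lit 6) (nat_lit 68217) (nat_lit 9) nil nil)) (node (nat_lit 4) (nat_lit 62893)
  (nat_lit 8) (node (nat_lit 6) (nat_lit 64052) (nat_lit 9) (node (nat_lit 4) (nat_lit 64102)
  (nat_lit 10) nil (node (nat_lit 8) (nat_lit 64163) (nat_lit 10) nil (node (nat_lit 5) (nat_lit
  66756) (nat_lit 10) nil nil))) (node (nat_lit 5) (nat_lit 65473) (nat_lit 9) nil (node (nat_lit
  8) (nat_lit 63351) (nat_lit 9) nil (node (nat_lit 0) (nat_lit 65473) (nat_lit 9) nil nil))))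
  (node (nat_lit 0) (nat_lit 68217) (nat_lit 8) nil nil))) (node (nat_lit 4) (nat_lit 62436)
  (nat_lit 7) (node (nat_lit 8) (nat_lit 63224) (nat_lit 8) (node (nat_lit 5) (nat_lit 66983)
  (nat_lit 9) nil (node (nat_lit 4) (nat_lit 63840) (nat_lit 9) nil (node (nat_lit 6) (nat_lit
  64421) (nat_lit 9) nil (node (nat_lit 0) (nat_lit 65804) (nat_lit 9) nil nil)))) (node (nat_lit
  5) (nat_lit 67737) (nat_lit 8) nil (node (nat_lit 6) (nat_lit 63277) (nat_lit 8) (node (nat_lit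
  8) (nat_lit 63817) (nat_lit 9) (node (nat_lit 6) (nat_lit 64942) (nat_lit 10) nil (node (nat_lit
  4) (nat_lit 63928) (nat_lit 10) nil (node (nat_lit 5) (nat_lit 66521) (nat_lit 10) nil nil)))
  (node (nat_lit 5) (nat_lit 65857) (nat_lit 9) nil (node (nat_lit 0) (nat_lit 65857) (nat_lit 9)
  nil nil))) (node (nat_lit 0) (nat_lit 67737) (nat_lit 8) nil nil)))) (node (nat_lit 5) (nat_lit
  63386) (nat_lit 7) nil (node (nat_lit 0) (nat_lit 67367) (nat_lit 7) nil nil)))) (node (nat_lit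
  4) (nat_lit 59896) (nat_lit 6) (node (nat_lit 5) (nat_lit 62045) (nat_lit 7) nil (node (nat_lit
  6) (nat_lit 59896) (nat_lit 7) nil (node (nat_lit 8) (nat_lit 59896) (nat_lit 7) (node (nat_lit
  5) (nat_lit 62313) (nat_lit 8) nil nil) nil))) (node (nat_lit 5) (nat_lit 64475) (nat_lit 6) nil
  (node (nat_lit 0) (nat_lit 65069) (nat_lit 6) nil nil)))) (node (nat_lit 0) (nat_lit 64757)
  (nat_lit 5) (node (nat_lit 6) (nat_lit 64757) (nat_lit 6) nil (node (nat_lit 4) (nat_lit 64757)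
  (nat_lit 6) nil (node (nat_lit 5) (nat_lit 65415) (nat_lit 6) nil (node (nat_lit 3) (nat_lit
  64757) (nat_lit 6) nil (node (nat_lit 0) (nat_lit 65415) (nat_lit 6) nil nil))))) nil))) (node
  (nat_lit 3) (nat_lit 0) (nat_lit 4) (node (nat_lit 4) (nat_lit 44023) (nat_lit 5) (node (nat_lit
  5) (nat_lit 45192) (nat_lit 6) (node (nat_lit 6) (nat_lit 32961) (nat_lit 7) nil nil) (node
  (nat_lit 6) (nat_lit 50214) (nat_lit 6) (node (nat_lit 4) (nat_lit 53224) (nat_lit 7) (node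
  (nat_lit 7) (nat_lit 53597) (nat_lit 8) (node (nat_lit 6) (nat_lit 53050) (nat_lit 9) nil (node
  (nat_lit 4) (nat_lit 53544) (nat_lit 9) nil nil)) (node (nat_lit 5) (nat_lit 49461) (nat_lit 8)
  nil nil)) (node (nat_lit 7) (nat_lit 55204) (nat_lit 7) (node (nat_lit 6) (nat_lit 59106)
  (nat_lit 8) (node (nat_lit 4) (nat_lit 60131) (nat_lit 9) (node (nat_lit 6) (nat_lit 60180)
  (nat_lit 10) nil (node (nat_lit 7) (nat_lit 60313) (nat_lit 10) nil nil)) nil) (node (nat_lit 5)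
  (nat_lit 61066) (nat_lit 8) nil nil)) (node (nat_lit 5) (nat_lit 55808) (nat_lit 7) nil (node
  (nat_lit 0) (nat_lit 55808) (nat_lit 7) nil nil)))) (node (nat_lit 7) (nat_lit 49948) (nat_lit
  6) (node (nat_lit 6) (nat_lit 53407) (nat_lit 7) (node (nat_lit 4) (nat_lit 55012) (nat_lit 8)
  (node (nat_lit 6) (nat_lit 54932) (nat_lit 9) (node (nat_lit 7) (nat_lit 54276) (nat_lit 10) nil
  nil) nil) (node (nat_lit 7) (nat_lit 55418) (nat_lit 8) nil nil)) (node (nat_lit 5) (nat_lit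
  62118) (nat_lit 7) nil (node (nat_lit 0) (nat_lit 55542) (nat_lit 7) nil nil))) (node (nat_lit
  0) (nat_lit 55332) (nat_lit 6) nil nil)))) (node (nat_lit 5) (nat_lit 64782) (nat_lit 5) (node
  (nat_lit 7) (nat_lit 64782) (nat_lit 6) (node (nat_lit 6) (nat_lit 64782) (nat_lit 7) nil nil)
  (node (nat_lit 4) (nat_lit 64782) (nat_lit 6) nil (node (nat_lit 6) (nat_lit 64782) (nat_lit 6)
  (node (nat_lit 5) (nat_lit 65805) (nat_lit 7) nil nil) nil))) (node (nat_lit 6) (nat_lit 0)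
  (nat_lit 5) (node (nat_lit 4) (nat_lit 50185) (nat_lit 6) (node (nat_lit 7) (nat_lit 54981)
  (nat_lit 7) (node (nat_lit 4) (nat_lit 57187) (nat_lit 8) (node (nat_lit 6) (nat_lit 55980)
  (nat_lit 9) (node (nat_lit 4) (nat_lit 55958) (nat_lit 10) nil (node (nat_lit 7) (nat_lit 56094)
  (nat_lit 10) (node (nat_lit 4) (nat_lit 53302) (nat_lit 11) nil nil) nil)) nil) (node (nat_lit
  5) (nat_lit 60843) (nat_lit 8) nil (node (nat_lit 6) (nat_lit 54711) (nat_lit 8) nil (node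
  (nat_lit 0) (nat_lit 60843) (nat_lit 8) nil nil)))) (node (nat_lit 5) (nat_lit 56491) (nat_lit
  7) nil (node (nat_lit 6) (nat_lit 53608) (nat_lit 7) (node (nat_lit 7) (nat_lit 54119) (nat_lit
  8) (node (nat_lit 4) (nat_lit 54065) (nat_lit 9) nil nil) (node (nat_lit 5) (nat_lit 59470)
  (nat_lit 8) nil (node (nat_lit 0) (nat_lit 59470) (nat_lit 8) nil nil))) (node (nat_lit 0)
  (nat_lit 55779) (nat_lit 7) nil nil)))) (node (nat_lit 5) (nat_lit 59774) (nat_lit 6) nil (node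
  (nat_lit 0) (nat_lit 59774) (nat_lit 6) nil nil))) (node (nat_lit 0) (nat_lit 60114) (nat_lit 5)
  nil nil)))) (node (nat_lit 0) (nat_lit 0) (nat_lit 4) (node (nat_lit 5) (nat_lit 60824) (nat_lit
  5) nil (node (nat_lit 6) (nat_lit 58537) (nat_lit 5) nil (node (nat_lit 4) (nat_lit 58537)
  (nat_lit 5) nil (node (nat_lit 3) (nat_lit 58537) (nat_lit 5) nil (node (nat_lit 0) (nat_lit
  59662) (nat_lit 5) nil nil))))) nil)))) (node (nat_lit 4) (nat_lit 0) (nat_lit 3) (node (nat_lit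
  3) (nat_lit 0) (nat_lit 4) (node (nat_lit 4) (nat_lit 43101) (nat_lit 5) (node (nat_lit 5)
  (nat_lit 51293) (nat_lit 6) (node (nat_lit 4) (nat_lit 31361) (nat_lit 7) nil (node (nat_lit 7)
  (nat_lit 51293) (nat_lit 7) (node (nat_lit 4) (nat_lit 51293) (nat_lit 8) nil (node (nat_lit 5)
  (nat_lit 51849) (nat_lit 8) nil nil)) (node (nat_lit 3) (nat_lit 51651) (nat_lit 7) nil (node
  (nat_lit 0) (nat_lit 51982) (nat_lit 7) nil nil)))) (node (nat_lit 3) (nat_lit 49562) (nat_lit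
  6) (node (nat_lit 7) (nat_lit 52569) (nat_lit 7) (node (nat_lit 9) (nat_lit 54702) (nat_lit 8)
  nil (node (nat_lit 4) (nat_lit 54702) (nat_lit 8) nil nil)) (node (nat_lit 4) (nat_lit 53635)
  (nat_lit 7) (node (nat_lit 7) (nat_lit 53676) (nat_lit 8) (node (nat_lit 9) (nat_lit 53118)
  (nat_lit 9) (node (nat_lit 7) (nat_lit 53509) (nat_lit 10) nil nil) nil) (node (nat_lit 5)
  (nat_lit 57959) (nat_lit 8) (node (nat_lit 4) (nat_lit 49054) (nat_lit 9) nil nil) (node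
  (nat_lit 0) (nat_lit 60042) (nat_lit 8) nil nil))) (node (nat_lit 5) (nat_lit 55572) (nat_lit 7)
  nil (node (nat_lit 0) (nat_lit 55572) (nat_lit 7) nil nil)))) (node (nat_lit 0) (nat_lit 60034)
  (nat_lit 6) nil nil))) (node (nat_lit 5) (nat_lit 60396) (nat_lit 5) (node (nat_lit 7) (nat_lit
  60396) (nat_lit 6) (node (nat_lit 4) (nat_lit 60396) (nat_lit 7) (node (nat_lit 5) (nat_lit
  62024) (nat_lit 8) (node (nat_lit 4) (nat_lit 62024) (nat_lit 9) (node (nat_lit 7) (nat_lit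
  62024) (nat_lit 10) (node (nat_lit 5) (nat_lit 31361) (nat_lit 11) nil nil) nil) nil) nil) nil)
  (node (nat_lit 3) (nat_lit 60739) (nat_lit 6) nil nil)) (node (nat_lit 3) (nat_lit 44182)
  (nat_lit 5) (node (nat_lit 4) (nat_lit 49769) (nat_lit 6) (node (nat_lit 8) (nat_lit 52608)
  (nat_lit 7) (node (nat_lit 7) (nat_lit 53601) (nat_lit 8) (node (nat_lit 4) (nat_lit 53740)
  (nat_lit 9) nil nil) nil) (node (nat_lit 7) (nat_lit 52394) (nat_lit 7) (node (nat_lit 4)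
  (nat_lit 52497) (nat_lit 8) (node (nat_lit 8) (nat_lit 51349) (nat_lit 9) nil nil) (node
  (nat_lit 5) (nat_lit 58805) (nat_lit 8) nil nil)) (node (nat_lit 5) (nat_lit 50708) (nat_lit 7)
  (node (nat_lit 4) (nat_lit 43925) (nat_lit 8) nil nil) (node (nat_lit 0) (nat_lit 55928)
  (nat_lit 7) nil nil)))) (node (nat_lit 7) (nat_lit 50563) (nat_lit 6) (node (nat_lit 4) (nat_lit
  54382) (nat_lit 7) (node (nat_lit 8) (nat_lit 56293) (nat_lit 8) (node (nat_lit 4) (nat_lit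
  56431) (nat_lit 9) (node (nat_lit 7) (nat_lit 55955) (nat_lit 10) nil nil) nil) (node (nat_lit
  7) (nat_lit 56219) (nat_lit 8) (node (nat_lit 8) (nat_lit 56623) (nat_lit 9) (node (nat_lit 4)
  (nat_lit 57181) (nat_lit 10) nil nil) nil) (node (nat_lit 5) (nat_lit 52932) (nat_lit 8) nil
  nil))) (node (nat_lit 5) (nat_lit 56723) (nat_lit 7) nil (node (nat_lit 0) (nat_lit 56723)
  (nat_lit 7) nil nil))) (node (nat_lit 5) (nat_lit 56183) (nat_lit 6) nil (node (nat_lit 0)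
  (nat_lit 56183) (nat_lit 6) nil nil)))) (node (nat_lit 0) (nat_lit 59561) (nat_lit 5) nil
  nil)))) (node (nat_lit 0) (nat_lit 0) (nat_lit 4) (node (nat_lit 5) (nat_lit 62723) (nat_lit 5)
  (node (nat_lit 7) (nat_lit 62723) (nat_lit 6) nil (node (nat_lit 4) (nat_lit 62723) (nat_lit 6)
  nil nil)) (node (nat_lit 4) (nat_lit 59710) (nat_lit 5) (node (nat_lit 5) (nat_lit 62723)
  (nat_lit 6) (node (nat_lit 7) (nat_lit 62723) (nat_lit 7) nil (node (nat_lit 3) (nat_lit 62723)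
  (nat_lit 7) nil (node (nat_lit 0) (nat_lit 62723) (nat_lit 7) nil nil))) (node (nat_lit 3)
  (nat_lit 59710) (nat_lit 6) nil (node (nat_lit 0) (nat_lit 61688) (nat_lit 6) nil nil))) (node
  (nat_lit 3) (nat_lit 59488) (nat_lit 5) (node (nat_lit 4) (nat_lit 59488) (nat_lit 6) (node
  (nat_lit 5) (nat_lit 61809) (nat_lit 7) (node (nat_lit 4) (nat_lit 61809) (nat_lit 8) (node
  (nat_lit 7) (nat_lit 31106) (nat_lit 9) nil nil) nil) nil) nil) (node (nat_lit 0) (nat_lit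
  62560) (nat_lit 5) (node (nat_lit 5) (nat_lit 62723) (nat_lit 6) nil nil) nil)))) nil)) (node
  (nat_lit 0) (nat_lit 0) (nat_lit 3) (node (nat_lit 5) (nat_lit 0) (nat_lit 4) (node (nat_lit 4)
  (nat_lit 60477) (nat_lit 5) (node (nat_lit 6) (nat_lit 67660) (nat_lit 6) (node (nat_lit 5)
  (nat_lit 68597) (nat_lit 7) (node (nat_lit 6) (nat_lit 68976) (nat_lit 8) (node (nat_lit 4)
  (nat_lit 68976) (nat_lit 9) nil nil) (node (nat_lit 3) (nat_lit 68597) (nat_lit 8) nil (node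
  (nat_lit 0) (nat_lit 68976) (nat_lit 8) nil nil))) (node (nat_lit 4) (nat_lit 67660) (nat_lit 7)
  (node (nat_lit 5) (nat_lit 68976) (nat_lit 8) nil (node (nat_lit 3) (nat_lit 67660) (nat_lit 8)
  nil (node (nat_lit 0) (nat_lit 68311) (nat_lit 8) nil nil))) (node (nat_lit 3) (nat_lit 67660)
  (nat_lit 7) nil (node (nat_lit 0) (nat_lit 68533) (nat_lit 7) nil nil)))) (node (nat_lit 3)
  (nat_lit 60477) (nat_lit 6) nil (node (nat_lit 5) (nat_lit 67139) (nat_lit 6) (node (nat_lit 6)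
  (nat_lit 67514) (nat_lit 7) nil nil) (node (nat_lit 0) (nat_lit 65553) (nat_lit 6) nil nil))))
  (node (nat_lit 3) (nat_lit 60093) (nat_lit 5) (node (nat_lit 6) (nat_lit 66691) (nat_lit 6)
  (node (nat_lit 8) (nat_lit 66691) (nat_lit 7) nil (node (nat_lit 5) (nat_lit 67066) (nat_lit 7)
  nil nil)) (node (nat_lit 4) (nat_lit 60093) (nat_lit 6) (node (nat_lit 8) (nat_lit 60093)
  (nat_lit 7) nil nil) (node (nat_lit 3) (nat_lit 60093) (nat_lit 6) nil (node (nat_lit 5)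
  (nat_lit 65167) (nat_lit 6) (node (nat_lit 6) (nat_lit 65542) (nat_lit 7) nil nil) (node
  (nat_lit 0) (nat_lit 63436) (nat_lit 6) nil nil))))) (node (nat_lit 0) (nat_lit 65321) (nat_lit
  5) (node (nat_lit 6) (nat_lit 67039) (nat_lit 6) nil (node (nat_lit 5) (nat_lit 66557) (nat_lit
  6) nil nil)) nil))) (node (nat_lit 3) (nat_lit 0) (nat_lit 4) (node (nat_lit 4) (nat_lit 51432)
  (nat_lit 5) (node (nat_lit 7) (nat_lit 51432) (nat_lit 6) (node (nat_lit 6) (nat_lit 58673)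
  (nat_lit 7) (node (nat_lit 4) (nat_lit 58673) (nat_lit 8) nil nil) (node (nat_lit 5) (nat_lit
  54542) (nat_lit 7) nil nil)) (node (nat_lit 6) (nat_lit 60296) (nat_lit 6) nil (node (nat_lit 5)
  (nat_lit 54167) (nat_lit 6) (node (nat_lit 6) (nat_lit 27295) (nat_lit 7) nil nil) (node
  (nat_lit 3) (nat_lit 51432) (nat_lit 6) nil (node (nat_lit 0) (nat_lit 54167) (nat_lit 6) nil
  nil))))) (node (nat_lit 6) (nat_lit 61616) (nat_lit 5) (node (nat_lit 5) (nat_lit 62176)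
  (nat_lit 6) nil nil) (node (nat_lit 5) (nat_lit 63061) (nat_lit 5) (node (nat_lit 7) (nat_lit
  63061) (nat_lit 6) nil nil) (node (nat_lit 3) (nat_lit 50536) (nat_lit 5) (node (nat_lit 7)
  (nat_lit 50536) (nat_lit 6) nil (node (nat_lit 4) (nat_lit 50536) (nat_lit 6) nil (node (nat_lit
  5) (nat_lit 56905) (nat_lit 6) nil (node (nat_lit 6) (nat_lit 53271) (nat_lit 6) nil (node
  (nat_lit 0) (nat_lit 53271) (nat_lit 6) nil nil))))) (node (nat_lit 0) (nat_lit 59884) (nat_lit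
  5) nil nil))))) (node (nat_lit 4) (nat_lit 0) (nat_lit 4) (node (nat_lit 6) (nat_lit 65443)
  (nat_lit 5) (node (nat_lit 5) (nat_lit 67582) (nat_lit 6) (node (nat_lit 6) (nat_lit 68597)
  (nat_lit 7) (node (nat_lit 4) (nat_lit 68597) (nat_lit 8) (node (nat_lit 5) (nat_lit 68976)
  (nat_lit 9) (node (nat_lit 4) (nat_lit 68976) (nat_lit 10) nil (node (nat_lit 6) (nat_lit 68976)
  (nat_lit 10) nil nil)) (node (nat_lit 3) (nat_lit 68597) (nat_lit 9) nil (node (nat_lit 0)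
  (nat_lit 68976) (nat_lit 9) nil nil))) nil) (node (nat_lit 4) (nat_lit 67582) (nat_lit 7) nil
  (node (nat_lit 0) (nat_lit 67957) (nat_lit 7) nil nil))) (node (nat_lit 3) (nat_lit 65443)
  (nat_lit 6) nil (node (nat_lit 0) (nat_lit 67162) (nat_lit 6) nil nil))) (node (nat_lit 3)
  (nat_lit 52497) (nat_lit 5) (node (nat_lit 4) (nat_lit 52497) (nat_lit 6) (node (nat_lit 5)
  (nat_lit 55608) (nat_lit 7) (node (nat_lit 6) (nat_lit 42683) (nat_lit 8) (node (nat_lit 4)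
  (nat_lit 27868) (nat_lit 9) nil nil) nil) (node (nat_lit 6) (nat_lit 55608) (nat_lit 7) nil
  nil)) (node (nat_lit 6) (nat_lit 61362) (nat_lit 6) nil (node (nat_lit 5) (nat_lit 65981)
  (nat_lit 6) (node (nat_lit 8) (nat_lit 65981) (nat_lit 7) nil nil) (node (nat_lit 3) (nat_lit
  52497) (nat_lit 6) nil (node (nat_lit 0) (nat_lit 55233) (nat_lit 6) nil nil))))) (node (nat_lit
  5) (nat_lit 63930) (nat_lit 5) (node (nat_lit 4) (nat_lit 63930) (nat_lit 6) (node (nat_lit 6)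
  (nat_lit 64866) (nat_lit 7) nil nil) nil) (node (nat_lit 0) (nat_lit 64581) (nat_lit 5) (node
  (nat_lit 6) (nat_lit 65142) (nat_lit 6) nil (node (nat_lit 5) (nat_lit 65142) (nat_lit 6) nil
  nil)) nil)))) (node (nat_lit 0) (nat_lit 59287) (nat_lit 4) (node (nat_lit 6) (nat_lit 62049)
  (nat_lit 5) nil (node (nat_lit 5) (nat_lit 61394) (nat_lit 5) nil nil)) nil)))) nil)))

noncomputable def t410 : Tr :=
  (node (nat_lit 3) (nat_lit 0) (nat_lit 1) (node (nat_lit 3) (nat_lit 0) (nat_lit 2) (node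
  (nat_lit 0) (nat_lit 0) (nat_lit 3) t407 t408) (node (nat_lit 0) (nat_lit 0) (nat_lit 2) t409
  nil)) (node (nat_lit 0) (nat_lit 0) (nat_lit 1) (node (nat_lit 3) (nat_lit 0) (nat_lit 2) (node
  (nat_lit 3) (nat_lit 0) (nat_lit 3) (node (nat_lit 4) (nat_lit 0) (nat_lit 4) (node (nat_lit 5)
  (nat_lit 0) (nat_lit 5) (node (nat_lit 4) (nat_lit 85643) (nat_lit 6) (node (nat_lit 6) (nat_lit
  85643) (nat_lit 7) (node (nat_lit 4) (nat_lit 85727) (nat_lit 8) (node (nat_lit 5) (nat_lit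
  85727) (nat_lit 9) nil nil) nil) (node (nat_lit 3) (nat_lit 85727) (nat_lit 7) nil nil)) (node
  (nat_lit 3) (nat_lit 84257) (nat_lit 6) (node (nat_lit 4) (nat_lit 85727) (nat_lit 7) nil (node
  (nat_lit 5) (nat_lit 84257) (nat_lit 7) nil (node (nat_lit 6) (nat_lit 84257) (nat_lit 7) nil
  nil))) (node (nat_lit 0) (nat_lit 85143) (nat_lit 6) nil nil))) (node (nat_lit 6) (nat_lit
  102723) (nat_lit 5) (node (nat_lit 5) (nat_lit 102723) (nat_lit 6) (node (nat_lit 4) (nat_lit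
  105577) (nat_lit 7) (node (nat_lit 5) (nat_lit 105577) (nat_lit 8) (node (nat_lit 6) (nat_lit
  105577) (nat_lit 9) (node (nat_lit 4) (nat_lit 85227) (nat_lit 10) (node (nat_lit 6) (nat_lit
  65486) (nat_lit 11) nil nil) nil) nil) (node (nat_lit 6) (nat_lit 105577) (nat_lit 8) (node
  (nat_lit 4) (nat_lit 106369) (nat_lit 9) (node (nat_lit 5) (nat_lit 106369) (nat_lit 10) (node
  (nat_lit 6) (nat_lit 106369) (nat_lit 11) (node (nat_lit 4) (nat_lit 106988) (nat_lit 12) (node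
  (nat_lit 6) (nat_lit 106988) (nat_lit 13) (node (nat_lit 5) (nat_lit 106988) (nat_lit 14) (node
  (nat_lit 4) (nat_lit 85411) (nat_lit 15) nil nil) nil) nil) nil) nil) nil) nil) nil)) nil) (node
  (nat_lit 3) (nat_lit 103244) (nat_lit 6) nil nil)) (node (nat_lit 3) (nat_lit 104370) (nat_lit
  5) (node (nat_lit 6) (nat_lit 104370) (nat_lit 6) (node (nat_lit 5) (nat_lit 104370) (nat_lit 7)
  (node (nat_lit 4) (nat_lit 107339) (nat_lit 8) (node (nat_lit 5) (nat_lit 107339) (nat_lit 9)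
  (node (nat_lit 6) (nat_lit 107339) (nat_lit 10) (node (nat_lit 4) (nat_lit 93661) (nat_lit 11)
  nil nil) nil) nil) nil) nil) nil) (node (nat_lit 0) (nat_lit 105279) (nat_lit 5) nil nil))))
  (node (nat_lit 3) (nat_lit 0) (nat_lit 4) (node (nat_lit 5) (nat_lit 92959) (nat_lit 5) (node
  (nat_lit 7) (nat_lit 105415) (nat_lit 6) (node (nat_lit 6) (nat_lit 114962) (nat_lit 7) (node
  (nat_lit 5) (nat_lit 117989) (nat_lit 8) (node (nat_lit 6) (nat_lit 114981) (nat_lit 9) nil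
  (node (nat_lit 7) (nat_lit 119860) (nat_lit 9) (node (nat_lit 5) (nat_lit 118116) (nat_lit 10)
  nil nil) nil)) (node (nat_lit 7) (nat_lit 115729) (nat_lit 8) (node (nat_lit 5) (nat_lit 113400)
  (nat_lit 9) nil nil) (node (nat_lit 4) (nat_lit 115380) (nat_lit 8) nil nil))) (node (nat_lit 4)
  (nat_lit 112268) (nat_lit 7) nil (node (nat_lit 0) (nat_lit 117827) (nat_lit 7) nil nil))) (node
  (nat_lit 4) (nat_lit 116138) (nat_lit 6) (node (nat_lit 5) (nat_lit 108163) (nat_lit 7) (node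
  (nat_lit 6) (nat_lit 101362) (nat_lit 8) (node (nat_lit 7) (nat_lit 81401) (nat_lit 9) nil nil)
  nil) nil) (node (nat_lit 6) (nat_lit 104594) (nat_lit 6) (node (nat_lit 5) (nat_lit 112447)
  (nat_lit 7) (node (nat_lit 7) (nat_lit 111721) (nat_lit 8) (node (nat_lit 6) (nat_lit 108994)
  (nat_lit 9) (node (nat_lit 7) (nat_lit 107333) (nat_lit 10) nil nil) nil) (node (nat_lit 4)
  (nat_lit 122119) (nat_lit 8) nil nil)) (node (nat_lit 4) (nat_lit 111447) (nat_lit 7) nil (node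
  (nat_lit 0) (nat_lit 117006) (nat_lit 7) nil nil))) (node (nat_lit 0) (nat_lit 122201) (nat_lit
  6) nil nil)))) (node (nat_lit 4) (nat_lit 112106) (nat_lit 5) (node (nat_lit 5) (nat_lit 105457)
  (nat_lit 6) (node (nat_lit 6) (nat_lit 83956) (nat_lit 7) nil (node (nat_lit 4) (nat_lit 106044)
  (nat_lit 7) nil nil)) (node (nat_lit 6) (nat_lit 112106) (nat_lit 6) (node (nat_lit 4) (nat_lit
  112693) (nat_lit 7) nil nil) (node (nat_lit 7) (nat_lit 112106) (nat_lit 6) (node (nat_lit 6)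
  (nat_lit 112106) (nat_lit 7) nil nil) (node (nat_lit 0) (nat_lit 112506) (nat_lit 6) nil nil))))
  (node (nat_lit 6) (nat_lit 91814) (nat_lit 5) (node (nat_lit 5) (nat_lit 103038) (nat_lit 6)
  (node (nat_lit 7) (nat_lit 113225) (nat_lit 7) (node (nat_lit 5) (nat_lit 116808) (nat_lit 8)
  (node (nat_lit 6) (nat_lit 115077) (nat_lit 9) (node (nat_lit 7) (nat_lit 113917) (nat_lit 10)
  nil (node (nat_lit 5) (nat_lit 113271) (nat_lit 10) nil nil)) (node (nat_lit 4) (nat_lit 124603)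
  (nat_lit 9) nil nil)) (node (nat_lit 6) (nat_lit 118255) (nat_lit 8) (node (nat_lit 7) (nat_lit
  118318) (nat_lit 9) (node (nat_lit 5) (nat_lit 116952) (nat_lit 10) nil nil) (node (nat_lit 4)
  (nat_lit 124386) (nat_lit 9) nil nil)) (node (nat_lit 4) (nat_lit 122751) (nat_lit 8) (node
  (nat_lit 5) (nat_lit 122751) (nat_lit 9) nil nil) (node (nat_lit 0) (nat_lit 121565) (nat_lit 8)
  nil nil)))) (node (nat_lit 6) (nat_lit 109827) (nat_lit 7) (node (nat_lit 7) (nat_lit 111157)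
  (nat_lit 8) (node (nat_lit 5) (nat_lit 110710) (nat_lit 9) (node (nat_lit 6) (nat_lit 110537)
  (nat_lit 10) nil nil) nil) (node (nat_lit 4) (nat_lit 110172) (nat_lit 8) nil nil)) (node
  (nat_lit 4) (nat_lit 113230) (nat_lit 7) (node (nat_lit 5) (nat_lit 113230) (nat_lit 8) (node
  (nat_lit 6) (nat_lit 104406) (nat_lit 9) nil nil) nil) (node (nat_lit 0) (nat_lit 115450)
  (nat_lit 7) nil nil)))) (node (nat_lit 4) (nat_lit 120831) (nat_lit 6) (node (nat_lit 5)
  (nat_lit 113253) (nat_lit 7) (node (nat_lit 6) (nat_lit 106011) (nat_lit 8) (node (nat_lit 7)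
  (nat_lit 84189) (nat_lit 9) nil nil) nil) nil) (node (nat_lit 0) (nat_lit 121057) (nat_lit 6)
  nil nil))) (node (nat_lit 0) (nat_lit 123831) (nat_lit 5) nil nil)))) (node (nat_lit 5) (nat_lit
  0) (nat_lit 4) (node (nat_lit 4) (nat_lit 118158) (nat_lit 5) (node (nat_lit 5) (nat_lit 104430)
  (nat_lit 6) (node (nat_lit 6) (nat_lit 84970) (nat_lit 7) (node (nat_lit 4) (nat_lit 85913)
  (nat_lit 8) nil nil) nil) (node (nat_lit 3) (nat_lit 118773) (nat_lit 6) nil nil)) (node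
  (nat_lit 3) (nat_lit 91753) (nat_lit 5) (node (nat_lit 6) (nat_lit 101906) (nat_lit 6) (node
  (nat_lit 8) (nat_lit 105609) (nat_lit 7) (node (nat_lit 5) (nat_lit 103223) (nat_lit 8) (node
  (nat_lit 6) (nat_lit 101214) (nat_lit 9) nil nil) nil) (node (nat_lit 5) (nat_lit 107792)
  (nat_lit 7) (node (nat_lit 6) (nat_lit 108254) (nat_lit 8) (node (nat_lit 8) (nat_lit 106186)
  (nat_lit 9) nil nil) nil) (node (nat_lit 4) (nat_lit 107339) (nat_lit 7) nil nil))) (node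
  (nat_lit 4) (nat_lit 115115) (nat_lit 6) nil (node (nat_lit 5) (nat_lit 101047) (nat_lit 6)
  (node (nat_lit 6) (nat_lit 105076) (nat_lit 7) (node (nat_lit 8) (nat_lit 106438) (nat_lit 8)
  (node (nat_lit 6) (nat_lit 103576) (nat_lit 9) nil (node (nat_lit 5) (nat_lit 103516) (nat_lit
  9) nil nil)) nil) (node (nat_lit 4) (nat_lit 106479) (nat_lit 7) nil nil)) (node (nat_lit 0)
  (nat_lit 103650) (nat_lit 6) nil nil)))) (node (nat_lit 0) (nat_lit 101797) (nat_lit 5) nil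
  nil))) (node (nat_lit 0) (nat_lit 117261) (nat_lit 4) (node (nat_lit 5) (nat_lit 117261)
  (nat_lit 5) nil nil) nil)))) (node (nat_lit 4) (nat_lit 0) (nat_lit 3) (node (nat_lit 3)
  (nat_lit 0) (nat_lit 4) (node (nat_lit 5) (nat_lit 76939) (nat_lit 5) (node (nat_lit 7) (nat_lit
  78435) (nat_lit 6) (node (nat_lit 4) (nat_lit 86645) (nat_lit 7) (node (nat_lit 5) (nat_lit
  86645) (nat_lit 8) (node (nat_lit 4) (nat_lit 79831) (nat_lit 9) (node (nat_lit 7) (nat_lit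
  65304) (nat_lit 10) (node (nat_lit 5) (nat_lit 43396) (nat_lit 11) nil nil) nil) nil) nil) (node
  (nat_lit 3) (nat_lit 79527) (nat_lit 7) (node (nat_lit 5) (nat_lit 80553) (nat_lit 8) nil (node
  (nat_lit 7) (nat_lit 79490) (nat_lit 8) nil (node (nat_lit 4) (nat_lit 83802) (nat_lit 8) nil
  (node (nat_lit 0) (nat_lit 83802) (nat_lit 8) nil nil)))) (node (nat_lit 0) (nat_lit 82736)
  (nat_lit 7) nil nil))) (node (nat_lit 4) (nat_lit 84493) (nat_lit 6) nil (node (nat_lit 3)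
  (nat_lit 78741) (nat_lit 6) (node (nat_lit 7) (nat_lit 78815) (nat_lit 7) (node (nat_lit 4)
  (nat_lit 83090) (nat_lit 8) nil (node (nat_lit 9) (nat_lit 78815) (nat_lit 8) nil (node (nat_lit
  5) (nat_lit 78815) (nat_lit 8) nil nil))) (node (nat_lit 5) (nat_lit 79484) (nat_lit 7) (node
  (nat_lit 7) (nat_lit 79484) (nat_lit 8) nil (node (nat_lit 4) (nat_lit 83758) (nat_lit 8) nil
  nil)) (node (nat_lit 4) (nat_lit 85159) (nat_lit 7) (node (nat_lit 5) (nat_lit 85159) (nat_lit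
  8) (node (nat_lit 4) (nat_lit 69262) (nat_lit 9) (node (nat_lit 7) (nat_lit 62922) (nat_lit 10)
  (node (nat_lit 5) (nat_lit 43396) (nat_lit 11) nil nil) nil) nil) nil) (node (nat_lit 0)
  (nat_lit 82618) (nat_lit 7) nil nil)))) (node (nat_lit 0) (nat_lit 85172) (nat_lit 6) nil
  nil)))) (node (nat_lit 4) (nat_lit 84250) (nat_lit 5) (node (nat_lit 5) (nat_lit 84250) (nat_lit
  6) (node (nat_lit 7) (nat_lit 84250) (nat_lit 7) nil (node (nat_lit 4) (nat_lit 43396) (nat_lit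
  7) nil nil)) nil) (node (nat_lit 3) (nat_lit 78676) (nat_lit 5) (node (nat_lit 5) (nat_lit
  79645) (nat_lit 6) (node (nat_lit 7) (nat_lit 81184) (nat_lit 7) (node (nat_lit 5) (nat_lit
  83436) (nat_lit 8) (node (nat_lit 8) (nat_lit 84681) (nat_lit 9) (node (nat_lit 7) (nat_lit
  84658) (nat_lit 10) nil nil) nil) (node (nat_lit 8) (nat_lit 83286) (nat_lit 8) (node (nat_lit
  7) (nat_lit 84861) (nat_lit 9) nil nil) (node (nat_lit 4) (nat_lit 85332) (nat_lit 8) nil nil)))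
  (node (nat_lit 8) (nat_lit 81649) (nat_lit 7) (node (nat_lit 7) (nat_lit 83958) (nat_lit 8)
  (node (nat_lit 5) (nat_lit 83050) (nat_lit 9) (node (nat_lit 7) (nat_lit 81136) (nat_lit 10) nil
  nil) (node (nat_lit 8) (nat_lit 85534) (nat_lit 9) nil nil)) (node (nat_lit 4) (nat_lit 85797)
  (nat_lit 8) nil (node (nat_lit 0) (nat_lit 85797) (nat_lit 8) nil nil))) (node (nat_lit 4)
  (nat_lit 83541) (nat_lit 7) nil (node (nat_lit 0) (nat_lit 83541) (nat_lit 7) nil nil)))) (node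
  (nat_lit 4) (nat_lit 86388) (nat_lit 6) nil (node (nat_lit 7) (nat_lit 79769) (nat_lit 6) (node
  (nat_lit 4) (nat_lit 83666) (nat_lit 7) nil (node (nat_lit 5) (nat_lit 81665) (nat_lit 7) (node
  (nat_lit 8) (nat_lit 81677) (nat_lit 8) (node (nat_lit 5) (nat_lit 81816) (nat_lit 9) nil nil)
  (node (nat_lit 7) (nat_lit 82691) (nat_lit 8) (node (nat_lit 8) (nat_lit 82830) (nat_lit 9) nil
  nil) (node (nat_lit 4) (nat_lit 85813) (nat_lit 8) nil nil))) (node (nat_lit 0) (nat_lit 83666)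
  (nat_lit 7) nil nil))) (node (nat_lit 0) (nat_lit 86388) (nat_lit 6) nil nil)))) (node (nat_lit
  0) (nat_lit 85422) (nat_lit 5) nil nil)))) (node (nat_lit 0) (nat_lit 0) (nat_lit 4) (node
  (nat_lit 5) (nat_lit 82757) (nat_lit 5) nil (node (nat_lit 3) (nat_lit 82757) (nat_lit 5) nil
  (node (nat_lit 4) (nat_lit 84012) (nat_lit 5) nil (node (nat_lit 0) (nat_lit 84012) (nat_lit 5)
  nil nil)))) nil)) (node (nat_lit 0) (nat_lit 0) (nat_lit 3) (node (nat_lit 3) (nat_lit 103896)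
  (nat_lit 4) (node (nat_lit 5) (nat_lit 103896) (nat_lit 5) (node (nat_lit 4) (nat_lit 105475)
  (nat_lit 6) (node (nat_lit 5) (nat_lit 105475) (nat_lit 7) (node (nat_lit 6) (nat_lit 86869)
  (nat_lit 8) (node (nat_lit 7) (nat_lit 76948) (nat_lit 9) nil nil) nil) nil) nil) nil) (node
  (nat_lit 5) (nat_lit 103896) (nat_lit 4) (node (nat_lit 3) (nat_lit 103896) (nat_lit 5) nil
  (node (nat_lit 4) (nat_lit 105475) (nat_lit 5) nil nil)) (node (nat_lit 4) (nat_lit 105475)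
  (nat_lit 4) (node (nat_lit 3) (nat_lit 105475) (nat_lit 5) nil (node (nat_lit 6) (nat_lit
  105475) (nat_lit 5) (node (nat_lit 5) (nat_lit 105475) (nat_lit 6) (node (nat_lit 4) (nat_lit
  105475) (nat_lit 7) (node (nat_lit 5) (nat_lit 105475) (nat_lit 8) (node (nat_lit 6) (nat_lit
  105475) (nat_lit 9) (node (nat_lit 4) (nat_lit 105475) (nat_lit 10) (node (nat_lit 6) (nat_lit
  76948) (nat_lit 11) nil nil) nil) nil) nil) nil) nil) (node (nat_lit 5) (nat_lit 105475)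
  (nat_lit 5) nil nil))) (node (nat_lit 0) (nat_lit 105475) (nat_lit 4) (node (nat_lit 5) (nat_lit
  105475) (nat_lit 5) (node (nat_lit 7) (nat_lit 105475) (nat_lit 6) nil nil) (node (nat_lit 6)
  (nat_lit 105475) (nat_lit 5) nil (node (nat_lit 3) (nat_lit 105475) (nat_lit 5) nil nil)))
  nil)))) nil))) (node (nat_lit 0) (nat_lit 0) (nat_lit 2) (node (nat_lit 3) (nat_lit 0) (nat_lit
  3) (node (nat_lit 3) (nat_lit 0) (nat_lit 4) (node (nat_lit 5) (nat_lit 113251) (nat_lit 5) nil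
  (node (nat_lit 6) (nat_lit 104466) (nat_lit 5) (node (nat_lit 5) (nat_lit 111491) (nat_lit 6)
  nil (node (nat_lit 4) (nat_lit 111491) (nat_lit 6) nil (node (nat_lit 3) (nat_lit 105844)
  (nat_lit 6) (node (nat_lit 7) (nat_lit 105844) (nat_lit 7) nil (node (nat_lit 6) (nat_lit
  105844) (nat_lit 7) nil nil)) (node (nat_lit 0) (nat_lit 111491) (nat_lit 6) nil nil)))) (node
  (nat_lit 3) (nat_lit 102573) (nat_lit 5) (node (nat_lit 7) (nat_lit 104880) (nat_lit 6) (node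
  (nat_lit 6) (nat_lit 104880) (nat_lit 7) nil nil) (node (nat_lit 6) (nat_lit 107642) (nat_lit 6)
  (node (nat_lit 7) (nat_lit 109818) (nat_lit 7) nil (node (nat_lit 5) (nat_lit 114395) (nat_lit
  7) nil (node (nat_lit 8) (nat_lit 108304) (nat_lit 7) nil nil))) (node (nat_lit 5) (nat_lit
  110163) (nat_lit 6) nil (node (nat_lit 4) (nat_lit 110163) (nat_lit 6) nil (node (nat_lit 0)
  (nat_lit 110163) (nat_lit 6) nil nil))))) (node (nat_lit 4) (nat_lit 113251) (nat_lit 5) (node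
  (nat_lit 5) (nat_lit 94420) (nat_lit 6) (node (nat_lit 6) (nat_lit 75517) (nat_lit 7) nil nil)
  nil) (node (nat_lit 0) (nat_lit 113251) (nat_lit 5) nil nil))))) (node (nat_lit 4) (nat_lit
  116797) (nat_lit 4) (node (nat_lit 5) (nat_lit 79832) (nat_lit 5) (node (nat_lit 4) (nat_lit
  79832) (nat_lit 6) (node (nat_lit 6) (nat_lit 79832) (nat_lit 7) (node (nat_lit 4) (nat_lit
  79832) (nat_lit 8) nil nil) nil) nil) (node (nat_lit 6) (nat_lit 116797) (nat_lit 5) nil (node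
  (nat_lit 3) (nat_lit 116797) (nat_lit 5) (node (nat_lit 4) (nat_lit 116797) (nat_lit 6) (node
  (nat_lit 5) (nat_lit 116797) (nat_lit 7) (node (nat_lit 6) (nat_lit 116797) (nat_lit 8) (node
  (nat_lit 4) (nat_lit 76881) (nat_lit 9) nil nil) nil) nil) nil) nil))) (node (nat_lit 5)
  (nat_lit 111330) (nat_lit 4) (node (nat_lit 4) (nat_lit 112594) (nat_lit 5) (node (nat_lit 6)
  (nat_lit 112594) (nat_lit 6) (node (nat_lit 4) (nat_lit 113530) (nat_lit 7) (node (nat_lit 5)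
  (nat_lit 113806) (nat_lit 8) (node (nat_lit 6) (nat_lit 113806) (nat_lit 9) (node (nat_lit 5)
  (nat_lit 114101) (nat_lit 10) (node (nat_lit 4) (nat_lit 77248) (nat_lit 11) nil nil) nil) nil)
  nil) nil) nil) nil) (node (nat_lit 0) (nat_lit 111649) (nat_lit 4) (node (nat_lit 6) (nat_lit
  111649) (nat_lit 5) nil (node (nat_lit 5) (nat_lit 112594) (nat_lit 5) nil (node (nat_lit 4)
  (nat_lit 112594) (nat_lit 5) nil nil))) nil)))) (node (nat_lit 0) (nat_lit 0) (nat_lit 3) (node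
  (nat_lit 3) (nat_lit 114880) (nat_lit 4) nil (node (nat_lit 4) (nat_lit 0) (nat_lit 4) (node
  (nat_lit 6) (nat_lit 125619) (nat_lit 5) (node (nat_lit 5) (nat_lit 125619) (nat_lit 6) nil nil)
  (node (nat_lit 3) (nat_lit 124500) (nat_lit 5) nil (node (nat_lit 5) (nat_lit 125619) (nat_lit
  5) nil (node (nat_lit 0) (nat_lit 125619) (nat_lit 5) nil nil)))) (node (nat_lit 5) (nat_lit
  124500) (nat_lit 4) (node (nat_lit 4) (nat_lit 125619) (nat_lit 5) nil nil) (node (nat_lit 0)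
  (nat_lit 123047) (nat_lit 4) nil nil)))) (node (nat_lit 4) (nat_lit 0) (nat_lit 3) (node
  (nat_lit 3) (nat_lit 113227) (nat_lit 4) (node (nat_lit 4) (nat_lit 120320) (nat_lit 5) (node
  (nat_lit 5) (nat_lit 121455) (nat_lit 6) (node (nat_lit 4) (nat_lit 82808) (nat_lit 7) nil nil)
  nil) (node (nat_lit 5) (nat_lit 117309) (nat_lit 5) nil nil)) (node (nat_lit 0) (nat_lit 0)
  (nat_lit 4) (node (nat_lit 4) (nat_lit 125871) (nat_lit 5) (node (nat_lit 5) (nat_lit 126654)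
  (nat_lit 6) (node (nat_lit 7) (nat_lit 126654) (nat_lit 7) nil nil) nil) (node (nat_lit 5)
  (nat_lit 125871) (nat_lit 5) nil (node (nat_lit 3) (nat_lit 123989) (nat_lit 5) nil (node
  (nat_lit 0) (nat_lit 125871) (nat_lit 5) nil nil)))) nil)) nil))) nil)) nil))

noncomputable def c8 : Tr :=
  t410

noncomputable def t411 : Tr :=
  (node (nat_lit 6) (nat_lit 0) (nat_lit 5) (node (nat_lit 5) (nat_lit 0) (nat_lit 6) (node
  (nat_lit 4) (nat_lit 0) (nat_lit 7) (node (nat_lit 0) (nat_lit 0) (nat_lit 8) (node (nat_lit 4)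
  (nat_lit 0) (nat_lit 9) (node (nat_lit 5) (nat_lit 92453) (nat_lit 10) (node (nat_lit 6)
  (nat_lit 98723) (nat_lit 11) (node (nat_lit 5) (nat_lit 101315) (nat_lit 12) nil (node (nat_lit
  4) (nat_lit 99200) (nat_lit 12) nil nil)) (node (nat_lit 11) (nat_lit 97912) (nat_lit 11) (node
  (nat_lit 4) (nat_lit 97892) (nat_lit 12) nil nil) (node (nat_lit 4) (nat_lit 96610) (nat_lit 11)
  (node (nat_lit 6) (nat_lit 97782) (nat_lit 12) nil (node (nat_lit 11) (nat_lit 98762) (nat_lit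
  12) nil nil)) (node (nat_lit 0) (nat_lit 94864) (nat_lit 11) nil nil)))) (node (nat_lit 6)
  (nat_lit 94671) (nat_lit 10) (node (nat_lit 5) (nat_lit 98046) (nat_lit 11) (node (nat_lit 4)
  (nat_lit 95988) (nat_lit 12) (node (nat_lit 5) (nat_lit 90523) (nat_lit 13) nil nil) (node
  (nat_lit 6) (nat_lit 99994) (nat_lit 12) nil nil)) (node (nat_lit 4) (nat_lit 97921) (nat_lit
  11) (node (nat_lit 5) (nat_lit 99049) (nat_lit 12) nil (node (nat_lit 11) (nat_lit 100073)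
  (nat_lit 12) nil nil)) (node (nat_lit 11) (nat_lit 98129) (nat_lit 11) nil (node (nat_lit 0)
  (nat_lit 98129) (nat_lit 11) nil nil)))) (node (nat_lit 0) (nat_lit 95559) (nat_lit 10) (node
  (nat_lit 11) (nat_lit 98872) (nat_lit 11) (node (nat_lit 4) (nat_lit 98872) (nat_lit 12) nil
  nil) (node (nat_lit 4) (nat_lit 95492) (nat_lit 11) nil (node (nat_lit 5) (nat_lit 95559)
  (nat_lit 11) nil (node (nat_lit 0) (nat_lit 96687) (nat_lit 11) nil nil)))) nil))) (node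
  (nat_lit 5) (nat_lit 0) (nat_lit 9) (node (nat_lit 4) (nat_lit 92289) (nat_lit 10) (node
  (nat_lit 5) (nat_lit 92699) (nat_lit 11) nil nil) (node (nat_lit 11) (nat_lit 93189) (nat_lit
  10) (node (nat_lit 4) (nat_lit 96012) (nat_lit 11) (node (nat_lit 11) (nat_lit 98982) (nat_lit
  12) nil nil) nil) (node (nat_lit 6) (nat_lit 94182) (nat_lit 10) (node (nat_lit 4) (nat_lit
  94592) (nat_lit 11) nil nil) (node (nat_lit 0) (nat_lit 89596) (nat_lit 10) nil nil)))) (node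
  (nat_lit 6) (nat_lit 0) (nat_lit 9) (node (nat_lit 4) (nat_lit 95234) (nat_lit 10) (node
  (nat_lit 6) (nat_lit 95102) (nat_lit 11) nil (node (nat_lit 5) (nat_lit 96517) (nat_lit 11) nil
  nil)) (node (nat_lit 11) (nat_lit 96517) (nat_lit 10) (node (nat_lit 4) (nat_lit 95643) (nat_lit
  11) nil nil) (node (nat_lit 5) (nat_lit 95234) (nat_lit 10) nil (node (nat_lit 0) (nat_lit
  92835) (nat_lit 10) nil nil)))) (node (nat_lit 0) (nat_lit 91552) (nat_lit 9) (node (nat_lit 4)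
  (nat_lit 95234) (nat_lit 10) (node (nat_lit 11) (nat_lit 99498) (nat_lit 11) nil nil) (node
  (nat_lit 11) (nat_lit 96517) (nat_lit 10) (node (nat_lit 4) (nat_lit 96517) (nat_lit 11) nil
  nil) nil)) nil)))) (node (nat_lit 5) (nat_lit 0) (nat_lit 8) (node (nat_lit 0) (nat_lit 0)
  (nat_lit 9) (node (nat_lit 4) (nat_lit 74993) (nat_lit 10) (node (nat_lit 5) (nat_lit 80843)
  (nat_lit 11) (node (nat_lit 4) (nat_lit 85414) (nat_lit 12) (node (nat_lit 6) (nat_lit 90454)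
  (nat_lit 13) (node (nat_lit 5) (nat_lit 90266) (nat_lit 14) nil (node (nat_lit 4) (nat_lit
  88576) (nat_lit 14) nil nil)) (node (nat_lit 12) (nat_lit 89777) (nat_lit 13) (node (nat_lit 5)
  (nat_lit 89777) (nat_lit 14) nil (node (nat_lit 4) (nat_lit 89777) (nat_lit 14) nil nil)) (node
  (nat_lit 0) (nat_lit 88649) (nat_lit 13) nil nil))) (node (nat_lit 6) (nat_lit 87705) (nat_lit
  12) (node (nat_lit 5) (nat_lit 88347) (nat_lit 13) nil (node (nat_lit 4) (nat_lit 89039)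
  (nat_lit 13) nil (node (nat_lit 12) (nat_lit 90940) (nat_lit 13) nil nil))) (node (nat_lit 0)
  (nat_lit 85805) (nat_lit 12) nil nil))) (node (nat_lit 12) (nat_lit 83352) (nat_lit 11) (node
  (nat_lit 5) (nat_lit 83352) (nat_lit 12) nil nil) nil)) (node (nat_lit 5) (nat_lit 75444)
  (nat_lit 10) (node (nat_lit 4) (nat_lit 81252) (nat_lit 11) (node (nat_lit 12) (nat_lit 86845)
  (nat_lit 12) (node (nat_lit 4) (nat_lit 86845) (nat_lit 13) (node (nat_lit 5) (nat_lit 88263)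
  (nat_lit 14) nil nil) nil) nil) nil) (node (nat_lit 6) (nat_lit 71852) (nat_lit 10) nil (node
  (nat_lit 0) (nat_lit 74837) (nat_lit 10) nil nil)))) nil) (node (nat_lit 6) (nat_lit 0) (nat_lit
  8) (node (nat_lit 0) (nat_lit 0) (nat_lit 9) (node (nat_lit 4) (nat_lit 89088) (nat_lit 10)
  (node (nat_lit 6) (nat_lit 94947) (nat_lit 11) (node (nat_lit 5) (nat_lit 98256) (nat_lit 12)
  (node (nat_lit 4) (nat_lit 98854) (nat_lit 13) nil (node (nat_lit 6) (nat_lit 100072) (nat_lit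
  13) nil nil)) (node (nat_lit 4) (nat_lit 98092) (nat_lit 12) (node (nat_lit 5) (nat_lit 99908)
  (nat_lit 13) nil nil) (node (nat_lit 0) (nat_lit 99090) (nat_lit 12) nil nil))) nil) (node
  (nat_lit 6) (nat_lit 89532) (nat_lit 10) (node (nat_lit 4) (nat_lit 92451) (nat_lit 11) (node
  (nat_lit 12) (nat_lit 96593) (nat_lit 12) nil nil) nil) (node (nat_lit 5) (nat_lit 89088)
  (nat_lit 10) (node (nat_lit 6) (nat_lit 89426) (nat_lit 11) nil nil) (node (nat_lit 0) (nat_lit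
  88390) (nat_lit 10) nil nil)))) nil) nil))) (node (nat_lit 6) (nat_lit 0) (nat_lit 7) (node
  (nat_lit 0) (nat_lit 0) (nat_lit 8) (node (nat_lit 6) (nat_lit 0) (nat_lit 9) (node (nat_lit 5)
  (nat_lit 112720) (nat_lit 10) (node (nat_lit 11) (nat_lit 114831) (nat_lit 11) (node (nat_lit 6)
  (nat_lit 115422) (nat_lit 12) (node (nat_lit 11) (nat_lit 116801) (nat_lit 13) (node (nat_lit 5)
  (nat_lit 116801) (nat_lit 14) nil nil) (node (nat_lit 4) (nat_lit 115977) (nat_lit 13) nil nil))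
  (node (nat_lit 5) (nat_lit 114831) (nat_lit 12) nil nil)) (node (nat_lit 4) (nat_lit 114004)
  (nat_lit 11) (node (nat_lit 6) (nat_lit 114485) (nat_lit 12) nil (node (nat_lit 5) (nat_lit
  114614) (nat_lit 12) nil nil)) (node (nat_lit 6) (nat_lit 113414) (nat_lit 11) nil (node
  (nat_lit 0) (nat_lit 114024) (nat_lit 11) nil nil)))) (node (nat_lit 4) (nat_lit 112054)
  (nat_lit 10) (node (nat_lit 5) (nat_lit 111768) (nat_lit 11) (node (nat_lit 6) (nat_lit 110887)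
  (nat_lit 12) nil (node (nat_lit 4) (nat_lit 112924) (nat_lit 12) nil nil)) (node (nat_lit 6)
  (nat_lit 114220) (nat_lit 11) (node (nat_lit 11) (nat_lit 115385) (nat_lit 12) nil (node
  (nat_lit 5) (nat_lit 114831) (nat_lit 12) nil nil)) (node (nat_lit 11) (nat_lit 114831) (nat_lit
  11) nil (node (nat_lit 0) (nat_lit 114831) (nat_lit 11) nil nil)))) (node (nat_lit 0) (nat_lit
  113414) (nat_lit 10) (node (nat_lit 11) (nat_lit 114831) (nat_lit 11) (node (nat_lit 6) (nat_lit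
  114831) (nat_lit 12) nil nil) (node (nat_lit 6) (nat_lit 114220) (nat_lit 11) nil (node (nat_lit
  0) (nat_lit 114024) (nat_lit 11) nil nil))) nil))) (node (nat_lit 5) (nat_lit 106504) (nat_lit
  9) (node (nat_lit 11) (nat_lit 112808) (nat_lit 10) (node (nat_lit 6) (nat_lit 113614) (nat_lit
  11) (node (nat_lit 11) (nat_lit 115409) (nat_lit 12) (node (nat_lit 5) (nat_lit 114941) (nat_lit
  13) (node (nat_lit 6) (nat_lit 115390) (nat_lit 14) (node (nat_lit 5) (nat_lit 115739) (nat_lit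
  15) (node (nat_lit 4) (nat_lit 115234) (nat_lit 16) nil nil) nil) nil) nil) nil) nil) (node
  (nat_lit 6) (nat_lit 111018) (nat_lit 10) (node (nat_lit 5) (nat_lit 111086) (nat_lit 11) (node
  (nat_lit 11) (nat_lit 113133) (nat_lit 12) nil nil) nil) (node (nat_lit 4) (nat_lit 109561)
  (nat_lit 10) (node (nat_lit 6) (nat_lit 108148) (nat_lit 11) nil nil) nil))) (node (nat_lit 4)
  (nat_lit 105305) (nat_lit 9) (node (nat_lit 6) (nat_lit 110867) (nat_lit 10) (node (nat_lit 4)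
  (nat_lit 112150) (nat_lit 11) nil nil) (node (nat_lit 11) (nat_lit 112120) (nat_lit 10) (node
  (nat_lit 6) (nat_lit 112120) (nat_lit 11) nil nil) (node (nat_lit 5) (nat_lit 106660) (nat_lit
  10) nil nil))) (node (nat_lit 0) (nat_lit 111080) (nat_lit 9) (node (nat_lit 6) (nat_lit 112114)
  (nat_lit 10) (node (nat_lit 11) (nat_lit 113418) (nat_lit 11) nil nil) (node (nat_lit 11)
  (nat_lit 112808) (nat_lit 10) nil nil)) nil)))) (node (nat_lit 4) (nat_lit 0) (nat_lit 8) (node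
  (nat_lit 0) (nat_lit 0) (nat_lit 9) (node (nat_lit 6) (nat_lit 107317) (nat_lit 10) (node
  (nat_lit 4) (nat_lit 110690) (nat_lit 11) (node (nat_lit 6) (nat_lit 113294) (nat_lit 12) (node
  (nat_lit 12) (nat_lit 115092) (nat_lit 13) nil (node (nat_lit 5) (nat_lit 114304) (nat_lit 13)
  nil nil)) (node (nat_lit 5) (nat_lit 112033) (nat_lit 12) (node (nat_lit 6) (nat_lit 112557)
  (nat_lit 13) nil (node (nat_lit 12) (nat_lit 113831) (nat_lit 13) nil nil)) (node (nat_lit 0)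
  (nat_lit 113673) (nat_lit 12) nil nil))) nil) (node (nat_lit 4) (nat_lit 104933) (nat_lit 10)
  (node (nat_lit 6) (nat_lit 105272) (nat_lit 11) nil nil) (node (nat_lit 5) (nat_lit 104933)
  (nat_lit 10) (node (nat_lit 4) (nat_lit 104789) (nat_lit 11) nil nil) (node (nat_lit 0) (nat_lit
  108016) (nat_lit 10) nil nil)))) nil) nil)) (node (nat_lit 0) (nat_lit 0) (nat_lit 7) (node
  (nat_lit 4) (nat_lit 0) (nat_lit 8) (node (nat_lit 5) (nat_lit 107478) (nat_lit 9) (node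
  (nat_lit 4) (nat_lit 109740) (nat_lit 10) (node (nat_lit 6) (nat_lit 111654) (nat_lit 11) (node
  (nat_lit 5) (nat_lit 109561) (nat_lit 12) nil nil) nil) (node (nat_lit 6) (nat_lit 110725)
  (nat_lit 10) nil nil)) (node (nat_lit 6) (nat_lit 106383) (nat_lit 9) (node (nat_lit 5) (nat_lit
  108258) (nat_lit 10) (node (nat_lit 4) (nat_lit 105455) (nat_lit 11) nil nil) (node (nat_lit 4)
  (nat_lit 109538) (nat_lit 10) nil nil)) (node (nat_lit 10) (nat_lit 111383) (nat_lit 9) (node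
  (nat_lit 5) (nat_lit 111383) (nat_lit 10) nil (node (nat_lit 6) (nat_lit 111383) (nat_lit 10)
  nil nil)) (node (nat_lit 0) (nat_lit 110794) (nat_lit 9) nil nil)))) (node (nat_lit 6) (nat_lit
  0) (nat_lit 8) (node (nat_lit 5) (nat_lit 109866) (nat_lit 9) (node (nat_lit 4) (nat_lit 110319)
  (nat_lit 10) (node (nat_lit 6) (nat_lit 110240) (nat_lit 11) nil nil) (node (nat_lit 6) (nat_lit
  113021) (nat_lit 10) nil nil)) (node (nat_lit 4) (nat_lit 107884) (nat_lit 9) (node (nat_lit 5)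
  (nat_lit 111039) (nat_lit 10) nil (node (nat_lit 6) (nat_lit 111229) (nat_lit 10) (node (nat_lit
  5) (nat_lit 111627) (nat_lit 11) nil nil) nil)) (node (nat_lit 10) (nat_lit 113021) (nat_lit 9)
  (node (nat_lit 5) (nat_lit 113021) (nat_lit 10) nil (node (nat_lit 4) (nat_lit 113021) (nat_lit
  10) nil nil)) (node (nat_lit 0) (nat_lit 112432) (nat_lit 9) nil nil)))) (node (nat_lit 5)
  (nat_lit 0) (nat_lit 8) (node (nat_lit 6) (nat_lit 108887) (nat_lit 9) (node (nat_lit 4)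
  (nat_lit 112042) (nat_lit 10) nil (node (nat_lit 5) (nat_lit 106492) (nat_lit 10) (node (nat_lit
  4) (nat_lit 103689) (nat_lit 11) (node (nat_lit 5) (nat_lit 95118) (nat_lit 12) (node (nat_lit
  6) (nat_lit 89487) (nat_lit 13) nil nil) nil) nil) nil)) (node (nat_lit 4) (nat_lit 107478)
  (nat_lit 9) (node (nat_lit 6) (nat_lit 110274) (nat_lit 10) nil (node (nat_lit 5) (nat_lit
  110634) (nat_lit 10) nil nil)) (node (nat_lit 0) (nat_lit 110794) (nat_lit 9) nil nil))) (node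
  (nat_lit 0) (nat_lit 109203) (nat_lit 8) (node (nat_lit 5) (nat_lit 105349) (nat_lit 9) nil
  (node (nat_lit 10) (nat_lit 112359) (nat_lit 9) nil (node (nat_lit 6) (nat_lit 110465) (nat_lit
  9) nil (node (nat_lit 4) (nat_lit 107811) (nat_lit 9) nil nil)))) nil)))) nil))) (node (nat_lit
  0) (nat_lit 0) (nat_lit 6) (node (nat_lit 4) (nat_lit 0) (nat_lit 7) (node (nat_lit 5) (nat_lit
  101296) (nat_lit 8) (node (nat_lit 6) (nat_lit 107206) (nat_lit 9) (node (nat_lit 5) (nat_lit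
  109874) (nat_lit 10) (node (nat_lit 4) (nat_lit 107109) (nat_lit 11) nil nil) (node (nat_lit 4)
  (nat_lit 110362) (nat_lit 10) nil nil)) (node (nat_lit 4) (nat_lit 107068) (nat_lit 9) (node
  (nat_lit 6) (nat_lit 106582) (nat_lit 10) nil nil) (node (nat_lit 9) (nat_lit 109735) (nat_lit
  9) nil nil))) (node (nat_lit 6) (nat_lit 101983) (nat_lit 8) (node (nat_lit 5) (nat_lit 105541)
  (nat_lit 9) (node (nat_lit 4) (nat_lit 106519) (nat_lit 10) (node (nat_lit 5) (nat_lit 101393)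
  (nat_lit 11) (node (nat_lit 6) (nat_lit 92084) (nat_lit 12) (node (nat_lit 4) (nat_lit 76005)
  (nat_lit 13) nil nil) nil) nil) (node (nat_lit 6) (nat_lit 108696) (nat_lit 10) nil nil)) (node
  (nat_lit 4) (nat_lit 107267) (nat_lit 9) nil nil)) (node (nat_lit 9) (nat_lit 108158) (nat_lit
  8) (node (nat_lit 6) (nat_lit 108748) (nat_lit 9) nil (node (nat_lit 5) (nat_lit 108158)
  (nat_lit 9) nil nil)) (node (nat_lit 0) (nat_lit 106044) (nat_lit 8) nil nil)))) (node (nat_lit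
  5) (nat_lit 0) (nat_lit 7) (node (nat_lit 4) (nat_lit 99997) (nat_lit 8) (node (nat_lit 6)
  (nat_lit 106278) (nat_lit 9) (node (nat_lit 4) (nat_lit 108158) (nat_lit 10) (node (nat_lit 5)
  (nat_lit 103090) (nat_lit 11) (node (nat_lit 6) (nat_lit 83971) (nat_lit 12) nil nil) nil) (node
  (nat_lit 5) (nat_lit 108363) (nat_lit 10) nil nil)) (node (nat_lit 5) (nat_lit 105281) (nat_lit
  9) nil (node (nat_lit 9) (nat_lit 108436) (nat_lit 9) nil nil))) (node (nat_lit 6) (nat_lit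
  101567) (nat_lit 8) (node (nat_lit 4) (nat_lit 107440) (nat_lit 9) (node (nat_lit 5) (nat_lit
  110595) (nat_lit 10) nil nil) (node (nat_lit 5) (nat_lit 104658) (nat_lit 9) (node (nat_lit 4)
  (nat_lit 101897) (nat_lit 10) nil nil) nil)) (node (nat_lit 9) (nat_lit 108158) (nat_lit 8)
  (node (nat_lit 4) (nat_lit 108158) (nat_lit 9) nil (node (nat_lit 6) (nat_lit 108158) (nat_lit
  9) nil nil)) (node (nat_lit 0) (nat_lit 105445) (nat_lit 8) nil nil)))) (node (nat_lit 6)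
  (nat_lit 97193) (nat_lit 7) (node (nat_lit 4) (nat_lit 104092) (nat_lit 8) (node (nat_lit 5)
  (nat_lit 107983) (nat_lit 9) (node (nat_lit 4) (nat_lit 108785) (nat_lit 10) nil (node (nat_lit
  6) (nat_lit 111329) (nat_lit 10) nil nil)) (node (nat_lit 6) (nat_lit 109257) (nat_lit 9) (node
  (nat_lit 5) (nat_lit 111342) (nat_lit 10) nil nil) nil)) (node (nat_lit 5) (nat_lit 105558)
  (nat_lit 8) (node (nat_lit 4) (nat_lit 110446) (nat_lit 9) (node (nat_lit 6) (nat_lit 111634)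
  (nat_lit 10) (node (nat_lit 4) (nat_lit 110911) (nat_lit 11) nil nil) nil) (node (nat_lit 6)
  (nat_lit 110827) (nat_lit 9) (node (nat_lit 4) (nat_lit 112601) (nat_lit 10) nil nil) nil))
  nil)) (node (nat_lit 0) (nat_lit 103796) (nat_lit 7) (node (nat_lit 5) (nat_lit 101007) (nat_lit
  8) nil (node (nat_lit 4) (nat_lit 104064) (nat_lit 8) nil (node (nat_lit 6) (nat_lit 103796)
  (nat_lit 8) nil nil))) nil)))) nil)) (node (nat_lit 5) (nat_lit 0) (nat_lit 5) (node (nat_lit 4)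
  (nat_lit 0) (nat_lit 6) (node (nat_lit 0) (nat_lit 0) (nat_lit 7) (node (nat_lit 6) (nat_lit
  79612) (nat_lit 8) (node (nat_lit 5) (nat_lit 81731) (nat_lit 9) (node (nat_lit 4) (nat_lit
  81731) (nat_lit 10) nil (node (nat_lit 6) (nat_lit 81731) (nat_lit 10) nil nil)) (node (nat_lit
  4) (nat_lit 79601) (nat_lit 9) (node (nat_lit 6) (nat_lit 81173) (nat_lit 10) (node (nat_lit 5)
  (nat_lit 80877) (nat_lit 11) (node (nat_lit 4) (nat_lit 80559) (nat_lit 12) nil nil) nil) (node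
  (nat_lit 5) (nat_lit 80982) (nat_lit 10) nil (node (nat_lit 10) (nat_lit 81571) (nat_lit 10) nil
  nil))) (node (nat_lit 10) (nat_lit 81731) (nat_lit 9) (node (nat_lit 4) (nat_lit 81731) (nat_lit
  10) (node (nat_lit 6) (nat_lit 81731) (nat_lit 11) (node (nat_lit 4) (nat_lit 81731) (nat_lit
  12) nil (node (nat_lit 5) (nat_lit 81731) (nat_lit 12) nil nil)) nil) (node (nat_lit 5) (nat_lit
  81731) (nat_lit 10) (node (nat_lit 6) (nat_lit 80189) (nat_lit 11) nil nil) nil)) nil))) (node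
  (nat_lit 5) (nat_lit 76348) (nat_lit 8) (node (nat_lit 4) (nat_lit 78991) (nat_lit 9) (node
  (nat_lit 5) (nat_lit 78798) (nat_lit 10) (node (nat_lit 6) (nat_lit 79629) (nat_lit 11) nil nil)
  (node (nat_lit 6) (nat_lit 81073) (nat_lit 10) (node (nat_lit 5) (nat_lit 79310) (nat_lit 11)
  nil nil) nil)) (node (nat_lit 10) (nat_lit 80373) (nat_lit 9) (node (nat_lit 4) (nat_lit 80965)
  (nat_lit 10) (node (nat_lit 5) (nat_lit 80353) (nat_lit 11) (node (nat_lit 4) (nat_lit 80871)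
  (nat_lit 12) nil (node (nat_lit 6) (nat_lit 78862) (nat_lit 12) nil nil)) nil) (node (nat_lit 6)
  (nat_lit 80965) (nat_lit 10) (node (nat_lit 5) (nat_lit 81731) (nat_lit 11) nil nil) nil)) (node
  (nat_lit 6) (nat_lit 78148) (nat_lit 9) (node (nat_lit 4) (nat_lit 79529) (nat_lit 10) nil (node
  (nat_lit 5) (nat_lit 78248) (nat_lit 10) (node (nat_lit 4) (nat_lit 76948) (nat_lit 11) nil nil)
  nil)) nil))) (node (nat_lit 4) (nat_lit 0) (nat_lit 8) (node (nat_lit 5) (nat_lit 78991)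
  (nat_lit 9) (node (nat_lit 4) (nat_lit 80373) (nat_lit 10) nil (node (nat_lit 6) (nat_lit 80982)
  (nat_lit 10) nil nil)) (node (nat_lit 6) (nat_lit 77757) (nat_lit 9) (node (nat_lit 4) (nat_lit
  79139) (nat_lit 10) nil (node (nat_lit 5) (nat_lit 77858) (nat_lit 10) (node (nat_lit 4)
  (nat_lit 76557) (nat_lit 11) nil nil) nil)) (node (nat_lit 0) (nat_lit 80373) (nat_lit 9) nil
  nil))) (node (nat_lit 0) (nat_lit 79658) (nat_lit 8) (node (nat_lit 4) (nat_lit 77677) (nat_lit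
  9) (node (nat_lit 11) (nat_lit 79648) (nat_lit 10) nil nil) (node (nat_lit 10) (nat_lit 81713)
  (nat_lit 9) (node (nat_lit 4) (nat_lit 81713) (nat_lit 10) nil (node (nat_lit 5) (nat_lit 81713)
  (nat_lit 10) nil (node (nat_lit 6) (nat_lit 81713) (nat_lit 10) nil nil))) (node (nat_lit 5)
  (nat_lit 77677) (nat_lit 9) nil (node (nat_lit 6) (nat_lit 80331) (nat_lit 9) nil nil))))
  nil)))) (node (nat_lit 6) (nat_lit 0) (nat_lit 7) (node (nat_lit 0) (nat_lit 0) (nat_lit 8)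
  (node (nat_lit 6) (nat_lit 0) (nat_lit 9) (node (nat_lit 4) (nat_lit 79660) (nat_lit 10) (node
  (nat_lit 5) (nat_lit 80249) (nat_lit 11) nil (node (nat_lit 6) (nat_lit 81310) (nat_lit 11) nil
  (node (nat_lit 11) (nat_lit 80767) (nat_lit 11) nil nil))) (node (nat_lit 5) (nat_lit 81731)
  (nat_lit 10) (node (nat_lit 4) (nat_lit 81731) (nat_lit 11) nil (node (nat_lit 6) (nat_lit
  81731) (nat_lit 11) nil nil)) (node (nat_lit 0) (nat_lit 81731) (nat_lit 10) (node (nat_lit 6)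
  (nat_lit 81731) (nat_lit 11) nil (node (nat_lit 4) (nat_lit 81731) (nat_lit 11) nil nil)) nil)))
  (node (nat_lit 4) (nat_lit 78267) (nat_lit 9) (node (nat_lit 5) (nat_lit 78516) (nat_lit 10)
  (node (nat_lit 6) (nat_lit 80166) (nat_lit 11) nil nil) (node (nat_lit 6) (nat_lit 81021)
  (nat_lit 10) (node (nat_lit 4) (nat_lit 81610) (nat_lit 11) nil nil) (node (nat_lit 11) (nat_lit
  81580) (nat_lit 10) nil nil))) (node (nat_lit 5) (nat_lit 78267) (nat_lit 9) (node (nat_lit 6)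
  (nat_lit 79059) (nat_lit 10) (node (nat_lit 5) (nat_lit 79273) (nat_lit 11) nil nil) (node
  (nat_lit 4) (nat_lit 78516) (nat_lit 10) nil (node (nat_lit 11) (nat_lit 80237) (nat_lit 10) nil
  nil))) (node (nat_lit 0) (nat_lit 80792) (nat_lit 9) (node (nat_lit 6) (nat_lit 80792) (nat_lit
  10) nil (node (nat_lit 11) (nat_lit 81381) (nat_lit 10) nil nil)) nil)))) (node (nat_lit 4)
  (nat_lit 0) (nat_lit 8) (node (nat_lit 0) (nat_lit 79193) (nat_lit 9) (node (nat_lit 6) (nat_lit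
  80144) (nat_lit 10) (node (nat_lit 4) (nat_lit 80988) (nat_lit 11) (node (nat_lit 6) (nat_lit
  81731) (nat_lit 12) (node (nat_lit 12) (nat_lit 81731) (nat_lit 13) nil (node (nat_lit 5)
  (nat_lit 81731) (nat_lit 13) (node (nat_lit 4) (nat_lit 81731) (nat_lit 14) nil nil) nil)) (node
  (nat_lit 5) (nat_lit 81731) (nat_lit 12) (node (nat_lit 6) (nat_lit 81182) (nat_lit 13) nil nil)
  nil)) (node (nat_lit 12) (nat_lit 81731) (nat_lit 11) nil nil)) (node (nat_lit 4) (nat_lit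
  78060) (nat_lit 10) (node (nat_lit 6) (nat_lit 80263) (nat_lit 11) (node (nat_lit 12) (nat_lit
  81731) (nat_lit 12) (node (nat_lit 6) (nat_lit 81731) (nat_lit 13) nil nil) nil) nil) (node
  (nat_lit 5) (nat_lit 79193) (nat_lit 10) nil nil))) nil) (node (nat_lit 5) (nat_lit 0) (nat_lit
  8) (node (nat_lit 0) (nat_lit 0) (nat_lit 9) (node (nat_lit 6) (nat_lit 80144) (nat_lit 10)
  (node (nat_lit 5) (nat_lit 81621) (nat_lit 11) (node (nat_lit 6) (nat_lit 81731) (nat_lit 12)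
  (node (nat_lit 12) (nat_lit 81731) (nat_lit 13) nil (node (nat_lit 4) (nat_lit 81731) (nat_lit
  13) nil nil)) (node (nat_lit 4) (nat_lit 81731) (nat_lit 12) nil (node (nat_lit 0) (nat_lit
  81731) (nat_lit 12) nil nil))) (node (nat_lit 4) (nat_lit 81470) (nat_lit 11) nil nil)) (node
  (nat_lit 5) (nat_lit 78958) (nat_lit 10) (node (nat_lit 6) (nat_lit 80704) (nat_lit 11) (node
  (nat_lit 12) (nat_lit 81731) (nat_lit 12) nil nil) nil) (node (nat_lit 4) (nat_lit 78958)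
  (nat_lit 10) (node (nat_lit 5) (nat_lit 80284) (nat_lit 11) nil nil) (node (nat_lit 0) (nat_lit
  80826) (nat_lit 10) nil nil)))) nil) nil))) nil)) (node (nat_lit 0) (nat_lit 0) (nat_lit 6)
  (node (nat_lit 4) (nat_lit 0) (nat_lit 7) (node (nat_lit 5) (nat_lit 76383) (nat_lit 8) (node
  (nat_lit 6) (nat_lit 78010) (nat_lit 9) (node (nat_lit 4) (nat_lit 79392) (nat_lit 10) nil (node
  (nat_lit 5) (nat_lit 78321) (nat_lit 10) (node (nat_lit 4) (nat_lit 76811) (nat_lit 11) nil nil)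
  nil)) (node (nat_lit 4) (nat_lit 78353) (nat_lit 9) nil nil)) (node (nat_lit 6) (nat_lit 77641)
  (nat_lit 8) (node (nat_lit 5) (nat_lit 76748) (nat_lit 9) (node (nat_lit 4) (nat_lit 75354)
  (nat_lit 10) (node (nat_lit 5) (nat_lit 60577) (nat_lit 11) (node (nat_lit 6) (nat_lit 44634)
  (nat_lit 12) (node (nat_lit 4) (nat_lit 3360) (nat_lit 13) nil nil) nil) nil) (node (nat_lit 6)
  (nat_lit 78130) (nat_lit 10) nil nil)) (node (nat_lit 4) (nat_lit 79611) (nat_lit 9) nil (node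
  (nat_lit 9) (nat_lit 80993) (nat_lit 9) nil nil))) (node (nat_lit 9) (nat_lit 79932) (nat_lit 8)
  (node (nat_lit 6) (nat_lit 79932) (nat_lit 9) nil (node (nat_lit 5) (nat_lit 79932) (nat_lit 9)
  nil nil)) (node (nat_lit 0) (nat_lit 78895) (nat_lit 8) nil nil)))) (node (nat_lit 6) (nat_lit
  0) (nat_lit 7) (node (nat_lit 4) (nat_lit 76726) (nat_lit 8) (node (nat_lit 5) (nat_lit 76715)
  (nat_lit 9) (node (nat_lit 4) (nat_lit 78097) (nat_lit 10) nil (node (nat_lit 6) (nat_lit 78287)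
  (nat_lit 10) nil nil)) (node (nat_lit 6) (nat_lit 78579) (nat_lit 9) (node (nat_lit 5) (nat_lit
  78890) (nat_lit 10) nil nil) nil)) (node (nat_lit 5) (nat_lit 79776) (nat_lit 8) (node (nat_lit
  4) (nat_lit 81731) (nat_lit 9) nil (node (nat_lit 6) (nat_lit 81731) (nat_lit 9) nil nil)) (node
  (nat_lit 9) (nat_lit 81731) (nat_lit 8) (node (nat_lit 5) (nat_lit 81731) (nat_lit 9) nil nil)
  (node (nat_lit 0) (nat_lit 80243) (nat_lit 8) nil nil)))) (node (nat_lit 5) (nat_lit 73757)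
  (nat_lit 7) (node (nat_lit 6) (nat_lit 77641) (nat_lit 8) (node (nat_lit 4) (nat_lit 78662)
  (nat_lit 9) (node (nat_lit 6) (nat_lit 80136) (nat_lit 10) (node (nat_lit 5) (nat_lit 80210)
  (nat_lit 11) nil nil) (node (nat_lit 5) (nat_lit 80043) (nat_lit 10) nil nil)) (node (nat_lit 5)
  (nat_lit 76247) (nat_lit 9) (node (nat_lit 4) (nat_lit 75061) (nat_lit 10) nil nil) nil)) (node
  (nat_lit 4) (nat_lit 76383) (nat_lit 8) (node (nat_lit 6) (nat_lit 78391) (nat_lit 9) (node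
  (nat_lit 5) (nat_lit 78849) (nat_lit 10) nil (node (nat_lit 4) (nat_lit 79773) (nat_lit 10) nil
  nil)) (node (nat_lit 5) (nat_lit 78353) (nat_lit 9) nil nil)) nil)) (node (nat_lit 0) (nat_lit
  77704) (nat_lit 7) (node (nat_lit 4) (nat_lit 76158) (nat_lit 8) nil (node (nat_lit 6) (nat_lit
  79454) (nat_lit 8) nil (node (nat_lit 5) (nat_lit 76158) (nat_lit 8) nil nil))) nil)))) nil))
  nil))

noncomputable def t412 : Tr :=
  (node (nat_lit 6) (nat_lit 0) (nat_lit 6) (node (nat_lit 0) (nat_lit 0) (nat_lit 7) (node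
  (nat_lit 5) (nat_lit 0) (nat_lit 8) (node (nat_lit 10) (nat_lit 88372) (nat_lit 9) (node
  (nat_lit 6) (nat_lit 90175) (nat_lit 10) (node (nat_lit 5) (nat_lit 93369) (nat_lit 11) (node
  (nat_lit 6) (nat_lit 92033) (nat_lit 12) (node (nat_lit 4) (nat_lit 92912) (nat_lit 13) (node
  (nat_lit 5) (nat_lit 91827) (nat_lit 14) (node (nat_lit 6) (nat_lit 89035) (nat_lit 15) (node
  (nat_lit 5) (nat_lit 85019) (nat_lit 16) (node (nat_lit 4) (nat_lit 80963) (nat_lit 17) nil nil)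
  nil) nil) nil) nil) (node (nat_lit 4) (nat_lit 92392) (nat_lit 12) nil nil)) (node (nat_lit 4)
  (nat_lit 91458) (nat_lit 11) nil (node (nat_lit 10) (nat_lit 92587) (nat_lit 11) nil nil)))
  (node (nat_lit 4) (nat_lit 91061) (nat_lit 10) (node (nat_lit 5) (nat_lit 90555) (nat_lit 11)
  (node (nat_lit 4) (nat_lit 89579) (nat_lit 12) nil nil) nil) nil)) (node (nat_lit 4) (nat_lit
  85817) (nat_lit 9) (node (nat_lit 6) (nat_lit 89342) (nat_lit 10) (node (nat_lit 4) (nat_lit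
  84003) (nat_lit 11) (node (nat_lit 5) (nat_lit 79674) (nat_lit 12) (node (nat_lit 6) (nat_lit
  74173) (nat_lit 13) (node (nat_lit 5) (nat_lit 55713) (nat_lit 14) (node (nat_lit 4) (nat_lit
  49105) (nat_lit 15) (node (nat_lit 6) (nat_lit 46758) (nat_lit 16) nil nil) nil) nil) nil) nil)
  (node (nat_lit 5) (nat_lit 87128) (nat_lit 11) nil nil)) (node (nat_lit 5) (nat_lit 89280)
  (nat_lit 10) (node (nat_lit 6) (nat_lit 91828) (nat_lit 11) nil nil) (node (nat_lit 10) (nat_lit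
  90255) (nat_lit 10) nil nil))) (node (nat_lit 6) (nat_lit 84913) (nat_lit 9) (node (nat_lit 5)
  (nat_lit 91856) (nat_lit 10) (node (nat_lit 4) (nat_lit 93320) (nat_lit 11) (node (nat_lit 6)
  (nat_lit 91135) (nat_lit 12) nil (node (nat_lit 5) (nat_lit 81782) (nat_lit 12) nil nil)) (node
  (nat_lit 10) (nat_lit 94267) (nat_lit 11) nil nil)) (node (nat_lit 4) (nat_lit 89198) (nat_lit
  10) (node (nat_lit 6) (nat_lit 88018) (nat_lit 11) nil nil) (node (nat_lit 10) (nat_lit 91234)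
  (nat_lit 10) (node (nat_lit 6) (nat_lit 91234) (nat_lit 11) nil nil) nil))) (node (nat_lit 0)
  (nat_lit 85481) (nat_lit 9) nil nil)))) (node (nat_lit 4) (nat_lit 0) (nat_lit 8) (node (nat_lit
  10) (nat_lit 86156) (nat_lit 9) (node (nat_lit 6) (nat_lit 88548) (nat_lit 10) (node (nat_lit 4)
  (nat_lit 91979) (nat_lit 11) (node (nat_lit 6) (nat_lit 91056) (nat_lit 12) nil (node (nat_lit
  5) (nat_lit 93107) (nat_lit 12) nil nil)) (node (nat_lit 5) (nat_lit 87253) (nat_lit 11) nil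
  (node (nat_lit 10) (nat_lit 90959) (nat_lit 11) nil nil))) (node (nat_lit 5) (nat_lit 88846)
  (nat_lit 10) (node (nat_lit 4) (nat_lit 87374) (nat_lit 11) (node (nat_lit 5) (nat_lit 88502)
  (nat_lit 12) nil nil) nil) nil)) (node (nat_lit 5) (nat_lit 85746) (nat_lit 9) (node (nat_lit 6)
  (nat_lit 90621) (nat_lit 10) (node (nat_lit 5) (nat_lit 87857) (nat_lit 11) (node (nat_lit 4)
  (nat_lit 86501) (nat_lit 12) nil nil) (node (nat_lit 4) (nat_lit 91904) (nat_lit 11) nil nil))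
  (node (nat_lit 4) (nat_lit 89126) (nat_lit 10) (node (nat_lit 6) (nat_lit 90577) (nat_lit 11)
  nil nil) (node (nat_lit 10) (nat_lit 90184) (nat_lit 10) nil nil))) (node (nat_lit 6) (nat_lit
  82808) (nat_lit 9) (node (nat_lit 4) (nat_lit 88688) (nat_lit 10) (node (nat_lit 5) (nat_lit
  91583) (nat_lit 11) (node (nat_lit 6) (nat_lit 90702) (nat_lit 12) nil nil) nil) (node (nat_lit
  5) (nat_lit 88858) (nat_lit 10) (node (nat_lit 4) (nat_lit 85572) (nat_lit 11) nil (node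
  (nat_lit 6) (nat_lit 91164) (nat_lit 11) nil nil)) nil)) (node (nat_lit 0) (nat_lit 83513)
  (nat_lit 9) nil nil)))) (node (nat_lit 6) (nat_lit 0) (nat_lit 8) (node (nat_lit 4) (nat_lit
  82891) (nat_lit 9) (node (nat_lit 6) (nat_lit 87673) (nat_lit 10) (node (nat_lit 5) (nat_lit
  82331) (nat_lit 11) nil (node (nat_lit 10) (nat_lit 90084) (nat_lit 11) nil nil)) (node (nat_lit
  5) (nat_lit 85601) (nat_lit 10) (node (nat_lit 6) (nat_lit 84422) (nat_lit 11) nil nil) nil))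
  (node (nat_lit 5) (nat_lit 84780) (nat_lit 9) (node (nat_lit 6) (nat_lit 88749) (nat_lit 10)
  (node (nat_lit 4) (nat_lit 89882) (nat_lit 11) (node (nat_lit 5) (nat_lit 78836) (nat_lit 12)
  nil nil) nil) (node (nat_lit 4) (nat_lit 90387) (nat_lit 10) nil (node (nat_lit 10) (nat_lit
  89218) (nat_lit 10) nil nil))) (node (nat_lit 0) (nat_lit 83061) (nat_lit 9) nil nil))) (node
  (nat_lit 0) (nat_lit 0) (nat_lit 8) (node (nat_lit 6) (nat_lit 83936) (nat_lit 9) (node (nat_lit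
  11) (nat_lit 90094) (nat_lit 10) nil nil) (node (nat_lit 10) (nat_lit 0) (nat_lit 9) (node
  (nat_lit 6) (nat_lit 87142) (nat_lit 10) (node (nat_lit 11) (nat_lit 89553) (nat_lit 11) nil
  nil) (node (nat_lit 0) (nat_lit 89435) (nat_lit 10) nil (node (nat_lit 5) (nat_lit 88153)
  (nat_lit 10) nil (node (nat_lit 4) (nat_lit 88153) (nat_lit 10) nil nil)))) (node (nat_lit 5)
  (nat_lit 82038) (nat_lit 9) nil (node (nat_lit 4) (nat_lit 84523) (nat_lit 9) nil (node (nat_lit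
  0) (nat_lit 85575) (nat_lit 9) nil nil))))) nil)))) (node (nat_lit 5) (nat_lit 0) (nat_lit 7)
  (node (nat_lit 0) (nat_lit 0) (nat_lit 8) (node (nat_lit 5) (nat_lit 0) (nat_lit 9) (node
  (nat_lit 4) (nat_lit 87066) (nat_lit 10) (node (nat_lit 6) (nat_lit 91930) (nat_lit 11) (node
  (nat_lit 4) (nat_lit 90586) (nat_lit 12) (node (nat_lit 5) (nat_lit 84978) (nat_lit 13) (node
  (nat_lit 6) (nat_lit 73668) (nat_lit 14) (node (nat_lit 5) (nat_lit 68126) (nat_lit 15) (node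
  (nat_lit 4) (nat_lit 61142) (nat_lit 16) (node (nat_lit 6) (nat_lit 49266) (nat_lit 17) (node
  (nat_lit 5) (nat_lit 49672) (nat_lit 18) nil nil) nil) nil) nil) nil) nil) (node (nat_lit 5)
  (nat_lit 89897) (nat_lit 12) nil (node (nat_lit 0) (nat_lit 94082) (nat_lit 12) nil (node
  (nat_lit 11) (nat_lit 94082) (nat_lit 12) nil nil)))) (node (nat_lit 5) (nat_lit 89881) (nat_lit
  11) (node (nat_lit 11) (nat_lit 94270) (nat_lit 12) nil (node (nat_lit 6) (nat_lit 90418)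
  (nat_lit 12) nil nil)) (node (nat_lit 11) (nat_lit 92930) (nat_lit 11) (node (nat_lit 4)
  (nat_lit 92930) (nat_lit 12) nil nil) (node (nat_lit 0) (nat_lit 92340) (nat_lit 11) nil nil))))
  (node (nat_lit 6) (nat_lit 86098) (nat_lit 10) (node (nat_lit 11) (nat_lit 90905) (nat_lit 11)
  (node (nat_lit 5) (nat_lit 93427) (nat_lit 12) (node (nat_lit 11) (nat_lit 95281) (nat_lit 13)
  nil (node (nat_lit 4) (nat_lit 92764) (nat_lit 13) nil nil)) (node (nat_lit 6) (nat_lit 90905)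
  (nat_lit 12) nil nil)) (node (nat_lit 4) (nat_lit 89544) (nat_lit 11) (node (nat_lit 5) (nat_lit
  90829) (nat_lit 12) nil (node (nat_lit 6) (nat_lit 90700) (nat_lit 12) nil nil)) (node (nat_lit
  5) (nat_lit 88602) (nat_lit 11) (node (nat_lit 11) (nat_lit 92793) (nat_lit 12) (node (nat_lit
  6) (nat_lit 92793) (nat_lit 13) nil nil) (node (nat_lit 4) (nat_lit 89137) (nat_lit 12) nil
  nil)) (node (nat_lit 0) (nat_lit 90326) (nat_lit 11) nil nil)))) (node (nat_lit 0) (nat_lit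
  86830) (nat_lit 10) (node (nat_lit 11) (nat_lit 90822) (nat_lit 11) (node (nat_lit 5) (nat_lit
  90822) (nat_lit 12) nil nil) (node (nat_lit 5) (nat_lit 86127) (nat_lit 11) nil (node (nat_lit
  6) (nat_lit 86830) (nat_lit 11) nil (node (nat_lit 0) (nat_lit 87958) (nat_lit 11) nil nil))))
  nil))) (node (nat_lit 6) (nat_lit 0) (nat_lit 9) (node (nat_lit 11) (nat_lit 86606) (nat_lit 10)
  (node (nat_lit 5) (nat_lit 89453) (nat_lit 11) (node (nat_lit 11) (nat_lit 93842) (nat_lit 12)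
  (node (nat_lit 6) (nat_lit 93813) (nat_lit 13) nil nil) nil) nil) (node (nat_lit 5) (nat_lit
  85496) (nat_lit 10) (node (nat_lit 6) (nat_lit 89643) (nat_lit 11) (node (nat_lit 11) (nat_lit
  91795) (nat_lit 12) nil nil) nil) (node (nat_lit 4) (nat_lit 86465) (nat_lit 10) (node (nat_lit
  5) (nat_lit 87044) (nat_lit 11) nil (node (nat_lit 6) (nat_lit 85285) (nat_lit 11) nil nil))
  (node (nat_lit 0) (nat_lit 83941) (nat_lit 10) nil nil)))) (node (nat_lit 4) (nat_lit 78342)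
  (nat_lit 9) (node (nat_lit 5) (nat_lit 85291) (nat_lit 10) (node (nat_lit 4) (nat_lit 85812)
  (nat_lit 11) nil nil) (node (nat_lit 11) (nat_lit 85822) (nat_lit 10) (node (nat_lit 5) (nat_lit
  85118) (nat_lit 11) nil nil) (node (nat_lit 6) (nat_lit 85792) (nat_lit 10) (node (nat_lit 5)
  (nat_lit 79913) (nat_lit 11) nil nil) nil))) (node (nat_lit 0) (nat_lit 80973) (nat_lit 9) (node
  (nat_lit 5) (nat_lit 82819) (nat_lit 10) (node (nat_lit 11) (nat_lit 88095) (nat_lit 11) (node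
  (nat_lit 5) (nat_lit 88095) (nat_lit 12) nil nil) nil) (node (nat_lit 11) (nat_lit 85644)
  (nat_lit 10) (node (nat_lit 5) (nat_lit 85644) (nat_lit 11) nil nil) nil)) nil)))) (node
  (nat_lit 6) (nat_lit 0) (nat_lit 8) (node (nat_lit 0) (nat_lit 0) (nat_lit 9) (node (nat_lit 5)
  (nat_lit 79741) (nat_lit 10) (node (nat_lit 6) (nat_lit 85576) (nat_lit 11) (node (nat_lit 5)
  (nat_lit 89689) (nat_lit 12) (node (nat_lit 4) (nat_lit 90771) (nat_lit 13) (node (nat_lit 6)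
  (nat_lit 90022) (nat_lit 14) nil nil) (node (nat_lit 12) (nat_lit 92923) (nat_lit 13) nil nil))
  (node (nat_lit 4) (nat_lit 88852) (nat_lit 12) (node (nat_lit 6) (nat_lit 89023) (nat_lit 13)
  nil (node (nat_lit 5) (nat_lit 90669) (nat_lit 13) nil nil)) (node (nat_lit 0) (nat_lit 89719)
  (nat_lit 12) nil nil))) (node (nat_lit 12) (nat_lit 87917) (nat_lit 11) nil nil)) (node (nat_lit
  6) (nat_lit 79197) (nat_lit 10) (node (nat_lit 5) (nat_lit 85776) (nat_lit 11) (node (nat_lit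
  12) (nat_lit 92156) (nat_lit 12) (node (nat_lit 5) (nat_lit 92156) (nat_lit 13) nil nil) nil)
  nil) (node (nat_lit 4) (nat_lit 74032) (nat_lit 10) nil (node (nat_lit 0) (nat_lit 77017)
  (nat_lit 10) nil nil)))) nil) nil)) (node (nat_lit 4) (nat_lit 0) (nat_lit 7) (node (nat_lit 0)
  (nat_lit 0) (nat_lit 8) (node (nat_lit 4) (nat_lit 0) (nat_lit 9) (node (nat_lit 6) (nat_lit
  77442) (nat_lit 10) (node (nat_lit 11) (nat_lit 82884) (nat_lit 11) (node (nat_lit 4) (nat_lit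
  86449) (nat_lit 12) (node (nat_lit 11) (nat_lit 90047) (nat_lit 13) nil (node (nat_lit 5)
  (nat_lit 87473) (nat_lit 13) nil nil)) (node (nat_lit 6) (nat_lit 83630) (nat_lit 12) nil nil))
  (node (nat_lit 5) (nat_lit 83597) (nat_lit 11) (node (nat_lit 4) (nat_lit 85169) (nat_lit 12)
  (node (nat_lit 5) (nat_lit 77723) (nat_lit 13) nil nil) (node (nat_lit 6) (nat_lit 86143)
  (nat_lit 12) nil (node (nat_lit 0) (nat_lit 85749) (nat_lit 12) nil (node (nat_lit 11) (nat_lit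
  85749) (nat_lit 12) nil nil)))) (node (nat_lit 4) (nat_lit 81589) (nat_lit 11) (node (nat_lit 5)
  (nat_lit 82718) (nat_lit 12) nil nil) (node (nat_lit 0) (nat_lit 82718) (nat_lit 11) nil nil))))
  (node (nat_lit 5) (nat_lit 79172) (nat_lit 10) (node (nat_lit 6) (nat_lit 83320) (nat_lit 11)
  (node (nat_lit 4) (nat_lit 85865) (nat_lit 12) nil (node (nat_lit 5) (nat_lit 85133) (nat_lit
  12) nil (node (nat_lit 0) (nat_lit 85472) (nat_lit 12) nil (node (nat_lit 11) (nat_lit 85472)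
  (nat_lit 12) nil nil)))) (node (nat_lit 4) (nat_lit 82700) (nat_lit 11) (node (nat_lit 11)
  (nat_lit 87089) (nat_lit 12) nil (node (nat_lit 6) (nat_lit 78452) (nat_lit 12) nil nil)) (node
  (nat_lit 11) (nat_lit 84448) (nat_lit 11) nil (node (nat_lit 0) (nat_lit 84448) (nat_lit 11) nil
  nil)))) (node (nat_lit 0) (nat_lit 81364) (nat_lit 10) (node (nat_lit 11) (nat_lit 85769)
  (nat_lit 11) (node (nat_lit 4) (nat_lit 86536) (nat_lit 12) nil nil) (node (nat_lit 4) (nat_lit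
  82308) (nat_lit 11) nil (node (nat_lit 0) (nat_lit 82493) (nat_lit 11) nil nil))) nil))) (node
  (nat_lit 6) (nat_lit 0) (nat_lit 9) (node (nat_lit 11) (nat_lit 77947) (nat_lit 10) (node
  (nat_lit 4) (nat_lit 82238) (nat_lit 11) (node (nat_lit 11) (nat_lit 87108) (nat_lit 12) (node
  (nat_lit 6) (nat_lit 88548) (nat_lit 13) (node (nat_lit 4) (nat_lit 89378) (nat_lit 14) nil nil)
  nil) nil) nil) (node (nat_lit 4) (nat_lit 77114) (nat_lit 10) (node (nat_lit 6) (nat_lit 79316)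
  (nat_lit 11) (node (nat_lit 11) (nat_lit 83704) (nat_lit 12) nil nil) nil) (node (nat_lit 5)
  (nat_lit 79611) (nat_lit 10) (node (nat_lit 4) (nat_lit 80132) (nat_lit 11) nil nil) (node
  (nat_lit 0) (nat_lit 75860) (nat_lit 10) nil nil)))) (node (nat_lit 5) (nat_lit 71792) (nat_lit
  9) (node (nat_lit 4) (nat_lit 78640) (nat_lit 10) (node (nat_lit 5) (nat_lit 81740) (nat_lit 11)
  nil (node (nat_lit 6) (nat_lit 72877) (nat_lit 11) nil nil)) (node (nat_lit 11) (nat_lit 80521)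
  (nat_lit 10) (node (nat_lit 4) (nat_lit 81464) (nat_lit 11) nil nil) (node (nat_lit 6) (nat_lit
  78386) (nat_lit 10) (node (nat_lit 4) (nat_lit 79669) (nat_lit 11) nil nil) nil))) (node
  (nat_lit 0) (nat_lit 75075) (nat_lit 9) (node (nat_lit 4) (nat_lit 77028) (nat_lit 10) (node
  (nat_lit 11) (nat_lit 82302) (nat_lit 11) nil nil) (node (nat_lit 11) (nat_lit 79399) (nat_lit
  10) nil nil)) nil)))) (node (nat_lit 5) (nat_lit 0) (nat_lit 8) (node (nat_lit 0) (nat_lit 0)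
  (nat_lit 9) (node (nat_lit 4) (nat_lit 48222) (nat_lit 10) (node (nat_lit 5) (nat_lit 53564)
  (nat_lit 11) (node (nat_lit 4) (nat_lit 57285) (nat_lit 12) (node (nat_lit 12) (nat_lit 61626)
  (nat_lit 13) nil (node (nat_lit 6) (nat_lit 55142) (nat_lit 13) nil (node (nat_lit 0) (nat_lit
  60520) (nat_lit 13) nil nil))) (node (nat_lit 6) (nat_lit 57776) (nat_lit 12) (node (nat_lit 4)
  (nat_lit 60698) (nat_lit 13) nil (node (nat_lit 12) (nat_lit 61011) (nat_lit 13) nil (node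
  (nat_lit 5) (nat_lit 56938) (nat_lit 13) nil nil))) (node (nat_lit 0) (nat_lit 59125) (nat_lit
  12) nil nil))) (node (nat_lit 6) (nat_lit 48561) (nat_lit 11) nil nil)) (node (nat_lit 5)
  (nat_lit 47814) (nat_lit 10) (node (nat_lit 4) (nat_lit 47670) (nat_lit 11) nil nil) (node
  (nat_lit 6) (nat_lit 47746) (nat_lit 10) (node (nat_lit 5) (nat_lit 47602) (nat_lit 11) nil nil)
  (node (nat_lit 0) (nat_lit 48269) (nat_lit 10) nil nil)))) nil) nil)) nil))) (node (nat_lit 5)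
  (nat_lit 0) (nat_lit 6) (node (nat_lit 0) (nat_lit 0) (nat_lit 7) (node (nat_lit 6) (nat_lit 0)
  (nat_lit 8) (node (nat_lit 10) (nat_lit 61071) (nat_lit 9) (node (nat_lit 5) (nat_lit 62366)
  (nat_lit 10) (node (nat_lit 6) (nat_lit 63832) (nat_lit 11) (node (nat_lit 5) (nat_lit 63832)
  (nat_lit 12) (node (nat_lit 4) (nat_lit 63441) (nat_lit 13) nil nil) (node (nat_lit 4) (nat_lit
  63832) (nat_lit 12) nil nil)) nil) (node (nat_lit 4) (nat_lit 62199) (nat_lit 10) (node (nat_lit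
  6) (nat_lit 62230) (nat_lit 11) nil nil) nil)) (node (nat_lit 5) (nat_lit 59464) (nat_lit 9)
  (node (nat_lit 6) (nat_lit 61795) (nat_lit 10) (node (nat_lit 4) (nat_lit 62037) (nat_lit 11)
  (node (nat_lit 5) (nat_lit 58201) (nat_lit 12) nil nil) nil) (node (nat_lit 4) (nat_lit 61881)
  (nat_lit 10) nil (node (nat_lit 10) (nat_lit 61931) (nat_lit 10) nil nil))) (node (nat_lit 4)
  (nat_lit 60155) (nat_lit 9) (node (nat_lit 5) (nat_lit 61048) (nat_lit 10) nil (node (nat_lit 6)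
  (nat_lit 63057) (nat_lit 10) (node (nat_lit 5) (nat_lit 60585) (nat_lit 11) (node (nat_lit 4)
  (nat_lit 59090) (nat_lit 12) nil nil) nil) nil)) (node (nat_lit 0) (nat_lit 59358) (nat_lit 9)
  nil nil)))) (node (nat_lit 4) (nat_lit 0) (nat_lit 8) (node (nat_lit 10) (nat_lit 61988)
  (nat_lit 9) (node (nat_lit 5) (nat_lit 63547) (nat_lit 10) (node (nat_lit 4) (nat_lit 63832)
  (nat_lit 11) (node (nat_lit 5) (nat_lit 63832) (nat_lit 12) nil (node (nat_lit 6) (nat_lit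
  62492) (nat_lit 12) nil nil)) nil) (node (nat_lit 6) (nat_lit 63116) (nat_lit 10) (node (nat_lit
  4) (nat_lit 63832) (nat_lit 11) nil nil) nil)) (node (nat_lit 5) (nat_lit 61163) (nat_lit 9)
  (node (nat_lit 4) (nat_lit 63547) (nat_lit 10) (node (nat_lit 6) (nat_lit 63109) (nat_lit 11)
  (node (nat_lit 5) (nat_lit 61615) (nat_lit 12) nil nil) nil) (node (nat_lit 6) (nat_lit 62937)
  (nat_lit 10) nil nil)) (node (nat_lit 6) (nat_lit 61028) (nat_lit 9) (node (nat_lit 5) (nat_lit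
  61921) (nat_lit 10) (node (nat_lit 6) (nat_lit 59056) (nat_lit 11) (node (nat_lit 4) (nat_lit
  59682) (nat_lit 12) nil nil) (node (nat_lit 4) (nat_lit 60036) (nat_lit 11) nil nil)) (node
  (nat_lit 4) (nat_lit 63547) (nat_lit 10) (node (nat_lit 5) (nat_lit 63832) (nat_lit 11) nil nil)
  nil)) (node (nat_lit 0) (nat_lit 61519) (nat_lit 9) nil nil)))) (node (nat_lit 5) (nat_lit 0)
  (nat_lit 8) (node (nat_lit 4) (nat_lit 60697) (nat_lit 9) (node (nat_lit 6) (nat_lit 60977)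
  (nat_lit 10) (node (nat_lit 4) (nat_lit 56276) (nat_lit 11) (node (nat_lit 5) (nat_lit 52440)
  (nat_lit 12) (node (nat_lit 6) (nat_lit 48433) (nat_lit 13) (node (nat_lit 5) (nat_lit 40428)
  (nat_lit 14) (node (nat_lit 4) (nat_lit 25926) (nat_lit 15) (node (nat_lit 5) (nat_lit 15030)
  (nat_lit 16) nil nil) nil) nil) nil) nil) (node (nat_lit 5) (nat_lit 59092) (nat_lit 11) nil
  nil)) (node (nat_lit 5) (nat_lit 62470) (nat_lit 10) nil nil)) (node (nat_lit 6) (nat_lit 59079)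
  (nat_lit 9) (node (nat_lit 5) (nat_lit 60853) (nat_lit 10) (node (nat_lit 4) (nat_lit 58968)
  (nat_lit 11) (node (nat_lit 5) (nat_lit 59578) (nat_lit 12) (node (nat_lit 6) (nat_lit 60133)
  (nat_lit 13) nil nil) nil) nil) (node (nat_lit 4) (nat_lit 61982) (nat_lit 10) nil nil)) (node
  (nat_lit 0) (nat_lit 60779) (nat_lit 9) nil nil))) (node (nat_lit 0) (nat_lit 0) (nat_lit 8)
  (node (nat_lit 5) (nat_lit 59565) (nat_lit 9) (node (nat_lit 11) (nat_lit 62032) (nat_lit 10)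
  nil nil) (node (nat_lit 10) (nat_lit 62385) (nat_lit 9) (node (nat_lit 5) (nat_lit 61700)
  (nat_lit 10) nil (node (nat_lit 4) (nat_lit 62385) (nat_lit 10) nil (node (nat_lit 6) (nat_lit
  62385) (nat_lit 10) nil nil))) (node (nat_lit 6) (nat_lit 59984) (nat_lit 9) nil (node (nat_lit
  4) (nat_lit 60806) (nat_lit 9) nil (node (nat_lit 0) (nat_lit 61288) (nat_lit 9) nil nil)))))
  nil)))) (node (nat_lit 6) (nat_lit 0) (nat_lit 7) (node (nat_lit 0) (nat_lit 0) (nat_lit 8)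
  (node (nat_lit 6) (nat_lit 0) (nat_lit 9) (node (nat_lit 5) (nat_lit 58738) (nat_lit 10) (node
  (nat_lit 4) (nat_lit 60452) (nat_lit 11) (node (nat_lit 6) (nat_lit 60273) (nat_lit 12) nil
  (node (nat_lit 5) (nat_lit 61063) (nat_lit 12) nil nil)) (node (nat_lit 6) (nat_lit 61249)
  (nat_lit 11) (node (nat_lit 4) (nat_lit 62615) (nat_lit 12) nil (node (nat_lit 11) (nat_lit
  62414) (nat_lit 12) nil nil)) (node (nat_lit 11) (nat_lit 61859) (nat_lit 11) (node (nat_lit 6)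
  (nat_lit 63276) (nat_lit 12) nil nil) (node (nat_lit 0) (nat_lit 60042) (nat_lit 11) nil nil))))
  (node (nat_lit 4) (nat_lit 60964) (nat_lit 10) (node (nat_lit 5) (nat_lit 61967) (nat_lit 11)
  (node (nat_lit 6) (nat_lit 62578) (nat_lit 12) nil (node (nat_lit 4) (nat_lit 63399) (nat_lit
  12) nil nil)) (node (nat_lit 6) (nat_lit 61264) (nat_lit 11) (node (nat_lit 5) (nat_lit 62137)
  (nat_lit 12) nil nil) (node (nat_lit 11) (nat_lit 62268) (nat_lit 11) nil (node (nat_lit 0)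
  (nat_lit 62268) (nat_lit 11) nil nil)))) (node (nat_lit 0) (nat_lit 61658) (nat_lit 10) (node
  (nat_lit 6) (nat_lit 61264) (nat_lit 11) nil (node (nat_lit 11) (nat_lit 63820) (nat_lit 11) nil
  (node (nat_lit 5) (nat_lit 61658) (nat_lit 11) nil nil))) nil))) (node (nat_lit 5) (nat_lit 0)
  (nat_lit 9) (node (nat_lit 11) (nat_lit 59431) (nat_lit 10) (node (nat_lit 6) (nat_lit 59303)
  (nat_lit 11) (node (nat_lit 11) (nat_lit 61885) (nat_lit 12) nil nil) nil) (node (nat_lit 4)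
  (nat_lit 60964) (nat_lit 10) (node (nat_lit 6) (nat_lit 61264) (nat_lit 11) nil nil) (node
  (nat_lit 6) (nat_lit 58738) (nat_lit 10) (node (nat_lit 5) (nat_lit 59602) (nat_lit 11) nil nil)
  (node (nat_lit 0) (nat_lit 57105) (nat_lit 10) nil nil)))) (node (nat_lit 4) (nat_lit 56806)
  (nat_lit 9) (node (nat_lit 6) (nat_lit 60905) (nat_lit 10) (node (nat_lit 4) (nat_lit 63413)
  (nat_lit 11) nil nil) (node (nat_lit 11) (nat_lit 61599) (nat_lit 10) nil (node (nat_lit 5)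
  (nat_lit 58783) (nat_lit 10) nil nil))) (node (nat_lit 0) (nat_lit 58298) (nat_lit 9) (node
  (nat_lit 6) (nat_lit 58195) (nat_lit 10) (node (nat_lit 11) (nat_lit 61313) (nat_lit 11) nil
  nil) (node (nat_lit 11) (nat_lit 61319) (nat_lit 10) (node (nat_lit 6) (nat_lit 61319) (nat_lit
  11) nil nil) nil)) nil)))) (node (nat_lit 4) (nat_lit 0) (nat_lit 8) (node (nat_lit 0) (nat_lit
  0) (nat_lit 9) (node (nat_lit 6) (nat_lit 57452) (nat_lit 10) (node (nat_lit 4) (nat_lit 61011)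
  (nat_lit 11) (node (nat_lit 6) (nat_lit 63091) (nat_lit 12) (node (nat_lit 12) (nat_lit 63832)
  (nat_lit 13) nil (node (nat_lit 5) (nat_lit 62155) (nat_lit 13) nil nil)) (node (nat_lit 5)
  (nat_lit 62863) (nat_lit 12) (node (nat_lit 6) (nat_lit 63832) (nat_lit 13) nil (node (nat_lit
  4) (nat_lit 61927) (nat_lit 13) nil (node (nat_lit 12) (nat_lit 63832) (nat_lit 13) nil nil)))
  (node (nat_lit 0) (nat_lit 63314) (nat_lit 12) nil nil))) (node (nat_lit 5) (nat_lit 55983)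
  (nat_lit 11) nil nil)) (node (nat_lit 4) (nat_lit 58060) (nat_lit 10) (node (nat_lit 6) (nat_lit
  59002) (nat_lit 11) (node (nat_lit 12) (nat_lit 61305) (nat_lit 12) nil nil) nil) (node (nat_lit
  5) (nat_lit 57452) (nat_lit 10) (node (nat_lit 4) (nat_lit 55983) (nat_lit 11) nil nil) (node
  (nat_lit 0) (nat_lit 56785) (nat_lit 10) nil nil)))) nil) nil)) nil)) (node (nat_lit 0) (nat_lit
  0) (nat_lit 6) (node (nat_lit 6) (nat_lit 0) (nat_lit 7) (node (nat_lit 5) (nat_lit 82875)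
  (nat_lit 8) (node (nat_lit 4) (nat_lit 90282) (nat_lit 9) (node (nat_lit 6) (nat_lit 92536)
  (nat_lit 10) (node (nat_lit 4) (nat_lit 90633) (nat_lit 11) (node (nat_lit 5) (nat_lit 86463)
  (nat_lit 12) nil nil) nil) (node (nat_lit 5) (nat_lit 94048) (nat_lit 10) nil nil)) (node
  (nat_lit 6) (nat_lit 88785) (nat_lit 9) (node (nat_lit 4) (nat_lit 90085) (nat_lit 10) (node
  (nat_lit 5) (nat_lit 78418) (nat_lit 11) nil nil) nil) (node (nat_lit 9) (nat_lit 91314)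
  (nat_lit 9) nil nil))) (node (nat_lit 4) (nat_lit 82671) (nat_lit 8) (node (nat_lit 5) (nat_lit
  88598) (nat_lit 9) (node (nat_lit 6) (nat_lit 90814) (nat_lit 10) nil (node (nat_lit 4) (nat_lit
  90313) (nat_lit 10) nil nil)) (node (nat_lit 6) (nat_lit 89321) (nat_lit 9) (node (nat_lit 5)
  (nat_lit 85975) (nat_lit 10) nil nil) nil)) (node (nat_lit 9) (nat_lit 86396) (nat_lit 8) (node
  (nat_lit 4) (nat_lit 85627) (nat_lit 9) nil nil) (node (nat_lit 0) (nat_lit 81511) (nat_lit 8)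
  nil nil)))) (node (nat_lit 5) (nat_lit 0) (nat_lit 7) (node (nat_lit 4) (nat_lit 84800) (nat_lit
  8) (node (nat_lit 6) (nat_lit 90682) (nat_lit 9) (node (nat_lit 4) (nat_lit 92912) (nat_lit 10)
  (node (nat_lit 5) (nat_lit 88478) (nat_lit 11) (node (nat_lit 6) (nat_lit 64657) (nat_lit 12)
  (node (nat_lit 5) (nat_lit 46711) (nat_lit 13) nil nil) nil) nil) (node (nat_lit 5) (nat_lit
  93193) (nat_lit 10) (node (nat_lit 6) (nat_lit 90070) (nat_lit 11) nil nil) nil)) (node (nat_lit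
  5) (nat_lit 90777) (nat_lit 9) nil nil)) (node (nat_lit 6) (nat_lit 82882) (nat_lit 8) (node
  (nat_lit 4) (nat_lit 89662) (nat_lit 9) (node (nat_lit 5) (nat_lit 92007) (nat_lit 10) nil (node
  (nat_lit 6) (nat_lit 90742) (nat_lit 10) nil nil)) (node (nat_lit 5) (nat_lit 87321) (nat_lit 9)
  (node (nat_lit 4) (nat_lit 85025) (nat_lit 10) nil nil) (node (nat_lit 9) (nat_lit 91321)
  (nat_lit 9) nil nil))) (node (nat_lit 9) (nat_lit 88854) (nat_lit 8) (node (nat_lit 6) (nat_lit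
  88854) (nat_lit 9) nil (node (nat_lit 4) (nat_lit 88854) (nat_lit 9) nil nil)) (node (nat_lit 0)
  (nat_lit 83637) (nat_lit 8) nil nil)))) (node (nat_lit 4) (nat_lit 70861) (nat_lit 7) (node
  (nat_lit 6) (nat_lit 82397) (nat_lit 8) (node (nat_lit 5) (nat_lit 87976) (nat_lit 9) (node
  (nat_lit 4) (nat_lit 90257) (nat_lit 10) (node (nat_lit 5) (nat_lit 81371) (nat_lit 11) (node
  (nat_lit 6) (nat_lit 62502) (nat_lit 12) nil nil) nil) (node (nat_lit 6) (nat_lit 92260)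
  (nat_lit 10) (node (nat_lit 4) (nat_lit 94724) (nat_lit 11) (node (nat_lit 5) (nat_lit 92229)
  (nat_lit 12) nil nil) nil) nil)) (node (nat_lit 4) (nat_lit 88559) (nat_lit 9) (node (nat_lit 5)
  (nat_lit 91714) (nat_lit 10) nil nil) (node (nat_lit 9) (nat_lit 90836) (nat_lit 9) nil nil)))
  (node (nat_lit 5) (nat_lit 84019) (nat_lit 8) (node (nat_lit 6) (nat_lit 90136) (nat_lit 9)
  (node (nat_lit 5) (nat_lit 92401) (nat_lit 10) (node (nat_lit 4) (nat_lit 89992) (nat_lit 11)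
  nil nil) (node (nat_lit 4) (nat_lit 93291) (nat_lit 10) nil nil)) (node (nat_lit 4) (nat_lit
  89996) (nat_lit 9) (node (nat_lit 6) (nat_lit 84325) (nat_lit 10) nil nil) (node (nat_lit 9)
  (nat_lit 92457) (nat_lit 9) nil nil))) nil)) (node (nat_lit 0) (nat_lit 0) (nat_lit 7) (node
  (nat_lit 6) (nat_lit 80494) (nat_lit 8) nil (node (nat_lit 5) (nat_lit 77461) (nat_lit 8) nil
  (node (nat_lit 4) (nat_lit 80419) (nat_lit 8) nil (node (nat_lit 0) (nat_lit 84192) (nat_lit 8)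
  nil (node (nat_lit 9) (nat_lit 84192) (nat_lit 8) nil nil))))) nil)))) nil)))

noncomputable def t413 : Tr :=
  (node (nat_lit 7) (nat_lit 0) (nat_lit 6) (node (nat_lit 0) (nat_lit 0) (nat_lit 7) (node
  (nat_lit 4) (nat_lit 0) (nat_lit 8) (node (nat_lit 5) (nat_lit 98553) (nat_lit 9) (node (nat_lit
  7) (nat_lit 99179) (nat_lit 10) (node (nat_lit 4) (nat_lit 99179) (nat_lit 11) (node (nat_lit 5)
  (nat_lit 96210) (nat_lit 12) (node (nat_lit 4) (nat_lit 91699) (nat_lit 13) (node (nat_lit 7)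
  (nat_lit 81966) (nat_lit 14) (node (nat_lit 5) (nat_lit 67833) (nat_lit 15) (node (nat_lit 7)
  (nat_lit 43620) (nat_lit 16) nil nil) nil) nil) nil) nil) nil) (node (nat_lit 4) (nat_lit 99179)
  (nat_lit 10) (node (nat_lit 7) (nat_lit 99179) (nat_lit 11) nil nil) nil)) (node (nat_lit 7)
  (nat_lit 98890) (nat_lit 9) (node (nat_lit 4) (nat_lit 99179) (nat_lit 10) (node (nat_lit 5)
  (nat_lit 99179) (nat_lit 11) nil nil) (node (nat_lit 5) (nat_lit 99148) (nat_lit 10) nil (node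
  (nat_lit 10) (nat_lit 99179) (nat_lit 10) nil nil))) (node (nat_lit 10) (nat_lit 99179) (nat_lit
  9) (node (nat_lit 7) (nat_lit 99179) (nat_lit 10) (node (nat_lit 4) (nat_lit 99179) (nat_lit 11)
  (node (nat_lit 5) (nat_lit 99179) (nat_lit 12) nil nil) nil) (node (nat_lit 5) (nat_lit 99179)
  (nat_lit 10) (node (nat_lit 4) (nat_lit 98879) (nat_lit 11) nil nil) nil)) (node (nat_lit 0)
  (nat_lit 99179) (nat_lit 9) nil nil)))) (node (nat_lit 5) (nat_lit 0) (nat_lit 8) (node (nat_lit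
  7) (nat_lit 99179) (nat_lit 9) (node (nat_lit 5) (nat_lit 99179) (nat_lit 10) (node (nat_lit 4)
  (nat_lit 99179) (nat_lit 11) (node (nat_lit 7) (nat_lit 99179) (nat_lit 12) (node (nat_lit 4)
  (nat_lit 99179) (nat_lit 13) (node (nat_lit 5) (nat_lit 99102) (nat_lit 14) (node (nat_lit 4)
  (nat_lit 97478) (nat_lit 15) (node (nat_lit 7) (nat_lit 93524) (nat_lit 16) nil nil) nil) nil)
  nil) nil) nil) (node (nat_lit 4) (nat_lit 99179) (nat_lit 10) nil nil)) (node (nat_lit 10)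
  (nat_lit 99179) (nat_lit 9) (node (nat_lit 7) (nat_lit 99179) (nat_lit 10) (node (nat_lit 5)
  (nat_lit 99179) (nat_lit 11) (node (nat_lit 7) (nat_lit 99179) (nat_lit 12) (node (nat_lit 4)
  (nat_lit 99179) (nat_lit 13) (node (nat_lit 5) (nat_lit 99179) (nat_lit 14) nil nil) nil) (node
  (nat_lit 4) (nat_lit 99179) (nat_lit 12) nil nil)) nil) (node (nat_lit 4) (nat_lit 99179)
  (nat_lit 10) (node (nat_lit 5) (nat_lit 99179) (nat_lit 11) nil nil) nil)) (node (nat_lit 4)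
  (nat_lit 99179) (nat_lit 9) (node (nat_lit 7) (nat_lit 99179) (nat_lit 10) (node (nat_lit 4)
  (nat_lit 97843) (nat_lit 11) (node (nat_lit 5) (nat_lit 95438) (nat_lit 12) nil nil) nil) (node
  (nat_lit 5) (nat_lit 99179) (nat_lit 10) (node (nat_lit 7) (nat_lit 99179) (nat_lit 11) (node
  (nat_lit 4) (nat_lit 99179) (nat_lit 12) nil nil) nil) nil)) (node (nat_lit 0) (nat_lit 99179)
  (nat_lit 9) nil nil)))) (node (nat_lit 7) (nat_lit 0) (nat_lit 8) (node (nat_lit 5) (nat_lit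
  99179) (nat_lit 9) (node (nat_lit 7) (nat_lit 99179) (nat_lit 10) (node (nat_lit 4) (nat_lit
  99179) (nat_lit 11) (node (nat_lit 5) (nat_lit 97530) (nat_lit 12) (node (nat_lit 4) (nat_lit
  93018) (nat_lit 13) (node (nat_lit 7) (nat_lit 84693) (nat_lit 14) nil nil) nil) nil) nil) (node
  (nat_lit 4) (nat_lit 98735) (nat_lit 10) (node (nat_lit 7) (nat_lit 97954) (nat_lit 11) nil nil)
  nil)) (node (nat_lit 4) (nat_lit 99179) (nat_lit 9) (node (nat_lit 7) (nat_lit 99179) (nat_lit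
  10) nil (node (nat_lit 5) (nat_lit 99179) (nat_lit 10) nil nil)) (node (nat_lit 0) (nat_lit
  99179) (nat_lit 9) nil nil))) (node (nat_lit 0) (nat_lit 0) (nat_lit 8) (node (nat_lit 7)
  (nat_lit 99179) (nat_lit 9) (node (nat_lit 11) (nat_lit 99179) (nat_lit 10) nil nil) (node
  (nat_lit 10) (nat_lit 99179) (nat_lit 9) (node (nat_lit 7) (nat_lit 99179) (nat_lit 10) nil
  (node (nat_lit 4) (nat_lit 99179) (nat_lit 10) nil (node (nat_lit 5) (nat_lit 99179) (nat_lit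
  10) nil nil))) (node (nat_lit 4) (nat_lit 98246) (nat_lit 9) nil (node (nat_lit 5) (nat_lit
  99179) (nat_lit 9) nil (node (nat_lit 0) (nat_lit 99179) (nat_lit 9) nil nil))))) nil)))) (node
  (nat_lit 4) (nat_lit 0) (nat_lit 7) (node (nat_lit 0) (nat_lit 0) (nat_lit 8) (node (nat_lit 4)
  (nat_lit 0) (nat_lit 9) (node (nat_lit 7) (nat_lit 96638) (nat_lit 10) (node (nat_lit 5)
  (nat_lit 97161) (nat_lit 11) (node (nat_lit 4) (nat_lit 97161) (nat_lit 12) nil (node (nat_lit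
  7) (nat_lit 99179) (nat_lit 12) nil nil)) (node (nat_lit 4) (nat_lit 99127) (nat_lit 11) nil
  (node (nat_lit 11) (nat_lit 99179) (nat_lit 11) (node (nat_lit 4) (nat_lit 99179) (nat_lit 12)
  nil nil) (node (nat_lit 0) (nat_lit 97903) (nat_lit 11) nil nil)))) (node (nat_lit 5) (nat_lit
  96722) (nat_lit 10) (node (nat_lit 7) (nat_lit 98561) (nat_lit 11) (node (nat_lit 4) (nat_lit
  98577) (nat_lit 12) nil (node (nat_lit 5) (nat_lit 99153) (nat_lit 12) nil nil)) (node (nat_lit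
  4) (nat_lit 99107) (nat_lit 11) (node (nat_lit 7) (nat_lit 96767) (nat_lit 12) nil nil) (node
  (nat_lit 11) (nat_lit 97987) (nat_lit 11) nil (node (nat_lit 0) (nat_lit 97987) (nat_lit 11) nil
  nil)))) (node (nat_lit 0) (nat_lit 98946) (nat_lit 10) (node (nat_lit 4) (nat_lit 98816)
  (nat_lit 11) nil (node (nat_lit 11) (nat_lit 99179) (nat_lit 11) nil (node (nat_lit 7) (nat_lit
  98946) (nat_lit 11) nil nil))) nil))) (node (nat_lit 7) (nat_lit 0) (nat_lit 9) (node (nat_lit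
  5) (nat_lit 98991) (nat_lit 10) (node (nat_lit 4) (nat_lit 96880) (nat_lit 11) nil nil) (node
  (nat_lit 4) (nat_lit 98845) (nat_lit 10) (node (nat_lit 7) (nat_lit 99179) (nat_lit 11) nil nil)
  (node (nat_lit 11) (nat_lit 99179) (nat_lit 10) (node (nat_lit 4) (nat_lit 99179) (nat_lit 11)
  nil nil) (node (nat_lit 0) (nat_lit 97192) (nat_lit 10) nil nil)))) (node (nat_lit 5) (nat_lit
  91928) (nat_lit 9) (node (nat_lit 4) (nat_lit 96355) (nat_lit 10) (node (nat_lit 5) (nat_lit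
  96190) (nat_lit 11) nil nil) (node (nat_lit 11) (nat_lit 96676) (nat_lit 10) (node (nat_lit 4)
  (nat_lit 96676) (nat_lit 11) nil nil) (node (nat_lit 7) (nat_lit 96003) (nat_lit 10) nil nil)))
  (node (nat_lit 0) (nat_lit 94465) (nat_lit 9) (node (nat_lit 4) (nat_lit 96101) (nat_lit 10)
  (node (nat_lit 11) (nat_lit 99179) (nat_lit 11) nil nil) (node (nat_lit 11) (nat_lit 97465)
  (nat_lit 10) nil nil)) nil)))) (node (nat_lit 7) (nat_lit 0) (nat_lit 8) (node (nat_lit 0)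
  (nat_lit 90813) (nat_lit 9) (node (nat_lit 4) (nat_lit 93834) (nat_lit 10) (node (nat_lit 7)
  (nat_lit 97098) (nat_lit 11) (node (nat_lit 4) (nat_lit 99179) (nat_lit 12) (node (nat_lit 12)
  (nat_lit 99179) (nat_lit 13) nil (node (nat_lit 5) (nat_lit 99179) (nat_lit 13) nil nil)) (node
  (nat_lit 5) (nat_lit 98320) (nat_lit 12) (node (nat_lit 7) (nat_lit 98011) (nat_lit 13) nil
  (node (nat_lit 4) (nat_lit 98679) (nat_lit 13) nil nil)) (node (nat_lit 0) (nat_lit 99179)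
  (nat_lit 12) nil nil))) (node (nat_lit 12) (nat_lit 98717) (nat_lit 11) nil nil)) (node (nat_lit
  7) (nat_lit 95660) (nat_lit 10) (node (nat_lit 4) (nat_lit 99179) (nat_lit 11) (node (nat_lit
  12) (nat_lit 99179) (nat_lit 12) (node (nat_lit 4) (nat_lit 99179) (nat_lit 13) nil nil) nil)
  nil) (node (nat_lit 5) (nat_lit 90813) (nat_lit 10) nil nil))) nil) (node (nat_lit 5) (nat_lit
  0) (nat_lit 8) (node (nat_lit 0) (nat_lit 0) (nat_lit 9) (node (nat_lit 4) (nat_lit 58097)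
  (nat_lit 10) (node (nat_lit 5) (nat_lit 61969) (nat_lit 11) (node (nat_lit 4) (nat_lit 64554)
  (nat_lit 12) (node (nat_lit 12) (nat_lit 67526) (nat_lit 13) nil (node (nat_lit 7) (nat_lit
  63986) (nat_lit 13) nil (node (nat_lit 0) (nat_lit 66421) (nat_lit 13) nil nil))) (node (nat_lit
  7) (nat_lit 64730) (nat_lit 12) (node (nat_lit 4) (nat_lit 66882) (nat_lit 13) nil (node
  (nat_lit 5) (nat_lit 65777) (nat_lit 13) nil (node (nat_lit 12) (nat_lit 66596) (nat_lit 13) nil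
  nil))) (node (nat_lit 0) (nat_lit 65777) (nat_lit 12) nil nil))) (node (nat_lit 7) (nat_lit
  59820) (nat_lit 11) nil nil)) (node (nat_lit 5) (nat_lit 58399) (nat_lit 10) (node (nat_lit 4)
  (nat_lit 56907) (nat_lit 11) (node (nat_lit 12) (nat_lit 59297) (nat_lit 12) nil nil) nil) (node
  (nat_lit 7) (nat_lit 59135) (nat_lit 10) (node (nat_lit 5) (nat_lit 57771) (nat_lit 11) nil nil)
  (node (nat_lit 0) (nat_lit 57966) (nat_lit 10) nil nil)))) nil) nil))) nil)) (node (nat_lit 4)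
  (nat_lit 0) (nat_lit 6) (node (nat_lit 0) (nat_lit 0) (nat_lit 7) (node (nat_lit 7) (nat_lit 0)
  (nat_lit 8) (node (nat_lit 10) (nat_lit 99179) (nat_lit 9) (node (nat_lit 4) (nat_lit 99179)
  (nat_lit 10) (node (nat_lit 7) (nat_lit 99179) (nat_lit 11) (node (nat_lit 5) (nat_lit 99179)
  (nat_lit 12) nil (node (nat_lit 4) (nat_lit 99179) (nat_lit 12) nil nil)) (node (nat_lit 5)
  (nat_lit 99032) (nat_lit 11) nil nil)) (node (nat_lit 5) (nat_lit 99179) (nat_lit 10) (node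
  (nat_lit 7) (nat_lit 99179) (nat_lit 11) (node (nat_lit 5) (nat_lit 99179) (nat_lit 12) nil nil)
  nil) nil)) (node (nat_lit 5) (nat_lit 99179) (nat_lit 9) (node (nat_lit 7) (nat_lit 99179)
  (nat_lit 10) (node (nat_lit 4) (nat_lit 99179) (nat_lit 11) (node (nat_lit 5) (nat_lit 99179)
  (nat_lit 12) (node (nat_lit 4) (nat_lit 95509) (nat_lit 13) (node (nat_lit 7) (nat_lit 87920)
  (nat_lit 14) nil nil) nil) nil) nil) (node (nat_lit 4) (nat_lit 99179) (nat_lit 10) (node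
  (nat_lit 7) (nat_lit 97313) (nat_lit 11) nil nil) nil)) (node (nat_lit 4) (nat_lit 99179)
  (nat_lit 9) (node (nat_lit 7) (nat_lit 99179) (nat_lit 10) (node (nat_lit 5) (nat_lit 99179)
  (nat_lit 11) nil nil) (node (nat_lit 5) (nat_lit 99179) (nat_lit 10) nil (node (nat_lit 10)
  (nat_lit 99179) (nat_lit 10) nil nil))) (node (nat_lit 0) (nat_lit 99179) (nat_lit 9) nil
  nil)))) (node (nat_lit 5) (nat_lit 0) (nat_lit 8) (node (nat_lit 10) (nat_lit 99179) (nat_lit 9)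
  (node (nat_lit 4) (nat_lit 99179) (nat_lit 10) (node (nat_lit 5) (nat_lit 99179) (nat_lit 11)
  (node (nat_lit 4) (nat_lit 99179) (nat_lit 12) nil (node (nat_lit 7) (nat_lit 99179) (nat_lit
  12) nil nil)) (node (nat_lit 7) (nat_lit 99179) (nat_lit 11) nil nil)) (node (nat_lit 7)
  (nat_lit 99179) (nat_lit 10) (node (nat_lit 5) (nat_lit 99179) (nat_lit 11) (node (nat_lit 7)
  (nat_lit 99179) (nat_lit 12) nil nil) nil) nil)) (node (nat_lit 4) (nat_lit 99179) (nat_lit 9)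
  (node (nat_lit 7) (nat_lit 99179) (nat_lit 10) (node (nat_lit 4) (nat_lit 94322) (nat_lit 11)
  (node (nat_lit 5) (nat_lit 90676) (nat_lit 12) (node (nat_lit 4) (nat_lit 86278) (nat_lit 13)
  nil nil) nil) nil) (node (nat_lit 5) (nat_lit 99179) (nat_lit 10) (node (nat_lit 7) (nat_lit
  99179) (nat_lit 11) (node (nat_lit 4) (nat_lit 99179) (nat_lit 12) nil nil) nil) nil)) (node
  (nat_lit 7) (nat_lit 99179) (nat_lit 9) (node (nat_lit 4) (nat_lit 99179) (nat_lit 10) nil (node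
  (nat_lit 5) (nat_lit 99179) (nat_lit 10) nil nil)) (node (nat_lit 0) (nat_lit 99179) (nat_lit 9)
  nil nil)))) (node (nat_lit 4) (nat_lit 0) (nat_lit 8) (node (nat_lit 5) (nat_lit 98428) (nat_lit
  9) (node (nat_lit 4) (nat_lit 99179) (nat_lit 10) (node (nat_lit 7) (nat_lit 97500) (nat_lit 11)
  nil nil) (node (nat_lit 7) (nat_lit 99179) (nat_lit 10) (node (nat_lit 4) (nat_lit 99179)
  (nat_lit 11) nil nil) nil)) (node (nat_lit 7) (nat_lit 98890) (nat_lit 9) (node (nat_lit 4)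
  (nat_lit 99179) (nat_lit 10) nil (node (nat_lit 5) (nat_lit 99148) (nat_lit 10) nil nil)) (node
  (nat_lit 0) (nat_lit 99179) (nat_lit 9) nil nil))) (node (nat_lit 0) (nat_lit 0) (nat_lit 8)
  (node (nat_lit 10) (nat_lit 99179) (nat_lit 9) (node (nat_lit 4) (nat_lit 99179) (nat_lit 10)
  nil (node (nat_lit 5) (nat_lit 99179) (nat_lit 10) nil (node (nat_lit 7) (nat_lit 99179)
  (nat_lit 10) nil nil))) (node (nat_lit 4) (nat_lit 98246) (nat_lit 9) (node (nat_lit 11)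
  (nat_lit 99179) (nat_lit 10) nil nil) (node (nat_lit 5) (nat_lit 99179) (nat_lit 9) nil (node
  (nat_lit 7) (nat_lit 99179) (nat_lit 9) nil (node (nat_lit 0) (nat_lit 99179) (nat_lit 9) nil
  nil))))) nil)))) (node (nat_lit 5) (nat_lit 0) (nat_lit 7) (node (nat_lit 0) (nat_lit 0)
  (nat_lit 8) (node (nat_lit 5) (nat_lit 0) (nat_lit 9) (node (nat_lit 4) (nat_lit 98752) (nat_lit
  10) (node (nat_lit 11) (nat_lit 99179) (nat_lit 11) (node (nat_lit 5) (nat_lit 99179) (nat_lit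
  12) nil (node (nat_lit 4) (nat_lit 99179) (nat_lit 12) nil nil)) (node (nat_lit 7) (nat_lit
  99164) (nat_lit 11) (node (nat_lit 4) (nat_lit 99179) (nat_lit 12) (node (nat_lit 5) (nat_lit
  91040) (nat_lit 13) nil nil) (node (nat_lit 5) (nat_lit 99179) (nat_lit 12) nil nil)) (node
  (nat_lit 5) (nat_lit 99179) (nat_lit 11) nil (node (nat_lit 0) (nat_lit 99179) (nat_lit 11) nil
  nil)))) (node (nat_lit 7) (nat_lit 99179) (nat_lit 10) (node (nat_lit 4) (nat_lit 99179)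
  (nat_lit 11) (node (nat_lit 5) (nat_lit 99179) (nat_lit 12) nil (node (nat_lit 7) (nat_lit
  99179) (nat_lit 12) nil nil)) (node (nat_lit 5) (nat_lit 99179) (nat_lit 11) (node (nat_lit 11)
  (nat_lit 99179) (nat_lit 12) nil (node (nat_lit 4) (nat_lit 98572) (nat_lit 12) nil nil)) (node
  (nat_lit 11) (nat_lit 99179) (nat_lit 11) nil (node (nat_lit 0) (nat_lit 99179) (nat_lit 11) nil
  nil)))) (node (nat_lit 0) (nat_lit 99179) (nat_lit 10) (node (nat_lit 5) (nat_lit 98904)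
  (nat_lit 11) nil (node (nat_lit 11) (nat_lit 99179) (nat_lit 11) nil (node (nat_lit 0) (nat_lit
  99179) (nat_lit 11) nil nil))) nil))) (node (nat_lit 4) (nat_lit 0) (nat_lit 9) (node (nat_lit
  11) (nat_lit 99179) (nat_lit 10) (node (nat_lit 5) (nat_lit 99121) (nat_lit 11) (node (nat_lit
  11) (nat_lit 99179) (nat_lit 12) nil nil) nil) (node (nat_lit 5) (nat_lit 99179) (nat_lit 10)
  (node (nat_lit 4) (nat_lit 99179) (nat_lit 11) (node (nat_lit 11) (nat_lit 99179) (nat_lit 12)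
  nil nil) nil) (node (nat_lit 7) (nat_lit 99179) (nat_lit 10) (node (nat_lit 5) (nat_lit 97616)
  (nat_lit 11) nil nil) (node (nat_lit 0) (nat_lit 99179) (nat_lit 10) nil nil)))) (node (nat_lit
  7) (nat_lit 98112) (nat_lit 9) (node (nat_lit 5) (nat_lit 99179) (nat_lit 10) (node (nat_lit 7)
  (nat_lit 99179) (nat_lit 11) nil nil) (node (nat_lit 4) (nat_lit 99179) (nat_lit 10) nil (node
  (nat_lit 11) (nat_lit 99179) (nat_lit 10) (node (nat_lit 5) (nat_lit 99179) (nat_lit 11) nil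
  nil) nil))) (node (nat_lit 0) (nat_lit 99179) (nat_lit 9) (node (nat_lit 5) (nat_lit 99179)
  (nat_lit 10) (node (nat_lit 11) (nat_lit 99179) (nat_lit 11) nil nil) (node (nat_lit 11)
  (nat_lit 99179) (nat_lit 10) nil nil)) nil)))) (node (nat_lit 7) (nat_lit 0) (nat_lit 8) (node
  (nat_lit 0) (nat_lit 0) (nat_lit 9) (node (nat_lit 5) (nat_lit 97603) (nat_lit 10) (node
  (nat_lit 7) (nat_lit 99179) (nat_lit 11) (node (nat_lit 4) (nat_lit 99179) (nat_lit 12) nil
  (node (nat_lit 5) (nat_lit 99179) (nat_lit 12) (node (nat_lit 12) (nat_lit 99179) (nat_lit 13)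
  nil nil) nil)) (node (nat_lit 4) (nat_lit 96239) (nat_lit 11) nil nil)) (node (nat_lit 7)
  (nat_lit 97726) (nat_lit 10) (node (nat_lit 5) (nat_lit 96362) (nat_lit 11) nil nil) (node
  (nat_lit 4) (nat_lit 96346) (nat_lit 10) (node (nat_lit 7) (nat_lit 98068) (nat_lit 11) nil nil)
  (node (nat_lit 0) (nat_lit 97661) (nat_lit 10) nil nil)))) nil) nil)) nil)) (node (nat_lit 0)
  (nat_lit 0) (nat_lit 6) (node (nat_lit 7) (nat_lit 0) (nat_lit 7) (node (nat_lit 5) (nat_lit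
  97875) (nat_lit 8) (node (nat_lit 4) (nat_lit 99179) (nat_lit 9) (node (nat_lit 7) (nat_lit
  99179) (nat_lit 10) (node (nat_lit 4) (nat_lit 98574) (nat_lit 11) (node (nat_lit 5) (nat_lit
  91274) (nat_lit 12) nil nil) nil) (node (nat_lit 5) (nat_lit 99179) (nat_lit 10) (node (nat_lit
  7) (nat_lit 99179) (nat_lit 11) nil nil) nil)) (node (nat_lit 7) (nat_lit 99179) (nat_lit 9)
  (node (nat_lit 4) (nat_lit 98915) (nat_lit 10) (node (nat_lit 5) (nat_lit 93199) (nat_lit 11)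
  nil nil) nil) nil)) (node (nat_lit 4) (nat_lit 97135) (nat_lit 8) (node (nat_lit 5) (nat_lit
  99179) (nat_lit 9) (node (nat_lit 7) (nat_lit 99179) (nat_lit 10) nil (node (nat_lit 4) (nat_lit
  99179) (nat_lit 10) nil nil)) (node (nat_lit 7) (nat_lit 99179) (nat_lit 9) nil (node (nat_lit
  9) (nat_lit 99179) (nat_lit 9) nil nil))) (node (nat_lit 9) (nat_lit 99179) (nat_lit 8) (node
  (nat_lit 4) (nat_lit 99179) (nat_lit 9) nil (node (nat_lit 5) (nat_lit 99179) (nat_lit 9) nil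
  nil)) (node (nat_lit 0) (nat_lit 99179) (nat_lit 8) nil nil)))) (node (nat_lit 4) (nat_lit 0)
  (nat_lit 7) (node (nat_lit 7) (nat_lit 96782) (nat_lit 8) (node (nat_lit 5) (nat_lit 99179)
  (nat_lit 9) (node (nat_lit 4) (nat_lit 99179) (nat_lit 10) nil (node (nat_lit 7) (nat_lit 99179)
  (nat_lit 10) (node (nat_lit 4) (nat_lit 99179) (nat_lit 11) (node (nat_lit 5) (nat_lit 97308)
  (nat_lit 12) nil nil) nil) nil)) (node (nat_lit 4) (nat_lit 99179) (nat_lit 9) nil (node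
  (nat_lit 9) (nat_lit 99179) (nat_lit 9) nil nil))) (node (nat_lit 5) (nat_lit 95734) (nat_lit 8)
  (node (nat_lit 7) (nat_lit 98965) (nat_lit 9) (node (nat_lit 4) (nat_lit 97734) (nat_lit 10)
  (node (nat_lit 5) (nat_lit 85705) (nat_lit 11) nil nil) (node (nat_lit 5) (nat_lit 99179)
  (nat_lit 10) nil nil)) (node (nat_lit 4) (nat_lit 95810) (nat_lit 9) (node (nat_lit 7) (nat_lit
  97262) (nat_lit 10) nil nil) nil)) (node (nat_lit 9) (nat_lit 97726) (nat_lit 8) (node (nat_lit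
  5) (nat_lit 95853) (nat_lit 9) nil nil) (node (nat_lit 0) (nat_lit 96773) (nat_lit 8) nil
  nil)))) (node (nat_lit 5) (nat_lit 90667) (nat_lit 7) (node (nat_lit 4) (nat_lit 96627) (nat_lit
  8) (node (nat_lit 7) (nat_lit 98518) (nat_lit 9) (node (nat_lit 4) (nat_lit 95369) (nat_lit 10)
  (node (nat_lit 5) (nat_lit 85150) (nat_lit 11) (node (nat_lit 4) (nat_lit 82994) (nat_lit 12)
  nil nil) nil) (node (nat_lit 5) (nat_lit 99179) (nat_lit 10) nil nil)) (node (nat_lit 5)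
  (nat_lit 99179) (nat_lit 9) (node (nat_lit 7) (nat_lit 99179) (nat_lit 10) nil nil) (node
  (nat_lit 9) (nat_lit 99179) (nat_lit 9) nil nil))) (node (nat_lit 7) (nat_lit 97674) (nat_lit 8)
  (node (nat_lit 4) (nat_lit 99179) (nat_lit 9) (node (nat_lit 7) (nat_lit 99179) (nat_lit 10) nil
  (node (nat_lit 5) (nat_lit 99179) (nat_lit 10) nil nil)) (node (nat_lit 5) (nat_lit 99179)
  (nat_lit 9) nil (node (nat_lit 9) (nat_lit 99179) (nat_lit 9) nil nil))) nil)) (node (nat_lit 0)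
  (nat_lit 95229) (nat_lit 7) (node (nat_lit 4) (nat_lit 96610) (nat_lit 8) nil (node (nat_lit 7)
  (nat_lit 96610) (nat_lit 8) nil (node (nat_lit 5) (nat_lit 93554) (nat_lit 8) nil nil))) nil))))
  nil)))

noncomputable def c54 : Tr :=
  (node (nat_lit 3) (nat_lit 0) (nat_lit 1) (node (nat_lit 3) (nat_lit 0) (nat_lit 2) (node
  (nat_lit 3) (nat_lit 0) (nat_lit 3) (node (nat_lit 4) (nat_lit 0) (nat_lit 4) t411 (node
  (nat_lit 5) (nat_lit 0) (nat_lit 4) (node (nat_lit 4) (nat_lit 0) (nat_lit 5) t412 nil) nil))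
  (node (nat_lit 4) (nat_lit 0) (nat_lit 3) (node (nat_lit 3) (nat_lit 0) (nat_lit 4) (node
  (nat_lit 5) (nat_lit 0) (nat_lit 5) t413 (node (nat_lit 4) (nat_lit 0) (nat_lit 5) (node
  (nat_lit 5) (nat_lit 0) (nat_lit 6) (node (nat_lit 7) (nat_lit 0) (nat_lit 7) (node (nat_lit 0)
  (nat_lit 0) (nat_lit 8) (node (nat_lit 7) (nat_lit 0) (nat_lit 9) (node (nat_lit 5) (nat_lit
  60654) (nat_lit 10) (node (nat_lit 4) (nat_lit 63066) (nat_lit 11) (node (nat_lit 5) (nat_lit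
  62570) (nat_lit 12) nil (node (nat_lit 7) (nat_lit 62956) (nat_lit 12) nil nil)) (node (nat_lit
  11) (nat_lit 62879) (nat_lit 11) (node (nat_lit 7) (nat_lit 62879) (nat_lit 12) nil nil) (node
  (nat_lit 7) (nat_lit 63358) (nat_lit 11) (node (nat_lit 4) (nat_lit 65532) (nat_lit 12) nil nil)
  (node (nat_lit 0) (nat_lit 61919) (nat_lit 11) nil nil)))) (node (nat_lit 4) (nat_lit 60654)
  (nat_lit 10) (node (nat_lit 5) (nat_lit 62338) (nat_lit 11) (node (nat_lit 7) (nat_lit 62930)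
  (nat_lit 12) nil nil) (node (nat_lit 7) (nat_lit 60392) (nat_lit 11) nil (node (nat_lit 11)
  (nat_lit 61919) (nat_lit 11) nil nil))) (node (nat_lit 0) (nat_lit 58745) (nat_lit 10) (node
  (nat_lit 11) (nat_lit 60347) (nat_lit 11) nil (node (nat_lit 7) (nat_lit 57810) (nat_lit 11) nil
  (node (nat_lit 5) (nat_lit 58745) (nat_lit 11) nil (node (nat_lit 0) (nat_lit 59337) (nat_lit
  11) nil nil)))) nil))) (node (nat_lit 5) (nat_lit 0) (nat_lit 9) (node (nat_lit 7) (nat_lit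
  60711) (nat_lit 10) (node (nat_lit 5) (nat_lit 62395) (nat_lit 11) nil nil) (node (nat_lit 11)
  (nat_lit 61140) (nat_lit 10) (node (nat_lit 7) (nat_lit 60204) (nat_lit 11) (node (nat_lit 11)
  (nat_lit 61333) (nat_lit 12) nil nil) nil) (node (nat_lit 4) (nat_lit 60467) (nat_lit 10) (node
  (nat_lit 7) (nat_lit 60204) (nat_lit 11) nil nil) (node (nat_lit 0) (nat_lit 58542) (nat_lit 10)
  nil nil)))) (node (nat_lit 4) (nat_lit 56120) (nat_lit 9) (node (nat_lit 7) (nat_lit 60095)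
  (nat_lit 10) (node (nat_lit 4) (nat_lit 60768) (nat_lit 11) nil nil) (node (nat_lit 5) (nat_lit
  59308) (nat_lit 10) nil (node (nat_lit 11) (nat_lit 59835) (nat_lit 10) nil nil))) (node
  (nat_lit 0) (nat_lit 57869) (nat_lit 9) (node (nat_lit 7) (nat_lit 59165) (nat_lit 10) (node
  (nat_lit 11) (nat_lit 61441) (nat_lit 11) nil nil) (node (nat_lit 11) (nat_lit 58557) (nat_lit
  10) (node (nat_lit 7) (nat_lit 58557) (nat_lit 11) nil nil) nil)) nil)))) (node (nat_lit 5)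
  (nat_lit 0) (nat_lit 8) (node (nat_lit 0) (nat_lit 0) (nat_lit 9) (node (nat_lit 7) (nat_lit
  56093) (nat_lit 10) (node (nat_lit 5) (nat_lit 59661) (nat_lit 11) (node (nat_lit 7) (nat_lit
  63035) (nat_lit 12) (node (nat_lit 4) (nat_lit 63877) (nat_lit 13) (node (nat_lit 5) (nat_lit
  62930) (nat_lit 14) (node (nat_lit 4) (nat_lit 59903) (nat_lit 15) nil nil) nil) (node (nat_lit
  12) (nat_lit 65516) (nat_lit 13) (node (nat_lit 5) (nat_lit 65516) (nat_lit 14) nil nil) (node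
  (nat_lit 0) (nat_lit 64901) (nat_lit 13) nil nil))) (node (nat_lit 4) (nat_lit 61810) (nat_lit
  12) (node (nat_lit 5) (nat_lit 60936) (nat_lit 13) nil (node (nat_lit 7) (nat_lit 62337)
  (nat_lit 13) nil nil)) (node (nat_lit 0) (nat_lit 62051) (nat_lit 12) nil nil))) (node (nat_lit
  12) (nat_lit 60168) (nat_lit 11) (node (nat_lit 5) (nat_lit 60168) (nat_lit 12) nil nil) nil))
  (node (nat_lit 5) (nat_lit 56287) (nat_lit 10) (node (nat_lit 7) (nat_lit 60040) (nat_lit 11)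
  (node (nat_lit 12) (nat_lit 63217) (nat_lit 12) (node (nat_lit 7) (nat_lit 63217) (nat_lit 13)
  nil nil) nil) nil) (node (nat_lit 4) (nat_lit 53689) (nat_lit 10) nil (node (nat_lit 0) (nat_lit
  55412) (nat_lit 10) nil nil)))) nil) (node (nat_lit 4) (nat_lit 0) (nat_lit 8) (node (nat_lit 0)
  (nat_lit 0) (nat_lit 9) (node (nat_lit 7) (nat_lit 56126) (nat_lit 10) (node (nat_lit 4)
  (nat_lit 59879) (nat_lit 11) (node (nat_lit 5) (nat_lit 62009) (nat_lit 12) (node (nat_lit 7)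
  (nat_lit 63056) (nat_lit 13) nil nil) (node (nat_lit 7) (nat_lit 60519) (nat_lit 12) nil nil))
  nil) (node (nat_lit 4) (nat_lit 56112) (nat_lit 10) (node (nat_lit 7) (nat_lit 56899) (nat_lit
  11) (node (nat_lit 12) (nat_lit 59289) (nat_lit 12) nil nil) nil) (node (nat_lit 5) (nat_lit
  55810) (nat_lit 10) (node (nat_lit 4) (nat_lit 54446) (nat_lit 11) nil nil) (node (nat_lit 0)
  (nat_lit 55345) (nat_lit 10) nil nil)))) nil) nil))) (node (nat_lit 0) (nat_lit 0) (nat_lit 7)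
  (node (nat_lit 7) (nat_lit 51738) (nat_lit 8) (node (nat_lit 5) (nat_lit 57235) (nat_lit 9)
  (node (nat_lit 7) (nat_lit 59113) (nat_lit 10) (node (nat_lit 4) (nat_lit 57736) (nat_lit 11)
  (node (nat_lit 5) (nat_lit 55127) (nat_lit 12) (node (nat_lit 4) (nat_lit 49282) (nat_lit 13)
  (node (nat_lit 7) (nat_lit 32411) (nat_lit 14) nil nil) nil) nil) nil) (node (nat_lit 4)
  (nat_lit 57490) (nat_lit 10) (node (nat_lit 7) (nat_lit 57031) (nat_lit 11) nil nil) nil)) (node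
  (nat_lit 4) (nat_lit 57261) (nat_lit 9) (node (nat_lit 5) (nat_lit 59010) (nat_lit 10) nil (node
  (nat_lit 7) (nat_lit 59010) (nat_lit 10) nil nil)) (node (nat_lit 10) (nat_lit 57207) (nat_lit
  9) (node (nat_lit 5) (nat_lit 57207) (nat_lit 10) nil (node (nat_lit 4) (nat_lit 57207) (nat_lit
  10) nil nil)) nil))) (node (nat_lit 4) (nat_lit 0) (nat_lit 8) (node (nat_lit 5) (nat_lit 57410)
  (nat_lit 9) (node (nat_lit 7) (nat_lit 59113) (nat_lit 10) (node (nat_lit 4) (nat_lit 55566)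
  (nat_lit 11) (node (nat_lit 5) (nat_lit 53786) (nat_lit 12) (node (nat_lit 4) (nat_lit 47941)
  (nat_lit 13) (node (nat_lit 7) (nat_lit 37943) (nat_lit 14) (node (nat_lit 4) (nat_lit 22068)
  (nat_lit 15) nil nil) nil) nil) nil) nil) (node (nat_lit 4) (nat_lit 59770) (nat_lit 10) nil
  nil)) (node (nat_lit 7) (nat_lit 58332) (nat_lit 9) (node (nat_lit 5) (nat_lit 56785) (nat_lit
  10) nil (node (nat_lit 4) (nat_lit 60692) (nat_lit 10) nil nil)) (node (nat_lit 10) (nat_lit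
  58943) (nat_lit 9) (node (nat_lit 5) (nat_lit 58943) (nat_lit 10) nil (node (nat_lit 7) (nat_lit
  58943) (nat_lit 10) nil nil)) (node (nat_lit 0) (nat_lit 56551) (nat_lit 9) nil nil)))) (node
  (nat_lit 5) (nat_lit 0) (nat_lit 8) (node (nat_lit 4) (nat_lit 57514) (nat_lit 9) (node (nat_lit
  7) (nat_lit 57769) (nat_lit 10) (node (nat_lit 4) (nat_lit 58997) (nat_lit 11) (node (nat_lit 5)
  (nat_lit 60038) (nat_lit 12) (node (nat_lit 4) (nat_lit 60924) (nat_lit 13) (node (nat_lit 7)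
  (nat_lit 60853) (nat_lit 14) nil nil) nil) nil) nil) (node (nat_lit 5) (nat_lit 61178) (nat_lit
  10) nil nil)) (node (nat_lit 7) (nat_lit 58676) (nat_lit 9) (node (nat_lit 4) (nat_lit 61036)
  (nat_lit 10) nil (node (nat_lit 5) (nat_lit 60425) (nat_lit 10) nil nil)) (node (nat_lit 0)
  (nat_lit 56895) (nat_lit 9) nil nil))) (node (nat_lit 0) (nat_lit 56176) (nat_lit 8) (node
  (nat_lit 5) (nat_lit 57195) (nat_lit 9) nil (node (nat_lit 10) (nat_lit 58618) (nat_lit 9) nil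
  (node (nat_lit 7) (nat_lit 56528) (nat_lit 9) nil (node (nat_lit 4) (nat_lit 56528) (nat_lit 9)
  nil nil)))) nil)))) nil)) (node (nat_lit 0) (nat_lit 0) (nat_lit 6) (node (nat_lit 7) (nat_lit
  0) (nat_lit 7) (node (nat_lit 5) (nat_lit 54873) (nat_lit 8) (node (nat_lit 4) (nat_lit 58993)
  (nat_lit 9) (node (nat_lit 7) (nat_lit 59248) (nat_lit 10) (node (nat_lit 4) (nat_lit 60476)
  (nat_lit 11) nil nil) (node (nat_lit 5) (nat_lit 58057) (nat_lit 10) (node (nat_lit 7) (nat_lit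
  58494) (nat_lit 11) nil nil) nil)) (node (nat_lit 7) (nat_lit 57974) (nat_lit 9) (node (nat_lit
  4) (nat_lit 58367) (nat_lit 10) (node (nat_lit 5) (nat_lit 53156) (nat_lit 11) nil nil) nil)
  (node (nat_lit 9) (nat_lit 59778) (nat_lit 9) nil nil))) (node (nat_lit 4) (nat_lit 55585)
  (nat_lit 8) (node (nat_lit 5) (nat_lit 60247) (nat_lit 9) (node (nat_lit 7) (nat_lit 61996)
  (nat_lit 10) nil (node (nat_lit 4) (nat_lit 58701) (nat_lit 10) nil nil)) (node (nat_lit 7)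
  (nat_lit 58741) (nat_lit 9) nil nil)) (node (nat_lit 9) (nat_lit 58741) (nat_lit 8) (node
  (nat_lit 4) (nat_lit 58741) (nat_lit 9) nil (node (nat_lit 5) (nat_lit 58741) (nat_lit 9) nil
  nil)) (node (nat_lit 0) (nat_lit 55782) (nat_lit 8) nil nil)))) (node (nat_lit 5) (nat_lit 0)
  (nat_lit 7) (node (nat_lit 7) (nat_lit 56546) (nat_lit 8) (node (nat_lit 4) (nat_lit 61208)
  (nat_lit 9) (node (nat_lit 7) (nat_lit 62957) (nat_lit 10) nil (node (nat_lit 5) (nat_lit 62957)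
  (nat_lit 10) nil nil)) (node (nat_lit 5) (nat_lit 60396) (nat_lit 9) nil nil)) (node (nat_lit 4)
  (nat_lit 54861) (nat_lit 8) (node (nat_lit 7) (nat_lit 59524) (nat_lit 9) (node (nat_lit 4)
  (nat_lit 61883) (nat_lit 10) (node (nat_lit 5) (nat_lit 63111) (nat_lit 11) (node (nat_lit 4)
  (nat_lit 64152) (nat_lit 12) nil nil) nil) (node (nat_lit 5) (nat_lit 59615) (nat_lit 10) nil
  nil)) (node (nat_lit 5) (nat_lit 58827) (nat_lit 9) (node (nat_lit 7) (nat_lit 60372) (nat_lit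
  10) nil nil) nil)) (node (nat_lit 9) (nat_lit 57616) (nat_lit 8) (node (nat_lit 7) (nat_lit
  57616) (nat_lit 9) nil (node (nat_lit 4) (nat_lit 57616) (nat_lit 9) nil nil)) (node (nat_lit 0)
  (nat_lit 55977) (nat_lit 8) nil nil)))) (node (nat_lit 4) (nat_lit 48978) (nat_lit 7) (node
  (nat_lit 7) (nat_lit 56546) (nat_lit 8) (node (nat_lit 5) (nat_lit 61208) (nat_lit 9) (node
  (nat_lit 7) (nat_lit 60905) (nat_lit 10) (node (nat_lit 4) (nat_lit 57529) (nat_lit 11) (node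
  (nat_lit 5) (nat_lit 55749) (nat_lit 12) nil nil) nil) (node (nat_lit 4) (nat_lit 61463)
  (nat_lit 10) nil nil)) (node (nat_lit 4) (nat_lit 59702) (nat_lit 9) nil nil)) (node (nat_lit 5)
  (nat_lit 55373) (nat_lit 8) (node (nat_lit 7) (nat_lit 60550) (nat_lit 9) (node (nat_lit 4)
  (nat_lit 59568) (nat_lit 10) (node (nat_lit 7) (nat_lit 60241) (nat_lit 11) nil (node (nat_lit
  5) (nat_lit 43915) (nat_lit 11) nil nil)) nil) (node (nat_lit 4) (nat_lit 59223) (nat_lit 9)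
  (node (nat_lit 7) (nat_lit 59478) (nat_lit 10) nil nil) nil)) nil)) (node (nat_lit 0) (nat_lit
  53916) (nat_lit 7) (node (nat_lit 5) (nat_lit 55690) (nat_lit 8) nil (node (nat_lit 7) (nat_lit
  52470) (nat_lit 8) nil (node (nat_lit 4) (nat_lit 53916) (nat_lit 8) nil nil))) nil)))) nil))
  nil)) nil) nil)) nil) nil)

noncomputable def t414 : Tr :=
  (node (nat_lit 0) (nat_lit 0) (nat_lit 5) (node (nat_lit 5) (nat_lit 0) (nat_lit 6) (node
  (nat_lit 8) (nat_lit 0) (nat_lit 7) (node (nat_lit 4) (nat_lit 77588) (nat_lit 8) (node (nat_lit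
  5) (nat_lit 79065) (nat_lit 9) (node (nat_lit 4) (nat_lit 79895) (nat_lit 10) (node (nat_lit 6)
  (nat_lit 81846) (nat_lit 11) (node (nat_lit 5) (nat_lit 82515) (nat_lit 12) (node (nat_lit 4)
  (nat_lit 82066) (nat_lit 13) (node (nat_lit 5) (nat_lit 80932) (nat_lit 14) (node (nat_lit 6)
  (nat_lit 79686) (nat_lit 15) nil nil) nil) nil) (node (nat_lit 4) (nat_lit 82626) (nat_lit 12)
  nil nil)) (node (nat_lit 8) (nat_lit 83142) (nat_lit 11) nil nil)) (node (nat_lit 6) (nat_lit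
  80061) (nat_lit 10) (node (nat_lit 4) (nat_lit 81412) (nat_lit 11) nil (node (nat_lit 5)
  (nat_lit 81412) (nat_lit 11) nil nil)) (node (nat_lit 0) (nat_lit 81789) (nat_lit 10) nil nil)))
  (node (nat_lit 6) (nat_lit 78113) (nat_lit 9) nil (node (nat_lit 8) (nat_lit 82712) (nat_lit 9)
  nil (node (nat_lit 0) (nat_lit 80839) (nat_lit 9) nil nil)))) (node (nat_lit 6) (nat_lit 77997)
  (nat_lit 8) (node (nat_lit 5) (nat_lit 77763) (nat_lit 9) (node (nat_lit 6) (nat_lit 78760)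
  (nat_lit 10) (node (nat_lit 8) (nat_lit 82006) (nat_lit 11) nil nil) (node (nat_lit 4) (nat_lit
  79211) (nat_lit 10) nil nil)) nil) (node (nat_lit 0) (nat_lit 79553) (nat_lit 8) nil nil)))
  (node (nat_lit 4) (nat_lit 0) (nat_lit 7) (node (nat_lit 5) (nat_lit 70615) (nat_lit 8) (node
  (nat_lit 6) (nat_lit 77322) (nat_lit 9) (node (nat_lit 4) (nat_lit 79480) (nat_lit 10) (node
  (nat_lit 8) (nat_lit 43241) (nat_lit 11) nil nil) (node (nat_lit 5) (nat_lit 74515) (nat_lit 10)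
  nil nil)) (node (nat_lit 8) (nat_lit 81076) (nat_lit 9) nil (node (nat_lit 0) (nat_lit 78125)
  (nat_lit 9) nil nil))) (node (nat_lit 6) (nat_lit 69386) (nat_lit 8) (node (nat_lit 5) (nat_lit
  75416) (nat_lit 9) (node (nat_lit 4) (nat_lit 77136) (nat_lit 10) nil nil) (node (nat_lit 4)
  (nat_lit 74870) (nat_lit 9) (node (nat_lit 5) (nat_lit 76590) (nat_lit 10) nil nil) nil)) (node
  (nat_lit 8) (nat_lit 80876) (nat_lit 8) (node (nat_lit 4) (nat_lit 80876) (nat_lit 9) (node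
  (nat_lit 5) (nat_lit 80876) (nat_lit 10) (node (nat_lit 4) (nat_lit 80876) (nat_lit 11) nil nil)
  nil) nil) (node (nat_lit 0) (nat_lit 70892) (nat_lit 8) nil nil)))) (node (nat_lit 6) (nat_lit
  0) (nat_lit 7) (node (nat_lit 4) (nat_lit 69453) (nat_lit 8) (node (nat_lit 6) (nat_lit 73014)
  (nat_lit 9) (node (nat_lit 5) (nat_lit 73540) (nat_lit 10) (node (nat_lit 4) (nat_lit 70679)
  (nat_lit 11) (node (nat_lit 5) (nat_lit 63196) (nat_lit 12) (node (nat_lit 6) (nat_lit 60981)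
  (nat_lit 13) (node (nat_lit 4) (nat_lit 60618) (nat_lit 14) nil nil) nil) nil) nil) nil) (node
  (nat_lit 5) (nat_lit 73596) (nat_lit 9) (node (nat_lit 6) (nat_lit 72818) (nat_lit 10) nil nil)
  nil)) (node (nat_lit 5) (nat_lit 69424) (nat_lit 8) (node (nat_lit 4) (nat_lit 76632) (nat_lit
  9) (node (nat_lit 6) (nat_lit 79800) (nat_lit 10) (node (nat_lit 4) (nat_lit 79726) (nat_lit 11)
  (node (nat_lit 5) (nat_lit 77237) (nat_lit 12) nil nil) nil) (node (nat_lit 5) (nat_lit 78352)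
  (nat_lit 10) nil nil)) (node (nat_lit 8) (nat_lit 76934) (nat_lit 9) nil nil)) (node (nat_lit 8)
  (nat_lit 80423) (nat_lit 8) nil (node (nat_lit 0) (nat_lit 75356) (nat_lit 8) nil nil)))) (node
  (nat_lit 0) (nat_lit 75417) (nat_lit 7) nil nil)))) (node (nat_lit 6) (nat_lit 0) (nat_lit 6)
  (node (nat_lit 8) (nat_lit 0) (nat_lit 7) (node (nat_lit 4) (nat_lit 76835) (nat_lit 8) (node
  (nat_lit 6) (nat_lit 78422) (nat_lit 9) (node (nat_lit 4) (nat_lit 79443) (nat_lit 10) (node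
  (nat_lit 5) (nat_lit 79011) (nat_lit 11) (node (nat_lit 6) (nat_lit 78377) (nat_lit 12) nil nil)
  (node (nat_lit 8) (nat_lit 82689) (nat_lit 11) nil nil)) (node (nat_lit 5) (nat_lit 80391)
  (nat_lit 10) (node (nat_lit 4) (nat_lit 79764) (nat_lit 11) nil (node (nat_lit 6) (nat_lit
  81742) (nat_lit 11) nil nil)) (node (nat_lit 0) (nat_lit 81146) (nat_lit 10) nil nil))) (node
  (nat_lit 5) (nat_lit 76236) (nat_lit 9) nil (node (nat_lit 8) (nat_lit 81959) (nat_lit 9) nil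
  (node (nat_lit 0) (nat_lit 80086) (nat_lit 9) nil nil)))) (node (nat_lit 5) (nat_lit 76973)
  (nat_lit 8) (node (nat_lit 6) (nat_lit 76292) (nat_lit 9) (node (nat_lit 5) (nat_lit 78262)
  (nat_lit 10) (node (nat_lit 4) (nat_lit 77634) (nat_lit 11) nil (node (nat_lit 8) (nat_lit
  81508) (nat_lit 11) nil nil)) (node (nat_lit 4) (nat_lit 76216) (nat_lit 10) nil nil)) nil)
  (node (nat_lit 0) (nat_lit 78528) (nat_lit 8) nil nil))) (node (nat_lit 4) (nat_lit 0) (nat_lit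
  7) (node (nat_lit 5) (nat_lit 69229) (nat_lit 8) (node (nat_lit 6) (nat_lit 73739) (nat_lit 9)
  (node (nat_lit 4) (nat_lit 75459) (nat_lit 10) (node (nat_lit 6) (nat_lit 74919) (nat_lit 11)
  nil (node (nat_lit 8) (nat_lit 36102) (nat_lit 11) nil nil)) nil) (node (nat_lit 4) (nat_lit
  74079) (nat_lit 9) (node (nat_lit 6) (nat_lit 72254) (nat_lit 10) (node (nat_lit 4) (nat_lit
  71844) (nat_lit 11) nil nil) nil) (node (nat_lit 8) (nat_lit 76739) (nat_lit 9) nil nil))) (node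
  (nat_lit 6) (nat_lit 69151) (nat_lit 8) (node (nat_lit 5) (nat_lit 76519) (nat_lit 9) (node
  (nat_lit 4) (nat_lit 79279) (nat_lit 10) nil (node (nat_lit 6) (nat_lit 78239) (nat_lit 10) nil
  nil)) (node (nat_lit 8) (nat_lit 80909) (nat_lit 9) nil (node (nat_lit 0) (nat_lit 76661)
  (nat_lit 9) nil nil))) (node (nat_lit 0) (nat_lit 69918) (nat_lit 8) nil nil))) (node (nat_lit
  5) (nat_lit 0) (nat_lit 7) (node (nat_lit 4) (nat_lit 70045) (nat_lit 8) (node (nat_lit 6)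
  (nat_lit 76667) (nat_lit 9) (node (nat_lit 5) (nat_lit 78387) (nat_lit 10) nil nil) (node
  (nat_lit 5) (nat_lit 74796) (nat_lit 9) (node (nat_lit 6) (nat_lit 76697) (nat_lit 10) (node
  (nat_lit 4) (nat_lit 78048) (nat_lit 11) nil nil) nil) nil)) (node (nat_lit 6) (nat_lit 69353)
  (nat_lit 8) (node (nat_lit 4) (nat_lit 76054) (nat_lit 9) (node (nat_lit 5) (nat_lit 77058)
  (nat_lit 10) nil (node (nat_lit 6) (nat_lit 75276) (nat_lit 10) nil nil)) nil) (node (nat_lit 8)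
  (nat_lit 80391) (nat_lit 8) nil (node (nat_lit 0) (nat_lit 75323) (nat_lit 8) nil nil)))) (node
  (nat_lit 0) (nat_lit 74506) (nat_lit 7) nil nil)))) (node (nat_lit 4) (nat_lit 0) (nat_lit 6)
  (node (nat_lit 6) (nat_lit 0) (nat_lit 7) (node (nat_lit 5) (nat_lit 67723) (nat_lit 8) (node
  (nat_lit 6) (nat_lit 73752) (nat_lit 9) (node (nat_lit 4) (nat_lit 75472) (nat_lit 10) nil nil)
  (node (nat_lit 4) (nat_lit 73207) (nat_lit 9) (node (nat_lit 5) (nat_lit 74927) (nat_lit 10) nil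
  nil) nil)) (node (nat_lit 4) (nat_lit 68681) (nat_lit 8) (node (nat_lit 5) (nat_lit 71464)
  (nat_lit 9) (node (nat_lit 6) (nat_lit 71326) (nat_lit 10) (node (nat_lit 4) (nat_lit 72949)
  (nat_lit 11) (node (nat_lit 8) (nat_lit 32324) (nat_lit 12) nil nil) nil) (node (nat_lit 4)
  (nat_lit 70525) (nat_lit 10) nil nil)) (node (nat_lit 8) (nat_lit 81554) (nat_lit 9) nil nil))
  (node (nat_lit 8) (nat_lit 76671) (nat_lit 8) nil (node (nat_lit 0) (nat_lit 73655) (nat_lit 8)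
  nil nil)))) (node (nat_lit 5) (nat_lit 0) (nat_lit 7) (node (nat_lit 6) (nat_lit 69922) (nat_lit
  8) (node (nat_lit 4) (nat_lit 73832) (nat_lit 9) nil (node (nat_lit 5) (nat_lit 75040) (nat_lit
  9) nil nil)) (node (nat_lit 4) (nat_lit 69178) (nat_lit 8) (node (nat_lit 6) (nat_lit 75733)
  (nat_lit 9) (node (nat_lit 5) (nat_lit 73153) (nat_lit 10) nil (node (nat_lit 4) (nat_lit 77452)
  (nat_lit 10) nil nil)) (node (nat_lit 8) (nat_lit 76688) (nat_lit 9) nil nil)) (node (nat_lit 8)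
  (nat_lit 76795) (nat_lit 8) nil (node (nat_lit 0) (nat_lit 74743) (nat_lit 8) nil nil)))) (node
  (nat_lit 0) (nat_lit 74297) (nat_lit 7) nil nil))) (node (nat_lit 0) (nat_lit 0) (nat_lit 6)
  (node (nat_lit 8) (nat_lit 0) (nat_lit 7) (node (nat_lit 4) (nat_lit 76185) (nat_lit 8) (node
  (nat_lit 9) (nat_lit 81309) (nat_lit 9) (node (nat_lit 8) (nat_lit 81902) (nat_lit 10) nil nil)
  (node (nat_lit 8) (nat_lit 78316) (nat_lit 9) nil nil)) (node (nat_lit 6) (nat_lit 76652)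
  (nat_lit 8) (node (nat_lit 9) (nat_lit 78784) (nat_lit 9) nil nil) (node (nat_lit 5) (nat_lit
  76652) (nat_lit 8) (node (nat_lit 9) (nat_lit 78784) (nat_lit 9) nil nil) (node (nat_lit 0)
  (nat_lit 80044) (nat_lit 8) nil nil)))) (node (nat_lit 4) (nat_lit 0) (nat_lit 7) (node (nat_lit
  9) (nat_lit 80349) (nat_lit 8) (node (nat_lit 8) (nat_lit 81441) (nat_lit 9) nil nil) (node
  (nat_lit 0) (nat_lit 77070) (nat_lit 8) nil (node (nat_lit 8) (nat_lit 77070) (nat_lit 8) nil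
  (node (nat_lit 5) (nat_lit 70181) (nat_lit 8) nil (node (nat_lit 6) (nat_lit 70181) (nat_lit 8)
  nil nil))))) (node (nat_lit 6) (nat_lit 70883) (nat_lit 7) (node (nat_lit 9) (nat_lit 77773)
  (nat_lit 8) nil (node (nat_lit 4) (nat_lit 70883) (nat_lit 8) nil (node (nat_lit 8) (nat_lit
  73954) (nat_lit 8) nil nil))) (node (nat_lit 5) (nat_lit 69734) (nat_lit 7) (node (nat_lit 9)
  (nat_lit 76623) (nat_lit 8) nil (node (nat_lit 4) (nat_lit 69734) (nat_lit 8) nil (node (nat_lit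
  8) (nat_lit 72805) (nat_lit 8) nil nil))) (node (nat_lit 0) (nat_lit 75460) (nat_lit 7) nil
  nil))))) nil)))) (node (nat_lit 5) (nat_lit 0) (nat_lit 5) (node (nat_lit 0) (nat_lit 0)
  (nat_lit 6) (node (nat_lit 5) (nat_lit 0) (nat_lit 7) (node (nat_lit 4) (nat_lit 31359) (nat_lit
  8) (node (nat_lit 9) (nat_lit 39177) (nat_lit 9) (node (nat_lit 5) (nat_lit 39988) (nat_lit 10)
  (node (nat_lit 9) (nat_lit 40499) (nat_lit 11) (node (nat_lit 4) (nat_lit 40499) (nat_lit 12)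
  (node (nat_lit 5) (nat_lit 40499) (nat_lit 13) (node (nat_lit 4) (nat_lit 40499) (nat_lit 14)
  nil nil) (node (nat_lit 9) (nat_lit 40699) (nat_lit 13) nil nil)) nil) (node (nat_lit 6)
  (nat_lit 39988) (nat_lit 11) (node (nat_lit 5) (nat_lit 39988) (nat_lit 12) nil (node (nat_lit
  4) (nat_lit 39988) (nat_lit 12) nil nil)) (node (nat_lit 0) (nat_lit 40499) (nat_lit 11) nil
  nil))) (node (nat_lit 4) (nat_lit 39177) (nat_lit 10) nil nil)) (node (nat_lit 6) (nat_lit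
  34412) (nat_lit 9) (node (nat_lit 5) (nat_lit 37280) (nat_lit 10) (node (nat_lit 6) (nat_lit
  38191) (nat_lit 11) nil nil) (node (nat_lit 4) (nat_lit 37221) (nat_lit 10) nil (node (nat_lit
  0) (nat_lit 39094) (nat_lit 10) nil (node (nat_lit 9) (nat_lit 39094) (nat_lit 10) nil nil))))
  (node (nat_lit 5) (nat_lit 33976) (nat_lit 9) (node (nat_lit 9) (nat_lit 40260) (nat_lit 10)
  (node (nat_lit 4) (nat_lit 40260) (nat_lit 11) (node (nat_lit 5) (nat_lit 40260) (nat_lit 12)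
  nil (node (nat_lit 9) (nat_lit 40699) (nat_lit 12) nil nil)) nil) (node (nat_lit 6) (nat_lit
  36498) (nat_lit 10) nil nil)) (node (nat_lit 0) (nat_lit 38909) (nat_lit 9) nil nil)))) (node
  (nat_lit 6) (nat_lit 31806) (nat_lit 8) (node (nat_lit 4) (nat_lit 35515) (nat_lit 9) (node
  (nat_lit 6) (nat_lit 37168) (nat_lit 10) (node (nat_lit 5) (nat_lit 35797) (nat_lit 11) (node
  (nat_lit 4) (nat_lit 31479) (nat_lit 12) (node (nat_lit 5) (nat_lit 29436) (nat_lit 13) (node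
  (nat_lit 6) (nat_lit 26647) (nat_lit 14) (node (nat_lit 4) (nat_lit 21528) (nat_lit 15) (node
  (nat_lit 5) (nat_lit 22008) (nat_lit 16) nil nil) nil) nil) nil) nil) nil) (node (nat_lit 5)
  (nat_lit 36849) (nat_lit 10) (node (nat_lit 4) (nat_lit 37760) (nat_lit 11) nil (node (nat_lit
  0) (nat_lit 38911) (nat_lit 11) nil (node (nat_lit 6) (nat_lit 35870) (nat_lit 11) nil nil)))
  (node (nat_lit 9) (nat_lit 40260) (nat_lit 10) nil (node (nat_lit 0) (nat_lit 40260) (nat_lit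
  10) nil nil)))) (node (nat_lit 5) (nat_lit 34568) (nat_lit 9) (node (nat_lit 4) (nat_lit 37091)
  (nat_lit 10) nil (node (nat_lit 9) (nat_lit 40260) (nat_lit 10) (node (nat_lit 6) (nat_lit
  40260) (nat_lit 11) nil nil) (node (nat_lit 0) (nat_lit 39250) (nat_lit 10) nil nil))) (node
  (nat_lit 9) (nat_lit 39988) (nat_lit 9) (node (nat_lit 6) (nat_lit 39988) (nat_lit 10) (node
  (nat_lit 5) (nat_lit 39988) (nat_lit 11) nil nil) (node (nat_lit 5) (nat_lit 39988) (nat_lit 10)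
  nil nil)) (node (nat_lit 0) (nat_lit 39841) (nat_lit 9) nil nil)))) (node (nat_lit 0) (nat_lit
  36342) (nat_lit 8) (node (nat_lit 9) (nat_lit 39139) (nat_lit 9) (node (nat_lit 5) (nat_lit
  39139) (nat_lit 10) (node (nat_lit 9) (nat_lit 39651) (nat_lit 11) nil nil) (node (nat_lit 11)
  (nat_lit 39412) (nat_lit 10) nil nil)) (node (nat_lit 5) (nat_lit 36017) (nat_lit 9) (node
  (nat_lit 9) (nat_lit 36929) (nat_lit 10) nil nil) (node (nat_lit 4) (nat_lit 36342) (nat_lit 9)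
  nil (node (nat_lit 0) (nat_lit 37814) (nat_lit 9) nil (node (nat_lit 6) (nat_lit 36342) (nat_lit
  9) nil nil))))) nil))) (node (nat_lit 4) (nat_lit 0) (nat_lit 7) (node (nat_lit 9) (nat_lit
  36238) (nat_lit 8) (node (nat_lit 5) (nat_lit 37555) (nat_lit 9) (node (nat_lit 9) (nat_lit
  40260) (nat_lit 10) (node (nat_lit 4) (nat_lit 40260) (nat_lit 11) (node (nat_lit 5) (nat_lit
  40260) (nat_lit 12) (node (nat_lit 4) (nat_lit 40260) (nat_lit 13) (node (nat_lit 9) (nat_lit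
  40699) (nat_lit 14) nil nil) (node (nat_lit 9) (nat_lit 40699) (nat_lit 13) nil (node (nat_lit
  6) (nat_lit 40260) (nat_lit 13) nil nil))) (node (nat_lit 6) (nat_lit 40260) (nat_lit 12) nil
  nil)) nil) (node (nat_lit 4) (nat_lit 37555) (nat_lit 10) nil nil)) nil) (node (nat_lit 5)
  (nat_lit 31080) (nat_lit 8) (node (nat_lit 4) (nat_lit 34458) (nat_lit 9) (node (nat_lit 9)
  (nat_lit 40135) (nat_lit 10) (node (nat_lit 5) (nat_lit 40135) (nat_lit 11) nil nil) nil) (node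
  (nat_lit 6) (nat_lit 32539) (nat_lit 9) nil nil)) (node (nat_lit 6) (nat_lit 31528) (nat_lit 8)
  (node (nat_lit 5) (nat_lit 33255) (nat_lit 9) (node (nat_lit 6) (nat_lit 35530) (nat_lit 10) nil
  (node (nat_lit 4) (nat_lit 34721) (nat_lit 10) nil nil)) (node (nat_lit 4) (nat_lit 32442)
  (nat_lit 9) nil (node (nat_lit 9) (nat_lit 34544) (nat_lit 9) nil nil))) (node (nat_lit 0)
  (nat_lit 35006) (nat_lit 8) nil nil)))) (node (nat_lit 6) (nat_lit 0) (nat_lit 7) (node (nat_lit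
  5) (nat_lit 30985) (nat_lit 8) (node (nat_lit 6) (nat_lit 32686) (nat_lit 9) (node (nat_lit 9)
  (nat_lit 37368) (nat_lit 10) nil nil) (node (nat_lit 4) (nat_lit 30985) (nat_lit 9) nil nil))
  (node (nat_lit 4) (nat_lit 31217) (nat_lit 8) (node (nat_lit 5) (nat_lit 29957) (nat_lit 9) nil
  (node (nat_lit 6) (nat_lit 31217) (nat_lit 9) nil nil)) (node (nat_lit 9) (nat_lit 35876)
  (nat_lit 8) (node (nat_lit 5) (nat_lit 35550) (nat_lit 9) (node (nat_lit 9) (nat_lit 37046)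
  (nat_lit 10) nil nil) nil) (node (nat_lit 0) (nat_lit 30148) (nat_lit 8) nil nil)))) (node
  (nat_lit 0) (nat_lit 31913) (nat_lit 7) (node (nat_lit 5) (nat_lit 32767) (nat_lit 8) (node
  (nat_lit 9) (nat_lit 37878) (nat_lit 9) (node (nat_lit 5) (nat_lit 37878) (nat_lit 10) nil nil)
  (node (nat_lit 10) (nat_lit 35437) (nat_lit 9) nil nil)) (node (nat_lit 9) (nat_lit 35794)
  (nat_lit 8) (node (nat_lit 5) (nat_lit 35794) (nat_lit 9) (node (nat_lit 9) (nat_lit 36706)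
  (nat_lit 10) nil nil) nil) (node (nat_lit 4) (nat_lit 31913) (nat_lit 8) nil (node (nat_lit 6)
  (nat_lit 31913) (nat_lit 8) nil nil)))) nil)))) (node (nat_lit 4) (nat_lit 0) (nat_lit 6) (node
  (nat_lit 0) (nat_lit 0) (nat_lit 7) (node (nat_lit 5) (nat_lit 31344) (nat_lit 8) (node (nat_lit
  4) (nat_lit 34042) (nat_lit 9) (node (nat_lit 5) (nat_lit 36753) (nat_lit 10) (node (nat_lit 10)
  (nat_lit 40499) (nat_lit 11) (node (nat_lit 4) (nat_lit 40499) (nat_lit 12) nil (node (nat_lit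
  5) (nat_lit 40499) (nat_lit 12) nil nil)) (node (nat_lit 6) (nat_lit 38476) (nat_lit 11) (node
  (nat_lit 4) (nat_lit 39042) (nat_lit 12) nil (node (nat_lit 5) (nat_lit 36358) (nat_lit 12) nil
  nil)) (node (nat_lit 0) (nat_lit 39648) (nat_lit 11) nil nil))) (node (nat_lit 6) (nat_lit
  36366) (nat_lit 10) (node (nat_lit 5) (nat_lit 38429) (nat_lit 11) nil (node (nat_lit 4)
  (nat_lit 37667) (nat_lit 11) nil (node (nat_lit 10) (nat_lit 39261) (nat_lit 11) nil nil)))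
  (node (nat_lit 0) (nat_lit 39174) (nat_lit 10) nil nil))) (node (nat_lit 10) (nat_lit 37795)
  (nat_lit 9) (node (nat_lit 4) (nat_lit 37795) (nat_lit 10) nil nil) nil)) (node (nat_lit 4)
  (nat_lit 31092) (nat_lit 8) (node (nat_lit 5) (nat_lit 34134) (nat_lit 9) (node (nat_lit 10)
  (nat_lit 40260) (nat_lit 10) (node (nat_lit 5) (nat_lit 40260) (nat_lit 11) (node (nat_lit 4)
  (nat_lit 40260) (nat_lit 12) (node (nat_lit 10) (nat_lit 40699) (nat_lit 13) nil nil) nil) nil)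
  nil) nil) (node (nat_lit 6) (nat_lit 28703) (nat_lit 8) nil (node (nat_lit 0) (nat_lit 31804)
  (nat_lit 8) nil nil)))) nil) nil)) (node (nat_lit 6) (nat_lit 0) (nat_lit 5) (node (nat_lit 0)
  (nat_lit 0) (nat_lit 6) (node (nat_lit 6) (nat_lit 0) (nat_lit 7) (node (nat_lit 4) (nat_lit
  64292) (nat_lit 8) (node (nat_lit 9) (nat_lit 78224) (nat_lit 9) (node (nat_lit 6) (nat_lit
  79873) (nat_lit 10) (node (nat_lit 9) (nat_lit 83173) (nat_lit 11) (node (nat_lit 4) (nat_lit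
  83173) (nat_lit 12) (node (nat_lit 6) (nat_lit 83173) (nat_lit 13) nil nil) nil) (node (nat_lit
  5) (nat_lit 80347) (nat_lit 11) (node (nat_lit 6) (nat_lit 80347) (nat_lit 12) nil nil) (node
  (nat_lit 0) (nat_lit 81510) (nat_lit 11) nil nil))) (node (nat_lit 4) (nat_lit 78569) (nat_lit
  10) (node (nat_lit 6) (nat_lit 78569) (nat_lit 11) nil nil) nil)) (node (nat_lit 5) (nat_lit
  69700) (nat_lit 9) (node (nat_lit 6) (nat_lit 74948) (nat_lit 10) (node (nat_lit 4) (nat_lit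
  77392) (nat_lit 11) (node (nat_lit 6) (nat_lit 77437) (nat_lit 12) (node (nat_lit 9) (nat_lit
  35704) (nat_lit 13) nil nil) nil) (node (nat_lit 5) (nat_lit 74260) (nat_lit 11) nil (node
  (nat_lit 0) (nat_lit 79966) (nat_lit 11) nil (node (nat_lit 9) (nat_lit 79966) (nat_lit 11) nil
  nil)))) (node (nat_lit 4) (nat_lit 75399) (nat_lit 10) (node (nat_lit 6) (nat_lit 72772)
  (nat_lit 11) nil (node (nat_lit 9) (nat_lit 80417) (nat_lit 11) nil nil)) (node (nat_lit 9)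
  (nat_lit 79652) (nat_lit 10) nil (node (nat_lit 0) (nat_lit 80416) (nat_lit 10) nil nil))))
  (node (nat_lit 6) (nat_lit 68778) (nat_lit 9) (node (nat_lit 5) (nat_lit 73176) (nat_lit 10) nil
  nil) (node (nat_lit 0) (nat_lit 78147) (nat_lit 9) nil nil)))) (node (nat_lit 5) (nat_lit 65289)
  (nat_lit 8) (node (nat_lit 4) (nat_lit 69578) (nat_lit 9) (node (nat_lit 5) (nat_lit 74932)
  (nat_lit 10) (node (nat_lit 6) (nat_lit 75485) (nat_lit 11) nil (node (nat_lit 9) (nat_lit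
  79950) (nat_lit 11) nil nil)) (node (nat_lit 6) (nat_lit 75270) (nat_lit 10) (node (nat_lit 4)
  (nat_lit 77714) (nat_lit 11) nil (node (nat_lit 5) (nat_lit 77714) (nat_lit 11) nil nil)) (node
  (nat_lit 9) (nat_lit 79531) (nat_lit 10) nil (node (nat_lit 0) (nat_lit 80288) (nat_lit 10) nil
  nil)))) (node (nat_lit 6) (nat_lit 69292) (nat_lit 9) (node (nat_lit 4) (nat_lit 71562) (nat_lit
  10) (node (nat_lit 9) (nat_lit 76580) (nat_lit 11) nil nil) (node (nat_lit 9) (nat_lit 81035)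
  (nat_lit 10) (node (nat_lit 5) (nat_lit 81035) (nat_lit 11) (node (nat_lit 9) (nat_lit 82030)
  (nat_lit 12) nil nil) nil) (node (nat_lit 0) (nat_lit 78248) (nat_lit 10) nil nil))) (node
  (nat_lit 9) (nat_lit 78948) (nat_lit 9) (node (nat_lit 5) (nat_lit 78948) (nat_lit 10) nil (node
  (nat_lit 6) (nat_lit 78948) (nat_lit 10) nil nil)) (node (nat_lit 0) (nat_lit 78948) (nat_lit 9)
  nil nil)))) (node (nat_lit 0) (nat_lit 75632) (nat_lit 8) (node (nat_lit 9) (nat_lit 79558)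
  (nat_lit 9) (node (nat_lit 6) (nat_lit 79913) (nat_lit 10) (node (nat_lit 9) (nat_lit 81028)
  (nat_lit 11) nil nil) nil) (node (nat_lit 6) (nat_lit 75942) (nat_lit 9) (node (nat_lit 9)
  (nat_lit 78824) (nat_lit 10) nil nil) (node (nat_lit 0) (nat_lit 78043) (nat_lit 9) nil (node
  (nat_lit 4) (nat_lit 75632) (nat_lit 9) nil (node (nat_lit 5) (nat_lit 75632) (nat_lit 9) nil
  nil))))) nil))) (node (nat_lit 4) (nat_lit 0) (nat_lit 7) (node (nat_lit 9) (nat_lit 74052)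
  (nat_lit 8) (node (nat_lit 6) (nat_lit 76010) (nat_lit 9) (node (nat_lit 9) (nat_lit 81044)
  (nat_lit 10) (node (nat_lit 4) (nat_lit 81710) (nat_lit 11) (node (nat_lit 6) (nat_lit 82094)
  (nat_lit 12) (node (nat_lit 4) (nat_lit 82342) (nat_lit 13) (node (nat_lit 5) (nat_lit 82864)
  (nat_lit 14) nil (node (nat_lit 9) (nat_lit 84021) (nat_lit 14) nil nil)) (node (nat_lit 9)
  (nat_lit 83474) (nat_lit 13) nil (node (nat_lit 5) (nat_lit 82094) (nat_lit 13) nil nil))) (node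
  (nat_lit 5) (nat_lit 81710) (nat_lit 12) nil (node (nat_lit 0) (nat_lit 82705) (nat_lit 12) nil
  nil))) nil) nil) nil) (node (nat_lit 6) (nat_lit 64337) (nat_lit 8) (node (nat_lit 4) (nat_lit
  67726) (nat_lit 9) (node (nat_lit 9) (nat_lit 79470) (nat_lit 10) (node (nat_lit 6) (nat_lit
  79470) (nat_lit 11) (node (nat_lit 9) (nat_lit 80465) (nat_lit 12) nil nil) nil) nil) (node
  (nat_lit 5) (nat_lit 64818) (nat_lit 9) nil nil)) (node (nat_lit 5) (nat_lit 65492) (nat_lit 8)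
  (node (nat_lit 6) (nat_lit 67381) (nat_lit 9) (node (nat_lit 5) (nat_lit 70449) (nat_lit 10) nil
  (node (nat_lit 4) (nat_lit 70449) (nat_lit 10) nil nil)) (node (nat_lit 4) (nat_lit 64831)
  (nat_lit 9) nil nil)) (node (nat_lit 0) (nat_lit 73087) (nat_lit 8) nil nil)))) (node (nat_lit
  5) (nat_lit 0) (nat_lit 7) (node (nat_lit 6) (nat_lit 65043) (nat_lit 8) (node (nat_lit 5)
  (nat_lit 68848) (nat_lit 9) (node (nat_lit 9) (nat_lit 77804) (nat_lit 10) nil nil) (node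
  (nat_lit 4) (nat_lit 63837) (nat_lit 9) nil nil)) (node (nat_lit 4) (nat_lit 64925) (nat_lit 8)
  (node (nat_lit 6) (nat_lit 67890) (nat_lit 9) nil (node (nat_lit 5) (nat_lit 64925) (nat_lit 9)
  nil nil)) (node (nat_lit 9) (nat_lit 75242) (nat_lit 8) (node (nat_lit 6) (nat_lit 75679)
  (nat_lit 9) (node (nat_lit 9) (nat_lit 78316) (nat_lit 10) nil nil) nil) (node (nat_lit 0)
  (nat_lit 69162) (nat_lit 8) nil nil)))) (node (nat_lit 0) (nat_lit 68832) (nat_lit 7) (node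
  (nat_lit 6) (nat_lit 69736) (nat_lit 8) (node (nat_lit 9) (nat_lit 77955) (nat_lit 9) (node
  (nat_lit 6) (nat_lit 77955) (nat_lit 10) nil nil) (node (nat_lit 10) (nat_lit 73639) (nat_lit 9)
  nil nil)) (node (nat_lit 9) (nat_lit 74724) (nat_lit 8) (node (nat_lit 6) (nat_lit 74724)
  (nat_lit 9) (node (nat_lit 9) (nat_lit 76776) (nat_lit 10) nil nil) nil) nil)) nil)))) (node
  (nat_lit 5) (nat_lit 0) (nat_lit 6) (node (nat_lit 0) (nat_lit 0) (nat_lit 7) (node (nat_lit 6)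
  (nat_lit 55684) (nat_lit 8) (node (nat_lit 5) (nat_lit 58884) (nat_lit 9) (node (nat_lit 6)
  (nat_lit 62053) (nat_lit 10) (node (nat_lit 4) (nat_lit 63934) (nat_lit 11) (node (nat_lit 5)
  (nat_lit 65394) (nat_lit 12) nil nil) (node (nat_lit 10) (nat_lit 70029) (nat_lit 11) (node
  (nat_lit 6) (nat_lit 70029) (nat_lit 12) nil nil) (node (nat_lit 0) (nat_lit 69518) (nat_lit 11)
  nil nil))) (node (nat_lit 4) (nat_lit 62280) (nat_lit 10) (node (nat_lit 5) (nat_lit 64765)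
  (nat_lit 11) nil (node (nat_lit 6) (nat_lit 66504) (nat_lit 11) (node (nat_lit 10) (nat_lit
  69552) (nat_lit 12) nil nil) (node (nat_lit 10) (nat_lit 69745) (nat_lit 11) nil (node (nat_lit
  0) (nat_lit 67298) (nat_lit 11) nil nil)))) (node (nat_lit 0) (nat_lit 68103) (nat_lit 10) nil
  nil))) (node (nat_lit 4) (nat_lit 55210) (nat_lit 9) nil (node (nat_lit 10) (nat_lit 59587)
  (nat_lit 9) nil nil))) (node (nat_lit 5) (nat_lit 55553) (nat_lit 8) (node (nat_lit 6) (nat_lit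
  54854) (nat_lit 9) (node (nat_lit 10) (nat_lit 61896) (nat_lit 10) (node (nat_lit 6) (nat_lit
  61896) (nat_lit 11) nil nil) nil) nil) (node (nat_lit 4) (nat_lit 54882) (nat_lit 8) (node
  (nat_lit 5) (nat_lit 55612) (nat_lit 9) nil nil) (node (nat_lit 0) (nat_lit 59625) (nat_lit 8)
  nil nil)))) nil) nil)) nil)))

noncomputable def t415 : Tr :=
  (node (nat_lit 0) (nat_lit 0) (nat_lit 5) (node (nat_lit 6) (nat_lit 0) (nat_lit 6) (node
  (nat_lit 8) (nat_lit 0) (nat_lit 7) (node (nat_lit 5) (nat_lit 100150) (nat_lit 8) (node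
  (nat_lit 6) (nat_lit 99998) (nat_lit 9) (node (nat_lit 5) (nat_lit 102507) (nat_lit 10) (node
  (nat_lit 4) (nat_lit 104608) (nat_lit 11) (node (nat_lit 6) (nat_lit 104697) (nat_lit 12) nil
  nil) (node (nat_lit 8) (nat_lit 105753) (nat_lit 11) nil nil)) (node (nat_lit 4) (nat_lit
  100958) (nat_lit 10) (node (nat_lit 5) (nat_lit 102309) (nat_lit 11) nil (node (nat_lit 6)
  (nat_lit 100418) (nat_lit 11) nil nil)) (node (nat_lit 0) (nat_lit 102723) (nat_lit 10) nil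
  nil))) (node (nat_lit 4) (nat_lit 100150) (nat_lit 9) nil (node (nat_lit 8) (nat_lit 105299)
  (nat_lit 9) nil (node (nat_lit 0) (nat_lit 102282) (nat_lit 9) nil nil)))) (node (nat_lit 4)
  (nat_lit 99951) (nat_lit 8) (node (nat_lit 6) (nat_lit 100636) (nat_lit 9) (node (nat_lit 4)
  (nat_lit 102905) (nat_lit 10) nil (node (nat_lit 5) (nat_lit 100636) (nat_lit 10) nil nil)) nil)
  (node (nat_lit 0) (nat_lit 100506) (nat_lit 8) nil nil))) (node (nat_lit 5) (nat_lit 0) (nat_lit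
  7) (node (nat_lit 6) (nat_lit 89867) (nat_lit 8) (node (nat_lit 4) (nat_lit 97610) (nat_lit 9)
  (node (nat_lit 5) (nat_lit 100907) (nat_lit 10) (node (nat_lit 4) (nat_lit 102696) (nat_lit 11)
  (node (nat_lit 6) (nat_lit 101372) (nat_lit 12) (node (nat_lit 4) (nat_lit 102046) (nat_lit 13)
  (node (nat_lit 5) (nat_lit 101123) (nat_lit 14) nil nil) nil) nil) nil) (node (nat_lit 6)
  (nat_lit 96832) (nat_lit 10) nil nil)) (node (nat_lit 8) (nat_lit 104297) (nat_lit 9) nil (node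
  (nat_lit 0) (nat_lit 97377) (nat_lit 9) nil nil))) (node (nat_lit 4) (nat_lit 90637) (nat_lit 8)
  (node (nat_lit 6) (nat_lit 97383) (nat_lit 9) (node (nat_lit 5) (nat_lit 96444) (nat_lit 10) nil
  nil) (node (nat_lit 5) (nat_lit 96078) (nat_lit 9) (node (nat_lit 6) (nat_lit 95300) (nat_lit
  10) nil nil) nil)) (node (nat_lit 0) (nat_lit 97707) (nat_lit 8) nil nil))) (node (nat_lit 4)
  (nat_lit 0) (nat_lit 7) (node (nat_lit 5) (nat_lit 89452) (nat_lit 8) (node (nat_lit 6) (nat_lit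
  96142) (nat_lit 9) (node (nat_lit 4) (nat_lit 97862) (nat_lit 10) nil nil) (node (nat_lit 4)
  (nat_lit 95072) (nat_lit 9) (node (nat_lit 6) (nat_lit 96747) (nat_lit 10) (node (nat_lit 5)
  (nat_lit 92417) (nat_lit 11) nil nil) nil) nil)) (node (nat_lit 6) (nat_lit 89612) (nat_lit 8)
  (node (nat_lit 5) (nat_lit 96704) (nat_lit 9) (node (nat_lit 4) (nat_lit 99883) (nat_lit 10) nil
  nil) nil) (node (nat_lit 8) (nat_lit 101302) (nat_lit 8) nil (node (nat_lit 0) (nat_lit 90285)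
  (nat_lit 8) nil nil)))) (node (nat_lit 0) (nat_lit 97077) (nat_lit 7) nil nil)))) (node (nat_lit
  4) (nat_lit 0) (nat_lit 6) (node (nat_lit 8) (nat_lit 0) (nat_lit 7) (node (nat_lit 5) (nat_lit
  99958) (nat_lit 8) (node (nat_lit 4) (nat_lit 100636) (nat_lit 9) (node (nat_lit 5) (nat_lit
  102905) (nat_lit 10) (node (nat_lit 6) (nat_lit 104824) (nat_lit 11) (node (nat_lit 4) (nat_lit
  105604) (nat_lit 12) nil nil) (node (nat_lit 8) (nat_lit 106151) (nat_lit 11) nil nil)) (node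
  (nat_lit 6) (nat_lit 102905) (nat_lit 10) (node (nat_lit 5) (nat_lit 102277) (nat_lit 11) nil
  (node (nat_lit 4) (nat_lit 104256) (nat_lit 11) nil nil)) (node (nat_lit 0) (nat_lit 103360)
  (nat_lit 10) nil nil))) (node (nat_lit 6) (nat_lit 99958) (nat_lit 9) nil (node (nat_lit 8)
  (nat_lit 105108) (nat_lit 9) nil (node (nat_lit 0) (nat_lit 102089) (nat_lit 9) nil nil))))
  (node (nat_lit 6) (nat_lit 99881) (nat_lit 8) (node (nat_lit 4) (nat_lit 99043) (nat_lit 9)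
  (node (nat_lit 6) (nat_lit 99043) (nat_lit 10) nil (node (nat_lit 5) (nat_lit 99043) (nat_lit
  10) nil nil)) nil) (node (nat_lit 0) (nat_lit 100710) (nat_lit 8) nil nil))) (node (nat_lit 6)
  (nat_lit 0) (nat_lit 7) (node (nat_lit 5) (nat_lit 90067) (nat_lit 8) (node (nat_lit 4) (nat_lit
  97629) (nat_lit 9) (node (nat_lit 6) (nat_lit 99435) (nat_lit 10) (node (nat_lit 4) (nat_lit
  99293) (nat_lit 11) (node (nat_lit 5) (nat_lit 96094) (nat_lit 12) (node (nat_lit 6) (nat_lit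
  89485) (nat_lit 13) (node (nat_lit 5) (nat_lit 78807) (nat_lit 14) nil nil) nil) nil) nil) (node
  (nat_lit 5) (nat_lit 99348) (nat_lit 10) nil nil)) (node (nat_lit 6) (nat_lit 97629) (nat_lit 9)
  (node (nat_lit 4) (nat_lit 100809) (nat_lit 10) (node (nat_lit 5) (nat_lit 102159) (nat_lit 11)
  nil nil) nil) nil)) (node (nat_lit 4) (nat_lit 90996) (nat_lit 8) (node (nat_lit 5) (nat_lit
  97414) (nat_lit 9) (node (nat_lit 6) (nat_lit 100712) (nat_lit 10) (node (nat_lit 5) (nat_lit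
  98361) (nat_lit 11) (node (nat_lit 8) (nat_lit 56225) (nat_lit 12) (node (nat_lit 4) (nat_lit
  21179) (nat_lit 13) nil nil) nil) nil) nil) nil) (node (nat_lit 8) (nat_lit 102266) (nat_lit 8)
  nil (node (nat_lit 0) (nat_lit 91249) (nat_lit 8) nil nil)))) (node (nat_lit 5) (nat_lit 0)
  (nat_lit 7) (node (nat_lit 4) (nat_lit 90154) (nat_lit 8) (node (nat_lit 6) (nat_lit 97692)
  (nat_lit 9) (node (nat_lit 5) (nat_lit 99759) (nat_lit 10) (node (nat_lit 6) (nat_lit 97408)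
  (nat_lit 11) nil nil) (node (nat_lit 4) (nat_lit 99411) (nat_lit 10) nil nil)) (node (nat_lit 8)
  (nat_lit 104586) (nat_lit 9) nil nil)) (node (nat_lit 6) (nat_lit 90092) (nat_lit 8) (node
  (nat_lit 4) (nat_lit 95533) (nat_lit 9) (node (nat_lit 5) (nat_lit 97253) (nat_lit 10) nil nil)
  (node (nat_lit 5) (nat_lit 95763) (nat_lit 9) (node (nat_lit 4) (nat_lit 94824) (nat_lit 10) nil
  nil) nil)) (node (nat_lit 8) (nat_lit 103303) (nat_lit 8) (node (nat_lit 5) (nat_lit 103303)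
  (nat_lit 9) nil nil) (node (nat_lit 0) (nat_lit 97070) (nat_lit 8) nil nil)))) (node (nat_lit 0)
  (nat_lit 97587) (nat_lit 7) nil nil)))) (node (nat_lit 5) (nat_lit 0) (nat_lit 6) (node (nat_lit
  6) (nat_lit 0) (nat_lit 7) (node (nat_lit 4) (nat_lit 89482) (nat_lit 8) (node (nat_lit 6)
  (nat_lit 92799) (nat_lit 9) (node (nat_lit 5) (nat_lit 90894) (nat_lit 10) (node (nat_lit 4)
  (nat_lit 88725) (nat_lit 11) (node (nat_lit 5) (nat_lit 86076) (nat_lit 12) (node (nat_lit 6)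
  (nat_lit 80210) (nat_lit 13) (node (nat_lit 5) (nat_lit 75895) (nat_lit 14) nil nil) nil) nil)
  nil) nil) (node (nat_lit 5) (nat_lit 95811) (nat_lit 9) (node (nat_lit 4) (nat_lit 94872)
  (nat_lit 10) nil nil) nil)) (node (nat_lit 5) (nat_lit 90096) (nat_lit 8) (node (nat_lit 4)
  (nat_lit 97659) (nat_lit 9) (node (nat_lit 6) (nat_lit 98585) (nat_lit 10) (node (nat_lit 4)
  (nat_lit 98443) (nat_lit 11) (node (nat_lit 5) (nat_lit 95895) (nat_lit 12) nil nil) nil) (node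
  (nat_lit 5) (nat_lit 99378) (nat_lit 10) nil nil)) nil) (node (nat_lit 8) (nat_lit 101539)
  (nat_lit 8) nil (node (nat_lit 0) (nat_lit 90523) (nat_lit 8) nil nil)))) (node (nat_lit 4)
  (nat_lit 0) (nat_lit 7) (node (nat_lit 5) (nat_lit 88778) (nat_lit 8) (node (nat_lit 6) (nat_lit
  95468) (nat_lit 9) (node (nat_lit 4) (nat_lit 97188) (nat_lit 10) nil (node (nat_lit 5) (nat_lit
  98279) (nat_lit 10) (node (nat_lit 4) (nat_lit 98219) (nat_lit 11) nil nil) nil)) (node (nat_lit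
  8) (nat_lit 103209) (nat_lit 9) nil nil)) (node (nat_lit 6) (nat_lit 88708) (nat_lit 8) (node
  (nat_lit 5) (nat_lit 95668) (nat_lit 9) (node (nat_lit 6) (nat_lit 91988) (nat_lit 10) nil nil)
  (node (nat_lit 4) (nat_lit 94810) (nat_lit 9) nil nil)) (node (nat_lit 8) (nat_lit 96173)
  (nat_lit 8) nil (node (nat_lit 0) (nat_lit 89204) (nat_lit 8) nil nil)))) (node (nat_lit 0)
  (nat_lit 98596) (nat_lit 7) nil nil))) (node (nat_lit 0) (nat_lit 0) (nat_lit 6) (node (nat_lit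
  8) (nat_lit 0) (nat_lit 7) (node (nat_lit 5) (nat_lit 99642) (nat_lit 8) (node (nat_lit 9)
  (nat_lit 104791) (nat_lit 9) nil nil) (node (nat_lit 4) (nat_lit 99958) (nat_lit 8) nil (node
  (nat_lit 6) (nat_lit 99958) (nat_lit 8) nil (node (nat_lit 0) (nat_lit 103578) (nat_lit 8) nil
  nil)))) (node (nat_lit 5) (nat_lit 0) (nat_lit 7) (node (nat_lit 9) (nat_lit 102460) (nat_lit 8)
  (node (nat_lit 8) (nat_lit 103240) (nat_lit 9) nil nil) (node (nat_lit 0) (nat_lit 100407)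
  (nat_lit 8) nil (node (nat_lit 4) (nat_lit 91165) (nat_lit 8) nil (node (nat_lit 6) (nat_lit
  91165) (nat_lit 8) nil (node (nat_lit 8) (nat_lit 100407) (nat_lit 8) nil nil))))) (node
  (nat_lit 6) (nat_lit 91739) (nat_lit 7) (node (nat_lit 9) (nat_lit 100981) (nat_lit 8) nil (node
  (nat_lit 5) (nat_lit 91739) (nat_lit 8) nil (node (nat_lit 8) (nat_lit 94810) (nat_lit 8) nil
  nil))) (node (nat_lit 4) (nat_lit 92155) (nat_lit 7) (node (nat_lit 9) (nat_lit 101397) (nat_lit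
  8) nil (node (nat_lit 5) (nat_lit 92155) (nat_lit 8) nil (node (nat_lit 8) (nat_lit 95226)
  (nat_lit 8) nil nil))) (node (nat_lit 0) (nat_lit 98501) (nat_lit 7) nil nil))))) nil)))) (node
  (nat_lit 4) (nat_lit 0) (nat_lit 5) (node (nat_lit 0) (nat_lit 0) (nat_lit 6) (node (nat_lit 4)
  (nat_lit 0) (nat_lit 7) (node (nat_lit 5) (nat_lit 87405) (nat_lit 8) (node (nat_lit 9) (nat_lit
  104428) (nat_lit 9) (node (nat_lit 4) (nat_lit 105083) (nat_lit 10) (node (nat_lit 9) (nat_lit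
  107258) (nat_lit 11) nil (node (nat_lit 6) (nat_lit 105083) (nat_lit 11) nil nil)) (node
  (nat_lit 5) (nat_lit 104428) (nat_lit 10) nil nil)) (node (nat_lit 6) (nat_lit 92615) (nat_lit
  9) (node (nat_lit 4) (nat_lit 97868) (nat_lit 10) (node (nat_lit 6) (nat_lit 98133) (nat_lit 11)
  nil (node (nat_lit 5) (nat_lit 100312) (nat_lit 11) nil nil)) (node (nat_lit 5) (nat_lit 99167)
  (nat_lit 10) (node (nat_lit 4) (nat_lit 99539) (nat_lit 11) nil (node (nat_lit 9) (nat_lit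
  104185) (nat_lit 11) nil nil)) (node (nat_lit 9) (nat_lit 100178) (nat_lit 10) nil (node
  (nat_lit 0) (nat_lit 104147) (nat_lit 10) nil nil)))) (node (nat_lit 4) (nat_lit 94384) (nat_lit
  9) (node (nat_lit 9) (nat_lit 106084) (nat_lit 10) (node (nat_lit 5) (nat_lit 106084) (nat_lit
  11) nil nil) (node (nat_lit 6) (nat_lit 98861) (nat_lit 10) (node (nat_lit 4) (nat_lit 101305)
  (nat_lit 11) nil nil) (node (nat_lit 0) (nat_lit 101947) (nat_lit 10) nil nil))) (node (nat_lit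
  0) (nat_lit 102639) (nat_lit 9) nil nil)))) (node (nat_lit 6) (nat_lit 89431) (nat_lit 8) (node
  (nat_lit 5) (nat_lit 94649) (nat_lit 9) (node (nat_lit 4) (nat_lit 100274) (nat_lit 10) (node
  (nat_lit 6) (nat_lit 99016) (nat_lit 11) nil (node (nat_lit 5) (nat_lit 102718) (nat_lit 11) nil
  nil)) (node (nat_lit 6) (nat_lit 100920) (nat_lit 10) (node (nat_lit 4) (nat_lit 103364)
  (nat_lit 11) nil (node (nat_lit 9) (nat_lit 105939) (nat_lit 11) nil nil)) (node (nat_lit 9)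
  (nat_lit 102212) (nat_lit 10) nil (node (nat_lit 0) (nat_lit 102212) (nat_lit 10) nil nil))))
  (node (nat_lit 4) (nat_lit 94576) (nat_lit 9) (node (nat_lit 5) (nat_lit 99233) (nat_lit 10)
  (node (nat_lit 9) (nat_lit 104251) (nat_lit 11) nil nil) (node (nat_lit 9) (nat_lit 104353)
  (nat_lit 10) nil (node (nat_lit 0) (nat_lit 102139) (nat_lit 10) nil nil))) (node (nat_lit 9)
  (nat_lit 104666) (nat_lit 9) (node (nat_lit 6) (nat_lit 104666) (nat_lit 10) nil nil) (node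
  (nat_lit 0) (nat_lit 104666) (nat_lit 9) nil nil)))) (node (nat_lit 0) (nat_lit 102463) (nat_lit
  8) (node (nat_lit 9) (nat_lit 105780) (nat_lit 9) (node (nat_lit 4) (nat_lit 105780) (nat_lit
  10) nil nil) (node (nat_lit 4) (nat_lit 102221) (nat_lit 9) (node (nat_lit 9) (nat_lit 104274)
  (nat_lit 10) nil nil) (node (nat_lit 5) (nat_lit 102463) (nat_lit 9) nil (node (nat_lit 0)
  (nat_lit 104780) (nat_lit 9) nil (node (nat_lit 6) (nat_lit 102463) (nat_lit 9) nil nil)))))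
  nil))) (node (nat_lit 5) (nat_lit 0) (nat_lit 7) (node (nat_lit 9) (nat_lit 101471) (nat_lit 8)
  (node (nat_lit 4) (nat_lit 101412) (nat_lit 9) (node (nat_lit 9) (nat_lit 105964) (nat_lit 10)
  (node (nat_lit 5) (nat_lit 105964) (nat_lit 11) (node (nat_lit 4) (nat_lit 105964) (nat_lit 12)
  nil nil) nil) (node (nat_lit 5) (nat_lit 101412) (nat_lit 10) nil nil)) nil) (node (nat_lit 6)
  (nat_lit 88993) (nat_lit 8) (node (nat_lit 4) (nat_lit 92822) (nat_lit 9) (node (nat_lit 6)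
  (nat_lit 94172) (nat_lit 10) nil (node (nat_lit 5) (nat_lit 95889) (nat_lit 10) nil nil)) (node
  (nat_lit 5) (nat_lit 91007) (nat_lit 9) nil (node (nat_lit 9) (nat_lit 95964) (nat_lit 9) nil
  nil))) (node (nat_lit 4) (nat_lit 89056) (nat_lit 8) (node (nat_lit 5) (nat_lit 93785) (nat_lit
  9) (node (nat_lit 9) (nat_lit 104922) (nat_lit 10) nil nil) (node (nat_lit 6) (nat_lit 89056)
  (nat_lit 9) nil nil)) (node (nat_lit 0) (nat_lit 97945) (nat_lit 8) nil nil)))) (node (nat_lit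
  6) (nat_lit 0) (nat_lit 7) (node (nat_lit 4) (nat_lit 87998) (nat_lit 8) (node (nat_lit 6)
  (nat_lit 93084) (nat_lit 9) (node (nat_lit 9) (nat_lit 103222) (nat_lit 10) nil nil) (node
  (nat_lit 5) (nat_lit 88551) (nat_lit 9) nil nil)) (node (nat_lit 5) (nat_lit 86603) (nat_lit 8)
  (node (nat_lit 4) (nat_lit 90506) (nat_lit 9) nil (node (nat_lit 6) (nat_lit 86603) (nat_lit 9)
  nil nil)) (node (nat_lit 9) (nat_lit 100695) (nat_lit 8) (node (nat_lit 4) (nat_lit 100695)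
  (nat_lit 9) (node (nat_lit 9) (nat_lit 102748) (nat_lit 10) nil nil) nil) (node (nat_lit 0)
  (nat_lit 93103) (nat_lit 8) nil nil)))) (node (nat_lit 0) (nat_lit 93691) (nat_lit 7) (node
  (nat_lit 4) (nat_lit 94399) (nat_lit 8) (node (nat_lit 9) (nat_lit 104186) (nat_lit 9) (node
  (nat_lit 4) (nat_lit 104186) (nat_lit 10) nil nil) (node (nat_lit 10) (nat_lit 101476) (nat_lit
  9) nil nil)) (node (nat_lit 9) (nat_lit 101459) (nat_lit 8) (node (nat_lit 4) (nat_lit 101459)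
  (nat_lit 9) (node (nat_lit 9) (nat_lit 103512) (nat_lit 10) nil nil) nil) (node (nat_lit 5)
  (nat_lit 93691) (nat_lit 8) nil nil))) nil)))) (node (nat_lit 5) (nat_lit 0) (nat_lit 6) (node
  (nat_lit 0) (nat_lit 0) (nat_lit 7) (node (nat_lit 4) (nat_lit 71672) (nat_lit 8) (node (nat_lit
  5) (nat_lit 73572) (nat_lit 9) (node (nat_lit 4) (nat_lit 76338) (nat_lit 10) (node (nat_lit 10)
  (nat_lit 79878) (nat_lit 11) (node (nat_lit 5) (nat_lit 79878) (nat_lit 12) nil (node (nat_lit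
  4) (nat_lit 79878) (nat_lit 12) nil nil)) (node (nat_lit 6) (nat_lit 78308) (nat_lit 11) (node
  (nat_lit 5) (nat_lit 79411) (nat_lit 12) nil (node (nat_lit 4) (nat_lit 79129) (nat_lit 12) nil
  nil)) (node (nat_lit 0) (nat_lit 79878) (nat_lit 11) nil nil))) (node (nat_lit 6) (nat_lit
  75941) (nat_lit 10) (node (nat_lit 5) (nat_lit 77923) (nat_lit 11) nil (node (nat_lit 4)
  (nat_lit 77978) (nat_lit 11) (node (nat_lit 10) (nat_lit 79658) (nat_lit 12) nil nil) (node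
  (nat_lit 10) (nat_lit 79878) (nat_lit 11) nil (node (nat_lit 0) (nat_lit 78897) (nat_lit 11) nil
  nil)))) (node (nat_lit 0) (nat_lit 79388) (nat_lit 10) nil nil))) (node (nat_lit 10) (nat_lit
  79070) (nat_lit 9) (node (nat_lit 5) (nat_lit 79070) (nat_lit 10) nil nil) nil)) (node (nat_lit
  5) (nat_lit 71553) (nat_lit 8) (node (nat_lit 4) (nat_lit 74199) (nat_lit 9) (node (nat_lit 10)
  (nat_lit 79732) (nat_lit 10) (node (nat_lit 4) (nat_lit 79732) (nat_lit 11) (node (nat_lit 5)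
  (nat_lit 79732) (nat_lit 12) (node (nat_lit 10) (nat_lit 79878) (nat_lit 13) nil nil) nil) nil)
  nil) nil) (node (nat_lit 6) (nat_lit 69835) (nat_lit 8) nil (node (nat_lit 0) (nat_lit 72827)
  (nat_lit 8) nil nil)))) nil) (node (nat_lit 6) (nat_lit 0) (nat_lit 6) (node (nat_lit 0)
  (nat_lit 0) (nat_lit 7) (node (nat_lit 4) (nat_lit 76179) (nat_lit 8) (node (nat_lit 6) (nat_lit
  80300) (nat_lit 9) (node (nat_lit 5) (nat_lit 84753) (nat_lit 10) (node (nat_lit 6) (nat_lit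
  88152) (nat_lit 11) nil (node (nat_lit 4) (nat_lit 89544) (nat_lit 11) nil (node (nat_lit 10)
  (nat_lit 93503) (nat_lit 11) nil (node (nat_lit 0) (nat_lit 89771) (nat_lit 11) nil nil))))
  (node (nat_lit 4) (nat_lit 84777) (nat_lit 10) (node (nat_lit 5) (nat_lit 87429) (nat_lit 11)
  (node (nat_lit 6) (nat_lit 87996) (nat_lit 12) nil nil) (node (nat_lit 10) (nat_lit 93933)
  (nat_lit 11) (node (nat_lit 4) (nat_lit 93933) (nat_lit 12) nil nil) (node (nat_lit 0) (nat_lit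
  93080) (nat_lit 11) nil nil))) (node (nat_lit 0) (nat_lit 91641) (nat_lit 10) nil nil))) (node
  (nat_lit 5) (nat_lit 76911) (nat_lit 9) nil (node (nat_lit 10) (nat_lit 80082) (nat_lit 9) nil
  nil))) (node (nat_lit 6) (nat_lit 76052) (nat_lit 8) (node (nat_lit 4) (nat_lit 76606) (nat_lit
  9) (node (nat_lit 10) (nat_lit 87715) (nat_lit 10) (node (nat_lit 4) (nat_lit 87715) (nat_lit
  11) (node (nat_lit 6) (nat_lit 87715) (nat_lit 12) nil nil) nil) nil) nil) (node (nat_lit 5)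
  (nat_lit 76111) (nat_lit 8) (node (nat_lit 6) (nat_lit 75414) (nat_lit 9) nil nil) (node
  (nat_lit 0) (nat_lit 80839) (nat_lit 8) nil nil)))) nil) nil))) nil))

noncomputable def t416 : Tr :=
  (node (nat_lit 0) (nat_lit 0) (nat_lit 5) (node (nat_lit 5) (nat_lit 0) (nat_lit 6) (node
  (nat_lit 8) (nat_lit 0) (nat_lit 7) (node (nat_lit 7) (nat_lit 70212) (nat_lit 8) (node (nat_lit
  5) (nat_lit 70212) (nat_lit 9) (node (nat_lit 7) (nat_lit 70212) (nat_lit 10) (node (nat_lit 4)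
  (nat_lit 70212) (nat_lit 11) nil nil) (node (nat_lit 4) (nat_lit 70212) (nat_lit 10) (node
  (nat_lit 7) (nat_lit 70212) (nat_lit 11) nil (node (nat_lit 5) (nat_lit 69148) (nat_lit 11) nil
  nil)) nil)) (node (nat_lit 4) (nat_lit 70212) (nat_lit 9) nil (node (nat_lit 8) (nat_lit 70212)
  (nat_lit 9) nil nil))) (node (nat_lit 4) (nat_lit 70212) (nat_lit 8) (node (nat_lit 5) (nat_lit
  70212) (nat_lit 9) (node (nat_lit 4) (nat_lit 70212) (nat_lit 10) nil (node (nat_lit 7) (nat_lit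
  70212) (nat_lit 10) nil nil)) nil) (node (nat_lit 0) (nat_lit 70212) (nat_lit 8) nil nil)))
  (node (nat_lit 7) (nat_lit 0) (nat_lit 7) (node (nat_lit 5) (nat_lit 65312) (nat_lit 8) (node
  (nat_lit 4) (nat_lit 69953) (nat_lit 9) (node (nat_lit 7) (nat_lit 70136) (nat_lit 10) (node
  (nat_lit 4) (nat_lit 68732) (nat_lit 11) (node (nat_lit 5) (nat_lit 61858) (nat_lit 12) (node
  (nat_lit 4) (nat_lit 48405) (nat_lit 13) (node (nat_lit 7) (nat_lit 48280) (nat_lit 14) nil nil)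
  nil) nil) nil) (node (nat_lit 5) (nat_lit 68159) (nat_lit 10) nil nil)) (node (nat_lit 8)
  (nat_lit 69273) (nat_lit 9) nil nil)) (node (nat_lit 4) (nat_lit 65017) (nat_lit 8) (node
  (nat_lit 5) (nat_lit 69197) (nat_lit 9) (node (nat_lit 7) (nat_lit 70095) (nat_lit 10) nil nil)
  (node (nat_lit 7) (nat_lit 67338) (nat_lit 9) (node (nat_lit 5) (nat_lit 65544) (nat_lit 10) nil
  nil) nil)) (node (nat_lit 8) (nat_lit 70212) (nat_lit 8) (node (nat_lit 7) (nat_lit 70212)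
  (nat_lit 9) nil nil) (node (nat_lit 0) (nat_lit 70212) (nat_lit 8) nil nil)))) (node (nat_lit 4)
  (nat_lit 0) (nat_lit 7) (node (nat_lit 7) (nat_lit 64579) (nat_lit 8) (node (nat_lit 4) (nat_lit
  68972) (nat_lit 9) (node (nat_lit 5) (nat_lit 69870) (nat_lit 10) nil nil) (node (nat_lit 5)
  (nat_lit 67675) (nat_lit 9) (node (nat_lit 4) (nat_lit 68573) (nat_lit 10) nil nil) nil)) (node
  (nat_lit 5) (nat_lit 65171) (nat_lit 8) (node (nat_lit 7) (nat_lit 69563) (nat_lit 9) (node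
  (nat_lit 4) (nat_lit 70212) (nat_lit 10) nil nil) nil) (node (nat_lit 8) (nat_lit 70212)
  (nat_lit 8) nil (node (nat_lit 0) (nat_lit 70212) (nat_lit 8) nil nil)))) (node (nat_lit 0)
  (nat_lit 67680) (nat_lit 7) nil nil)))) (node (nat_lit 4) (nat_lit 0) (nat_lit 6) (node (nat_lit
  8) (nat_lit 0) (nat_lit 7) (node (nat_lit 7) (nat_lit 70212) (nat_lit 8) (node (nat_lit 4)
  (nat_lit 70212) (nat_lit 9) (node (nat_lit 7) (nat_lit 70212) (nat_lit 10) (node (nat_lit 5)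
  (nat_lit 70212) (nat_lit 11) nil nil) (node (nat_lit 5) (nat_lit 70212) (nat_lit 10) (node
  (nat_lit 7) (nat_lit 70212) (nat_lit 11) nil (node (nat_lit 4) (nat_lit 70212) (nat_lit 11) nil
  nil)) nil)) (node (nat_lit 5) (nat_lit 70212) (nat_lit 9) nil (node (nat_lit 8) (nat_lit 70212)
  (nat_lit 9) nil nil))) (node (nat_lit 5) (nat_lit 70212) (nat_lit 8) (node (nat_lit 4) (nat_lit
  70212) (nat_lit 9) (node (nat_lit 5) (nat_lit 70212) (nat_lit 10) (node (nat_lit 7) (nat_lit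
  70212) (nat_lit 11) nil nil) (node (nat_lit 7) (nat_lit 70212) (nat_lit 10) nil nil)) nil) (node
  (nat_lit 0) (nat_lit 70212) (nat_lit 8) nil nil))) (node (nat_lit 7) (nat_lit 0) (nat_lit 7)
  (node (nat_lit 5) (nat_lit 65580) (nat_lit 8) (node (nat_lit 4) (nat_lit 68295) (nat_lit 9)
  (node (nat_lit 7) (nat_lit 69830) (nat_lit 10) (node (nat_lit 4) (nat_lit 68425) (nat_lit 11)
  (node (nat_lit 5) (nat_lit 64731) (nat_lit 12) (node (nat_lit 4) (nat_lit 58171) (nat_lit 13)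
  (node (nat_lit 7) (nat_lit 48594) (nat_lit 14) nil nil) nil) nil) nil) nil) (node (nat_lit 7)
  (nat_lit 69972) (nat_lit 9) (node (nat_lit 4) (nat_lit 70212) (nat_lit 10) nil nil) nil)) (node
  (nat_lit 4) (nat_lit 67134) (nat_lit 8) (node (nat_lit 5) (nat_lit 69636) (nat_lit 9) (node
  (nat_lit 7) (nat_lit 70212) (nat_lit 10) nil nil) (node (nat_lit 8) (nat_lit 70212) (nat_lit 9)
  nil nil)) (node (nat_lit 0) (nat_lit 70212) (nat_lit 8) nil nil))) (node (nat_lit 5) (nat_lit 0)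
  (nat_lit 7) (node (nat_lit 7) (nat_lit 64837) (nat_lit 8) (node (nat_lit 4) (nat_lit 69228)
  (nat_lit 9) nil (node (nat_lit 5) (nat_lit 67339) (nat_lit 9) (node (nat_lit 4) (nat_lit 65544)
  (nat_lit 10) nil nil) nil)) (node (nat_lit 4) (nat_lit 66731) (nat_lit 8) (node (nat_lit 7)
  (nat_lit 70212) (nat_lit 9) (node (nat_lit 5) (nat_lit 69513) (nat_lit 10) nil nil) nil) (node
  (nat_lit 8) (nat_lit 70212) (nat_lit 8) nil (node (nat_lit 0) (nat_lit 70212) (nat_lit 8) nil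
  nil)))) (node (nat_lit 0) (nat_lit 70212) (nat_lit 7) nil nil)))) (node (nat_lit 7) (nat_lit 0)
  (nat_lit 6) (node (nat_lit 4) (nat_lit 0) (nat_lit 7) (node (nat_lit 5) (nat_lit 65755) (nat_lit
  8) (node (nat_lit 4) (nat_lit 70212) (nat_lit 9) (node (nat_lit 7) (nat_lit 70212) (nat_lit 10)
  (node (nat_lit 4) (nat_lit 70212) (nat_lit 11) (node (nat_lit 5) (nat_lit 70212) (nat_lit 12)
  nil nil) nil) nil) (node (nat_lit 7) (nat_lit 70148) (nat_lit 9) nil nil)) (node (nat_lit 7)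
  (nat_lit 64765) (nat_lit 8) (node (nat_lit 5) (nat_lit 65971) (nat_lit 9) (node (nat_lit 4)
  (nat_lit 64176) (nat_lit 10) nil (node (nat_lit 7) (nat_lit 64365) (nat_lit 10) (node (nat_lit
  4) (nat_lit 63059) (nat_lit 11) nil nil) nil)) (node (nat_lit 8) (nat_lit 70212) (nat_lit 9) nil
  nil)) (node (nat_lit 8) (nat_lit 70212) (nat_lit 8) nil (node (nat_lit 0) (nat_lit 70212)
  (nat_lit 8) nil nil)))) (node (nat_lit 5) (nat_lit 0) (nat_lit 7) (node (nat_lit 4) (nat_lit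
  66449) (nat_lit 8) (node (nat_lit 7) (nat_lit 68770) (nat_lit 9) nil (node (nat_lit 5) (nat_lit
  67139) (nat_lit 9) nil nil)) (node (nat_lit 7) (nat_lit 66333) (nat_lit 8) (node (nat_lit 4)
  (nat_lit 70212) (nat_lit 9) (node (nat_lit 5) (nat_lit 70212) (nat_lit 10) nil (node (nat_lit 7)
  (nat_lit 70212) (nat_lit 10) nil nil)) (node (nat_lit 8) (nat_lit 70212) (nat_lit 9) nil nil))
  (node (nat_lit 8) (nat_lit 70212) (nat_lit 8) nil (node (nat_lit 0) (nat_lit 64549) (nat_lit 8)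
  nil nil)))) (node (nat_lit 0) (nat_lit 70064) (nat_lit 7) nil nil))) (node (nat_lit 0) (nat_lit
  0) (nat_lit 6) (node (nat_lit 8) (nat_lit 0) (nat_lit 7) (node (nat_lit 7) (nat_lit 70212)
  (nat_lit 8) nil (node (nat_lit 5) (nat_lit 70212) (nat_lit 8) nil (node (nat_lit 4) (nat_lit
  70212) (nat_lit 8) nil (node (nat_lit 0) (nat_lit 70212) (nat_lit 8) nil nil)))) (node (nat_lit
  7) (nat_lit 0) (nat_lit 7) (node (nat_lit 9) (nat_lit 69850) (nat_lit 8) (node (nat_lit 8)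
  (nat_lit 70212) (nat_lit 9) nil nil) (node (nat_lit 0) (nat_lit 69850) (nat_lit 8) nil (node
  (nat_lit 5) (nat_lit 64343) (nat_lit 8) nil (node (nat_lit 4) (nat_lit 64343) (nat_lit 8) nil
  (node (nat_lit 8) (nat_lit 65947) (nat_lit 8) nil nil))))) (node (nat_lit 4) (nat_lit 66401)
  (nat_lit 7) (node (nat_lit 7) (nat_lit 66401) (nat_lit 8) nil (node (nat_lit 8) (nat_lit 68005)
  (nat_lit 8) nil (node (nat_lit 9) (nat_lit 68005) (nat_lit 8) nil nil))) (node (nat_lit 5)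
  (nat_lit 65174) (nat_lit 7) (node (nat_lit 7) (nat_lit 65174) (nat_lit 8) nil (node (nat_lit 8)
  (nat_lit 66777) (nat_lit 8) nil (node (nat_lit 9) (nat_lit 66777) (nat_lit 8) nil nil))) (node
  (nat_lit 0) (nat_lit 68996) (nat_lit 7) nil nil))))) nil)))) (node (nat_lit 5) (nat_lit 0)
  (nat_lit 5) (node (nat_lit 0) (nat_lit 0) (nat_lit 6) (node (nat_lit 5) (nat_lit 0) (nat_lit 7)
  (node (nat_lit 7) (nat_lit 57937) (nat_lit 8) (node (nat_lit 9) (nat_lit 70033) (nat_lit 9)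
  (node (nat_lit 5) (nat_lit 70024) (nat_lit 10) (node (nat_lit 9) (nat_lit 70212) (nat_lit 11)
  (node (nat_lit 7) (nat_lit 70212) (nat_lit 12) (node (nat_lit 5) (nat_lit 70212) (nat_lit 13)
  nil nil) nil) (node (nat_lit 4) (nat_lit 70024) (nat_lit 11) nil (node (nat_lit 0) (nat_lit
  70212) (nat_lit 11) nil nil))) (node (nat_lit 7) (nat_lit 70033) (nat_lit 10) nil nil)) (node
  (nat_lit 4) (nat_lit 64395) (nat_lit 9) (node (nat_lit 5) (nat_lit 67802) (nat_lit 10) (node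
  (nat_lit 4) (nat_lit 67734) (nat_lit 11) nil (node (nat_lit 7) (nat_lit 69262) (nat_lit 11) nil
  nil)) (node (nat_lit 7) (nat_lit 68602) (nat_lit 10) (node (nat_lit 5) (nat_lit 67396) (nat_lit
  11) nil (node (nat_lit 9) (nat_lit 70212) (nat_lit 11) nil nil)) (node (nat_lit 9) (nat_lit
  70212) (nat_lit 10) nil (node (nat_lit 0) (nat_lit 70212) (nat_lit 10) nil nil)))) (node
  (nat_lit 5) (nat_lit 63553) (nat_lit 9) (node (nat_lit 9) (nat_lit 70212) (nat_lit 10) (node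
  (nat_lit 7) (nat_lit 70212) (nat_lit 11) (node (nat_lit 5) (nat_lit 70212) (nat_lit 12) nil nil)
  nil) (node (nat_lit 4) (nat_lit 68338) (nat_lit 10) nil nil)) (node (nat_lit 0) (nat_lit 68179)
  (nat_lit 9) nil nil)))) (node (nat_lit 4) (nat_lit 58962) (nat_lit 8) (node (nat_lit 7) (nat_lit
  63745) (nat_lit 9) (node (nat_lit 4) (nat_lit 67884) (nat_lit 10) (node (nat_lit 5) (nat_lit
  69343) (nat_lit 11) nil nil) (node (nat_lit 5) (nat_lit 66305) (nat_lit 10) (node (nat_lit 7)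
  (nat_lit 65830) (nat_lit 11) nil (node (nat_lit 0) (nat_lit 69158) (nat_lit 11) nil (node
  (nat_lit 4) (nat_lit 67764) (nat_lit 11) nil nil))) (node (nat_lit 0) (nat_lit 70212) (nat_lit
  10) nil (node (nat_lit 9) (nat_lit 68103) (nat_lit 10) nil nil)))) (node (nat_lit 5) (nat_lit
  62787) (nat_lit 9) (node (nat_lit 7) (nat_lit 66547) (nat_lit 10) (node (nat_lit 9) (nat_lit
  69400) (nat_lit 11) nil nil) (node (nat_lit 9) (nat_lit 70212) (nat_lit 10) (node (nat_lit 4)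
  (nat_lit 70212) (nat_lit 11) nil nil) (node (nat_lit 0) (nat_lit 69720) (nat_lit 10) nil nil)))
  (node (nat_lit 9) (nat_lit 69689) (nat_lit 9) (node (nat_lit 4) (nat_lit 69689) (nat_lit 10) nil
  (node (nat_lit 5) (nat_lit 69689) (nat_lit 10) nil nil)) (node (nat_lit 0) (nat_lit 69104)
  (nat_lit 9) nil nil)))) (node (nat_lit 0) (nat_lit 65630) (nat_lit 8) (node (nat_lit 9) (nat_lit
  69306) (nat_lit 9) (node (nat_lit 5) (nat_lit 69306) (nat_lit 10) (node (nat_lit 9) (nat_lit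
  69890) (nat_lit 11) nil nil) (node (nat_lit 11) (nat_lit 69617) (nat_lit 10) nil nil)) (node
  (nat_lit 5) (nat_lit 65167) (nat_lit 9) (node (nat_lit 9) (nat_lit 67402) (nat_lit 10) nil nil)
  (node (nat_lit 7) (nat_lit 65630) (nat_lit 9) nil (node (nat_lit 0) (nat_lit 67828) (nat_lit 9)
  nil (node (nat_lit 4) (nat_lit 65630) (nat_lit 9) nil nil))))) nil))) (node (nat_lit 7) (nat_lit
  0) (nat_lit 7) (node (nat_lit 9) (nat_lit 65642) (nat_lit 8) (node (nat_lit 5) (nat_lit 66515)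
  (nat_lit 9) (node (nat_lit 9) (nat_lit 70212) (nat_lit 10) (node (nat_lit 7) (nat_lit 70212)
  (nat_lit 11) (node (nat_lit 5) (nat_lit 70212) (nat_lit 12) (node (nat_lit 7) (nat_lit 70212)
  (nat_lit 13) nil nil) (node (nat_lit 4) (nat_lit 70212) (nat_lit 12) nil nil)) nil) (node
  (nat_lit 7) (nat_lit 66515) (nat_lit 10) nil nil)) nil) (node (nat_lit 5) (nat_lit 57887)
  (nat_lit 8) (node (nat_lit 7) (nat_lit 61299) (nat_lit 9) (node (nat_lit 9) (nat_lit 68231)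
  (nat_lit 10) nil nil) (node (nat_lit 4) (nat_lit 58259) (nat_lit 9) nil nil)) (node (nat_lit 4)
  (nat_lit 58650) (nat_lit 8) (node (nat_lit 5) (nat_lit 61161) (nat_lit 9) (node (nat_lit 4)
  (nat_lit 61544) (nat_lit 10) nil (node (nat_lit 7) (nat_lit 62939) (nat_lit 10) nil nil)) (node
  (nat_lit 7) (nat_lit 59021) (nat_lit 9) nil (node (nat_lit 9) (nat_lit 62697) (nat_lit 9) nil
  nil))) (node (nat_lit 0) (nat_lit 62779) (nat_lit 8) nil nil)))) (node (nat_lit 4) (nat_lit 0)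
  (nat_lit 7) (node (nat_lit 5) (nat_lit 58964) (nat_lit 8) (node (nat_lit 4) (nat_lit 61657)
  (nat_lit 9) (node (nat_lit 9) (nat_lit 68590) (nat_lit 10) nil nil) (node (nat_lit 7) (nat_lit
  62000) (nat_lit 9) nil nil)) (node (nat_lit 7) (nat_lit 58600) (nat_lit 8) (node (nat_lit 5)
  (nat_lit 59153) (nat_lit 9) nil (node (nat_lit 4) (nat_lit 61043) (nat_lit 9) nil nil)) (node
  (nat_lit 9) (nat_lit 66577) (nat_lit 8) (node (nat_lit 5) (nat_lit 66173) (nat_lit 9) (node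
  (nat_lit 9) (nat_lit 68409) (nat_lit 10) nil nil) nil) (node (nat_lit 0) (nat_lit 63157)
  (nat_lit 8) nil nil)))) (node (nat_lit 0) (nat_lit 60453) (nat_lit 7) (node (nat_lit 5) (nat_lit
  62756) (nat_lit 8) (node (nat_lit 9) (nat_lit 70102) (nat_lit 9) (node (nat_lit 5) (nat_lit
  70102) (nat_lit 10) nil nil) (node (nat_lit 10) (nat_lit 67077) (nat_lit 9) nil nil)) (node
  (nat_lit 9) (nat_lit 65986) (nat_lit 8) (node (nat_lit 5) (nat_lit 65986) (nat_lit 9) (node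
  (nat_lit 9) (nat_lit 67107) (nat_lit 10) nil nil) nil) (node (nat_lit 7) (nat_lit 60453)
  (nat_lit 8) nil (node (nat_lit 4) (nat_lit 60453) (nat_lit 8) nil nil)))) nil)))) (node (nat_lit
  7) (nat_lit 0) (nat_lit 6) (node (nat_lit 0) (nat_lit 0) (nat_lit 7) (node (nat_lit 5) (nat_lit
  51974) (nat_lit 8) (node (nat_lit 7) (nat_lit 56329) (nat_lit 9) (node (nat_lit 5) (nat_lit
  61463) (nat_lit 10) (node (nat_lit 10) (nat_lit 69070) (nat_lit 11) (node (nat_lit 7) (nat_lit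
  69070) (nat_lit 12) (node (nat_lit 5) (nat_lit 69070) (nat_lit 13) nil nil) (node (nat_lit 5)
  (nat_lit 69070) (nat_lit 12) nil nil)) (node (nat_lit 4) (nat_lit 66236) (nat_lit 11) (node
  (nat_lit 7) (nat_lit 67042) (nat_lit 12) (node (nat_lit 4) (nat_lit 66427) (nat_lit 13) nil nil)
  (node (nat_lit 5) (nat_lit 66699) (nat_lit 12) nil (node (nat_lit 10) (nat_lit 67877) (nat_lit
  12) nil nil))) (node (nat_lit 0) (nat_lit 68264) (nat_lit 11) nil nil))) (node (nat_lit 4)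
  (nat_lit 61956) (nat_lit 10) (node (nat_lit 5) (nat_lit 64869) (nat_lit 11) (node (nat_lit 10)
  (nat_lit 66511) (nat_lit 12) nil (node (nat_lit 4) (nat_lit 64154) (nat_lit 12) nil nil)) (node
  (nat_lit 7) (nat_lit 63901) (nat_lit 11) nil (node (nat_lit 10) (nat_lit 67894) (nat_lit 11) nil
  (node (nat_lit 0) (nat_lit 66398) (nat_lit 11) nil nil)))) (node (nat_lit 0) (nat_lit 64884)
  (nat_lit 10) nil nil))) (node (nat_lit 10) (nat_lit 62045) (nat_lit 9) (node (nat_lit 7)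
  (nat_lit 62045) (nat_lit 10) nil nil) nil)) (node (nat_lit 7) (nat_lit 52272) (nat_lit 8) (node
  (nat_lit 5) (nat_lit 56694) (nat_lit 9) (node (nat_lit 10) (nat_lit 65904) (nat_lit 10) (node
  (nat_lit 5) (nat_lit 65904) (nat_lit 11) (node (nat_lit 7) (nat_lit 66560) (nat_lit 12) (node
  (nat_lit 10) (nat_lit 67282) (nat_lit 13) nil nil) nil) nil) nil) nil) (node (nat_lit 4)
  (nat_lit 49409) (nat_lit 8) nil (node (nat_lit 0) (nat_lit 54505) (nat_lit 8) nil nil)))) nil)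
  (node (nat_lit 4) (nat_lit 0) (nat_lit 6) (node (nat_lit 0) (nat_lit 0) (nat_lit 7) (node
  (nat_lit 5) (nat_lit 58507) (nat_lit 8) (node (nat_lit 4) (nat_lit 62953) (nat_lit 9) (node
  (nat_lit 7) (nat_lit 66928) (nat_lit 10) (node (nat_lit 5) (nat_lit 69741) (nat_lit 11) nil
  (node (nat_lit 4) (nat_lit 69820) (nat_lit 11) nil (node (nat_lit 10) (nat_lit 70212) (nat_lit
  11) nil nil))) (node (nat_lit 5) (nat_lit 66163) (nat_lit 10) (node (nat_lit 7) (nat_lit 69055)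
  (nat_lit 11) nil (node (nat_lit 10) (nat_lit 70212) (nat_lit 11) (node (nat_lit 5) (nat_lit
  70212) (nat_lit 12) nil nil) (node (nat_lit 0) (nat_lit 69016) (nat_lit 11) nil nil))) (node
  (nat_lit 0) (nat_lit 70024) (nat_lit 10) nil nil))) (node (nat_lit 7) (nat_lit 58507) (nat_lit
  9) nil nil)) (node (nat_lit 4) (nat_lit 58706) (nat_lit 8) (node (nat_lit 5) (nat_lit 60420)
  (nat_lit 9) (node (nat_lit 10) (nat_lit 68596) (nat_lit 10) (node (nat_lit 5) (nat_lit 68596)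
  (nat_lit 11) (node (nat_lit 4) (nat_lit 68596) (nat_lit 12) nil nil) nil) nil) nil) (node
  (nat_lit 7) (nat_lit 58361) (nat_lit 8) (node (nat_lit 4) (nat_lit 57887) (nat_lit 9) nil nil)
  (node (nat_lit 0) (nat_lit 60742) (nat_lit 8) nil nil)))) nil) nil))) (node (nat_lit 4) (nat_lit
  0) (nat_lit 5) (node (nat_lit 0) (nat_lit 0) (nat_lit 6) (node (nat_lit 4) (nat_lit 0) (nat_lit
  7) (node (nat_lit 7) (nat_lit 42290) (nat_lit 8) (node (nat_lit 9) (nat_lit 49987) (nat_lit 9)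
  (node (nat_lit 4) (nat_lit 50260) (nat_lit 10) (node (nat_lit 9) (nat_lit 51854) (nat_lit 11)
  (node (nat_lit 7) (nat_lit 51854) (nat_lit 12) (node (nat_lit 4) (nat_lit 51854) (nat_lit 13)
  (node (nat_lit 7) (nat_lit 51623) (nat_lit 14) nil nil) (node (nat_lit 9) (nat_lit 52304)
  (nat_lit 13) nil nil)) nil) (node (nat_lit 5) (nat_lit 50517) (nat_lit 11) (node (nat_lit 4)
  (nat_lit 50517) (nat_lit 12) nil nil) (node (nat_lit 0) (nat_lit 51384) (nat_lit 11) nil nil)))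
  (node (nat_lit 7) (nat_lit 49987) (nat_lit 10) (node (nat_lit 4) (nat_lit 49987) (nat_lit 11)
  nil nil) nil)) (node (nat_lit 5) (nat_lit 44417) (nat_lit 9) (node (nat_lit 4) (nat_lit 47237)
  (nat_lit 10) (node (nat_lit 5) (nat_lit 46576) (nat_lit 11) nil nil) (node (nat_lit 7) (nat_lit
  47297) (nat_lit 10) nil (node (nat_lit 9) (nat_lit 48775) (nat_lit 10) nil (node (nat_lit 0)
  (nat_lit 50198) (nat_lit 10) nil nil)))) (node (nat_lit 4) (nat_lit 44144) (nat_lit 9) (node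
  (nat_lit 5) (nat_lit 46742) (nat_lit 10) nil nil) (node (nat_lit 0) (nat_lit 49613) (nat_lit 9)
  nil nil)))) (node (nat_lit 5) (nat_lit 41983) (nat_lit 8) (node (nat_lit 7) (nat_lit 43382)
  (nat_lit 9) (node (nat_lit 5) (nat_lit 46515) (nat_lit 10) nil (node (nat_lit 4) (nat_lit 45573)
  (nat_lit 10) (node (nat_lit 7) (nat_lit 47033) (nat_lit 11) nil nil) (node (nat_lit 9) (nat_lit
  49164) (nat_lit 10) nil (node (nat_lit 0) (nat_lit 49164) (nat_lit 10) nil nil)))) (node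
  (nat_lit 4) (nat_lit 44516) (nat_lit 9) (node (nat_lit 7) (nat_lit 47397) (nat_lit 10) nil (node
  (nat_lit 9) (nat_lit 50837) (nat_lit 10) (node (nat_lit 5) (nat_lit 50837) (nat_lit 11) nil nil)
  (node (nat_lit 0) (nat_lit 48874) (nat_lit 10) nil nil))) (node (nat_lit 9) (nat_lit 49987)
  (nat_lit 9) (node (nat_lit 5) (nat_lit 49987) (nat_lit 10) nil (node (nat_lit 4) (nat_lit 49987)
  (nat_lit 10) nil nil)) (node (nat_lit 0) (nat_lit 49987) (nat_lit 9) nil nil)))) (node (nat_lit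
  0) (nat_lit 48201) (nat_lit 8) (node (nat_lit 9) (nat_lit 49987) (nat_lit 9) (node (nat_lit 4)
  (nat_lit 49987) (nat_lit 10) (node (nat_lit 9) (nat_lit 50571) (nat_lit 11) nil nil) nil) (node
  (nat_lit 4) (nat_lit 48574) (nat_lit 9) (node (nat_lit 9) (nat_lit 50298) (nat_lit 10) nil nil)
  (node (nat_lit 0) (nat_lit 49613) (nat_lit 9) nil (node (nat_lit 7) (nat_lit 48201) (nat_lit 9)
  nil (node (nat_lit 5) (nat_lit 48201) (nat_lit 9) nil nil))))) nil))) (node (nat_lit 7) (nat_lit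
  0) (nat_lit 7) (node (nat_lit 9) (nat_lit 47921) (nat_lit 8) (node (nat_lit 4) (nat_lit 48294)
  (nat_lit 9) (node (nat_lit 9) (nat_lit 50848) (nat_lit 10) (node (nat_lit 7) (nat_lit 50631)
  (nat_lit 11) (node (nat_lit 4) (nat_lit 50839) (nat_lit 12) (node (nat_lit 7) (nat_lit 51257)
  (nat_lit 13) (node (nat_lit 9) (nat_lit 52461) (nat_lit 14) nil (node (nat_lit 5) (nat_lit
  51505) (nat_lit 14) nil nil)) (node (nat_lit 9) (nat_lit 52187) (nat_lit 13) (node (nat_lit 4)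
  (nat_lit 52187) (nat_lit 14) nil nil) (node (nat_lit 5) (nat_lit 50839) (nat_lit 13) nil nil)))
  (node (nat_lit 5) (nat_lit 50631) (nat_lit 12) nil (node (nat_lit 0) (nat_lit 51153) (nat_lit
  12) nil nil))) nil) nil) nil) (node (nat_lit 4) (nat_lit 41503) (nat_lit 8) (node (nat_lit 7)
  (nat_lit 43067) (nat_lit 9) (node (nat_lit 9) (nat_lit 49795) (nat_lit 10) (node (nat_lit 4)
  (nat_lit 49795) (nat_lit 11) nil nil) nil) (node (nat_lit 5) (nat_lit 43035) (nat_lit 9) nil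
  nil)) (node (nat_lit 5) (nat_lit 40830) (nat_lit 8) (node (nat_lit 4) (nat_lit 41708) (nat_lit
  9) (node (nat_lit 5) (nat_lit 40631) (nat_lit 10) nil nil) (node (nat_lit 7) (nat_lit 40830)
  (nat_lit 9) nil nil)) (node (nat_lit 0) (nat_lit 45006) (nat_lit 8) nil nil)))) (node (nat_lit
  5) (nat_lit 38861) (nat_lit 7) (node (nat_lit 4) (nat_lit 41434) (nat_lit 8) (node (nat_lit 5)
  (nat_lit 43559) (nat_lit 9) (node (nat_lit 9) (nat_lit 49341) (nat_lit 10) nil nil) (node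
  (nat_lit 7) (nat_lit 41434) (nat_lit 9) nil nil)) (node (nat_lit 7) (nat_lit 39488) (nat_lit 8)
  (node (nat_lit 4) (nat_lit 41020) (nat_lit 9) nil nil) (node (nat_lit 9) (nat_lit 47603)
  (nat_lit 8) (node (nat_lit 4) (nat_lit 47603) (nat_lit 9) (node (nat_lit 9) (nat_lit 49327)
  (nat_lit 10) nil nil) nil) nil))) (node (nat_lit 0) (nat_lit 44843) (nat_lit 7) (node (nat_lit
  4) (nat_lit 45320) (nat_lit 8) (node (nat_lit 9) (nat_lit 49333) (nat_lit 9) (node (nat_lit 4)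
  (nat_lit 49333) (nat_lit 10) nil nil) (node (nat_lit 10) (nat_lit 47589) (nat_lit 9) nil nil))
  (node (nat_lit 9) (nat_lit 47921) (nat_lit 8) (node (nat_lit 4) (nat_lit 47921) (nat_lit 9)
  (node (nat_lit 9) (nat_lit 49042) (nat_lit 10) nil nil) nil) nil)) nil)))) (node (nat_lit 5)
  (nat_lit 0) (nat_lit 6) (node (nat_lit 0) (nat_lit 0) (nat_lit 7) (node (nat_lit 4) (nat_lit
  43102) (nat_lit 8) (node (nat_lit 5) (nat_lit 44662) (nat_lit 9) (node (nat_lit 4) (nat_lit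
  46687) (nat_lit 10) (node (nat_lit 7) (nat_lit 48934) (nat_lit 11) nil (node (nat_lit 10)
  (nat_lit 51231) (nat_lit 11) (node (nat_lit 4) (nat_lit 51231) (nat_lit 12) nil nil) (node
  (nat_lit 0) (nat_lit 50400) (nat_lit 11) nil nil))) (node (nat_lit 7) (nat_lit 46103) (nat_lit
  10) (node (nat_lit 5) (nat_lit 47883) (nat_lit 11) nil (node (nat_lit 4) (nat_lit 48126)
  (nat_lit 11) nil (node (nat_lit 10) (nat_lit 50648) (nat_lit 11) nil nil))) (node (nat_lit 0)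
  (nat_lit 50045) (nat_lit 10) nil nil))) (node (nat_lit 7) (nat_lit 43102) (nat_lit 9) nil nil))
  (node (nat_lit 5) (nat_lit 42000) (nat_lit 8) (node (nat_lit 4) (nat_lit 42156) (nat_lit 9)
  (node (nat_lit 10) (nat_lit 46160) (nat_lit 10) (node (nat_lit 4) (nat_lit 46160) (nat_lit 11)
  nil nil) nil) nil) (node (nat_lit 7) (nat_lit 42000) (nat_lit 8) (node (nat_lit 5) (nat_lit
  41933) (nat_lit 9) nil nil) (node (nat_lit 0) (nat_lit 45705) (nat_lit 8) nil nil)))) nil) nil))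
  nil)))

noncomputable def c36 : Tr :=
  (node (nat_lit 3) (nat_lit 0) (nat_lit 1) (node (nat_lit 3) (nat_lit 0) (nat_lit 2) (node
  (nat_lit 3) (nat_lit 0) (nat_lit 3) (node (nat_lit 4) (nat_lit 0) (nat_lit 4) t414 (node
  (nat_lit 5) (nat_lit 0) (nat_lit 4) t415 (node (nat_lit 0) (nat_lit 0) (nat_lit 4) (node
  (nat_lit 5) (nat_lit 0) (nat_lit 5) (node (nat_lit 4) (nat_lit 0) (nat_lit 6) (node (nat_lit 6)
  (nat_lit 0) (nat_lit 7) (node (nat_lit 5) (nat_lit 104370) (nat_lit 8) (node (nat_lit 6)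
  (nat_lit 103252) (nat_lit 9) (node (nat_lit 4) (nat_lit 98378) (nat_lit 10) (node (nat_lit 5)
  (nat_lit 80094) (nat_lit 11) nil nil) nil) (node (nat_lit 4) (nat_lit 108029) (nat_lit 9) nil
  nil)) (node (nat_lit 4) (nat_lit 105069) (nat_lit 8) (node (nat_lit 5) (nat_lit 108189) (nat_lit
  9) nil (node (nat_lit 7) (nat_lit 112579) (nat_lit 9) nil nil)) (node (nat_lit 7) (nat_lit
  111893) (nat_lit 8) nil (node (nat_lit 0) (nat_lit 108042) (nat_lit 8) nil nil)))) (node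
  (nat_lit 5) (nat_lit 95754) (nat_lit 7) (node (nat_lit 6) (nat_lit 103109) (nat_lit 8) (node
  (nat_lit 5) (nat_lit 98648) (nat_lit 9) nil (node (nat_lit 4) (nat_lit 106768) (nat_lit 9) nil
  nil)) (node (nat_lit 7) (nat_lit 108283) (nat_lit 8) nil nil)) (node (nat_lit 7) (nat_lit
  114097) (nat_lit 7) nil (node (nat_lit 0) (nat_lit 97416) (nat_lit 7) nil nil)))) (node (nat_lit
  6) (nat_lit 0) (nat_lit 6) (node (nat_lit 4) (nat_lit 0) (nat_lit 7) (node (nat_lit 6) (nat_lit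
  106160) (nat_lit 8) (node (nat_lit 5) (nat_lit 109128) (nat_lit 9) (node (nat_lit 4) (nat_lit
  97579) (nat_lit 10) (node (nat_lit 5) (nat_lit 90940) (nat_lit 11) nil nil) (node (nat_lit 6)
  (nat_lit 105055) (nat_lit 10) nil nil)) nil) (node (nat_lit 5) (nat_lit 106786) (nat_lit 8)
  (node (nat_lit 4) (nat_lit 110778) (nat_lit 9) (node (nat_lit 6) (nat_lit 105924) (nat_lit 10)
  nil nil) (node (nat_lit 6) (nat_lit 108260) (nat_lit 9) nil nil)) (node (nat_lit 7) (nat_lit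
  109097) (nat_lit 8) nil (node (nat_lit 0) (nat_lit 109097) (nat_lit 8) nil nil)))) (node
  (nat_lit 5) (nat_lit 96771) (nat_lit 7) (node (nat_lit 4) (nat_lit 105066) (nat_lit 8) (node
  (nat_lit 6) (nat_lit 105455) (nat_lit 9) nil (node (nat_lit 5) (nat_lit 108725) (nat_lit 9) nil
  nil)) (node (nat_lit 7) (nat_lit 115162) (nat_lit 8) nil nil)) (node (nat_lit 0) (nat_lit 98063)
  (nat_lit 7) nil nil))) (node (nat_lit 7) (nat_lit 108688) (nat_lit 6) (node (nat_lit 6) (nat_lit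
  108688) (nat_lit 7) (node (nat_lit 4) (nat_lit 108688) (nat_lit 8) nil (node (nat_lit 5)
  (nat_lit 108688) (nat_lit 8) nil nil)) (node (nat_lit 4) (nat_lit 108688) (nat_lit 7) (node
  (nat_lit 6) (nat_lit 108688) (nat_lit 8) nil (node (nat_lit 5) (nat_lit 108688) (nat_lit 8) nil
  nil)) nil)) (node (nat_lit 0) (nat_lit 105796) (nat_lit 6) nil nil)))) (node (nat_lit 4)
  (nat_lit 0) (nat_lit 5) (node (nat_lit 6) (nat_lit 0) (nat_lit 6) (node (nat_lit 5) (nat_lit 0)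
  (nat_lit 7) (node (nat_lit 6) (nat_lit 106536) (nat_lit 8) (node (nat_lit 4) (nat_lit 111546)
  (nat_lit 9) nil nil) (node (nat_lit 4) (nat_lit 106099) (nat_lit 8) (node (nat_lit 5) (nat_lit
  111109) (nat_lit 9) nil (node (nat_lit 6) (nat_lit 105546) (nat_lit 9) nil nil)) (node (nat_lit
  7) (nat_lit 109755) (nat_lit 8) nil (node (nat_lit 0) (nat_lit 109755) (nat_lit 8) nil nil))))
  (node (nat_lit 4) (nat_lit 96101) (nat_lit 7) (node (nat_lit 5) (nat_lit 103643) (nat_lit 8)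
  (node (nat_lit 4) (nat_lit 103423) (nat_lit 9) nil (node (nat_lit 6) (nat_lit 103765) (nat_lit
  9) nil nil)) (node (nat_lit 7) (nat_lit 108630) (nat_lit 8) nil nil)) (node (nat_lit 7) (nat_lit
  104388) (nat_lit 7) nil (node (nat_lit 0) (nat_lit 97658) (nat_lit 7) nil nil)))) (node (nat_lit
  5) (nat_lit 0) (nat_lit 6) (node (nat_lit 6) (nat_lit 0) (nat_lit 7) (node (nat_lit 5) (nat_lit
  106582) (nat_lit 8) (node (nat_lit 4) (nat_lit 112299) (nat_lit 9) (node (nat_lit 6) (nat_lit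
  112453) (nat_lit 10) nil nil) nil) (node (nat_lit 4) (nat_lit 105971) (nat_lit 8) (node (nat_lit
  6) (nat_lit 108829) (nat_lit 9) (node (nat_lit 5) (nat_lit 106368) (nat_lit 10) nil nil) (node
  (nat_lit 5) (nat_lit 109091) (nat_lit 9) nil nil)) (node (nat_lit 0) (nat_lit 108313) (nat_lit
  8) nil nil))) (node (nat_lit 4) (nat_lit 95954) (nat_lit 7) (node (nat_lit 6) (nat_lit 105116)
  (nat_lit 8) (node (nat_lit 5) (nat_lit 100207) (nat_lit 9) nil (node (nat_lit 4) (nat_lit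
  108775) (nat_lit 9) nil nil)) (node (nat_lit 7) (nat_lit 108483) (nat_lit 8) nil nil)) (node
  (nat_lit 7) (nat_lit 112120) (nat_lit 7) nil (node (nat_lit 0) (nat_lit 96826) (nat_lit 7) nil
  nil)))) (node (nat_lit 7) (nat_lit 107711) (nat_lit 6) (node (nat_lit 6) (nat_lit 106490)
  (nat_lit 7) (node (nat_lit 5) (nat_lit 106490) (nat_lit 8) nil (node (nat_lit 4) (nat_lit
  106490) (nat_lit 8) nil nil)) (node (nat_lit 5) (nat_lit 107711) (nat_lit 7) (node (nat_lit 6)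
  (nat_lit 107711) (nat_lit 8) nil nil) nil)) (node (nat_lit 0) (nat_lit 104323) (nat_lit 6) nil
  nil)))) (node (nat_lit 6) (nat_lit 0) (nat_lit 5) (node (nat_lit 5) (nat_lit 0) (nat_lit 6)
  (node (nat_lit 4) (nat_lit 0) (nat_lit 7) (node (nat_lit 5) (nat_lit 106596) (nat_lit 8) (node
  (nat_lit 6) (nat_lit 111197) (nat_lit 9) (node (nat_lit 7) (nat_lit 77325) (nat_lit 10) nil
  (node (nat_lit 4) (nat_lit 112917) (nat_lit 10) nil nil)) nil) (node (nat_lit 6) (nat_lit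
  106580) (nat_lit 8) (node (nat_lit 4) (nat_lit 111591) (nat_lit 9) nil (node (nat_lit 5)
  (nat_lit 106360) (nat_lit 9) nil nil)) (node (nat_lit 7) (nat_lit 109021) (nat_lit 8) nil (node
  (nat_lit 0) (nat_lit 109021) (nat_lit 8) nil nil)))) (node (nat_lit 6) (nat_lit 96409) (nat_lit
  7) (node (nat_lit 4) (nat_lit 102204) (nat_lit 8) (node (nat_lit 5) (nat_lit 105863) (nat_lit 9)
  nil (node (nat_lit 6) (nat_lit 102327) (nat_lit 9) nil nil)) (node (nat_lit 7) (nat_lit 108939)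
  (nat_lit 8) nil nil)) (node (nat_lit 7) (nat_lit 112490) (nat_lit 7) nil (node (nat_lit 0)
  (nat_lit 97608) (nat_lit 7) nil nil)))) (node (nat_lit 4) (nat_lit 0) (nat_lit 6) (node (nat_lit
  5) (nat_lit 0) (nat_lit 7) (node (nat_lit 6) (nat_lit 105729) (nat_lit 8) (node (nat_lit 5)
  (nat_lit 105445) (nat_lit 9) (node (nat_lit 4) (nat_lit 96187) (nat_lit 10) nil nil) (node
  (nat_lit 4) (nat_lit 110740) (nat_lit 9) nil (node (nat_lit 7) (nat_lit 37460) (nat_lit 9) nil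
  nil))) (node (nat_lit 4) (nat_lit 104936) (nat_lit 8) (node (nat_lit 6) (nat_lit 106856)
  (nat_lit 9) (node (nat_lit 5) (nat_lit 105415) (nat_lit 10) nil (node (nat_lit 4) (nat_lit
  108359) (nat_lit 10) nil nil)) nil) (node (nat_lit 7) (nat_lit 107841) (nat_lit 8) nil (node
  (nat_lit 0) (nat_lit 107841) (nat_lit 8) nil nil)))) (node (nat_lit 6) (nat_lit 94770) (nat_lit
  7) (node (nat_lit 5) (nat_lit 104099) (nat_lit 8) (node (nat_lit 4) (nat_lit 103879) (nat_lit 9)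
  nil (node (nat_lit 6) (nat_lit 99638) (nat_lit 9) nil nil)) (node (nat_lit 7) (nat_lit 107300)
  (nat_lit 8) nil nil)) (node (nat_lit 7) (nat_lit 112322) (nat_lit 7) nil (node (nat_lit 0)
  (nat_lit 96956) (nat_lit 7) nil nil)))) (node (nat_lit 0) (nat_lit 93574) (nat_lit 6) nil nil)))
  (node (nat_lit 0) (nat_lit 0) (nat_lit 5) (node (nat_lit 5) (nat_lit 94208) (nat_lit 6) nil
  (node (nat_lit 4) (nat_lit 97135) (nat_lit 6) nil (node (nat_lit 6) (nat_lit 94163) (nat_lit 6)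
  nil (node (nat_lit 0) (nat_lit 103675) (nat_lit 6) nil (node (nat_lit 7) (nat_lit 103675)
  (nat_lit 6) nil nil))))) nil)))) nil))) (node (nat_lit 4) (nat_lit 0) (nat_lit 3) (node (nat_lit
  3) (nat_lit 0) (nat_lit 4) t416 (node (nat_lit 0) (nat_lit 0) (nat_lit 4) (node (nat_lit 5)
  (nat_lit 0) (nat_lit 5) (node (nat_lit 3) (nat_lit 52470) (nat_lit 6) (node (nat_lit 4) (nat_lit
  0) (nat_lit 7) (node (nat_lit 5) (nat_lit 67434) (nat_lit 8) (node (nat_lit 4) (nat_lit 70212)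
  (nat_lit 9) (node (nat_lit 7) (nat_lit 25621) (nat_lit 10) nil nil) (node (nat_lit 9) (nat_lit
  69383) (nat_lit 9) nil nil)) (node (nat_lit 9) (nat_lit 66657) (nat_lit 8) (node (nat_lit 5)
  (nat_lit 68881) (nat_lit 9) (node (nat_lit 4) (nat_lit 67087) (nat_lit 10) nil nil) nil) (node
  (nat_lit 7) (nat_lit 67689) (nat_lit 8) nil (node (nat_lit 0) (nat_lit 67689) (nat_lit 8) nil
  nil)))) (node (nat_lit 5) (nat_lit 60232) (nat_lit 7) (node (nat_lit 4) (nat_lit 65279) (nat_lit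
  8) (node (nat_lit 5) (nat_lit 63526) (nat_lit 9) nil (node (nat_lit 9) (nat_lit 64190) (nat_lit
  9) nil nil)) (node (nat_lit 7) (nat_lit 67154) (nat_lit 8) nil nil)) (node (nat_lit 7) (nat_lit
  70212) (nat_lit 7) nil nil))) (node (nat_lit 4) (nat_lit 53116) (nat_lit 6) (node (nat_lit 3)
  (nat_lit 0) (nat_lit 7) (node (nat_lit 4) (nat_lit 66411) (nat_lit 8) (node (nat_lit 5) (nat_lit
  67821) (nat_lit 9) nil nil) (node (nat_lit 5) (nat_lit 66928) (nat_lit 8) (node (nat_lit 10)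
  (nat_lit 67857) (nat_lit 9) (node (nat_lit 4) (nat_lit 65230) (nat_lit 10) (node (nat_lit 5)
  (nat_lit 57953) (nat_lit 11) nil nil) nil) (node (nat_lit 4) (nat_lit 68877) (nat_lit 9) nil
  nil)) (node (nat_lit 7) (nat_lit 67499) (nat_lit 8) nil (node (nat_lit 0) (nat_lit 67499)
  (nat_lit 8) nil nil)))) (node (nat_lit 5) (nat_lit 60679) (nat_lit 7) (node (nat_lit 3) (nat_lit
  65768) (nat_lit 8) (node (nat_lit 4) (nat_lit 67717) (nat_lit 9) nil nil) (node (nat_lit 7)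
  (nat_lit 67601) (nat_lit 8) nil nil)) nil)) (node (nat_lit 7) (nat_lit 68129) (nat_lit 6) (node
  (nat_lit 4) (nat_lit 68402) (nat_lit 7) (node (nat_lit 3) (nat_lit 68402) (nat_lit 8) nil (node
  (nat_lit 5) (nat_lit 68402) (nat_lit 8) nil nil)) (node (nat_lit 3) (nat_lit 68129) (nat_lit 7)
  (node (nat_lit 4) (nat_lit 68129) (nat_lit 8) nil (node (nat_lit 5) (nat_lit 68129) (nat_lit 8)
  nil nil)) nil)) (node (nat_lit 0) (nat_lit 65783) (nat_lit 6) nil nil)))) (node (nat_lit 3)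
  (nat_lit 0) (nat_lit 5) (node (nat_lit 5) (nat_lit 52643) (nat_lit 6) (node (nat_lit 4) (nat_lit
  0) (nat_lit 7) (node (nat_lit 5) (nat_lit 68130) (nat_lit 8) (node (nat_lit 8) (nat_lit 69087)
  (nat_lit 9) (node (nat_lit 4) (nat_lit 61923) (nat_lit 10) nil nil) nil) (node (nat_lit 8)
  (nat_lit 68225) (nat_lit 8) (node (nat_lit 4) (nat_lit 70174) (nat_lit 9) nil (node (nat_lit 5)
  (nat_lit 67823) (nat_lit 9) nil nil)) (node (nat_lit 7) (nat_lit 68284) (nat_lit 8) nil (node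
  (nat_lit 0) (nat_lit 68284) (nat_lit 8) nil nil)))) (node (nat_lit 8) (nat_lit 60525) (nat_lit
  7) (node (nat_lit 4) (nat_lit 65615) (nat_lit 8) (node (nat_lit 5) (nat_lit 67564) (nat_lit 9)
  nil nil) (node (nat_lit 7) (nat_lit 67448) (nat_lit 8) nil nil)) (node (nat_lit 7) (nat_lit
  69492) (nat_lit 7) nil nil))) (node (nat_lit 4) (nat_lit 52589) (nat_lit 6) (node (nat_lit 5)
  (nat_lit 0) (nat_lit 7) (node (nat_lit 4) (nat_lit 67301) (nat_lit 8) (node (nat_lit 8) (nat_lit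
  69191) (nat_lit 9) (node (nat_lit 4) (nat_lit 70212) (nat_lit 10) nil nil) nil) (node (nat_lit
  8) (nat_lit 67711) (nat_lit 8) (node (nat_lit 5) (nat_lit 69660) (nat_lit 9) nil nil) (node
  (nat_lit 7) (nat_lit 68043) (nat_lit 8) nil (node (nat_lit 0) (nat_lit 68043) (nat_lit 8) nil
  nil)))) (node (nat_lit 8) (nat_lit 59512) (nat_lit 7) (node (nat_lit 5) (nat_lit 64039) (nat_lit
  8) (node (nat_lit 8) (nat_lit 58180) (nat_lit 9) nil (node (nat_lit 4) (nat_lit 62286) (nat_lit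
  9) nil nil)) (node (nat_lit 7) (nat_lit 66434) (nat_lit 8) nil nil)) (node (nat_lit 7) (nat_lit
  65536) (nat_lit 7) nil nil))) (node (nat_lit 7) (nat_lit 67609) (nat_lit 6) (node (nat_lit 4)
  (nat_lit 67609) (nat_lit 7) (node (nat_lit 5) (nat_lit 67609) (nat_lit 8) nil (node (nat_lit 8)
  (nat_lit 67609) (nat_lit 8) nil nil)) (node (nat_lit 5) (nat_lit 67609) (nat_lit 7) (node
  (nat_lit 4) (nat_lit 67609) (nat_lit 8) nil nil) nil)) (node (nat_lit 0) (nat_lit 65597)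
  (nat_lit 6) nil nil)))) (node (nat_lit 4) (nat_lit 0) (nat_lit 5) (node (nat_lit 5) (nat_lit
  54537) (nat_lit 6) (node (nat_lit 3) (nat_lit 0) (nat_lit 7) (node (nat_lit 5) (nat_lit 67471)
  (nat_lit 8) (node (nat_lit 4) (nat_lit 67232) (nat_lit 9) (node (nat_lit 10) (nat_lit 66607)
  (nat_lit 10) nil nil) nil) (node (nat_lit 4) (nat_lit 68906) (nat_lit 8) (node (nat_lit 10)
  (nat_lit 70212) (nat_lit 9) nil nil) (node (nat_lit 7) (nat_lit 69073) (nat_lit 8) nil (node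
  (nat_lit 0) (nat_lit 69073) (nat_lit 8) nil nil)))) (node (nat_lit 4) (nat_lit 62043) (nat_lit
  7) (node (nat_lit 3) (nat_lit 68097) (nat_lit 8) (node (nat_lit 5) (nat_lit 66344) (nat_lit 9)
  nil nil) nil) (node (nat_lit 7) (nat_lit 67483) (nat_lit 7) nil nil))) (node (nat_lit 3)
  (nat_lit 54672) (nat_lit 6) (node (nat_lit 5) (nat_lit 62985) (nat_lit 7) (node (nat_lit 4)
  (nat_lit 68170) (nat_lit 8) (node (nat_lit 5) (nat_lit 70212) (nat_lit 9) (node (nat_lit 9)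
  (nat_lit 67339) (nat_lit 10) nil nil) (node (nat_lit 9) (nat_lit 64231) (nat_lit 9) nil nil))
  (node (nat_lit 9) (nat_lit 68075) (nat_lit 8) (node (nat_lit 4) (nat_lit 70024) (nat_lit 9) nil
  nil) (node (nat_lit 7) (nat_lit 69908) (nat_lit 8) nil nil))) (node (nat_lit 4) (nat_lit 62548)
  (nat_lit 7) (node (nat_lit 5) (nat_lit 68576) (nat_lit 8) (node (nat_lit 9) (nat_lit 70212)
  (nat_lit 9) nil nil) nil) (node (nat_lit 7) (nat_lit 67619) (nat_lit 7) nil nil))) (node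
  (nat_lit 0) (nat_lit 58543) (nat_lit 6) nil nil))) (node (nat_lit 0) (nat_lit 0) (nat_lit 5)
  (node (nat_lit 3) (nat_lit 59742) (nat_lit 6) nil (node (nat_lit 5) (nat_lit 59667) (nat_lit 6)
  nil (node (nat_lit 4) (nat_lit 60212) (nat_lit 6) nil (node (nat_lit 0) (nat_lit 63880) (nat_lit
  6) nil (node (nat_lit 7) (nat_lit 63880) (nat_lit 6) nil nil))))) nil)))) nil)) nil)) nil) nil)

noncomputable def t417 : Tr :=
  (node (nat_lit 3) (nat_lit 0) (nat_lit 4) (node (nat_lit 6) (nat_lit 0) (nat_lit 5) (node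
  (nat_lit 5) (nat_lit 84254) (nat_lit 6) (node (nat_lit 7) (nat_lit 86472) (nat_lit 7) (node
  (nat_lit 5) (nat_lit 88434) (nat_lit 8) (node (nat_lit 4) (nat_lit 89776) (nat_lit 9) (node
  (nat_lit 7) (nat_lit 91869) (nat_lit 10) (node (nat_lit 5) (nat_lit 92861) (nat_lit 11) (node
  (nat_lit 7) (nat_lit 93528) (nat_lit 12) (node (nat_lit 4) (nat_lit 93851) (nat_lit 13) nil nil)
  nil) (node (nat_lit 4) (nat_lit 92775) (nat_lit 11) nil nil)) (node (nat_lit 5) (nat_lit 91287)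
  (nat_lit 10) (node (nat_lit 7) (nat_lit 90577) (nat_lit 11) (node (nat_lit 4) (nat_lit 90491)
  (nat_lit 12) (node (nat_lit 5) (nat_lit 89200) (nat_lit 13) nil nil) nil) nil) (node (nat_lit 6)
  (nat_lit 93434) (nat_lit 10) nil (node (nat_lit 0) (nat_lit 93434) (nat_lit 10) nil nil))))
  (node (nat_lit 6) (nat_lit 93851) (nat_lit 9) nil (node (nat_lit 0) (nat_lit 93851) (nat_lit 9)
  nil nil))) (node (nat_lit 4) (nat_lit 88121) (nat_lit 8) (node (nat_lit 5) (nat_lit 89796)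
  (nat_lit 9) (node (nat_lit 4) (nat_lit 91723) (nat_lit 10) (node (nat_lit 7) (nat_lit 89800)
  (nat_lit 11) (node (nat_lit 4) (nat_lit 89919) (nat_lit 12) nil nil) nil) (node (nat_lit 7)
  (nat_lit 91238) (nat_lit 10) (node (nat_lit 5) (nat_lit 89259) (nat_lit 11) nil nil) nil)) (node
  (nat_lit 7) (nat_lit 89748) (nat_lit 9) (node (nat_lit 5) (nat_lit 90968) (nat_lit 10) (node
  (nat_lit 7) (nat_lit 91594) (nat_lit 11) (node (nat_lit 4) (nat_lit 91939) (nat_lit 12) (node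
  (nat_lit 5) (nat_lit 91131) (nat_lit 13) nil nil) nil) (node (nat_lit 4) (nat_lit 90429)
  (nat_lit 11) nil nil)) (node (nat_lit 6) (nat_lit 93406) (nat_lit 10) nil (node (nat_lit 0)
  (nat_lit 93406) (nat_lit 10) nil nil))) (node (nat_lit 6) (nat_lit 91658) (nat_lit 9) nil (node
  (nat_lit 0) (nat_lit 91658) (nat_lit 9) nil nil)))) (node (nat_lit 0) (nat_lit 93528) (nat_lit
  8) nil nil))) (node (nat_lit 4) (nat_lit 86932) (nat_lit 7) (node (nat_lit 7) (nat_lit 88196)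
  (nat_lit 8) (node (nat_lit 5) (nat_lit 89074) (nat_lit 9) nil (node (nat_lit 4) (nat_lit 88196)
  (nat_lit 9) nil nil)) (node (nat_lit 5) (nat_lit 88196) (nat_lit 8) nil (node (nat_lit 0)
  (nat_lit 91981) (nat_lit 8) nil (node (nat_lit 6) (nat_lit 91981) (nat_lit 8) nil nil)))) (node
  (nat_lit 6) (nat_lit 92521) (nat_lit 7) (node (nat_lit 7) (nat_lit 92521) (nat_lit 8) nil (node
  (nat_lit 4) (nat_lit 92521) (nat_lit 8) nil (node (nat_lit 0) (nat_lit 93188) (nat_lit 8) nil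
  nil))) (node (nat_lit 0) (nat_lit 92521) (nat_lit 7) nil nil)))) (node (nat_lit 4) (nat_lit
  84302) (nat_lit 6) (node (nat_lit 7) (nat_lit 86749) (nat_lit 7) (node (nat_lit 4) (nat_lit
  88325) (nat_lit 8) (node (nat_lit 5) (nat_lit 89404) (nat_lit 9) (node (nat_lit 7) (nat_lit
  91609) (nat_lit 10) nil (node (nat_lit 4) (nat_lit 88981) (nat_lit 10) nil nil)) (node (nat_lit
  6) (nat_lit 93851) (nat_lit 9) (node (nat_lit 4) (nat_lit 93851) (nat_lit 10) nil nil) (node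
  (nat_lit 0) (nat_lit 93851) (nat_lit 9) nil nil))) (node (nat_lit 5) (nat_lit 88398) (nat_lit 8)
  (node (nat_lit 7) (nat_lit 89776) (nat_lit 9) (node (nat_lit 4) (nat_lit 91335) (nat_lit 10) nil
  nil) (node (nat_lit 4) (nat_lit 89776) (nat_lit 9) (node (nat_lit 7) (nat_lit 91335) (nat_lit
  10) nil (node (nat_lit 6) (nat_lit 93434) (nat_lit 10) nil nil)) (node (nat_lit 0) (nat_lit
  91935) (nat_lit 9) nil (node (nat_lit 6) (nat_lit 91935) (nat_lit 9) nil nil)))) (node (nat_lit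
  0) (nat_lit 91798) (nat_lit 8) nil nil))) (node (nat_lit 5) (nat_lit 84851) (nat_lit 7) (node
  (nat_lit 4) (nat_lit 84851) (nat_lit 8) nil (node (nat_lit 7) (nat_lit 84851) (nat_lit 8) nil
  nil)) (node (nat_lit 0) (nat_lit 89090) (nat_lit 7) nil (node (nat_lit 6) (nat_lit 88293)
  (nat_lit 7) nil nil)))) (node (nat_lit 0) (nat_lit 89855) (nat_lit 6) (node (nat_lit 7) (nat_lit
  89855) (nat_lit 7) nil nil) nil))) (node (nat_lit 5) (nat_lit 0) (nat_lit 5) (node (nat_lit 7)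
  (nat_lit 68138) (nat_lit 6) (node (nat_lit 4) (nat_lit 77194) (nat_lit 7) (node (nat_lit 5)
  (nat_lit 84835) (nat_lit 8) (node (nat_lit 4) (nat_lit 87976) (nat_lit 9) (node (nat_lit 7)
  (nat_lit 87194) (nat_lit 10) (node (nat_lit 4) (nat_lit 83579) (nat_lit 11) (node (nat_lit 5)
  (nat_lit 84668) (nat_lit 12) nil nil) (node (nat_lit 5) (nat_lit 83769) (nat_lit 11) nil nil))
  nil) (node (nat_lit 6) (nat_lit 71650) (nat_lit 9) (node (nat_lit 7) (nat_lit 54225) (nat_lit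
  10) (node (nat_lit 5) (nat_lit 35034) (nat_lit 11) nil nil) nil) (node (nat_lit 7) (nat_lit
  84750) (nat_lit 9) nil nil))) (node (nat_lit 7) (nat_lit 83736) (nat_lit 8) (node (nat_lit 5)
  (nat_lit 79292) (nat_lit 9) (node (nat_lit 4) (nat_lit 74989) (nat_lit 10) nil nil) nil) (node
  (nat_lit 6) (nat_lit 86014) (nat_lit 8) nil (node (nat_lit 0) (nat_lit 86014) (nat_lit 8) nil
  nil)))) (node (nat_lit 6) (nat_lit 91834) (nat_lit 7) nil (node (nat_lit 0) (nat_lit 85980)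
  (nat_lit 7) nil nil))) (node (nat_lit 4) (nat_lit 68695) (nat_lit 6) (node (nat_lit 7) (nat_lit
  76480) (nat_lit 7) (node (nat_lit 4) (nat_lit 82906) (nat_lit 8) (node (nat_lit 5) (nat_lit
  85315) (nat_lit 9) nil nil) (node (nat_lit 5) (nat_lit 81808) (nat_lit 8) (node (nat_lit 7)
  (nat_lit 80002) (nat_lit 9) (node (nat_lit 4) (nat_lit 78459) (nat_lit 10) (node (nat_lit 5)
  (nat_lit 77591) (nat_lit 11) nil nil) nil) nil) nil)) (node (nat_lit 5) (nat_lit 76305) (nat_lit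
  7) (node (nat_lit 7) (nat_lit 82299) (nat_lit 8) (node (nat_lit 5) (nat_lit 85801) (nat_lit 9)
  (node (nat_lit 4) (nat_lit 85987) (nat_lit 10) nil nil) nil) (node (nat_lit 6) (nat_lit 56475)
  (nat_lit 8) nil nil)) (node (nat_lit 6) (nat_lit 88455) (nat_lit 7) nil (node (nat_lit 0)
  (nat_lit 83087) (nat_lit 7) nil nil)))) (node (nat_lit 6) (nat_lit 90299) (nat_lit 6) (node
  (nat_lit 5) (nat_lit 90075) (nat_lit 7) (node (nat_lit 7) (nat_lit 89688) (nat_lit 8) (node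
  (nat_lit 5) (nat_lit 89893) (nat_lit 9) (node (nat_lit 4) (nat_lit 89557) (nat_lit 10) (node
  (nat_lit 7) (nat_lit 90463) (nat_lit 11) nil nil) (node (nat_lit 0) (nat_lit 92098) (nat_lit 10)
  nil (node (nat_lit 6) (nat_lit 92098) (nat_lit 10) nil nil))) (node (nat_lit 6) (nat_lit 91666)
  (nat_lit 9) nil nil)) nil) (node (nat_lit 4) (nat_lit 90299) (nat_lit 7) (node (nat_lit 7)
  (nat_lit 90299) (nat_lit 8) nil nil) nil)) (node (nat_lit 0) (nat_lit 87900) (nat_lit 6) nil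
  nil)))) (node (nat_lit 4) (nat_lit 0) (nat_lit 5) (node (nat_lit 5) (nat_lit 68410) (nat_lit 6)
  (node (nat_lit 7) (nat_lit 76414) (nat_lit 7) (node (nat_lit 4) (nat_lit 83081) (nat_lit 8)
  (node (nat_lit 7) (nat_lit 85745) (nat_lit 9) (node (nat_lit 5) (nat_lit 84646) (nat_lit 10)
  (node (nat_lit 4) (nat_lit 82117) (nat_lit 11) nil nil) nil) nil) (node (nat_lit 5) (nat_lit
  82386) (nat_lit 8) (node (nat_lit 4) (nat_lit 81462) (nat_lit 9) nil nil) nil)) (node (nat_lit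
  4) (nat_lit 76674) (nat_lit 7) (node (nat_lit 7) (nat_lit 82018) (nat_lit 8) (node (nat_lit 5)
  (nat_lit 78520) (nat_lit 9) nil nil) (node (nat_lit 6) (nat_lit 85493) (nat_lit 8) nil nil))
  (node (nat_lit 6) (nat_lit 34838) (nat_lit 7) nil (node (nat_lit 0) (nat_lit 76564) (nat_lit 7)
  nil nil)))) (node (nat_lit 7) (nat_lit 0) (nat_lit 6) (node (nat_lit 5) (nat_lit 75873) (nat_lit
  7) (node (nat_lit 4) (nat_lit 82114) (nat_lit 8) (node (nat_lit 5) (nat_lit 83839) (nat_lit 9)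
  (node (nat_lit 7) (nat_lit 83432) (nat_lit 10) (node (nat_lit 4) (nat_lit 82531) (nat_lit 11)
  nil nil) nil) nil) (node (nat_lit 7) (nat_lit 82282) (nat_lit 8) (node (nat_lit 4) (nat_lit
  84691) (nat_lit 9) nil nil) (node (nat_lit 6) (nat_lit 84693) (nat_lit 8) nil nil))) (node
  (nat_lit 6) (nat_lit 81873) (nat_lit 7) nil (node (nat_lit 0) (nat_lit 81873) (nat_lit 7) nil
  nil))) (node (nat_lit 6) (nat_lit 89735) (nat_lit 6) (node (nat_lit 4) (nat_lit 89735) (nat_lit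
  7) nil (node (nat_lit 7) (nat_lit 89735) (nat_lit 7) nil nil)) (node (nat_lit 0) (nat_lit 83188)
  (nat_lit 6) nil nil)))) (node (nat_lit 0) (nat_lit 82581) (nat_lit 5) (node (nat_lit 7) (nat_lit
  82581) (nat_lit 6) nil (node (nat_lit 6) (nat_lit 84140) (nat_lit 6) nil (node (nat_lit 5)
  (nat_lit 82581) (nat_lit 6) nil nil))) nil)))) (node (nat_lit 4) (nat_lit 0) (nat_lit 4) (node
  (nat_lit 6) (nat_lit 0) (nat_lit 5) (node (nat_lit 5) (nat_lit 83324) (nat_lit 6) (node (nat_lit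
  4) (nat_lit 84942) (nat_lit 7) (node (nat_lit 5) (nat_lit 86959) (nat_lit 8) (node (nat_lit 3)
  (nat_lit 88055) (nat_lit 9) (node (nat_lit 4) (nat_lit 89644) (nat_lit 10) (node (nat_lit 5)
  (nat_lit 90819) (nat_lit 11) (node (nat_lit 4) (nat_lit 90651) (nat_lit 12) nil nil) (node
  (nat_lit 12) (nat_lit 89569) (nat_lit 11) nil nil)) (node (nat_lit 5) (nat_lit 89302) (nat_lit
  10) (node (nat_lit 4) (nat_lit 89031) (nat_lit 11) nil nil) (node (nat_lit 6) (nat_lit 92847)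
  (nat_lit 10) nil (node (nat_lit 0) (nat_lit 92847) (nat_lit 10) nil nil)))) (node (nat_lit 6)
  (nat_lit 93241) (nat_lit 9) (node (nat_lit 4) (nat_lit 93241) (nat_lit 10) (node (nat_lit 6)
  (nat_lit 58443) (nat_lit 11) nil nil) nil) (node (nat_lit 0) (nat_lit 93212) (nat_lit 9) nil
  nil))) (node (nat_lit 3) (nat_lit 87346) (nat_lit 8) (node (nat_lit 5) (nat_lit 88512) (nat_lit
  9) (node (nat_lit 11) (nat_lit 90810) (nat_lit 10) (node (nat_lit 4) (nat_lit 92045) (nat_lit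
  11) nil nil) (node (nat_lit 4) (nat_lit 90163) (nat_lit 10) nil nil)) (node (nat_lit 4) (nat_lit
  88008) (nat_lit 9) (node (nat_lit 5) (nat_lit 89367) (nat_lit 10) (node (nat_lit 4) (nat_lit
  89156) (nat_lit 11) nil nil) (node (nat_lit 0) (nat_lit 92380) (nat_lit 10) nil nil)) (node
  (nat_lit 6) (nat_lit 91596) (nat_lit 9) nil (node (nat_lit 0) (nat_lit 91596) (nat_lit 9) nil
  nil)))) (node (nat_lit 0) (nat_lit 92024) (nat_lit 8) nil nil))) (node (nat_lit 3) (nat_lit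
  86403) (nat_lit 7) (node (nat_lit 4) (nat_lit 85810) (nat_lit 8) (node (nat_lit 5) (nat_lit
  84551) (nat_lit 9) nil (node (nat_lit 10) (nat_lit 85810) (nat_lit 9) nil (node (nat_lit 6)
  (nat_lit 90060) (nat_lit 9) nil nil))) (node (nat_lit 5) (nat_lit 87745) (nat_lit 8) (node
  (nat_lit 6) (nat_lit 91945) (nat_lit 9) nil (node (nat_lit 4) (nat_lit 87745) (nat_lit 9) nil
  nil)) (node (nat_lit 6) (nat_lit 92641) (nat_lit 8) nil (node (nat_lit 0) (nat_lit 92032)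
  (nat_lit 8) nil nil)))) (node (nat_lit 6) (nat_lit 91339) (nat_lit 7) (node (nat_lit 3) (nat_lit
  92201) (nat_lit 8) nil (node (nat_lit 4) (nat_lit 91339) (nat_lit 8) (node (nat_lit 5) (nat_lit
  91339) (nat_lit 9) nil nil) (node (nat_lit 0) (nat_lit 93026) (nat_lit 8) nil nil))) (node
  (nat_lit 0) (nat_lit 92201) (nat_lit 7) nil nil)))) (node (nat_lit 3) (nat_lit 84190) (nat_lit
  6) (node (nat_lit 4) (nat_lit 86246) (nat_lit 7) (node (nat_lit 9) (nat_lit 87275) (nat_lit 8)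
  (node (nat_lit 5) (nat_lit 88032) (nat_lit 9) (node (nat_lit 4) (nat_lit 88936) (nat_lit 10) nil
  (node (nat_lit 9) (nat_lit 89683) (nat_lit 10) nil nil)) (node (nat_lit 6) (nat_lit 93578)
  (nat_lit 9) nil (node (nat_lit 0) (nat_lit 93578) (nat_lit 9) nil nil))) (node (nat_lit 5)
  (nat_lit 87812) (nat_lit 8) (node (nat_lit 4) (nat_lit 88690) (nat_lit 9) (node (nat_lit 9)
  (nat_lit 88579) (nat_lit 10) nil nil) (node (nat_lit 9) (nat_lit 88548) (nat_lit 9) (node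
  (nat_lit 5) (nat_lit 90199) (nat_lit 10) nil (node (nat_lit 4) (nat_lit 90199) (nat_lit 10) nil
  nil)) (node (nat_lit 0) (nat_lit 92012) (nat_lit 9) nil (node (nat_lit 6) (nat_lit 92012)
  (nat_lit 9) nil nil)))) (node (nat_lit 0) (nat_lit 91875) (nat_lit 8) nil nil))) (node (nat_lit
  5) (nat_lit 84546) (nat_lit 7) (node (nat_lit 9) (nat_lit 84546) (nat_lit 8) nil (node (nat_lit
  4) (nat_lit 84546) (nat_lit 8) nil nil)) (node (nat_lit 0) (nat_lit 89398) (nat_lit 7) nil (node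
  (nat_lit 6) (nat_lit 88601) (nat_lit 7) nil nil)))) (node (nat_lit 0) (nat_lit 89563) (nat_lit
  6) (node (nat_lit 4) (nat_lit 89563) (nat_lit 7) nil nil) nil))) (node (nat_lit 5) (nat_lit 0)
  (nat_lit 5) (node (nat_lit 4) (nat_lit 67954) (nat_lit 6) (node (nat_lit 3) (nat_lit 77724)
  (nat_lit 7) (node (nat_lit 5) (nat_lit 84445) (nat_lit 8) (node (nat_lit 10) (nat_lit 86689)
  (nat_lit 9) (node (nat_lit 4) (nat_lit 86482) (nat_lit 10) (node (nat_lit 5) (nat_lit 79950)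
  (nat_lit 11) nil (node (nat_lit 10) (nat_lit 86468) (nat_lit 11) nil nil)) nil) (node (nat_lit
  4) (nat_lit 86919) (nat_lit 9) nil nil)) (node (nat_lit 4) (nat_lit 83928) (nat_lit 8) (node
  (nat_lit 5) (nat_lit 85144) (nat_lit 9) (node (nat_lit 10) (nat_lit 85034) (nat_lit 10) nil nil)
  nil) (node (nat_lit 6) (nat_lit 86985) (nat_lit 8) nil (node (nat_lit 0) (nat_lit 86985)
  (nat_lit 8) nil nil)))) (node (nat_lit 6) (nat_lit 91024) (nat_lit 7) (node (nat_lit 5) (nat_lit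
  91024) (nat_lit 8) nil nil) (node (nat_lit 0) (nat_lit 86639) (nat_lit 7) nil nil))) (node
  (nat_lit 3) (nat_lit 67383) (nat_lit 6) (node (nat_lit 4) (nat_lit 74219) (nat_lit 7) (node
  (nat_lit 9) (nat_lit 76137) (nat_lit 8) (node (nat_lit 5) (nat_lit 74248) (nat_lit 9) (node
  (nat_lit 4) (nat_lit 70267) (nat_lit 10) nil nil) nil) (node (nat_lit 5) (nat_lit 78972)
  (nat_lit 8) (node (nat_lit 4) (nat_lit 78561) (nat_lit 9) nil (node (nat_lit 6) (nat_lit 70907)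
  (nat_lit 9) nil nil)) nil)) (node (nat_lit 5) (nat_lit 75035) (nat_lit 7) (node (nat_lit 4)
  (nat_lit 78919) (nat_lit 8) (node (nat_lit 5) (nat_lit 81619) (nat_lit 9) (node (nat_lit 9)
  (nat_lit 77519) (nat_lit 10) nil nil) (node (nat_lit 9) (nat_lit 75045) (nat_lit 9) nil nil))
  (node (nat_lit 6) (nat_lit 88035) (nat_lit 8) nil nil)) (node (nat_lit 6) (nat_lit 87426)
  (nat_lit 7) nil (node (nat_lit 0) (nat_lit 82058) (nat_lit 7) nil nil)))) (node (nat_lit 0)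
  (nat_lit 87367) (nat_lit 6) nil nil))) (node (nat_lit 3) (nat_lit 0) (nat_lit 5) (node (nat_lit
  5) (nat_lit 67652) (nat_lit 6) (node (nat_lit 4) (nat_lit 76253) (nat_lit 7) (node (nat_lit 8)
  (nat_lit 82972) (nat_lit 8) (node (nat_lit 4) (nat_lit 85380) (nat_lit 9) nil nil) (node
  (nat_lit 5) (nat_lit 78356) (nat_lit 8) (node (nat_lit 8) (nat_lit 74886) (nat_lit 9) (node
  (nat_lit 4) (nat_lit 73631) (nat_lit 10) nil nil) nil) nil)) (node (nat_lit 8) (nat_lit 75281)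
  (nat_lit 7) (node (nat_lit 4) (nat_lit 79214) (nat_lit 8) (node (nat_lit 5) (nat_lit 81622)
  (nat_lit 9) nil nil) (node (nat_lit 6) (nat_lit 84100) (nat_lit 8) nil nil)) (node (nat_lit 6)
  (nat_lit 90333) (nat_lit 7) nil (node (nat_lit 0) (nat_lit 75806) (nat_lit 7) nil nil)))) (node
  (nat_lit 4) (nat_lit 0) (nat_lit 6) (node (nat_lit 5) (nat_lit 76718) (nat_lit 7) (node (nat_lit
  8) (nat_lit 83340) (nat_lit 8) (node (nat_lit 5) (nat_lit 82137) (nat_lit 9) (node (nat_lit 4)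
  (nat_lit 75461) (nat_lit 10) (node (nat_lit 8) (nat_lit 73648) (nat_lit 11) nil (node (nat_lit
  5) (nat_lit 75268) (nat_lit 11) nil nil)) nil) nil) (node (nat_lit 4) (nat_lit 79489) (nat_lit
  8) (node (nat_lit 8) (nat_lit 73055) (nat_lit 9) nil nil) (node (nat_lit 6) (nat_lit 69806)
  (nat_lit 8) nil nil))) (node (nat_lit 6) (nat_lit 82412) (nat_lit 7) nil (node (nat_lit 0)
  (nat_lit 82412) (nat_lit 7) nil nil))) (node (nat_lit 6) (nat_lit 89749) (nat_lit 6) (node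
  (nat_lit 8) (nat_lit 89749) (nat_lit 7) nil (node (nat_lit 4) (nat_lit 89749) (nat_lit 7) nil
  nil)) (node (nat_lit 0) (nat_lit 83775) (nat_lit 6) nil nil)))) (node (nat_lit 0) (nat_lit
  83170) (nat_lit 5) (node (nat_lit 4) (nat_lit 83170) (nat_lit 6) nil (node (nat_lit 6) (nat_lit
  84729) (nat_lit 6) nil (node (nat_lit 5) (nat_lit 83170) (nat_lit 6) nil nil))) nil)))) (node
  (nat_lit 0) (nat_lit 0) (nat_lit 4) (node (nat_lit 6) (nat_lit 0) (nat_lit 5) (node (nat_lit 5)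
  (nat_lit 85160) (nat_lit 6) (node (nat_lit 7) (nat_lit 92775) (nat_lit 7) (node (nat_lit 6)
  (nat_lit 93528) (nat_lit 8) (node (nat_lit 7) (nat_lit 93851) (nat_lit 9) nil (node (nat_lit 0)
  (nat_lit 93851) (nat_lit 9) nil (node (nat_lit 3) (nat_lit 93528) (nat_lit 9) nil (node (nat_lit
  4) (nat_lit 93528) (nat_lit 9) nil nil)))) (node (nat_lit 5) (nat_lit 92775) (nat_lit 8) (node
  (nat_lit 6) (nat_lit 93798) (nat_lit 9) nil nil) (node (nat_lit 0) (nat_lit 93442) (nat_lit 8)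
  nil (node (nat_lit 3) (nat_lit 92775) (nat_lit 8) nil (node (nat_lit 4) (nat_lit 92775) (nat_lit
  8) nil nil))))) (node (nat_lit 6) (nat_lit 92075) (nat_lit 7) nil (node (nat_lit 0) (nat_lit
  89948) (nat_lit 7) nil (node (nat_lit 3) (nat_lit 85160) (nat_lit 7) nil (node (nat_lit 4)
  (nat_lit 85160) (nat_lit 7) nil nil))))) (node (nat_lit 4) (nat_lit 83921) (nat_lit 6) (node
  (nat_lit 7) (nat_lit 91081) (nat_lit 7) (node (nat_lit 4) (nat_lit 91081) (nat_lit 8) nil nil)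
  (node (nat_lit 6) (nat_lit 88708) (nat_lit 7) nil (node (nat_lit 5) (nat_lit 83921) (nat_lit 7)
  nil (node (nat_lit 0) (nat_lit 86386) (nat_lit 7) nil (node (nat_lit 3) (nat_lit 83921) (nat_lit
  7) nil nil))))) (node (nat_lit 3) (nat_lit 85367) (nat_lit 6) (node (nat_lit 7) (nat_lit 91868)
  (nat_lit 7) (node (nat_lit 9) (nat_lit 91868) (nat_lit 8) nil nil) (node (nat_lit 6) (nat_lit
  90154) (nat_lit 7) nil (node (nat_lit 5) (nat_lit 85367) (nat_lit 7) nil (node (nat_lit 0)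
  (nat_lit 87831) (nat_lit 7) nil (node (nat_lit 4) (nat_lit 85367) (nat_lit 7) nil nil))))) (node
  (nat_lit 0) (nat_lit 90389) (nat_lit 6) (node (nat_lit 7) (nat_lit 91942) (nat_lit 7) nil (node
  (nat_lit 6) (nat_lit 91295) (nat_lit 7) nil nil)) nil)))) (node (nat_lit 5) (nat_lit 0) (nat_lit
  5) (node (nat_lit 7) (nat_lit 90553) (nat_lit 6) (node (nat_lit 6) (nat_lit 92670) (nat_lit 7)
  (node (nat_lit 7) (nat_lit 93528) (nat_lit 8) (node (nat_lit 5) (nat_lit 93528) (nat_lit 9)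
  (node (nat_lit 6) (nat_lit 93851) (nat_lit 10) nil nil) nil) (node (nat_lit 5) (nat_lit 92670)
  (nat_lit 8) nil nil)) (node (nat_lit 0) (nat_lit 92106) (nat_lit 7) nil (node (nat_lit 3)
  (nat_lit 90553) (nat_lit 7) nil (node (nat_lit 4) (nat_lit 90553) (nat_lit 7) nil nil)))) (node
  (nat_lit 3) (nat_lit 75910) (nat_lit 6) (node (nat_lit 5) (nat_lit 75910) (nat_lit 7) nil (node
  (nat_lit 6) (nat_lit 90735) (nat_lit 7) nil (node (nat_lit 7) (nat_lit 84130) (nat_lit 7) nil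
  (node (nat_lit 4) (nat_lit 75910) (nat_lit 7) nil nil)))) (node (nat_lit 4) (nat_lit 76304)
  (nat_lit 6) (node (nat_lit 5) (nat_lit 76304) (nat_lit 7) nil (node (nat_lit 6) (nat_lit 90310)
  (nat_lit 7) nil (node (nat_lit 7) (nat_lit 84525) (nat_lit 7) nil (node (nat_lit 3) (nat_lit
  76304) (nat_lit 7) nil nil)))) (node (nat_lit 0) (nat_lit 89397) (nat_lit 6) nil (node (nat_lit
  6) (nat_lit 88524) (nat_lit 6) (node (nat_lit 5) (nat_lit 88524) (nat_lit 7) nil nil) nil)))))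
  (node (nat_lit 3) (nat_lit 0) (nat_lit 5) (node (nat_lit 5) (nat_lit 74742) (nat_lit 6) (node
  (nat_lit 8) (nat_lit 74742) (nat_lit 7) (node (nat_lit 7) (nat_lit 80282) (nat_lit 8) nil nil)
  (node (nat_lit 7) (nat_lit 82962) (nat_lit 7) nil nil)) (node (nat_lit 4) (nat_lit 73660)
  (nat_lit 6) (node (nat_lit 6) (nat_lit 78533) (nat_lit 7) nil (node (nat_lit 8) (nat_lit 73660)
  (nat_lit 7) nil nil)) (node (nat_lit 7) (nat_lit 85603) (nat_lit 6) nil (node (nat_lit 6)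
  (nat_lit 87542) (nat_lit 6) nil (node (nat_lit 0) (nat_lit 83281) (nat_lit 6) nil nil))))) (node
  (nat_lit 4) (nat_lit 0) (nat_lit 5) (node (nat_lit 5) (nat_lit 74614) (nat_lit 6) (node (nat_lit
  4) (nat_lit 74614) (nat_lit 7) (node (nat_lit 7) (nat_lit 80154) (nat_lit 8) nil nil) (node
  (nat_lit 7) (nat_lit 82834) (nat_lit 7) nil nil)) (node (nat_lit 3) (nat_lit 73293) (nat_lit 6)
  (node (nat_lit 6) (nat_lit 78166) (nat_lit 7) nil (node (nat_lit 4) (nat_lit 73293) (nat_lit 7)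
  nil nil)) (node (nat_lit 7) (nat_lit 85236) (nat_lit 6) nil (node (nat_lit 6) (nat_lit 87175)
  (nat_lit 6) nil (node (nat_lit 0) (nat_lit 82914) (nat_lit 6) nil nil))))) (node (nat_lit 0)
  (nat_lit 83564) (nat_lit 5) (node (nat_lit 7) (nat_lit 86001) (nat_lit 6) nil (node (nat_lit 6)
  (nat_lit 85123) (nat_lit 6) nil nil)) nil))))) (node (nat_lit 5) (nat_lit 0) (nat_lit 4) (node
  (nat_lit 3) (nat_lit 0) (nat_lit 5) (node (nat_lit 4) (nat_lit 68747) (nat_lit 6) (node (nat_lit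
  8) (nat_lit 76828) (nat_lit 7) (node (nat_lit 5) (nat_lit 82967) (nat_lit 8) (node (nat_lit 8)
  (nat_lit 82237) (nat_lit 9) (node (nat_lit 4) (nat_lit 82947) (nat_lit 10) (node (nat_lit 5)
  (nat_lit 83767) (nat_lit 11) nil nil) nil) (node (nat_lit 4) (nat_lit 82042) (nat_lit 9) nil
  nil)) nil) (node (nat_lit 5) (nat_lit 76400) (nat_lit 7) (node (nat_lit 8) (nat_lit 79505)
  (nat_lit 8) nil (node (nat_lit 4) (nat_lit 79117) (nat_lit 8) (node (nat_lit 8) (nat_lit 73238)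
  (nat_lit 9) nil nil) (node (nat_lit 6) (nat_lit 53288) (nat_lit 8) (node (nat_lit 5) (nat_lit
  35092) (nat_lit 9) nil nil) nil))) (node (nat_lit 6) (nat_lit 76900) (nat_lit 7) nil (node
  (nat_lit 0) (nat_lit 76900) (nat_lit 7) nil nil)))) (node (nat_lit 5) (nat_lit 68327) (nat_lit
  6) (node (nat_lit 4) (nat_lit 76013) (nat_lit 7) (node (nat_lit 5) (nat_lit 81156) (nat_lit 8)
  (node (nat_lit 8) (nat_lit 76405) (nat_lit 9) (node (nat_lit 4) (nat_lit 74833) (nat_lit 10) nil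
  nil) (node (nat_lit 6) (nat_lit 75569) (nat_lit 9) (node (nat_lit 5) (nat_lit 51683) (nat_lit
  10) nil nil) nil)) (node (nat_lit 8) (nat_lit 79183) (nat_lit 8) nil nil)) (node (nat_lit 6)
  (nat_lit 86169) (nat_lit 7) nil (node (nat_lit 0) (nat_lit 82719) (nat_lit 7) nil nil))) (node
  (nat_lit 6) (nat_lit 84710) (nat_lit 6) nil (node (nat_lit 0) (nat_lit 81363) (nat_lit 6) nil
  nil)))) (node (nat_lit 4) (nat_lit 0) (nat_lit 5) (node (nat_lit 3) (nat_lit 69073) (nat_lit 6)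
  (node (nat_lit 4) (nat_lit 78109) (nat_lit 7) (node (nat_lit 5) (nat_lit 82212) (nat_lit 8)
  (node (nat_lit 4) (nat_lit 81801) (nat_lit 9) nil (node (nat_lit 9) (nat_lit 82193) (nat_lit 9)
  nil nil)) nil) (node (nat_lit 5) (nat_lit 76406) (nat_lit 7) (node (nat_lit 4) (nat_lit 80342)
  (nat_lit 8) nil (node (nat_lit 9) (nat_lit 81303) (nat_lit 8) (node (nat_lit 4) (nat_lit 83777)
  (nat_lit 9) nil nil) (node (nat_lit 6) (nat_lit 85666) (nat_lit 8) nil nil))) (node (nat_lit 0)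
  (nat_lit 77509) (nat_lit 7) nil (node (nat_lit 6) (nat_lit 77509) (nat_lit 7) nil nil)))) (node
  (nat_lit 5) (nat_lit 67802) (nat_lit 6) (node (nat_lit 3) (nat_lit 76424) (nat_lit 7) (node
  (nat_lit 5) (nat_lit 82206) (nat_lit 8) (node (nat_lit 4) (nat_lit 81347) (nat_lit 9) nil nil)
  (node (nat_lit 4) (nat_lit 81321) (nat_lit 8) nil nil)) (node (nat_lit 6) (nat_lit 57293)
  (nat_lit 7) (node (nat_lit 4) (nat_lit 57293) (nat_lit 8) nil nil) (node (nat_lit 0) (nat_lit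
  83036) (nat_lit 7) nil nil))) (node (nat_lit 6) (nat_lit 85055) (nat_lit 6) nil (node (nat_lit
  0) (nat_lit 84047) (nat_lit 6) nil nil)))) (node (nat_lit 0) (nat_lit 0) (nat_lit 5) (node
  (nat_lit 5) (nat_lit 84588) (nat_lit 6) (node (nat_lit 6) (nat_lit 88578) (nat_lit 7) nil nil)
  (node (nat_lit 6) (nat_lit 87187) (nat_lit 6) nil (node (nat_lit 3) (nat_lit 84290) (nat_lit 6)
  nil (node (nat_lit 0) (nat_lit 86727) (nat_lit 6) nil (node (nat_lit 4) (nat_lit 84290) (nat_lit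
  6) nil nil))))) nil))) nil))))

noncomputable def t418 : Tr :=
  (node (nat_lit 0) (nat_lit 0) (nat_lit 4) (node (nat_lit 6) (nat_lit 0) (nat_lit 5) (node
  (nat_lit 5) (nat_lit 54107) (nat_lit 6) (node (nat_lit 7) (nat_lit 73951) (nat_lit 7) (node
  (nat_lit 6) (nat_lit 74234) (nat_lit 8) (node (nat_lit 7) (nat_lit 76226) (nat_lit 9) (node
  (nat_lit 5) (nat_lit 76226) (nat_lit 10) (node (nat_lit 6) (nat_lit 76226) (nat_lit 11) (node
  (nat_lit 5) (nat_lit 76226) (nat_lit 12) nil nil) (node (nat_lit 7) (nat_lit 76362) (nat_lit 11)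
  nil nil)) (node (nat_lit 4) (nat_lit 76226) (nat_lit 10) nil (node (nat_lit 0) (nat_lit 76362)
  (nat_lit 10) nil nil))) (node (nat_lit 4) (nat_lit 74007) (nat_lit 9) (node (nat_lit 6) (nat_lit
  73584) (nat_lit 10) (node (nat_lit 5) (nat_lit 73584) (nat_lit 11) nil (node (nat_lit 7)
  (nat_lit 75062) (nat_lit 11) nil (node (nat_lit 0) (nat_lit 75062) (nat_lit 11) nil nil))) (node
  (nat_lit 5) (nat_lit 74007) (nat_lit 10) nil (node (nat_lit 7) (nat_lit 76297) (nat_lit 10) nil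
  (node (nat_lit 0) (nat_lit 75344) (nat_lit 10) nil nil)))) (node (nat_lit 0) (nat_lit 76226)
  (nat_lit 9) (node (nat_lit 6) (nat_lit 76226) (nat_lit 10) nil nil) nil))) (node (nat_lit 5)
  (nat_lit 73910) (nat_lit 8) (node (nat_lit 6) (nat_lit 73910) (nat_lit 9) (node (nat_lit 7)
  (nat_lit 75246) (nat_lit 10) nil nil) (node (nat_lit 4) (nat_lit 73910) (nat_lit 9) nil nil))
  (node (nat_lit 4) (nat_lit 73951) (nat_lit 8) nil (node (nat_lit 0) (nat_lit 74598) (nat_lit 8)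
  nil nil)))) (node (nat_lit 4) (nat_lit 60349) (nat_lit 7) (node (nat_lit 6) (nat_lit 65130)
  (nat_lit 8) (node (nat_lit 5) (nat_lit 69325) (nat_lit 9) (node (nat_lit 6) (nat_lit 67086)
  (nat_lit 10) nil nil) (node (nat_lit 4) (nat_lit 68992) (nat_lit 9) (node (nat_lit 5) (nat_lit
  70813) (nat_lit 10) nil nil) (node (nat_lit 0) (nat_lit 71761) (nat_lit 9) nil (node (nat_lit 7)
  (nat_lit 73977) (nat_lit 9) nil nil)))) (node (nat_lit 5) (nat_lit 66503) (nat_lit 8) (node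
  (nat_lit 6) (nat_lit 70159) (nat_lit 9) (node (nat_lit 4) (nat_lit 71981) (nat_lit 10) nil (node
  (nat_lit 7) (nat_lit 38602) (nat_lit 10) nil (node (nat_lit 5) (nat_lit 67920) (nat_lit 10) nil
  nil))) (node (nat_lit 7) (nat_lit 75349) (nat_lit 9) nil (node (nat_lit 0) (nat_lit 73133)
  (nat_lit 9) nil nil))) (node (nat_lit 7) (nat_lit 74341) (nat_lit 8) nil (node (nat_lit 0)
  (nat_lit 75148) (nat_lit 8) nil nil)))) (node (nat_lit 6) (nat_lit 59345) (nat_lit 7) (node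
  (nat_lit 7) (nat_lit 75648) (nat_lit 8) (node (nat_lit 5) (nat_lit 75648) (nat_lit 9) (node
  (nat_lit 7) (nat_lit 76362) (nat_lit 10) (node (nat_lit 6) (nat_lit 76362) (nat_lit 11) (node
  (nat_lit 5) (nat_lit 76362) (nat_lit 12) (node (nat_lit 7) (nat_lit 76362) (nat_lit 13) nil nil)
  nil) nil) (node (nat_lit 6) (nat_lit 75648) (nat_lit 10) (node (nat_lit 5) (nat_lit 75648)
  (nat_lit 11) (node (nat_lit 7) (nat_lit 76362) (nat_lit 12) nil nil) nil) nil)) (node (nat_lit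
  0) (nat_lit 76226) (nat_lit 9) nil (node (nat_lit 4) (nat_lit 75648) (nat_lit 9) nil nil)))
  (node (nat_lit 4) (nat_lit 63676) (nat_lit 8) (node (nat_lit 6) (nat_lit 64085) (nat_lit 9) nil
  (node (nat_lit 5) (nat_lit 66196) (nat_lit 9) nil (node (nat_lit 7) (nat_lit 70306) (nat_lit 9)
  nil nil))) (node (nat_lit 0) (nat_lit 71294) (nat_lit 8) nil nil))) (node (nat_lit 0) (nat_lit
  73818) (nat_lit 7) (node (nat_lit 0) (nat_lit 74465) (nat_lit 8) nil (node (nat_lit 6) (nat_lit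
  73818) (nat_lit 8) nil (node (nat_lit 5) (nat_lit 73818) (nat_lit 8) nil (node (nat_lit 7)
  (nat_lit 74465) (nat_lit 8) nil nil)))) nil)))) (node (nat_lit 4) (nat_lit 54793) (nat_lit 6)
  (node (nat_lit 5) (nat_lit 60909) (nat_lit 7) (node (nat_lit 6) (nat_lit 66323) (nat_lit 8)
  (node (nat_lit 4) (nat_lit 69206) (nat_lit 9) nil (node (nat_lit 5) (nat_lit 70255) (nat_lit 9)
  (node (nat_lit 4) (nat_lit 70145) (nat_lit 10) nil nil) (node (nat_lit 7) (nat_lit 35286)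
  (nat_lit 9) nil (node (nat_lit 0) (nat_lit 72954) (nat_lit 9) nil nil)))) (node (nat_lit 4)
  (nat_lit 66633) (nat_lit 8) (node (nat_lit 6) (nat_lit 69816) (nat_lit 9) (node (nat_lit 5)
  (nat_lit 68282) (nat_lit 10) nil nil) (node (nat_lit 7) (nat_lit 75480) (nat_lit 9) nil (node
  (nat_lit 0) (nat_lit 75821) (nat_lit 9) nil nil))) (node (nat_lit 7) (nat_lit 74694) (nat_lit 8)
  nil (node (nat_lit 0) (nat_lit 75500) (nat_lit 8) nil nil)))) (node (nat_lit 6) (nat_lit 60107)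
  (nat_lit 7) (node (nat_lit 7) (nat_lit 75683) (nat_lit 8) (node (nat_lit 4) (nat_lit 75683)
  (nat_lit 9) (node (nat_lit 7) (nat_lit 76362) (nat_lit 10) (node (nat_lit 6) (nat_lit 76362)
  (nat_lit 11) (node (nat_lit 4) (nat_lit 76362) (nat_lit 12) nil nil) nil) (node (nat_lit 6)
  (nat_lit 75683) (nat_lit 10) nil nil)) nil) (node (nat_lit 5) (nat_lit 65294) (nat_lit 8) (node
  (nat_lit 4) (nat_lit 66909) (nat_lit 9) nil (node (nat_lit 6) (nat_lit 68185) (nat_lit 9) nil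
  (node (nat_lit 7) (nat_lit 74140) (nat_lit 9) nil (node (nat_lit 0) (nat_lit 71925) (nat_lit 9)
  nil nil)))) (node (nat_lit 0) (nat_lit 74315) (nat_lit 8) nil nil))) (node (nat_lit 7) (nat_lit
  74232) (nat_lit 7) (node (nat_lit 4) (nat_lit 74232) (nat_lit 8) (node (nat_lit 6) (nat_lit
  74232) (nat_lit 9) (node (nat_lit 7) (nat_lit 75568) (nat_lit 10) nil nil) nil) (node (nat_lit
  6) (nat_lit 74232) (nat_lit 8) (node (nat_lit 7) (nat_lit 75271) (nat_lit 9) nil nil) (node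
  (nat_lit 5) (nat_lit 74232) (nat_lit 8) nil (node (nat_lit 0) (nat_lit 74879) (nat_lit 8) nil
  nil)))) (node (nat_lit 0) (nat_lit 74259) (nat_lit 7) (node (nat_lit 0) (nat_lit 74906) (nat_lit
  8) nil (node (nat_lit 6) (nat_lit 74259) (nat_lit 8) nil nil)) nil)))) (node (nat_lit 0)
  (nat_lit 70506) (nat_lit 6) (node (nat_lit 7) (nat_lit 74268) (nat_lit 7) (node (nat_lit 6)
  (nat_lit 74239) (nat_lit 8) (node (nat_lit 7) (nat_lit 76226) (nat_lit 9) (node (nat_lit 9)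
  (nat_lit 76362) (nat_lit 10) nil nil) (node (nat_lit 0) (nat_lit 75279) (nat_lit 9) nil (node
  (nat_lit 5) (nat_lit 74239) (nat_lit 9) nil (node (nat_lit 4) (nat_lit 74239) (nat_lit 9) nil
  nil)))) (node (nat_lit 9) (nat_lit 75308) (nat_lit 8) nil nil)) (node (nat_lit 6) (nat_lit
  70557) (nat_lit 7) (node (nat_lit 7) (nat_lit 75641) (nat_lit 8) (node (nat_lit 9) (nat_lit
  76034) (nat_lit 9) nil nil) (node (nat_lit 5) (nat_lit 70557) (nat_lit 8) nil (node (nat_lit 4)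
  (nat_lit 70557) (nat_lit 8) nil (node (nat_lit 0) (nat_lit 72082) (nat_lit 8) nil nil)))) (node
  (nat_lit 5) (nat_lit 70605) (nat_lit 7) (node (nat_lit 7) (nat_lit 73170) (nat_lit 8) nil (node
  (nat_lit 9) (nat_lit 72130) (nat_lit 8) nil (node (nat_lit 6) (nat_lit 70605) (nat_lit 8) nil
  nil))) (node (nat_lit 4) (nat_lit 70506) (nat_lit 7) (node (nat_lit 9) (nat_lit 72031) (nat_lit
  8) nil nil) (node (nat_lit 0) (nat_lit 74153) (nat_lit 7) nil nil))))) nil))) (node (nat_lit 5)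
  (nat_lit 0) (nat_lit 5) (node (nat_lit 7) (nat_lit 70426) (nat_lit 6) (node (nat_lit 6) (nat_lit
  71124) (nat_lit 7) (node (nat_lit 7) (nat_lit 75736) (nat_lit 8) (node (nat_lit 5) (nat_lit
  75929) (nat_lit 9) (node (nat_lit 6) (nat_lit 75929) (nat_lit 10) (node (nat_lit 5) (nat_lit
  75929) (nat_lit 11) (node (nat_lit 7) (nat_lit 76362) (nat_lit 12) nil nil) (node (nat_lit 7)
  (nat_lit 76362) (nat_lit 11) nil (node (nat_lit 4) (nat_lit 75929) (nat_lit 11) nil nil))) (node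
  (nat_lit 4) (nat_lit 75929) (nat_lit 10) nil (node (nat_lit 0) (nat_lit 76362) (nat_lit 10) nil
  nil))) nil) (node (nat_lit 5) (nat_lit 71422) (nat_lit 8) (node (nat_lit 6) (nat_lit 71422)
  (nat_lit 9) nil nil) nil)) nil) (node (nat_lit 6) (nat_lit 54462) (nat_lit 6) (node (nat_lit 5)
  (nat_lit 60397) (nat_lit 7) (node (nat_lit 7) (nat_lit 75514) (nat_lit 8) (node (nat_lit 6)
  (nat_lit 75514) (nat_lit 9) nil nil) (node (nat_lit 4) (nat_lit 64013) (nat_lit 8) (node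
  (nat_lit 6) (nat_lit 66905) (nat_lit 9) nil nil) (node (nat_lit 0) (nat_lit 66635) (nat_lit 8)
  nil nil))) (node (nat_lit 4) (nat_lit 58657) (nat_lit 7) (node (nat_lit 5) (nat_lit 57841)
  (nat_lit 8) (node (nat_lit 6) (nat_lit 59118) (nat_lit 9) (node (nat_lit 7) (nat_lit 43687)
  (nat_lit 10) nil nil) nil) (node (nat_lit 6) (nat_lit 58657) (nat_lit 8) nil nil)) (node
  (nat_lit 0) (nat_lit 70672) (nat_lit 7) nil nil))) (node (nat_lit 4) (nat_lit 55097) (nat_lit 6)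
  (node (nat_lit 6) (nat_lit 60229) (nat_lit 7) (node (nat_lit 5) (nat_lit 65961) (nat_lit 8)
  (node (nat_lit 6) (nat_lit 69731) (nat_lit 9) nil (node (nat_lit 4) (nat_lit 68853) (nat_lit 9)
  nil nil)) (node (nat_lit 4) (nat_lit 64757) (nat_lit 8) (node (nat_lit 5) (nat_lit 67277)
  (nat_lit 9) nil nil) (node (nat_lit 7) (nat_lit 66467) (nat_lit 8) nil nil))) (node (nat_lit 5)
  (nat_lit 59951) (nat_lit 7) (node (nat_lit 6) (nat_lit 63039) (nat_lit 8) (node (nat_lit 7)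
  (nat_lit 36204) (nat_lit 9) nil (node (nat_lit 5) (nat_lit 65931) (nat_lit 9) nil nil)) nil)
  (node (nat_lit 7) (nat_lit 72307) (nat_lit 7) nil (node (nat_lit 0) (nat_lit 72307) (nat_lit 7)
  nil nil)))) (node (nat_lit 0) (nat_lit 69579) (nat_lit 6) (node (nat_lit 0) (nat_lit 70458)
  (nat_lit 7) nil (node (nat_lit 6) (nat_lit 69579) (nat_lit 7) nil (node (nat_lit 7) (nat_lit
  71105) (nat_lit 7) nil nil))) nil)))) (node (nat_lit 4) (nat_lit 0) (nat_lit 5) (node (nat_lit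
  5) (nat_lit 53479) (nat_lit 6) (node (nat_lit 6) (nat_lit 57046) (nat_lit 7) (node (nat_lit 4)
  (nat_lit 60067) (nat_lit 8) (node (nat_lit 6) (nat_lit 63539) (nat_lit 9) (node (nat_lit 5)
  (nat_lit 62753) (nat_lit 10) (node (nat_lit 4) (nat_lit 60315) (nat_lit 11) (node (nat_lit 5)
  (nat_lit 57996) (nat_lit 12) (node (nat_lit 6) (nat_lit 53025) (nat_lit 13) nil nil) nil) nil)
  nil) nil) (node (nat_lit 5) (nat_lit 57046) (nat_lit 8) nil nil)) (node (nat_lit 4) (nat_lit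
  56837) (nat_lit 7) (node (nat_lit 6) (nat_lit 56837) (nat_lit 8) nil nil) (node (nat_lit 7)
  (nat_lit 67675) (nat_lit 7) nil (node (nat_lit 0) (nat_lit 59071) (nat_lit 7) nil nil)))) (node
  (nat_lit 6) (nat_lit 0) (nat_lit 6) (node (nat_lit 5) (nat_lit 59038) (nat_lit 7) (node (nat_lit
  4) (nat_lit 61830) (nat_lit 8) nil (node (nat_lit 6) (nat_lit 59038) (nat_lit 8) nil nil)) (node
  (nat_lit 4) (nat_lit 59345) (nat_lit 7) (node (nat_lit 7) (nat_lit 74396) (nat_lit 8) (node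
  (nat_lit 6) (nat_lit 74396) (nat_lit 9) nil nil) (node (nat_lit 5) (nat_lit 58528) (nat_lit 8)
  nil nil)) (node (nat_lit 0) (nat_lit 70584) (nat_lit 7) nil (node (nat_lit 7) (nat_lit 63313)
  (nat_lit 7) nil nil)))) (node (nat_lit 7) (nat_lit 70316) (nat_lit 6) (node (nat_lit 6) (nat_lit
  70342) (nat_lit 7) (node (nat_lit 7) (nat_lit 74916) (nat_lit 8) (node (nat_lit 4) (nat_lit
  74916) (nat_lit 9) (node (nat_lit 6) (nat_lit 74916) (nat_lit 10) nil nil) nil) nil) nil) (node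
  (nat_lit 0) (nat_lit 69338) (nat_lit 6) nil nil)))) (node (nat_lit 0) (nat_lit 0) (nat_lit 5)
  (node (nat_lit 6) (nat_lit 62621) (nat_lit 6) (node (nat_lit 7) (nat_lit 73592) (nat_lit 7)
  (node (nat_lit 6) (nat_lit 73438) (nat_lit 8) (node (nat_lit 8) (nat_lit 75168) (nat_lit 9) nil
  nil) (node (nat_lit 5) (nat_lit 73592) (nat_lit 8) nil (node (nat_lit 0) (nat_lit 74239)
  (nat_lit 8) nil nil))) (node (nat_lit 8) (nat_lit 71724) (nat_lit 7) (node (nat_lit 7) (nat_lit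
  72371) (nat_lit 8) nil nil) (node (nat_lit 0) (nat_lit 65321) (nat_lit 7) nil (node (nat_lit 5)
  (nat_lit 62621) (nat_lit 7) nil nil)))) (node (nat_lit 7) (nat_lit 70801) (nat_lit 6) (node
  (nat_lit 6) (nat_lit 70713) (nat_lit 7) (node (nat_lit 7) (nat_lit 74725) (nat_lit 8) (node
  (nat_lit 8) (nat_lit 75416) (nat_lit 9) (node (nat_lit 6) (nat_lit 75416) (nat_lit 10) nil nil)
  nil) nil) nil) (node (nat_lit 5) (nat_lit 62493) (nat_lit 6) nil (node (nat_lit 4) (nat_lit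
  62493) (nat_lit 6) nil (node (nat_lit 0) (nat_lit 67601) (nat_lit 6) nil nil))))) nil)))) (node
  (nat_lit 5) (nat_lit 0) (nat_lit 4) (node (nat_lit 0) (nat_lit 0) (nat_lit 5) (node (nat_lit 6)
  (nat_lit 0) (nat_lit 6) (node (nat_lit 5) (nat_lit 47924) (nat_lit 7) (node (nat_lit 6) (nat_lit
  51455) (nat_lit 8) (node (nat_lit 8) (nat_lit 64387) (nat_lit 9) (node (nat_lit 5) (nat_lit
  64682) (nat_lit 10) (node (nat_lit 8) (nat_lit 65666) (nat_lit 11) (node (nat_lit 6) (nat_lit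
  65666) (nat_lit 12) nil nil) (node (nat_lit 6) (nat_lit 64584) (nat_lit 11) (node (nat_lit 5)
  (nat_lit 64584) (nat_lit 12) (node (nat_lit 8) (nat_lit 65577) (nat_lit 13) nil nil) (node
  (nat_lit 0) (nat_lit 65383) (nat_lit 12) nil (node (nat_lit 4) (nat_lit 64584) (nat_lit 12) nil
  nil))) (node (nat_lit 4) (nat_lit 64682) (nat_lit 11) nil (node (nat_lit 0) (nat_lit 65404)
  (nat_lit 11) nil nil)))) (node (nat_lit 6) (nat_lit 64722) (nat_lit 10) (node (nat_lit 5)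
  (nat_lit 65031) (nat_lit 11) (node (nat_lit 8) (nat_lit 65876) (nat_lit 12) (node (nat_lit 5)
  (nat_lit 65876) (nat_lit 13) nil nil) (node (nat_lit 4) (nat_lit 65031) (nat_lit 12) nil (node
  (nat_lit 0) (nat_lit 65513) (nat_lit 12) nil nil))) (node (nat_lit 4) (nat_lit 64722) (nat_lit
  11) nil (node (nat_lit 0) (nat_lit 65666) (nat_lit 11) nil nil))) (node (nat_lit 4) (nat_lit
  64387) (nat_lit 10) nil (node (nat_lit 0) (nat_lit 65210) (nat_lit 10) nil nil)))) (node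
  (nat_lit 4) (nat_lit 55403) (nat_lit 9) (node (nat_lit 5) (nat_lit 60125) (nat_lit 10) (node
  (nat_lit 4) (nat_lit 61297) (nat_lit 11) (node (nat_lit 6) (nat_lit 60525) (nat_lit 12) (node
  (nat_lit 4) (nat_lit 60726) (nat_lit 13) (node (nat_lit 5) (nat_lit 59785) (nat_lit 14) (node
  (nat_lit 6) (nat_lit 57532) (nat_lit 15) nil nil) nil) nil) nil) (node (nat_lit 6) (nat_lit
  61988) (nat_lit 11) (node (nat_lit 5) (nat_lit 60513) (nat_lit 12) (node (nat_lit 8) (nat_lit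
  40422) (nat_lit 13) (node (nat_lit 6) (nat_lit 40422) (nat_lit 14) nil nil) nil) nil) nil))
  (node (nat_lit 6) (nat_lit 59808) (nat_lit 10) (node (nat_lit 5) (nat_lit 60723) (nat_lit 11)
  (node (nat_lit 4) (nat_lit 59545) (nat_lit 12) (node (nat_lit 5) (nat_lit 57899) (nat_lit 13)
  (node (nat_lit 6) (nat_lit 54688) (nat_lit 14) nil nil) nil) nil) (node (nat_lit 8) (nat_lit
  62287) (nat_lit 11) nil (node (nat_lit 0) (nat_lit 62287) (nat_lit 11) nil nil))) (node (nat_lit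
  8) (nat_lit 63793) (nat_lit 10) nil (node (nat_lit 0) (nat_lit 63360) (nat_lit 10) nil nil))))
  (node (nat_lit 0) (nat_lit 64692) (nat_lit 9) (node (nat_lit 8) (nat_lit 64990) (nat_lit 10) nil
  (node (nat_lit 5) (nat_lit 64692) (nat_lit 10) nil (node (nat_lit 6) (nat_lit 64692) (nat_lit
  10) nil (node (nat_lit 0) (nat_lit 64990) (nat_lit 10) nil nil)))) nil))) (node (nat_lit 4)
  (nat_lit 52109) (nat_lit 8) (node (nat_lit 6) (nat_lit 56589) (nat_lit 9) (node (nat_lit 4)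
  (nat_lit 59937) (nat_lit 10) nil (node (nat_lit 5) (nat_lit 60536) (nat_lit 10) (node (nat_lit
  6) (nat_lit 59444) (nat_lit 11) nil nil) (node (nat_lit 8) (nat_lit 64966) (nat_lit 10) nil
  (node (nat_lit 0) (nat_lit 63126) (nat_lit 10) nil nil)))) (node (nat_lit 5) (nat_lit 56152)
  (nat_lit 9) (node (nat_lit 6) (nat_lit 58886) (nat_lit 10) (node (nat_lit 8) (nat_lit 61365)
  (nat_lit 11) nil nil) (node (nat_lit 8) (nat_lit 62688) (nat_lit 10) nil (node (nat_lit 0)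
  (nat_lit 62688) (nat_lit 10) nil nil))) (node (nat_lit 8) (nat_lit 64579) (nat_lit 9) (node
  (nat_lit 5) (nat_lit 64579) (nat_lit 10) nil nil) (node (nat_lit 0) (nat_lit 63558) (nat_lit 9)
  nil nil)))) (node (nat_lit 0) (nat_lit 62644) (nat_lit 8) (node (nat_lit 5) (nat_lit 62644)
  (nat_lit 9) nil (node (nat_lit 8) (nat_lit 63629) (nat_lit 9) nil (node (nat_lit 6) (nat_lit
  62644) (nat_lit 9) nil (node (nat_lit 4) (nat_lit 62644) (nat_lit 9) nil (node (nat_lit 0)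
  (nat_lit 63335) (nat_lit 9) nil nil))))) nil))) (node (nat_lit 8) (nat_lit 58591) (nat_lit 7)
  (node (nat_lit 5) (nat_lit 59415) (nat_lit 8) (node (nat_lit 8) (nat_lit 62621) (nat_lit 9) nil
  (node (nat_lit 6) (nat_lit 59415) (nat_lit 9) (node (nat_lit 8) (nat_lit 60753) (nat_lit 10) nil
  nil) nil)) (node (nat_lit 4) (nat_lit 58591) (nat_lit 8) nil nil)) (node (nat_lit 4) (nat_lit
  48196) (nat_lit 7) (node (nat_lit 8) (nat_lit 58331) (nat_lit 8) nil (node (nat_lit 5) (nat_lit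
  48196) (nat_lit 8) nil nil)) (node (nat_lit 0) (nat_lit 55637) (nat_lit 7) nil nil)))) (node
  (nat_lit 4) (nat_lit 44564) (nat_lit 6) (node (nat_lit 5) (nat_lit 48041) (nat_lit 7) (node
  (nat_lit 6) (nat_lit 48369) (nat_lit 8) (node (nat_lit 4) (nat_lit 48369) (nat_lit 9) nil nil)
  (node (nat_lit 4) (nat_lit 51202) (nat_lit 8) (node (nat_lit 6) (nat_lit 51384) (nat_lit 9) nil
  (node (nat_lit 8) (nat_lit 54941) (nat_lit 9) nil nil)) (node (nat_lit 0) (nat_lit 54878)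
  (nat_lit 8) nil nil))) (node (nat_lit 6) (nat_lit 44969) (nat_lit 7) (node (nat_lit 8) (nat_lit
  48315) (nat_lit 8) nil nil) (node (nat_lit 8) (nat_lit 53796) (nat_lit 7) nil (node (nat_lit 0)
  (nat_lit 47263) (nat_lit 7) nil nil)))) (node (nat_lit 5) (nat_lit 0) (nat_lit 6) (node (nat_lit
  6) (nat_lit 47741) (nat_lit 7) (node (nat_lit 8) (nat_lit 62255) (nat_lit 8) (node (nat_lit 6)
  (nat_lit 62599) (nat_lit 9) (node (nat_lit 5) (nat_lit 62982) (nat_lit 10) (node (nat_lit 8)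
  (nat_lit 65636) (nat_lit 11) (node (nat_lit 5) (nat_lit 65636) (nat_lit 12) (node (nat_lit 6)
  (nat_lit 65636) (nat_lit 13) nil nil) nil) nil) nil) nil) (node (nat_lit 0) (nat_lit 54578)
  (nat_lit 8) nil (node (nat_lit 4) (nat_lit 47741) (nat_lit 8) nil nil))) (node (nat_lit 0)
  (nat_lit 54183) (nat_lit 7) nil (node (nat_lit 4) (nat_lit 44950) (nat_lit 7) nil nil))) (node
  (nat_lit 0) (nat_lit 52414) (nat_lit 6) (node (nat_lit 5) (nat_lit 52414) (nat_lit 7) nil (node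
  (nat_lit 6) (nat_lit 52414) (nat_lit 7) nil nil)) nil)))) nil) (node (nat_lit 4) (nat_lit 0)
  (nat_lit 4) (node (nat_lit 0) (nat_lit 0) (nat_lit 5) (node (nat_lit 6) (nat_lit 0) (nat_lit 6)
  (node (nat_lit 4) (nat_lit 39245) (nat_lit 7) (node (nat_lit 6) (nat_lit 43820) (nat_lit 8)
  (node (nat_lit 8) (nat_lit 54701) (nat_lit 9) (node (nat_lit 6) (nat_lit 54701) (nat_lit 10)
  (node (nat_lit 4) (nat_lit 54701) (nat_lit 11) nil nil) nil) (node (nat_lit 5) (nat_lit 47271)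
  (nat_lit 9) (node (nat_lit 4) (nat_lit 48499) (nat_lit 10) nil (node (nat_lit 8) (nat_lit 53636)
  (nat_lit 10) nil (node (nat_lit 0) (nat_lit 51309) (nat_lit 10) nil nil))) (node (nat_lit 0)
  (nat_lit 54102) (nat_lit 9) nil nil))) (node (nat_lit 5) (nat_lit 44156) (nat_lit 8) (node
  (nat_lit 6) (nat_lit 47446) (nat_lit 9) (node (nat_lit 5) (nat_lit 49268) (nat_lit 10) nil (node
  (nat_lit 4) (nat_lit 49268) (nat_lit 10) (node (nat_lit 8) (nat_lit 33918) (nat_lit 11) nil nil)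
  (node (nat_lit 8) (nat_lit 53932) (nat_lit 10) nil (node (nat_lit 0) (nat_lit 51484) (nat_lit
  10) nil nil)))) (node (nat_lit 4) (nat_lit 47970) (nat_lit 9) (node (nat_lit 6) (nat_lit 48759)
  (nat_lit 10) nil (node (nat_lit 8) (nat_lit 52007) (nat_lit 10) nil (node (nat_lit 0) (nat_lit
  52007) (nat_lit 10) nil nil))) (node (nat_lit 8) (nat_lit 53674) (nat_lit 9) nil (node (nat_lit
  0) (nat_lit 51704) (nat_lit 9) nil nil)))) (node (nat_lit 0) (nat_lit 52375) (nat_lit 8) (node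
  (nat_lit 8) (nat_lit 52767) (nat_lit 9) nil (node (nat_lit 4) (nat_lit 52375) (nat_lit 9) nil
  (node (nat_lit 6) (nat_lit 52375) (nat_lit 9) nil nil))) nil))) (node (nat_lit 5) (nat_lit
  37186) (nat_lit 7) (node (nat_lit 8) (nat_lit 40533) (nat_lit 8) nil nil) (node (nat_lit 8)
  (nat_lit 43097) (nat_lit 7) nil (node (nat_lit 0) (nat_lit 40032) (nat_lit 7) nil nil)))) (node
  (nat_lit 5) (nat_lit 35488) (nat_lit 6) (node (nat_lit 4) (nat_lit 39669) (nat_lit 7) (node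
  (nat_lit 6) (nat_lit 41455) (nat_lit 8) (node (nat_lit 5) (nat_lit 41455) (nat_lit 9) nil nil)
  (node (nat_lit 5) (nat_lit 41199) (nat_lit 8) (node (nat_lit 8) (nat_lit 44938) (nat_lit 9) nil
  (node (nat_lit 6) (nat_lit 41199) (nat_lit 9) nil nil)) (node (nat_lit 0) (nat_lit 43016)
  (nat_lit 8) nil nil))) (node (nat_lit 6) (nat_lit 35488) (nat_lit 7) nil (node (nat_lit 8)
  (nat_lit 38188) (nat_lit 7) nil nil))) (node (nat_lit 4) (nat_lit 0) (nat_lit 6) (node (nat_lit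
  6) (nat_lit 39095) (nat_lit 7) (node (nat_lit 8) (nat_lit 52224) (nat_lit 8) (node (nat_lit 6)
  (nat_lit 52224) (nat_lit 9) (node (nat_lit 4) (nat_lit 52224) (nat_lit 10) (node (nat_lit 8)
  (nat_lit 53178) (nat_lit 11) nil nil) nil) nil) nil) (node (nat_lit 5) (nat_lit 34833) (nat_lit
  7) nil (node (nat_lit 0) (nat_lit 37532) (nat_lit 7) nil nil))) (node (nat_lit 0) (nat_lit
  40426) (nat_lit 6) nil nil)))) (node (nat_lit 5) (nat_lit 0) (nat_lit 5) (node (nat_lit 4)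
  (nat_lit 0) (nat_lit 6) (node (nat_lit 6) (nat_lit 0) (nat_lit 7) (node (nat_lit 4) (nat_lit 0)
  (nat_lit 8) (node (nat_lit 5) (nat_lit 19153) (nat_lit 9) nil (node (nat_lit 0) (nat_lit 22202)
  (nat_lit 9) nil nil)) (node (nat_lit 0) (nat_lit 27958) (nat_lit 8) nil nil)) (node (nat_lit 0)
  (nat_lit 27523) (nat_lit 7) nil nil)) (node (nat_lit 0) (nat_lit 25546) (nat_lit 6) (node
  (nat_lit 5) (nat_lit 25546) (nat_lit 7) nil (node (nat_lit 4) (nat_lit 25546) (nat_lit 7) nil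
  (node (nat_lit 6) (nat_lit 25546) (nat_lit 7) nil nil))) nil)) nil)) nil)))

noncomputable def t419 : Tr :=
  (node (nat_lit 3) (nat_lit 0) (nat_lit 2) (node (nat_lit 0) (nat_lit 0) (nat_lit 3) t417 (node
  (nat_lit 3) (nat_lit 0) (nat_lit 3) t418 (node (nat_lit 4) (nat_lit 0) (nat_lit 3) (node
  (nat_lit 0) (nat_lit 0) (nat_lit 4) (node (nat_lit 4) (nat_lit 0) (nat_lit 5) (node (nat_lit 5)
  (nat_lit 37801) (nat_lit 6) (node (nat_lit 7) (nat_lit 50901) (nat_lit 7) (node (nat_lit 4)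
  (nat_lit 50901) (nat_lit 8) (node (nat_lit 7) (nat_lit 51567) (nat_lit 9) (node (nat_lit 5)
  (nat_lit 51567) (nat_lit 10) (node (nat_lit 4) (nat_lit 51567) (nat_lit 11) nil (node (nat_lit
  7) (nat_lit 51567) (nat_lit 11) nil nil)) (node (nat_lit 3) (nat_lit 51567) (nat_lit 10) nil
  nil)) (node (nat_lit 3) (nat_lit 50901) (nat_lit 9) (node (nat_lit 4) (nat_lit 50439) (nat_lit
  10) (node (nat_lit 5) (nat_lit 50439) (nat_lit 11) nil nil) (node (nat_lit 5) (nat_lit 50901)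
  (nat_lit 10) nil (node (nat_lit 7) (nat_lit 51567) (nat_lit 10) nil (node (nat_lit 0) (nat_lit
  51567) (nat_lit 10) nil nil)))) (node (nat_lit 0) (nat_lit 51567) (nat_lit 9) nil nil))) (node
  (nat_lit 5) (nat_lit 50901) (nat_lit 8) (node (nat_lit 4) (nat_lit 50901) (nat_lit 9) (node
  (nat_lit 7) (nat_lit 51567) (nat_lit 10) nil nil) nil) (node (nat_lit 3) (nat_lit 50901)
  (nat_lit 8) nil (node (nat_lit 0) (nat_lit 51238) (nat_lit 8) nil nil)))) (node (nat_lit 3)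
  (nat_lit 40644) (nat_lit 7) (node (nat_lit 4) (nat_lit 44451) (nat_lit 8) (node (nat_lit 5)
  (nat_lit 46879) (nat_lit 9) (node (nat_lit 4) (nat_lit 46375) (nat_lit 10) (node (nat_lit 7)
  (nat_lit 31178) (nat_lit 11) nil nil) nil) (node (nat_lit 10) (nat_lit 46403) (nat_lit 9) nil
  (node (nat_lit 0) (nat_lit 48106) (nat_lit 9) nil (node (nat_lit 7) (nat_lit 48106) (nat_lit 9)
  nil nil)))) (node (nat_lit 5) (nat_lit 44707) (nat_lit 8) (node (nat_lit 4) (nat_lit 46656)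
  (nat_lit 9) (node (nat_lit 10) (nat_lit 43726) (nat_lit 10) nil nil) (node (nat_lit 7) (nat_lit
  50578) (nat_lit 9) nil (node (nat_lit 0) (nat_lit 48362) (nat_lit 9) nil nil))) (node (nat_lit
  7) (nat_lit 51027) (nat_lit 8) nil (node (nat_lit 0) (nat_lit 51027) (nat_lit 8) nil nil))))
  (node (nat_lit 4) (nat_lit 41226) (nat_lit 7) (node (nat_lit 3) (nat_lit 44764) (nat_lit 8)
  (node (nat_lit 4) (nat_lit 46447) (nat_lit 9) nil (node (nat_lit 5) (nat_lit 43759) (nat_lit 9)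
  nil nil)) (node (nat_lit 0) (nat_lit 48417) (nat_lit 8) nil nil)) (node (nat_lit 0) (nat_lit
  50331) (nat_lit 7) (node (nat_lit 0) (nat_lit 50669) (nat_lit 8) nil nil) nil)))) (node (nat_lit
  3) (nat_lit 37721) (nat_lit 6) (node (nat_lit 5) (nat_lit 40848) (nat_lit 7) (node (nat_lit 4)
  (nat_lit 44480) (nat_lit 8) (node (nat_lit 9) (nat_lit 47042) (nat_lit 9) nil (node (nat_lit 5)
  (nat_lit 46911) (nat_lit 9) (node (nat_lit 9) (nat_lit 43981) (nat_lit 10) nil nil) (node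
  (nat_lit 7) (nat_lit 48136) (nat_lit 9) nil (node (nat_lit 0) (nat_lit 48136) (nat_lit 9) nil
  nil)))) (node (nat_lit 9) (nat_lit 44907) (nat_lit 8) (node (nat_lit 4) (nat_lit 47468) (nat_lit
  9) (node (nat_lit 5) (nat_lit 48438) (nat_lit 10) nil nil) (node (nat_lit 7) (nat_lit 50778)
  (nat_lit 9) nil (node (nat_lit 0) (nat_lit 48562) (nat_lit 9) nil nil))) (node (nat_lit 7)
  (nat_lit 51041) (nat_lit 8) nil (node (nat_lit 0) (nat_lit 51041) (nat_lit 8) nil nil)))) (node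
  (nat_lit 4) (nat_lit 40975) (nat_lit 7) (node (nat_lit 7) (nat_lit 51345) (nat_lit 8) (node
  (nat_lit 9) (nat_lit 51345) (nat_lit 9) (node (nat_lit 7) (nat_lit 51567) (nat_lit 10) nil (node
  (nat_lit 4) (nat_lit 51345) (nat_lit 10) nil nil)) nil) (node (nat_lit 5) (nat_lit 44545)
  (nat_lit 8) (node (nat_lit 9) (nat_lit 47107) (nat_lit 9) nil (node (nat_lit 4) (nat_lit 44419)
  (nat_lit 9) (node (nat_lit 7) (nat_lit 38397) (nat_lit 10) nil nil) (node (nat_lit 7) (nat_lit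
  50417) (nat_lit 9) nil nil))) (node (nat_lit 0) (nat_lit 51041) (nat_lit 8) nil nil))) (node
  (nat_lit 7) (nat_lit 50528) (nat_lit 7) (node (nat_lit 9) (nat_lit 50528) (nat_lit 8) (node
  (nat_lit 4) (nat_lit 50528) (nat_lit 9) nil nil) (node (nat_lit 4) (nat_lit 50528) (nat_lit 8)
  (node (nat_lit 7) (nat_lit 51071) (nat_lit 9) nil nil) (node (nat_lit 5) (nat_lit 50528)
  (nat_lit 8) nil nil))) (node (nat_lit 0) (nat_lit 50513) (nat_lit 7) nil nil)))) (node (nat_lit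
  0) (nat_lit 48339) (nat_lit 6) (node (nat_lit 7) (nat_lit 50876) (nat_lit 7) (node (nat_lit 4)
  (nat_lit 50876) (nat_lit 8) (node (nat_lit 7) (nat_lit 51567) (nat_lit 9) nil (node (nat_lit 0)
  (nat_lit 51419) (nat_lit 9) nil nil)) (node (nat_lit 9) (nat_lit 51214) (nat_lit 8) nil nil))
  (node (nat_lit 4) (nat_lit 48134) (nat_lit 7) (node (nat_lit 7) (nat_lit 50525) (nat_lit 8) nil
  (node (nat_lit 5) (nat_lit 48134) (nat_lit 8) nil (node (nat_lit 3) (nat_lit 48134) (nat_lit 8)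
  nil (node (nat_lit 0) (nat_lit 48931) (nat_lit 8) nil nil)))) (node (nat_lit 5) (nat_lit 48601)
  (nat_lit 7) (node (nat_lit 7) (nat_lit 50438) (nat_lit 8) nil (node (nat_lit 9) (nat_lit 49398)
  (nat_lit 8) nil (node (nat_lit 4) (nat_lit 48601) (nat_lit 8) nil nil))) (node (nat_lit 3)
  (nat_lit 48339) (nat_lit 7) nil (node (nat_lit 0) (nat_lit 50613) (nat_lit 7) nil nil)))))
  nil))) (node (nat_lit 5) (nat_lit 0) (nat_lit 5) (node (nat_lit 7) (nat_lit 48167) (nat_lit 6)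
  (node (nat_lit 4) (nat_lit 48606) (nat_lit 7) (node (nat_lit 7) (nat_lit 51567) (nat_lit 8)
  (node (nat_lit 5) (nat_lit 51567) (nat_lit 9) (node (nat_lit 4) (nat_lit 51567) (nat_lit 10)
  (node (nat_lit 5) (nat_lit 51567) (nat_lit 11) (node (nat_lit 7) (nat_lit 51567) (nat_lit 12)
  nil nil) (node (nat_lit 7) (nat_lit 51567) (nat_lit 11) nil (node (nat_lit 3) (nat_lit 51567)
  (nat_lit 11) nil nil))) (node (nat_lit 3) (nat_lit 51567) (nat_lit 10) nil (node (nat_lit 0)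
  (nat_lit 51567) (nat_lit 10) nil nil))) nil) (node (nat_lit 5) (nat_lit 48606) (nat_lit 8) nil
  nil)) nil) (node (nat_lit 3) (nat_lit 38005) (nat_lit 6) (node (nat_lit 4) (nat_lit 40871)
  (nat_lit 7) (node (nat_lit 5) (nat_lit 44768) (nat_lit 8) (node (nat_lit 4) (nat_lit 47870)
  (nat_lit 9) (node (nat_lit 7) (nat_lit 12649) (nat_lit 10) nil nil) (node (nat_lit 9) (nat_lit
  46451) (nat_lit 9) nil nil)) (node (nat_lit 9) (nat_lit 42759) (nat_lit 8) (node (nat_lit 5)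
  (nat_lit 43328) (nat_lit 9) nil nil) nil)) (node (nat_lit 5) (nat_lit 40400) (nat_lit 7) (node
  (nat_lit 4) (nat_lit 42928) (nat_lit 8) nil nil) (node (nat_lit 7) (nat_lit 47955) (nat_lit 7)
  nil (node (nat_lit 0) (nat_lit 47955) (nat_lit 7) nil nil)))) (node (nat_lit 4) (nat_lit 38027)
  (nat_lit 6) (node (nat_lit 5) (nat_lit 41427) (nat_lit 7) (node (nat_lit 7) (nat_lit 51567)
  (nat_lit 8) nil (node (nat_lit 3) (nat_lit 44132) (nat_lit 8) (node (nat_lit 4) (nat_lit 45815)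
  (nat_lit 9) nil nil) (node (nat_lit 0) (nat_lit 44877) (nat_lit 8) nil nil))) (node (nat_lit 3)
  (nat_lit 40854) (nat_lit 7) (node (nat_lit 5) (nat_lit 42675) (nat_lit 8) nil (node (nat_lit 4)
  (nat_lit 40854) (nat_lit 8) nil nil)) (node (nat_lit 0) (nat_lit 44487) (nat_lit 7) nil nil)))
  (node (nat_lit 0) (nat_lit 48356) (nat_lit 6) (node (nat_lit 0) (nat_lit 48815) (nat_lit 7) nil
  nil) nil)))) (node (nat_lit 3) (nat_lit 0) (nat_lit 5) (node (nat_lit 5) (nat_lit 36499)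
  (nat_lit 6) (node (nat_lit 4) (nat_lit 39820) (nat_lit 7) (node (nat_lit 8) (nat_lit 39711)
  (nat_lit 8) nil nil) (node (nat_lit 8) (nat_lit 38939) (nat_lit 7) (node (nat_lit 4) (nat_lit
  38939) (nat_lit 8) nil nil) (node (nat_lit 7) (nat_lit 46449) (nat_lit 7) nil nil))) (node
  (nat_lit 4) (nat_lit 0) (nat_lit 6) (node (nat_lit 5) (nat_lit 40089) (nat_lit 7) (node (nat_lit
  8) (nat_lit 41911) (nat_lit 8) nil (node (nat_lit 4) (nat_lit 40089) (nat_lit 8) nil nil)) (node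
  (nat_lit 8) (nat_lit 40815) (nat_lit 7) (node (nat_lit 7) (nat_lit 49698) (nat_lit 8) nil (node
  (nat_lit 5) (nat_lit 40876) (nat_lit 8) nil nil)) (node (nat_lit 0) (nat_lit 44317) (nat_lit 7)
  nil (node (nat_lit 7) (nat_lit 40969) (nat_lit 7) nil nil)))) (node (nat_lit 7) (nat_lit 47966)
  (nat_lit 6) (node (nat_lit 4) (nat_lit 47761) (nat_lit 7) (node (nat_lit 7) (nat_lit 50525)
  (nat_lit 8) (node (nat_lit 8) (nat_lit 50525) (nat_lit 9) nil nil) nil) nil) (node (nat_lit 0)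
  (nat_lit 47112) (nat_lit 6) nil nil)))) (node (nat_lit 0) (nat_lit 0) (nat_lit 5) (node (nat_lit
  4) (nat_lit 42922) (nat_lit 6) (node (nat_lit 7) (nat_lit 49769) (nat_lit 7) (node (nat_lit 4)
  (nat_lit 49769) (nat_lit 8) (node (nat_lit 8) (nat_lit 50312) (nat_lit 9) nil nil) nil) (node
  (nat_lit 8) (nat_lit 48942) (nat_lit 7) nil (node (nat_lit 0) (nat_lit 44351) (nat_lit 7) nil
  (node (nat_lit 5) (nat_lit 42922) (nat_lit 7) nil nil)))) (node (nat_lit 7) (nat_lit 48327)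
  (nat_lit 6) (node (nat_lit 4) (nat_lit 48327) (nat_lit 7) (node (nat_lit 7) (nat_lit 50164)
  (nat_lit 8) nil nil) nil) (node (nat_lit 5) (nat_lit 43670) (nat_lit 6) nil (node (nat_lit 3)
  (nat_lit 43670) (nat_lit 6) nil (node (nat_lit 0) (nat_lit 46740) (nat_lit 6) nil nil)))))
  nil)))) (node (nat_lit 3) (nat_lit 0) (nat_lit 4) (node (nat_lit 0) (nat_lit 0) (nat_lit 5)
  (node (nat_lit 4) (nat_lit 0) (nat_lit 6) (node (nat_lit 7) (nat_lit 41643) (nat_lit 7) (node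
  (nat_lit 4) (nat_lit 44714) (nat_lit 8) (node (nat_lit 8) (nat_lit 51567) (nat_lit 9) (node
  (nat_lit 4) (nat_lit 51567) (nat_lit 10) (node (nat_lit 7) (nat_lit 51567) (nat_lit 11) (node
  (nat_lit 8) (nat_lit 51567) (nat_lit 12) nil nil) (node (nat_lit 0) (nat_lit 51567) (nat_lit 11)
  nil (node (nat_lit 5) (nat_lit 51567) (nat_lit 11) nil nil))) (node (nat_lit 7) (nat_lit 51567)
  (nat_lit 10) nil nil)) (node (nat_lit 5) (nat_lit 47816) (nat_lit 9) (node (nat_lit 7) (nat_lit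
  50007) (nat_lit 10) nil (node (nat_lit 8) (nat_lit 51567) (nat_lit 10) nil (node (nat_lit 0)
  (nat_lit 49943) (nat_lit 10) nil nil))) (node (nat_lit 0) (nat_lit 51391) (nat_lit 9) nil nil)))
  (node (nat_lit 5) (nat_lit 45037) (nat_lit 8) (node (nat_lit 4) (nat_lit 47829) (nat_lit 9)
  (node (nat_lit 8) (nat_lit 49957) (nat_lit 10) nil nil) (node (nat_lit 8) (nat_lit 51567)
  (nat_lit 9) nil (node (nat_lit 7) (nat_lit 47431) (nat_lit 9) (node (nat_lit 4) (nat_lit 48401)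
  (nat_lit 10) nil nil) (node (nat_lit 0) (nat_lit 50797) (nat_lit 9) nil nil)))) (node (nat_lit
  0) (nat_lit 51053) (nat_lit 8) nil nil))) (node (nat_lit 5) (nat_lit 39805) (nat_lit 7) (node
  (nat_lit 8) (nat_lit 45063) (nat_lit 8) nil nil) (node (nat_lit 8) (nat_lit 46943) (nat_lit 7)
  nil (node (nat_lit 0) (nat_lit 43877) (nat_lit 7) nil nil)))) (node (nat_lit 5) (nat_lit 38939)
  (nat_lit 6) (node (nat_lit 7) (nat_lit 41000) (nat_lit 7) (node (nat_lit 4) (nat_lit 41489)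
  (nat_lit 8) (node (nat_lit 5) (nat_lit 41489) (nat_lit 9) nil nil) (node (nat_lit 5) (nat_lit
  42367) (nat_lit 8) (node (nat_lit 8) (nat_lit 44340) (nat_lit 9) nil (node (nat_lit 4) (nat_lit
  42367) (nat_lit 9) nil nil)) (node (nat_lit 0) (nat_lit 42767) (nat_lit 8) nil nil))) (node
  (nat_lit 4) (nat_lit 38939) (nat_lit 7) nil (node (nat_lit 8) (nat_lit 43141) (nat_lit 7) nil
  nil))) (node (nat_lit 7) (nat_lit 0) (nat_lit 6) (node (nat_lit 4) (nat_lit 40804) (nat_lit 7)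
  (node (nat_lit 8) (nat_lit 50179) (nat_lit 8) (node (nat_lit 4) (nat_lit 50179) (nat_lit 9)
  (node (nat_lit 7) (nat_lit 50179) (nat_lit 10) nil nil) nil) nil) (node (nat_lit 5) (nat_lit
  38740) (nat_lit 7) nil (node (nat_lit 0) (nat_lit 40169) (nat_lit 7) nil nil))) (node (nat_lit
  0) (nat_lit 44096) (nat_lit 6) nil nil)))) (node (nat_lit 5) (nat_lit 0) (nat_lit 5) (node
  (nat_lit 4) (nat_lit 0) (nat_lit 6) (node (nat_lit 5) (nat_lit 0) (nat_lit 7) (node (nat_lit 7)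
  (nat_lit 25114) (nat_lit 8) (node (nat_lit 4) (nat_lit 21614) (nat_lit 9) nil (node (nat_lit 0)
  (nat_lit 29689) (nat_lit 9) nil nil)) (node (nat_lit 0) (nat_lit 35226) (nat_lit 8) nil nil))
  (node (nat_lit 0) (nat_lit 35521) (nat_lit 7) (node (nat_lit 5) (nat_lit 35521) (nat_lit 8)
  (node (nat_lit 7) (nat_lit 35521) (nat_lit 9) nil nil) nil) nil)) (node (nat_lit 7) (nat_lit 0)
  (nat_lit 6) (node (nat_lit 4) (nat_lit 0) (nat_lit 7) (node (nat_lit 7) (nat_lit 0) (nat_lit 8)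
  (node (nat_lit 5) (nat_lit 12808) (nat_lit 9) nil (node (nat_lit 0) (nat_lit 18259) (nat_lit 9)
  nil nil)) (node (nat_lit 0) (nat_lit 26723) (nat_lit 8) nil nil)) (node (nat_lit 0) (nat_lit
  32213) (nat_lit 7) (node (nat_lit 5) (nat_lit 32213) (nat_lit 8) nil nil) nil)) (node (nat_lit
  0) (nat_lit 33921) (nat_lit 6) (node (nat_lit 5) (nat_lit 33921) (nat_lit 7) nil (node (nat_lit
  7) (nat_lit 33921) (nat_lit 7) nil (node (nat_lit 4) (nat_lit 33921) (nat_lit 7) nil nil)))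
  nil))) (node (nat_lit 4) (nat_lit 0) (nat_lit 5) (node (nat_lit 0) (nat_lit 31936) (nat_lit 6)
  (node (nat_lit 5) (nat_lit 31984) (nat_lit 7) (node (nat_lit 7) (nat_lit 31984) (nat_lit 8) nil
  nil) (node (nat_lit 7) (nat_lit 31936) (nat_lit 7) nil (node (nat_lit 4) (nat_lit 31936)
  (nat_lit 7) nil nil))) (node (nat_lit 5) (nat_lit 0) (nat_lit 6) (node (nat_lit 0) (nat_lit
  32023) (nat_lit 7) nil nil) nil)) nil))) nil)) nil))) (node (nat_lit 0) (nat_lit 0) (nat_lit 2)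
  (node (nat_lit 3) (nat_lit 0) (nat_lit 3) (node (nat_lit 5) (nat_lit 0) (nat_lit 4) (node
  (nat_lit 3) (nat_lit 0) (nat_lit 5) (node (nat_lit 4) (nat_lit 112782) (nat_lit 6) (node
  (nat_lit 6) (nat_lit 113195) (nat_lit 7) (node (nat_lit 4) (nat_lit 116312) (nat_lit 8) (node
  (nat_lit 8) (nat_lit 118962) (nat_lit 9) nil nil) (node (nat_lit 8) (nat_lit 115624) (nat_lit 8)
  (node (nat_lit 6) (nat_lit 118642) (nat_lit 9) nil (node (nat_lit 4) (nat_lit 118642) (nat_lit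
  9) nil nil)) nil)) (node (nat_lit 8) (nat_lit 114250) (nat_lit 7) (node (nat_lit 6) (nat_lit
  116462) (nat_lit 8) (node (nat_lit 4) (nat_lit 116595) (nat_lit 9) nil (node (nat_lit 8)
  (nat_lit 119479) (nat_lit 9) nil nil)) nil) (node (nat_lit 5) (nat_lit 118544) (nat_lit 7) nil
  (node (nat_lit 0) (nat_lit 118544) (nat_lit 7) nil nil)))) (node (nat_lit 6) (nat_lit 112867)
  (nat_lit 6) (node (nat_lit 4) (nat_lit 113679) (nat_lit 7) (node (nat_lit 8) (nat_lit 112394)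
  (nat_lit 8) nil (node (nat_lit 6) (nat_lit 114974) (nat_lit 8) nil nil)) (node (nat_lit 8)
  (nat_lit 114511) (nat_lit 7) (node (nat_lit 4) (nat_lit 115488) (nat_lit 8) (node (nat_lit 6)
  (nat_lit 118506) (nat_lit 9) nil nil) (node (nat_lit 5) (nat_lit 120886) (nat_lit 8) nil nil))
  (node (nat_lit 0) (nat_lit 118629) (nat_lit 7) nil (node (nat_lit 5) (nat_lit 118629) (nat_lit
  7) nil nil)))) (node (nat_lit 5) (nat_lit 120312) (nat_lit 6) nil (node (nat_lit 0) (nat_lit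
  120312) (nat_lit 6) nil nil)))) (node (nat_lit 4) (nat_lit 0) (nat_lit 5) (node (nat_lit 3)
  (nat_lit 111494) (nat_lit 6) (node (nat_lit 6) (nat_lit 113680) (nat_lit 7) (node (nat_lit 9)
  (nat_lit 115939) (nat_lit 8) (node (nat_lit 4) (nat_lit 119483) (nat_lit 9) (node (nat_lit 6)
  (nat_lit 116675) (nat_lit 10) nil nil) nil) (node (nat_lit 4) (nat_lit 115379) (nat_lit 8) (node
  (nat_lit 6) (nat_lit 118402) (nat_lit 9) (node (nat_lit 9) (nat_lit 117517) (nat_lit 10) (node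
  (nat_lit 4) (nat_lit 116777) (nat_lit 11) nil nil) nil) (node (nat_lit 9) (nat_lit 117999)
  (nat_lit 9) nil nil)) nil)) (node (nat_lit 4) (nat_lit 112959) (nat_lit 7) (node (nat_lit 6)
  (nat_lit 115832) (nat_lit 8) (node (nat_lit 9) (nat_lit 115732) (nat_lit 9) nil (node (nat_lit
  4) (nat_lit 115567) (nat_lit 9) nil nil)) nil) (node (nat_lit 5) (nat_lit 117173) (nat_lit 7)
  nil (node (nat_lit 0) (nat_lit 117173) (nat_lit 7) nil nil)))) (node (nat_lit 6) (nat_lit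
  108423) (nat_lit 6) (node (nat_lit 3) (nat_lit 111308) (nat_lit 7) (node (nat_lit 5) (nat_lit
  118122) (nat_lit 8) nil (node (nat_lit 4) (nat_lit 112792) (nat_lit 8) nil (node (nat_lit 6)
  (nat_lit 112005) (nat_lit 8) nil nil))) (node (nat_lit 4) (nat_lit 110793) (nat_lit 7) (node
  (nat_lit 3) (nat_lit 111608) (nat_lit 8) (node (nat_lit 6) (nat_lit 111342) (nat_lit 9) nil
  (node (nat_lit 4) (nat_lit 111508) (nat_lit 9) nil nil)) (node (nat_lit 5) (nat_lit 119004)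
  (nat_lit 8) (node (nat_lit 6) (nat_lit 119004) (nat_lit 9) (node (nat_lit 5) (nat_lit 99557)
  (nat_lit 10) (node (nat_lit 4) (nat_lit 60592) (nat_lit 11) nil nil) nil) nil) nil)) (node
  (nat_lit 0) (nat_lit 114928) (nat_lit 7) nil (node (nat_lit 5) (nat_lit 114066) (nat_lit 7) nil
  nil)))) (node (nat_lit 5) (nat_lit 114521) (nat_lit 6) (node (nat_lit 6) (nat_lit 114521)
  (nat_lit 7) nil nil) (node (nat_lit 0) (nat_lit 115552) (nat_lit 6) nil nil)))) (node (nat_lit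
  0) (nat_lit 115499) (nat_lit 5) (node (nat_lit 6) (nat_lit 115499) (nat_lit 6) nil nil) nil)))
  (node (nat_lit 3) (nat_lit 0) (nat_lit 4) (node (nat_lit 4) (nat_lit 0) (nat_lit 5) (node
  (nat_lit 7) (nat_lit 95751) (nat_lit 6) (node (nat_lit 6) (nat_lit 106197) (nat_lit 7) (node
  (nat_lit 4) (nat_lit 112498) (nat_lit 8) (node (nat_lit 6) (nat_lit 115961) (nat_lit 9) nil
  (node (nat_lit 7) (nat_lit 110586) (nat_lit 9) (node (nat_lit 4) (nat_lit 109178) (nat_lit 10)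
  nil nil) (node (nat_lit 5) (nat_lit 104896) (nat_lit 9) (node (nat_lit 6) (nat_lit 104896)
  (nat_lit 10) nil nil) nil))) (node (nat_lit 7) (nat_lit 105684) (nat_lit 8) (node (nat_lit 4)
  (nat_lit 107218) (nat_lit 9) (node (nat_lit 6) (nat_lit 107643) (nat_lit 10) nil nil) nil) nil))
  (node (nat_lit 5) (nat_lit 119924) (nat_lit 7) nil (node (nat_lit 0) (nat_lit 110755) (nat_lit
  7) nil nil))) (node (nat_lit 6) (nat_lit 96421) (nat_lit 6) (node (nat_lit 4) (nat_lit 104329)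
  (nat_lit 7) (node (nat_lit 7) (nat_lit 107857) (nat_lit 8) (node (nat_lit 6) (nat_lit 110539)
  (nat_lit 9) (node (nat_lit 4) (nat_lit 109277) (nat_lit 10) nil nil) (node (nat_lit 4) (nat_lit
  107963) (nat_lit 9) nil nil)) nil) (node (nat_lit 7) (nat_lit 103843) (nat_lit 7) (node (nat_lit
  6) (nat_lit 107123) (nat_lit 8) (node (nat_lit 4) (nat_lit 104774) (nat_lit 9) (node (nat_lit 7)
  (nat_lit 105364) (nat_lit 10) nil nil) nil) nil) (node (nat_lit 5) (nat_lit 111425) (nat_lit 7)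
  nil (node (nat_lit 0) (nat_lit 111425) (nat_lit 7) nil nil)))) (node (nat_lit 5) (nat_lit 78288)
  (nat_lit 6) (node (nat_lit 6) (nat_lit 60453) (nat_lit 7) nil (node (nat_lit 4) (nat_lit 78288)
  (nat_lit 7) nil (node (nat_lit 7) (nat_lit 78288) (nat_lit 7) nil nil))) (node (nat_lit 0)
  (nat_lit 114494) (nat_lit 6) nil nil)))) (node (nat_lit 5) (nat_lit 120026) (nat_lit 5) (node
  (nat_lit 7) (nat_lit 120026) (nat_lit 6) nil (node (nat_lit 6) (nat_lit 120026) (nat_lit 6)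
  (node (nat_lit 5) (nat_lit 121046) (nat_lit 7) nil (node (nat_lit 4) (nat_lit 120026) (nat_lit
  7) nil nil)) (node (nat_lit 4) (nat_lit 120026) (nat_lit 6) nil nil))) (node (nat_lit 6)
  (nat_lit 0) (nat_lit 5) (node (nat_lit 4) (nat_lit 96313) (nat_lit 6) (node (nat_lit 7) (nat_lit
  106291) (nat_lit 7) (node (nat_lit 6) (nat_lit 106076) (nat_lit 8) nil (node (nat_lit 4)
  (nat_lit 106147) (nat_lit 8) nil nil)) (node (nat_lit 6) (nat_lit 102251) (nat_lit 7) (node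
  (nat_lit 7) (nat_lit 95063) (nat_lit 8) (node (nat_lit 4) (nat_lit 91922) (nat_lit 9) nil nil)
  nil) (node (nat_lit 5) (nat_lit 96548) (nat_lit 7) nil nil))) (node (nat_lit 5) (nat_lit 121046)
  (nat_lit 6) (node (nat_lit 6) (nat_lit 121046) (nat_lit 7) nil nil) (node (nat_lit 0) (nat_lit
  97657) (nat_lit 6) nil nil))) (node (nat_lit 0) (nat_lit 112101) (nat_lit 5) nil nil)))) (node
  (nat_lit 4) (nat_lit 0) (nat_lit 4) (node (nat_lit 3) (nat_lit 0) (nat_lit 5) (node (nat_lit 4)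
  (nat_lit 94977) (nat_lit 6) (node (nat_lit 6) (nat_lit 105699) (nat_lit 7) (node (nat_lit 8)
  (nat_lit 109685) (nat_lit 8) (node (nat_lit 6) (nat_lit 110108) (nat_lit 9) (node (nat_lit 4)
  (nat_lit 107855) (nat_lit 10) nil nil) (node (nat_lit 4) (nat_lit 113200) (nat_lit 9) (node
  (nat_lit 5) (nat_lit 119287) (nat_lit 10) nil nil) (node (nat_lit 5) (nat_lit 116030) (nat_lit
  9) nil nil))) (node (nat_lit 4) (nat_lit 109453) (nat_lit 8) (node (nat_lit 8) (nat_lit 103403)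
  (nat_lit 9) nil nil) nil)) (node (nat_lit 5) (nat_lit 100207) (nat_lit 7) (node (nat_lit 6)
  (nat_lit 79880) (nat_lit 8) (node (nat_lit 4) (nat_lit 60453) (nat_lit 9) nil nil) nil) (node
  (nat_lit 0) (nat_lit 109981) (nat_lit 7) nil nil))) (node (nat_lit 6) (nat_lit 95870) (nat_lit
  6) (node (nat_lit 8) (nat_lit 108845) (nat_lit 7) (node (nat_lit 4) (nat_lit 114077) (nat_lit 8)
  (node (nat_lit 6) (nat_lit 114429) (nat_lit 9) (node (nat_lit 8) (nat_lit 114264) (nat_lit 10)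
  nil nil) nil) nil) (node (nat_lit 4) (nat_lit 108212) (nat_lit 7) (node (nat_lit 6) (nat_lit
  112100) (nat_lit 8) (node (nat_lit 8) (nat_lit 106050) (nat_lit 9) nil nil) nil) (node (nat_lit
  5) (nat_lit 110874) (nat_lit 7) nil (node (nat_lit 0) (nat_lit 110874) (nat_lit 7) nil nil))))
  (node (nat_lit 5) (nat_lit 118660) (nat_lit 6) nil (node (nat_lit 0) (nat_lit 112972) (nat_lit
  6) nil nil)))) (node (nat_lit 5) (nat_lit 59064) (nat_lit 5) (node (nat_lit 4) (nat_lit 59064)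
  (nat_lit 6) nil (node (nat_lit 3) (nat_lit 59064) (nat_lit 6) nil nil)) (node (nat_lit 6)
  (nat_lit 0) (nat_lit 5) (node (nat_lit 3) (nat_lit 93328) (nat_lit 6) (node (nat_lit 4) (nat_lit
  102070) (nat_lit 7) (node (nat_lit 6) (nat_lit 102205) (nat_lit 8) (node (nat_lit 4) (nat_lit
  101801) (nat_lit 9) nil nil) (node (nat_lit 9) (nat_lit 101796) (nat_lit 8) nil nil)) (node
  (nat_lit 6) (nat_lit 103072) (nat_lit 7) (node (nat_lit 4) (nat_lit 106947) (nat_lit 8) (node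
  (nat_lit 9) (nat_lit 103219) (nat_lit 9) nil nil) nil) (node (nat_lit 5) (nat_lit 107726)
  (nat_lit 7) nil nil))) (node (nat_lit 5) (nat_lit 114737) (nat_lit 6) (node (nat_lit 6) (nat_lit
  114737) (nat_lit 7) nil nil) (node (nat_lit 0) (nat_lit 91850) (nat_lit 6) nil nil))) (node
  (nat_lit 0) (nat_lit 107289) (nat_lit 5) nil nil)))) (node (nat_lit 0) (nat_lit 0) (nat_lit 4)
  (node (nat_lit 5) (nat_lit 109800) (nat_lit 5) nil (node (nat_lit 0) (nat_lit 109800) (nat_lit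
  5) nil (node (nat_lit 6) (nat_lit 106783) (nat_lit 5) nil (node (nat_lit 4) (nat_lit 106783)
  (nat_lit 5) nil (node (nat_lit 3) (nat_lit 106783) (nat_lit 5) nil nil))))) nil)))) (node
  (nat_lit 0) (nat_lit 0) (nat_lit 3) (node (nat_lit 3) (nat_lit 0) (nat_lit 4) (node (nat_lit 3)
  (nat_lit 0) (nat_lit 5) (node (nat_lit 4) (nat_lit 100562) (nat_lit 6) (node (nat_lit 7)
  (nat_lit 104752) (nat_lit 7) (node (nat_lit 8) (nat_lit 103991) (nat_lit 8) nil (node (nat_lit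
  4) (nat_lit 103991) (nat_lit 8) nil nil)) (node (nat_lit 8) (nat_lit 102494) (nat_lit 7) nil
  nil)) (node (nat_lit 7) (nat_lit 101841) (nat_lit 6) (node (nat_lit 4) (nat_lit 103773) (nat_lit
  7) nil nil) (node (nat_lit 5) (nat_lit 105443) (nat_lit 6) nil (node (nat_lit 6) (nat_lit
  105443) (nat_lit 6) nil (node (nat_lit 0) (nat_lit 105443) (nat_lit 6) nil nil))))) (node
  (nat_lit 4) (nat_lit 0) (nat_lit 5) (node (nat_lit 3) (nat_lit 100752) (nat_lit 6) (node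
  (nat_lit 7) (nat_lit 106000) (nat_lit 7) (node (nat_lit 4) (nat_lit 109299) (nat_lit 8) nil
  (node (nat_lit 9) (nat_lit 109299) (nat_lit 8) nil nil)) (node (nat_lit 4) (nat_lit 102685)
  (nat_lit 7) nil nil)) (node (nat_lit 7) (nat_lit 102125) (nat_lit 6) (node (nat_lit 3) (nat_lit
  104449) (nat_lit 7) nil nil) (node (nat_lit 5) (nat_lit 104750) (nat_lit 6) (node (nat_lit 6)
  (nat_lit 52732) (nat_lit 7) nil nil) (node (nat_lit 6) (nat_lit 104750) (nat_lit 6) nil (node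
  (nat_lit 0) (nat_lit 104750) (nat_lit 6) nil nil))))) (node (nat_lit 5) (nat_lit 112473)
  (nat_lit 5) nil (node (nat_lit 6) (nat_lit 104215) (nat_lit 5) nil (node (nat_lit 0) (nat_lit
  104215) (nat_lit 5) nil nil))))) (node (nat_lit 4) (nat_lit 0) (nat_lit 4) (node (nat_lit 3)
  (nat_lit 0) (nat_lit 5) (node (nat_lit 3) (nat_lit 100162) (nat_lit 6) (node (nat_lit 4)
  (nat_lit 104320) (nat_lit 7) (node (nat_lit 8) (nat_lit 107619) (nat_lit 8) nil (node (nat_lit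
  9) (nat_lit 103558) (nat_lit 8) nil nil)) (node (nat_lit 8) (nat_lit 102486) (nat_lit 7) nil
  nil)) (node (nat_lit 4) (nat_lit 102588) (nat_lit 6) (node (nat_lit 3) (nat_lit 102027) (nat_lit
  7) nil nil) (node (nat_lit 5) (nat_lit 104981) (nat_lit 6) nil (node (nat_lit 6) (nat_lit
  104981) (nat_lit 6) nil (node (nat_lit 0) (nat_lit 104981) (nat_lit 6) nil nil))))) (node
  (nat_lit 5) (nat_lit 109729) (nat_lit 5) nil (node (nat_lit 6) (nat_lit 104329) (nat_lit 5) nil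
  (node (nat_lit 0) (nat_lit 104329) (nat_lit 5) nil nil)))) (node (nat_lit 5) (nat_lit 0)
  (nat_lit 4) (node (nat_lit 0) (nat_lit 115367) (nat_lit 5) (node (nat_lit 5) (nat_lit 115367)
  (nat_lit 6) (node (nat_lit 6) (nat_lit 115367) (nat_lit 7) nil nil) (node (nat_lit 6) (nat_lit
  115367) (nat_lit 6) nil (node (nat_lit 3) (nat_lit 115367) (nat_lit 6) nil nil))) (node (nat_lit
  3) (nat_lit 108416) (nat_lit 5) (node (nat_lit 5) (nat_lit 112454) (nat_lit 6) nil nil) (node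
  (nat_lit 4) (nat_lit 108416) (nat_lit 5) nil nil))) (node (nat_lit 0) (nat_lit 0) (nat_lit 4)
  (node (nat_lit 5) (nat_lit 115367) (nat_lit 5) (node (nat_lit 7) (nat_lit 115367) (nat_lit 6)
  nil nil) (node (nat_lit 6) (nat_lit 115367) (nat_lit 5) nil (node (nat_lit 0) (nat_lit 114068)
  (nat_lit 5) nil (node (nat_lit 3) (nat_lit 108416) (nat_lit 5) nil (node (nat_lit 4) (nat_lit
  108416) (nat_lit 5) nil nil))))) nil)))) (node (nat_lit 4) (nat_lit 0) (nat_lit 3) (node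
  (nat_lit 3) (nat_lit 0) (nat_lit 4) (node (nat_lit 3) (nat_lit 0) (nat_lit 5) (node (nat_lit 7)
  (nat_lit 93039) (nat_lit 6) (node (nat_lit 4) (nat_lit 101978) (nat_lit 7) (node (nat_lit 8)
  (nat_lit 107078) (nat_lit 8) (node (nat_lit 4) (nat_lit 105040) (nat_lit 9) (node (nat_lit 7)
  (nat_lit 101234) (nat_lit 10) nil (node (nat_lit 5) (nat_lit 110725) (nat_lit 10) nil nil))
  (node (nat_lit 7) (nat_lit 111205) (nat_lit 9) nil (node (nat_lit 5) (nat_lit 114177) (nat_lit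
  9) nil nil))) (node (nat_lit 7) (nat_lit 105009) (nat_lit 8) (node (nat_lit 8) (nat_lit 105330)
  (nat_lit 9) (node (nat_lit 4) (nat_lit 102219) (nat_lit 10) nil nil) nil) (node (nat_lit 5)
  (nat_lit 96025) (nat_lit 8) (node (nat_lit 4) (nat_lit 96025) (nat_lit 9) (node (nat_lit 7)
  (nat_lit 72355) (nat_lit 10) nil nil) nil) nil))) (node (nat_lit 5) (nat_lit 109560) (nat_lit 7)
  nil (node (nat_lit 0) (nat_lit 109560) (nat_lit 7) nil nil))) (node (nat_lit 4) (nat_lit 94546)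
  (nat_lit 6) (node (nat_lit 8) (nat_lit 107077) (nat_lit 7) (node (nat_lit 7) (nat_lit 111985)
  (nat_lit 8) (node (nat_lit 4) (nat_lit 109308) (nat_lit 9) (node (nat_lit 8) (nat_lit 110278)
  (nat_lit 10) nil nil) nil) nil) (node (nat_lit 7) (nat_lit 105993) (nat_lit 7) (node (nat_lit 4)
  (nat_lit 107950) (nat_lit 8) (node (nat_lit 8) (nat_lit 106640) (nat_lit 9) nil (node (nat_lit
  5) (nat_lit 111524) (nat_lit 9) nil nil)) nil) (node (nat_lit 5) (nat_lit 94802) (nat_lit 7)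
  (node (nat_lit 4) (nat_lit 73412) (nat_lit 8) (node (nat_lit 7) (nat_lit 55168) (nat_lit 9) nil
  nil) nil) (node (nat_lit 0) (nat_lit 111067) (nat_lit 7) nil nil)))) (node (nat_lit 5) (nat_lit
  114100) (nat_lit 6) (node (nat_lit 4) (nat_lit 114100) (nat_lit 7) nil (node (nat_lit 8)
  (nat_lit 114100) (nat_lit 7) nil nil)) (node (nat_lit 0) (nat_lit 112846) (nat_lit 6) nil
  nil)))) (node (nat_lit 5) (nat_lit 111458) (nat_lit 5) (node (nat_lit 7) (nat_lit 111458)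
  (nat_lit 6) nil (node (nat_lit 4) (nat_lit 112667) (nat_lit 6) (node (nat_lit 5) (nat_lit
  114811) (nat_lit 7) nil (node (nat_lit 3) (nat_lit 114387) (nat_lit 7) nil nil)) (node (nat_lit
  3) (nat_lit 113179) (nat_lit 6) (node (nat_lit 7) (nat_lit 113179) (nat_lit 7) (node (nat_lit 4)
  (nat_lit 113179) (nat_lit 8) (node (nat_lit 5) (nat_lit 114811) (nat_lit 9) (node (nat_lit 4)
  (nat_lit 114811) (nat_lit 10) (node (nat_lit 7) (nat_lit 114811) (nat_lit 11) (node (nat_lit 5)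
  (nat_lit 75270) (nat_lit 12) nil nil) nil) nil) nil) nil) nil) nil))) (node (nat_lit 4) (nat_lit
  0) (nat_lit 5) (node (nat_lit 3) (nat_lit 93963) (nat_lit 6) (node (nat_lit 7) (nat_lit 102477)
  (nat_lit 7) (node (nat_lit 4) (nat_lit 106406) (nat_lit 8) nil (node (nat_lit 9) (nat_lit
  100889) (nat_lit 8) (node (nat_lit 4) (nat_lit 99192) (nat_lit 9) nil nil) nil)) (node (nat_lit
  4) (nat_lit 103209) (nat_lit 7) (node (nat_lit 7) (nat_lit 105391) (nat_lit 8) (node (nat_lit 9)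
  (nat_lit 108150) (nat_lit 9) nil nil) nil) (node (nat_lit 5) (nat_lit 110084) (nat_lit 7) nil
  nil))) (node (nat_lit 5) (nat_lit 92893) (nat_lit 6) (node (nat_lit 4) (nat_lit 56069) (nat_lit
  7) nil nil) (node (nat_lit 0) (nat_lit 91699) (nat_lit 6) nil nil))) (node (nat_lit 0) (nat_lit
  107457) (nat_lit 5) nil nil)))) (node (nat_lit 0) (nat_lit 84946) (nat_lit 4) nil nil)) nil)))
  nil))

noncomputable def c17 : Tr :=
  (node (nat_lit 3) (nat_lit 0) (nat_lit 1) t419 nil)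

noncomputable def t420 : Tr :=
  (node (nat_lit 4) (nat_lit 0) (nat_lit 4) (node (nat_lit 0) (nat_lit 0) (nat_lit 5) (node
  (nat_lit 4) (nat_lit 0) (nat_lit 6) (node (nat_lit 6) (nat_lit 50499) (nat_lit 7) (node (nat_lit
  8) (nat_lit 67627) (nat_lit 8) (node (nat_lit 4) (nat_lit 68143) (nat_lit 9) (node (nat_lit 8)
  (nat_lit 69476) (nat_lit 10) (node (nat_lit 6) (nat_lit 69476) (nat_lit 11) (node (nat_lit 4)
  (nat_lit 69476) (nat_lit 12) (node (nat_lit 6) (nat_lit 69476) (nat_lit 13) (node (nat_lit 8)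
  (nat_lit 70338) (nat_lit 14) nil nil) (node (nat_lit 8) (nat_lit 70235) (nat_lit 13) nil nil))
  (node (nat_lit 8) (nat_lit 70230) (nat_lit 12) (node (nat_lit 4) (nat_lit 70230) (nat_lit 13)
  nil nil) nil)) (node (nat_lit 5) (nat_lit 69476) (nat_lit 11) nil nil)) (node (nat_lit 5)
  (nat_lit 68143) (nat_lit 10) (node (nat_lit 4) (nat_lit 68143) (nat_lit 11) nil (node (nat_lit
  6) (nat_lit 68143) (nat_lit 11) nil (node (nat_lit 8) (nat_lit 69361) (nat_lit 11) nil nil)))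
  (node (nat_lit 0) (nat_lit 69476) (nat_lit 10) nil nil))) (node (nat_lit 6) (nat_lit 67627)
  (nat_lit 9) (node (nat_lit 4) (nat_lit 67627) (nat_lit 10) (node (nat_lit 8) (nat_lit 68846)
  (nat_lit 11) nil nil) nil) (node (nat_lit 5) (nat_lit 67627) (nat_lit 9) nil nil))) (node
  (nat_lit 5) (nat_lit 56613) (nat_lit 8) (node (nat_lit 4) (nat_lit 60647) (nat_lit 9) (node
  (nat_lit 5) (nat_lit 63542) (nat_lit 10) nil (node (nat_lit 6) (nat_lit 63939) (nat_lit 10) nil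
  (node (nat_lit 0) (nat_lit 65857) (nat_lit 10) nil (node (nat_lit 8) (nat_lit 65857) (nat_lit
  10) nil nil)))) (node (nat_lit 6) (nat_lit 61124) (nat_lit 9) (node (nat_lit 4) (nat_lit 62701)
  (nat_lit 10) nil (node (nat_lit 8) (nat_lit 67368) (nat_lit 10) nil (node (nat_lit 0) (nat_lit
  66333) (nat_lit 10) nil nil))) (node (nat_lit 8) (nat_lit 68190) (nat_lit 9) nil (node (nat_lit
  0) (nat_lit 68190) (nat_lit 9) nil nil)))) (node (nat_lit 4) (nat_lit 55792) (nat_lit 8) (node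
  (nat_lit 8) (nat_lit 68940) (nat_lit 9) (node (nat_lit 6) (nat_lit 68940) (nat_lit 10) (node
  (nat_lit 8) (nat_lit 69939) (nat_lit 11) (node (nat_lit 4) (nat_lit 69939) (nat_lit 12) nil nil)
  (node (nat_lit 4) (nat_lit 68940) (nat_lit 11) (node (nat_lit 6) (nat_lit 68940) (nat_lit 12)
  nil nil) nil)) nil) (node (nat_lit 5) (nat_lit 60489) (nat_lit 9) (node (nat_lit 4) (nat_lit
  60348) (nat_lit 10) nil (node (nat_lit 6) (nat_lit 60568) (nat_lit 10) nil nil)) (node (nat_lit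
  0) (nat_lit 60620) (nat_lit 9) nil nil))) (node (nat_lit 0) (nat_lit 66263) (nat_lit 8) nil
  nil)))) (node (nat_lit 5) (nat_lit 51445) (nat_lit 7) (node (nat_lit 6) (nat_lit 56905) (nat_lit
  8) (node (nat_lit 5) (nat_lit 60628) (nat_lit 9) (node (nat_lit 4) (nat_lit 63037) (nat_lit 10)
  (node (nat_lit 6) (nat_lit 61367) (nat_lit 11) (node (nat_lit 4) (nat_lit 60922) (nat_lit 12)
  (node (nat_lit 5) (nat_lit 59630) (nat_lit 13) (node (nat_lit 6) (nat_lit 55988) (nat_lit 14)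
  (node (nat_lit 4) (nat_lit 56632) (nat_lit 15) nil nil) nil) nil) nil) nil) (node (nat_lit 8)
  (nat_lit 65838) (nat_lit 10) nil (node (nat_lit 0) (nat_lit 65838) (nat_lit 10) nil nil))) (node
  (nat_lit 4) (nat_lit 59408) (nat_lit 9) (node (nat_lit 6) (nat_lit 62041) (nat_lit 10) nil (node
  (nat_lit 5) (nat_lit 62069) (nat_lit 10) nil (node (nat_lit 0) (nat_lit 67777) (nat_lit 10) nil
  nil))) (node (nat_lit 8) (nat_lit 67584) (nat_lit 9) nil (node (nat_lit 0) (nat_lit 68940)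
  (nat_lit 9) nil nil)))) (node (nat_lit 4) (nat_lit 55680) (nat_lit 8) (node (nat_lit 6) (nat_lit
  59719) (nat_lit 9) (node (nat_lit 8) (nat_lit 66763) (nat_lit 10) nil (node (nat_lit 5) (nat_lit
  62072) (nat_lit 10) nil (node (nat_lit 0) (nat_lit 64929) (nat_lit 10) nil (node (nat_lit 4)
  (nat_lit 62072) (nat_lit 10) nil nil)))) (node (nat_lit 8) (nat_lit 68940) (nat_lit 9) (node
  (nat_lit 5) (nat_lit 68940) (nat_lit 10) (node (nat_lit 8) (nat_lit 69657) (nat_lit 11) nil nil)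
  nil) (node (nat_lit 0) (nat_lit 67974) (nat_lit 9) nil nil))) (node (nat_lit 8) (nat_lit 67928)
  (nat_lit 8) (node (nat_lit 5) (nat_lit 67928) (nat_lit 9) (node (nat_lit 4) (nat_lit 67928)
  (nat_lit 10) nil nil) (node (nat_lit 4) (nat_lit 67928) (nat_lit 9) nil (node (nat_lit 6)
  (nat_lit 67928) (nat_lit 9) nil nil))) (node (nat_lit 0) (nat_lit 67457) (nat_lit 8) nil nil))))
  (node (nat_lit 0) (nat_lit 62106) (nat_lit 7) (node (nat_lit 8) (nat_lit 67136) (nat_lit 8)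
  (node (nat_lit 4) (nat_lit 67136) (nat_lit 9) (node (nat_lit 8) (nat_lit 68723) (nat_lit 10) nil
  nil) (node (nat_lit 10) (nat_lit 68012) (nat_lit 9) nil nil)) (node (nat_lit 4) (nat_lit 61599)
  (nat_lit 8) (node (nat_lit 8) (nat_lit 64992) (nat_lit 9) nil (node (nat_lit 6) (nat_lit 61599)
  (nat_lit 9) nil (node (nat_lit 5) (nat_lit 61599) (nat_lit 9) nil nil))) (node (nat_lit 6)
  (nat_lit 62106) (nat_lit 8) (node (nat_lit 8) (nat_lit 63476) (nat_lit 9) nil nil) (node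
  (nat_lit 5) (nat_lit 62106) (nat_lit 8) nil (node (nat_lit 0) (nat_lit 65334) (nat_lit 8) nil
  nil))))) nil))) (node (nat_lit 6) (nat_lit 0) (nat_lit 6) (node (nat_lit 8) (nat_lit 62047)
  (nat_lit 7) (node (nat_lit 4) (nat_lit 63455) (nat_lit 8) (node (nat_lit 8) (nat_lit 68940)
  (nat_lit 9) (node (nat_lit 6) (nat_lit 68940) (nat_lit 10) (node (nat_lit 4) (nat_lit 68940)
  (nat_lit 11) (node (nat_lit 6) (nat_lit 68940) (nat_lit 12) (node (nat_lit 8) (nat_lit 70363)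
  (nat_lit 13) nil (node (nat_lit 5) (nat_lit 68940) (nat_lit 13) nil nil)) (node (nat_lit 8)
  (nat_lit 70230) (nat_lit 12) (node (nat_lit 4) (nat_lit 70230) (nat_lit 13) (node (nat_lit 6)
  (nat_lit 70230) (nat_lit 14) nil nil) nil) (node (nat_lit 5) (nat_lit 68940) (nat_lit 12) nil
  (node (nat_lit 0) (nat_lit 69947) (nat_lit 12) nil nil)))) (node (nat_lit 5) (nat_lit 68940)
  (nat_lit 11) nil (node (nat_lit 0) (nat_lit 69657) (nat_lit 11) nil nil))) nil) (node (nat_lit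
  6) (nat_lit 63455) (nat_lit 9) nil nil)) nil) (node (nat_lit 5) (nat_lit 51066) (nat_lit 7)
  (node (nat_lit 4) (nat_lit 53791) (nat_lit 8) (node (nat_lit 5) (nat_lit 55499) (nat_lit 9)
  (node (nat_lit 6) (nat_lit 55578) (nat_lit 10) nil nil) (node (nat_lit 6) (nat_lit 55876)
  (nat_lit 9) nil nil)) (node (nat_lit 6) (nat_lit 51892) (nat_lit 8) nil (node (nat_lit 8)
  (nat_lit 59933) (nat_lit 8) nil (node (nat_lit 0) (nat_lit 55393) (nat_lit 8) nil nil)))) (node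
  (nat_lit 4) (nat_lit 50288) (nat_lit 7) (node (nat_lit 6) (nat_lit 54653) (nat_lit 8) (node
  (nat_lit 8) (nat_lit 67586) (nat_lit 9) (node (nat_lit 4) (nat_lit 67586) (nat_lit 10) (node
  (nat_lit 8) (nat_lit 68303) (nat_lit 11) nil nil) nil) (node (nat_lit 5) (nat_lit 54653)
  (nat_lit 9) nil nil)) (node (nat_lit 5) (nat_lit 51465) (nat_lit 8) nil (node (nat_lit 0)
  (nat_lit 54614) (nat_lit 8) nil nil))) (node (nat_lit 0) (nat_lit 59414) (nat_lit 7) nil nil))))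
  (node (nat_lit 5) (nat_lit 0) (nat_lit 6) (node (nat_lit 4) (nat_lit 0) (nat_lit 7) (node
  (nat_lit 5) (nat_lit 53744) (nat_lit 8) (node (nat_lit 8) (nat_lit 66038) (nat_lit 9) (node
  (nat_lit 4) (nat_lit 66038) (nat_lit 10) nil nil) nil) (node (nat_lit 6) (nat_lit 52871)
  (nat_lit 8) nil (node (nat_lit 0) (nat_lit 55245) (nat_lit 8) nil (node (nat_lit 8) (nat_lit
  55245) (nat_lit 8) nil nil)))) (node (nat_lit 6) (nat_lit 50834) (nat_lit 7) (node (nat_lit 4)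
  (nat_lit 50380) (nat_lit 8) (node (nat_lit 6) (nat_lit 50380) (nat_lit 9) nil (node (nat_lit 5)
  (nat_lit 50380) (nat_lit 9) nil nil)) (node (nat_lit 5) (nat_lit 52405) (nat_lit 8) nil (node
  (nat_lit 8) (nat_lit 55160) (nat_lit 8) nil nil))) (node (nat_lit 8) (nat_lit 62415) (nat_lit 7)
  (node (nat_lit 4) (nat_lit 61946) (nat_lit 8) (node (nat_lit 8) (nat_lit 65715) (nat_lit 9)
  (node (nat_lit 5) (nat_lit 65715) (nat_lit 10) nil nil) nil) nil) (node (nat_lit 0) (nat_lit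
  56534) (nat_lit 7) nil nil)))) (node (nat_lit 0) (nat_lit 0) (nat_lit 6) (node (nat_lit 4)
  (nat_lit 56855) (nat_lit 7) (node (nat_lit 8) (nat_lit 66837) (nat_lit 8) (node (nat_lit 4)
  (nat_lit 66837) (nat_lit 9) (node (nat_lit 9) (nat_lit 67720) (nat_lit 10) nil nil) (node
  (nat_lit 0) (nat_lit 67338) (nat_lit 9) nil (node (nat_lit 6) (nat_lit 66837) (nat_lit 9) nil
  nil))) (node (nat_lit 9) (nat_lit 63323) (nat_lit 8) nil nil)) (node (nat_lit 8) (nat_lit 61982)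
  (nat_lit 7) (node (nat_lit 4) (nat_lit 61982) (nat_lit 8) (node (nat_lit 8) (nat_lit 64659)
  (nat_lit 9) (node (nat_lit 9) (nat_lit 65041) (nat_lit 10) nil nil) nil) nil) (node (nat_lit 6)
  (nat_lit 54826) (nat_lit 7) nil (node (nat_lit 0) (nat_lit 55931) (nat_lit 7) nil (node (nat_lit
  5) (nat_lit 54826) (nat_lit 7) nil nil))))) nil)))) (node (nat_lit 6) (nat_lit 0) (nat_lit 5)
  (node (nat_lit 0) (nat_lit 0) (nat_lit 6) (node (nat_lit 4) (nat_lit 0) (nat_lit 7) (node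
  (nat_lit 6) (nat_lit 51537) (nat_lit 8) (node (nat_lit 4) (nat_lit 56580) (nat_lit 9) (node
  (nat_lit 5) (nat_lit 60756) (nat_lit 10) (node (nat_lit 6) (nat_lit 63610) (nat_lit 11) (node
  (nat_lit 5) (nat_lit 64786) (nat_lit 12) nil (node (nat_lit 4) (nat_lit 65181) (nat_lit 12) nil
  nil)) (node (nat_lit 4) (nat_lit 61664) (nat_lit 11) nil (node (nat_lit 9) (nat_lit 67009)
  (nat_lit 11) nil (node (nat_lit 0) (nat_lit 65954) (nat_lit 11) nil nil)))) (node (nat_lit 9)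
  (nat_lit 68741) (nat_lit 10) (node (nat_lit 6) (nat_lit 68741) (nat_lit 11) (node (nat_lit 9)
  (nat_lit 69381) (nat_lit 12) nil (node (nat_lit 4) (nat_lit 68741) (nat_lit 12) (node (nat_lit
  6) (nat_lit 68741) (nat_lit 13) nil nil) nil)) (node (nat_lit 4) (nat_lit 68741) (nat_lit 11)
  (node (nat_lit 6) (nat_lit 68741) (nat_lit 12) nil nil) nil)) (node (nat_lit 0) (nat_lit 67676)
  (nat_lit 10) nil nil))) (node (nat_lit 5) (nat_lit 56648) (nat_lit 9) (node (nat_lit 4) (nat_lit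
  59847) (nat_lit 10) (node (nat_lit 5) (nat_lit 61360) (nat_lit 11) nil (node (nat_lit 9)
  (nat_lit 66101) (nat_lit 11) nil (node (nat_lit 6) (nat_lit 61819) (nat_lit 11) nil nil))) (node
  (nat_lit 6) (nat_lit 58735) (nat_lit 10) (node (nat_lit 4) (nat_lit 60707) (nat_lit 11) nil
  (node (nat_lit 9) (nat_lit 63933) (nat_lit 11) nil (node (nat_lit 0) (nat_lit 63933) (nat_lit
  11) nil nil))) (node (nat_lit 9) (nat_lit 67190) (nat_lit 10) nil (node (nat_lit 0) (nat_lit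
  64367) (nat_lit 10) nil nil)))) (node (nat_lit 0) (nat_lit 64817) (nat_lit 9) nil nil))) (node
  (nat_lit 9) (nat_lit 61167) (nat_lit 8) (node (nat_lit 6) (nat_lit 61167) (nat_lit 9) (node
  (nat_lit 4) (nat_lit 61167) (nat_lit 10) nil nil) nil) (node (nat_lit 0) (nat_lit 50546)
  (nat_lit 8) nil (node (nat_lit 5) (nat_lit 47003) (nat_lit 8) nil nil)))) (node (nat_lit 6)
  (nat_lit 47032) (nat_lit 7) (node (nat_lit 4) (nat_lit 51830) (nat_lit 8) (node (nat_lit 9)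
  (nat_lit 66171) (nat_lit 9) (node (nat_lit 4) (nat_lit 66171) (nat_lit 10) (node (nat_lit 6)
  (nat_lit 66592) (nat_lit 11) (node (nat_lit 9) (nat_lit 68360) (nat_lit 12) (node (nat_lit 6)
  (nat_lit 68360) (nat_lit 13) nil nil) nil) nil) nil) nil) nil) (node (nat_lit 5) (nat_lit 43656)
  (nat_lit 7) (node (nat_lit 6) (nat_lit 43656) (nat_lit 8) nil nil) (node (nat_lit 0) (nat_lit
  50898) (nat_lit 7) nil nil)))) nil) (node (nat_lit 5) (nat_lit 0) (nat_lit 5) (node (nat_lit 0)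
  (nat_lit 0) (nat_lit 6) (node (nat_lit 4) (nat_lit 34719) (nat_lit 7) (node (nat_lit 5) (nat_lit
  37577) (nat_lit 8) (node (nat_lit 6) (nat_lit 40132) (nat_lit 9) (node (nat_lit 4) (nat_lit
  41941) (nat_lit 10) (node (nat_lit 6) (nat_lit 41277) (nat_lit 11) nil (node (nat_lit 9)
  (nat_lit 44209) (nat_lit 11) nil nil)) (node (nat_lit 5) (nat_lit 41992) (nat_lit 10) (node
  (nat_lit 4) (nat_lit 42934) (nat_lit 11) nil nil) (node (nat_lit 9) (nat_lit 44358) (nat_lit 10)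
  nil (node (nat_lit 0) (nat_lit 42247) (nat_lit 10) nil nil)))) (node (nat_lit 4) (nat_lit 39641)
  (nat_lit 9) (node (nat_lit 6) (nat_lit 41500) (nat_lit 10) (node (nat_lit 5) (nat_lit 42442)
  (nat_lit 11) nil (node (nat_lit 9) (nat_lit 43768) (nat_lit 11) nil nil)) (node (nat_lit 9)
  (nat_lit 44358) (nat_lit 10) (node (nat_lit 4) (nat_lit 44358) (nat_lit 11) nil nil) (node
  (nat_lit 0) (nat_lit 43589) (nat_lit 10) nil nil))) (node (nat_lit 0) (nat_lit 44062) (nat_lit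
  9) nil nil))) (node (nat_lit 6) (nat_lit 34719) (nat_lit 8) nil nil)) (node (nat_lit 5) (nat_lit
  0) (nat_lit 7) (node (nat_lit 4) (nat_lit 35949) (nat_lit 8) (node (nat_lit 9) (nat_lit 43144)
  (nat_lit 9) (node (nat_lit 4) (nat_lit 43144) (nat_lit 10) (node (nat_lit 5) (nat_lit 43144)
  (nat_lit 11) (node (nat_lit 9) (nat_lit 43612) (nat_lit 12) nil nil) nil) nil) nil) (node
  (nat_lit 0) (nat_lit 36375) (nat_lit 8) nil (node (nat_lit 6) (nat_lit 34847) (nat_lit 8) nil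
  nil))) (node (nat_lit 6) (nat_lit 34625) (nat_lit 7) (node (nat_lit 5) (nat_lit 34320) (nat_lit
  8) (node (nat_lit 6) (nat_lit 34320) (nat_lit 9) nil (node (nat_lit 4) (nat_lit 34320) (nat_lit
  9) nil nil)) (node (nat_lit 9) (nat_lit 36153) (nat_lit 8) nil nil)) (node (nat_lit 0) (nat_lit
  37098) (nat_lit 7) nil nil)))) nil) nil))) (node (nat_lit 5) (nat_lit 0) (nat_lit 4) (node
  (nat_lit 0) (nat_lit 0) (nat_lit 5) (node (nat_lit 5) (nat_lit 0) (nat_lit 6) (node (nat_lit 6)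
  (nat_lit 61612) (nat_lit 7) (node (nat_lit 8) (nat_lit 79842) (nat_lit 8) (node (nat_lit 5)
  (nat_lit 81078) (nat_lit 9) (node (nat_lit 8) (nat_lit 84689) (nat_lit 10) (node (nat_lit 6)
  (nat_lit 84689) (nat_lit 11) (node (nat_lit 5) (nat_lit 84689) (nat_lit 12) (node (nat_lit 6)
  (nat_lit 84540) (nat_lit 13) (node (nat_lit 8) (nat_lit 85035) (nat_lit 14) nil (node (nat_lit
  4) (nat_lit 84540) (nat_lit 14) nil nil)) (node (nat_lit 8) (nat_lit 85096) (nat_lit 13) nil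
  (node (nat_lit 4) (nat_lit 84689) (nat_lit 13) nil nil))) (node (nat_lit 8) (nat_lit 85271)
  (nat_lit 12) (node (nat_lit 5) (nat_lit 85271) (nat_lit 13) nil nil) nil)) (node (nat_lit 4)
  (nat_lit 84689) (nat_lit 11) nil (node (nat_lit 0) (nat_lit 84842) (nat_lit 11) nil nil))) (node
  (nat_lit 4) (nat_lit 81548) (nat_lit 10) (node (nat_lit 5) (nat_lit 81548) (nat_lit 11) nil
  (node (nat_lit 6) (nat_lit 81548) (nat_lit 11) nil (node (nat_lit 8) (nat_lit 82766) (nat_lit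
  11) nil (node (nat_lit 0) (nat_lit 82766) (nat_lit 11) nil nil)))) (node (nat_lit 0) (nat_lit
  83736) (nat_lit 10) nil nil))) (node (nat_lit 6) (nat_lit 80064) (nat_lit 9) (node (nat_lit 5)
  (nat_lit 80064) (nat_lit 10) (node (nat_lit 8) (nat_lit 81282) (nat_lit 11) nil nil) nil) (node
  (nat_lit 4) (nat_lit 79842) (nat_lit 9) nil (node (nat_lit 0) (nat_lit 80344) (nat_lit 9) nil
  nil)))) (node (nat_lit 4) (nat_lit 66455) (nat_lit 8) (node (nat_lit 5) (nat_lit 71642) (nat_lit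
  9) (node (nat_lit 6) (nat_lit 73292) (nat_lit 10) (node (nat_lit 5) (nat_lit 73229) (nat_lit 11)
  (node (nat_lit 8) (nat_lit 48792) (nat_lit 12) nil nil) nil) (node (nat_lit 4) (nat_lit 73128)
  (nat_lit 10) nil (node (nat_lit 0) (nat_lit 80078) (nat_lit 10) nil (node (nat_lit 8) (nat_lit
  80078) (nat_lit 10) nil nil)))) (node (nat_lit 6) (nat_lit 71970) (nat_lit 9) (node (nat_lit 8)
  (nat_lit 80406) (nat_lit 10) nil (node (nat_lit 5) (nat_lit 72635) (nat_lit 10) nil (node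
  (nat_lit 0) (nat_lit 77180) (nat_lit 10) nil nil))) (node (nat_lit 8) (nat_lit 80483) (nat_lit
  9) nil (node (nat_lit 0) (nat_lit 81888) (nat_lit 9) nil nil)))) (node (nat_lit 5) (nat_lit
  65687) (nat_lit 8) (node (nat_lit 4) (nat_lit 70185) (nat_lit 9) (node (nat_lit 6) (nat_lit
  72537) (nat_lit 10) nil nil) (node (nat_lit 0) (nat_lit 70515) (nat_lit 9) nil nil)) (node
  (nat_lit 0) (nat_lit 79552) (nat_lit 8) nil nil)))) (node (nat_lit 4) (nat_lit 62055) (nat_lit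
  7) (node (nat_lit 6) (nat_lit 65712) (nat_lit 8) (node (nat_lit 5) (nat_lit 70779) (nat_lit 9)
  (node (nat_lit 6) (nat_lit 75642) (nat_lit 10) nil (node (nat_lit 4) (nat_lit 74703) (nat_lit
  10) nil nil)) (node (nat_lit 4) (nat_lit 71168) (nat_lit 9) (node (nat_lit 5) (nat_lit 73876)
  (nat_lit 10) nil (node (nat_lit 8) (nat_lit 79603) (nat_lit 10) nil (node (nat_lit 0) (nat_lit
  76377) (nat_lit 10) nil nil))) (node (nat_lit 8) (nat_lit 80655) (nat_lit 9) nil (node (nat_lit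
  0) (nat_lit 81141) (nat_lit 9) nil nil)))) (node (nat_lit 5) (nat_lit 66257) (nat_lit 8) (node
  (nat_lit 6) (nat_lit 69568) (nat_lit 9) (node (nat_lit 5) (nat_lit 71921) (nat_lit 10) (node
  (nat_lit 8) (nat_lit 45268) (nat_lit 11) nil nil) (node (nat_lit 4) (nat_lit 71921) (nat_lit 10)
  nil (node (nat_lit 8) (nat_lit 78004) (nat_lit 10) nil nil))) (node (nat_lit 8) (nat_lit 82697)
  (nat_lit 9) (node (nat_lit 4) (nat_lit 82697) (nat_lit 10) (node (nat_lit 8) (nat_lit 84054)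
  (nat_lit 11) nil nil) nil) (node (nat_lit 0) (nat_lit 79644) (nat_lit 9) nil nil))) (node
  (nat_lit 8) (nat_lit 80308) (nat_lit 8) (node (nat_lit 4) (nat_lit 80308) (nat_lit 9) (node
  (nat_lit 5) (nat_lit 80308) (nat_lit 10) nil nil) (node (nat_lit 5) (nat_lit 80308) (nat_lit 9)
  nil nil)) (node (nat_lit 0) (nat_lit 80308) (nat_lit 8) nil nil)))) (node (nat_lit 0) (nat_lit
  76159) (nat_lit 7) (node (nat_lit 5) (nat_lit 76598) (nat_lit 8) (node (nat_lit 8) (nat_lit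
  80929) (nat_lit 9) nil nil) (node (nat_lit 8) (nat_lit 80700) (nat_lit 8) (node (nat_lit 5)
  (nat_lit 80928) (nat_lit 9) (node (nat_lit 8) (nat_lit 82904) (nat_lit 10) nil nil) (node
  (nat_lit 10) (nat_lit 81201) (nat_lit 9) nil nil)) (node (nat_lit 6) (nat_lit 76159) (nat_lit 8)
  nil (node (nat_lit 0) (nat_lit 79485) (nat_lit 8) nil (node (nat_lit 4) (nat_lit 76159) (nat_lit
  8) nil nil))))) nil))) (node (nat_lit 6) (nat_lit 0) (nat_lit 6) (node (nat_lit 8) (nat_lit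
  74964) (nat_lit 7) (node (nat_lit 5) (nat_lit 76462) (nat_lit 8) (node (nat_lit 8) (nat_lit
  82710) (nat_lit 9) (node (nat_lit 6) (nat_lit 82999) (nat_lit 10) (node (nat_lit 5) (nat_lit
  83379) (nat_lit 11) (node (nat_lit 6) (nat_lit 83807) (nat_lit 12) (node (nat_lit 8) (nat_lit
  85486) (nat_lit 13) nil (node (nat_lit 4) (nat_lit 84289) (nat_lit 13) nil nil)) (node (nat_lit
  8) (nat_lit 85196) (nat_lit 12) (node (nat_lit 5) (nat_lit 85196) (nat_lit 13) nil nil) (node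
  (nat_lit 4) (nat_lit 83379) (nat_lit 12) nil (node (nat_lit 0) (nat_lit 84329) (nat_lit 12) nil
  nil)))) (node (nat_lit 4) (nat_lit 82999) (nat_lit 11) nil (node (nat_lit 0) (nat_lit 84392)
  (nat_lit 11) nil nil))) nil) (node (nat_lit 6) (nat_lit 76462) (nat_lit 9) nil nil)) nil) (node
  (nat_lit 5) (nat_lit 61135) (nat_lit 7) (node (nat_lit 6) (nat_lit 64319) (nat_lit 8) (node
  (nat_lit 8) (nat_lit 81021) (nat_lit 9) (node (nat_lit 5) (nat_lit 81021) (nat_lit 10) (node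
  (nat_lit 8) (nat_lit 82378) (nat_lit 11) nil nil) nil) (node (nat_lit 4) (nat_lit 64319)
  (nat_lit 9) nil nil)) (node (nat_lit 4) (nat_lit 62429) (nat_lit 8) nil nil)) (node (nat_lit 4)
  (nat_lit 61444) (nat_lit 7) (node (nat_lit 5) (nat_lit 63223) (nat_lit 8) (node (nat_lit 4)
  (nat_lit 64503) (nat_lit 9) (node (nat_lit 6) (nat_lit 64582) (nat_lit 10) nil nil) (node
  (nat_lit 6) (nat_lit 65195) (nat_lit 9) nil nil)) (node (nat_lit 6) (nat_lit 61019) (nat_lit 8)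
  nil (node (nat_lit 8) (nat_lit 65771) (nat_lit 8) nil nil))) (node (nat_lit 0) (nat_lit 72469)
  (nat_lit 7) nil nil)))) (node (nat_lit 4) (nat_lit 0) (nat_lit 6) (node (nat_lit 5) (nat_lit
  61544) (nat_lit 7) (node (nat_lit 4) (nat_lit 65356) (nat_lit 8) (node (nat_lit 8) (nat_lit
  79658) (nat_lit 9) (node (nat_lit 5) (nat_lit 79658) (nat_lit 10) nil nil) nil) (node (nat_lit
  6) (nat_lit 60769) (nat_lit 8) nil (node (nat_lit 0) (nat_lit 65870) (nat_lit 8) nil nil)))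
  (node (nat_lit 6) (nat_lit 60217) (nat_lit 7) (node (nat_lit 5) (nat_lit 63108) (nat_lit 8)
  (node (nat_lit 4) (nat_lit 63108) (nat_lit 9) nil nil) (node (nat_lit 8) (nat_lit 64544)
  (nat_lit 8) nil (node (nat_lit 4) (nat_lit 60217) (nat_lit 8) nil nil))) (node (nat_lit 8)
  (nat_lit 75524) (nat_lit 7) (node (nat_lit 5) (nat_lit 75805) (nat_lit 8) (node (nat_lit 8)
  (nat_lit 79979) (nat_lit 9) (node (nat_lit 4) (nat_lit 79979) (nat_lit 10) nil nil) nil) nil)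
  (node (nat_lit 0) (nat_lit 65996) (nat_lit 7) nil nil)))) (node (nat_lit 0) (nat_lit 68524)
  (nat_lit 6) (node (nat_lit 5) (nat_lit 69412) (nat_lit 7) (node (nat_lit 8) (nat_lit 79249)
  (nat_lit 8) (node (nat_lit 5) (nat_lit 79249) (nat_lit 9) (node (nat_lit 9) (nat_lit 80132)
  (nat_lit 10) nil nil) nil) (node (nat_lit 9) (nat_lit 75353) (nat_lit 8) nil nil)) (node
  (nat_lit 8) (nat_lit 75396) (nat_lit 7) (node (nat_lit 5) (nat_lit 75396) (nat_lit 8) (node
  (nat_lit 8) (nat_lit 78805) (nat_lit 9) nil nil) nil) (node (nat_lit 0) (nat_lit 69629) (nat_lit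
  7) nil (node (nat_lit 6) (nat_lit 68524) (nat_lit 7) nil nil)))) nil)))) (node (nat_lit 4)
  (nat_lit 0) (nat_lit 5) (node (nat_lit 0) (nat_lit 0) (nat_lit 6) (node (nat_lit 5) (nat_lit
  56946) (nat_lit 7) (node (nat_lit 4) (nat_lit 60006) (nat_lit 8) (node (nat_lit 6) (nat_lit
  63116) (nat_lit 9) (node (nat_lit 4) (nat_lit 65858) (nat_lit 10) (node (nat_lit 5) (nat_lit
  67830) (nat_lit 11) nil (node (nat_lit 9) (nat_lit 71056) (nat_lit 11) nil nil)) (node (nat_lit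
  5) (nat_lit 67132) (nat_lit 10) (node (nat_lit 6) (nat_lit 69104) (nat_lit 11) nil (node
  (nat_lit 9) (nat_lit 74289) (nat_lit 11) nil nil)) (node (nat_lit 9) (nat_lit 75700) (nat_lit
  10) nil (node (nat_lit 0) (nat_lit 71205) (nat_lit 10) nil nil)))) (node (nat_lit 5) (nat_lit
  63345) (nat_lit 9) (node (nat_lit 6) (nat_lit 65999) (nat_lit 10) (node (nat_lit 4) (nat_lit
  68910) (nat_lit 11) nil (node (nat_lit 9) (nat_lit 71197) (nat_lit 11) nil (node (nat_lit 0)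
  (nat_lit 71197) (nat_lit 11) nil (node (nat_lit 5) (nat_lit 67971) (nat_lit 11) nil nil))))
  (node (nat_lit 9) (nat_lit 76257) (nat_lit 10) (node (nat_lit 5) (nat_lit 76257) (nat_lit 11)
  nil nil) (node (nat_lit 0) (nat_lit 75394) (nat_lit 10) nil nil))) (node (nat_lit 0) (nat_lit
  73875) (nat_lit 9) nil nil))) (node (nat_lit 6) (nat_lit 56642) (nat_lit 8) nil (node (nat_lit
  9) (nat_lit 62999) (nat_lit 8) nil nil))) (node (nat_lit 6) (nat_lit 55722) (nat_lit 7) (node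
  (nat_lit 4) (nat_lit 56149) (nat_lit 8) (node (nat_lit 6) (nat_lit 56149) (nat_lit 9) nil (node
  (nat_lit 5) (nat_lit 56149) (nat_lit 9) nil nil)) (node (nat_lit 9) (nat_lit 59266) (nat_lit 8)
  nil nil)) (node (nat_lit 4) (nat_lit 56154) (nat_lit 7) (node (nat_lit 5) (nat_lit 55805)
  (nat_lit 8) (node (nat_lit 9) (nat_lit 67387) (nat_lit 9) (node (nat_lit 5) (nat_lit 67387)
  (nat_lit 10) (node (nat_lit 4) (nat_lit 67387) (nat_lit 11) nil nil) nil) nil) (node (nat_lit 6)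
  (nat_lit 56154) (nat_lit 8) nil nil)) (node (nat_lit 0) (nat_lit 63125) (nat_lit 7) nil nil))))
  nil) nil)) nil))

noncomputable def t421 : Tr :=
  (node (nat_lit 0) (nat_lit 0) (nat_lit 4) (node (nat_lit 3) (nat_lit 0) (nat_lit 5) (node
  (nat_lit 7) (nat_lit 0) (nat_lit 6) (node (nat_lit 4) (nat_lit 61881) (nat_lit 7) (node (nat_lit
  8) (nat_lit 62317) (nat_lit 8) (node (nat_lit 4) (nat_lit 63775) (nat_lit 9) (node (nat_lit 5)
  (nat_lit 65009) (nat_lit 10) (node (nat_lit 8) (nat_lit 66088) (nat_lit 11) nil (node (nat_lit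
  4) (nat_lit 63855) (nat_lit 11) nil nil)) (node (nat_lit 7) (nat_lit 66277) (nat_lit 10) nil
  (node (nat_lit 0) (nat_lit 65267) (nat_lit 10) nil nil))) (node (nat_lit 5) (nat_lit 63775)
  (nat_lit 9) (node (nat_lit 8) (nat_lit 64644) (nat_lit 10) (node (nat_lit 4) (nat_lit 65221)
  (nat_lit 11) nil nil) (node (nat_lit 4) (nat_lit 63372) (nat_lit 10) (node (nat_lit 5) (nat_lit
  62218) (nat_lit 11) nil nil) (node (nat_lit 0) (nat_lit 65267) (nat_lit 10) nil nil))) (node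
  (nat_lit 0) (nat_lit 65361) (nat_lit 9) nil nil))) (node (nat_lit 5) (nat_lit 61881) (nat_lit 8)
  (node (nat_lit 8) (nat_lit 61881) (nat_lit 9) nil (node (nat_lit 4) (nat_lit 61881) (nat_lit 9)
  nil nil)) (node (nat_lit 7) (nat_lit 66223) (nat_lit 8) nil (node (nat_lit 0) (nat_lit 64282)
  (nat_lit 8) nil nil)))) (node (nat_lit 5) (nat_lit 61831) (nat_lit 7) (node (nat_lit 8) (nat_lit
  61293) (nat_lit 8) (node (nat_lit 5) (nat_lit 61293) (nat_lit 9) (node (nat_lit 7) (nat_lit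
  62784) (nat_lit 10) nil (node (nat_lit 4) (nat_lit 61293) (nat_lit 10) nil nil)) (node (nat_lit
  4) (nat_lit 61293) (nat_lit 9) (node (nat_lit 8) (nat_lit 61293) (nat_lit 10) nil (node (nat_lit
  5) (nat_lit 61293) (nat_lit 10) nil nil)) (node (nat_lit 0) (nat_lit 62585) (nat_lit 9) nil
  nil))) (node (nat_lit 4) (nat_lit 61831) (nat_lit 8) nil nil)) (node (nat_lit 0) (nat_lit 62942)
  (nat_lit 7) nil nil))) (node (nat_lit 4) (nat_lit 0) (nat_lit 6) (node (nat_lit 8) (nat_lit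
  52159) (nat_lit 7) (node (nat_lit 5) (nat_lit 57005) (nat_lit 8) (node (nat_lit 4) (nat_lit
  60500) (nat_lit 9) (node (nat_lit 5) (nat_lit 60242) (nat_lit 10) nil nil) (node (nat_lit 8)
  (nat_lit 60276) (nat_lit 9) nil (node (nat_lit 7) (nat_lit 61717) (nat_lit 9) nil nil))) (node
  (nat_lit 7) (nat_lit 65887) (nat_lit 8) nil (node (nat_lit 0) (nat_lit 56609) (nat_lit 8) nil
  nil))) (node (nat_lit 5) (nat_lit 52119) (nat_lit 7) (node (nat_lit 4) (nat_lit 55765) (nat_lit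
  8) (node (nat_lit 8) (nat_lit 57328) (nat_lit 9) nil nil) (node (nat_lit 8) (nat_lit 55617)
  (nat_lit 8) (node (nat_lit 4) (nat_lit 58889) (nat_lit 9) (node (nat_lit 8) (nat_lit 60142)
  (nat_lit 10) nil nil) nil) (node (nat_lit 7) (nat_lit 56570) (nat_lit 8) nil nil))) (node
  (nat_lit 7) (nat_lit 64609) (nat_lit 7) (node (nat_lit 4) (nat_lit 64609) (nat_lit 8) (node
  (nat_lit 8) (nat_lit 64609) (nat_lit 9) nil nil) nil) (node (nat_lit 0) (nat_lit 60602) (nat_lit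
  7) nil nil)))) (node (nat_lit 5) (nat_lit 0) (nat_lit 6) (node (nat_lit 4) (nat_lit 52103)
  (nat_lit 7) (node (nat_lit 8) (nat_lit 56964) (nat_lit 8) (node (nat_lit 5) (nat_lit 60292)
  (nat_lit 9) (node (nat_lit 8) (nat_lit 61453) (nat_lit 10) (node (nat_lit 4) (nat_lit 59974)
  (nat_lit 11) (node (nat_lit 5) (nat_lit 56179) (nat_lit 12) (node (nat_lit 4) (nat_lit 49577)
  (nat_lit 13) nil nil) nil) nil) nil) (node (nat_lit 4) (nat_lit 60236) (nat_lit 9) nil nil))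
  (node (nat_lit 5) (nat_lit 56964) (nat_lit 8) (node (nat_lit 8) (nat_lit 61175) (nat_lit 9)
  (node (nat_lit 4) (nat_lit 63296) (nat_lit 10) nil nil) nil) nil)) (node (nat_lit 8) (nat_lit 0)
  (nat_lit 7) (node (nat_lit 4) (nat_lit 56826) (nat_lit 8) (node (nat_lit 5) (nat_lit 61113)
  (nat_lit 9) (node (nat_lit 4) (nat_lit 60854) (nat_lit 10) (node (nat_lit 7) (nat_lit 35434)
  (nat_lit 11) (node (nat_lit 8) (nat_lit 12904) (nat_lit 12) nil nil) nil) nil) (node (nat_lit 8)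
  (nat_lit 58993) (nat_lit 9) nil nil)) (node (nat_lit 7) (nat_lit 57151) (nat_lit 8) nil (node
  (nat_lit 0) (nat_lit 57151) (nat_lit 8) nil nil))) (node (nat_lit 7) (nat_lit 63942) (nat_lit 7)
  nil (node (nat_lit 0) (nat_lit 56860) (nat_lit 7) nil nil)))) (node (nat_lit 0) (nat_lit 60357)
  (nat_lit 6) nil nil)))) (node (nat_lit 5) (nat_lit 0) (nat_lit 5) (node (nat_lit 7) (nat_lit 0)
  (nat_lit 6) (node (nat_lit 4) (nat_lit 62004) (nat_lit 7) (node (nat_lit 5) (nat_lit 61907)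
  (nat_lit 8) (node (nat_lit 4) (nat_lit 63520) (nat_lit 9) (node (nat_lit 3) (nat_lit 64870)
  (nat_lit 10) (node (nat_lit 5) (nat_lit 65505) (nat_lit 11) (node (nat_lit 4) (nat_lit 65958)
  (nat_lit 12) nil (node (nat_lit 13) (nat_lit 63685) (nat_lit 12) nil nil)) (node (nat_lit 4)
  (nat_lit 65447) (nat_lit 11) nil nil)) (node (nat_lit 7) (nat_lit 66277) (nat_lit 10) nil (node
  (nat_lit 0) (nat_lit 65011) (nat_lit 10) nil nil))) (node (nat_lit 3) (nat_lit 62524) (nat_lit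
  9) (node (nat_lit 5) (nat_lit 62177) (nat_lit 10) (node (nat_lit 4) (nat_lit 61023) (nat_lit 11)
  nil nil) (node (nat_lit 4) (nat_lit 63392) (nat_lit 10) (node (nat_lit 12) (nat_lit 63970)
  (nat_lit 11) nil nil) (node (nat_lit 0) (nat_lit 64015) (nat_lit 10) nil nil))) (node (nat_lit
  0) (nat_lit 64951) (nat_lit 9) nil nil))) (node (nat_lit 3) (nat_lit 62004) (nat_lit 8) (node
  (nat_lit 5) (nat_lit 62004) (nat_lit 9) nil (node (nat_lit 4) (nat_lit 62004) (nat_lit 9) nil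
  nil)) (node (nat_lit 7) (nat_lit 66277) (nat_lit 8) (node (nat_lit 5) (nat_lit 66277) (nat_lit
  9) nil nil) (node (nat_lit 0) (nat_lit 64406) (nat_lit 8) nil nil)))) (node (nat_lit 3) (nat_lit
  61876) (nat_lit 7) (node (nat_lit 5) (nat_lit 62317) (nat_lit 8) (node (nat_lit 10) (nat_lit
  63775) (nat_lit 9) (node (nat_lit 4) (nat_lit 63775) (nat_lit 10) nil (node (nat_lit 7) (nat_lit
  65267) (nat_lit 10) nil (node (nat_lit 0) (nat_lit 65267) (nat_lit 10) nil nil))) (node (nat_lit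
  4) (nat_lit 62317) (nat_lit 9) (node (nat_lit 5) (nat_lit 62317) (nat_lit 10) nil (node (nat_lit
  10) (nat_lit 62317) (nat_lit 10) nil nil)) (node (nat_lit 0) (nat_lit 63610) (nat_lit 9) nil
  nil))) (node (nat_lit 4) (nat_lit 61876) (nat_lit 8) nil nil)) (node (nat_lit 0) (nat_lit 62810)
  (nat_lit 7) nil nil))) (node (nat_lit 4) (nat_lit 0) (nat_lit 6) (node (nat_lit 5) (nat_lit
  51974) (nat_lit 7) (node (nat_lit 3) (nat_lit 56952) (nat_lit 8) (node (nat_lit 4) (nat_lit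
  61238) (nat_lit 9) (node (nat_lit 11) (nat_lit 63641) (nat_lit 10) (node (nat_lit 5) (nat_lit
  63367) (nat_lit 11) (node (nat_lit 11) (nat_lit 64254) (nat_lit 12) (node (nat_lit 4) (nat_lit
  63923) (nat_lit 13) nil nil) nil) nil) nil) (node (nat_lit 5) (nat_lit 58618) (nat_lit 9) nil
  (node (nat_lit 7) (nat_lit 61664) (nat_lit 9) nil nil))) (node (nat_lit 7) (nat_lit 65701)
  (nat_lit 8) nil (node (nat_lit 0) (nat_lit 61253) (nat_lit 8) nil nil))) (node (nat_lit 3)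
  (nat_lit 52469) (nat_lit 7) (node (nat_lit 5) (nat_lit 56806) (nat_lit 8) (node (nat_lit 4)
  (nat_lit 58369) (nat_lit 9) (node (nat_lit 5) (nat_lit 57242) (nat_lit 10) nil nil) nil) (node
  (nat_lit 4) (nat_lit 55967) (nat_lit 8) (node (nat_lit 5) (nat_lit 57634) (nat_lit 9) nil nil)
  (node (nat_lit 7) (nat_lit 56920) (nat_lit 8) nil nil))) (node (nat_lit 0) (nat_lit 61011)
  (nat_lit 7) nil nil))) (node (nat_lit 3) (nat_lit 0) (nat_lit 6) (node (nat_lit 4) (nat_lit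
  51708) (nat_lit 7) (node (nat_lit 5) (nat_lit 56008) (nat_lit 8) (node (nat_lit 9) (nat_lit
  59281) (nat_lit 9) (node (nat_lit 5) (nat_lit 60533) (nat_lit 10) nil nil) (node (nat_lit 4)
  (nat_lit 54703) (nat_lit 9) nil nil)) (node (nat_lit 9) (nat_lit 55321) (nat_lit 8) (node
  (nat_lit 5) (nat_lit 58564) (nat_lit 9) (node (nat_lit 4) (nat_lit 57033) (nat_lit 10) nil nil)
  nil) (node (nat_lit 7) (nat_lit 56158) (nat_lit 8) nil nil))) (node (nat_lit 5) (nat_lit 0)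
  (nat_lit 7) (node (nat_lit 4) (nat_lit 56370) (nat_lit 8) (node (nat_lit 9) (nat_lit 60580)
  (nat_lit 9) (node (nat_lit 4) (nat_lit 61833) (nat_lit 10) nil nil) (node (nat_lit 5) (nat_lit
  55065) (nat_lit 9) nil nil)) (node (nat_lit 7) (nat_lit 56261) (nat_lit 8) nil (node (nat_lit 0)
  (nat_lit 56261) (nat_lit 8) nil nil))) (node (nat_lit 7) (nat_lit 63322) (nat_lit 7) nil (node
  (nat_lit 0) (nat_lit 56240) (nat_lit 7) nil nil)))) (node (nat_lit 0) (nat_lit 60029) (nat_lit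
  6) nil nil)))) (node (nat_lit 4) (nat_lit 0) (nat_lit 5) (node (nat_lit 5) (nat_lit 0) (nat_lit
  6) (node (nat_lit 3) (nat_lit 51727) (nat_lit 7) (node (nat_lit 5) (nat_lit 53859) (nat_lit 8)
  (node (nat_lit 4) (nat_lit 54801) (nat_lit 9) (node (nat_lit 10) (nat_lit 54660) (nat_lit 10)
  (node (nat_lit 4) (nat_lit 53534) (nat_lit 11) (node (nat_lit 5) (nat_lit 50217) (nat_lit 12)
  (node (nat_lit 4) (nat_lit 47705) (nat_lit 13) nil nil) nil) nil) (node (nat_lit 5) (nat_lit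
  53674) (nat_lit 10) nil nil)) nil) (node (nat_lit 4) (nat_lit 55796) (nat_lit 8) (node (nat_lit
  10) (nat_lit 57358) (nat_lit 9) nil (node (nat_lit 5) (nat_lit 57962) (nat_lit 9) nil nil))
  (node (nat_lit 0) (nat_lit 56177) (nat_lit 8) nil (node (nat_lit 7) (nat_lit 56177) (nat_lit 8)
  nil nil)))) (node (nat_lit 4) (nat_lit 52122) (nat_lit 7) (node (nat_lit 3) (nat_lit 56984)
  (nat_lit 8) (node (nat_lit 5) (nat_lit 59745) (nat_lit 9) (node (nat_lit 11) (nat_lit 60907)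
  (nat_lit 10) (node (nat_lit 4) (nat_lit 59846) (nat_lit 11) nil nil) nil) (node (nat_lit 4)
  (nat_lit 60255) (nat_lit 9) nil nil)) (node (nat_lit 0) (nat_lit 56572) (nat_lit 8) nil nil))
  (node (nat_lit 7) (nat_lit 63475) (nat_lit 7) nil (node (nat_lit 0) (nat_lit 56393) (nat_lit 7)
  nil nil)))) (node (nat_lit 3) (nat_lit 0) (nat_lit 6) (node (nat_lit 5) (nat_lit 51229) (nat_lit
  7) (node (nat_lit 4) (nat_lit 55704) (nat_lit 8) (node (nat_lit 5) (nat_lit 55504) (nat_lit 9)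
  nil (node (nat_lit 9) (nat_lit 57870) (nat_lit 9) nil nil)) (node (nat_lit 9) (nat_lit 55152)
  (nat_lit 8) (node (nat_lit 4) (nat_lit 57319) (nat_lit 9) nil nil) (node (nat_lit 0) (nat_lit
  55680) (nat_lit 8) nil nil))) (node (nat_lit 4) (nat_lit 51274) (nat_lit 7) (node (nat_lit 5)
  (nat_lit 55575) (nat_lit 8) (node (nat_lit 9) (nat_lit 58847) (nat_lit 9) (node (nat_lit 5)
  (nat_lit 60100) (nat_lit 10) nil nil) (node (nat_lit 4) (nat_lit 59549) (nat_lit 9) (node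
  (nat_lit 9) (nat_lit 60763) (nat_lit 10) nil nil) nil)) (node (nat_lit 7) (nat_lit 65002)
  (nat_lit 8) nil nil)) (node (nat_lit 7) (nat_lit 60025) (nat_lit 7) nil (node (nat_lit 0)
  (nat_lit 55545) (nat_lit 7) nil nil)))) (node (nat_lit 0) (nat_lit 61005) (nat_lit 6) (node
  (nat_lit 4) (nat_lit 61005) (nat_lit 7) nil nil) nil))) (node (nat_lit 0) (nat_lit 0) (nat_lit
  5) (node (nat_lit 7) (nat_lit 0) (nat_lit 6) (node (nat_lit 4) (nat_lit 61678) (nat_lit 7) (node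
  (nat_lit 8) (nat_lit 66019) (nat_lit 8) (node (nat_lit 7) (nat_lit 66277) (nat_lit 9) nil (node
  (nat_lit 4) (nat_lit 66019) (nat_lit 9) nil nil)) (node (nat_lit 7) (nat_lit 62709) (nat_lit 8)
  nil nil)) (node (nat_lit 3) (nat_lit 61881) (nat_lit 7) (node (nat_lit 8) (nat_lit 62912)
  (nat_lit 8) nil nil) (node (nat_lit 5) (nat_lit 61881) (nat_lit 7) (node (nat_lit 8) (nat_lit
  62912) (nat_lit 8) nil nil) (node (nat_lit 0) (nat_lit 64785) (nat_lit 7) nil nil)))) (node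
  (nat_lit 4) (nat_lit 0) (nat_lit 6) (node (nat_lit 8) (nat_lit 64067) (nat_lit 7) (node (nat_lit
  7) (nat_lit 65022) (nat_lit 8) (node (nat_lit 8) (nat_lit 65284) (nat_lit 9) nil nil) nil) (node
  (nat_lit 3) (nat_lit 54975) (nat_lit 7) nil (node (nat_lit 5) (nat_lit 54975) (nat_lit 7) nil
  (node (nat_lit 7) (nat_lit 62747) (nat_lit 7) nil (node (nat_lit 0) (nat_lit 62747) (nat_lit 7)
  nil nil))))) (node (nat_lit 3) (nat_lit 0) (nat_lit 6) (node (nat_lit 4) (nat_lit 55612)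
  (nat_lit 7) nil (node (nat_lit 8) (nat_lit 63383) (nat_lit 7) nil (node (nat_lit 7) (nat_lit
  59416) (nat_lit 7) nil (node (nat_lit 5) (nat_lit 55612) (nat_lit 7) nil (node (nat_lit 0)
  (nat_lit 57442) (nat_lit 7) nil nil))))) (node (nat_lit 5) (nat_lit 0) (nat_lit 6) (node
  (nat_lit 4) (nat_lit 55344) (nat_lit 7) nil (node (nat_lit 8) (nat_lit 63116) (nat_lit 7) nil
  (node (nat_lit 7) (nat_lit 59149) (nat_lit 7) nil (node (nat_lit 3) (nat_lit 55344) (nat_lit 7)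
  nil (node (nat_lit 0) (nat_lit 57175) (nat_lit 7) nil nil))))) (node (nat_lit 0) (nat_lit 60944)
  (nat_lit 6) nil nil))))) nil)))) (node (nat_lit 3) (nat_lit 0) (nat_lit 4) (node (nat_lit 0)
  (nat_lit 0) (nat_lit 5) (node (nat_lit 7) (nat_lit 0) (nat_lit 6) (node (nat_lit 4) (nat_lit
  52558) (nat_lit 7) (node (nat_lit 8) (nat_lit 65786) (nat_lit 8) (node (nat_lit 7) (nat_lit
  66207) (nat_lit 9) (node (nat_lit 8) (nat_lit 66277) (nat_lit 10) (node (nat_lit 4) (nat_lit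
  66277) (nat_lit 11) (node (nat_lit 7) (nat_lit 66277) (nat_lit 12) (node (nat_lit 4) (nat_lit
  66277) (nat_lit 13) (node (nat_lit 8) (nat_lit 66277) (nat_lit 14) nil nil) nil) (node (nat_lit
  8) (nat_lit 66277) (nat_lit 12) nil nil)) nil) (node (nat_lit 5) (nat_lit 66207) (nat_lit 10)
  (node (nat_lit 7) (nat_lit 66207) (nat_lit 11) nil (node (nat_lit 4) (nat_lit 66207) (nat_lit
  11) nil nil)) (node (nat_lit 0) (nat_lit 66277) (nat_lit 10) nil nil))) (node (nat_lit 4)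
  (nat_lit 65786) (nat_lit 9) (node (nat_lit 7) (nat_lit 65786) (nat_lit 10) nil nil) (node
  (nat_lit 5) (nat_lit 65786) (nat_lit 9) nil nil))) (node (nat_lit 5) (nat_lit 55907) (nat_lit 8)
  (node (nat_lit 7) (nat_lit 59284) (nat_lit 9) (node (nat_lit 5) (nat_lit 60708) (nat_lit 10) nil
  (node (nat_lit 4) (nat_lit 62108) (nat_lit 10) nil (node (nat_lit 0) (nat_lit 62029) (nat_lit
  10) nil (node (nat_lit 8) (nat_lit 62029) (nat_lit 10) nil nil)))) (node (nat_lit 4) (nat_lit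
  60119) (nat_lit 9) (node (nat_lit 7) (nat_lit 61612) (nat_lit 10) nil (node (nat_lit 8) (nat_lit
  66090) (nat_lit 10) nil (node (nat_lit 0) (nat_lit 62864) (nat_lit 10) nil nil))) (node (nat_lit
  8) (nat_lit 63315) (nat_lit 9) nil (node (nat_lit 0) (nat_lit 65867) (nat_lit 9) nil nil))))
  (node (nat_lit 7) (nat_lit 57045) (nat_lit 8) (node (nat_lit 8) (nat_lit 66277) (nat_lit 9)
  (node (nat_lit 4) (nat_lit 66277) (nat_lit 10) (node (nat_lit 7) (nat_lit 66277) (nat_lit 11)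
  nil nil) nil) (node (nat_lit 5) (nat_lit 59923) (nat_lit 9) (node (nat_lit 7) (nat_lit 62747)
  (nat_lit 10) nil (node (nat_lit 4) (nat_lit 58796) (nat_lit 10) nil nil)) (node (nat_lit 0)
  (nat_lit 64452) (nat_lit 9) nil nil))) (node (nat_lit 0) (nat_lit 64636) (nat_lit 8) nil nil))))
  (node (nat_lit 5) (nat_lit 53861) (nat_lit 7) (node (nat_lit 4) (nat_lit 57215) (nat_lit 8)
  (node (nat_lit 5) (nat_lit 61246) (nat_lit 9) (node (nat_lit 7) (nat_lit 64070) (nat_lit 10) nil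
  (node (nat_lit 8) (nat_lit 66277) (nat_lit 10) nil (node (nat_lit 0) (nat_lit 63991) (nat_lit
  10) nil nil))) (node (nat_lit 7) (nat_lit 60831) (nat_lit 9) (node (nat_lit 4) (nat_lit 63655)
  (nat_lit 10) nil (node (nat_lit 5) (nat_lit 61275) (nat_lit 10) nil (node (nat_lit 0) (nat_lit
  63575) (nat_lit 10) nil (node (nat_lit 8) (nat_lit 63575) (nat_lit 10) nil nil)))) (node
  (nat_lit 8) (nat_lit 64623) (nat_lit 9) nil (node (nat_lit 0) (nat_lit 64623) (nat_lit 9) nil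
  nil)))) (node (nat_lit 7) (nat_lit 57168) (nat_lit 8) (node (nat_lit 4) (nat_lit 60162) (nat_lit
  9) (node (nat_lit 8) (nat_lit 66132) (nat_lit 10) nil (node (nat_lit 5) (nat_lit 61415) (nat_lit
  10) nil nil)) (node (nat_lit 8) (nat_lit 65999) (nat_lit 9) (node (nat_lit 5) (nat_lit 65999)
  (nat_lit 10) nil nil) (node (nat_lit 0) (nat_lit 64576) (nat_lit 9) nil nil))) (node (nat_lit 8)
  (nat_lit 65939) (nat_lit 8) (node (nat_lit 5) (nat_lit 65939) (nat_lit 9) (node (nat_lit 7)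
  (nat_lit 65939) (nat_lit 10) nil nil) (node (nat_lit 7) (nat_lit 65939) (nat_lit 9) nil (node
  (nat_lit 4) (nat_lit 65939) (nat_lit 9) nil nil))) (node (nat_lit 0) (nat_lit 65939) (nat_lit 8)
  nil nil)))) (node (nat_lit 0) (nat_lit 64069) (nat_lit 7) (node (nat_lit 8) (nat_lit 66277)
  (nat_lit 8) (node (nat_lit 7) (nat_lit 66277) (nat_lit 9) (node (nat_lit 8) (nat_lit 66277)
  (nat_lit 10) nil nil) (node (nat_lit 10) (nat_lit 66277) (nat_lit 9) nil nil)) (node (nat_lit 7)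
  (nat_lit 63913) (nat_lit 8) (node (nat_lit 8) (nat_lit 65948) (nat_lit 9) nil (node (nat_lit 4)
  (nat_lit 63913) (nat_lit 9) nil (node (nat_lit 5) (nat_lit 63913) (nat_lit 9) nil nil))) (node
  (nat_lit 4) (nat_lit 64069) (nat_lit 8) (node (nat_lit 8) (nat_lit 64784) (nat_lit 9) nil nil)
  (node (nat_lit 5) (nat_lit 64069) (nat_lit 8) nil (node (nat_lit 0) (nat_lit 66012) (nat_lit 8)
  nil nil))))) nil))) (node (nat_lit 4) (nat_lit 0) (nat_lit 6) (node (nat_lit 8) (nat_lit 63431)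
  (nat_lit 7) (node (nat_lit 7) (nat_lit 63393) (nat_lit 8) (node (nat_lit 8) (nat_lit 66277)
  (nat_lit 9) (node (nat_lit 4) (nat_lit 66277) (nat_lit 10) (node (nat_lit 7) (nat_lit 66277)
  (nat_lit 11) (node (nat_lit 4) (nat_lit 66277) (nat_lit 12) (node (nat_lit 8) (nat_lit 66277)
  (nat_lit 13) nil nil) (node (nat_lit 8) (nat_lit 66277) (nat_lit 12) nil (node (nat_lit 5)
  (nat_lit 66277) (nat_lit 12) nil nil))) (node (nat_lit 5) (nat_lit 66277) (nat_lit 11) nil nil))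
  nil) (node (nat_lit 4) (nat_lit 63393) (nat_lit 9) nil nil)) nil) (node (nat_lit 7) (nat_lit
  53620) (nat_lit 7) (node (nat_lit 4) (nat_lit 56660) (nat_lit 8) (node (nat_lit 8) (nat_lit
  66277) (nat_lit 9) (node (nat_lit 7) (nat_lit 66277) (nat_lit 10) nil nil) nil) (node (nat_lit
  5) (nat_lit 53620) (nat_lit 8) nil (node (nat_lit 0) (nat_lit 55904) (nat_lit 8) nil nil)))
  (node (nat_lit 5) (nat_lit 53579) (nat_lit 7) (node (nat_lit 7) (nat_lit 56041) (nat_lit 8)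
  (node (nat_lit 5) (nat_lit 56908) (nat_lit 9) (node (nat_lit 4) (nat_lit 55781) (nat_lit 10) nil
  nil) (node (nat_lit 4) (nat_lit 58012) (nat_lit 9) nil nil)) (node (nat_lit 4) (nat_lit 54874)
  (nat_lit 8) nil (node (nat_lit 8) (nat_lit 60344) (nat_lit 8) nil (node (nat_lit 0) (nat_lit
  55863) (nat_lit 8) nil nil)))) (node (nat_lit 0) (nat_lit 61164) (nat_lit 7) nil nil)))) (node
  (nat_lit 5) (nat_lit 0) (nat_lit 6) (node (nat_lit 7) (nat_lit 52939) (nat_lit 7) (node (nat_lit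
  5) (nat_lit 56209) (nat_lit 8) (node (nat_lit 8) (nat_lit 65272) (nat_lit 9) nil nil) (node
  (nat_lit 4) (nat_lit 53295) (nat_lit 8) nil (node (nat_lit 0) (nat_lit 55223) (nat_lit 8) nil
  nil))) (node (nat_lit 4) (nat_lit 52043) (nat_lit 7) (node (nat_lit 7) (nat_lit 54552) (nat_lit
  8) (node (nat_lit 4) (nat_lit 54552) (nat_lit 9) nil nil) (node (nat_lit 5) (nat_lit 52043)
  (nat_lit 8) nil nil)) (node (nat_lit 8) (nat_lit 62932) (nat_lit 7) (node (nat_lit 7) (nat_lit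
  62932) (nat_lit 8) (node (nat_lit 8) (nat_lit 64967) (nat_lit 9) nil nil) nil) (node (nat_lit 0)
  (nat_lit 58051) (nat_lit 7) nil nil)))) (node (nat_lit 0) (nat_lit 0) (nat_lit 6) (node (nat_lit
  7) (nat_lit 58307) (nat_lit 7) (node (nat_lit 8) (nat_lit 65630) (nat_lit 8) (node (nat_lit 7)
  (nat_lit 65630) (nat_lit 9) (node (nat_lit 9) (nat_lit 66090) (nat_lit 10) nil nil) nil) (node
  (nat_lit 9) (nat_lit 63888) (nat_lit 8) nil nil)) (node (nat_lit 8) (nat_lit 63423) (nat_lit 7)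
  (node (nat_lit 7) (nat_lit 63423) (nat_lit 8) (node (nat_lit 8) (nat_lit 65458) (nat_lit 9)
  (node (nat_lit 9) (nat_lit 65657) (nat_lit 10) nil nil) nil) nil) (node (nat_lit 4) (nat_lit
  57852) (nat_lit 7) nil (node (nat_lit 0) (nat_lit 58429) (nat_lit 7) nil (node (nat_lit 5)
  (nat_lit 57852) (nat_lit 7) nil nil))))) nil)))) (node (nat_lit 4) (nat_lit 0) (nat_lit 5) (node
  (nat_lit 0) (nat_lit 0) (nat_lit 6) (node (nat_lit 7) (nat_lit 42384) (nat_lit 7) (node (nat_lit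
  4) (nat_lit 43605) (nat_lit 8) (node (nat_lit 7) (nat_lit 45383) (nat_lit 9) (node (nat_lit 5)
  (nat_lit 46650) (nat_lit 10) (node (nat_lit 4) (nat_lit 48502) (nat_lit 11) nil (node (nat_lit
  7) (nat_lit 48320) (nat_lit 11) nil (node (nat_lit 9) (nat_lit 49627) (nat_lit 11) nil nil)))
  (node (nat_lit 9) (nat_lit 50461) (nat_lit 10) (node (nat_lit 4) (nat_lit 50461) (nat_lit 11)
  (node (nat_lit 9) (nat_lit 50796) (nat_lit 12) nil (node (nat_lit 7) (nat_lit 50461) (nat_lit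
  12) nil nil)) (node (nat_lit 7) (nat_lit 50461) (nat_lit 11) (node (nat_lit 4) (nat_lit 50461)
  (nat_lit 12) nil nil) nil)) (node (nat_lit 0) (nat_lit 50461) (nat_lit 10) nil nil))) (node
  (nat_lit 5) (nat_lit 45128) (nat_lit 9) (node (nat_lit 7) (nat_lit 46438) (nat_lit 10) (node
  (nat_lit 5) (nat_lit 47581) (nat_lit 11) nil (node (nat_lit 9) (nat_lit 50495) (nat_lit 11) nil
  nil)) (node (nat_lit 4) (nat_lit 46402) (nat_lit 10) (node (nat_lit 7) (nat_lit 47545) (nat_lit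
  11) (node (nat_lit 4) (nat_lit 48484) (nat_lit 12) nil nil) (node (nat_lit 9) (nat_lit 49380)
  (nat_lit 11) nil (node (nat_lit 0) (nat_lit 49380) (nat_lit 11) nil nil))) (node (nat_lit 9)
  (nat_lit 50461) (nat_lit 10) nil (node (nat_lit 0) (nat_lit 49830) (nat_lit 10) nil nil))))
  (node (nat_lit 0) (nat_lit 49946) (nat_lit 9) nil nil))) (node (nat_lit 9) (nat_lit 49221)
  (nat_lit 8) (node (nat_lit 4) (nat_lit 49221) (nat_lit 9) nil nil) (node (nat_lit 0) (nat_lit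
  44465) (nat_lit 8) nil nil))) (node (nat_lit 4) (nat_lit 42307) (nat_lit 7) (node (nat_lit 7)
  (nat_lit 44008) (nat_lit 8) (node (nat_lit 9) (nat_lit 50167) (nat_lit 9) (node (nat_lit 7)
  (nat_lit 50167) (nat_lit 10) (node (nat_lit 4) (nat_lit 50167) (nat_lit 11) (node (nat_lit 9)
  (nat_lit 50796) (nat_lit 12) (node (nat_lit 4) (nat_lit 50796) (nat_lit 13) nil nil) nil) nil)
  nil) nil) nil) (node (nat_lit 5) (nat_lit 41203) (nat_lit 7) (node (nat_lit 4) (nat_lit 41203)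
  (nat_lit 8) nil nil) (node (nat_lit 0) (nat_lit 44269) (nat_lit 7) nil nil)))) nil) (node
  (nat_lit 5) (nat_lit 0) (nat_lit 5) (node (nat_lit 0) (nat_lit 0) (nat_lit 6) (node (nat_lit 7)
  (nat_lit 45281) (nat_lit 7) (node (nat_lit 5) (nat_lit 47930) (nat_lit 8) (node (nat_lit 4)
  (nat_lit 50793) (nat_lit 9) (node (nat_lit 7) (nat_lit 53873) (nat_lit 10) (node (nat_lit 4)
  (nat_lit 55016) (nat_lit 11) nil (node (nat_lit 9) (nat_lit 56851) (nat_lit 11) nil nil)) (node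
  (nat_lit 5) (nat_lit 52978) (nat_lit 10) (node (nat_lit 7) (nat_lit 54121) (nat_lit 11) nil
  (node (nat_lit 9) (nat_lit 55956) (nat_lit 11) nil nil)) (node (nat_lit 9) (nat_lit 59219)
  (nat_lit 10) nil (node (nat_lit 0) (nat_lit 56820) (nat_lit 10) nil nil)))) (node (nat_lit 7)
  (nat_lit 50808) (nat_lit 9) (node (nat_lit 4) (nat_lit 52513) (nat_lit 10) (node (nat_lit 5)
  (nat_lit 54021) (nat_lit 11) nil (node (nat_lit 9) (nat_lit 55491) (nat_lit 11) nil (node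
  (nat_lit 0) (nat_lit 55491) (nat_lit 11) nil nil))) (node (nat_lit 9) (nat_lit 59496) (nat_lit
  10) (node (nat_lit 7) (nat_lit 59496) (nat_lit 11) nil (node (nat_lit 5) (nat_lit 59496)
  (nat_lit 11) nil nil)) (node (nat_lit 0) (nat_lit 58948) (nat_lit 10) nil nil))) (node (nat_lit
  0) (nat_lit 57823) (nat_lit 9) nil nil))) (node (nat_lit 4) (nat_lit 45752) (nat_lit 8) nil
  (node (nat_lit 9) (nat_lit 49872) (nat_lit 8) nil nil))) (node (nat_lit 5) (nat_lit 0) (nat_lit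
  7) (node (nat_lit 7) (nat_lit 45556) (nat_lit 8) (node (nat_lit 9) (nat_lit 55299) (nat_lit 9)
  (node (nat_lit 7) (nat_lit 55299) (nat_lit 10) (node (nat_lit 5) (nat_lit 55299) (nat_lit 11)
  (node (nat_lit 9) (nat_lit 55834) (nat_lit 12) nil nil) nil) nil) nil) (node (nat_lit 0)
  (nat_lit 47281) (nat_lit 8) nil (node (nat_lit 4) (nat_lit 45199) (nat_lit 8) nil nil))) (node
  (nat_lit 4) (nat_lit 45237) (nat_lit 7) (node (nat_lit 5) (nat_lit 44789) (nat_lit 8) (node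
  (nat_lit 4) (nat_lit 44789) (nat_lit 9) nil (node (nat_lit 7) (nat_lit 44789) (nat_lit 9) nil
  nil)) (node (nat_lit 9) (nat_lit 47319) (nat_lit 8) nil nil)) (node (nat_lit 0) (nat_lit 49420)
  (nat_lit 7) nil nil)))) nil) nil))) nil))

noncomputable def t422 : Tr :=
  (node (nat_lit 3) (nat_lit 0) (nat_lit 3) (node (nat_lit 0) (nat_lit 0) (nat_lit 4) (node
  (nat_lit 4) (nat_lit 0) (nat_lit 5) (node (nat_lit 7) (nat_lit 0) (nat_lit 6) (node (nat_lit 6)
  (nat_lit 90462) (nat_lit 7) (node (nat_lit 4) (nat_lit 91411) (nat_lit 8) (node (nat_lit 6)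
  (nat_lit 91945) (nat_lit 9) (node (nat_lit 5) (nat_lit 93199) (nat_lit 10) (node (nat_lit 4)
  (nat_lit 94734) (nat_lit 11) (node (nat_lit 6) (nat_lit 95314) (nat_lit 12) (node (nat_lit 4)
  (nat_lit 95086) (nat_lit 13) (node (nat_lit 5) (nat_lit 94667) (nat_lit 14) nil nil) nil) nil)
  (node (nat_lit 6) (nat_lit 94805) (nat_lit 11) nil nil)) (node (nat_lit 7) (nat_lit 96490)
  (nat_lit 10) nil (node (nat_lit 0) (nat_lit 94802) (nat_lit 10) nil nil))) (node (nat_lit 5)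
  (nat_lit 92051) (nat_lit 9) (node (nat_lit 4) (nat_lit 92236) (nat_lit 10) (node (nat_lit 6)
  (nat_lit 91735) (nat_lit 11) nil nil) (node (nat_lit 6) (nat_lit 92920) (nat_lit 10) (node
  (nat_lit 5) (nat_lit 94025) (nat_lit 11) nil nil) (node (nat_lit 0) (nat_lit 94908) (nat_lit 10)
  nil (node (nat_lit 7) (nat_lit 94908) (nat_lit 10) nil nil)))) (node (nat_lit 0) (nat_lit 95637)
  (nat_lit 9) nil nil))) (node (nat_lit 5) (nat_lit 90799) (nat_lit 8) (node (nat_lit 4) (nat_lit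
  90799) (nat_lit 9) nil (node (nat_lit 6) (nat_lit 90799) (nat_lit 9) nil (node (nat_lit 7)
  (nat_lit 93274) (nat_lit 9) nil nil))) (node (nat_lit 7) (nat_lit 95729) (nat_lit 8) nil (node
  (nat_lit 0) (nat_lit 94525) (nat_lit 8) nil nil)))) (node (nat_lit 5) (nat_lit 90725) (nat_lit
  7) (node (nat_lit 4) (nat_lit 90574) (nat_lit 8) (node (nat_lit 5) (nat_lit 91215) (nat_lit 9)
  (node (nat_lit 7) (nat_lit 96159) (nat_lit 10) nil (node (nat_lit 6) (nat_lit 91215) (nat_lit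
  10) nil (node (nat_lit 0) (nat_lit 94072) (nat_lit 10) nil nil))) (node (nat_lit 6) (nat_lit
  91505) (nat_lit 9) (node (nat_lit 4) (nat_lit 91505) (nat_lit 10) nil (node (nat_lit 5) (nat_lit
  91505) (nat_lit 10) nil nil)) (node (nat_lit 0) (nat_lit 93049) (nat_lit 9) nil nil))) (node
  (nat_lit 6) (nat_lit 90725) (nat_lit 8) nil (node (nat_lit 7) (nat_lit 92698) (nat_lit 8) nil
  nil))) (node (nat_lit 0) (nat_lit 92830) (nat_lit 7) nil nil))) (node (nat_lit 6) (nat_lit 0)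
  (nat_lit 6) (node (nat_lit 4) (nat_lit 76748) (nat_lit 7) (node (nat_lit 5) (nat_lit 84043)
  (nat_lit 8) (node (nat_lit 6) (nat_lit 89276) (nat_lit 9) (node (nat_lit 5) (nat_lit 90726)
  (nat_lit 10) (node (nat_lit 4) (nat_lit 85703) (nat_lit 11) (node (nat_lit 5) (nat_lit 77923)
  (nat_lit 12) (node (nat_lit 6) (nat_lit 78344) (nat_lit 13) nil nil) nil) nil) (node (nat_lit 7)
  (nat_lit 71189) (nat_lit 10) (node (nat_lit 4) (nat_lit 44309) (nat_lit 11) nil nil) (node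
  (nat_lit 4) (nat_lit 91629) (nat_lit 10) nil nil))) (node (nat_lit 4) (nat_lit 84813) (nat_lit
  9) nil (node (nat_lit 7) (nat_lit 92599) (nat_lit 9) nil (node (nat_lit 0) (nat_lit 92599)
  (nat_lit 9) nil nil)))) (node (nat_lit 7) (nat_lit 94074) (nat_lit 8) nil (node (nat_lit 0)
  (nat_lit 89630) (nat_lit 8) nil nil))) (node (nat_lit 5) (nat_lit 75768) (nat_lit 7) (node
  (nat_lit 6) (nat_lit 80786) (nat_lit 8) (node (nat_lit 4) (nat_lit 84466) (nat_lit 9) (node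
  (nat_lit 6) (nat_lit 84545) (nat_lit 10) nil nil) (node (nat_lit 7) (nat_lit 89342) (nat_lit 9)
  nil nil)) (node (nat_lit 4) (nat_lit 82332) (nat_lit 8) (node (nat_lit 6) (nat_lit 87743)
  (nat_lit 9) (node (nat_lit 4) (nat_lit 90096) (nat_lit 10) nil nil) (node (nat_lit 5) (nat_lit
  86060) (nat_lit 9) nil nil)) (node (nat_lit 7) (nat_lit 83823) (nat_lit 8) nil (node (nat_lit 0)
  (nat_lit 83823) (nat_lit 8) nil nil)))) (node (nat_lit 7) (nat_lit 93680) (nat_lit 7) (node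
  (nat_lit 6) (nat_lit 93680) (nat_lit 8) (node (nat_lit 4) (nat_lit 93680) (nat_lit 9) (node
  (nat_lit 6) (nat_lit 93680) (nat_lit 10) nil nil) nil) nil) (node (nat_lit 0) (nat_lit 87262)
  (nat_lit 7) nil nil)))) (node (nat_lit 5) (nat_lit 0) (nat_lit 6) (node (nat_lit 6) (nat_lit
  75530) (nat_lit 7) (node (nat_lit 4) (nat_lit 80184) (nat_lit 8) (node (nat_lit 5) (nat_lit
  83989) (nat_lit 9) (node (nat_lit 4) (nat_lit 83848) (nat_lit 10) nil nil) (node (nat_lit 6)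
  (nat_lit 80693) (nat_lit 9) nil nil)) (node (nat_lit 5) (nat_lit 80643) (nat_lit 8) (node
  (nat_lit 4) (nat_lit 85287) (nat_lit 9) (node (nat_lit 6) (nat_lit 85800) (nat_lit 10) (node
  (nat_lit 4) (nat_lit 82095) (nat_lit 11) (node (nat_lit 5) (nat_lit 81539) (nat_lit 12) (node
  (nat_lit 6) (nat_lit 80898) (nat_lit 13) nil nil) nil) nil) nil) nil) nil)) (node (nat_lit 4)
  (nat_lit 0) (nat_lit 7) (node (nat_lit 6) (nat_lit 83349) (nat_lit 8) (node (nat_lit 5) (nat_lit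
  89531) (nat_lit 9) (node (nat_lit 6) (nat_lit 91836) (nat_lit 10) (node (nat_lit 4) (nat_lit
  91341) (nat_lit 11) nil nil) nil) (node (nat_lit 4) (nat_lit 88183) (nat_lit 9) nil nil)) (node
  (nat_lit 7) (nat_lit 88774) (nat_lit 8) nil (node (nat_lit 0) (nat_lit 83946) (nat_lit 8) nil
  nil))) (node (nat_lit 7) (nat_lit 93389) (nat_lit 7) (node (nat_lit 5) (nat_lit 93389) (nat_lit
  8) nil nil) (node (nat_lit 0) (nat_lit 90132) (nat_lit 7) nil nil)))) (node (nat_lit 0) (nat_lit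
  87438) (nat_lit 6) nil nil)))) (node (nat_lit 5) (nat_lit 0) (nat_lit 5) (node (nat_lit 7)
  (nat_lit 0) (nat_lit 6) (node (nat_lit 6) (nat_lit 89978) (nat_lit 7) (node (nat_lit 5) (nat_lit
  90998) (nat_lit 8) (node (nat_lit 6) (nat_lit 91654) (nat_lit 9) (node (nat_lit 4) (nat_lit
  91376) (nat_lit 10) (node (nat_lit 5) (nat_lit 92074) (nat_lit 11) (node (nat_lit 6) (nat_lit
  91727) (nat_lit 12) (node (nat_lit 5) (nat_lit 91586) (nat_lit 13) nil nil) (node (nat_lit 4)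
  (nat_lit 91670) (nat_lit 12) nil nil)) (node (nat_lit 6) (nat_lit 90876) (nat_lit 11) nil nil))
  (node (nat_lit 7) (nat_lit 96490) (nat_lit 10) nil (node (nat_lit 0) (nat_lit 94511) (nat_lit
  10) nil nil))) (node (nat_lit 4) (nat_lit 92264) (nat_lit 9) (node (nat_lit 5) (nat_lit 93132)
  (nat_lit 10) (node (nat_lit 6) (nat_lit 92631) (nat_lit 11) nil nil) (node (nat_lit 6) (nat_lit
  91860) (nat_lit 10) (node (nat_lit 4) (nat_lit 92966) (nat_lit 11) nil nil) (node (nat_lit 0)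
  (nat_lit 95120) (nat_lit 10) nil (node (nat_lit 7) (nat_lit 95120) (nat_lit 10) nil nil))))
  (node (nat_lit 0) (nat_lit 95224) (nat_lit 9) nil nil))) (node (nat_lit 4) (nat_lit 89592)
  (nat_lit 8) (node (nat_lit 5) (nat_lit 89592) (nat_lit 9) nil (node (nat_lit 6) (nat_lit 89592)
  (nat_lit 9) nil (node (nat_lit 7) (nat_lit 92067) (nat_lit 9) nil nil))) (node (nat_lit 7)
  (nat_lit 95245) (nat_lit 8) nil (node (nat_lit 0) (nat_lit 94041) (nat_lit 8) nil nil)))) (node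
  (nat_lit 4) (nat_lit 90066) (nat_lit 7) (node (nat_lit 5) (nat_lit 89628) (nat_lit 8) (node
  (nat_lit 4) (nat_lit 90895) (nat_lit 9) (node (nat_lit 6) (nat_lit 90491) (nat_lit 10) (node
  (nat_lit 5) (nat_lit 89886) (nat_lit 11) nil nil) (node (nat_lit 7) (nat_lit 95838) (nat_lit 10)
  nil (node (nat_lit 0) (nat_lit 93752) (nat_lit 10) nil nil))) (node (nat_lit 6) (nat_lit 89580)
  (nat_lit 9) (node (nat_lit 5) (nat_lit 89580) (nat_lit 10) nil (node (nat_lit 4) (nat_lit 89580)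
  (nat_lit 10) nil nil)) (node (nat_lit 0) (nat_lit 92103) (nat_lit 9) nil nil))) (node (nat_lit
  6) (nat_lit 90066) (nat_lit 8) nil (node (nat_lit 7) (nat_lit 92040) (nat_lit 8) nil nil)))
  (node (nat_lit 0) (nat_lit 92171) (nat_lit 7) nil nil))) (node (nat_lit 6) (nat_lit 0) (nat_lit
  6) (node (nat_lit 5) (nat_lit 76978) (nat_lit 7) (node (nat_lit 4) (nat_lit 83323) (nat_lit 8)
  (node (nat_lit 6) (nat_lit 89196) (nat_lit 9) (node (nat_lit 4) (nat_lit 91549) (nat_lit 10) nil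
  (node (nat_lit 5) (nat_lit 89055) (nat_lit 10) nil nil)) (node (nat_lit 5) (nat_lit 88157)
  (nat_lit 9) nil (node (nat_lit 7) (nat_lit 91879) (nat_lit 9) nil (node (nat_lit 0) (nat_lit
  91879) (nat_lit 9) nil nil)))) (node (nat_lit 7) (nat_lit 94570) (nat_lit 8) nil (node (nat_lit
  0) (nat_lit 89861) (nat_lit 8) nil nil))) (node (nat_lit 4) (nat_lit 76029) (nat_lit 7) (node
  (nat_lit 5) (nat_lit 80674) (nat_lit 8) (node (nat_lit 6) (nat_lit 86495) (nat_lit 9) (node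
  (nat_lit 5) (nat_lit 87597) (nat_lit 10) (node (nat_lit 4) (nat_lit 84617) (nat_lit 11) (node
  (nat_lit 5) (nat_lit 81269) (nat_lit 12) (node (nat_lit 6) (nat_lit 75614) (nat_lit 13) nil nil)
  nil) nil) (node (nat_lit 7) (nat_lit 66403) (nat_lit 10) nil nil)) (node (nat_lit 4) (nat_lit
  80907) (nat_lit 9) nil nil)) (node (nat_lit 6) (nat_lit 81971) (nat_lit 8) (node (nat_lit 5)
  (nat_lit 84680) (nat_lit 9) (node (nat_lit 6) (nat_lit 86769) (nat_lit 10) nil nil) (node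
  (nat_lit 7) (nat_lit 90527) (nat_lit 9) nil nil)) (node (nat_lit 7) (nat_lit 88912) (nat_lit 8)
  nil (node (nat_lit 0) (nat_lit 84084) (nat_lit 8) nil nil)))) (node (nat_lit 0) (nat_lit 86636)
  (nat_lit 7) nil nil))) (node (nat_lit 4) (nat_lit 0) (nat_lit 6) (node (nat_lit 6) (nat_lit
  76076) (nat_lit 7) (node (nat_lit 5) (nat_lit 83156) (nat_lit 8) (node (nat_lit 4) (nat_lit
  87990) (nat_lit 9) (node (nat_lit 5) (nat_lit 90343) (nat_lit 10) nil nil) (node (nat_lit 6)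
  (nat_lit 86884) (nat_lit 9) nil nil)) (node (nat_lit 4) (nat_lit 80739) (nat_lit 8) (node
  (nat_lit 5) (nat_lit 84535) (nat_lit 9) (node (nat_lit 6) (nat_lit 85483) (nat_lit 10) (node
  (nat_lit 5) (nat_lit 85137) (nat_lit 11) nil nil) nil) nil) (node (nat_lit 7) (nat_lit 84131)
  (nat_lit 8) nil nil))) (node (nat_lit 5) (nat_lit 0) (nat_lit 7) (node (nat_lit 6) (nat_lit
  83395) (nat_lit 8) (node (nat_lit 4) (nat_lit 87319) (nat_lit 9) (node (nat_lit 6) (nat_lit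
  87398) (nat_lit 10) nil nil) (node (nat_lit 5) (nat_lit 86622) (nat_lit 9) nil (node (nat_lit 7)
  (nat_lit 47768) (nat_lit 9) nil nil))) (node (nat_lit 7) (nat_lit 84903) (nat_lit 8) nil (node
  (nat_lit 0) (nat_lit 84903) (nat_lit 8) nil nil))) (node (nat_lit 7) (nat_lit 93369) (nat_lit 7)
  (node (nat_lit 4) (nat_lit 93369) (nat_lit 8) nil nil) (node (nat_lit 0) (nat_lit 90111)
  (nat_lit 7) nil nil)))) (node (nat_lit 0) (nat_lit 88480) (nat_lit 6) nil nil)))) (node (nat_lit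
  6) (nat_lit 0) (nat_lit 5) (node (nat_lit 5) (nat_lit 0) (nat_lit 6) (node (nat_lit 4) (nat_lit
  75174) (nat_lit 7) (node (nat_lit 5) (nat_lit 81915) (nat_lit 8) (node (nat_lit 6) (nat_lit
  86748) (nat_lit 9) (node (nat_lit 4) (nat_lit 89101) (nat_lit 10) nil (node (nat_lit 5) (nat_lit
  89101) (nat_lit 10) (node (nat_lit 4) (nat_lit 88496) (nat_lit 11) nil nil) (node (nat_lit 7)
  (nat_lit 47600) (nat_lit 10) nil nil))) nil) (node (nat_lit 6) (nat_lit 81523) (nat_lit 8) (node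
  (nat_lit 4) (nat_lit 86357) (nat_lit 9) nil (node (nat_lit 5) (nat_lit 81756) (nat_lit 9) nil
  nil)) (node (nat_lit 7) (nat_lit 83228) (nat_lit 8) nil (node (nat_lit 0) (nat_lit 83228)
  (nat_lit 8) nil nil)))) (node (nat_lit 6) (nat_lit 75153) (nat_lit 7) (node (nat_lit 4) (nat_lit
  77718) (nat_lit 8) (node (nat_lit 5) (nat_lit 80203) (nat_lit 9) (node (nat_lit 4) (nat_lit
  80062) (nat_lit 10) nil (node (nat_lit 6) (nat_lit 81325) (nat_lit 10) (node (nat_lit 7)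
  (nat_lit 58401) (nat_lit 11) nil nil) nil)) (node (nat_lit 6) (nat_lit 79809) (nat_lit 9) (node
  (nat_lit 5) (nat_lit 78829) (nat_lit 10) nil nil) nil)) (node (nat_lit 7) (nat_lit 94985)
  (nat_lit 8) (node (nat_lit 5) (nat_lit 94985) (nat_lit 9) nil nil) (node (nat_lit 0) (nat_lit
  83208) (nat_lit 8) nil nil))) (node (nat_lit 7) (nat_lit 90977) (nat_lit 7) nil (node (nat_lit
  0) (nat_lit 89038) (nat_lit 7) nil nil)))) (node (nat_lit 4) (nat_lit 0) (nat_lit 6) (node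
  (nat_lit 5) (nat_lit 77034) (nat_lit 7) (node (nat_lit 4) (nat_lit 80767) (nat_lit 8) (node
  (nat_lit 6) (nat_lit 81276) (nat_lit 9) nil nil) (node (nat_lit 6) (nat_lit 81039) (nat_lit 8)
  (node (nat_lit 5) (nat_lit 84767) (nat_lit 9) nil (node (nat_lit 4) (nat_lit 84767) (nat_lit 9)
  nil (node (nat_lit 7) (nat_lit 43255) (nat_lit 9) nil nil))) (node (nat_lit 0) (nat_lit 85088)
  (nat_lit 8) nil (node (nat_lit 7) (nat_lit 85088) (nat_lit 8) nil nil)))) (node (nat_lit 6)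
  (nat_lit 76481) (nat_lit 7) (node (nat_lit 5) (nat_lit 83188) (nat_lit 8) (node (nat_lit 4)
  (nat_lit 85258) (nat_lit 9) (node (nat_lit 5) (nat_lit 87611) (nat_lit 10) nil nil) (node
  (nat_lit 6) (nat_lit 88021) (nat_lit 9) (node (nat_lit 4) (nat_lit 90374) (nat_lit 10) nil nil)
  nil)) (node (nat_lit 7) (nat_lit 91857) (nat_lit 8) nil nil)) (node (nat_lit 7) (nat_lit 91057)
  (nat_lit 7) nil (node (nat_lit 0) (nat_lit 86097) (nat_lit 7) nil nil)))) (node (nat_lit 0)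
  (nat_lit 88251) (nat_lit 6) (node (nat_lit 6) (nat_lit 88251) (nat_lit 7) nil (node (nat_lit 7)
  (nat_lit 89356) (nat_lit 7) nil nil)) nil))) (node (nat_lit 0) (nat_lit 0) (nat_lit 5) (node
  (nat_lit 7) (nat_lit 0) (nat_lit 6) (node (nat_lit 6) (nat_lit 89560) (nat_lit 7) (node (nat_lit
  8) (nat_lit 94827) (nat_lit 8) (node (nat_lit 7) (nat_lit 95710) (nat_lit 9) nil (node (nat_lit
  6) (nat_lit 94827) (nat_lit 9) nil nil)) (node (nat_lit 7) (nat_lit 92903) (nat_lit 8) nil nil))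
  (node (nat_lit 4) (nat_lit 89860) (nat_lit 7) (node (nat_lit 8) (nat_lit 93204) (nat_lit 8) nil
  (node (nat_lit 7) (nat_lit 91833) (nat_lit 8) nil nil)) (node (nat_lit 5) (nat_lit 89860)
  (nat_lit 7) (node (nat_lit 8) (nat_lit 93204) (nat_lit 8) nil (node (nat_lit 7) (nat_lit 91833)
  (nat_lit 8) nil nil)) (node (nat_lit 0) (nat_lit 93146) (nat_lit 7) (node (nat_lit 8) (nat_lit
  94014) (nat_lit 8) nil nil) nil)))) (node (nat_lit 6) (nat_lit 0) (nat_lit 6) (node (nat_lit 8)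
  (nat_lit 93109) (nat_lit 7) (node (nat_lit 7) (nat_lit 94912) (nat_lit 8) (node (nat_lit 8)
  (nat_lit 95414) (nat_lit 9) nil nil) nil) (node (nat_lit 5) (nat_lit 79574) (nat_lit 7) nil
  (node (nat_lit 4) (nat_lit 79574) (nat_lit 7) nil (node (nat_lit 7) (nat_lit 88492) (nat_lit 7)
  nil (node (nat_lit 0) (nat_lit 91001) (nat_lit 7) nil nil))))) (node (nat_lit 5) (nat_lit 0)
  (nat_lit 6) (node (nat_lit 6) (nat_lit 81348) (nat_lit 7) nil (node (nat_lit 8) (nat_lit 90267)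
  (nat_lit 7) nil (node (nat_lit 7) (nat_lit 87812) (nat_lit 7) nil (node (nat_lit 4) (nat_lit
  81348) (nat_lit 7) nil (node (nat_lit 0) (nat_lit 84806) (nat_lit 7) nil nil))))) (node (nat_lit
  4) (nat_lit 0) (nat_lit 6) (node (nat_lit 6) (nat_lit 79821) (nat_lit 7) nil (node (nat_lit 8)
  (nat_lit 88738) (nat_lit 7) nil (node (nat_lit 7) (nat_lit 86284) (nat_lit 7) nil (node (nat_lit
  5) (nat_lit 79821) (nat_lit 7) nil (node (nat_lit 0) (nat_lit 83279) (nat_lit 7) nil nil)))))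
  (node (nat_lit 0) (nat_lit 88312) (nat_lit 6) (node (nat_lit 8) (nat_lit 89417) (nat_lit 7) nil
  nil) nil))))) nil)))) t420) (node (nat_lit 4) (nat_lit 0) (nat_lit 3) t421 (node (nat_lit 0)
  (nat_lit 0) (nat_lit 3) (node (nat_lit 3) (nat_lit 0) (nat_lit 4) (node (nat_lit 4) (nat_lit 0)
  (nat_lit 5) (node (nat_lit 5) (nat_lit 0) (nat_lit 6) (node (nat_lit 4) (nat_lit 98274) (nat_lit
  7) (node (nat_lit 7) (nat_lit 106775) (nat_lit 8) (node (nat_lit 5) (nat_lit 105385) (nat_lit 9)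
  nil (node (nat_lit 4) (nat_lit 109891) (nat_lit 9) nil nil)) (node (nat_lit 6) (nat_lit 108630)
  (nat_lit 8) nil (node (nat_lit 0) (nat_lit 108630) (nat_lit 8) nil nil))) (node (nat_lit 7)
  (nat_lit 97942) (nat_lit 7) (node (nat_lit 5) (nat_lit 105243) (nat_lit 8) (node (nat_lit 4)
  (nat_lit 106386) (nat_lit 9) nil nil) (node (nat_lit 4) (nat_lit 103900) (nat_lit 8) (node
  (nat_lit 7) (nat_lit 103798) (nat_lit 9) nil nil) nil)) (node (nat_lit 6) (nat_lit 41588)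
  (nat_lit 7) (node (nat_lit 5) (nat_lit 41588) (nat_lit 8) nil nil) (node (nat_lit 0) (nat_lit
  109246) (nat_lit 7) nil nil)))) (node (nat_lit 7) (nat_lit 86552) (nat_lit 6) (node (nat_lit 5)
  (nat_lit 95714) (nat_lit 7) (node (nat_lit 4) (nat_lit 98022) (nat_lit 8) nil (node (nat_lit 7)
  (nat_lit 102277) (nat_lit 8) nil nil)) (node (nat_lit 6) (nat_lit 109355) (nat_lit 7) nil nil))
  (node (nat_lit 6) (nat_lit 110814) (nat_lit 6) (node (nat_lit 7) (nat_lit 110814) (nat_lit 7)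
  nil nil) (node (nat_lit 0) (nat_lit 91393) (nat_lit 6) nil nil)))) (node (nat_lit 5) (nat_lit 0)
  (nat_lit 5) (node (nat_lit 4) (nat_lit 0) (nat_lit 6) (node (nat_lit 5) (nat_lit 97711) (nat_lit
  7) (node (nat_lit 7) (nat_lit 106358) (nat_lit 8) (node (nat_lit 4) (nat_lit 109474) (nat_lit 9)
  nil (node (nat_lit 5) (nat_lit 109715) (nat_lit 9) nil nil)) (node (nat_lit 6) (nat_lit 67011)
  (nat_lit 8) (node (nat_lit 7) (nat_lit 67011) (nat_lit 9) nil nil) (node (nat_lit 0) (nat_lit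
  108600) (nat_lit 8) nil nil))) (node (nat_lit 7) (nat_lit 97694) (nat_lit 7) (node (nat_lit 4)
  (nat_lit 106378) (nat_lit 8) (node (nat_lit 5) (nat_lit 109434) (nat_lit 9) nil nil) (node
  (nat_lit 5) (nat_lit 101549) (nat_lit 8) nil (node (nat_lit 6) (nat_lit 108320) (nat_lit 8) nil
  nil))) (node (nat_lit 6) (nat_lit 110173) (nat_lit 7) nil (node (nat_lit 0) (nat_lit 110173)
  (nat_lit 7) nil nil)))) (node (nat_lit 7) (nat_lit 0) (nat_lit 6) (node (nat_lit 4) (nat_lit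
  93754) (nat_lit 7) (node (nat_lit 5) (nat_lit 96917) (nat_lit 8) nil (node (nat_lit 7) (nat_lit
  94057) (nat_lit 8) (node (nat_lit 5) (nat_lit 85573) (nat_lit 9) nil nil) nil)) (node (nat_lit
  6) (nat_lit 108987) (nat_lit 7) nil (node (nat_lit 0) (nat_lit 96483) (nat_lit 7) nil nil)))
  (node (nat_lit 6) (nat_lit 104543) (nat_lit 6) nil (node (nat_lit 0) (nat_lit 91893) (nat_lit 6)
  nil nil)))) (node (nat_lit 6) (nat_lit 105992) (nat_lit 5) (node (nat_lit 5) (nat_lit 105207)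
  (nat_lit 6) (node (nat_lit 7) (nat_lit 105207) (nat_lit 7) (node (nat_lit 5) (nat_lit 105207)
  (nat_lit 8) nil nil) (node (nat_lit 4) (nat_lit 105207) (nat_lit 7) (node (nat_lit 7) (nat_lit
  105207) (nat_lit 8) nil nil) nil)) (node (nat_lit 4) (nat_lit 105992) (nat_lit 6) (node (nat_lit
  5) (nat_lit 105992) (nat_lit 7) (node (nat_lit 7) (nat_lit 105992) (nat_lit 8) nil nil) (node
  (nat_lit 7) (nat_lit 105992) (nat_lit 7) nil nil)) nil)) (node (nat_lit 0) (nat_lit 102520)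
  (nat_lit 5) nil nil)))) (node (nat_lit 4) (nat_lit 0) (nat_lit 4) (node (nat_lit 3) (nat_lit 0)
  (nat_lit 5) (node (nat_lit 5) (nat_lit 0) (nat_lit 6) (node (nat_lit 8) (nat_lit 96354) (nat_lit
  7) (node (nat_lit 4) (nat_lit 104000) (nat_lit 8) (node (nat_lit 5) (nat_lit 105963) (nat_lit 9)
  nil (node (nat_lit 8) (nat_lit 103898) (nat_lit 9) nil nil)) (node (nat_lit 6) (nat_lit 110814)
  (nat_lit 8) nil (node (nat_lit 0) (nat_lit 107657) (nat_lit 8) nil nil))) (node (nat_lit 4)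
  (nat_lit 96404) (nat_lit 7) (node (nat_lit 5) (nat_lit 101682) (nat_lit 8) (node (nat_lit 8)
  (nat_lit 98447) (nat_lit 9) (node (nat_lit 4) (nat_lit 88712) (nat_lit 10) nil nil) (node
  (nat_lit 6) (nat_lit 80705) (nat_lit 9) nil nil)) (node (nat_lit 8) (nat_lit 104220) (nat_lit 8)
  (node (nat_lit 4) (nat_lit 107337) (nat_lit 9) nil nil) nil)) (node (nat_lit 6) (nat_lit 110814)
  (nat_lit 7) (node (nat_lit 4) (nat_lit 110814) (nat_lit 8) nil nil) (node (nat_lit 0) (nat_lit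
  109072) (nat_lit 7) nil nil)))) (node (nat_lit 4) (nat_lit 86235) (nat_lit 6) (node (nat_lit 5)
  (nat_lit 94208) (nat_lit 7) (node (nat_lit 8) (nat_lit 100071) (nat_lit 8) nil (node (nat_lit 6)
  (nat_lit 79426) (nat_lit 8) (node (nat_lit 4) (nat_lit 40781) (nat_lit 9) nil nil) (node
  (nat_lit 4) (nat_lit 94424) (nat_lit 8) (node (nat_lit 8) (nat_lit 86151) (nat_lit 9) nil nil)
  nil))) (node (nat_lit 6) (nat_lit 109227) (nat_lit 7) nil nil)) (node (nat_lit 6) (nat_lit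
  110814) (nat_lit 6) (node (nat_lit 4) (nat_lit 110814) (nat_lit 7) nil nil) (node (nat_lit 0)
  (nat_lit 91661) (nat_lit 6) nil nil)))) (node (nat_lit 5) (nat_lit 0) (nat_lit 5) (node (nat_lit
  3) (nat_lit 0) (nat_lit 6) (node (nat_lit 5) (nat_lit 96139) (nat_lit 7) (node (nat_lit 4)
  (nat_lit 102965) (nat_lit 8) (node (nat_lit 9) (nat_lit 98724) (nat_lit 9) (node (nat_lit 4)
  (nat_lit 96563) (nat_lit 10) nil nil) (node (nat_lit 5) (nat_lit 103530) (nat_lit 9) nil nil))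
  (node (nat_lit 6) (nat_lit 108098) (nat_lit 8) nil (node (nat_lit 0) (nat_lit 108098) (nat_lit
  8) nil nil))) (node (nat_lit 4) (nat_lit 96874) (nat_lit 7) (node (nat_lit 9) (nat_lit 104048)
  (nat_lit 8) (node (nat_lit 5) (nat_lit 102423) (nat_lit 9) (node (nat_lit 4) (nat_lit 97298)
  (nat_lit 10) nil nil) nil) (node (nat_lit 5) (nat_lit 103085) (nat_lit 8) (node (nat_lit 4)
  (nat_lit 102545) (nat_lit 9) nil nil) (node (nat_lit 6) (nat_lit 108761) (nat_lit 8) nil nil)))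
  (node (nat_lit 6) (nat_lit 109603) (nat_lit 7) nil (node (nat_lit 0) (nat_lit 109603) (nat_lit
  7) nil nil)))) (node (nat_lit 4) (nat_lit 0) (nat_lit 6) (node (nat_lit 3) (nat_lit 95023)
  (nat_lit 7) (node (nat_lit 5) (nat_lit 100536) (nat_lit 8) nil (node (nat_lit 4) (nat_lit
  101386) (nat_lit 8) nil nil)) (node (nat_lit 6) (nat_lit 109645) (nat_lit 7) (node (nat_lit 4)
  (nat_lit 109645) (nat_lit 8) nil nil) (node (nat_lit 0) (nat_lit 97295) (nat_lit 7) nil nil)))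
  (node (nat_lit 0) (nat_lit 91689) (nat_lit 6) nil nil))) (node (nat_lit 6) (nat_lit 0) (nat_lit
  5) (node (nat_lit 5) (nat_lit 105316) (nat_lit 6) (node (nat_lit 4) (nat_lit 105316) (nat_lit 7)
  (node (nat_lit 5) (nat_lit 105316) (nat_lit 8) nil nil) (node (nat_lit 3) (nat_lit 106239)
  (nat_lit 7) (node (nat_lit 4) (nat_lit 106239) (nat_lit 8) nil nil) nil)) (node (nat_lit 3)
  (nat_lit 106064) (nat_lit 6) (node (nat_lit 5) (nat_lit 106064) (nat_lit 7) (node (nat_lit 4)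
  (nat_lit 106064) (nat_lit 8) nil nil) (node (nat_lit 4) (nat_lit 106064) (nat_lit 7) nil nil))
  (node (nat_lit 0) (nat_lit 108170) (nat_lit 6) nil nil))) (node (nat_lit 0) (nat_lit 103587)
  (nat_lit 5) nil nil)))) (node (nat_lit 5) (nat_lit 0) (nat_lit 4) (node (nat_lit 4) (nat_lit 0)
  (nat_lit 5) (node (nat_lit 3) (nat_lit 0) (nat_lit 6) (node (nat_lit 4) (nat_lit 97101) (nat_lit
  7) (node (nat_lit 5) (nat_lit 103916) (nat_lit 8) (node (nat_lit 6) (nat_lit 90109) (nat_lit 9)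
  (node (nat_lit 5) (nat_lit 63945) (nat_lit 10) (node (nat_lit 4) (nat_lit 41588) (nat_lit 11)
  nil nil) nil) (node (nat_lit 4) (nat_lit 103376) (nat_lit 9) nil (node (nat_lit 9) (nat_lit
  107804) (nat_lit 9) nil nil))) (node (nat_lit 6) (nat_lit 108639) (nat_lit 8) nil (node (nat_lit
  0) (nat_lit 108639) (nat_lit 8) nil nil))) (node (nat_lit 5) (nat_lit 98013) (nat_lit 7) (node
  (nat_lit 9) (nat_lit 106085) (nat_lit 8) (node (nat_lit 4) (nat_lit 109269) (nat_lit 9) nil nil)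
  (node (nat_lit 6) (nat_lit 108629) (nat_lit 8) nil (node (nat_lit 4) (nat_lit 101883) (nat_lit
  8) (node (nat_lit 5) (nat_lit 101343) (nat_lit 9) nil nil) nil))) (node (nat_lit 6) (nat_lit
  109701) (nat_lit 7) nil (node (nat_lit 0) (nat_lit 109701) (nat_lit 7) nil nil)))) (node
  (nat_lit 5) (nat_lit 86437) (nat_lit 6) (node (nat_lit 3) (nat_lit 94680) (nat_lit 7) (node
  (nat_lit 4) (nat_lit 99916) (nat_lit 8) nil (node (nat_lit 5) (nat_lit 98770) (nat_lit 8) nil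
  nil)) (node (nat_lit 6) (nat_lit 68059) (nat_lit 7) nil nil)) (node (nat_lit 6) (nat_lit 108711)
  (nat_lit 6) (node (nat_lit 5) (nat_lit 108711) (nat_lit 7) nil nil) (node (nat_lit 0) (nat_lit
  92310) (nat_lit 6) nil nil)))) (node (nat_lit 3) (nat_lit 0) (nat_lit 5) (node (nat_lit 4)
  (nat_lit 0) (nat_lit 6) (node (nat_lit 8) (nat_lit 97180) (nat_lit 7) (node (nat_lit 5) (nat_lit
  103878) (nat_lit 8) (node (nat_lit 8) (nat_lit 107666) (nat_lit 9) nil (node (nat_lit 4)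
  (nat_lit 105773) (nat_lit 9) nil nil)) (node (nat_lit 6) (nat_lit 107572) (nat_lit 8) nil (node
  (nat_lit 0) (nat_lit 107572) (nat_lit 8) nil nil))) (node (nat_lit 5) (nat_lit 97751) (nat_lit
  7) (node (nat_lit 4) (nat_lit 103092) (nat_lit 8) (node (nat_lit 8) (nat_lit 98410) (nat_lit 9)
  (node (nat_lit 5) (nat_lit 92900) (nat_lit 10) nil nil) nil) (node (nat_lit 6) (nat_lit 64195)
  (nat_lit 8) (node (nat_lit 5) (nat_lit 41588) (nat_lit 9) nil nil) (node (nat_lit 8) (nat_lit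
  102651) (nat_lit 8) (node (nat_lit 5) (nat_lit 98310) (nat_lit 9) nil nil) nil))) (node (nat_lit
  6) (nat_lit 108942) (nat_lit 7) nil (node (nat_lit 0) (nat_lit 106262) (nat_lit 7) nil nil))))
  (node (nat_lit 5) (nat_lit 87092) (nat_lit 6) (node (nat_lit 4) (nat_lit 96964) (nat_lit 7)
  (node (nat_lit 8) (nat_lit 102085) (nat_lit 8) nil (node (nat_lit 5) (nat_lit 98307) (nat_lit 8)
  nil nil)) (node (nat_lit 6) (nat_lit 105634) (nat_lit 7) nil nil)) (node (nat_lit 6) (nat_lit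
  110606) (nat_lit 6) (node (nat_lit 5) (nat_lit 110606) (nat_lit 7) nil nil) (node (nat_lit 0)
  (nat_lit 92781) (nat_lit 6) nil nil)))) (node (nat_lit 0) (nat_lit 91076) (nat_lit 5) nil nil)))
  (node (nat_lit 0) (nat_lit 0) (nat_lit 4) (node (nat_lit 3) (nat_lit 91019) (nat_lit 5) (node
  (nat_lit 5) (nat_lit 91019) (nat_lit 6) nil (node (nat_lit 4) (nat_lit 91019) (nat_lit 6) nil
  (node (nat_lit 6) (nat_lit 96155) (nat_lit 6) nil (node (nat_lit 0) (nat_lit 96155) (nat_lit 6)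
  nil nil)))) (node (nat_lit 0) (nat_lit 101000) (nat_lit 5) (node (nat_lit 6) (nat_lit 103020)
  (nat_lit 6) nil nil) (node (nat_lit 4) (nat_lit 89089) (nat_lit 5) (node (nat_lit 5) (nat_lit
  89089) (nat_lit 6) nil (node (nat_lit 3) (nat_lit 89089) (nat_lit 6) nil (node (nat_lit 6)
  (nat_lit 94226) (nat_lit 6) nil (node (nat_lit 0) (nat_lit 94226) (nat_lit 6) nil nil)))) (node
  (nat_lit 5) (nat_lit 89411) (nat_lit 5) (node (nat_lit 4) (nat_lit 89411) (nat_lit 6) nil (node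
  (nat_lit 3) (nat_lit 89411) (nat_lit 6) nil nil)) (node (nat_lit 6) (nat_lit 101000) (nat_lit 5)
  nil nil))))) nil)))) nil)))

noncomputable def c27 : Tr :=
  (node (nat_lit 3) (nat_lit 0) (nat_lit 1) (node (nat_lit 3) (nat_lit 0) (nat_lit 2) t422 nil)
  nil)

noncomputable def t423 : Tr :=
  (node (nat_lit 4) (nat_lit 0) (nat_lit 7) (node (nat_lit 0) (nat_lit 0) (nat_lit 8) (node
  (nat_lit 6) (nat_lit 0) (nat_lit 9) (node (nat_lit 11) (nat_lit 88630) (nat_lit 10) (node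
  (nat_lit 4) (nat_lit 90403) (nat_lit 11) (node (nat_lit 6) (nat_lit 92413) (nat_lit 12) (node
  (nat_lit 4) (nat_lit 88807) (nat_lit 13) (node (nat_lit 5) (nat_lit 88596) (nat_lit 14) (node
  (nat_lit 6) (nat_lit 85792) (nat_lit 15) (node (nat_lit 4) (nat_lit 82162) (nat_lit 16) (node
  (nat_lit 6) (nat_lit 76161) (nat_lit 17) (node (nat_lit 5) (nat_lit 70088) (nat_lit 18) nil nil)
  nil) nil) nil) nil) nil) nil) (node (nat_lit 5) (nat_lit 91699) (nat_lit 11) (node (nat_lit 6)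
  (nat_lit 90839) (nat_lit 12) nil nil) nil)) (node (nat_lit 5) (nat_lit 89509) (nat_lit 10) (node
  (nat_lit 4) (nat_lit 89183) (nat_lit 11) (node (nat_lit 5) (nat_lit 79494) (nat_lit 12) (node
  (nat_lit 6) (nat_lit 71508) (nat_lit 13) (node (nat_lit 4) (nat_lit 64319) (nat_lit 14) (node
  (nat_lit 6) (nat_lit 36905) (nat_lit 15) (node (nat_lit 5) (nat_lit 26720) (nat_lit 16) (node
  (nat_lit 4) (nat_lit 22590) (nat_lit 17) nil nil) nil) nil) nil) nil) (node (nat_lit 6) (nat_lit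
  89988) (nat_lit 12) nil nil)) (node (nat_lit 6) (nat_lit 92262) (nat_lit 11) (node (nat_lit 4)
  (nat_lit 93760) (nat_lit 12) nil nil) nil)) (node (nat_lit 4) (nat_lit 88186) (nat_lit 10) (node
  (nat_lit 6) (nat_lit 92397) (nat_lit 11) (node (nat_lit 5) (nat_lit 91878) (nat_lit 12) (node
  (nat_lit 4) (nat_lit 87029) (nat_lit 13) nil nil) nil) (node (nat_lit 5) (nat_lit 89838)
  (nat_lit 11) nil (node (nat_lit 11) (nat_lit 90941) (nat_lit 11) nil nil))) (node (nat_lit 0)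
  (nat_lit 85383) (nat_lit 10) nil nil)))) (node (nat_lit 5) (nat_lit 0) (nat_lit 9) (node
  (nat_lit 11) (nat_lit 89993) (nat_lit 10) (node (nat_lit 4) (nat_lit 92627) (nat_lit 11) (node
  (nat_lit 5) (nat_lit 94985) (nat_lit 12) (node (nat_lit 4) (nat_lit 94286) (nat_lit 13) nil nil)
  nil) (node (nat_lit 6) (nat_lit 90585) (nat_lit 11) (node (nat_lit 5) (nat_lit 88310) (nat_lit
  12) nil nil) nil)) (node (nat_lit 6) (nat_lit 89896) (nat_lit 10) (node (nat_lit 4) (nat_lit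
  91547) (nat_lit 11) nil (node (nat_lit 5) (nat_lit 92530) (nat_lit 11) (node (nat_lit 4)
  (nat_lit 92422) (nat_lit 12) nil nil) nil)) (node (nat_lit 4) (nat_lit 89710) (nat_lit 10) (node
  (nat_lit 6) (nat_lit 92054) (nat_lit 11) (node (nat_lit 4) (nat_lit 93552) (nat_lit 12) nil nil)
  (node (nat_lit 5) (nat_lit 92831) (nat_lit 11) (node (nat_lit 6) (nat_lit 95190) (nat_lit 12)
  nil nil) nil)) (node (nat_lit 0) (nat_lit 87109) (nat_lit 10) nil nil)))) (node (nat_lit 4)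
  (nat_lit 0) (nat_lit 9) (node (nat_lit 5) (nat_lit 89832) (nat_lit 10) (node (nat_lit 4)
  (nat_lit 91346) (nat_lit 11) nil (node (nat_lit 6) (nat_lit 91485) (nat_lit 11) nil nil)) (node
  (nat_lit 6) (nat_lit 88483) (nat_lit 10) (node (nat_lit 4) (nat_lit 89674) (nat_lit 11) (node
  (nat_lit 5) (nat_lit 89454) (nat_lit 12) (node (nat_lit 6) (nat_lit 71640) (nat_lit 13) nil nil)
  nil) (node (nat_lit 5) (nat_lit 92070) (nat_lit 11) nil nil)) (node (nat_lit 0) (nat_lit 85463)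
  (nat_lit 10) nil nil))) (node (nat_lit 0) (nat_lit 0) (nat_lit 9) (node (nat_lit 11) (nat_lit
  88581) (nat_lit 10) (node (nat_lit 4) (nat_lit 86236) (nat_lit 11) nil nil) (node (nat_lit 4)
  (nat_lit 87028) (nat_lit 10) (node (nat_lit 12) (nat_lit 88679) (nat_lit 11) nil nil) (node
  (nat_lit 5) (nat_lit 87887) (nat_lit 10) nil (node (nat_lit 6) (nat_lit 83990) (nat_lit 10) nil
  (node (nat_lit 0) (nat_lit 85793) (nat_lit 10) nil nil))))) nil)))) (node (nat_lit 6) (nat_lit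
  0) (nat_lit 8) (node (nat_lit 0) (nat_lit 0) (nat_lit 9) (node (nat_lit 6) (nat_lit 0) (nat_lit
  10) (node (nat_lit 5) (nat_lit 88614) (nat_lit 11) (node (nat_lit 4) (nat_lit 92323) (nat_lit
  12) (node (nat_lit 5) (nat_lit 88705) (nat_lit 13) (node (nat_lit 6) (nat_lit 79000) (nat_lit
  14) (node (nat_lit 4) (nat_lit 63067) (nat_lit 15) (node (nat_lit 6) (nat_lit 54722) (nat_lit
  16) (node (nat_lit 5) (nat_lit 44204) (nat_lit 17) (node (nat_lit 4) (nat_lit 26303) (nat_lit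
  18) (node (nat_lit 6) (nat_lit 26501) (nat_lit 19) nil nil) nil) nil) nil) nil) nil) (node
  (nat_lit 6) (nat_lit 91319) (nat_lit 13) nil nil)) (node (nat_lit 6) (nat_lit 92134) (nat_lit
  12) (node (nat_lit 12) (nat_lit 94209) (nat_lit 13) nil (node (nat_lit 4) (nat_lit 94209)
  (nat_lit 13) nil nil)) (node (nat_lit 12) (nat_lit 92134) (nat_lit 12) nil (node (nat_lit 0)
  (nat_lit 91272) (nat_lit 12) nil nil)))) (node (nat_lit 4) (nat_lit 87198) (nat_lit 11) (node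
  (nat_lit 12) (nat_lit 89171) (nat_lit 12) (node (nat_lit 6) (nat_lit 91732) (nat_lit 13) nil
  nil) (node (nat_lit 6) (nat_lit 88894) (nat_lit 12) (node (nat_lit 12) (nat_lit 90969) (nat_lit
  13) nil (node (nat_lit 5) (nat_lit 87889) (nat_lit 13) nil nil)) (node (nat_lit 5) (nat_lit
  90718) (nat_lit 12) (node (nat_lit 4) (nat_lit 90612) (nat_lit 13) nil (node (nat_lit 6)
  (nat_lit 90948) (nat_lit 13) nil nil)) (node (nat_lit 0) (nat_lit 89856) (nat_lit 12) nil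
  nil)))) (node (nat_lit 0) (nat_lit 86391) (nat_lit 11) (node (nat_lit 12) (nat_lit 89050)
  (nat_lit 12) nil (node (nat_lit 6) (nat_lit 86641) (nat_lit 12) nil nil)) nil))) (node (nat_lit
  4) (nat_lit 0) (nat_lit 10) (node (nat_lit 12) (nat_lit 86658) (nat_lit 11) (node (nat_lit 6)
  (nat_lit 88336) (nat_lit 12) (node (nat_lit 12) (nat_lit 90410) (nat_lit 13) (node (nat_lit 4)
  (nat_lit 90368) (nat_lit 14) nil nil) nil) nil) (node (nat_lit 6) (nat_lit 86911) (nat_lit 11)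
  (node (nat_lit 4) (nat_lit 89570) (nat_lit 12) nil nil) (node (nat_lit 5) (nat_lit 88328)
  (nat_lit 11) (node (nat_lit 6) (nat_lit 88577) (nat_lit 12) nil nil) (node (nat_lit 0) (nat_lit
  84723) (nat_lit 11) nil nil)))) (node (nat_lit 5) (nat_lit 83024) (nat_lit 10) (node (nat_lit 6)
  (nat_lit 88617) (nat_lit 11) (node (nat_lit 5) (nat_lit 87503) (nat_lit 12) nil nil) (node
  (nat_lit 12) (nat_lit 85510) (nat_lit 11) (node (nat_lit 6) (nat_lit 85759) (nat_lit 12) nil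
  nil) (node (nat_lit 4) (nat_lit 87344) (nat_lit 11) nil nil))) (node (nat_lit 0) (nat_lit 82257)
  (nat_lit 10) (node (nat_lit 6) (nat_lit 86616) (nat_lit 11) (node (nat_lit 12) (nat_lit 89274)
  (nat_lit 12) nil nil) (node (nat_lit 12) (nat_lit 85250) (nat_lit 11) nil nil)) nil)))) (node
  (nat_lit 4) (nat_lit 0) (nat_lit 9) (node (nat_lit 0) (nat_lit 81768) (nat_lit 10) (node
  (nat_lit 6) (nat_lit 87360) (nat_lit 11) (node (nat_lit 4) (nat_lit 89997) (nat_lit 12) (node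
  (nat_lit 6) (nat_lit 92559) (nat_lit 13) (node (nat_lit 5) (nat_lit 91330) (nat_lit 14) nil nil)
  (node (nat_lit 5) (nat_lit 92072) (nat_lit 13) nil nil)) (node (nat_lit 13) (nat_lit 90018)
  (nat_lit 12) nil nil)) (node (nat_lit 4) (nat_lit 87360) (nat_lit 11) (node (nat_lit 6) (nat_lit
  90131) (nat_lit 12) (node (nat_lit 13) (nat_lit 92206) (nat_lit 13) nil nil) nil) nil)) nil)
  nil)) (node (nat_lit 5) (nat_lit 0) (nat_lit 8) (node (nat_lit 0) (nat_lit 0) (nat_lit 9) (node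
  (nat_lit 5) (nat_lit 0) (nat_lit 10) (node (nat_lit 4) (nat_lit 79858) (nat_lit 11) (node
  (nat_lit 6) (nat_lit 82820) (nat_lit 12) (node (nat_lit 5) (nat_lit 82853) (nat_lit 13) nil
  (node (nat_lit 4) (nat_lit 84895) (nat_lit 13) nil nil)) (node (nat_lit 12) (nat_lit 82759)
  (nat_lit 12) (node (nat_lit 5) (nat_lit 85506) (nat_lit 13) (node (nat_lit 12) (nat_lit 87124)
  (nat_lit 14) nil nil) (node (nat_lit 4) (nat_lit 82653) (nat_lit 13) nil nil)) (node (nat_lit 5)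
  (nat_lit 82516) (nat_lit 12) nil (node (nat_lit 0) (nat_lit 82516) (nat_lit 12) nil nil))))
  (node (nat_lit 6) (nat_lit 77908) (nat_lit 11) (node (nat_lit 4) (nat_lit 80567) (nat_lit 12)
  (node (nat_lit 5) (nat_lit 82641) (nat_lit 13) nil (node (nat_lit 6) (nat_lit 80796) (nat_lit
  13) nil nil)) (node (nat_lit 5) (nat_lit 81427) (nat_lit 12) (node (nat_lit 12) (nat_lit 83502)
  (nat_lit 13) nil (node (nat_lit 4) (nat_lit 76500) (nat_lit 13) nil nil)) (node (nat_lit 12)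
  (nat_lit 80567) (nat_lit 12) nil (node (nat_lit 0) (nat_lit 80567) (nat_lit 12) nil nil))))
  (node (nat_lit 0) (nat_lit 79239) (nat_lit 11) (node (nat_lit 12) (nat_lit 82500) (nat_lit 12)
  (node (nat_lit 5) (nat_lit 84575) (nat_lit 13) nil nil) (node (nat_lit 5) (nat_lit 81897)
  (nat_lit 12) nil nil)) nil))) (node (nat_lit 4) (nat_lit 0) (nat_lit 10) (node (nat_lit 12)
  (nat_lit 78720) (nat_lit 11) (node (nat_lit 5) (nat_lit 83465) (nat_lit 12) (node (nat_lit 12)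
  (nat_lit 85540) (nat_lit 13) (node (nat_lit 4) (nat_lit 87158) (nat_lit 14) nil nil) nil) nil)
  (node (nat_lit 5) (nat_lit 79377) (nat_lit 11) (node (nat_lit 4) (nat_lit 79189) (nat_lit 12)
  (node (nat_lit 12) (nat_lit 81264) (nat_lit 13) nil nil) nil) (node (nat_lit 6) (nat_lit 78550)
  (nat_lit 11) (node (nat_lit 5) (nat_lit 77436) (nat_lit 12) nil nil) (node (nat_lit 0) (nat_lit
  77630) (nat_lit 11) nil nil)))) (node (nat_lit 6) (nat_lit 74059) (nat_lit 10) (node (nat_lit 5)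
  (nat_lit 79211) (nat_lit 11) (node (nat_lit 6) (nat_lit 81869) (nat_lit 12) nil nil) (node
  (nat_lit 12) (nat_lit 78373) (nat_lit 11) (node (nat_lit 5) (nat_lit 81031) (nat_lit 12) nil
  nil) (node (nat_lit 4) (nat_lit 77126) (nat_lit 11) nil nil))) (node (nat_lit 0) (nat_lit 74246)
  (nat_lit 10) (node (nat_lit 5) (nat_lit 77758) (nat_lit 11) (node (nat_lit 12) (nat_lit 80416)
  (nat_lit 12) nil nil) (node (nat_lit 12) (nat_lit 76731) (nat_lit 11) nil nil)) nil)))) (node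
  (nat_lit 6) (nat_lit 0) (nat_lit 9) (node (nat_lit 0) (nat_lit 0) (nat_lit 10) (node (nat_lit 5)
  (nat_lit 41297) (nat_lit 11) (node (nat_lit 6) (nat_lit 44816) (nat_lit 12) (node (nat_lit 5)
  (nat_lit 47561) (nat_lit 13) (node (nat_lit 4) (nat_lit 44175) (nat_lit 14) nil (node (nat_lit
  13) (nat_lit 49179) (nat_lit 14) nil nil)) (node (nat_lit 4) (nat_lit 46891) (nat_lit 13) (node
  (nat_lit 5) (nat_lit 48509) (nat_lit 14) nil nil) (node (nat_lit 0) (nat_lit 46891) (nat_lit 13)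
  nil nil))) nil) (node (nat_lit 4) (nat_lit 40601) (nat_lit 11) nil (node (nat_lit 6) (nat_lit
  40237) (nat_lit 11) nil (node (nat_lit 0) (nat_lit 38963) (nat_lit 11) nil nil)))) nil) nil))
  nil))) (node (nat_lit 6) (nat_lit 0) (nat_lit 7) (node (nat_lit 0) (nat_lit 0) (nat_lit 8) (node
  (nat_lit 4) (nat_lit 92386) (nat_lit 9) (node (nat_lit 11) (nat_lit 94892) (nat_lit 10) (node
  (nat_lit 6) (nat_lit 96787) (nat_lit 11) (node (nat_lit 4) (nat_lit 98109) (nat_lit 12) nil nil)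
  (node (nat_lit 5) (nat_lit 96543) (nat_lit 11) (node (nat_lit 4) (nat_lit 95573) (nat_lit 12)
  nil nil) nil)) (node (nat_lit 6) (nat_lit 95136) (nat_lit 10) (node (nat_lit 4) (nat_lit 95951)
  (nat_lit 11) (node (nat_lit 5) (nat_lit 95291) (nat_lit 12) (node (nat_lit 6) (nat_lit 88784)
  (nat_lit 13) nil nil) nil) (node (nat_lit 5) (nat_lit 96078) (nat_lit 11) nil nil)) (node
  (nat_lit 5) (nat_lit 96147) (nat_lit 10) (node (nat_lit 4) (nat_lit 97798) (nat_lit 11) (node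
  (nat_lit 6) (nat_lit 93166) (nat_lit 12) nil nil) (node (nat_lit 6) (nat_lit 94859) (nat_lit 11)
  nil nil)) nil))) (node (nat_lit 5) (nat_lit 95548) (nat_lit 9) (node (nat_lit 4) (nat_lit 97424)
  (nat_lit 10) (node (nat_lit 6) (nat_lit 96136) (nat_lit 11) (node (nat_lit 4) (nat_lit 90928)
  (nat_lit 12) (node (nat_lit 5) (nat_lit 90952) (nat_lit 13) nil nil) nil) (node (nat_lit 5)
  (nat_lit 98516) (nat_lit 11) nil nil)) (node (nat_lit 11) (nat_lit 96234) (nat_lit 10) (node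
  (nat_lit 6) (nat_lit 98516) (nat_lit 11) (node (nat_lit 5) (nat_lit 98428) (nat_lit 12) (node
  (nat_lit 4) (nat_lit 95063) (nat_lit 13) nil nil) nil) (node (nat_lit 4) (nat_lit 97885)
  (nat_lit 11) (node (nat_lit 5) (nat_lit 99328) (nat_lit 12) nil nil) nil)) (node (nat_lit 6)
  (nat_lit 97622) (nat_lit 10) (node (nat_lit 5) (nat_lit 98516) (nat_lit 11) (node (nat_lit 4)
  (nat_lit 96860) (nat_lit 12) nil nil) nil) nil))) (node (nat_lit 6) (nat_lit 0) (nat_lit 9)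
  (node (nat_lit 5) (nat_lit 96940) (nat_lit 10) (node (nat_lit 4) (nat_lit 94754) (nat_lit 11)
  (node (nat_lit 5) (nat_lit 86861) (nat_lit 12) (node (nat_lit 6) (nat_lit 80354) (nat_lit 13)
  (node (nat_lit 4) (nat_lit 73679) (nat_lit 14) (node (nat_lit 6) (nat_lit 61309) (nat_lit 15)
  (node (nat_lit 5) (nat_lit 39576) (nat_lit 16) (node (nat_lit 6) (nat_lit 23256) (nat_lit 17)
  nil nil) nil) nil) nil) nil) nil) nil) (node (nat_lit 4) (nat_lit 94573) (nat_lit 10) (node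
  (nat_lit 5) (nat_lit 96225) (nat_lit 11) nil nil) (node (nat_lit 0) (nat_lit 94465) (nat_lit 10)
  nil nil))) (node (nat_lit 0) (nat_lit 95210) (nat_lit 9) (node (nat_lit 11) (nat_lit 96815)
  (nat_lit 10) (node (nat_lit 6) (nat_lit 95812) (nat_lit 11) nil nil) (node (nat_lit 6) (nat_lit
  95284) (nat_lit 10) nil (node (nat_lit 4) (nat_lit 95896) (nat_lit 10) nil (node (nat_lit 5)
  (nat_lit 97100) (nat_lit 10) nil nil)))) nil)))) (node (nat_lit 4) (nat_lit 0) (nat_lit 8) (node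
  (nat_lit 0) (nat_lit 0) (nat_lit 9) (node (nat_lit 4) (nat_lit 0) (nat_lit 10) (node (nat_lit 6)
  (nat_lit 91478) (nat_lit 11) (node (nat_lit 4) (nat_lit 94137) (nat_lit 12) (node (nat_lit 5)
  (nat_lit 95244) (nat_lit 13) nil nil) (node (nat_lit 5) (nat_lit 92972) (nat_lit 12) (node
  (nat_lit 4) (nat_lit 91817) (nat_lit 13) nil nil) (node (nat_lit 12) (nat_lit 94137) (nat_lit
  12) (node (nat_lit 4) (nat_lit 96211) (nat_lit 13) nil nil) nil))) (node (nat_lit 5) (nat_lit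
  94736) (nat_lit 11) (node (nat_lit 6) (nat_lit 95189) (nat_lit 12) (node (nat_lit 5) (nat_lit
  96390) (nat_lit 13) nil nil) (node (nat_lit 4) (nat_lit 94160) (nat_lit 12) (node (nat_lit 6)
  (nat_lit 94544) (nat_lit 13) nil nil) nil)) (node (nat_lit 0) (nat_lit 94736) (nat_lit 11) (node
  (nat_lit 4) (nat_lit 94160) (nat_lit 12) nil (node (nat_lit 12) (nat_lit 97007) (nat_lit 12) nil
  nil)) nil))) (node (nat_lit 6) (nat_lit 88074) (nat_lit 10) (node (nat_lit 12) (nat_lit 91478)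
  (nat_lit 11) (node (nat_lit 4) (nat_lit 91290) (nat_lit 12) (node (nat_lit 12) (nat_lit 93364)
  (nat_lit 13) nil nil) nil) (node (nat_lit 4) (nat_lit 91478) (nat_lit 11) (node (nat_lit 6)
  (nat_lit 91728) (nat_lit 12) nil nil) (node (nat_lit 5) (nat_lit 94736) (nat_lit 11) (node
  (nat_lit 4) (nat_lit 94160) (nat_lit 12) nil nil) nil))) (node (nat_lit 5) (nat_lit 91246)
  (nat_lit 10) (node (nat_lit 4) (nat_lit 94650) (nat_lit 11) (node (nat_lit 5) (nat_lit 97304)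
  (nat_lit 12) nil nil) (node (nat_lit 6) (nat_lit 91544) (nat_lit 11) nil (node (nat_lit 12)
  (nat_lit 94650) (nat_lit 11) nil nil))) (node (nat_lit 0) (nat_lit 90835) (nat_lit 10) (node
  (nat_lit 4) (nat_lit 90684) (nat_lit 11) (node (nat_lit 12) (nat_lit 93338) (nat_lit 12) nil
  nil) (node (nat_lit 12) (nat_lit 94240) (nat_lit 11) nil nil)) nil)))) (node (nat_lit 5)
  (nat_lit 0) (nat_lit 9) (node (nat_lit 0) (nat_lit 91716) (nat_lit 10) (node (nat_lit 4)
  (nat_lit 95120) (nat_lit 11) (node (nat_lit 5) (nat_lit 97900) (nat_lit 12) (node (nat_lit 6)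
  (nat_lit 98719) (nat_lit 13) nil (node (nat_lit 4) (nat_lit 99052) (nat_lit 13) nil nil)) nil)
  (node (nat_lit 5) (nat_lit 96010) (nat_lit 11) (node (nat_lit 4) (nat_lit 94960) (nat_lit 12)
  nil nil) (node (nat_lit 6) (nat_lit 95120) (nat_lit 11) nil nil))) nil) nil)) nil)) (node
  (nat_lit 0) (nat_lit 0) (nat_lit 7) (node (nat_lit 6) (nat_lit 89793) (nat_lit 8) (node (nat_lit
  5) (nat_lit 96667) (nat_lit 9) (node (nat_lit 4) (nat_lit 97266) (nat_lit 10) (node (nat_lit 5)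
  (nat_lit 95278) (nat_lit 11) (node (nat_lit 6) (nat_lit 86912) (nat_lit 12) (node (nat_lit 4)
  (nat_lit 53344) (nat_lit 13) (node (nat_lit 6) (nat_lit 26531) (nat_lit 14) nil nil) nil) nil)
  (node (nat_lit 6) (nat_lit 97626) (nat_lit 11) nil nil)) (node (nat_lit 6) (nat_lit 97682)
  (nat_lit 10) nil nil)) (node (nat_lit 4) (nat_lit 93861) (nat_lit 9) (node (nat_lit 5) (nat_lit
  95635) (nat_lit 10) (node (nat_lit 6) (nat_lit 94449) (nat_lit 11) nil nil) (node (nat_lit 6)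
  (nat_lit 92136) (nat_lit 10) nil nil)) (node (nat_lit 10) (nat_lit 94869) (nat_lit 9) nil nil)))
  (node (nat_lit 5) (nat_lit 91645) (nat_lit 8) (node (nat_lit 4) (nat_lit 96262) (nat_lit 9)
  (node (nat_lit 6) (nat_lit 94536) (nat_lit 10) (node (nat_lit 4) (nat_lit 96188) (nat_lit 11)
  (node (nat_lit 5) (nat_lit 98249) (nat_lit 12) (node (nat_lit 6) (nat_lit 92615) (nat_lit 13)
  nil nil) nil) (node (nat_lit 5) (nat_lit 95078) (nat_lit 11) nil nil)) (node (nat_lit 5)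
  (nat_lit 97547) (nat_lit 10) nil nil)) (node (nat_lit 6) (nat_lit 96532) (nat_lit 9) (node
  (nat_lit 4) (nat_lit 97547) (nat_lit 10) nil (node (nat_lit 5) (nat_lit 97547) (nat_lit 10)
  (node (nat_lit 4) (nat_lit 89104) (nat_lit 11) nil nil) nil)) nil)) (node (nat_lit 4) (nat_lit
  89793) (nat_lit 8) (node (nat_lit 6) (nat_lit 94290) (nat_lit 9) (node (nat_lit 5) (nat_lit
  96413) (nat_lit 10) (node (nat_lit 4) (nat_lit 94228) (nat_lit 11) (node (nat_lit 5) (nat_lit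
  89566) (nat_lit 12) (node (nat_lit 6) (nat_lit 81813) (nat_lit 13) nil nil) nil) (node (nat_lit
  6) (nat_lit 97307) (nat_lit 11) nil nil)) (node (nat_lit 4) (nat_lit 95207) (nat_lit 10) (node
  (nat_lit 5) (nat_lit 92492) (nat_lit 11) (node (nat_lit 6) (nat_lit 73542) (nat_lit 12) nil nil)
  nil) nil)) (node (nat_lit 5) (nat_lit 96663) (nat_lit 9) (node (nat_lit 6) (nat_lit 97678)
  (nat_lit 10) (node (nat_lit 5) (nat_lit 95571) (nat_lit 11) nil nil) (node (nat_lit 4) (nat_lit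
  97678) (nat_lit 10) nil nil)) (node (nat_lit 10) (nat_lit 94383) (nat_lit 9) (node (nat_lit 5)
  (nat_lit 96157) (nat_lit 10) nil nil) nil))) (node (nat_lit 0) (nat_lit 90866) (nat_lit 8) (node
  (nat_lit 6) (nat_lit 91011) (nat_lit 9) nil (node (nat_lit 4) (nat_lit 90628) (nat_lit 9) nil
  (node (nat_lit 5) (nat_lit 95340) (nat_lit 9) nil nil))) nil)))) nil)))

noncomputable def t424 : Tr :=
  (node (nat_lit 6) (nat_lit 0) (nat_lit 6) (node (nat_lit 4) (nat_lit 0) (nat_lit 7) (node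
  (nat_lit 5) (nat_lit 0) (nat_lit 8) (node (nat_lit 0) (nat_lit 0) (nat_lit 9) (node (nat_lit 5)
  (nat_lit 0) (nat_lit 10) (node (nat_lit 4) (nat_lit 146765) (nat_lit 11) (node (nat_lit 6)
  (nat_lit 146546) (nat_lit 12) (node (nat_lit 4) (nat_lit 148651) (nat_lit 13) nil (node (nat_lit
  5) (nat_lit 145679) (nat_lit 13) nil nil)) (node (nat_lit 12) (nat_lit 149423) (nat_lit 12) nil
  (node (nat_lit 5) (nat_lit 149423) (nat_lit 12) nil nil))) (node (nat_lit 6) (nat_lit 146888)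
  (nat_lit 11) (node (nat_lit 4) (nat_lit 148595) (nat_lit 12) (node (nat_lit 5) (nat_lit 147752)
  (nat_lit 13) nil nil) (node (nat_lit 5) (nat_lit 149393) (nat_lit 12) (node (nat_lit 4) (nat_lit
  145103) (nat_lit 13) nil nil) nil)) (node (nat_lit 0) (nat_lit 149157) (nat_lit 11) (node
  (nat_lit 5) (nat_lit 148968) (nat_lit 12) nil nil) nil))) (node (nat_lit 4) (nat_lit 146591)
  (nat_lit 10) (node (nat_lit 5) (nat_lit 149995) (nat_lit 11) nil (node (nat_lit 6) (nat_lit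
  150208) (nat_lit 11) (node (nat_lit 5) (nat_lit 146134) (nat_lit 12) nil nil) (node (nat_lit 12)
  (nat_lit 149995) (nat_lit 11) nil nil))) (node (nat_lit 6) (nat_lit 142432) (nat_lit 10) (node
  (nat_lit 5) (nat_lit 146351) (nat_lit 11) (node (nat_lit 6) (nat_lit 145125) (nat_lit 12) nil
  nil) (node (nat_lit 12) (nat_lit 145836) (nat_lit 11) nil (node (nat_lit 4) (nat_lit 145836)
  (nat_lit 11) nil nil))) (node (nat_lit 0) (nat_lit 143586) (nat_lit 10) (node (nat_lit 5)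
  (nat_lit 145980) (nat_lit 11) (node (nat_lit 12) (nat_lit 148638) (nat_lit 12) nil nil) (node
  (nat_lit 12) (nat_lit 146990) (nat_lit 11) nil nil)) nil)))) (node (nat_lit 6) (nat_lit 0)
  (nat_lit 9) (node (nat_lit 0) (nat_lit 93774) (nat_lit 10) (node (nat_lit 5) (nat_lit 96486)
  (nat_lit 11) (node (nat_lit 6) (nat_lit 99631) (nat_lit 12) (node (nat_lit 4) (nat_lit 101706)
  (nat_lit 13) (node (nat_lit 5) (nat_lit 103324) (nat_lit 14) nil nil) (node (nat_lit 5) (nat_lit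
  101449) (nat_lit 13) (node (nat_lit 13) (nat_lit 103067) (nat_lit 14) nil (node (nat_lit 4)
  (nat_lit 99086) (nat_lit 14) nil nil)) (node (nat_lit 0) (nat_lit 101706) (nat_lit 13) nil
  nil))) nil) (node (nat_lit 6) (nat_lit 96928) (nat_lit 11) (node (nat_lit 5) (nat_lit 92224)
  (nat_lit 12) nil nil) (node (nat_lit 4) (nat_lit 98005) (nat_lit 11) nil nil))) nil) (node
  (nat_lit 4) (nat_lit 0) (nat_lit 9) (node (nat_lit 0) (nat_lit 144358) (nat_lit 10) (node
  (nat_lit 5) (nat_lit 148779) (nat_lit 11) (node (nat_lit 4) (nat_lit 151035) (nat_lit 12) (node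
  (nat_lit 6) (nat_lit 150858) (nat_lit 13) (node (nat_lit 4) (nat_lit 148874) (nat_lit 14) nil
  (node (nat_lit 5) (nat_lit 149851) (nat_lit 14) nil nil)) (node (nat_lit 5) (nat_lit 153110)
  (nat_lit 13) nil nil)) (node (nat_lit 13) (nat_lit 151438) (nat_lit 12) nil nil)) (node (nat_lit
  4) (nat_lit 151451) (nat_lit 11) (node (nat_lit 5) (nat_lit 154109) (nat_lit 12) nil nil) nil))
  nil) nil))) (node (nat_lit 0) (nat_lit 0) (nat_lit 8) (node (nat_lit 6) (nat_lit 153064)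
  (nat_lit 9) (node (nat_lit 4) (nat_lit 153926) (nat_lit 10) (node (nat_lit 6) (nat_lit 151744)
  (nat_lit 11) (node (nat_lit 5) (nat_lit 151485) (nat_lit 12) (node (nat_lit 4) (nat_lit 151456)
  (nat_lit 13) (node (nat_lit 5) (nat_lit 150103) (nat_lit 14) (node (nat_lit 6) (nat_lit 147099)
  (nat_lit 15) (node (nat_lit 5) (nat_lit 144224) (nat_lit 16) (node (nat_lit 4) (nat_lit 138075)
  (nat_lit 17) nil nil) nil) nil) nil) nil) nil) nil) (node (nat_lit 11) (nat_lit 154988) (nat_lit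
  10) (node (nat_lit 4) (nat_lit 155746) (nat_lit 11) (node (nat_lit 6) (nat_lit 154075) (nat_lit
  12) (node (nat_lit 4) (nat_lit 154633) (nat_lit 13) (node (nat_lit 5) (nat_lit 155067) (nat_lit
  14) (node (nat_lit 6) (nat_lit 153746) (nat_lit 15) nil nil) nil) nil) nil) (node (nat_lit 5)
  (nat_lit 155746) (nat_lit 11) (node (nat_lit 6) (nat_lit 154075) (nat_lit 12) nil nil) nil))
  (node (nat_lit 5) (nat_lit 153501) (nat_lit 10) (node (nat_lit 4) (nat_lit 151457) (nat_lit 11)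
  (node (nat_lit 5) (nat_lit 147543) (nat_lit 12) (node (nat_lit 6) (nat_lit 143159) (nat_lit 13)
  nil nil) nil) (node (nat_lit 6) (nat_lit 154258) (nat_lit 11) (node (nat_lit 4) (nat_lit 154945)
  (nat_lit 12) (node (nat_lit 5) (nat_lit 153803) (nat_lit 13) nil nil) nil) nil)) nil))) (node
  (nat_lit 5) (nat_lit 150695) (nat_lit 9) (node (nat_lit 6) (nat_lit 152127) (nat_lit 10) (node
  (nat_lit 4) (nat_lit 152586) (nat_lit 11) (node (nat_lit 5) (nat_lit 149713) (nat_lit 12) (node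
  (nat_lit 6) (nat_lit 144288) (nat_lit 13) (node (nat_lit 5) (nat_lit 136902) (nat_lit 14) (node
  (nat_lit 4) (nat_lit 122024) (nat_lit 15) (node (nat_lit 6) (nat_lit 100846) (nat_lit 16) (node
  (nat_lit 4) (nat_lit 65052) (nat_lit 17) nil nil) nil) nil) nil) nil) nil) (node (nat_lit 5)
  (nat_lit 153022) (nat_lit 11) (node (nat_lit 4) (nat_lit 152657) (nat_lit 12) nil nil) nil))
  (node (nat_lit 11) (nat_lit 150662) (nat_lit 10) (node (nat_lit 4) (nat_lit 152247) (nat_lit 11)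
  (node (nat_lit 5) (nat_lit 152933) (nat_lit 12) nil nil) (node (nat_lit 6) (nat_lit 152257)
  (nat_lit 11) (node (nat_lit 5) (nat_lit 149059) (nat_lit 12) nil nil) nil)) (node (nat_lit 4)
  (nat_lit 152620) (nat_lit 10) (node (nat_lit 5) (nat_lit 153378) (nat_lit 11) nil (node (nat_lit
  6) (nat_lit 150438) (nat_lit 11) nil nil)) nil))) (node (nat_lit 4) (nat_lit 153138) (nat_lit 9)
  (node (nat_lit 6) (nat_lit 155063) (nat_lit 10) (node (nat_lit 4) (nat_lit 154517) (nat_lit 11)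
  (node (nat_lit 5) (nat_lit 151644) (nat_lit 12) (node (nat_lit 6) (nat_lit 146219) (nat_lit 13)
  (node (nat_lit 5) (nat_lit 138833) (nat_lit 14) (node (nat_lit 4) (nat_lit 126015) (nat_lit 15)
  nil nil) nil) nil) nil) (node (nat_lit 5) (nat_lit 149834) (nat_lit 11) (node (nat_lit 4)
  (nat_lit 147706) (nat_lit 12) nil nil) nil)) (node (nat_lit 5) (nat_lit 154000) (nat_lit 10) nil
  nil)) (node (nat_lit 0) (nat_lit 152007) (nat_lit 9) (node (nat_lit 11) (nat_lit 152868)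
  (nat_lit 10) (node (nat_lit 4) (nat_lit 153626) (nat_lit 11) nil nil) (node (nat_lit 4) (nat_lit
  154151) (nat_lit 10) nil (node (nat_lit 5) (nat_lit 151678) (nat_lit 10) nil (node (nat_lit 6)
  (nat_lit 154312) (nat_lit 10) nil nil)))) nil)))) nil)) (node (nat_lit 5) (nat_lit 0) (nat_lit
  7) (node (nat_lit 0) (nat_lit 0) (nat_lit 8) (node (nat_lit 4) (nat_lit 153138) (nat_lit 9)
  (node (nat_lit 11) (nat_lit 153103) (nat_lit 10) (node (nat_lit 5) (nat_lit 153169) (nat_lit 11)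
  (node (nat_lit 4) (nat_lit 153856) (nat_lit 12) nil nil) (node (nat_lit 6) (nat_lit 154700)
  (nat_lit 11) (node (nat_lit 4) (nat_lit 155387) (nat_lit 12) nil nil) nil)) (node (nat_lit 6)
  (nat_lit 155063) (nat_lit 10) (node (nat_lit 4) (nat_lit 155751) (nat_lit 11) (node (nat_lit 5)
  (nat_lit 154275) (nat_lit 12) (node (nat_lit 6) (nat_lit 149709) (nat_lit 13) (node (nat_lit 5)
  (nat_lit 142478) (nat_lit 14) (node (nat_lit 4) (nat_lit 130736) (nat_lit 15) nil nil) nil) nil)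
  nil) (node (nat_lit 5) (nat_lit 152748) (nat_lit 11) nil nil)) (node (nat_lit 5) (nat_lit
  153103) (nat_lit 10) (node (nat_lit 4) (nat_lit 153861) (nat_lit 11) (node (nat_lit 6) (nat_lit
  152190) (nat_lit 12) nil nil) nil) nil))) (node (nat_lit 6) (nat_lit 153064) (nat_lit 9) (node
  (nat_lit 11) (nat_lit 154988) (nat_lit 10) (node (nat_lit 5) (nat_lit 155746) (nat_lit 11) (node
  (nat_lit 6) (nat_lit 154075) (nat_lit 12) (node (nat_lit 4) (nat_lit 154633) (nat_lit 13) nil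
  nil) nil) (node (nat_lit 4) (nat_lit 155746) (nat_lit 11) (node (nat_lit 6) (nat_lit 154075)
  (nat_lit 12) (node (nat_lit 4) (nat_lit 154633) (nat_lit 13) nil nil) nil) nil)) (node (nat_lit
  5) (nat_lit 153237) (nat_lit 10) (node (nat_lit 4) (nat_lit 150617) (nat_lit 11) (node (nat_lit
  5) (nat_lit 142391) (nat_lit 12) (node (nat_lit 6) (nat_lit 136190) (nat_lit 13) (node (nat_lit
  5) (nat_lit 128970) (nat_lit 14) nil nil) nil) nil) (node (nat_lit 6) (nat_lit 153249) (nat_lit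
  11) (node (nat_lit 4) (nat_lit 153589) (nat_lit 12) (node (nat_lit 5) (nat_lit 152372) (nat_lit
  13) nil nil) nil) nil)) (node (nat_lit 4) (nat_lit 153926) (nat_lit 10) nil nil))) (node
  (nat_lit 5) (nat_lit 0) (nat_lit 9) (node (nat_lit 6) (nat_lit 151943) (nat_lit 10) (node
  (nat_lit 4) (nat_lit 152403) (nat_lit 11) (node (nat_lit 5) (nat_lit 149529) (nat_lit 12) nil
  nil) (node (nat_lit 5) (nat_lit 153022) (nat_lit 11) nil nil)) (node (nat_lit 4) (nat_lit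
  152620) (nat_lit 10) (node (nat_lit 6) (nat_lit 150438) (nat_lit 11) nil (node (nat_lit 5)
  (nat_lit 153378) (nat_lit 11) nil nil)) (node (nat_lit 0) (nat_lit 151556) (nat_lit 10) nil
  nil))) (node (nat_lit 0) (nat_lit 152007) (nat_lit 9) (node (nat_lit 11) (nat_lit 152868)
  (nat_lit 10) (node (nat_lit 5) (nat_lit 153626) (nat_lit 11) nil nil) (node (nat_lit 5) (nat_lit
  151678) (nat_lit 10) nil (node (nat_lit 6) (nat_lit 154312) (nat_lit 10) nil (node (nat_lit 4)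
  (nat_lit 154165) (nat_lit 10) nil nil)))) nil)))) (node (nat_lit 6) (nat_lit 0) (nat_lit 8)
  (node (nat_lit 0) (nat_lit 0) (nat_lit 9) (node (nat_lit 6) (nat_lit 0) (nat_lit 10) (node
  (nat_lit 5) (nat_lit 149859) (nat_lit 11) (node (nat_lit 4) (nat_lit 149476) (nat_lit 12) (node
  (nat_lit 5) (nat_lit 148811) (nat_lit 13) (node (nat_lit 6) (nat_lit 135938) (nat_lit 14) nil
  nil) (node (nat_lit 6) (nat_lit 151228) (nat_lit 13) nil nil)) (node (nat_lit 12) (nat_lit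
  151039) (nat_lit 12) (node (nat_lit 6) (nat_lit 151962) (nat_lit 13) nil nil) (node (nat_lit 6)
  (nat_lit 151039) (nat_lit 12) nil nil))) (node (nat_lit 4) (nat_lit 152145) (nat_lit 11) (node
  (nat_lit 5) (nat_lit 153325) (nat_lit 12) nil (node (nat_lit 6) (nat_lit 150916) (nat_lit 12)
  nil nil)) (node (nat_lit 0) (nat_lit 150325) (nat_lit 11) (node (nat_lit 6) (nat_lit 149096)
  (nat_lit 12) nil (node (nat_lit 12) (nat_lit 151505) (nat_lit 12) nil nil)) nil))) (node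
  (nat_lit 5) (nat_lit 149585) (nat_lit 10) (node (nat_lit 6) (nat_lit 151386) (nat_lit 11) (node
  (nat_lit 5) (nat_lit 151589) (nat_lit 12) nil nil) (node (nat_lit 12) (nat_lit 150642) (nat_lit
  11) (node (nat_lit 6) (nat_lit 149413) (nat_lit 12) nil nil) (node (nat_lit 4) (nat_lit 151097)
  (nat_lit 11) nil nil))) (node (nat_lit 4) (nat_lit 151481) (nat_lit 10) (node (nat_lit 6)
  (nat_lit 150831) (nat_lit 11) (node (nat_lit 4) (nat_lit 152010) (nat_lit 12) nil nil) (node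
  (nat_lit 12) (nat_lit 153936) (nat_lit 11) nil (node (nat_lit 5) (nat_lit 153936) (nat_lit 11)
  nil nil))) (node (nat_lit 0) (nat_lit 152424) (nat_lit 10) (node (nat_lit 6) (nat_lit 150831)
  (nat_lit 11) nil (node (nat_lit 12) (nat_lit 153936) (nat_lit 11) nil nil)) nil)))) (node
  (nat_lit 4) (nat_lit 0) (nat_lit 9) (node (nat_lit 0) (nat_lit 151859) (nat_lit 10) (node
  (nat_lit 6) (nat_lit 154294) (nat_lit 11) (node (nat_lit 4) (nat_lit 155474) (nat_lit 12) (node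
  (nat_lit 6) (nat_lit 154551) (nat_lit 13) nil nil) nil) (node (nat_lit 5) (nat_lit 152454)
  (nat_lit 11) nil (node (nat_lit 4) (nat_lit 154473) (nat_lit 11) nil nil))) nil) nil)) nil))
  (node (nat_lit 0) (nat_lit 0) (nat_lit 7) (node (nat_lit 4) (nat_lit 153730) (nat_lit 8) (node
  (nat_lit 6) (nat_lit 155752) (nat_lit 9) (node (nat_lit 5) (nat_lit 154107) (nat_lit 10) (node
  (nat_lit 4) (nat_lit 151486) (nat_lit 11) (node (nat_lit 5) (nat_lit 148613) (nat_lit 12) (node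
  (nat_lit 6) (nat_lit 137065) (nat_lit 13) nil nil) nil) (node (nat_lit 6) (nat_lit 154708)
  (nat_lit 11) (node (nat_lit 4) (nat_lit 155049) (nat_lit 12) nil nil) nil)) (node (nat_lit 4)
  (nat_lit 154458) (nat_lit 10) (node (nat_lit 5) (nat_lit 150098) (nat_lit 11) (node (nat_lit 6)
  (nat_lit 140748) (nat_lit 12) nil nil) nil) nil)) (node (nat_lit 5) (nat_lit 154669) (nat_lit 9)
  (node (nat_lit 6) (nat_lit 155730) (nat_lit 10) nil nil) (node (nat_lit 10) (nat_lit 155752)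
  (nat_lit 9) nil nil))) (node (nat_lit 5) (nat_lit 149522) (nat_lit 8) (node (nat_lit 4) (nat_lit
  154153) (nat_lit 9) (node (nat_lit 6) (nat_lit 154980) (nat_lit 10) (node (nat_lit 4) (nat_lit
  155440) (nat_lit 11) (node (nat_lit 5) (nat_lit 152566) (nat_lit 12) (node (nat_lit 6) (nat_lit
  145895) (nat_lit 13) nil nil) nil) (node (nat_lit 5) (nat_lit 150951) (nat_lit 11) nil nil))
  nil) (node (nat_lit 6) (nat_lit 152620) (nat_lit 9) (node (nat_lit 4) (nat_lit 152729) (nat_lit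
  10) (node (nat_lit 5) (nat_lit 148369) (nat_lit 11) (node (nat_lit 6) (nat_lit 129782) (nat_lit
  12) nil nil) nil) (node (nat_lit 5) (nat_lit 148113) (nat_lit 10) (node (nat_lit 4) (nat_lit
  147679) (nat_lit 11) nil nil) nil)) (node (nat_lit 10) (nat_lit 150916) (nat_lit 9) (node
  (nat_lit 6) (nat_lit 148176) (nat_lit 10) nil nil) nil))) (node (nat_lit 6) (nat_lit 150829)
  (nat_lit 8) (node (nat_lit 5) (nat_lit 153926) (nat_lit 9) (node (nat_lit 4) (nat_lit 152075)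
  (nat_lit 10) (node (nat_lit 5) (nat_lit 144908) (nat_lit 11) (node (nat_lit 6) (nat_lit 128970)
  (nat_lit 12) (node (nat_lit 5) (nat_lit 124950) (nat_lit 13) nil nil) nil) (node (nat_lit 6)
  (nat_lit 152833) (nat_lit 11) nil nil)) (node (nat_lit 6) (nat_lit 154788) (nat_lit 10) (node
  (nat_lit 4) (nat_lit 155545) (nat_lit 11) nil nil) nil)) (node (nat_lit 4) (nat_lit 155458)
  (nat_lit 9) (node (nat_lit 5) (nat_lit 156320) (nat_lit 10) nil nil) nil)) (node (nat_lit 0)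
  (nat_lit 151880) (nat_lit 8) (node (nat_lit 4) (nat_lit 153902) (nat_lit 9) nil (node (nat_lit
  5) (nat_lit 153902) (nat_lit 9) nil (node (nat_lit 6) (nat_lit 149430) (nat_lit 9) nil nil)))
  nil)))) nil))) (node (nat_lit 5) (nat_lit 0) (nat_lit 6) (node (nat_lit 6) (nat_lit 0) (nat_lit
  7) (node (nat_lit 4) (nat_lit 0) (nat_lit 8) (node (nat_lit 0) (nat_lit 0) (nat_lit 9) (node
  (nat_lit 4) (nat_lit 0) (nat_lit 10) (node (nat_lit 6) (nat_lit 94111) (nat_lit 11) (node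
  (nat_lit 5) (nat_lit 96656) (nat_lit 12) (node (nat_lit 4) (nat_lit 95628) (nat_lit 13) nil
  (node (nat_lit 6) (nat_lit 95064) (nat_lit 13) nil nil)) (node (nat_lit 4) (nat_lit 97083)
  (nat_lit 12) (node (nat_lit 5) (nat_lit 99398) (nat_lit 13) nil nil) (node (nat_lit 12) (nat_lit
  95516) (nat_lit 12) nil nil))) (node (nat_lit 5) (nat_lit 94111) (nat_lit 11) (node (nat_lit 6)
  (nat_lit 95590) (nat_lit 12) nil (node (nat_lit 4) (nat_lit 92743) (nat_lit 12) nil nil)) (node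
  (nat_lit 0) (nat_lit 90333) (nat_lit 11) (node (nat_lit 4) (nat_lit 88964) (nat_lit 12) nil
  (node (nat_lit 12) (nat_lit 91811) (nat_lit 12) nil nil)) nil))) (node (nat_lit 6) (nat_lit
  90036) (nat_lit 10) (node (nat_lit 12) (nat_lit 93837) (nat_lit 11) (node (nat_lit 4) (nat_lit
  92468) (nat_lit 12) nil nil) (node (nat_lit 4) (nat_lit 94195) (nat_lit 11) (node (nat_lit 6)
  (nat_lit 95673) (nat_lit 12) nil nil) (node (nat_lit 5) (nat_lit 93837) (nat_lit 11) (node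
  (nat_lit 4) (nat_lit 92468) (nat_lit 12) nil nil) nil))) (node (nat_lit 5) (nat_lit 90036)
  (nat_lit 10) (node (nat_lit 4) (nat_lit 93293) (nat_lit 11) nil (node (nat_lit 6) (nat_lit
  92141) (nat_lit 11) nil (node (nat_lit 12) (nat_lit 91927) (nat_lit 11) nil nil))) (node
  (nat_lit 0) (nat_lit 90036) (nat_lit 10) (node (nat_lit 4) (nat_lit 91932) (nat_lit 11) (node
  (nat_lit 12) (nat_lit 93411) (nat_lit 12) nil nil) (node (nat_lit 12) (nat_lit 90058) (nat_lit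
  11) nil nil)) nil)))) (node (nat_lit 6) (nat_lit 0) (nat_lit 9) (node (nat_lit 0) (nat_lit
  90036) (nat_lit 10) (node (nat_lit 4) (nat_lit 93553) (nat_lit 11) (node (nat_lit 6) (nat_lit
  96254) (nat_lit 12) (node (nat_lit 4) (nat_lit 99226) (nat_lit 13) (node (nat_lit 5) (nat_lit
  98926) (nat_lit 14) (node (nat_lit 6) (nat_lit 96342) (nat_lit 15) (node (nat_lit 5) (nat_lit
  90979) (nat_lit 16) nil nil) nil) (node (nat_lit 13) (nat_lit 100126) (nat_lit 14) nil nil))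
  (node (nat_lit 5) (nat_lit 97434) (nat_lit 13) (node (nat_lit 4) (nat_lit 96673) (nat_lit 14)
  nil nil) nil)) (node (nat_lit 13) (nat_lit 95031) (nat_lit 12) nil nil)) (node (nat_lit 6)
  (nat_lit 93837) (nat_lit 11) (node (nat_lit 4) (nat_lit 96808) (nat_lit 12) (node (nat_lit 13)
  (nat_lit 97960) (nat_lit 13) nil nil) nil) nil)) nil) (node (nat_lit 5) (nat_lit 0) (nat_lit 9)
  (node (nat_lit 0) (nat_lit 89939) (nat_lit 10) (node (nat_lit 4) (nat_lit 93602) (nat_lit 11)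
  (node (nat_lit 5) (nat_lit 96573) (nat_lit 12) (node (nat_lit 6) (nat_lit 97725) (nat_lit 13)
  nil (node (nat_lit 4) (nat_lit 95545) (nat_lit 13) nil nil)) nil) (node (nat_lit 5) (nat_lit
  93581) (nat_lit 11) (node (nat_lit 4) (nat_lit 92212) (nat_lit 12) nil nil) (node (nat_lit 6)
  (nat_lit 93139) (nat_lit 11) nil nil))) nil) nil))) (node (nat_lit 0) (nat_lit 0) (nat_lit 8)
  (node (nat_lit 4) (nat_lit 88242) (nat_lit 9) (node (nat_lit 6) (nat_lit 91667) (nat_lit 10)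
  (node (nat_lit 4) (nat_lit 91856) (nat_lit 11) (node (nat_lit 5) (nat_lit 88856) (nat_lit 12)
  (node (nat_lit 6) (nat_lit 84173) (nat_lit 13) (node (nat_lit 5) (nat_lit 74834) (nat_lit 14)
  (node (nat_lit 4) (nat_lit 49512) (nat_lit 15) nil nil) nil) nil) nil) (node (nat_lit 5)
  (nat_lit 89481) (nat_lit 11) (node (nat_lit 4) (nat_lit 87825) (nat_lit 12) nil nil) nil)) (node
  (nat_lit 5) (nat_lit 91705) (nat_lit 10) nil (node (nat_lit 11) (nat_lit 89067) (nat_lit 10) nil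
  nil))) (node (nat_lit 5) (nat_lit 88107) (nat_lit 9) (node (nat_lit 6) (nat_lit 91923) (nat_lit
  10) (node (nat_lit 4) (nat_lit 91856) (nat_lit 11) (node (nat_lit 5) (nat_lit 85681) (nat_lit
  12) (node (nat_lit 6) (nat_lit 82210) (nat_lit 13) (node (nat_lit 5) (nat_lit 72872) (nat_lit
  14) (node (nat_lit 4) (nat_lit 57607) (nat_lit 15) (node (nat_lit 5) (nat_lit 33879) (nat_lit
  16) nil nil) nil) nil) nil) nil) (node (nat_lit 5) (nat_lit 92817) (nat_lit 11) nil nil)) (node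
  (nat_lit 4) (nat_lit 93272) (nat_lit 10) (node (nat_lit 5) (nat_lit 94166) (nat_lit 11) nil nil)
  (node (nat_lit 11) (nat_lit 91608) (nat_lit 10) nil nil))) (node (nat_lit 6) (nat_lit 88610)
  (nat_lit 9) (node (nat_lit 5) (nat_lit 92075) (nat_lit 10) (node (nat_lit 4) (nat_lit 89889)
  (nat_lit 11) (node (nat_lit 5) (nat_lit 90701) (nat_lit 12) (node (nat_lit 6) (nat_lit 91358)
  (nat_lit 13) (node (nat_lit 5) (nat_lit 91870) (nat_lit 14) (node (nat_lit 4) (nat_lit 91130)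
  (nat_lit 15) nil nil) nil) nil) nil) (node (nat_lit 6) (nat_lit 94878) (nat_lit 11) nil nil))
  (node (nat_lit 4) (nat_lit 93776) (nat_lit 10) (node (nat_lit 5) (nat_lit 94670) (nat_lit 11)
  nil nil) nil)) (node (nat_lit 0) (nat_lit 90117) (nat_lit 9) (node (nat_lit 6) (nat_lit 91608)
  (nat_lit 10) nil (node (nat_lit 11) (nat_lit 91132) (nat_lit 10) nil (node (nat_lit 4) (nat_lit
  90632) (nat_lit 10) nil (node (nat_lit 5) (nat_lit 90632) (nat_lit 10) nil nil)))) nil)))) nil))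
  (node (nat_lit 0) (nat_lit 0) (nat_lit 7) (node (nat_lit 4) (nat_lit 89541) (nat_lit 8) (node
  (nat_lit 6) (nat_lit 92829) (nat_lit 9) (node (nat_lit 5) (nat_lit 94240) (nat_lit 10) (node
  (nat_lit 4) (nat_lit 92054) (nat_lit 11) (node (nat_lit 5) (nat_lit 92865) (nat_lit 12) nil nil)
  (node (nat_lit 6) (nat_lit 90311) (nat_lit 11) (node (nat_lit 4) (nat_lit 89966) (nat_lit 12)
  nil nil) nil)) (node (nat_lit 4) (nat_lit 92749) (nat_lit 10) (node (nat_lit 5) (nat_lit 90764)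
  (nat_lit 11) (node (nat_lit 6) (nat_lit 82154) (nat_lit 12) nil nil) nil) nil)) (node (nat_lit
  5) (nat_lit 93871) (nat_lit 9) (node (nat_lit 6) (nat_lit 96075) (nat_lit 10) nil nil) (node
  (nat_lit 10) (nat_lit 93871) (nat_lit 9) nil nil))) (node (nat_lit 6) (nat_lit 89827) (nat_lit
  8) (node (nat_lit 5) (nat_lit 92811) (nat_lit 9) (node (nat_lit 4) (nat_lit 95016) (nat_lit 10)
  (node (nat_lit 5) (nat_lit 95909) (nat_lit 11) (node (nat_lit 6) (nat_lit 96721) (nat_lit 12)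
  (node (nat_lit 5) (nat_lit 97378) (nat_lit 13) nil nil) nil) (node (nat_lit 6) (nat_lit 92590)
  (nat_lit 11) nil nil)) (node (nat_lit 6) (nat_lit 93997) (nat_lit 10) (node (nat_lit 4) (nat_lit
  93698) (nat_lit 11) nil nil) nil)) (node (nat_lit 4) (nat_lit 95277) (nat_lit 9) (node (nat_lit
  5) (nat_lit 97481) (nat_lit 10) nil (node (nat_lit 6) (nat_lit 96292) (nat_lit 10) nil nil))
  (node (nat_lit 10) (nat_lit 92225) (nat_lit 9) nil nil))) (node (nat_lit 5) (nat_lit 89827)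
  (nat_lit 8) (node (nat_lit 6) (nat_lit 93561) (nat_lit 9) (node (nat_lit 4) (nat_lit 96518)
  (nat_lit 10) (node (nat_lit 5) (nat_lit 92522) (nat_lit 11) (node (nat_lit 6) (nat_lit 68633)
  (nat_lit 12) nil nil) nil) (node (nat_lit 5) (nat_lit 94576) (nat_lit 10) (node (nat_lit 4)
  (nat_lit 92390) (nat_lit 11) nil nil) nil)) (node (nat_lit 4) (nat_lit 95277) (nat_lit 9) (node
  (nat_lit 6) (nat_lit 97481) (nat_lit 10) (node (nat_lit 4) (nat_lit 94478) (nat_lit 11) (node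
  (nat_lit 5) (nat_lit 88553) (nat_lit 12) (node (nat_lit 6) (nat_lit 85082) (nat_lit 13) nil nil)
  nil) (node (nat_lit 5) (nat_lit 95295) (nat_lit 11) nil nil)) nil) nil)) (node (nat_lit 0)
  (nat_lit 91429) (nat_lit 8) (node (nat_lit 4) (nat_lit 89312) (nat_lit 9) nil (node (nat_lit 6)
  (nat_lit 94024) (nat_lit 9) nil nil)) nil)))) nil)) nil))

noncomputable def t425 : Tr :=
  (node (nat_lit 5) (nat_lit 0) (nat_lit 5) (node (nat_lit 7) (nat_lit 0) (nat_lit 6) (node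
  (nat_lit 4) (nat_lit 0) (nat_lit 7) (node (nat_lit 5) (nat_lit 0) (nat_lit 8) (node (nat_lit 0)
  (nat_lit 0) (nat_lit 9) (node (nat_lit 5) (nat_lit 0) (nat_lit 10) (node (nat_lit 4) (nat_lit
  98139) (nat_lit 11) (node (nat_lit 7) (nat_lit 102251) (nat_lit 12) (node (nat_lit 4) (nat_lit
  104392) (nat_lit 13) nil (node (nat_lit 5) (nat_lit 101298) (nat_lit 13) nil nil)) (node
  (nat_lit 5) (nat_lit 101164) (nat_lit 12) nil (node (nat_lit 12) (nat_lit 101418) (nat_lit 12)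
  (node (nat_lit 5) (nat_lit 100466) (nat_lit 13) nil nil) nil))) (node (nat_lit 7) (nat_lit
  99543) (nat_lit 11) (node (nat_lit 4) (nat_lit 102569) (nat_lit 12) (node (nat_lit 5) (nat_lit
  100987) (nat_lit 13) (node (nat_lit 4) (nat_lit 91491) (nat_lit 14) nil nil) (node (nat_lit 7)
  (nat_lit 103768) (nat_lit 13) nil nil)) (node (nat_lit 5) (nat_lit 101242) (nat_lit 12) nil
  (node (nat_lit 12) (nat_lit 101075) (nat_lit 12) nil (node (nat_lit 0) (nat_lit 101075) (nat_lit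
  12) nil nil)))) (node (nat_lit 0) (nat_lit 97700) (nat_lit 11) (node (nat_lit 12) (nat_lit
  99718) (nat_lit 12) nil (node (nat_lit 5) (nat_lit 96423) (nat_lit 12) nil nil)) nil))) (node
  (nat_lit 4) (nat_lit 93594) (nat_lit 10) (node (nat_lit 12) (nat_lit 97339) (nat_lit 11) (node
  (nat_lit 5) (nat_lit 100289) (nat_lit 12) (node (nat_lit 12) (nat_lit 101487) (nat_lit 13) nil
  nil) nil) (node (nat_lit 5) (nat_lit 97898) (nat_lit 11) (node (nat_lit 4) (nat_lit 96621)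
  (nat_lit 12) nil nil) (node (nat_lit 7) (nat_lit 98828) (nat_lit 11) (node (nat_lit 5) (nat_lit
  97550) (nat_lit 12) nil nil) nil))) (node (nat_lit 7) (nat_lit 95431) (nat_lit 10) (node
  (nat_lit 5) (nat_lit 99307) (nat_lit 11) (node (nat_lit 7) (nat_lit 97237) (nat_lit 12) nil nil)
  (node (nat_lit 12) (nat_lit 99307) (nat_lit 11) (node (nat_lit 5) (nat_lit 98029) (nat_lit 12)
  nil nil) (node (nat_lit 4) (nat_lit 99307) (nat_lit 11) nil nil))) (node (nat_lit 0) (nat_lit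
  95431) (nat_lit 10) (node (nat_lit 5) (nat_lit 99307) (nat_lit 11) (node (nat_lit 12) (nat_lit
  100839) (nat_lit 12) nil nil) (node (nat_lit 12) (nat_lit 99307) (nat_lit 11) nil nil)) nil))))
  (node (nat_lit 4) (nat_lit 0) (nat_lit 9) (node (nat_lit 0) (nat_lit 79174) (nat_lit 10) (node
  (nat_lit 5) (nat_lit 82257) (nat_lit 11) (node (nat_lit 4) (nat_lit 85269) (nat_lit 12) (node
  (nat_lit 5) (nat_lit 87631) (nat_lit 13) (node (nat_lit 13) (nat_lit 88564) (nat_lit 14) nil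
  (node (nat_lit 7) (nat_lit 89473) (nat_lit 14) (node (nat_lit 4) (nat_lit 87124) (nat_lit 15)
  nil nil) nil)) (node (nat_lit 7) (nat_lit 88849) (nat_lit 13) (node (nat_lit 4) (nat_lit 87130)
  (nat_lit 14) nil (node (nat_lit 5) (nat_lit 88143) (nat_lit 14) nil nil)) (node (nat_lit 0)
  (nat_lit 86468) (nat_lit 13) nil nil))) (node (nat_lit 13) (nat_lit 85537) (nat_lit 12) nil
  nil)) (node (nat_lit 4) (nat_lit 82917) (nat_lit 11) (node (nat_lit 5) (nat_lit 85867) (nat_lit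
  12) (node (nat_lit 13) (nat_lit 87066) (nat_lit 13) nil nil) nil) nil)) nil) (node (nat_lit 7)
  (nat_lit 0) (nat_lit 9) (node (nat_lit 0) (nat_lit 95678) (nat_lit 10) (node (nat_lit 5)
  (nat_lit 99553) (nat_lit 11) (node (nat_lit 7) (nat_lit 102579) (nat_lit 12) (node (nat_lit 4)
  (nat_lit 104940) (nat_lit 13) (node (nat_lit 5) (nat_lit 106005) (nat_lit 14) nil nil) (node
  (nat_lit 5) (nat_lit 103777) (nat_lit 13) nil nil)) nil) (node (nat_lit 7) (nat_lit 99722)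
  (nat_lit 11) (node (nat_lit 5) (nat_lit 98445) (nat_lit 12) nil nil) (node (nat_lit 4) (nat_lit
  99553) (nat_lit 11) nil nil))) nil) nil))) (node (nat_lit 7) (nat_lit 0) (nat_lit 8) (node
  (nat_lit 0) (nat_lit 0) (nat_lit 9) (node (nat_lit 7) (nat_lit 0) (nat_lit 10) (node (nat_lit 4)
  (nat_lit 126106) (nat_lit 11) nil (node (nat_lit 5) (nat_lit 123310) (nat_lit 11) (node (nat_lit
  7) (nat_lit 124863) (nat_lit 12) (node (nat_lit 4) (nat_lit 124951) (nat_lit 13) nil nil) (node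
  (nat_lit 4) (nat_lit 122033) (nat_lit 12) nil nil)) (node (nat_lit 0) (nat_lit 126106) (nat_lit
  11) nil nil))) (node (nat_lit 4) (nat_lit 122206) (nat_lit 10) (node (nat_lit 12) (nat_lit
  123943) (nat_lit 11) (node (nat_lit 7) (nat_lit 124676) (nat_lit 12) (node (nat_lit 12) (nat_lit
  125250) (nat_lit 13) (node (nat_lit 4) (nat_lit 124911) (nat_lit 14) (node (nat_lit 7) (nat_lit
  125170) (nat_lit 15) (node (nat_lit 4) (nat_lit 125136) (nat_lit 16) (node (nat_lit 5) (nat_lit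
  125012) (nat_lit 17) nil nil) nil) nil) nil) nil) nil) (node (nat_lit 7) (nat_lit 122681)
  (nat_lit 11) (node (nat_lit 4) (nat_lit 122133) (nat_lit 12) nil nil) (node (nat_lit 5) (nat_lit
  120549) (nat_lit 11) nil nil))) (node (nat_lit 5) (nat_lit 120452) (nat_lit 10) (node (nat_lit
  7) (nat_lit 122460) (nat_lit 11) nil (node (nat_lit 12) (nat_lit 122417) (nat_lit 11) nil (node
  (nat_lit 4) (nat_lit 118795) (nat_lit 11) nil nil))) (node (nat_lit 0) (nat_lit 124967) (nat_lit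
  10) (node (nat_lit 7) (nat_lit 126106) (nat_lit 11) nil nil) nil)))) (node (nat_lit 5) (nat_lit
  0) (nat_lit 9) (node (nat_lit 0) (nat_lit 125100) (nat_lit 10) (node (nat_lit 7) (nat_lit
  126106) (nat_lit 11) (node (nat_lit 5) (nat_lit 125494) (nat_lit 12) (node (nat_lit 7) (nat_lit
  125925) (nat_lit 13) (node (nat_lit 4) (nat_lit 126053) (nat_lit 14) nil nil) nil) nil) (node
  (nat_lit 5) (nat_lit 123444) (nat_lit 11) nil (node (nat_lit 4) (nat_lit 123444) (nat_lit 11)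
  nil nil))) nil) nil)) (node (nat_lit 0) (nat_lit 0) (nat_lit 8) (node (nat_lit 5) (nat_lit
  124576) (nat_lit 9) (node (nat_lit 4) (nat_lit 123188) (nat_lit 10) (node (nat_lit 5) (nat_lit
  121123) (nat_lit 11) (node (nat_lit 7) (nat_lit 121477) (nat_lit 12) nil nil) (node (nat_lit 7)
  (nat_lit 123322) (nat_lit 11) nil nil)) (node (nat_lit 7) (nat_lit 121585) (nat_lit 10) (node
  (nat_lit 4) (nat_lit 119711) (nat_lit 11) (node (nat_lit 5) (nat_lit 117506) (nat_lit 12) nil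
  nil) nil) (node (nat_lit 11) (nat_lit 125048) (nat_lit 10) nil nil))) (node (nat_lit 7) (nat_lit
  124261) (nat_lit 9) (node (nat_lit 5) (nat_lit 121361) (nat_lit 10) (node (nat_lit 7) (nat_lit
  121639) (nat_lit 11) (node (nat_lit 4) (nat_lit 120345) (nat_lit 12) nil nil) nil) nil) (node
  (nat_lit 4) (nat_lit 124576) (nat_lit 9) (node (nat_lit 7) (nat_lit 123619) (nat_lit 10) (node
  (nat_lit 4) (nat_lit 117680) (nat_lit 11) (node (nat_lit 5) (nat_lit 115474) (nat_lit 12) (node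
  (nat_lit 4) (nat_lit 101281) (nat_lit 13) (node (nat_lit 7) (nat_lit 91544) (nat_lit 14) nil
  nil) nil) nil) nil) (node (nat_lit 5) (nat_lit 123188) (nat_lit 10) (node (nat_lit 7) (nat_lit
  123322) (nat_lit 11) nil nil) nil)) (node (nat_lit 0) (nat_lit 124261) (nat_lit 9) (node
  (nat_lit 4) (nat_lit 121361) (nat_lit 10) nil (node (nat_lit 7) (nat_lit 125245) (nat_lit 10)
  nil (node (nat_lit 5) (nat_lit 121361) (nat_lit 10) nil nil))) nil)))) nil))) (node (nat_lit 0)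
  (nat_lit 0) (nat_lit 7) (node (nat_lit 5) (nat_lit 122602) (nat_lit 8) (node (nat_lit 7)
  (nat_lit 121725) (nat_lit 9) (node (nat_lit 4) (nat_lit 118338) (nat_lit 10) (node (nat_lit 5)
  (nat_lit 114394) (nat_lit 11) (node (nat_lit 4) (nat_lit 105017) (nat_lit 12) (node (nat_lit 7)
  (nat_lit 89743) (nat_lit 13) (node (nat_lit 5) (nat_lit 64718) (nat_lit 14) nil nil) nil) nil)
  nil) nil) (node (nat_lit 4) (nat_lit 121364) (nat_lit 9) (node (nat_lit 7) (nat_lit 121419)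
  (nat_lit 10) (node (nat_lit 4) (nat_lit 120706) (nat_lit 11) (node (nat_lit 5) (nat_lit 118556)
  (nat_lit 12) nil nil) nil) nil) (node (nat_lit 10) (nat_lit 123674) (nat_lit 9) nil nil))) (node
  (nat_lit 4) (nat_lit 121725) (nat_lit 8) (node (nat_lit 5) (nat_lit 119463) (nat_lit 9) (node
  (nat_lit 7) (nat_lit 119290) (nat_lit 10) (node (nat_lit 4) (nat_lit 117723) (nat_lit 11) nil
  nil) nil) (node (nat_lit 7) (nat_lit 121760) (nat_lit 9) (node (nat_lit 4) (nat_lit 118552)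
  (nat_lit 10) (node (nat_lit 5) (nat_lit 114608) (nat_lit 11) nil nil) nil) (node (nat_lit 10)
  (nat_lit 123674) (nat_lit 9) nil nil))) (node (nat_lit 7) (nat_lit 125814) (nat_lit 8) (node
  (nat_lit 4) (nat_lit 126328) (nat_lit 9) nil (node (nat_lit 5) (nat_lit 124183) (nat_lit 9)
  (node (nat_lit 4) (nat_lit 121283) (nat_lit 10) (node (nat_lit 7) (nat_lit 121562) (nat_lit 11)
  nil nil) (node (nat_lit 7) (nat_lit 124010) (nat_lit 10) (node (nat_lit 4) (nat_lit 122443)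
  (nat_lit 11) nil nil) nil)) nil)) (node (nat_lit 0) (nat_lit 125814) (nat_lit 8) (node (nat_lit
  5) (nat_lit 124183) (nat_lit 9) nil (node (nat_lit 4) (nat_lit 124183) (nat_lit 9) nil nil))
  nil)))) nil)) (node (nat_lit 4) (nat_lit 0) (nat_lit 6) (node (nat_lit 5) (nat_lit 0) (nat_lit
  7) (node (nat_lit 7) (nat_lit 0) (nat_lit 8) (node (nat_lit 0) (nat_lit 0) (nat_lit 9) (node
  (nat_lit 7) (nat_lit 0) (nat_lit 10) (node (nat_lit 5) (nat_lit 121254) (nat_lit 11) (node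
  (nat_lit 7) (nat_lit 122806) (nat_lit 12) nil nil) (node (nat_lit 4) (nat_lit 124876) (nat_lit
  11) nil (node (nat_lit 0) (nat_lit 124876) (nat_lit 11) nil nil))) (node (nat_lit 5) (nat_lit
  121237) (nat_lit 10) (node (nat_lit 7) (nat_lit 123246) (nat_lit 11) nil (node (nat_lit 4)
  (nat_lit 119580) (nat_lit 11) (node (nat_lit 7) (nat_lit 121133) (nat_lit 12) nil nil) (node
  (nat_lit 12) (nat_lit 123202) (nat_lit 11) nil nil))) (node (nat_lit 4) (nat_lit 121237)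
  (nat_lit 10) (node (nat_lit 7) (nat_lit 120374) (nat_lit 11) (node (nat_lit 4) (nat_lit 119826)
  (nat_lit 12) nil nil) (node (nat_lit 5) (nat_lit 119580) (nat_lit 11) nil nil)) (node (nat_lit
  0) (nat_lit 122911) (nat_lit 10) nil nil)))) (node (nat_lit 5) (nat_lit 0) (nat_lit 9) (node
  (nat_lit 0) (nat_lit 124714) (nat_lit 10) (node (nat_lit 7) (nat_lit 126106) (nat_lit 11) (node
  (nat_lit 5) (nat_lit 125401) (nat_lit 12) (node (nat_lit 7) (nat_lit 125925) (nat_lit 13) (node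
  (nat_lit 4) (nat_lit 126053) (nat_lit 14) (node (nat_lit 5) (nat_lit 125968) (nat_lit 15) nil
  nil) nil) nil) nil) (node (nat_lit 5) (nat_lit 123057) (nat_lit 11) (node (nat_lit 7) (nat_lit
  124340) (nat_lit 12) nil nil) nil)) nil) (node (nat_lit 4) (nat_lit 0) (nat_lit 9) (node
  (nat_lit 0) (nat_lit 125164) (nat_lit 10) (node (nat_lit 7) (nat_lit 126106) (nat_lit 11) (node
  (nat_lit 4) (nat_lit 126328) (nat_lit 12) nil nil) (node (nat_lit 4) (nat_lit 124371) (nat_lit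
  11) (node (nat_lit 7) (nat_lit 124985) (nat_lit 12) nil nil) (node (nat_lit 5) (nat_lit 124371)
  (nat_lit 11) nil nil))) nil) nil))) (node (nat_lit 0) (nat_lit 0) (nat_lit 8) (node (nat_lit 7)
  (nat_lit 126089) (nat_lit 9) (node (nat_lit 11) (nat_lit 126328) (nat_lit 10) (node (nat_lit 5)
  (nat_lit 124769) (nat_lit 11) (node (nat_lit 7) (nat_lit 125123) (nat_lit 12) (node (nat_lit 4)
  (nat_lit 124649) (nat_lit 13) nil nil) nil) (node (nat_lit 4) (nat_lit 124769) (nat_lit 11) nil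
  nil)) (node (nat_lit 5) (nat_lit 123189) (nat_lit 10) (node (nat_lit 7) (nat_lit 123468)
  (nat_lit 11) (node (nat_lit 4) (nat_lit 122173) (nat_lit 12) (node (nat_lit 5) (nat_lit 120949)
  (nat_lit 13) nil nil) nil) nil) (node (nat_lit 4) (nat_lit 126328) (nat_lit 10) nil nil))) (node
  (nat_lit 4) (nat_lit 121312) (nat_lit 9) (node (nat_lit 11) (nat_lit 122297) (nat_lit 10) (node
  (nat_lit 5) (nat_lit 123163) (nat_lit 11) (node (nat_lit 4) (nat_lit 121406) (nat_lit 12) nil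
  nil) (node (nat_lit 7) (nat_lit 123163) (nat_lit 11) (node (nat_lit 4) (nat_lit 123948) (nat_lit
  12) nil nil) nil)) (node (nat_lit 5) (nat_lit 122297) (nat_lit 10) (node (nat_lit 7) (nat_lit
  123322) (nat_lit 11) (node (nat_lit 4) (nat_lit 119880) (nat_lit 12) nil nil) (node (nat_lit 4)
  (nat_lit 119992) (nat_lit 11) (node (nat_lit 7) (nat_lit 120346) (nat_lit 12) nil nil) nil))
  (node (nat_lit 7) (nat_lit 121063) (nat_lit 10) (node (nat_lit 4) (nat_lit 119188) (nat_lit 11)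
  (node (nat_lit 5) (nat_lit 116423) (nat_lit 12) nil nil) nil) nil))) (node (nat_lit 0) (nat_lit
  123273) (nat_lit 9) (node (nat_lit 11) (nat_lit 124258) (nat_lit 10) nil (node (nat_lit 5)
  (nat_lit 120374) (nat_lit 10) nil (node (nat_lit 7) (nat_lit 124258) (nat_lit 10) nil (node
  (nat_lit 4) (nat_lit 120374) (nat_lit 10) nil nil)))) (node (nat_lit 5) (nat_lit 0) (nat_lit 9)
  (node (nat_lit 7) (nat_lit 120491) (nat_lit 10) (node (nat_lit 4) (nat_lit 118617) (nat_lit 11)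
  (node (nat_lit 5) (nat_lit 115852) (nat_lit 12) nil nil) nil) (node (nat_lit 4) (nat_lit 122297)
  (nat_lit 10) (node (nat_lit 7) (nat_lit 123188) (nat_lit 11) nil nil) (node (nat_lit 0) (nat_lit
  122297) (nat_lit 10) nil nil))) nil)))) nil)) (node (nat_lit 0) (nat_lit 0) (nat_lit 7) (node
  (nat_lit 5) (nat_lit 122157) (nat_lit 8) (node (nat_lit 7) (nat_lit 123204) (nat_lit 9) (node
  (nat_lit 4) (nat_lit 119015) (nat_lit 10) (node (nat_lit 5) (nat_lit 114953) (nat_lit 11) (node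
  (nat_lit 4) (nat_lit 92468) (nat_lit 12) (node (nat_lit 7) (nat_lit 68381) (nat_lit 13) (node
  (nat_lit 5) (nat_lit 7300) (nat_lit 14) nil nil) nil) nil) nil) nil) (node (nat_lit 4) (nat_lit
  121364) (nat_lit 9) (node (nat_lit 7) (nat_lit 120862) (nat_lit 10) (node (nat_lit 4) (nat_lit
  119295) (nat_lit 11) (node (nat_lit 5) (nat_lit 116223) (nat_lit 12) nil nil) nil) nil) (node
  (nat_lit 10) (nat_lit 123674) (nat_lit 9) nil nil))) (node (nat_lit 4) (nat_lit 122157) (nat_lit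
  8) (node (nat_lit 7) (nat_lit 123204) (nat_lit 9) (node (nat_lit 5) (nat_lit 121815) (nat_lit
  10) (node (nat_lit 7) (nat_lit 121950) (nat_lit 11) (node (nat_lit 4) (nat_lit 121197) (nat_lit
  12) nil nil) nil) (node (nat_lit 4) (nat_lit 118282) (nat_lit 10) (node (nat_lit 5) (nat_lit
  114525) (nat_lit 11) nil nil) nil)) (node (nat_lit 5) (nat_lit 121364) (nat_lit 9) (node
  (nat_lit 7) (nat_lit 121419) (nat_lit 10) (node (nat_lit 4) (nat_lit 120067) (nat_lit 11) nil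
  nil) nil) nil)) (node (nat_lit 7) (nat_lit 124129) (nat_lit 8) (node (nat_lit 5) (nat_lit
  121866) (nat_lit 9) (node (nat_lit 4) (nat_lit 118967) (nat_lit 10) (node (nat_lit 7) (nat_lit
  119245) (nat_lit 11) nil nil) (node (nat_lit 7) (nat_lit 121694) (nat_lit 10) (node (nat_lit 4)
  (nat_lit 120127) (nat_lit 11) nil nil) nil)) (node (nat_lit 4) (nat_lit 126328) (nat_lit 9) nil
  (node (nat_lit 10) (nat_lit 126328) (nat_lit 9) nil nil))) (node (nat_lit 0) (nat_lit 123297)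
  (nat_lit 8) (node (nat_lit 5) (nat_lit 121035) (nat_lit 9) nil (node (nat_lit 7) (nat_lit
  125857) (nat_lit 9) nil (node (nat_lit 4) (nat_lit 121035) (nat_lit 9) nil nil))) nil)))) nil))
  nil)) (node (nat_lit 4) (nat_lit 0) (nat_lit 5) (node (nat_lit 5) (nat_lit 0) (nat_lit 6) (node
  (nat_lit 7) (nat_lit 0) (nat_lit 7) (node (nat_lit 0) (nat_lit 0) (nat_lit 8) (node (nat_lit 4)
  (nat_lit 49916) (nat_lit 9) (node (nat_lit 11) (nat_lit 50900) (nat_lit 10) (node (nat_lit 7)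
  (nat_lit 51766) (nat_lit 11) (node (nat_lit 4) (nat_lit 52552) (nat_lit 12) nil nil) (node
  (nat_lit 5) (nat_lit 51766) (nat_lit 11) (node (nat_lit 4) (nat_lit 50009) (nat_lit 12) nil nil)
  nil)) (node (nat_lit 5) (nat_lit 50900) (nat_lit 10) (node (nat_lit 7) (nat_lit 51766) (nat_lit
  11) (node (nat_lit 4) (nat_lit 45845) (nat_lit 12) nil nil) (node (nat_lit 4) (nat_lit 48596)
  (nat_lit 11) (node (nat_lit 7) (nat_lit 48950) (nat_lit 12) nil nil) nil)) (node (nat_lit 7)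
  (nat_lit 50900) (nat_lit 10) (node (nat_lit 4) (nat_lit 52231) (nat_lit 11) (node (nat_lit 5)
  (nat_lit 53016) (nat_lit 12) (node (nat_lit 4) (nat_lit 34481) (nat_lit 13) nil nil) nil) nil)
  nil))) (node (nat_lit 5) (nat_lit 45311) (nat_lit 9) (node (nat_lit 11) (nat_lit 46295) (nat_lit
  10) (node (nat_lit 7) (nat_lit 47161) (nat_lit 11) (node (nat_lit 5) (nat_lit 47946) (nat_lit
  12) (node (nat_lit 7) (nat_lit 45643) (nat_lit 13) nil nil) nil) (node (nat_lit 4) (nat_lit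
  49639) (nat_lit 11) (node (nat_lit 5) (nat_lit 47882) (nat_lit 12) nil nil) nil)) (node (nat_lit
  4) (nat_lit 50408) (nat_lit 10) (node (nat_lit 7) (nat_lit 51274) (nat_lit 11) (node (nat_lit 4)
  (nat_lit 45353) (nat_lit 12) (node (nat_lit 5) (nat_lit 44797) (nat_lit 13) nil nil) nil) (node
  (nat_lit 5) (nat_lit 48103) (nat_lit 11) (node (nat_lit 7) (nat_lit 48457) (nat_lit 12) nil nil)
  nil)) (node (nat_lit 7) (nat_lit 46295) (nat_lit 10) (node (nat_lit 4) (nat_lit 48187) (nat_lit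
  11) (node (nat_lit 5) (nat_lit 45275) (nat_lit 12) nil nil) (node (nat_lit 5) (nat_lit 47161)
  (nat_lit 11) nil nil)) nil))) (node (nat_lit 7) (nat_lit 0) (nat_lit 9) (node (nat_lit 5)
  (nat_lit 46295) (nat_lit 10) (node (nat_lit 7) (nat_lit 47161) (nat_lit 11) (node (nat_lit 4)
  (nat_lit 41240) (nat_lit 12) nil nil) (node (nat_lit 4) (nat_lit 43991) (nat_lit 11) nil nil))
  (node (nat_lit 4) (nat_lit 50408) (nat_lit 10) nil (node (nat_lit 0) (nat_lit 46295) (nat_lit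
  10) nil nil))) (node (nat_lit 0) (nat_lit 49644) (nat_lit 9) (node (nat_lit 11) (nat_lit 50628)
  (nat_lit 10) (node (nat_lit 7) (nat_lit 51494) (nat_lit 11) nil nil) (node (nat_lit 7) (nat_lit
  50628) (nat_lit 10) (node (nat_lit 12) (nat_lit 51494) (nat_lit 11) nil nil) (node (nat_lit 4)
  (nat_lit 50888) (nat_lit 10) nil (node (nat_lit 5) (nat_lit 50628) (nat_lit 10) nil nil))))
  nil)))) (node (nat_lit 4) (nat_lit 0) (nat_lit 8) (node (nat_lit 0) (nat_lit 0) (nat_lit 9)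
  (node (nat_lit 4) (nat_lit 0) (nat_lit 10) (node (nat_lit 5) (nat_lit 49005) (nat_lit 11) (node
  (nat_lit 7) (nat_lit 50537) (nat_lit 12) (node (nat_lit 4) (nat_lit 46914) (nat_lit 13) nil nil)
  (node (nat_lit 4) (nat_lit 47727) (nat_lit 12) (node (nat_lit 12) (nat_lit 48926) (nat_lit 13)
  nil nil) (node (nat_lit 12) (nat_lit 50537) (nat_lit 12) nil (node (nat_lit 0) (nat_lit 50537)
  (nat_lit 12) nil nil)))) (node (nat_lit 7) (nat_lit 49005) (nat_lit 11) (node (nat_lit 12)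
  (nat_lit 50537) (nat_lit 12) (node (nat_lit 4) (nat_lit 51667) (nat_lit 13) nil nil) (node
  (nat_lit 4) (nat_lit 49096) (nat_lit 12) (node (nat_lit 12) (nat_lit 50004) (nat_lit 13) nil
  (node (nat_lit 5) (nat_lit 49233) (nat_lit 13) nil nil)) (node (nat_lit 5) (nat_lit 48650)
  (nat_lit 12) (node (nat_lit 7) (nat_lit 48796) (nat_lit 13) nil nil) nil))) (node (nat_lit 0)
  (nat_lit 49005) (nat_lit 11) (node (nat_lit 12) (nat_lit 50537) (nat_lit 12) nil (node (nat_lit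
  4) (nat_lit 47727) (nat_lit 12) nil nil)) nil))) (node (nat_lit 7) (nat_lit 46446) (nat_lit 10)
  (node (nat_lit 12) (nat_lit 48411) (nat_lit 11) (node (nat_lit 4) (nat_lit 50899) (nat_lit 12)
  (node (nat_lit 12) (nat_lit 52098) (nat_lit 13) nil nil) nil) (node (nat_lit 4) (nat_lit 48411)
  (nat_lit 11) (node (nat_lit 7) (nat_lit 49943) (nat_lit 12) nil nil) (node (nat_lit 5) (nat_lit
  48411) (nat_lit 11) (node (nat_lit 4) (nat_lit 47133) (nat_lit 12) nil nil) nil))) (node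
  (nat_lit 5) (nat_lit 46446) (nat_lit 10) (node (nat_lit 4) (nat_lit 46404) (nat_lit 11) nil
  (node (nat_lit 7) (nat_lit 48411) (nat_lit 11) nil (node (nat_lit 12) (nat_lit 48411) (nat_lit
  11) (node (nat_lit 4) (nat_lit 47133) (nat_lit 12) nil nil) nil))) (node (nat_lit 0) (nat_lit
  46446) (nat_lit 10) (node (nat_lit 4) (nat_lit 44789) (nat_lit 11) (node (nat_lit 12) (nat_lit
  46322) (nat_lit 12) nil nil) (node (nat_lit 12) (nat_lit 48411) (nat_lit 11) nil nil)) nil))))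
  (node (nat_lit 7) (nat_lit 0) (nat_lit 9) (node (nat_lit 0) (nat_lit 46446) (nat_lit 10) (node
  (nat_lit 4) (nat_lit 49208) (nat_lit 11) (node (nat_lit 7) (nat_lit 50741) (nat_lit 12) (node
  (nat_lit 4) (nat_lit 50793) (nat_lit 13) (node (nat_lit 5) (nat_lit 50947) (nat_lit 14) nil nil)
  (node (nat_lit 5) (nat_lit 50056) (nat_lit 13) nil nil)) (node (nat_lit 13) (nat_lit 50741)
  (nat_lit 12) nil nil)) (node (nat_lit 7) (nat_lit 48411) (nat_lit 11) (node (nat_lit 4) (nat_lit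
  50899) (nat_lit 12) (node (nat_lit 13) (nat_lit 52098) (nat_lit 13) nil nil) nil) nil)) nil)
  nil)) (node (nat_lit 5) (nat_lit 0) (nat_lit 8) (node (nat_lit 0) (nat_lit 0) (nat_lit 9) (node
  (nat_lit 5) (nat_lit 0) (nat_lit 10) (node (nat_lit 7) (nat_lit 43679) (nat_lit 11) (node
  (nat_lit 4) (nat_lit 47846) (nat_lit 12) (node (nat_lit 5) (nat_lit 48462) (nat_lit 13) (node
  (nat_lit 4) (nat_lit 36069) (nat_lit 14) nil nil) nil) (node (nat_lit 12) (nat_lit 45212)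
  (nat_lit 12) (node (nat_lit 5) (nat_lit 47682) (nat_lit 13) (node (nat_lit 12) (nat_lit 48616)
  (nat_lit 14) nil nil) (node (nat_lit 7) (nat_lit 46410) (nat_lit 13) nil nil)) (node (nat_lit 5)
  (nat_lit 45212) (nat_lit 12) nil (node (nat_lit 0) (nat_lit 45212) (nat_lit 12) nil nil))))
  (node (nat_lit 4) (nat_lit 48160) (nat_lit 11) (node (nat_lit 7) (nat_lit 49693) (nat_lit 12)
  (node (nat_lit 4) (nat_lit 50467) (nat_lit 13) nil nil) (node (nat_lit 5) (nat_lit 47927)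
  (nat_lit 12) (node (nat_lit 12) (nat_lit 49125) (nat_lit 13) nil nil) (node (nat_lit 12)
  (nat_lit 49693) (nat_lit 12) nil (node (nat_lit 0) (nat_lit 49693) (nat_lit 12) nil nil))))
  (node (nat_lit 0) (nat_lit 48160) (nat_lit 11) (node (nat_lit 12) (nat_lit 49693) (nat_lit 12)
  (node (nat_lit 5) (nat_lit 48740) (nat_lit 13) nil nil) (node (nat_lit 5) (nat_lit 46883)
  (nat_lit 12) nil nil)) nil))) (node (nat_lit 7) (nat_lit 41714) (nat_lit 10) (node (nat_lit 12)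
  (nat_lit 43679) (nat_lit 11) (node (nat_lit 5) (nat_lit 45212) (nat_lit 12) (node (nat_lit 12)
  (nat_lit 47114) (nat_lit 13) (node (nat_lit 7) (nat_lit 47603) (nat_lit 14) nil nil) nil) nil)
  (node (nat_lit 5) (nat_lit 43679) (nat_lit 11) (node (nat_lit 7) (nat_lit 45212) (nat_lit 12)
  (node (nat_lit 12) (nat_lit 46410) (nat_lit 13) nil nil) nil) (node (nat_lit 4) (nat_lit 48160)
  (nat_lit 11) nil nil))) (node (nat_lit 4) (nat_lit 45827) (nat_lit 10) (node (nat_lit 5)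
  (nat_lit 46079) (nat_lit 11) nil (node (nat_lit 7) (nat_lit 47792) (nat_lit 11) nil (node
  (nat_lit 12) (nat_lit 47792) (nat_lit 11) (node (nat_lit 5) (nat_lit 46514) (nat_lit 12) nil
  nil) nil))) (node (nat_lit 0) (nat_lit 45827) (nat_lit 10) (node (nat_lit 5) (nat_lit 45172)
  (nat_lit 11) (node (nat_lit 12) (nat_lit 46704) (nat_lit 12) nil nil) (node (nat_lit 12)
  (nat_lit 47792) (nat_lit 11) nil nil)) nil)))) (node (nat_lit 4) (nat_lit 0) (nat_lit 9) (node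
  (nat_lit 0) (nat_lit 47184) (nat_lit 10) (node (nat_lit 5) (nat_lit 49149) (nat_lit 11) (node
  (nat_lit 4) (nat_lit 49079) (nat_lit 12) (node (nat_lit 7) (nat_lit 49764) (nat_lit 13) nil
  (node (nat_lit 5) (nat_lit 48376) (nat_lit 13) nil nil)) nil) (node (nat_lit 7) (nat_lit 49149)
  (nat_lit 11) nil (node (nat_lit 4) (nat_lit 49612) (nat_lit 11) nil nil))) nil) nil)) nil)))
  (node (nat_lit 0) (nat_lit 0) (nat_lit 7) (node (nat_lit 4) (nat_lit 47425) (nat_lit 8) (node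
  (nat_lit 5) (nat_lit 49984) (nat_lit 9) (node (nat_lit 7) (nat_lit 50261) (nat_lit 10) (node
  (nat_lit 5) (nat_lit 50896) (nat_lit 11) nil (node (nat_lit 4) (nat_lit 48959) (nat_lit 11) nil
  nil)) nil) (node (nat_lit 7) (nat_lit 49984) (nat_lit 9) (node (nat_lit 5) (nat_lit 50400)
  (nat_lit 10) (node (nat_lit 7) (nat_lit 47363) (nat_lit 11) nil nil) (node (nat_lit 4) (nat_lit
  50473) (nat_lit 10) (node (nat_lit 5) (nat_lit 47210) (nat_lit 11) nil nil) nil)) (node (nat_lit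
  10) (nat_lit 49984) (nat_lit 9) nil nil))) (node (nat_lit 5) (nat_lit 44314) (nat_lit 8) (node
  (nat_lit 7) (nat_lit 46873) (nat_lit 9) (node (nat_lit 4) (nat_lit 49031) (nat_lit 10) (node
  (nat_lit 5) (nat_lit 47210) (nat_lit 11) (node (nat_lit 4) (nat_lit 32330) (nat_lit 12) nil nil)
  nil) nil) (node (nat_lit 4) (nat_lit 48976) (nat_lit 9) (node (nat_lit 7) (nat_lit 49181)
  (nat_lit 10) (node (nat_lit 4) (nat_lit 47879) (nat_lit 11) (node (nat_lit 5) (nat_lit 46250)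
  (nat_lit 12) nil nil) nil) nil) nil)) (node (nat_lit 7) (nat_lit 44314) (nat_lit 8) (node
  (nat_lit 4) (nat_lit 49545) (nat_lit 9) (node (nat_lit 5) (nat_lit 50529) (nat_lit 10) (node
  (nat_lit 7) (nat_lit 51395) (nat_lit 11) nil nil) nil) (node (nat_lit 5) (nat_lit 46873)
  (nat_lit 9) (node (nat_lit 4) (nat_lit 46799) (nat_lit 10) (node (nat_lit 7) (nat_lit 45425)
  (nat_lit 11) nil nil) (node (nat_lit 7) (nat_lit 47858) (nat_lit 10) (node (nat_lit 4) (nat_lit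
  43057) (nat_lit 11) nil nil) nil)) (node (nat_lit 10) (nat_lit 46873) (nat_lit 9) (node (nat_lit
  5) (nat_lit 43974) (nat_lit 10) nil nil) nil))) (node (nat_lit 0) (nat_lit 47164) (nat_lit 8)
  (node (nat_lit 4) (nat_lit 44901) (nat_lit 9) nil (node (nat_lit 7) (nat_lit 49723) (nat_lit 9)
  nil (node (nat_lit 5) (nat_lit 44901) (nat_lit 9) nil nil))) nil)))) nil)) nil) nil))

noncomputable def c63 : Tr :=
  (node (nat_lit 3) (nat_lit 0) (nat_lit 1) (node (nat_lit 3) (nat_lit 0) (nat_lit 2) (node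
  (nat_lit 3) (nat_lit 0) (nat_lit 3) (node (nat_lit 4) (nat_lit 0) (nat_lit 4) (node (nat_lit 6)
  (nat_lit 0) (nat_lit 5) (node (nat_lit 5) (nat_lit 0) (nat_lit 6) t423 nil) (node (nat_lit 5)
  (nat_lit 0) (nat_lit 5) (node (nat_lit 4) (nat_lit 0) (nat_lit 6) (node (nat_lit 6) (nat_lit 0)
  (nat_lit 7) (node (nat_lit 5) (nat_lit 0) (nat_lit 8) (node (nat_lit 0) (nat_lit 0) (nat_lit 9)
  (node (nat_lit 5) (nat_lit 0) (nat_lit 10) (node (nat_lit 6) (nat_lit 47363) (nat_lit 11) (node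
  (nat_lit 5) (nat_lit 48543) (nat_lit 12) (node (nat_lit 4) (nat_lit 51547) (nat_lit 13) nil nil)
  (node (nat_lit 4) (nat_lit 50549) (nat_lit 12) nil (node (nat_lit 12) (nat_lit 48543) (nat_lit
  12) (node (nat_lit 5) (nat_lit 49466) (nat_lit 13) nil nil) nil))) (node (nat_lit 4) (nat_lit
  49204) (nat_lit 11) (node (nat_lit 6) (nat_lit 49240) (nat_lit 12) nil (node (nat_lit 5)
  (nat_lit 50384) (nat_lit 12) nil nil)) (node (nat_lit 0) (nat_lit 50469) (nat_lit 11) (node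
  (nat_lit 12) (nat_lit 51649) (nat_lit 12) nil (node (nat_lit 5) (nat_lit 51649) (nat_lit 12) nil
  nil)) nil))) (node (nat_lit 6) (nat_lit 45850) (nat_lit 10) (node (nat_lit 12) (nat_lit 47363)
  (nat_lit 11) (node (nat_lit 5) (nat_lit 48543) (nat_lit 12) nil nil) (node (nat_lit 5) (nat_lit
  47363) (nat_lit 11) nil (node (nat_lit 4) (nat_lit 49204) (nat_lit 11) nil nil))) (node (nat_lit
  4) (nat_lit 48752) (nat_lit 10) (node (nat_lit 5) (nat_lit 50264) (nat_lit 11) nil (node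
  (nat_lit 12) (nat_lit 50264) (nat_lit 11) nil (node (nat_lit 6) (nat_lit 50264) (nat_lit 11) nil
  nil))) (node (nat_lit 0) (nat_lit 48752) (nat_lit 10) (node (nat_lit 5) (nat_lit 50264) (nat_lit
  11) (node (nat_lit 12) (nat_lit 51444) (nat_lit 12) nil nil) (node (nat_lit 12) (nat_lit 50264)
  (nat_lit 11) nil nil)) nil)))) (node (nat_lit 6) (nat_lit 0) (nat_lit 9) (node (nat_lit 0)
  (nat_lit 45850) (nat_lit 10) (node (nat_lit 5) (nat_lit 47363) (nat_lit 11) (node (nat_lit 6)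
  (nat_lit 48543) (nat_lit 12) (node (nat_lit 5) (nat_lit 49466) (nat_lit 13) (node (nat_lit 13)
  (nat_lit 50184) (nat_lit 14) nil (node (nat_lit 4) (nat_lit 52340) (nat_lit 14) nil nil)) (node
  (nat_lit 4) (nat_lit 51600) (nat_lit 13) nil nil)) (node (nat_lit 13) (nat_lit 48543) (nat_lit
  12) nil nil)) (node (nat_lit 6) (nat_lit 47363) (nat_lit 11) (node (nat_lit 5) (nat_lit 48543)
  (nat_lit 12) (node (nat_lit 13) (nat_lit 49466) (nat_lit 13) nil nil) nil) nil)) nil) (node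
  (nat_lit 4) (nat_lit 0) (nat_lit 9) (node (nat_lit 0) (nat_lit 49178) (nat_lit 10) (node
  (nat_lit 5) (nat_lit 50691) (nat_lit 11) (node (nat_lit 4) (nat_lit 51871) (nat_lit 12) (node
  (nat_lit 6) (nat_lit 50948) (nat_lit 13) nil nil) nil) (node (nat_lit 4) (nat_lit 51172)
  (nat_lit 11) (node (nat_lit 5) (nat_lit 52352) (nat_lit 12) nil nil) (node (nat_lit 6) (nat_lit
  50691) (nat_lit 11) nil nil))) nil) nil))) (node (nat_lit 4) (nat_lit 0) (nat_lit 8) (node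
  (nat_lit 0) (nat_lit 0) (nat_lit 9) (node (nat_lit 4) (nat_lit 0) (nat_lit 10) (node (nat_lit 6)
  (nat_lit 50873) (nat_lit 11) (node (nat_lit 12) (nat_lit 52053) (nat_lit 12) (node (nat_lit 4)
  (nat_lit 52919) (nat_lit 13) (node (nat_lit 12) (nat_lit 53467) (nat_lit 14) nil nil) nil) (node
  (nat_lit 5) (nat_lit 51736) (nat_lit 12) (node (nat_lit 4) (nat_lit 51547) (nat_lit 13) nil nil)
  nil)) (node (nat_lit 5) (nat_lit 50873) (nat_lit 11) (node (nat_lit 6) (nat_lit 49855) (nat_lit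
  12) (node (nat_lit 5) (nat_lit 49896) (nat_lit 13) nil nil) (node (nat_lit 4) (nat_lit 52053)
  (nat_lit 12) nil (node (nat_lit 12) (nat_lit 52053) (nat_lit 12) nil (node (nat_lit 0) (nat_lit
  52053) (nat_lit 12) nil nil)))) (node (nat_lit 0) (nat_lit 50873) (nat_lit 11) (node (nat_lit
  12) (nat_lit 52053) (nat_lit 12) nil (node (nat_lit 4) (nat_lit 52053) (nat_lit 12) nil nil))
  nil))) (node (nat_lit 6) (nat_lit 48473) (nat_lit 10) (node (nat_lit 12) (nat_lit 49986)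
  (nat_lit 11) (node (nat_lit 4) (nat_lit 51166) (nat_lit 12) (node (nat_lit 12) (nat_lit 52088)
  (nat_lit 13) (node (nat_lit 6) (nat_lit 51402) (nat_lit 14) nil nil) nil) nil) (node (nat_lit 4)
  (nat_lit 49986) (nat_lit 11) (node (nat_lit 6) (nat_lit 48757) (nat_lit 12) nil nil) (node
  (nat_lit 5) (nat_lit 49986) (nat_lit 11) (node (nat_lit 4) (nat_lit 49644) (nat_lit 12) nil nil)
  nil))) (node (nat_lit 5) (nat_lit 48473) (nat_lit 10) (node (nat_lit 4) (nat_lit 49986) (nat_lit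
  11) nil (node (nat_lit 12) (nat_lit 49986) (nat_lit 11) nil (node (nat_lit 6) (nat_lit 47496)
  (nat_lit 11) nil nil))) (node (nat_lit 0) (nat_lit 48473) (nat_lit 10) (node (nat_lit 4)
  (nat_lit 49986) (nat_lit 11) nil (node (nat_lit 12) (nat_lit 49986) (nat_lit 11) nil nil))
  nil)))) (node (nat_lit 5) (nat_lit 0) (nat_lit 9) (node (nat_lit 0) (nat_lit 48473) (nat_lit 10)
  (node (nat_lit 4) (nat_lit 50813) (nat_lit 11) (node (nat_lit 5) (nat_lit 51993) (nat_lit 12)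
  (node (nat_lit 4) (nat_lit 52916) (nat_lit 13) nil (node (nat_lit 6) (nat_lit 51071) (nat_lit
  13) nil nil)) nil) (node (nat_lit 6) (nat_lit 49986) (nat_lit 11) nil (node (nat_lit 5) (nat_lit
  49986) (nat_lit 11) nil nil))) nil) nil)) (node (nat_lit 0) (nat_lit 0) (nat_lit 8) (node
  (nat_lit 5) (nat_lit 48055) (nat_lit 9) (node (nat_lit 6) (nat_lit 48917) (nat_lit 10) (node
  (nat_lit 5) (nat_lit 49674) (nat_lit 11) (node (nat_lit 4) (nat_lit 50244) (nat_lit 12) nil nil)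
  nil) (node (nat_lit 4) (nat_lit 48917) (nat_lit 10) nil (node (nat_lit 11) (nat_lit 48917)
  (nat_lit 10) nil nil))) (node (nat_lit 4) (nat_lit 50475) (nat_lit 9) (node (nat_lit 5) (nat_lit
  51337) (nat_lit 10) nil (node (nat_lit 6) (nat_lit 51337) (nat_lit 10) (node (nat_lit 5)
  (nat_lit 47383) (nat_lit 11) (node (nat_lit 4) (nat_lit 46229) (nat_lit 12) nil nil) nil) (node
  (nat_lit 11) (nat_lit 51337) (nat_lit 10) nil nil))) (node (nat_lit 6) (nat_lit 48055) (nat_lit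
  9) (node (nat_lit 4) (nat_lit 50547) (nat_lit 10) (node (nat_lit 6) (nat_lit 48365) (nat_lit 11)
  nil nil) (node (nat_lit 5) (nat_lit 48917) (nat_lit 10) (node (nat_lit 4) (nat_lit 48256)
  (nat_lit 11) nil nil) nil)) (node (nat_lit 0) (nat_lit 50368) (nat_lit 9) (node (nat_lit 5)
  (nat_lit 51230) (nat_lit 10) nil (node (nat_lit 4) (nat_lit 51230) (nat_lit 10) nil (node
  (nat_lit 6) (nat_lit 47628) (nat_lit 10) nil nil))) nil)))) nil))) (node (nat_lit 0) (nat_lit 0)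
  (nat_lit 7) (node (nat_lit 5) (nat_lit 47404) (nat_lit 8) (node (nat_lit 4) (nat_lit 50070)
  (nat_lit 9) (node (nat_lit 6) (nat_lit 50932) (nat_lit 10) (node (nat_lit 5) (nat_lit 51690)
  (nat_lit 11) nil nil) nil) (node (nat_lit 6) (nat_lit 49426) (nat_lit 9) (node (nat_lit 4)
  (nat_lit 50288) (nat_lit 10) nil (node (nat_lit 5) (nat_lit 50141) (nat_lit 10) (node (nat_lit
  4) (nat_lit 49284) (nat_lit 11) nil nil) nil)) (node (nat_lit 10) (nat_lit 49426) (nat_lit 9)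
  (node (nat_lit 4) (nat_lit 50288) (nat_lit 10) nil nil) nil))) (node (nat_lit 6) (nat_lit 47404)
  (nat_lit 8) (node (nat_lit 5) (nat_lit 49426) (nat_lit 9) (node (nat_lit 4) (nat_lit 51059)
  (nat_lit 10) (node (nat_lit 5) (nat_lit 49192) (nat_lit 11) (node (nat_lit 6) (nat_lit 39900)
  (nat_lit 12) (node (nat_lit 4) (nat_lit 13212) (nat_lit 13) nil nil) nil) nil) nil) (node
  (nat_lit 4) (nat_lit 49426) (nat_lit 9) (node (nat_lit 5) (nat_lit 50288) (nat_lit 10) nil nil)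
  (node (nat_lit 10) (nat_lit 49426) (nat_lit 9) nil nil))) (node (nat_lit 4) (nat_lit 48676)
  (nat_lit 8) (node (nat_lit 6) (nat_lit 50698) (nat_lit 9) (node (nat_lit 5) (nat_lit 50141)
  (nat_lit 10) (node (nat_lit 4) (nat_lit 49284) (nat_lit 11) (node (nat_lit 5) (nat_lit 47210)
  (nat_lit 12) nil nil) nil) nil) (node (nat_lit 5) (nat_lit 50698) (nat_lit 9) (node (nat_lit 6)
  (nat_lit 51560) (nat_lit 10) (node (nat_lit 5) (nat_lit 48117) (nat_lit 11) nil nil) nil) nil))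
  (node (nat_lit 0) (nat_lit 48634) (nat_lit 8) (node (nat_lit 5) (nat_lit 50656) (nat_lit 9) nil
  (node (nat_lit 6) (nat_lit 46184) (nat_lit 9) nil nil)) nil)))) nil)) nil) nil)) (node (nat_lit
  5) (nat_lit 0) (nat_lit 4) (node (nat_lit 4) (nat_lit 0) (nat_lit 5) t424 nil) nil)) (node
  (nat_lit 4) (nat_lit 0) (nat_lit 3) (node (nat_lit 3) (nat_lit 0) (nat_lit 4) t425 nil) nil))
  nil) nil)

noncomputable def t429 : Tr :=
  (node (nat_lit 6) (nat_lit 0) (nat_lit 5) (node (nat_lit 0) (nat_lit 0) (nat_lit 6) (node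
  (nat_lit 4) (nat_lit 0) (nat_lit 7) (node (nat_lit 6) (nat_lit 0) (nat_lit 8) (node (nat_lit 4)
  (nat_lit 79112) (nat_lit 9) (node (nat_lit 5) (nat_lit 84018) (nat_lit 10) (node (nat_lit 6)
  (nat_lit 86690) (nat_lit 11) (node (nat_lit 5) (nat_lit 86323) (nat_lit 12) (node (nat_lit 4)
  (nat_lit 85159) (nat_lit 13) (node (nat_lit 5) (nat_lit 84655) (nat_lit 14) (node (nat_lit 6)
  (nat_lit 81939) (nat_lit 15) (node (nat_lit 4) (nat_lit 77244) (nat_lit 16) (node (nat_lit 6)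
  (nat_lit 74731) (nat_lit 17) nil nil) nil) nil) nil) nil) (node (nat_lit 4) (nat_lit 88318)
  (nat_lit 12) (node (nat_lit 6) (nat_lit 87669) (nat_lit 13) (node (nat_lit 9) (nat_lit 42186)
  (nat_lit 14) (node (nat_lit 4) (nat_lit 42186) (nat_lit 15) nil nil) nil) nil) nil)) (node
  (nat_lit 4) (nat_lit 84405) (nat_lit 11) nil nil)) (node (nat_lit 9) (nat_lit 87993) (nat_lit
  10) nil nil)) (node (nat_lit 5) (nat_lit 78333) (nat_lit 9) (node (nat_lit 4) (nat_lit 82747)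
  (nat_lit 10) (node (nat_lit 6) (nat_lit 85917) (nat_lit 11) (node (nat_lit 4) (nat_lit 87655)
  (nat_lit 12) (node (nat_lit 5) (nat_lit 86090) (nat_lit 13) (node (nat_lit 6) (nat_lit 80470)
  (nat_lit 14) nil nil) nil) nil) nil) (node (nat_lit 6) (nat_lit 83651) (nat_lit 10) nil nil))
  (node (nat_lit 0) (nat_lit 82895) (nat_lit 9) nil nil))) (node (nat_lit 9) (nat_lit 85995)
  (nat_lit 8) (node (nat_lit 6) (nat_lit 85995) (nat_lit 9) (node (nat_lit 4) (nat_lit 85995)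
  (nat_lit 10) (node (nat_lit 6) (nat_lit 85995) (nat_lit 11) nil (node (nat_lit 5) (nat_lit
  85995) (nat_lit 11) nil nil)) (node (nat_lit 5) (nat_lit 85995) (nat_lit 10) nil nil)) (node
  (nat_lit 5) (nat_lit 85995) (nat_lit 9) (node (nat_lit 4) (nat_lit 85995) (nat_lit 10) nil nil)
  nil)) (node (nat_lit 5) (nat_lit 76038) (nat_lit 8) (node (nat_lit 6) (nat_lit 80515) (nat_lit
  9) (node (nat_lit 4) (nat_lit 84217) (nat_lit 10) nil (node (nat_lit 5) (nat_lit 84153) (nat_lit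
  10) (node (nat_lit 4) (nat_lit 84540) (nat_lit 11) nil nil) nil)) (node (nat_lit 4) (nat_lit
  80745) (nat_lit 9) (node (nat_lit 6) (nat_lit 84416) (nat_lit 10) (node (nat_lit 5) (nat_lit
  86630) (nat_lit 11) nil (node (nat_lit 4) (nat_lit 87263) (nat_lit 11) nil nil)) nil) (node
  (nat_lit 9) (nat_lit 87189) (nat_lit 9) nil nil))) (node (nat_lit 0) (nat_lit 83989) (nat_lit 8)
  nil nil)))) (node (nat_lit 5) (nat_lit 0) (nat_lit 7) (node (nat_lit 6) (nat_lit 0) (nat_lit 8)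
  (node (nat_lit 5) (nat_lit 80118) (nat_lit 9) (node (nat_lit 4) (nat_lit 87138) (nat_lit 10)
  (node (nat_lit 6) (nat_lit 90309) (nat_lit 11) (node (nat_lit 4) (nat_lit 91746) (nat_lit 12)
  (node (nat_lit 5) (nat_lit 83651) (nat_lit 13) nil nil) nil) (node (nat_lit 5) (nat_lit 89985)
  (nat_lit 11) nil nil)) (node (nat_lit 9) (nat_lit 88998) (nat_lit 10) nil nil)) (node (nat_lit
  4) (nat_lit 81099) (nat_lit 9) (node (nat_lit 5) (nat_lit 83359) (nat_lit 10) nil (node (nat_lit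
  6) (nat_lit 84771) (nat_lit 10) (node (nat_lit 5) (nat_lit 86984) (nat_lit 11) nil nil) nil))
  (node (nat_lit 9) (nat_lit 87170) (nat_lit 9) nil (node (nat_lit 0) (nat_lit 84195) (nat_lit 9)
  nil nil)))) (node (nat_lit 4) (nat_lit 0) (nat_lit 8) (node (nat_lit 5) (nat_lit 79965) (nat_lit
  9) (node (nat_lit 6) (nat_lit 81526) (nat_lit 10) nil nil) (node (nat_lit 6) (nat_lit 79840)
  (nat_lit 9) (node (nat_lit 5) (nat_lit 84446) (nat_lit 10) nil (node (nat_lit 4) (nat_lit 83542)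
  (nat_lit 10) nil nil)) (node (nat_lit 9) (nat_lit 86528) (nat_lit 9) nil (node (nat_lit 0)
  (nat_lit 83553) (nat_lit 9) nil nil)))) (node (nat_lit 9) (nat_lit 87363) (nat_lit 8) (node
  (nat_lit 6) (nat_lit 87363) (nat_lit 9) (node (nat_lit 5) (nat_lit 87363) (nat_lit 10) nil nil)
  (node (nat_lit 4) (nat_lit 87363) (nat_lit 9) (node (nat_lit 5) (nat_lit 87363) (nat_lit 10) nil
  nil) nil)) (node (nat_lit 0) (nat_lit 83685) (nat_lit 8) nil nil)))) (node (nat_lit 6) (nat_lit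
  0) (nat_lit 7) (node (nat_lit 4) (nat_lit 0) (nat_lit 8) (node (nat_lit 5) (nat_lit 78589)
  (nat_lit 9) (node (nat_lit 6) (nat_lit 79245) (nat_lit 10) (node (nat_lit 4) (nat_lit 82092)
  (nat_lit 11) (node (nat_lit 6) (nat_lit 82041) (nat_lit 12) (node (nat_lit 9) (nat_lit 35354)
  (nat_lit 13) nil nil) nil) nil) (node (nat_lit 4) (nat_lit 81635) (nat_lit 10) (node (nat_lit 6)
  (nat_lit 77811) (nat_lit 11) nil nil) nil)) (node (nat_lit 6) (nat_lit 76924) (nat_lit 9) (node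
  (nat_lit 5) (nat_lit 80626) (nat_lit 10) nil nil) (node (nat_lit 9) (nat_lit 84700) (nat_lit 9)
  nil (node (nat_lit 0) (nat_lit 81725) (nat_lit 9) nil nil)))) (node (nat_lit 5) (nat_lit 74725)
  (nat_lit 8) (node (nat_lit 6) (nat_lit 77773) (nat_lit 9) (node (nat_lit 4) (nat_lit 81475)
  (nat_lit 10) nil nil) (node (nat_lit 4) (nat_lit 77049) (nat_lit 9) (node (nat_lit 5) (nat_lit
  80751) (nat_lit 10) nil (node (nat_lit 6) (nat_lit 80751) (nat_lit 10) nil nil)) (node (nat_lit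
  9) (nat_lit 82902) (nat_lit 9) nil nil))) (node (nat_lit 0) (nat_lit 84440) (nat_lit 8) nil
  nil))) (node (nat_lit 0) (nat_lit 0) (nat_lit 7) (node (nat_lit 6) (nat_lit 80001) (nat_lit 8)
  (node (nat_lit 10) (nat_lit 85749) (nat_lit 9) nil (node (nat_lit 0) (nat_lit 84475) (nat_lit 9)
  nil nil)) (node (nat_lit 9) (nat_lit 86778) (nat_lit 8) (node (nat_lit 6) (nat_lit 86778)
  (nat_lit 9) nil (node (nat_lit 4) (nat_lit 86778) (nat_lit 9) nil (node (nat_lit 5) (nat_lit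
  86778) (nat_lit 9) nil nil))) (node (nat_lit 4) (nat_lit 79226) (nat_lit 8) nil (node (nat_lit
  5) (nat_lit 79226) (nat_lit 8) nil (node (nat_lit 0) (nat_lit 82073) (nat_lit 8) nil nil)))))
  nil)))) (node (nat_lit 5) (nat_lit 0) (nat_lit 6) (node (nat_lit 0) (nat_lit 0) (nat_lit 7)
  (node (nat_lit 5) (nat_lit 0) (nat_lit 8) (node (nat_lit 6) (nat_lit 68038) (nat_lit 9) (node
  (nat_lit 4) (nat_lit 71906) (nat_lit 10) (node (nat_lit 6) (nat_lit 77104) (nat_lit 11) (node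
  (nat_lit 5) (nat_lit 75320) (nat_lit 12) nil nil) (node (nat_lit 5) (nat_lit 76537) (nat_lit 11)
  (node (nat_lit 4) (nat_lit 76352) (nat_lit 12) nil nil) (node (nat_lit 10) (nat_lit 77706)
  (nat_lit 11) nil (node (nat_lit 0) (nat_lit 77706) (nat_lit 11) nil nil)))) (node (nat_lit 5)
  (nat_lit 72056) (nat_lit 10) (node (nat_lit 10) (nat_lit 81287) (nat_lit 11) nil (node (nat_lit
  4) (nat_lit 72813) (nat_lit 11) nil nil)) (node (nat_lit 10) (nat_lit 80066) (nat_lit 10) (node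
  (nat_lit 5) (nat_lit 80673) (nat_lit 11) (node (nat_lit 10) (nat_lit 81855) (nat_lit 12) nil
  nil) nil) (node (nat_lit 0) (nat_lit 78757) (nat_lit 10) nil nil)))) (node (nat_lit 4) (nat_lit
  67984) (nat_lit 9) (node (nat_lit 6) (nat_lit 72037) (nat_lit 10) (node (nat_lit 4) (nat_lit
  75347) (nat_lit 11) nil (node (nat_lit 5) (nat_lit 76575) (nat_lit 11) nil (node (nat_lit 0)
  (nat_lit 77837) (nat_lit 11) nil (node (nat_lit 10) (nat_lit 77837) (nat_lit 11) nil nil))))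
  (node (nat_lit 5) (nat_lit 72693) (nat_lit 10) (node (nat_lit 6) (nat_lit 74302) (nat_lit 11)
  nil (node (nat_lit 10) (nat_lit 81259) (nat_lit 11) nil (node (nat_lit 0) (nat_lit 78492)
  (nat_lit 11) nil nil))) (node (nat_lit 10) (nat_lit 79137) (nat_lit 10) nil (node (nat_lit 0)
  (nat_lit 80051) (nat_lit 10) nil nil)))) (node (nat_lit 0) (nat_lit 76479) (nat_lit 9) (node
  (nat_lit 10) (nat_lit 78792) (nat_lit 10) nil (node (nat_lit 5) (nat_lit 76479) (nat_lit 10) nil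
  (node (nat_lit 0) (nat_lit 77183) (nat_lit 10) nil nil))) nil))) (node (nat_lit 6) (nat_lit 0)
  (nat_lit 8) (node (nat_lit 10) (nat_lit 76557) (nat_lit 9) (node (nat_lit 5) (nat_lit 76286)
  (nat_lit 10) (node (nat_lit 10) (nat_lit 80615) (nat_lit 11) (node (nat_lit 6) (nat_lit 80615)
  (nat_lit 12) nil nil) nil) nil) (node (nat_lit 5) (nat_lit 67924) (nat_lit 9) (node (nat_lit 6)
  (nat_lit 72255) (nat_lit 10) (node (nat_lit 10) (nat_lit 79045) (nat_lit 11) nil nil) nil) (node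
  (nat_lit 4) (nat_lit 63166) (nat_lit 9) nil (node (nat_lit 0) (nat_lit 69950) (nat_lit 9) nil
  nil)))) (node (nat_lit 0) (nat_lit 69772) (nat_lit 8) (node (nat_lit 5) (nat_lit 69828) (nat_lit
  9) (node (nat_lit 10) (nat_lit 73464) (nat_lit 10) nil nil) (node (nat_lit 10) (nat_lit 72093)
  (nat_lit 9) nil nil)) (node (nat_lit 4) (nat_lit 62372) (nat_lit 8) (node (nat_lit 5) (nat_lit
  67619) (nat_lit 9) (node (nat_lit 4) (nat_lit 67424) (nat_lit 10) (node (nat_lit 10) (nat_lit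
  73224) (nat_lit 11) nil nil) nil) (node (nat_lit 10) (nat_lit 75772) (nat_lit 9) (node (nat_lit
  5) (nat_lit 75772) (nat_lit 10) nil nil) (node (nat_lit 6) (nat_lit 62372) (nat_lit 9) nil
  nil))) nil)))) (node (nat_lit 6) (nat_lit 0) (nat_lit 7) (node (nat_lit 0) (nat_lit 0) (nat_lit
  8) (node (nat_lit 5) (nat_lit 69533) (nat_lit 9) (node (nat_lit 6) (nat_lit 72563) (nat_lit 10)
  (node (nat_lit 5) (nat_lit 76339) (nat_lit 11) (node (nat_lit 11) (nat_lit 85239) (nat_lit 12)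
  (node (nat_lit 6) (nat_lit 85491) (nat_lit 13) (node (nat_lit 5) (nat_lit 85491) (nat_lit 14)
  nil (node (nat_lit 11) (nat_lit 86303) (nat_lit 14) nil nil)) (node (nat_lit 5) (nat_lit 85294)
  (nat_lit 13) (node (nat_lit 6) (nat_lit 85294) (nat_lit 14) nil nil) nil)) (node (nat_lit 4)
  (nat_lit 80237) (nat_lit 12) (node (nat_lit 6) (nat_lit 82567) (nat_lit 13) nil (node (nat_lit
  5) (nat_lit 81512) (nat_lit 13) nil (node (nat_lit 11) (nat_lit 82580) (nat_lit 13) nil nil)))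
  (node (nat_lit 0) (nat_lit 84358) (nat_lit 12) nil nil))) (node (nat_lit 4) (nat_lit 76560)
  (nat_lit 11) (node (nat_lit 5) (nat_lit 80956) (nat_lit 12) (node (nat_lit 4) (nat_lit 82601)
  (nat_lit 13) (node (nat_lit 6) (nat_lit 80305) (nat_lit 14) nil nil) (node (nat_lit 6) (nat_lit
  80307) (nat_lit 13) nil (node (nat_lit 11) (nat_lit 85599) (nat_lit 13) nil nil))) (node
  (nat_lit 6) (nat_lit 80899) (nat_lit 12) (node (nat_lit 5) (nat_lit 80599) (nat_lit 13) nil nil)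
  (node (nat_lit 11) (nat_lit 84581) (nat_lit 12) nil (node (nat_lit 0) (nat_lit 81838) (nat_lit
  12) nil nil)))) (node (nat_lit 0) (nat_lit 81898) (nat_lit 11) nil nil))) (node (nat_lit 11)
  (nat_lit 78726) (nat_lit 10) (node (nat_lit 6) (nat_lit 78726) (nat_lit 11) nil nil) nil)) (node
  (nat_lit 6) (nat_lit 69330) (nat_lit 9) (node (nat_lit 5) (nat_lit 72572) (nat_lit 10) (node
  (nat_lit 11) (nat_lit 82116) (nat_lit 11) (node (nat_lit 5) (nat_lit 82116) (nat_lit 12) (node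
  (nat_lit 6) (nat_lit 82116) (nat_lit 13) (node (nat_lit 11) (nat_lit 83489) (nat_lit 14) nil
  nil) nil) nil) nil) nil) (node (nat_lit 4) (nat_lit 68881) (nat_lit 9) (node (nat_lit 6)
  (nat_lit 68881) (nat_lit 10) nil nil) (node (nat_lit 0) (nat_lit 68278) (nat_lit 9) nil nil))))
  nil) (node (nat_lit 4) (nat_lit 0) (nat_lit 7) (node (nat_lit 0) (nat_lit 59359) (nat_lit 8)
  (node (nat_lit 5) (nat_lit 61495) (nat_lit 9) (node (nat_lit 4) (nat_lit 63789) (nat_lit 10)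
  (node (nat_lit 5) (nat_lit 66860) (nat_lit 11) (node (nat_lit 6) (nat_lit 68721) (nat_lit 12)
  nil (node (nat_lit 11) (nat_lit 74880) (nat_lit 12) nil (node (nat_lit 0) (nat_lit 73494)
  (nat_lit 12) nil nil))) (node (nat_lit 6) (nat_lit 66460) (nat_lit 11) (node (nat_lit 11)
  (nat_lit 69974) (nat_lit 12) nil (node (nat_lit 5) (nat_lit 68088) (nat_lit 12) nil (node
  (nat_lit 4) (nat_lit 68088) (nat_lit 12) nil (node (nat_lit 0) (nat_lit 69974) (nat_lit 12) nil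
  nil)))) (node (nat_lit 0) (nat_lit 72516) (nat_lit 11) nil nil))) nil) (node (nat_lit 4)
  (nat_lit 59359) (nat_lit 9) (node (nat_lit 5) (nat_lit 59359) (nat_lit 10) nil nil) nil)) nil)
  nil))) nil)) (node (nat_lit 5) (nat_lit 0) (nat_lit 5) (node (nat_lit 0) (nat_lit 0) (nat_lit 6)
  (node (nat_lit 4) (nat_lit 0) (nat_lit 7) (node (nat_lit 5) (nat_lit 36590) (nat_lit 8) (node
  (nat_lit 6) (nat_lit 39353) (nat_lit 9) (node (nat_lit 4) (nat_lit 41061) (nat_lit 10) nil (node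
  (nat_lit 5) (nat_lit 41061) (nat_lit 10) nil nil)) (node (nat_lit 4) (nat_lit 40215) (nat_lit 9)
  (node (nat_lit 6) (nat_lit 41534) (nat_lit 10) (node (nat_lit 5) (nat_lit 41961) (nat_lit 11)
  nil (node (nat_lit 4) (nat_lit 42595) (nat_lit 11) nil nil)) (node (nat_lit 9) (nat_lit 44019)
  (nat_lit 10) nil nil)) nil)) (node (nat_lit 9) (nat_lit 42575) (nat_lit 8) (node (nat_lit 5)
  (nat_lit 42189) (nat_lit 9) (node (nat_lit 4) (nat_lit 41705) (nat_lit 10) (node (nat_lit 5)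
  (nat_lit 40617) (nat_lit 11) (node (nat_lit 6) (nat_lit 39649) (nat_lit 12) nil nil) (node
  (nat_lit 6) (nat_lit 41705) (nat_lit 11) nil nil)) (node (nat_lit 6) (nat_lit 42189) (nat_lit
  10) nil nil)) (node (nat_lit 6) (nat_lit 42575) (nat_lit 9) (node (nat_lit 4) (nat_lit 42575)
  (nat_lit 10) nil nil) nil)) (node (nat_lit 6) (nat_lit 0) (nat_lit 8) (node (nat_lit 5) (nat_lit
  39528) (nat_lit 9) (node (nat_lit 6) (nat_lit 41923) (nat_lit 10) (node (nat_lit 4) (nat_lit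
  42984) (nat_lit 11) nil nil) (node (nat_lit 4) (nat_lit 41235) (nat_lit 10) nil nil)) (node
  (nat_lit 4) (nat_lit 38176) (nat_lit 9) (node (nat_lit 5) (nat_lit 38977) (nat_lit 10) nil nil)
  (node (nat_lit 9) (nat_lit 43577) (nat_lit 9) nil (node (nat_lit 0) (nat_lit 40603) (nat_lit 9)
  nil nil)))) (node (nat_lit 0) (nat_lit 41125) (nat_lit 8) nil nil)))) (node (nat_lit 6) (nat_lit
  0) (nat_lit 7) (node (nat_lit 5) (nat_lit 0) (nat_lit 8) (node (nat_lit 6) (nat_lit 40005)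
  (nat_lit 9) (node (nat_lit 4) (nat_lit 40285) (nat_lit 10) (node (nat_lit 5) (nat_lit 41345)
  (nat_lit 11) nil (node (nat_lit 6) (nat_lit 39005) (nat_lit 11) nil nil)) (node (nat_lit 9)
  (nat_lit 44019) (nat_lit 10) nil nil)) (node (nat_lit 4) (nat_lit 40215) (nat_lit 9) (node
  (nat_lit 5) (nat_lit 41923) (nat_lit 10) (node (nat_lit 6) (nat_lit 40643) (nat_lit 11) nil nil)
  (node (nat_lit 6) (nat_lit 41923) (nat_lit 10) nil nil)) (node (nat_lit 9) (nat_lit 43104)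
  (nat_lit 9) nil (node (nat_lit 0) (nat_lit 40130) (nat_lit 9) nil nil)))) (node (nat_lit 4)
  (nat_lit 36814) (nat_lit 8) (node (nat_lit 5) (nat_lit 39918) (nat_lit 9) (node (nat_lit 6)
  (nat_lit 41923) (nat_lit 10) (node (nat_lit 4) (nat_lit 42984) (nat_lit 11) nil nil) (node
  (nat_lit 4) (nat_lit 41626) (nat_lit 10) nil nil)) (node (nat_lit 6) (nat_lit 40215) (nat_lit 9)
  (node (nat_lit 5) (nat_lit 41923) (nat_lit 10) nil nil) (node (nat_lit 9) (nat_lit 43268)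
  (nat_lit 9) nil nil))) (node (nat_lit 9) (nat_lit 42215) (nat_lit 8) (node (nat_lit 5) (nat_lit
  41830) (nat_lit 9) (node (nat_lit 6) (nat_lit 41295) (nat_lit 10) (node (nat_lit 5) (nat_lit
  41664) (nat_lit 11) (node (nat_lit 4) (nat_lit 42376) (nat_lit 12) nil nil) (node (nat_lit 4)
  (nat_lit 41295) (nat_lit 11) nil nil)) (node (nat_lit 4) (nat_lit 41830) (nat_lit 10) nil nil))
  (node (nat_lit 4) (nat_lit 42215) (nat_lit 9) (node (nat_lit 6) (nat_lit 42215) (nat_lit 10) nil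
  nil) nil)) (node (nat_lit 0) (nat_lit 40537) (nat_lit 8) nil nil)))) (node (nat_lit 5) (nat_lit
  0) (nat_lit 7) (node (nat_lit 6) (nat_lit 0) (nat_lit 8) (node (nat_lit 4) (nat_lit 40215)
  (nat_lit 9) (node (nat_lit 5) (nat_lit 41792) (nat_lit 10) nil (node (nat_lit 6) (nat_lit 41923)
  (nat_lit 10) (node (nat_lit 5) (nat_lit 42384) (nat_lit 11) (node (nat_lit 4) (nat_lit 41948)
  (nat_lit 12) (node (nat_lit 5) (nat_lit 39545) (nat_lit 13) (node (nat_lit 6) (nat_lit 36421)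
  (nat_lit 14) (node (nat_lit 4) (nat_lit 28864) (nat_lit 15) (node (nat_lit 5) (nat_lit 25146)
  (nat_lit 16) nil nil) nil) nil) nil) nil) nil) nil)) (node (nat_lit 5) (nat_lit 39001) (nat_lit
  9) (node (nat_lit 4) (nat_lit 40708) (nat_lit 10) nil nil) (node (nat_lit 9) (nat_lit 40076)
  (nat_lit 9) nil (node (nat_lit 0) (nat_lit 40076) (nat_lit 9) nil nil)))) (node (nat_lit 4)
  (nat_lit 36920) (nat_lit 8) (node (nat_lit 6) (nat_lit 39324) (nat_lit 9) (node (nat_lit 5)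
  (nat_lit 41923) (nat_lit 10) nil (node (nat_lit 4) (nat_lit 41923) (nat_lit 10) (node (nat_lit
  5) (nat_lit 42984) (nat_lit 11) nil nil) nil)) (node (nat_lit 5) (nat_lit 39402) (nat_lit 9)
  (node (nat_lit 6) (nat_lit 39712) (nat_lit 10) (node (nat_lit 4) (nat_lit 40773) (nat_lit 11)
  nil nil) (node (nat_lit 9) (nat_lit 43205) (nat_lit 10) nil nil)) (node (nat_lit 9) (nat_lit
  40400) (nat_lit 9) nil nil))) (node (nat_lit 0) (nat_lit 41453) (nat_lit 8) nil nil))) (node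
  (nat_lit 0) (nat_lit 0) (nat_lit 7) (node (nat_lit 5) (nat_lit 38961) (nat_lit 8) (node (nat_lit
  10) (nat_lit 43333) (nat_lit 9) nil nil) (node (nat_lit 9) (nat_lit 0) (nat_lit 8) (node
  (nat_lit 5) (nat_lit 42627) (nat_lit 9) nil (node (nat_lit 6) (nat_lit 42627) (nat_lit 9) nil
  (node (nat_lit 4) (nat_lit 42627) (nat_lit 9) nil (node (nat_lit 0) (nat_lit 43338) (nat_lit 9)
  nil nil)))) (node (nat_lit 4) (nat_lit 37942) (nat_lit 8) nil (node (nat_lit 6) (nat_lit 37942)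
  (nat_lit 8) nil (node (nat_lit 0) (nat_lit 39907) (nat_lit 8) nil nil))))) nil)))) (node
  (nat_lit 4) (nat_lit 0) (nat_lit 6) (node (nat_lit 0) (nat_lit 0) (nat_lit 7) (node (nat_lit 4)
  (nat_lit 0) (nat_lit 8) (node (nat_lit 6) (nat_lit 40066) (nat_lit 9) (node (nat_lit 5) (nat_lit
  41923) (nat_lit 10) (node (nat_lit 6) (nat_lit 42984) (nat_lit 11) nil nil) (node (nat_lit 4)
  (nat_lit 41492) (nat_lit 10) (node (nat_lit 5) (nat_lit 41464) (nat_lit 11) nil (node (nat_lit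
  10) (nat_lit 43873) (nat_lit 11) nil nil)) (node (nat_lit 0) (nat_lit 43761) (nat_lit 10) nil
  (node (nat_lit 10) (nat_lit 43761) (nat_lit 10) nil nil)))) (node (nat_lit 5) (nat_lit 39966)
  (nat_lit 9) (node (nat_lit 6) (nat_lit 41550) (nat_lit 10) (node (nat_lit 4) (nat_lit 42611)
  (nat_lit 11) nil (node (nat_lit 5) (nat_lit 42611) (nat_lit 11) nil nil)) (node (nat_lit 10)
  (nat_lit 44019) (nat_lit 10) nil (node (nat_lit 4) (nat_lit 39060) (nat_lit 10) nil (node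
  (nat_lit 0) (nat_lit 43661) (nat_lit 10) nil nil)))) (node (nat_lit 0) (nat_lit 43497) (nat_lit
  9) nil nil))) (node (nat_lit 5) (nat_lit 36835) (nat_lit 8) (node (nat_lit 10) (nat_lit 43695)
  (nat_lit 9) (node (nat_lit 4) (nat_lit 43695) (nat_lit 10) nil nil) (node (nat_lit 4) (nat_lit
  40048) (nat_lit 9) (node (nat_lit 5) (nat_lit 40956) (nat_lit 10) (node (nat_lit 10) (nat_lit
  44304) (nat_lit 11) nil nil) nil) nil)) (node (nat_lit 6) (nat_lit 36968) (nat_lit 8) (node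
  (nat_lit 4) (nat_lit 37154) (nat_lit 9) (node (nat_lit 6) (nat_lit 37154) (nat_lit 10) nil nil)
  (node (nat_lit 10) (nat_lit 42932) (nat_lit 9) nil nil)) (node (nat_lit 0) (nat_lit 39739)
  (nat_lit 8) (node (nat_lit 4) (nat_lit 39739) (nat_lit 9) (node (nat_lit 10) (nat_lit 40774)
  (nat_lit 10) nil nil) (node (nat_lit 10) (nat_lit 40451) (nat_lit 9) nil nil)) nil)))) (node
  (nat_lit 6) (nat_lit 0) (nat_lit 7) (node (nat_lit 0) (nat_lit 38357) (nat_lit 8) (node (nat_lit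
  4) (nat_lit 40524) (nat_lit 9) (node (nat_lit 6) (nat_lit 42984) (nat_lit 10) (node (nat_lit 4)
  (nat_lit 42984) (nat_lit 11) (node (nat_lit 5) (nat_lit 43695) (nat_lit 12) nil (node (nat_lit
  11) (nat_lit 44338) (nat_lit 12) nil (node (nat_lit 0) (nat_lit 44338) (nat_lit 12) nil nil)))
  (node (nat_lit 5) (nat_lit 42984) (nat_lit 11) (node (nat_lit 4) (nat_lit 43695) (nat_lit 12)
  nil (node (nat_lit 6) (nat_lit 43695) (nat_lit 12) nil (node (nat_lit 11) (nat_lit 44338)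
  (nat_lit 12) nil nil))) (node (nat_lit 0) (nat_lit 44304) (nat_lit 11) nil nil))) nil) (node
  (nat_lit 6) (nat_lit 40572) (nat_lit 9) (node (nat_lit 4) (nat_lit 40572) (nat_lit 10) (node
  (nat_lit 11) (nat_lit 41892) (nat_lit 11) nil nil) nil) nil)) nil) nil)) nil)) (node (nat_lit 0)
  (nat_lit 0) (nat_lit 5) (node (nat_lit 5) (nat_lit 0) (nat_lit 6) (node (nat_lit 6) (nat_lit
  73735) (nat_lit 7) (node (nat_lit 4) (nat_lit 79525) (nat_lit 8) (node (nat_lit 6) (nat_lit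
  83150) (nat_lit 9) (node (nat_lit 5) (nat_lit 83654) (nat_lit 10) (node (nat_lit 4) (nat_lit
  80470) (nat_lit 11) (node (nat_lit 5) (nat_lit 71710) (nat_lit 12) (node (nat_lit 6) (nat_lit
  69160) (nat_lit 13) nil nil) nil) nil) nil) (node (nat_lit 5) (nat_lit 82328) (nat_lit 9) nil
  nil)) (node (nat_lit 5) (nat_lit 80132) (nat_lit 8) (node (nat_lit 4) (nat_lit 79315) (nat_lit
  9) nil nil) (node (nat_lit 8) (nat_lit 89642) (nat_lit 8) nil nil))) (node (nat_lit 4) (nat_lit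
  73251) (nat_lit 7) (node (nat_lit 6) (nat_lit 80183) (nat_lit 8) (node (nat_lit 5) (nat_lit
  85714) (nat_lit 9) nil (node (nat_lit 4) (nat_lit 85714) (nat_lit 9) nil nil)) (node (nat_lit 5)
  (nat_lit 78502) (nat_lit 8) (node (nat_lit 6) (nat_lit 78098) (nat_lit 9) nil nil) (node
  (nat_lit 8) (nat_lit 81002) (nat_lit 8) nil nil))) (node (nat_lit 8) (nat_lit 87065) (nat_lit 7)
  nil (node (nat_lit 0) (nat_lit 72740) (nat_lit 7) nil nil)))) (node (nat_lit 4) (nat_lit 0)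
  (nat_lit 6) (node (nat_lit 6) (nat_lit 71853) (nat_lit 7) (node (nat_lit 5) (nat_lit 78204)
  (nat_lit 8) (node (nat_lit 6) (nat_lit 84129) (nat_lit 9) (node (nat_lit 4) (nat_lit 86130)
  (nat_lit 10) nil nil) (node (nat_lit 4) (nat_lit 84917) (nat_lit 9) nil nil)) (node (nat_lit 4)
  (nat_lit 76430) (nat_lit 8) (node (nat_lit 5) (nat_lit 78202) (nat_lit 9) nil nil) (node
  (nat_lit 8) (nat_lit 84279) (nat_lit 8) nil nil))) (node (nat_lit 5) (nat_lit 72892) (nat_lit 7)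
  (node (nat_lit 6) (nat_lit 80906) (nat_lit 8) (node (nat_lit 5) (nat_lit 86966) (nat_lit 9)
  (node (nat_lit 4) (nat_lit 85750) (nat_lit 10) nil nil) (node (nat_lit 4) (nat_lit 85018)
  (nat_lit 9) nil nil)) (node (nat_lit 4) (nat_lit 79937) (nat_lit 8) (node (nat_lit 6) (nat_lit
  86881) (nat_lit 9) nil nil) (node (nat_lit 8) (nat_lit 80642) (nat_lit 8) nil nil))) (node
  (nat_lit 0) (nat_lit 69936) (nat_lit 7) nil nil))) (node (nat_lit 6) (nat_lit 0) (nat_lit 6)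
  (node (nat_lit 4) (nat_lit 72518) (nat_lit 7) (node (nat_lit 5) (nat_lit 80430) (nat_lit 8)
  (node (nat_lit 6) (nat_lit 84790) (nat_lit 9) (node (nat_lit 4) (nat_lit 86792) (nat_lit 10)
  (node (nat_lit 8) (nat_lit 42128) (nat_lit 11) nil nil) nil) (node (nat_lit 4) (nat_lit 83152)
  (nat_lit 9) (node (nat_lit 6) (nat_lit 75698) (nat_lit 10) nil nil) nil)) (node (nat_lit 6)
  (nat_lit 77639) (nat_lit 8) (node (nat_lit 5) (nat_lit 83214) (nat_lit 9) nil nil) nil)) (node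
  (nat_lit 5) (nat_lit 73756) (nat_lit 7) (node (nat_lit 4) (nat_lit 79826) (nat_lit 8) (node
  (nat_lit 6) (nat_lit 85402) (nat_lit 9) nil (node (nat_lit 5) (nat_lit 83939) (nat_lit 9) nil
  nil)) (node (nat_lit 6) (nat_lit 78368) (nat_lit 8) (node (nat_lit 4) (nat_lit 82243) (nat_lit
  9) nil nil) (node (nat_lit 8) (nat_lit 81506) (nat_lit 8) nil nil))) (node (nat_lit 8) (nat_lit
  86343) (nat_lit 7) nil (node (nat_lit 0) (nat_lit 71648) (nat_lit 7) nil nil)))) (node (nat_lit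
  0) (nat_lit 77630) (nat_lit 6) nil nil)))) nil)))

noncomputable def t430 : Tr :=
  (node (nat_lit 4) (nat_lit 0) (nat_lit 5) (node (nat_lit 6) (nat_lit 0) (nat_lit 6) (node
  (nat_lit 0) (nat_lit 0) (nat_lit 7) (node (nat_lit 6) (nat_lit 0) (nat_lit 8) (node (nat_lit 4)
  (nat_lit 93017) (nat_lit 9) (node (nat_lit 5) (nat_lit 98792) (nat_lit 10) (node (nat_lit 6)
  (nat_lit 103734) (nat_lit 11) (node (nat_lit 5) (nat_lit 101828) (nat_lit 12) (node (nat_lit 4)
  (nat_lit 100371) (nat_lit 13) (node (nat_lit 6) (nat_lit 100598) (nat_lit 14) (node (nat_lit 10)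
  (nat_lit 29017) (nat_lit 15) nil nil) nil) nil) nil) (node (nat_lit 4) (nat_lit 102494) (nat_lit
  11) (node (nat_lit 6) (nat_lit 98909) (nat_lit 12) nil nil) (node (nat_lit 10) (nat_lit 104592)
  (nat_lit 11) nil (node (nat_lit 0) (nat_lit 104592) (nat_lit 11) nil nil)))) (node (nat_lit 6)
  (nat_lit 98597) (nat_lit 10) (node (nat_lit 10) (nat_lit 107273) (nat_lit 11) nil (node (nat_lit
  5) (nat_lit 98336) (nat_lit 11) nil nil)) (node (nat_lit 10) (nat_lit 106926) (nat_lit 10) (node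
  (nat_lit 6) (nat_lit 106926) (nat_lit 11) (node (nat_lit 10) (nat_lit 108109) (nat_lit 12) nil
  nil) nil) (node (nat_lit 0) (nat_lit 105326) (nat_lit 10) nil nil)))) (node (nat_lit 5) (nat_lit
  92806) (nat_lit 9) (node (nat_lit 4) (nat_lit 98926) (nat_lit 10) (node (nat_lit 6) (nat_lit
  101431) (nat_lit 11) nil (node (nat_lit 5) (nat_lit 101964) (nat_lit 11) nil (node (nat_lit 10)
  (nat_lit 104726) (nat_lit 11) nil (node (nat_lit 0) (nat_lit 104726) (nat_lit 11) nil nil))))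
  (node (nat_lit 6) (nat_lit 98454) (nat_lit 10) (node (nat_lit 4) (nat_lit 100916) (nat_lit 11)
  nil (node (nat_lit 10) (nat_lit 107130) (nat_lit 11) nil (node (nat_lit 0) (nat_lit 104254)
  (nat_lit 11) nil nil))) (node (nat_lit 10) (nat_lit 105954) (nat_lit 10) nil (node (nat_lit 0)
  (nat_lit 105115) (nat_lit 10) nil nil)))) (node (nat_lit 0) (nat_lit 103057) (nat_lit 9) (node
  (nat_lit 10) (nat_lit 104707) (nat_lit 10) nil (node (nat_lit 6) (nat_lit 103057) (nat_lit 10)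
  nil (node (nat_lit 0) (nat_lit 103761) (nat_lit 10) nil nil))) nil))) (node (nat_lit 4) (nat_lit
  0) (nat_lit 8) (node (nat_lit 10) (nat_lit 102569) (nat_lit 9) (node (nat_lit 6) (nat_lit
  103660) (nat_lit 10) (node (nat_lit 10) (nat_lit 107812) (nat_lit 11) (node (nat_lit 4) (nat_lit
  107812) (nat_lit 12) nil nil) nil) nil) (node (nat_lit 6) (nat_lit 93410) (nat_lit 9) (node
  (nat_lit 4) (nat_lit 96811) (nat_lit 10) (node (nat_lit 10) (nat_lit 104497) (nat_lit 11) nil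
  nil) nil) (node (nat_lit 5) (nat_lit 89614) (nat_lit 9) nil (node (nat_lit 0) (nat_lit 96852)
  (nat_lit 9) nil nil)))) (node (nat_lit 5) (nat_lit 89043) (nat_lit 8) (node (nat_lit 6) (nat_lit
  93195) (nat_lit 9) (node (nat_lit 5) (nat_lit 96844) (nat_lit 10) (node (nat_lit 10) (nat_lit
  104530) (nat_lit 11) nil nil) nil) (node (nat_lit 10) (nat_lit 103277) (nat_lit 9) (node
  (nat_lit 6) (nat_lit 103277) (nat_lit 10) nil nil) (node (nat_lit 4) (nat_lit 89043) (nat_lit 9)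
  nil nil))) (node (nat_lit 0) (nat_lit 97293) (nat_lit 8) (node (nat_lit 6) (nat_lit 98087)
  (nat_lit 9) (node (nat_lit 10) (nat_lit 102439) (nat_lit 10) nil nil) (node (nat_lit 10)
  (nat_lit 101442) (nat_lit 9) (node (nat_lit 6) (nat_lit 101442) (nat_lit 10) nil nil) nil))
  nil)))) (node (nat_lit 4) (nat_lit 0) (nat_lit 7) (node (nat_lit 0) (nat_lit 0) (nat_lit 8)
  (node (nat_lit 6) (nat_lit 83990) (nat_lit 9) (node (nat_lit 4) (nat_lit 86724) (nat_lit 10)
  (node (nat_lit 6) (nat_lit 91598) (nat_lit 11) (node (nat_lit 11) (nat_lit 102235) (nat_lit 12)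
  (node (nat_lit 4) (nat_lit 102232) (nat_lit 13) (node (nat_lit 6) (nat_lit 102232) (nat_lit 14)
  nil (node (nat_lit 11) (nat_lit 103044) (nat_lit 14) nil nil)) (node (nat_lit 6) (nat_lit
  102290) (nat_lit 13) (node (nat_lit 4) (nat_lit 102290) (nat_lit 14) nil nil) nil)) (node
  (nat_lit 5) (nat_lit 97230) (nat_lit 12) (node (nat_lit 4) (nat_lit 100199) (nat_lit 13) (node
  (nat_lit 5) (nat_lit 100820) (nat_lit 14) nil nil) (node (nat_lit 6) (nat_lit 99506) (nat_lit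
  13) nil (node (nat_lit 11) (nat_lit 101957) (nat_lit 13) nil nil))) (node (nat_lit 0) (nat_lit
  101975) (nat_lit 12) nil nil))) (node (nat_lit 5) (nat_lit 92120) (nat_lit 11) (node (nat_lit 6)
  (nat_lit 97385) (nat_lit 12) (node (nat_lit 5) (nat_lit 99337) (nat_lit 13) (node (nat_lit 4)
  (nat_lit 99252) (nat_lit 14) (node (nat_lit 6) (nat_lit 99511) (nat_lit 15) (node (nat_lit 4)
  (nat_lit 99748) (nat_lit 16) (node (nat_lit 11) (nat_lit 34472) (nat_lit 17) nil nil) nil) nil)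
  nil) (node (nat_lit 4) (nat_lit 98089) (nat_lit 13) nil (node (nat_lit 11) (nat_lit 103487)
  (nat_lit 13) nil nil))) (node (nat_lit 4) (nat_lit 95438) (nat_lit 12) (node (nat_lit 6)
  (nat_lit 95382) (nat_lit 13) nil (node (nat_lit 11) (nat_lit 97781) (nat_lit 13) nil nil)) (node
  (nat_lit 11) (nat_lit 102022) (nat_lit 12) nil (node (nat_lit 0) (nat_lit 98689) (nat_lit 12)
  nil nil)))) (node (nat_lit 0) (nat_lit 98471) (nat_lit 11) nil nil))) (node (nat_lit 11)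
  (nat_lit 94914) (nat_lit 10) (node (nat_lit 4) (nat_lit 94914) (nat_lit 11) nil nil) (node
  (nat_lit 5) (nat_lit 83990) (nat_lit 10) nil nil))) (node (nat_lit 4) (nat_lit 83485) (nat_lit
  9) (node (nat_lit 6) (nat_lit 86324) (nat_lit 10) (node (nat_lit 11) (nat_lit 98267) (nat_lit
  11) (node (nat_lit 6) (nat_lit 98336) (nat_lit 12) (node (nat_lit 4) (nat_lit 98408) (nat_lit
  13) (node (nat_lit 11) (nat_lit 102718) (nat_lit 14) (node (nat_lit 4) (nat_lit 102718) (nat_lit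
  15) nil nil) nil) nil) nil) nil) nil) (node (nat_lit 5) (nat_lit 84994) (nat_lit 9) (node
  (nat_lit 4) (nat_lit 84994) (nat_lit 10) nil nil) (node (nat_lit 0) (nat_lit 87846) (nat_lit 9)
  nil nil)))) nil) (node (nat_lit 5) (nat_lit 0) (nat_lit 7) (node (nat_lit 0) (nat_lit 89965)
  (nat_lit 8) (node (nat_lit 6) (nat_lit 92537) (nat_lit 9) (node (nat_lit 5) (nat_lit 96350)
  (nat_lit 10) (node (nat_lit 4) (nat_lit 99604) (nat_lit 11) (node (nat_lit 11) (nat_lit 106172)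
  (nat_lit 12) nil (node (nat_lit 6) (nat_lit 101232) (nat_lit 12) nil (node (nat_lit 5) (nat_lit
  101232) (nat_lit 12) nil nil))) (node (nat_lit 6) (nat_lit 99104) (nat_lit 11) (node (nat_lit
  11) (nat_lit 107436) (nat_lit 12) nil (node (nat_lit 4) (nat_lit 100732) (nat_lit 12) nil (node
  (nat_lit 0) (nat_lit 102618) (nat_lit 12) nil nil))) (node (nat_lit 0) (nat_lit 105477) (nat_lit
  11) nil nil))) nil) (node (nat_lit 5) (nat_lit 89965) (nat_lit 9) (node (nat_lit 6) (nat_lit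
  89965) (nat_lit 10) nil nil) nil)) nil) nil))) (node (nat_lit 0) (nat_lit 0) (nat_lit 6) (node
  (nat_lit 5) (nat_lit 0) (nat_lit 7) (node (nat_lit 6) (nat_lit 0) (nat_lit 8) (node (nat_lit 4)
  (nat_lit 108745) (nat_lit 9) (node (nat_lit 6) (nat_lit 111564) (nat_lit 10) (node (nat_lit 5)
  (nat_lit 111271) (nat_lit 11) (node (nat_lit 4) (nat_lit 110557) (nat_lit 12) (node (nat_lit 5)
  (nat_lit 108287) (nat_lit 13) (node (nat_lit 6) (nat_lit 104235) (nat_lit 14) (node (nat_lit 5)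
  (nat_lit 98003) (nat_lit 15) nil nil) nil) nil) nil) nil) (node (nat_lit 5) (nat_lit 112447)
  (nat_lit 10) nil nil)) (node (nat_lit 5) (nat_lit 108876) (nat_lit 9) (node (nat_lit 4) (nat_lit
  114238) (nat_lit 10) (node (nat_lit 6) (nat_lit 115680) (nat_lit 11) (node (nat_lit 4) (nat_lit
  116853) (nat_lit 12) (node (nat_lit 5) (nat_lit 114642) (nat_lit 13) (node (nat_lit 6) (nat_lit
  109744) (nat_lit 14) (node (nat_lit 5) (nat_lit 103229) (nat_lit 15) nil nil) nil) nil) nil)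
  nil) nil) (node (nat_lit 9) (nat_lit 112065) (nat_lit 9) nil (node (nat_lit 0) (nat_lit 112065)
  (nat_lit 9) nil nil)))) (node (nat_lit 4) (nat_lit 0) (nat_lit 8) (node (nat_lit 5) (nat_lit
  107791) (nat_lit 9) (node (nat_lit 6) (nat_lit 111577) (nat_lit 10) (node (nat_lit 4) (nat_lit
  114424) (nat_lit 11) nil nil) nil) (node (nat_lit 6) (nat_lit 107816) (nat_lit 9) (node (nat_lit
  5) (nat_lit 108106) (nat_lit 10) nil (node (nat_lit 4) (nat_lit 111518) (nat_lit 10) nil nil))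
  (node (nat_lit 0) (nat_lit 110947) (nat_lit 9) nil nil))) (node (nat_lit 9) (nat_lit 116622)
  (nat_lit 8) (node (nat_lit 4) (nat_lit 116622) (nat_lit 9) nil nil) (node (nat_lit 0) (nat_lit
  110126) (nat_lit 8) nil nil)))) (node (nat_lit 6) (nat_lit 0) (nat_lit 7) (node (nat_lit 4)
  (nat_lit 0) (nat_lit 8) (node (nat_lit 6) (nat_lit 109452) (nat_lit 9) (node (nat_lit 5)
  (nat_lit 116008) (nat_lit 10) (node (nat_lit 4) (nat_lit 117099) (nat_lit 11) nil (node (nat_lit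
  6) (nat_lit 116950) (nat_lit 11) (node (nat_lit 4) (nat_lit 118034) (nat_lit 12) nil nil) nil))
  (node (nat_lit 9) (nat_lit 118333) (nat_lit 10) nil nil)) (node (nat_lit 5) (nat_lit 109407)
  (nat_lit 9) (node (nat_lit 6) (nat_lit 111691) (nat_lit 10) (node (nat_lit 5) (nat_lit 113104)
  (nat_lit 11) (node (nat_lit 4) (nat_lit 111343) (nat_lit 12) (node (nat_lit 9) (nat_lit 24306)
  (nat_lit 13) nil nil) nil) nil) (node (nat_lit 4) (nat_lit 112622) (nat_lit 10) (node (nat_lit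
  6) (nat_lit 111386) (nat_lit 11) nil nil) nil)) (node (nat_lit 9) (nat_lit 120325) (nat_lit 9)
  nil (node (nat_lit 0) (nat_lit 112251) (nat_lit 9) nil nil)))) (node (nat_lit 5) (nat_lit 0)
  (nat_lit 8) (node (nat_lit 6) (nat_lit 106972) (nat_lit 9) (node (nat_lit 4) (nat_lit 112540)
  (nat_lit 10) (node (nat_lit 5) (nat_lit 116208) (nat_lit 11) (node (nat_lit 4) (nat_lit 118048)
  (nat_lit 12) (node (nat_lit 6) (nat_lit 117019) (nat_lit 13) (node (nat_lit 4) (nat_lit 117304)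
  (nat_lit 14) (node (nat_lit 5) (nat_lit 117159) (nat_lit 15) nil nil) nil) nil) nil) nil) nil)
  (node (nat_lit 4) (nat_lit 107782) (nat_lit 9) (node (nat_lit 6) (nat_lit 111484) (nat_lit 10)
  nil (node (nat_lit 5) (nat_lit 111484) (nat_lit 10) nil nil)) (node (nat_lit 9) (nat_lit 111411)
  (nat_lit 9) nil (node (nat_lit 0) (nat_lit 111411) (nat_lit 9) nil nil)))) (node (nat_lit 9)
  (nat_lit 117162) (nat_lit 8) (node (nat_lit 4) (nat_lit 117162) (nat_lit 9) nil (node (nat_lit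
  5) (nat_lit 117162) (nat_lit 9) nil nil)) (node (nat_lit 0) (nat_lit 109709) (nat_lit 8) nil
  nil)))) (node (nat_lit 4) (nat_lit 0) (nat_lit 7) (node (nat_lit 6) (nat_lit 0) (nat_lit 8)
  (node (nat_lit 5) (nat_lit 109764) (nat_lit 9) (node (nat_lit 4) (nat_lit 111682) (nat_lit 10)
  nil (node (nat_lit 6) (nat_lit 113466) (nat_lit 10) nil nil)) (node (nat_lit 4) (nat_lit 109070)
  (nat_lit 9) (node (nat_lit 5) (nat_lit 112772) (nat_lit 10) nil nil) (node (nat_lit 9) (nat_lit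
  112699) (nat_lit 9) nil (node (nat_lit 0) (nat_lit 112699) (nat_lit 9) nil nil)))) (node
  (nat_lit 5) (nat_lit 0) (nat_lit 8) (node (nat_lit 4) (nat_lit 107015) (nat_lit 9) (node
  (nat_lit 6) (nat_lit 111966) (nat_lit 10) (node (nat_lit 5) (nat_lit 111736) (nat_lit 11) nil
  nil) (node (nat_lit 9) (nat_lit 115896) (nat_lit 10) nil nil)) (node (nat_lit 6) (nat_lit
  107374) (nat_lit 9) (node (nat_lit 4) (nat_lit 111076) (nat_lit 10) nil (node (nat_lit 5)
  (nat_lit 111076) (nat_lit 10) nil nil)) (node (nat_lit 9) (nat_lit 111172) (nat_lit 9) nil (node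
  (nat_lit 0) (nat_lit 111172) (nat_lit 9) nil nil)))) (node (nat_lit 0) (nat_lit 111908) (nat_lit
  8) nil nil))) (node (nat_lit 0) (nat_lit 0) (nat_lit 7) (node (nat_lit 4) (nat_lit 109010)
  (nat_lit 8) (node (nat_lit 10) (nat_lit 113484) (nat_lit 9) nil nil) (node (nat_lit 9) (nat_lit
  114587) (nat_lit 8) nil (node (nat_lit 5) (nat_lit 109208) (nat_lit 8) nil (node (nat_lit 6)
  (nat_lit 109208) (nat_lit 8) nil (node (nat_lit 0) (nat_lit 112054) (nat_lit 8) nil nil)))))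
  nil)))) (node (nat_lit 5) (nat_lit 0) (nat_lit 6) (node (nat_lit 0) (nat_lit 0) (nat_lit 7)
  (node (nat_lit 5) (nat_lit 0) (nat_lit 8) (node (nat_lit 6) (nat_lit 83642) (nat_lit 9) (node
  (nat_lit 4) (nat_lit 85302) (nat_lit 10) (node (nat_lit 6) (nat_lit 86376) (nat_lit 11) (node
  (nat_lit 5) (nat_lit 85479) (nat_lit 12) nil nil) (node (nat_lit 5) (nat_lit 87088) (nat_lit 11)
  nil nil)) (node (nat_lit 5) (nat_lit 86755) (nat_lit 10) (node (nat_lit 4) (nat_lit 86785)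
  (nat_lit 11) nil (node (nat_lit 10) (nat_lit 90174) (nat_lit 11) nil nil)) (node (nat_lit 10)
  (nat_lit 89677) (nat_lit 10) nil (node (nat_lit 0) (nat_lit 89677) (nat_lit 10) nil nil))))
  (node (nat_lit 4) (nat_lit 84441) (nat_lit 9) (node (nat_lit 6) (nat_lit 87389) (nat_lit 10)
  (node (nat_lit 5) (nat_lit 87420) (nat_lit 11) nil (node (nat_lit 4) (nat_lit 89175) (nat_lit
  11) nil nil)) (node (nat_lit 10) (nat_lit 90239) (nat_lit 10) (node (nat_lit 5) (nat_lit 90239)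
  (nat_lit 11) nil nil) (node (nat_lit 0) (nat_lit 87524) (nat_lit 10) nil (node (nat_lit 5)
  (nat_lit 86069) (nat_lit 10) nil nil)))) (node (nat_lit 0) (nat_lit 90239) (nat_lit 9) nil
  nil))) (node (nat_lit 4) (nat_lit 82547) (nat_lit 8) (node (nat_lit 5) (nat_lit 84640) (nat_lit
  9) (node (nat_lit 4) (nat_lit 86269) (nat_lit 10) (node (nat_lit 10) (nat_lit 89688) (nat_lit
  11) nil nil) nil) (node (nat_lit 10) (nat_lit 90239) (nat_lit 9) (node (nat_lit 5) (nat_lit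
  90239) (nat_lit 10) (node (nat_lit 10) (nat_lit 90239) (nat_lit 11) nil nil) nil) nil)) (node
  (nat_lit 6) (nat_lit 82588) (nat_lit 8) (node (nat_lit 5) (nat_lit 84262) (nat_lit 9) (node
  (nat_lit 6) (nat_lit 85890) (nat_lit 10) nil nil) (node (nat_lit 10) (nat_lit 87623) (nat_lit 9)
  nil nil)) (node (nat_lit 0) (nat_lit 87950) (nat_lit 8) (node (nat_lit 5) (nat_lit 87950)
  (nat_lit 9) nil (node (nat_lit 10) (nat_lit 88866) (nat_lit 9) nil nil)) nil)))) (node (nat_lit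
  6) (nat_lit 0) (nat_lit 7) (node (nat_lit 0) (nat_lit 84171) (nat_lit 8) (node (nat_lit 5)
  (nat_lit 84265) (nat_lit 9) (node (nat_lit 6) (nat_lit 85182) (nat_lit 10) (node (nat_lit 5)
  (nat_lit 86876) (nat_lit 11) (node (nat_lit 4) (nat_lit 89070) (nat_lit 12) (node (nat_lit 6)
  (nat_lit 89379) (nat_lit 13) nil nil) (node (nat_lit 11) (nat_lit 90239) (nat_lit 12) nil (node
  (nat_lit 0) (nat_lit 88813) (nat_lit 12) nil nil))) (node (nat_lit 4) (nat_lit 87437) (nat_lit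
  11) (node (nat_lit 5) (nat_lit 88466) (nat_lit 12) nil (node (nat_lit 6) (nat_lit 88255)
  (nat_lit 12) (node (nat_lit 5) (nat_lit 87219) (nat_lit 13) nil nil) (node (nat_lit 11) (nat_lit
  89375) (nat_lit 12) nil nil))) (node (nat_lit 0) (nat_lit 90239) (nat_lit 11) nil nil))) nil)
  (node (nat_lit 6) (nat_lit 84171) (nat_lit 9) (node (nat_lit 5) (nat_lit 84171) (nat_lit 10)
  (node (nat_lit 11) (nat_lit 85804) (nat_lit 11) nil nil) nil) nil)) nil) nil)) nil))) (node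
  (nat_lit 0) (nat_lit 0) (nat_lit 5) (node (nat_lit 6) (nat_lit 0) (nat_lit 6) (node (nat_lit 4)
  (nat_lit 96944) (nat_lit 7) (node (nat_lit 5) (nat_lit 104501) (nat_lit 8) (node (nat_lit 6)
  (nat_lit 111887) (nat_lit 9) (node (nat_lit 5) (nat_lit 115128) (nat_lit 10) (node (nat_lit 8)
  (nat_lit 29789) (nat_lit 11) nil (node (nat_lit 4) (nat_lit 115227) (nat_lit 11) nil nil)) nil)
  (node (nat_lit 4) (nat_lit 106472) (nat_lit 9) (node (nat_lit 6) (nat_lit 98896) (nat_lit 10)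
  nil nil) nil)) (node (nat_lit 6) (nat_lit 101300) (nat_lit 8) (node (nat_lit 5) (nat_lit 105020)
  (nat_lit 9) nil nil) (node (nat_lit 8) (nat_lit 104694) (nat_lit 8) nil nil))) (node (nat_lit 5)
  (nat_lit 97261) (nat_lit 7) (node (nat_lit 4) (nat_lit 104742) (nat_lit 8) (node (nat_lit 5)
  (nat_lit 111464) (nat_lit 9) nil (node (nat_lit 6) (nat_lit 109004) (nat_lit 9) nil nil)) (node
  (nat_lit 6) (nat_lit 102535) (nat_lit 8) (node (nat_lit 4) (nat_lit 109256) (nat_lit 9) nil nil)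
  nil)) (node (nat_lit 8) (nat_lit 112831) (nat_lit 7) nil (node (nat_lit 0) (nat_lit 97203)
  (nat_lit 7) nil nil)))) (node (nat_lit 5) (nat_lit 0) (nat_lit 6) (node (nat_lit 6) (nat_lit
  97027) (nat_lit 7) (node (nat_lit 4) (nat_lit 103325) (nat_lit 8) (node (nat_lit 6) (nat_lit
  111949) (nat_lit 9) (node (nat_lit 5) (nat_lit 109438) (nat_lit 10) (node (nat_lit 4) (nat_lit
  107327) (nat_lit 11) (node (nat_lit 5) (nat_lit 104266) (nat_lit 12) (node (nat_lit 6) (nat_lit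
  100452) (nat_lit 13) nil nil) nil) nil) nil) (node (nat_lit 5) (nat_lit 110126) (nat_lit 9)
  (node (nat_lit 4) (nat_lit 108909) (nat_lit 10) nil nil) nil)) (node (nat_lit 5) (nat_lit
  104798) (nat_lit 8) (node (nat_lit 4) (nat_lit 113172) (nat_lit 9) nil nil) (node (nat_lit 8)
  (nat_lit 112954) (nat_lit 8) nil nil))) (node (nat_lit 4) (nat_lit 96268) (nat_lit 7) (node
  (nat_lit 6) (nat_lit 102740) (nat_lit 8) (node (nat_lit 4) (nat_lit 109461) (nat_lit 9) (node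
  (nat_lit 5) (nat_lit 111463) (nat_lit 10) nil nil) (node (nat_lit 5) (nat_lit 109748) (nat_lit
  9) nil nil)) (node (nat_lit 5) (nat_lit 104455) (nat_lit 8) (node (nat_lit 6) (nat_lit 111841)
  (nat_lit 9) nil nil) (node (nat_lit 8) (nat_lit 104018) (nat_lit 8) nil nil))) (node (nat_lit 0)
  (nat_lit 96661) (nat_lit 7) nil nil))) (node (nat_lit 4) (nat_lit 0) (nat_lit 6) (node (nat_lit
  5) (nat_lit 95630) (nat_lit 7) (node (nat_lit 6) (nat_lit 102309) (nat_lit 8) (node (nat_lit 5)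
  (nat_lit 108391) (nat_lit 9) (node (nat_lit 4) (nat_lit 107175) (nat_lit 10) nil nil) (node
  (nat_lit 4) (nat_lit 108207) (nat_lit 9) nil nil)) (node (nat_lit 4) (nat_lit 102955) (nat_lit
  8) (node (nat_lit 6) (nat_lit 102551) (nat_lit 9) nil nil) (node (nat_lit 8) (nat_lit 103380)
  (nat_lit 8) nil nil))) (node (nat_lit 6) (nat_lit 96931) (nat_lit 7) (node (nat_lit 5) (nat_lit
  104327) (nat_lit 8) (node (nat_lit 6) (nat_lit 111048) (nat_lit 9) nil (node (nat_lit 4)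
  (nat_lit 112825) (nat_lit 9) (node (nat_lit 5) (nat_lit 114826) (nat_lit 10) nil nil) nil))
  (node (nat_lit 4) (nat_lit 102715) (nat_lit 8) (node (nat_lit 5) (nat_lit 107096) (nat_lit 9)
  nil nil) (node (nat_lit 8) (nat_lit 104681) (nat_lit 8) nil nil))) (node (nat_lit 8) (nat_lit
  110068) (nat_lit 7) nil (node (nat_lit 0) (nat_lit 96328) (nat_lit 7) nil nil)))) (node (nat_lit
  0) (nat_lit 103224) (nat_lit 6) nil nil)))) nil))

noncomputable def t431 : Tr :=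
  (node (nat_lit 5) (nat_lit 0) (nat_lit 5) (node (nat_lit 0) (nat_lit 0) (nat_lit 6) (node
  (nat_lit 7) (nat_lit 0) (nat_lit 7) (node (nat_lit 5) (nat_lit 0) (nat_lit 8) (node (nat_lit 4)
  (nat_lit 74161) (nat_lit 9) (node (nat_lit 7) (nat_lit 77118) (nat_lit 10) (node (nat_lit 5)
  (nat_lit 79726) (nat_lit 11) (node (nat_lit 7) (nat_lit 80303) (nat_lit 12) (node (nat_lit 4)
  (nat_lit 80303) (nat_lit 13) (node (nat_lit 5) (nat_lit 78706) (nat_lit 14) (node (nat_lit 4)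
  (nat_lit 77021) (nat_lit 15) (node (nat_lit 7) (nat_lit 72080) (nat_lit 16) nil nil) nil) nil)
  nil) nil) nil) (node (nat_lit 5) (nat_lit 76164) (nat_lit 10) (node (nat_lit 7) (nat_lit 77473)
  (nat_lit 11) (node (nat_lit 4) (nat_lit 76848) (nat_lit 12) (node (nat_lit 5) (nat_lit 74249)
  (nat_lit 13) (node (nat_lit 4) (nat_lit 69478) (nat_lit 14) (node (nat_lit 7) (nat_lit 65621)
  (nat_lit 15) (node (nat_lit 5) (nat_lit 65998) (nat_lit 16) nil nil) nil) nil) nil) nil) nil)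
  nil)) (node (nat_lit 7) (nat_lit 72912) (nat_lit 9) (node (nat_lit 4) (nat_lit 76612) (nat_lit
  10) (node (nat_lit 5) (nat_lit 78312) (nat_lit 11) nil nil) (node (nat_lit 9) (nat_lit 77958)
  (nat_lit 10) nil nil)) (node (nat_lit 0) (nat_lit 72255) (nat_lit 9) nil nil))) (node (nat_lit
  9) (nat_lit 76562) (nat_lit 8) (node (nat_lit 5) (nat_lit 76012) (nat_lit 9) (node (nat_lit 7)
  (nat_lit 76649) (nat_lit 10) (node (nat_lit 5) (nat_lit 77823) (nat_lit 11) (node (nat_lit 4)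
  (nat_lit 78237) (nat_lit 12) (node (nat_lit 7) (nat_lit 78105) (nat_lit 13) nil nil) nil) (node
  (nat_lit 4) (nat_lit 76649) (nat_lit 11) nil nil)) (node (nat_lit 4) (nat_lit 76012) (nat_lit
  10) nil nil)) (node (nat_lit 4) (nat_lit 76562) (nat_lit 9) (node (nat_lit 7) (nat_lit 76562)
  (nat_lit 10) nil nil) nil)) (node (nat_lit 4) (nat_lit 0) (nat_lit 8) (node (nat_lit 5) (nat_lit
  71888) (nat_lit 9) (node (nat_lit 4) (nat_lit 76346) (nat_lit 10) (node (nat_lit 7) (nat_lit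
  77966) (nat_lit 11) (node (nat_lit 5) (nat_lit 77059) (nat_lit 12) nil nil) nil) (node (nat_lit
  7) (nat_lit 73959) (nat_lit 10) nil nil)) (node (nat_lit 7) (nat_lit 72624) (nat_lit 9) (node
  (nat_lit 5) (nat_lit 76666) (nat_lit 10) (node (nat_lit 4) (nat_lit 75131) (nat_lit 11) nil
  (node (nat_lit 7) (nat_lit 74089) (nat_lit 11) nil nil)) nil) (node (nat_lit 9) (nat_lit 78336)
  (nat_lit 9) nil (node (nat_lit 0) (nat_lit 73156) (nat_lit 9) nil nil)))) (node (nat_lit 0)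
  (nat_lit 73188) (nat_lit 8) nil nil)))) (node (nat_lit 4) (nat_lit 0) (nat_lit 7) (node (nat_lit
  5) (nat_lit 0) (nat_lit 8) (node (nat_lit 4) (nat_lit 75098) (nat_lit 9) (node (nat_lit 7)
  (nat_lit 78887) (nat_lit 10) (node (nat_lit 5) (nat_lit 78754) (nat_lit 11) (node (nat_lit 7)
  (nat_lit 80014) (nat_lit 12) (node (nat_lit 4) (nat_lit 79815) (nat_lit 13) nil nil) nil) (node
  (nat_lit 4) (nat_lit 80303) (nat_lit 11) nil nil)) (node (nat_lit 9) (nat_lit 80144) (nat_lit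
  10) nil nil)) (node (nat_lit 7) (nat_lit 71724) (nat_lit 9) (node (nat_lit 5) (nat_lit 75427)
  (nat_lit 10) (node (nat_lit 4) (nat_lit 74604) (nat_lit 11) nil nil) (node (nat_lit 4) (nat_lit
  75424) (nat_lit 10) nil nil)) (node (nat_lit 9) (nat_lit 78910) (nat_lit 9) nil (node (nat_lit
  0) (nat_lit 73730) (nat_lit 9) nil nil)))) (node (nat_lit 7) (nat_lit 0) (nat_lit 8) (node
  (nat_lit 5) (nat_lit 71978) (nat_lit 9) (node (nat_lit 4) (nat_lit 71688) (nat_lit 10) (node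
  (nat_lit 7) (nat_lit 73980) (nat_lit 11) (node (nat_lit 4) (nat_lit 73877) (nat_lit 12) (node
  (nat_lit 5) (nat_lit 71665) (nat_lit 13) (node (nat_lit 4) (nat_lit 68043) (nat_lit 14) (node
  (nat_lit 7) (nat_lit 60522) (nat_lit 15) (node (nat_lit 5) (nat_lit 47798) (nat_lit 16) nil nil)
  nil) nil) nil) nil) nil) (node (nat_lit 7) (nat_lit 75678) (nat_lit 10) nil nil)) (node (nat_lit
  4) (nat_lit 72093) (nat_lit 9) (node (nat_lit 5) (nat_lit 74114) (nat_lit 10) nil nil) (node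
  (nat_lit 9) (nat_lit 78910) (nat_lit 9) nil (node (nat_lit 0) (nat_lit 73730) (nat_lit 9) nil
  nil)))) (node (nat_lit 9) (nat_lit 77738) (nat_lit 8) (node (nat_lit 5) (nat_lit 77702) (nat_lit
  9) (node (nat_lit 4) (nat_lit 77702) (nat_lit 10) (node (nat_lit 5) (nat_lit 77702) (nat_lit 11)
  (node (nat_lit 7) (nat_lit 78606) (nat_lit 12) nil nil) (node (nat_lit 7) (nat_lit 77702)
  (nat_lit 11) nil nil)) (node (nat_lit 7) (nat_lit 77702) (nat_lit 10) nil nil)) (node (nat_lit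
  7) (nat_lit 77738) (nat_lit 9) (node (nat_lit 4) (nat_lit 77738) (nat_lit 10) nil nil) nil))
  (node (nat_lit 0) (nat_lit 73679) (nat_lit 8) nil nil)))) (node (nat_lit 5) (nat_lit 0) (nat_lit
  7) (node (nat_lit 4) (nat_lit 0) (nat_lit 8) (node (nat_lit 7) (nat_lit 73985) (nat_lit 9) (node
  (nat_lit 5) (nat_lit 74066) (nat_lit 10) (node (nat_lit 7) (nat_lit 76024) (nat_lit 11) (node
  (nat_lit 4) (nat_lit 76076) (nat_lit 12) (node (nat_lit 5) (nat_lit 73160) (nat_lit 13) (node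
  (nat_lit 4) (nat_lit 70089) (nat_lit 14) (node (nat_lit 7) (nat_lit 62703) (nat_lit 15) nil nil)
  nil) nil) nil) nil) (node (nat_lit 4) (nat_lit 77685) (nat_lit 10) (node (nat_lit 5) (nat_lit
  79385) (nat_lit 11) nil nil) nil)) (node (nat_lit 5) (nat_lit 72766) (nat_lit 9) (node (nat_lit
  7) (nat_lit 74838) (nat_lit 10) nil nil) (node (nat_lit 9) (nat_lit 73522) (nat_lit 9) nil (node
  (nat_lit 0) (nat_lit 73522) (nat_lit 9) nil nil)))) (node (nat_lit 7) (nat_lit 0) (nat_lit 8)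
  (node (nat_lit 4) (nat_lit 73013) (nat_lit 9) (node (nat_lit 5) (nat_lit 75034) (nat_lit 10) nil
  (node (nat_lit 7) (nat_lit 75106) (nat_lit 10) (node (nat_lit 5) (nat_lit 74283) (nat_lit 11)
  nil nil) nil)) (node (nat_lit 5) (nat_lit 71178) (nat_lit 9) (node (nat_lit 4) (nat_lit 71255)
  (nat_lit 10) (node (nat_lit 7) (nat_lit 72133) (nat_lit 11) (node (nat_lit 4) (nat_lit 72028)
  (nat_lit 12) nil nil) (node (nat_lit 5) (nat_lit 70432) (nat_lit 11) nil nil)) (node (nat_lit 9)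
  (nat_lit 76224) (nat_lit 10) nil nil)) (node (nat_lit 9) (nat_lit 77493) (nat_lit 9) nil (node
  (nat_lit 0) (nat_lit 72313) (nat_lit 9) nil nil)))) (node (nat_lit 0) (nat_lit 74292) (nat_lit
  8) nil nil))) (node (nat_lit 0) (nat_lit 0) (nat_lit 7) (node (nat_lit 5) (nat_lit 73245)
  (nat_lit 8) (node (nat_lit 10) (nat_lit 79507) (nat_lit 9) nil (node (nat_lit 0) (nat_lit 75850)
  (nat_lit 9) nil nil)) (node (nat_lit 9) (nat_lit 0) (nat_lit 8) (node (nat_lit 5) (nat_lit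
  76969) (nat_lit 9) nil (node (nat_lit 4) (nat_lit 76969) (nat_lit 9) nil (node (nat_lit 7)
  (nat_lit 76969) (nat_lit 9) nil (node (nat_lit 0) (nat_lit 77873) (nat_lit 9) nil nil)))) (node
  (nat_lit 4) (nat_lit 70550) (nat_lit 8) nil (node (nat_lit 7) (nat_lit 70550) (nat_lit 8) nil
  (node (nat_lit 0) (nat_lit 73879) (nat_lit 8) nil nil))))) nil)))) (node (nat_lit 4) (nat_lit 0)
  (nat_lit 6) (node (nat_lit 0) (nat_lit 0) (nat_lit 7) (node (nat_lit 4) (nat_lit 0) (nat_lit 8)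
  (node (nat_lit 5) (nat_lit 73706) (nat_lit 9) (node (nat_lit 7) (nat_lit 75719) (nat_lit 10)
  (node (nat_lit 4) (nat_lit 78124) (nat_lit 11) nil (node (nat_lit 5) (nat_lit 76771) (nat_lit
  11) nil nil)) (node (nat_lit 4) (nat_lit 76185) (nat_lit 10) (node (nat_lit 10) (nat_lit 79485)
  (nat_lit 11) nil (node (nat_lit 7) (nat_lit 77885) (nat_lit 11) nil nil)) (node (nat_lit 10)
  (nat_lit 80303) (nat_lit 10) (node (nat_lit 4) (nat_lit 80303) (nat_lit 11) nil nil) (node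
  (nat_lit 0) (nat_lit 76681) (nat_lit 10) nil nil)))) (node (nat_lit 7) (nat_lit 73706) (nat_lit
  9) (node (nat_lit 5) (nat_lit 75523) (nat_lit 10) (node (nat_lit 7) (nat_lit 77224) (nat_lit 11)
  nil (node (nat_lit 4) (nat_lit 74986) (nat_lit 11) nil (node (nat_lit 0) (nat_lit 78823)
  (nat_lit 11) nil nil))) (node (nat_lit 4) (nat_lit 78233) (nat_lit 10) (node (nat_lit 5)
  (nat_lit 79284) (nat_lit 11) nil (node (nat_lit 10) (nat_lit 80303) (nat_lit 11) nil nil)) (node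
  (nat_lit 10) (nat_lit 79633) (nat_lit 10) nil (node (nat_lit 0) (nat_lit 79633) (nat_lit 10) nil
  nil)))) (node (nat_lit 0) (nat_lit 77986) (nat_lit 9) (node (nat_lit 4) (nat_lit 77986) (nat_lit
  10) nil (node (nat_lit 10) (nat_lit 78355) (nat_lit 10) nil nil)) nil))) (node (nat_lit 5)
  (nat_lit 0) (nat_lit 8) (node (nat_lit 10) (nat_lit 78327) (nat_lit 9) (node (nat_lit 4)
  (nat_lit 78327) (nat_lit 10) (node (nat_lit 10) (nat_lit 79022) (nat_lit 11) nil nil) nil) (node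
  (nat_lit 4) (nat_lit 71923) (nat_lit 9) (node (nat_lit 5) (nat_lit 73551) (nat_lit 10) (node
  (nat_lit 10) (nat_lit 76852) (nat_lit 11) nil nil) nil) (node (nat_lit 7) (nat_lit 68213)
  (nat_lit 9) nil (node (nat_lit 0) (nat_lit 73150) (nat_lit 9) nil nil)))) (node (nat_lit 7)
  (nat_lit 68043) (nat_lit 8) (node (nat_lit 4) (nat_lit 73340) (nat_lit 9) (node (nat_lit 7)
  (nat_lit 74302) (nat_lit 10) (node (nat_lit 10) (nat_lit 79488) (nat_lit 11) nil nil) nil) (node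
  (nat_lit 10) (nat_lit 77580) (nat_lit 9) (node (nat_lit 4) (nat_lit 77580) (nat_lit 10) nil nil)
  (node (nat_lit 5) (nat_lit 68043) (nat_lit 9) nil nil))) (node (nat_lit 0) (nat_lit 71571)
  (nat_lit 8) (node (nat_lit 4) (nat_lit 72076) (nat_lit 9) (node (nat_lit 10) (nat_lit 74674)
  (nat_lit 10) nil nil) (node (nat_lit 10) (nat_lit 75195) (nat_lit 9) nil nil)) nil)))) (node
  (nat_lit 5) (nat_lit 0) (nat_lit 7) (node (nat_lit 0) (nat_lit 0) (nat_lit 8) (node (nat_lit 4)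
  (nat_lit 73601) (nat_lit 9) (node (nat_lit 5) (nat_lit 76084) (nat_lit 10) (node (nat_lit 4)
  (nat_lit 78742) (nat_lit 11) (node (nat_lit 7) (nat_lit 79546) (nat_lit 12) nil (node (nat_lit
  11) (nat_lit 80303) (nat_lit 12) nil (node (nat_lit 0) (nat_lit 80303) (nat_lit 12) nil nil)))
  (node (nat_lit 7) (nat_lit 78241) (nat_lit 11) (node (nat_lit 4) (nat_lit 80303) (nat_lit 12)
  nil (node (nat_lit 5) (nat_lit 79145) (nat_lit 12) nil nil)) (node (nat_lit 0) (nat_lit 80303)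
  (nat_lit 11) nil nil))) (node (nat_lit 11) (nat_lit 80068) (nat_lit 10) (node (nat_lit 5)
  (nat_lit 80068) (nat_lit 11) nil nil) (node (nat_lit 7) (nat_lit 73601) (nat_lit 10) nil nil)))
  (node (nat_lit 5) (nat_lit 73371) (nat_lit 9) (node (nat_lit 4) (nat_lit 75104) (nat_lit 10)
  (node (nat_lit 11) (nat_lit 80303) (nat_lit 11) (node (nat_lit 4) (nat_lit 80303) (nat_lit 12)
  nil nil) nil) nil) (node (nat_lit 7) (nat_lit 73341) (nat_lit 9) (node (nat_lit 5) (nat_lit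
  73341) (nat_lit 10) nil nil) (node (nat_lit 0) (nat_lit 73211) (nat_lit 9) nil nil)))) nil)
  nil)) (node (nat_lit 7) (nat_lit 0) (nat_lit 6) (node (nat_lit 0) (nat_lit 0) (nat_lit 7) (node
  (nat_lit 7) (nat_lit 0) (nat_lit 8) (node (nat_lit 4) (nat_lit 67471) (nat_lit 9) (node (nat_lit
  5) (nat_lit 70837) (nat_lit 10) (node (nat_lit 4) (nat_lit 74248) (nat_lit 11) (node (nat_lit 7)
  (nat_lit 72106) (nat_lit 12) (node (nat_lit 5) (nat_lit 71016) (nat_lit 13) (node (nat_lit 7)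
  (nat_lit 71122) (nat_lit 14) nil nil) nil) nil) (node (nat_lit 7) (nat_lit 74239) (nat_lit 11)
  nil (node (nat_lit 0) (nat_lit 74137) (nat_lit 11) nil (node (nat_lit 10) (nat_lit 74137)
  (nat_lit 11) nil nil)))) (node (nat_lit 7) (nat_lit 71724) (nat_lit 10) (node (nat_lit 5)
  (nat_lit 71388) (nat_lit 11) (node (nat_lit 7) (nat_lit 69246) (nat_lit 12) nil nil) (node
  (nat_lit 10) (nat_lit 76910) (nat_lit 11) nil (node (nat_lit 0) (nat_lit 75024) (nat_lit 11) nil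
  nil))) (node (nat_lit 10) (nat_lit 75673) (nat_lit 10) nil (node (nat_lit 0) (nat_lit 75673)
  (nat_lit 10) nil nil)))) (node (nat_lit 5) (nat_lit 66154) (nat_lit 9) (node (nat_lit 4)
  (nat_lit 72257) (nat_lit 10) (node (nat_lit 7) (nat_lit 74243) (nat_lit 11) nil (node (nat_lit
  5) (nat_lit 73883) (nat_lit 11) nil nil)) (node (nat_lit 10) (nat_lit 75670) (nat_lit 10) (node
  (nat_lit 7) (nat_lit 75670) (nat_lit 11) nil nil) (node (nat_lit 7) (nat_lit 67783) (nat_lit 10)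
  nil (node (nat_lit 0) (nat_lit 72081) (nat_lit 10) nil nil)))) (node (nat_lit 0) (nat_lit 72035)
  (nat_lit 9) (node (nat_lit 10) (nat_lit 72405) (nat_lit 10) nil nil) nil))) (node (nat_lit 5)
  (nat_lit 60577) (nat_lit 8) (node (nat_lit 10) (nat_lit 72331) (nat_lit 9) (node (nat_lit 7)
  (nat_lit 72331) (nat_lit 10) (node (nat_lit 10) (nat_lit 73027) (nat_lit 11) nil nil) nil) (node
  (nat_lit 7) (nat_lit 65231) (nat_lit 9) (node (nat_lit 5) (nat_lit 69025) (nat_lit 10) (node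
  (nat_lit 10) (nat_lit 74212) (nat_lit 11) nil nil) nil) nil)) (node (nat_lit 4) (nat_lit 62835)
  (nat_lit 8) (node (nat_lit 7) (nat_lit 63724) (nat_lit 9) (node (nat_lit 4) (nat_lit 65352)
  (nat_lit 10) nil nil) (node (nat_lit 10) (nat_lit 72372) (nat_lit 9) nil nil)) (node (nat_lit 0)
  (nat_lit 66389) (nat_lit 8) (node (nat_lit 7) (nat_lit 66389) (nat_lit 9) (node (nat_lit 10)
  (nat_lit 67663) (nat_lit 10) nil nil) (node (nat_lit 10) (nat_lit 67997) (nat_lit 9) nil nil))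
  nil)))) (node (nat_lit 4) (nat_lit 0) (nat_lit 7) (node (nat_lit 0) (nat_lit 41963) (nat_lit 8)
  (node (nat_lit 7) (nat_lit 44086) (nat_lit 9) (node (nat_lit 4) (nat_lit 47900) (nat_lit 10)
  (node (nat_lit 7) (nat_lit 50919) (nat_lit 11) (node (nat_lit 5) (nat_lit 52996) (nat_lit 12)
  (node (nat_lit 4) (nat_lit 51835) (nat_lit 13) nil nil) (node (nat_lit 11) (nat_lit 58054)
  (nat_lit 12) nil (node (nat_lit 0) (nat_lit 55867) (nat_lit 12) nil nil))) (node (nat_lit 5)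
  (nat_lit 51158) (nat_lit 11) (node (nat_lit 7) (nat_lit 53762) (nat_lit 12) nil (node (nat_lit
  4) (nat_lit 54140) (nat_lit 12) (node (nat_lit 7) (nat_lit 52170) (nat_lit 13) nil nil) (node
  (nat_lit 11) (nat_lit 56107) (nat_lit 12) nil nil))) (node (nat_lit 0) (nat_lit 56216) (nat_lit
  11) nil nil))) nil) (node (nat_lit 4) (nat_lit 44227) (nat_lit 9) (node (nat_lit 7) (nat_lit
  44227) (nat_lit 10) (node (nat_lit 11) (nat_lit 45827) (nat_lit 11) nil nil) nil) nil)) nil)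
  nil)) nil))) (node (nat_lit 4) (nat_lit 0) (nat_lit 5) (node (nat_lit 0) (nat_lit 0) (nat_lit 6)
  (node (nat_lit 7) (nat_lit 0) (nat_lit 7) (node (nat_lit 4) (nat_lit 48890) (nat_lit 8) (node
  (nat_lit 7) (nat_lit 50339) (nat_lit 9) (node (nat_lit 5) (nat_lit 52168) (nat_lit 10) (node
  (nat_lit 4) (nat_lit 51345) (nat_lit 11) nil (node (nat_lit 7) (nat_lit 49591) (nat_lit 11) nil
  nil)) (node (nat_lit 9) (nat_lit 55385) (nat_lit 10) nil nil)) (node (nat_lit 5) (nat_lit 51056)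
  (nat_lit 9) (node (nat_lit 7) (nat_lit 53128) (nat_lit 10) nil (node (nat_lit 4) (nat_lit 54044)
  (nat_lit 10) nil nil)) nil)) (node (nat_lit 9) (nat_lit 55745) (nat_lit 8) (node (nat_lit 4)
  (nat_lit 55745) (nat_lit 9) (node (nat_lit 7) (nat_lit 55745) (nat_lit 10) (node (nat_lit 4)
  (nat_lit 55786) (nat_lit 11) (node (nat_lit 5) (nat_lit 56689) (nat_lit 12) nil nil) (node
  (nat_lit 5) (nat_lit 55745) (nat_lit 11) nil nil)) (node (nat_lit 5) (nat_lit 55745) (nat_lit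
  10) nil nil)) (node (nat_lit 5) (nat_lit 55745) (nat_lit 9) (node (nat_lit 7) (nat_lit 55745)
  (nat_lit 10) nil nil) nil)) (node (nat_lit 5) (nat_lit 48311) (nat_lit 8) (node (nat_lit 4)
  (nat_lit 51054) (nat_lit 9) (node (nat_lit 7) (nat_lit 53125) (nat_lit 10) nil (node (nat_lit 5)
  (nat_lit 54060) (nat_lit 10) (node (nat_lit 7) (nat_lit 55643) (nat_lit 11) (node (nat_lit 4)
  (nat_lit 55693) (nat_lit 12) nil nil) nil) nil)) (node (nat_lit 7) (nat_lit 50801) (nat_lit 9)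
  (node (nat_lit 4) (nat_lit 53789) (nat_lit 10) (node (nat_lit 5) (nat_lit 55490) (nat_lit 11)
  nil nil) nil) (node (nat_lit 9) (nat_lit 56070) (nat_lit 9) nil nil))) (node (nat_lit 0)
  (nat_lit 55177) (nat_lit 8) nil nil)))) (node (nat_lit 5) (nat_lit 0) (nat_lit 7) (node (nat_lit
  4) (nat_lit 0) (nat_lit 8) (node (nat_lit 5) (nat_lit 51288) (nat_lit 9) (node (nat_lit 7)
  (nat_lit 54085) (nat_lit 10) (node (nat_lit 4) (nat_lit 55786) (nat_lit 11) nil (node (nat_lit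
  5) (nat_lit 55786) (nat_lit 11) nil nil)) (node (nat_lit 9) (nat_lit 56333) (nat_lit 10) nil
  nil)) (node (nat_lit 7) (nat_lit 51288) (nat_lit 9) (node (nat_lit 5) (nat_lit 52470) (nat_lit
  10) nil (node (nat_lit 4) (nat_lit 54085) (nat_lit 10) (node (nat_lit 5) (nat_lit 55786)
  (nat_lit 11) nil nil) nil)) (node (nat_lit 9) (nat_lit 56689) (nat_lit 9) nil (node (nat_lit 0)
  (nat_lit 53798) (nat_lit 9) nil nil)))) (node (nat_lit 7) (nat_lit 48311) (nat_lit 8) (node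
  (nat_lit 5) (nat_lit 49385) (nat_lit 9) (node (nat_lit 4) (nat_lit 50560) (nat_lit 10) (node
  (nat_lit 7) (nat_lit 51225) (nat_lit 11) (node (nat_lit 4) (nat_lit 52465) (nat_lit 12) (node
  (nat_lit 5) (nat_lit 53139) (nat_lit 13) (node (nat_lit 4) (nat_lit 53711) (nat_lit 14) (node
  (nat_lit 7) (nat_lit 53647) (nat_lit 15) nil nil) nil) nil) nil) nil) nil) (node (nat_lit 4)
  (nat_lit 49448) (nat_lit 9) (node (nat_lit 5) (nat_lit 51520) (nat_lit 10) nil (node (nat_lit 7)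
  (nat_lit 51520) (nat_lit 10) nil nil)) (node (nat_lit 9) (nat_lit 56070) (nat_lit 9) nil nil)))
  (node (nat_lit 9) (nat_lit 55745) (nat_lit 8) (node (nat_lit 4) (nat_lit 55745) (nat_lit 9)
  (node (nat_lit 5) (nat_lit 55745) (nat_lit 10) (node (nat_lit 4) (nat_lit 55786) (nat_lit 11)
  nil (node (nat_lit 7) (nat_lit 55745) (nat_lit 11) nil nil)) nil) (node (nat_lit 7) (nat_lit
  55745) (nat_lit 9) (node (nat_lit 5) (nat_lit 55745) (nat_lit 10) nil nil) nil)) (node (nat_lit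
  0) (nat_lit 52880) (nat_lit 8) nil nil)))) (node (nat_lit 4) (nat_lit 0) (nat_lit 7) (node
  (nat_lit 7) (nat_lit 49223) (nat_lit 8) (node (nat_lit 5) (nat_lit 50416) (nat_lit 9) (node
  (nat_lit 4) (nat_lit 48954) (nat_lit 10) nil (node (nat_lit 7) (nat_lit 53404) (nat_lit 10)
  (node (nat_lit 4) (nat_lit 55105) (nat_lit 11) nil nil) nil)) (node (nat_lit 4) (nat_lit 51009)
  (nat_lit 9) (node (nat_lit 5) (nat_lit 53080) (nat_lit 10) nil nil) (node (nat_lit 9) (nat_lit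
  53899) (nat_lit 9) nil nil))) (node (nat_lit 5) (nat_lit 49223) (nat_lit 8) (node (nat_lit 4)
  (nat_lit 51009) (nat_lit 9) nil (node (nat_lit 7) (nat_lit 51389) (nat_lit 9) (node (nat_lit 5)
  (nat_lit 53461) (nat_lit 10) nil (node (nat_lit 4) (nat_lit 53461) (nat_lit 10) nil nil)) (node
  (nat_lit 9) (nat_lit 53899) (nat_lit 9) nil nil))) (node (nat_lit 0) (nat_lit 55510) (nat_lit 8)
  nil nil))) (node (nat_lit 0) (nat_lit 0) (nat_lit 7) (node (nat_lit 9) (nat_lit 55408) (nat_lit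
  8) (node (nat_lit 4) (nat_lit 55408) (nat_lit 9) nil (node (nat_lit 5) (nat_lit 55408) (nat_lit
  9) nil (node (nat_lit 7) (nat_lit 55408) (nat_lit 9) nil nil))) (node (nat_lit 4) (nat_lit
  52979) (nat_lit 8) (node (nat_lit 10) (nat_lit 56689) (nat_lit 9) nil nil) (node (nat_lit 7)
  (nat_lit 52411) (nat_lit 8) nil (node (nat_lit 5) (nat_lit 52411) (nat_lit 8) nil (node (nat_lit
  0) (nat_lit 54111) (nat_lit 8) nil nil))))) nil)))) (node (nat_lit 5) (nat_lit 0) (nat_lit 6)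
  (node (nat_lit 0) (nat_lit 0) (nat_lit 7) (node (nat_lit 5) (nat_lit 0) (nat_lit 8) (node
  (nat_lit 4) (nat_lit 52012) (nat_lit 9) (node (nat_lit 7) (nat_lit 53738) (nat_lit 10) (node
  (nat_lit 4) (nat_lit 55786) (nat_lit 11) nil (node (nat_lit 5) (nat_lit 55388) (nat_lit 11) nil
  (node (nat_lit 10) (nat_lit 57038) (nat_lit 11) nil (node (nat_lit 0) (nat_lit 57038) (nat_lit
  11) nil nil)))) (node (nat_lit 5) (nat_lit 54027) (nat_lit 10) (node (nat_lit 10) (nat_lit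
  57385) (nat_lit 11) nil (node (nat_lit 7) (nat_lit 55728) (nat_lit 11) nil nil)) (node (nat_lit
  10) (nat_lit 57059) (nat_lit 10) (node (nat_lit 5) (nat_lit 57059) (nat_lit 11) nil nil) (node
  (nat_lit 0) (nat_lit 56619) (nat_lit 10) nil nil)))) (node (nat_lit 7) (nat_lit 51190) (nat_lit
  9) (node (nat_lit 4) (nat_lit 52219) (nat_lit 10) (node (nat_lit 7) (nat_lit 52884) (nat_lit 11)
  nil (node (nat_lit 5) (nat_lit 54300) (nat_lit 11) nil (node (nat_lit 0) (nat_lit 55519)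
  (nat_lit 11) nil nil))) (node (nat_lit 5) (nat_lit 52766) (nat_lit 10) (node (nat_lit 4)
  (nat_lit 53430) (nat_lit 11) nil (node (nat_lit 10) (nat_lit 57087) (nat_lit 11) nil (node
  (nat_lit 0) (nat_lit 56066) (nat_lit 11) nil nil))) (node (nat_lit 10) (nat_lit 55797) (nat_lit
  10) nil (node (nat_lit 0) (nat_lit 55797) (nat_lit 10) nil nil)))) (node (nat_lit 0) (nat_lit
  56152) (nat_lit 9) (node (nat_lit 10) (nat_lit 56857) (nat_lit 10) nil (node (nat_lit 5)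
  (nat_lit 56152) (nat_lit 10) nil nil)) nil))) (node (nat_lit 4) (nat_lit 0) (nat_lit 8) (node
  (nat_lit 10) (nat_lit 56508) (nat_lit 9) (node (nat_lit 5) (nat_lit 56508) (nat_lit 10) (node
  (nat_lit 10) (nat_lit 57385) (nat_lit 11) nil nil) nil) (node (nat_lit 5) (nat_lit 52339)
  (nat_lit 9) (node (nat_lit 4) (nat_lit 53256) (nat_lit 10) (node (nat_lit 10) (nat_lit 56556)
  (nat_lit 11) nil nil) nil) (node (nat_lit 7) (nat_lit 50280) (nat_lit 9) nil (node (nat_lit 0)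
  (nat_lit 52885) (nat_lit 9) nil nil)))) (node (nat_lit 0) (nat_lit 54513) (nat_lit 8) (node
  (nat_lit 5) (nat_lit 54513) (nat_lit 9) (node (nat_lit 10) (nat_lit 56503) (nat_lit 10) nil nil)
  (node (nat_lit 10) (nat_lit 55797) (nat_lit 9) nil nil)) (node (nat_lit 7) (nat_lit 49333)
  (nat_lit 8) (node (nat_lit 5) (nat_lit 51190) (nat_lit 9) (node (nat_lit 7) (nat_lit 52107)
  (nat_lit 10) (node (nat_lit 10) (nat_lit 55407) (nat_lit 11) nil nil) nil) (node (nat_lit 10)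
  (nat_lit 56152) (nat_lit 9) (node (nat_lit 5) (nat_lit 56152) (nat_lit 10) nil nil) (node
  (nat_lit 4) (nat_lit 49333) (nat_lit 9) nil nil))) nil)))) (node (nat_lit 7) (nat_lit 0)
  (nat_lit 7) (node (nat_lit 0) (nat_lit 52129) (nat_lit 8) (node (nat_lit 5) (nat_lit 52371)
  (nat_lit 9) (node (nat_lit 7) (nat_lit 53629) (nat_lit 10) (node (nat_lit 5) (nat_lit 54295)
  (nat_lit 11) (node (nat_lit 4) (nat_lit 54532) (nat_lit 12) nil (node (nat_lit 11) (nat_lit
  57680) (nat_lit 12) nil (node (nat_lit 0) (nat_lit 57680) (nat_lit 12) nil nil))) (node (nat_lit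
  4) (nat_lit 54831) (nat_lit 11) (node (nat_lit 11) (nat_lit 56725) (nat_lit 12) nil (node
  (nat_lit 5) (nat_lit 55735) (nat_lit 12) nil (node (nat_lit 7) (nat_lit 55735) (nat_lit 12) nil
  nil))) (node (nat_lit 0) (nat_lit 57385) (nat_lit 11) nil nil))) nil) (node (nat_lit 7) (nat_lit
  52129) (nat_lit 9) (node (nat_lit 5) (nat_lit 52129) (nat_lit 10) nil nil) nil)) nil) nil))
  nil)) (node (nat_lit 0) (nat_lit 0) (nat_lit 5) (node (nat_lit 5) (nat_lit 0) (nat_lit 6) (node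
  (nat_lit 4) (nat_lit 71481) (nat_lit 7) (node (nat_lit 7) (nat_lit 76740) (nat_lit 8) (node
  (nat_lit 4) (nat_lit 80303) (nat_lit 9) nil (node (nat_lit 5) (nat_lit 77350) (nat_lit 9) nil
  nil)) (node (nat_lit 5) (nat_lit 76501) (nat_lit 8) (node (nat_lit 7) (nat_lit 78569) (nat_lit
  9) nil nil) (node (nat_lit 8) (nat_lit 75573) (nat_lit 8) nil nil))) (node (nat_lit 7) (nat_lit
  70326) (nat_lit 7) (node (nat_lit 4) (nat_lit 73072) (nat_lit 8) (node (nat_lit 5) (nat_lit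
  75140) (nat_lit 9) nil (node (nat_lit 7) (nat_lit 75140) (nat_lit 9) nil nil)) (node (nat_lit 5)
  (nat_lit 74687) (nat_lit 8) (node (nat_lit 4) (nat_lit 72662) (nat_lit 9) nil nil) (node
  (nat_lit 8) (nat_lit 74418) (nat_lit 8) nil nil))) (node (nat_lit 8) (nat_lit 80303) (nat_lit 7)
  nil (node (nat_lit 0) (nat_lit 67810) (nat_lit 7) nil nil)))) (node (nat_lit 7) (nat_lit 0)
  (nat_lit 6) (node (nat_lit 4) (nat_lit 71618) (nat_lit 7) (node (nat_lit 5) (nat_lit 76722)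
  (nat_lit 8) (node (nat_lit 4) (nat_lit 80303) (nat_lit 9) (node (nat_lit 7) (nat_lit 80303)
  (nat_lit 10) nil nil) (node (nat_lit 7) (nat_lit 78789) (nat_lit 9) nil nil)) (node (nat_lit 7)
  (nat_lit 74686) (nat_lit 8) (node (nat_lit 5) (nat_lit 75777) (nat_lit 9) nil nil) (node
  (nat_lit 8) (nat_lit 75709) (nat_lit 8) nil nil))) (node (nat_lit 5) (nat_lit 71103) (nat_lit 7)
  (node (nat_lit 4) (nat_lit 77659) (nat_lit 8) (node (nat_lit 7) (nat_lit 79727) (nat_lit 9) nil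
  (node (nat_lit 5) (nat_lit 79941) (nat_lit 9) (node (nat_lit 7) (nat_lit 80303) (nat_lit 10) nil
  nil) nil)) (node (nat_lit 7) (nat_lit 76433) (nat_lit 8) (node (nat_lit 4) (nat_lit 78501)
  (nat_lit 9) nil nil) nil)) (node (nat_lit 0) (nat_lit 67946) (nat_lit 7) nil nil))) (node
  (nat_lit 4) (nat_lit 0) (nat_lit 6) (node (nat_lit 7) (nat_lit 72159) (nat_lit 7) (node (nat_lit
  5) (nat_lit 76100) (nat_lit 8) (node (nat_lit 4) (nat_lit 76625) (nat_lit 9) nil (node (nat_lit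
  7) (nat_lit 78168) (nat_lit 9) nil nil)) (node (nat_lit 4) (nat_lit 75860) (nat_lit 8) (node
  (nat_lit 5) (nat_lit 77928) (nat_lit 9) nil nil) nil)) (node (nat_lit 5) (nat_lit 71198)
  (nat_lit 7) (node (nat_lit 7) (nat_lit 74900) (nat_lit 8) (node (nat_lit 4) (nat_lit 76967)
  (nat_lit 9) nil (node (nat_lit 5) (nat_lit 76967) (nat_lit 9) nil nil)) (node (nat_lit 4)
  (nat_lit 74900) (nat_lit 8) (node (nat_lit 7) (nat_lit 76967) (nat_lit 9) nil nil) (node
  (nat_lit 8) (nat_lit 75289) (nat_lit 8) nil nil))) (node (nat_lit 8) (nat_lit 80303) (nat_lit 7)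
  nil (node (nat_lit 0) (nat_lit 68619) (nat_lit 7) nil nil)))) (node (nat_lit 0) (nat_lit 74000)
  (nat_lit 6) nil nil)))) nil)))

noncomputable def c46 : Tr :=
  (node (nat_lit 3) (nat_lit 0) (nat_lit 1) (node (nat_lit 3) (nat_lit 0) (nat_lit 2) (node
  (nat_lit 3) (nat_lit 0) (nat_lit 3) (node (nat_lit 4) (nat_lit 0) (nat_lit 4) t429 (node
  (nat_lit 5) (nat_lit 0) (nat_lit 4) t430 nil)) (node (nat_lit 4) (nat_lit 0) (nat_lit 3) (node
  (nat_lit 3) (nat_lit 0) (nat_lit 4) t431 nil) nil)) nil) nil)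

noncomputable def t432 : Tr :=
  (node (nat_lit 6) (nat_lit 0) (nat_lit 5) (node (nat_lit 5) (nat_lit 0) (nat_lit 6) (node
  (nat_lit 4) (nat_lit 0) (nat_lit 7) (node (nat_lit 0) (nat_lit 0) (nat_lit 8) (node (nat_lit 4)
  (nat_lit 0) (nat_lit 9) (node (nat_lit 5) (nat_lit 110338) (nat_lit 10) (node (nat_lit 6)
  (nat_lit 116136) (nat_lit 11) (node (nat_lit 4) (nat_lit 117431) (nat_lit 12) nil (node (nat_lit
  5) (nat_lit 117770) (nat_lit 12) nil nil)) (node (nat_lit 4) (nat_lit 115833) (nat_lit 11) (node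
  (nat_lit 11) (nat_lit 118767) (nat_lit 12) nil (node (nat_lit 6) (nat_lit 110999) (nat_lit 12)
  nil nil)) (node (nat_lit 11) (nat_lit 118789) (nat_lit 11) (node (nat_lit 4) (nat_lit 118789)
  (nat_lit 12) nil nil) (node (nat_lit 0) (nat_lit 116973) (nat_lit 11) nil nil)))) (node (nat_lit
  6) (nat_lit 110322) (nat_lit 10) (node (nat_lit 5) (nat_lit 116344) (nat_lit 11) (node (nat_lit
  6) (nat_lit 118335) (nat_lit 12) nil (node (nat_lit 4) (nat_lit 115237) (nat_lit 12) nil nil))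
  (node (nat_lit 4) (nat_lit 116121) (nat_lit 11) (node (nat_lit 5) (nat_lit 117216) (nat_lit 12)
  nil (node (nat_lit 11) (nat_lit 119055) (nat_lit 12) nil nil)) (node (nat_lit 11) (nat_lit
  118262) (nat_lit 11) nil (node (nat_lit 0) (nat_lit 116958) (nat_lit 11) nil nil)))) (node
  (nat_lit 0) (nat_lit 115907) (nat_lit 10) (node (nat_lit 11) (nat_lit 116873) (nat_lit 11) nil
  (node (nat_lit 4) (nat_lit 115907) (nat_lit 11) nil nil)) nil))) (node (nat_lit 5) (nat_lit 0)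
  (nat_lit 9) (node (nat_lit 11) (nat_lit 115455) (nat_lit 10) (node (nat_lit 4) (nat_lit 116479)
  (nat_lit 11) (node (nat_lit 11) (nat_lit 119913) (nat_lit 12) nil nil) nil) (node (nat_lit 4)
  (nat_lit 111256) (nat_lit 10) (node (nat_lit 5) (nat_lit 114034) (nat_lit 11) (node (nat_lit 11)
  (nat_lit 116968) (nat_lit 12) nil nil) nil) (node (nat_lit 6) (nat_lit 109424) (nat_lit 10) nil
  (node (nat_lit 0) (nat_lit 110486) (nat_lit 10) nil nil)))) (node (nat_lit 6) (nat_lit 106743)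
  (nat_lit 9) (node (nat_lit 4) (nat_lit 110921) (nat_lit 10) (node (nat_lit 6) (nat_lit 114086)
  (nat_lit 11) (node (nat_lit 11) (nat_lit 117020) (nat_lit 12) nil nil) nil) (node (nat_lit 11)
  (nat_lit 116557) (nat_lit 10) (node (nat_lit 4) (nat_lit 116557) (nat_lit 11) nil nil) nil))
  (node (nat_lit 0) (nat_lit 112551) (nat_lit 9) (node (nat_lit 4) (nat_lit 112696) (nat_lit 10)
  (node (nat_lit 11) (nat_lit 114756) (nat_lit 11) nil nil) (node (nat_lit 11) (nat_lit 114793)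
  (nat_lit 10) nil nil)) nil)))) (node (nat_lit 5) (nat_lit 0) (nat_lit 8) (node (nat_lit 0)
  (nat_lit 0) (nat_lit 9) (node (nat_lit 4) (nat_lit 93959) (nat_lit 10) (node (nat_lit 5)
  (nat_lit 96435) (nat_lit 11) (node (nat_lit 4) (nat_lit 101156) (nat_lit 12) (node (nat_lit 12)
  (nat_lit 108051) (nat_lit 13) (node (nat_lit 5) (nat_lit 108047) (nat_lit 14) nil (node (nat_lit
  4) (nat_lit 108137) (nat_lit 14) (node (nat_lit 5) (nat_lit 108137) (nat_lit 15) nil nil) nil))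
  (node (nat_lit 6) (nat_lit 105563) (nat_lit 13) (node (nat_lit 5) (nat_lit 108191) (nat_lit 14)
  nil (node (nat_lit 4) (nat_lit 107114) (nat_lit 14) nil (node (nat_lit 12) (nat_lit 109270)
  (nat_lit 14) nil nil))) (node (nat_lit 0) (nat_lit 107889) (nat_lit 13) nil nil))) (node
  (nat_lit 6) (nat_lit 101968) (nat_lit 12) (node (nat_lit 4) (nat_lit 105393) (nat_lit 13) (node
  (nat_lit 6) (nat_lit 106083) (nat_lit 14) nil (node (nat_lit 12) (nat_lit 109101) (nat_lit 14)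
  nil nil)) (node (nat_lit 5) (nat_lit 104479) (nat_lit 13) (node (nat_lit 4) (nat_lit 104506)
  (nat_lit 14) nil nil) (node (nat_lit 12) (nat_lit 107963) (nat_lit 13) nil (node (nat_lit 0)
  (nat_lit 106719) (nat_lit 13) nil nil)))) (node (nat_lit 0) (nat_lit 105063) (nat_lit 12) nil
  nil))) (node (nat_lit 12) (nat_lit 102064) (nat_lit 11) (node (nat_lit 5) (nat_lit 102064)
  (nat_lit 12) nil nil) nil)) (node (nat_lit 5) (nat_lit 93509) (nat_lit 10) (node (nat_lit 4)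
  (nat_lit 96146) (nat_lit 11) (node (nat_lit 12) (nat_lit 104554) (nat_lit 12) (node (nat_lit 4)
  (nat_lit 104661) (nat_lit 13) (node (nat_lit 5) (nat_lit 104248) (nat_lit 14) (node (nat_lit 12)
  (nat_lit 107144) (nat_lit 15) nil nil) nil) nil) nil) nil) (node (nat_lit 6) (nat_lit 95856)
  (nat_lit 10) (node (nat_lit 5) (nat_lit 95856) (nat_lit 11) nil nil) (node (nat_lit 0) (nat_lit
  96046) (nat_lit 10) nil nil)))) nil) (node (nat_lit 6) (nat_lit 0) (nat_lit 8) (node (nat_lit 0)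
  (nat_lit 104477) (nat_lit 9) (node (nat_lit 4) (nat_lit 107253) (nat_lit 10) (node (nat_lit 6)
  (nat_lit 111407) (nat_lit 11) (node (nat_lit 5) (nat_lit 114134) (nat_lit 12) (node (nat_lit 12)
  (nat_lit 118884) (nat_lit 13) nil nil) (node (nat_lit 4) (nat_lit 115018) (nat_lit 12) (node
  (nat_lit 12) (nat_lit 119769) (nat_lit 13) nil nil) (node (nat_lit 0) (nat_lit 117496) (nat_lit
  12) nil nil))) nil) (node (nat_lit 6) (nat_lit 104477) (nat_lit 10) nil nil)) nil) nil))) (node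
  (nat_lit 0) (nat_lit 0) (nat_lit 7) (node (nat_lit 4) (nat_lit 0) (nat_lit 8) (node (nat_lit 5)
  (nat_lit 135653) (nat_lit 9) (node (nat_lit 4) (nat_lit 139691) (nat_lit 10) (node (nat_lit 6)
  (nat_lit 142724) (nat_lit 11) (node (nat_lit 4) (nat_lit 139761) (nat_lit 12) (node (nat_lit 5)
  (nat_lit 138915) (nat_lit 13) nil nil) (node (nat_lit 5) (nat_lit 139993) (nat_lit 12) nil nil))
  nil) (node (nat_lit 6) (nat_lit 140564) (nat_lit 10) (node (nat_lit 4) (nat_lit 143097) (nat_lit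
  11) nil (node (nat_lit 5) (nat_lit 139482) (nat_lit 11) (node (nat_lit 4) (nat_lit 136771)
  (nat_lit 12) nil nil) nil)) (node (nat_lit 10) (nat_lit 143709) (nat_lit 10) nil nil))) (node
  (nat_lit 6) (nat_lit 134296) (nat_lit 9) (node (nat_lit 4) (nat_lit 139075) (nat_lit 10) (node
  (nat_lit 5) (nat_lit 141978) (nat_lit 11) (node (nat_lit 6) (nat_lit 143254) (nat_lit 12) (node
  (nat_lit 5) (nat_lit 144523) (nat_lit 13) (node (nat_lit 4) (nat_lit 143260) (nat_lit 14) (node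
  (nat_lit 5) (nat_lit 143388) (nat_lit 15) (node (nat_lit 6) (nat_lit 141372) (nat_lit 16) nil
  nil) nil) nil) nil) nil) nil) (node (nat_lit 5) (nat_lit 138724) (nat_lit 10) nil nil)) (node
  (nat_lit 10) (nat_lit 143169) (nat_lit 9) nil (node (nat_lit 0) (nat_lit 137644) (nat_lit 9) nil
  nil)))) (node (nat_lit 6) (nat_lit 0) (nat_lit 8) (node (nat_lit 4) (nat_lit 135366) (nat_lit 9)
  (node (nat_lit 5) (nat_lit 138766) (nat_lit 10) (node (nat_lit 4) (nat_lit 138479) (nat_lit 11)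
  nil nil) (node (nat_lit 6) (nat_lit 139886) (nat_lit 10) (node (nat_lit 5) (nat_lit 142469)
  (nat_lit 11) (node (nat_lit 4) (nat_lit 140284) (nat_lit 12) (node (nat_lit 5) (nat_lit 139576)
  (nat_lit 13) (node (nat_lit 6) (nat_lit 135042) (nat_lit 14) (node (nat_lit 4) (nat_lit 128175)
  (nat_lit 15) (node (nat_lit 6) (nat_lit 117720) (nat_lit 16) nil nil) nil) nil) nil) nil) nil)
  nil)) (node (nat_lit 5) (nat_lit 135528) (nat_lit 9) (node (nat_lit 6) (nat_lit 139956) (nat_lit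
  10) nil (node (nat_lit 4) (nat_lit 140140) (nat_lit 10) nil nil)) (node (nat_lit 10) (nat_lit
  142244) (nat_lit 9) nil (node (nat_lit 0) (nat_lit 140197) (nat_lit 9) nil nil)))) (node
  (nat_lit 5) (nat_lit 0) (nat_lit 8) (node (nat_lit 6) (nat_lit 135879) (nat_lit 9) (node
  (nat_lit 5) (nat_lit 141267) (nat_lit 10) (node (nat_lit 4) (nat_lit 140980) (nat_lit 11) nil
  nil) (node (nat_lit 4) (nat_lit 139144) (nat_lit 10) nil nil)) (node (nat_lit 4) (nat_lit
  136352) (nat_lit 9) (node (nat_lit 6) (nat_lit 141267) (nat_lit 10) (node (nat_lit 5) (nat_lit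
  138492) (nat_lit 11) nil nil) (node (nat_lit 5) (nat_lit 140780) (nat_lit 10) nil nil)) (node
  (nat_lit 0) (nat_lit 138918) (nat_lit 9) nil nil))) (node (nat_lit 0) (nat_lit 138696) (nat_lit
  8) (node (nat_lit 5) (nat_lit 138542) (nat_lit 9) nil (node (nat_lit 4) (nat_lit 138696)
  (nat_lit 9) nil (node (nat_lit 6) (nat_lit 138696) (nat_lit 9) nil (node (nat_lit 10) (nat_lit
  141229) (nat_lit 9) nil nil)))) nil)))) (node (nat_lit 6) (nat_lit 0) (nat_lit 7) (node (nat_lit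
  0) (nat_lit 0) (nat_lit 8) (node (nat_lit 6) (nat_lit 0) (nat_lit 9) (node (nat_lit 4) (nat_lit
  137527) (nat_lit 10) (node (nat_lit 5) (nat_lit 140109) (nat_lit 11) (node (nat_lit 4) (nat_lit
  139002) (nat_lit 12) nil nil) (node (nat_lit 6) (nat_lit 142370) (nat_lit 11) (node (nat_lit 5)
  (nat_lit 139639) (nat_lit 12) nil nil) (node (nat_lit 11) (nat_lit 142120) (nat_lit 11) nil
  (node (nat_lit 0) (nat_lit 142120) (nat_lit 11) nil nil)))) (node (nat_lit 5) (nat_lit 138771)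
  (nat_lit 10) (node (nat_lit 4) (nat_lit 143356) (nat_lit 11) (node (nat_lit 6) (nat_lit 140626)
  (nat_lit 12) nil nil) (node (nat_lit 11) (nat_lit 143364) (nat_lit 11) nil (node (nat_lit 6)
  (nat_lit 141303) (nat_lit 11) nil nil))) (node (nat_lit 0) (nat_lit 144254) (nat_lit 10) nil
  nil))) (node (nat_lit 5) (nat_lit 135825) (nat_lit 9) (node (nat_lit 6) (nat_lit 139080)
  (nat_lit 10) (node (nat_lit 5) (nat_lit 141613) (nat_lit 11) nil nil) (node (nat_lit 11)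
  (nat_lit 143856) (nat_lit 10) (node (nat_lit 6) (nat_lit 143856) (nat_lit 11) nil nil) nil))
  (node (nat_lit 4) (nat_lit 135888) (nat_lit 9) (node (nat_lit 6) (nat_lit 138492) (nat_lit 10)
  (node (nat_lit 4) (nat_lit 141024) (nat_lit 11) nil nil) (node (nat_lit 11) (nat_lit 139516)
  (nat_lit 10) nil nil)) (node (nat_lit 0) (nat_lit 141450) (nat_lit 9) (node (nat_lit 6) (nat_lit
  141450) (nat_lit 10) nil nil) nil)))) (node (nat_lit 4) (nat_lit 0) (nat_lit 8) (node (nat_lit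
  0) (nat_lit 135573) (nat_lit 9) (node (nat_lit 6) (nat_lit 135719) (nat_lit 10) (node (nat_lit
  4) (nat_lit 137145) (nat_lit 11) (node (nat_lit 6) (nat_lit 139780) (nat_lit 12) (node (nat_lit
  5) (nat_lit 141768) (nat_lit 13) (node (nat_lit 4) (nat_lit 141656) (nat_lit 14) nil nil) (node
  (nat_lit 12) (nat_lit 144531) (nat_lit 13) nil nil)) (node (nat_lit 5) (nat_lit 140653) (nat_lit
  12) (node (nat_lit 4) (nat_lit 140499) (nat_lit 13) nil (node (nat_lit 6) (nat_lit 140828)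
  (nat_lit 13) nil nil)) (node (nat_lit 0) (nat_lit 143233) (nat_lit 12) nil nil))) nil) (node
  (nat_lit 4) (nat_lit 135573) (nat_lit 10) (node (nat_lit 6) (nat_lit 135573) (nat_lit 11) nil
  nil) nil)) nil) nil)) nil))) (node (nat_lit 0) (nat_lit 0) (nat_lit 6) (node (nat_lit 6)
  (nat_lit 124161) (nat_lit 7) (node (nat_lit 4) (nat_lit 129058) (nat_lit 8) (node (nat_lit 5)
  (nat_lit 135482) (nat_lit 9) (node (nat_lit 4) (nat_lit 139657) (nat_lit 10) (node (nat_lit 6)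
  (nat_lit 134574) (nat_lit 11) nil nil) (node (nat_lit 6) (nat_lit 138999) (nat_lit 10) nil nil))
  (node (nat_lit 6) (nat_lit 136497) (nat_lit 9) (node (nat_lit 5) (nat_lit 140852) (nat_lit 10)
  nil nil) (node (nat_lit 9) (nat_lit 141776) (nat_lit 9) nil nil))) (node (nat_lit 5) (nat_lit
  128753) (nat_lit 8) (node (nat_lit 4) (nat_lit 133427) (nat_lit 9) (node (nat_lit 5) (nat_lit
  137855) (nat_lit 10) nil (node (nat_lit 6) (nat_lit 135656) (nat_lit 10) nil nil)) (node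
  (nat_lit 6) (nat_lit 136839) (nat_lit 9) (node (nat_lit 4) (nat_lit 141267) (nat_lit 10) nil
  nil) nil)) nil)) (node (nat_lit 4) (nat_lit 124118) (nat_lit 7) (node (nat_lit 5) (nat_lit
  128982) (nat_lit 8) (node (nat_lit 6) (nat_lit 136839) (nat_lit 9) (node (nat_lit 4) (nat_lit
  141267) (nat_lit 10) nil (node (nat_lit 5) (nat_lit 135158) (nat_lit 10) nil nil)) (node
  (nat_lit 4) (nat_lit 131110) (nat_lit 9) (node (nat_lit 6) (nat_lit 130870) (nat_lit 10) nil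
  nil) nil)) (node (nat_lit 6) (nat_lit 129016) (nat_lit 8) (node (nat_lit 5) (nat_lit 135482)
  (nat_lit 9) (node (nat_lit 4) (nat_lit 136084) (nat_lit 10) nil (node (nat_lit 6) (nat_lit
  139910) (nat_lit 10) nil nil)) (node (nat_lit 4) (nat_lit 135390) (nat_lit 9) (node (nat_lit 5)
  (nat_lit 139818) (nat_lit 10) nil nil) nil)) (node (nat_lit 9) (nat_lit 138355) (nat_lit 8) nil
  nil))) (node (nat_lit 5) (nat_lit 124071) (nat_lit 7) (node (nat_lit 6) (nat_lit 127790)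
  (nat_lit 8) (node (nat_lit 4) (nat_lit 133680) (nat_lit 9) (node (nat_lit 6) (nat_lit 134469)
  (nat_lit 10) nil (node (nat_lit 5) (nat_lit 138108) (nat_lit 10) nil nil)) (node (nat_lit 5)
  (nat_lit 134954) (nat_lit 9) nil nil)) (node (nat_lit 4) (nat_lit 129114) (nat_lit 8) (node
  (nat_lit 6) (nat_lit 136721) (nat_lit 9) (node (nat_lit 5) (nat_lit 141267) (nat_lit 10) nil
  (node (nat_lit 4) (nat_lit 141149) (nat_lit 10) nil nil)) (node (nat_lit 5) (nat_lit 133462)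
  (nat_lit 9) (node (nat_lit 6) (nat_lit 134251) (nat_lit 10) nil nil) nil)) (node (nat_lit 9)
  (nat_lit 139576) (nat_lit 8) nil nil))) (node (nat_lit 0) (nat_lit 133166) (nat_lit 7) nil
  nil)))) nil)) (node (nat_lit 5) (nat_lit 0) (nat_lit 5) (node (nat_lit 4) (nat_lit 0) (nat_lit
  6) (node (nat_lit 6) (nat_lit 0) (nat_lit 7) (node (nat_lit 0) (nat_lit 0) (nat_lit 8) (node
  (nat_lit 6) (nat_lit 0) (nat_lit 9) (node (nat_lit 4) (nat_lit 77465) (nat_lit 10) (node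
  (nat_lit 5) (nat_lit 79108) (nat_lit 11) (node (nat_lit 6) (nat_lit 79611) (nat_lit 12) nil
  (node (nat_lit 4) (nat_lit 79393) (nat_lit 12) nil nil)) (node (nat_lit 6) (nat_lit 79108)
  (nat_lit 11) (node (nat_lit 11) (nat_lit 80142) (nat_lit 12) nil nil) (node (nat_lit 11)
  (nat_lit 80054) (nat_lit 11) (node (nat_lit 6) (nat_lit 80054) (nat_lit 12) nil nil) (node
  (nat_lit 0) (nat_lit 80054) (nat_lit 11) nil nil)))) (node (nat_lit 5) (nat_lit 76579) (nat_lit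
  10) (node (nat_lit 4) (nat_lit 78834) (nat_lit 11) (node (nat_lit 6) (nat_lit 79337) (nat_lit
  12) nil nil) (node (nat_lit 6) (nat_lit 79108) (nat_lit 11) nil (node (nat_lit 11) (nat_lit
  78632) (nat_lit 11) nil (node (nat_lit 0) (nat_lit 80054) (nat_lit 11) nil nil)))) (node
  (nat_lit 0) (nat_lit 79611) (nat_lit 10) (node (nat_lit 11) (nat_lit 80054) (nat_lit 11) nil
  (node (nat_lit 6) (nat_lit 79611) (nat_lit 11) nil nil)) nil))) (node (nat_lit 4) (nat_lit 0)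
  (nat_lit 9) (node (nat_lit 11) (nat_lit 79611) (nat_lit 10) (node (nat_lit 6) (nat_lit 79611)
  (nat_lit 11) nil nil) (node (nat_lit 6) (nat_lit 77362) (nat_lit 10) (node (nat_lit 4) (nat_lit
  79108) (nat_lit 11) nil nil) (node (nat_lit 0) (nat_lit 76319) (nat_lit 10) nil (node (nat_lit
  5) (nat_lit 74709) (nat_lit 10) nil nil)))) (node (nat_lit 5) (nat_lit 73655) (nat_lit 9) (node
  (nat_lit 6) (nat_lit 76308) (nat_lit 10) (node (nat_lit 5) (nat_lit 77415) (nat_lit 11) nil nil)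
  (node (nat_lit 11) (nat_lit 78572) (nat_lit 10) (node (nat_lit 6) (nat_lit 78572) (nat_lit 11)
  nil nil) nil)) (node (nat_lit 0) (nat_lit 77390) (nat_lit 9) (node (nat_lit 6) (nat_lit 78078)
  (nat_lit 10) (node (nat_lit 11) (nat_lit 79024) (nat_lit 11) nil nil) (node (nat_lit 11)
  (nat_lit 77893) (nat_lit 10) nil nil)) nil)))) (node (nat_lit 4) (nat_lit 0) (nat_lit 8) (node
  (nat_lit 0) (nat_lit 75305) (nat_lit 9) (node (nat_lit 6) (nat_lit 76486) (nat_lit 10) (node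
  (nat_lit 4) (nat_lit 76689) (nat_lit 11) (node (nat_lit 6) (nat_lit 77821) (nat_lit 12) (node
  (nat_lit 12) (nat_lit 79931) (nat_lit 13) (node (nat_lit 4) (nat_lit 79931) (nat_lit 14) (node
  (nat_lit 6) (nat_lit 79931) (nat_lit 15) nil nil) (node (nat_lit 6) (nat_lit 79931) (nat_lit 14)
  (node (nat_lit 4) (nat_lit 79931) (nat_lit 15) nil nil) nil)) (node (nat_lit 5) (nat_lit 78704)
  (nat_lit 13) (node (nat_lit 6) (nat_lit 79393) (nat_lit 14) nil (node (nat_lit 4) (nat_lit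
  79393) (nat_lit 14) nil nil)) (node (nat_lit 0) (nat_lit 79931) (nat_lit 13) nil nil))) (node
  (nat_lit 5) (nat_lit 77821) (nat_lit 12) (node (nat_lit 6) (nat_lit 78704) (nat_lit 13) (node
  (nat_lit 5) (nat_lit 79393) (nat_lit 14) nil (node (nat_lit 12) (nat_lit 80142) (nat_lit 14) nil
  nil)) (node (nat_lit 4) (nat_lit 78704) (nat_lit 13) (node (nat_lit 6) (nat_lit 77986) (nat_lit
  14) nil nil) (node (nat_lit 12) (nat_lit 79931) (nat_lit 13) nil nil))) (node (nat_lit 0)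
  (nat_lit 79393) (nat_lit 12) nil nil))) (node (nat_lit 12) (nat_lit 78704) (nat_lit 11) (node
  (nat_lit 4) (nat_lit 78704) (nat_lit 12) nil nil) nil)) (node (nat_lit 4) (nat_lit 76365)
  (nat_lit 10) (node (nat_lit 6) (nat_lit 76689) (nat_lit 11) (node (nat_lit 12) (nat_lit 79393)
  (nat_lit 12) (node (nat_lit 6) (nat_lit 79393) (nat_lit 13) (node (nat_lit 4) (nat_lit 79393)
  (nat_lit 14) nil nil) nil) nil) nil) (node (nat_lit 5) (nat_lit 75601) (nat_lit 10) (node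
  (nat_lit 4) (nat_lit 75601) (nat_lit 11) nil nil) nil))) nil) (node (nat_lit 5) (nat_lit 0)
  (nat_lit 8) (node (nat_lit 0) (nat_lit 75305) (nat_lit 9) (node (nat_lit 6) (nat_lit 76486)
  (nat_lit 10) (node (nat_lit 5) (nat_lit 76689) (nat_lit 11) (node (nat_lit 4) (nat_lit 77821)
  (nat_lit 12) nil (node (nat_lit 6) (nat_lit 77821) (nat_lit 12) (node (nat_lit 12) (nat_lit
  79931) (nat_lit 13) nil (node (nat_lit 4) (nat_lit 78704) (nat_lit 13) nil (node (nat_lit 0)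
  (nat_lit 79931) (nat_lit 13) nil nil))) (node (nat_lit 0) (nat_lit 79393) (nat_lit 12) nil
  nil))) nil) (node (nat_lit 5) (nat_lit 75305) (nat_lit 10) nil nil)) nil) nil))) (node (nat_lit
  0) (nat_lit 0) (nat_lit 7) (node (nat_lit 5) (nat_lit 0) (nat_lit 8) (node (nat_lit 4) (nat_lit
  75660) (nat_lit 9) (node (nat_lit 5) (nat_lit 76307) (nat_lit 10) (node (nat_lit 6) (nat_lit
  74803) (nat_lit 11) nil nil) (node (nat_lit 6) (nat_lit 78001) (nat_lit 10) (node (nat_lit 5)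
  (nat_lit 79108) (nat_lit 11) (node (nat_lit 4) (nat_lit 79611) (nat_lit 12) (node (nat_lit 5)
  (nat_lit 79783) (nat_lit 13) (node (nat_lit 6) (nat_lit 76253) (nat_lit 14) (node (nat_lit 4)
  (nat_lit 68263) (nat_lit 15) nil nil) nil) nil) nil) (node (nat_lit 4) (nat_lit 79108) (nat_lit
  11) nil nil)) nil)) (node (nat_lit 6) (nat_lit 75941) (nat_lit 9) (node (nat_lit 5) (nat_lit
  78001) (nat_lit 10) (node (nat_lit 4) (nat_lit 79108) (nat_lit 11) nil nil) (node (nat_lit 4)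
  (nat_lit 77450) (nat_lit 10) (node (nat_lit 6) (nat_lit 75945) (nat_lit 11) nil nil) nil)) (node
  (nat_lit 10) (nat_lit 78733) (nat_lit 9) (node (nat_lit 4) (nat_lit 78733) (nat_lit 10) (node
  (nat_lit 5) (nat_lit 78733) (nat_lit 11) nil nil) (node (nat_lit 6) (nat_lit 78733) (nat_lit 10)
  nil nil)) (node (nat_lit 0) (nat_lit 77849) (nat_lit 9) nil nil)))) (node (nat_lit 6) (nat_lit
  0) (nat_lit 8) (node (nat_lit 4) (nat_lit 76351) (nat_lit 9) (node (nat_lit 6) (nat_lit 78001)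
  (nat_lit 10) (node (nat_lit 5) (nat_lit 79108) (nat_lit 11) (node (nat_lit 4) (nat_lit 79611)
  (nat_lit 12) (node (nat_lit 5) (nat_lit 79315) (nat_lit 13) (node (nat_lit 6) (nat_lit 65628)
  (nat_lit 14) nil nil) nil) nil) nil) (node (nat_lit 5) (nat_lit 78001) (nat_lit 10) (node
  (nat_lit 4) (nat_lit 79108) (nat_lit 11) nil nil) nil)) (node (nat_lit 5) (nat_lit 76351)
  (nat_lit 9) (node (nat_lit 4) (nat_lit 78001) (nat_lit 10) nil (node (nat_lit 6) (nat_lit 78001)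
  (nat_lit 10) nil nil)) (node (nat_lit 10) (nat_lit 79108) (nat_lit 9) (node (nat_lit 4) (nat_lit
  79108) (nat_lit 10) nil nil) (node (nat_lit 0) (nat_lit 77061) (nat_lit 9) nil nil)))) (node
  (nat_lit 4) (nat_lit 0) (nat_lit 8) (node (nat_lit 5) (nat_lit 74664) (nat_lit 9) (node (nat_lit
  6) (nat_lit 77517) (nat_lit 10) (node (nat_lit 5) (nat_lit 77906) (nat_lit 11) (node (nat_lit 4)
  (nat_lit 71170) (nat_lit 12) nil nil) nil) (node (nat_lit 4) (nat_lit 74622) (nat_lit 10) nil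
  nil)) (node (nat_lit 6) (nat_lit 76023) (nat_lit 9) (node (nat_lit 5) (nat_lit 78001) (nat_lit
  10) nil (node (nat_lit 4) (nat_lit 77674) (nat_lit 10) nil nil)) (node (nat_lit 0) (nat_lit
  77390) (nat_lit 9) nil nil))) (node (nat_lit 0) (nat_lit 76868) (nat_lit 8) (node (nat_lit 10)
  (nat_lit 78550) (nat_lit 9) nil (node (nat_lit 4) (nat_lit 75938) (nat_lit 9) nil (node (nat_lit
  5) (nat_lit 76868) (nat_lit 9) nil (node (nat_lit 6) (nat_lit 76868) (nat_lit 9) nil nil))))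
  nil)))) nil)) (node (nat_lit 0) (nat_lit 0) (nat_lit 6) (node (nat_lit 6) (nat_lit 69360)
  (nat_lit 7) (node (nat_lit 4) (nat_lit 73121) (nat_lit 8) (node (nat_lit 5) (nat_lit 76351)
  (nat_lit 9) (node (nat_lit 4) (nat_lit 78001) (nat_lit 10) nil (node (nat_lit 6) (nat_lit 74362)
  (nat_lit 10) nil nil)) (node (nat_lit 6) (nat_lit 76351) (nat_lit 9) nil (node (nat_lit 9)
  (nat_lit 78533) (nat_lit 9) nil nil))) (node (nat_lit 5) (nat_lit 71992) (nat_lit 8) (node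
  (nat_lit 4) (nat_lit 76054) (nat_lit 9) nil (node (nat_lit 6) (nat_lit 76054) (nat_lit 9) nil
  nil)) (node (nat_lit 9) (nat_lit 77718) (nat_lit 8) nil nil))) (node (nat_lit 4) (nat_lit 69317)
  (nat_lit 7) (node (nat_lit 5) (nat_lit 72221) (nat_lit 8) (node (nat_lit 6) (nat_lit 76351)
  (nat_lit 9) (node (nat_lit 4) (nat_lit 78001) (nat_lit 10) nil (node (nat_lit 5) (nat_lit 74743)
  (nat_lit 10) nil nil)) (node (nat_lit 4) (nat_lit 73467) (nat_lit 9) nil nil)) (node (nat_lit 6)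
  (nat_lit 73078) (nat_lit 8) (node (nat_lit 5) (nat_lit 76351) (nat_lit 9) (node (nat_lit 6)
  (nat_lit 78001) (nat_lit 10) nil nil) (node (nat_lit 4) (nat_lit 76351) (nat_lit 9) nil nil))
  (node (nat_lit 9) (nat_lit 77675) (nat_lit 8) nil nil))) (node (nat_lit 5) (nat_lit 67954)
  (nat_lit 7) (node (nat_lit 6) (nat_lit 71714) (nat_lit 8) (node (nat_lit 4) (nat_lit 76351)
  (nat_lit 9) (node (nat_lit 6) (nat_lit 78001) (nat_lit 10) nil (node (nat_lit 5) (nat_lit 78001)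
  (nat_lit 10) nil nil)) (node (nat_lit 5) (nat_lit 76218) (nat_lit 9) (node (nat_lit 4) (nat_lit
  77869) (nat_lit 10) nil nil) nil)) (node (nat_lit 4) (nat_lit 71728) (nat_lit 8) (node (nat_lit
  6) (nat_lit 76232) (nat_lit 9) (node (nat_lit 4) (nat_lit 77883) (nat_lit 10) nil (node (nat_lit
  5) (nat_lit 78001) (nat_lit 10) nil nil)) (node (nat_lit 5) (nat_lit 73418) (nat_lit 9) (node
  (nat_lit 6) (nat_lit 71428) (nat_lit 10) nil nil) nil)) nil)) (node (nat_lit 0) (nat_lit 73876)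
  (nat_lit 7) nil nil)))) nil)) nil))

noncomputable def t433 : Tr :=
  (node (nat_lit 6) (nat_lit 0) (nat_lit 6) (node (nat_lit 0) (nat_lit 0) (nat_lit 7) (node
  (nat_lit 4) (nat_lit 0) (nat_lit 8) (node (nat_lit 6) (nat_lit 115515) (nat_lit 9) (node
  (nat_lit 5) (nat_lit 125752) (nat_lit 10) (node (nat_lit 4) (nat_lit 127130) (nat_lit 11) (node
  (nat_lit 6) (nat_lit 128540) (nat_lit 12) (node (nat_lit 4) (nat_lit 129092) (nat_lit 13) (node
  (nat_lit 5) (nat_lit 128209) (nat_lit 14) (node (nat_lit 6) (nat_lit 124467) (nat_lit 15) (node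
  (nat_lit 5) (nat_lit 121387) (nat_lit 16) (node (nat_lit 4) (nat_lit 113332) (nat_lit 17) nil
  nil) nil) nil) nil) nil) nil) (node (nat_lit 6) (nat_lit 125645) (nat_lit 11) (node (nat_lit 4)
  (nat_lit 125037) (nat_lit 12) (node (nat_lit 5) (nat_lit 122658) (nat_lit 13) (node (nat_lit 6)
  (nat_lit 118041) (nat_lit 14) (node (nat_lit 5) (nat_lit 110113) (nat_lit 15) (node (nat_lit 4)
  (nat_lit 103656) (nat_lit 16) (node (nat_lit 6) (nat_lit 103872) (nat_lit 17) nil nil) nil) nil)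
  nil) nil) nil) nil)) (node (nat_lit 4) (nat_lit 123810) (nat_lit 10) (node (nat_lit 5) (nat_lit
  126342) (nat_lit 11) nil nil) nil)) (node (nat_lit 5) (nat_lit 116916) (nat_lit 9) (node
  (nat_lit 6) (nat_lit 122216) (nat_lit 10) (node (nat_lit 5) (nat_lit 125928) (nat_lit 11) (node
  (nat_lit 4) (nat_lit 125803) (nat_lit 12) nil nil) nil) (node (nat_lit 4) (nat_lit 123361)
  (nat_lit 10) (node (nat_lit 6) (nat_lit 126427) (nat_lit 11) (node (nat_lit 5) (nat_lit 121394)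
  (nat_lit 12) nil nil) nil) (node (nat_lit 10) (nat_lit 124972) (nat_lit 10) nil nil))) (node
  (nat_lit 10) (nat_lit 123620) (nat_lit 9) (node (nat_lit 6) (nat_lit 122764) (nat_lit 10) (node
  (nat_lit 4) (nat_lit 123755) (nat_lit 11) (node (nat_lit 6) (nat_lit 125581) (nat_lit 12) (node
  (nat_lit 5) (nat_lit 124819) (nat_lit 13) (node (nat_lit 4) (nat_lit 124038) (nat_lit 14) nil
  nil) nil) nil) nil) (node (nat_lit 5) (nat_lit 123620) (nat_lit 10) nil nil)) (node (nat_lit 0)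
  (nat_lit 118372) (nat_lit 9) nil nil)))) (node (nat_lit 5) (nat_lit 0) (nat_lit 8) (node
  (nat_lit 6) (nat_lit 117809) (nat_lit 9) (node (nat_lit 5) (nat_lit 127210) (nat_lit 10) (node
  (nat_lit 4) (nat_lit 129881) (nat_lit 11) (node (nat_lit 6) (nat_lit 127029) (nat_lit 12) (node
  (nat_lit 4) (nat_lit 127582) (nat_lit 13) (node (nat_lit 5) (nat_lit 126698) (nat_lit 14) nil
  nil) nil) nil) nil) (node (nat_lit 4) (nat_lit 121962) (nat_lit 10) (node (nat_lit 6) (nat_lit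
  124499) (nat_lit 11) nil (node (nat_lit 5) (nat_lit 124494) (nat_lit 11) nil nil)) (node
  (nat_lit 10) (nat_lit 125865) (nat_lit 10) nil nil))) (node (nat_lit 4) (nat_lit 117809)
  (nat_lit 9) (node (nat_lit 6) (nat_lit 122356) (nat_lit 10) (node (nat_lit 5) (nat_lit 118683)
  (nat_lit 11) (node (nat_lit 4) (nat_lit 119604) (nat_lit 12) (node (nat_lit 5) (nat_lit 118038)
  (nat_lit 13) (node (nat_lit 6) (nat_lit 114021) (nat_lit 14) (node (nat_lit 5) (nat_lit 107881)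
  (nat_lit 15) (node (nat_lit 4) (nat_lit 95725) (nat_lit 16) (node (nat_lit 6) (nat_lit 75563)
  (nat_lit 17) nil nil) nil) nil) nil) nil) nil) (node (nat_lit 4) (nat_lit 124889) (nat_lit 11)
  nil nil)) (node (nat_lit 5) (nat_lit 122535) (nat_lit 10) (node (nat_lit 6) (nat_lit 122457)
  (nat_lit 11) nil nil) (node (nat_lit 10) (nat_lit 125865) (nat_lit 10) nil nil))) (node (nat_lit
  10) (nat_lit 125448) (nat_lit 9) (node (nat_lit 6) (nat_lit 125392) (nat_lit 10) (node (nat_lit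
  5) (nat_lit 125392) (nat_lit 11) nil nil) (node (nat_lit 4) (nat_lit 125448) (nat_lit 10) nil
  nil)) (node (nat_lit 0) (nat_lit 119135) (nat_lit 9) nil nil)))) (node (nat_lit 6) (nat_lit 0)
  (nat_lit 8) (node (nat_lit 5) (nat_lit 117485) (nat_lit 9) (node (nat_lit 4) (nat_lit 125478)
  (nat_lit 10) (node (nat_lit 6) (nat_lit 122383) (nat_lit 11) (node (nat_lit 4) (nat_lit 122783)
  (nat_lit 12) (node (nat_lit 5) (nat_lit 121458) (nat_lit 13) (node (nat_lit 6) (nat_lit 116347)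
  (nat_lit 14) (node (nat_lit 5) (nat_lit 111063) (nat_lit 15) (node (nat_lit 4) (nat_lit 99118)
  (nat_lit 16) nil nil) nil) nil) nil) nil) (node (nat_lit 5) (nat_lit 128011) (nat_lit 11) nil
  nil)) (node (nat_lit 6) (nat_lit 123583) (nat_lit 10) nil nil)) (node (nat_lit 4) (nat_lit
  115605) (nat_lit 9) (node (nat_lit 6) (nat_lit 121113) (nat_lit 10) (node (nat_lit 5) (nat_lit
  118010) (nat_lit 11) (node (nat_lit 4) (nat_lit 116730) (nat_lit 12) (node (nat_lit 5) (nat_lit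
  115162) (nat_lit 13) nil nil) nil) nil) (node (nat_lit 5) (nat_lit 123967) (nat_lit 10) (node
  (nat_lit 4) (nat_lit 124000) (nat_lit 11) nil (node (nat_lit 6) (nat_lit 123888) (nat_lit 11)
  nil nil)) (node (nat_lit 10) (nat_lit 123661) (nat_lit 10) nil nil))) (node (nat_lit 0) (nat_lit
  120088) (nat_lit 9) nil nil))) (node (nat_lit 0) (nat_lit 0) (nat_lit 8) (node (nat_lit 10)
  (nat_lit 124253) (nat_lit 9) (node (nat_lit 6) (nat_lit 124253) (nat_lit 10) nil (node (nat_lit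
  4) (nat_lit 124253) (nat_lit 10) nil (node (nat_lit 5) (nat_lit 124253) (nat_lit 10) nil nil)))
  (node (nat_lit 6) (nat_lit 121106) (nat_lit 9) (node (nat_lit 11) (nat_lit 126794) (nat_lit 10)
  nil nil) (node (nat_lit 4) (nat_lit 116914) (nat_lit 9) nil (node (nat_lit 5) (nat_lit 116914)
  (nat_lit 9) nil (node (nat_lit 0) (nat_lit 119447) (nat_lit 9) nil nil))))) nil)))) (node
  (nat_lit 5) (nat_lit 0) (nat_lit 7) (node (nat_lit 0) (nat_lit 0) (nat_lit 8) (node (nat_lit 5)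
  (nat_lit 0) (nat_lit 9) (node (nat_lit 4) (nat_lit 121823) (nat_lit 10) (node (nat_lit 6)
  (nat_lit 124649) (nat_lit 11) (node (nat_lit 5) (nat_lit 121168) (nat_lit 12) nil nil) (node
  (nat_lit 5) (nat_lit 128863) (nat_lit 11) (node (nat_lit 6) (nat_lit 127854) (nat_lit 12) nil
  nil) (node (nat_lit 11) (nat_lit 126415) (nat_lit 11) nil (node (nat_lit 0) (nat_lit 126415)
  (nat_lit 11) nil nil)))) (node (nat_lit 6) (nat_lit 121823) (nat_lit 10) (node (nat_lit 4)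
  (nat_lit 124954) (nat_lit 11) (node (nat_lit 5) (nat_lit 126049) (nat_lit 12) nil (node (nat_lit
  6) (nat_lit 123945) (nat_lit 12) nil nil)) (node (nat_lit 5) (nat_lit 125678) (nat_lit 11) nil
  (node (nat_lit 11) (nat_lit 129955) (nat_lit 11) nil nil))) (node (nat_lit 0) (nat_lit 124428)
  (nat_lit 10) nil nil))) (node (nat_lit 6) (nat_lit 0) (nat_lit 9) (node (nat_lit 11) (nat_lit
  124958) (nat_lit 10) (node (nat_lit 5) (nat_lit 124958) (nat_lit 11) nil nil) (node (nat_lit 5)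
  (nat_lit 119049) (nat_lit 10) (node (nat_lit 6) (nat_lit 121582) (nat_lit 11) nil nil) (node
  (nat_lit 4) (nat_lit 113279) (nat_lit 10) nil (node (nat_lit 0) (nat_lit 116907) (nat_lit 10)
  nil nil)))) (node (nat_lit 4) (nat_lit 113014) (nat_lit 9) (node (nat_lit 5) (nat_lit 121253)
  (nat_lit 10) (node (nat_lit 4) (nat_lit 122749) (nat_lit 11) (node (nat_lit 11) (nat_lit 125683)
  (nat_lit 12) nil nil) nil) (node (nat_lit 11) (nat_lit 123797) (nat_lit 10) nil nil)) (node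
  (nat_lit 0) (nat_lit 115857) (nat_lit 9) (node (nat_lit 5) (nat_lit 116642) (nat_lit 10) (node
  (nat_lit 11) (nat_lit 118702) (nat_lit 11) nil nil) (node (nat_lit 11) (nat_lit 120088) (nat_lit
  10) nil nil)) nil)))) (node (nat_lit 6) (nat_lit 0) (nat_lit 8) (node (nat_lit 0) (nat_lit 0)
  (nat_lit 9) (node (nat_lit 5) (nat_lit 119014) (nat_lit 10) (node (nat_lit 6) (nat_lit 122876)
  (nat_lit 11) (node (nat_lit 5) (nat_lit 127010) (nat_lit 12) (node (nat_lit 12) (nat_lit 131761)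
  (nat_lit 13) nil (node (nat_lit 4) (nat_lit 126855) (nat_lit 13) nil nil)) (node (nat_lit 4)
  (nat_lit 126231) (nat_lit 12) (node (nat_lit 5) (nat_lit 128219) (nat_lit 13) nil nil) (node
  (nat_lit 0) (nat_lit 128964) (nat_lit 12) nil nil))) (node (nat_lit 12) (nat_lit 127091)
  (nat_lit 11) nil nil)) (node (nat_lit 6) (nat_lit 118656) (nat_lit 10) (node (nat_lit 5)
  (nat_lit 121351) (nat_lit 11) (node (nat_lit 12) (nat_lit 127440) (nat_lit 12) nil nil) nil)
  (node (nat_lit 4) (nat_lit 118609) (nat_lit 10) nil (node (nat_lit 0) (nat_lit 117002) (nat_lit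
  10) nil nil)))) nil) nil)) (node (nat_lit 4) (nat_lit 0) (nat_lit 7) (node (nat_lit 0) (nat_lit
  0) (nat_lit 8) (node (nat_lit 4) (nat_lit 0) (nat_lit 9) (node (nat_lit 5) (nat_lit 112124)
  (nat_lit 10) (node (nat_lit 6) (nat_lit 117360) (nat_lit 11) (node (nat_lit 5) (nat_lit 120020)
  (nat_lit 12) nil (node (nat_lit 4) (nat_lit 120006) (nat_lit 12) nil nil)) (node (nat_lit 4)
  (nat_lit 118739) (nat_lit 11) (node (nat_lit 6) (nat_lit 115572) (nat_lit 12) nil (node (nat_lit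
  11) (nat_lit 121673) (nat_lit 12) nil nil)) (node (nat_lit 11) (nat_lit 120256) (nat_lit 11) nil
  (node (nat_lit 0) (nat_lit 120256) (nat_lit 11) nil nil)))) (node (nat_lit 6) (nat_lit 110076)
  (nat_lit 10) (node (nat_lit 5) (nat_lit 119568) (nat_lit 11) (node (nat_lit 6) (nat_lit 119452)
  (nat_lit 12) nil (node (nat_lit 4) (nat_lit 120012) (nat_lit 12) nil nil)) (node (nat_lit 11)
  (nat_lit 120251) (nat_lit 11) nil (node (nat_lit 0) (nat_lit 114669) (nat_lit 11) nil (node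
  (nat_lit 4) (nat_lit 112609) (nat_lit 11) nil nil)))) (node (nat_lit 0) (nat_lit 115172)
  (nat_lit 10) nil nil))) (node (nat_lit 6) (nat_lit 101401) (nat_lit 9) (node (nat_lit 11)
  (nat_lit 115633) (nat_lit 10) (node (nat_lit 4) (nat_lit 115633) (nat_lit 11) nil nil) (node
  (nat_lit 4) (nat_lit 108641) (nat_lit 10) (node (nat_lit 6) (nat_lit 114542) (nat_lit 11) (node
  (nat_lit 11) (nat_lit 117477) (nat_lit 12) nil nil) nil) nil)) (node (nat_lit 5) (nat_lit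
  104913) (nat_lit 9) (node (nat_lit 4) (nat_lit 106296) (nat_lit 10) (node (nat_lit 5) (nat_lit
  108829) (nat_lit 11) nil nil) (node (nat_lit 11) (nat_lit 115696) (nat_lit 10) nil nil)) (node
  (nat_lit 0) (nat_lit 107797) (nat_lit 9) (node (nat_lit 4) (nat_lit 107797) (nat_lit 10) nil
  (node (nat_lit 11) (nat_lit 108892) (nat_lit 10) nil nil)) nil)))) (node (nat_lit 5) (nat_lit 0)
  (nat_lit 8) (node (nat_lit 0) (nat_lit 69805) (nat_lit 9) (node (nat_lit 4) (nat_lit 73107)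
  (nat_lit 10) (node (nat_lit 5) (nat_lit 79039) (nat_lit 11) (node (nat_lit 4) (nat_lit 83734)
  (nat_lit 12) (node (nat_lit 6) (nat_lit 85559) (nat_lit 13) (node (nat_lit 5) (nat_lit 83179)
  (nat_lit 14) nil nil) (node (nat_lit 12) (nat_lit 91886) (nat_lit 13) nil (node (nat_lit 0)
  (nat_lit 88485) (nat_lit 13) nil nil))) (node (nat_lit 6) (nat_lit 84107) (nat_lit 12) (node
  (nat_lit 5) (nat_lit 87339) (nat_lit 13) nil (node (nat_lit 4) (nat_lit 86750) (nat_lit 13) nil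
  (node (nat_lit 12) (nat_lit 88858) (nat_lit 13) nil nil))) (node (nat_lit 0) (nat_lit 89486)
  (nat_lit 12) nil nil))) nil) (node (nat_lit 5) (nat_lit 73326) (nat_lit 10) (node (nat_lit 4)
  (nat_lit 73326) (nat_lit 11) nil nil) nil)) nil) nil)) nil))) (node (nat_lit 5) (nat_lit 0)
  (nat_lit 6) (node (nat_lit 0) (nat_lit 0) (nat_lit 7) (node (nat_lit 6) (nat_lit 0) (nat_lit 8)
  (node (nat_lit 4) (nat_lit 85545) (nat_lit 9) (node (nat_lit 6) (nat_lit 87215) (nat_lit 10)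
  (node (nat_lit 5) (nat_lit 85821) (nat_lit 11) (node (nat_lit 4) (nat_lit 84210) (nat_lit 12)
  (node (nat_lit 5) (nat_lit 84733) (nat_lit 13) (node (nat_lit 6) (nat_lit 85206) (nat_lit 14)
  (node (nat_lit 5) (nat_lit 85590) (nat_lit 15) (node (nat_lit 4) (nat_lit 85032) (nat_lit 16)
  nil nil) nil) nil) nil) nil) nil) (node (nat_lit 5) (nat_lit 87314) (nat_lit 10) nil (node
  (nat_lit 10) (nat_lit 90340) (nat_lit 10) nil nil))) (node (nat_lit 5) (nat_lit 86806) (nat_lit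
  9) (node (nat_lit 6) (nat_lit 90175) (nat_lit 10) (node (nat_lit 4) (nat_lit 91304) (nat_lit 11)
  nil nil) (node (nat_lit 4) (nat_lit 90175) (nat_lit 10) (node (nat_lit 5) (nat_lit 91304)
  (nat_lit 11) nil (node (nat_lit 6) (nat_lit 88792) (nat_lit 11) nil nil)) (node (nat_lit 10)
  (nat_lit 91304) (nat_lit 10) nil nil))) (node (nat_lit 10) (nat_lit 91241) (nat_lit 9) (node
  (nat_lit 5) (nat_lit 91241) (nat_lit 10) (node (nat_lit 6) (nat_lit 91241) (nat_lit 11) (node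
  (nat_lit 5) (nat_lit 91304) (nat_lit 12) nil nil) nil) (node (nat_lit 4) (nat_lit 91241)
  (nat_lit 10) nil nil)) (node (nat_lit 0) (nat_lit 86784) (nat_lit 9) nil nil)))) (node (nat_lit
  4) (nat_lit 0) (nat_lit 8) (node (nat_lit 6) (nat_lit 85545) (nat_lit 9) (node (nat_lit 5)
  (nat_lit 89811) (nat_lit 10) (node (nat_lit 6) (nat_lit 91265) (nat_lit 11) (node (nat_lit 4)
  (nat_lit 91083) (nat_lit 12) (node (nat_lit 5) (nat_lit 89754) (nat_lit 13) nil nil) nil) nil)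
  (node (nat_lit 4) (nat_lit 89418) (nat_lit 10) (node (nat_lit 5) (nat_lit 90844) (nat_lit 11)
  nil nil) (node (nat_lit 10) (nat_lit 90340) (nat_lit 10) nil nil))) (node (nat_lit 10) (nat_lit
  91241) (nat_lit 9) (node (nat_lit 5) (nat_lit 91241) (nat_lit 10) (node (nat_lit 4) (nat_lit
  91241) (nat_lit 11) (node (nat_lit 5) (nat_lit 91304) (nat_lit 12) nil nil) nil) (node (nat_lit
  6) (nat_lit 91241) (nat_lit 10) nil nil)) (node (nat_lit 5) (nat_lit 86446) (nat_lit 9) (node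
  (nat_lit 4) (nat_lit 88700) (nat_lit 10) (node (nat_lit 6) (nat_lit 88323) (nat_lit 11) nil nil)
  (node (nat_lit 6) (nat_lit 89815) (nat_lit 10) (node (nat_lit 5) (nat_lit 91241) (nat_lit 11)
  nil nil) nil)) (node (nat_lit 0) (nat_lit 90358) (nat_lit 9) nil nil)))) (node (nat_lit 5)
  (nat_lit 0) (nat_lit 8) (node (nat_lit 4) (nat_lit 86963) (nat_lit 9) (node (nat_lit 6) (nat_lit
  88819) (nat_lit 10) (node (nat_lit 4) (nat_lit 90245) (nat_lit 11) nil nil) (node (nat_lit 5)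
  (nat_lit 89741) (nat_lit 10) nil nil)) (node (nat_lit 6) (nat_lit 86963) (nat_lit 9) (node
  (nat_lit 4) (nat_lit 90333) (nat_lit 10) nil (node (nat_lit 5) (nat_lit 89741) (nat_lit 10) nil
  nil)) (node (nat_lit 0) (nat_lit 90875) (nat_lit 9) nil nil))) (node (nat_lit 0) (nat_lit 88700)
  (nat_lit 8) (node (nat_lit 10) (nat_lit 90717) (nat_lit 9) (node (nat_lit 5) (nat_lit 90717)
  (nat_lit 10) nil nil) (node (nat_lit 5) (nat_lit 89583) (nat_lit 9) (node (nat_lit 11) (nat_lit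
  91304) (nat_lit 10) nil nil) (node (nat_lit 6) (nat_lit 88700) (nat_lit 9) nil (node (nat_lit 4)
  (nat_lit 88700) (nat_lit 9) nil nil)))) nil)))) (node (nat_lit 6) (nat_lit 0) (nat_lit 7) (node
  (nat_lit 0) (nat_lit 0) (nat_lit 8) (node (nat_lit 6) (nat_lit 0) (nat_lit 9) (node (nat_lit 5)
  (nat_lit 88080) (nat_lit 10) (node (nat_lit 4) (nat_lit 90764) (nat_lit 11) (node (nat_lit 6)
  (nat_lit 90685) (nat_lit 12) nil (node (nat_lit 5) (nat_lit 91304) (nat_lit 12) nil nil)) (node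
  (nat_lit 6) (nat_lit 91214) (nat_lit 11) (node (nat_lit 11) (nat_lit 91304) (nat_lit 12) nil
  nil) (node (nat_lit 11) (nat_lit 91304) (nat_lit 11) nil (node (nat_lit 0) (nat_lit 90620)
  (nat_lit 11) nil nil)))) (node (nat_lit 4) (nat_lit 86801) (nat_lit 10) (node (nat_lit 6)
  (nat_lit 89252) (nat_lit 11) (node (nat_lit 5) (nat_lit 87641) (nat_lit 12) nil (node (nat_lit
  11) (nat_lit 90840) (nat_lit 12) nil nil)) (node (nat_lit 5) (nat_lit 88402) (nat_lit 11) (node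
  (nat_lit 4) (nat_lit 86791) (nat_lit 12) nil (node (nat_lit 6) (nat_lit 88994) (nat_lit 12) nil
  nil)) (node (nat_lit 11) (nat_lit 89341) (nat_lit 11) nil (node (nat_lit 0) (nat_lit 89341)
  (nat_lit 11) nil nil)))) (node (nat_lit 0) (nat_lit 90468) (nat_lit 10) (node (nat_lit 11)
  (nat_lit 90990) (nat_lit 11) nil nil) nil))) (node (nat_lit 5) (nat_lit 85386) (nat_lit 9) (node
  (nat_lit 11) (nat_lit 91021) (nat_lit 10) (node (nat_lit 6) (nat_lit 91021) (nat_lit 11) (node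
  (nat_lit 11) (nat_lit 91304) (nat_lit 12) nil nil) nil) (node (nat_lit 6) (nat_lit 88588)
  (nat_lit 10) (node (nat_lit 5) (nat_lit 90014) (nat_lit 11) nil nil) (node (nat_lit 4) (nat_lit
  85386) (nat_lit 10) nil nil))) (node (nat_lit 4) (nat_lit 83913) (nat_lit 9) (node (nat_lit 6)
  (nat_lit 86801) (nat_lit 10) (node (nat_lit 4) (nat_lit 88227) (nat_lit 11) nil nil) (node
  (nat_lit 11) (nat_lit 90468) (nat_lit 10) nil nil)) (node (nat_lit 0) (nat_lit 89325) (nat_lit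
  9) (node (nat_lit 6) (nat_lit 89325) (nat_lit 10) (node (nat_lit 11) (nat_lit 90439) (nat_lit
  11) nil nil) (node (nat_lit 11) (nat_lit 89916) (nat_lit 10) nil nil)) nil)))) (node (nat_lit 4)
  (nat_lit 0) (nat_lit 8) (node (nat_lit 0) (nat_lit 85617) (nat_lit 9) (node (nat_lit 6) (nat_lit
  85993) (nat_lit 10) (node (nat_lit 4) (nat_lit 87949) (nat_lit 11) (node (nat_lit 6) (nat_lit
  88986) (nat_lit 12) (node (nat_lit 12) (nat_lit 91304) (nat_lit 13) nil (node (nat_lit 5)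
  (nat_lit 87948) (nat_lit 13) nil (node (nat_lit 0) (nat_lit 91304) (nat_lit 13) nil nil))) (node
  (nat_lit 5) (nat_lit 89820) (nat_lit 12) nil (node (nat_lit 0) (nat_lit 91304) (nat_lit 12) nil
  nil))) nil) (node (nat_lit 4) (nat_lit 85617) (nat_lit 10) nil nil)) nil) nil)) nil)) (node
  (nat_lit 0) (nat_lit 0) (nat_lit 6) (node (nat_lit 4) (nat_lit 111074) (nat_lit 7) (node
  (nat_lit 5) (nat_lit 121626) (nat_lit 8) (node (nat_lit 6) (nat_lit 129565) (nat_lit 9) (node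
  (nat_lit 5) (nat_lit 135042) (nat_lit 10) (node (nat_lit 4) (nat_lit 135645) (nat_lit 11) nil
  nil) nil) (node (nat_lit 4) (nat_lit 126399) (nat_lit 9) (node (nat_lit 6) (nat_lit 124879)
  (nat_lit 10) nil nil) nil)) (node (nat_lit 6) (nat_lit 120826) (nat_lit 8) (node (nat_lit 5)
  (nat_lit 131023) (nat_lit 9) (node (nat_lit 6) (nat_lit 131356) (nat_lit 10) (node (nat_lit 4)
  (nat_lit 131217) (nat_lit 11) nil nil) nil) (node (nat_lit 4) (nat_lit 129116) (nat_lit 9) nil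
  nil)) nil)) (node (nat_lit 6) (nat_lit 110863) (nat_lit 7) (node (nat_lit 4) (nat_lit 119617)
  (nat_lit 8) (node (nat_lit 5) (nat_lit 123888) (nat_lit 9) nil (node (nat_lit 6) (nat_lit
  126400) (nat_lit 9) (node (nat_lit 5) (nat_lit 120035) (nat_lit 10) nil nil) nil)) (node
  (nat_lit 5) (nat_lit 121414) (nat_lit 8) (node (nat_lit 4) (nat_lit 129594) (nat_lit 9) (node
  (nat_lit 6) (nat_lit 127326) (nat_lit 10) nil (node (nat_lit 5) (nat_lit 134023) (nat_lit 10)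
  nil nil)) (node (nat_lit 6) (nat_lit 129222) (nat_lit 9) nil nil)) (node (nat_lit 9) (nat_lit
  131609) (nat_lit 8) nil nil))) (node (nat_lit 5) (nat_lit 112121) (nat_lit 7) (node (nat_lit 6)
  (nat_lit 120973) (nat_lit 8) (node (nat_lit 4) (nat_lit 126731) (nat_lit 9) nil (node (nat_lit
  5) (nat_lit 126731) (nat_lit 9) nil nil)) (node (nat_lit 4) (nat_lit 122468) (nat_lit 8) (node
  (nat_lit 6) (nat_lit 128598) (nat_lit 9) (node (nat_lit 5) (nat_lit 126199) (nat_lit 10) nil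
  nil) (node (nat_lit 5) (nat_lit 128225) (nat_lit 9) nil nil)) (node (nat_lit 9) (nat_lit 132944)
  (nat_lit 8) nil nil))) (node (nat_lit 0) (nat_lit 122115) (nat_lit 7) nil nil)))) nil)))

noncomputable def t434 : Tr :=
  (node (nat_lit 7) (nat_lit 0) (nat_lit 6) (node (nat_lit 4) (nat_lit 0) (nat_lit 7) (node
  (nat_lit 0) (nat_lit 0) (nat_lit 8) (node (nat_lit 4) (nat_lit 0) (nat_lit 9) (node (nat_lit 7)
  (nat_lit 41288) (nat_lit 10) (node (nat_lit 5) (nat_lit 45661) (nat_lit 11) (node (nat_lit 4)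
  (nat_lit 47933) (nat_lit 12) nil (node (nat_lit 7) (nat_lit 49033) (nat_lit 12) nil nil)) (node
  (nat_lit 4) (nat_lit 45894) (nat_lit 11) (node (nat_lit 11) (nat_lit 50197) (nat_lit 12) nil
  (node (nat_lit 5) (nat_lit 46469) (nat_lit 12) nil nil)) (node (nat_lit 11) (nat_lit 49351)
  (nat_lit 11) (node (nat_lit 4) (nat_lit 50295) (nat_lit 12) nil nil) (node (nat_lit 0) (nat_lit
  47315) (nat_lit 11) nil nil)))) (node (nat_lit 5) (nat_lit 42089) (nat_lit 10) (node (nat_lit 7)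
  (nat_lit 46139) (nat_lit 11) (node (nat_lit 5) (nat_lit 46859) (nat_lit 12) nil (node (nat_lit
  4) (nat_lit 48266) (nat_lit 12) nil nil)) (node (nat_lit 4) (nat_lit 46884) (nat_lit 11) (node
  (nat_lit 7) (nat_lit 44959) (nat_lit 12) nil (node (nat_lit 11) (nat_lit 51187) (nat_lit 12) nil
  nil)) (node (nat_lit 11) (nat_lit 49328) (nat_lit 11) nil (node (nat_lit 0) (nat_lit 49328)
  (nat_lit 11) nil nil)))) (node (nat_lit 0) (nat_lit 45311) (nat_lit 10) (node (nat_lit 11)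
  (nat_lit 47370) (nat_lit 11) nil (node (nat_lit 4) (nat_lit 45311) (nat_lit 11) nil nil)) nil)))
  (node (nat_lit 7) (nat_lit 0) (nat_lit 9) (node (nat_lit 11) (nat_lit 45431) (nat_lit 10) (node
  (nat_lit 4) (nat_lit 45010) (nat_lit 11) (node (nat_lit 11) (nat_lit 49682) (nat_lit 12) (node
  (nat_lit 7) (nat_lit 49682) (nat_lit 13) nil nil) nil) nil) (node (nat_lit 4) (nat_lit 41213)
  (nat_lit 10) (node (nat_lit 7) (nat_lit 46204) (nat_lit 11) (node (nat_lit 11) (nat_lit 47743)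
  (nat_lit 12) nil nil) nil) (node (nat_lit 0) (nat_lit 38447) (nat_lit 10) nil (node (nat_lit 5)
  (nat_lit 36466) (nat_lit 10) nil nil)))) (node (nat_lit 5) (nat_lit 36284) (nat_lit 9) (node
  (nat_lit 4) (nat_lit 41792) (nat_lit 10) (node (nat_lit 5) (nat_lit 40383) (nat_lit 11) nil nil)
  (node (nat_lit 11) (nat_lit 45249) (nat_lit 10) (node (nat_lit 4) (nat_lit 45249) (nat_lit 11)
  nil nil) nil)) (node (nat_lit 0) (nat_lit 39631) (nat_lit 9) (node (nat_lit 4) (nat_lit 39031)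
  (nat_lit 10) (node (nat_lit 11) (nat_lit 40113) (nat_lit 11) nil nil) (node (nat_lit 11)
  (nat_lit 40206) (nat_lit 10) nil nil)) nil)))) (node (nat_lit 7) (nat_lit 0) (nat_lit 8) (node
  (nat_lit 0) (nat_lit 36860) (nat_lit 9) (node (nat_lit 4) (nat_lit 40163) (nat_lit 10) (node
  (nat_lit 7) (nat_lit 44673) (nat_lit 11) (node (nat_lit 4) (nat_lit 49414) (nat_lit 12) (node
  (nat_lit 12) (nat_lit 55681) (nat_lit 13) (node (nat_lit 7) (nat_lit 56074) (nat_lit 14) (node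
  (nat_lit 4) (nat_lit 56074) (nat_lit 15) nil nil) (node (nat_lit 4) (nat_lit 55767) (nat_lit 14)
  (node (nat_lit 7) (nat_lit 55767) (nat_lit 15) nil nil) nil)) (node (nat_lit 5) (nat_lit 52062)
  (nat_lit 13) (node (nat_lit 4) (nat_lit 52261) (nat_lit 14) nil (node (nat_lit 7) (nat_lit
  53902) (nat_lit 14) nil nil)) (node (nat_lit 0) (nat_lit 54312) (nat_lit 13) nil nil))) (node
  (nat_lit 5) (nat_lit 49759) (nat_lit 12) (node (nat_lit 4) (nat_lit 53181) (nat_lit 13) (node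
  (nat_lit 5) (nat_lit 53955) (nat_lit 14) nil (node (nat_lit 12) (nat_lit 55320) (nat_lit 14) nil
  nil)) (node (nat_lit 7) (nat_lit 53092) (nat_lit 13) (node (nat_lit 4) (nat_lit 52248) (nat_lit
  14) nil nil) (node (nat_lit 12) (nat_lit 54658) (nat_lit 13) nil (node (nat_lit 0) (nat_lit
  52502) (nat_lit 13) nil nil)))) (node (nat_lit 0) (nat_lit 51896) (nat_lit 12) nil nil))) (node
  (nat_lit 12) (nat_lit 48617) (nat_lit 11) (node (nat_lit 7) (nat_lit 48617) (nat_lit 12) nil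
  nil) nil)) (node (nat_lit 7) (nat_lit 39969) (nat_lit 10) (node (nat_lit 4) (nat_lit 44688)
  (nat_lit 11) (node (nat_lit 12) (nat_lit 52235) (nat_lit 12) (node (nat_lit 4) (nat_lit 52235)
  (nat_lit 13) (node (nat_lit 7) (nat_lit 52235) (nat_lit 14) nil nil) nil) nil) nil) (node
  (nat_lit 5) (nat_lit 40035) (nat_lit 10) (node (nat_lit 7) (nat_lit 40035) (nat_lit 11) nil nil)
  nil))) nil) (node (nat_lit 5) (nat_lit 0) (nat_lit 8) (node (nat_lit 0) (nat_lit 25520) (nat_lit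
  9) (node (nat_lit 4) (nat_lit 27661) (nat_lit 10) (node (nat_lit 5) (nat_lit 31027) (nat_lit 11)
  (node (nat_lit 7) (nat_lit 34049) (nat_lit 12) nil (node (nat_lit 4) (nat_lit 34671) (nat_lit
  12) (node (nat_lit 12) (nat_lit 39570) (nat_lit 13) nil (node (nat_lit 7) (nat_lit 34151)
  (nat_lit 13) nil (node (nat_lit 0) (nat_lit 37414) (nat_lit 13) nil nil))) (node (nat_lit 0)
  (nat_lit 37304) (nat_lit 12) nil nil))) nil) (node (nat_lit 5) (nat_lit 25520) (nat_lit 10) nil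
  nil)) nil) nil))) (node (nat_lit 0) (nat_lit 0) (nat_lit 7) (node (nat_lit 5) (nat_lit 0)
  (nat_lit 8) (node (nat_lit 7) (nat_lit 59241) (nat_lit 9) (node (nat_lit 5) (nat_lit 65428)
  (nat_lit 10) (node (nat_lit 4) (nat_lit 68804) (nat_lit 11) (node (nat_lit 7) (nat_lit 68532)
  (nat_lit 12) (node (nat_lit 4) (nat_lit 65430) (nat_lit 13) (node (nat_lit 5) (nat_lit 64727)
  (nat_lit 14) (node (nat_lit 4) (nat_lit 62978) (nat_lit 15) (node (nat_lit 7) (nat_lit 57880)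
  (nat_lit 16) (node (nat_lit 5) (nat_lit 49866) (nat_lit 17) (node (nat_lit 7) (nat_lit 45405)
  (nat_lit 18) nil nil) nil) nil) nil) nil) nil) nil) nil) (node (nat_lit 4) (nat_lit 62522)
  (nat_lit 10) (node (nat_lit 7) (nat_lit 63928) (nat_lit 11) nil nil) nil)) (node (nat_lit 4)
  (nat_lit 61012) (nat_lit 9) (node (nat_lit 5) (nat_lit 66273) (nat_lit 10) (node (nat_lit 7)
  (nat_lit 65119) (nat_lit 11) (node (nat_lit 4) (nat_lit 64134) (nat_lit 12) nil nil) nil) (node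
  (nat_lit 7) (nat_lit 66467) (nat_lit 10) (node (nat_lit 4) (nat_lit 67872) (nat_lit 11) nil nil)
  (node (nat_lit 10) (nat_lit 65638) (nat_lit 10) nil nil))) (node (nat_lit 10) (nat_lit 63521)
  (nat_lit 9) (node (nat_lit 7) (nat_lit 63521) (nat_lit 10) (node (nat_lit 5) (nat_lit 63521)
  (nat_lit 11) nil nil) (node (nat_lit 4) (nat_lit 63521) (nat_lit 10) nil nil)) (node (nat_lit 0)
  (nat_lit 61286) (nat_lit 9) nil nil)))) (node (nat_lit 4) (nat_lit 0) (nat_lit 8) (node (nat_lit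
  7) (nat_lit 60572) (nat_lit 9) (node (nat_lit 4) (nat_lit 65298) (nat_lit 10) (node (nat_lit 5)
  (nat_lit 69353) (nat_lit 11) nil nil) (node (nat_lit 5) (nat_lit 66824) (nat_lit 10) (node
  (nat_lit 7) (nat_lit 65670) (nat_lit 11) (node (nat_lit 4) (nat_lit 64684) (nat_lit 12) nil nil)
  (node (nat_lit 4) (nat_lit 64582) (nat_lit 11) nil nil)) (node (nat_lit 10) (nat_lit 65199)
  (nat_lit 10) nil nil))) (node (nat_lit 5) (nat_lit 59573) (nat_lit 9) (node (nat_lit 7) (nat_lit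
  64866) (nat_lit 10) (node (nat_lit 4) (nat_lit 66272) (nat_lit 11) nil nil) (node (nat_lit 4)
  (nat_lit 65061) (nat_lit 10) (node (nat_lit 7) (nat_lit 61730) (nat_lit 11) nil nil) (node
  (nat_lit 10) (nat_lit 64200) (nat_lit 10) nil nil))) (node (nat_lit 10) (nat_lit 65275) (nat_lit
  9) (node (nat_lit 7) (nat_lit 65275) (nat_lit 10) nil (node (nat_lit 5) (nat_lit 65275) (nat_lit
  10) nil nil)) (node (nat_lit 0) (nat_lit 61600) (nat_lit 9) nil nil)))) (node (nat_lit 7)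
  (nat_lit 0) (nat_lit 8) (node (nat_lit 5) (nat_lit 58417) (nat_lit 9) (node (nat_lit 4) (nat_lit
  63405) (nat_lit 10) (node (nat_lit 5) (nat_lit 61995) (nat_lit 11) nil nil) (node (nat_lit 7)
  (nat_lit 63710) (nat_lit 10) nil (node (nat_lit 10) (nat_lit 63044) (nat_lit 10) nil nil)))
  (node (nat_lit 4) (nat_lit 58888) (nat_lit 9) (node (nat_lit 5) (nat_lit 60525) (nat_lit 10) nil
  (node (nat_lit 7) (nat_lit 61978) (nat_lit 10) nil nil)) (node (nat_lit 0) (nat_lit 62446)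
  (nat_lit 9) nil nil))) (node (nat_lit 0) (nat_lit 59286) (nat_lit 8) (node (nat_lit 10) (nat_lit
  64923) (nat_lit 9) nil (node (nat_lit 7) (nat_lit 61421) (nat_lit 9) (node (nat_lit 11) (nat_lit
  63402) (nat_lit 10) nil nil) (node (nat_lit 5) (nat_lit 59286) (nat_lit 9) nil (node (nat_lit 4)
  (nat_lit 59286) (nat_lit 9) nil nil)))) nil)))) nil)) (node (nat_lit 4) (nat_lit 0) (nat_lit 6)
  (node (nat_lit 0) (nat_lit 0) (nat_lit 7) (node (nat_lit 7) (nat_lit 0) (nat_lit 8) (node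
  (nat_lit 4) (nat_lit 65156) (nat_lit 9) (node (nat_lit 7) (nat_lit 70375) (nat_lit 10) (node
  (nat_lit 5) (nat_lit 68154) (nat_lit 11) nil (node (nat_lit 10) (nat_lit 70702) (nat_lit 11) nil
  nil)) (node (nat_lit 5) (nat_lit 70702) (nat_lit 10) (node (nat_lit 4) (nat_lit 70702) (nat_lit
  11) nil (node (nat_lit 7) (nat_lit 70702) (nat_lit 11) nil nil)) (node (nat_lit 10) (nat_lit
  69782) (nat_lit 10) nil nil))) (node (nat_lit 10) (nat_lit 69507) (nat_lit 9) (node (nat_lit 4)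
  (nat_lit 68908) (nat_lit 10) (node (nat_lit 7) (nat_lit 68075) (nat_lit 11) (node (nat_lit 4)
  (nat_lit 68650) (nat_lit 12) nil nil) nil) (node (nat_lit 5) (nat_lit 69507) (nat_lit 10) nil
  nil)) (node (nat_lit 5) (nat_lit 65412) (nat_lit 9) (node (nat_lit 4) (nat_lit 70240) (nat_lit
  10) (node (nat_lit 7) (nat_lit 70702) (nat_lit 11) nil nil) (node (nat_lit 7) (nat_lit 70702)
  (nat_lit 10) (node (nat_lit 4) (nat_lit 70702) (nat_lit 11) nil nil) (node (nat_lit 10) (nat_lit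
  70038) (nat_lit 10) nil nil))) (node (nat_lit 0) (nat_lit 66897) (nat_lit 9) nil nil)))) (node
  (nat_lit 5) (nat_lit 0) (nat_lit 8) (node (nat_lit 4) (nat_lit 65064) (nat_lit 9) (node (nat_lit
  5) (nat_lit 70702) (nat_lit 10) (node (nat_lit 7) (nat_lit 70098) (nat_lit 11) (node (nat_lit 4)
  (nat_lit 69112) (nat_lit 12) nil nil) nil) (node (nat_lit 7) (nat_lit 69361) (nat_lit 10) nil
  nil)) (node (nat_lit 10) (nat_lit 70066) (nat_lit 9) (node (nat_lit 4) (nat_lit 69466) (nat_lit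
  10) (node (nat_lit 5) (nat_lit 68714) (nat_lit 11) (node (nat_lit 4) (nat_lit 67021) (nat_lit
  12) nil nil) nil) (node (nat_lit 7) (nat_lit 70066) (nat_lit 10) nil nil)) (node (nat_lit 7)
  (nat_lit 65892) (nat_lit 9) (node (nat_lit 4) (nat_lit 69633) (nat_lit 10) (node (nat_lit 7)
  (nat_lit 70702) (nat_lit 11) nil nil) (node (nat_lit 5) (nat_lit 67530) (nat_lit 10) (node
  (nat_lit 4) (nat_lit 66120) (nat_lit 11) nil nil) (node (nat_lit 10) (nat_lit 70518) (nat_lit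
  10) nil nil))) (node (nat_lit 0) (nat_lit 67811) (nat_lit 9) nil nil)))) (node (nat_lit 4)
  (nat_lit 0) (nat_lit 8) (node (nat_lit 7) (nat_lit 65072) (nat_lit 9) (node (nat_lit 5) (nat_lit
  70702) (nat_lit 10) (node (nat_lit 7) (nat_lit 70702) (nat_lit 11) (node (nat_lit 4) (nat_lit
  69769) (nat_lit 12) (node (nat_lit 5) (nat_lit 67985) (nat_lit 13) (node (nat_lit 4) (nat_lit
  63744) (nat_lit 14) (node (nat_lit 7) (nat_lit 58442) (nat_lit 15) (node (nat_lit 5) (nat_lit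
  46288) (nat_lit 16) (node (nat_lit 4) (nat_lit 40177) (nat_lit 17) nil nil) nil) nil) nil) nil)
  nil) (node (nat_lit 4) (nat_lit 70499) (nat_lit 11) nil nil)) (node (nat_lit 4) (nat_lit 68813)
  (nat_lit 10) nil nil)) (node (nat_lit 5) (nat_lit 65576) (nat_lit 9) (node (nat_lit 4) (nat_lit
  69437) (nat_lit 10) (node (nat_lit 7) (nat_lit 67263) (nat_lit 11) nil nil) (node (nat_lit 7)
  (nat_lit 69316) (nat_lit 10) (node (nat_lit 5) (nat_lit 70702) (nat_lit 11) nil (node (nat_lit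
  4) (nat_lit 70702) (nat_lit 11) nil nil)) nil)) (node (nat_lit 0) (nat_lit 68322) (nat_lit 9)
  nil nil))) (node (nat_lit 0) (nat_lit 0) (nat_lit 8) (node (nat_lit 10) (nat_lit 70147) (nat_lit
  9) (node (nat_lit 4) (nat_lit 70147) (nat_lit 10) nil nil) (node (nat_lit 4) (nat_lit 66096)
  (nat_lit 9) (node (nat_lit 11) (nat_lit 70138) (nat_lit 10) nil nil) (node (nat_lit 7) (nat_lit
  64510) (nat_lit 9) nil (node (nat_lit 5) (nat_lit 64510) (nat_lit 9) nil (node (nat_lit 0)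
  (nat_lit 65916) (nat_lit 9) nil nil))))) nil)))) (node (nat_lit 5) (nat_lit 0) (nat_lit 7) (node
  (nat_lit 0) (nat_lit 0) (nat_lit 8) (node (nat_lit 5) (nat_lit 0) (nat_lit 9) (node (nat_lit 7)
  (nat_lit 67814) (nat_lit 10) (node (nat_lit 5) (nat_lit 70032) (nat_lit 11) (node (nat_lit 4)
  (nat_lit 68339) (nat_lit 12) nil nil) (node (nat_lit 4) (nat_lit 70702) (nat_lit 11) nil (node
  (nat_lit 11) (nat_lit 70301) (nat_lit 11) nil (node (nat_lit 0) (nat_lit 70301) (nat_lit 11) nil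
  nil)))) (node (nat_lit 4) (nat_lit 67659) (nat_lit 10) (node (nat_lit 7) (nat_lit 70122)
  (nat_lit 11) nil (node (nat_lit 11) (nat_lit 70702) (nat_lit 11) nil (node (nat_lit 0) (nat_lit
  70146) (nat_lit 11) nil (node (nat_lit 5) (nat_lit 66249) (nat_lit 11) nil nil)))) (node
  (nat_lit 0) (nat_lit 70393) (nat_lit 10) nil nil))) (node (nat_lit 4) (nat_lit 62789) (nat_lit
  9) (node (nat_lit 5) (nat_lit 67786) (nat_lit 10) (node (nat_lit 4) (nat_lit 69199) (nat_lit 11)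
  (node (nat_lit 11) (nat_lit 70702) (nat_lit 12) nil nil) nil) (node (nat_lit 11) (nat_lit 70702)
  (nat_lit 10) nil nil)) (node (nat_lit 7) (nat_lit 62996) (nat_lit 9) (node (nat_lit 5) (nat_lit
  63285) (nat_lit 10) nil (node (nat_lit 11) (nat_lit 69514) (nat_lit 10) nil nil)) (node (nat_lit
  0) (nat_lit 65656) (nat_lit 9) (node (nat_lit 5) (nat_lit 65656) (nat_lit 10) nil nil) nil))))
  (node (nat_lit 7) (nat_lit 0) (nat_lit 8) (node (nat_lit 0) (nat_lit 63506) (nat_lit 9) (node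
  (nat_lit 5) (nat_lit 66876) (nat_lit 10) (node (nat_lit 7) (nat_lit 70702) (nat_lit 11) (node
  (nat_lit 5) (nat_lit 70702) (nat_lit 12) (node (nat_lit 4) (nat_lit 70702) (nat_lit 13) nil nil)
  (node (nat_lit 4) (nat_lit 70702) (nat_lit 12) (node (nat_lit 7) (nat_lit 70702) (nat_lit 13)
  nil (node (nat_lit 5) (nat_lit 70702) (nat_lit 13) nil nil)) (node (nat_lit 0) (nat_lit 70702)
  (nat_lit 12) nil nil))) nil) (node (nat_lit 7) (nat_lit 66951) (nat_lit 10) (node (nat_lit 5)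
  (nat_lit 66951) (nat_lit 11) nil nil) nil)) nil) nil)) nil)) (node (nat_lit 0) (nat_lit 0)
  (nat_lit 6) (node (nat_lit 4) (nat_lit 54103) (nat_lit 7) (node (nat_lit 7) (nat_lit 61029)
  (nat_lit 8) (node (nat_lit 5) (nat_lit 66804) (nat_lit 9) (node (nat_lit 7) (nat_lit 64767)
  (nat_lit 10) (node (nat_lit 4) (nat_lit 62438) (nat_lit 11) (node (nat_lit 5) (nat_lit 58380)
  (nat_lit 12) (node (nat_lit 4) (nat_lit 43313) (nat_lit 13) (node (nat_lit 7) (nat_lit 38252)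
  (nat_lit 14) nil nil) nil) nil) nil) (node (nat_lit 4) (nat_lit 67127) (nat_lit 10) nil nil))
  (node (nat_lit 4) (nat_lit 67749) (nat_lit 9) nil (node (nat_lit 9) (nat_lit 68303) (nat_lit 9)
  nil nil))) (node (nat_lit 5) (nat_lit 61405) (nat_lit 8) (node (nat_lit 7) (nat_lit 68124)
  (nat_lit 9) (node (nat_lit 4) (nat_lit 70702) (nat_lit 10) nil (node (nat_lit 5) (nat_lit 70702)
  (nat_lit 10) nil nil)) (node (nat_lit 4) (nat_lit 65510) (nat_lit 9) nil nil)) (node (nat_lit 9)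
  (nat_lit 68025) (nat_lit 8) nil nil))) (node (nat_lit 7) (nat_lit 52448) (nat_lit 7) (node
  (nat_lit 5) (nat_lit 60035) (nat_lit 8) (node (nat_lit 4) (nat_lit 68211) (nat_lit 9) (node
  (nat_lit 7) (nat_lit 67318) (nat_lit 10) nil (node (nat_lit 5) (nat_lit 68027) (nat_lit 10) nil
  nil)) (node (nat_lit 7) (nat_lit 66755) (nat_lit 9) (node (nat_lit 4) (nat_lit 69400) (nat_lit
  10) nil nil) nil)) (node (nat_lit 4) (nat_lit 61104) (nat_lit 8) (node (nat_lit 5) (nat_lit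
  67273) (nat_lit 9) (node (nat_lit 4) (nat_lit 65994) (nat_lit 10) nil (node (nat_lit 7) (nat_lit
  69919) (nat_lit 10) nil nil)) (node (nat_lit 7) (nat_lit 65005) (nat_lit 9) nil nil)) (node
  (nat_lit 9) (nat_lit 66945) (nat_lit 8) nil nil))) (node (nat_lit 5) (nat_lit 51147) (nat_lit 7)
  (node (nat_lit 4) (nat_lit 61124) (nat_lit 8) (node (nat_lit 7) (nat_lit 68952) (nat_lit 9)
  (node (nat_lit 4) (nat_lit 70702) (nat_lit 10) nil (node (nat_lit 5) (nat_lit 67672) (nat_lit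
  10) nil nil)) (node (nat_lit 5) (nat_lit 67578) (nat_lit 9) (node (nat_lit 7) (nat_lit 70702)
  (nat_lit 10) nil nil) nil)) (node (nat_lit 7) (nat_lit 59494) (nat_lit 8) (node (nat_lit 4)
  (nat_lit 64869) (nat_lit 9) (node (nat_lit 7) (nat_lit 66407) (nat_lit 10) nil (node (nat_lit 5)
  (nat_lit 67515) (nat_lit 10) nil nil)) (node (nat_lit 5) (nat_lit 64923) (nat_lit 9) (node
  (nat_lit 4) (nat_lit 63643) (nat_lit 10) nil nil) (node (nat_lit 9) (nat_lit 66767) (nat_lit 9)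
  nil nil))) nil)) (node (nat_lit 0) (nat_lit 60306) (nat_lit 7) nil nil)))) nil)))

noncomputable def c55 : Tr :=
  (node (nat_lit 3) (nat_lit 0) (nat_lit 1) (node (nat_lit 3) (nat_lit 0) (nat_lit 2) (node
  (nat_lit 3) (nat_lit 0) (nat_lit 3) (node (nat_lit 4) (nat_lit 0) (nat_lit 4) t432 (node
  (nat_lit 5) (nat_lit 0) (nat_lit 4) (node (nat_lit 4) (nat_lit 0) (nat_lit 5) t433 nil) nil))
  (node (nat_lit 4) (nat_lit 0) (nat_lit 3) (node (nat_lit 3) (nat_lit 0) (nat_lit 4) (node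
  (nat_lit 5) (nat_lit 0) (nat_lit 5) t434 (node (nat_lit 4) (nat_lit 0) (nat_lit 5) (node
  (nat_lit 5) (nat_lit 0) (nat_lit 6) (node (nat_lit 7) (nat_lit 0) (nat_lit 7) (node (nat_lit 0)
  (nat_lit 0) (nat_lit 8) (node (nat_lit 7) (nat_lit 0) (nat_lit 9) (node (nat_lit 5) (nat_lit
  47267) (nat_lit 10) (node (nat_lit 4) (nat_lit 50451) (nat_lit 11) (node (nat_lit 7) (nat_lit
  52414) (nat_lit 12) nil (node (nat_lit 5) (nat_lit 50147) (nat_lit 12) nil nil)) (node (nat_lit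
  7) (nat_lit 50451) (nat_lit 11) (node (nat_lit 11) (nat_lit 51990) (nat_lit 12) nil nil) (node
  (nat_lit 11) (nat_lit 52395) (nat_lit 11) (node (nat_lit 7) (nat_lit 52395) (nat_lit 12) nil
  nil) (node (nat_lit 0) (nat_lit 51722) (nat_lit 11) nil nil)))) (node (nat_lit 4) (nat_lit
  46954) (nat_lit 10) (node (nat_lit 5) (nat_lit 50451) (nat_lit 11) (node (nat_lit 4) (nat_lit
  48757) (nat_lit 12) nil (node (nat_lit 7) (nat_lit 51026) (nat_lit 12) nil nil)) (node (nat_lit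
  7) (nat_lit 49940) (nat_lit 11) (node (nat_lit 5) (nat_lit 48247) (nat_lit 12) nil (node
  (nat_lit 11) (nat_lit 51480) (nat_lit 12) nil nil)) (node (nat_lit 0) (nat_lit 51409) (nat_lit
  11) nil (node (nat_lit 11) (nat_lit 51409) (nat_lit 11) nil nil)))) (node (nat_lit 0) (nat_lit
  50353) (nat_lit 10) (node (nat_lit 11) (nat_lit 50859) (nat_lit 11) nil (node (nat_lit 7)
  (nat_lit 50353) (nat_lit 11) nil nil)) nil))) (node (nat_lit 5) (nat_lit 0) (nat_lit 9) (node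
  (nat_lit 11) (nat_lit 50046) (nat_lit 10) (node (nat_lit 7) (nat_lit 50719) (nat_lit 11) (node
  (nat_lit 11) (nat_lit 51683) (nat_lit 12) nil nil) nil) (node (nat_lit 7) (nat_lit 46960)
  (nat_lit 10) (node (nat_lit 5) (nat_lit 49471) (nat_lit 11) nil nil) (node (nat_lit 4) (nat_lit
  42887) (nat_lit 10) nil (node (nat_lit 0) (nat_lit 46124) (nat_lit 10) nil nil)))) (node
  (nat_lit 4) (nat_lit 44680) (nat_lit 9) (node (nat_lit 7) (nat_lit 46960) (nat_lit 10) (node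
  (nat_lit 4) (nat_lit 49471) (nat_lit 11) nil nil) (node (nat_lit 11) (nat_lit 50046) (nat_lit
  10) (node (nat_lit 7) (nat_lit 50046) (nat_lit 11) nil nil) nil)) (node (nat_lit 0) (nat_lit
  47276) (nat_lit 9) (node (nat_lit 7) (nat_lit 48366) (nat_lit 10) (node (nat_lit 11) (nat_lit
  49448) (nat_lit 11) nil nil) (node (nat_lit 11) (nat_lit 48956) (nat_lit 10) nil nil)) nil))))
  (node (nat_lit 5) (nat_lit 0) (nat_lit 8) (node (nat_lit 0) (nat_lit 0) (nat_lit 9) (node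
  (nat_lit 7) (nat_lit 45177) (nat_lit 10) (node (nat_lit 5) (nat_lit 46954) (nat_lit 11) (node
  (nat_lit 4) (nat_lit 49813) (nat_lit 12) (node (nat_lit 7) (nat_lit 52045) (nat_lit 13) (node
  (nat_lit 4) (nat_lit 53297) (nat_lit 14) (node (nat_lit 5) (nat_lit 53997) (nat_lit 15) nil nil)
  (node (nat_lit 12) (nat_lit 54184) (nat_lit 14) nil nil)) (node (nat_lit 5) (nat_lit 49931)
  (nat_lit 13) (node (nat_lit 7) (nat_lit 48722) (nat_lit 14) nil nil) (node (nat_lit 12) (nat_lit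
  53754) (nat_lit 13) nil nil))) (node (nat_lit 7) (nat_lit 49813) (nat_lit 12) (node (nat_lit 12)
  (nat_lit 53997) (nat_lit 13) (node (nat_lit 5) (nat_lit 53997) (nat_lit 14) nil (node (nat_lit
  7) (nat_lit 53997) (nat_lit 14) (node (nat_lit 5) (nat_lit 53997) (nat_lit 15) nil nil) nil))
  (node (nat_lit 4) (nat_lit 51634) (nat_lit 13) (node (nat_lit 5) (nat_lit 52529) (nat_lit 14)
  nil (node (nat_lit 7) (nat_lit 52529) (nat_lit 14) nil nil)) (node (nat_lit 0) (nat_lit 53754)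
  (nat_lit 13) nil nil))) (node (nat_lit 0) (nat_lit 52004) (nat_lit 12) nil nil))) (node (nat_lit
  12) (nat_lit 50436) (nat_lit 11) (node (nat_lit 5) (nat_lit 50436) (nat_lit 12) nil nil) nil))
  (node (nat_lit 5) (nat_lit 44842) (nat_lit 10) (node (nat_lit 7) (nat_lit 46620) (nat_lit 11)
  (node (nat_lit 12) (nat_lit 52195) (nat_lit 12) (node (nat_lit 7) (nat_lit 52195) (nat_lit 13)
  (node (nat_lit 5) (nat_lit 52721) (nat_lit 14) (node (nat_lit 12) (nat_lit 54392) (nat_lit 15)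
  nil nil) nil) nil) nil) nil) (node (nat_lit 4) (nat_lit 44842) (nat_lit 10) (node (nat_lit 5)
  (nat_lit 44842) (nat_lit 11) nil nil) (node (nat_lit 0) (nat_lit 46555) (nat_lit 10) nil nil))))
  nil) (node (nat_lit 4) (nat_lit 0) (nat_lit 8) (node (nat_lit 0) (nat_lit 43952) (nat_lit 9)
  (node (nat_lit 7) (nat_lit 45177) (nat_lit 10) (node (nat_lit 4) (nat_lit 46954) (nat_lit 11)
  (node (nat_lit 5) (nat_lit 49288) (nat_lit 12) nil (node (nat_lit 7) (nat_lit 47626) (nat_lit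
  12) (node (nat_lit 12) (nat_lit 50368) (nat_lit 13) nil nil) (node (nat_lit 0) (nat_lit 50468)
  (nat_lit 12) nil nil))) nil) (node (nat_lit 4) (nat_lit 43952) (nat_lit 10) nil nil)) nil)
  nil))) (node (nat_lit 0) (nat_lit 0) (nat_lit 7) (node (nat_lit 7) (nat_lit 41495) (nat_lit 8)
  (node (nat_lit 5) (nat_lit 44908) (nat_lit 9) (node (nat_lit 4) (nat_lit 48291) (nat_lit 10)
  (node (nat_lit 5) (nat_lit 48616) (nat_lit 11) nil nil) (node (nat_lit 7) (nat_lit 49235)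
  (nat_lit 10) (node (nat_lit 4) (nat_lit 50641) (nat_lit 11) nil nil) (node (nat_lit 10) (nat_lit
  49534) (nat_lit 10) nil nil))) (node (nat_lit 4) (nat_lit 44958) (nat_lit 9) (node (nat_lit 7)
  (nat_lit 45993) (nat_lit 10) nil (node (nat_lit 5) (nat_lit 47604) (nat_lit 10) nil nil)) (node
  (nat_lit 10) (nat_lit 47563) (nat_lit 9) nil nil))) (node (nat_lit 4) (nat_lit 39590) (nat_lit
  8) (node (nat_lit 7) (nat_lit 44906) (nat_lit 9) (node (nat_lit 5) (nat_lit 49060) (nat_lit 10)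
  (node (nat_lit 7) (nat_lit 47974) (nat_lit 11) (node (nat_lit 4) (nat_lit 46916) (nat_lit 12)
  (node (nat_lit 5) (nat_lit 46093) (nat_lit 13) (node (nat_lit 4) (nat_lit 41467) (nat_lit 14)
  (node (nat_lit 7) (nat_lit 34199) (nat_lit 15) (node (nat_lit 4) (nat_lit 23633) (nat_lit 16)
  nil nil) nil) nil) nil) nil) nil) (node (nat_lit 4) (nat_lit 48143) (nat_lit 10) nil nil)) (node
  (nat_lit 5) (nat_lit 43004) (nat_lit 9) (node (nat_lit 4) (nat_lit 46386) (nat_lit 10) (node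
  (nat_lit 7) (nat_lit 46517) (nat_lit 11) nil nil) (node (nat_lit 7) (nat_lit 46241) (nat_lit 10)
  nil nil)) (node (nat_lit 10) (nat_lit 47647) (nat_lit 9) nil nil))) (node (nat_lit 5) (nat_lit
  0) (nat_lit 8) (node (nat_lit 4) (nat_lit 43004) (nat_lit 9) (node (nat_lit 5) (nat_lit 43868)
  (nat_lit 10) (node (nat_lit 7) (nat_lit 46097) (nat_lit 11) (node (nat_lit 4) (nat_lit 45138)
  (nat_lit 12) nil nil) nil) (node (nat_lit 7) (nat_lit 46549) (nat_lit 10) nil nil)) (node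
  (nat_lit 7) (nat_lit 44906) (nat_lit 9) (node (nat_lit 4) (nat_lit 48143) (nat_lit 10) nil (node
  (nat_lit 5) (nat_lit 47551) (nat_lit 10) nil nil)) (node (nat_lit 0) (nat_lit 43641) (nat_lit 9)
  nil nil))) (node (nat_lit 0) (nat_lit 44091) (nat_lit 8) (node (nat_lit 5) (nat_lit 43937)
  (nat_lit 9) nil (node (nat_lit 7) (nat_lit 44091) (nat_lit 9) nil (node (nat_lit 4) (nat_lit
  44091) (nat_lit 9) nil (node (nat_lit 10) (nat_lit 45497) (nat_lit 9) nil nil)))) nil)))) nil))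
  (node (nat_lit 0) (nat_lit 0) (nat_lit 6) (node (nat_lit 4) (nat_lit 36508) (nat_lit 7) (node
  (nat_lit 7) (nat_lit 41319) (nat_lit 8) (node (nat_lit 5) (nat_lit 44692) (nat_lit 9) (node
  (nat_lit 7) (nat_lit 47904) (nat_lit 10) (node (nat_lit 4) (nat_lit 45969) (nat_lit 11) (node
  (nat_lit 5) (nat_lit 43580) (nat_lit 12) (node (nat_lit 4) (nat_lit 37378) (nat_lit 13) (node
  (nat_lit 7) (nat_lit 30351) (nat_lit 14) nil nil) nil) nil) nil) (node (nat_lit 4) (nat_lit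
  45726) (nat_lit 10) nil nil)) (node (nat_lit 4) (nat_lit 45967) (nat_lit 9) (node (nat_lit 5)
  (nat_lit 48612) (nat_lit 10) nil nil) nil)) (node (nat_lit 5) (nat_lit 40444) (nat_lit 8) (node
  (nat_lit 7) (nat_lit 45837) (nat_lit 9) (node (nat_lit 4) (nat_lit 48482) (nat_lit 10) nil nil)
  (node (nat_lit 4) (nat_lit 45092) (nat_lit 9) (node (nat_lit 7) (nat_lit 46126) (nat_lit 10) nil
  nil) nil)) nil)) (node (nat_lit 7) (nat_lit 37394) (nat_lit 7) (node (nat_lit 5) (nat_lit 41266)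
  (nat_lit 8) (node (nat_lit 4) (nat_lit 45163) (nat_lit 9) (node (nat_lit 7) (nat_lit 46198)
  (nat_lit 10) (node (nat_lit 4) (nat_lit 48126) (nat_lit 11) (node (nat_lit 5) (nat_lit 49175)
  (nat_lit 12) nil nil) nil) (node (nat_lit 5) (nat_lit 43884) (nat_lit 10) nil nil)) (node
  (nat_lit 7) (nat_lit 45914) (nat_lit 9) nil nil)) (node (nat_lit 4) (nat_lit 41725) (nat_lit 8)
  (node (nat_lit 5) (nat_lit 46896) (nat_lit 9) nil (node (nat_lit 7) (nat_lit 43554) (nat_lit 9)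
  nil nil)) (node (nat_lit 9) (nat_lit 47465) (nat_lit 8) nil nil))) (node (nat_lit 5) (nat_lit
  36080) (nat_lit 7) (node (nat_lit 4) (nat_lit 40414) (nat_lit 8) (node (nat_lit 7) (nat_lit
  44913) (nat_lit 9) (node (nat_lit 4) (nat_lit 47558) (nat_lit 10) nil (node (nat_lit 5) (nat_lit
  43633) (nat_lit 10) nil nil)) (node (nat_lit 5) (nat_lit 44644) (nat_lit 9) nil nil)) (node
  (nat_lit 7) (nat_lit 41114) (nat_lit 8) (node (nat_lit 4) (nat_lit 45011) (nat_lit 9) (node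
  (nat_lit 5) (nat_lit 47656) (nat_lit 10) nil nil) (node (nat_lit 5) (nat_lit 45762) (nat_lit 9)
  nil nil)) (node (nat_lit 9) (nat_lit 41947) (nat_lit 8) nil nil))) (node (nat_lit 0) (nat_lit
  40824) (nat_lit 7) nil nil)))) nil)) nil)) nil) nil)) nil) nil)

noncomputable def c12 : Tr :=
  (node (nat_lit 1) (nat_lit 0) (nat_lit 1) (node (nat_lit 1) (nat_lit 0) (nat_lit 2) (node
  (nat_lit 1) (nat_lit 0) (nat_lit 3) (node (nat_lit 0) (nat_lit 41752) (nat_lit 4) (node (nat_lit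
  6) (nat_lit 42233) (nat_lit 5) nil (node (nat_lit 5) (nat_lit 42233) (nat_lit 5) nil nil)) (node
  (nat_lit 2) (nat_lit 41752) (nat_lit 4) (node (nat_lit 6) (nat_lit 42233) (nat_lit 5) (node
  (nat_lit 4) (nat_lit 39847) (nat_lit 6) (node (nat_lit 5) (nat_lit 37017) (nat_lit 7) (node
  (nat_lit 6) (nat_lit 31781) (nat_lit 8) (node (nat_lit 7) (nat_lit 20090) (nat_lit 9) nil nil)
  nil) nil) nil) (node (nat_lit 5) (nat_lit 42233) (nat_lit 5) nil nil)) (node (nat_lit 4)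
  (nat_lit 38790) (nat_lit 4) (node (nat_lit 5) (nat_lit 19921) (nat_lit 5) (node (nat_lit 4)
  (nat_lit 20090) (nat_lit 6) (node (nat_lit 6) (nat_lit 20090) (nat_lit 7) nil nil) nil) nil)
  (node (nat_lit 5) (nat_lit 0) (nat_lit 4) (node (nat_lit 2) (nat_lit 42233) (nat_lit 5) nil
  (node (nat_lit 0) (nat_lit 42233) (nat_lit 5) nil (node (nat_lit 4) (nat_lit 40213) (nat_lit 5)
  nil nil))) nil)))) (node (nat_lit 4) (nat_lit 0) (nat_lit 3) (node (nat_lit 0) (nat_lit 19997)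
  (nat_lit 4) nil (node (nat_lit 2) (nat_lit 19997) (nat_lit 4) nil (node (nat_lit 1) (nat_lit
  19575) (nat_lit 4) (node (nat_lit 5) (nat_lit 19997) (nat_lit 5) nil nil) nil))) (node (nat_lit
  0) (nat_lit 0) (nat_lit 3) (node (nat_lit 1) (nat_lit 41289) (nat_lit 4) (node (nat_lit 6)
  (nat_lit 41289) (nat_lit 5) nil (node (nat_lit 5) (nat_lit 41289) (nat_lit 5) nil nil)) (node
  (nat_lit 4) (nat_lit 41289) (nat_lit 4) (node (nat_lit 6) (nat_lit 41289) (nat_lit 5) nil (node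
  (nat_lit 5) (nat_lit 41289) (nat_lit 5) nil nil)) (node (nat_lit 5) (nat_lit 41289) (nat_lit 4)
  (node (nat_lit 4) (nat_lit 41289) (nat_lit 5) nil nil) (node (nat_lit 0) (nat_lit 41288)
  (nat_lit 4) nil (node (nat_lit 2) (nat_lit 41289) (nat_lit 4) nil nil))))) (node (nat_lit 2)
  (nat_lit 0) (nat_lit 3) (node (nat_lit 1) (nat_lit 37576) (nat_lit 4) (node (nat_lit 6) (nat_lit
  37576) (nat_lit 5) (node (nat_lit 5) (nat_lit 37576) (nat_lit 6) (node (nat_lit 7) (nat_lit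
  37576) (nat_lit 7) nil nil) nil) (node (nat_lit 5) (nat_lit 37576) (nat_lit 5) nil (node
  (nat_lit 4) (nat_lit 37153) (nat_lit 5) (node (nat_lit 5) (nat_lit 29033) (nat_lit 6) nil nil)
  nil))) (node (nat_lit 4) (nat_lit 37576) (nat_lit 4) (node (nat_lit 6) (nat_lit 37576) (nat_lit
  5) (node (nat_lit 5) (nat_lit 37576) (nat_lit 6) (node (nat_lit 4) (nat_lit 37576) (nat_lit 7)
  (node (nat_lit 5) (nat_lit 37576) (nat_lit 8) (node (nat_lit 6) (nat_lit 37576) (nat_lit 9)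
  (node (nat_lit 4) (nat_lit 33288) (nat_lit 10) nil nil) nil) nil) nil) nil) (node (nat_lit 1)
  (nat_lit 37576) (nat_lit 5) nil (node (nat_lit 5) (nat_lit 37576) (nat_lit 5) nil nil))) (node
  (nat_lit 5) (nat_lit 37576) (nat_lit 4) (node (nat_lit 1) (nat_lit 37576) (nat_lit 5) nil (node
  (nat_lit 4) (nat_lit 37576) (nat_lit 5) (node (nat_lit 5) (nat_lit 31836) (nat_lit 6) (node
  (nat_lit 6) (nat_lit 19698) (nat_lit 7) nil nil) nil) nil)) (node (nat_lit 0) (nat_lit 37576)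
  (nat_lit 4) nil (node (nat_lit 2) (nat_lit 37576) (nat_lit 4) (node (nat_lit 5) (nat_lit 37576)
  (nat_lit 5) nil nil) nil))))) nil)))) (node (nat_lit 0) (nat_lit 0) (nat_lit 2) (node (nat_lit
  1) (nat_lit 0) (nat_lit 3) (node (nat_lit 5) (nat_lit 43188) (nat_lit 4) (node (nat_lit 1)
  (nat_lit 43191) (nat_lit 5) nil (node (nat_lit 4) (nat_lit 43191) (nat_lit 5) nil nil)) (node
  (nat_lit 1) (nat_lit 43191) (nat_lit 4) nil (node (nat_lit 4) (nat_lit 43148) (nat_lit 4) (node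
  (nat_lit 5) (nat_lit 21123) (nat_lit 5) nil nil) (node (nat_lit 0) (nat_lit 43191) (nat_lit 4)
  nil (node (nat_lit 2) (nat_lit 42390) (nat_lit 4) nil nil))))) (node (nat_lit 4) (nat_lit 0)
  (nat_lit 3) (node (nat_lit 1) (nat_lit 39995) (nat_lit 4) nil (node (nat_lit 0) (nat_lit 39995)
  (nat_lit 4) nil (node (nat_lit 2) (nat_lit 39995) (nat_lit 4) nil nil))) (node (nat_lit 0)
  (nat_lit 0) (nat_lit 3) (node (nat_lit 1) (nat_lit 42247) (nat_lit 4) nil (node (nat_lit 5)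
  (nat_lit 42247) (nat_lit 4) nil (node (nat_lit 0) (nat_lit 42247) (nat_lit 4) nil (node (nat_lit
  2) (nat_lit 41046) (nat_lit 4) nil (node (nat_lit 4) (nat_lit 42247) (nat_lit 4) (node (nat_lit
  5) (nat_lit 42247) (nat_lit 5) nil nil) nil))))) (node (nat_lit 2) (nat_lit 0) (nat_lit 3) (node
  (nat_lit 1) (nat_lit 39396) (nat_lit 4) (node (nat_lit 4) (nat_lit 39396) (nat_lit 5) nil nil)
  (node (nat_lit 5) (nat_lit 39396) (nat_lit 4) nil (node (nat_lit 0) (nat_lit 39396) (nat_lit 4)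
  nil (node (nat_lit 2) (nat_lit 39396) (nat_lit 4) (node (nat_lit 5) (nat_lit 39396) (nat_lit 5)
  nil nil) (node (nat_lit 4) (nat_lit 39396) (nat_lit 4) (node (nat_lit 5) (nat_lit 39396)
  (nat_lit 5) nil nil) nil))))) nil)))) (node (nat_lit 2) (nat_lit 0) (nat_lit 2) (node (nat_lit
  1) (nat_lit 0) (nat_lit 3) (node (nat_lit 5) (nat_lit 0) (nat_lit 4) (node (nat_lit 1) (nat_lit
  38439) (nat_lit 5) (node (nat_lit 6) (nat_lit 38439) (nat_lit 6) nil (node (nat_lit 4) (nat_lit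
  38439) (nat_lit 6) (node (nat_lit 5) (nat_lit 37604) (nat_lit 7) (node (nat_lit 6) (nat_lit
  26934) (nat_lit 8) (node (nat_lit 5) (nat_lit 18717) (nat_lit 9) nil nil) nil) nil) nil)) (node
  (nat_lit 4) (nat_lit 37994) (nat_lit 5) (node (nat_lit 6) (nat_lit 38439) (nat_lit 6) (node
  (nat_lit 4) (nat_lit 38439) (nat_lit 7) (node (nat_lit 5) (nat_lit 38439) (nat_lit 8) (node
  (nat_lit 6) (nat_lit 38439) (nat_lit 9) (node (nat_lit 5) (nat_lit 38439) (nat_lit 10) (node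
  (nat_lit 4) (nat_lit 19721) (nat_lit 11) nil nil) nil) nil) nil) nil) nil) (node (nat_lit 0)
  (nat_lit 38439) (nat_lit 5) (node (nat_lit 6) (nat_lit 38439) (nat_lit 6) nil nil) (node
  (nat_lit 2) (nat_lit 38439) (nat_lit 5) (node (nat_lit 6) (nat_lit 38439) (nat_lit 6) nil nil)
  nil)))) (node (nat_lit 1) (nat_lit 38439) (nat_lit 4) (node (nat_lit 4) (nat_lit 38439) (nat_lit
  5) nil (node (nat_lit 5) (nat_lit 38439) (nat_lit 5) (node (nat_lit 6) (nat_lit 38439) (nat_lit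
  6) nil nil) nil)) (node (nat_lit 4) (nat_lit 28920) (nat_lit 4) (node (nat_lit 1) (nat_lit
  32043) (nat_lit 5) (node (nat_lit 4) (nat_lit 32773) (nat_lit 6) nil (node (nat_lit 6) (nat_lit
  32583) (nat_lit 6) nil nil)) (node (nat_lit 5) (nat_lit 19721) (nat_lit 5) nil (node (nat_lit 6)
  (nat_lit 29949) (nat_lit 5) (node (nat_lit 5) (nat_lit 31489) (nat_lit 6) nil nil) nil))) (node
  (nat_lit 0) (nat_lit 38439) (nat_lit 4) nil (node (nat_lit 2) (nat_lit 38015) (nat_lit 4) nil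
  nil))))) (node (nat_lit 4) (nat_lit 0) (nat_lit 3) (node (nat_lit 1) (nat_lit 36031) (nat_lit 4)
  (node (nat_lit 1) (nat_lit 36921) (nat_lit 5) nil (node (nat_lit 5) (nat_lit 36851) (nat_lit 5)
  (node (nat_lit 7) (nat_lit 36921) (nat_lit 6) (node (nat_lit 4) (nat_lit 36921) (nat_lit 7)
  (node (nat_lit 5) (nat_lit 36921) (nat_lit 8) (node (nat_lit 4) (nat_lit 36921) (nat_lit 9)
  (node (nat_lit 7) (nat_lit 31144) (nat_lit 10) (node (nat_lit 5) (nat_lit 18460) (nat_lit 11)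
  nil nil) nil) nil) nil) nil) nil) nil)) (node (nat_lit 0) (nat_lit 36921) (nat_lit 4) nil (node
  (nat_lit 2) (nat_lit 36921) (nat_lit 4) nil nil))) (node (nat_lit 0) (nat_lit 0) (nat_lit 3)
  (node (nat_lit 1) (nat_lit 39443) (nat_lit 4) (node (nat_lit 4) (nat_lit 39443) (nat_lit 5) nil
  nil) (node (nat_lit 5) (nat_lit 39443) (nat_lit 4) nil (node (nat_lit 0) (nat_lit 39443)
  (nat_lit 4) nil (node (nat_lit 2) (nat_lit 39443) (nat_lit 4) nil (node (nat_lit 4) (nat_lit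
  39443) (nat_lit 4) (node (nat_lit 5) (nat_lit 39443) (nat_lit 5) nil nil) nil))))) (node
  (nat_lit 2) (nat_lit 0) (nat_lit 3) (node (nat_lit 1) (nat_lit 38629) (nat_lit 4) (node (nat_lit
  4) (nat_lit 35888) (nat_lit 5) (node (nat_lit 5) (nat_lit 28877) (nat_lit 6) (node (nat_lit 6)
  (nat_lit 18284) (nat_lit 7) nil nil) nil) nil) (node (nat_lit 5) (nat_lit 36217) (nat_lit 4)
  (node (nat_lit 1) (nat_lit 38329) (nat_lit 5) nil (node (nat_lit 0) (nat_lit 37762) (nat_lit 5)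
  nil (node (nat_lit 2) (nat_lit 36639) (nat_lit 5) nil nil))) (node (nat_lit 0) (nat_lit 38699)
  (nat_lit 4) nil (node (nat_lit 4) (nat_lit 38699) (nat_lit 4) (node (nat_lit 5) (nat_lit 38699)
  (nat_lit 5) nil nil) (node (nat_lit 2) (nat_lit 35528) (nat_lit 4) (node (nat_lit 5) (nat_lit
  36639) (nat_lit 5) (node (nat_lit 7) (nat_lit 36639) (nat_lit 6) nil nil) (node (nat_lit 1)
  (nat_lit 37762) (nat_lit 5) nil (node (nat_lit 6) (nat_lit 36368) (nat_lit 5) nil (node (nat_lit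
  4) (nat_lit 37762) (nat_lit 5) nil nil)))) nil))))) nil)))) nil))) nil)

end Pool.Agent.Work.MP_7cb3ca_co.P3.D
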